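import Pool.Agent.Strip051.G.I9625_9688.Gn
import Pool.Agent.Strip051.PB.Corns
import Pool.Agent.Strip051.PB.CornW

/-! # Certificates of the aligned corners (generated) -/

set_option linter.all false

namespace Pool.Agent.Strip051.G.I9625_9688.Tab.CG

open Pool.Agent.Strip051.PB

def A011E_000 :
    ∃ t, chk3 (onCell 0 33554432 0 1073741824 1033476505 6710887 (corT true 1 c0B cA011E gB0q0 gB0q1 gB0q1 gB1q1 true false)) t 1 1 1 = true :=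
  ⟨(T.l 1), by decide +kernel⟩

def A011L_002 :
    ∃ t, chk3 (onCell 0 33554432 0 1073741824 1033476505 6710887 (corT true 1 c0B cA011L gB0q0 gB0q1 gB2q1 gB3q1 false true)) t 1 1 1 = true :=
  ⟨(T.l 2), by decide +kernel⟩

def A011L_003 :
    ∃ t, chk3 (onCell 0 33554432 0 1073741824 1033476505 6710887 (corT true 1 c0B cA011L gB0q0 gB0q1 gB3q1 gB4q1 true true)) t 1 1 1 = true :=
  ⟨(T.l 2), by decide +kernel⟩

def A011L_004 :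
    ∃ t, chk3 (onCell 0 33554432 0 1073741824 1033476505 6710887 (corT true 1 c0B cA011L gB0q0 gB0q1 gB4q1 gB5q1 true true)) t 1 1 1 = true :=
  ⟨(T.l 2), by decide +kernel⟩

def A011R_030 :
    ∃ t, chk3 (onCell 0 33554432 0 1073741824 1033476505 6710887 (corT true 1 c0B cA011R gB0q0 gB3q1 gB0q1 gB1q1 true false)) t 1 1 1 = true :=
  ⟨(T.b (T.b (T.b (T.b (T.b (T.b (T.a (T.l 0) (T.a (T.l 816) (T.l 816))) (T.b (T.a (T.l 0) (T.a (T.l 816) (T.l 816))) (T.l 1))) (T.l 1)) (T.l 1)) (T.l 1)) (T.l 1)) (T.l 1)), by decide +kernel⟩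

def A011R_040 :
    ∃ t, chk3 (onCell 0 33554432 0 1073741824 1033476505 6710887 (corT true 1 c0B cA011R gB0q0 gB4q1 gB0q1 gB1q1 true false)) t 1 1 1 = true :=
  ⟨(T.b (T.b (T.a (T.b (T.l 0) (T.b (T.l 0) (T.b (T.l 0) (T.b (T.a (T.a (T.a (T.l 0) (T.l 0)) (T.l 0)) (T.l 816)) (T.l 1))))) (T.b (T.b (T.l 816) (T.l 816)) (T.a (T.b (T.l 816) (T.a (T.l 816) (T.b (T.l 816) (T.l 816)))) (T.b (T.l 816) (T.b (T.l 816) (T.l 816)))))) (T.l 1)) (T.l 1)), by decide +kernel⟩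

def A011R_050 :
    ∃ t, chk3 (onCell 0 22369621 0 1073741824 1033476505 6710887 (corX 1 c0B cA011R tA011R gB0q0 gB5q1 gB0q1 gB1q1 gB0q1 true false)) t 1 1 1 = true :=
  ⟨(T.b (T.a (T.l 3) (T.b (T.a (T.l 0) (T.b (T.l 0) (T.l 0))) (T.b (T.b (T.l 207) (T.l 207)) (T.l 1)))) (T.l 1)), by decide +kernel⟩

def A011R_130 :
    ∃ t, chk3 (onCell 0 33554432 0 1073741824 1033476505 6710887 (corT true 1 c0B cA011R gB1q0 gB3q1 gB0q1 gB1q1 true false)) t 1 1 1 = true :=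
  ⟨(T.l 1), by decide +kernel⟩

def A011R_140 :
    ∃ t, chk3 (onCell 0 33554432 0 1073741824 1033476505 6710887 (corT true 1 c0B cA011R gB1q0 gB4q1 gB0q1 gB1q1 true false)) t 1 1 1 = true :=
  ⟨(T.b (T.b (T.b (T.a (T.a (T.a (T.l 816) (T.l 0)) (T.l 0)) (T.l 0)) (T.l 1)) (T.l 1)) (T.l 1)), by decide +kernel⟩

def A011R_150 :
    ∃ t, chk3 (onCell 0 33554432 0 1073741824 1033476505 6710887 (corT true 1 c0B cA011R gB1q0 gB5q1 gB0q1 gB1q1 true false)) t 1 1 1 = true :=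
  ⟨(T.b (T.b (T.b (T.a (T.a (T.a (T.l 816) (T.l 0)) (T.l 0)) (T.b (T.l 0) (T.l 0))) (T.b (T.a (T.a (T.a (T.l 816) (T.l 0)) (T.l 0)) (T.l 0)) (T.l 1))) (T.l 1)) (T.l 1)), by decide +kernel⟩

def A011R_230 :
    ∃ t, chk3 (onCell 0 33554432 0 1073741824 1033476505 6710887 (corT true 1 c0B cA011R gB2q0 gB3q1 gB0q1 gB1q1 true false)) t 1 1 1 = true :=
  ⟨(T.l 1), by decide +kernel⟩

def A011R_240 :
    ∃ t, chk3 (onCell 0 33554432 0 1073741824 1033476505 6710887 (corT true 1 c0B cA011R gB2q0 gB4q1 gB0q1 gB1q1 true false)) t 1 1 1 = true :=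
  ⟨(T.l 1), by decide +kernel⟩

def A011R_250 :
    ∃ t, chk3 (onCell 0 33554432 0 1073741824 1033476505 6710887 (corT true 1 c0B cA011R gB2q0 gB5q1 gB0q1 gB1q1 true false)) t 1 1 1 = true :=
  ⟨(T.l 1), by decide +kernel⟩

def A012E_000 :
    ∃ t, chk3 (onCell 0 16777216 0 1073741824 1033476505 6710887 (corX 1 c0B cA012E tA012E gB0q0 gB0q1 gB0q2 gB1q2 gB0q2 true true)) t 1 1 1 = true :=
  ⟨(T.b (T.b (T.l 1) (T.b (T.l 1) (T.b (T.l 1) (T.b (T.l 1) (T.b (T.l 1) (T.a (T.l 207) (T.a (T.l 207) (T.l 463)))))))) (T.b (T.b (T.b (T.a (T.a (T.l 207) (T.l 207)) (T.a (T.b (T.l 207) (T.l 207)) (T.a (T.l 207) (T.b (T.a (T.l 207) (T.b (T.l 207) (T.a (T.l 207) (T.b (T.l 207) (T.a (T.l 207) (T.b (T.l 204) (T.l 204))))))) (T.b (T.a (T.l 207) (T.a (T.b (T.l 207) (T.a (T.l 207) (T.l 460))) (T.b (T.a (T.b (T.l 204) (T.l 204)) (T.b (T.l 204) (T.l 204))) (T.a (T.b (T.l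 204) (T.l 204)) (T.l 204))))) (T.b (T.a (T.l 207) (T.b (T.a (T.c (T.l 204) (T.l 204)) (T.l 460)) (T.l 2))) (T.l 2))))))) (T.l 2)) (T.l 2)) (T.l 2))), by decide +kernel⟩

def A012E_001 :
    ∃ t, chk3 (onCell 0 16777216 0 1073741824 1033476505 6710887 (corT true 1 c0B cA012E gB0q0 gB0q1 gB1q2 gB2q2 true true)) t 1 1 1 = true :=
  ⟨(T.b (T.l 1) (T.b (T.b (T.b (T.b (T.l 1) (T.b (T.l 1) (T.a (T.a (T.l 204) (T.l 460)) (T.b (T.a (T.a (T.l 204) (T.l 204)) (T.a (T.l 204) (T.l 204))) (T.l 204))))) (T.b (T.a (T.l 204) (T.l 204)) (T.l 204))) (T.b (T.l 204) (T.l 204))) (T.l 2))), by decide +kernel⟩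

def A012E_002 :
    ∃ t, chk3 (onCell 0 16777216 0 1073741824 1033476505 6710887 (corT true 1 c0B cA012E gB0q0 gB0q1 gB2q2 gB3q2 true false)) t 1 1 1 = true :=
  ⟨(T.b (T.l 1) (T.b (T.b (T.l 1) (T.b (T.l 1) (T.l 204))) (T.l 0))), by decide +kernel⟩

def A012L_004 :
    ∃ t, chk3 (onCell 0 33554432 0 1073741824 1033476505 6710887 (corT true 1 c0B cA012L gB0q0 gB0q1 gB4q2 gB5q2 false true)) t 1 1 1 = true :=
  ⟨(T.l 2), by decide +kernel⟩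

def A012R_030 :
    ∃ t, chk3 (onCell 0 33554432 0 1073741824 1033476505 6710887 (corT true 1 c0B cA012R gB0q0 gB3q1 gB0q2 gB1q2 true true)) t 1 1 1 = true :=
  ⟨(T.b (T.l 2) (T.l 2)), by decide +kernel⟩

def A012R_031 :
    ∃ t, chk3 (onCell 0 33554432 0 1073741824 1033476505 6710887 (corT true 1 c0B cA012R gB0q0 gB3q1 gB1q2 gB2q2 true true)) t 1 1 1 = true :=
  ⟨(T.b (T.l 2) (T.l 2)), by decide +kernel⟩

def A012R_032 :
    ∃ t, chk3 (onCell 0 33554432 0 1073741824 1033476505 6710887 (corT true 1 c0B cA012R gB0q0 gB3q1 gB2q2 gB3q2 true false)) t 1 1 1 = true :=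
  ⟨(T.a (T.b (T.b (T.l 0) (T.l 816)) (T.l 816)) (T.b (T.a (T.l 0) (T.l 816)) (T.b (T.l 816) (T.b (T.l 816) (T.l 816))))), by decide +kernel⟩

def A012R_040 :
    ∃ t, chk3 (onCell 0 33554432 0 1073741824 1033476505 6710887 (corT true 1 c0B cA012R gB0q0 gB4q1 gB0q2 gB1q2 true true)) t 1 1 1 = true :=
  ⟨(T.l 2), by decide +kernel⟩

def A012R_041 :
    ∃ t, chk3 (onCell 0 33554432 0 1073741824 1033476505 6710887 (corT true 1 c0B cA012R gB0q0 gB4q1 gB1q2 gB2q2 true true)) t 1 1 1 = true :=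
  ⟨(T.l 2), by decide +kernel⟩

def A012R_042 :
    ∃ t, chk3 (onCell 0 33554432 0 1073741824 1033476505 6710887 (corT true 1 c0B cA012R gB0q0 gB4q1 gB2q2 gB3q2 true false)) t 1 1 1 = true :=
  ⟨(T.a (T.l 0) (T.b (T.l 0) (T.b (T.l 816) (T.b (T.l 816) (T.l 816))))), by decide +kernel⟩

def A012R_050 :
    ∃ t, chk3 (onCell 0 33554432 0 1073741824 1033476505 6710887 (corT true 1 c0B cA012R gB0q0 gB5q1 gB0q2 gB1q2 true true)) t 1 1 1 = true :=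
  ⟨(T.l 2), by decide +kernel⟩

def A012R_051 :
    ∃ t, chk3 (onCell 0 33554432 0 1073741824 1033476505 6710887 (corT true 1 c0B cA012R gB0q0 gB5q1 gB1q2 gB2q2 true true)) t 1 1 1 = true :=
  ⟨(T.l 2), by decide +kernel⟩

def A012R_052 :
    ∃ t, chk3 (onCell 0 33554432 0 1073741824 1033476505 6710887 (corT true 1 c0B cA012R gB0q0 gB5q1 gB2q2 gB3q2 true false)) t 1 1 1 = true :=
  ⟨(T.a (T.l 0) (T.a (T.l 0) (T.b (T.b (T.l 0) (T.l 816)) (T.b (T.l 816) (T.l 816))))), by decide +kernel⟩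

def A012R_130 :
    ∃ t, chk3 (onCell 0 33554432 0 1073741824 1033476505 6710887 (corT true 1 c0B cA012R gB1q0 gB3q1 gB0q2 gB1q2 true true)) t 1 1 1 = true :=
  ⟨(T.b (T.b (T.b (T.l 1) (T.b (T.a (T.a (T.a (T.l 816) (T.l 0)) (T.l 0)) (T.l 0)) (T.a (T.a (T.a (T.l 816) (T.l 816)) (T.l 816)) (T.l 816)))) (T.l 2)) (T.l 2)), by decide +kernel⟩

def A012R_131 :
    ∃ t, chk3 (onCell 0 33554432 0 1073741824 1033476505 6710887 (corT true 1 c0B cA012R gB1q0 gB3q1 gB1q2 gB2q2 true true)) t 1 1 1 = true :=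
  ⟨(T.b (T.b (T.a (T.a (T.a (T.l 0) (T.l 0)) (T.l 0)) (T.l 0)) (T.a (T.a (T.a (T.l 816) (T.l 816)) (T.l 816)) (T.l 816))) (T.b (T.l 2) (T.l 2))), by decide +kernel⟩

def A012R_132 :
    ∃ t, chk3 (onCell 0 33554432 0 1073741824 1033476505 6710887 (corT true 1 c0B cA012R gB1q0 gB3q1 gB2q2 gB3q2 true false)) t 1 1 1 = true :=
  ⟨(T.b (T.a (T.a (T.a (T.l 816) (T.l 0)) (T.l 0)) (T.l 0)) (T.b (T.a (T.a (T.a (T.l 816) (T.l 816)) (T.l 816)) (T.l 816)) (T.a (T.a (T.a (T.l 816) (T.l 816)) (T.l 816)) (T.l 0)))), by decide +kernel⟩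

def A012R_140 :
    ∃ t, chk3 (onCell 0 33554432 0 1073741824 1033476505 6710887 (corT true 1 c0B cA012R gB1q0 gB4q1 gB0q2 gB1q2 true true)) t 1 1 1 = true :=
  ⟨(T.b (T.l 2) (T.l 2)), by decide +kernel⟩

def A012R_141 :
    ∃ t, chk3 (onCell 0 33554432 0 1073741824 1033476505 6710887 (corT true 1 c0B cA012R gB1q0 gB4q1 gB1q2 gB2q2 true true)) t 1 1 1 = true :=
  ⟨(T.b (T.l 2) (T.l 2)), by decide +kernel⟩

def A012R_142 :
    ∃ t, chk3 (onCell 0 33554432 0 1073741824 1033476505 6710887 (corT true 1 c0B cA012R gB1q0 gB4q1 gB2q2 gB3q2 true false)) t 1 1 1 = true :=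
  ⟨(T.b (T.a (T.a (T.a (T.l 0) (T.l 0)) (T.l 0)) (T.l 0)) (T.b (T.a (T.a (T.a (T.l 816) (T.l 816)) (T.l 816)) (T.l 816)) (T.a (T.a (T.a (T.l 816) (T.l 816)) (T.l 816)) (T.l 0)))), by decide +kernel⟩

def A012R_150 :
    ∃ t, chk3 (onCell 0 33554432 0 1073741824 1033476505 6710887 (corT true 1 c0B cA012R gB1q0 gB5q1 gB0q2 gB1q2 true true)) t 1 1 1 = true :=
  ⟨(T.l 2), by decide +kernel⟩

def A012R_151 :
    ∃ t, chk3 (onCell 0 33554432 0 1073741824 1033476505 6710887 (corT true 1 c0B cA012R gB1q0 gB5q1 gB1q2 gB2q2 true true)) t 1 1 1 = true :=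
  ⟨(T.l 2), by decide +kernel⟩

def A012R_152 :
    ∃ t, chk3 (onCell 0 33554432 0 1073741824 1033476505 6710887 (corT true 1 c0B cA012R gB1q0 gB5q1 gB2q2 gB3q2 true false)) t 1 1 1 = true :=
  ⟨(T.b (T.b (T.a (T.a (T.a (T.l 0) (T.l 0)) (T.l 0)) (T.b (T.l 0) (T.l 0))) (T.a (T.a (T.a (T.l 816) (T.l 816)) (T.l 816)) (T.l 816))) (T.b (T.a (T.a (T.a (T.l 816) (T.l 816)) (T.l 816)) (T.l 816)) (T.a (T.a (T.a (T.l 816) (T.l 816)) (T.l 816)) (T.l 64)))), by decide +kernel⟩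

def A012R_230 :
    ∃ t, chk3 (onCell 0 33554432 0 1073741824 1033476505 6710887 (corT true 1 c0B cA012R gB2q0 gB3q1 gB0q2 gB1q2 true true)) t 1 1 1 = true :=
  ⟨(T.b (T.l 1) (T.b (T.b (T.b (T.a (T.l 1) (T.l 820)) (T.a (T.a (T.a (T.l 816) (T.l 816)) (T.l 816)) (T.b (T.l 816) (T.l 816)))) (T.b (T.a (T.a (T.a (T.l 816) (T.l 816)) (T.l 816)) (T.b (T.l 816) (T.l 816))) (T.a (T.a (T.a (T.l 816) (T.l 816)) (T.b (T.l 816) (T.l 816))) (T.a (T.l 816) (T.l 2))))) (T.b (T.b (T.l 2) (T.l 2)) (T.l 2)))), by decide +kernel⟩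

def A012R_231 :
    ∃ t, chk3 (onCell 0 33554432 0 1073741824 1033476505 6710887 (corT true 1 c0B cA012R gB2q0 gB3q1 gB1q2 gB2q2 true true)) t 1 1 1 = true :=
  ⟨(T.b (T.l 1) (T.b (T.a (T.a (T.a (T.l 816) (T.l 816)) (T.l 816)) (T.l 816)) (T.b (T.a (T.a (T.a (T.l 816) (T.l 816)) (T.l 816)) (T.b (T.l 0) (T.l 0))) (T.a (T.a (T.a (T.l 816) (T.l 816)) (T.l 816)) (T.b (T.l 0) (T.l 0)))))), by decide +kernel⟩

def A012R_232 :
    ∃ t, chk3 (onCell 0 33554432 0 1073741824 1033476505 6710887 (corT true 1 c0B cA012R gB2q0 gB3q1 gB2q2 gB3q2 true false)) t 1 1 1 = true :=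
  ⟨(T.l 1), by decide +kernel⟩

def A012R_240 :
    ∃ t, chk3 (onCell 0 33554432 0 1073741824 1033476505 6710887 (corT true 1 c0B cA012R gB2q0 gB4q1 gB0q2 gB1q2 true true)) t 1 1 1 = true :=
  ⟨(T.b (T.b (T.l 1) (T.b (T.l 1) (T.b (T.a (T.l 1) (T.l 816)) (T.a (T.a (T.a (T.l 816) (T.l 816)) (T.l 816)) (T.b (T.l 816) (T.l 816)))))) (T.b (T.b (T.b (T.a (T.a (T.a (T.l 816) (T.l 816)) (T.l 816)) (T.b (T.l 816) (T.l 816))) (T.a (T.a (T.a (T.l 816) (T.l 816)) (T.l 816)) (T.b (T.l 816) (T.l 816)))) (T.b (T.a (T.b (T.a (T.a (T.l 816) (T.l 816)) (T.l 2)) (T.l 2)) (T.l 2)) (T.l 2))) (T.l 2))), by decide +kernel⟩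

def A012R_241 :
    ∃ t, chk3 (onCell 0 33554432 0 1073741824 1033476505 6710887 (corT true 1 c0B cA012R gB2q0 gB4q1 gB1q2 gB2q2 true true)) t 1 1 1 = true :=
  ⟨(T.b (T.l 1) (T.b (T.a (T.a (T.a (T.l 816) (T.l 816)) (T.l 816)) (T.l 816)) (T.b (T.a (T.a (T.a (T.l 816) (T.l 816)) (T.l 816)) (T.b (T.l 0) (T.l 0))) (T.a (T.a (T.a (T.l 816) (T.l 816)) (T.l 816)) (T.b (T.l 0) (T.l 0)))))), by decide +kernel⟩

def A012R_242 :
    ∃ t, chk3 (onCell 0 33554432 0 1073741824 1033476505 6710887 (corT true 1 c0B cA012R gB2q0 gB4q1 gB2q2 gB3q2 true false)) t 1 1 1 = true :=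
  ⟨(T.l 1), by decide +kernel⟩

def A012R_250 :
    ∃ t, chk3 (onCell 0 33554432 0 1073741824 1033476505 6710887 (corT true 1 c0B cA012R gB2q0 gB5q1 gB0q2 gB1q2 true true)) t 1 1 1 = true :=
  ⟨(T.b (T.b (T.l 1) (T.b (T.b (T.l 1) (T.a (T.a (T.l 1) (T.l 0)) (T.l 816))) (T.b (T.a (T.a (T.a (T.l 816) (T.l 816)) (T.l 816)) (T.b (T.l 816) (T.l 816))) (T.a (T.a (T.a (T.l 816) (T.l 816)) (T.l 816)) (T.b (T.l 816) (T.l 816)))))) (T.b (T.b (T.b (T.a (T.b (T.a (T.a (T.l 816) (T.l 816)) (T.l 816)) (T.a (T.a (T.l 816) (T.l 816)) (T.l 816))) (T.b (T.l 880) (T.l 2))) (T.a (T.b (T.a (T.a (T.l 816) (T.l 2)) (T.l 2)) (T.l 2)) (T.l 2))) (T.l 2)) (T.l 2))), by decide +kernel⟩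

def A012R_251 :
    ∃ t, chk3 (onCell 0 33554432 0 1073741824 1033476505 6710887 (corT true 1 c0B cA012R gB2q0 gB5q1 gB1q2 gB2q2 true true)) t 1 1 1 = true :=
  ⟨(T.b (T.b (T.l 1) (T.a (T.l 1) (T.l 0))) (T.b (T.a (T.a (T.a (T.l 816) (T.l 816)) (T.l 816)) (T.l 816)) (T.a (T.a (T.a (T.l 816) (T.l 816)) (T.l 816)) (T.a (T.l 816) (T.l 816))))), by decide +kernel⟩

def A012R_252 :
    ∃ t, chk3 (onCell 0 33554432 0 1073741824 1033476505 6710887 (corT true 1 c0B cA012R gB2q0 gB5q1 gB2q2 gB3q2 true false)) t 1 1 1 = true :=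
  ⟨(T.l 1), by decide +kernel⟩

def A022E_000 :
    ∃ t, chk3 (onCell 0 26843545 0 1073741824 1033476505 6710887 (corT true 1 c0B cA022E gB0q0 gB0q2 gB0q2 gB1q2 true true)) t 1 1 1 = true :=
  ⟨(T.l 2), by decide +kernel⟩

def A022E_001 :
    ∃ t, chk3 (onCell 0 26843545 0 1073741824 1033476505 6710887 (corT true 1 c0B cA022E gB0q0 gB0q2 gB1q2 gB2q2 true true)) t 1 1 1 = true :=
  ⟨(T.l 2), by decide +kernel⟩

def A022E_002 :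
    ∃ t, chk3 (onCell 0 26843545 0 1073741824 1033476505 6710887 (corT true 1 c0B cA022E gB0q0 gB0q2 gB2q2 gB3q2 true false)) t 1 1 1 = true :=
  ⟨(T.b (T.b (T.a (T.a (T.l 204) (T.a (T.b (T.l 204) (T.l 204)) (T.b (T.l 204) (T.l 204)))) (T.a (T.b (T.l 204) (T.l 204)) (T.b (T.l 0) (T.l 204)))) (T.a (T.a (T.l 204) (T.a (T.l 204) (T.b (T.l 204) (T.l 204)))) (T.a (T.b (T.l 204) (T.l 204)) (T.b (T.l 204) (T.l 0))))) (T.a (T.l 0) (T.b (T.b (T.a (T.l 204) (T.l 0)) (T.a (T.l 0) (T.l 0))) (T.a (T.l 0) (T.l 0))))), by decide +kernel⟩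

def A022E_010 :
    ∃ t, chk3 (onCell 0 33554432 0 1073741824 1033476505 6710887 (corT true 1 c0B cA022E gB0q0 gB1q2 gB0q2 gB1q2 true true)) t 1 1 1 = true :=
  ⟨(T.l 2), by decide +kernel⟩

def A022E_011 :
    ∃ t, chk3 (onCell 0 33554432 0 1073741824 1033476505 6710887 (corT true 1 c0B cA022E gB0q0 gB1q2 gB1q2 gB2q2 true true)) t 1 1 1 = true :=
  ⟨(T.l 2), by decide +kernel⟩

def A022E_012 :
    ∃ t, chk3 (onCell 0 33554432 0 1073741824 1033476505 6710887 (corT true 1 c0B cA022E gB0q0 gB1q2 gB2q2 gB3q2 true false)) t 1 1 1 = true :=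
  ⟨(T.a (T.l 0) (T.b (T.b (T.a (T.l 204) (T.b (T.l 204) (T.l 204))) (T.l 0)) (T.b (T.b (T.l 0) (T.l 0)) (T.a (T.l 0) (T.l 0))))), by decide +kernel⟩

def A022E_020 :
    ∃ t, chk3 (onCell 0 33554432 0 1073741824 1033476505 6710887 (corT true 1 c0B cA022E gB0q0 gB2q2 gB0q2 gB1q2 true true)) t 1 1 1 = true :=
  ⟨(T.l 2), by decide +kernel⟩

def A022E_021 :
    ∃ t, chk3 (onCell 0 33554432 0 1073741824 1033476505 6710887 (corT true 1 c0B cA022E gB0q0 gB2q2 gB1q2 gB2q2 true true)) t 1 1 1 = true :=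
  ⟨(T.l 2), by decide +kernel⟩

def A022E_022 :
    ∃ t, chk3 (onCell 0 33554432 0 1073741824 1033476505 6710887 (corT true 1 c0B cA022E gB0q0 gB2q2 gB2q2 gB3q2 true false)) t 1 1 1 = true :=
  ⟨(T.a (T.l 0) (T.b (T.b (T.a (T.l 204) (T.l 204)) (T.l 204)) (T.b (T.b (T.l 204) (T.l 0)) (T.a (T.l 0) (T.l 0))))), by decide +kernel⟩

def A022E_110 :
    ∃ t, chk3 (onCell 0 33554432 0 1073741824 1033476505 6710887 (corT true 1 c0B cA022E gB1q0 gB1q2 gB0q2 gB1q2 true true)) t 1 1 1 = true :=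
  ⟨(T.l 2), by decide +kernel⟩

def A022E_111 :
    ∃ t, chk3 (onCell 0 33554432 0 1073741824 1033476505 6710887 (corT true 1 c0B cA022E gB1q0 gB1q2 gB1q2 gB2q2 true true)) t 1 1 1 = true :=
  ⟨(T.l 2), by decide +kernel⟩

def A022E_112 :
    ∃ t, chk3 (onCell 0 33554432 0 1073741824 1033476505 6710887 (corT true 1 c0B cA022E gB1q0 gB1q2 gB2q2 gB3q2 true false)) t 1 1 1 = true :=
  ⟨(T.b (T.b (T.a (T.l 204) (T.b (T.a (T.l 204) (T.l 204)) (T.a (T.l 204) (T.l 0)))) (T.a (T.a (T.l 204) (T.b (T.l 204) (T.l 0))) (T.b (T.b (T.l 0) (T.l 0)) (T.l 0)))) (T.b (T.a (T.a (T.l 204) (T.b (T.l 0) (T.l 0))) (T.b (T.l 0) (T.l 0))) (T.a (T.a (T.a (T.l 0) (T.b (T.l 0) (T.l 0))) (T.b (T.l 0) (T.l 0))) (T.a (T.l 0) (T.l 0))))), by decide +kernel⟩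

def A022E_120 :
    ∃ t, chk3 (onCell 0 33554432 0 1073741824 1033476505 6710887 (corT true 1 c0B cA022E gB1q0 gB2q2 gB0q2 gB1q2 true true)) t 1 1 1 = true :=
  ⟨(T.l 2), by decide +kernel⟩

def A022E_121 :
    ∃ t, chk3 (onCell 0 33554432 0 1073741824 1033476505 6710887 (corT true 1 c0B cA022E gB1q0 gB2q2 gB1q2 gB2q2 true true)) t 1 1 1 = true :=
  ⟨(T.l 2), by decide +kernel⟩

def A022E_122 :
    ∃ t, chk3 (onCell 0 33554432 0 1073741824 1033476505 6710887 (corT true 1 c0B cA022E gB1q0 gB2q2 gB2q2 gB3q2 true false)) t 1 1 1 = true :=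
  ⟨(T.b (T.b (T.a (T.l 204) (T.b (T.b (T.l 204) (T.l 204)) (T.b (T.l 204) (T.l 0)))) (T.a (T.a (T.l 204) (T.b (T.l 204) (T.l 0))) (T.b (T.b (T.l 204) (T.l 204)) (T.l 0)))) (T.b (T.a (T.a (T.l 204) (T.b (T.l 0) (T.l 0))) (T.b (T.l 0) (T.l 0))) (T.a (T.a (T.a (T.l 0) (T.b (T.l 0) (T.l 0))) (T.b (T.l 0) (T.l 0))) (T.b (T.l 0) (T.l 0))))), by decide +kernel⟩

def A022E_220 :
    ∃ t, chk3 (onCell 0 33554432 0 1073741824 1033476505 6710887 (corT true 1 c0B cA022E gB2q0 gB2q2 gB0q2 gB1q2 true true)) t 1 1 1 = true :=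
  ⟨(T.l 2), by decide +kernel⟩

def A022E_221 :
    ∃ t, chk3 (onCell 0 33554432 0 1073741824 1033476505 6710887 (corT true 1 c0B cA022E gB2q0 gB2q2 gB1q2 gB2q2 true true)) t 1 1 1 = true :=
  ⟨(T.l 2), by decide +kernel⟩

def A022E_222 :
    ∃ t, chk3 (onCell 0 33554432 0 1073741824 1033476505 6710887 (corT true 1 c0B cA022E gB2q0 gB2q2 gB2q2 gB3q2 true false)) t 1 1 1 = true :=
  ⟨(T.b (T.b (T.a (T.l 204) (T.b (T.b (T.l 204) (T.l 204)) (T.b (T.l 204) (T.l 0)))) (T.b (T.a (T.l 204) (T.b (T.l 204) (T.l 204))) (T.a (T.a (T.l 204) (T.l 204)) (T.l 16)))) (T.b (T.a (T.a (T.l 204) (T.b (T.l 0) (T.l 0))) (T.b (T.l 0) (T.l 0))) (T.a (T.a (T.a (T.l 0) (T.b (T.l 0) (T.l 0))) (T.b (T.l 0) (T.l 0))) (T.b (T.l 0) (T.l 0))))), by decide +kernel⟩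

def A022L_004_1_2_1 :
    ∃ t, chk3 (onCell 0 22369621 0 1073741824 1033476505 6710887 (corX 1 c0B cA022L tA022L gB0q0 gB0q2 gB4q2 gB5q2 gB5q2 false true)) t 1 2 1 = true :=
  ⟨(T.b (T.b (T.a (T.a (T.b (T.l 207) (T.l 207)) (T.a (T.l 207) (T.a (T.b (T.l 204) (T.b (T.l 204) (T.l 204))) (T.b (T.l 204) (T.l 204))))) (T.a (T.a (T.a (T.b (T.l 204) (T.l 204)) (T.b (T.l 204) (T.l 204))) (T.a (T.b (T.l 204) (T.l 204)) (T.b (T.l 204) (T.l 204)))) (T.a (T.b (T.b (T.l 204) (T.l 204)) (T.b (T.l 204) (T.l 204))) (T.b (T.b (T.l 204) (T.l 204)) (T.b (T.l 204) (T.l 204)))))) (T.a (T.a (T.b (T.l 207) (T.l 207)) (T.a (T.l 207) (T.a (T.l 207) (T.b (T.b (T.l 204) (T.l 204)) (T.b (T.l 204) (T.l 207)))))) (T.a (T.a (T.a (T.b (T.l 204) (T.b (T.l 204) (T.l 204))) (T.b (T.l 204) (T.l 204))) (T.b (T.b (T.l 204) (T.l 204)) (T.b (T.l 204) (T.l 204)))) (T.a (T.b (T.b (T.l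 204) (T.l 204)) (T.b (T.l 204) (T.l 204))) (T.b (T.b (T.l 204) (T.l 204)) (T.b (T.l 204) (T.l 204))))))) (T.b (T.a (T.a (T.b (T.l 207) (T.l 207)) (T.l 207)) (T.a (T.a (T.b (T.a (T.b (T.l 204) (T.l 204)) (T.b (T.l 204) (T.l 204))) (T.a (T.l 207) (T.b (T.l 204) (T.l 204)))) (T.b (T.a (T.l 204) (T.l 204)) (T.a (T.b (T.l 204) (T.l 204)) (T.l 204)))) (T.a (T.b (T.b (T.l 204) (T.l 204)) (T.a (T.l 204) (T.l 204))) (T.b (T.b (T.l 204) (T.l 204)) (T.b (T.l 204) (T.l 204)))))) (T.a (T.a (T.b (T.l 207) (T.l 207)) (T.l 207)) (T.a (T.a (T.l 207) (T.b (T.a (T.b (T.l 204) (T.l 204)) (T.b (T.l 204) (T.l 204))) (T.a (T.l 207) (T.b (T.l 204) (T.b (T.l 204) (T.l 207)))))) (T.a (T.b (T.a (T.b (T.l 204) (T.l 204)) (T.b (T.l 204) (T.l 204))) (T.b (T.b (T.l 204) (T.l 204)) (T.a (T.l 204) (T.l 204)))) (T.b (T.b (T.b (T.l 204) (T.l 204)) (T.b (T.l 204) (T.l 204))) (T.b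 (T.b (T.l 204) (T.l 204)) (T.b (T.l 204) (T.l 204))))))))), by decide +kernel⟩

def A022L_004_1_3_1 :
    ∃ t, chk3 (onCell 0 22369621 0 1073741824 1033476505 6710887 (corX 1 c0B cA022L tA022L gB0q0 gB0q2 gB4q2 gB5q2 gB5q2 false true)) t 1 3 1 = true :=
  ⟨(T.b (T.a (T.a (T.b (T.b (T.l 207) (T.l 207)) (T.b (T.l 207) (T.l 2))) (T.a (T.l 223) (T.l 207))) (T.b (T.a (T.l 207) (T.b (T.a (T.b (T.a (T.b (T.l 204) (T.l 204)) (T.b (T.l 204) (T.l 204))) (T.a (T.l 207) (T.b (T.l 204) (T.l 204)))) (T.b (T.a (T.l 204) (T.l 204)) (T.a (T.b (T.l 204) (T.l 204)) (T.b (T.l 204) (T.l 204))))) (T.a (T.l 207) (T.b (T.a (T.b (T.l 204) (T.b (T.l 204) (T.l 207))) (T.b (T.l 204) (T.l 220))) (T.a (T.l 207) (T.b (T.b (T.l 204) (T.l 204)) (T.l 207))))))) (T.a (T.l 223) (T.l 207)))) (T.l 2)), by decide +kernel⟩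

theorem A022L_004 :
    ∃ t, chk3 (onCell 0 22369621 0 1073741824 1033476505 6710887 (corX 1 c0B cA022L tA022L gB0q0 gB0q2 gB4q2 gB5q2 gB5q2 false true)) t 1 1 1 = true :=
  ex3_b A022L_004_1_2_1 A022L_004_1_3_1

def A022L_014 :
    ∃ t, chk3 (onCell 0 33554432 0 1073741824 1033476505 6710887 (corT true 1 c0B cA022L gB0q0 gB1q2 gB4q2 gB5q2 false true)) t 1 1 1 = true :=
  ⟨(T.b (T.a (T.l 0) (T.b (T.a (T.l 204) (T.b (T.l 204) (T.b (T.l 204) (T.l 204)))) (T.l 0))) (T.b (T.b (T.a (T.b (T.l 0) (T.b (T.l 816) (T.l 2))) (T.a (T.l 0) (T.a (T.b (T.l 0) (T.l 816)) (T.l 0)))) (T.l 2)) (T.l 2))), by decide +kernel⟩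

def A022L_024 :
    ∃ t, chk3 (onCell 0 33554432 0 1073741824 1033476505 6710887 (corT true 1 c0B cA022L gB0q0 gB2q2 gB4q2 gB5q2 false true)) t 1 1 1 = true :=
  ⟨(T.b (T.b (T.a (T.l 816) (T.a (T.l 816) (T.l 0))) (T.l 2)) (T.l 2)), by decide +kernel⟩

def A022L_114 :
    ∃ t, chk3 (onCell 0 33554432 0 1073741824 1033476505 6710887 (corT true 1 c0B cA022L gB1q0 gB1q2 gB4q2 gB5q2 false true)) t 1 1 1 = true :=
  ⟨(T.b (T.b (T.a (T.l 204) (T.a (T.l 204) (T.b (T.l 204) (T.b (T.l 204) (T.l 204))))) (T.b (T.a (T.l 0) (T.b (T.l 0) (T.l 0))) (T.b (T.a (T.a (T.l 0) (T.l 0)) (T.l 0)) (T.a (T.a (T.l 816) (T.l 0)) (T.l 0))))) (T.l 2)), by decide +kernel⟩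

def A022L_124 :
    ∃ t, chk3 (onCell 0 33554432 0 1073741824 1033476505 6710887 (corT true 1 c0B cA022L gB1q0 gB2q2 gB4q2 gB5q2 false true)) t 1 1 1 = true :=
  ⟨(T.b (T.b (T.a (T.l 816) (T.b (T.l 0) (T.b (T.l 0) (T.l 2)))) (T.l 2)) (T.l 2)), by decide +kernel⟩

def A022L_224 :
    ∃ t, chk3 (onCell 0 33554432 0 1073741824 1033476505 6710887 (corT true 1 c0B cA022L gB2q0 gB2q2 gB4q2 gB5q2 false true)) t 1 1 1 = true :=
  ⟨(T.b (T.b (T.b (T.a (T.l 816) (T.l 0)) (T.l 2)) (T.l 2)) (T.l 2)), by decide +kernel⟩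

def A022R_050 :
    ∃ t, chk3 (onCell 0 33554432 0 1073741824 1033476505 6710887 (corT true 1 c0B cA022R gB0q0 gB5q2 gB0q2 gB1q2 true true)) t 1 1 1 = true :=
  ⟨(T.l 2), by decide +kernel⟩

def A022R_051 :
    ∃ t, chk3 (onCell 0 33554432 0 1073741824 1033476505 6710887 (corT true 1 c0B cA022R gB0q0 gB5q2 gB1q2 gB2q2 true true)) t 1 1 1 = true :=
  ⟨(T.l 2), by decide +kernel⟩

def A022R_052 :
    ∃ t, chk3 (onCell 0 33554432 0 1073741824 1033476505 6710887 (corT true 1 c0B cA022R gB0q0 gB5q2 gB2q2 gB3q2 true false)) t 1 1 1 = true :=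
  ⟨(T.a (T.l 816) (T.b (T.b (T.l 0) (T.l 816)) (T.b (T.l 816) (T.l 816)))), by decide +kernel⟩

def A022R_150 :
    ∃ t, chk3 (onCell 0 33554432 0 1073741824 1033476505 6710887 (corT true 1 c0B cA022R gB1q0 gB5q2 gB0q2 gB1q2 true true)) t 1 1 1 = true :=
  ⟨(T.l 2), by decide +kernel⟩

def A022R_151 :
    ∃ t, chk3 (onCell 0 33554432 0 1073741824 1033476505 6710887 (corT true 1 c0B cA022R gB1q0 gB5q2 gB1q2 gB2q2 true true)) t 1 1 1 = true :=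
  ⟨(T.l 2), by decide +kernel⟩

def A022R_152 :
    ∃ t, chk3 (onCell 0 33554432 0 1073741824 1033476505 6710887 (corT true 1 c0B cA022R gB1q0 gB5q2 gB2q2 gB3q2 true false)) t 1 1 1 = true :=
  ⟨(T.b (T.b (T.a (T.l 816) (T.b (T.l 0) (T.b (T.l 816) (T.l 816)))) (T.b (T.a (T.l 816) (T.l 0)) (T.a (T.a (T.l 816) (T.l 816)) (T.l 816)))) (T.b (T.a (T.a (T.l 816) (T.l 0)) (T.b (T.l 816) (T.l 816))) (T.a (T.a (T.a (T.l 816) (T.l 816)) (T.l 816)) (T.l 816)))), by decide +kernel⟩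

def A022R_250 :
    ∃ t, chk3 (onCell 0 33554432 0 1073741824 1033476505 6710887 (corT true 1 c0B cA022R gB2q0 gB5q2 gB0q2 gB1q2 true true)) t 1 1 1 = true :=
  ⟨(T.l 2), by decide +kernel⟩

def A022R_251 :
    ∃ t, chk3 (onCell 0 33554432 0 1073741824 1033476505 6710887 (corT true 1 c0B cA022R gB2q0 gB5q2 gB1q2 gB2q2 true true)) t 1 1 1 = true :=
  ⟨(T.b (T.b (T.a (T.l 816) (T.l 2)) (T.b (T.a (T.l 816) (T.a (T.l 816) (T.l 816))) (T.a (T.a (T.l 816) (T.l 816)) (T.a (T.l 816) (T.l 816))))) (T.b (T.b (T.a (T.a (T.l 816) (T.l 816)) (T.a (T.l 816) (T.l 816))) (T.a (T.a (T.l 816) (T.l 816)) (T.b (T.l 0) (T.l 0)))) (T.a (T.a (T.a (T.l 816) (T.l 816)) (T.b (T.l 816) (T.l 816))) (T.a (T.l 816) (T.l 816))))), by decide +kernel⟩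

def A022R_252 :
    ∃ t, chk3 (onCell 0 33554432 0 1073741824 1033476505 6710887 (corT true 1 c0B cA022R gB2q0 gB5q2 gB2q2 gB3q2 true false)) t 1 1 1 = true :=
  ⟨(T.b (T.b (T.a (T.l 816) (T.b (T.l 0) (T.b (T.l 816) (T.l 816)))) (T.b (T.a (T.l 816) (T.l 816)) (T.a (T.l 1) (T.l 0)))) (T.l 1)), by decide +kernel⟩

def A101E_000 :
    ∃ t, chk3 (onCell 0 33554432 0 1073741824 1033476505 6710887 (corT true 1 c0B cA101E gB0q1 gB0q0 gB0q1 gB1q1 true false)) t 1 1 1 = true :=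
  ⟨(T.l 1), by decide +kernel⟩

def A101E_010 :
    ∃ t, chk3 (onCell 0 33554432 0 1073741824 1033476505 6710887 (corT true 1 c0B cA101E gB0q1 gB1q0 gB0q1 gB1q1 true false)) t 1 1 1 = true :=
  ⟨(T.l 1), by decide +kernel⟩

def A101E_020 :
    ∃ t, chk3 (onCell 0 33554432 0 1073741824 1033476505 6710887 (corT true 1 c0B cA101E gB0q1 gB2q0 gB0q1 gB1q1 true false)) t 1 1 1 = true :=
  ⟨(T.l 1), by decide +kernel⟩

def A101R_002 :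
    ∃ t, chk3 (onCell 0 33554432 0 1073741824 1033476505 6710887 (corT true 1 c0B cA101R gB0q1 gB0q0 gB2q1 gB3q1 false true)) t 1 1 1 = true :=
  ⟨(T.l 2), by decide +kernel⟩

def A101R_003 :
    ∃ t, chk3 (onCell 0 33554432 0 1073741824 1033476505 6710887 (corT true 1 c0B cA101R gB0q1 gB0q0 gB3q1 gB4q1 true true)) t 1 1 1 = true :=
  ⟨(T.l 2), by decide +kernel⟩

def A101R_004 :
    ∃ t, chk3 (onCell 0 33554432 0 1073741824 1033476505 6710887 (corT true 1 c0B cA101R gB0q1 gB0q0 gB4q1 gB5q1 true true)) t 1 1 1 = true :=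
  ⟨(T.l 2), by decide +kernel⟩

def A101R_012 :
    ∃ t, chk3 (onCell 0 33554432 0 1073741824 1033476505 6710887 (corT true 1 c0B cA101R gB0q1 gB1q0 gB2q1 gB3q1 false true)) t 1 1 1 = true :=
  ⟨(T.l 2), by decide +kernel⟩

def A101R_013 :
    ∃ t, chk3 (onCell 0 33554432 0 1073741824 1033476505 6710887 (corT true 1 c0B cA101R gB0q1 gB1q0 gB3q1 gB4q1 true true)) t 1 1 1 = true :=
  ⟨(T.l 2), by decide +kernel⟩

def A101R_014 :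
    ∃ t, chk3 (onCell 0 33554432 0 1073741824 1033476505 6710887 (corT true 1 c0B cA101R gB0q1 gB1q0 gB4q1 gB5q1 true true)) t 1 1 1 = true :=
  ⟨(T.l 2), by decide +kernel⟩

def A101R_022 :
    ∃ t, chk3 (onCell 0 33554432 0 1073741824 1033476505 6710887 (corT true 1 c0B cA101R gB0q1 gB2q0 gB2q1 gB3q1 false true)) t 1 1 1 = true :=
  ⟨(T.l 2), by decide +kernel⟩

def A101R_023 :
    ∃ t, chk3 (onCell 0 33554432 0 1073741824 1033476505 6710887 (corT true 1 c0B cA101R gB0q1 gB2q0 gB3q1 gB4q1 true true)) t 1 1 1 = true :=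
  ⟨(T.l 2), by decide +kernel⟩

def A101R_024 :
    ∃ t, chk3 (onCell 0 33554432 0 1073741824 1033476505 6710887 (corT true 1 c0B cA101R gB0q1 gB2q0 gB4q1 gB5q1 true true)) t 1 1 1 = true :=
  ⟨(T.l 2), by decide +kernel⟩

def A102E_000 :
    ∃ t, chk3 (onCell 0 16777216 0 1073741824 1033476505 6710887 (corX 1 c0B cA102E tA102E gB0q1 gB0q0 gB0q2 gB1q2 gB0q2 true true)) t 1 1 1 = true :=
  ⟨(T.b (T.b (T.l 2) (T.b (T.l 2) (T.b (T.l 2) (T.a (T.a (T.l 819) (T.b (T.l 819) (T.l 819))) (T.a (T.a (T.l 819) (T.l 819)) (T.a (T.b (T.l 819) (T.l 819)) (T.b (T.b (T.b (T.l 2) (T.a (T.l 819) (T.b (T.l 2) (T.a (T.c (T.l 816) (T.l 816)) (T.l 820))))) (T.a (T.l 819) (T.a (T.b (T.a (T.l 819) (T.l 820)) (T.l 819)) (T.b (T.a (T.b (T.l 816) (T.l 816)) (T.l 816)) (T.a (T.b (T.l 816) (T.l 816)) (T.b (T.l 816) (T.l 816))))))) (T.a (T.l 819) (T.b (T.a (T.l 819) (T.b (T.a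 (T.l 819) (T.b (T.l 816) (T.l 816))) (T.l 819))) (T.l 819)))))))))) (T.b (T.b (T.b (T.b (T.b (T.b (T.a (T.a (T.l 819) (T.l 819)) (T.a (T.l 819) (T.a (T.l 819) (T.l 819)))) (T.l 1)) (T.l 1)) (T.l 1)) (T.l 1)) (T.l 1)) (T.l 1))), by decide +kernel⟩

def A102E_001 :
    ∃ t, chk3 (onCell 0 16777216 0 1073741824 1033476505 6710887 (corT true 1 c0B cA102E gB0q1 gB0q0 gB1q2 gB2q2 true true)) t 1 1 1 = true :=
  ⟨(T.b (T.b (T.l 2) (T.b (T.b (T.l 816) (T.l 816)) (T.b (T.b (T.l 816) (T.a (T.l 816) (T.l 820))) (T.b (T.b (T.a (T.a (T.l 816) (T.b (T.l 816) (T.l 816))) (T.b (T.l 816) (T.a (T.a (T.l 816) (T.l 816)) (T.a (T.l 816) (T.l 816))))) (T.l 1)) (T.l 1))))) (T.l 1)), by decide +kernel⟩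

def A102E_002 :
    ∃ t, chk3 (onCell 0 16777216 0 1073741824 1033476505 6710887 (corT true 1 c0B cA102E gB0q1 gB0q0 gB2q2 gB3q2 true false)) t 1 1 1 = true :=
  ⟨(T.b (T.b (T.l 0) (T.b (T.b (T.l 816) (T.l 1)) (T.l 1))) (T.l 1)), by decide +kernel⟩

def A102E_010_1_2_1 :
    ∃ t, chk3 (onCell 0 33554432 0 1073741824 1033476505 6710887 (corT true 1 c0B cA102E gB0q1 gB1q0 gB0q2 gB1q2 true true)) t 1 2 1 = true :=
  ⟨(T.l 2), by decide +kernel⟩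

def A102E_010_1_24_1 :
    ∃ t, chk3 (onCell 0 33554432 0 1073741824 1033476505 6710887 (corT true 1 c0B cA102E gB0q1 gB1q0 gB0q2 gB1q2 true true)) t 1 24 1 = true :=
  ⟨(T.b (T.l 2) (T.b (T.l 2) (T.b (T.l 2) (T.b (T.a (T.b (T.a (T.a (T.l 816) (T.a (T.l 816) (T.l 2))) (T.l 2)) (T.a (T.a (T.l 816) (T.a (T.l 816) (T.l 816))) (T.a (T.l 0) (T.l 816)))) (T.a (T.l 2) (T.l 2))) (T.a (T.b (T.a (T.a (T.l 816) (T.a (T.l 816) (T.l 816))) (T.a (T.l 0) (T.l 816))) (T.a (T.a (T.l 816) (T.a (T.l 816) (T.l 816))) (T.a (T.l 0) (T.l 816)))) (T.a (T.a (T.l 816) (T.l 816)) (T.a (T.l 816) (T.l 816)))))))), by decide +kernel⟩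

def A102E_010_1_100_1 :
    ∃ t, chk3 (onCell 0 33554432 0 1073741824 1033476505 6710887 (corT true 1 c0B cA102E gB0q1 gB1q0 gB0q2 gB1q2 true true)) t 1 100 1 = true :=
  ⟨(T.b (T.b (T.a (T.b (T.a (T.a (T.l 816) (T.a (T.l 816) (T.l 816))) (T.a (T.l 0) (T.l 816))) (T.a (T.a (T.l 816) (T.a (T.l 816) (T.l 816))) (T.a (T.l 0) (T.l 816)))) (T.a (T.a (T.l 816) (T.l 816)) (T.a (T.l 816) (T.l 816)))) (T.a (T.b (T.a (T.a (T.l 816) (T.a (T.l 816) (T.l 816))) (T.a (T.l 0) (T.l 816))) (T.a (T.a (T.l 816) (T.a (T.l 816) (T.l 816))) (T.a (T.l 0) (T.l 816)))) (T.a (T.a (T.l 816) (T.l 816)) (T.a (T.l 816) (T.l 816))))) (T.b (T.a (T.b (T.a (T.a (T.l 816) (T.a (T.l 816) (T.l 816))) (T.a (T.l 0) (T.l 816))) (T.a (T.a (T.l 816) (T.a (T.l 816) (T.l 816))) (T.a (T.l 0) (T.l 816)))) (T.a (T.a (T.l 816) (T.l 816)) (T.a (T.l 816) (T.l 816)))) (T.a (T.b (T.a (T.a (T.l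 816) (T.a (T.l 816) (T.l 816))) (T.a (T.l 0) (T.l 816))) (T.a (T.a (T.l 816) (T.a (T.l 816) (T.l 816))) (T.a (T.l 0) (T.l 816)))) (T.a (T.a (T.l 816) (T.l 816)) (T.a (T.l 816) (T.l 816)))))), by decide +kernel⟩

def A102E_010_1_101_1 :
    ∃ t, chk3 (onCell 0 33554432 0 1073741824 1033476505 6710887 (corT true 1 c0B cA102E gB0q1 gB1q0 gB0q2 gB1q2 true true)) t 1 101 1 = true :=
  ⟨(T.b (T.b (T.a (T.b (T.a (T.a (T.l 816) (T.a (T.l 816) (T.l 0))) (T.a (T.l 0) (T.l 0))) (T.a (T.a (T.l 816) (T.a (T.l 816) (T.l 0))) (T.a (T.l 0) (T.l 0)))) (T.a (T.a (T.a (T.l 816) (T.l 816)) (T.l 816)) (T.a (T.l 816) (T.l 816)))) (T.a (T.b (T.a (T.a (T.l 816) (T.a (T.l 816) (T.l 0))) (T.a (T.l 8) (T.l 0))) (T.a (T.a (T.l 0) (T.a (T.l 816) (T.l 0))) (T.a (T.a (T.l 0) (T.l 816)) (T.a (T.l 816) (T.l 816))))) (T.a (T.a (T.l 816) (T.l 816)) (T.a (T.l 816) (T.l 816)))))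 (T.a (T.b (T.b (T.a (T.a (T.l 0) (T.a (T.l 816) (T.l 0))) (T.a (T.a (T.l 0) (T.l 816)) (T.a (T.l 816) (T.l 816)))) (T.a (T.a (T.l 0) (T.a (T.l 816) (T.l 0))) (T.a (T.a (T.l 0) (T.l 0)) (T.a (T.l 816) (T.l 816))))) (T.b (T.a (T.a (T.l 0) (T.a (T.l 816) (T.l 0))) (T.a (T.a (T.l 0) (T.l 0)) (T.a (T.l 816) (T.l 816)))) (T.a (T.a (T.l 0) (T.a (T.l 0) (T.l 0))) (T.a (T.a (T.l 0) (T.l 0)) (T.a (T.l 0) (T.l 816)))))) (T.a (T.a (T.a (T.l 816) (T.l 816)) (T.a (T.l 816) (T.l 816))) (T.a (T.l 944) (T.l 816))))), by decide +kernel⟩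

def A102E_010_1_204_1 :
    ∃ t, chk3 (onCell 0 33554432 0 1073741824 1033476505 6710887 (corT true 1 c0B cA102E gB0q1 gB1q0 gB0q2 gB1q2 true true)) t 1 204 1 = true :=
  ⟨(T.a (T.b (T.b (T.a (T.a (T.l 204) (T.a (T.l 0) (T.c (T.l 0) (T.l 0)))) (T.a (T.a (T.l 0) (T.l 0)) (T.a (T.l 0) (T.l 0)))) (T.a (T.a (T.l 204) (T.a (T.l 0) (T.a (T.l 0) (T.l 0)))) (T.a (T.a (T.l 0) (T.l 0)) (T.a (T.l 0) (T.l 0))))) (T.b (T.a (T.a (T.c (T.l 204) (T.l 204)) (T.a (T.l 204) (T.a (T.c (T.l 0) (T.l 0)) (T.l 0)))) (T.b (T.a (T.a (T.l 0) (T.l 0)) (T.a (T.l 0) (T.l 0))) (T.a (T.a (T.l 0) (T.l 0)) (T.a (T.l 0) (T.l 0))))) (T.a (T.b (T.a (T.a (T.c (T.c (T.a (T.l 204) (T.l 204)) (T.l 204)) (T.l 204)) (T.l 204)) (T.a (T.l 204) (T.a (T.a (T.l 204) (T.l 204)) (T.c (T.l 0) (T.l 0))))) (T.a (T.a (T.l 1) (T.l 204)) (T.a (T.c (T.l 204) (T.l 204)) (T.a (T.a (T.c (T.l 204) (T.l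 204)) (T.c (T.l 716) (T.c (T.l 204) (T.l 204)))) (T.a (T.c (T.l 204) (T.l 204)) (T.l 204)))))) (T.b (T.a (T.a (T.c (T.l 0) (T.l 0)) (T.l 0)) (T.a (T.l 0) (T.l 0))) (T.a (T.a (T.a (T.l 204) (T.l 204)) (T.l 0)) (T.a (T.l 0) (T.c (T.l 0) (T.l 0)))))))) (T.b (T.a (T.a (T.a (T.l 0) (T.l 816)) (T.a (T.l 816) (T.l 816))) (T.a (T.a (T.l 816) (T.l 816)) (T.l 816))) (T.b (T.a (T.a (T.a (T.l 0) (T.l 816)) (T.a (T.l 816) (T.l 816))) (T.a (T.a (T.l 816) (T.l 816)) (T.l 944))) (T.a (T.a (T.a (T.l 0) (T.l 0)) (T.a (T.l 816) (T.l 816))) (T.a (T.a (T.l 816) (T.l 816)) (T.a (T.l 816) (T.l 816))))))), by decide +kernel⟩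

def A102E_010_2_205_1 :
    ∃ t, chk3 (onCell 0 33554432 0 1073741824 1033476505 6710887 (corT true 1 c0B cA102E gB0q1 gB1q0 gB0q2 gB1q2 true true)) t 2 205 1 = true :=
  ⟨(T.b (T.b (T.a (T.a (T.l 1) (T.a (T.l 1) (T.a (T.l 1) (T.b (T.b (T.b (T.a (T.c (T.l 204) (T.l 204)) (T.l 204)) (T.l 1)) (T.l 1)) (T.l 1))))) (T.b (T.a (T.a (T.a (T.c (T.l 204) (T.l 204)) (T.l 204)) (T.c (T.l 204) (T.l 204))) (T.a (T.l 0) (T.a (T.l 204) (T.l 0)))) (T.a (T.a (T.l 1) (T.a (T.l 1) (T.l 204))) (T.a (T.l 204) (T.a (T.l 204) (T.l 204)))))) (T.a (T.l 1) (T.l 1))) (T.l 1)), by decide +kernel⟩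

def A102E_010_3_410_1 :
    ∃ t, chk3 (onCell 0 33554432 0 1073741824 1033476505 6710887 (corT true 1 c0B cA102E gB0q1 gB1q0 gB0q2 gB1q2 true true)) t 3 410 1 = true :=
  ⟨(T.b (T.a (T.b (T.a (T.a (T.c (T.l 0) (T.l 0)) (T.l 0)) (T.a (T.c (T.l 816) (T.l 816)) (T.l 944))) (T.a (T.a (T.a (T.l 0) (T.l 0)) (T.c (T.l 0) (T.l 0))) (T.a (T.a (T.l 816) (T.l 816)) (T.c (T.l 816) (T.l 816))))) (T.a (T.a (T.c (T.l 816) (T.l 816)) (T.c (T.l 816) (T.l 816))) (T.a (T.l 816) (T.l 816)))) (T.a (T.b (T.a (T.b (T.a (T.a (T.l 204) (T.l 0)) (T.a (T.l 0) (T.l 0))) (T.a (T.l 1) (T.a (T.l 0) (T.l 0)))) (T.a (T.a (T.l 816) (T.c (T.l 816) (T.l 816))) (T.c (T.a (T.l 816) (T.l 816)) (T.l 944)))) (T.a (T.l 1) (T.b (T.a (T.b (T.a (T.c (T.l 816) (T.l 816)) (T.c (T.l 816) (T.l 816))) (T.a (T.l 1) (T.c (T.l 816) (T.l 816)))) (T.a (T.c (T.l 816) (T.l 816)) (T.c (T.l 816) (T.l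 816)))) (T.a (T.l 1) (T.b (T.a (T.c (T.l 816) (T.l 816)) (T.c (T.l 816) (T.l 816))) (T.a (T.l 1) (T.c (T.c (T.l 816) (T.l 816)) (T.l 816)))))))) (T.a (T.a (T.c (T.a (T.c (T.l 944) (T.l 816)) (T.l 944)) (T.a (T.l 816) (T.l 816))) (T.c (T.a (T.l 944) (T.l 816)) (T.l 944))) (T.a (T.a (T.c (T.l 816) (T.l 816)) (T.l 944)) (T.c (T.l 816) (T.l 816)))))), by decide +kernel⟩

def A102E_010_3_411_1 :
    ∃ t, chk3 (onCell 0 33554432 0 1073741824 1033476505 6710887 (corT true 1 c0B cA102E gB0q1 gB1q0 gB0q2 gB1q2 true true)) t 3 411 1 = true :=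
  ⟨(T.a (T.l 1) (T.b (T.b (T.a (T.b (T.a (T.b (T.a (T.c (T.c (T.l 944) (T.l 816)) (T.l 816)) (T.c (T.l 944) (T.l 816))) (T.a (T.l 1) (T.c (T.c (T.l 944) (T.l 816)) (T.l 816)))) (T.c (T.a (T.c (T.l 944) (T.l 816)) (T.l 944)) (T.a (T.l 816) (T.l 816)))) (T.a (T.l 1) (T.a (T.l 1) (T.c (T.a (T.l 944) (T.l 944)) (T.l 816))))) (T.a (T.c (T.a (T.c (T.l 944) (T.l 816)) (T.l 944)) (T.l 944)) (T.c (T.a (T.l 816) (T.l 816)) (T.l 816)))) (T.a (T.l 1) (T.b (T.a (T.a (T.l 1) (T.c (T.c (T.l 944) (T.l 816)) (T.l 816))) (T.c (T.a (T.l 944) (T.l 816)) (T.l 816))) (T.a (T.l 1) (T.c (T.a (T.l 1) (T.l 944)) (T.l 944)))))) (T.l 1))), by decide +kernel⟩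

def A102E_010_1_103_1 :
    ∃ t, chk3 (onCell 0 33554432 0 1073741824 1033476505 6710887 (corT true 1 c0B cA102E gB0q1 gB1q0 gB0q2 gB1q2 true true)) t 1 103 1 = true :=
  ⟨(T.l 1), by decide +kernel⟩

def A102E_010_1_13_1 :
    ∃ t, chk3 (onCell 0 33554432 0 1073741824 1033476505 6710887 (corT true 1 c0B cA102E gB0q1 gB1q0 gB0q2 gB1q2 true true)) t 1 13 1 = true :=
  ⟨(T.l 1), by decide +kernel⟩

def A102E_010_1_7_1 :
    ∃ t, chk3 (onCell 0 33554432 0 1073741824 1033476505 6710887 (corT true 1 c0B cA102E gB0q1 gB1q0 gB0q2 gB1q2 true true)) t 1 7 1 = true :=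
  ⟨(T.l 1), by decide +kernel⟩

theorem A102E_010_3_205_1 :
    ∃ t, chk3 (onCell 0 33554432 0 1073741824 1033476505 6710887 (corT true 1 c0B cA102E gB0q1 gB1q0 gB0q2 gB1q2 true true)) t 3 205 1 = true :=
  ex3_b A102E_010_3_410_1 A102E_010_3_411_1
theorem A102E_010_1_205_1 :
    ∃ t, chk3 (onCell 0 33554432 0 1073741824 1033476505 6710887 (corT true 1 c0B cA102E gB0q1 gB1q0 gB0q2 gB1q2 true true)) t 1 205 1 = true :=
  ex3_a A102E_010_2_205_1 A102E_010_3_205_1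
theorem A102E_010_1_102_1 :
    ∃ t, chk3 (onCell 0 33554432 0 1073741824 1033476505 6710887 (corT true 1 c0B cA102E gB0q1 gB1q0 gB0q2 gB1q2 true true)) t 1 102 1 = true :=
  ex3_b A102E_010_1_204_1 A102E_010_1_205_1
theorem A102E_010_1_51_1 :
    ∃ t, chk3 (onCell 0 33554432 0 1073741824 1033476505 6710887 (corT true 1 c0B cA102E gB0q1 gB1q0 gB0q2 gB1q2 true true)) t 1 51 1 = true :=
  ex3_b A102E_010_1_102_1 A102E_010_1_103_1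
theorem A102E_010_1_50_1 :
    ∃ t, chk3 (onCell 0 33554432 0 1073741824 1033476505 6710887 (corT true 1 c0B cA102E gB0q1 gB1q0 gB0q2 gB1q2 true true)) t 1 50 1 = true :=
  ex3_b A102E_010_1_100_1 A102E_010_1_101_1
theorem A102E_010_1_25_1 :
    ∃ t, chk3 (onCell 0 33554432 0 1073741824 1033476505 6710887 (corT true 1 c0B cA102E gB0q1 gB1q0 gB0q2 gB1q2 true true)) t 1 25 1 = true :=
  ex3_b A102E_010_1_50_1 A102E_010_1_51_1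
theorem A102E_010_1_12_1 :
    ∃ t, chk3 (onCell 0 33554432 0 1073741824 1033476505 6710887 (corT true 1 c0B cA102E gB0q1 gB1q0 gB0q2 gB1q2 true true)) t 1 12 1 = true :=
  ex3_b A102E_010_1_24_1 A102E_010_1_25_1
theorem A102E_010_1_6_1 :
    ∃ t, chk3 (onCell 0 33554432 0 1073741824 1033476505 6710887 (corT true 1 c0B cA102E gB0q1 gB1q0 gB0q2 gB1q2 true true)) t 1 6 1 = true :=
  ex3_b A102E_010_1_12_1 A102E_010_1_13_1
theorem A102E_010_1_3_1 :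
    ∃ t, chk3 (onCell 0 33554432 0 1073741824 1033476505 6710887 (corT true 1 c0B cA102E gB0q1 gB1q0 gB0q2 gB1q2 true true)) t 1 3 1 = true :=
  ex3_b A102E_010_1_6_1 A102E_010_1_7_1
theorem A102E_010 :
    ∃ t, chk3 (onCell 0 33554432 0 1073741824 1033476505 6710887 (corT true 1 c0B cA102E gB0q1 gB1q0 gB0q2 gB1q2 true true)) t 1 1 1 = true :=
  ex3_b A102E_010_1_2_1 A102E_010_1_3_1

def A102E_011_1_2_1 :
    ∃ t, chk3 (onCell 0 33554432 0 1073741824 1033476505 6710887 (corT true 1 c0B cA102E gB0q1 gB1q0 gB1q2 gB2q2 true true)) t 1 2 1 = true :=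
  ⟨(T.b (T.l 2) (T.b (T.l 2) (T.b (T.b (T.l 2) (T.b (T.l 2) (T.b (T.b (T.l 2) (T.b (T.l 2) (T.a (T.a (T.a (T.l 816) (T.l 0)) (T.l 0)) (T.a (T.l 816) (T.l 2))))) (T.b (T.b (T.a (T.a (T.a (T.l 816) (T.l 0)) (T.l 0)) (T.a (T.l 816) (T.l 816))) (T.a (T.a (T.a (T.l 816) (T.l 0)) (T.l 0)) (T.a (T.l 816) (T.l 816)))) (T.b (T.a (T.a (T.a (T.l 816) (T.l 0)) (T.l 0)) (T.a (T.l 816) (T.l 816))) (T.a (T.a (T.a (T.l 816) (T.l 0)) (T.l 0)) (T.a (T.l 816) (T.l 816)))))))) (T.b (T.b (T.b (T.b (T.b (T.a (T.a (T.a (T.l 816) (T.l 0)) (T.l 0)) (T.a (T.l 816) (T.l 816))) (T.a (T.a (T.a (T.l 816) (T.l 0)) (T.l 0)) (T.a (T.l 816) (T.l 816)))) (T.a (T.a (T.a (T.l 816) (T.l 0)) (T.l 0)) (T.a (T.l 816) (T.l 816)))) (T.a (T.a (T.a (T.l 816) (T.l 0)) (T.l 0)) (T.a (T.l 816) (T.l 816)))) (T.a (T.a (T.a (T.l 816) (T.l 0)) (T.l 0)) (T.a (T.l 816) (T.l 816)))) (T.a (T.a (T.a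 (T.l 816) (T.l 0)) (T.l 0)) (T.a (T.l 816) (T.l 816))))))), by decide +kernel⟩

def A102E_011_1_3_1 :
    ∃ t, chk3 (onCell 0 33554432 0 1073741824 1033476505 6710887 (corT true 1 c0B cA102E gB0q1 gB1q0 gB1q2 gB2q2 true true)) t 1 3 1 = true :=
  ⟨(T.b (T.b (T.b (T.b (T.b (T.a (T.a (T.a (T.l 816) (T.l 0)) (T.l 0)) (T.a (T.l 816) (T.l 816))) (T.a (T.a (T.a (T.l 816) (T.l 0)) (T.a (T.l 816) (T.l 816))) (T.a (T.l 816) (T.l 816)))) (T.b (T.b (T.b (T.a (T.a (T.a (T.l 816) (T.a (T.l 816) (T.l 816))) (T.a (T.l 816) (T.l 816))) (T.a (T.l 816) (T.l 816))) (T.a (T.b (T.a (T.a (T.l 816) (T.a (T.l 816) (T.l 816))) (T.a (T.l 816) (T.l 816))) (T.a (T.a (T.l 816) (T.a (T.l 816) (T.l 816))) (T.a (T.l 816) (T.l 816)))) (T.a (T.l 816) (T.l 816)))) (T.b (T.a (T.b (T.a (T.a (T.l 816) (T.a (T.l 816) (T.l 816))) (T.a (T.l 816) (T.l 816))) (T.a (T.a (T.l 816) (T.a (T.l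 816) (T.l 816))) (T.a (T.l 816) (T.l 816)))) (T.a (T.l 816) (T.l 816))) (T.a (T.b (T.a (T.a (T.l 816) (T.a (T.l 816) (T.l 816))) (T.a (T.l 816) (T.l 816))) (T.a (T.a (T.l 816) (T.a (T.l 816) (T.l 816))) (T.a (T.l 816) (T.l 816)))) (T.a (T.l 816) (T.l 816))))) (T.b (T.b (T.a (T.b (T.a (T.a (T.l 816) (T.a (T.l 816) (T.l 816))) (T.a (T.l 816) (T.l 816))) (T.a (T.a (T.l 816) (T.a (T.l 816) (T.l 816))) (T.a (T.l 816) (T.l 816)))) (T.a (T.l 816) (T.l 816))) (T.a (T.b (T.a (T.a (T.l 816) (T.a (T.l 816) (T.l 816))) (T.a (T.l 816) (T.l 816))) (T.a (T.a (T.l 816) (T.a (T.l 816) (T.l 816))) (T.a (T.l 816) (T.l 816)))) (T.a (T.l 816) (T.l 816)))) (T.b (T.a (T.b (T.a (T.a (T.l 816) (T.a (T.l 816) (T.l 816))) (T.a (T.l 816) (T.l 816))) (T.a (T.a (T.l 1) (T.a (T.l 816) (T.l 816))) (T.a (T.l 816) (T.l 816)))) (T.a (T.l 816) (T.l 816))) (T.a (T.a (T.l 1) (T.a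 (T.l 1) (T.l 816))) (T.a (T.l 816) (T.l 816))))))) (T.a (T.l 1) (T.b (T.l 1) (T.l 1)))) (T.l 1)) (T.l 1)), by decide +kernel⟩

theorem A102E_011 :
    ∃ t, chk3 (onCell 0 33554432 0 1073741824 1033476505 6710887 (corT true 1 c0B cA102E gB0q1 gB1q0 gB1q2 gB2q2 true true)) t 1 1 1 = true :=
  ex3_b A102E_011_1_2_1 A102E_011_1_3_1

def A102E_012 :
    ∃ t, chk3 (onCell 0 33554432 0 1073741824 1033476505 6710887 (corT true 1 c0B cA102E gB0q1 gB1q0 gB2q2 gB3q2 true false)) t 1 1 1 = true :=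
  ⟨(T.b (T.b (T.a (T.a (T.a (T.l 0) (T.l 0)) (T.l 0)) (T.a (T.l 0) (T.l 0))) (T.b (T.b (T.a (T.a (T.a (T.l 816) (T.l 0)) (T.l 0)) (T.b (T.l 0) (T.l 0))) (T.a (T.a (T.a (T.l 816) (T.l 0)) (T.l 0)) (T.a (T.l 0) (T.l 0)))) (T.b (T.b (T.a (T.a (T.a (T.l 816) (T.l 0)) (T.l 0)) (T.a (T.l 816) (T.l 816))) (T.b (T.a (T.a (T.a (T.l 816) (T.l 0)) (T.l 0)) (T.a (T.l 816) (T.l 816))) (T.b (T.b (T.a (T.a (T.a (T.l 816) (T.l 0)) (T.l 0)) (T.a (T.l 816) (T.l 816))) (T.b (T.a (T.a (T.a (T.l 816) (T.l 0)) (T.l 0)) (T.a (T.l 816) (T.l 816))) (T.a (T.a (T.a (T.l 816) (T.l 0)) (T.l 0)) (T.a (T.l 816) (T.l 816))))) (T.b (T.b (T.a (T.l 1) (T.a (T.l 816) (T.l 816))) (T.l 1)) (T.l 1))))) (T.l 1)))) (T.l 1)), by decide +kernel⟩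

def A102E_020_1_2_1 :
    ∃ t, chk3 (onCell 0 22369621 0 1073741824 1033476505 6710887 (corT true 1 c0B cA102E gB0q1 gB2q0 gB0q2 gB1q2 true true)) t 1 2 1 = true :=
  ⟨(T.l 2), by decide +kernel⟩

def A102E_020_1_6_1 :
    ∃ t, chk3 (onCell 0 22369621 0 1073741824 1033476505 6710887 (corT true 1 c0B cA102E gB0q1 gB2q0 gB0q2 gB1q2 true true)) t 1 6 1 = true :=
  ⟨(T.l 2), by decide +kernel⟩

def A102E_020_1_56_1 :
    ∃ t, chk3 (onCell 0 22369621 0 1073741824 1033476505 6710887 (corT true 1 c0B cA102E gB0q1 gB2q0 gB0q2 gB1q2 true true)) t 1 56 1 = true :=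
  ⟨(T.b (T.l 2) (T.b (T.l 2) (T.b (T.l 2) (T.b (T.b (T.a (T.a (T.l 816) (T.a (T.a (T.l 816) (T.l 816)) (T.c (T.l 816) (T.l 824)))) (T.b (T.b (T.l 2) (T.b (T.l 2) (T.a (T.a (T.l 824) (T.l 824)) (T.a (T.l 816) (T.l 816))))) (T.b (T.a (T.a (T.l 824) (T.l 824)) (T.a (T.l 816) (T.l 816))) (T.a (T.a (T.l 824) (T.l 824)) (T.a (T.l 816) (T.l 816)))))) (T.a (T.a (T.l 816) (T.a (T.a (T.l 816) (T.l 816)) (T.c (T.l 824) (T.l 824)))) (T.b (T.b (T.a (T.a (T.c (T.l 824) (T.l 824)) (T.l 824)) (T.a (T.l 816) (T.l 816))) (T.a (T.a (T.c (T.l 824) (T.l 824)) (T.l 824)) (T.a (T.l 816) (T.l 816)))) (T.b (T.a (T.a (T.c (T.l 824) (T.l 824)) (T.l 824)) (T.a (T.l 816) (T.l 816))) (T.a (T.a (T.c (T.l 824) (T.l 824)) (T.l 824)) (T.a (T.l 816) (T.l 816))))))) (T.b (T.a (T.a (T.l 816) (T.a (T.a (T.l 816) (T.l 816)) (T.c (T.l 824) (T.l 824)))) (T.b (T.b (T.a (T.a (T.c (T.l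 824) (T.l 824)) (T.l 824)) (T.a (T.l 816) (T.l 816))) (T.a (T.a (T.c (T.l 824) (T.l 824)) (T.l 824)) (T.a (T.l 816) (T.l 816)))) (T.b (T.a (T.a (T.c (T.l 824) (T.l 824)) (T.l 824)) (T.a (T.l 816) (T.l 816))) (T.a (T.a (T.c (T.l 824) (T.l 824)) (T.l 824)) (T.a (T.l 816) (T.l 816)))))) (T.a (T.a (T.l 816) (T.a (T.a (T.l 816) (T.l 816)) (T.c (T.l 824) (T.l 824)))) (T.b (T.b (T.a (T.a (T.c (T.l 824) (T.l 824)) (T.l 824)) (T.a (T.l 816) (T.l 816))) (T.a (T.a (T.c (T.l 824) (T.l 824)) (T.l 824)) (T.a (T.l 816) (T.l 816)))) (T.b (T.a (T.a (T.c (T.l 824) (T.l 824)) (T.l 824)) (T.a (T.l 816) (T.l 816))) (T.a (T.a (T.c (T.l 824) (T.l 824)) (T.l 824)) (T.a (T.l 816) (T.l 816))))))))))), by decide +kernel⟩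

def A102E_020_1_912_1 :
    ∃ t, chk3 (onCell 0 22369621 0 1073741824 1033476505 6710887 (corT true 1 c0B cA102E gB0q1 gB2q0 gB0q2 gB1q2 true true)) t 1 912 1 = true :=
  ⟨(T.b (T.a (T.a (T.l 816) (T.a (T.a (T.l 816) (T.l 816)) (T.c (T.l 824) (T.l 824)))) (T.b (T.b (T.a (T.a (T.c (T.l 824) (T.l 824)) (T.l 824)) (T.a (T.l 816) (T.l 816))) (T.a (T.a (T.c (T.l 824) (T.l 824)) (T.l 824)) (T.a (T.l 816) (T.l 816)))) (T.b (T.a (T.a (T.c (T.l 824) (T.l 824)) (T.l 824)) (T.a (T.l 816) (T.l 816))) (T.a (T.a (T.c (T.l 824) (T.l 824)) (T.l 824)) (T.a (T.l 816) (T.l 816)))))) (T.a (T.a (T.l 816) (T.a (T.a (T.l 816) (T.l 816)) (T.a (T.l 816) (T.l 816)))) (T.b (T.b (T.a (T.a (T.c (T.l 824) (T.l 824)) (T.l 824)) (T.a (T.l 816) (T.l 816))) (T.a (T.a (T.c (T.l 824) (T.l 824)) (T.l 824)) (T.a (T.l 816) (T.l 816)))) (T.b (T.a (T.a (T.c (T.l 824) (T.l 824)) (T.l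 824)) (T.a (T.l 816) (T.l 816))) (T.a (T.a (T.c (T.l 824) (T.l 824)) (T.l 824)) (T.a (T.l 816) (T.l 816))))))), by decide +kernel⟩

def A102E_020_1_913_1 :
    ∃ t, chk3 (onCell 0 22369621 0 1073741824 1033476505 6710887 (corT true 1 c0B cA102E gB0q1 gB2q0 gB0q2 gB1q2 true true)) t 1 913 1 = true :=
  ⟨(T.b (T.a (T.a (T.l 816) (T.a (T.a (T.l 816) (T.l 816)) (T.a (T.l 816) (T.l 816)))) (T.b (T.b (T.a (T.a (T.a (T.l 816) (T.l 816)) (T.l 824)) (T.a (T.l 816) (T.l 816))) (T.a (T.a (T.a (T.l 816) (T.l 816)) (T.l 824)) (T.a (T.l 816) (T.l 816)))) (T.b (T.a (T.a (T.a (T.l 816) (T.l 816)) (T.l 952)) (T.a (T.l 816) (T.l 816))) (T.a (T.a (T.a (T.l 816) (T.l 816)) (T.l 952)) (T.a (T.l 816) (T.l 816)))))) (T.a (T.a (T.l 816) (T.a (T.a (T.l 816) (T.l 816)) (T.a (T.l 816) (T.l 816)))) (T.b (T.b (T.a (T.a (T.a (T.l 816) (T.l 816)) (T.l 952)) (T.a (T.l 816) (T.l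 816))) (T.a (T.a (T.a (T.l 816) (T.l 816)) (T.c (T.l 824) (T.l 824))) (T.a (T.l 816) (T.l 816)))) (T.b (T.a (T.a (T.a (T.l 816) (T.l 816)) (T.c (T.l 824) (T.l 824))) (T.a (T.l 816) (T.l 816))) (T.a (T.a (T.a (T.l 816) (T.l 816)) (T.c (T.l 824) (T.l 824))) (T.a (T.l 816) (T.l 816))))))), by decide +kernel⟩

def A102E_020_1_457_1 :
    ∃ t, chk3 (onCell 0 22369621 0 1073741824 1033476505 6710887 (corT true 1 c0B cA102E gB0q1 gB2q0 gB0q2 gB1q2 true true)) t 1 457 1 = true :=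
  ⟨(T.b (T.b (T.a (T.a (T.l 816) (T.a (T.a (T.l 816) (T.l 816)) (T.a (T.l 816) (T.l 816)))) (T.b (T.b (T.a (T.a (T.a (T.l 816) (T.l 816)) (T.c (T.l 824) (T.l 824))) (T.a (T.l 816) (T.l 816))) (T.a (T.a (T.a (T.l 816) (T.l 816)) (T.c (T.l 824) (T.l 824))) (T.a (T.l 816) (T.l 816)))) (T.b (T.a (T.a (T.a (T.l 816) (T.l 816)) (T.c (T.l 824) (T.l 824))) (T.a (T.l 816) (T.l 816))) (T.a (T.a (T.a (T.l 816) (T.l 816)) (T.c (T.l 824) (T.l 824))) (T.a (T.l 816) (T.l 816)))))) (T.a (T.a (T.l 816) (T.a (T.a (T.l 816) (T.l 816)) (T.a (T.l 816) (T.l 816)))) (T.b (T.b (T.a (T.a (T.a (T.l 816) (T.l 816)) (T.c (T.l 824) (T.l 824))) (T.a (T.l 816) (T.l 816))) (T.a (T.a (T.a (T.l 816) (T.l 816)) (T.c (T.l 824) (T.l 824))) (T.a (T.l 816) (T.l 816)))) (T.a (T.a (T.a (T.l 816) (T.l 816)) (T.c (T.l 824) (T.l 824))) (T.a (T.l 944) (T.l 816)))))) (T.b (T.a (T.a (T.l 816)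 (T.a (T.a (T.l 816) (T.l 824)) (T.a (T.l 816) (T.l 816)))) (T.b (T.a (T.a (T.a (T.l 816) (T.l 816)) (T.c (T.l 952) (T.l 952))) (T.a (T.l 944) (T.l 816))) (T.a (T.a (T.a (T.l 824) (T.l 816)) (T.c (T.l 952) (T.l 952))) (T.a (T.l 944) (T.l 816))))) (T.a (T.a (T.l 816) (T.a (T.a (T.l 816) (T.l 824)) (T.a (T.l 816) (T.l 816)))) (T.b (T.a (T.a (T.a (T.l 824) (T.l 824)) (T.c (T.l 952) (T.l 952))) (T.a (T.l 944) (T.l 944))) (T.a (T.a (T.a (T.l 824) (T.l 824)) (T.c (T.l 952) (T.l 952))) (T.a (T.l 944) (T.l 944))))))), by decide +kernel⟩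

def A102E_020_1_458_1 :
    ∃ t, chk3 (onCell 0 22369621 0 1073741824 1033476505 6710887 (corT true 1 c0B cA102E gB0q1 gB2q0 gB0q2 gB1q2 true true)) t 1 458 1 = true :=
  ⟨(T.b (T.b (T.a (T.a (T.l 816) (T.a (T.a (T.l 816) (T.l 824)) (T.a (T.l 824) (T.l 816)))) (T.b (T.a (T.a (T.a (T.l 824) (T.l 824)) (T.a (T.l 824) (T.l 816))) (T.a (T.l 944) (T.l 944))) (T.a (T.a (T.a (T.l 824) (T.l 824)) (T.a (T.l 824) (T.l 816))) (T.a (T.l 944) (T.l 944))))) (T.a (T.a (T.l 816) (T.a (T.a (T.l 816) (T.l 824)) (T.a (T.l 824) (T.l 824)))) (T.b (T.a (T.a (T.a (T.l 824) (T.l 824)) (T.a (T.l 824) (T.l 816))) (T.a (T.c (T.l 944) (T.l 944)) (T.l 944))) (T.a (T.a (T.a (T.l 824) (T.l 824)) (T.a (T.l 824) (T.l 816))) (T.a (T.c (T.l 944) (T.l 944)) (T.l 944)))))) (T.b (T.a (T.a (T.l 816) (T.a (T.a (T.l 816) (T.c (T.l 816) (T.l 816))) (T.a (T.l 824) (T.l 824)))) (T.b (T.a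 (T.a (T.a (T.l 824) (T.l 824)) (T.a (T.l 824) (T.l 816))) (T.a (T.c (T.l 944) (T.l 944)) (T.l 944))) (T.a (T.a (T.a (T.l 824) (T.l 824)) (T.a (T.l 824) (T.l 816))) (T.a (T.c (T.l 944) (T.l 944)) (T.l 944))))) (T.a (T.a (T.l 816) (T.a (T.a (T.l 816) (T.c (T.l 816) (T.l 824))) (T.a (T.l 824) (T.l 824)))) (T.b (T.a (T.a (T.a (T.l 952) (T.l 824)) (T.a (T.l 824) (T.l 816))) (T.a (T.c (T.l 944) (T.l 944)) (T.c (T.l 944) (T.l 944)))) (T.a (T.a (T.a (T.l 952) (T.l 824)) (T.a (T.l 952) (T.l 816))) (T.a (T.c (T.l 944) (T.l 944)) (T.c (T.l 944) (T.l 944)))))))), by decide +kernel⟩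

def A102E_020_1_918_1 :
    ∃ t, chk3 (onCell 0 22369621 0 1073741824 1033476505 6710887 (corT true 1 c0B cA102E gB0q1 gB2q0 gB0q2 gB1q2 true true)) t 1 918 1 = true :=
  ⟨(T.b (T.a (T.a (T.l 816) (T.a (T.a (T.l 816) (T.c (T.l 816) (T.l 824))) (T.a (T.l 824) (T.l 824)))) (T.b (T.a (T.a (T.a (T.l 952) (T.l 824)) (T.a (T.l 952) (T.l 944))) (T.a (T.c (T.l 944) (T.l 944)) (T.c (T.l 944) (T.l 944)))) (T.a (T.a (T.a (T.l 952) (T.l 952)) (T.a (T.l 952) (T.l 944))) (T.a (T.a (T.l 944) (T.l 944)) (T.c (T.l 944) (T.l 944)))))) (T.a (T.a (T.l 816) (T.b (T.a (T.a (T.l 816) (T.c (T.l 816) (T.l 824))) (T.a (T.c (T.l 816) (T.l 824)) (T.l 824))) (T.b (T.a (T.a (T.l 816) (T.c (T.l 816) (T.l 824))) (T.a (T.c (T.l 816) (T.l 824)) (T.l 824))) (T.a (T.a (T.l 816) (T.c (T.l 816) (T.l 824))) (T.a (T.c (T.l 816) (T.l 824)) (T.l 824)))))) (T.b (T.a (T.a (T.a (T.c (T.l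 824) (T.l 824)) (T.l 952)) (T.a (T.c (T.l 824) (T.l 824)) (T.l 944))) (T.a (T.a (T.l 944) (T.l 944)) (T.c (T.l 944) (T.l 944)))) (T.a (T.a (T.a (T.c (T.l 824) (T.l 824)) (T.l 952)) (T.a (T.c (T.l 824) (T.l 824)) (T.l 952))) (T.a (T.a (T.l 944) (T.l 944)) (T.c (T.l 944) (T.l 944))))))), by decide +kernel⟩

def A102E_020_1_1838_1 :
    ∃ t, chk3 (onCell 0 22369621 0 1073741824 1033476505 6710887 (corT true 1 c0B cA102E gB0q1 gB2q0 gB0q2 gB1q2 true true)) t 1 1838 1 = true :=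
  ⟨(T.a (T.a (T.a (T.l 816) (T.l 816)) (T.b (T.b (T.a (T.a (T.l 816) (T.c (T.l 824) (T.l 824))) (T.a (T.c (T.l 816) (T.l 824)) (T.l 824))) (T.a (T.a (T.l 816) (T.c (T.l 952) (T.l 952))) (T.a (T.c (T.l 816) (T.l 824)) (T.l 824)))) (T.b (T.a (T.a (T.l 816) (T.c (T.l 952) (T.l 952))) (T.a (T.c (T.l 816) (T.l 824)) (T.l 952))) (T.a (T.a (T.l 816) (T.c (T.l 952) (T.l 952))) (T.a (T.c (T.l 816) (T.l 824)) (T.c (T.l 816) (T.l 824))))))) (T.b (T.a (T.a (T.a (T.c (T.l 824) (T.l 952)) (T.c (T.l 824) (T.l 824))) (T.a (T.c (T.l 824) (T.l 824)) (T.l 952))) (T.a (T.a (T.l 944) (T.l 944)) (T.a (T.l 944) (T.l 944)))) (T.a (T.a (T.a (T.c (T.l 952) (T.l 952)) (T.c (T.l 824) (T.l 824))) (T.a (T.c (T.l 824) (T.l 952)) (T.l 952))) (T.a (T.a (T.l 944) (T.l 944)) (T.a (T.l 944) (T.l 944)))))), by decide +kernel⟩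

def A102E_020_1_1839_1 :
    ∃ t, chk3 (onCell 0 22369621 0 1073741824 1033476505 6710887 (corT true 1 c0B cA102E gB0q1 gB2q0 gB0q2 gB1q2 true true)) t 1 1839 1 = true :=
  ⟨(T.a (T.a (T.c (T.l 816) (T.l 816)) (T.b (T.b (T.a (T.a (T.l 816) (T.c (T.l 952) (T.l 952))) (T.a (T.c (T.l 816) (T.l 824)) (T.c (T.l 816) (T.l 824)))) (T.a (T.a (T.l 944) (T.a (T.l 952) (T.l 952))) (T.a (T.c (T.l 824) (T.l 824)) (T.c (T.l 816) (T.l 824))))) (T.b (T.a (T.a (T.l 944) (T.a (T.l 952) (T.l 952))) (T.a (T.c (T.l 824) (T.l 824)) (T.c (T.l 816) (T.l 824)))) (T.a (T.a (T.l 944) (T.a (T.l 952) (T.l 952))) (T.a (T.c (T.l 824) (T.l 824)) (T.c (T.l 824) (T.l 824))))))) (T.b (T.a (T.b (T.a (T.a (T.c (T.l 952) (T.l 952)) (T.c (T.l 824) (T.l 824))) (T.a (T.c (T.l 952) (T.l 952)) (T.l 952))) (T.a (T.a (T.c (T.l 952) (T.l 952)) (T.c (T.l 824) (T.l 952))) (T.a (T.c (T.l 952)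 (T.l 952)) (T.l 952)))) (T.a (T.a (T.l 944) (T.c (T.l 944) (T.l 944))) (T.a (T.c (T.l 944) (T.l 944)) (T.l 944)))) (T.a (T.b (T.a (T.a (T.c (T.l 952) (T.l 952)) (T.c (T.l 824) (T.l 952))) (T.a (T.c (T.l 952) (T.l 952)) (T.l 952))) (T.a (T.a (T.c (T.l 952) (T.l 952)) (T.c (T.l 824) (T.l 952))) (T.a (T.c (T.l 952) (T.l 952)) (T.l 952)))) (T.a (T.a (T.c (T.l 944) (T.l 944)) (T.c (T.l 944) (T.l 944))) (T.a (T.c (T.l 944) (T.l 944)) (T.c (T.l 944) (T.l 944))))))), by decide +kernel⟩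

def A102E_020_1_1840_1 :
    ∃ t, chk3 (onCell 0 22369621 0 1073741824 1033476505 6710887 (corT true 1 c0B cA102E gB0q1 gB2q0 gB0q2 gB1q2 true true)) t 1 1840 1 = true :=
  ⟨(T.a (T.a (T.c (T.l 816) (T.l 816)) (T.b (T.b (T.a (T.a (T.l 944) (T.a (T.c (T.l 816) (T.l 816)) (T.l 952))) (T.a (T.c (T.l 824) (T.l 824)) (T.c (T.l 824) (T.l 824)))) (T.a (T.a (T.l 944) (T.a (T.c (T.l 816) (T.l 816)) (T.l 952))) (T.a (T.c (T.l 824) (T.l 824)) (T.c (T.l 824) (T.l 824))))) (T.b (T.a (T.a (T.l 944) (T.a (T.c (T.l 816) (T.l 816)) (T.l 952))) (T.a (T.c (T.l 824) (T.l 952)) (T.c (T.l 824) (T.l 824)))) (T.a (T.a (T.l 944) (T.a (T.c (T.l 816) (T.l 816)) (T.l 952))) (T.a (T.c (T.l 824) (T.l 952)) (T.c (T.l 824) (T.l 824))))))) (T.b (T.a (T.b (T.a (T.a (T.c (T.l 952) (T.l 952)) (T.c (T.l 952) (T.l 952))) (T.a (T.c (T.l 952) (T.l 952)) (T.l 952))) (T.a (T.a (T.c (T.l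 952) (T.l 952)) (T.c (T.l 952) (T.l 952))) (T.a (T.c (T.l 952) (T.l 952)) (T.c (T.l 944) (T.l 944))))) (T.a (T.a (T.c (T.l 944) (T.l 944)) (T.c (T.l 944) (T.l 944))) (T.a (T.c (T.l 944) (T.l 944)) (T.c (T.l 944) (T.l 944))))) (T.a (T.b (T.a (T.a (T.c (T.l 952) (T.l 952)) (T.c (T.l 952) (T.l 952))) (T.a (T.c (T.l 952) (T.l 952)) (T.c (T.l 944) (T.l 944)))) (T.a (T.a (T.c (T.l 952) (T.l 952)) (T.c (T.l 952) (T.l 952))) (T.a (T.c (T.l 952) (T.l 952)) (T.c (T.l 944) (T.l 944))))) (T.a (T.a (T.c (T.l 944) (T.l 944)) (T.c (T.l 944) (T.l 944))) (T.a (T.c (T.l 944) (T.l 944)) (T.c (T.l 944) (T.l 944))))))), by decide +kernel⟩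

def A102E_020_2_1841_1 :
    ∃ t, chk3 (onCell 0 22369621 0 1073741824 1033476505 6710887 (corT true 1 c0B cA102E gB0q1 gB2q0 gB0q2 gB1q2 true true)) t 2 1841 1 = true :=
  ⟨(T.a (T.c (T.l 816) (T.l 816)) (T.b (T.b (T.a (T.a (T.l 944) (T.a (T.c (T.l 816) (T.l 944)) (T.l 952))) (T.a (T.c (T.l 952) (T.l 952)) (T.c (T.l 824) (T.l 824)))) (T.a (T.a (T.l 944) (T.a (T.c (T.l 944) (T.l 944)) (T.l 952))) (T.a (T.c (T.l 952) (T.l 952)) (T.c (T.l 824) (T.l 952))))) (T.b (T.a (T.a (T.l 944) (T.a (T.c (T.l 944) (T.l 944)) (T.c (T.l 816) (T.l 816)))) (T.a (T.a (T.l 952) (T.l 952)) (T.c (T.l 824) (T.l 952)))) (T.a (T.a (T.c (T.l 816) (T.l 816)) (T.a (T.c (T.l 944) (T.l 944)) (T.c (T.l 816) (T.l 944)))) (T.a (T.a (T.l 952) (T.l 952)) (T.c (T.l 824) (T.l 952))))))), by decide +kernel⟩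

def A102E_020_3_1841_1 :
    ∃ t, chk3 (onCell 0 22369621 0 1073741824 1033476505 6710887 (corT true 1 c0B cA102E gB0q1 gB2q0 gB0q2 gB1q2 true true)) t 3 1841 1 = true :=
  ⟨(T.b (T.a (T.b (T.a (T.a (T.a (T.l 952) (T.l 952)) (T.c (T.l 952) (T.l 952))) (T.a (T.c (T.l 952) (T.l 952)) (T.c (T.l 944) (T.l 944)))) (T.a (T.a (T.a (T.l 952) (T.l 952)) (T.c (T.l 952) (T.l 952))) (T.a (T.c (T.l 952) (T.c (T.l 952) (T.l 952))) (T.c (T.l 944) (T.l 944))))) (T.b (T.a (T.a (T.c (T.l 944) (T.l 944)) (T.c (T.l 944) (T.l 944))) (T.a (T.c (T.l 944) (T.l 944)) (T.c (T.l 944) (T.l 944)))) (T.a (T.a (T.c (T.l 944) (T.l 944)) (T.c (T.l 944) (T.l 944))) (T.a (T.c (T.l 944) (T.l 944)) (T.c (T.l 944) (T.l 944)))))) (T.a (T.b (T.a (T.a (T.a (T.c (T.l 816) (T.l 952)) (T.l 952)) (T.c (T.l 952) (T.l 952))) (T.a (T.c (T.l 952) (T.c (T.l 952) (T.l 952))) (T.c (T.l 944) (T.l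 944)))) (T.a (T.a (T.c (T.l 952) (T.c (T.l 952) (T.l 952))) (T.c (T.l 952) (T.l 952))) (T.a (T.c (T.l 952) (T.c (T.l 952) (T.l 952))) (T.c (T.l 944) (T.l 952))))) (T.b (T.a (T.a (T.c (T.l 944) (T.l 944)) (T.c (T.l 944) (T.l 944))) (T.a (T.c (T.l 944) (T.l 944)) (T.c (T.l 944) (T.l 944)))) (T.a (T.a (T.c (T.l 944) (T.l 944)) (T.c (T.l 944) (T.l 944))) (T.a (T.c (T.l 944) (T.l 944)) (T.c (T.l 944) (T.l 944))))))), by decide +kernel⟩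

def A102E_020_2_1842_1 :
    ∃ t, chk3 (onCell 0 22369621 0 1073741824 1033476505 6710887 (corT true 1 c0B cA102E gB0q1 gB2q0 gB0q2 gB1q2 true true)) t 2 1842 1 = true :=
  ⟨(T.b (T.a (T.c (T.l 816) (T.l 816)) (T.b (T.a (T.a (T.c (T.l 816) (T.l 816)) (T.a (T.c (T.l 944) (T.l 944)) (T.c (T.l 816) (T.l 944)))) (T.a (T.a (T.l 952) (T.l 952)) (T.c (T.l 952) (T.l 952)))) (T.a (T.a (T.c (T.l 816) (T.l 944)) (T.a (T.c (T.l 944) (T.l 944)) (T.c (T.l 944) (T.l 944)))) (T.b (T.a (T.a (T.l 952) (T.l 952)) (T.c (T.l 952) (T.l 952))) (T.a (T.c (T.l 952) (T.c (T.l 952) (T.l 952))) (T.c (T.l 952) (T.l 952))))))) (T.a (T.c (T.l 816) (T.l 816)) (T.b (T.a (T.a (T.c (T.l 944) (T.l 944)) (T.a (T.c (T.l 944) (T.l 944)) (T.c (T.l 944) (T.l 944)))) (T.b (T.a (T.c (T.l 952) (T.c (T.l 952) (T.l 952))) (T.c (T.l 952) (T.l 952))) (T.a (T.c (T.l 952) (T.c (T.l 952) (T.l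 952))) (T.c (T.l 952) (T.l 952))))) (T.a (T.a (T.c (T.l 944) (T.l 944)) (T.b (T.a (T.c (T.l 944) (T.l 944)) (T.c (T.l 944) (T.l 952))) (T.b (T.a (T.c (T.l 944) (T.l 944)) (T.c (T.l 944) (T.l 952))) (T.a (T.c (T.l 944) (T.l 944)) (T.c (T.l 944) (T.l 952)))))) (T.b (T.a (T.c (T.l 952) (T.a (T.l 952) (T.l 952))) (T.c (T.l 952) (T.c (T.l 952) (T.l 952)))) (T.a (T.c (T.l 952) (T.a (T.l 952) (T.l 952))) (T.c (T.l 952) (T.c (T.l 952) (T.l 952))))))))), by decide +kernel⟩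

def A102E_020_3_3684_1 :
    ∃ t, chk3 (onCell 0 22369621 0 1073741824 1033476505 6710887 (corT true 1 c0B cA102E gB0q1 gB2q0 gB0q2 gB1q2 true true)) t 3 3684 1 = true :=
  ⟨(T.a (T.b (T.a (T.a (T.c (T.l 952) (T.c (T.l 952) (T.l 952))) (T.c (T.l 952) (T.c (T.l 952) (T.l 952)))) (T.a (T.c (T.l 952) (T.c (T.l 952) (T.l 952))) (T.c (T.l 944) (T.l 952)))) (T.a (T.b (T.a (T.c (T.l 952) (T.c (T.l 952) (T.l 952))) (T.c (T.l 952) (T.c (T.l 952) (T.l 952)))) (T.a (T.c (T.l 952) (T.c (T.l 952) (T.l 952))) (T.c (T.l 952) (T.c (T.l 952) (T.l 952))))) (T.a (T.c (T.l 952) (T.c (T.l 952) (T.l 952))) (T.c (T.l 944) (T.l 952))))) (T.b (T.a (T.a (T.c (T.l 944) (T.l 944)) (T.c (T.c (T.l 944) (T.l 944)) (T.c (T.l 944) (T.l 944)))) (T.a (T.c (T.c (T.l 944) (T.l 944)) (T.c (T.l 944) (T.l 944))) (T.c (T.l 944) (T.l 944)))) (T.a (T.a (T.c (T.l 944) (T.c (T.l 944) (T.l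 944))) (T.c (T.c (T.l 944) (T.l 944)) (T.c (T.l 944) (T.l 944)))) (T.a (T.c (T.c (T.l 944) (T.l 944)) (T.c (T.l 944) (T.l 944))) (T.c (T.l 944) (T.c (T.l 944) (T.l 944))))))), by decide +kernel⟩

def A102E_020_6_3685_1 :
    ∃ t, chk3 (onCell 0 22369621 0 1073741824 1033476505 6710887 (corT true 1 c0B cA102E gB0q1 gB2q0 gB0q2 gB1q2 true true)) t 6 3685 1 = true :=
  ⟨(T.b (T.a (T.b (T.a (T.c (T.l 952) (T.a (T.l 952) (T.l 952))) (T.c (T.l 952) (T.c (T.l 952) (T.l 952)))) (T.a (T.c (T.l 952) (T.a (T.l 952) (T.l 952))) (T.c (T.l 952) (T.c (T.l 952) (T.l 952))))) (T.b (T.a (T.c (T.l 952) (T.a (T.l 952) (T.l 952))) (T.c (T.l 944) (T.l 952))) (T.a (T.c (T.l 952) (T.a (T.l 952) (T.l 952))) (T.c (T.l 944) (T.l 952))))) (T.a (T.b (T.a (T.c (T.l 952) (T.a (T.l 952) (T.l 952))) (T.c (T.l 952) (T.c (T.l 952) (T.l 952)))) (T.a (T.c (T.c (T.l 952) (T.l 952))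 (T.a (T.l 952) (T.l 952))) (T.c (T.l 952) (T.c (T.l 952) (T.l 952))))) (T.b (T.a (T.c (T.l 952) (T.a (T.l 952) (T.l 952))) (T.c (T.l 944) (T.l 952))) (T.a (T.c (T.l 952) (T.a (T.l 952) (T.l 952))) (T.c (T.l 944) (T.c (T.l 944) (T.l 944))))))), by decide +kernel⟩

def A102E_020_7_3685_1 :
    ∃ t, chk3 (onCell 0 22369621 0 1073741824 1033476505 6710887 (corT true 1 c0B cA102E gB0q1 gB2q0 gB0q2 gB1q2 true true)) t 7 3685 1 = true :=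
  ⟨(T.b (T.a (T.b (T.a (T.c (T.l 944) (T.c (T.l 944) (T.l 944))) (T.c (T.c (T.l 944) (T.l 944)) (T.c (T.l 944) (T.l 944)))) (T.a (T.c (T.c (T.l 944) (T.l 944)) (T.c (T.l 944) (T.l 944))) (T.c (T.c (T.l 944) (T.l 944)) (T.c (T.l 944) (T.l 944))))) (T.b (T.a (T.c (T.c (T.l 944) (T.l 944)) (T.c (T.l 944) (T.l 944))) (T.c (T.c (T.l 944) (T.l 944)) (T.c (T.l 944) (T.l 944)))) (T.a (T.c (T.c (T.l 944) (T.l 944)) (T.c (T.l 944) (T.l 944))) (T.c (T.c (T.l 944) (T.l 944)) (T.c (T.l 944) (T.l 944)))))) (T.a (T.b (T.a (T.c (T.c (T.l 944) (T.l 944)) (T.c (T.l 944) (T.l 944))) (T.c (T.c (T.l 944) (T.l 944)) (T.a (T.l 944) (T.l 944)))) (T.a (T.c (T.c (T.l 944) (T.l 944)) (T.c (T.l 944) (T.l 944))) (T.c (T.a (T.l 944) (T.l 944)) (T.a (T.l 944) (T.l 944))))) (T.b (T.a (T.c (T.a (T.l 944) (T.l 944)) (T.a (T.l 944) (T.l 944))) (T.c (T.c (T.l 944) (T.l 944)) (T.c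 (T.l 944) (T.l 944)))) (T.a (T.c (T.a (T.l 944) (T.l 944)) (T.a (T.l 944) (T.l 944))) (T.c (T.c (T.l 944) (T.l 944)) (T.c (T.l 944) (T.l 944))))))), by decide +kernel⟩

def A102E_020_2_1843_1 :
    ∃ t, chk3 (onCell 0 22369621 0 1073741824 1033476505 6710887 (corT true 1 c0B cA102E gB0q1 gB2q0 gB0q2 gB1q2 true true)) t 2 1843 1 = true :=
  ⟨(T.b (T.a (T.c (T.l 816) (T.a (T.l 816) (T.l 816))) (T.b (T.a (T.b (T.a (T.c (T.l 944) (T.l 944)) (T.b (T.a (T.c (T.l 944) (T.l 944)) (T.c (T.l 944) (T.l 952))) (T.a (T.c (T.l 944) (T.l 944)) (T.c (T.l 944) (T.l 952))))) (T.a (T.c (T.l 944) (T.l 944)) (T.b (T.a (T.c (T.l 944) (T.l 952)) (T.c (T.l 944) (T.l 952))) (T.a (T.c (T.l 944) (T.l 952)) (T.c (T.l 944) (T.l 952)))))) (T.b (T.a (T.c (T.l 952) (T.a (T.l 952) (T.l 952))) (T.c (T.l 952) (T.c (T.l 952) (T.l 952)))) (T.a (T.c (T.l 952) (T.a (T.l 952) (T.l 952)))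 (T.c (T.l 952) (T.c (T.l 952) (T.l 952)))))) (T.a (T.b (T.a (T.c (T.l 944) (T.l 944)) (T.b (T.a (T.c (T.l 944) (T.l 952)) (T.c (T.l 944) (T.l 952))) (T.a (T.c (T.l 944) (T.l 952)) (T.c (T.l 944) (T.l 952))))) (T.a (T.c (T.l 944) (T.l 944)) (T.b (T.a (T.c (T.l 944) (T.l 952)) (T.c (T.l 944) (T.l 952))) (T.a (T.l 1) (T.c (T.l 944) (T.l 952)))))) (T.b (T.a (T.c (T.l 952) (T.a (T.l 952) (T.l 952))) (T.c (T.l 952) (T.c (T.l 952) (T.l 952)))) (T.a (T.c (T.l 952) (T.a (T.l 952) (T.l 952))) (T.c (T.l 952) (T.c (T.l 952) (T.l 952)))))))) (T.a (T.l 1) (T.a (T.l 1) (T.b (T.b (T.b (T.a (T.c (T.l 952) (T.a (T.l 1) (T.l 952))) (T.c (T.l 952) (T.c (T.l 952) (T.l 952)))) (T.l 1)) (T.l 1)) (T.l 1))))), by decide +kernel⟩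

def A102E_020_6_3686_1 :
    ∃ t, chk3 (onCell 0 22369621 0 1073741824 1033476505 6710887 (corT true 1 c0B cA102E gB0q1 gB2q0 gB0q2 gB1q2 true true)) t 6 3686 1 = true :=
  ⟨(T.b (T.a (T.b (T.a (T.c (T.c (T.l 952) (T.l 952)) (T.a (T.l 952) (T.l 952))) (T.c (T.l 952) (T.c (T.l 952) (T.l 952)))) (T.a (T.c (T.c (T.l 952) (T.l 952)) (T.a (T.l 952) (T.l 952))) (T.c (T.l 952) (T.a (T.l 952) (T.l 952))))) (T.b (T.a (T.c (T.c (T.l 952) (T.l 952)) (T.a (T.l 952) (T.l 952))) (T.c (T.l 944) (T.c (T.l 944) (T.l 944)))) (T.a (T.c (T.c (T.l 952) (T.l 952)) (T.a (T.l 952) (T.l 952))) (T.c (T.l 944) (T.c (T.l 944) (T.l 952)))))) (T.a (T.b (T.a (T.c (T.c (T.l 952) (T.l 952)) (T.a (T.l 952) (T.l 952))) (T.c (T.l 952) (T.a (T.l 952) (T.l 952)))) (T.a (T.b (T.a (T.c (T.l 952) (T.l 952)) (T.c (T.l 952) (T.l 952))) (T.a (T.c (T.l 952) (T.l 952)) (T.c (T.l 952) (T.l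 952)))) (T.c (T.l 952) (T.a (T.l 952) (T.l 952))))) (T.b (T.a (T.c (T.c (T.l 952) (T.l 952)) (T.a (T.l 952) (T.l 952))) (T.c (T.c (T.l 944) (T.l 944)) (T.c (T.l 944) (T.l 952)))) (T.a (T.c (T.c (T.l 952) (T.l 952)) (T.a (T.l 952) (T.l 952))) (T.c (T.c (T.l 944) (T.l 944)) (T.c (T.l 944) (T.l 952))))))), by decide +kernel⟩

def A102E_020_7_7372_1 :
    ∃ t, chk3 (onCell 0 22369621 0 1073741824 1033476505 6710887 (corT true 1 c0B cA102E gB0q1 gB2q0 gB0q2 gB1q2 true true)) t 7 7372 1 = true :=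
  ⟨(T.a (T.b (T.a (T.c (T.c (T.l 944) (T.l 944)) (T.c (T.l 944) (T.l 944))) (T.c (T.a (T.l 944) (T.l 944)) (T.a (T.l 944) (T.l 944)))) (T.a (T.c (T.c (T.l 944) (T.l 944)) (T.a (T.l 944) (T.l 944))) (T.c (T.a (T.l 944) (T.l 944)) (T.a (T.l 944) (T.l 944))))) (T.b (T.a (T.c (T.a (T.l 944) (T.l 944)) (T.a (T.c (T.l 944) (T.l 944)) (T.l 944))) (T.c (T.c (T.l 944) (T.l 944)) (T.a (T.l 944) (T.l 944)))) (T.a (T.c (T.a (T.l 944) (T.l 944)) (T.a (T.c (T.l 944) (T.l 944)) (T.c (T.l 944) (T.l 944)))) (T.c (T.a (T.l 944) (T.l 944)) (T.a (T.c (T.l 944) (T.l 944)) (T.l 944)))))), by decide +kernel⟩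

def A102E_020_7_7373_1 :
    ∃ t, chk3 (onCell 0 22369621 0 1073741824 1033476505 6710887 (corT true 1 c0B cA102E gB0q1 gB2q0 gB0q2 gB1q2 true true)) t 7 7373 1 = true :=
  ⟨(T.a (T.b (T.a (T.c (T.a (T.l 944) (T.l 944)) (T.a (T.l 944) (T.l 944))) (T.b (T.c (T.a (T.l 944) (T.l 944)) (T.a (T.l 944) (T.c (T.l 944) (T.l 944)))) (T.a (T.c (T.l 944) (T.l 944)) (T.c (T.l 944) (T.c (T.l 944) (T.l 944)))))) (T.a (T.b (T.c (T.a (T.l 944) (T.l 944)) (T.a (T.l 944) (T.l 944))) (T.a (T.c (T.l 944) (T.l 944)) (T.c (T.l 944) (T.l 944)))) (T.b (T.a (T.c (T.l 944) (T.l 944)) (T.c (T.l 944) (T.c (T.l 944) (T.l 944)))) (T.a (T.c (T.l 944) (T.l 944)) (T.c (T.c (T.l 944) (T.l 944)) (T.c (T.l 944) (T.l 944))))))) (T.b (T.a (T.c (T.a (T.c (T.l 944) (T.l 944)) (T.l 944)) (T.a (T.c (T.l 944) (T.l 944)) (T.c (T.l 944) (T.l 944)))) (T.c (T.a (T.l 944) (T.l 944)) (T.a (T.c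 (T.l 944) (T.l 944)) (T.c (T.l 944) (T.l 944))))) (T.a (T.b (T.a (T.c (T.c (T.l 944) (T.l 944)) (T.c (T.l 944) (T.l 944))) (T.c (T.c (T.l 944) (T.l 944)) (T.c (T.l 944) (T.l 944)))) (T.a (T.c (T.c (T.l 944) (T.l 944)) (T.c (T.l 944) (T.l 944))) (T.c (T.c (T.l 944) (T.l 944)) (T.c (T.l 944) (T.l 944))))) (T.c (T.a (T.c (T.l 944) (T.l 944)) (T.l 944)) (T.a (T.c (T.l 944) (T.l 944)) (T.c (T.l 944) (T.l 944))))))), by decide +kernel⟩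

def A102E_020_6_3687_1 :
    ∃ t, chk3 (onCell 0 22369621 0 1073741824 1033476505 6710887 (corT true 1 c0B cA102E gB0q1 gB2q0 gB0q2 gB1q2 true true)) t 6 3687 1 = true :=
  ⟨(T.b (T.a (T.b (T.a (T.b (T.a (T.c (T.l 952) (T.l 952)) (T.c (T.l 952) (T.l 952))) (T.a (T.c (T.l 952) (T.l 952)) (T.c (T.l 952) (T.l 952)))) (T.c (T.l 952) (T.a (T.l 952) (T.l 952)))) (T.a (T.l 1) (T.b (T.c (T.l 952) (T.a (T.l 952) (T.l 952))) (T.l 1)))) (T.b (T.a (T.b (T.c (T.c (T.l 952) (T.l 952)) (T.a (T.l 952) (T.l 952))) (T.a (T.c (T.l 952) (T.l 952)) (T.c (T.l 952) (T.l 952)))) (T.c (T.c (T.l 944) (T.l 944)) (T.c (T.l 944) (T.l 952)))) (T.a (T.b (T.a (T.c (T.l 952) (T.l 952)) (T.c (T.l 952) (T.l 952))) (T.a (T.l 1) (T.c (T.l 952) (T.l 952)))) (T.b (T.a (T.c (T.l 944) (T.l 944)) (T.c (T.l 944) (T.l 944))) (T.a (T.c (T.l 944) (T.l 944)) (T.c (T.l 944) (T.l 944)))))))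 (T.a (T.l 1) (T.a (T.l 1) (T.a (T.l 1) (T.c (T.l 944) (T.l 944)))))), by decide +kernel⟩

def A102E_020_14_7374_1 :
    ∃ t, chk3 (onCell 0 22369621 0 1073741824 1033476505 6710887 (corT true 1 c0B cA102E gB0q1 gB2q0 gB0q2 gB1q2 true true)) t 14 7374 1 = true :=
  ⟨(T.b (T.a (T.b (T.a (T.c (T.l 944) (T.l 944)) (T.c (T.l 944) (T.l 944))) (T.a (T.c (T.l 944) (T.l 944)) (T.c (T.l 944) (T.l 944)))) (T.b (T.a (T.c (T.l 944) (T.c (T.l 944) (T.l 944))) (T.c (T.c (T.l 944) (T.l 944)) (T.c (T.l 944) (T.l 944)))) (T.a (T.c (T.l 944) (T.c (T.l 944) (T.l 944))) (T.c (T.c (T.l 944) (T.l 944)) (T.c (T.l 944) (T.l 944)))))) (T.a (T.b (T.a (T.c (T.l 944) (T.l 944)) (T.c (T.l 944) (T.l 944))) (T.a (T.c (T.l 944) (T.l 944)) (T.c (T.l 944) (T.l 944)))) (T.b (T.a (T.c (T.l 944) (T.c (T.l 944) (T.l 944))) (T.c (T.c (T.l 944) (T.l 944)) (T.c (T.l 944) (T.l 944))))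 (T.a (T.c (T.l 944) (T.c (T.l 944) (T.l 944))) (T.c (T.c (T.l 944) (T.l 944)) (T.c (T.l 944) (T.l 944))))))), by decide +kernel⟩

def A102E_020_15_7374_1 :
    ∃ t, chk3 (onCell 0 22369621 0 1073741824 1033476505 6710887 (corT true 1 c0B cA102E gB0q1 gB2q0 gB0q2 gB1q2 true true)) t 15 7374 1 = true :=
  ⟨(T.b (T.a (T.b (T.a (T.c (T.c (T.l 944) (T.l 944)) (T.c (T.l 944) (T.l 944))) (T.c (T.c (T.l 944) (T.l 944)) (T.c (T.l 944) (T.l 944)))) (T.a (T.c (T.c (T.l 944) (T.l 944)) (T.c (T.l 944) (T.l 944))) (T.c (T.c (T.l 944) (T.l 944)) (T.c (T.l 944) (T.l 944))))) (T.b (T.a (T.c (T.c (T.l 944) (T.l 944)) (T.c (T.l 944) (T.l 944))) (T.c (T.c (T.l 944) (T.l 944)) (T.c (T.l 944) (T.l 944)))) (T.a (T.c (T.c (T.l 944) (T.l 944)) (T.c (T.l 944) (T.l 944))) (T.c (T.c (T.l 944) (T.l 944)) (T.c (T.l 944) (T.l 944)))))) (T.a (T.b (T.a (T.c (T.c (T.l 944) (T.l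 944)) (T.c (T.l 944) (T.l 944))) (T.c (T.c (T.l 944) (T.l 944)) (T.c (T.l 944) (T.l 944)))) (T.a (T.b (T.c (T.c (T.l 944) (T.l 944)) (T.c (T.l 944) (T.l 944))) (T.c (T.c (T.l 944) (T.l 944)) (T.c (T.l 944) (T.c (T.l 944) (T.l 944))))) (T.c (T.c (T.l 944) (T.l 944)) (T.c (T.l 944) (T.l 944))))) (T.b (T.a (T.c (T.c (T.l 944) (T.l 944)) (T.c (T.l 944) (T.l 944))) (T.c (T.c (T.l 944) (T.l 944)) (T.c (T.l 944) (T.l 944)))) (T.a (T.c (T.c (T.l 944) (T.l 944)) (T.c (T.l 944) (T.l 944))) (T.c (T.c (T.l 944) (T.l 944)) (T.c (T.l 944) (T.l 944))))))), by decide +kernel⟩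

def A102E_020_14_7375_1 :
    ∃ t, chk3 (onCell 0 22369621 0 1073741824 1033476505 6710887 (corT true 1 c0B cA102E gB0q1 gB2q0 gB0q2 gB1q2 true true)) t 14 7375 1 = true :=
  ⟨(T.b (T.a (T.b (T.a (T.c (T.l 944) (T.l 944)) (T.c (T.l 944) (T.l 944))) (T.l 1)) (T.b (T.a (T.c (T.c (T.l 944) (T.l 944)) (T.c (T.l 944) (T.l 944))) (T.b (T.c (T.c (T.l 944) (T.l 944)) (T.c (T.l 944) (T.l 944))) (T.c (T.c (T.l 944) (T.l 944)) (T.c (T.l 944) (T.l 944))))) (T.a (T.b (T.c (T.c (T.l 944) (T.l 944)) (T.c (T.l 944) (T.l 944))) (T.l 1)) (T.b (T.c (T.c (T.l 944) (T.l 944)) (T.c (T.l 944) (T.l 944))) (T.b (T.c (T.c (T.l 944) (T.l 944)) (T.c (T.l 944) (T.l 944))) (T.l 1)))))) (T.l 1)), by decide +kernel⟩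

def A102E_020_15_14750_1 :
    ∃ t, chk3 (onCell 0 22369621 0 1073741824 1033476505 6710887 (corT true 1 c0B cA102E gB0q1 gB2q0 gB0q2 gB1q2 true true)) t 15 14750 1 = true :=
  ⟨(T.a (T.b (T.a (T.b (T.c (T.c (T.l 944) (T.l 944)) (T.c (T.l 944) (T.c (T.l 944) (T.l 944)))) (T.c (T.c (T.l 944) (T.l 944)) (T.c (T.c (T.l 944) (T.l 944)) (T.c (T.l 944) (T.l 944))))) (T.b (T.c (T.c (T.l 944) (T.l 944)) (T.c (T.l 944) (T.l 944))) (T.c (T.c (T.l 944) (T.l 944)) (T.c (T.l 944) (T.l 944))))) (T.a (T.b (T.c (T.c (T.l 944) (T.l 944)) (T.c (T.c (T.l 944) (T.l 944)) (T.c (T.l 944) (T.l 944)))) (T.c (T.c (T.l 944) (T.c (T.l 944) (T.l 944))) (T.a (T.c (T.l 944) (T.l 944)) (T.c (T.l 944) (T.l 944))))) (T.b (T.c (T.c (T.l 944) (T.l 944)) (T.c (T.l 944) (T.c (T.l 944) (T.l 944)))) (T.c (T.c (T.l 944) (T.l 944)) (T.c (T.l 944) (T.c (T.l 944) (T.l 944))))))) (T.b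 (T.a (T.b (T.c (T.c (T.l 944) (T.l 944)) (T.c (T.l 944) (T.l 944))) (T.c (T.c (T.l 944) (T.l 944)) (T.c (T.l 944) (T.l 944)))) (T.c (T.c (T.l 944) (T.l 944)) (T.c (T.l 944) (T.l 944)))) (T.a (T.b (T.c (T.c (T.l 944) (T.l 944)) (T.c (T.l 944) (T.l 944))) (T.c (T.c (T.l 944) (T.l 944)) (T.c (T.l 944) (T.c (T.l 944) (T.l 944))))) (T.b (T.c (T.c (T.l 944) (T.l 944)) (T.c (T.l 944) (T.l 944))) (T.c (T.c (T.l 944) (T.l 944)) (T.c (T.l 944) (T.l 944))))))), by decide +kernel⟩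

def A102E_020_15_14751_1 :
    ∃ t, chk3 (onCell 0 22369621 0 1073741824 1033476505 6710887 (corT true 1 c0B cA102E gB0q1 gB2q0 gB0q2 gB1q2 true true)) t 15 14751 1 = true :=
  ⟨(T.a (T.b (T.a (T.a (T.l 1) (T.b (T.b (T.c (T.c (T.l 944) (T.l 944)) (T.c (T.l 944) (T.l 944))) (T.l 1)) (T.l 1))) (T.b (T.c (T.c (T.l 944) (T.l 944)) (T.c (T.l 944) (T.c (T.l 944) (T.l 944)))) (T.a (T.l 1) (T.a (T.l 1) (T.b (T.b (T.c (T.c (T.l 944) (T.l 944)) (T.c (T.l 944) (T.l 944))) (T.l 1)) (T.l 1)))))) (T.l 1)) (T.b (T.a (T.b (T.c (T.c (T.l 944) (T.l 944)) (T.c (T.l 944) (T.c (T.l 944) (T.l 944)))) (T.c (T.c (T.l 944) (T.l 944)) (T.c (T.l 944) (T.c (T.l 944) (T.l 944))))) (T.b (T.c (T.c (T.l 944) (T.l 944)) (T.c (T.l 944) (T.c (T.l 944) (T.l 944)))) (T.c (T.c (T.l 944) (T.l 944)) (T.c (T.l 944) (T.c (T.l 944) (T.l 944)))))) (T.b (T.a (T.a (T.l 1) (T.a (T.l 1) (T.a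 (T.l 1) (T.b (T.b (T.b (T.c (T.c (T.l 944) (T.l 944)) (T.c (T.l 944) (T.l 944))) (T.l 1)) (T.l 1)) (T.l 1))))) (T.c (T.c (T.l 944) (T.l 944)) (T.c (T.l 944) (T.c (T.l 944) (T.l 944))))) (T.l 1)))), by decide +kernel⟩

def A102E_020_1_461_1 :
    ∃ t, chk3 (onCell 0 22369621 0 1073741824 1033476505 6710887 (corT true 1 c0B cA102E gB0q1 gB2q0 gB0q2 gB1q2 true true)) t 1 461 1 = true :=
  ⟨(T.a (T.l 1) (T.a (T.l 1) (T.l 1))), by decide +kernel⟩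

def A102E_020_1_231_1 :
    ∃ t, chk3 (onCell 0 22369621 0 1073741824 1033476505 6710887 (corT true 1 c0B cA102E gB0q1 gB2q0 gB0q2 gB1q2 true true)) t 1 231 1 = true :=
  ⟨(T.l 1), by decide +kernel⟩

def A102E_020_1_29_1 :
    ∃ t, chk3 (onCell 0 22369621 0 1073741824 1033476505 6710887 (corT true 1 c0B cA102E gB0q1 gB2q0 gB0q2 gB1q2 true true)) t 1 29 1 = true :=
  ⟨(T.l 1), by decide +kernel⟩

def A102E_020_1_15_1 :
    ∃ t, chk3 (onCell 0 22369621 0 1073741824 1033476505 6710887 (corT true 1 c0B cA102E gB0q1 gB2q0 gB0q2 gB1q2 true true)) t 1 15 1 = true :=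
  ⟨(T.l 1), by decide +kernel⟩

theorem A102E_020_15_7375_1 :
    ∃ t, chk3 (onCell 0 22369621 0 1073741824 1033476505 6710887 (corT true 1 c0B cA102E gB0q1 gB2q0 gB0q2 gB1q2 true true)) t 15 7375 1 = true :=
  ex3_b A102E_020_15_14750_1 A102E_020_15_14751_1
theorem A102E_020_7_7375_1 :
    ∃ t, chk3 (onCell 0 22369621 0 1073741824 1033476505 6710887 (corT true 1 c0B cA102E gB0q1 gB2q0 gB0q2 gB1q2 true true)) t 7 7375 1 = true :=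
  ex3_a A102E_020_14_7375_1 A102E_020_15_7375_1
theorem A102E_020_7_7374_1 :
    ∃ t, chk3 (onCell 0 22369621 0 1073741824 1033476505 6710887 (corT true 1 c0B cA102E gB0q1 gB2q0 gB0q2 gB1q2 true true)) t 7 7374 1 = true :=
  ex3_a A102E_020_14_7374_1 A102E_020_15_7374_1
theorem A102E_020_7_3687_1 :
    ∃ t, chk3 (onCell 0 22369621 0 1073741824 1033476505 6710887 (corT true 1 c0B cA102E gB0q1 gB2q0 gB0q2 gB1q2 true true)) t 7 3687 1 = true :=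
  ex3_b A102E_020_7_7374_1 A102E_020_7_7375_1
theorem A102E_020_3_3687_1 :
    ∃ t, chk3 (onCell 0 22369621 0 1073741824 1033476505 6710887 (corT true 1 c0B cA102E gB0q1 gB2q0 gB0q2 gB1q2 true true)) t 3 3687 1 = true :=
  ex3_a A102E_020_6_3687_1 A102E_020_7_3687_1
theorem A102E_020_7_3686_1 :
    ∃ t, chk3 (onCell 0 22369621 0 1073741824 1033476505 6710887 (corT true 1 c0B cA102E gB0q1 gB2q0 gB0q2 gB1q2 true true)) t 7 3686 1 = true :=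
  ex3_b A102E_020_7_7372_1 A102E_020_7_7373_1
theorem A102E_020_3_3686_1 :
    ∃ t, chk3 (onCell 0 22369621 0 1073741824 1033476505 6710887 (corT true 1 c0B cA102E gB0q1 gB2q0 gB0q2 gB1q2 true true)) t 3 3686 1 = true :=
  ex3_a A102E_020_6_3686_1 A102E_020_7_3686_1
theorem A102E_020_3_1843_1 :
    ∃ t, chk3 (onCell 0 22369621 0 1073741824 1033476505 6710887 (corT true 1 c0B cA102E gB0q1 gB2q0 gB0q2 gB1q2 true true)) t 3 1843 1 = true :=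
  ex3_b A102E_020_3_3686_1 A102E_020_3_3687_1
theorem A102E_020_1_1843_1 :
    ∃ t, chk3 (onCell 0 22369621 0 1073741824 1033476505 6710887 (corT true 1 c0B cA102E gB0q1 gB2q0 gB0q2 gB1q2 true true)) t 1 1843 1 = true :=
  ex3_a A102E_020_2_1843_1 A102E_020_3_1843_1
theorem A102E_020_3_3685_1 :
    ∃ t, chk3 (onCell 0 22369621 0 1073741824 1033476505 6710887 (corT true 1 c0B cA102E gB0q1 gB2q0 gB0q2 gB1q2 true true)) t 3 3685 1 = true :=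
  ex3_a A102E_020_6_3685_1 A102E_020_7_3685_1
theorem A102E_020_3_1842_1 :
    ∃ t, chk3 (onCell 0 22369621 0 1073741824 1033476505 6710887 (corT true 1 c0B cA102E gB0q1 gB2q0 gB0q2 gB1q2 true true)) t 3 1842 1 = true :=
  ex3_b A102E_020_3_3684_1 A102E_020_3_3685_1
theorem A102E_020_1_1842_1 :
    ∃ t, chk3 (onCell 0 22369621 0 1073741824 1033476505 6710887 (corT true 1 c0B cA102E gB0q1 gB2q0 gB0q2 gB1q2 true true)) t 1 1842 1 = true :=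
  ex3_a A102E_020_2_1842_1 A102E_020_3_1842_1
theorem A102E_020_1_921_1 :
    ∃ t, chk3 (onCell 0 22369621 0 1073741824 1033476505 6710887 (corT true 1 c0B cA102E gB0q1 gB2q0 gB0q2 gB1q2 true true)) t 1 921 1 = true :=
  ex3_b A102E_020_1_1842_1 A102E_020_1_1843_1
theorem A102E_020_1_1841_1 :
    ∃ t, chk3 (onCell 0 22369621 0 1073741824 1033476505 6710887 (corT true 1 c0B cA102E gB0q1 gB2q0 gB0q2 gB1q2 true true)) t 1 1841 1 = true :=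
  ex3_a A102E_020_2_1841_1 A102E_020_3_1841_1
theorem A102E_020_1_920_1 :
    ∃ t, chk3 (onCell 0 22369621 0 1073741824 1033476505 6710887 (corT true 1 c0B cA102E gB0q1 gB2q0 gB0q2 gB1q2 true true)) t 1 920 1 = true :=
  ex3_b A102E_020_1_1840_1 A102E_020_1_1841_1
theorem A102E_020_1_460_1 :
    ∃ t, chk3 (onCell 0 22369621 0 1073741824 1033476505 6710887 (corT true 1 c0B cA102E gB0q1 gB2q0 gB0q2 gB1q2 true true)) t 1 460 1 = true :=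
  ex3_b A102E_020_1_920_1 A102E_020_1_921_1
theorem A102E_020_1_230_1 :
    ∃ t, chk3 (onCell 0 22369621 0 1073741824 1033476505 6710887 (corT true 1 c0B cA102E gB0q1 gB2q0 gB0q2 gB1q2 true true)) t 1 230 1 = true :=
  ex3_b A102E_020_1_460_1 A102E_020_1_461_1
theorem A102E_020_1_115_1 :
    ∃ t, chk3 (onCell 0 22369621 0 1073741824 1033476505 6710887 (corT true 1 c0B cA102E gB0q1 gB2q0 gB0q2 gB1q2 true true)) t 1 115 1 = true :=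
  ex3_b A102E_020_1_230_1 A102E_020_1_231_1
theorem A102E_020_1_919_1 :
    ∃ t, chk3 (onCell 0 22369621 0 1073741824 1033476505 6710887 (corT true 1 c0B cA102E gB0q1 gB2q0 gB0q2 gB1q2 true true)) t 1 919 1 = true :=
  ex3_b A102E_020_1_1838_1 A102E_020_1_1839_1
theorem A102E_020_1_459_1 :
    ∃ t, chk3 (onCell 0 22369621 0 1073741824 1033476505 6710887 (corT true 1 c0B cA102E gB0q1 gB2q0 gB0q2 gB1q2 true true)) t 1 459 1 = true :=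
  ex3_b A102E_020_1_918_1 A102E_020_1_919_1
theorem A102E_020_1_229_1 :
    ∃ t, chk3 (onCell 0 22369621 0 1073741824 1033476505 6710887 (corT true 1 c0B cA102E gB0q1 gB2q0 gB0q2 gB1q2 true true)) t 1 229 1 = true :=
  ex3_b A102E_020_1_458_1 A102E_020_1_459_1
theorem A102E_020_1_456_1 :
    ∃ t, chk3 (onCell 0 22369621 0 1073741824 1033476505 6710887 (corT true 1 c0B cA102E gB0q1 gB2q0 gB0q2 gB1q2 true true)) t 1 456 1 = true :=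
  ex3_b A102E_020_1_912_1 A102E_020_1_913_1
theorem A102E_020_1_228_1 :
    ∃ t, chk3 (onCell 0 22369621 0 1073741824 1033476505 6710887 (corT true 1 c0B cA102E gB0q1 gB2q0 gB0q2 gB1q2 true true)) t 1 228 1 = true :=
  ex3_b A102E_020_1_456_1 A102E_020_1_457_1
theorem A102E_020_1_114_1 :
    ∃ t, chk3 (onCell 0 22369621 0 1073741824 1033476505 6710887 (corT true 1 c0B cA102E gB0q1 gB2q0 gB0q2 gB1q2 true true)) t 1 114 1 = true :=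
  ex3_b A102E_020_1_228_1 A102E_020_1_229_1
theorem A102E_020_1_57_1 :
    ∃ t, chk3 (onCell 0 22369621 0 1073741824 1033476505 6710887 (corT true 1 c0B cA102E gB0q1 gB2q0 gB0q2 gB1q2 true true)) t 1 57 1 = true :=
  ex3_b A102E_020_1_114_1 A102E_020_1_115_1
theorem A102E_020_1_28_1 :
    ∃ t, chk3 (onCell 0 22369621 0 1073741824 1033476505 6710887 (corT true 1 c0B cA102E gB0q1 gB2q0 gB0q2 gB1q2 true true)) t 1 28 1 = true :=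
  ex3_b A102E_020_1_56_1 A102E_020_1_57_1
theorem A102E_020_1_14_1 :
    ∃ t, chk3 (onCell 0 22369621 0 1073741824 1033476505 6710887 (corT true 1 c0B cA102E gB0q1 gB2q0 gB0q2 gB1q2 true true)) t 1 14 1 = true :=
  ex3_b A102E_020_1_28_1 A102E_020_1_29_1
theorem A102E_020_1_7_1 :
    ∃ t, chk3 (onCell 0 22369621 0 1073741824 1033476505 6710887 (corT true 1 c0B cA102E gB0q1 gB2q0 gB0q2 gB1q2 true true)) t 1 7 1 = true :=
  ex3_b A102E_020_1_14_1 A102E_020_1_15_1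
theorem A102E_020_1_3_1 :
    ∃ t, chk3 (onCell 0 22369621 0 1073741824 1033476505 6710887 (corT true 1 c0B cA102E gB0q1 gB2q0 gB0q2 gB1q2 true true)) t 1 3 1 = true :=
  ex3_b A102E_020_1_6_1 A102E_020_1_7_1
theorem A102E_020 :
    ∃ t, chk3 (onCell 0 22369621 0 1073741824 1033476505 6710887 (corT true 1 c0B cA102E gB0q1 gB2q0 gB0q2 gB1q2 true true)) t 1 1 1 = true :=
  ex3_b A102E_020_1_2_1 A102E_020_1_3_1

end Pool.Agent.Strip051.G.I9625_9688.Tab.CG
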