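import Pool.Agent.Strip051.G.I9625_9688.Gn
import Pool.Agent.Strip051.PB.Corns
import Pool.Agent.Strip051.PB.CornW

/-! # Certificates of the aligned corners (generated) -/

set_option linter.all false

namespace Pool.Agent.Strip051.G.I9625_9688.Tab.CW

open Pool.Agent.Strip051.PB

def A011E_000 :
    ∃ t, chk3 (onCell 0 33554432 0 1073741824 1033476505 6710887 (corW 3 c0B eng mog cA011E gB0q0 gB0q1 gB0q1 gB1q1 dB0q0 dB0q1 dB0q1 dB1q1 true false)) t 1 1 1 = true :=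
  ⟨(T.l 1), by decide +kernel⟩

def A011L_002 :
    ∃ t, chk3 (onCell 0 33554432 0 1073741824 1033476505 6710887 (corW 3 c0B eng mog cA011L gB0q0 gB0q1 gB2q1 gB3q1 dB0q0 dB0q1 dB2q1 dB3q1 false true)) t 1 1 1 = true :=
  ⟨(T.l 2), by decide +kernel⟩

def A011L_003 :
    ∃ t, chk3 (onCell 0 33554432 0 1073741824 1033476505 6710887 (corW 3 c0B eng mog cA011L gB0q0 gB0q1 gB3q1 gB4q1 dB0q0 dB0q1 dB3q1 dB4q1 true true)) t 1 1 1 = true :=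
  ⟨(T.l 2), by decide +kernel⟩

def A011L_004 :
    ∃ t, chk3 (onCell 0 33554432 0 1073741824 1033476505 6710887 (corW 3 c0B eng mog cA011L gB0q0 gB0q1 gB4q1 gB5q1 dB0q0 dB0q1 dB4q1 dB5q1 true true)) t 1 1 1 = true :=
  ⟨(T.l 2), by decide +kernel⟩

def A011R_030 :
    ∃ t, chk3 (onCell 0 33554432 0 1073741824 1033476505 6710887 (corW 3 c0B eng mog cA011R gB0q0 gB3q1 gB0q1 gB1q1 dB0q0 dB3q1 dB0q1 dB1q1 true false)) t 1 1 1 = true :=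
  ⟨(T.b (T.b (T.b (T.b (T.b (T.a (T.a (T.l 0) (T.l 0)) (T.l 816)) (T.l 1)) (T.l 1)) (T.l 1)) (T.l 1)) (T.l 1)), by decide +kernel⟩

def A011R_040 :
    ∃ t, chk3 (onCell 0 33554432 0 1073741824 1033476505 6710887 (corW 3 c0B eng mog cA011R gB0q0 gB4q1 gB0q1 gB1q1 dB0q0 dB4q1 dB0q1 dB1q1 true false)) t 1 1 1 = true :=
  ⟨(T.b (T.b (T.a (T.a (T.b (T.l 0) (T.l 0)) (T.b (T.l 0) (T.l 0))) (T.b (T.b (T.l 816) (T.l 816)) (T.a (T.b (T.l 816) (T.l 816)) (T.l 816)))) (T.l 1)) (T.l 1)), by decide +kernel⟩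

def A011R_050 :
    ∃ t, chk3 (onCell 0 22369621 0 1073741824 1033476505 6710887 (corW 3 c0B eng mog cA011R gB0q0 gB5q1 gB0q1 gB1q1 dB0q0 dB5q1 dB0q1 dB1q1 true false)) t 1 1 1 = true :=
  ⟨(T.b (T.b (T.a (T.l 0) (T.a (T.l 0) (T.b (T.l 0) (T.l 0)))) (T.b (T.b (T.a (T.l 0) (T.b (T.l 0) (T.l 0))) (T.b (T.a (T.b (T.a (T.l 0) (T.l 0)) (T.b (T.b (T.c (T.l 0) (T.l 0)) (T.b (T.c (T.l 0) (T.l 0)) (T.a (T.l 1) (T.c (T.b (T.l 0) (T.l 1)) (T.l 0))))) (T.l 1))) (T.b (T.a (T.l 0) (T.l 0)) (T.b (T.a (T.c (T.l 0) (T.l 0)) (T.a (T.l 0) (T.l 0))) (T.l 1)))) (T.l 1))) (T.l 1))) (T.l 1)), by decide +kernel⟩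

def A011R_130 :
    ∃ t, chk3 (onCell 0 33554432 0 1073741824 1033476505 6710887 (corW 3 c0B eng mog cA011R gB1q0 gB3q1 gB0q1 gB1q1 dB1q0 dB3q1 dB0q1 dB1q1 true false)) t 1 1 1 = true :=
  ⟨(T.l 1), by decide +kernel⟩

def A011R_140 :
    ∃ t, chk3 (onCell 0 33554432 0 1073741824 1033476505 6710887 (corW 3 c0B eng mog cA011R gB1q0 gB4q1 gB0q1 gB1q1 dB1q0 dB4q1 dB0q1 dB1q1 true false)) t 1 1 1 = true :=
  ⟨(T.b (T.b (T.b (T.a (T.a (T.a (T.l 816) (T.l 0)) (T.l 0)) (T.l 0)) (T.l 1)) (T.l 1)) (T.l 1)), by decide +kernel⟩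

def A011R_150 :
    ∃ t, chk3 (onCell 0 33554432 0 1073741824 1033476505 6710887 (corW 3 c0B eng mog cA011R gB1q0 gB5q1 gB0q1 gB1q1 dB1q0 dB5q1 dB0q1 dB1q1 true false)) t 1 1 1 = true :=
  ⟨(T.b (T.b (T.b (T.a (T.a (T.a (T.l 816) (T.l 0)) (T.l 0)) (T.l 0)) (T.b (T.a (T.a (T.a (T.l 816) (T.l 0)) (T.l 0)) (T.l 0)) (T.l 1))) (T.l 1)) (T.l 1)), by decide +kernel⟩

def A011R_230 :
    ∃ t, chk3 (onCell 0 33554432 0 1073741824 1033476505 6710887 (corW 3 c0B eng mog cA011R gB2q0 gB3q1 gB0q1 gB1q1 dB2q0 dB3q1 dB0q1 dB1q1 true false)) t 1 1 1 = true :=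
  ⟨(T.l 1), by decide +kernel⟩

def A011R_240 :
    ∃ t, chk3 (onCell 0 33554432 0 1073741824 1033476505 6710887 (corW 3 c0B eng mog cA011R gB2q0 gB4q1 gB0q1 gB1q1 dB2q0 dB4q1 dB0q1 dB1q1 true false)) t 1 1 1 = true :=
  ⟨(T.l 1), by decide +kernel⟩

def A011R_250 :
    ∃ t, chk3 (onCell 0 33554432 0 1073741824 1033476505 6710887 (corW 3 c0B eng mog cA011R gB2q0 gB5q1 gB0q1 gB1q1 dB2q0 dB5q1 dB0q1 dB1q1 true false)) t 1 1 1 = true :=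
  ⟨(T.l 1), by decide +kernel⟩

def A012E_000 :
    ∃ t, chk3 (onCell 0 16777216 0 1073741824 1033476505 6710887 (corW 3 c0B eng mog cA012E gB0q0 gB0q1 gB0q2 gB1q2 dB0q0 dB0q1 dB0q2 dB1q2 true true)) t 1 1 1 = true :=
  ⟨(T.b (T.b (T.l 1) (T.b (T.l 1) (T.b (T.l 1) (T.b (T.l 1) (T.b (T.l 1) (T.b (T.l 1) (T.a (T.b (T.l 1) (T.a (T.l 0) (T.l 0))) (T.a (T.l 0) (T.l 0))))))))) (T.b (T.b (T.b (T.a (T.b (T.b (T.a (T.l 0) (T.l 204)) (T.l 204)) (T.l 204)) (T.a (T.b (T.l 204) (T.l 204)) (T.a (T.l 204) (T.b (T.b (T.l 204) (T.l 204)) (T.b (T.l 204) (T.l 204)))))) (T.l 2)) (T.l 2)) (T.l 2))), by decide +kernel⟩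

def A012E_001 :
    ∃ t, chk3 (onCell 0 16777216 0 1073741824 1033476505 6710887 (corW 3 c0B eng mog cA012E gB0q0 gB0q1 gB1q2 gB2q2 dB0q0 dB0q1 dB1q2 dB2q2 true true)) t 1 1 1 = true :=
  ⟨(T.b (T.l 1) (T.a (T.b (T.b (T.b (T.b (T.l 1) (T.l 204)) (T.l 204)) (T.l 204)) (T.l 2)) (T.b (T.b (T.b (T.b (T.l 1) (T.l 204)) (T.l 204)) (T.l 204)) (T.l 2)))), by decide +kernel⟩

def A012E_002 :
    ∃ t, chk3 (onCell 0 16777216 0 1073741824 1033476505 6710887 (corW 3 c0B eng mog cA012E gB0q0 gB0q1 gB2q2 gB3q2 dB0q0 dB0q1 dB2q2 dB3q2 true false)) t 1 1 1 = true :=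
  ⟨(T.b (T.l 1) (T.a (T.b (T.b (T.l 1) (T.b (T.l 1) (T.l 204))) (T.l 0)) (T.b (T.b (T.l 1) (T.b (T.l 1) (T.l 204))) (T.l 0)))), by decide +kernel⟩

def A012L_004 :
    ∃ t, chk3 (onCell 0 33554432 0 1073741824 1033476505 6710887 (corW 3 c0B eng mog cA012L gB0q0 gB0q1 gB4q2 gB5q2 dB0q0 dB0q1 dB4q2 dB5q2 false true)) t 1 1 1 = true :=
  ⟨(T.l 2), by decide +kernel⟩

def A012R_030 :
    ∃ t, chk3 (onCell 0 33554432 0 1073741824 1033476505 6710887 (corW 3 c0B eng mog cA012R gB0q0 gB3q1 gB0q2 gB1q2 dB0q0 dB3q1 dB0q2 dB1q2 true true)) t 1 1 1 = true :=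
  ⟨(T.b (T.l 2) (T.l 2)), by decide +kernel⟩

def A012R_031 :
    ∃ t, chk3 (onCell 0 33554432 0 1073741824 1033476505 6710887 (corW 3 c0B eng mog cA012R gB0q0 gB3q1 gB1q2 gB2q2 dB0q0 dB3q1 dB1q2 dB2q2 true true)) t 1 1 1 = true :=
  ⟨(T.b (T.l 2) (T.l 2)), by decide +kernel⟩

def A012R_032 :
    ∃ t, chk3 (onCell 0 33554432 0 1073741824 1033476505 6710887 (corW 3 c0B eng mog cA012R gB0q0 gB3q1 gB2q2 gB3q2 dB0q0 dB3q1 dB2q2 dB3q2 true false)) t 1 1 1 = true :=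
  ⟨(T.b (T.a (T.a (T.l 0) (T.l 0)) (T.l 0)) (T.b (T.a (T.a (T.l 816) (T.l 816)) (T.l 816)) (T.a (T.a (T.l 816) (T.l 816)) (T.b (T.l 816) (T.l 816))))), by decide +kernel⟩

def A012R_040 :
    ∃ t, chk3 (onCell 0 33554432 0 1073741824 1033476505 6710887 (corW 3 c0B eng mog cA012R gB0q0 gB4q1 gB0q2 gB1q2 dB0q0 dB4q1 dB0q2 dB1q2 true true)) t 1 1 1 = true :=
  ⟨(T.l 2), by decide +kernel⟩

def A012R_041 :
    ∃ t, chk3 (onCell 0 33554432 0 1073741824 1033476505 6710887 (corW 3 c0B eng mog cA012R gB0q0 gB4q1 gB1q2 gB2q2 dB0q0 dB4q1 dB1q2 dB2q2 true true)) t 1 1 1 = true :=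
  ⟨(T.l 2), by decide +kernel⟩

def A012R_042 :
    ∃ t, chk3 (onCell 0 33554432 0 1073741824 1033476505 6710887 (corW 3 c0B eng mog cA012R gB0q0 gB4q1 gB2q2 gB3q2 dB0q0 dB4q1 dB2q2 dB3q2 true false)) t 1 1 1 = true :=
  ⟨(T.b (T.a (T.a (T.l 0) (T.l 0)) (T.l 0)) (T.b (T.a (T.a (T.l 816) (T.l 816)) (T.l 816)) (T.a (T.a (T.l 816) (T.l 816)) (T.b (T.l 816) (T.l 816))))), by decide +kernel⟩

def A012R_050 :
    ∃ t, chk3 (onCell 0 33554432 0 1073741824 1033476505 6710887 (corW 3 c0B eng mog cA012R gB0q0 gB5q1 gB0q2 gB1q2 dB0q0 dB5q1 dB0q2 dB1q2 true true)) t 1 1 1 = true :=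
  ⟨(T.l 2), by decide +kernel⟩

def A012R_051 :
    ∃ t, chk3 (onCell 0 33554432 0 1073741824 1033476505 6710887 (corW 3 c0B eng mog cA012R gB0q0 gB5q1 gB1q2 gB2q2 dB0q0 dB5q1 dB1q2 dB2q2 true true)) t 1 1 1 = true :=
  ⟨(T.l 2), by decide +kernel⟩

def A012R_052 :
    ∃ t, chk3 (onCell 0 33554432 0 1073741824 1033476505 6710887 (corW 3 c0B eng mog cA012R gB0q0 gB5q1 gB2q2 gB3q2 dB0q0 dB5q1 dB2q2 dB3q2 true false)) t 1 1 1 = true :=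
  ⟨(T.b (T.b (T.a (T.a (T.l 0) (T.l 0)) (T.a (T.l 0) (T.l 0))) (T.a (T.a (T.l 816) (T.l 816)) (T.l 816))) (T.b (T.a (T.a (T.l 816) (T.l 816)) (T.l 816)) (T.a (T.a (T.l 816) (T.l 816)) (T.b (T.l 816) (T.l 816))))), by decide +kernel⟩

def A012R_130 :
    ∃ t, chk3 (onCell 0 33554432 0 1073741824 1033476505 6710887 (corW 3 c0B eng mog cA012R gB1q0 gB3q1 gB0q2 gB1q2 dB1q0 dB3q1 dB0q2 dB1q2 true true)) t 1 1 1 = true :=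
  ⟨(T.b (T.b (T.b (T.l 1) (T.b (T.a (T.a (T.a (T.l 816) (T.l 0)) (T.l 0)) (T.l 0)) (T.a (T.a (T.a (T.l 816) (T.l 816)) (T.l 816)) (T.l 816)))) (T.l 2)) (T.l 2)), by decide +kernel⟩

def A012R_131 :
    ∃ t, chk3 (onCell 0 33554432 0 1073741824 1033476505 6710887 (corW 3 c0B eng mog cA012R gB1q0 gB3q1 gB1q2 gB2q2 dB1q0 dB3q1 dB1q2 dB2q2 true true)) t 1 1 1 = true :=
  ⟨(T.b (T.b (T.a (T.a (T.a (T.l 0) (T.l 0)) (T.l 0)) (T.l 0)) (T.a (T.a (T.a (T.l 816) (T.l 816)) (T.l 816)) (T.l 816))) (T.b (T.l 2) (T.l 2))), by decide +kernel⟩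

def A012R_132 :
    ∃ t, chk3 (onCell 0 33554432 0 1073741824 1033476505 6710887 (corW 3 c0B eng mog cA012R gB1q0 gB3q1 gB2q2 gB3q2 dB1q0 dB3q1 dB2q2 dB3q2 true false)) t 1 1 1 = true :=
  ⟨(T.b (T.a (T.a (T.a (T.l 816) (T.l 0)) (T.l 0)) (T.l 0)) (T.b (T.a (T.a (T.a (T.l 816) (T.l 816)) (T.l 816)) (T.l 816)) (T.a (T.a (T.a (T.l 816) (T.l 816)) (T.l 816)) (T.l 0)))), by decide +kernel⟩

def A012R_140 :
    ∃ t, chk3 (onCell 0 33554432 0 1073741824 1033476505 6710887 (corW 3 c0B eng mog cA012R gB1q0 gB4q1 gB0q2 gB1q2 dB1q0 dB4q1 dB0q2 dB1q2 true true)) t 1 1 1 = true :=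
  ⟨(T.b (T.l 2) (T.l 2)), by decide +kernel⟩

def A012R_141 :
    ∃ t, chk3 (onCell 0 33554432 0 1073741824 1033476505 6710887 (corW 3 c0B eng mog cA012R gB1q0 gB4q1 gB1q2 gB2q2 dB1q0 dB4q1 dB1q2 dB2q2 true true)) t 1 1 1 = true :=
  ⟨(T.b (T.l 2) (T.l 2)), by decide +kernel⟩

def A012R_142 :
    ∃ t, chk3 (onCell 0 33554432 0 1073741824 1033476505 6710887 (corW 3 c0B eng mog cA012R gB1q0 gB4q1 gB2q2 gB3q2 dB1q0 dB4q1 dB2q2 dB3q2 true false)) t 1 1 1 = true :=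
  ⟨(T.b (T.a (T.a (T.a (T.l 0) (T.l 0)) (T.l 0)) (T.l 0)) (T.b (T.a (T.a (T.a (T.l 816) (T.l 816)) (T.l 816)) (T.l 816)) (T.a (T.a (T.a (T.l 816) (T.l 816)) (T.l 816)) (T.l 0)))), by decide +kernel⟩

def A012R_150 :
    ∃ t, chk3 (onCell 0 33554432 0 1073741824 1033476505 6710887 (corW 3 c0B eng mog cA012R gB1q0 gB5q1 gB0q2 gB1q2 dB1q0 dB5q1 dB0q2 dB1q2 true true)) t 1 1 1 = true :=
  ⟨(T.l 2), by decide +kernel⟩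

def A012R_151 :
    ∃ t, chk3 (onCell 0 33554432 0 1073741824 1033476505 6710887 (corW 3 c0B eng mog cA012R gB1q0 gB5q1 gB1q2 gB2q2 dB1q0 dB5q1 dB1q2 dB2q2 true true)) t 1 1 1 = true :=
  ⟨(T.l 2), by decide +kernel⟩

def A012R_152 :
    ∃ t, chk3 (onCell 0 33554432 0 1073741824 1033476505 6710887 (corW 3 c0B eng mog cA012R gB1q0 gB5q1 gB2q2 gB3q2 dB1q0 dB5q1 dB2q2 dB3q2 true false)) t 1 1 1 = true :=
  ⟨(T.b (T.b (T.a (T.a (T.a (T.l 0) (T.l 0)) (T.l 0)) (T.b (T.l 0) (T.l 0))) (T.a (T.a (T.a (T.l 816) (T.l 816)) (T.l 816)) (T.l 816))) (T.b (T.a (T.a (T.a (T.l 816) (T.l 816)) (T.l 816)) (T.l 816)) (T.a (T.a (T.a (T.l 816) (T.l 816)) (T.l 816)) (T.l 0)))), by decide +kernel⟩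

def A012R_230 :
    ∃ t, chk3 (onCell 0 33554432 0 1073741824 1033476505 6710887 (corW 3 c0B eng mog cA012R gB2q0 gB3q1 gB0q2 gB1q2 dB2q0 dB3q1 dB0q2 dB1q2 true true)) t 1 1 1 = true :=
  ⟨(T.b (T.l 1) (T.b (T.b (T.b (T.a (T.l 1) (T.l 816)) (T.a (T.a (T.a (T.l 816) (T.l 816)) (T.l 816)) (T.l 816))) (T.b (T.a (T.a (T.a (T.l 816) (T.l 816)) (T.l 816)) (T.l 816)) (T.a (T.a (T.a (T.l 816) (T.l 816)) (T.l 816)) (T.b (T.l 0) (T.l 2))))) (T.b (T.b (T.l 2) (T.l 2)) (T.l 2)))), by decide +kernel⟩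

def A012R_231 :
    ∃ t, chk3 (onCell 0 33554432 0 1073741824 1033476505 6710887 (corW 3 c0B eng mog cA012R gB2q0 gB3q1 gB1q2 gB2q2 dB2q0 dB3q1 dB1q2 dB2q2 true true)) t 1 1 1 = true :=
  ⟨(T.b (T.l 1) (T.b (T.a (T.a (T.a (T.l 816) (T.l 816)) (T.l 816)) (T.l 816)) (T.b (T.a (T.a (T.a (T.l 816) (T.l 816)) (T.l 816)) (T.b (T.l 0) (T.l 0))) (T.a (T.a (T.a (T.l 816) (T.l 816)) (T.l 816)) (T.b (T.l 0) (T.l 0)))))), by decide +kernel⟩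

def A012R_232 :
    ∃ t, chk3 (onCell 0 33554432 0 1073741824 1033476505 6710887 (corW 3 c0B eng mog cA012R gB2q0 gB3q1 gB2q2 gB3q2 dB2q0 dB3q1 dB2q2 dB3q2 true false)) t 1 1 1 = true :=
  ⟨(T.l 1), by decide +kernel⟩

def A012R_240 :
    ∃ t, chk3 (onCell 0 33554432 0 1073741824 1033476505 6710887 (corW 3 c0B eng mog cA012R gB2q0 gB4q1 gB0q2 gB1q2 dB2q0 dB4q1 dB0q2 dB1q2 true true)) t 1 1 1 = true :=
  ⟨(T.b (T.b (T.l 1) (T.b (T.l 1) (T.b (T.a (T.l 1) (T.l 816)) (T.a (T.a (T.a (T.l 816) (T.l 816)) (T.l 816)) (T.l 816))))) (T.b (T.b (T.b (T.a (T.a (T.a (T.l 816) (T.l 816)) (T.l 816)) (T.l 816)) (T.a (T.a (T.a (T.l 816) (T.l 816)) (T.l 816)) (T.b (T.l 816) (T.l 816)))) (T.b (T.a (T.b (T.a (T.a (T.l 816) (T.l 816)) (T.l 2)) (T.l 2)) (T.l 2)) (T.l 2))) (T.l 2))), by decide +kernel⟩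

def A012R_241 :
    ∃ t, chk3 (onCell 0 33554432 0 1073741824 1033476505 6710887 (corW 3 c0B eng mog cA012R gB2q0 gB4q1 gB1q2 gB2q2 dB2q0 dB4q1 dB1q2 dB2q2 true true)) t 1 1 1 = true :=
  ⟨(T.b (T.l 1) (T.b (T.a (T.a (T.a (T.l 816) (T.l 816)) (T.l 816)) (T.l 816)) (T.b (T.a (T.a (T.a (T.l 816) (T.l 816)) (T.l 816)) (T.b (T.l 0) (T.l 0))) (T.a (T.a (T.a (T.l 816) (T.l 816)) (T.l 816)) (T.b (T.l 0) (T.l 0)))))), by decide +kernel⟩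

def A012R_242 :
    ∃ t, chk3 (onCell 0 33554432 0 1073741824 1033476505 6710887 (corW 3 c0B eng mog cA012R gB2q0 gB4q1 gB2q2 gB3q2 dB2q0 dB4q1 dB2q2 dB3q2 true false)) t 1 1 1 = true :=
  ⟨(T.l 1), by decide +kernel⟩

def A012R_250 :
    ∃ t, chk3 (onCell 0 33554432 0 1073741824 1033476505 6710887 (corW 3 c0B eng mog cA012R gB2q0 gB5q1 gB0q2 gB1q2 dB2q0 dB5q1 dB0q2 dB1q2 true true)) t 1 1 1 = true :=
  ⟨(T.b (T.b (T.l 1) (T.b (T.b (T.l 1) (T.a (T.a (T.l 1) (T.l 0)) (T.l 816))) (T.b (T.a (T.a (T.a (T.l 816) (T.l 816)) (T.l 816)) (T.l 816)) (T.a (T.a (T.a (T.l 816) (T.l 816)) (T.l 816)) (T.l 816))))) (T.b (T.b (T.b (T.a (T.a (T.a (T.l 816) (T.l 816)) (T.l 816)) (T.b (T.l 816) (T.l 2))) (T.a (T.b (T.a (T.a (T.l 816) (T.l 2)) (T.l 2)) (T.l 2)) (T.l 2))) (T.l 2)) (T.l 2))), by decide +kernel⟩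

def A012R_251 :
    ∃ t, chk3 (onCell 0 33554432 0 1073741824 1033476505 6710887 (corW 3 c0B eng mog cA012R gB2q0 gB5q1 gB1q2 gB2q2 dB2q0 dB5q1 dB1q2 dB2q2 true true)) t 1 1 1 = true :=
  ⟨(T.b (T.b (T.l 1) (T.a (T.l 1) (T.l 0))) (T.b (T.a (T.a (T.a (T.l 816) (T.l 816)) (T.l 816)) (T.l 816)) (T.a (T.a (T.a (T.l 816) (T.l 816)) (T.l 816)) (T.a (T.l 816) (T.l 816))))), by decide +kernel⟩

def A012R_252 :
    ∃ t, chk3 (onCell 0 33554432 0 1073741824 1033476505 6710887 (corW 3 c0B eng mog cA012R gB2q0 gB5q1 gB2q2 gB3q2 dB2q0 dB5q1 dB2q2 dB3q2 true false)) t 1 1 1 = true :=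
  ⟨(T.l 1), by decide +kernel⟩

def A022E_000 :
    ∃ t, chk3 (onCell 0 26843545 0 1073741824 1033476505 6710887 (corW 3 c0B eng mog cA022E gB0q0 gB0q2 gB0q2 gB1q2 dB0q0 dB0q2 dB0q2 dB1q2 true true)) t 1 1 1 = true :=
  ⟨(T.l 2), by decide +kernel⟩

def A022E_001 :
    ∃ t, chk3 (onCell 0 26843545 0 1073741824 1033476505 6710887 (corW 3 c0B eng mog cA022E gB0q0 gB0q2 gB1q2 gB2q2 dB0q0 dB0q2 dB1q2 dB2q2 true true)) t 1 1 1 = true :=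
  ⟨(T.l 2), by decide +kernel⟩

def A022E_002 :
    ∃ t, chk3 (onCell 0 26843545 0 1073741824 1033476505 6710887 (corW 3 c0B eng mog cA022E gB0q0 gB0q2 gB2q2 gB3q2 dB0q0 dB0q2 dB2q2 dB3q2 true false)) t 1 1 1 = true :=
  ⟨(T.b (T.b (T.a (T.a (T.l 204) (T.a (T.b (T.l 204) (T.l 204)) (T.l 204))) (T.a (T.b (T.l 204) (T.l 204)) (T.b (T.l 0) (T.l 204)))) (T.a (T.a (T.l 204) (T.a (T.l 204) (T.l 204))) (T.a (T.b (T.l 204) (T.l 204)) (T.b (T.l 204) (T.l 0))))) (T.a (T.l 0) (T.b (T.b (T.b (T.l 0) (T.l 0)) (T.a (T.l 0) (T.l 0))) (T.a (T.l 0) (T.l 0))))), by decide +kernel⟩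

def A022E_010 :
    ∃ t, chk3 (onCell 0 33554432 0 1073741824 1033476505 6710887 (corW 3 c0B eng mog cA022E gB0q0 gB1q2 gB0q2 gB1q2 dB0q0 dB1q2 dB0q2 dB1q2 true true)) t 1 1 1 = true :=
  ⟨(T.l 2), by decide +kernel⟩

def A022E_011 :
    ∃ t, chk3 (onCell 0 33554432 0 1073741824 1033476505 6710887 (corW 3 c0B eng mog cA022E gB0q0 gB1q2 gB1q2 gB2q2 dB0q0 dB1q2 dB1q2 dB2q2 true true)) t 1 1 1 = true :=
  ⟨(T.l 2), by decide +kernel⟩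

def A022E_012 :
    ∃ t, chk3 (onCell 0 33554432 0 1073741824 1033476505 6710887 (corW 3 c0B eng mog cA022E gB0q0 gB1q2 gB2q2 gB3q2 dB0q0 dB1q2 dB2q2 dB3q2 true false)) t 1 1 1 = true :=
  ⟨(T.b (T.a (T.l 204) (T.b (T.a (T.l 204) (T.l 0)) (T.l 0))) (T.a (T.a (T.l 0) (T.b (T.l 204) (T.l 0))) (T.b (T.b (T.l 0) (T.l 0)) (T.a (T.l 0) (T.l 0))))), by decide +kernel⟩

def A022E_020 :
    ∃ t, chk3 (onCell 0 33554432 0 1073741824 1033476505 6710887 (corW 3 c0B eng mog cA022E gB0q0 gB2q2 gB0q2 gB1q2 dB0q0 dB2q2 dB0q2 dB1q2 true true)) t 1 1 1 = true :=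
  ⟨(T.l 2), by decide +kernel⟩

def A022E_021 :
    ∃ t, chk3 (onCell 0 33554432 0 1073741824 1033476505 6710887 (corW 3 c0B eng mog cA022E gB0q0 gB2q2 gB1q2 gB2q2 dB0q0 dB2q2 dB1q2 dB2q2 true true)) t 1 1 1 = true :=
  ⟨(T.l 2), by decide +kernel⟩

def A022E_022 :
    ∃ t, chk3 (onCell 0 33554432 0 1073741824 1033476505 6710887 (corW 3 c0B eng mog cA022E gB0q0 gB2q2 gB2q2 gB3q2 dB0q0 dB2q2 dB2q2 dB3q2 true false)) t 1 1 1 = true :=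
  ⟨(T.b (T.a (T.l 204) (T.b (T.a (T.l 204) (T.l 204)) (T.l 204))) (T.b (T.a (T.l 204) (T.b (T.l 204) (T.l 0))) (T.a (T.a (T.l 0) (T.l 0)) (T.a (T.l 0) (T.l 0))))), by decide +kernel⟩

def A022E_110 :
    ∃ t, chk3 (onCell 0 33554432 0 1073741824 1033476505 6710887 (corW 3 c0B eng mog cA022E gB1q0 gB1q2 gB0q2 gB1q2 dB1q0 dB1q2 dB0q2 dB1q2 true true)) t 1 1 1 = true :=
  ⟨(T.l 2), by decide +kernel⟩

def A022E_111 :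
    ∃ t, chk3 (onCell 0 33554432 0 1073741824 1033476505 6710887 (corW 3 c0B eng mog cA022E gB1q0 gB1q2 gB1q2 gB2q2 dB1q0 dB1q2 dB1q2 dB2q2 true true)) t 1 1 1 = true :=
  ⟨(T.l 2), by decide +kernel⟩

def A022E_112 :
    ∃ t, chk3 (onCell 0 33554432 0 1073741824 1033476505 6710887 (corW 3 c0B eng mog cA022E gB1q0 gB1q2 gB2q2 gB3q2 dB1q0 dB1q2 dB2q2 dB3q2 true false)) t 1 1 1 = true :=
  ⟨(T.b (T.b (T.a (T.l 204) (T.b (T.a (T.l 204) (T.l 204)) (T.a (T.l 204) (T.l 0)))) (T.a (T.a (T.l 204) (T.b (T.l 204) (T.l 0))) (T.b (T.b (T.l 0) (T.l 0)) (T.l 0)))) (T.b (T.a (T.a (T.l 204) (T.b (T.l 0) (T.l 0))) (T.b (T.l 0) (T.l 0))) (T.a (T.a (T.a (T.l 0) (T.b (T.l 0) (T.l 0))) (T.b (T.l 0) (T.l 0))) (T.b (T.l 0) (T.l 0))))), by decide +kernel⟩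

def A022E_120 :
    ∃ t, chk3 (onCell 0 33554432 0 1073741824 1033476505 6710887 (corW 3 c0B eng mog cA022E gB1q0 gB2q2 gB0q2 gB1q2 dB1q0 dB2q2 dB0q2 dB1q2 true true)) t 1 1 1 = true :=
  ⟨(T.l 2), by decide +kernel⟩

def A022E_121 :
    ∃ t, chk3 (onCell 0 33554432 0 1073741824 1033476505 6710887 (corW 3 c0B eng mog cA022E gB1q0 gB2q2 gB1q2 gB2q2 dB1q0 dB2q2 dB1q2 dB2q2 true true)) t 1 1 1 = true :=
  ⟨(T.l 2), by decide +kernel⟩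

def A022E_122 :
    ∃ t, chk3 (onCell 0 33554432 0 1073741824 1033476505 6710887 (corW 3 c0B eng mog cA022E gB1q0 gB2q2 gB2q2 gB3q2 dB1q0 dB2q2 dB2q2 dB3q2 true false)) t 1 1 1 = true :=
  ⟨(T.b (T.b (T.a (T.l 204) (T.b (T.b (T.l 204) (T.l 204)) (T.a (T.l 204) (T.l 204)))) (T.a (T.a (T.l 204) (T.b (T.l 204) (T.l 0))) (T.b (T.b (T.l 204) (T.l 204)) (T.l 0)))) (T.b (T.a (T.a (T.l 204) (T.b (T.l 0) (T.l 0))) (T.b (T.l 0) (T.l 0))) (T.a (T.a (T.a (T.l 0) (T.b (T.l 0) (T.l 0))) (T.b (T.l 0) (T.l 0))) (T.b (T.l 0) (T.l 0))))), by decide +kernel⟩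

def A022E_220 :
    ∃ t, chk3 (onCell 0 33554432 0 1073741824 1033476505 6710887 (corW 3 c0B eng mog cA022E gB2q0 gB2q2 gB0q2 gB1q2 dB2q0 dB2q2 dB0q2 dB1q2 true true)) t 1 1 1 = true :=
  ⟨(T.l 2), by decide +kernel⟩

def A022E_221 :
    ∃ t, chk3 (onCell 0 33554432 0 1073741824 1033476505 6710887 (corW 3 c0B eng mog cA022E gB2q0 gB2q2 gB1q2 gB2q2 dB2q0 dB2q2 dB1q2 dB2q2 true true)) t 1 1 1 = true :=
  ⟨(T.l 2), by decide +kernel⟩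

def A022E_222 :
    ∃ t, chk3 (onCell 0 33554432 0 1073741824 1033476505 6710887 (corW 3 c0B eng mog cA022E gB2q0 gB2q2 gB2q2 gB3q2 dB2q0 dB2q2 dB2q2 dB3q2 true false)) t 1 1 1 = true :=
  ⟨(T.b (T.b (T.a (T.l 204) (T.b (T.b (T.l 204) (T.l 204)) (T.b (T.l 204) (T.l 0)))) (T.b (T.a (T.l 204) (T.b (T.l 204) (T.l 204))) (T.a (T.a (T.l 204) (T.l 204)) (T.b (T.l 0) (T.l 0))))) (T.b (T.a (T.a (T.l 204) (T.b (T.l 0) (T.l 0))) (T.b (T.l 0) (T.l 0))) (T.a (T.a (T.a (T.l 0) (T.l 0)) (T.b (T.l 0) (T.l 0))) (T.b (T.l 0) (T.l 0))))), by decide +kernel⟩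

def A022L_004 :
    ∃ t, chk3 (onCell 0 22369621 0 1073741824 1033476505 6710887 (corW 3 c0B eng mog cA022L gB0q0 gB0q2 gB4q2 gB5q2 dB0q0 dB0q2 dB4q2 dB5q2 false true)) t 1 1 1 = true :=
  ⟨(T.b (T.b (T.b (T.a (T.a (T.l 204) (T.a (T.l 204) (T.a (T.l 204) (T.l 204)))) (T.a (T.a (T.b (T.l 204) (T.l 204)) (T.l 204)) (T.a (T.l 204) (T.l 204)))) (T.a (T.a (T.l 204) (T.a (T.l 204) (T.a (T.l 204) (T.l 204)))) (T.a (T.a (T.b (T.l 204) (T.l 204)) (T.b (T.l 204) (T.l 204))) (T.a (T.l 204) (T.l 204))))) (T.b (T.a (T.l 204) (T.a (T.a (T.b (T.l 204) (T.b (T.l 204) (T.l 204))) (T.b (T.l 204) (T.l 204))) (T.a (T.b (T.l 204) (T.l 204)) (T.b (T.l 204) (T.l 204))))) (T.a (T.b (T.l 204) (T.l 204)) (T.a (T.a (T.l 204) (T.b (T.l 204) (T.b (T.l 204) (T.l 204)))) (T.b (T.b (T.l 204) (T.l 204)) (T.a (T.b (T.l 204) (T.l 204)) (T.l 204))))))) (T.b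 (T.b (T.a (T.b (T.b (T.l 204) (T.l 204)) (T.c (T.b (T.l 204) (T.l 204)) (T.l 204))) (T.a (T.b (T.l 204) (T.b (T.l 204) (T.l 204))) (T.b (T.a (T.b (T.l 204) (T.l 204)) (T.b (T.l 204) (T.l 204))) (T.a (T.l 204) (T.b (T.l 204) (T.b (T.l 204) (T.l 204))))))) (T.b (T.b (T.a (T.c (T.b (T.l 204) (T.l 204)) (T.l 204)) (T.a (T.c (T.l 204) (T.l 204)) (T.a (T.l 204) (T.l 204)))) (T.b (T.b (T.a (T.c (T.l 204) (T.l 204)) (T.c (T.a (T.l 204) (T.l 204)) (T.l 204))) (T.b (T.a (T.c (T.a (T.c (T.l 0) (T.l 0)) (T.l 0)) (T.a (T.a (T.l 0) (T.l 0)) (T.l 0))) (T.c (T.a (T.l 0) (T.l 0)) (T.l 0))) (T.a (T.l 2) (T.b (T.b (T.a (T.c (T.l 0) (T.l 0)) (T.c (T.l 0) (T.l 0))) (T.a (T.l 2) (T.c (T.l 0) (T.l 0)))) (T.l 2))))) (T.l 2))) (T.l 2))) (T.l 2))), by decide +kernel⟩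

def A022L_014 :
    ∃ t, chk3 (onCell 0 33554432 0 1073741824 1033476505 6710887 (corW 3 c0B eng mog cA022L gB0q0 gB1q2 gB4q2 gB5q2 dB0q0 dB1q2 dB4q2 dB5q2 false true)) t 1 1 1 = true :=
  ⟨(T.b (T.a (T.l 0) (T.b (T.a (T.l 204) (T.b (T.l 204) (T.l 204))) (T.b (T.l 204) (T.l 204)))) (T.b (T.b (T.a (T.b (T.l 0) (T.b (T.l 816) (T.l 2))) (T.a (T.b (T.l 0) (T.l 816)) (T.a (T.b (T.l 0) (T.l 816)) (T.l 0)))) (T.l 2)) (T.l 2))), by decide +kernel⟩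

def A022L_024 :
    ∃ t, chk3 (onCell 0 33554432 0 1073741824 1033476505 6710887 (corW 3 c0B eng mog cA022L gB0q0 gB2q2 gB4q2 gB5q2 dB0q0 dB2q2 dB4q2 dB5q2 false true)) t 1 1 1 = true :=
  ⟨(T.b (T.b (T.a (T.l 816) (T.a (T.l 816) (T.l 0))) (T.l 2)) (T.l 2)), by decide +kernel⟩

def A022L_114 :
    ∃ t, chk3 (onCell 0 33554432 0 1073741824 1033476505 6710887 (corW 3 c0B eng mog cA022L gB1q0 gB1q2 gB4q2 gB5q2 dB1q0 dB1q2 dB4q2 dB5q2 false true)) t 1 1 1 = true :=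
  ⟨(T.b (T.b (T.a (T.l 204) (T.b (T.a (T.l 204) (T.l 204)) (T.a (T.l 204) (T.l 16)))) (T.b (T.a (T.l 0) (T.b (T.l 0) (T.l 0))) (T.a (T.a (T.l 0) (T.b (T.l 0) (T.l 0))) (T.b (T.l 0) (T.l 0))))) (T.l 2)), by decide +kernel⟩

def A022L_124 :
    ∃ t, chk3 (onCell 0 33554432 0 1073741824 1033476505 6710887 (corW 3 c0B eng mog cA022L gB1q0 gB2q2 gB4q2 gB5q2 dB1q0 dB2q2 dB4q2 dB5q2 false true)) t 1 1 1 = true :=
  ⟨(T.b (T.b (T.a (T.l 816) (T.b (T.l 0) (T.b (T.l 0) (T.l 2)))) (T.l 2)) (T.l 2)), by decide +kernel⟩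

def A022L_224 :
    ∃ t, chk3 (onCell 0 33554432 0 1073741824 1033476505 6710887 (corW 3 c0B eng mog cA022L gB2q0 gB2q2 gB4q2 gB5q2 dB2q0 dB2q2 dB4q2 dB5q2 false true)) t 1 1 1 = true :=
  ⟨(T.b (T.b (T.b (T.a (T.l 816) (T.l 0)) (T.l 2)) (T.l 2)) (T.l 2)), by decide +kernel⟩

def A022R_050 :
    ∃ t, chk3 (onCell 0 33554432 0 1073741824 1033476505 6710887 (corW 3 c0B eng mog cA022R gB0q0 gB5q2 gB0q2 gB1q2 dB0q0 dB5q2 dB0q2 dB1q2 true true)) t 1 1 1 = true :=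
  ⟨(T.l 2), by decide +kernel⟩

def A022R_051 :
    ∃ t, chk3 (onCell 0 33554432 0 1073741824 1033476505 6710887 (corW 3 c0B eng mog cA022R gB0q0 gB5q2 gB1q2 gB2q2 dB0q0 dB5q2 dB1q2 dB2q2 true true)) t 1 1 1 = true :=
  ⟨(T.l 2), by decide +kernel⟩

def A022R_052 :
    ∃ t, chk3 (onCell 0 33554432 0 1073741824 1033476505 6710887 (corW 3 c0B eng mog cA022R gB0q0 gB5q2 gB2q2 gB3q2 dB0q0 dB5q2 dB2q2 dB3q2 true false)) t 1 1 1 = true :=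
  ⟨(T.b (T.a (T.l 816) (T.b (T.l 0) (T.l 816))) (T.b (T.a (T.l 816) (T.l 816)) (T.a (T.a (T.l 816) (T.l 816)) (T.l 816)))), by decide +kernel⟩

def A022R_150 :
    ∃ t, chk3 (onCell 0 33554432 0 1073741824 1033476505 6710887 (corW 3 c0B eng mog cA022R gB1q0 gB5q2 gB0q2 gB1q2 dB1q0 dB5q2 dB0q2 dB1q2 true true)) t 1 1 1 = true :=
  ⟨(T.l 2), by decide +kernel⟩

def A022R_151 :
    ∃ t, chk3 (onCell 0 33554432 0 1073741824 1033476505 6710887 (corW 3 c0B eng mog cA022R gB1q0 gB5q2 gB1q2 gB2q2 dB1q0 dB5q2 dB1q2 dB2q2 true true)) t 1 1 1 = true :=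
  ⟨(T.l 2), by decide +kernel⟩

def A022R_152 :
    ∃ t, chk3 (onCell 0 33554432 0 1073741824 1033476505 6710887 (corW 3 c0B eng mog cA022R gB1q0 gB5q2 gB2q2 gB3q2 dB1q0 dB5q2 dB2q2 dB3q2 true false)) t 1 1 1 = true :=
  ⟨(T.b (T.b (T.a (T.l 816) (T.b (T.l 0) (T.b (T.l 816) (T.l 816)))) (T.b (T.a (T.l 816) (T.l 0)) (T.a (T.a (T.l 816) (T.l 816)) (T.l 816)))) (T.b (T.a (T.a (T.l 816) (T.b (T.l 816) (T.l 816))) (T.b (T.l 816) (T.l 816))) (T.a (T.a (T.a (T.l 816) (T.l 816)) (T.l 816)) (T.l 816)))), by decide +kernel⟩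

def A022R_250 :
    ∃ t, chk3 (onCell 0 33554432 0 1073741824 1033476505 6710887 (corW 3 c0B eng mog cA022R gB2q0 gB5q2 gB0q2 gB1q2 dB2q0 dB5q2 dB0q2 dB1q2 true true)) t 1 1 1 = true :=
  ⟨(T.l 2), by decide +kernel⟩

def A022R_251 :
    ∃ t, chk3 (onCell 0 33554432 0 1073741824 1033476505 6710887 (corW 3 c0B eng mog cA022R gB2q0 gB5q2 gB1q2 gB2q2 dB2q0 dB5q2 dB1q2 dB2q2 true true)) t 1 1 1 = true :=
  ⟨(T.b (T.b (T.a (T.l 816) (T.l 2)) (T.b (T.a (T.l 816) (T.a (T.l 816) (T.l 816))) (T.a (T.a (T.l 816) (T.l 816)) (T.a (T.l 816) (T.l 816))))) (T.b (T.b (T.a (T.a (T.l 816) (T.l 816)) (T.b (T.l 0) (T.l 0))) (T.a (T.a (T.l 816) (T.l 816)) (T.b (T.l 0) (T.l 0)))) (T.a (T.a (T.a (T.l 816) (T.l 816)) (T.b (T.l 816) (T.l 816))) (T.a (T.l 816) (T.l 816))))), by decide +kernel⟩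

def A022R_252 :
    ∃ t, chk3 (onCell 0 33554432 0 1073741824 1033476505 6710887 (corW 3 c0B eng mog cA022R gB2q0 gB5q2 gB2q2 gB3q2 dB2q0 dB5q2 dB2q2 dB3q2 true false)) t 1 1 1 = true :=
  ⟨(T.b (T.b (T.a (T.l 816) (T.b (T.l 0) (T.b (T.l 816) (T.l 816)))) (T.b (T.a (T.l 816) (T.l 816)) (T.a (T.l 1) (T.l 0)))) (T.l 1)), by decide +kernel⟩

def A101E_000 :
    ∃ t, chk3 (onCell 0 33554432 0 1073741824 1033476505 6710887 (corW 3 c0B eng mog cA101E gB0q1 gB0q0 gB0q1 gB1q1 dB0q1 dB0q0 dB0q1 dB1q1 true false)) t 1 1 1 = true :=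
  ⟨(T.l 1), by decide +kernel⟩

def A101E_010 :
    ∃ t, chk3 (onCell 0 33554432 0 1073741824 1033476505 6710887 (corW 3 c0B eng mog cA101E gB0q1 gB1q0 gB0q1 gB1q1 dB0q1 dB1q0 dB0q1 dB1q1 true false)) t 1 1 1 = true :=
  ⟨(T.l 1), by decide +kernel⟩

def A101E_020 :
    ∃ t, chk3 (onCell 0 33554432 0 1073741824 1033476505 6710887 (corW 3 c0B eng mog cA101E gB0q1 gB2q0 gB0q1 gB1q1 dB0q1 dB2q0 dB0q1 dB1q1 true false)) t 1 1 1 = true :=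
  ⟨(T.l 1), by decide +kernel⟩

def A101R_002 :
    ∃ t, chk3 (onCell 0 33554432 0 1073741824 1033476505 6710887 (corW 3 c0B eng mog cA101R gB0q1 gB0q0 gB2q1 gB3q1 dB0q1 dB0q0 dB2q1 dB3q1 false true)) t 1 1 1 = true :=
  ⟨(T.l 2), by decide +kernel⟩

def A101R_003 :
    ∃ t, chk3 (onCell 0 33554432 0 1073741824 1033476505 6710887 (corW 3 c0B eng mog cA101R gB0q1 gB0q0 gB3q1 gB4q1 dB0q1 dB0q0 dB3q1 dB4q1 true true)) t 1 1 1 = true :=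
  ⟨(T.l 2), by decide +kernel⟩

def A101R_004 :
    ∃ t, chk3 (onCell 0 33554432 0 1073741824 1033476505 6710887 (corW 3 c0B eng mog cA101R gB0q1 gB0q0 gB4q1 gB5q1 dB0q1 dB0q0 dB4q1 dB5q1 true true)) t 1 1 1 = true :=
  ⟨(T.l 2), by decide +kernel⟩

def A101R_012 :
    ∃ t, chk3 (onCell 0 33554432 0 1073741824 1033476505 6710887 (corW 3 c0B eng mog cA101R gB0q1 gB1q0 gB2q1 gB3q1 dB0q1 dB1q0 dB2q1 dB3q1 false true)) t 1 1 1 = true :=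
  ⟨(T.l 2), by decide +kernel⟩

def A101R_013 :
    ∃ t, chk3 (onCell 0 33554432 0 1073741824 1033476505 6710887 (corW 3 c0B eng mog cA101R gB0q1 gB1q0 gB3q1 gB4q1 dB0q1 dB1q0 dB3q1 dB4q1 true true)) t 1 1 1 = true :=
  ⟨(T.l 2), by decide +kernel⟩

def A101R_014 :
    ∃ t, chk3 (onCell 0 33554432 0 1073741824 1033476505 6710887 (corW 3 c0B eng mog cA101R gB0q1 gB1q0 gB4q1 gB5q1 dB0q1 dB1q0 dB4q1 dB5q1 true true)) t 1 1 1 = true :=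
  ⟨(T.l 2), by decide +kernel⟩

def A101R_022 :
    ∃ t, chk3 (onCell 0 33554432 0 1073741824 1033476505 6710887 (corW 3 c0B eng mog cA101R gB0q1 gB2q0 gB2q1 gB3q1 dB0q1 dB2q0 dB2q1 dB3q1 false true)) t 1 1 1 = true :=
  ⟨(T.l 2), by decide +kernel⟩

def A101R_023 :
    ∃ t, chk3 (onCell 0 33554432 0 1073741824 1033476505 6710887 (corW 3 c0B eng mog cA101R gB0q1 gB2q0 gB3q1 gB4q1 dB0q1 dB2q0 dB3q1 dB4q1 true true)) t 1 1 1 = true :=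
  ⟨(T.l 2), by decide +kernel⟩

def A101R_024 :
    ∃ t, chk3 (onCell 0 33554432 0 1073741824 1033476505 6710887 (corW 3 c0B eng mog cA101R gB0q1 gB2q0 gB4q1 gB5q1 dB0q1 dB2q0 dB4q1 dB5q1 true true)) t 1 1 1 = true :=
  ⟨(T.l 2), by decide +kernel⟩

def A102E_000 :
    ∃ t, chk3 (onCell 0 16777216 0 1073741824 1033476505 6710887 (corW 3 c0B eng mog cA102E gB0q1 gB0q0 gB0q2 gB1q2 dB0q1 dB0q0 dB0q2 dB1q2 true true)) t 1 1 1 = true :=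
  ⟨(T.b (T.b (T.l 2) (T.b (T.l 2) (T.b (T.l 2) (T.a (T.b (T.l 816) (T.b (T.l 816) (T.l 0))) (T.a (T.l 0) (T.a (T.l 816) (T.b (T.b (T.l 816) (T.l 816)) (T.b (T.l 816) (T.l 816))))))))) (T.b (T.b (T.b (T.b (T.b (T.b (T.a (T.b (T.a (T.l 0) (T.l 0)) (T.l 1)) (T.a (T.l 0) (T.l 0))) (T.l 1)) (T.l 1)) (T.l 1)) (T.l 1)) (T.l 1)) (T.l 1))), by decide +kernel⟩

def A102E_001 :
    ∃ t, chk3 (onCell 0 16777216 0 1073741824 1033476505 6710887 (corW 3 c0B eng mog cA102E gB0q1 gB0q0 gB1q2 gB2q2 dB0q1 dB0q0 dB1q2 dB2q2 true true)) t 1 1 1 = true :=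
  ⟨(T.b (T.a (T.b (T.l 2) (T.b (T.l 816) (T.b (T.l 816) (T.b (T.l 816) (T.l 1))))) (T.b (T.l 2) (T.b (T.l 816) (T.b (T.l 816) (T.b (T.l 816) (T.l 1)))))) (T.l 1)), by decide +kernel⟩

def A102E_002 :
    ∃ t, chk3 (onCell 0 16777216 0 1073741824 1033476505 6710887 (corW 3 c0B eng mog cA102E gB0q1 gB0q0 gB2q2 gB3q2 dB0q1 dB0q0 dB2q2 dB3q2 true false)) t 1 1 1 = true :=
  ⟨(T.b (T.a (T.b (T.l 0) (T.b (T.b (T.l 816) (T.l 1)) (T.l 1))) (T.b (T.l 0) (T.b (T.b (T.l 816) (T.l 1)) (T.l 1)))) (T.l 1)), by decide +kernel⟩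

def A102E_010_1_2_1 :
    ∃ t, chk3 (onCell 0 33554432 0 1073741824 1033476505 6710887 (corW 3 c0B eng mog cA102E gB0q1 gB1q0 gB0q2 gB1q2 dB0q1 dB1q0 dB0q2 dB1q2 true true)) t 1 2 1 = true :=
  ⟨(T.l 2), by decide +kernel⟩

def A102E_010_1_24_1 :
    ∃ t, chk3 (onCell 0 33554432 0 1073741824 1033476505 6710887 (corW 3 c0B eng mog cA102E gB0q1 gB1q0 gB0q2 gB1q2 dB0q1 dB1q0 dB0q2 dB1q2 true true)) t 1 24 1 = true :=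
  ⟨(T.b (T.l 2) (T.b (T.l 2) (T.b (T.l 2) (T.b (T.a (T.b (T.a (T.a (T.l 816) (T.a (T.l 816) (T.l 2))) (T.l 2)) (T.a (T.a (T.l 816) (T.a (T.l 816) (T.l 816))) (T.a (T.l 0) (T.l 816)))) (T.a (T.l 2) (T.l 2))) (T.a (T.b (T.a (T.a (T.l 816) (T.a (T.l 816) (T.l 816))) (T.a (T.l 0) (T.l 816))) (T.a (T.a (T.l 816) (T.a (T.l 816) (T.l 816))) (T.a (T.l 0) (T.l 816)))) (T.a (T.a (T.l 816) (T.l 816)) (T.l 816))))))), by decide +kernel⟩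

def A102E_010_1_100_1 :
    ∃ t, chk3 (onCell 0 33554432 0 1073741824 1033476505 6710887 (corW 3 c0B eng mog cA102E gB0q1 gB1q0 gB0q2 gB1q2 dB0q1 dB1q0 dB0q2 dB1q2 true true)) t 1 100 1 = true :=
  ⟨(T.b (T.b (T.a (T.b (T.a (T.a (T.l 816) (T.a (T.l 816) (T.l 816))) (T.a (T.l 0) (T.l 816))) (T.a (T.a (T.l 816) (T.a (T.l 816) (T.l 816))) (T.a (T.l 0) (T.l 816)))) (T.a (T.a (T.l 816) (T.l 816)) (T.l 816))) (T.a (T.b (T.a (T.a (T.l 816) (T.a (T.l 816) (T.l 816))) (T.a (T.l 0) (T.l 816))) (T.a (T.a (T.l 816) (T.a (T.l 816) (T.l 816))) (T.a (T.l 0) (T.l 816)))) (T.a (T.a (T.l 816) (T.l 816)) (T.l 816)))) (T.b (T.a (T.b (T.a (T.a (T.l 816) (T.a (T.l 816) (T.l 816))) (T.a (T.l 0) (T.l 816))) (T.a (T.a (T.l 816) (T.a (T.l 816) (T.l 816))) (T.a (T.l 0) (T.l 816)))) (T.a (T.a (T.l 816) (T.l 816)) (T.l 816))) (T.a (T.b (T.a (T.a (T.l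 816) (T.a (T.l 816) (T.l 816))) (T.a (T.l 0) (T.l 816))) (T.a (T.a (T.l 816) (T.a (T.l 816) (T.l 816))) (T.a (T.l 0) (T.l 816)))) (T.a (T.a (T.l 816) (T.l 816)) (T.l 816))))), by decide +kernel⟩

def A102E_010_1_101_1 :
    ∃ t, chk3 (onCell 0 33554432 0 1073741824 1033476505 6710887 (corW 3 c0B eng mog cA102E gB0q1 gB1q0 gB0q2 gB1q2 dB0q1 dB1q0 dB0q2 dB1q2 true true)) t 1 101 1 = true :=
  ⟨(T.b (T.b (T.a (T.b (T.a (T.a (T.l 816) (T.a (T.l 816) (T.l 0))) (T.a (T.l 0) (T.l 0))) (T.a (T.a (T.l 816) (T.a (T.l 816) (T.l 0))) (T.a (T.l 0) (T.l 0)))) (T.a (T.a (T.l 816) (T.l 816)) (T.l 816))) (T.a (T.b (T.a (T.a (T.l 816) (T.a (T.l 816) (T.l 0))) (T.a (T.l 0) (T.l 0))) (T.a (T.a (T.l 0) (T.a (T.l 816) (T.l 0))) (T.a (T.l 0) (T.l 0)))) (T.a (T.a (T.l 816) (T.l 816)) (T.l 816)))) (T.a (T.b (T.b (T.a (T.a (T.l 0) (T.a (T.l 816) (T.l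 0))) (T.a (T.l 0) (T.l 0))) (T.a (T.a (T.l 0) (T.a (T.l 816) (T.l 0))) (T.a (T.l 0) (T.l 0)))) (T.b (T.a (T.a (T.l 0) (T.a (T.l 816) (T.l 0))) (T.a (T.l 0) (T.l 0))) (T.a (T.a (T.l 0) (T.a (T.l 0) (T.l 0))) (T.a (T.l 0) (T.l 0))))) (T.a (T.a (T.l 0) (T.l 816)) (T.a (T.l 816) (T.l 816))))), by decide +kernel⟩

def A102E_010_1_51_1 :
    ∃ t, chk3 (onCell 0 33554432 0 1073741824 1033476505 6710887 (corW 3 c0B eng mog cA102E gB0q1 gB1q0 gB0q2 gB1q2 dB0q1 dB1q0 dB0q2 dB1q2 true true)) t 1 51 1 = true :=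
  ⟨(T.b (T.b (T.a (T.b (T.b (T.a (T.a (T.l 204) (T.a (T.l 0) (T.l 0))) (T.a (T.l 0) (T.l 0))) (T.a (T.a (T.l 204) (T.a (T.l 0) (T.l 0))) (T.a (T.a (T.l 0) (T.l 0)) (T.l 0)))) (T.b (T.a (T.a (T.l 204) (T.a (T.l 204) (T.l 0))) (T.a (T.a (T.l 0) (T.l 0)) (T.a (T.l 0) (T.l 0)))) (T.a (T.a (T.l 204) (T.a (T.l 204) (T.c (T.l 0) (T.l 0)))) (T.a (T.a (T.l 0) (T.l 0)) (T.a (T.l 0) (T.l 0)))))) (T.a (T.a (T.l 0) (T.l 0)) (T.a (T.l 816) (T.l 816)))) (T.a (T.b (T.b (T.a (T.a (T.l 1) (T.a (T.l 1) (T.a (T.l 1) (T.l 204)))) (T.b (T.a (T.a (T.l 0) (T.l 204)) (T.a (T.l 0) (T.l 0))) (T.a (T.a (T.l 1) (T.l 204)) (T.a (T.l 204) (T.l 0))))) (T.a (T.l 1) (T.l 1))) (T.l 1)) (T.b (T.a (T.a (T.a (T.l 0) (T.l 0)) (T.l 0)) (T.a (T.l 0) (T.l 816))) (T.a (T.l 1) (T.a (T.a (T.l 816) (T.l 816)) (T.l 816)))))) (T.l 1)), by decide +kernel⟩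

def A102E_010_1_13_1 :
    ∃ t, chk3 (onCell 0 33554432 0 1073741824 1033476505 6710887 (corW 3 c0B eng mog cA102E gB0q1 gB1q0 gB0q2 gB1q2 dB0q1 dB1q0 dB0q2 dB1q2 true true)) t 1 13 1 = true :=
  ⟨(T.l 1), by decide +kernel⟩

def A102E_010_1_7_1 :
    ∃ t, chk3 (onCell 0 33554432 0 1073741824 1033476505 6710887 (corW 3 c0B eng mog cA102E gB0q1 gB1q0 gB0q2 gB1q2 dB0q1 dB1q0 dB0q2 dB1q2 true true)) t 1 7 1 = true :=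
  ⟨(T.l 1), by decide +kernel⟩

theorem A102E_010_1_50_1 :
    ∃ t, chk3 (onCell 0 33554432 0 1073741824 1033476505 6710887 (corW 3 c0B eng mog cA102E gB0q1 gB1q0 gB0q2 gB1q2 dB0q1 dB1q0 dB0q2 dB1q2 true true)) t 1 50 1 = true :=
  ex3_b A102E_010_1_100_1 A102E_010_1_101_1
theorem A102E_010_1_25_1 :
    ∃ t, chk3 (onCell 0 33554432 0 1073741824 1033476505 6710887 (corW 3 c0B eng mog cA102E gB0q1 gB1q0 gB0q2 gB1q2 dB0q1 dB1q0 dB0q2 dB1q2 true true)) t 1 25 1 = true :=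
  ex3_b A102E_010_1_50_1 A102E_010_1_51_1
theorem A102E_010_1_12_1 :
    ∃ t, chk3 (onCell 0 33554432 0 1073741824 1033476505 6710887 (corW 3 c0B eng mog cA102E gB0q1 gB1q0 gB0q2 gB1q2 dB0q1 dB1q0 dB0q2 dB1q2 true true)) t 1 12 1 = true :=
  ex3_b A102E_010_1_24_1 A102E_010_1_25_1
theorem A102E_010_1_6_1 :
    ∃ t, chk3 (onCell 0 33554432 0 1073741824 1033476505 6710887 (corW 3 c0B eng mog cA102E gB0q1 gB1q0 gB0q2 gB1q2 dB0q1 dB1q0 dB0q2 dB1q2 true true)) t 1 6 1 = true :=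
  ex3_b A102E_010_1_12_1 A102E_010_1_13_1
theorem A102E_010_1_3_1 :
    ∃ t, chk3 (onCell 0 33554432 0 1073741824 1033476505 6710887 (corW 3 c0B eng mog cA102E gB0q1 gB1q0 gB0q2 gB1q2 dB0q1 dB1q0 dB0q2 dB1q2 true true)) t 1 3 1 = true :=
  ex3_b A102E_010_1_6_1 A102E_010_1_7_1
theorem A102E_010 :
    ∃ t, chk3 (onCell 0 33554432 0 1073741824 1033476505 6710887 (corW 3 c0B eng mog cA102E gB0q1 gB1q0 gB0q2 gB1q2 dB0q1 dB1q0 dB0q2 dB1q2 true true)) t 1 1 1 = true :=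
  ex3_b A102E_010_1_2_1 A102E_010_1_3_1

def A102E_011 :
    ∃ t, chk3 (onCell 0 33554432 0 1073741824 1033476505 6710887 (corW 3 c0B eng mog cA102E gB0q1 gB1q0 gB1q2 gB2q2 dB0q1 dB1q0 dB1q2 dB2q2 true true)) t 1 1 1 = true :=
  ⟨(T.b (T.b (T.l 2) (T.b (T.l 2) (T.b (T.b (T.l 2) (T.b (T.l 2) (T.a (T.a (T.a (T.l 816) (T.l 0)) (T.l 0)) (T.l 0)))) (T.b (T.a (T.a (T.a (T.l 816) (T.l 0)) (T.l 0)) (T.a (T.l 816) (T.l 816))) (T.a (T.a (T.a (T.l 816) (T.l 0)) (T.l 0)) (T.a (T.l 816) (T.l 816))))))) (T.b (T.b (T.b (T.b (T.a (T.a (T.a (T.l 816) (T.l 0)) (T.l 0)) (T.a (T.l 816) (T.l 816))) (T.b (T.a (T.a (T.a (T.l 816) (T.l 0)) (T.a (T.l 816) (T.l 816))) (T.a (T.l 816) (T.l 816))) (T.b (T.b (T.a (T.b (T.a (T.a (T.l 816) (T.l 0)) (T.a (T.l 816) (T.l 816))) (T.a (T.a (T.l 816) (T.l 0)) (T.a (T.l 816) (T.l 816)))) (T.a (T.l 816) (T.l 816)))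 (T.a (T.b (T.a (T.a (T.l 816) (T.l 0)) (T.a (T.l 816) (T.l 816))) (T.a (T.a (T.l 816) (T.l 0)) (T.a (T.l 816) (T.l 816)))) (T.a (T.l 816) (T.l 816)))) (T.b (T.a (T.b (T.a (T.a (T.l 816) (T.a (T.l 816) (T.l 816))) (T.a (T.l 816) (T.l 816))) (T.a (T.a (T.l 1) (T.a (T.l 816) (T.l 816))) (T.a (T.l 816) (T.l 816)))) (T.a (T.l 816) (T.l 816))) (T.a (T.a (T.l 1) (T.a (T.l 1) (T.l 816))) (T.a (T.l 816) (T.l 816))))))) (T.a (T.l 1) (T.b (T.l 1) (T.l 1)))) (T.l 1)) (T.l 1))), by decide +kernel⟩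

def A102E_012 :
    ∃ t, chk3 (onCell 0 33554432 0 1073741824 1033476505 6710887 (corW 3 c0B eng mog cA102E gB0q1 gB1q0 gB2q2 gB3q2 dB0q1 dB1q0 dB2q2 dB3q2 true false)) t 1 1 1 = true :=
  ⟨(T.b (T.b (T.a (T.a (T.a (T.l 0) (T.l 0)) (T.l 0)) (T.a (T.l 0) (T.l 0))) (T.b (T.b (T.a (T.a (T.a (T.l 816) (T.l 0)) (T.l 0)) (T.l 0)) (T.a (T.a (T.a (T.l 816) (T.l 0)) (T.l 0)) (T.b (T.l 0) (T.l 0)))) (T.b (T.b (T.a (T.a (T.a (T.l 816) (T.l 0)) (T.l 0)) (T.l 0)) (T.a (T.a (T.a (T.l 816) (T.l 0)) (T.l 0)) (T.a (T.l 816) (T.l 816)))) (T.l 1)))) (T.l 1)), by decide +kernel⟩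

def A102E_020_1_2_1 :
    ∃ t, chk3 (onCell 0 22369621 0 1073741824 1033476505 6710887 (corW 3 c0B eng mog cA102E gB0q1 gB2q0 gB0q2 gB1q2 dB0q1 dB2q0 dB0q2 dB1q2 true true)) t 1 2 1 = true :=
  ⟨(T.l 2), by decide +kernel⟩

def A102E_020_1_6_1 :
    ∃ t, chk3 (onCell 0 22369621 0 1073741824 1033476505 6710887 (corW 3 c0B eng mog cA102E gB0q1 gB2q0 gB0q2 gB1q2 dB0q1 dB2q0 dB0q2 dB1q2 true true)) t 1 6 1 = true :=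
  ⟨(T.l 2), by decide +kernel⟩

def A102E_020_1_56_1 :
    ∃ t, chk3 (onCell 0 22369621 0 1073741824 1033476505 6710887 (corW 3 c0B eng mog cA102E gB0q1 gB2q0 gB0q2 gB1q2 dB0q1 dB2q0 dB0q2 dB1q2 true true)) t 1 56 1 = true :=
  ⟨(T.b (T.l 2) (T.b (T.l 2) (T.b (T.l 2) (T.b (T.b (T.a (T.a (T.l 816) (T.a (T.a (T.l 816) (T.l 816)) (T.l 816))) (T.b (T.b (T.l 2) (T.b (T.l 2) (T.a (T.a (T.l 816) (T.l 816)) (T.a (T.l 816) (T.l 816))))) (T.a (T.a (T.l 816) (T.l 816)) (T.a (T.l 816) (T.l 816))))) (T.a (T.a (T.l 816) (T.a (T.a (T.l 816) (T.l 816)) (T.l 824))) (T.a (T.a (T.l 824) (T.l 816)) (T.a (T.l 816) (T.l 816))))) (T.b (T.a (T.a (T.l 816) (T.a (T.a (T.l 816) (T.l 816)) (T.l 824))) (T.a (T.a (T.l 824) (T.l 816)) (T.a (T.l 816) (T.l 816)))) (T.a (T.a (T.l 816) (T.a (T.a (T.l 816) (T.l 816)) (T.l 824))) (T.a (T.a (T.l 824) (T.l 816))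 (T.a (T.l 816) (T.l 816))))))))), by decide +kernel⟩

def A102E_020_1_228_1 :
    ∃ t, chk3 (onCell 0 22369621 0 1073741824 1033476505 6710887 (corW 3 c0B eng mog cA102E gB0q1 gB2q0 gB0q2 gB1q2 dB0q1 dB2q0 dB0q2 dB1q2 true true)) t 1 228 1 = true :=
  ⟨(T.b (T.b (T.b (T.a (T.a (T.l 816) (T.a (T.a (T.l 816) (T.l 816)) (T.l 824))) (T.a (T.a (T.l 824) (T.l 824)) (T.a (T.l 816) (T.l 816)))) (T.a (T.a (T.l 816) (T.a (T.a (T.l 816) (T.l 816)) (T.l 824))) (T.a (T.a (T.l 952) (T.l 824)) (T.a (T.l 816) (T.l 816))))) (T.b (T.a (T.a (T.l 816) (T.a (T.a (T.l 816) (T.l 816)) (T.l 824))) (T.a (T.a (T.l 952) (T.l 824)) (T.a (T.l 816) (T.l 816)))) (T.a (T.a (T.l 816) (T.a (T.a (T.l 816) (T.l 816)) (T.c (T.l 824) (T.l 824)))) (T.a (T.a (T.l 952) (T.l 824)) (T.a (T.l 816) (T.l 816)))))) (T.b (T.b (T.a (T.a (T.l 816) (T.a (T.a (T.l 816) (T.l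 816)) (T.c (T.l 824) (T.l 824)))) (T.a (T.a (T.c (T.l 824) (T.l 824)) (T.l 952)) (T.a (T.l 816) (T.l 816)))) (T.a (T.a (T.l 816) (T.a (T.a (T.l 816) (T.l 816)) (T.c (T.l 824) (T.l 824)))) (T.a (T.a (T.c (T.l 952) (T.l 952)) (T.l 952)) (T.a (T.l 816) (T.l 816))))) (T.b (T.a (T.a (T.l 816) (T.a (T.a (T.l 816) (T.l 816)) (T.c (T.l 824) (T.l 824)))) (T.a (T.a (T.c (T.l 952) (T.l 952)) (T.l 952)) (T.a (T.l 816) (T.l 816)))) (T.a (T.a (T.l 816) (T.a (T.a (T.l 816) (T.l 952)) (T.c (T.l 824) (T.l 824)))) (T.a (T.a (T.c (T.l 952) (T.l 952)) (T.l 952)) (T.a (T.l 944) (T.l 816))))))), by decide +kernel⟩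

def A102E_020_1_458_1 :
    ∃ t, chk3 (onCell 0 22369621 0 1073741824 1033476505 6710887 (corW 3 c0B eng mog cA102E gB0q1 gB2q0 gB0q2 gB1q2 dB0q1 dB2q0 dB0q2 dB1q2 true true)) t 1 458 1 = true :=
  ⟨(T.b (T.b (T.a (T.a (T.l 816) (T.a (T.a (T.l 816) (T.l 952)) (T.a (T.l 816) (T.l 816)))) (T.a (T.a (T.c (T.l 952) (T.l 952)) (T.c (T.l 952) (T.l 952))) (T.a (T.l 944) (T.l 944)))) (T.a (T.a (T.l 816) (T.a (T.a (T.l 816) (T.l 952)) (T.a (T.l 816) (T.l 816)))) (T.a (T.a (T.a (T.l 824) (T.l 824)) (T.c (T.l 952) (T.l 952))) (T.a (T.l 944) (T.l 944))))) (T.b (T.a (T.a (T.l 816) (T.a (T.a (T.l 816) (T.c (T.l 816) (T.l 816))) (T.a (T.l 824) (T.l 824)))) (T.a (T.a (T.a (T.l 824) (T.l 824)) (T.c (T.l 952) (T.l 952))) (T.a (T.l 944) (T.l 944)))) (T.a (T.a (T.l 816) (T.a (T.a (T.l 816) (T.c (T.l 816) (T.l 816))) (T.a (T.l 952) (T.l 824))))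 (T.a (T.a (T.a (T.l 952) (T.l 824)) (T.c (T.l 952) (T.l 952))) (T.a (T.l 944) (T.l 944)))))), by decide +kernel⟩

def A102E_020_1_918_1 :
    ∃ t, chk3 (onCell 0 22369621 0 1073741824 1033476505 6710887 (corW 3 c0B eng mog cA102E gB0q1 gB2q0 gB0q2 gB1q2 dB0q1 dB2q0 dB0q2 dB1q2 true true)) t 1 918 1 = true :=
  ⟨(T.b (T.a (T.a (T.l 816) (T.a (T.a (T.l 944) (T.c (T.l 944) (T.l 952))) (T.a (T.l 952) (T.l 824)))) (T.a (T.a (T.a (T.l 952) (T.l 952)) (T.c (T.l 952) (T.l 952))) (T.a (T.c (T.l 944) (T.l 944)) (T.l 944)))) (T.a (T.a (T.a (T.l 816) (T.l 816)) (T.a (T.a (T.l 944) (T.c (T.l 952) (T.l 952))) (T.a (T.l 952) (T.l 952)))) (T.b (T.a (T.a (T.a (T.l 952) (T.l 952)) (T.a (T.l 952) (T.l 952))) (T.a (T.c (T.l 944) (T.l 944)) (T.c (T.l 944) (T.l 944)))) (T.a (T.a (T.a (T.l 952) (T.l 952)) (T.a (T.l 952) (T.l 952))) (T.a (T.c (T.l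 944) (T.l 944)) (T.c (T.l 944) (T.l 944))))))), by decide +kernel⟩

def A102E_020_1_919_1 :
    ∃ t, chk3 (onCell 0 22369621 0 1073741824 1033476505 6710887 (corW 3 c0B eng mog cA102E gB0q1 gB2q0 gB0q2 gB1q2 dB0q1 dB2q0 dB0q2 dB1q2 true true)) t 1 919 1 = true :=
  ⟨(T.b (T.a (T.a (T.c (T.l 816) (T.l 816)) (T.a (T.a (T.l 944) (T.c (T.l 952) (T.l 952))) (T.a (T.c (T.l 816) (T.l 824)) (T.l 952)))) (T.b (T.a (T.a (T.a (T.l 952) (T.l 952)) (T.a (T.l 952) (T.l 952))) (T.a (T.c (T.l 944) (T.l 944)) (T.c (T.l 944) (T.l 944)))) (T.a (T.a (T.a (T.l 952) (T.l 952)) (T.a (T.l 952) (T.l 952))) (T.a (T.c (T.l 944) (T.l 944)) (T.c (T.l 944) (T.l 944)))))) (T.a (T.a (T.c (T.l 816) (T.l 816)) (T.b (T.a (T.a (T.l 952) (T.c (T.l 952) (T.l 952))) (T.a (T.c (T.l 816) (T.l 824)) (T.l 952))) (T.b (T.a (T.a (T.l 952) (T.c (T.c (T.l 952) (T.l 952))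 (T.l 952))) (T.a (T.c (T.l 824) (T.l 824)) (T.l 952))) (T.a (T.a (T.c (T.l 816) (T.l 816)) (T.c (T.c (T.l 952) (T.l 952)) (T.c (T.l 952) (T.l 952)))) (T.a (T.c (T.l 824) (T.l 952)) (T.l 952)))))) (T.b (T.a (T.a (T.a (T.c (T.l 952) (T.l 952)) (T.l 952)) (T.a (T.l 952) (T.l 952))) (T.a (T.c (T.l 944) (T.l 944)) (T.c (T.l 944) (T.l 944)))) (T.a (T.a (T.a (T.c (T.l 952) (T.l 952)) (T.l 952)) (T.a (T.c (T.l 952) (T.l 952)) (T.l 952))) (T.a (T.c (T.l 944) (T.l 944)) (T.c (T.l 944) (T.l 944))))))), by decide +kernel⟩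

def A102E_020_1_1840_1 :
    ∃ t, chk3 (onCell 0 22369621 0 1073741824 1033476505 6710887 (corW 3 c0B eng mog cA102E gB0q1 gB2q0 gB0q2 gB1q2 dB0q1 dB2q0 dB0q2 dB1q2 true true)) t 1 1840 1 = true :=
  ⟨(T.a (T.a (T.c (T.l 816) (T.l 816)) (T.b (T.b (T.a (T.a (T.c (T.l 816) (T.l 816)) (T.c (T.c (T.l 952) (T.l 952)) (T.c (T.l 952) (T.l 952)))) (T.a (T.c (T.l 952) (T.l 952)) (T.c (T.l 824) (T.l 824)))) (T.a (T.a (T.c (T.l 816) (T.l 816)) (T.c (T.c (T.l 952) (T.l 952)) (T.c (T.l 952) (T.l 952)))) (T.a (T.c (T.l 952) (T.l 952)) (T.c (T.l 824) (T.l 824))))) (T.b (T.a (T.a (T.c (T.l 816) (T.l 816)) (T.c (T.a (T.l 944) (T.l 816)) (T.c (T.l 952) (T.l 952)))) (T.a (T.c (T.l 952) (T.l 952)) (T.c (T.l 824) (T.l 824)))) (T.a (T.a (T.c (T.l 944) (T.l 944)) (T.c (T.a (T.l 944) (T.l 944)) (T.c (T.l 952) (T.l 952)))) (T.a (T.c (T.l 952) (T.l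 952)) (T.c (T.l 824) (T.l 824))))))) (T.b (T.a (T.a (T.a (T.c (T.l 952) (T.l 952)) (T.c (T.l 952) (T.l 952))) (T.a (T.c (T.l 952) (T.l 952)) (T.l 952))) (T.a (T.a (T.l 944) (T.l 944)) (T.c (T.l 944) (T.l 944)))) (T.a (T.a (T.a (T.c (T.l 952) (T.l 952)) (T.c (T.l 952) (T.l 952))) (T.a (T.c (T.l 952) (T.l 952)) (T.l 952))) (T.a (T.a (T.c (T.l 944) (T.l 944)) (T.c (T.l 944) (T.l 944))) (T.c (T.l 944) (T.l 944)))))), by decide +kernel⟩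

def A102E_020_1_1841_1 :
    ∃ t, chk3 (onCell 0 22369621 0 1073741824 1033476505 6710887 (corW 3 c0B eng mog cA102E gB0q1 gB2q0 gB0q2 gB1q2 dB0q1 dB2q0 dB0q2 dB1q2 true true)) t 1 1841 1 = true :=
  ⟨(T.a (T.a (T.c (T.l 944) (T.a (T.l 816) (T.l 816))) (T.b (T.b (T.a (T.a (T.c (T.l 944) (T.l 944)) (T.c (T.a (T.l 944) (T.l 944)) (T.a (T.l 944) (T.l 944)))) (T.a (T.c (T.l 952) (T.l 952)) (T.c (T.l 824) (T.l 952)))) (T.a (T.a (T.c (T.l 944) (T.l 944)) (T.c (T.a (T.l 944) (T.l 944)) (T.a (T.l 952) (T.l 944)))) (T.a (T.c (T.l 952) (T.l 952)) (T.c (T.l 952) (T.l 952))))) (T.b (T.a (T.a (T.c (T.l 944) (T.l 944)) (T.c (T.a (T.l 944) (T.l 944)) (T.a (T.l 952) (T.l 952)))) (T.a (T.c (T.l 952) (T.l 952)) (T.c (T.l 952) (T.l 952)))) (T.a (T.a (T.c (T.l 944) (T.l 944)) (T.c (T.a (T.l 944) (T.l 944)) (T.a (T.l 952) (T.l 952)))) (T.a (T.c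 (T.l 952) (T.l 952)) (T.c (T.l 952) (T.l 952))))))) (T.b (T.a (T.b (T.a (T.a (T.c (T.l 952) (T.l 952)) (T.c (T.l 952) (T.l 952))) (T.a (T.c (T.l 952) (T.l 952)) (T.c (T.l 944) (T.l 944)))) (T.a (T.a (T.c (T.l 952) (T.l 952)) (T.c (T.l 952) (T.l 952))) (T.a (T.c (T.l 952) (T.l 952)) (T.c (T.l 944) (T.l 944))))) (T.a (T.a (T.c (T.l 944) (T.l 944)) (T.c (T.l 944) (T.l 944))) (T.c (T.a (T.l 944) (T.l 944)) (T.a (T.l 944) (T.l 944))))) (T.a (T.b (T.a (T.a (T.c (T.l 952) (T.l 952)) (T.c (T.l 952) (T.l 952))) (T.a (T.c (T.l 952) (T.l 952)) (T.c (T.l 944) (T.l 952)))) (T.a (T.a (T.c (T.l 952) (T.l 952)) (T.c (T.l 952) (T.l 952))) (T.a (T.c (T.l 952) (T.l 952)) (T.c (T.l 944) (T.l 952))))) (T.a (T.a (T.c (T.l 944) (T.l 944)) (T.c (T.l 944) (T.l 944))) (T.c (T.a (T.l 944) (T.l 944)) (T.a (T.l 944) (T.l 944))))))), by decide +kernel⟩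

def A102E_020_2_1842_1 :
    ∃ t, chk3 (onCell 0 22369621 0 1073741824 1033476505 6710887 (corW 3 c0B eng mog cA102E gB0q1 gB2q0 gB0q2 gB1q2 dB0q1 dB2q0 dB0q2 dB1q2 true true)) t 2 1842 1 = true :=
  ⟨(T.b (T.a (T.c (T.l 944) (T.a (T.l 816) (T.l 944))) (T.b (T.a (T.a (T.c (T.l 944) (T.l 944)) (T.c (T.a (T.c (T.l 944) (T.l 944)) (T.l 944)) (T.a (T.l 952) (T.l 952)))) (T.a (T.c (T.l 952) (T.l 952)) (T.c (T.l 952) (T.l 952)))) (T.a (T.a (T.c (T.l 944) (T.l 944)) (T.c (T.a (T.c (T.l 944) (T.l 944)) (T.l 944)) (T.a (T.c (T.l 944) (T.l 944)) (T.l 952)))) (T.a (T.c (T.l 952) (T.l 952)) (T.c (T.l 952) (T.l 952)))))) (T.a (T.c (T.a (T.l 816) (T.l 944)) (T.c (T.l 944) (T.l 944))) (T.b (T.a (T.b (T.a (T.c (T.l 944) (T.l 944)) (T.b (T.a (T.c (T.c (T.l 944) (T.l 944)) (T.c (T.l 944) (T.l 944))) (T.c (T.l 944) (T.l 952))) (T.a (T.c (T.c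 (T.l 944) (T.l 944)) (T.c (T.l 944) (T.l 944))) (T.c (T.l 944) (T.l 952))))) (T.a (T.c (T.l 944) (T.l 944)) (T.b (T.a (T.c (T.c (T.l 944) (T.l 944)) (T.c (T.l 944) (T.l 944))) (T.c (T.l 944) (T.l 952))) (T.a (T.c (T.c (T.l 944) (T.l 944)) (T.c (T.l 944) (T.l 952))) (T.c (T.l 944) (T.l 952)))))) (T.a (T.c (T.l 952) (T.l 952)) (T.c (T.l 952) (T.l 952)))) (T.a (T.b (T.a (T.c (T.l 944) (T.l 944)) (T.b (T.a (T.c (T.c (T.l 944) (T.l 944)) (T.c (T.l 944) (T.l 952))) (T.c (T.l 944) (T.l 952))) (T.a (T.c (T.c (T.l 944) (T.l 944)) (T.c (T.l 944) (T.l 952))) (T.c (T.l 944) (T.l 952))))) (T.a (T.c (T.l 944) (T.l 944)) (T.b (T.a (T.c (T.c (T.l 944) (T.l 944)) (T.c (T.l 944) (T.l 952))) (T.c (T.l 944) (T.l 952))) (T.a (T.c (T.c (T.l 944) (T.l 944)) (T.c (T.l 944) (T.l 952))) (T.c (T.l 944) (T.l 952)))))) (T.b (T.a (T.c (T.l 952) (T.l 952))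 (T.c (T.l 952) (T.l 952))) (T.a (T.c (T.l 952) (T.l 952)) (T.c (T.l 952) (T.l 952)))))))), by decide +kernel⟩

def A102E_020_3_1842_1 :
    ∃ t, chk3 (onCell 0 22369621 0 1073741824 1033476505 6710887 (corW 3 c0B eng mog cA102E gB0q1 gB2q0 gB0q2 gB1q2 dB0q1 dB2q0 dB0q2 dB1q2 true true)) t 3 1842 1 = true :=
  ⟨(T.b (T.a (T.b (T.a (T.a (T.c (T.l 952) (T.l 952)) (T.c (T.l 952) (T.l 952))) (T.a (T.c (T.l 952) (T.l 952)) (T.c (T.l 944) (T.l 952)))) (T.a (T.a (T.c (T.l 952) (T.l 952)) (T.c (T.l 952) (T.l 952))) (T.a (T.c (T.l 952) (T.l 952)) (T.c (T.l 944) (T.l 952))))) (T.b (T.a (T.a (T.c (T.l 944) (T.l 944)) (T.c (T.l 944) (T.l 944))) (T.c (T.a (T.l 944) (T.l 944)) (T.a (T.l 944) (T.l 944)))) (T.a (T.a (T.c (T.l 944) (T.l 944)) (T.c (T.l 944) (T.l 944))) (T.c (T.a (T.l 944) (T.l 944)) (T.a (T.l 944) (T.l 944)))))) (T.a (T.b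 (T.a (T.a (T.c (T.l 952) (T.l 952)) (T.c (T.l 952) (T.l 952))) (T.a (T.c (T.l 952) (T.l 952)) (T.c (T.l 944) (T.l 952)))) (T.a (T.b (T.a (T.c (T.l 952) (T.l 952)) (T.c (T.l 952) (T.l 952))) (T.a (T.c (T.l 952) (T.l 952)) (T.c (T.l 952) (T.l 952)))) (T.a (T.c (T.l 952) (T.l 952)) (T.c (T.l 952) (T.l 952))))) (T.b (T.a (T.a (T.c (T.l 944) (T.l 944)) (T.c (T.l 944) (T.l 944))) (T.c (T.a (T.l 944) (T.l 944)) (T.a (T.l 944) (T.l 944)))) (T.a (T.a (T.c (T.l 944) (T.l 944)) (T.c (T.l 944) (T.l 944))) (T.c (T.a (T.l 944) (T.l 944)) (T.a (T.l 944) (T.l 944))))))), by decide +kernel⟩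

def A102E_020_4_3686_1 :
    ∃ t, chk3 (onCell 0 22369621 0 1073741824 1033476505 6710887 (corW 3 c0B eng mog cA102E gB0q1 gB2q0 gB0q2 gB1q2 dB0q1 dB2q0 dB0q2 dB1q2 true true)) t 4 3686 1 = true :=
  ⟨(T.b (T.c (T.a (T.l 816) (T.l 944)) (T.c (T.l 944) (T.l 944))) (T.a (T.a (T.l 1) (T.c (T.l 816) (T.l 824))) (T.c (T.l 944) (T.l 952)))), by decide +kernel⟩

def A102E_020_5_3686_1 :
    ∃ t, chk3 (onCell 0 22369621 0 1073741824 1033476505 6710887 (corW 3 c0B eng mog cA102E gB0q1 gB2q0 gB0q2 gB1q2 dB0q1 dB2q0 dB0q2 dB1q2 true true)) t 5 3686 1 = true :=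
  ⟨(T.b (T.a (T.b (T.a (T.c (T.l 944) (T.l 944)) (T.b (T.a (T.c (T.c (T.l 944) (T.l 944)) (T.c (T.l 944) (T.l 952))) (T.c (T.l 952) (T.l 952))) (T.a (T.c (T.c (T.l 944) (T.l 944)) (T.c (T.l 944) (T.l 952))) (T.c (T.l 952) (T.l 952))))) (T.a (T.c (T.l 944) (T.l 944)) (T.b (T.a (T.c (T.c (T.l 944) (T.l 944)) (T.c (T.l 944) (T.l 952))) (T.c (T.l 952) (T.l 952))) (T.a (T.b (T.c (T.c (T.c (T.l 944) (T.l 944)) (T.l 944)) (T.c (T.l 944) (T.l 952))) (T.c (T.c (T.c (T.l 944) (T.l 944)) (T.l 944)) (T.c (T.l 944) (T.l 952)))) (T.c (T.l 952) (T.l 952)))))) (T.b (T.a (T.c (T.l 952) (T.l 952)) (T.c (T.l 952) (T.l 952))) (T.a (T.c (T.l 952) (T.c (T.l 952) (T.l 952))) (T.c (T.l 952) (T.l 952))))) (T.a (T.b (T.a (T.c (T.l 944) (T.l 952)) (T.b (T.a (T.b (T.c (T.c (T.c (T.l 944) (T.l 944)) (T.l 944)) (T.c (T.l 944) (T.l 952))) (T.c (T.c (T.c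 (T.l 944) (T.l 944)) (T.l 944)) (T.c (T.l 952) (T.l 952)))) (T.c (T.l 952) (T.l 952))) (T.a (T.b (T.c (T.c (T.c (T.l 944) (T.l 944)) (T.l 944)) (T.c (T.l 952) (T.l 952))) (T.c (T.a (T.c (T.l 944) (T.l 944)) (T.l 944)) (T.c (T.l 952) (T.l 952)))) (T.c (T.l 952) (T.l 952))))) (T.a (T.c (T.l 944) (T.l 952)) (T.b (T.a (T.b (T.c (T.a (T.c (T.l 944) (T.l 944)) (T.l 944)) (T.c (T.l 952) (T.l 952))) (T.c (T.a (T.c (T.l 944) (T.l 944)) (T.l 944)) (T.c (T.l 952) (T.l 952)))) (T.c (T.l 952) (T.l 952))) (T.a (T.l 1) (T.c (T.l 952) (T.l 952)))))) (T.b (T.a (T.c (T.l 952) (T.c (T.l 952) (T.l 952))) (T.c (T.l 952) (T.l 952))) (T.a (T.c (T.c (T.l 952) (T.l 952)) (T.c (T.l 952) (T.l 952))) (T.c (T.l 952) (T.l 952)))))), by decide +kernel⟩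

def A102E_020_2_3687_1 :
    ∃ t, chk3 (onCell 0 22369621 0 1073741824 1033476505 6710887 (corW 3 c0B eng mog cA102E gB0q1 gB2q0 gB0q2 gB1q2 dB0q1 dB2q0 dB0q2 dB1q2 true true)) t 2 3687 1 = true :=
  ⟨(T.a (T.l 1) (T.a (T.l 1) (T.b (T.b (T.b (T.a (T.a (T.l 1) (T.c (T.l 952) (T.l 952))) (T.c (T.l 952) (T.l 952))) (T.l 1)) (T.l 1)) (T.l 1)))), by decide +kernel⟩

def A102E_020_3_3686_1 :
    ∃ t, chk3 (onCell 0 22369621 0 1073741824 1033476505 6710887 (corW 3 c0B eng mog cA102E gB0q1 gB2q0 gB0q2 gB1q2 dB0q1 dB2q0 dB0q2 dB1q2 true true)) t 3 3686 1 = true :=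
  ⟨(T.a (T.b (T.a (T.b (T.a (T.c (T.l 952) (T.l 952)) (T.c (T.l 952) (T.l 952))) (T.a (T.c (T.l 952) (T.l 952)) (T.c (T.l 952) (T.l 952)))) (T.b (T.a (T.c (T.l 952) (T.l 952)) (T.c (T.l 952) (T.l 952))) (T.a (T.c (T.l 952) (T.l 952)) (T.c (T.l 952) (T.l 952))))) (T.a (T.b (T.a (T.c (T.l 952) (T.l 952)) (T.c (T.l 952) (T.l 952))) (T.a (T.c (T.l 952) (T.l 952)) (T.c (T.l 952) (T.l 952)))) (T.b (T.a (T.c (T.l 952) (T.l 952)) (T.c (T.l 952) (T.l 952))) (T.a (T.c (T.l 952) (T.l 952)) (T.c (T.l 952) (T.l 952)))))) (T.b (T.a (T.b (T.a (T.c (T.l 944) (T.l 944)) (T.c (T.l 944) (T.l 944))) (T.a (T.c (T.l 944) (T.l 944)) (T.c (T.l 944) (T.l 944)))) (T.a (T.c (T.l 944) (T.l 944)) (T.c (T.l 944) (T.l 944)))) (T.a (T.b (T.a (T.c (T.l 944) (T.l 944)) (T.c (T.l 944) (T.l 944))) (T.a (T.c (T.l 944) (T.l 944)) (T.c (T.l 944) (T.l 944)))) (T.b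 (T.a (T.c (T.l 944) (T.l 944)) (T.c (T.l 944) (T.l 944))) (T.a (T.c (T.l 944) (T.l 944)) (T.c (T.l 944) (T.l 944))))))), by decide +kernel⟩

def A102E_020_3_3687_1 :
    ∃ t, chk3 (onCell 0 22369621 0 1073741824 1033476505 6710887 (corW 3 c0B eng mog cA102E gB0q1 gB2q0 gB0q2 gB1q2 dB0q1 dB2q0 dB0q2 dB1q2 true true)) t 3 3687 1 = true :=
  ⟨(T.a (T.b (T.a (T.b (T.a (T.c (T.l 952) (T.l 952)) (T.c (T.l 952) (T.l 952))) (T.a (T.l 1) (T.c (T.l 952) (T.l 952)))) (T.b (T.a (T.c (T.l 952) (T.l 952)) (T.c (T.l 952) (T.l 952))) (T.a (T.c (T.l 952) (T.l 952)) (T.c (T.l 952) (T.l 952))))) (T.a (T.l 1) (T.a (T.l 1) (T.c (T.l 952) (T.l 952))))) (T.b (T.a (T.b (T.a (T.c (T.l 944) (T.l 944)) (T.c (T.l 944) (T.l 944))) (T.a (T.c (T.l 944) (T.l 944)) (T.c (T.l 944) (T.l 944)))) (T.b (T.a (T.c (T.l 944) (T.l 944)) (T.c (T.l 944) (T.l 944)))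 (T.a (T.c (T.l 944) (T.l 944)) (T.c (T.l 944) (T.l 944))))) (T.a (T.b (T.a (T.c (T.l 944) (T.l 944)) (T.c (T.l 944) (T.l 944))) (T.l 1)) (T.b (T.a (T.c (T.l 944) (T.l 944)) (T.c (T.l 944) (T.l 944))) (T.a (T.c (T.l 944) (T.l 944)) (T.c (T.l 944) (T.l 944))))))), by decide +kernel⟩

def A102E_020_1_461_1 :
    ∃ t, chk3 (onCell 0 22369621 0 1073741824 1033476505 6710887 (corW 3 c0B eng mog cA102E gB0q1 gB2q0 gB0q2 gB1q2 dB0q1 dB2q0 dB0q2 dB1q2 true true)) t 1 461 1 = true :=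
  ⟨(T.a (T.l 1) (T.a (T.l 1) (T.l 1))), by decide +kernel⟩

def A102E_020_1_231_1 :
    ∃ t, chk3 (onCell 0 22369621 0 1073741824 1033476505 6710887 (corW 3 c0B eng mog cA102E gB0q1 gB2q0 gB0q2 gB1q2 dB0q1 dB2q0 dB0q2 dB1q2 true true)) t 1 231 1 = true :=
  ⟨(T.l 1), by decide +kernel⟩

def A102E_020_1_29_1 :
    ∃ t, chk3 (onCell 0 22369621 0 1073741824 1033476505 6710887 (corW 3 c0B eng mog cA102E gB0q1 gB2q0 gB0q2 gB1q2 dB0q1 dB2q0 dB0q2 dB1q2 true true)) t 1 29 1 = true :=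
  ⟨(T.l 1), by decide +kernel⟩

def A102E_020_1_15_1 :
    ∃ t, chk3 (onCell 0 22369621 0 1073741824 1033476505 6710887 (corW 3 c0B eng mog cA102E gB0q1 gB2q0 gB0q2 gB1q2 dB0q1 dB2q0 dB0q2 dB1q2 true true)) t 1 15 1 = true :=
  ⟨(T.l 1), by decide +kernel⟩

theorem A102E_020_3_1843_1 :
    ∃ t, chk3 (onCell 0 22369621 0 1073741824 1033476505 6710887 (corW 3 c0B eng mog cA102E gB0q1 gB2q0 gB0q2 gB1q2 dB0q1 dB2q0 dB0q2 dB1q2 true true)) t 3 1843 1 = true :=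
  ex3_b A102E_020_3_3686_1 A102E_020_3_3687_1
theorem A102E_020_2_3686_1 :
    ∃ t, chk3 (onCell 0 22369621 0 1073741824 1033476505 6710887 (corW 3 c0B eng mog cA102E gB0q1 gB2q0 gB0q2 gB1q2 dB0q1 dB2q0 dB0q2 dB1q2 true true)) t 2 3686 1 = true :=
  ex3_a A102E_020_4_3686_1 A102E_020_5_3686_1
theorem A102E_020_2_1843_1 :
    ∃ t, chk3 (onCell 0 22369621 0 1073741824 1033476505 6710887 (corW 3 c0B eng mog cA102E gB0q1 gB2q0 gB0q2 gB1q2 dB0q1 dB2q0 dB0q2 dB1q2 true true)) t 2 1843 1 = true :=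
  ex3_b A102E_020_2_3686_1 A102E_020_2_3687_1
theorem A102E_020_1_1843_1 :
    ∃ t, chk3 (onCell 0 22369621 0 1073741824 1033476505 6710887 (corW 3 c0B eng mog cA102E gB0q1 gB2q0 gB0q2 gB1q2 dB0q1 dB2q0 dB0q2 dB1q2 true true)) t 1 1843 1 = true :=
  ex3_a A102E_020_2_1843_1 A102E_020_3_1843_1
theorem A102E_020_1_1842_1 :
    ∃ t, chk3 (onCell 0 22369621 0 1073741824 1033476505 6710887 (corW 3 c0B eng mog cA102E gB0q1 gB2q0 gB0q2 gB1q2 dB0q1 dB2q0 dB0q2 dB1q2 true true)) t 1 1842 1 = true :=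
  ex3_a A102E_020_2_1842_1 A102E_020_3_1842_1
theorem A102E_020_1_921_1 :
    ∃ t, chk3 (onCell 0 22369621 0 1073741824 1033476505 6710887 (corW 3 c0B eng mog cA102E gB0q1 gB2q0 gB0q2 gB1q2 dB0q1 dB2q0 dB0q2 dB1q2 true true)) t 1 921 1 = true :=
  ex3_b A102E_020_1_1842_1 A102E_020_1_1843_1
theorem A102E_020_1_920_1 :
    ∃ t, chk3 (onCell 0 22369621 0 1073741824 1033476505 6710887 (corW 3 c0B eng mog cA102E gB0q1 gB2q0 gB0q2 gB1q2 dB0q1 dB2q0 dB0q2 dB1q2 true true)) t 1 920 1 = true :=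
  ex3_b A102E_020_1_1840_1 A102E_020_1_1841_1
theorem A102E_020_1_460_1 :
    ∃ t, chk3 (onCell 0 22369621 0 1073741824 1033476505 6710887 (corW 3 c0B eng mog cA102E gB0q1 gB2q0 gB0q2 gB1q2 dB0q1 dB2q0 dB0q2 dB1q2 true true)) t 1 460 1 = true :=
  ex3_b A102E_020_1_920_1 A102E_020_1_921_1
theorem A102E_020_1_230_1 :
    ∃ t, chk3 (onCell 0 22369621 0 1073741824 1033476505 6710887 (corW 3 c0B eng mog cA102E gB0q1 gB2q0 gB0q2 gB1q2 dB0q1 dB2q0 dB0q2 dB1q2 true true)) t 1 230 1 = true :=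
  ex3_b A102E_020_1_460_1 A102E_020_1_461_1
theorem A102E_020_1_115_1 :
    ∃ t, chk3 (onCell 0 22369621 0 1073741824 1033476505 6710887 (corW 3 c0B eng mog cA102E gB0q1 gB2q0 gB0q2 gB1q2 dB0q1 dB2q0 dB0q2 dB1q2 true true)) t 1 115 1 = true :=
  ex3_b A102E_020_1_230_1 A102E_020_1_231_1
theorem A102E_020_1_459_1 :
    ∃ t, chk3 (onCell 0 22369621 0 1073741824 1033476505 6710887 (corW 3 c0B eng mog cA102E gB0q1 gB2q0 gB0q2 gB1q2 dB0q1 dB2q0 dB0q2 dB1q2 true true)) t 1 459 1 = true :=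
  ex3_b A102E_020_1_918_1 A102E_020_1_919_1
theorem A102E_020_1_229_1 :
    ∃ t, chk3 (onCell 0 22369621 0 1073741824 1033476505 6710887 (corW 3 c0B eng mog cA102E gB0q1 gB2q0 gB0q2 gB1q2 dB0q1 dB2q0 dB0q2 dB1q2 true true)) t 1 229 1 = true :=
  ex3_b A102E_020_1_458_1 A102E_020_1_459_1
theorem A102E_020_1_114_1 :
    ∃ t, chk3 (onCell 0 22369621 0 1073741824 1033476505 6710887 (corW 3 c0B eng mog cA102E gB0q1 gB2q0 gB0q2 gB1q2 dB0q1 dB2q0 dB0q2 dB1q2 true true)) t 1 114 1 = true :=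
  ex3_b A102E_020_1_228_1 A102E_020_1_229_1
theorem A102E_020_1_57_1 :
    ∃ t, chk3 (onCell 0 22369621 0 1073741824 1033476505 6710887 (corW 3 c0B eng mog cA102E gB0q1 gB2q0 gB0q2 gB1q2 dB0q1 dB2q0 dB0q2 dB1q2 true true)) t 1 57 1 = true :=
  ex3_b A102E_020_1_114_1 A102E_020_1_115_1
theorem A102E_020_1_28_1 :
    ∃ t, chk3 (onCell 0 22369621 0 1073741824 1033476505 6710887 (corW 3 c0B eng mog cA102E gB0q1 gB2q0 gB0q2 gB1q2 dB0q1 dB2q0 dB0q2 dB1q2 true true)) t 1 28 1 = true :=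
  ex3_b A102E_020_1_56_1 A102E_020_1_57_1
theorem A102E_020_1_14_1 :
    ∃ t, chk3 (onCell 0 22369621 0 1073741824 1033476505 6710887 (corW 3 c0B eng mog cA102E gB0q1 gB2q0 gB0q2 gB1q2 dB0q1 dB2q0 dB0q2 dB1q2 true true)) t 1 14 1 = true :=
  ex3_b A102E_020_1_28_1 A102E_020_1_29_1
theorem A102E_020_1_7_1 :
    ∃ t, chk3 (onCell 0 22369621 0 1073741824 1033476505 6710887 (corW 3 c0B eng mog cA102E gB0q1 gB2q0 gB0q2 gB1q2 dB0q1 dB2q0 dB0q2 dB1q2 true true)) t 1 7 1 = true :=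
  ex3_b A102E_020_1_14_1 A102E_020_1_15_1
theorem A102E_020_1_3_1 :
    ∃ t, chk3 (onCell 0 22369621 0 1073741824 1033476505 6710887 (corW 3 c0B eng mog cA102E gB0q1 gB2q0 gB0q2 gB1q2 dB0q1 dB2q0 dB0q2 dB1q2 true true)) t 1 3 1 = true :=
  ex3_b A102E_020_1_6_1 A102E_020_1_7_1
theorem A102E_020 :
    ∃ t, chk3 (onCell 0 22369621 0 1073741824 1033476505 6710887 (corW 3 c0B eng mog cA102E gB0q1 gB2q0 gB0q2 gB1q2 dB0q1 dB2q0 dB0q2 dB1q2 true true)) t 1 1 1 = true :=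
  ex3_b A102E_020_1_2_1 A102E_020_1_3_1

def A102E_021_1_2_1 :
    ∃ t, chk3 (onCell 0 22369621 0 1073741824 1033476505 6710887 (corW 3 c0B eng mog cA102E gB0q1 gB2q0 gB1q2 gB2q2 dB0q1 dB2q0 dB1q2 dB2q2 true true)) t 1 2 1 = true :=
  ⟨(T.l 2), by decide +kernel⟩

def A102E_021_1_12_1 :
    ∃ t, chk3 (onCell 0 22369621 0 1073741824 1033476505 6710887 (corW 3 c0B eng mog cA102E gB0q1 gB2q0 gB1q2 gB2q2 dB0q1 dB2q0 dB1q2 dB2q2 true true)) t 1 12 1 = true :=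
  ⟨(T.l 2), by decide +kernel⟩

def A102E_021_1_26_1 :
    ∃ t, chk3 (onCell 0 22369621 0 1073741824 1033476505 6710887 (corW 3 c0B eng mog cA102E gB0q1 gB2q0 gB1q2 gB2q2 dB0q1 dB2q0 dB1q2 dB2q2 true true)) t 1 26 1 = true :=
  ⟨(T.l 2), by decide +kernel⟩

def A102E_021_1_54_1 :
    ∃ t, chk3 (onCell 0 22369621 0 1073741824 1033476505 6710887 (corW 3 c0B eng mog cA102E gB0q1 gB2q0 gB1q2 gB2q2 dB0q1 dB2q0 dB1q2 dB2q2 true true)) t 1 54 1 = true :=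
  ⟨(T.b (T.l 2) (T.b (T.l 2) (T.b (T.b (T.a (T.a (T.l 2) (T.a (T.l 2) (T.l 816))) (T.a (T.l 816) (T.l 816))) (T.a (T.a (T.l 816) (T.a (T.l 816) (T.l 816))) (T.a (T.l 816) (T.l 816)))) (T.b (T.a (T.a (T.l 816) (T.a (T.l 816) (T.l 816))) (T.a (T.l 816) (T.l 816))) (T.a (T.a (T.l 816) (T.a (T.l 816) (T.l 816))) (T.a (T.l 816) (T.l 816))))))), by decide +kernel⟩

def A102E_021_1_55_1 :
    ∃ t, chk3 (onCell 0 22369621 0 1073741824 1033476505 6710887 (corW 3 c0B eng mog cA102E gB0q1 gB2q0 gB1q2 gB2q2 dB0q1 dB2q0 dB1q2 dB2q2 true true)) t 1 55 1 = true :=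
  ⟨(T.b (T.b (T.b (T.b (T.a (T.a (T.l 816) (T.a (T.l 816) (T.l 816))) (T.a (T.l 816) (T.l 816))) (T.a (T.a (T.l 816) (T.a (T.l 816) (T.l 816))) (T.a (T.l 816) (T.l 816)))) (T.b (T.a (T.a (T.l 816) (T.a (T.l 816) (T.l 816))) (T.a (T.l 816) (T.l 816))) (T.a (T.a (T.l 816) (T.a (T.l 816) (T.l 816))) (T.a (T.l 816) (T.l 816))))) (T.b (T.b (T.a (T.a (T.l 816) (T.a (T.l 816) (T.l 816))) (T.a (T.l 816) (T.l 816))) (T.a (T.a (T.l 816) (T.a (T.l 816) (T.l 816))) (T.a (T.l 816) (T.l 816)))) (T.b (T.a (T.a (T.l 816) (T.a (T.l 816) (T.l 816))) (T.a (T.l 816) (T.l 816))) (T.a (T.a (T.l 816) (T.a (T.l 816) (T.l 816))) (T.a (T.l 816) (T.l 816)))))) (T.b (T.b (T.b (T.a (T.a (T.l 816) (T.a (T.l 816) (T.l 816))) (T.a (T.l 816) (T.l 816))) (T.a (T.a (T.l 816) (T.a (T.l 816) (T.l 816))) (T.a (T.l 824) (T.l 816)))) (T.b (T.a (T.a (T.l 816) (T.a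 (T.l 816) (T.l 816))) (T.a (T.l 824) (T.l 816))) (T.a (T.a (T.l 816) (T.a (T.l 816) (T.l 816))) (T.a (T.l 824) (T.l 816))))) (T.b (T.b (T.a (T.a (T.l 816) (T.a (T.l 816) (T.l 816))) (T.a (T.a (T.l 816) (T.l 816)) (T.l 816))) (T.a (T.a (T.l 816) (T.a (T.l 816) (T.l 816))) (T.a (T.a (T.l 816) (T.l 816)) (T.l 816)))) (T.b (T.a (T.a (T.l 816) (T.a (T.l 816) (T.l 816))) (T.a (T.a (T.l 816) (T.l 816)) (T.l 816))) (T.a (T.a (T.l 816) (T.a (T.l 816) (T.l 816))) (T.a (T.a (T.l 816) (T.l 816)) (T.l 816))))))), by decide +kernel⟩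

def A102E_021_1_112_1 :
    ∃ t, chk3 (onCell 0 22369621 0 1073741824 1033476505 6710887 (corW 3 c0B eng mog cA102E gB0q1 gB2q0 gB1q2 gB2q2 dB0q1 dB2q0 dB1q2 dB2q2 true true)) t 1 112 1 = true :=
  ⟨(T.b (T.b (T.b (T.b (T.a (T.a (T.l 816) (T.a (T.l 816) (T.l 816))) (T.a (T.a (T.l 816) (T.l 816)) (T.l 816))) (T.a (T.a (T.l 816) (T.a (T.l 816) (T.l 816))) (T.a (T.a (T.l 816) (T.l 816)) (T.l 816)))) (T.b (T.a (T.a (T.l 816) (T.a (T.l 816) (T.l 816))) (T.a (T.a (T.l 816) (T.l 816)) (T.l 816))) (T.a (T.a (T.l 816) (T.a (T.l 816) (T.l 816))) (T.a (T.a (T.l 816) (T.l 816)) (T.l 816))))) (T.b (T.b (T.a (T.a (T.l 816) (T.a (T.l 816) (T.l 816))) (T.a (T.a (T.l 816) (T.l 816)) (T.l 816))) (T.a (T.a (T.l 816) (T.a (T.l 816) (T.l 816))) (T.a (T.a (T.l 816) (T.l 816)) (T.l 816)))) (T.b (T.a (T.a (T.l 816) (T.a (T.l 816) (T.l 816))) (T.a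 (T.a (T.l 816) (T.l 816)) (T.l 816))) (T.a (T.a (T.l 816) (T.a (T.l 816) (T.l 816))) (T.a (T.a (T.l 816) (T.l 816)) (T.l 816)))))) (T.b (T.b (T.b (T.a (T.a (T.l 816) (T.a (T.l 816) (T.l 816))) (T.a (T.a (T.l 816) (T.l 816)) (T.l 816))) (T.a (T.a (T.l 816) (T.a (T.l 816) (T.l 816))) (T.a (T.a (T.l 816) (T.l 816)) (T.l 816)))) (T.b (T.a (T.a (T.l 816) (T.a (T.l 816) (T.l 816))) (T.a (T.a (T.l 816) (T.l 816)) (T.l 816))) (T.a (T.a (T.l 816) (T.a (T.l 816) (T.l 816))) (T.a (T.a (T.l 816) (T.l 816)) (T.l 816))))) (T.b (T.b (T.a (T.a (T.l 816) (T.a (T.l 816) (T.l 816))) (T.a (T.a (T.l 816) (T.l 816)) (T.l 816))) (T.a (T.a (T.l 816) (T.a (T.l 816) (T.l 816))) (T.a (T.a (T.l 816) (T.l 816)) (T.l 816)))) (T.b (T.a (T.a (T.l 816) (T.a (T.l 824) (T.l 816))) (T.a (T.a (T.l 816) (T.l 816)) (T.l 816))) (T.a (T.a (T.l 816) (T.a (T.l 824)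 (T.l 816))) (T.a (T.a (T.l 816) (T.l 816)) (T.l 816))))))), by decide +kernel⟩

def A102E_021_1_226_1 :
    ∃ t, chk3 (onCell 0 22369621 0 1073741824 1033476505 6710887 (corW 3 c0B eng mog cA102E gB0q1 gB2q0 gB1q2 gB2q2 dB0q1 dB2q0 dB1q2 dB2q2 true true)) t 1 226 1 = true :=
  ⟨(T.b (T.b (T.b (T.a (T.a (T.l 816) (T.a (T.l 824) (T.l 816))) (T.a (T.a (T.l 816) (T.l 816)) (T.l 816))) (T.a (T.a (T.l 816) (T.a (T.l 824) (T.l 816))) (T.a (T.a (T.l 816) (T.l 816)) (T.l 816)))) (T.b (T.a (T.a (T.l 816) (T.a (T.c (T.l 816) (T.l 816)) (T.l 816))) (T.a (T.a (T.l 816) (T.l 816)) (T.l 816))) (T.a (T.a (T.l 816) (T.a (T.c (T.l 816) (T.l 824)) (T.l 816))) (T.a (T.a (T.l 816) (T.l 816)) (T.l 816))))) (T.b (T.b (T.a (T.a (T.l 816) (T.a (T.c (T.l 824) (T.l 824)) (T.l 816))) (T.a (T.a (T.l 816) (T.l 816)) (T.l 816))) (T.a (T.a (T.l 816) (T.a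 (T.c (T.l 824) (T.l 824)) (T.l 816))) (T.a (T.a (T.l 816) (T.l 816)) (T.l 816)))) (T.b (T.a (T.a (T.l 816) (T.a (T.c (T.l 824) (T.l 824)) (T.l 816))) (T.a (T.a (T.l 816) (T.l 816)) (T.l 944))) (T.b (T.a (T.a (T.l 816) (T.a (T.a (T.l 816) (T.l 816)) (T.l 816))) (T.a (T.a (T.l 816) (T.l 816)) (T.l 944))) (T.a (T.a (T.l 816) (T.a (T.a (T.l 816) (T.l 816)) (T.l 816))) (T.a (T.a (T.l 816) (T.l 816)) (T.l 944))))))), by decide +kernel⟩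

def A102E_021_1_227_1 :
    ∃ t, chk3 (onCell 0 22369621 0 1073741824 1033476505 6710887 (corW 3 c0B eng mog cA102E gB0q1 gB2q0 gB1q2 gB2q2 dB0q1 dB2q0 dB1q2 dB2q2 true true)) t 1 227 1 = true :=
  ⟨(T.b (T.b (T.b (T.b (T.a (T.a (T.l 816) (T.a (T.a (T.l 816) (T.l 816)) (T.l 816))) (T.a (T.a (T.l 816) (T.l 816)) (T.l 944))) (T.a (T.a (T.l 816) (T.a (T.a (T.l 816) (T.l 816)) (T.l 816))) (T.a (T.a (T.l 816) (T.l 816)) (T.l 944)))) (T.b (T.a (T.a (T.l 816) (T.a (T.a (T.l 816) (T.l 816)) (T.l 816))) (T.a (T.a (T.l 816) (T.l 816)) (T.l 944))) (T.a (T.a (T.l 816) (T.a (T.a (T.l 816) (T.l 816)) (T.l 816))) (T.a (T.a (T.l 816) (T.l 816)) (T.l 952))))) (T.b (T.b (T.a (T.a (T.l 816) (T.a (T.a (T.l 816) (T.l 816)) (T.l 816))) (T.a (T.a (T.l 816) (T.l 816)) (T.l 952))) (T.a (T.a (T.l 816) (T.a (T.a (T.l 816) (T.l 816)) (T.l 816))) (T.a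 (T.a (T.l 816) (T.l 816)) (T.l 952)))) (T.a (T.a (T.l 816) (T.a (T.a (T.l 816) (T.l 816)) (T.l 816))) (T.a (T.a (T.l 816) (T.l 816)) (T.l 952))))) (T.b (T.b (T.a (T.a (T.l 816) (T.a (T.a (T.l 816) (T.l 816)) (T.l 816))) (T.b (T.a (T.a (T.l 816) (T.l 816)) (T.l 952)) (T.a (T.l 1) (T.a (T.l 1) (T.l 816))))) (T.l 1)) (T.l 1))), by decide +kernel⟩

def A102E_021_1_57_1 :
    ∃ t, chk3 (onCell 0 22369621 0 1073741824 1033476505 6710887 (corW 3 c0B eng mog cA102E gB0q1 gB2q0 gB1q2 gB2q2 dB0q1 dB2q0 dB1q2 dB2q2 true true)) t 1 57 1 = true :=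
  ⟨(T.l 1), by decide +kernel⟩

def A102E_021_1_29_1 :
    ∃ t, chk3 (onCell 0 22369621 0 1073741824 1033476505 6710887 (corW 3 c0B eng mog cA102E gB0q1 gB2q0 gB1q2 gB2q2 dB0q1 dB2q0 dB1q2 dB2q2 true true)) t 1 29 1 = true :=
  ⟨(T.l 1), by decide +kernel⟩

def A102E_021_1_15_1 :
    ∃ t, chk3 (onCell 0 22369621 0 1073741824 1033476505 6710887 (corW 3 c0B eng mog cA102E gB0q1 gB2q0 gB1q2 gB2q2 dB0q1 dB2q0 dB1q2 dB2q2 true true)) t 1 15 1 = true :=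
  ⟨(T.l 1), by decide +kernel⟩

theorem A102E_021_1_113_1 :
    ∃ t, chk3 (onCell 0 22369621 0 1073741824 1033476505 6710887 (corW 3 c0B eng mog cA102E gB0q1 gB2q0 gB1q2 gB2q2 dB0q1 dB2q0 dB1q2 dB2q2 true true)) t 1 113 1 = true :=
  ex3_b A102E_021_1_226_1 A102E_021_1_227_1
theorem A102E_021_1_56_1 :
    ∃ t, chk3 (onCell 0 22369621 0 1073741824 1033476505 6710887 (corW 3 c0B eng mog cA102E gB0q1 gB2q0 gB1q2 gB2q2 dB0q1 dB2q0 dB1q2 dB2q2 true true)) t 1 56 1 = true :=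
  ex3_b A102E_021_1_112_1 A102E_021_1_113_1
theorem A102E_021_1_28_1 :
    ∃ t, chk3 (onCell 0 22369621 0 1073741824 1033476505 6710887 (corW 3 c0B eng mog cA102E gB0q1 gB2q0 gB1q2 gB2q2 dB0q1 dB2q0 dB1q2 dB2q2 true true)) t 1 28 1 = true :=
  ex3_b A102E_021_1_56_1 A102E_021_1_57_1
theorem A102E_021_1_14_1 :
    ∃ t, chk3 (onCell 0 22369621 0 1073741824 1033476505 6710887 (corW 3 c0B eng mog cA102E gB0q1 gB2q0 gB1q2 gB2q2 dB0q1 dB2q0 dB1q2 dB2q2 true true)) t 1 14 1 = true :=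
  ex3_b A102E_021_1_28_1 A102E_021_1_29_1
theorem A102E_021_1_7_1 :
    ∃ t, chk3 (onCell 0 22369621 0 1073741824 1033476505 6710887 (corW 3 c0B eng mog cA102E gB0q1 gB2q0 gB1q2 gB2q2 dB0q1 dB2q0 dB1q2 dB2q2 true true)) t 1 7 1 = true :=
  ex3_b A102E_021_1_14_1 A102E_021_1_15_1
theorem A102E_021_1_27_1 :
    ∃ t, chk3 (onCell 0 22369621 0 1073741824 1033476505 6710887 (corW 3 c0B eng mog cA102E gB0q1 gB2q0 gB1q2 gB2q2 dB0q1 dB2q0 dB1q2 dB2q2 true true)) t 1 27 1 = true :=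
  ex3_b A102E_021_1_54_1 A102E_021_1_55_1
theorem A102E_021_1_13_1 :
    ∃ t, chk3 (onCell 0 22369621 0 1073741824 1033476505 6710887 (corW 3 c0B eng mog cA102E gB0q1 gB2q0 gB1q2 gB2q2 dB0q1 dB2q0 dB1q2 dB2q2 true true)) t 1 13 1 = true :=
  ex3_b A102E_021_1_26_1 A102E_021_1_27_1
theorem A102E_021_1_6_1 :
    ∃ t, chk3 (onCell 0 22369621 0 1073741824 1033476505 6710887 (corW 3 c0B eng mog cA102E gB0q1 gB2q0 gB1q2 gB2q2 dB0q1 dB2q0 dB1q2 dB2q2 true true)) t 1 6 1 = true :=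
  ex3_b A102E_021_1_12_1 A102E_021_1_13_1
theorem A102E_021_1_3_1 :
    ∃ t, chk3 (onCell 0 22369621 0 1073741824 1033476505 6710887 (corW 3 c0B eng mog cA102E gB0q1 gB2q0 gB1q2 gB2q2 dB0q1 dB2q0 dB1q2 dB2q2 true true)) t 1 3 1 = true :=
  ex3_b A102E_021_1_6_1 A102E_021_1_7_1
theorem A102E_021 :
    ∃ t, chk3 (onCell 0 22369621 0 1073741824 1033476505 6710887 (corW 3 c0B eng mog cA102E gB0q1 gB2q0 gB1q2 gB2q2 dB0q1 dB2q0 dB1q2 dB2q2 true true)) t 1 1 1 = true :=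
  ex3_b A102E_021_1_2_1 A102E_021_1_3_1

def A102E_022 :
    ∃ t, chk3 (onCell 0 22369621 0 1073741824 1033476505 6710887 (corW 3 c0B eng mog cA102E gB0q1 gB2q0 gB2q2 gB3q2 dB0q1 dB2q0 dB2q2 dB3q2 true false)) t 1 1 1 = true :=
  ⟨(T.b (T.b (T.a (T.a (T.l 0) (T.l 0)) (T.l 0)) (T.b (T.a (T.a (T.l 0) (T.l 0)) (T.l 0)) (T.a (T.a (T.l 816) (T.l 0)) (T.b (T.l 0) (T.l 0))))) (T.b (T.b (T.a (T.a (T.l 816) (T.l 816)) (T.a (T.l 0) (T.l 0))) (T.b (T.b (T.a (T.a (T.l 816) (T.l 816)) (T.a (T.l 816) (T.l 816))) (T.b (T.a (T.a (T.l 816) (T.l 816)) (T.a (T.l 816) (T.l 816))) (T.b (T.b (T.a (T.a (T.l 816) (T.l 816)) (T.a (T.l 816) (T.l 816))) (T.a (T.a (T.l 816) (T.l 816)) (T.a (T.l 816) (T.l 816)))) (T.b (T.a (T.a (T.l 816) (T.l 816)) (T.a (T.l 816) (T.l 816))) (T.a (T.a (T.l 816) (T.l 816)) (T.a (T.l 816) (T.l 816))))))) (T.b (T.b (T.b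 (T.b (T.a (T.a (T.l 816) (T.l 816)) (T.a (T.l 816) (T.l 816))) (T.a (T.a (T.l 816) (T.l 824)) (T.a (T.l 816) (T.l 816)))) (T.b (T.a (T.a (T.l 816) (T.a (T.l 816) (T.l 816))) (T.a (T.l 816) (T.l 816))) (T.a (T.a (T.l 816) (T.a (T.l 816) (T.l 816))) (T.a (T.l 816) (T.l 816))))) (T.b (T.b (T.a (T.a (T.l 816) (T.a (T.l 816) (T.l 816))) (T.a (T.l 816) (T.l 816))) (T.a (T.a (T.l 816) (T.a (T.l 816) (T.l 816))) (T.a (T.l 816) (T.l 816)))) (T.b (T.b (T.a (T.a (T.l 816) (T.a (T.l 816) (T.l 816))) (T.a (T.l 816) (T.l 816))) (T.a (T.a (T.l 816) (T.a (T.l 816) (T.l 816))) (T.a (T.l 1) (T.l 1)))) (T.l 1)))) (T.l 1)))) (T.l 1))), by decide +kernel⟩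

def A102R_004 :
    ∃ t, chk3 (onCell 0 33554432 0 1073741824 1033476505 6710887 (corW 3 c0B eng mog cA102R gB0q1 gB0q0 gB4q2 gB5q2 dB0q1 dB0q0 dB4q2 dB5q2 false true)) t 1 1 1 = true :=
  ⟨(T.l 2), by decide +kernel⟩

def A102R_014 :
    ∃ t, chk3 (onCell 0 33554432 0 1073741824 1033476505 6710887 (corW 3 c0B eng mog cA102R gB0q1 gB1q0 gB4q2 gB5q2 dB0q1 dB1q0 dB4q2 dB5q2 false true)) t 1 1 1 = true :=
  ⟨(T.l 2), by decide +kernel⟩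

def A102R_024 :
    ∃ t, chk3 (onCell 0 33554432 0 1073741824 1033476505 6710887 (corW 3 c0B eng mog cA102R gB0q1 gB2q0 gB4q2 gB5q2 dB0q1 dB2q0 dB4q2 dB5q2 false true)) t 1 1 1 = true :=
  ⟨(T.l 2), by decide +kernel⟩

def A202E_000 :
    ∃ t, chk3 (onCell 0 26843545 0 1073741824 1033476505 6710887 (corW 3 c0B eng mog cA202E gB0q2 gB0q0 gB0q2 gB1q2 dB0q2 dB0q0 dB0q2 dB1q2 true true)) t 1 1 1 = true :=
  ⟨(T.l 2), by decide +kernel⟩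

def A202E_001 :
    ∃ t, chk3 (onCell 0 26843545 0 1073741824 1033476505 6710887 (corW 3 c0B eng mog cA202E gB0q2 gB0q0 gB1q2 gB2q2 dB0q2 dB0q0 dB1q2 dB2q2 true true)) t 1 1 1 = true :=
  ⟨(T.l 2), by decide +kernel⟩

def A202E_002 :
    ∃ t, chk3 (onCell 0 26843545 0 1073741824 1033476505 6710887 (corW 3 c0B eng mog cA202E gB0q2 gB0q0 gB2q2 gB3q2 dB0q2 dB0q0 dB2q2 dB3q2 true false)) t 1 1 1 = true :=
  ⟨(T.b (T.a (T.l 0) (T.b (T.a (T.l 0) (T.l 0)) (T.b (T.a (T.l 0) (T.l 0)) (T.a (T.l 816) (T.l 0))))) (T.b (T.a (T.a (T.l 816) (T.a (T.l 816) (T.l 816))) (T.a (T.b (T.l 816) (T.l 816)) (T.b (T.l 0) (T.l 816)))) (T.a (T.a (T.l 816) (T.a (T.b (T.l 816) (T.l 816)) (T.l 816))) (T.a (T.b (T.l 816) (T.l 816)) (T.b (T.l 816) (T.l 0)))))), by decide +kernel⟩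

def A202E_010 :
    ∃ t, chk3 (onCell 0 26843545 0 1073741824 1033476505 6710887 (corW 3 c0B eng mog cA202E gB0q2 gB1q0 gB0q2 gB1q2 dB0q2 dB1q0 dB0q2 dB1q2 true true)) t 1 1 1 = true :=
  ⟨(T.l 2), by decide +kernel⟩

def A202E_011 :
    ∃ t, chk3 (onCell 0 26843545 0 1073741824 1033476505 6710887 (corW 3 c0B eng mog cA202E gB0q2 gB1q0 gB1q2 gB2q2 dB0q2 dB1q0 dB1q2 dB2q2 true true)) t 1 1 1 = true :=
  ⟨(T.l 2), by decide +kernel⟩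

def A202E_012 :
    ∃ t, chk3 (onCell 0 26843545 0 1073741824 1033476505 6710887 (corW 3 c0B eng mog cA202E gB0q2 gB1q0 gB2q2 gB3q2 dB0q2 dB1q0 dB2q2 dB3q2 true false)) t 1 1 1 = true :=
  ⟨(T.b (T.b (T.a (T.a (T.l 0) (T.b (T.l 0) (T.l 0))) (T.b (T.l 0) (T.l 0))) (T.b (T.a (T.a (T.l 816) (T.l 0)) (T.b (T.l 0) (T.l 0))) (T.a (T.a (T.l 816) (T.l 0)) (T.b (T.l 0) (T.l 0))))) (T.b (T.a (T.a (T.l 816) (T.b (T.l 816) (T.l 816))) (T.a (T.b (T.l 0) (T.l 0)) (T.b (T.l 0) (T.l 0)))) (T.a (T.a (T.l 816) (T.a (T.b (T.l 816) (T.l 816)) (T.l 816))) (T.a (T.b (T.l 816) (T.l 816)) (T.b (T.l 816) (T.l 0)))))), by decide +kernel⟩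

def A202E_020 :
    ∃ t, chk3 (onCell 0 26843545 0 1073741824 1033476505 6710887 (corW 3 c0B eng mog cA202E gB0q2 gB2q0 gB0q2 gB1q2 dB0q2 dB2q0 dB0q2 dB1q2 true true)) t 1 1 1 = true :=
  ⟨(T.l 2), by decide +kernel⟩

def A202E_021 :
    ∃ t, chk3 (onCell 0 26843545 0 1073741824 1033476505 6710887 (corW 3 c0B eng mog cA202E gB0q2 gB2q0 gB1q2 gB2q2 dB0q2 dB2q0 dB1q2 dB2q2 true true)) t 1 1 1 = true :=
  ⟨(T.l 2), by decide +kernel⟩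

def A202E_022 :
    ∃ t, chk3 (onCell 0 26843545 0 1073741824 1033476505 6710887 (corW 3 c0B eng mog cA202E gB0q2 gB2q0 gB2q2 gB3q2 dB0q2 dB2q0 dB2q2 dB3q2 true false)) t 1 1 1 = true :=
  ⟨(T.b (T.b (T.a (T.a (T.l 0) (T.b (T.l 0) (T.l 0))) (T.b (T.l 0) (T.l 0))) (T.b (T.a (T.a (T.l 0) (T.l 0)) (T.b (T.l 0) (T.l 0))) (T.a (T.a (T.l 816) (T.l 0)) (T.b (T.l 0) (T.l 0))))) (T.b (T.a (T.a (T.l 816) (T.b (T.l 816) (T.l 816))) (T.a (T.b (T.l 0) (T.l 0)) (T.b (T.l 0) (T.l 0)))) (T.a (T.a (T.l 816) (T.a (T.b (T.l 816) (T.l 816)) (T.l 816))) (T.a (T.b (T.l 816) (T.l 816)) (T.b (T.l 0) (T.l 0)))))), by decide +kernel⟩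

def A202E_110 :
    ∃ t, chk3 (onCell 0 33554432 0 1073741824 1033476505 6710887 (corW 3 c0B eng mog cA202E gB1q2 gB1q0 gB0q2 gB1q2 dB1q2 dB1q0 dB0q2 dB1q2 true true)) t 1 1 1 = true :=
  ⟨(T.l 2), by decide +kernel⟩

def A202E_111 :
    ∃ t, chk3 (onCell 0 33554432 0 1073741824 1033476505 6710887 (corW 3 c0B eng mog cA202E gB1q2 gB1q0 gB1q2 gB2q2 dB1q2 dB1q0 dB1q2 dB2q2 true true)) t 1 1 1 = true :=
  ⟨(T.l 2), by decide +kernel⟩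

def A202E_112 :
    ∃ t, chk3 (onCell 0 33554432 0 1073741824 1033476505 6710887 (corW 3 c0B eng mog cA202E gB1q2 gB1q0 gB2q2 gB3q2 dB1q2 dB1q0 dB2q2 dB3q2 true false)) t 1 1 1 = true :=
  ⟨(T.b (T.b (T.a (T.a (T.a (T.l 0) (T.b (T.l 0) (T.l 0))) (T.b (T.l 0) (T.l 0))) (T.b (T.l 0) (T.l 0))) (T.a (T.a (T.l 816) (T.b (T.l 0) (T.l 0))) (T.b (T.l 0) (T.l 0)))) (T.b (T.a (T.a (T.l 816) (T.b (T.l 0) (T.l 816))) (T.b (T.l 0) (T.b (T.l 0) (T.l 0)))) (T.a (T.l 816) (T.b (T.a (T.l 816) (T.l 0)) (T.a (T.l 816) (T.l 816)))))), by decide +kernel⟩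

def A202E_120 :
    ∃ t, chk3 (onCell 0 33554432 0 1073741824 1033476505 6710887 (corW 3 c0B eng mog cA202E gB1q2 gB2q0 gB0q2 gB1q2 dB1q2 dB2q0 dB0q2 dB1q2 true true)) t 1 1 1 = true :=
  ⟨(T.l 2), by decide +kernel⟩

def A202E_121 :
    ∃ t, chk3 (onCell 0 33554432 0 1073741824 1033476505 6710887 (corW 3 c0B eng mog cA202E gB1q2 gB2q0 gB1q2 gB2q2 dB1q2 dB2q0 dB1q2 dB2q2 true true)) t 1 1 1 = true :=
  ⟨(T.l 2), by decide +kernel⟩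

def A202E_122 :
    ∃ t, chk3 (onCell 0 33554432 0 1073741824 1033476505 6710887 (corW 3 c0B eng mog cA202E gB1q2 gB2q0 gB2q2 gB3q2 dB1q2 dB2q0 dB2q2 dB3q2 true false)) t 1 1 1 = true :=
  ⟨(T.b (T.b (T.a (T.a (T.a (T.l 0) (T.l 0)) (T.b (T.l 0) (T.l 0))) (T.b (T.l 0) (T.l 0))) (T.a (T.a (T.l 816) (T.b (T.l 0) (T.l 0))) (T.a (T.l 0) (T.l 0)))) (T.b (T.a (T.a (T.l 816) (T.b (T.l 0) (T.l 816))) (T.b (T.b (T.l 0) (T.l 0)) (T.b (T.l 0) (T.l 0)))) (T.a (T.l 816) (T.b (T.a (T.l 816) (T.l 0)) (T.a (T.l 816) (T.l 816)))))), by decide +kernel⟩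

def A202E_220 :
    ∃ t, chk3 (onCell 0 33554432 0 1073741824 1033476505 6710887 (corW 3 c0B eng mog cA202E gB2q2 gB2q0 gB0q2 gB1q2 dB2q2 dB2q0 dB0q2 dB1q2 true true)) t 1 1 1 = true :=
  ⟨(T.l 2), by decide +kernel⟩

def A202E_221 :
    ∃ t, chk3 (onCell 0 33554432 0 1073741824 1033476505 6710887 (corW 3 c0B eng mog cA202E gB2q2 gB2q0 gB1q2 gB2q2 dB2q2 dB2q0 dB1q2 dB2q2 true true)) t 1 1 1 = true :=
  ⟨(T.l 2), by decide +kernel⟩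

def A202E_222 :
    ∃ t, chk3 (onCell 0 33554432 0 1073741824 1033476505 6710887 (corW 3 c0B eng mog cA202E gB2q2 gB2q0 gB2q2 gB3q2 dB2q2 dB2q0 dB2q2 dB3q2 true false)) t 1 1 1 = true :=
  ⟨(T.b (T.b (T.a (T.a (T.a (T.l 0) (T.l 0)) (T.b (T.l 0) (T.l 0))) (T.b (T.l 0) (T.l 0))) (T.a (T.a (T.l 816) (T.b (T.l 0) (T.l 0))) (T.a (T.l 0) (T.l 0)))) (T.b (T.b (T.a (T.a (T.l 816) (T.l 816)) (T.b (T.l 0) (T.l 0))) (T.a (T.l 816) (T.b (T.l 816) (T.l 816)))) (T.a (T.l 816) (T.b (T.a (T.l 816) (T.l 816)) (T.b (T.l 816) (T.l 816)))))), by decide +kernel⟩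

def A202R_004 :
    ∃ t, chk3 (onCell 0 22369621 0 1073741824 1033476505 6710887 (corW 3 c0B eng mog cA202R gB0q2 gB0q0 gB4q2 gB5q2 dB0q2 dB0q0 dB4q2 dB5q2 false true)) t 1 1 1 = true :=
  ⟨(T.b (T.b (T.l 2) (T.b (T.b (T.l 2) (T.b (T.b (T.l 2) (T.b (T.b (T.a (T.l 2) (T.b (T.l 2) (T.b (T.a (T.l 2) (T.c (T.a (T.l 2) (T.l 0)) (T.l 0))) (T.a (T.c (T.l 0) (T.l 0)) (T.a (T.l 0) (T.l 0)))))) (T.b (T.a (T.c (T.a (T.c (T.l 0) (T.l 0)) (T.l 0)) (T.a (T.l 0) (T.l 0))) (T.a (T.a (T.l 0) (T.l 0)) (T.l 0))) (T.a (T.c (T.l 0) (T.l 0)) (T.a (T.l 816) (T.l 816))))) (T.a (T.c (T.l 816) (T.l 816)) (T.a (T.l 816) (T.a (T.l 816) (T.l 816)))))) (T.a (T.c (T.b (T.l 816) (T.l 816)) (T.l 816)) (T.a (T.b (T.l 816) (T.l 816)) (T.b (T.l 816) (T.l 816)))))) (T.a (T.b (T.b (T.a (T.l 816) (T.l 816)) (T.l 816)) (T.l 816)) (T.a (T.b (T.l 816) (T.l 816))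 (T.b (T.a (T.l 816) (T.b (T.b (T.l 816) (T.l 816)) (T.l 816))) (T.a (T.b (T.l 816) (T.l 816)) (T.b (T.l 816) (T.l 816)))))))) (T.b (T.b (T.a (T.b (T.l 816) (T.l 816)) (T.a (T.a (T.l 816) (T.b (T.b (T.l 816) (T.l 816)) (T.l 816))) (T.b (T.a (T.l 816) (T.l 816)) (T.b (T.l 816) (T.l 816))))) (T.a (T.b (T.l 816) (T.l 816)) (T.a (T.a (T.b (T.b (T.l 816) (T.l 816)) (T.l 816)) (T.b (T.l 816) (T.l 816))) (T.a (T.b (T.l 816) (T.l 816)) (T.b (T.l 816) (T.l 816)))))) (T.b (T.a (T.a (T.l 816) (T.a (T.l 816) (T.a (T.l 816) (T.l 816)))) (T.a (T.a (T.b (T.l 816) (T.l 816)) (T.b (T.l 816) (T.l 816))) (T.a (T.b (T.l 816) (T.l 816)) (T.l 816)))) (T.a (T.a (T.l 816) (T.a (T.l 816) (T.a (T.l 816) (T.l 816)))) (T.a (T.a (T.b (T.l 816) (T.l 816)) (T.l 816)) (T.a (T.l 816) (T.l 816))))))), by decide +kernel⟩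

def A202R_014 :
    ∃ t, chk3 (onCell 0 33554432 0 1073741824 1033476505 6710887 (corW 3 c0B eng mog cA202R gB0q2 gB1q0 gB4q2 gB5q2 dB0q2 dB1q0 dB4q2 dB5q2 false true)) t 1 1 1 = true :=
  ⟨(T.b (T.b (T.l 2) (T.b (T.l 2) (T.b (T.a (T.l 2) (T.a (T.b (T.l 2) (T.l 0)) (T.l 0))) (T.b (T.b (T.a (T.a (T.l 0) (T.l 0)) (T.a (T.l 0) (T.l 0))) (T.a (T.a (T.l 0) (T.l 0)) (T.a (T.l 0) (T.l 0)))) (T.a (T.a (T.l 816) (T.l 0)) (T.a (T.l 0) (T.l 816))))))) (T.b (T.b (T.b (T.a (T.a (T.l 816) (T.a (T.l 816) (T.l 816))) (T.a (T.l 0) (T.l 816))) (T.a (T.a (T.l 816) (T.a (T.l 816) (T.l 816))) (T.a (T.l 816) (T.l 816)))) (T.b (T.a (T.a (T.l 816) (T.a (T.l 816) (T.l 816))) (T.a (T.l 816) (T.l 816))) (T.a (T.a (T.l 816) (T.a (T.l 816) (T.l 816))) (T.a (T.b (T.l 816) (T.l 816)) (T.l 816))))) (T.b (T.b (T.a (T.a (T.l 816) (T.a (T.l 816) (T.l 816)))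 (T.a (T.l 816) (T.b (T.l 816) (T.l 816)))) (T.a (T.a (T.l 816) (T.a (T.l 816) (T.l 816))) (T.a (T.b (T.l 816) (T.l 816)) (T.b (T.l 816) (T.l 816))))) (T.a (T.a (T.l 816) (T.a (T.a (T.b (T.l 816) (T.l 816)) (T.l 816)) (T.b (T.l 816) (T.l 816)))) (T.a (T.a (T.b (T.l 816) (T.l 816)) (T.b (T.l 816) (T.l 816))) (T.a (T.b (T.l 816) (T.l 816)) (T.l 816))))))), by decide +kernel⟩

def A202R_024 :
    ∃ t, chk3 (onCell 0 33554432 0 1073741824 1033476505 6710887 (corW 3 c0B eng mog cA202R gB0q2 gB2q0 gB4q2 gB5q2 dB0q2 dB2q0 dB4q2 dB5q2 false true)) t 1 1 1 = true :=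
  ⟨(T.b (T.l 2) (T.b (T.b (T.b (T.l 2) (T.b (T.a (T.a (T.l 816) (T.l 0)) (T.l 0)) (T.a (T.a (T.l 816) (T.l 816)) (T.l 816)))) (T.b (T.a (T.a (T.l 816) (T.l 816)) (T.b (T.l 816) (T.l 816))) (T.a (T.a (T.l 816) (T.l 816)) (T.a (T.l 816) (T.l 816))))) (T.b (T.b (T.a (T.a (T.l 816) (T.b (T.l 816) (T.l 816))) (T.a (T.l 816) (T.l 816))) (T.a (T.a (T.l 816) (T.a (T.l 816) (T.l 816))) (T.a (T.l 816) (T.l 816)))) (T.a (T.a (T.l 816) (T.a (T.a (T.b (T.l 816) (T.l 816)) (T.l 816)) (T.b (T.l 816) (T.l 816)))) (T.a (T.a (T.b (T.l 816) (T.l 816)) (T.b (T.l 816) (T.l 816))) (T.a (T.b (T.l 816) (T.l 816)) (T.b (T.l 816) (T.l 816)))))))), by decide +kernel⟩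

def A202R_114 :
    ∃ t, chk3 (onCell 0 33554432 0 1073741824 1033476505 6710887 (corW 3 c0B eng mog cA202R gB1q2 gB1q0 gB4q2 gB5q2 dB1q2 dB1q0 dB4q2 dB5q2 false true)) t 1 1 1 = true :=
  ⟨(T.b (T.l 2) (T.b (T.b (T.b (T.a (T.a (T.l 204) (T.l 0)) (T.l 0)) (T.a (T.a (T.l 0) (T.l 0)) (T.l 0))) (T.a (T.l 0) (T.b (T.l 0) (T.l 0)))) (T.a (T.l 816) (T.b (T.a (T.l 816) (T.b (T.l 816) (T.l 816))) (T.a (T.l 816) (T.l 816)))))), by decide +kernel⟩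

def A202R_124 :
    ∃ t, chk3 (onCell 0 33554432 0 1073741824 1033476505 6710887 (corW 3 c0B eng mog cA202R gB1q2 gB2q0 gB4q2 gB5q2 dB1q2 dB2q0 dB4q2 dB5q2 false true)) t 1 1 1 = true :=
  ⟨(T.b (T.l 2) (T.b (T.b (T.l 2) (T.a (T.l 0) (T.b (T.l 0) (T.l 0)))) (T.a (T.l 816) (T.b (T.a (T.l 816) (T.l 0)) (T.a (T.l 816) (T.l 816)))))), by decide +kernel⟩

def A202R_224 :
    ∃ t, chk3 (onCell 0 33554432 0 1073741824 1033476505 6710887 (corW 3 c0B eng mog cA202R gB2q2 gB2q0 gB4q2 gB5q2 dB2q2 dB2q0 dB4q2 dB5q2 false true)) t 1 1 1 = true :=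
  ⟨(T.b (T.l 2) (T.b (T.l 2) (T.b (T.l 2) (T.a (T.l 204) (T.l 0))))), by decide +kernel⟩

def B011E_000 :
    ∃ t, chk3 (onCell 0 33554432 0 1073741824 1033476505 6710887 (corW 3 c0B eng mog cB011E gB0q0 gB0q1 gB0q1 gB1q1 dB0q0 dB0q1 dB0q1 dB1q1 true false)) t 1 1 1 = true :=
  ⟨(T.l 1), by decide +kernel⟩

def B011E_100 :
    ∃ t, chk3 (onCell 0 33554432 0 1073741824 1033476505 6710887 (corW 3 c0B eng mog cB011E gB1q0 gB0q1 gB0q1 gB1q1 dB1q0 dB0q1 dB0q1 dB1q1 true false)) t 1 1 1 = true :=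
  ⟨(T.l 1), by decide +kernel⟩

def B011E_200 :
    ∃ t, chk3 (onCell 0 33554432 0 1073741824 1033476505 6710887 (corW 3 c0B eng mog cB011E gB2q0 gB0q1 gB0q1 gB1q1 dB2q0 dB0q1 dB0q1 dB1q1 true false)) t 1 1 1 = true :=
  ⟨(T.l 1), by decide +kernel⟩

def B011L_030 :
    ∃ t, chk3 (onCell 0 33554432 0 1073741824 1033476505 6710887 (corW 3 c0B eng mog cB011L gB0q0 gB3q1 gB0q1 gB1q1 dB0q0 dB3q1 dB0q1 dB1q1 true false)) t 1 1 1 = true :=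
  ⟨(T.l 1), by decide +kernel⟩

def B011L_040 :
    ∃ t, chk3 (onCell 0 33554432 0 1073741824 1033476505 6710887 (corW 3 c0B eng mog cB011L gB0q0 gB4q1 gB0q1 gB1q1 dB0q0 dB4q1 dB0q1 dB1q1 true false)) t 1 1 1 = true :=
  ⟨(T.l 1), by decide +kernel⟩

def B011L_050 :
    ∃ t, chk3 (onCell 0 33554432 0 1073741824 1033476505 6710887 (corW 3 c0B eng mog cB011L gB0q0 gB5q1 gB0q1 gB1q1 dB0q0 dB5q1 dB0q1 dB1q1 true false)) t 1 1 1 = true :=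
  ⟨(T.l 1), by decide +kernel⟩

def B011L_130 :
    ∃ t, chk3 (onCell 0 33554432 0 1073741824 1033476505 6710887 (corW 3 c0B eng mog cB011L gB1q0 gB3q1 gB0q1 gB1q1 dB1q0 dB3q1 dB0q1 dB1q1 true false)) t 1 1 1 = true :=
  ⟨(T.l 1), by decide +kernel⟩

def B011L_140 :
    ∃ t, chk3 (onCell 0 33554432 0 1073741824 1033476505 6710887 (corW 3 c0B eng mog cB011L gB1q0 gB4q1 gB0q1 gB1q1 dB1q0 dB4q1 dB0q1 dB1q1 true false)) t 1 1 1 = true :=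
  ⟨(T.l 1), by decide +kernel⟩

def B011L_150 :
    ∃ t, chk3 (onCell 0 33554432 0 1073741824 1033476505 6710887 (corW 3 c0B eng mog cB011L gB1q0 gB5q1 gB0q1 gB1q1 dB1q0 dB5q1 dB0q1 dB1q1 true false)) t 1 1 1 = true :=
  ⟨(T.l 1), by decide +kernel⟩

def B011L_230 :
    ∃ t, chk3 (onCell 0 33554432 0 1073741824 1033476505 6710887 (corW 3 c0B eng mog cB011L gB2q0 gB3q1 gB0q1 gB1q1 dB2q0 dB3q1 dB0q1 dB1q1 true false)) t 1 1 1 = true :=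
  ⟨(T.l 1), by decide +kernel⟩

def B011L_240 :
    ∃ t, chk3 (onCell 0 33554432 0 1073741824 1033476505 6710887 (corW 3 c0B eng mog cB011L gB2q0 gB4q1 gB0q1 gB1q1 dB2q0 dB4q1 dB0q1 dB1q1 true false)) t 1 1 1 = true :=
  ⟨(T.l 1), by decide +kernel⟩

def B011L_250 :
    ∃ t, chk3 (onCell 0 33554432 0 1073741824 1033476505 6710887 (corW 3 c0B eng mog cB011L gB2q0 gB5q1 gB0q1 gB1q1 dB2q0 dB5q1 dB0q1 dB1q1 true false)) t 1 1 1 = true :=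
  ⟨(T.l 1), by decide +kernel⟩

def B011R_002 :
    ∃ t, chk3 (onCell 0 22369621 0 1073741824 1033476505 6710887 (corW 3 c0B eng mog cB011R gB0q0 gB0q1 gB2q1 gB3q1 dB0q0 dB0q1 dB2q1 dB3q1 false true)) t 1 1 1 = true :=
  ⟨(T.b (T.b (T.b (T.b (T.a (T.l 0) (T.l 0)) (T.l 2)) (T.l 2)) (T.l 2)) (T.l 2)), by decide +kernel⟩

def B011R_003 :
    ∃ t, chk3 (onCell 0 22369621 0 1073741824 1033476505 6710887 (corW 3 c0B eng mog cB011R gB0q0 gB0q1 gB3q1 gB4q1 dB0q0 dB0q1 dB3q1 dB4q1 true true)) t 1 1 1 = true :=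
  ⟨(T.b (T.b (T.a (T.b (T.l 0) (T.l 0)) (T.a (T.b (T.l 816) (T.l 816)) (T.b (T.l 816) (T.l 816)))) (T.l 2)) (T.l 2)), by decide +kernel⟩

def B011R_004 :
    ∃ t, chk3 (onCell 0 22369621 0 1073741824 1033476505 6710887 (corW 3 c0B eng mog cB011R gB0q0 gB0q1 gB4q1 gB5q1 dB0q0 dB0q1 dB4q1 dB5q1 true true)) t 1 1 1 = true :=
  ⟨(T.b (T.b (T.b (T.l 1) (T.b (T.l 1) (T.a (T.l 0) (T.b (T.l 1) (T.l 816))))) (T.b (T.b (T.a (T.b (T.l 0) (T.c (T.l 0) (T.b (T.l 0) (T.l 0)))) (T.b (T.l 0) (T.c (T.l 0) (T.b (T.l 816) (T.l 0))))) (T.b (T.b (T.a (T.c (T.l 0) (T.l 0)) (T.c (T.a (T.l 0) (T.l 0)) (T.a (T.l 0) (T.l 0)))) (T.b (T.b (T.a (T.c (T.l 0) (T.l 0)) (T.c (T.l 0) (T.l 0))) (T.b (T.a (T.c (T.l 0) (T.l 0)) (T.c (T.l 0) (T.l 0))) (T.a (T.a (T.l 2) (T.b (T.c (T.l 0) (T.l 0)) (T.l 2))) (T.b (T.c (T.a (T.l 0) (T.l 0)) (T.l 0)) (T.a (T.c (T.l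 0) (T.l 0)) (T.c (T.l 0) (T.l 0))))))) (T.l 2))) (T.l 2))) (T.l 2))) (T.l 2)), by decide +kernel⟩

def B011R_102 :
    ∃ t, chk3 (onCell 0 33554432 0 1073741824 1033476505 6710887 (corW 3 c0B eng mog cB011R gB1q0 gB0q1 gB2q1 gB3q1 dB1q0 dB0q1 dB2q1 dB3q1 false true)) t 1 1 1 = true :=
  ⟨(T.l 2), by decide +kernel⟩

def B011R_103 :
    ∃ t, chk3 (onCell 0 33554432 0 1073741824 1033476505 6710887 (corW 3 c0B eng mog cB011R gB1q0 gB0q1 gB3q1 gB4q1 dB1q0 dB0q1 dB3q1 dB4q1 true true)) t 1 1 1 = true :=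
  ⟨(T.b (T.b (T.b (T.a (T.a (T.a (T.l 816) (T.l 0)) (T.l 0)) (T.l 0)) (T.l 2)) (T.l 2)) (T.l 2)), by decide +kernel⟩

def B011R_104 :
    ∃ t, chk3 (onCell 0 33554432 0 1073741824 1033476505 6710887 (corW 3 c0B eng mog cB011R gB1q0 gB0q1 gB4q1 gB5q1 dB1q0 dB0q1 dB4q1 dB5q1 true true)) t 1 1 1 = true :=
  ⟨(T.b (T.b (T.b (T.a (T.a (T.a (T.l 816) (T.l 0)) (T.l 0)) (T.b (T.l 0) (T.l 0))) (T.b (T.a (T.a (T.a (T.l 816) (T.l 0)) (T.l 0)) (T.b (T.l 0) (T.l 0))) (T.l 2))) (T.l 2)) (T.l 2)), by decide +kernel⟩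

def B011R_202 :
    ∃ t, chk3 (onCell 0 33554432 0 1073741824 1033476505 6710887 (corW 3 c0B eng mog cB011R gB2q0 gB0q1 gB2q1 gB3q1 dB2q0 dB0q1 dB2q1 dB3q1 false true)) t 1 1 1 = true :=
  ⟨(T.l 2), by decide +kernel⟩

def B011R_203 :
    ∃ t, chk3 (onCell 0 33554432 0 1073741824 1033476505 6710887 (corW 3 c0B eng mog cB011R gB2q0 gB0q1 gB3q1 gB4q1 dB2q0 dB0q1 dB3q1 dB4q1 true true)) t 1 1 1 = true :=
  ⟨(T.l 2), by decide +kernel⟩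

def B011R_204 :
    ∃ t, chk3 (onCell 0 33554432 0 1073741824 1033476505 6710887 (corW 3 c0B eng mog cB011R gB2q0 gB0q1 gB4q1 gB5q1 dB2q0 dB0q1 dB4q1 dB5q1 true true)) t 1 1 1 = true :=
  ⟨(T.l 2), by decide +kernel⟩

def B012E_000 :
    ∃ t, chk3 (onCell 0 16777216 0 1073741824 1033476505 6710887 (corW 3 c0B eng mog cB012E gB0q0 gB0q2 gB0q1 gB1q1 dB0q0 dB0q2 dB0q1 dB1q1 true false)) t 1 1 1 = true :=
  ⟨(T.b (T.b (T.l 1) (T.b (T.l 1) (T.b (T.l 1) (T.b (T.l 1) (T.b (T.l 1) (T.b (T.l 1) (T.a (T.b (T.l 1) (T.a (T.l 0) (T.l 0))) (T.a (T.l 0) (T.l 0))))))))) (T.b (T.a (T.b (T.b (T.b (T.l 0) (T.l 0)) (T.l 0)) (T.l 0)) (T.b (T.a (T.l 0) (T.b (T.a (T.l 0) (T.b (T.l 0) (T.l 816))) (T.b (T.l 816) (T.l 816)))) (T.a (T.a (T.l 816) (T.b (T.l 816) (T.l 816))) (T.a (T.l 816) (T.l 816))))) (T.a (T.l 0) (T.a (T.b (T.a (T.l 816) (T.l 816))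 (T.b (T.l 816) (T.l 816))) (T.b (T.b (T.l 816) (T.l 816)) (T.l 816)))))), by decide +kernel⟩

def B012E_010 :
    ∃ t, chk3 (onCell 0 33554432 0 1073741824 1033476505 6710887 (corW 3 c0B eng mog cB012E gB0q0 gB1q2 gB0q1 gB1q1 dB0q0 dB1q2 dB0q1 dB1q1 true false)) t 1 1 1 = true :=
  ⟨(T.b (T.l 1) (T.b (T.b (T.b (T.b (T.l 1) (T.b (T.a (T.l 1) (T.a (T.l 1) (T.a (T.l 204) (T.l 204)))) (T.b (T.a (T.a (T.l 204) (T.l 204)) (T.a (T.a (T.l 204) (T.l 204)) (T.l 204))) (T.a (T.a (T.l 204) (T.l 204)) (T.a (T.a (T.l 204) (T.l 204)) (T.l 204)))))) (T.b (T.b (T.b (T.a (T.a (T.l 204) (T.l 204)) (T.a (T.a (T.l 204) (T.l 204)) (T.l 204))) (T.a (T.a (T.l 204) (T.l 204)) (T.a (T.a (T.l 204) (T.l 204)) (T.l 204)))) (T.a (T.a (T.l 204) (T.l 204)) (T.a (T.a (T.l 204) (T.l 204)) (T.l 204)))) (T.a (T.a (T.l 204) (T.l 204)) (T.a (T.a (T.l 204) (T.l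 204)) (T.b (T.l 204) (T.l 204)))))) (T.a (T.a (T.l 204) (T.l 204)) (T.a (T.a (T.l 204) (T.b (T.l 204) (T.l 204))) (T.b (T.b (T.l 204) (T.l 204)) (T.l 204))))) (T.a (T.a (T.l 204) (T.l 204)) (T.a (T.l 204) (T.b (T.b (T.l 0) (T.l 0)) (T.l 0)))))), by decide +kernel⟩

def B012E_020 :
    ∃ t, chk3 (onCell 0 33554432 0 1073741824 1033476505 6710887 (corW 3 c0B eng mog cB012E gB0q0 gB2q2 gB0q1 gB1q1 dB0q0 dB2q2 dB0q1 dB1q1 true false)) t 1 1 1 = true :=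
  ⟨(T.b (T.l 1) (T.b (T.b (T.l 1) (T.b (T.l 1) (T.b (T.b (T.l 1) (T.b (T.a (T.a (T.l 1) (T.l 204)) (T.a (T.l 204) (T.l 204))) (T.a (T.a (T.l 204) (T.l 204)) (T.a (T.l 204) (T.l 204))))) (T.a (T.a (T.l 204) (T.l 204)) (T.a (T.l 204) (T.l 204)))))) (T.b (T.a (T.a (T.l 204) (T.l 204)) (T.a (T.l 204) (T.l 204))) (T.a (T.a (T.l 204) (T.l 204)) (T.a (T.l 204) (T.l 204)))))), by decide +kernel⟩

end Pool.Agent.Strip051.G.I9625_9688.Tab.CW
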