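import Pool.Agent.Strip051.G.I9625_9688.DgP

/-! # The corner (1, 1, 2): certificates of the degenerate charts (generated) -/

set_option linter.all false

namespace Pool.Agent.Strip051.G.I9625_9688.Tab.DG

open Pool.Agent.Strip051.PB Pool.Agent.Strip051.PB.Dg Pool.Agent.StripNear Pool.Agent.Strip051.LC

theorem cFA4 : ∃ t, chk3 (onCell 0 71179700 0 1073741824 1033476505 6710887 (fdAx true pF (ndUR ndF4) (dgSC pF) (thUp (ndUR ndF4) (dgSC pF)))) t 1 1 1 = true :=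
  ⟨(T.b (T.l 2) (T.a (T.a (T.b (T.b (T.l 2) (T.b (T.l 2) (T.a (T.c (T.a (T.a (T.a (T.c (T.c (T.l 1088) (T.l 1088)) (T.b (T.c (T.l 1024) (T.l 1024)) (T.l 1088))) (T.l 1088)) (T.l 1088)) (T.l 1088)) (T.a (T.a (T.c (T.b (T.a (T.c (T.l 1024) (T.l 1024)) (T.l 1024)) (T.l 1024)) (T.b (T.b (T.c (T.l 1024) (T.l 1024)) (T.l 1024)) (T.l 1024))) (T.l 1088)) (T.l 1088))) (T.a (T.l 279616) (T.l 279616))))) (T.a (T.c (T.a (T.a (T.c (T.b (T.a (T.c (T.b (T.l 1088) (T.l 1088)) (T.l 1088)) (T.l 279616)) (T.c (T.b (T.l 1088) (T.l 349520)) (T.l 349520))) (T.b (T.c (T.a (T.l 1088) (T.l 263232)) (T.l 279616)) (T.l 349520))) (T.b (T.l 279616) (T.l 349520))) (T.a (T.l 349520) (T.l 349520))) (T.a (T.b (T.a (T.c (T.b (T.l 1088) (T.l 1088)) (T.l 279616)) (T.l 279616)) (T.b (T.l 279616) (T.l 349520))) (T.l 349520))) (T.c (T.l 349520) (T.l 349520)))) (T.a (T.b (T.b (T.l 2) (T.l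 279616)) (T.c (T.l 349520) (T.c (T.l 349520) (T.l 357712)))) (T.a (T.b (T.a (T.b (T.l 2) (T.a (T.l 279616) (T.l 279616))) (T.b (T.l 2) (T.b (T.l 2) (T.a (T.c (T.l 278592) (T.l 278592)) (T.c (T.l 278592) (T.l 278592)))))) (T.a (T.b (T.a (T.c (T.l 279616) (T.l 287808)) (T.c (T.l 279616) (T.b (T.l 278592) (T.l 287808)))) (T.a (T.c (T.b (T.l 287808) (T.a (T.l 357712) (T.c (T.l 357712) (T.b (T.l 279616) (T.l 357712))))) (T.b (T.a (T.l 279616) (T.l 279616)) (T.a (T.c (T.l 357712) (T.c (T.l 357712) (T.c (T.l 357712) (T.b (T.l 278528) (T.a (T.l 349520) (T.l 357712)))))) (T.c (T.b (T.l 279616) (T.a (T.l 357712) (T.l 357712))) (T.b (T.l 287808) (T.b (T.a (T.l 287808) (T.l 287808)) (T.l 349520))))))) (T.c (T.b (T.a (T.l 279616) (T.l 287808)) (T.b (T.a (T.b (T.l 278592) (T.l 287808)) (T.c (T.l 287808) (T.a (T.l 279616) (T.l 279616)))) (T.a (T.l 349520) (T.l 349520))))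 (T.b (T.a (T.l 287808) (T.c (T.l 287808) (T.l 287808))) (T.b (T.a (T.c (T.l 287808) (T.a (T.l 287808) (T.b (T.l 278528) (T.l 286720)))) (T.b (T.c (T.l 286720) (T.a (T.l 286720) (T.l 278528))) (T.l 287808))) (T.a (T.l 357712) (T.l 357712))))))) (T.b (T.a (T.c (T.c (T.l 279616) (T.l 287808)) (T.c (T.l 287808) (T.l 287808))) (T.c (T.b (T.l 286784) (T.a (T.l 279616) (T.c (T.l 287808) (T.l 287808)))) (T.b (T.l 286784) (T.a (T.l 287808) (T.c (T.l 287808) (T.l 287808)))))) (T.a (T.b (T.c (T.a (T.c (T.l 287808) (T.b (T.l 278528) (T.l 286784))) (T.b (T.b (T.l 278528) (T.l 286720)) (T.b (T.l 286720) (T.l 278528)))) (T.a (T.b (T.l 286720) (T.c (T.a (T.l 278528) (T.l 286720)) (T.a (T.l 286720) (T.l 286720)))) (T.b (T.c (T.l 286720) (T.l 286720)) (T.b (T.c (T.l 286720) (T.l 286720)) (T.l 286720))))) (T.c (T.a (T.l 357712) (T.l 357712)) (T.a (T.b (T.l 287808) (T.l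 357712)) (T.b (T.l 287808) (T.l 357712))))) (T.b (T.b (T.b (T.c (T.a (T.l 286720) (T.l 286720)) (T.a (T.c (T.l 286720) (T.l 286720)) (T.b (T.l 286720) (T.l 278528)))) (T.c (T.a (T.l 286720) (T.l 278528)) (T.a (T.b (T.l 286720) (T.l 278528)) (T.l 278528)))) (T.c (T.a (T.l 279616) (T.l 279616)) (T.a (T.l 287808) (T.l 287808)))) (T.c (T.a (T.l 357712) (T.l 357712)) (T.a (T.b (T.l 287808) (T.l 357712)) (T.b (T.l 287808) (T.l 357712))))))))) (T.b (T.a (T.b (T.l 2) (T.b (T.l 2) (T.a (T.c (T.l 278592) (T.l 278592)) (T.c (T.l 286784) (T.l 286784))))) (T.b (T.l 2) (T.b (T.l 2) (T.a (T.c (T.a (T.l 278528) (T.l 278528)) (T.a (T.l 278528) (T.l 278528))) (T.c (T.a (T.l 278528) (T.l 286720)) (T.a (T.l 278528) (T.l 278528))))))) (T.a (T.b (T.a (T.c (T.b (T.a (T.l 278528) (T.l 278528)) (T.a (T.b (T.l 278528) (T.c (T.l 286720) (T.l 286720))) (T.b (T.c (T.l 286720) (T.l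 278528)) (T.b (T.l 286720) (T.l 278528))))) (T.b (T.a (T.l 278528) (T.l 278528)) (T.a (T.b (T.l 286720) (T.c (T.a (T.l 278528) (T.l 286720)) (T.a (T.l 286720) (T.l 286720)))) (T.b (T.c (T.l 278528) (T.l 278528)) (T.b (T.l 286720) (T.l 278528)))))) (T.c (T.b (T.a (T.l 278528) (T.b (T.l 16384) (T.l 286720))) (T.b (T.a (T.b (T.l 24576) (T.l 24576)) (T.b (T.l 24576) (T.l 16384))) (T.a (T.l 278528) (T.l 278528)))) (T.b (T.a (T.l 286720) (T.c (T.l 278592) (T.l 279616))) (T.b (T.a (T.c (T.l 286720) (T.l 286720)) (T.b (T.l 286720) (T.l 278528))) (T.a (T.l 278528) (T.l 278528)))))) (T.a (T.c (T.c (T.b (T.a (T.l 279616) (T.l 279616)) (T.a (T.l 349520) (T.l 357712))) (T.c (T.b (T.l 287808) (T.a (T.l 349520) (T.l 349520))) (T.b (T.l 287808) (T.a (T.l 349520) (T.l 349520))))) (T.c (T.c (T.b (T.l 287808) (T.a (T.l 349520) (T.l 349520))) (T.b (T.l 287808) (T.a (T.l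 349520) (T.l 349520)))) (T.c (T.b (T.l 287808) (T.a (T.l 349520) (T.l 349520))) (T.b (T.a (T.l 279616) (T.l 279616)) (T.a (T.l 349520) (T.l 349520)))))) (T.c (T.c (T.c (T.b (T.l 287808) (T.a (T.l 349520) (T.l 357712))) (T.b (T.l 287808) (T.a (T.l 349520) (T.l 349520)))) (T.c (T.b (T.l 287808) (T.a (T.l 349520) (T.l 349520))) (T.b (T.l 287808) (T.a (T.l 349520) (T.l 349520))))) (T.c (T.c (T.b (T.l 287808) (T.a (T.l 349520) (T.l 349520))) (T.b (T.l 287808) (T.a (T.l 349520) (T.l 349520)))) (T.c (T.b (T.l 287808) (T.a (T.l 349520) (T.l 349520))) (T.b (T.l 287808) (T.a (T.l 349520) (T.l 349520)))))))) (T.b (T.a (T.b (T.c (T.a (T.c (T.l 286784) (T.l 286784)) (T.b (T.l 24576) (T.c (T.l 24576) (T.l 24576)))) (T.a (T.c (T.l 286784) (T.l 286784)) (T.b (T.l 286720) (T.c (T.l 286720) (T.l 286720))))) (T.c (T.a (T.l 287808) (T.l 287808)) (T.a (T.l 279616) (T.l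 279616)))) (T.b (T.c (T.a (T.b (T.c (T.l 24576) (T.l 16384)) (T.b (T.l 24576) (T.l 16384))) (T.b (T.b (T.l 24576) (T.l 24576)) (T.l 278528))) (T.a (T.b (T.c (T.l 16384) (T.l 278528)) (T.b (T.l 24576) (T.l 16384))) (T.b (T.b (T.l 24576) (T.l 24576)) (T.l 278528)))) (T.c (T.a (T.l 287808) (T.l 287808)) (T.a (T.l 279616) (T.l 279616))))) (T.a (T.c (T.c (T.c (T.b (T.a (T.l 279616) (T.l 279616)) (T.a (T.l 357712) (T.l 357712))) (T.b (T.l 287808) (T.a (T.l 349520) (T.l 357712)))) (T.c (T.b (T.l 287808) (T.a (T.l 349520) (T.l 349520))) (T.b (T.l 287808) (T.a (T.l 349520) (T.l 349520))))) (T.c (T.c (T.b (T.l 287808) (T.a (T.l 349520) (T.l 349520))) (T.b (T.l 287808) (T.a (T.l 349520) (T.l 349520)))) (T.c (T.b (T.l 287808) (T.a (T.l 349520) (T.l 349520))) (T.b (T.l 287808) (T.a (T.l 349520) (T.l 349520)))))) (T.c (T.c (T.c (T.b (T.a (T.l 279616) (T.l 279616))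 (T.a (T.l 357712) (T.l 357712))) (T.b (T.l 287808) (T.a (T.l 357712) (T.l 357712)))) (T.c (T.b (T.l 287808) (T.a (T.l 349520) (T.l 349520))) (T.b (T.l 287808) (T.a (T.l 349520) (T.l 349520))))) (T.c (T.c (T.b (T.l 287808) (T.a (T.l 349520) (T.l 349520))) (T.b (T.l 287808) (T.l 357712))) (T.c (T.b (T.l 287808) (T.l 357712)) (T.b (T.l 287808) (T.l 357712)))))))))))) (T.c (T.b (T.b (T.l 2) (T.b (T.l 2) (T.a (T.a (T.a (T.a (T.a (T.a (T.l 286784) (T.c (T.l 286720) (T.l 286720))) (T.a (T.c (T.b (T.l 16384) (T.l 24576)) (T.l 286720)) (T.b (T.l 24576) (T.l 24576)))) (T.a (T.b (T.a (T.b (T.l 2) (T.l 16384)) (T.l 24576)) (T.a (T.l 16384) (T.l 16384))) (T.a (T.b (T.l 24576) (T.l 16384)) (T.l 278592)))) (T.a (T.a (T.l 287808) (T.l 287808)) (T.a (T.l 287808) (T.l 287808)))) (T.a (T.a (T.a (T.l 287808) (T.l 287808)) (T.a (T.l 279616) (T.l 279616))) (T.a (T.a (T.l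 279616) (T.l 279616)) (T.a (T.l 279616) (T.l 279616))))) (T.a (T.a (T.a (T.a (T.l 287808) (T.l 287808)) (T.a (T.l 287808) (T.l 287808))) (T.a (T.a (T.l 287808) (T.l 279616)) (T.a (T.l 279648) (T.l 279648)))) (T.a (T.a (T.a (T.a (T.l 279648) (T.l 279648)) (T.a (T.l 279648) (T.b (T.l 16480) (T.l 16480)))) (T.a (T.a (T.c (T.l 16480) (T.l 16480)) (T.c (T.l 16480) (T.l 16480))) (T.a (T.c (T.c (T.l 16480) (T.l 16480)) (T.c (T.l 16480) (T.l 16480))) (T.c (T.b (T.b (T.l 2) (T.l 0)) (T.l 16480)) (T.b (T.b (T.l 2) (T.l 0)) (T.l 16480)))))) (T.a (T.a (T.a (T.c (T.b (T.b (T.l 2) (T.a (T.l 0) (T.l 0))) (T.a (T.l 16480) (T.l 16480))) (T.b (T.b (T.l 2) (T.a (T.l 0) (T.l 0))) (T.a (T.l 96) (T.l 16480)))) (T.b (T.b (T.l 2) (T.c (T.a (T.l 0) (T.l 0)) (T.a (T.l 0) (T.l 0)))) (T.b (T.c (T.a (T.l 0) (T.l 0)) (T.a (T.l 0) (T.l 0))) (T.c (T.l 16384) (T.l 0))))) (T.b (T.b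 (T.l 2) (T.a (T.c (T.a (T.l 0) (T.b (T.l 0) (T.l 0))) (T.a (T.l 0) (T.l 0))) (T.c (T.a (T.b (T.l 0) (T.l 0)) (T.b (T.l 0) (T.l 0))) (T.a (T.b (T.l 0) (T.l 0)) (T.b (T.l 0) (T.l 0)))))) (T.a (T.b (T.c (T.a (T.l 0) (T.l 0)) (T.a (T.l 0) (T.l 0))) (T.b (T.c (T.l 0) (T.l 0)) (T.l 16448))) (T.b (T.c (T.a (T.l 0) (T.l 0)) (T.a (T.l 0) (T.l 0))) (T.l 16448))))) (T.a (T.b (T.b (T.l 2) (T.a (T.c (T.a (T.c (T.l 0) (T.l 0)) (T.b (T.b (T.l 2) (T.l 0)) (T.l 0))) (T.a (T.c (T.l 0) (T.l 0)) (T.b (T.b (T.l 2) (T.l 0)) (T.l 0)))) (T.c (T.a (T.b (T.c (T.l 0) (T.l 0)) (T.b (T.l 0) (T.l 0))) (T.b (T.b (T.l 2) (T.c (T.l 0) (T.l 0))) (T.c (T.l 0) (T.l 0)))) (T.a (T.b (T.c (T.l 0) (T.l 0)) (T.b (T.l 0) (T.l 0))) (T.b (T.b (T.l 2) (T.c (T.l 0) (T.l 0))) (T.c (T.l 0) (T.l 0))))))) (T.b (T.b (T.a (T.c (T.a (T.l 0) (T.l 0)) (T.a (T.l 0) (T.l 0))) (T.c (T.a (T.l 0) (T.l 0)) (T.a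 (T.l 0) (T.l 64)))) (T.l 24672)) (T.l 24672))) (T.b (T.b (T.l 2) (T.a (T.c (T.a (T.b (T.b (T.l 2) (T.c (T.l 0) (T.l 0))) (T.c (T.l 0) (T.l 0))) (T.b (T.b (T.l 2) (T.c (T.a (T.l 0) (T.l 0)) (T.a (T.l 0) (T.l 0)))) (T.l 64))) (T.a (T.b (T.b (T.l 2) (T.c (T.a (T.l 0) (T.l 0)) (T.a (T.l 0) (T.l 0)))) (T.b (T.c (T.l 0) (T.l 0)) (T.l 64))) (T.b (T.b (T.l 2) (T.c (T.a (T.l 0) (T.l 0)) (T.a (T.l 0) (T.b (T.l 2) (T.l 0))))) (T.l 96)))) (T.b (T.c (T.b (T.l 2) (T.a (T.c (T.b (T.l 2) (T.l 64)) (T.b (T.l 2) (T.l 64))) (T.l 96))) (T.b (T.l 2) (T.a (T.c (T.b (T.l 2) (T.l 64)) (T.b (T.l 2) (T.l 96))) (T.l 96)))) (T.l 24672)))) (T.l 24672))))))))) (T.b (T.a (T.a (T.a (T.a (T.a (T.b (T.a (T.b (T.l 286720) (T.l 278528)) (T.l 279616)) (T.a (T.l 287808) (T.l 287808))) (T.c (T.c (T.l 287808) (T.l 287808)) (T.b (T.l 287808) (T.l 287808)))) (T.a (T.c (T.b (T.l 287808) (T.l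 287808)) (T.l 287808)) (T.c (T.l 287808) (T.l 287808)))) (T.a (T.a (T.c (T.l 287808) (T.l 287808)) (T.c (T.l 287808) (T.l 287808))) (T.a (T.c (T.l 287808) (T.l 287808)) (T.b (T.l 287808) (T.l 287808))))) (T.a (T.a (T.a (T.l 287808) (T.l 287808)) (T.a (T.l 287808) (T.l 287808))) (T.a (T.a (T.l 287808) (T.l 287808)) (T.a (T.l 287808) (T.l 287808))))) (T.c (T.a (T.a (T.a (T.a (T.l 279616) (T.l 279616)) (T.a (T.l 279616) (T.l 279616))) (T.a (T.a (T.l 279616) (T.l 287808)) (T.a (T.l 287840) (T.b (T.l 279616) (T.l 287840))))) (T.c (T.a (T.a (T.a (T.b (T.l 279648) (T.l 279616)) (T.b (T.l 279648) (T.l 279616))) (T.b (T.a (T.a (T.l 278624) (T.l 278624)) (T.b (T.a (T.l 16384) (T.l 16384)) (T.l 16448))) (T.l 287808))) (T.a (T.a (T.b (T.a (T.b (T.l 16480) (T.l 16384)) (T.l 16448)) (T.l 287808)) (T.l 287808)) (T.a (T.l 287840) (T.l 287840)))) (T.a (T.a (T.a (T.b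 (T.l 279616) (T.l 279616)) (T.b (T.l 279648) (T.l 279616))) (T.b (T.a (T.a (T.l 278624) (T.l 278624)) (T.a (T.l 278624) (T.b (T.l 16384) (T.l 16384)))) (T.l 287808))) (T.a (T.a (T.b (T.a (T.b (T.l 16480) (T.l 16384)) (T.l 16448)) (T.l 287808)) (T.l 287808)) (T.a (T.l 287808) (T.l 287808)))))) (T.a (T.a (T.a (T.a (T.l 279616) (T.l 279616)) (T.a (T.l 279616) (T.l 279616))) (T.a (T.a (T.l 279616) (T.l 287808)) (T.a (T.l 287840) (T.b (T.l 279616) (T.l 287808))))) (T.c (T.a (T.a (T.a (T.b (T.l 279616) (T.l 279616)) (T.b (T.l 279648) (T.l 279616))) (T.b (T.a (T.a (T.l 278624) (T.l 278624)) (T.a (T.l 278624) (T.b (T.l 16384) (T.l 16384)))) (T.l 287808))) (T.a (T.a (T.b (T.a (T.b (T.l 16384) (T.l 16384)) (T.l 16448)) (T.l 279616)) (T.l 287808)) (T.l 357488))) (T.a (T.a (T.a (T.b (T.l 279616) (T.l 279616)) (T.b (T.l 279648) (T.l 279616))) (T.b (T.a (T.a (T.l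 278624) (T.l 278624)) (T.a (T.l 278624) (T.b (T.l 16384) (T.l 16384)))) (T.l 287808))) (T.a (T.a (T.b (T.a (T.b (T.l 16384) (T.l 16384)) (T.l 16448)) (T.l 279616)) (T.l 287808)) (T.l 291952))))))) (T.b (T.a (T.a (T.a (T.a (T.a (T.a (T.l 287808) (T.l 287808)) (T.a (T.l 287808) (T.l 287808))) (T.a (T.a (T.l 287808) (T.l 287808)) (T.a (T.l 287808) (T.l 287808)))) (T.a (T.a (T.a (T.l 287808) (T.l 287808)) (T.a (T.l 287808) (T.l 287808))) (T.a (T.a (T.l 287808) (T.l 287808)) (T.l 287808)))) (T.a (T.a (T.a (T.l 287808) (T.l 287808)) (T.a (T.l 287808) (T.l 287808))) (T.a (T.a (T.l 287808) (T.l 287808)) (T.a (T.l 287808) (T.l 287808))))) (T.b (T.c (T.a (T.a (T.a (T.a (T.l 279616) (T.l 279616)) (T.a (T.l 279616) (T.l 287808))) (T.a (T.a (T.l 287808) (T.l 279616)) (T.a (T.l 279616) (T.l 279616)))) (T.b (T.c (T.a (T.a (T.l 287808) (T.l 287808)) (T.a (T.l 287808)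 (T.l 287808))) (T.a (T.a (T.l 287808) (T.l 287808)) (T.a (T.l 287808) (T.l 287808)))) (T.c (T.a (T.a (T.l 287808) (T.l 287808)) (T.a (T.l 287808) (T.l 4))) (T.a (T.a (T.a (T.l 278592) (T.l 278592)) (T.l 287808)) (T.a (T.l 287808) (T.l 4)))))) (T.a (T.a (T.a (T.a (T.l 279616) (T.l 279616)) (T.a (T.l 279616) (T.l 287808))) (T.a (T.a (T.l 287808) (T.l 279616)) (T.a (T.l 279616) (T.l 279616)))) (T.b (T.c (T.a (T.a (T.l 287808) (T.l 287808)) (T.a (T.l 287808) (T.l 287808))) (T.a (T.a (T.l 287808) (T.l 287808)) (T.a (T.l 287808) (T.l 287808)))) (T.c (T.a (T.a (T.a (T.l 278592) (T.l 278592)) (T.l 287808)) (T.a (T.l 287808) (T.l 4))) (T.a (T.a (T.a (T.l 278592) (T.l 278592)) (T.l 287808)) (T.a (T.l 287808) (T.l 4))))))) (T.c (T.a (T.a (T.a (T.a (T.l 279616) (T.l 287808)) (T.a (T.l 287808) (T.l 287808))) (T.a (T.a (T.l 279616) (T.l 279616)) (T.a (T.l 279616)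 (T.l 279616)))) (T.a (T.a (T.a (T.l 279616) (T.l 279616)) (T.a (T.l 287808) (T.l 287808))) (T.a (T.a (T.l 287808) (T.l 4)) (T.l 4)))) (T.a (T.a (T.a (T.a (T.l 279616) (T.l 279616)) (T.a (T.l 287808) (T.l 279616))) (T.a (T.a (T.l 279616) (T.l 279616)) (T.a (T.l 279616) (T.l 279616)))) (T.a (T.a (T.a (T.l 279616) (T.l 279616)) (T.a (T.l 287808) (T.l 287808))) (T.a (T.a (T.l 287808) (T.l 4)) (T.l 4))))))) (T.a (T.a (T.a (T.a (T.a (T.a (T.l 357712) (T.l 357712)) (T.a (T.l 357712) (T.l 357712))) (T.a (T.a (T.l 357712) (T.l 357712)) (T.a (T.l 357712) (T.l 357712)))) (T.a (T.a (T.a (T.l 357712) (T.l 357712)) (T.a (T.l 357712) (T.l 357712))) (T.a (T.a (T.l 357712) (T.l 357712)) (T.a (T.l 357712) (T.l 357712))))) (T.a (T.a (T.a (T.l 357712) (T.l 357712)) (T.a (T.l 357712) (T.l 357712))) (T.a (T.a (T.l 357712) (T.l 357712)) (T.a (T.l 357712) (T.a (T.l 357712)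 (T.l 357712)))))) (T.a (T.c (T.c (T.a (T.a (T.a (T.l 357712) (T.l 357712)) (T.a (T.l 357712) (T.l 357712))) (T.a (T.a (T.l 357712) (T.l 357712)) (T.a (T.l 357712) (T.l 357712)))) (T.a (T.a (T.a (T.l 357712) (T.l 357712)) (T.a (T.l 357712) (T.l 357712))) (T.a (T.a (T.l 357712) (T.l 357712)) (T.a (T.l 357712) (T.l 357712))))) (T.c (T.a (T.a (T.a (T.l 357712) (T.l 357712)) (T.a (T.l 357712) (T.l 357712))) (T.a (T.a (T.l 357712) (T.l 357712)) (T.a (T.l 357712) (T.l 357712)))) (T.a (T.a (T.a (T.l 357712) (T.l 357712)) (T.a (T.l 357712) (T.l 357712))) (T.a (T.a (T.l 357712) (T.l 357712)) (T.a (T.l 357712) (T.l 357712)))))) (T.a (T.a (T.a (T.a (T.l 357712) (T.l 357712)) (T.a (T.l 357712) (T.l 357712))) (T.a (T.a (T.l 357712) (T.l 4)) (T.l 4))) (T.l 4))))))) (T.b (T.b (T.l 2) (T.b (T.l 2) (T.a (T.a (T.a (T.a (T.a (T.a (T.l 287808) (T.c (T.l 278528) (T.l 278528)))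 (T.a (T.c (T.l 286720) (T.l 286720)) (T.b (T.l 286720) (T.l 286720)))) (T.a (T.b (T.a (T.b (T.l 2) (T.l 16384)) (T.l 16384)) (T.l 286720)) (T.a (T.b (T.l 24576) (T.l 278528)) (T.l 278592)))) (T.a (T.a (T.l 287808) (T.l 287808)) (T.a (T.l 287808) (T.l 287808)))) (T.a (T.a (T.a (T.l 279616) (T.l 279616)) (T.a (T.l 279616) (T.l 279616))) (T.a (T.a (T.l 279616) (T.l 279616)) (T.a (T.l 279616) (T.l 279616))))) (T.a (T.a (T.a (T.a (T.l 287808) (T.l 287808)) (T.a (T.l 287808) (T.l 287808))) (T.a (T.a (T.l 287808) (T.l 287808)) (T.a (T.l 287840) (T.l 287840)))) (T.a (T.a (T.a (T.a (T.l 279616) (T.l 279648)) (T.a (T.l 279648) (T.l 279648))) (T.a (T.a (T.c (T.l 16480) (T.l 278624)) (T.c (T.l 16480) (T.l 16480))) (T.a (T.c (T.l 16480) (T.l 16480)) (T.c (T.c (T.l 16480) (T.l 16480)) (T.c (T.l 16480) (T.l 16480)))))) (T.a (T.a (T.b (T.b (T.l 2) (T.a (T.c (T.l 0)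 (T.l 0)) (T.c (T.a (T.l 0) (T.l 0)) (T.a (T.l 0) (T.l 0))))) (T.a (T.c (T.a (T.l 0) (T.l 96)) (T.a (T.l 0) (T.l 96))) (T.c (T.b (T.a (T.l 0) (T.l 0)) (T.l 0)) (T.b (T.l 0) (T.l 0))))) (T.b (T.b (T.l 2) (T.a (T.c (T.a (T.l 0) (T.l 0)) (T.a (T.l 0) (T.l 0))) (T.c (T.a (T.b (T.l 0) (T.l 0)) (T.b (T.l 0) (T.l 0))) (T.a (T.b (T.l 0) (T.l 0)) (T.b (T.l 0) (T.l 0)))))) (T.a (T.c (T.b (T.a (T.l 0) (T.l 0)) (T.a (T.l 0) (T.l 0))) (T.b (T.a (T.l 0) (T.l 0)) (T.a (T.l 0) (T.l 0)))) (T.b (T.c (T.a (T.l 0) (T.l 0)) (T.a (T.l 0) (T.l 0))) (T.l 16448))))) (T.a (T.b (T.b (T.l 2) (T.a (T.c (T.a (T.b (T.l 0) (T.l 0)) (T.b (T.b (T.l 2) (T.l 0)) (T.l 0))) (T.a (T.c (T.l 0) (T.l 0)) (T.b (T.b (T.l 2) (T.l 0)) (T.b (T.l 0) (T.l 0))))) (T.c (T.a (T.b (T.c (T.l 0) (T.l 0)) (T.b (T.l 0) (T.l 0))) (T.b (T.b (T.l 2) (T.c (T.l 0) (T.l 0))) (T.c (T.l 0) (T.l 0)))) (T.a (T.b (T.c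 (T.l 0) (T.l 0)) (T.c (T.l 0) (T.l 0))) (T.b (T.b (T.l 2) (T.c (T.l 0) (T.l 0))) (T.c (T.l 0) (T.l 0))))))) (T.b (T.b (T.a (T.c (T.a (T.l 0) (T.l 0)) (T.a (T.l 0) (T.l 0))) (T.c (T.a (T.l 0) (T.l 64)) (T.a (T.l 0) (T.l 64)))) (T.l 24672)) (T.l 24672))) (T.b (T.b (T.l 2) (T.a (T.c (T.a (T.b (T.b (T.l 2) (T.c (T.a (T.l 0) (T.l 0)) (T.a (T.l 0) (T.l 0)))) (T.b (T.c (T.l 0) (T.l 0)) (T.l 64))) (T.b (T.b (T.l 2) (T.c (T.a (T.l 0) (T.b (T.l 2) (T.l 0))) (T.a (T.l 0) (T.b (T.l 2) (T.l 0))))) (T.l 96))) (T.a (T.b (T.b (T.l 2) (T.c (T.a (T.l 0) (T.l 0)) (T.a (T.l 0) (T.l 0)))) (T.b (T.c (T.l 0) (T.a (T.l 0) (T.l 0))) (T.l 64))) (T.b (T.b (T.l 2) (T.c (T.b (T.l 2) (T.a (T.l 0) (T.l 0))) (T.b (T.l 2) (T.a (T.l 0) (T.l 64))))) (T.l 96)))) (T.b (T.c (T.b (T.l 2) (T.a (T.c (T.b (T.l 2) (T.l 96)) (T.b (T.l 2) (T.l 96))) (T.l 96))) (T.b (T.l 2) (T.a (T.c (T.b (T.l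 2) (T.l 96)) (T.b (T.l 2) (T.l 96))) (T.l 96)))) (T.l 16480)))) (T.l 24672))))))))) (T.b (T.a (T.a (T.a (T.a (T.a (T.b (T.a (T.b (T.l 286720) (T.l 278528)) (T.l 279616)) (T.a (T.l 279616) (T.l 279616))) (T.c (T.l 287808) (T.l 287808))) (T.a (T.c (T.l 287808) (T.l 287808)) (T.c (T.l 287808) (T.l 287808)))) (T.a (T.a (T.c (T.l 287808) (T.l 287808)) (T.b (T.l 287808) (T.l 287808))) (T.a (T.b (T.l 287808) (T.l 287808)) (T.l 287808)))) (T.a (T.a (T.a (T.l 287808) (T.l 287808)) (T.a (T.l 287808) (T.l 287808))) (T.a (T.a (T.l 279616) (T.l 279616)) (T.a (T.l 279616) (T.l 287808))))) (T.c (T.a (T.a (T.a (T.a (T.l 279616) (T.l 279616)) (T.a (T.l 279616) (T.l 279616))) (T.a (T.a (T.l 279616) (T.l 287808)) (T.a (T.l 287840) (T.l 287840)))) (T.c (T.a (T.a (T.a (T.l 287840) (T.b (T.l 279648) (T.l 279616))) (T.b (T.a (T.a (T.l 278624) (T.l 278624)) (T.a (T.l 278624)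 (T.b (T.l 16384) (T.l 16384)))) (T.l 287808))) (T.a (T.a (T.b (T.a (T.b (T.l 16384) (T.l 16384)) (T.l 16448)) (T.l 279616)) (T.l 287808)) (T.l 291952))) (T.a (T.a (T.a (T.l 287840) (T.b (T.l 279648) (T.l 279616))) (T.b (T.a (T.a (T.l 278624) (T.l 278624)) (T.a (T.l 278624) (T.b (T.l 16384) (T.l 16384)))) (T.l 287808))) (T.a (T.a (T.b (T.a (T.b (T.l 16384) (T.l 16384)) (T.l 16448)) (T.l 279616)) (T.l 287808)) (T.l 291952))))) (T.a (T.a (T.a (T.a (T.l 279616) (T.l 279616)) (T.a (T.l 279616) (T.l 279616))) (T.a (T.a (T.l 279616) (T.l 287808)) (T.a (T.l 287808) (T.l 287840)))) (T.c (T.a (T.a (T.a (T.l 279648) (T.b (T.l 279648) (T.l 279616))) (T.b (T.a (T.a (T.l 278624) (T.l 278624)) (T.a (T.l 278624) (T.l 278624))) (T.l 287808))) (T.a (T.a (T.b (T.a (T.b (T.l 16384) (T.l 16384)) (T.l 16448)) (T.l 279616)) (T.l 287808)) (T.l 291952))) (T.a (T.a (T.a (T.l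 279648) (T.b (T.l 279648) (T.l 279616))) (T.b (T.a (T.l 279648) (T.a (T.l 278624) (T.l 278624))) (T.l 287808))) (T.a (T.a (T.b (T.a (T.b (T.l 16384) (T.l 16384)) (T.l 16448)) (T.l 279616)) (T.l 279616)) (T.l 291952))))))) (T.b (T.a (T.a (T.a (T.a (T.a (T.a (T.l 287808) (T.l 287808)) (T.a (T.l 287808) (T.l 287808))) (T.a (T.a (T.l 287808) (T.l 287808)) (T.a (T.l 287808) (T.l 279616)))) (T.a (T.a (T.a (T.l 279616) (T.l 279616)) (T.a (T.l 279616) (T.l 279616))) (T.a (T.l 287808) (T.l 287808)))) (T.a (T.a (T.a (T.l 287808) (T.l 287808)) (T.a (T.l 287808) (T.l 279616))) (T.a (T.a (T.l 279616) (T.l 279616)) (T.a (T.l 279616) (T.l 287808))))) (T.b (T.c (T.a (T.a (T.a (T.a (T.l 279616) (T.l 279616)) (T.a (T.l 279616) (T.l 279616))) (T.a (T.a (T.l 279616) (T.l 279616)) (T.a (T.l 279616) (T.l 279616)))) (T.b (T.c (T.a (T.a (T.l 287808) (T.l 287808)) (T.a (T.l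 287808) (T.l 287808))) (T.a (T.a (T.l 287808) (T.l 287808)) (T.a (T.l 287808) (T.l 287808)))) (T.c (T.a (T.a (T.a (T.l 278592) (T.l 278592)) (T.l 287808)) (T.a (T.l 287808) (T.l 4))) (T.a (T.a (T.a (T.l 278592) (T.l 278592)) (T.l 287808)) (T.a (T.l 287808) (T.l 4)))))) (T.a (T.a (T.a (T.a (T.l 279616) (T.l 279616)) (T.a (T.l 279616) (T.l 279616))) (T.a (T.a (T.l 279616) (T.l 279616)) (T.a (T.l 279616) (T.l 279616)))) (T.b (T.c (T.a (T.a (T.l 287808) (T.l 287808)) (T.a (T.l 287808) (T.l 287808))) (T.a (T.a (T.l 287808) (T.l 287808)) (T.a (T.l 287808) (T.l 287808)))) (T.c (T.a (T.a (T.a (T.l 278592) (T.l 278592)) (T.l 287808)) (T.a (T.l 287808) (T.l 4))) (T.a (T.a (T.a (T.l 278592) (T.l 278592)) (T.l 287808)) (T.a (T.l 287808) (T.l 4))))))) (T.c (T.a (T.a (T.a (T.a (T.l 279616) (T.l 279616)) (T.a (T.l 287808) (T.l 279616))) (T.a (T.a (T.l 279616) (T.l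 279616)) (T.a (T.l 279616) (T.l 279616)))) (T.a (T.a (T.a (T.l 279616) (T.l 279616)) (T.a (T.l 287808) (T.l 287808))) (T.a (T.a (T.l 287808) (T.l 4)) (T.l 4)))) (T.a (T.a (T.a (T.a (T.l 279616) (T.l 279616)) (T.a (T.l 279616) (T.l 279616))) (T.a (T.a (T.l 279616) (T.l 279616)) (T.a (T.l 279616) (T.l 279616)))) (T.a (T.a (T.a (T.l 279616) (T.l 279616)) (T.a (T.l 287808) (T.l 287808))) (T.a (T.a (T.l 287808) (T.l 4)) (T.l 4))))))) (T.a (T.a (T.a (T.a (T.a (T.a (T.l 357712) (T.l 357712)) (T.a (T.l 357712) (T.l 357712))) (T.a (T.a (T.l 357712) (T.l 357712)) (T.a (T.l 357712) (T.l 357712)))) (T.a (T.a (T.a (T.l 357712) (T.l 357712)) (T.a (T.l 349520) (T.l 349520))) (T.a (T.l 357712) (T.l 357712)))) (T.a (T.a (T.a (T.l 357712) (T.l 357712)) (T.a (T.l 357712) (T.l 349520))) (T.a (T.a (T.l 349520) (T.l 349520)) (T.a (T.l 357712) (T.a (T.l 349520) (T.l 357712))))))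 (T.a (T.c (T.c (T.a (T.a (T.a (T.l 357712) (T.l 357712)) (T.a (T.l 357712) (T.l 357712))) (T.a (T.a (T.l 357712) (T.l 357712)) (T.a (T.l 357712) (T.l 357712)))) (T.a (T.a (T.a (T.l 357712) (T.l 349520)) (T.a (T.l 357712) (T.l 357712))) (T.a (T.a (T.l 357712) (T.l 357712)) (T.a (T.l 357712) (T.l 357712))))) (T.c (T.a (T.a (T.a (T.l 357712) (T.l 349520)) (T.a (T.l 357712) (T.l 357712))) (T.a (T.a (T.l 357712) (T.l 357712)) (T.a (T.l 357712) (T.l 357712)))) (T.a (T.a (T.a (T.l 357712) (T.l 349520)) (T.a (T.l 349520) (T.l 357712))) (T.a (T.a (T.l 357712) (T.l 357712)) (T.a (T.l 357712) (T.l 357712)))))) (T.a (T.a (T.b (T.a (T.a (T.l 287808) (T.l 287808)) (T.a (T.l 287808) (T.l 287808))) (T.a (T.a (T.l 357712) (T.l 357712)) (T.l 4))) (T.a (T.a (T.l 357712) (T.l 4)) (T.l 4))) (T.l 4)))))))))), by decide +kernel⟩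

end Pool.Agent.Strip051.G.I9625_9688.Tab.DG
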