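import Pool.Agent.Strip051.G.I9625_9688.DgP

/-! # The corner (1, 1, 2): certificates of the degenerate charts (generated) -/

set_option linter.all false

namespace Pool.Agent.Strip051.G.I9625_9688.Tab.DG

open Pool.Agent.Strip051.PB Pool.Agent.Strip051.PB.Dg Pool.Agent.StripNear Pool.Agent.Strip051.LC

theorem cFB4 : ∃ t, chk3 (onCell 0 71179700 0 2684354560 1033476505 6710887 (fdBy false pF (ndUR ndF4))) t 1 1 1 = true :=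
  ⟨(T.b (T.b (T.l 2) (T.b (T.a (T.a (T.b (T.b (T.b (T.l 2) (T.b (T.l 2) (T.b (T.l 2) (T.c (T.a (T.b (T.l 2) (T.a (T.a (T.b (T.a (T.c (T.c (T.l 0) (T.l 0)) (T.c (T.l 0) (T.l 0))) (T.l 0)) (T.l 512)) (T.l 0)) (T.l 0))) (T.l 0)) (T.a (T.b (T.l 2) (T.a (T.a (T.b (T.a (T.c (T.c (T.l 0) (T.l 0)) (T.c (T.l 0) (T.l 0))) (T.l 0)) (T.l 512)) (T.l 0)) (T.l 0))) (T.l 0)))))) (T.b (T.b (T.b (T.a (T.l 544) (T.l 544)) (T.l 544)) (T.l 544)) (T.l 544))) (T.l 4)) (T.a (T.b (T.b (T.b (T.l 2) (T.b (T.l 2) (T.l 0))) (T.b (T.b (T.l 0) (T.l 32)) (T.l 8736))) (T.l 174760)) (T.b (T.b (T.l 2) (T.b (T.b (T.b (T.l 0) (T.l 8192)) (T.l 8192)) (T.l 174760))) (T.a (T.l 174760) (T.l 174760))))) (T.c (T.c (T.c (T.c (T.b (T.a (T.b (T.l 2) (T.a (T.b (T.b (T.b (T.a (T.a (T.l 0) (T.a (T.l 0) (T.l 0))) (T.a (T.a (T.l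 0) (T.l 0)) (T.l 0))) (T.l 139808)) (T.l 139808)) (T.l 174760)) (T.b (T.b (T.b (T.a (T.a (T.l 0) (T.l 0)) (T.a (T.l 0) (T.l 0))) (T.l 139808)) (T.l 139808)) (T.l 139808)))) (T.b (T.l 2) (T.a (T.b (T.b (T.b (T.b (T.a (T.a (T.l 0) (T.l 0)) (T.l 2)) (T.a (T.a (T.l 0) (T.l 0)) (T.a (T.l 0) (T.l 0)))) (T.l 139808)) (T.l 139808)) (T.l 139808)) (T.b (T.b (T.b (T.b (T.l 2) (T.a (T.a (T.l 0) (T.l 0)) (T.b (T.a (T.a (T.l 0) (T.l 0)) (T.b (T.l 2) (T.a (T.l 0) (T.a (T.l 0) (T.l 0))))) (T.l 24672)))) (T.a (T.l 8224) (T.l 8224))) (T.l 139808)) (T.l 139808))))) (T.b (T.b (T.b (T.a (T.l 174760) (T.l 174760)) (T.l 4)) (T.l 4)) (T.l 4))) (T.b (T.a (T.b (T.l 2) (T.a (T.b (T.b (T.b (T.a (T.a (T.l 0) (T.a (T.l 0) (T.l 0))) (T.a (T.a (T.l 0) (T.l 0)) (T.l 0))) (T.l 139808)) (T.l 139808)) (T.l 174760))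 (T.b (T.b (T.b (T.a (T.a (T.l 0) (T.l 0)) (T.a (T.l 0) (T.l 0))) (T.l 139808)) (T.l 139808)) (T.l 139808)))) (T.b (T.l 2) (T.a (T.b (T.b (T.b (T.b (T.a (T.a (T.l 0) (T.l 0)) (T.l 2)) (T.a (T.a (T.l 0) (T.l 0)) (T.a (T.l 0) (T.l 0)))) (T.l 139808)) (T.l 139808)) (T.l 139808)) (T.b (T.b (T.b (T.b (T.l 2) (T.a (T.a (T.l 0) (T.l 0)) (T.b (T.a (T.a (T.l 0) (T.l 0)) (T.b (T.l 2) (T.a (T.l 0) (T.a (T.l 0) (T.a (T.l 0) (T.l 0)))))) (T.l 24672)))) (T.a (T.l 8224) (T.l 8224))) (T.l 139808)) (T.l 139808))))) (T.b (T.b (T.b (T.a (T.l 174760) (T.l 174760)) (T.l 4)) (T.l 4)) (T.l 4)))) (T.c (T.b (T.a (T.b (T.l 2) (T.a (T.b (T.b (T.b (T.a (T.a (T.l 0) (T.a (T.l 0) (T.l 0))) (T.a (T.l 0) (T.l 0))) (T.l 139808)) (T.l 139808)) (T.l 174760)) (T.b (T.b (T.b (T.a (T.a (T.l 0) (T.l 0)) (T.a (T.l 0)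 (T.l 0))) (T.l 139808)) (T.l 139808)) (T.l 139808)))) (T.b (T.l 2) (T.a (T.b (T.b (T.b (T.b (T.a (T.a (T.l 0) (T.l 0)) (T.l 2)) (T.a (T.a (T.l 0) (T.l 0)) (T.a (T.l 0) (T.l 0)))) (T.l 139808)) (T.l 139808)) (T.l 139808)) (T.b (T.b (T.b (T.b (T.l 2) (T.a (T.a (T.l 0) (T.l 0)) (T.b (T.a (T.a (T.l 0) (T.l 0)) (T.b (T.l 2) (T.a (T.l 0) (T.a (T.l 0) (T.a (T.l 0) (T.l 0)))))) (T.l 24672)))) (T.a (T.l 8224) (T.l 8224))) (T.l 139808)) (T.l 139808))))) (T.b (T.b (T.b (T.a (T.l 174760) (T.l 174760)) (T.l 4)) (T.l 4)) (T.l 4))) (T.b (T.a (T.b (T.l 2) (T.a (T.b (T.b (T.b (T.a (T.a (T.l 0) (T.a (T.l 0) (T.l 0))) (T.a (T.l 0) (T.l 0))) (T.l 139808)) (T.l 139808)) (T.l 174760)) (T.b (T.b (T.b (T.a (T.a (T.l 0) (T.l 0)) (T.a (T.l 0) (T.l 0))) (T.l 139808)) (T.l 139808)) (T.l 139808)))) (T.b (T.l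 2) (T.a (T.b (T.b (T.b (T.b (T.a (T.a (T.l 0) (T.l 0)) (T.l 2)) (T.a (T.a (T.l 0) (T.l 0)) (T.a (T.l 0) (T.l 0)))) (T.l 139808)) (T.l 139808)) (T.l 139808)) (T.b (T.b (T.b (T.b (T.l 2) (T.a (T.a (T.l 0) (T.l 0)) (T.b (T.a (T.a (T.l 0) (T.l 0)) (T.b (T.l 2) (T.a (T.l 0) (T.a (T.l 0) (T.a (T.l 0) (T.l 0)))))) (T.l 24672)))) (T.a (T.l 8224) (T.l 8224))) (T.l 139808)) (T.l 139808))))) (T.b (T.b (T.a (T.a (T.l 174760) (T.l 174760)) (T.a (T.l 141992) (T.l 141864))) (T.l 4)) (T.l 4))))) (T.c (T.c (T.b (T.b (T.l 2) (T.a (T.a (T.b (T.b (T.b (T.a (T.a (T.l 0) (T.a (T.l 0) (T.l 0))) (T.a (T.l 0) (T.l 0))) (T.l 139808)) (T.l 139808)) (T.l 174760)) (T.b (T.b (T.b (T.a (T.a (T.l 0) (T.l 0)) (T.a (T.l 0) (T.l 0))) (T.l 139808)) (T.l 139808)) (T.l 139808))) (T.a (T.b (T.b (T.b (T.b (T.a (T.a (T.l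 0) (T.l 0)) (T.l 2)) (T.a (T.a (T.l 0) (T.l 0)) (T.a (T.l 0) (T.l 0)))) (T.l 139808)) (T.l 139808)) (T.l 139808)) (T.b (T.b (T.b (T.b (T.l 2) (T.a (T.a (T.l 0) (T.l 0)) (T.b (T.a (T.a (T.l 0) (T.l 0)) (T.b (T.l 2) (T.a (T.l 0) (T.a (T.l 0) (T.a (T.l 0) (T.l 0)))))) (T.l 8288)))) (T.a (T.l 8224) (T.l 8224))) (T.l 139808)) (T.l 139808))))) (T.b (T.b (T.a (T.a (T.l 174760) (T.l 174760)) (T.a (T.l 141992) (T.l 141864))) (T.l 4)) (T.l 4))) (T.b (T.b (T.l 2) (T.a (T.a (T.b (T.b (T.b (T.a (T.a (T.l 0) (T.a (T.l 0) (T.l 0))) (T.a (T.l 0) (T.l 0))) (T.l 139808)) (T.l 139808)) (T.l 174760)) (T.b (T.b (T.b (T.a (T.a (T.l 0) (T.l 0)) (T.a (T.l 0) (T.l 0))) (T.l 139808)) (T.l 139808)) (T.l 139808))) (T.a (T.b (T.b (T.b (T.b (T.a (T.a (T.l 0) (T.l 0)) (T.l 2)) (T.a (T.a (T.l 0) (T.l 0)) (T.a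 (T.l 0) (T.l 0)))) (T.l 139808)) (T.l 139808)) (T.l 139808)) (T.b (T.b (T.b (T.b (T.l 2) (T.a (T.a (T.l 0) (T.l 0)) (T.b (T.a (T.l 0) (T.b (T.l 2) (T.a (T.l 0) (T.a (T.l 0) (T.b (T.l 2) (T.l 96)))))) (T.l 8288)))) (T.a (T.l 8224) (T.l 8224))) (T.l 139808)) (T.l 139808))))) (T.b (T.b (T.a (T.a (T.l 174760) (T.l 174760)) (T.a (T.l 141992) (T.l 141864))) (T.l 4)) (T.l 4)))) (T.c (T.b (T.b (T.l 2) (T.a (T.a (T.b (T.b (T.b (T.a (T.a (T.l 0) (T.a (T.l 0) (T.l 0))) (T.a (T.l 0) (T.l 0))) (T.l 139808)) (T.l 139808)) (T.l 174760)) (T.b (T.b (T.b (T.a (T.a (T.l 0) (T.l 0)) (T.a (T.l 0) (T.l 0))) (T.l 139808)) (T.l 139808)) (T.l 139808))) (T.a (T.b (T.b (T.b (T.b (T.a (T.a (T.l 0) (T.l 0)) (T.l 2)) (T.a (T.a (T.l 0) (T.l 0)) (T.a (T.l 0) (T.l 0)))) (T.l 139808)) (T.l 139808)) (T.l 139808))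 (T.b (T.b (T.b (T.b (T.l 2) (T.a (T.a (T.l 0) (T.l 0)) (T.b (T.a (T.l 0) (T.b (T.l 2) (T.a (T.l 0) (T.a (T.l 0) (T.b (T.l 2) (T.l 96)))))) (T.l 8288)))) (T.a (T.l 8224) (T.l 8224))) (T.l 139808)) (T.l 139808))))) (T.b (T.b (T.a (T.a (T.l 174760) (T.l 174760)) (T.a (T.l 139944) (T.l 139816))) (T.l 4)) (T.l 4))) (T.b (T.b (T.l 2) (T.a (T.a (T.b (T.b (T.b (T.a (T.a (T.l 0) (T.a (T.l 0) (T.l 0))) (T.a (T.l 0) (T.l 0))) (T.l 139808)) (T.l 139808)) (T.l 174760)) (T.b (T.b (T.b (T.a (T.a (T.l 0) (T.l 0)) (T.a (T.l 0) (T.l 0))) (T.l 139808)) (T.l 139808)) (T.l 139808))) (T.a (T.b (T.b (T.b (T.b (T.a (T.a (T.l 0) (T.l 0)) (T.l 2)) (T.a (T.a (T.l 0) (T.l 0)) (T.a (T.l 0) (T.l 0)))) (T.l 139808)) (T.l 139808)) (T.l 139808)) (T.b (T.b (T.b (T.b (T.l 2) (T.a (T.a (T.l 0) (T.l 0)) (T.b (T.a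 (T.l 0) (T.b (T.l 2) (T.a (T.l 0) (T.a (T.l 0) (T.b (T.l 2) (T.l 96)))))) (T.l 8288)))) (T.a (T.l 8224) (T.l 8224))) (T.l 139808)) (T.l 139808))))) (T.b (T.b (T.a (T.a (T.l 174760) (T.l 174760)) (T.a (T.l 139944) (T.l 139816))) (T.l 4)) (T.l 4)))))) (T.c (T.c (T.c (T.b (T.b (T.l 2) (T.a (T.a (T.b (T.b (T.b (T.a (T.a (T.l 0) (T.a (T.l 0) (T.l 0))) (T.a (T.l 0) (T.l 0))) (T.l 139808)) (T.l 139808)) (T.l 174760)) (T.b (T.b (T.b (T.a (T.a (T.l 0) (T.l 0)) (T.a (T.l 0) (T.l 0))) (T.l 139808)) (T.l 139808)) (T.l 139808))) (T.a (T.b (T.b (T.b (T.b (T.a (T.a (T.l 0) (T.l 0)) (T.l 2)) (T.a (T.a (T.l 0) (T.l 0)) (T.a (T.l 0) (T.l 0)))) (T.l 139808)) (T.l 139808)) (T.l 139808)) (T.b (T.b (T.b (T.b (T.l 2) (T.a (T.a (T.l 0) (T.l 0)) (T.b (T.a (T.l 0) (T.b (T.l 2) (T.a (T.l 0) (T.a (T.l 0)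 (T.b (T.l 2) (T.l 96)))))) (T.l 8288)))) (T.a (T.l 8224) (T.l 8224))) (T.l 139808)) (T.l 139808))))) (T.b (T.b (T.a (T.a (T.l 174760) (T.l 174760)) (T.a (T.l 139944) (T.l 139816))) (T.l 4)) (T.l 4))) (T.b (T.b (T.l 2) (T.a (T.a (T.b (T.b (T.b (T.a (T.a (T.l 0) (T.a (T.l 0) (T.l 0))) (T.a (T.l 0) (T.l 0))) (T.l 139808)) (T.l 139808)) (T.l 174760)) (T.b (T.b (T.b (T.a (T.a (T.l 0) (T.l 0)) (T.a (T.l 0) (T.l 0))) (T.l 139808)) (T.l 139808)) (T.l 139808))) (T.a (T.b (T.b (T.b (T.b (T.a (T.a (T.l 0) (T.l 0)) (T.l 2)) (T.a (T.a (T.l 0) (T.l 0)) (T.a (T.l 0) (T.l 0)))) (T.l 139808)) (T.l 139808)) (T.l 139808)) (T.b (T.b (T.b (T.b (T.l 2) (T.a (T.a (T.l 0) (T.l 0)) (T.b (T.a (T.l 0) (T.b (T.l 2) (T.a (T.l 0) (T.a (T.l 0) (T.b (T.l 2) (T.l 96)))))) (T.l 8288)))) (T.a (T.l 8224) (T.l 8224)))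 (T.l 139808)) (T.l 139808))))) (T.b (T.b (T.a (T.a (T.l 174760) (T.l 141992)) (T.a (T.l 139944) (T.l 139816))) (T.l 4)) (T.l 4)))) (T.c (T.b (T.b (T.l 2) (T.a (T.a (T.b (T.b (T.b (T.a (T.a (T.l 0) (T.a (T.l 0) (T.l 0))) (T.a (T.l 0) (T.l 0))) (T.l 139808)) (T.l 139808)) (T.l 141992)) (T.b (T.b (T.b (T.a (T.a (T.l 0) (T.l 0)) (T.a (T.l 0) (T.l 0))) (T.l 139808)) (T.l 139808)) (T.l 139808))) (T.a (T.b (T.b (T.b (T.b (T.a (T.a (T.l 0) (T.l 0)) (T.l 2)) (T.a (T.a (T.l 0) (T.l 0)) (T.a (T.l 0) (T.l 0)))) (T.l 139808)) (T.l 139808)) (T.l 139808)) (T.b (T.b (T.b (T.b (T.l 2) (T.a (T.a (T.l 0) (T.l 0)) (T.b (T.a (T.l 0) (T.b (T.l 2) (T.a (T.l 0) (T.a (T.l 0) (T.b (T.l 2) (T.l 96)))))) (T.l 8288)))) (T.a (T.l 8224) (T.l 8224))) (T.l 139808)) (T.l 139808))))) (T.b (T.b (T.a (T.a (T.l 174760)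 (T.l 141992)) (T.l 174760)) (T.l 4)) (T.l 4))) (T.b (T.b (T.l 2) (T.a (T.a (T.b (T.b (T.b (T.a (T.a (T.l 0) (T.a (T.l 0) (T.l 0))) (T.a (T.l 0) (T.l 0))) (T.l 139808)) (T.l 139808)) (T.l 141992)) (T.b (T.b (T.b (T.a (T.a (T.l 0) (T.l 0)) (T.a (T.l 0) (T.l 0))) (T.l 139808)) (T.l 139808)) (T.l 139808))) (T.a (T.b (T.b (T.b (T.b (T.a (T.a (T.l 0) (T.l 0)) (T.l 2)) (T.a (T.a (T.l 0) (T.l 0)) (T.a (T.l 0) (T.l 0)))) (T.l 139808)) (T.l 139808)) (T.l 139808)) (T.b (T.b (T.b (T.b (T.l 2) (T.a (T.a (T.l 0) (T.l 0)) (T.b (T.a (T.l 0) (T.b (T.l 2) (T.a (T.l 0) (T.a (T.l 0) (T.b (T.l 2) (T.l 96)))))) (T.l 8288)))) (T.a (T.l 8224) (T.l 8224))) (T.l 139808)) (T.l 139808))))) (T.b (T.b (T.a (T.a (T.l 174760) (T.l 141992)) (T.l 174760)) (T.l 4)) (T.l 4))))) (T.c (T.c (T.b (T.b (T.l 2) (T.a (T.a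 (T.b (T.b (T.b (T.a (T.a (T.l 0) (T.a (T.l 0) (T.l 0))) (T.a (T.l 0) (T.l 0))) (T.l 139808)) (T.l 139808)) (T.l 141992)) (T.b (T.b (T.b (T.a (T.a (T.l 0) (T.l 0)) (T.a (T.l 0) (T.l 0))) (T.l 139808)) (T.l 139808)) (T.l 139808))) (T.a (T.b (T.b (T.b (T.b (T.a (T.a (T.l 0) (T.l 0)) (T.l 2)) (T.a (T.a (T.l 0) (T.l 0)) (T.a (T.l 0) (T.l 0)))) (T.l 139808)) (T.l 139808)) (T.l 139808)) (T.b (T.b (T.b (T.b (T.l 2) (T.a (T.a (T.l 0) (T.l 0)) (T.b (T.a (T.l 0) (T.b (T.l 2) (T.a (T.l 0) (T.a (T.l 0) (T.b (T.l 2) (T.l 96)))))) (T.l 8288)))) (T.a (T.l 8224) (T.l 8224))) (T.l 139808)) (T.l 139808))))) (T.b (T.b (T.a (T.a (T.l 174760) (T.l 141992)) (T.l 174760)) (T.l 4)) (T.l 4))) (T.b (T.b (T.l 2) (T.a (T.a (T.b (T.b (T.b (T.a (T.a (T.l 0) (T.a (T.l 0) (T.l 0))) (T.a (T.l 0) (T.l 0))) (T.l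 139808)) (T.l 139808)) (T.l 141992)) (T.b (T.b (T.b (T.a (T.a (T.l 0) (T.l 0)) (T.a (T.l 0) (T.l 0))) (T.l 139808)) (T.l 139808)) (T.l 139808))) (T.a (T.b (T.b (T.b (T.b (T.a (T.a (T.l 0) (T.l 0)) (T.l 2)) (T.a (T.a (T.l 0) (T.l 0)) (T.a (T.l 0) (T.l 0)))) (T.l 139808)) (T.l 139808)) (T.l 139808)) (T.b (T.b (T.b (T.b (T.l 2) (T.a (T.a (T.l 0) (T.l 0)) (T.b (T.a (T.l 0) (T.b (T.l 2) (T.a (T.l 0) (T.a (T.l 0) (T.b (T.l 2) (T.l 96)))))) (T.l 8288)))) (T.a (T.l 8224) (T.l 8224))) (T.l 139808)) (T.l 139808))))) (T.b (T.b (T.a (T.a (T.l 174760) (T.l 141992)) (T.l 174760)) (T.l 4)) (T.l 4)))) (T.c (T.b (T.b (T.l 2) (T.a (T.a (T.b (T.b (T.b (T.a (T.a (T.l 0) (T.a (T.l 0) (T.l 0))) (T.a (T.l 0) (T.l 0))) (T.l 139808)) (T.l 139808)) (T.l 141992)) (T.b (T.b (T.b (T.a (T.a (T.l 0) (T.l 0))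 (T.a (T.l 0) (T.l 0))) (T.l 139808)) (T.l 139808)) (T.l 139808))) (T.a (T.b (T.b (T.b (T.b (T.a (T.a (T.l 0) (T.l 0)) (T.l 2)) (T.a (T.a (T.l 0) (T.l 0)) (T.a (T.l 0) (T.l 0)))) (T.l 139808)) (T.l 139808)) (T.l 139808)) (T.b (T.b (T.b (T.b (T.l 2) (T.a (T.a (T.l 0) (T.l 0)) (T.b (T.a (T.l 0) (T.b (T.l 2) (T.a (T.l 0) (T.a (T.l 0) (T.b (T.l 2) (T.l 96)))))) (T.l 8288)))) (T.a (T.l 8224) (T.l 8224))) (T.l 139808)) (T.l 139808))))) (T.b (T.b (T.a (T.a (T.l 174760) (T.l 141992)) (T.l 174760)) (T.l 4)) (T.l 4))) (T.b (T.b (T.l 2) (T.a (T.a (T.b (T.b (T.b (T.a (T.a (T.l 0) (T.l 0)) (T.a (T.l 0) (T.l 0))) (T.l 139808)) (T.l 139808)) (T.l 141864)) (T.b (T.b (T.b (T.a (T.a (T.l 0) (T.l 0)) (T.a (T.l 0) (T.l 0))) (T.l 139808)) (T.l 139808)) (T.l 139808))) (T.a (T.b (T.b (T.b (T.b (T.a (T.a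 (T.l 0) (T.l 0)) (T.l 2)) (T.a (T.a (T.l 0) (T.l 0)) (T.a (T.l 0) (T.l 0)))) (T.l 139808)) (T.l 139808)) (T.l 139808)) (T.b (T.b (T.b (T.b (T.l 2) (T.a (T.a (T.l 0) (T.l 0)) (T.b (T.a (T.l 0) (T.b (T.l 2) (T.a (T.l 0) (T.a (T.l 0) (T.b (T.l 2) (T.l 96)))))) (T.l 8288)))) (T.a (T.l 8224) (T.l 8224))) (T.l 139808)) (T.l 139808))))) (T.b (T.b (T.a (T.a (T.l 174760) (T.l 141992)) (T.l 174760)) (T.l 4)) (T.l 4)))))))) (T.l 4))) (T.l 4)), by decide +kernel⟩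

end Pool.Agent.Strip051.G.I9625_9688.Tab.DG
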