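import Pool.Agent.Strip051.G.I9625_9688.DgP

/-! # The corner (1, 1, 2): certificates of the degenerate charts (generated) -/

set_option linter.all false

namespace Pool.Agent.Strip051.G.I9625_9688.Tab.DG

open Pool.Agent.Strip051.PB Pool.Agent.Strip051.PB.Dg Pool.Agent.StripNear Pool.Agent.Strip051.LC

theorem cNB5 : ∃ t, chk3 (onCell 0 71179700 0 2684354560 1033476505 6710887 (fdBW pN qN (dgSC pN) (suC qN))) t 1 1 1 = true :=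
  ⟨(T.b (T.b (T.l 2) (T.b (T.l 2) (T.a (T.a (T.l 0) (T.b (T.a (T.a (T.l 0) (T.a (T.l 0) (T.l 0))) (T.b (T.b (T.l 2) (T.a (T.l 0) (T.l 0))) (T.a (T.l 174760) (T.l 174760)))) (T.b (T.a (T.l 174760) (T.l 174760)) (T.l 4)))) (T.a (T.c (T.c (T.a (T.b (T.b (T.a (T.l 0) (T.l 0)) (T.a (T.l 0) (T.l 0))) (T.a (T.l 174760) (T.l 174760))) (T.c (T.b (T.b (T.a (T.l 0) (T.l 0)) (T.a (T.l 136) (T.l 136))) (T.a (T.l 174760) (T.l 174760))) (T.b (T.b (T.a (T.l 0) (T.l 0)) (T.a (T.l 136) (T.l 136))) (T.a (T.l 174760) (T.l 174760))))) (T.a (T.b (T.b (T.a (T.l 0) (T.l 0)) (T.a (T.l 0) (T.l 136))) (T.a (T.l 174760) (T.l 174760))) (T.c (T.b (T.b (T.a (T.l 0) (T.l 0)) (T.a (T.l 136) (T.l 136))) (T.a (T.l 174760) (T.l 174760))) (T.b (T.b (T.a (T.l 0) (T.l 0)) (T.a (T.l 136) (T.l 34952))) (T.a (T.l 174760) (T.l 174760)))))) (T.c (T.a (T.b (T.b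 (T.a (T.l 0) (T.l 0)) (T.a (T.l 128) (T.l 136))) (T.a (T.l 174760) (T.l 174760))) (T.c (T.b (T.b (T.a (T.l 0) (T.l 0)) (T.a (T.l 136) (T.l 34952))) (T.a (T.l 174760) (T.l 174760))) (T.b (T.b (T.a (T.l 0) (T.l 0)) (T.a (T.l 136) (T.l 34952))) (T.a (T.l 174760) (T.l 174760))))) (T.a (T.b (T.b (T.a (T.l 0) (T.l 0)) (T.a (T.l 136) (T.l 136))) (T.a (T.l 174760) (T.l 174760))) (T.c (T.b (T.b (T.a (T.l 0) (T.l 0)) (T.a (T.l 34952) (T.l 34952))) (T.a (T.l 174760) (T.l 174760))) (T.b (T.b (T.a (T.l 0) (T.l 0)) (T.a (T.l 34952) (T.l 34952))) (T.a (T.l 174760) (T.l 174760))))))) (T.a (T.b (T.a (T.c (T.b (T.a (T.l 0) (T.l 0)) (T.l 174760)) (T.b (T.a (T.l 0) (T.l 0)) (T.l 174760))) (T.b (T.a (T.l 0) (T.l 0)) (T.a (T.l 34952) (T.l 35496)))) (T.a (T.a (T.l 174760) (T.l 174760)) (T.l 6))) (T.a (T.b (T.b (T.b (T.l 2) (T.a (T.l 0) (T.l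 6))) (T.l 6)) (T.l 5)) (T.l 6))))))) (T.l 4)), by decide +kernel⟩
theorem cNP3 : ∃ t, chk3 (onCell 0 71179700 0 1073741824 1033476505 6710887 (fdPW pN qN (ndUR ndN3) (suR ndN3))) t 1 1 1 = true :=
  ⟨(T.b (T.a (T.b (T.b (T.b (T.b (T.l 8224) (T.b (T.l 32) (T.c (T.l 0) (T.l 0)))) (T.b (T.c (T.l 0) (T.l 0)) (T.l 2))) (T.l 2)) (T.l 2)) (T.b (T.b (T.b (T.l 8736) (T.b (T.a (T.b (T.l 0) (T.l 2)) (T.c (T.l 0) (T.l 0))) (T.l 2))) (T.l 2)) (T.l 2))) (T.l 2)), by decide +kernel⟩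
theorem cNP4 : ∃ t, chk3 (onCell 0 71179700 0 1073741824 1033476505 6710887 (fdPW pN qN (ndUR ndN4) (suR ndN4))) t 1 1 1 = true :=
  ⟨(T.a (T.a (T.b (T.l 139808) (T.b (T.b (T.l 0) (T.l 0)) (T.l 2))) (T.b (T.l 139808) (T.b (T.b (T.l 0) (T.a (T.l 0) (T.a (T.l 0) (T.l 0)))) (T.l 2)))) (T.b (T.a (T.l 174760) (T.a (T.l 174760) (T.l 174760))) (T.c (T.a (T.b (T.b (T.l 174760) (T.a (T.a (T.l 0) (T.a (T.l 0) (T.l 0))) (T.b (T.l 139808) (T.a (T.l 0) (T.l 0))))) (T.l 2)) (T.a (T.b (T.b (T.l 139808) (T.b (T.l 32) (T.a (T.l 0) (T.l 0)))) (T.l 2)) (T.b (T.b (T.l 139808) (T.b (T.l 8224) (T.a (T.l 0) (T.l 0)))) (T.l 2)))) (T.b (T.a (T.b (T.l 174760) (T.a (T.b (T.l 544) (T.a (T.l 0) (T.l 0))) (T.b (T.l 139808) (T.a (T.l 0) (T.l 0))))) (T.b (T.l 174760) (T.b (T.a (T.l 8736) (T.l 8224)) (T.b (T.a (T.l 0) (T.l 32)) (T.l 2))))) (T.l 2))))),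 by decide +kernel⟩
theorem cNP5 : ∃ t, chk3 (onCell 0 71179700 0 1073741824 1033476505 6710887 (fdPW pN qN (dgSC pN) (suC qN))) t 1 1 1 = true :=
  ⟨(T.a (T.a (T.b (T.l 139808) (T.b (T.l 139808) (T.l 0))) (T.b (T.l 174760) (T.a (T.b (T.l 139808) (T.l 0)) (T.b (T.l 174760) (T.b (T.l 174760) (T.a (T.l 139808) (T.l 174760))))))) (T.b (T.a (T.l 174760) (T.l 174760)) (T.c (T.a (T.a (T.b (T.l 174760) (T.b (T.l 174760) (T.a (T.l 174760) (T.l 139944)))) (T.b (T.l 174760) (T.b (T.l 174760) (T.a (T.l 139944) (T.l 174760))))) (T.b (T.l 174760) (T.b (T.a (T.l 174760) (T.l 174760)) (T.a (T.a (T.l 174760) (T.l 174760)) (T.a (T.l 174760) (T.l 174760)))))) (T.a (T.a (T.b (T.l 174760) (T.b (T.l 174760) (T.a (T.l 174760) (T.l 174760)))) (T.b (T.l 174760) (T.b (T.l 174760) (T.a (T.l 174760) (T.l 174760))))) (T.b (T.l 174760) (T.b (T.a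 (T.l 174760) (T.l 174760)) (T.a (T.a (T.l 174760) (T.l 174760)) (T.a (T.l 174760) (T.l 174760))))))))), by decide +kernel⟩
theorem cNC1 : ∃ t, chk3 (onCell 0 71179700 0 1073741824 1033476505 6710887 (fdCW pN qN ndN2 (thLo (ndUL pN ndN2) (ndUR ndN3)) (tuLo (ndUL pN ndN2) (ndUR ndN3) (suL qN ndN2) (suR ndN3)) cvN1 cFsDD1 (ndUR ndN3))) t 1 1 1 = true :=
  ⟨(T.b (T.b (T.b (T.a (T.b (T.b (T.b (T.b (T.a (T.c (T.l 0) (T.l 0)) (T.c (T.l 0) (T.l 0))) (T.l 8224)) (T.l 8224)) (T.l 1)) (T.l 1)) (T.b (T.b (T.b (T.b (T.a (T.c (T.l 0) (T.a (T.l 0) (T.l 0))) (T.b (T.c (T.a (T.l 0) (T.l 0)) (T.a (T.l 0) (T.l 0))) (T.l 8224))) (T.l 8224)) (T.l 8224)) (T.l 1)) (T.l 1))) (T.l 1)) (T.l 1)) (T.l 1)), by decide +kernel⟩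
theorem cNC2 : ∃ t, chk3 (onCell 0 71179700 0 1073741824 1033476505 6710887 (fdCW pN qN ndN2 (thLo (ndUL pN ndN2) (ndUR ndN3)) (tuLo (ndUL pN ndN2) (ndUR ndN3) (suL qN ndN2) (suR ndN3)) cvN2 cFsDD2 (ndUR ndN3))) t 1 1 1 = true :=
  ⟨(T.b (T.b (T.b (T.a (T.b (T.b (T.b (T.b (T.a (T.c (T.l 0) (T.l 0)) (T.c (T.l 0) (T.l 0))) (T.l 8224)) (T.l 8224)) (T.l 1)) (T.l 1)) (T.b (T.b (T.b (T.b (T.a (T.c (T.l 0) (T.a (T.l 0) (T.l 0))) (T.b (T.c (T.a (T.l 0) (T.l 0)) (T.a (T.l 0) (T.l 0))) (T.l 8224))) (T.l 8224)) (T.l 8224)) (T.l 1)) (T.l 1))) (T.l 1)) (T.l 1)) (T.l 1)), by decide +kernel⟩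

end Pool.Agent.Strip051.G.I9625_9688.Tab.DG
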