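import Pool.Agent.Strip051.PB.Cuts
import Pool.Agent.Strip051.PB.WinG

/-! # Tables I9625_9688 (generated) -/

namespace Pool.Agent.Strip051.G.I9625_9688.Tab

open Pool.Agent.Strip051.PB

noncomputable def c1g : Fn1 := ⟨_, _, fun h1 => (enc_sqrtg (enc_sub (enc_pnc _ 1) (enc_scaleT 3 4 (enc_sq h1))))⟩
noncomputable def kcg_3 : Fn2 := ⟨_, _, fun h1 h2 => (enc_subr 309 320 h2)⟩
noncomputable def kcg_9 : Fn2 := ⟨_, _, fun h1 h2 => (enc_add h1 (enc_rat _ 587 1262))⟩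
noncomputable def kcg_10 : Fn2 := ⟨_, _, fun h1 h2 => (enc_scaleT 23016928317 2200000000 h1)⟩
noncomputable def kcg_15 : Fn2 := ⟨_, _, fun h1 h2 => (enc_scaleT 9337451553 55000000 h1)⟩
noncomputable def kcg_24 : Fn2 := ⟨_, _, fun h1 h2 => (enc_add h1 (enc_rat _ 1 2))⟩
noncomputable def kcg_25 : Fn2 := ⟨_, _, fun h1 h2 => (enc_sub (enc_neg (enc_rat _ 587 1262)) h1)⟩
noncomputable def kcg_34 : Fn2 := ⟨_, _, fun h1 h2 => (enc_add h1 (enc_rat _ 2507 5707))⟩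
noncomputable def kcg_35 : Fn2 := ⟨_, _, fun h1 h2 => (enc_scaleT 922210041726649 93087500000000 h1)⟩
noncomputable def kcg_38 : Fn2 := ⟨_, _, fun h1 h2 => (enc_scaleT 1580363674430931 9308750000000 h1)⟩
noncomputable def kcg_45 : Fn2 := ⟨_, _, fun h1 h2 => (enc_sub (enc_neg (enc_rat _ 2507 5707)) h1)⟩
noncomputable def kcg_52 : Fn2 := ⟨_, _, fun h1 h2 => (enc_scaleT 7778372771 1698437500 h1)⟩
noncomputable def kcg_57 : Fn2 := ⟨_, _, fun h1 h2 => (enc_scaleT 49124195263 679375000 h1)⟩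
noncomputable def kcg_65 : Fn2 := ⟨_, _, fun h1 h2 => (enc_add (enc_scaleT 3411387 500 (kcg_3.enc h1 h2)) (enc_rat _ 17567879 10000))⟩
noncomputable def kcg_66 : Fn2 := ⟨_, _, fun h1 h2 => (enc_sub (enc_neg (enc_rat _ 17 40)) h1)⟩
noncomputable def kcg_75 : Fn2 := ⟨_, _, fun h1 h2 => (enc_add h1 (enc_rat _ 3 10))⟩
noncomputable def kcg_78 : Fn2 := ⟨_, _, fun h1 h2 => (enc_add h1 (enc_rat _ 41 100))⟩
noncomputable def kcg_79 : Fn2 := ⟨_, _, fun h1 h2 => (enc_scaleT 14837797 500000 h1)⟩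
noncomputable def kcg_84 : Fn2 := ⟨_, _, fun h1 h2 => (enc_scaleT 6289 250 h1)⟩
noncomputable def kcg_91 : Fn2 := ⟨_, _, fun h1 h2 => (enc_scaleT 8037967 1000000 h1)⟩
noncomputable def kcg_96 : Fn2 := ⟨_, _, fun h1 h2 => (enc_scaleT 184449 10000 h1)⟩
noncomputable def kcg_105 : Fn2 := ⟨_, _, fun h1 h2 => (enc_scaleT 6101 100 (kcg_3.enc h1 h2))⟩
noncomputable def kcg_109 : Fn2 := ⟨_, _, fun h1 h2 => (enc_subr 1967057 10000 (enc_neg (kcg_105.enc h1 h2)))⟩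
noncomputable def kcg_110 : Fn2 := ⟨_, _, fun h1 h2 => (enc_sub (enc_neg (enc_rat _ 3 10)) h1)⟩
noncomputable def kcg_119 : Fn2 := ⟨_, _, fun h1 h2 => (enc_scaleT 961031 100000 h1)⟩
noncomputable def kcg_122 : Fn2 := ⟨_, _, fun h1 h2 => (enc_scaleT 2341 5000 h1)⟩
noncomputable def kcg_129 : Fn2 := ⟨_, _, fun h1 h2 => (enc_sub (enc_rat _ 49867 2500) (kcg_105.enc h1 h2))⟩
noncomputable def kcg_130 : Fn2 := ⟨_, _, fun h1 h2 => (enc_sub (enc_neg (enc_rat _ 1 10)) h1)⟩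
noncomputable def kcg_135 : Fn2 := ⟨_, _, fun h1 h2 => (enc_scaleT 35131 6250 h1)⟩
noncomputable def kcg_138 : Fn2 := ⟨_, _, fun h1 h2 => (enc_mul (enc_norm (kcg_3.enc h1 h2)) (enc_scaleT 63351 5000 h1))⟩
noncomputable def kcg_145 : Fn2 := ⟨_, _, fun h1 h2 => (enc_sub (enc_rat _ 587 1262) h1)⟩
noncomputable def kcg_151 : Fn2 := ⟨_, _, fun h1 h2 => (enc_sub (enc_rat _ 1 2) h1)⟩
noncomputable def kcg_152 : Fn2 := ⟨_, _, fun h1 h2 => (enc_subr 587 1262 h1)⟩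
noncomputable def kcg_159 : Fn2 := ⟨_, _, fun h1 h2 => (enc_sub (enc_rat _ 2507 5707) h1)⟩
noncomputable def kcg_166 : Fn2 := ⟨_, _, fun h1 h2 => (enc_subr 2507 5707 h1)⟩
noncomputable def kcg_178 : Fn2 := ⟨_, _, fun h1 h2 => (enc_subr 17 40 h1)⟩
noncomputable def kcg_185 : Fn2 := ⟨_, _, fun h1 h2 => (enc_sub (enc_rat _ 3 10) h1)⟩
noncomputable def kcg_186 : Fn2 := ⟨_, _, fun h1 h2 => (enc_sub (enc_rat _ 41 100) h1)⟩
noncomputable def kcg_195 : Fn2 := ⟨_, _, fun h1 h2 => (enc_subr 3 10 h1)⟩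
noncomputable def kcg_208 : Fn2 := ⟨_, _, fun h1 h2 => (enc_subr 1 10 h1)⟩
noncomputable def kcg : Fn2 := ⟨_, _, fun h1 h2 => (enc_norm (enc_case h1 (enc_case (enc_add h1 (enc_rat _ 17 40)) (enc_case (kcg_9.enc h1 h2) (enc_sub (enc_add (enc_subr 136661073451 22000000000 (enc_neg (kcg_10.enc h1 h2))) (enc_mul (enc_norm (kcg_3.enc h1 h2)) (enc_norm (enc_add (kcg_15.enc h1 h2) (enc_rat _ 82050027949 1100000000))))) (enc_mA (enc_scaleT 2799323 10000 (enc_mul (enc_norm (kcg_24.enc h1 h2)) (enc_norm (kcg_25.enc h1 h2)))) (enc_rat _ 2799323 10000) (kcg_24.enc h1 h2) (kcg_25.enc h1 h2) rfl)) (enc_case (kcg_34.enc h1 h2) (enc_sub (enc_add (enc_add (kcg_35.enc h1 h2) (enc_rat _ 303701179243349 93087500000000)) (enc_mul (enc_norm (kcg_3.enc h1 h2)) (enc_norm (enc_add (kcg_38.enc h1 h2) (enc_rat _ 694348361093131 9308750000000))))) (enc_mA (enc_scaleT 1026053 2500 (enc_mul (enc_norm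 (kcg_9.enc h1 h2)) (enc_norm (kcg_45.enc h1 h2)))) (enc_rat _ 1026053 2500) (kcg_9.enc h1 h2) (kcg_45.enc h1 h2) rfl)) (enc_add (enc_add (enc_subr 421379608169 135875000000 (enc_neg (kcg_52.enc h1 h2))) (enc_mul (enc_norm (kcg_3.enc h1 h2)) (enc_norm (enc_add (kcg_57.enc h1 h2) (enc_rat _ 215881503949 6793750000))))) (enc_mA (enc_mul (enc_norm (kcg_65.enc h1 h2)) (enc_norm (enc_mul (enc_norm (kcg_34.enc h1 h2)) (enc_norm (kcg_66.enc h1 h2))))) (kcg_65.enc h1 h2) (kcg_34.enc h1 h2) (kcg_66.enc h1 h2) rfl)))) (enc_case (kcg_75.enc h1 h2) (enc_case (kcg_78.enc h1 h2) (enc_add (enc_subr 1376697517 100000000 (enc_neg (kcg_79.enc h1 h2))) (enc_mul (enc_norm (kcg_3.enc h1 h2)) (enc_norm (enc_subr 9645681 1000000 (enc_neg (kcg_84.enc h1 h2)))))) (enc_add (enc_add (enc_subr 48955481 10000000 (enc_neg (kcg_91.enc h1 h2))) (enc_mul (enc_norm (kcg_3.enc h1 h2)) (enc_norm (enc_subr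 689413 100000 (enc_neg (kcg_96.enc h1 h2)))))) (enc_mA (enc_mul (enc_norm (kcg_109.enc h1 h2)) (enc_norm (enc_mul (enc_norm (kcg_78.enc h1 h2)) (enc_norm (kcg_110.enc h1 h2))))) (kcg_109.enc h1 h2) (kcg_78.enc h1 h2) (kcg_110.enc h1 h2) rfl))) (enc_case (enc_add h1 (enc_rat _ 1 10)) (enc_add (enc_add (enc_add (kcg_119.enc h1 h2) (enc_rat _ 79787 200000)) (enc_mul (enc_norm (kcg_3.enc h1 h2)) (enc_norm (enc_subr 6101 5000 (kcg_122.enc h1 h2))))) (enc_mA (enc_mul (enc_norm (kcg_129.enc h1 h2)) (enc_norm (enc_mul (enc_norm (kcg_75.enc h1 h2)) (enc_norm (kcg_130.enc h1 h2))))) (kcg_129.enc h1 h2) (kcg_75.enc h1 h2) (kcg_130.enc h1 h2) rfl)) (enc_add (kcg_135.enc h1 h2) (kcg_138.enc h1 h2))))) (enc_neg (enc_case (enc_sub (enc_rat _ 17 40) h1) (enc_case (kcg_145.enc h1 h2) (enc_sub (enc_add (enc_subr 136661073451 22000000000 (kcg_10.enc h1 h2)) (enc_mul (enc_norm (kcg_3.enc h1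 h2)) (enc_norm (enc_sub (enc_rat _ 82050027949 1100000000) (kcg_15.enc h1 h2))))) (enc_mA (enc_scaleT 2799323 10000 (enc_mul (enc_norm (kcg_151.enc h1 h2)) (enc_norm (kcg_152.enc h1 h2)))) (enc_rat _ 2799323 10000) (kcg_151.enc h1 h2) (kcg_152.enc h1 h2) rfl)) (enc_case (kcg_159.enc h1 h2) (enc_sub (enc_add (enc_sub (enc_rat _ 303701179243349 93087500000000) (kcg_35.enc h1 h2)) (enc_mul (enc_norm (kcg_3.enc h1 h2)) (enc_norm (enc_sub (enc_rat _ 694348361093131 9308750000000) (kcg_38.enc h1 h2))))) (enc_mA (enc_scaleT 1026053 2500 (enc_mul (enc_norm (kcg_145.enc h1 h2)) (enc_norm (kcg_166.enc h1 h2)))) (enc_rat _ 1026053 2500) (kcg_145.enc h1 h2) (kcg_166.enc h1 h2) rfl)) (enc_add (enc_add (enc_subr 421379608169 135875000000 (kcg_52.enc h1 h2)) (enc_mul (enc_norm (kcg_3.enc h1 h2)) (enc_norm (enc_sub (enc_rat _ 215881503949 6793750000) (kcg_57.enc h1 h2))))) (enc_mA (enc_mul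 (enc_norm (kcg_65.enc h1 h2)) (enc_norm (enc_mul (enc_norm (kcg_159.enc h1 h2)) (enc_norm (kcg_178.enc h1 h2))))) (kcg_65.enc h1 h2) (kcg_159.enc h1 h2) (kcg_178.enc h1 h2) rfl)))) (enc_case (kcg_185.enc h1 h2) (enc_case (kcg_186.enc h1 h2) (enc_add (enc_subr 1376697517 100000000 (kcg_79.enc h1 h2)) (enc_mul (enc_norm (kcg_3.enc h1 h2)) (enc_norm (enc_subr 9645681 1000000 (kcg_84.enc h1 h2))))) (enc_add (enc_add (enc_subr 48955481 10000000 (kcg_91.enc h1 h2)) (enc_mul (enc_norm (kcg_3.enc h1 h2)) (enc_norm (enc_subr 689413 100000 (kcg_96.enc h1 h2))))) (enc_mA (enc_mul (enc_norm (kcg_109.enc h1 h2)) (enc_norm (enc_mul (enc_norm (kcg_186.enc h1 h2)) (enc_norm (kcg_195.enc h1 h2))))) (kcg_109.enc h1 h2) (kcg_186.enc h1 h2) (kcg_195.enc h1 h2) rfl))) (enc_case (enc_sub (enc_rat _ 1 10) h1) (enc_add (enc_add (enc_sub (enc_rat _ 79787 200000) (kcg_119.enc h1 h2)) (enc_mul (enc_norm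 (kcg_3.enc h1 h2)) (enc_norm (enc_subr 6101 5000 (enc_neg (kcg_122.enc h1 h2)))))) (enc_mA (enc_mul (enc_norm (kcg_129.enc h1 h2)) (enc_norm (enc_mul (enc_norm (kcg_185.enc h1 h2)) (enc_norm (kcg_208.enc h1 h2))))) (kcg_129.enc h1 h2) (kcg_185.enc h1 h2) (kcg_208.enc h1 h2) rfl)) (enc_sub (enc_neg (kcg_135.enc h1 h2)) (kcg_138.enc h1 h2))))))))⟩
noncomputable def kf0q0_9 : Fn2 := ⟨_, _, fun h1 h2 => (enc_scaleT 3 2 h1)⟩
noncomputable def kf0q0_12 : Fn2 := ⟨_, _, fun h1 h2 => (enc_add (enc_pnc _ 1) (c1g.enc h1))⟩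
noncomputable def kf0q0 : Fn2 := ⟨_, _, fun h1 h2 => (enc_norm (enc_add (enc_mul (enc_norm (enc_mul (enc_norm (enc_sub (c1g.enc h1) (kf0q0_9.enc h1 h2))) (enc_norm (kf0q0_12.enc h1 h2)))) (enc_inv (enc_sub (kf0q0_12.enc h1 h2) (kf0q0_9.enc h1 h2)))) (enc_mul h1 (kcg.enc (enc_norm (enc_sub (enc_scaleT 3 4 h1) (enc_half (c1g.enc h1)))) h2))))⟩
noncomputable def txg_4 : Fn3 := ⟨_, _, fun h1 h2 h3 => (enc_subr 309 320 h3)⟩
noncomputable def txg_6 : Fn3 := ⟨_, _, fun h1 h2 h3 => (enc_add h1 (enc_half h2))⟩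
noncomputable def txg_26 : Fn3 := ⟨_, _, fun h1 h2 h3 => (enc_add h1 (enc_rat _ 1 5))⟩
noncomputable def txg_29 : Fn3 := ⟨_, _, fun h1 h2 h3 => (enc_add h1 (enc_rat _ 21 50))⟩
noncomputable def txg_32 : Fn3 := ⟨_, _, fun h1 h2 h3 => (enc_add h1 (enc_rat _ 93027 200000))⟩
noncomputable def txg_35 : Fn3 := ⟨_, _, fun h1 h2 h3 => (enc_add h1 (enc_rat _ 39 80))⟩
noncomputable def txg_50 : Fn3 := ⟨_, _, fun h1 h2 h3 => (enc_subr 16187 2500 (enc_scaleT 31558 125 (txg_4.enc h1 h2 h3)))⟩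
noncomputable def txg_53 : Fn3 := ⟨_, _, fun h1 h2 h3 => (enc_add h1 (enc_rat _ 1 2))⟩
noncomputable def txg_54 : Fn3 := ⟨_, _, fun h1 h2 h3 => (enc_sub (enc_neg (enc_rat _ 39 80)) h1)⟩
noncomputable def txg_61 : Fn3 := ⟨_, _, fun h1 h2 h3 => (enc_add h1 (enc_rat _ 119 250))⟩
noncomputable def txg_75 : Fn3 := ⟨_, _, fun h1 h2 h3 => (enc_add (enc_scaleT 33867 250 (txg_4.enc h1 h2 h3)) (enc_rat _ 1436 625))⟩
noncomputable def txg_76 : Fn3 := ⟨_, _, fun h1 h2 h3 => (enc_sub (enc_neg (enc_rat _ 119 250)) h1)⟩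
noncomputable def txg_96 : Fn3 := ⟨_, _, fun h1 h2 h3 => (enc_sub (enc_rat _ 16629 5000) (enc_scaleT 167597 1000 (txg_4.enc h1 h2 h3)))⟩
noncomputable def txg_97 : Fn3 := ⟨_, _, fun h1 h2 h3 => (enc_sub (enc_neg (enc_rat _ 93027 200000)) h1)⟩
noncomputable def txg_106 : Fn3 := ⟨_, _, fun h1 h2 h3 => (enc_add h1 (enc_rat _ 87857 200000))⟩
noncomputable def txg_123 : Fn3 := ⟨_, _, fun h1 h2 h3 => (enc_subr 432 625 (enc_neg (enc_scaleT 73541 1000 (txg_4.enc h1 h2 h3))))⟩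
noncomputable def txg_124 : Fn3 := ⟨_, _, fun h1 h2 h3 => (enc_sub (enc_neg (enc_rat _ 87857 200000)) h1)⟩
noncomputable def txg_131 : Fn3 := ⟨_, _, fun h1 h2 h3 => (enc_add h1 (enc_rat _ 43 100))⟩
noncomputable def txg_146 : Fn3 := ⟨_, _, fun h1 h2 h3 => (enc_subr 103149 5000 (enc_neg (enc_scaleT 357151 500 (txg_4.enc h1 h2 h3))))⟩
noncomputable def txg_147 : Fn3 := ⟨_, _, fun h1 h2 h3 => (enc_sub (enc_neg (enc_rat _ 43 100)) h1)⟩
noncomputable def txg_166 : Fn3 := ⟨_, _, fun h1 h2 h3 => (enc_subr 269029 10000 (enc_neg (enc_scaleT 2356173 1000 (txg_4.enc h1 h2 h3))))⟩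
noncomputable def txg_167 : Fn3 := ⟨_, _, fun h1 h2 h3 => (enc_sub (enc_neg (enc_rat _ 21 50)) h1)⟩
noncomputable def txg_177 : Fn3 := ⟨_, _, fun h1 h2 h3 => (enc_add h1 (enc_rat _ 3 8))⟩
noncomputable def txg_180 : Fn3 := ⟨_, _, fun h1 h2 h3 => (enc_add h1 (enc_rat _ 41 100))⟩
noncomputable def txg_193 : Fn3 := ⟨_, _, fun h1 h2 h3 => (enc_subr 12809 1000 (enc_scaleT 148547 1000 (txg_4.enc h1 h2 h3)))⟩
noncomputable def txg_194 : Fn3 := ⟨_, _, fun h1 h2 h3 => (enc_sub (enc_neg (enc_rat _ 41 100)) h1)⟩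
noncomputable def txg_201 : Fn3 := ⟨_, _, fun h1 h2 h3 => (enc_add h1 (enc_rat _ 2 5))⟩
noncomputable def txg_213 : Fn3 := ⟨_, _, fun h1 h2 h3 => (enc_add (enc_scaleT 3103803 1000 (txg_4.enc h1 h2 h3)) (enc_rat _ 42801 5000))⟩
noncomputable def txg_214 : Fn3 := ⟨_, _, fun h1 h2 h3 => (enc_sub (enc_neg (enc_rat _ 2 5)) h1)⟩
noncomputable def txg_230 : Fn3 := ⟨_, _, fun h1 h2 h3 => (enc_sub (enc_neg (enc_rat _ 3 8)) h1)⟩
noncomputable def txg_239 : Fn3 := ⟨_, _, fun h1 h2 h3 => (enc_add h1 (enc_rat _ 7 20))⟩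
noncomputable def txg_254 : Fn3 := ⟨_, _, fun h1 h2 h3 => (enc_subr 9321 2000 (enc_neg (enc_scaleT 22757 100 (txg_4.enc h1 h2 h3))))⟩
noncomputable def txg_255 : Fn3 := ⟨_, _, fun h1 h2 h3 => (enc_sub (enc_neg (enc_rat _ 7 20)) h1)⟩
noncomputable def txg_262 : Fn3 := ⟨_, _, fun h1 h2 h3 => (enc_add h1 (enc_rat _ 3 10))⟩
noncomputable def txg_274 : Fn3 := ⟨_, _, fun h1 h2 h3 => (enc_add (enc_scaleT 8837 500 (txg_4.enc h1 h2 h3)) (enc_rat _ 39831 10000))⟩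
noncomputable def txg_275 : Fn3 := ⟨_, _, fun h1 h2 h3 => (enc_sub (enc_neg (enc_rat _ 3 10)) h1)⟩
noncomputable def txg_289 : Fn3 := ⟨_, _, fun h1 h2 h3 => (enc_scaleT 1199 125 (txg_4.enc h1 h2 h3))⟩
noncomputable def txg_291 : Fn3 := ⟨_, _, fun h1 h2 h3 => (enc_add (txg_289.enc h1 h2 h3) (enc_rat _ 1027 2500))⟩
noncomputable def txg_292 : Fn3 := ⟨_, _, fun h1 h2 h3 => (enc_sub (enc_neg (enc_rat _ 1 5)) h1)⟩
noncomputable def txg_301 : Fn3 := ⟨_, _, fun h1 h2 h3 => (enc_subr 3 8 h1)⟩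
noncomputable def txg_302 : Fn3 := ⟨_, _, fun h1 h2 h3 => (enc_subr 1 5 h1)⟩
noncomputable def txg_305 : Fn3 := ⟨_, _, fun h1 h2 h3 => (enc_add h1 (enc_rat _ 1 10))⟩
noncomputable def txg_315 : Fn3 := ⟨_, _, fun h1 h2 h3 => (enc_add (txg_289.enc h1 h2 h3) (enc_rat _ 9689 5000))⟩
noncomputable def txg_316 : Fn3 := ⟨_, _, fun h1 h2 h3 => (enc_sub (enc_neg (enc_rat _ 1 10)) h1)⟩
noncomputable def txg_321 : Fn3 := ⟨_, _, fun h1 h2 h3 => (enc_subr 1 10 h1)⟩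
noncomputable def txg_331 : Fn3 := ⟨_, _, fun h1 h2 h3 => (enc_sub (enc_rat _ 1 10) h1)⟩
noncomputable def txg_349 : Fn3 := ⟨_, _, fun h1 h2 h3 => (enc_add (enc_scaleT 1047 200 (txg_4.enc h1 h2 h3)) (enc_rat _ 14857 10000))⟩
noncomputable def txg_350 : Fn3 := ⟨_, _, fun h1 h2 h3 => (enc_sub (enc_rat _ 1 5) h1)⟩
noncomputable def txg_357 : Fn3 := ⟨_, _, fun h1 h2 h3 => (enc_subr 3 10 h1)⟩
noncomputable def txg_371 : Fn3 := ⟨_, _, fun h1 h2 h3 => (enc_add (enc_scaleT 4363 500 (txg_4.enc h1 h2 h3)) (enc_rat _ 13027 10000))⟩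
noncomputable def txg_372 : Fn3 := ⟨_, _, fun h1 h2 h3 => (enc_sub (enc_rat _ 3 10) h1)⟩
noncomputable def txg_377 : Fn3 := ⟨_, _, fun h1 h2 h3 => (enc_subr 7 20 h1)⟩
noncomputable def txg_391 : Fn3 := ⟨_, _, fun h1 h2 h3 => (enc_add (enc_scaleT 5022 125 (txg_4.enc h1 h2 h3)) (enc_rat _ 2702 625))⟩
noncomputable def txg_392 : Fn3 := ⟨_, _, fun h1 h2 h3 => (enc_sub (enc_rat _ 7 20) h1)⟩
noncomputable def txg_412 : Fn3 := ⟨_, _, fun h1 h2 h3 => (enc_sub (enc_rat _ 1017 10000) (enc_scaleT 44701 500 (txg_4.enc h1 h2 h3)))⟩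
noncomputable def txg_413 : Fn3 := ⟨_, _, fun h1 h2 h3 => (enc_sub (enc_rat _ 3 8) h1)⟩
noncomputable def txg_421 : Fn3 := ⟨_, _, fun h1 h2 h3 => (enc_subr 41 100 h1)⟩
noncomputable def txg_423 : Fn3 := ⟨_, _, fun h1 h2 h3 => (enc_subr 39 100 h1)⟩
noncomputable def txg_437 : Fn3 := ⟨_, _, fun h1 h2 h3 => (enc_add (enc_scaleT 450831 1000 (txg_4.enc h1 h2 h3)) (enc_rat _ 9211 10000))⟩
noncomputable def txg_438 : Fn3 := ⟨_, _, fun h1 h2 h3 => (enc_sub (enc_rat _ 39 100) h1)⟩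
noncomputable def txg_443 : Fn3 := ⟨_, _, fun h1 h2 h3 => (enc_subr 2 5 h1)⟩
noncomputable def txg_459 : Fn3 := ⟨_, _, fun h1 h2 h3 => (enc_sub (enc_rat _ 14591 10000) (enc_scaleT 1039353 1000 (txg_4.enc h1 h2 h3)))⟩
noncomputable def txg_460 : Fn3 := ⟨_, _, fun h1 h2 h3 => (enc_sub (enc_rat _ 2 5) h1)⟩
noncomputable def txg_478 : Fn3 := ⟨_, _, fun h1 h2 h3 => (enc_add (enc_scaleT 236108 125 (txg_4.enc h1 h2 h3)) (enc_rat _ 65099 10000))⟩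
noncomputable def txg_479 : Fn3 := ⟨_, _, fun h1 h2 h3 => (enc_sub (enc_rat _ 41 100) h1)⟩
noncomputable def txg_486 : Fn3 := ⟨_, _, fun h1 h2 h3 => (enc_subr 21 50 h1)⟩
noncomputable def txg_503 : Fn3 := ⟨_, _, fun h1 h2 h3 => (enc_subr 67579 10000 (enc_neg (enc_scaleT 2793 1000 (txg_4.enc h1 h2 h3))))⟩
noncomputable def txg_504 : Fn3 := ⟨_, _, fun h1 h2 h3 => (enc_sub (enc_rat _ 21 50) h1)⟩
noncomputable def txg_509 : Fn3 := ⟨_, _, fun h1 h2 h3 => (enc_subr 43 100 h1)⟩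
noncomputable def txg_526 : Fn3 := ⟨_, _, fun h1 h2 h3 => (enc_subr 141607 10000 (enc_neg (enc_scaleT 1346687 1000 (txg_4.enc h1 h2 h3))))⟩
noncomputable def txg_527 : Fn3 := ⟨_, _, fun h1 h2 h3 => (enc_sub (enc_rat _ 43 100) h1)⟩
noncomputable def txg_546 : Fn3 := ⟨_, _, fun h1 h2 h3 => (enc_sq (enc_norm (txg_4.enc h1 h2 h3)))⟩
noncomputable def txg_557 : Fn3 := ⟨_, _, fun h1 h2 h3 => (enc_subr 477 50 (enc_mul (enc_norm (enc_subr 167317 500 (enc_scaleT 1099 100 (txg_4.enc h1 h2 h3)))) (enc_norm (txg_4.enc h1 h2 h3))))⟩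
noncomputable def txg_558 : Fn3 := ⟨_, _, fun h1 h2 h3 => (enc_sub (enc_rat _ 2507 5707) h1)⟩
noncomputable def txg_569 : Fn3 := ⟨_, _, fun h1 h2 h3 => (enc_subr 587 1262 h1)⟩
noncomputable def txg_570 : Fn3 := ⟨_, _, fun h1 h2 h3 => (enc_subr 119 250 h1)⟩
noncomputable def txg_596 : Fn3 := ⟨_, _, fun h1 h2 h3 => (enc_add (enc_mul (enc_norm (enc_subr 85559 1000 (enc_neg (enc_scaleT 82239 50 (txg_4.enc h1 h2 h3))))) (enc_norm (txg_4.enc h1 h2 h3))) (enc_rat _ 899 400))⟩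
noncomputable def txg_597 : Fn3 := ⟨_, _, fun h1 h2 h3 => (enc_sub (enc_rat _ 119 250) h1)⟩
noncomputable def txg_602 : Fn3 := ⟨_, _, fun h1 h2 h3 => (enc_subr 39 80 h1)⟩
noncomputable def txg_616 : Fn3 := ⟨_, _, fun h1 h2 h3 => (enc_add (enc_scaleT 71581 1000 (txg_4.enc h1 h2 h3)) (enc_rat _ 14207 10000))⟩
noncomputable def txg_617 : Fn3 := ⟨_, _, fun h1 h2 h3 => (enc_sub (enc_rat _ 39 80) h1)⟩
noncomputable def txg_636 : Fn3 := ⟨_, _, fun h1 h2 h3 => (enc_subr 6097 2000 (enc_scaleT 146619 1000 (txg_4.enc h1 h2 h3)))⟩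
noncomputable def txg_637 : Fn3 := ⟨_, _, fun h1 h2 h3 => (enc_sub (enc_rat _ 1 2) h1)⟩
noncomputable def txg : Fn3 := ⟨_, _, fun h1 h2 h3 => (enc_case (enc_subr 2507 5707 h1) (enc_case (txg_26.enc h1 h2 h3) (enc_case (txg_29.enc h1 h2 h3) (enc_case (txg_32.enc h1 h2 h3) (enc_case (txg_35.enc h1 h2 h3) (enc_add (enc_add (enc_add (enc_scaleT 269281 1250000 h1) (enc_rat _ 269281 2500000)) (enc_mul (enc_norm (txg_4.enc h1 h2 h3)) (enc_norm (enc_subr 135919 125000 (enc_neg (enc_scaleT 135919 62500 h1)))))) (enc_mA (enc_mul (enc_norm (txg_50.enc h1 h2 h3)) (enc_norm (enc_mul (enc_norm (txg_53.enc h1 h2 h3)) (enc_norm (txg_54.enc h1 h2 h3))))) (txg_50.enc h1 h2 h3) (txg_53.enc h1 h2 h3) (txg_54.enc h1 h2 h3) rfl)) (enc_case (txg_61.enc h1 h2 h3) (enc_add (enc_add (enc_add (enc_scaleT 77607 287500 h1) (enc_rat _ 308860763 2300000000)) (enc_mul (enc_norm (txg_4.enc h1 h2 h3)) (enc_norm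 (enc_subr 778611199 230000000 (enc_neg (enc_scaleT 792163 115000 h1)))))) (enc_mA (enc_mul (enc_norm (txg_75.enc h1 h2 h3)) (enc_norm (enc_mul (enc_norm (txg_35.enc h1 h2 h3)) (enc_norm (txg_76.enc h1 h2 h3))))) (txg_75.enc h1 h2 h3) (txg_35.enc h1 h2 h3) (txg_76.enc h1 h2 h3) rfl)) (enc_add (enc_add (enc_add (enc_scaleT 112661 543250 h1) (enc_rat _ 22710362057 217300000000)) (enc_mul (enc_norm (txg_4.enc h1 h2 h3)) (enc_norm (enc_subr 70842174973 21730000000 (enc_neg (enc_scaleT 359927 54325 h1)))))) (enc_mA (enc_mul (enc_norm (txg_96.enc h1 h2 h3)) (enc_norm (enc_mul (enc_norm (txg_61.enc h1 h2 h3)) (enc_norm (txg_97.enc h1 h2 h3))))) (txg_96.enc h1 h2 h3) (txg_61.enc h1 h2 h3) (txg_97.enc h1 h2 h3) rfl)))) (enc_case (txg_106.enc h1 h2 h3) (enc_add (enc_add (enc_add (enc_scaleT 97769 517000 h1) (enc_rat _ 902505347 9400000000)) (enc_mul (enc_norm (txg_4.enc h1 h2 h3))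 (enc_norm (enc_subr 7185246581 4700000000 (enc_neg (enc_scaleT 750483 258500 h1)))))) (enc_mA (enc_mul (enc_norm (txg_123.enc h1 h2 h3)) (enc_norm (enc_mul (enc_norm (txg_32.enc h1 h2 h3)) (enc_norm (txg_124.enc h1 h2 h3))))) (txg_123.enc h1 h2 h3) (txg_32.enc h1 h2 h3) (txg_124.enc h1 h2 h3) rfl)) (enc_case (txg_131.enc h1 h2 h3) (enc_add (enc_add (enc_add (enc_scaleT 370037 928500 h1) (enc_rat _ 34913068441 185700000000)) (enc_mul (enc_norm (txg_4.enc h1 h2 h3)) (enc_norm (enc_add (enc_scaleT 52276 9285 h1) (enc_rat _ 20610929827 9285000000))))) (enc_mA (enc_mul (enc_norm (txg_146.enc h1 h2 h3)) (enc_norm (enc_mul (enc_norm (txg_106.enc h1 h2 h3)) (enc_norm (txg_147.enc h1 h2 h3))))) (txg_146.enc h1 h2 h3) (txg_106.enc h1 h2 h3) (txg_147.enc h1 h2 h3) rfl)) (enc_add (enc_add (enc_add (enc_scaleT 859107 1000000 h1) (enc_rat _ 19302757 50000000)) (enc_mul (enc_norm (txg_4.enc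 h1 h2 h3)) (enc_norm (enc_add (enc_scaleT 3582419 100000 h1) (enc_rat _ 152032439 10000000))))) (enc_mA (enc_mul (enc_norm (txg_166.enc h1 h2 h3)) (enc_norm (enc_mul (enc_norm (txg_131.enc h1 h2 h3)) (enc_norm (txg_167.enc h1 h2 h3))))) (txg_166.enc h1 h2 h3) (txg_131.enc h1 h2 h3) (txg_167.enc h1 h2 h3) rfl))))) (enc_case (txg_177.enc h1 h2 h3) (enc_case (txg_180.enc h1 h2 h3) (enc_add (enc_add (enc_add (enc_scaleT 39257 31250 h1) (enc_rat _ 13821107 25000000)) (enc_mul (enc_norm (txg_4.enc h1 h2 h3)) (enc_norm (enc_add (enc_scaleT 2895023 50000 h1) (enc_rat _ 244752773 10000000))))) (enc_mA (enc_mul (enc_norm (txg_193.enc h1 h2 h3)) (enc_norm (enc_mul (enc_norm (txg_29.enc h1 h2 h3)) (enc_norm (txg_194.enc h1 h2 h3))))) (txg_193.enc h1 h2 h3) (txg_29.enc h1 h2 h3) (txg_194.enc h1 h2 h3) rfl)) (enc_case (txg_201.enc h1 h2 h3) (enc_add (enc_add (enc_add (enc_scaleT 1298713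 1000000 h1) (enc_rat _ 57026477 100000000)) (enc_mul (enc_norm (txg_4.enc h1 h2 h3)) (enc_norm (enc_add (enc_scaleT 2537697 100000 h1) (enc_rat _ 870363 78125))))) (enc_mA (enc_mul (enc_norm (txg_213.enc h1 h2 h3)) (enc_norm (enc_mul (enc_norm (txg_180.enc h1 h2 h3)) (enc_norm (txg_214.enc h1 h2 h3))))) (txg_213.enc h1 h2 h3) (txg_180.enc h1 h2 h3) (txg_214.enc h1 h2 h3) rfl)) (enc_add (enc_add (enc_add (enc_scaleT 2713411 2500000 h1) (enc_rat _ 48492533 100000000)) (enc_mul (enc_norm (txg_4.enc h1 h2 h3)) (enc_norm (enc_subr 1593203 1250000 (enc_neg (enc_scaleT 1415263 250000 h1)))))) (enc_mA (enc_scaleT 25549 5000 (enc_mul (enc_norm (txg_201.enc h1 h2 h3)) (enc_norm (txg_230.enc h1 h2 h3)))) (enc_rat _ 25549 5000) (txg_201.enc h1 h2 h3) (txg_230.enc h1 h2 h3) rfl)))) (enc_case (txg_239.enc h1 h2 h3) (enc_add (enc_add (enc_add (enc_scaleT 1342667 1250000 h1) (enc_rat _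 24035689 50000000)) (enc_mul (enc_norm (txg_4.enc h1 h2 h3)) (enc_norm (enc_add (enc_scaleT 3523 125000 h1) (enc_rat _ 8589011 10000000))))) (enc_mA (enc_mul (enc_norm (txg_254.enc h1 h2 h3)) (enc_norm (enc_mul (enc_norm (txg_177.enc h1 h2 h3)) (enc_norm (txg_255.enc h1 h2 h3))))) (txg_254.enc h1 h2 h3) (txg_177.enc h1 h2 h3) (txg_255.enc h1 h2 h3) rfl)) (enc_case (txg_262.enc h1 h2 h3) (enc_add (enc_add (enc_add (enc_scaleT 4957461 5000000 h1) (enc_rat _ 45178929 100000000)) (enc_mul (enc_norm (txg_4.enc h1 h2 h3)) (enc_norm (enc_add (enc_scaleT 2416861 500000 h1) (enc_rat _ 12704197 5000000))))) (enc_mA (enc_mul (enc_norm (txg_274.enc h1 h2 h3)) (enc_norm (enc_mul (enc_norm (txg_239.enc h1 h2 h3)) (enc_norm (txg_275.enc h1 h2 h3))))) (txg_274.enc h1 h2 h3) (txg_239.enc h1 h2 h3) (txg_275.enc h1 h2 h3) rfl)) (enc_add (enc_add (enc_add (enc_scaleT 7512621 10000000 h1) (enc_rat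 _ 18986013 50000000)) (enc_mul (enc_norm (txg_4.enc h1 h2 h3)) (enc_norm (enc_add (enc_scaleT 1495411 500000 h1) (enc_rat _ 9939847 5000000))))) (enc_mA (enc_mul (enc_norm (txg_291.enc h1 h2 h3)) (enc_norm (enc_mul (enc_norm (txg_262.enc h1 h2 h3)) (enc_norm (txg_292.enc h1 h2 h3))))) (txg_291.enc h1 h2 h3) (txg_262.enc h1 h2 h3) (txg_292.enc h1 h2 h3) rfl)))))) (enc_case (txg_301.enc h1 h2 h3) (enc_case (txg_302.enc h1 h2 h3) (enc_case (txg_305.enc h1 h2 h3) (enc_add (enc_add (enc_add (enc_scaleT 2582061 5000000 h1) (enc_rat _ 8318757 25000000)) (enc_mul (enc_norm (txg_4.enc h1 h2 h3)) (enc_norm (enc_add (enc_scaleT 1072421 1000000 h1) (enc_rat _ 4010723 2500000))))) (enc_mA (enc_mul (enc_norm (txg_315.enc h1 h2 h3)) (enc_norm (enc_mul (enc_norm (txg_26.enc h1 h2 h3)) (enc_norm (txg_316.enc h1 h2 h3))))) (txg_315.enc h1 h2 h3) (txg_26.enc h1 h2 h3) (txg_316.enc h1 h2 h3)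 rfl)) (enc_case (txg_321.enc h1 h2 h3) (enc_add (enc_add (enc_add (enc_scaleT 1474343 20000000 h1) (enc_rat _ 11539231 40000000)) (enc_mul (enc_norm (txg_4.enc h1 h2 h3)) (enc_norm (enc_add (enc_scaleT 56611 500000 h1) (enc_rat _ 15083693 10000000))))) (enc_mA (enc_scaleT 6223 5000 (enc_mul (enc_norm (txg_305.enc h1 h2 h3)) (enc_norm (txg_331.enc h1 h2 h3)))) (enc_rat _ 6223 5000) (txg_305.enc h1 h2 h3) (txg_331.enc h1 h2 h3) rfl)) (enc_add (enc_add (enc_sub (enc_rat _ 32822927 100000000) (enc_scaleT 1618839 5000000 h1)) (enc_mul (enc_norm (txg_4.enc h1 h2 h3)) (enc_norm (enc_sub (enc_rat _ 15607143 10000000) (enc_scaleT 102557 250000 h1))))) (enc_mA (enc_mul (enc_norm (txg_349.enc h1 h2 h3)) (enc_norm (enc_mul (enc_norm (txg_321.enc h1 h2 h3)) (enc_norm (txg_350.enc h1 h2 h3))))) (txg_349.enc h1 h2 h3) (txg_321.enc h1 h2 h3) (txg_350.enc h1 h2 h3) rfl)))) (enc_case (txg_357.enc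 h1 h2 h3) (enc_add (enc_add (enc_sub (enc_rat _ 38399627 100000000) (enc_scaleT 1506507 2500000 h1)) (enc_mul (enc_norm (txg_4.enc h1 h2 h3)) (enc_norm (enc_sub (enc_rat _ 3679829 2000000) (enc_scaleT 1806229 1000000 h1))))) (enc_mA (enc_mul (enc_norm (txg_371.enc h1 h2 h3)) (enc_norm (enc_mul (enc_norm (txg_302.enc h1 h2 h3)) (enc_norm (txg_372.enc h1 h2 h3))))) (txg_371.enc h1 h2 h3) (txg_302.enc h1 h2 h3) (txg_372.enc h1 h2 h3) rfl)) (enc_case (txg_377.enc h1 h2 h3) (enc_add (enc_add (enc_sub (enc_rat _ 9758491 20000000) (enc_scaleT 74143 78125 h1)) (enc_mul (enc_norm (txg_4.enc h1 h2 h3)) (enc_norm (enc_sub (enc_rat _ 422551 156250) (enc_scaleT 2343801 500000 h1))))) (enc_mA (enc_mul (enc_norm (txg_391.enc h1 h2 h3)) (enc_norm (enc_mul (enc_norm (txg_357.enc h1 h2 h3)) (enc_norm (txg_392.enc h1 h2 h3))))) (txg_391.enc h1 h2 h3) (txg_357.enc h1 h2 h3) (txg_392.enc h1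 h2 h3) rfl)) (enc_add (enc_add (enc_sub (enc_rat _ 56446997 100000000) (enc_scaleT 2919329 2500000 h1)) (enc_mul (enc_norm (txg_4.enc h1 h2 h3)) (enc_norm (enc_sub (enc_rat _ 26251529 10000000) (enc_scaleT 278837 62500 h1))))) (enc_mA (enc_mul (enc_norm (txg_412.enc h1 h2 h3)) (enc_norm (enc_mul (enc_norm (txg_377.enc h1 h2 h3)) (enc_norm (txg_413.enc h1 h2 h3))))) (txg_412.enc h1 h2 h3) (txg_377.enc h1 h2 h3) (txg_413.enc h1 h2 h3) rfl))))) (enc_case (txg_421.enc h1 h2 h3) (enc_case (txg_423.enc h1 h2 h3) (enc_add (enc_add (enc_sub (enc_rat _ 57060537 100000000) (enc_scaleT 1776139 1500000 h1)) (enc_mul (enc_norm (txg_4.enc h1 h2 h3)) (enc_norm (enc_sub (enc_rat _ 43229359 10000000) (enc_scaleT 674161 75000 h1))))) (enc_mA (enc_mul (enc_norm (txg_437.enc h1 h2 h3)) (enc_norm (enc_mul (enc_norm (txg_301.enc h1 h2 h3)) (enc_norm (txg_438.enc h1 h2 h3))))) (txg_437.enc h1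 h2 h3) (txg_301.enc h1 h2 h3) (txg_438.enc h1 h2 h3) rfl)) (enc_case (txg_443.enc h1 h2 h3) (enc_add (enc_add (enc_sub (enc_rat _ 58168423 100000000) (enc_scaleT 97 80 h1)) (enc_mul (enc_norm (txg_4.enc h1 h2 h3)) (enc_norm (enc_sub (enc_rat _ 14534067 5000000) (enc_scaleT 535773 100000 h1))))) (enc_mA (enc_mul (enc_norm (txg_459.enc h1 h2 h3)) (enc_norm (enc_mul (enc_norm (txg_423.enc h1 h2 h3)) (enc_norm (txg_460.enc h1 h2 h3))))) (txg_459.enc h1 h2 h3) (txg_423.enc h1 h2 h3) (txg_460.enc h1 h2 h3) rfl)) (enc_add (enc_add (enc_sub (enc_rat _ 61356063 100000000) (enc_scaleT 1292191 1000000 h1)) (enc_mul (enc_norm (txg_4.enc h1 h2 h3)) (enc_norm (enc_sub (enc_rat _ 31524287 5000000) (enc_scaleT 346321 25000 h1))))) (enc_mA (enc_mul (enc_norm (txg_478.enc h1 h2 h3)) (enc_norm (enc_mul (enc_norm (txg_443.enc h1 h2 h3)) (enc_norm (txg_479.enc h1 h2 h3))))) (txg_478.enc h1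 h2 h3) (txg_443.enc h1 h2 h3) (txg_479.enc h1 h2 h3) rfl)))) (enc_case (txg_486.enc h1 h2 h3) (enc_add (enc_add (enc_sub (enc_rat _ 30627171 50000000) (enc_scaleT 128971 100000 h1)) (enc_mul (enc_norm (txg_4.enc h1 h2 h3)) (enc_norm (enc_sub (enc_rat _ 28075497 2000000) (enc_scaleT 654271 20000 h1))))) (enc_mA (enc_mul (enc_norm (txg_503.enc h1 h2 h3)) (enc_norm (enc_mul (enc_norm (txg_421.enc h1 h2 h3)) (enc_norm (txg_504.enc h1 h2 h3))))) (txg_503.enc h1 h2 h3) (txg_421.enc h1 h2 h3) (txg_504.enc h1 h2 h3) rfl)) (enc_case (txg_509.enc h1 h2 h3) (enc_add (enc_add (enc_sub (enc_rat _ 5246853 10000000) (enc_scaleT 270131 250000 h1)) (enc_mul (enc_norm (txg_4.enc h1 h2 h3)) (enc_norm (enc_sub (enc_rat _ 3347973 400000) (enc_scaleT 615 32 h1))))) (enc_mA (enc_mul (enc_norm (txg_526.enc h1 h2 h3)) (enc_norm (enc_mul (enc_norm (txg_486.enc h1 h2 h3)) (enc_norm (txg_527.enc h1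 h2 h3))))) (txg_526.enc h1 h2 h3) (txg_486.enc h1 h2 h3) (txg_527.enc h1 h2 h3) rfl)) (enc_add (enc_add (enc_add (enc_sub (enc_rat _ 257478342781239721 604827860000000000) (enc_scaleT 5143078921074347 6048278600000000 h1)) (enc_mul (enc_norm (txg_4.enc h1 h2 h3)) (enc_norm (enc_sub (enc_rat _ 37593660945160233 30241393000000000) (enc_scaleT 799814062052331 302413930000000 h1))))) (enc_mul (txg_546.enc h1 h2 h3) (enc_norm (enc_sub (enc_rat _ 726647583 16559375000) (enc_scaleT 16898781 165593750 h1))))) (enc_mA (enc_mul (enc_norm (txg_557.enc h1 h2 h3)) (enc_norm (enc_mul (enc_norm (txg_509.enc h1 h2 h3)) (enc_norm (txg_558.enc h1 h2 h3))))) (txg_557.enc h1 h2 h3) (txg_509.enc h1 h2 h3) (txg_558.enc h1 h2 h3) rfl))))))) (enc_case (txg_569.enc h1 h2 h3) (enc_sub (enc_mul (enc_norm (enc_sub (enc_pnc _ 1) h2)) (enc_norm (enc_subn 1 (enc_nat 2 h2)))) (enc_mul (enc_norm (enc_nat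 2 (enc_sub (enc_scaleT 4 3 (txg_6.enc h1 h2 h3)) h3))) (enc_norm (enc_mul (enc_norm (enc_subn 1 (enc_add (enc_scaleT 2 3 (txg_6.enc h1 h2 h3)) h2))) (kcg.enc h1 h3))))) (enc_case (txg_570.enc h1 h2 h3) (enc_add (enc_add (enc_add (enc_sub (enc_rat _ 37796486795805231 86522720000000000) (enc_scaleT 301883139530249 346090880000000 h1)) (enc_mul (enc_norm (txg_4.enc h1 h2 h3)) (enc_norm (enc_sub (enc_rat _ 144627853011749 346090880000000) (enc_scaleT 1072177368131 1384363520000 h1))))) (enc_mul (txg_546.enc h1 h2 h3) (enc_norm (enc_sub (enc_rat _ 364507764383 42850000000) (enc_scaleT 3063090457 171400000 h1))))) (enc_mA (enc_mul (enc_norm (txg_596.enc h1 h2 h3)) (enc_norm (enc_mul (enc_norm (txg_569.enc h1 h2 h3)) (enc_norm (txg_597.enc h1 h2 h3))))) (txg_596.enc h1 h2 h3) (txg_569.enc h1 h2 h3) (txg_597.enc h1 h2 h3) rfl)) (enc_case (txg_602.enc h1 h2 h3) (enc_add (enc_add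 (enc_sub (enc_rat _ 6558451 14375000) (enc_scaleT 524989 575000 h1)) (enc_mul (enc_norm (txg_4.enc h1 h2 h3)) (enc_norm (enc_sub (enc_rat _ 2111519 5750000) (enc_scaleT 3073 4600 h1))))) (enc_mA (enc_mul (enc_norm (txg_616.enc h1 h2 h3)) (enc_norm (enc_mul (enc_norm (txg_570.enc h1 h2 h3)) (enc_norm (txg_617.enc h1 h2 h3))))) (txg_616.enc h1 h2 h3) (txg_570.enc h1 h2 h3) (txg_617.enc h1 h2 h3) rfl)) (enc_add (enc_add (enc_sub (enc_rat _ 111407 250000) (enc_scaleT 111407 125000 h1)) (enc_mul (enc_norm (txg_4.enc h1 h2 h3)) (enc_norm (enc_sub (enc_rat _ 83099 50000) (enc_scaleT 83099 25000 h1))))) (enc_mA (enc_mul (enc_norm (txg_636.enc h1 h2 h3)) (enc_norm (enc_mul (enc_norm (txg_602.enc h1 h2 h3)) (enc_norm (txg_637.enc h1 h2 h3))))) (txg_636.enc h1 h2 h3) (txg_602.enc h1 h2 h3) (txg_637.enc h1 h2 h3) rfl))))))⟩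
noncomputable def l0q0 : Fn2 := ⟨_, _, fun h1 h2 => (enc_norm (txg.enc (enc_norm (enc_sub (enc_scaleT 3 4 h1) (enc_half (c1g.enc h1)))) (c1g.enc h1) h2))⟩
noncomputable def kc0q0_3 : Fn2 := ⟨_, _, fun h1 h2 => (enc_subr 309 320 h2)⟩
noncomputable def kc0q0_8 : Fn2 := ⟨_, _, fun h1 h2 => (enc_sub (enc_scaleT 3 4 h1) (enc_half (c1g.enc h1)))⟩
noncomputable def kc0q0_50 : Fn2 := ⟨_, _, fun h1 h2 => (enc_scaleT 3 2 (kc0q0_8.enc h1 h2))⟩
noncomputable def kc0q0_70 : Fn2 := ⟨_, _, fun h1 h2 => (enc_scaleT 1 30 (kc0q0_8.enc h1 h2))⟩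
noncomputable def kc0q0_75 : Fn2 := ⟨_, _, fun h1 h2 => (enc_scaleT 1007 670 (kc0q0_8.enc h1 h2))⟩
noncomputable def kc0q0_90 : Fn2 := ⟨_, _, fun h1 h2 => (enc_scaleT 1247 830 (kc0q0_8.enc h1 h2))⟩
noncomputable def kc0q0 : Fn2 := ⟨_, _, fun h1 h2 => (enc_norm (enc_case (enc_add (kc0q0_8.enc h1 h2) (enc_rat _ 333 1000)) (enc_case (enc_add (kc0q0_8.enc h1 h2) (enc_rat _ 93 200)) (enc_case (enc_add (kc0q0_8.enc h1 h2) (enc_rat _ 49 100)) (enc_subr 47 8 (enc_neg (enc_scaleT 47 4 (kc0q0_8.enc h1 h2)))) (enc_case (enc_add (kc0q0_8.enc h1 h2) (enc_rat _ 12 25)) (enc_add (enc_subr 2293 2000 (enc_neg (enc_scaleT 21 10 (kc0q0_8.enc h1 h2)))) (enc_mul (enc_norm (kc0q0_3.enc h1 h2)) (enc_norm (enc_add (enc_scaleT 1 10 (kc0q0_8.enc h1 h2)) (enc_rat _ 49 1000))))) (enc_add (enc_add (enc_scaleT 113 75 (kc0q0_8.enc h1 h2)) (enc_rat _ 5847 10000)) (enc_scaleT 1 1000 (kc0q0_3.enc h1 h2)))))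 (enc_case (enc_add (kc0q0_8.enc h1 h2) (enc_rat _ 43 100)) (enc_case (enc_add (kc0q0_8.enc h1 h2) (enc_rat _ 9 20)) (enc_add (enc_add (kc0q0_50.enc h1 h2) (enc_rat _ 727 1250)) (enc_mul (enc_norm (kc0q0_3.enc h1 h2)) (enc_norm (enc_add (enc_scaleT 1 15 (kc0q0_8.enc h1 h2)) (enc_rat _ 4 125))))) (enc_add (enc_add (enc_scaleT 301 200 (kc0q0_8.enc h1 h2)) (enc_rat _ 11677 20000)) (enc_scaleT 1 500 (kc0q0_3.enc h1 h2)))) (enc_case (enc_add (kc0q0_8.enc h1 h2) (enc_rat _ 2 5)) (enc_add (enc_add (kc0q0_50.enc h1 h2) (enc_rat _ 5817 10000)) (enc_mul (enc_norm (kc0q0_3.enc h1 h2)) (enc_norm (enc_add (kc0q0_70.enc h1 h2) (enc_rat _ 49 3000))))) (enc_add (enc_add (kc0q0_75.enc h1 h2) (enc_rat _ 390539 670000)) (enc_mul (enc_norm (kc0q0_3.enc h1 h2)) (enc_norm (enc_add (enc_scaleT 3 67 (kc0q0_8.enc h1 h2)) (enc_rat _ 1401 67000)))))))) (enc_case (enc_subr 167 1000 (kc0q0_8.enc h1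 h2)) (enc_case (enc_add (kc0q0_8.enc h1 h2) (enc_rat _ 167 1000)) (enc_add (enc_add (kc0q0_90.enc h1 h2) (enc_rat _ 483643 830000)) (enc_mul (enc_norm (kc0q0_3.enc h1 h2)) (enc_norm (enc_add (enc_scaleT 5 166 (kc0q0_8.enc h1 h2)) (enc_rat _ 2661 166000))))) (enc_case (kc0q0_8.enc h1 h2) (enc_add (enc_add (enc_scaleT 251 167 (kc0q0_8.enc h1 h2)) (enc_rat _ 1457 2500)) (enc_mul (enc_norm (kc0q0_3.enc h1 h2)) (enc_norm (enc_add (enc_scaleT 6 167 (kc0q0_8.enc h1 h2)) (enc_rat _ 17 1000))))) (enc_add (enc_add (enc_scaleT 2509 1670 (kc0q0_8.enc h1 h2)) (enc_rat _ 1457 2500)) (enc_mul (enc_norm (kc0q0_3.enc h1 h2)) (enc_norm (enc_add (enc_scaleT 5 167 (kc0q0_8.enc h1 h2)) (enc_rat _ 17 1000))))))) (enc_case (enc_subr 2 5 (kc0q0_8.enc h1 h2)) (enc_case (enc_subr 333 1000 (kc0q0_8.enc h1 h2)) (enc_add (enc_add (kc0q0_90.enc h1 h2) (enc_rat _ 241861 415000)) (enc_mul (enc_norm (kc0q0_3.enc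 h1 h2)) (enc_norm (enc_add (enc_scaleT 3 83 (kc0q0_8.enc h1 h2)) (enc_rat _ 53 3320))))) (enc_add (enc_add (kc0q0_75.enc h1 h2) (enc_rat _ 195173 335000)) (enc_mul (enc_norm (kc0q0_3.enc h1 h2)) (enc_norm (enc_add (enc_scaleT 2 67 (kc0q0_8.enc h1 h2)) (enc_rat _ 121 6700)))))) (enc_case (enc_subr 43 100 (kc0q0_8.enc h1 h2)) (enc_add (enc_add (enc_scaleT 451 300 (kc0q0_8.enc h1 h2)) (enc_rat _ 8737 15000)) (enc_mul (enc_norm (kc0q0_3.enc h1 h2)) (enc_norm (enc_add (kc0q0_70.enc h1 h2) (enc_rat _ 1 60))))) (enc_add (enc_add (enc_scaleT 15933767083 10598000000 (kc0q0_8.enc h1 h2)) (enc_rat _ 617236235431 1059800000000)) (enc_mul (enc_norm (kc0q0_3.enc h1 h2)) (enc_norm (enc_subr 86828271923 52990000000000 (enc_scaleT 40221355161 529900000000 (kc0q0_8.enc h1 h2)))))))))))⟩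
noncomputable def kf0q1_10 : Fn2 := ⟨_, _, fun h1 h2 => (enc_scaleT 3 2 h1)⟩
noncomputable def kf0q1 : Fn2 := ⟨_, _, fun h1 h2 => (enc_norm (enc_add (enc_mul (enc_norm (enc_mul (enc_norm (enc_add (enc_pnc _ 1) (enc_nat 2 (c1g.enc h1)))) (enc_norm (enc_sub (kf0q1_10.enc h1 h2) (c1g.enc h1))))) (enc_inv (enc_nat 2 (enc_sub (enc_add (enc_pnc _ 1) (kf0q1_10.enc h1 h2)) (c1g.enc h1))))) (enc_mul (enc_norm (enc_subn 1 h1)) (kcg.enc (enc_norm (enc_sub (enc_scaleT 3 4 h1) (enc_half (c1g.enc h1)))) h2))))⟩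
noncomputable def l0q1 : Fn2 := ⟨_, _, fun h1 h2 => (enc_norm (txg.enc (enc_norm (enc_sub (enc_scaleT 3 4 h1) (enc_half (c1g.enc h1)))) (c1g.enc h1) h2))⟩
noncomputable def gsg : Fn1 := ⟨_, _, fun h1 => (enc_sqrt (enc_sub (enc_pnc _ 1) (enc_scaleT 3 4 (enc_sq h1))))⟩
noncomputable def gug : Fn1 := ⟨_, _, fun h1 => (enc_norm (enc_add (enc_scaleT 3 4 h1) (enc_scaleT 3 2 (enc_sub (enc_pnc _ 1) (gsg.enc h1)))))⟩
noncomputable def kc0q1_3 : Fn2 := ⟨_, _, fun h1 h2 => (enc_subr 309 320 h2)⟩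
noncomputable def kc0q1_9 : Fn2 := ⟨_, _, fun h1 h2 => (enc_sub (enc_scaleT 3 4 h1) (enc_half (c1g.enc h1)))⟩
noncomputable def kc0q1_94 : Fn2 := ⟨_, _, fun h1 h2 => (enc_scaleT 3 2 (kc0q1_9.enc h1 h2))⟩
noncomputable def kc0q1_114 : Fn2 := ⟨_, _, fun h1 h2 => (enc_scaleT 1 30 (kc0q1_9.enc h1 h2))⟩
noncomputable def kc0q1_119 : Fn2 := ⟨_, _, fun h1 h2 => (enc_scaleT 1007 670 (kc0q1_9.enc h1 h2))⟩
noncomputable def kc0q1_134 : Fn2 := ⟨_, _, fun h1 h2 => (enc_scaleT 1247 830 (kc0q1_9.enc h1 h2))⟩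
noncomputable def kc0q1 : Fn2 := ⟨_, _, fun h1 h2 => (enc_norm (enc_case (enc_subr 2507 5707 (kc0q1_9.enc h1 h2)) (enc_case (enc_add (kc0q1_9.enc h1 h2) (enc_rat _ 333 1000)) (enc_case (enc_add (kc0q1_9.enc h1 h2) (enc_rat _ 93 200)) (enc_case (enc_add (kc0q1_9.enc h1 h2) (enc_rat _ 49 100)) (enc_subr 47 8 (enc_neg (enc_scaleT 47 4 (kc0q1_9.enc h1 h2)))) (enc_case (enc_add (kc0q1_9.enc h1 h2) (enc_rat _ 12 25)) (enc_add (enc_subr 2293 2000 (enc_neg (enc_scaleT 21 10 (kc0q1_9.enc h1 h2)))) (enc_mul (enc_norm (kc0q1_3.enc h1 h2)) (enc_norm (enc_add (enc_scaleT 1 10 (kc0q1_9.enc h1 h2)) (enc_rat _ 49 1000))))) (enc_add (enc_add (enc_scaleT 113 75 (kc0q1_9.enc h1 h2)) (enc_rat _ 5847 10000)) (enc_scaleT 1 1000 (kc0q1_3.enc h1 h2))))) (enc_case (enc_add (kc0q1_9.enc h1 h2) (enc_rat _ 43 100)) (enc_case (enc_add (kc0q1_9.enc h1 h2) (enc_rat _ 9 20)) (enc_add (enc_add (kc0q1_94.enc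 h1 h2) (enc_rat _ 727 1250)) (enc_mul (enc_norm (kc0q1_3.enc h1 h2)) (enc_norm (enc_add (enc_scaleT 1 15 (kc0q1_9.enc h1 h2)) (enc_rat _ 4 125))))) (enc_add (enc_add (enc_scaleT 301 200 (kc0q1_9.enc h1 h2)) (enc_rat _ 11677 20000)) (enc_scaleT 1 500 (kc0q1_3.enc h1 h2)))) (enc_case (enc_add (kc0q1_9.enc h1 h2) (enc_rat _ 2 5)) (enc_add (enc_add (kc0q1_94.enc h1 h2) (enc_rat _ 5817 10000)) (enc_mul (enc_norm (kc0q1_3.enc h1 h2)) (enc_norm (enc_add (kc0q1_114.enc h1 h2) (enc_rat _ 49 3000))))) (enc_add (enc_add (kc0q1_119.enc h1 h2) (enc_rat _ 390539 670000)) (enc_mul (enc_norm (kc0q1_3.enc h1 h2)) (enc_norm (enc_add (enc_scaleT 3 67 (kc0q1_9.enc h1 h2)) (enc_rat _ 1401 67000)))))))) (enc_case (enc_subr 167 1000 (kc0q1_9.enc h1 h2)) (enc_case (enc_add (kc0q1_9.enc h1 h2) (enc_rat _ 167 1000)) (enc_add (enc_add (kc0q1_134.enc h1 h2) (enc_rat _ 483643 830000)) (enc_mul (enc_norm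 (kc0q1_3.enc h1 h2)) (enc_norm (enc_add (enc_scaleT 5 166 (kc0q1_9.enc h1 h2)) (enc_rat _ 2661 166000))))) (enc_case (kc0q1_9.enc h1 h2) (enc_add (enc_add (enc_scaleT 251 167 (kc0q1_9.enc h1 h2)) (enc_rat _ 1457 2500)) (enc_mul (enc_norm (kc0q1_3.enc h1 h2)) (enc_norm (enc_add (enc_scaleT 6 167 (kc0q1_9.enc h1 h2)) (enc_rat _ 17 1000))))) (enc_add (enc_add (enc_scaleT 2509 1670 (kc0q1_9.enc h1 h2)) (enc_rat _ 1457 2500)) (enc_mul (enc_norm (kc0q1_3.enc h1 h2)) (enc_norm (enc_add (enc_scaleT 5 167 (kc0q1_9.enc h1 h2)) (enc_rat _ 17 1000))))))) (enc_case (enc_subr 2 5 (kc0q1_9.enc h1 h2)) (enc_case (enc_subr 333 1000 (kc0q1_9.enc h1 h2)) (enc_add (enc_add (kc0q1_134.enc h1 h2) (enc_rat _ 241861 415000)) (enc_mul (enc_norm (kc0q1_3.enc h1 h2)) (enc_norm (enc_add (enc_scaleT 3 83 (kc0q1_9.enc h1 h2)) (enc_rat _ 53 3320))))) (enc_add (enc_add (kc0q1_119.enc h1 h2) (enc_rat _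 195173 335000)) (enc_mul (enc_norm (kc0q1_3.enc h1 h2)) (enc_norm (enc_add (enc_scaleT 2 67 (kc0q1_9.enc h1 h2)) (enc_rat _ 121 6700)))))) (enc_case (enc_subr 43 100 (kc0q1_9.enc h1 h2)) (enc_add (enc_add (enc_scaleT 451 300 (kc0q1_9.enc h1 h2)) (enc_rat _ 8737 15000)) (enc_mul (enc_norm (kc0q1_3.enc h1 h2)) (enc_norm (enc_add (kc0q1_114.enc h1 h2) (enc_rat _ 1 60))))) (enc_add (enc_add (enc_scaleT 15933767083 10598000000 (kc0q1_9.enc h1 h2)) (enc_rat _ 617236235431 1059800000000)) (enc_mul (enc_norm (kc0q1_3.enc h1 h2)) (enc_norm (enc_subr 86828271923 52990000000000 (enc_scaleT 40221355161 529900000000 (kc0q1_9.enc h1 h2)))))))))) (enc_case (enc_subr 587 1262 (kc0q1_9.enc h1 h2)) (enc_sub (enc_add (enc_add (enc_rat _ 3 4) (enc_scaleT 3 2 h1)) (enc_scaleT 3 4 (enc_mul (enc_norm (enc_mul h1 (enc_inv (c1g.enc h1)))) (gug.enc h1)))) (enc_mul (kcg.enc (enc_norm (kc0q1_9.enc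 h1 h2)) h2) (enc_norm (enc_add (gug.enc h1) (enc_nat 2 (c1g.enc h1)))))) (enc_case (enc_subr 242191 500000 (kc0q1_9.enc h1 h2)) (enc_add (enc_sub (enc_rat _ 952190127297227089 60725210000000000) (enc_scaleT 3881846634079 121450420000 (kc0q1_9.enc h1 h2))) (enc_mul (enc_norm (kc0q1_3.enc h1 h2)) (enc_norm (enc_subr 615749382145429907 4671170000000000 (enc_scaleT 2427962473277 9342340000 (kc0q1_9.enc h1 h2)))))) (enc_add (enc_sub (enc_rat _ 16525 2603) (enc_scaleT 33050 2603 (kc0q1_9.enc h1 h2))) (enc_mul (enc_norm (kc0q1_3.enc h1 h2)) (enc_norm (enc_subr 494500 2603 (enc_scaleT 989000 2603 (kc0q1_9.enc h1 h2))))))))))⟩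
noncomputable def yag : Fn1 := ⟨_, _, fun h1 => (enc_sqrt (enc_scaleT 4 3 (enc_sub (enc_pnc _ 1) (enc_sq h1))))⟩
noncomputable def kfc02 : Fn2 := ⟨_, _, fun h1 h2 => (enc_norm (enc_add h1 (enc_mul (enc_norm (enc_subn 1 (yag.enc h1))) (kcg.enc (enc_neg h1) h2))))⟩
noncomputable def lc02_7 : Fn2 := ⟨_, _, fun h1 h2 => (enc_scaleT 3 4 (yag.enc h1))⟩
noncomputable def lc02_8 : Fn2 := ⟨_, _, fun h1 h2 => (enc_half h1)⟩
noncomputable def lc02 : Fn2 := ⟨_, _, fun h1 h2 => (enc_norm (enc_sub (txg.enc (enc_neg h1) (enc_norm (enc_add (lc02_7.enc h1 h2) (lc02_8.enc h1 h2))) h2) (txg.enc h1 (enc_norm (enc_sub (lc02_7.enc h1 h2) (lc02_8.enc h1 h2))) h2)))⟩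
noncomputable def kcc02_15 : Fn2 := ⟨_, _, fun h1 h2 => (enc_scaleT 5567 400 h1)⟩
noncomputable def kcc02 : Fn2 := ⟨_, _, fun h1 h2 => (enc_norm (enc_case (enc_subr 1 10 h1) (enc_pnc _ 0) (enc_case (enc_subr 3 10 h1) (enc_sub (enc_rat _ 5567 4000) (kcc02_15.enc h1 h2)) (enc_subr 5567 800 (kcc02_15.enc h1 h2)))))⟩
noncomputable def swg : Fn1 := ⟨_, _, fun h1 => (enc_sqrt (enc_sub (enc_pnc _ 1) (enc_scaleT 3 4 (enc_sq (enc_norm (enc_subn 1 h1))))))⟩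
noncomputable def cv1m : Fn1 := ⟨_, _, fun h1 => (enc_norm (enc_add (enc_scaleT 4 5 (c1g.enc h1)) (enc_scaleT 1 5 (enc_add (swg.enc h1) (enc_rat _ 1 2)))))⟩
noncomputable def bf1q0_3 : Fn2 := ⟨_, _, fun h1 h2 => (enc_subr 309 320 h2)⟩
noncomputable def bf1q0_22 : Fn2 := ⟨_, _, fun h1 h2 => (enc_scaleT 13 6 h1)⟩
noncomputable def bf1q0_53 : Fn2 := ⟨_, _, fun h1 h2 => (enc_neg (enc_scaleT 64 11 h1))⟩
noncomputable def bf1q0_70 : Fn2 := ⟨_, _, fun h1 h2 => (enc_mul (enc_norm (bf1q0_3.enc h1 h2)) (enc_norm (enc_subr 1121 30000 (enc_neg (enc_scaleT 262 45 h1)))))⟩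
noncomputable def bf1q0_73 : Fn2 := ⟨_, _, fun h1 h2 => (enc_sub (enc_rat _ 20023 20000) (bf1q0_22.enc h1 h2))⟩
noncomputable def bf1q0_91 : Fn2 := ⟨_, _, fun h1 h2 => (enc_scaleT 1354 625 h1)⟩
noncomputable def bf1q0_96 : Fn2 := ⟨_, _, fun h1 h2 => (enc_neg (enc_scaleT 291 50 h1))⟩
noncomputable def bf1q0_100 : Fn2 := ⟨_, _, fun h1 h2 => (enc_mul (enc_norm (bf1q0_3.enc h1 h2)) (enc_norm (enc_subr 187 5000 (bf1q0_96.enc h1 h2))))⟩
noncomputable def bf1q0 : Fn2 := ⟨_, _, fun h1 h2 => (enc_norm (enc_case (enc_subr 21 500 h1) (enc_case (enc_subr 37 2000 h1) (enc_case (enc_subr 67 10000 h1) (enc_sub (enc_sub (enc_pnc _ 1) (enc_scaleT 669 335 h1)) (enc_mul (enc_norm (bf1q0_3.enc h1 h2)) (enc_scaleT 637 67 h1))) (enc_case (enc_subr 133 10000 h1) (enc_add (enc_sub (enc_rat _ 300341 300000) (bf1q0_22.enc h1 h2)) (enc_mul (enc_norm (bf1q0_3.enc h1 h2)) (enc_norm (enc_subr 3869 330000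 (enc_neg (enc_scaleT 256 33 h1)))))) (enc_add (enc_sub (enc_rat _ 2602911 2600000) (enc_scaleT 563 260 h1)) (enc_mul (enc_norm (bf1q0_3.enc h1 h2)) (enc_norm (enc_subr 9791 260000 (enc_neg (enc_scaleT 151 26 h1)))))))) (enc_case (enc_subr 3 125 h1) (enc_add (enc_sub (enc_rat _ 110127 110000) (enc_scaleT 596 275 h1)) (enc_mul (enc_norm (bf1q0_3.enc h1 h2)) (enc_norm (enc_subr 4121 110000 (bf1q0_53.enc h1 h2))))) (enc_case (enc_subr 33 1000 h1) (enc_add (enc_sub (enc_rat _ 150167 150000) (enc_scaleT 1949 900 h1)) (bf1q0_70.enc h1 h2)) (enc_add (bf1q0_73.enc h1 h2) (bf1q0_70.enc h1 h2))))) (enc_case (enc_subr 1 8 h1) (enc_case (enc_subr 3 50 h1) (enc_add (bf1q0_73.enc h1 h2) (enc_mul (enc_norm (bf1q0_3.enc h1 h2)) (enc_norm (enc_subr 47 1250 (enc_neg (enc_scaleT 349 60 h1)))))) (enc_case (enc_subr 17 200 h1) (enc_add (enc_sub (enc_rat _ 500567 500000) (bf1q0_91.enc h1 h2))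 (bf1q0_100.enc h1 h2)) (enc_add (enc_sub (enc_rat _ 400457 400000) (enc_scaleT 4333 2000 h1)) (bf1q0_100.enc h1 h2)))) (enc_case (enc_subr 1 4 h1) (enc_case (enc_subr 9 50 h1) (enc_add (enc_sub (enc_rat _ 550619 550000) (enc_scaleT 2383 1100 h1)) (enc_mul (enc_norm (bf1q0_3.enc h1 h2)) (enc_norm (enc_subr 4139 110000 (bf1q0_53.enc h1 h2))))) (enc_add (enc_sub (enc_rat _ 175199 175000) (enc_scaleT 3033 1400 h1)) (enc_mul (enc_norm (bf1q0_3.enc h1 h2)) (enc_norm (enc_subr 373 10000 (bf1q0_96.enc h1 h2)))))) (enc_case (enc_subr 7 20 h1) (enc_add (enc_sub (enc_rat _ 100113 100000) (bf1q0_91.enc h1 h2)) (enc_mul (enc_norm (bf1q0_3.enc h1 h2)) (enc_norm (enc_subr 751 20000 (enc_neg (enc_scaleT 5819 1000 h1)))))) (enc_add (enc_sub (enc_rat _ 150173 150000) (enc_scaleT 32497 15000 h1)) (enc_mul (enc_norm (bf1q0_3.enc h1 h2)) (enc_norm (enc_subr 93 2500 (bf1q0_96.enc h1 h2))))))))))⟩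
noncomputable def kf1q0 : Fn2 := ⟨_, _, fun h1 h2 => (enc_norm (enc_mul (cv1m.enc h1) (bf1q0.enc h1 h2)))⟩
noncomputable def bx1q0_3 : Fn2 := ⟨_, _, fun h1 h2 => (enc_subr 309 320 h2)⟩
noncomputable def bx1q0_61 : Fn2 := ⟨_, _, fun h1 h2 => (enc_mul (enc_norm (bx1q0_3.enc h1 h2)) (enc_norm (enc_sub (enc_rat _ 203 15000) (enc_scaleT 22 45 h1))))⟩
noncomputable def bx1q0_139 : Fn2 := ⟨_, _, fun h1 h2 => (enc_mul (enc_norm (bx1q0_3.enc h1 h2)) (enc_norm (enc_add (enc_scaleT 297 500 h1) (enc_rat _ 189 1000))))⟩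
noncomputable def bx1q0 : Fn2 := ⟨_, _, fun h1 h2 => (enc_norm (enc_case (enc_subr 21 500 h1) (enc_case (enc_subr 37 2000 h1) (enc_case (enc_subr 67 10000 h1) (enc_add (enc_scaleT 231 670 h1) (enc_mul (enc_norm (bx1q0_3.enc h1 h2)) (enc_scaleT 102 67 h1))) (enc_case (enc_subr 133 10000 h1) (enc_add (enc_subr 2911 6600000 (enc_scaleT 271 660 h1)) (enc_mul (enc_norm (bx1q0_3.enc h1 h2)) (enc_norm (enc_sub (enc_rat _ 2219 165000) (enc_scaleT 16 33 h1))))) (enc_add (enc_subr 2491 5200000 (enc_scaleT 43 104 h1)) (enc_mul (enc_norm (bx1q0_3.enc h1 h2)) (enc_norm (enc_sub (enc_rat _ 1393 104000) (enc_scaleT 25 52 h1))))))) (enc_case (enc_subr 3 125 h1) (enc_add (enc_subr 19 44000 (enc_scaleT 113 275 h1)) (enc_mul (enc_norm (bx1q0_3.enc h1 h2)) (enc_norm (enc_sub (enc_rat _ 747 55000) (enc_scaleT 27 55 h1))))) (enc_case (enc_subr 33 1000 h1) (enc_add (enc_subr 139 300000 (enc_scaleT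 371 900 h1)) (bx1q0_61.enc h1 h2)) (enc_add (enc_add (enc_scaleT 113 300 h1) (enc_rat _ 71 100000)) (bx1q0_61.enc h1 h2))))) (enc_case (enc_subr 1 8 h1) (enc_case (enc_subr 3 50 h1) (enc_add (enc_add (enc_scaleT 589 1800 h1) (enc_rat _ 209 75000)) (enc_mul (enc_norm (bx1q0_3.enc h1 h2)) (enc_norm (enc_subr 119 1200 (enc_scaleT 79 36 h1))))) (enc_case (enc_subr 17 200 h1) (enc_add (enc_add (enc_scaleT 819 2500 h1) (enc_rat _ 691 250000)) (enc_mul (enc_norm (bx1q0_3.enc h1 h2)) (enc_norm (enc_subr 4963 50000 (enc_scaleT 549 250 h1))))) (enc_add (enc_subr 14531 400000 (enc_scaleT 63 80 h1)) (enc_mul (enc_norm (bx1q0_3.enc h1 h2)) (enc_norm (enc_subr 3967 40000 (enc_scaleT 439 200 h1))))))) (enc_case (enc_subr 1 4 h1) (enc_case (enc_subr 9 50 h1) (enc_add (enc_subr 19977 550000 (enc_scaleT 4331 5500 h1)) (enc_mul (enc_norm (bx1q0_3.enc h1 h2)) (enc_norm (enc_subr 10903 110000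 (enc_scaleT 1207 550 h1))))) (enc_add (enc_subr 291 8750 (enc_scaleT 5393 7000 h1)) (enc_mul (enc_norm (bx1q0_3.enc h1 h2)) (enc_norm (enc_add (enc_scaleT 104 175 h1) (enc_rat _ 529 2800)))))) (enc_case (enc_subr 7 20 h1) (enc_add (enc_subr 1261 40000 (enc_scaleT 1527 2000 h1)) (bx1q0_139.enc h1 h2)) (enc_add (enc_add (enc_scaleT 431 1500 h1) (enc_rat _ 2027 15000)) (bx1q0_139.enc h1 h2)))))))⟩
noncomputable def l1q0 : Fn2 := ⟨_, _, fun h1 h2 => (enc_norm (enc_mul (cv1m.enc h1) (bx1q0.enc h1 h2)))⟩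
noncomputable def bd1q0 : Fn2 := ⟨_, _, fun h1 h2 => (enc_norm (enc_case (enc_subr 3 125 h1) (enc_case (enc_subr 1 100 h1) (enc_neg (enc_scaleT 971 100 h1)) (enc_subr 827 70000 (enc_neg (enc_scaleT 597 70 h1)))) (enc_case (enc_subr 21 500 h1) (enc_subr 117 10000 (enc_neg (enc_scaleT 128 15 h1))) (enc_subr 27101 2290000 (enc_neg (enc_scaleT 9767 1145 h1))))))⟩
noncomputable def kc1q0 : Fn2 := ⟨_, _, fun h1 h2 => (enc_norm (enc_mul (cv1m.enc h1) (bd1q0.enc h1 h2)))⟩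
noncomputable def bf1q1_3 : Fn2 := ⟨_, _, fun h1 h2 => (enc_subr 309 320 h2)⟩
noncomputable def bf1q1 : Fn2 := ⟨_, _, fun h1 h2 => (enc_norm (enc_case (enc_subr 7 8 h1) (enc_add (enc_subr 1125127 300000 (enc_scaleT 87221 18750 h1)) (enc_mul (enc_norm (bf1q1_3.enc h1 h2)) (enc_norm (enc_sub (enc_rat _ 209 1875) (enc_scaleT 418 1875 h1))))) (enc_add (enc_subr 2344 625 (enc_scaleT 58147 12500 h1)) (enc_mul (enc_norm (bf1q1_3.enc h1 h2)) (enc_norm (enc_sub (enc_rat _ 111 1000) (enc_scaleT 139 625 h1)))))))⟩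
noncomputable def kf1q1 : Fn2 := ⟨_, _, fun h1 h2 => (enc_norm (enc_mul (cv1m.enc h1) (bf1q1.enc h1 h2)))⟩
noncomputable def bx1q1_3 : Fn2 := ⟨_, _, fun h1 h2 => (enc_subr 309 320 h2)⟩
noncomputable def bx1q1 : Fn2 := ⟨_, _, fun h1 h2 => (enc_norm (enc_case (enc_subr 7 8 h1) (enc_add (enc_sub (enc_rat _ 1013 3000) (enc_scaleT 883 7500 h1)) (enc_mul (enc_norm (bx1q1_3.enc h1 h2)) (enc_norm (enc_add (enc_scaleT 2227 3750 h1) (enc_rat _ 709 3750))))) (enc_add (enc_sub (enc_rat _ 57821 100000) (enc_scaleT 1227 3125 h1)) (enc_mul (enc_norm (bx1q1_3.enc h1 h2)) (enc_norm (enc_add (enc_scaleT 371 625 h1) (enc_rat _ 1893 10000)))))))⟩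
noncomputable def l1q1 : Fn2 := ⟨_, _, fun h1 h2 => (enc_norm (enc_mul (cv1m.enc h1) (bx1q1.enc h1 h2)))⟩
noncomputable def bd1q1 : Fn2 := ⟨_, _, fun h1 h2 => (enc_norm (enc_subr 117 10000 (enc_neg (enc_scaleT 10663 1250 h1))))⟩
noncomputable def kc1q1 : Fn2 := ⟨_, _, fun h1 h2 => (enc_norm (enc_mul (cv1m.enc h1) (bd1q1.enc h1 h2)))⟩
noncomputable def xc12a : Fn1 := ⟨_, _, fun h1 => (enc_norm (enc_add (enc_scaleT 4 5 h1) (enc_scaleT 1 5 (enc_subr 1 2 (swg.enc (yag.enc h1))))))⟩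
noncomputable def bf1q2_3 : Fn2 := ⟨_, _, fun h1 h2 => (enc_subr 309 320 h2)⟩
noncomputable def bf1q2 : Fn2 := ⟨_, _, fun h1 h2 => (enc_norm (enc_case (enc_subr 217 200 h1) (enc_case (enc_subr 521 500 h1) (enc_case (enc_subr 128 125 h1) (enc_add (enc_sub (enc_rat _ 11419 2400) (enc_scaleT 9019 2400 h1)) (enc_mul (enc_norm (bf1q2_3.enc h1 h2)) (enc_norm (enc_sub (enc_rat _ 3041 240) (enc_scaleT 3041 240 h1))))) (enc_add (enc_sub (enc_rat _ 701797 100000) (enc_scaleT 1193 200 h1)) (enc_mul (enc_norm (bf1q2_3.enc h1 h2)) (enc_norm (enc_sub (enc_rat _ 379997 30000) (enc_scaleT 38 3 h1)))))) (enc_case (enc_subr 53 50 h1) (enc_add (enc_sub (enc_rat _ 1578913 225000) (enc_scaleT 1342 225 h1)) (enc_mul (enc_norm (bf1q2_3.enc h1 h2)) (enc_norm (enc_sub (enc_rat _ 71282 5625) (enc_scaleT 2281 180 h1))))) (enc_add (enc_sub (enc_rat _ 438637 62500) (enc_scaleT 14913 2500 h1)) (enc_mul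 (enc_norm (bf1q2_3.enc h1 h2)) (enc_norm (enc_sub (enc_rat _ 316803 25000) (enc_scaleT 1584 125 h1))))))) (enc_case (enc_subr 231 200 h1) (enc_case (enc_subr 577 500 h1) (enc_add (enc_sub (enc_rat _ 605290633 86250000) (enc_scaleT 5144723 862500 h1)) (enc_mul (enc_norm (bf1q2_3.enc h1 h2)) (enc_norm (enc_sub (enc_rat _ 145700953 11500000) (enc_scaleT 728509 57500 h1))))) (enc_add (enc_sub (enc_rat _ 41381 6250) (enc_scaleT 35131 6250 h1)) (enc_mul (enc_norm (bf1q2_3.enc h1 h2)) (enc_norm (enc_sub (enc_rat _ 63351 5000) (enc_scaleT 63351 5000 h1)))))) (enc_case (enc_subr 13 10 h1) (enc_add (enc_sub (enc_rat _ 96004151 14500000) (enc_scaleT 2037603 362500 h1)) (enc_mul (enc_norm (bf1q2_3.enc h1 h2)) (enc_norm (enc_sub (enc_rat _ 4593063 362500) (enc_scaleT 1837219 145000 h1))))) (enc_add (enc_sub (enc_rat _ 1324189 200000) (enc_scaleT 112419 20000 h1)) (enc_mul (enc_norm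 (bf1q2_3.enc h1 h2)) (enc_norm (enc_sub (enc_rat _ 126699 10000) (enc_scaleT 1267 100 h1)))))))))⟩
noncomputable def kfc12a : Fn2 := ⟨_, _, fun h1 h2 => (enc_norm (enc_mul (enc_norm (enc_add (enc_scaleT 4 5 h1) (enc_scaleT 1 5 (enc_subr 1 2 (swg.enc (yag.enc h1)))))) (bf1q2.enc (yag.enc h1) h2)))⟩
noncomputable def bx1q2_3 : Fn2 := ⟨_, _, fun h1 h2 => (enc_subr 309 320 h2)⟩
noncomputable def bx1q2 : Fn2 := ⟨_, _, fun h1 h2 => (enc_norm (enc_case (enc_subr 217 200 h1) (enc_case (enc_subr 521 500 h1) (enc_case (enc_subr 128 125 h1) (enc_add (enc_sub (enc_rat _ 4147 2400) (enc_scaleT 4147 2400 h1)) (enc_mul (enc_norm (bx1q2_3.enc h1 h2)) (enc_norm (enc_sub (enc_rat _ 2089 120) (enc_scaleT 2089 120 h1))))) (enc_add (enc_sub (enc_rat _ 127867 60000) (enc_scaleT 1273 600 h1)) (enc_mul (enc_norm (bx1q2_3.enc h1 h2)) (enc_norm (enc_sub (enc_rat _ 545167 45000) (enc_scaleT 2203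 180 h1)))))) (enc_case (enc_subr 53 50 h1) (enc_add (enc_sub (enc_rat _ 324787 900000) (enc_scaleT 761 1800 h1)) (enc_mul (enc_norm (bx1q2_3.enc h1 h2)) (enc_norm (enc_subr 2121631 90000 (enc_scaleT 1981 90 h1))))) (enc_add (enc_sub (enc_rat _ 227937 500000) (enc_scaleT 1281 2500 h1)) (enc_mul (enc_norm (bx1q2_3.enc h1 h2)) (enc_norm (enc_subr 44319 50000 (enc_scaleT 76 125 h1))))))) (enc_case (enc_subr 231 200 h1) (enc_case (enc_subr 577 500 h1) (enc_add (enc_sub (enc_rat _ 88947791 138000000) (enc_scaleT 473543 690000 h1)) (enc_mul (enc_norm (bx1q2_3.enc h1 h2)) (enc_norm (enc_subr 796003 3450000 (enc_scaleT 32 8625 h1))))) (enc_sub (enc_neg (enc_rat _ 1474343 10000000)) (enc_scaleT 56611 250000 (bx1q2_3.enc h1 h2)))) (enc_case (enc_subr 13 10 h1) (enc_add (enc_subr 10249087 7250000 (enc_scaleT 1589643 1450000 h1)) (enc_mul (enc_norm (bx1q2_3.enc h1 h2)) (enc_norm (enc_subr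 396581 725000 (enc_scaleT 10061 36250 h1))))) (enc_add (enc_subr 70683 50000 (enc_scaleT 10963 10000 h1)) (enc_mul (enc_norm (bx1q2_3.enc h1 h2)) (enc_norm (enc_subr 5489 10000 (enc_scaleT 279 1000 h1)))))))))⟩
noncomputable def lc12a : Fn2 := ⟨_, _, fun h1 h2 => (enc_norm (enc_mul (enc_norm (enc_add (enc_scaleT 4 5 h1) (enc_scaleT 1 5 (enc_subr 1 2 (swg.enc (yag.enc h1)))))) (bx1q2.enc (yag.enc h1) h2)))⟩
noncomputable def bd1q2 : Fn2 := ⟨_, _, fun h1 h2 => (enc_pnc _ 0)⟩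
noncomputable def kcc12a : Fn2 := ⟨_, _, fun h1 h2 => (enc_norm (enc_mul (enc_norm (enc_add (enc_scaleT 4 5 h1) (enc_scaleT 1 5 (enc_subr 1 2 (swg.enc (yag.enc h1)))))) (bd1q2.enc (yag.enc h1) h2)))⟩
noncomputable def xc12b : Fn1 := ⟨_, _, fun h1 => (enc_norm (enc_scaleT 1 5 (enc_subr 1 2 (swg.enc h1))))⟩
noncomputable def kfc12b : Fn2 := ⟨_, _, fun h1 h2 => (enc_norm (enc_mul (enc_norm (enc_scaleT 1 5 (enc_subr 1 2 (swg.enc h1)))) (bf1q2.enc h1 h2)))⟩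
noncomputable def lc12b : Fn2 := ⟨_, _, fun h1 h2 => (enc_norm (enc_mul (enc_norm (enc_scaleT 1 5 (enc_subr 1 2 (swg.enc h1)))) (bx1q2.enc h1 h2)))⟩
noncomputable def kcc12b : Fn2 := ⟨_, _, fun h1 h2 => (enc_norm (enc_mul (enc_norm (enc_scaleT 1 5 (enc_subr 1 2 (swg.enc h1)))) (bd1q2.enc h1 h2)))⟩
noncomputable def cv1r : Fn1 := ⟨_, _, fun h1 => (enc_norm (enc_scaleT 1 5 (enc_subr 1 2 (swg.enc h1))))⟩
noncomputable def c3g : Fn1 := ⟨_, _, fun h1 => (enc_sqrtg (enc_sub (enc_pnc _ 3) (enc_scaleT 3 4 (enc_sq h1))))⟩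
noncomputable def kf1q3 : Fn2 := ⟨_, _, fun h1 h2 => (enc_norm (enc_mul (cv1r.enc h1) (enc_norm (enc_case (enc_subr 247 125 h1) (enc_case (enc_subr 97 50 h1) (enc_case (enc_subr 383 200 h1) (enc_sub (enc_rat _ 139472961 8300000) (enc_scaleT 178053 20750 h1)) (enc_sub (enc_rat _ 8401921 500000) (enc_scaleT 5363 625 h1))) (enc_case (enc_subr 979 500 h1) (enc_sub (enc_rat _ 15123031 900000) (enc_scaleT 3089 360 h1)) (enc_sub (enc_rat _ 1512401 90000) (enc_scaleT 7723 900 h1)))) (enc_case (enc_sub (enc_rat _ 118673639 1000000000) (c3g.enc h1)) (enc_case (enc_sub (enc_rat _ 172988439 1000000000) (c3g.enc h1)) (enc_sub (enc_rat _ 80484574517 118166903750) (enc_scaleT 294330000 94533523 (c3g.enc h1))) (enc_sub (enc_rat _ 369927471829 543148000000) (enc_scaleT 422750 135787 (c3g.enc h1)))) (enc_case (enc_sub (enc_rat _ 59990999 1000000000) (c3g.enc h1)) (enc_sub (enc_rat _ 210362937011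 308856000000) (enc_scaleT 2283875 733533 (c3g.enc h1))) (enc_sub (enc_rat _ 6811 10000) (enc_scaleT 186780000 59990999 (c3g.enc h1)))))))))⟩
noncomputable def l1q3_4 : Fn2 := ⟨_, _, fun h1 h2 => (enc_subr 309 320 h2)⟩
noncomputable def l1q3_43 : Fn2 := ⟨_, _, fun h1 h2 => (enc_mul (enc_norm (l1q3_4.enc h1 h2)) (enc_norm (enc_subr 1967 3600 (enc_scaleT 5 18 h1))))⟩
noncomputable def l1q3 : Fn2 := ⟨_, _, fun h1 h2 => (enc_norm (enc_mul (cv1r.enc h1) (enc_norm (enc_case (enc_subr 247 125 h1) (enc_case (enc_subr 97 50 h1) (enc_case (enc_subr 383 200 h1) (enc_add (enc_subr 11734143 8300000 (enc_scaleT 45499 41500 h1)) (enc_mul (enc_norm (l1q3_4.enc h1 h2)) (enc_norm (enc_subr 113983 207500 (enc_scaleT 1159 4150 h1))))) (enc_add (enc_subr 70653 50000 (enc_scaleT 137 125 h1)) (enc_mul (enc_norm (l1q3_4.enc h1 h2)) (enc_norm (enc_subr 5507 10000 (enc_scaleT 7 25 h1)))))) (enc_case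 (enc_subr 1967 1000 h1) (enc_add (enc_subr 212153 150000 (enc_scaleT 329 300 h1)) (l1q3_43.enc h1 h2)) (enc_add (enc_subr 1270951 900000 (enc_scaleT 493 450 h1)) (l1q3_43.enc h1 h2)))) (enc_case (enc_sub (enc_rat _ 118673639 1000000000) (c3g.enc h1)) (enc_case (enc_sub (enc_rat _ 172988439 1000000000) (c3g.enc h1)) (enc_add (enc_sub (enc_rat _ 1236608518811 1350478900000) (enc_scaleT 8230000 13504789 (c3g.enc h1))) (enc_mul (enc_norm (l1q3_4.enc h1 h2)) (enc_norm (enc_subr 579403507 945335230000 (enc_scaleT 1100000 94533523 (c3g.enc h1)))))) (enc_add (enc_sub (enc_rat _ 4973675706329 5431480000000) (enc_scaleT 82775 135787 (c3g.enc h1))) (enc_mul (enc_norm (l1q3_4.enc h1 h2)) (enc_norm (enc_subr 450511873 543148000000 (enc_scaleT 1750 135787 (c3g.enc h1))))))) (enc_case (enc_sub (enc_rat _ 59990999 1000000000) (c3g.enc h1)) (enc_add (enc_sub (enc_rat _ 11783979699 12869000000)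 (enc_scaleT 149000 244511 (c3g.enc h1))) (enc_mul (enc_norm (l1q3_4.enc h1 h2)) (enc_norm (enc_subr 22101947 30885600000 (enc_scaleT 8750 733533 (c3g.enc h1)))))) (enc_add (enc_sub (enc_rat _ 91569 100000) (enc_scaleT 36560000 59990999 (c3g.enc h1))) (enc_mul (enc_norm (l1q3_4.enc h1 h2)) (enc_norm (enc_subr 7 10000 (enc_scaleT 700000 59990999 (c3g.enc h1))))))))))))⟩
noncomputable def kc1q3 : Fn2 := ⟨_, _, fun h1 h2 => (enc_norm (enc_mul (cv1r.enc h1) (enc_norm (enc_case (enc_subr 247 125 h1) (enc_pnc _ 0) (enc_subr 43493 2500 (enc_scaleT 8698600000 133760981 (c3g.enc h1)))))))⟩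
noncomputable def cv2m : Fn1 := ⟨_, _, fun h1 => (enc_norm (enc_add (enc_scaleT 2 5 (c1g.enc h1)) (enc_scaleT 3 5 (enc_add (swg.enc h1) (enc_rat _ 1 2)))))⟩
noncomputable def bf2q0_3 : Fn2 := ⟨_, _, fun h1 h2 => (enc_subr 309 320 h2)⟩
noncomputable def bf2q0_43 : Fn2 := ⟨_, _, fun h1 h2 => (enc_scaleT 987 275 h1)⟩
noncomputable def bf2q0_55 : Fn2 := ⟨_, _, fun h1 h2 => (enc_scaleT 323 90 h1)⟩
noncomputable def bf2q0_63 : Fn2 := ⟨_, _, fun h1 h2 => (enc_mul (enc_norm (bf2q0_3.enc h1 h2)) (enc_norm (enc_sub (enc_rat _ 13831 30000) (enc_scaleT 2759 90 h1))))⟩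
noncomputable def bf2q0_82 : Fn2 := ⟨_, _, fun h1 h2 => (enc_scaleT 8973 2500 h1)⟩
noncomputable def bf2q0_86 : Fn2 := ⟨_, _, fun h1 h2 => (enc_scaleT 3832 125 h1)⟩
noncomputable def bf2q0_133 : Fn2 := ⟨_, _, fun h1 h2 => (enc_mul (enc_norm (bf2q0_3.enc h1 h2)) (enc_norm (enc_sub (enc_rat _ 461 1000) (bf2q0_86.enc h1 h2))))⟩
noncomputable def bf2q0 : Fn2 := ⟨_, _, fun h1 h2 => (enc_norm (enc_case (enc_subr 21 500 h1) (enc_case (enc_subr 37 2000 h1) (enc_case (enc_subr 67 10000 h1) (enc_add (enc_sub (enc_pnc _ 1) (enc_scaleT 542 335 h1)) (enc_mul (enc_norm (bf2q0_3.enc h1 h2)) (enc_scaleT 269 67 h1))) (enc_case (enc_subr 133 10000 h1) (enc_add (enc_sub (enc_rat _ 3301949 3300000) (enc_scaleT 563 330 h1)) (enc_mul (enc_norm (bf2q0_3.enc h1 h2)) (enc_norm (enc_add (enc_nat 4 h1) (enc_rat _ 1 10000))))) (enc_add (enc_sub (enc_rat _ 5299609 5200000) (enc_scaleT 1613 520 h1))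 (enc_mul (enc_norm (bf2q0_3.enc h1 h2)) (enc_norm (enc_sub (enc_rat _ 119859 260000) (enc_scaleT 797 26 h1))))))) (enc_case (enc_subr 3 125 h1) (enc_add (enc_sub (enc_rat _ 226197 220000) (bf2q0_43.enc h1 h2)) (enc_mul (enc_norm (bf2q0_3.enc h1 h2)) (enc_norm (enc_sub (enc_rat _ 50711 110000) (enc_scaleT 1686 55 h1))))) (enc_case (enc_subr 33 1000 h1) (enc_add (enc_sub (enc_rat _ 308449 300000) (bf2q0_55.enc h1 h2)) (bf2q0_63.enc h1 h2)) (enc_add (enc_sub (enc_rat _ 5141 5000) (enc_scaleT 359 100 h1)) (bf2q0_63.enc h1 h2))))) (enc_case (enc_subr 1 8 h1) (enc_case (enc_subr 3 50 h1) (enc_add (enc_sub (enc_rat _ 154223 150000) (bf2q0_55.enc h1 h2)) (bf2q0_63.enc h1 h2)) (enc_case (enc_subr 17 200 h1) (enc_add (enc_sub (enc_rat _ 257043 250000) (bf2q0_82.enc h1 h2)) (enc_mul (enc_norm (bf2q0_3.enc h1 h2)) (enc_norm (enc_sub (enc_rat _ 23053 50000) (bf2q0_86.enc h1 h2)))))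 (enc_add (enc_sub (enc_rat _ 822541 800000) (enc_scaleT 14357 4000 h1)) (enc_mul (enc_norm (bf2q0_3.enc h1 h2)) (enc_norm (enc_sub (enc_rat _ 7379 16000) (enc_scaleT 12263 400 h1))))))) (enc_case (enc_subr 1 4 h1) (enc_case (enc_subr 9 50 h1) (enc_add (enc_sub (enc_rat _ 282743 275000) (bf2q0_43.enc h1 h2)) (enc_mul (enc_norm (bf2q0_3.enc h1 h2)) (enc_norm (enc_sub (enc_rat _ 10143 22000) (enc_scaleT 16861 550 h1))))) (enc_add (enc_sub (enc_rat _ 179929 175000) (enc_scaleT 6281 1750 h1)) (enc_mul (enc_norm (bf2q0_3.enc h1 h2)) (enc_norm (enc_sub (enc_rat _ 6453 14000) (enc_scaleT 21459 700 h1)))))) (enc_case (enc_subr 7 20 h1) (enc_add (enc_sub (enc_rat _ 51409 50000) (bf2q0_82.enc h1 h2)) (bf2q0_133.enc h1 h2)) (enc_add (enc_sub (enc_rat _ 308447 300000) (enc_scaleT 53837 15000 h1)) (bf2q0_133.enc h1 h2)))))))⟩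
noncomputable def kf2q0 : Fn2 := ⟨_, _, fun h1 h2 => (enc_norm (enc_mul (cv2m.enc h1) (bf2q0.enc h1 h2)))⟩
noncomputable def bx2q0_3 : Fn2 := ⟨_, _, fun h1 h2 => (enc_subr 309 320 h2)⟩
noncomputable def bx2q0 : Fn2 := ⟨_, _, fun h1 h2 => (enc_norm (enc_case (enc_subr 21 500 h1) (enc_case (enc_subr 37 2000 h1) (enc_case (enc_subr 67 10000 h1) (enc_add (enc_scaleT 55 67 h1) (enc_mul (enc_norm (bx2q0_3.enc h1 h2)) (enc_scaleT 291 67 h1))) (enc_case (enc_subr 133 10000 h1) (enc_add (enc_subr 2359 6600000 (enc_scaleT 577 660 h1)) (enc_mul (enc_norm (bx2q0_3.enc h1 h2)) (enc_norm (enc_add (enc_scaleT 5 11 h1) (enc_rat _ 1433 55000))))) (enc_add (enc_add (enc_scaleT 391 520 h1) (enc_rat _ 6601 5200000)) (enc_mul (enc_norm (bx2q0_3.enc h1 h2)) (enc_norm (enc_add (enc_scaleT 45 52 h1) (enc_rat _ 10707 520000))))))) (enc_case (enc_subr 3 125 h1) (enc_add (enc_add (enc_scaleT 421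 550 h1) (enc_rat _ 1121 1100000)) (enc_mul (enc_norm (bx2q0_3.enc h1 h2)) (enc_norm (enc_add (enc_scaleT 49 55 h1) (enc_rat _ 2213 110000))))) (enc_case (enc_subr 33 1000 h1) (enc_add (enc_add (enc_scaleT 58 75 h1) (enc_rat _ 83 100000)) (enc_mul (enc_norm (bx2q0_3.enc h1 h2)) (enc_norm (enc_add (enc_scaleT 79 90 h1) (enc_rat _ 613 30000))))) (enc_add (enc_add (enc_scaleT 203 300 h1) (enc_rat _ 201 50000)) (enc_mul (enc_norm (bx2q0_3.enc h1 h2)) (enc_norm (enc_sub (enc_rat _ 199 3750) (enc_scaleT 1 9 h1)))))))) (enc_case (enc_subr 1 8 h1) (enc_case (enc_subr 3 50 h1) (enc_add (enc_add (enc_scaleT 1219 1800 h1) (enc_rat _ 1199 300000)) (enc_mul (enc_norm (bx2q0_3.enc h1 h2)) (enc_norm (enc_sub (enc_rat _ 317 6000) (enc_scaleT 19 180 h1))))) (enc_case (enc_subr 17 200 h1) (enc_add (enc_add (enc_scaleT 1691 2500 h1) (enc_rat _ 2023 500000)) (enc_mul (enc_norm (bx2q0_3.enc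 h1 h2)) (enc_norm (enc_sub (enc_rat _ 2637 50000) (enc_scaleT 13 125 h1))))) (enc_add (enc_add (enc_scaleT 1351 2000 h1) (enc_rat _ 1649 400000)) (enc_mul (enc_norm (bx2q0_3.enc h1 h2)) (enc_norm (enc_sub (enc_rat _ 4243 80000) (enc_scaleT 43 400 h1))))))) (enc_case (enc_subr 1 4 h1) (enc_case (enc_subr 9 50 h1) (enc_add (enc_add (enc_scaleT 184 275 h1) (enc_rat _ 677 137500)) (enc_mul (enc_norm (bx2q0_3.enc h1 h2)) (enc_norm (enc_sub (enc_rat _ 2903 55000) (enc_scaleT 29 275 h1))))) (enc_add (enc_add (enc_scaleT 2871 7000 h1) (enc_rat _ 18037 350000)) (enc_mul (enc_norm (bx2q0_3.enc h1 h2)) (enc_norm (enc_sub (enc_rat _ 1849 35000) (enc_scaleT 37 350 h1)))))) (enc_case (enc_subr 7 20 h1) (enc_add (enc_add (enc_scaleT 627 10000 h1) (enc_rat _ 27679 200000)) (enc_mul (enc_norm (bx2q0_3.enc h1 h2)) (enc_norm (enc_sub (enc_rat _ 1053 20000) (enc_scaleT 21 200 h1))))) (enc_add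 (enc_sub (enc_rat _ 62221 300000) (enc_scaleT 2017 15000 h1)) (enc_mul (enc_norm (bx2q0_3.enc h1 h2)) (enc_norm (enc_sub (enc_rat _ 53 1000) (enc_scaleT 53 500 h1))))))))))⟩
noncomputable def l2q0 : Fn2 := ⟨_, _, fun h1 h2 => (enc_norm (enc_mul (cv2m.enc h1) (bx2q0.enc h1 h2)))⟩
noncomputable def bd2q0_3 : Fn2 := ⟨_, _, fun h1 h2 => (enc_subr 309 320 h2)⟩
noncomputable def bd2q0_29 : Fn2 := ⟨_, _, fun h1 h2 => (enc_sub (enc_rat _ 131 10000) (enc_scaleT 883 30 h1))⟩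
noncomputable def bd2q0 : Fn2 := ⟨_, _, fun h1 h2 => (enc_norm (enc_case (enc_subr 3 125 h1) (enc_case (enc_subr 1 100 h1) (enc_sub (enc_mul (enc_norm (bd2q0_3.enc h1 h2)) (enc_scaleT 1203 5 h1)) (enc_scaleT 827 50 h1)) (enc_add (enc_sub (enc_rat _ 14817 70000) (enc_scaleT 5279 140 h1)) (enc_mul (enc_norm (bd2q0_3.enc h1 h2)) (enc_norm (enc_add (enc_scaleT 1684 7 h1) (enc_rat _ 1 3500)))))) (enc_case (enc_subr 3 100 h1) (enc_add (bd2q0_29.enc h1 h2) (enc_mul (enc_norm (bd2q0_3.enc h1 h2)) (enc_norm (enc_add (enc_scaleT 481 2 h1) (enc_rat _ 1 500))))) (enc_case (enc_subr 21 500 h1) (enc_add (bd2q0_29.enc h1 h2) (enc_mul (enc_norm (bd2q0_3.enc h1 h2)) (enc_norm (enc_subr 1 2000 (enc_scaleT 2887 12 h1))))) (enc_add (enc_sub (enc_rat _ 29523 2290000) (enc_scaleT 67391 2290 h1)) (enc_mul (enc_norm (bd2q0_3.enc h1 h2)) (enc_norm (enc_sub (enc_rat _ 1207623 114500) (enc_scaleT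 2415 229 h1)))))))))⟩
noncomputable def kc2q0 : Fn2 := ⟨_, _, fun h1 h2 => (enc_norm (enc_mul (cv2m.enc h1) (bd2q0.enc h1 h2)))⟩
noncomputable def bf2q1_3 : Fn2 := ⟨_, _, fun h1 h2 => (enc_subr 309 320 h2)⟩
noncomputable def bf2q1_9 : Fn2 := ⟨_, _, fun h1 h2 => (enc_subr 183649 100000 (enc_scaleT 7533 3125 h1))⟩
noncomputable def bf2q1 : Fn2 := ⟨_, _, fun h1 h2 => (enc_norm (enc_case (enc_subr 7 8 h1) (enc_add (bf2q1_9.enc h1 h2) (enc_mul (enc_norm (bf2q1_3.enc h1 h2)) (enc_norm (enc_sub (enc_rat _ 107 1500) (enc_scaleT 107 750 h1))))) (enc_add (bf2q1_9.enc h1 h2) (enc_mul (enc_norm (bf2q1_3.enc h1 h2)) (enc_norm (enc_sub (enc_rat _ 711 10000) (enc_scaleT 89 625 h1)))))))⟩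
noncomputable def kf2q1 : Fn2 := ⟨_, _, fun h1 h2 => (enc_norm (enc_mul (cv2m.enc h1) (bf2q1.enc h1 h2)))⟩
noncomputable def bx2q1_14 : Fn2 := ⟨_, _, fun h1 h2 => (enc_mul (enc_norm (enc_subr 309 320 h2)) (enc_norm (enc_sub (enc_rat _ 33 625) (enc_scaleT 66 625 h1))))⟩
noncomputable def bx2q1 : Fn2 := ⟨_, _, fun h1 h2 => (enc_norm (enc_case (enc_subr 7 8 h1) (enc_add (enc_sub (enc_rat _ 62239 300000) (enc_scaleT 5047 37500 h1)) (bx2q1_14.enc h1 h2)) (enc_add (enc_sub (enc_rat _ 2593 12500) (enc_scaleT 841 6250 h1)) (bx2q1_14.enc h1 h2))))⟩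
noncomputable def l2q1 : Fn2 := ⟨_, _, fun h1 h2 => (enc_norm (enc_mul (cv2m.enc h1) (bx2q1.enc h1 h2)))⟩
noncomputable def bd2q1 : Fn2 := ⟨_, _, fun h1 h2 => (enc_norm (enc_add (enc_sub (enc_rat _ 129 10000) (enc_scaleT 73571 2500 h1)) (enc_mul (enc_norm (enc_subr 309 320 h2)) (enc_norm (enc_sub (enc_rat _ 2637 250) (enc_scaleT 2637 250 h1))))))⟩
noncomputable def kc2q1 : Fn2 := ⟨_, _, fun h1 h2 => (enc_norm (enc_mul (cv2m.enc h1) (bd2q1.enc h1 h2)))⟩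
noncomputable def xc22a : Fn1 := ⟨_, _, fun h1 => (enc_norm (enc_add (enc_scaleT 2 5 h1) (enc_scaleT 3 5 (enc_subr 1 2 (swg.enc (yag.enc h1))))))⟩
noncomputable def bf2q2_3 : Fn2 := ⟨_, _, fun h1 h2 => (enc_subr 309 320 h2)⟩
noncomputable def bf2q2_28 : Fn2 := ⟨_, _, fun h1 h2 => (enc_mul (enc_norm (bf2q2_3.enc h1 h2)) (enc_norm (enc_sub (enc_rat _ 1124003 90000) (enc_scaleT 562 45 h1))))⟩
noncomputable def bf2q2_51 : Fn2 := ⟨_, _, fun h1 h2 => (enc_scaleT 4953 1000 h1)⟩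
noncomputable def bf2q2 : Fn2 := ⟨_, _, fun h1 h2 => (enc_norm (enc_case (enc_subr 53 50 h1) (enc_case (enc_subr 128 125 h1) (enc_add (enc_sub (enc_rat _ 14287 2400) (enc_scaleT 11887 2400 h1)) (enc_mul (enc_norm (bf2q2_3.enc h1 h2)) (enc_norm (enc_sub (enc_rat _ 999 80) (enc_scaleT 999 80 h1))))) (enc_case (enc_subr 521 500 h1) (enc_add (enc_sub (enc_rat _ 1786003 300000) (enc_scaleT 743 150 h1)) (bf2q2_28.enc h1 h2)) (enc_add (enc_sub (enc_rat _ 334843 56250) (enc_scaleT 1783 360 h1)) (bf2q2_28.enc h1 h2)))) (enc_case (enc_subr 231 200 h1) (enc_case (enc_subr 217 200 h1) (enc_add (enc_sub (enc_rat _ 1488303 250000) (enc_scaleT 12383 2500 h1)) (enc_mul (enc_norm (bf2q2_3.enc h1 h2)) (enc_norm (enc_sub (enc_rat _ 624611 50000) (enc_scaleT 3123 250 h1))))) (enc_add (enc_sub (enc_rat _ 1190599 200000) (bf2q2_51.enc h1 h2)) (enc_mul (enc_norm (bf2q2_3.enc h1 h2)) (enc_norm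 (enc_sub (enc_rat _ 24977 2000) (enc_scaleT 4371 350 h1)))))) (enc_case (enc_subr 13 10 h1) (enc_add (enc_sub (enc_rat _ 1726357 290000) (enc_scaleT 35909 7250 h1)) (enc_mul (enc_norm (bf2q2_3.enc h1 h2)) (enc_norm (enc_sub (enc_rat _ 3621797 290000) (enc_scaleT 18109 1450 h1))))) (enc_add (enc_sub (enc_rat _ 5953 1000) (bf2q2_51.enc h1 h2)) (enc_mul (enc_norm (bf2q2_3.enc h1 h2)) (enc_norm (enc_sub (enc_rat _ 249793 20000) (enc_scaleT 24979 2000 h1)))))))))⟩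
noncomputable def kfc22a : Fn2 := ⟨_, _, fun h1 h2 => (enc_norm (enc_mul (enc_norm (enc_add (enc_scaleT 2 5 h1) (enc_scaleT 3 5 (enc_subr 1 2 (swg.enc (yag.enc h1)))))) (bf2q2.enc (yag.enc h1) h2)))⟩
noncomputable def bx2q2_3 : Fn2 := ⟨_, _, fun h1 h2 => (enc_subr 309 320 h2)⟩
noncomputable def bx2q2_28 : Fn2 := ⟨_, _, fun h1 h2 => (enc_mul (enc_norm (bx2q2_3.enc h1 h2)) (enc_norm (enc_sub (enc_rat _ 38497 90000) (enc_scaleT 77 180 h1))))⟩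
noncomputable def bx2q2_45 : Fn2 := ⟨_, _, fun h1 h2 => (enc_scaleT 107 250 h1)⟩
noncomputable def bx2q2 : Fn2 := ⟨_, _, fun h1 h2 => (enc_norm (enc_case (enc_subr 53 50 h1) (enc_case (enc_subr 128 125 h1) (enc_add (enc_sub (enc_rat _ 2059 2400) (enc_scaleT 2059 2400 h1)) (enc_mul (enc_norm (bx2q2_3.enc h1 h2)) (enc_norm (enc_sub (enc_rat _ 103 240) (enc_scaleT 103 240 h1))))) (enc_case (enc_subr 521 500 h1) (enc_add (enc_sub (enc_rat _ 257503 300000) (enc_scaleT 103 120 h1)) (bx2q2_28.enc h1 h2)) (enc_add (enc_subr 32449 112500 (enc_scaleT 109 450 h1)) (bx2q2_28.enc h1 h2)))) (enc_case (enc_subr 231 200 h1) (enc_case (enc_subr 217 200 h1) (enc_add (enc_subr 18039 62500 (enc_scaleT 303 1250 h1)) (enc_mul (enc_norm (bx2q2_3.enc h1 h2)) (enc_norm (enc_sub (enc_rat _ 21399 50000) (bx2q2_45.enc h1 h2))))) (enc_add (enc_subr 57731 200000 (enc_scaleT 1697 7000 h1)) (enc_mul (enc_norm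 (bx2q2_3.enc h1 h2)) (enc_norm (enc_sub (enc_rat _ 8541 20000) (enc_scaleT 299 700 h1)))))) (enc_case (enc_subr 13 10 h1) (enc_add (enc_subr 1960681 1450000 (enc_scaleT 16867 14500 h1)) (enc_mul (enc_norm (bx2q2_3.enc h1 h2)) (enc_norm (enc_sub (enc_rat _ 123993 290000) (enc_scaleT 62 145 h1))))) (enc_add (enc_subr 135227 100000 (enc_scaleT 11633 10000 h1)) (enc_mul (enc_norm (bx2q2_3.enc h1 h2)) (enc_norm (enc_sub (enc_rat _ 4281 10000) (bx2q2_45.enc h1 h2)))))))))⟩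
noncomputable def lc22a : Fn2 := ⟨_, _, fun h1 h2 => (enc_norm (enc_mul (enc_norm (enc_add (enc_scaleT 2 5 h1) (enc_scaleT 3 5 (enc_subr 1 2 (swg.enc (yag.enc h1)))))) (bx2q2.enc (yag.enc h1) h2)))⟩
noncomputable def bd2q2 : Fn2 := ⟨_, _, fun h1 h2 => (enc_norm (enc_case (enc_subr 231 200 h1) (enc_subr 4996 155 (enc_scaleT 4996 155 h1)) (enc_subr 7413397 230000 (enc_scaleT 37067 1150 h1))))⟩
noncomputable def kcc22a : Fn2 := ⟨_, _, fun h1 h2 => (enc_norm (enc_mul (enc_norm (enc_add (enc_scaleT 2 5 h1) (enc_scaleT 3 5 (enc_subr 1 2 (swg.enc (yag.enc h1)))))) (bd2q2.enc (yag.enc h1) h2)))⟩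
noncomputable def xc22b : Fn1 := ⟨_, _, fun h1 => (enc_norm (enc_scaleT 3 5 (enc_subr 1 2 (swg.enc h1))))⟩
noncomputable def kfc22b : Fn2 := ⟨_, _, fun h1 h2 => (enc_norm (enc_mul (enc_norm (enc_scaleT 3 5 (enc_subr 1 2 (swg.enc h1)))) (bf2q2.enc h1 h2)))⟩
noncomputable def lc22b : Fn2 := ⟨_, _, fun h1 h2 => (enc_norm (enc_mul (enc_norm (enc_scaleT 3 5 (enc_subr 1 2 (swg.enc h1)))) (bx2q2.enc h1 h2)))⟩
noncomputable def kcc22b : Fn2 := ⟨_, _, fun h1 h2 => (enc_norm (enc_mul (enc_norm (enc_scaleT 3 5 (enc_subr 1 2 (swg.enc h1)))) (bd2q2.enc h1 h2)))⟩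
noncomputable def cv2r : Fn1 := ⟨_, _, fun h1 => (enc_norm (enc_scaleT 3 5 (enc_subr 1 2 (swg.enc h1))))⟩
noncomputable def kf2q3_4 : Fn2 := ⟨_, _, fun h1 h2 => (enc_subr 309 320 h2)⟩
noncomputable def kf2q3_43 : Fn2 := ⟨_, _, fun h1 h2 => (enc_mul (enc_norm (kf2q3_4.enc h1 h2)) (enc_norm (enc_sub (enc_rat _ 575267 45000) (enc_scaleT 767 90 h1))))⟩
noncomputable def kf2q3 : Fn2 := ⟨_, _, fun h1 h2 => (enc_norm (enc_mul (cv2r.enc h1) (enc_norm (enc_case (enc_subr 1967 1000 h1) (enc_case (enc_subr 97 50 h1) (enc_case (enc_subr 383 200 h1) (enc_add (enc_subr 2763841 8300000 (enc_scaleT 87 8300 h1)) (enc_mul (enc_norm (kf2q3_4.enc h1 h2)) (enc_norm (enc_sub (enc_rat _ 26523 2075) (enc_scaleT 17682 2075 h1))))) (enc_add (enc_subr 83209 250000 (enc_scaleT 13 1250 h1)) (enc_mul (enc_norm (kf2q3_4.enc h1 h2)) (enc_norm (enc_sub (enc_rat _ 63897 5000) (enc_scaleT 213 25 h1))))))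 (enc_case (enc_subr 979 500 h1) (enc_add (enc_subr 18739 56250 (enc_scaleT 19 1800 h1)) (kf2q3_43.enc h1 h2)) (enc_add (enc_subr 300803 900000 (enc_scaleT 1 90 h1)) (kf2q3_43.enc h1 h2)))) (enc_case (enc_sub (enc_rat _ 172988439 1000000000) (c3g.enc h1)) (enc_case (enc_subr 247 125 h1) (enc_add (enc_subr 8301 25000 (enc_scaleT 1 100 h1)) (kf2q3_43.enc h1 h2)) (enc_add (enc_subr 1189600285917 2363338075000 (enc_scaleT 67520000 94533523 (c3g.enc h1))) (enc_mul (enc_norm (kf2q3_4.enc h1 h2)) (enc_norm (enc_subr 84173896339 472667615000 (enc_neg (enc_scaleT 1370400000 94533523 (c3g.enc h1)))))))) (enc_case (enc_sub (enc_rat _ 118673639 1000000000) (c3g.enc h1)) (enc_add (enc_subr 41919791709 84866875000 (enc_scaleT 89600 135787 (c3g.enc h1))) (enc_mul (enc_norm (kf2q3_4.enc h1 h2)) (enc_norm (enc_subr 48337964857 271574000000 (enc_neg (enc_scaleT 1968500 135787 (c3g.enc h1)))))))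 (enc_case (enc_sub (enc_rat _ 59990999 1000000000) (c3g.enc h1)) (enc_add (enc_subr 153937708073 308856000000 (enc_scaleT 511625 733533 (c3g.enc h1))) (enc_mul (enc_norm (kf2q3_4.enc h1 h2)) (enc_norm (enc_subr 2752454327 15442800000 (enc_neg (enc_scaleT 10632500 733533 (c3g.enc h1))))))) (enc_add (enc_subr 24921 50000 (enc_scaleT 41850000 59990999 (c3g.enc h1))) (enc_mul (enc_norm (kf2q3_4.enc h1 h2)) (enc_norm (enc_subr 1781 10000 (enc_neg (enc_scaleT 869700000 59990999 (c3g.enc h1))))))))))))))⟩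
noncomputable def l2q3_4 : Fn2 := ⟨_, _, fun h1 h2 => (enc_subr 309 320 h2)⟩
noncomputable def l2q3 : Fn2 := ⟨_, _, fun h1 h2 => (enc_norm (enc_mul (cv2r.enc h1) (enc_norm (enc_case (enc_subr 1967 1000 h1) (enc_case (enc_subr 97 50 h1) (enc_case (enc_subr 383 200 h1) (enc_add (enc_subr 701491 518750 (enc_scaleT 48277 41500 h1)) (enc_mul (enc_norm (l2q3_4.enc h1 h2)) (enc_norm (enc_sub (enc_rat _ 355263 830000) (enc_scaleT 888 2075 h1))))) (enc_add (enc_subr 676039 500000 (enc_scaleT 727 625 h1)) (enc_mul (enc_norm (l2q3_4.enc h1 h2)) (enc_norm (enc_sub (enc_rat _ 10703 25000) (enc_scaleT 107 250 h1)))))) (enc_case (enc_subr 979 500 h1) (enc_add (enc_subr 298517 100000 (enc_scaleT 401 200 h1)) (enc_mul (enc_norm (l2q3_4.enc h1 h2)) (enc_norm (enc_sub (enc_rat _ 9623 22500) (enc_scaleT 77 180 h1))))) (enc_add (enc_subr 1342837 450000 (enc_scaleT 451 225 h1)) (enc_mul (enc_norm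 (l2q3_4.enc h1 h2)) (enc_norm (enc_sub (enc_rat _ 37513 90000) (enc_scaleT 19 45 h1))))))) (enc_case (enc_sub (enc_rat _ 172988439 1000000000) (c3g.enc h1)) (enc_case (enc_subr 247 125 h1) (enc_add (enc_subr 2687641 900000 (enc_scaleT 361 180 h1)) (enc_mul (enc_norm (l2q3_4.enc h1 h2)) (enc_norm (enc_sub (enc_rat _ 329 750) (enc_scaleT 13 30 h1))))) (enc_add (enc_add (enc_scaleT 12370000 94533523 (c3g.enc h1)) (enc_rat _ 8902259057939 9453352300000)) (enc_mul (enc_norm (l2q3_4.enc h1 h2)) (enc_norm (enc_sub (enc_rat _ 3460308029421 472667615000) (enc_scaleT 2734500000 94533523 (c3g.enc h1))))))) (enc_case (enc_sub (enc_rat _ 118673639 1000000000) (c3g.enc h1)) (enc_add (enc_add (enc_scaleT 87575 135787 (c3g.enc h1)) (enc_rat _ 4631814921383 5431480000000)) (enc_mul (enc_norm (l2q3_4.enc h1 h2)) (enc_norm (enc_sub (enc_rat _ 2987785025883 543148000000) (enc_scaleT 2499250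 135787 (c3g.enc h1)))))) (enc_case (enc_sub (enc_rat _ 59990999 1000000000) (c3g.enc h1)) (enc_add (enc_add (enc_scaleT 65000 244511 (c3g.enc h1)) (enc_rat _ 92426413 102952000)) (enc_mul (enc_norm (l2q3_4.enc h1 h2)) (enc_norm (enc_sub (enc_rat _ 169898021741 30885600000) (enc_scaleT 13501250 733533 (c3g.enc h1)))))) (enc_add (enc_add (enc_scaleT 15950000 59990999 (c3g.enc h1)) (enc_rat _ 5611 6250)) (enc_mul (enc_norm (l2q3_4.enc h1 h2)) (enc_norm (enc_sub (enc_rat _ 55009 10000) (enc_scaleT 1104200000 59990999 (c3g.enc h1)))))))))))))⟩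
noncomputable def kc2q3 : Fn2 := ⟨_, _, fun h1 h2 => (enc_norm (enc_mul (cv2r.enc h1) (enc_norm (enc_case (enc_subr 979 500 h1) (enc_subr 73812131 2290000 (enc_scaleT 36906 1145 h1)) (enc_case (enc_subr 247 125 h1) (enc_subr 967031 30000 (enc_scaleT 967 30 h1)) (enc_add (enc_add (enc_scaleT 15553650000 133760981 (c3g.enc h1)) (enc_rat _ 1757 5000)) (enc_mul (enc_norm (enc_subr 309 320 h2)) (enc_norm (enc_subr 182971 1000 (enc_scaleT 5381500000 7868293 (c3g.enc h1)))))))))))⟩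
noncomputable def cv3m : Fn1 := ⟨_, _, fun h1 => (enc_norm (enc_add (enc_scaleT 1899 2000 (enc_add (swg.enc h1) (enc_rat _ 1 2))) (enc_scaleT 101 2000 (c3g.enc h1))))⟩
noncomputable def esg : Fn1 := ⟨_, _, fun h1 => (enc_norm (enc_subn 1 (enc_add (enc_half h1) (gsg.enc h1))))⟩
noncomputable def kf3q0_4 : Fn2 := ⟨_, _, fun h1 h2 => (enc_subr 309 320 h2)⟩
noncomputable def kf3q0_123 : Fn2 := ⟨_, _, fun h1 h2 => (enc_sub (enc_rat _ 108133 100000) (enc_scaleT 33881 5000 h1))⟩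
noncomputable def kf3q0_142 : Fn2 := ⟨_, _, fun h1 h2 => (enc_sub (enc_pnc _ 1) h1)⟩
noncomputable def kf3q0_143 : Fn2 := ⟨_, _, fun h1 h2 => (gsg.enc (enc_norm (kf3q0_142.enc h1 h2)))⟩
noncomputable def kf3q0_146 : Fn2 := ⟨_, _, fun h1 h2 => (enc_sub (enc_scaleT 3 4 (kf3q0_142.enc h1 h2)) (enc_half (kf3q0_143.enc h1 h2)))⟩
noncomputable def kf3q0_147 : Fn2 := ⟨_, _, fun h1 h2 => (esg.enc (enc_norm (kf3q0_142.enc h1 h2)))⟩
noncomputable def kf3q0_148 : Fn2 := ⟨_, _, fun h1 h2 => (kcg.enc (enc_norm (kf3q0_146.enc h1 h2)) h2)⟩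
noncomputable def kf3q0_155 : Fn2 := ⟨_, _, fun h1 h2 => (enc_sub (kf3q0_146.enc h1 h2) (enc_sub (enc_rat _ 1 4) (enc_scaleT 3 8 (enc_mul (enc_norm (kf3q0_142.enc h1 h2)) (enc_inv (kf3q0_143.enc h1 h2))))))⟩
noncomputable def kf3q0_164 : Fn2 := ⟨_, _, fun h1 h2 => (enc_mul (cv2m.enc h1) (bf2q0.enc h1 h2))⟩
noncomputable def kf3q0 : Fn2 := ⟨_, _, fun h1 h2 => (enc_norm (enc_case (enc_subr 3 125 h1) (enc_mul (cv3m.enc h1) (enc_norm (enc_case (enc_subr 133 10000 h1) (enc_case (enc_subr 67 10000 h1) (enc_add (enc_sub (enc_rat _ 18891 20000) (enc_scaleT 3563 670 h1)) (enc_mul (enc_norm (kf3q0_4.enc h1 h2)) (enc_norm (enc_sub (enc_rat _ 6087 10000) (enc_scaleT 797 67 h1))))) (enc_add (enc_sub (enc_rat _ 1039007 1100000) (enc_scaleT 117 22 h1)) (enc_mul (enc_norm (kf3q0_4.enc h1 h2)) (enc_norm (enc_sub (enc_rat _ 100417 165000) (enc_scaleT 392 33 h1)))))) (enc_case (enc_subr 37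 2000 h1) (enc_add (enc_sub (enc_rat _ 385039 400000) (enc_scaleT 267 40 h1)) (enc_mul (enc_norm (kf3q0_4.enc h1 h2)) (enc_norm (enc_sub (enc_rat _ 158253 260000) (enc_scaleT 309 26 h1))))) (enc_add (enc_sub (enc_rat _ 105886198711 110000000000) (enc_scaleT 367137803 55000000 h1)) (enc_mul (enc_norm (kf3q0_4.enc h1 h2)) (enc_norm (enc_sub (enc_rat _ 669614527 1100000000) (enc_scaleT 6538771 550000 h1))))))))) (enc_case (enc_subr 21 500 h1) (enc_add (kf3q0_164.enc h1 h2) (enc_mul (enc_norm (enc_mul (enc_norm (enc_sub (enc_wB0 (enc_mul h1 (enc_norm (enc_sub (enc_mul (enc_norm (kf3q0_155.enc h1 h2)) (enc_inv (kf3q0_147.enc h1 h2))) (kf3q0_148.enc h1 h2)))) (kf3q0_142.enc h1 h2) (kf3q0_143.enc h1 h2) (kf3q0_147.enc h1 h2) h1 (kf3q0_155.enc h1 h2) (kf3q0_148.enc h1 h2) rfl rfl rfl rfl) (kf3q0_164.enc h1 h2))) (enc_norm (enc_sub (cv3m.enc h1) (cv2m.enc h1))))) (enc_inv (enc_sub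 (enc_add (swg.enc h1) (enc_rat _ 1 2)) (cv2m.enc h1))))) (enc_mul (cv3m.enc h1) (enc_norm (enc_case (enc_subr 1 8 h1) (enc_case (enc_subr 3 50 h1) (enc_add (enc_sub (enc_rat _ 3244073279 3000000000) (enc_scaleT 1219823279 180000000 h1)) (enc_mul (enc_norm (kf3q0_4.enc h1 h2)) (enc_norm (enc_sub (enc_rat _ 384949919 300000000) (enc_scaleT 65959919 18000000 h1))))) (enc_case (enc_subr 17 200 h1) (enc_add (enc_sub (enc_rat _ 108131 100000) (enc_scaleT 847 125 h1)) (enc_mul (enc_norm (kf3q0_4.enc h1 h2)) (enc_norm (enc_sub (enc_rat _ 64169 50000) (enc_scaleT 917 250 h1))))) (enc_add (enc_sub (enc_rat _ 173013 160000) (enc_scaleT 5421 800 h1)) (enc_mul (enc_norm (kf3q0_4.enc h1 h2)) (enc_norm (enc_sub (enc_rat _ 2053 1600) (enc_scaleT 733 200 h1))))))) (enc_case (enc_subr 1 4 h1) (enc_case (enc_subr 9 50 h1) (enc_add (enc_sub (enc_rat _ 237891 220000) (enc_scaleT 37269 5500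 h1)) (enc_mul (enc_norm (kf3q0_4.enc h1 h2)) (enc_norm (enc_sub (enc_rat _ 5647 4400) (enc_scaleT 2017 550 h1))))) (enc_add (enc_sub (enc_rat _ 756921 700000) (enc_scaleT 47433 7000 h1)) (enc_mul (enc_norm (kf3q0_4.enc h1 h2)) (enc_norm (enc_sub (enc_rat _ 89819 70000) (enc_scaleT 1283 350 h1)))))) (enc_case (enc_subr 7 20 h1) (enc_add (kf3q0_123.enc h1 h2) (enc_mul (enc_norm (kf3q0_4.enc h1 h2)) (enc_norm (enc_sub (enc_rat _ 25669 20000) (enc_scaleT 3667 1000 h1))))) (enc_add (kf3q0_123.enc h1 h2) (enc_mul (enc_norm (kf3q0_4.enc h1 h2)) (enc_norm (enc_sub (enc_rat _ 77 60) (enc_scaleT 11 3 h1)))))))))))))⟩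
noncomputable def qsg : Fn1 := ⟨_, _, fun h1 => (enc_norm (enc_mul (enc_norm (enc_sub (enc_pnc _ 1) (gsg.enc h1))) (enc_norm (enc_subn 1 (enc_nat 2 (gsg.enc h1))))))⟩
noncomputable def l3q0_4 : Fn2 := ⟨_, _, fun h1 h2 => (enc_subr 309 320 h2)⟩
noncomputable def l3q0_52 : Fn2 := ⟨_, _, fun h1 h2 => (enc_sq (enc_norm (l3q0_4.enc h1 h2)))⟩
noncomputable def l3q0_149 : Fn2 := ⟨_, _, fun h1 h2 => (enc_sub (enc_pnc _ 1) h1)⟩
noncomputable def l3q0_164 : Fn2 := ⟨_, _, fun h1 h2 => (enc_mul (cv2m.enc h1) (bx2q0.enc h1 h2))⟩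
noncomputable def l3q0 : Fn2 := ⟨_, _, fun h1 h2 => (enc_norm (enc_case (enc_subr 3 125 h1) (enc_mul (cv3m.enc h1) (enc_norm (enc_case (enc_subr 133 10000 h1) (enc_case (enc_subr 67 10000 h1) (enc_add (enc_add (enc_scaleT 356 335 h1) (enc_rat _ 639 20000)) (enc_mul (enc_norm (l3q0_4.enc h1 h2)) (enc_norm (enc_sub (enc_rat _ 1519 10000) (enc_scaleT 139 67 h1))))) (enc_add (enc_add (enc_scaleT 701 660 h1) (enc_rat _ 42179 1320000)) (enc_mul (enc_norm (l3q0_4.enc h1 h2)) (enc_norm (enc_sub (enc_rat _ 100259 660000) (enc_scaleT 137 66 h1)))))) (enc_case (enc_subr 37 2000 h1) (enc_add (enc_add (enc_scaleT 553 520 h1) (enc_rat _ 166067 5200000)) (enc_mul (enc_norm (l3q0_4.enc h1 h2)) (enc_norm (enc_sub (enc_rat _ 10191 32500) (enc_scaleT 185 13 h1))))) (enc_add (enc_add (enc_add (enc_scaleT 10723873 11000000 h1) (enc_rat _ 738636699 22000000000)) (enc_mul (enc_norm (l3q0_4.enc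 h1 h2)) (enc_norm (enc_subr 499604339 5500000000 (enc_scaleT 20979847 2750000 h1))))) (enc_mul (l3q0_52.enc h1 h2) (enc_norm (enc_subr 948791 440000 (enc_scaleT 25643 220 h1))))))))) (enc_case (enc_subr 21 500 h1) (enc_add (l3q0_164.enc h1 h2) (enc_mul (enc_norm (enc_mul (enc_norm (enc_sub (enc_sub (qsg.enc (enc_norm (l3q0_149.enc h1 h2))) (enc_mul (enc_norm (enc_nat 2 (enc_sub (l3q0_149.enc h1 h2) h2))) (enc_norm (enc_mul (esg.enc (enc_norm (l3q0_149.enc h1 h2))) (kcg.enc (enc_norm (enc_sub (enc_scaleT 3 4 (l3q0_149.enc h1 h2)) (enc_half (gsg.enc (enc_norm (l3q0_149.enc h1 h2)))))) h2))))) (l3q0_164.enc h1 h2))) (enc_norm (enc_sub (cv3m.enc h1) (cv2m.enc h1))))) (enc_inv (enc_sub (enc_add (swg.enc h1) (enc_rat _ 1 2)) (cv2m.enc h1))))) (enc_mul (cv3m.enc h1) (enc_norm (enc_case (enc_subr 1 8 h1) (enc_case (enc_subr 3 50 h1) (enc_add (enc_add (enc_add (enc_scaleT 22235107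 30000000 h1) (enc_rat _ 20529893 500000000)) (enc_mul (enc_norm (l3q0_4.enc h1 h2)) (enc_norm (enc_sub (enc_rat _ 32236469 60000000) (enc_scaleT 36130469 3600000 h1))))) (enc_mul (l3q0_52.enc h1 h2) (enc_norm (enc_subr 1 150000 (enc_scaleT 1 9000 h1))))) (enc_case (enc_subr 17 200 h1) (enc_add (enc_add (enc_scaleT 927 1250 h1) (enc_rat _ 20517 500000)) (enc_mul (enc_norm (l3q0_4.enc h1 h2)) (enc_norm (enc_subr 3449 50000 (enc_scaleT 17 250 h1))))) (enc_add (enc_add (enc_scaleT 183 250 h1) (enc_rat _ 837 20000)) (enc_mul (enc_norm (l3q0_4.enc h1 h2)) (enc_norm (enc_subr 1383 20000 (enc_scaleT 7 100 h1))))))) (enc_case (enc_subr 1 4 h1) (enc_case (enc_subr 9 50 h1) (enc_add (enc_add (enc_scaleT 23 44 h1) (enc_rat _ 7481 110000)) (enc_mul (enc_norm (l3q0_4.enc h1 h2)) (enc_norm (enc_subr 3797 55000 (enc_scaleT 19 275 h1))))) (enc_add (enc_add (enc_scaleT 113 250 h1) (enc_rat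 _ 4037 50000)) (enc_mul (enc_norm (l3q0_4.enc h1 h2)) (enc_norm (enc_subr 2413 35000 (enc_scaleT 12 175 h1)))))) (enc_case (enc_subr 7 20 h1) (enc_add (enc_add (enc_scaleT 979 2500 h1) (enc_rat _ 599 6250)) (enc_mul (enc_norm (l3q0_4.enc h1 h2)) (enc_norm (enc_subr 1381 20000 (enc_scaleT 69 1000 h1))))) (enc_add (enc_sub (enc_rat _ 21499 60000) (enc_scaleT 43 120 h1)) (enc_mul (enc_norm (l3q0_4.enc h1 h2)) (enc_norm (enc_subr 83 1200 (enc_scaleT 26 375 h1)))))))))))))⟩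
noncomputable def kc3q0_4 : Fn2 := ⟨_, _, fun h1 h2 => (enc_subr 309 320 h2)⟩
noncomputable def kc3q0_42 : Fn2 := ⟨_, _, fun h1 h2 => (enc_sub (enc_pnc _ 1) h1)⟩
noncomputable def kc3q0_43 : Fn2 := ⟨_, _, fun h1 h2 => (gsg.enc (enc_norm (kc3q0_42.enc h1 h2)))⟩
noncomputable def kc3q0_47 : Fn2 := ⟨_, _, fun h1 h2 => (esg.enc (enc_norm (kc3q0_42.enc h1 h2)))⟩
noncomputable def kc3q0_51 : Fn2 := ⟨_, _, fun h1 h2 => (gug.enc (enc_norm (kc3q0_42.enc h1 h2)))⟩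
noncomputable def kc3q0_53 : Fn2 := ⟨_, _, fun h1 h2 => (enc_mul (enc_norm (kc3q0_42.enc h1 h2)) (enc_inv (kc3q0_43.enc h1 h2)))⟩
noncomputable def kc3q0_54 : Fn2 := ⟨_, _, fun h1 h2 => (enc_scaleT 3 4 (kc3q0_53.enc h1 h2))⟩
noncomputable def kc3q0_84 : Fn2 := ⟨_, _, fun h1 h2 => (enc_mul (cv2m.enc h1) (bd2q0.enc h1 h2))⟩
noncomputable def kc3q0 : Fn2 := ⟨_, _, fun h1 h2 => (enc_norm (enc_case (enc_subr 3 125 h1) (enc_mul (cv3m.enc h1) (enc_norm (enc_case (enc_subr 1 100 h1) (enc_add (enc_subr 1847 10000 (enc_neg (enc_scaleT 2093 50 h1))) (enc_mul (enc_norm (kc3q0_4.enc h1 h2)) (enc_norm (enc_add (enc_scaleT 6632 5 h1) (enc_rat _ 17 4))))) (enc_add (enc_subr 1291868757 7000000000 (enc_neg (enc_scaleT 2931231243 70000000 h1))) (enc_mul (enc_norm (kc3q0_4.enc h1 h2)) (enc_norm (enc_add (enc_scaleT 18569338317 14000000 h1) (enc_rat _ 5950261683 1400000000)))))))) (enc_case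 (enc_subr 21 500 h1) (enc_add (kc3q0_84.enc h1 h2) (enc_mul (enc_norm (enc_mul (enc_norm (enc_sub (enc_add (enc_sub (enc_neg (enc_add (enc_add (enc_rat _ 3 4) (enc_scaleT 3 2 (kc3q0_42.enc h1 h2))) (enc_scaleT 3 4 (enc_mul (enc_norm (kc3q0_53.enc h1 h2)) (kc3q0_51.enc h1 h2))))) (enc_wT (enc_mul (enc_norm (enc_sub (enc_mul (enc_norm (enc_mul (enc_norm (kc3q0_54.enc h1 h2)) (enc_norm (enc_subn 3 (enc_nat 4 (kc3q0_43.enc h1 h2)))))) (kc3q0_47.enc h1 h2)) (enc_mul (qsg.enc (enc_norm (kc3q0_42.enc h1 h2))) (enc_norm (enc_sub (enc_rat _ 1 2) (kc3q0_54.enc h1 h2)))))) (enc_inv (enc_mul (enc_nat 2 (kc3q0_47.enc h1 h2)) (kc3q0_47.enc h1 h2)))) (kc3q0_42.enc h1 h2) (kc3q0_43.enc h1 h2) (kc3q0_47.enc h1 h2) rfl rfl rfl rfl)) (enc_mul (kcg.enc (enc_norm (enc_sub (enc_scaleT 3 4 (kc3q0_42.enc h1 h2)) (enc_half (kc3q0_43.enc h1 h2)))) h2) (enc_norm (enc_add (enc_pnc _ 1) (enc_add (kc3q0_51.enc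 h1 h2) (enc_nat 2 (kc3q0_43.enc h1 h2))))))) (kc3q0_84.enc h1 h2))) (enc_norm (enc_sub (cv3m.enc h1) (cv2m.enc h1))))) (enc_inv (enc_sub (enc_add (swg.enc h1) (enc_rat _ 1 2)) (cv2m.enc h1))))) (enc_mul (cv3m.enc h1) (enc_norm (enc_add (enc_subr 634138389 366400000 (enc_scaleT 317055829 183200000 h1)) (enc_mul (enc_norm (kc3q0_4.enc h1 h2)) (enc_norm (enc_subr 13200097983 916000000 (enc_scaleT 6600317983 458000000 h1))))))))))⟩
noncomputable def bf3q1 : Fn2 := ⟨_, _, fun h1 h2 => (enc_norm (enc_subr 2661 12500 (enc_scaleT 15161 12500 h1)))⟩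
noncomputable def kf3q1 : Fn2 := ⟨_, _, fun h1 h2 => (enc_norm (enc_mul (cv3m.enc h1) (bf3q1.enc h1 h2)))⟩
noncomputable def bx3q1_3 : Fn2 := ⟨_, _, fun h1 h2 => (enc_subr 309 320 h2)⟩
noncomputable def bx3q1 : Fn2 := ⟨_, _, fun h1 h2 => (enc_norm (enc_case (enc_subr 7 8 h1) (enc_add (enc_sub (enc_rat _ 107489 300000) (enc_scaleT 3359 9375 h1)) (enc_mul (enc_norm (bx3q1_3.enc h1 h2)) (enc_norm (enc_subr 2071 30000 (enc_scaleT 259 3750 h1))))) (enc_add (enc_sub (enc_rat _ 4479 12500) (enc_scaleT 4479 12500 h1)) (enc_mul (enc_norm (bx3q1_3.enc h1 h2)) (enc_norm (enc_subr 43 625 (enc_scaleT 43 625 h1)))))))⟩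
noncomputable def l3q1 : Fn2 := ⟨_, _, fun h1 h2 => (enc_norm (enc_mul (cv3m.enc h1) (bx3q1.enc h1 h2)))⟩
noncomputable def bd3q1 : Fn2 := ⟨_, _, fun h1 h2 => (enc_norm (enc_add (enc_subr 4327 2500 (enc_scaleT 4327 2500 h1)) (enc_mul (enc_norm (enc_subr 309 320 h2)) (enc_norm (enc_subr 1441 100 (enc_scaleT 1441 100 h1))))))⟩
noncomputable def kc3q1 : Fn2 := ⟨_, _, fun h1 h2 => (enc_norm (enc_mul (cv3m.enc h1) (bd3q1.enc h1 h2)))⟩
noncomputable def cv3p : Fn1 := ⟨_, _, fun h1 => (enc_norm (enc_add (enc_scaleT 1899 2000 (enc_subr 1 2 (swg.enc h1))) (enc_scaleT 101 2000 (c3g.enc h1))))⟩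
noncomputable def bf3q2 : Fn2 := ⟨_, _, fun h1 h2 => (enc_norm (enc_case (enc_subr 217 200 h1) (enc_case (enc_subr 128 125 h1) (enc_sub (enc_rat _ 376231 300000) (enc_scaleT 229 1200 h1)) (enc_case (enc_subr 53 50 h1) (enc_sub (enc_rat _ 1128437 900000) (enc_scaleT 343 1800 h1)) (enc_sub (enc_rat _ 627039 500000) (enc_scaleT 477 2500 h1)))) (enc_case (enc_subr 231 200 h1) (enc_sub (enc_rat _ 62707 50000) (enc_scaleT 167 875 h1)) (enc_case (enc_subr 13 10 h1) (enc_sub (enc_rat _ 909169 725000) (enc_scaleT 1383 7250 h1)) (enc_sub (enc_rat _ 250803 200000) (enc_scaleT 763 4000 h1))))))⟩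
noncomputable def kf3q2 : Fn2 := ⟨_, _, fun h1 h2 => (enc_norm (enc_mul (cv3p.enc h1) (bf3q2.enc h1 h2)))⟩
noncomputable def bx3q2_3 : Fn2 := ⟨_, _, fun h1 h2 => (enc_subr 309 320 h2)⟩
noncomputable def bx3q2 : Fn2 := ⟨_, _, fun h1 h2 => (enc_norm (enc_case (enc_subr 53 50 h1) (enc_case (enc_subr 128 125 h1) (enc_add (enc_subr 146351 300000 (enc_scaleT 1339 2400 h1)) (enc_mul (enc_norm (bx3q2_3.enc h1 h2)) (enc_norm (enc_subr 4959 5000 (enc_scaleT 19 16 h1))))) (enc_case (enc_subr 521 500 h1) (enc_add (enc_subr 146479 300000 (enc_scaleT 67 120 h1)) (enc_mul (enc_norm (bx3q2_3.enc h1 h2)) (enc_norm (enc_subr 8939 9000 (enc_scaleT 107 90 h1))))) (enc_add (enc_subr 109729 225000 (enc_scaleT 251 450 h1)) (enc_mul (enc_norm (bx3q2_3.enc h1 h2)) (enc_norm (enc_subr 29623 30000 (enc_scaleT 71 60 h1))))))) (enc_case (enc_subr 231 200 h1) (enc_case (enc_subr 217 200 h1) (enc_add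 (enc_subr 61043 125000 (enc_scaleT 349 625 h1)) (enc_mul (enc_norm (bx3q2_3.enc h1 h2)) (enc_norm (enc_subr 49619 50000 (enc_scaleT 297 250 h1))))) (enc_add (enc_subr 48791 100000 (enc_scaleT 279 500 h1)) (enc_mul (enc_norm (bx3q2_3.enc h1 h2)) (enc_norm (enc_subr 19829 20000 (enc_scaleT 831 700 h1)))))) (enc_case (enc_subr 13 10 h1) (enc_add (enc_subr 2131039 2900000 (enc_scaleT 11191 14500 h1)) (enc_mul (enc_norm (bx3q2_3.enc h1 h2)) (enc_norm (enc_subr 143719 145000 (enc_scaleT 1721 1450 h1))))) (enc_add (enc_subr 4463 4000 (enc_scaleT 1331 1250 h1)) (enc_mul (enc_norm (bx3q2_3.enc h1 h2)) (enc_norm (enc_subr 9913 10000 (enc_scaleT 1187 1000 h1)))))))))⟩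
noncomputable def l3q2 : Fn2 := ⟨_, _, fun h1 h2 => (enc_norm (enc_mul (cv3p.enc h1) (bx3q2.enc h1 h2)))⟩
noncomputable def bd3q2 : Fn2 := ⟨_, _, fun h1 h2 => (enc_norm (enc_case (enc_subr 231 200 h1) (enc_subr 2539927 155000 (enc_scaleT 23069 1550 h1)) (enc_subr 94219 5750 (enc_scaleT 3423 230 h1))))⟩
noncomputable def kc3q2 : Fn2 := ⟨_, _, fun h1 h2 => (enc_norm (enc_mul (cv3p.enc h1) (bd3q2.enc h1 h2)))⟩
noncomputable def ycg : Fn1 := ⟨_, _, fun h1 => (enc_sqrtg (enc_scaleT 4 3 (enc_sub (enc_pnc _ 3) (enc_sq h1))))⟩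
noncomputable def xc33 : Fn1 := ⟨_, _, fun h1 => (enc_norm (enc_add (enc_scaleT 1899 2000 (enc_subr 1 2 (swg.enc (ycg.enc h1)))) (enc_scaleT 101 2000 h1)))⟩
noncomputable def kfc33_6 : Fn2 := ⟨_, _, fun h1 h2 => (enc_subr 1 2 (swg.enc (ycg.enc h1)))⟩
noncomputable def kfc33_9 : Fn2 := ⟨_, _, fun h1 h2 => (enc_add (enc_scaleT 1899 2000 (kfc33_6.enc h1 h2)) (enc_scaleT 101 2000 h1))⟩
noncomputable def kfc33_11 : Fn2 := ⟨_, _, fun h1 h2 => (enc_subr 309 320 h2)⟩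
noncomputable def kfc33_13 : Fn2 := ⟨_, _, fun h1 h2 => (enc_subr 383 200 (ycg.enc h1))⟩
noncomputable def kfc33_25 : Fn2 := ⟨_, _, fun h1 h2 => (enc_subr 97 50 (ycg.enc h1))⟩
noncomputable def kfc33_50 : Fn2 := ⟨_, _, fun h1 h2 => (enc_sub (enc_rat _ 118673639 1000000000) h1)⟩
noncomputable def kfc33_52 : Fn2 := ⟨_, _, fun h1 h2 => (enc_sub (enc_rat _ 172988439 1000000000) h1)⟩
noncomputable def kfc33_76 : Fn2 := ⟨_, _, fun h1 h2 => (enc_sub (enc_rat _ 59990999 1000000000) h1)⟩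
noncomputable def kfc33_100 : Fn2 := ⟨_, _, fun h1 h2 => (enc_subn 1 (ycg.enc h1))⟩
noncomputable def kfc33_101 : Fn2 := ⟨_, _, fun h1 h2 => (gsg.enc (enc_norm (kfc33_100.enc h1 h2)))⟩
noncomputable def kfc33_102 : Fn2 := ⟨_, _, fun h1 h2 => (enc_scaleT 3 4 (kfc33_100.enc h1 h2))⟩
noncomputable def kfc33_103 : Fn2 := ⟨_, _, fun h1 h2 => (enc_half (kfc33_101.enc h1 h2))⟩
noncomputable def kfc33_105 : Fn2 := ⟨_, _, fun h1 h2 => (esg.enc (enc_norm (kfc33_100.enc h1 h2)))⟩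
noncomputable def kfc33_106 : Fn2 := ⟨_, _, fun h1 h2 => (kcg.enc (enc_norm (enc_sub (kfc33_102.enc h1 h2) (kfc33_103.enc h1 h2))) h2)⟩
noncomputable def kfc33_108 : Fn2 := ⟨_, _, fun h1 h2 => (enc_subn 2 (ycg.enc h1))⟩
noncomputable def kfc33_115 : Fn2 := ⟨_, _, fun h1 h2 => (enc_sub (enc_sub (kfc33_103.enc h1 h2) (kfc33_102.enc h1 h2)) (enc_sub (enc_rat _ 1 4) (enc_scaleT 3 8 (enc_mul (enc_norm (kfc33_100.enc h1 h2)) (enc_inv (kfc33_101.enc h1 h2))))))⟩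
noncomputable def kfc33_121 : Fn2 := ⟨_, _, fun h1 h2 => (cv2r.enc (ycg.enc h1))⟩
noncomputable def kfc33_146 : Fn2 := ⟨_, _, fun h1 h2 => (enc_subr 979 500 (ycg.enc h1))⟩
noncomputable def kfc33_155 : Fn2 := ⟨_, _, fun h1 h2 => (enc_mul (enc_norm (kfc33_11.enc h1 h2)) (enc_norm (enc_sub (enc_rat _ 575267 45000) (enc_scaleT 767 90 (ycg.enc h1)))))⟩
noncomputable def kfc33_165 : Fn2 := ⟨_, _, fun h1 h2 => (enc_subr 247 125 (ycg.enc h1))⟩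
noncomputable def kfc33_220 : Fn2 := ⟨_, _, fun h1 h2 => (enc_mul (kfc33_121.enc h1 h2) (enc_norm (enc_case (enc_subr 1967 1000 (ycg.enc h1)) (enc_case (kfc33_25.enc h1 h2) (enc_case (kfc33_13.enc h1 h2) (enc_add (enc_subr 2763841 8300000 (enc_scaleT 87 8300 (ycg.enc h1))) (enc_mul (enc_norm (kfc33_11.enc h1 h2)) (enc_norm (enc_sub (enc_rat _ 26523 2075) (enc_scaleT 17682 2075 (ycg.enc h1)))))) (enc_add (enc_subr 83209 250000 (enc_scaleT 13 1250 (ycg.enc h1))) (enc_mul (enc_norm (kfc33_11.enc h1 h2)) (enc_norm (enc_sub (enc_rat _ 63897 5000) (enc_scaleT 213 25 (ycg.enc h1))))))) (enc_case (kfc33_146.enc h1 h2) (enc_add (enc_subr 18739 56250 (enc_scaleT 19 1800 (ycg.enc h1))) (kfc33_155.enc h1 h2)) (enc_add (enc_subr 300803 900000 (enc_scaleT 1 90 (ycg.enc h1))) (kfc33_155.enc h1 h2)))) (enc_case (kfc33_52.enc h1 h2) (enc_case (kfc33_165.enc h1 h2) (enc_add (enc_subr 8301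 25000 (enc_scaleT 1 100 (ycg.enc h1))) (kfc33_155.enc h1 h2)) (enc_add (enc_subr 1189600285917 2363338075000 (enc_scaleT 67520000 94533523 h1)) (enc_mul (enc_norm (kfc33_11.enc h1 h2)) (enc_norm (enc_subr 84173896339 472667615000 (enc_neg (enc_scaleT 1370400000 94533523 h1))))))) (enc_case (kfc33_50.enc h1 h2) (enc_add (enc_subr 41919791709 84866875000 (enc_scaleT 89600 135787 h1)) (enc_mul (enc_norm (kfc33_11.enc h1 h2)) (enc_norm (enc_subr 48337964857 271574000000 (enc_neg (enc_scaleT 1968500 135787 h1)))))) (enc_case (kfc33_76.enc h1 h2) (enc_add (enc_subr 153937708073 308856000000 (enc_scaleT 511625 733533 h1)) (enc_mul (enc_norm (kfc33_11.enc h1 h2)) (enc_norm (enc_subr 2752454327 15442800000 (enc_neg (enc_scaleT 10632500 733533 h1)))))) (enc_add (enc_subr 24921 50000 (enc_scaleT 41850000 59990999 h1)) (enc_mul (enc_norm (kfc33_11.enc h1 h2)) (enc_norm (enc_subr 1781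 10000 (enc_neg (enc_scaleT 869700000 59990999 h1))))))))))))⟩
noncomputable def kfc33 : Fn2 := ⟨_, _, fun h1 h2 => (enc_norm (enc_case (kfc33_146.enc h1 h2) (enc_mul (enc_norm (kfc33_9.enc h1 h2)) (enc_norm (enc_case (kfc33_13.enc h1 h2) (enc_add (enc_subr 38235347 8300000 (enc_scaleT 51219 20750 (ycg.enc h1))) (enc_mul (enc_norm (kfc33_11.enc h1 h2)) (enc_norm (enc_subr 16191 4150 (enc_scaleT 5397 2075 (ycg.enc h1)))))) (enc_case (kfc33_25.enc h1 h2) (enc_add (enc_subr 575837 125000 (enc_scaleT 6171 2500 (ycg.enc h1))) (enc_mul (enc_norm (kfc33_11.enc h1 h2)) (enc_norm (enc_subr 9749 2500 (enc_scaleT 13 5 (ycg.enc h1)))))) (enc_add (enc_subr 1295781563 281250000 (enc_scaleT 13886279 5625000 (ycg.enc h1))) (enc_mul (enc_norm (kfc33_11.enc h1 h2)) (enc_norm (enc_subr 175531567 45000000 (enc_scaleT 2340511 900000 (ycg.enc h1)))))))))) (enc_case (kfc33_165.enc h1 h2) (enc_add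 (kfc33_220.enc h1 h2) (enc_mul (enc_norm (enc_mul (enc_norm (enc_sub (enc_wB3 (enc_mul (enc_norm (kfc33_108.enc h1 h2)) (enc_norm (enc_add (enc_mul (enc_norm (kfc33_115.enc h1 h2)) (enc_inv (kfc33_105.enc h1 h2))) (kfc33_106.enc h1 h2)))) (kfc33_100.enc h1 h2) (kfc33_101.enc h1 h2) (kfc33_105.enc h1 h2) (kfc33_108.enc h1 h2) (kfc33_115.enc h1 h2) (kfc33_106.enc h1 h2) (ycg.enc h1) rfl rfl rfl rfl rfl) (kfc33_220.enc h1 h2))) (enc_norm (enc_sub (kfc33_9.enc h1 h2) (kfc33_121.enc h1 h2))))) (enc_inv (enc_sub (kfc33_6.enc h1 h2) (kfc33_121.enc h1 h2))))) (enc_mul (enc_norm (kfc33_9.enc h1 h2)) (enc_norm (enc_case (kfc33_50.enc h1 h2) (enc_case (kfc33_52.enc h1 h2) (enc_add (enc_subr 265964967965601771 189067046000000000 (enc_scaleT 1072041389 189067046 h1)) (enc_mul (enc_norm (kfc33_11.enc h1 h2)) (enc_norm (enc_subr 1652336485758727537 94533523000000000 (enc_scaleT 5251628983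 94533523 h1))))) (enc_add (enc_sub (enc_rat _ 828198481647 2715740000000) (enc_scaleT 573650 135787 h1)) (enc_mul (enc_norm (kfc33_11.enc h1 h2)) (enc_norm (enc_subr 35304233 271574000000 (enc_neg (enc_scaleT 6176500 135787 h1))))))) (enc_case (kfc33_76.enc h1 h2) (enc_add (enc_sub (enc_rat _ 3924755463 12869000000) (enc_scaleT 1033000 244511 h1)) (enc_mul (enc_norm (kfc33_11.enc h1 h2)) (enc_norm (enc_sub (enc_rat _ 595149 5147600000) (enc_scaleT 11122500 244511 h1))))) (enc_sub (enc_sub (enc_rat _ 1 2) (enc_scaleT 448470000 59990999 h1)) (enc_mul (enc_norm (kfc33_11.enc h1 h2)) (enc_scaleT 2728800000 59990999 h1))))))))))⟩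
noncomputable def lc33_6 : Fn2 := ⟨_, _, fun h1 h2 => (enc_subr 1 2 (swg.enc (ycg.enc h1)))⟩
noncomputable def lc33_9 : Fn2 := ⟨_, _, fun h1 h2 => (enc_add (enc_scaleT 1899 2000 (lc33_6.enc h1 h2)) (enc_scaleT 101 2000 h1))⟩
noncomputable def lc33_11 : Fn2 := ⟨_, _, fun h1 h2 => (enc_subr 309 320 h2)⟩
noncomputable def lc33_13 : Fn2 := ⟨_, _, fun h1 h2 => (enc_subr 383 200 (ycg.enc h1))⟩
noncomputable def lc33_25 : Fn2 := ⟨_, _, fun h1 h2 => (enc_subr 97 50 (ycg.enc h1))⟩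
noncomputable def lc33_50 : Fn2 := ⟨_, _, fun h1 h2 => (enc_sq (enc_norm (lc33_11.enc h1 h2)))⟩
noncomputable def lc33_57 : Fn2 := ⟨_, _, fun h1 h2 => (enc_sub (enc_rat _ 118673639 1000000000) h1)⟩
noncomputable def lc33_59 : Fn2 := ⟨_, _, fun h1 h2 => (enc_sub (enc_rat _ 172988439 1000000000) h1)⟩
noncomputable def lc33_86 : Fn2 := ⟨_, _, fun h1 h2 => (enc_sub (enc_rat _ 59990999 1000000000) h1)⟩
noncomputable def lc33_109 : Fn2 := ⟨_, _, fun h1 h2 => (enc_subn 1 (ycg.enc h1))⟩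
noncomputable def lc33_122 : Fn2 := ⟨_, _, fun h1 h2 => (cv2r.enc (ycg.enc h1))⟩
noncomputable def lc33_147 : Fn2 := ⟨_, _, fun h1 h2 => (enc_subr 979 500 (ycg.enc h1))⟩
noncomputable def lc33_171 : Fn2 := ⟨_, _, fun h1 h2 => (enc_subr 247 125 (ycg.enc h1))⟩
noncomputable def lc33_223 : Fn2 := ⟨_, _, fun h1 h2 => (enc_mul (lc33_122.enc h1 h2) (enc_norm (enc_case (enc_subr 1967 1000 (ycg.enc h1)) (enc_case (lc33_25.enc h1 h2) (enc_case (lc33_13.enc h1 h2) (enc_add (enc_subr 701491 518750 (enc_scaleT 48277 41500 (ycg.enc h1))) (enc_mul (enc_norm (lc33_11.enc h1 h2)) (enc_norm (enc_sub (enc_rat _ 355263 830000) (enc_scaleT 888 2075 (ycg.enc h1)))))) (enc_add (enc_subr 676039 500000 (enc_scaleT 727 625 (ycg.enc h1))) (enc_mul (enc_norm (lc33_11.enc h1 h2)) (enc_norm (enc_sub (enc_rat _ 10703 25000) (enc_scaleT 107 250 (ycg.enc h1))))))) (enc_case (lc33_147.enc h1 h2) (enc_add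 (enc_subr 298517 100000 (enc_scaleT 401 200 (ycg.enc h1))) (enc_mul (enc_norm (lc33_11.enc h1 h2)) (enc_norm (enc_sub (enc_rat _ 9623 22500) (enc_scaleT 77 180 (ycg.enc h1)))))) (enc_add (enc_subr 1342837 450000 (enc_scaleT 451 225 (ycg.enc h1))) (enc_mul (enc_norm (lc33_11.enc h1 h2)) (enc_norm (enc_sub (enc_rat _ 37513 90000) (enc_scaleT 19 45 (ycg.enc h1)))))))) (enc_case (lc33_59.enc h1 h2) (enc_case (lc33_171.enc h1 h2) (enc_add (enc_subr 2687641 900000 (enc_scaleT 361 180 (ycg.enc h1))) (enc_mul (enc_norm (lc33_11.enc h1 h2)) (enc_norm (enc_sub (enc_rat _ 329 750) (enc_scaleT 13 30 (ycg.enc h1)))))) (enc_add (enc_add (enc_scaleT 12370000 94533523 h1) (enc_rat _ 8902259057939 9453352300000)) (enc_mul (enc_norm (lc33_11.enc h1 h2)) (enc_norm (enc_sub (enc_rat _ 3460308029421 472667615000) (enc_scaleT 2734500000 94533523 h1)))))) (enc_case (lc33_57.enc h1 h2) (enc_add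 (enc_add (enc_scaleT 87575 135787 h1) (enc_rat _ 4631814921383 5431480000000)) (enc_mul (enc_norm (lc33_11.enc h1 h2)) (enc_norm (enc_sub (enc_rat _ 2987785025883 543148000000) (enc_scaleT 2499250 135787 h1))))) (enc_case (lc33_86.enc h1 h2) (enc_add (enc_add (enc_scaleT 65000 244511 h1) (enc_rat _ 92426413 102952000)) (enc_mul (enc_norm (lc33_11.enc h1 h2)) (enc_norm (enc_sub (enc_rat _ 169898021741 30885600000) (enc_scaleT 13501250 733533 h1))))) (enc_add (enc_add (enc_scaleT 15950000 59990999 h1) (enc_rat _ 5611 6250)) (enc_mul (enc_norm (lc33_11.enc h1 h2)) (enc_norm (enc_sub (enc_rat _ 55009 10000) (enc_scaleT 1104200000 59990999 h1)))))))))))⟩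
noncomputable def lc33 : Fn2 := ⟨_, _, fun h1 h2 => (enc_norm (enc_case (lc33_147.enc h1 h2) (enc_mul (enc_norm (lc33_9.enc h1 h2)) (enc_norm (enc_case (lc33_13.enc h1 h2) (enc_add (enc_subr 2110673 1660000 (enc_scaleT 24249 20750 (ycg.enc h1))) (enc_mul (enc_norm (lc33_11.enc h1 h2)) (enc_norm (enc_subr 51404 51875 (enc_scaleT 197 166 (ycg.enc h1)))))) (enc_case (lc33_25.enc h1 h2) (enc_add (enc_subr 79441 62500 (enc_scaleT 2921 2500 (ycg.enc h1))) (enc_mul (enc_norm (lc33_11.enc h1 h2)) (enc_norm (enc_subr 24833 25000 (enc_scaleT 297 250 (ycg.enc h1)))))) (enc_add (enc_add (enc_sub (enc_rat _ 40416904513 3000000000) (enc_scaleT 385876129 60000000 (ycg.enc h1))) (enc_mul (enc_norm (lc33_11.enc h1 h2)) (enc_norm (enc_subr 15113724403 225000000 (enc_scaleT 158853499 4500000 (ycg.enc h1)))))) (enc_mul (lc33_50.enc h1 h2) (enc_norm (enc_sub (enc_rat _ 97 56250) (enc_scaleT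 1 1125 (ycg.enc h1)))))))))) (enc_case (lc33_171.enc h1 h2) (enc_add (lc33_223.enc h1 h2) (enc_mul (enc_norm (enc_mul (enc_norm (enc_sub (enc_sub (qsg.enc (enc_norm (lc33_109.enc h1 h2))) (enc_mul (enc_norm (enc_nat 2 (enc_sub (lc33_109.enc h1 h2) h2))) (enc_norm (enc_mul (esg.enc (enc_norm (lc33_109.enc h1 h2))) (kcg.enc (enc_norm (enc_sub (enc_scaleT 3 4 (lc33_109.enc h1 h2)) (enc_half (gsg.enc (enc_norm (lc33_109.enc h1 h2)))))) h2))))) (lc33_223.enc h1 h2))) (enc_norm (enc_sub (lc33_9.enc h1 h2) (lc33_122.enc h1 h2))))) (enc_inv (enc_sub (lc33_6.enc h1 h2) (lc33_122.enc h1 h2))))) (enc_mul (enc_norm (lc33_9.enc h1 h2)) (enc_norm (enc_case (lc33_57.enc h1 h2) (enc_case (lc33_59.enc h1 h2) (enc_add (enc_add (enc_sub (enc_rat _ 432691551156770103 472667615000000000) (enc_scaleT 47227777 472667615 h1)) (enc_mul (enc_norm (lc33_11.enc h1 h2)) (enc_norm (enc_add (enc_scaleT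 443990325 94533523 h1) (enc_rat _ 4708279346877893 3781340920000000))))) (enc_mul (lc33_50.enc h1 h2) (enc_norm (enc_subr 672684400791351 47266761500000 (enc_scaleT 7777218000 94533523 h1))))) (enc_add (enc_add (enc_scaleT 61200 135787 h1) (enc_rat _ 278422109283 339467500000)) (enc_mul (enc_norm (lc33_11.enc h1 h2)) (enc_norm (enc_sub (enc_rat _ 2769793905689 543148000000) (enc_scaleT 2387750 135787 h1)))))) (enc_case (lc33_86.enc h1 h2) (enc_add (enc_add (enc_scaleT 464375 733533 h1) (enc_rat _ 49326262709 61771200000)) (enc_mul (enc_norm (lc33_11.enc h1 h2)) (enc_norm (enc_sub (enc_rat _ 328140773 64345000) (enc_scaleT 4300000 244511 h1))))) (enc_add (enc_add (enc_scaleT 50605150 59990999 h1) (enc_rat _ 15718097 20000000)) (enc_mul (enc_norm (lc33_11.enc h1 h2)) (enc_norm (enc_sub (enc_rat _ 9332299 2000000) (enc_scaleT 621449500 59990999 h1))))))))))))⟩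
noncomputable def kcc33_6 : Fn2 := ⟨_, _, fun h1 h2 => (enc_subr 1 2 (swg.enc (ycg.enc h1)))⟩
noncomputable def kcc33_9 : Fn2 := ⟨_, _, fun h1 h2 => (enc_add (enc_scaleT 1899 2000 (kcc33_6.enc h1 h2)) (enc_scaleT 101 2000 h1))⟩
noncomputable def kcc33_11 : Fn2 := ⟨_, _, fun h1 h2 => (enc_subr 309 320 h2)⟩
noncomputable def kcc33_34 : Fn2 := ⟨_, _, fun h1 h2 => (enc_subn 1 (ycg.enc h1))⟩
noncomputable def kcc33_35 : Fn2 := ⟨_, _, fun h1 h2 => (gsg.enc (enc_norm (kcc33_34.enc h1 h2)))⟩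
noncomputable def kcc33_39 : Fn2 := ⟨_, _, fun h1 h2 => (esg.enc (enc_norm (kcc33_34.enc h1 h2)))⟩
noncomputable def kcc33_44 : Fn2 := ⟨_, _, fun h1 h2 => (gug.enc (enc_norm (kcc33_34.enc h1 h2)))⟩
noncomputable def kcc33_46 : Fn2 := ⟨_, _, fun h1 h2 => (enc_mul (enc_norm (kcc33_34.enc h1 h2)) (enc_inv (kcc33_35.enc h1 h2)))⟩
noncomputable def kcc33_47 : Fn2 := ⟨_, _, fun h1 h2 => (enc_scaleT 3 4 (kcc33_46.enc h1 h2))⟩
noncomputable def kcc33_73 : Fn2 := ⟨_, _, fun h1 h2 => (cv2r.enc (ycg.enc h1))⟩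
noncomputable def kcc33_75 : Fn2 := ⟨_, _, fun h1 h2 => (enc_subr 979 500 (ycg.enc h1))⟩
noncomputable def kcc33_81 : Fn2 := ⟨_, _, fun h1 h2 => (enc_subr 247 125 (ycg.enc h1))⟩
noncomputable def kcc33_97 : Fn2 := ⟨_, _, fun h1 h2 => (enc_mul (kcc33_73.enc h1 h2) (enc_norm (enc_case (kcc33_75.enc h1 h2) (enc_subr 73812131 2290000 (enc_scaleT 36906 1145 (ycg.enc h1))) (enc_case (kcc33_81.enc h1 h2) (enc_subr 967031 30000 (enc_scaleT 967 30 (ycg.enc h1))) (enc_add (enc_add (enc_scaleT 15553650000 133760981 h1) (enc_rat _ 1757 5000)) (enc_mul (enc_norm (kcc33_11.enc h1 h2)) (enc_norm (enc_subr 182971 1000 (enc_scaleT 5381500000 7868293 h1)))))))))⟩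
noncomputable def kcc33 : Fn2 := ⟨_, _, fun h1 h2 => (enc_norm (enc_case (kcc33_75.enc h1 h2) (enc_mul (enc_norm (kcc33_9.enc h1 h2)) (enc_norm (enc_add (enc_subr 30019316131 1832000000 (enc_scaleT 13632577377 916000000 (ycg.enc h1))) (enc_mul (enc_norm (kcc33_11.enc h1 h2)) (enc_norm (enc_subr 484323 458000000 (enc_scaleT 161441 229000000 (ycg.enc h1)))))))) (enc_case (kcc33_81.enc h1 h2) (enc_add (kcc33_97.enc h1 h2) (enc_mul (enc_norm (enc_mul (enc_norm (enc_sub (enc_add (enc_sub (enc_add (enc_add (enc_rat _ 3 4) (enc_scaleT 3 2 (kcc33_34.enc h1 h2))) (enc_scaleT 3 4 (enc_mul (enc_norm (kcc33_46.enc h1 h2)) (kcc33_44.enc h1 h2)))) (enc_wT (enc_mul (enc_norm (enc_sub (enc_mul (enc_norm (enc_mul (enc_norm (kcc33_47.enc h1 h2)) (enc_norm (enc_subn 3 (enc_nat 4 (kcc33_35.enc h1 h2)))))) (kcc33_39.enc h1 h2)) (enc_mul (qsg.enc (enc_norm (kcc33_34.enc h1 h2))) (enc_norm (enc_sub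 (enc_rat _ 1 2) (kcc33_47.enc h1 h2)))))) (enc_inv (enc_mul (enc_nat 2 (kcc33_39.enc h1 h2)) (kcc33_39.enc h1 h2)))) (kcc33_34.enc h1 h2) (kcc33_35.enc h1 h2) (kcc33_39.enc h1 h2) rfl rfl rfl rfl)) (enc_mul (kcg.enc (enc_norm (enc_sub (enc_scaleT 3 4 (kcc33_34.enc h1 h2)) (enc_half (kcc33_35.enc h1 h2)))) h2) (enc_norm (enc_sub (enc_pnc _ 1) (enc_add (kcc33_44.enc h1 h2) (enc_nat 2 (kcc33_35.enc h1 h2))))))) (kcc33_97.enc h1 h2))) (enc_norm (enc_sub (kcc33_9.enc h1 h2) (kcc33_73.enc h1 h2))))) (enc_inv (enc_sub (kcc33_6.enc h1 h2) (kcc33_73.enc h1 h2))))) (enc_mul (enc_norm (kcc33_9.enc h1 h2)) (enc_norm (enc_add (enc_add (enc_scaleT 24295599658607 446761676540 h1) (enc_rat _ 12411 3340)) (enc_mul (enc_norm (kcc33_11.enc h1 h2)) (enc_norm (enc_subr 57574 167 (enc_scaleT 7041523307405 22338083827 h1))))))))))⟩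
noncomputable def cv4m : Fn1 := ⟨_, _, fun h1 => (enc_norm (enc_add (enc_scaleT 3 10 (enc_add (swg.enc h1) (enc_rat _ 1 2))) (enc_scaleT 7 10 (c3g.enc h1))))⟩
noncomputable def bf4q0_45 : Fn2 := ⟨_, _, fun h1 h2 => (enc_scaleT 367 500 h1)⟩
noncomputable def bf4q0 : Fn2 := ⟨_, _, fun h1 h2 => (enc_norm (enc_case (enc_subr 21 500 h1) (enc_case (enc_subr 133 10000 h1) (enc_case (enc_subr 67 10000 h1) (enc_sub (enc_rat _ 1323 4000) (enc_scaleT 246 335 h1)) (enc_sub (enc_rat _ 99223 300000) (enc_scaleT 11 15 h1))) (enc_case (enc_subr 37 2000 h1) (enc_sub (enc_rat _ 859977 2600000) (enc_scaleT 191 260 h1)) (enc_case (enc_subr 3 125 h1) (enc_sub (enc_rat _ 181899 550000) (enc_scaleT 403 550 h1)) (enc_sub (enc_rat _ 9923 30000) (enc_scaleT 661 900 h1))))) (enc_case (enc_subr 17 200 h1) (enc_case (enc_subr 3 50 h1) (enc_sub (enc_rat _ 99223 300000) (enc_scaleT 1321 1800 h1)) (enc_sub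 (enc_rat _ 1323 4000) (bf4q0_45.enc h1 h2))) (enc_case (enc_subr 1 8 h1) (enc_sub (enc_rat _ 264583 800000) (enc_scaleT 587 800 h1)) (enc_case (enc_subr 7 20 h1) (enc_sub (enc_rat _ 8269 25000) (bf4q0_45.enc h1 h2)) (enc_sub (enc_rat _ 99221 300000) (enc_scaleT 11009 15000 h1)))))))⟩
noncomputable def kf4q0 : Fn2 := ⟨_, _, fun h1 h2 => (enc_norm (enc_mul (cv4m.enc h1) (bf4q0.enc h1 h2)))⟩
noncomputable def bx4q0_3 : Fn2 := ⟨_, _, fun h1 h2 => (enc_subr 309 320 h2)⟩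
noncomputable def bx4q0_66 : Fn2 := ⟨_, _, fun h1 h2 => (enc_mul (enc_norm (bx4q0_3.enc h1 h2)) (enc_norm (enc_sub (enc_rat _ 19139 15000) (enc_scaleT 16 45 h1))))⟩
noncomputable def bx4q0_97 : Fn2 := ⟨_, _, fun h1 h2 => (enc_scaleT 107 1000 h1)⟩
noncomputable def bx4q0_140 : Fn2 := ⟨_, _, fun h1 h2 => (enc_mul (enc_norm (bx4q0_3.enc h1 h2)) (enc_norm (enc_sub (enc_rat _ 12759 10000) (enc_scaleT 177 500 h1))))⟩
noncomputable def bx4q0 : Fn2 := ⟨_, _, fun h1 h2 => (enc_norm (enc_case (enc_subr 21 500 h1) (enc_case (enc_subr 37 2000 h1) (enc_case (enc_subr 67 10000 h1) (enc_add (enc_sub (enc_rat _ 30659 100000) (enc_scaleT 36 335 h1)) (enc_mul (enc_norm (bx4q0_3.enc h1 h2)) (enc_norm (enc_sub (enc_rat _ 12759 10000) (enc_scaleT 24 67 h1))))) (enc_case (enc_subr 133 10000 h1) (enc_add (enc_sub (enc_rat _ 2023499 6600000) (enc_scaleT 71 660 h1)) (enc_mul (enc_norm (bx4q0_3.enc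 h1 h2)) (enc_norm (enc_sub (enc_rat _ 842051 660000) (enc_scaleT 23 66 h1))))) (enc_add (enc_sub (enc_rat _ 1594147 5200000) (enc_scaleT 11 104 h1)) (enc_mul (enc_norm (bx4q0_3.enc h1 h2)) (enc_norm (enc_sub (enc_rat _ 663551 520000) (enc_scaleT 19 52 h1))))))) (enc_case (enc_subr 3 125 h1) (enc_add (enc_sub (enc_rat _ 168627 550000) (enc_scaleT 59 550 h1)) (enc_mul (enc_norm (bx4q0_3.enc h1 h2)) (enc_norm (enc_sub (enc_rat _ 70163 55000) (enc_scaleT 19 55 h1))))) (enc_case (enc_subr 33 1000 h1) (enc_add (enc_sub (enc_rat _ 45991 150000) (enc_scaleT 97 900 h1)) (bx4q0_66.enc h1 h2)) (enc_add (enc_sub (enc_rat _ 30657 100000) (enc_scaleT 8 75 h1)) (bx4q0_66.enc h1 h2))))) (enc_case (enc_subr 1 8 h1) (enc_case (enc_subr 3 50 h1) (enc_add (enc_sub (enc_rat _ 45989 150000) (enc_scaleT 193 1800 h1)) (bx4q0_66.enc h1 h2)) (enc_case (enc_subr 17 200 h1) (enc_add (enc_sub (enc_rat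 _ 38321 125000) (enc_scaleT 267 2500 h1)) (enc_mul (enc_norm (bx4q0_3.enc h1 h2)) (enc_norm (enc_sub (enc_rat _ 31893 25000) (enc_scaleT 44 125 h1))))) (enc_add (enc_sub (enc_rat _ 61317 200000) (bx4q0_97.enc h1 h2)) (enc_mul (enc_norm (bx4q0_3.enc h1 h2)) (enc_norm (enc_sub (enc_rat _ 51039 40000) (enc_scaleT 71 200 h1))))))) (enc_case (enc_subr 1 4 h1) (enc_case (enc_subr 9 50 h1) (enc_add (enc_sub (enc_rat _ 42157 137500) (enc_scaleT 589 5500 h1)) (enc_mul (enc_norm (bx4q0_3.enc h1 h2)) (enc_norm (enc_sub (enc_rat _ 70163 55000) (enc_scaleT 97 275 h1))))) (enc_add (enc_sub (enc_rat _ 15329 50000) (bx4q0_97.enc h1 h2)) (enc_mul (enc_norm (bx4q0_3.enc h1 h2)) (enc_norm (enc_sub (enc_rat _ 44659 35000) (enc_scaleT 62 175 h1)))))) (enc_case (enc_subr 7 20 h1) (enc_add (enc_sub (enc_rat _ 61321 200000) (enc_scaleT 1071 10000 h1)) (bx4q0_140.enc h1 h2)) (enc_add (enc_sub (enc_rat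 _ 30657 100000) (bx4q0_97.enc h1 h2)) (bx4q0_140.enc h1 h2)))))))⟩
noncomputable def l4q0 : Fn2 := ⟨_, _, fun h1 h2 => (enc_norm (enc_mul (cv4m.enc h1) (bx4q0.enc h1 h2)))⟩
noncomputable def bd4q0 : Fn2 := ⟨_, _, fun h1 h2 => (enc_norm (enc_case (enc_subr 3 125 h1) (enc_case (enc_subr 1 100 h1) (enc_sub (enc_rat _ 26733 2500) (enc_scaleT 107 10 h1)) (enc_sub (enc_rat _ 748519 70000) (enc_scaleT 1497 140 h1))) (enc_case (enc_subr 3 100 h1) (enc_sub (enc_rat _ 106929 10000) (enc_scaleT 641 60 h1)) (enc_case (enc_subr 21 500 h1) (enc_sub (enc_rat _ 213863 20000) (enc_scaleT 1283 120 h1)) (enc_sub (enc_rat _ 3060933 286250) (enc_scaleT 9795 916 h1))))))⟩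
noncomputable def kc4q0 : Fn2 := ⟨_, _, fun h1 h2 => (enc_norm (enc_mul (cv4m.enc h1) (bd4q0.enc h1 h2)))⟩
noncomputable def bf4q1 : Fn2 := ⟨_, _, fun h1 h2 => (enc_norm (enc_case (enc_subr 7 8 h1) (enc_subr 8699 30000 (enc_scaleT 24187 18750 h1)) (enc_subr 906 3125 (enc_scaleT 4031 3125 h1))))⟩
noncomputable def kf4q1 : Fn2 := ⟨_, _, fun h1 h2 => (enc_norm (enc_mul (cv4m.enc h1) (bf4q1.enc h1 h2)))⟩
noncomputable def bx4q1_3 : Fn2 := ⟨_, _, fun h1 h2 => (enc_subr 309 320 h2)⟩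
noncomputable def bx4q1 : Fn2 := ⟨_, _, fun h1 h2 => (enc_norm (enc_case (enc_subr 7 8 h1) (enc_add (enc_sub (enc_rat _ 53371 100000) (enc_scaleT 1754 3125 h1)) (enc_mul (enc_norm (bx4q1_3.enc h1 h2)) (enc_norm (enc_sub (enc_rat _ 13187 6000) (enc_scaleT 4121 1875 h1))))) (enc_add (enc_sub (enc_rat _ 4259 12500) (enc_scaleT 4259 12500 h1)) (enc_mul (enc_norm (bx4q1_3.enc h1 h2)) (enc_norm (enc_sub (enc_rat _ 2747 1250) (enc_scaleT 2747 1250 h1)))))))⟩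
noncomputable def l4q1 : Fn2 := ⟨_, _, fun h1 h2 => (enc_norm (enc_mul (cv4m.enc h1) (bx4q1.enc h1 h2)))⟩
noncomputable def bd4q1 : Fn2 := ⟨_, _, fun h1 h2 => (enc_norm (enc_sub (enc_rat _ 26733 2500) (enc_scaleT 26733 2500 h1)))⟩
noncomputable def kc4q1 : Fn2 := ⟨_, _, fun h1 h2 => (enc_norm (enc_mul (cv4m.enc h1) (bd4q1.enc h1 h2)))⟩
noncomputable def cv4p : Fn1 := ⟨_, _, fun h1 => (enc_norm (enc_add (enc_scaleT 3 10 (enc_subr 1 2 (swg.enc h1))) (enc_scaleT 7 10 (c3g.enc h1))))⟩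
noncomputable def bf4q2 : Fn2 := ⟨_, _, fun h1 h2 => (enc_norm (enc_case (enc_subr 53 50 h1) (enc_case (enc_subr 128 125 h1) (enc_subr 1008907 300000 (enc_scaleT 8717 2400 h1)) (enc_case (enc_subr 521 500 h1) (enc_subr 3027361 900000 (enc_scaleT 6539 1800 h1)) (enc_subr 75671 22500 (enc_scaleT 3269 900 h1)))) (enc_case (enc_subr 231 200 h1) (enc_case (enc_subr 217 200 h1) (enc_subr 210209 62500 (enc_scaleT 9081 2500 h1)) (enc_subr 26907 8000 (enc_scaleT 25427 7000 h1))) (enc_case (enc_subr 13 10 h1) (enc_subr 9753507 2900000 (enc_scaleT 52669 14500 h1)) (enc_subr 672657 200000 (enc_scaleT 72647 20000 h1))))))⟩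
noncomputable def kf4q2 : Fn2 := ⟨_, _, fun h1 h2 => (enc_norm (enc_mul (cv4p.enc h1) (bf4q2.enc h1 h2)))⟩
noncomputable def bx4q2_3 : Fn2 := ⟨_, _, fun h1 h2 => (enc_subr 309 320 h2)⟩
noncomputable def bx4q2_28 : Fn2 := ⟨_, _, fun h1 h2 => (enc_mul (enc_norm (bx4q2_3.enc h1 h2)) (enc_norm (enc_subr 179557 90000 (enc_scaleT 104 45 h1))))⟩
noncomputable def bx4q2 : Fn2 := ⟨_, _, fun h1 h2 => (enc_norm (enc_case (enc_subr 53 50 h1) (enc_case (enc_subr 128 125 h1) (enc_add (enc_sub (enc_rat _ 37559 150000) (enc_scaleT 41 150 h1)) (enc_mul (enc_norm (bx4q2_3.enc h1 h2)) (enc_norm (enc_subr 3993 2000 (enc_scaleT 37 16 h1))))) (enc_case (enc_subr 521 500 h1) (enc_add (enc_sub (enc_rat _ 112421 450000) (enc_scaleT 491 1800 h1)) (bx4q2_28.enc h1 h2)) (enc_add (enc_subr 691 28125 (enc_neg (enc_scaleT 17 1800 h1))) (bx4q2_28.enc h1 h2)))) (enc_case (enc_subr 231 200 h1) (enc_case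 (enc_subr 217 200 h1) (enc_add (enc_subr 16383 250000 (enc_scaleT 73 2500 h1)) (enc_mul (enc_norm (bx4q2_3.enc h1 h2)) (enc_norm (enc_subr 99801 50000 (enc_scaleT 289 125 h1))))) (enc_add (enc_subr 9337 100000 (enc_scaleT 48 875 h1)) (enc_mul (enc_norm (bx4q2_3.enc h1 h2)) (enc_norm (enc_subr 9977 5000 (enc_scaleT 809 350 h1)))))) (enc_case (enc_subr 13 10 h1) (enc_add (enc_subr 1117 5800 (enc_scaleT 2041 14500 h1)) (enc_mul (enc_norm (bx4q2_3.enc h1 h2)) (enc_norm (enc_subr 289267 145000 (enc_scaleT 3351 1450 h1))))) (enc_add (enc_subr 275063 200000 (enc_scaleT 21011 20000 h1)) (enc_mul (enc_norm (bx4q2_3.enc h1 h2)) (enc_norm (enc_subr 26099 4000 (enc_scaleT 11591 2000 h1)))))))))⟩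
noncomputable def l4q2 : Fn2 := ⟨_, _, fun h1 h2 => (enc_norm (enc_mul (cv4p.enc h1) (bx4q2.enc h1 h2)))⟩
noncomputable def bd4q2 : Fn2 := ⟨_, _, fun h1 h2 => (enc_norm (enc_case (enc_subr 231 200 h1) (enc_subr 10288949 310000 (enc_scaleT 18067 775 h1)) (enc_subr 3816857 115000 (enc_scaleT 26809 1150 h1))))⟩
noncomputable def kc4q2 : Fn2 := ⟨_, _, fun h1 h2 => (enc_norm (enc_mul (cv4p.enc h1) (bd4q2.enc h1 h2)))⟩
noncomputable def xc43 : Fn1 := ⟨_, _, fun h1 => (enc_norm (enc_add (enc_scaleT 3 10 (enc_subr 1 2 (swg.enc (ycg.enc h1)))) (enc_scaleT 7 10 h1)))⟩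
noncomputable def kfc43_11 : Fn2 := ⟨_, _, fun h1 h2 => (enc_subr 309 320 h2)⟩
noncomputable def kfc43_41 : Fn2 := ⟨_, _, fun h1 h2 => (enc_scaleT 1282 225 (ycg.enc h1))⟩
noncomputable def kfc43_59 : Fn2 := ⟨_, _, fun h1 h2 => (enc_mul (enc_norm (kfc43_11.enc h1 h2)) (enc_norm (enc_subr 2350337 90000 (enc_scaleT 1567 90 (ycg.enc h1)))))⟩
noncomputable def kfc43 : Fn2 := ⟨_, _, fun h1 h2 => (enc_norm (enc_mul (enc_norm (enc_add (enc_scaleT 3 10 (enc_subr 1 2 (swg.enc (ycg.enc h1)))) (enc_scaleT 7 10 h1))) (enc_norm (enc_case (enc_subr 1967 1000 (ycg.enc h1)) (enc_case (enc_subr 97 50 (ycg.enc h1)) (enc_case (enc_subr 383 200 (ycg.enc h1)) (enc_add (enc_subr 90272149 8300000 (enc_scaleT 236443 41500 (ycg.enc h1))) (enc_mul (enc_norm (kfc43_11.enc h1 h2)) (enc_norm (enc_subr 54204 2075 (enc_scaleT 36136 2075 (ycg.enc h1)))))) (enc_add (enc_subr 5437869 500000 (enc_scaleT 14243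 2500 (ycg.enc h1))) (enc_mul (enc_norm (kfc43_11.enc h1 h2)) (enc_norm (enc_subr 653111 25000 (enc_scaleT 2177 125 (ycg.enc h1))))))) (enc_case (enc_subr 979 500 (ycg.enc h1)) (enc_add (enc_subr 9789173 900000 (kfc43_41.enc h1 h2)) (enc_mul (enc_norm (kfc43_11.enc h1 h2)) (enc_norm (enc_subr 195943 7500 (enc_scaleT 209 12 (ycg.enc h1)))))) (enc_add (enc_subr 652481 60000 (enc_scaleT 1709 300 (ycg.enc h1))) (kfc43_59.enc h1 h2)))) (enc_case (enc_sub (enc_rat _ 172988439 1000000000) h1) (enc_case (enc_subr 247 125 (ycg.enc h1)) (enc_add (enc_subr 4894591 450000 (kfc43_41.enc h1 h2)) (kfc43_59.enc h1 h2)) (enc_add (enc_sub (enc_rat _ 5224504885053 4726676150000) (enc_scaleT 255620000 94533523 h1)) (enc_mul (enc_norm (kfc43_11.enc h1 h2)) (enc_norm (enc_subr 1821989005001 945335230000 (enc_scaleT 3610300000 94533523 h1)))))) (enc_case (enc_sub (enc_rat _ 118673639 1000000000)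 h1) (enc_add (enc_add (enc_scaleT 63950 135787 h1) (enc_rat _ 1510194980919 2715740000000)) (enc_mul (enc_norm (kfc43_11.enc h1 h2)) (enc_norm (enc_subr 1046801068577 543148000000 (enc_scaleT 5185750 135787 h1))))) (enc_case (enc_sub (enc_rat _ 59990999 1000000000) h1) (enc_add (enc_add (enc_scaleT 680250 244511 h1) (enc_rat _ 14506968179 51476000000)) (enc_mul (enc_norm (kfc43_11.enc h1 h2)) (enc_norm (enc_subr 42618604297 10295200000 (enc_scaleT 13896250 244511 h1))))) (enc_sub (enc_sub (enc_rat _ 1 2) (enc_scaleT 51280000 59990999 h1)) (enc_mul (enc_norm (kfc43_11.enc h1 h2)) (enc_scaleT 730200000 59990999 h1))))))))))⟩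
noncomputable def lc43_11 : Fn2 := ⟨_, _, fun h1 h2 => (enc_subr 309 320 h2)⟩
noncomputable def lc43 : Fn2 := ⟨_, _, fun h1 h2 => (enc_norm (enc_mul (enc_norm (enc_add (enc_scaleT 3 10 (enc_subr 1 2 (swg.enc (ycg.enc h1)))) (enc_scaleT 7 10 h1))) (enc_norm (enc_case (enc_subr 1967 1000 (ycg.enc h1)) (enc_case (enc_subr 97 50 (ycg.enc h1)) (enc_case (enc_subr 383 200 (ycg.enc h1)) (enc_add (enc_subr 16159967 8300000 (enc_scaleT 29707 20750 (ycg.enc h1))) (enc_mul (enc_norm (lc43_11.enc h1 h2)) (enc_norm (enc_subr 1083149 166000 (enc_scaleT 12026 2075 (ycg.enc h1)))))) (enc_add (enc_subr 194763 100000 (enc_scaleT 179 125 (ycg.enc h1))) (enc_mul (enc_norm (lc43_11.enc h1 h2)) (enc_norm (enc_subr 163141 25000 (enc_scaleT 1449 250 (ycg.enc h1))))))) (enc_case (enc_subr 979 500 (ycg.enc h1)) (enc_add (enc_add (enc_scaleT 53 1800 (ycg.enc h1)) (enc_rat _ 139199 180000)) (enc_mul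 (enc_norm (lc43_11.enc h1 h2)) (enc_norm (enc_sub (enc_rat _ 271507 45000) (enc_scaleT 61 90 (ycg.enc h1)))))) (enc_add (enc_sub (enc_rat _ 150077 45000) (enc_scaleT 1151 900 (ycg.enc h1))) (enc_mul (enc_norm (lc43_11.enc h1 h2)) (enc_norm (enc_sub (enc_rat _ 228269 22500) (enc_scaleT 25 9 (ycg.enc h1)))))))) (enc_case (enc_sub (enc_rat _ 172988439 1000000000) h1) (enc_case (enc_subr 247 125 (ycg.enc h1)) (enc_add (enc_sub (enc_rat _ 2995639 900000) (enc_scaleT 287 225 (ycg.enc h1))) (enc_mul (enc_norm (lc43_11.enc h1 h2)) (enc_norm (enc_sub (enc_rat _ 303703 30000) (enc_scaleT 83 30 (ycg.enc h1)))))) (enc_add (enc_add (enc_scaleT 18300000 94533523 h1) (enc_rat _ 7148648934417 9453352300000)) (enc_mul (enc_norm (lc43_11.enc h1 h2)) (enc_norm (enc_add (enc_scaleT 863000000 94533523 h1) (enc_rat _ 418647793287 189067046000)))))) (enc_case (enc_sub (enc_rat _ 118673639 1000000000)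 h1) (enc_add (enc_sub (enc_rat _ 4356131967093 5431480000000) (enc_scaleT 9675 135787 h1)) (enc_mul (enc_norm (lc43_11.enc h1 h2)) (enc_norm (enc_sub (enc_rat _ 805901550459 135787000000) (enc_scaleT 1681000 135787 h1))))) (enc_case (enc_sub (enc_rat _ 59990999 1000000000) h1) (enc_add (enc_add (enc_scaleT 750 12869 h1) (enc_rat _ 40493273643 51476000000)) (enc_mul (enc_norm (lc43_11.enc h1 h2)) (enc_norm (enc_add (enc_scaleT 1026250 244511 h1) (enc_rat _ 40849383279 10295200000))))) (enc_add (enc_add (enc_scaleT 4235150 59990999 h1) (enc_rat _ 15718097 20000000)) (enc_mul (enc_norm (lc43_11.enc h1 h2)) (enc_norm (enc_sub (enc_rat _ 9332299 2000000) (enc_scaleT 446549500 59990999 h1))))))))))))⟩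
noncomputable def kcc43 : Fn2 := ⟨_, _, fun h1 h2 => (enc_norm (enc_mul (enc_norm (enc_add (enc_scaleT 3 10 (enc_subr 1 2 (swg.enc (ycg.enc h1)))) (enc_scaleT 7 10 h1))) (enc_norm (enc_case (enc_subr 197 100 (ycg.enc h1)) (enc_case (enc_subr 979 500 (ycg.enc h1)) (enc_subr 4750292 143125 (enc_scaleT 106769 4580 (ycg.enc h1))) (enc_subr 1990957 60000 (enc_scaleT 2797 120 (ycg.enc h1)))) (enc_case (enc_subr 247 125 (ycg.enc h1)) (enc_subr 995971 30000 (enc_scaleT 1399 60 (ycg.enc h1))) (enc_add (enc_add (enc_scaleT 764762450000 22338083827 h1) (enc_rat _ 12411 3340)) (enc_mul (enc_norm (enc_subr 309 320 h2)) (enc_norm (enc_subr 57574 167 (enc_scaleT 28787000000000 22338083827 h1))))))))))⟩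
noncomputable def kf5q0 : Fn2 := ⟨_, _, fun h1 h2 => (enc_norm (enc_sub (enc_mul h1 (kcg.enc (enc_half h1) h2)) (enc_mul (enc_norm (enc_mul (enc_sq h1) (enc_norm (enc_add (c3g.enc h1) (enc_rat _ 3 2))))) (enc_inv (enc_mul (enc_norm (enc_sub (enc_pnc _ 1) h1)) (enc_norm (enc_add (enc_pnc _ 1) h1)))))))⟩
noncomputable def l5q0_6 : Fn2 := ⟨_, _, fun h1 h2 => (enc_half h1)⟩
noncomputable def l5q0_7 : Fn2 := ⟨_, _, fun h1 h2 => (enc_half (c3g.enc h1))⟩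
noncomputable def l5q0_8 : Fn2 := ⟨_, _, fun h1 h2 => (enc_scaleT 1 4 h1)⟩
noncomputable def l5q0 : Fn2 := ⟨_, _, fun h1 h2 => (enc_norm (enc_add (txg.enc (l5q0_6.enc h1 h2) (enc_norm (enc_sub (l5q0_7.enc h1 h2) (l5q0_8.enc h1 h2))) h2) (txg.enc (enc_neg (l5q0_6.enc h1 h2)) (enc_norm (enc_add (l5q0_7.enc h1 h2) (l5q0_8.enc h1 h2))) h2)))⟩
noncomputable def kc5q0_3 : Fn2 := ⟨_, _, fun h1 h2 => (enc_subr 309 320 h2)⟩
noncomputable def kc5q0_6 : Fn2 := ⟨_, _, fun h1 h2 => (enc_half h1)⟩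
noncomputable def kc5q0 : Fn2 := ⟨_, _, fun h1 h2 => (enc_norm (enc_case (enc_subr 167 1000 (kc5q0_6.enc h1 h2)) (enc_add (enc_add (enc_scaleT 3273 1670 h1) (enc_rat _ 1691 2500)) (enc_mul (enc_norm (kc5q0_3.enc h1 h2)) (enc_norm (enc_subr 316711 1000 (enc_neg (enc_scaleT 155409 167 h1)))))) (enc_case (enc_subr 333 1000 (kc5q0_6.enc h1 h2)) (enc_add (enc_add (enc_scaleT 6507 3320 h1) (enc_rat _ 1122791 1660000)) (enc_mul (enc_norm (kc5q0_3.enc h1 h2)) (enc_norm (enc_subr 10514799 33200 (enc_neg (enc_scaleT 308957 332 h1)))))) (enc_add (enc_sub (enc_rat _ 19817 3340) (enc_scaleT 19817 3340 h1)) (enc_mul (enc_norm (kc5q0_3.enc h1 h2)) (enc_norm (enc_subr 468243 167 (enc_scaleT 468243 167 h1))))))))⟩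
noncomputable def kf5q1 : Fn2 := ⟨_, _, fun h1 h2 => (enc_norm (enc_add (enc_mul (enc_norm (enc_mul h1 (enc_norm (enc_add (c3g.enc h1) (enc_rat _ 3 2))))) (enc_inv (enc_add (enc_pnc _ 1) h1))) (enc_mul (enc_norm (enc_subn 1 h1)) (kcg.enc (enc_half h1) h2))))⟩
noncomputable def l5q1_7 : Fn2 := ⟨_, _, fun h1 h2 => (enc_half h1)⟩
noncomputable def l5q1_8 : Fn2 := ⟨_, _, fun h1 h2 => (enc_half (c3g.enc h1))⟩
noncomputable def l5q1_9 : Fn2 := ⟨_, _, fun h1 h2 => (enc_scaleT 1 4 h1)⟩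
noncomputable def l5q1 : Fn2 := ⟨_, _, fun h1 h2 => (enc_norm (enc_add (txg.enc (l5q1_7.enc h1 h2) (enc_norm (enc_sub (l5q1_8.enc h1 h2) (l5q1_9.enc h1 h2))) h2) (txg.enc (enc_neg (l5q1_7.enc h1 h2)) (enc_norm (enc_add (l5q1_8.enc h1 h2) (l5q1_9.enc h1 h2))) h2)))⟩
noncomputable def kc5q1_3 : Fn2 := ⟨_, _, fun h1 h2 => (enc_subr 309 320 h2)⟩
noncomputable def kc5q1_7 : Fn2 := ⟨_, _, fun h1 h2 => (enc_half h1)⟩
noncomputable def kc5q1 : Fn2 := ⟨_, _, fun h1 h2 => (enc_norm (enc_case (enc_subr 167 1000 (kc5q1_7.enc h1 h2)) (enc_add (enc_add (enc_scaleT 3273 1670 h1) (enc_rat _ 1691 2500)) (enc_mul (enc_norm (kc5q1_3.enc h1 h2)) (enc_norm (enc_subr 316711 1000 (enc_neg (enc_scaleT 155409 167 h1)))))) (enc_case (enc_subr 333 1000 (kc5q1_7.enc h1 h2)) (enc_add (enc_add (enc_scaleT 6507 3320 h1) (enc_rat _ 1122791 1660000)) (enc_mul (enc_norm (kc5q1_3.enc h1 h2)) (enc_norm (enc_subr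 10514799 33200 (enc_neg (enc_scaleT 308957 332 h1)))))) (enc_add (enc_sub (enc_rat _ 19817 3340) (enc_scaleT 19817 3340 h1)) (enc_mul (enc_norm (kc5q1_3.enc h1 h2)) (enc_norm (enc_subr 468243 167 (enc_scaleT 468243 167 h1))))))))⟩
noncomputable def kf5q2 : Fn2 := ⟨_, _, fun h1 h2 => (enc_norm (enc_add (enc_mul (enc_norm (enc_mul (enc_norm (enc_sub (enc_nat 2 (c3g.enc h1)) h1)) (enc_norm (enc_sub (enc_add (c3g.enc h1) (enc_pnc _ 3)) (enc_scaleT 3 2 h1))))) (enc_inv (enc_nat 4 (enc_sub (enc_pnc _ 2) h1)))) (enc_mul (enc_norm (enc_subn 1 h1)) (kcg.enc (enc_norm (enc_sub (enc_scaleT 1 4 h1) (enc_half (c3g.enc h1)))) h2))))⟩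
noncomputable def l5q2_7 : Fn2 := ⟨_, _, fun h1 h2 => (enc_half (c3g.enc h1))⟩
noncomputable def l5q2_8 : Fn2 := ⟨_, _, fun h1 h2 => (enc_scaleT 1 4 h1)⟩
noncomputable def l5q2_9 : Fn2 := ⟨_, _, fun h1 h2 => (enc_sub (l5q2_7.enc h1 h2) (l5q2_8.enc h1 h2))⟩
noncomputable def l5q2_12 : Fn2 := ⟨_, _, fun h1 h2 => (enc_add (enc_scaleT 1 4 (c3g.enc h1)) (enc_scaleT 3 8 h1))⟩
noncomputable def l5q2_14 : Fn2 := ⟨_, _, fun h1 h2 => (enc_half (l5q2_9.enc h1 h2))⟩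
noncomputable def l5q2 : Fn2 := ⟨_, _, fun h1 h2 => (enc_norm (enc_sub (enc_nat 2 (txg.enc (enc_norm (enc_sub (l5q2_8.enc h1 h2) (l5q2_7.enc h1 h2))) (enc_norm (enc_add (l5q2_12.enc h1 h2) (l5q2_14.enc h1 h2))) h2)) (txg.enc (enc_norm (l5q2_9.enc h1 h2)) (enc_norm (enc_sub (l5q2_12.enc h1 h2) (l5q2_14.enc h1 h2))) h2)))⟩
noncomputable def kc5q2_3 : Fn2 := ⟨_, _, fun h1 h2 => (enc_subr 309 320 h2)⟩
noncomputable def kc5q2_9 : Fn2 := ⟨_, _, fun h1 h2 => (enc_sub (enc_half (c3g.enc h1)) (enc_scaleT 1 4 h1))⟩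
noncomputable def kc5q2_28 : Fn2 := ⟨_, _, fun h1 h2 => (enc_neg (enc_scaleT 1919 332 (kc5q2_9.enc h1 h2)))⟩
noncomputable def kc5q2_33 : Fn2 := ⟨_, _, fun h1 h2 => (enc_neg (enc_nat 1036 (kc5q2_9.enc h1 h2)))⟩
noncomputable def kc5q2 : Fn2 := ⟨_, _, fun h1 h2 => (enc_norm (enc_case (kc5q2_9.enc h1 h2) (enc_case (enc_add (kc5q2_9.enc h1 h2) (enc_rat _ 333 1000)) (enc_add (enc_add (enc_scaleT 12411 1670 (kc5q2_9.enc h1 h2)) (enc_rat _ 12411 3340)) (enc_mul (enc_norm (kc5q2_3.enc h1 h2)) (enc_norm (enc_subr 57574 167 (enc_neg (enc_scaleT 115148 167 (kc5q2_9.enc h1 h2))))))) (enc_case (enc_add (kc5q2_9.enc h1 h2) (enc_rat _ 167 1000)) (enc_add (enc_subr 1134909 1660000 (kc5q2_28.enc h1 h2)) (enc_mul (enc_norm (kc5q2_3.enc h1 h2)) (enc_norm (enc_subr 57517 125 (kc5q2_33.enc h1 h2))))) (enc_add (enc_subr 1709 2500 (enc_neg (enc_scaleT 4826 835 (kc5q2_9.enc h1 h2)))) (enc_mul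 (enc_norm (kc5q2_3.enc h1 h2)) (enc_norm (enc_subr 92027 200 (enc_neg (enc_scaleT 173011 167 (kc5q2_9.enc h1 h2))))))))) (enc_case (enc_subr 167 1000 (kc5q2_9.enc h1 h2)) (enc_add (enc_subr 1709 2500 (enc_neg (enc_scaleT 9653 1670 (kc5q2_9.enc h1 h2)))) (enc_mul (enc_norm (kc5q2_3.enc h1 h2)) (enc_norm (enc_subr 92027 200 (kc5q2_33.enc h1 h2))))) (enc_case (enc_subr 333 1000 (kc5q2_9.enc h1 h2)) (enc_add (enc_subr 1134809 1660000 (kc5q2_28.enc h1 h2)) (enc_mul (enc_norm (kc5q2_3.enc h1 h2)) (enc_norm (enc_subr 76382577 166000 (enc_neg (enc_scaleT 171975 166 (kc5q2_9.enc h1 h2))))))) (enc_add (enc_subr 6521 835 (enc_scaleT 13042 835 (kc5q2_9.enc h1 h2))) (enc_mul (enc_norm (kc5q2_3.enc h1 h2)) (enc_norm (enc_subr 402561 167 (enc_scaleT 805122 167 (kc5q2_9.enc h1 h2))))))))))⟩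
noncomputable def kfc53 : Fn2 := ⟨_, _, fun h1 h2 => (enc_norm (enc_sub (enc_mul (enc_norm (enc_subn 2 (ycg.enc h1))) (kcg.enc (enc_norm (enc_sub (enc_scaleT 1 4 (ycg.enc h1)) (enc_half h1))) h2)) (enc_mul (enc_norm (enc_mul (enc_norm (enc_sub (enc_nat 2 h1) (ycg.enc h1))) (enc_norm (enc_sub (enc_add h1 (enc_pnc _ 3)) (enc_scaleT 3 2 (ycg.enc h1)))))) (enc_inv (enc_nat 4 (enc_subn 1 (ycg.enc h1)))))))⟩
noncomputable def lc53_7 : Fn2 := ⟨_, _, fun h1 h2 => (enc_half h1)⟩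
noncomputable def lc53_8 : Fn2 := ⟨_, _, fun h1 h2 => (enc_scaleT 1 4 (ycg.enc h1))⟩
noncomputable def lc53_9 : Fn2 := ⟨_, _, fun h1 h2 => (enc_sub (lc53_7.enc h1 h2) (lc53_8.enc h1 h2))⟩
noncomputable def lc53_12 : Fn2 := ⟨_, _, fun h1 h2 => (enc_add (enc_scaleT 1 4 h1) (enc_scaleT 3 8 (ycg.enc h1)))⟩
noncomputable def lc53_14 : Fn2 := ⟨_, _, fun h1 h2 => (enc_half (lc53_9.enc h1 h2))⟩
noncomputable def lc53 : Fn2 := ⟨_, _, fun h1 h2 => (enc_norm (enc_sub (enc_nat 2 (txg.enc (enc_norm (enc_sub (lc53_8.enc h1 h2) (lc53_7.enc h1 h2))) (enc_norm (enc_add (lc53_12.enc h1 h2) (lc53_14.enc h1 h2))) h2)) (txg.enc (enc_norm (lc53_9.enc h1 h2)) (enc_norm (enc_sub (lc53_12.enc h1 h2) (lc53_14.enc h1 h2))) h2)))⟩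
noncomputable def kcc53_4 : Fn2 := ⟨_, _, fun h1 h2 => (enc_subr 309 320 h2)⟩
noncomputable def kcc53_9 : Fn2 := ⟨_, _, fun h1 h2 => (enc_sub (enc_half h1) (enc_scaleT 1 4 (ycg.enc h1)))⟩
noncomputable def kcc53_28 : Fn2 := ⟨_, _, fun h1 h2 => (enc_neg (enc_scaleT 1919 332 (kcc53_9.enc h1 h2)))⟩
noncomputable def kcc53_33 : Fn2 := ⟨_, _, fun h1 h2 => (enc_neg (enc_nat 1036 (kcc53_9.enc h1 h2)))⟩
noncomputable def kcc53 : Fn2 := ⟨_, _, fun h1 h2 => (enc_norm (enc_case (kcc53_9.enc h1 h2) (enc_case (enc_add (kcc53_9.enc h1 h2) (enc_rat _ 333 1000)) (enc_add (enc_add (enc_scaleT 12411 1670 (kcc53_9.enc h1 h2)) (enc_rat _ 12411 3340)) (enc_mul (enc_norm (kcc53_4.enc h1 h2)) (enc_norm (enc_subr 57574 167 (enc_neg (enc_scaleT 115148 167 (kcc53_9.enc h1 h2))))))) (enc_case (enc_add (kcc53_9.enc h1 h2) (enc_rat _ 167 1000)) (enc_add (enc_subr 1134909 1660000 (kcc53_28.enc h1 h2))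 (enc_mul (enc_norm (kcc53_4.enc h1 h2)) (enc_norm (enc_subr 57517 125 (kcc53_33.enc h1 h2))))) (enc_add (enc_subr 1709 2500 (enc_neg (enc_scaleT 4826 835 (kcc53_9.enc h1 h2)))) (enc_mul (enc_norm (kcc53_4.enc h1 h2)) (enc_norm (enc_subr 92027 200 (enc_neg (enc_scaleT 173011 167 (kcc53_9.enc h1 h2))))))))) (enc_case (enc_subr 167 1000 (kcc53_9.enc h1 h2)) (enc_add (enc_subr 1709 2500 (enc_neg (enc_scaleT 9653 1670 (kcc53_9.enc h1 h2)))) (enc_mul (enc_norm (kcc53_4.enc h1 h2)) (enc_norm (enc_subr 92027 200 (kcc53_33.enc h1 h2))))) (enc_case (enc_subr 333 1000 (kcc53_9.enc h1 h2)) (enc_add (enc_subr 1134809 1660000 (kcc53_28.enc h1 h2)) (enc_mul (enc_norm (kcc53_4.enc h1 h2)) (enc_norm (enc_subr 76382577 166000 (enc_neg (enc_scaleT 171975 166 (kcc53_9.enc h1 h2))))))) (enc_add (enc_subr 6521 835 (enc_scaleT 13042 835 (kcc53_9.enc h1 h2))) (enc_mul (enc_norm (kcc53_4.enc h1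 h2)) (enc_norm (enc_subr 402561 167 (enc_scaleT 805122 167 (kcc53_9.enc h1 h2))))))))))⟩
noncomputable def lm4m : Fn2 := ⟨_, _, fun h1 h2 => (enc_lam (enc_norm (enc_sub h1 (cv4m.enc h2))) (enc_sub (c3g.enc h2) (cv4m.enc h2)))⟩
noncomputable def lm3m : Fn2 := ⟨_, _, fun h1 h2 => (enc_lam (enc_norm (enc_sub h1 (cv3m.enc h2))) (enc_sub (cv4m.enc h2) (cv3m.enc h2)))⟩
noncomputable def bf3q0_3 : Fn2 := ⟨_, _, fun h1 h2 => (enc_subr 309 320 h2)⟩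
noncomputable def bf3q0_121 : Fn2 := ⟨_, _, fun h1 h2 => (enc_sub (enc_rat _ 108133 100000) (enc_scaleT 33881 5000 h1))⟩
noncomputable def bf3q0 : Fn2 := ⟨_, _, fun h1 h2 => (enc_norm (enc_case (enc_subr 33 1000 h1) (enc_case (enc_subr 133 10000 h1) (enc_case (enc_subr 67 10000 h1) (enc_add (enc_sub (enc_rat _ 18891 20000) (enc_scaleT 3563 670 h1)) (enc_mul (enc_norm (bf3q0_3.enc h1 h2)) (enc_norm (enc_sub (enc_rat _ 6087 10000) (enc_scaleT 797 67 h1))))) (enc_add (enc_sub (enc_rat _ 1039007 1100000) (enc_scaleT 117 22 h1)) (enc_mul (enc_norm (bf3q0_3.enc h1 h2)) (enc_norm (enc_sub (enc_rat _ 100417 165000) (enc_scaleT 392 33 h1)))))) (enc_case (enc_subr 37 2000 h1) (enc_add (enc_sub (enc_rat _ 385039 400000) (enc_scaleT 267 40 h1)) (enc_mul (enc_norm (bf3q0_3.enc h1 h2)) (enc_norm (enc_sub (enc_rat _ 158253 260000) (enc_scaleT 309 26 h1))))) (enc_add (enc_sub (enc_rat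 _ 105886198711 110000000000) (enc_scaleT 367137803 55000000 h1)) (enc_mul (enc_norm (bf3q0_3.enc h1 h2)) (enc_norm (enc_sub (enc_rat _ 669614527 1100000000) (enc_scaleT 6538771 550000 h1))))))) (enc_case (enc_subr 1 8 h1) (enc_case (enc_subr 3 50 h1) (enc_add (enc_sub (enc_rat _ 3244073279 3000000000) (enc_scaleT 1219823279 180000000 h1)) (enc_mul (enc_norm (bf3q0_3.enc h1 h2)) (enc_norm (enc_sub (enc_rat _ 384949919 300000000) (enc_scaleT 65959919 18000000 h1))))) (enc_case (enc_subr 17 200 h1) (enc_add (enc_sub (enc_rat _ 108131 100000) (enc_scaleT 847 125 h1)) (enc_mul (enc_norm (bf3q0_3.enc h1 h2)) (enc_norm (enc_sub (enc_rat _ 64169 50000) (enc_scaleT 917 250 h1))))) (enc_add (enc_sub (enc_rat _ 173013 160000) (enc_scaleT 5421 800 h1)) (enc_mul (enc_norm (bf3q0_3.enc h1 h2)) (enc_norm (enc_sub (enc_rat _ 2053 1600) (enc_scaleT 733 200 h1))))))) (enc_case (enc_subr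 1 4 h1) (enc_case (enc_subr 9 50 h1) (enc_add (enc_sub (enc_rat _ 237891 220000) (enc_scaleT 37269 5500 h1)) (enc_mul (enc_norm (bf3q0_3.enc h1 h2)) (enc_norm (enc_sub (enc_rat _ 5647 4400) (enc_scaleT 2017 550 h1))))) (enc_add (enc_sub (enc_rat _ 756921 700000) (enc_scaleT 47433 7000 h1)) (enc_mul (enc_norm (bf3q0_3.enc h1 h2)) (enc_norm (enc_sub (enc_rat _ 89819 70000) (enc_scaleT 1283 350 h1)))))) (enc_case (enc_subr 7 20 h1) (enc_add (bf3q0_121.enc h1 h2) (enc_mul (enc_norm (bf3q0_3.enc h1 h2)) (enc_norm (enc_sub (enc_rat _ 25669 20000) (enc_scaleT 3667 1000 h1))))) (enc_add (bf3q0_121.enc h1 h2) (enc_mul (enc_norm (bf3q0_3.enc h1 h2)) (enc_norm (enc_sub (enc_rat _ 77 60) (enc_scaleT 11 3 h1))))))))))⟩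
noncomputable def lm2m : Fn2 := ⟨_, _, fun h1 h2 => (enc_lam (enc_norm (enc_sub h1 (cv2m.enc h2))) (enc_sub (cv3m.enc h2) (cv2m.enc h2)))⟩
noncomputable def lm1m : Fn2 := ⟨_, _, fun h1 h2 => (enc_lam (enc_norm (enc_sub h1 (cv1m.enc h2))) (enc_sub (cv2m.enc h2) (cv1m.enc h2)))⟩
noncomputable def lm0m : Fn2 := ⟨_, _, fun h1 h2 => (enc_lam (enc_norm (enc_sub h1 (c1g.enc h2))) (enc_sub (cv1m.enc h2) (c1g.enc h2)))⟩
noncomputable def rkbq0_36 : Fn3 := ⟨_, _, fun h1 h2 h3 => (enc_add (enc_mul h1 (bf3q0.enc h2 h3)) (enc_mul (enc_norm (enc_mul (enc_norm (enc_sub (enc_pnc _ 1) (lm2m.enc h1 h2))) (cv2m.enc h2))) (enc_norm (enc_sub (bf2q0.enc h2 h3) (bf3q0.enc h2 h3)))))⟩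
noncomputable def rkbq0_38 : Fn3 := ⟨_, _, fun h1 h2 h3 => (enc_sub (enc_pnc _ 1) h2)⟩
noncomputable def rkbq0_39 : Fn3 := ⟨_, _, fun h1 h2 h3 => (gsg.enc (enc_norm (rkbq0_38.enc h1 h2 h3)))⟩
noncomputable def rkbq0_42 : Fn3 := ⟨_, _, fun h1 h2 h3 => (enc_sub (enc_scaleT 3 4 (rkbq0_38.enc h1 h2 h3)) (enc_half (rkbq0_39.enc h1 h2 h3)))⟩
noncomputable def rkbq0_43 : Fn3 := ⟨_, _, fun h1 h2 h3 => (esg.enc (enc_norm (rkbq0_38.enc h1 h2 h3)))⟩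
noncomputable def rkbq0_44 : Fn3 := ⟨_, _, fun h1 h2 h3 => (kcg.enc (enc_norm (rkbq0_42.enc h1 h2 h3)) h3)⟩
noncomputable def rkbq0_52 : Fn3 := ⟨_, _, fun h1 h2 h3 => (enc_sub (rkbq0_42.enc h1 h2 h3) (enc_sub (enc_rat _ 1 4) (enc_scaleT 3 8 (enc_mul (enc_norm (rkbq0_38.enc h1 h2 h3)) (enc_inv (rkbq0_39.enc h1 h2 h3))))))⟩
noncomputable def rkbq0_58 : Fn3 := ⟨_, _, fun h1 h2 h3 => (enc_wB0 (enc_mul h2 (enc_norm (enc_sub (enc_mul (enc_norm (rkbq0_52.enc h1 h2 h3)) (enc_inv (rkbq0_43.enc h1 h2 h3))) (rkbq0_44.enc h1 h2 h3)))) (rkbq0_38.enc h1 h2 h3) (rkbq0_39.enc h1 h2 h3) (rkbq0_43.enc h1 h2 h3) h2 (rkbq0_52.enc h1 h2 h3) (rkbq0_44.enc h1 h2 h3) rfl rfl rfl rfl)⟩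
noncomputable def rkbq0_62 : Fn3 := ⟨_, _, fun h1 h2 h3 => (enc_add (swg.enc h2) (enc_rat _ 1 2))⟩
noncomputable def rkbq0_63 : Fn3 := ⟨_, _, fun h1 h2 h3 => (enc_sub h1 (cv2m.enc h2))⟩
noncomputable def rkbq0 : Fn3 := ⟨_, _, fun h1 h2 h3 => (enc_case (enc_sub h1 (cv1m.enc h2)) (enc_add (enc_mul h1 (bf1q0.enc h2 h3)) (enc_mul (enc_norm (enc_sub (enc_pnc _ 1) (lm0m.enc h1 h2))) (enc_norm (enc_sub (kf0q0.enc h2 h3) (enc_mul (c1g.enc h2) (bf1q0.enc h2 h3)))))) (enc_case (rkbq0_63.enc h1 h2 h3) (enc_add (enc_mul h1 (bf2q0.enc h2 h3)) (enc_mul (enc_norm (enc_mul (enc_norm (enc_sub (enc_pnc _ 1) (lm1m.enc h1 h2))) (cv1m.enc h2))) (enc_norm (enc_sub (bf1q0.enc h2 h3) (bf2q0.enc h2 h3))))) (enc_case (enc_sub h1 (cv3m.enc h2)) (enc_case (enc_subr 3 125 h2) (rkbq0_36.enc h1 h2 h3) (enc_case (enc_subr 21 500 h2) (enc_wL (enc_add (kf2q0.enc h2 h3) (enc_mul (enc_norm (enc_mul (enc_norm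 (rkbq0_63.enc h1 h2 h3)) (enc_inv (enc_sub (rkbq0_62.enc h1 h2 h3) (cv2m.enc h2))))) (enc_norm (enc_sub (rkbq0_58.enc h1 h2 h3) (kf2q0.enc h2 h3))))) h1 (rkbq0_62.enc h1 h2 h3) (cv2m.enc h2) (rkbq0_58.enc h1 h2 h3) (kf2q0.enc h2 h3) rfl) (rkbq0_36.enc h1 h2 h3))) (enc_case (enc_sub h1 (cv4m.enc h2)) (enc_add (enc_mul h1 (bf4q0.enc h2 h3)) (enc_mul (enc_norm (enc_sub (enc_pnc _ 1) (lm3m.enc h1 h2))) (enc_norm (enc_sub (kf3q0.enc h2 h3) (enc_mul (cv3m.enc h2) (bf4q0.enc h2 h3)))))) (enc_add (kf4q0.enc h2 h3) (enc_mul (lm4m.enc h1 h2) (enc_norm (enc_sub (kf5q0.enc h2 h3) (kf4q0.enc h2 h3)))))))))⟩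
noncomputable def rsbq0 : Fn3 := ⟨_, _, fun h1 h2 h3 => (enc_case h1 (enc_neg (rkbq0.enc (enc_neg h1) h2 h3)) (rkbq0.enc h1 h2 h3))⟩
noncomputable def rkbq1 : Fn3 := ⟨_, _, fun h1 h2 h3 => (enc_case (enc_sub h1 (cv1m.enc h2)) (enc_add (enc_mul h1 (bf1q1.enc h2 h3)) (enc_mul (enc_norm (enc_sub (enc_pnc _ 1) (lm0m.enc h1 h2))) (enc_norm (enc_sub (kf0q1.enc h2 h3) (enc_mul (c1g.enc h2) (bf1q1.enc h2 h3)))))) (enc_case (enc_sub h1 (cv2m.enc h2)) (enc_add (enc_mul h1 (bf2q1.enc h2 h3)) (enc_mul (enc_norm (enc_mul (enc_norm (enc_sub (enc_pnc _ 1) (lm1m.enc h1 h2))) (cv1m.enc h2))) (enc_norm (enc_sub (bf1q1.enc h2 h3) (bf2q1.enc h2 h3))))) (enc_case (enc_sub h1 (cv3m.enc h2)) (enc_add (enc_mul h1 (bf3q1.enc h2 h3)) (enc_mul (enc_norm (enc_mul (enc_norm (enc_sub (enc_pnc _ 1) (lm2m.enc h1 h2))) (cv2m.enc h2))) (enc_norm (enc_sub (bf2q1.enc h2 h3) (bf3q1.enc h2 h3))))) (enc_case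 (enc_sub h1 (cv4m.enc h2)) (enc_add (enc_mul h1 (bf4q1.enc h2 h3)) (enc_mul (enc_norm (enc_mul (enc_norm (enc_sub (enc_pnc _ 1) (lm3m.enc h1 h2))) (cv3m.enc h2))) (enc_norm (enc_sub (bf3q1.enc h2 h3) (bf4q1.enc h2 h3))))) (enc_add (kf4q1.enc h2 h3) (enc_mul (lm4m.enc h1 h2) (enc_norm (enc_sub (kf5q1.enc h2 h3) (kf4q1.enc h2 h3)))))))))⟩
noncomputable def rsbq1 : Fn3 := ⟨_, _, fun h1 h2 h3 => (enc_case h1 (enc_neg (rkbq1.enc (enc_neg h1) h2 h3)) (rkbq1.enc h1 h2 h3))⟩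
noncomputable def cv1p : Fn1 := ⟨_, _, fun h1 => (enc_norm (enc_add (enc_scaleT 4 5 (c1g.enc h1)) (enc_scaleT 1 5 (enc_subr 1 2 (swg.enc h1)))))⟩
noncomputable def cv2p : Fn1 := ⟨_, _, fun h1 => (enc_norm (enc_add (enc_scaleT 2 5 (c1g.enc h1)) (enc_scaleT 3 5 (enc_subr 1 2 (swg.enc h1)))))⟩
noncomputable def lm4p : Fn2 := ⟨_, _, fun h1 h2 => (enc_lam (enc_norm (enc_sub h1 (cv4p.enc h2))) (enc_sub (c3g.enc h2) (cv4p.enc h2)))⟩
noncomputable def lm3p : Fn2 := ⟨_, _, fun h1 h2 => (enc_lam (enc_norm (enc_sub h1 (cv3p.enc h2))) (enc_sub (cv4p.enc h2) (cv3p.enc h2)))⟩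
noncomputable def lm2p : Fn2 := ⟨_, _, fun h1 h2 => (enc_lam (enc_norm (enc_sub h1 (cv2p.enc h2))) (enc_sub (cv3p.enc h2) (cv2p.enc h2)))⟩
noncomputable def lm1p : Fn2 := ⟨_, _, fun h1 h2 => (enc_lam (enc_norm (enc_sub h1 (cv1p.enc h2))) (enc_sub (cv2p.enc h2) (cv1p.enc h2)))⟩
noncomputable def kf0q2 : Fn2 := ⟨_, _, fun h1 h2 => (enc_norm (enc_add (c1g.enc h1) (enc_mul (enc_norm (enc_subn 1 h1)) (kcg.enc (enc_neg (c1g.enc h1)) h2))))⟩
noncomputable def lm0p : Fn2 := ⟨_, _, fun h1 h2 => (enc_lam (enc_norm (enc_sub h1 (c1g.enc h2))) (enc_sub (cv1p.enc h2) (c1g.enc h2)))⟩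
noncomputable def n0b : Fn2 := ⟨_, _, fun h1 h2 => (enc_norm (enc_sub (enc_pnc _ 1) (enc_mul (enc_norm (enc_subn 1 h1)) (enc_norm (enc_add (enc_scaleT 63351 5000 (enc_subr 309 320 h2)) (enc_rat _ 35131 6250))))))⟩
noncomputable def rkbq2_51 : Fn3 := ⟨_, _, fun h1 h2 h3 => (enc_mul h1 (bf1q2.enc h2 h3))⟩
noncomputable def rkbq2_53 : Fn3 := ⟨_, _, fun h1 h2 h3 => (enc_sub (enc_pnc _ 1) (lm0p.enc h1 h2))⟩
noncomputable def rkbq2 : Fn3 := ⟨_, _, fun h1 h2 h3 => (enc_case (enc_sub h1 (cv1p.enc h2)) (enc_case (enc_subr 1149 1000 h2) (enc_add (rkbq2_51.enc h1 h2 h3) (enc_mul (enc_norm (rkbq2_53.enc h1 h2 h3)) (enc_norm (enc_sub (kf0q2.enc h2 h3) (enc_mul (c1g.enc h2) (bf1q2.enc h2 h3)))))) (enc_case (enc_subr 2887 2500 h2) (enc_add (rkbq2_51.enc h1 h2 h3) (enc_mul (enc_norm (rkbq2_53.enc h1 h2 h3)) (enc_norm (enc_mul (c1g.enc h2) (enc_norm (enc_sub (n0b.enc h2 h3) (bf1q2.enc h2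 h3))))))) (rkbq2_51.enc h1 h2 h3))) (enc_case (enc_sub h1 (cv2p.enc h2)) (enc_add (enc_mul h1 (bf2q2.enc h2 h3)) (enc_mul (enc_norm (enc_mul (enc_norm (enc_sub (enc_pnc _ 1) (lm1p.enc h1 h2))) (cv1p.enc h2))) (enc_norm (enc_sub (bf1q2.enc h2 h3) (bf2q2.enc h2 h3))))) (enc_case (enc_sub h1 (cv3p.enc h2)) (enc_add (enc_mul h1 (bf3q2.enc h2 h3)) (enc_mul (enc_norm (enc_mul (enc_norm (enc_sub (enc_pnc _ 1) (lm2p.enc h1 h2))) (cv2p.enc h2))) (enc_norm (enc_sub (bf2q2.enc h2 h3) (bf3q2.enc h2 h3))))) (enc_case (enc_sub h1 (cv4p.enc h2)) (enc_add (enc_mul h1 (bf4q2.enc h2 h3)) (enc_mul (enc_norm (enc_mul (enc_norm (enc_sub (enc_pnc _ 1) (lm3p.enc h1 h2))) (cv3p.enc h2))) (enc_norm (enc_sub (bf3q2.enc h2 h3) (bf4q2.enc h2 h3))))) (enc_add (kf4q2.enc h2 h3) (enc_mul (lm4p.enc h1 h2) (enc_norm (enc_sub (kf5q2.enc h2 h3) (kf4q2.enc h2 h3)))))))))⟩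
noncomputable def rsbq2 : Fn3 := ⟨_, _, fun h1 h2 h3 => (enc_case h1 (enc_neg (rkbq2.enc (enc_neg h1) h2 h3)) (rkbq2.enc h1 h2 h3))⟩
noncomputable def cv3r : Fn1 := ⟨_, _, fun h1 => (enc_norm (enc_add (enc_scaleT 1899 2000 (enc_subr 1 2 (swg.enc h1))) (enc_scaleT 101 2000 (c3g.enc h1))))⟩
noncomputable def cv4r : Fn1 := ⟨_, _, fun h1 => (enc_norm (enc_add (enc_scaleT 3 10 (enc_subr 1 2 (swg.enc h1))) (enc_scaleT 7 10 (c3g.enc h1))))⟩
noncomputable def kf4q3_4 : Fn2 := ⟨_, _, fun h1 h2 => (enc_subr 309 320 h2)⟩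
noncomputable def kf4q3_35 : Fn2 := ⟨_, _, fun h1 h2 => (enc_scaleT 1282 225 h1)⟩
noncomputable def kf4q3_53 : Fn2 := ⟨_, _, fun h1 h2 => (enc_mul (enc_norm (kf4q3_4.enc h1 h2)) (enc_norm (enc_subr 2350337 90000 (enc_scaleT 1567 90 h1))))⟩
noncomputable def kf4q3 : Fn2 := ⟨_, _, fun h1 h2 => (enc_norm (enc_mul (cv4r.enc h1) (enc_norm (enc_case (enc_subr 1967 1000 h1) (enc_case (enc_subr 97 50 h1) (enc_case (enc_subr 383 200 h1) (enc_add (enc_subr 90272149 8300000 (enc_scaleT 236443 41500 h1)) (enc_mul (enc_norm (kf4q3_4.enc h1 h2)) (enc_norm (enc_subr 54204 2075 (enc_scaleT 36136 2075 h1))))) (enc_add (enc_subr 5437869 500000 (enc_scaleT 14243 2500 h1)) (enc_mul (enc_norm (kf4q3_4.enc h1 h2)) (enc_norm (enc_subr 653111 25000 (enc_scaleT 2177 125 h1)))))) (enc_case (enc_subr 979 500 h1) (enc_add (enc_subr 9789173 900000 (kf4q3_35.enc h1 h2)) (enc_mul (enc_norm (kf4q3_4.enc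 h1 h2)) (enc_norm (enc_subr 195943 7500 (enc_scaleT 209 12 h1))))) (enc_add (enc_subr 652481 60000 (enc_scaleT 1709 300 h1)) (kf4q3_53.enc h1 h2)))) (enc_case (enc_sub (enc_rat _ 172988439 1000000000) (c3g.enc h1)) (enc_case (enc_subr 247 125 h1) (enc_add (enc_subr 4894591 450000 (kf4q3_35.enc h1 h2)) (kf4q3_53.enc h1 h2)) (enc_add (enc_sub (enc_rat _ 5224504885053 4726676150000) (enc_scaleT 255620000 94533523 (c3g.enc h1))) (enc_mul (enc_norm (kf4q3_4.enc h1 h2)) (enc_norm (enc_subr 1821989005001 945335230000 (enc_scaleT 3610300000 94533523 (c3g.enc h1))))))) (enc_case (enc_sub (enc_rat _ 118673639 1000000000) (c3g.enc h1)) (enc_add (enc_add (enc_scaleT 63950 135787 (c3g.enc h1)) (enc_rat _ 1510194980919 2715740000000)) (enc_mul (enc_norm (kf4q3_4.enc h1 h2)) (enc_norm (enc_subr 1046801068577 543148000000 (enc_scaleT 5185750 135787 (c3g.enc h1)))))) (enc_case (enc_sub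 (enc_rat _ 59990999 1000000000) (c3g.enc h1)) (enc_add (enc_add (enc_scaleT 680250 244511 (c3g.enc h1)) (enc_rat _ 14506968179 51476000000)) (enc_mul (enc_norm (kf4q3_4.enc h1 h2)) (enc_norm (enc_subr 42618604297 10295200000 (enc_scaleT 13896250 244511 (c3g.enc h1)))))) (enc_sub (enc_sub (enc_rat _ 1 2) (enc_scaleT 51280000 59990999 (c3g.enc h1))) (enc_mul (enc_norm (kf4q3_4.enc h1 h2)) (enc_scaleT 730200000 59990999 (c3g.enc h1)))))))))))⟩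
noncomputable def kf5q3 : Fn2 := ⟨_, _, fun h1 h2 => (enc_norm (enc_sub (enc_mul (enc_norm (enc_subn 2 h1)) (kcg.enc (enc_norm (enc_sub (enc_scaleT 1 4 h1) (enc_half (c3g.enc h1)))) h2)) (enc_mul (enc_norm (enc_mul (enc_norm (enc_sub (enc_nat 2 (c3g.enc h1)) h1)) (enc_norm (enc_sub (enc_add (c3g.enc h1) (enc_pnc _ 3)) (enc_scaleT 3 2 h1))))) (enc_inv (enc_nat 4 (enc_subn 1 h1))))))⟩
noncomputable def lm4r : Fn2 := ⟨_, _, fun h1 h2 => (enc_lam (enc_norm (enc_sub h1 (cv4r.enc h2))) (enc_sub (c3g.enc h2) (cv4r.enc h2)))⟩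
noncomputable def bf4q3_3 : Fn2 := ⟨_, _, fun h1 h2 => (enc_subr 309 320 h2)⟩
noncomputable def bf4q3_34 : Fn2 := ⟨_, _, fun h1 h2 => (enc_scaleT 1282 225 h1)⟩
noncomputable def bf4q3_52 : Fn2 := ⟨_, _, fun h1 h2 => (enc_mul (enc_norm (bf4q3_3.enc h1 h2)) (enc_norm (enc_subr 2350337 90000 (enc_scaleT 1567 90 h1))))⟩
noncomputable def bf4q3 : Fn2 := ⟨_, _, fun h1 h2 => (enc_norm (enc_case (enc_subr 1967 1000 h1) (enc_case (enc_subr 97 50 h1) (enc_case (enc_subr 383 200 h1) (enc_add (enc_subr 90272149 8300000 (enc_scaleT 236443 41500 h1)) (enc_mul (enc_norm (bf4q3_3.enc h1 h2)) (enc_norm (enc_subr 54204 2075 (enc_scaleT 36136 2075 h1))))) (enc_add (enc_subr 5437869 500000 (enc_scaleT 14243 2500 h1)) (enc_mul (enc_norm (bf4q3_3.enc h1 h2)) (enc_norm (enc_subr 653111 25000 (enc_scaleT 2177 125 h1)))))) (enc_case (enc_subr 979 500 h1) (enc_add (enc_subr 9789173 900000 (bf4q3_34.enc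 h1 h2)) (enc_mul (enc_norm (bf4q3_3.enc h1 h2)) (enc_norm (enc_subr 195943 7500 (enc_scaleT 209 12 h1))))) (enc_add (enc_subr 652481 60000 (enc_scaleT 1709 300 h1)) (bf4q3_52.enc h1 h2)))) (enc_case (enc_sub (enc_rat _ 172988439 1000000000) (c3g.enc h1)) (enc_case (enc_subr 247 125 h1) (enc_add (enc_subr 4894591 450000 (bf4q3_34.enc h1 h2)) (bf4q3_52.enc h1 h2)) (enc_add (enc_sub (enc_rat _ 5224504885053 4726676150000) (enc_scaleT 255620000 94533523 (c3g.enc h1))) (enc_mul (enc_norm (bf4q3_3.enc h1 h2)) (enc_norm (enc_subr 1821989005001 945335230000 (enc_scaleT 3610300000 94533523 (c3g.enc h1))))))) (enc_case (enc_sub (enc_rat _ 118673639 1000000000) (c3g.enc h1)) (enc_add (enc_add (enc_scaleT 63950 135787 (c3g.enc h1)) (enc_rat _ 1510194980919 2715740000000)) (enc_mul (enc_norm (bf4q3_3.enc h1 h2)) (enc_norm (enc_subr 1046801068577 543148000000 (enc_scaleT 5185750 135787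 (c3g.enc h1)))))) (enc_case (enc_sub (enc_rat _ 59990999 1000000000) (c3g.enc h1)) (enc_add (enc_add (enc_scaleT 680250 244511 (c3g.enc h1)) (enc_rat _ 14506968179 51476000000)) (enc_mul (enc_norm (bf4q3_3.enc h1 h2)) (enc_norm (enc_subr 42618604297 10295200000 (enc_scaleT 13896250 244511 (c3g.enc h1)))))) (enc_sub (enc_sub (enc_rat _ 1 2) (enc_scaleT 51280000 59990999 (c3g.enc h1))) (enc_mul (enc_norm (bf4q3_3.enc h1 h2)) (enc_scaleT 730200000 59990999 (c3g.enc h1)))))))))⟩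
noncomputable def lm3r : Fn2 := ⟨_, _, fun h1 h2 => (enc_lam (enc_norm (enc_sub h1 (cv3r.enc h2))) (enc_sub (cv4r.enc h2) (cv3r.enc h2)))⟩
noncomputable def kf3q3_4 : Fn2 := ⟨_, _, fun h1 h2 => (enc_subr 309 320 h2)⟩
noncomputable def kf3q3_6 : Fn2 := ⟨_, _, fun h1 h2 => (enc_subr 383 200 h1)⟩
noncomputable def kf3q3_18 : Fn2 := ⟨_, _, fun h1 h2 => (enc_subr 97 50 h1)⟩
noncomputable def kf3q3_44 : Fn2 := ⟨_, _, fun h1 h2 => (enc_sub (enc_rat _ 118673639 1000000000) (c3g.enc h1))⟩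
noncomputable def kf3q3_46 : Fn2 := ⟨_, _, fun h1 h2 => (enc_sub (enc_rat _ 172988439 1000000000) (c3g.enc h1))⟩
noncomputable def kf3q3_70 : Fn2 := ⟨_, _, fun h1 h2 => (enc_sub (enc_rat _ 59990999 1000000000) (c3g.enc h1))⟩
noncomputable def kf3q3_95 : Fn2 := ⟨_, _, fun h1 h2 => (enc_subn 1 h1)⟩
noncomputable def kf3q3_96 : Fn2 := ⟨_, _, fun h1 h2 => (gsg.enc (enc_norm (kf3q3_95.enc h1 h2)))⟩
noncomputable def kf3q3_97 : Fn2 := ⟨_, _, fun h1 h2 => (enc_scaleT 3 4 (kf3q3_95.enc h1 h2))⟩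
noncomputable def kf3q3_98 : Fn2 := ⟨_, _, fun h1 h2 => (enc_half (kf3q3_96.enc h1 h2))⟩
noncomputable def kf3q3_100 : Fn2 := ⟨_, _, fun h1 h2 => (esg.enc (enc_norm (kf3q3_95.enc h1 h2)))⟩
noncomputable def kf3q3_101 : Fn2 := ⟨_, _, fun h1 h2 => (kcg.enc (enc_norm (enc_sub (kf3q3_97.enc h1 h2) (kf3q3_98.enc h1 h2))) h2)⟩
noncomputable def kf3q3_103 : Fn2 := ⟨_, _, fun h1 h2 => (enc_subn 2 h1)⟩
noncomputable def kf3q3_110 : Fn2 := ⟨_, _, fun h1 h2 => (enc_sub (enc_sub (kf3q3_98.enc h1 h2) (kf3q3_97.enc h1 h2)) (enc_sub (enc_rat _ 1 4) (enc_scaleT 3 8 (enc_mul (enc_norm (kf3q3_95.enc h1 h2)) (enc_inv (kf3q3_96.enc h1 h2))))))⟩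
noncomputable def kf3q3_141 : Fn2 := ⟨_, _, fun h1 h2 => (enc_subr 979 500 h1)⟩
noncomputable def kf3q3_150 : Fn2 := ⟨_, _, fun h1 h2 => (enc_mul (enc_norm (kf3q3_4.enc h1 h2)) (enc_norm (enc_sub (enc_rat _ 575267 45000) (enc_scaleT 767 90 h1))))⟩
noncomputable def kf3q3_160 : Fn2 := ⟨_, _, fun h1 h2 => (enc_subr 247 125 h1)⟩
noncomputable def kf3q3_215 : Fn2 := ⟨_, _, fun h1 h2 => (enc_mul (cv2r.enc h1) (enc_norm (enc_case (enc_subr 1967 1000 h1) (enc_case (kf3q3_18.enc h1 h2) (enc_case (kf3q3_6.enc h1 h2) (enc_add (enc_subr 2763841 8300000 (enc_scaleT 87 8300 h1)) (enc_mul (enc_norm (kf3q3_4.enc h1 h2)) (enc_norm (enc_sub (enc_rat _ 26523 2075) (enc_scaleT 17682 2075 h1))))) (enc_add (enc_subr 83209 250000 (enc_scaleT 13 1250 h1)) (enc_mul (enc_norm (kf3q3_4.enc h1 h2)) (enc_norm (enc_sub (enc_rat _ 63897 5000) (enc_scaleT 213 25 h1)))))) (enc_case (kf3q3_141.enc h1 h2)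 (enc_add (enc_subr 18739 56250 (enc_scaleT 19 1800 h1)) (kf3q3_150.enc h1 h2)) (enc_add (enc_subr 300803 900000 (enc_scaleT 1 90 h1)) (kf3q3_150.enc h1 h2)))) (enc_case (kf3q3_46.enc h1 h2) (enc_case (kf3q3_160.enc h1 h2) (enc_add (enc_subr 8301 25000 (enc_scaleT 1 100 h1)) (kf3q3_150.enc h1 h2)) (enc_add (enc_subr 1189600285917 2363338075000 (enc_scaleT 67520000 94533523 (c3g.enc h1))) (enc_mul (enc_norm (kf3q3_4.enc h1 h2)) (enc_norm (enc_subr 84173896339 472667615000 (enc_neg (enc_scaleT 1370400000 94533523 (c3g.enc h1)))))))) (enc_case (kf3q3_44.enc h1 h2) (enc_add (enc_subr 41919791709 84866875000 (enc_scaleT 89600 135787 (c3g.enc h1))) (enc_mul (enc_norm (kf3q3_4.enc h1 h2)) (enc_norm (enc_subr 48337964857 271574000000 (enc_neg (enc_scaleT 1968500 135787 (c3g.enc h1))))))) (enc_case (kf3q3_70.enc h1 h2) (enc_add (enc_subr 153937708073 308856000000 (enc_scaleT 511625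 733533 (c3g.enc h1))) (enc_mul (enc_norm (kf3q3_4.enc h1 h2)) (enc_norm (enc_subr 2752454327 15442800000 (enc_neg (enc_scaleT 10632500 733533 (c3g.enc h1))))))) (enc_add (enc_subr 24921 50000 (enc_scaleT 41850000 59990999 (c3g.enc h1))) (enc_mul (enc_norm (kf3q3_4.enc h1 h2)) (enc_norm (enc_subr 1781 10000 (enc_neg (enc_scaleT 869700000 59990999 (c3g.enc h1)))))))))))))⟩
noncomputable def kf3q3 : Fn2 := ⟨_, _, fun h1 h2 => (enc_norm (enc_case (kf3q3_141.enc h1 h2) (enc_mul (cv3r.enc h1) (enc_norm (enc_case (kf3q3_6.enc h1 h2) (enc_add (enc_subr 38235347 8300000 (enc_scaleT 51219 20750 h1)) (enc_mul (enc_norm (kf3q3_4.enc h1 h2)) (enc_norm (enc_subr 16191 4150 (enc_scaleT 5397 2075 h1))))) (enc_case (kf3q3_18.enc h1 h2) (enc_add (enc_subr 575837 125000 (enc_scaleT 6171 2500 h1)) (enc_mul (enc_norm (kf3q3_4.enc h1 h2)) (enc_norm (enc_subr 9749 2500 (enc_scaleT 13 5 h1)))))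 (enc_add (enc_subr 1295781563 281250000 (enc_scaleT 13886279 5625000 h1)) (enc_mul (enc_norm (kf3q3_4.enc h1 h2)) (enc_norm (enc_subr 175531567 45000000 (enc_scaleT 2340511 900000 h1))))))))) (enc_case (kf3q3_160.enc h1 h2) (enc_add (kf3q3_215.enc h1 h2) (enc_mul (enc_norm (enc_mul (enc_norm (enc_sub (enc_wB3 (enc_mul (enc_norm (kf3q3_103.enc h1 h2)) (enc_norm (enc_add (enc_mul (enc_norm (kf3q3_110.enc h1 h2)) (enc_inv (kf3q3_100.enc h1 h2))) (kf3q3_101.enc h1 h2)))) (kf3q3_95.enc h1 h2) (kf3q3_96.enc h1 h2) (kf3q3_100.enc h1 h2) (kf3q3_103.enc h1 h2) (kf3q3_110.enc h1 h2) (kf3q3_101.enc h1 h2) h1 rfl rfl rfl rfl rfl) (kf3q3_215.enc h1 h2))) (enc_norm (enc_sub (cv3r.enc h1) (cv2r.enc h1))))) (enc_inv (enc_sub (enc_subr 1 2 (swg.enc h1)) (cv2r.enc h1))))) (enc_mul (cv3r.enc h1) (enc_norm (enc_case (kf3q3_44.enc h1 h2) (enc_case (kf3q3_46.enc h1 h2) (enc_add (enc_subr 265964967965601771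 189067046000000000 (enc_scaleT 1072041389 189067046 (c3g.enc h1))) (enc_mul (enc_norm (kf3q3_4.enc h1 h2)) (enc_norm (enc_subr 1652336485758727537 94533523000000000 (enc_scaleT 5251628983 94533523 (c3g.enc h1)))))) (enc_add (enc_sub (enc_rat _ 828198481647 2715740000000) (enc_scaleT 573650 135787 (c3g.enc h1))) (enc_mul (enc_norm (kf3q3_4.enc h1 h2)) (enc_norm (enc_subr 35304233 271574000000 (enc_neg (enc_scaleT 6176500 135787 (c3g.enc h1)))))))) (enc_case (kf3q3_70.enc h1 h2) (enc_add (enc_sub (enc_rat _ 3924755463 12869000000) (enc_scaleT 1033000 244511 (c3g.enc h1))) (enc_mul (enc_norm (kf3q3_4.enc h1 h2)) (enc_norm (enc_sub (enc_rat _ 595149 5147600000) (enc_scaleT 11122500 244511 (c3g.enc h1)))))) (enc_sub (enc_sub (enc_rat _ 1 2) (enc_scaleT 448470000 59990999 (c3g.enc h1))) (enc_mul (enc_norm (kf3q3_4.enc h1 h2)) (enc_scaleT 2728800000 59990999 (c3g.enc h1)))))))))))⟩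
noncomputable def bf3q3_3 : Fn2 := ⟨_, _, fun h1 h2 => (enc_subr 309 320 h2)⟩
noncomputable def bf3q3 : Fn2 := ⟨_, _, fun h1 h2 => (enc_norm (enc_case (enc_subr 1967 1000 h1) (enc_case (enc_subr 383 200 h1) (enc_add (enc_subr 38235347 8300000 (enc_scaleT 51219 20750 h1)) (enc_mul (enc_norm (bf3q3_3.enc h1 h2)) (enc_norm (enc_subr 16191 4150 (enc_scaleT 5397 2075 h1))))) (enc_case (enc_subr 97 50 h1) (enc_add (enc_subr 575837 125000 (enc_scaleT 6171 2500 h1)) (enc_mul (enc_norm (bf3q3_3.enc h1 h2)) (enc_norm (enc_subr 9749 2500 (enc_scaleT 13 5 h1))))) (enc_add (enc_subr 1295781563 281250000 (enc_scaleT 13886279 5625000 h1)) (enc_mul (enc_norm (bf3q3_3.enc h1 h2)) (enc_norm (enc_subr 175531567 45000000 (enc_scaleT 2340511 900000 h1))))))) (enc_case (enc_sub (enc_rat _ 118673639 1000000000) (c3g.enc h1)) (enc_case (enc_sub (enc_rat _ 172988439 1000000000) (c3g.enc h1)) (enc_add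 (enc_subr 265964967965601771 189067046000000000 (enc_scaleT 1072041389 189067046 (c3g.enc h1))) (enc_mul (enc_norm (bf3q3_3.enc h1 h2)) (enc_norm (enc_subr 1652336485758727537 94533523000000000 (enc_scaleT 5251628983 94533523 (c3g.enc h1)))))) (enc_add (enc_sub (enc_rat _ 828198481647 2715740000000) (enc_scaleT 573650 135787 (c3g.enc h1))) (enc_mul (enc_norm (bf3q3_3.enc h1 h2)) (enc_norm (enc_subr 35304233 271574000000 (enc_neg (enc_scaleT 6176500 135787 (c3g.enc h1)))))))) (enc_case (enc_sub (enc_rat _ 59990999 1000000000) (c3g.enc h1)) (enc_add (enc_sub (enc_rat _ 3924755463 12869000000) (enc_scaleT 1033000 244511 (c3g.enc h1))) (enc_mul (enc_norm (bf3q3_3.enc h1 h2)) (enc_norm (enc_sub (enc_rat _ 595149 5147600000) (enc_scaleT 11122500 244511 (c3g.enc h1)))))) (enc_sub (enc_sub (enc_rat _ 1 2) (enc_scaleT 448470000 59990999 (c3g.enc h1))) (enc_mul (enc_norm (bf3q3_3.enc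 h1 h2)) (enc_scaleT 2728800000 59990999 (c3g.enc h1))))))))⟩
noncomputable def lm2r : Fn2 := ⟨_, _, fun h1 h2 => (enc_lam (enc_norm (enc_sub h1 (cv2r.enc h2))) (enc_sub (cv3r.enc h2) (cv2r.enc h2)))⟩
noncomputable def bf2q3_3 : Fn2 := ⟨_, _, fun h1 h2 => (enc_subr 309 320 h2)⟩
noncomputable def bf2q3_42 : Fn2 := ⟨_, _, fun h1 h2 => (enc_mul (enc_norm (bf2q3_3.enc h1 h2)) (enc_norm (enc_sub (enc_rat _ 575267 45000) (enc_scaleT 767 90 h1))))⟩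
noncomputable def bf2q3 : Fn2 := ⟨_, _, fun h1 h2 => (enc_norm (enc_case (enc_subr 1967 1000 h1) (enc_case (enc_subr 97 50 h1) (enc_case (enc_subr 383 200 h1) (enc_add (enc_subr 2763841 8300000 (enc_scaleT 87 8300 h1)) (enc_mul (enc_norm (bf2q3_3.enc h1 h2)) (enc_norm (enc_sub (enc_rat _ 26523 2075) (enc_scaleT 17682 2075 h1))))) (enc_add (enc_subr 83209 250000 (enc_scaleT 13 1250 h1)) (enc_mul (enc_norm (bf2q3_3.enc h1 h2)) (enc_norm (enc_sub (enc_rat _ 63897 5000) (enc_scaleT 213 25 h1)))))) (enc_case (enc_subr 979 500 h1) (enc_add (enc_subr 18739 56250 (enc_scaleT 19 1800 h1)) (bf2q3_42.enc h1 h2)) (enc_add (enc_subr 300803 900000 (enc_scaleT 1 90 h1)) (bf2q3_42.enc h1 h2)))) (enc_case (enc_sub (enc_rat _ 172988439 1000000000) (c3g.enc h1)) (enc_case (enc_subr 247 125 h1) (enc_add (enc_subr 8301 25000 (enc_scaleT 1 100 h1)) (bf2q3_42.enc h1 h2)) (enc_add (enc_subr 1189600285917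 2363338075000 (enc_scaleT 67520000 94533523 (c3g.enc h1))) (enc_mul (enc_norm (bf2q3_3.enc h1 h2)) (enc_norm (enc_subr 84173896339 472667615000 (enc_neg (enc_scaleT 1370400000 94533523 (c3g.enc h1)))))))) (enc_case (enc_sub (enc_rat _ 118673639 1000000000) (c3g.enc h1)) (enc_add (enc_subr 41919791709 84866875000 (enc_scaleT 89600 135787 (c3g.enc h1))) (enc_mul (enc_norm (bf2q3_3.enc h1 h2)) (enc_norm (enc_subr 48337964857 271574000000 (enc_neg (enc_scaleT 1968500 135787 (c3g.enc h1))))))) (enc_case (enc_sub (enc_rat _ 59990999 1000000000) (c3g.enc h1)) (enc_add (enc_subr 153937708073 308856000000 (enc_scaleT 511625 733533 (c3g.enc h1))) (enc_mul (enc_norm (bf2q3_3.enc h1 h2)) (enc_norm (enc_subr 2752454327 15442800000 (enc_neg (enc_scaleT 10632500 733533 (c3g.enc h1))))))) (enc_add (enc_subr 24921 50000 (enc_scaleT 41850000 59990999 (c3g.enc h1))) (enc_mul (enc_norm (bf2q3_3.enc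 h1 h2)) (enc_norm (enc_subr 1781 10000 (enc_neg (enc_scaleT 869700000 59990999 (c3g.enc h1))))))))))))⟩
noncomputable def lm1r : Fn2 := ⟨_, _, fun h1 h2 => (enc_lam (enc_norm (enc_sub h1 (cv1r.enc h2))) (enc_sub (cv2r.enc h2) (cv1r.enc h2)))⟩
noncomputable def bf1q3 : Fn2 := ⟨_, _, fun h1 h2 => (enc_norm (enc_case (enc_subr 247 125 h1) (enc_case (enc_subr 97 50 h1) (enc_case (enc_subr 383 200 h1) (enc_sub (enc_rat _ 139472961 8300000) (enc_scaleT 178053 20750 h1)) (enc_sub (enc_rat _ 8401921 500000) (enc_scaleT 5363 625 h1))) (enc_case (enc_subr 979 500 h1) (enc_sub (enc_rat _ 15123031 900000) (enc_scaleT 3089 360 h1)) (enc_sub (enc_rat _ 1512401 90000) (enc_scaleT 7723 900 h1)))) (enc_case (enc_sub (enc_rat _ 118673639 1000000000) (c3g.enc h1)) (enc_case (enc_sub (enc_rat _ 172988439 1000000000) (c3g.enc h1)) (enc_sub (enc_rat _ 80484574517 118166903750) (enc_scaleT 294330000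 94533523 (c3g.enc h1))) (enc_sub (enc_rat _ 369927471829 543148000000) (enc_scaleT 422750 135787 (c3g.enc h1)))) (enc_case (enc_sub (enc_rat _ 59990999 1000000000) (c3g.enc h1)) (enc_sub (enc_rat _ 210362937011 308856000000) (enc_scaleT 2283875 733533 (c3g.enc h1))) (enc_sub (enc_rat _ 6811 10000) (enc_scaleT 186780000 59990999 (c3g.enc h1)))))))⟩
noncomputable def rkbq3_36 : Fn3 := ⟨_, _, fun h1 h2 h3 => (enc_add (enc_mul h1 (bf3q3.enc h2 h3)) (enc_mul (enc_norm (enc_mul (enc_norm (enc_sub (enc_pnc _ 1) (lm2r.enc h1 h2))) (cv2r.enc h2))) (enc_norm (enc_sub (bf2q3.enc h2 h3) (bf3q3.enc h2 h3)))))⟩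
noncomputable def rkbq3_37 : Fn3 := ⟨_, _, fun h1 h2 h3 => (enc_subn 1 h2)⟩
noncomputable def rkbq3_38 : Fn3 := ⟨_, _, fun h1 h2 h3 => (gsg.enc (enc_norm (rkbq3_37.enc h1 h2 h3)))⟩
noncomputable def rkbq3_39 : Fn3 := ⟨_, _, fun h1 h2 h3 => (enc_scaleT 3 4 (rkbq3_37.enc h1 h2 h3))⟩
noncomputable def rkbq3_40 : Fn3 := ⟨_, _, fun h1 h2 h3 => (enc_half (rkbq3_38.enc h1 h2 h3))⟩
noncomputable def rkbq3_42 : Fn3 := ⟨_, _, fun h1 h2 h3 => (esg.enc (enc_norm (rkbq3_37.enc h1 h2 h3)))⟩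
noncomputable def rkbq3_43 : Fn3 := ⟨_, _, fun h1 h2 h3 => (kcg.enc (enc_norm (enc_sub (rkbq3_39.enc h1 h2 h3) (rkbq3_40.enc h1 h2 h3))) h3)⟩
noncomputable def rkbq3_45 : Fn3 := ⟨_, _, fun h1 h2 h3 => (enc_subn 2 h2)⟩
noncomputable def rkbq3_52 : Fn3 := ⟨_, _, fun h1 h2 h3 => (enc_sub (enc_sub (rkbq3_40.enc h1 h2 h3) (rkbq3_39.enc h1 h2 h3)) (enc_sub (enc_rat _ 1 4) (enc_scaleT 3 8 (enc_mul (enc_norm (rkbq3_37.enc h1 h2 h3)) (enc_inv (rkbq3_38.enc h1 h2 h3))))))⟩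
noncomputable def rkbq3_57 : Fn3 := ⟨_, _, fun h1 h2 h3 => (enc_wB3 (enc_mul (enc_norm (rkbq3_45.enc h1 h2 h3)) (enc_norm (enc_add (enc_mul (enc_norm (rkbq3_52.enc h1 h2 h3)) (enc_inv (rkbq3_42.enc h1 h2 h3))) (rkbq3_43.enc h1 h2 h3)))) (rkbq3_37.enc h1 h2 h3) (rkbq3_38.enc h1 h2 h3) (rkbq3_42.enc h1 h2 h3) (rkbq3_45.enc h1 h2 h3) (rkbq3_52.enc h1 h2 h3) (rkbq3_43.enc h1 h2 h3) h2 rfl rfl rfl rfl rfl)⟩
noncomputable def rkbq3_62 : Fn3 := ⟨_, _, fun h1 h2 h3 => (enc_subr 1 2 (swg.enc h2))⟩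
noncomputable def rkbq3_63 : Fn3 := ⟨_, _, fun h1 h2 h3 => (enc_sub h1 (cv2r.enc h2))⟩
noncomputable def rkbq3 : Fn3 := ⟨_, _, fun h1 h2 h3 => (enc_case (enc_sub h1 (cv1r.enc h2)) (enc_mul h1 (bf1q3.enc h2 h3)) (enc_case (rkbq3_63.enc h1 h2 h3) (enc_add (enc_mul h1 (bf2q3.enc h2 h3)) (enc_mul (enc_norm (enc_mul (enc_norm (enc_sub (enc_pnc _ 1) (lm1r.enc h1 h2))) (cv1r.enc h2))) (enc_norm (enc_sub (bf1q3.enc h2 h3) (bf2q3.enc h2 h3))))) (enc_case (enc_sub h1 (cv3r.enc h2)) (enc_case (enc_subr 979 500 h2) (rkbq3_36.enc h1 h2 h3) (enc_case (enc_subr 247 125 h2) (enc_wL (enc_add (kf2q3.enc h2 h3) (enc_mul (enc_norm (enc_mul (enc_norm (rkbq3_63.enc h1 h2 h3)) (enc_inv (enc_sub (rkbq3_62.enc h1 h2 h3) (cv2r.enc h2))))) (enc_norm (enc_sub (rkbq3_57.enc h1 h2 h3) (kf2q3.enc h2 h3))))) h1 (rkbq3_62.enc h1 h2 h3) (cv2r.enc h2) (rkbq3_57.enc h1 h2 h3) (kf2q3.enc h2 h3) rfl) (rkbq3_36.enc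 h1 h2 h3))) (enc_case (enc_sub h1 (cv4r.enc h2)) (enc_add (enc_mul h1 (bf4q3.enc h2 h3)) (enc_mul (enc_norm (enc_sub (enc_pnc _ 1) (lm3r.enc h1 h2))) (enc_norm (enc_sub (kf3q3.enc h2 h3) (enc_mul (cv3r.enc h2) (bf4q3.enc h2 h3)))))) (enc_add (kf4q3.enc h2 h3) (enc_mul (lm4r.enc h1 h2) (enc_norm (enc_sub (kf5q3.enc h2 h3) (kf4q3.enc h2 h3)))))))))⟩
noncomputable def rsbq3 : Fn3 := ⟨_, _, fun h1 h2 h3 => (enc_case h1 (enc_neg (rkbq3.enc (enc_neg h1) h2 h3)) (rkbq3.enc h1 h2 h3))⟩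
noncomputable def bx3q0_3 : Fn2 := ⟨_, _, fun h1 h2 => (enc_subr 309 320 h2)⟩
noncomputable def bx3q0_51 : Fn2 := ⟨_, _, fun h1 h2 => (enc_sq (enc_norm (bx3q0_3.enc h1 h2)))⟩
noncomputable def bx3q0 : Fn2 := ⟨_, _, fun h1 h2 => (enc_norm (enc_case (enc_subr 33 1000 h1) (enc_case (enc_subr 133 10000 h1) (enc_case (enc_subr 67 10000 h1) (enc_add (enc_add (enc_scaleT 356 335 h1) (enc_rat _ 639 20000)) (enc_mul (enc_norm (bx3q0_3.enc h1 h2)) (enc_norm (enc_sub (enc_rat _ 1519 10000) (enc_scaleT 139 67 h1))))) (enc_add (enc_add (enc_scaleT 701 660 h1) (enc_rat _ 42179 1320000)) (enc_mul (enc_norm (bx3q0_3.enc h1 h2)) (enc_norm (enc_sub (enc_rat _ 100259 660000) (enc_scaleT 137 66 h1)))))) (enc_case (enc_subr 37 2000 h1) (enc_add (enc_add (enc_scaleT 553 520 h1) (enc_rat _ 166067 5200000)) (enc_mul (enc_norm (bx3q0_3.enc h1 h2)) (enc_norm (enc_sub (enc_rat _ 10191 32500) (enc_scaleT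 185 13 h1))))) (enc_add (enc_add (enc_add (enc_scaleT 10723873 11000000 h1) (enc_rat _ 738636699 22000000000)) (enc_mul (enc_norm (bx3q0_3.enc h1 h2)) (enc_norm (enc_subr 499604339 5500000000 (enc_scaleT 20979847 2750000 h1))))) (enc_mul (bx3q0_51.enc h1 h2) (enc_norm (enc_subr 948791 440000 (enc_scaleT 25643 220 h1))))))) (enc_case (enc_subr 1 8 h1) (enc_case (enc_subr 3 50 h1) (enc_add (enc_add (enc_add (enc_scaleT 22235107 30000000 h1) (enc_rat _ 20529893 500000000)) (enc_mul (enc_norm (bx3q0_3.enc h1 h2)) (enc_norm (enc_sub (enc_rat _ 32236469 60000000) (enc_scaleT 36130469 3600000 h1))))) (enc_mul (bx3q0_51.enc h1 h2) (enc_norm (enc_subr 1 150000 (enc_scaleT 1 9000 h1))))) (enc_case (enc_subr 17 200 h1) (enc_add (enc_add (enc_scaleT 927 1250 h1) (enc_rat _ 20517 500000)) (enc_mul (enc_norm (bx3q0_3.enc h1 h2)) (enc_norm (enc_subr 3449 50000 (enc_scaleT 17 250 h1)))))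 (enc_add (enc_add (enc_scaleT 183 250 h1) (enc_rat _ 837 20000)) (enc_mul (enc_norm (bx3q0_3.enc h1 h2)) (enc_norm (enc_subr 1383 20000 (enc_scaleT 7 100 h1))))))) (enc_case (enc_subr 1 4 h1) (enc_case (enc_subr 9 50 h1) (enc_add (enc_add (enc_scaleT 23 44 h1) (enc_rat _ 7481 110000)) (enc_mul (enc_norm (bx3q0_3.enc h1 h2)) (enc_norm (enc_subr 3797 55000 (enc_scaleT 19 275 h1))))) (enc_add (enc_add (enc_scaleT 113 250 h1) (enc_rat _ 4037 50000)) (enc_mul (enc_norm (bx3q0_3.enc h1 h2)) (enc_norm (enc_subr 2413 35000 (enc_scaleT 12 175 h1)))))) (enc_case (enc_subr 7 20 h1) (enc_add (enc_add (enc_scaleT 979 2500 h1) (enc_rat _ 599 6250)) (enc_mul (enc_norm (bx3q0_3.enc h1 h2)) (enc_norm (enc_subr 1381 20000 (enc_scaleT 69 1000 h1))))) (enc_add (enc_sub (enc_rat _ 21499 60000) (enc_scaleT 43 120 h1)) (enc_mul (enc_norm (bx3q0_3.enc h1 h2)) (enc_norm (enc_subr 83 1200 (enc_scaleT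 26 375 h1))))))))))⟩
noncomputable def rxq0_36 : Fn3 := ⟨_, _, fun h1 h2 h3 => (enc_add (enc_mul h1 (bx3q0.enc h2 h3)) (enc_mul (enc_norm (enc_mul (enc_norm (enc_sub (enc_pnc _ 1) (lm2m.enc h1 h2))) (cv2m.enc h2))) (enc_norm (enc_sub (bx2q0.enc h2 h3) (bx3q0.enc h2 h3)))))⟩
noncomputable def rxq0_38 : Fn3 := ⟨_, _, fun h1 h2 h3 => (enc_sub (enc_pnc _ 1) h2)⟩
noncomputable def rxq0_50 : Fn3 := ⟨_, _, fun h1 h2 h3 => (enc_sub (qsg.enc (enc_norm (rxq0_38.enc h1 h2 h3))) (enc_mul (enc_norm (enc_nat 2 (enc_sub (rxq0_38.enc h1 h2 h3) h3))) (enc_norm (enc_mul (esg.enc (enc_norm (rxq0_38.enc h1 h2 h3))) (kcg.enc (enc_norm (enc_sub (enc_scaleT 3 4 (rxq0_38.enc h1 h2 h3)) (enc_half (gsg.enc (enc_norm (rxq0_38.enc h1 h2 h3)))))) h3)))))⟩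
noncomputable def rxq0_54 : Fn3 := ⟨_, _, fun h1 h2 h3 => (enc_add (swg.enc h2) (enc_rat _ 1 2))⟩
noncomputable def rxq0_55 : Fn3 := ⟨_, _, fun h1 h2 h3 => (enc_sub h1 (cv2m.enc h2))⟩
noncomputable def rxq0 : Fn3 := ⟨_, _, fun h1 h2 h3 => (enc_case (enc_sub h1 (cv1m.enc h2)) (enc_add (enc_mul h1 (bx1q0.enc h2 h3)) (enc_mul (enc_norm (enc_sub (enc_pnc _ 1) (lm0m.enc h1 h2))) (enc_norm (enc_sub (l0q0.enc h2 h3) (enc_mul (c1g.enc h2) (bx1q0.enc h2 h3)))))) (enc_case (rxq0_55.enc h1 h2 h3) (enc_add (enc_mul h1 (bx2q0.enc h2 h3)) (enc_mul (enc_norm (enc_mul (enc_norm (enc_sub (enc_pnc _ 1) (lm1m.enc h1 h2))) (cv1m.enc h2))) (enc_norm (enc_sub (bx1q0.enc h2 h3) (bx2q0.enc h2 h3))))) (enc_case (enc_sub h1 (cv3m.enc h2)) (enc_case (enc_subr 3 125 h2) (rxq0_36.enc h1 h2 h3) (enc_case (enc_subr 21 500 h2) (enc_wL (enc_add (l2q0.enc h2 h3) (enc_mul (enc_norm (enc_mul (enc_norm (rxq0_55.enc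 h1 h2 h3)) (enc_inv (enc_sub (rxq0_54.enc h1 h2 h3) (cv2m.enc h2))))) (enc_norm (enc_sub (rxq0_50.enc h1 h2 h3) (l2q0.enc h2 h3))))) h1 (rxq0_54.enc h1 h2 h3) (cv2m.enc h2) (rxq0_50.enc h1 h2 h3) (l2q0.enc h2 h3) rfl) (rxq0_36.enc h1 h2 h3))) (enc_case (enc_sub h1 (cv4m.enc h2)) (enc_add (enc_mul h1 (bx4q0.enc h2 h3)) (enc_mul (enc_norm (enc_sub (enc_pnc _ 1) (lm3m.enc h1 h2))) (enc_norm (enc_sub (l3q0.enc h2 h3) (enc_mul (cv3m.enc h2) (bx4q0.enc h2 h3)))))) (enc_add (l4q0.enc h2 h3) (enc_mul (lm4m.enc h1 h2) (enc_norm (enc_sub (l5q0.enc h2 h3) (l4q0.enc h2 h3)))))))))⟩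
noncomputable def rlq0 : Fn3 := ⟨_, _, fun h1 h2 h3 => (enc_case h1 (enc_neg (rxq0.enc (enc_neg h1) h2 h3)) (rxq0.enc h1 h2 h3))⟩
noncomputable def rxq1 : Fn3 := ⟨_, _, fun h1 h2 h3 => (enc_case (enc_sub h1 (cv1m.enc h2)) (enc_add (enc_mul h1 (bx1q1.enc h2 h3)) (enc_mul (enc_norm (enc_sub (enc_pnc _ 1) (lm0m.enc h1 h2))) (enc_norm (enc_sub (l0q1.enc h2 h3) (enc_mul (c1g.enc h2) (bx1q1.enc h2 h3)))))) (enc_case (enc_sub h1 (cv2m.enc h2)) (enc_add (enc_mul h1 (bx2q1.enc h2 h3)) (enc_mul (enc_norm (enc_mul (enc_norm (enc_sub (enc_pnc _ 1) (lm1m.enc h1 h2))) (cv1m.enc h2))) (enc_norm (enc_sub (bx1q1.enc h2 h3) (bx2q1.enc h2 h3))))) (enc_case (enc_sub h1 (cv3m.enc h2)) (enc_add (enc_mul h1 (bx3q1.enc h2 h3)) (enc_mul (enc_norm (enc_mul (enc_norm (enc_sub (enc_pnc _ 1) (lm2m.enc h1 h2))) (cv2m.enc h2))) (enc_norm (enc_sub (bx2q1.enc h2 h3) (bx3q1.enc h2 h3))))) (enc_case (enc_sub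 h1 (cv4m.enc h2)) (enc_add (enc_mul h1 (bx4q1.enc h2 h3)) (enc_mul (enc_norm (enc_mul (enc_norm (enc_sub (enc_pnc _ 1) (lm3m.enc h1 h2))) (cv3m.enc h2))) (enc_norm (enc_sub (bx3q1.enc h2 h3) (bx4q1.enc h2 h3))))) (enc_add (l4q1.enc h2 h3) (enc_mul (lm4m.enc h1 h2) (enc_norm (enc_sub (l5q1.enc h2 h3) (l4q1.enc h2 h3)))))))))⟩
noncomputable def rlq1 : Fn3 := ⟨_, _, fun h1 h2 h3 => (enc_case h1 (enc_neg (rxq1.enc (enc_neg h1) h2 h3)) (rxq1.enc h1 h2 h3))⟩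
noncomputable def l0q2_7 : Fn2 := ⟨_, _, fun h1 h2 => (enc_scaleT 3 4 h1)⟩
noncomputable def l0q2_8 : Fn2 := ⟨_, _, fun h1 h2 => (enc_half (c1g.enc h1))⟩
noncomputable def l0q2 : Fn2 := ⟨_, _, fun h1 h2 => (enc_norm (enc_sub (txg.enc (enc_neg (c1g.enc h1)) (enc_norm (enc_add (l0q2_7.enc h1 h2) (l0q2_8.enc h1 h2))) h2) (txg.enc (c1g.enc h1) (enc_norm (enc_sub (l0q2_7.enc h1 h2) (l0q2_8.enc h1 h2))) h2)))⟩
noncomputable def n0x : Fn2 := ⟨_, _, fun h1 h2 => (enc_norm (enc_subr 1474343 10000000 (enc_neg (enc_scaleT 56611 250000 (enc_subr 309 320 h2)))))⟩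
noncomputable def rxq2_51 : Fn3 := ⟨_, _, fun h1 h2 h3 => (enc_mul h1 (bx1q2.enc h2 h3))⟩
noncomputable def rxq2_53 : Fn3 := ⟨_, _, fun h1 h2 h3 => (enc_sub (enc_pnc _ 1) (lm0p.enc h1 h2))⟩
noncomputable def rxq2 : Fn3 := ⟨_, _, fun h1 h2 h3 => (enc_case (enc_sub h1 (cv1p.enc h2)) (enc_case (enc_subr 1149 1000 h2) (enc_add (rxq2_51.enc h1 h2 h3) (enc_mul (enc_norm (rxq2_53.enc h1 h2 h3)) (enc_norm (enc_sub (l0q2.enc h2 h3) (enc_mul (c1g.enc h2) (bx1q2.enc h2 h3)))))) (enc_case (enc_subr 2887 2500 h2) (enc_add (rxq2_51.enc h1 h2 h3) (enc_mul (enc_norm (rxq2_53.enc h1 h2 h3)) (enc_norm (enc_mul (c1g.enc h2) (enc_norm (enc_sub (n0x.enc h2 h3) (bx1q2.enc h2 h3))))))) (rxq2_51.enc h1 h2 h3))) (enc_case (enc_sub h1 (cv2p.enc h2)) (enc_add (enc_mul h1 (bx2q2.enc h2 h3)) (enc_mul (enc_norm (enc_mul (enc_norm (enc_sub (enc_pnc _ 1) (lm1p.enc h1 h2))) (cv1p.enc h2))) (enc_norm (enc_sub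 (bx1q2.enc h2 h3) (bx2q2.enc h2 h3))))) (enc_case (enc_sub h1 (cv3p.enc h2)) (enc_add (enc_mul h1 (bx3q2.enc h2 h3)) (enc_mul (enc_norm (enc_mul (enc_norm (enc_sub (enc_pnc _ 1) (lm2p.enc h1 h2))) (cv2p.enc h2))) (enc_norm (enc_sub (bx2q2.enc h2 h3) (bx3q2.enc h2 h3))))) (enc_case (enc_sub h1 (cv4p.enc h2)) (enc_add (enc_mul h1 (bx4q2.enc h2 h3)) (enc_mul (enc_norm (enc_mul (enc_norm (enc_sub (enc_pnc _ 1) (lm3p.enc h1 h2))) (cv3p.enc h2))) (enc_norm (enc_sub (bx3q2.enc h2 h3) (bx4q2.enc h2 h3))))) (enc_add (l4q2.enc h2 h3) (enc_mul (lm4p.enc h1 h2) (enc_norm (enc_sub (l5q2.enc h2 h3) (l4q2.enc h2 h3)))))))))⟩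
noncomputable def rlq2 : Fn3 := ⟨_, _, fun h1 h2 h3 => (enc_case h1 (enc_neg (rxq2.enc (enc_neg h1) h2 h3)) (rxq2.enc h1 h2 h3))⟩
noncomputable def l4q3_4 : Fn2 := ⟨_, _, fun h1 h2 => (enc_subr 309 320 h2)⟩
noncomputable def l4q3 : Fn2 := ⟨_, _, fun h1 h2 => (enc_norm (enc_mul (cv4r.enc h1) (enc_norm (enc_case (enc_subr 1967 1000 h1) (enc_case (enc_subr 97 50 h1) (enc_case (enc_subr 383 200 h1) (enc_add (enc_subr 16159967 8300000 (enc_scaleT 29707 20750 h1)) (enc_mul (enc_norm (l4q3_4.enc h1 h2)) (enc_norm (enc_subr 1083149 166000 (enc_scaleT 12026 2075 h1))))) (enc_add (enc_subr 194763 100000 (enc_scaleT 179 125 h1)) (enc_mul (enc_norm (l4q3_4.enc h1 h2)) (enc_norm (enc_subr 163141 25000 (enc_scaleT 1449 250 h1)))))) (enc_case (enc_subr 979 500 h1) (enc_add (enc_add (enc_scaleT 53 1800 h1) (enc_rat _ 139199 180000)) (enc_mul (enc_norm (l4q3_4.enc h1 h2)) (enc_norm (enc_sub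 (enc_rat _ 271507 45000) (enc_scaleT 61 90 h1))))) (enc_add (enc_sub (enc_rat _ 150077 45000) (enc_scaleT 1151 900 h1)) (enc_mul (enc_norm (l4q3_4.enc h1 h2)) (enc_norm (enc_sub (enc_rat _ 228269 22500) (enc_scaleT 25 9 h1))))))) (enc_case (enc_sub (enc_rat _ 172988439 1000000000) (c3g.enc h1)) (enc_case (enc_subr 247 125 h1) (enc_add (enc_sub (enc_rat _ 2995639 900000) (enc_scaleT 287 225 h1)) (enc_mul (enc_norm (l4q3_4.enc h1 h2)) (enc_norm (enc_sub (enc_rat _ 303703 30000) (enc_scaleT 83 30 h1))))) (enc_add (enc_add (enc_scaleT 18300000 94533523 (c3g.enc h1)) (enc_rat _ 7148648934417 9453352300000)) (enc_mul (enc_norm (l4q3_4.enc h1 h2)) (enc_norm (enc_add (enc_scaleT 863000000 94533523 (c3g.enc h1)) (enc_rat _ 418647793287 189067046000)))))) (enc_case (enc_sub (enc_rat _ 118673639 1000000000) (c3g.enc h1)) (enc_add (enc_sub (enc_rat _ 4356131967093 5431480000000) (enc_scaleT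 9675 135787 (c3g.enc h1))) (enc_mul (enc_norm (l4q3_4.enc h1 h2)) (enc_norm (enc_sub (enc_rat _ 805901550459 135787000000) (enc_scaleT 1681000 135787 (c3g.enc h1)))))) (enc_case (enc_sub (enc_rat _ 59990999 1000000000) (c3g.enc h1)) (enc_add (enc_add (enc_scaleT 750 12869 (c3g.enc h1)) (enc_rat _ 40493273643 51476000000)) (enc_mul (enc_norm (l4q3_4.enc h1 h2)) (enc_norm (enc_add (enc_scaleT 1026250 244511 (c3g.enc h1)) (enc_rat _ 40849383279 10295200000))))) (enc_add (enc_add (enc_scaleT 4235150 59990999 (c3g.enc h1)) (enc_rat _ 15718097 20000000)) (enc_mul (enc_norm (l4q3_4.enc h1 h2)) (enc_norm (enc_sub (enc_rat _ 9332299 2000000) (enc_scaleT 446549500 59990999 (c3g.enc h1)))))))))))))⟩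
noncomputable def l5q3_7 : Fn2 := ⟨_, _, fun h1 h2 => (enc_half (c3g.enc h1))⟩
noncomputable def l5q3_8 : Fn2 := ⟨_, _, fun h1 h2 => (enc_scaleT 1 4 h1)⟩
noncomputable def l5q3_9 : Fn2 := ⟨_, _, fun h1 h2 => (enc_sub (l5q3_7.enc h1 h2) (l5q3_8.enc h1 h2))⟩
noncomputable def l5q3_12 : Fn2 := ⟨_, _, fun h1 h2 => (enc_add (enc_scaleT 1 4 (c3g.enc h1)) (enc_scaleT 3 8 h1))⟩
noncomputable def l5q3_14 : Fn2 := ⟨_, _, fun h1 h2 => (enc_half (l5q3_9.enc h1 h2))⟩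
noncomputable def l5q3 : Fn2 := ⟨_, _, fun h1 h2 => (enc_norm (enc_sub (enc_nat 2 (txg.enc (enc_norm (enc_sub (l5q3_8.enc h1 h2) (l5q3_7.enc h1 h2))) (enc_norm (enc_add (l5q3_12.enc h1 h2) (l5q3_14.enc h1 h2))) h2)) (txg.enc (enc_norm (l5q3_9.enc h1 h2)) (enc_norm (enc_sub (l5q3_12.enc h1 h2) (l5q3_14.enc h1 h2))) h2)))⟩
noncomputable def bx4q3_3 : Fn2 := ⟨_, _, fun h1 h2 => (enc_subr 309 320 h2)⟩
noncomputable def bx4q3 : Fn2 := ⟨_, _, fun h1 h2 => (enc_norm (enc_case (enc_subr 1967 1000 h1) (enc_case (enc_subr 97 50 h1) (enc_case (enc_subr 383 200 h1) (enc_add (enc_subr 16159967 8300000 (enc_scaleT 29707 20750 h1)) (enc_mul (enc_norm (bx4q3_3.enc h1 h2)) (enc_norm (enc_subr 1083149 166000 (enc_scaleT 12026 2075 h1))))) (enc_add (enc_subr 194763 100000 (enc_scaleT 179 125 h1)) (enc_mul (enc_norm (bx4q3_3.enc h1 h2)) (enc_norm (enc_subr 163141 25000 (enc_scaleT 1449 250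 h1)))))) (enc_case (enc_subr 979 500 h1) (enc_add (enc_add (enc_scaleT 53 1800 h1) (enc_rat _ 139199 180000)) (enc_mul (enc_norm (bx4q3_3.enc h1 h2)) (enc_norm (enc_sub (enc_rat _ 271507 45000) (enc_scaleT 61 90 h1))))) (enc_add (enc_sub (enc_rat _ 150077 45000) (enc_scaleT 1151 900 h1)) (enc_mul (enc_norm (bx4q3_3.enc h1 h2)) (enc_norm (enc_sub (enc_rat _ 228269 22500) (enc_scaleT 25 9 h1))))))) (enc_case (enc_sub (enc_rat _ 172988439 1000000000) (c3g.enc h1)) (enc_case (enc_subr 247 125 h1) (enc_add (enc_sub (enc_rat _ 2995639 900000) (enc_scaleT 287 225 h1)) (enc_mul (enc_norm (bx4q3_3.enc h1 h2)) (enc_norm (enc_sub (enc_rat _ 303703 30000) (enc_scaleT 83 30 h1))))) (enc_add (enc_add (enc_scaleT 18300000 94533523 (c3g.enc h1)) (enc_rat _ 7148648934417 9453352300000)) (enc_mul (enc_norm (bx4q3_3.enc h1 h2)) (enc_norm (enc_add (enc_scaleT 863000000 94533523 (c3g.enc h1))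 (enc_rat _ 418647793287 189067046000)))))) (enc_case (enc_sub (enc_rat _ 118673639 1000000000) (c3g.enc h1)) (enc_add (enc_sub (enc_rat _ 4356131967093 5431480000000) (enc_scaleT 9675 135787 (c3g.enc h1))) (enc_mul (enc_norm (bx4q3_3.enc h1 h2)) (enc_norm (enc_sub (enc_rat _ 805901550459 135787000000) (enc_scaleT 1681000 135787 (c3g.enc h1)))))) (enc_case (enc_sub (enc_rat _ 59990999 1000000000) (c3g.enc h1)) (enc_add (enc_add (enc_scaleT 750 12869 (c3g.enc h1)) (enc_rat _ 40493273643 51476000000)) (enc_mul (enc_norm (bx4q3_3.enc h1 h2)) (enc_norm (enc_add (enc_scaleT 1026250 244511 (c3g.enc h1)) (enc_rat _ 40849383279 10295200000))))) (enc_add (enc_add (enc_scaleT 4235150 59990999 (c3g.enc h1)) (enc_rat _ 15718097 20000000)) (enc_mul (enc_norm (bx4q3_3.enc h1 h2)) (enc_norm (enc_sub (enc_rat _ 9332299 2000000) (enc_scaleT 446549500 59990999 (c3g.enc h1)))))))))))⟩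
noncomputable def l3q3_4 : Fn2 := ⟨_, _, fun h1 h2 => (enc_subr 309 320 h2)⟩
noncomputable def l3q3_6 : Fn2 := ⟨_, _, fun h1 h2 => (enc_subr 383 200 h1)⟩
noncomputable def l3q3_18 : Fn2 := ⟨_, _, fun h1 h2 => (enc_subr 97 50 h1)⟩
noncomputable def l3q3_43 : Fn2 := ⟨_, _, fun h1 h2 => (enc_sq (enc_norm (l3q3_4.enc h1 h2)))⟩
noncomputable def l3q3_51 : Fn2 := ⟨_, _, fun h1 h2 => (enc_sub (enc_rat _ 118673639 1000000000) (c3g.enc h1))⟩
noncomputable def l3q3_53 : Fn2 := ⟨_, _, fun h1 h2 => (enc_sub (enc_rat _ 172988439 1000000000) (c3g.enc h1))⟩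
noncomputable def l3q3_80 : Fn2 := ⟨_, _, fun h1 h2 => (enc_sub (enc_rat _ 59990999 1000000000) (c3g.enc h1))⟩
noncomputable def l3q3_103 : Fn2 := ⟨_, _, fun h1 h2 => (enc_subn 1 h1)⟩
noncomputable def l3q3_141 : Fn2 := ⟨_, _, fun h1 h2 => (enc_subr 979 500 h1)⟩
noncomputable def l3q3_165 : Fn2 := ⟨_, _, fun h1 h2 => (enc_subr 247 125 h1)⟩
noncomputable def l3q3_217 : Fn2 := ⟨_, _, fun h1 h2 => (enc_mul (cv2r.enc h1) (enc_norm (enc_case (enc_subr 1967 1000 h1) (enc_case (l3q3_18.enc h1 h2) (enc_case (l3q3_6.enc h1 h2) (enc_add (enc_subr 701491 518750 (enc_scaleT 48277 41500 h1)) (enc_mul (enc_norm (l3q3_4.enc h1 h2)) (enc_norm (enc_sub (enc_rat _ 355263 830000) (enc_scaleT 888 2075 h1))))) (enc_add (enc_subr 676039 500000 (enc_scaleT 727 625 h1)) (enc_mul (enc_norm (l3q3_4.enc h1 h2)) (enc_norm (enc_sub (enc_rat _ 10703 25000) (enc_scaleT 107 250 h1)))))) (enc_case (l3q3_141.enc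 h1 h2) (enc_add (enc_subr 298517 100000 (enc_scaleT 401 200 h1)) (enc_mul (enc_norm (l3q3_4.enc h1 h2)) (enc_norm (enc_sub (enc_rat _ 9623 22500) (enc_scaleT 77 180 h1))))) (enc_add (enc_subr 1342837 450000 (enc_scaleT 451 225 h1)) (enc_mul (enc_norm (l3q3_4.enc h1 h2)) (enc_norm (enc_sub (enc_rat _ 37513 90000) (enc_scaleT 19 45 h1))))))) (enc_case (l3q3_53.enc h1 h2) (enc_case (l3q3_165.enc h1 h2) (enc_add (enc_subr 2687641 900000 (enc_scaleT 361 180 h1)) (enc_mul (enc_norm (l3q3_4.enc h1 h2)) (enc_norm (enc_sub (enc_rat _ 329 750) (enc_scaleT 13 30 h1))))) (enc_add (enc_add (enc_scaleT 12370000 94533523 (c3g.enc h1)) (enc_rat _ 8902259057939 9453352300000)) (enc_mul (enc_norm (l3q3_4.enc h1 h2)) (enc_norm (enc_sub (enc_rat _ 3460308029421 472667615000) (enc_scaleT 2734500000 94533523 (c3g.enc h1))))))) (enc_case (l3q3_51.enc h1 h2) (enc_add (enc_add (enc_scaleT 87575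 135787 (c3g.enc h1)) (enc_rat _ 4631814921383 5431480000000)) (enc_mul (enc_norm (l3q3_4.enc h1 h2)) (enc_norm (enc_sub (enc_rat _ 2987785025883 543148000000) (enc_scaleT 2499250 135787 (c3g.enc h1)))))) (enc_case (l3q3_80.enc h1 h2) (enc_add (enc_add (enc_scaleT 65000 244511 (c3g.enc h1)) (enc_rat _ 92426413 102952000)) (enc_mul (enc_norm (l3q3_4.enc h1 h2)) (enc_norm (enc_sub (enc_rat _ 169898021741 30885600000) (enc_scaleT 13501250 733533 (c3g.enc h1)))))) (enc_add (enc_add (enc_scaleT 15950000 59990999 (c3g.enc h1)) (enc_rat _ 5611 6250)) (enc_mul (enc_norm (l3q3_4.enc h1 h2)) (enc_norm (enc_sub (enc_rat _ 55009 10000) (enc_scaleT 1104200000 59990999 (c3g.enc h1))))))))))))⟩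
noncomputable def l3q3 : Fn2 := ⟨_, _, fun h1 h2 => (enc_norm (enc_case (l3q3_141.enc h1 h2) (enc_mul (cv3r.enc h1) (enc_norm (enc_case (l3q3_6.enc h1 h2) (enc_add (enc_subr 2110673 1660000 (enc_scaleT 24249 20750 h1)) (enc_mul (enc_norm (l3q3_4.enc h1 h2)) (enc_norm (enc_subr 51404 51875 (enc_scaleT 197 166 h1))))) (enc_case (l3q3_18.enc h1 h2) (enc_add (enc_subr 79441 62500 (enc_scaleT 2921 2500 h1)) (enc_mul (enc_norm (l3q3_4.enc h1 h2)) (enc_norm (enc_subr 24833 25000 (enc_scaleT 297 250 h1))))) (enc_add (enc_add (enc_sub (enc_rat _ 40416904513 3000000000) (enc_scaleT 385876129 60000000 h1)) (enc_mul (enc_norm (l3q3_4.enc h1 h2)) (enc_norm (enc_subr 15113724403 225000000 (enc_scaleT 158853499 4500000 h1))))) (enc_mul (l3q3_43.enc h1 h2) (enc_norm (enc_sub (enc_rat _ 97 56250) (enc_scaleT 1 1125 h1))))))))) (enc_case (l3q3_165.enc h1 h2) (enc_add (l3q3_217.enc h1 h2)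 (enc_mul (enc_norm (enc_mul (enc_norm (enc_sub (enc_sub (qsg.enc (enc_norm (l3q3_103.enc h1 h2))) (enc_mul (enc_norm (enc_nat 2 (enc_sub (l3q3_103.enc h1 h2) h2))) (enc_norm (enc_mul (esg.enc (enc_norm (l3q3_103.enc h1 h2))) (kcg.enc (enc_norm (enc_sub (enc_scaleT 3 4 (l3q3_103.enc h1 h2)) (enc_half (gsg.enc (enc_norm (l3q3_103.enc h1 h2)))))) h2))))) (l3q3_217.enc h1 h2))) (enc_norm (enc_sub (cv3r.enc h1) (cv2r.enc h1))))) (enc_inv (enc_sub (enc_subr 1 2 (swg.enc h1)) (cv2r.enc h1))))) (enc_mul (cv3r.enc h1) (enc_norm (enc_case (l3q3_51.enc h1 h2) (enc_case (l3q3_53.enc h1 h2) (enc_add (enc_add (enc_sub (enc_rat _ 432691551156770103 472667615000000000) (enc_scaleT 47227777 472667615 (c3g.enc h1))) (enc_mul (enc_norm (l3q3_4.enc h1 h2)) (enc_norm (enc_add (enc_scaleT 443990325 94533523 (c3g.enc h1)) (enc_rat _ 4708279346877893 3781340920000000))))) (enc_mul (l3q3_43.enc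 h1 h2) (enc_norm (enc_subr 672684400791351 47266761500000 (enc_scaleT 7777218000 94533523 (c3g.enc h1)))))) (enc_add (enc_add (enc_scaleT 61200 135787 (c3g.enc h1)) (enc_rat _ 278422109283 339467500000)) (enc_mul (enc_norm (l3q3_4.enc h1 h2)) (enc_norm (enc_sub (enc_rat _ 2769793905689 543148000000) (enc_scaleT 2387750 135787 (c3g.enc h1))))))) (enc_case (l3q3_80.enc h1 h2) (enc_add (enc_add (enc_scaleT 464375 733533 (c3g.enc h1)) (enc_rat _ 49326262709 61771200000)) (enc_mul (enc_norm (l3q3_4.enc h1 h2)) (enc_norm (enc_sub (enc_rat _ 328140773 64345000) (enc_scaleT 4300000 244511 (c3g.enc h1)))))) (enc_add (enc_add (enc_scaleT 50605150 59990999 (c3g.enc h1)) (enc_rat _ 15718097 20000000)) (enc_mul (enc_norm (l3q3_4.enc h1 h2)) (enc_norm (enc_sub (enc_rat _ 9332299 2000000) (enc_scaleT 621449500 59990999 (c3g.enc h1)))))))))))))⟩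
noncomputable def bx3q3_3 : Fn2 := ⟨_, _, fun h1 h2 => (enc_subr 309 320 h2)⟩
noncomputable def bx3q3_42 : Fn2 := ⟨_, _, fun h1 h2 => (enc_sq (enc_norm (bx3q3_3.enc h1 h2)))⟩
noncomputable def bx3q3 : Fn2 := ⟨_, _, fun h1 h2 => (enc_norm (enc_case (enc_subr 1967 1000 h1) (enc_case (enc_subr 383 200 h1) (enc_add (enc_subr 2110673 1660000 (enc_scaleT 24249 20750 h1)) (enc_mul (enc_norm (bx3q3_3.enc h1 h2)) (enc_norm (enc_subr 51404 51875 (enc_scaleT 197 166 h1))))) (enc_case (enc_subr 97 50 h1) (enc_add (enc_subr 79441 62500 (enc_scaleT 2921 2500 h1)) (enc_mul (enc_norm (bx3q3_3.enc h1 h2)) (enc_norm (enc_subr 24833 25000 (enc_scaleT 297 250 h1))))) (enc_add (enc_add (enc_sub (enc_rat _ 40416904513 3000000000) (enc_scaleT 385876129 60000000 h1)) (enc_mul (enc_norm (bx3q3_3.enc h1 h2)) (enc_norm (enc_subr 15113724403 225000000 (enc_scaleT 158853499 4500000 h1))))) (enc_mul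 (bx3q3_42.enc h1 h2) (enc_norm (enc_sub (enc_rat _ 97 56250) (enc_scaleT 1 1125 h1))))))) (enc_case (enc_sub (enc_rat _ 118673639 1000000000) (c3g.enc h1)) (enc_case (enc_sub (enc_rat _ 172988439 1000000000) (c3g.enc h1)) (enc_add (enc_add (enc_sub (enc_rat _ 432691551156770103 472667615000000000) (enc_scaleT 47227777 472667615 (c3g.enc h1))) (enc_mul (enc_norm (bx3q3_3.enc h1 h2)) (enc_norm (enc_add (enc_scaleT 443990325 94533523 (c3g.enc h1)) (enc_rat _ 4708279346877893 3781340920000000))))) (enc_mul (bx3q3_42.enc h1 h2) (enc_norm (enc_subr 672684400791351 47266761500000 (enc_scaleT 7777218000 94533523 (c3g.enc h1)))))) (enc_add (enc_add (enc_scaleT 61200 135787 (c3g.enc h1)) (enc_rat _ 278422109283 339467500000)) (enc_mul (enc_norm (bx3q3_3.enc h1 h2)) (enc_norm (enc_sub (enc_rat _ 2769793905689 543148000000) (enc_scaleT 2387750 135787 (c3g.enc h1))))))) (enc_case (enc_sub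 (enc_rat _ 59990999 1000000000) (c3g.enc h1)) (enc_add (enc_add (enc_scaleT 464375 733533 (c3g.enc h1)) (enc_rat _ 49326262709 61771200000)) (enc_mul (enc_norm (bx3q3_3.enc h1 h2)) (enc_norm (enc_sub (enc_rat _ 328140773 64345000) (enc_scaleT 4300000 244511 (c3g.enc h1)))))) (enc_add (enc_add (enc_scaleT 50605150 59990999 (c3g.enc h1)) (enc_rat _ 15718097 20000000)) (enc_mul (enc_norm (bx3q3_3.enc h1 h2)) (enc_norm (enc_sub (enc_rat _ 9332299 2000000) (enc_scaleT 621449500 59990999 (c3g.enc h1))))))))))⟩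
noncomputable def bx2q3_3 : Fn2 := ⟨_, _, fun h1 h2 => (enc_subr 309 320 h2)⟩
noncomputable def bx2q3 : Fn2 := ⟨_, _, fun h1 h2 => (enc_norm (enc_case (enc_subr 1967 1000 h1) (enc_case (enc_subr 97 50 h1) (enc_case (enc_subr 383 200 h1) (enc_add (enc_subr 701491 518750 (enc_scaleT 48277 41500 h1)) (enc_mul (enc_norm (bx2q3_3.enc h1 h2)) (enc_norm (enc_sub (enc_rat _ 355263 830000) (enc_scaleT 888 2075 h1))))) (enc_add (enc_subr 676039 500000 (enc_scaleT 727 625 h1)) (enc_mul (enc_norm (bx2q3_3.enc h1 h2)) (enc_norm (enc_sub (enc_rat _ 10703 25000) (enc_scaleT 107 250 h1)))))) (enc_case (enc_subr 979 500 h1) (enc_add (enc_subr 298517 100000 (enc_scaleT 401 200 h1)) (enc_mul (enc_norm (bx2q3_3.enc h1 h2)) (enc_norm (enc_sub (enc_rat _ 9623 22500) (enc_scaleT 77 180 h1))))) (enc_add (enc_subr 1342837 450000 (enc_scaleT 451 225 h1)) (enc_mul (enc_norm (bx2q3_3.enc h1 h2)) (enc_norm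 (enc_sub (enc_rat _ 37513 90000) (enc_scaleT 19 45 h1))))))) (enc_case (enc_sub (enc_rat _ 172988439 1000000000) (c3g.enc h1)) (enc_case (enc_subr 247 125 h1) (enc_add (enc_subr 2687641 900000 (enc_scaleT 361 180 h1)) (enc_mul (enc_norm (bx2q3_3.enc h1 h2)) (enc_norm (enc_sub (enc_rat _ 329 750) (enc_scaleT 13 30 h1))))) (enc_add (enc_add (enc_scaleT 12370000 94533523 (c3g.enc h1)) (enc_rat _ 8902259057939 9453352300000)) (enc_mul (enc_norm (bx2q3_3.enc h1 h2)) (enc_norm (enc_sub (enc_rat _ 3460308029421 472667615000) (enc_scaleT 2734500000 94533523 (c3g.enc h1))))))) (enc_case (enc_sub (enc_rat _ 118673639 1000000000) (c3g.enc h1)) (enc_add (enc_add (enc_scaleT 87575 135787 (c3g.enc h1)) (enc_rat _ 4631814921383 5431480000000)) (enc_mul (enc_norm (bx2q3_3.enc h1 h2)) (enc_norm (enc_sub (enc_rat _ 2987785025883 543148000000) (enc_scaleT 2499250 135787 (c3g.enc h1))))))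 (enc_case (enc_sub (enc_rat _ 59990999 1000000000) (c3g.enc h1)) (enc_add (enc_add (enc_scaleT 65000 244511 (c3g.enc h1)) (enc_rat _ 92426413 102952000)) (enc_mul (enc_norm (bx2q3_3.enc h1 h2)) (enc_norm (enc_sub (enc_rat _ 169898021741 30885600000) (enc_scaleT 13501250 733533 (c3g.enc h1)))))) (enc_add (enc_add (enc_scaleT 15950000 59990999 (c3g.enc h1)) (enc_rat _ 5611 6250)) (enc_mul (enc_norm (bx2q3_3.enc h1 h2)) (enc_norm (enc_sub (enc_rat _ 55009 10000) (enc_scaleT 1104200000 59990999 (c3g.enc h1)))))))))))⟩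
noncomputable def bx1q3_3 : Fn2 := ⟨_, _, fun h1 h2 => (enc_subr 309 320 h2)⟩
noncomputable def bx1q3_42 : Fn2 := ⟨_, _, fun h1 h2 => (enc_mul (enc_norm (bx1q3_3.enc h1 h2)) (enc_norm (enc_subr 1967 3600 (enc_scaleT 5 18 h1))))⟩
noncomputable def bx1q3 : Fn2 := ⟨_, _, fun h1 h2 => (enc_norm (enc_case (enc_subr 247 125 h1) (enc_case (enc_subr 97 50 h1) (enc_case (enc_subr 383 200 h1) (enc_add (enc_subr 11734143 8300000 (enc_scaleT 45499 41500 h1)) (enc_mul (enc_norm (bx1q3_3.enc h1 h2)) (enc_norm (enc_subr 113983 207500 (enc_scaleT 1159 4150 h1))))) (enc_add (enc_subr 70653 50000 (enc_scaleT 137 125 h1)) (enc_mul (enc_norm (bx1q3_3.enc h1 h2)) (enc_norm (enc_subr 5507 10000 (enc_scaleT 7 25 h1)))))) (enc_case (enc_subr 1967 1000 h1) (enc_add (enc_subr 212153 150000 (enc_scaleT 329 300 h1)) (bx1q3_42.enc h1 h2)) (enc_add (enc_subr 1270951 900000 (enc_scaleT 493 450 h1)) (bx1q3_42.enc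 h1 h2)))) (enc_case (enc_sub (enc_rat _ 118673639 1000000000) (c3g.enc h1)) (enc_case (enc_sub (enc_rat _ 172988439 1000000000) (c3g.enc h1)) (enc_add (enc_sub (enc_rat _ 1236608518811 1350478900000) (enc_scaleT 8230000 13504789 (c3g.enc h1))) (enc_mul (enc_norm (bx1q3_3.enc h1 h2)) (enc_norm (enc_subr 579403507 945335230000 (enc_scaleT 1100000 94533523 (c3g.enc h1)))))) (enc_add (enc_sub (enc_rat _ 4973675706329 5431480000000) (enc_scaleT 82775 135787 (c3g.enc h1))) (enc_mul (enc_norm (bx1q3_3.enc h1 h2)) (enc_norm (enc_subr 450511873 543148000000 (enc_scaleT 1750 135787 (c3g.enc h1))))))) (enc_case (enc_sub (enc_rat _ 59990999 1000000000) (c3g.enc h1)) (enc_add (enc_sub (enc_rat _ 11783979699 12869000000) (enc_scaleT 149000 244511 (c3g.enc h1))) (enc_mul (enc_norm (bx1q3_3.enc h1 h2)) (enc_norm (enc_subr 22101947 30885600000 (enc_scaleT 8750 733533 (c3g.enc h1)))))) (enc_add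 (enc_sub (enc_rat _ 91569 100000) (enc_scaleT 36560000 59990999 (c3g.enc h1))) (enc_mul (enc_norm (bx1q3_3.enc h1 h2)) (enc_norm (enc_subr 7 10000 (enc_scaleT 700000 59990999 (c3g.enc h1))))))))))⟩
noncomputable def rxq3_36 : Fn3 := ⟨_, _, fun h1 h2 h3 => (enc_add (enc_mul h1 (bx3q3.enc h2 h3)) (enc_mul (enc_norm (enc_mul (enc_norm (enc_sub (enc_pnc _ 1) (lm2r.enc h1 h2))) (cv2r.enc h2))) (enc_norm (enc_sub (bx2q3.enc h2 h3) (bx3q3.enc h2 h3)))))⟩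
noncomputable def rxq3_37 : Fn3 := ⟨_, _, fun h1 h2 h3 => (enc_subn 1 h2)⟩
noncomputable def rxq3_49 : Fn3 := ⟨_, _, fun h1 h2 h3 => (enc_sub (qsg.enc (enc_norm (rxq3_37.enc h1 h2 h3))) (enc_mul (enc_norm (enc_nat 2 (enc_sub (rxq3_37.enc h1 h2 h3) h3))) (enc_norm (enc_mul (esg.enc (enc_norm (rxq3_37.enc h1 h2 h3))) (kcg.enc (enc_norm (enc_sub (enc_scaleT 3 4 (rxq3_37.enc h1 h2 h3)) (enc_half (gsg.enc (enc_norm (rxq3_37.enc h1 h2 h3)))))) h3)))))⟩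
noncomputable def rxq3_54 : Fn3 := ⟨_, _, fun h1 h2 h3 => (enc_subr 1 2 (swg.enc h2))⟩
noncomputable def rxq3_55 : Fn3 := ⟨_, _, fun h1 h2 h3 => (enc_sub h1 (cv2r.enc h2))⟩
noncomputable def rxq3 : Fn3 := ⟨_, _, fun h1 h2 h3 => (enc_case (enc_sub h1 (cv1r.enc h2)) (enc_mul h1 (bx1q3.enc h2 h3)) (enc_case (rxq3_55.enc h1 h2 h3) (enc_add (enc_mul h1 (bx2q3.enc h2 h3)) (enc_mul (enc_norm (enc_mul (enc_norm (enc_sub (enc_pnc _ 1) (lm1r.enc h1 h2))) (cv1r.enc h2))) (enc_norm (enc_sub (bx1q3.enc h2 h3) (bx2q3.enc h2 h3))))) (enc_case (enc_sub h1 (cv3r.enc h2)) (enc_case (enc_subr 979 500 h2) (rxq3_36.enc h1 h2 h3) (enc_case (enc_subr 247 125 h2) (enc_wL (enc_add (l2q3.enc h2 h3) (enc_mul (enc_norm (enc_mul (enc_norm (rxq3_55.enc h1 h2 h3)) (enc_inv (enc_sub (rxq3_54.enc h1 h2 h3) (cv2r.enc h2))))) (enc_norm (enc_sub (rxq3_49.enc h1 h2 h3) (l2q3.enc h2 h3))))) h1 (rxq3_54.enc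 h1 h2 h3) (cv2r.enc h2) (rxq3_49.enc h1 h2 h3) (l2q3.enc h2 h3) rfl) (rxq3_36.enc h1 h2 h3))) (enc_case (enc_sub h1 (cv4r.enc h2)) (enc_add (enc_mul h1 (bx4q3.enc h2 h3)) (enc_mul (enc_norm (enc_sub (enc_pnc _ 1) (lm3r.enc h1 h2))) (enc_norm (enc_sub (l3q3.enc h2 h3) (enc_mul (cv3r.enc h2) (bx4q3.enc h2 h3)))))) (enc_add (l4q3.enc h2 h3) (enc_mul (lm4r.enc h1 h2) (enc_norm (enc_sub (l5q3.enc h2 h3) (l4q3.enc h2 h3)))))))))⟩
noncomputable def rlq3 : Fn3 := ⟨_, _, fun h1 h2 h3 => (enc_case h1 (enc_neg (rxq3.enc (enc_neg h1) h2 h3)) (rxq3.enc h1 h2 h3))⟩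
noncomputable def bd3q0_3 : Fn2 := ⟨_, _, fun h1 h2 => (enc_subr 309 320 h2)⟩
noncomputable def bd3q0 : Fn2 := ⟨_, _, fun h1 h2 => (enc_norm (enc_case (enc_subr 33 1000 h1) (enc_case (enc_subr 1 100 h1) (enc_add (enc_subr 1847 10000 (enc_neg (enc_scaleT 2093 50 h1))) (enc_mul (enc_norm (bd3q0_3.enc h1 h2)) (enc_norm (enc_add (enc_scaleT 6632 5 h1) (enc_rat _ 17 4))))) (enc_add (enc_subr 1291868757 7000000000 (enc_neg (enc_scaleT 2931231243 70000000 h1))) (enc_mul (enc_norm (bd3q0_3.enc h1 h2)) (enc_norm (enc_add (enc_scaleT 18569338317 14000000 h1) (enc_rat _ 5950261683 1400000000)))))) (enc_add (enc_subr 634138389 366400000 (enc_scaleT 317055829 183200000 h1)) (enc_mul (enc_norm (bd3q0_3.enc h1 h2)) (enc_norm (enc_subr 13200097983 916000000 (enc_scaleT 6600317983 458000000 h1)))))))⟩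
noncomputable def rcq0_36 : Fn3 := ⟨_, _, fun h1 h2 h3 => (enc_add (enc_mul h1 (bd3q0.enc h2 h3)) (enc_mul (enc_norm (enc_mul (enc_norm (enc_sub (enc_pnc _ 1) (lm2m.enc h1 h2))) (cv2m.enc h2))) (enc_norm (enc_sub (bd2q0.enc h2 h3) (bd3q0.enc h2 h3)))))⟩
noncomputable def rcq0_38 : Fn3 := ⟨_, _, fun h1 h2 h3 => (enc_sub (enc_pnc _ 1) h2)⟩
noncomputable def rcq0_39 : Fn3 := ⟨_, _, fun h1 h2 h3 => (gsg.enc (enc_norm (rcq0_38.enc h1 h2 h3)))⟩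
noncomputable def rcq0_43 : Fn3 := ⟨_, _, fun h1 h2 h3 => (esg.enc (enc_norm (rcq0_38.enc h1 h2 h3)))⟩
noncomputable def rcq0_47 : Fn3 := ⟨_, _, fun h1 h2 h3 => (gug.enc (enc_norm (rcq0_38.enc h1 h2 h3)))⟩
noncomputable def rcq0_49 : Fn3 := ⟨_, _, fun h1 h2 h3 => (enc_mul (enc_norm (rcq0_38.enc h1 h2 h3)) (enc_inv (rcq0_39.enc h1 h2 h3)))⟩
noncomputable def rcq0_50 : Fn3 := ⟨_, _, fun h1 h2 h3 => (enc_scaleT 3 4 (rcq0_49.enc h1 h2 h3))⟩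
noncomputable def rcq0_77 : Fn3 := ⟨_, _, fun h1 h2 h3 => (enc_add (enc_sub (enc_neg (enc_add (enc_add (enc_rat _ 3 4) (enc_scaleT 3 2 (rcq0_38.enc h1 h2 h3))) (enc_scaleT 3 4 (enc_mul (enc_norm (rcq0_49.enc h1 h2 h3)) (rcq0_47.enc h1 h2 h3))))) (enc_wT (enc_mul (enc_norm (enc_sub (enc_mul (enc_norm (enc_mul (enc_norm (rcq0_50.enc h1 h2 h3)) (enc_norm (enc_subn 3 (enc_nat 4 (rcq0_39.enc h1 h2 h3)))))) (rcq0_43.enc h1 h2 h3)) (enc_mul (qsg.enc (enc_norm (rcq0_38.enc h1 h2 h3))) (enc_norm (enc_sub (enc_rat _ 1 2) (rcq0_50.enc h1 h2 h3)))))) (enc_inv (enc_mul (enc_nat 2 (rcq0_43.enc h1 h2 h3)) (rcq0_43.enc h1 h2 h3)))) (rcq0_38.enc h1 h2 h3) (rcq0_39.enc h1 h2 h3) (rcq0_43.enc h1 h2 h3) rfl rfl rfl rfl)) (enc_mul (kcg.enc (enc_norm (enc_sub (enc_scaleT 3 4 (rcq0_38.enc h1 h2 h3)) (enc_half (rcq0_39.enc h1 h2 h3)))) h3) (enc_norm (enc_add (enc_pnc _ 1) (enc_add (rcq0_47.enc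 h1 h2 h3) (enc_nat 2 (rcq0_39.enc h1 h2 h3)))))))⟩
noncomputable def rcq0_80 : Fn3 := ⟨_, _, fun h1 h2 h3 => (enc_add (swg.enc h2) (enc_rat _ 1 2))⟩
noncomputable def rcq0_81 : Fn3 := ⟨_, _, fun h1 h2 h3 => (enc_sub h1 (cv2m.enc h2))⟩
noncomputable def rcq0 : Fn3 := ⟨_, _, fun h1 h2 h3 => (enc_case (enc_sub h1 (cv1m.enc h2)) (enc_add (enc_mul h1 (bd1q0.enc h2 h3)) (enc_mul (enc_norm (enc_sub (enc_pnc _ 1) (lm0m.enc h1 h2))) (enc_norm (enc_sub (kc0q0.enc h2 h3) (enc_mul (c1g.enc h2) (bd1q0.enc h2 h3)))))) (enc_case (rcq0_81.enc h1 h2 h3) (enc_add (enc_mul h1 (bd2q0.enc h2 h3)) (enc_mul (enc_norm (enc_mul (enc_norm (enc_sub (enc_pnc _ 1) (lm1m.enc h1 h2))) (cv1m.enc h2))) (enc_norm (enc_sub (bd1q0.enc h2 h3) (bd2q0.enc h2 h3))))) (enc_case (enc_sub h1 (cv3m.enc h2)) (enc_case (enc_subr 3 125 h2) (rcq0_36.enc h1 h2 h3) (enc_case (enc_subr 21 500 h2) (enc_wL (enc_add (kc2q0.enc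 h2 h3) (enc_mul (enc_norm (enc_mul (enc_norm (rcq0_81.enc h1 h2 h3)) (enc_inv (enc_sub (rcq0_80.enc h1 h2 h3) (cv2m.enc h2))))) (enc_norm (enc_sub (rcq0_77.enc h1 h2 h3) (kc2q0.enc h2 h3))))) h1 (rcq0_80.enc h1 h2 h3) (cv2m.enc h2) (rcq0_77.enc h1 h2 h3) (kc2q0.enc h2 h3) rfl) (rcq0_36.enc h1 h2 h3))) (enc_case (enc_sub h1 (cv4m.enc h2)) (enc_add (enc_mul h1 (bd4q0.enc h2 h3)) (enc_mul (enc_norm (enc_sub (enc_pnc _ 1) (lm3m.enc h1 h2))) (enc_norm (enc_sub (kc3q0.enc h2 h3) (enc_mul (cv3m.enc h2) (bd4q0.enc h2 h3)))))) (enc_add (kc4q0.enc h2 h3) (enc_mul (lm4m.enc h1 h2) (enc_norm (enc_sub (kc5q0.enc h2 h3) (kc4q0.enc h2 h3)))))))))⟩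
noncomputable def pd0 : Fn3 := ⟨_, _, fun h1 h2 h3 => (enc_case h1 (enc_neg (rcq0.enc (enc_neg h1) h2 h3)) (rcq0.enc h1 h2 h3))⟩
noncomputable def rcq1 : Fn3 := ⟨_, _, fun h1 h2 h3 => (enc_case (enc_sub h1 (cv1m.enc h2)) (enc_add (enc_mul h1 (bd1q1.enc h2 h3)) (enc_mul (enc_norm (enc_sub (enc_pnc _ 1) (lm0m.enc h1 h2))) (enc_norm (enc_sub (kc0q1.enc h2 h3) (enc_mul (c1g.enc h2) (bd1q1.enc h2 h3)))))) (enc_case (enc_sub h1 (cv2m.enc h2)) (enc_add (enc_mul h1 (bd2q1.enc h2 h3)) (enc_mul (enc_norm (enc_mul (enc_norm (enc_sub (enc_pnc _ 1) (lm1m.enc h1 h2))) (cv1m.enc h2))) (enc_norm (enc_sub (bd1q1.enc h2 h3) (bd2q1.enc h2 h3))))) (enc_case (enc_sub h1 (cv3m.enc h2)) (enc_add (enc_mul h1 (bd3q1.enc h2 h3)) (enc_mul (enc_norm (enc_mul (enc_norm (enc_sub (enc_pnc _ 1) (lm2m.enc h1 h2))) (cv2m.enc h2))) (enc_norm (enc_sub (bd2q1.enc h2 h3) (bd3q1.enc h2 h3))))) (enc_case (enc_sub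 h1 (cv4m.enc h2)) (enc_add (enc_mul h1 (bd4q1.enc h2 h3)) (enc_mul (enc_norm (enc_mul (enc_norm (enc_sub (enc_pnc _ 1) (lm3m.enc h1 h2))) (cv3m.enc h2))) (enc_norm (enc_sub (bd3q1.enc h2 h3) (bd4q1.enc h2 h3))))) (enc_add (kc4q1.enc h2 h3) (enc_mul (lm4m.enc h1 h2) (enc_norm (enc_sub (kc5q1.enc h2 h3) (kc4q1.enc h2 h3)))))))))⟩
noncomputable def pd1 : Fn3 := ⟨_, _, fun h1 h2 h3 => (enc_case h1 (enc_neg (rcq1.enc (enc_neg h1) h2 h3)) (rcq1.enc h1 h2 h3))⟩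
noncomputable def kc0q2_15 : Fn2 := ⟨_, _, fun h1 h2 => (enc_scaleT 5567 400 (c1g.enc h1))⟩
noncomputable def kc0q2 : Fn2 := ⟨_, _, fun h1 h2 => (enc_norm (enc_case (enc_subr 1 10 (c1g.enc h1)) (enc_pnc _ 0) (enc_case (enc_subr 3 10 (c1g.enc h1)) (enc_sub (enc_rat _ 5567 4000) (kc0q2_15.enc h1 h2)) (enc_subr 5567 800 (kc0q2_15.enc h1 h2)))))⟩
noncomputable def n0d : Fn2 := ⟨_, _, fun h1 h2 => (enc_pnc _ 0)⟩
noncomputable def rcq2_51 : Fn3 := ⟨_, _, fun h1 h2 h3 => (enc_mul h1 (bd1q2.enc h2 h3))⟩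
noncomputable def rcq2_53 : Fn3 := ⟨_, _, fun h1 h2 h3 => (enc_sub (enc_pnc _ 1) (lm0p.enc h1 h2))⟩
noncomputable def rcq2 : Fn3 := ⟨_, _, fun h1 h2 h3 => (enc_case (enc_sub h1 (cv1p.enc h2)) (enc_case (enc_subr 1149 1000 h2) (enc_add (rcq2_51.enc h1 h2 h3) (enc_mul (enc_norm (rcq2_53.enc h1 h2 h3)) (enc_norm (enc_sub (kc0q2.enc h2 h3) (enc_mul (c1g.enc h2) (bd1q2.enc h2 h3)))))) (enc_case (enc_subr 2887 2500 h2) (enc_add (rcq2_51.enc h1 h2 h3) (enc_mul (enc_norm (rcq2_53.enc h1 h2 h3)) (enc_norm (enc_mul (c1g.enc h2) (enc_norm (enc_sub (n0d.enc h2 h3) (bd1q2.enc h2 h3))))))) (rcq2_51.enc h1 h2 h3))) (enc_case (enc_sub h1 (cv2p.enc h2)) (enc_add (enc_mul h1 (bd2q2.enc h2 h3)) (enc_mul (enc_norm (enc_mul (enc_norm (enc_sub (enc_pnc _ 1) (lm1p.enc h1 h2))) (cv1p.enc h2))) (enc_norm (enc_sub (bd1q2.enc h2 h3) (bd2q2.enc h2 h3))))) (enc_case (enc_sub h1 (cv3p.enc h2)) (enc_add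 (enc_mul h1 (bd3q2.enc h2 h3)) (enc_mul (enc_norm (enc_mul (enc_norm (enc_sub (enc_pnc _ 1) (lm2p.enc h1 h2))) (cv2p.enc h2))) (enc_norm (enc_sub (bd2q2.enc h2 h3) (bd3q2.enc h2 h3))))) (enc_case (enc_sub h1 (cv4p.enc h2)) (enc_add (enc_mul h1 (bd4q2.enc h2 h3)) (enc_mul (enc_norm (enc_mul (enc_norm (enc_sub (enc_pnc _ 1) (lm3p.enc h1 h2))) (cv3p.enc h2))) (enc_norm (enc_sub (bd3q2.enc h2 h3) (bd4q2.enc h2 h3))))) (enc_add (kc4q2.enc h2 h3) (enc_mul (lm4p.enc h1 h2) (enc_norm (enc_sub (kc5q2.enc h2 h3) (kc4q2.enc h2 h3)))))))))⟩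
noncomputable def pd2 : Fn3 := ⟨_, _, fun h1 h2 h3 => (enc_case h1 (enc_neg (rcq2.enc (enc_neg h1) h2 h3)) (rcq2.enc h1 h2 h3))⟩
noncomputable def kc4q3 : Fn2 := ⟨_, _, fun h1 h2 => (enc_norm (enc_mul (cv4r.enc h1) (enc_norm (enc_case (enc_subr 197 100 h1) (enc_case (enc_subr 979 500 h1) (enc_subr 4750292 143125 (enc_scaleT 106769 4580 h1)) (enc_subr 1990957 60000 (enc_scaleT 2797 120 h1))) (enc_case (enc_subr 247 125 h1) (enc_subr 995971 30000 (enc_scaleT 1399 60 h1)) (enc_add (enc_add (enc_scaleT 764762450000 22338083827 (c3g.enc h1)) (enc_rat _ 12411 3340)) (enc_mul (enc_norm (enc_subr 309 320 h2)) (enc_norm (enc_subr 57574 167 (enc_scaleT 28787000000000 22338083827 (c3g.enc h1)))))))))))⟩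
noncomputable def kc5q3_3 : Fn2 := ⟨_, _, fun h1 h2 => (enc_subr 309 320 h2)⟩
noncomputable def kc5q3_9 : Fn2 := ⟨_, _, fun h1 h2 => (enc_sub (enc_half (c3g.enc h1)) (enc_scaleT 1 4 h1))⟩
noncomputable def kc5q3_28 : Fn2 := ⟨_, _, fun h1 h2 => (enc_neg (enc_scaleT 1919 332 (kc5q3_9.enc h1 h2)))⟩
noncomputable def kc5q3_33 : Fn2 := ⟨_, _, fun h1 h2 => (enc_neg (enc_nat 1036 (kc5q3_9.enc h1 h2)))⟩
noncomputable def kc5q3 : Fn2 := ⟨_, _, fun h1 h2 => (enc_norm (enc_case (kc5q3_9.enc h1 h2) (enc_case (enc_add (kc5q3_9.enc h1 h2) (enc_rat _ 333 1000)) (enc_add (enc_add (enc_scaleT 12411 1670 (kc5q3_9.enc h1 h2)) (enc_rat _ 12411 3340)) (enc_mul (enc_norm (kc5q3_3.enc h1 h2)) (enc_norm (enc_subr 57574 167 (enc_neg (enc_scaleT 115148 167 (kc5q3_9.enc h1 h2))))))) (enc_case (enc_add (kc5q3_9.enc h1 h2) (enc_rat _ 167 1000)) (enc_add (enc_subr 1134909 1660000 (kc5q3_28.enc h1 h2))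 (enc_mul (enc_norm (kc5q3_3.enc h1 h2)) (enc_norm (enc_subr 57517 125 (kc5q3_33.enc h1 h2))))) (enc_add (enc_subr 1709 2500 (enc_neg (enc_scaleT 4826 835 (kc5q3_9.enc h1 h2)))) (enc_mul (enc_norm (kc5q3_3.enc h1 h2)) (enc_norm (enc_subr 92027 200 (enc_neg (enc_scaleT 173011 167 (kc5q3_9.enc h1 h2))))))))) (enc_case (enc_subr 167 1000 (kc5q3_9.enc h1 h2)) (enc_add (enc_subr 1709 2500 (enc_neg (enc_scaleT 9653 1670 (kc5q3_9.enc h1 h2)))) (enc_mul (enc_norm (kc5q3_3.enc h1 h2)) (enc_norm (enc_subr 92027 200 (kc5q3_33.enc h1 h2))))) (enc_case (enc_subr 333 1000 (kc5q3_9.enc h1 h2)) (enc_add (enc_subr 1134809 1660000 (kc5q3_28.enc h1 h2)) (enc_mul (enc_norm (kc5q3_3.enc h1 h2)) (enc_norm (enc_subr 76382577 166000 (enc_neg (enc_scaleT 171975 166 (kc5q3_9.enc h1 h2))))))) (enc_add (enc_subr 6521 835 (enc_scaleT 13042 835 (kc5q3_9.enc h1 h2))) (enc_mul (enc_norm (kc5q3_3.enc h1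 h2)) (enc_norm (enc_subr 402561 167 (enc_scaleT 805122 167 (kc5q3_9.enc h1 h2))))))))))⟩
noncomputable def bd4q3 : Fn2 := ⟨_, _, fun h1 h2 => (enc_norm (enc_case (enc_subr 197 100 h1) (enc_case (enc_subr 979 500 h1) (enc_subr 4750292 143125 (enc_scaleT 106769 4580 h1)) (enc_subr 1990957 60000 (enc_scaleT 2797 120 h1))) (enc_case (enc_subr 247 125 h1) (enc_subr 995971 30000 (enc_scaleT 1399 60 h1)) (enc_add (enc_add (enc_scaleT 764762450000 22338083827 (c3g.enc h1)) (enc_rat _ 12411 3340)) (enc_mul (enc_norm (enc_subr 309 320 h2)) (enc_norm (enc_subr 57574 167 (enc_scaleT 28787000000000 22338083827 (c3g.enc h1)))))))))⟩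
noncomputable def kc3q3_4 : Fn2 := ⟨_, _, fun h1 h2 => (enc_subr 309 320 h2)⟩
noncomputable def kc3q3_28 : Fn2 := ⟨_, _, fun h1 h2 => (enc_subn 1 h1)⟩
noncomputable def kc3q3_29 : Fn2 := ⟨_, _, fun h1 h2 => (gsg.enc (enc_norm (kc3q3_28.enc h1 h2)))⟩
noncomputable def kc3q3_33 : Fn2 := ⟨_, _, fun h1 h2 => (esg.enc (enc_norm (kc3q3_28.enc h1 h2)))⟩
noncomputable def kc3q3_38 : Fn2 := ⟨_, _, fun h1 h2 => (gug.enc (enc_norm (kc3q3_28.enc h1 h2)))⟩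
noncomputable def kc3q3_40 : Fn2 := ⟨_, _, fun h1 h2 => (enc_mul (enc_norm (kc3q3_28.enc h1 h2)) (enc_inv (kc3q3_29.enc h1 h2)))⟩
noncomputable def kc3q3_41 : Fn2 := ⟨_, _, fun h1 h2 => (enc_scaleT 3 4 (kc3q3_40.enc h1 h2))⟩
noncomputable def kc3q3_70 : Fn2 := ⟨_, _, fun h1 h2 => (enc_subr 979 500 h1)⟩
noncomputable def kc3q3_76 : Fn2 := ⟨_, _, fun h1 h2 => (enc_subr 247 125 h1)⟩
noncomputable def kc3q3_92 : Fn2 := ⟨_, _, fun h1 h2 => (enc_mul (cv2r.enc h1) (enc_norm (enc_case (kc3q3_70.enc h1 h2) (enc_subr 73812131 2290000 (enc_scaleT 36906 1145 h1)) (enc_case (kc3q3_76.enc h1 h2) (enc_subr 967031 30000 (enc_scaleT 967 30 h1)) (enc_add (enc_add (enc_scaleT 15553650000 133760981 (c3g.enc h1)) (enc_rat _ 1757 5000)) (enc_mul (enc_norm (kc3q3_4.enc h1 h2)) (enc_norm (enc_subr 182971 1000 (enc_scaleT 5381500000 7868293 (c3g.enc h1))))))))))⟩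
noncomputable def kc3q3 : Fn2 := ⟨_, _, fun h1 h2 => (enc_norm (enc_case (kc3q3_70.enc h1 h2) (enc_mul (cv3r.enc h1) (enc_norm (enc_add (enc_subr 30019316131 1832000000 (enc_scaleT 13632577377 916000000 h1)) (enc_mul (enc_norm (kc3q3_4.enc h1 h2)) (enc_norm (enc_subr 484323 458000000 (enc_scaleT 161441 229000000 h1))))))) (enc_case (kc3q3_76.enc h1 h2) (enc_add (kc3q3_92.enc h1 h2) (enc_mul (enc_norm (enc_mul (enc_norm (enc_sub (enc_add (enc_sub (enc_add (enc_add (enc_rat _ 3 4) (enc_scaleT 3 2 (kc3q3_28.enc h1 h2))) (enc_scaleT 3 4 (enc_mul (enc_norm (kc3q3_40.enc h1 h2)) (kc3q3_38.enc h1 h2)))) (enc_wT (enc_mul (enc_norm (enc_sub (enc_mul (enc_norm (enc_mul (enc_norm (kc3q3_41.enc h1 h2)) (enc_norm (enc_subn 3 (enc_nat 4 (kc3q3_29.enc h1 h2)))))) (kc3q3_33.enc h1 h2)) (enc_mul (qsg.enc (enc_norm (kc3q3_28.enc h1 h2))) (enc_norm (enc_sub (enc_rat _ 1 2) (kc3q3_41.enc h1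 h2)))))) (enc_inv (enc_mul (enc_nat 2 (kc3q3_33.enc h1 h2)) (kc3q3_33.enc h1 h2)))) (kc3q3_28.enc h1 h2) (kc3q3_29.enc h1 h2) (kc3q3_33.enc h1 h2) rfl rfl rfl rfl)) (enc_mul (kcg.enc (enc_norm (enc_sub (enc_scaleT 3 4 (kc3q3_28.enc h1 h2)) (enc_half (kc3q3_29.enc h1 h2)))) h2) (enc_norm (enc_sub (enc_pnc _ 1) (enc_add (kc3q3_38.enc h1 h2) (enc_nat 2 (kc3q3_29.enc h1 h2))))))) (kc3q3_92.enc h1 h2))) (enc_norm (enc_sub (cv3r.enc h1) (cv2r.enc h1))))) (enc_inv (enc_sub (enc_subr 1 2 (swg.enc h1)) (cv2r.enc h1))))) (enc_mul (cv3r.enc h1) (enc_norm (enc_add (enc_add (enc_scaleT 24295599658607 446761676540 (c3g.enc h1)) (enc_rat _ 12411 3340)) (enc_mul (enc_norm (kc3q3_4.enc h1 h2)) (enc_norm (enc_subr 57574 167 (enc_scaleT 7041523307405 22338083827 (c3g.enc h1)))))))))))⟩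
noncomputable def bd3q3_3 : Fn2 := ⟨_, _, fun h1 h2 => (enc_subr 309 320 h2)⟩
noncomputable def bd3q3 : Fn2 := ⟨_, _, fun h1 h2 => (enc_norm (enc_case (enc_subr 1967 1000 h1) (enc_add (enc_subr 30019316131 1832000000 (enc_scaleT 13632577377 916000000 h1)) (enc_mul (enc_norm (bd3q3_3.enc h1 h2)) (enc_norm (enc_subr 484323 458000000 (enc_scaleT 161441 229000000 h1))))) (enc_add (enc_add (enc_scaleT 24295599658607 446761676540 (c3g.enc h1)) (enc_rat _ 12411 3340)) (enc_mul (enc_norm (bd3q3_3.enc h1 h2)) (enc_norm (enc_subr 57574 167 (enc_scaleT 7041523307405 22338083827 (c3g.enc h1))))))))⟩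
noncomputable def bd2q3 : Fn2 := ⟨_, _, fun h1 h2 => (enc_norm (enc_case (enc_subr 979 500 h1) (enc_subr 73812131 2290000 (enc_scaleT 36906 1145 h1)) (enc_case (enc_subr 247 125 h1) (enc_subr 967031 30000 (enc_scaleT 967 30 h1)) (enc_add (enc_add (enc_scaleT 15553650000 133760981 (c3g.enc h1)) (enc_rat _ 1757 5000)) (enc_mul (enc_norm (enc_subr 309 320 h2)) (enc_norm (enc_subr 182971 1000 (enc_scaleT 5381500000 7868293 (c3g.enc h1)))))))))⟩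
noncomputable def bd1q3 : Fn2 := ⟨_, _, fun h1 h2 => (enc_norm (enc_case (enc_subr 247 125 h1) (enc_pnc _ 0) (enc_subr 43493 2500 (enc_scaleT 8698600000 133760981 (c3g.enc h1)))))⟩
noncomputable def rcq3_36 : Fn3 := ⟨_, _, fun h1 h2 h3 => (enc_add (enc_mul h1 (bd3q3.enc h2 h3)) (enc_mul (enc_norm (enc_mul (enc_norm (enc_sub (enc_pnc _ 1) (lm2r.enc h1 h2))) (cv2r.enc h2))) (enc_norm (enc_sub (bd2q3.enc h2 h3) (bd3q3.enc h2 h3)))))⟩
noncomputable def rcq3_37 : Fn3 := ⟨_, _, fun h1 h2 h3 => (enc_subn 1 h2)⟩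
noncomputable def rcq3_38 : Fn3 := ⟨_, _, fun h1 h2 h3 => (gsg.enc (enc_norm (rcq3_37.enc h1 h2 h3)))⟩
noncomputable def rcq3_42 : Fn3 := ⟨_, _, fun h1 h2 h3 => (esg.enc (enc_norm (rcq3_37.enc h1 h2 h3)))⟩
noncomputable def rcq3_47 : Fn3 := ⟨_, _, fun h1 h2 h3 => (gug.enc (enc_norm (rcq3_37.enc h1 h2 h3)))⟩
noncomputable def rcq3_49 : Fn3 := ⟨_, _, fun h1 h2 h3 => (enc_mul (enc_norm (rcq3_37.enc h1 h2 h3)) (enc_inv (rcq3_38.enc h1 h2 h3)))⟩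
noncomputable def rcq3_50 : Fn3 := ⟨_, _, fun h1 h2 h3 => (enc_scaleT 3 4 (rcq3_49.enc h1 h2 h3))⟩
noncomputable def rcq3_76 : Fn3 := ⟨_, _, fun h1 h2 h3 => (enc_add (enc_sub (enc_add (enc_add (enc_rat _ 3 4) (enc_scaleT 3 2 (rcq3_37.enc h1 h2 h3))) (enc_scaleT 3 4 (enc_mul (enc_norm (rcq3_49.enc h1 h2 h3)) (rcq3_47.enc h1 h2 h3)))) (enc_wT (enc_mul (enc_norm (enc_sub (enc_mul (enc_norm (enc_mul (enc_norm (rcq3_50.enc h1 h2 h3)) (enc_norm (enc_subn 3 (enc_nat 4 (rcq3_38.enc h1 h2 h3)))))) (rcq3_42.enc h1 h2 h3)) (enc_mul (qsg.enc (enc_norm (rcq3_37.enc h1 h2 h3))) (enc_norm (enc_sub (enc_rat _ 1 2) (rcq3_50.enc h1 h2 h3)))))) (enc_inv (enc_mul (enc_nat 2 (rcq3_42.enc h1 h2 h3)) (rcq3_42.enc h1 h2 h3)))) (rcq3_37.enc h1 h2 h3) (rcq3_38.enc h1 h2 h3) (rcq3_42.enc h1 h2 h3) rfl rfl rfl rfl)) (enc_mul (kcg.enc (enc_norm (enc_sub (enc_scaleT 3 4 (rcq3_37.enc h1 h2 h3)) (enc_half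 (rcq3_38.enc h1 h2 h3)))) h3) (enc_norm (enc_sub (enc_pnc _ 1) (enc_add (rcq3_47.enc h1 h2 h3) (enc_nat 2 (rcq3_38.enc h1 h2 h3)))))))⟩
noncomputable def rcq3_80 : Fn3 := ⟨_, _, fun h1 h2 h3 => (enc_subr 1 2 (swg.enc h2))⟩
noncomputable def rcq3_81 : Fn3 := ⟨_, _, fun h1 h2 h3 => (enc_sub h1 (cv2r.enc h2))⟩
noncomputable def rcq3 : Fn3 := ⟨_, _, fun h1 h2 h3 => (enc_case (enc_sub h1 (cv1r.enc h2)) (enc_mul h1 (bd1q3.enc h2 h3)) (enc_case (rcq3_81.enc h1 h2 h3) (enc_add (enc_mul h1 (bd2q3.enc h2 h3)) (enc_mul (enc_norm (enc_mul (enc_norm (enc_sub (enc_pnc _ 1) (lm1r.enc h1 h2))) (cv1r.enc h2))) (enc_norm (enc_sub (bd1q3.enc h2 h3) (bd2q3.enc h2 h3))))) (enc_case (enc_sub h1 (cv3r.enc h2)) (enc_case (enc_subr 979 500 h2) (rcq3_36.enc h1 h2 h3) (enc_case (enc_subr 247 125 h2) (enc_wL (enc_add (kc2q3.enc h2 h3) (enc_mul (enc_norm (enc_mul (enc_norm (rcq3_81.enc h1 h2 h3)) (enc_inv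 (enc_sub (rcq3_80.enc h1 h2 h3) (cv2r.enc h2))))) (enc_norm (enc_sub (rcq3_76.enc h1 h2 h3) (kc2q3.enc h2 h3))))) h1 (rcq3_80.enc h1 h2 h3) (cv2r.enc h2) (rcq3_76.enc h1 h2 h3) (kc2q3.enc h2 h3) rfl) (rcq3_36.enc h1 h2 h3))) (enc_case (enc_sub h1 (cv4r.enc h2)) (enc_add (enc_mul h1 (bd4q3.enc h2 h3)) (enc_mul (enc_norm (enc_sub (enc_pnc _ 1) (lm3r.enc h1 h2))) (enc_norm (enc_sub (kc3q3.enc h2 h3) (enc_mul (cv3r.enc h2) (bd4q3.enc h2 h3)))))) (enc_add (kc4q3.enc h2 h3) (enc_mul (lm4r.enc h1 h2) (enc_norm (enc_sub (kc5q3.enc h2 h3) (kc4q3.enc h2 h3)))))))))⟩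
noncomputable def pd3 : Fn3 := ⟨_, _, fun h1 h2 h3 => (enc_case h1 (enc_neg (rcq3.enc (enc_neg h1) h2 h3)) (rcq3.enc h1 h2 h3))⟩
noncomputable def mug3 : Fn1 := ⟨_, _, fun h1 => (enc_inv (enc_add (enc_nat 2 (gsg.enc h1)) (enc_pnc _ 3)))⟩
noncomputable def eng : Fn1 := ⟨_, _, fun h1 => (enc_norm (enc_add (enc_pnc _ 1) (enc_mul (mug3.enc h1) (gug.enc h1))))⟩
noncomputable def mog : Fn1 := ⟨_, _, fun h1 => (enc_norm (enc_scaleT 1 20 (enc_mul (mug3.enc h1) (esg.enc h1))))⟩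
noncomputable def kf1q2 : Fn2 := ⟨_, _, fun h1 h2 => (enc_norm (enc_mul (cv1p.enc h1) (bf1q2.enc h1 h2)))⟩
noncomputable def l1q2 : Fn2 := ⟨_, _, fun h1 h2 => (enc_norm (enc_mul (cv1p.enc h1) (bx1q2.enc h1 h2)))⟩
noncomputable def kc1q2 : Fn2 := ⟨_, _, fun h1 h2 => (enc_norm (enc_mul (cv1p.enc h1) (bd1q2.enc h1 h2)))⟩
noncomputable def kf2q2 : Fn2 := ⟨_, _, fun h1 h2 => (enc_norm (enc_mul (cv2p.enc h1) (bf2q2.enc h1 h2)))⟩
noncomputable def l2q2 : Fn2 := ⟨_, _, fun h1 h2 => (enc_norm (enc_mul (cv2p.enc h1) (bx2q2.enc h1 h2)))⟩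
noncomputable def kc2q2 : Fn2 := ⟨_, _, fun h1 h2 => (enc_norm (enc_mul (cv2p.enc h1) (bd2q2.enc h1 h2)))⟩

noncomputable def ndB0q0 : Node := ⟨idf, c1g, kf0q0, l0q0⟩
noncomputable def cd0q0 : Fn2 := kc0q0
noncomputable def ndB0q1 : Node := ⟨idf, c1g, kf0q1, l0q1⟩
noncomputable def cd0q1 : Fn2 := kc0q1
noncomputable def ndB0q2 : Node := ⟨yag, idf, kfc02, lc02⟩
noncomputable def cd0q2 : Fn2 := kcc02
noncomputable def ndB1q0 : Node := ⟨idf, cv1m, kf1q0, l1q0⟩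
noncomputable def cd1q0 : Fn2 := kc1q0
noncomputable def ndB1q1 : Node := ⟨idf, cv1m, kf1q1, l1q1⟩
noncomputable def cd1q1 : Fn2 := kc1q1
noncomputable def ndB1q2a : Node := ⟨yag, xc12a, kfc12a, lc12a⟩
noncomputable def cd1q2a : Fn2 := kcc12a
noncomputable def ndB1q2b : Node := ⟨idf, xc12b, kfc12b, lc12b⟩
noncomputable def cd1q2b : Fn2 := kcc12b
noncomputable def ndB1q3 : Node := ⟨idf, cv1r, kf1q3, l1q3⟩
noncomputable def cd1q3 : Fn2 := kc1q3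
noncomputable def ndB2q0 : Node := ⟨idf, cv2m, kf2q0, l2q0⟩
noncomputable def cd2q0 : Fn2 := kc2q0
noncomputable def ndB2q1 : Node := ⟨idf, cv2m, kf2q1, l2q1⟩
noncomputable def cd2q1 : Fn2 := kc2q1
noncomputable def ndB2q2a : Node := ⟨yag, xc22a, kfc22a, lc22a⟩
noncomputable def cd2q2a : Fn2 := kcc22a
noncomputable def ndB2q2b : Node := ⟨idf, xc22b, kfc22b, lc22b⟩
noncomputable def cd2q2b : Fn2 := kcc22b
noncomputable def ndB2q3 : Node := ⟨idf, cv2r, kf2q3, l2q3⟩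
noncomputable def cd2q3 : Fn2 := kc2q3
noncomputable def ndB3q0 : Node := ⟨idf, cv3m, kf3q0, l3q0⟩
noncomputable def cd3q0 : Fn2 := kc3q0
noncomputable def ndB3q1 : Node := ⟨idf, cv3m, kf3q1, l3q1⟩
noncomputable def cd3q1 : Fn2 := kc3q1
noncomputable def ndB3q2 : Node := ⟨idf, cv3p, kf3q2, l3q2⟩
noncomputable def cd3q2 : Fn2 := kc3q2
noncomputable def ndB3q3 : Node := ⟨ycg, xc33, kfc33, lc33⟩
noncomputable def cd3q3 : Fn2 := kcc33
noncomputable def ndB4q0 : Node := ⟨idf, cv4m, kf4q0, l4q0⟩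
noncomputable def cd4q0 : Fn2 := kc4q0
noncomputable def ndB4q1 : Node := ⟨idf, cv4m, kf4q1, l4q1⟩
noncomputable def cd4q1 : Fn2 := kc4q1
noncomputable def ndB4q2 : Node := ⟨idf, cv4p, kf4q2, l4q2⟩
noncomputable def cd4q2 : Fn2 := kc4q2
noncomputable def ndB4q3 : Node := ⟨ycg, xc43, kfc43, lc43⟩
noncomputable def cd4q3 : Fn2 := kcc43
noncomputable def ndB5q0 : Node := ⟨idf, c3g, kf5q0, l5q0⟩
noncomputable def cd5q0 : Fn2 := kc5q0
noncomputable def ndB5q1 : Node := ⟨idf, c3g, kf5q1, l5q1⟩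
noncomputable def cd5q1 : Fn2 := kc5q1
noncomputable def ndB5q2 : Node := ⟨idf, c3g, kf5q2, l5q2⟩
noncomputable def cd5q2 : Fn2 := kc5q2
noncomputable def ndB5q3 : Node := ⟨ycg, idf, kfc53, lc53⟩
noncomputable def cd5q3 : Fn2 := kcc53
noncomputable def pcB0 : Piece := ⟨rsbq0, rlq0⟩
noncomputable def pcB1 : Piece := ⟨rsbq1, rlq1⟩
noncomputable def pcB2 : Piece := ⟨rsbq2, rlq2⟩
noncomputable def pcB3 : Piece := ⟨rsbq3, rlq3⟩
noncomputable def ndB1q2 : Node := ⟨idf, cv1p, kf1q2, l1q2⟩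
noncomputable def cd1q2 : Fn2 := kc1q2
noncomputable def ndB2q2 : Node := ⟨idf, cv2p, kf2q2, l2q2⟩
noncomputable def cd2q2 : Fn2 := kc2q2
end Pool.Agent.Strip051.G.I9625_9688.Tab
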