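import Pool.Agent.Strip051.G.I9625_9688.MolD

/-! # The tight charts of a table: certificates (generated) -/

set_option linter.all false
set_option maxRecDepth 100000

namespace Pool.Agent.Strip051.G.I9625_9688.Tab.Mo

open Pool.Agent.Strip051.PB Pool.Agent.Strip051.PB.Mol Pool.Agent.Strip051.PB.T
open Pool.Agent.Strip051.G.I9625_9688.Tab

noncomputable def f3Ap : ℕ → ℕ → ℕ → ℕ → Bool :=
  onCell 0 92274688 0 1048576 1033476505 6710887 (c3_Ap.row false 46137344)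

def h0_3Ap : ∃ t, chk3 f3Ap t 1 1 1 = true :=
  ⟨(a (a (l 7) (a (l 13) (a (l 13) (a (l 13) (c (a (l 13) (c (l 10) (l 10))) (a (l 13) (c (l 10) (l 10)))))))) (a (a (a (c (a (c (a (l 10) (l 2)) (a (l 10) (l 2))) (c (a (l 2) (l 2)) (a (l 2) (l 2)))) (a (c (a (l 10) (l 2)) (a (l 10) (l 2))) (c (a (l 2) (l 2)) (a (l 2) (c (l 2) (l 2)))))) (c (a (c (a (l 2) (l 2)) (a (l 2) (c (l 2) (l 2)))) (c (a (c (l 2) (l 2)) (c (l 2) (l 2))) (a (c (l 2) (l 2)) (c (a (l 2) (l 2)) (a (l 2) (l 2)))))) (a (c (a (c (l 2) (l 2)) (c (l 2) (l 2))) (a (c (l 2) (l 2)) (c (a (l 2) (l 2)) (b (l 2) (a (c (l 2) (l 2)) (b (l 2) (l 9))))))) (c (b (a (c (l 2) (l 2)) (c (l 2) (l 2))) (a (c (l 2) (a (l 2) (c (l 2) (l 9)))) (c (a (l 2) (l 9)) (l 9)))) (a (c (b (l 2) (a (c (l 2) (l 9)) (l 9))) (l 5)) (l 5)))))) (a (c (a (c (a (c (a (l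 2) (l 2)) (a (l 2) (l 2))) (c (a (l 2) (l 2)) (a (l 2) (l 5)))) (a (b (c (l 2) (l 2)) (c (a (l 2) (l 2)) (l 9))) (l 5))) (b (c (a (c (a (l 2) (l 5)) (l 5)) (l 5)) (l 5)) (l 9))) (l 5)) (l 5))) (l 5))), by decide +kernel⟩

theorem ct_3Ap : ∃ t, chk3 f3Ap t 1 1 1 = true := h0_3Ap

noncomputable def f3Apk1 : ℕ → ℕ → ℕ → ℕ → Bool :=
  onCell 0 92274688 0 1048576 1033476505 6710887 (c3_Apk1.row false 46137344)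

def h0_3Apk1 : ∃ t, chk3 f3Apk1 t 1 1 1 = true :=
  ⟨(a (a (l 7) (a (l 13) (a (l 13) (a (l 13) (c (l 10) (c (l 10) (l 10))))))) (a (a (a (c (a (c (l 10) (l 10)) (c (l 2) (l 2))) (a (c (l 10) (l 10)) (c (l 2) (a (l 2) (l 2))))) (c (a (c (l 2) (l 2)) (c (l 2) (a (l 2) (c (l 2) (l 2))))) (a (c (a (l 2) (l 2)) (a (c (l 2) (l 2)) (c (a (l 2) (l 2)) (a (l 2) (c (l 2) (b (l 2) (l 9))))))) (c (a (c (l 2) (a (l 2) (l 2))) (b (l 2) (c (a (l 2) (l 9)) (l 9)))) (a (c (b (l 2) (a (c (l 2) (l 9)) (l 9))) (l 5)) (l 5)))))) (a (c (a (c (a (l 2) (c (l 2) (a (l 2) (l 5)))) (a (c (a (l 2) (l 2)) (a (l 2) (l 5))) (l 5))) (b (c (a (l 2) (l 5)) (l 5)) (l 9))) (l 5)) (l 5))) (l 5))), by decide +kernel⟩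

theorem ct_3Apk1 : ∃ t, chk3 f3Apk1 t 1 1 1 = true := h0_3Apk1

noncomputable def f3Apk2 : ℕ → ℕ → ℕ → ℕ → Bool :=
  onCell 0 92274688 0 1048576 1033476505 6710887 (c3_Apk2.row false 46137344)

def h0_3Apk2 : ∃ t, chk3 f3Apk2 t 1 1 1 = true :=
  ⟨(a (a (l 7) (a (l 13) (a (l 13) (a (l 13) (c (l 10) (l 10)))))) (a (a (a (c (a (l 10) (c (l 2) (l 2))) (a (c (l 10) (l 10)) (c (l 2) (l 2)))) (c (a (c (l 2) (l 2)) (c (l 2) (a (l 2) (l 2)))) (a (c (a (l 2) (l 2)) (a (l 2) (c (l 2) (a (l 2) (l 2))))) (c (a (c (l 2) (l 2)) (c (l 2) (a (l 2) (l 5)))) (a (c (a (l 2) (l 2)) (l 5)) (l 5)))))) (a (c (a (c (a (l 2) (l 2)) (a (c (l 2) (l 2)) (l 5))) (b (c (l 2) (l 5)) (l 9))) (l 5)) (l 5))) (l 5))), by decide +kernel⟩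

theorem ct_3Apk2 : ∃ t, chk3 f3Apk2 t 1 1 1 = true := h0_3Apk2

noncomputable def f3Am : ℕ → ℕ → ℕ → ℕ → Bool :=
  onCell 0 92274688 0 1048576 1033476505 6710887 (c3_Am.row true 46137344)

def h0_3Am : ∃ t, chk3 f3Am t 1 1 1 = true :=
  ⟨(a (a (l 7) (a (l 13) (a (l 13) (a (l 13) (c (a (l 13) (c (l 10) (l 10))) (c (a (l 13) (l 10)) (a (l 13) (l 10)))))))) (a (a (a (c (a (c (a (c (l 10) (l 10)) (l 2)) (a (c (l 10) (l 10)) (l 2))) (c (a (l 2) (l 2)) (a (l 2) (l 2)))) (a (c (a (c (l 10) (l 10)) (l 2)) (a (c (l 10) (a (l 10) (l 10))) (l 2))) (c (a (l 2) (l 2)) (a (c (l 2) (l 2)) (c (l 2) (l 2)))))) (c (a (c (a (l 2) (l 2)) (a (l 2) (c (l 2) (l 2)))) (c (a (c (l 2) (l 2)) (c (l 2) (l 2))) (a (c (l 2) (l 2)) (c (l 2) (l 2))))) (a (c (a (c (l 2) (l 2)) (c (l 2) (l 2))) (a (c (l 2) (l 2)) (c (l 2) (a (l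 2) (l 2))))) (c (a (c (l 2) (a (l 2) (l 2))) (c (a (l 2) (l 2)) (a (l 2) (l 5)))) (a (c (a (l 2) (l 2)) (l 5)) (l 5)))))) (a (c (a (c (a (c (l 2) (l 2)) (c (a (l 2) (l 2)) (a (l 2) (l 5)))) (a (c (a (l 2) (l 2)) (a (l 2) (l 5))) (l 5))) (c (a (c (a (l 2) (l 5)) (l 5)) (l 5)) (l 5))) (l 5)) (l 5))) (l 5))), by decide +kernel⟩

theorem ct_3Am : ∃ t, chk3 f3Am t 1 1 1 = true := h0_3Am

noncomputable def f3Bp : ℕ → ℕ → ℕ → ℕ → Bool :=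
  onCell 0 92274688 0 1048576 1033476505 6710887 (c3_Bp.row false 46137344)

def h0_3Bp : ∃ t, chk3 f3Bp t 2 1 1 = true :=
  ⟨(a (l 7) (a (l 13) (a (l 13) (a (l 13) (c (a (l 13) (a (l 13) (a (l 13) (c (l 10) (l 10))))) (a (l 13) (a (l 13) (a (l 13) (c (l 10) (c (l 10) (l 10))))))))))), by decide +kernel⟩

def h1_3Bp : ∃ t, chk3 f3Bp t 24 1 1 = true :=
  ⟨(c (a (c (a (c (a (l 10) (l 10)) (a (l 10) (l 10))) (c (l 2) (l 2))) (a (c (a (l 10) (l 10)) (a (l 10) (b (l 2) (l 10)))) (c (a (l 2) (l 2)) (a (l 2) (l 2))))) (c (a (c (a (l 2) (l 2)) (a (l 2) (l 2))) (c (a (l 2) (l 2)) (a (l 2) (l 2)))) (a (c (a (l 2) (l 2)) (a (l 2) (l 2))) (c (a (l 2) (l 2)) (a (l 2) (l 2)))))) (a (c (a (c (a (l 10) (b (l 2) (l 10))) (a (l 10) (b (l 2) (l 10)))) (c (a (l 2) (l 2)) (a (l 2) (l 2)))) (a (c (a (l 10) (b (l 2) (l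 10))) (a (l 10) (b (l 2) (l 10)))) (c (a (l 2) (l 2)) (a (l 2) (l 2))))) (c (a (c (a (l 2) (l 2)) (a (l 2) (l 2))) (c (a (l 2) (l 2)) (a (l 2) (l 2)))) (a (c (a (l 2) (l 2)) (a (l 2) (l 2))) (c (a (l 2) (l 2)) (a (l 2) (b (l 2) (l 2)))))))), by decide +kernel⟩

def h2_3Bp : ∃ t, chk3 f3Bp t 25 1 2 = true :=
  ⟨(a (c (a (c (a (l 2) (l 2)) (a (l 2) (l 2))) (c (a (l 2) (l 2)) (a (l 2) (l 2)))) (a (c (a (l 2) (l 2)) (a (l 2) (l 2))) (c (a (l 2) (l 2)) (a (l 2) (b (l 2) (l 2)))))) (c (a (c (a (l 2) (l 2)) (a (l 2) (b (l 2) (l 2)))) (b (c (a (l 2) (l 2)) (a (l 2) (l 2))) (c (a (l 2) (l 2)) (a (l 2) (l 2))))) (a (b (c (a (l 2) (l 2)) (a (l 2) (l 2))) (c (a (l 2) (l 2)) (a (l 2) (l 2)))) (c (b (a (l 2) (l 2)) (a (l 2) (l 2))) (b (a (l 2) (l 2)) (a (l 2) (l 2))))))), by decide +kernel⟩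

def h3_3Bp : ∃ t, chk3 f3Bp t 25 1 3 = true :=
  ⟨(a (c (a (c (a (l 2) (l 2)) (a (l 2) (b (l 2) (l 2)))) (c (b (a (l 2) (l 2)) (a (l 2) (l 2))) (b (a (l 2) (l 2)) (a (l 2) (l 2))))) (a (c (b (a (l 2) (l 2)) (a (l 2) (l 2))) (b (a (l 2) (l 2)) (a (l 2) (l 2)))) (b (c (a (l 2) (l 2)) (a (l 2) (l 2))) (c (a (l 2) (l 2)) (a (l 2) (b (l 2) (c (l 2) (l 2)))))))) (c (a (c (b (a (l 2) (l 2)) (a (l 2) (l 2))) (b (a (l 2) (l 2)) (a (l 2) (l 2)))) (b (c (a (l 2) (l 2)) (a (l 2) (l 5))) (c (a (l 2) (c (l 2) (l 5))) (a (c (l 2) (l 5)) (l 5))))) (a (c (b (a (l 2) (l 2)) (a (c (l 2) (l 2)) (c (a (l 2) (l 5)) (l 5)))) (l 5)) (l 5)))), by decide +kernel⟩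

def h4_3Bp : ∃ t, chk3 f3Bp t 13 1 1 = true :=
  ⟨(a (c (a (c (a (c (b (a (l 2) (l 2)) (a (l 2) (l 2))) (b (a (l 2) (l 2)) (a (l 2) (l 2)))) (b (c (a (l 2) (l 2)) (a (l 2) (l 5))) (c (a (l 2) (l 2)) (a (l 2) (l 5))))) (a (b (c (a (l 2) (l 2)) (a (l 2) (l 5))) (c (a (l 2) (l 2)) (a (c (l 2) (l 2)) (l 5)))) (l 5))) (c (a (c (a (c (b (l 2) (l 2)) (l 5)) (l 5)) (l 5)) (l 5)) (l 5))) (l 5)) (l 5)), by decide +kernel⟩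

def h5_3Bp : ∃ t, chk3 f3Bp t 7 1 1 = true :=
  ⟨(l 5), by decide +kernel⟩

theorem h6_3Bp : ∃ t, chk3 f3Bp t 25 1 1 = true := ex3_c h2_3Bp h3_3Bp

theorem h7_3Bp : ∃ t, chk3 f3Bp t 12 1 1 = true := ex3_a h1_3Bp h6_3Bp

theorem h8_3Bp : ∃ t, chk3 f3Bp t 6 1 1 = true := ex3_a h7_3Bp h4_3Bp

theorem h9_3Bp : ∃ t, chk3 f3Bp t 3 1 1 = true := ex3_a h8_3Bp h5_3Bp

theorem h10_3Bp : ∃ t, chk3 f3Bp t 1 1 1 = true := ex3_a h0_3Bp h9_3Bp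

theorem ct_3Bp : ∃ t, chk3 f3Bp t 1 1 1 = true := h10_3Bp

noncomputable def f3Bpk1 : ℕ → ℕ → ℕ → ℕ → Bool :=
  onCell 0 92274688 0 1048576 1033476505 6710887 (c3_Bpk1.row false 46137344)

def h0_3Bpk1 : ∃ t, chk3 f3Bpk1 t 1 1 1 = true :=
  ⟨(a (a (l 7) (a (l 13) (a (l 13) (a (l 13) (c (a (l 13) (c (l 10) (l 10))) (a (l 13) (c (l 10) (l 10)))))))) (a (a (a (c (a (c (a (l 10) (l 2)) (a (l 10) (l 2))) (c (a (l 2) (l 2)) (a (l 2) (l 2)))) (a (c (a (l 10) (l 2)) (a (l 10) (l 2))) (c (a (l 2) (l 2)) (a (l 2) (l 2))))) (c (a (c (a (l 2) (l 2)) (a (l 2) (l 2))) (c (a (l 2) (l 2)) (a (l 2) (c (l 2) (a (l 2) (l 2)))))) (a (c (a (l 2) (c (l 2) (l 2))) (a (c (l 2) (l 2)) (b (l 2) (c (l 2) (a (l 2) (c (l 2) (l 2))))))) (c (a (c (l 2) (b (l 2) (l 2))) (b (l 2) (c (a (l 2) (l 2)) (a (c (l 2) (l 5)) (l 5)))))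 (a (c (b (l 2) (a (l 2) (c (l 2) (l 5)))) (l 5)) (l 5)))))) (a (c (a (c (a (c (l 2) (l 2)) (b (l 2) (c (l 2) (a (l 2) (l 5))))) (a (b (l 2) (c (l 2) (a (l 2) (l 5)))) (l 5))) (c (a (c (a (b (l 2) (l 2)) (l 5)) (l 5)) (l 5)) (l 5))) (l 5)) (l 5))) (l 5))), by decide +kernel⟩

theorem ct_3Bpk1 : ∃ t, chk3 f3Bpk1 t 1 1 1 = true := h0_3Bpk1

noncomputable def f3Bpk2 : ℕ → ℕ → ℕ → ℕ → Bool :=
  onCell 0 92274688 0 1048576 1033476505 6710887 (c3_Bpk2.row false 46137344)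

def h0_3Bpk2 : ∃ t, chk3 f3Bpk2 t 1 1 1 = true :=
  ⟨(a (a (l 7) (a (l 13) (a (l 13) (a (l 13) (c (l 10) (c (l 10) (l 10))))))) (a (a (a (c (a (c (l 10) (l 10)) (c (l 2) (l 2))) (a (c (l 10) (a (l 10) (l 2))) (c (a (l 2) (l 2)) (a (l 2) (l 2))))) (c (a (c (l 2) (a (l 2) (l 2))) (c (a (l 2) (l 2)) (a (l 2) (c (l 2) (l 2))))) (a (c (a (l 2) (l 2)) (a (c (l 2) (l 2)) (c (l 2) (b (l 2) (l 2))))) (c (a (c (l 2) (a (l 2) (l 2))) (b (l 2) (c (l 2) (a (l 2) (l 5))))) (a (c (b (l 2) (a (l 2) (l 2))) (l 5)) (l 5)))))) (a (c (a (c (a (l 2) (c (l 2) (a (l 2) (l 5)))) (a (c (l 2) (a (l 2) (l 5))) (l 5))) (c (a (c (a (l 2) (l 5)) (l 5)) (l 5)) (l 5))) (l 5)) (l 5))) (l 5))), by decide +kernel⟩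

theorem ct_3Bpk2 : ∃ t, chk3 f3Bpk2 t 1 1 1 = true := h0_3Bpk2

noncomputable def f3Bm : ℕ → ℕ → ℕ → ℕ → Bool :=
  onCell 0 92274688 0 1048576 1033476505 6710887 (c3_Bm.row true 46137344)

def h0_3Bm : ∃ t, chk3 f3Bm t 2 1 1 = true :=
  ⟨(a (l 7) (a (l 13) (a (l 13) (a (l 13) (c (c (a (l 13) (c (l 10) (l 10))) (a (l 13) (a (l 13) (c (l 10) (l 10))))) (a (l 13) (c (a (l 13) (c (l 10) (l 10))) (a (l 13) (c (l 10) (l 10)))))))))), by decide +kernel⟩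

def h1_3Bm : ∃ t, chk3 f3Bm t 24 1 1 = true :=
  ⟨(c (a (c (a (c (l 10) (a (l 10) (l 2))) (c (l 2) (l 2))) (a (c (a (l 10) (l 2)) (a (l 10) (l 2))) (c (l 2) (l 2)))) (c (a (c (l 2) (l 2)) (c (l 2) (a (l 2) (l 2)))) (a (c (l 2) (a (l 2) (l 2))) (c (a (l 2) (l 2)) (a (l 2) (l 2)))))) (a (c (a (c (a (l 10) (l 2)) (a (l 10) (l 2))) (c (l 2) (a (l 2) (l 2)))) (a (c (a (l 10) (l 2)) (a (l 10) (l 2))) (c (a (l 2) (l 2)) (a (l 2) (l 2))))) (c (a (c (a (l 2) (l 2)) (a (l 2) (l 2))) (c (a (l 2) (l 2)) (a (l 2) (l 2)))) (a (c (a (l 2) (l 2)) (a (l 2) (l 2))) (c (a (l 2) (l 2)) (a (l 2) (l 2))))))), by decide +kernel⟩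

def h2_3Bm : ∃ t, chk3 f3Bm t 25 1 2 = true :=
  ⟨(a (c (a (c (a (l 2) (l 2)) (a (l 2) (l 2))) (c (a (l 2) (l 2)) (a (l 2) (l 2)))) (a (c (a (l 2) (l 2)) (a (l 2) (l 2))) (c (a (l 2) (l 2)) (a (l 2) (l 2))))) (c (a (c (a (l 2) (l 2)) (a (l 2) (b (l 2) (l 2)))) (c (a (b (l 2) (l 2)) (b (l 2) (l 2))) (a (b (l 2) (l 2)) (b (l 2) (l 2))))) (a (c (a (l 2) (b (l 2) (l 2))) (a (b (l 2) (l 2)) (b (l 2) (l 2)))) (c (a (b (l 2) (l 2)) (b (l 2) (c (l 2) (l 2)))) (a (b (l 2) (c (l 2) (l 2))) (b (c (l 2) (l 2)) (c (l 2) (l 2)))))))), by decide +kernel⟩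

def h3_3Bm : ∃ t, chk3 f3Bm t 25 1 3 = true :=
  ⟨(a (c (a (c (a (l 2) (l 2)) (a (l 2) (l 2))) (c (a (l 2) (b (l 2) (l 2))) (a (b (l 2) (l 2)) (b (l 2) (l 2))))) (a (c (a (l 2) (b (l 2) (l 2))) (a (b (l 2) (l 2)) (b (l 2) (l 2)))) (b (c (a (l 2) (l 2)) (a (l 2) (c (l 2) (l 2)))) (c (a (l 2) (c (l 2) (l 2))) (a (c (l 2) (l 2)) (c (l 2) (l 9))))))) (c (a (c (a (b (l 2) (l 2)) (b (l 2) (c (l 2) (l 2)))) (a (b (l 2) (c (l 2) (l 2))) (b (c (l 2) (l 2)) (c (l 2) (l 9))))) (c (a (b (c (l 2) (l 2)) (c (l 2) (l 2))) (b (c (l 2) (l 5)) (l 9))) (a (b (c (l 2) (l 5)) (l 9)) (l 5)))) (a (c (a (b (c (l 2) (l 2)) (c (l 2) (l 9))) (b (c (l 2) (l 5)) (l 9))) (l 5)) (l 5)))), by decide +kernel⟩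

def h4_3Bm : ∃ t, chk3 f3Bm t 13 1 1 = true :=
  ⟨(a (c (a (c (a (c (a (b (l 2) (l 2)) (b (l 2) (c (l 2) (l 2)))) (a (b (l 2) (c (l 2) (l 2))) (b (c (l 2) (l 2)) (c (l 2) (l 2))))) (c (b (a (c (l 2) (l 2)) (c (l 2) (l 2))) (a (c (l 2) (l 2)) (c (l 2) (l 9)))) (a (b (c (l 2) (l 2)) (c (l 2) (l 9))) (l 5)))) (a (c (a (b (c (l 2) (l 2)) (c (l 2) (l 2))) (b (c (l 2) (l 2)) (c (l 2) (l 9)))) (a (b (c (l 2) (l 2)) (l 9)) (l 5))) (l 5))) (c (a (c (a (b (c (l 2) (l 5)) (l 9)) (l 5)) (l 5)) (l 5)) (l 5))) (l 5)) (l 5)), by decide +kernel⟩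

def h5_3Bm : ∃ t, chk3 f3Bm t 7 1 1 = true :=
  ⟨(l 5), by decide +kernel⟩

theorem h6_3Bm : ∃ t, chk3 f3Bm t 25 1 1 = true := ex3_c h2_3Bm h3_3Bm

theorem h7_3Bm : ∃ t, chk3 f3Bm t 12 1 1 = true := ex3_a h1_3Bm h6_3Bm

theorem h8_3Bm : ∃ t, chk3 f3Bm t 6 1 1 = true := ex3_a h7_3Bm h4_3Bm

theorem h9_3Bm : ∃ t, chk3 f3Bm t 3 1 1 = true := ex3_a h8_3Bm h5_3Bm

theorem h10_3Bm : ∃ t, chk3 f3Bm t 1 1 1 = true := ex3_a h0_3Bm h9_3Bm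

theorem ct_3Bm : ∃ t, chk3 f3Bm t 1 1 1 = true := h10_3Bm

end Pool.Agent.Strip051.G.I9625_9688.Tab.Mo
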