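import Pool.Agent.Strip051.PB.StripC
import Pool.Agent.Strip051.G.I9625_9688.Fact

/-! # Facts about the strips of a table (generated) -/

set_option linter.all false
set_option maxRecDepth 4000

namespace Pool.Agent.Strip051.G.I9625_9688.Tab.St

open Pool.Agent.Strip051.PB Pool.Agent.StripNear Pool.Agent.Strip051.LC
open Pool.Agent.Strip051.G.I9625_9688.Tab

noncomputable def sl1 : Fn1 := ⟨_, _, fun h1 => (enc_norm (enc_add (enc_scaleT 9337451553 55000000 (enc_subr 309 320 h1)) (enc_rat _ 360529613771973 1388200000000)))⟩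
noncomputable def sv1 : Fn1 := ⟨_, _, fun h1 => (enc_norm (enc_add (enc_scaleT 82050027949 1100000000 (enc_subr 309 320 h1)) (enc_rat _ 817528293202419 13882000000000)))⟩
noncomputable def sw1 : Fn1 := ⟨_, _, fun h1 => (enc_rat _ 2799323 10000)⟩
noncomputable def sl2 : Fn1 := ⟨_, _, fun h1 => (enc_norm (enc_add (enc_scaleT 1580363674430931 9308750000000 (enc_subr 309 320 h1)) (enc_rat _ 127751943972716327566933 335218978737500000000)))⟩
noncomputable def sv2 : Fn1 := ⟨_, _, fun h1 => (enc_norm (enc_add (enc_scaleT 694348361093131 9308750000000 (enc_subr 309 320 h1)) (enc_rat _ 29205135808557818720833 335218978737500000000)))⟩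
noncomputable def sw2 : Fn1 := ⟨_, _, fun h1 => (enc_rat _ 1026053 2500)⟩
noncomputable def sl3 : Fn1 := ⟨_, _, fun h1 => (enc_norm (enc_subr 472380246328734479 310175450000000 (enc_neg (enc_scaleT 90331061110040111 15508772500000 (enc_subr 309 320 h1)))))⟩
noncomputable def sv3 : Fn1 := ⟨_, _, fun h1 => (enc_norm (enc_subr 513474969319382841 1550877250000000 (enc_neg (enc_scaleT 96310193560870489 77543862500000 (enc_subr 309 320 h1)))))⟩
noncomputable def sw3 : Fn1 := ⟨_, _, fun h1 => (enc_norm (enc_subr 17567879 10000 (enc_neg (enc_scaleT 3411387 500 (enc_subr 309 320 h1)))))⟩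
noncomputable def sl4 : Fn1 := ⟨_, _, fun h1 => (enc_norm (enc_subr 14837797 500000 (enc_neg (enc_scaleT 6289 250 (enc_subr 309 320 h1)))))⟩
noncomputable def sv4 : Fn1 := ⟨_, _, fun h1 => (enc_norm (enc_subr 1376697517 100000000 (enc_neg (enc_scaleT 9645681 1000000 (enc_subr 309 320 h1)))))⟩
noncomputable def sl5 : Fn1 := ⟨_, _, fun h1 => (enc_norm (enc_add (enc_scaleT 124361 5000 (enc_subr 309 320 h1)) (enc_rat _ 3290577 25000)))⟩
noncomputable def sv5 : Fn1 := ⟨_, _, fun h1 => (enc_norm (enc_add (enc_scaleT 6101 10000 (enc_subr 309 320 h1)) (enc_rat _ 19299253 1000000)))⟩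
noncomputable def sw5 : Fn1 := ⟨_, _, fun h1 => (enc_norm (enc_add (enc_scaleT 6101 100 (enc_subr 309 320 h1)) (enc_rat _ 1967057 10000)))⟩
noncomputable def sl6 : Fn1 := ⟨_, _, fun h1 => (enc_norm (enc_add (enc_scaleT 124361 5000 (enc_subr 309 320 h1)) (enc_rat _ 163159 100000)))⟩
noncomputable def sv6 : Fn1 := ⟨_, _, fun h1 => (enc_norm (enc_subr 199469 1000000 (enc_scaleT 6101 10000 (enc_subr 309 320 h1))))⟩
noncomputable def sw6 : Fn1 := ⟨_, _, fun h1 => (enc_norm (enc_subr 49867 2500 (enc_scaleT 6101 100 (enc_subr 309 320 h1))))⟩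
noncomputable def sl7 : Fn1 := ⟨_, _, fun h1 => (enc_norm (enc_add (enc_scaleT 63351 5000 (enc_subr 309 320 h1)) (enc_rat _ 35131 6250)))⟩
noncomputable def sv7 : Fn1 := ⟨_, _, fun h1 => (enc_pnc _ 0)⟩
noncomputable def sl8 : Fn1 := ⟨_, _, fun h1 => (enc_norm (enc_add (enc_scaleT 124361 5000 (enc_subr 309 320 h1)) (enc_rat _ 163159 100000)))⟩
noncomputable def sv8 : Fn1 := ⟨_, _, fun h1 => (enc_norm (enc_sub (enc_rat _ 199469 1000000) (enc_scaleT 6101 10000 (enc_subr 309 320 h1))))⟩
noncomputable def sw8 : Fn1 := ⟨_, _, fun h1 => (enc_norm (enc_sub (enc_rat _ 49867 2500) (enc_scaleT 6101 100 (enc_subr 309 320 h1))))⟩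
noncomputable def sl9 : Fn1 := ⟨_, _, fun h1 => (enc_norm (enc_add (enc_scaleT 124361 5000 (enc_subr 309 320 h1)) (enc_rat _ 3290577 25000)))⟩
noncomputable def sv9 : Fn1 := ⟨_, _, fun h1 => (enc_norm (enc_subr 19299253 1000000 (enc_neg (enc_scaleT 6101 10000 (enc_subr 309 320 h1)))))⟩
noncomputable def sw9 : Fn1 := ⟨_, _, fun h1 => (enc_norm (enc_subr 1967057 10000 (enc_neg (enc_scaleT 6101 100 (enc_subr 309 320 h1)))))⟩
noncomputable def sl10 : Fn1 := ⟨_, _, fun h1 => (enc_norm (enc_subr 14837797 500000 (enc_neg (enc_scaleT 6289 250 (enc_subr 309 320 h1)))))⟩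
noncomputable def sv10 : Fn1 := ⟨_, _, fun h1 => (enc_norm (enc_add (enc_scaleT 9645681 1000000 (enc_subr 309 320 h1)) (enc_rat _ 1376697517 100000000)))⟩
noncomputable def sl11 : Fn1 := ⟨_, _, fun h1 => (enc_norm (enc_subr 472380246328734479 310175450000000 (enc_neg (enc_scaleT 90331061110040111 15508772500000 (enc_subr 309 320 h1)))))⟩
noncomputable def sv11 : Fn1 := ⟨_, _, fun h1 => (enc_norm (enc_add (enc_scaleT 96310193560870489 77543862500000 (enc_subr 309 320 h1)) (enc_rat _ 513474969319382841 1550877250000000)))⟩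
noncomputable def sw11 : Fn1 := ⟨_, _, fun h1 => (enc_norm (enc_add (enc_scaleT 3411387 500 (enc_subr 309 320 h1)) (enc_rat _ 17567879 10000)))⟩
noncomputable def sl12 : Fn1 := ⟨_, _, fun h1 => (enc_norm (enc_add (enc_scaleT 1580363674430931 9308750000000 (enc_subr 309 320 h1)) (enc_rat _ 127751943972716327566933 335218978737500000000)))⟩
noncomputable def sv12 : Fn1 := ⟨_, _, fun h1 => (enc_norm (enc_subr 29205135808557818720833 335218978737500000000 (enc_neg (enc_scaleT 694348361093131 9308750000000 (enc_subr 309 320 h1)))))⟩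
noncomputable def sw12 : Fn1 := ⟨_, _, fun h1 => (enc_neg (enc_rat _ 1026053 2500))⟩
noncomputable def sl13 : Fn1 := ⟨_, _, fun h1 => (enc_norm (enc_add (enc_scaleT 9337451553 55000000 (enc_subr 309 320 h1)) (enc_rat _ 360529613771973 1388200000000)))⟩
noncomputable def sv13 : Fn1 := ⟨_, _, fun h1 => (enc_norm (enc_subr 817528293202419 13882000000000 (enc_neg (enc_scaleT 82050027949 1100000000 (enc_subr 309 320 h1)))))⟩
noncomputable def sw13 : Fn1 := ⟨_, _, fun h1 => (enc_neg (enc_rat _ 2799323 10000))⟩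
noncomputable def sl26 : Fn1 := ⟨_, _, fun h1 => (enc_norm (enc_sub (enc_rat _ 33046449 5000000) (enc_scaleT 31435363 125000 (enc_subr 309 320 h1))))⟩
noncomputable def sv26 : Fn1 := ⟨_, _, fun h1 => (enc_norm (enc_sub (enc_rat _ 16859449 10000000) (enc_scaleT 15656363 250000 (enc_subr 309 320 h1))))⟩
noncomputable def sw26 : Fn1 := ⟨_, _, fun h1 => (enc_norm (enc_sub (enc_rat _ 16187 2500) (enc_scaleT 31558 125 (enc_subr 309 320 h1))))⟩
noncomputable def sl27 : Fn1 := ⟨_, _, fun h1 => (enc_norm (enc_subr 3492766 1796875 (enc_neg (enc_scaleT 1580235607 11500000 (enc_subr 309 320 h1)))))⟩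
noncomputable def sv27 : Fn1 := ⟨_, _, fun h1 => (enc_norm (enc_subr 917402821 2300000000 (enc_neg (enc_scaleT 8008741561 230000000 (enc_subr 309 320 h1)))))⟩
noncomputable def sw27 : Fn1 := ⟨_, _, fun h1 => (enc_norm (enc_subr 1436 625 (enc_neg (enc_scaleT 33867 250 (enc_subr 309 320 h1)))))⟩
noncomputable def sl28 : Fn1 := ⟨_, _, fun h1 => (enc_norm (enc_subr 6350904199459 2173000000000 (enc_scaleT 65670651567787 434600000000 (enc_subr 309 320 h1))))⟩
noncomputable def sv28 : Fn1 := ⟨_, _, fun h1 => (enc_norm (enc_subr 343244215763521 543250000000000 (enc_scaleT 3677430967908853 108650000000000 (enc_subr 309 320 h1))))⟩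
noncomputable def sw28 : Fn1 := ⟨_, _, fun h1 => (enc_norm (enc_subr 16629 5000 (enc_scaleT 167597 1000 (enc_subr 309 320 h1))))⟩
noncomputable def sl29 : Fn1 := ⟨_, _, fun h1 => (enc_norm (enc_add (enc_scaleT 1644285639037 25850000000 (enc_subr 309 320 h1)) (enc_rat _ 6577560137 8078125000)))⟩
noncomputable def sv29 : Fn1 := ⟨_, _, fun h1 => (enc_norm (enc_add (enc_scaleT 25375532038214353 1880000000000000 (enc_subr 309 320 h1)) (enc_rat _ 34844905673657 146875000000000)))⟩
noncomputable def sw29 : Fn1 := ⟨_, _, fun h1 => (enc_norm (enc_add (enc_scaleT 73541 1000 (enc_subr 309 320 h1)) (enc_rat _ 432 625)))⟩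
noncomputable def sl30 : Fn1 := ⟨_, _, fun h1 => (enc_norm (enc_add (enc_scaleT 116352595012799 185700000000 (enc_subr 309 320 h1)) (enc_rat _ 34041981261901 1857000000000)))⟩
noncomputable def sv30 : Fn1 := ⟨_, _, fun h1 => (enc_norm (enc_add (enc_scaleT 2546803738118357 18570000000000 (enc_subr 309 320 h1)) (enc_rat _ 758551711988743 185700000000000)))⟩
noncomputable def sw30 : Fn1 := ⟨_, _, fun h1 => (enc_norm (enc_add (enc_scaleT 357151 500 (enc_subr 309 320 h1)) (enc_rat _ 103149 5000)))⟩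
noncomputable def sl31 : Fn1 := ⟨_, _, fun h1 => (enc_norm (enc_add (enc_scaleT 50964281 25000 (enc_subr 309 320 h1)) (enc_rat _ 5931643 250000)))⟩
noncomputable def sv31 : Fn1 := ⟨_, _, fun h1 => (enc_norm (enc_add (enc_scaleT 4407280877 10000000 (enc_subr 309 320 h1)) (enc_rat _ 32779493 6250000)))⟩
noncomputable def sw31 : Fn1 := ⟨_, _, fun h1 => (enc_norm (enc_add (enc_scaleT 2356173 1000 (enc_subr 309 320 h1)) (enc_rat _ 269029 10000)))⟩
noncomputable def sl32 : Fn1 := ⟨_, _, fun h1 => (enc_norm (enc_sub (enc_rat _ 5943847 500000) (enc_scaleT 1307871 20000 (enc_subr 309 320 h1))))⟩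
noncomputable def sv32 : Fn1 := ⟨_, _, fun h1 => (enc_norm (enc_sub (enc_rat _ 17240963 6250000) (enc_scaleT 11045161 10000000 (enc_subr 309 320 h1))))⟩
noncomputable def sw32 : Fn1 := ⟨_, _, fun h1 => (enc_norm (enc_sub (enc_rat _ 12809 1000) (enc_scaleT 148547 1000 (enc_subr 309 320 h1))))⟩
noncomputable def sl33 : Fn1 := ⟨_, _, fun h1 => (enc_norm (enc_subr 5635049 1000000 (enc_neg (enc_scaleT 124435173 50000 (enc_subr 309 320 h1)))))⟩
noncomputable def sv33 : Fn1 := ⟨_, _, fun h1 => (enc_norm (enc_subr 83360803 100000000 (enc_neg (enc_scaleT 622353807 1250000 (enc_subr 309 320 h1)))))⟩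
noncomputable def sw33 : Fn1 := ⟨_, _, fun h1 => (enc_norm (enc_subr 42801 5000 (enc_neg (enc_scaleT 3103803 1000 (enc_subr 309 320 h1)))))⟩
noncomputable def sl34 : Fn1 := ⟨_, _, fun h1 => (enc_norm (enc_subr 14373653 5000000 (enc_neg (enc_scaleT 1415263 250000 (enc_subr 309 320 h1)))))⟩
noncomputable def sv34 : Fn1 := ⟨_, _, fun h1 => (enc_norm (enc_subr 28154467 100000000 (enc_neg (enc_scaleT 1593203 1250000 (enc_subr 309 320 h1)))))⟩
noncomputable def sw34 : Fn1 := ⟨_, _, fun h1 => (enc_neg (enc_rat _ 25549 5000))⟩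
noncomputable def sl35 : Fn1 := ⟨_, _, fun h1 => (enc_norm (enc_add (enc_scaleT 82508217 500000 (enc_subr 309 320 h1)) (enc_rat _ 44529961 10000000)))⟩
noncomputable def sv35 : Fn1 := ⟨_, _, fun h1 => (enc_norm (enc_add (enc_scaleT 76818659 2500000 (enc_subr 309 320 h1)) (enc_rat _ 218480881 200000000)))⟩
noncomputable def sw35 : Fn1 := ⟨_, _, fun h1 => (enc_norm (enc_add (enc_scaleT 22757 100 (enc_subr 309 320 h1)) (enc_rat _ 9321 2000)))⟩
noncomputable def sl36 : Fn1 := ⟨_, _, fun h1 => (enc_norm (enc_subr 3993807 2500000 (enc_neg (enc_scaleT 3327189 500000 (enc_subr 309 320 h1)))))⟩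
noncomputable def sv36 : Fn1 := ⟨_, _, fun h1 => (enc_norm (enc_add (enc_scaleT 3425347 5000000 (enc_subr 309 320 h1)) (enc_rat _ 3356379 100000000)))⟩
noncomputable def sw36 : Fn1 := ⟨_, _, fun h1 => (enc_norm (enc_subr 39831 10000 (enc_neg (enc_scaleT 8837 500 (enc_subr 309 320 h1)))))⟩
noncomputable def sl37 : Fn1 := ⟨_, _, fun h1 => (enc_norm (enc_sub (enc_rat _ 5458621 10000000) (enc_scaleT 902589 500000 (enc_subr 309 320 h1))))⟩
noncomputable def sv37 : Fn1 := ⟨_, _, fun h1 => (enc_norm (enc_add (enc_scaleT 7062247 5000000 (enc_subr 309 320 h1)) (enc_rat _ 17753613 50000000)))⟩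
noncomputable def sw37 : Fn1 := ⟨_, _, fun h1 => (enc_norm (enc_subr 1027 2500 (enc_neg (enc_scaleT 1199 125 (enc_subr 309 320 h1)))))⟩
noncomputable def sl38 : Fn1 := ⟨_, _, fun h1 => (enc_norm (enc_subr 324639 5000000 (enc_neg (enc_scaleT 1805179 1000000 (enc_subr 309 320 h1)))))⟩
noncomputable def sv38 : Fn1 := ⟨_, _, fun h1 => (enc_norm (enc_add (enc_scaleT 3531123 2500000 (enc_subr 309 320 h1)) (enc_rat _ 7349857 25000000)))⟩
noncomputable def sw38 : Fn1 := ⟨_, _, fun h1 => (enc_norm (enc_subr 9689 5000 (enc_neg (enc_scaleT 1199 125 (enc_subr 309 320 h1)))))⟩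
noncomputable def sl39 : Fn1 := ⟨_, _, fun h1 => (enc_norm (enc_add (enc_scaleT 56611 500000 (enc_subr 309 320 h1)) (enc_rat _ 1474343 20000000)))⟩
noncomputable def sv39 : Fn1 := ⟨_, _, fun h1 => (enc_norm (enc_add (enc_scaleT 15083693 10000000 (enc_subr 309 320 h1)) (enc_rat _ 12037071 40000000)))⟩
noncomputable def sw39 : Fn1 := ⟨_, _, fun h1 => (enc_neg (enc_rat _ 6223 5000))⟩
noncomputable def sl40 : Fn1 := ⟨_, _, fun h1 => (enc_norm (enc_add (enc_scaleT 72517 62500 (enc_subr 309 320 h1)) (enc_rat _ 609711 5000000)))⟩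
noncomputable def sv40 : Fn1 := ⟨_, _, fun h1 => (enc_norm (enc_add (enc_scaleT 14560143 10000000 (enc_subr 309 320 h1)) (enc_rat _ 29851527 100000000)))⟩
noncomputable def sw40 : Fn1 := ⟨_, _, fun h1 => (enc_norm (enc_subr 14857 10000 (enc_neg (enc_scaleT 1047 200 (enc_subr 309 320 h1)))))⟩
noncomputable def sl41 : Fn1 := ⟨_, _, fun h1 => (enc_norm (enc_add (enc_scaleT 2556771 1000000 (enc_subr 309 320 h1)) (enc_rat _ 30467 625000)))⟩
noncomputable def sv41 : Fn1 := ⟨_, _, fun h1 => (enc_norm (enc_add (enc_scaleT 2632709 2000000 (enc_subr 309 320 h1)) (enc_rat _ 30583427 100000000)))⟩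
noncomputable def sw41 : Fn1 := ⟨_, _, fun h1 => (enc_norm (enc_subr 13027 10000 (enc_neg (enc_scaleT 4363 500 (enc_subr 309 320 h1)))))⟩
noncomputable def sl42 : Fn1 := ⟨_, _, fun h1 => (enc_norm (enc_add (enc_scaleT 10713399 500000 (enc_subr 309 320 h1)) (enc_rat _ 290789 156250)))⟩
noncomputable def sv42 : Fn1 := ⟨_, _, fun h1 => (enc_norm (enc_sub (enc_rat _ 679771 20000000) (enc_scaleT 473173 312500 (enc_subr 309 320 h1))))⟩
noncomputable def sw42 : Fn1 := ⟨_, _, fun h1 => (enc_norm (enc_subr 2702 625 (enc_neg (enc_scaleT 5022 125 (enc_subr 309 320 h1)))))⟩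
noncomputable def sl43 : Fn1 := ⟨_, _, fun h1 => (enc_norm (enc_subr 10939991 10000000 (enc_neg (enc_scaleT 34638921 500000 (enc_subr 309 320 h1)))))⟩
noncomputable def sv43 : Fn1 := ⟨_, _, fun h1 => (enc_norm (enc_add (enc_scaleT 71795827 5000000 (enc_subr 309 320 h1)) (enc_rat _ 110224369 200000000)))⟩
noncomputable def sw43 : Fn1 := ⟨_, _, fun h1 => (enc_norm (enc_subr 1017 10000 (enc_scaleT 44701 500 (enc_subr 309 320 h1))))⟩
noncomputable def sl44 : Fn1 := ⟨_, _, fun h1 => (enc_norm (enc_subr 2876707 6000000 (enc_scaleT 201538141 600000 (enc_subr 309 320 h1))))⟩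
noncomputable def sv44 : Fn1 := ⟨_, _, fun h1 => (enc_norm (enc_sub (enc_rat _ 87178899 200000000) (enc_scaleT 1232221957 20000000 (enc_subr 309 320 h1))))⟩
noncomputable def sw44 : Fn1 := ⟨_, _, fun h1 => (enc_norm (enc_subr 9211 10000 (enc_neg (enc_scaleT 450831 1000 (enc_subr 309 320 h1)))))⟩
noncomputable def sl45 : Fn1 := ⟨_, _, fun h1 => (enc_norm (enc_subr 59811 1000000 (enc_neg (enc_scaleT 4132233 5000 (enc_subr 309 320 h1)))))⟩
noncomputable def sv45 : Fn1 := ⟨_, _, fun h1 => (enc_norm (enc_add (enc_scaleT 825229407 5000000 (enc_subr 309 320 h1)) (enc_rat _ 35406463 100000000)))⟩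
noncomputable def sw45 : Fn1 := ⟨_, _, fun h1 => (enc_norm (enc_subr 14591 10000 (enc_scaleT 1039353 1000 (enc_subr 309 320 h1))))⟩
noncomputable def sl46 : Fn1 := ⟨_, _, fun h1 => (enc_norm (enc_add (enc_scaleT 1516127 1000 (enc_subr 309 320 h1)) (enc_rat _ 995207 250000)))⟩
noncomputable def sv46 : Fn1 := ⟨_, _, fun h1 => (enc_norm (enc_subr 45406297 100000000 (enc_neg (enc_scaleT 1517344193 5000000 (enc_subr 309 320 h1)))))⟩
noncomputable def sw46 : Fn1 := ⟨_, _, fun h1 => (enc_norm (enc_subr 65099 10000 (enc_neg (enc_scaleT 236108 125 (enc_subr 309 320 h1)))))⟩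
noncomputable def sl47 : Fn1 := ⟨_, _, fun h1 => (enc_norm (enc_subr 6898767 1000000 (enc_neg (enc_scaleT 1751587 50000 (enc_subr 309 320 h1)))))⟩
noncomputable def sv47 : Fn1 := ⟨_, _, fun h1 => (enc_norm (enc_add (enc_scaleT 145187031 10000000 (enc_subr 309 320 h1)) (enc_rat _ 8881269 5000000)))⟩
noncomputable def sw47 : Fn1 := ⟨_, _, fun h1 => (enc_norm (enc_add (enc_scaleT 2793 1000 (enc_subr 309 320 h1)) (enc_rat _ 67579 10000)))⟩
noncomputable def sl48 : Fn1 := ⟨_, _, fun h1 => (enc_norm (enc_subr 13117119 1000000 (enc_neg (enc_scaleT 11639027 10000 (enc_subr 309 320 h1)))))⟩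
noncomputable def sv48 : Fn1 := ⟨_, _, fun h1 => (enc_norm (enc_add (enc_scaleT 2515816047 10000000 (enc_subr 309 320 h1)) (enc_rat _ 77052693 25000000)))⟩
noncomputable def sw48 : Fn1 := ⟨_, _, fun h1 => (enc_norm (enc_add (enc_scaleT 1346687 1000 (enc_subr 309 320 h1)) (enc_rat _ 141607 10000)))⟩
noncomputable def sl49_2 : Fn1 := ⟨_, _, fun h1 => (enc_subr 309 320 h1)⟩
noncomputable def sl49 : Fn1 := ⟨_, _, fun h1 => (enc_norm (enc_add (enc_subr 55301330837994347 6048278600000000 (enc_neg (enc_scaleT 88769711713868931 302413930000000 (sl49_2.enc h1)))) (enc_scaleT 71455826247189 7560348250000 (enc_sq (enc_norm (sl49_2.enc h1))))))⟩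
noncomputable def sv49_2 : Fn1 := ⟨_, _, fun h1 => (enc_subr 309 320 h1)⟩
noncomputable def sv49 : Fn1 := ⟨_, _, fun h1 => (enc_norm (enc_sub (enc_add (enc_scaleT 1949148553348820233 30241393000000000 (sv49_2.enc h1)) (enc_rat _ 1347399490873239721 604827860000000000)) (enc_scaleT 384074801613263 189008706250000 (enc_sq (enc_norm (sv49_2.enc h1))))))⟩
noncomputable def sw49_2 : Fn1 := ⟨_, _, fun h1 => (enc_subr 309 320 h1)⟩
noncomputable def sw49 : Fn1 := ⟨_, _, fun h1 => (enc_norm (enc_sub (enc_add (enc_scaleT 167317 500 (sw49_2.enc h1)) (enc_rat _ 477 50)) (enc_scaleT 1099 100 (enc_sq (enc_norm (sw49_2.enc h1))))))⟩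
noncomputable def sl51_2 : Fn1 := ⟨_, _, fun h1 => (enc_subr 309 320 h1)⟩
noncomputable def sl51 : Fn1 := ⟨_, _, fun h1 => (enc_norm (enc_sub (enc_sub (enc_rat _ 430168377602551 346090880000000) (enc_scaleT 2813616258646667 34609088000000 (sl51_2.enc h1))) (enc_scaleT 169349897724319 108153400000 (enc_sq (enc_norm (sl51_2.enc h1))))))⟩
noncomputable def sv51_2 : Fn1 := ⟨_, _, fun h1 => (enc_subr 309 320 h1)⟩
noncomputable def sv51 : Fn1 := ⟨_, _, fun h1 => (enc_norm (enc_add (enc_subr 5257717107394769 86522720000000000 (enc_scaleT 6700667242117669 346090880000000 (sv51_2.enc h1))) (enc_scaleT 10076318845363673 27038350000000 (enc_sq (enc_norm (sv51_2.enc h1))))))⟩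
noncomputable def sw51_2 : Fn1 := ⟨_, _, fun h1 => (enc_subr 309 320 h1)⟩
noncomputable def sw51 : Fn1 := ⟨_, _, fun h1 => (enc_norm (enc_add (enc_subr 899 400 (enc_scaleT 85559 1000 (sw51_2.enc h1))) (enc_scaleT 82239 50 (enc_sq (enc_norm (sw51_2.enc h1))))))⟩
noncomputable def sl52 : Fn1 := ⟨_, _, fun h1 => (enc_norm (enc_add (enc_scaleT 3141811501 46000000 (enc_subr 309 320 h1)) (enc_rat _ 209677247 460000000)))⟩
noncomputable def sv52 : Fn1 := ⟨_, _, fun h1 => (enc_norm (enc_sub (enc_rat _ 582206519 4600000000) (enc_scaleT 7471849163 460000000 (enc_subr 309 320 h1))))⟩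
noncomputable def sw52 : Fn1 := ⟨_, _, fun h1 => (enc_norm (enc_subr 14207 10000 (enc_neg (enc_scaleT 71581 1000 (enc_subr 309 320 h1)))))⟩
noncomputable def sl53 : Fn1 := ⟨_, _, fun h1 => (enc_norm (enc_subr 15606599 4000000 (enc_scaleT 56584921 400000 (enc_subr 309 320 h1))))⟩
noncomputable def sv53 : Fn1 := ⟨_, _, fun h1 => (enc_norm (enc_sub (enc_rat _ 9509599 8000000) (enc_scaleT 27261121 800000 (enc_subr 309 320 h1))))⟩
noncomputable def sw53 : Fn1 := ⟨_, _, fun h1 => (enc_norm (enc_sub (enc_rat _ 6097 2000) (enc_scaleT 146619 1000 (enc_subr 309 320 h1))))⟩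
noncomputable def skf0 : Fn2 := ⟨_, _, fun h1 h2 => (enc_norm (enc_add (bf1q0.enc h1 h2) (enc_mul (enc_norm (enc_sub (enc_mul (c1g.enc h1) (bf1q0.enc h1 h2)) (kf0q0.enc h1 h2))) (enc_inv (enc_sub (cv1m.enc h1) (c1g.enc h1))))))⟩
noncomputable def sxf0 : Fn2 := ⟨_, _, fun h1 h2 => (enc_norm (enc_mul (enc_norm (enc_sub (l1q0.enc h1 h2) (l0q0.enc h1 h2))) (enc_inv (enc_sub (cv1m.enc h1) (c1g.enc h1)))))⟩
noncomputable def skl0 : Fn2 := ⟨_, _, fun h1 h2 => (enc_norm (enc_add (bf4q0.enc h1 h2) (enc_mul (enc_norm (enc_sub (kf5q0.enc h1 h2) (enc_mul (c3g.enc h1) (bf4q0.enc h1 h2)))) (enc_inv (enc_sub (c3g.enc h1) (cv4m.enc h1))))))⟩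
noncomputable def sxl0 : Fn2 := ⟨_, _, fun h1 h2 => (enc_norm (enc_mul (enc_norm (enc_sub (l5q0.enc h1 h2) (l4q0.enc h1 h2))) (enc_inv (enc_sub (c3g.enc h1) (cv4m.enc h1)))))⟩
noncomputable def skf1 : Fn2 := ⟨_, _, fun h1 h2 => (enc_norm (enc_add (bf1q1.enc h1 h2) (enc_mul (enc_norm (enc_sub (enc_mul (c1g.enc h1) (bf1q1.enc h1 h2)) (kf0q1.enc h1 h2))) (enc_inv (enc_sub (cv1m.enc h1) (c1g.enc h1))))))⟩
noncomputable def sxf1 : Fn2 := ⟨_, _, fun h1 h2 => (enc_norm (enc_mul (enc_norm (enc_sub (l1q1.enc h1 h2) (l0q1.enc h1 h2))) (enc_inv (enc_sub (cv1m.enc h1) (c1g.enc h1)))))⟩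
noncomputable def skl1 : Fn2 := ⟨_, _, fun h1 h2 => (enc_norm (enc_add (bf4q1.enc h1 h2) (enc_mul (enc_norm (enc_sub (kf5q1.enc h1 h2) (enc_mul (c3g.enc h1) (bf4q1.enc h1 h2)))) (enc_inv (enc_sub (c3g.enc h1) (cv4m.enc h1))))))⟩
noncomputable def sxl1 : Fn2 := ⟨_, _, fun h1 h2 => (enc_norm (enc_mul (enc_norm (enc_sub (l5q1.enc h1 h2) (l4q1.enc h1 h2))) (enc_inv (enc_sub (c3g.enc h1) (cv4m.enc h1)))))⟩
noncomputable def skf2 : Fn2 := ⟨_, _, fun h1 h2 => (enc_norm (enc_add (bf1q2.enc h1 h2) (enc_mul (enc_norm (enc_add (enc_mul (c1g.enc h1) (enc_norm (enc_subn 1 (bf1q2.enc h1 h2)))) (enc_mul (enc_norm (enc_subn 1 h1)) (kcg.enc (c1g.enc h1) h2)))) (enc_inv (enc_sub (cv1p.enc h1) (c1g.enc h1))))))⟩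
noncomputable def sxf2 : Fn2 := ⟨_, _, fun h1 h2 => (enc_norm (enc_mul (enc_norm (enc_sub (l1q2.enc h1 h2) (l0q2.enc h1 h2))) (enc_inv (enc_sub (cv1p.enc h1) (c1g.enc h1)))))⟩
noncomputable def skl2 : Fn2 := ⟨_, _, fun h1 h2 => (enc_norm (enc_add (bf4q2.enc h1 h2) (enc_mul (enc_norm (enc_sub (kf5q2.enc h1 h2) (enc_mul (c3g.enc h1) (bf4q2.enc h1 h2)))) (enc_inv (enc_sub (c3g.enc h1) (cv4p.enc h1))))))⟩
noncomputable def sxl2 : Fn2 := ⟨_, _, fun h1 h2 => (enc_norm (enc_mul (enc_norm (enc_sub (l5q2.enc h1 h2) (l4q2.enc h1 h2))) (enc_inv (enc_sub (c3g.enc h1) (cv4p.enc h1)))))⟩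
noncomputable def skl3 : Fn2 := ⟨_, _, fun h1 h2 => (enc_norm (enc_add (bf4q3.enc h1 h2) (enc_mul (enc_norm (enc_sub (kf5q3.enc h1 h2) (enc_mul (c3g.enc h1) (bf4q3.enc h1 h2)))) (enc_inv (enc_sub (c3g.enc h1) (cv4r.enc h1))))))⟩
noncomputable def sxl3 : Fn2 := ⟨_, _, fun h1 h2 => (enc_norm (enc_mul (enc_norm (enc_sub (l5q3.enc h1 h2) (l4q3.enc h1 h2))) (enc_inv (enc_sub (c3g.enc h1) (cv4r.enc h1)))))⟩
noncomputable def rhk : Fn2 := ⟨_, _, fun h1 h2 => (enc_norm (enc_mul (enc_norm (enc_sub (bf1q2.enc h1 h2) (n0b.enc h1 h2))) (enc_norm (enc_mul (cv1p.enc h1) (enc_inv (enc_sub (cv1p.enc h1) (c1g.enc h1)))))))⟩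
noncomputable def rhx : Fn2 := ⟨_, _, fun h1 h2 => (enc_norm (enc_mul (enc_norm (enc_sub (bx1q2.enc h1 h2) (n0x.enc h1 h2))) (enc_norm (enc_mul (cv1p.enc h1) (enc_inv (enc_sub (cv1p.enc h1) (c1g.enc h1)))))))⟩
noncomputable def sbk : Fn1 := ⟨_, _, fun h1 => (enc_norm (enc_subr 1 72500 (enc_neg (enc_scaleT 1 3625 (enc_subr 309 320 h1)))))⟩
noncomputable def sbx : Fn1 := ⟨_, _, fun h1 => (enc_norm (enc_add (enc_scaleT 10061 36250 (enc_subr 309 320 h1)) (enc_rat _ 1589643 1450000)))⟩
noncomputable def k0c : Fn1 := ⟨_, _, fun h1 => (enc_norm (enc_add (enc_scaleT 63351 5000 (enc_subr 309 320 h1)) (enc_rat _ 35131 6250)))⟩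
noncomputable def m0c : Fn1 := ⟨_, _, fun h1 => (enc_norm (enc_subr 1474343 10000000 (enc_neg (enc_scaleT 56611 250000 (enc_subr 309 320 h1)))))⟩
noncomputable def sl81 : Fn1 := ⟨_, _, fun h1 => (enc_norm (enc_subr 46437 400000 (enc_neg (enc_scaleT 1818247 125000 (enc_subr 309 320 h1)))))⟩
noncomputable def sv81 : Fn1 := ⟨_, _, fun h1 => (enc_norm (enc_sub (enc_rat _ 10619 25000000) (enc_scaleT 2199223 1000000 (enc_subr 309 320 h1))))⟩
noncomputable def sw81 : Fn1 := ⟨_, _, fun h1 => (enc_norm (enc_subr 3401 10000 (enc_neg (enc_scaleT 11251 500 (enc_subr 309 320 h1)))))⟩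
noncomputable def sl82 : Fn1 := ⟨_, _, fun h1 => (enc_norm (enc_subr 17887 40000 (enc_neg (enc_scaleT 525149 1000000 (enc_subr 309 320 h1)))))⟩
noncomputable def sv82 : Fn1 := ⟨_, _, fun h1 => (enc_norm (enc_subr 4923799 100000000 (enc_neg (enc_scaleT 960949 10000000 (enc_subr 309 320 h1)))))⟩
noncomputable def sw82 : Fn1 := ⟨_, _, fun h1 => (enc_norm (enc_subr 8919 10000 (enc_scaleT 433 500 (enc_subr 309 320 h1))))⟩
noncomputable def sl83 : Fn1 := ⟨_, _, fun h1 => (enc_norm (enc_add (enc_scaleT 871351 1000000 (enc_subr 309 320 h1)) (enc_rat _ 904199 10000000)))⟩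
noncomputable def sv83 : Fn1 := ⟨_, _, fun h1 => (enc_norm (enc_add (enc_scaleT 435651 10000000 (enc_subr 309 320 h1)) (enc_rat _ 452099 100000000)))⟩
noncomputable def sw83 : Fn1 := ⟨_, _, fun h1 => (enc_norm (enc_add (enc_scaleT 4357 1000 (enc_subr 309 320 h1)) (enc_rat _ 4521 10000)))⟩
noncomputable def sl84 : Fn1 := ⟨_, _, fun h1 => (enc_pnc _ 0)⟩
noncomputable def sv84 : Fn1 := ⟨_, _, fun h1 => (enc_pnc _ 0)⟩
noncomputable def sl85 : Fn1 := ⟨_, _, fun h1 => (enc_norm (enc_add (enc_scaleT 871351 1000000 (enc_subr 309 320 h1)) (enc_rat _ 904199 10000000)))⟩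
noncomputable def sv85 : Fn1 := ⟨_, _, fun h1 => (enc_norm (enc_subr 452099 100000000 (enc_neg (enc_scaleT 435651 10000000 (enc_subr 309 320 h1)))))⟩
noncomputable def sw85 : Fn1 := ⟨_, _, fun h1 => (enc_norm (enc_subr 4521 10000 (enc_neg (enc_scaleT 4357 1000 (enc_subr 309 320 h1)))))⟩
noncomputable def sl86 : Fn1 := ⟨_, _, fun h1 => (enc_norm (enc_subr 17887 40000 (enc_neg (enc_scaleT 525149 1000000 (enc_subr 309 320 h1)))))⟩
noncomputable def sv86 : Fn1 := ⟨_, _, fun h1 => (enc_norm (enc_add (enc_scaleT 960949 10000000 (enc_subr 309 320 h1)) (enc_rat _ 4923799 100000000)))⟩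
noncomputable def sw86 : Fn1 := ⟨_, _, fun h1 => (enc_norm (enc_sub (enc_rat _ 8919 10000) (enc_scaleT 433 500 (enc_subr 309 320 h1))))⟩
noncomputable def sl87 : Fn1 := ⟨_, _, fun h1 => (enc_norm (enc_subr 46437 400000 (enc_neg (enc_scaleT 1818247 125000 (enc_subr 309 320 h1)))))⟩
noncomputable def sv87 : Fn1 := ⟨_, _, fun h1 => (enc_norm (enc_subr 10619 25000000 (enc_scaleT 2199223 1000000 (enc_subr 309 320 h1))))⟩
noncomputable def sw87 : Fn1 := ⟨_, _, fun h1 => (enc_norm (enc_add (enc_scaleT 11251 500 (enc_subr 309 320 h1)) (enc_rat _ 3401 10000)))⟩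
noncomputable def kqf : Fn2 := ⟨_, _, fun h1 h2 => (enc_norm (enc_mul (enc_norm (enc_subn 1 h1)) (enc_norm (enc_case (enc_subr 1 10 (c1g.enc h1)) (enc_add (enc_scaleT 63351 5000 (enc_subr 309 320 h2)) (enc_rat _ 35131 6250)) (enc_mul (kcg.enc (c1g.enc h1) h2) (enc_inv (c1g.enc h1)))))))⟩
noncomputable def skm : Fn2 := ⟨_, _, fun h1 h2 => (enc_norm (enc_sub (enc_mul (enc_norm (enc_mul (cv1p.enc h1) (enc_inv (enc_sub (cv1p.enc h1) (c1g.enc h1))))) (enc_norm (enc_add (enc_subn 1 (bf1q2.enc h1 h2)) (kqf.enc h1 h2)))) (kqf.enc h1 h2)))⟩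
noncomputable def dt1 : DT := .quad sw1 sl1 sv1
noncomputable def dt2 : DT := .quad sw2 sl2 sv2
noncomputable def dt3 : DT := .quad sw3 sl3 sv3
noncomputable def dt4 : DT := .lin sl4 sv4
noncomputable def dt5 : DT := .quad sw5 sl5 sv5
noncomputable def dt6 : DT := .quad sw6 sl6 sv6
noncomputable def dt7 : DT := .lin sl7 sv7
noncomputable def dt8 : DT := .quad sw8 sl8 sv8
noncomputable def dt9 : DT := .quad sw9 sl9 sv9
noncomputable def dt10 : DT := .lin sl10 sv10
noncomputable def dt11 : DT := .quad sw11 sl11 sv11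
noncomputable def dt12 : DT := .quad sw12 sl12 sv12
noncomputable def dt13 : DT := .quad sw13 sl13 sv13
noncomputable def dt14 : DT := .node ((Cn.rt 2507 5707).ng) dt2 dt3
noncomputable def dt15 : DT := .node ((Cn.rt 587 1262).ng) dt1 dt14
noncomputable def dt16 : DT := .node ((Cn.rt 3 10).ng) dt5 dt6
noncomputable def dt17 : DT := .node ((Cn.rt 41 100).ng) dt4 dt16
noncomputable def dt18 : DT := .node ((Cn.rt 17 40).ng) dt15 dt17
noncomputable def dt19 : DT := .node (Cn.rt 3 10) dt8 dt9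
noncomputable def dt20 : DT := .node (Cn.rt 1 10) dt7 dt19
noncomputable def dt21 : DT := .node (Cn.rt 17 40) dt10 dt11
noncomputable def dt22 : DT := .node (Cn.rt 587 1262) dt12 dt13
noncomputable def dt23 : DT := .node (Cn.rt 2507 5707) dt21 dt22
noncomputable def dt24 : DT := .node (Cn.rt 41 100) dt20 dt23
noncomputable def dt25 : DT := .node ((Cn.rt 1 10).ng) dt18 dt24
noncomputable def dt26 : DT := .quad sw26 sl26 sv26
noncomputable def dt27 : DT := .quad sw27 sl27 sv27
noncomputable def dt28 : DT := .quad sw28 sl28 sv28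
noncomputable def dt29 : DT := .quad sw29 sl29 sv29
noncomputable def dt30 : DT := .quad sw30 sl30 sv30
noncomputable def dt31 : DT := .quad sw31 sl31 sv31
noncomputable def dt32 : DT := .quad sw32 sl32 sv32
noncomputable def dt33 : DT := .quad sw33 sl33 sv33
noncomputable def dt34 : DT := .quad sw34 sl34 sv34
noncomputable def dt35 : DT := .quad sw35 sl35 sv35
noncomputable def dt36 : DT := .quad sw36 sl36 sv36
noncomputable def dt37 : DT := .quad sw37 sl37 sv37
noncomputable def dt38 : DT := .quad sw38 sl38 sv38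
noncomputable def dt39 : DT := .quad sw39 sl39 sv39
noncomputable def dt40 : DT := .quad sw40 sl40 sv40
noncomputable def dt41 : DT := .quad sw41 sl41 sv41
noncomputable def dt42 : DT := .quad sw42 sl42 sv42
noncomputable def dt43 : DT := .quad sw43 sl43 sv43
noncomputable def dt44 : DT := .quad sw44 sl44 sv44
noncomputable def dt45 : DT := .quad sw45 sl45 sv45
noncomputable def dt46 : DT := .quad sw46 sl46 sv46
noncomputable def dt47 : DT := .quad sw47 sl47 sv47
noncomputable def dt48 : DT := .quad sw48 sl48 sv48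
noncomputable def dt49 : DT := .quad sw49 sl49 sv49
noncomputable def dt50 : DT := .clo
noncomputable def dt51 : DT := .quad sw51 sl51 sv51
noncomputable def dt52 : DT := .quad sw52 sl52 sv52
noncomputable def dt53 : DT := .quad sw53 sl53 sv53
noncomputable def dt54 : DT := .node ((Cn.rt 119 250).ng) dt27 dt28
noncomputable def dt55 : DT := .node ((Cn.rt 39 80).ng) dt26 dt54
noncomputable def dt56 : DT := .node ((Cn.rt 87857 200000).ng) dt29 dt30
noncomputable def dt57 : DT := .node ((Cn.rt 21 50).ng) dt31 dt32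
noncomputable def dt58 : DT := .node ((Cn.rt 43 100).ng) dt56 dt57
noncomputable def dt59 : DT := .node ((Cn.rt 93027 200000).ng) dt55 dt58
noncomputable def dt60 : DT := .node ((Cn.rt 3 8).ng) dt34 dt35
noncomputable def dt61 : DT := .node ((Cn.rt 2 5).ng) dt33 dt60
noncomputable def dt62 : DT := .node ((Cn.rt 3 10).ng) dt36 dt37
noncomputable def dt63 : DT := .node ((Cn.rt 1 10).ng) dt38 dt39
noncomputable def dt64 : DT := .node ((Cn.rt 1 5).ng) dt62 dt63
noncomputable def dt65 : DT := .node ((Cn.rt 7 20).ng) dt61 dt64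
noncomputable def dt66 : DT := .node ((Cn.rt 41 100).ng) dt59 dt65
noncomputable def dt67 : DT := .node (Cn.rt 3 10) dt41 dt42
noncomputable def dt68 : DT := .node (Cn.rt 1 5) dt40 dt67
noncomputable def dt69 : DT := .node (Cn.rt 3 8) dt43 dt44
noncomputable def dt70 : DT := .node (Cn.rt 2 5) dt45 dt46
noncomputable def dt71 : DT := .node (Cn.rt 39 100) dt69 dt70
noncomputable def dt72 : DT := .node (Cn.rt 7 20) dt68 dt71
noncomputable def dt73 : DT := .node (Cn.rt 43 100) dt48 dt49
noncomputable def dt74 : DT := .node (Cn.rt 21 50) dt47 dt73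
noncomputable def dt75 : DT := .node (Cn.rt 587 1262) dt50 dt51
noncomputable def dt76 : DT := .node (Cn.rt 39 80) dt52 dt53
noncomputable def dt77 : DT := .node (Cn.rt 119 250) dt75 dt76
noncomputable def dt78 : DT := .node (Cn.rt 2507 5707) dt74 dt77
noncomputable def dt79 : DT := .node (Cn.rt 41 100) dt72 dt78
noncomputable def dt80 : DT := .node (Cn.rt 1 10) dt66 dt79
noncomputable def dt81 : DT := .quad sw81 sl81 sv81
noncomputable def dt82 : DT := .quad sw82 sl82 sv82
noncomputable def dt83 : DT := .quad sw83 sl83 sv83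
noncomputable def dt84 : DT := .lin sl84 sv84
noncomputable def dt85 : DT := .quad sw85 sl85 sv85
noncomputable def dt86 : DT := .quad sw86 sl86 sv86
noncomputable def dt87 : DT := .quad sw87 sl87 sv87
noncomputable def dt88 : DT := .node ((Cn.rt 1 5).ng) dt82 dt83
noncomputable def dt89 : DT := .node ((Cn.rt 3 10).ng) dt81 dt88
noncomputable def dt90 : DT := .node (Cn.rt 1 10) dt84 dt85
noncomputable def dt91 : DT := .node (Cn.rt 3 10) dt86 dt87
noncomputable def dt92 : DT := .node (Cn.rt 1 5) dt90 dt91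
noncomputable def dt93 : DT := .node ((Cn.rt 1 10).ng) dt89 dt92
noncomputable def dd : SDat := ⟨dt25, kcg, dt80, Kh.T⟩
noncomputable def gf0 : Sg := ⟨cv1m, skf0, sxf0⟩
noncomputable def gf1 : Sg := ⟨cv1m, skf1, sxf1⟩
noncomputable def gf2 : Sg := ⟨cv1p, skf2, sxf2⟩
noncomputable def gf3 : Sg := ⟨cv1r, skf2, sxf2⟩
noncomputable def gl0 : Sg := ⟨cv4m, skl0, sxl0⟩
noncomputable def gl1 : Sg := ⟨cv4m, skl1, sxl1⟩
noncomputable def gl2 : Sg := ⟨cv4p, skl2, sxl2⟩
noncomputable def gl3 : Sg := ⟨cv4r, skl3, sxl3⟩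
noncomputable def vv : Vt := ⟨(Cn.rt 1 10), (Cn.rt 577 500), (Cn.rt 231 200), (Cn.rt 13 10), k0c, m0c, sbk, sbx, rhk, rhx, bf1q2, bx1q2, (Cn.rt 7 20), (Cn.rt 577 500), skm, dt93⟩
noncomputable def ff (q : ℕ) : Sg := match q with
  | 0 => gf0
  | 1 => gf1
  | 2 => gf2
  | _ => gf3
noncomputable def fl (q : ℕ) : Sg := match q with
  | 0 => gl0
  | 1 => gl1
  | 2 => gl2
  | _ => gl3
noncomputable def tt : STab 5 := ⟨dd, 0, 4, ff, fl, vv⟩
theorem kcl0 {p x : ℝ} (h1 : -1 / 2 ≤ p) (h2 : p ≤ -587 / 1262) : kcg.v p x = (817528293202419 / 13882000000000 + (x - 309 / 320) * (82050027949 / 1100000000)) + (360529613771973 / 1388200000000 + (x - 309 / 320) * (9337451553 / 55000000)) * p + (2799323 / 10000) * p ^ 2 := by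
  simp only [kcg, kcg_3, kcg_9, kcg_10, kcg_15, kcg_24, kcg_25, kcg_34, kcg_35, kcg_38, kcg_45, kcg_52, kcg_57, kcg_65, kcg_66, kcg_75, kcg_78, kcg_79, kcg_84, kcg_91, kcg_96, kcg_105, kcg_109, kcg_110, kcg_119, kcg_122, kcg_129, kcg_130, kcg_135, kcg_138, kcg_145, kcg_151, kcg_152, kcg_159, kcg_166, kcg_178, kcg_185, kcg_186, kcg_195, kcg_208]
  rcases eq_or_lt_of_le h1 with h | h1
  · subst h
    ((try push_cast); (repeat first | rw [if_pos (by linarith)] | rw [if_neg (by linarith)] | erw [if_pos (by linarith)] | erw [if_neg (by linarith)]); (try push_cast); (try ring1))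
  rcases eq_or_lt_of_le h2 with h | h2
  · subst h
    ((try push_cast); (repeat first | rw [if_pos (by linarith)] | rw [if_neg (by linarith)] | erw [if_pos (by linarith)] | erw [if_neg (by linarith)]); (try push_cast); (try ring1))
  · ((try push_cast); (repeat first | rw [if_pos (by linarith)] | rw [if_neg (by linarith)] | erw [if_pos (by linarith)] | erw [if_neg (by linarith)]); (try push_cast); (try ring1))
theorem kcl1 {p x : ℝ} (h1 : -587 / 1262 ≤ p) (h2 : p ≤ -2507 / 5707) : kcg.v p x = (29205135808557818720833 / 335218978737500000000 + (x - 309 / 320) * (694348361093131 / 9308750000000)) + (127751943972716327566933 / 335218978737500000000 + (x - 309 / 320) * (1580363674430931 / 9308750000000)) * p + (1026053 / 2500) * p ^ 2 := by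
  simp only [kcg, kcg_3, kcg_9, kcg_10, kcg_15, kcg_24, kcg_25, kcg_34, kcg_35, kcg_38, kcg_45, kcg_52, kcg_57, kcg_65, kcg_66, kcg_75, kcg_78, kcg_79, kcg_84, kcg_91, kcg_96, kcg_105, kcg_109, kcg_110, kcg_119, kcg_122, kcg_129, kcg_130, kcg_135, kcg_138, kcg_145, kcg_151, kcg_152, kcg_159, kcg_166, kcg_178, kcg_185, kcg_186, kcg_195, kcg_208]
  rcases eq_or_lt_of_le h1 with h | h1
  · subst h
    ((try push_cast); (repeat first | rw [if_pos (by linarith)] | rw [if_neg (by linarith)] | erw [if_pos (by linarith)] | erw [if_neg (by linarith)]); (try push_cast); (try ring1))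
  rcases eq_or_lt_of_le h2 with h | h2
  · subst h
    ((try push_cast); (repeat first | rw [if_pos (by linarith)] | rw [if_neg (by linarith)] | erw [if_pos (by linarith)] | erw [if_neg (by linarith)]); (try push_cast); (try ring1))
  · ((try push_cast); (repeat first | rw [if_pos (by linarith)] | rw [if_neg (by linarith)] | erw [if_pos (by linarith)] | erw [if_neg (by linarith)]); (try push_cast); (try ring1))
theorem kcl2 {p x : ℝ} (h1 : -2507 / 5707 ≤ p) (h2 : p ≤ -17 / 40) : kcg.v p x = (-513474969319382841 / 1550877250000000 + (x - 309 / 320) * (-96310193560870489 / 77543862500000)) + (-472380246328734479 / 310175450000000 + (x - 309 / 320) * (-90331061110040111 / 15508772500000)) * p + (-17567879 / 10000 + (x - 309 / 320) * (-3411387 / 500)) * p ^ 2 := by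
  simp only [kcg, kcg_3, kcg_9, kcg_10, kcg_15, kcg_24, kcg_25, kcg_34, kcg_35, kcg_38, kcg_45, kcg_52, kcg_57, kcg_65, kcg_66, kcg_75, kcg_78, kcg_79, kcg_84, kcg_91, kcg_96, kcg_105, kcg_109, kcg_110, kcg_119, kcg_122, kcg_129, kcg_130, kcg_135, kcg_138, kcg_145, kcg_151, kcg_152, kcg_159, kcg_166, kcg_178, kcg_185, kcg_186, kcg_195, kcg_208]
  rcases eq_or_lt_of_le h1 with h | h1
  · subst h
    ((try push_cast); (repeat first | rw [if_pos (by linarith)] | rw [if_neg (by linarith)] | erw [if_pos (by linarith)] | erw [if_neg (by linarith)]); (try push_cast); (try ring1))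
  rcases eq_or_lt_of_le h2 with h | h2
  · subst h
    ((try push_cast); (repeat first | rw [if_pos (by linarith)] | rw [if_neg (by linarith)] | erw [if_pos (by linarith)] | erw [if_neg (by linarith)]); (try push_cast); (try ring1))
  · ((try push_cast); (repeat first | rw [if_pos (by linarith)] | rw [if_neg (by linarith)] | erw [if_pos (by linarith)] | erw [if_neg (by linarith)]); (try push_cast); (try ring1))
theorem kcl3 {p x : ℝ} (h1 : -17 / 40 ≤ p) (h2 : p ≤ -41 / 100) : kcg.v p x = (-1376697517 / 100000000 + (x - 309 / 320) * (-9645681 / 1000000)) + (-14837797 / 500000 + (x - 309 / 320) * (-6289 / 250)) * p := by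
  simp only [kcg, kcg_3, kcg_9, kcg_10, kcg_15, kcg_24, kcg_25, kcg_34, kcg_35, kcg_38, kcg_45, kcg_52, kcg_57, kcg_65, kcg_66, kcg_75, kcg_78, kcg_79, kcg_84, kcg_91, kcg_96, kcg_105, kcg_109, kcg_110, kcg_119, kcg_122, kcg_129, kcg_130, kcg_135, kcg_138, kcg_145, kcg_151, kcg_152, kcg_159, kcg_166, kcg_178, kcg_185, kcg_186, kcg_195, kcg_208]
  rcases eq_or_lt_of_le h1 with h | h1
  · subst h
    ((try push_cast); (repeat first | rw [if_pos (by linarith)] | rw [if_neg (by linarith)] | erw [if_pos (by linarith)] | erw [if_neg (by linarith)]); (try push_cast); (try ring1))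
  rcases eq_or_lt_of_le h2 with h | h2
  · subst h
    ((try push_cast); (repeat first | rw [if_pos (by linarith)] | rw [if_neg (by linarith)] | erw [if_pos (by linarith)] | erw [if_neg (by linarith)]); (try push_cast); (try ring1))
  · ((try push_cast); (repeat first | rw [if_pos (by linarith)] | rw [if_neg (by linarith)] | erw [if_pos (by linarith)] | erw [if_neg (by linarith)]); (try push_cast); (try ring1))
theorem kcl4 {p x : ℝ} (h1 : -41 / 100 ≤ p) (h2 : p ≤ -3 / 10) : kcg.v p x = (19299253 / 1000000 + (x - 309 / 320) * (6101 / 10000)) + (3290577 / 25000 + (x - 309 / 320) * (124361 / 5000)) * p + (1967057 / 10000 + (x - 309 / 320) * (6101 / 100)) * p ^ 2 := by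
  simp only [kcg, kcg_3, kcg_9, kcg_10, kcg_15, kcg_24, kcg_25, kcg_34, kcg_35, kcg_38, kcg_45, kcg_52, kcg_57, kcg_65, kcg_66, kcg_75, kcg_78, kcg_79, kcg_84, kcg_91, kcg_96, kcg_105, kcg_109, kcg_110, kcg_119, kcg_122, kcg_129, kcg_130, kcg_135, kcg_138, kcg_145, kcg_151, kcg_152, kcg_159, kcg_166, kcg_178, kcg_185, kcg_186, kcg_195, kcg_208]
  rcases eq_or_lt_of_le h1 with h | h1
  · subst h
    ((try push_cast); (repeat first | rw [if_pos (by linarith)] | rw [if_neg (by linarith)] | erw [if_pos (by linarith)] | erw [if_neg (by linarith)]); (try push_cast); (try ring1))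
  rcases eq_or_lt_of_le h2 with h | h2
  · subst h
    ((try push_cast); (repeat first | rw [if_pos (by linarith)] | rw [if_neg (by linarith)] | erw [if_pos (by linarith)] | erw [if_neg (by linarith)]); (try push_cast); (try ring1))
  · ((try push_cast); (repeat first | rw [if_pos (by linarith)] | rw [if_neg (by linarith)] | erw [if_pos (by linarith)] | erw [if_neg (by linarith)]); (try push_cast); (try ring1))
theorem kcl5 {p x : ℝ} (h1 : -3 / 10 ≤ p) (h2 : p ≤ -1 / 10) : kcg.v p x = (-199469 / 1000000 + (x - 309 / 320) * (6101 / 10000)) + (163159 / 100000 + (x - 309 / 320) * (124361 / 5000)) * p + (-49867 / 2500 + (x - 309 / 320) * (6101 / 100)) * p ^ 2 := by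
  simp only [kcg, kcg_3, kcg_9, kcg_10, kcg_15, kcg_24, kcg_25, kcg_34, kcg_35, kcg_38, kcg_45, kcg_52, kcg_57, kcg_65, kcg_66, kcg_75, kcg_78, kcg_79, kcg_84, kcg_91, kcg_96, kcg_105, kcg_109, kcg_110, kcg_119, kcg_122, kcg_129, kcg_130, kcg_135, kcg_138, kcg_145, kcg_151, kcg_152, kcg_159, kcg_166, kcg_178, kcg_185, kcg_186, kcg_195, kcg_208]
  rcases eq_or_lt_of_le h1 with h | h1
  · subst h
    ((try push_cast); (repeat first | rw [if_pos (by linarith)] | rw [if_neg (by linarith)] | erw [if_pos (by linarith)] | erw [if_neg (by linarith)]); (try push_cast); (try ring1))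
  rcases eq_or_lt_of_le h2 with h | h2
  · subst h
    ((try push_cast); (repeat first | rw [if_pos (by linarith)] | rw [if_neg (by linarith)] | erw [if_pos (by linarith)] | erw [if_neg (by linarith)]); (try push_cast); (try ring1))
  · ((try push_cast); (repeat first | rw [if_pos (by linarith)] | rw [if_neg (by linarith)] | erw [if_pos (by linarith)] | erw [if_neg (by linarith)]); (try push_cast); (try ring1))
theorem kcl6 {p x : ℝ} (h1 : -1 / 10 ≤ p) (h2 : p ≤ 1 / 10) : kcg.v p x = (0) + (35131 / 6250 + (x - 309 / 320) * (63351 / 5000)) * p := by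
  simp only [kcg, kcg_3, kcg_9, kcg_10, kcg_15, kcg_24, kcg_25, kcg_34, kcg_35, kcg_38, kcg_45, kcg_52, kcg_57, kcg_65, kcg_66, kcg_75, kcg_78, kcg_79, kcg_84, kcg_91, kcg_96, kcg_105, kcg_109, kcg_110, kcg_119, kcg_122, kcg_129, kcg_130, kcg_135, kcg_138, kcg_145, kcg_151, kcg_152, kcg_159, kcg_166, kcg_178, kcg_185, kcg_186, kcg_195, kcg_208]
  rcases eq_or_lt_of_le h1 with h | h1
  · subst h
    ((try push_cast); (repeat first | rw [if_pos (by linarith)] | rw [if_neg (by linarith)] | erw [if_pos (by linarith)] | erw [if_neg (by linarith)]); (try push_cast); (try ring1))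
  rcases eq_or_lt_of_le h2 with h | h2
  · subst h
    ((try push_cast); (repeat first | rw [if_pos (by linarith)] | rw [if_neg (by linarith)] | erw [if_pos (by linarith)] | erw [if_neg (by linarith)]); (try push_cast); (try ring1))
  rcases lt_trichotomy p 0 with h | h | h
  · ((try push_cast); (repeat first | rw [if_pos (by linarith)] | rw [if_neg (by linarith)] | erw [if_pos (by linarith)] | erw [if_neg (by linarith)]); (try push_cast); (try ring1))
  · subst h
    ((try push_cast); (repeat first | rw [if_pos (by linarith)] | rw [if_neg (by linarith)] | erw [if_pos (by linarith)] | erw [if_neg (by linarith)]); (try push_cast); (try ring1))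
  · ((try push_cast); (repeat first | rw [if_pos (by linarith)] | rw [if_neg (by linarith)] | erw [if_pos (by linarith)] | erw [if_neg (by linarith)]); (try push_cast); (try ring1))
theorem kcl7 {p x : ℝ} (h1 : 1 / 10 ≤ p) (h2 : p ≤ 3 / 10) : kcg.v p x = (199469 / 1000000 + (x - 309 / 320) * (-6101 / 10000)) + (163159 / 100000 + (x - 309 / 320) * (124361 / 5000)) * p + (49867 / 2500 + (x - 309 / 320) * (-6101 / 100)) * p ^ 2 := by
  simp only [kcg, kcg_3, kcg_9, kcg_10, kcg_15, kcg_24, kcg_25, kcg_34, kcg_35, kcg_38, kcg_45, kcg_52, kcg_57, kcg_65, kcg_66, kcg_75, kcg_78, kcg_79, kcg_84, kcg_91, kcg_96, kcg_105, kcg_109, kcg_110, kcg_119, kcg_122, kcg_129, kcg_130, kcg_135, kcg_138, kcg_145, kcg_151, kcg_152, kcg_159, kcg_166, kcg_178, kcg_185, kcg_186, kcg_195, kcg_208]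
  rcases eq_or_lt_of_le h1 with h | h1
  · subst h
    ((try push_cast); (repeat first | rw [if_pos (by linarith)] | rw [if_neg (by linarith)] | erw [if_pos (by linarith)] | erw [if_neg (by linarith)]); (try push_cast); (try ring1))
  rcases eq_or_lt_of_le h2 with h | h2
  · subst h
    ((try push_cast); (repeat first | rw [if_pos (by linarith)] | rw [if_neg (by linarith)] | erw [if_pos (by linarith)] | erw [if_neg (by linarith)]); (try push_cast); (try ring1))
  · ((try push_cast); (repeat first | rw [if_pos (by linarith)] | rw [if_neg (by linarith)] | erw [if_pos (by linarith)] | erw [if_neg (by linarith)]); (try push_cast); (try ring1))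
theorem kcl8 {p x : ℝ} (h1 : 3 / 10 ≤ p) (h2 : p ≤ 41 / 100) : kcg.v p x = (-19299253 / 1000000 + (x - 309 / 320) * (-6101 / 10000)) + (3290577 / 25000 + (x - 309 / 320) * (124361 / 5000)) * p + (-1967057 / 10000 + (x - 309 / 320) * (-6101 / 100)) * p ^ 2 := by
  simp only [kcg, kcg_3, kcg_9, kcg_10, kcg_15, kcg_24, kcg_25, kcg_34, kcg_35, kcg_38, kcg_45, kcg_52, kcg_57, kcg_65, kcg_66, kcg_75, kcg_78, kcg_79, kcg_84, kcg_91, kcg_96, kcg_105, kcg_109, kcg_110, kcg_119, kcg_122, kcg_129, kcg_130, kcg_135, kcg_138, kcg_145, kcg_151, kcg_152, kcg_159, kcg_166, kcg_178, kcg_185, kcg_186, kcg_195, kcg_208]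
  rcases eq_or_lt_of_le h1 with h | h1
  · subst h
    ((try push_cast); (repeat first | rw [if_pos (by linarith)] | rw [if_neg (by linarith)] | erw [if_pos (by linarith)] | erw [if_neg (by linarith)]); (try push_cast); (try ring1))
  rcases eq_or_lt_of_le h2 with h | h2
  · subst h
    ((try push_cast); (repeat first | rw [if_pos (by linarith)] | rw [if_neg (by linarith)] | erw [if_pos (by linarith)] | erw [if_neg (by linarith)]); (try push_cast); (try ring1))
  · ((try push_cast); (repeat first | rw [if_pos (by linarith)] | rw [if_neg (by linarith)] | erw [if_pos (by linarith)] | erw [if_neg (by linarith)]); (try push_cast); (try ring1))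
theorem kcl9 {p x : ℝ} (h1 : 41 / 100 ≤ p) (h2 : p ≤ 17 / 40) : kcg.v p x = (1376697517 / 100000000 + (x - 309 / 320) * (9645681 / 1000000)) + (-14837797 / 500000 + (x - 309 / 320) * (-6289 / 250)) * p := by
  simp only [kcg, kcg_3, kcg_9, kcg_10, kcg_15, kcg_24, kcg_25, kcg_34, kcg_35, kcg_38, kcg_45, kcg_52, kcg_57, kcg_65, kcg_66, kcg_75, kcg_78, kcg_79, kcg_84, kcg_91, kcg_96, kcg_105, kcg_109, kcg_110, kcg_119, kcg_122, kcg_129, kcg_130, kcg_135, kcg_138, kcg_145, kcg_151, kcg_152, kcg_159, kcg_166, kcg_178, kcg_185, kcg_186, kcg_195, kcg_208]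
  rcases eq_or_lt_of_le h1 with h | h1
  · subst h
    ((try push_cast); (repeat first | rw [if_pos (by linarith)] | rw [if_neg (by linarith)] | erw [if_pos (by linarith)] | erw [if_neg (by linarith)]); (try push_cast); (try ring1))
  rcases eq_or_lt_of_le h2 with h | h2
  · subst h
    ((try push_cast); (repeat first | rw [if_pos (by linarith)] | rw [if_neg (by linarith)] | erw [if_pos (by linarith)] | erw [if_neg (by linarith)]); (try push_cast); (try ring1))
  · ((try push_cast); (repeat first | rw [if_pos (by linarith)] | rw [if_neg (by linarith)] | erw [if_pos (by linarith)] | erw [if_neg (by linarith)]); (try push_cast); (try ring1))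
theorem kcl10 {p x : ℝ} (h1 : 17 / 40 ≤ p) (h2 : p ≤ 2507 / 5707) : kcg.v p x = (513474969319382841 / 1550877250000000 + (x - 309 / 320) * (96310193560870489 / 77543862500000)) + (-472380246328734479 / 310175450000000 + (x - 309 / 320) * (-90331061110040111 / 15508772500000)) * p + (17567879 / 10000 + (x - 309 / 320) * (3411387 / 500)) * p ^ 2 := by
  simp only [kcg, kcg_3, kcg_9, kcg_10, kcg_15, kcg_24, kcg_25, kcg_34, kcg_35, kcg_38, kcg_45, kcg_52, kcg_57, kcg_65, kcg_66, kcg_75, kcg_78, kcg_79, kcg_84, kcg_91, kcg_96, kcg_105, kcg_109, kcg_110, kcg_119, kcg_122, kcg_129, kcg_130, kcg_135, kcg_138, kcg_145, kcg_151, kcg_152, kcg_159, kcg_166, kcg_178, kcg_185, kcg_186, kcg_195, kcg_208]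
  rcases eq_or_lt_of_le h1 with h | h1
  · subst h
    ((try push_cast); (repeat first | rw [if_pos (by linarith)] | rw [if_neg (by linarith)] | erw [if_pos (by linarith)] | erw [if_neg (by linarith)]); (try push_cast); (try ring1))
  rcases eq_or_lt_of_le h2 with h | h2
  · subst h
    ((try push_cast); (repeat first | rw [if_pos (by linarith)] | rw [if_neg (by linarith)] | erw [if_pos (by linarith)] | erw [if_neg (by linarith)]); (try push_cast); (try ring1))
  · ((try push_cast); (repeat first | rw [if_pos (by linarith)] | rw [if_neg (by linarith)] | erw [if_pos (by linarith)] | erw [if_neg (by linarith)]); (try push_cast); (try ring1))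
theorem kcl11 {p x : ℝ} (h1 : 2507 / 5707 ≤ p) (h2 : p ≤ 587 / 1262) : kcg.v p x = (-29205135808557818720833 / 335218978737500000000 + (x - 309 / 320) * (-694348361093131 / 9308750000000)) + (127751943972716327566933 / 335218978737500000000 + (x - 309 / 320) * (1580363674430931 / 9308750000000)) * p + (-1026053 / 2500) * p ^ 2 := by
  simp only [kcg, kcg_3, kcg_9, kcg_10, kcg_15, kcg_24, kcg_25, kcg_34, kcg_35, kcg_38, kcg_45, kcg_52, kcg_57, kcg_65, kcg_66, kcg_75, kcg_78, kcg_79, kcg_84, kcg_91, kcg_96, kcg_105, kcg_109, kcg_110, kcg_119, kcg_122, kcg_129, kcg_130, kcg_135, kcg_138, kcg_145, kcg_151, kcg_152, kcg_159, kcg_166, kcg_178, kcg_185, kcg_186, kcg_195, kcg_208]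
  rcases eq_or_lt_of_le h1 with h | h1
  · subst h
    ((try push_cast); (repeat first | rw [if_pos (by linarith)] | rw [if_neg (by linarith)] | erw [if_pos (by linarith)] | erw [if_neg (by linarith)]); (try push_cast); (try ring1))
  rcases eq_or_lt_of_le h2 with h | h2
  · subst h
    ((try push_cast); (repeat first | rw [if_pos (by linarith)] | rw [if_neg (by linarith)] | erw [if_pos (by linarith)] | erw [if_neg (by linarith)]); (try push_cast); (try ring1))
  · ((try push_cast); (repeat first | rw [if_pos (by linarith)] | rw [if_neg (by linarith)] | erw [if_pos (by linarith)] | erw [if_neg (by linarith)]); (try push_cast); (try ring1))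
theorem kcl12 {p x : ℝ} (h1 : 587 / 1262 ≤ p) (h2 : p ≤ 1 / 2) : kcg.v p x = (-817528293202419 / 13882000000000 + (x - 309 / 320) * (-82050027949 / 1100000000)) + (360529613771973 / 1388200000000 + (x - 309 / 320) * (9337451553 / 55000000)) * p + (-2799323 / 10000) * p ^ 2 := by
  simp only [kcg, kcg_3, kcg_9, kcg_10, kcg_15, kcg_24, kcg_25, kcg_34, kcg_35, kcg_38, kcg_45, kcg_52, kcg_57, kcg_65, kcg_66, kcg_75, kcg_78, kcg_79, kcg_84, kcg_91, kcg_96, kcg_105, kcg_109, kcg_110, kcg_119, kcg_122, kcg_129, kcg_130, kcg_135, kcg_138, kcg_145, kcg_151, kcg_152, kcg_159, kcg_166, kcg_178, kcg_185, kcg_186, kcg_195, kcg_208]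
  rcases eq_or_lt_of_le h1 with h | h1
  · subst h
    ((try push_cast); (repeat first | rw [if_pos (by linarith)] | rw [if_neg (by linarith)] | erw [if_pos (by linarith)] | erw [if_neg (by linarith)]); (try push_cast); (try ring1))
  rcases eq_or_lt_of_le h2 with h | h2
  · subst h
    ((try push_cast); (repeat first | rw [if_pos (by linarith)] | rw [if_neg (by linarith)] | erw [if_pos (by linarith)] | erw [if_neg (by linarith)]); (try push_cast); (try ring1))
  · ((try push_cast); (repeat first | rw [if_pos (by linarith)] | rw [if_neg (by linarith)] | erw [if_pos (by linarith)] | erw [if_neg (by linarith)]); (try push_cast); (try ring1))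
theorem kvh0 {p x : ℝ} (h2 : p ≤ -587 / 1262) : dt25.kv p x = (817528293202419 / 13882000000000 + (x - 309 / 320) * (82050027949 / 1100000000)) + (360529613771973 / 1388200000000 + (x - 309 / 320) * (9337451553 / 55000000)) * p + (2799323 / 10000) * p ^ 2 := by
  refine (DT.kv_le (by simp only [Cn.rt_v, Cn.ng_v]; push_cast; linarith)).trans ?_
  refine (DT.kv_le (by simp only [Cn.rt_v, Cn.ng_v]; push_cast; linarith)).trans ?_
  refine (DT.kv_le (by simp only [Cn.rt_v, Cn.ng_v]; push_cast; linarith)).trans ?_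
  simp only [dt1, DT.kv, sw1, sl1, sv1]
  ((try push_cast); ring1)
theorem kvh1 {p x : ℝ} (h1 : -587 / 1262 < p) (h2 : p ≤ -2507 / 5707) : dt25.kv p x = (29205135808557818720833 / 335218978737500000000 + (x - 309 / 320) * (694348361093131 / 9308750000000)) + (127751943972716327566933 / 335218978737500000000 + (x - 309 / 320) * (1580363674430931 / 9308750000000)) * p + (1026053 / 2500) * p ^ 2 := by
  refine (DT.kv_le (by simp only [Cn.rt_v, Cn.ng_v]; push_cast; linarith)).trans ?_
  refine (DT.kv_le (by simp only [Cn.rt_v, Cn.ng_v]; push_cast; linarith)).trans ?_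
  refine (DT.kv_gt (by simp only [Cn.rt_v, Cn.ng_v]; push_cast; linarith)).trans ?_
  refine (DT.kv_le (by simp only [Cn.rt_v, Cn.ng_v]; push_cast; linarith)).trans ?_
  simp only [dt2, DT.kv, sw2, sl2, sv2]
  ((try push_cast); ring1)
theorem kvh2 {p x : ℝ} (h1 : -2507 / 5707 < p) (h2 : p ≤ -17 / 40) : dt25.kv p x = (-513474969319382841 / 1550877250000000 + (x - 309 / 320) * (-96310193560870489 / 77543862500000)) + (-472380246328734479 / 310175450000000 + (x - 309 / 320) * (-90331061110040111 / 15508772500000)) * p + (-17567879 / 10000 + (x - 309 / 320) * (-3411387 / 500)) * p ^ 2 := by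
  refine (DT.kv_le (by simp only [Cn.rt_v, Cn.ng_v]; push_cast; linarith)).trans ?_
  refine (DT.kv_le (by simp only [Cn.rt_v, Cn.ng_v]; push_cast; linarith)).trans ?_
  refine (DT.kv_gt (by simp only [Cn.rt_v, Cn.ng_v]; push_cast; linarith)).trans ?_
  refine (DT.kv_gt (by simp only [Cn.rt_v, Cn.ng_v]; push_cast; linarith)).trans ?_
  simp only [dt3, DT.kv, sw3, sl3, sv3]
  ((try push_cast); ring1)
theorem kvh3 {p x : ℝ} (h1 : -17 / 40 < p) (h2 : p ≤ -41 / 100) : dt25.kv p x = (-1376697517 / 100000000 + (x - 309 / 320) * (-9645681 / 1000000)) + (-14837797 / 500000 + (x - 309 / 320) * (-6289 / 250)) * p := by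
  refine (DT.kv_le (by simp only [Cn.rt_v, Cn.ng_v]; push_cast; linarith)).trans ?_
  refine (DT.kv_gt (by simp only [Cn.rt_v, Cn.ng_v]; push_cast; linarith)).trans ?_
  refine (DT.kv_le (by simp only [Cn.rt_v, Cn.ng_v]; push_cast; linarith)).trans ?_
  simp only [dt4, DT.kv, sl4, sv4]
  ((try push_cast); ring1)
theorem kvh4 {p x : ℝ} (h1 : -41 / 100 < p) (h2 : p ≤ -3 / 10) : dt25.kv p x = (19299253 / 1000000 + (x - 309 / 320) * (6101 / 10000)) + (3290577 / 25000 + (x - 309 / 320) * (124361 / 5000)) * p + (1967057 / 10000 + (x - 309 / 320) * (6101 / 100)) * p ^ 2 := by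
  refine (DT.kv_le (by simp only [Cn.rt_v, Cn.ng_v]; push_cast; linarith)).trans ?_
  refine (DT.kv_gt (by simp only [Cn.rt_v, Cn.ng_v]; push_cast; linarith)).trans ?_
  refine (DT.kv_gt (by simp only [Cn.rt_v, Cn.ng_v]; push_cast; linarith)).trans ?_
  refine (DT.kv_le (by simp only [Cn.rt_v, Cn.ng_v]; push_cast; linarith)).trans ?_
  simp only [dt5, DT.kv, sw5, sl5, sv5]
  ((try push_cast); ring1)
theorem kvh5 {p x : ℝ} (h1 : -3 / 10 < p) (h2 : p ≤ -1 / 10) : dt25.kv p x = (-199469 / 1000000 + (x - 309 / 320) * (6101 / 10000)) + (163159 / 100000 + (x - 309 / 320) * (124361 / 5000)) * p + (-49867 / 2500 + (x - 309 / 320) * (6101 / 100)) * p ^ 2 := by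
  refine (DT.kv_le (by simp only [Cn.rt_v, Cn.ng_v]; push_cast; linarith)).trans ?_
  refine (DT.kv_gt (by simp only [Cn.rt_v, Cn.ng_v]; push_cast; linarith)).trans ?_
  refine (DT.kv_gt (by simp only [Cn.rt_v, Cn.ng_v]; push_cast; linarith)).trans ?_
  refine (DT.kv_gt (by simp only [Cn.rt_v, Cn.ng_v]; push_cast; linarith)).trans ?_
  simp only [dt6, DT.kv, sw6, sl6, sv6]
  ((try push_cast); ring1)
theorem kvh6 {p x : ℝ} (h1 : -1 / 10 < p) (h2 : p ≤ 1 / 10) : dt25.kv p x = (0) + (35131 / 6250 + (x - 309 / 320) * (63351 / 5000)) * p := by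
  refine (DT.kv_gt (by simp only [Cn.rt_v, Cn.ng_v]; push_cast; linarith)).trans ?_
  refine (DT.kv_le (by simp only [Cn.rt_v, Cn.ng_v]; push_cast; linarith)).trans ?_
  refine (DT.kv_le (by simp only [Cn.rt_v, Cn.ng_v]; push_cast; linarith)).trans ?_
  simp only [dt7, DT.kv, sl7, sv7]
  ((try push_cast); ring1)
theorem kvh7 {p x : ℝ} (h1 : 1 / 10 < p) (h2 : p ≤ 3 / 10) : dt25.kv p x = (199469 / 1000000 + (x - 309 / 320) * (-6101 / 10000)) + (163159 / 100000 + (x - 309 / 320) * (124361 / 5000)) * p + (49867 / 2500 + (x - 309 / 320) * (-6101 / 100)) * p ^ 2 := by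
  refine (DT.kv_gt (by simp only [Cn.rt_v, Cn.ng_v]; push_cast; linarith)).trans ?_
  refine (DT.kv_le (by simp only [Cn.rt_v, Cn.ng_v]; push_cast; linarith)).trans ?_
  refine (DT.kv_gt (by simp only [Cn.rt_v, Cn.ng_v]; push_cast; linarith)).trans ?_
  refine (DT.kv_le (by simp only [Cn.rt_v, Cn.ng_v]; push_cast; linarith)).trans ?_
  simp only [dt8, DT.kv, sw8, sl8, sv8]
  ((try push_cast); ring1)
theorem kvh8 {p x : ℝ} (h1 : 3 / 10 < p) (h2 : p ≤ 41 / 100) : dt25.kv p x = (-19299253 / 1000000 + (x - 309 / 320) * (-6101 / 10000)) + (3290577 / 25000 + (x - 309 / 320) * (124361 / 5000)) * p + (-1967057 / 10000 + (x - 309 / 320) * (-6101 / 100)) * p ^ 2 := by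
  refine (DT.kv_gt (by simp only [Cn.rt_v, Cn.ng_v]; push_cast; linarith)).trans ?_
  refine (DT.kv_le (by simp only [Cn.rt_v, Cn.ng_v]; push_cast; linarith)).trans ?_
  refine (DT.kv_gt (by simp only [Cn.rt_v, Cn.ng_v]; push_cast; linarith)).trans ?_
  refine (DT.kv_gt (by simp only [Cn.rt_v, Cn.ng_v]; push_cast; linarith)).trans ?_
  simp only [dt9, DT.kv, sw9, sl9, sv9]
  ((try push_cast); ring1)
theorem kvh9 {p x : ℝ} (h1 : 41 / 100 < p) (h2 : p ≤ 17 / 40) : dt25.kv p x = (1376697517 / 100000000 + (x - 309 / 320) * (9645681 / 1000000)) + (-14837797 / 500000 + (x - 309 / 320) * (-6289 / 250)) * p := by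
  refine (DT.kv_gt (by simp only [Cn.rt_v, Cn.ng_v]; push_cast; linarith)).trans ?_
  refine (DT.kv_gt (by simp only [Cn.rt_v, Cn.ng_v]; push_cast; linarith)).trans ?_
  refine (DT.kv_le (by simp only [Cn.rt_v, Cn.ng_v]; push_cast; linarith)).trans ?_
  refine (DT.kv_le (by simp only [Cn.rt_v, Cn.ng_v]; push_cast; linarith)).trans ?_
  simp only [dt10, DT.kv, sl10, sv10]
  ((try push_cast); ring1)
theorem kvh10 {p x : ℝ} (h1 : 17 / 40 < p) (h2 : p ≤ 2507 / 5707) : dt25.kv p x = (513474969319382841 / 1550877250000000 + (x - 309 / 320) * (96310193560870489 / 77543862500000)) + (-472380246328734479 / 310175450000000 + (x - 309 / 320) * (-90331061110040111 / 15508772500000)) * p + (17567879 / 10000 + (x - 309 / 320) * (3411387 / 500)) * p ^ 2 := by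
  refine (DT.kv_gt (by simp only [Cn.rt_v, Cn.ng_v]; push_cast; linarith)).trans ?_
  refine (DT.kv_gt (by simp only [Cn.rt_v, Cn.ng_v]; push_cast; linarith)).trans ?_
  refine (DT.kv_le (by simp only [Cn.rt_v, Cn.ng_v]; push_cast; linarith)).trans ?_
  refine (DT.kv_gt (by simp only [Cn.rt_v, Cn.ng_v]; push_cast; linarith)).trans ?_
  simp only [dt11, DT.kv, sw11, sl11, sv11]
  ((try push_cast); ring1)
theorem kvh11 {p x : ℝ} (h1 : 2507 / 5707 < p) (h2 : p ≤ 587 / 1262) : dt25.kv p x = (-29205135808557818720833 / 335218978737500000000 + (x - 309 / 320) * (-694348361093131 / 9308750000000)) + (127751943972716327566933 / 335218978737500000000 + (x - 309 / 320) * (1580363674430931 / 9308750000000)) * p + (-1026053 / 2500) * p ^ 2 := by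
  refine (DT.kv_gt (by simp only [Cn.rt_v, Cn.ng_v]; push_cast; linarith)).trans ?_
  refine (DT.kv_gt (by simp only [Cn.rt_v, Cn.ng_v]; push_cast; linarith)).trans ?_
  refine (DT.kv_gt (by simp only [Cn.rt_v, Cn.ng_v]; push_cast; linarith)).trans ?_
  refine (DT.kv_le (by simp only [Cn.rt_v, Cn.ng_v]; push_cast; linarith)).trans ?_
  simp only [dt12, DT.kv, sw12, sl12, sv12]
  ((try push_cast); ring1)
theorem kvh12 {p x : ℝ} (h1 : 587 / 1262 < p) (h2 : p ≤ 1 / 2) : dt25.kv p x = (-817528293202419 / 13882000000000 + (x - 309 / 320) * (-82050027949 / 1100000000)) + (360529613771973 / 1388200000000 + (x - 309 / 320) * (9337451553 / 55000000)) * p + (-2799323 / 10000) * p ^ 2 := by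
  refine (DT.kv_gt (by simp only [Cn.rt_v, Cn.ng_v]; push_cast; linarith)).trans ?_
  refine (DT.kv_gt (by simp only [Cn.rt_v, Cn.ng_v]; push_cast; linarith)).trans ?_
  refine (DT.kv_gt (by simp only [Cn.rt_v, Cn.ng_v]; push_cast; linarith)).trans ?_
  refine (DT.kv_gt (by simp only [Cn.rt_v, Cn.ng_v]; push_cast; linarith)).trans ?_
  simp only [dt13, DT.kv, sw13, sl13, sv13]
  ((try push_cast); ring1)
theorem kvl0 {p x : ℝ} (h1 : -1 / 2 ≤ p) (h2 : p ≤ -587 / 1262) : dt25.kv p x = (817528293202419 / 13882000000000 + (x - 309 / 320) * (82050027949 / 1100000000)) + (360529613771973 / 1388200000000 + (x - 309 / 320) * (9337451553 / 55000000)) * p + (2799323 / 10000) * p ^ 2 := by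
  exact kvh0 h2
theorem kvl1 {p x : ℝ} (h1 : -587 / 1262 ≤ p) (h2 : p ≤ -2507 / 5707) : dt25.kv p x = (29205135808557818720833 / 335218978737500000000 + (x - 309 / 320) * (694348361093131 / 9308750000000)) + (127751943972716327566933 / 335218978737500000000 + (x - 309 / 320) * (1580363674430931 / 9308750000000)) * p + (1026053 / 2500) * p ^ 2 := by
  rcases eq_or_lt_of_le h1 with h | h1
  · subst h
    rw [kvh0 (by norm_num)]
    ring1
  · exact kvh1 h1 h2
theorem kvl2 {p x : ℝ} (h1 : -2507 / 5707 ≤ p) (h2 : p ≤ -17 / 40) : dt25.kv p x = (-513474969319382841 / 1550877250000000 + (x - 309 / 320) * (-96310193560870489 / 77543862500000)) + (-472380246328734479 / 310175450000000 + (x - 309 / 320) * (-90331061110040111 / 15508772500000)) * p + (-17567879 / 10000 + (x - 309 / 320) * (-3411387 / 500)) * p ^ 2 := by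
  rcases eq_or_lt_of_le h1 with h | h1
  · subst h
    rw [kvh1 (by norm_num) (by norm_num)]
    ring1
  · exact kvh2 h1 h2
theorem kvl3 {p x : ℝ} (h1 : -17 / 40 ≤ p) (h2 : p ≤ -41 / 100) : dt25.kv p x = (-1376697517 / 100000000 + (x - 309 / 320) * (-9645681 / 1000000)) + (-14837797 / 500000 + (x - 309 / 320) * (-6289 / 250)) * p := by
  rcases eq_or_lt_of_le h1 with h | h1
  · subst h
    rw [kvh2 (by norm_num) (by norm_num)]
    ring1
  · exact kvh3 h1 h2
theorem kvl4 {p x : ℝ} (h1 : -41 / 100 ≤ p) (h2 : p ≤ -3 / 10) : dt25.kv p x = (19299253 / 1000000 + (x - 309 / 320) * (6101 / 10000)) + (3290577 / 25000 + (x - 309 / 320) * (124361 / 5000)) * p + (1967057 / 10000 + (x - 309 / 320) * (6101 / 100)) * p ^ 2 := by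
  rcases eq_or_lt_of_le h1 with h | h1
  · subst h
    rw [kvh3 (by norm_num) (by norm_num)]
    ring1
  · exact kvh4 h1 h2
theorem kvl5 {p x : ℝ} (h1 : -3 / 10 ≤ p) (h2 : p ≤ -1 / 10) : dt25.kv p x = (-199469 / 1000000 + (x - 309 / 320) * (6101 / 10000)) + (163159 / 100000 + (x - 309 / 320) * (124361 / 5000)) * p + (-49867 / 2500 + (x - 309 / 320) * (6101 / 100)) * p ^ 2 := by
  rcases eq_or_lt_of_le h1 with h | h1
  · subst h
    rw [kvh4 (by norm_num) (by norm_num)]
    ring1
  · exact kvh5 h1 h2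
theorem kvl6 {p x : ℝ} (h1 : -1 / 10 ≤ p) (h2 : p ≤ 1 / 10) : dt25.kv p x = (0) + (35131 / 6250 + (x - 309 / 320) * (63351 / 5000)) * p := by
  rcases eq_or_lt_of_le h1 with h | h1
  · subst h
    rw [kvh5 (by norm_num) (by norm_num)]
    ring1
  · exact kvh6 h1 h2
theorem kvl7 {p x : ℝ} (h1 : 1 / 10 ≤ p) (h2 : p ≤ 3 / 10) : dt25.kv p x = (199469 / 1000000 + (x - 309 / 320) * (-6101 / 10000)) + (163159 / 100000 + (x - 309 / 320) * (124361 / 5000)) * p + (49867 / 2500 + (x - 309 / 320) * (-6101 / 100)) * p ^ 2 := by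
  rcases eq_or_lt_of_le h1 with h | h1
  · subst h
    rw [kvh6 (by norm_num) (by norm_num)]
    ring1
  · exact kvh7 h1 h2
theorem kvl8 {p x : ℝ} (h1 : 3 / 10 ≤ p) (h2 : p ≤ 41 / 100) : dt25.kv p x = (-19299253 / 1000000 + (x - 309 / 320) * (-6101 / 10000)) + (3290577 / 25000 + (x - 309 / 320) * (124361 / 5000)) * p + (-1967057 / 10000 + (x - 309 / 320) * (-6101 / 100)) * p ^ 2 := by
  rcases eq_or_lt_of_le h1 with h | h1
  · subst h
    rw [kvh7 (by norm_num) (by norm_num)]
    ring1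
  · exact kvh8 h1 h2
theorem kvl9 {p x : ℝ} (h1 : 41 / 100 ≤ p) (h2 : p ≤ 17 / 40) : dt25.kv p x = (1376697517 / 100000000 + (x - 309 / 320) * (9645681 / 1000000)) + (-14837797 / 500000 + (x - 309 / 320) * (-6289 / 250)) * p := by
  rcases eq_or_lt_of_le h1 with h | h1
  · subst h
    rw [kvh8 (by norm_num) (by norm_num)]
    ring1
  · exact kvh9 h1 h2
theorem kvl10 {p x : ℝ} (h1 : 17 / 40 ≤ p) (h2 : p ≤ 2507 / 5707) : dt25.kv p x = (513474969319382841 / 1550877250000000 + (x - 309 / 320) * (96310193560870489 / 77543862500000)) + (-472380246328734479 / 310175450000000 + (x - 309 / 320) * (-90331061110040111 / 15508772500000)) * p + (17567879 / 10000 + (x - 309 / 320) * (3411387 / 500)) * p ^ 2 := by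
  rcases eq_or_lt_of_le h1 with h | h1
  · subst h
    rw [kvh9 (by norm_num) (by norm_num)]
    ring1
  · exact kvh10 h1 h2
theorem kvl11 {p x : ℝ} (h1 : 2507 / 5707 ≤ p) (h2 : p ≤ 587 / 1262) : dt25.kv p x = (-29205135808557818720833 / 335218978737500000000 + (x - 309 / 320) * (-694348361093131 / 9308750000000)) + (127751943972716327566933 / 335218978737500000000 + (x - 309 / 320) * (1580363674430931 / 9308750000000)) * p + (-1026053 / 2500) * p ^ 2 := by
  rcases eq_or_lt_of_le h1 with h | h1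
  · subst h
    rw [kvh10 (by norm_num) (by norm_num)]
    ring1
  · exact kvh11 h1 h2
theorem kvl12 {p x : ℝ} (h1 : 587 / 1262 ≤ p) (h2 : p ≤ 1 / 2) : dt25.kv p x = (-817528293202419 / 13882000000000 + (x - 309 / 320) * (-82050027949 / 1100000000)) + (360529613771973 / 1388200000000 + (x - 309 / 320) * (9337451553 / 55000000)) * p + (-2799323 / 10000) * p ^ 2 := by
  rcases eq_or_lt_of_le h1 with h | h1
  · subst h
    rw [kvh11 (by norm_num) (by norm_num)]
    ring1
  · exact kvh12 h1 h2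
theorem kfe {x p : ℝ} (h : |p| ≤ 1 / 2) : kcg.v p x = dt25.kv p x := by
  obtain ⟨h1, h2⟩ := abs_le.1 h
  rcases le_total p (-587 / 1262) with g0 | g1000
  · rw [kcl0 (by linarith) g0, kvl0 (by linarith) g0]
  rcases le_total p (-2507 / 5707) with g1 | g1001
  · rw [kcl1 g1000 g1, kvl1 g1000 g1]
  rcases le_total p (-17 / 40) with g2 | g1002
  · rw [kcl2 g1001 g2, kvl2 g1001 g2]
  rcases le_total p (-41 / 100) with g3 | g1003
  · rw [kcl3 g1002 g3, kvl3 g1002 g3]
  rcases le_total p (-3 / 10) with g4 | g1004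
  · rw [kcl4 g1003 g4, kvl4 g1003 g4]
  rcases le_total p (-1 / 10) with g5 | g1005
  · rw [kcl5 g1004 g5, kvl5 g1004 g5]
  rcases le_total p (1 / 10) with g6 | g1006
  · rw [kcl6 g1005 g6, kvl6 g1005 g6]
  rcases le_total p (3 / 10) with g7 | g1007
  · rw [kcl7 g1006 g7, kvl7 g1006 g7]
  rcases le_total p (41 / 100) with g8 | g1008
  · rw [kcl8 g1007 g8, kvl8 g1007 g8]
  rcases le_total p (17 / 40) with g9 | g1009
  · rw [kcl9 g1008 g9, kvl9 g1008 g9]
  rcases le_total p (2507 / 5707) with g10 | g1010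
  · rw [kcl10 g1009 g10, kvl10 g1009 g10]
  rcases le_total p (587 / 1262) with g11 | g1011
  · rw [kcl11 g1010 g11, kvl11 g1010 g11]
  · rw [kcl12 g1011 (by linarith), kvl12 g1011 (by linarith)]
theorem odd {x p : ℝ} (h : |p| ≤ 1 / 2) : kcg.v (-p) x = -kcg.v p x := by
  obtain ⟨h1, h2⟩ := abs_le.1 h
  rcases le_total p (-587 / 1262) with g0 | g1000
  · rw [kcl0 (by linarith) g0, kcl12 (p := -p) (by linarith) (by linarith)]; ring
  rcases le_total p (-2507 / 5707) with g1 | g1001
  · rw [kcl1 g1000 g1, kcl11 (p := -p) (by linarith) (by linarith)]; ring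
  rcases le_total p (-17 / 40) with g2 | g1002
  · rw [kcl2 g1001 g2, kcl10 (p := -p) (by linarith) (by linarith)]; ring
  rcases le_total p (-41 / 100) with g3 | g1003
  · rw [kcl3 g1002 g3, kcl9 (p := -p) (by linarith) (by linarith)]; ring
  rcases le_total p (-3 / 10) with g4 | g1004
  · rw [kcl4 g1003 g4, kcl8 (p := -p) (by linarith) (by linarith)]; ring
  rcases le_total p (-1 / 10) with g5 | g1005
  · rw [kcl5 g1004 g5, kcl7 (p := -p) (by linarith) (by linarith)]; ring
  rcases le_total p (1 / 10) with g6 | g1006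
  · rw [kcl6 g1005 g6, kcl6 (p := -p) (by linarith) (by linarith)]; ring
  rcases le_total p (3 / 10) with g7 | g1007
  · rw [kcl7 g1006 g7, kcl5 (p := -p) (by linarith) (by linarith)]; ring
  rcases le_total p (41 / 100) with g8 | g1008
  · rw [kcl8 g1007 g8, kcl4 (p := -p) (by linarith) (by linarith)]; ring
  rcases le_total p (17 / 40) with g9 | g1009
  · rw [kcl9 g1008 g9, kcl3 (p := -p) (by linarith) (by linarith)]; ring
  rcases le_total p (2507 / 5707) with g10 | g1010
  · rw [kcl10 g1009 g10, kcl2 (p := -p) (by linarith) (by linarith)]; ring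
  rcases le_total p (587 / 1262) with g11 | g1011
  · rw [kcl11 g1010 g11, kcl1 (p := -p) (by linarith) (by linarith)]; ring
  · rw [kcl12 g1011 (by linarith), kcl0 (p := -p) (by linarith) (by linarith)]; ring
theorem ctA : cT (2507 / 5707) = 6373 / 11414 := by
  unfold cT
  rw [show (3 / 4 * (1 - (2507 / 5707 : ℝ) ^ 2)) = (4440 / 5707) ^ 2 by norm_num, Real.sqrt_sq (by norm_num)]
  norm_num
theorem ctB : cT (587 / 1262) = 337 / 631 := by
  unfold cT
  rw [show (3 / 4 * (1 - (587 / 1262 : ℝ) ^ 2)) = (1935 / 2524) ^ 2 by norm_num, Real.sqrt_sq (by norm_num)]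
  norm_num
theorem kgA {x : ℝ} : kcg.v (2507 / 5707) x = (136178247 / 125000000 + (x - 309 / 320) * (-79337 / 6250000)) := by
  rw [kcl10 (by norm_num) (by norm_num)]
  ring
theorem kgB {x : ℝ} : kcg.v (587 / 1262) x = (1345515973 / 1000000000 + (x - 309 / 320) * (437584351 / 100000000)) := by
  rw [kcl11 (by norm_num) (by norm_num)]
  ring
theorem ka_dt1 (x : ℝ) : dt1.kv (-1 / 2) x = (-980746903 / 1000000000 + (x - 309 / 320) * (-1029498871 / 100000000)) := by
  simp only [dt1, DT.kv, sw1, sl1, sv1]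
  ((try push_cast); ring1)
theorem kb_dt1 (x : ℝ) : dt1.kv (-587 / 1262) x = (-1345515973 / 1000000000 + (x - 309 / 320) * (-437584351 / 100000000)) := by
  simp only [dt1, DT.kv, sw1, sl1, sv1]
  ((try push_cast); ring1)
theorem ka_dt2 (x : ℝ) : dt2.kv (-587 / 1262) x = (-1345515973 / 1000000000 + (x - 309 / 320) * (-437584351 / 100000000)) := by
  simp only [dt2, DT.kv, sw2, sl2, sv2]
  ((try push_cast); ring1)
theorem kb_dt2 (x : ℝ) : dt2.kv (-2507 / 5707) x = (-136178247 / 125000000 + (x - 309 / 320) * (79337 / 6250000)) := by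
  simp only [dt2, DT.kv, sw2, sl2, sv2]
  ((try push_cast); ring1)
theorem ka_dt3 (x : ℝ) : dt3.kv (-2507 / 5707) x = (-136178247 / 125000000 + (x - 309 / 320) * (79337 / 6250000)) := by
  simp only [dt3, DT.kv, sw3, sl3, sv3]
  ((try push_cast); ring1)
theorem kb_dt3 (x : ℝ) : dt3.kv (-17 / 40) x = (-28871193 / 25000000 + (x - 309 / 320) * (1045619 / 1000000)) := by
  simp only [dt3, DT.kv, sw3, sl3, sv3]
  ((try push_cast); ring1)
theorem ka_dt14 (x : ℝ) : dt14.kv (-587 / 1262) x = (-1345515973 / 1000000000 + (x - 309 / 320) * (-437584351 / 100000000)) :=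
  (DT.kv_le (by simp only [Cn.rt_v, Cn.ng_v]; norm_num)).trans (ka_dt2 x)
theorem kb_dt14 (x : ℝ) : dt14.kv (-17 / 40) x = (-28871193 / 25000000 + (x - 309 / 320) * (1045619 / 1000000)) :=
  (DT.kv_gt (by simp only [Cn.rt_v, Cn.ng_v]; norm_num)).trans (kb_dt3 x)
theorem ka_dt15 (x : ℝ) : dt15.kv (-1 / 2) x = (-980746903 / 1000000000 + (x - 309 / 320) * (-1029498871 / 100000000)) :=
  (DT.kv_le (by simp only [Cn.rt_v, Cn.ng_v]; norm_num)).trans (ka_dt1 x)
theorem kb_dt15 (x : ℝ) : dt15.kv (-17 / 40) x = (-28871193 / 25000000 + (x - 309 / 320) * (1045619 / 1000000)) :=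
  (DT.kv_gt (by simp only [Cn.rt_v, Cn.ng_v]; norm_num)).trans (kb_dt14 x)
theorem ka_dt4 (x : ℝ) : dt4.kv (-17 / 40) x = (-28871193 / 25000000 + (x - 309 / 320) * (1045619 / 1000000)) := by
  simp only [dt4, DT.kv, sl4, sv4]
  ((try push_cast); ring1)
theorem kb_dt4 (x : ℝ) : dt4.kv (-41 / 100) x = (-159998163 / 100000000 + (x - 309 / 320) * (668279 / 1000000)) := by
  simp only [dt4, DT.kv, sl4, sv4]
  ((try push_cast); ring1)
theorem ka_dt5 (x : ℝ) : dt5.kv (-41 / 100) x = (-159998163 / 100000000 + (x - 309 / 320) * (668279 / 1000000)) := by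
  simp only [dt5, DT.kv, sw5, sl5, sv5]
  ((try push_cast); ring1)
theorem kb_dt5 (x : ℝ) : dt5.kv (-3 / 10) x = (-1242079 / 500000 + (x - 309 / 320) * (-68033 / 50000)) := by
  simp only [dt5, DT.kv, sw5, sl5, sv5]
  ((try push_cast); ring1)
theorem ka_dt6 (x : ℝ) : dt6.kv (-3 / 10) x = (-1242079 / 500000 + (x - 309 / 320) * (-68033 / 50000)) := by
  simp only [dt6, DT.kv, sw6, sl6, sv6]
  ((try push_cast); ring1)
theorem kb_dt6 (x : ℝ) : dt6.kv (-1 / 10) x = (-35131 / 62500 + (x - 309 / 320) * (-63351 / 50000)) := by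
  simp only [dt6, DT.kv, sw6, sl6, sv6]
  ((try push_cast); ring1)
theorem ka_dt16 (x : ℝ) : dt16.kv (-41 / 100) x = (-159998163 / 100000000 + (x - 309 / 320) * (668279 / 1000000)) :=
  (DT.kv_le (by simp only [Cn.rt_v, Cn.ng_v]; norm_num)).trans (ka_dt5 x)
theorem kb_dt16 (x : ℝ) : dt16.kv (-1 / 10) x = (-35131 / 62500 + (x - 309 / 320) * (-63351 / 50000)) :=
  (DT.kv_gt (by simp only [Cn.rt_v, Cn.ng_v]; norm_num)).trans (kb_dt6 x)
theorem ka_dt17 (x : ℝ) : dt17.kv (-17 / 40) x = (-28871193 / 25000000 + (x - 309 / 320) * (1045619 / 1000000)) :=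
  (DT.kv_le (by simp only [Cn.rt_v, Cn.ng_v]; norm_num)).trans (ka_dt4 x)
theorem kb_dt17 (x : ℝ) : dt17.kv (-1 / 10) x = (-35131 / 62500 + (x - 309 / 320) * (-63351 / 50000)) :=
  (DT.kv_gt (by simp only [Cn.rt_v, Cn.ng_v]; norm_num)).trans (kb_dt16 x)
theorem ka_dt18 (x : ℝ) : dt18.kv (-1 / 2) x = (-980746903 / 1000000000 + (x - 309 / 320) * (-1029498871 / 100000000)) :=
  (DT.kv_le (by simp only [Cn.rt_v, Cn.ng_v]; norm_num)).trans (ka_dt15 x)
theorem kb_dt18 (x : ℝ) : dt18.kv (-1 / 10) x = (-35131 / 62500 + (x - 309 / 320) * (-63351 / 50000)) :=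
  (DT.kv_gt (by simp only [Cn.rt_v, Cn.ng_v]; norm_num)).trans (kb_dt17 x)
theorem ka_dt7 (x : ℝ) : dt7.kv (-1 / 10) x = (-35131 / 62500 + (x - 309 / 320) * (-63351 / 50000)) := by
  simp only [dt7, DT.kv, sl7, sv7]
  ((try push_cast); ring1)
theorem kb_dt7 (x : ℝ) : dt7.kv (1 / 10) x = (35131 / 62500 + (x - 309 / 320) * (63351 / 50000)) := by
  simp only [dt7, DT.kv, sl7, sv7]
  ((try push_cast); ring1)
theorem ka_dt8 (x : ℝ) : dt8.kv (1 / 10) x = (35131 / 62500 + (x - 309 / 320) * (63351 / 50000)) := by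
  simp only [dt8, DT.kv, sw8, sl8, sv8]
  ((try push_cast); ring1)
theorem kb_dt8 (x : ℝ) : dt8.kv (3 / 10) x = (1242079 / 500000 + (x - 309 / 320) * (68033 / 50000)) := by
  simp only [dt8, DT.kv, sw8, sl8, sv8]
  ((try push_cast); ring1)
theorem ka_dt9 (x : ℝ) : dt9.kv (3 / 10) x = (1242079 / 500000 + (x - 309 / 320) * (68033 / 50000)) := by
  simp only [dt9, DT.kv, sw9, sl9, sv9]
  ((try push_cast); ring1)
theorem kb_dt9 (x : ℝ) : dt9.kv (41 / 100) x = (159998163 / 100000000 + (x - 309 / 320) * (-668279 / 1000000)) := by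
  simp only [dt9, DT.kv, sw9, sl9, sv9]
  ((try push_cast); ring1)
theorem ka_dt19 (x : ℝ) : dt19.kv (1 / 10) x = (35131 / 62500 + (x - 309 / 320) * (63351 / 50000)) :=
  (DT.kv_le (by simp only [Cn.rt_v, Cn.ng_v]; norm_num)).trans (ka_dt8 x)
theorem kb_dt19 (x : ℝ) : dt19.kv (41 / 100) x = (159998163 / 100000000 + (x - 309 / 320) * (-668279 / 1000000)) :=
  (DT.kv_gt (by simp only [Cn.rt_v, Cn.ng_v]; norm_num)).trans (kb_dt9 x)
theorem ka_dt20 (x : ℝ) : dt20.kv (-1 / 10) x = (-35131 / 62500 + (x - 309 / 320) * (-63351 / 50000)) :=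
  (DT.kv_le (by simp only [Cn.rt_v, Cn.ng_v]; norm_num)).trans (ka_dt7 x)
theorem kb_dt20 (x : ℝ) : dt20.kv (41 / 100) x = (159998163 / 100000000 + (x - 309 / 320) * (-668279 / 1000000)) :=
  (DT.kv_gt (by simp only [Cn.rt_v, Cn.ng_v]; norm_num)).trans (kb_dt19 x)
theorem ka_dt10 (x : ℝ) : dt10.kv (41 / 100) x = (159998163 / 100000000 + (x - 309 / 320) * (-668279 / 1000000)) := by
  simp only [dt10, DT.kv, sl10, sv10]
  ((try push_cast); ring1)
theorem kb_dt10 (x : ℝ) : dt10.kv (17 / 40) x = (28871193 / 25000000 + (x - 309 / 320) * (-1045619 / 1000000)) := by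
  simp only [dt10, DT.kv, sl10, sv10]
  ((try push_cast); ring1)
theorem ka_dt11 (x : ℝ) : dt11.kv (17 / 40) x = (28871193 / 25000000 + (x - 309 / 320) * (-1045619 / 1000000)) := by
  simp only [dt11, DT.kv, sw11, sl11, sv11]
  ((try push_cast); ring1)
theorem kb_dt11 (x : ℝ) : dt11.kv (2507 / 5707) x = (136178247 / 125000000 + (x - 309 / 320) * (-79337 / 6250000)) := by
  simp only [dt11, DT.kv, sw11, sl11, sv11]
  ((try push_cast); ring1)
theorem ka_dt21 (x : ℝ) : dt21.kv (41 / 100) x = (159998163 / 100000000 + (x - 309 / 320) * (-668279 / 1000000)) :=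
  (DT.kv_le (by simp only [Cn.rt_v, Cn.ng_v]; norm_num)).trans (ka_dt10 x)
theorem kb_dt21 (x : ℝ) : dt21.kv (2507 / 5707) x = (136178247 / 125000000 + (x - 309 / 320) * (-79337 / 6250000)) :=
  (DT.kv_gt (by simp only [Cn.rt_v, Cn.ng_v]; norm_num)).trans (kb_dt11 x)
theorem ka_dt12 (x : ℝ) : dt12.kv (2507 / 5707) x = (136178247 / 125000000 + (x - 309 / 320) * (-79337 / 6250000)) := by
  simp only [dt12, DT.kv, sw12, sl12, sv12]
  ((try push_cast); ring1)
theorem kb_dt12 (x : ℝ) : dt12.kv (587 / 1262) x = (1345515973 / 1000000000 + (x - 309 / 320) * (437584351 / 100000000)) := by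
  simp only [dt12, DT.kv, sw12, sl12, sv12]
  ((try push_cast); ring1)
theorem ka_dt13 (x : ℝ) : dt13.kv (587 / 1262) x = (1345515973 / 1000000000 + (x - 309 / 320) * (437584351 / 100000000)) := by
  simp only [dt13, DT.kv, sw13, sl13, sv13]
  ((try push_cast); ring1)
theorem kb_dt13 (x : ℝ) : dt13.kv (1 / 2) x = (980746903 / 1000000000 + (x - 309 / 320) * (1029498871 / 100000000)) := by
  simp only [dt13, DT.kv, sw13, sl13, sv13]
  ((try push_cast); ring1)
theorem ka_dt22 (x : ℝ) : dt22.kv (2507 / 5707) x = (136178247 / 125000000 + (x - 309 / 320) * (-79337 / 6250000)) :=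
  (DT.kv_le (by simp only [Cn.rt_v, Cn.ng_v]; norm_num)).trans (ka_dt12 x)
theorem kb_dt22 (x : ℝ) : dt22.kv (1 / 2) x = (980746903 / 1000000000 + (x - 309 / 320) * (1029498871 / 100000000)) :=
  (DT.kv_gt (by simp only [Cn.rt_v, Cn.ng_v]; norm_num)).trans (kb_dt13 x)
theorem ka_dt23 (x : ℝ) : dt23.kv (41 / 100) x = (159998163 / 100000000 + (x - 309 / 320) * (-668279 / 1000000)) :=
  (DT.kv_le (by simp only [Cn.rt_v, Cn.ng_v]; norm_num)).trans (ka_dt21 x)
theorem kb_dt23 (x : ℝ) : dt23.kv (1 / 2) x = (980746903 / 1000000000 + (x - 309 / 320) * (1029498871 / 100000000)) :=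
  (DT.kv_gt (by simp only [Cn.rt_v, Cn.ng_v]; norm_num)).trans (kb_dt22 x)
theorem ka_dt24 (x : ℝ) : dt24.kv (-1 / 10) x = (-35131 / 62500 + (x - 309 / 320) * (-63351 / 50000)) :=
  (DT.kv_le (by simp only [Cn.rt_v, Cn.ng_v]; norm_num)).trans (ka_dt20 x)
theorem kb_dt24 (x : ℝ) : dt24.kv (1 / 2) x = (980746903 / 1000000000 + (x - 309 / 320) * (1029498871 / 100000000)) :=
  (DT.kv_gt (by simp only [Cn.rt_v, Cn.ng_v]; norm_num)).trans (kb_dt23 x)
theorem ka_dt25 (x : ℝ) : dt25.kv (-1 / 2) x = (-980746903 / 1000000000 + (x - 309 / 320) * (-1029498871 / 100000000)) :=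
  (DT.kv_le (by simp only [Cn.rt_v, Cn.ng_v]; norm_num)).trans (ka_dt18 x)
theorem kb_dt25 (x : ℝ) : dt25.kv (1 / 2) x = (980746903 / 1000000000 + (x - 309 / 320) * (1029498871 / 100000000)) :=
  (DT.kv_gt (by simp only [Cn.rt_v, Cn.ng_v]; norm_num)).trans (kb_dt24 x)
theorem ko_dt1 (x : ℝ) : dt1.KOk x := trivial
theorem ko_dt2 (x : ℝ) : dt2.KOk x := trivial
theorem ko_dt3 (x : ℝ) : dt3.KOk x := trivial
theorem ko_dt14 (x : ℝ) : dt14.KOk x :=
  DT.kOk_node (v := -2507 / 5707) (by simp only [Cn.rt_v, Cn.ng_v]; norm_num) (kb_dt2 x) (ka_dt3 x) (by ring1) (ko_dt2 x) (ko_dt3 x)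
theorem ko_dt15 (x : ℝ) : dt15.KOk x :=
  DT.kOk_node (v := -587 / 1262) (by simp only [Cn.rt_v, Cn.ng_v]; norm_num) (kb_dt1 x) (ka_dt14 x) (by ring1) (ko_dt1 x) (ko_dt14 x)
theorem ko_dt4 (x : ℝ) : dt4.KOk x := trivial
theorem ko_dt5 (x : ℝ) : dt5.KOk x := trivial
theorem ko_dt6 (x : ℝ) : dt6.KOk x := trivial
theorem ko_dt16 (x : ℝ) : dt16.KOk x :=
  DT.kOk_node (v := -3 / 10) (by simp only [Cn.rt_v, Cn.ng_v]; norm_num) (kb_dt5 x) (ka_dt6 x) (by ring1) (ko_dt5 x) (ko_dt6 x)
theorem ko_dt17 (x : ℝ) : dt17.KOk x :=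
  DT.kOk_node (v := -41 / 100) (by simp only [Cn.rt_v, Cn.ng_v]; norm_num) (kb_dt4 x) (ka_dt16 x) (by ring1) (ko_dt4 x) (ko_dt16 x)
theorem ko_dt18 (x : ℝ) : dt18.KOk x :=
  DT.kOk_node (v := -17 / 40) (by simp only [Cn.rt_v, Cn.ng_v]; norm_num) (kb_dt15 x) (ka_dt17 x) (by ring1) (ko_dt15 x) (ko_dt17 x)
theorem ko_dt7 (x : ℝ) : dt7.KOk x := trivial
theorem ko_dt8 (x : ℝ) : dt8.KOk x := trivial
theorem ko_dt9 (x : ℝ) : dt9.KOk x := trivial
theorem ko_dt19 (x : ℝ) : dt19.KOk x :=
  DT.kOk_node (v := 3 / 10) (by simp only [Cn.rt_v, Cn.ng_v]; norm_num) (kb_dt8 x) (ka_dt9 x) (by ring1) (ko_dt8 x) (ko_dt9 x)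
theorem ko_dt20 (x : ℝ) : dt20.KOk x :=
  DT.kOk_node (v := 1 / 10) (by simp only [Cn.rt_v, Cn.ng_v]; norm_num) (kb_dt7 x) (ka_dt19 x) (by ring1) (ko_dt7 x) (ko_dt19 x)
theorem ko_dt10 (x : ℝ) : dt10.KOk x := trivial
theorem ko_dt11 (x : ℝ) : dt11.KOk x := trivial
theorem ko_dt21 (x : ℝ) : dt21.KOk x :=
  DT.kOk_node (v := 17 / 40) (by simp only [Cn.rt_v, Cn.ng_v]; norm_num) (kb_dt10 x) (ka_dt11 x) (by ring1) (ko_dt10 x) (ko_dt11 x)
theorem ko_dt12 (x : ℝ) : dt12.KOk x := trivial
theorem ko_dt13 (x : ℝ) : dt13.KOk x := trivial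
theorem ko_dt22 (x : ℝ) : dt22.KOk x :=
  DT.kOk_node (v := 587 / 1262) (by simp only [Cn.rt_v, Cn.ng_v]; norm_num) (kb_dt12 x) (ka_dt13 x) (by ring1) (ko_dt12 x) (ko_dt13 x)
theorem ko_dt23 (x : ℝ) : dt23.KOk x :=
  DT.kOk_node (v := 2507 / 5707) (by simp only [Cn.rt_v, Cn.ng_v]; norm_num) (kb_dt21 x) (ka_dt22 x) (by ring1) (ko_dt21 x) (ko_dt22 x)
theorem ko_dt24 (x : ℝ) : dt24.KOk x :=
  DT.kOk_node (v := 41 / 100) (by simp only [Cn.rt_v, Cn.ng_v]; norm_num) (kb_dt20 x) (ka_dt23 x) (by ring1) (ko_dt20 x) (ko_dt23 x)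
theorem ko_dt25 (x : ℝ) : dt25.KOk x :=
  DT.kOk_node (v := -1 / 10) (by simp only [Cn.rt_v, Cn.ng_v]; norm_num) (kb_dt18 x) (ka_dt24 x) (by ring1) (ko_dt18 x) (ko_dt24 x)
theorem txl0 {p c x : ℝ} (h1 : -1 / 2 ≤ p) (h2 : p ≤ -39 / 80) : txg.v p c x = dt80.val (fun p x => kcg.v p x) p c x := by
  symm
  refine (DT.val_le (by simp only [Cn.rt_v, Cn.ng_v]; push_cast; linarith)).trans ?_
  refine (DT.val_le (by simp only [Cn.rt_v, Cn.ng_v]; push_cast; linarith)).trans ?_
  refine (DT.val_le (by simp only [Cn.rt_v, Cn.ng_v]; push_cast; linarith)).trans ?_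
  refine (DT.val_le (by simp only [Cn.rt_v, Cn.ng_v]; push_cast; linarith)).trans ?_
  simp only [dt26, DT.val, cloR, sw26, sl26, sv26, txg, txg_4, txg_6, txg_26, txg_29, txg_32, txg_35, txg_50, txg_53, txg_54, txg_61, txg_75, txg_76, txg_96, txg_97, txg_106, txg_123, txg_124, txg_131, txg_146, txg_147, txg_166, txg_167, txg_177, txg_180, txg_193, txg_194, txg_201, txg_213, txg_214, txg_230, txg_239, txg_254, txg_255, txg_262, txg_274, txg_275, txg_289, txg_291, txg_292, txg_301, txg_302, txg_305, txg_315, txg_316, txg_321, txg_331, txg_349, txg_350, txg_357, txg_371, txg_372, txg_377, txg_391, txg_392, txg_412, txg_413, txg_421, txg_423, txg_437, txg_438, txg_443, txg_459, txg_460, txg_478, txg_479, txg_486, txg_503, txg_504, txg_509, txg_526, txg_527, txg_546, txg_557, txg_558, txg_569, txg_570, txg_596, txg_597, txg_602, txg_616, txg_617, txg_636, txg_637]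
  rcases eq_or_lt_of_le h1 with h | h1
  · subst h
    ((try push_cast); (repeat first | rw [if_pos (by linarith)] | rw [if_neg (by linarith)] | erw [if_pos (by linarith)] | erw [if_neg (by linarith)]); (try push_cast); (try ring1))
  rcases eq_or_lt_of_le h2 with h | h2
  · subst h
    ((try push_cast); (repeat first | rw [if_pos (by linarith)] | rw [if_neg (by linarith)] | erw [if_pos (by linarith)] | erw [if_neg (by linarith)]); (try push_cast); (try ring1))
  · ((try push_cast); (repeat first | rw [if_pos (by linarith)] | rw [if_neg (by linarith)] | erw [if_pos (by linarith)] | erw [if_neg (by linarith)]); (try push_cast); (try ring1))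
theorem txl1 {p c x : ℝ} (h1 : -39 / 80 < p) (h2 : p ≤ -119 / 250) : txg.v p c x = dt80.val (fun p x => kcg.v p x) p c x := by
  symm
  refine (DT.val_le (by simp only [Cn.rt_v, Cn.ng_v]; push_cast; linarith)).trans ?_
  refine (DT.val_le (by simp only [Cn.rt_v, Cn.ng_v]; push_cast; linarith)).trans ?_
  refine (DT.val_le (by simp only [Cn.rt_v, Cn.ng_v]; push_cast; linarith)).trans ?_
  refine (DT.val_gt (by simp only [Cn.rt_v, Cn.ng_v]; push_cast; linarith)).trans ?_
  refine (DT.val_le (by simp only [Cn.rt_v, Cn.ng_v]; push_cast; linarith)).trans ?_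
  simp only [dt27, DT.val, cloR, sw27, sl27, sv27, txg, txg_4, txg_6, txg_26, txg_29, txg_32, txg_35, txg_50, txg_53, txg_54, txg_61, txg_75, txg_76, txg_96, txg_97, txg_106, txg_123, txg_124, txg_131, txg_146, txg_147, txg_166, txg_167, txg_177, txg_180, txg_193, txg_194, txg_201, txg_213, txg_214, txg_230, txg_239, txg_254, txg_255, txg_262, txg_274, txg_275, txg_289, txg_291, txg_292, txg_301, txg_302, txg_305, txg_315, txg_316, txg_321, txg_331, txg_349, txg_350, txg_357, txg_371, txg_372, txg_377, txg_391, txg_392, txg_412, txg_413, txg_421, txg_423, txg_437, txg_438, txg_443, txg_459, txg_460, txg_478, txg_479, txg_486, txg_503, txg_504, txg_509, txg_526, txg_527, txg_546, txg_557, txg_558, txg_569, txg_570, txg_596, txg_597, txg_602, txg_616, txg_617, txg_636, txg_637]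
  rcases eq_or_lt_of_le h2 with h | h2
  · subst h
    ((try push_cast); (repeat first | rw [if_pos (by linarith)] | rw [if_neg (by linarith)] | erw [if_pos (by linarith)] | erw [if_neg (by linarith)]); (try push_cast); (try ring1))
  · ((try push_cast); (repeat first | rw [if_pos (by linarith)] | rw [if_neg (by linarith)] | erw [if_pos (by linarith)] | erw [if_neg (by linarith)]); (try push_cast); (try ring1))
theorem txl2 {p c x : ℝ} (h1 : -119 / 250 < p) (h2 : p ≤ -93027 / 200000) : txg.v p c x = dt80.val (fun p x => kcg.v p x) p c x := by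
  symm
  refine (DT.val_le (by simp only [Cn.rt_v, Cn.ng_v]; push_cast; linarith)).trans ?_
  refine (DT.val_le (by simp only [Cn.rt_v, Cn.ng_v]; push_cast; linarith)).trans ?_
  refine (DT.val_le (by simp only [Cn.rt_v, Cn.ng_v]; push_cast; linarith)).trans ?_
  refine (DT.val_gt (by simp only [Cn.rt_v, Cn.ng_v]; push_cast; linarith)).trans ?_
  refine (DT.val_gt (by simp only [Cn.rt_v, Cn.ng_v]; push_cast; linarith)).trans ?_
  simp only [dt28, DT.val, cloR, sw28, sl28, sv28, txg, txg_4, txg_6, txg_26, txg_29, txg_32, txg_35, txg_50, txg_53, txg_54, txg_61, txg_75, txg_76, txg_96, txg_97, txg_106, txg_123, txg_124, txg_131, txg_146, txg_147, txg_166, txg_167, txg_177, txg_180, txg_193, txg_194, txg_201, txg_213, txg_214, txg_230, txg_239, txg_254, txg_255, txg_262, txg_274, txg_275, txg_289, txg_291, txg_292, txg_301, txg_302, txg_305, txg_315, txg_316, txg_321, txg_331, txg_349, txg_350, txg_357, txg_371, txg_372, txg_377, txg_391, txg_392, txg_412, txg_413, txg_421,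 txg_423, txg_437, txg_438, txg_443, txg_459, txg_460, txg_478, txg_479, txg_486, txg_503, txg_504, txg_509, txg_526, txg_527, txg_546, txg_557, txg_558, txg_569, txg_570, txg_596, txg_597, txg_602, txg_616, txg_617, txg_636, txg_637]
  rcases eq_or_lt_of_le h2 with h | h2
  · subst h
    ((try push_cast); (repeat first | rw [if_pos (by linarith)] | rw [if_neg (by linarith)] | erw [if_pos (by linarith)] | erw [if_neg (by linarith)]); (try push_cast); (try ring1))
  · ((try push_cast); (repeat first | rw [if_pos (by linarith)] | rw [if_neg (by linarith)] | erw [if_pos (by linarith)] | erw [if_neg (by linarith)]); (try push_cast); (try ring1))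
theorem txl3 {p c x : ℝ} (h1 : -93027 / 200000 < p) (h2 : p ≤ -87857 / 200000) : txg.v p c x = dt80.val (fun p x => kcg.v p x) p c x := by
  symm
  refine (DT.val_le (by simp only [Cn.rt_v, Cn.ng_v]; push_cast; linarith)).trans ?_
  refine (DT.val_le (by simp only [Cn.rt_v, Cn.ng_v]; push_cast; linarith)).trans ?_
  refine (DT.val_gt (by simp only [Cn.rt_v, Cn.ng_v]; push_cast; linarith)).trans ?_
  refine (DT.val_le (by simp only [Cn.rt_v, Cn.ng_v]; push_cast; linarith)).trans ?_
  refine (DT.val_le (by simp only [Cn.rt_v, Cn.ng_v]; push_cast; linarith)).trans ?_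
  simp only [dt29, DT.val, cloR, sw29, sl29, sv29, txg, txg_4, txg_6, txg_26, txg_29, txg_32, txg_35, txg_50, txg_53, txg_54, txg_61, txg_75, txg_76, txg_96, txg_97, txg_106, txg_123, txg_124, txg_131, txg_146, txg_147, txg_166, txg_167, txg_177, txg_180, txg_193, txg_194, txg_201, txg_213, txg_214, txg_230, txg_239, txg_254, txg_255, txg_262, txg_274, txg_275, txg_289, txg_291, txg_292, txg_301, txg_302, txg_305, txg_315, txg_316, txg_321, txg_331, txg_349, txg_350, txg_357, txg_371, txg_372, txg_377, txg_391, txg_392, txg_412, txg_413, txg_421, txg_423, txg_437, txg_438, txg_443, txg_459, txg_460, txg_478, txg_479, txg_486, txg_503, txg_504, txg_509, txg_526, txg_527, txg_546, txg_557, txg_558, txg_569, txg_570, txg_596, txg_597, txg_602, txg_616, txg_617, txg_636, txg_637]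
  rcases eq_or_lt_of_le h2 with h | h2
  · subst h
    ((try push_cast); (repeat first | rw [if_pos (by linarith)] | rw [if_neg (by linarith)] | erw [if_pos (by linarith)] | erw [if_neg (by linarith)]); (try push_cast); (try ring1))
  · ((try push_cast); (repeat first | rw [if_pos (by linarith)] | rw [if_neg (by linarith)] | erw [if_pos (by linarith)] | erw [if_neg (by linarith)]); (try push_cast); (try ring1))
theorem txl4 {p c x : ℝ} (h1 : -87857 / 200000 < p) (h2 : p ≤ -43 / 100) : txg.v p c x = dt80.val (fun p x => kcg.v p x) p c x := by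
  symm
  refine (DT.val_le (by simp only [Cn.rt_v, Cn.ng_v]; push_cast; linarith)).trans ?_
  refine (DT.val_le (by simp only [Cn.rt_v, Cn.ng_v]; push_cast; linarith)).trans ?_
  refine (DT.val_gt (by simp only [Cn.rt_v, Cn.ng_v]; push_cast; linarith)).trans ?_
  refine (DT.val_le (by simp only [Cn.rt_v, Cn.ng_v]; push_cast; linarith)).trans ?_
  refine (DT.val_gt (by simp only [Cn.rt_v, Cn.ng_v]; push_cast; linarith)).trans ?_
  simp only [dt30, DT.val, cloR, sw30, sl30, sv30, txg, txg_4, txg_6, txg_26, txg_29, txg_32, txg_35, txg_50, txg_53, txg_54, txg_61, txg_75, txg_76, txg_96, txg_97, txg_106, txg_123, txg_124, txg_131, txg_146, txg_147, txg_166, txg_167, txg_177, txg_180, txg_193, txg_194, txg_201, txg_213, txg_214, txg_230, txg_239, txg_254, txg_255, txg_262, txg_274, txg_275, txg_289, txg_291, txg_292, txg_301, txg_302, txg_305, txg_315, txg_316, txg_321, txg_331, txg_349, txg_350, txg_357, txg_371, txg_372, txg_377, txg_391, txg_392, txg_412, txg_413, txg_421,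 txg_423, txg_437, txg_438, txg_443, txg_459, txg_460, txg_478, txg_479, txg_486, txg_503, txg_504, txg_509, txg_526, txg_527, txg_546, txg_557, txg_558, txg_569, txg_570, txg_596, txg_597, txg_602, txg_616, txg_617, txg_636, txg_637]
  rcases eq_or_lt_of_le h2 with h | h2
  · subst h
    ((try push_cast); (repeat first | rw [if_pos (by linarith)] | rw [if_neg (by linarith)] | erw [if_pos (by linarith)] | erw [if_neg (by linarith)]); (try push_cast); (try ring1))
  · ((try push_cast); (repeat first | rw [if_pos (by linarith)] | rw [if_neg (by linarith)] | erw [if_pos (by linarith)] | erw [if_neg (by linarith)]); (try push_cast); (try ring1))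
theorem txl5 {p c x : ℝ} (h1 : -43 / 100 < p) (h2 : p ≤ -21 / 50) : txg.v p c x = dt80.val (fun p x => kcg.v p x) p c x := by
  symm
  refine (DT.val_le (by simp only [Cn.rt_v, Cn.ng_v]; push_cast; linarith)).trans ?_
  refine (DT.val_le (by simp only [Cn.rt_v, Cn.ng_v]; push_cast; linarith)).trans ?_
  refine (DT.val_gt (by simp only [Cn.rt_v, Cn.ng_v]; push_cast; linarith)).trans ?_
  refine (DT.val_gt (by simp only [Cn.rt_v, Cn.ng_v]; push_cast; linarith)).trans ?_
  refine (DT.val_le (by simp only [Cn.rt_v, Cn.ng_v]; push_cast; linarith)).trans ?_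
  simp only [dt31, DT.val, cloR, sw31, sl31, sv31, txg, txg_4, txg_6, txg_26, txg_29, txg_32, txg_35, txg_50, txg_53, txg_54, txg_61, txg_75, txg_76, txg_96, txg_97, txg_106, txg_123, txg_124, txg_131, txg_146, txg_147, txg_166, txg_167, txg_177, txg_180, txg_193, txg_194, txg_201, txg_213, txg_214, txg_230, txg_239, txg_254, txg_255, txg_262, txg_274, txg_275, txg_289, txg_291, txg_292, txg_301, txg_302, txg_305, txg_315, txg_316, txg_321, txg_331, txg_349, txg_350, txg_357, txg_371, txg_372, txg_377, txg_391, txg_392, txg_412, txg_413, txg_421, txg_423, txg_437, txg_438, txg_443, txg_459, txg_460, txg_478, txg_479, txg_486, txg_503, txg_504, txg_509, txg_526, txg_527, txg_546, txg_557, txg_558, txg_569, txg_570, txg_596, txg_597, txg_602, txg_616, txg_617, txg_636, txg_637]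
  rcases eq_or_lt_of_le h2 with h | h2
  · subst h
    ((try push_cast); (repeat first | rw [if_pos (by linarith)] | rw [if_neg (by linarith)] | erw [if_pos (by linarith)] | erw [if_neg (by linarith)]); (try push_cast); (try ring1))
  · ((try push_cast); (repeat first | rw [if_pos (by linarith)] | rw [if_neg (by linarith)] | erw [if_pos (by linarith)] | erw [if_neg (by linarith)]); (try push_cast); (try ring1))
theorem txl6 {p c x : ℝ} (h1 : -21 / 50 < p) (h2 : p ≤ -41 / 100) : txg.v p c x = dt80.val (fun p x => kcg.v p x) p c x := by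
  symm
  refine (DT.val_le (by simp only [Cn.rt_v, Cn.ng_v]; push_cast; linarith)).trans ?_
  refine (DT.val_le (by simp only [Cn.rt_v, Cn.ng_v]; push_cast; linarith)).trans ?_
  refine (DT.val_gt (by simp only [Cn.rt_v, Cn.ng_v]; push_cast; linarith)).trans ?_
  refine (DT.val_gt (by simp only [Cn.rt_v, Cn.ng_v]; push_cast; linarith)).trans ?_
  refine (DT.val_gt (by simp only [Cn.rt_v, Cn.ng_v]; push_cast; linarith)).trans ?_
  simp only [dt32, DT.val, cloR, sw32, sl32, sv32, txg, txg_4, txg_6, txg_26, txg_29, txg_32, txg_35, txg_50, txg_53, txg_54, txg_61, txg_75, txg_76, txg_96, txg_97, txg_106, txg_123, txg_124, txg_131, txg_146, txg_147, txg_166, txg_167, txg_177, txg_180, txg_193, txg_194, txg_201, txg_213, txg_214, txg_230, txg_239, txg_254, txg_255, txg_262, txg_274, txg_275, txg_289, txg_291, txg_292, txg_301, txg_302, txg_305, txg_315, txg_316, txg_321, txg_331, txg_349, txg_350, txg_357, txg_371, txg_372, txg_377, txg_391, txg_392, txg_412, txg_413, txg_421,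 txg_423, txg_437, txg_438, txg_443, txg_459, txg_460, txg_478, txg_479, txg_486, txg_503, txg_504, txg_509, txg_526, txg_527, txg_546, txg_557, txg_558, txg_569, txg_570, txg_596, txg_597, txg_602, txg_616, txg_617, txg_636, txg_637]
  rcases eq_or_lt_of_le h2 with h | h2
  · subst h
    ((try push_cast); (repeat first | rw [if_pos (by linarith)] | rw [if_neg (by linarith)] | erw [if_pos (by linarith)] | erw [if_neg (by linarith)]); (try push_cast); (try ring1))
  · ((try push_cast); (repeat first | rw [if_pos (by linarith)] | rw [if_neg (by linarith)] | erw [if_pos (by linarith)] | erw [if_neg (by linarith)]); (try push_cast); (try ring1))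
theorem txl7 {p c x : ℝ} (h1 : -41 / 100 < p) (h2 : p ≤ -2 / 5) : txg.v p c x = dt80.val (fun p x => kcg.v p x) p c x := by
  symm
  refine (DT.val_le (by simp only [Cn.rt_v, Cn.ng_v]; push_cast; linarith)).trans ?_
  refine (DT.val_gt (by simp only [Cn.rt_v, Cn.ng_v]; push_cast; linarith)).trans ?_
  refine (DT.val_le (by simp only [Cn.rt_v, Cn.ng_v]; push_cast; linarith)).trans ?_
  refine (DT.val_le (by simp only [Cn.rt_v, Cn.ng_v]; push_cast; linarith)).trans ?_
  simp only [dt33, DT.val, cloR, sw33, sl33, sv33, txg, txg_4, txg_6, txg_26, txg_29, txg_32, txg_35, txg_50, txg_53, txg_54, txg_61, txg_75, txg_76, txg_96, txg_97, txg_106, txg_123, txg_124, txg_131, txg_146, txg_147, txg_166, txg_167, txg_177, txg_180, txg_193, txg_194, txg_201, txg_213, txg_214, txg_230, txg_239, txg_254, txg_255, txg_262, txg_274, txg_275, txg_289, txg_291, txg_292, txg_301, txg_302, txg_305, txg_315, txg_316, txg_321, txg_331, txg_349, txg_350, txg_357, txg_371, txg_372, txg_377, txg_391,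 txg_392, txg_412, txg_413, txg_421, txg_423, txg_437, txg_438, txg_443, txg_459, txg_460, txg_478, txg_479, txg_486, txg_503, txg_504, txg_509, txg_526, txg_527, txg_546, txg_557, txg_558, txg_569, txg_570, txg_596, txg_597, txg_602, txg_616, txg_617, txg_636, txg_637]
  rcases eq_or_lt_of_le h2 with h | h2
  · subst h
    ((try push_cast); (repeat first | rw [if_pos (by linarith)] | rw [if_neg (by linarith)] | erw [if_pos (by linarith)] | erw [if_neg (by linarith)]); (try push_cast); (try ring1))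
  · ((try push_cast); (repeat first | rw [if_pos (by linarith)] | rw [if_neg (by linarith)] | erw [if_pos (by linarith)] | erw [if_neg (by linarith)]); (try push_cast); (try ring1))
theorem txl8 {p c x : ℝ} (h1 : -2 / 5 < p) (h2 : p ≤ -3 / 8) : txg.v p c x = dt80.val (fun p x => kcg.v p x) p c x := by
  symm
  refine (DT.val_le (by simp only [Cn.rt_v, Cn.ng_v]; push_cast; linarith)).trans ?_
  refine (DT.val_gt (by simp only [Cn.rt_v, Cn.ng_v]; push_cast; linarith)).trans ?_
  refine (DT.val_le (by simp only [Cn.rt_v, Cn.ng_v]; push_cast; linarith)).trans ?_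
  refine (DT.val_gt (by simp only [Cn.rt_v, Cn.ng_v]; push_cast; linarith)).trans ?_
  refine (DT.val_le (by simp only [Cn.rt_v, Cn.ng_v]; push_cast; linarith)).trans ?_
  simp only [dt34, DT.val, cloR, sw34, sl34, sv34, txg, txg_4, txg_6, txg_26, txg_29, txg_32, txg_35, txg_50, txg_53, txg_54, txg_61, txg_75, txg_76, txg_96, txg_97, txg_106, txg_123, txg_124, txg_131, txg_146, txg_147, txg_166, txg_167, txg_177, txg_180, txg_193, txg_194, txg_201, txg_213, txg_214, txg_230, txg_239, txg_254, txg_255, txg_262, txg_274, txg_275, txg_289, txg_291, txg_292, txg_301, txg_302, txg_305, txg_315, txg_316, txg_321, txg_331, txg_349, txg_350, txg_357, txg_371, txg_372, txg_377, txg_391, txg_392, txg_412, txg_413, txg_421, txg_423, txg_437, txg_438, txg_443, txg_459, txg_460, txg_478, txg_479, txg_486, txg_503, txg_504, txg_509, txg_526, txg_527, txg_546, txg_557, txg_558, txg_569, txg_570, txg_596, txg_597, txg_602, txg_616, txg_617, txg_636, txg_637]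
  rcases eq_or_lt_of_le h2 with h | h2
  · subst h
    ((try push_cast); (repeat first | rw [if_pos (by linarith)] | rw [if_neg (by linarith)] | erw [if_pos (by linarith)] | erw [if_neg (by linarith)]); (try push_cast); (try ring1))
  · ((try push_cast); (repeat first | rw [if_pos (by linarith)] | rw [if_neg (by linarith)] | erw [if_pos (by linarith)] | erw [if_neg (by linarith)]); (try push_cast); (try ring1))
theorem txl9 {p c x : ℝ} (h1 : -3 / 8 < p) (h2 : p ≤ -7 / 20) : txg.v p c x = dt80.val (fun p x => kcg.v p x) p c x := by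
  symm
  refine (DT.val_le (by simp only [Cn.rt_v, Cn.ng_v]; push_cast; linarith)).trans ?_
  refine (DT.val_gt (by simp only [Cn.rt_v, Cn.ng_v]; push_cast; linarith)).trans ?_
  refine (DT.val_le (by simp only [Cn.rt_v, Cn.ng_v]; push_cast; linarith)).trans ?_
  refine (DT.val_gt (by simp only [Cn.rt_v, Cn.ng_v]; push_cast; linarith)).trans ?_
  refine (DT.val_gt (by simp only [Cn.rt_v, Cn.ng_v]; push_cast; linarith)).trans ?_
  simp only [dt35, DT.val, cloR, sw35, sl35, sv35, txg, txg_4, txg_6, txg_26, txg_29, txg_32, txg_35, txg_50, txg_53, txg_54, txg_61, txg_75, txg_76, txg_96, txg_97, txg_106, txg_123, txg_124, txg_131, txg_146, txg_147, txg_166, txg_167, txg_177, txg_180, txg_193, txg_194, txg_201, txg_213, txg_214, txg_230, txg_239, txg_254, txg_255, txg_262, txg_274, txg_275, txg_289, txg_291, txg_292, txg_301, txg_302, txg_305, txg_315, txg_316, txg_321, txg_331, txg_349, txg_350, txg_357, txg_371, txg_372, txg_377, txg_391, txg_392, txg_412, txg_413, txg_421,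 txg_423, txg_437, txg_438, txg_443, txg_459, txg_460, txg_478, txg_479, txg_486, txg_503, txg_504, txg_509, txg_526, txg_527, txg_546, txg_557, txg_558, txg_569, txg_570, txg_596, txg_597, txg_602, txg_616, txg_617, txg_636, txg_637]
  rcases eq_or_lt_of_le h2 with h | h2
  · subst h
    ((try push_cast); (repeat first | rw [if_pos (by linarith)] | rw [if_neg (by linarith)] | erw [if_pos (by linarith)] | erw [if_neg (by linarith)]); (try push_cast); (try ring1))
  · ((try push_cast); (repeat first | rw [if_pos (by linarith)] | rw [if_neg (by linarith)] | erw [if_pos (by linarith)] | erw [if_neg (by linarith)]); (try push_cast); (try ring1))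
theorem txl10 {p c x : ℝ} (h1 : -7 / 20 < p) (h2 : p ≤ -3 / 10) : txg.v p c x = dt80.val (fun p x => kcg.v p x) p c x := by
  symm
  refine (DT.val_le (by simp only [Cn.rt_v, Cn.ng_v]; push_cast; linarith)).trans ?_
  refine (DT.val_gt (by simp only [Cn.rt_v, Cn.ng_v]; push_cast; linarith)).trans ?_
  refine (DT.val_gt (by simp only [Cn.rt_v, Cn.ng_v]; push_cast; linarith)).trans ?_
  refine (DT.val_le (by simp only [Cn.rt_v, Cn.ng_v]; push_cast; linarith)).trans ?_
  refine (DT.val_le (by simp only [Cn.rt_v, Cn.ng_v]; push_cast; linarith)).trans ?_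
  simp only [dt36, DT.val, cloR, sw36, sl36, sv36, txg, txg_4, txg_6, txg_26, txg_29, txg_32, txg_35, txg_50, txg_53, txg_54, txg_61, txg_75, txg_76, txg_96, txg_97, txg_106, txg_123, txg_124, txg_131, txg_146, txg_147, txg_166, txg_167, txg_177, txg_180, txg_193, txg_194, txg_201, txg_213, txg_214, txg_230, txg_239, txg_254, txg_255, txg_262, txg_274, txg_275, txg_289, txg_291, txg_292, txg_301, txg_302, txg_305, txg_315, txg_316, txg_321, txg_331, txg_349, txg_350, txg_357, txg_371, txg_372, txg_377, txg_391, txg_392, txg_412, txg_413, txg_421, txg_423, txg_437, txg_438, txg_443, txg_459, txg_460, txg_478, txg_479, txg_486, txg_503, txg_504, txg_509, txg_526, txg_527, txg_546, txg_557, txg_558, txg_569, txg_570, txg_596, txg_597, txg_602, txg_616, txg_617, txg_636, txg_637]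
  rcases eq_or_lt_of_le h2 with h | h2
  · subst h
    ((try push_cast); (repeat first | rw [if_pos (by linarith)] | rw [if_neg (by linarith)] | erw [if_pos (by linarith)] | erw [if_neg (by linarith)]); (try push_cast); (try ring1))
  · ((try push_cast); (repeat first | rw [if_pos (by linarith)] | rw [if_neg (by linarith)] | erw [if_pos (by linarith)] | erw [if_neg (by linarith)]); (try push_cast); (try ring1))
theorem txl11 {p c x : ℝ} (h1 : -3 / 10 < p) (h2 : p ≤ -1 / 5) : txg.v p c x = dt80.val (fun p x => kcg.v p x) p c x := by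
  symm
  refine (DT.val_le (by simp only [Cn.rt_v, Cn.ng_v]; push_cast; linarith)).trans ?_
  refine (DT.val_gt (by simp only [Cn.rt_v, Cn.ng_v]; push_cast; linarith)).trans ?_
  refine (DT.val_gt (by simp only [Cn.rt_v, Cn.ng_v]; push_cast; linarith)).trans ?_
  refine (DT.val_le (by simp only [Cn.rt_v, Cn.ng_v]; push_cast; linarith)).trans ?_
  refine (DT.val_gt (by simp only [Cn.rt_v, Cn.ng_v]; push_cast; linarith)).trans ?_
  simp only [dt37, DT.val, cloR, sw37, sl37, sv37, txg, txg_4, txg_6, txg_26, txg_29, txg_32, txg_35, txg_50, txg_53, txg_54, txg_61, txg_75, txg_76, txg_96, txg_97, txg_106, txg_123, txg_124, txg_131, txg_146, txg_147, txg_166, txg_167, txg_177, txg_180, txg_193, txg_194, txg_201, txg_213, txg_214, txg_230, txg_239, txg_254, txg_255, txg_262, txg_274, txg_275, txg_289, txg_291, txg_292, txg_301, txg_302, txg_305, txg_315, txg_316, txg_321, txg_331, txg_349, txg_350, txg_357, txg_371, txg_372, txg_377, txg_391, txg_392, txg_412, txg_413, txg_421,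 txg_423, txg_437, txg_438, txg_443, txg_459, txg_460, txg_478, txg_479, txg_486, txg_503, txg_504, txg_509, txg_526, txg_527, txg_546, txg_557, txg_558, txg_569, txg_570, txg_596, txg_597, txg_602, txg_616, txg_617, txg_636, txg_637]
  rcases eq_or_lt_of_le h2 with h | h2
  · subst h
    ((try push_cast); (repeat first | rw [if_pos (by linarith)] | rw [if_neg (by linarith)] | erw [if_pos (by linarith)] | erw [if_neg (by linarith)]); (try push_cast); (try ring1))
  · ((try push_cast); (repeat first | rw [if_pos (by linarith)] | rw [if_neg (by linarith)] | erw [if_pos (by linarith)] | erw [if_neg (by linarith)]); (try push_cast); (try ring1))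
theorem txl12 {p c x : ℝ} (h1 : -1 / 5 < p) (h2 : p ≤ -1 / 10) : txg.v p c x = dt80.val (fun p x => kcg.v p x) p c x := by
  symm
  refine (DT.val_le (by simp only [Cn.rt_v, Cn.ng_v]; push_cast; linarith)).trans ?_
  refine (DT.val_gt (by simp only [Cn.rt_v, Cn.ng_v]; push_cast; linarith)).trans ?_
  refine (DT.val_gt (by simp only [Cn.rt_v, Cn.ng_v]; push_cast; linarith)).trans ?_
  refine (DT.val_gt (by simp only [Cn.rt_v, Cn.ng_v]; push_cast; linarith)).trans ?_
  refine (DT.val_le (by simp only [Cn.rt_v, Cn.ng_v]; push_cast; linarith)).trans ?_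
  simp only [dt38, DT.val, cloR, sw38, sl38, sv38, txg, txg_4, txg_6, txg_26, txg_29, txg_32, txg_35, txg_50, txg_53, txg_54, txg_61, txg_75, txg_76, txg_96, txg_97, txg_106, txg_123, txg_124, txg_131, txg_146, txg_147, txg_166, txg_167, txg_177, txg_180, txg_193, txg_194, txg_201, txg_213, txg_214, txg_230, txg_239, txg_254, txg_255, txg_262, txg_274, txg_275, txg_289, txg_291, txg_292, txg_301, txg_302, txg_305, txg_315, txg_316, txg_321, txg_331, txg_349, txg_350, txg_357, txg_371, txg_372, txg_377, txg_391, txg_392, txg_412, txg_413, txg_421, txg_423, txg_437, txg_438, txg_443, txg_459, txg_460, txg_478, txg_479, txg_486, txg_503, txg_504, txg_509, txg_526, txg_527, txg_546, txg_557, txg_558, txg_569, txg_570, txg_596, txg_597, txg_602, txg_616, txg_617, txg_636, txg_637]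
  rcases eq_or_lt_of_le h2 with h | h2
  · subst h
    ((try push_cast); (repeat first | rw [if_pos (by linarith)] | rw [if_neg (by linarith)] | erw [if_pos (by linarith)] | erw [if_neg (by linarith)]); (try push_cast); (try ring1))
  · ((try push_cast); (repeat first | rw [if_pos (by linarith)] | rw [if_neg (by linarith)] | erw [if_pos (by linarith)] | erw [if_neg (by linarith)]); (try push_cast); (try ring1))
theorem txl13 {p c x : ℝ} (h1 : -1 / 10 < p) (h2 : p ≤ 1 / 10) : txg.v p c x = dt80.val (fun p x => kcg.v p x) p c x := by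
  symm
  refine (DT.val_le (by simp only [Cn.rt_v, Cn.ng_v]; push_cast; linarith)).trans ?_
  refine (DT.val_gt (by simp only [Cn.rt_v, Cn.ng_v]; push_cast; linarith)).trans ?_
  refine (DT.val_gt (by simp only [Cn.rt_v, Cn.ng_v]; push_cast; linarith)).trans ?_
  refine (DT.val_gt (by simp only [Cn.rt_v, Cn.ng_v]; push_cast; linarith)).trans ?_
  refine (DT.val_gt (by simp only [Cn.rt_v, Cn.ng_v]; push_cast; linarith)).trans ?_
  simp only [dt39, DT.val, cloR, sw39, sl39, sv39, txg, txg_4, txg_6, txg_26, txg_29, txg_32, txg_35, txg_50, txg_53, txg_54, txg_61, txg_75, txg_76, txg_96, txg_97, txg_106, txg_123, txg_124, txg_131, txg_146, txg_147, txg_166, txg_167, txg_177, txg_180, txg_193, txg_194, txg_201, txg_213, txg_214, txg_230, txg_239, txg_254, txg_255, txg_262, txg_274, txg_275, txg_289, txg_291, txg_292, txg_301, txg_302, txg_305, txg_315, txg_316, txg_321, txg_331, txg_349, txg_350, txg_357, txg_371, txg_372, txg_377, txg_391, txg_392, txg_412, txg_413, txg_421,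 txg_423, txg_437, txg_438, txg_443, txg_459, txg_460, txg_478, txg_479, txg_486, txg_503, txg_504, txg_509, txg_526, txg_527, txg_546, txg_557, txg_558, txg_569, txg_570, txg_596, txg_597, txg_602, txg_616, txg_617, txg_636, txg_637]
  rcases eq_or_lt_of_le h2 with h | h2
  · subst h
    ((try push_cast); (repeat first | rw [if_pos (by linarith)] | rw [if_neg (by linarith)] | erw [if_pos (by linarith)] | erw [if_neg (by linarith)]); (try push_cast); (try ring1))
  · ((try push_cast); (repeat first | rw [if_pos (by linarith)] | rw [if_neg (by linarith)] | erw [if_pos (by linarith)] | erw [if_neg (by linarith)]); (try push_cast); (try ring1))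
theorem txl14 {p c x : ℝ} (h1 : 1 / 10 < p) (h2 : p ≤ 1 / 5) : txg.v p c x = dt80.val (fun p x => kcg.v p x) p c x := by
  symm
  refine (DT.val_gt (by simp only [Cn.rt_v, Cn.ng_v]; push_cast; linarith)).trans ?_
  refine (DT.val_le (by simp only [Cn.rt_v, Cn.ng_v]; push_cast; linarith)).trans ?_
  refine (DT.val_le (by simp only [Cn.rt_v, Cn.ng_v]; push_cast; linarith)).trans ?_
  refine (DT.val_le (by simp only [Cn.rt_v, Cn.ng_v]; push_cast; linarith)).trans ?_
  simp only [dt40, DT.val, cloR, sw40, sl40, sv40, txg, txg_4, txg_6, txg_26, txg_29, txg_32, txg_35, txg_50, txg_53, txg_54, txg_61, txg_75, txg_76, txg_96, txg_97, txg_106, txg_123, txg_124, txg_131, txg_146, txg_147, txg_166, txg_167, txg_177, txg_180, txg_193, txg_194, txg_201, txg_213, txg_214, txg_230, txg_239, txg_254, txg_255, txg_262, txg_274, txg_275, txg_289, txg_291, txg_292, txg_301, txg_302, txg_305, txg_315, txg_316, txg_321, txg_331, txg_349, txg_350, txg_357, txg_371, txg_372, txg_377, txg_391,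 txg_392, txg_412, txg_413, txg_421, txg_423, txg_437, txg_438, txg_443, txg_459, txg_460, txg_478, txg_479, txg_486, txg_503, txg_504, txg_509, txg_526, txg_527, txg_546, txg_557, txg_558, txg_569, txg_570, txg_596, txg_597, txg_602, txg_616, txg_617, txg_636, txg_637]
  rcases eq_or_lt_of_le h2 with h | h2
  · subst h
    ((try push_cast); (repeat first | rw [if_pos (by linarith)] | rw [if_neg (by linarith)] | erw [if_pos (by linarith)] | erw [if_neg (by linarith)]); (try push_cast); (try ring1))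
  · ((try push_cast); (repeat first | rw [if_pos (by linarith)] | rw [if_neg (by linarith)] | erw [if_pos (by linarith)] | erw [if_neg (by linarith)]); (try push_cast); (try ring1))
theorem txl15 {p c x : ℝ} (h1 : 1 / 5 < p) (h2 : p ≤ 3 / 10) : txg.v p c x = dt80.val (fun p x => kcg.v p x) p c x := by
  symm
  refine (DT.val_gt (by simp only [Cn.rt_v, Cn.ng_v]; push_cast; linarith)).trans ?_
  refine (DT.val_le (by simp only [Cn.rt_v, Cn.ng_v]; push_cast; linarith)).trans ?_
  refine (DT.val_le (by simp only [Cn.rt_v, Cn.ng_v]; push_cast; linarith)).trans ?_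
  refine (DT.val_gt (by simp only [Cn.rt_v, Cn.ng_v]; push_cast; linarith)).trans ?_
  refine (DT.val_le (by simp only [Cn.rt_v, Cn.ng_v]; push_cast; linarith)).trans ?_
  simp only [dt41, DT.val, cloR, sw41, sl41, sv41, txg, txg_4, txg_6, txg_26, txg_29, txg_32, txg_35, txg_50, txg_53, txg_54, txg_61, txg_75, txg_76, txg_96, txg_97, txg_106, txg_123, txg_124, txg_131, txg_146, txg_147, txg_166, txg_167, txg_177, txg_180, txg_193, txg_194, txg_201, txg_213, txg_214, txg_230, txg_239, txg_254, txg_255, txg_262, txg_274, txg_275, txg_289, txg_291, txg_292, txg_301, txg_302, txg_305, txg_315, txg_316, txg_321, txg_331, txg_349, txg_350, txg_357, txg_371, txg_372, txg_377, txg_391, txg_392, txg_412, txg_413, txg_421, txg_423, txg_437, txg_438, txg_443, txg_459, txg_460, txg_478, txg_479, txg_486, txg_503, txg_504, txg_509, txg_526, txg_527, txg_546, txg_557, txg_558, txg_569, txg_570, txg_596, txg_597, txg_602, txg_616, txg_617, txg_636, txg_637]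
  rcases eq_or_lt_of_le h2 with h | h2
  · subst h
    ((try push_cast); (repeat first | rw [if_pos (by linarith)] | rw [if_neg (by linarith)] | erw [if_pos (by linarith)] | erw [if_neg (by linarith)]); (try push_cast); (try ring1))
  · ((try push_cast); (repeat first | rw [if_pos (by linarith)] | rw [if_neg (by linarith)] | erw [if_pos (by linarith)] | erw [if_neg (by linarith)]); (try push_cast); (try ring1))
theorem txl16 {p c x : ℝ} (h1 : 3 / 10 < p) (h2 : p ≤ 7 / 20) : txg.v p c x = dt80.val (fun p x => kcg.v p x) p c x := by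
  symm
  refine (DT.val_gt (by simp only [Cn.rt_v, Cn.ng_v]; push_cast; linarith)).trans ?_
  refine (DT.val_le (by simp only [Cn.rt_v, Cn.ng_v]; push_cast; linarith)).trans ?_
  refine (DT.val_le (by simp only [Cn.rt_v, Cn.ng_v]; push_cast; linarith)).trans ?_
  refine (DT.val_gt (by simp only [Cn.rt_v, Cn.ng_v]; push_cast; linarith)).trans ?_
  refine (DT.val_gt (by simp only [Cn.rt_v, Cn.ng_v]; push_cast; linarith)).trans ?_
  simp only [dt42, DT.val, cloR, sw42, sl42, sv42, txg, txg_4, txg_6, txg_26, txg_29, txg_32, txg_35, txg_50, txg_53, txg_54, txg_61, txg_75, txg_76, txg_96, txg_97, txg_106, txg_123, txg_124, txg_131, txg_146, txg_147, txg_166, txg_167, txg_177, txg_180, txg_193, txg_194, txg_201, txg_213, txg_214, txg_230, txg_239, txg_254, txg_255, txg_262, txg_274, txg_275, txg_289, txg_291, txg_292, txg_301, txg_302, txg_305, txg_315, txg_316, txg_321, txg_331, txg_349, txg_350, txg_357, txg_371, txg_372, txg_377, txg_391, txg_392, txg_412, txg_413, txg_421,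 txg_423, txg_437, txg_438, txg_443, txg_459, txg_460, txg_478, txg_479, txg_486, txg_503, txg_504, txg_509, txg_526, txg_527, txg_546, txg_557, txg_558, txg_569, txg_570, txg_596, txg_597, txg_602, txg_616, txg_617, txg_636, txg_637]
  rcases eq_or_lt_of_le h2 with h | h2
  · subst h
    ((try push_cast); (repeat first | rw [if_pos (by linarith)] | rw [if_neg (by linarith)] | erw [if_pos (by linarith)] | erw [if_neg (by linarith)]); (try push_cast); (try ring1))
  · ((try push_cast); (repeat first | rw [if_pos (by linarith)] | rw [if_neg (by linarith)] | erw [if_pos (by linarith)] | erw [if_neg (by linarith)]); (try push_cast); (try ring1))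
theorem txl17 {p c x : ℝ} (h1 : 7 / 20 < p) (h2 : p ≤ 3 / 8) : txg.v p c x = dt80.val (fun p x => kcg.v p x) p c x := by
  symm
  refine (DT.val_gt (by simp only [Cn.rt_v, Cn.ng_v]; push_cast; linarith)).trans ?_
  refine (DT.val_le (by simp only [Cn.rt_v, Cn.ng_v]; push_cast; linarith)).trans ?_
  refine (DT.val_gt (by simp only [Cn.rt_v, Cn.ng_v]; push_cast; linarith)).trans ?_
  refine (DT.val_le (by simp only [Cn.rt_v, Cn.ng_v]; push_cast; linarith)).trans ?_
  refine (DT.val_le (by simp only [Cn.rt_v, Cn.ng_v]; push_cast; linarith)).trans ?_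
  simp only [dt43, DT.val, cloR, sw43, sl43, sv43, txg, txg_4, txg_6, txg_26, txg_29, txg_32, txg_35, txg_50, txg_53, txg_54, txg_61, txg_75, txg_76, txg_96, txg_97, txg_106, txg_123, txg_124, txg_131, txg_146, txg_147, txg_166, txg_167, txg_177, txg_180, txg_193, txg_194, txg_201, txg_213, txg_214, txg_230, txg_239, txg_254, txg_255, txg_262, txg_274, txg_275, txg_289, txg_291, txg_292, txg_301, txg_302, txg_305, txg_315, txg_316, txg_321, txg_331, txg_349, txg_350, txg_357, txg_371, txg_372, txg_377, txg_391, txg_392, txg_412, txg_413, txg_421, txg_423, txg_437, txg_438, txg_443, txg_459, txg_460, txg_478, txg_479, txg_486, txg_503, txg_504, txg_509, txg_526, txg_527, txg_546, txg_557, txg_558, txg_569, txg_570, txg_596, txg_597, txg_602, txg_616, txg_617, txg_636, txg_637]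
  rcases eq_or_lt_of_le h2 with h | h2
  · subst h
    ((try push_cast); (repeat first | rw [if_pos (by linarith)] | rw [if_neg (by linarith)] | erw [if_pos (by linarith)] | erw [if_neg (by linarith)]); (try push_cast); (try ring1))
  · ((try push_cast); (repeat first | rw [if_pos (by linarith)] | rw [if_neg (by linarith)] | erw [if_pos (by linarith)] | erw [if_neg (by linarith)]); (try push_cast); (try ring1))
theorem txl18 {p c x : ℝ} (h1 : 3 / 8 < p) (h2 : p ≤ 39 / 100) : txg.v p c x = dt80.val (fun p x => kcg.v p x) p c x := by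
  symm
  refine (DT.val_gt (by simp only [Cn.rt_v, Cn.ng_v]; push_cast; linarith)).trans ?_
  refine (DT.val_le (by simp only [Cn.rt_v, Cn.ng_v]; push_cast; linarith)).trans ?_
  refine (DT.val_gt (by simp only [Cn.rt_v, Cn.ng_v]; push_cast; linarith)).trans ?_
  refine (DT.val_le (by simp only [Cn.rt_v, Cn.ng_v]; push_cast; linarith)).trans ?_
  refine (DT.val_gt (by simp only [Cn.rt_v, Cn.ng_v]; push_cast; linarith)).trans ?_
  simp only [dt44, DT.val, cloR, sw44, sl44, sv44, txg, txg_4, txg_6, txg_26, txg_29, txg_32, txg_35, txg_50, txg_53, txg_54, txg_61, txg_75, txg_76, txg_96, txg_97, txg_106, txg_123, txg_124, txg_131, txg_146, txg_147, txg_166, txg_167, txg_177, txg_180, txg_193, txg_194, txg_201, txg_213, txg_214, txg_230, txg_239, txg_254, txg_255, txg_262, txg_274, txg_275, txg_289, txg_291, txg_292, txg_301, txg_302, txg_305, txg_315, txg_316, txg_321, txg_331, txg_349, txg_350, txg_357, txg_371, txg_372, txg_377, txg_391, txg_392, txg_412, txg_413, txg_421,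 txg_423, txg_437, txg_438, txg_443, txg_459, txg_460, txg_478, txg_479, txg_486, txg_503, txg_504, txg_509, txg_526, txg_527, txg_546, txg_557, txg_558, txg_569, txg_570, txg_596, txg_597, txg_602, txg_616, txg_617, txg_636, txg_637]
  rcases eq_or_lt_of_le h2 with h | h2
  · subst h
    ((try push_cast); (repeat first | rw [if_pos (by linarith)] | rw [if_neg (by linarith)] | erw [if_pos (by linarith)] | erw [if_neg (by linarith)]); (try push_cast); (try ring1))
  · ((try push_cast); (repeat first | rw [if_pos (by linarith)] | rw [if_neg (by linarith)] | erw [if_pos (by linarith)] | erw [if_neg (by linarith)]); (try push_cast); (try ring1))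
theorem txl19 {p c x : ℝ} (h1 : 39 / 100 < p) (h2 : p ≤ 2 / 5) : txg.v p c x = dt80.val (fun p x => kcg.v p x) p c x := by
  symm
  refine (DT.val_gt (by simp only [Cn.rt_v, Cn.ng_v]; push_cast; linarith)).trans ?_
  refine (DT.val_le (by simp only [Cn.rt_v, Cn.ng_v]; push_cast; linarith)).trans ?_
  refine (DT.val_gt (by simp only [Cn.rt_v, Cn.ng_v]; push_cast; linarith)).trans ?_
  refine (DT.val_gt (by simp only [Cn.rt_v, Cn.ng_v]; push_cast; linarith)).trans ?_
  refine (DT.val_le (by simp only [Cn.rt_v, Cn.ng_v]; push_cast; linarith)).trans ?_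
  simp only [dt45, DT.val, cloR, sw45, sl45, sv45, txg, txg_4, txg_6, txg_26, txg_29, txg_32, txg_35, txg_50, txg_53, txg_54, txg_61, txg_75, txg_76, txg_96, txg_97, txg_106, txg_123, txg_124, txg_131, txg_146, txg_147, txg_166, txg_167, txg_177, txg_180, txg_193, txg_194, txg_201, txg_213, txg_214, txg_230, txg_239, txg_254, txg_255, txg_262, txg_274, txg_275, txg_289, txg_291, txg_292, txg_301, txg_302, txg_305, txg_315, txg_316, txg_321, txg_331, txg_349, txg_350, txg_357, txg_371, txg_372, txg_377, txg_391, txg_392, txg_412, txg_413, txg_421, txg_423, txg_437, txg_438, txg_443, txg_459, txg_460, txg_478, txg_479, txg_486, txg_503, txg_504, txg_509, txg_526, txg_527, txg_546, txg_557, txg_558, txg_569, txg_570, txg_596, txg_597, txg_602, txg_616, txg_617, txg_636, txg_637]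
  rcases eq_or_lt_of_le h2 with h | h2
  · subst h
    ((try push_cast); (repeat first | rw [if_pos (by linarith)] | rw [if_neg (by linarith)] | erw [if_pos (by linarith)] | erw [if_neg (by linarith)]); (try push_cast); (try ring1))
  · ((try push_cast); (repeat first | rw [if_pos (by linarith)] | rw [if_neg (by linarith)] | erw [if_pos (by linarith)] | erw [if_neg (by linarith)]); (try push_cast); (try ring1))
theorem txl20 {p c x : ℝ} (h1 : 2 / 5 < p) (h2 : p ≤ 41 / 100) : txg.v p c x = dt80.val (fun p x => kcg.v p x) p c x := by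
  symm
  refine (DT.val_gt (by simp only [Cn.rt_v, Cn.ng_v]; push_cast; linarith)).trans ?_
  refine (DT.val_le (by simp only [Cn.rt_v, Cn.ng_v]; push_cast; linarith)).trans ?_
  refine (DT.val_gt (by simp only [Cn.rt_v, Cn.ng_v]; push_cast; linarith)).trans ?_
  refine (DT.val_gt (by simp only [Cn.rt_v, Cn.ng_v]; push_cast; linarith)).trans ?_
  refine (DT.val_gt (by simp only [Cn.rt_v, Cn.ng_v]; push_cast; linarith)).trans ?_
  simp only [dt46, DT.val, cloR, sw46, sl46, sv46, txg, txg_4, txg_6, txg_26, txg_29, txg_32, txg_35, txg_50, txg_53, txg_54, txg_61, txg_75, txg_76, txg_96, txg_97, txg_106, txg_123, txg_124, txg_131, txg_146, txg_147, txg_166, txg_167, txg_177, txg_180, txg_193, txg_194, txg_201, txg_213, txg_214, txg_230, txg_239, txg_254, txg_255, txg_262, txg_274, txg_275, txg_289, txg_291, txg_292, txg_301, txg_302, txg_305, txg_315, txg_316, txg_321, txg_331, txg_349, txg_350, txg_357, txg_371, txg_372, txg_377, txg_391, txg_392, txg_412, txg_413, txg_421,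 txg_423, txg_437, txg_438, txg_443, txg_459, txg_460, txg_478, txg_479, txg_486, txg_503, txg_504, txg_509, txg_526, txg_527, txg_546, txg_557, txg_558, txg_569, txg_570, txg_596, txg_597, txg_602, txg_616, txg_617, txg_636, txg_637]
  rcases eq_or_lt_of_le h2 with h | h2
  · subst h
    ((try push_cast); (repeat first | rw [if_pos (by linarith)] | rw [if_neg (by linarith)] | erw [if_pos (by linarith)] | erw [if_neg (by linarith)]); (try push_cast); (try ring1))
  · ((try push_cast); (repeat first | rw [if_pos (by linarith)] | rw [if_neg (by linarith)] | erw [if_pos (by linarith)] | erw [if_neg (by linarith)]); (try push_cast); (try ring1))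
theorem txl21 {p c x : ℝ} (h1 : 41 / 100 < p) (h2 : p ≤ 21 / 50) : txg.v p c x = dt80.val (fun p x => kcg.v p x) p c x := by
  symm
  refine (DT.val_gt (by simp only [Cn.rt_v, Cn.ng_v]; push_cast; linarith)).trans ?_
  refine (DT.val_gt (by simp only [Cn.rt_v, Cn.ng_v]; push_cast; linarith)).trans ?_
  refine (DT.val_le (by simp only [Cn.rt_v, Cn.ng_v]; push_cast; linarith)).trans ?_
  refine (DT.val_le (by simp only [Cn.rt_v, Cn.ng_v]; push_cast; linarith)).trans ?_
  simp only [dt47, DT.val, cloR, sw47, sl47, sv47, txg, txg_4, txg_6, txg_26, txg_29, txg_32, txg_35, txg_50, txg_53, txg_54, txg_61, txg_75, txg_76, txg_96, txg_97, txg_106, txg_123, txg_124, txg_131, txg_146, txg_147, txg_166, txg_167, txg_177, txg_180, txg_193, txg_194, txg_201, txg_213, txg_214, txg_230, txg_239, txg_254, txg_255, txg_262, txg_274, txg_275, txg_289, txg_291, txg_292, txg_301, txg_302, txg_305, txg_315, txg_316, txg_321, txg_331, txg_349, txg_350, txg_357, txg_371, txg_372, txg_377,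 txg_391, txg_392, txg_412, txg_413, txg_421, txg_423, txg_437, txg_438, txg_443, txg_459, txg_460, txg_478, txg_479, txg_486, txg_503, txg_504, txg_509, txg_526, txg_527, txg_546, txg_557, txg_558, txg_569, txg_570, txg_596, txg_597, txg_602, txg_616, txg_617, txg_636, txg_637]
  rcases eq_or_lt_of_le h2 with h | h2
  · subst h
    ((try push_cast); (repeat first | rw [if_pos (by linarith)] | rw [if_neg (by linarith)] | erw [if_pos (by linarith)] | erw [if_neg (by linarith)]); (try push_cast); (try ring1))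
  · ((try push_cast); (repeat first | rw [if_pos (by linarith)] | rw [if_neg (by linarith)] | erw [if_pos (by linarith)] | erw [if_neg (by linarith)]); (try push_cast); (try ring1))
theorem txl22 {p c x : ℝ} (h1 : 21 / 50 < p) (h2 : p ≤ 43 / 100) : txg.v p c x = dt80.val (fun p x => kcg.v p x) p c x := by
  symm
  refine (DT.val_gt (by simp only [Cn.rt_v, Cn.ng_v]; push_cast; linarith)).trans ?_
  refine (DT.val_gt (by simp only [Cn.rt_v, Cn.ng_v]; push_cast; linarith)).trans ?_
  refine (DT.val_le (by simp only [Cn.rt_v, Cn.ng_v]; push_cast; linarith)).trans ?_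
  refine (DT.val_gt (by simp only [Cn.rt_v, Cn.ng_v]; push_cast; linarith)).trans ?_
  refine (DT.val_le (by simp only [Cn.rt_v, Cn.ng_v]; push_cast; linarith)).trans ?_
  simp only [dt48, DT.val, cloR, sw48, sl48, sv48, txg, txg_4, txg_6, txg_26, txg_29, txg_32, txg_35, txg_50, txg_53, txg_54, txg_61, txg_75, txg_76, txg_96, txg_97, txg_106, txg_123, txg_124, txg_131, txg_146, txg_147, txg_166, txg_167, txg_177, txg_180, txg_193, txg_194, txg_201, txg_213, txg_214, txg_230, txg_239, txg_254, txg_255, txg_262, txg_274, txg_275, txg_289, txg_291, txg_292, txg_301, txg_302, txg_305, txg_315, txg_316, txg_321, txg_331, txg_349, txg_350, txg_357, txg_371, txg_372, txg_377, txg_391, txg_392, txg_412, txg_413, txg_421, txg_423, txg_437, txg_438, txg_443, txg_459, txg_460, txg_478, txg_479, txg_486, txg_503, txg_504, txg_509, txg_526, txg_527, txg_546, txg_557, txg_558, txg_569, txg_570, txg_596, txg_597, txg_602, txg_616, txg_617, txg_636, txg_637]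
  rcases eq_or_lt_of_le h2 with h | h2
  · subst h
    ((try push_cast); (repeat first | rw [if_pos (by linarith)] | rw [if_neg (by linarith)] | erw [if_pos (by linarith)] | erw [if_neg (by linarith)]); (try push_cast); (try ring1))
  · ((try push_cast); (repeat first | rw [if_pos (by linarith)] | rw [if_neg (by linarith)] | erw [if_pos (by linarith)] | erw [if_neg (by linarith)]); (try push_cast); (try ring1))
theorem txl23 {p c x : ℝ} (h1 : 43 / 100 < p) (h2 : p ≤ 2507 / 5707) : txg.v p c x = dt80.val (fun p x => kcg.v p x) p c x := by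
  symm
  refine (DT.val_gt (by simp only [Cn.rt_v, Cn.ng_v]; push_cast; linarith)).trans ?_
  refine (DT.val_gt (by simp only [Cn.rt_v, Cn.ng_v]; push_cast; linarith)).trans ?_
  refine (DT.val_le (by simp only [Cn.rt_v, Cn.ng_v]; push_cast; linarith)).trans ?_
  refine (DT.val_gt (by simp only [Cn.rt_v, Cn.ng_v]; push_cast; linarith)).trans ?_
  refine (DT.val_gt (by simp only [Cn.rt_v, Cn.ng_v]; push_cast; linarith)).trans ?_
  simp only [dt49, DT.val, cloR, sw49, sw49_2, sl49, sl49_2, sv49, sv49_2, txg, txg_4, txg_6, txg_26, txg_29, txg_32, txg_35, txg_50, txg_53, txg_54, txg_61, txg_75, txg_76, txg_96, txg_97, txg_106, txg_123, txg_124, txg_131, txg_146, txg_147, txg_166, txg_167, txg_177, txg_180, txg_193, txg_194, txg_201, txg_213, txg_214, txg_230, txg_239, txg_254, txg_255, txg_262, txg_274, txg_275, txg_289, txg_291, txg_292, txg_301, txg_302, txg_305, txg_315, txg_316, txg_321, txg_331, txg_349, txg_350, txg_357, txg_371, txg_372, txg_377, txg_391, txg_392,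 txg_412, txg_413, txg_421, txg_423, txg_437, txg_438, txg_443, txg_459, txg_460, txg_478, txg_479, txg_486, txg_503, txg_504, txg_509, txg_526, txg_527, txg_546, txg_557, txg_558, txg_569, txg_570, txg_596, txg_597, txg_602, txg_616, txg_617, txg_636, txg_637]
  rcases eq_or_lt_of_le h2 with h | h2
  · subst h
    ((try push_cast); (repeat first | rw [if_pos (by linarith)] | rw [if_neg (by linarith)] | erw [if_pos (by linarith)] | erw [if_neg (by linarith)]); (try push_cast); (try ring1))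
  · ((try push_cast); (repeat first | rw [if_pos (by linarith)] | rw [if_neg (by linarith)] | erw [if_pos (by linarith)] | erw [if_neg (by linarith)]); (try push_cast); (try ring1))
theorem txl24 {p c x : ℝ} (h1 : 2507 / 5707 < p) (h2 : p ≤ 587 / 1262) : txg.v p c x = dt80.val (fun p x => kcg.v p x) p c x := by
  symm
  refine (DT.val_gt (by simp only [Cn.rt_v, Cn.ng_v]; push_cast; linarith)).trans ?_
  refine (DT.val_gt (by simp only [Cn.rt_v, Cn.ng_v]; push_cast; linarith)).trans ?_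
  refine (DT.val_gt (by simp only [Cn.rt_v, Cn.ng_v]; push_cast; linarith)).trans ?_
  refine (DT.val_le (by simp only [Cn.rt_v, Cn.ng_v]; push_cast; linarith)).trans ?_
  refine (DT.val_le (by simp only [Cn.rt_v, Cn.ng_v]; push_cast; linarith)).trans ?_
  simp only [dt50, DT.val, cloR, txg, txg_4, txg_6, txg_26, txg_29, txg_32, txg_35, txg_50, txg_53, txg_54, txg_61, txg_75, txg_76, txg_96, txg_97, txg_106, txg_123, txg_124, txg_131, txg_146, txg_147, txg_166, txg_167, txg_177, txg_180, txg_193, txg_194, txg_201, txg_213, txg_214, txg_230, txg_239, txg_254, txg_255, txg_262, txg_274, txg_275, txg_289, txg_291, txg_292, txg_301, txg_302, txg_305, txg_315, txg_316, txg_321, txg_331, txg_349, txg_350, txg_357, txg_371, txg_372, txg_377, txg_391, txg_392, txg_412, txg_413, txg_421, txg_423, txg_437, txg_438, txg_443, txg_459, txg_460, txg_478, txg_479, txg_486, txg_503, txg_504, txg_509, txg_526, txg_527, txg_546, txg_557, txg_558, txg_569, txg_570, txg_596, txg_597, txg_602,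 txg_616, txg_617, txg_636, txg_637]
  rcases eq_or_lt_of_le h2 with h | h2
  · subst h
    ((try push_cast); (repeat first | rw [if_pos (by linarith)] | rw [if_neg (by linarith)] | erw [if_pos (by linarith)] | erw [if_neg (by linarith)]); (try push_cast); (try ring1))
  · ((try push_cast); (repeat first | rw [if_pos (by linarith)] | rw [if_neg (by linarith)] | erw [if_pos (by linarith)] | erw [if_neg (by linarith)]); (try push_cast); (try ring1))
theorem txl25 {p c x : ℝ} (h1 : 587 / 1262 < p) (h2 : p ≤ 119 / 250) : txg.v p c x = dt80.val (fun p x => kcg.v p x) p c x := by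
  symm
  refine (DT.val_gt (by simp only [Cn.rt_v, Cn.ng_v]; push_cast; linarith)).trans ?_
  refine (DT.val_gt (by simp only [Cn.rt_v, Cn.ng_v]; push_cast; linarith)).trans ?_
  refine (DT.val_gt (by simp only [Cn.rt_v, Cn.ng_v]; push_cast; linarith)).trans ?_
  refine (DT.val_le (by simp only [Cn.rt_v, Cn.ng_v]; push_cast; linarith)).trans ?_
  refine (DT.val_gt (by simp only [Cn.rt_v, Cn.ng_v]; push_cast; linarith)).trans ?_
  simp only [dt51, DT.val, cloR, sw51, sw51_2, sl51, sl51_2, sv51, sv51_2, txg, txg_4, txg_6, txg_26, txg_29, txg_32, txg_35, txg_50, txg_53, txg_54, txg_61, txg_75, txg_76, txg_96, txg_97, txg_106, txg_123, txg_124, txg_131, txg_146, txg_147, txg_166, txg_167, txg_177, txg_180, txg_193, txg_194, txg_201, txg_213, txg_214, txg_230, txg_239, txg_254, txg_255, txg_262, txg_274, txg_275, txg_289, txg_291, txg_292, txg_301, txg_302, txg_305, txg_315, txg_316, txg_321, txg_331, txg_349, txg_350, txg_357, txg_371, txg_372, txg_377, txg_391, txg_392,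 txg_412, txg_413, txg_421, txg_423, txg_437, txg_438, txg_443, txg_459, txg_460, txg_478, txg_479, txg_486, txg_503, txg_504, txg_509, txg_526, txg_527, txg_546, txg_557, txg_558, txg_569, txg_570, txg_596, txg_597, txg_602, txg_616, txg_617, txg_636, txg_637]
  rcases eq_or_lt_of_le h2 with h | h2
  · subst h
    ((try push_cast); (repeat first | rw [if_pos (by linarith)] | rw [if_neg (by linarith)] | erw [if_pos (by linarith)] | erw [if_neg (by linarith)]); (try push_cast); (try ring1))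
  · ((try push_cast); (repeat first | rw [if_pos (by linarith)] | rw [if_neg (by linarith)] | erw [if_pos (by linarith)] | erw [if_neg (by linarith)]); (try push_cast); (try ring1))
theorem txl26 {p c x : ℝ} (h1 : 119 / 250 < p) (h2 : p ≤ 39 / 80) : txg.v p c x = dt80.val (fun p x => kcg.v p x) p c x := by
  symm
  refine (DT.val_gt (by simp only [Cn.rt_v, Cn.ng_v]; push_cast; linarith)).trans ?_
  refine (DT.val_gt (by simp only [Cn.rt_v, Cn.ng_v]; push_cast; linarith)).trans ?_
  refine (DT.val_gt (by simp only [Cn.rt_v, Cn.ng_v]; push_cast; linarith)).trans ?_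
  refine (DT.val_gt (by simp only [Cn.rt_v, Cn.ng_v]; push_cast; linarith)).trans ?_
  refine (DT.val_le (by simp only [Cn.rt_v, Cn.ng_v]; push_cast; linarith)).trans ?_
  simp only [dt52, DT.val, cloR, sw52, sl52, sv52, txg, txg_4, txg_6, txg_26, txg_29, txg_32, txg_35, txg_50, txg_53, txg_54, txg_61, txg_75, txg_76, txg_96, txg_97, txg_106, txg_123, txg_124, txg_131, txg_146, txg_147, txg_166, txg_167, txg_177, txg_180, txg_193, txg_194, txg_201, txg_213, txg_214, txg_230, txg_239, txg_254, txg_255, txg_262, txg_274, txg_275, txg_289, txg_291, txg_292, txg_301, txg_302, txg_305, txg_315, txg_316, txg_321, txg_331, txg_349, txg_350, txg_357, txg_371, txg_372, txg_377, txg_391, txg_392, txg_412, txg_413, txg_421, txg_423, txg_437, txg_438, txg_443, txg_459, txg_460, txg_478, txg_479, txg_486, txg_503, txg_504, txg_509, txg_526, txg_527, txg_546, txg_557, txg_558, txg_569, txg_570, txg_596, txg_597, txg_602, txg_616, txg_617, txg_636, txg_637]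
  rcases eq_or_lt_of_le h2 with h | h2
  · subst h
    ((try push_cast); (repeat first | rw [if_pos (by linarith)] | rw [if_neg (by linarith)] | erw [if_pos (by linarith)] | erw [if_neg (by linarith)]); (try push_cast); (try ring1))
  · ((try push_cast); (repeat first | rw [if_pos (by linarith)] | rw [if_neg (by linarith)] | erw [if_pos (by linarith)] | erw [if_neg (by linarith)]); (try push_cast); (try ring1))
theorem txl27 {p c x : ℝ} (h1 : 39 / 80 < p) (h2 : p ≤ 1 / 2) : txg.v p c x = dt80.val (fun p x => kcg.v p x) p c x := by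
  symm
  refine (DT.val_gt (by simp only [Cn.rt_v, Cn.ng_v]; push_cast; linarith)).trans ?_
  refine (DT.val_gt (by simp only [Cn.rt_v, Cn.ng_v]; push_cast; linarith)).trans ?_
  refine (DT.val_gt (by simp only [Cn.rt_v, Cn.ng_v]; push_cast; linarith)).trans ?_
  refine (DT.val_gt (by simp only [Cn.rt_v, Cn.ng_v]; push_cast; linarith)).trans ?_
  refine (DT.val_gt (by simp only [Cn.rt_v, Cn.ng_v]; push_cast; linarith)).trans ?_
  simp only [dt53, DT.val, cloR, sw53, sl53, sv53, txg, txg_4, txg_6, txg_26, txg_29, txg_32, txg_35, txg_50, txg_53, txg_54, txg_61, txg_75, txg_76, txg_96, txg_97, txg_106, txg_123, txg_124, txg_131, txg_146, txg_147, txg_166, txg_167, txg_177, txg_180, txg_193, txg_194, txg_201, txg_213, txg_214, txg_230, txg_239, txg_254, txg_255, txg_262, txg_274, txg_275, txg_289, txg_291, txg_292, txg_301, txg_302, txg_305, txg_315, txg_316, txg_321, txg_331, txg_349, txg_350, txg_357, txg_371, txg_372, txg_377, txg_391, txg_392, txg_412, txg_413, txg_421,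 txg_423, txg_437, txg_438, txg_443, txg_459, txg_460, txg_478, txg_479, txg_486, txg_503, txg_504, txg_509, txg_526, txg_527, txg_546, txg_557, txg_558, txg_569, txg_570, txg_596, txg_597, txg_602, txg_616, txg_617, txg_636, txg_637]
  rcases eq_or_lt_of_le h2 with h | h2
  · subst h
    ((try push_cast); (repeat first | rw [if_pos (by linarith)] | rw [if_neg (by linarith)] | erw [if_pos (by linarith)] | erw [if_neg (by linarith)]); (try push_cast); (try ring1))
  · ((try push_cast); (repeat first | rw [if_pos (by linarith)] | rw [if_neg (by linarith)] | erw [if_pos (by linarith)] | erw [if_neg (by linarith)]); (try push_cast); (try ring1))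
theorem txe {x : ℝ} (p c : ℝ) (h : |p| ≤ 1 / 2) : txg.v p c x = dt80.val (fun p x => kcg.v p x) p c x := by
  obtain ⟨h1, h2⟩ := abs_le.1 h
  rcases le_or_gt p (-39 / 80) with g0 | g1000
  · exact txl0 (by linarith) g0
  rcases le_or_gt p (-119 / 250) with g1 | g1001
  · exact txl1 g1000 g1
  rcases le_or_gt p (-93027 / 200000) with g2 | g1002
  · exact txl2 g1001 g2
  rcases le_or_gt p (-87857 / 200000) with g3 | g1003
  · exact txl3 g1002 g3
  rcases le_or_gt p (-43 / 100) with g4 | g1004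
  · exact txl4 g1003 g4
  rcases le_or_gt p (-21 / 50) with g5 | g1005
  · exact txl5 g1004 g5
  rcases le_or_gt p (-41 / 100) with g6 | g1006
  · exact txl6 g1005 g6
  rcases le_or_gt p (-2 / 5) with g7 | g1007
  · exact txl7 g1006 g7
  rcases le_or_gt p (-3 / 8) with g8 | g1008
  · exact txl8 g1007 g8
  rcases le_or_gt p (-7 / 20) with g9 | g1009
  · exact txl9 g1008 g9
  rcases le_or_gt p (-3 / 10) with g10 | g1010
  · exact txl10 g1009 g10
  rcases le_or_gt p (-1 / 5) with g11 | g1011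
  · exact txl11 g1010 g11
  rcases le_or_gt p (-1 / 10) with g12 | g1012
  · exact txl12 g1011 g12
  rcases le_or_gt p (1 / 10) with g13 | g1013
  · exact txl13 g1012 g13
  rcases le_or_gt p (1 / 5) with g14 | g1014
  · exact txl14 g1013 g14
  rcases le_or_gt p (3 / 10) with g15 | g1015
  · exact txl15 g1014 g15
  rcases le_or_gt p (7 / 20) with g16 | g1016
  · exact txl16 g1015 g16
  rcases le_or_gt p (3 / 8) with g17 | g1017
  · exact txl17 g1016 g17
  rcases le_or_gt p (39 / 100) with g18 | g1018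
  · exact txl18 g1017 g18
  rcases le_or_gt p (2 / 5) with g19 | g1019
  · exact txl19 g1018 g19
  rcases le_or_gt p (41 / 100) with g20 | g1020
  · exact txl20 g1019 g20
  rcases le_or_gt p (21 / 50) with g21 | g1021
  · exact txl21 g1020 g21
  rcases le_or_gt p (43 / 100) with g22 | g1022
  · exact txl22 g1021 g22
  rcases le_or_gt p (2507 / 5707) with g23 | g1023
  · exact txl23 g1022 g23
  rcases le_or_gt p (587 / 1262) with g24 | g1024
  · exact txl24 g1023 g24
  rcases le_or_gt p (119 / 250) with g25 | g1025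
  · exact txl25 g1024 g25
  rcases le_or_gt p (39 / 80) with g26 | g1026
  · exact txl26 g1025 g26
  · exact txl27 g1026 (by linarith)
theorem ta_dt26 (x : ℝ) : dt26.val (fun p x => kcg.v p x) (-1 / 2) (cT (-1 / 2)) x = (0) := by
  simp only [dt26, DT.val, sw26, sl26, sv26]
  ((try push_cast); ring1)
theorem tb_dt26 (x : ℝ) : dt26.val (fun p x => kcg.v p x) (-39 / 80) (cT (-39 / 80)) x = (269281 / 100000000 + (x - 309 / 320) * (-135919 / 5000000)) := by
  simp only [dt26, DT.val, sw26, sl26, sv26]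
  ((try push_cast); ring1)
theorem ta_dt27 (x : ℝ) : dt27.val (fun p x => kcg.v p x) (-39 / 80) (cT (-39 / 80)) x = (269281 / 100000000 + (x - 309 / 320) * (-135919 / 5000000)) := by
  simp only [dt27, DT.val, sw27, sl27, sv27]
  ((try push_cast); ring1)
theorem tb_dt27 (x : ℝ) : dt27.val (fun p x => kcg.v p x) (-119 / 250) (cT (-119 / 250)) x = (579709 / 100000000 + (x - 309 / 320) * (-1064001 / 10000000)) := by
  simp only [dt27, DT.val, sw27, sl27, sv27]
  ((try push_cast); ring1)
theorem ta_dt28 (x : ℝ) : dt28.val (fun p x => kcg.v p x) (-119 / 250) (cT (-119 / 250)) x = (579709 / 100000000 + (x - 309 / 320) * (-1064001 / 10000000)) := by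
  simp only [dt28, DT.val, sw28, sl28, sv28]
  ((try push_cast); ring1)
theorem tb_dt28 (x : ℝ) : dt28.val (fun p x => kcg.v p x) (-93027 / 200000) (cT (-93027 / 200000)) x = (805031 / 100000000 + (x - 309 / 320) * (-356771 / 2000000)) := by
  simp only [dt28, DT.val, sw28, sl28, sv28]
  ((try push_cast); ring1)
theorem ta_dt54 (x : ℝ) : dt54.val (fun p x => kcg.v p x) (-39 / 80) (cT (-39 / 80)) x = (269281 / 100000000 + (x - 309 / 320) * (-135919 / 5000000)) :=
  (DT.val_le (by simp only [Cn.rt_v, Cn.ng_v]; norm_num)).trans (ta_dt27 x)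
theorem tb_dt54 (x : ℝ) : dt54.val (fun p x => kcg.v p x) (-93027 / 200000) (cT (-93027 / 200000)) x = (805031 / 100000000 + (x - 309 / 320) * (-356771 / 2000000)) :=
  (DT.val_gt (by simp only [Cn.rt_v, Cn.ng_v]; norm_num)).trans (tb_dt28 x)
theorem ta_dt55 (x : ℝ) : dt55.val (fun p x => kcg.v p x) (-1 / 2) (cT (-1 / 2)) x = (0) :=
  (DT.val_le (by simp only [Cn.rt_v, Cn.ng_v]; norm_num)).trans (ta_dt26 x)
theorem tb_dt55 (x : ℝ) : dt55.val (fun p x => kcg.v p x) (-93027 / 200000) (cT (-93027 / 200000)) x = (805031 / 100000000 + (x - 309 / 320) * (-356771 / 2000000)) :=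
  (DT.val_gt (by simp only [Cn.rt_v, Cn.ng_v]; norm_num)).trans (tb_dt54 x)
theorem ta_dt29 (x : ℝ) : dt29.val (fun p x => kcg.v p x) (-93027 / 200000) (cT (-93027 / 200000)) x = (805031 / 100000000 + (x - 309 / 320) * (-356771 / 2000000)) := by
  simp only [dt29, DT.val, sw29, sl29, sv29]
  ((try push_cast); ring1)
theorem tb_dt29 (x : ℝ) : dt29.val (fun p x => kcg.v p x) (-87857 / 200000) (cT (-87857 / 200000)) x = (323469 / 25000000 + (x - 309 / 320) * (-1267169 / 5000000)) := by
  simp only [dt29, DT.val, sw29, sl29, sv29]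
  ((try push_cast); ring1)
theorem ta_dt30 (x : ℝ) : dt30.val (fun p x => kcg.v p x) (-87857 / 200000) (cT (-87857 / 200000)) x = (323469 / 25000000 + (x - 309 / 320) * (-1267169 / 5000000)) := by
  simp only [dt30, DT.val, sw30, sl30, sv30]
  ((try push_cast); ring1)
theorem tb_dt30 (x : ℝ) : dt30.val (fun p x => kcg.v p x) (-43 / 100) (cT (-43 / 100)) x = (1663913 / 100000000 + (x - 309 / 320) * (-1005789 / 5000000)) := by
  simp only [dt30, DT.val, sw30, sl30, sv30]
  ((try push_cast); ring1)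
theorem ta_dt56 (x : ℝ) : dt56.val (fun p x => kcg.v p x) (-93027 / 200000) (cT (-93027 / 200000)) x = (805031 / 100000000 + (x - 309 / 320) * (-356771 / 2000000)) :=
  (DT.val_le (by simp only [Cn.rt_v, Cn.ng_v]; norm_num)).trans (ta_dt29 x)
theorem tb_dt56 (x : ℝ) : dt56.val (fun p x => kcg.v p x) (-43 / 100) (cT (-43 / 100)) x = (1663913 / 100000000 + (x - 309 / 320) * (-1005789 / 5000000)) :=
  (DT.val_gt (by simp only [Cn.rt_v, Cn.ng_v]; norm_num)).trans (tb_dt30 x)
theorem ta_dt31 (x : ℝ) : dt31.val (fun p x => kcg.v p x) (-43 / 100) (cT (-43 / 100)) x = (1663913 / 100000000 + (x - 309 / 320) * (-1005789 / 5000000)) := by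
  simp only [dt31, DT.val, sw31, sl31, sv31]
  ((try push_cast); ring1)
theorem tb_dt31 (x : ℝ) : dt31.val (fun p x => kcg.v p x) (-21 / 50) (cT (-21 / 50)) x = (126151 / 5000000 + (x - 309 / 320) * (1570841 / 10000000)) := by
  simp only [dt31, DT.val, sw31, sl31, sv31]
  ((try push_cast); ring1)
theorem ta_dt32 (x : ℝ) : dt32.val (fun p x => kcg.v p x) (-21 / 50) (cT (-21 / 50)) x = (126151 / 5000000 + (x - 309 / 320) * (1570841 / 10000000)) := by
  simp only [dt32, DT.val, sw32, sl32, sv32]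
  ((try push_cast); ring1)
theorem tb_dt32 (x : ℝ) : dt32.val (fun p x => kcg.v p x) (-41 / 100) (cT (-41 / 100)) x = (944811 / 25000000 + (x - 309 / 320) * (7360887 / 10000000)) := by
  simp only [dt32, DT.val, sw32, sl32, sv32]
  ((try push_cast); ring1)
theorem ta_dt57 (x : ℝ) : dt57.val (fun p x => kcg.v p x) (-43 / 100) (cT (-43 / 100)) x = (1663913 / 100000000 + (x - 309 / 320) * (-1005789 / 5000000)) :=
  (DT.val_le (by simp only [Cn.rt_v, Cn.ng_v]; norm_num)).trans (ta_dt31 x)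
theorem tb_dt57 (x : ℝ) : dt57.val (fun p x => kcg.v p x) (-41 / 100) (cT (-41 / 100)) x = (944811 / 25000000 + (x - 309 / 320) * (7360887 / 10000000)) :=
  (DT.val_gt (by simp only [Cn.rt_v, Cn.ng_v]; norm_num)).trans (tb_dt32 x)
theorem ta_dt58 (x : ℝ) : dt58.val (fun p x => kcg.v p x) (-93027 / 200000) (cT (-93027 / 200000)) x = (805031 / 100000000 + (x - 309 / 320) * (-356771 / 2000000)) :=
  (DT.val_le (by simp only [Cn.rt_v, Cn.ng_v]; norm_num)).trans (ta_dt56 x)
theorem tb_dt58 (x : ℝ) : dt58.val (fun p x => kcg.v p x) (-41 / 100) (cT (-41 / 100)) x = (944811 / 25000000 + (x - 309 / 320) * (7360887 / 10000000)) :=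
  (DT.val_gt (by simp only [Cn.rt_v, Cn.ng_v]; norm_num)).trans (tb_dt57 x)
theorem ta_dt59 (x : ℝ) : dt59.val (fun p x => kcg.v p x) (-1 / 2) (cT (-1 / 2)) x = (0) :=
  (DT.val_le (by simp only [Cn.rt_v, Cn.ng_v]; norm_num)).trans (ta_dt55 x)
theorem tb_dt59 (x : ℝ) : dt59.val (fun p x => kcg.v p x) (-41 / 100) (cT (-41 / 100)) x = (944811 / 25000000 + (x - 309 / 320) * (7360887 / 10000000)) :=
  (DT.val_gt (by simp only [Cn.rt_v, Cn.ng_v]; norm_num)).trans (tb_dt58 x)
theorem ta_dt33 (x : ℝ) : dt33.val (fun p x => kcg.v p x) (-41 / 100) (cT (-41 / 100)) x = (944811 / 25000000 + (x - 309 / 320) * (7360887 / 10000000)) := by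
  simp only [dt33, DT.val, sw33, sl33, sv33]
  ((try push_cast); ring1)
theorem tb_dt33 (x : ℝ) : dt33.val (fun p x => kcg.v p x) (-2 / 5) (cT (-2 / 5)) x = (5077957 / 100000000 + (x - 309 / 320) * (1237323 / 1250000)) := by
  simp only [dt33, DT.val, sw33, sl33, sv33]
  ((try push_cast); ring1)
theorem ta_dt34 (x : ℝ) : dt34.val (fun p x => kcg.v p x) (-2 / 5) (cT (-2 / 5)) x = (5077957 / 100000000 + (x - 309 / 320) * (1237323 / 1250000)) := by
  simp only [dt34, DT.val, sw34, sl34, sv34]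
  ((try push_cast); ring1)
theorem tb_dt34 (x : ℝ) : dt34.val (fun p x => kcg.v p x) (-3 / 8) (cT (-3 / 8)) x = (973921 / 12500000 + (x - 309 / 320) * (8483321 / 10000000)) := by
  simp only [dt34, DT.val, sw34, sl34, sv34]
  ((try push_cast); ring1)
theorem ta_dt35 (x : ℝ) : dt35.val (fun p x => kcg.v p x) (-3 / 8) (cT (-3 / 8)) x = (973921 / 12500000 + (x - 309 / 320) * (8483321 / 10000000)) := by
  simp only [dt35, DT.val, sw35, sl35, sv35]
  ((try push_cast); ring1)
theorem tb_dt35 (x : ℝ) : dt35.val (fun p x => kcg.v p x) (-7 / 20) (cT (-7 / 20)) x = (5238351 / 50000000 + (x - 309 / 320) * (8490367 / 10000000)) := by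
  simp only [dt35, DT.val, sw35, sl35, sv35]
  ((try push_cast); ring1)
theorem ta_dt60 (x : ℝ) : dt60.val (fun p x => kcg.v p x) (-2 / 5) (cT (-2 / 5)) x = (5077957 / 100000000 + (x - 309 / 320) * (1237323 / 1250000)) :=
  (DT.val_le (by simp only [Cn.rt_v, Cn.ng_v]; norm_num)).trans (ta_dt34 x)
theorem tb_dt60 (x : ℝ) : dt60.val (fun p x => kcg.v p x) (-7 / 20) (cT (-7 / 20)) x = (5238351 / 50000000 + (x - 309 / 320) * (8490367 / 10000000)) :=
  (DT.val_gt (by simp only [Cn.rt_v, Cn.ng_v]; norm_num)).trans (tb_dt35 x)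
theorem ta_dt61 (x : ℝ) : dt61.val (fun p x => kcg.v p x) (-41 / 100) (cT (-41 / 100)) x = (944811 / 25000000 + (x - 309 / 320) * (7360887 / 10000000)) :=
  (DT.val_le (by simp only [Cn.rt_v, Cn.ng_v]; norm_num)).trans (ta_dt33 x)
theorem tb_dt61 (x : ℝ) : dt61.val (fun p x => kcg.v p x) (-7 / 20) (cT (-7 / 20)) x = (5238351 / 50000000 + (x - 309 / 320) * (8490367 / 10000000)) :=
  (DT.val_gt (by simp only [Cn.rt_v, Cn.ng_v]; norm_num)).trans (tb_dt60 x)
theorem ta_dt36 (x : ℝ) : dt36.val (fun p x => kcg.v p x) (-7 / 20) (cT (-7 / 20)) x = (5238351 / 50000000 + (x - 309 / 320) * (8490367 / 10000000)) := by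
  simp only [dt36, DT.val, sw36, sl36, sv36]
  ((try push_cast); ring1)
theorem tb_dt36 (x : ℝ) : dt36.val (fun p x => kcg.v p x) (-3 / 10) (cT (-3 / 10)) x = (15434163 / 100000000 + (x - 309 / 320) * (2726807 / 2500000)) := by
  simp only [dt36, DT.val, sw36, sl36, sv36]
  ((try push_cast); ring1)
theorem ta_dt37 (x : ℝ) : dt37.val (fun p x => kcg.v p x) (-3 / 10) (cT (-3 / 10)) x = (15434163 / 100000000 + (x - 309 / 320) * (2726807 / 2500000)) := by
  simp only [dt37, DT.val, sw37, sl37, sv37]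
  ((try push_cast); ring1)
theorem tb_dt37 (x : ℝ) : dt37.val (fun p x => kcg.v p x) (-1 / 5) (cT (-1 / 5)) x = (717087 / 3125000 + (x - 309 / 320) * (277961 / 200000)) := by
  simp only [dt37, DT.val, sw37, sl37, sv37]
  ((try push_cast); ring1)
theorem ta_dt62 (x : ℝ) : dt62.val (fun p x => kcg.v p x) (-7 / 20) (cT (-7 / 20)) x = (5238351 / 50000000 + (x - 309 / 320) * (8490367 / 10000000)) :=
  (DT.val_le (by simp only [Cn.rt_v, Cn.ng_v]; norm_num)).trans (ta_dt36 x)
theorem tb_dt62 (x : ℝ) : dt62.val (fun p x => kcg.v p x) (-1 / 5) (cT (-1 / 5)) x = (717087 / 3125000 + (x - 309 / 320) * (277961 / 200000)) :=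
  (DT.val_gt (by simp only [Cn.rt_v, Cn.ng_v]; norm_num)).trans (tb_dt37 x)
theorem ta_dt38 (x : ℝ) : dt38.val (fun p x => kcg.v p x) (-1 / 5) (cT (-1 / 5)) x = (717087 / 3125000 + (x - 309 / 320) * (277961 / 200000)) := by
  simp only [dt38, DT.val, sw38, sl38, sv38]
  ((try push_cast); ring1)
theorem tb_dt38 (x : ℝ) : dt38.val (fun p x => kcg.v p x) (-1 / 10) (cT (-1 / 10)) x = (14055453 / 50000000 + (x - 309 / 320) * (14970471 / 10000000)) := by
  simp only [dt38, DT.val, sw38, sl38, sv38]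
  ((try push_cast); ring1)
theorem ta_dt39 (x : ℝ) : dt39.val (fun p x => kcg.v p x) (-1 / 10) (cT (-1 / 10)) x = (14055453 / 50000000 + (x - 309 / 320) * (14970471 / 10000000)) := by
  simp only [dt39, DT.val, sw39, sl39, sv39]
  ((try push_cast); ring1)
theorem tb_dt39 (x : ℝ) : dt39.val (fun p x => kcg.v p x) (1 / 10) (cT (1 / 10)) x = (29585249 / 100000000 + (x - 309 / 320) * (3039383 / 2000000)) := by
  simp only [dt39, DT.val, sw39, sl39, sv39]
  ((try push_cast); ring1)
theorem ta_dt63 (x : ℝ) : dt63.val (fun p x => kcg.v p x) (-1 / 5) (cT (-1 / 5)) x = (717087 / 3125000 + (x - 309 / 320) * (277961 / 200000)) :=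
  (DT.val_le (by simp only [Cn.rt_v, Cn.ng_v]; norm_num)).trans (ta_dt38 x)
theorem tb_dt63 (x : ℝ) : dt63.val (fun p x => kcg.v p x) (1 / 10) (cT (1 / 10)) x = (29585249 / 100000000 + (x - 309 / 320) * (3039383 / 2000000)) :=
  (DT.val_gt (by simp only [Cn.rt_v, Cn.ng_v]; norm_num)).trans (tb_dt39 x)
theorem ta_dt64 (x : ℝ) : dt64.val (fun p x => kcg.v p x) (-7 / 20) (cT (-7 / 20)) x = (5238351 / 50000000 + (x - 309 / 320) * (8490367 / 10000000)) :=
  (DT.val_le (by simp only [Cn.rt_v, Cn.ng_v]; norm_num)).trans (ta_dt62 x)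
theorem tb_dt64 (x : ℝ) : dt64.val (fun p x => kcg.v p x) (1 / 10) (cT (1 / 10)) x = (29585249 / 100000000 + (x - 309 / 320) * (3039383 / 2000000)) :=
  (DT.val_gt (by simp only [Cn.rt_v, Cn.ng_v]; norm_num)).trans (tb_dt63 x)
theorem ta_dt65 (x : ℝ) : dt65.val (fun p x => kcg.v p x) (-41 / 100) (cT (-41 / 100)) x = (944811 / 25000000 + (x - 309 / 320) * (7360887 / 10000000)) :=
  (DT.val_le (by simp only [Cn.rt_v, Cn.ng_v]; norm_num)).trans (ta_dt61 x)
theorem tb_dt65 (x : ℝ) : dt65.val (fun p x => kcg.v p x) (1 / 10) (cT (1 / 10)) x = (29585249 / 100000000 + (x - 309 / 320) * (3039383 / 2000000)) :=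
  (DT.val_gt (by simp only [Cn.rt_v, Cn.ng_v]; norm_num)).trans (tb_dt64 x)
theorem ta_dt66 (x : ℝ) : dt66.val (fun p x => kcg.v p x) (-1 / 2) (cT (-1 / 2)) x = (0) :=
  (DT.val_le (by simp only [Cn.rt_v, Cn.ng_v]; norm_num)).trans (ta_dt59 x)
theorem tb_dt66 (x : ℝ) : dt66.val (fun p x => kcg.v p x) (1 / 10) (cT (1 / 10)) x = (29585249 / 100000000 + (x - 309 / 320) * (3039383 / 2000000)) :=
  (DT.val_gt (by simp only [Cn.rt_v, Cn.ng_v]; norm_num)).trans (tb_dt65 x)
theorem ta_dt40 (x : ℝ) : dt40.val (fun p x => kcg.v p x) (1 / 10) (cT (1 / 10)) x = (29585249 / 100000000 + (x - 309 / 320) * (3039383 / 2000000)) := by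
  simp only [dt40, DT.val, sw40, sl40, sv40]
  ((try push_cast); ring1)
theorem tb_dt40 (x : ℝ) : dt40.val (fun p x => kcg.v p x) (1 / 5) (cT (1 / 5)) x = (26347571 / 100000000 + (x - 309 / 320) * (14786687 / 10000000)) := by
  simp only [dt40, DT.val, sw40, sl40, sv40]
  ((try push_cast); ring1)
theorem ta_dt41 (x : ℝ) : dt41.val (fun p x => kcg.v p x) (1 / 5) (cT (1 / 5)) x = (26347571 / 100000000 + (x - 309 / 320) * (14786687 / 10000000)) := by
  simp only [dt41, DT.val, sw41, sl41, sv41]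
  ((try push_cast); ring1)
theorem tb_dt41 (x : ℝ) : dt41.val (fun p x => kcg.v p x) (3 / 10) (cT (3 / 10)) x = (20321543 / 100000000 + (x - 309 / 320) * (6490229 / 5000000)) := by
  simp only [dt41, DT.val, sw41, sl41, sv41]
  ((try push_cast); ring1)
theorem ta_dt42 (x : ℝ) : dt42.val (fun p x => kcg.v p x) (3 / 10) (cT (3 / 10)) x = (20321543 / 100000000 + (x - 309 / 320) * (6490229 / 5000000)) := by
  simp only [dt42, DT.val, sw42, sl42, sv42]
  ((try push_cast); ring1)
theorem tb_dt42 (x : ℝ) : dt42.val (fun p x => kcg.v p x) (7 / 20) (cT (7 / 20)) x = (15576391 / 100000000 + (x - 309 / 320) * (10636657 / 10000000)) := by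
  simp only [dt42, DT.val, sw42, sl42, sv42]
  ((try push_cast); ring1)
theorem ta_dt67 (x : ℝ) : dt67.val (fun p x => kcg.v p x) (1 / 5) (cT (1 / 5)) x = (26347571 / 100000000 + (x - 309 / 320) * (14786687 / 10000000)) :=
  (DT.val_le (by simp only [Cn.rt_v, Cn.ng_v]; norm_num)).trans (ta_dt41 x)
theorem tb_dt67 (x : ℝ) : dt67.val (fun p x => kcg.v p x) (7 / 20) (cT (7 / 20)) x = (15576391 / 100000000 + (x - 309 / 320) * (10636657 / 10000000)) :=
  (DT.val_gt (by simp only [Cn.rt_v, Cn.ng_v]; norm_num)).trans (tb_dt42 x)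
theorem ta_dt68 (x : ℝ) : dt68.val (fun p x => kcg.v p x) (1 / 10) (cT (1 / 10)) x = (29585249 / 100000000 + (x - 309 / 320) * (3039383 / 2000000)) :=
  (DT.val_le (by simp only [Cn.rt_v, Cn.ng_v]; norm_num)).trans (ta_dt40 x)
theorem tb_dt68 (x : ℝ) : dt68.val (fun p x => kcg.v p x) (7 / 20) (cT (7 / 20)) x = (15576391 / 100000000 + (x - 309 / 320) * (10636657 / 10000000)) :=
  (DT.val_gt (by simp only [Cn.rt_v, Cn.ng_v]; norm_num)).trans (tb_dt67 x)
theorem ta_dt43 (x : ℝ) : dt43.val (fun p x => kcg.v p x) (7 / 20) (cT (7 / 20)) x = (15576391 / 100000000 + (x - 309 / 320) * (10636657 / 10000000)) := by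
  simp only [dt43, DT.val, sw43, sl43, sv43]
  ((try push_cast); ring1)
theorem tb_dt43 (x : ℝ) : dt43.val (fun p x => kcg.v p x) (3 / 8) (cT (3 / 8)) x = (6328531 / 50000000 + (x - 309 / 320) * (9521309 / 10000000)) := by
  simp only [dt43, DT.val, sw43, sl43, sv43]
  ((try push_cast); ring1)
theorem ta_dt44 (x : ℝ) : dt44.val (fun p x => kcg.v p x) (3 / 8) (cT (3 / 8)) x = (6328531 / 50000000 + (x - 309 / 320) * (9521309 / 10000000)) := by
  simp only [dt44, DT.val, sw44, sl44, sv44]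
  ((try push_cast); ring1)
theorem tb_dt44 (x : ℝ) : dt44.val (fun p x => kcg.v p x) (39 / 100) (cT (39 / 100)) x = (10880923 / 100000000 + (x - 309 / 320) * (8172987 / 10000000)) := by
  simp only [dt44, DT.val, sw44, sl44, sv44]
  ((try push_cast); ring1)
theorem ta_dt69 (x : ℝ) : dt69.val (fun p x => kcg.v p x) (7 / 20) (cT (7 / 20)) x = (15576391 / 100000000 + (x - 309 / 320) * (10636657 / 10000000)) :=
  (DT.val_le (by simp only [Cn.rt_v, Cn.ng_v]; norm_num)).trans (ta_dt43 x)
theorem tb_dt69 (x : ℝ) : dt69.val (fun p x => kcg.v p x) (39 / 100) (cT (39 / 100)) x = (10880923 / 100000000 + (x - 309 / 320) * (8172987 / 10000000)) :=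
  (DT.val_gt (by simp only [Cn.rt_v, Cn.ng_v]; norm_num)).trans (tb_dt44 x)
theorem ta_dt45 (x : ℝ) : dt45.val (fun p x => kcg.v p x) (39 / 100) (cT (39 / 100)) x = (10880923 / 100000000 + (x - 309 / 320) * (8172987 / 10000000)) := by
  simp only [dt45, DT.val, sw45, sl45, sv45]
  ((try push_cast); ring1)
theorem tb_dt45 (x : ℝ) : dt45.val (fun p x => kcg.v p x) (2 / 5) (cT (2 / 5)) x = (9668423 / 100000000 + (x - 309 / 320) * (3818607 / 5000000)) := by
  simp only [dt45, DT.val, sw45, sl45, sv45]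
  ((try push_cast); ring1)
theorem ta_dt46 (x : ℝ) : dt46.val (fun p x => kcg.v p x) (2 / 5) (cT (2 / 5)) x = (9668423 / 100000000 + (x - 309 / 320) * (3818607 / 5000000)) := by
  simp only [dt46, DT.val, sw46, sl46, sv46]
  ((try push_cast); ring1)
theorem tb_dt46 (x : ℝ) : dt46.val (fun p x => kcg.v p x) (41 / 100) (cT (41 / 100)) x = (1047029 / 12500000 + (x - 309 / 320) * (625193 / 1000000)) := by
  simp only [dt46, DT.val, sw46, sl46, sv46]
  ((try push_cast); ring1)
theorem ta_dt70 (x : ℝ) : dt70.val (fun p x => kcg.v p x) (39 / 100) (cT (39 / 100)) x = (10880923 / 100000000 + (x - 309 / 320) * (8172987 / 10000000)) :=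
  (DT.val_le (by simp only [Cn.rt_v, Cn.ng_v]; norm_num)).trans (ta_dt45 x)
theorem tb_dt70 (x : ℝ) : dt70.val (fun p x => kcg.v p x) (41 / 100) (cT (41 / 100)) x = (1047029 / 12500000 + (x - 309 / 320) * (625193 / 1000000)) :=
  (DT.val_gt (by simp only [Cn.rt_v, Cn.ng_v]; norm_num)).trans (tb_dt46 x)
theorem ta_dt71 (x : ℝ) : dt71.val (fun p x => kcg.v p x) (7 / 20) (cT (7 / 20)) x = (15576391 / 100000000 + (x - 309 / 320) * (10636657 / 10000000)) :=
  (DT.val_le (by simp only [Cn.rt_v, Cn.ng_v]; norm_num)).trans (ta_dt69 x)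
theorem tb_dt71 (x : ℝ) : dt71.val (fun p x => kcg.v p x) (41 / 100) (cT (41 / 100)) x = (1047029 / 12500000 + (x - 309 / 320) * (625193 / 1000000)) :=
  (DT.val_gt (by simp only [Cn.rt_v, Cn.ng_v]; norm_num)).trans (tb_dt70 x)
theorem ta_dt72 (x : ℝ) : dt72.val (fun p x => kcg.v p x) (1 / 10) (cT (1 / 10)) x = (29585249 / 100000000 + (x - 309 / 320) * (3039383 / 2000000)) :=
  (DT.val_le (by simp only [Cn.rt_v, Cn.ng_v]; norm_num)).trans (ta_dt68 x)
theorem tb_dt72 (x : ℝ) : dt72.val (fun p x => kcg.v p x) (41 / 100) (cT (41 / 100)) x = (1047029 / 12500000 + (x - 309 / 320) * (625193 / 1000000)) :=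
  (DT.val_gt (by simp only [Cn.rt_v, Cn.ng_v]; norm_num)).trans (tb_dt71 x)
theorem ta_dt47 (x : ℝ) : dt47.val (fun p x => kcg.v p x) (41 / 100) (cT (41 / 100)) x = (1047029 / 12500000 + (x - 309 / 320) * (625193 / 1000000)) := by
  simp only [dt47, DT.val, sw47, sl47, sv47]
  ((try push_cast); ring1)
theorem tb_dt47 (x : ℝ) : dt47.val (fun p x => kcg.v p x) (21 / 50) (cT (21 / 50)) x = (3543261 / 50000000 + (x - 309 / 320) * (119223 / 400000)) := by
  simp only [dt47, DT.val, sw47, sl47, sv47]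
  ((try push_cast); ring1)
theorem ta_dt48 (x : ℝ) : dt48.val (fun p x => kcg.v p x) (21 / 50) (cT (21 / 50)) x = (3543261 / 50000000 + (x - 309 / 320) * (119223 / 400000)) := by
  simp only [dt48, DT.val, sw48, sl48, sv48]
  ((try push_cast); ring1)
theorem tb_dt48 (x : ℝ) : dt48.val (fun p x => kcg.v p x) (43 / 100) (cT (43 / 100)) x = (3002999 / 50000000 + (x - 309 / 320) * (10587 / 100000)) := by
  simp only [dt48, DT.val, sw48, sl48, sv48]
  ((try push_cast); ring1)
theorem ta_dt49 (x : ℝ) : dt49.val (fun p x => kcg.v p x) (43 / 100) (cT (43 / 100)) x = (3002999 / 50000000 + (x - 309 / 320) * (10587 / 100000)) := by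
  simp only [dt49, DT.val, sw49, sw49_2, sl49, sl49_2, sv49, sv49_2]
  ((try push_cast); ring1)
theorem tb_dt49 (x : ℝ) : dt49.val (fun p x => kcg.v p x) (2507 / 5707) (6373 / 11414) x = (33979810669786053 / 651396980000000000 + (x - 309 / 320) * (2648355851577669 / 32569849000000000) + (x - 309 / 320) ^ 2 * (-16898781 / 17834375000)) := by
  simp only [dt49, DT.val, sw49, sw49_2, sl49, sl49_2, sv49, sv49_2]
  ((try push_cast); ring1)
theorem ta_dt73 (x : ℝ) : dt73.val (fun p x => kcg.v p x) (21 / 50) (cT (21 / 50)) x = (3543261 / 50000000 + (x - 309 / 320) * (119223 / 400000)) :=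
  (DT.val_le (by simp only [Cn.rt_v, Cn.ng_v]; norm_num)).trans (ta_dt48 x)
theorem tb_dt73 (x : ℝ) : dt73.val (fun p x => kcg.v p x) (2507 / 5707) (6373 / 11414) x = (33979810669786053 / 651396980000000000 + (x - 309 / 320) * (2648355851577669 / 32569849000000000) + (x - 309 / 320) ^ 2 * (-16898781 / 17834375000)) :=
  (DT.val_gt (by simp only [Cn.rt_v, Cn.ng_v]; norm_num)).trans (tb_dt49 x)
theorem ta_dt74 (x : ℝ) : dt74.val (fun p x => kcg.v p x) (41 / 100) (cT (41 / 100)) x = (1047029 / 12500000 + (x - 309 / 320) * (625193 / 1000000)) :=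
  (DT.val_le (by simp only [Cn.rt_v, Cn.ng_v]; norm_num)).trans (ta_dt47 x)
theorem tb_dt74 (x : ℝ) : dt74.val (fun p x => kcg.v p x) (2507 / 5707) (6373 / 11414) x = (33979810669786053 / 651396980000000000 + (x - 309 / 320) * (2648355851577669 / 32569849000000000) + (x - 309 / 320) ^ 2 * (-16898781 / 17834375000)) :=
  (DT.val_gt (by simp only [Cn.rt_v, Cn.ng_v]; norm_num)).trans (tb_dt73 x)
theorem ta_dt50 (x : ℝ) : dt50.val (fun p x => kcg.v p x) (2507 / 5707) (6373 / 11414) x = (33979810669786053 / 651396980000000000 + (x - 309 / 320) * (2648355851577669 / 32569849000000000) + (x - 309 / 320) ^ 2 * (-16898781 / 17834375000)) := by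
  simp only [dt50, DT.val, cloR, kgA]
  ring1
theorem tb_dt50 (x : ℝ) : dt50.val (fun p x => kcg.v p x) (587 / 1262) (337 / 631) x = (991194752112649 / 31852880000000000 + (x - 309 / 320) * (7344901320771 / 127411520000000) + (x - 309 / 320) ^ 2 * (3063090457 / 15775000000)) := by
  simp only [dt50, DT.val, cloR, kgB]
  ring1
theorem ta_dt51 (x : ℝ) : dt51.val (fun p x => kcg.v p x) (587 / 1262) (337 / 631) x = (991194752112649 / 31852880000000000 + (x - 309 / 320) * (7344901320771 / 127411520000000) + (x - 309 / 320) ^ 2 * (3063090457 / 15775000000)) := by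
  simp only [dt51, DT.val, sw51, sw51_2, sl51, sl51_2, sv51, sv51_2]
  ((try push_cast); ring1)
theorem tb_dt51 (x : ℝ) : dt51.val (fun p x => kcg.v p x) (119 / 250) (cT (119 / 250)) x = (135253 / 6250000 + (x - 309 / 320) * (3077 / 62500)) := by
  simp only [dt51, DT.val, sw51, sw51_2, sl51, sl51_2, sv51, sv51_2]
  ((try push_cast); ring1)
theorem ta_dt75 (x : ℝ) : dt75.val (fun p x => kcg.v p x) (2507 / 5707) (6373 / 11414) x = (33979810669786053 / 651396980000000000 + (x - 309 / 320) * (2648355851577669 / 32569849000000000) + (x - 309 / 320) ^ 2 * (-16898781 / 17834375000)) :=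
  (DT.val_le (by simp only [Cn.rt_v, Cn.ng_v]; norm_num)).trans (ta_dt50 x)
theorem tb_dt75 (x : ℝ) : dt75.val (fun p x => kcg.v p x) (119 / 250) (cT (119 / 250)) x = (135253 / 6250000 + (x - 309 / 320) * (3077 / 62500)) :=
  (DT.val_gt (by simp only [Cn.rt_v, Cn.ng_v]; norm_num)).trans (tb_dt51 x)
theorem ta_dt52 (x : ℝ) : dt52.val (fun p x => kcg.v p x) (119 / 250) (cT (119 / 250)) x = (135253 / 6250000 + (x - 309 / 320) * (3077 / 62500)) := by
  simp only [dt52, DT.val, sw52, sl52, sv52]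
  ((try push_cast); ring1)
theorem tb_dt52 (x : ℝ) : dt52.val (fun p x => kcg.v p x) (39 / 80) (cT (39 / 80)) x = (111407 / 10000000 + (x - 309 / 320) * (83099 / 2000000)) := by
  simp only [dt52, DT.val, sw52, sl52, sv52]
  ((try push_cast); ring1)
theorem ta_dt53 (x : ℝ) : dt53.val (fun p x => kcg.v p x) (39 / 80) (cT (39 / 80)) x = (111407 / 10000000 + (x - 309 / 320) * (83099 / 2000000)) := by
  simp only [dt53, DT.val, sw53, sl53, sv53]
  ((try push_cast); ring1)
theorem tb_dt53 (x : ℝ) : dt53.val (fun p x => kcg.v p x) (1 / 2) (cT (1 / 2)) x = (0) := by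
  simp only [dt53, DT.val, sw53, sl53, sv53]
  ((try push_cast); ring1)
theorem ta_dt76 (x : ℝ) : dt76.val (fun p x => kcg.v p x) (119 / 250) (cT (119 / 250)) x = (135253 / 6250000 + (x - 309 / 320) * (3077 / 62500)) :=
  (DT.val_le (by simp only [Cn.rt_v, Cn.ng_v]; norm_num)).trans (ta_dt52 x)
theorem tb_dt76 (x : ℝ) : dt76.val (fun p x => kcg.v p x) (1 / 2) (cT (1 / 2)) x = (0) :=
  (DT.val_gt (by simp only [Cn.rt_v, Cn.ng_v]; norm_num)).trans (tb_dt53 x)
theorem ta_dt77 (x : ℝ) : dt77.val (fun p x => kcg.v p x) (2507 / 5707) (6373 / 11414) x = (33979810669786053 / 651396980000000000 + (x - 309 / 320) * (2648355851577669 / 32569849000000000) + (x - 309 / 320) ^ 2 * (-16898781 / 17834375000)) :=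
  (DT.val_le (by simp only [Cn.rt_v, Cn.ng_v]; norm_num)).trans (ta_dt75 x)
theorem tb_dt77 (x : ℝ) : dt77.val (fun p x => kcg.v p x) (1 / 2) (cT (1 / 2)) x = (0) :=
  (DT.val_gt (by simp only [Cn.rt_v, Cn.ng_v]; norm_num)).trans (tb_dt76 x)
theorem ta_dt78 (x : ℝ) : dt78.val (fun p x => kcg.v p x) (41 / 100) (cT (41 / 100)) x = (1047029 / 12500000 + (x - 309 / 320) * (625193 / 1000000)) :=
  (DT.val_le (by simp only [Cn.rt_v, Cn.ng_v]; norm_num)).trans (ta_dt74 x)
theorem tb_dt78 (x : ℝ) : dt78.val (fun p x => kcg.v p x) (1 / 2) (cT (1 / 2)) x = (0) :=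
  (DT.val_gt (by simp only [Cn.rt_v, Cn.ng_v]; norm_num)).trans (tb_dt77 x)
theorem ta_dt79 (x : ℝ) : dt79.val (fun p x => kcg.v p x) (1 / 10) (cT (1 / 10)) x = (29585249 / 100000000 + (x - 309 / 320) * (3039383 / 2000000)) :=
  (DT.val_le (by simp only [Cn.rt_v, Cn.ng_v]; norm_num)).trans (ta_dt72 x)
theorem tb_dt79 (x : ℝ) : dt79.val (fun p x => kcg.v p x) (1 / 2) (cT (1 / 2)) x = (0) :=
  (DT.val_gt (by simp only [Cn.rt_v, Cn.ng_v]; norm_num)).trans (tb_dt78 x)
theorem ta_dt80 (x : ℝ) : dt80.val (fun p x => kcg.v p x) (-1 / 2) (cT (-1 / 2)) x = (0) :=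
  (DT.val_le (by simp only [Cn.rt_v, Cn.ng_v]; norm_num)).trans (ta_dt66 x)
theorem tb_dt80 (x : ℝ) : dt80.val (fun p x => kcg.v p x) (1 / 2) (cT (1 / 2)) x = (0) :=
  (DT.val_gt (by simp only [Cn.rt_v, Cn.ng_v]; norm_num)).trans (tb_dt79 x)
theorem to_dt26 (x : ℝ) : dt26.Ok (fun p x => kcg.v p x) x := trivial
theorem to_dt27 (x : ℝ) : dt27.Ok (fun p x => kcg.v p x) x := trivial
theorem to_dt28 (x : ℝ) : dt28.Ok (fun p x => kcg.v p x) x := trivial
theorem to_dt54 (x : ℝ) : dt54.Ok (fun p x => kcg.v p x) x :=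
  DT.ok_node (v := -119 / 250) (by simp only [Cn.rt_v, Cn.ng_v]; norm_num) (by rw [abs_le]; constructor <;> norm_num) rfl (tb_dt27 x) (ta_dt28 x) (by ring1) (to_dt27 x) (to_dt28 x)
theorem to_dt55 (x : ℝ) : dt55.Ok (fun p x => kcg.v p x) x :=
  DT.ok_node (v := -39 / 80) (by simp only [Cn.rt_v, Cn.ng_v]; norm_num) (by rw [abs_le]; constructor <;> norm_num) rfl (tb_dt26 x) (ta_dt54 x) (by ring1) (to_dt26 x) (to_dt54 x)
theorem to_dt29 (x : ℝ) : dt29.Ok (fun p x => kcg.v p x) x := trivial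
theorem to_dt30 (x : ℝ) : dt30.Ok (fun p x => kcg.v p x) x := trivial
theorem to_dt56 (x : ℝ) : dt56.Ok (fun p x => kcg.v p x) x :=
  DT.ok_node (v := -87857 / 200000) (by simp only [Cn.rt_v, Cn.ng_v]; norm_num) (by rw [abs_le]; constructor <;> norm_num) rfl (tb_dt29 x) (ta_dt30 x) (by ring1) (to_dt29 x) (to_dt30 x)
theorem to_dt31 (x : ℝ) : dt31.Ok (fun p x => kcg.v p x) x := trivial
theorem to_dt32 (x : ℝ) : dt32.Ok (fun p x => kcg.v p x) x := trivial
theorem to_dt57 (x : ℝ) : dt57.Ok (fun p x => kcg.v p x) x :=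
  DT.ok_node (v := -21 / 50) (by simp only [Cn.rt_v, Cn.ng_v]; norm_num) (by rw [abs_le]; constructor <;> norm_num) rfl (tb_dt31 x) (ta_dt32 x) (by ring1) (to_dt31 x) (to_dt32 x)
theorem to_dt58 (x : ℝ) : dt58.Ok (fun p x => kcg.v p x) x :=
  DT.ok_node (v := -43 / 100) (by simp only [Cn.rt_v, Cn.ng_v]; norm_num) (by rw [abs_le]; constructor <;> norm_num) rfl (tb_dt56 x) (ta_dt57 x) (by ring1) (to_dt56 x) (to_dt57 x)
theorem to_dt59 (x : ℝ) : dt59.Ok (fun p x => kcg.v p x) x :=
  DT.ok_node (v := -93027 / 200000) (by simp only [Cn.rt_v, Cn.ng_v]; norm_num) (by rw [abs_le]; constructor <;> norm_num) rfl (tb_dt55 x) (ta_dt58 x) (by ring1) (to_dt55 x) (to_dt58 x)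
theorem to_dt33 (x : ℝ) : dt33.Ok (fun p x => kcg.v p x) x := trivial
theorem to_dt34 (x : ℝ) : dt34.Ok (fun p x => kcg.v p x) x := trivial
theorem to_dt35 (x : ℝ) : dt35.Ok (fun p x => kcg.v p x) x := trivial
theorem to_dt60 (x : ℝ) : dt60.Ok (fun p x => kcg.v p x) x :=
  DT.ok_node (v := -3 / 8) (by simp only [Cn.rt_v, Cn.ng_v]; norm_num) (by rw [abs_le]; constructor <;> norm_num) rfl (tb_dt34 x) (ta_dt35 x) (by ring1) (to_dt34 x) (to_dt35 x)
theorem to_dt61 (x : ℝ) : dt61.Ok (fun p x => kcg.v p x) x :=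
  DT.ok_node (v := -2 / 5) (by simp only [Cn.rt_v, Cn.ng_v]; norm_num) (by rw [abs_le]; constructor <;> norm_num) rfl (tb_dt33 x) (ta_dt60 x) (by ring1) (to_dt33 x) (to_dt60 x)
theorem to_dt36 (x : ℝ) : dt36.Ok (fun p x => kcg.v p x) x := trivial
theorem to_dt37 (x : ℝ) : dt37.Ok (fun p x => kcg.v p x) x := trivial
theorem to_dt62 (x : ℝ) : dt62.Ok (fun p x => kcg.v p x) x :=
  DT.ok_node (v := -3 / 10) (by simp only [Cn.rt_v, Cn.ng_v]; norm_num) (by rw [abs_le]; constructor <;> norm_num) rfl (tb_dt36 x) (ta_dt37 x) (by ring1) (to_dt36 x) (to_dt37 x)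
theorem to_dt38 (x : ℝ) : dt38.Ok (fun p x => kcg.v p x) x := trivial
theorem to_dt39 (x : ℝ) : dt39.Ok (fun p x => kcg.v p x) x := trivial
theorem to_dt63 (x : ℝ) : dt63.Ok (fun p x => kcg.v p x) x :=
  DT.ok_node (v := -1 / 10) (by simp only [Cn.rt_v, Cn.ng_v]; norm_num) (by rw [abs_le]; constructor <;> norm_num) rfl (tb_dt38 x) (ta_dt39 x) (by ring1) (to_dt38 x) (to_dt39 x)
theorem to_dt64 (x : ℝ) : dt64.Ok (fun p x => kcg.v p x) x :=
  DT.ok_node (v := -1 / 5) (by simp only [Cn.rt_v, Cn.ng_v]; norm_num) (by rw [abs_le]; constructor <;> norm_num) rfl (tb_dt62 x) (ta_dt63 x) (by ring1) (to_dt62 x) (to_dt63 x)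
theorem to_dt65 (x : ℝ) : dt65.Ok (fun p x => kcg.v p x) x :=
  DT.ok_node (v := -7 / 20) (by simp only [Cn.rt_v, Cn.ng_v]; norm_num) (by rw [abs_le]; constructor <;> norm_num) rfl (tb_dt61 x) (ta_dt64 x) (by ring1) (to_dt61 x) (to_dt64 x)
theorem to_dt66 (x : ℝ) : dt66.Ok (fun p x => kcg.v p x) x :=
  DT.ok_node (v := -41 / 100) (by simp only [Cn.rt_v, Cn.ng_v]; norm_num) (by rw [abs_le]; constructor <;> norm_num) rfl (tb_dt59 x) (ta_dt65 x) (by ring1) (to_dt59 x) (to_dt65 x)
theorem to_dt40 (x : ℝ) : dt40.Ok (fun p x => kcg.v p x) x := trivial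
theorem to_dt41 (x : ℝ) : dt41.Ok (fun p x => kcg.v p x) x := trivial
theorem to_dt42 (x : ℝ) : dt42.Ok (fun p x => kcg.v p x) x := trivial
theorem to_dt67 (x : ℝ) : dt67.Ok (fun p x => kcg.v p x) x :=
  DT.ok_node (v := 3 / 10) (by simp only [Cn.rt_v, Cn.ng_v]; norm_num) (by rw [abs_le]; constructor <;> norm_num) rfl (tb_dt41 x) (ta_dt42 x) (by ring1) (to_dt41 x) (to_dt42 x)
theorem to_dt68 (x : ℝ) : dt68.Ok (fun p x => kcg.v p x) x :=
  DT.ok_node (v := 1 / 5) (by simp only [Cn.rt_v, Cn.ng_v]; norm_num) (by rw [abs_le]; constructor <;> norm_num) rfl (tb_dt40 x) (ta_dt67 x) (by ring1) (to_dt40 x) (to_dt67 x)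
theorem to_dt43 (x : ℝ) : dt43.Ok (fun p x => kcg.v p x) x := trivial
theorem to_dt44 (x : ℝ) : dt44.Ok (fun p x => kcg.v p x) x := trivial
theorem to_dt69 (x : ℝ) : dt69.Ok (fun p x => kcg.v p x) x :=
  DT.ok_node (v := 3 / 8) (by simp only [Cn.rt_v, Cn.ng_v]; norm_num) (by rw [abs_le]; constructor <;> norm_num) rfl (tb_dt43 x) (ta_dt44 x) (by ring1) (to_dt43 x) (to_dt44 x)
theorem to_dt45 (x : ℝ) : dt45.Ok (fun p x => kcg.v p x) x := trivial
theorem to_dt46 (x : ℝ) : dt46.Ok (fun p x => kcg.v p x) x := trivial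
theorem to_dt70 (x : ℝ) : dt70.Ok (fun p x => kcg.v p x) x :=
  DT.ok_node (v := 2 / 5) (by simp only [Cn.rt_v, Cn.ng_v]; norm_num) (by rw [abs_le]; constructor <;> norm_num) rfl (tb_dt45 x) (ta_dt46 x) (by ring1) (to_dt45 x) (to_dt46 x)
theorem to_dt71 (x : ℝ) : dt71.Ok (fun p x => kcg.v p x) x :=
  DT.ok_node (v := 39 / 100) (by simp only [Cn.rt_v, Cn.ng_v]; norm_num) (by rw [abs_le]; constructor <;> norm_num) rfl (tb_dt69 x) (ta_dt70 x) (by ring1) (to_dt69 x) (to_dt70 x)
theorem to_dt72 (x : ℝ) : dt72.Ok (fun p x => kcg.v p x) x :=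
  DT.ok_node (v := 7 / 20) (by simp only [Cn.rt_v, Cn.ng_v]; norm_num) (by rw [abs_le]; constructor <;> norm_num) rfl (tb_dt68 x) (ta_dt71 x) (by ring1) (to_dt68 x) (to_dt71 x)
theorem to_dt47 (x : ℝ) : dt47.Ok (fun p x => kcg.v p x) x := trivial
theorem to_dt48 (x : ℝ) : dt48.Ok (fun p x => kcg.v p x) x := trivial
theorem to_dt49 (x : ℝ) : dt49.Ok (fun p x => kcg.v p x) x := trivial
theorem to_dt73 (x : ℝ) : dt73.Ok (fun p x => kcg.v p x) x :=
  DT.ok_node (v := 43 / 100) (by simp only [Cn.rt_v, Cn.ng_v]; norm_num) (by rw [abs_le]; constructor <;> norm_num) rfl (tb_dt48 x) (ta_dt49 x) (by ring1) (to_dt48 x) (to_dt49 x)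
theorem to_dt74 (x : ℝ) : dt74.Ok (fun p x => kcg.v p x) x :=
  DT.ok_node (v := 21 / 50) (by simp only [Cn.rt_v, Cn.ng_v]; norm_num) (by rw [abs_le]; constructor <;> norm_num) rfl (tb_dt47 x) (ta_dt73 x) (by ring1) (to_dt47 x) (to_dt73 x)
theorem to_dt50 (x : ℝ) : dt50.Ok (fun p x => kcg.v p x) x := trivial
theorem to_dt51 (x : ℝ) : dt51.Ok (fun p x => kcg.v p x) x := trivial
theorem to_dt75 (x : ℝ) : dt75.Ok (fun p x => kcg.v p x) x :=
  DT.ok_node (v := 587 / 1262) (by simp only [Cn.rt_v, Cn.ng_v]; norm_num) (by rw [abs_le]; constructor <;> norm_num) ctB (tb_dt50 x) (ta_dt51 x) (by ring1) (to_dt50 x) (to_dt51 x)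
theorem to_dt52 (x : ℝ) : dt52.Ok (fun p x => kcg.v p x) x := trivial
theorem to_dt53 (x : ℝ) : dt53.Ok (fun p x => kcg.v p x) x := trivial
theorem to_dt76 (x : ℝ) : dt76.Ok (fun p x => kcg.v p x) x :=
  DT.ok_node (v := 39 / 80) (by simp only [Cn.rt_v, Cn.ng_v]; norm_num) (by rw [abs_le]; constructor <;> norm_num) rfl (tb_dt52 x) (ta_dt53 x) (by ring1) (to_dt52 x) (to_dt53 x)
theorem to_dt77 (x : ℝ) : dt77.Ok (fun p x => kcg.v p x) x :=
  DT.ok_node (v := 119 / 250) (by simp only [Cn.rt_v, Cn.ng_v]; norm_num) (by rw [abs_le]; constructor <;> norm_num) rfl (tb_dt75 x) (ta_dt76 x) (by ring1) (to_dt75 x) (to_dt76 x)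
theorem to_dt78 (x : ℝ) : dt78.Ok (fun p x => kcg.v p x) x :=
  DT.ok_node (v := 2507 / 5707) (by simp only [Cn.rt_v, Cn.ng_v]; norm_num) (by rw [abs_le]; constructor <;> norm_num) ctA (tb_dt74 x) (ta_dt77 x) (by ring1) (to_dt74 x) (to_dt77 x)
theorem to_dt79 (x : ℝ) : dt79.Ok (fun p x => kcg.v p x) x :=
  DT.ok_node (v := 41 / 100) (by simp only [Cn.rt_v, Cn.ng_v]; norm_num) (by rw [abs_le]; constructor <;> norm_num) rfl (tb_dt72 x) (ta_dt78 x) (by ring1) (to_dt72 x) (to_dt78 x)
theorem to_dt80 (x : ℝ) : dt80.Ok (fun p x => kcg.v p x) x :=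
  DT.ok_node (v := 1 / 10) (by simp only [Cn.rt_v, Cn.ng_v]; norm_num) (by rw [abs_le]; constructor <;> norm_num) rfl (tb_dt66 x) (ta_dt79 x) (by ring1) (to_dt66 x) (to_dt79 x)
theorem dok (x : ℝ) : dd.Ok x := ⟨ko_dt25 x, fun p h => kfe h, to_dt80 x⟩
theorem K0_ (x : ℝ) : ∀ q y, OnC (0 : Fin 6) q y → TightK (tyO q) q (fun p => dd.kf.v p x) (c1n y) y (tK 0 q y x) := by
  refine K0_of (R := fun q y => tK 0 q y x) (kc := fun p => kcg.v p x) ?_ ?_ ?_
  · intro y h
    show tK 0 0 y x = _
    ·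
      rw [← (atB00 h).K]
      show kf0q0.v y x = _
      simp only [kf0q0, kf0q0_9, kf0q0_12, c1g_v]
      ((try push_cast); (try simp only [mul_inv]); (try ring_nf))
  · intro y h
    show tK 0 1 y x = _
    ·
      rw [← (atB01 h).K]
      show kf0q1.v y x = _
      simp only [kf0q1, kf0q1_10, c1g_v]
      ((try push_cast); (try simp only [mul_inv]); (try ring_nf))
  · intro y h
    show tK 0 2 y x = _
    ·
      have ey := yag_v h.1.nonneg (h.2 rfl)
      rw [← (atB02 h).K]
      show kfc02.v (c1n y) x = _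
      simp only [kfc02, c1g_v, ey]
      ((try push_cast); (try simp only [mul_inv]); (try ring_nf))
theorem L0_ (x : ℝ) : ∀ q y, OnC (0 : Fin 6) q y → TightL (tyO q) (fun p c => dd.TX.val dd.kf.v p c x) (c1n y) y (tL 0 q y x) := by
  refine L0_of (R := fun q y => tL 0 q y x) (tx := fun p c => txg.v p c x) txe ?_ ?_ ?_
  · intro y h
    show tL 0 0 y x = _
    ·
      rw [← (atB00 h).L]
      show l0q0.v y x = _
      simp only [l0q0, c1g_v]
      ((try push_cast); (try simp only [mul_inv]); (try ring_nf))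
  · intro y h
    show tL 0 1 y x = _
    ·
      rw [← (atB01 h).L]
      show l0q1.v y x = _
      simp only [l0q1, c1g_v]
      ((try push_cast); (try simp only [mul_inv]); (try ring_nf))
  · intro y h
    show tL 0 2 y x = _
    ·
      have ey := yag_v h.1.nonneg (h.2 rfl)
      rw [← (atB02 h).L]
      show lc02.v (c1n y) x = _
      simp only [lc02, lc02_7, lc02_8, c1g_v, ey]
      ((try push_cast); (try simp only [mul_inv]); (try ring_nf))
theorem Kn_ (x : ℝ) : ∀ q y, InQ q y → TightK (tyN q) q (fun p => dd.kf.v p x) (c3n y) y (tK (Fin.last 5) q y x) := by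
  refine Kn_of (R := fun q y => tK 5 q y x) (kc := fun p => kcg.v p x) ?_ ?_ ?_ ?_
  · intro y h
    show tK 5 0 y x = _
    ·
      rw [← (atB50 (onc h (by decide))).K]
      show kf5q0.v y x = _
      simp only [kf5q0, c3g_v]
      ((try push_cast); (try simp only [mul_inv]); (try ring_nf))
  · intro y h
    show tK 5 1 y x = _
    ·
      rw [← (atB51 (onc h (by decide))).K]
      show kf5q1.v y x = _
      simp only [kf5q1, c3g_v]
      ((try push_cast); (try simp only [mul_inv]); (try ring_nf))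
  · intro y h
    show tK 5 2 y x = _
    ·
      rw [← (atB52 (onc h (by decide))).K]
      show kf5q2.v y x = _
      simp only [kf5q2, c3g_v]
      ((try push_cast); (try simp only [mul_inv]); (try ring_nf))
  · intro y h
    show tK 5 3 y x = _
    ·
      have ey := ycg_v h.nonneg h.le_two
      rw [← (atB53 (onc h (by decide))).K]
      show kfc53.v (c3n y) x = _
      simp only [kfc53, c3g_v, ey]
      ((try push_cast); (try simp only [mul_inv]); (try ring_nf))
theorem Ln_ (x : ℝ) : ∀ q y, InQ q y → TightL (tyN q) (fun p c => dd.TX.val dd.kf.v p c x) (c3n y) y (tL (Fin.last 5) q y x) := by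
  refine Ln_of (R := fun q y => tL 5 q y x) (tx := fun p c => txg.v p c x) txe ?_ ?_ ?_ ?_
  · intro y h
    show tL 5 0 y x = _
    ·
      rw [← (atB50 (onc h (by decide))).L]
      show l5q0.v y x = _
      simp only [l5q0, l5q0_6, l5q0_7, l5q0_8, c3g_v]
      ((try push_cast); (try simp only [mul_inv]); (try ring_nf))
  · intro y h
    show tL 5 1 y x = _
    ·
      rw [← (atB51 (onc h (by decide))).L]
      show l5q1.v y x = _
      simp only [l5q1, l5q1_7, l5q1_8, l5q1_9, c3g_v]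
      ((try push_cast); (try simp only [mul_inv]); (try ring_nf))
  · intro y h
    show tL 5 2 y x = _
    ·
      rw [← (atB52 (onc h (by decide))).L]
      show l5q2.v y x = _
      simp only [l5q2, l5q2_7, l5q2_8, l5q2_9, l5q2_12, l5q2_14, c3g_v]
      ((try push_cast); (try simp only [mul_inv]); (try ring_nf))
  · intro y h
    show tL 5 3 y x = _
    ·
      have ey := ycg_v h.nonneg h.le_two
      rw [← (atB53 (onc h (by decide))).L]
      show lc53.v (c3n y) x = _
      simp only [lc53, lc53_7, lc53_8, lc53_9, lc53_12, lc53_14, c3g_v, ey]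
      ((try push_cast); (try simp only [mul_inv]); (try ring_nf))
theorem f0_ : ∀ q y, InQ q y → (ff q).f.v y = crv PP 1 q y
  | 0, y, _ => ecv1q0.symm
  | 1, y, _ => ecv1q1.symm
  | 2, y, _ => ecv1q2.symm
  | 3, y, h => (ecv1q3 h.1).symm
theorem fn_ : ∀ q y, InQ q y → (fl q).f.v y = crv PP 4 q y
  | 0, y, _ => ecv4q0.symm
  | 1, y, _ => ecv4q1.symm
  | 2, y, _ => ecv4q2.symm
  | 3, y, h => (ecv4q3 h.1).symm
theorem yK00 {y x : ℝ} (h : OnC (0 : Fin 6) 0 y) : tK 0 0 y x = kf0q0.v y x := (atB00 h).K.symm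
theorem yK10 {y x : ℝ} (h : InQ 0 y) : tK 1 0 y x = kf1q0.v y x := (atB10 (onc h (by decide))).K.symm
theorem yK01 {y x : ℝ} (h : OnC (0 : Fin 6) 1 y) : tK 0 1 y x = kf0q1.v y x := (atB01 h).K.symm
theorem yK11 {y x : ℝ} (h : InQ 1 y) : tK 1 1 y x = kf1q1.v y x := (atB11 (onc h (by decide))).K.symm
theorem yK02 {y x : ℝ} (h : OnC (0 : Fin 6) 2 y) : tK 0 2 y x = kf0q2.v y x := by
  rw [← (atB02 h).K]
  show kfc02.v (c1n y) x = _
  have ey := yag_v h.1.nonneg (h.2 rfl)
  simp only [kfc02, kf0q2, ey, c1g_v, c3g_v, swg_v]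
  ((try push_cast); (try ring_nf))
theorem yK12 {y x : ℝ} (h : InQ 2 y) : tK 1 2 y x = kf1q2.v y x := (atB12 (onc h (by decide))).K.symm
theorem yK50 {y x : ℝ} (h : InQ 0 y) : tK 5 0 y x = kf5q0.v y x := (atB50 (onc h (by decide))).K.symm
theorem yK40 {y x : ℝ} (h : InQ 0 y) : tK 4 0 y x = kf4q0.v y x := (atB40 (onc h (by decide))).K.symm
theorem yK51 {y x : ℝ} (h : InQ 1 y) : tK 5 1 y x = kf5q1.v y x := (atB51 (onc h (by decide))).K.symm
theorem yK41 {y x : ℝ} (h : InQ 1 y) : tK 4 1 y x = kf4q1.v y x := (atB41 (onc h (by decide))).K.symm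
theorem yK52 {y x : ℝ} (h : InQ 2 y) : tK 5 2 y x = kf5q2.v y x := (atB52 (onc h (by decide))).K.symm
theorem yK42 {y x : ℝ} (h : InQ 2 y) : tK 4 2 y x = kf4q2.v y x := (atB42 (onc h (by decide))).K.symm
theorem yK53 {y x : ℝ} (h : InQ 3 y) : tK 5 3 y x = kf5q3.v y x := by
  rw [← (atB53 (onc h (by decide))).K]
  show kfc53.v (c3n y) x = _
  have ey := ycg_v h.nonneg h.le_two
  simp only [kfc53, kf5q3, ey, c1g_v, c3g_v, swg_v]
  ((try push_cast); (try ring_nf))
theorem yK43 {y x : ℝ} (h : InQ 3 y) : tK 4 3 y x = kf4q3.v y x := by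
  rw [← (atB43 (onc h (by decide))).K]
  show kfc43.v (c3n y) x = _
  have ey := ycg_v h.nonneg h.le_two
  simp only [kfc43, kfc43_11, kfc43_41, kfc43_59, kf4q3, kf4q3_4, kf4q3_35, kf4q3_53, cv4r, ey, c1g_v, c3g_v, swg_v]
  ((try push_cast); (try ring_nf))
theorem yL00 {y x : ℝ} (h : OnC (0 : Fin 6) 0 y) : tL 0 0 y x = l0q0.v y x := (atB00 h).L.symm
theorem yL10 {y x : ℝ} (h : InQ 0 y) : tL 1 0 y x = l1q0.v y x := (atB10 (onc h (by decide))).L.symm
theorem yL01 {y x : ℝ} (h : OnC (0 : Fin 6) 1 y) : tL 0 1 y x = l0q1.v y x := (atB01 h).L.symm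
theorem yL11 {y x : ℝ} (h : InQ 1 y) : tL 1 1 y x = l1q1.v y x := (atB11 (onc h (by decide))).L.symm
theorem yL02 {y x : ℝ} (h : OnC (0 : Fin 6) 2 y) : tL 0 2 y x = l0q2.v y x := by
  rw [← (atB02 h).L]
  show lc02.v (c1n y) x = _
  have ey := yag_v h.1.nonneg (h.2 rfl)
  simp only [lc02, lc02_7, lc02_8, l0q2, l0q2_7, l0q2_8, ey, c1g_v, c3g_v, swg_v]
  ((try push_cast); (try ring_nf))
theorem yL12 {y x : ℝ} (h : InQ 2 y) : tL 1 2 y x = l1q2.v y x := (atB12 (onc h (by decide))).L.symm
theorem yL50 {y x : ℝ} (h : InQ 0 y) : tL 5 0 y x = l5q0.v y x := (atB50 (onc h (by decide))).L.symm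
theorem yL40 {y x : ℝ} (h : InQ 0 y) : tL 4 0 y x = l4q0.v y x := (atB40 (onc h (by decide))).L.symm
theorem yL51 {y x : ℝ} (h : InQ 1 y) : tL 5 1 y x = l5q1.v y x := (atB51 (onc h (by decide))).L.symm
theorem yL41 {y x : ℝ} (h : InQ 1 y) : tL 4 1 y x = l4q1.v y x := (atB41 (onc h (by decide))).L.symm
theorem yL52 {y x : ℝ} (h : InQ 2 y) : tL 5 2 y x = l5q2.v y x := (atB52 (onc h (by decide))).L.symm
theorem yL42 {y x : ℝ} (h : InQ 2 y) : tL 4 2 y x = l4q2.v y x := (atB42 (onc h (by decide))).L.symm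
theorem yL53 {y x : ℝ} (h : InQ 3 y) : tL 5 3 y x = l5q3.v y x := by
  rw [← (atB53 (onc h (by decide))).L]
  show lc53.v (c3n y) x = _
  have ey := ycg_v h.nonneg h.le_two
  simp only [lc53, lc53_7, lc53_8, lc53_9, lc53_12, lc53_14, l5q3, l5q3_7, l5q3_8, l5q3_9, l5q3_12, l5q3_14, ey, c1g_v, c3g_v, swg_v]
  ((try push_cast); (try ring_nf))
theorem yL43 {y x : ℝ} (h : InQ 3 y) : tL 4 3 y x = l4q3.v y x := by
  rw [← (atB43 (onc h (by decide))).L]
  show lc43.v (c3n y) x = _
  have ey := ycg_v h.nonneg h.le_two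
  simp only [lc43, lc43_11, l4q3, l4q3_4, cv4r, ey, c1g_v, c3g_v, swg_v]
  ((try push_cast); (try ring_nf))
theorem sK0_ (x : ℝ) : ∀ q y, OnC (0 : Fin 6) q y → c1n y < crv PP 1 q y →
    (ff q).SK.v y x * (crv PP 1 q y - c1n y) = tK 1 q y x - tK 0 q y x := by
  intro q y h hlt
  rcases onC_q h with rfl | rfl | rfl
  · rw [yK10 h.1, yK00 h]
    rw [ecv1q0, ← c1g_v] at hlt ⊢
    have hd : 0 < cv1m.v y - c1g.v y := sub_pos.2 hlt
    have hi := inv_mul_cancel₀ hd.ne'
    show skf0.v y x * _ = _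
    simp only [skf0, kf1q0]
    (try push_cast)
    linear_combination (c1g.v y * bf1q0.v y x - kf0q0.v y x) * hi
  · rw [yK11 h.1, yK01 h]
    rw [ecv1q1, ← c1g_v] at hlt ⊢
    have hd : 0 < cv1m.v y - c1g.v y := sub_pos.2 hlt
    have hi := inv_mul_cancel₀ hd.ne'
    show skf1.v y x * _ = _
    simp only [skf1, kf1q1]
    (try push_cast)
    linear_combination (c1g.v y * bf1q1.v y x - kf0q1.v y x) * hi
  · rw [yK12 h.1, yK02 h]
    rw [ecv1q2, ← c1g_v] at hlt ⊢
    have hd : 0 < cv1p.v y - c1g.v y := sub_pos.2 hlt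
    have hi := inv_mul_cancel₀ hd.ne'
    have hb : |c1g.v y| ≤ 1 / 2 := by rw [c1g_v]; exact bnd_O h
    have eo := odd (x := x) hb
    show skf2.v y x * _ = _
    simp only [skf2, kf1q2, kf0q2, eo]
    (try push_cast)
    linear_combination (c1g.v y * (bf1q2.v y x - 1) + (y - 1) * kcg.v (c1g.v y) x) * hi
theorem sX0_ (x : ℝ) : ∀ q y, OnC (0 : Fin 6) q y → c1n y < crv PP 1 q y →
    (ff q).SX.v y x * (crv PP 1 q y - c1n y) = tL 1 q y x - tL 0 q y x := by
  intro q y h hlt
  rcases onC_q h with rfl | rfl | rfl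
  · rw [yL10 h.1, yL00 h]
    rw [ecv1q0, ← c1g_v] at hlt ⊢
    have hd : 0 < cv1m.v y - c1g.v y := sub_pos.2 hlt
    have hi := inv_mul_cancel₀ hd.ne'
    show sxf0.v y x * _ = _
    simp only [sxf0]
    (try push_cast)
    linear_combination (l1q0.v y x - l0q0.v y x) * hi
  · rw [yL11 h.1, yL01 h]
    rw [ecv1q1, ← c1g_v] at hlt ⊢
    have hd : 0 < cv1m.v y - c1g.v y := sub_pos.2 hlt
    have hi := inv_mul_cancel₀ hd.ne'
    show sxf1.v y x * _ = _
    simp only [sxf1]
    (try push_cast)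
    linear_combination (l1q1.v y x - l0q1.v y x) * hi
  · rw [yL12 h.1, yL02 h]
    rw [ecv1q2, ← c1g_v] at hlt ⊢
    have hd : 0 < cv1p.v y - c1g.v y := sub_pos.2 hlt
    have hi := inv_mul_cancel₀ hd.ne'
    show sxf2.v y x * _ = _
    simp only [sxf2]
    (try push_cast)
    linear_combination (l1q2.v y x - l0q2.v y x) * hi
theorem sKn_ (x : ℝ) : ∀ q y, InQ q y → crv PP 4 q y < c3n y →
    (fl q).SK.v y x * (c3n y - crv PP 4 q y) = tK 5 q y x - tK 4 q y x := by
  intro q y h hlt
  match q, h with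
  | 0, h =>
    rw [yK50 h, yK40 h]
    rw [ecv4q0, ← c3g_v] at hlt ⊢
    have hd : 0 < c3g.v y - cv4m.v y := sub_pos.2 hlt
    have hi := inv_mul_cancel₀ hd.ne'
    show skl0.v y x * _ = _
    simp only [skl0, kf4q0]
    (try push_cast)
    linear_combination (kf5q0.v y x - c3g.v y * bf4q0.v y x) * hi
  | 1, h =>
    rw [yK51 h, yK41 h]
    rw [ecv4q1, ← c3g_v] at hlt ⊢
    have hd : 0 < c3g.v y - cv4m.v y := sub_pos.2 hlt
    have hi := inv_mul_cancel₀ hd.ne'
    show skl1.v y x * _ = _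
    simp only [skl1, kf4q1]
    (try push_cast)
    linear_combination (kf5q1.v y x - c3g.v y * bf4q1.v y x) * hi
  | 2, h =>
    rw [yK52 h, yK42 h]
    rw [ecv4q2, ← c3g_v] at hlt ⊢
    have hd : 0 < c3g.v y - cv4p.v y := sub_pos.2 hlt
    have hi := inv_mul_cancel₀ hd.ne'
    show skl2.v y x * _ = _
    simp only [skl2, kf4q2]
    (try push_cast)
    linear_combination (kf5q2.v y x - c3g.v y * bf4q2.v y x) * hi
  | 3, h =>
    rw [yK53 h, yK43 h]
    rw [ecv4q3 h.1, ← c3g_v] at hlt ⊢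
    have hd : 0 < c3g.v y - cv4r.v y := sub_pos.2 hlt
    have hi := inv_mul_cancel₀ hd.ne'
    have hB : kf4q3.v y x = cv4r.v y * bf4q3.v y x := by
      simp only [kf4q3, kf4q3_4, kf4q3_35, kf4q3_53, bf4q3, bf4q3_3, bf4q3_34, bf4q3_52]
    show skl3.v y x * _ = _
    simp only [skl3, hB]
    (try push_cast)
    linear_combination (kf5q3.v y x - c3g.v y * bf4q3.v y x) * hi
theorem sXn_ (x : ℝ) : ∀ q y, InQ q y → crv PP 4 q y < c3n y →
    (fl q).SX.v y x * (c3n y - crv PP 4 q y) = tL 5 q y x - tL 4 q y x := by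
  intro q y h hlt
  match q, h with
  | 0, h =>
    rw [yL50 h, yL40 h]
    rw [ecv4q0, ← c3g_v] at hlt ⊢
    have hd : 0 < c3g.v y - cv4m.v y := sub_pos.2 hlt
    have hi := inv_mul_cancel₀ hd.ne'
    show sxl0.v y x * _ = _
    simp only [sxl0]
    (try push_cast)
    linear_combination (l5q0.v y x - l4q0.v y x) * hi
  | 1, h =>
    rw [yL51 h, yL41 h]
    rw [ecv4q1, ← c3g_v] at hlt ⊢
    have hd : 0 < c3g.v y - cv4m.v y := sub_pos.2 hlt
    have hi := inv_mul_cancel₀ hd.ne'
    show sxl1.v y x * _ = _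
    simp only [sxl1]
    (try push_cast)
    linear_combination (l5q1.v y x - l4q1.v y x) * hi
  | 2, h =>
    rw [yL52 h, yL42 h]
    rw [ecv4q2, ← c3g_v] at hlt ⊢
    have hd : 0 < c3g.v y - cv4p.v y := sub_pos.2 hlt
    have hi := inv_mul_cancel₀ hd.ne'
    show sxl2.v y x * _ = _
    simp only [sxl2]
    (try push_cast)
    linear_combination (l5q2.v y x - l4q2.v y x) * hi
  | 3, h =>
    rw [yL53 h, yL43 h]
    rw [ecv4q3 h.1, ← c3g_v] at hlt ⊢
    have hd : 0 < c3g.v y - cv4r.v y := sub_pos.2 hlt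
    have hi := inv_mul_cancel₀ hd.ne'
    show sxl3.v y x * _ = _
    simp only [sxl3]
    (try push_cast)
    linear_combination (l5q3.v y x - l4q3.v y x) * hi
theorem kn_ (x : ℝ) : ∀ X, |X| ≤ vv.k1.v → kcg.v (-X) x = -(k0c.v x * X) := by
  intro X h
  have h : |X| ≤ 1 / 10 := by
    refine h.trans_eq ?_
    show (Cn.rt 1 10).v = _
    rw [Cn.rt_v]
    norm_num
  obtain ⟨h1, h2⟩ := abs_le.1 h
  rw [kcl6 (p := -X) (by linarith) (by linarith)]
  simp only [k0c]
  push_cast
  ring
theorem tvm {p c x : ℝ} (h1 : -1 / 10 ≤ p) (h2 : p ≤ 1 / 10) : dt80.val (fun p x => kcg.v p x) p c x = (12037071 / 40000000 + (x - 309 / 320) * (15083693 / 10000000)) + (1474343 / 20000000 + (x - 309 / 320) * (56611 / 500000)) * p + (-6223 / 5000) * p ^ 2 := by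
  rcases eq_or_lt_of_le h1 with h | h1
  · subst h
    refine (DT.val_le (by simp only [Cn.rt_v, Cn.ng_v]; push_cast; linarith)).trans ?_
    refine (DT.val_gt (by simp only [Cn.rt_v, Cn.ng_v]; push_cast; linarith)).trans ?_
    refine (DT.val_gt (by simp only [Cn.rt_v, Cn.ng_v]; push_cast; linarith)).trans ?_
    refine (DT.val_gt (by simp only [Cn.rt_v, Cn.ng_v]; push_cast; linarith)).trans ?_
    refine (DT.val_le (by simp only [Cn.rt_v, Cn.ng_v]; push_cast; linarith)).trans ?_
    simp only [dt38, DT.val, sw38, sl38, sv38]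
    ((try push_cast); ring1)
  ·
    refine (DT.val_le (by simp only [Cn.rt_v, Cn.ng_v]; push_cast; linarith)).trans ?_
    refine (DT.val_gt (by simp only [Cn.rt_v, Cn.ng_v]; push_cast; linarith)).trans ?_
    refine (DT.val_gt (by simp only [Cn.rt_v, Cn.ng_v]; push_cast; linarith)).trans ?_
    refine (DT.val_gt (by simp only [Cn.rt_v, Cn.ng_v]; push_cast; linarith)).trans ?_
    refine (DT.val_gt (by simp only [Cn.rt_v, Cn.ng_v]; push_cast; linarith)).trans ?_
    simp only [dt39, DT.val, sw39, sl39, sv39]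
    ((try push_cast); ring1)
theorem tn_ (x : ℝ) : ∀ X, |X| ≤ vv.k1.v → dd.tF x (-X) - dd.tF x X = m0c.v x * X := by
  intro X h
  have h : |X| ≤ 1 / 10 := by
    refine h.trans_eq ?_
    show (Cn.rt 1 10).v = _
    rw [Cn.rt_v]
    norm_num
  obtain ⟨h1, h2⟩ := abs_le.1 h
  show dt80.val (fun p x => kcg.v p x) (-X) (cT (-X)) x - dt80.val (fun p x => kcg.v p x) X (cT X) x = _
  rw [tvm (by linarith) (by linarith), tvm (by linarith) (by linarith)]
  simp only [m0c]
  push_cast
  ring
theorem vK_ (x : ℝ) : ∀ y, InQ 2 y → tK 1 2 y x = crv PP 1 2 y * bf1q2.v y x := by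
  intro y h
  rw [yK12 h, ecv1q2]
  simp only [kf1q2]
theorem vX_ (x : ℝ) : ∀ y, InQ 2 y → tL 1 2 y x = crv PP 1 2 y * bx1q2.v y x := by
  intro y h
  rw [yL12 h, ecv1q2]
  simp only [l1q2]
theorem n0_rK (y x : ℝ) : n0b.v y x = (1 - (y - 1) * k0c.v x) := by
  simp only [n0b, k0c]
  all_goals (try push_cast)
  all_goals (try ring)
theorem rK_ (x : ℝ) : ∀ y, OnC (0 : Fin 6) 2 y → c1n y < crv PP 1 2 y →
    rhk.v y x * (crv PP 1 2 y - c1n y) = crv PP 1 2 y * (bf1q2.v y x - (1 - (y - 1) * k0c.v x)) := by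
  intro y h hlt
  rw [ecv1q2, ← c1g_v] at hlt ⊢
  have hd : 0 < cv1p.v y - c1g.v y := sub_pos.2 hlt
  have hi := inv_mul_cancel₀ hd.ne'
  rw [← n0_rK]
  simp only [rhk]
  linear_combination ((bf1q2.v y x - n0b.v y x) * cv1p.v y) * hi
theorem n0_rX (y x : ℝ) : n0x.v y x = m0c.v x := by
  simp only [n0x, m0c]
  all_goals (try push_cast)
  all_goals (try ring)
theorem rX_ (x : ℝ) : ∀ y, OnC (0 : Fin 6) 2 y → c1n y < crv PP 1 2 y →
    rhx.v y x * (crv PP 1 2 y - c1n y) = crv PP 1 2 y * (bx1q2.v y x - m0c.v x) := by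
  intro y h hlt
  rw [ecv1q2, ← c1g_v] at hlt ⊢
  have hd : 0 < cv1p.v y - c1g.v y := sub_pos.2 hlt
  have hi := inv_mul_cancel₀ hd.ne'
  rw [← n0_rX]
  simp only [rhx]
  linear_combination ((bx1q2.v y x - n0x.v y x) * cv1p.v y) * hi
theorem flat_ (x : ℝ) : ∀ y, InQ 2 y → vv.ya.v ≤ y → y ≤ vv.yb.v → bf1q2.v y x = 1 - (y - 1) * k0c.v x ∧ bx1q2.v y x = m0c.v x := by
  intro y h h1 h2
  have ea : vv.ya.v = 577 / 500 := by
    show (Cn.rt 577 500).v = _
    rw [Cn.rt_v]
    norm_num
  have eb : vv.yb.v = 231 / 200 := by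
    show (Cn.rt 231 200).v = _
    rw [Cn.rt_v]
    norm_num
  rw [ea] at h1
  rw [eb] at h2
  constructor
  · simp only [bf1q2, bf1q2_3, k0c]
    rcases eq_or_lt_of_le h1 with g | h1
    · subst g
      ((try push_cast); (repeat first | rw [if_pos (by linarith)] | rw [if_neg (by linarith)] | erw [if_pos (by linarith)] | erw [if_neg (by linarith)]); (try push_cast); (try ring1))
    rcases eq_or_lt_of_le h2 with g | h2
    · subst g
      ((try push_cast); (repeat first | rw [if_pos (by linarith)] | rw [if_neg (by linarith)] | erw [if_pos (by linarith)] | erw [if_neg (by linarith)]); (try push_cast); (try ring1))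
    · ((try push_cast); (repeat first | rw [if_pos (by linarith)] | rw [if_neg (by linarith)] | erw [if_pos (by linarith)] | erw [if_neg (by linarith)]); (try push_cast); (try ring1))
  · simp only [bx1q2, bx1q2_3, m0c]
    rcases eq_or_lt_of_le h1 with g | h1
    · subst g
      ((try push_cast); (repeat first | rw [if_pos (by linarith)] | rw [if_neg (by linarith)] | erw [if_pos (by linarith)] | erw [if_neg (by linarith)]); (try push_cast); (try ring1))
    rcases eq_or_lt_of_le h2 with g | h2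
    · subst g
      ((try push_cast); (repeat first | rw [if_pos (by linarith)] | rw [if_neg (by linarith)] | erw [if_pos (by linarith)] | erw [if_neg (by linarith)]); (try push_cast); (try ring1))
    · ((try push_cast); (repeat first | rw [if_pos (by linarith)] | rw [if_neg (by linarith)] | erw [if_pos (by linarith)] | erw [if_neg (by linarith)]); (try push_cast); (try ring1))
theorem abk_ (x : ℝ) : ∀ y, InQ 2 y → vv.yb.v ≤ y → y ≤ vv.yk.v → bf1q2.v y x = 1 - (y - 1) * k0c.v x + sbk.v x * (y - vv.yb.v) ∧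
    bx1q2.v y x = m0c.v x + sbx.v x * (y - vv.yb.v) := by
  intro y h h1 h2
  have eb : vv.yb.v = 231 / 200 := by
    show (Cn.rt 231 200).v = _
    rw [Cn.rt_v]
    norm_num
  have ek : vv.yk.v = 13 / 10 := by
    show (Cn.rt 13 10).v = _
    rw [Cn.rt_v]
    norm_num
  rw [eb] at h1 ⊢
  rw [ek] at h2
  constructor
  · simp only [bf1q2, bf1q2_3, k0c, sbk]
    rcases eq_or_lt_of_le h1 with g | h1
    · subst g
      ((try push_cast); (repeat first | rw [if_pos (by linarith)] | rw [if_neg (by linarith)] | erw [if_pos (by linarith)] | erw [if_neg (by linarith)]); (try push_cast); (try ring1))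
    rcases eq_or_lt_of_le h2 with g | h2
    · subst g
      ((try push_cast); (repeat first | rw [if_pos (by linarith)] | rw [if_neg (by linarith)] | erw [if_pos (by linarith)] | erw [if_neg (by linarith)]); (try push_cast); (try ring1))
    · ((try push_cast); (repeat first | rw [if_pos (by linarith)] | rw [if_neg (by linarith)] | erw [if_pos (by linarith)] | erw [if_neg (by linarith)]); (try push_cast); (try ring1))
  · simp only [bx1q2, bx1q2_3, m0c, sbx]
    rcases eq_or_lt_of_le h1 with g | h1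
    · subst g
      ((try push_cast); (repeat first | rw [if_pos (by linarith)] | rw [if_neg (by linarith)] | erw [if_pos (by linarith)] | erw [if_neg (by linarith)]); (try push_cast); (try ring1))
    rcases eq_or_lt_of_le h2 with g | h2
    · subst g
      ((try push_cast); (repeat first | rw [if_pos (by linarith)] | rw [if_neg (by linarith)] | erw [if_pos (by linarith)] | erw [if_neg (by linarith)]); (try push_cast); (try ring1))
    · ((try push_cast); (repeat first | rw [if_pos (by linarith)] | rw [if_neg (by linarith)] | erw [if_pos (by linarith)] | erw [if_neg (by linarith)]); (try push_cast); (try ring1))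
theorem ka_dt81 (x : ℝ) : dt81.kv (-7 / 20) x = (-121023 / 200000000 + (x - 309 / 320) * (169217 / 1250000)) := by
  simp only [dt81, DT.kv, sw81, sl81, sv81]
  ((try push_cast); ring1)
theorem kb_dt81 (x : ℝ) : dt81.kv (-3 / 10) x = (464351 / 100000000 + (x - 309 / 320) * (696949 / 5000000)) := by
  simp only [dt81, DT.kv, sw81, sl81, sv81]
  ((try push_cast); ring1)
theorem ka_dt82 (x : ℝ) : dt82.kv (-3 / 10) x = (464351 / 100000000 + (x - 309 / 320) * (696949 / 5000000)) := by
  simp only [dt82, DT.kv, sw82, sl82, sv82]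
  ((try push_cast); ring1)
theorem kb_dt82 (x : ℝ) : dt82.kv (-1 / 5) x = (452101 / 100000000 + (x - 309 / 320) * (435749 / 10000000)) := by
  simp only [dt82, DT.kv, sw82, sl82, sv82]
  ((try push_cast); ring1)
theorem ka_dt83 (x : ℝ) : dt83.kv (-1 / 5) x = (452101 / 100000000 + (x - 309 / 320) * (435749 / 10000000)) := by
  simp only [dt83, DT.kv, sw83, sl83, sv83]
  ((try push_cast); ring1)
theorem kb_dt83 (x : ℝ) : dt83.kv (-1 / 10) x = (0) := by
  simp only [dt83, DT.kv, sw83, sl83, sv83]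
  ((try push_cast); ring1)
theorem ka_dt88 (x : ℝ) : dt88.kv (-3 / 10) x = (464351 / 100000000 + (x - 309 / 320) * (696949 / 5000000)) :=
  (DT.kv_le (by simp only [Cn.rt_v, Cn.ng_v]; norm_num)).trans (ka_dt82 x)
theorem kb_dt88 (x : ℝ) : dt88.kv (-1 / 10) x = (0) :=
  (DT.kv_gt (by simp only [Cn.rt_v, Cn.ng_v]; norm_num)).trans (kb_dt83 x)
theorem ka_dt89 (x : ℝ) : dt89.kv (-7 / 20) x = (-121023 / 200000000 + (x - 309 / 320) * (169217 / 1250000)) :=
  (DT.kv_le (by simp only [Cn.rt_v, Cn.ng_v]; norm_num)).trans (ka_dt81 x)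
theorem kb_dt89 (x : ℝ) : dt89.kv (-1 / 10) x = (0) :=
  (DT.kv_gt (by simp only [Cn.rt_v, Cn.ng_v]; norm_num)).trans (kb_dt88 x)
theorem ka_dt84 (x : ℝ) : dt84.kv (-1 / 10) x = (0) := by
  simp only [dt84, DT.kv, sl84, sv84]
  ((try push_cast); ring1)
theorem kb_dt84 (x : ℝ) : dt84.kv (1 / 10) x = (0) := by
  simp only [dt84, DT.kv, sl84, sv84]
  ((try push_cast); ring1)
theorem ka_dt85 (x : ℝ) : dt85.kv (1 / 10) x = (0) := by
  simp only [dt85, DT.kv, sw85, sl85, sv85]
  ((try push_cast); ring1)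
theorem kb_dt85 (x : ℝ) : dt85.kv (1 / 5) x = (-452101 / 100000000 + (x - 309 / 320) * (-435749 / 10000000)) := by
  simp only [dt85, DT.kv, sw85, sl85, sv85]
  ((try push_cast); ring1)
theorem ka_dt90 (x : ℝ) : dt90.kv (-1 / 10) x = (0) :=
  (DT.kv_le (by simp only [Cn.rt_v, Cn.ng_v]; norm_num)).trans (ka_dt84 x)
theorem kb_dt90 (x : ℝ) : dt90.kv (1 / 5) x = (-452101 / 100000000 + (x - 309 / 320) * (-435749 / 10000000)) :=
  (DT.kv_gt (by simp only [Cn.rt_v, Cn.ng_v]; norm_num)).trans (kb_dt85 x)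
theorem ka_dt86 (x : ℝ) : dt86.kv (1 / 5) x = (-452101 / 100000000 + (x - 309 / 320) * (-435749 / 10000000)) := by
  simp only [dt86, DT.kv, sw86, sl86, sv86]
  ((try push_cast); ring1)
theorem kb_dt86 (x : ℝ) : dt86.kv (3 / 10) x = (-464351 / 100000000 + (x - 309 / 320) * (-696949 / 5000000)) := by
  simp only [dt86, DT.kv, sw86, sl86, sv86]
  ((try push_cast); ring1)
theorem ka_dt87 (x : ℝ) : dt87.kv (3 / 10) x = (-464351 / 100000000 + (x - 309 / 320) * (-696949 / 5000000)) := by
  simp only [dt87, DT.kv, sw87, sl87, sv87]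
  ((try push_cast); ring1)
theorem kb_dt87 (x : ℝ) : dt87.kv (7 / 20) x = (121023 / 200000000 + (x - 309 / 320) * (-169217 / 1250000)) := by
  simp only [dt87, DT.kv, sw87, sl87, sv87]
  ((try push_cast); ring1)
theorem ka_dt91 (x : ℝ) : dt91.kv (1 / 5) x = (-452101 / 100000000 + (x - 309 / 320) * (-435749 / 10000000)) :=
  (DT.kv_le (by simp only [Cn.rt_v, Cn.ng_v]; norm_num)).trans (ka_dt86 x)
theorem kb_dt91 (x : ℝ) : dt91.kv (7 / 20) x = (121023 / 200000000 + (x - 309 / 320) * (-169217 / 1250000)) :=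
  (DT.kv_gt (by simp only [Cn.rt_v, Cn.ng_v]; norm_num)).trans (kb_dt87 x)
theorem ka_dt92 (x : ℝ) : dt92.kv (-1 / 10) x = (0) :=
  (DT.kv_le (by simp only [Cn.rt_v, Cn.ng_v]; norm_num)).trans (ka_dt90 x)
theorem kb_dt92 (x : ℝ) : dt92.kv (7 / 20) x = (121023 / 200000000 + (x - 309 / 320) * (-169217 / 1250000)) :=
  (DT.kv_gt (by simp only [Cn.rt_v, Cn.ng_v]; norm_num)).trans (kb_dt91 x)
theorem ka_dt93 (x : ℝ) : dt93.kv (-7 / 20) x = (-121023 / 200000000 + (x - 309 / 320) * (169217 / 1250000)) :=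
  (DT.kv_le (by simp only [Cn.rt_v, Cn.ng_v]; norm_num)).trans (ka_dt89 x)
theorem kb_dt93 (x : ℝ) : dt93.kv (7 / 20) x = (121023 / 200000000 + (x - 309 / 320) * (-169217 / 1250000)) :=
  (DT.kv_gt (by simp only [Cn.rt_v, Cn.ng_v]; norm_num)).trans (kb_dt92 x)
theorem ko_dt81 (x : ℝ) : dt81.KOk x := trivial
theorem ko_dt82 (x : ℝ) : dt82.KOk x := trivial
theorem ko_dt83 (x : ℝ) : dt83.KOk x := trivial
theorem ko_dt88 (x : ℝ) : dt88.KOk x :=
  DT.kOk_node (v := -1 / 5) (by simp only [Cn.rt_v, Cn.ng_v]; norm_num) (kb_dt82 x) (ka_dt83 x) (by ring1) (ko_dt82 x) (ko_dt83 x)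
theorem ko_dt89 (x : ℝ) : dt89.KOk x :=
  DT.kOk_node (v := -3 / 10) (by simp only [Cn.rt_v, Cn.ng_v]; norm_num) (kb_dt81 x) (ka_dt88 x) (by ring1) (ko_dt81 x) (ko_dt88 x)
theorem ko_dt84 (x : ℝ) : dt84.KOk x := trivial
theorem ko_dt85 (x : ℝ) : dt85.KOk x := trivial
theorem ko_dt90 (x : ℝ) : dt90.KOk x :=
  DT.kOk_node (v := 1 / 10) (by simp only [Cn.rt_v, Cn.ng_v]; norm_num) (kb_dt84 x) (ka_dt85 x) (by ring1) (ko_dt84 x) (ko_dt85 x)
theorem ko_dt86 (x : ℝ) : dt86.KOk x := trivial
theorem ko_dt87 (x : ℝ) : dt87.KOk x := trivial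
theorem ko_dt91 (x : ℝ) : dt91.KOk x :=
  DT.kOk_node (v := 3 / 10) (by simp only [Cn.rt_v, Cn.ng_v]; norm_num) (kb_dt86 x) (ka_dt87 x) (by ring1) (ko_dt86 x) (ko_dt87 x)
theorem ko_dt92 (x : ℝ) : dt92.KOk x :=
  DT.kOk_node (v := 1 / 5) (by simp only [Cn.rt_v, Cn.ng_v]; norm_num) (kb_dt90 x) (ka_dt91 x) (by ring1) (ko_dt90 x) (ko_dt91 x)
theorem ko_dt93 (x : ℝ) : dt93.KOk x :=
  DT.kOk_node (v := -1 / 10) (by simp only [Cn.rt_v, Cn.ng_v]; norm_num) (kb_dt89 x) (ka_dt92 x) (by ring1) (ko_dt89 x) (ko_dt92 x)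
theorem phl0 {p x : ℝ} (h2 : p ≤ -3 / 10) : dt93.kv p x = (10619 / 25000000 + (x - 309 / 320) * (-2199223 / 1000000)) + (-46437 / 400000 + (x - 309 / 320) * (-1818247 / 125000)) * p + (-3401 / 10000 + (x - 309 / 320) * (-11251 / 500)) * p ^ 2 := by
  refine (DT.kv_le (by simp only [Cn.rt_v, Cn.ng_v]; push_cast; linarith)).trans ?_
  refine (DT.kv_le (by simp only [Cn.rt_v, Cn.ng_v]; push_cast; linarith)).trans ?_
  simp only [dt81, DT.kv, sw81, sl81, sv81]
  ((try push_cast); ring1)
theorem phl1 {p x : ℝ} (h1 : -3 / 10 < p) (h2 : p ≤ -1 / 5) : dt93.kv p x = (-4923799 / 100000000 + (x - 309 / 320) * (-960949 / 10000000)) + (-17887 / 40000 + (x - 309 / 320) * (-525149 / 1000000)) * p + (-8919 / 10000 + (x - 309 / 320) * (433 / 500)) * p ^ 2 := by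
  refine (DT.kv_le (by simp only [Cn.rt_v, Cn.ng_v]; push_cast; linarith)).trans ?_
  refine (DT.kv_gt (by simp only [Cn.rt_v, Cn.ng_v]; push_cast; linarith)).trans ?_
  refine (DT.kv_le (by simp only [Cn.rt_v, Cn.ng_v]; push_cast; linarith)).trans ?_
  simp only [dt82, DT.kv, sw82, sl82, sv82]
  ((try push_cast); ring1)
theorem phl2 {p x : ℝ} (h1 : -1 / 5 < p) (h2 : p ≤ -1 / 10) : dt93.kv p x = (452099 / 100000000 + (x - 309 / 320) * (435651 / 10000000)) + (904199 / 10000000 + (x - 309 / 320) * (871351 / 1000000)) * p + (4521 / 10000 + (x - 309 / 320) * (4357 / 1000)) * p ^ 2 := by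
  refine (DT.kv_le (by simp only [Cn.rt_v, Cn.ng_v]; push_cast; linarith)).trans ?_
  refine (DT.kv_gt (by simp only [Cn.rt_v, Cn.ng_v]; push_cast; linarith)).trans ?_
  refine (DT.kv_gt (by simp only [Cn.rt_v, Cn.ng_v]; push_cast; linarith)).trans ?_
  simp only [dt83, DT.kv, sw83, sl83, sv83]
  ((try push_cast); ring1)
theorem phl3 {p x : ℝ} (h1 : -1 / 10 < p) (h2 : p ≤ 1 / 10) : dt93.kv p x = (0) + (0) * p := by
  refine (DT.kv_gt (by simp only [Cn.rt_v, Cn.ng_v]; push_cast; linarith)).trans ?_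
  refine (DT.kv_le (by simp only [Cn.rt_v, Cn.ng_v]; push_cast; linarith)).trans ?_
  refine (DT.kv_le (by simp only [Cn.rt_v, Cn.ng_v]; push_cast; linarith)).trans ?_
  simp only [dt84, DT.kv, sl84, sv84]
  ((try push_cast); ring1)
theorem phl4 {p x : ℝ} (h1 : 1 / 10 < p) (h2 : p ≤ 1 / 5) : dt93.kv p x = (-452099 / 100000000 + (x - 309 / 320) * (-435651 / 10000000)) + (904199 / 10000000 + (x - 309 / 320) * (871351 / 1000000)) * p + (-4521 / 10000 + (x - 309 / 320) * (-4357 / 1000)) * p ^ 2 := by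
  refine (DT.kv_gt (by simp only [Cn.rt_v, Cn.ng_v]; push_cast; linarith)).trans ?_
  refine (DT.kv_le (by simp only [Cn.rt_v, Cn.ng_v]; push_cast; linarith)).trans ?_
  refine (DT.kv_gt (by simp only [Cn.rt_v, Cn.ng_v]; push_cast; linarith)).trans ?_
  simp only [dt85, DT.kv, sw85, sl85, sv85]
  ((try push_cast); ring1)
theorem phl5 {p x : ℝ} (h1 : 1 / 5 < p) (h2 : p ≤ 3 / 10) : dt93.kv p x = (4923799 / 100000000 + (x - 309 / 320) * (960949 / 10000000)) + (-17887 / 40000 + (x - 309 / 320) * (-525149 / 1000000)) * p + (8919 / 10000 + (x - 309 / 320) * (-433 / 500)) * p ^ 2 := by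
  refine (DT.kv_gt (by simp only [Cn.rt_v, Cn.ng_v]; push_cast; linarith)).trans ?_
  refine (DT.kv_gt (by simp only [Cn.rt_v, Cn.ng_v]; push_cast; linarith)).trans ?_
  refine (DT.kv_le (by simp only [Cn.rt_v, Cn.ng_v]; push_cast; linarith)).trans ?_
  simp only [dt86, DT.kv, sw86, sl86, sv86]
  ((try push_cast); ring1)
theorem phl6 {p x : ℝ} (h1 : 3 / 10 < p) (h2 : p ≤ 7 / 20) : dt93.kv p x = (-10619 / 25000000 + (x - 309 / 320) * (2199223 / 1000000)) + (-46437 / 400000 + (x - 309 / 320) * (-1818247 / 125000)) * p + (3401 / 10000 + (x - 309 / 320) * (11251 / 500)) * p ^ 2 := by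
  refine (DT.kv_gt (by simp only [Cn.rt_v, Cn.ng_v]; push_cast; linarith)).trans ?_
  refine (DT.kv_gt (by simp only [Cn.rt_v, Cn.ng_v]; push_cast; linarith)).trans ?_
  refine (DT.kv_gt (by simp only [Cn.rt_v, Cn.ng_v]; push_cast; linarith)).trans ?_
  simp only [dt87, DT.kv, sw87, sl87, sv87]
  ((try push_cast); ring1)
theorem tvc10 {p x : ℝ} (h1 : -7 / 20 ≤ p) (h2 : p ≤ -3 / 10) : dt80.val (fun p x => kcg.v p x) p (cT p) x = (3356379 / 100000000 + (x - 309 / 320) * (3425347 / 5000000)) + (-3993807 / 2500000 + (x - 309 / 320) * (-3327189 / 500000)) * p + (-39831 / 10000 + (x - 309 / 320) * (-8837 / 500)) * p ^ 2 := by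
  rcases eq_or_lt_of_le h1 with h | h1
  · subst h
    refine (DT.val_le (by simp only [Cn.rt_v, Cn.ng_v]; push_cast; linarith)).trans ?_
    refine (DT.val_gt (by simp only [Cn.rt_v, Cn.ng_v]; push_cast; linarith)).trans ?_
    refine (DT.val_le (by simp only [Cn.rt_v, Cn.ng_v]; push_cast; linarith)).trans ?_
    refine (DT.val_gt (by simp only [Cn.rt_v, Cn.ng_v]; push_cast; linarith)).trans ?_
    refine (DT.val_gt (by simp only [Cn.rt_v, Cn.ng_v]; push_cast; linarith)).trans ?_
    simp only [dt35, DT.val, sw35, sl35, sv35]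
    ((try push_cast); ring1)
  ·
    refine (DT.val_le (by simp only [Cn.rt_v, Cn.ng_v]; push_cast; linarith)).trans ?_
    refine (DT.val_gt (by simp only [Cn.rt_v, Cn.ng_v]; push_cast; linarith)).trans ?_
    refine (DT.val_gt (by simp only [Cn.rt_v, Cn.ng_v]; push_cast; linarith)).trans ?_
    refine (DT.val_le (by simp only [Cn.rt_v, Cn.ng_v]; push_cast; linarith)).trans ?_
    refine (DT.val_le (by simp only [Cn.rt_v, Cn.ng_v]; push_cast; linarith)).trans ?_
    simp only [dt36, DT.val, sw36, sl36, sv36]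
    ((try push_cast); ring1)
theorem tvc11 {p x : ℝ} (h1 : -3 / 10 ≤ p) (h2 : p ≤ -1 / 5) : dt80.val (fun p x => kcg.v p x) p (cT p) x = (17753613 / 50000000 + (x - 309 / 320) * (7062247 / 5000000)) + (5458621 / 10000000 + (x - 309 / 320) * (-902589 / 500000)) * p + (-1027 / 2500 + (x - 309 / 320) * (-1199 / 125)) * p ^ 2 := by
  rcases eq_or_lt_of_le h1 with h | h1
  · subst h
    refine (DT.val_le (by simp only [Cn.rt_v, Cn.ng_v]; push_cast; linarith)).trans ?_
    refine (DT.val_gt (by simp only [Cn.rt_v, Cn.ng_v]; push_cast; linarith)).trans ?_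
    refine (DT.val_gt (by simp only [Cn.rt_v, Cn.ng_v]; push_cast; linarith)).trans ?_
    refine (DT.val_le (by simp only [Cn.rt_v, Cn.ng_v]; push_cast; linarith)).trans ?_
    refine (DT.val_le (by simp only [Cn.rt_v, Cn.ng_v]; push_cast; linarith)).trans ?_
    simp only [dt36, DT.val, sw36, sl36, sv36]
    ((try push_cast); ring1)
  ·
    refine (DT.val_le (by simp only [Cn.rt_v, Cn.ng_v]; push_cast; linarith)).trans ?_
    refine (DT.val_gt (by simp only [Cn.rt_v, Cn.ng_v]; push_cast; linarith)).trans ?_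
    refine (DT.val_gt (by simp only [Cn.rt_v, Cn.ng_v]; push_cast; linarith)).trans ?_
    refine (DT.val_le (by simp only [Cn.rt_v, Cn.ng_v]; push_cast; linarith)).trans ?_
    refine (DT.val_gt (by simp only [Cn.rt_v, Cn.ng_v]; push_cast; linarith)).trans ?_
    simp only [dt37, DT.val, sw37, sl37, sv37]
    ((try push_cast); ring1)
theorem tvc12 {p x : ℝ} (h1 : -1 / 5 ≤ p) (h2 : p ≤ -1 / 10) : dt80.val (fun p x => kcg.v p x) p (cT p) x = (7349857 / 25000000 + (x - 309 / 320) * (3531123 / 2500000)) + (-324639 / 5000000 + (x - 309 / 320) * (-1805179 / 1000000)) * p + (-9689 / 5000 + (x - 309 / 320) * (-1199 / 125)) * p ^ 2 := by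
  rcases eq_or_lt_of_le h1 with h | h1
  · subst h
    refine (DT.val_le (by simp only [Cn.rt_v, Cn.ng_v]; push_cast; linarith)).trans ?_
    refine (DT.val_gt (by simp only [Cn.rt_v, Cn.ng_v]; push_cast; linarith)).trans ?_
    refine (DT.val_gt (by simp only [Cn.rt_v, Cn.ng_v]; push_cast; linarith)).trans ?_
    refine (DT.val_le (by simp only [Cn.rt_v, Cn.ng_v]; push_cast; linarith)).trans ?_
    refine (DT.val_gt (by simp only [Cn.rt_v, Cn.ng_v]; push_cast; linarith)).trans ?_
    simp only [dt37, DT.val, sw37, sl37, sv37]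
    ((try push_cast); ring1)
  ·
    refine (DT.val_le (by simp only [Cn.rt_v, Cn.ng_v]; push_cast; linarith)).trans ?_
    refine (DT.val_gt (by simp only [Cn.rt_v, Cn.ng_v]; push_cast; linarith)).trans ?_
    refine (DT.val_gt (by simp only [Cn.rt_v, Cn.ng_v]; push_cast; linarith)).trans ?_
    refine (DT.val_gt (by simp only [Cn.rt_v, Cn.ng_v]; push_cast; linarith)).trans ?_
    refine (DT.val_le (by simp only [Cn.rt_v, Cn.ng_v]; push_cast; linarith)).trans ?_
    simp only [dt38, DT.val, sw38, sl38, sv38]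
    ((try push_cast); ring1)
theorem tvc13 {p x : ℝ} (h1 : -1 / 10 ≤ p) (h2 : p ≤ 1 / 10) : dt80.val (fun p x => kcg.v p x) p (cT p) x = (12037071 / 40000000 + (x - 309 / 320) * (15083693 / 10000000)) + (1474343 / 20000000 + (x - 309 / 320) * (56611 / 500000)) * p + (-6223 / 5000) * p ^ 2 := by
  rcases eq_or_lt_of_le h1 with h | h1
  · subst h
    refine (DT.val_le (by simp only [Cn.rt_v, Cn.ng_v]; push_cast; linarith)).trans ?_
    refine (DT.val_gt (by simp only [Cn.rt_v, Cn.ng_v]; push_cast; linarith)).trans ?_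
    refine (DT.val_gt (by simp only [Cn.rt_v, Cn.ng_v]; push_cast; linarith)).trans ?_
    refine (DT.val_gt (by simp only [Cn.rt_v, Cn.ng_v]; push_cast; linarith)).trans ?_
    refine (DT.val_le (by simp only [Cn.rt_v, Cn.ng_v]; push_cast; linarith)).trans ?_
    simp only [dt38, DT.val, sw38, sl38, sv38]
    ((try push_cast); ring1)
  ·
    refine (DT.val_le (by simp only [Cn.rt_v, Cn.ng_v]; push_cast; linarith)).trans ?_
    refine (DT.val_gt (by simp only [Cn.rt_v, Cn.ng_v]; push_cast; linarith)).trans ?_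
    refine (DT.val_gt (by simp only [Cn.rt_v, Cn.ng_v]; push_cast; linarith)).trans ?_
    refine (DT.val_gt (by simp only [Cn.rt_v, Cn.ng_v]; push_cast; linarith)).trans ?_
    refine (DT.val_gt (by simp only [Cn.rt_v, Cn.ng_v]; push_cast; linarith)).trans ?_
    simp only [dt39, DT.val, sw39, sl39, sv39]
    ((try push_cast); ring1)
theorem tvc14 {p x : ℝ} (h1 : 1 / 10 ≤ p) (h2 : p ≤ 1 / 5) : dt80.val (fun p x => kcg.v p x) p (cT p) x = (29851527 / 100000000 + (x - 309 / 320) * (14560143 / 10000000)) + (609711 / 5000000 + (x - 309 / 320) * (72517 / 62500)) * p + (-14857 / 10000 + (x - 309 / 320) * (-1047 / 200)) * p ^ 2 := by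
  rcases eq_or_lt_of_le h1 with h | h1
  · subst h
    refine (DT.val_le (by simp only [Cn.rt_v, Cn.ng_v]; push_cast; linarith)).trans ?_
    refine (DT.val_gt (by simp only [Cn.rt_v, Cn.ng_v]; push_cast; linarith)).trans ?_
    refine (DT.val_gt (by simp only [Cn.rt_v, Cn.ng_v]; push_cast; linarith)).trans ?_
    refine (DT.val_gt (by simp only [Cn.rt_v, Cn.ng_v]; push_cast; linarith)).trans ?_
    refine (DT.val_gt (by simp only [Cn.rt_v, Cn.ng_v]; push_cast; linarith)).trans ?_
    simp only [dt39, DT.val, sw39, sl39, sv39]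
    ((try push_cast); ring1)
  ·
    refine (DT.val_gt (by simp only [Cn.rt_v, Cn.ng_v]; push_cast; linarith)).trans ?_
    refine (DT.val_le (by simp only [Cn.rt_v, Cn.ng_v]; push_cast; linarith)).trans ?_
    refine (DT.val_le (by simp only [Cn.rt_v, Cn.ng_v]; push_cast; linarith)).trans ?_
    refine (DT.val_le (by simp only [Cn.rt_v, Cn.ng_v]; push_cast; linarith)).trans ?_
    simp only [dt40, DT.val, sw40, sl40, sv40]
    ((try push_cast); ring1)
theorem tvc15 {p x : ℝ} (h1 : 1 / 5 ≤ p) (h2 : p ≤ 3 / 10) : dt80.val (fun p x => kcg.v p x) p (cT p) x = (30583427 / 100000000 + (x - 309 / 320) * (2632709 / 2000000)) + (30467 / 625000 + (x - 309 / 320) * (2556771 / 1000000)) * p + (-13027 / 10000 + (x - 309 / 320) * (-4363 / 500)) * p ^ 2 := by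
  rcases eq_or_lt_of_le h1 with h | h1
  · subst h
    refine (DT.val_gt (by simp only [Cn.rt_v, Cn.ng_v]; push_cast; linarith)).trans ?_
    refine (DT.val_le (by simp only [Cn.rt_v, Cn.ng_v]; push_cast; linarith)).trans ?_
    refine (DT.val_le (by simp only [Cn.rt_v, Cn.ng_v]; push_cast; linarith)).trans ?_
    refine (DT.val_le (by simp only [Cn.rt_v, Cn.ng_v]; push_cast; linarith)).trans ?_
    simp only [dt40, DT.val, sw40, sl40, sv40]
    ((try push_cast); ring1)
  ·
    refine (DT.val_gt (by simp only [Cn.rt_v, Cn.ng_v]; push_cast; linarith)).trans ?_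
    refine (DT.val_le (by simp only [Cn.rt_v, Cn.ng_v]; push_cast; linarith)).trans ?_
    refine (DT.val_le (by simp only [Cn.rt_v, Cn.ng_v]; push_cast; linarith)).trans ?_
    refine (DT.val_gt (by simp only [Cn.rt_v, Cn.ng_v]; push_cast; linarith)).trans ?_
    refine (DT.val_le (by simp only [Cn.rt_v, Cn.ng_v]; push_cast; linarith)).trans ?_
    simp only [dt41, DT.val, sw41, sl41, sv41]
    ((try push_cast); ring1)
theorem tvc16 {p x : ℝ} (h1 : 3 / 10 ≤ p) (h2 : p ≤ 7 / 20) : dt80.val (fun p x => kcg.v p x) p (cT p) x = (679771 / 20000000 + (x - 309 / 320) * (-473173 / 312500)) + (290789 / 156250 + (x - 309 / 320) * (10713399 / 500000)) * p + (-2702 / 625 + (x - 309 / 320) * (-5022 / 125)) * p ^ 2 := by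
  rcases eq_or_lt_of_le h1 with h | h1
  · subst h
    refine (DT.val_gt (by simp only [Cn.rt_v, Cn.ng_v]; push_cast; linarith)).trans ?_
    refine (DT.val_le (by simp only [Cn.rt_v, Cn.ng_v]; push_cast; linarith)).trans ?_
    refine (DT.val_le (by simp only [Cn.rt_v, Cn.ng_v]; push_cast; linarith)).trans ?_
    refine (DT.val_gt (by simp only [Cn.rt_v, Cn.ng_v]; push_cast; linarith)).trans ?_
    refine (DT.val_le (by simp only [Cn.rt_v, Cn.ng_v]; push_cast; linarith)).trans ?_
    simp only [dt41, DT.val, sw41, sl41, sv41]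
    ((try push_cast); ring1)
  ·
    refine (DT.val_gt (by simp only [Cn.rt_v, Cn.ng_v]; push_cast; linarith)).trans ?_
    refine (DT.val_le (by simp only [Cn.rt_v, Cn.ng_v]; push_cast; linarith)).trans ?_
    refine (DT.val_le (by simp only [Cn.rt_v, Cn.ng_v]; push_cast; linarith)).trans ?_
    refine (DT.val_gt (by simp only [Cn.rt_v, Cn.ng_v]; push_cast; linarith)).trans ?_
    refine (DT.val_gt (by simp only [Cn.rt_v, Cn.ng_v]; push_cast; linarith)).trans ?_
    simp only [dt42, DT.val, sw42, sl42, sv42]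
    ((try push_cast); ring1)
theorem ph_ (x : ℝ) : ∀ u, |u| ≤ vv.k2.v → dd.tF x (-u) - dd.tF x u = m0c.v x * u + dt93.kv u x := by
  intro u h
  have h : |u| ≤ 7 / 20 := by
    refine h.trans_eq ?_
    show (Cn.rt 7 20).v = _
    rw [Cn.rt_v]
    norm_num
  obtain ⟨h1, h2⟩ := abs_le.1 h
  show dt80.val (fun p x => kcg.v p x) (-u) (cT (-u)) x - dt80.val (fun p x => kcg.v p x) u (cT u) x = _
  rcases le_or_gt u (-3 / 10) with g0 | g1000
  ·
    rw [tvc16 (p := -u) (by linarith) (by linarith), tvc10 (p := u) (by linarith) (by linarith), phl0 g0]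
    simp only [m0c]
    push_cast
    ring
  rcases le_or_gt u (-1 / 5) with g1 | g1001
  ·
    rw [tvc15 (p := -u) (by linarith) (by linarith), tvc11 (p := u) (by linarith) (by linarith), phl1 g1000 g1]
    simp only [m0c]
    push_cast
    ring
  rcases le_or_gt u (-1 / 10) with g2 | g1002
  ·
    rw [tvc14 (p := -u) (by linarith) (by linarith), tvc12 (p := u) (by linarith) (by linarith), phl2 g1001 g2]
    simp only [m0c]
    push_cast
    ring
  rcases le_or_gt u (1 / 10) with g3 | g1003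
  ·
    rw [tvc13 (p := -u) (by linarith) (by linarith), tvc13 (p := u) (by linarith) (by linarith), phl3 g1002 g3]
    simp only [m0c]
    push_cast
    ring
  rcases le_or_gt u (1 / 5) with g4 | g1004
  ·
    rw [tvc12 (p := -u) (by linarith) (by linarith), tvc14 (p := u) (by linarith) (by linarith), phl4 g1003 g4]
    simp only [m0c]
    push_cast
    ring
  rcases le_or_gt u (3 / 10) with g5 | g1005
  ·
    rw [tvc11 (p := -u) (by linarith) (by linarith), tvc15 (p := u) (by linarith) (by linarith), phl5 g1004 g5]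
    simp only [m0c]
    push_cast
    ring
  ·
    rw [tvc10 (p := -u) (by linarith) (by linarith), tvc16 (p := u) (by linarith) (by linarith), phl6 g1005 (by linarith)]
    simp only [m0c]
    push_cast
    ring
theorem kqf_ {y : ℝ} (x : ℝ) (h : OnC (0 : Fin 6) 2 y) : kqf.v y x * c1g.v y = (y - 1) * kcg.v (c1g.v y) x := by
  have h0 : 0 ≤ c1g.v y := by rw [c1g_v]; exact c1n_nn y
  simp only [kqf]
  (try push_cast)
  split_ifs with hh
  · rw [kcl6 (p := c1g.v y) (by linarith) (by linarith)]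
    ring
  · have hc : c1g.v y ≠ 0 := by
      intro e
      rw [e] at hh
      exact hh (by norm_num)
    have hi := inv_mul_cancel₀ hc
    linear_combination ((y - 1) * kcg.v (c1g.v y) x) * hi
theorem sM_ (x : ℝ) : ∀ y, OnC (0 : Fin 6) 2 y → c1n y < crv PP 1 2 y →
    (1 + skm.v y x) * (crv PP 1 2 y - c1n y) = tK 1 2 y x - tK 0 2 y x := by
  intro y h hlt
  rw [yK12 h.1, yK02 h]
  rw [ecv1q2, ← c1g_v] at hlt ⊢
  have hd : 0 < cv1p.v y - c1g.v y := sub_pos.2 hlt
  have hi := inv_mul_cancel₀ hd.ne'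
  have hb : |c1g.v y| ≤ 1 / 2 := by rw [c1g_v]; exact bnd_O h
  have eo := odd (x := x) hb
  have hk := kqf_ x h
  simp only [skm, kf1q2, kf0q2, eo]
  (try push_cast)
  linear_combination (cv1p.v y * ((bf1q2.v y x - 1) + kqf.v y x)) * hi + hk
theorem ok (x : ℝ) : tt.Ok PP tK tL x where
  i0 := rfl
  il := rfl
  rl := by
    show 1 < PP.ρ 4
    have e : PP.ρ 4 = 17 / 10 := rfl
    rw [e]
    norm_num
  ok := dok x
  kh := rfl
  odd := fun p h => odd h
  K0 := K0_ x
  L0 := L0_ x
  Kn := Kn_ x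
  Ln := Ln_ x
  f0 := f0_
  fn := fn_
  sK0 := sK0_ x
  sX0 := sX0_ x
  sKn := sKn_ x
  sXn := sXn_ x
  k1 := by
    show 0 ≤ (Cn.rt 1 10).v ∧ (Cn.rt 1 10).v ≤ 1 / 2
    rw [Cn.rt_v]
    constructor <;> norm_num
  kn := kn_ x
  tn := tn_ x
  vK := vK_ x
  vX := vX_ x
  rK := rK_ x
  rX := rX_ x
  yb := by
    show 0 ≤ (Cn.rt 231 200).v ∧ 1 ≤ 3 / 4 * (Cn.rt 231 200).v ^ 2
    rw [Cn.rt_v]
    constructor <;> norm_num
  flat := flat_ x
  abk := abk_ x
  phk := ko_dt93 x
  ph := ph_ x
  sM := sM_ x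
  yz := by
    show (Cn.rt 577 500).v ≤ (Cn.rt 577 500).v ∧ 0 ≤ (Cn.rt 577 500).v ∧ 1 ≤ 3 / 4 * (Cn.rt 577 500).v ^ 2 + (Cn.rt 1 10).v ^ 2
    simp only [Cn.rt_v]
    refine ⟨?_, ?_, ?_⟩ <;> norm_num
theorem okx {x : ℝ} (hx : ((1033476505 : ℕ) : ℝ) / S ≤ x) (hx' : x ≤ (((1033476505 : ℕ) : ℝ) + (6710887 : ℕ)) / S) : tt.Ok PP tK tL x := ok x

end Pool.Agent.Strip051.G.I9625_9688.Tab.St
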