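import Pool.Agent.Strip051.G.I9625_9688.StH
import Pool.Agent.Strip051.G.I9625_9688.StF

/-! # Unit strips 2 (generated) -/

set_option linter.all false
set_option maxRecDepth 100000

namespace Pool.Agent.Strip051.G.I9625_9688.Tab.St.C

open Pool.Agent.Strip051.PB Pool.Agent.Strip051.PB.T Pool.Agent.StripNear Pool.Agent.Strip051.LC
open Pool.Agent.Strip051.G.I9625_9688.Tab Pool.Agent.Strip051.G.I9625_9688.Tab.St

noncomputable def cut_A00pp_022_s3 : Cut := Cut.of [[⟨3, 0, 0, 2845415833⟩], [⟨0, 0, 0, 22369621⟩, ⟨1, 1, 0, 22369621⟩, ⟨2, 1, 0, 22369621⟩]]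

noncomputable def xt_A00pp_022_s3 : Ext := strExt dd true true true .u0 .u2 .s2 .pp 0 2 2 rfl rfl gl2 vv ndB0q0 ndB0q2

noncomputable def f_A00pp_022_s3 : ℕ → ℕ → ℕ → ℕ → Bool := onCell 1073741824 536870912 0 536870912 1033476505 6710887
    (rowF 2 true true true .pp 0 2 2 (qsf 0 536870912 0 536870912 2) ndB0q0 ndB0q2 pcB2 cut_A00pp_022_s3 xt_A00pp_022_s3)

def k0_A00pp_022_s3 : ∃ t, chk3 f_A00pp_022_s3 t 2 2 1 = true :=
  ⟨(a (l 6) (a (l 6) (b (l 6) (b (l 6) (b (l 6) (a (a (l 6) (a (l 16376936) (l 16374760))) (a (a (l 16363072) (l 16343808)) (l 16317208)))))))), by decide +kernel⟩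

def k1_A00pp_022_s3 : ∃ t, chk3 f_A00pp_022_s3 t 4 6 1 = true :=
  ⟨(a (l 1) (b (a (l 1) (b (l 6) (a (l 6) (l 16387688)))) (a (b (a (l 1) (b (l 16445232) (l 16402960))) (a (b (l 16426552) (a (l 1) (l 16472576))) (b (l 16433328) (l 16456120)))) (b (a (b (l 16549968) (l 16588728)) (b (l 16523080) (l 16440720))) (a (b (l 16531920) (l 16550672)) (b (l 16458256) (a (l 16591616) (l 16556536)))))))), by decide +kernel⟩

def k2_A00pp_022_s3 : ∃ t, chk3 f_A00pp_022_s3 t 16 14 1 = true :=
  ⟨(l 1), by decide +kernel⟩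

def k3_A00pp_022_s3 : ∃ t, chk3 f_A00pp_022_s3 t 17 28 1 = true :=
  ⟨(a (l 1) (b (l 1) (a (l 1) (b (l 16429016) (b (l 16438872) (l 16446000)))))), by decide +kernel⟩

def k4_A00pp_022_s3 : ∃ t, chk3 f_A00pp_022_s3 t 17 58 1 = true :=
  ⟨(a (l 1) (a (b (a (l 1) (b (l 16424624) (l 16433152))) (b (a (l 16402952) (l 16442856)) (a (a (l 16419832) (l 16439696)) (l 16453832)))) (b (b (l 16453632) (l 16462016)) (a (b (l 16461944) (l 16472768)) (b (l 16481112) (l 16491728)))))), by decide +kernel⟩

def k5_A00pp_022_s3 : ∃ t, chk3 f_A00pp_022_s3 t 34 59 1 = true :=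
  ⟨(a (b (l 1) (a (l 1) (b (l 1) (a (l 1) (b (l 1) (a (l 1) (b (l 16462696) (a (l 16468640) (l 16470872))))))))) (b (a (b (l 1) (a (l 1) (b (l 1) (a (l 1) (l 16436736))))) (b (a (b (l 1) (l 16427488)) (b (l 16430192) (l 16457704))) (b (a (a (l 16432560) (l 16437160)) (l 16444088)) (a (b (l 16441296) (l 16446008)) (l 16452800))))) (a (b (a (b (l 1) (a (l 1) (b (l 1) (l 16452088)))) (b (a (b (l 1) (l 16444984)) (b (l 16444176) (l 16449536))) (a (b (l 16450656) (l 16456616)) (l 16458136)))) (b (a (a (b (l 16453832) (a (l 16459248) (l 16461496))) (b (l 16458344) (l 16464872))) (a (l 16466080) (l 16470600))) (b (a (a (a (l 16466048) (l 16468296)) (l 16471656)) (c (l 16479832) (l 16476952))) (c (a (l 16477912) (l 16486800)) (a (l 16475000) (l 16484016)))))) (b (a (b (c (l 16455264) (l 16452072)) (c (l 16466472) (l 16463424))) (b (l 16457576) (c (l 16475504) (l 16472592)))) (a (b (b (l 16474168) (l 16480648)) (a (c (l 16489968) (l 16487232)) (b (l 16489632) (l 16496608)))) (b (b (l 16483224) (l 16494912))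 (a (b (l 16494128) (l 16501088)) (b (l 16498624) (l 16505568))))))))), by decide +kernel⟩

def k6_A00pp_022_s3 : ∃ t, chk3 f_A00pp_022_s3 t 35 59 1 = true :=
  ⟨(b (b (a (a (b (l 16444168) (l 16429704)) (b (l 16462904) (l 16448360))) (a (b (l 16481696) (l 16488024)) (b (l 16500472) (l 16506664)))) (a (a (a (b (l 16453336) (l 16462016)) (b (l 16462616) (l 16471240))) (a (b (l 16471904) (l 16480472)) (b (l 16481192) (l 16489704)))) (a (b (l 16495112) (a (l 16498920) (l 16508112))) (b (l 16513608) (l 16521856))))) (a (a (b (a (b (l 16466744) (b (l 16480256) (l 16486128))) (b (l 16475912) (b (l 16489376) (l 16495224)))) (a (b (b (l 16492280) (a (l 16496440) (l 16500952))) (a (b (l 16503120) (l 16510040)) (b (l 16507608) (l 16514512)))) (b (c (l 16500504) (l 16497992)) (b (l 16509096) (a (l 16518976) (l 16523432)))))) (b (a (b (l 16485080) (b (l 16498496) (l 16504296))) (b (l 16494240) (l 16505200))) (b (a (c (l 16509456) (l 16501824)) (c (l 16518392) (l 16521352))) (a (b (l 16518040) (l 16524864)) (b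 (l 16521720) (l 16533736)))))) (a (b (a (b (l 16498136) (l 16514248)) (b (l 16507248) (l 16518024))) (a (b (c (l 16522048) (l 16530368)) (c (l 16540176) (l 16543408))) (b (l 16535120) (c (l 16543688) (l 16552264))))) (b (a (b (l 16526808) (l 16537480)) (b (l 16535840) (l 16546408))) (a (b (l 16538744) (l 16561968)) (b (l 16558040) (l 16570648))))))), by decide +kernel⟩

def k7_A00pp_022_s3 : ∃ t, chk3 f_A00pp_022_s3 t 32 30 1 = true :=
  ⟨(l 1), by decide +kernel⟩

def k8_A00pp_022_s3 : ∃ t, chk3 f_A00pp_022_s3 t 33 60 1 = true :=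
  ⟨(a (l 1) (b (l 1) (a (l 1) (b (l 1) (a (l 1) (b (a (l 1) (b (a (l 1) (l 16532624)) (a (b (l 1) (l 16539432)) (b (l 16538000) (l 16541568))))) (a (b (a (l 1) (b (l 16540856) (l 16544408))) (a (b (l 16545816) (l 16549352)) (l 16549712))) (b (a (c (l 16545768) (l 16543760)) (l 16546896)) (l 16552912))))))))), by decide +kernel⟩

def k9_A00pp_022_s3 : ∃ t, chk3 f_A00pp_022_s3 t 66 61 1 = true :=
  ⟨(b (l 1) (a (l 1) (b (a (l 1) (b (l 1) (a (l 16594776) (b (a (l 1) (b (l 16594856) (l 16598288))) (a (b (l 16599632) (l 16603064)) (l 16603440)))))) (a (b (a (l 1) (b (l 1) (a (l 1) (l 16608840)))) (a (b (l 1) (l 14)) (b (a (b (l 16611920) (l 16615368)) (l 16615728)) (l 16621592)))) (b (a (b (a (l 16604048) (b (l 16604416) (l 16607848))) (a (l 16610920) (l 16613008))) (l 16612696)) (a (l 16622296) (c (l 16626984) (l 16625904)))))))), by decide +kernel⟩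

def k10_A00pp_022_s3 : ∃ t, chk3 f_A00pp_022_s3 t 67 122 1 = true :=
  ⟨(a (b (a (l 1) (b (l 1) (a (l 1) (b (l 1) (a (l 1) (b (l 16563296) (l 16566776))))))) (a (b (l 1) (a (l 1) (b (l 16576360) (a (l 16582208) (b (l 16582584) (l 16586032)))))) (b (a (b (l 1) (a (l 1) (b (l 16572968) (l 16576432)))) (b (a (b (l 16568136) (l 16571608)) (c (l 16572824) (l 16571144))) (a (l 16576808) (l 16578912)))) (b (a (a (b (l 16577784) (l 16581240)) (l 16581616)) (l 16584760)) (a (l 16587456) (l 16591648)))))) (a (b (b (a (b (l 1) (l 16559472)) (b (a (l 16550384) (b (l 16550752) (l 16554272))) (a (b (l 16555656) (l 16559168)) (l 16559536)))) (a (b (a (l 16560176) (b (l 16560544) (l 16564032))) (a (b (l 16565408) (l 16568888)) (l 16569256))) (b (l 16565464) (l 16572424)))) (a (b (c (l 16579408) (l 16575184)) (c (l 16593120) (l 16591680))) (b (b (l 16579360) (l 16586264)) (c (l 16597280) (l 16595888))))) (a (b (c (b (l 16565368) (l 16574000)) (b (b (l 16554760) (l 16561816)) (l 16569720))) (b (b (l 16583568) (l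 16590464)) (c (l 16598816) (l 16600088)))) (b (b (c (l 16564344) (l 16559944)) (b (l 16573920) (l 16580856))) (b (c (l 16589320) (l 16590480)) (c (l 16602960) (c (l 16604600) (l 16603952)))))))), by decide +kernel⟩

def k11_A00pp_022_s3 : ∃ t, chk3 f_A00pp_022_s3 t 67 123 1 = true :=
  ⟨(a (b (a (a (b (b (a (l 1) (l 16581760)) (a (b (l 16590072) (l 16593512)) (l 16593880))) (b (l 16594464) (l 16606568))) (a (b (b (b (l 16587376) (l 16590816)) (l 16595976)) (l 16606264)) (b (l 16594632) (l 16608352)))) (b (a (c (l 16598456) (l 16597072)) (c (l 16602608) (l 16601272))) (a (c (l 16612088) (l 16610848)) (c (l 16616216) (l 16615032))))) (a (b (a (c (l 16617440) (l 16616264)) (c (l 16621568) (l 16620432))) (a (c (l 16631104) (l 16630064)) (c (l 16635208) (l 16634216)))) (b (a (c (l 16625688) (l 16624592)) (c (l 16629800) (l 16628744))) (a (c (l 16639312) (l 16638352)) (c (l 16643392) (l 16645096)))))) (b (a (b (a (c (l 16606760) (l 16605464)) (c (l 16610896) (l 16609648))) (a (c (l 16620344) (l 16619192))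 (b (l 16620504) (l 16627304)))) (b (a (b (l 16605768) (c (l 16618416) (l 16617248))) (c (l 16619144) (c (l 16618272) (l 16617696)))) (a (a (l 16627000) (c (l 16629584) (l 16628528))) (b (l 16626128) (l 16632904))))) (a (b (a (b (l 16629984) (l 16636800)) (b (l 16631480) (l 16638272))) (a (b (l 16643616) (l 16647816)) (b (l 16645080) (l 16651888)))) (b (a (b (l 16635584) (l 16642360)) (b (l 16639664) (l 16646432))) (a (b (l 16649144) (l 16655936)) (b (c (l 16656224) (l 16655424)) (c (l 16662968) (l 16662224)))))))), by decide +kernel⟩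

def k12_A00pp_022_s3 : ∃ t, chk3 f_A00pp_022_s3 t 17 240 1 = true :=
  ⟨(a (a (a (l 1) (a (b (l 1) (a (l 16482872) (b (a (l 1) (b (l 16482624) (l 16486472))) (a (b (l 16488096) (l 16491912)) (l 16492208))))) (b (a (b (a (l 1) (l 16473720)) (a (b (l 16477144) (l 16480976)) (l 16481280))) (b (a (l 16475952) (l 16478176)) (l 16484608))) (a (b (l 16487864) (l 16495512)) (l 16490872))))) (a (a (b (a (c (l 16486696) (l 16478656)) (c (l 16491120) (l 16483144))) (a (l 16495288) (l 16499712))) (b (a (c (l 16500784) (l 16487624)) (c (l 16494720) (l 16492112))) (a (c (l 16510608) (l 16508136)) (c (l 16515000) (l 16512592))))) (a (b (a (c (l 16499144) (l 16496600)) (b (l 16503824) (l 16511272))) (a (b (l 16514424) (l 16521976)) (b (l 16518848) (l 16526384)))) (b (a (b (l 16508288) (l 16515712)) (b (l 16512744) (l 16520152))) (c (a (l 16528152) (l 16532528)) (l 16528136)))))) (b (a (a (a (a (b (l 16517192) (l 16524584)) (b (l 16521640) (l 16529008))) (a (b (l 16526088) (l 16533424)) (c (l 16530024) (l 16527888))))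 (a (a (c (l 16534416) (l 16532328)) (c (l 16538792) (l 16542000))) (b (l 16540736) (l 16547952)))) (a (a (c (l 16559272) (l 16557424)) (c (l 16567904) (l 16566160))) (a (c (l 16576480) (l 16574832)) (l 16584208)))) (a (c (a (a (a (l 16536896) (l 16541264)) (a (l 16545616) (l 16549960))) (a (l 16556464) (l 16565088))) (a (a (l 16536984) (l 16545808)) (a (l 16554584) (l 16563312)))) (a (a (c (l 16573664) (l 16571992)) (l 16581392)) (a (l 16589880) (l 16598288)))))), by decide +kernel⟩

def k13_A00pp_022_s3 : ∃ t, chk3 f_A00pp_022_s3 t 17 241 1 = true :=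
  ⟨(a (a (a (a (l 1) (b (a (l 1) (b (l 1) (l 16497472))) (a (b (l 1) (c (l 16509288) (l 16512040))) (b (a (l 16503872) (b (l 16504192) (l 16507920))) (a (b (l 16509456) (l 16513152)) (l 16513480)))))) (a (b (a (b (a (l 16493216) (b (l 16493512) (l 16497296))) (a (b (l 16498880) (l 16502632)) (l 16502944))) (b (l 16498704) (l 16506232))) (c (a (l 16514256) (l 16518584)) (a (l 16511832) (l 16516216)))) (b (a (c (l 16508112) (l 16505608)) (c (l 16512472) (l 16510024))) (a (c (l 16522912) (l 16520608)) (c (l 16527240) (l 16524992)))))) (a (a (b (a (c (l 16516824) (l 16514440)) (c (l 16521184) (l 16518864))) (a (c (l 16531568) (l 16529384)) (c (l 16535896) (l 16533760)))) (b (a (c (l 16525544) (l 16523272)) (b (l 16525072) (l 16532504))) (a (b (l 16535512) (l 16542832)) (b (l 16539864) (l 16547168))))) (a (b (a (b (l 16529456) (l 16536872)) (b (l 16533840) (l 16541232))) (a (b (l 16544216) (l 16551496)) (c (l 16553160) (l 16551240)))) (b (a (c (l 16542936) (l 16540888)) (a (l 16545184) (l 16547368)))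 (a (c (l 16557456) (l 16555592)) (b (l 16557224) (l 16564440))))))) (a (a (a (b (a (c (l 16551592) (l 16549656)) (c (l 16555912) (l 16554032))) (a (c (l 16566024) (l 16564264)) (c (l 16570296) (l 16568584)))) (b (c (l 16562368) (l 16560560)) (a (c (l 16574552) (l 16572888)) (c (l 16578792) (l 16577184))))) (a (b (c (l 16570936) (l 16569232)) (c (l 16585136) (l 16583592))) (b (c (l 16579456) (l 16577848)) (a (l 16590712) (l 16594912))))) (a (a (b (c (l 16587904) (l 16586392)) (a (l 16599104) (l 16603272))) (b (l 16595584) (l 16609488))) (a (b (l 16603936) (l 16617704)) (b (l 16612208) (l 16625832)))))), by decide +kernel⟩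

def k14_A00pp_022_s3 : ∃ t, chk3 f_A00pp_022_s3 t 34 242 1 = true :=
  ⟨(a (a (a (b (a (l 1) (b (l 1) (a (l 1) (b (l 16517680) (l 16521336))))) (a (b (l 16521400) (a (l 16527568) (b (l 16527912) (l 16531528)))) (b (a (b (l 16522816) (l 16526448)) (l 16526792)) (l 16532944)))) (b (a (b (a (b (l 16512504) (l 16516184)) (l 16516512)) (c (l 16523896) (l 16521600))) (c (l 16524568) (l 16522280))) (a (c (l 16534720) (l 16532568)) (c (l 16539000) (l 16536896))))) (a (b (a (c (l 16528872) (l 16526648)) (c (l 16533176) (l 16531008))) (a (c (l 16543272) (l 16538608)) (c (l 16547552) (l 16542944)))) (b (a (c (l 16537480) (l 16535360)) (c (l 16541776) (l 16539720))) (a (c (l 16551824) (l 16547272)) (c (l 16556088) (l 16551592)))))) (a (a (b (a (c (l 16546072) (l 16544072)) (c (l 16550368) (l 16548416))) (a (c (l 16560352) (l 16555904)) (c (l 16564608) (l 16560216)))) (b (a (b (l 16550096) (l 16557296)) (c (l 16558936) (l 16557088))) (a (c (l 16568856) (l 16567136)) (c (l 16573104) (l 16571424))))) (a (b (a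 (c (l 16563208) (l 16561408)) (c (l 16567472) (l 16565728))) (a (c (l 16577328) (l 16575704)) (c (l 16581552) (l 16579976)))) (b (a (c (l 16571720) (l 16570032)) (b (l 16571592) (l 16578688))) (a (b (l 16581488) (l 16588496)) (l 16589216)))))), by decide +kernel⟩

def k15_A00pp_022_s3 : ∃ t, chk3 f_A00pp_022_s3 t 35 242 1 = true :=
  ⟨(a (a (a (b (a (b (l 16575864) (l 16582928)) (c (l 16584416) (l 16582872))) (a (l 16593424) (l 16597616))) (b (a (l 16587880) (l 16592088)) (a (l 16601792) (l 16605952)))) (a (b (a (l 16596288) (l 16600472)) (a (l 16610096) (l 16614216))) (b (a (l 16604640) (l 16608784)) (a (l 16618320) (l 16622400))))) (a (a (b (a (l 16612904) (l 16617016)) (a (l 16626456) (l 16630496))) (b (c (l 16623688) (l 16622568)) (a (l 16634512) (l 16638504)))) (a (b (l 16631200) (a (l 16642464) (l 16646408))) (b (l 16639176) (l 16652264))))), by decide +kernel⟩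

def k16_A00pp_022_s3 : ∃ t, chk3 f_A00pp_022_s3 t 17 243 1 = true :=
  ⟨(a (a (a (b (a (a (a (b (b (l 16532976) (l 16536560)) (l 16541920)) (l 16535256)) (c (l 16544720) (l 16540072))) (a (c (l 16548976) (l 16544384)) (c (l 16553224) (l 16548688)))) (a (a (c (l 16554584) (l 16550064)) (c (l 16558824) (l 16554352))) (a (b (l 16558632) (l 16565672)) (b (l 16562888) (l 16564672))))) (a (b (a (c (l 16557480) (l 16552992)) (c (l 16561728) (l 16557296))) (a (b (l 16567144) (l 16568912)) (b (l 16571392) (l 16573144)))) (b (a (c (l 16565968) (l 16561584)) (c (l 16570200) (l 16565872))) (a (b (l 16575632) (l 16577368)) (b (l 16579872) (l 16586832)))))) (a (a (b (a (c (l 16574432) (l 16570152)) (c (l 16578648) (l 16574416))) (a (c (l 16585696) (l 16586824)) (c (l 16589880) (l 16591048)))) (a (b (c (l 16582856) (l 16578680)) (c (l 16594048) (l 16595264))) (b (c (l 16587056) (l 16585544)) (c (l 16600824) (l 16599472))))) (a (b (a (c (l 16591248) (l 16589784)) (c (l 16595424) (l 16594008))) (a (c (l 16604968)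 (l 16603656)) (c (l 16609096) (l 16607832)))) (b (a (c (l 16599584) (l 16598216)) (l 16603072)) (a (c (l 16613208) (l 16611992)) (c (l 16617312) (l 16616128))))))) (a (a (a (b (a (l 16607224) (l 16611360)) (a (l 16620824) (l 16624904))) (b (a (l 16615480) (l 16619584)) (a (l 16628968) (l 16633008)))) (a (b (a (l 16623664) (l 16627728)) (a (l 16637032) (l 16641032))) (b (a (l 16631768) (l 16635784)) (a (l 16645000) (l 16648952))))) (a (a (b (a (l 16639776) (l 16643744)) (a (l 16652880) (l 16656776))) (b (a (l 16647688) (l 16651608)) (a (l 16660648) (l 16664496)))) (a (b (a (l 16655504) (l 16659360)) (a (l 16668312) (l 16672096))) (b (a (l 16663200) (l 16667000)) (a (l 16675848) (l 16679576))))))), by decide +kernel⟩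

def k17_A00pp_022_s3 : ∃ t, chk3 f_A00pp_022_s3 t 68 122 1 = true :=
  ⟨(a (b (a (b (a (b (l 16564192) (l 16571184)) (b (l 16568432) (l 16570168))) (a (b (l 16578144) (l 16579824)) (b (l 16577112) (c (l 16590000) (l 16588528))))) (b (a (b (l 16567432) (l 16574392)) (b (l 16571656) (c (l 16584616) (l 16583080)))) (a (c (l 16588128) (l 16589280)) (b (c (l 16591496) (l 16590032)) (c (l 16598336) (l 16596952)))))) (a (b (a (c (l 16593480) (l 16594696)) (b (c (l 16596848) (l 16595448)) (c (l 16603664) (l 16602336)))) (a (c (l 16609720) (c (l 16608776) (l 16608144))) (c (l 16613848) (c (l 16612936) (l 16612328))))) (b (a (a (c (l 16603368) (l 16602040)) (c (l 16605440) (l 16604136))) (c (l 16608544) (c (l 16607592) (l 16606952)))) (a (c (l 16617960) (a (l 16615752) (l 16617832))) (b (c (l 16618696) (l 16617528)) (l 16622264)))))) (b (a (b (a (b (l 16575880) (c (l 16588800) (l 16587312))) (c (l 16586920) (l 16588064))) (a (b (c (l 16595664) (l 16594248)) (c (l 16602488) (l 16601152))) (b (c (l 16599816)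 (l 16598456)) (c (l 16606624) (l 16605336))))) (b (a (b (l 16584304) (c (l 16597144) (l 16595744))) (b (l 16588504) (c (l 16601296) (l 16599952)))) (a (b (c (l 16603968) (l 16602648)) (c (l 16610760) (l 16609512))) (c (l 16611496) (c (l 16610560) (l 16609944)))))) (a (b (c (a (l 16612672) (l 16616784)) (a (c (l 16611752) (l 16611136)) (c (l 16615896) (l 16615304)))) (a (b (c (l 16622792) (l 16621672)) (l 16626368)) (b (l 16623720) (l 16630448)))) (b (a (c (l 16620888) (c (l 16620032) (l 16619456))) (c (l 16624968) (c (l 16624144) (l 16623600)))) (a (b (l 16627808) (l 16634520)) (c (l 16638336) (c (l 16637616) (l 16637128)))))))), by decide +kernel⟩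

def k18_A00pp_022_s3 : ∃ t, chk3 f_A00pp_022_s3 t 69 122 1 = true :=
  ⟨(a (b (a (a (b (c (l 16599416) (l 16600696)) (c (l 16615608) (l 16614408))) (b (c (l 16603552) (l 16604880)) (c (l 16619704) (l 16618552)))) (b (a (c (l 16610304) (l 16609048)) (c (l 16614416) (l 16613208))) (a (c (l 16623784) (l 16622680)) (c (l 16627856) (l 16626784))))) (a (b (a (c (l 16629040) (c (l 16628248) (l 16627720))) (b (l 16623992) (l 16630688))) (a (c (l 16642368) (c (l 16641672) (l 16641208))) (b (l 16637360) (l 16644008)))) (b (a (c (l 16637136) (l 16636160)) (c (l 16641152) (l 16640216))) (a (b (l 16646624) (l 16653248)) (c (l 16654336) (l 16653520)))))) (b (a (b (a (c (l 16618512) (l 16617352)) (c (l 16622600) (l 16621472))) (a (c (l 16631904) (l 16630872)) (c (l 16635936) (l 16634944)))) (b (a (c (l 16626664) (l 16625576)) (c (l 16630704) (l 16629664))) (a (c (l 16639944) (l 16639000)) (c (l 16643936) (l 16643024))))) (a (b (a (c (l 16645152) (l 16644256)) (c (l 16649136) (l 16648272))) (a (c (l 16658280) (l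 16657504)) (b (l 16658560) (l 16665104)))) (b (a (b (l 16649392) (l 16655960)) (b (l 16653360) (l 16659896))) (a (b (l 16662496) (l 16669008)) (b (l 16666408) (l 16672888))))))), by decide +kernel⟩

def k19_A00pp_022_s3 : ∃ t, chk3 f_A00pp_022_s3 t 35 122 1 = true :=
  ⟨(a (a (a (b (b (a (c (l 16634736) (l 16633728)) (l 16638256)) (a (b (l 16644176) (l 16650760)) (b (l 16648160) (l 16654712)))) (b (a (b (l 16657304) (l 16663816)) (b (l 16661224) (l 16667704))) (a (b (l 16670296) (l 16676744)) (b (l 16674152) (l 16680568))))) (b (b (a (l 16642264) (l 16646240)) (b (l 16654088) (l 16660592))) (b (a (b (l 16665120) (l 16671568)) (b (l 16668992) (l 16675408))) (a (b (l 16677984) (l 16684368)) (b (l 16681792) (l 16688144)))))) (b (a (b (a (l 16650200) (l 16654136)) (a (l 16663200) (l 16667064))) (b (a (l 16658048) (l 16661928)) (a (l 16670904) (l 16674720)))) (a (b (a (b (l 16672840) (l 16679224)) (b (l 16676656) (l 16683000))) (a (b (l 16685568) (l 16691880)) (b (l 16689312) (l 16695592)))) (b (b (l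 16682328) (a (l 16686752) (l 16690480))) (a (b (l 16693032) (l 16699272)) (b (l 16696720) (l 16702920))))))) (a (b (a (b (a (l 16665784) (l 16669608)) (a (l 16678504) (l 16682256))) (b (a (l 16673408) (l 16677176)) (a (l 16685976) (l 16689664)))) (a (b (b (l 16689784) (a (l 16694168) (l 16697824))) (b (a (l 16700368) (l 16703992)) (a (l 16706536) (l 16710120)))) (b (b (a (l 16695288) (l 16698920)) (a (l 16701448) (l 16705040))) (b (a (l 16707576) (l 16711128)) (a (l 16713664) (l 16717176)))))) (b (a (b (a (l 16680912) (l 16684624)) (b (l 16692064) (l 16698208))) (b (a (l 16688296) (l 16691936)) (b (l 16699288) (l 16705344)))) (a (b (b (a (l 16702520) (l 16706080)) (a (l 16708600) (l 16712120))) (b (a (l 16714640) (l 16718120)) (a (l 16720648) (l 16724080)))) (a (b (c (l 16712784) (l 16712440)) (b (l 16721560) (l 16727480))) (b (b (l 16713104) (l 16719056)) (b (l 16724968) (l 16730840)))))))), by decide +kernel⟩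

def k20_A00pp_022_s3 : ∃ t, chk3 f_A00pp_022_s3 t 68 123 1 = true :=
  ⟨(a (b (a (b (a (b (c (l 16619872) (l 16618720)) (l 16623464)) (b (c (l 16623976) (l 16622872)) (l 16627568))) (a (b (l 16630232) (l 16636992)) (b (l 16634328) (c (l 16644144) (l 16643232))))) (b (a (b (l 16624912) (c (l 16634784) (l 16633784))) (b (c (l 16632144) (l 16631120)) (c (l 16638848) (l 16637888)))) (a (b (c (l 16641488) (l 16640552)) (c (l 16648176) (l 16647304))) (b (c (l 16645528) (l 16644632)) (c (l 16652200) (l 16651368)))))) (a (b (a (b (c (l 16646800) (l 16645920)) (c (l 16653520) (l 16652696))) (b (c (l 16650840) (l 16649992)) (c (l 16657536) (l 16656752)))) (a (b (c (l 16660240) (l 16659472)) (c (l 16666968) (l 16666256))) (b (c (l 16664240) (l 16663512)) (l 16670608)))) (b (a (b (c (l 16654856) (l 16654048)) (c (l 16661536) (l 16660784))) (b (c (l 16658856) (l 16658088)) (c (l 16665520) (l 16664800)))) (a (b (c (l 16668216) (l 16667528)) (l 16674584)) (b (l 16671848) (l 16678544)))))) (b (a (b (a (b (c (l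 16636208) (l 16635224)) (c (l 16642888) (l 16641968))) (b (l 16637160) (c (l 16646920) (l 16646032)))) (a (b (c (l 16649552) (l 16648696)) (c (l 16656200) (l 16655408))) (b (c (l 16653560) (l 16652736)) (c (l 16660192) (l 16659424))))) (b (a (b (l 16641208) (l 16647880)) (b (c (l 16648296) (l 16647432)) (c (l 16654912) (l 16654104)))) (a (b (l 16654536) (l 16661168)) (b (c (l 16661512) (l 16660760)) (c (l 16668096) (l 16667408)))))) (a (b (a (b (c (l 16662840) (l 16662104)) (l 16669136)) (b (c (l 16666808) (l 16666104)) (l 16673096))) (a (b (l 16675808) (l 16682472)) (b (l 16679736) (l 16686384)))) (b (a (b (l 16670416) (l 16677032)) (b (l 16674352) (l 16680944))) (a (b (l 16683648) (l 16690272)) (b (l 16687536) (l 16694128))))))), by decide +kernel⟩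

def k21_A00pp_022_s3 : ∃ t, chk3 f_A00pp_022_s3 t 69 123 1 = true :=
  ⟨(a (b (a (b (a (c (l 16655592) (b (l 16651456) (l 16658112))) (b (l 16650624) (l 16657224))) (a (b (c (l 16665464) (l 16664744)) (l 16671688)) (b (l 16663800) (l 16675608)))) (b (a (b (l 16659840) (l 16666408)) (b (l 16663784) (l 16670336))) (a (b (l 16672960) (l 16679496)) (b (l 16676856) (l 16683360))))) (a (b (a (b (l 16678264) (l 16684832)) (b (l 16682152) (l 16688688))) (a (b (l 16691392) (l 16697960)) (b (l 16695232) (l 16701768)))) (b (a (b (l 16686016) (l 16692528)) (b (l 16689856) (l 16696336))) (a (b (l 16699040) (l 16705544)) (b (l 16702816) (l 16709296)))))) (b (a (b (a (b (l 16667712) (l 16674232)) (b (l 16671616) (l 16678104))) (a (b (l 16680728) (l 16687200)) (b (l 16684568) (l 16691016)))) (b (a (b (l 16675488) (l 16681952)) (b (l 16679344) (l 16685768))) (a (b (l 16688384) (l 16694800)) (b (l 16692176) (l 16698560))))) (a (b (a (b (l 16693664) (l 16700112)) (b (l 16697448) (l 16703864))) (a (b (l 16706568) (l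 16713016)) (b (l 16710288) (l 16716704)))) (b (a (b (l 16701200) (l 16707592)) (b (l 16704920) (l 16711280))) (a (b (l 16713976) (l 16720360)) (b (l 16717632) (c (l 16724112) (l 16723840)))))))), by decide +kernel⟩

def k22_A00pp_022_s3 : ∃ t, chk3 f_A00pp_022_s3 t 70 123 1 = true :=
  ⟨(a (b (a (b (a (b (l 16683160) (l 16689560)) (b (l 16686960) (l 16693320))) (a (b (l 16695928) (l 16702280)) (b (l 16699664) (l 16705976)))) (b (a (b (l 16690728) (l 16697056)) (b (l 16694464) (l 16700760))) (a (b (l 16703360) (l 16709640)) (b (l 16707024) (l 16713272))))) (a (b (a (b (l 16708616) (l 16714936)) (b (l 16712280) (l 16718568))) (a (b (l 16721256) (c (l 16727696) (l 16727440))) (b (c (l 16724976) (l 16724712)) (c (l 16731240) (l 16731008))))) (b (a (b (l 16715904) (l 16722160)) (b (l 16719504) (c (l 16725848) (l 16725584)))) (b (a (c (l 16728520) (l 16728280)) (c (l 16732032) (l 16731808))) (a (c (l 16734744) (l 16734536)) (b (l 16736576) (l 16739672))))))) (b (a (b (a (b (l 16698168) (l 16704432)) (b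 (l 16701848) (l 16708064))) (a (b (l 16710664) (l 16716872)) (b (l 16714264) (l 16720432)))) (b (b (a (l 16705488) (l 16709096)) (a (l 16711672) (l 16715240))) (b (a (l 16717832) (l 16721360)) (a (l 16723960) (l 16727456))))) (a (b (b (a (l 16723064) (l 16726584)) (a (c (l 16729360) (l 16729120)) (c (l 16732832) (l 16732616)))) (b (a (c (l 16735504) (l 16735304)) (b (l 16737320) (l 16740384))) (a (b (l 16740032) (l 16743112)) (b (l 16743448) (c (l 16746576) (l 16746440)))))) (b (b (a (c (l 16730192) (l 16729960)) (c (l 16733632) (l 16733424))) (a (c (l 16736272) (l 16736072)) (b (l 16738072) (l 16741096)))) (b (a (b (l 16740744) (l 16743784)) (b (l 16744120) (c (l 16747208) (l 16747072)))) (a (a (c (l 16747576) (l 16747440)) (b (l 16747664) (l 16750696))) (a (b (l 16749336) (l 16752352)) (b (l 16750992) (l 16754008))))))))), by decide +kernel⟩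

def k23_A00pp_022_s3 : ∃ t, chk3 f_A00pp_022_s3 t 142 123 1 = true :=
  ⟨(b (a (b (b (a (l 16712672) (l 16716216)) (a (l 16718776) (l 16722280))) (b (a (l 16724856) (l 16728320)) (a (c (l 16731024) (l 16730800)) (c (l 16734432) (l 16734224))))) (b (b (a (l 16719720) (l 16723184)) (a (l 16725744) (l 16729168))) (c (a (b (l 16731848) (l 16737800)) (b (l 16735224) (l 16741128))) (b (a (l 16731632) (l 16735024)) (a (l 16737616) (l 16740968)))))) (a (a (b (b (c (l 16737040) (l 16736848)) (b (l 16741456) (l 16744464))) (b (a (c (l 16748200) (l 16748072)) (b (l 16748288) (l 16751288))) (a (b (l 16752640) (l 16755640)) (l 524176399)))) (b (b (b (l 16738824) (l 16741816)) (b (l 16744800) (c (l 16747848) (l 16747720)))) (b (a (b (l 16749944) (l 16752928)) (l 524253199)) (a (l 524219407) (l 524262927))))) (a (b (b (b (l 16742168) (l 16745136)) (a (c (l 16748824) (l 16748704)) (l 524328463))) (b (a (l 524296463) (l 524340239)) (a (l 524306703) (l 524350991)))) (b (b (b (l 16745480) (c (l 16748488) (l 16748360)))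 (a (l 524371983) (l 524415759))) (b (a (l 524384015) (l 524428303)) (a (l 524395279) (l 524439823))))))), by decide +kernel⟩

def k24_A00pp_022_s3 : ∃ t, chk3 f_A00pp_022_s3 t 143 123 1 = true :=
  ⟨(b (a (a (b (b (l 16726616) (l 16732560)) (b (c (l 16738560) (l 16738376)) (b (l 16742880) (l 16745816)))) (b (b (l 16730008) (c (l 16736000) (l 16735808))) (b (a (l 16740944) (l 16742592)) (b (l 16746152) (c (l 16749120) (l 16749000)))))) (a (b (b (l 16733360) (c (l 16739304) (l 16739128))) (a (b (l 16744224) (l 524604687)) (b (l 16745840) (l 524649231)))) (a (b (b (l 16735848) (l 16741664)) (b (l 524670223) (l 524694031))) (b (b (l 16737496) (l 16743288)) (b (l 524714767) (l 524738831)))))) (a (a (b (b (a (l 524445711) (l 524489487)) (a (l 524459791) (l 524504079))) (b (a (l 524472591) (l 524517391)) (a (l 524484879) (l 524529935)))) (b (b (a (l 524533775) (l 524578063)) (a (l 524548623) (l 524593423))) (b (a (l 524562447) (l 524607759)) (a (l 524575503) (l 524621071))))) (a (b (b (c (l 524670479) (l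 524619535)) (a (l 524638479) (l 524684047))) (b (c (l 524699663) (l 524652559)) (c (l 524712719) (l 524667407)))) (b (b (c (l 524760335) (l 524710927)) (c (l 524776207) (l 524728591))) (b (c (l 524791055) (l 524745487)) (l 524783119)))))), by decide +kernel⟩

def k25_A00pp_022_s3 : ∃ t, chk3 f_A00pp_022_s3 t 32 62 1 = true :=
  ⟨(l 14), by decide +kernel⟩

def k26_A00pp_022_s3 : ∃ t, chk3 f_A00pp_022_s3 t 66 124 1 = true :=
  ⟨(a (l 14) (a (a (l 14) (b (b (c (l 16632488) (l 16631456)) (c (l 16646320) (l 16645416))) (a (b (l 16658816) (l 16675504)) (b (l 16660864) (l 16677544))))) (b (b (a (c (l 16636608) (l 16635616)) (c (l 16640712) (l 16639768))) (a (c (l 16650416) (l 16649560)) (c (l 16654504) (l 16656304)))) (b (a (c (l 16664304) (l 16666192)) (b (l 16664536) (l 16671520))) (a (b (l 16674456) (l 16681496)) (b (l 16678520) (l 16685552))))))), by decide +kernel⟩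

def k27_A00pp_022_s3 : ∃ t, chk3 f_A00pp_022_s3 t 67 124 1 = true :=
  ⟨(a (b (a (b (a (c (l 16644816) (l 16643904)) (c (l 16648896) (l 16650648))) (a (c (l 16658584) (l 16660424)) (b (l 16658816) (l 16665728)))) (b (a (b (l 16649120) (l 16655992)) (b (l 16653208) (l 16657440))) (a (b (l 16662880) (l 16669784)) (b (l 16666936) (l 16673824))))) (a (b (a (b (l 16668608) (l 16675576)) (b (l 16672664) (l 16679624))) (a (b (l 16682568) (l 16689584)) (b (l 16686600) (l 16693592)))) (b (a (b (l 16676704) (l 16683648)) (b (l 16680728) (l 16687648))) (a (b (l 16690600) (c (l 16697816) (l 16697352))) (b (c (l 16694832) (l 16694344)) (c (l 16701768) (l 16701336))))))) (b (a (b (a (b (l 16654648) (l 16661496)) (b (l 16658704) (l 16668152))) (a (b (l 16670976) (l 16677848)) (b (l 16674992) (l 16681848)))) (b (a (b (c (l 16665720) (l 16665000)) (l 16672168)) (b (l 16669376) (l 16676168))) (a (b (l 16678992) (l 16685824)) (b (l 16682968) (c (l 16690040) (l 16689520)))))) (a (b (a (b (l 16684728) (c (l 16691888)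 (l 16691384))) (b (c (l 16688976) (l 16688448)) (c (l 16695832) (l 16695360)))) (a (b (c (l 16698784) (l 16698328)) (c (l 16705704) (l 16705296))) (b (c (l 16702712) (l 16702288)) (b (l 16707688) (l 16711152))))) (b (a (b (c (l 16692920) (l 16692424)) (c (l 16699760) (l 16699312))) (b (c (l 16696840) (l 16696376)) (c (l 16703664) (l 16703240)))) (a (b (c (l 16706616) (l 16706216)) (b (l 16711592) (l 16715048))) (b (c (l 16710496) (l 16710128)) (b (l 16715464) (l 16718912)))))))), by decide +kernel⟩

def k28_A00pp_022_s3 : ∃ t, chk3 f_A00pp_022_s3 t 66 250 1 = true :=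
  ⟨(a (l 14) (a (a (l 14) (b (b (l 16684512) (l 16691624)) (b (l 16698760) (c (l 16706136) (l 16705720))))) (b (a (b (l 16688568) (l 16695664)) (b (l 16692600) (c (l 16699912) (l 16699456)))) (a (b (c (l 16703000) (l 16702568)) (c (l 16710128) (l 16709752))) (b (c (l 16706992) (l 16706592)) (a (l 16712936) (l 16714920))))))), by decide +kernel⟩

def k29_A00pp_022_s3 : ∃ t, chk3 f_A00pp_022_s3 t 67 250 1 = true :=
  ⟨(a (a (b (a (b (l 16696616) (c (l 16703896) (l 16703472))) (b (c (l 16700832) (l 16700392)) (c (l 16707856) (l 16707464)))) (a (b (c (l 16710960) (l 16710584)) (a (l 16716904) (l 16718880))) (b (a (l 16713744) (l 16715720)) (b (l 16720056) (c (l 16723760) (l 16723472)))))) (b (a (b (c (l 16704792) (l 16704376)) (a (l 16710624) (l 16712600))) (b (c (l 16708728) (l 16708344)) (a (l 16714560) (l 16716520)))) (a (b (b (l 16716904) (l 16720432)) (a (b (l 16723000) (l 16726552)) (b (l 16724952) (l 16728496)))) (b (b (l 16720816) (a (l 16723368) (l 16725312))) (b (a (l 16726896) (l 16728840))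 (a (l 16730440) (l 16732376))))))) (a (b (a (b (b (l 16710720) (l 16714208)) (b (l 16717696) (l 16721200))) (b (b (l 16714624) (l 16718104)) (b (l 16721584) (c (l 16725208) (l 16724936))))) (a (b (b (a (l 16723736) (l 16725672)) (a (l 16727248) (l 16729184))) (a (b (l 16730776) (l 16734304)) (b (l 16732696) (l 16736224)))) (b (a (b (l 16727608) (l 16731112)) (b (l 16729528) (l 16733024))) (a (b (l 16734616) (l 16738136)) (b (l 16736528) (l 16740040)))))) (b (a (b (b (l 16718504) (l 16721968)) (a (b (l 16724480) (l 16727960)) (b (l 16726400) (l 16729872)))) (b (b (l 16722360) (c (l 16725944) (l 16725680))) (b (a (l 16728320) (l 16730224)) (a (l 16731784) (l 16733688))))) (a (b (b (a (l 16731448) (l 16733352)) (a (l 16734936) (l 16736840))) (b (a (l 16738440) (l 16740336)) (a (l 16741944) (l 16743832)))) (b (b (a (l 16735256) (l 16737152)) (a (l 16738736) (l 16740624))) (b (a (l 16742224) (l 16744104)) (a (l 16745720) (c (l 16747664) (l 16747520))))))))), by decide +kernel⟩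

def k30_A00pp_022_s3 : ∃ t, chk3 f_A00pp_022_s3 t 66 251 1 = true :=
  ⟨(a (l 14) (a (a (l 14) (b (b (c (l 16713312) (l 16712952)) (a (l 16719368) (l 16721368))) (b (b (l 16725816) (c (l 16729592) (l 16729336))) (a (b (l 16732128) (l 16735792)) (b (l 16734104) (l 16737768)))))) (b (a (b (a (l 16716128) (l 16718120)) (b (l 16722536) (l 16726152))) (b (a (l 16720104) (l 16722088)) (a (c (l 16727448) (l 16727176)) (c (l 16729408) (l 16729152))))) (a (b (a (c (l 16730736) (l 16730488)) (b (l 16730768) (l 16734408))) (a (b (l 16736080) (l 16739736)) (b (l 16738048) (l 16741704)))) (b (a (b (l 16732736) (l 16736368)) (b (l 16734704) (l 16738328))) (a (b (l 16740008) (l 16743656)) (b (l 16741960) (c (l 16745688) (l 16745528))))))))), by decide +kernel⟩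

def k31_A00pp_022_s3 : ∃ t, chk3 f_A00pp_022_s3 t 268 251 1 = true :=
  ⟨(b (a (b (b (l 16723256) (c (l 16726968) (l 16726704))) (a (b (l 16729448) (l 16733048)) (b (l 16731408) (l 16735000)))) (b (a (b (l 16726200) (l 16729776)) (b (l 16728160) (l 16731728))) (a (b (l 16733360) (l 16736952)) (b (l 16735304) (l 16738896))))) (a (b (a (b (l 16736656) (l 16740280)) (b (l 16738608) (l 16742224))) (a (b (l 16743904) (c (l 16747616) (l 16747472))) (b (c (l 16745928) (l 16745768)) (c (l 16749552) (l 16749408))))) (b (b (a (l 16740552) (l 16742488)) (a (c (l 16744248) (l 16744080)) (c (l 16746168) (l 16746016)))) (b (a (c (l 16747856) (l 16747704)) (c (l 16749776) (l 16749640))) (a (a (l 16750928) (l 16751888)) (b (l 16752416) (l 16754232))))))), by decide +kernel⟩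

def k32_A00pp_022_s3 : ∃ t, chk3 f_A00pp_022_s3 t 269 251 1 = true :=
  ⟨(b (a (b (a (b (l 16730104) (l 16733672)) (b (l 16732048) (l 16735608))) (b (a (l 16737248) (l 16739176)) (a (l 16740824) (l 16742752)))) (b (b (a (l 16733984) (l 16735912)) (a (l 16737544) (l 16739464))) (a (b (l 16741104) (c (l 16744752) (l 16744592))) (b (l 16743024) (c (l 16746664) (l 16746512)))))) (a (b (a (b (c (l 16744496) (l 16744336)) (c (l 16748088) (l 16747944))) (b (c (l 16746416) (l 16746264)) (b (l 16749032) (l 16750832)))) (a (b (b (l 16750720) (l 16752528)) (b (l 16754336) (c (l 16756192) (l 16756088)))) (b (b (l 16752632) (c (l 16754488) (l 16754376))) (a (b (l 16755760) (l 16757568)) (b (l 16756712) (l 16758520)))))) (b (a (b (c (l 16748320) (l 16748184)) (b (l 16750944) (l 16752736))) (b (a (l 16749680) (l 16750632)) (b (l 16752840) (l 16754632)))) (b (a (b (l 16754536) (c (l 16756384) (l 16756280))) (a (b (l 16755960) (l 16757752)) (b (l 16756904) (l 16758696)))) (a (a (b (l 16757664) (l 16759464)) (b (l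 16758608) (l 16760416))) (a (b (l 16759552) (l 16761352)) (b (l 16760496) (l 521761551)))))))), by decide +kernel⟩

def k33_A00pp_022_s3 : ∃ t, chk3 f_A00pp_022_s3 t 270 251 1 = true :=
  ⟨(b (a (b (a (b (l 16737840) (l 16741384)) (b (l 16739752) (l 16743288))) (b (a (c (l 16745016) (l 16744848)) (c (l 16746912) (l 16746760))) (a (c (l 16748560) (l 16748424)) (c (l 16750456) (l 16750320))))) (b (b (a (l 16741664) (l 16743560)) (a (c (l 16745272) (l 16745112)) (c (l 16747160) (l 16747016)))) (b (a (c (l 16748800) (l 16748664)) (c (l 16750680) (l 16750552))) (a (a (l 16751808) (l 16752752)) (b (l 16753272) (l 16755048)))))) (a (b (b (a (b (l 16751168) (l 16752952)) (b (l 16753056) (l 16754840))) (a (b (l 16754736) (a (l 16756056) (l 16757000))) (a (b (l 16756152) (l 16757936)) (b (l 16757096) (l 16758880))))) (b (a (a (b (l 16757848) (l 16759640)) (b (l 16758792) (l 16760584))) (a (b (l 16759728) (l 16761520)) (b (l 16760664) (l 16762456)))) (a (a (b (l 16761440) (l 521777935)) (b (l 16762376) (l 521794575)))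 (a (b (l 521819663) (l 521811215)) (b (l 521836303) (l 521827855)))))) (a (b (b (b (l 16754944) (c (l 16756768) (l 16756672))) (a (b (l 16758032) (l 16759816)) (b (l 16758968) (l 16760752)))) (b (a (b (l 16761600) (l 521861647)) (b (l 16762536) (l 521878287))) (a (b (l 521853199) (l 521844495)) (b (l 521869839) (l 521861391))))) (b (b (a (c (l 16757288) (l 16757192)) (b (l 16757288) (l 16759064))) (a (b (l 16759904) (l 16761688)) (b (l 16760840) (l 16762616)))) (b (a (b (l 521903375) (l 521895183)) (b (l 521920271) (l 521912079))) (a (b (l 521886735) (l 521878287)) (b (l 521903631) (l 521895439)))))))), by decide +kernel⟩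

def k34_A00pp_022_s3 : ∃ t, chk3 f_A00pp_022_s3 t 271 251 1 = true :=
  ⟨(b (a (b (b (a (l 16745456) (c (l 16747408) (l 16747264))) (a (c (l 16749040) (l 16748904)) (c (l 16750912) (l 16750784)))) (a (b (a (l 16752032) (l 16752968)) (b (l 16755144) (c (l 16756968) (l 16756872)))) (b (b (l 16753488) (l 16755248)) (a (c (l 16757480) (l 16757384)) (b (l 16757480) (l 16759248)))))) (a (b (b (c (l 16749280) (l 16749152)) (a (l 16752256) (l 16753192))) (b (b (l 16755352) (c (l 16757160) (l 16757064))) (a (b (l 16758408) (l 16760176)) (b (l 16759336) (l 16761096))))) (b (b (c (l 16751144) (l 16751024)) (b (l 16753712) (l 16755456))) (b (a (c (l 16757672) (l 16757584)) (b (l 16757680) (l 16759432))) (a (b (l 16760264) (l 16762024)) (b (l 16761184) (l 16762944))))))) (a (b (a (b (a (b (l 16758224) (l 16759992)) (b (l 16759152) (l 16760928))) (a (b (l 16761768) (l 521945103)) (b (l 16762696) (l 521962255)))) (b (a (b (l 16760080) (l 16761856)) (b (l 16761008) (l 16762776))) (a (b (l 521987087) (l 521979151))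 (b (l 522003983) (l 521996303))))) (a (b (a (b (l 521937167) (l 521928975)) (b (l 521954063) (l 521946127))) (a (b (l 521920783) (l 521912591)) (b (l 521937935) (l 521929743)))) (b (a (b (l 521971215) (l 521963279)) (b (l 521988367) (l 521980431))) (a (b (l 521955087) (l 521947151)) (l 521968399))))) (b (a (b (a (b (l 16761936) (l 522028815)) (b (l 16762864) (l 522045967))) (a (b (l 522021135) (l 522013455)) (b (l 522038543) (l 522030863)))) (b (a (b (l 522070799) (l 522063375)) (b (l 522087951) (l 522080527))) (a (l 522051855) (l 522069263)))) (a (b (a (b (l 522005775) (l 521997839)) (l 522019087)) (a (l 521985807) (l 522003215))) (b (a (l 522036495) (l 522054159)) (a (l 522020879) (l 522038543))))))), by decide +kernel⟩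

def k35_A00pp_022_s3 : ∃ t, chk3 f_A00pp_022_s3 t 136 124 1 = true :=
  ⟨(b (a (b (a (b (l 16673376) (l 16680144)) (b (l 16677352) (l 16684104))) (a (b (l 16686928) (c (l 16693960) (l 16693472))) (b (c (l 16691112) (l 16690608)) (c (l 16697856) (l 16697400))))) (b (a (b (l 16681304) (l 16688032)) (b (l 16685240) (l 16691944))) (a (b (c (l 16695008) (l 16694528)) (c (l 16701728) (l 16701304))) (b (c (l 16698880) (l 16698432)) (c (l 16705576) (l 16705176)))))) (a (b (a (b (c (l 16700744) (l 16700304)) (c (l 16707536) (l 16707144))) (b (c (l 16704616) (l 16704208)) (c (l 16711392) (l 16711024)))) (a (b (b (l 16712472) (l 16715888)) (b (l 16719320) (l 16722752))) (b (b (l 16716312) (l 16719728)) (b (l 16723136) (l 16726560))))) (b (a (b (c (l 16708464) (l 16708080)) (c (l 16715216) (l 16714880))) (b (c (l 16712288) (l 16711936)) (c (l 16719016) (l 16718704)))) (b (a (b (l 16720136) (l 16723528)) (b (l 16723928) (l 16727312))) (a (b (l 16726936) (l 16730336)) (b (l 16730696) (c (l 16734200) (l 16733984)))))))),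 by decide +kernel⟩

def k36_A00pp_022_s3 : ∃ t, chk3 f_A00pp_022_s3 t 137 124 1 = true :=
  ⟨(b (a (b (a (b (l 16689152) (l 16695832)) (b (l 16693032) (l 16699688))) (a (b (c (l 16702728) (l 16702304)) (c (l 16709400) (l 16709024))) (b (c (l 16706544) (l 16706152)) (c (l 16713192) (l 16712848))))) (b (a (b (l 16696896) (l 16703520)) (b (l 16700728) (l 16707328))) (a (b (c (l 16710336) (l 16709968)) (c (l 16716960) (l 16716640))) (b (c (l 16714104) (l 16713760)) (c (l 16720696) (l 16720400)))))) (a (b (a (b (c (l 16716088) (l 16715752)) (b (l 16720960) (l 16724320))) (b (c (l 16719848) (l 16719544)) (b (l 16724720) (l 16728064)))) (a (b (b (l 16727688) (l 16731056)) (a (c (l 16735296) (l 16735088)) (c (l 16737144) (l 16736944)))) (b (b (l 16731416) (c (l 16734880) (l 16734664))) (a (c (l 16738984) (l 16738800)) (b (l 16739056) (l 16742416)))))) (b (b (a (c (l 16723592) (l 16723312)) (b (l 16725512) (l 16728824))) (a (b (l 16728448) (l 16731784)) (b (l 16732144) (l 16735464)))) (b (a (b (l 16735120)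 (c (l 16738552) (l 16738360))) (a (c (l 16739624) (l 16739440)) (c (l 16741440) (l 16741272)))) (a (a (b (l 16740888) (l 16744240)) (b (l 16742712) (l 16746056))) (a (b (l 16744536) (l 16747872)) (b (l 16746344) (l 16749672)))))))), by decide +kernel⟩

def k37_A00pp_022_s3 : ∃ t, chk3 f_A00pp_022_s3 t 136 250 1 = true :=
  ⟨(a (b (a (b (b (l 16726184) (c (l 16729752) (l 16729504))) (b (c (l 16733184) (l 16732960)) (a (l 16735584) (l 16737464)))) (b (b (c (l 16730104) (l 16729856)) (c (l 16733520) (l 16733296))) (a (b (l 16735904) (l 16739344)) (b (l 16737784) (l 16741216))))) (a (a (b (b (l 16739040) (l 16742512)) (b (l 16745984) (c (l 16749528) (l 16749392)))) (b (b (l 16740920) (l 16744384)) (b (c (l 16747920) (l 16747776)) (c (l 16751384) (l 16751256))))) (b (a (b (l 16742792) (l 16746248)) (b (l 16744656) (l 16748104))) (a (b (c (l 16749776) (l 16749640)) (c (l 16753232) (l 16753112))) (b (c (l 16751616) (l 16751496)) (a (l 16754552) (l 16755472))))))) (b (a (b (a (c (l 16734624) (l 16734408))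 (c (l 16736496) (l 16736288))) (a (b (l 16739648) (l 16743080)) (b (l 16741512) (l 16744936)))) (b (a (b (l 16736552) (l 16739960)) (b (l 16738416) (l 16741816))) (a (b (l 16743368) (l 16746784)) (b (l 16745216) (l 16748624))))) (a (b (a (b (l 16746512) (c (l 16750016) (l 16749888))) (b (l 16748360) (c (l 16751856) (l 16751736)))) (a (b (c (l 16753456) (l 16753344)) (b (l 16755984) (l 16757712))) (a (b (l 16754776) (l 522344207)) (b (l 16755688) (l 522361871))))) (a (b (b (c (l 16750264) (l 16750136)) (c (l 16753680) (l 16753576))) (b (b (l 16756200) (l 16757920)) (a (l 522379535) (l 522397455)))) (b (b (c (l 16752096) (l 16751976)) (a (l 16755000) (l 16755904))) (b (b (l 16758016) (l 522433039)) (a (l 522415375) (l 522433295)))))))), by decide +kernel⟩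

def k38_A00pp_022_s3 : ∃ t, chk3 f_A00pp_022_s3 t 272 251 1 = true :=
  ⟨(b (a (b (a (b (c (l 16753000) (l 16752888)) (b (l 16755568) (c (l 16757360) (l 16757264)))) (b (b (l 16753928) (l 16755672)) (a (c (l 16757872) (l 16757776)) (c (l 16758784) (l 16758704))))) (a (b (a (b (l 16758600) (l 16760352)) (b (l 16759520) (l 16761272))) (a (b (l 16762104) (l 522112783)) (l 522133519))) (b (a (l 522165007) (l 522182415)) (a (l 522150927) (l 522168591))))) (b (a (b (b (l 16755776) (l 16757512)) (a (l 522213647) (l 522231055))) (a (b (l 522261519) (l 522248463)) (b (l 522278927) (l 522266127)))) (a (b (a (l 522199823) (l 522217487)) (a (l 522185999) (l 522203663))) (b (a (l 522235151) (l 522252815)) (a (l 522221583) (l 522239247)))))) (b (a (a (b (a (l 522101775) (l 522119183)) (a (l 522086671) (l 522104335))) (b (a (l 522136591) (l 522154255)) (a (l 522121999) (l 522139919)))) (a (b (a (l 522171919) (l 522189839)) (a (l 522157583) (l 522175503))) (b (a (l 522207759) (l 522225679)) (a (l 522193423) (l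 522211599))))) (b (a (a (a (l 522071567) (l 522089487)) (a (l 522107151) (l 522125071))) (a (a (l 522142991) (l 522160911)) (a (l 522179087) (l 4)))) (a (a (a (l 522056207) (l 522074127)) (a (l 522092047) (l 4))) (l 4))))), by decide +kernel⟩

def k39_A00pp_022_s3 : ∃ t, chk3 f_A00pp_022_s3 t 273 251 1 = true :=
  ⟨(b (a (a (b (b (a (l 522296591) (l 522314255)) (a (l 522283791) (l 522301455))) (b (a (l 522270735) (l 522288399)) (a (l 522257167) (l 522275343)))) (b (b (a (l 522331919) (l 522349583)) (a (l 522319375) (l 522337295))) (b (a (l 522306319) (l 522324495)) (a (l 522293263) (l 522311439))))) (a (b (b (a (l 522367503) (l 522385423)) (a (l 522355215) (l 522373391))) (b (a (l 522342671) (l 522360847)) (a (l 522329615) (l 522348047)))) (b (b (a (l 522403599) (l 522421775)) (a (l 522391311) (l 522409743))) (b (a (l 522379023) (l 522397455)) (a (l 522366479) (l 522384911)))))) (b (b (a (a (a (l 522243599) (l 522261775)) (a (l 522279951) (l 522298127))) (a (a (l 522316559) (l 522334991)) (a (l 522353423)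 (l 4)))) (a (a (a (l 522229775) (l 522247951)) (a (l 522266383) (l 4))) (l 4))) (l 4))), by decide +kernel⟩

def k40_A00pp_022_s3 : ∃ t, chk3 f_A00pp_022_s3 t 137 250 1 = true :=
  ⟨(a (b (a (a (b (b (l 16740264) (l 16743656)) (b (l 16747056) (c (l 16750512) (l 16750392)))) (b (b (l 16742112) (l 16745496)) (b (l 16748880) (c (l 16752336) (l 16752216))))) (a (b (b (l 16743952) (l 16747320)) (b (l 16750704) (c (l 16754144) (l 16754032)))) (b (b (l 16745776) (l 16749144)) (b (c (l 16752576) (l 16752456)) (c (l 16755944) (l 16755848)))))) (a (a (b (b (c (l 16753912) (l 16753800)) (b (l 16756416) (l 16758120))) (b (a (l 522462735) (l 522480911)) (a (l 522451471) (l 522469647)))) (b (b (a (l 16755216) (l 16756128)) (b (l 16758224) (l 522515983))) (b (a (l 522498831) (l 522517007)) (a (l 522487823) (l 522506255))))) (b (a (b (b (l 16756632) (l 16758328)) (a (l 522545935) (l 522564111))) (b (b (l 16758432) (l 522599183)) (a (l 522582543) (l 522600975)))) (a (b (a (l 522535439) (l 522553871)) (a (l 522524431)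 (l 522543119))) (b (a (l 522572303) (l 522590735)) (a (l 522561551) (l 522580239))))))) (b (a (b (a (b (l 16747592) (l 16750952)) (b (l 16749408) (c (l 16752816) (l 16752704)))) (a (b (c (l 16754376) (l 16754264)) (b (l 16756848) (l 16758528))) (b (c (l 16756160) (l 16756064)) (b (l 16758632) (l 522682383))))) (b (a (b (l 16751208) (c (l 16754608) (l 16754504))) (b (c (l 16753056) (l 16752944)) (c (l 16756384) (l 16756288)))) (a (b (b (l 16757064) (l 16758736)) (l 522721807)) (b (l 522767631) (l 522759183))))) (a (b (a (b (a (l 522629391) (l 522647823)) (a (l 522619407) (l 522638095))) (b (a (l 522666255) (l 522684943)) (l 522665743))) (a (b (l 522618383) (l 522608143)) (b (l 522656015) (l 522646031)))) (b (a (b (l 522712591) (l 522703375)) (b (l 522750479) (l 522741263))) (a (b (l 522693903) (l 522683919)) (b (l 522732047) (l 522722319))))))), by decide +kernel⟩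

def k41_A00pp_022_s3 : ∃ t, chk3 f_A00pp_022_s3 t 137 251 1 = true :=
  ⟨(b (b (a (a (a (b (a (l 522439951) (l 522458127)) (a (l 522427919) (l 522446351))) (b (a (l 522476559) (l 522494991)) (a (l 522464783) (l 522483471)))) (a (b (a (l 522513423) (l 522532111)) (l 522511119)) (b (l 522560015) (l 522548751)))) (a (a (b (l 522597647) (l 522586639)) (b (l 522635535) (l 522625039))) (a (b (l 522673935) (l 4)) (l 4)))) (a (b (a (a (a (l 522415887) (l 522434319)) (l 522730511)) (a (l 522499599) (l 522537487))) (a (a (a (l 522403343) (l 522422031)) (l 522449935)) (l 4))) (l 4))) (l 4)), by decide +kernel⟩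

def k42_A00pp_022_s3 : ∃ t, chk3 f_A00pp_022_s3 t 138 124 1 = true :=
  ⟨(b (a (b (a (b (l 16704528) (l 16711104)) (b (l 16708312) (l 16714848))) (a (a (b (l 16716744) (l 16723336)) (b (l 16718616) (l 16725192))) (a (b (l 16720472) (l 16727032)) (b (l 16722328) (l 16728872))))) (b (a (b (l 16712056) (c (l 16718720) (l 16718416))) (b (l 16715776) (c (l 16722400) (l 16722112)))) (a (b (c (l 16725216) (l 16724952)) (a (l 16730696) (l 16732520))) (b (c (l 16728864) (l 16728616)) (b (l 16733608) (l 16736856)))))) (a (b (b (a (a (l 16729936) (l 16731776)) (a (l 16733600) (l 16735424))) (a (b (l 16735808) (c (l 16739208) (l 16739016))) (a (c (l 16740272) (l 16740088)) (c (l 16742072) (l 16741904))))) (a (b (a (b (l 16741512) (l 16744824)) (b (l 16743320) (l 16746624))) (a (b (l 16748144) (l 16751464)) (b (l 16749936) (l 522865679)))) (b (a (b (l 16745120) (l 16748416)) (b (l 16746912) (l 16750200))) (a (b (l 16751720) (l 522903311)) (b (l 522947599) (l 522940943)))))) (b (b (a (b (l 16736504) (l 16739768))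 (b (l 16740104) (c (l 16743432) (l 16743272)))) (a (a (b (l 16742144) (l 16745416)) (b (l 16743936) (l 16747200))) (a (b (l 16745712) (l 16748976)) (b (l 16747488) (l 16750736))))) (a (b (a (b (l 16748696) (l 16751976)) (b (l 16750472) (l 16753744))) (a (b (l 522985487) (l 522979087)) (b (l 523023375) (l 523017487)))) (b (a (b (l 16752232) (l 523067663)) (b (l 16753992) (l 523106063))) (a (b (l 523062031) (l 523056143)) (b (l 523100687) (l 523095055)))))))), by decide +kernel⟩

def k43_A00pp_022_s3 : ∃ t, chk3 f_A00pp_022_s3 t 139 248 1 = true :=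
  ⟨(a (b (a (b (l 16719464) (c (l 16726040) (l 16725776))) (c (b (l 16723256) (l 16729648)) (b (l 16722976) (l 16729408)))) (b (a (b (l 16730752) (l 16733976)) (b (l 16734344) (l 16737552))) (a (b (l 16737200) (l 16740432)) (b (l 16740768) (c (l 16744056) (l 16743896)))))) (b (a (c (b (l 16726864) (l 16733224)) (b (l 16726608) (l 16733008))) (b (c (l 16730440) (l 16730208)) (b (l 16735088) (l 16738256)))) (a (b (b (l 16737904) (l 16741096)) (a (c (l 16745088) (l 16744936)) (b (l 16745168) (l 16748352)))) (b (b (l 16741432) (c (l 16744680) (l 16744528))) (a (b (l 16746912) (l 16750088)) (b (l 16748648) (l 16751816))))))), by decide +kernel⟩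

def k44_A00pp_022_s3 : ∃ t, chk3 f_A00pp_022_s3 t 139 249 1 = true :=
  ⟨(a (b (b (a (a (c (l 16744472) (l 16744320)) (b (l 16744544) (l 16747776))) (a (b (l 16746312) (l 16749528)) (b (l 16748064) (l 16751272)))) (a (a (b (l 16749248) (l 16752488)) (b (l 16751008) (l 16754240))) (a (b (l 16752752) (l 523232015)) (b (l 16754488) (l 523271439))))) (b (a (a (b (l 523149839) (l 523144975)) (b (l 523188751) (l 523183887))) (a (b (l 523227919) (l 523223567)) (b (l 523267343) (l 523263247)))) (a (a (b (l 523139599) (l 523134223)) (b (l 523179023) (l 523173903))) (a (b (l 523218703) (l 523213839)) (b (l 523258639) (l 523254031)))))) (b (b (a (a (b (l 16749808) (l 16753008)) (b (l 16751544) (l 16754736))) (a (b (l 16753272) (c (l 16756496) (l 16756408))) (b (l 16754984) (l 523436815)))) (a (a (b (l 523314447) (l 523310863)) (b (l 523354127) (l 523350799))) (a (b (l 523394063) (l 523390991)) (b (l 523434255) (l 523431439))))) (b (a (a (b (l 523307279) (l 523303183)) (b (l 523347215) (l 523343631))) (a (b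 (l 523387663) (l 523384079)) (b (l 523428367) (l 523425039)))) (a (b (a (l 523299087) (l 523339535)) (a (l 523294479) (l 523335183))) (a (b (l 523380495) (l 523376399)) (c (l 523446287) (l 523392783))))))), by decide +kernel⟩

def k45_A00pp_022_s3 : ∃ t, chk3 f_A00pp_022_s3 t 69 125 1 = true :=
  ⟨(b (a (a (b (a (b (a (b (c (l 16754840) (l 16754736)) (l 522813455)) (b (l 522858511) (l 522850831))) (a (b (l 522805263) (l 522796815)) (b (l 522843151) (l 522834959)))) (b (a (b (l 522896143) (l 522888719)) (b (l 522934031) (l 522927119))) (a (b (l 522881295) (l 522873359)) (b (l 522919695) (l 522912015))))) (a (b (a (b (l 522788367) (l 522779407)) (b (l 522826767) (l 522818063))) (a (b (l 522770447) (l 522760975)) (b (l 522809103) (l 4)))) (b (a (b (l 522865167) (l 522856975)) (b (l 522904079) (l 522896143))) (a (b (l 522848271) (l 4)) (l 4))))) (b (b (a (a (b (l 522972431) (l 522965519)) (b (l 523011087) (l 523004431))) (a (b (l 523049999) (l 523043599)) (b (l 523089167) (l 523083023)))) (a (a (b (l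 522958351) (l 522950927)) (b (l 522997519) (l 522990351))) (a (b (l 523036943) (l 523030031)) (b (l 523076623) (l 523069967))))) (b (a (a (b (l 522943503) (l 522935567)) (b (l 522982927) (l 4))) (a (b (l 523022863) (l 4)) (l 4))) (l 4)))) (b (a (b (a (a (b (l 523128591) (l 523122703)) (b (l 523168527) (l 523162639))) (a (l 523205647) (l 523246351))) (a (a (l 523113231) (l 523153679)) (a (l 523194383) (l 4)))) (b (a (a (l 523287055) (l 523328271)) (a (b (l 523372047) (l 4)) (l 4))) (l 4))) (l 4))) (l 4)), by decide +kernel⟩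

def k46_A00pp_022_s3 : ∃ t, chk3 f_A00pp_022_s3 t 140 248 1 = true :=
  ⟨(a (b (b (a (c (l 16733984) (l 16733776)) (b (l 16735832) (l 16738968))) (a (b (l 16738608) (l 16741768)) (b (l 16742104) (c (l 16745312) (l 16745160))))) (b (a (a (c (l 16745704) (l 16745560)) (b (l 16745784) (l 16748936))) (a (b (l 16747512) (l 16750656)) (b (l 16749232) (l 16752360)))) (a (a (b (l 16750368) (l 16753536)) (b (l 16752088) (l 16755240))) (a (b (l 16753792) (l 523561487)) (b (l 16755488) (l 523602447)))))) (b (b (a (b (l 16739320) (l 16742440)) (b (l 16742776) (c (l 16745944) (l 16745800)))) (a (a (c (l 16746328) (l 16746184)) (b (l 16746408) (l 16749520))) (a (b (l 16748120) (l 16751216)) (b (l 16749816) (l 16752904))))) (b (a (a (b (l 16750936) (l 16754056)) (b (l 16752632) (l 16755744))) (a (b (l 16754320) (l 523726607)) (b (l 16756000) (l 523768079)))) (a (a (c (l 523672079) (l 523615247)) (c (l 523713039) (l 523656719))) (a (c (l 523753999) (l 523698703)) (c (l 523795471) (l 523740943))))))), by decide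 +kernel⟩

def k47_A00pp_022_s3 : ∃ t, chk3 f_A00pp_022_s3 t 140 249 1 = true :=
  ⟨(b (a (b (a (a (b (l 523479055) (l 523477007)) (c (l 523547151) (l 523489807))) (a (c (l 523587599) (l 523531023)) (c (l 523628303) (l 523572495)))) (a (a (c (l 523501583) (l 523445263)) (c (l 523542287) (l 523486479))) (a (c (l 523582991) (l 523528207)) (c (l 523624207) (l 523570191))))) (b (a (a (c (l 523669263) (l 523614223)) (c (l 523710735) (l 523656463))) (a (c (l 523752207) (l 523698703)) (c (l 523794191) (l 523741455)))) (a (a (c (l 523665679) (l 523612431)) (c (l 523707407) (l 523654927))) (a (l 523723791) (l 523766543))))) (b (a (c (a (a (l 523495183) (b (l 523537935) (l 523534607))) (a (l 523577359) (l 523619087))) (a (a (l 523440655) (b (l 523483663) (l 523481359))) (a (b (l 523525647) (l 523523599)) (l 523566863)))) (a (a (c (l 523661071) (l 523609615)) (l 523677967)) (a (l 523720975) (l 4)))) (a (a (a (c (l 523487503) (b (l 523436559) (l 523433487))) (c (l 523528975) (l 523477263))) (a (c (l 523570959)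 (l 523519759)) (l 4))) (l 4)))), by decide +kernel⟩

def k48_A00pp_022_s3 : ∃ t, chk3 f_A00pp_022_s3 t 141 124 1 = true :=
  ⟨(b (a (a (b (b (a (c (l 16746952) (l 16746808)) (b (l 16747032) (l 16750112))) (a (b (l 16751504) (l 16754584)) (b (l 16753184) (l 16756248)))) (b (a (c (l 523837199) (l 523781391)) (c (l 523878671) (l 523823887))) (a (c (l 523837199) (l 523783439)) (c (l 523879183) (l 523826191))))) (b (b (a (b (l 16748720) (l 16751784)) (b (l 16750400) (l 16753456))) (a (b (l 16754848) (l 523891471)) (b (l 16756504) (l 523933711)))) (b (a (c (l 523920655) (l 523866639)) (l 523936015)) (a (l 523895567) (l 523938575))))) (a (b (b (a (b (l 16752072) (l 16755112)) (b (l 16753728) (l 16756760))) (a (c (l 524002319) (l 523948047)) (l 524017679))) (b (a (l 523979023) (l 524022031)) (a (l 523981839) (l 524025359)))) (b (b (a (b (l 16755376) (l 524056591)) (l 524097807)) (a (l 524060687) (l 524103951))) (b (a (l 524065551) (l 524109071)) (a (l 524069135) (l 524113423)))))) (b (b (a (a (a (l 523810319)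 (l 523853327)) (a (l 523896335) (l 523939855))) (a (a (l 523983631) (l 524027663)) (l 4))) (a (a (a (l 523809551) (l 523852815)) (a (l 523896591) (l 4))) (l 4))) (l 4))), by decide +kernel⟩

def k49_A00pp_022_s3 : ∃ t, chk3 f_A00pp_022_s3 t 70 125 1 = true :=
  ⟨(l 4), by decide +kernel⟩

def k50_A00pp_022_s3 : ∃ t, chk3 f_A00pp_022_s3 t 71 62 1 = true :=
  ⟨(b (b (a (a (a (b (b (a (l 524141071) (l 524184335)) (a (l 524147471) (l 524191503))) (b (a (l 524153103) (l 524197391)) (a (l 524157967) (l 524202511)))) (b (b (a (l 524228111) (l 524271887)) (a (l 524235535) (l 524279823))) (b (a (l 524241935) (l 524286991)) (l 4)))) (a (b (b (a (l 524316175) (l 524360719)) (a (l 524324623) (l 524369423))) (b (a (l 524332047) (l 524377359)) (l 4))) (b (b (a (l 524405519) (l 524450575)) (a (l 524414735) (l 524460303))) (l 4)))) (b (b (a (a (a (l 524495887) (l 524541455)) (c (l 524632847) (l 524587791))) (a (l 524703247) (l 4))) (a (a (c (l 524551183) (l 524506639)) (l 4)) (l 4))) (l 4))) (l 4)) (l 4)), by decide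 +kernel⟩

def k51_A00pp_022_s3 : ∃ t, chk3 f_A00pp_022_s3 t 32 63 1 = true :=
  ⟨(l 14), by decide +kernel⟩

def k52_A00pp_022_s3 : ∃ t, chk3 f_A00pp_022_s3 t 132 126 1 = true :=
  ⟨(l 14), by decide +kernel⟩

def k53_A00pp_022_s3 : ∃ t, chk3 f_A00pp_022_s3 t 266 252 1 = true :=
  ⟨(a (l 14) (a (a (l 14) (b (b (b (l 16739968) (l 16743648)) (b (l 16747344) (l 16751056))) (b (b (a (l 16754528) (l 16755016)) (b (l 16757568) (l 16759432))) (b (b (l 16761304) (b (l 16762704) (l 16763640))) (b (b (l 16764584) (l 16765520)) (a (b (l 16766216) (l 16767152)) (b (l 16766696) (l 16767640)))))))) (b (b (b (l 16741440) (l 16745128)) (b (c (l 16748888) (l 16748744)) (b (l 16751592) (l 16753448)))) (b (a (b (c (l 16755800) (l 16755696)) (b (l 16758536) (l 16760408))) (b (b (l 16755792) (l 16757648)) (b (l 16759512) (l 16761376)))) (a (b (b (b (l 16761808) (l 16762744)) (b (l 16763680) (l 16764616))) (b (b (l 16765552) (c (l 16766512) (l 16766464))) (a (b (l 16767184) (l 16768120)) (b (l 16767664) (l 16768608)))))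 (b (b (b (l 16762776) (l 16763712)) (b (l 16764648) (l 16765584))) (b (a (l 521494031) (l 521233423)) (a (l 521214223) (l 521221903))))))))), by decide +kernel⟩

def k54_A00pp_022_s3 : ∃ t, chk3 f_A00pp_022_s3 t 267 504 1 = true :=
  ⟨(a (b (a (b (l 16743408) (c (l 16747160) (l 16747008))) (b (a (l 16744872) (l 16745848)) (a (l 16748552) (l 16749520)))) (b (a (a (l 16750280) (l 16751256)) (b (l 16751800) (l 16753640))) (a (b (l 16753544) (c (l 16755448) (l 16755344))) (a (c (l 16755976) (l 16755872)) (b (l 16755968) (l 16757824)))))) (b (b (a (c (l 16747392) (l 16747240)) (c (l 16749328) (l 16749184))) (a (b (l 16750064) (l 16751896)) (b (l 16752000) (l 16753840)))) (b (a (b (l 16753736) (c (l 16755632) (l 16755528))) (a (c (l 16756160) (l 16756056)) (b (l 16756152) (l 16757992)))) (a (a (b (l 16756936) (l 16758784)) (b (l 16757904) (l 16759752))) (a (b (l 16758872) (l 16760712)) (b (l 16759832) (l 16761672))))))), by decide +kernel⟩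

def k55_A00pp_022_s3 : ∃ t, chk3 f_A00pp_022_s3 t 534 505 1 = true :=
  ⟨(b (a (a (b (b (l 16756760) (l 16758624)) (b (l 16760480) (b (l 16761880) (l 16762808)))) (b (b (l 16757736) (l 16759592)) (b (l 16761448) (b (l 16762848) (l 16763776))))) (b (a (b (l 16758704) (l 16760560)) (b (l 16759672) (l 16761528))) (a (b (b (l 16761952) (l 16762880)) (b (l 16763808) (l 16764744))) (b (b (l 16762920) (l 16763848)) (b (l 16764776) (l 16765704)))))) (b (a (a (a (b (l 16763968) (l 521252367)) (b (l 16764448) (l 521260047))) (b (b (l 16764712) (l 16765640)) (a (l 521267727) (l 521275407)))) (a (a (b (l 521294095) (l 521283087)) (b (l 521301775) (l 521290767))) (b (a (l 521309711) (l 521317391)) (a (l 521298447) (l 521306383))))) (a (a (b (a (l 521241103) (l 521248783)) (a (l 521229583) (l 521237263))) (b (a (l 521256463) (l 521264143)) (a (l 521245199) (l 521252879)))) (a (b (a (l 521271823) (l 521279759)) (a (l 521260559) (l 521268495))) (b (a (l 521287439) (l 521295375)) (a (l 521276175) (l 521284111))))))),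 by decide +kernel⟩

def k56_A00pp_022_s3 : ∃ t, chk3 f_A00pp_022_s3 t 535 505 1 = true :=
  ⟨(b (b (a (a (b (l 16760640) (b (l 16762024) (l 16762952))) (b (l 16761600) (c (l 16763480) (l 16763416)))) (a (b (c (l 16762600) (l 16762528)) (c (l 16764440) (l 16764384))) (b (c (l 16763552) (l 16763488)) (b (l 16764904) (l 16765832))))) (a (a (a (b (l 16764104) (l 521336079)) (b (l 16764584) (l 521343759))) (b (b (l 16764840) (l 16765768)) (a (l 521351695) (l 521359375)))) (a (b (b (l 16765800) (l 521379087)) (a (l 521367311) (l 521374991))) (b (a (l 521393679) (l 521401359)) (a (l 521382927) (l 521390863)))))) (a (b (a (b (a (l 521325071) (l 521333007)) (a (l 521314063) (l 521321999))) (b (a (l 521340687) (l 521348623)) (a (l 521329935) (l 521337615)))) (a (b (a (l 521303055) (l 521310991)) (a (l 521292047) (l 521299983))) (b (a (l 521318927) (l 521326863)) (a (l 521307919) (l 521315855))))) (b (a (b (a (l 521356559) (l 521364239)) (a (l 521345551) (l 521353487))) (b (a (l 521372175) (l 521380111)) (a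 (l 521361423) (l 521369359)))) (a (b (a (l 521334799) (l 521342735)) (a (l 521323791) (l 521331727))) (b (a (l 521350671) (l 521358607)) (a (l 521339663) (l 521347599))))))), by decide +kernel⟩

def k57_A00pp_022_s3 : ∃ t, chk3 f_A00pp_022_s3 t 133 253 1 = true :=
  ⟨(b (a (a (l 14) (b (a (a (l 14) (a (a (l 14) (b (b (l 521174031) (l 521162255)) (b (l 521150735) (l 521138703)))) (b (b (b (l 16768576) (l 521176847)) (b (l 521170959) (l 521165327))) (b (b (l 521159439) (l 521153551)) (b (l 521147663) (l 521141775)))))) (b (a (b (a (b (l 16769064) (l 521184527)) (l 521463567)) (a (b (l 521178639) (l 521173007)) (l 521183503))) (b (a (l 521202703) (l 521210383)) (a (l 521191183) (l 521198863)))) (a (b (a (l 521432591) (l 521171727)) (a (l 521420815) (l 521159951))) (b (a (l 521179663) (l 521187343)) (a (l 521167887) (l 521175567)))))) (b (a (a (l 14) (a (a (l 14) (b (l 521126927) (l 521114895))) (b (b (l 521135631) (l 521129743)) (l 4)))) (b (a (a (l 521140495) (l 521148175)) (a (l 521156111) (l 4)))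 (l 4))) (l 4)))) (b (a (b (a (a (b (a (l 521218063) (l 521225999)) (a (l 521206799) (l 521214479))) (b (a (l 521233679) (l 521241615)) (a (l 521222159) (l 521230095)))) (a (b (a (l 521249295) (l 521257231)) (a (l 521238031) (l 521245967))) (b (a (l 521264911) (l 521272847)) (a (l 521253647) (l 521261583))))) (b (a (a (a (l 521195023) (l 521202959)) (a (l 521210895) (l 521218575))) (a (a (l 521226511) (l 521234447)) (a (l 521242383) (l 4)))) (a (a (a (l 521183503) (l 521191439)) (a (l 521199119) (l 4))) (l 4)))) (b (b (a (a (a (l 521280783) (l 521288719)) (a (l 521296655) (l 521304591))) (a (a (l 521312783) (l 521320719)) (a (l 521328655) (l 4)))) (a (a (a (l 521269519) (l 521277455)) (a (l 521285391) (l 4))) (l 4))) (l 4))) (l 4))) (l 4)), by decide +kernel⟩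

def k58_A00pp_022_s3 : ∃ t, chk3 f_A00pp_022_s3 t 66 127 1 = true :=
  ⟨(l 4), by decide +kernel⟩

def k59_A00pp_022_s3 : ∃ t, chk3 f_A00pp_022_s3 t 268 504 1 = true :=
  ⟨(a (b (b (a (b (l 16750280) (l 16752104)) (b (l 16752208) (l 16754032))) (a (b (l 16753936) (c (l 16755816) (l 16755712))) (a (c (l 16756344) (l 16756240)) (b (l 16756336) (l 16758168))))) (a (b (a (b (l 16757120) (l 16758952)) (b (l 16758080) (l 16759912))) (a (b (l 16760792) (c (l 16762672) (l 16762600))) (b (l 16761752) (c (l 16763624) (l 16763560))))) (b (a (b (l 16759040) (l 16760872)) (b (l 16760000) (l 16761832))) (a (b (c (l 16762744) (l 16762672)) (a (l 16764312) (l 16764784))) (b (a (l 16763424) (l 16763904)) (b (l 16765040) (l 16765960))))))) (b (a (b (b (l 16754136) (c (l 16756008) (l 16755904))) (a (b (l 16757296) (l 16759120)) (b (l 16758256) (l 16760080)))) (b (a (b (l 16755568) (l 16757392)) (b (l 16756528) (l 16758344))) (a (b (l 16759208) (l 16761032)) (b (l 16760160) (c (l 16762016) (l 16761944)))))) (a (b (a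 (b (l 16760952) (a (l 16762544) (l 16763024))) (b (a (l 16761664) (l 16762144)) (a (l 16763496) (l 16763976)))) (a (b (a (l 16764376) (l 16764856)) (b (l 16765992) (l 521505295))) (b (b (l 16765112) (l 16766024)) (a (l 521519887) (l 521527823))))) (b (a (b (a (l 16762616) (l 16763096)) (a (l 16764448) (l 16764920))) (b (c (l 16763840) (l 16763776)) (b (l 16765176) (l 16766088)))) (a (b (b (l 16766056) (l 521547279)) (a (l 521536015) (l 521543951))) (b (a (l 521561871) (l 521570063)) (a (l 521552143) (l 521560079)))))))), by decide +kernel⟩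

def k60_A00pp_022_s3 : ∃ t, chk3 f_A00pp_022_s3 t 536 505 1 = true :=
  ⟨(b (a (b (a (b (c (l 16764512) (l 16764448)) (b (l 16765864) (l 521421071))) (b (b (l 16764976) (l 16765896)) (a (l 521435663) (l 521443599)))) (a (b (a (l 521409295) (l 521417231)) (a (l 521398799) (l 521406735))) (b (a (l 521425167) (l 521433103)) (a (l 521414671) (l 521422607))))) (b (a (b (b (l 16765928) (l 521463311)) (a (l 521451535) (l 521459471))) (b (a (l 521477647) (l 521485583)) (a (l 521467407) (l 521475599)))) (a (b (a (l 521441039) (l 521449231)) (a (l 521430543) (l 521438735))) (b (a (l 521457167) (l 521465103)) (a (l 521446671) (l 521454863)))))) (a (b (a (b (a (l 521388047) (l 521395983)) (a (l 521377295) (l 521385487))) (b (a (l 521404175) (l 521412111)) (a (l 521393423) (l 521401359)))) (a (b (a (l 521366543) (l 521374735)) (a (l 521355791) (l 521363727))) (b (a (l 521382671) (l 521390863)) (a (l 521371919) (l 4))))) (b (a (b (a (l 521420047) (l 521428239)) (a (l 521409551) (l 521417743))) (b (a (l 521436175)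 (l 521444367)) (a (l 521425679) (l 521433871)))) (b (a (a (l 521398799) (l 521406991)) (a (l 521415183) (l 4))) (l 4))))), by decide +kernel⟩

def k61_A00pp_022_s3 : ∃ t, chk3 f_A00pp_022_s3 t 537 505 1 = true :=
  ⟨(b (a (b (a (b (a (l 521493775) (l 521501711)) (a (l 521483535) (l 521491471))) (b (a (l 521509647) (l 521517839)) (a (l 521499663) (l 521507599)))) (a (b (a (l 521473295) (l 521481231)) (a (l 521462799) (l 521470991))) (b (a (l 521489423) (l 521497615)) (a (l 521479183) (l 521487375))))) (b (a (b (a (l 521525775) (l 521533967)) (a (l 521515791) (l 521523983))) (b (a (l 521542159) (l 521550351)) (a (l 521532175) (l 521540367)))) (a (b (a (l 521505807) (l 521513743)) (a (l 521495567) (l 521503759))) (b (a (l 521521935) (l 521530127)) (l 521516047))))) (b (b (a (a (a (l 521452559) (l 521460751)) (a (l 521468687) (l 521476879))) (a (a (l 521485071) (l 521493519)) (l 521505807))) (a (a (a (l 521442063) (l 521450255)) (a (l 521458447) (l 4))) (l 4))) (l 4))), by decide +kernel⟩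

def k62_A00pp_022_s3 : ∃ t, chk3 f_A00pp_022_s3 t 269 504 1 = true :=
  ⟨(a (b (a (b (a (b (l 16757480) (l 16759296)) (b (l 16758432) (l 16760248))) (a (b (l 16761112) (c (l 16762968) (l 16762896))) (b (b (l 16761608) (l 16762512)) (b (l 16763424) (l 16764336))))) (b (a (b (l 16759384) (l 16761192)) (b (l 16760328) (b (l 16761688) (l 16762592)))) (a (b (b (l 16762552) (l 16763464)) (b (l 16764368) (l 16765280))) (b (a (l 16763720) (l 16764192)) (b (l 16765312) (l 16766224)))))) (b (a (a (b (b (l 16764296) (l 16765208)) (b (l 16766120) (l 521589519))) (b (b (l 16765248) (l 16766160)) (a (l 521604111) (l 521612303)))) (a (b (b (l 16766192) (l 521631503)) (a (l 521620239) (l 521628431))) (b (l 521650191) (l 521640719)))) (a (a (b (a (l 521577999) (l 521586191)) (a (l 521568271) (l 521576463))) (b (a (l 521594383) (l 521602575)) (l 521857039))) (a (b (l 521614863) (l 521605135)) (b (l 521631247) (l 521621519)))))) (b (b (a (a (b (l 16761272) (a (l 16762848) (l 16763320))) (b (a (l 16761984) (l 16762456))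 (l 521710863))) (a (b (l 521736207) (l 521727247)) (b (l 521752591) (l 521743631)))) (a (a (b (a (l 16764656) (l 16765128)) (l 521676047)) (b (l 521701647) (l 521692431))) (a (b (l 521718031) (l 521709071)) (b (l 521734671) (l 521725455))))) (b (a (a (b (l 521666575) (l 521657359)) (b (l 521683215) (l 521673743))) (a (b (l 521699855) (l 521690383)) (b (l 521716495) (l 521707279)))) (a (a (b (l 521647887) (l 521638159)) (b (l 521664527) (l 521654799))) (a (b (l 521681167) (l 521671695)) (b (l 521697807) (l 521688591))))))), by decide +kernel⟩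

def k63_A00pp_022_s3 : ∃ t, chk3 f_A00pp_022_s3 t 269 505 1 = true :=
  ⟨(b (b (a (a (a (b (a (l 521558543) (l 521566735)) (l 521552399)) (b (l 521578767) (l 521569039))) (a (b (l 521595407) (l 521585679)) (b (l 521612047) (l 521602319)))) (a (a (b (l 521628687) (l 521618959)) (b (l 521645327) (l 521635855))) (a (b (l 521662223) (l 4)) (l 4)))) (a (b (a (a (l 521542415) (l 521559055)) (a (l 521575695) (l 521592335))) (a (a (l 521532431) (l 521549071)) (l 4))) (l 4))) (l 4)), by decide +kernel⟩

def k64_A00pp_022_s3 : ∃ t, chk3 f_A00pp_022_s3 t 134 253 1 = true :=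
  ⟨(l 4), by decide +kernel⟩

def k65_A00pp_022_s3 : ∃ t, chk3 f_A00pp_022_s3 t 135 126 1 = true :=
  ⟨(b (b (a (a (b (a (b (a (b (l 521769231) (l 521760271)) (b (l 521785615) (l 521776911))) (a (b (l 521751311) (l 521742351)) (b (l 521767951) (l 521758991)))) (b (a (b (l 521802511) (l 521793551)) (b (l 521819151) (l 521810447))) (a (b (l 521784847) (l 521775887)) (b (l 521801743) (l 521792783))))) (a (b (a (b (l 521733135) (l 521723919)) (b (l 521750031) (l 521740815))) (a (b (l 521714703) (l 521705487)) (b (l 521731855) (l 4)))) (b (a (b (l 521766927) (l 521757967)) (b (l 521784079) (l 521775119))) (a (b (l 521748751) (l 4)) (l 4))))) (b (a (b (a (b (l 521836047) (l 521827343)) (b (l 521852943) (l 521844495))) (a (b (l 521818639) (l 521809935)) (b (l 521835791) (l 521827087)))) (b (a (b (l 521869839) (l 521861391)) (b (l 521886991) (l 521878543))) (a (b (l 521852943) (l 521844239)) (b (l 521870095) (l 521861391))))) (b (a (a (b (l 521800975) (l 521792271)) (b (l 521818127) (l 4))) (a (b (l 521835535)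 (l 4)) (l 4))) (l 4)))) (b (b (a (a (a (b (l 521904143) (l 521895951)) (b (l 521921551) (l 521913103))) (a (l 521934607) (l 521952015))) (a (a (l 521969679) (l 521987343)) (a (l 522005007) (l 4)))) (a (a (a (b (l 521887503) (l 521878799)) (l 521900559)) (a (l 521917967) (l 4))) (l 4))) (l 4))) (l 4)) (l 4)), by decide +kernel⟩

def k66_A00pp_022_s3 : ∃ t, chk3 f_A00pp_022_s3 t 67 127 1 = true :=
  ⟨(l 4), by decide +kernel⟩

def k67_A00pp_022_s3 : ∃ t, chk3 f_A00pp_022_s3 t 17 63 1 = true :=
  ⟨(l 4), by decide +kernel⟩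

def k68_A00pp_022_s3 : ∃ t, chk3 f_A00pp_022_s3 t 9 28 1 = true :=
  ⟨(a (b (a (a (b (l 16446416) (l 16457416)) (l 16493792)) (a (l 16537008) (l 16581160))) (b (a (a (l 16469104) (l 16510128)) (l 16489120)) (a (a (l 16482024) (l 16522216)) (b (l 16496656) (l 16522976))))) (a (b (b (l 16561312) (l 16567840)) (b (l 16573904) (a (l 16644104) (l 16684040)))) (b (a (l 16547272) (l 16517688)) (a (b (l 16665680) (l 16606640)) (b (l 16641240) (l 16586016)))))), by decide +kernel⟩

def k69_A00pp_022_s3 : ∃ t, chk3 f_A00pp_022_s3 t 18 29 1 = true :=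
  ⟨(a (b (a (b (b (l 16492816) (l 16500808)) (b (l 16509864) (b (l 16517408) (l 16522792)))) (b (b (l 16532240) (l 16539656)) (b (l 16548048) (a (l 16548184) (l 16566816))))) (a (b (a (b (b (l 16519168) (l 16525200)) (b (l 16531976) (l 16540024))) (b (b (l 16537728) (l 16543576)) (b (l 16550144) (l 16557976)))) (a (b (a (b (l 16544824) (l 16555272)) (b (l 16553744) (l 16564080))) (a (b (l 16566784) (l 16579264)) (b (l 16575456) (l 16587800)))) (b (b (l 16567000) (l 16577144)) (a (b (l 16584048) (l 16596240)) (b (l 16592560) (l 16604600)))))) (b (a (b (l 16558816) (b (l 16568128) (l 16575712))) (b (l 16577000) (b (l 16585936) (l 16593256)))) (a (b (b (l 16584472) (l 16594336)) (b (l 16605208) (a (l 16612896) (l 16621112)))) (b (b (l 16601728) (l 16611280)) (b (l 16621824) (l 16633288))))))) (b (a (b (l 16533104) (b (l 16585984) (l 16594528))) (b (l 16613976) (b (l 16623408) (l 16630912)))) (a (b (a (b (l 16595008) (b (l 16603544) (l 16610568))) (b (l 16612816) (b (l 16620912) (l 16627616)))) (a (b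 (b (l 16618728) (l 16627944)) (b (l 16638144) (l 16649248))) (b (b (l 16635448) (l 16644312)) (b (l 16654152) (a (l 16660984) (l 16668688)))))) (b (a (b (l 16630400) (b (l 16638032) (l 16644392))) (b (l 16647720) (b (l 16654808) (l 16660792)))) (b (a (b (l 16651856) (l 16660336)) (b (l 16667832) (l 16675856))) (a (b (l 16669736) (a (l 16676280) (l 16683704))) (b (l 16684792) (a (l 16690976) (l 16698072))))))))), by decide +kernel⟩

def k70_A00pp_022_s3 : ∃ t, chk3 f_A00pp_022_s3 t 19 58 1 = true :=
  ⟨(a (b (a (l 16610480) (l 16605920)) (a (b (l 16660048) (l 16624184)) (b (l 16611240) (l 16657576)))) (a (b (c (l 16674592) (l 16674160)) (b (l 16707504) (a (l 16722824) (l 16737584)))) (b (a (l 16619024) (l 16656000)) (a (b (l 16724456) (l 16738384)) (b (l 16721312) (l 16694576)))))), by decide +kernel⟩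

def k71_A00pp_022_s3 : ∃ t, chk3 f_A00pp_022_s3 t 19 59 1 = true :=
  ⟨(a (b (a (b (a (l 16664656) (l 16681032)) (a (b (l 16671120) (l 16676648)) (b (l 16686816) (l 16691864)))) (b (a (l 16696800) (l 16711880)) (a (b (l 16701856) (l 16706384)) (b (l 16716152) (l 16720136))))) (a (b (a (b (l 16683216) (l 16690744)) (b (l 16697928) (l 16704928))) (a (b (a (l 16695632) (l 16702632)) (a (l 16704984) (l 16711712))) (b (a (l 16709448) (l 16716072)) (a (l 16718240) (l 16724568))))) (b (a (b (l 16711904) (l 16707856)) (b (l 16714608) (l 528339983))) (a (b (l 527500815) (l 527397647)) (b (l 528103695) (l 527682831)))))) (a (b (b (a (l 16705240) (b (l 16739336) (l 16698704))) (a (b (l 16729664) (l 16733072)) (b (l 16721496) (l 530495503)))) (b (a (b (l 16726944) (a (l 16739808) (l 16745432))) (a (l 529914383) (l 530428943))) (a (b (a (l 16735496) (l 16746040)) (a (l 528405263) (l 528737039))) (a (b (l 529397775) (b (l 529175823) (l 529048079))) (b (l 529885199) (a (l 529436687) (l 529693199))))))) (b (a (b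 (c (l 16730584) (l 16730816)) (a (l 531258383) (b (l 16755416) (l 16757416)))) (b (a (l 16740760) (b (l 16748296) (l 16755944))) (a (b (l 16758600) (b (l 16759680) (l 16760776))) (b (l 16760528) (l 531906319))))) (a (b (a (b (l 16746048) (b (l 16759504) (l 16761720))) (b (b (l 16759496) (l 16761032)) (a (l 530918415) (l 530882063)))) (a (b (a (l 530267407) (b (l 16765032) (l 530272527))) (a (b (l 529992975) (a (l 529776399) (l 529773071))) (b (l 529991183) (l 529723919)))) (b (b (l 530462223) (l 530162703)) (l 529716751)))) (b (b (a (l 531398415) (l 531213839)) (l 530646287)) (l 529416719)))))), by decide +kernel⟩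

def k72_A00pp_022_s3 : ∃ t, chk3 f_A00pp_022_s3 t 36 60 1 = true :=
  ⟨(a (b (a (b (a (b (l 16592680) (l 16606616)) (b (l 16601064) (l 16614848))) (a (b (l 16620384) (l 16633856)) (b (l 16628464) (l 16641768)))) (b (a (b (l 16609360) (l 16622984)) (b (l 16617560) (l 16631016))) (a (b (l 16636432) (l 16649576)) (b (l 16644296) (l 16657264))))) (a (b (a (b (l 16647048) (l 16659968)) (b (l 16654800) (l 16667560))) (a (b (a (l 16670776) (l 16674520)) (a (l 16683264) (l 16686920))) (b (a (l 16678232) (l 16681904)) (a (l 16690544) (l 16694136))))) (b (a (b (l 16662432) (l 16675024)) (b (l 16669944) (l 16682360))) (a (b (a (l 16685552) (l 16689160)) (a (l 16697688) (l 16701208))) (b (a (l 16692736) (l 16696280)) (a (l 16704688) (l 16708144))))))) (b (a (b (a (b (l 16625680) (l 16638968)) (b (l 16633728) (l 16646832))) (a (b (l 16652064) (l 16664856)) (b (l 16659744) (l 16672352)))) (b (a (b (l 16641688) (l 16654608)) (b (l 16649560) (l 16662288))) (a (b (l 16667336) (l 16679752)) (b (l 16674824) (l 16687040)))))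 (a (b (a (b (l 16677360) (l 16689584)) (b (l 16684664) (l 16696696))) (a (b (a (l 16699800) (l 16703288)) (a (l 16711560) (l 16714952))) (b (a (l 16706744) (l 16710176)) (a (l 16718312) (l 16721640))))) (b (a (b (l 16691864) (l 16703696)) (b (l 16698952) (c (l 16710768) (l 16710400)))) (a (b (c (l 16715424) (l 16715096)) (a (l 16724936) (c (l 16728328) (l 16728080)))) (b (a (l 16720280) (l 16723584)) (l 525322767))))))), by decide +kernel⟩

def k73_A00pp_022_s3 : ∃ t, chk3 f_A00pp_022_s3 t 72 122 1 = true :=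
  ⟨(a (b (a (b (a (l 16695544) (l 16699112)) (b (l 16706376) (a (l 16710608) (l 16714072)))) (b (a (l 16702648) (l 16706152)) (b (l 16713312) (a (l 16717496) (l 16720880))))) (a (a (b (b (l 16716560) (l 16722464)) (b (l 16728328) (l 16734160))) (b (b (l 16719976) (l 16725832)) (b (l 16731656) (l 16737432)))) (a (b (b (l 16723352) (l 16729168)) (b (l 16734936) (c (l 16740752) (l 16740584)))) (b (b (l 16726688) (l 16732456)) (b (l 16738176) (c (l 16743936) (l 16743792))))))) (b (a (b (a (l 16709608) (l 16713032)) (c (a (l 16721464) (l 16724784)) (a (l 16721184) (l 16724520)))) (b (a (l 16716424) (l 16722400)) (c (b (l 16726848) (l 16732520)) (b (l 16726600) (l 16732304))))) (a (a (b (b (l 16729984) (l 16735704)) (b (l 524996623) (l 525036303))) (b (b (l 16733240) (l 16738912)) (b (l 525083151) (l 525123855)))) (a (b (b (l 16736456) (l 16742080)) (b (l 525170703) (l 525212431))) (b (b (l 16739640) (l 525217039)) (b (l 525261583) (l 525305103))))))), by decide +kernel⟩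

def k74_A00pp_022_s3 : ∃ t, chk3 f_A00pp_022_s3 t 72 123 1 = true :=
  ⟨(a (b (a (b (c (a (b (l 16740032) (l 524779791)) (b (l 16743256) (l 524867599))) (a (b (l 16739864) (l 524726031)) (b (l 16743104) (l 524815375)))) (c (a (b (l 524807183) (l 524831503)) (b (l 524896527) (l 524922383))) (a (b (l 524755471) (l 524781839)) (b (l 524846095) (l 524873999))))) (b (c (a (b (l 16746432) (l 524956175)) (b (l 525011215) (l 525045007))) (a (b (l 524870671) (l 524905231)) (b (l 524959759) (l 524995855)))) (c (a (b (l 524986383) (l 525014031)) (b (l 525077007) (l 525106447))) (a (b (l 524937743) (l 524967183)) (b (l 525029903) (l 525061391)))))) (a (a (b (b (c (l 524850959) (l 524803343)) (c (l 524867855) (l 524822031))) (b (l 524861711) (l 524877583))) (b (b (c (l 524942863) (l 524896783)) (l 524938511)) (b (l 524956175) (l 4)))) (a (b (b (c (l 525036047) (l 524991247)) (l 525032975)) (b (l 525051663) (l 4))) (b (b (b (l 525103119) (l 525113615)) (l 525128719)) (l 4))))) (b (a (a (b (b (l 525074191) (c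 (l 525134351) (l 525086735))) (b (c (l 525168143) (l 525122319)) (c (l 525199631) (l 525155855)))) (b (b (l 525163023) (l 525200655)) (b (l 525236751) (c (a (l 525269519) (l 525311503)) (a (l 525227023) (l 525269775)))))) (a (a (b (l 525249295) (b (l 525304591) (c (l 525363471) (l 525322511)))) (b (b (l 525275919) (l 525315599)) (b (c (l 525377039) (l 525334799)) (b (l 525385743) (l 525405967))))) (b (b (a (l 525323535) (l 525373199)) (a (l 525365263) (l 525417231))) (b (b (l 525423375) (l 525444879)) (l 525476111))))) (b (a (a (b (c (l 525224719) (l 525183247)) (a (l 525201423) (l 4))) (b (a (c (l 525296911) (l 525256463)) (b (c (l 525339407) (l 525299215)) (l 4))) (l 4))) (a (b (c (l 525425935) (l 525387535)) (l 4)) (l 4))) (l 4)))), by decide +kernel⟩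

def k75_A00pp_022_s3 : ∃ t, chk3 f_A00pp_022_s3 t 73 61 1 = true :=
  ⟨(b (a (b (b (a (b (l 16721896) (c (l 16727712) (l 16727464))) (c (a (l 16729768) (l 16727744)) (b (l 16728344) (l 16733952)))) (b (a (c (l 16733328) (l 16733120)) (a (l 16738008) (l 16741152))) (a (a (l 16737224) (l 16740384)) (a (l 16743512) (l 525506831))))) (a (b (a (b (l 16742784) (l 525310223)) (b (l 525357839) (l 525408527))) (b (a (l 525357071) (l 525458959)) (a (l 525404175) (l 525508623)))) (b (a (b (l 525458703) (l 525511951)) (l 525590031)) (l 525373967)))) (b (a (b (a (b (l 16733304) (l 16738808)) (l 525565199)) (l 525365263)) (b (l 525453583) (l 525579279))) (a (b (l 525480975) (l 525591567)) (b (l 525699855) (l 525815311))))) (b (a (a (b (a (b (l 525451023) (l 525496591)) (l 525580559)) (l 525348111)) (b (l 525474575) (l 525569807))) (a (b (l 525697039) (l 4)) (l 4))) (l 4))), by decide +kernel⟩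

def k76_A00pp_022_s3 : ∃ t, chk3 f_A00pp_022_s3 t 37 30 1 = true :=
  ⟨(b (a (b (a (b (a (b (l 16657352) (l 16669880)) (b (l 16665048) (l 16677368))) (a (b (l 16682208) (l 16694232)) (b (l 16689496) (l 16701296)))) (b (a (b (l 16672648) (l 16684760)) (b (l 16680128) (l 16692008))) (a (b (l 16696648) (l 16708208)) (b (l 16703656) (l 16714952))))) (a (b (a (b (l 16705928) (l 525246735)) (b (l 16702280) (l 525453327))) (a (b (l 525392399) (l 525532943)) (b (l 525603599) (l 525748751)))) (b (a (b (l 525505807) (l 525665551)) (b (l 525719311) (l 525883663))) (a (b (l 525820431) (l 525970447)) (a (l 526064399) (l 526178063)))))) (b (a (b (b (a (l 16687472) (l 16694648)) (a (l 16699096) (l 16706008))) (a (b (l 16710480) (l 526032655)) (l 526160911))) (b (b (a (l 16701656) (l 16708480)) (a (l 16712736) (l 16719280))) (a (l 526384143) (l 526612495)))) (a (b (a (l 526290959) (l 526517775)) (a (l 526619407) (l 526855183))) (b (a (l 526749967) (l 526987279)) (a (l 527096591) (l 527343119)))))) (b (b (a (a (a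 (b (l 525668367) (l 525798927)) (b (l 525889039) (l 526024463))) (a (a (l 526128399) (l 526244111)) (l 526688271))) (a (a (l 526928399) (l 527173647)) (a (l 527424527) (l 4)))) (a (a (a (b (l 525924367) (l 526044687)) (a (l 526159119) (l 526277135))) (a (l 526724367) (l 4))) (l 4))) (l 4))), by decide +kernel⟩

def k77_A00pp_022_s3 : ∃ t, chk3 f_A00pp_022_s3 t 18 31 1 = true :=
  ⟨(l 4), by decide +kernel⟩

def k78_A00pp_022_s3 : ∃ t, chk3 f_A00pp_022_s3 t 19 15 1 = true :=
  ⟨(b (b (b (a (a (b (a (b (a (l 16715112) (l 16711064)) (l 526660623)) (b (b (l 526640911) (l 526976527)) (l 527134735))) (a (a (l 526845967) (l 527084559)) (a (l 527328271) (l 527576847)))) (b (b (a (b (l 527403279) (l 527464975)) (b (l 527923215) (l 527972879))) (a (l 527628559) (l 528141071))) (a (l 527957519) (l 528483087)))) (a (a (b (b (b (l 528479759) (l 528503055)) (l 528671503)) (l 529026575)) (b (a (b (b (l 528947983) (b (l 528910351) (l 528930319))) (l 529081359)) (b (a (b (l 529228559) (b (l 528880655) (l 529153039)))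 (b (a (l 529401615) (a (l 529501199) (l 529561871))) (a (b (l 529297679) (b (l 528975375) (a (l 529237263) (l 529009167)))) (b (a (l 529135887) (l 529129487)) (l 529282831))))) (b (a (l 529226767) (a (b (a (l 529282319) (l 4)) (l 4)) (l 4))) (l 4)))) (l 4))) (b (b (a (a (b (a (a (a (l 529557007) (l 529547535)) (l 529517327)) (l 529442575)) (l 529221391)) (b (l 529281807) (l 4))) (l 4)) (l 4)) (l 4)))) (a (a (a (b (a (l 527229711) (l 527477263)) (a (l 527594767) (l 527851535))) (b (a (l 527729935) (l 527987471)) (l 527976463))) (b (a (l 528381455) (l 528924687)) (l 4))) (l 4))) (l 4)) (l 4)), by decide +kernel⟩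

def k79_A00pp_022_s3 : ∃ t, chk3 f_A00pp_022_s3 t 10 6 4 = true :=
  ⟨(a (b (b (l 6) (a (l 16384080) (b (l 16429152) (l 16416576)))) (b (a (b (l 16447712) (l 16458344)) (a (l 16432232) (l 16393120))) (a (b (l 16402464) (a (l 16534888) (l 16528480))) (a (b (l 16484856) (l 16541664)) (b (l 16502160) (b (l 16552080) (l 16504864))))))) (b (a (b (l 16416344) (b (l 16411488) (l 16415384))) (b (b (l 16399024) (l 16333008)) (b (a (l 16419344) (l 16436256)) (a (l 16438768) (l 16459752))))) (b (a (b (a (l 16429760) (l 16449264)) (a (l 16430808) (b (l 16483152) (l 16511792)))) (b (a (l 16389232) (l 16453848)) (a (b (l 16511016) (l 16537960)) (b (l 16526696) (l 16550008))))) (a (a (b (b (l 16513616) (l 16547232)) (b (a (l 16575312) (l 16590960)) (a (l 16612840) (l 16625624)))) (b (b (l 16544112) (l 16534440)) (b (a (l 16603296) (l 16611672)) (a (l 16635344) (l 16641520))))) (b (a (b (a (l 16561520) (l 16568336)) (a (l 16589648) (l 16595088))) (b (a (l 16572696) (l 16575128)) (l 16599872))) (a (b (a (l 16618168)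 (l 16621912)) (a (l 16645848) (l 16650296))) (b (a (l 16625848) (l 16629856)) (a (l 16654832) (l 16659328))))))))), by decide +kernel⟩

def k80_A00pp_022_s3 : ∃ t, chk3 f_A00pp_022_s3 t 11 6 4 = true :=
  ⟨(b (a (a (b (b (l 16411048) (a (l 16429744) (l 16442864))) (a (b (l 16451744) (l 16432720)) (b (l 16462400) (l 16438016)))) (b (b (l 16334912) (a (l 16443120) (l 16434768))) (b (a (l 16461312) (l 16454280)) (a (l 16476888) (l 16474448))))) (b (a (b (l 16395392) (l 16421248)) (b (l 16373448) (l 16407088))) (a (b (l 16446488) (a (l 16473152) (l 16473176))) (b (l 16441696) (l 525395215))))) (a (b (a (a (b (b (l 16496200) (l 16513064)) (b (a (l 16531648) (l 16532496)) (l 16554160))) (b (l 16504992) (b (l 16534680) (l 16558336)))) (b (a (l 16505560) (l 16506960)) (a (b (l 16537672) (l 16563352)) (b (l 16541992) (l 16569968))))) (a (b (a (b (l 16579304) (a (l 16605008) (l 16608400))) (b (l 16584952) (a (l 16612016) (l 16615968)))) (a (b (a (l 16633824) (l 16638032)) (a (l 16664104) (l 16648192))) (b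 (l 526761999) (a (l 526824463) (l 526430479))))) (b (a (b (l 16591776) (l 526195727)) (b (l 16601120) (l 525423375))) (a (b (l 525987343) (l 525824527)) (b (l 525188367) (l 524997647)))))) (b (a (b (a (l 16509768) (l 16515232)) (a (l 525468687) (l 524725519))) (b (a (l 16523280) (l 16534024)) (a (l 523970575) (l 523208207)))) (a (b (a (l 524777487) (l 523982095)) (a (b (l 524368143) (b (l 524200207) (l 524102159))) (b (l 523531023) (l 523014927)))) (b (a (l 523173903) (l 522357007)) (a (l 522536207) (l 521660943))))))), by decide +kernel⟩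

def k81_A00pp_022_s3 : ∃ t, chk3 f_A00pp_022_s3 t 20 28 4 = true :=
  ⟨(a (b (a (l 16586880) (b (l 16572912) (l 16606336))) (a (b (l 16632464) (l 16665456)) (b (a (l 16637880) (l 16648792)) (a (l 16633320) (b (l 16677656) (l 16696936)))))) (a (b (b (a (l 16586928) (l 16602576)) (a (l 16624880) (l 16641496))) (b (a (l 16579824) (l 16596360)) (a (b (l 16692664) (l 16710496)) (b (l 16706800) (l 16639256))))) (b (b (a (l 16619072) (l 16635312)) (a (l 16657944) (l 16671288))) (b (a (l 16651760) (l 16683056)) (a (a (l 16702192) (l 16706448)) (b (l 16683352) (l 530005007))))))), by decide +kernel⟩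

def k82_A00pp_022_s3 : ∃ t, chk3 f_A00pp_022_s3 t 40 29 4 = true :=
  ⟨(b (a (b (a (l 16698304) (b (l 16694648) (l 16712488))) (a (b (l 16682008) (b (l 16735952) (l 16702008))) (b (l 529721871) (l 531078671)))) (b (a (b (l 16703384) (l 16679872)) (b (l 16673136) (l 16710952))) (b (a (l 530527503) (l 530434319)) (a (b (l 531099407) (l 531537167)) (a (l 531585295) (l 531835407)))))) (a (b (b (b (a (l 531514895) (l 531876879)) (l 531461135)) (a (l 531693583) (l 530699023))) (b (a (l 530271247) (b (l 530375951) (a (l 529792271) (l 4)))) (a (l 529189903) (l 4)))) (b (b (a (b (l 532059663) (l 531093775)) (b (a (l 532270351) (l 532012303)) (b (l 531767311) (l 531379215)))) (a (a (b (l 531500815) (l 530707727)) (b (l 531212815) (l 530401551))) (b (l 530739727) (a (l 530073615) (l 4))))) (a (b (a (b (a (l 530009615) (l 529852943)) (l 4)) (l 4)) (l 4)) (l 4))))), by decide +kernel⟩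

def k83_A00pp_022_s3 : ∃ t, chk3 f_A00pp_022_s3 t 41 29 4 = true :=
  ⟨(b (a (b (a (b (l 16706256) (a (l 16697832) (l 16703064))) (b (l 16717224) (a (l 16749608) (l 16753232)))) (a (b (a (l 16742968) (l 531875343)) (a (l 531896591) (a (l 531772175) (b (l 16764600) (l 531333391))))) (b (a (b (l 16758576) (l 16762248)) (b (l 16760824) (l 531765775))) (a (b (b (l 16765128) (l 16767168)) (a (l 531043343) (l 531326223))) (l 531221263))))) (b (a (b (a (l 16702160) (l 16725784)) (a (l 16750560) (l 531622671))) (b (l 531069711) (l 531398927))) (a (b (l 531996431) (b (l 531729423) (l 531550223))) (b (l 531479823) (b (l 531934479) (l 4)))))) (b (a (b (a (a (b (l 531313167) (b (a (l 531337231) (l 530883599)) (l 530876431))) (a (b (a (l 531245071) (l 530807311)) (b (a (l 530594575) (l 530876687)) (b (l 530784271) (l 4)))) (b (b (l 531130895) (l 531003663)) (l 530838799)))) (b (l 531170063) (b (l 531034383) (l 4)))) (a (a (b (a (l 530309903) (l 4)) (l 4)) (l 4)) (l 4))) (b (a (b (a (l 531320079) (l 4)) (l 4))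 (l 4)) (l 4))) (l 4))), by decide +kernel⟩

def k84_A00pp_022_s3 : ∃ t, chk3 f_A00pp_022_s3 t 21 14 4 = true :=
  ⟨(b (a (b (a (b (a (l 16648432) (l 16658488)) (a (l 16597656) (l 16667128))) (b (a (l 16664904) (l 529057551)) (a (l 529412879) (l 16655928)))) (b (a (a (a (l 16667232) (l 16669968)) (l 529861903)) (a (l 529613327) (l 529378575))) (a (a (b (l 530345487) (l 16721536)) (b (l 16734848) (l 530246415))) (a (b (l 16719240) (l 529969167)) (b (l 529567759) (a (l 529777167) (l 529669647))))))) (b (a (b (a (l 16674464) (l 16679488)) (a (l 16682352) (b (l 16701560) (l 16716120)))) (b (a (l 16663496) (l 527918607)) (a (b (l 16707040) (l 16722008)) (l 527932175)))) (a (b (a (b (l 16724752) (l 529179919)) (b (l 16709696) (l 528825103))) (a (b (a (l 529369359) (l 529190927)) (a (l 529485583) (l 529292559))) (l 528943119))) (b (b (l 528175119) (l 528224783)) (a (l 528535055) (b (l 528081935) (l 4))))))) (b (a (a (b (b (a (l 530769423) (l 530466831)) (l 530672399)) (b (l 531293199) (l 4))) (b (a (b (b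 (l 530107919) (l 530236943)) (l 530473999)) (b (a (b (l 529901583) (l 530026511)) (l 529805071)) (a (b (l 530124047) (l 4)) (l 4)))) (l 4))) (b (a (b (l 529297167) (l 4)) (l 4)) (l 4))) (l 4))), by decide +kernel⟩

def k85_A00pp_022_s3 : ∃ t, chk3 f_A00pp_022_s3 t 11 14 4 = true :=
  ⟨(b (a (a (b (a (b (a (l 527536655) (l 527144207)) (a (l 527534351) (l 527127823))) (b (a (l 526743823) (l 526336015)) (b (l 526506511) (l 526500111)))) (a (b (a (l 527316495) (l 527163663)) (b (a (l 527658511) (l 4)) (l 4))) (b (l 526514703) (l 4)))) (b (a (b (l 525709071) (l 525642255)) (l 524798735)) (b (a (l 525625615) (l 4)) (l 4)))) (b (a (b (a (l 523975695) (a (l 523306255) (l 522854159))) (l 4)) (l 4)) (l 4))) (l 4)), by decide +kernel⟩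

def k86_A00pp_022_s3 : ∃ t, chk3 f_A00pp_022_s3 t 5 15 4 = true :=
  ⟨(l 4), by decide +kernel⟩

def k87_A00pp_022_s3 : ∃ t, chk3 f_A00pp_022_s3 t 10 6 5 = true :=
  ⟨(a (b (b (l 6) (a (l 16382632) (b (l 16427472) (l 16414848)))) (b (a (b (l 16446144) (l 16456808)) (a (l 16430584) (b (l 16420632) (l 16450944)))) (a (b (l 16401048) (a (l 16533696) (l 16527264))) (a (b (l 16483488) (l 16540600)) (b (l 16500992) (b (l 16551192) (l 16504176))))))) (b (a (b (l 16414656) (b (l 16409832) (l 16413808))) (a (b (l 16402736) (b (l 16417880) (l 16437496))) (b (l 16409936) (b (l 16435024) (l 16458720))))) (b (a (b (a (l 16428256) (l 16447992)) (a (b (l 16456256) (l 16483504)) (b (l 16482096) (l 16510912)))) (b (a (b (l 16461640) (l 16483448)) (b (l 16485160) (l 16505256))) (a (b (l 16510232) (l 16537312)) (b (l 16526048) (a (l 16547520) (l 16550856)))))) (a (a (b (b (l 16512632) (l 16546432)) (b (a (l 16574640) (l 16590432)) (a (l 16612360) (l 16625248)))) (b (b (l 16543408) (a (l 16569512) (l 16581384))) (b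 (a (l 16602864) (l 16611296)) (a (l 16635040) (l 16599296))))) (b (a (b (a (l 16560968) (l 16567832)) (a (l 16589200) (l 16594672))) (a (b (l 16572208) (l 16597776)) (b (l 16574632) (l 16601152)))) (a (b (a (l 16617824) (l 16621568)) (a (l 16645568) (l 16650024))) (b (a (l 16625504) (l 16629512)) (a (l 16654568) (l 16638096))))))))), by decide +kernel⟩

def k88_A00pp_022_s3 : ∃ t, chk3 f_A00pp_022_s3 t 11 6 5 = true :=
  ⟨(b (a (a (b (b (l 16409744) (a (l 16428536) (l 16441848))) (a (b (l 16450712) (b (l 16470216) (l 16480400))) (b (l 16461496) (b (l 16474176) (l 16483888))))) (b (b (a (l 16418760) (l 16413920)) (a (l 16442136) (l 16433728))) (b (a (l 16460408) (l 16453304)) (a (l 16476016) (l 16473536))))) (b (a (b (l 16394152) (l 16420096)) (b (l 16372024) (l 16405792))) (a (b (l 16445424) (a (l 16472192) (l 16472184))) (b (l 16440528) (l 525625103))))) (a (b (a (a (b (b (l 16495440) (l 16512368)) (b (a (l 16531016) (l 16531856)) (l 16553592))) (b (l 16504240) (b (l 16534024) (l 16557752)))) (b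 (a (l 16504776) (l 16506152)) (a (b (l 16536992) (l 16562752)) (b (l 16541296) (l 16569360))))) (a (b (a (b (l 16578800) (a (l 16604584) (l 16607976))) (b (l 16584448) (a (l 16611592) (l 16615536)))) (a (b (a (l 16633480) (l 16637696)) (a (l 16642872) (l 16647928))) (b (l 526736143) (a (l 526799631) (l 526403855))))) (b (a (b (l 16591264) (l 526166543)) (b (l 16600600) (l 525390351))) (a (b (l 525957903) (l 525795087)) (b (l 525155087) (l 524964367)))))) (b (a (b (a (l 16508936) (l 16514384)) (a (l 525433615) (l 524686607))) (b (a (l 16522424) (l 16533184)) (a (l 523928079) (l 523161615)))) (a (b (a (l 524740879) (l 523941391)) (a (b (l 524331023) (b (l 524162831) (l 524064527))) (b (l 523489551) (l 522973199)))) (b (a (l 523129359) (l 522308111)) (a (l 522490383) (l 521610511))))))), by decide +kernel⟩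

def k89_A00pp_022_s3 : ∃ t, chk3 f_A00pp_022_s3 t 20 28 5 = true :=
  ⟨(a (b (a (l 16585928) (b (l 16571912) (l 16605512))) (a (b (l 16631736) (l 16664896)) (b (a (l 16637208) (l 16648216)) (a (l 16632840) (b (l 16677232) (l 16696616)))))) (a (b (b (a (l 16586072) (l 16601864)) (a (l 16624224) (l 16641000))) (b (a (l 16579376) (l 16596056)) (a (b (l 16692360) (l 16710288)) (b (l 16706616) (l 16639144))))) (b (b (a (l 16618512) (l 16634896)) (a (l 16657592) (l 16671040))) (b (a (l 16609616) (a (l 16701632) (l 16622064))) (a (b (l 16717840) (l 16690512)) (b (l 16683288) (a (l 16736952) (l 16697368)))))))), by decide +kernel⟩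

def k90_A00pp_022_s3 : ∃ t, chk3 f_A00pp_022_s3 t 40 29 5 = true :=
  ⟨(b (a (b (a (l 16697920) (b (l 16694256) (l 16712192))) (a (b (l 16681752) (a (l 16738640) (l 16699288))) (b (l 16708712) (l 531056399)))) (b (a (b (l 16703056) (l 16679640)) (b (l 16714848) (l 16710792))) (b (a (l 530503695) (l 530417423)) (a (a (l 16730304) (l 531375119)) (a (l 531572239) (l 531825935)))))) (a (b (b (b (a (l 531496207) (l 531861263)) (l 531450127)) (a (l 531431951) (l 530700815))) (b (a (l 530265359) (b (l 530367503) (a (l 529778959) (l 4)))) (a (l 529172239) (l 4)))) (b (b (a (b (l 532048655) (l 531100175)) (b (a (l 532263183) (l 532015375)) (b (l 531768847) (l 531377167)))) (a (a (b (l 531501327) (l 530701071)) (b (l 531210255) (l 530391567))) (b (l 530731791) (a (l 530060047) (l 4))))) (a (b (a (b (a (l 529996815) (l 529838351)) (l 4)) (l 4)) (l 4)) (l 4))))), by decide +kernel⟩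

def k91_A00pp_022_s3 : ∃ t, chk3 f_A00pp_022_s3 t 41 29 5 = true :=
  ⟨(b (a (b (a (b (l 16685152) (a (l 16697736) (l 16703008))) (b (l 16738136) (a (l 16749576) (l 16753216)))) (a (b (a (l 16753408) (l 531870223)) (a (l 531891727) (a (l 531770639) (b (l 16764592) (l 531327759))))) (a (b (b (l 16758568) (l 16762240)) (b (b (l 16765112) (l 16767160)) (a (l 531037199) (l 531320079)))) (b (b (l 16760816) (l 531761935)) (l 531215887))))) (b (a (b (a (l 16702136) (l 16704792)) (a (l 16750552) (l 531620879))) (b (l 531065359) (l 531396623))) (a (b (l 531993359) (a (l 531584527) (b (l 531776271) (l 531596303)))) (b (a (l 531823119) (l 531674127)) (b (l 531930895) (l 4)))))) (b (a (b (a (a (b (l 531311631) (b (a (l 531334159) (l 530878479)) (l 530868751))) (a (b (a (l 531239951) (l 530800143)) (b (a (l 530586383) (l 530868495)) (b (l 530775311) (l 4)))) (b (b (l 531123983) (l 530995727)) (l 530830095)))) (b (l 531162895) (b (l 531026703) (l 4)))) (a (a (b (a (l 530297359) (l 4)) (l 4)) (l 4)) (l 4))) (b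 (a (b (a (l 531313679) (l 4)) (l 4)) (l 4)) (l 4))) (l 4))), by decide +kernel⟩

def k92_A00pp_022_s3 : ∃ t, chk3 f_A00pp_022_s3 t 21 14 5 = true :=
  ⟨(b (a (b (a (b (a (l 16648128) (l 16658248)) (a (l 16639424) (b (l 16680760) (l 16695000)))) (b (a (l 16622752) (b (l 16662880) (l 16676440))) (a (l 529131791) (l 16676760)))) (b (a (a (a (l 16667136) (l 16669880)) (b (l 16708928) (l 16721752))) (a (a (l 16676880) (l 16700512)) (l 529366799))) (a (a (b (l 530337551) (l 16721504)) (b (l 16734792) (l 530238735))) (a (b (l 16729680) (l 529960463)) (b (l 529557519) (a (l 529767951) (l 529660175))))))) (b (a (b (a (l 16674264) (l 16658320)) (a (b (l 16695976) (l 16710392)) (b (l 16701408) (l 16716008)))) (b (a (b (l 16676912) (l 16691848)) (b (l 16681928) (l 16697280))) (a (b (l 16706904) (l 16721904)) (l 527913743)))) (a (b (a (b (l 16724664) (a (l 16737184) (l 16740216))) (b (l 16720096) (l 528811279))) (a (b (a (l 529358351) (l 529179151)) (a (l 529475343) (l 529281551))) (l 528930575))) (b (b (l 528158223)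 (l 528208655)) (a (l 528520719) (b (l 528065551) (l 4))))))) (b (a (a (b (b (a (l 530764303) (l 530460687)) (l 530668559)) (b (l 531291407) (l 4))) (b (a (b (b (l 530100239) (l 530230031)) (l 530468623)) (b (a (b (l 529893391) (l 530019087)) (b (l 529766415) (l 529826831))) (a (b (l 529848847) (l 4)) (l 4)))) (l 4))) (b (a (b (l 529286671) (l 4)) (l 4)) (l 4))) (l 4))), by decide +kernel⟩

def k93_A00pp_022_s3 : ∃ t, chk3 f_A00pp_022_s3 t 11 14 5 = true :=
  ⟨(b (a (a (b (a (b (a (l 527515663) (l 527121679)) (a (l 527514127) (l 527106063))) (b (a (l 526719503) (l 526309647)) (b (l 526481423) (l 526475535)))) (a (b (a (l 527297295) (l 527142671)) (b (a (l 527640079) (l 4)) (l 4))) (b (l 526490895) (l 4)))) (b (a (b (l 525679887) (l 525613583)) (l 524765711)) (b (a (l 525597455) (l 4)) (l 4)))) (b (a (b (a (l 523938319) (a (l 523265551) (l 522811151))) (l 4)) (l 4)) (l 4))) (l 4)), by decide +kernel⟩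

def k94_A00pp_022_s3 : ∃ t, chk3 f_A00pp_022_s3 t 5 15 5 = true :=
  ⟨(l 4), by decide +kernel⟩

def k95_A00pp_022_s3 : ∃ t, chk3 f_A00pp_022_s3 t 10 6 6 = true :=
  ⟨(a (b (b (l 6) (a (l 16381184) (b (l 16425784) (l 16413120)))) (b (a (b (l 16444568) (l 16455264)) (a (l 16428944) (b (l 16418992) (l 16449488)))) (a (b (l 16399616) (a (l 16532504) (l 16526040))) (a (b (l 16482120) (l 16455640)) (b (l 16499816) (b (l 16550296) (l 16545424))))))) (b (a (b (l 16412960) (b (l 16408168) (l 16412224))) (a (b (l 16401096) (b (l 16416416) (l 16436224))) (b (l 16408472) (b (l 16433784) (l 16415744))))) (b (a (b (a (l 16426752) (l 16362832)) (a (b (l 16454936) (l 16482344)) (b (l 16481040) (l 16510024)))) (b (a (b (l 16460552) (l 16482504)) (b (l 16484312) (l 16504512))) (a (b (l 16509440) (l 16494720)) (b (a (l 16523456) (l 16527976)) (a (l 16546952) (l 16550288)))))) (a (a (b (b (l 16511640) (l 16461752)) (b (a (l 16573968) (l 16589896)) (a (l 16611888) (l 16624880)))) (b (b (l 16458824) (a (l 16568920)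 (l 16580888))) (b (a (l 16602432) (a (l 16609808) (l 16613136))) (a (l 16634736) (a (l 16639616) (l 16642200)))))) (b (a (b (a (l 16560416) (l 16567320)) (a (l 16588760) (l 16573280))) (a (b (l 16571720) (l 16597360)) (b (l 16574136) (l 16600736)))) (a (b (a (b (l 16610464) (l 16624456)) (l 16621224)) (a (l 16645296) (l 16628784))) (b (a (l 16625160) (l 16629168)) (a (l 16633328) (b (l 16651392) (l 16666432)))))))))), by decide +kernel⟩

def k96_A00pp_022_s3 : ∃ t, chk3 f_A00pp_022_s3 t 11 6 6 = true :=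
  ⟨(b (a (a (b (b (l 16408440) (a (l 16427320) (l 16440824))) (a (b (l 16449672) (b (l 16469336) (l 16479576))) (b (l 16460592) (b (l 16473336) (l 16483088))))) (b (b (a (l 16417648) (l 16412808)) (a (l 16441160) (l 16432688))) (b (a (l 16459496) (l 16452328)) (a (l 16475144) (l 16472624))))) (b (a (b (l 16392904) (l 16418936)) (b (l 16370600) (l 16404488))) (a (b (l 16444352) (a (l 16471240) (l 16471184))) (b (l 16439360) (l 525586447))))) (a (b (a (a (b (b (l 16494680) (l 16511672)) (b (a (l 16530384) (l 16531208)) (l 16553016))) (b (l 16503488) (b (l 16533360) (l 16557160)))) (b (a (l 16504000) (l 16505344)) (a (b (l 16536312) (l 16562152)) (b (l 16540600) (l 16568752))))) (a (b (a (b (l 16578304) (a (l 16604168) (l 16607552))) (b (l 16583936) (a (l 16611160) (l 16615112)))) (a (b (a (l 16633136) (l 16637352)) (a (l 16642608) (l 527164943))) (b (a (l 16641864) (l 16647072)) (a (l 526774799) (l 526377231))))) (b (a (b (l 16590744) (a (l 16619736) (l 16625016))) (b (l 16600088) (l 525357327))) (b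 (a (l 526062607) (l 525121807)) (a (l 525765647) (l 524931087)))))) (b (a (b (a (l 16508096) (l 16513536)) (a (l 525398543) (l 524647695))) (b (a (l 16521576) (l 16532344)) (a (l 523885327) (l 523114767)))) (a (b (a (l 524704271) (l 523900943)) (a (b (l 524293647) (b (l 524125455) (l 524027151))) (b (l 523448335) (a (l 523421199) (l 522979855))))) (b (a (b (l 523270415) (l 522909199)) (l 522259215)) (a (l 522444303) (l 521559823))))))), by decide +kernel⟩

def k97_A00pp_022_s3 : ∃ t, chk3 f_A00pp_022_s3 t 20 28 6 = true :=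
  ⟨(a (b (a (l 16584976) (l 16545592)) (a (b (l 16631000) (l 16664336)) (b (a (l 16636528) (l 16647632)) (a (l 16590416) (b (l 16676800) (l 16696288)))))) (a (b (b (a (l 16585216) (l 16601152)) (a (l 16623576) (l 16640496))) (b (a (l 16578928) (l 16595752)) (a (b (l 16692064) (l 16710072)) (a (l 16627824) (l 16675824))))) (b (b (a (l 16617952) (l 16634480)) (a (l 16657232) (l 16670792))) (b (a (l 16609424) (a (l 16701496) (l 16621952))) (a (b (l 16717736) (l 16690464)) (b (l 16683224) (a (l 16736920) (l 16697336)))))))), by decide +kernel⟩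

def k98_A00pp_022_s3 : ∃ t, chk3 f_A00pp_022_s3 t 40 29 6 = true :=
  ⟨(b (a (b (a (l 16697528) (b (l 16693856) (l 16711888))) (a (b (l 16681504) (a (l 16738472) (l 16699136))) (b (l 16708504) (l 531034127)))) (b (a (b (l 16702728) (l 16679408)) (b (l 16714616) (l 16689672))) (b (a (l 530479631) (l 530131727)) (a (b (l 16728416) (l 531505679)) (a (l 531559183) (l 531816719)))))) (a (b (b (b (a (l 531477519) (l 531845647)) (l 531439119)) (a (l 531439119) (l 530433807))) (b (a (l 530259727) (b (l 530358799) (a (l 529765391) (l 4)))) (a (l 529154575) (l 4)))) (b (b (a (b (l 532037135) (a (l 532318735) (l 532039951))) (b (a (l 532255759) (l 532018703)) (b (l 531770383) (l 531375119)))) (a (a (b (l 531502095) (l 530694415)) (b (l 531207695) (l 530381583))) (b (l 530723855) (a (l 530046223) (l 4))))) (a (b (b (a (a (l 529984015) (l 529823759)) (l 4)) (l 4)) (l 4)) (l 4))))), by decide +kernel⟩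

def k99_A00pp_022_s3 : ∃ t, chk3 f_A00pp_022_s3 t 41 29 6 = true :=
  ⟨(b (a (b (a (b (l 16685008) (l 530758415)) (b (l 16738072) (a (l 16749544) (l 16753208)))) (a (b (a (l 16753360) (l 531865103)) (a (l 531886863) (a (l 531769359) (b (l 16764584) (l 531322127))))) (a (b (b (l 16758560) (l 16762232)) (b (b (l 16765104) (l 16767152)) (a (l 531031055) (l 531313935)))) (b (b (l 16760800) (l 531757839)) (l 530941967))))) (b (a (b (a (l 16702104) (l 16704776)) (a (l 16745304) (l 531619087))) (b (l 531061263) (l 531394319))) (a (b (l 531990543) (a (l 531579407) (b (l 531772175) (l 531591183)))) (b (a (l 531822863) (l 531673359)) (b (l 531927311) (l 4)))))) (b (a (b (a (a (b (l 531310095) (b (a (l 531330831) (l 530873103)) (l 530861327))) (a (b (a (l 531234831) (l 530793231)) (b (a (l 530577935) (l 530860047)) (b (l 530766607) (l 4)))) (b (b (l 531117071) (l 530988047)) (l 530553103)))) (b (l 531155983) (b (l 531018767) (l 4)))) (a (a (b (a (l 530284559) (l 4)) (l 4)) (l 4)) (l 4))) (b (a (b (a (l 531307279)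 (l 4)) (l 4)) (l 4)) (l 4))) (l 4))), by decide +kernel⟩

def k100_A00pp_022_s3 : ∃ t, chk3 f_A00pp_022_s3 t 21 14 6 = true :=
  ⟨(b (a (b (a (b (a (l 16647816) (l 16616064)) (a (l 16639248) (b (l 16680592) (l 16694864)))) (b (a (b (l 16657208) (l 16671656)) (b (l 16662664) (l 16676248))) (a (b (l 16686048) (l 16699424)) (b (l 16690488) (l 16704680))))) (b (a (a (a (l 16667040) (l 16669784)) (b (l 16666888) (l 16721672))) (a (a (l 16676792) (l 16700424)) (l 529355023))) (a (a (b (l 530329615) (l 16721464)) (b (l 16692800) (l 530231311))) (b (a (l 16729624) (l 529547023)) (a (l 529952015) (a (l 529758735) (l 529650703))))))) (b (a (b (a (l 16653088) (b (l 16671720) (l 16686488))) (a (b (l 16695832) (l 16710272)) (b (l 16701264) (l 16715896)))) (b (a (b (l 16676696) (l 16691672)) (b (l 16681720) (l 16697104))) (a (b (l 16706760) (l 16700824)) (l 527895311)))) (a (b (a (b (l 16703608) (a (l 16737120) (l 16740152))) (b (l 16720016) (l 528797455))) (a (b (a (l 529347343) (l 529167119)) (a (l 529465103)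 (l 529270543))) (l 528917775))) (b (b (l 528141583) (a (l 528398351) (l 527987983))) (a (l 528506383) (b (l 528049167) (l 4))))))) (b (a (a (b (b (a (l 530759183) (l 530454287)) (l 530396175)) (b (l 531289359) (l 4))) (b (a (b (b (l 530092559) (l 530223375)) (l 530462991)) (b (a (b (l 529885199) (b (l 529955343) (l 530027279))) (b (l 529757711) (l 529818639))) (a (b (a (l 530173967) (l 530065679)) (l 4)) (l 4)))) (l 4))) (b (a (b (l 529276175) (l 4)) (l 4)) (l 4))) (l 4))), by decide +kernel⟩

def k101_A00pp_022_s3 : ∃ t, chk3 f_A00pp_022_s3 t 11 14 6 = true :=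
  ⟨(b (a (a (b (a (b (a (l 527494671) (l 527098895)) (a (l 527494159) (b (l 527083023) (l 527088655)))) (b (a (l 526694927) (l 526283279)) (b (l 526456591) (l 526451215)))) (a (b (a (b (l 527528463) (l 527568399)) (l 527121679)) (b (a (l 527621903) (l 4)) (l 4))) (b (l 526466831) (l 4)))) (a (b (b (l 525650703) (l 525584655)) (b (l 525569551) (l 4))) (b (l 524732687) (l 4)))) (b (a (b (a (l 523900687) (a (l 523224847) (l 522768143))) (l 4)) (l 4)) (l 4))) (l 4)), by decide +kernel⟩

def k102_A00pp_022_s3 : ∃ t, chk3 f_A00pp_022_s3 t 5 15 6 = true :=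
  ⟨(l 4), by decide +kernel⟩

def k103_A00pp_022_s3 : ∃ t, chk3 f_A00pp_022_s3 t 10 6 7 = true :=
  ⟨(a (b (b (l 6) (a (l 16379728) (b (l 16424088) (l 16411384)))) (b (a (b (l 16442984) (l 16453712)) (a (l 16427288) (b (l 16417352) (l 16448024)))) (a (b (l 16398184) (a (l 16531304) (l 16524816))) (a (b (l 16480736) (l 16454560)) (b (l 16498640) (b (l 16465512) (a (l 16578304) (l 16595008)))))))) (b (a (b (l 16411264) (b (l 16406504) (l 16410632))) (b (a (l 16399456) (l 16323120)) (b (a (l 16414944) (l 16432544)) (a (l 16434944) (b (l 16450128) (l 16465608)))))) (b (a (b (a (l 16425240) (b (l 16434008) (l 16455144))) (a (b (l 16453600) (l 16481184)) (b (l 16479976) (l 16425248)))) (b (a (b (l 16459456) (l 16481552)) (b (l 16483456) (l 16503768))) (a (b (l 16508656) (a (l 16530616) (l 16540552))) (b (a (l 16522792) (l 16527344)) (a (l 16546376) (l 16549728)))))) (a (a (b (b (l 16510648) (l 16502888)) (b (a (l 16573288) (l 16589360)) (a (l 16611408) (l 16624504)))) (b (b (a (l 16534608) (l 16548704))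 (a (l 16568328) (l 16580392))) (b (a (l 16602000) (a (l 16609424) (l 16612768))) (a (a (l 16632272) (l 16636360)) (a (l 16639336) (l 16620952)))))) (a (b (b (a (l 16559856) (l 16566808)) (a (b (l 16581800) (l 16595792)) (b (l 16587104) (l 16600568)))) (b (a (a (l 16615928) (l 16597232)) (b (l 16613912) (l 16627920))) (a (b (l 16637928) (l 16652184)) (b (l 16642240) (l 16656792))))) (b (a (b (b (l 16564880) (l 16577624)) (l 16596936)) (b (l 16573640) (l 16600312))) (b (a (b (l 16617704) (l 16632024)) (b (l 16621560) (l 16636184))) (a (b (l 16646640) (l 16661488)) (b (l 16651104) (l 16666184)))))))))), by decide +kernel⟩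

def k104_A00pp_022_s3 : ∃ t, chk3 f_A00pp_022_s3 t 11 6 7 = true :=
  ⟨(b (a (a (b (b (l 16407128) (a (l 16426112) (l 16439800))) (a (b (l 16448632) (b (l 16468448) (l 16478744))) (b (l 16459680) (b (l 16472496) (l 16482280))))) (b (b (a (l 16416544) (l 16411704)) (a (l 16440176) (l 16431640))) (b (a (l 16458592) (l 16451352)) (a (l 16474280) (l 16471704))))) (b (a (b (l 16391656) (l 16417784)) (b (l 16369168) (l 16403184))) (a (b (l 16443288) (a (l 16470280) (l 16470192))) (b (l 16438192) (l 525547791))))) (a (b (a (a (b (b (l 16493920) (l 16510976)) (b (a (l 16529744) (l 16530560)) (l 16552440))) (b (l 16502736) (b (l 16532704) (l 16556576)))) (b (a (l 16503216) (l 16504536)) (a (a (l 16547048) (l 16549424)) (b (l 16539896) (l 16568144))))) (a (b (a (b (a (l 16576408) (l 16579208)) (a (l 16603744) (l 16607128))) (b (a (l 16581976) (l 16584960)) (a (l 16610736) (l 16614680)))) (a (b (a (b (l 16625464) (l 16640352)) (l 16616040)) (a (b (l 16655600) (l 16671112)) (l 526873359))) (b (a (l 16641528)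 (l 16646728)) (a (l 526749967) (l 526350351))))) (b (a (b (l 16590224) (a (l 16619304) (l 16624600))) (b (l 16599576) (l 525324303))) (b (a (a (l 16631648) (l 16638232)) (l 525088527)) (a (l 525736207) (l 524897807)))))) (b (a (b (a (l 16507264) (l 16512688)) (a (l 525363471) (l 524608783))) (b (a (l 16520720) (l 16531496)) (a (l 523842575) (l 523067919)))) (a (b (a (l 524667663) (l 523860239)) (a (b (l 524256527) (b (l 524088079) (l 523989519))) (b (l 523406863) (a (l 523380495) (l 522936847))))) (b (a (b (l 523226127) (l 522864143)) (l 522210063)) (a (l 522398223) (l 521509391))))))), by decide +kernel⟩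

def k105_A00pp_022_s3 : ∃ t, chk3 f_A00pp_022_s3 t 20 28 7 = true :=
  ⟨(a (b (a (l 16584016) (l 16544672)) (a (b (l 16630264) (l 16663768)) (b (a (l 16635840) (l 16647048)) (a (l 16589936) (l 16643920))))) (a (b (b (a (l 16584352) (l 16600440)) (a (l 16622912) (l 16639992))) (b (a (l 16662360) (l 16679336)) (a (l 16669504) (a (l 16627656) (l 16675704))))) (b (b (a (l 16617384) (l 16634064)) (a (l 16656872) (l 16586656))) (b (a (l 16609224) (a (l 16701352) (l 16621840))) (a (b (l 16717640) (l 16690408)) (b (l 16683160) (a (l 16736880) (l 16697296)))))))), by decide +kernel⟩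

def k106_A00pp_022_s3 : ∃ t, chk3 f_A00pp_022_s3 t 40 29 7 = true :=
  ⟨(b (a (b (a (l 16697128) (b (l 16693448) (l 16711576))) (a (b (l 16723192) (a (l 16738304) (l 16698984))) (b (l 16687328) (l 531011855)))) (b (a (b (l 16702400) (l 16721120)) (b (l 16714376) (l 16689512))) (b (a (l 530455567) (l 530114575)) (a (b (l 16728320) (l 531489807)) (a (l 531545871) (l 531807247)))))) (a (b (b (b (a (l 531458575) (l 531830031)) (l 531428111)) (a (l 531446031) (b (l 531905295) (l 531118607)))) (b (a (l 529985551) (b (l 530350095) (a (l 529752079) (l 4)))) (a (l 529136911) (l 4)))) (b (b (a (b (l 532025871) (a (l 532326927) (l 532045071))) (b (a (l 532248335) (l 532022031)) (b (l 531771919) (l 531373071)))) (a (a (b (l 531502607) (l 530150927)) (b (l 531205135) (l 530371343))) (b (l 530715919) (a (l 530032399) (l 4))))) (a (b (b (a (a (l 529434383) (l 529809167)) (l 4)) (l 4)) (l 4)) (l 4))))), by decide +kernel⟩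

def k107_A00pp_022_s3 : ∃ t, chk3 f_A00pp_022_s3 t 41 29 7 = true :=
  ⟨(b (a (b (a (b (l 16684872) (l 530812431)) (b (l 16738016) (a (l 16749520) (l 16753192)))) (a (b (a (l 16753312) (l 531860239)) (a (l 531881999) (b (l 16759048) (a (l 16767632) (l 531316751))))) (b (a (b (l 16758552) (l 16762224)) (b (l 16760792) (l 16759272))) (b (a (b (l 16765096) (l 16767136)) (l 531564815)) (a (a (l 531025167) (l 531307791)) (l 531382287)))))) (b (a (b (a (l 16702080) (l 16704752)) (a (l 16745304) (l 531617551))) (b (l 531057167) (l 531391759))) (a (b (l 531718927) (a (l 531574287) (b (l 531767823) (l 531586063)))) (b (a (l 531822607) (l 531672591)) (b (l 531923727) (l 4)))))) (b (a (b (a (a (b (l 531308559) (b (a (l 531327759) (l 530867983)) (l 530853647))) (a (b (a (l 531229455) (l 530786063)) (b (a (l 530569487) (l 530851599)) (b (l 530489359) (l 4)))) (b (b (l 531110159) (l 530980367)) (l 530544143)))) (b (l 531148815) (b (l 531011087) (l 4)))) (a (a (b (a (l 530272015) (l 4)) (l 4)) (l 4)) (l 4))) (b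 (a (b (a (l 531300623) (l 4)) (l 4)) (l 4)) (l 4))) (l 4))), by decide +kernel⟩

def k108_A00pp_022_s3 : ∃ t, chk3 f_A00pp_022_s3 t 21 14 7 = true :=
  ⟨(b (a (b (a (b (a (l 16647504) (l 16636792)) (a (l 16639064) (a (l 16686216) (l 16647032)))) (b (a (b (l 16656976) (l 16671464)) (b (l 16651960) (l 16676064))) (a (b (l 16685888) (l 16699296)) (b (l 16690336) (l 16704552))))) (b (a (a (a (l 16666936) (l 16690664)) (b (l 16687760) (l 16721592))) (a (b (l 16713128) (l 16726744)) (b (l 16718632) (l 16722008)))) (a (a (b (l 530321935) (l 16721432)) (b (l 16692744) (l 530223631))) (b (a (l 16729576) (l 529536527)) (a (l 529943567) (a (l 529749775) (l 529641231))))))) (b (a (b (a (b (l 16666608) (l 16681136)) (b (l 16671512) (l 16686312))) (a (b (l 16695680) (l 16710160)) (b (l 16701120) (l 16705296)))) (b (a (b (l 16676488) (l 16691496)) (b (l 16681512) (l 16696936))) (a (b (l 16706624) (l 16711200)) (l 527876879)))) (a (b (a (b (l 16703520) (a (l 16737056) (l 16719120))) (b (a (l 16728912) (l 16731944))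 (a (l 16722256) (l 16735944)))) (a (b (a (l 529336079) (l 529155343)) (b (l 529060367) (l 529387279))) (b (l 528861711) (l 528953103)))) (b (b (a (l 528327695) (l 527923215)) (a (l 528382991) (l 527970831))) (a (l 528492047) (b (a (l 528139023) (l 527926799)) (l 4))))))) (b (a (a (b (b (a (l 530754063) (l 530448143)) (l 530392335)) (b (l 531287311) (l 4))) (b (a (b (b (l 530085135) (l 530216463)) (l 530457615)) (b (a (b (l 529876751) (b (l 529947663) (l 530019855))) (b (l 529749007) (l 529810447))) (a (b (a (l 530167311) (l 530058767)) (l 4)) (l 4)))) (l 4))) (b (a (b (l 529265679) (l 4)) (l 4)) (l 4))) (l 4))), by decide +kernel⟩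

def k109_A00pp_022_s3 : ∃ t, chk3 f_A00pp_022_s3 t 11 14 7 = true :=
  ⟨(b (a (a (b (a (b (a (l 527473935) (l 526807823)) (a (l 527205391) (b (l 527061007) (l 527066895)))) (b (a (b (l 16699496) (l 526658831)) (l 526256911)) (b (l 526431503) (l 526426639)))) (a (b (a (b (l 527509007) (l 527549455)) (l 527100687)) (b (a (l 527603727) (l 4)) (l 4))) (b (l 526443023) (l 4)))) (a (b (b (l 525621519) (l 525555983)) (b (l 525541647) (l 4))) (b (l 524699407) (l 4)))) (b (a (b (a (l 523863311) (a (l 523183887) (l 522725135))) (l 4)) (l 4)) (l 4))) (l 4)), by decide +kernel⟩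

def k110_A00pp_022_s3 : ∃ t, chk3 f_A00pp_022_s3 t 5 15 7 = true :=
  ⟨(l 4), by decide +kernel⟩

def k111_A00pp_022_s3 : ∃ t, chk3 f_A00pp_022_s3 t 6 2 1 = true :=
  ⟨(b (l 6) (a (a (b (l 6) (b (a (l 16193880) (l 16153680)) (a (l 16287120) (l 16267200)))) (b (a (l 6) (b (l 6) (l 15952960))) (a (b (l 16125496) (l 16174088)) (b (l 16108888) (b (l 16222544) (l 16297416)))))) (b (a (a (b (l 6) (l 15931728)) (b (a (l 6) (l 15726536)) (a (l 15924264) (l 15923176)))) (a (b (a (l 15722600) (l 15722368)) (a (l 15925120) (l 15930288))) (b (a (l 15727024) (l 15737360)) (a (l 15940208) (l 15955872))))) (a (a (b (a (l 16104176) (l 16104616)) (b (l 16230664) (l 16314696))) (b (b (l 16064272) (l 16156896)) (b (l 16249224) (l 520730383)))) (a (b (b (l 16077728) (l 16177336)) (b (l 519531023) (l 519373071))) (b (b (l 16106904) (a (l 16202096) (l 16225688))) (a (b (l 16307256) (l 16413800)) (b (l 16334912) (l 16361176))))))))), by decide +kernel⟩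

def k112_A00pp_022_s3 : ∃ t, chk3 f_A00pp_022_s3 t 6 3 1 = true :=
  ⟨(b (a (b (a (b (a (a (l 16379112) (l 16376536)) (b (l 16350240) (l 16405352))) (a (b (l 16445216) (a (l 16487744) (l 16498472))) (b (l 524178703) (l 522403855)))) (b (a (b (l 16355928) (l 16421424)) (b (l 16372416) (l 522538511))) (b (a (l 522961679) (l 521806351)) (a (l 521661711) (l 520459023))))) (a (b (a (b (a (l 523418639) (l 522699535)) (a (l 522365711) (l 521593103))) (b (a (l 521985039) (l 521279247)) (a (l 520824079) (l 520062479)))) (a (b (b (l 521258767) (l 520825871)) (a (l 520696591) (l 4))) (b (a (b (l 520041231) (l 519563535)) (b (l 519235599) (l 4))) (l 4)))) (b (a (b (l 520243215) (l 518940687)) (l 518204943)) (b (a (b (l 518046223) (l 4)) (l 4)) (l 4))))) (b (a (b (a (b (l 521762063) (l 521371151)) (b (l 520510223) (l 520194831))) (b (a (l 520725007) (a (l 519954191) (b (l 519574287) (l 519266063)))) (a (l 519346447) (l 518387983)))) (b (a (a (l 519373071) (b (l 518504207) (a (l 518681871) (l 519700495)))) (b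 (a (b (l 16495520) (l 16550432)) (l 517941007)) (a (a (l 518175759) (l 518012687)) (l 517817871)))) (a (b (a (b (l 518968591) (l 518448143)) (b (a (l 518350863) (l 518183951)) (c (l 517928975) (l 517764879)))) (a (a (l 517871119) (b (b (l 518432527) (l 517822479)) (l 4))) (b (b (l 518050831) (l 4)) (l 4)))) (b (l 517782799) (l 4))))) (a (b (a (l 516936463) (b (l 516646671) (l 4))) (l 4)) (l 4)))) (l 4)), by decide +kernel⟩

def k113_A00pp_022_s3 : ∃ t, chk3 f_A00pp_022_s3 t 7 1 1 = true :=
  ⟨(b (b (a (b (l 6) (b (a (l 6) (b (l 6) (a (l 15456288) (l 15525384)))) (a (a (b (l 6) (l 15590632)) (b (l 15518224) (l 15639944))) (a (b (l 15581080) (l 15704768)) (b (l 15651352) (l 15776224)))))) (b (a (a (l 6) (b (l 6) (b (l 6) (l 15428344)))) (b (a (l 6) (b (l 6) (l 15350848))) (a (b (l 15387160) (l 15514376)) (b (l 15478024) (l 15604896))))) (a (b (a (b (l 15474424) (l 15601088)) (b (l 15555400) (l 15682416))) (a (b (l 15727808) (l 15853432)) (l 515988751))) (b (a (b (l 15641424) (l 15768416)) (b (l 15731600)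 (l 15858240))) (a (l 514964751) (l 514793231)))))) (a (a (b (a (b (a (l 15753480) (l 15775576)) (a (l 15998328) (b (l 15948088) (l 16061896)))) (b (a (l 15803728) (l 15835696)) (b (l 517091855) (l 16111696)))) (b (a (a (b (l 16144224) (l 16255288)) (l 517580559)) (l 517239055)) (a (b (l 517698319) (l 517652751)) (l 517231887)))) (b (a (b (b (l 15826536) (l 15946664)) (l 516716047)) (b (c (l 516201743) (l 516033551)) (l 516365071))) (b (a (l 516843279) (l 516512015)) (a (l 516857615) (l 516547855))))) (b (a (b (a (l 515808783) (l 515555855)) (a (l 516074511) (l 515840015))) (b (a (l 515354639) (l 515201039)) (a (l 515657743) (l 515523087)))) (a (b (b (l 516098575) (l 516161039)) (a (l 516298767) (l 516106511))) (b (a (l 515865103) (b (l 515707407) (l 515796239))) (a (l 515966991) (l 4))))))) (b (b (a (b (a (l 517029903) (l 517670159)) (a (b (l 517101839) (l 4)) (l 4))) (l 4)) (l 4)) (l 4))), by decide +kernel⟩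

theorem t114_A00pp_022_s3 : ∃ t, chk3 f_A00pp_022_s3 t 6 1 1 = true := ex3_b k111_A00pp_022_s3 k112_A00pp_022_s3

theorem t115_A00pp_022_s3 : ∃ t, chk3 f_A00pp_022_s3 t 3 1 1 = true := ex3_a t114_A00pp_022_s3 k113_A00pp_022_s3

theorem t116_A00pp_022_s3 : ∃ t, chk3 f_A00pp_022_s3 t 20 29 7 = true := ex3_a k106_A00pp_022_s3 k107_A00pp_022_s3

theorem t117_A00pp_022_s3 : ∃ t, chk3 f_A00pp_022_s3 t 20 14 7 = true := ex3_b k105_A00pp_022_s3 t116_A00pp_022_s3

theorem t118_A00pp_022_s3 : ∃ t, chk3 f_A00pp_022_s3 t 10 14 7 = true := ex3_a t117_A00pp_022_s3 k108_A00pp_022_s3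

theorem t119_A00pp_022_s3 : ∃ t, chk3 f_A00pp_022_s3 t 5 14 7 = true := ex3_a t118_A00pp_022_s3 k109_A00pp_022_s3

theorem t120_A00pp_022_s3 : ∃ t, chk3 f_A00pp_022_s3 t 5 7 7 = true := ex3_b t119_A00pp_022_s3 k110_A00pp_022_s3

theorem t121_A00pp_022_s3 : ∃ t, chk3 f_A00pp_022_s3 t 5 6 7 = true := ex3_a k103_A00pp_022_s3 k104_A00pp_022_s3

theorem t122_A00pp_022_s3 : ∃ t, chk3 f_A00pp_022_s3 t 5 3 7 = true := ex3_b t121_A00pp_022_s3 t120_A00pp_022_s3

theorem t123_A00pp_022_s3 : ∃ t, chk3 f_A00pp_022_s3 t 20 29 6 = true := ex3_a k98_A00pp_022_s3 k99_A00pp_022_s3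

theorem t124_A00pp_022_s3 : ∃ t, chk3 f_A00pp_022_s3 t 20 14 6 = true := ex3_b k97_A00pp_022_s3 t123_A00pp_022_s3

theorem t125_A00pp_022_s3 : ∃ t, chk3 f_A00pp_022_s3 t 10 14 6 = true := ex3_a t124_A00pp_022_s3 k100_A00pp_022_s3

theorem t126_A00pp_022_s3 : ∃ t, chk3 f_A00pp_022_s3 t 5 14 6 = true := ex3_a t125_A00pp_022_s3 k101_A00pp_022_s3

theorem t127_A00pp_022_s3 : ∃ t, chk3 f_A00pp_022_s3 t 5 7 6 = true := ex3_b t126_A00pp_022_s3 k102_A00pp_022_s3

theorem t128_A00pp_022_s3 : ∃ t, chk3 f_A00pp_022_s3 t 5 6 6 = true := ex3_a k95_A00pp_022_s3 k96_A00pp_022_s3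

theorem t129_A00pp_022_s3 : ∃ t, chk3 f_A00pp_022_s3 t 5 3 6 = true := ex3_b t128_A00pp_022_s3 t127_A00pp_022_s3

theorem t130_A00pp_022_s3 : ∃ t, chk3 f_A00pp_022_s3 t 5 3 3 = true := ex3_c t129_A00pp_022_s3 t122_A00pp_022_s3

theorem t131_A00pp_022_s3 : ∃ t, chk3 f_A00pp_022_s3 t 20 29 5 = true := ex3_a k90_A00pp_022_s3 k91_A00pp_022_s3

theorem t132_A00pp_022_s3 : ∃ t, chk3 f_A00pp_022_s3 t 20 14 5 = true := ex3_b k89_A00pp_022_s3 t131_A00pp_022_s3

theorem t133_A00pp_022_s3 : ∃ t, chk3 f_A00pp_022_s3 t 10 14 5 = true := ex3_a t132_A00pp_022_s3 k92_A00pp_022_s3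

theorem t134_A00pp_022_s3 : ∃ t, chk3 f_A00pp_022_s3 t 5 14 5 = true := ex3_a t133_A00pp_022_s3 k93_A00pp_022_s3

theorem t135_A00pp_022_s3 : ∃ t, chk3 f_A00pp_022_s3 t 5 7 5 = true := ex3_b t134_A00pp_022_s3 k94_A00pp_022_s3

theorem t136_A00pp_022_s3 : ∃ t, chk3 f_A00pp_022_s3 t 5 6 5 = true := ex3_a k87_A00pp_022_s3 k88_A00pp_022_s3

theorem t137_A00pp_022_s3 : ∃ t, chk3 f_A00pp_022_s3 t 5 3 5 = true := ex3_b t136_A00pp_022_s3 t135_A00pp_022_s3

theorem t138_A00pp_022_s3 : ∃ t, chk3 f_A00pp_022_s3 t 20 29 4 = true := ex3_a k82_A00pp_022_s3 k83_A00pp_022_s3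

theorem t139_A00pp_022_s3 : ∃ t, chk3 f_A00pp_022_s3 t 20 14 4 = true := ex3_b k81_A00pp_022_s3 t138_A00pp_022_s3

theorem t140_A00pp_022_s3 : ∃ t, chk3 f_A00pp_022_s3 t 10 14 4 = true := ex3_a t139_A00pp_022_s3 k84_A00pp_022_s3

theorem t141_A00pp_022_s3 : ∃ t, chk3 f_A00pp_022_s3 t 5 14 4 = true := ex3_a t140_A00pp_022_s3 k85_A00pp_022_s3

theorem t142_A00pp_022_s3 : ∃ t, chk3 f_A00pp_022_s3 t 5 7 4 = true := ex3_b t141_A00pp_022_s3 k86_A00pp_022_s3

theorem t143_A00pp_022_s3 : ∃ t, chk3 f_A00pp_022_s3 t 5 6 4 = true := ex3_a k79_A00pp_022_s3 k80_A00pp_022_s3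

theorem t144_A00pp_022_s3 : ∃ t, chk3 f_A00pp_022_s3 t 5 3 4 = true := ex3_b t143_A00pp_022_s3 t142_A00pp_022_s3

theorem t145_A00pp_022_s3 : ∃ t, chk3 f_A00pp_022_s3 t 5 3 2 = true := ex3_c t144_A00pp_022_s3 t137_A00pp_022_s3

theorem t146_A00pp_022_s3 : ∃ t, chk3 f_A00pp_022_s3 t 5 3 1 = true := ex3_c t145_A00pp_022_s3 t130_A00pp_022_s3

theorem t147_A00pp_022_s3 : ∃ t, chk3 f_A00pp_022_s3 t 72 61 1 = true := ex3_b k73_A00pp_022_s3 k74_A00pp_022_s3

theorem t148_A00pp_022_s3 : ∃ t, chk3 f_A00pp_022_s3 t 36 61 1 = true := ex3_a t147_A00pp_022_s3 k75_A00pp_022_s3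

theorem t149_A00pp_022_s3 : ∃ t, chk3 f_A00pp_022_s3 t 36 30 1 = true := ex3_b k72_A00pp_022_s3 t148_A00pp_022_s3

theorem t150_A00pp_022_s3 : ∃ t, chk3 f_A00pp_022_s3 t 18 30 1 = true := ex3_a t149_A00pp_022_s3 k76_A00pp_022_s3

theorem t151_A00pp_022_s3 : ∃ t, chk3 f_A00pp_022_s3 t 18 15 1 = true := ex3_b t150_A00pp_022_s3 k77_A00pp_022_s3

theorem t152_A00pp_022_s3 : ∃ t, chk3 f_A00pp_022_s3 t 9 15 1 = true := ex3_a t151_A00pp_022_s3 k78_A00pp_022_s3

theorem t153_A00pp_022_s3 : ∃ t, chk3 f_A00pp_022_s3 t 19 29 1 = true := ex3_b k70_A00pp_022_s3 k71_A00pp_022_s3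

theorem t154_A00pp_022_s3 : ∃ t, chk3 f_A00pp_022_s3 t 9 29 1 = true := ex3_a k69_A00pp_022_s3 t153_A00pp_022_s3

theorem t155_A00pp_022_s3 : ∃ t, chk3 f_A00pp_022_s3 t 9 14 1 = true := ex3_b k68_A00pp_022_s3 t154_A00pp_022_s3

theorem t156_A00pp_022_s3 : ∃ t, chk3 f_A00pp_022_s3 t 9 7 1 = true := ex3_b t155_A00pp_022_s3 t152_A00pp_022_s3

theorem t157_A00pp_022_s3 : ∃ t, chk3 f_A00pp_022_s3 t 269 252 1 = true := ex3_b k62_A00pp_022_s3 k63_A00pp_022_s3

theorem t158_A00pp_022_s3 : ∃ t, chk3 f_A00pp_022_s3 t 268 505 1 = true := ex3_a k60_A00pp_022_s3 k61_A00pp_022_s3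

theorem t159_A00pp_022_s3 : ∃ t, chk3 f_A00pp_022_s3 t 268 252 1 = true := ex3_b k59_A00pp_022_s3 t158_A00pp_022_s3

theorem t160_A00pp_022_s3 : ∃ t, chk3 f_A00pp_022_s3 t 134 252 1 = true := ex3_a t159_A00pp_022_s3 t157_A00pp_022_s3

theorem t161_A00pp_022_s3 : ∃ t, chk3 f_A00pp_022_s3 t 134 126 1 = true := ex3_b t160_A00pp_022_s3 k64_A00pp_022_s3

theorem t162_A00pp_022_s3 : ∃ t, chk3 f_A00pp_022_s3 t 67 126 1 = true := ex3_a t161_A00pp_022_s3 k65_A00pp_022_s3

theorem t163_A00pp_022_s3 : ∃ t, chk3 f_A00pp_022_s3 t 67 63 1 = true := ex3_b t162_A00pp_022_s3 k66_A00pp_022_s3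

theorem t164_A00pp_022_s3 : ∃ t, chk3 f_A00pp_022_s3 t 267 505 1 = true := ex3_a k55_A00pp_022_s3 k56_A00pp_022_s3

theorem t165_A00pp_022_s3 : ∃ t, chk3 f_A00pp_022_s3 t 267 252 1 = true := ex3_b k54_A00pp_022_s3 t164_A00pp_022_s3

theorem t166_A00pp_022_s3 : ∃ t, chk3 f_A00pp_022_s3 t 133 252 1 = true := ex3_a k53_A00pp_022_s3 t165_A00pp_022_s3

theorem t167_A00pp_022_s3 : ∃ t, chk3 f_A00pp_022_s3 t 133 126 1 = true := ex3_b t166_A00pp_022_s3 k57_A00pp_022_s3

theorem t168_A00pp_022_s3 : ∃ t, chk3 f_A00pp_022_s3 t 66 126 1 = true := ex3_a k52_A00pp_022_s3 t167_A00pp_022_s3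

theorem t169_A00pp_022_s3 : ∃ t, chk3 f_A00pp_022_s3 t 66 63 1 = true := ex3_b t168_A00pp_022_s3 k58_A00pp_022_s3

theorem t170_A00pp_022_s3 : ∃ t, chk3 f_A00pp_022_s3 t 33 63 1 = true := ex3_a t169_A00pp_022_s3 t163_A00pp_022_s3

theorem t171_A00pp_022_s3 : ∃ t, chk3 f_A00pp_022_s3 t 16 63 1 = true := ex3_a k51_A00pp_022_s3 t170_A00pp_022_s3

theorem t172_A00pp_022_s3 : ∃ t, chk3 f_A00pp_022_s3 t 8 63 1 = true := ex3_a t171_A00pp_022_s3 k67_A00pp_022_s3

theorem t173_A00pp_022_s3 : ∃ t, chk3 f_A00pp_022_s3 t 140 124 1 = true := ex3_b k46_A00pp_022_s3 k47_A00pp_022_s3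

theorem t174_A00pp_022_s3 : ∃ t, chk3 f_A00pp_022_s3 t 70 124 1 = true := ex3_a t173_A00pp_022_s3 k48_A00pp_022_s3

theorem t175_A00pp_022_s3 : ∃ t, chk3 f_A00pp_022_s3 t 70 62 1 = true := ex3_b t174_A00pp_022_s3 k49_A00pp_022_s3

theorem t176_A00pp_022_s3 : ∃ t, chk3 f_A00pp_022_s3 t 35 62 1 = true := ex3_a t175_A00pp_022_s3 k50_A00pp_022_s3

theorem t177_A00pp_022_s3 : ∃ t, chk3 f_A00pp_022_s3 t 139 124 1 = true := ex3_b k43_A00pp_022_s3 k44_A00pp_022_s3

theorem t178_A00pp_022_s3 : ∃ t, chk3 f_A00pp_022_s3 t 69 124 1 = true := ex3_a k42_A00pp_022_s3 t177_A00pp_022_s3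

theorem t179_A00pp_022_s3 : ∃ t, chk3 f_A00pp_022_s3 t 69 62 1 = true := ex3_b t178_A00pp_022_s3 k45_A00pp_022_s3

theorem t180_A00pp_022_s3 : ∃ t, chk3 f_A00pp_022_s3 t 137 125 1 = true := ex3_b k40_A00pp_022_s3 k41_A00pp_022_s3

theorem t181_A00pp_022_s3 : ∃ t, chk3 f_A00pp_022_s3 t 136 251 1 = true := ex3_a k38_A00pp_022_s3 k39_A00pp_022_s3

theorem t182_A00pp_022_s3 : ∃ t, chk3 f_A00pp_022_s3 t 136 125 1 = true := ex3_b k37_A00pp_022_s3 t181_A00pp_022_s3

theorem t183_A00pp_022_s3 : ∃ t, chk3 f_A00pp_022_s3 t 68 125 1 = true := ex3_a t182_A00pp_022_s3 t180_A00pp_022_s3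

theorem t184_A00pp_022_s3 : ∃ t, chk3 f_A00pp_022_s3 t 68 124 1 = true := ex3_a k35_A00pp_022_s3 k36_A00pp_022_s3

theorem t185_A00pp_022_s3 : ∃ t, chk3 f_A00pp_022_s3 t 68 62 1 = true := ex3_b t184_A00pp_022_s3 t183_A00pp_022_s3

theorem t186_A00pp_022_s3 : ∃ t, chk3 f_A00pp_022_s3 t 34 62 1 = true := ex3_a t185_A00pp_022_s3 t179_A00pp_022_s3

theorem t187_A00pp_022_s3 : ∃ t, chk3 f_A00pp_022_s3 t 17 62 1 = true := ex3_a t186_A00pp_022_s3 t176_A00pp_022_s3

theorem t188_A00pp_022_s3 : ∃ t, chk3 f_A00pp_022_s3 t 135 251 1 = true := ex3_a k33_A00pp_022_s3 k34_A00pp_022_s3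

theorem t189_A00pp_022_s3 : ∃ t, chk3 f_A00pp_022_s3 t 134 251 1 = true := ex3_a k31_A00pp_022_s3 k32_A00pp_022_s3

theorem t190_A00pp_022_s3 : ∃ t, chk3 f_A00pp_022_s3 t 67 251 1 = true := ex3_a t189_A00pp_022_s3 t188_A00pp_022_s3

theorem t191_A00pp_022_s3 : ∃ t, chk3 f_A00pp_022_s3 t 33 251 1 = true := ex3_a k30_A00pp_022_s3 t190_A00pp_022_s3

theorem t192_A00pp_022_s3 : ∃ t, chk3 f_A00pp_022_s3 t 33 250 1 = true := ex3_a k28_A00pp_022_s3 k29_A00pp_022_s3

theorem t193_A00pp_022_s3 : ∃ t, chk3 f_A00pp_022_s3 t 33 125 1 = true := ex3_b t192_A00pp_022_s3 t191_A00pp_022_s3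

theorem t194_A00pp_022_s3 : ∃ t, chk3 f_A00pp_022_s3 t 33 124 1 = true := ex3_a k26_A00pp_022_s3 k27_A00pp_022_s3

theorem t195_A00pp_022_s3 : ∃ t, chk3 f_A00pp_022_s3 t 33 62 1 = true := ex3_b t194_A00pp_022_s3 t193_A00pp_022_s3

theorem t196_A00pp_022_s3 : ∃ t, chk3 f_A00pp_022_s3 t 16 62 1 = true := ex3_a k25_A00pp_022_s3 t195_A00pp_022_s3

theorem t197_A00pp_022_s3 : ∃ t, chk3 f_A00pp_022_s3 t 8 62 1 = true := ex3_a t196_A00pp_022_s3 t187_A00pp_022_s3

theorem t198_A00pp_022_s3 : ∃ t, chk3 f_A00pp_022_s3 t 8 31 1 = true := ex3_b t197_A00pp_022_s3 t172_A00pp_022_s3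

theorem t199_A00pp_022_s3 : ∃ t, chk3 f_A00pp_022_s3 t 71 123 1 = true := ex3_a k23_A00pp_022_s3 k24_A00pp_022_s3

theorem t200_A00pp_022_s3 : ∃ t, chk3 f_A00pp_022_s3 t 35 123 1 = true := ex3_a k22_A00pp_022_s3 t199_A00pp_022_s3

theorem t201_A00pp_022_s3 : ∃ t, chk3 f_A00pp_022_s3 t 34 123 1 = true := ex3_a k20_A00pp_022_s3 k21_A00pp_022_s3

theorem t202_A00pp_022_s3 : ∃ t, chk3 f_A00pp_022_s3 t 17 123 1 = true := ex3_a t201_A00pp_022_s3 t200_A00pp_022_s3

theorem t203_A00pp_022_s3 : ∃ t, chk3 f_A00pp_022_s3 t 34 122 1 = true := ex3_a k17_A00pp_022_s3 k18_A00pp_022_s3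

theorem t204_A00pp_022_s3 : ∃ t, chk3 f_A00pp_022_s3 t 17 122 1 = true := ex3_a t203_A00pp_022_s3 k19_A00pp_022_s3

theorem t205_A00pp_022_s3 : ∃ t, chk3 f_A00pp_022_s3 t 17 61 1 = true := ex3_b t204_A00pp_022_s3 t202_A00pp_022_s3

theorem t206_A00pp_022_s3 : ∃ t, chk3 f_A00pp_022_s3 t 17 242 1 = true := ex3_a k14_A00pp_022_s3 k15_A00pp_022_s3

theorem t207_A00pp_022_s3 : ∃ t, chk3 f_A00pp_022_s3 t 17 121 1 = true := ex3_b t206_A00pp_022_s3 k16_A00pp_022_s3

theorem t208_A00pp_022_s3 : ∃ t, chk3 f_A00pp_022_s3 t 17 120 1 = true := ex3_b k12_A00pp_022_s3 k13_A00pp_022_s3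

theorem t209_A00pp_022_s3 : ∃ t, chk3 f_A00pp_022_s3 t 17 60 1 = true := ex3_b t208_A00pp_022_s3 t207_A00pp_022_s3

theorem t210_A00pp_022_s3 : ∃ t, chk3 f_A00pp_022_s3 t 17 30 1 = true := ex3_b t209_A00pp_022_s3 t205_A00pp_022_s3

theorem t211_A00pp_022_s3 : ∃ t, chk3 f_A00pp_022_s3 t 67 61 1 = true := ex3_b k10_A00pp_022_s3 k11_A00pp_022_s3

theorem t212_A00pp_022_s3 : ∃ t, chk3 f_A00pp_022_s3 t 33 61 1 = true := ex3_a k9_A00pp_022_s3 t211_A00pp_022_s3

theorem t213_A00pp_022_s3 : ∃ t, chk3 f_A00pp_022_s3 t 33 30 1 = true := ex3_b k8_A00pp_022_s3 t212_A00pp_022_s3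

theorem t214_A00pp_022_s3 : ∃ t, chk3 f_A00pp_022_s3 t 16 30 1 = true := ex3_a k7_A00pp_022_s3 t213_A00pp_022_s3

theorem t215_A00pp_022_s3 : ∃ t, chk3 f_A00pp_022_s3 t 8 30 1 = true := ex3_a t214_A00pp_022_s3 t210_A00pp_022_s3

theorem t216_A00pp_022_s3 : ∃ t, chk3 f_A00pp_022_s3 t 8 15 1 = true := ex3_b t215_A00pp_022_s3 t198_A00pp_022_s3

theorem t217_A00pp_022_s3 : ∃ t, chk3 f_A00pp_022_s3 t 17 59 1 = true := ex3_a k5_A00pp_022_s3 k6_A00pp_022_s3

theorem t218_A00pp_022_s3 : ∃ t, chk3 f_A00pp_022_s3 t 17 29 1 = true := ex3_b k4_A00pp_022_s3 t217_A00pp_022_s3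

theorem t219_A00pp_022_s3 : ∃ t, chk3 f_A00pp_022_s3 t 17 14 1 = true := ex3_b k3_A00pp_022_s3 t218_A00pp_022_s3

theorem t220_A00pp_022_s3 : ∃ t, chk3 f_A00pp_022_s3 t 8 14 1 = true := ex3_a k2_A00pp_022_s3 t219_A00pp_022_s3

theorem t221_A00pp_022_s3 : ∃ t, chk3 f_A00pp_022_s3 t 8 7 1 = true := ex3_b t220_A00pp_022_s3 t216_A00pp_022_s3

theorem t222_A00pp_022_s3 : ∃ t, chk3 f_A00pp_022_s3 t 4 7 1 = true := ex3_a t221_A00pp_022_s3 t156_A00pp_022_s3

theorem t223_A00pp_022_s3 : ∃ t, chk3 f_A00pp_022_s3 t 4 3 1 = true := ex3_b k1_A00pp_022_s3 t222_A00pp_022_s3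

theorem t224_A00pp_022_s3 : ∃ t, chk3 f_A00pp_022_s3 t 2 3 1 = true := ex3_a t223_A00pp_022_s3 t146_A00pp_022_s3

theorem t225_A00pp_022_s3 : ∃ t, chk3 f_A00pp_022_s3 t 2 1 1 = true := ex3_b k0_A00pp_022_s3 t224_A00pp_022_s3

theorem t226_A00pp_022_s3 : ∃ t, chk3 f_A00pp_022_s3 t 1 1 1 = true := ex3_a t225_A00pp_022_s3 t115_A00pp_022_s3

theorem c_A00pp_022_s3 : CertF 0 536870912 0 536870912 1033476505 6710887 true true true .pp 0 2 2
    ndB0q0 ndB0q2 pcB2 cut_A00pp_022_s3 xt_A00pp_022_s3 :=
  certF2 (fam := true) (s1 := true) (s2 := true) (a := 0) (b := 2) (c := 2) (cn := .pp) (n1 := ndB0q0) (n2 := ndB0q2) (pc := pcB2) (cut := cut_A00pp_022_s3) (xt := xt_A00pp_022_s3) (P1 := 0) (W1 := 536870912) (P2 := 0) (W2 := 536870912) (P3 := 1033476505) (W3 := 6710887)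
    rfl (fun _ => rfl) t226_A00pp_022_s3

theorem s_A00pp_022_s3 {κ x : ℝ} (hκ : κ * h0 = ken x) (hx : ((1033476505 : ℕ) : ℝ) / S ≤ x)
    (hx' : x ≤ (((1033476505 : ℕ) : ℝ) + (6710887 : ℕ)) / S)
    (H : CutA (VFD κ) PP tK tL pcB (Cut.of [[⟨0, 0, 0, 22369621⟩, ⟨1, 1, 0, 22369621⟩, ⟨2, 1, 0, 22369621⟩]]) 0 2 2 0 0 (sgb true) (sgb true) x) :
    AltA (VFD κ) PP tK tL pcB [⟨4, 0, 0, 2845415833⟩] 0 2 2 0 0 (sgb true) (sgb true) x :=
  strip_altAD (m := 2845415833) false rfl hκ (SH.κ0 hκ (SH.hx1 hx).le (SH.hx2 hx').le) (SH.hx1 hx).le (SH.hx2 hx') (covB00).cov (covB02).cov hx hx' c_A00pp_022_s3 H ((okx hx hx').extA (T := tt) (sideB hx hx') hκ rfl rfl (.O 0 true) (.O 2 true) (Or.inl rfl))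

end Pool.Agent.Strip051.G.I9625_9688.Tab.St.C
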