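import Pool.Agent.Strip051.G.I9625_9688.StH
import Pool.Agent.Strip051.G.I9625_9688.StF

/-! # Unit strips 3 (generated) -/

set_option linter.all false
set_option maxRecDepth 100000

namespace Pool.Agent.Strip051.G.I9625_9688.Tab.St.C

open Pool.Agent.Strip051.PB Pool.Agent.Strip051.PB.T Pool.Agent.StripNear Pool.Agent.Strip051.LC
open Pool.Agent.Strip051.G.I9625_9688.Tab Pool.Agent.Strip051.G.I9625_9688.Tab.St

noncomputable def cut_A00mm_202_s3 : Cut := Cut.of [[⟨3, 0, 0, 2845415833⟩], [⟨0, 1, 0, 22369621⟩, ⟨1, 0, 0, 22369621⟩, ⟨2, 1, 0, 22369621⟩]]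

noncomputable def xt_A00mm_202_s3 : Ext := strExt dd true false false .u2 .u0m .s2m .pp 2 0 2 rfl rfl gl2 vv ndB0q2 ndB0q0

noncomputable def f_A00mm_202_s3 : ℕ → ℕ → ℕ → ℕ → Bool := onCell 0 536870912 0 536870912 1033476505 6710887
    (rowF 0 true false false .pp 2 0 2 (qsf 0 536870912 0 536870912 2) ndB0q2 ndB0q0 pcB2 cut_A00mm_202_s3 xt_A00mm_202_s3)

def k0_A00mm_202_s3 : ∃ t, chk3 f_A00mm_202_s3 t 2 2 1 = true :=
  ⟨(b (b (l 6) (a (l 6) (a (l 6) (a (l 6) (b (b (l 6) (b (l 6) (l 16378984))) (b (b (l 16367936) (l 16349760)) (l 16322808))))))) (a (b (l 6) (a (l 6) (b (l 6) (b (l 6) (a (l 6) (a (l 6) (l 15607056))))))) (b (a (a (l 6) (b (l 6) (b (l 15875136) (l 15935168)))) (b (b (a (l 16177872) (l 16291488)) (a (l 16142536) (l 16269904))) (b (a (l 16034544) (l 16258920)) (a (a (l 16065040) (l 16146080)) (a (l 16222576) (l 16294384)))))) (a (b (b (a (b (l 6) (l 15724952)) (b (l 15925688) (l 15923344))) (a (a (l 15585704) (l 15690496))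 (b (l 15924064) (l 15927744)))) (a (b (a (l 15598040) (l 15788136)) (a (l 15717552) (l 15824808))) (b (a (l 15891256) (l 15991472)) (a (l 15928984) (l 16030280))))) (b (a (b (a (l 16061576) (l 16148096)) (a (l 16068584) (l 16160960))) (b (a (l 16230456) (l 16308504)) (a (l 16248792) (l 16332840)))) (a (b (a (l 16089608) (l 16184240)) (a (l 16128888) (b (l 16212584) (l 16238968)))) (b (a (b (l 16268448) (l 16285256)) (b (l 16357184) (l 16375872))) (a (b (l 16306232) (l 16333232)) (l 518203919))))))))), by decide +kernel⟩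

def k1_A00mm_202_s3 : ∃ t, chk3 f_A00mm_202_s3 t 6 8 1 = true :=
  ⟨(b (a (a (l 6) (a (l 6) (b (l 16542824) (l 16504968)))) (a (b (a (l 16550712) (l 16547592)) (a (l 16522512) (l 16474560))) (b (a (l 16450920) (l 16432224)) (a (l 16525936) (l 16525600))))) (a (a (b (l 6) (l 16407896)) (b (a (l 16436784) (l 16434648)) (a (l 16411016) (l 16410176)))) (a (b (a (l 16364720) (b (l 16496448) (l 16462800))) (b (a (l 16420752) (l 16445880)) (a (l 16419824) (l 16442656)))) (b (a (b (l 16547648) (l 16513024)) (b (l 16611824) (l 16490552))) (a (b (l 16486136) (l 16479024)) (b (l 16543432) (l 16527656))))))), by decide +kernel⟩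

def k2_A00mm_202_s3 : ∃ t, chk3 f_A00mm_202_s3 t 12 9 1 = true :=
  ⟨(b (a (b (l 16320320) (b (l 16422456) (l 16432224))) (b (a (l 16416800) (l 16337952)) (b (a (l 16443984) (l 16454200)) (a (l 16459480) (l 16473288))))) (b (a (b (l 16428784) (l 16417896)) (a (b (l 16461432) (l 16455728)) (b (l 16478608) (l 16476160)))) (a (a (l 16383896) (l 16418168)) (a (l 16447248) (b (l 16473648) (l 16471600)))))), by decide +kernel⟩

def k3_A00mm_202_s3 : ∃ t, chk3 f_A00mm_202_s3 t 13 9 1 = true :=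
  ⟨(b (a (b (a (b (l 16427632) (l 16445592)) (b (l 16453000) (l 16472760))) (a (b (l 16430152) (b (l 16490416) (l 16498320))) (b (b (l 16494744) (l 16509824)) (a (l 16518504) (b (l 16531752) (l 16541536)))))) (b (a (b (a (l 16478552) (l 16497440)) (l 16509368)) (b (a (l 16519176) (l 16543656)) (a (l 16541104) (l 16562696)))) (a (b (a (l 16530088) (l 16550768)) (a (b (l 16551672) (l 16562160)) (b (l 16573088) (l 16584032)))) (b (a (l 16530936) (b (l 16587808) (l 16604552))) (a (b (l 16595576) (l 16606896)) (b (l 16618880) (l 16630344))))))) (a (b (a (b (a (l 16495864) (l 16511328)) (a (l 16495744) (l 16512688))) (b (a (b (l 16527768) (l 16529896)) (b (l 16547392) (l 16550192))) (a (l 16532008) (c (l 16553904) (l 16552752))))) (a (b (l 16462544) (l 16505576)) (b (a (l 16534800) (l 16557512)) (a (l 16538136) (l 16562280))))) (b (a (b (a (b (l 16568672) (l 16572120)) (b (l 16570224) (c (l 16595656) (l 16594816)))) (a (b (l 16574840) (l 16577616))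 (c (b (l 16598984) (l 16602384)) (b (l 16598144) (l 16601536))))) (b (a (b (c (l 16614816) (l 16614104)) (c (l 16619448) (l 16597784))) (b (c (l 16638488) (l 16616936)) (a (l 16637200) (l 16649224)))) (b (a (a (l 16616848) (l 16629152)) (a (l 16641480) (l 16653768))) (a (a (l 16620680) (l 16633264)) (a (l 16645856) (l 16658400)))))) (a (a (b (b (l 16580432) (l 16583232)) (b (l 16586192) (l 16589696))) (b (b (c (l 16605824) (l 16604976)) (l 16608848)) (b (l 16612456) (l 16616632)))) (b (a (b (a (l 16624568) (l 16637432)) (a (l 16628464) (l 16641624))) (a (b (l 16650304) (l 16654776)) (b (c (l 16663360) (l 16662864)) (c (l 16668096) (l 16667608))))) (a (a (l 526906639) (l 527001615)) (a (l 527115023) (l 527247375)))))))), by decide +kernel⟩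

def k4_A00mm_202_s3 : ∃ t, chk3 f_A00mm_202_s3 t 14 64 2 = true :=
  ⟨(a (a (l 16475544) (a (l 16462768) (l 16456016))) (a (a (a (l 16452240) (l 16450664)) (a (l 16450272) (b (l 16441840) (l 16460560)))) (a (a (a (b (l 16443464) (l 16462048)) (b (l 16444960) (l 16463456))) (a (b (l 16447264) (l 16465656)) (b (b (l 16446368) (l 16455496)) (l 16458736)))) (a (a (b (b (l 16451376) (l 16460448)) (a (l 16472760) (l 16465024))) (b (b (l 16457624) (l 16466640)) (b (l 16475680) (l 16484720)))) (a (b (b (l 16454552) (a (l 16472056) (l 16476008))) (b (l 16472488) (a (l 16490040) (l 16493928)))) (b (a (b (l 16471312) (l 16480232)) (b (l 16475824) (l 16484712))) (a (b (l 16489160) (l 16498088)) (b (l 16493600) (l 16502504))))))))), by decide +kernel⟩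

def k5_A00mm_202_s3 : ∃ t, chk3 f_A00mm_202_s3 t 60 64 2 = true :=
  ⟨(a (a (a (b (a (b (l 16480576) (l 16489432)) (b (l 16485584) (l 16494408))) (a (b (l 16498296) (l 16507160)) (b (l 16503232) (l 16512064)))) (b (b (b (l 16491104) (l 16495488)) (l 16496832)) (a (b (l 16508320) (l 16517112)) (b (l 16513368) (l 16522128))))) (a (b (b (l 16498160) (l 16506880)) (b (l 16515592) (b (l 16527368) (l 16531728)))) (b (a (b (l 16510840) (l 16519512)) (b (l 16515728) (l 16524376))) (b (a (l 16528184) (l 16533016)) (b (l 16537096) (l 16541416)))))) (a (a (b (a (b (l 16520568) (l 16529192)) (b (l 16525360) (l 16533960))) (a (b (l 16537808) (l 16546408)) (b (l 16542544) (l 16551120)))) (b (a (b (l 16530112) (l 16538680)) (b (l 16534816) (l 16543360))) (a (b (l 16547240) (l 16555792)) (b (l 16551896) (l 16560424))))) (b (a (a (b (l 16539480) (l 16548000)) (b (l 16544104) (l 16552600))) (a (b (l 16548688) (l 16557168)) (b (l 16553240) (l 16561696))))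 (a (a (b (l 16556512) (l 16559768)) (b (l 16555848) (l 16564320))) (a (b (l 16560392) (l 16568840)) (b (l 16564896) (l 16573328))))))), by decide +kernel⟩

def k6_A00mm_202_s3 : ∃ t, chk3 f_A00mm_202_s3 t 61 64 2 = true :=
  ⟨(a (a (a (b (a (b (l 16557760) (l 16566200)) (b (l 16562248) (l 16565424))) (b (a (l 16569376) (l 16573832)) (b (l 16583144) (l 16587336)))) (b (a (b (l 16566704) (l 16569864)) (b (l 16571144) (l 16574288))) (b (a (l 16578256) (l 16582656)) (b (l 16591960) (l 16596128))))) (a (b (a (b (l 16575552) (l 16578680)) (b (l 16579944) (l 16583056))) (b (a (l 16587032) (l 16591392)) (b (l 16600696) (l 16604840)))) (b (a (b (l 16584320) (l 16587416)) (b (l 16588672) (l 16591760))) (b (a (l 16595736) (l 16600056)) (b (l 16609352) (l 16613480)))))) (a (a (b (a (b (l 16593016) (l 16601328)) (b (l 16597344) (l 16605648))) (b (a (l 16604376) (l 16608680)) (b (l 16617960) (l 16622072)))) (b (a (b (l 16601664) (l 16609960)) (b (l 16605976)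 (l 16614264))) (b (a (l 16612976) (l 16617272)) (b (l 16626536) (l 16630632))))) (b (a (a (b (l 16610288) (l 16618560)) (b (l 16614608) (l 16622872))) (a (b (l 16618928) (l 16627192)) (b (l 16623264) (l 16631520)))) (b (a (a (l 16621560) (l 16625856)) (a (l 16630168) (l 16634488))) (a (b (l 16635096) (l 16639184)) (b (l 16643696) (l 16647768))))))), by decide +kernel⟩

def k7_A00mm_202_s3 : ∃ t, chk3 f_A00mm_202_s3 t 31 64 2 = true :=
  ⟨(a (a (a (a (b (a (b (l 16627616) (l 16635864)) (b (l 16631984) (l 16640224))) (b (a (l 16638824) (l 16643176)) (b (l 16652360) (l 16656416)))) (b (b (l 14) (b (l 16644744) (l 16648848))) (a (b (l 16647552) (l 16660928)) (b (l 16657184) (l 16665312))))) (a (b (b (l 14) (b (l 14) (l 16657680))) (a (b (l 16661592) (l 16669720)) (b (l 16666032) (l 16674152)))) (b (l 14) (b (b (l 16670696) (l 16674768)) (b (l 16678824) (l 16682864)))))) (a (b (l 14) (b (a (b (l 14) (l 16683800)) (l 14)) (a (b (l 16687856) (l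 16691888)) (b (l 14) (a (l 16698744) (l 16703352)))))) (l 14))) (l 14)), by decide +kernel⟩

def k8_A00mm_202_s3 : ∃ t, chk3 f_A00mm_202_s3 t 14 64 3 = true :=
  ⟨(a (a (l 16473368) (a (l 16460232) (l 16453264))) (a (a (l 16448424) (a (l 16447240) (b (l 16438608) (l 16457624)))) (a (a (b (a (l 16440216) (l 16441696)) (l 16449128)) (a (b (l 16444000) (l 16462680)) (b (l 16437216) (l 16445296)))) (a (b (a (a (l 16451352) (l 16443704)) (b (l 16454448) (l 16463600))) (a (b (l 16466560) (l 16475800)) (a (l 16465208) (l 16473840)))) (a (b (b (l 16451464) (l 16460560)) (b (l 16480144) (l 16489256))) (b (a (b (l 16468312) (l 16477352)) (b (l 16472880) (l 16481888))) (b (l 16483384) (l 16492424)))))))), by decide +kernel⟩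

def k9_A00mm_202_s3 : ∃ t, chk3 f_A00mm_202_s3 t 30 128 3 = true :=
  ⟨(a (a (a (a (a (b (l 16477696) (l 16486680)) (b (l 16482768) (l 16491720))) (b (l 16485344) (l 16494248))) (a (a (b (l 16498296) (l 16507144)) (b (l 16503360) (l 16512176))) (a (b (l 16508368) (l 16517160)) (b (l 16513328) (l 16522088))))) (b (a (a (b (l 16518488) (l 16522848)) (b (l 16528120) (l 16532448))) (a (b (l 16537576) (l 16541888)) (b (l 16546872) (l 16551168)))) (a (a (b (l 16527208) (l 16531568)) (a (l 16531336) (l 16536072))) (a (a (l 16540776) (l 16545432)) (b (l 16555456) (l 16559736)))))) (a (b (a (a (b (l 16556032) (l 16560304)) (b (l 16565072) (l 16569328))) (a (b (l 16574016) (l 16578248)) (b (l 16582864) (l 16587088)))) (a (a (b (l 16564576) (l 16568840)) (b (l 16573576) (l 16577816))) (a (b (l 16582480) (l 16586704)) (b (l 16591304) (l 16595512))))) (b (a (a (b (l 16591656) (l 16595864)) (b (l 16600400) (l 16604592))) (a (a (l 16603792) (l 16608152))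 (a (l 16612520) (l 16616904)))) (a (a (b (l 16600064) (l 16604256)) (b (l 16608784) (l 16612968))) (a (b (l 16617488) (l 16621656)) (a (l 16620864) (l 16625240))))))), by decide +kernel⟩

def k10_A00mm_202_s3 : ∃ t, chk3 f_A00mm_202_s3 t 30 129 3 = true :=
  ⟨(a (a (a (a (a (b (l 16495664) (l 16504648)) (b (l 16500672) (l 16509616))) (a (b (l 16505824) (l 16514736)) (b (l 16510936) (l 16519816)))) (a (a (b (l 16516000) (l 16524840)) (b (l 16521000) (l 16524568))) (a (b (l 16525952) (l 16529488)) (b (l 16530848) (l 16539592))))) (b (a (a (b (l 16535920) (l 16540280)) (a (l 16540008) (l 16544720))) (a (b (l 16554808) (l 16559112)) (b (l 16564016) (l 16563048)))) (a (a (b (l 16544632) (l 16548976)) (a (l 16548664) (l 16553352))) (a (b (l 16563400) (l 16567688)) (b (l 16567320) (l 16571576)))))) (a (a (b (a (b (l 16567848) (l 16572104)) (b (l 16576816) (l 16581048))) (a (a (b (l 16579344) (l 16583584)) (b (l 16583832) (l 16588056))) (a (b (l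 16588288) (l 16592504)) (b (l 16592720) (l 16596928))))) (b (b (a (l 16585680) (l 16594472)) (a (a (l 16592928) (l 16597336)) (a (l 16601720) (l 16606088)))) (a (a (b (l 16597136) (l 16601336)) (b (l 16601528) (l 16605720))) (a (b (l 16605904) (l 16610080)) (b (l 16610264) (l 16614432)))))) (a (b (a (b (l 16603200) (l 16607376)) (b (l 16617136) (l 16616056))) (a (a (b (l 16614616) (l 16618776)) (b (l 16618952) (l 16623104))) (a (b (l 16623288) (l 16627424)) (b (l 16627608) (l 16631744))))) (b (a (b (l 16625816) (l 16624720)) (b (l 16634520) (l 16638656))) (a (b (l 16628856) (a (l 16636064) (l 16640384))) (b (l 16642784) (l 16646888))))))), by decide +kernel⟩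

def k11_A00mm_202_s3 : ∃ t, chk3 f_A00mm_202_s3 t 31 64 3 = true :=
  ⟨(a (a (a (a (b (a (b (l 16621296) (l 16629624)) (b (l 16625704) (l 16634024))) (b (b (l 16643280) (l 16647408)) (b (l 16651520) (l 16655616)))) (b (b (l 14) (b (l 16643832) (l 16647976))) (b (b (l 16652104) (l 16656224)) (b (l 16660328) (l 16664416))))) (a (b (b (l 14) (b (l 14) (l 16656888))) (b (b (l 16661016) (l 16665128)) (b (l 16669224) (l 16673296)))) (b (l 14) (b (b (l 16670016) (l 16674120)) (b (l 16678208) (l 16682280)))))) (a (b (l 14) (b (a (b (l 14) (l 16683224)) (l 14)) (b (a (l 16687312) (l 14)) (a (a (l 16689088) (l 16693664)) (a (l 16698280) (l 16702920)))))) (l 14))) (l 14)), by decide +kernel⟩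

def k12_A00mm_202_s3 : ∃ t, chk3 f_A00mm_202_s3 t 14 65 2 = true :=
  ⟨(a (a (l 16517824) (a (l 16503344) (l 16495536))) (a (a (l 16489968) (a (l 16488280) (b (l 16479360) (l 16498184)))) (a (a (b (a (l 16480696) (l 16482000)) (l 16489304)) (a (b (l 16484104) (l 16502528)) (b (l 16477072) (l 16484888)))) (a (a (b (b (l 16487752) (l 16496856)) (b (l 16505944) (l 16515008))) (b (b (l 16493768) (l 16502800)) (b (l 16511816) (l 16520808)))) (a (b (a (b (l 16499032) (l 16508016)) (b (l 16502888) (l 16511840))) (b (l 16508352) (l 16517272))) (b (a (b (l 16507016) (l 16515928)) (b (l 16511392) (l 16520264))) (b (l 16521696) (l 16530536)))))))), by decide +kernel⟩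

def k13_A00mm_202_s3 : ∃ t, chk3 f_A00mm_202_s3 t 30 130 2 = true :=
  ⟨(a (a (a (a (a (b (l 16516016) (l 16524856)) (b (l 16520880) (l 16529688))) (a (b (l 16525896) (l 16534664)) (b (l 16530880) (l 16539608)))) (a (a (b (l 16535800) (l 16544496)) (b (l 16540672) (l 16549336))) (a (b (l 16545496) (l 16554120)) (b (l 16550272) (l 16558864))))) (b (a (a (b (l 16555208) (l 16559480)) (b (l 16564496) (l 16568752))) (a (b (l 16573640) (l 16577856)) (a (l 16577256) (l 16581720)))) (a (a (b (l 16563752) (l 16568016)) (b (l 16572992) (l 16577224))) (a (b (l 16582072) (l 16581032)) (b (l 16591016) (l 16589944)))))) (a (b (b (a (a (l 16591512) (l 16600288)) (a (l 16603736) (l 16612352))) (a (a (l 16595680) (l 16599192)) (a (l 16607856) (a (l 16619552) (l 16623840))))) (a (a (b (l 16599840) (l 16603992)) (b (l 16603328) (l 16607448))) (a (a (b (l 16615056) (l 16619160)) (b (l 16619360) (l 16623456))) (a (b (l 16623656) (l 16627736)) (b (l 16627928)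 (l 16632000)))))) (a (b (b (a (l 16620928) (l 16629472)) (a (a (l 16628120) (l 16632392)) (a (l 16636648) (l 16640912)))) (a (a (b (l 16632200) (l 16636256)) (b (l 16636456) (l 16640512))) (a (b (l 16640712) (l 16644752)) (b (l 16644960) (l 16649000))))) (b (a (b (l 16638008) (a (l 16645168) (l 16649440))) (b (l 16646584) (l 16655864))) (a (a (b (l 16649216) (l 16653240)) (b (l 16653472) (l 16657496))) (a (l 16659760) (l 16664040))))))), by decide +kernel⟩

def k14_A00mm_202_s3 : ∃ t, chk3 f_A00mm_202_s3 t 30 131 2 = true :=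
  ⟨(a (a (a (a (a (b (l 16533672) (l 16542448)) (b (l 16538464) (l 16547200))) (b (b (l 16543680) (l 16548032)) (l 16549296))) (a (a (b (l 16553160) (l 16561784)) (b (l 16557960) (l 16566544))) (a (b (l 16562712) (l 16571264)) (b (l 16567416) (l 16575928))))) (a (a (a (b (l 16572080) (l 16580560)) (b (l 16576696) (l 16585144))) (a (b (l 16581272) (l 16589680)) (b (l 16585816) (l 16594192)))) (a (a (b (l 16590312) (l 16598664)) (b (l 16594784) (l 16603096))) (b (b (a (l 16597136) (l 16601552)) (l 16603496)) (a (l 16607504) (l 16606640)))))) (a (b (b (a (a (l 16608128) (l 16611560)) (a (a (l 16623256) (l 16627536)) (a (l 16631800) (l 16636056)))) (a (a (a (l 16610064) (l 16614416)) (l 16620896)) (a (l 16624224) (a (l 16635856) (l 16640096))))) (b (a (a (l 16616352) (a (l 16622824) (l 16627112))) (a (l 16628280) (a (l 16639888) (l 16644120)))) (a (a (l 16620440) (a (l 16626896) (l 16631168))) (a (a (l 16635432) (l 16639672)) (a (l 16643904)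 (l 16648128)))))) (b (a (a (a (a (l 16636024) (l 16638136)) (a (l 16640256) (l 16642376))) (a (b (l 16648784) (l 16652792)) (b (l 16653016) (l 16657016)))) (a (a (l 16659248) (l 16663488)) (b (l 16667888) (l 16671856)))) (a (a (a (b (l 16648352) (l 16652344)) (b (l 16652568) (l 16656552))) (b (l 16658888) (l 16662856))) (a (b (l 16667328) (l 16671272)) (b (l 16675800) (l 16679728))))))), by decide +kernel⟩

def k15_A00mm_202_s3 : ∃ t, chk3 f_A00mm_202_s3 t 62 130 2 = true :=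
  ⟨(a (b (a (a (a (l 16660312) (l 16664648)) (a (l 16669000) (l 16673376))) (a (b (l 16677976) (l 16681984)) (b (l 16686880) (a (l 16688648) (l 16693128))))) (a (a (b (l 16668504) (l 16672496)) (b (l 16677192) (l 16681176))) (a (b (l 16685976) (a (l 16687744) (l 16692152))) (a (b (l 16692632) (l 16696592)) (b (l 16697104) (l 16701064)))))) (a (b (a (a (a (l 16694504) (l 16696768)) (a (l 16699040) (l 16701320))) (a (b (l 16702752) (l 16706744)) (b (l 16707360) (l 16711352)))) (a (a (b (l 16701608) (l 16705560)) (b (l 16706144) (l 16710096))) (a (b (l 16710712) (l 16714664)) (b (l 16715320) (l 16719264))))) (a (b (a (b (l 16712008) (l 16716000)) (b (l 16716696) (l 16720680))) (a (b (l 16719960) (l 16723904)) (b (l 16724648) (a (l 16727408) (l 16729760))))) (b (a (b (l 14) (l 16725408)) (l 14)) (a (a (b (l 16728184) (l 16732120)) (b (l 16730560) (l 16734496))) (a (b (l 16732944) (l 16736880)) (b (l 16735336) (l 16739272)))))))), by decide +kernel⟩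

def k16_A00mm_202_s3 : ∃ t, chk3 f_A00mm_202_s3 t 62 131 2 = true :=
  ⟨(a (a (b (a (b (l 16676472) (l 16680424)) (a (b (l 16682960) (l 16686904)) (b (l 16687312) (l 16691248)))) (b (a (l 16684352) (a (l 16690824) (l 16695160))) (a (a (l 16686120) (l 16690408)) (a (l 16694720) (l 16699056))))) (b (a (a (a (l 16692568) (l 16694760)) (b (l 16696104) (l 16700024))) (a (b (l 16700536) (l 16704456)) (b (l 16705000) (l 16708912)))) (a (a (b (l 16699528) (l 16703416)) (b (l 16703920) (l 16707800))) (a (b (l 16708344) (l 16712216)) (b (l 16712800) (l 16716664)))))) (a (b (b (a (a (l 16709496) (l 16714024)) (a (l 16718584) (l 16723184))) (a (a (l 16713400) (l 16717920)) (a (l 16722480) (c (l 16727144) (l 16727008))))) (b (a (a (l 16717280) (l 16721800)) (a (a (l 16725216) (l 16727496)) (b (l 16729984) (l 16731912)))) (a (a (l 16721136) (a (l 16724520) (l 16726784))) (a (b (l 16729240) (l 16731160)) (b (l 16733832) (l 16735744)))))) (a (b (a (a (b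 (l 16726656) (l 16730552)) (b (l 16728984) (l 16732880))) (a (b (l 16731328) (l 16735216)) (b (l 16733672) (l 16737560)))) (a (a (b (l 16734416) (l 16738256)) (b (l 16736744) (l 16740576))) (a (a (l 521855759) (l 521837327)) (a (b (l 16740832) (l 16744664)) (b (l 16742008) (l 16745840)))))) (b (a (a (b (l 16736040) (l 16739920)) (b (l 16738408) (b (l 16741320) (l 16743256)))) (a (b (l 16740792) (b (l 16743704) (l 16745640))) (a (b (l 16742584) (l 16746464)) (b (l 16743784) (l 16747664))))) (a (a (a (b (l 16743192) (l 16747024)) (b (l 16744368) (l 521794063))) (a (b (l 16745552) (l 521775375)) (b (l 16746744) (l 521756431)))) (a (a (a (l 521711119) (l 521701647)) (a (l 521692175) (l 521682447))) (a (a (l 521672719) (l 521662991)) (a (l 521653263) (l 521643535))))))))), by decide +kernel⟩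

def k17_A00mm_202_s3 : ∃ t, chk3 f_A00mm_202_s3 t 126 130 2 = true :=
  ⟨(a (a (b (l 14) (b (a (b (l 14) (l 16739936)) (l 14)) (b (a (a (l 16740696) (l 16743112)) (l 14)) (a (a (l 16742656) (l 16745072)) (a (l 16747504) (l 16749944)))))) (l 14)) (l 14)), by decide +kernel⟩

def k18_A00mm_202_s3 : ∃ t, chk3 f_A00mm_202_s3 t 126 262 2 = true :=
  ⟨(a (a (a (a (a (b (l 16744984) (l 521537807)) (b (l 16746192) (l 521518095))) (a (b (l 16747400) (l 521498383)) (b (l 16748608) (l 521478415)))) (a (a (a (l 521433871) (l 521423631)) (a (l 521413647) (l 521403407))) (a (a (l 521393423) (l 521383183)) (a (l 521372943) (l 521362703))))) (a (a (a (a (l 521352463) (l 521341967)) (a (l 521331727) (l 521321487))) (a (a (l 521310991) (l 521300495)) (a (l 521289999) (l 521279503)))) (a (a (a (l 521269007) (l 521258511)) (a (l 521248015) (l 521505807))) (b (l 14) (a (a (l 521256463) (l 521245711)) (a (l 521235215) (l 521224463))))))) (b (l 14) (a (a (a (a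 (a (l 521213711) (l 521202959)) (a (l 521191951) (l 521181199))) (a (a (l 521170191) (l 521159439)) (a (l 521148431) (l 14)))) (l 14)) (l 14)))), by decide +kernel⟩

def k19_A00mm_202_s3 : ∃ t, chk3 f_A00mm_202_s3 t 126 263 2 = true :=
  ⟨(a (a (a (a (a (a (l 521633807) (l 521624079)) (a (l 521614351) (l 521604367))) (a (a (l 521594383) (l 521584655)) (a (l 521574671) (l 521564687)))) (a (a (a (l 521554703) (l 521544463)) (a (l 521534479) (l 521524495))) (a (a (l 521514255) (l 521504015)) (a (l 521493775) (l 521483791))))) (a (a (a (a (l 521473551) (l 521463055)) (a (l 521452815) (b (l 521411599) (l 521473551)))) (a (a (l 521432079) (l 521421839)) (a (l 521411343) (l 521400847)))) (a (a (a (l 521390351) (l 521379855)) (a (l 521369359) (l 521358607))) (a (a (l 521348111) (b (l 521306383) (l 521368591))) (a (b (l 521295887) (l 521357839)) (a (l 521318671) (l 521313295))))))) (a (b (a (a (a (a (l 521274383) (l 521263631)) (a (l 521252879) (l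 521241871))) (a (a (l 521231119) (l 521220111)) (a (l 521209359) (l 521198351)))) (a (a (a (l 521187343) (l 521176335)) (a (l 521165327) (a (l 521156879) (l 521151503)))) (l 4))) (a (a (a (a (l 521336591) (l 521325839)) (a (l 521314831) (l 521304079))) (a (a (l 521293327) (l 521282319)) (l 4))) (l 4))) (l 4))), by decide +kernel⟩

def k20_A00mm_202_s3 : ∃ t, chk3 f_A00mm_202_s3 t 127 65 2 = true :=
  ⟨(l 14), by decide +kernel⟩

def k21_A00mm_202_s3 : ∃ t, chk3 f_A00mm_202_s3 t 14 65 3 = true :=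
  ⟨(a (a (l 16516368) (a (l 16501488) (l 16493432))) (a (a (l 16487648) (a (l 16485832) (l 16486272))) (a (a (b (l 16457520) (l 16476376)) (a (b (l 16481392) (l 16500072)) (b (l 16463888) (l 16503408)))) (a (a (b (b (l 16485032) (l 16494264)) (l 16497584)) (b (b (l 16491104) (l 16500264)) (b (l 16509400) (l 16518512)))) (b (a (b (l 16498352) (l 16507440)) (b (l 16501456) (l 16510464))) (a (b (l 16516504) (l 16525536)) (b (l 16519456) (l 16523160)))))))), by decide +kernel⟩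

def k22_A00mm_202_s3 : ∃ t, chk3 f_A00mm_202_s3 t 30 130 3 = true :=
  ⟨(a (a (a (a (a (b (l 16513624) (l 16522584)) (b (l 16518560) (l 16527472))) (a (b (l 16523632) (l 16532512)) (b (l 16528680) (l 16537520)))) (a (a (b (l 16533672) (l 16542472)) (b (l 16538600) (l 16547368))) (a (b (l 16543488) (l 16552216)) (b (l 16548320) (l 16557016))))) (b (a (a (b (l 16548072) (l 16557648)) (b (l 16562720) (l 16561776))) (a (b (l 16571968) (l 16576240)) (b (l 16575832) (l 16580072)))) (b (a (a (l 16561968) (l 16566072)) (a (a (l 16578216) (l 16582776)) (l 16584304))) (a (a (l 16566280) (l 16575592)) (a (a (l 16582472) (l 16587016)) (a (l 16591528) (l 16596008))))))) (a (a (a (a (b (b (l 16587816) (l 16592040)) (b (l 16596256) (l 16600456))) (b (b (l 16592280) (l 16596488)) (b (l 16600688) (l 16604872)))) (a (b (b (l 16596720) (l 16600912)) (b (l 16605104) (l 16609272))) (b (b (l 16601128) (l 16605312)) (b (l 16609488) (l 16613648))))) (b (a (a (b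 (l 16605520) (l 16609696)) (b (l 16609896) (l 16614056))) (a (b (l 16614248) (l 16618400)) (b (l 16618592) (l 16622736)))) (a (a (b (l 16613856) (l 16618008)) (b (l 16618208) (l 16622344))) (a (b (l 16622544) (l 16626664)) (b (l 16626864) (l 16630976)))))) (a (b (a (a (b (l 16622920) (l 16627056)) (b (l 16627240) (l 16631368))) (a (b (l 16631552) (l 16635672)) (b (l 16635864) (l 16639968)))) (b (a (c (l 16633576) (l 16630448)) (c (l 16639528) (l 16641688))) (a (c (l 16637664) (l 16634560)) (l 16645992)))) (b (a (b (a (l 16640176) (l 16644488)) (l 16646424)) (b (l 16650984) (l 16655064))) (a (b (l 16650504) (l 16654560)) (b (l 16659128) (l 16663168))))))), by decide +kernel⟩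

def k23_A00mm_202_s3 : ∃ t, chk3 f_A00mm_202_s3 t 30 131 3 = true :=
  ⟨(a (a (a (a (a (b (l 16531512) (l 16540400)) (b (l 16536360) (l 16545208))) (b (l 16538608) (l 16547400))) (a (b (b (l 16551496) (l 16555856)) (l 16557144)) (a (b (l 16560912) (l 16569560)) (b (l 16565672) (l 16574288))))) (a (a (a (b (l 16570392) (l 16578968)) (b (l 16575064) (l 16583608))) (b (b (l 16579864) (l 16584120)) (l 16590488))) (a (a (b (l 16583600) (l 16597280)) (b (l 16588120) (l 16596520))) (b (b (a (l 16595744) (l 16600208)) (l 16602176)) (a (l 16600976) (l 16605400)))))) (a (a (b (a (a (b (l 16604640) (l 16608808)) (b (l 16609048) (l 16613208))) (a (b (l 16613432) (l 16617576)) (b (l 16617792) (l 16621928)))) (a (b (l 16609920) (l 16619296)) (a (b (l 16621704) (l 16625816)) (b (l 16626040) (l 16630136))))) (b (a (a (b (l 16622136) (l 16626256)) (b (l 16626464) (l 16630568))) (a (b (l 16630776) (l 16634864)) (b (l 16635072) (l 16639152)))) (b (a (a (l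 16630352) (l 16634656)) (a (l 16638936) (l 16643216))) (a (a (l 16634440) (l 16638720)) (l 16645128))))) (a (b (a (b (a (l 16639360) (l 16643640)) (l 16645568)) (b (l 16650056) (l 16654096))) (a (b (l 16649608) (l 16653632)) (b (l 16658120) (l 16662120)))) (b (a (b (l 16658600) (l 16662624)) (b (l 16667192) (a (l 16669040) (l 16673344)))) (a (b (l 16666624) (l 16670600)) (a (b (l 16673032) (l 16676992)) (b (l 16677320) (l 16681272)))))))), by decide +kernel⟩

def k24_A00mm_202_s3 : ∃ t, chk3 f_A00mm_202_s3 t 62 130 3 = true :=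
  ⟨(a (a (b (a (b (l 16659696) (l 16663768)) (b (l 16668488) (l 16672536))) (a (b (l 16667808) (a (l 16669664) (l 16674016))) (a (a (l 16675288) (l 16677480)) (b (l 16678776) (l 16682784))))) (b (a (b (l 16677360) (a (l 16679176) (l 16683632))) (a (a (l 16684976) (l 16687224)) (a (l 16689480) (l 16691744)))) (a (a (b (l 16683200) (l 16687208)) (b (l 16687648) (l 16691648))) (a (b (l 16692128) (l 16696120)) (b (l 16696632) (l 16700624)))))) (a (b (a (a (b (l 16693136) (l 16697160)) (b (l 16697712) (l 16701736))) (a (b (l 16702320) (l 16706336)) (b (l 16706960) (l 16710976)))) (a (a (b (l 16701168) (l 16705152)) (b (l 16705736) (l 16709712))) (a (b (l 16710336) (l 16714312)) (b (l 16714976) (l 16718944))))) (a (b (a (b (l 16711640) (l 16715656)) (b (l 16716360) (l 16720368))) (a (b (l 16719648) (l 16723616)) (b (l 16724360) (b (l 16727336) (l 16729312))))) (b (a (b (l 14) (l 16725128)) (l 14)) (a (a (b (l 16727920) (l 16731888)) (b (l 16730312)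 (l 16734272))) (a (b (l 16732704) (l 16736664)) (b (l 16735120) (l 16739080)))))))), by decide +kernel⟩

def k25_A00mm_202_s3 : ∃ t, chk3 f_A00mm_202_s3 t 124 131 3 = true :=
  ⟨(a (b (a (a (b (l 16673672) (l 16677664)) (a (l 16678928) (l 16681104))) (a (a (l 16683280) (l 16685472)) (b (l 16686776) (l 16690744)))) (a (a (b (l 16681632) (l 16685576)) (b (l 16685960) (l 16689896))) (a (b (l 16690312) (l 16694240)) (b (l 16694688) (l 16698600))))) (b (a (a (b (l 16691184) (l 16695144)) (b (l 16695624) (l 16699576))) (a (b (l 16700088) (l 16704040)) (b (l 16704584) (l 16708528)))) (a (a (b (l 16699080) (l 16702992)) (b (l 16703504) (l 16707408))) (a (b (l 16707960) (l 16711856)) (b (l 16712440) (l 16716328)))))), by decide +kernel⟩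

def k26_A00mm_202_s3 : ∃ t, chk3 f_A00mm_202_s3 t 125 131 3 = true :=
  ⟨(a (b (b (a (a (l 16709112) (l 16713672)) (a (l 16718264) (c (l 16722968) (l 16722816)))) (a (a (l 16713048) (l 16717600)) (a (c (l 16722264) (l 16722112)) (c (l 16726880) (l 16726744))))) (b (a (a (l 16716952) (l 16721504)) (a (c (l 16726152) (l 16726016)) (b (l 16729736) (l 16731672)))) (a (a (l 16720840) (a (l 16724240) (l 16726520))) (a (b (l 16728992) (l 16730920)) (b (l 16733608) (l 16735528)))))) (a (b (a (a (b (l 16726384) (l 16730304)) (b (l 16728728) (l 16732648))) (a (b (l 16731080) (l 16735000)) (b (l 16733448) (l 16737360)))) (a (a (b (l 16734192) (l 16738056)) (a (l 521815055) (l 521797391))) (a (b (l 16738880) (b (l 16741776) (l 16743696))) (a (b (l 16740648) (l 16744504)) (b (l 16741832) (l 16745688)))))) (b (a (a (b (l 16735824) (l 16739728)) (b (l 16738208) (b (l 16741136) (l 16743088)))) (a (b (l 16740600) (b (l 16743536) (l 16745480))) (a (b (l 16742408)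 (l 16746312)) (b (l 16743616) (l 16747520))))) (a (a (a (b (l 16743016) (l 16746872)) (b (l 16744208) (l 521719567))) (a (b (l 16745400) (l 521700879)) (b (l 16746592) (l 521682191)))) (a (a (a (l 521636367) (l 521626895)) (a (l 521617167) (l 521607695))) (a (a (l 521598223) (l 521588495)) (a (l 521579023) (l 521569295)))))))), by decide +kernel⟩

def k27_A00mm_202_s3 : ∃ t, chk3 f_A00mm_202_s3 t 126 130 3 = true :=
  ⟨(a (a (b (l 14) (b (a (b (l 14) (l 16739744)) (l 14)) (b (a (a (l 16740512) (l 16742936)) (l 14)) (a (a (l 16742480) (l 16744912)) (a (l 16747352) (l 16749808)))))) (l 14)) (l 14)), by decide +kernel⟩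

def k28_A00mm_202_s3 : ∃ t, chk3 f_A00mm_202_s3 t 126 262 3 = true :=
  ⟨(a (a (a (a (a (b (l 16744824) (l 521461263)) (b (l 16746032) (l 521441807))) (a (b (l 16747248) (l 521422095)) (a (l 521376783) (l 521366799)))) (a (a (a (l 521357071) (l 521347087)) (a (l 521336847) (l 521326863))) (a (a (l 521316879) (l 521306639)) (a (l 521296655) (l 521286415))))) (a (a (a (a (l 521276175) (l 521265935)) (a (l 521255695) (l 521245455))) (a (a (l 521235215) (l 521224719)) (a (l 521214479) (l 521203983)))) (a (a (a (l 521193487) (l 521182991)) (a (l 521172495) (l 521430543))) (b (l 14) (a (a (l 521181967) (l 521171471)) (a (l 521160719) (l 521150223))))))) (b (l 14) (a (a (a (a (a (l 521139471) (l 521128719)) (a (l 521117967) (l 521107215))) (a (a (l 521096463) (l 521085711)) (a (l 521074703) (l 14)))) (l 14)) (l 14)))), by decide +kernel⟩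

def k29_A00mm_202_s3 : ∃ t, chk3 f_A00mm_202_s3 t 126 263 3 = true :=
  ⟨(a (a (a (a (a (a (l 521559567) (l 521549839)) (a (l 521540111) (l 521530383))) (a (a (l 521520655) (l 521510671)) (a (l 521500943) (l 521490959)))) (a (a (a (l 521480975) (l 521470991)) (a (l 521461007) (l 521451023))) (a (a (l 521441039) (l 521430799)) (a (l 521420815) (l 521410575))))) (a (a (a (a (l 521400591) (l 521390351)) (a (l 521380111) (l 521638159))) (a (a (l 521359375) (l 521349135)) (a (l 521338895) (l 521328399)))) (a (a (a (l 521317903) (l 521307663)) (a (l 521297167) (l 521286671))) (a (a (l 521276175) (b (l 521233679) (l 521297423))) (a (b (l 521223183) (l 521286927)) (a (l 521246991) (l 521241615))))))) (a (b (a (a (a (a (l 521201935) (l 521191183)) (a (l 521180431) (l 521169679))) (a (a (l 521158927) (l 521148175)) (a (l 521137167) (l 521126415)))) (a (a (a (l 521115407) (l 521104399)) (a (l 521093647) (l 521350927))) (l 4))) (a (a (a (a (l 521265679)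 (l 521254927)) (a (l 521244175) (l 521233423))) (a (a (l 521222671) (l 521211919)) (l 4))) (l 4))) (l 4))), by decide +kernel⟩

def k30_A00mm_202_s3 : ∃ t, chk3 f_A00mm_202_s3 t 127 65 3 = true :=
  ⟨(l 14), by decide +kernel⟩

def k31_A00mm_202_s3 : ∃ t, chk3 f_A00mm_202_s3 t 14 33 1 = true :=
  ⟨(a (a (b (l 16560856) (l 16521480)) (a (l 16481248) (b (l 16534816) (l 16575472)))) (a (a (b (a (l 16529360) (l 16526760)) (l 16525192)) (a (b (l 16525360) (l 16563456)) (b (b (l 16515880) (l 16534680)) (l 16562704)))) (a (a (b (b (c (l 16497336) (l 16474184)) (l 16530488)) (b (l 16554080) (l 16572304))) (b (a (b (l 16498792) (l 16538056)) (b (l 16512472) (l 16541120))) (a (b (l 16556168) (l 16574096)) (b (l 16559056) (l 16576784))))) (a (b (b (a (a (l 16505240) (l 16507800)) (b (l 16518192) (l 16537656))) (a (l 16545464) (a (l 16528544) (l 16552592)))) (a (b (l 16563232) (l 16580752)) (b (l 16568616) (l 16585944)))) (b (b (a (b (a (l 16533752)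 (l 16537488)) (l 16533992)) (a (b (l 16541480) (l 16550312)) (b (l 16545728) (l 16554512)))) (a (b (l 16542832) (l 16562104)) (b (l 16555896) (l 16559344)))) (a (b (b (l 16570808) (l 16579448)) (l 16592256)) (a (b (l 16580736) (l 16597696)) (b (l 16584784) (l 16601640))))))))), by decide +kernel⟩

def k32_A00mm_202_s3 : ∃ t, chk3 f_A00mm_202_s3 t 60 33 1 = true :=
  ⟨(a (a (b (a (b (a (b (l 16539736) (l 16558968)) (b (l 16549720) (l 16563664))) (a (b (l 16567656) (l 16576280)) (b (l 16572304) (l 16580880)))) (b (a (b (l 16549360) (l 16568504)) (b (l 16559456) (l 16573320))) (b (l 16574248) (l 16582760)))) (b (a (b (c (l 16587880) (l 16586360)) (l 16595568)) (b (l 16596432) (l 16604776))) (a (b (l 16603920) (l 16612176)) (b (l 16613032) (l 16621184))))) (b (a (b (a (b (l 16564264) (l 16578080)) (b (l 16569016) (l 16572304))) (b (c (l 16589672) (l 16588184)) (l 16597344))) (b (a (b (l 16573720) (l 16582208)) (b (l 16578376) (l 16586832))) (b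 (l 16598176) (l 16606504)))) (b (a (b (l 16605680) (l 16613928)) (b (l 16614752) (l 16622904))) (a (b (l 16622088) (l 16630144)) (b (l 16630968) (l 16638928)))))) (a (b (b (b (a (b (l 16583176) (l 16587392)) (b (a (l 16595248) (l 16599752)) (l 16596440))) (a (b (l 16591584) (l 16601008)) (b (l 16600600) (l 16604744)))) (a (b (c (l 16602648) (l 16606600)) (l 16615488)) (a (b (l 16608704) (l 16622128)) (b (l 16613128) (l 16626512))))) (b (a (b (l 16623656) (l 16631720)) (b (l 16632408) (l 16640384))) (a (b (l 16639688) (l 16647552)) (b (l 16648264) (l 16656032))))) (b (a (c (b (b (b (l 16607096) (l 16611208)) (l 16617360)) (b (l 16625488) (l 16633536))) (b (b (l 16607888) (l 16616176)) (b (l 16624392) (l 16632520)))) (c (b (b (b (l 16615856) (l 16619944)) (l 16626040)) (b (l 16634104) (l 16642072))) (b (b (b (l 16614664) (l 16618792)) (l 16624952)) (b (l 16633088) (l 16641144))))) (b (a (b (b (l 16639032) (l 16643008)) (l 16648920)) (a (b (l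 16642168) (l 16655248)) (b (l 16651632) (l 16659432)))) (a (b (l 16656712) (l 16664392)) (a (b (l 16662976) (l 16670592)) (b (l 16667120) (l 16674688)))))))), by decide +kernel⟩

def k33_A00mm_202_s3 : ∃ t, chk3 f_A00mm_202_s3 t 122 33 1 = true :=
  ⟨(a (b (b (a (a (b (b (l 16621792) (l 16625880)) (b (l 16629944) (l 16633992))) (b (c (l 16623448) (l 16622384)) (b (l 16634240) (l 16638264)))) (a (b (c (l 16627720) (l 16626704)) (b (l 16638512) (l 16642528))) (b (c (l 16631976) (l 16631000)) (b (l 16642768) (l 16646760))))) (b (a (b (a (l 16638016) (l 16642272)) (l 16638896)) (b (l 16648632) (l 16652592))) (a (b (l 16648112) (l 16652056)) (b (l 16656528) (l 16660440))))) (a (a (b (b (l 16655840) (l 16663600)) (b (l 16671248) (l 16678776))) (b (b (l 16660024) (l 16667744)) (b (l 16675352) (l 16682832)))) (a (b (b (l 16664184) (l 16671864)) (b (l 16679432) (l 16686880))) (b (b (l 16668328) (l 16675976)) (b (l 16683504) (l 16690912)))))) (b (b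 (b (a (a (b (l 16638976) (l 16643000)) (b (l 16637984) (l 16647240))) (a (b (c (l 16647904) (l 16647032)) (l 16651464)) (b (l 16651696) (c (l 16656080) (l 16655280))))) (a (b (l 16649120) (l 16653096)) (b (a (l 16655440) (l 16659640)) (l 16661488)))) (b (a (b (l 16657048) (l 16660976)) (b (l 16665408) (l 16669312))) (a (b (l 16664880) (l 16668752)) (b (l 16673184) (l 16677024))))) (a (b (a (b (l 16672464) (l 16680072)) (b (l 16676584) (l 16684160))) (a (b (l 16687568) (l 16694936)) (b (l 16691616) (l 16698944)))) (b (b (b (l 16680848) (l 16684640)) (b (l 16688400) (l 16692128))) (b (b (l 16695832) (a (l 16697488) (l 16701512))) (a (b (l 16701136) (l 16704744)) (b (l 16705136) (l 16708736)))))))), by decide +kernel⟩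

def k34_A00mm_202_s3 : ∃ t, chk3 f_A00mm_202_s3 t 246 33 1 = true :=
  ⟨(b (b (b (a (a (b (l 16655920) (l 16654648)) (c (l 16662488) (l 16661744))) (a (c (l 16666672) (l 16665968)) (c (l 16670856) (l 16670192)))) (b (a (a (l 16663832) (c (l 16668368) (l 16667680))) (c (l 16674624) (l 16673984))) (a (c (l 16670184) (l 16669512)) (b (l 16677224) (l 16679168))))) (b (a (a (c (l 16673928) (l 16673280)) (c (l 16678064) (l 16677456))) (a (c (l 16682200) (l 16681624)) (c (l 16686336) (l 16685792)))) (a (a (c (l 16681592) (l 16681016)) (c (l 16685704) (l 16685160))) (a (c (l 16689808) (l 16689296)) (c (l 16693920) (l 16693440)))))) (b (b (a (a (c (l 16689152) (l 16688632)) (c (l 16693232) (l 16692744))) (a (b (l 16695208) (l 16698944)) (b (l 16699320) (l 16703040)))) (a (a (b (l 16694512) (l 16698216)) (b (l 16698584) (l 16702272))) (a (b (l 16702648) (l 16706328)) (b (l 16706728) (l 16710384))))) (a (a (a (b (l 16702712) (l 16709936)) (b (l 16704720)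 (l 16711936))) (a (b (l 16706736) (l 16713928)) (b (l 16708752) (l 523985167)))) (a (a (b (l 16710768) (l 523969807)) (b (l 523797007) (l 523953423))) (a (b (l 523779599) (l 523936271)) (b (l 523761167) (l 523918351))))))), by decide +kernel⟩

def k35_A00mm_202_s3 : ∃ t, chk3 f_A00mm_202_s3 t 247 33 1 = true :=
  ⟨(a (b (b (b (a (b (l 16667520) (l 16676688)) (b (l 16671744) (l 16675656))) (a (c (l 16682816) (l 16682240)) (c (l 16686992) (l 16686456)))) (b (a (b (c (l 16688568) (l 16688048)) (l 16692128)) (b (c (l 16692728) (l 16692240)) (l 16696296))) (a (b (l 16695928) (l 16699688)) (b (l 16700072) (l 16703824))))) (b (b (a (b (l 16703424) (l 16707128)) (b (l 16707552) (l 16711240))) (a (b (l 16710808) (l 16714448)) (b (l 16714896) (l 16718528)))) (a (a (b (l 523741967) (l 523899151)) (b (l 523721743) (l 523879183))) (a (b (l 523701263) (l 523858959)) (b (l 523680271) (l 523837967)))))) (b (b (b (b (b (l 16682376) (l 16684328)) (b (l 16686272)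 (l 16688216))) (a (b (l 16689000) (l 16692856)) (b (l 16687992) (l 16697080)))) (b (a (b (l 16696680) (l 16700472)) (b (l 16700888) (l 16704672))) (a (b (l 16704240) (l 16707984)) (b (l 16708432) (l 16712152))))) (b (b (a (b (l 16711688) (l 16715368)) (b (l 16715848) (l 16719512))) (a (b (l 16719008) (l 16722624)) (b (l 16723144) (l 16726744)))) (a (a (b (l 523658767) (l 523816719)) (b (l 523637007) (l 523795215))) (a (b (l 523614735) (l 523772943)) (b (l 523591951) (l 523750415))))))), by decide +kernel⟩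

def k36_A00mm_202_s3 : ∃ t, chk3 f_A00mm_202_s3 t 124 66 1 = true :=
  ⟨(b (a (b (a (a (a (c (l 16690888) (l 16690376)) (c (l 16693016) (l 16692520))) (b (l 16694048) (l 16697920))) (a (b (l 16698368) (l 16702232)) (b (l 16702704) (l 16706560)))) (a (a (b (l 16697488) (l 16701320)) (b (l 16701768) (l 16705584))) (a (b (l 16706064) (l 16709872)) (b (l 16710384) (l 16714184))))) (b (a (a (b (l 16707072) (l 16710920)) (a (b (l 16710368) (l 16714208)) (b (l 16712568) (l 16716408)))) (a (a (b (l 16712160) (l 16718616)) (b (l 16717000) (l 16720824))) (a (b (l 16719224) (l 16723048)) (b (l 16721464) (l 16725280))))) (b (a (a (l 16714736) (c (l 16719264) (l 16718960))) (a (c (l 16723664) (l 16723376)) (c (l 16728088) (l 16727832)))) (a (a (c (l 16718680) (l 16718368)) (c (l 16723032) (l 16722752))) (a (c (l 16727416) (l 16727160)) (b (l 16730784) (l 16732656))))))) (a (b (a (a (b (l 16705120) (l 16708896)) (b (l 16709376) (l 16713136))) (a (b (l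 16713656) (l 16717400)) (b (l 16717952) (l 16721696)))) (a (a (b (l 16712640) (l 16716352)) (b (l 16716872) (c (l 16720720) (l 16720424)))) (a (b (l 16721120) (c (l 16724944) (l 16724680))) (a (b (l 16724328) (l 16728008)) (b (l 16726480) (l 16730152)))))) (a (a (a (b (b (l 16721200) (l 16724928)) (b (l 16728632) (l 16732304))) (b (b (l 16723368) (l 16727096)) (b (l 16730792) (l 16734456)))) (a (b (b (l 16725552) (l 16729272)) (b (l 16732960) (l 16736624))) (b (b (l 16727736) (l 16731456)) (b (l 16735136) (l 16738792))))) (a (a (b (b (l 16729928) (l 16733640)) (b (l 16737320) (l 16740968))) (b (b (l 16732136) (l 16735840)) (b (l 16739520) (l 522809615)))) (a (b (b (l 16734344) (l 16738048)) (a (l 522751247) (l 522736143))) (b (b (l 16736560) (l 522606863)) (a (l 522721039) (l 522705679)))))))), by decide +kernel⟩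

def k37_A00mm_202_s3 : ∃ t, chk3 f_A00mm_202_s3 t 250 66 1 = true :=
  ⟨(a (a (a (b (b (b (l 16723704) (l 16727520)) (b (l 16731312) (l 16735064))) (b (a (l 522549007) (l 522533391)) (a (l 522690319) (l 522674703)))) (a (b (b (l 522250255) (l 522381327)) (b (l 522517519) (l 522659087))) (b (b (l 522234127) (l 522365455)) (b (l 522501647) (l 522643215))))) (b (a (b (b (l 16728216) (l 16732024)) (a (l 522349327) (l 522333199))) (a (b (l 522185487) (l 522316815)) (b (l 522169103) (l 522300431)))) (a (b (a (l 522485775) (l 522469647)) (a (l 522627343) (l 522611215))) (a (b (l 522453519) (l 522595087)) (b (l 522437135) (l 522578959)))))) (a (a (b (b (a (l 522152463) (l 522135823)) (a (l 522284047) (l 522267407))) (a (b (l 522420751) (l 522562575)) (b (l 522404111) (l 522546191)))) (b (b (a (l 522118927) (l 522102031)) (a (l 522250511) (l 522233615))) (a (b (l 522387471) (l 522529551)) (b (l 522370575) (l 522512655))))) (a (b (a (b (b (l 16736776)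 (l 16740568)) (l 522216719)) (b (b (l 16737928) (l 522100239)) (l 522199567))) (a (b (l 522353679) (l 522496015)) (b (l 522336783) (l 522478863)))) (b (a (b (b (l 16739080) (l 522083087)) (l 522182415)) (b (b (l 522000911) (l 522065679)) (l 522165007))) (a (b (l 522319631) (l 522461967)) (b (l 522302223) (l 522444815))))))), by decide +kernel⟩

def k38_A00mm_202_s3 : ∃ t, chk3 f_A00mm_202_s3 t 251 66 1 = true :=
  ⟨(a (a (a (b (a (b (b (l 521983503) (l 522048271)) (l 522147599)) (b (b (l 521965839) (l 522030607)) (l 522130191))) (a (b (l 522285071) (l 522427407)) (b (l 522267407) (l 522409999)))) (b (a (b (b (l 521948175) (l 522012687)) (l 522112527)) (b (b (l 521930255) (l 521995023)) (l 522094607))) (a (b (l 522249743) (l 522392335)) (b (l 522232079) (l 522374927))))) (a (b (a (b (a (l 521948943) (l 521939983)) (l 522076687)) (b (a (l 521931023) (l 521921807)) (a (l 522063119) (l 522054159)))) (a (b (l 522214159) (l 522357007)) (b (l 522196239)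 (l 522339087)))) (b (a (b (a (l 521912847) (l 521903631)) (a (l 522045199) (l 522035983))) (b (a (l 521894415) (l 521885199)) (a (l 522026767) (l 522017807)))) (a (b (l 522178319) (l 522321167)) (b (l 522160143) (l 522302991)))))) (a (a (b (a (b (a (l 521875983) (l 521866767)) (a (l 522008591) (l 521999375))) (b (a (l 521857551) (l 521848079)) (a (l 521990159) (l 521980687)))) (a (b (l 522141711) (l 522284815)) (b (l 522123279) (l 522266383)))) (b (a (b (a (l 521838863) (l 521829391)) (a (l 521971471) (l 521961999))) (b (a (l 521819919) (l 521810703)) (a (l 521952783) (l 521943311)))) (a (b (a (l 522109455) (l 522099983)) (l 522247951)) (b (a (l 522090767) (l 522081295)) (l 522229263))))) (a (b (a (b (a (l 521801231) (l 521791759)) (a (l 521933839) (l 521924367))) (b (a (l 521782031) (l 521772559)) (a (l 521914895) (l 521905423)))) (a (b (a (l 522072079) (l 522062607)) (l 522210575)) (b (a (l 522053135) (l 522043663)) (l 522191631)))) (b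 (a (b (a (l 521763087) (l 521753359)) (a (l 521895951) (l 521886223))) (b (a (l 521743631) (l 521734159)) (a (l 521876751) (l 521867023)))) (b (a (a (l 522034191) (l 522024463)) (a (l 522014991) (l 522005263))) (l 4)))))), by decide +kernel⟩

def k39_A00mm_202_s3 : ∃ t, chk3 f_A00mm_202_s3 t 63 66 1 = true :=
  ⟨(a (a (b (a (a (a (a (b (a (l 521724431) (l 521714703)) (a (l 521857295) (l 521847567))) (b (a (l 521704975) (l 521694991)) (a (l 521838095) (l 521828111)))) (a (b (a (l 521685263) (l 521675535)) (a (l 521818383) (l 521808655))) (b (a (l 521665551) (l 521655567)) (a (l 521798671) (l 521788943))))) (a (a (b (a (b (l 521613071) (l 521678351)) (b (l 521603087) (l 521668367))) (a (l 521778959) (l 521768975))) (b (a (b (l 521593103) (l 521658383)) (b (l 521583119) (l 521648399))) (a (l 521758991) (l 521749007)))) (a (b (a (b (l 521573135) (l 521638415)) (b (l 521562895) (l 521628431))) (a (l 521739023) (l 521729039))) (b (a (b (l 521552911)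 (l 521618191)) (b (l 521542671) (l 521608207))) (a (l 521718799) (l 521708815)))))) (a (b (a (a (b (a (l 521532431) (l 521522191)) (a (l 521597967) (l 521587727))) (a (b (l 521511951) (l 521577487)) (b (l 521501711) (l 521567247)))) (a (a (b (l 521491471) (l 521557007)) (b (l 521480975) (l 521546511))) (a (b (b (l 521454607) (l 521486863)) (l 521536271)) (b (l 521661711) (l 521525775))))) (a (a (a (l 521698575) (l 521688335)) (a (l 521678351) (l 521668111))) (l 4))) (b (b (a (a (a (b (l 521433615) (l 521466127)) (b (l 521423119) (l 521455631))) (a (l 521429007) (l 521418511))) (a (a (l 521407759) (l 521397263)) (a (l 521386767) (l 521376015)))) (a (a (a (l 521515535) (l 521505039)) (l 4)) (l 4))) (l 4)))) (b (a (a (b (a (a (l 521955855) (l 521936399)) (a (l 521916943) (l 521897231))) (a (a (l 522026255) (l 4)) (l 4))) (l 4)) (l 4)) (l 4))) (l 4)) (l 4)), by decide +kernel⟩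

def k40_A00mm_202_s3 : ∃ t, chk3 f_A00mm_202_s3 t 124 134 1 = true :=
  ⟨(a (b (a (a (b (l 16720032) (l 16723680)) (b (l 16724240) (l 16727872))) (a (a (b (l 16727408) (l 16731032)) (b (l 16729528) (l 16733152))) (a (b (l 16731656) (l 16735272)) (b (l 16733792) (l 16737400))))) (a (a (b (l 16727296) (l 16730880)) (a (b (l 16730432) (l 16734000)) (b (l 16732528) (l 16736088)))) (a (a (b (l 16734632) (l 16738184)) (b (l 16736736) (l 16740288))) (a (b (l 16738856) (l 16742400)) (b (l 16740976) (l 16744512)))))) (a (a (a (b (b (l 16735936) (l 523099151)) (b (l 16743104) (l 523250447))) (b (b (l 16738088) (l 523071503)) (a (l 523191823) (l 523177999)))) (a (b (b (l 16740248) (l 523043599)) (a (l 523163919) (l 523150095))) (b (b (l 16742408) (l 523015183)) (a (l 523135759) (l 523121679))))) (a (a (b (a (l 522956303) (l 522941967)) (a (l 523107343) (l 523092751))) (b (a (l 522927119) (l 522912271)) (a (l 523078159) (l 523063311)))) (a (b (a (l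 522897423) (l 522882575)) (a (l 523048463) (l 523033615))) (b (a (l 522867215) (l 522852111)) (a (l 523018511) (l 523003407))))))), by decide +kernel⟩

def k41_A00mm_202_s3 : ∃ t, chk3 f_A00mm_202_s3 t 125 134 1 = true :=
  ⟨(a (a (a (a (b (a (l 522836751) (l 522821135)) (a (l 522988047) (l 522972687))) (a (b (l 522805519) (l 522957327)) (b (l 522789903) (l 522941455)))) (a (a (b (l 522774031) (l 522925839)) (b (l 522758159) (l 522909967))) (a (b (l 522742031) (l 522893839)) (b (l 522725903) (l 522877967))))) (a (a (a (b (l 522709519) (l 522861583)) (b (l 522693135) (l 522845199))) (a (b (l 522676751) (l 522828815)) (b (l 522660111) (l 522812431)))) (a (a (b (l 522643215) (l 522795535)) (b (l 522626319) (l 522778895))) (a (b (l 522609423) (l 522761999)) (b (l 522592271) (l 522744847)))))) (a (b (a (a (a (l 522575119) (l 522557711)) (a (l 522540303) (l 522522639))) (a (a (l 522504975) (l 522487055)) (a (l 522469135) (l 522451215)))) (a (a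 (a (l 522727695) (l 522710543)) (l 4)) (l 4))) (l 4))), by decide +kernel⟩

def k42_A00mm_202_s3 : ∃ t, chk3 f_A00mm_202_s3 t 62 135 1 = true :=
  ⟨(a (a (a (a (a (b (l 523568911) (l 523727375)) (b (l 523545103) (l 523704079))) (a (b (b (l 16737536) (l 16741040)) (l 523680015)) (b (b (l 16739624) (l 16743112)) (l 523655695)))) (a (a (b (b (l 16741712) (l 16745192)) (l 523630863)) (b (b (l 16743808) (l 523485711)) (l 523605775))) (a (b (b (l 16745904) (l 523459855)) (l 523579919)) (b (c (l 523424783) (l 523363343)) (a (l 523560463) (l 523547407)))))) (a (a (a (b (c (l 523397647) (l 523336719)) (a (l 523534095) (l 523520527))) (b (c (l 523370255) (l 523309839)) (a (l 523506959) (l 523493391)))) (a (b (c (l 523342351) (l 523282447)) (c (l 523501071) (l 523444239))) (b (a (l 523291407) (l 523277327)) (c (l 523472911) (l 523416591))))) (a (a (b (a (l 523262991) (l 523248655)) (c (l 523444495) (l 523388431))) (b (a (l 523234063) (l 523219471))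 (a (l 523394831) (l 523380239)))) (a (b (a (l 523204623) (l 523189775)) (a (l 523365647) (l 523350799))) (a (l 523254799) (l 523239695)))))) (a (a (a (a (a (l 523224591) (l 523209487)) (a (l 523193871) (l 523178511))) (a (a (l 523162895) (l 523147023)) (a (l 523131151) (l 523115279)))) (a (a (a (l 523099151) (l 523083023)) (a (l 523066639) (l 523050255))) (l 4))) (l 4))), by decide +kernel⟩

def k43_A00mm_202_s3 : ∃ t, chk3 f_A00mm_202_s3 t 63 67 1 = true :=
  ⟨(l 4), by decide +kernel⟩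

def k44_A00mm_202_s3 : ∃ t, chk3 f_A00mm_202_s3 t 14 68 1 = true :=
  ⟨(a (a (l 16566424) (a (l 16628568) (l 16616144))) (a (a (l 16606136) (a (l 16601216) (l 16599640))) (a (a (b (l 16590360) (l 16608224)) (b (a (l 16591840) (l 16594312)) (l 16610328))) (a (a (b (l 16598056) (l 16615112)) (b (l 16603000) (l 16619808))) (a (b (l 16609088) (l 16625640)) (b (l 16616232) (l 16632528))))))), by decide +kernel⟩

def k45_A00mm_202_s3 : ∃ t, chk3 f_A00mm_202_s3 t 30 136 1 = true :=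
  ⟨(a (a (a (a (b (l 16620352) (l 16628448)) (b (l 16629240) (l 16637208))) (a (b (l 16638088) (l 16645936)) (b (l 16646768) (l 16654504)))) (a (a (b (l 16655296) (l 16662920)) (b (l 16663688) (l 16671216))) (a (b (l 16671952) (l 16679384)) (b (l 16682736) (l 16690072))))) (a (b (a (a (b (l 16686352) (l 16690016)) (a (l 16694200) (l 16698192))) (a (a (l 16702168) (l 16706136)) (a (b (l 16708320) (l 16711864)) (b (l 16712288) (l 16715816))))) (a (a (b (l 16693640) (l 16697232)) (b (l 16701584) (l 16705128))) (a (b (l 16712096) (l 16712976)) (a (b (l 16715376) (l 16718848)) (b (l 16719304) (l 16722752)))))) (a (a (a (a (b (l 16717024) (l 524347919)) (b (l 16719000) (l 524336143))) (a (b (l 524159503) (l 524323599)) (b (l 524145423) (l 524310031)))) (a (a (b (l 524130575) (l 524295695)) (b (l 524114703) (l 524280079))) (a (b (l 524097807) (l 524263695)) (b (l 524079887) (l 524246287))))) (a (a (a (b (l 524060943) (l 524227599)) (b (l 524041231)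 (l 524208143))) (a (b (l 524021007) (l 524187919)) (b (l 524000527) (l 524167439)))) (a (a (b (l 523979535) (l 524146703)) (b (l 523958031) (l 524125455))) (a (b (l 523936015) (l 524103695)) (b (l 523913487) (l 524081423)))))))), by decide +kernel⟩

def k46_A00mm_202_s3 : ∃ t, chk3 f_A00mm_202_s3 t 30 137 1 = true :=
  ⟨(a (a (a (a (b (l 16636464) (l 16644400)) (b (l 16645088) (l 16652888))) (a (b (l 16653688) (l 16661352)) (b (l 16662128) (l 16669656)))) (a (a (b (l 16670432) (l 16677832)) (b (l 16678608) (l 16685888))) (a (b (l 16686680) (l 16693848)) (a (b (l 16692672) (l 16699752)) (b (l 16696632) (l 16703672)))))) (a (a (a (a (b (l 16700584) (l 16707568)) (b (l 16704512) (l 16711448))) (a (b (l 16708424) (l 16715320)) (b (l 16712328) (l 16719176)))) (a (a (b (l 524572687) (l 524737807)) (b (b (l 16718392) (l 16721808)) (l 524727823))) (a (b (b (l 16722280) (l 16725672)) (b (l 16729032) (l 16732344))) (b (b (l 16726168) (l 16729536))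 (b (l 16732872) (l 16736168)))))) (c (a (a (a (a (l 524629007) (l 524617999)) (a (l 524605967) (l 524593167))) (a (a (l 524579343) (l 524564495)) (a (l 524548623) (l 524531471)))) (a (a (a (l 524513039) (l 524493583)) (a (l 524473615) (l 524453135))) (a (a (l 524432399) (l 524411151)) (a (l 524389391) (l 524367119))))) (a (a (a (a (l 524570383) (l 524560143)) (a (l 524548623) (l 524536335))) (a (a (l 524523279) (l 524508943)) (a (l 524493583) (l 524476943)))) (a (a (a (l 524458767) (l 524439823)) (a (l 524420367) (l 524400399))) (a (a (l 524380175) (l 524359183)) (l 524058639))))))), by decide +kernel⟩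

def k47_A00mm_202_s3 : ∃ t, chk3 f_A00mm_202_s3 t 31 68 1 = true :=
  ⟨(a (a (a (a (a (a (b (b (l 523890703) (l 524058639)) (b (l 524231439) (l 524408591))) (b (b (l 523867407) (l 524035599)) (b (l 524208399) (l 524385807)))) (a (b (b (l 523843855) (l 524012047)) (b (l 524185103) (l 524362767))) (b (b (l 523819535) (l 523988239)) (b (l 524161295) (l 524338959))))) (a (a (b (b (l 523794959) (l 523963663)) (b (l 524136975) (l 524315151))) (b (b (l 523769871) (l 523938831)) (b (l 524112399) (l 524290575)))) (a (b (b (l 523744271) (l 523913487)) (b (l 524087311) (l 524265743))) (b (b (l 523718415) (l 523887631)) (b (l 524061711) (l 4)))))) (a (a (b (a (b (l 523692047) (l 523861519)) (b (l 523665167) (l 523834895))) (b (a (l 524035599) (l 524009231)) (l 4))) (b (a (b (l 523637775) (l 523807759)) (b (a (l 523617039) (l 523603215)) (l 523780111))) (l 4))) (b (b (a (a (a (l 523588879) (l 523574799)) (c (l 523579407) (l 523526927))) (a (a (l 523531279)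 (l 523516687)) (a (l 523501839) (l 523486991)))) (a (a (l 523751951) (l 4)) (l 4))) (l 4)))) (l 4)) (l 4)), by decide +kernel⟩

def k48_A00mm_202_s3 : ∃ t, chk3 f_A00mm_202_s3 t 14 69 1 = true :=
  ⟨(a (a (a (l 16627128) (l 16664568)) (a (l 16670880) (l 16572696))) (a (a (l 16560832) (a (l 16638392) (l 16635880))) (a (a (b (l 16625864) (l 16643264)) (b (l 16627496) (l 16644376))) (a (a (b (l 16631888) (l 16648376)) (b (l 16636328) (l 16652528))) (a (b (l 16641888) (l 16657800)) (b (l 16648496) (l 16664120))))))), by decide +kernel⟩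

def k49_A00mm_202_s3 : ∃ t, chk3 f_A00mm_202_s3 t 60 69 1 = true :=
  ⟨(a (a (a (a (b (l 16654104) (l 16669504)) (b (l 16658136) (l 16673392))) (b (b (l 16660592) (l 16668200)) (l 524857615))) (a (b (b (l 16668912) (l 16676384)) (l 524918031)) (b (b (l 16677088) (l 16684416)) (l 524969743)))) (a (a (b (b (l 16685136) (l 16692328)) (l 525012239)) (b (l 524682255) (l 525046031))) (a (a (b (l 524969743) (l 525333775)) (b (l 524979727) (l 525343759))) (b (a (l 524987663) (l 524993039)) (c (l 525114895) (a (l 525322255) (l 525328399))))))), by decide +kernel⟩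

def k50_A00mm_202_s3 : ∃ t, chk3 f_A00mm_202_s3 t 61 69 1 = true :=
  ⟨(a (a (a (b (a (b (l 16714408) (l 16721120)) (b (l 16718240) (l 16724888))) (a (b (l 16727704) (l 525459215)) (l 525092367))) (b (a (b (l 16722056) (l 16728648)) (b (l 524910607) (l 525079823))) (a (l 525090831) (l 525087247)))) (a (a (b (b (l 524905231) (l 525074703)) (l 525081103)) (b (b (l 524897039) (l 525067535)) (l 525072655))) (b (c (a (b (l 524913679) (l 525084687)) (b (l 524899087) (l 525072143))) (a (l 524675855) (l 524663823))) (a (a (l 525064719) (l 525059087)) (b (l 525222671) (l 525416207)))))) (a (a (b (c (a (b (l 524881167) (l 525056271)) (b (l 524859919) (l 525037327))) (a (l 524648207) (a (l 524902671) (l 524892175)))) (b (a (a (l 525212431) (l 525204751)) (a (l 525196559) (l 525187855))) (a (b (l 525349135) (l 525452303)) (b (l 525331215) (l 525434383))))) (b (a (c (a (l 524930831) (l 524917775)) (c (l 524618511) (l 524593679))) (a (b (l 524787983)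 (l 524970767)) (b (l 524771855) (l 524955663)))) (a (b (a (l 525178639) (l 525168399)) (b (l 525311503) (l 525413903))) (b (a (c (l 525178895) (l 525134351)) (b (l 525095951) (l 525190415))) (b (a (l 525295119) (b (l 525261583) (l 525437711))) (l 525390863)))))) (a (b (a (a (b (l 524754191) (l 524938511)) (l 524827151)) (a (l 524807695) (l 524787983))) (a (b (a (a (l 525131535) (l 525122575)) (l 525108751)) (b (a (a (l 525275919) (l 525266959)) (l 525253135)) (a (a (l 525375503) (c (l 525386255) (l 525347087))) (l 4)))) (b (a (l 525089807) (l 525070351)) (b (l 525224463) (l 4))))) (a (b (a (l 524767759) (l 524747279)) (b (a (l 525050383) (l 525030159)) (l 4))) (b (a (l 524726031) (b (l 524612111) (l 524797967))) (l 4)))))), by decide +kernel⟩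

def k51_A00mm_202_s3 : ∃ t, chk3 f_A00mm_202_s3 t 31 69 1 = true :=
  ⟨(b (a (a (a (a (a (c (a (l 524704783) (l 524681999)) (l 524381199)) (c (l 524378639) (l 524335887))) (l 4)) (l 4)) (l 4)) (l 4)) (l 4)), by decide +kernel⟩

def k52_A00mm_202_s3 : ∃ t, chk3 f_A00mm_202_s3 t 14 35 1 = true :=
  ⟨(a (a (b (l 16530600) (a (l 16573736) (l 16608152))) (a (b (l 16586384) (l 16561824)) (b (l 16612416) (l 16599488)))) (a (a (b (l 16598504) (a (l 16627240) (l 16630832))) (a (b (l 16674520) (l 16624792)) (b (l 16629016) (l 16662024)))) (a (a (b (a (l 16669192) (l 16647464)) (a (l 16659376) (l 16679016))) (b (b (l 16660896) (a (l 16676432) (l 16677592))) (a (b (l 16691920) (l 16706712)) (b (l 16692768) (l 16707240))))) (a (b (a (b (l 16664464) (l 16679976)) (b (l 16668328) (l 16683528))) (a (b (l 16694840) (l 16708976)) (b (l 16698064) (l 16711864)))) (b (a (b (l 16673296) (l 16688184)) (a (l 525196559) (l 525686543))) (a (b (l 16702384) (b (l 16712544)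 (l 16719072))) (a (b (l 16706304) (l 16719488)) (b (l 16709216) (l 526827279))))))))), by decide +kernel⟩

def k53_A00mm_202_s3 : ∃ t, chk3 f_A00mm_202_s3 t 15 35 1 = true :=
  ⟨(a (a (a (a (a (b (a (l 525667087) (l 525677839)) (a (l 526014991) (l 526287887))) (b (a (l 525711887) (l 525746191)) (l 526610959))) (b (a (b (l 525316623) (l 525738511)) (b (l 525370383) (l 525795087))) (a (l 526412047) (a (l 526727183) (l 526755343))))) (a (b (a (b (l 525415439) (l 525842703)) (b (l 525451279) (l 525881359))) (a (b (l 526291983) (l 526762767)) (b (l 526333455) (l 526807311)))) (a (b (b (l 525478159) (l 525911055)) (b (l 526365967) (l 526842639))) (b (b (l 525496079) (l 525931279)) (b (l 526389263) (l 527137551)))))) (b (a (a (a (a (l 525987855) (l 525990415)) (a (l 525722127) (l 525451535))) (a (a (a (l 525985295) (l 525982479)) (a (l 525979151) (l 525975055))) (a (a (l 525970447) (l 525965327)) (b (l 525466895) (l 526182671))))) (a (b (a (a (l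 525452047) (l 525434895)) (a (l 525415439) (l 525393167))) (a (a (l 525900815) (l 4)) (l 4))) (l 4))) (a (a (a (a (l 526907919) (l 526913551)) (a (l 526916623) (l 526917391))) (a (a (l 526916111) (l 526912271)) (l 4))) (l 4)))) (l 4)), by decide +kernel⟩

def k54_A00mm_202_s3 : ∃ t, chk3 f_A00mm_202_s3 t 14 36 1 = true :=
  ⟨(a (a (b (a (l 16569608) (l 16599424)) (a (l 16586464) (l 16569808))) (a (b (l 16631776) (b (l 16634328) (l 16642800))) (b (b (l 16669040) (l 16664568)) (b (l 16664904) (l 16628568))))) (a (a (b (b (l 16622432) (l 16657448)) (a (l 16669120) (c (l 16685160) (l 16663488)))) (b (a (c (l 16687392) (l 16687024)) (b (l 16643088) (l 16657552))) (a (b (l 16721536) (l 16722320)) (b (l 16737384) (l 16715888))))) (a (b (a (b (l 16701600) (a (l 16653880) (l 16735392))) (b (a (l 16720760) (l 16720952)) (a (l 16733992) (l 16733832)))) (a (b (a (l 16749296) (l 16705968)) (a (l 16747568) (l 16754624))) (b (a (l 16725416) (b (l 16742920)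 (l 16748712))) (b (l 530630415) (l 531218959))))) (b (a (b (a (l 16722344) (l 16714384)) (a (l 16724376) (b (l 16734064) (l 16739912)))) (a (b (b (l 16725392) (l 16731504)) (b (l 16737384) (l 16743048))) (a (b (l 527426831) (l 527993871)) (b (l 527330063) (l 527866895))))) (a (b (a (b (l 16743664) (l 16749352)) (a (l 16737232) (l 16743632))) (b (a (l 16754496) (l 16750848)) (a (l 16748352) (l 530750991)))) (b (a (b (l 16748472) (l 16748408)) (a (b (l 16751328) (l 16756352)) (b (l 16753528) (l 16753216)))) (a (b (a (l 16757856) (l 16759376)) (a (l 16757248) (l 529719055))) (b (a (l 16755888) (b (l 16761984) (l 16764256))) (b (a (l 16764544) (l 16766464)) (a (l 16766736) (l 529498127))))))))))), by decide +kernel⟩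

def k55_A00mm_202_s3 : ∃ t, chk3 f_A00mm_202_s3 t 15 36 1 = true :=
  ⟨(a (a (a (a (a (b (a (b (l 527006223) (l 527787279)) (a (l 527512847) (l 527523087))) (b (a (b (l 16750720) (l 528475663)) (a (l 528289295) (l 528292367))) (a (b (b (l 16764232) (l 528858895)) (a (b (l 16768048) (l 16767528)) (b (l 16766552) (l 529164559)))) (a (b (l 528700175) (a (l 529009167) (l 528979727))) (a (l 528827919) (l 528832271)))))) (b (l 527574031) (l 528612623))) (b (a (l 527650063) (l 527717135)) (a (l 528695567) (l 528769807)))) (a (b (a (l 527238671) (b (l 527569935) (l 528084495))) (a (l 528835087) (l 4))) (b (a (b (l 527608847) (l 528126479)) (b (l 527638543) (l 4))) (l 4)))) (l 4)) (l 4)), by decide +kernel⟩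

def k56_A00mm_202_s3 : ∃ t, chk3 f_A00mm_202_s3 t 7 74 1 = true :=
  ⟨(a (a (a (a (b (l 16611032) (l 16627984)) (b (l 16633840) (l 16651288))) (a (b (l 16657344) (l 16631624)) (a (b (l 16675336) (l 16690344)) (b (l 16688136) (l 16701808))))) (a (a (a (b (l 16701400) (l 16692008)) (b (l 16693920) (c (l 16704048) (l 16682672)))) (a (b (c (l 16707472) (l 16686064)) (a (l 16712648) (l 16728936))) (b (a (l 16717096) (l 16734056)) (b (l 16735848) (a (l 16746968) (l 16752440)))))) (a (a (a (b (b (l 16749760) (l 16752392)) (b (l 16713168) (l 16736888))) (b (b (l 16756304) (l 16758560)) (b (l 16760896) (l 16757992)))) (b (a (l 531780879) (l 531431695)) (a (b (l 16763032) (l 531827727)) (a (l 531733775) (l 531428367))))) (a (b (b (a (l 531462159) (l 530909199)) (l 531015951)) (a (l 530985231) (l 530423311))) (b (b (b (a (l 530391311) (l 529872399)) (l 529850639)) (l 529706767)) (a (l 529894415) (l 529399311))))))) (a (a (a (a (b (a (b (a (b (b (a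 (l 16771680) (l 529324047)) (l 529524239)) (l 529530127)) (b (a (b (l 529202703) (b (l 529011983) (l 529344783))) (a (a (l 528936207) (l 528932879)) (l 528906511))) (a (b (l 529377551) (l 529357839)) (b (a (b (a (l 529319695) (l 529253903)) (l 529314063)) (b (l 528993295) (a (b (l 529015311) (l 528952847)) (l 4)))) (a (l 529278223) (l 4)))))) (a (l 529394191) (a (l 529230095) (l 4)))) (b (b (l 529227535) (a (b (l 529293071) (l 4)) (l 4))) (l 4))) (l 4)) (l 4)) (l 4)) (l 4)) (l 4))), by decide +kernel⟩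

def k57_A00mm_202_s3 : ∃ t, chk3 f_A00mm_202_s3 t 7 75 1 = true :=
  ⟨(a (a (a (a (b (l 16642480) (l 16654072)) (b (l 16665896) (l 16677568))) (a (b (l 16688616) (l 16658368)) (a (b (l 16704872) (l 16716560)) (b (l 16673104) (l 16684912))))) (a (a (a (b (c (l 16704456) (l 16683176)) (c (l 16715784) (l 16694672))) (b (b (l 16732568) (l 16717096)) (b (l 16722240) (l 16727160)))) (a (b (b (l 16732464) (c (l 16726424) (l 16705280))) (b (b (l 16729624) (l 16742448)) (a (l 16754192) (l 16757976)))) (a (b (b (l 16750608) (l 16733296)) (b (l 531580431) (l 531908879))) (b (b (l 16734672) (l 531640847)) (b (c (l 16762056) (l 16761992)) (b (l 16764384) (l 532181263))))))) (a (a (b (a (a (l 531886095) (l 532156943)) (a (l 531681551) (l 531691535))) (a (a (b (l 532108559) (l 532182031)) (b (l 532342543) (l 532034063))) (a (b (l 532134415) (l 531824911)) (l 531130127)))) (b (a (b (l 531856655) (l 531325711)) (b (l 530684431) (a (l 531110415) (l 530797583))))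 (b (a (l 531309071) (c (a (l 530826255) (l 530513167)) (a (l 530814991) (l 530496527)))) (a (l 531001359) (l 530347535))))) (a (b (a (a (l 530632463) (l 530337551)) (l 529910287)) (a (b (a (b (l 530273039) (a (l 530195983) (l 530043663))) (l 529897487)) (l 4)) (l 4))) (b (a (l 529369615) (l 4)) (l 4)))))) (l 4)), by decide +kernel⟩

def k58_A00mm_202_s3 : ∃ t, chk3 f_A00mm_202_s3 t 28 38 1 = true :=
  ⟨(a (b (a (b (l 16641008) (c (l 16667392) (l 16646008))) (b (c (l 16685664) (l 16643408)) (c (l 16690816) (l 16648576)))) (b (a (a (l 16665960) (l 16677952)) (a (l 16689768) (l 16701360))) (a (a (l 16670832) (l 16683080)) (a (l 16684592) (c (l 16706848) (l 16706600)))))) (a (b (a (b (l 16702656) (l 16707776)) (b (l 16713720) (l 16718792))) (a (b (l 16712616) (c (l 16718144) (l 16717952))) (b (l 16723576) (c (l 16729056) (l 16707944))))) (b (a (b (l 16703440) (l 16708448)) (b (b (l 16733288) (l 16736280)) (b (l 16738520) (l 16740696)))) (a (b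 (c (l 16734192) (l 16713104)) (b (l 16738048) (l 16730360))) (b (c (l 16733768) (l 16733696)) (a (l 530051855) (l 530216463))))))), by decide +kernel⟩

def k59_A00mm_202_s3 : ∃ t, chk3 f_A00mm_202_s3 t 29 38 1 = true :=
  ⟨(a (a (b (a (b (b (l 16701128) (l 16725048)) (l 530571279)) (b (b (l 16752112) (l 531782415)) (l 531595023))) (a (a (b (l 530700815) (l 530399503)) (l 530230287)) (b (l 531295247) (l 530989583)))) (b (b (a (b (a (l 16758168) (l 532048655)) (a (l 16750072) (l 531747599))) (b (a (l 531920655) (b (l 531972623) (l 531684623))) (a (l 531533071) (l 531065103)))) (a (a (l 531973391) (l 531569423)) (a (a (l 531663119) (l 531546383)) (l 531370511)))) (a (b (b (l 531610895) (l 531730703)) (l 531504655)) (a (b (b (a (l 531814927) (l 531697679)) (b (l 531833103) (l 531885071))) (l 531894287)) (b (b (l 531521295) (a (l 531682575) (l 4))) (l 4)))))) (a (b (a (b (a (b (a (l 530937103) (b (l 531748111) (l 531533071))) (b (a (l 531326479)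 (l 530739983)) (l 530804239))) (a (b (a (l 531532559) (l 531426319)) (a (b (l 531223055) (b (l 531026447) (l 530903055))) (b (l 531151631) (b (a (l 531005711) (l 530977295)) (b (l 530871055) (l 530855183)))))) (b (l 531187471) (a (a (b (l 531060751) (l 530079247)) (l 530886927)) (l 530754063))))) (a (l 531135247) (a (l 530958351) (a (a (a (l 530892047) (a (l 530880783) (l 4))) (l 4)) (l 4))))) (b (a (b (l 530671887) (l 530320911)) (b (l 530011407) (l 4))) (l 4))) (a (a (b (b (l 531285263) (l 4)) (l 4)) (l 4)) (l 4))) (l 4))), by decide +kernel⟩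

def k60_A00mm_202_s3 : ∃ t, chk3 f_A00mm_202_s3 t 15 38 1 = true :=
  ⟨(l 4), by decide +kernel⟩

def k61_A00mm_202_s3 : ∃ t, chk3 f_A00mm_202_s3 t 7 39 1 = true :=
  ⟨(a (a (a (a (b (a (c (b (l 16676000) (l 16681000)) (b (l 16675576) (l 16680584))) (c (b (l 16688456) (l 16693696)) (b (l 16688096) (l 16693352)))) (a (b (l 527592975) (l 16691840)) (b (l 527765263) (l 16705096)))) (b (a (c (b (l 16700640) (l 16706120)) (b (l 16700352) (l 16695352))) (c (b (l 16712504) (l 16718200)) (b (l 16691296) (l 528537359)))) (a (b (l 527957519) (l 527561999)) (b (l 528169999) (l 527771663))))) (a (b (b (a (c (l 16723960) (l 16713288)) (b (l 16733352) (l 16725912))) (a (b (l 16728304) (l 16720808)) (a (l 528975887) (l 529107727)))) (a (b (b (l 16723864) (l 528303887)) (c (l 528019471) (l 527984655))) (b (a (l 528591631) (l 528723983)) (a (l 528188943) (l 528320015))))) (b (a (b (a (l 529522191) (l 529383951)) (a (l 529244431) (l 529385743))) (b (a (b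 (l 16751296) (l 16749128)) (b (l 16745640) (l 529870095))) (b (a (l 529605391) (l 529749007)) (l 529523983)))) (a (a (b (l 528861455) (l 528456463)) (l 528802575)) (l 529025807))))) (a (a (b (b (a (a (b (l 530175503) (l 530030351)) (a (l 530245135) (l 530357007))) (l 530677519)) (a (a (b (a (l 529857551) (l 529933839)) (b (l 529800975) (l 529716495))) (b (a (l 530017807) (a (l 530090255) (l 530147343))) (a (b (l 529917711) (l 529837327)) (b (a (l 529966351) (l 530025999)) (a (l 529900815) (l 529944847)))))) (b (l 530439439) (b (l 530319119) (b (l 530257935) (l 4)))))) (a (a (l 529262607) (a (l 529385487) (a (l 529448207) (l 4)))) (l 4))) (b (a (l 531040783) (l 4)) (l 4))) (l 4))) (l 4)), by decide +kernel⟩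

def k62_A00mm_202_s3 : ∃ t, chk3 f_A00mm_202_s3 t 12 5 1 = true :=
  ⟨(b (a (b (b (a (l 16363216) (l 16404424)) (a (l 16352064) (l 16400192))) (a (b (l 16351312) (l 16361352)) (b (l 16406368) (l 16423344)))) (b (a (b (l 16440304) (l 16442960)) (b (b (l 16471440) (l 16473640)) (b (l 16478360) (l 16485728)))) (a (b (l 16414192) (b (l 16473184) (l 16487992))) (b (b (l 16495824) (l 16508712)) (b (l 16524416) (l 522120719)))))) (a (b (a (b (l 16382088) (b (l 16404328) (l 16422120))) (b (b (l 16443144) (l 16459600)) (b (l 16478544) (l 16499856)))) (b (a (b (l 16442096) (l 16463456)) (b (l 16523360) (a (l 16528032) (l 16569576)))) (b (a (l 518920463) (b (l 16569200) (l 518919695))) (a (l 518325263) (l 520016399))))) (a (b (a (b (l 522221839) (l 521108495)) (b (l 521933327) (l 520838671))) (b (a (b (l 16581840) (l 16610240)) (b (l 16619552) (l 519595023))) (a (b (l 518913807) (l 518207759)) (a (b (l 519145999) (b (l 16696816) (l 518347791))) (b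 (l 519592975) (b (l 518689039) (b (l 16715752) (l 518285583)))))))) (b (b (a (l 521461263) (l 520929551)) (a (l 520332047) (l 519728143))) (a (a (b (l 519228687) (b (l 518576143) (a (b (l 518608399) (c (l 518266127) (l 518104335))) (a (l 518422031) (l 518336015))))) (l 518695439)) (b (l 518642191) (l 517700879))))))), by decide +kernel⟩

def k63_A00mm_202_s3 : ∃ t, chk3 f_A00mm_202_s3 t 13 5 1 = true :=
  ⟨(b (a (b (b (a (b (l 16508608) (l 16514080)) (a (b (l 16543480) (l 16551344)) (b (l 16569104) (l 16578512)))) (a (b (l 16522160) (l 16532952)) (a (l 524194575) (l 524078095)))) (b (a (a (l 523203855) (l 522910735)) (a (l 522680335) (l 522514703))) (a (b (l 521974799) (l 521268751)) (a (l 521165327) (b (l 521334799) (l 520551183)))))) (b (a (b (a (b (l 16575160) (l 16586064)) (b (b (l 16621448) (l 16626928)) (l 525258511))) (a (a (l 524035087) (l 524027663)) (b (l 524456975) (l 523639055)))) (b (a (b (a (l 526137871) (l 526225679)) (a (l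 525343759) (l 525423375))) (b (a (l 526332175) (l 526457871)) (a (l 525521935) (l 525639695)))) (a (b (a (l 524527887) (l 524598287)) (a (l 523694351) (l 523754255))) (a (b (l 524687631) (l 523564559)) (b (l 524796175) (b (l 524149775) (l 523712527))))))) (a (b (a (a (l 522435343) (l 522403855)) (l 522389775)) (a (a (b (l 521223695) (l 520417039)) (l 520759823)) (l 520702991))) (b (a (b (l 522599183) (l 522002959)) (b (a (l 522962191) (b (l 523271183) (l 522826255))) (l 521843983))) (a (l 520693007) (l 4)))))) (a (b (a (b (l 520234767) (l 518922255)) (b (a (l 519680271) (l 519390991)) (l 518063887))) (a (b (l 517714191) (l 516640527)) (l 4))) (b (a (b (a (b (a (l 519616271) (l 519532047)) (l 518771215)) (b (b (l 519649039) (l 4)) (l 4))) (l 4)) (l 4)) (l 4)))), by decide +kernel⟩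

def k64_A00mm_202_s3 : ∃ t, chk3 f_A00mm_202_s3 t 7 5 1 = true :=
  ⟨(a (a (b (a (b (b (a (b (a (l 526602767) (l 526767375)) (l 525852175)) (b (b (a (l 527157519) (l 527364367)) (l 526843407)) (a (l 526111247) (l 526309135)))) (a (b (l 524995599) (l 524115727)) (b (a (l 525241615) (l 525431311)) (l 524433423)))) (b (a (b (a (b (l 523381263) (l 522930191)) (l 4)) (l 4)) (l 4)) (l 4))) (b (b (b (b (a (a (l 527591951) (a (l 527776527) (b (l 528010511) (l 527801359)))) (a (a (c (l 528057871) (l 528024591)) (l 528181775)) (l 528402447))) (a (a (l 527172623) (l 527418127)) (a (a (c (l 527635215) (l 527598351)) (l 4)) (l 4)))) (a (l 526644495) (l 4))) (a (a (b (l 525641999) (l 4)) (l 4)) (l 4))) (l 4))) (l 4)) (l 4)) (l 4)), by decide +kernel⟩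

def k65_A00mm_202_s3 : ∃ t, chk3 f_A00mm_202_s3 t 2 6 1 = true :=
  ⟨(a (b (b (a (l 6) (a (b (l 6) (a (l 6) (l 15498776))) (b (b (l 15591176) (l 15623128)) (a (l 15616664) (l 15731976))))) (a (b (l 6) (a (l 6) (a (l 6) (l 15410888)))) (a (b (a (l 15452576) (l 15572136)) (a (l 15531952) (l 15651472))) (b (a (l 15690264) (l 15805800)) (a (l 15769536) (l 15884992)))))) (b (a (a (b (l 6) (a (l 6) (l 15339624))) (b (a (l 15373360) (l 15495856)) (a (l 15463528) (l 15585512)))) (a (b (a (l 15616640) (l 15735840)) (a (l 15705728) (l 15824328))) (b (a (l 15853544) (l 15968640)) (a (l 15941408) (l 16055880))))) (b (b (a (a (l 15347520) (l 15594352)) (a (l 15833672) (l 514766607))) (a (l 2) (a (l 2) (l 514701327)))) (l 2)))) (b (a (b (b (a (b (l 15813816) (l 15846472)) (a (l 16009040) (l 517310223))) (a (a (l 15843856) (l 15952504)) (a (l 16058136) (l 16160984)))) (a (b (a (l 15917896) (l 16026792)) (a (l 15997024) (l 16147824))) (a (b (l 16132712)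 (l 516047887)) (b (l 516514063) (l 516209935))))) (a (b (a (b (l 517463567) (l 517027599)) (b (l 517596943) (l 517154319))) (a (b (l 516657679) (l 516350479)) (b (l 516779279) (l 516467471)))) (b (a (b (l 517708815) (l 517258767)) (b (l 517798159) (l 517339407))) (a (l 517782799) (l 516778767))))) (a (b (a (b (a (l 16122264) (l 515620879)) (a (l 515225103) (l 515428111))) (b (a (l 515802895) (l 515963663)) (a (l 515610639) (l 515770639)))) (a (b (a (l 515077391) (l 515282447)) (l 515076879)) (b (a (l 515465999) (l 515626767)) (a (l 515365135) (l 515527439))))) (a (b (a (b (l 516101647) (l 515907343)) (l 517450511)) (a (b (l 515763215) (l 515664911)) (b (l 515874063) (l 515776015)))) (b (a (l 516195087) (l 516254479)) (b (l 517596943) (l 4))))))), by decide +kernel⟩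

def k66_A00mm_202_s3 : ∃ t, chk3 f_A00mm_202_s3 t 2 7 1 = true :=
  ⟨(a (l 2) (a (l 2) (a (l 2) (l 4)))), by decide +kernel⟩

def k67_A00mm_202_s3 : ∃ t, chk3 f_A00mm_202_s3 t 3 3 1 = true :=
  ⟨(a (b (a (b (a (b (a (b (l 517863439) (l 517394703)) (b (l 517902863) (l 517423119))) (a (l 516821519) (l 516835343))) (b (a (l 517390351) (b (b (a (a (b (a (l 518123023) (a (a (l 518120719) (b (l 519253007) (l 4))) (b (l 518121487) (l 4)))) (l 517976335)) (l 4)) (l 4)) (l 4)) (l 4))) (l 4))) (l 4)) (l 4)) (l 4)) (l 4)), by decide +kernel⟩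

theorem t68_A00mm_202_s3 : ∃ t, chk3 f_A00mm_202_s3 t 2 3 1 = true := ex3_b k65_A00mm_202_s3 k66_A00mm_202_s3

theorem t69_A00mm_202_s3 : ∃ t, chk3 f_A00mm_202_s3 t 1 3 1 = true := ex3_a t68_A00mm_202_s3 k67_A00mm_202_s3

theorem t70_A00mm_202_s3 : ∃ t, chk3 f_A00mm_202_s3 t 6 5 1 = true := ex3_a k62_A00mm_202_s3 k63_A00mm_202_s3

theorem t71_A00mm_202_s3 : ∃ t, chk3 f_A00mm_202_s3 t 3 5 1 = true := ex3_a t70_A00mm_202_s3 k64_A00mm_202_s3

theorem t72_A00mm_202_s3 : ∃ t, chk3 f_A00mm_202_s3 t 14 38 1 = true := ex3_a k58_A00mm_202_s3 k59_A00mm_202_s3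

theorem t73_A00mm_202_s3 : ∃ t, chk3 f_A00mm_202_s3 t 7 38 1 = true := ex3_a t72_A00mm_202_s3 k60_A00mm_202_s3

theorem t74_A00mm_202_s3 : ∃ t, chk3 f_A00mm_202_s3 t 7 19 1 = true := ex3_b t73_A00mm_202_s3 k61_A00mm_202_s3

theorem t75_A00mm_202_s3 : ∃ t, chk3 f_A00mm_202_s3 t 7 37 1 = true := ex3_b k56_A00mm_202_s3 k57_A00mm_202_s3

theorem t76_A00mm_202_s3 : ∃ t, chk3 f_A00mm_202_s3 t 7 36 1 = true := ex3_a k54_A00mm_202_s3 k55_A00mm_202_s3

theorem t77_A00mm_202_s3 : ∃ t, chk3 f_A00mm_202_s3 t 7 18 1 = true := ex3_b t76_A00mm_202_s3 t75_A00mm_202_s3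

theorem t78_A00mm_202_s3 : ∃ t, chk3 f_A00mm_202_s3 t 7 9 1 = true := ex3_b t77_A00mm_202_s3 t74_A00mm_202_s3

theorem t79_A00mm_202_s3 : ∃ t, chk3 f_A00mm_202_s3 t 7 35 1 = true := ex3_a k52_A00mm_202_s3 k53_A00mm_202_s3

theorem t80_A00mm_202_s3 : ∃ t, chk3 f_A00mm_202_s3 t 30 69 1 = true := ex3_a k49_A00mm_202_s3 k50_A00mm_202_s3

theorem t81_A00mm_202_s3 : ∃ t, chk3 f_A00mm_202_s3 t 15 69 1 = true := ex3_a t80_A00mm_202_s3 k51_A00mm_202_s3

theorem t82_A00mm_202_s3 : ∃ t, chk3 f_A00mm_202_s3 t 7 69 1 = true := ex3_a k48_A00mm_202_s3 t81_A00mm_202_s3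

theorem t83_A00mm_202_s3 : ∃ t, chk3 f_A00mm_202_s3 t 30 68 1 = true := ex3_b k45_A00mm_202_s3 k46_A00mm_202_s3

theorem t84_A00mm_202_s3 : ∃ t, chk3 f_A00mm_202_s3 t 15 68 1 = true := ex3_a t83_A00mm_202_s3 k47_A00mm_202_s3

theorem t85_A00mm_202_s3 : ∃ t, chk3 f_A00mm_202_s3 t 7 68 1 = true := ex3_a k44_A00mm_202_s3 t84_A00mm_202_s3

theorem t86_A00mm_202_s3 : ∃ t, chk3 f_A00mm_202_s3 t 7 34 1 = true := ex3_b t85_A00mm_202_s3 t82_A00mm_202_s3

theorem t87_A00mm_202_s3 : ∃ t, chk3 f_A00mm_202_s3 t 7 17 1 = true := ex3_b t86_A00mm_202_s3 t79_A00mm_202_s3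

theorem t88_A00mm_202_s3 : ∃ t, chk3 f_A00mm_202_s3 t 62 134 1 = true := ex3_a k40_A00mm_202_s3 k41_A00mm_202_s3

theorem t89_A00mm_202_s3 : ∃ t, chk3 f_A00mm_202_s3 t 62 67 1 = true := ex3_b t88_A00mm_202_s3 k42_A00mm_202_s3

theorem t90_A00mm_202_s3 : ∃ t, chk3 f_A00mm_202_s3 t 31 67 1 = true := ex3_a t89_A00mm_202_s3 k43_A00mm_202_s3

theorem t91_A00mm_202_s3 : ∃ t, chk3 f_A00mm_202_s3 t 125 66 1 = true := ex3_a k37_A00mm_202_s3 k38_A00mm_202_s3

theorem t92_A00mm_202_s3 : ∃ t, chk3 f_A00mm_202_s3 t 62 66 1 = true := ex3_a k36_A00mm_202_s3 t91_A00mm_202_s3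

theorem t93_A00mm_202_s3 : ∃ t, chk3 f_A00mm_202_s3 t 31 66 1 = true := ex3_a t92_A00mm_202_s3 k39_A00mm_202_s3

theorem t94_A00mm_202_s3 : ∃ t, chk3 f_A00mm_202_s3 t 31 33 1 = true := ex3_b t93_A00mm_202_s3 t90_A00mm_202_s3

theorem t95_A00mm_202_s3 : ∃ t, chk3 f_A00mm_202_s3 t 123 33 1 = true := ex3_a k34_A00mm_202_s3 k35_A00mm_202_s3

theorem t96_A00mm_202_s3 : ∃ t, chk3 f_A00mm_202_s3 t 61 33 1 = true := ex3_a k33_A00mm_202_s3 t95_A00mm_202_s3

theorem t97_A00mm_202_s3 : ∃ t, chk3 f_A00mm_202_s3 t 30 33 1 = true := ex3_a k32_A00mm_202_s3 t96_A00mm_202_s3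

theorem t98_A00mm_202_s3 : ∃ t, chk3 f_A00mm_202_s3 t 15 33 1 = true := ex3_a t97_A00mm_202_s3 t94_A00mm_202_s3

theorem t99_A00mm_202_s3 : ∃ t, chk3 f_A00mm_202_s3 t 7 33 1 = true := ex3_a k31_A00mm_202_s3 t98_A00mm_202_s3

theorem t100_A00mm_202_s3 : ∃ t, chk3 f_A00mm_202_s3 t 126 131 3 = true := ex3_b k28_A00mm_202_s3 k29_A00mm_202_s3

theorem t101_A00mm_202_s3 : ∃ t, chk3 f_A00mm_202_s3 t 126 65 3 = true := ex3_b k27_A00mm_202_s3 t100_A00mm_202_s3

theorem t102_A00mm_202_s3 : ∃ t, chk3 f_A00mm_202_s3 t 63 65 3 = true := ex3_a t101_A00mm_202_s3 k30_A00mm_202_s3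

theorem t103_A00mm_202_s3 : ∃ t, chk3 f_A00mm_202_s3 t 62 131 3 = true := ex3_a k25_A00mm_202_s3 k26_A00mm_202_s3

theorem t104_A00mm_202_s3 : ∃ t, chk3 f_A00mm_202_s3 t 62 65 3 = true := ex3_b k24_A00mm_202_s3 t103_A00mm_202_s3

theorem t105_A00mm_202_s3 : ∃ t, chk3 f_A00mm_202_s3 t 31 65 3 = true := ex3_a t104_A00mm_202_s3 t102_A00mm_202_s3

theorem t106_A00mm_202_s3 : ∃ t, chk3 f_A00mm_202_s3 t 30 65 3 = true := ex3_b k22_A00mm_202_s3 k23_A00mm_202_s3

theorem t107_A00mm_202_s3 : ∃ t, chk3 f_A00mm_202_s3 t 15 65 3 = true := ex3_a t106_A00mm_202_s3 t105_A00mm_202_s3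

theorem t108_A00mm_202_s3 : ∃ t, chk3 f_A00mm_202_s3 t 7 65 3 = true := ex3_a k21_A00mm_202_s3 t107_A00mm_202_s3

theorem t109_A00mm_202_s3 : ∃ t, chk3 f_A00mm_202_s3 t 126 131 2 = true := ex3_b k18_A00mm_202_s3 k19_A00mm_202_s3

theorem t110_A00mm_202_s3 : ∃ t, chk3 f_A00mm_202_s3 t 126 65 2 = true := ex3_b k17_A00mm_202_s3 t109_A00mm_202_s3

theorem t111_A00mm_202_s3 : ∃ t, chk3 f_A00mm_202_s3 t 63 65 2 = true := ex3_a t110_A00mm_202_s3 k20_A00mm_202_s3

theorem t112_A00mm_202_s3 : ∃ t, chk3 f_A00mm_202_s3 t 62 65 2 = true := ex3_b k15_A00mm_202_s3 k16_A00mm_202_s3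

theorem t113_A00mm_202_s3 : ∃ t, chk3 f_A00mm_202_s3 t 31 65 2 = true := ex3_a t112_A00mm_202_s3 t111_A00mm_202_s3

theorem t114_A00mm_202_s3 : ∃ t, chk3 f_A00mm_202_s3 t 30 65 2 = true := ex3_b k13_A00mm_202_s3 k14_A00mm_202_s3

theorem t115_A00mm_202_s3 : ∃ t, chk3 f_A00mm_202_s3 t 15 65 2 = true := ex3_a t114_A00mm_202_s3 t113_A00mm_202_s3

theorem t116_A00mm_202_s3 : ∃ t, chk3 f_A00mm_202_s3 t 7 65 2 = true := ex3_a k12_A00mm_202_s3 t115_A00mm_202_s3

theorem t117_A00mm_202_s3 : ∃ t, chk3 f_A00mm_202_s3 t 7 65 1 = true := ex3_c t116_A00mm_202_s3 t108_A00mm_202_s3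

theorem t118_A00mm_202_s3 : ∃ t, chk3 f_A00mm_202_s3 t 30 64 3 = true := ex3_b k9_A00mm_202_s3 k10_A00mm_202_s3

theorem t119_A00mm_202_s3 : ∃ t, chk3 f_A00mm_202_s3 t 15 64 3 = true := ex3_a t118_A00mm_202_s3 k11_A00mm_202_s3

theorem t120_A00mm_202_s3 : ∃ t, chk3 f_A00mm_202_s3 t 7 64 3 = true := ex3_a k8_A00mm_202_s3 t119_A00mm_202_s3

theorem t121_A00mm_202_s3 : ∃ t, chk3 f_A00mm_202_s3 t 30 64 2 = true := ex3_a k5_A00mm_202_s3 k6_A00mm_202_s3

theorem t122_A00mm_202_s3 : ∃ t, chk3 f_A00mm_202_s3 t 15 64 2 = true := ex3_a t121_A00mm_202_s3 k7_A00mm_202_s3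

theorem t123_A00mm_202_s3 : ∃ t, chk3 f_A00mm_202_s3 t 7 64 2 = true := ex3_a k4_A00mm_202_s3 t122_A00mm_202_s3

theorem t124_A00mm_202_s3 : ∃ t, chk3 f_A00mm_202_s3 t 7 64 1 = true := ex3_c t123_A00mm_202_s3 t120_A00mm_202_s3

theorem t125_A00mm_202_s3 : ∃ t, chk3 f_A00mm_202_s3 t 7 32 1 = true := ex3_b t124_A00mm_202_s3 t117_A00mm_202_s3

theorem t126_A00mm_202_s3 : ∃ t, chk3 f_A00mm_202_s3 t 7 16 1 = true := ex3_b t125_A00mm_202_s3 t99_A00mm_202_s3

theorem t127_A00mm_202_s3 : ∃ t, chk3 f_A00mm_202_s3 t 7 8 1 = true := ex3_b t126_A00mm_202_s3 t87_A00mm_202_s3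

theorem t128_A00mm_202_s3 : ∃ t, chk3 f_A00mm_202_s3 t 7 4 1 = true := ex3_b t127_A00mm_202_s3 t78_A00mm_202_s3

theorem t129_A00mm_202_s3 : ∃ t, chk3 f_A00mm_202_s3 t 6 9 1 = true := ex3_a k2_A00mm_202_s3 k3_A00mm_202_s3

theorem t130_A00mm_202_s3 : ∃ t, chk3 f_A00mm_202_s3 t 6 4 1 = true := ex3_b k1_A00mm_202_s3 t129_A00mm_202_s3

theorem t131_A00mm_202_s3 : ∃ t, chk3 f_A00mm_202_s3 t 3 4 1 = true := ex3_a t130_A00mm_202_s3 t128_A00mm_202_s3

theorem t132_A00mm_202_s3 : ∃ t, chk3 f_A00mm_202_s3 t 3 2 1 = true := ex3_b t131_A00mm_202_s3 t71_A00mm_202_s3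

theorem t133_A00mm_202_s3 : ∃ t, chk3 f_A00mm_202_s3 t 1 2 1 = true := ex3_a k0_A00mm_202_s3 t132_A00mm_202_s3

theorem t134_A00mm_202_s3 : ∃ t, chk3 f_A00mm_202_s3 t 1 1 1 = true := ex3_b t133_A00mm_202_s3 t69_A00mm_202_s3

theorem c_A00mm_202_s3 : CertF 0 536870912 0 536870912 1033476505 6710887 true false false .pp 2 0 2
    ndB0q2 ndB0q0 pcB2 cut_A00mm_202_s3 xt_A00mm_202_s3 :=
  certF0 (fam := true) (s1 := false) (s2 := false) (a := 2) (b := 0) (c := 2) (cn := .pp) (n1 := ndB0q2) (n2 := ndB0q0) (pc := pcB2) (cut := cut_A00mm_202_s3) (xt := xt_A00mm_202_s3) (P1 := 0) (W1 := 536870912) (P2 := 0) (W2 := 536870912) (P3 := 1033476505) (W3 := 6710887)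
    rfl t134_A00mm_202_s3

theorem s_A00mm_202_s3 {κ x : ℝ} (hκ : κ * h0 = ken x) (hx : ((1033476505 : ℕ) : ℝ) / S ≤ x)
    (hx' : x ≤ (((1033476505 : ℕ) : ℝ) + (6710887 : ℕ)) / S)
    (H : CutA (VFD κ) PP tK tL pcB (Cut.of [[⟨0, 1, 0, 22369621⟩, ⟨1, 0, 0, 22369621⟩, ⟨2, 1, 0, 22369621⟩]]) 2 0 2 0 0 (sgb false) (sgb false) x) :
    AltA (VFD κ) PP tK tL pcB [⟨4, 0, 0, 2845415833⟩] 2 0 2 0 0 (sgb false) (sgb false) x :=
  strip_altAD (m := 2845415833) false rfl hκ (SH.κ0 hκ (SH.hx1 hx).le (SH.hx2 hx').le) (SH.hx1 hx).le (SH.hx2 hx') (covB02).cov (covB00).cov hx hx' c_A00mm_202_s3 H ((okx hx hx').extA (T := tt) (sideB hx hx') hκ rfl rfl (.O 2 false) (.O 0 false) (Or.inl rfl))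

noncomputable def cut_A00pp_001_s1 : Cut := Cut.of [[⟨4, 0, 0, 1449551462⟩]]

noncomputable def f_A00pp_001_s1 : ℕ → ℕ → ℕ → ℕ → Bool := onCell 0 536870912 0 536870912 1033476505 6710887
    (rowF 0 true true true .up 0 0 1 (qsf 0 536870912 0 536870912 1) ndB0q0 ndB0q0 pcB1 cut_A00pp_001_s1 Ext.none)

def k0_A00pp_001_s1 : ∃ t, chk3 f_A00pp_001_s1 t 1 1 1 = true :=
  ⟨(l 4), by decide +kernel⟩

theorem c_A00pp_001_s1 : CertF 0 536870912 0 536870912 1033476505 6710887 true true true .up 0 0 1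
    ndB0q0 ndB0q0 pcB1 cut_A00pp_001_s1 Ext.none :=
  certF0 (fam := true) (s1 := true) (s2 := true) (a := 0) (b := 0) (c := 1) (cn := .up) (n1 := ndB0q0) (n2 := ndB0q0) (pc := pcB1) (cut := cut_A00pp_001_s1) (xt := Ext.none) (P1 := 0) (W1 := 536870912) (P2 := 0) (W2 := 536870912) (P3 := 1033476505) (W3 := 6710887)
    rfl k0_A00pp_001_s1

theorem s_A00pp_001_s1 {κ x : ℝ} (hκ : κ * h0 = ken x) (hx : ((1033476505 : ℕ) : ℝ) / S ≤ x)
    (hx' : x ≤ (((1033476505 : ℕ) : ℝ) + (6710887 : ℕ)) / S) :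
    AltA (VFD κ) PP tK tL pcB [⟨3, 0, 0, 1449551462⟩] 0 0 1 0 0 (sgb true) (sgb true) x :=
  strip_altAD (m := 1449551462) true rfl hκ (SH.κ0 hκ (SH.hx1 hx).le (SH.hx2 hx').le) (SH.hx1 hx).le (SH.hx2 hx') (covB00).cov (covB00).cov hx hx' c_A00pp_001_s1 cutA_nil (noExt_A)

noncomputable def cut_A00pp_001_s3 : Cut := Cut.of [[⟨3, 0, 0, 2845415833⟩]]

noncomputable def f_A00pp_001_s3 : ℕ → ℕ → ℕ → ℕ → Bool := onCell 0 536870912 0 536870912 1033476505 6710887
    (rowF 0 true true true .up 0 0 1 (qsf 0 536870912 0 536870912 1) ndB0q0 ndB0q0 pcB1 cut_A00pp_001_s3 Ext.none)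

def k0_A00pp_001_s3 : ∃ t, chk3 f_A00pp_001_s3 t 1 1 1 = true :=
  ⟨(l 4), by decide +kernel⟩

theorem c_A00pp_001_s3 : CertF 0 536870912 0 536870912 1033476505 6710887 true true true .up 0 0 1
    ndB0q0 ndB0q0 pcB1 cut_A00pp_001_s3 Ext.none :=
  certF0 (fam := true) (s1 := true) (s2 := true) (a := 0) (b := 0) (c := 1) (cn := .up) (n1 := ndB0q0) (n2 := ndB0q0) (pc := pcB1) (cut := cut_A00pp_001_s3) (xt := Ext.none) (P1 := 0) (W1 := 536870912) (P2 := 0) (W2 := 536870912) (P3 := 1033476505) (W3 := 6710887)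
    rfl k0_A00pp_001_s3

theorem s_A00pp_001_s3 {κ x : ℝ} (hκ : κ * h0 = ken x) (hx : ((1033476505 : ℕ) : ℝ) / S ≤ x)
    (hx' : x ≤ (((1033476505 : ℕ) : ℝ) + (6710887 : ℕ)) / S) :
    AltA (VFD κ) PP tK tL pcB [⟨4, 0, 0, 2845415833⟩] 0 0 1 0 0 (sgb true) (sgb true) x :=
  strip_altAD (m := 2845415833) false rfl hκ (SH.κ0 hκ (SH.hx1 hx).le (SH.hx2 hx').le) (SH.hx1 hx).le (SH.hx2 hx') (covB00).cov (covB00).cov hx hx' c_A00pp_001_s3 cutA_nil (noExt_A)

noncomputable def cut_A00pp_011_s1 : Cut := Cut.of [[⟨4, 0, 0, 1449551462⟩], [⟨0, 0, 0, 33554432⟩, ⟨1, 1, 0, 33554432⟩, ⟨2, 1, 0, 33554432⟩]]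

noncomputable def f_A00pp_011_s1 : ℕ → ℕ → ℕ → ℕ → Bool := onCell 0 536870912 536870912 536870912 1033476505 6710887
    (rowF 0 true true true .pnn 0 1 1 (qsf 0 536870912 536870912 536870912 1) ndB0q0 ndB0q1 pcB1 cut_A00pp_011_s1 Ext.none)

def k0_A00pp_011_s1 : ∃ t, chk3 f_A00pp_011_s1 t 1 1 1 = true :=
  ⟨(l 6), by decide +kernel⟩

theorem c_A00pp_011_s1 : CertF 0 536870912 536870912 536870912 1033476505 6710887 true true true .pnn 0 1 1
    ndB0q0 ndB0q1 pcB1 cut_A00pp_011_s1 Ext.none :=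
  certF0 (fam := true) (s1 := true) (s2 := true) (a := 0) (b := 1) (c := 1) (cn := .pnn) (n1 := ndB0q0) (n2 := ndB0q1) (pc := pcB1) (cut := cut_A00pp_011_s1) (xt := Ext.none) (P1 := 0) (W1 := 536870912) (P2 := 536870912) (W2 := 536870912) (P3 := 1033476505) (W3 := 6710887)
    rfl k0_A00pp_011_s1

theorem s_A00pp_011_s1 {κ x : ℝ} (hκ : κ * h0 = ken x) (hx : ((1033476505 : ℕ) : ℝ) / S ≤ x)
    (hx' : x ≤ (((1033476505 : ℕ) : ℝ) + (6710887 : ℕ)) / S)
    (H : CutA (VFD κ) PP tK tL pcB (Cut.of [[⟨0, 0, 0, 33554432⟩, ⟨1, 1, 0, 33554432⟩, ⟨2, 1, 0, 33554432⟩]]) 0 1 1 0 0 (sgb true) (sgb true) x) :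
    AltA (VFD κ) PP tK tL pcB [⟨3, 0, 0, 1449551462⟩] 0 1 1 0 0 (sgb true) (sgb true) x :=
  strip_altAD (m := 1449551462) true rfl hκ (SH.κ0 hκ (SH.hx1 hx).le (SH.hx2 hx').le) (SH.hx1 hx).le (SH.hx2 hx') (covB00).cov (covB01).cov hx hx' c_A00pp_011_s1 H (noExt_A)

noncomputable def cut_A00pp_011_s3 : Cut := Cut.of [[⟨3, 0, 0, 2845415833⟩], [⟨0, 0, 0, 33554432⟩, ⟨1, 1, 0, 33554432⟩, ⟨2, 1, 0, 33554432⟩]]

noncomputable def f_A00pp_011_s3 : ℕ → ℕ → ℕ → ℕ → Bool := onCell 0 536870912 536870912 536870912 1033476505 6710887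
    (rowF 0 true true true .pnn 0 1 1 (qsf 0 536870912 536870912 536870912 1) ndB0q0 ndB0q1 pcB1 cut_A00pp_011_s3 Ext.none)

def k0_A00pp_011_s3 : ∃ t, chk3 f_A00pp_011_s3 t 1 1 1 = true :=
  ⟨(b (l 4) (a (b (l 4) (a (b (l 4) (a (b (l 4) (a (a (b (l 4) (l 14)) (l 4)) (l 4))) (l 4))) (l 4))) (l 4))), by decide +kernel⟩

theorem c_A00pp_011_s3 : CertF 0 536870912 536870912 536870912 1033476505 6710887 true true true .pnn 0 1 1
    ndB0q0 ndB0q1 pcB1 cut_A00pp_011_s3 Ext.none :=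
  certF0 (fam := true) (s1 := true) (s2 := true) (a := 0) (b := 1) (c := 1) (cn := .pnn) (n1 := ndB0q0) (n2 := ndB0q1) (pc := pcB1) (cut := cut_A00pp_011_s3) (xt := Ext.none) (P1 := 0) (W1 := 536870912) (P2 := 536870912) (W2 := 536870912) (P3 := 1033476505) (W3 := 6710887)
    rfl k0_A00pp_011_s3

theorem s_A00pp_011_s3 {κ x : ℝ} (hκ : κ * h0 = ken x) (hx : ((1033476505 : ℕ) : ℝ) / S ≤ x)
    (hx' : x ≤ (((1033476505 : ℕ) : ℝ) + (6710887 : ℕ)) / S)
    (H : CutA (VFD κ) PP tK tL pcB (Cut.of [[⟨0, 0, 0, 33554432⟩, ⟨1, 1, 0, 33554432⟩, ⟨2, 1, 0, 33554432⟩]]) 0 1 1 0 0 (sgb true) (sgb true) x) :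
    AltA (VFD κ) PP tK tL pcB [⟨4, 0, 0, 2845415833⟩] 0 1 1 0 0 (sgb true) (sgb true) x :=
  strip_altAD (m := 2845415833) false rfl hκ (SH.κ0 hκ (SH.hx1 hx).le (SH.hx2 hx').le) (SH.hx1 hx).le (SH.hx2 hx') (covB00).cov (covB01).cov hx hx' c_A00pp_011_s3 H (noExt_A)

noncomputable def cut_A00pp_012_s1 : Cut := Cut.of [[⟨4, 0, 0, 1449551462⟩], [⟨0, 0, 0, 33554432⟩, ⟨1, 1, 0, 33554432⟩, ⟨2, 1, 0, 33554432⟩]]

noncomputable def f_A00pp_012_s1 : ℕ → ℕ → ℕ → ℕ → Bool := onCell 0 536870912 536870912 536870912 1033476505 6710887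
    (rowF 0 true true true .pnp 0 1 2 (qsf 0 536870912 536870912 536870912 2) ndB0q0 ndB0q1 pcB2 cut_A00pp_012_s1 Ext.none)

def k0_A00pp_012_s1 : ∃ t, chk3 f_A00pp_012_s1 t 1 1 1 = true :=
  ⟨(l 6), by decide +kernel⟩

theorem c_A00pp_012_s1 : CertF 0 536870912 536870912 536870912 1033476505 6710887 true true true .pnp 0 1 2
    ndB0q0 ndB0q1 pcB2 cut_A00pp_012_s1 Ext.none :=
  certF0 (fam := true) (s1 := true) (s2 := true) (a := 0) (b := 1) (c := 2) (cn := .pnp) (n1 := ndB0q0) (n2 := ndB0q1) (pc := pcB2) (cut := cut_A00pp_012_s1) (xt := Ext.none) (P1 := 0) (W1 := 536870912) (P2 := 536870912) (W2 := 536870912) (P3 := 1033476505) (W3 := 6710887)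
    rfl k0_A00pp_012_s1

theorem s_A00pp_012_s1 {κ x : ℝ} (hκ : κ * h0 = ken x) (hx : ((1033476505 : ℕ) : ℝ) / S ≤ x)
    (hx' : x ≤ (((1033476505 : ℕ) : ℝ) + (6710887 : ℕ)) / S)
    (H : CutA (VFD κ) PP tK tL pcB (Cut.of [[⟨0, 0, 0, 33554432⟩, ⟨1, 1, 0, 33554432⟩, ⟨2, 1, 0, 33554432⟩]]) 0 1 2 0 0 (sgb true) (sgb true) x) :
    AltA (VFD κ) PP tK tL pcB [⟨3, 0, 0, 1449551462⟩] 0 1 2 0 0 (sgb true) (sgb true) x :=
  strip_altAD (m := 1449551462) true rfl hκ (SH.κ0 hκ (SH.hx1 hx).le (SH.hx2 hx').le) (SH.hx1 hx).le (SH.hx2 hx') (covB00).cov (covB01).cov hx hx' c_A00pp_012_s1 H (noExt_A)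

noncomputable def cut_A00pp_012_s3 : Cut := Cut.of [[⟨3, 0, 0, 2845415833⟩], [⟨0, 0, 0, 33554432⟩, ⟨1, 1, 0, 33554432⟩, ⟨2, 1, 0, 33554432⟩]]

noncomputable def f_A00pp_012_s3 : ℕ → ℕ → ℕ → ℕ → Bool := onCell 0 536870912 536870912 536870912 1033476505 6710887
    (rowF 0 true true true .pnp 0 1 2 (qsf 0 536870912 536870912 536870912 2) ndB0q0 ndB0q1 pcB2 cut_A00pp_012_s3 Ext.none)

def k0_A00pp_012_s3 : ∃ t, chk3 f_A00pp_012_s3 t 1 1 1 = true :=
  ⟨(b (l 4) (a (b (l 4) (a (b (l 4) (a (a (a (b (l 1) (b (l 4) (l 14))) (l 4)) (l 4)) (l 4))) (l 4))) (l 4))), by decide +kernel⟩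

theorem c_A00pp_012_s3 : CertF 0 536870912 536870912 536870912 1033476505 6710887 true true true .pnp 0 1 2
    ndB0q0 ndB0q1 pcB2 cut_A00pp_012_s3 Ext.none :=
  certF0 (fam := true) (s1 := true) (s2 := true) (a := 0) (b := 1) (c := 2) (cn := .pnp) (n1 := ndB0q0) (n2 := ndB0q1) (pc := pcB2) (cut := cut_A00pp_012_s3) (xt := Ext.none) (P1 := 0) (W1 := 536870912) (P2 := 536870912) (W2 := 536870912) (P3 := 1033476505) (W3 := 6710887)
    rfl k0_A00pp_012_s3

theorem s_A00pp_012_s3 {κ x : ℝ} (hκ : κ * h0 = ken x) (hx : ((1033476505 : ℕ) : ℝ) / S ≤ x)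
    (hx' : x ≤ (((1033476505 : ℕ) : ℝ) + (6710887 : ℕ)) / S)
    (H : CutA (VFD κ) PP tK tL pcB (Cut.of [[⟨0, 0, 0, 33554432⟩, ⟨1, 1, 0, 33554432⟩, ⟨2, 1, 0, 33554432⟩]]) 0 1 2 0 0 (sgb true) (sgb true) x) :
    AltA (VFD κ) PP tK tL pcB [⟨4, 0, 0, 2845415833⟩] 0 1 2 0 0 (sgb true) (sgb true) x :=
  strip_altAD (m := 2845415833) false rfl hκ (SH.κ0 hκ (SH.hx1 hx).le (SH.hx2 hx').le) (SH.hx1 hx).le (SH.hx2 hx') (covB00).cov (covB01).cov hx hx' c_A00pp_012_s3 H (noExt_A)

noncomputable def cut_A00pp_022_s1 : Cut := Cut.of [[⟨4, 0, 0, 1449551462⟩], [⟨0, 0, 0, 22369621⟩, ⟨1, 1, 0, 22369621⟩, ⟨2, 1, 0, 22369621⟩]]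

noncomputable def f_A00pp_022_s1 : ℕ → ℕ → ℕ → ℕ → Bool := onCell 0 536870912 0 536870912 1033476505 6710887
    (rowF 0 true true true .pp 0 2 2 (qsf 0 536870912 0 536870912 2) ndB0q0 ndB0q2 pcB2 cut_A00pp_022_s1 Ext.none)

def k0_A00pp_022_s1 : ∃ t, chk3 f_A00pp_022_s1 t 1 1 1 = true :=
  ⟨(l 6), by decide +kernel⟩

theorem c_A00pp_022_s1 : CertF 0 536870912 0 536870912 1033476505 6710887 true true true .pp 0 2 2
    ndB0q0 ndB0q2 pcB2 cut_A00pp_022_s1 Ext.none :=
  certF0 (fam := true) (s1 := true) (s2 := true) (a := 0) (b := 2) (c := 2) (cn := .pp) (n1 := ndB0q0) (n2 := ndB0q2) (pc := pcB2) (cut := cut_A00pp_022_s1) (xt := Ext.none) (P1 := 0) (W1 := 536870912) (P2 := 0) (W2 := 536870912) (P3 := 1033476505) (W3 := 6710887)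
    rfl k0_A00pp_022_s1

theorem s_A00pp_022_s1 {κ x : ℝ} (hκ : κ * h0 = ken x) (hx : ((1033476505 : ℕ) : ℝ) / S ≤ x)
    (hx' : x ≤ (((1033476505 : ℕ) : ℝ) + (6710887 : ℕ)) / S)
    (H : CutA (VFD κ) PP tK tL pcB (Cut.of [[⟨0, 0, 0, 22369621⟩, ⟨1, 1, 0, 22369621⟩, ⟨2, 1, 0, 22369621⟩]]) 0 2 2 0 0 (sgb true) (sgb true) x) :
    AltA (VFD κ) PP tK tL pcB [⟨3, 0, 0, 1449551462⟩] 0 2 2 0 0 (sgb true) (sgb true) x :=
  strip_altAD (m := 1449551462) true rfl hκ (SH.κ0 hκ (SH.hx1 hx).le (SH.hx2 hx').le) (SH.hx1 hx).le (SH.hx2 hx') (covB00).cov (covB02).cov hx hx' c_A00pp_022_s1 H (noExt_A)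

noncomputable def cut_A00pp_023_s1 : Cut := Cut.of [[⟨4, 0, 0, 1449551462⟩]]

noncomputable def f_A00pp_023_s1 : ℕ → ℕ → ℕ → ℕ → Bool := onCell 0 536870912 0 536870912 1033476505 6710887
    (rowF 0 true true true .up 0 2 3 (qsf 0 536870912 0 536870912 3) ndB0q0 ndB0q2 pcB3 cut_A00pp_023_s1 Ext.none)

def k0_A00pp_023_s1 : ∃ t, chk3 f_A00pp_023_s1 t 1 1 1 = true :=
  ⟨(l 6), by decide +kernel⟩

theorem c_A00pp_023_s1 : CertF 0 536870912 0 536870912 1033476505 6710887 true true true .up 0 2 3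
    ndB0q0 ndB0q2 pcB3 cut_A00pp_023_s1 Ext.none :=
  certF0 (fam := true) (s1 := true) (s2 := true) (a := 0) (b := 2) (c := 3) (cn := .up) (n1 := ndB0q0) (n2 := ndB0q2) (pc := pcB3) (cut := cut_A00pp_023_s1) (xt := Ext.none) (P1 := 0) (W1 := 536870912) (P2 := 0) (W2 := 536870912) (P3 := 1033476505) (W3 := 6710887)
    rfl k0_A00pp_023_s1

theorem s_A00pp_023_s1 {κ x : ℝ} (hκ : κ * h0 = ken x) (hx : ((1033476505 : ℕ) : ℝ) / S ≤ x)
    (hx' : x ≤ (((1033476505 : ℕ) : ℝ) + (6710887 : ℕ)) / S) :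
    AltA (VFD κ) PP tK tL pcB [⟨3, 0, 0, 1449551462⟩] 0 2 3 0 0 (sgb true) (sgb true) x :=
  strip_altAD (m := 1449551462) true rfl hκ (SH.κ0 hκ (SH.hx1 hx).le (SH.hx2 hx').le) (SH.hx1 hx).le (SH.hx2 hx') (covB00).cov (covB02).cov hx hx' c_A00pp_023_s1 cutA_nil (noExt_A)

noncomputable def cut_A00pp_023_s3 : Cut := Cut.of [[⟨3, 0, 0, 2845415833⟩]]

noncomputable def xt_A00pp_023_s3 : Ext := strExt dd true true true .u0 .u2 .s2 .up 0 2 3 rfl rfl gl3 vv ndB0q0 ndB0q2

noncomputable def f_A00pp_023_s3 : ℕ → ℕ → ℕ → ℕ → Bool := onCell 0 536870912 0 536870912 1033476505 6710887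
    (rowF 0 true true true .up 0 2 3 (qsf 0 536870912 0 536870912 3) ndB0q0 ndB0q2 pcB3 cut_A00pp_023_s3 xt_A00pp_023_s3)

def k0_A00pp_023_s3 : ∃ t, chk3 f_A00pp_023_s3 t 1 1 1 = true :=
  ⟨(a (l 1) (b (a (a (l 1) (a (b (b (l 1) (l 1)) (l 1)) (a (b (b (b (b (a (l 6) (l 15163720)) (a (l 15246648) (l 15303504))) (b (l 511054095) (l 511246095))) (b (b (l 511447823) (l 511667215)) (a (l 512061455) (l 512028943)))) (b (b (l 512512015) (l 512894223)) (l 1))) (b (b (b (b (l 510667535) (l 15390696)) (b (l 15526728) (l 511223567))) (b (l 511520271) (l 512008975))) (b (b (l 512476687) (l 512854543)) (b (b (l 513076751) (l 513189903)) (l 4))))))) (b (a (b (a (a (b (l 510809103) (l 511168271)) (b (l 510922767) (l 511269903))) (a (b (l 511096335) (l 511429135)) (b (l 511329039) (l 511645455)))) (a (b (a (l 511548687) (l 511632911)) (a (l 512033295) (l 512112399))) (b (a (l 511769615) (l 511956751)) (a (l 512241167) (l 512418831))))) (a (b (a (b (l 511622415)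 (l 511921679)) (b (l 511979279) (l 512267279))) (b (a (l 512195087) (l 512521487)) (a (l 512632079) (b (l 512641551) (l 513013519))))) (b (a (b (l 512414991) (l 512697871)) (l 513846031)) (b (a (l 512908559) (l 513384719)) (a (b (l 513037327) (l 4)) (l 4)))))) (a (b (a (a (b (l 512501775) (l 512876815)) (b (l 512582927) (l 512956687))) (a (b (l 512715023) (l 513089807)) (l 513346319))) (a (b (a (l 513148943) (l 4)) (l 4)) (l 4))) (a (b (b (l 513233679) (l 4)) (l 4)) (l 4))))) (b (a (l 1) (l 4)) (l 4)))), by decide +kernel⟩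

theorem c_A00pp_023_s3 : CertF 0 536870912 0 536870912 1033476505 6710887 true true true .up 0 2 3
    ndB0q0 ndB0q2 pcB3 cut_A00pp_023_s3 xt_A00pp_023_s3 :=
  certF0 (fam := true) (s1 := true) (s2 := true) (a := 0) (b := 2) (c := 3) (cn := .up) (n1 := ndB0q0) (n2 := ndB0q2) (pc := pcB3) (cut := cut_A00pp_023_s3) (xt := xt_A00pp_023_s3) (P1 := 0) (W1 := 536870912) (P2 := 0) (W2 := 536870912) (P3 := 1033476505) (W3 := 6710887)
    rfl k0_A00pp_023_s3

theorem s_A00pp_023_s3 {κ x : ℝ} (hκ : κ * h0 = ken x) (hx : ((1033476505 : ℕ) : ℝ) / S ≤ x)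
    (hx' : x ≤ (((1033476505 : ℕ) : ℝ) + (6710887 : ℕ)) / S) :
    AltA (VFD κ) PP tK tL pcB [⟨4, 0, 0, 2845415833⟩] 0 2 3 0 0 (sgb true) (sgb true) x :=
  strip_altAD (m := 2845415833) false rfl hκ (SH.κ0 hκ (SH.hx1 hx).le (SH.hx2 hx').le) (SH.hx1 hx).le (SH.hx2 hx') (covB00).cov (covB02).cov hx hx' c_A00pp_023_s3 cutA_nil ((okx hx hx').extA (T := tt) (sideB hx hx') hκ rfl rfl (.O 0 true) (.O 2 true) (Or.inr rfl))

noncomputable def cut_A00pp_101_s1 : Cut := Cut.of [[⟨4, 0, 0, 1449551462⟩]]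

noncomputable def f_A00pp_101_s1 : ℕ → ℕ → ℕ → ℕ → Bool := onCell 536870912 536870912 0 536870912 1033476505 6710887
    (rowF 0 true true true .npn 1 0 1 (qsf 536870912 536870912 0 536870912 1) ndB0q1 ndB0q0 pcB1 cut_A00pp_101_s1 Ext.none)

def k0_A00pp_101_s1 : ∃ t, chk3 f_A00pp_101_s1 t 1 1 1 = true :=
  ⟨(l 6), by decide +kernel⟩

theorem c_A00pp_101_s1 : CertF 536870912 536870912 0 536870912 1033476505 6710887 true true true .npn 1 0 1
    ndB0q1 ndB0q0 pcB1 cut_A00pp_101_s1 Ext.none :=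
  certF0 (fam := true) (s1 := true) (s2 := true) (a := 1) (b := 0) (c := 1) (cn := .npn) (n1 := ndB0q1) (n2 := ndB0q0) (pc := pcB1) (cut := cut_A00pp_101_s1) (xt := Ext.none) (P1 := 536870912) (W1 := 536870912) (P2 := 0) (W2 := 536870912) (P3 := 1033476505) (W3 := 6710887)
    rfl k0_A00pp_101_s1

theorem s_A00pp_101_s1 {κ x : ℝ} (hκ : κ * h0 = ken x) (hx : ((1033476505 : ℕ) : ℝ) / S ≤ x)
    (hx' : x ≤ (((1033476505 : ℕ) : ℝ) + (6710887 : ℕ)) / S) :
    AltA (VFD κ) PP tK tL pcB [⟨3, 0, 0, 1449551462⟩] 1 0 1 0 0 (sgb true) (sgb true) x :=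
  strip_altAD (m := 1449551462) true rfl hκ (SH.κ0 hκ (SH.hx1 hx).le (SH.hx2 hx').le) (SH.hx1 hx).le (SH.hx2 hx') (covB01).cov (covB00).cov hx hx' c_A00pp_101_s1 cutA_nil (noExt_A)

noncomputable def cut_A00pp_101_s3 : Cut := Cut.of [[⟨3, 0, 0, 2845415833⟩]]

noncomputable def f_A00pp_101_s3 : ℕ → ℕ → ℕ → ℕ → Bool := onCell 536870912 536870912 0 536870912 1033476505 6710887
    (rowF 0 true true true .npn 1 0 1 (qsf 536870912 536870912 0 536870912 1) ndB0q1 ndB0q0 pcB1 cut_A00pp_101_s3 Ext.none)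

def k0_A00pp_101_s3 : ∃ t, chk3 f_A00pp_101_s3 t 1 1 1 = true :=
  ⟨(a (l 4) (l 5)), by decide +kernel⟩

theorem c_A00pp_101_s3 : CertF 536870912 536870912 0 536870912 1033476505 6710887 true true true .npn 1 0 1
    ndB0q1 ndB0q0 pcB1 cut_A00pp_101_s3 Ext.none :=
  certF0 (fam := true) (s1 := true) (s2 := true) (a := 1) (b := 0) (c := 1) (cn := .npn) (n1 := ndB0q1) (n2 := ndB0q0) (pc := pcB1) (cut := cut_A00pp_101_s3) (xt := Ext.none) (P1 := 536870912) (W1 := 536870912) (P2 := 0) (W2 := 536870912) (P3 := 1033476505) (W3 := 6710887)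
    rfl k0_A00pp_101_s3

theorem s_A00pp_101_s3 {κ x : ℝ} (hκ : κ * h0 = ken x) (hx : ((1033476505 : ℕ) : ℝ) / S ≤ x)
    (hx' : x ≤ (((1033476505 : ℕ) : ℝ) + (6710887 : ℕ)) / S) :
    AltA (VFD κ) PP tK tL pcB [⟨4, 0, 0, 2845415833⟩] 1 0 1 0 0 (sgb true) (sgb true) x :=
  strip_altAD (m := 2845415833) false rfl hκ (SH.κ0 hκ (SH.hx1 hx).le (SH.hx2 hx').le) (SH.hx1 hx).le (SH.hx2 hx') (covB01).cov (covB00).cov hx hx' c_A00pp_101_s3 cutA_nil (noExt_A)

noncomputable def cut_A00pp_102_s1 : Cut := Cut.of [[⟨4, 0, 0, 1449551462⟩]]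

noncomputable def f_A00pp_102_s1 : ℕ → ℕ → ℕ → ℕ → Bool := onCell 536870912 536870912 0 536870912 1033476505 6710887
    (rowF 0 true true true .npp 1 0 2 (qsf 536870912 536870912 0 536870912 2) ndB0q1 ndB0q0 pcB2 cut_A00pp_102_s1 Ext.none)

def k0_A00pp_102_s1 : ∃ t, chk3 f_A00pp_102_s1 t 1 1 1 = true :=
  ⟨(l 6), by decide +kernel⟩

theorem c_A00pp_102_s1 : CertF 536870912 536870912 0 536870912 1033476505 6710887 true true true .npp 1 0 2
    ndB0q1 ndB0q0 pcB2 cut_A00pp_102_s1 Ext.none :=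
  certF0 (fam := true) (s1 := true) (s2 := true) (a := 1) (b := 0) (c := 2) (cn := .npp) (n1 := ndB0q1) (n2 := ndB0q0) (pc := pcB2) (cut := cut_A00pp_102_s1) (xt := Ext.none) (P1 := 536870912) (W1 := 536870912) (P2 := 0) (W2 := 536870912) (P3 := 1033476505) (W3 := 6710887)
    rfl k0_A00pp_102_s1

theorem s_A00pp_102_s1 {κ x : ℝ} (hκ : κ * h0 = ken x) (hx : ((1033476505 : ℕ) : ℝ) / S ≤ x)
    (hx' : x ≤ (((1033476505 : ℕ) : ℝ) + (6710887 : ℕ)) / S) :
    AltA (VFD κ) PP tK tL pcB [⟨3, 0, 0, 1449551462⟩] 1 0 2 0 0 (sgb true) (sgb true) x :=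
  strip_altAD (m := 1449551462) true rfl hκ (SH.κ0 hκ (SH.hx1 hx).le (SH.hx2 hx').le) (SH.hx1 hx).le (SH.hx2 hx') (covB01).cov (covB00).cov hx hx' c_A00pp_102_s1 cutA_nil (noExt_A)

noncomputable def cut_A00pp_102_s3 : Cut := Cut.of [[⟨3, 0, 0, 2845415833⟩]]

noncomputable def f_A00pp_102_s3 : ℕ → ℕ → ℕ → ℕ → Bool := onCell 536870912 536870912 0 536870912 1033476505 6710887
    (rowF 0 true true true .npp 1 0 2 (qsf 536870912 536870912 0 536870912 2) ndB0q1 ndB0q0 pcB2 cut_A00pp_102_s3 Ext.none)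

def k0_A00pp_102_s3 : ∃ t, chk3 f_A00pp_102_s3 t 1 1 1 = true :=
  ⟨(a (l 4) (l 5)), by decide +kernel⟩

theorem c_A00pp_102_s3 : CertF 536870912 536870912 0 536870912 1033476505 6710887 true true true .npp 1 0 2
    ndB0q1 ndB0q0 pcB2 cut_A00pp_102_s3 Ext.none :=
  certF0 (fam := true) (s1 := true) (s2 := true) (a := 1) (b := 0) (c := 2) (cn := .npp) (n1 := ndB0q1) (n2 := ndB0q0) (pc := pcB2) (cut := cut_A00pp_102_s3) (xt := Ext.none) (P1 := 536870912) (W1 := 536870912) (P2 := 0) (W2 := 536870912) (P3 := 1033476505) (W3 := 6710887)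
    rfl k0_A00pp_102_s3

theorem s_A00pp_102_s3 {κ x : ℝ} (hκ : κ * h0 = ken x) (hx : ((1033476505 : ℕ) : ℝ) / S ≤ x)
    (hx' : x ≤ (((1033476505 : ℕ) : ℝ) + (6710887 : ℕ)) / S) :
    AltA (VFD κ) PP tK tL pcB [⟨4, 0, 0, 2845415833⟩] 1 0 2 0 0 (sgb true) (sgb true) x :=
  strip_altAD (m := 2845415833) false rfl hκ (SH.κ0 hκ (SH.hx1 hx).le (SH.hx2 hx').le) (SH.hx1 hx).le (SH.hx2 hx') (covB01).cov (covB00).cov hx hx' c_A00pp_102_s3 cutA_nil (noExt_A)

noncomputable def cut_A00pp_112_s1 : Cut := Cut.of [[⟨4, 0, 0, 1449551462⟩]]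

noncomputable def f_A00pp_112_s1 : ℕ → ℕ → ℕ → ℕ → Bool := onCell 536870912 536870912 536870912 536870912 1033476505 6710887
    (rowF 0 true true true .dn 1 1 2 (qsf 536870912 536870912 536870912 536870912 2) ndB0q1 ndB0q1 pcB2 cut_A00pp_112_s1 Ext.none)

def k0_A00pp_112_s1 : ∃ t, chk3 f_A00pp_112_s1 t 1 1 1 = true :=
  ⟨(l 4), by decide +kernel⟩

theorem c_A00pp_112_s1 : CertF 536870912 536870912 536870912 536870912 1033476505 6710887 true true true .dn 1 1 2
    ndB0q1 ndB0q1 pcB2 cut_A00pp_112_s1 Ext.none :=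
  certF0 (fam := true) (s1 := true) (s2 := true) (a := 1) (b := 1) (c := 2) (cn := .dn) (n1 := ndB0q1) (n2 := ndB0q1) (pc := pcB2) (cut := cut_A00pp_112_s1) (xt := Ext.none) (P1 := 536870912) (W1 := 536870912) (P2 := 536870912) (W2 := 536870912) (P3 := 1033476505) (W3 := 6710887)
    rfl k0_A00pp_112_s1

theorem s_A00pp_112_s1 {κ x : ℝ} (hκ : κ * h0 = ken x) (hx : ((1033476505 : ℕ) : ℝ) / S ≤ x)
    (hx' : x ≤ (((1033476505 : ℕ) : ℝ) + (6710887 : ℕ)) / S) :
    AltA (VFD κ) PP tK tL pcB [⟨3, 0, 0, 1449551462⟩] 1 1 2 0 0 (sgb true) (sgb true) x :=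
  strip_altAD (m := 1449551462) true rfl hκ (SH.κ0 hκ (SH.hx1 hx).le (SH.hx2 hx').le) (SH.hx1 hx).le (SH.hx2 hx') (covB01).cov (covB01).cov hx hx' c_A00pp_112_s1 cutA_nil (noExt_A)

noncomputable def cut_A00pp_112_s3 : Cut := Cut.of [[⟨3, 0, 0, 2845415833⟩]]

noncomputable def f_A00pp_112_s3 : ℕ → ℕ → ℕ → ℕ → Bool := onCell 536870912 536870912 536870912 536870912 1033476505 6710887
    (rowF 0 true true true .dn 1 1 2 (qsf 536870912 536870912 536870912 536870912 2) ndB0q1 ndB0q1 pcB2 cut_A00pp_112_s3 Ext.none)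

def k0_A00pp_112_s3 : ∃ t, chk3 f_A00pp_112_s3 t 1 1 1 = true :=
  ⟨(l 4), by decide +kernel⟩

theorem c_A00pp_112_s3 : CertF 536870912 536870912 536870912 536870912 1033476505 6710887 true true true .dn 1 1 2
    ndB0q1 ndB0q1 pcB2 cut_A00pp_112_s3 Ext.none :=
  certF0 (fam := true) (s1 := true) (s2 := true) (a := 1) (b := 1) (c := 2) (cn := .dn) (n1 := ndB0q1) (n2 := ndB0q1) (pc := pcB2) (cut := cut_A00pp_112_s3) (xt := Ext.none) (P1 := 536870912) (W1 := 536870912) (P2 := 536870912) (W2 := 536870912) (P3 := 1033476505) (W3 := 6710887)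
    rfl k0_A00pp_112_s3

theorem s_A00pp_112_s3 {κ x : ℝ} (hκ : κ * h0 = ken x) (hx : ((1033476505 : ℕ) : ℝ) / S ≤ x)
    (hx' : x ≤ (((1033476505 : ℕ) : ℝ) + (6710887 : ℕ)) / S) :
    AltA (VFD κ) PP tK tL pcB [⟨4, 0, 0, 2845415833⟩] 1 1 2 0 0 (sgb true) (sgb true) x :=
  strip_altAD (m := 2845415833) false rfl hκ (SH.κ0 hκ (SH.hx1 hx).le (SH.hx2 hx').le) (SH.hx1 hx).le (SH.hx2 hx') (covB01).cov (covB01).cov hx hx' c_A00pp_112_s3 cutA_nil (noExt_A)

noncomputable def cut_A00pp_113_s1 : Cut := Cut.of [[⟨4, 0, 0, 1449551462⟩]]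

noncomputable def f_A00pp_113_s1 : ℕ → ℕ → ℕ → ℕ → Bool := onCell 536870912 536870912 536870912 536870912 1033476505 6710887
    (rowF 0 true true true .nn 1 1 3 (qsf 536870912 536870912 536870912 536870912 3) ndB0q1 ndB0q1 pcB3 cut_A00pp_113_s1 Ext.none)

def k0_A00pp_113_s1 : ∃ t, chk3 f_A00pp_113_s1 t 1 1 1 = true :=
  ⟨(l 4), by decide +kernel⟩

theorem c_A00pp_113_s1 : CertF 536870912 536870912 536870912 536870912 1033476505 6710887 true true true .nn 1 1 3
    ndB0q1 ndB0q1 pcB3 cut_A00pp_113_s1 Ext.none :=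
  certF0 (fam := true) (s1 := true) (s2 := true) (a := 1) (b := 1) (c := 3) (cn := .nn) (n1 := ndB0q1) (n2 := ndB0q1) (pc := pcB3) (cut := cut_A00pp_113_s1) (xt := Ext.none) (P1 := 536870912) (W1 := 536870912) (P2 := 536870912) (W2 := 536870912) (P3 := 1033476505) (W3 := 6710887)
    rfl k0_A00pp_113_s1

theorem s_A00pp_113_s1 {κ x : ℝ} (hκ : κ * h0 = ken x) (hx : ((1033476505 : ℕ) : ℝ) / S ≤ x)
    (hx' : x ≤ (((1033476505 : ℕ) : ℝ) + (6710887 : ℕ)) / S) :
    AltA (VFD κ) PP tK tL pcB [⟨3, 0, 0, 1449551462⟩] 1 1 3 0 0 (sgb true) (sgb true) x :=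
  strip_altAD (m := 1449551462) true rfl hκ (SH.κ0 hκ (SH.hx1 hx).le (SH.hx2 hx').le) (SH.hx1 hx).le (SH.hx2 hx') (covB01).cov (covB01).cov hx hx' c_A00pp_113_s1 cutA_nil (noExt_A)

noncomputable def cut_A00pp_113_s3 : Cut := Cut.of [[⟨3, 0, 0, 2845415833⟩]]

noncomputable def f_A00pp_113_s3 : ℕ → ℕ → ℕ → ℕ → Bool := onCell 536870912 536870912 536870912 536870912 1033476505 6710887
    (rowF 0 true true true .nn 1 1 3 (qsf 536870912 536870912 536870912 536870912 3) ndB0q1 ndB0q1 pcB3 cut_A00pp_113_s3 Ext.none)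

def k0_A00pp_113_s3 : ∃ t, chk3 f_A00pp_113_s3 t 1 1 1 = true :=
  ⟨(l 4), by decide +kernel⟩

theorem c_A00pp_113_s3 : CertF 536870912 536870912 536870912 536870912 1033476505 6710887 true true true .nn 1 1 3
    ndB0q1 ndB0q1 pcB3 cut_A00pp_113_s3 Ext.none :=
  certF0 (fam := true) (s1 := true) (s2 := true) (a := 1) (b := 1) (c := 3) (cn := .nn) (n1 := ndB0q1) (n2 := ndB0q1) (pc := pcB3) (cut := cut_A00pp_113_s3) (xt := Ext.none) (P1 := 536870912) (W1 := 536870912) (P2 := 536870912) (W2 := 536870912) (P3 := 1033476505) (W3 := 6710887)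
    rfl k0_A00pp_113_s3

theorem s_A00pp_113_s3 {κ x : ℝ} (hκ : κ * h0 = ken x) (hx : ((1033476505 : ℕ) : ℝ) / S ≤ x)
    (hx' : x ≤ (((1033476505 : ℕ) : ℝ) + (6710887 : ℕ)) / S) :
    AltA (VFD κ) PP tK tL pcB [⟨4, 0, 0, 2845415833⟩] 1 1 3 0 0 (sgb true) (sgb true) x :=
  strip_altAD (m := 2845415833) false rfl hκ (SH.κ0 hκ (SH.hx1 hx).le (SH.hx2 hx').le) (SH.hx1 hx).le (SH.hx2 hx') (covB01).cov (covB01).cov hx hx' c_A00pp_113_s3 cutA_nil (noExt_A)

noncomputable def cut_A00pp_123_s1 : Cut := Cut.of [[⟨4, 0, 0, 1449551462⟩]]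

noncomputable def f_A00pp_123_s1 : ℕ → ℕ → ℕ → ℕ → Bool := onCell 536870912 536870912 0 536870912 1033476505 6710887
    (rowF 0 true true true .npn 1 2 3 (qsf 536870912 536870912 0 536870912 3) ndB0q1 ndB0q2 pcB3 cut_A00pp_123_s1 Ext.none)

def k0_A00pp_123_s1 : ∃ t, chk3 f_A00pp_123_s1 t 1 1 1 = true :=
  ⟨(l 6), by decide +kernel⟩

theorem c_A00pp_123_s1 : CertF 536870912 536870912 0 536870912 1033476505 6710887 true true true .npn 1 2 3
    ndB0q1 ndB0q2 pcB3 cut_A00pp_123_s1 Ext.none :=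
  certF0 (fam := true) (s1 := true) (s2 := true) (a := 1) (b := 2) (c := 3) (cn := .npn) (n1 := ndB0q1) (n2 := ndB0q2) (pc := pcB3) (cut := cut_A00pp_123_s1) (xt := Ext.none) (P1 := 536870912) (W1 := 536870912) (P2 := 0) (W2 := 536870912) (P3 := 1033476505) (W3 := 6710887)
    rfl k0_A00pp_123_s1

theorem s_A00pp_123_s1 {κ x : ℝ} (hκ : κ * h0 = ken x) (hx : ((1033476505 : ℕ) : ℝ) / S ≤ x)
    (hx' : x ≤ (((1033476505 : ℕ) : ℝ) + (6710887 : ℕ)) / S) :
    AltA (VFD κ) PP tK tL pcB [⟨3, 0, 0, 1449551462⟩] 1 2 3 0 0 (sgb true) (sgb true) x :=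
  strip_altAD (m := 1449551462) true rfl hκ (SH.κ0 hκ (SH.hx1 hx).le (SH.hx2 hx').le) (SH.hx1 hx).le (SH.hx2 hx') (covB01).cov (covB02).cov hx hx' c_A00pp_123_s1 cutA_nil (noExt_A)

noncomputable def cut_A00pp_123_s3 : Cut := Cut.of [[⟨3, 0, 0, 2845415833⟩]]

noncomputable def xt_A00pp_123_s3 : Ext := strExt dd true true true .u0 .u2 .s2 .npn 1 2 3 rfl rfl gl3 vv ndB0q1 ndB0q2

noncomputable def f_A00pp_123_s3 : ℕ → ℕ → ℕ → ℕ → Bool := onCell 536870912 536870912 0 536870912 1033476505 6710887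
    (rowF 0 true true true .npn 1 2 3 (qsf 536870912 536870912 0 536870912 3) ndB0q1 ndB0q2 pcB3 cut_A00pp_123_s3 xt_A00pp_123_s3)

def k0_A00pp_123_s3 : ∃ t, chk3 f_A00pp_123_s3 t 1 1 1 = true :=
  ⟨(a (b (a (b (a (b (a (b (a (l 513490703) (l 514156303)) (l 513808655)) (a (b (l 514905615) (l 515169039)) (b (l 515737871) (l 4)))) (a (b (a (l 513950991) (l 4)) (l 4)) (l 4))) (a (b (a (b (l 516651535) (l 4)) (l 4)) (l 4)) (l 4))) (l 4)) (l 4)) (l 4)) (l 4)), by decide +kernel⟩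

theorem c_A00pp_123_s3 : CertF 536870912 536870912 0 536870912 1033476505 6710887 true true true .npn 1 2 3
    ndB0q1 ndB0q2 pcB3 cut_A00pp_123_s3 xt_A00pp_123_s3 :=
  certF0 (fam := true) (s1 := true) (s2 := true) (a := 1) (b := 2) (c := 3) (cn := .npn) (n1 := ndB0q1) (n2 := ndB0q2) (pc := pcB3) (cut := cut_A00pp_123_s3) (xt := xt_A00pp_123_s3) (P1 := 536870912) (W1 := 536870912) (P2 := 0) (W2 := 536870912) (P3 := 1033476505) (W3 := 6710887)
    rfl k0_A00pp_123_s3

theorem s_A00pp_123_s3 {κ x : ℝ} (hκ : κ * h0 = ken x) (hx : ((1033476505 : ℕ) : ℝ) / S ≤ x)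
    (hx' : x ≤ (((1033476505 : ℕ) : ℝ) + (6710887 : ℕ)) / S) :
    AltA (VFD κ) PP tK tL pcB [⟨4, 0, 0, 2845415833⟩] 1 2 3 0 0 (sgb true) (sgb true) x :=
  strip_altAD (m := 2845415833) false rfl hκ (SH.κ0 hκ (SH.hx1 hx).le (SH.hx2 hx').le) (SH.hx1 hx).le (SH.hx2 hx') (covB01).cov (covB02).cov hx hx' c_A00pp_123_s3 cutA_nil ((okx hx hx').extA (T := tt) (sideB hx hx') hκ rfl rfl (.O 1 true) (.O 2 true) (Or.inr rfl))

noncomputable def cut_A00pp_202_s1 : Cut := Cut.of [[⟨4, 0, 0, 1449551462⟩]]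

noncomputable def f_A00pp_202_s1 : ℕ → ℕ → ℕ → ℕ → Bool := onCell 0 536870912 0 536870912 1033476505 6710887
    (rowF 0 true true true .pp 2 0 2 (qsf 0 536870912 0 536870912 2) ndB0q2 ndB0q0 pcB2 cut_A00pp_202_s1 Ext.none)

def k0_A00pp_202_s1 : ∃ t, chk3 f_A00pp_202_s1 t 1 1 1 = true :=
  ⟨(l 5), by decide +kernel⟩

theorem c_A00pp_202_s1 : CertF 0 536870912 0 536870912 1033476505 6710887 true true true .pp 2 0 2
    ndB0q2 ndB0q0 pcB2 cut_A00pp_202_s1 Ext.none :=
  certF0 (fam := true) (s1 := true) (s2 := true) (a := 2) (b := 0) (c := 2) (cn := .pp) (n1 := ndB0q2) (n2 := ndB0q0) (pc := pcB2) (cut := cut_A00pp_202_s1) (xt := Ext.none) (P1 := 0) (W1 := 536870912) (P2 := 0) (W2 := 536870912) (P3 := 1033476505) (W3 := 6710887)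
    rfl k0_A00pp_202_s1

theorem s_A00pp_202_s1 {κ x : ℝ} (hκ : κ * h0 = ken x) (hx : ((1033476505 : ℕ) : ℝ) / S ≤ x)
    (hx' : x ≤ (((1033476505 : ℕ) : ℝ) + (6710887 : ℕ)) / S) :
    AltA (VFD κ) PP tK tL pcB [⟨3, 0, 0, 1449551462⟩] 2 0 2 0 0 (sgb true) (sgb true) x :=
  strip_altAD (m := 1449551462) true rfl hκ (SH.κ0 hκ (SH.hx1 hx).le (SH.hx2 hx').le) (SH.hx1 hx).le (SH.hx2 hx') (covB02).cov (covB00).cov hx hx' c_A00pp_202_s1 cutA_nil (noExt_A)

noncomputable def cut_A00pp_202_s3 : Cut := Cut.of [[⟨3, 0, 0, 2845415833⟩]]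

noncomputable def f_A00pp_202_s3 : ℕ → ℕ → ℕ → ℕ → Bool := onCell 0 536870912 0 536870912 1033476505 6710887
    (rowF 0 true true true .pp 2 0 2 (qsf 0 536870912 0 536870912 2) ndB0q2 ndB0q0 pcB2 cut_A00pp_202_s3 Ext.none)

def k0_A00pp_202_s3 : ∃ t, chk3 f_A00pp_202_s3 t 1 1 1 = true :=
  ⟨(l 5), by decide +kernel⟩

theorem c_A00pp_202_s3 : CertF 0 536870912 0 536870912 1033476505 6710887 true true true .pp 2 0 2
    ndB0q2 ndB0q0 pcB2 cut_A00pp_202_s3 Ext.none :=
  certF0 (fam := true) (s1 := true) (s2 := true) (a := 2) (b := 0) (c := 2) (cn := .pp) (n1 := ndB0q2) (n2 := ndB0q0) (pc := pcB2) (cut := cut_A00pp_202_s3) (xt := Ext.none) (P1 := 0) (W1 := 536870912) (P2 := 0) (W2 := 536870912) (P3 := 1033476505) (W3 := 6710887)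
    rfl k0_A00pp_202_s3

theorem s_A00pp_202_s3 {κ x : ℝ} (hκ : κ * h0 = ken x) (hx : ((1033476505 : ℕ) : ℝ) / S ≤ x)
    (hx' : x ≤ (((1033476505 : ℕ) : ℝ) + (6710887 : ℕ)) / S) :
    AltA (VFD κ) PP tK tL pcB [⟨4, 0, 0, 2845415833⟩] 2 0 2 0 0 (sgb true) (sgb true) x :=
  strip_altAD (m := 2845415833) false rfl hκ (SH.κ0 hκ (SH.hx1 hx).le (SH.hx2 hx').le) (SH.hx1 hx).le (SH.hx2 hx') (covB02).cov (covB00).cov hx hx' c_A00pp_202_s3 cutA_nil (noExt_A)

noncomputable def cut_A00pp_203_s1 : Cut := Cut.of [[⟨4, 0, 0, 1449551462⟩]]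

noncomputable def f_A00pp_203_s1 : ℕ → ℕ → ℕ → ℕ → Bool := onCell 0 536870912 0 536870912 1033476505 6710887
    (rowF 0 true true true .up 2 0 3 (qsf 0 536870912 0 536870912 3) ndB0q2 ndB0q0 pcB3 cut_A00pp_203_s1 Ext.none)

def k0_A00pp_203_s1 : ∃ t, chk3 f_A00pp_203_s1 t 1 1 1 = true :=
  ⟨(l 5), by decide +kernel⟩

theorem c_A00pp_203_s1 : CertF 0 536870912 0 536870912 1033476505 6710887 true true true .up 2 0 3
    ndB0q2 ndB0q0 pcB3 cut_A00pp_203_s1 Ext.none :=
  certF0 (fam := true) (s1 := true) (s2 := true) (a := 2) (b := 0) (c := 3) (cn := .up) (n1 := ndB0q2) (n2 := ndB0q0) (pc := pcB3) (cut := cut_A00pp_203_s1) (xt := Ext.none) (P1 := 0) (W1 := 536870912) (P2 := 0) (W2 := 536870912) (P3 := 1033476505) (W3 := 6710887)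
    rfl k0_A00pp_203_s1

theorem s_A00pp_203_s1 {κ x : ℝ} (hκ : κ * h0 = ken x) (hx : ((1033476505 : ℕ) : ℝ) / S ≤ x)
    (hx' : x ≤ (((1033476505 : ℕ) : ℝ) + (6710887 : ℕ)) / S) :
    AltA (VFD κ) PP tK tL pcB [⟨3, 0, 0, 1449551462⟩] 2 0 3 0 0 (sgb true) (sgb true) x :=
  strip_altAD (m := 1449551462) true rfl hκ (SH.κ0 hκ (SH.hx1 hx).le (SH.hx2 hx').le) (SH.hx1 hx).le (SH.hx2 hx') (covB02).cov (covB00).cov hx hx' c_A00pp_203_s1 cutA_nil (noExt_A)

noncomputable def cut_A00pp_203_s3 : Cut := Cut.of [[⟨3, 0, 0, 2845415833⟩]]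

noncomputable def f_A00pp_203_s3 : ℕ → ℕ → ℕ → ℕ → Bool := onCell 0 536870912 0 536870912 1033476505 6710887
    (rowF 0 true true true .up 2 0 3 (qsf 0 536870912 0 536870912 3) ndB0q2 ndB0q0 pcB3 cut_A00pp_203_s3 Ext.none)

def k0_A00pp_203_s3 : ∃ t, chk3 f_A00pp_203_s3 t 1 1 1 = true :=
  ⟨(l 5), by decide +kernel⟩

theorem c_A00pp_203_s3 : CertF 0 536870912 0 536870912 1033476505 6710887 true true true .up 2 0 3
    ndB0q2 ndB0q0 pcB3 cut_A00pp_203_s3 Ext.none :=
  certF0 (fam := true) (s1 := true) (s2 := true) (a := 2) (b := 0) (c := 3) (cn := .up) (n1 := ndB0q2) (n2 := ndB0q0) (pc := pcB3) (cut := cut_A00pp_203_s3) (xt := Ext.none) (P1 := 0) (W1 := 536870912) (P2 := 0) (W2 := 536870912) (P3 := 1033476505) (W3 := 6710887)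
    rfl k0_A00pp_203_s3

theorem s_A00pp_203_s3 {κ x : ℝ} (hκ : κ * h0 = ken x) (hx : ((1033476505 : ℕ) : ℝ) / S ≤ x)
    (hx' : x ≤ (((1033476505 : ℕ) : ℝ) + (6710887 : ℕ)) / S) :
    AltA (VFD κ) PP tK tL pcB [⟨4, 0, 0, 2845415833⟩] 2 0 3 0 0 (sgb true) (sgb true) x :=
  strip_altAD (m := 2845415833) false rfl hκ (SH.κ0 hκ (SH.hx1 hx).le (SH.hx2 hx').le) (SH.hx1 hx).le (SH.hx2 hx') (covB02).cov (covB00).cov hx hx' c_A00pp_203_s3 cutA_nil (noExt_A)

noncomputable def cut_A00pp_213_s1 : Cut := Cut.of [[⟨4, 0, 0, 1449551462⟩]]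

noncomputable def f_A00pp_213_s1 : ℕ → ℕ → ℕ → ℕ → Bool := onCell 0 536870912 536870912 536870912 1033476505 6710887
    (rowF 0 true true true .pnn 2 1 3 (qsf 0 536870912 536870912 536870912 3) ndB0q2 ndB0q1 pcB3 cut_A00pp_213_s1 Ext.none)

def k0_A00pp_213_s1 : ∃ t, chk3 f_A00pp_213_s1 t 1 1 1 = true :=
  ⟨(l 6), by decide +kernel⟩

theorem c_A00pp_213_s1 : CertF 0 536870912 536870912 536870912 1033476505 6710887 true true true .pnn 2 1 3
    ndB0q2 ndB0q1 pcB3 cut_A00pp_213_s1 Ext.none :=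
  certF0 (fam := true) (s1 := true) (s2 := true) (a := 2) (b := 1) (c := 3) (cn := .pnn) (n1 := ndB0q2) (n2 := ndB0q1) (pc := pcB3) (cut := cut_A00pp_213_s1) (xt := Ext.none) (P1 := 0) (W1 := 536870912) (P2 := 536870912) (W2 := 536870912) (P3 := 1033476505) (W3 := 6710887)
    rfl k0_A00pp_213_s1

theorem s_A00pp_213_s1 {κ x : ℝ} (hκ : κ * h0 = ken x) (hx : ((1033476505 : ℕ) : ℝ) / S ≤ x)
    (hx' : x ≤ (((1033476505 : ℕ) : ℝ) + (6710887 : ℕ)) / S) :
    AltA (VFD κ) PP tK tL pcB [⟨3, 0, 0, 1449551462⟩] 2 1 3 0 0 (sgb true) (sgb true) x :=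
  strip_altAD (m := 1449551462) true rfl hκ (SH.κ0 hκ (SH.hx1 hx).le (SH.hx2 hx').le) (SH.hx1 hx).le (SH.hx2 hx') (covB02).cov (covB01).cov hx hx' c_A00pp_213_s1 cutA_nil (noExt_A)

noncomputable def cut_A00pp_213_s3 : Cut := Cut.of [[⟨3, 0, 0, 2845415833⟩]]

noncomputable def f_A00pp_213_s3 : ℕ → ℕ → ℕ → ℕ → Bool := onCell 0 536870912 536870912 536870912 1033476505 6710887
    (rowF 0 true true true .pnn 2 1 3 (qsf 0 536870912 536870912 536870912 3) ndB0q2 ndB0q1 pcB3 cut_A00pp_213_s3 Ext.none)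

def k0_A00pp_213_s3 : ∃ t, chk3 f_A00pp_213_s3 t 1 1 1 = true :=
  ⟨(a (l 5) (l 4)), by decide +kernel⟩

theorem c_A00pp_213_s3 : CertF 0 536870912 536870912 536870912 1033476505 6710887 true true true .pnn 2 1 3
    ndB0q2 ndB0q1 pcB3 cut_A00pp_213_s3 Ext.none :=
  certF0 (fam := true) (s1 := true) (s2 := true) (a := 2) (b := 1) (c := 3) (cn := .pnn) (n1 := ndB0q2) (n2 := ndB0q1) (pc := pcB3) (cut := cut_A00pp_213_s3) (xt := Ext.none) (P1 := 0) (W1 := 536870912) (P2 := 536870912) (W2 := 536870912) (P3 := 1033476505) (W3 := 6710887)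
    rfl k0_A00pp_213_s3

theorem s_A00pp_213_s3 {κ x : ℝ} (hκ : κ * h0 = ken x) (hx : ((1033476505 : ℕ) : ℝ) / S ≤ x)
    (hx' : x ≤ (((1033476505 : ℕ) : ℝ) + (6710887 : ℕ)) / S) :
    AltA (VFD κ) PP tK tL pcB [⟨4, 0, 0, 2845415833⟩] 2 1 3 0 0 (sgb true) (sgb true) x :=
  strip_altAD (m := 2845415833) false rfl hκ (SH.κ0 hκ (SH.hx1 hx).le (SH.hx2 hx').le) (SH.hx1 hx).le (SH.hx2 hx') (covB02).cov (covB01).cov hx hx' c_A00pp_213_s3 cutA_nil (noExt_A)

noncomputable def cut_A00pm_001_s1 : Cut := Cut.of [[⟨4, 0, 0, 1449551462⟩]]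

noncomputable def f_A00pm_001_s1 : ℕ → ℕ → ℕ → ℕ → Bool := onCell 0 536870912 0 536870912 1033476505 6710887
    (rowF 0 true true false .up 0 0 1 (qsf 0 536870912 0 536870912 1) ndB0q0 ndB0q0 pcB1 cut_A00pm_001_s1 Ext.none)

def k0_A00pm_001_s1 : ∃ t, chk3 f_A00pm_001_s1 t 1 1 1 = true :=
  ⟨(l 3), by decide +kernel⟩

theorem c_A00pm_001_s1 : CertF 0 536870912 0 536870912 1033476505 6710887 true true false .up 0 0 1
    ndB0q0 ndB0q0 pcB1 cut_A00pm_001_s1 Ext.none :=
  certF0 (fam := true) (s1 := true) (s2 := false) (a := 0) (b := 0) (c := 1) (cn := .up) (n1 := ndB0q0) (n2 := ndB0q0) (pc := pcB1) (cut := cut_A00pm_001_s1) (xt := Ext.none) (P1 := 0) (W1 := 536870912) (P2 := 0) (W2 := 536870912) (P3 := 1033476505) (W3 := 6710887)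
    rfl k0_A00pm_001_s1

theorem s_A00pm_001_s1 {κ x : ℝ} (hκ : κ * h0 = ken x) (hx : ((1033476505 : ℕ) : ℝ) / S ≤ x)
    (hx' : x ≤ (((1033476505 : ℕ) : ℝ) + (6710887 : ℕ)) / S) :
    AltA (VFD κ) PP tK tL pcB [⟨3, 0, 0, 1449551462⟩] 0 0 1 0 0 (sgb true) (sgb false) x :=
  strip_altAD (m := 1449551462) true rfl hκ (SH.κ0 hκ (SH.hx1 hx).le (SH.hx2 hx').le) (SH.hx1 hx).le (SH.hx2 hx') (covB00).cov (covB00).cov hx hx' c_A00pm_001_s1 cutA_nil (noExt_A)

noncomputable def cut_A00pm_001_s3 : Cut := Cut.of [[⟨3, 0, 0, 2845415833⟩]]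

noncomputable def f_A00pm_001_s3 : ℕ → ℕ → ℕ → ℕ → Bool := onCell 0 536870912 0 536870912 1033476505 6710887
    (rowF 0 true true false .up 0 0 1 (qsf 0 536870912 0 536870912 1) ndB0q0 ndB0q0 pcB1 cut_A00pm_001_s3 Ext.none)

def k0_A00pm_001_s3 : ∃ t, chk3 f_A00pm_001_s3 t 1 1 1 = true :=
  ⟨(l 3), by decide +kernel⟩

theorem c_A00pm_001_s3 : CertF 0 536870912 0 536870912 1033476505 6710887 true true false .up 0 0 1
    ndB0q0 ndB0q0 pcB1 cut_A00pm_001_s3 Ext.none :=
  certF0 (fam := true) (s1 := true) (s2 := false) (a := 0) (b := 0) (c := 1) (cn := .up) (n1 := ndB0q0) (n2 := ndB0q0) (pc := pcB1) (cut := cut_A00pm_001_s3) (xt := Ext.none) (P1 := 0) (W1 := 536870912) (P2 := 0) (W2 := 536870912) (P3 := 1033476505) (W3 := 6710887)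
    rfl k0_A00pm_001_s3

theorem s_A00pm_001_s3 {κ x : ℝ} (hκ : κ * h0 = ken x) (hx : ((1033476505 : ℕ) : ℝ) / S ≤ x)
    (hx' : x ≤ (((1033476505 : ℕ) : ℝ) + (6710887 : ℕ)) / S) :
    AltA (VFD κ) PP tK tL pcB [⟨4, 0, 0, 2845415833⟩] 0 0 1 0 0 (sgb true) (sgb false) x :=
  strip_altAD (m := 2845415833) false rfl hκ (SH.κ0 hκ (SH.hx1 hx).le (SH.hx2 hx').le) (SH.hx1 hx).le (SH.hx2 hx') (covB00).cov (covB00).cov hx hx' c_A00pm_001_s3 cutA_nil (noExt_A)

noncomputable def cut_A00pm_011_s1 : Cut := Cut.of [[⟨4, 0, 0, 1449551462⟩], [⟨0, 0, 0, 33554432⟩, ⟨1, 1, 0, 33554432⟩, ⟨2, 1, 0, 33554432⟩]]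

noncomputable def f_A00pm_011_s1 : ℕ → ℕ → ℕ → ℕ → Bool := onCell 536870912 536870912 536870912 536870912 1033476505 6710887
    (rowF 2 true true false .pnn 0 1 1 (qsf 0 536870912 536870912 536870912 1) ndB0q0 ndB0q1 pcB1 cut_A00pm_011_s1 Ext.none)

def k0_A00pm_011_s1 : ∃ t, chk3 f_A00pm_011_s1 t 1 1 1 = true :=
  ⟨(a (l 3) (b (l 3) (a (l 3) (b (l 3) (a (l 3) (b (l 3) (a (l 3) (b (l 3) (a (l 3) (b (l 3) (l 14))))))))))), by decide +kernel⟩

theorem c_A00pm_011_s1 : CertF 0 536870912 536870912 536870912 1033476505 6710887 true true false .pnn 0 1 1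
    ndB0q0 ndB0q1 pcB1 cut_A00pm_011_s1 Ext.none :=
  certF2 (fam := true) (s1 := true) (s2 := false) (a := 0) (b := 1) (c := 1) (cn := .pnn) (n1 := ndB0q0) (n2 := ndB0q1) (pc := pcB1) (cut := cut_A00pm_011_s1) (xt := Ext.none) (P1 := 0) (W1 := 536870912) (P2 := 536870912) (W2 := 536870912) (P3 := 1033476505) (W3 := 6710887)
    rfl (fun _ => rfl) k0_A00pm_011_s1

theorem s_A00pm_011_s1 {κ x : ℝ} (hκ : κ * h0 = ken x) (hx : ((1033476505 : ℕ) : ℝ) / S ≤ x)
    (hx' : x ≤ (((1033476505 : ℕ) : ℝ) + (6710887 : ℕ)) / S)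
    (H : CutA (VFD κ) PP tK tL pcB (Cut.of [[⟨0, 0, 0, 33554432⟩, ⟨1, 1, 0, 33554432⟩, ⟨2, 1, 0, 33554432⟩]]) 0 1 1 0 0 (sgb true) (sgb false) x) :
    AltA (VFD κ) PP tK tL pcB [⟨3, 0, 0, 1449551462⟩] 0 1 1 0 0 (sgb true) (sgb false) x :=
  strip_altAD (m := 1449551462) true rfl hκ (SH.κ0 hκ (SH.hx1 hx).le (SH.hx2 hx').le) (SH.hx1 hx).le (SH.hx2 hx') (covB00).cov (covB01).cov hx hx' c_A00pm_011_s1 H (noExt_A)

noncomputable def cut_A00pm_011_s3 : Cut := Cut.of [[⟨3, 0, 0, 2845415833⟩], [⟨0, 0, 0, 33554432⟩, ⟨1, 1, 0, 33554432⟩, ⟨2, 1, 0, 33554432⟩]]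

noncomputable def f_A00pm_011_s3 : ℕ → ℕ → ℕ → ℕ → Bool := onCell 0 536870912 536870912 536870912 1033476505 6710887
    (rowF 0 true true false .pnn 0 1 1 (qsf 0 536870912 536870912 536870912 1) ndB0q0 ndB0q1 pcB1 cut_A00pm_011_s3 Ext.none)

def k0_A00pm_011_s3 : ∃ t, chk3 f_A00pm_011_s3 t 1 1 1 = true :=
  ⟨(l 6), by decide +kernel⟩

theorem c_A00pm_011_s3 : CertF 0 536870912 536870912 536870912 1033476505 6710887 true true false .pnn 0 1 1
    ndB0q0 ndB0q1 pcB1 cut_A00pm_011_s3 Ext.none :=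
  certF0 (fam := true) (s1 := true) (s2 := false) (a := 0) (b := 1) (c := 1) (cn := .pnn) (n1 := ndB0q0) (n2 := ndB0q1) (pc := pcB1) (cut := cut_A00pm_011_s3) (xt := Ext.none) (P1 := 0) (W1 := 536870912) (P2 := 536870912) (W2 := 536870912) (P3 := 1033476505) (W3 := 6710887)
    rfl k0_A00pm_011_s3

theorem s_A00pm_011_s3 {κ x : ℝ} (hκ : κ * h0 = ken x) (hx : ((1033476505 : ℕ) : ℝ) / S ≤ x)
    (hx' : x ≤ (((1033476505 : ℕ) : ℝ) + (6710887 : ℕ)) / S)
    (H : CutA (VFD κ) PP tK tL pcB (Cut.of [[⟨0, 0, 0, 33554432⟩, ⟨1, 1, 0, 33554432⟩, ⟨2, 1, 0, 33554432⟩]]) 0 1 1 0 0 (sgb true) (sgb false) x) :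
    AltA (VFD κ) PP tK tL pcB [⟨4, 0, 0, 2845415833⟩] 0 1 1 0 0 (sgb true) (sgb false) x :=
  strip_altAD (m := 2845415833) false rfl hκ (SH.κ0 hκ (SH.hx1 hx).le (SH.hx2 hx').le) (SH.hx1 hx).le (SH.hx2 hx') (covB00).cov (covB01).cov hx hx' c_A00pm_011_s3 H (noExt_A)

noncomputable def cut_A00pm_012_s3 : Cut := Cut.of [[⟨3, 0, 0, 2845415833⟩], [⟨0, 0, 0, 16777216⟩, ⟨1, 1, 0, 16777216⟩, ⟨2, 1, 0, 16777216⟩]]

noncomputable def f_A00pm_012_s3 : ℕ → ℕ → ℕ → ℕ → Bool := onCell 0 536870912 536870912 536870912 1033476505 6710887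
    (rowF 0 true true false .pnp 0 1 2 (qsf 0 536870912 536870912 536870912 2) ndB0q0 ndB0q1 pcB2 cut_A00pm_012_s3 Ext.none)

def k0_A00pm_012_s3 : ∃ t, chk3 f_A00pm_012_s3 t 1 1 1 = true :=
  ⟨(l 6), by decide +kernel⟩

theorem c_A00pm_012_s3 : CertF 0 536870912 536870912 536870912 1033476505 6710887 true true false .pnp 0 1 2
    ndB0q0 ndB0q1 pcB2 cut_A00pm_012_s3 Ext.none :=
  certF0 (fam := true) (s1 := true) (s2 := false) (a := 0) (b := 1) (c := 2) (cn := .pnp) (n1 := ndB0q0) (n2 := ndB0q1) (pc := pcB2) (cut := cut_A00pm_012_s3) (xt := Ext.none) (P1 := 0) (W1 := 536870912) (P2 := 536870912) (W2 := 536870912) (P3 := 1033476505) (W3 := 6710887)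
    rfl k0_A00pm_012_s3

theorem s_A00pm_012_s3 {κ x : ℝ} (hκ : κ * h0 = ken x) (hx : ((1033476505 : ℕ) : ℝ) / S ≤ x)
    (hx' : x ≤ (((1033476505 : ℕ) : ℝ) + (6710887 : ℕ)) / S)
    (H : CutA (VFD κ) PP tK tL pcB (Cut.of [[⟨0, 0, 0, 16777216⟩, ⟨1, 1, 0, 16777216⟩, ⟨2, 1, 0, 16777216⟩]]) 0 1 2 0 0 (sgb true) (sgb false) x) :
    AltA (VFD κ) PP tK tL pcB [⟨4, 0, 0, 2845415833⟩] 0 1 2 0 0 (sgb true) (sgb false) x :=
  strip_altAD (m := 2845415833) false rfl hκ (SH.κ0 hκ (SH.hx1 hx).le (SH.hx2 hx').le) (SH.hx1 hx).le (SH.hx2 hx') (covB00).cov (covB01).cov hx hx' c_A00pm_012_s3 H (noExt_A)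

noncomputable def cut_A00pm_022_s1 : Cut := Cut.of [[⟨4, 0, 0, 1449551462⟩], [⟨0, 0, 0, 26843545⟩, ⟨1, 1, 0, 26843545⟩, ⟨2, 1, 0, 26843545⟩]]

noncomputable def f_A00pm_022_s1 : ℕ → ℕ → ℕ → ℕ → Bool := onCell 1073741824 536870912 0 536870912 1033476505 6710887
    (rowF 2 true true false .pp 0 2 2 (qsf 0 536870912 0 536870912 2) ndB0q0 ndB0q2 pcB2 cut_A00pm_022_s1 Ext.none)

def k0_A00pm_022_s1 : ∃ t, chk3 f_A00pm_022_s1 t 4 2 1 = true :=
  ⟨(a (l 1) (l 6)), by decide +kernel⟩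

def k1_A00pm_022_s1 : ∃ t, chk3 f_A00pm_022_s1 t 8 3 1 = true :=
  ⟨(b (l 1) (a (b (l 1) (a (b (l 1) (l 14)) (a (b (b (l 1) (b (l 1) (l 14))) (l 14)) (b (b (b (l 1) (b (l 1) (a (l 1) (l 16609872)))) (b (a (l 16691568) (l 16700272)) (b (l 16620032) (l 16626680)))) (b (b (a (l 16634024) (l 16725848)) (l 16694248)) (b (l 16687248) (b (l 16639944) (l 16678536)))))))) (b (b (b (l 1) (a (l 1) (l 16384440))) (b (a (l 1) (l 16396080)) (a (b (l 16493512) (l 16588560)) (b (l 16537056) (l 16590688))))) (b (b (b (a (b (l 16576368) (l 16595056)) (l 16578960)) (a (b (l 16657456) (a (b (l 16705480) (l 16710472)) (l 16636856))) (b (l 16557680) (a (l 16560424) (l 16609056))))) (a (a (b (l 16629512) (l 16630000)) (b (l 16595496) (l 16679936))) (a (b (l 16643664) (l 16644424)) (b (l 16607200) (l 16608336))))) (b (a (a (b (l 16626928) (l 16621752)) (b (l 16677200) (l 16672688))) (a (b (l 16642184) (l 16638480)) (b (l 16606720) (l 16604120)))) (a (a (b (l 16699504)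 (l 16651680)) (b (l 16667536) (l 16662912))) (b (a (l 16634456) (l 16601800)) (a (l 16631584) (l 16601136))))))))), by decide +kernel⟩

def k2_A00pm_022_s1 : ∃ t, chk3 f_A00pm_022_s1 t 9 6 1 = true :=
  ⟨(b (a (l 1) (l 6)) (a (b (a (l 1) (l 15996712)) (b (a (l 16066840) (l 16135640)) (a (l 16180136) (l 16249016)))) (b (a (l 16078192) (l 6)) (b (l 16173840) (l 16280960))))), by decide +kernel⟩

def k3_A00pm_022_s1 : ∃ t, chk3 f_A00pm_022_s1 t 9 7 1 = true :=
  ⟨(b (b (a (b (a (l 16306224) (l 16373504)) (a (l 16440232) (l 16420304))) (b (l 16312616) (l 16431208))) (a (b (a (l 16492472) (l 16551640)) (b (a (l 16662824) (l 16590840)) (a (l 16536648) (l 16550288)))) (b (a (l 16516880) (l 16457928)) (a (b (l 16525056) (l 16488736)) (b (l 16395384) (l 16405520)))))) (b (a (b (a (b (l 16592464) (a (l 16581976) (l 16547440))) (b (l 16524600) (a (l 16514664) (l 16484848)))) (a (a (b (l 16570888) (l 16572600)) (b (l 16535640) (l 16538568))) (b (a (l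 16502536) (l 16473552)) (a (l 16507440) (l 16480832))))) (b (a (b (l 16468224) (a (l 16459664) (l 16442400))) (b (a (l 16440232) (l 16419880)) (a (l 16424728) (l 16401120)))) (a (a (b (l 16449736) (a (l 16464464) (l 16456136))) (b (b (l 16430080) (l 16435576)) (l 16441224))) (a (b (b (l 16412536) (l 16413760)) (l 16412048)) (b (a (l 16387088) (l 16362712)) (l 16360464)))))) (a (a (b (a (b (l 16572112) (l 16571064)) (b (l 16539656) (l 16540984))) (a (b (l 16571016) (l 16573416)) (b (l 16543856) (l 16549808)))) (b (a (b (l 16510968) (l 16515176)) (b (l 16487216) (a (l 16500864) (l 16490896)))) (a (b (a (l 16526600) (l 16517816)) (a (l 16536184) (l 16526648))) (b (a (l 16508304) (l 16497984)) (a (l 16515328) (l 16498392)))))) (a (b (a (b (l 16469128) (a (l 16480144) (l 16467752))) (b (l 16444864) (a (l 16449064) (l 16423928)))) (a (b (a (l 16482728) (l 16462200)) (a (l 16474096) (l 16446944))) (b (a (l 16435240) (l 16404384)) (a (l 16414880)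 (l 16378968))))) (b (a (b (a (l 16412184) (l 16385280)) (a (l 16394848) (l 16361640))) (b (a (l 16354872) (l 16320488)) (l 16310160))) (a (b (l 16352464) (l 16324032)) (b (l 16279848) (l 16247704)))))))), by decide +kernel⟩

def k4_A00pm_022_s1 : ∃ t, chk3 f_A00pm_022_s1 t 5 1 1 = true :=
  ⟨(b (l 6) (b (a (a (b (l 6) (b (l 6) (a (l 16340560) (l 6)))) (l 6)) (l 6)) (a (b (b (a (a (b (l 16569208) (l 16425656)) (b (l 16604320) (b (l 16563528) (l 16430576)))) (a (l 6) (l 6))) (a (a (b (b (l 16523952) (l 16477872)) (a (b (l 16447032) (l 16415320)) (b (l 16415016) (l 16372592)))) (b (a (l 16369728) (l 16402616)) (b (a (l 16366864) (l 16305736)) (l 16283440)))) (b (a (l 16307504) (l 6)) (a (l 16097536) (l 15964040))))) (a (b (a (b (b (a (l 16387880) (l 16337984)) (a (l 16356352) (l 16297560))) (a (b (a (l 16334816) (l 16303776)) (l 16296368)) (b (l 16256640) (l 16228656)))) (b (b (l 16244104) (l 16202080)) (a (b (l 16190696) (l 16158256)) (a (l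 16121360) (a (l 16094864) (a (a (a (l 16084552) (l 16082616)) (l 16078744)) (l 16072392))))))) (a (b (a (l 16169520) (l 16179960)) (a (b (l 16203704) (l 16168096)) (l 16105912))) (a (b (l 16103752) (l 16024504)) (a (b (l 16045784) (l 15961816)) (a (b (l 16015264) (l 15927760)) (b (l 15994664) (b (l 15843696) (l 15798248)))))))) (b (b (a (l 16004656) (l 15956328)) (a (l 15916952) (l 15869448))) (b (a (l 15917688) (l 15788992)) (a (l 15744208) (b (l 15725712) (l 15683920))))))) (b (l 6) (b (a (a (b (l 15829776) (l 15746560)) (l 6)) (l 6)) (a (b (a (l 15671544) (b (l 15586504) (l 15469144))) (a (b (l 15530176) (l 15493032)) (b (l 15436248) (a (l 15509016) (l 15386728))))) (b (l 6) (a (b (l 6) (a (b (l 6) (l 15432440)) (l 6))) (l 6))))))))), by decide +kernel⟩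

def k5_A00pm_022_s1 : ∃ t, chk3 f_A00pm_022_s1 t 3 1 1 = true :=
  ⟨(b (l 6) (l 6)), by decide +kernel⟩

theorem t6_A00pm_022_s1 : ∃ t, chk3 f_A00pm_022_s1 t 9 3 1 = true := ex3_b k2_A00pm_022_s1 k3_A00pm_022_s1

theorem t7_A00pm_022_s1 : ∃ t, chk3 f_A00pm_022_s1 t 4 3 1 = true := ex3_a k1_A00pm_022_s1 t6_A00pm_022_s1

theorem t8_A00pm_022_s1 : ∃ t, chk3 f_A00pm_022_s1 t 4 1 1 = true := ex3_b k0_A00pm_022_s1 t7_A00pm_022_s1

theorem t9_A00pm_022_s1 : ∃ t, chk3 f_A00pm_022_s1 t 2 1 1 = true := ex3_a t8_A00pm_022_s1 k4_A00pm_022_s1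

theorem t10_A00pm_022_s1 : ∃ t, chk3 f_A00pm_022_s1 t 1 1 1 = true := ex3_a t9_A00pm_022_s1 k5_A00pm_022_s1

theorem c_A00pm_022_s1 : CertF 0 536870912 0 536870912 1033476505 6710887 true true false .pp 0 2 2
    ndB0q0 ndB0q2 pcB2 cut_A00pm_022_s1 Ext.none :=
  certF2 (fam := true) (s1 := true) (s2 := false) (a := 0) (b := 2) (c := 2) (cn := .pp) (n1 := ndB0q0) (n2 := ndB0q2) (pc := pcB2) (cut := cut_A00pm_022_s1) (xt := Ext.none) (P1 := 0) (W1 := 536870912) (P2 := 0) (W2 := 536870912) (P3 := 1033476505) (W3 := 6710887)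
    rfl (fun _ => rfl) t10_A00pm_022_s1

theorem s_A00pm_022_s1 {κ x : ℝ} (hκ : κ * h0 = ken x) (hx : ((1033476505 : ℕ) : ℝ) / S ≤ x)
    (hx' : x ≤ (((1033476505 : ℕ) : ℝ) + (6710887 : ℕ)) / S)
    (H : CutA (VFD κ) PP tK tL pcB (Cut.of [[⟨0, 0, 0, 26843545⟩, ⟨1, 1, 0, 26843545⟩, ⟨2, 1, 0, 26843545⟩]]) 0 2 2 0 0 (sgb true) (sgb false) x) :
    AltA (VFD κ) PP tK tL pcB [⟨3, 0, 0, 1449551462⟩] 0 2 2 0 0 (sgb true) (sgb false) x :=
  strip_altAD (m := 1449551462) true rfl hκ (SH.κ0 hκ (SH.hx1 hx).le (SH.hx2 hx').le) (SH.hx1 hx).le (SH.hx2 hx') (covB00).cov (covB02).cov hx hx' c_A00pm_022_s1 H (noExt_A)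

noncomputable def cut_A00pm_022_s3 : Cut := Cut.of [[⟨3, 0, 0, 2845415833⟩], [⟨0, 0, 0, 26843545⟩, ⟨1, 1, 0, 26843545⟩, ⟨2, 1, 0, 26843545⟩]]

noncomputable def f_A00pm_022_s3 : ℕ → ℕ → ℕ → ℕ → Bool := onCell 1073741824 536870912 0 536870912 1033476505 6710887
    (rowF 2 true true false .pp 0 2 2 (qsf 0 536870912 0 536870912 2) ndB0q0 ndB0q2 pcB2 cut_A00pm_022_s3 Ext.none)

def k0_A00pm_022_s3 : ∃ t, chk3 f_A00pm_022_s3 t 1 1 1 = true :=
  ⟨(a (l 6) (b (l 6) (l 6))), by decide +kernel⟩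

theorem c_A00pm_022_s3 : CertF 0 536870912 0 536870912 1033476505 6710887 true true false .pp 0 2 2
    ndB0q0 ndB0q2 pcB2 cut_A00pm_022_s3 Ext.none :=
  certF2 (fam := true) (s1 := true) (s2 := false) (a := 0) (b := 2) (c := 2) (cn := .pp) (n1 := ndB0q0) (n2 := ndB0q2) (pc := pcB2) (cut := cut_A00pm_022_s3) (xt := Ext.none) (P1 := 0) (W1 := 536870912) (P2 := 0) (W2 := 536870912) (P3 := 1033476505) (W3 := 6710887)
    rfl (fun _ => rfl) k0_A00pm_022_s3

theorem s_A00pm_022_s3 {κ x : ℝ} (hκ : κ * h0 = ken x) (hx : ((1033476505 : ℕ) : ℝ) / S ≤ x)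
    (hx' : x ≤ (((1033476505 : ℕ) : ℝ) + (6710887 : ℕ)) / S)
    (H : CutA (VFD κ) PP tK tL pcB (Cut.of [[⟨0, 0, 0, 26843545⟩, ⟨1, 1, 0, 26843545⟩, ⟨2, 1, 0, 26843545⟩]]) 0 2 2 0 0 (sgb true) (sgb false) x) :
    AltA (VFD κ) PP tK tL pcB [⟨4, 0, 0, 2845415833⟩] 0 2 2 0 0 (sgb true) (sgb false) x :=
  strip_altAD (m := 2845415833) false rfl hκ (SH.κ0 hκ (SH.hx1 hx).le (SH.hx2 hx').le) (SH.hx1 hx).le (SH.hx2 hx') (covB00).cov (covB02).cov hx hx' c_A00pm_022_s3 H (noExt_A)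

noncomputable def cut_A00pm_023_s1 : Cut := Cut.of [[⟨4, 0, 0, 1449551462⟩]]

noncomputable def f_A00pm_023_s1 : ℕ → ℕ → ℕ → ℕ → Bool := onCell 1610612736 536870912 0 536870912 1033476505 6710887
    (rowF 2 true true false .up 0 2 3 (qsf 0 536870912 0 536870912 3) ndB0q0 ndB0q2 pcB3 cut_A00pm_023_s1 Ext.none)

def k0_A00pm_023_s1 : ∃ t, chk3 f_A00pm_023_s1 t 1 1 1 = true :=
  ⟨(l 6), by decide +kernel⟩

theorem c_A00pm_023_s1 : CertF 0 536870912 0 536870912 1033476505 6710887 true true false .up 0 2 3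
    ndB0q0 ndB0q2 pcB3 cut_A00pm_023_s1 Ext.none :=
  certF2 (fam := true) (s1 := true) (s2 := false) (a := 0) (b := 2) (c := 3) (cn := .up) (n1 := ndB0q0) (n2 := ndB0q2) (pc := pcB3) (cut := cut_A00pm_023_s1) (xt := Ext.none) (P1 := 0) (W1 := 536870912) (P2 := 0) (W2 := 536870912) (P3 := 1033476505) (W3 := 6710887)
    rfl (fun _ => rfl) k0_A00pm_023_s1

theorem s_A00pm_023_s1 {κ x : ℝ} (hκ : κ * h0 = ken x) (hx : ((1033476505 : ℕ) : ℝ) / S ≤ x)
    (hx' : x ≤ (((1033476505 : ℕ) : ℝ) + (6710887 : ℕ)) / S) :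
    AltA (VFD κ) PP tK tL pcB [⟨3, 0, 0, 1449551462⟩] 0 2 3 0 0 (sgb true) (sgb false) x :=
  strip_altAD (m := 1449551462) true rfl hκ (SH.κ0 hκ (SH.hx1 hx).le (SH.hx2 hx').le) (SH.hx1 hx).le (SH.hx2 hx') (covB00).cov (covB02).cov hx hx' c_A00pm_023_s1 cutA_nil (noExt_A)

noncomputable def cut_A00pm_023_s3 : Cut := Cut.of [[⟨3, 0, 0, 2845415833⟩]]

noncomputable def xt_A00pm_023_s3 : Ext := strExt dd true true false .u0 .u2 .s2 .up 0 2 3 rfl rfl gl3 vv ndB0q0 ndB0q2

noncomputable def f_A00pm_023_s3 : ℕ → ℕ → ℕ → ℕ → Bool := onCell 1610612736 536870912 0 536870912 1033476505 6710887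
    (rowF 2 true true false .up 0 2 3 (qsf 0 536870912 0 536870912 3) ndB0q0 ndB0q2 pcB3 cut_A00pm_023_s3 xt_A00pm_023_s3)

def k0_A00pm_023_s3 : ∃ t, chk3 f_A00pm_023_s3 t 1 1 1 = true :=
  ⟨(a (b (a (b (a (b (b (a (a (l 6) (a (l 6) (l 15082744))) (a (b (l 15246152) (l 15106104)) (b (l 15371896) (l 15234048)))) (a (l 6) (l 6))) (l 6)) (b (a (a (b (l 510753551) (b (l 15227880) (l 6))) (b (l 15477888) (l 15294696))) (a (b (l 511302415) (l 15431072)) (b (l 511667727) (l 511262223)))) (a (l 6) (b (a (b (l 15232440) (l 6)) (a (l 15312512) (l 15343656))) (l 6))))) (l 6)) (a (b (b (a (a (b (l 512099855) (l 511686927)) (b (l 512603919) (l 512187663))) (l 2)) (a (b (a (l 511222543) (l 511719951)) (a (b (b (l 15290432) (a (l 6) (b (l 15278992) (l 15166880)))) (l 15166800)) (b (l 15406936) (a (b (b (l 15207632) (l 15198592)) (l 15293312)) (l 2))))) (l 2))) (b (a (b (l 208940581495) (l 6)) (l 2)) (l 6))) (l 2))) (b (a (l 6) (l 2)) (l 6))) (l 2)), by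 decide +kernel⟩

theorem c_A00pm_023_s3 : CertF 0 536870912 0 536870912 1033476505 6710887 true true false .up 0 2 3
    ndB0q0 ndB0q2 pcB3 cut_A00pm_023_s3 xt_A00pm_023_s3 :=
  certF2 (fam := true) (s1 := true) (s2 := false) (a := 0) (b := 2) (c := 3) (cn := .up) (n1 := ndB0q0) (n2 := ndB0q2) (pc := pcB3) (cut := cut_A00pm_023_s3) (xt := xt_A00pm_023_s3) (P1 := 0) (W1 := 536870912) (P2 := 0) (W2 := 536870912) (P3 := 1033476505) (W3 := 6710887)
    rfl (fun _ => rfl) k0_A00pm_023_s3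

theorem s_A00pm_023_s3 {κ x : ℝ} (hκ : κ * h0 = ken x) (hx : ((1033476505 : ℕ) : ℝ) / S ≤ x)
    (hx' : x ≤ (((1033476505 : ℕ) : ℝ) + (6710887 : ℕ)) / S) :
    AltA (VFD κ) PP tK tL pcB [⟨4, 0, 0, 2845415833⟩] 0 2 3 0 0 (sgb true) (sgb false) x :=
  strip_altAD (m := 2845415833) false rfl hκ (SH.κ0 hκ (SH.hx1 hx).le (SH.hx2 hx').le) (SH.hx1 hx).le (SH.hx2 hx') (covB00).cov (covB02).cov hx hx' c_A00pm_023_s3 cutA_nil ((okx hx hx').extA (T := tt) (sideB hx hx') hκ rfl rfl (.O 0 true) (.O 2 false) (Or.inr rfl))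

noncomputable def cut_A00pm_101_s1 : Cut := Cut.of [[⟨4, 0, 0, 1449551462⟩], [⟨0, 1, 0, 33554432⟩, ⟨1, 0, 0, 33554432⟩, ⟨2, 1, 0, 33554432⟩]]

noncomputable def f_A00pm_101_s1 : ℕ → ℕ → ℕ → ℕ → Bool := onCell 536870912 536870912 536870912 536870912 1033476505 6710887
    (rowF 1 true true false .npn 1 0 1 (qsf 536870912 536870912 0 536870912 1) ndB0q1 ndB0q0 pcB1 cut_A00pm_101_s1 Ext.none)

def k0_A00pm_101_s1 : ∃ t, chk3 f_A00pm_101_s1 t 1 1 1 = true :=
  ⟨(b (l 3) (a (l 3) (b (l 3) (a (l 3) (b (l 3) (a (l 3) (b (l 3) (a (l 3) (b (l 3) (a (l 3) (l 14))))))))))), by decide +kernel⟩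

theorem c_A00pm_101_s1 : CertF 536870912 536870912 0 536870912 1033476505 6710887 true true false .npn 1 0 1
    ndB0q1 ndB0q0 pcB1 cut_A00pm_101_s1 Ext.none :=
  certF1 (fam := true) (s1 := true) (s2 := false) (a := 1) (b := 0) (c := 1) (cn := .npn) (n1 := ndB0q1) (n2 := ndB0q0) (pc := pcB1) (cut := cut_A00pm_101_s1) (xt := Ext.none) (P1 := 536870912) (W1 := 536870912) (P2 := 0) (W2 := 536870912) (P3 := 1033476505) (W3 := 6710887)
    rfl (fun _ => rfl) k0_A00pm_101_s1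

theorem s_A00pm_101_s1 {κ x : ℝ} (hκ : κ * h0 = ken x) (hx : ((1033476505 : ℕ) : ℝ) / S ≤ x)
    (hx' : x ≤ (((1033476505 : ℕ) : ℝ) + (6710887 : ℕ)) / S)
    (H : CutA (VFD κ) PP tK tL pcB (Cut.of [[⟨0, 1, 0, 33554432⟩, ⟨1, 0, 0, 33554432⟩, ⟨2, 1, 0, 33554432⟩]]) 1 0 1 0 0 (sgb true) (sgb false) x) :
    AltA (VFD κ) PP tK tL pcB [⟨3, 0, 0, 1449551462⟩] 1 0 1 0 0 (sgb true) (sgb false) x :=
  strip_altAD (m := 1449551462) true rfl hκ (SH.κ0 hκ (SH.hx1 hx).le (SH.hx2 hx').le) (SH.hx1 hx).le (SH.hx2 hx') (covB01).cov (covB00).cov hx hx' c_A00pm_101_s1 H (noExt_A)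

noncomputable def cut_A00pm_101_s3 : Cut := Cut.of [[⟨3, 0, 0, 2845415833⟩], [⟨0, 1, 0, 33554432⟩, ⟨1, 0, 0, 33554432⟩, ⟨2, 1, 0, 33554432⟩]]

noncomputable def f_A00pm_101_s3 : ℕ → ℕ → ℕ → ℕ → Bool := onCell 536870912 536870912 0 536870912 1033476505 6710887
    (rowF 0 true true false .npn 1 0 1 (qsf 536870912 536870912 0 536870912 1) ndB0q1 ndB0q0 pcB1 cut_A00pm_101_s3 Ext.none)

def k0_A00pm_101_s3 : ∃ t, chk3 f_A00pm_101_s3 t 1 1 1 = true :=
  ⟨(l 6), by decide +kernel⟩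

theorem c_A00pm_101_s3 : CertF 536870912 536870912 0 536870912 1033476505 6710887 true true false .npn 1 0 1
    ndB0q1 ndB0q0 pcB1 cut_A00pm_101_s3 Ext.none :=
  certF0 (fam := true) (s1 := true) (s2 := false) (a := 1) (b := 0) (c := 1) (cn := .npn) (n1 := ndB0q1) (n2 := ndB0q0) (pc := pcB1) (cut := cut_A00pm_101_s3) (xt := Ext.none) (P1 := 536870912) (W1 := 536870912) (P2 := 0) (W2 := 536870912) (P3 := 1033476505) (W3 := 6710887)
    rfl k0_A00pm_101_s3

theorem s_A00pm_101_s3 {κ x : ℝ} (hκ : κ * h0 = ken x) (hx : ((1033476505 : ℕ) : ℝ) / S ≤ x)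
    (hx' : x ≤ (((1033476505 : ℕ) : ℝ) + (6710887 : ℕ)) / S)
    (H : CutA (VFD κ) PP tK tL pcB (Cut.of [[⟨0, 1, 0, 33554432⟩, ⟨1, 0, 0, 33554432⟩, ⟨2, 1, 0, 33554432⟩]]) 1 0 1 0 0 (sgb true) (sgb false) x) :
    AltA (VFD κ) PP tK tL pcB [⟨4, 0, 0, 2845415833⟩] 1 0 1 0 0 (sgb true) (sgb false) x :=
  strip_altAD (m := 2845415833) false rfl hκ (SH.κ0 hκ (SH.hx1 hx).le (SH.hx2 hx').le) (SH.hx1 hx).le (SH.hx2 hx') (covB01).cov (covB00).cov hx hx' c_A00pm_101_s3 H (noExt_A)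

noncomputable def cut_A00pm_102_s3 : Cut := Cut.of [[⟨3, 0, 0, 2845415833⟩], [⟨0, 1, 0, 16777216⟩, ⟨1, 0, 0, 16777216⟩, ⟨2, 1, 0, 16777216⟩]]

noncomputable def f_A00pm_102_s3 : ℕ → ℕ → ℕ → ℕ → Bool := onCell 536870912 536870912 0 536870912 1033476505 6710887
    (rowF 0 true true false .npp 1 0 2 (qsf 536870912 536870912 0 536870912 2) ndB0q1 ndB0q0 pcB2 cut_A00pm_102_s3 Ext.none)

def k0_A00pm_102_s3 : ∃ t, chk3 f_A00pm_102_s3 t 1 1 1 = true :=
  ⟨(l 6), by decide +kernel⟩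

theorem c_A00pm_102_s3 : CertF 536870912 536870912 0 536870912 1033476505 6710887 true true false .npp 1 0 2
    ndB0q1 ndB0q0 pcB2 cut_A00pm_102_s3 Ext.none :=
  certF0 (fam := true) (s1 := true) (s2 := false) (a := 1) (b := 0) (c := 2) (cn := .npp) (n1 := ndB0q1) (n2 := ndB0q0) (pc := pcB2) (cut := cut_A00pm_102_s3) (xt := Ext.none) (P1 := 536870912) (W1 := 536870912) (P2 := 0) (W2 := 536870912) (P3 := 1033476505) (W3 := 6710887)
    rfl k0_A00pm_102_s3

theorem s_A00pm_102_s3 {κ x : ℝ} (hκ : κ * h0 = ken x) (hx : ((1033476505 : ℕ) : ℝ) / S ≤ x)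
    (hx' : x ≤ (((1033476505 : ℕ) : ℝ) + (6710887 : ℕ)) / S)
    (H : CutA (VFD κ) PP tK tL pcB (Cut.of [[⟨0, 1, 0, 16777216⟩, ⟨1, 0, 0, 16777216⟩, ⟨2, 1, 0, 16777216⟩]]) 1 0 2 0 0 (sgb true) (sgb false) x) :
    AltA (VFD κ) PP tK tL pcB [⟨4, 0, 0, 2845415833⟩] 1 0 2 0 0 (sgb true) (sgb false) x :=
  strip_altAD (m := 2845415833) false rfl hκ (SH.κ0 hκ (SH.hx1 hx).le (SH.hx2 hx').le) (SH.hx1 hx).le (SH.hx2 hx') (covB01).cov (covB00).cov hx hx' c_A00pm_102_s3 H (noExt_A)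

noncomputable def cut_A00pm_112_s1 : Cut := Cut.of [[⟨4, 0, 0, 1449551462⟩]]

noncomputable def xt_A00pm_112_s1 : Ext := strExt dd true true false .u0 .u0m .u2 .dn 1 1 2 rfl rfl gf2 vv ndB0q1 ndB0q1

noncomputable def f_A00pm_112_s1 : ℕ → ℕ → ℕ → ℕ → Bool := onCell 536870912 536870912 1073741824 536870912 1033476505 6710887
    (rowF 1 true true false .dn 1 1 2 (qsf 536870912 536870912 536870912 536870912 2) ndB0q1 ndB0q1 pcB2 cut_A00pm_112_s1 xt_A00pm_112_s1)

def k0_A00pm_112_s1 : ∃ t, chk3 f_A00pm_112_s1 t 4 2 1 = true :=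
  ⟨(b (l 3) (b (b (b (l 3) (b (l 3) (b (a (l 535356991) (l 3)) (b (a (l 535364927) (a (l 3) (l 535420751))) (b (b (a (l 535367727) (l 535449135)) (b (b (a (l 535367471) (l 535449903)) (b (a (l 535367471) (l 535450159)) (b (a (l 535367471) (l 535450159)) (a (a (a (a (l 16775592) (l 16775928)) (a (l 16776208) (a (l 16776392) (l 16776496)))) (a (a (a (l 16776592) (l 16776680)) (a (l 16776760) (l 16776832))) (a (a (l 16776888) (l 16776944)) (a (a (l 16776976) (l 16776992)) (l 16777024))))) (a (a (a (a (a (l 16777040) (l 16777056)) (a (l 16777064) (l 16777072))) (a (a (l 16777080) (l 16777088)) (a (l 16777088) (l 16777088)))) (a (a (a (l 16777088) (l 16777088)) (a (l 16777080) (l 16777080))) (a (a (l 16777072) (l 16777056)) (a (l 16777048) (l 16777032))))) (a (a (a (l 16777008) (a (l 16776984) (l 16776960))) (a (l 16776928) (l 16776872))) (a (a (l 16776808) (l 16776736)) (a (l 16776656) (l 16776568))))))))) (a (l 535367263) (l 535450463)))) (a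 (l 535366239) (l 535450975))))))) (a (b (l 535349087) (a (a (b (l 16764992) (l 16761176)) (l 16743552)) (l 535404895))) (l 535451487))) (b (a (a (b (a (l 16732336) (l 16756320)) (a (l 16740816) (l 16747584))) (l 535365215)) (l 535467103)) (a (a (b (a (l 16726520) (l 16734192)) (l 16714720)) (b (l 16701280) (l 16693472))) (l 535444575))))), by decide +kernel⟩

def k1_A00pm_112_s1 : ∃ t, chk3 f_A00pm_112_s1 t 5 2 1 = true :=
  ⟨(b (l 3) (b (b (a (b (l 3) (a (b (l 3) (b (l 535262799) (b (l 535287887) (b (b (l 535296047) (a (a (a (l 16776456) (l 16776344)) (a (l 16776224) (l 16776088))) (a (l 16775872) (l 16775528)))) (l 535300447))))) (b (l 1) (b (l 1) (a (a (a (l 202970745399) (l 1)) (l 1)) (l 1)))))) (l 1)) (a (a (l 535338079) (a (l 535225951) (a (b (l 184717112407) (l 16762912)) (b (l 1) (l 16761168))))) (b (l 1) (a (a (l 185253961735) (l 1)) (l 1))))) (a (a (l 535418719) (b (a (l 535325791) (b (l 16756088) (l 16749512))) (l 535357023)))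 (a (b (a (b (l 16750896) (l 16743888)) (b (l 16746152) (l 16737880))) (a (l 16736952) (l 16726752))) (b (a (l 176127087703) (l 1)) (a (l 16718344) (l 16707248))))))), by decide +kernel⟩

def k2_A00pm_112_s1 : ∃ t, chk3 f_A00pm_112_s1 t 2 3 1 = true :=
  ⟨(a (b (b (a (a (b (b (l 16697296) (l 16678000)) (b (l 16657128) (l 16634864))) (b (b (l 16720608) (l 16703768)) (b (l 16686032) (l 16667424)))) (a (b (l 535418479) (a (l 16700432) (l 16718576))) (b (l 535440223) (l 16714072)))) (b (a (a (a (l 16589648) (l 16608680)) (l 16552576)) (a (l 16589168) (l 16623200))) (a (l 6) (l 6)))) (l 6)) (b (b (a (a (l 535431279) (l 535386223)) (b (a (l 16684952) (l 16615848)) (a (l 16715768) (l 16692488)))) (b (a (a (l 16698424) (l 16694416)) (a (l 16700544) (l 16694168))) (l 6))) (l 6))), by decide +kernel⟩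

def k3_A00pm_112_s1 : ∃ t, chk3 f_A00pm_112_s1 t 3 1 1 = true :=
  ⟨(b (a (b (l 1) (b (l 1) (a (b (l 1) (a (a (l 16613408) (l 1)) (l 1))) (l 1)))) (l 1)) (b (b (a (a (a (b (a (l 16681392) (l 16666240)) (l 16661936)) (b (a (l 16652784) (l 1)) (a (l 16638032) (l 16619744)))) (a (b (l 1) (a (l 16603736) (l 1))) (l 1))) (l 1)) (b (a (a (a (l 16654864) (l 16618152)) (b (a (l 16581984) (l 1)) (l 6))) (l 1)) (a (l 6) (l 6)))) (l 6))), by decide +kernel⟩

theorem t4_A00pm_112_s1 : ∃ t, chk3 f_A00pm_112_s1 t 2 2 1 = true := ex3_a k0_A00pm_112_s1 k1_A00pm_112_s1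

theorem t5_A00pm_112_s1 : ∃ t, chk3 f_A00pm_112_s1 t 2 1 1 = true := ex3_b t4_A00pm_112_s1 k2_A00pm_112_s1

theorem t6_A00pm_112_s1 : ∃ t, chk3 f_A00pm_112_s1 t 1 1 1 = true := ex3_a t5_A00pm_112_s1 k3_A00pm_112_s1

theorem c_A00pm_112_s1 : CertF 536870912 536870912 536870912 536870912 1033476505 6710887 true true false .dn 1 1 2
    ndB0q1 ndB0q1 pcB2 cut_A00pm_112_s1 xt_A00pm_112_s1 :=
  certF1 (fam := true) (s1 := true) (s2 := false) (a := 1) (b := 1) (c := 2) (cn := .dn) (n1 := ndB0q1) (n2 := ndB0q1) (pc := pcB2) (cut := cut_A00pm_112_s1) (xt := xt_A00pm_112_s1) (P1 := 536870912) (W1 := 536870912) (P2 := 536870912) (W2 := 536870912) (P3 := 1033476505) (W3 := 6710887)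
    rfl (fun _ => rfl) t6_A00pm_112_s1

theorem s_A00pm_112_s1 {κ x : ℝ} (hκ : κ * h0 = ken x) (hx : ((1033476505 : ℕ) : ℝ) / S ≤ x)
    (hx' : x ≤ (((1033476505 : ℕ) : ℝ) + (6710887 : ℕ)) / S) :
    AltA (VFD κ) PP tK tL pcB [⟨3, 0, 0, 1449551462⟩] 1 1 2 0 0 (sgb true) (sgb false) x :=
  strip_altAD (m := 1449551462) true rfl hκ (SH.κ0 hκ (SH.hx1 hx).le (SH.hx2 hx').le) (SH.hx1 hx).le (SH.hx2 hx') (covB01).cov (covB01).cov hx hx' c_A00pm_112_s1 cutA_nil ((okx hx hx').extA (T := tt) (sideB hx hx') hκ rfl rfl (.O 1 true) (.O 1 false) rfl)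

noncomputable def cut_A00pm_112_s3 : Cut := Cut.of [[⟨3, 0, 0, 2845415833⟩]]

noncomputable def f_A00pm_112_s3 : ℕ → ℕ → ℕ → ℕ → Bool := onCell 536870912 536870912 1073741824 536870912 1033476505 6710887
    (rowF 1 true true false .dn 1 1 2 (qsf 536870912 536870912 536870912 536870912 2) ndB0q1 ndB0q1 pcB2 cut_A00pm_112_s3 Ext.none)

def k0_A00pm_112_s3 : ∃ t, chk3 f_A00pm_112_s3 t 1 1 1 = true :=
  ⟨(l 6), by decide +kernel⟩

theorem c_A00pm_112_s3 : CertF 536870912 536870912 536870912 536870912 1033476505 6710887 true true false .dn 1 1 2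
    ndB0q1 ndB0q1 pcB2 cut_A00pm_112_s3 Ext.none :=
  certF1 (fam := true) (s1 := true) (s2 := false) (a := 1) (b := 1) (c := 2) (cn := .dn) (n1 := ndB0q1) (n2 := ndB0q1) (pc := pcB2) (cut := cut_A00pm_112_s3) (xt := Ext.none) (P1 := 536870912) (W1 := 536870912) (P2 := 536870912) (W2 := 536870912) (P3 := 1033476505) (W3 := 6710887)
    rfl (fun _ => rfl) k0_A00pm_112_s3

theorem s_A00pm_112_s3 {κ x : ℝ} (hκ : κ * h0 = ken x) (hx : ((1033476505 : ℕ) : ℝ) / S ≤ x)
    (hx' : x ≤ (((1033476505 : ℕ) : ℝ) + (6710887 : ℕ)) / S) :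
    AltA (VFD κ) PP tK tL pcB [⟨4, 0, 0, 2845415833⟩] 1 1 2 0 0 (sgb true) (sgb false) x :=
  strip_altAD (m := 2845415833) false rfl hκ (SH.κ0 hκ (SH.hx1 hx).le (SH.hx2 hx').le) (SH.hx1 hx).le (SH.hx2 hx') (covB01).cov (covB01).cov hx hx' c_A00pm_112_s3 cutA_nil (noExt_A)

noncomputable def cut_A00pm_113_s1 : Cut := Cut.of [[⟨4, 0, 0, 1449551462⟩], [⟨0, 1, 0, 20971520⟩, ⟨1, 1, 0, 20971520⟩, ⟨2, 2, 0, 1572864⟩], [⟨0, 0, 1, 46137344⟩, ⟨1, 1, 0, 1048576⟩, ⟨2, 1, 1, 46137344⟩, ⟨0, 0, 0, 1047972020⟩, ⟨0, 1, 0, 45097156⟩, ⟨2, 1, 0, 1047972020⟩, ⟨2, 2, 0, 45097156⟩], [⟨0, 1, 0, 1048576⟩, ⟨1, 0, 1, 46137344⟩, ⟨2, 1, 1, 46137344⟩, ⟨1, 0, 0, 1047972020⟩, ⟨1, 1, 0, 45097156⟩, ⟨2, 1, 0, 1047972020⟩, ⟨2, 2, 0, 45097156⟩]]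

noncomputable def f_A00pm_113_s1 : ℕ → ℕ → ℕ → ℕ → Bool := onCell 1610612736 536870912 536870912 536870912 1033476505 6710887
    (rowF 2 true true false .nn 1 1 3 (qsf 536870912 536870912 536870912 536870912 3) ndB0q1 ndB0q1 pcB3 cut_A00pm_113_s1 Ext.none)

def k0_A00pm_113_s1 : ∃ t, chk3 f_A00pm_113_s1 t 1 1 1 = true :=
  ⟨(a (b (a (l 6) (l 6)) (l 6)) (l 6)), by decide +kernel⟩

theorem c_A00pm_113_s1 : CertF 536870912 536870912 536870912 536870912 1033476505 6710887 true true false .nn 1 1 3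
    ndB0q1 ndB0q1 pcB3 cut_A00pm_113_s1 Ext.none :=
  certF2 (fam := true) (s1 := true) (s2 := false) (a := 1) (b := 1) (c := 3) (cn := .nn) (n1 := ndB0q1) (n2 := ndB0q1) (pc := pcB3) (cut := cut_A00pm_113_s1) (xt := Ext.none) (P1 := 536870912) (W1 := 536870912) (P2 := 536870912) (W2 := 536870912) (P3 := 1033476505) (W3 := 6710887)
    rfl (fun _ => rfl) k0_A00pm_113_s1

theorem s_A00pm_113_s1 {κ x : ℝ} (hκ : κ * h0 = ken x) (hx : ((1033476505 : ℕ) : ℝ) / S ≤ x)
    (hx' : x ≤ (((1033476505 : ℕ) : ℝ) + (6710887 : ℕ)) / S)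
    (H : CutA (VFD κ) PP tK tL pcB (Cut.of [[⟨0, 1, 0, 20971520⟩, ⟨1, 1, 0, 20971520⟩, ⟨2, 2, 0, 1572864⟩], [⟨0, 0, 1, 46137344⟩, ⟨1, 1, 0, 1048576⟩, ⟨2, 1, 1, 46137344⟩, ⟨0, 0, 0, 1047972020⟩, ⟨0, 1, 0, 45097156⟩, ⟨2, 1, 0, 1047972020⟩, ⟨2, 2, 0, 45097156⟩], [⟨0, 1, 0, 1048576⟩, ⟨1, 0, 1, 46137344⟩, ⟨2, 1, 1, 46137344⟩, ⟨1, 0, 0, 1047972020⟩, ⟨1, 1, 0, 45097156⟩, ⟨2, 1, 0, 1047972020⟩, ⟨2, 2, 0, 45097156⟩]]) 1 1 3 0 0 (sgb true) (sgb false) x) :
    AltA (VFD κ) PP tK tL pcB [⟨3, 0, 0, 1449551462⟩] 1 1 3 0 0 (sgb true) (sgb false) x :=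
  strip_altAD (m := 1449551462) true rfl hκ (SH.κ0 hκ (SH.hx1 hx).le (SH.hx2 hx').le) (SH.hx1 hx).le (SH.hx2 hx') (covB01).cov (covB01).cov hx hx' c_A00pm_113_s1 H (noExt_A)

end Pool.Agent.Strip051.G.I9625_9688.Tab.St.C
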