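import Pool.Agent.Strip051.G.I9625_9688.StH
import Pool.Agent.Strip051.G.I9625_9688.StF

/-! # Unit strips 4 (generated) -/

set_option linter.all false
set_option maxRecDepth 100000

namespace Pool.Agent.Strip051.G.I9625_9688.Tab.St.C

open Pool.Agent.Strip051.PB Pool.Agent.Strip051.PB.T Pool.Agent.StripNear Pool.Agent.Strip051.LC
open Pool.Agent.Strip051.G.I9625_9688.Tab Pool.Agent.Strip051.G.I9625_9688.Tab.St

noncomputable def cut_A00pm_113_s3 : Cut := Cut.of [[⟨3, 0, 0, 3194381926⟩], [⟨0, 1, 0, 20971520⟩, ⟨1, 1, 0, 20971520⟩, ⟨2, 2, 0, 1572864⟩], [⟨0, 0, 1, 46137344⟩, ⟨1, 1, 0, 1048576⟩, ⟨2, 1, 1, 46137344⟩, ⟨0, 0, 0, 1047972020⟩, ⟨0, 1, 0, 45097156⟩, ⟨2, 1, 0, 1047972020⟩, ⟨2, 2, 0, 45097156⟩], [⟨0, 1, 0, 1048576⟩, ⟨1, 0, 1, 46137344⟩, ⟨2, 1, 1, 46137344⟩, ⟨1, 0, 0, 1047972020⟩, ⟨1, 1, 0, 45097156⟩, ⟨2, 1, 0, 1047972020⟩, ⟨2, 2, 0, 45097156⟩]]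

noncomputable def f_A00pm_113_s3 : ℕ → ℕ → ℕ → ℕ → Bool := onCell 536870912 536870912 536870912 536870912 1033476505 6710887
    (rowF 0 true true false .nn 1 1 3 (qsf 536870912 536870912 536870912 536870912 3) ndB0q1 ndB0q1 pcB3 cut_A00pm_113_s3 Ext.none)

def k0_A00pm_113_s3 : ∃ t, chk3 f_A00pm_113_s3 t 2 1 1 = true :=
  ⟨(l 6), by decide +kernel⟩

def k1_A00pm_113_s3 : ∃ t, chk3 f_A00pm_113_s3 t 3 2 1 = true :=
  ⟨(l 6), by decide +kernel⟩

def k2_A00pm_113_s3 : ∃ t, chk3 f_A00pm_113_s3 t 6 3 1 = true :=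
  ⟨(l 6), by decide +kernel⟩

def k3_A00pm_113_s3 : ∃ t, chk3 f_A00pm_113_s3 t 7 6 1 = true :=
  ⟨(l 6), by decide +kernel⟩

def k4_A00pm_113_s3 : ∃ t, chk3 f_A00pm_113_s3 t 14 7 1 = true :=
  ⟨(l 6), by decide +kernel⟩

def k5_A00pm_113_s3 : ∃ t, chk3 f_A00pm_113_s3 t 15 14 1 = true :=
  ⟨(l 6), by decide +kernel⟩

def k6_A00pm_113_s3 : ∃ t, chk3 f_A00pm_113_s3 t 30 15 1 = true :=
  ⟨(l 6), by decide +kernel⟩

def k7_A00pm_113_s3 : ∃ t, chk3 f_A00pm_113_s3 t 31 30 1 = true :=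
  ⟨(l 6), by decide +kernel⟩

def k8_A00pm_113_s3 : ∃ t, chk3 f_A00pm_113_s3 t 62 31 1 = true :=
  ⟨(l 6), by decide +kernel⟩

def k9_A00pm_113_s3 : ∃ t, chk3 f_A00pm_113_s3 t 63 62 1 = true :=
  ⟨(l 6), by decide +kernel⟩

def k10_A00pm_113_s3 : ∃ t, chk3 f_A00pm_113_s3 t 126 63 1 = true :=
  ⟨(b (l 6) (b (l 6) (b (l 6) (a (l 6) (a (l 6) (b (l 6) (a (l 6) (a (a (l 6) (b (l 6) (c (c (l 16775704) (l 16775664)) (c (l 16775624) (l 16775576))))) (a (b (l 6) (c (c (l 16775752) (l 16775704)) (c (l 16775656) (l 16775616)))) (b (b (l 6) (b (l 6) (c (l 16776528) (l 16776416)))) (c (c (l 16775800) (l 16775752)) (c (l 16775704) (l 16775656))))))))))))), by decide +kernel⟩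

def k11_A00pm_113_s3 : ∃ t, chk3 f_A00pm_113_s3 t 127 126 1 = true :=
  ⟨(a (l 6) (a (l 6) (b (l 6) (b (l 6) (a (l 6) (b (l 6) (b (b (l 6) (a (l 6) (c (c (l 16775704) (l 16775664)) (c (l 16775624) (l 16775576))))) (b (a (l 6) (c (c (l 16775752) (l 16775704)) (c (l 16775656) (l 16775616)))) (a (a (l 6) (a (l 6) (c (l 16776528) (l 16776416)))) (c (c (l 16775800) (l 16775752)) (c (l 16775704) (l 16775656)))))))))))), by decide +kernel⟩

def k12_A00pm_113_s3 : ∃ t, chk3 f_A00pm_113_s3 t 254 254 1 = true :=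
  ⟨(a (l 6) (b (l 6) (b (l 6) (a (l 6) (a (l 16775392) (l 16774880)))))), by decide +kernel⟩

def k13_A00pm_113_s3 : ∃ t, chk3 f_A00pm_113_s3 t 254 510 1 = true :=
  ⟨(b (a (l 6) (a (b (a (l 6) (a (l 6) (l 16777016))) (a (l 16780832) (b (a (l 16780936) (c (l 16781056) (b (l 16781048) (l 16780784)))) (l 16780680)))) (b (c (l 16772952) (l 16772896)) (a (b (c (l 16781560) (a (l 16781224) (l 16781656))) (c (a (l 16780704) (l 16780872)) (a (l 16780592) (b (l 16780928) (l 16780552))))) (c (l 16776704) (l 16776632)))))) (a (a (l 6) (a (a (l 6) (b (l 6) (c (l 16780016) (l 16779848)))) (b (l 16780368) (c (l 16780064) (l 16779904))))) (c (a (b (l 16780448) (b (l 16780168) (l 16780008))) (b (a (l 16780368) (b (a (l 16780464) (l 16780736)) (l 16780144))) (a (l 16780016) (l 16779912)))) (a (b (l 16780312) (b (l 16780024) (l 16779864))) (b (a (l 16780248) (b (a (b (l 16780464) (l 16780208)) (l 16780640)) (a (l 16780072) (l 16780024))))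 (a (l 16779888) (l 16779800))))))), by decide +kernel⟩

def k14_A00pm_113_s3 : ∃ t, chk3 f_A00pm_113_s3 t 508 2044 1 = true :=
  ⟨(a (a (l 6) (a (l 6) (a (l 6) (b (l 6) (c (l 16779320) (c (l 16779192) (l 16779096))))))) (b (a (a (b (l 6) (c (l 16779688) (c (l 16779552) (l 16779456)))) (c (l 16779776) (c (l 16779640) (l 16779552)))) (c (b (l 16779864) (l 16779792)) (b (l 16779696) (a (l 16779608) (l 16779640))))) (a (c (b (b (a (c (a (l 16779632) (l 16779688)) (a (l 16779536) (l 16779592))) (l 16779688)) (a (l 16779504) (c (a (l 16779648) (l 16779704)) (a (l 16779560) (l 16779616))))) (c (l 16779416) (l 16779328))) (b (a (b (b (a (l 6) (l 16779472)) (c (a (l 16779424) (l 16779488)) (a (l 16779336) (a (l 16779384) (l 16779416))))) (c (l 16779368) (l 16779272))) (a (b (l 16779488) (b (c (l 16779496) (a (l 16779400) (l 16779424))) (l 16779400))) (b (l 16779520) (b (l 16779496) (c (l 16779512) (a (l 16779408) (l 16779432)))))))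 (c (l 16779240) (c (l 16779176) (l 16779128))))) (b (c (a (l 16779712) (l 16779744)) (a (c (l 16779576) (l 16779488)) (l 16779576))) (c (b (a (a (c (l 16779656) (l 16779568)) (b (l 16779680) (l 16779656))) (l 16779696)) (a (l 16779520) (a (b (l 16779656) (l 16779592)) (b (l 16779680) (l 16779656))))) (a (a (b (b (c (l 16779512) (a (l 16779416) (l 16779440))) (l 16779416)) (l 16779312)) (b (b (l 16779504) (c (l 16779520) (a (l 16779424) (l 16779448)))) (l 16779384))) (a (b (l 16779520) (b (c (l 16779528) (a (l 16779424) (l 16779448))) (l 16779424))) (b (l 16779536) (b (l 16779512) (c (l 16779528) (a (l 16779432) (l 16779456)))))))))))), by decide +kernel⟩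

def k15_A00pm_113_s3 : ∃ t, chk3 f_A00pm_113_s3 t 508 2045 1 = true :=
  ⟨(b (a (a (l 6) (c (c (l 16778736) (l 16778656)) (c (c (l 16778592) (l 16778552)) (a (l 16778432) (l 16778552))))) (c (a (c (l 16778992) (l 16778912)) (a (l 16779160) (c (l 16779328) (l 16779248)))) (a (c (a (l 16778768) (l 16778896)) (a (l 16778680) (l 16778816))) (c (a (l 16779032) (l 16779168)) (a (l 16778952) (b (l 16779232) (l 16778936))))))) (a (a (a (l 6) (a (l 6) (b (l 6) (c (l 16777864) (l 16777720))))) (c (c (l 16778176) (l 16778104)) (c (l 16778024) (a (l 16777896) (l 16778008))))) (c (a (c (l 16778408) (l 16778328)) (c (l 16778648) (l 16778568))) (a (c (l 16778256) (a (l 16778120) (l 16778232))) (c (a (l 16778432) (l 16778552)) (a (l 16778352) (l 16778480))))))), by decide +kernel⟩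

def k16_A00pm_113_s3 : ∃ t, chk3 f_A00pm_113_s3 t 1018 1022 1 = true :=
  ⟨(b (c (a (b (l 16779864) (b (l 16779776) (a (l 16779712) (l 16779720)))) (b (l 16779864) (b (l 16779776) (l 16779720)))) (a (b (b (l 16779744) (l 16779672)) (b (a (l 16779600) (l 16779616)) (a (c (l 16779584) (l 16779496)) (l 16779560)))) (b (l 16779720) (a (l 16779600) (l 16779592))))) (b (a (a (c (b (c (l 16779608) (b (a (l 16779576) (l 16779624)) (l 16779472))) (l 16779280)) (b (a (b (b (c (l 16779528) (a (l 16779432) (l 16779456))) (l 16779424)) (l 16779312)) (b (b (l 16779512) (c (l 16779528) (l 16779440))) (l 16779384))) (l 16779120))) (b (b (c (l 16779680) (l 16779520)) (a (c (b (l 16779648) (l 16779584)) (b (c (l 16779520) (l 16779440)) (l 16779416))) (c (b (l 16779672) (l 16779640)) (b (l 16779504) (c (l 16779520) (l 16779432)))))) (c (l 16779416) (c (l 16779296) (l 16779216))))) (b (c (a (l 16779680) (l 16779672)) (a (c (l 16779560)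 (l 16779480)) (l 16779520))) (c (a (a (l 16779512) (c (b (l 16779672) (l 16779552)) (l 16779528))) (b (l 16779640) (a (b (l 16779608) (l 16779544)) (b (l 16779624) (l 16779592))))) (a (a (c (l 16779392) (l 16779312)) (b (b (l 16779488) (a (l 16779456) (l 16779472))) (l 16779352))) (b (l 16779488) (a (b (c (l 16779488) (l 16779416)) (l 16779384)) (b (l 16779472) (a (l 16779432) (l 16779456))))))))) (c (a (c (l 16778896) (l 16778824)) (a (l 16779056) (c (l 16779216) (l 16779144)))) (a (c (a (l 16778680) (l 16778808)) (a (l 16778600) (l 16778728))) (a (c (l 16778944) (l 16778864)) (c (l 16779072) (l 16778992))))))), by decide +kernel⟩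

def k17_A00pm_113_s3 : ∃ t, chk3 f_A00pm_113_s3 t 1019 1022 1 = true :=
  ⟨(b (a (c (b (l 16779816) (l 16777088)) (a (l 16779632) (l 16779608))) (b (l 16779664) (c (l 16779624) (l 16779496)))) (c (b (b (a (l 16779640) (l 16779560)) (a (a (l 16779616) (l 16779592)) (l 16779528))) (a (b (a (a (l 16779456) (c (l 16779536) (l 16779464))) (b (l 16779568) (a (b (l 16779544) (l 16779472)) (b (l 16779544) (l 16779520))))) (a (l 16779144) (l 16779272))) (b (a (l 16779528) (l 16779472)) (a (a (l 16779360) (b (b (l 16779496) (l 16779472)) (l 16779352))) (b (l 16779456) (c (l 16779440) (l 16779368))))))) (b (b (a (a (l 16779512) (l 16779488)) (l 16779432)) (a (a (c (l 16779504) (l 16779432)) (l 16779448)) (a (l 16779416) (l 16779376)))) (a (b (a (a (c (l 16779344) (l 16779264)) (b (b (l 16779440) (c (l 16779448) (l 16779376))) (l 16779296))) (b (l 16779424) (a (l 16779352) (b (l 16779408) (a (l 16779368) (l 16779384)))))) (a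 (l 16778992) (l 16779128))) (b (a (b (l 16779392) (l 16779376)) (l 16779344)) (a (b (a (l 16779312) (b (l 16779360) (c (l 16779368) (l 16779296)))) (l 16779176)) (b (l 16779328) (a (l 16779264) (b (l 16779312) (c (l 16779312) (l 16779248))))))))))), by decide +kernel⟩

def k18_A00pm_113_s3 : ∃ t, chk3 f_A00pm_113_s3 t 508 1023 1 = true :=
  ⟨(a (b (c (c (a (a (l 16777064) (l 16777152)) (b (l 16777592) (l 16776968))) (a (a (l 16777008) (l 16777088)) (b (l 16777520) (l 16776904)))) (c (a (b (l 16777272) (a (l 16776656) (l 16776728))) (b (l 16777448) (l 16776840))) (a (b (l 16777200) (l 16776632)) (b (l 16777384) (l 16776776))))) (c (c (a (a (l 16775848) (l 16775904)) (a (b (l 16776288) (l 16775616)) (b (l 16776352) (l 16775672)))) (a (a (l 16775800) (l 16775848)) (a (b (l 16776232) (l 16775560)) (b (l 16776296) (l 16775608))))) (a (a (c (l 16775744) (b (l 16776008) (l 16775376))) (c (b (l 16776112) (l 16775464)) (b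 (l 16776056) (l 16775416)))) (b (c (l 16776200) (l 16776144)) (c (a (l 16775512) (l 16775552)) (l 16775472)))))) (b (b (c (a (c (l 16777792) (l 16777720)) (c (l 16778000) (l 16777928))) (a (c (l 16777648) (a (l 16777528) (l 16777624))) (c (l 16777856) (a (l 16777728) (l 16777832))))) (c (a (c (l 16777136) (l 16777072)) (c (l 16777312) (l 16777248))) (a (c (l 16777008) (l 16776936)) (c (l 16777176) (a (l 16777064) (l 16777152)))))) (a (c (b (c (l 16776456) (l 16776392)) (c (a (l 16775720) (l 16775776)) (l 16775688))) (b (c (l 16776328) (l 16776264)) (c (l 16775624) (l 16775560)))) (c (b (a (l 16776536) (l 16776608)) (a (l 16775800) (l 16775856))) (b (c (l 16776472) (a (l 16776368) (l 16776440))) (a (c (l 16775704) (l 16775640)) (c (l 16775760) (l 16775696)))))))), by decide +kernel⟩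

def k19_A00pm_113_s3 : ∃ t, chk3 f_A00pm_113_s3 t 509 2046 1 = true :=
  ⟨(a (b (c (a (c (l 16778216) (l 16778144)) (c (l 16778440) (l 16778368))) (a (c (a (l 16778016) (l 16778128)) (a (l 16777944) (l 16778056))) (c (a (l 16778240) (l 16778360)) (a (l 16778168) (l 16778288))))) (a (c (c (l 16777504) (l 16777432)) (c (a (l 16777312) (l 16777408)) (a (l 16777248) (l 16777336)))) (c (a (l 16777616) (l 16777712)) (c (a (l 16777504) (l 16777608)) (a (l 16777440) (l 16777536)))))) (a (b (c (a (l 16778584) (l 16778704)) (c (a (l 16778480) (l 16778600)) (a (l 16778408) (l 16778536)))) (c (a (l 16777816) (c (l 16777952) (l 16777888))) (a (c (l 16777712) (l 16777640)) (c (l 16777816) (l 16777752))))) (b (c (a (l 16778832) (b (l 16779152) (l 16778752))) (a (c (l 16778728) (l 16778656)) (b (l 16779024) (l 16778624)))) (c (a (c (l 16778056) (l 16777992)) (b (l 16778344) (l 16777920))) (a (c (l 16777928) (l 16777856)) (c (l 16778040)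 (l 16777968))))))), by decide +kernel⟩

def k20_A00pm_113_s3 : ∃ t, chk3 f_A00pm_113_s3 t 509 2047 1 = true :=
  ⟨(a (b (a (c (a (l 16776680) (l 16776760)) (a (c (l 16776584) (l 16776512)) (c (l 16776656) (l 16776592)))) (c (a (c (l 16776872) (l 16776808)) (c (l 16776960) (l 16776888))) (a (c (l 16776736) (l 16776672)) (c (l 16776824) (l 16776752))))) (a (c (a (c (l 16775944) (l 16775880)) (c (l 16776008) (l 16775944))) (a (c (l 16775816) (l 16775752)) (c (l 16775872) (l 16775808)))) (c (a (c (l 16776072) (l 16776000)) (c (l 16776136) (l 16776072))) (a (c (l 16775936) (l 16775872)) (c (l 16776000) (l 16775936)))))) (a (b (c (a (c (l 16777040) (l 16776976)) (c (l 16777128) (l 16777064))) (a (c (l 16776904) (l 16776840)) (c (l 16776992) (l 16776928)))) (c (a (c (l 16776200) (l 16776136)) (c (l 16776272) (l 16776208))) (a (c (l 16776072) (l 16776000)) (c (l 16776136) (l 16776072))))) (b (c (a (b (l 16777400) (l 16776968))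 (b (l 16777496) (l 16777056))) (a (b (l 16777264) (l 16776840)) (b (l 16777368) (l 16776928)))) (c (a (c (l 16776344) (l 16776280)) (b (l 16776608) (l 16776152))) (a (b (l 16776400) (l 16775952)) (b (l 16776480) (l 16776024))))))), by decide +kernel⟩

def k21_A00pm_113_s3 : ∃ t, chk3 f_A00pm_113_s3 t 510 254 1 = true :=
  ⟨(a (b (l 6) (b (a (b (l 6) (b (l 6) (l 16777016))) (b (l 16780832) (a (b (l 16780936) (c (l 16781056) (a (l 16781048) (l 16780784)))) (l 16780680)))) (a (c (l 16772952) (l 16772896)) (b (a (c (l 16781560) (b (l 16781224) (l 16781656))) (c (b (l 16780704) (l 16780872)) (b (l 16780592) (a (l 16780928) (l 16780552))))) (c (l 16776704) (l 16776632)))))) (b (b (l 6) (b (a (l 6) (b (l 6) (c (l 16780016) (l 16779848)))) (a (l 16780368) (c (l 16780064) (l 16779904))))) (c (b (a (l 16780448) (a (l 16780168) (l 16780008))) (a (b (l 16780368) (a (b (l 16780464) (l 16780736)) (l 16780144))) (b (l 16780016)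 (l 16779912)))) (b (a (l 16780312) (a (l 16780024) (l 16779864))) (a (b (l 16780248) (a (b (a (l 16780464) (l 16780208)) (l 16780640)) (b (l 16780072) (l 16780024)))) (b (l 16779888) (l 16779800))))))), by decide +kernel⟩

def k22_A00pm_113_s3 : ∃ t, chk3 f_A00pm_113_s3 t 2044 508 1 = true :=
  ⟨(b (b (l 6) (b (l 6) (a (l 6) (b (l 6) (c (l 16779320) (c (l 16779192) (l 16779096))))))) (a (b (b (a (l 6) (c (l 16779688) (c (l 16779552) (l 16779456)))) (c (l 16779776) (c (l 16779640) (l 16779552)))) (c (a (l 16779864) (l 16779792)) (a (l 16779696) (b (l 16779608) (l 16779640))))) (a (b (b (a (a (b (l 6) (c (l 16779656) (l 16779472))) (c (c (l 16779640) (l 16779544)) (c (b (l 16779424) (l 16779488)) (b (l 16779336) (b (l 16779384) (l 16779416)))))) (c (l 16779504) (c (l 16779368) (l 16779272)))) (a (c (l 16779688) (c (l 16779552) (l 16779464))) (b (c (c (l 16779648) (l 16779560)) (a (c (l 16779496) (b (l 16779400) (l 16779424)))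 (l 16779400))) (c (a (l 16779672) (l 16779640)) (a (l 16779496) (c (l 16779512) (b (l 16779408) (l 16779432)))))))) (c (b (l 16779712) (l 16779744)) (b (c (l 16779576) (l 16779488)) (l 16779576)))) (b (c (c (l 16779416) (l 16779328)) (c (l 16779240) (c (l 16779176) (l 16779128)))) (c (a (b (a (b (l 16779648) (l 16779680)) (b (l 16779592) (l 16779656))) (l 16779696)) (b (l 16779520) (a (b (l 16779656) (l 16779680)) (b (l 16779592) (l 16779656))))) (b (b (a (a (c (l 16779512) (b (l 16779416) (l 16779440))) (l 16779416)) (l 16779312)) (a (a (l 16779504) (c (l 16779520) (b (l 16779424) (l 16779448)))) (l 16779384))) (b (a (l 16779520) (a (c (l 16779528) (b (l 16779424) (l 16779448))) (l 16779424))) (a (l 16779536) (a (l 16779512) (c (l 16779528) (b (l 16779432) (l 16779456)))))))))))), by decide +kernel⟩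

def k23_A00pm_113_s3 : ∃ t, chk3 f_A00pm_113_s3 t 2045 508 1 = true :=
  ⟨(a (b (b (l 6) (c (c (l 16778736) (l 16778656)) (c (c (l 16778592) (l 16778552)) (b (l 16778432) (l 16778552))))) (c (b (c (l 16778992) (l 16778912)) (b (l 16779160) (c (l 16779328) (l 16779248)))) (b (c (b (l 16778768) (l 16778896)) (b (l 16778680) (l 16778816))) (c (b (l 16779032) (l 16779168)) (b (l 16778952) (a (l 16779232) (l 16778936))))))) (b (b (a (l 6) (b (l 6) (b (l 6) (c (l 16777864) (l 16777720))))) (c (c (l 16778176) (l 16778104)) (c (l 16778024) (b (l 16777896) (l 16778008))))) (c (b (c (l 16778408) (l 16778328)) (c (l 16778648) (l 16778568))) (b (c (l 16778256) (b (l 16778120) (l 16778232))) (c (b (l 16778432) (l 16778552)) (b (l 16778352) (l 16778480))))))), by decide +kernel⟩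

def k24_A00pm_113_s3 : ∃ t, chk3 f_A00pm_113_s3 t 1022 1018 1 = true :=
  ⟨(a (c (b (a (l 16779864) (a (l 16779776) (b (l 16779712) (l 16779720)))) (a (l 16779864) (a (l 16779776) (l 16779720)))) (b (a (a (l 16779744) (l 16779672)) (a (b (l 16779600) (l 16779616)) (b (c (l 16779584) (l 16779496)) (l 16779560)))) (a (l 16779720) (b (l 16779600) (l 16779592))))) (a (b (b (c (a (c (l 16779608) (a (b (l 16779576) (l 16779624)) (l 16779472))) (l 16779280)) (a (b (a (a (c (l 16779528) (b (l 16779432) (l 16779456))) (l 16779424)) (l 16779312)) (a (a (l 16779512) (c (l 16779528) (l 16779440))) (l 16779384))) (l 16779120))) (a (a (c (l 16779680) (l 16779520)) (a (c (b (l 16779648) (l 16779672)) (b (c (l 16779520) (l 16779440)) (l 16779504))) (c (b (l 16779584) (l 16779640)) (b (l 16779416) (c (l 16779520) (l 16779432)))))) (c (l 16779416) (c (l 16779296) (l 16779216))))) (a (c (b (l 16779680) (l 16779672)) (b (c (l 16779560)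 (l 16779480)) (l 16779520))) (c (b (b (l 16779512) (c (a (l 16779672) (l 16779552)) (l 16779528))) (a (l 16779640) (a (b (l 16779608) (l 16779624)) (b (l 16779544) (l 16779592))))) (b (b (c (l 16779392) (l 16779312)) (a (a (l 16779488) (b (l 16779456) (l 16779472))) (l 16779352))) (a (l 16779488) (a (b (c (l 16779488) (l 16779416)) (l 16779472)) (b (l 16779384) (a (l 16779456) (l 16779432))))))))) (c (b (c (l 16778896) (l 16778824)) (b (l 16779056) (c (l 16779216) (l 16779144)))) (b (c (b (l 16778680) (l 16778808)) (b (l 16778600) (l 16778728))) (b (c (l 16778944) (l 16778864)) (c (l 16779072) (l 16778992))))))), by decide +kernel⟩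

def k25_A00pm_113_s3 : ∃ t, chk3 f_A00pm_113_s3 t 1022 1019 1 = true :=
  ⟨(a (b (c (a (l 16779816) (l 16777088)) (b (l 16779632) (l 16779608))) (a (l 16779664) (c (l 16779624) (l 16779496)))) (c (a (a (b (l 16779640) (l 16779560)) (b (b (l 16779616) (l 16779592)) (l 16779528))) (b (a (b (b (l 16779456) (c (l 16779536) (l 16779464))) (a (l 16779568) (a (b (l 16779544) (l 16779544)) (b (l 16779472) (l 16779520))))) (b (l 16779144) (l 16779272))) (a (b (l 16779528) (l 16779472)) (b (b (l 16779360) (a (a (l 16779496) (l 16779472)) (l 16779352))) (a (l 16779456) (c (l 16779440) (l 16779368))))))) (a (a (b (b (l 16779512) (l 16779488)) (l 16779432)) (b (b (c (l 16779504) (l 16779432)) (l 16779448)) (b (l 16779416) (l 16779376)))) (b (a (b (b (c (l 16779344) (l 16779264)) (a (a (l 16779440) (c (l 16779448) (l 16779376))) (l 16779296))) (a (l 16779424) (b (l 16779352) (a (l 16779408) (a (l 16779392) (l 16779368)))))) (b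 (l 16778992) (l 16779128))) (a (b (a (l 16779392) (l 16779376)) (l 16779344)) (b (a (b (l 16779312) (a (l 16779360) (c (l 16779368) (l 16779296)))) (l 16779176)) (a (l 16779328) (b (l 16779264) (a (l 16779312) (c (l 16779312) (l 16779248))))))))))), by decide +kernel⟩

def k26_A00pm_113_s3 : ∃ t, chk3 f_A00pm_113_s3 t 1023 508 1 = true :=
  ⟨(b (a (c (c (b (b (l 16777064) (l 16777152)) (a (l 16777592) (l 16776968))) (b (b (l 16777008) (l 16777088)) (a (l 16777520) (l 16776904)))) (c (a (b (l 16777272) (l 16777448)) (b (a (l 16776840) (l 16776544)) (l 16776840))) (b (a (l 16777200) (l 16776632)) (a (l 16777384) (l 16776776))))) (c (c (b (b (l 16775848) (l 16775904)) (b (a (l 16776288) (l 16775616)) (a (l 16776352) (l 16775672)))) (b (b (l 16775800) (l 16775848)) (b (a (l 16776232) (l 16775560)) (a (l 16776296) (l 16775608))))) (b (b (c (l 16775744) (a (l 16776008) (l 16775376))) (c (a (l 16776112) (l 16775464)) (a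 (l 16776056) (l 16775416)))) (a (c (l 16776200) (l 16776144)) (c (b (l 16775512) (l 16775552)) (l 16775472)))))) (a (a (c (b (c (l 16777792) (l 16777720)) (c (l 16778000) (l 16777928))) (b (c (l 16777648) (b (l 16777528) (l 16777624))) (c (l 16777856) (b (l 16777728) (l 16777832))))) (c (b (c (l 16777136) (l 16777072)) (c (l 16777312) (l 16777248))) (b (c (l 16777008) (l 16776936)) (c (l 16777176) (b (l 16777064) (l 16777152)))))) (b (c (a (c (l 16776456) (l 16776392)) (c (b (l 16775720) (l 16775776)) (l 16775688))) (a (c (l 16776328) (l 16776264)) (c (l 16775624) (l 16775560)))) (c (a (b (l 16776536) (l 16776608)) (b (l 16775800) (l 16775856))) (a (c (l 16776472) (b (l 16776368) (l 16776440))) (b (c (l 16775704) (l 16775640)) (c (l 16775760) (l 16775696)))))))), by decide +kernel⟩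

def k27_A00pm_113_s3 : ∃ t, chk3 f_A00pm_113_s3 t 2046 509 1 = true :=
  ⟨(b (a (c (b (c (l 16778216) (l 16778144)) (c (l 16778440) (l 16778368))) (b (c (b (l 16778016) (l 16778128)) (b (l 16777944) (l 16778056))) (c (b (l 16778240) (l 16778360)) (b (l 16778168) (l 16778288))))) (b (c (c (l 16777504) (l 16777432)) (c (b (l 16777312) (l 16777408)) (b (l 16777248) (l 16777336)))) (c (b (l 16777616) (l 16777712)) (c (b (l 16777504) (l 16777608)) (b (l 16777440) (l 16777536)))))) (b (a (c (b (l 16778584) (l 16778704)) (c (b (l 16778480) (l 16778600)) (b (l 16778408) (l 16778536)))) (c (b (l 16777816) (c (l 16777952) (l 16777888))) (b (c (l 16777712) (l 16777640)) (c (l 16777816) (l 16777752))))) (a (c (b (l 16778832) (a (l 16779152) (l 16778752))) (b (c (l 16778728) (l 16778656)) (a (l 16779024) (l 16778624)))) (c (b (c (l 16778056) (l 16777992)) (a (l 16778344) (l 16777920))) (b (c (l 16777928) (l 16777856)) (c (l 16778040)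 (l 16777968))))))), by decide +kernel⟩

def k28_A00pm_113_s3 : ∃ t, chk3 f_A00pm_113_s3 t 2047 509 1 = true :=
  ⟨(b (a (b (c (b (l 16776680) (l 16776760)) (b (c (l 16776584) (l 16776512)) (c (l 16776656) (l 16776592)))) (c (b (c (l 16776872) (l 16776808)) (c (l 16776960) (l 16776888))) (b (c (l 16776736) (l 16776672)) (c (l 16776824) (l 16776752))))) (b (c (b (c (l 16775944) (l 16775880)) (c (l 16776008) (l 16775944))) (b (c (l 16775816) (l 16775752)) (c (l 16775872) (l 16775808)))) (c (b (c (l 16776072) (l 16776000)) (c (l 16776136) (l 16776072))) (b (c (l 16775936) (l 16775872)) (c (l 16776000) (l 16775936)))))) (b (a (c (b (c (l 16777040) (l 16776976)) (c (l 16777128) (l 16777064))) (b (c (l 16776904) (l 16776840)) (c (l 16776992) (l 16776928)))) (c (b (c (l 16776200) (l 16776136)) (c (l 16776272) (l 16776208))) (b (c (l 16776072) (l 16776000)) (c (l 16776136) (l 16776072))))) (a (c (b (a (l 16777400) (l 16776968))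 (a (l 16777496) (l 16777056))) (b (a (l 16777264) (l 16776840)) (a (l 16777368) (l 16776928)))) (c (b (c (l 16776344) (l 16776280)) (a (l 16776608) (l 16776152))) (b (a (l 16776400) (l 16775952)) (a (l 16776480) (l 16776024))))))), by decide +kernel⟩

def k29_A00pm_113_s3 : ∃ t, chk3 f_A00pm_113_s3 t 510 510 1 = true :=
  ⟨(a (b (a (c (l 16773368) (l 16773352)) (c (l 16772864) (l 16772840))) (b (a (b (l 16781360) (a (b (l 16780392) (a (l 16779968) (l 16780048))) (l 16780600))) (c (l 16771360) (l 16771320))) (a (b (a (l 16779824) (b (c (l 16779976) (l 16779896)) (l 16779696))) (l 16779640)) (b (a (c (l 16780152) (b (l 16780288) (l 16779832))) (l 16780560)) (a (c (l 16779560) (b (l 16779520) (l 16779424))) (c (b (l 16779848) (l 16779496)) (b (l 16779784) (a (l 16779360) (l 16779432))))))))) (b (a (b (a (l 16781360) (b (a (l 16780392) (b (l 16779968) (l 16780048))) (l 16780600))) (c (l 16771360) (l 16771320))) (b (a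 (b (l 16779824) (a (c (l 16779976) (l 16779896)) (l 16779696))) (l 16779640)) (a (b (c (l 16780152) (a (l 16780288) (l 16779832))) (l 16780560)) (b (c (l 16779560) (a (l 16779520) (l 16779424))) (c (a (l 16779848) (l 16779496)) (a (l 16779784) (b (l 16779360) (l 16779432)))))))) (b (a (c (l 16772328) (l 16772328)) (a (l 16776056) (c (l 16775088) (l 16775040)))) (b (a (l 16776056) (c (l 16771064) (l 16771056))) (a (c (l 16775088) (l 16775040)) (l 16776048)))))), by decide +kernel⟩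

def k30_A00pm_113_s3 : ∃ t, chk3 f_A00pm_113_s3 t 510 1022 1 = true :=
  ⟨(b (a (a (b (l 16779528) (c (l 16779488) (l 16779376))) (b (a (l 16779392) (l 16779288)) (c (l 16779296) (l 16779208)))) (a (b (a (b (c (l 16779400) (a (l 16779240) (l 16779376))) (c (l 16779176) (l 16779104))) (b (l 16779760) (a (c (l 16779224) (l 16779160)) (l 16779376)))) (a (l 16779088) (b (a (l 16779008) (c (l 16779032) (l 16778968))) (l 16778944)))) (b (l 16775024) (a (b (a (l 16779128) (l 16779360)) (a (l 16778848) (c (l 16778944) (l 16778880)))) (c (l 16779512) (l 16774232)))))) (a (b (a (c (l 16779416) (l 16779304)) (c (l 16779240) (l 16779144))) (a (a (c (b (l 16779416) (l 16779400)) (b (l 16779296) (a (l 16779288) (l 16779256)))) (b (c (l 16779344) (l 16779232)) (c (l 16779328) (l 16779208)))) (c (b (l 16779216) (l 16779200)) (b (l 16779112) (l 16779096))))) (b (a (c (l 16779008) (l 16778928)) (a (l 16778768) (b (a (b (l 16778760)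 (l 16778656)) (c (l 16778880) (l 16778832))) (a (l 16778648) (c (l 16778600) (l 16778552)))))) (a (c (b (l 16778992) (l 16778984)) (b (l 16778904) (l 16778896))) (a (c (l 16778784) (l 16778712)) (b (l 16778600) (l 16778600))))))), by decide +kernel⟩

def k31_A00pm_113_s3 : ∃ t, chk3 f_A00pm_113_s3 t 1020 2046 1 = true :=
  ⟨(b (a (b (a (c (b (c (l 16779368) (l 16779312)) (l 16779184)) (b (a (l 16779208) (b (l 16779248) (a (l 16779216) (l 16779232)))) (l 16779056))) (b (c (l 16779320) (l 16779200)) (c (a (l 16779264) (l 16779288)) (a (c (l 16779176) (l 16779112)) (b (l 16779184) (a (l 16779152) (l 16779168))))))) (c (a (l 16778880) (l 16779000)) (a (l 16778752) (c (l 16778912) (l 16778848))))) (c (b (b (l 16779200) (l 16779192)) (a (b (a (l 16779192) (l 16779208)) (l 16779024)) (b (l 16779152) (a (l 16779104) (l 16779112))))) (b (b (l 16779088) (a (l 16779128) (l 16779048))) (a (b (a (c (l 16779104) (l 16779040)) (b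 (l 16779104) (l 16779080))) (l 16778912)) (b (a (l 16779064) (l 16779024)) (a (b (l 16779040) (l 16778960)) (b (l 16779024) (l 16779000)))))))) (a (c (a (b (l 16778456) (l 16778032)) (b (l 16778576) (l 16778136))) (a (b (l 16778336) (l 16777904)) (b (l 16778456) (l 16778016)))) (a (c (b (l 16778696) (l 16778248)) (b (l 16778584) (l 16778136))) (c (b (l 16778816) (l 16778368)) (b (c (l 16778736) (l 16778680)) (c (l 16778280) (l 16778224))))))), by decide +kernel⟩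

def k32_A00pm_113_s3 : ∃ t, chk3 f_A00pm_113_s3 t 1020 2047 1 = true :=
  ⟨(a (b (c (a (b (l 16777592) (l 16777144)) (b (l 16777696) (l 16777240))) (a (b (l 16777464) (l 16777016)) (b (l 16777568) (l 16777112)))) (c (a (b (l 16776688) (l 16776224)) (b (l 16776768) (l 16776296))) (a (b (l 16776560) (l 16776096)) (b (c (l 16776680) (l 16776616)) (c (l 16776200) (l 16776144)))))) (b (c (a (b (l 16777792) (l 16777328)) (b (l 16777896) (l 16777424))) (a (b (c (l 16777704) (l 16777648)) (c (l 16777240) (l 16777184))) (b (c (l 16777816) (l 16777760)) (c (l 16777344) (l 16777288))))) (c (a (b (l 16776856) (c (l 16776400) (l 16776344))) (b (c (l 16776968) (l 16776912)) (c (l 16776480) (l 16776416)))) (a (b (c (l 16776768) (l 16776704)) (c (l 16776280) (l 16776216))) (b (c (l 16776856) (l 16776800)) (c (l 16776360) (l 16776304))))))), by decide +kernel⟩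

def k33_A00pm_113_s3 : ∃ t, chk3 f_A00pm_113_s3 t 1021 1023 2 = true :=
  ⟨(b (b (a (a (b (l 16779040) (l 16779056)) (l 16778928)) (a (l 16778792) (l 16778648))) (a (b (a (b (a (b (l 16779056) (l 16778968)) (b (l 16779032) (l 16779008))) (l 16778832)) (b (l 16778944) (a (b (l 16778952) (l 16778864)) (b (l 16778920) (l 16778896))))) (a (l 16778480) (a (l 16778568) (l 16778624)))) (b (a (b (l 16778816) (l 16778824)) (l 16778680)) (a (b (a (b (l 16778840) (l 16778752)) (b (l 16778800) (l 16778776))) (l 16778592)) (b (l 16778696) (a (b (a (l 16778720) (l 16778720)) (l 16778624)) (b (l 16778672) (a (l 16778656) (l 16778656))))))))) (b (a (a (b (l 16778008) (c (l 16777552) (l 16777496))) (b (c (l 16778136) (l 16778088)) (c (l 16777648) (l 16777600)))) (a (b (c (l 16778248) (l 16778200)) (c (l 16777744) (l 16777696))) (b (b (l 16778464) (l 16778208)) (a (l 16777800) (l 16777848))))) (a (a (b (c (l 16777056) (l 16777000))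 (c (l 16776552) (l 16776496))) (b (c (l 16777144) (l 16777096)) (a (l 16776584) (l 16776624)))) (a (b (a (l 16777184) (l 16777232)) (a (l 16776664) (l 16776704))) (b (b (l 16777432) (l 16777168)) (a (b (l 16776880) (l 16776616)) (b (l 16776928) (l 16776656)))))))), by decide +kernel⟩

def k34_A00pm_113_s3 : ∃ t, chk3 f_A00pm_113_s3 t 1021 1023 3 = true :=
  ⟨(b (b (a (a (b (l 16778944) (b (l 16778952) (l 16778952))) (b (l 16778840) (l 16778840))) (a (b (l 16778712) (l 16778720)) (b (l 16778568) (l 16778584)))) (a (b (a (b (a (b (l 16778952) (l 16778864)) (b (l 16778928) (c (a (l 16778928) (l 16778936)) (l 16778880)))) (l 16778728)) (b (l 16778848) (a (b (c (l 16778880) (l 16778832)) (l 16778768)) (b (l 16778832) (c (l 16778824) (l 16778776)))))) (a (c (l 16778400) (l 16778352)) (b (l 16778624) (l 16778384)))) (b (a (b (l 16778728) (l 16778736)) (l 16778600)) (a (b (a (b (c (l 16778768) (l 16778728)) (l 16778656))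 (b (l 16778720) (a (l 16778696) (l 16778696)))) (c (l 16778528) (l 16778488))) (b (a (l 16778656) (l 16778584)) (a (b (a (l 16778640) (l 16778640)) (l 16778544)) (b (l 16778600) (a (l 16778576) (l 16778576))))))))) (b (a (a (b (c (l 16777928) (l 16777872)) (c (l 16777440) (l 16777392))) (b (c (l 16778040) (l 16777992)) (c (l 16777544) (l 16777496)))) (b (b (a (l 16778264) (a (l 16778352) (l 16778416))) (a (l 16778008) (c (l 16778152) (l 16778112)))) (a (c (l 16777656) (a (l 16777576) (l 16777632))) (a (c (l 16777736) (l 16777688)) (c (l 16777792) (l 16777752)))))) (a (a (b (c (l 16776944) (l 16776896)) (c (l 16776440) (l 16776384))) (b (c (l 16777040) (l 16776992)) (c (l 16776528) (l 16776472)))) (a (a (b (l 16777088) (c (l 16776592) (l 16776536))) (b (c (l 16777160) (l 16777112)) (c (l 16776632) (l 16776584)))) (b (a (c (l 16777208) (l 16777168)) (c (l 16777264) (l 16777216))) (a (c (l 16776680) (l 16776632)) (c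 (l 16776720) (l 16776680)))))))), by decide +kernel⟩

def k35_A00pm_113_s3 : ∃ t, chk3 f_A00pm_113_s3 t 1022 510 1 = true :=
  ⟨(a (b (b (a (l 16779528) (c (l 16779488) (l 16779376))) (a (b (l 16779392) (l 16779288)) (c (l 16779296) (l 16779208)))) (b (a (b (a (c (l 16779400) (b (l 16779240) (l 16779376))) (c (l 16779176) (l 16779104))) (a (l 16779760) (b (c (l 16779224) (l 16779160)) (l 16779376)))) (b (l 16779088) (a (b (l 16779008) (c (l 16779032) (l 16778968))) (l 16778944)))) (a (l 16775024) (b (a (b (l 16779128) (l 16779360)) (b (l 16778848) (c (l 16778944) (l 16778880)))) (c (l 16779512) (l 16774232)))))) (b (a (b (c (l 16779416) (l 16779304)) (c (l 16779240) (l 16779144))) (b (b (c (a (l 16779416) (l 16779400)) (a (l 16779296) (b (l 16779288) (l 16779256)))) (a (c (l 16779344) (l 16779232)) (c (l 16779328) (l 16779208)))) (c (a (l 16779216) (l 16779200)) (a (l 16779112) (l 16779096))))) (a (b (c (l 16779008)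 (l 16778928)) (b (l 16778768) (a (a (b (l 16778760) (l 16778960)) (b (l 16778656) (l 16778728))) (b (l 16778648) (c (l 16778600) (l 16778552)))))) (b (c (a (l 16778992) (l 16778984)) (a (l 16778904) (l 16778896))) (b (c (l 16778784) (l 16778712)) (a (l 16778600) (l 16778600))))))), by decide +kernel⟩

def k36_A00pm_113_s3 : ∃ t, chk3 f_A00pm_113_s3 t 2046 1020 1 = true :=
  ⟨(a (b (a (b (c (a (c (l 16779368) (l 16779312)) (l 16779184)) (a (b (l 16779208) (a (l 16779248) (b (l 16779216) (l 16779232)))) (l 16779056))) (a (c (l 16779320) (l 16779200)) (c (b (l 16779264) (l 16779288)) (b (c (l 16779176) (l 16779112)) (a (l 16779184) (b (l 16779152) (l 16779168))))))) (c (b (l 16778880) (l 16779000)) (b (l 16778752) (c (l 16778912) (l 16778848))))) (c (a (a (l 16779200) (l 16779192)) (b (a (b (l 16779192) (l 16779208)) (l 16779024)) (a (l 16779152) (b (l 16779104) (l 16779112))))) (a (a (l 16779088) (b (l 16779128) (l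 16779048))) (b (a (b (c (l 16779104) (l 16779040)) (a (l 16779104) (l 16779080))) (l 16778912)) (a (b (l 16779064) (l 16779024)) (b (a (l 16779040) (l 16778960)) (a (l 16779024) (l 16779000)))))))) (b (c (b (a (l 16778456) (l 16778032)) (a (l 16778576) (l 16778136))) (b (a (l 16778336) (l 16777904)) (a (l 16778456) (l 16778016)))) (b (c (a (l 16778696) (l 16778248)) (a (l 16778584) (l 16778136))) (c (a (l 16778816) (l 16778368)) (a (c (l 16778736) (l 16778680)) (c (l 16778280) (l 16778224))))))), by decide +kernel⟩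

def k37_A00pm_113_s3 : ∃ t, chk3 f_A00pm_113_s3 t 2047 1020 1 = true :=
  ⟨(b (a (c (b (a (l 16777592) (l 16777144)) (a (l 16777696) (l 16777240))) (b (a (l 16777464) (l 16777016)) (a (l 16777568) (l 16777112)))) (c (b (a (l 16776688) (l 16776224)) (a (l 16776768) (l 16776296))) (b (a (l 16776560) (l 16776096)) (a (c (l 16776680) (l 16776616)) (c (l 16776200) (l 16776144)))))) (a (c (b (a (l 16777792) (l 16777328)) (a (l 16777896) (l 16777424))) (b (a (c (l 16777704) (l 16777648)) (c (l 16777240) (l 16777184))) (a (c (l 16777816) (l 16777760)) (c (l 16777344) (l 16777288))))) (c (b (a (l 16776856) (c (l 16776400) (l 16776344))) (a (c (l 16776968) (l 16776912)) (c (l 16776480) (l 16776416)))) (b (a (c (l 16776768) (l 16776704)) (c (l 16776280) (l 16776216))) (a (c (l 16776856) (l 16776800)) (c (l 16776360) (l 16776304))))))), by decide +kernel⟩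

def k38_A00pm_113_s3 : ∃ t, chk3 f_A00pm_113_s3 t 1023 1021 2 = true :=
  ⟨(a (a (b (b (a (l 16779040) (l 16779056)) (l 16778928)) (b (l 16778792) (l 16778648))) (b (a (b (a (b (a (l 16779056) (l 16778968)) (a (l 16779032) (l 16779008))) (l 16778832)) (a (l 16778944) (b (a (l 16778952) (l 16778864)) (a (l 16778920) (l 16778896))))) (b (l 16778480) (b (l 16778568) (l 16778624)))) (a (b (a (l 16778816) (l 16778824)) (l 16778680)) (b (a (b (a (l 16778840) (l 16778752)) (a (l 16778800) (l 16778776))) (l 16778592)) (a (l 16778696) (b (a (b (l 16778720) (l 16778720)) (l 16778624)) (a (l 16778672) (b (l 16778656) (l 16778656))))))))) (a (b (b (a (l 16778008) (c (l 16777552) (l 16777496))) (a (c (l 16778136) (l 16778088)) (c (l 16777648) (l 16777600)))) (b (a (c (l 16778248) (l 16778200)) (c (l 16777744) (l 16777696))) (a (a (l 16778464) (l 16778208)) (b (l 16777800) (l 16777848))))) (b (b (a (c (l 16777056) (l 16777000))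 (c (l 16776552) (l 16776496))) (a (c (l 16777144) (l 16777096)) (b (l 16776584) (l 16776624)))) (b (a (b (l 16777184) (l 16777232)) (b (l 16776664) (l 16776704))) (a (a (l 16777432) (l 16777168)) (b (a (l 16776880) (l 16776616)) (a (l 16776928) (l 16776656)))))))), by decide +kernel⟩

def k39_A00pm_113_s3 : ∃ t, chk3 f_A00pm_113_s3 t 1023 1021 3 = true :=
  ⟨(a (a (b (b (a (l 16778944) (a (l 16778952) (l 16778952))) (a (l 16778840) (l 16778840))) (b (a (l 16778712) (l 16778720)) (a (l 16778568) (l 16778584)))) (b (a (b (a (b (a (l 16778952) (l 16778864)) (a (l 16778928) (c (b (l 16778928) (l 16778936)) (l 16778880)))) (l 16778728)) (a (l 16778848) (b (a (c (l 16778880) (l 16778832)) (l 16778768)) (a (l 16778832) (c (l 16778824) (l 16778776)))))) (a (b (l 16778496) (l 16778624)) (b (l 16778256) (l 16778384)))) (a (b (a (l 16778728) (l 16778736)) (l 16778600)) (b (a (b (a (c (l 16778768) (l 16778728)) (l 16778656))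 (a (l 16778720) (b (l 16778696) (l 16778696)))) (c (l 16778528) (l 16778488))) (a (b (l 16778656) (l 16778584)) (b (a (b (l 16778640) (l 16778640)) (l 16778544)) (a (l 16778600) (b (l 16778576) (l 16778576))))))))) (a (b (b (a (c (l 16777928) (l 16777872)) (c (l 16777440) (l 16777392))) (a (c (l 16778040) (l 16777992)) (c (l 16777544) (l 16777496)))) (a (a (b (l 16778264) (b (l 16778352) (l 16778416))) (b (l 16778008) (c (l 16778152) (l 16778112)))) (b (c (l 16777656) (b (l 16777576) (l 16777632))) (b (c (l 16777736) (l 16777688)) (c (l 16777792) (l 16777752)))))) (b (b (a (c (l 16776944) (l 16776896)) (c (l 16776440) (l 16776384))) (a (c (l 16777040) (l 16776992)) (c (l 16776528) (l 16776472)))) (b (b (a (l 16777088) (c (l 16776592) (l 16776536))) (a (c (l 16777160) (l 16777112)) (c (l 16776632) (l 16776584)))) (a (b (c (l 16777208) (l 16777168)) (c (l 16777264) (l 16777216))) (b (c (l 16776680) (l 16776632)) (c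 (l 16776720) (l 16776680)))))))), by decide +kernel⟩

def k40_A00pm_113_s3 : ∃ t, chk3 f_A00pm_113_s3 t 1022 1022 1 = true :=
  ⟨(b (a (a (b (l 16775800) (l 16774760)) (c (l 16775032) (l 16775024))) (a (b (a (l 16779224) (b (a (l 16778712) (c (l 16778560) (l 16778512))) (l 16778832))) (c (l 16774256) (l 16774232))) (b (a (b (l 16778472) (a (c (l 16778512) (l 16778472)) (l 16778392))) (l 16778432)) (a (b (a (l 16778696) (c (l 16778480) (l 16778440))) (l 16778832)) (b (a (c (l 16778344) (l 16778296)) (l 16778304)) (a (l 16778448) (b (l 16778240) (l 16778272)))))))) (a (b (a (b (l 16779224) (a (b (l 16778712) (c (l 16778560) (l 16778512))) (l 16778832))) (c (l 16774256) (l 16774232))) (a (b (a (l 16778472) (b (c (l 16778512) (l 16778472)) (l 16778392))) (l 16778432)) (b (a (b (l 16778696) (c (l 16778480) (l 16778440))) (l 16778832)) (a (b (c (l 16778344) (l 16778296)) (l 16778304)) (b (l 16778448) (a (l 16778240) (l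 16778272))))))) (c (b (a (l 16774784) (a (l 16774000) (l 16776104))) (a (b (l 16774000) (l 16776104)) (c (l 16774272) (l 16774272)))) (b (a (l 16774784) (a (l 16773984) (l 16776080))) (a (b (l 16773984) (l 16776080)) (c (l 16774272) (l 16774272))))))), by decide +kernel⟩

def k41_A00pm_113_s3 : ∃ t, chk3 f_A00pm_113_s3 t 2046 1022 1 = true :=
  ⟨(a (b (b (a (l 16778448) (c (l 16778496) (l 16778432))) (a (b (l 16778312) (l 16778224)) (c (l 16778312) (l 16778264)))) (b (a (b (a (b (l 16778176) (l 16778248)) (l 16778128)) (a (l 16778440) (b (c (l 16778160) (l 16778120)) (l 16778240)))) (b (l 16778144) (a (b (l 16778064) (c (l 16778064) (l 16778032))) (l 16778056)))) (a (a (b (l 16778712) (l 16776368)) (l 16775960)) (b (a (c (l 16778200) (l 16778176)) (b (l 16777984) (c (l 16778024) (l 16778000)))) (c (l 16778328) (l 16778304)))))) (b (a (b (c (l 16778520) (l 16778456)) (c (l 16778344) (l 16778288))) (b (c (a (l 16778544)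 (l 16778560)) (a (l 16778472) (b (l 16778528) (l 16778456)))) (c (a (l 16778368) (l 16778392)) (a (l 16778312) (l 16778328))))) (a (b (c (l 16778152) (l 16778104)) (b (l 16777976) (a (b (a (l 16777936) (c (l 16777904) (l 16777880))) (c (l 16778008) (l 16777976))) (b (l 16777904) (a (l 16777856) (l 16777856)))))) (b (c (a (l 16778184) (l 16778200)) (b (l 16778192) (l 16778096))) (b (c (l 16778040) (l 16778000)) (c (l 16777928) (l 16777896))))))), by decide +kernel⟩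

def k42_A00pm_113_s3 : ∃ t, chk3 f_A00pm_113_s3 t 2047 2044 1 = true :=
  ⟨(a (a (b (a (b (a (c (b (l 16778592) (l 16778584)) (b (a (l 16778544) (l 16778496)) (a (l 16778520) (l 16778512)))) (c (l 16778488) (l 16778416))) (a (c (l 16778536) (l 16778464)) (c (b (l 16778520) (l 16778520)) (b (a (l 16778480) (l 16778432)) (a (l 16778456) (l 16778440)))))) (c (b (l 16778296) (l 16778352)) (b (l 16778224) (l 16778280)))) (a (c (b (l 16778456) (l 16778368)) (b (l 16778392) (l 16778312))) (b (a (c (b (l 16778448) (l 16778440)) (b (a (l 16778408) (l 16778360)) (a (l 16778384) (l 16778376)))) (c (l 16778344) (l 16778280))) (a (c (l 16778384) (l 16778328)) (b (c (l 16778376) (a (l 16778336) (l 16778288))) (a (l 16778344) (c (l 16778360) (l 16778304)))))))) (b (c (b (a (l 16778032) (l 16777776)) (a (l 16778088) (l 16777824))) (b (c (l 16777848) (l 16777808)) (c (l 16777904) (l 16777864)))) (a (c (b (l 16778144) (l 16778200))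 (b (l 16778080) (c (l 16778152) (l 16778120)))) (c (b (l 16777880) (l 16777928)) (b (l 16777808) (l 16777864)))))) (b (a (c (b (a (l 16777504) (l 16777240)) (a (l 16777560) (l 16777288))) (b (c (l 16777312) (l 16777272)) (a (l 16777480) (l 16777208)))) (c (b (a (l 16776968) (l 16776696)) (a (l 16777016) (l 16776736))) (b (a (l 16776880) (l 16776608)) (a (l 16776936) (l 16776656))))) (a (c (b (a (l 16777608) (l 16777336)) (a (l 16777656) (l 16777384))) (b (a (l 16777536) (l 16777256)) (a (l 16777592) (l 16777312)))) (c (b (a (l 16777056) (l 16776776)) (a (l 16777104) (l 16776824))) (b (a (l 16776984) (l 16776704)) (a (l 16777032) (l 16776744))))))), by decide +kernel⟩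

def k43_A00pm_113_s3 : ∃ t, chk3 f_A00pm_113_s3 t 2047 2045 1 = true :=
  ⟨(a (a (a (b (c (l 16778224) (b (l 16778224) (l 16778128))) (b (c (l 16778080) (l 16778032)) (l 16777952))) (b (b (c (l 16778304) (l 16778248)) (c (l 16778208) (l 16778160))) (b (c (l 16778104) (l 16778064)) (c (l 16778000) (l 16777960))))) (b (a (b (a (a (b (c (l 16778328) (c (l 16778280) (l 16778256))) (l 16778272)) (c (b (l 16778272) (l 16778288)) (b (l 16778216) (c (l 16778240) (l 16778216))))) (c (l 16778184) (l 16778128))) (a (c (l 16778224) (l 16778176)) (c (b (a (l 16778248) (l 16778192)) (a (l 16778216) (l 16778200))) (b (a (c (l 16778208) (l 16778176)) (l 16778144)) (a (l 16778168) (c (l 16778168) (l 16778136))))))) (c (b (l 16777984) (a (l 16778104) (l 16777968))) (b (l 16777920) (a (l 16778048) (l 16777912))))) (a (b (c (l 16778136) (a (l 16778080) (l 16778096))) (c (l 16778032) (l 16777992))) (b (a (a (b (c (l 16778160) (c (l 16778128)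 (l 16778104))) (c (l 16778128) (l 16778088))) (b (b (l 16778080) (l 16778096)) (l 14))) (c (l 16778024) (l 16777968))) (l 14))))) (a (b (c (a (b (l 16777704) (l 16777760)) (b (l 16777432) (l 16777480))) (a (b (l 16777648) (c (l 16777720) (l 16777688))) (b (l 16777368) (c (l 16777432) (l 16777400))))) (a (b (c (l 16777808) (c (l 16777776) (l 16777744))) (l 14)) (l 14))) (b (a (c (b (l 16777152) (l 16777192)) (b (l 16777080) (c (l 16777144) (l 16777120)))) (b (c (l 16776864) (c (l 16776816) (l 16776776))) (l 14))) (l 14)))), by decide +kernel⟩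

def k44_A00pm_113_s3 : ∃ t, chk3 f_A00pm_113_s3 t 1022 2046 1 = true :=
  ⟨(b (a (a (b (l 16778448) (c (l 16778496) (l 16778432))) (b (a (l 16778312) (l 16778224)) (c (l 16778312) (l 16778264)))) (a (b (a (b (a (l 16778176) (l 16778248)) (l 16778128)) (b (l 16778440) (a (c (l 16778160) (l 16778120)) (l 16778240)))) (a (l 16778144) (b (a (l 16778064) (c (l 16778064) (l 16778032))) (l 16778056)))) (b (b (a (l 16778712) (l 16776368)) (l 16775960)) (a (b (c (l 16778200) (l 16778176)) (a (l 16777984) (c (l 16778024) (l 16778000)))) (c (l 16778328) (l 16778304)))))) (a (b (a (c (l 16778520) (l 16778456)) (c (l 16778344) (l 16778288))) (a (c (b (l 16778544) (l 16778560)) (b (l 16778472) (a (l 16778528) (l 16778456)))) (c (b (l 16778368) (l 16778392)) (b (l 16778312) (l 16778328))))) (b (a (c (l 16778152) (l 16778104)) (a (l 16777976) (b (a (b (l 16777936) (c (l 16777904) (l 16777880))) (c (l 16778008) (l 16777976))) (a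 (l 16777904) (b (l 16777856) (l 16777856)))))) (a (c (b (l 16778184) (l 16778200)) (a (l 16778192) (l 16778096))) (a (c (l 16778040) (l 16778000)) (c (l 16777928) (l 16777896))))))), by decide +kernel⟩

def k45_A00pm_113_s3 : ∃ t, chk3 f_A00pm_113_s3 t 2044 2047 1 = true :=
  ⟨(b (b (a (b (a (b (c (a (l 16778592) (l 16778584)) (a (b (l 16778544) (l 16778496)) (b (l 16778520) (l 16778512)))) (c (l 16778488) (l 16778416))) (b (c (l 16778536) (l 16778464)) (c (a (l 16778520) (l 16778520)) (a (b (l 16778480) (l 16778432)) (b (l 16778456) (l 16778440)))))) (c (a (l 16778296) (l 16778352)) (a (l 16778224) (l 16778280)))) (b (c (a (l 16778456) (l 16778368)) (a (l 16778392) (l 16778312))) (a (b (c (a (l 16778448) (l 16778440)) (a (b (l 16778408) (l 16778360)) (b (l 16778384) (l 16778376)))) (c (l 16778344) (l 16778280))) (b (c (l 16778384) (l 16778328)) (a (c (l 16778376) (b (l 16778336) (l 16778288))) (b (l 16778344) (c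 (l 16778360) (l 16778304)))))))) (a (c (a (b (l 16778032) (l 16777776)) (b (l 16778088) (l 16777824))) (a (c (l 16777848) (l 16777808)) (c (l 16777904) (l 16777864)))) (b (c (a (l 16778144) (l 16778200)) (a (l 16778080) (c (l 16778152) (l 16778120)))) (c (a (l 16777880) (l 16777928)) (a (l 16777808) (l 16777864)))))) (a (b (c (a (b (l 16777504) (l 16777240)) (b (l 16777560) (l 16777288))) (a (c (l 16777312) (l 16777272)) (b (l 16777480) (l 16777208)))) (c (a (b (l 16776968) (l 16776696)) (b (l 16777016) (l 16776736))) (a (b (l 16776880) (l 16776608)) (b (l 16776936) (l 16776656))))) (b (c (a (b (l 16777608) (l 16777336)) (b (l 16777656) (l 16777384))) (a (b (l 16777536) (l 16777256)) (b (l 16777592) (l 16777312)))) (c (a (b (l 16777056) (l 16776776)) (b (l 16777104) (l 16776824))) (a (b (l 16776984) (l 16776704)) (b (l 16777032) (l 16776744))))))), by decide +kernel⟩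

def k46_A00pm_113_s3 : ∃ t, chk3 f_A00pm_113_s3 t 2045 2047 1 = true :=
  ⟨(b (b (b (a (c (l 16778224) (a (l 16778224) (l 16778128))) (a (c (l 16778080) (l 16778032)) (l 16777952))) (a (a (c (l 16778304) (l 16778248)) (c (l 16778208) (l 16778160))) (a (c (l 16778104) (l 16778064)) (c (l 16778000) (l 16777960))))) (a (b (a (b (a (c (b (l 16778328) (l 16778272)) (b (c (l 16778280) (l 16778256)) (l 16778216))) (b (l 16778272) (c (l 16778288) (c (l 16778240) (l 16778216))))) (c (l 16778184) (l 16778128))) (b (c (l 16778224) (l 16778176)) (c (a (b (l 16778248) (l 16778192)) (b (l 16778216) (l 16778200))) (a (b (c (l 16778208) (l 16778176)) (l 16778144)) (b (l 16778168) (c (l 16778168) (l 16778136))))))) (c (a (l 16777984) (b (l 16778104) (l 16777968))) (a (l 16777920) (b (l 16778048) (l 16777912))))) (b (a (c (l 16778136) (b (l 16778080) (l 16778096))) (c (l 16778032) (l 16777992))) (a (b (a (c (b (l 16778160) (l 16778112))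 (b (c (l 16778128) (l 16778104)) (l 16778064))) (a (b (l 16778120) (l 14)) (l 14))) (c (l 16778024) (l 16777968))) (l 14))))) (b (a (c (b (a (l 16777704) (l 16777760)) (a (l 16777432) (l 16777480))) (b (a (l 16777648) (c (l 16777720) (l 16777688))) (a (l 16777368) (c (l 16777432) (l 16777400))))) (b (a (c (l 16777808) (c (l 16777776) (l 16777744))) (l 14)) (l 14))) (a (a (c (b (l 16777152) (l 16776864)) (b (l 16777080) (c (l 16776816) (l 16776776)))) (a (b (c (l 16777184) (l 16777120)) (l 14)) (l 14))) (l 14)))), by decide +kernel⟩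

def k47_A00pm_113_s3 : ∃ t, chk3 f_A00pm_113_s3 t 1023 1023 1 = true :=
  ⟨(b (a (b (a (b (a (a (b (l 16776576) (l 16778928)) (l 16776376)) (a (l 16776104) (l 16778456))) (b (a (l 16776104) (a (l 16776320) (l 16776048))) (a (l 16778456) (l 16776120)))) (a (b (a (l 16778184) (b (a (l 16777920) (c (l 16777848) (l 16777816))) (l 16777984))) (a (l 16775848) (l 16778200))) (a (b (b (l 16777816) (a (b (l 16777792) (l 16777824)) (l 16777768))) (a (l 16777992) (l 14))) (b (l 16777816) (l 14))))) (a (b (a (b (l 16778184) (a (b (l 16777920) (c (l 16777848) (l 16777816))) (l 16777984))) (b (l 16775848) (l 16778200))) (b (a (a (l 16777816) (b (a (l 16777792) (l 16777824)) (l 16777768))) (b (l 16777992) (l 14))) (a (l 16777816) (l 14)))) (a (a (a (b (l 16775896) (l 14)) (l 14)) (l 14)) (l 14)))) (a (a (b (b (a (l 16777840) (l 14)) (l 14)) (l 14)) (l 14)) (l 14))) (a (b (b (a (a (b (l 16777840) (l 14)) (l 14)) (l 14)) (l 14))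 (l 14)) (l 14))), by decide +kernel⟩

theorem t48_A00pm_113_s3 : ∃ t, chk3 f_A00pm_113_s3 t 1022 2047 1 = true := ex3_a k45_A00pm_113_s3 k46_A00pm_113_s3

theorem t49_A00pm_113_s3 : ∃ t, chk3 f_A00pm_113_s3 t 1022 1023 1 = true := ex3_b k44_A00pm_113_s3 t48_A00pm_113_s3

theorem t50_A00pm_113_s3 : ∃ t, chk3 f_A00pm_113_s3 t 511 1023 1 = true := ex3_a t49_A00pm_113_s3 k47_A00pm_113_s3

theorem t51_A00pm_113_s3 : ∃ t, chk3 f_A00pm_113_s3 t 2047 1022 1 = true := ex3_b k42_A00pm_113_s3 k43_A00pm_113_s3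

theorem t52_A00pm_113_s3 : ∃ t, chk3 f_A00pm_113_s3 t 1023 1022 1 = true := ex3_a k41_A00pm_113_s3 t51_A00pm_113_s3

theorem t53_A00pm_113_s3 : ∃ t, chk3 f_A00pm_113_s3 t 511 1022 1 = true := ex3_a k40_A00pm_113_s3 t52_A00pm_113_s3

theorem t54_A00pm_113_s3 : ∃ t, chk3 f_A00pm_113_s3 t 511 511 1 = true := ex3_b t53_A00pm_113_s3 t50_A00pm_113_s3

theorem t55_A00pm_113_s3 : ∃ t, chk3 f_A00pm_113_s3 t 1023 1021 1 = true := ex3_c k38_A00pm_113_s3 k39_A00pm_113_s3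

theorem t56_A00pm_113_s3 : ∃ t, chk3 f_A00pm_113_s3 t 1023 1020 1 = true := ex3_a k36_A00pm_113_s3 k37_A00pm_113_s3

theorem t57_A00pm_113_s3 : ∃ t, chk3 f_A00pm_113_s3 t 1023 510 1 = true := ex3_b t56_A00pm_113_s3 t55_A00pm_113_s3

theorem t58_A00pm_113_s3 : ∃ t, chk3 f_A00pm_113_s3 t 511 510 1 = true := ex3_a k35_A00pm_113_s3 t57_A00pm_113_s3

theorem t59_A00pm_113_s3 : ∃ t, chk3 f_A00pm_113_s3 t 511 255 1 = true := ex3_b t58_A00pm_113_s3 t54_A00pm_113_s3

theorem t60_A00pm_113_s3 : ∃ t, chk3 f_A00pm_113_s3 t 1021 1023 1 = true := ex3_c k33_A00pm_113_s3 k34_A00pm_113_s3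

theorem t61_A00pm_113_s3 : ∃ t, chk3 f_A00pm_113_s3 t 1020 1023 1 = true := ex3_b k31_A00pm_113_s3 k32_A00pm_113_s3

theorem t62_A00pm_113_s3 : ∃ t, chk3 f_A00pm_113_s3 t 510 1023 1 = true := ex3_a t61_A00pm_113_s3 t60_A00pm_113_s3

theorem t63_A00pm_113_s3 : ∃ t, chk3 f_A00pm_113_s3 t 510 511 1 = true := ex3_b k30_A00pm_113_s3 t62_A00pm_113_s3

theorem t64_A00pm_113_s3 : ∃ t, chk3 f_A00pm_113_s3 t 510 255 1 = true := ex3_b k29_A00pm_113_s3 t63_A00pm_113_s3

theorem t65_A00pm_113_s3 : ∃ t, chk3 f_A00pm_113_s3 t 255 255 1 = true := ex3_a t64_A00pm_113_s3 t59_A00pm_113_s3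

theorem t66_A00pm_113_s3 : ∃ t, chk3 f_A00pm_113_s3 t 1023 509 1 = true := ex3_a k27_A00pm_113_s3 k28_A00pm_113_s3

theorem t67_A00pm_113_s3 : ∃ t, chk3 f_A00pm_113_s3 t 1023 254 1 = true := ex3_b k26_A00pm_113_s3 t66_A00pm_113_s3

theorem t68_A00pm_113_s3 : ∃ t, chk3 f_A00pm_113_s3 t 1022 509 1 = true := ex3_b k24_A00pm_113_s3 k25_A00pm_113_s3

theorem t69_A00pm_113_s3 : ∃ t, chk3 f_A00pm_113_s3 t 1022 508 1 = true := ex3_a k22_A00pm_113_s3 k23_A00pm_113_s3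

theorem t70_A00pm_113_s3 : ∃ t, chk3 f_A00pm_113_s3 t 1022 254 1 = true := ex3_b t69_A00pm_113_s3 t68_A00pm_113_s3

theorem t71_A00pm_113_s3 : ∃ t, chk3 f_A00pm_113_s3 t 511 254 1 = true := ex3_a t70_A00pm_113_s3 t67_A00pm_113_s3

theorem t72_A00pm_113_s3 : ∃ t, chk3 f_A00pm_113_s3 t 255 254 1 = true := ex3_a k21_A00pm_113_s3 t71_A00pm_113_s3

theorem t73_A00pm_113_s3 : ∃ t, chk3 f_A00pm_113_s3 t 255 127 1 = true := ex3_b t72_A00pm_113_s3 t65_A00pm_113_s3

theorem t74_A00pm_113_s3 : ∃ t, chk3 f_A00pm_113_s3 t 509 1023 1 = true := ex3_b k19_A00pm_113_s3 k20_A00pm_113_s3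

theorem t75_A00pm_113_s3 : ∃ t, chk3 f_A00pm_113_s3 t 254 1023 1 = true := ex3_a k18_A00pm_113_s3 t74_A00pm_113_s3

theorem t76_A00pm_113_s3 : ∃ t, chk3 f_A00pm_113_s3 t 509 1022 1 = true := ex3_a k16_A00pm_113_s3 k17_A00pm_113_s3

theorem t77_A00pm_113_s3 : ∃ t, chk3 f_A00pm_113_s3 t 508 1022 1 = true := ex3_b k14_A00pm_113_s3 k15_A00pm_113_s3

theorem t78_A00pm_113_s3 : ∃ t, chk3 f_A00pm_113_s3 t 254 1022 1 = true := ex3_a t77_A00pm_113_s3 t76_A00pm_113_s3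

theorem t79_A00pm_113_s3 : ∃ t, chk3 f_A00pm_113_s3 t 254 511 1 = true := ex3_b t78_A00pm_113_s3 t75_A00pm_113_s3

theorem t80_A00pm_113_s3 : ∃ t, chk3 f_A00pm_113_s3 t 254 255 1 = true := ex3_b k13_A00pm_113_s3 t79_A00pm_113_s3

theorem t81_A00pm_113_s3 : ∃ t, chk3 f_A00pm_113_s3 t 254 127 1 = true := ex3_b k12_A00pm_113_s3 t80_A00pm_113_s3

theorem t82_A00pm_113_s3 : ∃ t, chk3 f_A00pm_113_s3 t 127 127 1 = true := ex3_a t81_A00pm_113_s3 t73_A00pm_113_s3

theorem t83_A00pm_113_s3 : ∃ t, chk3 f_A00pm_113_s3 t 127 63 1 = true := ex3_b k11_A00pm_113_s3 t82_A00pm_113_s3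

theorem t84_A00pm_113_s3 : ∃ t, chk3 f_A00pm_113_s3 t 63 63 1 = true := ex3_a k10_A00pm_113_s3 t83_A00pm_113_s3

theorem t85_A00pm_113_s3 : ∃ t, chk3 f_A00pm_113_s3 t 63 31 1 = true := ex3_b k9_A00pm_113_s3 t84_A00pm_113_s3

theorem t86_A00pm_113_s3 : ∃ t, chk3 f_A00pm_113_s3 t 31 31 1 = true := ex3_a k8_A00pm_113_s3 t85_A00pm_113_s3

theorem t87_A00pm_113_s3 : ∃ t, chk3 f_A00pm_113_s3 t 31 15 1 = true := ex3_b k7_A00pm_113_s3 t86_A00pm_113_s3

theorem t88_A00pm_113_s3 : ∃ t, chk3 f_A00pm_113_s3 t 15 15 1 = true := ex3_a k6_A00pm_113_s3 t87_A00pm_113_s3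

theorem t89_A00pm_113_s3 : ∃ t, chk3 f_A00pm_113_s3 t 15 7 1 = true := ex3_b k5_A00pm_113_s3 t88_A00pm_113_s3

theorem t90_A00pm_113_s3 : ∃ t, chk3 f_A00pm_113_s3 t 7 7 1 = true := ex3_a k4_A00pm_113_s3 t89_A00pm_113_s3

theorem t91_A00pm_113_s3 : ∃ t, chk3 f_A00pm_113_s3 t 7 3 1 = true := ex3_b k3_A00pm_113_s3 t90_A00pm_113_s3

theorem t92_A00pm_113_s3 : ∃ t, chk3 f_A00pm_113_s3 t 3 3 1 = true := ex3_a k2_A00pm_113_s3 t91_A00pm_113_s3

theorem t93_A00pm_113_s3 : ∃ t, chk3 f_A00pm_113_s3 t 3 1 1 = true := ex3_b k1_A00pm_113_s3 t92_A00pm_113_s3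

theorem t94_A00pm_113_s3 : ∃ t, chk3 f_A00pm_113_s3 t 1 1 1 = true := ex3_a k0_A00pm_113_s3 t93_A00pm_113_s3

theorem c_A00pm_113_s3 : CertF 536870912 536870912 536870912 536870912 1033476505 6710887 true true false .nn 1 1 3
    ndB0q1 ndB0q1 pcB3 cut_A00pm_113_s3 Ext.none :=
  certF0 (fam := true) (s1 := true) (s2 := false) (a := 1) (b := 1) (c := 3) (cn := .nn) (n1 := ndB0q1) (n2 := ndB0q1) (pc := pcB3) (cut := cut_A00pm_113_s3) (xt := Ext.none) (P1 := 536870912) (W1 := 536870912) (P2 := 536870912) (W2 := 536870912) (P3 := 1033476505) (W3 := 6710887)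
    rfl t94_A00pm_113_s3

theorem s_A00pm_113_s3 {κ x : ℝ} (hκ : κ * h0 = ken x) (hx : ((1033476505 : ℕ) : ℝ) / S ≤ x)
    (hx' : x ≤ (((1033476505 : ℕ) : ℝ) + (6710887 : ℕ)) / S)
    (H : CutA (VFD κ) PP tK tL pcB (Cut.of [[⟨0, 1, 0, 20971520⟩, ⟨1, 1, 0, 20971520⟩, ⟨2, 2, 0, 1572864⟩], [⟨0, 0, 1, 46137344⟩, ⟨1, 1, 0, 1048576⟩, ⟨2, 1, 1, 46137344⟩, ⟨0, 0, 0, 1047972020⟩, ⟨0, 1, 0, 45097156⟩, ⟨2, 1, 0, 1047972020⟩, ⟨2, 2, 0, 45097156⟩], [⟨0, 1, 0, 1048576⟩, ⟨1, 0, 1, 46137344⟩, ⟨2, 1, 1, 46137344⟩, ⟨1, 0, 0, 1047972020⟩, ⟨1, 1, 0, 45097156⟩, ⟨2, 1, 0, 1047972020⟩, ⟨2, 2, 0, 45097156⟩]]) 1 1 3 0 0 (sgb true) (sgb false) x) :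
    AltA (VFD κ) PP tK tL pcB [⟨4, 0, 0, 3194381926⟩] 1 1 3 0 0 (sgb true) (sgb false) x :=
  strip_altAD (m := 3194381926) false rfl hκ (SH.κ0 hκ (SH.hx1 hx).le (SH.hx2 hx').le) (SH.hx1 hx).le (SH.hx2 hx') (covB01).cov (covB01).cov hx hx' c_A00pm_113_s3 H (noExt_A)

noncomputable def cut_A00pm_123_s1 : Cut := Cut.of [[⟨4, 0, 0, 1449551462⟩], [⟨0, 1, 0, 20971520⟩, ⟨1, 1, 0, 20971520⟩, ⟨2, 2, 0, 1572864⟩], [⟨0, 0, 1, 46137344⟩, ⟨1, 1, 0, 1048576⟩, ⟨2, 1, 1, 46137344⟩, ⟨0, 0, 0, 1047972020⟩, ⟨0, 1, 0, 45097156⟩, ⟨2, 1, 0, 1047972020⟩, ⟨2, 2, 0, 45097156⟩], [⟨0, 1, 0, 1048576⟩, ⟨1, 0, 1, 46137344⟩, ⟨2, 1, 1, 46137344⟩, ⟨1, 0, 0, 1047972020⟩, ⟨1, 1, 0, 45097156⟩, ⟨2, 1, 0, 1047972020⟩, ⟨2, 2, 0, 45097156⟩]]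

noncomputable def f_A00pm_123_s1 : ℕ → ℕ → ℕ → ℕ → Bool := onCell 536870912 536870912 0 536870912 1033476505 6710887
    (rowF 0 true true false .npn 1 2 3 (qsf 536870912 536870912 0 536870912 3) ndB0q1 ndB0q2 pcB3 cut_A00pm_123_s1 Ext.none)

def k0_A00pm_123_s1 : ∃ t, chk3 f_A00pm_123_s1 t 1 1 1 = true :=
  ⟨(l 6), by decide +kernel⟩

theorem c_A00pm_123_s1 : CertF 536870912 536870912 0 536870912 1033476505 6710887 true true false .npn 1 2 3
    ndB0q1 ndB0q2 pcB3 cut_A00pm_123_s1 Ext.none :=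
  certF0 (fam := true) (s1 := true) (s2 := false) (a := 1) (b := 2) (c := 3) (cn := .npn) (n1 := ndB0q1) (n2 := ndB0q2) (pc := pcB3) (cut := cut_A00pm_123_s1) (xt := Ext.none) (P1 := 536870912) (W1 := 536870912) (P2 := 0) (W2 := 536870912) (P3 := 1033476505) (W3 := 6710887)
    rfl k0_A00pm_123_s1

theorem s_A00pm_123_s1 {κ x : ℝ} (hκ : κ * h0 = ken x) (hx : ((1033476505 : ℕ) : ℝ) / S ≤ x)
    (hx' : x ≤ (((1033476505 : ℕ) : ℝ) + (6710887 : ℕ)) / S)
    (H : CutA (VFD κ) PP tK tL pcB (Cut.of [[⟨0, 1, 0, 20971520⟩, ⟨1, 1, 0, 20971520⟩, ⟨2, 2, 0, 1572864⟩], [⟨0, 0, 1, 46137344⟩, ⟨1, 1, 0, 1048576⟩, ⟨2, 1, 1, 46137344⟩, ⟨0, 0, 0, 1047972020⟩, ⟨0, 1, 0, 45097156⟩, ⟨2, 1, 0, 1047972020⟩, ⟨2, 2, 0, 45097156⟩], [⟨0, 1, 0, 1048576⟩, ⟨1, 0, 1, 46137344⟩, ⟨2, 1, 1, 46137344⟩, ⟨1, 0, 0, 1047972020⟩, ⟨1, 1, 0, 45097156⟩, ⟨2, 1, 0, 1047972020⟩, ⟨2, 2, 0, 45097156⟩]]) 1 2 3 0 0 (sgb true) (sgb false) x) :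
    AltA (VFD κ) PP tK tL pcB [⟨3, 0, 0, 1449551462⟩] 1 2 3 0 0 (sgb true) (sgb false) x :=
  strip_altAD (m := 1449551462) true rfl hκ (SH.κ0 hκ (SH.hx1 hx).le (SH.hx2 hx').le) (SH.hx1 hx).le (SH.hx2 hx') (covB01).cov (covB02).cov hx hx' c_A00pm_123_s1 H (noExt_A)

noncomputable def cut_A00pm_202_s1 : Cut := Cut.of [[⟨4, 0, 0, 1449551462⟩], [⟨0, 1, 0, 26843545⟩, ⟨1, 0, 0, 26843545⟩, ⟨2, 1, 0, 26843545⟩]]

noncomputable def f_A00pm_202_s1 : ℕ → ℕ → ℕ → ℕ → Bool := onCell 0 536870912 1073741824 536870912 1033476505 6710887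
    (rowF 1 true true false .pp 2 0 2 (qsf 0 536870912 0 536870912 2) ndB0q2 ndB0q0 pcB2 cut_A00pm_202_s1 Ext.none)

def k0_A00pm_202_s1 : ∃ t, chk3 f_A00pm_202_s1 t 2 4 1 = true :=
  ⟨(b (l 1) (l 6)), by decide +kernel⟩

def k1_A00pm_202_s1 : ∃ t, chk3 f_A00pm_202_s1 t 3 8 1 = true :=
  ⟨(a (l 1) (b (a (l 1) (b (a (l 1) (l 14)) (b (a (a (l 1) (a (l 1) (l 14))) (l 14)) (a (a (a (l 1) (a (l 1) (b (l 1) (l 16651816)))) (a (b (l 16691568) (l 16700272)) (a (l 16620032) (l 16626680)))) (a (a (b (l 16634024) (l 16725848)) (l 16694248)) (a (l 16687248) (b (l 16644840) (l 16715264)))))))) (a (a (a (l 1) (b (l 1) (l 16300552))) (a (b (l 1) (a (l 16487696) (l 16555696))) (b (a (b (l 1) (l 16587064)) (b (l 16621464) (l 16640496))) (a (l 16537056) (l 16590688))))) (a (a (b (a (a (l 16576368) (l 16595056)) (a (a (l 16610240) (l 16620672)) (b (a (l 16705480) (l 16710472)) (l 16636856)))) (a (l 16578960) (a (l 16557680) (b (l 16560424)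 (l 16609056))))) (b (b (a (l 16629512) (l 16630000)) (a (l 16595496) (l 16679936))) (b (a (l 16643664) (l 16644424)) (a (l 16607200) (l 16608336))))) (a (b (b (a (l 16626928) (l 16621752)) (a (l 16677200) (l 16672688))) (b (l 16608920) (a (l 16606720) (l 16604120)))) (b (b (a (l 16699504) (l 16651680)) (a (l 16667536) (l 16662912))) (a (b (l 16634456) (l 16601800)) (b (l 16631584) (l 16601136))))))))), by decide +kernel⟩

def k2_A00pm_202_s1 : ∃ t, chk3 f_A00pm_202_s1 t 6 9 1 = true :=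
  ⟨(a (b (l 1) (l 6)) (b (a (b (l 1) (l 15996712)) (b (a (l 16066840) (l 16180136)) (a (l 16135640) (l 16249016)))) (a (b (l 16078192) (l 6)) (a (l 16173840) (l 16280960))))), by decide +kernel⟩

def k3_A00pm_202_s1 : ∃ t, chk3 f_A00pm_202_s1 t 7 9 1 = true :=
  ⟨(a (a (b (a (b (l 16306224) (l 16373504)) (b (l 16440232) (l 16420304))) (a (l 16312616) (l 16431208))) (b (a (b (l 16492472) (l 16551640)) (a (b (l 16662824) (l 16590840)) (b (l 16536648) (l 16550288)))) (a (b (l 16516880) (l 16457928)) (b (a (l 16525056) (l 16488736)) (a (l 16395384) (l 16405520)))))) (a (b (a (b (a (l 16592464) (b (l 16581976) (l 16547440))) (a (l 16524600) (b (l 16514664) (l 16484848)))) (b (b (a (l 16570888) (l 16572600)) (a (l 16535640) (l 16538568))) (a (b (l 16502536) (l 16473552)) (b (l 16507440) (l 16480832))))) (a (b (a (l 16468224) (b (l 16459664) (l 16442400))) (a (b (l 16440232) (l 16419880)) (b (l 16424728) (l 16401120))))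 (b (b (a (l 16449736) (b (l 16464464) (l 16456136))) (a (a (l 16430080) (l 16435576)) (l 16441224))) (b (a (a (l 16412536) (l 16413760)) (l 16412048)) (a (b (l 16387088) (l 16362712)) (l 16360464)))))) (b (b (a (b (a (l 16572112) (l 16571064)) (a (l 16539656) (l 16540984))) (b (a (l 16571016) (l 16573416)) (a (l 16543856) (l 16549808)))) (a (b (a (l 16510968) (l 16515176)) (a (l 16487216) (b (l 16500864) (l 16490896)))) (b (a (b (l 16526600) (l 16517816)) (b (l 16536184) (l 16526648))) (a (b (l 16508304) (l 16497984)) (b (l 16515328) (l 16498392)))))) (b (a (b (a (l 16469128) (b (l 16480144) (l 16467752))) (a (l 16444864) (b (l 16449064) (l 16423928)))) (b (a (b (l 16482728) (l 16462200)) (b (l 16474096) (l 16446944))) (a (b (l 16435240) (l 16404384)) (b (l 16414880) (l 16378968))))) (a (b (a (b (l 16412184) (l 16385280)) (b (l 16394848) (l 16361640))) (a (b (l 16354872) (l 16320488)) (l 16310160))) (b (a (l 16352464)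 (l 16324032)) (a (l 16279848) (l 16247704)))))))), by decide +kernel⟩

def k4_A00pm_202_s1 : ∃ t, chk3 f_A00pm_202_s1 t 1 5 1 = true :=
  ⟨(a (l 6) (a (b (b (a (l 6) (a (l 6) (b (l 16340560) (l 6)))) (l 6)) (l 6)) (b (a (a (b (b (a (l 16569208) (l 16425656)) (a (l 16604320) (a (l 16563528) (l 16430576)))) (b (l 6) (l 6))) (b (b (a (a (l 16523952) (l 16477872)) (b (a (l 16447032) (l 16415320)) (a (l 16415016) (l 16372592)))) (a (b (l 16369728) (l 16402616)) (a (b (l 16366864) (l 16305736)) (l 16283440)))) (a (b (l 16307504) (l 6)) (b (l 16097536) (l 15964040))))) (b (a (b (a (a (b (l 16387880) (l 16337984)) (b (l 16356352) (l 16297560))) (b (a (b (l 16334816) (l 16303776)) (l 16296368)) (a (l 16256640) (l 16228656)))) (a (a (l 16244104) (l 16202080)) (b (a (l 16190696) (l 16158256)) (b (l 16121360) (b (l 16094864) (b (b (b (l 16084552) (l 16082616)) (l 16078744)) (l 16072392))))))) (b (a (b (l 16169520) (l 16179960))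 (b (a (l 16203704) (l 16168096)) (l 16105912))) (b (a (l 16103752) (l 16024504)) (b (a (l 16045784) (l 15961816)) (b (a (l 16015264) (l 15927760)) (a (l 15994664) (a (l 15843696) (l 15798248)))))))) (a (a (b (l 16004656) (l 15956328)) (b (l 15916952) (l 15869448))) (a (b (l 15917688) (l 15788992)) (b (l 15744208) (a (l 15725712) (l 15683920))))))) (a (l 6) (a (b (b (a (l 15829776) (l 15746560)) (l 6)) (l 6)) (b (a (b (l 15671544) (a (l 15586504) (l 15469144))) (b (a (l 15530176) (l 15493032)) (a (l 15436248) (b (l 15509016) (l 15386728))))) (a (l 6) (b (a (l 6) (b (a (l 6) (l 15432440)) (l 6))) (l 6))))))))), by decide +kernel⟩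

def k5_A00pm_202_s1 : ∃ t, chk3 f_A00pm_202_s1 t 1 3 1 = true :=
  ⟨(a (l 6) (l 6)), by decide +kernel⟩

theorem t6_A00pm_202_s1 : ∃ t, chk3 f_A00pm_202_s1 t 3 9 1 = true := ex3_a k2_A00pm_202_s1 k3_A00pm_202_s1

theorem t7_A00pm_202_s1 : ∃ t, chk3 f_A00pm_202_s1 t 3 4 1 = true := ex3_b k1_A00pm_202_s1 t6_A00pm_202_s1

theorem t8_A00pm_202_s1 : ∃ t, chk3 f_A00pm_202_s1 t 1 4 1 = true := ex3_a k0_A00pm_202_s1 t7_A00pm_202_s1

theorem t9_A00pm_202_s1 : ∃ t, chk3 f_A00pm_202_s1 t 1 2 1 = true := ex3_b t8_A00pm_202_s1 k4_A00pm_202_s1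

theorem t10_A00pm_202_s1 : ∃ t, chk3 f_A00pm_202_s1 t 1 1 1 = true := ex3_b t9_A00pm_202_s1 k5_A00pm_202_s1

theorem c_A00pm_202_s1 : CertF 0 536870912 0 536870912 1033476505 6710887 true true false .pp 2 0 2
    ndB0q2 ndB0q0 pcB2 cut_A00pm_202_s1 Ext.none :=
  certF1 (fam := true) (s1 := true) (s2 := false) (a := 2) (b := 0) (c := 2) (cn := .pp) (n1 := ndB0q2) (n2 := ndB0q0) (pc := pcB2) (cut := cut_A00pm_202_s1) (xt := Ext.none) (P1 := 0) (W1 := 536870912) (P2 := 0) (W2 := 536870912) (P3 := 1033476505) (W3 := 6710887)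
    rfl (fun _ => rfl) t10_A00pm_202_s1

theorem s_A00pm_202_s1 {κ x : ℝ} (hκ : κ * h0 = ken x) (hx : ((1033476505 : ℕ) : ℝ) / S ≤ x)
    (hx' : x ≤ (((1033476505 : ℕ) : ℝ) + (6710887 : ℕ)) / S)
    (H : CutA (VFD κ) PP tK tL pcB (Cut.of [[⟨0, 1, 0, 26843545⟩, ⟨1, 0, 0, 26843545⟩, ⟨2, 1, 0, 26843545⟩]]) 2 0 2 0 0 (sgb true) (sgb false) x) :
    AltA (VFD κ) PP tK tL pcB [⟨3, 0, 0, 1449551462⟩] 2 0 2 0 0 (sgb true) (sgb false) x :=
  strip_altAD (m := 1449551462) true rfl hκ (SH.κ0 hκ (SH.hx1 hx).le (SH.hx2 hx').le) (SH.hx1 hx).le (SH.hx2 hx') (covB02).cov (covB00).cov hx hx' c_A00pm_202_s1 H (noExt_A)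

noncomputable def cut_A00pm_202_s3 : Cut := Cut.of [[⟨3, 0, 0, 2845415833⟩], [⟨0, 1, 0, 26843545⟩, ⟨1, 0, 0, 26843545⟩, ⟨2, 1, 0, 26843545⟩]]

noncomputable def f_A00pm_202_s3 : ℕ → ℕ → ℕ → ℕ → Bool := onCell 0 536870912 1073741824 536870912 1033476505 6710887
    (rowF 1 true true false .pp 2 0 2 (qsf 0 536870912 0 536870912 2) ndB0q2 ndB0q0 pcB2 cut_A00pm_202_s3 Ext.none)

def k0_A00pm_202_s3 : ∃ t, chk3 f_A00pm_202_s3 t 1 1 1 = true :=
  ⟨(b (l 6) (a (l 6) (l 6))), by decide +kernel⟩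

theorem c_A00pm_202_s3 : CertF 0 536870912 0 536870912 1033476505 6710887 true true false .pp 2 0 2
    ndB0q2 ndB0q0 pcB2 cut_A00pm_202_s3 Ext.none :=
  certF1 (fam := true) (s1 := true) (s2 := false) (a := 2) (b := 0) (c := 2) (cn := .pp) (n1 := ndB0q2) (n2 := ndB0q0) (pc := pcB2) (cut := cut_A00pm_202_s3) (xt := Ext.none) (P1 := 0) (W1 := 536870912) (P2 := 0) (W2 := 536870912) (P3 := 1033476505) (W3 := 6710887)
    rfl (fun _ => rfl) k0_A00pm_202_s3

theorem s_A00pm_202_s3 {κ x : ℝ} (hκ : κ * h0 = ken x) (hx : ((1033476505 : ℕ) : ℝ) / S ≤ x)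
    (hx' : x ≤ (((1033476505 : ℕ) : ℝ) + (6710887 : ℕ)) / S)
    (H : CutA (VFD κ) PP tK tL pcB (Cut.of [[⟨0, 1, 0, 26843545⟩, ⟨1, 0, 0, 26843545⟩, ⟨2, 1, 0, 26843545⟩]]) 2 0 2 0 0 (sgb true) (sgb false) x) :
    AltA (VFD κ) PP tK tL pcB [⟨4, 0, 0, 2845415833⟩] 2 0 2 0 0 (sgb true) (sgb false) x :=
  strip_altAD (m := 2845415833) false rfl hκ (SH.κ0 hκ (SH.hx1 hx).le (SH.hx2 hx').le) (SH.hx1 hx).le (SH.hx2 hx') (covB02).cov (covB00).cov hx hx' c_A00pm_202_s3 H (noExt_A)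

noncomputable def cut_A00pm_203_s1 : Cut := Cut.of [[⟨4, 0, 0, 1449551462⟩]]

noncomputable def f_A00pm_203_s1 : ℕ → ℕ → ℕ → ℕ → Bool := onCell 0 536870912 1610612736 536870912 1033476505 6710887
    (rowF 1 true true false .up 2 0 3 (qsf 0 536870912 0 536870912 3) ndB0q2 ndB0q0 pcB3 cut_A00pm_203_s1 Ext.none)

def k0_A00pm_203_s1 : ∃ t, chk3 f_A00pm_203_s1 t 1 1 1 = true :=
  ⟨(l 6), by decide +kernel⟩

theorem c_A00pm_203_s1 : CertF 0 536870912 0 536870912 1033476505 6710887 true true false .up 2 0 3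
    ndB0q2 ndB0q0 pcB3 cut_A00pm_203_s1 Ext.none :=
  certF1 (fam := true) (s1 := true) (s2 := false) (a := 2) (b := 0) (c := 3) (cn := .up) (n1 := ndB0q2) (n2 := ndB0q0) (pc := pcB3) (cut := cut_A00pm_203_s1) (xt := Ext.none) (P1 := 0) (W1 := 536870912) (P2 := 0) (W2 := 536870912) (P3 := 1033476505) (W3 := 6710887)
    rfl (fun _ => rfl) k0_A00pm_203_s1

theorem s_A00pm_203_s1 {κ x : ℝ} (hκ : κ * h0 = ken x) (hx : ((1033476505 : ℕ) : ℝ) / S ≤ x)
    (hx' : x ≤ (((1033476505 : ℕ) : ℝ) + (6710887 : ℕ)) / S) :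
    AltA (VFD κ) PP tK tL pcB [⟨3, 0, 0, 1449551462⟩] 2 0 3 0 0 (sgb true) (sgb false) x :=
  strip_altAD (m := 1449551462) true rfl hκ (SH.κ0 hκ (SH.hx1 hx).le (SH.hx2 hx').le) (SH.hx1 hx).le (SH.hx2 hx') (covB02).cov (covB00).cov hx hx' c_A00pm_203_s1 cutA_nil (noExt_A)

noncomputable def cut_A00pm_203_s3 : Cut := Cut.of [[⟨3, 0, 0, 2845415833⟩]]

noncomputable def xt_A00pm_203_s3 : Ext := strExt dd true true false .u2 .u0m .s2m .up 2 0 3 rfl rfl gl3 vv ndB0q2 ndB0q0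

noncomputable def f_A00pm_203_s3 : ℕ → ℕ → ℕ → ℕ → Bool := onCell 0 536870912 1610612736 536870912 1033476505 6710887
    (rowF 1 true true false .up 2 0 3 (qsf 0 536870912 0 536870912 3) ndB0q2 ndB0q0 pcB3 cut_A00pm_203_s3 xt_A00pm_203_s3)

def k0_A00pm_203_s3 : ∃ t, chk3 f_A00pm_203_s3 t 1 1 1 = true :=
  ⟨(b (a (b (a (b (a (a (b (b (l 6) (b (l 6) (l 15082744))) (b (a (l 15246152) (l 15106104)) (a (l 15371896) (l 15234048)))) (b (l 6) (l 6))) (l 6)) (a (b (b (a (a (l 15499496) (l 15364160)) (a (l 15227880) (l 6))) (a (l 15477888) (l 15294696))) (b (a (l 511304207) (l 15431072)) (a (l 511669775) (b (l 15533336) (l 15601480))))) (b (l 6) (a (b (a (l 15232440) (l 6)) (b (l 15312512) (l 15343656))) (l 6))))) (l 6)) (b (a (a (b (b (a (l 512101647) (l 511688463)) (a (l 512605455) (a (l 512300303) (l 15819856)))) (l 2)) (b (a (b (b (l 15415064) (l 15486496)) (b (l 15557992) (l 15629384))) (b (a (a (l 15290432) (b (l 6)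 (a (l 15278992) (l 15166880)))) (l 15166800)) (a (l 15406936) (b (a (a (l 15207632) (l 15198592)) (l 15293312)) (l 2))))) (l 2))) (a (b (a (l 208940581495) (l 6)) (l 2)) (l 6))) (l 2))) (a (b (l 6) (l 2)) (l 6))) (l 2)), by decide +kernel⟩

theorem c_A00pm_203_s3 : CertF 0 536870912 0 536870912 1033476505 6710887 true true false .up 2 0 3
    ndB0q2 ndB0q0 pcB3 cut_A00pm_203_s3 xt_A00pm_203_s3 :=
  certF1 (fam := true) (s1 := true) (s2 := false) (a := 2) (b := 0) (c := 3) (cn := .up) (n1 := ndB0q2) (n2 := ndB0q0) (pc := pcB3) (cut := cut_A00pm_203_s3) (xt := xt_A00pm_203_s3) (P1 := 0) (W1 := 536870912) (P2 := 0) (W2 := 536870912) (P3 := 1033476505) (W3 := 6710887)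
    rfl (fun _ => rfl) k0_A00pm_203_s3

theorem s_A00pm_203_s3 {κ x : ℝ} (hκ : κ * h0 = ken x) (hx : ((1033476505 : ℕ) : ℝ) / S ≤ x)
    (hx' : x ≤ (((1033476505 : ℕ) : ℝ) + (6710887 : ℕ)) / S) :
    AltA (VFD κ) PP tK tL pcB [⟨4, 0, 0, 2845415833⟩] 2 0 3 0 0 (sgb true) (sgb false) x :=
  strip_altAD (m := 2845415833) false rfl hκ (SH.κ0 hκ (SH.hx1 hx).le (SH.hx2 hx').le) (SH.hx1 hx).le (SH.hx2 hx') (covB02).cov (covB00).cov hx hx' c_A00pm_203_s3 cutA_nil ((okx hx hx').extA (T := tt) (sideB hx hx') hκ rfl rfl (.O 2 true) (.O 0 false) (Or.inr rfl))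

noncomputable def cut_A00pm_213_s1 : Cut := Cut.of [[⟨4, 0, 0, 1449551462⟩], [⟨0, 1, 0, 20971520⟩, ⟨1, 1, 0, 20971520⟩, ⟨2, 2, 0, 1572864⟩], [⟨0, 0, 1, 46137344⟩, ⟨1, 1, 0, 1048576⟩, ⟨2, 1, 1, 46137344⟩, ⟨0, 0, 0, 1047972020⟩, ⟨0, 1, 0, 45097156⟩, ⟨2, 1, 0, 1047972020⟩, ⟨2, 2, 0, 45097156⟩], [⟨0, 1, 0, 1048576⟩, ⟨1, 0, 1, 46137344⟩, ⟨2, 1, 1, 46137344⟩, ⟨1, 0, 0, 1047972020⟩, ⟨1, 1, 0, 45097156⟩, ⟨2, 1, 0, 1047972020⟩, ⟨2, 2, 0, 45097156⟩]]

noncomputable def f_A00pm_213_s1 : ℕ → ℕ → ℕ → ℕ → Bool := onCell 0 536870912 536870912 536870912 1033476505 6710887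
    (rowF 0 true true false .pnn 2 1 3 (qsf 0 536870912 536870912 536870912 3) ndB0q2 ndB0q1 pcB3 cut_A00pm_213_s1 Ext.none)

def k0_A00pm_213_s1 : ∃ t, chk3 f_A00pm_213_s1 t 1 1 1 = true :=
  ⟨(l 6), by decide +kernel⟩

theorem c_A00pm_213_s1 : CertF 0 536870912 536870912 536870912 1033476505 6710887 true true false .pnn 2 1 3
    ndB0q2 ndB0q1 pcB3 cut_A00pm_213_s1 Ext.none :=
  certF0 (fam := true) (s1 := true) (s2 := false) (a := 2) (b := 1) (c := 3) (cn := .pnn) (n1 := ndB0q2) (n2 := ndB0q1) (pc := pcB3) (cut := cut_A00pm_213_s1) (xt := Ext.none) (P1 := 0) (W1 := 536870912) (P2 := 536870912) (W2 := 536870912) (P3 := 1033476505) (W3 := 6710887)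
    rfl k0_A00pm_213_s1

theorem s_A00pm_213_s1 {κ x : ℝ} (hκ : κ * h0 = ken x) (hx : ((1033476505 : ℕ) : ℝ) / S ≤ x)
    (hx' : x ≤ (((1033476505 : ℕ) : ℝ) + (6710887 : ℕ)) / S)
    (H : CutA (VFD κ) PP tK tL pcB (Cut.of [[⟨0, 1, 0, 20971520⟩, ⟨1, 1, 0, 20971520⟩, ⟨2, 2, 0, 1572864⟩], [⟨0, 0, 1, 46137344⟩, ⟨1, 1, 0, 1048576⟩, ⟨2, 1, 1, 46137344⟩, ⟨0, 0, 0, 1047972020⟩, ⟨0, 1, 0, 45097156⟩, ⟨2, 1, 0, 1047972020⟩, ⟨2, 2, 0, 45097156⟩], [⟨0, 1, 0, 1048576⟩, ⟨1, 0, 1, 46137344⟩, ⟨2, 1, 1, 46137344⟩, ⟨1, 0, 0, 1047972020⟩, ⟨1, 1, 0, 45097156⟩, ⟨2, 1, 0, 1047972020⟩, ⟨2, 2, 0, 45097156⟩]]) 2 1 3 0 0 (sgb true) (sgb false) x) :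
    AltA (VFD κ) PP tK tL pcB [⟨3, 0, 0, 1449551462⟩] 2 1 3 0 0 (sgb true) (sgb false) x :=
  strip_altAD (m := 1449551462) true rfl hκ (SH.κ0 hκ (SH.hx1 hx).le (SH.hx2 hx').le) (SH.hx1 hx).le (SH.hx2 hx') (covB02).cov (covB01).cov hx hx' c_A00pm_213_s1 H (noExt_A)

noncomputable def cut_A00mm_001_s1 : Cut := Cut.of [[⟨4, 0, 0, 1449551462⟩]]

noncomputable def f_A00mm_001_s1 : ℕ → ℕ → ℕ → ℕ → Bool := onCell 0 536870912 0 536870912 1033476505 6710887
    (rowF 0 true false false .up 0 0 1 (qsf 0 536870912 0 536870912 1) ndB0q0 ndB0q0 pcB1 cut_A00mm_001_s1 Ext.none)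

def k0_A00mm_001_s1 : ∃ t, chk3 f_A00mm_001_s1 t 1 1 1 = true :=
  ⟨(l 4), by decide +kernel⟩

theorem c_A00mm_001_s1 : CertF 0 536870912 0 536870912 1033476505 6710887 true false false .up 0 0 1
    ndB0q0 ndB0q0 pcB1 cut_A00mm_001_s1 Ext.none :=
  certF0 (fam := true) (s1 := false) (s2 := false) (a := 0) (b := 0) (c := 1) (cn := .up) (n1 := ndB0q0) (n2 := ndB0q0) (pc := pcB1) (cut := cut_A00mm_001_s1) (xt := Ext.none) (P1 := 0) (W1 := 536870912) (P2 := 0) (W2 := 536870912) (P3 := 1033476505) (W3 := 6710887)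
    rfl k0_A00mm_001_s1

theorem s_A00mm_001_s1 {κ x : ℝ} (hκ : κ * h0 = ken x) (hx : ((1033476505 : ℕ) : ℝ) / S ≤ x)
    (hx' : x ≤ (((1033476505 : ℕ) : ℝ) + (6710887 : ℕ)) / S) :
    AltA (VFD κ) PP tK tL pcB [⟨3, 0, 0, 1449551462⟩] 0 0 1 0 0 (sgb false) (sgb false) x :=
  strip_altAD (m := 1449551462) true rfl hκ (SH.κ0 hκ (SH.hx1 hx).le (SH.hx2 hx').le) (SH.hx1 hx).le (SH.hx2 hx') (covB00).cov (covB00).cov hx hx' c_A00mm_001_s1 cutA_nil (noExt_A)

noncomputable def cut_A00mm_001_s3 : Cut := Cut.of [[⟨3, 0, 0, 2845415833⟩]]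

noncomputable def f_A00mm_001_s3 : ℕ → ℕ → ℕ → ℕ → Bool := onCell 0 536870912 0 536870912 1033476505 6710887
    (rowF 0 true false false .up 0 0 1 (qsf 0 536870912 0 536870912 1) ndB0q0 ndB0q0 pcB1 cut_A00mm_001_s3 Ext.none)

def k0_A00mm_001_s3 : ∃ t, chk3 f_A00mm_001_s3 t 1 1 1 = true :=
  ⟨(l 4), by decide +kernel⟩

theorem c_A00mm_001_s3 : CertF 0 536870912 0 536870912 1033476505 6710887 true false false .up 0 0 1
    ndB0q0 ndB0q0 pcB1 cut_A00mm_001_s3 Ext.none :=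
  certF0 (fam := true) (s1 := false) (s2 := false) (a := 0) (b := 0) (c := 1) (cn := .up) (n1 := ndB0q0) (n2 := ndB0q0) (pc := pcB1) (cut := cut_A00mm_001_s3) (xt := Ext.none) (P1 := 0) (W1 := 536870912) (P2 := 0) (W2 := 536870912) (P3 := 1033476505) (W3 := 6710887)
    rfl k0_A00mm_001_s3

theorem s_A00mm_001_s3 {κ x : ℝ} (hκ : κ * h0 = ken x) (hx : ((1033476505 : ℕ) : ℝ) / S ≤ x)
    (hx' : x ≤ (((1033476505 : ℕ) : ℝ) + (6710887 : ℕ)) / S) :
    AltA (VFD κ) PP tK tL pcB [⟨4, 0, 0, 2845415833⟩] 0 0 1 0 0 (sgb false) (sgb false) x :=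
  strip_altAD (m := 2845415833) false rfl hκ (SH.κ0 hκ (SH.hx1 hx).le (SH.hx2 hx').le) (SH.hx1 hx).le (SH.hx2 hx') (covB00).cov (covB00).cov hx hx' c_A00mm_001_s3 cutA_nil (noExt_A)

noncomputable def cut_A00mm_011_s1 : Cut := Cut.of [[⟨4, 0, 0, 1449551462⟩]]

noncomputable def f_A00mm_011_s1 : ℕ → ℕ → ℕ → ℕ → Bool := onCell 0 536870912 536870912 536870912 1033476505 6710887
    (rowF 0 true false false .pnn 0 1 1 (qsf 0 536870912 536870912 536870912 1) ndB0q0 ndB0q1 pcB1 cut_A00mm_011_s1 Ext.none)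

def k0_A00mm_011_s1 : ∃ t, chk3 f_A00mm_011_s1 t 1 1 1 = true :=
  ⟨(l 6), by decide +kernel⟩

theorem c_A00mm_011_s1 : CertF 0 536870912 536870912 536870912 1033476505 6710887 true false false .pnn 0 1 1
    ndB0q0 ndB0q1 pcB1 cut_A00mm_011_s1 Ext.none :=
  certF0 (fam := true) (s1 := false) (s2 := false) (a := 0) (b := 1) (c := 1) (cn := .pnn) (n1 := ndB0q0) (n2 := ndB0q1) (pc := pcB1) (cut := cut_A00mm_011_s1) (xt := Ext.none) (P1 := 0) (W1 := 536870912) (P2 := 536870912) (W2 := 536870912) (P3 := 1033476505) (W3 := 6710887)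
    rfl k0_A00mm_011_s1

theorem s_A00mm_011_s1 {κ x : ℝ} (hκ : κ * h0 = ken x) (hx : ((1033476505 : ℕ) : ℝ) / S ≤ x)
    (hx' : x ≤ (((1033476505 : ℕ) : ℝ) + (6710887 : ℕ)) / S) :
    AltA (VFD κ) PP tK tL pcB [⟨3, 0, 0, 1449551462⟩] 0 1 1 0 0 (sgb false) (sgb false) x :=
  strip_altAD (m := 1449551462) true rfl hκ (SH.κ0 hκ (SH.hx1 hx).le (SH.hx2 hx').le) (SH.hx1 hx).le (SH.hx2 hx') (covB00).cov (covB01).cov hx hx' c_A00mm_011_s1 cutA_nil (noExt_A)

noncomputable def cut_A00mm_011_s3 : Cut := Cut.of [[⟨3, 0, 0, 2845415833⟩]]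

noncomputable def f_A00mm_011_s3 : ℕ → ℕ → ℕ → ℕ → Bool := onCell 0 536870912 536870912 536870912 1033476505 6710887
    (rowF 0 true false false .pnn 0 1 1 (qsf 0 536870912 536870912 536870912 1) ndB0q0 ndB0q1 pcB1 cut_A00mm_011_s3 Ext.none)

def k0_A00mm_011_s3 : ∃ t, chk3 f_A00mm_011_s3 t 1 1 1 = true :=
  ⟨(b (l 4) (l 5)), by decide +kernel⟩

theorem c_A00mm_011_s3 : CertF 0 536870912 536870912 536870912 1033476505 6710887 true false false .pnn 0 1 1
    ndB0q0 ndB0q1 pcB1 cut_A00mm_011_s3 Ext.none :=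
  certF0 (fam := true) (s1 := false) (s2 := false) (a := 0) (b := 1) (c := 1) (cn := .pnn) (n1 := ndB0q0) (n2 := ndB0q1) (pc := pcB1) (cut := cut_A00mm_011_s3) (xt := Ext.none) (P1 := 0) (W1 := 536870912) (P2 := 536870912) (W2 := 536870912) (P3 := 1033476505) (W3 := 6710887)
    rfl k0_A00mm_011_s3

theorem s_A00mm_011_s3 {κ x : ℝ} (hκ : κ * h0 = ken x) (hx : ((1033476505 : ℕ) : ℝ) / S ≤ x)
    (hx' : x ≤ (((1033476505 : ℕ) : ℝ) + (6710887 : ℕ)) / S) :
    AltA (VFD κ) PP tK tL pcB [⟨4, 0, 0, 2845415833⟩] 0 1 1 0 0 (sgb false) (sgb false) x :=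
  strip_altAD (m := 2845415833) false rfl hκ (SH.κ0 hκ (SH.hx1 hx).le (SH.hx2 hx').le) (SH.hx1 hx).le (SH.hx2 hx') (covB00).cov (covB01).cov hx hx' c_A00mm_011_s3 cutA_nil (noExt_A)

noncomputable def cut_A00mm_012_s1 : Cut := Cut.of [[⟨4, 0, 0, 1449551462⟩]]

noncomputable def f_A00mm_012_s1 : ℕ → ℕ → ℕ → ℕ → Bool := onCell 0 536870912 536870912 536870912 1033476505 6710887
    (rowF 0 true false false .pnp 0 1 2 (qsf 0 536870912 536870912 536870912 2) ndB0q0 ndB0q1 pcB2 cut_A00mm_012_s1 Ext.none)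

def k0_A00mm_012_s1 : ∃ t, chk3 f_A00mm_012_s1 t 1 1 1 = true :=
  ⟨(l 6), by decide +kernel⟩

theorem c_A00mm_012_s1 : CertF 0 536870912 536870912 536870912 1033476505 6710887 true false false .pnp 0 1 2
    ndB0q0 ndB0q1 pcB2 cut_A00mm_012_s1 Ext.none :=
  certF0 (fam := true) (s1 := false) (s2 := false) (a := 0) (b := 1) (c := 2) (cn := .pnp) (n1 := ndB0q0) (n2 := ndB0q1) (pc := pcB2) (cut := cut_A00mm_012_s1) (xt := Ext.none) (P1 := 0) (W1 := 536870912) (P2 := 536870912) (W2 := 536870912) (P3 := 1033476505) (W3 := 6710887)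
    rfl k0_A00mm_012_s1

theorem s_A00mm_012_s1 {κ x : ℝ} (hκ : κ * h0 = ken x) (hx : ((1033476505 : ℕ) : ℝ) / S ≤ x)
    (hx' : x ≤ (((1033476505 : ℕ) : ℝ) + (6710887 : ℕ)) / S) :
    AltA (VFD κ) PP tK tL pcB [⟨3, 0, 0, 1449551462⟩] 0 1 2 0 0 (sgb false) (sgb false) x :=
  strip_altAD (m := 1449551462) true rfl hκ (SH.κ0 hκ (SH.hx1 hx).le (SH.hx2 hx').le) (SH.hx1 hx).le (SH.hx2 hx') (covB00).cov (covB01).cov hx hx' c_A00mm_012_s1 cutA_nil (noExt_A)

noncomputable def cut_A00mm_012_s3 : Cut := Cut.of [[⟨3, 0, 0, 2845415833⟩]]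

noncomputable def f_A00mm_012_s3 : ℕ → ℕ → ℕ → ℕ → Bool := onCell 0 536870912 536870912 536870912 1033476505 6710887
    (rowF 0 true false false .pnp 0 1 2 (qsf 0 536870912 536870912 536870912 2) ndB0q0 ndB0q1 pcB2 cut_A00mm_012_s3 Ext.none)

def k0_A00mm_012_s3 : ∃ t, chk3 f_A00mm_012_s3 t 1 1 1 = true :=
  ⟨(b (l 4) (l 5)), by decide +kernel⟩

theorem c_A00mm_012_s3 : CertF 0 536870912 536870912 536870912 1033476505 6710887 true false false .pnp 0 1 2
    ndB0q0 ndB0q1 pcB2 cut_A00mm_012_s3 Ext.none :=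
  certF0 (fam := true) (s1 := false) (s2 := false) (a := 0) (b := 1) (c := 2) (cn := .pnp) (n1 := ndB0q0) (n2 := ndB0q1) (pc := pcB2) (cut := cut_A00mm_012_s3) (xt := Ext.none) (P1 := 0) (W1 := 536870912) (P2 := 536870912) (W2 := 536870912) (P3 := 1033476505) (W3 := 6710887)
    rfl k0_A00mm_012_s3

theorem s_A00mm_012_s3 {κ x : ℝ} (hκ : κ * h0 = ken x) (hx : ((1033476505 : ℕ) : ℝ) / S ≤ x)
    (hx' : x ≤ (((1033476505 : ℕ) : ℝ) + (6710887 : ℕ)) / S) :
    AltA (VFD κ) PP tK tL pcB [⟨4, 0, 0, 2845415833⟩] 0 1 2 0 0 (sgb false) (sgb false) x :=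
  strip_altAD (m := 2845415833) false rfl hκ (SH.κ0 hκ (SH.hx1 hx).le (SH.hx2 hx').le) (SH.hx1 hx).le (SH.hx2 hx') (covB00).cov (covB01).cov hx hx' c_A00mm_012_s3 cutA_nil (noExt_A)

noncomputable def cut_A00mm_022_s1 : Cut := Cut.of [[⟨4, 0, 0, 1449551462⟩]]

noncomputable def f_A00mm_022_s1 : ℕ → ℕ → ℕ → ℕ → Bool := onCell 0 536870912 0 536870912 1033476505 6710887
    (rowF 0 true false false .pp 0 2 2 (qsf 0 536870912 0 536870912 2) ndB0q0 ndB0q2 pcB2 cut_A00mm_022_s1 Ext.none)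

def k0_A00mm_022_s1 : ∃ t, chk3 f_A00mm_022_s1 t 1 1 1 = true :=
  ⟨(l 5), by decide +kernel⟩

theorem c_A00mm_022_s1 : CertF 0 536870912 0 536870912 1033476505 6710887 true false false .pp 0 2 2
    ndB0q0 ndB0q2 pcB2 cut_A00mm_022_s1 Ext.none :=
  certF0 (fam := true) (s1 := false) (s2 := false) (a := 0) (b := 2) (c := 2) (cn := .pp) (n1 := ndB0q0) (n2 := ndB0q2) (pc := pcB2) (cut := cut_A00mm_022_s1) (xt := Ext.none) (P1 := 0) (W1 := 536870912) (P2 := 0) (W2 := 536870912) (P3 := 1033476505) (W3 := 6710887)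
    rfl k0_A00mm_022_s1

theorem s_A00mm_022_s1 {κ x : ℝ} (hκ : κ * h0 = ken x) (hx : ((1033476505 : ℕ) : ℝ) / S ≤ x)
    (hx' : x ≤ (((1033476505 : ℕ) : ℝ) + (6710887 : ℕ)) / S) :
    AltA (VFD κ) PP tK tL pcB [⟨3, 0, 0, 1449551462⟩] 0 2 2 0 0 (sgb false) (sgb false) x :=
  strip_altAD (m := 1449551462) true rfl hκ (SH.κ0 hκ (SH.hx1 hx).le (SH.hx2 hx').le) (SH.hx1 hx).le (SH.hx2 hx') (covB00).cov (covB02).cov hx hx' c_A00mm_022_s1 cutA_nil (noExt_A)

noncomputable def cut_A00mm_022_s3 : Cut := Cut.of [[⟨3, 0, 0, 2845415833⟩]]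

noncomputable def f_A00mm_022_s3 : ℕ → ℕ → ℕ → ℕ → Bool := onCell 0 536870912 0 536870912 1033476505 6710887
    (rowF 0 true false false .pp 0 2 2 (qsf 0 536870912 0 536870912 2) ndB0q0 ndB0q2 pcB2 cut_A00mm_022_s3 Ext.none)

def k0_A00mm_022_s3 : ∃ t, chk3 f_A00mm_022_s3 t 1 1 1 = true :=
  ⟨(l 5), by decide +kernel⟩

theorem c_A00mm_022_s3 : CertF 0 536870912 0 536870912 1033476505 6710887 true false false .pp 0 2 2
    ndB0q0 ndB0q2 pcB2 cut_A00mm_022_s3 Ext.none :=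
  certF0 (fam := true) (s1 := false) (s2 := false) (a := 0) (b := 2) (c := 2) (cn := .pp) (n1 := ndB0q0) (n2 := ndB0q2) (pc := pcB2) (cut := cut_A00mm_022_s3) (xt := Ext.none) (P1 := 0) (W1 := 536870912) (P2 := 0) (W2 := 536870912) (P3 := 1033476505) (W3 := 6710887)
    rfl k0_A00mm_022_s3

theorem s_A00mm_022_s3 {κ x : ℝ} (hκ : κ * h0 = ken x) (hx : ((1033476505 : ℕ) : ℝ) / S ≤ x)
    (hx' : x ≤ (((1033476505 : ℕ) : ℝ) + (6710887 : ℕ)) / S) :
    AltA (VFD κ) PP tK tL pcB [⟨4, 0, 0, 2845415833⟩] 0 2 2 0 0 (sgb false) (sgb false) x :=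
  strip_altAD (m := 2845415833) false rfl hκ (SH.κ0 hκ (SH.hx1 hx).le (SH.hx2 hx').le) (SH.hx1 hx).le (SH.hx2 hx') (covB00).cov (covB02).cov hx hx' c_A00mm_022_s3 cutA_nil (noExt_A)

noncomputable def cut_A00mm_023_s1 : Cut := Cut.of [[⟨4, 0, 0, 1449551462⟩]]

noncomputable def f_A00mm_023_s1 : ℕ → ℕ → ℕ → ℕ → Bool := onCell 0 536870912 0 536870912 1033476505 6710887
    (rowF 0 true false false .up 0 2 3 (qsf 0 536870912 0 536870912 3) ndB0q0 ndB0q2 pcB3 cut_A00mm_023_s1 Ext.none)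

def k0_A00mm_023_s1 : ∃ t, chk3 f_A00mm_023_s1 t 1 1 1 = true :=
  ⟨(l 5), by decide +kernel⟩

theorem c_A00mm_023_s1 : CertF 0 536870912 0 536870912 1033476505 6710887 true false false .up 0 2 3
    ndB0q0 ndB0q2 pcB3 cut_A00mm_023_s1 Ext.none :=
  certF0 (fam := true) (s1 := false) (s2 := false) (a := 0) (b := 2) (c := 3) (cn := .up) (n1 := ndB0q0) (n2 := ndB0q2) (pc := pcB3) (cut := cut_A00mm_023_s1) (xt := Ext.none) (P1 := 0) (W1 := 536870912) (P2 := 0) (W2 := 536870912) (P3 := 1033476505) (W3 := 6710887)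
    rfl k0_A00mm_023_s1

theorem s_A00mm_023_s1 {κ x : ℝ} (hκ : κ * h0 = ken x) (hx : ((1033476505 : ℕ) : ℝ) / S ≤ x)
    (hx' : x ≤ (((1033476505 : ℕ) : ℝ) + (6710887 : ℕ)) / S) :
    AltA (VFD κ) PP tK tL pcB [⟨3, 0, 0, 1449551462⟩] 0 2 3 0 0 (sgb false) (sgb false) x :=
  strip_altAD (m := 1449551462) true rfl hκ (SH.κ0 hκ (SH.hx1 hx).le (SH.hx2 hx').le) (SH.hx1 hx).le (SH.hx2 hx') (covB00).cov (covB02).cov hx hx' c_A00mm_023_s1 cutA_nil (noExt_A)

noncomputable def cut_A00mm_023_s3 : Cut := Cut.of [[⟨3, 0, 0, 2845415833⟩]]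

noncomputable def f_A00mm_023_s3 : ℕ → ℕ → ℕ → ℕ → Bool := onCell 0 536870912 0 536870912 1033476505 6710887
    (rowF 0 true false false .up 0 2 3 (qsf 0 536870912 0 536870912 3) ndB0q0 ndB0q2 pcB3 cut_A00mm_023_s3 Ext.none)

def k0_A00mm_023_s3 : ∃ t, chk3 f_A00mm_023_s3 t 1 1 1 = true :=
  ⟨(l 5), by decide +kernel⟩

theorem c_A00mm_023_s3 : CertF 0 536870912 0 536870912 1033476505 6710887 true false false .up 0 2 3
    ndB0q0 ndB0q2 pcB3 cut_A00mm_023_s3 Ext.none :=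
  certF0 (fam := true) (s1 := false) (s2 := false) (a := 0) (b := 2) (c := 3) (cn := .up) (n1 := ndB0q0) (n2 := ndB0q2) (pc := pcB3) (cut := cut_A00mm_023_s3) (xt := Ext.none) (P1 := 0) (W1 := 536870912) (P2 := 0) (W2 := 536870912) (P3 := 1033476505) (W3 := 6710887)
    rfl k0_A00mm_023_s3

theorem s_A00mm_023_s3 {κ x : ℝ} (hκ : κ * h0 = ken x) (hx : ((1033476505 : ℕ) : ℝ) / S ≤ x)
    (hx' : x ≤ (((1033476505 : ℕ) : ℝ) + (6710887 : ℕ)) / S) :
    AltA (VFD κ) PP tK tL pcB [⟨4, 0, 0, 2845415833⟩] 0 2 3 0 0 (sgb false) (sgb false) x :=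
  strip_altAD (m := 2845415833) false rfl hκ (SH.κ0 hκ (SH.hx1 hx).le (SH.hx2 hx').le) (SH.hx1 hx).le (SH.hx2 hx') (covB00).cov (covB02).cov hx hx' c_A00mm_023_s3 cutA_nil (noExt_A)

noncomputable def cut_A00mm_101_s1 : Cut := Cut.of [[⟨4, 0, 0, 1449551462⟩], [⟨0, 1, 0, 33554432⟩, ⟨1, 0, 0, 33554432⟩, ⟨2, 1, 0, 33554432⟩]]

noncomputable def f_A00mm_101_s1 : ℕ → ℕ → ℕ → ℕ → Bool := onCell 536870912 536870912 0 536870912 1033476505 6710887
    (rowF 0 true false false .npn 1 0 1 (qsf 536870912 536870912 0 536870912 1) ndB0q1 ndB0q0 pcB1 cut_A00mm_101_s1 Ext.none)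

def k0_A00mm_101_s1 : ∃ t, chk3 f_A00mm_101_s1 t 1 1 1 = true :=
  ⟨(l 6), by decide +kernel⟩

theorem c_A00mm_101_s1 : CertF 536870912 536870912 0 536870912 1033476505 6710887 true false false .npn 1 0 1
    ndB0q1 ndB0q0 pcB1 cut_A00mm_101_s1 Ext.none :=
  certF0 (fam := true) (s1 := false) (s2 := false) (a := 1) (b := 0) (c := 1) (cn := .npn) (n1 := ndB0q1) (n2 := ndB0q0) (pc := pcB1) (cut := cut_A00mm_101_s1) (xt := Ext.none) (P1 := 536870912) (W1 := 536870912) (P2 := 0) (W2 := 536870912) (P3 := 1033476505) (W3 := 6710887)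
    rfl k0_A00mm_101_s1

theorem s_A00mm_101_s1 {κ x : ℝ} (hκ : κ * h0 = ken x) (hx : ((1033476505 : ℕ) : ℝ) / S ≤ x)
    (hx' : x ≤ (((1033476505 : ℕ) : ℝ) + (6710887 : ℕ)) / S)
    (H : CutA (VFD κ) PP tK tL pcB (Cut.of [[⟨0, 1, 0, 33554432⟩, ⟨1, 0, 0, 33554432⟩, ⟨2, 1, 0, 33554432⟩]]) 1 0 1 0 0 (sgb false) (sgb false) x) :
    AltA (VFD κ) PP tK tL pcB [⟨3, 0, 0, 1449551462⟩] 1 0 1 0 0 (sgb false) (sgb false) x :=
  strip_altAD (m := 1449551462) true rfl hκ (SH.κ0 hκ (SH.hx1 hx).le (SH.hx2 hx').le) (SH.hx1 hx).le (SH.hx2 hx') (covB01).cov (covB00).cov hx hx' c_A00mm_101_s1 H (noExt_A)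

noncomputable def cut_A00mm_101_s3 : Cut := Cut.of [[⟨3, 0, 0, 2845415833⟩], [⟨0, 1, 0, 33554432⟩, ⟨1, 0, 0, 33554432⟩, ⟨2, 1, 0, 33554432⟩]]

noncomputable def f_A00mm_101_s3 : ℕ → ℕ → ℕ → ℕ → Bool := onCell 536870912 536870912 0 536870912 1033476505 6710887
    (rowF 0 true false false .npn 1 0 1 (qsf 536870912 536870912 0 536870912 1) ndB0q1 ndB0q0 pcB1 cut_A00mm_101_s3 Ext.none)

def k0_A00mm_101_s3 : ∃ t, chk3 f_A00mm_101_s3 t 1 1 1 = true :=
  ⟨(a (l 4) (b (a (l 4) (b (a (l 4) (b (a (l 4) (b (b (a (l 4) (l 14)) (l 4)) (l 4))) (l 4))) (l 4))) (l 4))), by decide +kernel⟩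

theorem c_A00mm_101_s3 : CertF 536870912 536870912 0 536870912 1033476505 6710887 true false false .npn 1 0 1
    ndB0q1 ndB0q0 pcB1 cut_A00mm_101_s3 Ext.none :=
  certF0 (fam := true) (s1 := false) (s2 := false) (a := 1) (b := 0) (c := 1) (cn := .npn) (n1 := ndB0q1) (n2 := ndB0q0) (pc := pcB1) (cut := cut_A00mm_101_s3) (xt := Ext.none) (P1 := 536870912) (W1 := 536870912) (P2 := 0) (W2 := 536870912) (P3 := 1033476505) (W3 := 6710887)
    rfl k0_A00mm_101_s3

theorem s_A00mm_101_s3 {κ x : ℝ} (hκ : κ * h0 = ken x) (hx : ((1033476505 : ℕ) : ℝ) / S ≤ x)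
    (hx' : x ≤ (((1033476505 : ℕ) : ℝ) + (6710887 : ℕ)) / S)
    (H : CutA (VFD κ) PP tK tL pcB (Cut.of [[⟨0, 1, 0, 33554432⟩, ⟨1, 0, 0, 33554432⟩, ⟨2, 1, 0, 33554432⟩]]) 1 0 1 0 0 (sgb false) (sgb false) x) :
    AltA (VFD κ) PP tK tL pcB [⟨4, 0, 0, 2845415833⟩] 1 0 1 0 0 (sgb false) (sgb false) x :=
  strip_altAD (m := 2845415833) false rfl hκ (SH.κ0 hκ (SH.hx1 hx).le (SH.hx2 hx').le) (SH.hx1 hx).le (SH.hx2 hx') (covB01).cov (covB00).cov hx hx' c_A00mm_101_s3 H (noExt_A)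

noncomputable def cut_A00mm_102_s1 : Cut := Cut.of [[⟨4, 0, 0, 1449551462⟩], [⟨0, 1, 0, 33554432⟩, ⟨1, 0, 0, 33554432⟩, ⟨2, 1, 0, 33554432⟩]]

noncomputable def f_A00mm_102_s1 : ℕ → ℕ → ℕ → ℕ → Bool := onCell 536870912 536870912 0 536870912 1033476505 6710887
    (rowF 0 true false false .npp 1 0 2 (qsf 536870912 536870912 0 536870912 2) ndB0q1 ndB0q0 pcB2 cut_A00mm_102_s1 Ext.none)

def k0_A00mm_102_s1 : ∃ t, chk3 f_A00mm_102_s1 t 1 1 1 = true :=
  ⟨(l 6), by decide +kernel⟩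

theorem c_A00mm_102_s1 : CertF 536870912 536870912 0 536870912 1033476505 6710887 true false false .npp 1 0 2
    ndB0q1 ndB0q0 pcB2 cut_A00mm_102_s1 Ext.none :=
  certF0 (fam := true) (s1 := false) (s2 := false) (a := 1) (b := 0) (c := 2) (cn := .npp) (n1 := ndB0q1) (n2 := ndB0q0) (pc := pcB2) (cut := cut_A00mm_102_s1) (xt := Ext.none) (P1 := 536870912) (W1 := 536870912) (P2 := 0) (W2 := 536870912) (P3 := 1033476505) (W3 := 6710887)
    rfl k0_A00mm_102_s1

theorem s_A00mm_102_s1 {κ x : ℝ} (hκ : κ * h0 = ken x) (hx : ((1033476505 : ℕ) : ℝ) / S ≤ x)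
    (hx' : x ≤ (((1033476505 : ℕ) : ℝ) + (6710887 : ℕ)) / S)
    (H : CutA (VFD κ) PP tK tL pcB (Cut.of [[⟨0, 1, 0, 33554432⟩, ⟨1, 0, 0, 33554432⟩, ⟨2, 1, 0, 33554432⟩]]) 1 0 2 0 0 (sgb false) (sgb false) x) :
    AltA (VFD κ) PP tK tL pcB [⟨3, 0, 0, 1449551462⟩] 1 0 2 0 0 (sgb false) (sgb false) x :=
  strip_altAD (m := 1449551462) true rfl hκ (SH.κ0 hκ (SH.hx1 hx).le (SH.hx2 hx').le) (SH.hx1 hx).le (SH.hx2 hx') (covB01).cov (covB00).cov hx hx' c_A00mm_102_s1 H (noExt_A)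

noncomputable def cut_A00mm_102_s3 : Cut := Cut.of [[⟨3, 0, 0, 2845415833⟩], [⟨0, 1, 0, 33554432⟩, ⟨1, 0, 0, 33554432⟩, ⟨2, 1, 0, 33554432⟩]]

noncomputable def f_A00mm_102_s3 : ℕ → ℕ → ℕ → ℕ → Bool := onCell 536870912 536870912 0 536870912 1033476505 6710887
    (rowF 0 true false false .npp 1 0 2 (qsf 536870912 536870912 0 536870912 2) ndB0q1 ndB0q0 pcB2 cut_A00mm_102_s3 Ext.none)

def k0_A00mm_102_s3 : ∃ t, chk3 f_A00mm_102_s3 t 1 1 1 = true :=
  ⟨(a (l 4) (b (a (l 4) (b (a (l 4) (b (a (l 4) (a (l 4) (b (b (l 14) (l 4)) (l 4)))) (l 4))) (l 4))) (l 4))), by decide +kernel⟩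

theorem c_A00mm_102_s3 : CertF 536870912 536870912 0 536870912 1033476505 6710887 true false false .npp 1 0 2
    ndB0q1 ndB0q0 pcB2 cut_A00mm_102_s3 Ext.none :=
  certF0 (fam := true) (s1 := false) (s2 := false) (a := 1) (b := 0) (c := 2) (cn := .npp) (n1 := ndB0q1) (n2 := ndB0q0) (pc := pcB2) (cut := cut_A00mm_102_s3) (xt := Ext.none) (P1 := 536870912) (W1 := 536870912) (P2 := 0) (W2 := 536870912) (P3 := 1033476505) (W3 := 6710887)
    rfl k0_A00mm_102_s3

theorem s_A00mm_102_s3 {κ x : ℝ} (hκ : κ * h0 = ken x) (hx : ((1033476505 : ℕ) : ℝ) / S ≤ x)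
    (hx' : x ≤ (((1033476505 : ℕ) : ℝ) + (6710887 : ℕ)) / S)
    (H : CutA (VFD κ) PP tK tL pcB (Cut.of [[⟨0, 1, 0, 33554432⟩, ⟨1, 0, 0, 33554432⟩, ⟨2, 1, 0, 33554432⟩]]) 1 0 2 0 0 (sgb false) (sgb false) x) :
    AltA (VFD κ) PP tK tL pcB [⟨4, 0, 0, 2845415833⟩] 1 0 2 0 0 (sgb false) (sgb false) x :=
  strip_altAD (m := 2845415833) false rfl hκ (SH.κ0 hκ (SH.hx1 hx).le (SH.hx2 hx').le) (SH.hx1 hx).le (SH.hx2 hx') (covB01).cov (covB00).cov hx hx' c_A00mm_102_s3 H (noExt_A)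

noncomputable def cut_A00mm_112_s1 : Cut := Cut.of [[⟨4, 0, 0, 1449551462⟩]]

noncomputable def f_A00mm_112_s1 : ℕ → ℕ → ℕ → ℕ → Bool := onCell 536870912 536870912 536870912 536870912 1033476505 6710887
    (rowF 0 true false false .dn 1 1 2 (qsf 536870912 536870912 536870912 536870912 2) ndB0q1 ndB0q1 pcB2 cut_A00mm_112_s1 Ext.none)

def k0_A00mm_112_s1 : ∃ t, chk3 f_A00mm_112_s1 t 1 1 1 = true :=
  ⟨(l 4), by decide +kernel⟩

theorem c_A00mm_112_s1 : CertF 536870912 536870912 536870912 536870912 1033476505 6710887 true false false .dn 1 1 2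
    ndB0q1 ndB0q1 pcB2 cut_A00mm_112_s1 Ext.none :=
  certF0 (fam := true) (s1 := false) (s2 := false) (a := 1) (b := 1) (c := 2) (cn := .dn) (n1 := ndB0q1) (n2 := ndB0q1) (pc := pcB2) (cut := cut_A00mm_112_s1) (xt := Ext.none) (P1 := 536870912) (W1 := 536870912) (P2 := 536870912) (W2 := 536870912) (P3 := 1033476505) (W3 := 6710887)
    rfl k0_A00mm_112_s1

theorem s_A00mm_112_s1 {κ x : ℝ} (hκ : κ * h0 = ken x) (hx : ((1033476505 : ℕ) : ℝ) / S ≤ x)
    (hx' : x ≤ (((1033476505 : ℕ) : ℝ) + (6710887 : ℕ)) / S) :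
    AltA (VFD κ) PP tK tL pcB [⟨3, 0, 0, 1449551462⟩] 1 1 2 0 0 (sgb false) (sgb false) x :=
  strip_altAD (m := 1449551462) true rfl hκ (SH.κ0 hκ (SH.hx1 hx).le (SH.hx2 hx').le) (SH.hx1 hx).le (SH.hx2 hx') (covB01).cov (covB01).cov hx hx' c_A00mm_112_s1 cutA_nil (noExt_A)

noncomputable def cut_A00mm_112_s3 : Cut := Cut.of [[⟨3, 0, 0, 2845415833⟩]]

noncomputable def f_A00mm_112_s3 : ℕ → ℕ → ℕ → ℕ → Bool := onCell 536870912 536870912 536870912 536870912 1033476505 6710887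
    (rowF 0 true false false .dn 1 1 2 (qsf 536870912 536870912 536870912 536870912 2) ndB0q1 ndB0q1 pcB2 cut_A00mm_112_s3 Ext.none)

def k0_A00mm_112_s3 : ∃ t, chk3 f_A00mm_112_s3 t 1 1 1 = true :=
  ⟨(l 4), by decide +kernel⟩

theorem c_A00mm_112_s3 : CertF 536870912 536870912 536870912 536870912 1033476505 6710887 true false false .dn 1 1 2
    ndB0q1 ndB0q1 pcB2 cut_A00mm_112_s3 Ext.none :=
  certF0 (fam := true) (s1 := false) (s2 := false) (a := 1) (b := 1) (c := 2) (cn := .dn) (n1 := ndB0q1) (n2 := ndB0q1) (pc := pcB2) (cut := cut_A00mm_112_s3) (xt := Ext.none) (P1 := 536870912) (W1 := 536870912) (P2 := 536870912) (W2 := 536870912) (P3 := 1033476505) (W3 := 6710887)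
    rfl k0_A00mm_112_s3

theorem s_A00mm_112_s3 {κ x : ℝ} (hκ : κ * h0 = ken x) (hx : ((1033476505 : ℕ) : ℝ) / S ≤ x)
    (hx' : x ≤ (((1033476505 : ℕ) : ℝ) + (6710887 : ℕ)) / S) :
    AltA (VFD κ) PP tK tL pcB [⟨4, 0, 0, 2845415833⟩] 1 1 2 0 0 (sgb false) (sgb false) x :=
  strip_altAD (m := 2845415833) false rfl hκ (SH.κ0 hκ (SH.hx1 hx).le (SH.hx2 hx').le) (SH.hx1 hx).le (SH.hx2 hx') (covB01).cov (covB01).cov hx hx' c_A00mm_112_s3 cutA_nil (noExt_A)

noncomputable def cut_A00mm_113_s1 : Cut := Cut.of [[⟨4, 0, 0, 1449551462⟩]]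

noncomputable def f_A00mm_113_s1 : ℕ → ℕ → ℕ → ℕ → Bool := onCell 536870912 536870912 536870912 536870912 1033476505 6710887
    (rowF 0 true false false .nn 1 1 3 (qsf 536870912 536870912 536870912 536870912 3) ndB0q1 ndB0q1 pcB3 cut_A00mm_113_s1 Ext.none)

def k0_A00mm_113_s1 : ∃ t, chk3 f_A00mm_113_s1 t 1 1 1 = true :=
  ⟨(l 4), by decide +kernel⟩

theorem c_A00mm_113_s1 : CertF 536870912 536870912 536870912 536870912 1033476505 6710887 true false false .nn 1 1 3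
    ndB0q1 ndB0q1 pcB3 cut_A00mm_113_s1 Ext.none :=
  certF0 (fam := true) (s1 := false) (s2 := false) (a := 1) (b := 1) (c := 3) (cn := .nn) (n1 := ndB0q1) (n2 := ndB0q1) (pc := pcB3) (cut := cut_A00mm_113_s1) (xt := Ext.none) (P1 := 536870912) (W1 := 536870912) (P2 := 536870912) (W2 := 536870912) (P3 := 1033476505) (W3 := 6710887)
    rfl k0_A00mm_113_s1

theorem s_A00mm_113_s1 {κ x : ℝ} (hκ : κ * h0 = ken x) (hx : ((1033476505 : ℕ) : ℝ) / S ≤ x)
    (hx' : x ≤ (((1033476505 : ℕ) : ℝ) + (6710887 : ℕ)) / S) :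
    AltA (VFD κ) PP tK tL pcB [⟨3, 0, 0, 1449551462⟩] 1 1 3 0 0 (sgb false) (sgb false) x :=
  strip_altAD (m := 1449551462) true rfl hκ (SH.κ0 hκ (SH.hx1 hx).le (SH.hx2 hx').le) (SH.hx1 hx).le (SH.hx2 hx') (covB01).cov (covB01).cov hx hx' c_A00mm_113_s1 cutA_nil (noExt_A)

noncomputable def cut_A00mm_113_s3 : Cut := Cut.of [[⟨3, 0, 0, 2845415833⟩]]

noncomputable def f_A00mm_113_s3 : ℕ → ℕ → ℕ → ℕ → Bool := onCell 536870912 536870912 536870912 536870912 1033476505 6710887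
    (rowF 0 true false false .nn 1 1 3 (qsf 536870912 536870912 536870912 536870912 3) ndB0q1 ndB0q1 pcB3 cut_A00mm_113_s3 Ext.none)

def k0_A00mm_113_s3 : ∃ t, chk3 f_A00mm_113_s3 t 1 1 1 = true :=
  ⟨(l 4), by decide +kernel⟩

theorem c_A00mm_113_s3 : CertF 536870912 536870912 536870912 536870912 1033476505 6710887 true false false .nn 1 1 3
    ndB0q1 ndB0q1 pcB3 cut_A00mm_113_s3 Ext.none :=
  certF0 (fam := true) (s1 := false) (s2 := false) (a := 1) (b := 1) (c := 3) (cn := .nn) (n1 := ndB0q1) (n2 := ndB0q1) (pc := pcB3) (cut := cut_A00mm_113_s3) (xt := Ext.none) (P1 := 536870912) (W1 := 536870912) (P2 := 536870912) (W2 := 536870912) (P3 := 1033476505) (W3 := 6710887)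
    rfl k0_A00mm_113_s3

theorem s_A00mm_113_s3 {κ x : ℝ} (hκ : κ * h0 = ken x) (hx : ((1033476505 : ℕ) : ℝ) / S ≤ x)
    (hx' : x ≤ (((1033476505 : ℕ) : ℝ) + (6710887 : ℕ)) / S) :
    AltA (VFD κ) PP tK tL pcB [⟨4, 0, 0, 2845415833⟩] 1 1 3 0 0 (sgb false) (sgb false) x :=
  strip_altAD (m := 2845415833) false rfl hκ (SH.κ0 hκ (SH.hx1 hx).le (SH.hx2 hx').le) (SH.hx1 hx).le (SH.hx2 hx') (covB01).cov (covB01).cov hx hx' c_A00mm_113_s3 cutA_nil (noExt_A)

noncomputable def cut_A00mm_123_s1 : Cut := Cut.of [[⟨4, 0, 0, 1449551462⟩]]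

noncomputable def f_A00mm_123_s1 : ℕ → ℕ → ℕ → ℕ → Bool := onCell 536870912 536870912 0 536870912 1033476505 6710887
    (rowF 0 true false false .npn 1 2 3 (qsf 536870912 536870912 0 536870912 3) ndB0q1 ndB0q2 pcB3 cut_A00mm_123_s1 Ext.none)

def k0_A00mm_123_s1 : ∃ t, chk3 f_A00mm_123_s1 t 1 1 1 = true :=
  ⟨(l 6), by decide +kernel⟩

theorem c_A00mm_123_s1 : CertF 536870912 536870912 0 536870912 1033476505 6710887 true false false .npn 1 2 3
    ndB0q1 ndB0q2 pcB3 cut_A00mm_123_s1 Ext.none :=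
  certF0 (fam := true) (s1 := false) (s2 := false) (a := 1) (b := 2) (c := 3) (cn := .npn) (n1 := ndB0q1) (n2 := ndB0q2) (pc := pcB3) (cut := cut_A00mm_123_s1) (xt := Ext.none) (P1 := 536870912) (W1 := 536870912) (P2 := 0) (W2 := 536870912) (P3 := 1033476505) (W3 := 6710887)
    rfl k0_A00mm_123_s1

theorem s_A00mm_123_s1 {κ x : ℝ} (hκ : κ * h0 = ken x) (hx : ((1033476505 : ℕ) : ℝ) / S ≤ x)
    (hx' : x ≤ (((1033476505 : ℕ) : ℝ) + (6710887 : ℕ)) / S) :
    AltA (VFD κ) PP tK tL pcB [⟨3, 0, 0, 1449551462⟩] 1 2 3 0 0 (sgb false) (sgb false) x :=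
  strip_altAD (m := 1449551462) true rfl hκ (SH.κ0 hκ (SH.hx1 hx).le (SH.hx2 hx').le) (SH.hx1 hx).le (SH.hx2 hx') (covB01).cov (covB02).cov hx hx' c_A00mm_123_s1 cutA_nil (noExt_A)

noncomputable def cut_A00mm_123_s3 : Cut := Cut.of [[⟨3, 0, 0, 2845415833⟩]]

noncomputable def f_A00mm_123_s3 : ℕ → ℕ → ℕ → ℕ → Bool := onCell 536870912 536870912 0 536870912 1033476505 6710887
    (rowF 0 true false false .npn 1 2 3 (qsf 536870912 536870912 0 536870912 3) ndB0q1 ndB0q2 pcB3 cut_A00mm_123_s3 Ext.none)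

def k0_A00mm_123_s3 : ∃ t, chk3 f_A00mm_123_s3 t 1 1 1 = true :=
  ⟨(a (l 5) (l 4)), by decide +kernel⟩

theorem c_A00mm_123_s3 : CertF 536870912 536870912 0 536870912 1033476505 6710887 true false false .npn 1 2 3
    ndB0q1 ndB0q2 pcB3 cut_A00mm_123_s3 Ext.none :=
  certF0 (fam := true) (s1 := false) (s2 := false) (a := 1) (b := 2) (c := 3) (cn := .npn) (n1 := ndB0q1) (n2 := ndB0q2) (pc := pcB3) (cut := cut_A00mm_123_s3) (xt := Ext.none) (P1 := 536870912) (W1 := 536870912) (P2 := 0) (W2 := 536870912) (P3 := 1033476505) (W3 := 6710887)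
    rfl k0_A00mm_123_s3

theorem s_A00mm_123_s3 {κ x : ℝ} (hκ : κ * h0 = ken x) (hx : ((1033476505 : ℕ) : ℝ) / S ≤ x)
    (hx' : x ≤ (((1033476505 : ℕ) : ℝ) + (6710887 : ℕ)) / S) :
    AltA (VFD κ) PP tK tL pcB [⟨4, 0, 0, 2845415833⟩] 1 2 3 0 0 (sgb false) (sgb false) x :=
  strip_altAD (m := 2845415833) false rfl hκ (SH.κ0 hκ (SH.hx1 hx).le (SH.hx2 hx').le) (SH.hx1 hx).le (SH.hx2 hx') (covB01).cov (covB02).cov hx hx' c_A00mm_123_s3 cutA_nil (noExt_A)

noncomputable def cut_A00mm_202_s1 : Cut := Cut.of [[⟨4, 0, 0, 1449551462⟩], [⟨0, 1, 0, 22369621⟩, ⟨1, 0, 0, 22369621⟩, ⟨2, 1, 0, 22369621⟩]]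

noncomputable def f_A00mm_202_s1 : ℕ → ℕ → ℕ → ℕ → Bool := onCell 0 536870912 0 536870912 1033476505 6710887
    (rowF 0 true false false .pp 2 0 2 (qsf 0 536870912 0 536870912 2) ndB0q2 ndB0q0 pcB2 cut_A00mm_202_s1 Ext.none)

def k0_A00mm_202_s1 : ∃ t, chk3 f_A00mm_202_s1 t 1 1 1 = true :=
  ⟨(l 6), by decide +kernel⟩

theorem c_A00mm_202_s1 : CertF 0 536870912 0 536870912 1033476505 6710887 true false false .pp 2 0 2
    ndB0q2 ndB0q0 pcB2 cut_A00mm_202_s1 Ext.none :=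
  certF0 (fam := true) (s1 := false) (s2 := false) (a := 2) (b := 0) (c := 2) (cn := .pp) (n1 := ndB0q2) (n2 := ndB0q0) (pc := pcB2) (cut := cut_A00mm_202_s1) (xt := Ext.none) (P1 := 0) (W1 := 536870912) (P2 := 0) (W2 := 536870912) (P3 := 1033476505) (W3 := 6710887)
    rfl k0_A00mm_202_s1

theorem s_A00mm_202_s1 {κ x : ℝ} (hκ : κ * h0 = ken x) (hx : ((1033476505 : ℕ) : ℝ) / S ≤ x)
    (hx' : x ≤ (((1033476505 : ℕ) : ℝ) + (6710887 : ℕ)) / S)
    (H : CutA (VFD κ) PP tK tL pcB (Cut.of [[⟨0, 1, 0, 22369621⟩, ⟨1, 0, 0, 22369621⟩, ⟨2, 1, 0, 22369621⟩]]) 2 0 2 0 0 (sgb false) (sgb false) x) :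
    AltA (VFD κ) PP tK tL pcB [⟨3, 0, 0, 1449551462⟩] 2 0 2 0 0 (sgb false) (sgb false) x :=
  strip_altAD (m := 1449551462) true rfl hκ (SH.κ0 hκ (SH.hx1 hx).le (SH.hx2 hx').le) (SH.hx1 hx).le (SH.hx2 hx') (covB02).cov (covB00).cov hx hx' c_A00mm_202_s1 H (noExt_A)

noncomputable def cut_A00mm_203_s1 : Cut := Cut.of [[⟨4, 0, 0, 1449551462⟩]]

noncomputable def f_A00mm_203_s1 : ℕ → ℕ → ℕ → ℕ → Bool := onCell 0 536870912 0 536870912 1033476505 6710887
    (rowF 0 true false false .up 2 0 3 (qsf 0 536870912 0 536870912 3) ndB0q2 ndB0q0 pcB3 cut_A00mm_203_s1 Ext.none)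

def k0_A00mm_203_s1 : ∃ t, chk3 f_A00mm_203_s1 t 1 1 1 = true :=
  ⟨(l 6), by decide +kernel⟩

theorem c_A00mm_203_s1 : CertF 0 536870912 0 536870912 1033476505 6710887 true false false .up 2 0 3
    ndB0q2 ndB0q0 pcB3 cut_A00mm_203_s1 Ext.none :=
  certF0 (fam := true) (s1 := false) (s2 := false) (a := 2) (b := 0) (c := 3) (cn := .up) (n1 := ndB0q2) (n2 := ndB0q0) (pc := pcB3) (cut := cut_A00mm_203_s1) (xt := Ext.none) (P1 := 0) (W1 := 536870912) (P2 := 0) (W2 := 536870912) (P3 := 1033476505) (W3 := 6710887)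
    rfl k0_A00mm_203_s1

theorem s_A00mm_203_s1 {κ x : ℝ} (hκ : κ * h0 = ken x) (hx : ((1033476505 : ℕ) : ℝ) / S ≤ x)
    (hx' : x ≤ (((1033476505 : ℕ) : ℝ) + (6710887 : ℕ)) / S) :
    AltA (VFD κ) PP tK tL pcB [⟨3, 0, 0, 1449551462⟩] 2 0 3 0 0 (sgb false) (sgb false) x :=
  strip_altAD (m := 1449551462) true rfl hκ (SH.κ0 hκ (SH.hx1 hx).le (SH.hx2 hx').le) (SH.hx1 hx).le (SH.hx2 hx') (covB02).cov (covB00).cov hx hx' c_A00mm_203_s1 cutA_nil (noExt_A)

noncomputable def cut_A00mm_203_s3 : Cut := Cut.of [[⟨3, 0, 0, 2845415833⟩]]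

noncomputable def xt_A00mm_203_s3 : Ext := strExt dd true false false .u2 .u0m .s2m .up 2 0 3 rfl rfl gl3 vv ndB0q2 ndB0q0

noncomputable def f_A00mm_203_s3 : ℕ → ℕ → ℕ → ℕ → Bool := onCell 0 536870912 1610612736 536870912 1033476505 6710887
    (rowF 1 true false false .up 2 0 3 (qsf 0 536870912 0 536870912 3) ndB0q2 ndB0q0 pcB3 cut_A00mm_203_s3 xt_A00mm_203_s3)

def k0_A00mm_203_s3 : ∃ t, chk3 f_A00mm_203_s3 t 2 4 1 = true :=
  ⟨(a (b (a (b (b (b (a (a (l 6) (l 15260248)) (a (l 15402128) (l 15543624))) (a (c (l 15252000) (l 15240912)) (l 15549864))) (a (a (l 15264344) (l 15404864)) (a (l 15544856) (l 15684440)))) (b (a (a (l 15385416) (l 15524032)) (a (l 15662096) (l 15799728))) (a (a (l 15508944) (l 15645304)) (b (l 15819040) (l 15878200))))) (a (b (b (a (b (l 15684856) (l 15739896)) (l 511646991)) (a (l 511422223) (l 511636495))) (a (b (l 511470863) (l 511575311)) (b (l 511683343) (l 511783695)))) (b (b (a (l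 511891983) (l 512142607)) (a (l 511886607) (l 512145423))) (b (a (l 511937551) (l 512204559)) (a (l 512040463) (l 512315919)))))) (a (b (a (b (a (l 15634008) (l 15767800)) (l 511360783)) (b (b (l 15937504) (l 15996840)) (b (l 15972248) (l 511761935)))) (a (b (l 511661327) (l 512028175)) (b (l 513055759) (a (l 512268815) (l 512415759))))) (a (b (a (b (l 511733519) (l 511944207)) (b (l 511933455) (l 512130319))) (a (b (l 512211471) (l 512554511)) (b (a (l 512331791) (l 512422159)) (b (a (l 512563983) (l 512637967)) (b (l 512735759) (l 512837647)))))) (b (a (b (l 512190479) (l 512383247)) (l 512564751)) (a (b (a (l 512538127) (l 512687631)) (a (b (l 512739855) (l 512876559)) (l 512947727))) (b (l 512912655) (l 513175823))))))) (b (a (b (a (b (a (l 512373519) (l 512583439)) (a (l 512385039) (l 512603919))) (b (a (l 512771599) (l 512936719)) (a (l 512801551) (l 512976399)))) (a (b (l 512568847) (l 512693519)) (b (l 512982543)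 (l 513126159)))) (a (b (a (b (l 513078031) (l 4)) (l 4)) (l 4)) (l 4))) (a (a (b (b (l 512865295) (l 513079567)) (l 4)) (l 4)) (l 4)))), by decide +kernel⟩

def k1_A00mm_203_s3 : ∃ t, chk3 f_A00mm_203_s3 t 2 5 1 = true :=
  ⟨(a (b (b (a (a (b (l 512465679) (l 512972303)) (b (l 512782607) (l 513291535))) (a (b (l 513053199) (l 513564943)) (b (a (a (b (l 512989455) (l 4)) (l 4)) (l 4)) (l 4)))) (a (l 2) (l 2))) (l 2)) (l 4)), by decide +kernel⟩

def k2_A00mm_203_s3 : ∃ t, chk3 f_A00mm_203_s3 t 3 2 1 = true :=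
  ⟨(l 4), by decide +kernel⟩

def k3_A00mm_203_s3 : ∃ t, chk3 f_A00mm_203_s3 t 1 3 1 = true :=
  ⟨(l 2), by decide +kernel⟩

theorem t4_A00mm_203_s3 : ∃ t, chk3 f_A00mm_203_s3 t 2 2 1 = true := ex3_b k0_A00mm_203_s3 k1_A00mm_203_s3

theorem t5_A00mm_203_s3 : ∃ t, chk3 f_A00mm_203_s3 t 1 2 1 = true := ex3_a t4_A00mm_203_s3 k2_A00mm_203_s3

theorem t6_A00mm_203_s3 : ∃ t, chk3 f_A00mm_203_s3 t 1 1 1 = true := ex3_b t5_A00mm_203_s3 k3_A00mm_203_s3

theorem c_A00mm_203_s3 : CertF 0 536870912 0 536870912 1033476505 6710887 true false false .up 2 0 3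
    ndB0q2 ndB0q0 pcB3 cut_A00mm_203_s3 xt_A00mm_203_s3 :=
  certF1 (fam := true) (s1 := false) (s2 := false) (a := 2) (b := 0) (c := 3) (cn := .up) (n1 := ndB0q2) (n2 := ndB0q0) (pc := pcB3) (cut := cut_A00mm_203_s3) (xt := xt_A00mm_203_s3) (P1 := 0) (W1 := 536870912) (P2 := 0) (W2 := 536870912) (P3 := 1033476505) (W3 := 6710887)
    rfl (fun _ => rfl) t6_A00mm_203_s3

theorem s_A00mm_203_s3 {κ x : ℝ} (hκ : κ * h0 = ken x) (hx : ((1033476505 : ℕ) : ℝ) / S ≤ x)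
    (hx' : x ≤ (((1033476505 : ℕ) : ℝ) + (6710887 : ℕ)) / S) :
    AltA (VFD κ) PP tK tL pcB [⟨4, 0, 0, 2845415833⟩] 2 0 3 0 0 (sgb false) (sgb false) x :=
  strip_altAD (m := 2845415833) false rfl hκ (SH.κ0 hκ (SH.hx1 hx).le (SH.hx2 hx').le) (SH.hx1 hx).le (SH.hx2 hx') (covB02).cov (covB00).cov hx hx' c_A00mm_203_s3 cutA_nil ((okx hx hx').extA (T := tt) (sideB hx hx') hκ rfl rfl (.O 2 false) (.O 0 false) (Or.inr rfl))

noncomputable def cut_A00mm_213_s1 : Cut := Cut.of [[⟨4, 0, 0, 1449551462⟩]]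

noncomputable def f_A00mm_213_s1 : ℕ → ℕ → ℕ → ℕ → Bool := onCell 0 536870912 536870912 536870912 1033476505 6710887
    (rowF 0 true false false .pnn 2 1 3 (qsf 0 536870912 536870912 536870912 3) ndB0q2 ndB0q1 pcB3 cut_A00mm_213_s1 Ext.none)

def k0_A00mm_213_s1 : ∃ t, chk3 f_A00mm_213_s1 t 1 1 1 = true :=
  ⟨(l 6), by decide +kernel⟩

theorem c_A00mm_213_s1 : CertF 0 536870912 536870912 536870912 1033476505 6710887 true false false .pnn 2 1 3
    ndB0q2 ndB0q1 pcB3 cut_A00mm_213_s1 Ext.none :=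
  certF0 (fam := true) (s1 := false) (s2 := false) (a := 2) (b := 1) (c := 3) (cn := .pnn) (n1 := ndB0q2) (n2 := ndB0q1) (pc := pcB3) (cut := cut_A00mm_213_s1) (xt := Ext.none) (P1 := 0) (W1 := 536870912) (P2 := 536870912) (W2 := 536870912) (P3 := 1033476505) (W3 := 6710887)
    rfl k0_A00mm_213_s1

theorem s_A00mm_213_s1 {κ x : ℝ} (hκ : κ * h0 = ken x) (hx : ((1033476505 : ℕ) : ℝ) / S ≤ x)
    (hx' : x ≤ (((1033476505 : ℕ) : ℝ) + (6710887 : ℕ)) / S) :
    AltA (VFD κ) PP tK tL pcB [⟨3, 0, 0, 1449551462⟩] 2 1 3 0 0 (sgb false) (sgb false) x :=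
  strip_altAD (m := 1449551462) true rfl hκ (SH.κ0 hκ (SH.hx1 hx).le (SH.hx2 hx').le) (SH.hx1 hx).le (SH.hx2 hx') (covB02).cov (covB01).cov hx hx' c_A00mm_213_s1 cutA_nil (noExt_A)

noncomputable def cut_A00mm_213_s3 : Cut := Cut.of [[⟨3, 0, 0, 2845415833⟩]]

noncomputable def xt_A00mm_213_s3 : Ext := strExt dd true false false .u2 .u0m .s2m .pnn 2 1 3 rfl rfl gl3 vv ndB0q2 ndB0q1

noncomputable def f_A00mm_213_s3 : ℕ → ℕ → ℕ → ℕ → Bool := onCell 0 536870912 536870912 536870912 1033476505 6710887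
    (rowF 0 true false false .pnn 2 1 3 (qsf 0 536870912 536870912 536870912 3) ndB0q2 ndB0q1 pcB3 cut_A00mm_213_s3 xt_A00mm_213_s3)

def k0_A00mm_213_s3 : ∃ t, chk3 f_A00mm_213_s3 t 1 1 1 = true :=
  ⟨(a (b (b (a (b (a (b (a (b (l 513492751) (l 514158351)) (b (l 513767695) (l 514428175))) (a (b (l 514907919) (l 515740175)) (b (l 515171087) (l 4)))) (a (b (b (l 513953039) (l 4)) (l 4)) (l 4))) (a (b (a (b (l 516653839) (l 4)) (l 4)) (l 4)) (l 4))) (l 4)) (l 4)) (l 4)) (l 4)), by decide +kernel⟩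

theorem c_A00mm_213_s3 : CertF 0 536870912 536870912 536870912 1033476505 6710887 true false false .pnn 2 1 3
    ndB0q2 ndB0q1 pcB3 cut_A00mm_213_s3 xt_A00mm_213_s3 :=
  certF0 (fam := true) (s1 := false) (s2 := false) (a := 2) (b := 1) (c := 3) (cn := .pnn) (n1 := ndB0q2) (n2 := ndB0q1) (pc := pcB3) (cut := cut_A00mm_213_s3) (xt := xt_A00mm_213_s3) (P1 := 0) (W1 := 536870912) (P2 := 536870912) (W2 := 536870912) (P3 := 1033476505) (W3 := 6710887)
    rfl k0_A00mm_213_s3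

theorem s_A00mm_213_s3 {κ x : ℝ} (hκ : κ * h0 = ken x) (hx : ((1033476505 : ℕ) : ℝ) / S ≤ x)
    (hx' : x ≤ (((1033476505 : ℕ) : ℝ) + (6710887 : ℕ)) / S) :
    AltA (VFD κ) PP tK tL pcB [⟨4, 0, 0, 2845415833⟩] 2 1 3 0 0 (sgb false) (sgb false) x :=
  strip_altAD (m := 2845415833) false rfl hκ (SH.κ0 hκ (SH.hx1 hx).le (SH.hx2 hx').le) (SH.hx1 hx).le (SH.hx2 hx') (covB02).cov (covB01).cov hx hx' c_A00mm_213_s3 cutA_nil ((okx hx hx').extA (T := tt) (sideB hx hx') hκ rfl rfl (.O 2 false) (.O 1 false) (Or.inr rfl))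

noncomputable def cut_A05pp_001_s1 : Cut := Cut.of [[⟨4, 0, 0, 1449551462⟩]]

noncomputable def f_A05pp_001_s1 : ℕ → ℕ → ℕ → ℕ → Bool := onCell 0 536870912 0 536870912 1033476505 6710887
    (rowF 0 true true true .up 0 0 1 (qsf 0 536870912 0 536870912 1) ndB0q0 ndB5q0 pcB1 cut_A05pp_001_s1 Ext.none)

def k0_A05pp_001_s1 : ∃ t, chk3 f_A05pp_001_s1 t 1 1 1 = true :=
  ⟨(l 4), by decide +kernel⟩

theorem c_A05pp_001_s1 : CertF 0 536870912 0 536870912 1033476505 6710887 true true true .up 0 0 1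
    ndB0q0 ndB5q0 pcB1 cut_A05pp_001_s1 Ext.none :=
  certF0 (fam := true) (s1 := true) (s2 := true) (a := 0) (b := 0) (c := 1) (cn := .up) (n1 := ndB0q0) (n2 := ndB5q0) (pc := pcB1) (cut := cut_A05pp_001_s1) (xt := Ext.none) (P1 := 0) (W1 := 536870912) (P2 := 0) (W2 := 536870912) (P3 := 1033476505) (W3 := 6710887)
    rfl k0_A05pp_001_s1

theorem s_A05pp_001_s1 {κ x : ℝ} (hκ : κ * h0 = ken x) (hx : ((1033476505 : ℕ) : ℝ) / S ≤ x)
    (hx' : x ≤ (((1033476505 : ℕ) : ℝ) + (6710887 : ℕ)) / S) :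
    AltA (VFD κ) PP tK tL pcB [⟨3, 0, 0, 1449551462⟩] 0 0 1 0 5 (sgb true) (sgb true) x :=
  strip_altAD (m := 1449551462) true rfl hκ (SH.κ0 hκ (SH.hx1 hx).le (SH.hx2 hx').le) (SH.hx1 hx).le (SH.hx2 hx') (covB00).cov (covB50).cov hx hx' c_A05pp_001_s1 cutA_nil (noExt_A)

noncomputable def cut_A05pp_011_s1 : Cut := Cut.of [[⟨4, 0, 0, 1449551462⟩]]

noncomputable def f_A05pp_011_s1 : ℕ → ℕ → ℕ → ℕ → Bool := onCell 0 536870912 536870912 536870912 1033476505 6710887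
    (rowF 0 true true true .pnn 0 1 1 (qsf 0 536870912 536870912 536870912 1) ndB0q0 ndB5q1 pcB1 cut_A05pp_011_s1 Ext.none)

def k0_A05pp_011_s1 : ∃ t, chk3 f_A05pp_011_s1 t 1 1 1 = true :=
  ⟨(l 4), by decide +kernel⟩

theorem c_A05pp_011_s1 : CertF 0 536870912 536870912 536870912 1033476505 6710887 true true true .pnn 0 1 1
    ndB0q0 ndB5q1 pcB1 cut_A05pp_011_s1 Ext.none :=
  certF0 (fam := true) (s1 := true) (s2 := true) (a := 0) (b := 1) (c := 1) (cn := .pnn) (n1 := ndB0q0) (n2 := ndB5q1) (pc := pcB1) (cut := cut_A05pp_011_s1) (xt := Ext.none) (P1 := 0) (W1 := 536870912) (P2 := 536870912) (W2 := 536870912) (P3 := 1033476505) (W3 := 6710887)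
    rfl k0_A05pp_011_s1

theorem s_A05pp_011_s1 {κ x : ℝ} (hκ : κ * h0 = ken x) (hx : ((1033476505 : ℕ) : ℝ) / S ≤ x)
    (hx' : x ≤ (((1033476505 : ℕ) : ℝ) + (6710887 : ℕ)) / S) :
    AltA (VFD κ) PP tK tL pcB [⟨3, 0, 0, 1449551462⟩] 0 1 1 0 5 (sgb true) (sgb true) x :=
  strip_altAD (m := 1449551462) true rfl hκ (SH.κ0 hκ (SH.hx1 hx).le (SH.hx2 hx').le) (SH.hx1 hx).le (SH.hx2 hx') (covB00).cov (covB51).cov hx hx' c_A05pp_011_s1 cutA_nil (noExt_A)

noncomputable def cut_A05pp_012_s1 : Cut := Cut.of [[⟨4, 0, 0, 1449551462⟩]]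

noncomputable def f_A05pp_012_s1 : ℕ → ℕ → ℕ → ℕ → Bool := onCell 0 536870912 536870912 536870912 1033476505 6710887
    (rowF 0 true true true .pnp 0 1 2 (qsf 0 536870912 536870912 536870912 2) ndB0q0 ndB5q1 pcB2 cut_A05pp_012_s1 Ext.none)

def k0_A05pp_012_s1 : ∃ t, chk3 f_A05pp_012_s1 t 1 1 1 = true :=
  ⟨(l 4), by decide +kernel⟩

theorem c_A05pp_012_s1 : CertF 0 536870912 536870912 536870912 1033476505 6710887 true true true .pnp 0 1 2
    ndB0q0 ndB5q1 pcB2 cut_A05pp_012_s1 Ext.none :=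
  certF0 (fam := true) (s1 := true) (s2 := true) (a := 0) (b := 1) (c := 2) (cn := .pnp) (n1 := ndB0q0) (n2 := ndB5q1) (pc := pcB2) (cut := cut_A05pp_012_s1) (xt := Ext.none) (P1 := 0) (W1 := 536870912) (P2 := 536870912) (W2 := 536870912) (P3 := 1033476505) (W3 := 6710887)
    rfl k0_A05pp_012_s1

theorem s_A05pp_012_s1 {κ x : ℝ} (hκ : κ * h0 = ken x) (hx : ((1033476505 : ℕ) : ℝ) / S ≤ x)
    (hx' : x ≤ (((1033476505 : ℕ) : ℝ) + (6710887 : ℕ)) / S) :
    AltA (VFD κ) PP tK tL pcB [⟨3, 0, 0, 1449551462⟩] 0 1 2 0 5 (sgb true) (sgb true) x :=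
  strip_altAD (m := 1449551462) true rfl hκ (SH.κ0 hκ (SH.hx1 hx).le (SH.hx2 hx').le) (SH.hx1 hx).le (SH.hx2 hx') (covB00).cov (covB51).cov hx hx' c_A05pp_012_s1 cutA_nil (noExt_A)

noncomputable def cut_A05pp_022_s1 : Cut := Cut.of [[⟨4, 0, 0, 1449551462⟩]]

noncomputable def f_A05pp_022_s1 : ℕ → ℕ → ℕ → ℕ → Bool := onCell 0 536870912 1073741824 536870912 1033476505 6710887
    (rowF 0 true true true .pp 0 2 2 (qsf 0 536870912 1073741824 536870912 2) ndB0q0 ndB5q2 pcB2 cut_A05pp_022_s1 Ext.none)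

def k0_A05pp_022_s1 : ∃ t, chk3 f_A05pp_022_s1 t 1 1 1 = true :=
  ⟨(l 4), by decide +kernel⟩

theorem c_A05pp_022_s1 : CertF 0 536870912 1073741824 536870912 1033476505 6710887 true true true .pp 0 2 2
    ndB0q0 ndB5q2 pcB2 cut_A05pp_022_s1 Ext.none :=
  certF0 (fam := true) (s1 := true) (s2 := true) (a := 0) (b := 2) (c := 2) (cn := .pp) (n1 := ndB0q0) (n2 := ndB5q2) (pc := pcB2) (cut := cut_A05pp_022_s1) (xt := Ext.none) (P1 := 0) (W1 := 536870912) (P2 := 1073741824) (W2 := 536870912) (P3 := 1033476505) (W3 := 6710887)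
    rfl k0_A05pp_022_s1

theorem s_A05pp_022_s1 {κ x : ℝ} (hκ : κ * h0 = ken x) (hx : ((1033476505 : ℕ) : ℝ) / S ≤ x)
    (hx' : x ≤ (((1033476505 : ℕ) : ℝ) + (6710887 : ℕ)) / S) :
    AltA (VFD κ) PP tK tL pcB [⟨3, 0, 0, 1449551462⟩] 0 2 2 0 5 (sgb true) (sgb true) x :=
  strip_altAD (m := 1449551462) true rfl hκ (SH.κ0 hκ (SH.hx1 hx).le (SH.hx2 hx').le) (SH.hx1 hx).le (SH.hx2 hx') (covB00).cov (covB52).cov hx hx' c_A05pp_022_s1 cutA_nil (noExt_A)

noncomputable def cut_A05pp_023_s1 : Cut := Cut.of [[⟨4, 0, 0, 1449551462⟩]]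

noncomputable def f_A05pp_023_s1 : ℕ → ℕ → ℕ → ℕ → Bool := onCell 0 536870912 1073741824 536870912 1033476505 6710887
    (rowF 0 true true true .up 0 2 3 (qsf 0 536870912 1073741824 536870912 3) ndB0q0 ndB5q2 pcB3 cut_A05pp_023_s1 Ext.none)

def k0_A05pp_023_s1 : ∃ t, chk3 f_A05pp_023_s1 t 1 1 1 = true :=
  ⟨(l 4), by decide +kernel⟩

theorem c_A05pp_023_s1 : CertF 0 536870912 1073741824 536870912 1033476505 6710887 true true true .up 0 2 3
    ndB0q0 ndB5q2 pcB3 cut_A05pp_023_s1 Ext.none :=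
  certF0 (fam := true) (s1 := true) (s2 := true) (a := 0) (b := 2) (c := 3) (cn := .up) (n1 := ndB0q0) (n2 := ndB5q2) (pc := pcB3) (cut := cut_A05pp_023_s1) (xt := Ext.none) (P1 := 0) (W1 := 536870912) (P2 := 1073741824) (W2 := 536870912) (P3 := 1033476505) (W3 := 6710887)
    rfl k0_A05pp_023_s1

theorem s_A05pp_023_s1 {κ x : ℝ} (hκ : κ * h0 = ken x) (hx : ((1033476505 : ℕ) : ℝ) / S ≤ x)
    (hx' : x ≤ (((1033476505 : ℕ) : ℝ) + (6710887 : ℕ)) / S) :
    AltA (VFD κ) PP tK tL pcB [⟨3, 0, 0, 1449551462⟩] 0 2 3 0 5 (sgb true) (sgb true) x :=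
  strip_altAD (m := 1449551462) true rfl hκ (SH.κ0 hκ (SH.hx1 hx).le (SH.hx2 hx').le) (SH.hx1 hx).le (SH.hx2 hx') (covB00).cov (covB52).cov hx hx' c_A05pp_023_s1 cutA_nil (noExt_A)

noncomputable def cut_A05pp_033_s1 : Cut := Cut.of [[⟨4, 0, 0, 1449551462⟩]]

noncomputable def f_A05pp_033_s1 : ℕ → ℕ → ℕ → ℕ → Bool := onCell 0 536870912 0 1230186008 1033476505 6710887
    (rowF 0 true true true .pnn 0 3 3 (qsf 0 536870912 0 1230186008 3) ndB0q0 ndB5q3 pcB3 cut_A05pp_033_s1 Ext.none)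

def k0_A05pp_033_s1 : ∃ t, chk3 f_A05pp_033_s1 t 1 1 1 = true :=
  ⟨(l 4), by decide +kernel⟩

theorem c_A05pp_033_s1 : CertF 0 536870912 0 1230186008 1033476505 6710887 true true true .pnn 0 3 3
    ndB0q0 ndB5q3 pcB3 cut_A05pp_033_s1 Ext.none :=
  certF0 (fam := true) (s1 := true) (s2 := true) (a := 0) (b := 3) (c := 3) (cn := .pnn) (n1 := ndB0q0) (n2 := ndB5q3) (pc := pcB3) (cut := cut_A05pp_033_s1) (xt := Ext.none) (P1 := 0) (W1 := 536870912) (P2 := 0) (W2 := 1230186008) (P3 := 1033476505) (W3 := 6710887)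
    rfl k0_A05pp_033_s1

theorem s_A05pp_033_s1 {κ x : ℝ} (hκ : κ * h0 = ken x) (hx : ((1033476505 : ℕ) : ℝ) / S ≤ x)
    (hx' : x ≤ (((1033476505 : ℕ) : ℝ) + (6710887 : ℕ)) / S) :
    AltA (VFD κ) PP tK tL pcB [⟨3, 0, 0, 1449551462⟩] 0 3 3 0 5 (sgb true) (sgb true) x :=
  strip_altAD (m := 1449551462) true rfl hκ (SH.κ0 hκ (SH.hx1 hx).le (SH.hx2 hx').le) (SH.hx1 hx).le (SH.hx2 hx') (covB00).cov (covB53).cov hx hx' c_A05pp_033_s1 cutA_nil (noExt_A)

noncomputable def cut_A05pp_101_s1 : Cut := Cut.of [[⟨4, 0, 0, 1449551462⟩]]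

noncomputable def f_A05pp_101_s1 : ℕ → ℕ → ℕ → ℕ → Bool := onCell 536870912 536870912 0 536870912 1033476505 6710887
    (rowF 0 true true true .npn 1 0 1 (qsf 536870912 536870912 0 536870912 1) ndB0q1 ndB5q0 pcB1 cut_A05pp_101_s1 Ext.none)

def k0_A05pp_101_s1 : ∃ t, chk3 f_A05pp_101_s1 t 1 1 1 = true :=
  ⟨(l 4), by decide +kernel⟩

theorem c_A05pp_101_s1 : CertF 536870912 536870912 0 536870912 1033476505 6710887 true true true .npn 1 0 1
    ndB0q1 ndB5q0 pcB1 cut_A05pp_101_s1 Ext.none :=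
  certF0 (fam := true) (s1 := true) (s2 := true) (a := 1) (b := 0) (c := 1) (cn := .npn) (n1 := ndB0q1) (n2 := ndB5q0) (pc := pcB1) (cut := cut_A05pp_101_s1) (xt := Ext.none) (P1 := 536870912) (W1 := 536870912) (P2 := 0) (W2 := 536870912) (P3 := 1033476505) (W3 := 6710887)
    rfl k0_A05pp_101_s1

theorem s_A05pp_101_s1 {κ x : ℝ} (hκ : κ * h0 = ken x) (hx : ((1033476505 : ℕ) : ℝ) / S ≤ x)
    (hx' : x ≤ (((1033476505 : ℕ) : ℝ) + (6710887 : ℕ)) / S) :
    AltA (VFD κ) PP tK tL pcB [⟨3, 0, 0, 1449551462⟩] 1 0 1 0 5 (sgb true) (sgb true) x :=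
  strip_altAD (m := 1449551462) true rfl hκ (SH.κ0 hκ (SH.hx1 hx).le (SH.hx2 hx').le) (SH.hx1 hx).le (SH.hx2 hx') (covB01).cov (covB50).cov hx hx' c_A05pp_101_s1 cutA_nil (noExt_A)

noncomputable def cut_A05pp_102_s1 : Cut := Cut.of [[⟨4, 0, 0, 1449551462⟩]]

noncomputable def f_A05pp_102_s1 : ℕ → ℕ → ℕ → ℕ → Bool := onCell 536870912 536870912 0 536870912 1033476505 6710887
    (rowF 0 true true true .npp 1 0 2 (qsf 536870912 536870912 0 536870912 2) ndB0q1 ndB5q0 pcB2 cut_A05pp_102_s1 Ext.none)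

def k0_A05pp_102_s1 : ∃ t, chk3 f_A05pp_102_s1 t 1 1 1 = true :=
  ⟨(l 4), by decide +kernel⟩

theorem c_A05pp_102_s1 : CertF 536870912 536870912 0 536870912 1033476505 6710887 true true true .npp 1 0 2
    ndB0q1 ndB5q0 pcB2 cut_A05pp_102_s1 Ext.none :=
  certF0 (fam := true) (s1 := true) (s2 := true) (a := 1) (b := 0) (c := 2) (cn := .npp) (n1 := ndB0q1) (n2 := ndB5q0) (pc := pcB2) (cut := cut_A05pp_102_s1) (xt := Ext.none) (P1 := 536870912) (W1 := 536870912) (P2 := 0) (W2 := 536870912) (P3 := 1033476505) (W3 := 6710887)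
    rfl k0_A05pp_102_s1

theorem s_A05pp_102_s1 {κ x : ℝ} (hκ : κ * h0 = ken x) (hx : ((1033476505 : ℕ) : ℝ) / S ≤ x)
    (hx' : x ≤ (((1033476505 : ℕ) : ℝ) + (6710887 : ℕ)) / S) :
    AltA (VFD κ) PP tK tL pcB [⟨3, 0, 0, 1449551462⟩] 1 0 2 0 5 (sgb true) (sgb true) x :=
  strip_altAD (m := 1449551462) true rfl hκ (SH.κ0 hκ (SH.hx1 hx).le (SH.hx2 hx').le) (SH.hx1 hx).le (SH.hx2 hx') (covB01).cov (covB50).cov hx hx' c_A05pp_102_s1 cutA_nil (noExt_A)

noncomputable def cut_A05pp_112_s1 : Cut := Cut.of [[⟨4, 0, 0, 1449551462⟩]]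

noncomputable def f_A05pp_112_s1 : ℕ → ℕ → ℕ → ℕ → Bool := onCell 536870912 536870912 536870912 536870912 1033476505 6710887
    (rowF 0 true true true .dn 1 1 2 (qsf 536870912 536870912 536870912 536870912 2) ndB0q1 ndB5q1 pcB2 cut_A05pp_112_s1 Ext.none)

def k0_A05pp_112_s1 : ∃ t, chk3 f_A05pp_112_s1 t 1 1 1 = true :=
  ⟨(l 4), by decide +kernel⟩

theorem c_A05pp_112_s1 : CertF 536870912 536870912 536870912 536870912 1033476505 6710887 true true true .dn 1 1 2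
    ndB0q1 ndB5q1 pcB2 cut_A05pp_112_s1 Ext.none :=
  certF0 (fam := true) (s1 := true) (s2 := true) (a := 1) (b := 1) (c := 2) (cn := .dn) (n1 := ndB0q1) (n2 := ndB5q1) (pc := pcB2) (cut := cut_A05pp_112_s1) (xt := Ext.none) (P1 := 536870912) (W1 := 536870912) (P2 := 536870912) (W2 := 536870912) (P3 := 1033476505) (W3 := 6710887)
    rfl k0_A05pp_112_s1

theorem s_A05pp_112_s1 {κ x : ℝ} (hκ : κ * h0 = ken x) (hx : ((1033476505 : ℕ) : ℝ) / S ≤ x)
    (hx' : x ≤ (((1033476505 : ℕ) : ℝ) + (6710887 : ℕ)) / S) :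
    AltA (VFD κ) PP tK tL pcB [⟨3, 0, 0, 1449551462⟩] 1 1 2 0 5 (sgb true) (sgb true) x :=
  strip_altAD (m := 1449551462) true rfl hκ (SH.κ0 hκ (SH.hx1 hx).le (SH.hx2 hx').le) (SH.hx1 hx).le (SH.hx2 hx') (covB01).cov (covB51).cov hx hx' c_A05pp_112_s1 cutA_nil (noExt_A)

noncomputable def cut_A05pp_113_s1 : Cut := Cut.of [[⟨4, 0, 0, 1449551462⟩]]

noncomputable def f_A05pp_113_s1 : ℕ → ℕ → ℕ → ℕ → Bool := onCell 536870912 536870912 536870912 536870912 1033476505 6710887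
    (rowF 0 true true true .nn 1 1 3 (qsf 536870912 536870912 536870912 536870912 3) ndB0q1 ndB5q1 pcB3 cut_A05pp_113_s1 Ext.none)

def k0_A05pp_113_s1 : ∃ t, chk3 f_A05pp_113_s1 t 1 1 1 = true :=
  ⟨(l 4), by decide +kernel⟩

theorem c_A05pp_113_s1 : CertF 536870912 536870912 536870912 536870912 1033476505 6710887 true true true .nn 1 1 3
    ndB0q1 ndB5q1 pcB3 cut_A05pp_113_s1 Ext.none :=
  certF0 (fam := true) (s1 := true) (s2 := true) (a := 1) (b := 1) (c := 3) (cn := .nn) (n1 := ndB0q1) (n2 := ndB5q1) (pc := pcB3) (cut := cut_A05pp_113_s1) (xt := Ext.none) (P1 := 536870912) (W1 := 536870912) (P2 := 536870912) (W2 := 536870912) (P3 := 1033476505) (W3 := 6710887)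
    rfl k0_A05pp_113_s1

theorem s_A05pp_113_s1 {κ x : ℝ} (hκ : κ * h0 = ken x) (hx : ((1033476505 : ℕ) : ℝ) / S ≤ x)
    (hx' : x ≤ (((1033476505 : ℕ) : ℝ) + (6710887 : ℕ)) / S) :
    AltA (VFD κ) PP tK tL pcB [⟨3, 0, 0, 1449551462⟩] 1 1 3 0 5 (sgb true) (sgb true) x :=
  strip_altAD (m := 1449551462) true rfl hκ (SH.κ0 hκ (SH.hx1 hx).le (SH.hx2 hx').le) (SH.hx1 hx).le (SH.hx2 hx') (covB01).cov (covB51).cov hx hx' c_A05pp_113_s1 cutA_nil (noExt_A)

noncomputable def cut_A05pp_123_s1 : Cut := Cut.of [[⟨4, 0, 0, 1449551462⟩]]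

noncomputable def f_A05pp_123_s1 : ℕ → ℕ → ℕ → ℕ → Bool := onCell 536870912 536870912 1073741824 536870912 1033476505 6710887
    (rowF 0 true true true .npn 1 2 3 (qsf 536870912 536870912 1073741824 536870912 3) ndB0q1 ndB5q2 pcB3 cut_A05pp_123_s1 Ext.none)

def k0_A05pp_123_s1 : ∃ t, chk3 f_A05pp_123_s1 t 1 1 1 = true :=
  ⟨(l 4), by decide +kernel⟩

theorem c_A05pp_123_s1 : CertF 536870912 536870912 1073741824 536870912 1033476505 6710887 true true true .npn 1 2 3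
    ndB0q1 ndB5q2 pcB3 cut_A05pp_123_s1 Ext.none :=
  certF0 (fam := true) (s1 := true) (s2 := true) (a := 1) (b := 2) (c := 3) (cn := .npn) (n1 := ndB0q1) (n2 := ndB5q2) (pc := pcB3) (cut := cut_A05pp_123_s1) (xt := Ext.none) (P1 := 536870912) (W1 := 536870912) (P2 := 1073741824) (W2 := 536870912) (P3 := 1033476505) (W3 := 6710887)
    rfl k0_A05pp_123_s1

theorem s_A05pp_123_s1 {κ x : ℝ} (hκ : κ * h0 = ken x) (hx : ((1033476505 : ℕ) : ℝ) / S ≤ x)
    (hx' : x ≤ (((1033476505 : ℕ) : ℝ) + (6710887 : ℕ)) / S) :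
    AltA (VFD κ) PP tK tL pcB [⟨3, 0, 0, 1449551462⟩] 1 2 3 0 5 (sgb true) (sgb true) x :=
  strip_altAD (m := 1449551462) true rfl hκ (SH.κ0 hκ (SH.hx1 hx).le (SH.hx2 hx').le) (SH.hx1 hx).le (SH.hx2 hx') (covB01).cov (covB52).cov hx hx' c_A05pp_123_s1 cutA_nil (noExt_A)

noncomputable def cut_A05pp_133_s1 : Cut := Cut.of [[⟨4, 0, 0, 1449551462⟩]]

noncomputable def f_A05pp_133_s1 : ℕ → ℕ → ℕ → ℕ → Bool := onCell 536870912 536870912 0 1230186008 1033476505 6710887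
    (rowF 0 true true true .dn 1 3 3 (qsf 536870912 536870912 0 1230186008 3) ndB0q1 ndB5q3 pcB3 cut_A05pp_133_s1 Ext.none)

def k0_A05pp_133_s1 : ∃ t, chk3 f_A05pp_133_s1 t 1 1 1 = true :=
  ⟨(l 4), by decide +kernel⟩

theorem c_A05pp_133_s1 : CertF 536870912 536870912 0 1230186008 1033476505 6710887 true true true .dn 1 3 3
    ndB0q1 ndB5q3 pcB3 cut_A05pp_133_s1 Ext.none :=
  certF0 (fam := true) (s1 := true) (s2 := true) (a := 1) (b := 3) (c := 3) (cn := .dn) (n1 := ndB0q1) (n2 := ndB5q3) (pc := pcB3) (cut := cut_A05pp_133_s1) (xt := Ext.none) (P1 := 536870912) (W1 := 536870912) (P2 := 0) (W2 := 1230186008) (P3 := 1033476505) (W3 := 6710887)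
    rfl k0_A05pp_133_s1

theorem s_A05pp_133_s1 {κ x : ℝ} (hκ : κ * h0 = ken x) (hx : ((1033476505 : ℕ) : ℝ) / S ≤ x)
    (hx' : x ≤ (((1033476505 : ℕ) : ℝ) + (6710887 : ℕ)) / S) :
    AltA (VFD κ) PP tK tL pcB [⟨3, 0, 0, 1449551462⟩] 1 3 3 0 5 (sgb true) (sgb true) x :=
  strip_altAD (m := 1449551462) true rfl hκ (SH.κ0 hκ (SH.hx1 hx).le (SH.hx2 hx').le) (SH.hx1 hx).le (SH.hx2 hx') (covB01).cov (covB53).cov hx hx' c_A05pp_133_s1 cutA_nil (noExt_A)

noncomputable def cut_A05pp_202_s1 : Cut := Cut.of [[⟨4, 0, 0, 1449551462⟩]]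

noncomputable def f_A05pp_202_s1 : ℕ → ℕ → ℕ → ℕ → Bool := onCell 0 536870912 0 536870912 1033476505 6710887
    (rowF 0 true true true .pp 2 0 2 (qsf 0 536870912 0 536870912 2) ndB0q2 ndB5q0 pcB2 cut_A05pp_202_s1 Ext.none)

def k0_A05pp_202_s1 : ∃ t, chk3 f_A05pp_202_s1 t 1 1 1 = true :=
  ⟨(l 4), by decide +kernel⟩

theorem c_A05pp_202_s1 : CertF 0 536870912 0 536870912 1033476505 6710887 true true true .pp 2 0 2
    ndB0q2 ndB5q0 pcB2 cut_A05pp_202_s1 Ext.none :=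
  certF0 (fam := true) (s1 := true) (s2 := true) (a := 2) (b := 0) (c := 2) (cn := .pp) (n1 := ndB0q2) (n2 := ndB5q0) (pc := pcB2) (cut := cut_A05pp_202_s1) (xt := Ext.none) (P1 := 0) (W1 := 536870912) (P2 := 0) (W2 := 536870912) (P3 := 1033476505) (W3 := 6710887)
    rfl k0_A05pp_202_s1

theorem s_A05pp_202_s1 {κ x : ℝ} (hκ : κ * h0 = ken x) (hx : ((1033476505 : ℕ) : ℝ) / S ≤ x)
    (hx' : x ≤ (((1033476505 : ℕ) : ℝ) + (6710887 : ℕ)) / S) :
    AltA (VFD κ) PP tK tL pcB [⟨3, 0, 0, 1449551462⟩] 2 0 2 0 5 (sgb true) (sgb true) x :=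
  strip_altAD (m := 1449551462) true rfl hκ (SH.κ0 hκ (SH.hx1 hx).le (SH.hx2 hx').le) (SH.hx1 hx).le (SH.hx2 hx') (covB02).cov (covB50).cov hx hx' c_A05pp_202_s1 cutA_nil (noExt_A)

noncomputable def cut_A05pp_203_s1 : Cut := Cut.of [[⟨4, 0, 0, 1449551462⟩]]

noncomputable def f_A05pp_203_s1 : ℕ → ℕ → ℕ → ℕ → Bool := onCell 0 536870912 0 536870912 1033476505 6710887
    (rowF 0 true true true .up 2 0 3 (qsf 0 536870912 0 536870912 3) ndB0q2 ndB5q0 pcB3 cut_A05pp_203_s1 Ext.none)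

def k0_A05pp_203_s1 : ∃ t, chk3 f_A05pp_203_s1 t 1 1 1 = true :=
  ⟨(l 4), by decide +kernel⟩

theorem c_A05pp_203_s1 : CertF 0 536870912 0 536870912 1033476505 6710887 true true true .up 2 0 3
    ndB0q2 ndB5q0 pcB3 cut_A05pp_203_s1 Ext.none :=
  certF0 (fam := true) (s1 := true) (s2 := true) (a := 2) (b := 0) (c := 3) (cn := .up) (n1 := ndB0q2) (n2 := ndB5q0) (pc := pcB3) (cut := cut_A05pp_203_s1) (xt := Ext.none) (P1 := 0) (W1 := 536870912) (P2 := 0) (W2 := 536870912) (P3 := 1033476505) (W3 := 6710887)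
    rfl k0_A05pp_203_s1

theorem s_A05pp_203_s1 {κ x : ℝ} (hκ : κ * h0 = ken x) (hx : ((1033476505 : ℕ) : ℝ) / S ≤ x)
    (hx' : x ≤ (((1033476505 : ℕ) : ℝ) + (6710887 : ℕ)) / S) :
    AltA (VFD κ) PP tK tL pcB [⟨3, 0, 0, 1449551462⟩] 2 0 3 0 5 (sgb true) (sgb true) x :=
  strip_altAD (m := 1449551462) true rfl hκ (SH.κ0 hκ (SH.hx1 hx).le (SH.hx2 hx').le) (SH.hx1 hx).le (SH.hx2 hx') (covB02).cov (covB50).cov hx hx' c_A05pp_203_s1 cutA_nil (noExt_A)

noncomputable def cut_A05pp_213_s1 : Cut := Cut.of [[⟨4, 0, 0, 1449551462⟩]]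

noncomputable def f_A05pp_213_s1 : ℕ → ℕ → ℕ → ℕ → Bool := onCell 0 536870912 536870912 536870912 1033476505 6710887
    (rowF 0 true true true .pnn 2 1 3 (qsf 0 536870912 536870912 536870912 3) ndB0q2 ndB5q1 pcB3 cut_A05pp_213_s1 Ext.none)

def k0_A05pp_213_s1 : ∃ t, chk3 f_A05pp_213_s1 t 1 1 1 = true :=
  ⟨(l 4), by decide +kernel⟩

theorem c_A05pp_213_s1 : CertF 0 536870912 536870912 536870912 1033476505 6710887 true true true .pnn 2 1 3
    ndB0q2 ndB5q1 pcB3 cut_A05pp_213_s1 Ext.none :=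
  certF0 (fam := true) (s1 := true) (s2 := true) (a := 2) (b := 1) (c := 3) (cn := .pnn) (n1 := ndB0q2) (n2 := ndB5q1) (pc := pcB3) (cut := cut_A05pp_213_s1) (xt := Ext.none) (P1 := 0) (W1 := 536870912) (P2 := 536870912) (W2 := 536870912) (P3 := 1033476505) (W3 := 6710887)
    rfl k0_A05pp_213_s1

theorem s_A05pp_213_s1 {κ x : ℝ} (hκ : κ * h0 = ken x) (hx : ((1033476505 : ℕ) : ℝ) / S ≤ x)
    (hx' : x ≤ (((1033476505 : ℕ) : ℝ) + (6710887 : ℕ)) / S) :
    AltA (VFD κ) PP tK tL pcB [⟨3, 0, 0, 1449551462⟩] 2 1 3 0 5 (sgb true) (sgb true) x :=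
  strip_altAD (m := 1449551462) true rfl hκ (SH.κ0 hκ (SH.hx1 hx).le (SH.hx2 hx').le) (SH.hx1 hx).le (SH.hx2 hx') (covB02).cov (covB51).cov hx hx' c_A05pp_213_s1 cutA_nil (noExt_A)

noncomputable def cut_A05pm_001_s1 : Cut := Cut.of [[⟨4, 0, 0, 1449551462⟩]]

noncomputable def xt_A05pm_001_s1 : Ext := strExt dd true true false .u0 .s0m .u0m .up 0 0 1 rfl rfl gf1 vv ndB0q0 ndB5q0

noncomputable def f_A05pm_001_s1 : ℕ → ℕ → ℕ → ℕ → Bool := onCell 0 536870912 536870912 536870912 1033476505 6710887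
    (rowF 1 true true false .up 0 0 1 (qsf 0 536870912 0 536870912 1) ndB0q0 ndB5q0 pcB1 cut_A05pm_001_s1 xt_A05pm_001_s1)

def k0_A05pm_001_s1 : ∃ t, chk3 f_A05pm_001_s1 t 1 1 1 = true :=
  ⟨(a (b (l 3) (b (b (l 3) (l 2)) (l 2))) (b (b (l 3) (a (l 3) (b (a (l 3) (b (a (l 3) (l 513421583)) (a (b (l 3) (l 518911247)) (b (l 517262607) (l 519688975))))) (a (b (l 520406543) (l 524932367)) (a (b (l 521630223) (l 525842447)) (b (a (l 522388751) (l 522665231)) (l 526176783))))))) (b (a (b (a (b (l 3) (a (l 3) (l 533132815))) (b (a (l 3) (l 530293007)) (l 533785615))) (b (a (a (l 2) (l 533034511)) (l 531530511)) (a (l 2) (b (l 527770127) (a (l 2) (l 16602264)))))) (b (a (b (l 530055183) (l 535616783)) (b (a (l 530603279) (l 531261967)) (a (l 16674088) (l 16748096)))) (b (a (l 533638415) (a (l 16721848) (l 16716224))) (a (b (l 529344271) (l 526147343)) (a (l 16564944) (l 16545104)))))) (a (a (l 2) (a (l 2) (b (b (l 186930651479)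 (l 2)) (l 2)))) (b (b (a (a (l 16236136) (l 16370752)) (a (l 16343240) (l 16320448))) (a (a (l 15948168) (l 16126880)) (a (l 16109416) (l 16095000)))) (b (a (b (l 201962148439) (l 2)) (a (l 15896144) (l 15894800))) (a (l 2) (l 15719352)))))))), by decide +kernel⟩

theorem c_A05pm_001_s1 : CertF 0 536870912 0 536870912 1033476505 6710887 true true false .up 0 0 1
    ndB0q0 ndB5q0 pcB1 cut_A05pm_001_s1 xt_A05pm_001_s1 :=
  certF1 (fam := true) (s1 := true) (s2 := false) (a := 0) (b := 0) (c := 1) (cn := .up) (n1 := ndB0q0) (n2 := ndB5q0) (pc := pcB1) (cut := cut_A05pm_001_s1) (xt := xt_A05pm_001_s1) (P1 := 0) (W1 := 536870912) (P2 := 0) (W2 := 536870912) (P3 := 1033476505) (W3 := 6710887)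
    rfl (fun _ => rfl) k0_A05pm_001_s1

theorem s_A05pm_001_s1 {κ x : ℝ} (hκ : κ * h0 = ken x) (hx : ((1033476505 : ℕ) : ℝ) / S ≤ x)
    (hx' : x ≤ (((1033476505 : ℕ) : ℝ) + (6710887 : ℕ)) / S) :
    AltA (VFD κ) PP tK tL pcB [⟨3, 0, 0, 1449551462⟩] 0 0 1 0 5 (sgb true) (sgb false) x :=
  strip_altAD (m := 1449551462) true rfl hκ (SH.κ0 hκ (SH.hx1 hx).le (SH.hx2 hx').le) (SH.hx1 hx).le (SH.hx2 hx') (covB00).cov (covB50).cov hx hx' c_A05pm_001_s1 cutA_nil ((okx hx hx').extA (T := tt) (sideB hx hx') hκ rfl rfl (.O 0 true) (.N 0 false) (Or.inr rfl))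

noncomputable def cut_A05pm_011_s1 : Cut := Cut.of [[⟨4, 0, 0, 1449551462⟩], [⟨0, 0, 0, 22369621⟩, ⟨1, 1, 0, 22369621⟩, ⟨2, 1, 0, 22369621⟩]]

noncomputable def xt_A05pm_011_s1 : Ext := strExt dd true true false .u0 .s0m .u0m .pnn 0 1 1 rfl rfl gf1 vv ndB0q0 ndB5q1

noncomputable def f_A05pm_011_s1 : ℕ → ℕ → ℕ → ℕ → Bool := onCell 0 536870912 536870912 536870912 1033476505 6710887
    (rowF 1 true true false .pnn 0 1 1 (qsf 0 536870912 536870912 536870912 1) ndB0q0 ndB5q1 pcB1 cut_A05pm_011_s1 xt_A05pm_011_s1)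

def k0_A05pm_011_s1 : ∃ t, chk3 f_A05pm_011_s1 t 1 2 1 = true :=
  ⟨(a (l 3) (a (b (l 1) (l 3)) (l 1))), by decide +kernel⟩

def k1_A05pm_011_s1 : ∃ t, chk3 f_A05pm_011_s1 t 2 6 1 = true :=
  ⟨(a (l 3) (a (l 3) (b (l 3) (b (l 3) (a (b (l 3) (a (l 3) (l 523587087))) (b (a (l 3) (b (a (l 3) (a (l 3) (l 529392655))) (l 526952719))) (a (l 522940943) (l 521602575)))))))), by decide +kernel⟩

def k2_A05pm_011_s1 : ∃ t, chk3 f_A05pm_011_s1 t 2 14 1 = true :=
  ⟨(a (b (l 3) (b (l 3) (b (l 3) (a (l 3) (a (l 3) (a (l 3) (a (a (l 3) (b (l 3) (a (l 518667279) (l 518219023)))) (b (l 518301455) (a (l 517975567) (l 517728527)))))))))) (a (b (a (l 3) (b (l 3) (a (l 519294223) (l 518840335)))) (a (b (a (l 3) (b (l 518817039) (a (l 518599183) (l 518733839)))) (a (b (a (c (l 518441231) (l 518407183)) (l 518192399)) (a (a (l 517760527) (b (l 517823247) (l 517387279))) (b (l 517672207) (l 517244943)))) (b (a (l 518147343) (l 518285071))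 (b (l 517677583) (a (l 517220623) (l 16630336)))))) (b (a (b (l 519079695) (l 519262735)) (l 518485263)) (b (a (l 518814991) (l 519378447)) (a (a (l 517911055) (l 16695152)) (l 519456015)))))) (b (a (b (a (l 520379663) (l 519318543)) (a (l 517912847) (l 516632847))) (b (a (l 517968655) (l 516364047)) (a (l 515037455) (l 513162255)))) (b (a (a (l 517353999) (l 515844111)) (a (l 513993231) (l 511837455))) (a (b (a (l 16665512) (l 16538584)) (a (l 16648768) (l 16603952))) (b (l 513185039) (l 513298703))))))), by decide +kernel⟩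

def k3_A05pm_011_s1 : ∃ t, chk3 f_A05pm_011_s1 t 8 30 1 = true :=
  ⟨(b (l 3) (a (l 3) (a (l 3) (b (l 3) (a (l 3) (l 523142671)))))), by decide +kernel⟩

def k4_A05pm_011_s1 : ∃ t, chk3 f_A05pm_011_s1 t 18 30 1 = true :=
  ⟨(b (a (l 3) (b (l 3) (a (l 3) (b (l 3) (a (l 522658575) (l 521034767)))))) (a (b (a (l 3) (b (l 3) (b (b (l 3) (l 523790607)) (l 524429839)))) (a (l 524550415) (l 523194127))) (b (a (b (a (a (l 3) (l 523838479)) (l 523914767)) (a (b (a (a (b (l 3) (l 524981263)) (b (l 525058063) (l 524843279))) (l 524179727)) (a (a (l 524698895) (l 524090127)) (b (l 16772424) (l 16770576)))) (b (l 522328847) (l 522551311)))) (b (a (l 521089551) (l 517882127)) (b (a (l 519340815) (l 516136975)) (l 515995919)))) (a (a (b (a (l 523108879) (l 16764240)) (l 16732952)) (b (a (l 16763240) (l 16760384)) (l 16750352))) (b (a (l 520955151) (l 16697176)) (a (l 16748928) (l 16734184))))))), by decide +kernel⟩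

def k5_A05pm_011_s1 : ∃ t, chk3 f_A05pm_011_s1 t 19 30 1 = true :=
  ⟨(b (a (b (a (l 3) (b (l 519507727) (l 518580751))) (a (b (b (a (l 3) (l 519015695)) (a (a (l 521262607) (b (a (l 520334095) (l 519229967)) (l 518833167))) (b (l 518530319) (l 517693967)))) (a (l 517404431) (b (a (l 515183119) (l 515713039)) (a (l 16747864) (l 16732744))))) (b (b (l 517903119) (a (l 517335311) (l 516988687))) (a (b (l 515799823) (l 513429007)) (l 512972047))))) (b (a (a (l 517927695) (b (l 517360399) (l 516748047))) (b (a (l 517262351) (l 517012239)) (a (l 516143119) (l 16700136)))) (a (b (l 515921679) (a (l 16693816) (l 16642656))) (b (b (l 16692864) (l 16643000)) (l 16670360))))) (a (b (a (a (b (l 514296079) (a (l 16719440) (l 16690848))) (b (b (l 16735896) (l 16736240)) (c (l 16678992) (l 16678504)))) (b (a (b (l 16736376) (l 16724696)) (l 510338063)) (a (c (l 16664600) (l 16663960)) (c (l 16694848) (l 16652176))))) (a (a (a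 (l 16701808) (l 16671048)) (a (l 16660672) (l 16671496))) (b (a (l 16686008) (l 16670544)) (l 16620096)))) (b (a (b (b (l 16671840) (l 16700576)) (a (l 16642024) (l 16674168))) (b (l 16603608) (l 16616568))) (a (b (a (l 16657824) (l 16646312)) (a (l 16636440) (l 16622664))) (b (l 16630376) (a (l 16610352) (l 16599552))))))), by decide +kernel⟩

def k6_A05pm_011_s1 : ∃ t, chk3 f_A05pm_011_s1 t 4 62 1 = true :=
  ⟨(a (a (b (l 3) (a (l 3) (a (l 3) (a (l 3) (a (l 3) (l 523235087)))))) (a (a (b (l 3) (a (l 523256847) (l 523249935))) (b (a (l 3) (l 523376655)) (a (l 523183631) (b (l 523193359) (l 522947343))))) (a (b (a (l 524004623) (l 523669775)) (a (l 522736911) (l 522385935))) (b (l 523003407) (l 521666575))))) (a (a (b (a (l 521857551) (l 520401935)) (a (l 520382223) (l 518822159))) (a (a (b (l 519199247) (l 16704952)) (b (l 16686672) (l 16697744))) (b (a (l 16728744) (l 16690216)) (l 16697128)))) (a (a (b (a (l 16626952)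 (l 16602704)) (a (l 16710848) (l 16686456))) (b (a (l 16659680) (l 16636264)) (l 16560120))) (a (b (a (l 16614800) (l 16553552)) (a (l 16601136) (l 16575440))) (b (b (c (l 16582856) (l 16581136)) (l 16521288)) (a (l 16551944) (l 16531384))))))), by decide +kernel⟩

def k7_A05pm_011_s1 : ∃ t, chk3 f_A05pm_011_s1 t 4 63 1 = true :=
  ⟨(a (a (b (a (a (l 3) (a (l 3) (a (l 3) (a (l 3) (l 522514447))))) (a (a (a (a (l 522584079) (l 522649615)) (a (l 522710799) (l 522768143))) (a (l 522839311) (l 522930959))) (a (a (l 523006735) (l 523066639)) (l 523113743)))) (a (b (a (l 14) (a (l 14) (a (a (l 14) (l 522873359)) (a (l 522945807) (l 523013903))))) (l 14)) (a (a (a (a (l 523306255) (l 523365903)) (b (l 523212559) (l 523741711))) (a (b (l 523310351) (l 16758936)) (l 523614991))) (a (a (l 523678479) (l 523726095)) (b (l 16757168) (l 16749568)))))) (a (a (a (b (l 523143951) (l 523758607)) (b (l 523112719) (l 523700751))) (a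 (b (l 523021071) (l 523581967)) (b (l 522870287) (l 16734296)))) (a (b (b (l 16747176) (l 16738136)) (b (l 16729680) (l 16722184))) (b (l 521452047) (l 16711816))))) (a (a (a (b (l 16671672) (l 16610512)) (b (l 16610376) (l 16672696))) (a (b (l 16589048) (l 16648472)) (b (l 16665088) (l 16637496)))) (a (a (a (l 16660416) (l 16674640)) (b (l 16562288) (l 16648776))) (a (b (l 16501792) (l 16503232)) (b (l 16441976) (l 16522920)))))), by decide +kernel⟩

def k8_A05pm_011_s1 : ∃ t, chk3 f_A05pm_011_s1 t 5 15 1 = true :=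
  ⟨(b (a (b (a (b (a (a (b (a (l 516879887) (l 16699208)) (l 515879951)) (b (l 516669455) (l 16672680))) (a (b (l 16630720) (l 16699160)) (l 16650440))) (a (a (b (l 16672304) (l 16610520)) (b (l 16614216) (l 16677496))) (b (a (l 16682288) (l 16667248)) (l 16612008)))) (b (a (a (l 16594760) (l 16582368)) (l 16650968)) (a (a (l 16559448) (l 16547120)) (l 16616232)))) (a (b (a (a (b (l 16668520) (l 16638720)) (l 16573136)) (b (l 16543728) (l 16554680))) (a (a (l 16554376) (l 16577128)) (a (l 16560424) (l 16545472)))) (b (a (b (l 16600416) (l 16570824)) (l 16482816)) (a (l 16527288) (l 16510384))))) (b (a (b (a (l 16638424) (l 16592008)) (a (l 16605360) (l 16590128))) (b (l 513267471) (a (l 16529496) (l 16454560)))) (a (a (b (l 16558376) (l 16504896)) (l 16455056)) (a (l 16475280) (l 16476944))))) (a (a (b (a (b (a (b (l 16559448) (l 16494200)) (l 16526952)) (a (a (l 16514968) (l 16500352)) (b (l 16493552) (l 16471512))))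 (b (a (l 16508248) (l 16492648)) (a (l 16462032) (l 16444240)))) (a (a (b (c (l 16478808) (l 16476648)) (l 16461664)) (b (c (l 16444696) (l 16400248)) (l 16413144))) (b (a (b (l 16429736) (l 16407792)) (l 16399160)) (a (l 16379112) (l 16353512))))) (b (a (b (l 16473240) (l 16424192)) (l 16349432)) (a (b (l 16376472) (l 16329448)) (b (l 16358912) (l 16310336))))) (b (a (a (l 16430336) (l 16442520)) (a (l 16472112) (l 16514696))) (a (a (l 16333480) (l 16348560)) (a (l 16382704) (l 16437784)))))), by decide +kernel⟩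

def k9_A05pm_011_s1 : ∃ t, chk3 f_A05pm_011_s1 t 3 3 1 = true :=
  ⟨(b (b (a (a (b (l 3) (a (l 3) (l 533150223))) (b (l 1) (l 534880783))) (l 1)) (a (b (a (a (l 531480847) (l 533011983)) (l 533112335)) (a (b (a (b (l 529265423) (a (b (l 527555599) (a (a (l 16742984) (l 16759416)) (l 16669240))) (l 527165711))) (b (l 529174543) (l 527381775))) (a (a (a (b (b (l 16729960) (l 16738176)) (l 16631976)) (b (l 16650040) (l 16700960))) (b (l 523784975) (l 16599872))) (a (l 16600392) (l 16581280)))) (b (a (l 528445711) (l 16592640)) (a (l 16552936) (l 16600744))))) (b (l 1) (a (b (l 1) (l 234645441847)) (l 1))))) (b (a (b (a (a (a (a (b (l 515094287) (l 16498224)) (b (l 514797327) (l 16555256))) (b (b (l 16640992) (l 16593344)) (l 510879247))) (b (a (l 16508096) (l 16570872)) (a (l 16400680) (l 16456296)))) (b (a (l 16538448) (l 16497536)) (a (l 16422400) (l 16379008)))) (a (b (a (a (l 509618959) (l 16426032)) (a (l 16376544)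 (l 16339968))) (a (a (l 16333264) (l 16345016)) (a (l 16283880) (l 16233784)))) (b (a (l 511510543) (l 16255744)) (a (l 16181848) (l 16136152))))) (b (a (a (l 16317368) (l 16368312)) (l 1)) (a (a (l 16154936) (l 16124240)) (l 287257630615)))) (b (a (b (a (a (a (b (l 16380664) (l 16367432)) (l 16288320)) (b (l 16199704) (l 16171920))) (a (l 15939424) (l 16024952))) (a (a (a (l 16380872) (l 16285144)) (l 16159000)) (a (l 16027368) (l 15946048)))) (a (b (l 15972288) (l 15880496)) (l 15639512))) (a (a (a (a (a (l 16446960) (l 16389064)) (l 16221176)) (a (l 16198736) (l 16100504))) (a (l 15971664) (l 15849048))) (a (a (l 15767560) (l 15730504)) (l 15713056)))))), by decide +kernel⟩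

theorem t10_A05pm_011_s1 : ∃ t, chk3 f_A05pm_011_s1 t 4 31 1 = true := ex3_b k6_A05pm_011_s1 k7_A05pm_011_s1

theorem t11_A05pm_011_s1 : ∃ t, chk3 f_A05pm_011_s1 t 9 30 1 = true := ex3_a k4_A05pm_011_s1 k5_A05pm_011_s1

theorem t12_A05pm_011_s1 : ∃ t, chk3 f_A05pm_011_s1 t 4 30 1 = true := ex3_a k3_A05pm_011_s1 t11_A05pm_011_s1

theorem t13_A05pm_011_s1 : ∃ t, chk3 f_A05pm_011_s1 t 4 15 1 = true := ex3_b t12_A05pm_011_s1 t10_A05pm_011_s1

theorem t14_A05pm_011_s1 : ∃ t, chk3 f_A05pm_011_s1 t 2 15 1 = true := ex3_a t13_A05pm_011_s1 k8_A05pm_011_s1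

theorem t15_A05pm_011_s1 : ∃ t, chk3 f_A05pm_011_s1 t 2 7 1 = true := ex3_b k2_A05pm_011_s1 t14_A05pm_011_s1

theorem t16_A05pm_011_s1 : ∃ t, chk3 f_A05pm_011_s1 t 2 3 1 = true := ex3_b k1_A05pm_011_s1 t15_A05pm_011_s1

theorem t17_A05pm_011_s1 : ∃ t, chk3 f_A05pm_011_s1 t 1 3 1 = true := ex3_a t16_A05pm_011_s1 k9_A05pm_011_s1

theorem t18_A05pm_011_s1 : ∃ t, chk3 f_A05pm_011_s1 t 1 1 1 = true := ex3_b k0_A05pm_011_s1 t17_A05pm_011_s1

theorem c_A05pm_011_s1 : CertF 0 536870912 536870912 536870912 1033476505 6710887 true true false .pnn 0 1 1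
    ndB0q0 ndB5q1 pcB1 cut_A05pm_011_s1 xt_A05pm_011_s1 :=
  certF1 (fam := true) (s1 := true) (s2 := false) (a := 0) (b := 1) (c := 1) (cn := .pnn) (n1 := ndB0q0) (n2 := ndB5q1) (pc := pcB1) (cut := cut_A05pm_011_s1) (xt := xt_A05pm_011_s1) (P1 := 0) (W1 := 536870912) (P2 := 536870912) (W2 := 536870912) (P3 := 1033476505) (W3 := 6710887)
    rfl (fun _ => rfl) t18_A05pm_011_s1

theorem s_A05pm_011_s1 {κ x : ℝ} (hκ : κ * h0 = ken x) (hx : ((1033476505 : ℕ) : ℝ) / S ≤ x)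
    (hx' : x ≤ (((1033476505 : ℕ) : ℝ) + (6710887 : ℕ)) / S)
    (H : CutA (VFD κ) PP tK tL pcB (Cut.of [[⟨0, 0, 0, 22369621⟩, ⟨1, 1, 0, 22369621⟩, ⟨2, 1, 0, 22369621⟩]]) 0 1 1 0 5 (sgb true) (sgb false) x) :
    AltA (VFD κ) PP tK tL pcB [⟨3, 0, 0, 1449551462⟩] 0 1 1 0 5 (sgb true) (sgb false) x :=
  strip_altAD (m := 1449551462) true rfl hκ (SH.κ0 hκ (SH.hx1 hx).le (SH.hx2 hx').le) (SH.hx1 hx).le (SH.hx2 hx') (covB00).cov (covB51).cov hx hx' c_A05pm_011_s1 H ((okx hx hx').extA (T := tt) (sideB hx hx') hκ rfl rfl (.O 0 true) (.N 1 false) (Or.inr rfl))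

noncomputable def cut_A05pm_012_s1 : Cut := Cut.of [[⟨4, 0, 0, 1449551462⟩], [⟨0, 0, 0, 33554432⟩, ⟨1, 1, 0, 33554432⟩, ⟨2, 1, 0, 33554432⟩]]

noncomputable def f_A05pm_012_s1 : ℕ → ℕ → ℕ → ℕ → Bool := onCell 1073741824 536870912 536870912 536870912 1033476505 6710887
    (rowF 2 true true false .pnp 0 1 2 (qsf 0 536870912 536870912 536870912 2) ndB0q0 ndB5q1 pcB2 cut_A05pm_012_s1 Ext.none)

def k0_A05pm_012_s1 : ∃ t, chk3 f_A05pm_012_s1 t 4 2 1 = true :=
  ⟨(a (b (b (a (b (l 15867984) (l 15861888)) (l 6)) (a (b (l 15863808) (l 15886400)) (b (l 15831448) (l 15850584)))) (b (a (b (l 15954704) (l 16077752)) (b (l 15915240) (l 16033680))) (a (b (l 16161680) (a (b (l 16403920) (l 16415984)) (l 16431840))) (b (l 16197632) (l 16395512))))) (b (l 6) (b (b (l 15855272) (l 15956504)) (b (l 16022480) (l 16294152))))), by decide +kernel⟩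

def k1_A05pm_012_s1 : ∃ t, chk3 f_A05pm_012_s1 t 4 6 1 = true :=
  ⟨(b (a (b (a (b (l 16236344) (l 16164512)) (b (l 16259808) (l 16065424))) (a (b (l 16103856) (a (l 16216824) (l 16101192))) (b (l 15981264) (a (l 16012112) (l 15953608))))) (b (a (l 16077768) (l 16123112)) (a (b (l 16003880) (a (l 15908544) (l 15882504))) (l 15900008)))) (a (a (b (b (a (l 16219136) (l 16080208)) (a (l 16243552) (l 16085408))) (b (a (b (l 16276120) (l 16307632)) (b (l 16106400) (l 16131616))) (a (b (l 16270528) (l 16247360)) (b (l 16173280) (l 16230096))))) (b (b (a (l 15963976) (l 15874456)) (a (l 15945824) (l 15829088))) (b (a (b (l 15951936) (l 15968592)) (b (l 15817256) (l 15823200))) (a (b (l 16002808) (l 16053304)) (b (l 15847752) (l 15889672)))))) (b (a (b (a (l 15815648) (l 15770408)) (a (l 15739208) (l 15680168))) (b (l 15730176) (a (l 15634832) (l 15608776)))) (a (b (a (b (l 15706560) (l 15699800)) (b (l 15623768) (l 15602456)))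 (a (b (l 15712624) (l 15743816)) (b (l 15601624) (l 15620096)))) (b (a (a (l 15564792) (l 15540720)) (b (l 15534976) (l 15490096))) (a (a (l 15454184) (l 15416424)) (a (l 15387728) (l 15363656)))))))), by decide +kernel⟩

def k2_A05pm_012_s1 : ∃ t, chk3 f_A05pm_012_s1 t 8 14 1 = true :=
  ⟨(b (a (a (b (b (l 16319504) (l 16394336)) (a (b (l 16598776) (l 16474896)) (l 16447272))) (b (b (l 16215688) (l 16288576)) (a (l 16354512) (l 16259456)))) (a (b (b (l 16117648) (l 16186592)) (b (l 16169248) (l 16233248))) (b (b (l 15946536) (l 16009136)) (b (l 16070488) (l 16130472))))) (a (a (b (a (b (l 16463800) (a (l 16556744) (l 16558512))) (b (l 16496872) (l 16491568))) (a (b (l 16503176) (l 16622792)) (b (l 16508376) (l 16622392)))) (b (b (l 16390272) (a (l 16524456) (l 16551672))) (a (b (l 16606704) (l 16626624)) (b (l 16502552) (l 16604584))))) (a (b (b (a (l 16421160) (l 16328264)) (l 16333928)) (a (b (l 16497200) (l 16444504))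 (l 16340800))) (b (b (l 16020176) (a (l 16281632) (l 16191672))) (b (l 16188888) (l 16222744)))))), by decide +kernel⟩

def k3_A05pm_012_s1 : ∃ t, chk3 f_A05pm_012_s1 t 8 15 1 = true :=
  ⟨(a (b (a (b (a (a (l 16577536) (l 16669464)) (l 16593616)) (a (b (l 16615504) (a (l 16711456) (l 16716696))) (b (l 16669840) (l 16580496)))) (b (a (b (l 16649112) (l 16627048)) (b (l 16601168) (l 16584944))) (a (l 16521184) (l 16550952)))) (a (b (a (a (b (l 16686560) (l 14)) (b (l 16716144) (l 16632344))) (b (l 16577216) (a (l 16678056) (l 16641040)))) (a (l 14) (b (a (l 14) (l 16639616)) (l 14)))) (a (b (b (l 16592512) (l 16587624)) (b (l 16542768) (a (l 14) (l 16564672)))) (b (b (l 16529704) (l 16520960)) (b (l 16515112) (l 16511616)))))) (b (a (b (a (b (l 16459752) (l 16537784)) (b (l 16468000) (l 16481000))) (a (b (l 16519424) (l 16493200)) (b (l 16473192) (l 16453232)))) (b (a (b (l 16379688) (l 16406072)) (l 16305768)) (a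 (b (l 16417296) (l 16408064)) (b (l 16343216) (l 16353160))))) (a (b (a (l 16466280) (l 16414952)) (a (b (l 16450392) (l 16444216)) (l 16343936))) (b (a (b (l 16387032) (l 16358872)) (b (l 16343016) (l 16321456))) (a (l 16330472) (l 16282224)))))), by decide +kernel⟩

def k4_A05pm_012_s1 : ∃ t, chk3 f_A05pm_012_s1 t 9 7 1 = true :=
  ⟨(b (b (a (b (a (b (l 15791000) (l 15844992)) (b (l 15655528) (l 15698768))) (a (b (l 15898816) (l 15952400)) (l 15681360))) (b (a (b (l 15544328) (l 15574824)) (a (l 15403520) (l 15365752))) (a (l 15624016) (l 15506208)))) (a (a (b (b (l 16005600) (a (l 16101344) (l 16011488))) (b (l 16011344) (l 16043072))) (b (a (l 15899096) (l 15814704)) (b (a (l 15965200) (l 15879256)) (l 15953008)))) (a (b (b (l 15677152) (l 15714664)) (b (l 15752768) (a (l 15828448) (l 15747184)))) (b (l 15554288) (a (l 15650008) (l 15575152)))))) (b (a (a (b (a (l 16217544) (l 16127912)) (a (b (l 16256408) (l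 16280024)) (l 16182608))) (b (a (l 16039592) (l 15952552)) (a (l 16095936) (l 16007816)))) (a (b (a (l 15867296) (l 15784304)) (a (l 15920960) (l 15835360))) (b (a (l 15704048) (l 15627120)) (a (l 15751504) (l 15669896))))) (a (a (b (a (b (l 16289208) (l 16278680)) (b (l 16217120) (l 16226048))) (a (b (l 16257136) (l 16229264)) (b (l 16215680) (l 16194704)))) (b (b (l 16090472) (a (l 16155096) (l 16071312))) (a (b (l 16164312) (l 16154648)) (b (l 16094584) (l 16104632))))) (a (b (a (l 15975192) (l 15888968)) (b (l 15971416) (a (l 16036216) (l 15954920)))) (b (a (l 15803976) (l 15720224)) (a (l 15860240) (l 15776384))))))), by decide +kernel⟩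

def k5_A05pm_012_s1 : ∃ t, chk3 f_A05pm_012_s1 t 5 1 1 = true :=
  ⟨(b (b (l 6) (l 6)) (b (a (b (b (l 6) (a (l 15862344) (l 6))) (b (a (b (l 15683376) (l 15569544)) (l 6)) (a (b (l 15466936) (a (b (l 15429880) (l 15410184)) (l 15387968))) (b (l 6) (l 15265784))))) (l 6)) (b (a (b (a (b (a (a (l 15337072) (l 15313040)) (b (l 15372696) (l 15364984))) (a (l 15331896) (l 15272792))) (b (l 15240256) (a (l 15227896) (l 6)))) (a (b (a (l 15436432) (l 15262200)) (a (l 15471280) (l 15353456))) (b (a (l 15203296) (b (l 15259272) (l 15234856))) (a (l 15242320) (a (l 15133160) (l 15193424)))))) (l 6)) (a (b (b (b (a (a (a (l 15542248) (l 15470312)) (l 15371120)) (a (l 15259960) (l 15177488))) (a (a (a (l 15561904) (l 15490648)) (a (l 15336944) (a (l 15371024) (a (l 15262664) (l 15331568))))) (a (l 15264912) (l 15167792)))) (a (a (a (l 15591000) (l 15515280)) (a (l 15443160) (a (l 15307688) (a (l 15283720) (a (a (a (l 15358344)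 (a (l 15356984) (l 15272344))) (l 15353432)) (l 15347176)))))) (a (b (l 15189832) (l 15283648)) (b (l 15080664) (b (l 15165744) (l 15083456)))))) (a (a (b (a (l 15638256) (l 15558640)) (a (l 15693848) (l 15612792))) (a (b (l 15482072) (l 15534168)) (a (b (l 15343192) (l 15393600)) (a (b (l 15317296) (l 15367424)) (b (a (b (l 15336960) (l 15316264)) (l 15380360)) (b (l 15336392) (l 15365384))))))) (b (a (b (l 15294864) (l 15311048)) (b (l 15085424) (l 15090880))) (a (b (l 15331952) (l 15357448)) (b (l 15102248) (l 15203144)))))) (a (a (b (b (l 6) (b (l 14998584) (l 14987072))) (b (b (b (l 14982560) (l 14980728)) (a (l 15087488) (l 14953688))) (b (l 14977656) (b (l 14981856) (l 14986720))))) (l 6)) (l 6)))))), by decide +kernel⟩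

def k6_A05pm_012_s1 : ∃ t, chk3 f_A05pm_012_s1 t 3 1 1 = true :=
  ⟨(b (l 6) (l 6)), by decide +kernel⟩

theorem t7_A05pm_012_s1 : ∃ t, chk3 f_A05pm_012_s1 t 8 7 1 = true := ex3_b k2_A05pm_012_s1 k3_A05pm_012_s1

theorem t8_A05pm_012_s1 : ∃ t, chk3 f_A05pm_012_s1 t 4 7 1 = true := ex3_a t7_A05pm_012_s1 k4_A05pm_012_s1

theorem t9_A05pm_012_s1 : ∃ t, chk3 f_A05pm_012_s1 t 4 3 1 = true := ex3_b k1_A05pm_012_s1 t8_A05pm_012_s1

theorem t10_A05pm_012_s1 : ∃ t, chk3 f_A05pm_012_s1 t 4 1 1 = true := ex3_b k0_A05pm_012_s1 t9_A05pm_012_s1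

theorem t11_A05pm_012_s1 : ∃ t, chk3 f_A05pm_012_s1 t 2 1 1 = true := ex3_a t10_A05pm_012_s1 k5_A05pm_012_s1

theorem t12_A05pm_012_s1 : ∃ t, chk3 f_A05pm_012_s1 t 1 1 1 = true := ex3_a t11_A05pm_012_s1 k6_A05pm_012_s1

theorem c_A05pm_012_s1 : CertF 0 536870912 536870912 536870912 1033476505 6710887 true true false .pnp 0 1 2
    ndB0q0 ndB5q1 pcB2 cut_A05pm_012_s1 Ext.none :=
  certF2 (fam := true) (s1 := true) (s2 := false) (a := 0) (b := 1) (c := 2) (cn := .pnp) (n1 := ndB0q0) (n2 := ndB5q1) (pc := pcB2) (cut := cut_A05pm_012_s1) (xt := Ext.none) (P1 := 0) (W1 := 536870912) (P2 := 536870912) (W2 := 536870912) (P3 := 1033476505) (W3 := 6710887)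
    rfl (fun _ => rfl) t12_A05pm_012_s1

theorem s_A05pm_012_s1 {κ x : ℝ} (hκ : κ * h0 = ken x) (hx : ((1033476505 : ℕ) : ℝ) / S ≤ x)
    (hx' : x ≤ (((1033476505 : ℕ) : ℝ) + (6710887 : ℕ)) / S)
    (H : CutA (VFD κ) PP tK tL pcB (Cut.of [[⟨0, 0, 0, 33554432⟩, ⟨1, 1, 0, 33554432⟩, ⟨2, 1, 0, 33554432⟩]]) 0 1 2 0 5 (sgb true) (sgb false) x) :
    AltA (VFD κ) PP tK tL pcB [⟨3, 0, 0, 1449551462⟩] 0 1 2 0 5 (sgb true) (sgb false) x :=
  strip_altAD (m := 1449551462) true rfl hκ (SH.κ0 hκ (SH.hx1 hx).le (SH.hx2 hx').le) (SH.hx1 hx).le (SH.hx2 hx') (covB00).cov (covB51).cov hx hx' c_A05pm_012_s1 H (noExt_A)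

noncomputable def cut_A05pm_022_s1 : Cut := Cut.of [[⟨4, 0, 0, 1449551462⟩], [⟨0, 0, 0, 33554432⟩, ⟨1, 1, 0, 33554432⟩, ⟨2, 1, 0, 33554432⟩]]

noncomputable def f_A05pm_022_s1 : ℕ → ℕ → ℕ → ℕ → Bool := onCell 0 536870912 1073741824 536870912 1033476505 6710887
    (rowF 1 true true false .pp 0 2 2 (qsf 0 536870912 1073741824 536870912 2) ndB0q0 ndB5q2 pcB2 cut_A05pm_022_s1 Ext.none)

def k0_A05pm_022_s1 : ∃ t, chk3 f_A05pm_022_s1 t 1 4 1 = true :=
  ⟨(a (b (a (a (b (a (b (a (l 14) (a (l 14) (l 1))) (b (a (l 14) (a (l 14) (b (l 1) (l 16523456)))) (a (a (l 16586064) (l 16618048)) (a (l 16564424) (l 16510312))))) (a (b (l 1) (a (b (l 1) (l 16456976)) (l 1))) (l 1))) (a (a (b (a (l 16563896) (l 16597088)) (l 16518912)) (b (b (l 16439088) (l 16511848)) (l 16416512))) (a (b (b (a (l 16442160) (l 16390008)) (l 16320136)) (b (l 16395776) (l 16390560))) (b (b (l 1) (l 16304640)) (a (l 16315256) (l 16268200)))))) (a (b (l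 1) (a (b (l 1) (a (l 16227272) (l 1))) (l 1))) (l 1))) (l 1)) (a (a (a (b (b (a (l 16506512) (l 16493176)) (a (l 16581480) (l 16408944))) (b (a (l 16552352) (l 16495808)) (a (b (l 16521392) (l 16492176)) (l 16499352)))) (b (b (a (l 16387736) (l 16284592)) (a (l 16391688) (l 16289560))) (b (a (l 16402480) (l 16303608)) (a (l 16417152) (l 16325064))))) (a (b (a (b (l 16197952) (l 16200072)) (b (a (l 16150888) (l 1)) (a (l 16148120) (l 16105480)))) (a (b (l 16213712) (l 16237016)) (b (l 16050416) (l 16155888)))) (a (b (b (l 1) (a (l 16040976) (l 1))) (b (a (l 16046176) (l 15964312)) (a (l 16065400) (l 15981808)))) (b (l 1) (b (l 15833552) (l 15763296)))))) (a (b (l 1) (a (a (b (l 1) (a (l 15706728) (l 1))) (l 1)) (l 1))) (l 1)))) (l 1)), by decide +kernel⟩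

def k1_A05pm_022_s1 : ∃ t, chk3 f_A05pm_022_s1 t 4 5 1 = true :=
  ⟨(a (b (b (a (b (a (b (l 16462344) (l 16424736)) (b (l 16492552) (l 16480464))) (b (a (l 16192224) (l 16440592)) (b (a (l 16298304) (l 16402688)) (a (b (l 16254680) (l 16139240)) (b (l 16370856) (l 16262696)))))) (b (a (l 16434816) (l 16352640)) (b (a (l 16442440) (l 16377864)) (b (a (l 16460104) (l 16395808)) (a (b (l 16435104) (l 16416616)) (l 16332408)))))) (a (b (a (b (l 16103224) (l 16126096)) (a (l 16266336) (l 16243888))) (a (l 16042256) (a (l 16161784) (l 16160456)))) (b (a (b (l 16403272) (l 16390104)) (l 16407040)) (a (b (l 16359392) (l 16321584)) (l 16298248))))) (b (a (b (a (l 15927328) (l 16093624)) (l 15732016)) (b (a (a (l 16210552) (l 16289000)) (l 16293136)) (a (l 16145248) (a (l 16253904) (l 16323544))))) (a (a (l 15657968) (l 15824696)) (a (l 15988312) (l 16139776))))) (b (a (b (b (a (l 16269776) (l 16188976)) (b (a (l 16300664)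 (l 16222040)) (b (a (l 16322064) (l 16244384)) (a (l 16260240) (b (l 16261336) (l 16273896)))))) (a (b (l 16350576) (l 16322192)) (l 16194680))) (b (b (a (l 15890616) (l 15793056)) (b (a (l 16091824) (l 15909880)) (a (b (l 16114456) (b (l 16130928) (l 16143088))) (b (l 15932168) (b (l 15947880) (l 15959432)))))) (a (l 15993624) (l 15820280)))) (a (b (a (b (l 16299944) (l 16221056)) (b (l 16165584) (l 16145656))) (a (b (l 16150224) (l 16214192)) (b (l 16069208) (a (l 16285168) (l 16252968))))) (b (a (b (l 16164920) (l 15975144)) (l 16017888)) (a (b (l 15959496) (l 15971328)) (b (l 16004224) (l 15910944))))))), by decide +kernel⟩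

def k2_A05pm_022_s1 : ∃ t, chk3 f_A05pm_022_s1 t 5 5 1 = true :=
  ⟨(b (a (b (b (a (a (a (l 15732720) (l 15635320)) (b (l 1) (l 15496624))) (l 1)) (b (a (a (l 15714144) (l 15514888)) (l 1)) (a (b (a (l 15734984) (l 15533048)) (b (a (l 15749368) (l 15545504)) (a (l 15676064) (a (l 15606176) (l 15503472))))) (b (l 1) (b (l 1) (a (b (l 1) (l 15354224)) (l 1))))))) (a (a (b (l 15779680) (l 15810616)) (b (l 15575408) (l 15611808))) (a (b (l 15308600) (l 15326056)) (b (b (l 1) (l 15185000)) (b (l 15203432) (l 15224016)))))) (b (l 1) (a (a (b (l 1) (b (l 1) (l 15040736))) (l 1)) (l 1)))) (b (a (a (a (l 15767424) (b (l 15649200) (l 15684576))) (a (b (l 15452696) (l 15496544)) (b (a (l 15306064) (l 15210512)) (l 15306768)))) (b (a (a (a (l 15034200) (l 14946048)) (a (l 14863360) (l 1))) (l 1)) (a (a (a (l 15168320) (l 15079800)) (l 6)) (l 6)))) (a (a (a (b (l 15873720) (l 15864504)) (l 15723376)) (a (l 15473048) (l 6))) (l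 6)))), by decide +kernel⟩

def k3_A05pm_022_s1 : ∃ t, chk3 f_A05pm_022_s1 t 3 5 1 = true :=
  ⟨(a (b (l 1) (l 6)) (l 1)), by decide +kernel⟩

def k4_A05pm_022_s1 : ∃ t, chk3 f_A05pm_022_s1 t 1 3 1 = true :=
  ⟨(b (a (b (a (b (a (a (l 15556440) (a (l 15793888) (l 15943504))) (a (a (l 16071232) (l 16179448)) (a (b (a (l 16242536) (l 16144728)) (l 6)) (l 6)))) (a (a (l 15416728) (l 6)) (l 6))) (l 6)) (l 6)) (l 6)) (l 6)), by decide +kernel⟩

theorem t5_A05pm_022_s1 : ∃ t, chk3 f_A05pm_022_s1 t 2 5 1 = true := ex3_a k1_A05pm_022_s1 k2_A05pm_022_s1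

theorem t6_A05pm_022_s1 : ∃ t, chk3 f_A05pm_022_s1 t 1 5 1 = true := ex3_a t5_A05pm_022_s1 k3_A05pm_022_s1

theorem t7_A05pm_022_s1 : ∃ t, chk3 f_A05pm_022_s1 t 1 2 1 = true := ex3_b k0_A05pm_022_s1 t6_A05pm_022_s1

theorem t8_A05pm_022_s1 : ∃ t, chk3 f_A05pm_022_s1 t 1 1 1 = true := ex3_b t7_A05pm_022_s1 k4_A05pm_022_s1

theorem c_A05pm_022_s1 : CertF 0 536870912 1073741824 536870912 1033476505 6710887 true true false .pp 0 2 2
    ndB0q0 ndB5q2 pcB2 cut_A05pm_022_s1 Ext.none :=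
  certF1 (fam := true) (s1 := true) (s2 := false) (a := 0) (b := 2) (c := 2) (cn := .pp) (n1 := ndB0q0) (n2 := ndB5q2) (pc := pcB2) (cut := cut_A05pm_022_s1) (xt := Ext.none) (P1 := 0) (W1 := 536870912) (P2 := 1073741824) (W2 := 536870912) (P3 := 1033476505) (W3 := 6710887)
    rfl (fun _ => rfl) t8_A05pm_022_s1

theorem s_A05pm_022_s1 {κ x : ℝ} (hκ : κ * h0 = ken x) (hx : ((1033476505 : ℕ) : ℝ) / S ≤ x)
    (hx' : x ≤ (((1033476505 : ℕ) : ℝ) + (6710887 : ℕ)) / S)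
    (H : CutA (VFD κ) PP tK tL pcB (Cut.of [[⟨0, 0, 0, 33554432⟩, ⟨1, 1, 0, 33554432⟩, ⟨2, 1, 0, 33554432⟩]]) 0 2 2 0 5 (sgb true) (sgb false) x) :
    AltA (VFD κ) PP tK tL pcB [⟨3, 0, 0, 1449551462⟩] 0 2 2 0 5 (sgb true) (sgb false) x :=
  strip_altAD (m := 1449551462) true rfl hκ (SH.κ0 hκ (SH.hx1 hx).le (SH.hx2 hx').le) (SH.hx1 hx).le (SH.hx2 hx') (covB00).cov (covB52).cov hx hx' c_A05pm_022_s1 H (noExt_A)

noncomputable def cut_A05pm_023_s1 : Cut := Cut.of [[⟨4, 0, 0, 1449551462⟩]]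

noncomputable def f_A05pm_023_s1 : ℕ → ℕ → ℕ → ℕ → Bool := onCell 1610612736 536870912 1073741824 536870912 1033476505 6710887
    (rowF 2 true true false .up 0 2 3 (qsf 0 536870912 1073741824 536870912 3) ndB0q0 ndB5q2 pcB3 cut_A05pm_023_s1 Ext.none)

def k0_A05pm_023_s1 : ∃ t, chk3 f_A05pm_023_s1 t 1 1 1 = true :=
  ⟨(a (l 6) (l 6)), by decide +kernel⟩

theorem c_A05pm_023_s1 : CertF 0 536870912 1073741824 536870912 1033476505 6710887 true true false .up 0 2 3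
    ndB0q0 ndB5q2 pcB3 cut_A05pm_023_s1 Ext.none :=
  certF2 (fam := true) (s1 := true) (s2 := false) (a := 0) (b := 2) (c := 3) (cn := .up) (n1 := ndB0q0) (n2 := ndB5q2) (pc := pcB3) (cut := cut_A05pm_023_s1) (xt := Ext.none) (P1 := 0) (W1 := 536870912) (P2 := 1073741824) (W2 := 536870912) (P3 := 1033476505) (W3 := 6710887)
    rfl (fun _ => rfl) k0_A05pm_023_s1

theorem s_A05pm_023_s1 {κ x : ℝ} (hκ : κ * h0 = ken x) (hx : ((1033476505 : ℕ) : ℝ) / S ≤ x)
    (hx' : x ≤ (((1033476505 : ℕ) : ℝ) + (6710887 : ℕ)) / S) :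
    AltA (VFD κ) PP tK tL pcB [⟨3, 0, 0, 1449551462⟩] 0 2 3 0 5 (sgb true) (sgb false) x :=
  strip_altAD (m := 1449551462) true rfl hκ (SH.κ0 hκ (SH.hx1 hx).le (SH.hx2 hx').le) (SH.hx1 hx).le (SH.hx2 hx') (covB00).cov (covB52).cov hx hx' c_A05pm_023_s1 cutA_nil (noExt_A)

noncomputable def cut_A05pm_033_s1 : Cut := Cut.of [[⟨4, 0, 0, 1449551462⟩]]

noncomputable def f_A05pm_033_s1 : ℕ → ℕ → ℕ → ℕ → Bool := onCell 1610612736 536870912 0 1230186008 1033476505 6710887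
    (rowF 2 true true false .pnn 0 3 3 (qsf 0 536870912 0 1230186008 3) ndB0q0 ndB5q3 pcB3 cut_A05pm_033_s1 Ext.none)

def k0_A05pm_033_s1 : ∃ t, chk3 f_A05pm_033_s1 t 1 1 1 = true :=
  ⟨(b (l 6) (l 6)), by decide +kernel⟩

theorem c_A05pm_033_s1 : CertF 0 536870912 0 1230186008 1033476505 6710887 true true false .pnn 0 3 3
    ndB0q0 ndB5q3 pcB3 cut_A05pm_033_s1 Ext.none :=
  certF2 (fam := true) (s1 := true) (s2 := false) (a := 0) (b := 3) (c := 3) (cn := .pnn) (n1 := ndB0q0) (n2 := ndB5q3) (pc := pcB3) (cut := cut_A05pm_033_s1) (xt := Ext.none) (P1 := 0) (W1 := 536870912) (P2 := 0) (W2 := 1230186008) (P3 := 1033476505) (W3 := 6710887)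
    rfl (fun _ => rfl) k0_A05pm_033_s1

theorem s_A05pm_033_s1 {κ x : ℝ} (hκ : κ * h0 = ken x) (hx : ((1033476505 : ℕ) : ℝ) / S ≤ x)
    (hx' : x ≤ (((1033476505 : ℕ) : ℝ) + (6710887 : ℕ)) / S) :
    AltA (VFD κ) PP tK tL pcB [⟨3, 0, 0, 1449551462⟩] 0 3 3 0 5 (sgb true) (sgb false) x :=
  strip_altAD (m := 1449551462) true rfl hκ (SH.κ0 hκ (SH.hx1 hx).le (SH.hx2 hx').le) (SH.hx1 hx).le (SH.hx2 hx') (covB00).cov (covB53).cov hx hx' c_A05pm_033_s1 cutA_nil (noExt_A)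

noncomputable def cut_A05pm_101_s1 : Cut := Cut.of [[⟨4, 0, 0, 1449551462⟩]]

noncomputable def xt_A05pm_101_s1 : Ext := strExt dd true true false .u0 .s0m .u0m .npn 1 0 1 rfl rfl gf1 vv ndB0q1 ndB5q0

noncomputable def f_A05pm_101_s1 : ℕ → ℕ → ℕ → ℕ → Bool := onCell 536870912 536870912 536870912 536870912 1033476505 6710887
    (rowF 1 true true false .npn 1 0 1 (qsf 536870912 536870912 0 536870912 1) ndB0q1 ndB5q0 pcB1 cut_A05pm_101_s1 xt_A05pm_101_s1)

def k0_A05pm_101_s1 : ∃ t, chk3 f_A05pm_101_s1 t 1 1 1 = true :=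
  ⟨(b (a (b (a (a (b (l 3) (b (l 503531023) (l 508105487))) (b (b (l 1) (l 499770383)) (b (l 503846927) (l 508209423)))) (b (l 1) (a (b (l 1) (l 508905743)) (l 1)))) (a (b (b (a (l 512901647) (l 512779535)) (a (b (l 516603151) (l 519052559)) (l 517471247))) (a (b (b (l 521345295) (l 523553039)) (a (l 526923023) (l 16499624))) (b (l 522114319) (l 526685711)))) (b (a (b (l 513259023) (l 517726479)) (b (l 1) (a (a (l 16123368) (l 1)) (l 1)))) (a (b (a (l 16338408) (a (l 16278368) (l 16247952))) (a (l 16336648) (l 16322344))) (b (a (l 16167240) (l 16280736)) (l 16367976)))))) (a (b (l 1) (a (b (l 1) (a (l 16238864) (l 1))) (l 1))) (l 1))) (a (b (b (a (a (b (a (l 16588960) (l 16646824)) (a (l 16741904) (l 16743360))) (b (a (l 16617000) (l 16501128)) (a (l 16750776) (l 16753328)))) (a (a (b (l 16488488) (l 16754184)) (l 16530552)) (a (l 16561224) (l 16584424)))) (a (a (b (l 534120207) (a (l 16523104) (l 16499584))) (b (l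 16482952) (l 16478424))) (a (b (l 16604160) (l 16441032)) (l 16219312)))) (b (a (a (b (l 16300848) (l 16093776)) (a (l 16103888) (l 16180840))) (a (a (l 16171968) (l 6)) (l 6))) (a (a (b (l 15901568) (l 15721560)) (b (l 15902248) (l 6))) (l 6)))) (a (a (b (l 6) (l 6)) (l 6)) (l 6)))), by decide +kernel⟩

theorem c_A05pm_101_s1 : CertF 536870912 536870912 0 536870912 1033476505 6710887 true true false .npn 1 0 1
    ndB0q1 ndB5q0 pcB1 cut_A05pm_101_s1 xt_A05pm_101_s1 :=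
  certF1 (fam := true) (s1 := true) (s2 := false) (a := 1) (b := 0) (c := 1) (cn := .npn) (n1 := ndB0q1) (n2 := ndB5q0) (pc := pcB1) (cut := cut_A05pm_101_s1) (xt := xt_A05pm_101_s1) (P1 := 536870912) (W1 := 536870912) (P2 := 0) (W2 := 536870912) (P3 := 1033476505) (W3 := 6710887)
    rfl (fun _ => rfl) k0_A05pm_101_s1

theorem s_A05pm_101_s1 {κ x : ℝ} (hκ : κ * h0 = ken x) (hx : ((1033476505 : ℕ) : ℝ) / S ≤ x)
    (hx' : x ≤ (((1033476505 : ℕ) : ℝ) + (6710887 : ℕ)) / S) :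
    AltA (VFD κ) PP tK tL pcB [⟨3, 0, 0, 1449551462⟩] 1 0 1 0 5 (sgb true) (sgb false) x :=
  strip_altAD (m := 1449551462) true rfl hκ (SH.κ0 hκ (SH.hx1 hx).le (SH.hx2 hx').le) (SH.hx1 hx).le (SH.hx2 hx') (covB01).cov (covB50).cov hx hx' c_A05pm_101_s1 cutA_nil ((okx hx hx').extA (T := tt) (sideB hx hx') hκ rfl rfl (.O 1 true) (.N 0 false) (Or.inr rfl))

noncomputable def cut_A05pm_102_s1 : Cut := Cut.of [[⟨4, 0, 0, 1449551462⟩]]

noncomputable def f_A05pm_102_s1 : ℕ → ℕ → ℕ → ℕ → Bool := onCell 536870912 536870912 1073741824 536870912 1033476505 6710887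
    (rowF 1 true true false .npp 1 0 2 (qsf 536870912 536870912 0 536870912 2) ndB0q1 ndB5q0 pcB2 cut_A05pm_102_s1 Ext.none)

def k0_A05pm_102_s1 : ∃ t, chk3 f_A05pm_102_s1 t 1 1 1 = true :=
  ⟨(a (b (a (b (b (a (b (l 15887424) (l 6)) (l 6)) (l 6)) (l 6)) (l 6)) (l 6)) (l 6)), by decide +kernel⟩

theorem c_A05pm_102_s1 : CertF 536870912 536870912 0 536870912 1033476505 6710887 true true false .npp 1 0 2
    ndB0q1 ndB5q0 pcB2 cut_A05pm_102_s1 Ext.none :=
  certF1 (fam := true) (s1 := true) (s2 := false) (a := 1) (b := 0) (c := 2) (cn := .npp) (n1 := ndB0q1) (n2 := ndB5q0) (pc := pcB2) (cut := cut_A05pm_102_s1) (xt := Ext.none) (P1 := 536870912) (W1 := 536870912) (P2 := 0) (W2 := 536870912) (P3 := 1033476505) (W3 := 6710887)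
    rfl (fun _ => rfl) k0_A05pm_102_s1

theorem s_A05pm_102_s1 {κ x : ℝ} (hκ : κ * h0 = ken x) (hx : ((1033476505 : ℕ) : ℝ) / S ≤ x)
    (hx' : x ≤ (((1033476505 : ℕ) : ℝ) + (6710887 : ℕ)) / S) :
    AltA (VFD κ) PP tK tL pcB [⟨3, 0, 0, 1449551462⟩] 1 0 2 0 5 (sgb true) (sgb false) x :=
  strip_altAD (m := 1449551462) true rfl hκ (SH.κ0 hκ (SH.hx1 hx).le (SH.hx2 hx').le) (SH.hx1 hx).le (SH.hx2 hx') (covB01).cov (covB50).cov hx hx' c_A05pm_102_s1 cutA_nil (noExt_A)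

noncomputable def cut_A05pm_112_s1 : Cut := Cut.of [[⟨4, 0, 0, 1449551462⟩]]

noncomputable def f_A05pm_112_s1 : ℕ → ℕ → ℕ → ℕ → Bool := onCell 536870912 536870912 536870912 536870912 1033476505 6710887
    (rowF 0 true true false .dn 1 1 2 (qsf 536870912 536870912 536870912 536870912 2) ndB0q1 ndB5q1 pcB2 cut_A05pm_112_s1 Ext.none)

def k0_A05pm_112_s1 : ∃ t, chk3 f_A05pm_112_s1 t 1 1 1 = true :=
  ⟨(a (b (a (b (b (a (l 15804184) (l 6)) (l 6)) (l 6)) (l 6)) (l 6)) (l 6)), by decide +kernel⟩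

theorem c_A05pm_112_s1 : CertF 536870912 536870912 536870912 536870912 1033476505 6710887 true true false .dn 1 1 2
    ndB0q1 ndB5q1 pcB2 cut_A05pm_112_s1 Ext.none :=
  certF0 (fam := true) (s1 := true) (s2 := false) (a := 1) (b := 1) (c := 2) (cn := .dn) (n1 := ndB0q1) (n2 := ndB5q1) (pc := pcB2) (cut := cut_A05pm_112_s1) (xt := Ext.none) (P1 := 536870912) (W1 := 536870912) (P2 := 536870912) (W2 := 536870912) (P3 := 1033476505) (W3 := 6710887)
    rfl k0_A05pm_112_s1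

theorem s_A05pm_112_s1 {κ x : ℝ} (hκ : κ * h0 = ken x) (hx : ((1033476505 : ℕ) : ℝ) / S ≤ x)
    (hx' : x ≤ (((1033476505 : ℕ) : ℝ) + (6710887 : ℕ)) / S) :
    AltA (VFD κ) PP tK tL pcB [⟨3, 0, 0, 1449551462⟩] 1 1 2 0 5 (sgb true) (sgb false) x :=
  strip_altAD (m := 1449551462) true rfl hκ (SH.κ0 hκ (SH.hx1 hx).le (SH.hx2 hx').le) (SH.hx1 hx).le (SH.hx2 hx') (covB01).cov (covB51).cov hx hx' c_A05pm_112_s1 cutA_nil (noExt_A)

noncomputable def cut_A05pm_113_s1 : Cut := Cut.of [[⟨4, 0, 0, 1449551462⟩]]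

noncomputable def f_A05pm_113_s1 : ℕ → ℕ → ℕ → ℕ → Bool := onCell 536870912 536870912 1610612736 536870912 1033476505 6710887
    (rowF 1 true true false .nn 1 1 3 (qsf 536870912 536870912 536870912 536870912 3) ndB0q1 ndB5q1 pcB3 cut_A05pm_113_s1 Ext.none)

def k0_A05pm_113_s1 : ∃ t, chk3 f_A05pm_113_s1 t 1 1 1 = true :=
  ⟨(l 6), by decide +kernel⟩

theorem c_A05pm_113_s1 : CertF 536870912 536870912 536870912 536870912 1033476505 6710887 true true false .nn 1 1 3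
    ndB0q1 ndB5q1 pcB3 cut_A05pm_113_s1 Ext.none :=
  certF1 (fam := true) (s1 := true) (s2 := false) (a := 1) (b := 1) (c := 3) (cn := .nn) (n1 := ndB0q1) (n2 := ndB5q1) (pc := pcB3) (cut := cut_A05pm_113_s1) (xt := Ext.none) (P1 := 536870912) (W1 := 536870912) (P2 := 536870912) (W2 := 536870912) (P3 := 1033476505) (W3 := 6710887)
    rfl (fun _ => rfl) k0_A05pm_113_s1

theorem s_A05pm_113_s1 {κ x : ℝ} (hκ : κ * h0 = ken x) (hx : ((1033476505 : ℕ) : ℝ) / S ≤ x)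
    (hx' : x ≤ (((1033476505 : ℕ) : ℝ) + (6710887 : ℕ)) / S) :
    AltA (VFD κ) PP tK tL pcB [⟨3, 0, 0, 1449551462⟩] 1 1 3 0 5 (sgb true) (sgb false) x :=
  strip_altAD (m := 1449551462) true rfl hκ (SH.κ0 hκ (SH.hx1 hx).le (SH.hx2 hx').le) (SH.hx1 hx).le (SH.hx2 hx') (covB01).cov (covB51).cov hx hx' c_A05pm_113_s1 cutA_nil (noExt_A)

noncomputable def cut_A05pm_123_s1 : Cut := Cut.of [[⟨4, 0, 0, 1449551462⟩]]

noncomputable def f_A05pm_123_s1 : ℕ → ℕ → ℕ → ℕ → Bool := onCell 536870912 536870912 1073741824 536870912 1033476505 6710887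
    (rowF 0 true true false .npn 1 2 3 (qsf 536870912 536870912 1073741824 536870912 3) ndB0q1 ndB5q2 pcB3 cut_A05pm_123_s1 Ext.none)

def k0_A05pm_123_s1 : ∃ t, chk3 f_A05pm_123_s1 t 1 1 1 = true :=
  ⟨(l 6), by decide +kernel⟩

theorem c_A05pm_123_s1 : CertF 536870912 536870912 1073741824 536870912 1033476505 6710887 true true false .npn 1 2 3
    ndB0q1 ndB5q2 pcB3 cut_A05pm_123_s1 Ext.none :=
  certF0 (fam := true) (s1 := true) (s2 := false) (a := 1) (b := 2) (c := 3) (cn := .npn) (n1 := ndB0q1) (n2 := ndB5q2) (pc := pcB3) (cut := cut_A05pm_123_s1) (xt := Ext.none) (P1 := 536870912) (W1 := 536870912) (P2 := 1073741824) (W2 := 536870912) (P3 := 1033476505) (W3 := 6710887)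
    rfl k0_A05pm_123_s1

theorem s_A05pm_123_s1 {κ x : ℝ} (hκ : κ * h0 = ken x) (hx : ((1033476505 : ℕ) : ℝ) / S ≤ x)
    (hx' : x ≤ (((1033476505 : ℕ) : ℝ) + (6710887 : ℕ)) / S) :
    AltA (VFD κ) PP tK tL pcB [⟨3, 0, 0, 1449551462⟩] 1 2 3 0 5 (sgb true) (sgb false) x :=
  strip_altAD (m := 1449551462) true rfl hκ (SH.κ0 hκ (SH.hx1 hx).le (SH.hx2 hx').le) (SH.hx1 hx).le (SH.hx2 hx') (covB01).cov (covB52).cov hx hx' c_A05pm_123_s1 cutA_nil (noExt_A)

noncomputable def cut_A05pm_133_s1 : Cut := Cut.of [[⟨4, 0, 0, 1449551462⟩]]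

noncomputable def f_A05pm_133_s1 : ℕ → ℕ → ℕ → ℕ → Bool := onCell 536870912 536870912 0 1230186008 1033476505 6710887
    (rowF 0 true true false .dn 1 3 3 (qsf 536870912 536870912 0 1230186008 3) ndB0q1 ndB5q3 pcB3 cut_A05pm_133_s1 Ext.none)

def k0_A05pm_133_s1 : ∃ t, chk3 f_A05pm_133_s1 t 1 1 1 = true :=
  ⟨(l 6), by decide +kernel⟩

theorem c_A05pm_133_s1 : CertF 536870912 536870912 0 1230186008 1033476505 6710887 true true false .dn 1 3 3
    ndB0q1 ndB5q3 pcB3 cut_A05pm_133_s1 Ext.none :=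
  certF0 (fam := true) (s1 := true) (s2 := false) (a := 1) (b := 3) (c := 3) (cn := .dn) (n1 := ndB0q1) (n2 := ndB5q3) (pc := pcB3) (cut := cut_A05pm_133_s1) (xt := Ext.none) (P1 := 536870912) (W1 := 536870912) (P2 := 0) (W2 := 1230186008) (P3 := 1033476505) (W3 := 6710887)
    rfl k0_A05pm_133_s1

theorem s_A05pm_133_s1 {κ x : ℝ} (hκ : κ * h0 = ken x) (hx : ((1033476505 : ℕ) : ℝ) / S ≤ x)
    (hx' : x ≤ (((1033476505 : ℕ) : ℝ) + (6710887 : ℕ)) / S) :
    AltA (VFD κ) PP tK tL pcB [⟨3, 0, 0, 1449551462⟩] 1 3 3 0 5 (sgb true) (sgb false) x :=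
  strip_altAD (m := 1449551462) true rfl hκ (SH.κ0 hκ (SH.hx1 hx).le (SH.hx2 hx').le) (SH.hx1 hx).le (SH.hx2 hx') (covB01).cov (covB53).cov hx hx' c_A05pm_133_s1 cutA_nil (noExt_A)

noncomputable def cut_A05pm_202_s1 : Cut := Cut.of [[⟨4, 0, 0, 1449551462⟩]]

noncomputable def f_A05pm_202_s1 : ℕ → ℕ → ℕ → ℕ → Bool := onCell 0 536870912 0 536870912 1033476505 6710887
    (rowF 0 true true false .pp 2 0 2 (qsf 0 536870912 0 536870912 2) ndB0q2 ndB5q0 pcB2 cut_A05pm_202_s1 Ext.none)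

def k0_A05pm_202_s1 : ∃ t, chk3 f_A05pm_202_s1 t 1 1 1 = true :=
  ⟨(l 6), by decide +kernel⟩

theorem c_A05pm_202_s1 : CertF 0 536870912 0 536870912 1033476505 6710887 true true false .pp 2 0 2
    ndB0q2 ndB5q0 pcB2 cut_A05pm_202_s1 Ext.none :=
  certF0 (fam := true) (s1 := true) (s2 := false) (a := 2) (b := 0) (c := 2) (cn := .pp) (n1 := ndB0q2) (n2 := ndB5q0) (pc := pcB2) (cut := cut_A05pm_202_s1) (xt := Ext.none) (P1 := 0) (W1 := 536870912) (P2 := 0) (W2 := 536870912) (P3 := 1033476505) (W3 := 6710887)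
    rfl k0_A05pm_202_s1

theorem s_A05pm_202_s1 {κ x : ℝ} (hκ : κ * h0 = ken x) (hx : ((1033476505 : ℕ) : ℝ) / S ≤ x)
    (hx' : x ≤ (((1033476505 : ℕ) : ℝ) + (6710887 : ℕ)) / S) :
    AltA (VFD κ) PP tK tL pcB [⟨3, 0, 0, 1449551462⟩] 2 0 2 0 5 (sgb true) (sgb false) x :=
  strip_altAD (m := 1449551462) true rfl hκ (SH.κ0 hκ (SH.hx1 hx).le (SH.hx2 hx').le) (SH.hx1 hx).le (SH.hx2 hx') (covB02).cov (covB50).cov hx hx' c_A05pm_202_s1 cutA_nil (noExt_A)

noncomputable def cut_A05pm_203_s1 : Cut := Cut.of [[⟨4, 0, 0, 1449551462⟩]]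

noncomputable def f_A05pm_203_s1 : ℕ → ℕ → ℕ → ℕ → Bool := onCell 0 536870912 0 536870912 1033476505 6710887
    (rowF 0 true true false .up 2 0 3 (qsf 0 536870912 0 536870912 3) ndB0q2 ndB5q0 pcB3 cut_A05pm_203_s1 Ext.none)

def k0_A05pm_203_s1 : ∃ t, chk3 f_A05pm_203_s1 t 1 1 1 = true :=
  ⟨(l 6), by decide +kernel⟩

theorem c_A05pm_203_s1 : CertF 0 536870912 0 536870912 1033476505 6710887 true true false .up 2 0 3
    ndB0q2 ndB5q0 pcB3 cut_A05pm_203_s1 Ext.none :=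
  certF0 (fam := true) (s1 := true) (s2 := false) (a := 2) (b := 0) (c := 3) (cn := .up) (n1 := ndB0q2) (n2 := ndB5q0) (pc := pcB3) (cut := cut_A05pm_203_s1) (xt := Ext.none) (P1 := 0) (W1 := 536870912) (P2 := 0) (W2 := 536870912) (P3 := 1033476505) (W3 := 6710887)
    rfl k0_A05pm_203_s1

theorem s_A05pm_203_s1 {κ x : ℝ} (hκ : κ * h0 = ken x) (hx : ((1033476505 : ℕ) : ℝ) / S ≤ x)
    (hx' : x ≤ (((1033476505 : ℕ) : ℝ) + (6710887 : ℕ)) / S) :
    AltA (VFD κ) PP tK tL pcB [⟨3, 0, 0, 1449551462⟩] 2 0 3 0 5 (sgb true) (sgb false) x :=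
  strip_altAD (m := 1449551462) true rfl hκ (SH.κ0 hκ (SH.hx1 hx).le (SH.hx2 hx').le) (SH.hx1 hx).le (SH.hx2 hx') (covB02).cov (covB50).cov hx hx' c_A05pm_203_s1 cutA_nil (noExt_A)

noncomputable def cut_A05pm_213_s1 : Cut := Cut.of [[⟨4, 0, 0, 1449551462⟩]]

noncomputable def f_A05pm_213_s1 : ℕ → ℕ → ℕ → ℕ → Bool := onCell 0 536870912 536870912 536870912 1033476505 6710887
    (rowF 0 true true false .pnn 2 1 3 (qsf 0 536870912 536870912 536870912 3) ndB0q2 ndB5q1 pcB3 cut_A05pm_213_s1 Ext.none)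

def k0_A05pm_213_s1 : ∃ t, chk3 f_A05pm_213_s1 t 1 1 1 = true :=
  ⟨(l 6), by decide +kernel⟩

theorem c_A05pm_213_s1 : CertF 0 536870912 536870912 536870912 1033476505 6710887 true true false .pnn 2 1 3
    ndB0q2 ndB5q1 pcB3 cut_A05pm_213_s1 Ext.none :=
  certF0 (fam := true) (s1 := true) (s2 := false) (a := 2) (b := 1) (c := 3) (cn := .pnn) (n1 := ndB0q2) (n2 := ndB5q1) (pc := pcB3) (cut := cut_A05pm_213_s1) (xt := Ext.none) (P1 := 0) (W1 := 536870912) (P2 := 536870912) (W2 := 536870912) (P3 := 1033476505) (W3 := 6710887)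
    rfl k0_A05pm_213_s1

theorem s_A05pm_213_s1 {κ x : ℝ} (hκ : κ * h0 = ken x) (hx : ((1033476505 : ℕ) : ℝ) / S ≤ x)
    (hx' : x ≤ (((1033476505 : ℕ) : ℝ) + (6710887 : ℕ)) / S) :
    AltA (VFD κ) PP tK tL pcB [⟨3, 0, 0, 1449551462⟩] 2 1 3 0 5 (sgb true) (sgb false) x :=
  strip_altAD (m := 1449551462) true rfl hκ (SH.κ0 hκ (SH.hx1 hx).le (SH.hx2 hx').le) (SH.hx1 hx).le (SH.hx2 hx') (covB02).cov (covB51).cov hx hx' c_A05pm_213_s1 cutA_nil (noExt_A)

noncomputable def cut_A05mm_001_s1 : Cut := Cut.of [[⟨4, 0, 0, 1449551462⟩]]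

noncomputable def f_A05mm_001_s1 : ℕ → ℕ → ℕ → ℕ → Bool := onCell 0 536870912 0 536870912 1033476505 6710887
    (rowF 0 true false false .up 0 0 1 (qsf 0 536870912 0 536870912 1) ndB0q0 ndB5q0 pcB1 cut_A05mm_001_s1 Ext.none)

def k0_A05mm_001_s1 : ∃ t, chk3 f_A05mm_001_s1 t 1 1 1 = true :=
  ⟨(l 4), by decide +kernel⟩

theorem c_A05mm_001_s1 : CertF 0 536870912 0 536870912 1033476505 6710887 true false false .up 0 0 1
    ndB0q0 ndB5q0 pcB1 cut_A05mm_001_s1 Ext.none :=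
  certF0 (fam := true) (s1 := false) (s2 := false) (a := 0) (b := 0) (c := 1) (cn := .up) (n1 := ndB0q0) (n2 := ndB5q0) (pc := pcB1) (cut := cut_A05mm_001_s1) (xt := Ext.none) (P1 := 0) (W1 := 536870912) (P2 := 0) (W2 := 536870912) (P3 := 1033476505) (W3 := 6710887)
    rfl k0_A05mm_001_s1

theorem s_A05mm_001_s1 {κ x : ℝ} (hκ : κ * h0 = ken x) (hx : ((1033476505 : ℕ) : ℝ) / S ≤ x)
    (hx' : x ≤ (((1033476505 : ℕ) : ℝ) + (6710887 : ℕ)) / S) :
    AltA (VFD κ) PP tK tL pcB [⟨3, 0, 0, 1449551462⟩] 0 0 1 0 5 (sgb false) (sgb false) x :=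
  strip_altAD (m := 1449551462) true rfl hκ (SH.κ0 hκ (SH.hx1 hx).le (SH.hx2 hx').le) (SH.hx1 hx).le (SH.hx2 hx') (covB00).cov (covB50).cov hx hx' c_A05mm_001_s1 cutA_nil (noExt_A)

noncomputable def cut_A05mm_011_s1 : Cut := Cut.of [[⟨4, 0, 0, 1449551462⟩]]

noncomputable def f_A05mm_011_s1 : ℕ → ℕ → ℕ → ℕ → Bool := onCell 0 536870912 536870912 536870912 1033476505 6710887
    (rowF 0 true false false .pnn 0 1 1 (qsf 0 536870912 536870912 536870912 1) ndB0q0 ndB5q1 pcB1 cut_A05mm_011_s1 Ext.none)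

def k0_A05mm_011_s1 : ∃ t, chk3 f_A05mm_011_s1 t 1 1 1 = true :=
  ⟨(l 4), by decide +kernel⟩

theorem c_A05mm_011_s1 : CertF 0 536870912 536870912 536870912 1033476505 6710887 true false false .pnn 0 1 1
    ndB0q0 ndB5q1 pcB1 cut_A05mm_011_s1 Ext.none :=
  certF0 (fam := true) (s1 := false) (s2 := false) (a := 0) (b := 1) (c := 1) (cn := .pnn) (n1 := ndB0q0) (n2 := ndB5q1) (pc := pcB1) (cut := cut_A05mm_011_s1) (xt := Ext.none) (P1 := 0) (W1 := 536870912) (P2 := 536870912) (W2 := 536870912) (P3 := 1033476505) (W3 := 6710887)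
    rfl k0_A05mm_011_s1

theorem s_A05mm_011_s1 {κ x : ℝ} (hκ : κ * h0 = ken x) (hx : ((1033476505 : ℕ) : ℝ) / S ≤ x)
    (hx' : x ≤ (((1033476505 : ℕ) : ℝ) + (6710887 : ℕ)) / S) :
    AltA (VFD κ) PP tK tL pcB [⟨3, 0, 0, 1449551462⟩] 0 1 1 0 5 (sgb false) (sgb false) x :=
  strip_altAD (m := 1449551462) true rfl hκ (SH.κ0 hκ (SH.hx1 hx).le (SH.hx2 hx').le) (SH.hx1 hx).le (SH.hx2 hx') (covB00).cov (covB51).cov hx hx' c_A05mm_011_s1 cutA_nil (noExt_A)

noncomputable def cut_A05mm_012_s1 : Cut := Cut.of [[⟨4, 0, 0, 1449551462⟩]]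

noncomputable def f_A05mm_012_s1 : ℕ → ℕ → ℕ → ℕ → Bool := onCell 0 536870912 536870912 536870912 1033476505 6710887
    (rowF 0 true false false .pnp 0 1 2 (qsf 0 536870912 536870912 536870912 2) ndB0q0 ndB5q1 pcB2 cut_A05mm_012_s1 Ext.none)

def k0_A05mm_012_s1 : ∃ t, chk3 f_A05mm_012_s1 t 1 1 1 = true :=
  ⟨(l 4), by decide +kernel⟩

theorem c_A05mm_012_s1 : CertF 0 536870912 536870912 536870912 1033476505 6710887 true false false .pnp 0 1 2
    ndB0q0 ndB5q1 pcB2 cut_A05mm_012_s1 Ext.none :=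
  certF0 (fam := true) (s1 := false) (s2 := false) (a := 0) (b := 1) (c := 2) (cn := .pnp) (n1 := ndB0q0) (n2 := ndB5q1) (pc := pcB2) (cut := cut_A05mm_012_s1) (xt := Ext.none) (P1 := 0) (W1 := 536870912) (P2 := 536870912) (W2 := 536870912) (P3 := 1033476505) (W3 := 6710887)
    rfl k0_A05mm_012_s1

theorem s_A05mm_012_s1 {κ x : ℝ} (hκ : κ * h0 = ken x) (hx : ((1033476505 : ℕ) : ℝ) / S ≤ x)
    (hx' : x ≤ (((1033476505 : ℕ) : ℝ) + (6710887 : ℕ)) / S) :
    AltA (VFD κ) PP tK tL pcB [⟨3, 0, 0, 1449551462⟩] 0 1 2 0 5 (sgb false) (sgb false) x :=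
  strip_altAD (m := 1449551462) true rfl hκ (SH.κ0 hκ (SH.hx1 hx).le (SH.hx2 hx').le) (SH.hx1 hx).le (SH.hx2 hx') (covB00).cov (covB51).cov hx hx' c_A05mm_012_s1 cutA_nil (noExt_A)

noncomputable def cut_A05mm_022_s1 : Cut := Cut.of [[⟨4, 0, 0, 1449551462⟩]]

noncomputable def f_A05mm_022_s1 : ℕ → ℕ → ℕ → ℕ → Bool := onCell 0 536870912 1073741824 536870912 1033476505 6710887
    (rowF 0 true false false .pp 0 2 2 (qsf 0 536870912 1073741824 536870912 2) ndB0q0 ndB5q2 pcB2 cut_A05mm_022_s1 Ext.none)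

def k0_A05mm_022_s1 : ∃ t, chk3 f_A05mm_022_s1 t 1 1 1 = true :=
  ⟨(l 4), by decide +kernel⟩

theorem c_A05mm_022_s1 : CertF 0 536870912 1073741824 536870912 1033476505 6710887 true false false .pp 0 2 2
    ndB0q0 ndB5q2 pcB2 cut_A05mm_022_s1 Ext.none :=
  certF0 (fam := true) (s1 := false) (s2 := false) (a := 0) (b := 2) (c := 2) (cn := .pp) (n1 := ndB0q0) (n2 := ndB5q2) (pc := pcB2) (cut := cut_A05mm_022_s1) (xt := Ext.none) (P1 := 0) (W1 := 536870912) (P2 := 1073741824) (W2 := 536870912) (P3 := 1033476505) (W3 := 6710887)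
    rfl k0_A05mm_022_s1

theorem s_A05mm_022_s1 {κ x : ℝ} (hκ : κ * h0 = ken x) (hx : ((1033476505 : ℕ) : ℝ) / S ≤ x)
    (hx' : x ≤ (((1033476505 : ℕ) : ℝ) + (6710887 : ℕ)) / S) :
    AltA (VFD κ) PP tK tL pcB [⟨3, 0, 0, 1449551462⟩] 0 2 2 0 5 (sgb false) (sgb false) x :=
  strip_altAD (m := 1449551462) true rfl hκ (SH.κ0 hκ (SH.hx1 hx).le (SH.hx2 hx').le) (SH.hx1 hx).le (SH.hx2 hx') (covB00).cov (covB52).cov hx hx' c_A05mm_022_s1 cutA_nil (noExt_A)

noncomputable def cut_A05mm_023_s1 : Cut := Cut.of [[⟨4, 0, 0, 1449551462⟩]]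

noncomputable def f_A05mm_023_s1 : ℕ → ℕ → ℕ → ℕ → Bool := onCell 0 536870912 1073741824 536870912 1033476505 6710887
    (rowF 0 true false false .up 0 2 3 (qsf 0 536870912 1073741824 536870912 3) ndB0q0 ndB5q2 pcB3 cut_A05mm_023_s1 Ext.none)

def k0_A05mm_023_s1 : ∃ t, chk3 f_A05mm_023_s1 t 1 1 1 = true :=
  ⟨(l 4), by decide +kernel⟩

theorem c_A05mm_023_s1 : CertF 0 536870912 1073741824 536870912 1033476505 6710887 true false false .up 0 2 3
    ndB0q0 ndB5q2 pcB3 cut_A05mm_023_s1 Ext.none :=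
  certF0 (fam := true) (s1 := false) (s2 := false) (a := 0) (b := 2) (c := 3) (cn := .up) (n1 := ndB0q0) (n2 := ndB5q2) (pc := pcB3) (cut := cut_A05mm_023_s1) (xt := Ext.none) (P1 := 0) (W1 := 536870912) (P2 := 1073741824) (W2 := 536870912) (P3 := 1033476505) (W3 := 6710887)
    rfl k0_A05mm_023_s1

theorem s_A05mm_023_s1 {κ x : ℝ} (hκ : κ * h0 = ken x) (hx : ((1033476505 : ℕ) : ℝ) / S ≤ x)
    (hx' : x ≤ (((1033476505 : ℕ) : ℝ) + (6710887 : ℕ)) / S) :
    AltA (VFD κ) PP tK tL pcB [⟨3, 0, 0, 1449551462⟩] 0 2 3 0 5 (sgb false) (sgb false) x :=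
  strip_altAD (m := 1449551462) true rfl hκ (SH.κ0 hκ (SH.hx1 hx).le (SH.hx2 hx').le) (SH.hx1 hx).le (SH.hx2 hx') (covB00).cov (covB52).cov hx hx' c_A05mm_023_s1 cutA_nil (noExt_A)

noncomputable def cut_A05mm_033_s1 : Cut := Cut.of [[⟨4, 0, 0, 1449551462⟩]]

noncomputable def f_A05mm_033_s1 : ℕ → ℕ → ℕ → ℕ → Bool := onCell 0 536870912 0 1230186008 1033476505 6710887
    (rowF 0 true false false .pnn 0 3 3 (qsf 0 536870912 0 1230186008 3) ndB0q0 ndB5q3 pcB3 cut_A05mm_033_s1 Ext.none)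

def k0_A05mm_033_s1 : ∃ t, chk3 f_A05mm_033_s1 t 1 1 1 = true :=
  ⟨(l 4), by decide +kernel⟩

theorem c_A05mm_033_s1 : CertF 0 536870912 0 1230186008 1033476505 6710887 true false false .pnn 0 3 3
    ndB0q0 ndB5q3 pcB3 cut_A05mm_033_s1 Ext.none :=
  certF0 (fam := true) (s1 := false) (s2 := false) (a := 0) (b := 3) (c := 3) (cn := .pnn) (n1 := ndB0q0) (n2 := ndB5q3) (pc := pcB3) (cut := cut_A05mm_033_s1) (xt := Ext.none) (P1 := 0) (W1 := 536870912) (P2 := 0) (W2 := 1230186008) (P3 := 1033476505) (W3 := 6710887)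
    rfl k0_A05mm_033_s1

theorem s_A05mm_033_s1 {κ x : ℝ} (hκ : κ * h0 = ken x) (hx : ((1033476505 : ℕ) : ℝ) / S ≤ x)
    (hx' : x ≤ (((1033476505 : ℕ) : ℝ) + (6710887 : ℕ)) / S) :
    AltA (VFD κ) PP tK tL pcB [⟨3, 0, 0, 1449551462⟩] 0 3 3 0 5 (sgb false) (sgb false) x :=
  strip_altAD (m := 1449551462) true rfl hκ (SH.κ0 hκ (SH.hx1 hx).le (SH.hx2 hx').le) (SH.hx1 hx).le (SH.hx2 hx') (covB00).cov (covB53).cov hx hx' c_A05mm_033_s1 cutA_nil (noExt_A)

noncomputable def cut_A05mm_101_s1 : Cut := Cut.of [[⟨4, 0, 0, 1449551462⟩]]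

noncomputable def f_A05mm_101_s1 : ℕ → ℕ → ℕ → ℕ → Bool := onCell 536870912 536870912 0 536870912 1033476505 6710887
    (rowF 0 true false false .npn 1 0 1 (qsf 536870912 536870912 0 536870912 1) ndB0q1 ndB5q0 pcB1 cut_A05mm_101_s1 Ext.none)

def k0_A05mm_101_s1 : ∃ t, chk3 f_A05mm_101_s1 t 1 1 1 = true :=
  ⟨(l 4), by decide +kernel⟩

theorem c_A05mm_101_s1 : CertF 536870912 536870912 0 536870912 1033476505 6710887 true false false .npn 1 0 1
    ndB0q1 ndB5q0 pcB1 cut_A05mm_101_s1 Ext.none :=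
  certF0 (fam := true) (s1 := false) (s2 := false) (a := 1) (b := 0) (c := 1) (cn := .npn) (n1 := ndB0q1) (n2 := ndB5q0) (pc := pcB1) (cut := cut_A05mm_101_s1) (xt := Ext.none) (P1 := 536870912) (W1 := 536870912) (P2 := 0) (W2 := 536870912) (P3 := 1033476505) (W3 := 6710887)
    rfl k0_A05mm_101_s1

theorem s_A05mm_101_s1 {κ x : ℝ} (hκ : κ * h0 = ken x) (hx : ((1033476505 : ℕ) : ℝ) / S ≤ x)
    (hx' : x ≤ (((1033476505 : ℕ) : ℝ) + (6710887 : ℕ)) / S) :
    AltA (VFD κ) PP tK tL pcB [⟨3, 0, 0, 1449551462⟩] 1 0 1 0 5 (sgb false) (sgb false) x :=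
  strip_altAD (m := 1449551462) true rfl hκ (SH.κ0 hκ (SH.hx1 hx).le (SH.hx2 hx').le) (SH.hx1 hx).le (SH.hx2 hx') (covB01).cov (covB50).cov hx hx' c_A05mm_101_s1 cutA_nil (noExt_A)

noncomputable def cut_A05mm_102_s1 : Cut := Cut.of [[⟨4, 0, 0, 1449551462⟩]]

noncomputable def f_A05mm_102_s1 : ℕ → ℕ → ℕ → ℕ → Bool := onCell 536870912 536870912 0 536870912 1033476505 6710887
    (rowF 0 true false false .npp 1 0 2 (qsf 536870912 536870912 0 536870912 2) ndB0q1 ndB5q0 pcB2 cut_A05mm_102_s1 Ext.none)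

def k0_A05mm_102_s1 : ∃ t, chk3 f_A05mm_102_s1 t 1 1 1 = true :=
  ⟨(l 4), by decide +kernel⟩

theorem c_A05mm_102_s1 : CertF 536870912 536870912 0 536870912 1033476505 6710887 true false false .npp 1 0 2
    ndB0q1 ndB5q0 pcB2 cut_A05mm_102_s1 Ext.none :=
  certF0 (fam := true) (s1 := false) (s2 := false) (a := 1) (b := 0) (c := 2) (cn := .npp) (n1 := ndB0q1) (n2 := ndB5q0) (pc := pcB2) (cut := cut_A05mm_102_s1) (xt := Ext.none) (P1 := 536870912) (W1 := 536870912) (P2 := 0) (W2 := 536870912) (P3 := 1033476505) (W3 := 6710887)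
    rfl k0_A05mm_102_s1

theorem s_A05mm_102_s1 {κ x : ℝ} (hκ : κ * h0 = ken x) (hx : ((1033476505 : ℕ) : ℝ) / S ≤ x)
    (hx' : x ≤ (((1033476505 : ℕ) : ℝ) + (6710887 : ℕ)) / S) :
    AltA (VFD κ) PP tK tL pcB [⟨3, 0, 0, 1449551462⟩] 1 0 2 0 5 (sgb false) (sgb false) x :=
  strip_altAD (m := 1449551462) true rfl hκ (SH.κ0 hκ (SH.hx1 hx).le (SH.hx2 hx').le) (SH.hx1 hx).le (SH.hx2 hx') (covB01).cov (covB50).cov hx hx' c_A05mm_102_s1 cutA_nil (noExt_A)

noncomputable def cut_A05mm_112_s1 : Cut := Cut.of [[⟨4, 0, 0, 1449551462⟩]]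

noncomputable def f_A05mm_112_s1 : ℕ → ℕ → ℕ → ℕ → Bool := onCell 536870912 536870912 536870912 536870912 1033476505 6710887
    (rowF 0 true false false .dn 1 1 2 (qsf 536870912 536870912 536870912 536870912 2) ndB0q1 ndB5q1 pcB2 cut_A05mm_112_s1 Ext.none)

def k0_A05mm_112_s1 : ∃ t, chk3 f_A05mm_112_s1 t 1 1 1 = true :=
  ⟨(l 4), by decide +kernel⟩

theorem c_A05mm_112_s1 : CertF 536870912 536870912 536870912 536870912 1033476505 6710887 true false false .dn 1 1 2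
    ndB0q1 ndB5q1 pcB2 cut_A05mm_112_s1 Ext.none :=
  certF0 (fam := true) (s1 := false) (s2 := false) (a := 1) (b := 1) (c := 2) (cn := .dn) (n1 := ndB0q1) (n2 := ndB5q1) (pc := pcB2) (cut := cut_A05mm_112_s1) (xt := Ext.none) (P1 := 536870912) (W1 := 536870912) (P2 := 536870912) (W2 := 536870912) (P3 := 1033476505) (W3 := 6710887)
    rfl k0_A05mm_112_s1

theorem s_A05mm_112_s1 {κ x : ℝ} (hκ : κ * h0 = ken x) (hx : ((1033476505 : ℕ) : ℝ) / S ≤ x)
    (hx' : x ≤ (((1033476505 : ℕ) : ℝ) + (6710887 : ℕ)) / S) :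
    AltA (VFD κ) PP tK tL pcB [⟨3, 0, 0, 1449551462⟩] 1 1 2 0 5 (sgb false) (sgb false) x :=
  strip_altAD (m := 1449551462) true rfl hκ (SH.κ0 hκ (SH.hx1 hx).le (SH.hx2 hx').le) (SH.hx1 hx).le (SH.hx2 hx') (covB01).cov (covB51).cov hx hx' c_A05mm_112_s1 cutA_nil (noExt_A)

noncomputable def cut_A05mm_113_s1 : Cut := Cut.of [[⟨4, 0, 0, 1449551462⟩]]

noncomputable def f_A05mm_113_s1 : ℕ → ℕ → ℕ → ℕ → Bool := onCell 536870912 536870912 536870912 536870912 1033476505 6710887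
    (rowF 0 true false false .nn 1 1 3 (qsf 536870912 536870912 536870912 536870912 3) ndB0q1 ndB5q1 pcB3 cut_A05mm_113_s1 Ext.none)

def k0_A05mm_113_s1 : ∃ t, chk3 f_A05mm_113_s1 t 1 1 1 = true :=
  ⟨(l 4), by decide +kernel⟩

theorem c_A05mm_113_s1 : CertF 536870912 536870912 536870912 536870912 1033476505 6710887 true false false .nn 1 1 3
    ndB0q1 ndB5q1 pcB3 cut_A05mm_113_s1 Ext.none :=
  certF0 (fam := true) (s1 := false) (s2 := false) (a := 1) (b := 1) (c := 3) (cn := .nn) (n1 := ndB0q1) (n2 := ndB5q1) (pc := pcB3) (cut := cut_A05mm_113_s1) (xt := Ext.none) (P1 := 536870912) (W1 := 536870912) (P2 := 536870912) (W2 := 536870912) (P3 := 1033476505) (W3 := 6710887)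
    rfl k0_A05mm_113_s1

theorem s_A05mm_113_s1 {κ x : ℝ} (hκ : κ * h0 = ken x) (hx : ((1033476505 : ℕ) : ℝ) / S ≤ x)
    (hx' : x ≤ (((1033476505 : ℕ) : ℝ) + (6710887 : ℕ)) / S) :
    AltA (VFD κ) PP tK tL pcB [⟨3, 0, 0, 1449551462⟩] 1 1 3 0 5 (sgb false) (sgb false) x :=
  strip_altAD (m := 1449551462) true rfl hκ (SH.κ0 hκ (SH.hx1 hx).le (SH.hx2 hx').le) (SH.hx1 hx).le (SH.hx2 hx') (covB01).cov (covB51).cov hx hx' c_A05mm_113_s1 cutA_nil (noExt_A)

noncomputable def cut_A05mm_123_s1 : Cut := Cut.of [[⟨4, 0, 0, 1449551462⟩]]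

noncomputable def f_A05mm_123_s1 : ℕ → ℕ → ℕ → ℕ → Bool := onCell 536870912 536870912 1073741824 536870912 1033476505 6710887
    (rowF 0 true false false .npn 1 2 3 (qsf 536870912 536870912 1073741824 536870912 3) ndB0q1 ndB5q2 pcB3 cut_A05mm_123_s1 Ext.none)

def k0_A05mm_123_s1 : ∃ t, chk3 f_A05mm_123_s1 t 1 1 1 = true :=
  ⟨(l 4), by decide +kernel⟩

theorem c_A05mm_123_s1 : CertF 536870912 536870912 1073741824 536870912 1033476505 6710887 true false false .npn 1 2 3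
    ndB0q1 ndB5q2 pcB3 cut_A05mm_123_s1 Ext.none :=
  certF0 (fam := true) (s1 := false) (s2 := false) (a := 1) (b := 2) (c := 3) (cn := .npn) (n1 := ndB0q1) (n2 := ndB5q2) (pc := pcB3) (cut := cut_A05mm_123_s1) (xt := Ext.none) (P1 := 536870912) (W1 := 536870912) (P2 := 1073741824) (W2 := 536870912) (P3 := 1033476505) (W3 := 6710887)
    rfl k0_A05mm_123_s1

theorem s_A05mm_123_s1 {κ x : ℝ} (hκ : κ * h0 = ken x) (hx : ((1033476505 : ℕ) : ℝ) / S ≤ x)
    (hx' : x ≤ (((1033476505 : ℕ) : ℝ) + (6710887 : ℕ)) / S) :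
    AltA (VFD κ) PP tK tL pcB [⟨3, 0, 0, 1449551462⟩] 1 2 3 0 5 (sgb false) (sgb false) x :=
  strip_altAD (m := 1449551462) true rfl hκ (SH.κ0 hκ (SH.hx1 hx).le (SH.hx2 hx').le) (SH.hx1 hx).le (SH.hx2 hx') (covB01).cov (covB52).cov hx hx' c_A05mm_123_s1 cutA_nil (noExt_A)

noncomputable def cut_A05mm_133_s1 : Cut := Cut.of [[⟨4, 0, 0, 1449551462⟩]]

noncomputable def f_A05mm_133_s1 : ℕ → ℕ → ℕ → ℕ → Bool := onCell 536870912 536870912 0 1230186008 1033476505 6710887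
    (rowF 0 true false false .dn 1 3 3 (qsf 536870912 536870912 0 1230186008 3) ndB0q1 ndB5q3 pcB3 cut_A05mm_133_s1 Ext.none)

def k0_A05mm_133_s1 : ∃ t, chk3 f_A05mm_133_s1 t 1 1 1 = true :=
  ⟨(l 4), by decide +kernel⟩

theorem c_A05mm_133_s1 : CertF 536870912 536870912 0 1230186008 1033476505 6710887 true false false .dn 1 3 3
    ndB0q1 ndB5q3 pcB3 cut_A05mm_133_s1 Ext.none :=
  certF0 (fam := true) (s1 := false) (s2 := false) (a := 1) (b := 3) (c := 3) (cn := .dn) (n1 := ndB0q1) (n2 := ndB5q3) (pc := pcB3) (cut := cut_A05mm_133_s1) (xt := Ext.none) (P1 := 536870912) (W1 := 536870912) (P2 := 0) (W2 := 1230186008) (P3 := 1033476505) (W3 := 6710887)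
    rfl k0_A05mm_133_s1

theorem s_A05mm_133_s1 {κ x : ℝ} (hκ : κ * h0 = ken x) (hx : ((1033476505 : ℕ) : ℝ) / S ≤ x)
    (hx' : x ≤ (((1033476505 : ℕ) : ℝ) + (6710887 : ℕ)) / S) :
    AltA (VFD κ) PP tK tL pcB [⟨3, 0, 0, 1449551462⟩] 1 3 3 0 5 (sgb false) (sgb false) x :=
  strip_altAD (m := 1449551462) true rfl hκ (SH.κ0 hκ (SH.hx1 hx).le (SH.hx2 hx').le) (SH.hx1 hx).le (SH.hx2 hx') (covB01).cov (covB53).cov hx hx' c_A05mm_133_s1 cutA_nil (noExt_A)

noncomputable def cut_A05mm_202_s1 : Cut := Cut.of [[⟨4, 0, 0, 1449551462⟩]]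

noncomputable def f_A05mm_202_s1 : ℕ → ℕ → ℕ → ℕ → Bool := onCell 0 536870912 0 536870912 1033476505 6710887
    (rowF 0 true false false .pp 2 0 2 (qsf 0 536870912 0 536870912 2) ndB0q2 ndB5q0 pcB2 cut_A05mm_202_s1 Ext.none)

def k0_A05mm_202_s1 : ∃ t, chk3 f_A05mm_202_s1 t 1 1 1 = true :=
  ⟨(l 4), by decide +kernel⟩

theorem c_A05mm_202_s1 : CertF 0 536870912 0 536870912 1033476505 6710887 true false false .pp 2 0 2
    ndB0q2 ndB5q0 pcB2 cut_A05mm_202_s1 Ext.none :=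
  certF0 (fam := true) (s1 := false) (s2 := false) (a := 2) (b := 0) (c := 2) (cn := .pp) (n1 := ndB0q2) (n2 := ndB5q0) (pc := pcB2) (cut := cut_A05mm_202_s1) (xt := Ext.none) (P1 := 0) (W1 := 536870912) (P2 := 0) (W2 := 536870912) (P3 := 1033476505) (W3 := 6710887)
    rfl k0_A05mm_202_s1

theorem s_A05mm_202_s1 {κ x : ℝ} (hκ : κ * h0 = ken x) (hx : ((1033476505 : ℕ) : ℝ) / S ≤ x)
    (hx' : x ≤ (((1033476505 : ℕ) : ℝ) + (6710887 : ℕ)) / S) :
    AltA (VFD κ) PP tK tL pcB [⟨3, 0, 0, 1449551462⟩] 2 0 2 0 5 (sgb false) (sgb false) x :=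
  strip_altAD (m := 1449551462) true rfl hκ (SH.κ0 hκ (SH.hx1 hx).le (SH.hx2 hx').le) (SH.hx1 hx).le (SH.hx2 hx') (covB02).cov (covB50).cov hx hx' c_A05mm_202_s1 cutA_nil (noExt_A)

noncomputable def cut_A05mm_203_s1 : Cut := Cut.of [[⟨4, 0, 0, 1449551462⟩]]

noncomputable def f_A05mm_203_s1 : ℕ → ℕ → ℕ → ℕ → Bool := onCell 0 536870912 0 536870912 1033476505 6710887
    (rowF 0 true false false .up 2 0 3 (qsf 0 536870912 0 536870912 3) ndB0q2 ndB5q0 pcB3 cut_A05mm_203_s1 Ext.none)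

def k0_A05mm_203_s1 : ∃ t, chk3 f_A05mm_203_s1 t 1 1 1 = true :=
  ⟨(l 4), by decide +kernel⟩

theorem c_A05mm_203_s1 : CertF 0 536870912 0 536870912 1033476505 6710887 true false false .up 2 0 3
    ndB0q2 ndB5q0 pcB3 cut_A05mm_203_s1 Ext.none :=
  certF0 (fam := true) (s1 := false) (s2 := false) (a := 2) (b := 0) (c := 3) (cn := .up) (n1 := ndB0q2) (n2 := ndB5q0) (pc := pcB3) (cut := cut_A05mm_203_s1) (xt := Ext.none) (P1 := 0) (W1 := 536870912) (P2 := 0) (W2 := 536870912) (P3 := 1033476505) (W3 := 6710887)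
    rfl k0_A05mm_203_s1

theorem s_A05mm_203_s1 {κ x : ℝ} (hκ : κ * h0 = ken x) (hx : ((1033476505 : ℕ) : ℝ) / S ≤ x)
    (hx' : x ≤ (((1033476505 : ℕ) : ℝ) + (6710887 : ℕ)) / S) :
    AltA (VFD κ) PP tK tL pcB [⟨3, 0, 0, 1449551462⟩] 2 0 3 0 5 (sgb false) (sgb false) x :=
  strip_altAD (m := 1449551462) true rfl hκ (SH.κ0 hκ (SH.hx1 hx).le (SH.hx2 hx').le) (SH.hx1 hx).le (SH.hx2 hx') (covB02).cov (covB50).cov hx hx' c_A05mm_203_s1 cutA_nil (noExt_A)

noncomputable def cut_A05mm_213_s1 : Cut := Cut.of [[⟨4, 0, 0, 1449551462⟩]]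

noncomputable def f_A05mm_213_s1 : ℕ → ℕ → ℕ → ℕ → Bool := onCell 0 536870912 536870912 536870912 1033476505 6710887
    (rowF 0 true false false .pnn 2 1 3 (qsf 0 536870912 536870912 536870912 3) ndB0q2 ndB5q1 pcB3 cut_A05mm_213_s1 Ext.none)

def k0_A05mm_213_s1 : ∃ t, chk3 f_A05mm_213_s1 t 1 1 1 = true :=
  ⟨(l 4), by decide +kernel⟩

theorem c_A05mm_213_s1 : CertF 0 536870912 536870912 536870912 1033476505 6710887 true false false .pnn 2 1 3
    ndB0q2 ndB5q1 pcB3 cut_A05mm_213_s1 Ext.none :=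
  certF0 (fam := true) (s1 := false) (s2 := false) (a := 2) (b := 1) (c := 3) (cn := .pnn) (n1 := ndB0q2) (n2 := ndB5q1) (pc := pcB3) (cut := cut_A05mm_213_s1) (xt := Ext.none) (P1 := 0) (W1 := 536870912) (P2 := 536870912) (W2 := 536870912) (P3 := 1033476505) (W3 := 6710887)
    rfl k0_A05mm_213_s1

theorem s_A05mm_213_s1 {κ x : ℝ} (hκ : κ * h0 = ken x) (hx : ((1033476505 : ℕ) : ℝ) / S ≤ x)
    (hx' : x ≤ (((1033476505 : ℕ) : ℝ) + (6710887 : ℕ)) / S) :
    AltA (VFD κ) PP tK tL pcB [⟨3, 0, 0, 1449551462⟩] 2 1 3 0 5 (sgb false) (sgb false) x :=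
  strip_altAD (m := 1449551462) true rfl hκ (SH.κ0 hκ (SH.hx1 hx).le (SH.hx2 hx').le) (SH.hx1 hx).le (SH.hx2 hx') (covB02).cov (covB51).cov hx hx' c_A05mm_213_s1 cutA_nil (noExt_A)

noncomputable def cut_B00pp_001_s1 : Cut := Cut.of [[⟨4, 0, 0, 1449551462⟩]]

noncomputable def f_B00pp_001_s1 : ℕ → ℕ → ℕ → ℕ → Bool := onCell 0 536870912 0 536870912 1033476505 6710887
    (rowF 1 false true true .up 0 0 1 (qsf 0 536870912 536870912 536870912 0) ndB0q0 ndB0q1 pcB0 cut_B00pp_001_s1 Ext.none)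

def k0_B00pp_001_s1 : ∃ t, chk3 f_B00pp_001_s1 t 1 1 1 = true :=
  ⟨(l 3), by decide +kernel⟩

theorem c_B00pp_001_s1 : CertF 0 536870912 536870912 536870912 1033476505 6710887 false true true .up 0 0 1
    ndB0q0 ndB0q1 pcB0 cut_B00pp_001_s1 Ext.none :=
  certF1 (fam := false) (s1 := true) (s2 := true) (a := 0) (b := 0) (c := 1) (cn := .up) (n1 := ndB0q0) (n2 := ndB0q1) (pc := pcB0) (cut := cut_B00pp_001_s1) (xt := Ext.none) (P1 := 0) (W1 := 536870912) (P2 := 536870912) (W2 := 536870912) (P3 := 1033476505) (W3 := 6710887)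
    rfl (fun _ => rfl) k0_B00pp_001_s1

theorem s_B00pp_001_s1 {κ x : ℝ} (hκ : κ * h0 = ken x) (hx : ((1033476505 : ℕ) : ℝ) / S ≤ x)
    (hx' : x ≤ (((1033476505 : ℕ) : ℝ) + (6710887 : ℕ)) / S) :
    AltB (VFD κ) PP tK tL pcB [⟨3, 0, 0, 1449551462⟩] 0 0 1 0 0 (sgb true) (sgb true) x :=
  strip_altBD (m := 1449551462) true rfl hκ (SH.κ0 hκ (SH.hx1 hx).le (SH.hx2 hx').le) (SH.hx1 hx).le (SH.hx2 hx') (covB00).cov (covB01).cov hx hx' c_B00pp_001_s1 cutB_nil (noExt_B)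

noncomputable def cut_B00pp_001_s3 : Cut := Cut.of [[⟨3, 0, 0, 2845415833⟩]]

noncomputable def f_B00pp_001_s3 : ℕ → ℕ → ℕ → ℕ → Bool := onCell 0 536870912 536870912 536870912 1033476505 6710887
    (rowF 0 false true true .up 0 0 1 (qsf 0 536870912 536870912 536870912 0) ndB0q0 ndB0q1 pcB0 cut_B00pp_001_s3 Ext.none)

def k0_B00pp_001_s3 : ∃ t, chk3 f_B00pp_001_s3 t 1 1 1 = true :=
  ⟨(l 6), by decide +kernel⟩

theorem c_B00pp_001_s3 : CertF 0 536870912 536870912 536870912 1033476505 6710887 false true true .up 0 0 1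
    ndB0q0 ndB0q1 pcB0 cut_B00pp_001_s3 Ext.none :=
  certF0 (fam := false) (s1 := true) (s2 := true) (a := 0) (b := 0) (c := 1) (cn := .up) (n1 := ndB0q0) (n2 := ndB0q1) (pc := pcB0) (cut := cut_B00pp_001_s3) (xt := Ext.none) (P1 := 0) (W1 := 536870912) (P2 := 536870912) (W2 := 536870912) (P3 := 1033476505) (W3 := 6710887)
    rfl k0_B00pp_001_s3

theorem s_B00pp_001_s3 {κ x : ℝ} (hκ : κ * h0 = ken x) (hx : ((1033476505 : ℕ) : ℝ) / S ≤ x)
    (hx' : x ≤ (((1033476505 : ℕ) : ℝ) + (6710887 : ℕ)) / S) :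
    AltB (VFD κ) PP tK tL pcB [⟨4, 0, 0, 2845415833⟩] 0 0 1 0 0 (sgb true) (sgb true) x :=
  strip_altBD (m := 2845415833) false rfl hκ (SH.κ0 hκ (SH.hx1 hx).le (SH.hx2 hx').le) (SH.hx1 hx).le (SH.hx2 hx') (covB00).cov (covB01).cov hx hx' c_B00pp_001_s3 cutB_nil (noExt_B)

noncomputable def cut_B00pp_011_s1 : Cut := Cut.of [[⟨4, 0, 0, 1449551462⟩], [⟨0, 0, 0, 33554432⟩, ⟨1, 1, 0, 33554432⟩, ⟨2, 1, 0, 33554432⟩]]

noncomputable def f_B00pp_011_s1 : ℕ → ℕ → ℕ → ℕ → Bool := onCell 536870912 536870912 536870912 536870912 1033476505 6710887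
    (rowF 2 false true true .pnn 0 1 1 (qsf 0 536870912 536870912 536870912 1) ndB0q0 ndB0q1 pcB1 cut_B00pp_011_s1 Ext.none)

def k0_B00pp_011_s1 : ∃ t, chk3 f_B00pp_011_s1 t 1 1 1 = true :=
  ⟨(a (l 3) (b (l 3) (a (l 3) (b (l 3) (a (l 3) (b (l 3) (b (l 3) (a (l 3) (b (l 3) (a (l 3) (l 14))))))))))), by decide +kernel⟩

theorem c_B00pp_011_s1 : CertF 0 536870912 536870912 536870912 1033476505 6710887 false true true .pnn 0 1 1
    ndB0q0 ndB0q1 pcB1 cut_B00pp_011_s1 Ext.none :=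
  certF2 (fam := false) (s1 := true) (s2 := true) (a := 0) (b := 1) (c := 1) (cn := .pnn) (n1 := ndB0q0) (n2 := ndB0q1) (pc := pcB1) (cut := cut_B00pp_011_s1) (xt := Ext.none) (P1 := 0) (W1 := 536870912) (P2 := 536870912) (W2 := 536870912) (P3 := 1033476505) (W3 := 6710887)
    rfl (fun _ => rfl) k0_B00pp_011_s1

theorem s_B00pp_011_s1 {κ x : ℝ} (hκ : κ * h0 = ken x) (hx : ((1033476505 : ℕ) : ℝ) / S ≤ x)
    (hx' : x ≤ (((1033476505 : ℕ) : ℝ) + (6710887 : ℕ)) / S)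
    (H : CutB (VFD κ) PP tK tL pcB (Cut.of [[⟨0, 0, 0, 33554432⟩, ⟨1, 1, 0, 33554432⟩, ⟨2, 1, 0, 33554432⟩]]) 0 1 1 0 0 (sgb true) (sgb true) x) :
    AltB (VFD κ) PP tK tL pcB [⟨3, 0, 0, 1449551462⟩] 0 1 1 0 0 (sgb true) (sgb true) x :=
  strip_altBD (m := 1449551462) true rfl hκ (SH.κ0 hκ (SH.hx1 hx).le (SH.hx2 hx').le) (SH.hx1 hx).le (SH.hx2 hx') (covB00).cov (covB01).cov hx hx' c_B00pp_011_s1 H (noExt_B)

noncomputable def cut_B00pp_011_s3 : Cut := Cut.of [[⟨3, 0, 0, 2845415833⟩], [⟨0, 0, 0, 33554432⟩, ⟨1, 1, 0, 33554432⟩, ⟨2, 1, 0, 33554432⟩]]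

noncomputable def f_B00pp_011_s3 : ℕ → ℕ → ℕ → ℕ → Bool := onCell 0 536870912 536870912 536870912 1033476505 6710887
    (rowF 0 false true true .pnn 0 1 1 (qsf 0 536870912 536870912 536870912 1) ndB0q0 ndB0q1 pcB1 cut_B00pp_011_s3 Ext.none)

def k0_B00pp_011_s3 : ∃ t, chk3 f_B00pp_011_s3 t 1 1 1 = true :=
  ⟨(l 6), by decide +kernel⟩

theorem c_B00pp_011_s3 : CertF 0 536870912 536870912 536870912 1033476505 6710887 false true true .pnn 0 1 1
    ndB0q0 ndB0q1 pcB1 cut_B00pp_011_s3 Ext.none :=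
  certF0 (fam := false) (s1 := true) (s2 := true) (a := 0) (b := 1) (c := 1) (cn := .pnn) (n1 := ndB0q0) (n2 := ndB0q1) (pc := pcB1) (cut := cut_B00pp_011_s3) (xt := Ext.none) (P1 := 0) (W1 := 536870912) (P2 := 536870912) (W2 := 536870912) (P3 := 1033476505) (W3 := 6710887)
    rfl k0_B00pp_011_s3

theorem s_B00pp_011_s3 {κ x : ℝ} (hκ : κ * h0 = ken x) (hx : ((1033476505 : ℕ) : ℝ) / S ≤ x)
    (hx' : x ≤ (((1033476505 : ℕ) : ℝ) + (6710887 : ℕ)) / S)
    (H : CutB (VFD κ) PP tK tL pcB (Cut.of [[⟨0, 0, 0, 33554432⟩, ⟨1, 1, 0, 33554432⟩, ⟨2, 1, 0, 33554432⟩]]) 0 1 1 0 0 (sgb true) (sgb true) x) :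
    AltB (VFD κ) PP tK tL pcB [⟨4, 0, 0, 2845415833⟩] 0 1 1 0 0 (sgb true) (sgb true) x :=
  strip_altBD (m := 2845415833) false rfl hκ (SH.κ0 hκ (SH.hx1 hx).le (SH.hx2 hx').le) (SH.hx1 hx).le (SH.hx2 hx') (covB00).cov (covB01).cov hx hx' c_B00pp_011_s3 H (noExt_B)

end Pool.Agent.Strip051.G.I9625_9688.Tab.St.C
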