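import Pool.Agent.Strip051.G.I9625_9688.StH
import Pool.Agent.Strip051.G.I9625_9688.Sp8_0
import Pool.Agent.Strip051.G.I9625_9688.Sp8_1
import Pool.Agent.Strip051.G.I9625_9688.Sp8_2
import Pool.Agent.Strip051.G.I9625_9688.Sp8_3
import Pool.Agent.Strip051.G.I9625_9688.Sp8_4
import Pool.Agent.Strip051.G.I9625_9688.Sp8_5
import Pool.Agent.Strip051.G.I9625_9688.Sp8_6
import Pool.Agent.Strip051.G.I9625_9688.Sp8_7
import Pool.Agent.Strip051.G.I9625_9688.StF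

/-! # Unit strips 8 (generated) -/

set_option linter.all false
set_option maxRecDepth 100000

namespace Pool.Agent.Strip051.G.I9625_9688.Tab.St.C

open Pool.Agent.Strip051.PB Pool.Agent.Strip051.PB.T Pool.Agent.StripNear Pool.Agent.Strip051.LC
open Pool.Agent.Strip051.G.I9625_9688.Tab Pool.Agent.Strip051.G.I9625_9688.Tab.St

theorem t739_A00pm_123_s3 : ∃ t, chk3 f_A00pm_123_s3 t 2044 4088 1 = true := ex3_a k732_A00pm_123_s3 k733_A00pm_123_s3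

theorem t740_A00pm_123_s3 : ∃ t, chk3 f_A00pm_123_s3 t 2044 2044 1 = true := ex3_b t739_A00pm_123_s3 k734_A00pm_123_s3

theorem t741_A00pm_123_s3 : ∃ t, chk3 f_A00pm_123_s3 t 2044 1022 1 = true := ex3_b t740_A00pm_123_s3 k735_A00pm_123_s3

theorem t742_A00pm_123_s3 : ∃ t, chk3 f_A00pm_123_s3 t 2044 511 1 = true := ex3_b t741_A00pm_123_s3 k736_A00pm_123_s3

theorem t743_A00pm_123_s3 : ∃ t, chk3 f_A00pm_123_s3 t 2044 1021 1 = true := ex3_c k730_A00pm_123_s3 k731_A00pm_123_s3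

theorem t744_A00pm_123_s3 : ∃ t, chk3 f_A00pm_123_s3 t 2044 510 1 = true := ex3_b k729_A00pm_123_s3 t743_A00pm_123_s3

theorem t745_A00pm_123_s3 : ∃ t, chk3 f_A00pm_123_s3 t 2044 255 1 = true := ex3_b t744_A00pm_123_s3 t742_A00pm_123_s3

theorem t746_A00pm_123_s3 : ∃ t, chk3 f_A00pm_123_s3 t 1022 255 1 = true := ex3_a t745_A00pm_123_s3 k737_A00pm_123_s3

theorem t747_A00pm_123_s3 : ∃ t, chk3 f_A00pm_123_s3 t 1022 254 1 = true := ex3_a k727_A00pm_123_s3 k728_A00pm_123_s3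

theorem t748_A00pm_123_s3 : ∃ t, chk3 f_A00pm_123_s3 t 1022 127 1 = true := ex3_b t747_A00pm_123_s3 t746_A00pm_123_s3

theorem t749_A00pm_123_s3 : ∃ t, chk3 f_A00pm_123_s3 t 4089 506 1 = true := ex3_b k723_A00pm_123_s3 k724_A00pm_123_s3

theorem t750_A00pm_123_s3 : ∃ t, chk3 f_A00pm_123_s3 t 4088 506 1 = true := ex3_b k721_A00pm_123_s3 k722_A00pm_123_s3

theorem t751_A00pm_123_s3 : ∃ t, chk3 f_A00pm_123_s3 t 2044 506 1 = true := ex3_a t750_A00pm_123_s3 t749_A00pm_123_s3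

theorem t752_A00pm_123_s3 : ∃ t, chk3 f_A00pm_123_s3 t 2044 253 1 = true := ex3_b t751_A00pm_123_s3 k725_A00pm_123_s3

theorem t753_A00pm_123_s3 : ∃ t, chk3 f_A00pm_123_s3 t 4089 505 1 = true := ex3_c k719_A00pm_123_s3 k720_A00pm_123_s3

theorem t754_A00pm_123_s3 : ∃ t, chk3 f_A00pm_123_s3 t 4088 1011 1 = true := ex3_b k717_A00pm_123_s3 k718_A00pm_123_s3

theorem t755_A00pm_123_s3 : ∃ t, chk3 f_A00pm_123_s3 t 4088 1010 2 = true := ex3_c k714_A00pm_123_s3 k715_A00pm_123_s3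

theorem t756_A00pm_123_s3 : ∃ t, chk3 f_A00pm_123_s3 t 4088 1010 1 = true := ex3_c t755_A00pm_123_s3 k716_A00pm_123_s3

theorem t757_A00pm_123_s3 : ∃ t, chk3 f_A00pm_123_s3 t 4088 505 1 = true := ex3_b t756_A00pm_123_s3 t754_A00pm_123_s3

theorem t758_A00pm_123_s3 : ∃ t, chk3 f_A00pm_123_s3 t 2044 505 1 = true := ex3_a t757_A00pm_123_s3 t753_A00pm_123_s3

theorem t759_A00pm_123_s3 : ∃ t, chk3 f_A00pm_123_s3 t 4089 504 1 = true := ex3_c k712_A00pm_123_s3 k713_A00pm_123_s3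

theorem t760_A00pm_123_s3 : ∃ t, chk3 f_A00pm_123_s3 t 4088 504 2 = true := ex3_b k709_A00pm_123_s3 k710_A00pm_123_s3

theorem t761_A00pm_123_s3 : ∃ t, chk3 f_A00pm_123_s3 t 4088 504 1 = true := ex3_c t760_A00pm_123_s3 k711_A00pm_123_s3

theorem t762_A00pm_123_s3 : ∃ t, chk3 f_A00pm_123_s3 t 2044 504 1 = true := ex3_a t761_A00pm_123_s3 t759_A00pm_123_s3

theorem t763_A00pm_123_s3 : ∃ t, chk3 f_A00pm_123_s3 t 2044 252 1 = true := ex3_b t762_A00pm_123_s3 t758_A00pm_123_s3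

theorem t764_A00pm_123_s3 : ∃ t, chk3 f_A00pm_123_s3 t 2044 126 1 = true := ex3_b t763_A00pm_123_s3 t752_A00pm_123_s3

theorem t765_A00pm_123_s3 : ∃ t, chk3 f_A00pm_123_s3 t 1022 126 1 = true := ex3_a t764_A00pm_123_s3 k726_A00pm_123_s3

theorem t766_A00pm_123_s3 : ∃ t, chk3 f_A00pm_123_s3 t 1022 63 1 = true := ex3_b t765_A00pm_123_s3 t748_A00pm_123_s3

theorem t767_A00pm_123_s3 : ∃ t, chk3 f_A00pm_123_s3 t 32719 2000 1 = true := ex3_b k702_A00pm_123_s3 k703_A00pm_123_s3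

theorem t768_A00pm_123_s3 : ∃ t, chk3 f_A00pm_123_s3 t 32719 1000 1 = true := ex3_b t767_A00pm_123_s3 k704_A00pm_123_s3

theorem t769_A00pm_123_s3 : ∃ t, chk3 f_A00pm_123_s3 t 16359 1000 1 = true := ex3_a k701_A00pm_123_s3 t768_A00pm_123_s3

theorem t770_A00pm_123_s3 : ∃ t, chk3 f_A00pm_123_s3 t 8179 1000 1 = true := ex3_a k700_A00pm_123_s3 t769_A00pm_123_s3

theorem t771_A00pm_123_s3 : ∃ t, chk3 f_A00pm_123_s3 t 8179 500 1 = true := ex3_b t770_A00pm_123_s3 k705_A00pm_123_s3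

theorem t772_A00pm_123_s3 : ∃ t, chk3 f_A00pm_123_s3 t 8179 250 1 = true := ex3_b t771_A00pm_123_s3 k706_A00pm_123_s3

theorem t773_A00pm_123_s3 : ∃ t, chk3 f_A00pm_123_s3 t 8179 125 1 = true := ex3_b t772_A00pm_123_s3 k707_A00pm_123_s3

theorem t774_A00pm_123_s3 : ∃ t, chk3 f_A00pm_123_s3 t 8178 125 1 = true := ex3_a k698_A00pm_123_s3 k699_A00pm_123_s3

theorem t775_A00pm_123_s3 : ∃ t, chk3 f_A00pm_123_s3 t 4089 125 1 = true := ex3_a t774_A00pm_123_s3 t773_A00pm_123_s3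

theorem t776_A00pm_123_s3 : ∃ t, chk3 f_A00pm_123_s3 t 4088 503 2 = true := ex3_b k695_A00pm_123_s3 k696_A00pm_123_s3

theorem t777_A00pm_123_s3 : ∃ t, chk3 f_A00pm_123_s3 t 4088 503 1 = true := ex3_c t776_A00pm_123_s3 k697_A00pm_123_s3

theorem t778_A00pm_123_s3 : ∃ t, chk3 f_A00pm_123_s3 t 4088 251 1 = true := ex3_b k694_A00pm_123_s3 t777_A00pm_123_s3

theorem t779_A00pm_123_s3 : ∃ t, chk3 f_A00pm_123_s3 t 4088 250 1 = true := ex3_a k692_A00pm_123_s3 k693_A00pm_123_s3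

theorem t780_A00pm_123_s3 : ∃ t, chk3 f_A00pm_123_s3 t 4088 125 1 = true := ex3_b t779_A00pm_123_s3 t778_A00pm_123_s3

theorem t781_A00pm_123_s3 : ∃ t, chk3 f_A00pm_123_s3 t 2044 125 1 = true := ex3_a t780_A00pm_123_s3 t775_A00pm_123_s3

theorem t782_A00pm_123_s3 : ∃ t, chk3 f_A00pm_123_s3 t 1022 125 1 = true := ex3_a t781_A00pm_123_s3 k708_A00pm_123_s3

theorem t783_A00pm_123_s3 : ∃ t, chk3 f_A00pm_123_s3 t 16365 994 1 = true := ex3_b k687_A00pm_123_s3 k688_A00pm_123_s3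

theorem t784_A00pm_123_s3 : ∃ t, chk3 f_A00pm_123_s3 t 16365 497 1 = true := ex3_b t783_A00pm_123_s3 k689_A00pm_123_s3

theorem t785_A00pm_123_s3 : ∃ t, chk3 f_A00pm_123_s3 t 16364 994 1 = true := ex3_a k684_A00pm_123_s3 k685_A00pm_123_s3

theorem t786_A00pm_123_s3 : ∃ t, chk3 f_A00pm_123_s3 t 16364 497 1 = true := ex3_b t785_A00pm_123_s3 k686_A00pm_123_s3

theorem t787_A00pm_123_s3 : ∃ t, chk3 f_A00pm_123_s3 t 8182 497 1 = true := ex3_a t786_A00pm_123_s3 t784_A00pm_123_s3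

theorem t788_A00pm_123_s3 : ∃ t, chk3 f_A00pm_123_s3 t 16364 993 3 = true := ex3_a k681_A00pm_123_s3 k682_A00pm_123_s3

theorem t789_A00pm_123_s3 : ∃ t, chk3 f_A00pm_123_s3 t 16364 496 3 = true := ex3_b k680_A00pm_123_s3 t788_A00pm_123_s3

theorem t790_A00pm_123_s3 : ∃ t, chk3 f_A00pm_123_s3 t 16364 496 1 = true := ex3_c k679_A00pm_123_s3 t789_A00pm_123_s3

theorem t791_A00pm_123_s3 : ∃ t, chk3 f_A00pm_123_s3 t 8182 496 1 = true := ex3_a t790_A00pm_123_s3 k683_A00pm_123_s3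

theorem t792_A00pm_123_s3 : ∃ t, chk3 f_A00pm_123_s3 t 8182 248 1 = true := ex3_b t791_A00pm_123_s3 t787_A00pm_123_s3

theorem t793_A00pm_123_s3 : ∃ t, chk3 f_A00pm_123_s3 t 4091 248 1 = true := ex3_a t792_A00pm_123_s3 k690_A00pm_123_s3

theorem t794_A00pm_123_s3 : ∃ t, chk3 f_A00pm_123_s3 t 4091 124 1 = true := ex3_b t793_A00pm_123_s3 k691_A00pm_123_s3

theorem t795_A00pm_123_s3 : ∃ t, chk3 f_A00pm_123_s3 t 16363 496 1 = true := ex3_b k675_A00pm_123_s3 k676_A00pm_123_s3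

theorem t796_A00pm_123_s3 : ∃ t, chk3 f_A00pm_123_s3 t 16363 248 1 = true := ex3_b t795_A00pm_123_s3 k677_A00pm_123_s3

theorem t797_A00pm_123_s3 : ∃ t, chk3 f_A00pm_123_s3 t 16362 496 1 = true := ex3_c k672_A00pm_123_s3 k673_A00pm_123_s3

theorem t798_A00pm_123_s3 : ∃ t, chk3 f_A00pm_123_s3 t 16362 248 1 = true := ex3_b t797_A00pm_123_s3 k674_A00pm_123_s3

theorem t799_A00pm_123_s3 : ∃ t, chk3 f_A00pm_123_s3 t 8181 248 1 = true := ex3_a t798_A00pm_123_s3 t796_A00pm_123_s3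

theorem t800_A00pm_123_s3 : ∃ t, chk3 f_A00pm_123_s3 t 8180 496 1 = true := ex3_c k669_A00pm_123_s3 k670_A00pm_123_s3

theorem t801_A00pm_123_s3 : ∃ t, chk3 f_A00pm_123_s3 t 8180 248 1 = true := ex3_b t800_A00pm_123_s3 k671_A00pm_123_s3

theorem t802_A00pm_123_s3 : ∃ t, chk3 f_A00pm_123_s3 t 4090 248 1 = true := ex3_a t801_A00pm_123_s3 t799_A00pm_123_s3

theorem t803_A00pm_123_s3 : ∃ t, chk3 f_A00pm_123_s3 t 4090 124 1 = true := ex3_b t802_A00pm_123_s3 k678_A00pm_123_s3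

theorem t804_A00pm_123_s3 : ∃ t, chk3 f_A00pm_123_s3 t 2045 124 1 = true := ex3_a t803_A00pm_123_s3 t794_A00pm_123_s3

theorem t805_A00pm_123_s3 : ∃ t, chk3 f_A00pm_123_s3 t 16358 3998 1 = true := ex3_a k665_A00pm_123_s3 k666_A00pm_123_s3

theorem t806_A00pm_123_s3 : ∃ t, chk3 f_A00pm_123_s3 t 16358 1999 1 = true := ex3_b t805_A00pm_123_s3 k667_A00pm_123_s3

theorem t807_A00pm_123_s3 : ∃ t, chk3 f_A00pm_123_s3 t 16358 999 1 = true := ex3_b k664_A00pm_123_s3 t806_A00pm_123_s3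

theorem t808_A00pm_123_s3 : ∃ t, chk3 f_A00pm_123_s3 t 8179 999 1 = true := ex3_a t807_A00pm_123_s3 k668_A00pm_123_s3

theorem t809_A00pm_123_s3 : ∃ t, chk3 f_A00pm_123_s3 t 8179 499 1 = true := ex3_b k663_A00pm_123_s3 t808_A00pm_123_s3

theorem t810_A00pm_123_s3 : ∃ t, chk3 f_A00pm_123_s3 t 8179 249 1 = true := ex3_b k662_A00pm_123_s3 t809_A00pm_123_s3

theorem t811_A00pm_123_s3 : ∃ t, chk3 f_A00pm_123_s3 t 16357 3996 1 = true := ex3_a k658_A00pm_123_s3 k659_A00pm_123_s3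

theorem t812_A00pm_123_s3 : ∃ t, chk3 f_A00pm_123_s3 t 16357 1998 1 = true := ex3_b t811_A00pm_123_s3 k660_A00pm_123_s3

theorem t813_A00pm_123_s3 : ∃ t, chk3 f_A00pm_123_s3 t 8178 1998 1 = true := ex3_a k657_A00pm_123_s3 t812_A00pm_123_s3

theorem t814_A00pm_123_s3 : ∃ t, chk3 f_A00pm_123_s3 t 8178 999 1 = true := ex3_b t813_A00pm_123_s3 k661_A00pm_123_s3

theorem t815_A00pm_123_s3 : ∃ t, chk3 f_A00pm_123_s3 t 16356 3994 1 = true := ex3_a k653_A00pm_123_s3 k654_A00pm_123_s3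

theorem t816_A00pm_123_s3 : ∃ t, chk3 f_A00pm_123_s3 t 16356 1997 1 = true := ex3_b t815_A00pm_123_s3 k655_A00pm_123_s3

theorem t817_A00pm_123_s3 : ∃ t, chk3 f_A00pm_123_s3 t 8178 1997 1 = true := ex3_a t816_A00pm_123_s3 k656_A00pm_123_s3

theorem t818_A00pm_123_s3 : ∃ t, chk3 f_A00pm_123_s3 t 8178 998 1 = true := ex3_b k652_A00pm_123_s3 t817_A00pm_123_s3

theorem t819_A00pm_123_s3 : ∃ t, chk3 f_A00pm_123_s3 t 8178 499 1 = true := ex3_b t818_A00pm_123_s3 t814_A00pm_123_s3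

theorem t820_A00pm_123_s3 : ∃ t, chk3 f_A00pm_123_s3 t 8178 249 1 = true := ex3_b k651_A00pm_123_s3 t819_A00pm_123_s3

theorem t821_A00pm_123_s3 : ∃ t, chk3 f_A00pm_123_s3 t 4089 249 1 = true := ex3_a t820_A00pm_123_s3 t810_A00pm_123_s3

theorem t822_A00pm_123_s3 : ∃ t, chk3 f_A00pm_123_s3 t 8179 248 1 = true := ex3_b k649_A00pm_123_s3 k650_A00pm_123_s3

theorem t823_A00pm_123_s3 : ∃ t, chk3 f_A00pm_123_s3 t 8178 248 1 = true := ex3_b k647_A00pm_123_s3 k648_A00pm_123_s3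

theorem t824_A00pm_123_s3 : ∃ t, chk3 f_A00pm_123_s3 t 4089 248 1 = true := ex3_a t823_A00pm_123_s3 t822_A00pm_123_s3

theorem t825_A00pm_123_s3 : ∃ t, chk3 f_A00pm_123_s3 t 4089 124 1 = true := ex3_b t824_A00pm_123_s3 t821_A00pm_123_s3

theorem t826_A00pm_123_s3 : ∃ t, chk3 f_A00pm_123_s3 t 32711 1996 1 = true := ex3_b k643_A00pm_123_s3 k644_A00pm_123_s3

theorem t827_A00pm_123_s3 : ∃ t, chk3 f_A00pm_123_s3 t 16355 1996 1 = true := ex3_a k642_A00pm_123_s3 t826_A00pm_123_s3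

theorem t828_A00pm_123_s3 : ∃ t, chk3 f_A00pm_123_s3 t 8177 1996 1 = true := ex3_a k641_A00pm_123_s3 t827_A00pm_123_s3

theorem t829_A00pm_123_s3 : ∃ t, chk3 f_A00pm_123_s3 t 8177 998 1 = true := ex3_b t828_A00pm_123_s3 k645_A00pm_123_s3

theorem t830_A00pm_123_s3 : ∃ t, chk3 f_A00pm_123_s3 t 8177 499 1 = true := ex3_b t829_A00pm_123_s3 k646_A00pm_123_s3

theorem t831_A00pm_123_s3 : ∃ t, chk3 f_A00pm_123_s3 t 4088 499 1 = true := ex3_a k640_A00pm_123_s3 t830_A00pm_123_s3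

theorem t832_A00pm_123_s3 : ∃ t, chk3 f_A00pm_123_s3 t 16354 3990 1 = true := ex3_a k636_A00pm_123_s3 k637_A00pm_123_s3

theorem t833_A00pm_123_s3 : ∃ t, chk3 f_A00pm_123_s3 t 16354 1995 1 = true := ex3_b t832_A00pm_123_s3 k638_A00pm_123_s3

theorem t834_A00pm_123_s3 : ∃ t, chk3 f_A00pm_123_s3 t 8177 1995 1 = true := ex3_a t833_A00pm_123_s3 k639_A00pm_123_s3

theorem t835_A00pm_123_s3 : ∃ t, chk3 f_A00pm_123_s3 t 8177 997 1 = true := ex3_b k635_A00pm_123_s3 t834_A00pm_123_s3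

theorem t836_A00pm_123_s3 : ∃ t, chk3 f_A00pm_123_s3 t 16353 3989 1 = true := ex3_b k632_A00pm_123_s3 k633_A00pm_123_s3

theorem t837_A00pm_123_s3 : ∃ t, chk3 f_A00pm_123_s3 t 16353 1994 1 = true := ex3_b k631_A00pm_123_s3 t836_A00pm_123_s3

theorem t838_A00pm_123_s3 : ∃ t, chk3 f_A00pm_123_s3 t 8176 1994 1 = true := ex3_a k630_A00pm_123_s3 t837_A00pm_123_s3

theorem t839_A00pm_123_s3 : ∃ t, chk3 f_A00pm_123_s3 t 8176 997 1 = true := ex3_b t838_A00pm_123_s3 k634_A00pm_123_s3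

theorem t840_A00pm_123_s3 : ∃ t, chk3 f_A00pm_123_s3 t 4088 997 1 = true := ex3_a t839_A00pm_123_s3 t835_A00pm_123_s3

theorem t841_A00pm_123_s3 : ∃ t, chk3 f_A00pm_123_s3 t 16352 3987 1 = true := ex3_a k626_A00pm_123_s3 k627_A00pm_123_s3

theorem t842_A00pm_123_s3 : ∃ t, chk3 f_A00pm_123_s3 t 16352 1993 1 = true := ex3_b k625_A00pm_123_s3 t841_A00pm_123_s3

theorem t843_A00pm_123_s3 : ∃ t, chk3 f_A00pm_123_s3 t 8176 1993 1 = true := ex3_a t842_A00pm_123_s3 k628_A00pm_123_s3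

theorem t844_A00pm_123_s3 : ∃ t, chk3 f_A00pm_123_s3 t 8176 996 1 = true := ex3_b k624_A00pm_123_s3 t843_A00pm_123_s3

theorem t845_A00pm_123_s3 : ∃ t, chk3 f_A00pm_123_s3 t 4088 996 1 = true := ex3_a t844_A00pm_123_s3 k629_A00pm_123_s3

theorem t846_A00pm_123_s3 : ∃ t, chk3 f_A00pm_123_s3 t 4088 498 1 = true := ex3_b t845_A00pm_123_s3 t840_A00pm_123_s3

theorem t847_A00pm_123_s3 : ∃ t, chk3 f_A00pm_123_s3 t 4088 249 1 = true := ex3_b t846_A00pm_123_s3 t831_A00pm_123_s3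

theorem t848_A00pm_123_s3 : ∃ t, chk3 f_A00pm_123_s3 t 4088 248 1 = true := ex3_b k622_A00pm_123_s3 k623_A00pm_123_s3

theorem t849_A00pm_123_s3 : ∃ t, chk3 f_A00pm_123_s3 t 4088 124 1 = true := ex3_b t848_A00pm_123_s3 t847_A00pm_123_s3

theorem t850_A00pm_123_s3 : ∃ t, chk3 f_A00pm_123_s3 t 2044 124 1 = true := ex3_a t849_A00pm_123_s3 t825_A00pm_123_s3

theorem t851_A00pm_123_s3 : ∃ t, chk3 f_A00pm_123_s3 t 1022 124 1 = true := ex3_a t850_A00pm_123_s3 t804_A00pm_123_s3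

theorem t852_A00pm_123_s3 : ∃ t, chk3 f_A00pm_123_s3 t 1022 62 1 = true := ex3_b t851_A00pm_123_s3 t782_A00pm_123_s3

theorem t853_A00pm_123_s3 : ∃ t, chk3 f_A00pm_123_s3 t 1022 31 1 = true := ex3_b t852_A00pm_123_s3 t766_A00pm_123_s3

theorem t854_A00pm_123_s3 : ∃ t, chk3 f_A00pm_123_s3 t 511 31 1 = true := ex3_a t853_A00pm_123_s3 k738_A00pm_123_s3

theorem t855_A00pm_123_s3 : ∃ t, chk3 f_A00pm_123_s3 t 1021 1023 1 = true := ex3_a k620_A00pm_123_s3 k621_A00pm_123_s3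

theorem t856_A00pm_123_s3 : ∃ t, chk3 f_A00pm_123_s3 t 2043 2044 1 = true := ex3_c k617_A00pm_123_s3 k618_A00pm_123_s3

theorem t857_A00pm_123_s3 : ∃ t, chk3 f_A00pm_123_s3 t 2043 1022 1 = true := ex3_b t856_A00pm_123_s3 k619_A00pm_123_s3

theorem t858_A00pm_123_s3 : ∃ t, chk3 f_A00pm_123_s3 t 1021 1022 1 = true := ex3_a k616_A00pm_123_s3 t857_A00pm_123_s3

theorem t859_A00pm_123_s3 : ∃ t, chk3 f_A00pm_123_s3 t 1021 511 1 = true := ex3_b t858_A00pm_123_s3 t855_A00pm_123_s3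

theorem t860_A00pm_123_s3 : ∃ t, chk3 f_A00pm_123_s3 t 1020 1022 1 = true := ex3_b k613_A00pm_123_s3 k614_A00pm_123_s3

theorem t861_A00pm_123_s3 : ∃ t, chk3 f_A00pm_123_s3 t 1020 511 1 = true := ex3_b t860_A00pm_123_s3 k615_A00pm_123_s3

theorem t862_A00pm_123_s3 : ∃ t, chk3 f_A00pm_123_s3 t 510 511 1 = true := ex3_a t861_A00pm_123_s3 t859_A00pm_123_s3

theorem t863_A00pm_123_s3 : ∃ t, chk3 f_A00pm_123_s3 t 4086 2043 1 = true := ex3_a k610_A00pm_123_s3 k611_A00pm_123_s3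

theorem t864_A00pm_123_s3 : ∃ t, chk3 f_A00pm_123_s3 t 2043 2043 1 = true := ex3_a t863_A00pm_123_s3 k612_A00pm_123_s3

theorem t865_A00pm_123_s3 : ∃ t, chk3 f_A00pm_123_s3 t 2043 1021 1 = true := ex3_b k609_A00pm_123_s3 t864_A00pm_123_s3

theorem t866_A00pm_123_s3 : ∃ t, chk3 f_A00pm_123_s3 t 2043 510 1 = true := ex3_b k608_A00pm_123_s3 t865_A00pm_123_s3

theorem t867_A00pm_123_s3 : ∃ t, chk3 f_A00pm_123_s3 t 2042 8174 1 = true := ex3_a k605_A00pm_123_s3 k606_A00pm_123_s3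

theorem t868_A00pm_123_s3 : ∃ t, chk3 f_A00pm_123_s3 t 2042 4087 1 = true := ex3_b t867_A00pm_123_s3 k607_A00pm_123_s3

theorem t869_A00pm_123_s3 : ∃ t, chk3 f_A00pm_123_s3 t 2042 4086 1 = true := ex3_c k603_A00pm_123_s3 k604_A00pm_123_s3

theorem t870_A00pm_123_s3 : ∃ t, chk3 f_A00pm_123_s3 t 2042 2043 1 = true := ex3_b t869_A00pm_123_s3 t868_A00pm_123_s3

theorem t871_A00pm_123_s3 : ∃ t, chk3 f_A00pm_123_s3 t 2042 1021 1 = true := ex3_b k602_A00pm_123_s3 t870_A00pm_123_s3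

theorem t872_A00pm_123_s3 : ∃ t, chk3 f_A00pm_123_s3 t 2042 510 1 = true := ex3_b k601_A00pm_123_s3 t871_A00pm_123_s3

theorem t873_A00pm_123_s3 : ∃ t, chk3 f_A00pm_123_s3 t 1021 510 1 = true := ex3_a t872_A00pm_123_s3 t866_A00pm_123_s3

theorem t874_A00pm_123_s3 : ∃ t, chk3 f_A00pm_123_s3 t 2041 4086 2 = true := ex3_c k597_A00pm_123_s3 k598_A00pm_123_s3

theorem t875_A00pm_123_s3 : ∃ t, chk3 f_A00pm_123_s3 t 2041 2043 2 = true := ex3_b t874_A00pm_123_s3 k599_A00pm_123_s3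

theorem t876_A00pm_123_s3 : ∃ t, chk3 f_A00pm_123_s3 t 2041 2043 1 = true := ex3_c t875_A00pm_123_s3 k600_A00pm_123_s3

theorem t877_A00pm_123_s3 : ∃ t, chk3 f_A00pm_123_s3 t 1020 2043 1 = true := ex3_a k596_A00pm_123_s3 t876_A00pm_123_s3

theorem t878_A00pm_123_s3 : ∃ t, chk3 f_A00pm_123_s3 t 2040 4085 2 = true := ex3_a k592_A00pm_123_s3 k593_A00pm_123_s3

theorem t879_A00pm_123_s3 : ∃ t, chk3 f_A00pm_123_s3 t 2040 2042 2 = true := ex3_b k591_A00pm_123_s3 t878_A00pm_123_s3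

theorem t880_A00pm_123_s3 : ∃ t, chk3 f_A00pm_123_s3 t 2040 2042 1 = true := ex3_c t879_A00pm_123_s3 k594_A00pm_123_s3

theorem t881_A00pm_123_s3 : ∃ t, chk3 f_A00pm_123_s3 t 1020 2042 1 = true := ex3_a t880_A00pm_123_s3 k595_A00pm_123_s3

theorem t882_A00pm_123_s3 : ∃ t, chk3 f_A00pm_123_s3 t 1020 1021 1 = true := ex3_b t881_A00pm_123_s3 t877_A00pm_123_s3

theorem t883_A00pm_123_s3 : ∃ t, chk3 f_A00pm_123_s3 t 1020 1020 1 = true := ex3_a k589_A00pm_123_s3 k590_A00pm_123_s3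

theorem t884_A00pm_123_s3 : ∃ t, chk3 f_A00pm_123_s3 t 1020 510 1 = true := ex3_b t883_A00pm_123_s3 t882_A00pm_123_s3

theorem t885_A00pm_123_s3 : ∃ t, chk3 f_A00pm_123_s3 t 510 510 1 = true := ex3_a t884_A00pm_123_s3 t873_A00pm_123_s3

theorem t886_A00pm_123_s3 : ∃ t, chk3 f_A00pm_123_s3 t 510 255 1 = true := ex3_b t885_A00pm_123_s3 t862_A00pm_123_s3

theorem t887_A00pm_123_s3 : ∃ t, chk3 f_A00pm_123_s3 t 1021 509 1 = true := ex3_a k587_A00pm_123_s3 k588_A00pm_123_s3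

theorem t888_A00pm_123_s3 : ∃ t, chk3 f_A00pm_123_s3 t 1021 254 1 = true := ex3_b k586_A00pm_123_s3 t887_A00pm_123_s3

theorem t889_A00pm_123_s3 : ∃ t, chk3 f_A00pm_123_s3 t 1020 254 1 = true := ex3_b k584_A00pm_123_s3 k585_A00pm_123_s3

theorem t890_A00pm_123_s3 : ∃ t, chk3 f_A00pm_123_s3 t 510 254 1 = true := ex3_a t889_A00pm_123_s3 t888_A00pm_123_s3

theorem t891_A00pm_123_s3 : ∃ t, chk3 f_A00pm_123_s3 t 510 127 1 = true := ex3_b t890_A00pm_123_s3 t886_A00pm_123_s3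

theorem t892_A00pm_123_s3 : ∃ t, chk3 f_A00pm_123_s3 t 510 507 1 = true := ex3_a k582_A00pm_123_s3 k583_A00pm_123_s3

theorem t893_A00pm_123_s3 : ∃ t, chk3 f_A00pm_123_s3 t 2043 506 2 = true := ex3_a k579_A00pm_123_s3 k580_A00pm_123_s3

theorem t894_A00pm_123_s3 : ∃ t, chk3 f_A00pm_123_s3 t 2043 506 1 = true := ex3_c t893_A00pm_123_s3 k581_A00pm_123_s3

theorem t895_A00pm_123_s3 : ∃ t, chk3 f_A00pm_123_s3 t 2042 506 2 = true := ex3_a k576_A00pm_123_s3 k577_A00pm_123_s3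

theorem t896_A00pm_123_s3 : ∃ t, chk3 f_A00pm_123_s3 t 2042 506 1 = true := ex3_c t895_A00pm_123_s3 k578_A00pm_123_s3

theorem t897_A00pm_123_s3 : ∃ t, chk3 f_A00pm_123_s3 t 1021 506 1 = true := ex3_a t896_A00pm_123_s3 t894_A00pm_123_s3

theorem t898_A00pm_123_s3 : ∃ t, chk3 f_A00pm_123_s3 t 1020 506 1 = true := ex3_b k574_A00pm_123_s3 k575_A00pm_123_s3

theorem t899_A00pm_123_s3 : ∃ t, chk3 f_A00pm_123_s3 t 510 506 1 = true := ex3_a t898_A00pm_123_s3 t897_A00pm_123_s3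

theorem t900_A00pm_123_s3 : ∃ t, chk3 f_A00pm_123_s3 t 510 253 1 = true := ex3_b t899_A00pm_123_s3 t892_A00pm_123_s3

theorem t901_A00pm_123_s3 : ∃ t, chk3 f_A00pm_123_s3 t 4087 505 3 = true := ex3_b k572_A00pm_123_s3 k573_A00pm_123_s3

theorem t902_A00pm_123_s3 : ∃ t, chk3 f_A00pm_123_s3 t 2043 505 3 = true := ex3_a k571_A00pm_123_s3 t901_A00pm_123_s3

theorem t903_A00pm_123_s3 : ∃ t, chk3 f_A00pm_123_s3 t 4087 1011 2 = true := ex3_c k569_A00pm_123_s3 k570_A00pm_123_s3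

theorem t904_A00pm_123_s3 : ∃ t, chk3 f_A00pm_123_s3 t 4087 1010 2 = true := ex3_c k567_A00pm_123_s3 k568_A00pm_123_s3

theorem t905_A00pm_123_s3 : ∃ t, chk3 f_A00pm_123_s3 t 4087 505 2 = true := ex3_b t904_A00pm_123_s3 t903_A00pm_123_s3

theorem t906_A00pm_123_s3 : ∃ t, chk3 f_A00pm_123_s3 t 4086 1010 2 = true := ex3_c k564_A00pm_123_s3 k565_A00pm_123_s3

theorem t907_A00pm_123_s3 : ∃ t, chk3 f_A00pm_123_s3 t 4086 505 2 = true := ex3_b t906_A00pm_123_s3 k566_A00pm_123_s3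

theorem t908_A00pm_123_s3 : ∃ t, chk3 f_A00pm_123_s3 t 2043 505 2 = true := ex3_a t907_A00pm_123_s3 t905_A00pm_123_s3

theorem t909_A00pm_123_s3 : ∃ t, chk3 f_A00pm_123_s3 t 2043 505 1 = true := ex3_c t908_A00pm_123_s3 t902_A00pm_123_s3

theorem t910_A00pm_123_s3 : ∃ t, chk3 f_A00pm_123_s3 t 2043 504 3 = true := ex3_a k562_A00pm_123_s3 k563_A00pm_123_s3

theorem t911_A00pm_123_s3 : ∃ t, chk3 f_A00pm_123_s3 t 4087 1009 2 = true := ex3_c k560_A00pm_123_s3 k561_A00pm_123_s3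

theorem t912_A00pm_123_s3 : ∃ t, chk3 f_A00pm_123_s3 t 4087 1008 2 = true := ex3_b k558_A00pm_123_s3 k559_A00pm_123_s3

theorem t913_A00pm_123_s3 : ∃ t, chk3 f_A00pm_123_s3 t 4087 504 2 = true := ex3_b t912_A00pm_123_s3 t911_A00pm_123_s3

theorem t914_A00pm_123_s3 : ∃ t, chk3 f_A00pm_123_s3 t 4086 1009 2 = true := ex3_c k556_A00pm_123_s3 k557_A00pm_123_s3

theorem t915_A00pm_123_s3 : ∃ t, chk3 f_A00pm_123_s3 t 4086 1008 2 = true := ex3_b k554_A00pm_123_s3 k555_A00pm_123_s3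

theorem t916_A00pm_123_s3 : ∃ t, chk3 f_A00pm_123_s3 t 4086 504 2 = true := ex3_b t915_A00pm_123_s3 t914_A00pm_123_s3

theorem t917_A00pm_123_s3 : ∃ t, chk3 f_A00pm_123_s3 t 2043 504 2 = true := ex3_a t916_A00pm_123_s3 t913_A00pm_123_s3

theorem t918_A00pm_123_s3 : ∃ t, chk3 f_A00pm_123_s3 t 2043 504 1 = true := ex3_c t917_A00pm_123_s3 t910_A00pm_123_s3

theorem t919_A00pm_123_s3 : ∃ t, chk3 f_A00pm_123_s3 t 2043 252 1 = true := ex3_b t918_A00pm_123_s3 t909_A00pm_123_s3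

theorem t920_A00pm_123_s3 : ∃ t, chk3 f_A00pm_123_s3 t 4085 505 2 = true := ex3_b k551_A00pm_123_s3 k552_A00pm_123_s3

theorem t921_A00pm_123_s3 : ∃ t, chk3 f_A00pm_123_s3 t 2042 505 2 = true := ex3_a k550_A00pm_123_s3 t920_A00pm_123_s3

theorem t922_A00pm_123_s3 : ∃ t, chk3 f_A00pm_123_s3 t 2042 505 1 = true := ex3_c t921_A00pm_123_s3 k553_A00pm_123_s3

theorem t923_A00pm_123_s3 : ∃ t, chk3 f_A00pm_123_s3 t 4085 504 2 = true := ex3_a k547_A00pm_123_s3 k548_A00pm_123_s3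

theorem t924_A00pm_123_s3 : ∃ t, chk3 f_A00pm_123_s3 t 4084 504 2 = true := ex3_a k545_A00pm_123_s3 k546_A00pm_123_s3

theorem t925_A00pm_123_s3 : ∃ t, chk3 f_A00pm_123_s3 t 2042 504 2 = true := ex3_a t924_A00pm_123_s3 t923_A00pm_123_s3

theorem t926_A00pm_123_s3 : ∃ t, chk3 f_A00pm_123_s3 t 2042 504 1 = true := ex3_c t925_A00pm_123_s3 k549_A00pm_123_s3

theorem t927_A00pm_123_s3 : ∃ t, chk3 f_A00pm_123_s3 t 2042 252 1 = true := ex3_b t926_A00pm_123_s3 t922_A00pm_123_s3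

theorem t928_A00pm_123_s3 : ∃ t, chk3 f_A00pm_123_s3 t 1021 252 1 = true := ex3_a t927_A00pm_123_s3 t919_A00pm_123_s3

theorem t929_A00pm_123_s3 : ∃ t, chk3 f_A00pm_123_s3 t 2041 505 1 = true := ex3_b k543_A00pm_123_s3 k544_A00pm_123_s3

theorem t930_A00pm_123_s3 : ∃ t, chk3 f_A00pm_123_s3 t 2041 504 2 = true := ex3_a k540_A00pm_123_s3 k541_A00pm_123_s3

theorem t931_A00pm_123_s3 : ∃ t, chk3 f_A00pm_123_s3 t 2041 504 1 = true := ex3_c t930_A00pm_123_s3 k542_A00pm_123_s3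

theorem t932_A00pm_123_s3 : ∃ t, chk3 f_A00pm_123_s3 t 2041 252 1 = true := ex3_b t931_A00pm_123_s3 t929_A00pm_123_s3

theorem t933_A00pm_123_s3 : ∃ t, chk3 f_A00pm_123_s3 t 2040 252 1 = true := ex3_c k538_A00pm_123_s3 k539_A00pm_123_s3

theorem t934_A00pm_123_s3 : ∃ t, chk3 f_A00pm_123_s3 t 1020 252 1 = true := ex3_a t933_A00pm_123_s3 t932_A00pm_123_s3

theorem t935_A00pm_123_s3 : ∃ t, chk3 f_A00pm_123_s3 t 510 252 1 = true := ex3_a t934_A00pm_123_s3 t928_A00pm_123_s3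

theorem t936_A00pm_123_s3 : ∃ t, chk3 f_A00pm_123_s3 t 510 126 1 = true := ex3_b t935_A00pm_123_s3 t900_A00pm_123_s3

theorem t937_A00pm_123_s3 : ∃ t, chk3 f_A00pm_123_s3 t 510 63 1 = true := ex3_b t936_A00pm_123_s3 t891_A00pm_123_s3

theorem t938_A00pm_123_s3 : ∃ t, chk3 f_A00pm_123_s3 t 4087 503 2 = true := ex3_b k535_A00pm_123_s3 k536_A00pm_123_s3

theorem t939_A00pm_123_s3 : ∃ t, chk3 f_A00pm_123_s3 t 4086 503 2 = true := ex3_b k533_A00pm_123_s3 k534_A00pm_123_s3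

theorem t940_A00pm_123_s3 : ∃ t, chk3 f_A00pm_123_s3 t 2043 503 2 = true := ex3_a t939_A00pm_123_s3 t938_A00pm_123_s3

theorem t941_A00pm_123_s3 : ∃ t, chk3 f_A00pm_123_s3 t 2043 503 1 = true := ex3_c t940_A00pm_123_s3 k537_A00pm_123_s3

theorem t942_A00pm_123_s3 : ∃ t, chk3 f_A00pm_123_s3 t 2043 502 2 = true := ex3_a k530_A00pm_123_s3 k531_A00pm_123_s3

theorem t943_A00pm_123_s3 : ∃ t, chk3 f_A00pm_123_s3 t 2043 502 1 = true := ex3_c t942_A00pm_123_s3 k532_A00pm_123_s3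

theorem t944_A00pm_123_s3 : ∃ t, chk3 f_A00pm_123_s3 t 2043 251 1 = true := ex3_b t943_A00pm_123_s3 t941_A00pm_123_s3

theorem t945_A00pm_123_s3 : ∃ t, chk3 f_A00pm_123_s3 t 4085 503 2 = true := ex3_c k527_A00pm_123_s3 k528_A00pm_123_s3

theorem t946_A00pm_123_s3 : ∃ t, chk3 f_A00pm_123_s3 t 2042 503 2 = true := ex3_a k526_A00pm_123_s3 t945_A00pm_123_s3

theorem t947_A00pm_123_s3 : ∃ t, chk3 f_A00pm_123_s3 t 2042 503 1 = true := ex3_c t946_A00pm_123_s3 k529_A00pm_123_s3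

theorem t948_A00pm_123_s3 : ∃ t, chk3 f_A00pm_123_s3 t 2042 502 2 = true := ex3_a k523_A00pm_123_s3 k524_A00pm_123_s3

theorem t949_A00pm_123_s3 : ∃ t, chk3 f_A00pm_123_s3 t 2042 502 1 = true := ex3_c t948_A00pm_123_s3 k525_A00pm_123_s3

theorem t950_A00pm_123_s3 : ∃ t, chk3 f_A00pm_123_s3 t 2042 251 1 = true := ex3_b t949_A00pm_123_s3 t947_A00pm_123_s3

theorem t951_A00pm_123_s3 : ∃ t, chk3 f_A00pm_123_s3 t 1021 251 1 = true := ex3_a t950_A00pm_123_s3 t944_A00pm_123_s3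

theorem t952_A00pm_123_s3 : ∃ t, chk3 f_A00pm_123_s3 t 2043 501 1 = true := ex3_c k521_A00pm_123_s3 k522_A00pm_123_s3

theorem t953_A00pm_123_s3 : ∃ t, chk3 f_A00pm_123_s3 t 2043 250 1 = true := ex3_b k520_A00pm_123_s3 t952_A00pm_123_s3

theorem t954_A00pm_123_s3 : ∃ t, chk3 f_A00pm_123_s3 t 2042 250 2 = true := ex3_b k517_A00pm_123_s3 k518_A00pm_123_s3

theorem t955_A00pm_123_s3 : ∃ t, chk3 f_A00pm_123_s3 t 2042 250 1 = true := ex3_c t954_A00pm_123_s3 k519_A00pm_123_s3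

theorem t956_A00pm_123_s3 : ∃ t, chk3 f_A00pm_123_s3 t 1021 250 1 = true := ex3_a t955_A00pm_123_s3 t953_A00pm_123_s3

theorem t957_A00pm_123_s3 : ∃ t, chk3 f_A00pm_123_s3 t 1021 125 1 = true := ex3_b t956_A00pm_123_s3 t951_A00pm_123_s3

theorem t958_A00pm_123_s3 : ∃ t, chk3 f_A00pm_123_s3 t 16351 3985 1 = true := ex3_a k512_A00pm_123_s3 k513_A00pm_123_s3

theorem t959_A00pm_123_s3 : ∃ t, chk3 f_A00pm_123_s3 t 16351 1992 1 = true := ex3_b k511_A00pm_123_s3 t958_A00pm_123_s3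

theorem t960_A00pm_123_s3 : ∃ t, chk3 f_A00pm_123_s3 t 8175 1992 1 = true := ex3_a k510_A00pm_123_s3 t959_A00pm_123_s3

theorem t961_A00pm_123_s3 : ∃ t, chk3 f_A00pm_123_s3 t 8175 996 1 = true := ex3_b t960_A00pm_123_s3 k514_A00pm_123_s3

theorem t962_A00pm_123_s3 : ∃ t, chk3 f_A00pm_123_s3 t 4087 996 1 = true := ex3_a k509_A00pm_123_s3 t961_A00pm_123_s3

theorem t963_A00pm_123_s3 : ∃ t, chk3 f_A00pm_123_s3 t 4087 498 1 = true := ex3_b t962_A00pm_123_s3 k515_A00pm_123_s3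

theorem t964_A00pm_123_s3 : ∃ t, chk3 f_A00pm_123_s3 t 4087 249 1 = true := ex3_b t963_A00pm_123_s3 k516_A00pm_123_s3

theorem t965_A00pm_123_s3 : ∃ t, chk3 f_A00pm_123_s3 t 2043 249 1 = true := ex3_a k508_A00pm_123_s3 t964_A00pm_123_s3

theorem t966_A00pm_123_s3 : ∃ t, chk3 f_A00pm_123_s3 t 32700 3983 1 = true := ex3_b k504_A00pm_123_s3 k505_A00pm_123_s3

theorem t967_A00pm_123_s3 : ∃ t, chk3 f_A00pm_123_s3 t 32700 1991 1 = true := ex3_b k503_A00pm_123_s3 t966_A00pm_123_s3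

theorem t968_A00pm_123_s3 : ∃ t, chk3 f_A00pm_123_s3 t 16350 1991 1 = true := ex3_a t967_A00pm_123_s3 k506_A00pm_123_s3

theorem t969_A00pm_123_s3 : ∃ t, chk3 f_A00pm_123_s3 t 16350 995 1 = true := ex3_b k502_A00pm_123_s3 t968_A00pm_123_s3

theorem t970_A00pm_123_s3 : ∃ t, chk3 f_A00pm_123_s3 t 8175 995 1 = true := ex3_a t969_A00pm_123_s3 k507_A00pm_123_s3

theorem t971_A00pm_123_s3 : ∃ t, chk3 f_A00pm_123_s3 t 8175 497 1 = true := ex3_b k501_A00pm_123_s3 t970_A00pm_123_s3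

theorem t972_A00pm_123_s3 : ∃ t, chk3 f_A00pm_123_s3 t 8175 248 1 = true := ex3_b k500_A00pm_123_s3 t971_A00pm_123_s3

theorem t973_A00pm_123_s3 : ∃ t, chk3 f_A00pm_123_s3 t 16349 3982 1 = true := ex3_a k497_A00pm_123_s3 k498_A00pm_123_s3

theorem t974_A00pm_123_s3 : ∃ t, chk3 f_A00pm_123_s3 t 16349 1991 1 = true := ex3_b t973_A00pm_123_s3 k499_A00pm_123_s3

theorem t975_A00pm_123_s3 : ∃ t, chk3 f_A00pm_123_s3 t 8174 1991 1 = true := ex3_a k496_A00pm_123_s3 t974_A00pm_123_s3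

theorem t976_A00pm_123_s3 : ∃ t, chk3 f_A00pm_123_s3 t 16348 3980 1 = true := ex3_a k492_A00pm_123_s3 k493_A00pm_123_s3

theorem t977_A00pm_123_s3 : ∃ t, chk3 f_A00pm_123_s3 t 16348 1990 1 = true := ex3_b t976_A00pm_123_s3 k494_A00pm_123_s3

theorem t978_A00pm_123_s3 : ∃ t, chk3 f_A00pm_123_s3 t 8174 1990 1 = true := ex3_a t977_A00pm_123_s3 k495_A00pm_123_s3

theorem t979_A00pm_123_s3 : ∃ t, chk3 f_A00pm_123_s3 t 8174 995 1 = true := ex3_b t978_A00pm_123_s3 t975_A00pm_123_s3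

theorem t980_A00pm_123_s3 : ∃ t, chk3 f_A00pm_123_s3 t 8174 497 1 = true := ex3_b k491_A00pm_123_s3 t979_A00pm_123_s3

theorem t981_A00pm_123_s3 : ∃ t, chk3 f_A00pm_123_s3 t 8174 248 1 = true := ex3_b k490_A00pm_123_s3 t980_A00pm_123_s3

theorem t982_A00pm_123_s3 : ∃ t, chk3 f_A00pm_123_s3 t 4087 248 1 = true := ex3_a t981_A00pm_123_s3 t972_A00pm_123_s3

theorem t983_A00pm_123_s3 : ∃ t, chk3 f_A00pm_123_s3 t 32695 3979 1 = true := ex3_b k487_A00pm_123_s3 k488_A00pm_123_s3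

theorem t984_A00pm_123_s3 : ∃ t, chk3 f_A00pm_123_s3 t 16347 3979 1 = true := ex3_a k486_A00pm_123_s3 t983_A00pm_123_s3

theorem t985_A00pm_123_s3 : ∃ t, chk3 f_A00pm_123_s3 t 32694 3978 1 = true := ex3_b k483_A00pm_123_s3 k484_A00pm_123_s3

theorem t986_A00pm_123_s3 : ∃ t, chk3 f_A00pm_123_s3 t 16347 3978 1 = true := ex3_a t985_A00pm_123_s3 k485_A00pm_123_s3

theorem t987_A00pm_123_s3 : ∃ t, chk3 f_A00pm_123_s3 t 16347 1989 1 = true := ex3_b t986_A00pm_123_s3 t984_A00pm_123_s3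

theorem t988_A00pm_123_s3 : ∃ t, chk3 f_A00pm_123_s3 t 8173 1989 1 = true := ex3_a k482_A00pm_123_s3 t987_A00pm_123_s3

theorem t989_A00pm_123_s3 : ∃ t, chk3 f_A00pm_123_s3 t 16346 3977 1 = true := ex3_a k479_A00pm_123_s3 k480_A00pm_123_s3

theorem t990_A00pm_123_s3 : ∃ t, chk3 f_A00pm_123_s3 t 16346 1988 1 = true := ex3_b k478_A00pm_123_s3 t989_A00pm_123_s3

theorem t991_A00pm_123_s3 : ∃ t, chk3 f_A00pm_123_s3 t 8173 1988 1 = true := ex3_a t990_A00pm_123_s3 k481_A00pm_123_s3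

theorem t992_A00pm_123_s3 : ∃ t, chk3 f_A00pm_123_s3 t 8173 994 1 = true := ex3_b t991_A00pm_123_s3 t988_A00pm_123_s3

theorem t993_A00pm_123_s3 : ∃ t, chk3 f_A00pm_123_s3 t 8172 994 1 = true := ex3_b k476_A00pm_123_s3 k477_A00pm_123_s3

theorem t994_A00pm_123_s3 : ∃ t, chk3 f_A00pm_123_s3 t 4086 994 1 = true := ex3_a t993_A00pm_123_s3 t992_A00pm_123_s3

theorem t995_A00pm_123_s3 : ∃ t, chk3 f_A00pm_123_s3 t 4086 497 1 = true := ex3_b t994_A00pm_123_s3 k489_A00pm_123_s3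

theorem t996_A00pm_123_s3 : ∃ t, chk3 f_A00pm_123_s3 t 32690 1987 1 = true := ex3_a k472_A00pm_123_s3 k473_A00pm_123_s3

theorem t997_A00pm_123_s3 : ∃ t, chk3 f_A00pm_123_s3 t 16345 1987 1 = true := ex3_a t996_A00pm_123_s3 k474_A00pm_123_s3

theorem t998_A00pm_123_s3 : ∃ t, chk3 f_A00pm_123_s3 t 32689 3974 1 = true := ex3_b k469_A00pm_123_s3 k470_A00pm_123_s3

theorem t999_A00pm_123_s3 : ∃ t, chk3 f_A00pm_123_s3 t 16344 3974 1 = true := ex3_a k468_A00pm_123_s3 t998_A00pm_123_s3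

theorem t1000_A00pm_123_s3 : ∃ t, chk3 f_A00pm_123_s3 t 16344 1987 1 = true := ex3_b t999_A00pm_123_s3 k471_A00pm_123_s3

theorem t1001_A00pm_123_s3 : ∃ t, chk3 f_A00pm_123_s3 t 8172 1987 1 = true := ex3_a t1000_A00pm_123_s3 t997_A00pm_123_s3

theorem t1002_A00pm_123_s3 : ∃ t, chk3 f_A00pm_123_s3 t 8172 1986 1 = true := ex3_c k466_A00pm_123_s3 k467_A00pm_123_s3

theorem t1003_A00pm_123_s3 : ∃ t, chk3 f_A00pm_123_s3 t 8172 993 1 = true := ex3_b t1002_A00pm_123_s3 t1001_A00pm_123_s3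

theorem t1004_A00pm_123_s3 : ∃ t, chk3 f_A00pm_123_s3 t 4086 993 1 = true := ex3_a t1003_A00pm_123_s3 k475_A00pm_123_s3

theorem t1005_A00pm_123_s3 : ∃ t, chk3 f_A00pm_123_s3 t 4086 496 1 = true := ex3_b k465_A00pm_123_s3 t1004_A00pm_123_s3

theorem t1006_A00pm_123_s3 : ∃ t, chk3 f_A00pm_123_s3 t 4086 248 1 = true := ex3_b t1005_A00pm_123_s3 t995_A00pm_123_s3

theorem t1007_A00pm_123_s3 : ∃ t, chk3 f_A00pm_123_s3 t 2043 248 1 = true := ex3_a t1006_A00pm_123_s3 t982_A00pm_123_s3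

theorem t1008_A00pm_123_s3 : ∃ t, chk3 f_A00pm_123_s3 t 2043 124 1 = true := ex3_b t1007_A00pm_123_s3 t965_A00pm_123_s3

theorem t1009_A00pm_123_s3 : ∃ t, chk3 f_A00pm_123_s3 t 32686 3972 1 = true := ex3_b k458_A00pm_123_s3 k459_A00pm_123_s3

theorem t1010_A00pm_123_s3 : ∃ t, chk3 f_A00pm_123_s3 t 16343 3972 1 = true := ex3_a t1009_A00pm_123_s3 k460_A00pm_123_s3

theorem t1011_A00pm_123_s3 : ∃ t, chk3 f_A00pm_123_s3 t 16343 1986 1 = true := ex3_b t1010_A00pm_123_s3 k461_A00pm_123_s3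

theorem t1012_A00pm_123_s3 : ∃ t, chk3 f_A00pm_123_s3 t 8171 1986 1 = true := ex3_a k457_A00pm_123_s3 t1011_A00pm_123_s3

theorem t1013_A00pm_123_s3 : ∃ t, chk3 f_A00pm_123_s3 t 8171 993 1 = true := ex3_b t1012_A00pm_123_s3 k462_A00pm_123_s3

theorem t1014_A00pm_123_s3 : ∃ t, chk3 f_A00pm_123_s3 t 4085 993 1 = true := ex3_a k456_A00pm_123_s3 t1013_A00pm_123_s3

theorem t1015_A00pm_123_s3 : ∃ t, chk3 f_A00pm_123_s3 t 16342 3971 1 = true := ex3_b k453_A00pm_123_s3 k454_A00pm_123_s3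

theorem t1016_A00pm_123_s3 : ∃ t, chk3 f_A00pm_123_s3 t 16342 1985 1 = true := ex3_b k452_A00pm_123_s3 t1015_A00pm_123_s3

theorem t1017_A00pm_123_s3 : ∃ t, chk3 f_A00pm_123_s3 t 16342 992 1 = true := ex3_b k451_A00pm_123_s3 t1016_A00pm_123_s3

theorem t1018_A00pm_123_s3 : ∃ t, chk3 f_A00pm_123_s3 t 8171 992 1 = true := ex3_a t1017_A00pm_123_s3 k455_A00pm_123_s3

theorem t1019_A00pm_123_s3 : ∃ t, chk3 f_A00pm_123_s3 t 32682 3969 1 = true := ex3_b k447_A00pm_123_s3 k448_A00pm_123_s3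

theorem t1020_A00pm_123_s3 : ∃ t, chk3 f_A00pm_123_s3 t 32682 1984 1 = true := ex3_b k446_A00pm_123_s3 t1019_A00pm_123_s3

theorem t1021_A00pm_123_s3 : ∃ t, chk3 f_A00pm_123_s3 t 16341 1984 1 = true := ex3_a t1020_A00pm_123_s3 k449_A00pm_123_s3

theorem t1022_A00pm_123_s3 : ∃ t, chk3 f_A00pm_123_s3 t 32681 3968 1 = true := ex3_b k443_A00pm_123_s3 k444_A00pm_123_s3

theorem t1023_A00pm_123_s3 : ∃ t, chk3 f_A00pm_123_s3 t 16340 3968 1 = true := ex3_a k442_A00pm_123_s3 t1022_A00pm_123_s3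

theorem t1024_A00pm_123_s3 : ∃ t, chk3 f_A00pm_123_s3 t 16340 1984 1 = true := ex3_b t1023_A00pm_123_s3 k445_A00pm_123_s3

theorem t1025_A00pm_123_s3 : ∃ t, chk3 f_A00pm_123_s3 t 8170 1984 1 = true := ex3_a t1024_A00pm_123_s3 t1021_A00pm_123_s3

theorem t1026_A00pm_123_s3 : ∃ t, chk3 f_A00pm_123_s3 t 8170 992 1 = true := ex3_b t1025_A00pm_123_s3 k450_A00pm_123_s3

theorem t1027_A00pm_123_s3 : ∃ t, chk3 f_A00pm_123_s3 t 4085 992 1 = true := ex3_a t1026_A00pm_123_s3 t1018_A00pm_123_s3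

theorem t1028_A00pm_123_s3 : ∃ t, chk3 f_A00pm_123_s3 t 4085 496 1 = true := ex3_b t1027_A00pm_123_s3 t1014_A00pm_123_s3

theorem t1029_A00pm_123_s3 : ∃ t, chk3 f_A00pm_123_s3 t 2042 496 1 = true := ex3_a k441_A00pm_123_s3 t1028_A00pm_123_s3

theorem t1030_A00pm_123_s3 : ∃ t, chk3 f_A00pm_123_s3 t 2042 248 1 = true := ex3_b t1029_A00pm_123_s3 k463_A00pm_123_s3

theorem t1031_A00pm_123_s3 : ∃ t, chk3 f_A00pm_123_s3 t 2042 124 1 = true := ex3_b t1030_A00pm_123_s3 k464_A00pm_123_s3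

theorem t1032_A00pm_123_s3 : ∃ t, chk3 f_A00pm_123_s3 t 1021 124 1 = true := ex3_a t1031_A00pm_123_s3 t1008_A00pm_123_s3

theorem t1033_A00pm_123_s3 : ∃ t, chk3 f_A00pm_123_s3 t 1021 62 1 = true := ex3_b t1032_A00pm_123_s3 t957_A00pm_123_s3

theorem t1034_A00pm_123_s3 : ∃ t, chk3 f_A00pm_123_s3 t 2041 503 2 = true := ex3_a k438_A00pm_123_s3 k439_A00pm_123_s3

theorem t1035_A00pm_123_s3 : ∃ t, chk3 f_A00pm_123_s3 t 2041 503 1 = true := ex3_c t1034_A00pm_123_s3 k440_A00pm_123_s3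

theorem t1036_A00pm_123_s3 : ∃ t, chk3 f_A00pm_123_s3 t 2041 251 1 = true := ex3_b k437_A00pm_123_s3 t1035_A00pm_123_s3

theorem t1037_A00pm_123_s3 : ∃ t, chk3 f_A00pm_123_s3 t 1020 251 1 = true := ex3_a k436_A00pm_123_s3 t1036_A00pm_123_s3

theorem t1038_A00pm_123_s3 : ∃ t, chk3 f_A00pm_123_s3 t 1020 250 2 = true := ex3_a k433_A00pm_123_s3 k434_A00pm_123_s3

theorem t1039_A00pm_123_s3 : ∃ t, chk3 f_A00pm_123_s3 t 1020 250 1 = true := ex3_c t1038_A00pm_123_s3 k435_A00pm_123_s3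

theorem t1040_A00pm_123_s3 : ∃ t, chk3 f_A00pm_123_s3 t 1020 125 1 = true := ex3_b t1039_A00pm_123_s3 t1037_A00pm_123_s3

theorem t1041_A00pm_123_s3 : ∃ t, chk3 f_A00pm_123_s3 t 1020 248 1 = true := ex3_a k430_A00pm_123_s3 k431_A00pm_123_s3

theorem t1042_A00pm_123_s3 : ∃ t, chk3 f_A00pm_123_s3 t 1020 124 1 = true := ex3_b t1041_A00pm_123_s3 k432_A00pm_123_s3

theorem t1043_A00pm_123_s3 : ∃ t, chk3 f_A00pm_123_s3 t 1020 62 1 = true := ex3_b t1042_A00pm_123_s3 t1040_A00pm_123_s3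

theorem t1044_A00pm_123_s3 : ∃ t, chk3 f_A00pm_123_s3 t 510 62 1 = true := ex3_a t1043_A00pm_123_s3 t1033_A00pm_123_s3

theorem t1045_A00pm_123_s3 : ∃ t, chk3 f_A00pm_123_s3 t 510 31 1 = true := ex3_b t1044_A00pm_123_s3 t937_A00pm_123_s3

theorem t1046_A00pm_123_s3 : ∃ t, chk3 f_A00pm_123_s3 t 255 31 1 = true := ex3_a t1045_A00pm_123_s3 t854_A00pm_123_s3

theorem t1047_A00pm_123_s3 : ∃ t, chk3 f_A00pm_123_s3 t 509 1022 1 = true := ex3_a k427_A00pm_123_s3 k428_A00pm_123_s3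

theorem t1048_A00pm_123_s3 : ∃ t, chk3 f_A00pm_123_s3 t 509 511 1 = true := ex3_b t1047_A00pm_123_s3 k429_A00pm_123_s3

theorem t1049_A00pm_123_s3 : ∃ t, chk3 f_A00pm_123_s3 t 1019 4084 3 = true := ex3_a k423_A00pm_123_s3 k424_A00pm_123_s3

theorem t1050_A00pm_123_s3 : ∃ t, chk3 f_A00pm_123_s3 t 1019 2042 3 = true := ex3_b t1049_A00pm_123_s3 k425_A00pm_123_s3

theorem t1051_A00pm_123_s3 : ∃ t, chk3 f_A00pm_123_s3 t 2039 2042 2 = true := ex3_b k421_A00pm_123_s3 k422_A00pm_123_s3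

theorem t1052_A00pm_123_s3 : ∃ t, chk3 f_A00pm_123_s3 t 2038 2042 2 = true := ex3_c k419_A00pm_123_s3 k420_A00pm_123_s3

theorem t1053_A00pm_123_s3 : ∃ t, chk3 f_A00pm_123_s3 t 1019 2042 2 = true := ex3_a t1052_A00pm_123_s3 t1051_A00pm_123_s3

theorem t1054_A00pm_123_s3 : ∃ t, chk3 f_A00pm_123_s3 t 1019 2042 1 = true := ex3_c t1053_A00pm_123_s3 t1050_A00pm_123_s3

theorem t1055_A00pm_123_s3 : ∃ t, chk3 f_A00pm_123_s3 t 1019 1021 1 = true := ex3_b t1054_A00pm_123_s3 k426_A00pm_123_s3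

theorem t1056_A00pm_123_s3 : ∃ t, chk3 f_A00pm_123_s3 t 2038 1020 1 = true := ex3_a k416_A00pm_123_s3 k417_A00pm_123_s3

theorem t1057_A00pm_123_s3 : ∃ t, chk3 f_A00pm_123_s3 t 1019 1020 1 = true := ex3_a t1056_A00pm_123_s3 k418_A00pm_123_s3

theorem t1058_A00pm_123_s3 : ∃ t, chk3 f_A00pm_123_s3 t 1019 510 1 = true := ex3_b t1057_A00pm_123_s3 t1055_A00pm_123_s3

theorem t1059_A00pm_123_s3 : ∃ t, chk3 f_A00pm_123_s3 t 1018 1021 1 = true := ex3_b k414_A00pm_123_s3 k415_A00pm_123_s3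

theorem t1060_A00pm_123_s3 : ∃ t, chk3 f_A00pm_123_s3 t 2037 2041 1 = true := ex3_a k412_A00pm_123_s3 k413_A00pm_123_s3

theorem t1061_A00pm_123_s3 : ∃ t, chk3 f_A00pm_123_s3 t 1018 2041 1 = true := ex3_a k411_A00pm_123_s3 t1060_A00pm_123_s3

theorem t1062_A00pm_123_s3 : ∃ t, chk3 f_A00pm_123_s3 t 1018 1020 1 = true := ex3_b k410_A00pm_123_s3 t1061_A00pm_123_s3

theorem t1063_A00pm_123_s3 : ∃ t, chk3 f_A00pm_123_s3 t 1018 510 1 = true := ex3_b t1062_A00pm_123_s3 t1059_A00pm_123_s3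

theorem t1064_A00pm_123_s3 : ∃ t, chk3 f_A00pm_123_s3 t 509 510 1 = true := ex3_a t1063_A00pm_123_s3 t1058_A00pm_123_s3

theorem t1065_A00pm_123_s3 : ∃ t, chk3 f_A00pm_123_s3 t 509 255 1 = true := ex3_b t1064_A00pm_123_s3 t1048_A00pm_123_s3

theorem t1066_A00pm_123_s3 : ∃ t, chk3 f_A00pm_123_s3 t 1019 509 1 = true := ex3_a k408_A00pm_123_s3 k409_A00pm_123_s3

theorem t1067_A00pm_123_s3 : ∃ t, chk3 f_A00pm_123_s3 t 509 509 1 = true := ex3_a k407_A00pm_123_s3 t1066_A00pm_123_s3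

theorem t1068_A00pm_123_s3 : ∃ t, chk3 f_A00pm_123_s3 t 509 254 1 = true := ex3_b k406_A00pm_123_s3 t1067_A00pm_123_s3

theorem t1069_A00pm_123_s3 : ∃ t, chk3 f_A00pm_123_s3 t 509 127 1 = true := ex3_b t1068_A00pm_123_s3 t1065_A00pm_123_s3

theorem t1070_A00pm_123_s3 : ∃ t, chk3 f_A00pm_123_s3 t 508 511 1 = true := ex3_a k404_A00pm_123_s3 k405_A00pm_123_s3

theorem t1071_A00pm_123_s3 : ∃ t, chk3 f_A00pm_123_s3 t 1017 1020 1 = true := ex3_c k401_A00pm_123_s3 k402_A00pm_123_s3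

theorem t1072_A00pm_123_s3 : ∃ t, chk3 f_A00pm_123_s3 t 1016 1020 1 = true := ex3_b k399_A00pm_123_s3 k400_A00pm_123_s3

theorem t1073_A00pm_123_s3 : ∃ t, chk3 f_A00pm_123_s3 t 508 1020 1 = true := ex3_a t1072_A00pm_123_s3 t1071_A00pm_123_s3

theorem t1074_A00pm_123_s3 : ∃ t, chk3 f_A00pm_123_s3 t 508 510 1 = true := ex3_b t1073_A00pm_123_s3 k403_A00pm_123_s3

theorem t1075_A00pm_123_s3 : ∃ t, chk3 f_A00pm_123_s3 t 508 255 1 = true := ex3_b t1074_A00pm_123_s3 t1070_A00pm_123_s3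

theorem t1076_A00pm_123_s3 : ∃ t, chk3 f_A00pm_123_s3 t 508 254 1 = true := ex3_b k397_A00pm_123_s3 k398_A00pm_123_s3

theorem t1077_A00pm_123_s3 : ∃ t, chk3 f_A00pm_123_s3 t 508 127 1 = true := ex3_b t1076_A00pm_123_s3 t1075_A00pm_123_s3

theorem t1078_A00pm_123_s3 : ∃ t, chk3 f_A00pm_123_s3 t 254 127 1 = true := ex3_a t1077_A00pm_123_s3 t1069_A00pm_123_s3

theorem t1079_A00pm_123_s3 : ∃ t, chk3 f_A00pm_123_s3 t 509 253 1 = true := ex3_a k395_A00pm_123_s3 k396_A00pm_123_s3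

theorem t1080_A00pm_123_s3 : ∃ t, chk3 f_A00pm_123_s3 t 254 253 1 = true := ex3_a k394_A00pm_123_s3 t1079_A00pm_123_s3

theorem t1081_A00pm_123_s3 : ∃ t, chk3 f_A00pm_123_s3 t 1019 252 1 = true := ex3_b k392_A00pm_123_s3 k393_A00pm_123_s3

theorem t1082_A00pm_123_s3 : ∃ t, chk3 f_A00pm_123_s3 t 509 252 1 = true := ex3_a k391_A00pm_123_s3 t1081_A00pm_123_s3

theorem t1083_A00pm_123_s3 : ∃ t, chk3 f_A00pm_123_s3 t 254 252 1 = true := ex3_a k390_A00pm_123_s3 t1082_A00pm_123_s3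

theorem t1084_A00pm_123_s3 : ∃ t, chk3 f_A00pm_123_s3 t 254 126 1 = true := ex3_b t1083_A00pm_123_s3 t1080_A00pm_123_s3

theorem t1085_A00pm_123_s3 : ∃ t, chk3 f_A00pm_123_s3 t 254 63 1 = true := ex3_b t1084_A00pm_123_s3 t1078_A00pm_123_s3

theorem t1086_A00pm_123_s3 : ∃ t, chk3 f_A00pm_123_s3 t 1019 125 1 = true := ex3_b k388_A00pm_123_s3 k389_A00pm_123_s3

theorem t1087_A00pm_123_s3 : ∃ t, chk3 f_A00pm_123_s3 t 509 125 1 = true := ex3_a k387_A00pm_123_s3 t1086_A00pm_123_s3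

theorem t1088_A00pm_123_s3 : ∃ t, chk3 f_A00pm_123_s3 t 254 125 1 = true := ex3_a k386_A00pm_123_s3 t1087_A00pm_123_s3

theorem t1089_A00pm_123_s3 : ∃ t, chk3 f_A00pm_123_s3 t 1019 124 1 = true := ex3_b k384_A00pm_123_s3 k385_A00pm_123_s3

theorem t1090_A00pm_123_s3 : ∃ t, chk3 f_A00pm_123_s3 t 509 124 1 = true := ex3_a k383_A00pm_123_s3 t1089_A00pm_123_s3

theorem t1091_A00pm_123_s3 : ∃ t, chk3 f_A00pm_123_s3 t 254 124 1 = true := ex3_a k382_A00pm_123_s3 t1090_A00pm_123_s3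

theorem t1092_A00pm_123_s3 : ∃ t, chk3 f_A00pm_123_s3 t 254 62 1 = true := ex3_b t1091_A00pm_123_s3 t1088_A00pm_123_s3

theorem t1093_A00pm_123_s3 : ∃ t, chk3 f_A00pm_123_s3 t 254 31 1 = true := ex3_b t1092_A00pm_123_s3 t1085_A00pm_123_s3

theorem t1094_A00pm_123_s3 : ∃ t, chk3 f_A00pm_123_s3 t 127 31 1 = true := ex3_a t1093_A00pm_123_s3 t1046_A00pm_123_s3

theorem t1095_A00pm_123_s3 : ∃ t, chk3 f_A00pm_123_s3 t 1015 255 1 = true := ex3_a k380_A00pm_123_s3 k381_A00pm_123_s3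

theorem t1096_A00pm_123_s3 : ∃ t, chk3 f_A00pm_123_s3 t 507 255 1 = true := ex3_a k379_A00pm_123_s3 t1095_A00pm_123_s3

theorem t1097_A00pm_123_s3 : ∃ t, chk3 f_A00pm_123_s3 t 507 127 1 = true := ex3_b k378_A00pm_123_s3 t1096_A00pm_123_s3

theorem t1098_A00pm_123_s3 : ∃ t, chk3 f_A00pm_123_s3 t 253 127 1 = true := ex3_a k377_A00pm_123_s3 t1097_A00pm_123_s3

theorem t1099_A00pm_123_s3 : ∃ t, chk3 f_A00pm_123_s3 t 253 63 1 = true := ex3_b k376_A00pm_123_s3 t1098_A00pm_123_s3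

theorem t1100_A00pm_123_s3 : ∃ t, chk3 f_A00pm_123_s3 t 126 63 1 = true := ex3_a k375_A00pm_123_s3 t1099_A00pm_123_s3

theorem t1101_A00pm_123_s3 : ∃ t, chk3 f_A00pm_123_s3 t 126 31 1 = true := ex3_b k374_A00pm_123_s3 t1100_A00pm_123_s3

theorem t1102_A00pm_123_s3 : ∃ t, chk3 f_A00pm_123_s3 t 63 31 1 = true := ex3_a t1101_A00pm_123_s3 t1094_A00pm_123_s3

theorem t1103_A00pm_123_s3 : ∃ t, chk3 f_A00pm_123_s3 t 31 31 1 = true := ex3_a k373_A00pm_123_s3 t1102_A00pm_123_s3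

theorem t1104_A00pm_123_s3 : ∃ t, chk3 f_A00pm_123_s3 t 1022 991 3 = true := ex3_a k370_A00pm_123_s3 k371_A00pm_123_s3

theorem t1105_A00pm_123_s3 : ∃ t, chk3 f_A00pm_123_s3 t 511 991 3 = true := ex3_a t1104_A00pm_123_s3 k372_A00pm_123_s3

theorem t1106_A00pm_123_s3 : ∃ t, chk3 f_A00pm_123_s3 t 511 495 3 = true := ex3_b k369_A00pm_123_s3 t1105_A00pm_123_s3

theorem t1107_A00pm_123_s3 : ∃ t, chk3 f_A00pm_123_s3 t 1022 494 3 = true := ex3_a k366_A00pm_123_s3 k367_A00pm_123_s3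

theorem t1108_A00pm_123_s3 : ∃ t, chk3 f_A00pm_123_s3 t 511 494 3 = true := ex3_a t1107_A00pm_123_s3 k368_A00pm_123_s3

theorem t1109_A00pm_123_s3 : ∃ t, chk3 f_A00pm_123_s3 t 511 247 3 = true := ex3_b t1108_A00pm_123_s3 t1106_A00pm_123_s3

theorem t1110_A00pm_123_s3 : ∃ t, chk3 f_A00pm_123_s3 t 1022 991 2 = true := ex3_a k363_A00pm_123_s3 k364_A00pm_123_s3

theorem t1111_A00pm_123_s3 : ∃ t, chk3 f_A00pm_123_s3 t 511 991 2 = true := ex3_a t1110_A00pm_123_s3 k365_A00pm_123_s3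

theorem t1112_A00pm_123_s3 : ∃ t, chk3 f_A00pm_123_s3 t 511 495 2 = true := ex3_b k362_A00pm_123_s3 t1111_A00pm_123_s3

theorem t1113_A00pm_123_s3 : ∃ t, chk3 f_A00pm_123_s3 t 2044 494 2 = true := ex3_a k358_A00pm_123_s3 k359_A00pm_123_s3

theorem t1114_A00pm_123_s3 : ∃ t, chk3 f_A00pm_123_s3 t 1022 494 2 = true := ex3_a t1113_A00pm_123_s3 k360_A00pm_123_s3

theorem t1115_A00pm_123_s3 : ∃ t, chk3 f_A00pm_123_s3 t 511 494 2 = true := ex3_a t1114_A00pm_123_s3 k361_A00pm_123_s3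

theorem t1116_A00pm_123_s3 : ∃ t, chk3 f_A00pm_123_s3 t 511 247 2 = true := ex3_b t1115_A00pm_123_s3 t1112_A00pm_123_s3

theorem t1117_A00pm_123_s3 : ∃ t, chk3 f_A00pm_123_s3 t 511 247 1 = true := ex3_c t1116_A00pm_123_s3 t1109_A00pm_123_s3

theorem t1118_A00pm_123_s3 : ∃ t, chk3 f_A00pm_123_s3 t 2044 246 1 = true := ex3_a k354_A00pm_123_s3 k355_A00pm_123_s3

theorem t1119_A00pm_123_s3 : ∃ t, chk3 f_A00pm_123_s3 t 1022 246 1 = true := ex3_a t1118_A00pm_123_s3 k356_A00pm_123_s3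

theorem t1120_A00pm_123_s3 : ∃ t, chk3 f_A00pm_123_s3 t 511 246 1 = true := ex3_a t1119_A00pm_123_s3 k357_A00pm_123_s3

theorem t1121_A00pm_123_s3 : ∃ t, chk3 f_A00pm_123_s3 t 511 123 1 = true := ex3_b t1120_A00pm_123_s3 t1117_A00pm_123_s3

theorem t1122_A00pm_123_s3 : ∃ t, chk3 f_A00pm_123_s3 t 511 61 1 = true := ex3_b k353_A00pm_123_s3 t1121_A00pm_123_s3

theorem t1123_A00pm_123_s3 : ∃ t, chk3 f_A00pm_123_s3 t 511 30 1 = true := ex3_b k352_A00pm_123_s3 t1122_A00pm_123_s3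

theorem t1124_A00pm_123_s3 : ∃ t, chk3 f_A00pm_123_s3 t 2043 247 1 = true := ex3_b k350_A00pm_123_s3 k351_A00pm_123_s3

theorem t1125_A00pm_123_s3 : ∃ t, chk3 f_A00pm_123_s3 t 4085 495 1 = true := ex3_c k348_A00pm_123_s3 k349_A00pm_123_s3

theorem t1126_A00pm_123_s3 : ∃ t, chk3 f_A00pm_123_s3 t 4085 247 1 = true := ex3_b k347_A00pm_123_s3 t1125_A00pm_123_s3

theorem t1127_A00pm_123_s3 : ∃ t, chk3 f_A00pm_123_s3 t 16339 3967 1 = true := ex3_a k345_A00pm_123_s3 k346_A00pm_123_s3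

theorem t1128_A00pm_123_s3 : ∃ t, chk3 f_A00pm_123_s3 t 32678 3966 1 = true := ex3_b k342_A00pm_123_s3 k343_A00pm_123_s3

theorem t1129_A00pm_123_s3 : ∃ t, chk3 f_A00pm_123_s3 t 16339 3966 1 = true := ex3_a t1128_A00pm_123_s3 k344_A00pm_123_s3

theorem t1130_A00pm_123_s3 : ∃ t, chk3 f_A00pm_123_s3 t 16339 1983 1 = true := ex3_b t1129_A00pm_123_s3 t1127_A00pm_123_s3

theorem t1131_A00pm_123_s3 : ∃ t, chk3 f_A00pm_123_s3 t 8169 1983 1 = true := ex3_a k341_A00pm_123_s3 t1130_A00pm_123_s3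

theorem t1132_A00pm_123_s3 : ∃ t, chk3 f_A00pm_123_s3 t 32677 3965 1 = true := ex3_b k338_A00pm_123_s3 k339_A00pm_123_s3

theorem t1133_A00pm_123_s3 : ∃ t, chk3 f_A00pm_123_s3 t 16338 3965 1 = true := ex3_a k337_A00pm_123_s3 t1132_A00pm_123_s3

theorem t1134_A00pm_123_s3 : ∃ t, chk3 f_A00pm_123_s3 t 8169 3965 1 = true := ex3_a t1133_A00pm_123_s3 k340_A00pm_123_s3

theorem t1135_A00pm_123_s3 : ∃ t, chk3 f_A00pm_123_s3 t 8169 1982 1 = true := ex3_b k336_A00pm_123_s3 t1134_A00pm_123_s3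

theorem t1136_A00pm_123_s3 : ∃ t, chk3 f_A00pm_123_s3 t 8169 991 1 = true := ex3_b t1135_A00pm_123_s3 t1131_A00pm_123_s3

theorem t1137_A00pm_123_s3 : ∃ t, chk3 f_A00pm_123_s3 t 32675 3964 1 = true := ex3_b k332_A00pm_123_s3 k333_A00pm_123_s3

theorem t1138_A00pm_123_s3 : ∃ t, chk3 f_A00pm_123_s3 t 16337 3964 1 = true := ex3_a k331_A00pm_123_s3 t1137_A00pm_123_s3

theorem t1139_A00pm_123_s3 : ∃ t, chk3 f_A00pm_123_s3 t 8168 3964 1 = true := ex3_a k330_A00pm_123_s3 t1138_A00pm_123_s3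

theorem t1140_A00pm_123_s3 : ∃ t, chk3 f_A00pm_123_s3 t 8168 1982 1 = true := ex3_b t1139_A00pm_123_s3 k334_A00pm_123_s3

theorem t1141_A00pm_123_s3 : ∃ t, chk3 f_A00pm_123_s3 t 8168 991 1 = true := ex3_b t1140_A00pm_123_s3 k335_A00pm_123_s3

theorem t1142_A00pm_123_s3 : ∃ t, chk3 f_A00pm_123_s3 t 4084 991 1 = true := ex3_a t1141_A00pm_123_s3 t1136_A00pm_123_s3

theorem t1143_A00pm_123_s3 : ∃ t, chk3 f_A00pm_123_s3 t 32674 3963 1 = true := ex3_b k326_A00pm_123_s3 k327_A00pm_123_s3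

theorem t1144_A00pm_123_s3 : ∃ t, chk3 f_A00pm_123_s3 t 32674 1981 1 = true := ex3_b k325_A00pm_123_s3 t1143_A00pm_123_s3

theorem t1145_A00pm_123_s3 : ∃ t, chk3 f_A00pm_123_s3 t 16337 1981 1 = true := ex3_a t1144_A00pm_123_s3 k328_A00pm_123_s3

theorem t1146_A00pm_123_s3 : ∃ t, chk3 f_A00pm_123_s3 t 32672 3962 1 = true := ex3_a k321_A00pm_123_s3 k322_A00pm_123_s3

theorem t1147_A00pm_123_s3 : ∃ t, chk3 f_A00pm_123_s3 t 16336 3962 1 = true := ex3_a t1146_A00pm_123_s3 k323_A00pm_123_s3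

theorem t1148_A00pm_123_s3 : ∃ t, chk3 f_A00pm_123_s3 t 16336 1981 1 = true := ex3_b t1147_A00pm_123_s3 k324_A00pm_123_s3

theorem t1149_A00pm_123_s3 : ∃ t, chk3 f_A00pm_123_s3 t 8168 1981 1 = true := ex3_a t1148_A00pm_123_s3 t1145_A00pm_123_s3

theorem t1150_A00pm_123_s3 : ∃ t, chk3 f_A00pm_123_s3 t 4084 1981 1 = true := ex3_a t1149_A00pm_123_s3 k329_A00pm_123_s3

theorem t1151_A00pm_123_s3 : ∃ t, chk3 f_A00pm_123_s3 t 4084 990 1 = true := ex3_b k320_A00pm_123_s3 t1150_A00pm_123_s3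

theorem t1152_A00pm_123_s3 : ∃ t, chk3 f_A00pm_123_s3 t 4084 495 1 = true := ex3_b t1151_A00pm_123_s3 t1142_A00pm_123_s3

theorem t1153_A00pm_123_s3 : ∃ t, chk3 f_A00pm_123_s3 t 4084 247 1 = true := ex3_b k319_A00pm_123_s3 t1152_A00pm_123_s3

theorem t1154_A00pm_123_s3 : ∃ t, chk3 f_A00pm_123_s3 t 2042 247 1 = true := ex3_a t1153_A00pm_123_s3 t1126_A00pm_123_s3

theorem t1155_A00pm_123_s3 : ∃ t, chk3 f_A00pm_123_s3 t 1021 247 1 = true := ex3_a t1154_A00pm_123_s3 t1124_A00pm_123_s3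

theorem t1156_A00pm_123_s3 : ∃ t, chk3 f_A00pm_123_s3 t 2043 246 1 = true := ex3_a k317_A00pm_123_s3 k318_A00pm_123_s3

theorem t1157_A00pm_123_s3 : ∃ t, chk3 f_A00pm_123_s3 t 1021 246 1 = true := ex3_a k316_A00pm_123_s3 t1156_A00pm_123_s3

theorem t1158_A00pm_123_s3 : ∃ t, chk3 f_A00pm_123_s3 t 1021 123 1 = true := ex3_b t1157_A00pm_123_s3 t1155_A00pm_123_s3

theorem t1159_A00pm_123_s3 : ∃ t, chk3 f_A00pm_123_s3 t 4086 245 1 = true := ex3_b k313_A00pm_123_s3 k314_A00pm_123_s3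

theorem t1160_A00pm_123_s3 : ∃ t, chk3 f_A00pm_123_s3 t 2043 245 1 = true := ex3_a t1159_A00pm_123_s3 k315_A00pm_123_s3

theorem t1161_A00pm_123_s3 : ∃ t, chk3 f_A00pm_123_s3 t 2043 122 1 = true := ex3_b k312_A00pm_123_s3 t1160_A00pm_123_s3

theorem t1162_A00pm_123_s3 : ∃ t, chk3 f_A00pm_123_s3 t 4085 244 1 = true := ex3_b k309_A00pm_123_s3 k310_A00pm_123_s3

theorem t1163_A00pm_123_s3 : ∃ t, chk3 f_A00pm_123_s3 t 2042 244 1 = true := ex3_a k308_A00pm_123_s3 t1162_A00pm_123_s3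

theorem t1164_A00pm_123_s3 : ∃ t, chk3 f_A00pm_123_s3 t 2042 122 1 = true := ex3_b t1163_A00pm_123_s3 k311_A00pm_123_s3

theorem t1165_A00pm_123_s3 : ∃ t, chk3 f_A00pm_123_s3 t 1021 122 1 = true := ex3_a t1164_A00pm_123_s3 t1161_A00pm_123_s3

theorem t1166_A00pm_123_s3 : ∃ t, chk3 f_A00pm_123_s3 t 1021 61 1 = true := ex3_b t1165_A00pm_123_s3 t1158_A00pm_123_s3

theorem t1167_A00pm_123_s3 : ∃ t, chk3 f_A00pm_123_s3 t 16335 3961 1 = true := ex3_c k304_A00pm_123_s3 k305_A00pm_123_s3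

theorem t1168_A00pm_123_s3 : ∃ t, chk3 f_A00pm_123_s3 t 32670 3960 1 = true := ex3_b k301_A00pm_123_s3 k302_A00pm_123_s3

theorem t1169_A00pm_123_s3 : ∃ t, chk3 f_A00pm_123_s3 t 16335 3960 1 = true := ex3_a t1168_A00pm_123_s3 k303_A00pm_123_s3

theorem t1170_A00pm_123_s3 : ∃ t, chk3 f_A00pm_123_s3 t 16335 1980 1 = true := ex3_b t1169_A00pm_123_s3 t1167_A00pm_123_s3

theorem t1171_A00pm_123_s3 : ∃ t, chk3 f_A00pm_123_s3 t 8167 1980 1 = true := ex3_a k300_A00pm_123_s3 t1170_A00pm_123_s3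

theorem t1172_A00pm_123_s3 : ∃ t, chk3 f_A00pm_123_s3 t 8167 990 1 = true := ex3_b t1171_A00pm_123_s3 k306_A00pm_123_s3

theorem t1173_A00pm_123_s3 : ∃ t, chk3 f_A00pm_123_s3 t 4083 990 1 = true := ex3_a k299_A00pm_123_s3 t1172_A00pm_123_s3

theorem t1174_A00pm_123_s3 : ∃ t, chk3 f_A00pm_123_s3 t 4083 495 1 = true := ex3_b t1173_A00pm_123_s3 k307_A00pm_123_s3

theorem t1175_A00pm_123_s3 : ∃ t, chk3 f_A00pm_123_s3 t 2041 495 1 = true := ex3_a k298_A00pm_123_s3 t1174_A00pm_123_s3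

theorem t1176_A00pm_123_s3 : ∃ t, chk3 f_A00pm_123_s3 t 32668 3959 1 = true := ex3_b k294_A00pm_123_s3 k295_A00pm_123_s3

theorem t1177_A00pm_123_s3 : ∃ t, chk3 f_A00pm_123_s3 t 32668 1979 1 = true := ex3_b k293_A00pm_123_s3 t1176_A00pm_123_s3

theorem t1178_A00pm_123_s3 : ∃ t, chk3 f_A00pm_123_s3 t 16334 1979 1 = true := ex3_a t1177_A00pm_123_s3 k296_A00pm_123_s3

theorem t1179_A00pm_123_s3 : ∃ t, chk3 f_A00pm_123_s3 t 8167 1979 1 = true := ex3_a t1178_A00pm_123_s3 k297_A00pm_123_s3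

theorem t1180_A00pm_123_s3 : ∃ t, chk3 f_A00pm_123_s3 t 8167 989 1 = true := ex3_b k292_A00pm_123_s3 t1179_A00pm_123_s3

theorem t1181_A00pm_123_s3 : ∃ t, chk3 f_A00pm_123_s3 t 8167 494 1 = true := ex3_b k291_A00pm_123_s3 t1180_A00pm_123_s3

theorem t1182_A00pm_123_s3 : ∃ t, chk3 f_A00pm_123_s3 t 32667 3958 1 = true := ex3_b k288_A00pm_123_s3 k289_A00pm_123_s3

theorem t1183_A00pm_123_s3 : ∃ t, chk3 f_A00pm_123_s3 t 16333 3958 1 = true := ex3_a k287_A00pm_123_s3 t1182_A00pm_123_s3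

theorem t1184_A00pm_123_s3 : ∃ t, chk3 f_A00pm_123_s3 t 16333 1979 1 = true := ex3_b t1183_A00pm_123_s3 k290_A00pm_123_s3

theorem t1185_A00pm_123_s3 : ∃ t, chk3 f_A00pm_123_s3 t 8166 1979 1 = true := ex3_a k286_A00pm_123_s3 t1184_A00pm_123_s3

theorem t1186_A00pm_123_s3 : ∃ t, chk3 f_A00pm_123_s3 t 32665 3957 1 = true := ex3_b k283_A00pm_123_s3 k284_A00pm_123_s3

theorem t1187_A00pm_123_s3 : ∃ t, chk3 f_A00pm_123_s3 t 16332 3957 1 = true := ex3_a k282_A00pm_123_s3 t1186_A00pm_123_s3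

theorem t1188_A00pm_123_s3 : ∃ t, chk3 f_A00pm_123_s3 t 32664 3956 1 = true := ex3_a k279_A00pm_123_s3 k280_A00pm_123_s3

theorem t1189_A00pm_123_s3 : ∃ t, chk3 f_A00pm_123_s3 t 16332 3956 1 = true := ex3_a t1188_A00pm_123_s3 k281_A00pm_123_s3

theorem t1190_A00pm_123_s3 : ∃ t, chk3 f_A00pm_123_s3 t 16332 1978 1 = true := ex3_b t1189_A00pm_123_s3 t1187_A00pm_123_s3

theorem t1191_A00pm_123_s3 : ∃ t, chk3 f_A00pm_123_s3 t 8166 1978 1 = true := ex3_a t1190_A00pm_123_s3 k285_A00pm_123_s3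

theorem t1192_A00pm_123_s3 : ∃ t, chk3 f_A00pm_123_s3 t 8166 989 1 = true := ex3_b t1191_A00pm_123_s3 t1185_A00pm_123_s3

theorem t1193_A00pm_123_s3 : ∃ t, chk3 f_A00pm_123_s3 t 8166 494 1 = true := ex3_b k278_A00pm_123_s3 t1192_A00pm_123_s3

theorem t1194_A00pm_123_s3 : ∃ t, chk3 f_A00pm_123_s3 t 4083 494 1 = true := ex3_a t1193_A00pm_123_s3 t1181_A00pm_123_s3

theorem t1195_A00pm_123_s3 : ∃ t, chk3 f_A00pm_123_s3 t 32662 3955 1 = true := ex3_b k274_A00pm_123_s3 k275_A00pm_123_s3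

theorem t1196_A00pm_123_s3 : ∃ t, chk3 f_A00pm_123_s3 t 16331 3955 1 = true := ex3_a t1195_A00pm_123_s3 k276_A00pm_123_s3

theorem t1197_A00pm_123_s3 : ∃ t, chk3 f_A00pm_123_s3 t 16331 1977 1 = true := ex3_b k273_A00pm_123_s3 t1196_A00pm_123_s3

theorem t1198_A00pm_123_s3 : ∃ t, chk3 f_A00pm_123_s3 t 16330 3954 1 = true := ex3_a k270_A00pm_123_s3 k271_A00pm_123_s3

theorem t1199_A00pm_123_s3 : ∃ t, chk3 f_A00pm_123_s3 t 16330 1977 1 = true := ex3_b t1198_A00pm_123_s3 k272_A00pm_123_s3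

theorem t1200_A00pm_123_s3 : ∃ t, chk3 f_A00pm_123_s3 t 8165 1977 1 = true := ex3_a t1199_A00pm_123_s3 t1197_A00pm_123_s3

theorem t1201_A00pm_123_s3 : ∃ t, chk3 f_A00pm_123_s3 t 8165 988 1 = true := ex3_b k269_A00pm_123_s3 t1200_A00pm_123_s3

theorem t1202_A00pm_123_s3 : ∃ t, chk3 f_A00pm_123_s3 t 16329 3953 1 = true := ex3_a k266_A00pm_123_s3 k267_A00pm_123_s3

theorem t1203_A00pm_123_s3 : ∃ t, chk3 f_A00pm_123_s3 t 16329 1976 1 = true := ex3_b k265_A00pm_123_s3 t1202_A00pm_123_s3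

theorem t1204_A00pm_123_s3 : ∃ t, chk3 f_A00pm_123_s3 t 8164 1976 1 = true := ex3_a k264_A00pm_123_s3 t1203_A00pm_123_s3

theorem t1205_A00pm_123_s3 : ∃ t, chk3 f_A00pm_123_s3 t 8164 988 1 = true := ex3_b t1204_A00pm_123_s3 k268_A00pm_123_s3

theorem t1206_A00pm_123_s3 : ∃ t, chk3 f_A00pm_123_s3 t 4082 988 1 = true := ex3_a t1205_A00pm_123_s3 t1201_A00pm_123_s3

theorem t1207_A00pm_123_s3 : ∃ t, chk3 f_A00pm_123_s3 t 4082 494 1 = true := ex3_b t1206_A00pm_123_s3 k277_A00pm_123_s3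

theorem t1208_A00pm_123_s3 : ∃ t, chk3 f_A00pm_123_s3 t 2041 494 1 = true := ex3_a t1207_A00pm_123_s3 t1194_A00pm_123_s3

theorem t1209_A00pm_123_s3 : ∃ t, chk3 f_A00pm_123_s3 t 2041 247 1 = true := ex3_b t1208_A00pm_123_s3 t1175_A00pm_123_s3

theorem t1210_A00pm_123_s3 : ∃ t, chk3 f_A00pm_123_s3 t 16328 3951 1 = true := ex3_a k259_A00pm_123_s3 k260_A00pm_123_s3

theorem t1211_A00pm_123_s3 : ∃ t, chk3 f_A00pm_123_s3 t 16328 1975 1 = true := ex3_b k258_A00pm_123_s3 t1210_A00pm_123_s3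

theorem t1212_A00pm_123_s3 : ∃ t, chk3 f_A00pm_123_s3 t 8164 1975 1 = true := ex3_a t1211_A00pm_123_s3 k261_A00pm_123_s3

theorem t1213_A00pm_123_s3 : ∃ t, chk3 f_A00pm_123_s3 t 8164 987 1 = true := ex3_b k257_A00pm_123_s3 t1212_A00pm_123_s3

theorem t1214_A00pm_123_s3 : ∃ t, chk3 f_A00pm_123_s3 t 8164 493 1 = true := ex3_b k256_A00pm_123_s3 t1213_A00pm_123_s3

theorem t1215_A00pm_123_s3 : ∃ t, chk3 f_A00pm_123_s3 t 4082 493 1 = true := ex3_a t1214_A00pm_123_s3 k262_A00pm_123_s3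

theorem t1216_A00pm_123_s3 : ∃ t, chk3 f_A00pm_123_s3 t 2041 493 1 = true := ex3_a t1215_A00pm_123_s3 k263_A00pm_123_s3

theorem t1217_A00pm_123_s3 : ∃ t, chk3 f_A00pm_123_s3 t 2041 246 1 = true := ex3_b k255_A00pm_123_s3 t1216_A00pm_123_s3

theorem t1218_A00pm_123_s3 : ∃ t, chk3 f_A00pm_123_s3 t 2041 123 1 = true := ex3_b t1217_A00pm_123_s3 t1209_A00pm_123_s3

theorem t1219_A00pm_123_s3 : ∃ t, chk3 f_A00pm_123_s3 t 16327 3950 1 = true := ex3_a k251_A00pm_123_s3 k252_A00pm_123_s3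

theorem t1220_A00pm_123_s3 : ∃ t, chk3 f_A00pm_123_s3 t 16327 1975 1 = true := ex3_b t1219_A00pm_123_s3 k253_A00pm_123_s3

theorem t1221_A00pm_123_s3 : ∃ t, chk3 f_A00pm_123_s3 t 8163 1975 1 = true := ex3_a k250_A00pm_123_s3 t1220_A00pm_123_s3

theorem t1222_A00pm_123_s3 : ∃ t, chk3 f_A00pm_123_s3 t 16326 1974 1 = true := ex3_b k247_A00pm_123_s3 k248_A00pm_123_s3

theorem t1223_A00pm_123_s3 : ∃ t, chk3 f_A00pm_123_s3 t 8163 1974 1 = true := ex3_a t1222_A00pm_123_s3 k249_A00pm_123_s3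

theorem t1224_A00pm_123_s3 : ∃ t, chk3 f_A00pm_123_s3 t 8163 987 1 = true := ex3_b t1223_A00pm_123_s3 t1221_A00pm_123_s3

theorem t1225_A00pm_123_s3 : ∃ t, chk3 f_A00pm_123_s3 t 4081 987 1 = true := ex3_a k246_A00pm_123_s3 t1224_A00pm_123_s3

theorem t1226_A00pm_123_s3 : ∃ t, chk3 f_A00pm_123_s3 t 16324 1973 1 = true := ex3_b k242_A00pm_123_s3 k243_A00pm_123_s3

theorem t1227_A00pm_123_s3 : ∃ t, chk3 f_A00pm_123_s3 t 8162 1973 1 = true := ex3_a t1226_A00pm_123_s3 k244_A00pm_123_s3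

theorem t1228_A00pm_123_s3 : ∃ t, chk3 f_A00pm_123_s3 t 4081 1973 1 = true := ex3_a t1227_A00pm_123_s3 k245_A00pm_123_s3

theorem t1229_A00pm_123_s3 : ∃ t, chk3 f_A00pm_123_s3 t 4081 986 1 = true := ex3_b k241_A00pm_123_s3 t1228_A00pm_123_s3

theorem t1230_A00pm_123_s3 : ∃ t, chk3 f_A00pm_123_s3 t 4081 493 1 = true := ex3_b t1229_A00pm_123_s3 t1225_A00pm_123_s3

theorem t1231_A00pm_123_s3 : ∃ t, chk3 f_A00pm_123_s3 t 16323 1972 1 = true := ex3_b k237_A00pm_123_s3 k238_A00pm_123_s3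

theorem t1232_A00pm_123_s3 : ∃ t, chk3 f_A00pm_123_s3 t 8161 1972 1 = true := ex3_a k236_A00pm_123_s3 t1231_A00pm_123_s3

theorem t1233_A00pm_123_s3 : ∃ t, chk3 f_A00pm_123_s3 t 8161 986 1 = true := ex3_b t1232_A00pm_123_s3 k239_A00pm_123_s3

theorem t1234_A00pm_123_s3 : ∃ t, chk3 f_A00pm_123_s3 t 4080 986 1 = true := ex3_a k235_A00pm_123_s3 t1233_A00pm_123_s3

theorem t1235_A00pm_123_s3 : ∃ t, chk3 f_A00pm_123_s3 t 4080 493 1 = true := ex3_b t1234_A00pm_123_s3 k240_A00pm_123_s3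

theorem t1236_A00pm_123_s3 : ∃ t, chk3 f_A00pm_123_s3 t 2040 493 1 = true := ex3_a t1235_A00pm_123_s3 t1230_A00pm_123_s3

theorem t1237_A00pm_123_s3 : ∃ t, chk3 f_A00pm_123_s3 t 8160 1971 1 = true := ex3_a k231_A00pm_123_s3 k232_A00pm_123_s3

theorem t1238_A00pm_123_s3 : ∃ t, chk3 f_A00pm_123_s3 t 8160 985 1 = true := ex3_b k230_A00pm_123_s3 t1237_A00pm_123_s3

theorem t1239_A00pm_123_s3 : ∃ t, chk3 f_A00pm_123_s3 t 8160 492 1 = true := ex3_b k229_A00pm_123_s3 t1238_A00pm_123_s3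

theorem t1240_A00pm_123_s3 : ∃ t, chk3 f_A00pm_123_s3 t 4080 492 1 = true := ex3_a t1239_A00pm_123_s3 k233_A00pm_123_s3

theorem t1241_A00pm_123_s3 : ∃ t, chk3 f_A00pm_123_s3 t 2040 492 1 = true := ex3_a t1240_A00pm_123_s3 k234_A00pm_123_s3

theorem t1242_A00pm_123_s3 : ∃ t, chk3 f_A00pm_123_s3 t 2040 246 1 = true := ex3_b t1241_A00pm_123_s3 t1236_A00pm_123_s3

theorem t1243_A00pm_123_s3 : ∃ t, chk3 f_A00pm_123_s3 t 2040 123 1 = true := ex3_b t1242_A00pm_123_s3 k254_A00pm_123_s3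

theorem t1244_A00pm_123_s3 : ∃ t, chk3 f_A00pm_123_s3 t 1020 123 1 = true := ex3_a t1243_A00pm_123_s3 t1218_A00pm_123_s3

theorem t1245_A00pm_123_s3 : ∃ t, chk3 f_A00pm_123_s3 t 1020 122 1 = true := ex3_a k227_A00pm_123_s3 k228_A00pm_123_s3

theorem t1246_A00pm_123_s3 : ∃ t, chk3 f_A00pm_123_s3 t 1020 61 1 = true := ex3_b t1245_A00pm_123_s3 t1244_A00pm_123_s3

theorem t1247_A00pm_123_s3 : ∃ t, chk3 f_A00pm_123_s3 t 510 61 1 = true := ex3_a t1246_A00pm_123_s3 t1166_A00pm_123_s3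

theorem t1248_A00pm_123_s3 : ∃ t, chk3 f_A00pm_123_s3 t 2041 121 1 = true := ex3_b k224_A00pm_123_s3 k225_A00pm_123_s3

theorem t1249_A00pm_123_s3 : ∃ t, chk3 f_A00pm_123_s3 t 1020 121 1 = true := ex3_a k223_A00pm_123_s3 t1248_A00pm_123_s3

theorem t1250_A00pm_123_s3 : ∃ t, chk3 f_A00pm_123_s3 t 1020 60 1 = true := ex3_b k222_A00pm_123_s3 t1249_A00pm_123_s3

theorem t1251_A00pm_123_s3 : ∃ t, chk3 f_A00pm_123_s3 t 510 60 1 = true := ex3_a t1250_A00pm_123_s3 k226_A00pm_123_s3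

theorem t1252_A00pm_123_s3 : ∃ t, chk3 f_A00pm_123_s3 t 510 30 1 = true := ex3_b t1251_A00pm_123_s3 t1247_A00pm_123_s3

theorem t1253_A00pm_123_s3 : ∃ t, chk3 f_A00pm_123_s3 t 255 30 1 = true := ex3_a t1252_A00pm_123_s3 t1123_A00pm_123_s3

theorem t1254_A00pm_123_s3 : ∃ t, chk3 f_A00pm_123_s3 t 8159 1969 1 = true := ex3_a k217_A00pm_123_s3 k218_A00pm_123_s3

theorem t1255_A00pm_123_s3 : ∃ t, chk3 f_A00pm_123_s3 t 8159 984 1 = true := ex3_b k216_A00pm_123_s3 t1254_A00pm_123_s3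

theorem t1256_A00pm_123_s3 : ∃ t, chk3 f_A00pm_123_s3 t 8158 1968 1 = true := ex3_a k213_A00pm_123_s3 k214_A00pm_123_s3

theorem t1257_A00pm_123_s3 : ∃ t, chk3 f_A00pm_123_s3 t 8158 984 1 = true := ex3_b t1256_A00pm_123_s3 k215_A00pm_123_s3

theorem t1258_A00pm_123_s3 : ∃ t, chk3 f_A00pm_123_s3 t 4079 984 1 = true := ex3_a t1257_A00pm_123_s3 t1255_A00pm_123_s3

theorem t1259_A00pm_123_s3 : ∃ t, chk3 f_A00pm_123_s3 t 4079 492 1 = true := ex3_b t1258_A00pm_123_s3 k219_A00pm_123_s3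

theorem t1260_A00pm_123_s3 : ∃ t, chk3 f_A00pm_123_s3 t 2039 492 1 = true := ex3_a k212_A00pm_123_s3 t1259_A00pm_123_s3

theorem t1261_A00pm_123_s3 : ∃ t, chk3 f_A00pm_123_s3 t 2039 246 1 = true := ex3_b t1260_A00pm_123_s3 k220_A00pm_123_s3

theorem t1262_A00pm_123_s3 : ∃ t, chk3 f_A00pm_123_s3 t 1019 246 1 = true := ex3_a k211_A00pm_123_s3 t1261_A00pm_123_s3

theorem t1263_A00pm_123_s3 : ∃ t, chk3 f_A00pm_123_s3 t 1019 123 1 = true := ex3_b t1262_A00pm_123_s3 k221_A00pm_123_s3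

theorem t1264_A00pm_123_s3 : ∃ t, chk3 f_A00pm_123_s3 t 509 123 1 = true := ex3_a k210_A00pm_123_s3 t1263_A00pm_123_s3

theorem t1265_A00pm_123_s3 : ∃ t, chk3 f_A00pm_123_s3 t 8157 1967 1 = true := ex3_a k207_A00pm_123_s3 k208_A00pm_123_s3

theorem t1266_A00pm_123_s3 : ∃ t, chk3 f_A00pm_123_s3 t 8157 983 1 = true := ex3_b k206_A00pm_123_s3 t1265_A00pm_123_s3

theorem t1267_A00pm_123_s3 : ∃ t, chk3 f_A00pm_123_s3 t 8156 1966 1 = true := ex3_a k203_A00pm_123_s3 k204_A00pm_123_s3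

theorem t1268_A00pm_123_s3 : ∃ t, chk3 f_A00pm_123_s3 t 8156 983 1 = true := ex3_b t1267_A00pm_123_s3 k205_A00pm_123_s3

theorem t1269_A00pm_123_s3 : ∃ t, chk3 f_A00pm_123_s3 t 4078 983 1 = true := ex3_a t1268_A00pm_123_s3 t1266_A00pm_123_s3

theorem t1270_A00pm_123_s3 : ∃ t, chk3 f_A00pm_123_s3 t 2039 983 1 = true := ex3_a t1269_A00pm_123_s3 k209_A00pm_123_s3

theorem t1271_A00pm_123_s3 : ∃ t, chk3 f_A00pm_123_s3 t 2039 491 1 = true := ex3_b k202_A00pm_123_s3 t1270_A00pm_123_s3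

theorem t1272_A00pm_123_s3 : ∃ t, chk3 f_A00pm_123_s3 t 2039 245 1 = true := ex3_b k201_A00pm_123_s3 t1271_A00pm_123_s3

theorem t1273_A00pm_123_s3 : ∃ t, chk3 f_A00pm_123_s3 t 2039 122 1 = true := ex3_b k200_A00pm_123_s3 t1272_A00pm_123_s3

theorem t1274_A00pm_123_s3 : ∃ t, chk3 f_A00pm_123_s3 t 8155 1965 1 = true := ex3_a k197_A00pm_123_s3 k198_A00pm_123_s3

theorem t1275_A00pm_123_s3 : ∃ t, chk3 f_A00pm_123_s3 t 8155 982 1 = true := ex3_b k196_A00pm_123_s3 t1274_A00pm_123_s3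

theorem t1276_A00pm_123_s3 : ∃ t, chk3 f_A00pm_123_s3 t 8154 1964 1 = true := ex3_a k193_A00pm_123_s3 k194_A00pm_123_s3

theorem t1277_A00pm_123_s3 : ∃ t, chk3 f_A00pm_123_s3 t 8154 982 1 = true := ex3_b t1276_A00pm_123_s3 k195_A00pm_123_s3

theorem t1278_A00pm_123_s3 : ∃ t, chk3 f_A00pm_123_s3 t 4077 982 1 = true := ex3_a t1277_A00pm_123_s3 t1275_A00pm_123_s3

theorem t1279_A00pm_123_s3 : ∃ t, chk3 f_A00pm_123_s3 t 4077 491 1 = true := ex3_b t1278_A00pm_123_s3 k199_A00pm_123_s3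

theorem t1280_A00pm_123_s3 : ∃ t, chk3 f_A00pm_123_s3 t 2038 491 1 = true := ex3_a k192_A00pm_123_s3 t1279_A00pm_123_s3

theorem t1281_A00pm_123_s3 : ∃ t, chk3 f_A00pm_123_s3 t 8153 3926 1 = true := ex3_b k188_A00pm_123_s3 k189_A00pm_123_s3

theorem t1282_A00pm_123_s3 : ∃ t, chk3 f_A00pm_123_s3 t 8153 1963 1 = true := ex3_b t1281_A00pm_123_s3 k190_A00pm_123_s3

theorem t1283_A00pm_123_s3 : ∃ t, chk3 f_A00pm_123_s3 t 8153 1962 1 = true := ex3_a k186_A00pm_123_s3 k187_A00pm_123_s3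

theorem t1284_A00pm_123_s3 : ∃ t, chk3 f_A00pm_123_s3 t 8153 981 1 = true := ex3_b t1283_A00pm_123_s3 t1282_A00pm_123_s3

theorem t1285_A00pm_123_s3 : ∃ t, chk3 f_A00pm_123_s3 t 4076 981 1 = true := ex3_a k185_A00pm_123_s3 t1284_A00pm_123_s3

theorem t1286_A00pm_123_s3 : ∃ t, chk3 f_A00pm_123_s3 t 4076 490 1 = true := ex3_b k184_A00pm_123_s3 t1285_A00pm_123_s3

theorem t1287_A00pm_123_s3 : ∃ t, chk3 f_A00pm_123_s3 t 2038 490 1 = true := ex3_a t1286_A00pm_123_s3 k191_A00pm_123_s3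

theorem t1288_A00pm_123_s3 : ∃ t, chk3 f_A00pm_123_s3 t 2038 245 1 = true := ex3_b t1287_A00pm_123_s3 t1280_A00pm_123_s3

theorem t1289_A00pm_123_s3 : ∃ t, chk3 f_A00pm_123_s3 t 2038 122 1 = true := ex3_b k183_A00pm_123_s3 t1288_A00pm_123_s3

theorem t1290_A00pm_123_s3 : ∃ t, chk3 f_A00pm_123_s3 t 1019 122 1 = true := ex3_a t1289_A00pm_123_s3 t1273_A00pm_123_s3

theorem t1291_A00pm_123_s3 : ∃ t, chk3 f_A00pm_123_s3 t 8151 980 1 = true := ex3_a k179_A00pm_123_s3 k180_A00pm_123_s3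

theorem t1292_A00pm_123_s3 : ∃ t, chk3 f_A00pm_123_s3 t 4075 980 1 = true := ex3_a k178_A00pm_123_s3 t1291_A00pm_123_s3

theorem t1293_A00pm_123_s3 : ∃ t, chk3 f_A00pm_123_s3 t 2037 980 1 = true := ex3_a k177_A00pm_123_s3 t1292_A00pm_123_s3

theorem t1294_A00pm_123_s3 : ∃ t, chk3 f_A00pm_123_s3 t 2037 490 1 = true := ex3_b t1293_A00pm_123_s3 k181_A00pm_123_s3

theorem t1295_A00pm_123_s3 : ∃ t, chk3 f_A00pm_123_s3 t 1018 490 1 = true := ex3_a k176_A00pm_123_s3 t1294_A00pm_123_s3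

theorem t1296_A00pm_123_s3 : ∃ t, chk3 f_A00pm_123_s3 t 1018 245 1 = true := ex3_b t1295_A00pm_123_s3 k182_A00pm_123_s3

theorem t1297_A00pm_123_s3 : ∃ t, chk3 f_A00pm_123_s3 t 4074 489 1 = true := ex3_b k173_A00pm_123_s3 k174_A00pm_123_s3

theorem t1298_A00pm_123_s3 : ∃ t, chk3 f_A00pm_123_s3 t 2037 489 1 = true := ex3_a t1297_A00pm_123_s3 k175_A00pm_123_s3

theorem t1299_A00pm_123_s3 : ∃ t, chk3 f_A00pm_123_s3 t 2037 244 1 = true := ex3_b k172_A00pm_123_s3 t1298_A00pm_123_s3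

theorem t1300_A00pm_123_s3 : ∃ t, chk3 f_A00pm_123_s3 t 2036 488 1 = true := ex3_a k169_A00pm_123_s3 k170_A00pm_123_s3

theorem t1301_A00pm_123_s3 : ∃ t, chk3 f_A00pm_123_s3 t 2036 244 1 = true := ex3_b t1300_A00pm_123_s3 k171_A00pm_123_s3

theorem t1302_A00pm_123_s3 : ∃ t, chk3 f_A00pm_123_s3 t 1018 244 1 = true := ex3_a t1301_A00pm_123_s3 t1299_A00pm_123_s3

theorem t1303_A00pm_123_s3 : ∃ t, chk3 f_A00pm_123_s3 t 1018 122 1 = true := ex3_b t1302_A00pm_123_s3 t1296_A00pm_123_s3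

theorem t1304_A00pm_123_s3 : ∃ t, chk3 f_A00pm_123_s3 t 509 122 1 = true := ex3_a t1303_A00pm_123_s3 t1290_A00pm_123_s3

theorem t1305_A00pm_123_s3 : ∃ t, chk3 f_A00pm_123_s3 t 509 61 1 = true := ex3_b t1304_A00pm_123_s3 t1264_A00pm_123_s3

theorem t1306_A00pm_123_s3 : ∃ t, chk3 f_A00pm_123_s3 t 508 61 1 = true := ex3_b k167_A00pm_123_s3 k168_A00pm_123_s3

theorem t1307_A00pm_123_s3 : ∃ t, chk3 f_A00pm_123_s3 t 254 61 1 = true := ex3_a t1306_A00pm_123_s3 t1305_A00pm_123_s3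

theorem t1308_A00pm_123_s3 : ∃ t, chk3 f_A00pm_123_s3 t 509 121 1 = true := ex3_a k165_A00pm_123_s3 k166_A00pm_123_s3

theorem t1309_A00pm_123_s3 : ∃ t, chk3 f_A00pm_123_s3 t 2038 240 1 = true := ex3_b k161_A00pm_123_s3 k162_A00pm_123_s3

theorem t1310_A00pm_123_s3 : ∃ t, chk3 f_A00pm_123_s3 t 1019 240 1 = true := ex3_a t1309_A00pm_123_s3 k163_A00pm_123_s3

theorem t1311_A00pm_123_s3 : ∃ t, chk3 f_A00pm_123_s3 t 1019 120 1 = true := ex3_b t1310_A00pm_123_s3 k164_A00pm_123_s3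

theorem t1312_A00pm_123_s3 : ∃ t, chk3 f_A00pm_123_s3 t 1018 120 1 = true := ex3_b k159_A00pm_123_s3 k160_A00pm_123_s3

theorem t1313_A00pm_123_s3 : ∃ t, chk3 f_A00pm_123_s3 t 509 120 1 = true := ex3_a t1312_A00pm_123_s3 t1311_A00pm_123_s3

theorem t1314_A00pm_123_s3 : ∃ t, chk3 f_A00pm_123_s3 t 509 60 1 = true := ex3_b t1313_A00pm_123_s3 t1308_A00pm_123_s3

theorem t1315_A00pm_123_s3 : ∃ t, chk3 f_A00pm_123_s3 t 2035 487 1 = true := ex3_a k157_A00pm_123_s3 k158_A00pm_123_s3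

theorem t1316_A00pm_123_s3 : ∃ t, chk3 f_A00pm_123_s3 t 2035 243 1 = true := ex3_b k156_A00pm_123_s3 t1315_A00pm_123_s3

theorem t1317_A00pm_123_s3 : ∃ t, chk3 f_A00pm_123_s3 t 2035 121 1 = true := ex3_b k155_A00pm_123_s3 t1316_A00pm_123_s3

theorem t1318_A00pm_123_s3 : ∃ t, chk3 f_A00pm_123_s3 t 2034 121 1 = true := ex3_a k153_A00pm_123_s3 k154_A00pm_123_s3

theorem t1319_A00pm_123_s3 : ∃ t, chk3 f_A00pm_123_s3 t 1017 121 1 = true := ex3_a t1318_A00pm_123_s3 t1317_A00pm_123_s3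

theorem t1320_A00pm_123_s3 : ∃ t, chk3 f_A00pm_123_s3 t 1017 60 1 = true := ex3_b k152_A00pm_123_s3 t1319_A00pm_123_s3

theorem t1321_A00pm_123_s3 : ∃ t, chk3 f_A00pm_123_s3 t 2032 242 1 = true := ex3_b k148_A00pm_123_s3 k149_A00pm_123_s3

theorem t1322_A00pm_123_s3 : ∃ t, chk3 f_A00pm_123_s3 t 1016 242 1 = true := ex3_a t1321_A00pm_123_s3 k150_A00pm_123_s3

theorem t1323_A00pm_123_s3 : ∃ t, chk3 f_A00pm_123_s3 t 1016 121 1 = true := ex3_b t1322_A00pm_123_s3 k151_A00pm_123_s3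

theorem t1324_A00pm_123_s3 : ∃ t, chk3 f_A00pm_123_s3 t 1016 60 1 = true := ex3_b k147_A00pm_123_s3 t1323_A00pm_123_s3

theorem t1325_A00pm_123_s3 : ∃ t, chk3 f_A00pm_123_s3 t 508 60 1 = true := ex3_a t1324_A00pm_123_s3 t1320_A00pm_123_s3

theorem t1326_A00pm_123_s3 : ∃ t, chk3 f_A00pm_123_s3 t 254 60 1 = true := ex3_a t1325_A00pm_123_s3 t1314_A00pm_123_s3

theorem t1327_A00pm_123_s3 : ∃ t, chk3 f_A00pm_123_s3 t 254 30 1 = true := ex3_b t1326_A00pm_123_s3 t1307_A00pm_123_s3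

theorem t1328_A00pm_123_s3 : ∃ t, chk3 f_A00pm_123_s3 t 127 30 1 = true := ex3_a t1327_A00pm_123_s3 t1253_A00pm_123_s3

theorem t1329_A00pm_123_s3 : ∃ t, chk3 f_A00pm_123_s3 t 2031 484 1 = true := ex3_b k142_A00pm_123_s3 k143_A00pm_123_s3

theorem t1330_A00pm_123_s3 : ∃ t, chk3 f_A00pm_123_s3 t 1015 484 1 = true := ex3_a k141_A00pm_123_s3 t1329_A00pm_123_s3

theorem t1331_A00pm_123_s3 : ∃ t, chk3 f_A00pm_123_s3 t 1015 242 1 = true := ex3_b t1330_A00pm_123_s3 k144_A00pm_123_s3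

theorem t1332_A00pm_123_s3 : ∃ t, chk3 f_A00pm_123_s3 t 507 242 1 = true := ex3_a k140_A00pm_123_s3 t1331_A00pm_123_s3

theorem t1333_A00pm_123_s3 : ∃ t, chk3 f_A00pm_123_s3 t 507 121 1 = true := ex3_b t1332_A00pm_123_s3 k145_A00pm_123_s3

theorem t1334_A00pm_123_s3 : ∃ t, chk3 f_A00pm_123_s3 t 2030 966 1 = true := ex3_a k136_A00pm_123_s3 k137_A00pm_123_s3

theorem t1335_A00pm_123_s3 : ∃ t, chk3 f_A00pm_123_s3 t 2030 483 1 = true := ex3_b t1334_A00pm_123_s3 k138_A00pm_123_s3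

theorem t1336_A00pm_123_s3 : ∃ t, chk3 f_A00pm_123_s3 t 1015 483 1 = true := ex3_a t1335_A00pm_123_s3 k139_A00pm_123_s3

theorem t1337_A00pm_123_s3 : ∃ t, chk3 f_A00pm_123_s3 t 1015 241 1 = true := ex3_b k135_A00pm_123_s3 t1336_A00pm_123_s3

theorem t1338_A00pm_123_s3 : ∃ t, chk3 f_A00pm_123_s3 t 4059 965 1 = true := ex3_b k132_A00pm_123_s3 k133_A00pm_123_s3

theorem t1339_A00pm_123_s3 : ∃ t, chk3 f_A00pm_123_s3 t 2029 965 1 = true := ex3_a k131_A00pm_123_s3 t1338_A00pm_123_s3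

theorem t1340_A00pm_123_s3 : ∃ t, chk3 f_A00pm_123_s3 t 2029 482 1 = true := ex3_b k130_A00pm_123_s3 t1339_A00pm_123_s3

theorem t1341_A00pm_123_s3 : ∃ t, chk3 f_A00pm_123_s3 t 1014 482 1 = true := ex3_a k129_A00pm_123_s3 t1340_A00pm_123_s3

theorem t1342_A00pm_123_s3 : ∃ t, chk3 f_A00pm_123_s3 t 1014 241 1 = true := ex3_b t1341_A00pm_123_s3 k134_A00pm_123_s3

theorem t1343_A00pm_123_s3 : ∃ t, chk3 f_A00pm_123_s3 t 507 241 1 = true := ex3_a t1342_A00pm_123_s3 t1337_A00pm_123_s3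

theorem t1344_A00pm_123_s3 : ∃ t, chk3 f_A00pm_123_s3 t 2028 481 1 = true := ex3_a k125_A00pm_123_s3 k126_A00pm_123_s3

theorem t1345_A00pm_123_s3 : ∃ t, chk3 f_A00pm_123_s3 t 2028 240 1 = true := ex3_b k124_A00pm_123_s3 t1344_A00pm_123_s3

theorem t1346_A00pm_123_s3 : ∃ t, chk3 f_A00pm_123_s3 t 1014 240 1 = true := ex3_a t1345_A00pm_123_s3 k127_A00pm_123_s3

theorem t1347_A00pm_123_s3 : ∃ t, chk3 f_A00pm_123_s3 t 507 240 1 = true := ex3_a t1346_A00pm_123_s3 k128_A00pm_123_s3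

theorem t1348_A00pm_123_s3 : ∃ t, chk3 f_A00pm_123_s3 t 507 120 1 = true := ex3_b t1347_A00pm_123_s3 t1343_A00pm_123_s3

theorem t1349_A00pm_123_s3 : ∃ t, chk3 f_A00pm_123_s3 t 507 60 1 = true := ex3_b t1348_A00pm_123_s3 t1333_A00pm_123_s3

theorem t1350_A00pm_123_s3 : ∃ t, chk3 f_A00pm_123_s3 t 1013 480 1 = true := ex3_b k119_A00pm_123_s3 k120_A00pm_123_s3

theorem t1351_A00pm_123_s3 : ∃ t, chk3 f_A00pm_123_s3 t 1013 240 1 = true := ex3_b t1350_A00pm_123_s3 k121_A00pm_123_s3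

theorem t1352_A00pm_123_s3 : ∃ t, chk3 f_A00pm_123_s3 t 506 240 1 = true := ex3_a k118_A00pm_123_s3 t1351_A00pm_123_s3

theorem t1353_A00pm_123_s3 : ∃ t, chk3 f_A00pm_123_s3 t 506 120 1 = true := ex3_b t1352_A00pm_123_s3 k122_A00pm_123_s3

theorem t1354_A00pm_123_s3 : ∃ t, chk3 f_A00pm_123_s3 t 506 60 1 = true := ex3_b t1353_A00pm_123_s3 k123_A00pm_123_s3

theorem t1355_A00pm_123_s3 : ∃ t, chk3 f_A00pm_123_s3 t 253 60 1 = true := ex3_a t1354_A00pm_123_s3 t1349_A00pm_123_s3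

theorem t1356_A00pm_123_s3 : ∃ t, chk3 f_A00pm_123_s3 t 253 30 1 = true := ex3_b t1355_A00pm_123_s3 k146_A00pm_123_s3

theorem t1357_A00pm_123_s3 : ∃ t, chk3 f_A00pm_123_s3 t 126 30 1 = true := ex3_a k117_A00pm_123_s3 t1356_A00pm_123_s3

theorem t1358_A00pm_123_s3 : ∃ t, chk3 f_A00pm_123_s3 t 63 30 1 = true := ex3_a t1357_A00pm_123_s3 t1328_A00pm_123_s3

theorem t1359_A00pm_123_s3 : ∃ t, chk3 f_A00pm_123_s3 t 31 30 1 = true := ex3_a k116_A00pm_123_s3 t1358_A00pm_123_s3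

theorem t1360_A00pm_123_s3 : ∃ t, chk3 f_A00pm_123_s3 t 31 15 1 = true := ex3_b t1359_A00pm_123_s3 t1103_A00pm_123_s3

theorem t1361_A00pm_123_s3 : ∃ t, chk3 f_A00pm_123_s3 t 15 15 1 = true := ex3_a k115_A00pm_123_s3 t1360_A00pm_123_s3

theorem t1362_A00pm_123_s3 : ∃ t, chk3 f_A00pm_123_s3 t 509 59 1 = true := ex3_b k112_A00pm_123_s3 k113_A00pm_123_s3

theorem t1363_A00pm_123_s3 : ∃ t, chk3 f_A00pm_123_s3 t 4070 476 1 = true := ex3_b k107_A00pm_123_s3 k108_A00pm_123_s3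

theorem t1364_A00pm_123_s3 : ∃ t, chk3 f_A00pm_123_s3 t 2035 476 1 = true := ex3_a t1363_A00pm_123_s3 k109_A00pm_123_s3

theorem t1365_A00pm_123_s3 : ∃ t, chk3 f_A00pm_123_s3 t 2035 238 1 = true := ex3_b t1364_A00pm_123_s3 k110_A00pm_123_s3

theorem t1366_A00pm_123_s3 : ∃ t, chk3 f_A00pm_123_s3 t 1017 238 1 = true := ex3_a k106_A00pm_123_s3 t1365_A00pm_123_s3

theorem t1367_A00pm_123_s3 : ∃ t, chk3 f_A00pm_123_s3 t 1017 119 1 = true := ex3_b t1366_A00pm_123_s3 k111_A00pm_123_s3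

theorem t1368_A00pm_123_s3 : ∃ t, chk3 f_A00pm_123_s3 t 508 119 1 = true := ex3_a k105_A00pm_123_s3 t1367_A00pm_123_s3

theorem t1369_A00pm_123_s3 : ∃ t, chk3 f_A00pm_123_s3 t 2034 237 1 = true := ex3_b k102_A00pm_123_s3 k103_A00pm_123_s3

theorem t1370_A00pm_123_s3 : ∃ t, chk3 f_A00pm_123_s3 t 1017 237 1 = true := ex3_a t1369_A00pm_123_s3 k104_A00pm_123_s3

theorem t1371_A00pm_123_s3 : ∃ t, chk3 f_A00pm_123_s3 t 1017 118 1 = true := ex3_b k101_A00pm_123_s3 t1370_A00pm_123_s3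

theorem t1372_A00pm_123_s3 : ∃ t, chk3 f_A00pm_123_s3 t 1016 237 1 = true := ex3_a k99_A00pm_123_s3 k100_A00pm_123_s3

theorem t1373_A00pm_123_s3 : ∃ t, chk3 f_A00pm_123_s3 t 4066 473 1 = true := ex3_b k96_A00pm_123_s3 k97_A00pm_123_s3

theorem t1374_A00pm_123_s3 : ∃ t, chk3 f_A00pm_123_s3 t 2033 473 1 = true := ex3_a t1373_A00pm_123_s3 k98_A00pm_123_s3

theorem t1375_A00pm_123_s3 : ∃ t, chk3 f_A00pm_123_s3 t 2033 236 1 = true := ex3_b k95_A00pm_123_s3 t1374_A00pm_123_s3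

theorem t1376_A00pm_123_s3 : ∃ t, chk3 f_A00pm_123_s3 t 2032 236 1 = true := ex3_b k93_A00pm_123_s3 k94_A00pm_123_s3

theorem t1377_A00pm_123_s3 : ∃ t, chk3 f_A00pm_123_s3 t 1016 236 1 = true := ex3_a t1376_A00pm_123_s3 t1375_A00pm_123_s3

theorem t1378_A00pm_123_s3 : ∃ t, chk3 f_A00pm_123_s3 t 1016 118 1 = true := ex3_b t1377_A00pm_123_s3 t1372_A00pm_123_s3

theorem t1379_A00pm_123_s3 : ∃ t, chk3 f_A00pm_123_s3 t 508 118 1 = true := ex3_a t1378_A00pm_123_s3 t1371_A00pm_123_s3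

theorem t1380_A00pm_123_s3 : ∃ t, chk3 f_A00pm_123_s3 t 508 59 1 = true := ex3_b t1379_A00pm_123_s3 t1368_A00pm_123_s3

theorem t1381_A00pm_123_s3 : ∃ t, chk3 f_A00pm_123_s3 t 254 59 1 = true := ex3_a t1380_A00pm_123_s3 t1362_A00pm_123_s3

theorem t1382_A00pm_123_s3 : ∃ t, chk3 f_A00pm_123_s3 t 254 29 1 = true := ex3_b k92_A00pm_123_s3 t1381_A00pm_123_s3

theorem t1383_A00pm_123_s3 : ∃ t, chk3 f_A00pm_123_s3 t 127 29 1 = true := ex3_a t1382_A00pm_123_s3 k114_A00pm_123_s3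

theorem t1384_A00pm_123_s3 : ∃ t, chk3 f_A00pm_123_s3 t 507 119 1 = true := ex3_a k90_A00pm_123_s3 k91_A00pm_123_s3

theorem t1385_A00pm_123_s3 : ∃ t, chk3 f_A00pm_123_s3 t 2025 479 1 = true := ex3_b k87_A00pm_123_s3 k88_A00pm_123_s3

theorem t1386_A00pm_123_s3 : ∃ t, chk3 f_A00pm_123_s3 t 1012 479 1 = true := ex3_a k86_A00pm_123_s3 t1385_A00pm_123_s3

theorem t1387_A00pm_123_s3 : ∃ t, chk3 f_A00pm_123_s3 t 1012 957 1 = true := ex3_b k84_A00pm_123_s3 k85_A00pm_123_s3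

theorem t1388_A00pm_123_s3 : ∃ t, chk3 f_A00pm_123_s3 t 1012 478 1 = true := ex3_b k83_A00pm_123_s3 t1387_A00pm_123_s3

theorem t1389_A00pm_123_s3 : ∃ t, chk3 f_A00pm_123_s3 t 1012 239 1 = true := ex3_b t1388_A00pm_123_s3 t1386_A00pm_123_s3

theorem t1390_A00pm_123_s3 : ∃ t, chk3 f_A00pm_123_s3 t 1012 119 1 = true := ex3_b k82_A00pm_123_s3 t1389_A00pm_123_s3

theorem t1391_A00pm_123_s3 : ∃ t, chk3 f_A00pm_123_s3 t 506 119 1 = true := ex3_a t1390_A00pm_123_s3 k89_A00pm_123_s3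

theorem t1392_A00pm_123_s3 : ∃ t, chk3 f_A00pm_123_s3 t 253 119 1 = true := ex3_a t1391_A00pm_123_s3 t1384_A00pm_123_s3

theorem t1393_A00pm_123_s3 : ∃ t, chk3 f_A00pm_123_s3 t 1015 118 1 = true := ex3_b k80_A00pm_123_s3 k81_A00pm_123_s3

theorem t1394_A00pm_123_s3 : ∃ t, chk3 f_A00pm_123_s3 t 507 118 1 = true := ex3_a k79_A00pm_123_s3 t1393_A00pm_123_s3

theorem t1395_A00pm_123_s3 : ∃ t, chk3 f_A00pm_123_s3 t 253 118 1 = true := ex3_a k78_A00pm_123_s3 t1394_A00pm_123_s3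

theorem t1396_A00pm_123_s3 : ∃ t, chk3 f_A00pm_123_s3 t 253 59 1 = true := ex3_b t1395_A00pm_123_s3 t1392_A00pm_123_s3

theorem t1397_A00pm_123_s3 : ∃ t, chk3 f_A00pm_123_s3 t 4062 471 1 = true := ex3_a k75_A00pm_123_s3 k76_A00pm_123_s3

theorem t1398_A00pm_123_s3 : ∃ t, chk3 f_A00pm_123_s3 t 4062 235 1 = true := ex3_b k74_A00pm_123_s3 t1397_A00pm_123_s3

theorem t1399_A00pm_123_s3 : ∃ t, chk3 f_A00pm_123_s3 t 2031 235 1 = true := ex3_a t1398_A00pm_123_s3 k77_A00pm_123_s3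

theorem t1400_A00pm_123_s3 : ∃ t, chk3 f_A00pm_123_s3 t 2031 117 1 = true := ex3_b k73_A00pm_123_s3 t1399_A00pm_123_s3

theorem t1401_A00pm_123_s3 : ∃ t, chk3 f_A00pm_123_s3 t 1015 117 1 = true := ex3_a k72_A00pm_123_s3 t1400_A00pm_123_s3

theorem t1402_A00pm_123_s3 : ∃ t, chk3 f_A00pm_123_s3 t 507 117 1 = true := ex3_a k71_A00pm_123_s3 t1401_A00pm_123_s3

theorem t1403_A00pm_123_s3 : ∃ t, chk3 f_A00pm_123_s3 t 507 58 1 = true := ex3_b k70_A00pm_123_s3 t1402_A00pm_123_s3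

theorem t1404_A00pm_123_s3 : ∃ t, chk3 f_A00pm_123_s3 t 506 117 1 = true := ex3_b k68_A00pm_123_s3 k69_A00pm_123_s3

theorem t1405_A00pm_123_s3 : ∃ t, chk3 f_A00pm_123_s3 t 2026 466 1 = true := ex3_a k64_A00pm_123_s3 k65_A00pm_123_s3

theorem t1406_A00pm_123_s3 : ∃ t, chk3 f_A00pm_123_s3 t 2026 233 1 = true := ex3_b t1405_A00pm_123_s3 k66_A00pm_123_s3

theorem t1407_A00pm_123_s3 : ∃ t, chk3 f_A00pm_123_s3 t 1013 233 1 = true := ex3_a t1406_A00pm_123_s3 k67_A00pm_123_s3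

theorem t1408_A00pm_123_s3 : ∃ t, chk3 f_A00pm_123_s3 t 2026 232 1 = true := ex3_a k61_A00pm_123_s3 k62_A00pm_123_s3

theorem t1409_A00pm_123_s3 : ∃ t, chk3 f_A00pm_123_s3 t 1013 232 1 = true := ex3_a t1408_A00pm_123_s3 k63_A00pm_123_s3

theorem t1410_A00pm_123_s3 : ∃ t, chk3 f_A00pm_123_s3 t 1013 116 1 = true := ex3_b t1409_A00pm_123_s3 t1407_A00pm_123_s3

theorem t1411_A00pm_123_s3 : ∃ t, chk3 f_A00pm_123_s3 t 1012 466 1 = true := ex3_a k58_A00pm_123_s3 k59_A00pm_123_s3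

theorem t1412_A00pm_123_s3 : ∃ t, chk3 f_A00pm_123_s3 t 1012 233 1 = true := ex3_b t1411_A00pm_123_s3 k60_A00pm_123_s3

theorem t1413_A00pm_123_s3 : ∃ t, chk3 f_A00pm_123_s3 t 1012 232 3 = true := ex3_a k56_A00pm_123_s3 k57_A00pm_123_s3

theorem t1414_A00pm_123_s3 : ∃ t, chk3 f_A00pm_123_s3 t 1012 232 1 = true := ex3_c k55_A00pm_123_s3 t1413_A00pm_123_s3

theorem t1415_A00pm_123_s3 : ∃ t, chk3 f_A00pm_123_s3 t 1012 116 1 = true := ex3_b t1414_A00pm_123_s3 t1412_A00pm_123_s3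

theorem t1416_A00pm_123_s3 : ∃ t, chk3 f_A00pm_123_s3 t 506 116 1 = true := ex3_a t1415_A00pm_123_s3 t1410_A00pm_123_s3

theorem t1417_A00pm_123_s3 : ∃ t, chk3 f_A00pm_123_s3 t 506 58 1 = true := ex3_b t1416_A00pm_123_s3 t1404_A00pm_123_s3

theorem t1418_A00pm_123_s3 : ∃ t, chk3 f_A00pm_123_s3 t 253 58 1 = true := ex3_a t1417_A00pm_123_s3 t1403_A00pm_123_s3

theorem t1419_A00pm_123_s3 : ∃ t, chk3 f_A00pm_123_s3 t 253 29 1 = true := ex3_b t1418_A00pm_123_s3 t1396_A00pm_123_s3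

theorem t1420_A00pm_123_s3 : ∃ t, chk3 f_A00pm_123_s3 t 2023 478 1 = true := ex3_b k52_A00pm_123_s3 k53_A00pm_123_s3

theorem t1421_A00pm_123_s3 : ∃ t, chk3 f_A00pm_123_s3 t 2023 239 1 = true := ex3_b t1420_A00pm_123_s3 k54_A00pm_123_s3

theorem t1422_A00pm_123_s3 : ∃ t, chk3 f_A00pm_123_s3 t 1011 239 1 = true := ex3_a k51_A00pm_123_s3 t1421_A00pm_123_s3

theorem t1423_A00pm_123_s3 : ∃ t, chk3 f_A00pm_123_s3 t 505 239 1 = true := ex3_a k50_A00pm_123_s3 t1422_A00pm_123_s3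

theorem t1424_A00pm_123_s3 : ∃ t, chk3 f_A00pm_123_s3 t 2022 477 1 = true := ex3_b k47_A00pm_123_s3 k48_A00pm_123_s3

theorem t1425_A00pm_123_s3 : ∃ t, chk3 f_A00pm_123_s3 t 2022 238 1 = true := ex3_b k46_A00pm_123_s3 t1424_A00pm_123_s3

theorem t1426_A00pm_123_s3 : ∃ t, chk3 f_A00pm_123_s3 t 1011 238 1 = true := ex3_a t1425_A00pm_123_s3 k49_A00pm_123_s3

theorem t1427_A00pm_123_s3 : ∃ t, chk3 f_A00pm_123_s3 t 1010 476 1 = true := ex3_b k43_A00pm_123_s3 k44_A00pm_123_s3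

theorem t1428_A00pm_123_s3 : ∃ t, chk3 f_A00pm_123_s3 t 1010 238 1 = true := ex3_b t1427_A00pm_123_s3 k45_A00pm_123_s3

theorem t1429_A00pm_123_s3 : ∃ t, chk3 f_A00pm_123_s3 t 505 238 1 = true := ex3_a t1428_A00pm_123_s3 t1426_A00pm_123_s3

theorem t1430_A00pm_123_s3 : ∃ t, chk3 f_A00pm_123_s3 t 505 119 1 = true := ex3_b t1429_A00pm_123_s3 t1423_A00pm_123_s3

theorem t1431_A00pm_123_s3 : ∃ t, chk3 f_A00pm_123_s3 t 252 119 1 = true := ex3_a k42_A00pm_123_s3 t1430_A00pm_123_s3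

theorem t1432_A00pm_123_s3 : ∃ t, chk3 f_A00pm_123_s3 t 252 237 1 = true := ex3_a k40_A00pm_123_s3 k41_A00pm_123_s3

theorem t1433_A00pm_123_s3 : ∃ t, chk3 f_A00pm_123_s3 t 252 118 1 = true := ex3_b k39_A00pm_123_s3 t1432_A00pm_123_s3

theorem t1434_A00pm_123_s3 : ∃ t, chk3 f_A00pm_123_s3 t 252 59 1 = true := ex3_b t1433_A00pm_123_s3 t1431_A00pm_123_s3

theorem t1435_A00pm_123_s3 : ∃ t, chk3 f_A00pm_123_s3 t 2023 116 1 = true := ex3_b k36_A00pm_123_s3 k37_A00pm_123_s3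

theorem t1436_A00pm_123_s3 : ∃ t, chk3 f_A00pm_123_s3 t 1011 116 1 = true := ex3_a k35_A00pm_123_s3 t1435_A00pm_123_s3

theorem t1437_A00pm_123_s3 : ∃ t, chk3 f_A00pm_123_s3 t 505 116 1 = true := ex3_a k34_A00pm_123_s3 t1436_A00pm_123_s3

theorem t1438_A00pm_123_s3 : ∃ t, chk3 f_A00pm_123_s3 t 252 116 1 = true := ex3_a k33_A00pm_123_s3 t1437_A00pm_123_s3

theorem t1439_A00pm_123_s3 : ∃ t, chk3 f_A00pm_123_s3 t 252 58 1 = true := ex3_b t1438_A00pm_123_s3 k38_A00pm_123_s3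

theorem t1440_A00pm_123_s3 : ∃ t, chk3 f_A00pm_123_s3 t 252 29 1 = true := ex3_b t1439_A00pm_123_s3 t1434_A00pm_123_s3

theorem t1441_A00pm_123_s3 : ∃ t, chk3 f_A00pm_123_s3 t 126 29 1 = true := ex3_a t1440_A00pm_123_s3 t1419_A00pm_123_s3

theorem t1442_A00pm_123_s3 : ∃ t, chk3 f_A00pm_123_s3 t 63 29 1 = true := ex3_a t1441_A00pm_123_s3 t1383_A00pm_123_s3

theorem t1443_A00pm_123_s3 : ∃ t, chk3 f_A00pm_123_s3 t 251 29 1 = true := ex3_a k31_A00pm_123_s3 k32_A00pm_123_s3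

theorem t1444_A00pm_123_s3 : ∃ t, chk3 f_A00pm_123_s3 t 125 29 1 = true := ex3_a k30_A00pm_123_s3 t1443_A00pm_123_s3

theorem t1445_A00pm_123_s3 : ∃ t, chk3 f_A00pm_123_s3 t 62 29 1 = true := ex3_a k29_A00pm_123_s3 t1444_A00pm_123_s3

theorem t1446_A00pm_123_s3 : ∃ t, chk3 f_A00pm_123_s3 t 31 29 1 = true := ex3_a t1445_A00pm_123_s3 t1442_A00pm_123_s3

theorem t1447_A00pm_123_s3 : ∃ t, chk3 f_A00pm_123_s3 t 1011 115 3 = true := ex3_b k25_A00pm_123_s3 k26_A00pm_123_s3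

theorem t1448_A00pm_123_s3 : ∃ t, chk3 f_A00pm_123_s3 t 505 115 3 = true := ex3_a k24_A00pm_123_s3 t1447_A00pm_123_s3

theorem t1449_A00pm_123_s3 : ∃ t, chk3 f_A00pm_123_s3 t 505 115 2 = true := ex3_b k22_A00pm_123_s3 k23_A00pm_123_s3

theorem t1450_A00pm_123_s3 : ∃ t, chk3 f_A00pm_123_s3 t 505 115 1 = true := ex3_c t1449_A00pm_123_s3 t1448_A00pm_123_s3

theorem t1451_A00pm_123_s3 : ∃ t, chk3 f_A00pm_123_s3 t 505 57 1 = true := ex3_b k21_A00pm_123_s3 t1450_A00pm_123_s3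

theorem t1452_A00pm_123_s3 : ∃ t, chk3 f_A00pm_123_s3 t 504 57 1 = true := ex3_b k19_A00pm_123_s3 k20_A00pm_123_s3

theorem t1453_A00pm_123_s3 : ∃ t, chk3 f_A00pm_123_s3 t 252 57 1 = true := ex3_a t1452_A00pm_123_s3 t1451_A00pm_123_s3

theorem t1454_A00pm_123_s3 : ∃ t, chk3 f_A00pm_123_s3 t 252 28 1 = true := ex3_b k18_A00pm_123_s3 t1453_A00pm_123_s3

theorem t1455_A00pm_123_s3 : ∃ t, chk3 f_A00pm_123_s3 t 126 28 1 = true := ex3_a t1454_A00pm_123_s3 k27_A00pm_123_s3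

theorem t1456_A00pm_123_s3 : ∃ t, chk3 f_A00pm_123_s3 t 63 28 1 = true := ex3_a t1455_A00pm_123_s3 k28_A00pm_123_s3

theorem t1457_A00pm_123_s3 : ∃ t, chk3 f_A00pm_123_s3 t 251 57 1 = true := ex3_a k16_A00pm_123_s3 k17_A00pm_123_s3

theorem t1458_A00pm_123_s3 : ∃ t, chk3 f_A00pm_123_s3 t 250 57 1 = true := ex3_b k14_A00pm_123_s3 k15_A00pm_123_s3

theorem t1459_A00pm_123_s3 : ∃ t, chk3 f_A00pm_123_s3 t 125 57 1 = true := ex3_a t1458_A00pm_123_s3 t1457_A00pm_123_s3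

theorem t1460_A00pm_123_s3 : ∃ t, chk3 f_A00pm_123_s3 t 251 56 1 = true := ex3_a k12_A00pm_123_s3 k13_A00pm_123_s3

theorem t1461_A00pm_123_s3 : ∃ t, chk3 f_A00pm_123_s3 t 250 56 1 = true := ex3_b k10_A00pm_123_s3 k11_A00pm_123_s3

theorem t1462_A00pm_123_s3 : ∃ t, chk3 f_A00pm_123_s3 t 125 56 1 = true := ex3_a t1461_A00pm_123_s3 t1460_A00pm_123_s3

theorem t1463_A00pm_123_s3 : ∃ t, chk3 f_A00pm_123_s3 t 125 28 1 = true := ex3_b t1462_A00pm_123_s3 t1459_A00pm_123_s3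

theorem t1464_A00pm_123_s3 : ∃ t, chk3 f_A00pm_123_s3 t 62 28 1 = true := ex3_a k9_A00pm_123_s3 t1463_A00pm_123_s3

theorem t1465_A00pm_123_s3 : ∃ t, chk3 f_A00pm_123_s3 t 31 28 1 = true := ex3_a t1464_A00pm_123_s3 t1456_A00pm_123_s3

theorem t1466_A00pm_123_s3 : ∃ t, chk3 f_A00pm_123_s3 t 31 14 1 = true := ex3_b t1465_A00pm_123_s3 t1446_A00pm_123_s3

theorem t1467_A00pm_123_s3 : ∃ t, chk3 f_A00pm_123_s3 t 15 14 1 = true := ex3_a k8_A00pm_123_s3 t1466_A00pm_123_s3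

theorem t1468_A00pm_123_s3 : ∃ t, chk3 f_A00pm_123_s3 t 15 7 1 = true := ex3_b t1467_A00pm_123_s3 t1361_A00pm_123_s3

theorem t1469_A00pm_123_s3 : ∃ t, chk3 f_A00pm_123_s3 t 7 7 1 = true := ex3_a k7_A00pm_123_s3 t1468_A00pm_123_s3

theorem t1470_A00pm_123_s3 : ∃ t, chk3 f_A00pm_123_s3 t 15 13 1 = true := ex3_a k5_A00pm_123_s3 k6_A00pm_123_s3

theorem t1471_A00pm_123_s3 : ∃ t, chk3 f_A00pm_123_s3 t 15 6 1 = true := ex3_b k4_A00pm_123_s3 t1470_A00pm_123_s3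

theorem t1472_A00pm_123_s3 : ∃ t, chk3 f_A00pm_123_s3 t 7 6 1 = true := ex3_a k3_A00pm_123_s3 t1471_A00pm_123_s3

theorem t1473_A00pm_123_s3 : ∃ t, chk3 f_A00pm_123_s3 t 7 3 1 = true := ex3_b t1472_A00pm_123_s3 t1469_A00pm_123_s3

theorem t1474_A00pm_123_s3 : ∃ t, chk3 f_A00pm_123_s3 t 3 3 1 = true := ex3_a k2_A00pm_123_s3 t1473_A00pm_123_s3

theorem t1475_A00pm_123_s3 : ∃ t, chk3 f_A00pm_123_s3 t 3 1 1 = true := ex3_b k1_A00pm_123_s3 t1474_A00pm_123_s3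

theorem t1476_A00pm_123_s3 : ∃ t, chk3 f_A00pm_123_s3 t 1 1 1 = true := ex3_a k0_A00pm_123_s3 t1475_A00pm_123_s3

theorem c_A00pm_123_s3 : CertF 536870912 536870912 0 536870912 1033476505 6710887 true true false .npn 1 2 3
    ndB0q1 ndB0q2 pcB3 cut_A00pm_123_s3 xt_A00pm_123_s3 :=
  certF2 (fam := true) (s1 := true) (s2 := false) (a := 1) (b := 2) (c := 3) (cn := .npn) (n1 := ndB0q1) (n2 := ndB0q2) (pc := pcB3) (cut := cut_A00pm_123_s3) (xt := xt_A00pm_123_s3) (P1 := 536870912) (W1 := 536870912) (P2 := 0) (W2 := 536870912) (P3 := 1033476505) (W3 := 6710887)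
    rfl (fun _ => rfl) t1476_A00pm_123_s3

theorem s_A00pm_123_s3 {κ x : ℝ} (hκ : κ * h0 = ken x) (hx : ((1033476505 : ℕ) : ℝ) / S ≤ x)
    (hx' : x ≤ (((1033476505 : ℕ) : ℝ) + (6710887 : ℕ)) / S)
    (H : CutA (VFD κ) PP tK tL pcB (Cut.of [[⟨0, 1, 0, 20971520⟩, ⟨1, 1, 0, 20971520⟩, ⟨2, 2, 0, 1572864⟩], [⟨0, 0, 1, 46137344⟩, ⟨1, 1, 0, 1048576⟩, ⟨2, 1, 1, 46137344⟩, ⟨0, 0, 0, 1047972020⟩, ⟨0, 1, 0, 45097156⟩, ⟨2, 1, 0, 1047972020⟩, ⟨2, 2, 0, 45097156⟩], [⟨0, 1, 0, 1048576⟩, ⟨1, 0, 1, 46137344⟩, ⟨2, 1, 1, 46137344⟩, ⟨1, 0, 0, 1047972020⟩, ⟨1, 1, 0, 45097156⟩, ⟨2, 1, 0, 1047972020⟩, ⟨2, 2, 0, 45097156⟩]]) 1 2 3 0 0 (sgb true) (sgb false) x) :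
    AltA (VFD κ) PP tK tL pcB [⟨4, 0, 0, 3194381926⟩] 1 2 3 0 0 (sgb true) (sgb false) x :=
  strip_altAD (m := 3194381926) false rfl hκ (SH.κ0 hκ (SH.hx1 hx).le (SH.hx2 hx').le) (SH.hx1 hx).le (SH.hx2 hx') (covB01).cov (covB02).cov hx hx' c_A00pm_123_s3 H ((okx hx hx').extAN (T := tt) (sideB hx hx') hκ rfl rfl (.O 1 true) (.O 2 false) (Or.inr rfl))

end Pool.Agent.Strip051.G.I9625_9688.Tab.St.C
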