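import Pool.Agent.Strip051.G.I9625_9688.Tab
import Pool.Agent.Strip051.PB.StripB

/-! # Strips, near vertex: certificates 0 (generated) -/

set_option linter.all false
set_option maxRecDepth 100000

namespace Pool.Agent.Strip051.G.I9625_9688.Tab.CS.BA00

open Pool.Agent.Strip051.PB Pool.Agent.Strip051.PB.T
open Pool.Agent.Strip051.G.I9625_9688.Tab

noncomputable def cut_pp_001_s : Cut := Cut.of [[⟨4, 0, 0, 1449551462⟩]]

noncomputable def f_pp_001_s : ℕ → ℕ → ℕ → ℕ → Bool := onCell 0 536870912 0 536870912 1033476505 6710887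
    (rowNE 3 eng mog cd0q0 cd0q0 pd1 0 true true true .up 0 0 1 (qsf 0 536870912 0 536870912 1) ndB0q0 ndB0q0 pcB1 cut_pp_001_s Ext.none)

def k0_pp_001_s : ∃ t, chk3 f_pp_001_s t 1 1 1 = true :=
  ⟨(l 4), by decide +kernel⟩

theorem c_pp_001_s : CertNE 0 536870912 0 536870912 1033476505 6710887 3 eng mog cd0q0 cd0q0 pd1 true true true .up 0 0 1
    ndB0q0 ndB0q0 pcB1 cut_pp_001_s Ext.none :=
  certNE0 (fam := true) (s1 := true) (s2 := true) (a := 0) (b := 0) (c := 1) (cn := .up) (n1 := ndB0q0) (n2 := ndB0q0) (pc := pcB1) (cut := cut_pp_001_s) (xt := Ext.none) (P1 := 0) (W1 := 536870912) (P2 := 0) (W2 := 536870912) (P3 := 1033476505) (W3 := 6710887) (N0 := 3) (En := eng) (mo := mog) (C1 := cd0q0) (C2 := cd0q0) (C3 := pd1)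
    rfl k0_pp_001_s

noncomputable def cut_pp_001_t : Cut := Cut.of [[⟨3, 0, 0, 2845415833⟩]]

noncomputable def f_pp_001_t : ℕ → ℕ → ℕ → ℕ → Bool := onCell 0 536870912 0 536870912 1033476505 6710887
    (rowNE 3 eng mog cd0q0 cd0q0 pd1 0 true true true .up 0 0 1 (qsf 0 536870912 0 536870912 1) ndB0q0 ndB0q0 pcB1 cut_pp_001_t Ext.none)

def k0_pp_001_t : ∃ t, chk3 f_pp_001_t t 1 1 1 = true :=
  ⟨(l 4), by decide +kernel⟩

theorem c_pp_001_t : CertNE 0 536870912 0 536870912 1033476505 6710887 3 eng mog cd0q0 cd0q0 pd1 true true true .up 0 0 1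
    ndB0q0 ndB0q0 pcB1 cut_pp_001_t Ext.none :=
  certNE0 (fam := true) (s1 := true) (s2 := true) (a := 0) (b := 0) (c := 1) (cn := .up) (n1 := ndB0q0) (n2 := ndB0q0) (pc := pcB1) (cut := cut_pp_001_t) (xt := Ext.none) (P1 := 0) (W1 := 536870912) (P2 := 0) (W2 := 536870912) (P3 := 1033476505) (W3 := 6710887) (N0 := 3) (En := eng) (mo := mog) (C1 := cd0q0) (C2 := cd0q0) (C3 := pd1)
    rfl k0_pp_001_t

noncomputable def cut_pp_011_s : Cut := Cut.of [[⟨4, 0, 0, 1449551462⟩], [⟨0, 0, 0, 33554432⟩, ⟨1, 1, 0, 33554432⟩, ⟨2, 1, 0, 33554432⟩]]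

noncomputable def f_pp_011_s : ℕ → ℕ → ℕ → ℕ → Bool := onCell 0 536870912 536870912 536870912 1033476505 6710887
    (rowNE 3 eng mog cd0q0 cd0q1 pd1 0 true true true .pnn 0 1 1 (qsf 0 536870912 536870912 536870912 1) ndB0q0 ndB0q1 pcB1 cut_pp_011_s Ext.none)

def k0_pp_011_s : ∃ t, chk3 f_pp_011_s t 1 1 1 = true :=
  ⟨(l 6), by decide +kernel⟩

theorem c_pp_011_s : CertNE 0 536870912 536870912 536870912 1033476505 6710887 3 eng mog cd0q0 cd0q1 pd1 true true true .pnn 0 1 1
    ndB0q0 ndB0q1 pcB1 cut_pp_011_s Ext.none :=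
  certNE0 (fam := true) (s1 := true) (s2 := true) (a := 0) (b := 1) (c := 1) (cn := .pnn) (n1 := ndB0q0) (n2 := ndB0q1) (pc := pcB1) (cut := cut_pp_011_s) (xt := Ext.none) (P1 := 0) (W1 := 536870912) (P2 := 536870912) (W2 := 536870912) (P3 := 1033476505) (W3 := 6710887) (N0 := 3) (En := eng) (mo := mog) (C1 := cd0q0) (C2 := cd0q1) (C3 := pd1)
    rfl k0_pp_011_s

noncomputable def cut_pp_011_t : Cut := Cut.of [[⟨3, 0, 0, 2845415833⟩], [⟨0, 0, 0, 33554432⟩, ⟨1, 1, 0, 33554432⟩, ⟨2, 1, 0, 33554432⟩]]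

noncomputable def f_pp_011_t : ℕ → ℕ → ℕ → ℕ → Bool := onCell 0 536870912 536870912 536870912 1033476505 6710887
    (rowNE 3 eng mog cd0q0 cd0q1 pd1 0 true true true .pnn 0 1 1 (qsf 0 536870912 536870912 536870912 1) ndB0q0 ndB0q1 pcB1 cut_pp_011_t Ext.none)

def k0_pp_011_t : ∃ t, chk3 f_pp_011_t t 1 1 1 = true :=
  ⟨(a (b (l 4) (b (l 4) (a (b (l 4) (a (b (l 4) (a (b (l 4) (a (l 14) (l 4))) (l 4))) (l 4))) (l 4)))) (l 4)), by decide +kernel⟩

theorem c_pp_011_t : CertNE 0 536870912 536870912 536870912 1033476505 6710887 3 eng mog cd0q0 cd0q1 pd1 true true true .pnn 0 1 1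
    ndB0q0 ndB0q1 pcB1 cut_pp_011_t Ext.none :=
  certNE0 (fam := true) (s1 := true) (s2 := true) (a := 0) (b := 1) (c := 1) (cn := .pnn) (n1 := ndB0q0) (n2 := ndB0q1) (pc := pcB1) (cut := cut_pp_011_t) (xt := Ext.none) (P1 := 0) (W1 := 536870912) (P2 := 536870912) (W2 := 536870912) (P3 := 1033476505) (W3 := 6710887) (N0 := 3) (En := eng) (mo := mog) (C1 := cd0q0) (C2 := cd0q1) (C3 := pd1)
    rfl k0_pp_011_t

noncomputable def cut_pp_012_s : Cut := Cut.of [[⟨4, 0, 0, 1449551462⟩], [⟨0, 0, 0, 33554432⟩, ⟨1, 1, 0, 33554432⟩, ⟨2, 1, 0, 33554432⟩]]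

noncomputable def f_pp_012_s : ℕ → ℕ → ℕ → ℕ → Bool := onCell 0 536870912 536870912 536870912 1033476505 6710887
    (rowNE 3 eng mog cd0q0 cd0q1 pd2 0 true true true .pnp 0 1 2 (qsf 0 536870912 536870912 536870912 2) ndB0q0 ndB0q1 pcB2 cut_pp_012_s Ext.none)

def k0_pp_012_s : ∃ t, chk3 f_pp_012_s t 1 1 1 = true :=
  ⟨(l 6), by decide +kernel⟩

theorem c_pp_012_s : CertNE 0 536870912 536870912 536870912 1033476505 6710887 3 eng mog cd0q0 cd0q1 pd2 true true true .pnp 0 1 2
    ndB0q0 ndB0q1 pcB2 cut_pp_012_s Ext.none :=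
  certNE0 (fam := true) (s1 := true) (s2 := true) (a := 0) (b := 1) (c := 2) (cn := .pnp) (n1 := ndB0q0) (n2 := ndB0q1) (pc := pcB2) (cut := cut_pp_012_s) (xt := Ext.none) (P1 := 0) (W1 := 536870912) (P2 := 536870912) (W2 := 536870912) (P3 := 1033476505) (W3 := 6710887) (N0 := 3) (En := eng) (mo := mog) (C1 := cd0q0) (C2 := cd0q1) (C3 := pd2)
    rfl k0_pp_012_s

noncomputable def cut_pp_012_t : Cut := Cut.of [[⟨3, 0, 0, 2845415833⟩], [⟨0, 0, 0, 33554432⟩, ⟨1, 1, 0, 33554432⟩, ⟨2, 1, 0, 33554432⟩]]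

noncomputable def f_pp_012_t : ℕ → ℕ → ℕ → ℕ → Bool := onCell 0 536870912 536870912 536870912 1033476505 6710887
    (rowNE 3 eng mog cd0q0 cd0q1 pd2 0 true true true .pnp 0 1 2 (qsf 0 536870912 536870912 536870912 2) ndB0q0 ndB0q1 pcB2 cut_pp_012_t Ext.none)

def k0_pp_012_t : ∃ t, chk3 f_pp_012_t t 1 1 1 = true :=
  ⟨(a (b (l 4) (b (l 4) (a (b (l 4) (a (a (a (b (l 1) (b (l 4) (l 14))) (l 4)) (l 4)) (l 4))) (l 4)))) (l 4)), by decide +kernel⟩

theorem c_pp_012_t : CertNE 0 536870912 536870912 536870912 1033476505 6710887 3 eng mog cd0q0 cd0q1 pd2 true true true .pnp 0 1 2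
    ndB0q0 ndB0q1 pcB2 cut_pp_012_t Ext.none :=
  certNE0 (fam := true) (s1 := true) (s2 := true) (a := 0) (b := 1) (c := 2) (cn := .pnp) (n1 := ndB0q0) (n2 := ndB0q1) (pc := pcB2) (cut := cut_pp_012_t) (xt := Ext.none) (P1 := 0) (W1 := 536870912) (P2 := 536870912) (W2 := 536870912) (P3 := 1033476505) (W3 := 6710887) (N0 := 3) (En := eng) (mo := mog) (C1 := cd0q0) (C2 := cd0q1) (C3 := pd2)
    rfl k0_pp_012_t

noncomputable def cut_pp_022_s : Cut := Cut.of [[⟨4, 0, 0, 1449551462⟩], [⟨0, 0, 0, 22369621⟩, ⟨1, 1, 0, 22369621⟩, ⟨2, 1, 0, 22369621⟩]]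

noncomputable def f_pp_022_s : ℕ → ℕ → ℕ → ℕ → Bool := onCell 0 536870912 0 536870912 1033476505 6710887
    (rowNE 3 eng mog cd0q0 cd0q2 pd2 0 true true true .pp 0 2 2 (qsf 0 536870912 0 536870912 2) ndB0q0 ndB0q2 pcB2 cut_pp_022_s Ext.none)

def k0_pp_022_s : ∃ t, chk3 f_pp_022_s t 1 1 1 = true :=
  ⟨(l 6), by decide +kernel⟩

theorem c_pp_022_s : CertNE 0 536870912 0 536870912 1033476505 6710887 3 eng mog cd0q0 cd0q2 pd2 true true true .pp 0 2 2
    ndB0q0 ndB0q2 pcB2 cut_pp_022_s Ext.none :=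
  certNE0 (fam := true) (s1 := true) (s2 := true) (a := 0) (b := 2) (c := 2) (cn := .pp) (n1 := ndB0q0) (n2 := ndB0q2) (pc := pcB2) (cut := cut_pp_022_s) (xt := Ext.none) (P1 := 0) (W1 := 536870912) (P2 := 0) (W2 := 536870912) (P3 := 1033476505) (W3 := 6710887) (N0 := 3) (En := eng) (mo := mog) (C1 := cd0q0) (C2 := cd0q2) (C3 := pd2)
    rfl k0_pp_022_s

noncomputable def cut_pp_022_t : Cut := Cut.of [[⟨3, 0, 0, 2845415833⟩], [⟨0, 0, 0, 22369621⟩, ⟨1, 1, 0, 22369621⟩, ⟨2, 1, 0, 22369621⟩]]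

noncomputable def f_pp_022_t : ℕ → ℕ → ℕ → ℕ → Bool := onCell 0 536870912 0 536870912 1033476505 6710887
    (rowNE 3 eng mog cd0q0 cd0q2 pd2 0 true true true .pp 0 2 2 (qsf 0 536870912 0 536870912 2) ndB0q0 ndB0q2 pcB2 cut_pp_022_t Ext.none)

def k0_pp_022_t : ∃ t, chk3 f_pp_022_t t 2 2 1 = true :=
  ⟨(a (a (l 6) (b (l 6) (b (l 6) (b (l 6) (a (a (l 6) (a (l 6) (l 16378984))) (a (a (l 16367936) (l 16349760)) (l 16280864))))))) (b (a (l 6) (b (l 6) (a (l 6) (a (l 6) (b (l 6) (l 15550056)))))) (a (b (a (l 6) (b (l 6) (a (l 15959024) (l 15935168)))) (a (b (a (l 16177872) (l 16142536)) (a (l 16291488) (l 16269904))) (b (a (l 16118432) (l 16106000)) (a (l 16258920) (b (l 16222576) (l 16294384)))))) (b (a (a (b (l 15727720) (l 15924168)) (b (l 15722264) (l 15925256))) (b (a (l 15735256) (l 15771376)) (a (l 15941560) (l 15979792)))) (a (b (a (l 16105208) (l 16114144)) (a (b (l 16230456) (l 16308504)) (b (l 16248792) (l 16332840)))) (a (b (l 16095216) (b (l 16276440) (l 16365728)))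 (b (l 16177088) (b (l 16319000) (l 16411016))))))))), by decide +kernel⟩

def k1_pp_022_t : ∃ t, chk3 f_pp_022_t t 8 6 1 = true :=
  ⟨(b (a (b (l 6) (b (l 6) (a (l 16479904) (l 16442056)))) (b (a (l 6) (l 16407896)) (a (b (l 16436784) (l 16392704)) (b (l 16411016) (l 16410176))))) (a (b (a (b (l 16529744) (l 16505648)) (b (a (l 16546104) (l 16500120)) (a (l 16582688) (l 16537240)))) (a (b (l 16471888) (a (l 16493584) (l 16538928))) (b (l 16546912) (l 16525600)))) (b (a (b (a (l 16460240) (l 16434744)) (a (l 16496448) (l 16462800))) (b (a (l 16420752) (l 16419824)) (a (l 16445880) (l 16442656)))) (a (b (a (l 16526680) (l 16513024)) (a (l 16590848) (l 16532496))) (b (a (l 16486136) (l 16458056)) (a (l 16522464) (b (l 16513864) (l 16542184)))))))), by decide +kernel⟩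

def k2_pp_022_t : ∃ t, chk3 f_pp_022_t t 9 6 1 = true :=
  ⟨(a (b (b (a (b (l 16397504) (l 16409448)) (a (l 16422456) (l 16432224))) (a (b (l 16416800) (a (l 16415392) (l 16430672))) (a (b (l 16443984) (l 16454200)) (b (l 16459480) (l 16473288))))) (a (b (b (a (l 16427632) (l 16445592)) (a (l 16453000) (l 16472760))) (b (a (b (l 16478552) (l 16497440)) (l 16488400)) (a (b (l 16519176) (l 16543656)) (b (l 16541104) (l 16541728))))) (b (a (b (l 16451120) (a (l 16494744) (l 16509824))) (b (l 16473816) (b (l 16518504) (l 16537072)))) (a (b (a (l 16532512) (l 16548680)) (b (l 16551912) (l 16553888))) (b (b (l 16557272) (l 16557992)) (b (a (l 16595576) (l 16606896)) (a (l 16618880) (l 16630344)))))))) (b (b (a (a (l 16428784) (l 16417896)) (b (l 16383896) (l 16418168))) (a (a (b (l 16461432) (l 16478608)) (b (l 16455728) (l 16476160))) (b (l 16447248) (a (l 16473648) (l 16471600))))) (a (b (a (b (b (l 16495864) (l 16511328)) (b (l 16529232) (l 16549192))) (b (l 16503896) (b (l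 16532008) (l 16553328)))) (b (a (b (a (l 16568672) (l 16572120)) (a (l 16591192) (l 16595240))) (b (l 16576224) (l 16600256))) (a (b (a (l 16614464) (l 16619096)) (a (l 16638200) (l 16643184))) (b (l 16603992) (a (l 16647632) (l 16652136)))))) (b (b (a (l 16504488) (l 16505576)) (a (b (l 16534800) (l 16557512)) (l 16529008))) (b (a (b (l 16581736) (l 16607024)) (b (l 16587872) (l 16614464))) (a (b (l 16611936) (a (l 16656712) (l 16661320))) (b (l 16641592) (l 16647776)))))))), by decide +kernel⟩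

def k3_pp_022_t : ∃ t, chk3 f_pp_022_t t 16 14 1 = true :=
  ⟨(b (a (b (a (l 16474464) (l 16517096)) (a (b (l 16461504) (l 16454640)) (b (l 16502416) (l 16494480)))) (b (a (l 16539888) (l 16584400)) (b (a (l 16544048) (l 16586216)) (a (l 16534816) (l 16575472))))) (b (a (a (b (b (l 16450800) (l 16449176)) (a (b (l 16439232) (l 16440224)) (l 16437568))) (b (b (l 16489944) (l 16487872)) (b (l 16487056) (l 16477048)))) (b (a (l 16527992) (l 16567136)) (a (b (l 16525360) (l 16525304)) (b (l 16563456) (l 16562704))))) (a (b (a (b (a (l 16421456) (l 16440136)) (a (c (l 16427960) (l 16424712)) (l 16460552))) (b (a (l 16458872) (l 16477600)) (a (l 16484312) (l 16502808)))) (a (b (a (a (l 16442264) (l 16440888)) (a (l 16450024) (l 16459160))) (a (a (l 16457160) (l 16466152)) (b (l 16465112) (l 16494480)))) (b (a (a (l 16468296) (l 16477432)) (b (l 16509272) (l 16515144))) (a (b (l 16504160) (l 16512416)) (b (l 16522168) (l 16530272)))))) (b (a (b (a (l 16496248) (l 16535728)) (a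 (l 16521200) (l 16539416))) (b (a (l 16554080) (l 16572304)) (a (l 16557456) (l 16575280)))) (a (b (a (l 16530176) (l 16548096)) (a (b (l 16540040) (l 16547984)) (l 16561480))) (b (a (l 16565776) (l 16583216)) (a (l 16578816) (l 16595824)))))))), by decide +kernel⟩

def k4_pp_022_t : ∃ t, chk3 f_pp_022_t t 17 14 1 = true :=
  ⟨(b (a (b (a (l 16608368) (b (l 16606152) (l 16664568))) (b (a (l 16628568) (l 16670880)) (a (l 16616144) (l 16635608)))) (b (a (b (l 16595928) (l 16612168)) (b (l 16573736) (l 16608152))) (b (a (l 16649296) (l 16624736)) (a (l 16675336) (l 16641432))))) (b (a (b (a (l 16606136) (l 16623744)) (a (b (l 16601216) (l 16599640)) (b (l 16638392) (l 16635880)))) (a (b (l 16661424) (a (l 16663824) (l 16681184))) (b (a (l 16688504) (l 16694472)) (b (l 16687704) (l 16683000))))) (a (b (a (b (a (l 16590360) (l 16608224)) (a (l 16592920) (l 16610328))) (b (a (l 16625864) (l 16643264)) (a (l 16627496) (l 16644376)))) (a (b (a (l 16600384) (l 16617320)) (a (l 16612536)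 (l 16628960))) (b (a (l 16633968) (l 16650312)) (a (l 16645072) (l 16660840))))) (b (a (b (a (l 16660312) (l 16676848)) (a (l 16660896) (l 16676856))) (b (a (l 16692776) (l 16708040)) (a (l 16692192) (l 16706824)))) (a (b (a (l 16666256) (l 16681616)) (a (l 16660456) (b (l 16688184) (l 16693872)))) (b (a (l 16685832) (b (l 16708976) (l 16711864))) (a (b (l 16702384) (l 16707736)) (b (l 16715840) (l 16720832))))))))), by decide +kernel⟩

def k5_pp_022_t : ∃ t, chk3 f_pp_022_t t 16 60 1 = true :=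
  ⟨(a (b (a (b (a (b (l 16486128) (l 16496368)) (b (l 16503944) (l 16514048))) (a (a (l 16507128) (l 16515872)) (a (l 16524624) (l 16533360)))) (b (a (b (l 16521736) (l 16531688)) (b (l 16539432) (l 16549232))) (a (a (l 16542080) (l 16550776)) (a (l 16559432) (l 16568056))))) (a (a (b (a (l 16526624) (l 16535264)) (a (l 16545400) (l 16553944))) (b (a (l 16543896) (l 16552512)) (a (l 16562480) (l 16570984)))) (a (b (a (l 16561104) (l 16569672)) (a (l 16579472) (l 16587912))) (b (a (l 16578192) (l 16586672)) (a (l 16596312) (l 16604656)))))) (b (a (b (a (b (l 16556984) (l 16566608)) (b (l 16574312) (l 16583760))) (a (a (l 16576624) (l 16585136)) (l 16597776))) (b (a (l 16595928) (l 16612528)) (a (l 16614360) (l 16630576)))) (a (a (b (a (l 16595088) (l 16603440)) (a (l 16612936) (l 16621152))) (b (a (l 16611728) (l 16619928)) (a (l 16629288) (l 16637336)))) (a (b (b (l 16627704) (l 16636408)) (a (l 16645296) (l 16653152))) (b (a (l 16644000) (l 16651808)) (a (l 16660896) (l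 16668536))))))), by decide +kernel⟩

def k6_pp_022_t : ∃ t, chk3 f_pp_022_t t 32 61 1 = true :=
  ⟨(a (b (a (b (a (l 16563592) (l 16572056)) (a (l 16585288) (l 16589752))) (b (a (l 16580504) (l 16588920)) (a (l 16598120) (l 16606464)))) (a (b (a (a (l 16596736) (l 16600912)) (b (l 16602832) (l 16611496))) (a (b (l 16611832) (l 16620528)) (b (l 16620144) (l 16628824)))) (b (a (b (l 16611152) (l 16619792)) (b (l 16619440) (l 16628056))) (a (b (l 16628424) (l 16637080)) (b (l 16636656) (l 16645288)))))) (b (a (b (a (l 16597304) (l 16605640)) (a (l 16614760) (l 16623008))) (b (a (l 16613928) (l 16622160)) (a (l 16631192) (l 16639312)))) (a (b (a (b (l 16627680) (l 16636264)) (b (l 16635872) (l 16644408))) (a (b (l 16644832) (l 16653440)) (b (l 16652944) (l 16661528)))) (b (a (b (l 16643992) (l 16652496)) (b (l 16652040) (l 16660496))) (a (b (l 16660992) (l 16669536)) (b (l 16668960) (l 16677464))))))), by decide +kernel⟩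

def k7_pp_022_t : ∃ t, chk3 f_pp_022_t t 33 61 1 = true :=
  ⟨(a (b (a (b (a (l 16630312) (l 16638400)) (a (l 16651296) (l 16655328))) (b (a (l 16646392) (l 16654304)) (a (l 16663200) (l 16670976)))) (a (b (a (b (l 16660016) (l 16668424)) (b (l 16667896) (l 16676256))) (a (b (l 16676840) (l 16685304)) (b (l 16684624) (l 16693048)))) (b (a (b (l 16675680) (l 16683992)) (b (l 16683368) (l 16691616))) (a (b (l 16692312) (l 16700680)) (b (l 16699888) (l 16708208)))))) (b (a (b (a (l 16662112) (l 16669808)) (a (b (l 16674528) (l 16682744)) (b (l 16682120) (l 16690272)))) (a (b (l 16677400) (b (l 16689592) (l 16697672))) (b (l 16684864) (b (l 16696944) (l 16704944))))) (a (b (a (b (l 16690944) (l 16699136)) (b (l 16698400) (l 16706528))) (a (b (l 16707344) (l 16715608)) (b (l 16714672) (c (l 16723024) (l 16722744))))) (b (a (b (l 16705736) (l 16713792)) (b (l 16712936) (l 16720920))) (a (b (l 16721880) (c (l 16730144) (l 16729904))) (b (c (l 16729056) (l 16728816)) (c (l 16737120)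 (l 16736928)))))))), by decide +kernel⟩

def k8_pp_022_t : ∃ t, chk3 f_pp_022_t t 17 60 1 = true :=
  ⟨(a (b (a (b (a (b (l 16624416) (l 16633240)) (b (l 16640448) (l 16649000))) (a (l 16646368) (l 16640776))) (b (a (b (l 16656136) (l 16664416)) (b (l 16671464) (l 16679440))) (a (b (l 16672664) (l 16680768)) (a (l 16687720) (l 16694904))))) (a (a (b (a (l 16659512) (l 16667088)) (a (l 16676048) (l 16683432))) (a (b (l 16674544) (l 16690680)) (b (l 16681880) (l 16697800)))) (a (b (b (l 16688744) (l 16696608)) (a (l 16694296) (b (l 16707824) (l 16715448)))) (b (c (l 16691200) (l 16685560)) (c (c (l 16700968) (l 16700824)) (b (l 16717848) (l 16725296))))))) (b (a (b (a (b (l 16686336) (l 16694000)) (c (l 16683416) (l 16682984))) (a (c (l 16684664) (l 16705224)) (c (l 16698024) (l 16697712)))) (b (a (b (l 16714088) (l 16721072)) (b (l 16716336) (l 16722952))) (a (c (b (l 16728176) (l 16735000)) (l 16710408)) (c (c (l 16722472) (l 16722392)) (b (l 16739960) (l 16746480)))))) (a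 (a (b (c (b (l 16716720) (l 16723992)) (l 16699104)) (c (b (l 16731176) (l 16717328)) (b (l 16730952) (l 16738112)))) (b (c (c (l 16712192) (l 16712088)) (b (l 16729376) (l 16736384))) (c (a (l 16722952) (l 16739304)) (a (l 16722800) (l 16728704))))) (b (a (c (b (l 16741728) (l 16727392)) (b (l 16741560) (l 16727264))) (c (a (l 16732496) (l 16748304)) (a (l 16732392) (l 16737744)))) (a (c (a (l 16744960) (c (l 16739928) (l 16739896))) (a (l 16744872) (l 16750336))) (b (c (a (l 16762960) (l 16747048)) (l 16756304)) (b (c (l 16759672) (l 16759648)) (a (c (l 16770784) (l 16770760)) (a (l 16771160) (b (c (l 16775992) (l 16775992)) (c (l 130694480551) (l 132841963847)))))))))))), by decide +kernel⟩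

def k9_pp_022_t : ∃ t, chk3 f_pp_022_t t 17 244 1 = true :=
  ⟨(b (a (a (a (l 16691832) (a (l 16702552) (l 16709512))) (a (a (l 16716328) (l 16723008)) (a (l 16729560) (l 16735976)))) (c (a (a (l 16734888) (c (l 16736120) (l 16746560))) (a (a (l 16744312) (l 16749512)) (a (b (l 16763392) (a (l 16775664) (b (l 130694481383) (l 134452557751)))) (b (a (c (l 130694470247) (l 131231361751)) (l 283165825463)) (l 4))))) (a (a (l 16724256) (l 16746504)) (a (a (l 16744272) (l 16749488)) (a (b (l 16752896) (a (l 16765176) (l 250953591815))) (b (a (b (l 16776512) (l 134989437799)) (l 282092082103)) (l 4))))))) (a (a (a (a (l 16696200) (l 16703360)) (a (l 16710376) (l 16717248))) (a (a (l 16723960) (l 16730528)) (c (l 16729720) (l 16719064)))) (a (a (c (c (l 16731464) (l 16731416)) (l 16741824)) (c (a (l 16761048) (l 16745576)) (a (l 16760984) (l 16745536)))) (a (c (a (l 16761328) (b (a (l 16753048) (b (l 16775680) (l 131231353191))) (a (b (l 16776272) (l 132841955239)) (l 274039021831))))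 (a (l 16761312) (b (a (l 16753032) (b (l 16775680) (l 133378836167))) (a (b (l 16776272) (l 134989438359)) (l 274039020231))))) (a (a (b (c (l 261154127287) (l 262227868023)) (l 4)) (l 4)) (l 4)))))), by decide +kernel⟩

def k10_pp_022_t : ∃ t, chk3 f_pp_022_t t 17 245 1 = true :=
  ⟨(a (b (a (a (a (l 16704160) (l 16711232)) (a (l 16718168) (l 16724944))) (a (c (l 16724424) (l 16713736)) (c (a (l 16744392) (l 16750544)) (l 16736880)))) (a (a (a (l 16712080) (l 16719080)) (a (l 16725920) (l 16732616))) (a (c (a (l 16739224) (l 16745568)) (l 16731768)) (c (c (l 16744328) (l 16744280)) (b (l 16742368) (l 16746040)))))) (a (c (a (a (b (l 16756520) (l 16753136)) (b (l 16741328) (l 16758784))) (b (a (l 16757384) (b (l 16750576) (a (l 16752608) (b (l 16775344) (l 89355433319))))) (a (b (l 16752016) (a (l 16764544) (b (l 86671079207) (a (l 133915705287) (l 4))))) (b (a (a (l 16776120) (a (l 131768223239) (l 133378827367))) (l 274575894743)) (l 4))))) (a (a (b (l 16756440) (l 16742600))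 (b (l 16741272) (l 16758752))) (b (a (l 16746864) (b (l 16750560) (a (l 16752600) (b (l 16775344) (a (l 16776312) (l 16764448)))))) (a (b (l 16752000) (a (l 16764536) (b (l 85060456135) (l 270817806567)))) (b (a (a (l 16765632) (b (l 16776608) (l 138210665895))) (l 275112763991)) (l 4)))))) (a (a (b (a (c (b (l 16764872) (l 261154139959)) (b (l 16764864) (l 262764751655))) (b (b (c (l 45332007575) (l 43721394839)) (c (l 134989428567) (l 271891546103))) (l 4))) (l 4)) (l 4)) (l 4)))), by decide +kernel⟩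

def k11_pp_022_t : ∃ t, chk3 f_pp_022_t t 68 123 1 = true :=
  ⟨(a (b (a (b (l 16719992) (l 16727912)) (c (b (l 16727032) (l 16734848)) (l 16717616))) (a (b (c (l 16735952) (l 16735760)) (c (l 16743944) (l 16743792))) (b (c (l 16742696) (l 16742544)) (c (l 16740136) (l 16750504))))) (b (a (b (l 16723184) (c (l 16741512) (l 16741352))) (b (c (l 16740360) (l 16740192)) (c (l 16748016) (l 16747888)))) (a (b (c (l 16749288) (l 16749160)) (c (l 16746648) (l 16746560))) (c (b (l 16745224) (l 16755616)) (b (l 16734648) (l 16752936)))))), by decide +kernel⟩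

def k12_pp_022_t : ∃ t, chk3 f_pp_022_t t 69 123 1 = true :=
  ⟨(b (b (a (c (c (l 16739472) (l 16739416)) (b (l 16726952) (l 16741216))) (c (a (l 16748616) (l 16754528)) (a (l 16759032) (l 16743992)))) (a (c (a (l 16754352) (l 16750024)) (a (l 16754256) (l 16739472))) (a (c (l 16756008) (l 16755968)) (b (c (l 16749496) (l 16749472)) (b (c (l 16752232) (l 16752216)) (a (l 16770984) (a (l 16773112) (c (l 16766360) (l 16763736))))))))) (a (b (a (c (l 16751472) (l 16751416)) (c (l 16757552) (l 16757512))) (a (a (c (l 16757640) (l 16747120)) (c (l 16760680) (l 16760656))) (a (a (c (l 16768144) (l 16768128)) (b (l 16770360) (c (b (l 16775848) (c (l 70028101767) (l 78081125975))) (b (l 16775840) (a (l 135526324999) (l 139821281639)))))) (b (b (l 16771624) (a (l 16770176) (c (l 16776664) (l 16766176)))) (b (a (c (a (l 16776784) (l 83986744871)) (l 240753046103)) (c (l 146800590007) (l 306251285591))) (l 4)))))) (b (a (a (c (l 16767224) (l 16761960)) (a (b (l 16770160) (b (l 16770336)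 (c (l 133378836887) (l 135526340983)))) (b (l 16771600) (b (c (l 16776760) (l 16766272)) (l 4))))) (b (a (a (c (l 16765096) (l 16765088)) (c (b (l 16776120) (l 117272720615)) (b (l 16776112) (l 137673796199)))) (a (c (l 269744067287) (l 270817818423)) (l 4))) (a (c (l 292292631463) (l 291755757815)) (l 4)))) (a (b (a (a (b (c (l 16776344) (l 16776344)) (c (l 136600048471) (l 283165840695))) (c (l 278870870103) (l 279407739383))) (l 4)) (l 4)) (l 4))))), by decide +kernel⟩

def k13_pp_022_t : ∃ t, chk3 f_pp_022_t t 35 123 1 = true :=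
  ⟨(a (b (a (a (b (c (l 16760256) (l 16760232)) (b (a (c (l 16764200) (l 16764192)) (a (b (l 16773920) (c (l 201561452743) (l 136600060359))) (b (c (l 16766384) (l 16763752)) (l 4)))) (a (a (b (c (l 16776568) (l 16776568)) (c (l 137673790583) (l 287460805639))) (c (l 280481480503) (l 281018349831))) (l 4)))) (b (a (a (c (l 50700727511) (l 46942629799)) (b (l 16768576) (c (b (l 16776376) (l 135526312599)) (b (l 16776376) (l 138210666327))))) (b (b (l 16772368) (c (l 83986725239) (a (l 16776032) (l 16763152)))) (c (l 275112767767) (l 276186528839)))) (a (c (l 301956309911) (l 300345682647)) (l 4)))) (b (a (b (a (c (c (l 260617261095) (l 260617265831)) (b (a (l 16776776) (l 138210666439)) (l 297661343815))) (l 4)) (l 4)) (l 4)) (l 4))) (l 4)) (l 4)), by decide +kernel⟩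

def k14_pp_022_t : ∃ t, chk3 f_pp_022_t t 32 62 1 = true :=
  ⟨(a (b (a (a (b (b (l 16629272) (l 14)) (l 14)) (b (b (l 16637552) (l 16646352)) (b (l 16655232) (l 14)))) (b (a (b (l 16645792) (l 16654576)) (b (l 16653984) (l 16662744))) (a (b (l 16663440) (l 16675024)) (b (l 16671600) (l 16683168))))) (a (l 14) (b (a (b (a (l 14) (l 16683512)) (l 14)) (b (a (l 16687584) (l 16691632)) (a (l 14) (l 16700816)))) (l 14)))) (b (a (b (a (b (l 16662112) (l 16670856)) (b (l 16670168) (l 16678888))) (a (b (l 16679688) (a (l 16686608) (l 16690624))) (b (l 16687696) (a (l 16694624) (l 16698600))))) (b (a (b (l 16678144) (l 16686840)) (b (l 16686040) (l 16694704))) (a (b (l 16695624) (a (l 16702552) (l 16706480))) (b (a (l 16701512) (l 16705400)) (a (l 16710384) (l 16714264)))))) (a (b (a (b (a (l 16695664) (l 16699672)) (a (l 16704848) (l 16708848))) (b (a (l 16703664) (l 16707624)) (a (l 16712832) (l 16716792)))) (a (b (a (l 16714176) (l 16719480)) (a (l 14) (b (l 16725264) (l 14))))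 (b (a (b (l 16719808) (l 16724504)) (b (l 16723760) (l 16728456))) (a (b (l 16729240) (l 16734024)) (b (l 16733192) (l 16737976)))))) (b (a (b (a (l 16711568) (l 16715488)) (a (l 16722040) (b (l 16722336) (l 16726944)))) (b (a (l 16719384) (l 16723248)) (c (a (l 16728648) (l 16732488)) (a (l 16728392) (l 16732256))))) (a (b (a (b (l 16727688) (l 16732384)) (b (l 16731592) (l 16736280))) (b (a (l 16737120) (l 16741016)) (a (l 16742552) (a (l 16744816) (l 16746760))))) (b (b (a (l 16735472) (l 16739320)) (a (l 16740152) (l 16745312))) (a (c (b (l 16744960) (l 16749720)) (b (l 16744800) (l 16749584))) (b (c (l 16748792) (l 16748656)) (c (l 16753552) (l 16753432)))))))))), by decide +kernel⟩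

def k15_pp_022_t : ∃ t, chk3 f_pp_022_t t 64 63 1 = true :=
  ⟨(l 14), by decide +kernel⟩

def k16_pp_022_t : ∃ t, chk3 f_pp_022_t t 65 252 1 = true :=
  ⟨(a (b (a (l 14) (a (b (l 16738848) (l 14)) (b (c (l 16742888) (l 16742712)) (c (l 16747744) (l 16747600))))) (l 14)) (b (a (b (a (c (l 16746792) (l 16746640)) (c (l 16750680) (l 16750544))) (a (c (b (l 16750432) (l 16752872)) (l 16751528)) (c (b (l 16754312) (l 16756752)) (l 16750184)))) (c (b (a (b (l 16753320) (l 16755736)) (b (l 16757144) (l 16759560))) (a (c (l 16754160) (l 16754120)) (c (l 16757976) (l 16757944)))) (b (a (l 16754416) (l 16753016)) (a (l 16754056) (c (l 16757912) (l 16757880)))))) (a (a (a (b (c (l 16755584) (l 16755480)) (l 14)) (b (c (l 16757536) (l 16757432)) (b (l 16761536) (l 14)))) (a (b (c (l 16759472) (l 16759384)) (c (b (l 16763184) (l 16765680)) (l 16759128))) (b (c (l 16758784) (l 16761328)) (c (c (l 16761128) (l 16761104)) (l 16761064))))) (b (b (a (c (l 16760432) (l 16762984)) (c (l 16764256)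 (l 16761584))) (c (a (l 16762240) (c (l 16764104) (l 16764088))) (a (l 16760224) (l 16764056)))) (a (c (c (b (l 16762768) (l 16765256)) (b (l 16762744) (l 16767864))) (b (l 16762712) (l 16766528))) (b (c (c (l 16766576) (l 16766568)) (l 16769168)) (c (a (l 16770736) (a (l 16769536) (l 51237610743))) (a (l 16768096) (b (l 16769376) (l 16773240)))))))))), by decide +kernel⟩

def k17_pp_022_t : ∃ t, chk3 f_pp_022_t t 65 253 1 = true :=
  ⟨(a (l 14) (b (a (a (l 14) (b (b (c (c (l 16763912) (l 16766520)) (l 16765832)) (a (l 14) (c (l 16770008) (l 16767368)))) (l 14))) (b (a (b (a (c (l 16769416) (l 16766768)) (c (l 16771328) (l 16768696))) (a (c (l 16771936) (l 16769296)) (b (c (b (l 16770280) (l 16774832)) (l 16773208)) (b (a (l 16774992) (a (c (l 16776976) (l 16776968)) (b (c (l 16777192) (l 16777192)) (l 4)))) (c (a (c (l 112977770215) (l 111367157479)) (a (l 157538058727) (l 4))) (a (a (l 16776696) (a (l 16777016) (l 16777328))) (l 272428433591))))))) (b (a (b (c (l 16769992)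 (l 16769976)) (b (c (l 16774856) (l 16773536)) (a (l 16775016) (a (c (l 16776984) (l 16776984)) (b (c (l 16777200) (l 16777200)) (l 4)))))) (b (b (a (l 16775032) (a (c (l 16776992) (l 16776992)) (b (c (l 16777208) (l 16777208)) (l 4)))) (a (a (l 16776072) (c (l 94187287879) (l 99555996967))) (c (l 191897797207) (l 277797142727)))) (b (a (a (a (c (l 16777136) (l 16777136)) (c (l 108145934791) (l 110293418439))) (l 4)) (l 4)) (l 4)))) (a (b (a (b (a (l 16775400) (a (c (l 16777032) (l 16777032)) (c (l 16777168) (l 16777168)))) (a (a (c (l 16777128) (l 16777128)) (c (l 103850967495) (l 105998451143))) (l 4))) (c (l 287460819223) (l 289608302871))) (l 4)) (l 4)))) (a (b (a (b (b (c (l 16774816) (l 16773504)) (a (l 16775304) (a (c (l 16776304) (l 16775648)) (b (c (l 16777184) (l 16777184)) (l 4))))) (a (l 14) (a (c (l 268133466311) (l 271891562695)) (l 4)))) (b (b (b (a (a (c (l 16777104) (l 16777104)) (l 4)) (l 4)) (c (l 273502175511) (l 277260271895))) (l 4)) (l 4))) (l 4)) (l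 4)))) (a (l 14) (l 4)))), by decide +kernel⟩

def k18_pp_022_t : ∃ t, chk3 f_pp_022_t t 65 127 1 = true :=
  ⟨(l 14), by decide +kernel⟩

def k19_pp_022_t : ∃ t, chk3 f_pp_022_t t 66 124 1 = true :=
  ⟨(a (b (a (b (l 16693840) (l 16702472)) (b (l 16701544) (a (l 16708224) (l 16712024)))) (a (b (a (l 16709272) (l 16713112)) (a (l 16718112) (l 16721936))) (a (b (l 16716920) (l 16725736)) (b (l 16720704) (l 16730816))))) (b (a (b (l 16709136) (c (l 16717840) (l 16717520))) (b (c (l 16716768) (l 16716448)) (a (l 16723264) (l 16726944)))) (a (b (a (l 16724464) (l 16728184)) (c (b (l 16733000) (l 16737408)) (l 16727128))) (a (b (l 16731880) (b (l 16738416) (l 16742824))) (b (l 16730296) (b (l 16742064) (l 16746456))))))), by decide +kernel⟩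

def k20_pp_022_t : ∃ t, chk3 f_pp_022_t t 66 250 1 = true :=
  ⟨(a (a (a (b (b (l 16724832) (l 16729352)) (b (l 16733912) (l 16738504))) (b (b (l 16728648) (l 16733160)) (b (l 16737712) (l 16742296)))) (b (a (b (l 16732432) (l 16736936)) (b (l 16736184) (l 16740680))) (c (b (l 16736888) (a (l 16746136) (l 16749864))) (a (l 16743688) (l 16736944))))) (b (b (a (a (l 16739912) (l 16743600)) (c (l 16749144) (l 16749008))) (a (c (l 16741080) (l 16746168)) (c (l 16747048) (l 16743000)))) (a (c (b (a (l 16748992) (l 16752656)) (c (l 16744928) (l 16744872))) (b (l 16740224) (l 16750040))) (c (b (c (l 16747632) (l 16747584)) (c (l 16757408) (l 16757368))) (a (l 16750608) (a (l 16750696) (l 16752496))))))), by decide +kernel⟩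

def k21_pp_022_t : ∃ t, chk3 f_pp_022_t t 132 251 1 = true :=
  ⟨(a (b (b (a (l 16743136) (l 16747416)) (c (a (l 16747888) (l 16751656)) (a (l 16747744) (l 16751536)))) (c (a (b (l 16752592) (l 16752104)) (b (l 16756360) (b (l 16759920) (l 16762304)))) (b (b (l 16747944) (l 16750320)) (a (l 16757248) (l 16755792))))) (b (c (a (b (l 16750752) (l 16755400)) (b (l 16754464) (l 16759112))) (b (a (l 16750624) (l 16754360)) (b (l 16750752) (l 16753096)))) (a (c (b (l 16754856) (c (l 16759616) (l 16759584))) (b (l 16760016) (l 16759544))) (c (b (l 16758560) (c (l 16763304) (l 16763288))) (b (l 16758496) (l 16763256)))))), by decide +kernel⟩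

def k22_pp_022_t : ∃ t, chk3 f_pp_022_t t 133 251 1 = true :=
  ⟨(b (a (c (b (c (l 16754752) (l 16753408)) (a (l 16757544) (l 16761192))) (b (b (l 16748256) (l 16755816)) (a (l 16762720) (l 16755896)))) (b (c (a (l 16760168) (l 16763752)) (b (l 16760768) (l 16763080))) (a (c (l 16764800) (l 16764768)) (a (c (l 16767480) (l 16762216)) (c (b (l 16773336) (l 16771704)) (b (l 16773320) (l 16770384))))))) (a (c (b (a (l 16762232) (l 16766520)) (b (a (l 16765776) (a (l 16763256) (l 53385092055))) (a (l 16768152) (b (a (l 16765040) (a (b (l 16776576) (l 16777032)) (b (l 71638713159) (l 4)))) (a (a (l 16765776) (b (l 16776824) (c (l 16777176) (l 16777176)))) (l 268670337399)))))) (b (a (l 16762184) (l 16765840)) (a (a (l 16766024) (l 16767856)) (b (a (l 16763240) (l 16770280)) (a (b (l 16765032) (a (l 16765768) (b (l 16776824) (c (l 16777176) (l 71638710519))))) (b (a (l 109756544071) (b (l 73786194183) (l 4))) (l 274575917415))))))) (b (a (b (c (l 16768296) (l 16763040)) (a (c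 (l 16764504) (l 16764496)) (b (c (l 16770920) (l 16770912)) (a (b (l 16775312) (c (l 16777056) (l 16777056))) (a (c (l 86134227847) (l 88281710183)) (l 4)))))) (b (a (b (l 16774320) (b (c (l 16771224) (l 16771224)) (a (l 16775328) (c (l 16777656) (l 77007422327))))) (a (b (c (l 16776840) (b (l 16776656) (l 16777072))) (c (l 201024602871) (l 343832263831))) (c (l 249879855415) (l 327726135847)))) (b (b (a (a (c (l 16777064) (l 16777064)) (l 4)) (l 4)) (c (l 281018368567) (l 350274714359))) (l 4)))) (b (a (a (b (a (l 16775160) (c (b (l 16776856) (l 72712454999)) (b (l 16776856) (l 74859933399)))) (a (b (c (l 16777048) (l 16777048)) (c (l 161296155271) (l 164517380743))) (l 4))) (c (l 290145174055) (l 292292657703))) (l 4)) (l 4))))), by decide +kernel⟩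

def k23_pp_022_t : ∃ t, chk3 f_pp_022_t t 67 124 1 = true :=
  ⟨(b (a (a (b (c (l 16724096) (l 16723824)) (c (l 16724656) (l 16732296))) (b (c (l 16731296) (l 16731064)) (c (l 16729184) (l 16739488)))) (a (b (c (l 16738352) (l 16738168)) (c (l 16738808) (l 16736048))) (b (c (l 16734784) (l 16745120)) (c (b (l 16751448) (l 16755608)) (l 16742936))))) (a (a (b (c (a (l 16739256) (l 16742840)) (l 16733016)) (c (c (l 16739264) (l 16739200)) (c (l 16739136) (l 16739072)))) (b (c (c (l 16737704) (l 16737632)) (l 16737536)) (a (c (l 16749776) (l 16744432)) (c (l 16753264) (l 16747936))))) (b (a (c (c (l 16744648) (l 16744592)) (l 16747144)) (c (b (l 16749312) (l 16753536)) (a (l 16749664) (l 16753040)))) (a (c (b (l 16751032) (l 16760592)) (b (l 16750960) (l 16755296))) (b (c (l 16763032) (l 16757752)) (a (c (l 16760408) (l 16760384)) (c (b (l 16762664) (l 66269993383)) (b (l 16752160) (b (l 16753784) (l 42647664455)))))))))), by decide +kernel⟩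

def k24_pp_022_t : ∃ t, chk3 f_pp_022_t t 134 250 1 = true :=
  ⟨(c (b (a (b (l 16751056) (c (l 16750272) (l 16750240))) (b (c (l 16752848) (l 16752816)) (c (l 16757264) (l 16762480)))) (a (a (b (l 16763448) (l 16762728)) (b (l 16756488) (l 16766248))) (b (a (l 16759976) (b (l 16762312) (b (l 16763984) (l 66269994967)))) (a (b (l 16763352) (a (l 16764744) (a (l 96871640327) (b (l 16776744) (l 156464317319))))) (b (a (a (l 16765488) (b (l 16776288) (l 57143193527))) (a (l 270280947095) (l 329336746455))) (l 325578648343)))))) (b (a (a (l 16746160) (l 16749720)) (b (l 16758016) (l 16762456))) (b (a (l 16758608) (a (l 16759944) (a (l 16762552) (l 49090121511)))) (a (a (l 16757448) (l 16760976)) (a (b (l 16763336) (a (l 16764736) (a (l 94187285767) (b (l 16776744) (l 155390575527))))) (b (a (b (l 16765368) (a (l 16776528) (l 260617271703))) (b (l 265985979975) (l 4))) (l 322894293671))))))), by decide +kernel⟩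

def k25_pp_022_t : ∃ t, chk3 f_pp_022_t t 135 250 1 = true :=
  ⟨(b (a (a (b (c (l 16758000) (l 16768448)) (c (l 16767640) (c (l 16762384) (l 16762376)))) (b (c (l 16761392) (l 16761368)) (a (a (c (l 16769744) (l 16764496)) (b (l 16769496) (b (l 16773768) (c (l 267596593703) (l 66806864759))))) (c (b (l 16770704) (l 289608298471)) (b (l 16770696) (l 289608299127)))))) (b (a (a (c (l 16763912) (l 16763896)) (b (l 16772352) (a (b (l 16770952) (c (l 16776984) (l 16776936))) (c (l 260080399975) (b (l 16776896) (l 224646922967)))))) (b (a (a (c (l 16776184) (l 16765696)) (b (l 16773872) (c (l 16776240) (l 78618035319)))) (c (l 290682038759) (l 290682036855))) (c (l 320209932327) (l 318062444263)))) (a (b (a (b (c (a (l 16776664) (l 16776440)) (a (l 16776664) (l 67343746215))) (c (l 158074929095) (l 307861907159))) (l 4)) (l 4)) (l 4)))) (a (b (a (b (b (c (l 68417478727) (l 64659382327)) (a (l 16774600) (c (l 266522851271) (a (l 16776992) (l 188139701031))))) (b (a (c (a (l 16776576)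 (l 262227884583)) (a (l 16776576) (l 265449109879))) (l 4)) (c (l 319673068007) (l 317525580487)))) (a (c (l 334168578615) (l 321820552615)) (l 4))) (l 4)) (l 4))), by decide +kernel⟩

def k26_pp_022_t : ∃ t, chk3 f_pp_022_t t 67 251 1 = true :=
  ⟨(a (b (a (b (a (c (l 16767296) (a (l 16761144) (l 16762912))) (a (a (c (l 16769488) (l 16764232)) (b (l 16771832) (a (c (l 45868902775) (l 42647666487)) (b (l 16771152) (c (l 16777128) (l 77544293287)))))) (b (c (l 16770496) (l 16770488)) (a (b (c (l 16776904) (l 16776904)) (l 356717164775)) (c (l 329873619975) (l 326652391223)))))) (a (b (b (c (l 61438156103) (l 16772760)) (a (l 16773064) (a (c (l 16776872) (l 16776872)) (c (l 125325803255) (c (l 138210706359) (l 131231383255)))))) (a (b (b (c (l 16771264) (l 16771264)) (a (l 53921969191) (c (l 16777224) (l 90966065991)))) (a (c (a (l 16777104) (l 137673835287)) (l 277260269671)) (l 4))) (b (l 358327778167) (l 4)))) (b (a (c (c (l 239142435879) (l 307325041623)) (l 316451844311))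 (l 4)) (l 4)))) (b (a (b (a (a (b (c (l 16776488) (l 16776480)) (b (c (l 16777096) (l 16776920)) (l 254711693751))) (c (l 286923944343) (l 290145170679))) (l 4)) (l 4)) (l 4)) (l 4))) (l 4)) (l 4)), by decide +kernel⟩

def k27_pp_022_t : ∃ t, chk3 f_pp_022_t t 132 504 1 = true :=
  ⟨(a (a (c (b (c (l 16756920) (l 16756880)) (c (l 16761760) (l 16762392))) (b (l 16756832) (a (l 16760752) (l 16762648)))) (b (c (c (l 16760672) (l 16760648)) (l 16760608)) (a (c (l 16765880) (l 16764536)) (c (l 16767752) (l 16766416))))) (b (a (c (c (l 16764400) (l 16764384)) (l 16765008)) (b (c (l 16766880) (l 16766856)) (c (a (l 16768368) (l 52311351351)) (a (l 16763104) (l 16772808))))) (a (b (c (l 16770632) (l 16768000)) (a (c (l 16769520) (l 16769512)) (b (c (l 16773368) (l 16770744)) (a (c (c (l 16775376) (l 100629738215)) (c (l 99019125479) (l 98482254567))) (b (a (c (l 16777064) (l 16777064)) (c (l 16777424) (l 146800640503))) (l 4)))))) (b (a (a (c (l 16770328) (l 16765072)) (b (l 16773256)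 (b (c (l 16776760) (l 16776760)) (a (c (l 16777072) (l 16777072)) (c (l 16777264) (l 16777264)))))) (b (a (c (l 104924705575) (l 102240351015)) (b (a (c (l 16777088) (l 16777088)) (c (l 16777272) (l 16777272))) (l 4))) (b (c (l 253637951735) (l 257396048119)) (l 4)))) (a (b (b (a (c (a (l 16776840) (l 16777152)) (a (l 16776840) (l 16777152))) (l 4)) (c (l 249879854039) (l 255785432743))) (l 4)) (l 4)))))), by decide +kernel⟩

def k28_pp_022_t : ∃ t, chk3 f_pp_022_t t 264 505 1 = true :=
  ⟨(a (a (c (b (c (l 16765712) (l 16765696)) (b (l 16769416) (b (a (l 16770808) (a (l 90966062519) (b (l 16776896) (l 111904031271)))) (a (b (a (l 16776744) (l 100629741463)) (a (c (l 16777176) (l 16777176)) (l 4))) (l 291755786535))))) (b (l 16765672) (b (l 16769400) (b (a (l 16770800) (a (l 16775408) (b (l 16776888) (l 114051514919)))) (a (b (a (l 16776744) (l 105998450551)) (a (a (l 16777144) (l 16777408)) (l 4))) (l 293903270183)))))) (b (b (c (l 16771600) (l 16771576)) (c (l 16768824)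 (l 16768808))) (b (b (c (l 52848223207) (l 16773280)) (a (b (l 16775064) (a (l 50163872967) (c (l 16777104) (l 16777104)))) (b (a (c (l 16777016) (l 16777016)) (c (l 115125256743) (l 117809611303))) (c (l 221425697303) (l 295513882823))))) (b (b (a (a (c (c (l 16777184) (l 16777184)) (c (l 16777184) (l 66806873399))) (l 4)) (l 4)) (l 4)) (l 4))))) (b (b (c (a (l 16768240) (b (l 16769496) (l 16773328))) (a (l 16768216) (l 16772712))) (a (b (c (l 16770080) (l 16770072)) (a (l 16774776) (a (c (l 16775432) (l 16775432)) (c (b (l 16776920) (l 115662127671)) (b (l 16776920) (l 137136964071)))))) (a (b (b (l 16775104) (a (l 61438162839) (c (l 16777120) (l 16777120)))) (a (b (c (l 69491229287) (l 71101842023)) (l 4)) (l 4))) (b (b (a (c (l 16777040) (l 16777040)) (c (l 138747576807) (l 141431931367))) (c (l 246121759175) (l 247732371911))) (l 4))))) (b (a (b (a (b (a (l 58216937335) (c (l 16777112) (l 16777112))) (a (c (l 66270002503) (l 67880615239)) (l 4))) (c (l 299271979303)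 (l 301419462951))) (l 4)) (l 4)) (l 4)))), by decide +kernel⟩

def k29_pp_022_t : ∃ t, chk3 f_pp_022_t t 265 505 1 = true :=
  ⟨(b (a (b (a (a (b (l 16774816) (b (c (a (l 16776808) (l 16777136)) (a (l 16776808) (l 16777128))) (a (c (l 16777528) (l 71638712951)) (l 4)))) (b (b (c (l 16776728) (l 16776728)) (a (c (l 16777048) (l 16777048)) (c (l 139284447735) (l 142505673207)))) (c (l 304103817527) (l 306788172087)))) (b (a (c (b (c (l 105461580599) (l 105998450855)) (l 4)) (l 246658629815)) (l 4)) (l 4))) (l 4)) (l 4)) (l 4)), by decide +kernel⟩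

def k30_pp_022_t : ∃ t, chk3 f_pp_022_t t 133 252 1 = true :=
  ⟨(b (a (b (a (b (a (c (l 16769632) (l 16764376)) (b (c (l 16770832) (l 16770824)) (a (c (l 108682802183) (l 105998447623)) (a (b (c (l 16777104) (l 16777104)) (l 4)) (c (l 218741342791) (l 220351955527)))))) (a (b (a (l 16774904) (c (b (l 16776792) (c (l 16777160) (l 67880616727))) (a (l 16776832) (b (l 16777000) (l 16777272))))) (a (b (c (l 16777000) (l 16777000)) (c (l 124252062471) (l 126936417031))) (l 4))) (a (c (l 268133466503) (l 271891562887)) (l 4)))) (b (a (b (a (b (c (l 16777024) (l 16777024)) (c (l 141968802503) (l 145190027975))) (l 4)) (l 4)) (l 4)) (l 4))) (l 4)) (l 4)) (l 4)), by decide +kernel⟩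

def k31_pp_022_t : ∃ t, chk3 f_pp_022_t t 66 253 1 = true :=
  ⟨(l 4), by decide +kernel⟩

def k32_pp_022_t : ∃ t, chk3 f_pp_022_t t 67 126 1 = true :=
  ⟨(l 4), by decide +kernel⟩

def k33_pp_022_t : ∃ t, chk3 f_pp_022_t t 33 127 1 = true :=
  ⟨(l 4), by decide +kernel⟩

def k34_pp_022_t : ∃ t, chk3 f_pp_022_t t 68 248 1 = true :=
  ⟨(a (a (b (c (l 16741552) (l 16741440)) (c (c (l 16749760) (l 16749728)) (l 16752296))) (b (c (l 16750776) (l 16748080)) (c (b (l 16754240) (l 16758336)) (b (l 16754192) (l 16758304))))) (b (a (c (c (l 16754608) (l 16754584)) (l 16754552)) (b (c (l 16758888) (l 16758856)) (b (c (l 16761856) (l 16761840)) (a (l 16770160) (a (l 16769856) (c (l 16776472) (l 16765976))))))) (a (a (c (l 16761080) (l 16761056)) (b (c (l 16762200) (l 16751696)) (b (a (l 16769696) (c (l 16776368) (l 16765880))) (a (c (b (l 16776424) (l 57143188759)) (a (l 16776496) (l 134452601735))) (b (c (l 134452610359) (l 132305126775)) (l 4)))))) (a (a (c (b (l 16764512) (l 289071428151))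 (b (l 16764504) (l 289071425751))) (b (b (l 16772936) (c (l 254174819271) (b (l 16776864) (l 161296155767)))) (l 4))) (b (b (a (b (c (l 16776528) (l 16776528)) (c (l 65733123399) (l 269744076935))) (c (l 174717929079) (l 296587611607))) (l 4)) (l 4)))))), by decide +kernel⟩

def k35_pp_022_t : ∃ t, chk3 f_pp_022_t t 68 249 1 = true :=
  ⟨(b (a (c (a (a (l 16756416) (l 16764944)) (b (a (l 16760856) (c (l 16764008) (l 51774471335))) (a (b (l 16763976) (b (l 45868888967) (a (l 16776256) (c (l 99556001255) (l 108145935751))))) (a (a (b (l 16776392) (l 242900534151)) (c (l 275649651879) (l 275649656327))) (l 303030059799))))) (a (a (l 16756376) (a (l 16758848) (l 16760488))) (b (a (l 16750344) (a (l 16752760) (b (l 16774296) (l 16765776)))) (a (b (l 16753480) (b (l 42647663159) (a (l 16776248) (a (l 16776128) (l 4))))) (b (a (b (l 16776304) (l 134452602343)) (l 293366388679)) (l 323431149207)))))) (a (b (a (b (a (c (l 16775864) (l 16765368)) (c (l 247195497351) (b (l 16776776)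 (l 117809575543)))) (c (l 285850203239) (b (l 278870880999) (l 322357410871)))) (l 4)) (l 4)) (l 4))) (a (a (a (b (c (l 16762752) (l 16762736)) (b (b (c (l 56606311575) (l 42647664247)) (a (c (l 16776144) (l 16776136)) (a (c (l 16766224) (l 16776576)) (l 4)))) (a (c (b (a (l 16776752) (l 16776024)) (l 174181057719)) (a (b (l 16776752) (l 163443639111)) (l 297124488343))) (l 4)))) (b (b (a (l 16772000) (c (l 16768296) (l 16768288))) (c (a (b (l 16776200) (c (l 16776920) (l 16777560))) (l 292292650039)) (a (a (l 16776288) (b (l 16776592) (l 16777376))) (l 292292648199)))) (c (l 330947341687) (l 326652368551)))) (b (a (b (a (c (a (l 132841991383) (l 144653155223)) (l 270817818151)) (l 4)) (l 4)) (l 4)) (l 4))) (l 4))), by decide +kernel⟩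

def k36_pp_022_t : ∃ t, chk3 f_pp_022_t t 69 124 1 = true :=
  ⟨(a (a (b (b (a (b (c (l 16763488) (l 16763472)) (c (a (b (l 16776112) (a (l 87207938935) (l 243974276007))) (l 277260267703)) (b (a (l 16776104) (a (l 134452583911) (l 127473288711))) (l 287460803335)))) (b (a (b (l 16770016) (b (c (l 16776632) (l 16776632)) (c (l 82376132103) (l 137136934759)))) (b (c (l 16776568) (l 16766080)) (a (l 330410491335) (l 4)))) (l 4))) (l 4)) (l 4)) (b (b (a (a (b (c (l 289608285815) (l 289608283591)) (l 4)) (l 4)) (l 4)) (l 4)) (l 4))) (l 4)), by decide +kernel⟩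

def k37_pp_022_t : ∃ t, chk3 f_pp_022_t t 34 125 1 = true :=
  ⟨(l 4), by decide +kernel⟩

def k38_pp_022_t : ∃ t, chk3 f_pp_022_t t 35 62 1 = true :=
  ⟨(l 4), by decide +kernel⟩

def k39_pp_022_t : ∃ t, chk3 f_pp_022_t t 17 63 1 = true :=
  ⟨(l 4), by decide +kernel⟩

def k40_pp_022_t : ∃ t, chk3 f_pp_022_t t 18 28 1 = true :=
  ⟨(a (b (a (b (l 16569608) (l 16599424)) (b (l 16565488) (a (l 16605920) (l 16617576)))) (a (b (l 16631776) (b (l 16657424) (l 16675080))) (b (a (l 16634328) (l 16642800)) (a (l 16664904) (l 16670512))))) (b (a (b (a (l 16611032) (l 16627984)) (a (l 16633840) (l 16651288))) (b (a (l 16642480) (l 16654072)) (a (l 16665896) (l 16677568)))) (a (b (a (l 16657344) (l 16652600)) (a (b (l 16675336) (l 16688136)) (b (l 16690344) (l 16701808)))) (b (a (l 16688616) (l 16679344)) (a (b (l 16704872) (l 16694080)) (c (l 16700888) (l 16700688))))))), by decide +kernel⟩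

def k41_pp_022_t : ∃ t, chk3 f_pp_022_t t 36 29 1 = true :=
  ⟨(b (a (b (a (l 16685344) (l 16678416)) (b (l 16697696) (a (l 16726968) (l 16720464)))) (b (a (l 16676216) (b (l 16692520) (l 16707504))) (a (b (l 16721536) (l 16737384)) (b (l 16722320) (l 16715888))))) (b (a (b (a (l 16722576) (l 16715720)) (a (l 16720704) (l 16712792))) (b (a (l 16733040) (b (l 16747568) (l 16754624))) (a (b (l 16725416) (l 16725000)) (c (l 16734896) (l 16734992))))) (a (b (a (b (l 16722344) (l 16724872)) (b (l 16734864) (l 16737024))) (a (c (l 16709816) (l 16709584)) (c (l 16731840) (l 16721200)))) (b (a (b (a (l 16743664) (l 16749352)) (l 16727288)) (b (c (l 16735672) (l 16735688)) (c (l 16737472) (l 16737456)))) (a (c (c (l 16731992) (l 16731944)) (b (l 16751048) (l 16754880))) (a (b (l 16758584) (l 16751616)) (c (l 16754344) (l 16754320)))))))), by decide +kernel⟩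

def k42_pp_022_t : ∃ t, chk3 f_pp_022_t t 37 58 1 = true :=
  ⟨(a (b (a (b (l 16701400) (l 16714888)) (b (l 16712976) (l 16703848))) (a (b (l 16707256) (l 16725584)) (b (l 16726040) (a (l 16725368) (l 16728744))))) (b (a (b (l 16704304) (c (l 16714832) (l 16714584))) (b (l 16715712) (a (l 16743208) (l 16727160)))) (a (b (c (l 16724248) (l 16724048)) (a (l 16732160) (l 16735592))) (b (c (l 16733104) (l 16733024)) (a (l 16749496) (c (l 16763392) (l 16763352))))))), by decide +kernel⟩

def k43_pp_022_t : ∃ t, chk3 f_pp_022_t t 37 59 1 = true :=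
  ⟨(b (a (a (b (b (l 16729992) (l 16746832)) (a (b (l 16759976) (l 16760488)) (b (l 16761480) (l 16762376)))) (b (b (l 16745992) (a (l 16760896) (l 16763240))) (b (a (l 16763032) (l 16764712)) (a (l 16743368) (l 16755968))))) (a (b (b (a (l 16760624) (l 16763368)) (c (l 16745000) (l 16745048))) (a (b (l 16766552) (l 16764808)) (c (l 16767192) (l 16764568)))) (b (a (c (l 16746544) (l 16746568)) (c (l 16758792) (l 16758800))) (a (c (b (l 16770856) (l 16773992)) (b (l 16770856) (l 16773984))) (a (b (l 16772720) (c (l 16776048) (l 16755072))) (b (l 16768816) (c (l 107609008087) (l 106535266007)))))))) (a (c (a (b (a (l 16741880) (l 16754824)) (a (b (l 16766960) (l 16749480)) (b (l 16769960) (l 16763392)))) (a (b (l 16761976) (b (l 16773088) (b (l 50700718151) (a (l 16754016) (l 4))))) (b (b (l 16769024) (l 16751400)) (b (b (l 16775288) (a (l 16776464) (l 16754920))) (l 260617232951))))) (a (b (a (l 16741888) (l 16754824)) (a (b (l 16766944) (l 16749456)) (b (l 16769944) (l 16763384))))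 (a (b (l 16761312) (b (l 16773072) (b (l 49626975991) (l 231626229559)))) (b (b (l 16769016) (l 16751384)) (b (b (l 16775280) (a (l 16776464) (l 16754688))) (l 259543489671)))))) (b (a (a (a (c (l 16767544) (l 16767528)) (b (l 16767216) (c (l 16755112) (l 16755104)))) (c (b (l 16774648) (b (l 114051464679) (l 267059692103))) (b (l 16774640) (b (l 114051464215) (l 265985949159))))) (b (a (b (c (l 16758192) (l 16755568)) (c (l 112977705719) (l 112977704999))) (l 4)) (l 4))) (a (a (a (b (c (l 118883284823) (l 234847448615)) (l 4)) (l 4)) (l 4)) (l 4))))), by decide +kernel⟩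

def k44_pp_022_t : ∃ t, chk3 f_pp_022_t t 19 28 1 = true :=
  ⟨(a (b (a (b (a (l 16661976) (l 16667184)) (a (l 16685504) (l 16690664))) (b (a (l 16671936) (l 16676976)) (c (l 16677368) (l 16677088)))) (a (b (a (l 16687248) (l 16692344)) (a (b (l 16724408) (l 16713688)) (c (l 16713632) (l 16713536)))) (b (a (l 16697160) (l 16702584)) (a (c (l 16718304) (l 16718208)) (c (l 16723552) (l 16723464)))))) (b (a (b (a (l 16682048) (l 16687176)) (b (l 16682152) (l 16694144))) (b (a (l 16692520) (l 16698488)) (c (l 16700192) (l 16699960)))) (a (b (a (l 16708384) (l 16714456)) (b (a (l 16745328) (l 16751600)) (a (l 16734304) (l 16740584)))) (b (a (l 16720720) (l 16727656)) (a (b (l 16737184) (l 16747344)) (b (l 16744440) (c (l 16733688) (l 16775624)))))))), by decide +kernel⟩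

def k45_pp_022_t : ∃ t, chk3 f_pp_022_t t 19 29 1 = true :=
  ⟨(a (b (a (b (a (b (l 16723448) (l 16742944)) (b (l 16728288) (l 16737200))) (a (b (a (l 16738824) (l 16761752)) (a (c (l 16765504) (l 16765504)) (b (l 16765728) (l 16758360)))) (b (c (l 16744648) (l 16765600)) (c (l 16750248) (l 16750232))))) (b (a (b (l 16732816) (l 16741616)) (b (l 16737920) (l 16746600))) (b (a (c (l 16749248) (l 16749248)) (c (b (l 16773336) (l 16739816)) (l 16738528))) (a (a (c (l 16748840) (l 16754080)) (b (l 16755104) (a (l 133378793671) (l 4)))) (a (c (l 276186477863) (l 275112734519)) (l 4)))))) (b (a (b (a (a (c (l 16766064) (l 16766056)) (b (l 16766824) (c (l 16754416) (l 16754408)))) (a (b (l 16764224) (c (a (l 16753096) (l 134452531015)) (l 96871563143))) (b (c (l 16743104) (l 16732544)) (l 4)))) (a (b (a (c (b (l 16775280) (l 16755824)) (l 52311314823)) (b (c (l 103314035127) (l 101166550327)) (l 4))) (a (c (l 271891523015) (l 271354650807)) (l 4))) (l 4))) (b (a (b (a (l 287460769687)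 (l 4)) (l 4)) (l 4)) (l 4))) (l 4))) (b (b (a (a (b (l 16743624) (c (l 16752240) (l 16773208))) (b (l 16760408) (c (b (l 16734552) (l 131768117415)) (l 74859795031)))) (b (a (c (l 77007307975) (l 16732200)) (b (l 128546888983) (l 4))) (l 4))) (a (b (a (b (a (l 16744536) (l 132841893383)) (l 4)) (l 4)) (l 4)) (l 4))) (l 4))), by decide +kernel⟩

def k46_pp_022_t : ∃ t, chk3 f_pp_022_t t 36 120 1 = true :=
  ⟨(b (b (c (a (a (l 16738808) (l 16749768)) (a (l 16738800) (l 16758280))) (a (a (l 16738616) (l 16749632)) (a (l 16738720) (c (l 16747776) (l 16747760))))) (a (a (c (l 16745024) (l 16744872)) (c (l 16734616) (l 16734520))) (a (c (l 16744208) (l 16744160)) (a (c (l 16750736) (l 16750712)) (a (c (l 16774696) (l 16774688)) (b (l 49090125559) (c (l 126936378775) (l 128546991239)))))))) (b (c (a (a (l 16730272) (l 16740440)) (a (l 38889557079) (a (a (l 48553232951) (b (l 16776328) (l 129620718775))) (b (l 241289898039) (l 4))))) (a (a (l 16751128) (l 16740376)) (a (l 16760088)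 (a (b (l 16764904) (a (l 16755736) (l 247732352055))) (l 243974241063))))) (a (a (c (l 16736384) (l 16736296)) (c (l 16756648) (l 16756616))) (a (c (a (l 16768496) (b (a (l 16775584) (l 128010121559)) (l 243974254375))) (a (l 16763248) (b (a (l 16775576) (l 129620733783)) (l 245047995287)))) (l 4))))), by decide +kernel⟩

def k47_pp_022_t : ∃ t, chk3 f_pp_022_t t 36 121 1 = true :=
  ⟨(a (b (a (c (a (l 16753400) (c (l 16747776) (l 16758248))) (a (l 16753352) (l 16758224))) (b (a (c (l 16749536) (l 16749512)) (a (c (l 16752880) (l 16752872)) (b (l 16769416) (c (l 128546993527) (l 130694476807))))) (a (b (c (l 16764200) (l 16764192)) (c (a (l 16765744) (l 130694459863)) (a (l 16765744) (l 250416710855)))) (b (a (c (l 129620726807) (l 131768210087)) (l 4)) (l 4))))) (a (a (c (b (l 16767576) (b (a (l 16775960) (b (l 130694480375) (l 4))) (l 263301597303))) (b (l 16762320) (b (a (l 16765472) (l 250953584103)) (l 263838466487)))) (b (b (b (c (l 16775200) (l 16754224)) (a (l 16772952)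 (c (l 16758456) (l 132305091495)))) (a (c (c (l 130157598727) (l 130694469175)) (a (l 16761080) (l 133378824263))) (l 4))) (l 4))) (b (a (a (c (l 274039010567) (l 272965266903)) (l 4)) (l 4)) (l 4)))) (b (a (b (a (c (b (a (l 16765992) (l 130157589079)) (l 270817787191)) (b (a (l 16765992) (l 249342966823)) (l 269744043799))) (l 4)) (l 4)) (l 4)) (l 4))), by decide +kernel⟩

def k48_pp_022_t : ∃ t, chk3 f_pp_022_t t 37 60 1 = true :=
  ⟨(a (b (b (a (b (c (a (b (l 16773624) (l 50163850583)) (b (a (l 16776208) (l 124252022087)) (l 241289895975))) (a (b (l 16773616) (l 49090108759)) (b (a (l 16776208) (l 125862634471)) (l 241826765943)))) (a (b (a (c (l 16755488) (l 16755464)) (c (l 138210653495) (l 255785413879))) (l 4)) (l 4))) (l 4)) (l 4)) (l 4)) (l 4)), by decide +kernel⟩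

def k49_pp_022_t : ∃ t, chk3 f_pp_022_t t 18 61 1 = true :=
  ⟨(l 4), by decide +kernel⟩

def k50_pp_022_t : ∃ t, chk3 f_pp_022_t t 18 31 1 = true :=
  ⟨(l 4), by decide +kernel⟩

def k51_pp_022_t : ∃ t, chk3 f_pp_022_t t 19 15 1 = true :=
  ⟨(l 4), by decide +kernel⟩

def k52_pp_022_t : ∃ t, chk3 f_pp_022_t t 10 6 1 = true :=
  ⟨(b (a (b (a (b (l 16363216) (l 16404424)) (b (l 16352064) (l 16400192))) (a (b (l 16440304) (a (l 16471440) (l 16473640))) (b (l 16442960) (a (l 16478360) (l 16485728))))) (b (a (b (l 16351312) (l 16406368)) (b (l 16361352) (l 16423344))) (a (b (l 16456136) (a (l 16495824) (l 16508712))) (b (l 16480248) (a (l 16524416) (l 16542936)))))) (a (b (a (b (a (l 16508608) (l 16514080)) (a (l 16535096) (l 16564696))) (b (a (l 16522160) (l 16532952)) (a (l 16576032) (l 16590200)))) (a (b (a (b (l 16596128) (l 16624104)) (b (l 16607032) (l 16636448))) (a (b (l 16652536) (l 16659968)) (b (l 16666280) (l 16675032)))) (b (a (b (l 16620736) (l 16651680)) (b (l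 16637384) (l 16669928))) (a (b (l 16682984) (l 16693160)) (b (l 16681824) (l 16714488)))))) (b (a (b (a (l 16546568) (l 16563064)) (a (l 16586336) (l 16606440))) (b (a (l 16582472) (l 16604800)) (a (l 16608616) (l 16613840)))) (a (b (a (b (l 16657064) (l 16691296)) (b (l 16679864) (l 16694896))) (a (b (l 16704848) (a (l 16732656) (l 16744824))) (b (l 16709928) (a (l 85060352711) (l 232163011191))))) (b (a (a (l 16675648) (l 16689880)) (b (l 16713968) (a (l 16744040) (l 16725736)))) (b (a (a (l 74323017703) (l 125862525271)) (l 4)) (l 4))))))), by decide +kernel⟩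

def k53_pp_022_t : ∃ t, chk3 f_pp_022_t t 11 6 1 = true :=
  ⟨(b (a (b (a (b (l 16382088) (l 16451056)) (b (l 16412944) (l 16488920))) (a (b (l 16473312) (a (l 16564240) (l 16588256))) (b (l 16518656) (a (l 16614896) (l 16644032))))) (b (a (b (l 16451224) (l 16535880)) (b (l 16502152) (l 16527632))) (a (b (l 16531344) (a (l 16654536) (l 16667192))) (b (a (l 16661432) (l 16673232)) (a (b (l 16723312) (l 16761208)) (b (l 16755960) (l 16766808))))))) (a (b (a (b (a (l 16630016) (l 16637080)) (a (l 16643064) (b (l 16717472) (l 16715368)))) (b (a (l 16646888) (l 16638128)) (a (b (l 16729512) (l 167738525639)) (b (l 78081050759) (l 4))))) (b (a (a (b (b (l 16756544) (l 16730976)) (l 217667481815)) (b (l 187602729143) (l 4))) (l 4)) (l 4))) (b (b (a (a (b (l 16736240) (l 16728768)) (b (l 16745136) (l 16750336))) (a (l 154853603991) (l 4))) (l 4)) (l 4)))), by decide +kernel⟩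

def k54_pp_022_t : ∃ t, chk3 f_pp_022_t t 5 7 1 = true :=
  ⟨(b (a (b (a (a (b (a (b (l 16687792) (a (l 16731584) (l 16718584))) (b (l 16704120) (a (l 16727336) (l 16736888)))) (a (b (a (l 16735360) (l 60364356967)) (b (a (l 16741848) (b (l 16725744) (l 4))) (a (b (l 78081048695) (l 4)) (l 4)))) (b (b (a (l 16767856) (l 16732712)) (a (l 79154784791) (l 4))) (l 4)))) (b (a (b (l 16702640) (a (l 60901207639) (b (l 16771784) (l 16704504)))) (b (a (l 16740216) (l 84523503863)) (b (a (l 16715968) (l 4)) (l 4)))) (a (a (b (l 276186409655) (l 4)) (l 4)) (l 4)))) (b (a (b (a (a (b (l 16773560) (l 4)) (l 132841762535)) (l 4)) (l 4)) (l 4)) (l 4))) (l 4)) (l 4)) (l 4)), by decide +kernel⟩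

def k55_pp_022_t : ∃ t, chk3 f_pp_022_t t 3 1 1 = true :=
  ⟨(b (a (b (a (a (b (l 6) (a (b (l 6) (l 15606168)) (b (l 15439032) (l 15674248)))) (b (a (l 6) (b (l 6) (l 15349400))) (b (a (l 15512240) (l 15591576)) (a (l 15747936) (l 15827160))))) (a (b (a (l 15099816) (l 15274008)) (b (a (l 15676096) (l 15764872)) (a (l 15910968) (l 15998512)))) (a (b (l 15410504) (b (l 15857088) (l 16088984))) (l 2)))) (a (b (a (a (b (l 15829152) (l 16039304)) (b (l 15898328) (l 16109672))) (b (a (l 15972472) (l 16051560)) (a (l 16184392) (l 16263480)))) (a (a (b (l 16175624) (b (l 16382160) (l 16475456))) (b (l 16310344) (l 16355688))) (b (a (l 16343952) (l 16402336)) (a (b (l 16531752) (l 16626832)) (b (l 16611568) (a (l 16686776) (l 16726200))))))) (b (a (b (a (l 16134680) (l 16221008)) (a (l 16346056) (l 16410344))) (b (a (l 16309776) (l 16400304)) (a (l 16455624) (b (l 16556624) (l 16657504))))) (a (b (a (l 16442688) (b (l 16582856) (l 16675992))) (a (b (a (l 16673120) (l 16714584))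 (b (l 16733664) (l 16772944))) (b (b (l 16725848) (l 16771056)) (l 4)))) (a (b (b (l 16669096) (a (l 16740056) (l 16765008))) (l 96334702647)) (b (b (a (l 16731504) (l 16759976)) (l 16774296)) (l 4))))))) (b (l 2) (b (l 2) (b (l 2) (l 4))))) (b (b (a (a (a (b (a (a (l 16511368) (l 16548032)) (b (l 16621672) (b (l 16690768) (l 57679876215)))) (a (b (a (l 16665840) (b (l 16744688) (l 16772232))) (a (b (l 16771024) (l 4)) (l 4))) (b (a (l 78081098711) (l 4)) (l 4)))) (b (a (b (a (l 16679912) (l 16726704)) (a (l 90965950167) (l 16769544))) (b (a (l 16741808) (l 16772032)) (l 4))) (l 4))) (l 4)) (l 4)) (l 4)) (l 4))), by decide +kernel⟩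

theorem s56_pp_022_t : ∃ t, chk3 f_pp_022_t t 5 6 1 = true := ex3_a k52_pp_022_t k53_pp_022_t

theorem s57_pp_022_t : ∃ t, chk3 f_pp_022_t t 5 3 1 = true := ex3_b s56_pp_022_t k54_pp_022_t

theorem s58_pp_022_t : ∃ t, chk3 f_pp_022_t t 36 60 1 = true := ex3_b k46_pp_022_t k47_pp_022_t

theorem s59_pp_022_t : ∃ t, chk3 f_pp_022_t t 18 60 1 = true := ex3_a s58_pp_022_t k48_pp_022_t

theorem s60_pp_022_t : ∃ t, chk3 f_pp_022_t t 18 30 1 = true := ex3_b s59_pp_022_t k49_pp_022_t

theorem s61_pp_022_t : ∃ t, chk3 f_pp_022_t t 18 15 1 = true := ex3_b s60_pp_022_t k50_pp_022_t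

theorem s62_pp_022_t : ∃ t, chk3 f_pp_022_t t 9 15 1 = true := ex3_a s61_pp_022_t k51_pp_022_t

theorem s63_pp_022_t : ∃ t, chk3 f_pp_022_t t 19 14 1 = true := ex3_b k44_pp_022_t k45_pp_022_t

theorem s64_pp_022_t : ∃ t, chk3 f_pp_022_t t 37 29 1 = true := ex3_b k42_pp_022_t k43_pp_022_t

theorem s65_pp_022_t : ∃ t, chk3 f_pp_022_t t 18 29 1 = true := ex3_a k41_pp_022_t s64_pp_022_t

theorem s66_pp_022_t : ∃ t, chk3 f_pp_022_t t 18 14 1 = true := ex3_b k40_pp_022_t s65_pp_022_t

theorem s67_pp_022_t : ∃ t, chk3 f_pp_022_t t 9 14 1 = true := ex3_a s66_pp_022_t s63_pp_022_t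

theorem s68_pp_022_t : ∃ t, chk3 f_pp_022_t t 9 7 1 = true := ex3_b s67_pp_022_t s62_pp_022_t

theorem s69_pp_022_t : ∃ t, chk3 f_pp_022_t t 68 124 1 = true := ex3_b k34_pp_022_t k35_pp_022_t

theorem s70_pp_022_t : ∃ t, chk3 f_pp_022_t t 34 124 1 = true := ex3_a s69_pp_022_t k36_pp_022_t

theorem s71_pp_022_t : ∃ t, chk3 f_pp_022_t t 34 62 1 = true := ex3_b s70_pp_022_t k37_pp_022_t

theorem s72_pp_022_t : ∃ t, chk3 f_pp_022_t t 17 62 1 = true := ex3_a s71_pp_022_t k38_pp_022_t

theorem s73_pp_022_t : ∃ t, chk3 f_pp_022_t t 17 31 1 = true := ex3_b s72_pp_022_t k39_pp_022_t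

theorem s74_pp_022_t : ∃ t, chk3 f_pp_022_t t 132 505 1 = true := ex3_a k28_pp_022_t k29_pp_022_t

theorem s75_pp_022_t : ∃ t, chk3 f_pp_022_t t 132 252 1 = true := ex3_b k27_pp_022_t s74_pp_022_t

theorem s76_pp_022_t : ∃ t, chk3 f_pp_022_t t 66 252 1 = true := ex3_a s75_pp_022_t k30_pp_022_t

theorem s77_pp_022_t : ∃ t, chk3 f_pp_022_t t 66 126 1 = true := ex3_b s76_pp_022_t k31_pp_022_t

theorem s78_pp_022_t : ∃ t, chk3 f_pp_022_t t 33 126 1 = true := ex3_a s77_pp_022_t k32_pp_022_t

theorem s79_pp_022_t : ∃ t, chk3 f_pp_022_t t 33 63 1 = true := ex3_b s78_pp_022_t k33_pp_022_t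

theorem s80_pp_022_t : ∃ t, chk3 f_pp_022_t t 67 250 1 = true := ex3_a k24_pp_022_t k25_pp_022_t

theorem s81_pp_022_t : ∃ t, chk3 f_pp_022_t t 67 125 1 = true := ex3_b s80_pp_022_t k26_pp_022_t

theorem s82_pp_022_t : ∃ t, chk3 f_pp_022_t t 67 62 1 = true := ex3_b k23_pp_022_t s81_pp_022_t

theorem s83_pp_022_t : ∃ t, chk3 f_pp_022_t t 66 251 1 = true := ex3_a k21_pp_022_t k22_pp_022_t

theorem s84_pp_022_t : ∃ t, chk3 f_pp_022_t t 66 125 1 = true := ex3_b k20_pp_022_t s83_pp_022_t

theorem s85_pp_022_t : ∃ t, chk3 f_pp_022_t t 66 62 1 = true := ex3_b k19_pp_022_t s84_pp_022_t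

theorem s86_pp_022_t : ∃ t, chk3 f_pp_022_t t 33 62 1 = true := ex3_a s85_pp_022_t s82_pp_022_t

theorem s87_pp_022_t : ∃ t, chk3 f_pp_022_t t 33 31 1 = true := ex3_b s86_pp_022_t s79_pp_022_t

theorem s88_pp_022_t : ∃ t, chk3 f_pp_022_t t 65 126 1 = true := ex3_b k16_pp_022_t k17_pp_022_t

theorem s89_pp_022_t : ∃ t, chk3 f_pp_022_t t 65 63 1 = true := ex3_b s88_pp_022_t k18_pp_022_t

theorem s90_pp_022_t : ∃ t, chk3 f_pp_022_t t 32 63 1 = true := ex3_a k15_pp_022_t s89_pp_022_t

theorem s91_pp_022_t : ∃ t, chk3 f_pp_022_t t 32 31 1 = true := ex3_b k14_pp_022_t s90_pp_022_t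

theorem s92_pp_022_t : ∃ t, chk3 f_pp_022_t t 16 31 1 = true := ex3_a s91_pp_022_t s87_pp_022_t

theorem s93_pp_022_t : ∃ t, chk3 f_pp_022_t t 8 31 1 = true := ex3_a s92_pp_022_t s73_pp_022_t

theorem s94_pp_022_t : ∃ t, chk3 f_pp_022_t t 34 123 1 = true := ex3_a k11_pp_022_t k12_pp_022_t

theorem s95_pp_022_t : ∃ t, chk3 f_pp_022_t t 17 123 1 = true := ex3_a s94_pp_022_t k13_pp_022_t

theorem s96_pp_022_t : ∃ t, chk3 f_pp_022_t t 17 122 1 = true := ex3_b k9_pp_022_t k10_pp_022_t

theorem s97_pp_022_t : ∃ t, chk3 f_pp_022_t t 17 61 1 = true := ex3_b s96_pp_022_t s95_pp_022_t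

theorem s98_pp_022_t : ∃ t, chk3 f_pp_022_t t 17 30 1 = true := ex3_b k8_pp_022_t s97_pp_022_t

theorem s99_pp_022_t : ∃ t, chk3 f_pp_022_t t 16 61 1 = true := ex3_a k6_pp_022_t k7_pp_022_t

theorem s100_pp_022_t : ∃ t, chk3 f_pp_022_t t 16 30 1 = true := ex3_b k5_pp_022_t s99_pp_022_t

theorem s101_pp_022_t : ∃ t, chk3 f_pp_022_t t 8 30 1 = true := ex3_a s100_pp_022_t s98_pp_022_t

theorem s102_pp_022_t : ∃ t, chk3 f_pp_022_t t 8 15 1 = true := ex3_b s101_pp_022_t s93_pp_022_t

theorem s103_pp_022_t : ∃ t, chk3 f_pp_022_t t 8 14 1 = true := ex3_a k3_pp_022_t k4_pp_022_t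

theorem s104_pp_022_t : ∃ t, chk3 f_pp_022_t t 8 7 1 = true := ex3_b s103_pp_022_t s102_pp_022_t

theorem s105_pp_022_t : ∃ t, chk3 f_pp_022_t t 4 7 1 = true := ex3_a s104_pp_022_t s68_pp_022_t

theorem s106_pp_022_t : ∃ t, chk3 f_pp_022_t t 4 6 1 = true := ex3_a k1_pp_022_t k2_pp_022_t

theorem s107_pp_022_t : ∃ t, chk3 f_pp_022_t t 4 3 1 = true := ex3_b s106_pp_022_t s105_pp_022_t

theorem s108_pp_022_t : ∃ t, chk3 f_pp_022_t t 2 3 1 = true := ex3_a s107_pp_022_t s57_pp_022_t

theorem s109_pp_022_t : ∃ t, chk3 f_pp_022_t t 2 1 1 = true := ex3_b k0_pp_022_t s108_pp_022_t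

theorem s110_pp_022_t : ∃ t, chk3 f_pp_022_t t 1 1 1 = true := ex3_a s109_pp_022_t k55_pp_022_t

theorem c_pp_022_t : CertNE 0 536870912 0 536870912 1033476505 6710887 3 eng mog cd0q0 cd0q2 pd2 true true true .pp 0 2 2
    ndB0q0 ndB0q2 pcB2 cut_pp_022_t Ext.none :=
  certNE0 (fam := true) (s1 := true) (s2 := true) (a := 0) (b := 2) (c := 2) (cn := .pp) (n1 := ndB0q0) (n2 := ndB0q2) (pc := pcB2) (cut := cut_pp_022_t) (xt := Ext.none) (P1 := 0) (W1 := 536870912) (P2 := 0) (W2 := 536870912) (P3 := 1033476505) (W3 := 6710887) (N0 := 3) (En := eng) (mo := mog) (C1 := cd0q0) (C2 := cd0q2) (C3 := pd2)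
    rfl s110_pp_022_t

noncomputable def cut_pp_023_s : Cut := Cut.of [[⟨4, 0, 0, 1449551462⟩]]

noncomputable def f_pp_023_s : ℕ → ℕ → ℕ → ℕ → Bool := onCell 0 536870912 0 536870912 1033476505 6710887
    (rowNE 3 eng mog cd0q0 cd0q2 pd3 0 true true true .up 0 2 3 (qsf 0 536870912 0 536870912 3) ndB0q0 ndB0q2 pcB3 cut_pp_023_s Ext.none)

def k0_pp_023_s : ∃ t, chk3 f_pp_023_s t 1 1 1 = true :=
  ⟨(l 6), by decide +kernel⟩

theorem c_pp_023_s : CertNE 0 536870912 0 536870912 1033476505 6710887 3 eng mog cd0q0 cd0q2 pd3 true true true .up 0 2 3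
    ndB0q0 ndB0q2 pcB3 cut_pp_023_s Ext.none :=
  certNE0 (fam := true) (s1 := true) (s2 := true) (a := 0) (b := 2) (c := 3) (cn := .up) (n1 := ndB0q0) (n2 := ndB0q2) (pc := pcB3) (cut := cut_pp_023_s) (xt := Ext.none) (P1 := 0) (W1 := 536870912) (P2 := 0) (W2 := 536870912) (P3 := 1033476505) (W3 := 6710887) (N0 := 3) (En := eng) (mo := mog) (C1 := cd0q0) (C2 := cd0q2) (C3 := pd3)
    rfl k0_pp_023_s

noncomputable def cut_pp_023_t : Cut := Cut.of [[⟨3, 0, 0, 2845415833⟩]]

noncomputable def f_pp_023_t : ℕ → ℕ → ℕ → ℕ → Bool := onCell 1610612736 536870912 0 536870912 1033476505 6710887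
    (rowNE 3 eng mog cd0q0 cd0q2 pd3 2 true true true .up 0 2 3 (qsf 0 536870912 0 536870912 3) ndB0q0 ndB0q2 pcB3 cut_pp_023_t Ext.none)

def k0_pp_023_t : ∃ t, chk3 f_pp_023_t t 1 1 1 = true :=
  ⟨(a (b (a (a (b (b (a (a (b (l 15217680) (l 15500808)) (b (l 15334552) (l 15614568))) (a (l 15361808) (l 15523864))) (a (a (b (l 15782608) (l 16063304)) (b (l 15893176) (l 16170568))) (a (b (l 16005472) (l 16278784)) (b (l 16118640) (l 16366168))))) (b (a (b (a (l 16296456) (l 16379352)) (a (b (l 16540224) (a (l 16648168) (l 16697616))) (b (l 16636224) (a (l 16737520) (l 16763928))))) (b (a (b (l 16480296) (l 16591096)) (b (l 16584976) (a (l 16688768) (l 16732184)))) (a (b (a (l 16714632) (l 16749728)) (l 16774512)) (b (l 95260893015) (l 4))))) (a (b (a (b (b (l 16712008) (l 16774952)) (l 4)) (l 4)) (l 4)) (l 4)))) (b (a (b (a (l 15645040) (l 15745512)) (a (b (l 16231896) (l 16432008)) (b (l 16344528) (b (l 16537888) (l 16665240))))) (b (a (l 15845552) (l 15944632)) (b (a (l 16434968)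 (b (l 16504696) (l 16626808))) (a (b (l 16644352) (a (l 16734880) (l 16763808))) (b (l 16691488) (l 16771640)))))) (b (b (a (a (b (l 16666096) (a (l 16761368) (l 16774264))) (b (a (l 16749032) (l 16771184)) (l 4))) (l 4)) (l 4)) (l 4)))) (a (b (a (b (a (b (l 16194440) (l 16434784)) (b (l 16313480) (l 16545856))) (b (a (b (l 16613640) (l 16680744)) (b (l 16692064) (l 16728744))) (a (l 96334654247) (l 4)))) (b (l 2) (l 2))) (l 4)) (l 2))) (l 4)) (l 2)), by decide +kernel⟩

theorem c_pp_023_t : CertNE 0 536870912 0 536870912 1033476505 6710887 3 eng mog cd0q0 cd0q2 pd3 true true true .up 0 2 3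
    ndB0q0 ndB0q2 pcB3 cut_pp_023_t Ext.none :=
  certNE2 (fam := true) (s1 := true) (s2 := true) (a := 0) (b := 2) (c := 3) (cn := .up) (n1 := ndB0q0) (n2 := ndB0q2) (pc := pcB3) (cut := cut_pp_023_t) (xt := Ext.none) (P1 := 0) (W1 := 536870912) (P2 := 0) (W2 := 536870912) (P3 := 1033476505) (W3 := 6710887) (N0 := 3) (En := eng) (mo := mog) (C1 := cd0q0) (C2 := cd0q2) (C3 := pd3)
    rfl (fun _ => rfl) k0_pp_023_t

noncomputable def cut_pp_101_s : Cut := Cut.of [[⟨4, 0, 0, 1449551462⟩]]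

noncomputable def f_pp_101_s : ℕ → ℕ → ℕ → ℕ → Bool := onCell 536870912 536870912 0 536870912 1033476505 6710887
    (rowNE 3 eng mog cd0q1 cd0q0 pd1 0 true true true .npn 1 0 1 (qsf 536870912 536870912 0 536870912 1) ndB0q1 ndB0q0 pcB1 cut_pp_101_s Ext.none)

def k0_pp_101_s : ∃ t, chk3 f_pp_101_s t 1 1 1 = true :=
  ⟨(l 6), by decide +kernel⟩

theorem c_pp_101_s : CertNE 536870912 536870912 0 536870912 1033476505 6710887 3 eng mog cd0q1 cd0q0 pd1 true true true .npn 1 0 1
    ndB0q1 ndB0q0 pcB1 cut_pp_101_s Ext.none :=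
  certNE0 (fam := true) (s1 := true) (s2 := true) (a := 1) (b := 0) (c := 1) (cn := .npn) (n1 := ndB0q1) (n2 := ndB0q0) (pc := pcB1) (cut := cut_pp_101_s) (xt := Ext.none) (P1 := 536870912) (W1 := 536870912) (P2 := 0) (W2 := 536870912) (P3 := 1033476505) (W3 := 6710887) (N0 := 3) (En := eng) (mo := mog) (C1 := cd0q1) (C2 := cd0q0) (C3 := pd1)
    rfl k0_pp_101_s

noncomputable def cut_pp_101_t : Cut := Cut.of [[⟨3, 0, 0, 2845415833⟩]]

noncomputable def f_pp_101_t : ℕ → ℕ → ℕ → ℕ → Bool := onCell 536870912 536870912 0 536870912 1033476505 6710887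
    (rowNE 3 eng mog cd0q1 cd0q0 pd1 0 true true true .npn 1 0 1 (qsf 536870912 536870912 0 536870912 1) ndB0q1 ndB0q0 pcB1 cut_pp_101_t Ext.none)

def k0_pp_101_t : ∃ t, chk3 f_pp_101_t t 1 1 1 = true :=
  ⟨(a (l 4) (l 5)), by decide +kernel⟩

theorem c_pp_101_t : CertNE 536870912 536870912 0 536870912 1033476505 6710887 3 eng mog cd0q1 cd0q0 pd1 true true true .npn 1 0 1
    ndB0q1 ndB0q0 pcB1 cut_pp_101_t Ext.none :=
  certNE0 (fam := true) (s1 := true) (s2 := true) (a := 1) (b := 0) (c := 1) (cn := .npn) (n1 := ndB0q1) (n2 := ndB0q0) (pc := pcB1) (cut := cut_pp_101_t) (xt := Ext.none) (P1 := 536870912) (W1 := 536870912) (P2 := 0) (W2 := 536870912) (P3 := 1033476505) (W3 := 6710887) (N0 := 3) (En := eng) (mo := mog) (C1 := cd0q1) (C2 := cd0q0) (C3 := pd1)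
    rfl k0_pp_101_t

noncomputable def cut_pp_102_s : Cut := Cut.of [[⟨4, 0, 0, 1449551462⟩]]

noncomputable def f_pp_102_s : ℕ → ℕ → ℕ → ℕ → Bool := onCell 536870912 536870912 0 536870912 1033476505 6710887
    (rowNE 3 eng mog cd0q1 cd0q0 pd2 0 true true true .npp 1 0 2 (qsf 536870912 536870912 0 536870912 2) ndB0q1 ndB0q0 pcB2 cut_pp_102_s Ext.none)

def k0_pp_102_s : ∃ t, chk3 f_pp_102_s t 1 1 1 = true :=
  ⟨(l 6), by decide +kernel⟩

theorem c_pp_102_s : CertNE 536870912 536870912 0 536870912 1033476505 6710887 3 eng mog cd0q1 cd0q0 pd2 true true true .npp 1 0 2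
    ndB0q1 ndB0q0 pcB2 cut_pp_102_s Ext.none :=
  certNE0 (fam := true) (s1 := true) (s2 := true) (a := 1) (b := 0) (c := 2) (cn := .npp) (n1 := ndB0q1) (n2 := ndB0q0) (pc := pcB2) (cut := cut_pp_102_s) (xt := Ext.none) (P1 := 536870912) (W1 := 536870912) (P2 := 0) (W2 := 536870912) (P3 := 1033476505) (W3 := 6710887) (N0 := 3) (En := eng) (mo := mog) (C1 := cd0q1) (C2 := cd0q0) (C3 := pd2)
    rfl k0_pp_102_s

noncomputable def cut_pp_102_t : Cut := Cut.of [[⟨3, 0, 0, 2845415833⟩]]

noncomputable def f_pp_102_t : ℕ → ℕ → ℕ → ℕ → Bool := onCell 536870912 536870912 0 536870912 1033476505 6710887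
    (rowNE 3 eng mog cd0q1 cd0q0 pd2 0 true true true .npp 1 0 2 (qsf 536870912 536870912 0 536870912 2) ndB0q1 ndB0q0 pcB2 cut_pp_102_t Ext.none)

def k0_pp_102_t : ∃ t, chk3 f_pp_102_t t 1 1 1 = true :=
  ⟨(a (l 4) (l 5)), by decide +kernel⟩

theorem c_pp_102_t : CertNE 536870912 536870912 0 536870912 1033476505 6710887 3 eng mog cd0q1 cd0q0 pd2 true true true .npp 1 0 2
    ndB0q1 ndB0q0 pcB2 cut_pp_102_t Ext.none :=
  certNE0 (fam := true) (s1 := true) (s2 := true) (a := 1) (b := 0) (c := 2) (cn := .npp) (n1 := ndB0q1) (n2 := ndB0q0) (pc := pcB2) (cut := cut_pp_102_t) (xt := Ext.none) (P1 := 536870912) (W1 := 536870912) (P2 := 0) (W2 := 536870912) (P3 := 1033476505) (W3 := 6710887) (N0 := 3) (En := eng) (mo := mog) (C1 := cd0q1) (C2 := cd0q0) (C3 := pd2)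
    rfl k0_pp_102_t

noncomputable def cut_pp_112_s : Cut := Cut.of [[⟨4, 0, 0, 1449551462⟩]]

noncomputable def f_pp_112_s : ℕ → ℕ → ℕ → ℕ → Bool := onCell 536870912 536870912 536870912 536870912 1033476505 6710887
    (rowNE 3 eng mog cd0q1 cd0q1 pd2 0 true true true .dn 1 1 2 (qsf 536870912 536870912 536870912 536870912 2) ndB0q1 ndB0q1 pcB2 cut_pp_112_s Ext.none)

def k0_pp_112_s : ∃ t, chk3 f_pp_112_s t 1 1 1 = true :=
  ⟨(l 4), by decide +kernel⟩

theorem c_pp_112_s : CertNE 536870912 536870912 536870912 536870912 1033476505 6710887 3 eng mog cd0q1 cd0q1 pd2 true true true .dn 1 1 2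
    ndB0q1 ndB0q1 pcB2 cut_pp_112_s Ext.none :=
  certNE0 (fam := true) (s1 := true) (s2 := true) (a := 1) (b := 1) (c := 2) (cn := .dn) (n1 := ndB0q1) (n2 := ndB0q1) (pc := pcB2) (cut := cut_pp_112_s) (xt := Ext.none) (P1 := 536870912) (W1 := 536870912) (P2 := 536870912) (W2 := 536870912) (P3 := 1033476505) (W3 := 6710887) (N0 := 3) (En := eng) (mo := mog) (C1 := cd0q1) (C2 := cd0q1) (C3 := pd2)
    rfl k0_pp_112_s

noncomputable def cut_pp_112_t : Cut := Cut.of [[⟨3, 0, 0, 2845415833⟩]]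

noncomputable def f_pp_112_t : ℕ → ℕ → ℕ → ℕ → Bool := onCell 536870912 536870912 536870912 536870912 1033476505 6710887
    (rowNE 3 eng mog cd0q1 cd0q1 pd2 0 true true true .dn 1 1 2 (qsf 536870912 536870912 536870912 536870912 2) ndB0q1 ndB0q1 pcB2 cut_pp_112_t Ext.none)

def k0_pp_112_t : ∃ t, chk3 f_pp_112_t t 1 1 1 = true :=
  ⟨(l 4), by decide +kernel⟩

theorem c_pp_112_t : CertNE 536870912 536870912 536870912 536870912 1033476505 6710887 3 eng mog cd0q1 cd0q1 pd2 true true true .dn 1 1 2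
    ndB0q1 ndB0q1 pcB2 cut_pp_112_t Ext.none :=
  certNE0 (fam := true) (s1 := true) (s2 := true) (a := 1) (b := 1) (c := 2) (cn := .dn) (n1 := ndB0q1) (n2 := ndB0q1) (pc := pcB2) (cut := cut_pp_112_t) (xt := Ext.none) (P1 := 536870912) (W1 := 536870912) (P2 := 536870912) (W2 := 536870912) (P3 := 1033476505) (W3 := 6710887) (N0 := 3) (En := eng) (mo := mog) (C1 := cd0q1) (C2 := cd0q1) (C3 := pd2)
    rfl k0_pp_112_t

noncomputable def cut_pp_113_s : Cut := Cut.of [[⟨4, 0, 0, 1449551462⟩]]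

noncomputable def f_pp_113_s : ℕ → ℕ → ℕ → ℕ → Bool := onCell 536870912 536870912 536870912 536870912 1033476505 6710887
    (rowNE 3 eng mog cd0q1 cd0q1 pd3 0 true true true .nn 1 1 3 (qsf 536870912 536870912 536870912 536870912 3) ndB0q1 ndB0q1 pcB3 cut_pp_113_s Ext.none)

def k0_pp_113_s : ∃ t, chk3 f_pp_113_s t 1 1 1 = true :=
  ⟨(l 4), by decide +kernel⟩

theorem c_pp_113_s : CertNE 536870912 536870912 536870912 536870912 1033476505 6710887 3 eng mog cd0q1 cd0q1 pd3 true true true .nn 1 1 3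
    ndB0q1 ndB0q1 pcB3 cut_pp_113_s Ext.none :=
  certNE0 (fam := true) (s1 := true) (s2 := true) (a := 1) (b := 1) (c := 3) (cn := .nn) (n1 := ndB0q1) (n2 := ndB0q1) (pc := pcB3) (cut := cut_pp_113_s) (xt := Ext.none) (P1 := 536870912) (W1 := 536870912) (P2 := 536870912) (W2 := 536870912) (P3 := 1033476505) (W3 := 6710887) (N0 := 3) (En := eng) (mo := mog) (C1 := cd0q1) (C2 := cd0q1) (C3 := pd3)
    rfl k0_pp_113_s

noncomputable def cut_pp_113_t : Cut := Cut.of [[⟨3, 0, 0, 2845415833⟩]]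

noncomputable def f_pp_113_t : ℕ → ℕ → ℕ → ℕ → Bool := onCell 536870912 536870912 536870912 536870912 1033476505 6710887
    (rowNE 3 eng mog cd0q1 cd0q1 pd3 0 true true true .nn 1 1 3 (qsf 536870912 536870912 536870912 536870912 3) ndB0q1 ndB0q1 pcB3 cut_pp_113_t Ext.none)

def k0_pp_113_t : ∃ t, chk3 f_pp_113_t t 1 1 1 = true :=
  ⟨(l 4), by decide +kernel⟩

theorem c_pp_113_t : CertNE 536870912 536870912 536870912 536870912 1033476505 6710887 3 eng mog cd0q1 cd0q1 pd3 true true true .nn 1 1 3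
    ndB0q1 ndB0q1 pcB3 cut_pp_113_t Ext.none :=
  certNE0 (fam := true) (s1 := true) (s2 := true) (a := 1) (b := 1) (c := 3) (cn := .nn) (n1 := ndB0q1) (n2 := ndB0q1) (pc := pcB3) (cut := cut_pp_113_t) (xt := Ext.none) (P1 := 536870912) (W1 := 536870912) (P2 := 536870912) (W2 := 536870912) (P3 := 1033476505) (W3 := 6710887) (N0 := 3) (En := eng) (mo := mog) (C1 := cd0q1) (C2 := cd0q1) (C3 := pd3)
    rfl k0_pp_113_t

noncomputable def cut_pp_123_s : Cut := Cut.of [[⟨4, 0, 0, 1449551462⟩]]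

noncomputable def f_pp_123_s : ℕ → ℕ → ℕ → ℕ → Bool := onCell 536870912 536870912 0 536870912 1033476505 6710887
    (rowNE 3 eng mog cd0q1 cd0q2 pd3 0 true true true .npn 1 2 3 (qsf 536870912 536870912 0 536870912 3) ndB0q1 ndB0q2 pcB3 cut_pp_123_s Ext.none)

def k0_pp_123_s : ∃ t, chk3 f_pp_123_s t 1 1 1 = true :=
  ⟨(l 6), by decide +kernel⟩

theorem c_pp_123_s : CertNE 536870912 536870912 0 536870912 1033476505 6710887 3 eng mog cd0q1 cd0q2 pd3 true true true .npn 1 2 3
    ndB0q1 ndB0q2 pcB3 cut_pp_123_s Ext.none :=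
  certNE0 (fam := true) (s1 := true) (s2 := true) (a := 1) (b := 2) (c := 3) (cn := .npn) (n1 := ndB0q1) (n2 := ndB0q2) (pc := pcB3) (cut := cut_pp_123_s) (xt := Ext.none) (P1 := 536870912) (W1 := 536870912) (P2 := 0) (W2 := 536870912) (P3 := 1033476505) (W3 := 6710887) (N0 := 3) (En := eng) (mo := mog) (C1 := cd0q1) (C2 := cd0q2) (C3 := pd3)
    rfl k0_pp_123_s

noncomputable def cut_pp_123_t : Cut := Cut.of [[⟨3, 0, 0, 2845415833⟩]]

noncomputable def f_pp_123_t : ℕ → ℕ → ℕ → ℕ → Bool := onCell 536870912 536870912 0 536870912 1033476505 6710887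
    (rowNE 3 eng mog cd0q1 cd0q2 pd3 0 true true true .npn 1 2 3 (qsf 536870912 536870912 0 536870912 3) ndB0q1 ndB0q2 pcB3 cut_pp_123_t Ext.none)

def k0_pp_123_t : ∃ t, chk3 f_pp_123_t t 1 1 1 = true :=
  ⟨(a (b (b (a (a (b (a (b (a (l 16416456) (l 16528352)) (a (l 16587272) (b (l 16685392) (l 56069305175)))) (b (a (l 16613672) (b (l 16686760) (l 16693640))) (a (b (l 16693888) (l 4)) (l 4)))) (a (b (a (b (l 57679918503) (l 4)) (l 4)) (l 4)) (l 4))) (b (a (b (a (b (l 16693920) (l 4)) (l 4)) (l 4)) (l 4)) (l 4))) (l 4)) (l 4)) (l 4)) (l 4)), by decide +kernel⟩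

theorem c_pp_123_t : CertNE 536870912 536870912 0 536870912 1033476505 6710887 3 eng mog cd0q1 cd0q2 pd3 true true true .npn 1 2 3
    ndB0q1 ndB0q2 pcB3 cut_pp_123_t Ext.none :=
  certNE0 (fam := true) (s1 := true) (s2 := true) (a := 1) (b := 2) (c := 3) (cn := .npn) (n1 := ndB0q1) (n2 := ndB0q2) (pc := pcB3) (cut := cut_pp_123_t) (xt := Ext.none) (P1 := 536870912) (W1 := 536870912) (P2 := 0) (W2 := 536870912) (P3 := 1033476505) (W3 := 6710887) (N0 := 3) (En := eng) (mo := mog) (C1 := cd0q1) (C2 := cd0q2) (C3 := pd3)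
    rfl k0_pp_123_t

noncomputable def cut_pp_202_s : Cut := Cut.of [[⟨4, 0, 0, 1449551462⟩]]

noncomputable def f_pp_202_s : ℕ → ℕ → ℕ → ℕ → Bool := onCell 0 536870912 0 536870912 1033476505 6710887
    (rowNE 3 eng mog cd0q2 cd0q0 pd2 0 true true true .pp 2 0 2 (qsf 0 536870912 0 536870912 2) ndB0q2 ndB0q0 pcB2 cut_pp_202_s Ext.none)

def k0_pp_202_s : ∃ t, chk3 f_pp_202_s t 1 1 1 = true :=
  ⟨(l 5), by decide +kernel⟩

theorem c_pp_202_s : CertNE 0 536870912 0 536870912 1033476505 6710887 3 eng mog cd0q2 cd0q0 pd2 true true true .pp 2 0 2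
    ndB0q2 ndB0q0 pcB2 cut_pp_202_s Ext.none :=
  certNE0 (fam := true) (s1 := true) (s2 := true) (a := 2) (b := 0) (c := 2) (cn := .pp) (n1 := ndB0q2) (n2 := ndB0q0) (pc := pcB2) (cut := cut_pp_202_s) (xt := Ext.none) (P1 := 0) (W1 := 536870912) (P2 := 0) (W2 := 536870912) (P3 := 1033476505) (W3 := 6710887) (N0 := 3) (En := eng) (mo := mog) (C1 := cd0q2) (C2 := cd0q0) (C3 := pd2)
    rfl k0_pp_202_s

noncomputable def cut_pp_202_t : Cut := Cut.of [[⟨3, 0, 0, 2845415833⟩]]

noncomputable def f_pp_202_t : ℕ → ℕ → ℕ → ℕ → Bool := onCell 0 536870912 0 536870912 1033476505 6710887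
    (rowNE 3 eng mog cd0q2 cd0q0 pd2 0 true true true .pp 2 0 2 (qsf 0 536870912 0 536870912 2) ndB0q2 ndB0q0 pcB2 cut_pp_202_t Ext.none)

def k0_pp_202_t : ∃ t, chk3 f_pp_202_t t 1 1 1 = true :=
  ⟨(l 5), by decide +kernel⟩

theorem c_pp_202_t : CertNE 0 536870912 0 536870912 1033476505 6710887 3 eng mog cd0q2 cd0q0 pd2 true true true .pp 2 0 2
    ndB0q2 ndB0q0 pcB2 cut_pp_202_t Ext.none :=
  certNE0 (fam := true) (s1 := true) (s2 := true) (a := 2) (b := 0) (c := 2) (cn := .pp) (n1 := ndB0q2) (n2 := ndB0q0) (pc := pcB2) (cut := cut_pp_202_t) (xt := Ext.none) (P1 := 0) (W1 := 536870912) (P2 := 0) (W2 := 536870912) (P3 := 1033476505) (W3 := 6710887) (N0 := 3) (En := eng) (mo := mog) (C1 := cd0q2) (C2 := cd0q0) (C3 := pd2)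
    rfl k0_pp_202_t

noncomputable def cut_pp_203_s : Cut := Cut.of [[⟨4, 0, 0, 1449551462⟩]]

noncomputable def f_pp_203_s : ℕ → ℕ → ℕ → ℕ → Bool := onCell 0 536870912 0 536870912 1033476505 6710887
    (rowNE 3 eng mog cd0q2 cd0q0 pd3 0 true true true .up 2 0 3 (qsf 0 536870912 0 536870912 3) ndB0q2 ndB0q0 pcB3 cut_pp_203_s Ext.none)

def k0_pp_203_s : ∃ t, chk3 f_pp_203_s t 1 1 1 = true :=
  ⟨(l 5), by decide +kernel⟩

theorem c_pp_203_s : CertNE 0 536870912 0 536870912 1033476505 6710887 3 eng mog cd0q2 cd0q0 pd3 true true true .up 2 0 3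
    ndB0q2 ndB0q0 pcB3 cut_pp_203_s Ext.none :=
  certNE0 (fam := true) (s1 := true) (s2 := true) (a := 2) (b := 0) (c := 3) (cn := .up) (n1 := ndB0q2) (n2 := ndB0q0) (pc := pcB3) (cut := cut_pp_203_s) (xt := Ext.none) (P1 := 0) (W1 := 536870912) (P2 := 0) (W2 := 536870912) (P3 := 1033476505) (W3 := 6710887) (N0 := 3) (En := eng) (mo := mog) (C1 := cd0q2) (C2 := cd0q0) (C3 := pd3)
    rfl k0_pp_203_s

noncomputable def cut_pp_203_t : Cut := Cut.of [[⟨3, 0, 0, 2845415833⟩]]

noncomputable def f_pp_203_t : ℕ → ℕ → ℕ → ℕ → Bool := onCell 0 536870912 0 536870912 1033476505 6710887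
    (rowNE 3 eng mog cd0q2 cd0q0 pd3 0 true true true .up 2 0 3 (qsf 0 536870912 0 536870912 3) ndB0q2 ndB0q0 pcB3 cut_pp_203_t Ext.none)

def k0_pp_203_t : ∃ t, chk3 f_pp_203_t t 1 1 1 = true :=
  ⟨(l 5), by decide +kernel⟩

theorem c_pp_203_t : CertNE 0 536870912 0 536870912 1033476505 6710887 3 eng mog cd0q2 cd0q0 pd3 true true true .up 2 0 3
    ndB0q2 ndB0q0 pcB3 cut_pp_203_t Ext.none :=
  certNE0 (fam := true) (s1 := true) (s2 := true) (a := 2) (b := 0) (c := 3) (cn := .up) (n1 := ndB0q2) (n2 := ndB0q0) (pc := pcB3) (cut := cut_pp_203_t) (xt := Ext.none) (P1 := 0) (W1 := 536870912) (P2 := 0) (W2 := 536870912) (P3 := 1033476505) (W3 := 6710887) (N0 := 3) (En := eng) (mo := mog) (C1 := cd0q2) (C2 := cd0q0) (C3 := pd3)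
    rfl k0_pp_203_t

noncomputable def cut_pp_213_s : Cut := Cut.of [[⟨4, 0, 0, 1449551462⟩]]

noncomputable def f_pp_213_s : ℕ → ℕ → ℕ → ℕ → Bool := onCell 0 536870912 536870912 536870912 1033476505 6710887
    (rowNE 3 eng mog cd0q2 cd0q1 pd3 0 true true true .pnn 2 1 3 (qsf 0 536870912 536870912 536870912 3) ndB0q2 ndB0q1 pcB3 cut_pp_213_s Ext.none)

def k0_pp_213_s : ∃ t, chk3 f_pp_213_s t 1 1 1 = true :=
  ⟨(l 6), by decide +kernel⟩

theorem c_pp_213_s : CertNE 0 536870912 536870912 536870912 1033476505 6710887 3 eng mog cd0q2 cd0q1 pd3 true true true .pnn 2 1 3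
    ndB0q2 ndB0q1 pcB3 cut_pp_213_s Ext.none :=
  certNE0 (fam := true) (s1 := true) (s2 := true) (a := 2) (b := 1) (c := 3) (cn := .pnn) (n1 := ndB0q2) (n2 := ndB0q1) (pc := pcB3) (cut := cut_pp_213_s) (xt := Ext.none) (P1 := 0) (W1 := 536870912) (P2 := 536870912) (W2 := 536870912) (P3 := 1033476505) (W3 := 6710887) (N0 := 3) (En := eng) (mo := mog) (C1 := cd0q2) (C2 := cd0q1) (C3 := pd3)
    rfl k0_pp_213_s

noncomputable def cut_pp_213_t : Cut := Cut.of [[⟨3, 0, 0, 2845415833⟩]]

noncomputable def f_pp_213_t : ℕ → ℕ → ℕ → ℕ → Bool := onCell 0 536870912 536870912 536870912 1033476505 6710887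
    (rowNE 3 eng mog cd0q2 cd0q1 pd3 0 true true true .pnn 2 1 3 (qsf 0 536870912 536870912 536870912 3) ndB0q2 ndB0q1 pcB3 cut_pp_213_t Ext.none)

def k0_pp_213_t : ∃ t, chk3 f_pp_213_t t 1 1 1 = true :=
  ⟨(a (l 5) (l 4)), by decide +kernel⟩

theorem c_pp_213_t : CertNE 0 536870912 536870912 536870912 1033476505 6710887 3 eng mog cd0q2 cd0q1 pd3 true true true .pnn 2 1 3
    ndB0q2 ndB0q1 pcB3 cut_pp_213_t Ext.none :=
  certNE0 (fam := true) (s1 := true) (s2 := true) (a := 2) (b := 1) (c := 3) (cn := .pnn) (n1 := ndB0q2) (n2 := ndB0q1) (pc := pcB3) (cut := cut_pp_213_t) (xt := Ext.none) (P1 := 0) (W1 := 536870912) (P2 := 536870912) (W2 := 536870912) (P3 := 1033476505) (W3 := 6710887) (N0 := 3) (En := eng) (mo := mog) (C1 := cd0q2) (C2 := cd0q1) (C3 := pd3)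
    rfl k0_pp_213_t

noncomputable def cut_pm_001_s : Cut := Cut.of [[⟨4, 0, 0, 1449551462⟩]]

noncomputable def f_pm_001_s : ℕ → ℕ → ℕ → ℕ → Bool := onCell 0 536870912 0 536870912 1033476505 6710887
    (rowNE 3 eng mog cd0q0 cd0q0 pd1 0 true true false .up 0 0 1 (qsf 0 536870912 0 536870912 1) ndB0q0 ndB0q0 pcB1 cut_pm_001_s Ext.none)

def k0_pm_001_s : ∃ t, chk3 f_pm_001_s t 1 1 1 = true :=
  ⟨(l 3), by decide +kernel⟩

theorem c_pm_001_s : CertNE 0 536870912 0 536870912 1033476505 6710887 3 eng mog cd0q0 cd0q0 pd1 true true false .up 0 0 1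
    ndB0q0 ndB0q0 pcB1 cut_pm_001_s Ext.none :=
  certNE0 (fam := true) (s1 := true) (s2 := false) (a := 0) (b := 0) (c := 1) (cn := .up) (n1 := ndB0q0) (n2 := ndB0q0) (pc := pcB1) (cut := cut_pm_001_s) (xt := Ext.none) (P1 := 0) (W1 := 536870912) (P2 := 0) (W2 := 536870912) (P3 := 1033476505) (W3 := 6710887) (N0 := 3) (En := eng) (mo := mog) (C1 := cd0q0) (C2 := cd0q0) (C3 := pd1)
    rfl k0_pm_001_s

noncomputable def cut_pm_001_t : Cut := Cut.of [[⟨3, 0, 0, 2845415833⟩]]

noncomputable def f_pm_001_t : ℕ → ℕ → ℕ → ℕ → Bool := onCell 0 536870912 0 536870912 1033476505 6710887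
    (rowNE 3 eng mog cd0q0 cd0q0 pd1 0 true true false .up 0 0 1 (qsf 0 536870912 0 536870912 1) ndB0q0 ndB0q0 pcB1 cut_pm_001_t Ext.none)

def k0_pm_001_t : ∃ t, chk3 f_pm_001_t t 1 1 1 = true :=
  ⟨(l 3), by decide +kernel⟩

theorem c_pm_001_t : CertNE 0 536870912 0 536870912 1033476505 6710887 3 eng mog cd0q0 cd0q0 pd1 true true false .up 0 0 1
    ndB0q0 ndB0q0 pcB1 cut_pm_001_t Ext.none :=
  certNE0 (fam := true) (s1 := true) (s2 := false) (a := 0) (b := 0) (c := 1) (cn := .up) (n1 := ndB0q0) (n2 := ndB0q0) (pc := pcB1) (cut := cut_pm_001_t) (xt := Ext.none) (P1 := 0) (W1 := 536870912) (P2 := 0) (W2 := 536870912) (P3 := 1033476505) (W3 := 6710887) (N0 := 3) (En := eng) (mo := mog) (C1 := cd0q0) (C2 := cd0q0) (C3 := pd1)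
    rfl k0_pm_001_t

noncomputable def cut_pm_011_s : Cut := Cut.of [[⟨4, 0, 0, 1449551462⟩], [⟨0, 0, 0, 33554432⟩, ⟨1, 1, 0, 33554432⟩, ⟨2, 1, 0, 33554432⟩]]

noncomputable def f_pm_011_s : ℕ → ℕ → ℕ → ℕ → Bool := onCell 536870912 536870912 536870912 536870912 1033476505 6710887
    (rowNE 3 eng mog cd0q0 cd0q1 pd1 2 true true false .pnn 0 1 1 (qsf 0 536870912 536870912 536870912 1) ndB0q0 ndB0q1 pcB1 cut_pm_011_s Ext.none)

def k0_pm_011_s : ∃ t, chk3 f_pm_011_s t 1 1 1 = true :=
  ⟨(a (l 3) (b (l 3) (a (l 3) (b (l 3) (a (l 3) (b (l 3) (a (l 3) (b (l 3) (a (l 3) (b (l 3) (l 14))))))))))), by decide +kernel⟩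

theorem c_pm_011_s : CertNE 0 536870912 536870912 536870912 1033476505 6710887 3 eng mog cd0q0 cd0q1 pd1 true true false .pnn 0 1 1
    ndB0q0 ndB0q1 pcB1 cut_pm_011_s Ext.none :=
  certNE2 (fam := true) (s1 := true) (s2 := false) (a := 0) (b := 1) (c := 1) (cn := .pnn) (n1 := ndB0q0) (n2 := ndB0q1) (pc := pcB1) (cut := cut_pm_011_s) (xt := Ext.none) (P1 := 0) (W1 := 536870912) (P2 := 536870912) (W2 := 536870912) (P3 := 1033476505) (W3 := 6710887) (N0 := 3) (En := eng) (mo := mog) (C1 := cd0q0) (C2 := cd0q1) (C3 := pd1)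
    rfl (fun _ => rfl) k0_pm_011_s

noncomputable def cut_pm_011_t : Cut := Cut.of [[⟨3, 0, 0, 2845415833⟩], [⟨0, 0, 0, 33554432⟩, ⟨1, 1, 0, 33554432⟩, ⟨2, 1, 0, 33554432⟩]]

noncomputable def f_pm_011_t : ℕ → ℕ → ℕ → ℕ → Bool := onCell 0 536870912 536870912 536870912 1033476505 6710887
    (rowNE 3 eng mog cd0q0 cd0q1 pd1 0 true true false .pnn 0 1 1 (qsf 0 536870912 536870912 536870912 1) ndB0q0 ndB0q1 pcB1 cut_pm_011_t Ext.none)

def k0_pm_011_t : ∃ t, chk3 f_pm_011_t t 1 1 1 = true :=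
  ⟨(l 6), by decide +kernel⟩

theorem c_pm_011_t : CertNE 0 536870912 536870912 536870912 1033476505 6710887 3 eng mog cd0q0 cd0q1 pd1 true true false .pnn 0 1 1
    ndB0q0 ndB0q1 pcB1 cut_pm_011_t Ext.none :=
  certNE0 (fam := true) (s1 := true) (s2 := false) (a := 0) (b := 1) (c := 1) (cn := .pnn) (n1 := ndB0q0) (n2 := ndB0q1) (pc := pcB1) (cut := cut_pm_011_t) (xt := Ext.none) (P1 := 0) (W1 := 536870912) (P2 := 536870912) (W2 := 536870912) (P3 := 1033476505) (W3 := 6710887) (N0 := 3) (En := eng) (mo := mog) (C1 := cd0q0) (C2 := cd0q1) (C3 := pd1)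
    rfl k0_pm_011_t

noncomputable def cut_pm_012_s : Cut := Cut.of [[⟨4, 0, 0, 1449551462⟩], [⟨0, 0, 0, 16777216⟩, ⟨1, 1, 0, 16777216⟩, ⟨2, 1, 0, 16777216⟩]]

noncomputable def f_pm_012_s : ℕ → ℕ → ℕ → ℕ → Bool := onCell 1073741824 536870912 536870912 536870912 1033476505 6710887
    (rowNE 3 eng mog cd0q0 cd0q1 pd2 2 true true false .pnp 0 1 2 (qsf 0 536870912 536870912 536870912 2) ndB0q0 ndB0q1 pcB2 cut_pm_012_s Ext.none)

def k0_pm_012_s : ∃ t, chk3 f_pm_012_s t 2 2 1 = true :=
  ⟨(a (a (l 3) (l 3)) (b (a (a (a (l 3) (l 2)) (l 2)) (l 2)) (a (a (a (b (l 3) (b (l 3) (a (l 3) (a (l 16771328) (l 16775232))))) (a (b (a (l 3) (b (l 3) (l 16775136))) (a (b (l 16775184) (l 16771296)) (b (l 16776280) (l 16773016)))) (a (b (b (l 16775040) (l 16776672)) (b (l 16775672) (l 16774008))) (b (b (l 16776344) (l 16774912)) (b (l 16774408) (l 16772640)))))) (b (b (l 16768992) (l 16764600)) (b (l 16763640) (l 16762600)))) (b (b (l 2) (l 16746912)) (a (b (l 16742016) (l 16732368)) (b (l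 16732344) (l 16710784))))))), by decide +kernel⟩

def k1_pm_012_s : ∃ t, chk3 f_pm_012_s t 4 6 1 = true :=
  ⟨(a (l 3) (a (b (l 3) (b (l 3) (a (l 3) (a (l 3) (b (l 3) (a (l 3) (b (l 3) (l 16745280)))))))) (a (b (l 3) (b (a (l 3) (b (l 3) (a (l 16772040) (l 16767072)))) (a (a (b (l 222432226935) (b (l 16766696) (l 16743008))) (b (b (l 16770184) (l 16766200)) (a (l 16692192) (l 16674592)))) (b (a (b (l 16765384) (l 16743248)) (l 16667336)) (a (l 16629136) (b (l 16683704) (l 16647224))))))) (b (b (l 3) (a (b (l 3) (l 16770728)) (b (l 16775344) (l 16709448)))) (b (a (b (a (l 16774136) (l 16763768)) (a (l 16751368) (l 16731632))) (a (l 16668792) (b (l 16732592) (l 16710424)))) (b (a (a (l 16666312) (b (l 16705664) (l 16684120))) (a (l 16669000) (l 16689696))) (a (b (a (l 16665224) (l 16660512)) (l 16593352)) (l 16646048)))))))), by decide +kernel⟩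

def k2_pm_012_s : ∃ t, chk3 f_pm_012_s t 8 14 1 = true :=
  ⟨(a (l 3) (a (l 3) (b (l 3) (b (l 3) (a (a (l 3) (b (l 3) (b (l 3) (a (l 494625810263) (b (l 375440472871) (a (l 16775944) (l 16772176))))))) (a (b (b (l 3) (a (l 3) (l 400136511447))) (b (a (b (l 16729888) (l 16731336)) (b (l 16775584) (l 16771640))) (a (b (l 16772376) (l 16745600)) (l 16764872)))) (b (b (a (l 3) (l 16772224)) (a (l 16734200) (l 16773136))) (b (a (l 16770368) (l 16768648)) (a (l 16763984) (l 16764416)))))))))), by decide +kernel⟩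

def k3_pm_012_s : ∃ t, chk3 f_pm_012_s t 16 30 1 = true :=
  ⟨(b (l 3) (a (l 3) (a (l 3) (b (l 3) (a (l 3) (b (l 3) (a (b (l 3) (a (l 3) (b (l 3) (a (b (l 3) (l 176261433415)) (b (l 195588752199) (l 16775544)))))) (b (a (l 430738210391) (b (c (l 380272361575) (l 379198628391)) (a (b (l 387788567799) (l 16776072)) (l 16763984)))) (a (b (a (b (l 273435023015) (l 284709350071)) (a (l 153712839127) (l 16753976))) (l 16761992)) (b (l 16750216) (l 16745296))))))))))), by decide +kernel⟩

def k4_pm_012_s : ∃ t, chk3 f_pm_012_s t 32 62 1 = true :=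
  ⟨(a (l 3) (b (l 3) (a (l 3) (b (l 3) (a (l 3) (b (l 3) (a (l 3) (b (l 3) (a (b (l 3) (a (l 3) (b (l 3) (l 16776960)))) (b (a (l 502142074663) (b (l 421611438183) (l 16776888))) (a (b (l 16776936) (l 16776208)) (l 16775616)))))))))))), by decide +kernel⟩

def k5_pm_012_s : ∃ t, chk3 f_pm_012_s t 66 124 1 = true :=
  ⟨(a (l 3) (b (l 3) (a (l 3) (b (l 3) (a (a (l 457044896743) (b (l 3) (b (l 317995352839) (a (l 16777552) (l 16776320))))) (b (a (l 397452236663) (b (a (l 479593496055) (l 16763408)) (l 16776232))) (a (b (l 18958250967) (l 16774992)) (l 16753024)))))))), by decide +kernel⟩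

def k6_pm_012_s : ∃ t, chk3 f_pm_012_s t 132 125 1 = true :=
  ⟨(b (a (l 3) (b (l 3) (a (b (l 3) (l 462413625575)) (b (a (l 3) (b (l 3) (l 391546663879))) (b (a (l 413021500231) (a (l 16776720) (l 16775984))) (a (a (a (l 16776976) (l 16776760)) (l 16776160)) (l 16774728))))))) (a (b (a (l 3) (b (l 486572815207) (a (b (l 3) (a (l 265382003543) (b (l 16777040) (l 16776504)))) (b (c (a (l 202568096615) (l 16776608)) (a (l 202568101879) (l 16776600))) (l 16764960))))) (a (b (a (b (l 3) (b (l 413558374167) (a (l 356650058071) (l 16776776)))) (b (b (l 291151807335) (a (l 259476423287) (l 16776648))) (l 16770512))) (a (a (b (l 16773776) (l 16774544)) (l 16763984)) (l 16762416))) (b (a (l 16769416) (l 16762168)) (l 16759400)))) (b (a (b (a (b (l 467782333959) (a (b (l 16776712) (l 16776928)) (l 16776472))) (a (b (a (l 183777625063) (l 16776872)) (l 16775584)) (l 16764968))) (l 16768120)) (b (l 16762576) (l 16759064))) (a (a (l 16758360) (l 16756488)) (b (l 16766024) (a (b (l 16764256)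 (l 16762568)) (b (l 16762520) (l 16761304)))))))), by decide +kernel⟩

def k7_pm_012_s : ∃ t, chk3 f_pm_012_s t 133 125 1 = true :=
  ⟨(b (a (b (a (b (l 3) (a (l 3) (b (l 3) (a (l 367924347239) (c (l 16776888) (l 16776880)))))) (b (a (l 3) (a (l 403357820455) (b (l 486035947015) (l 16776648)))) (a (b (a (l 283635614391) (l 16776776)) (l 16775816)) (l 16764320)))) (a (b (a (b (a (l 480667237847) (l 132774883495)) (l 16773528)) (l 16769920)) (l 16762272)) (a (l 16761200) (l 16759400)))) (b (a (b (a (a (b (l 201494335207) (l 16775880)) (l 16765232)) (l 16753432)) (l 16761608)) (l 16764928)) (a (l 16756776) (a (l 16764632) (b (l 16764616) (l 16756160)))))) (a (b (a (l 16761088) (b (l 16765816) (b (l 16763152) (a (l 16762392) (l 16761200))))) (a (b (a (b (l 16764240) (l 16762472)) (b (l 16762432) (l 16761296))) (l 16760160)) (b (l 16757536) (l 16757600)))) (b (a (b (b (l 16763120) (a (l 16762328) (l 16761032))) (a (l 16760640) (l 16759184))) (b (a (l 16760480) (l 16759016)) (l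 16757368))) (l 16744664)))), by decide +kernel⟩

def k8_pm_012_s : ∃ t, chk3 f_pm_012_s t 67 124 1 = true :=
  ⟨(a (b (a (b (l 3) (a (l 3) (b (l 3) (l 434496320039)))) (b (a (l 3) (b (l 3) (a (l 3) (b (l 272898147847) (a (l 16775208) (l 16776552)))))) (a (b (a (l 3) (l 373829916759)) (a (b (l 237464716727) (l 16776312)) (l 16764672))) (a (b (b (l 191293804039) (l 16775728)) (l 16751928)) (l 16761888))))) (a (b (b (a (l 3) (a (b (l 455971176247) (a (l 16775968) (l 16776544))) (b (l 232632871847) (l 16775128)))) (a (a (c (l 363092501767) (l 363092505287)) (b (a (l 226190427271) (l 16776744)) (l 16775816))) (l 16763152))) (a (a (b (l 16764808) (l 16772232)) (l 16761432)) (a (l 16748800) (l 16746488)))) (b (a (b (l 16762224) (l 16748120)) (l 16757984)) (a (l 16753208) (b (l 16760064) (a (l 16757696) (l 16754544))))))) (b (a (b (a (b (a (l 410337133511) (b (l 251960231383) (l 16776248))) (a (b (l 163376504407) (l 16774920)) (l 16752408))) (b (a (l 16764408) (l 16751280)) (l 16748256)))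 (a (b (l 16749536) (l 16745392)) (l 16752160))) (b (a (a (l 16746064) (l 16742936)) (l 16748456)) (a (l 16745768) (l 16738776)))) (a (b (a (l 16749704) (b (l 16756104) (l 16751640))) (a (b (l 16748624) (a (b (l 16752472) (l 16751224)) (l 16749672))) (b (a (b (l 16750112) (l 16748664)) (l 16747088)) (l 16746416)))) (b (a (b (l 16749312) (a (b (l 16747672) (l 16745984)) (l 16744368))) (b (a (b (l 16745120) (l 16743176)) (b (l 16741720) (l 16740768))) (l 16740992))) (l 16741368))))), by decide +kernel⟩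

def k9_pm_012_s : ∃ t, chk3 f_pm_012_s t 67 125 1 = true :=
  ⟨(a (b (a (b (a (a (l 16767600) (l 16765680)) (b (l 16763648) (a (l 16761624) (l 16748328)))) (a (b (a (l 16762952) (b (l 16761768) (l 16760224))) (a (l 16760256) (l 16758552))) (b (b (l 16752944) (l 16757080)) (l 16755392)))) (b (a (b (a (l 16759704) (l 16756712)) (a (l 16751312) (l 16754408))) (b (a (b (l 16754768) (l 16753656)) (l 16752120)) (l 16751208))) (l 16750536))) (a (b (l 16748840) (l 16749752)) (b (l 16746960) (l 16743296)))) (b (a (b (l 16746296) (l 16743488)) (b (l 16739288) (l 16737112))) (a (l 16731536) (l 16733600)))), by decide +kernel⟩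

def k10_pm_012_s : ∃ t, chk3 f_pm_012_s t 64 63 1 = true :=
  ⟨(b (a (l 3) (b (l 3) (a (l 3) (b (l 3) (a (l 3) (b (l 3) (a (l 3) (b (l 3) (a (l 3) (b (l 3) (a (c (l 299204869175) (l 303499837783)) (b (a (l 16777184) (l 16777136)) (l 16774184))))))))))))) (a (l 14) (b (a (l 14) (b (a (l 14) (b (a (l 14) (b (a (l 14) (a (l 14) (l 16769840))) (l 14))) (l 14))) (l 14))) (l 14)))), by decide +kernel⟩

def k11_pm_012_s : ∃ t, chk3 f_pm_012_s t 130 252 1 = true :=
  ⟨(a (l 3) (b (l 3) (a (l 3) (b (l 3) (a (l 3) (b (l 3) (a (a (l 455971176263) (b (l 3) (c (l 16777008) (l 16777008)))) (b (a (l 335712092439) (l 16776984)) (l 16771096))))))))), by decide +kernel⟩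

def k12_pm_012_s : ∃ t, chk3 f_pm_012_s t 130 506 1 = true :=
  ⟨(b (a (l 3) (b (a (l 3) (a (a (a (l 515026976567) (a (l 351818219911) (b (l 3) (l 16777056)))) (b (a (l 476909141655) (l 125795563751)) (l 16775152))) (a (l 16773856) (l 16764112)))) (a (a (l 3) (a (a (l 3) (l 379198633175)) (a (b (l 3) (c (l 16776856) (l 16776856))) (b (l 173577074855) (l 16776352))))) (a (a (a (b (l 16776808) (l 16775704)) (l 16765184)) (l 16764224)) (l 16767592))))) (a (a (l 3) (a (l 3) (b (l 3) (a (l 473151045383) (b (l 411947761495) (a (b (l 16777168) (l 16776920)) (l 16771352))))))) (a (b (a (a (l 422685179655) (a (b (l 3) (b (l 16777136) (l 16776816))) (b (l 240149070391) (l 16771240)))) (a (a (a (b (l 16777016) (l 16776000)) (l 16774616)) (l 16770560)) (l 16764336))) (a (a (a (b (a (l 118279370967) (l 16776928)) (l 16775968)) (l 16773296)) (l 16769696)) (l 16767736))) (a (a (l 16767072) (l 16765824)) (l 16763992))))), by decide +kernel⟩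

def k13_pm_012_s : ∃ t, chk3 f_pm_012_s t 260 507 1 = true :=
  ⟨(a (b (a (l 3) (b (l 3) (a (l 3) (b (l 3) (a (b (l 3) (l 170355851095)) (b (l 158544690951) (l 16776592))))))) (a (b (a (l 3) (b (l 3) (a (a (l 420000825415) (b (l 3) (l 16777096))) (b (a (l 16777184) (l 16777080)) (l 16776704))))) (a (a (b (a (l 482277850711) (b (l 3) (l 16777120))) (l 16775136)) (b (b (a (l 16777184) (l 16777112)) (l 16771512)) (l 16770496))) (b (c (l 16773408) (l 16773416)) (l 16769416)))) (b (a (b (a (a (l 368461217943) (b (l 3) (l 16777072))) (b (l 183777623959) (l 16776648))) (l 16773360)) (l 16772632)) (a (l 16768688) (l 16767296))))) (b (a (b (a (l 502678945527) (b (l 477446012759) (a (b (l 16777176) (l 16777008)) (a (l 16775544) (l 16776600))))) (a (b (a (b (l 16776840) (l 16777040)) (c (l 97878275239) (l 95730791591))) (l 16770632)) (l 16769912))) (b (a (b (b (a (l 16777168) (l 16776944)) (l 88214598327)) (l 16765264)) (l 16769800)) (l 16769832))) (a (b (b (l 16771224) (l 16767264))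 (l 16767872)) (b (l 16765248) (a (l 16768480) (b (l 16767872) (a (b (l 16767208) (l 16766616)) (b (l 16766592) (l 16766224))))))))), by decide +kernel⟩

def k14_pm_012_s : ∃ t, chk3 f_pm_012_s t 261 507 1 = true :=
  ⟨(a (b (a (b (l 16770424) (l 16765240)) (a (l 16764608) (a (l 16768912) (b (l 16769536) (l 16764336))))) (a (b (a (l 16768552) (a (l 16767544) (b (l 16767616) (a (l 16766464) (l 16766248))))) (b (a (a (l 16765560) (b (l 16766584) (l 16766192))) (l 16765880)) (l 16765568))) (b (b (b (a (l 16767000) (l 16765920)) (a (c (l 16766328) (l 16766360)) (l 16765552))) (a (a (l 16765992) (l 16765568)) (l 16765056))) (l 16764464)))) (b (a (b (l 16768000) (b (a (l 16766712) (a (l 16764552) (l 16765496))) (a (b (l 16764568) (l 16765536)) (l 16764952)))) (b (b (a (l 16766816) (a (l 16765880) (l 16765424))) (a (a (l 16765856) (l 16765456)) (l 16764944))) (l 16764304))) (a (l 16763752) (l 16762424)))), by decide +kernel⟩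

def k15_pm_012_s : ∃ t, chk3 f_pm_012_s t 131 252 1 = true :=
  ⟨(a (b (a (l 3) (b (l 3) (a (l 480130367015) (b (l 422685179575) (a (b (l 317995352551) (l 16776752)) (l 78550919687)))))) (a (b (a (l 3) (b (l 497847107255) (a (b (l 3) (c (l 153175976743) (l 156934075735))) (b (c (l 132238011031) (l 134922365591)) (l 16776064))))) (a (b (a (a (l 413558374199) (b (l 3) (l 16776944))) (a (b (l 233169748535) (l 16776512)) (l 81772145863))) (l 16772464)) (b (l 16769720) (l 16762192)))) (b (a (b (a (b (l 423222050903) (a (l 16777056) (l 16776744))) (b (c (l 16776808) (l 16776800)) (l 16775904))) (l 16764344)) (l 16768360)) (a (l 16766232) (l 16758728))))) (b (a (b (a (b (l 3) (l 394231018599)) (b (a (l 3) (b (l 3) (l 142975435783))) (a (b (l 175187690391) (l 16776512)) (l 16765448)))) (a (b (a (b (l 237464716023) (l 16776640)) (l 16770832)) (l 16764072)) (l 16762888))) (b (a (b (b (a (l 120426857495) (l 16776288)) (l 16765328)) (l 16763800)) (l 16762656)) (a (l 16760720) (l 16769104))))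 (a (b (a (l 16760856) (l 16769168)) (b (l 16761800) (a (l 16765848) (b (a (l 16764880) (l 16764008)) (l 16763760))))) (b (a (l 16767064) (b (l 16766056) (b (l 16764432) (l 16761056)))) (b (a (b (l 16761776) (l 16763720)) (l 16762744)) (l 16762072)))))), by decide +kernel⟩

def k16_pm_012_s : ∃ t, chk3 f_pm_012_s t 131 253 1 = true :=
  ⟨(a (b (b (a (a (l 16766344) (l 16763992)) (b (a (l 16768104) (a (l 16766440) (l 16763952))) (a (a (l 16766392) (b (l 16765856) (l 16764784))) (b (a (l 16764768) (l 16764088)) (l 16763784))))) (a (a (b (l 16768064) (b (a (l 16766872) (l 16765656)) (a (c (l 16765632) (l 16765648)) (l 16764904)))) (b (b (l 16766320) (a (l 16765696) (l 16764840))) (a (b (l 16764872) (l 16764136)) (l 16763800)))) (a (b (b (a (l 16764808) (l 16764080)) (l 16763752)) (l 16762840)) (l 16762176)))) (a (b (a (b (a (l 16764648) (l 16763872)) (l 16762968)) (l 16762288)) (a (l 16761112) (l 16759808))) (b (l 16760360) (l 16757864)))) (b (a (b (a (b (b (a (l 16764784) (l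 16764056)) (l 16763784)) (l 16762744)) (l 16762096)) (l 16760280)) (b (l 16760232) (l 16757776))) (a (b (l 16757808) (l 16755296)) (b (l 16755288) (l 16752760))))), by decide +kernel⟩

def k17_pm_012_s : ∃ t, chk3 f_pm_012_s t 65 127 1 = true :=
  ⟨(b (a (a (b (a (b (a (b (a (l 16771376) (l 16767328)) (a (l 14) (l 16769776))) (b (a (l 16765928) (l 16769808)) (b (b (l 16768768) (a (l 16768752) (a (l 16767712) (l 16767176)))) (b (a (l 16766696) (a (l 16767216) (l 16766792))) (a (l 14) (l 16766656)))))) (a (l 14) (a (l 14) (l 16765264)))) (b (a (b (b (a (l 16769136) (c (l 16765112) (l 16767768))) (b (a (l 16768120) (a (l 16767112) (l 16761464))) (a (a (l 16767776) (l 16767128)) (l 16766568)))) (a (a (b (b (l 16767152) (l 16766752)) (l 16766288)) (l 16766296)) (l 16765736))) (b (a (b (b (a (l 16767144) (l 16766640)) (l 16766520)) (l 16765968)) (l 16765592)) (l 16764704))) (a (b (l 16764840) (l 16763592)) (l 16762832)))) (a (l 14) (b (a (l 14) (l 16760296)) (l 14)))) (b (a (b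 (a (l 16761336) (l 16762608)) (a (l 16761456) (l 16760088))) (b (a (l 16761264) (l 16759928)) (a (l 16758736) (l 16757384)))) (b (a (a (l 16758904) (l 16757520)) (l 16755472)) (a (b (l 16756264) (l 14)) (b (a (l 16754360) (l 16753512)) (l 16754800)))))) (b (a (a (b (l 16757944) (l 16755376)) (b (l 16755328) (l 16752736))) (b (a (l 16752736) (l 16750184)) (a (l 16750208) (b (l 16748256) (l 16748088))))) (a (b (a (b (l 16753424) (a (l 16752848) (l 16741416))) (b (l 16750984) (l 16751272))) (a (l 16753776) (l 16753616))) (b (a (l 16747776) (l 16750288)) (l 16753592))))) (a (b (a (l 14) (b (l 16757272) (l 14))) (l 14)) (b (a (l 16747952) (l 16737520)) (a (l 16743624) (l 16739912))))), by decide +kernel⟩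

def k18_pm_012_s : ∃ t, chk3 f_pm_012_s t 33 63 1 = true :=
  ⟨(b (a (b (a (a (b (a (b (l 16764776) (a (l 16767072) (b (l 16766088) (b (l 16764624) (l 16763616))))) (b (a (l 16767056) (l 16759752)) (a (b (l 16764048) (l 16760120)) (b (l 16762704) (l 16761336))))) (a (b (b (a (b (l 16764520) (l 16763640)) (l 16762760)) (a (l 16762768) (l 16761384))) (l 16760192)) (l 16753712))) (b (a (b (a (b (l 16764152) (l 16762664)) (b (l 16762616) (l 16761288))) (l 16760112)) (l 16758904)) (a (l 16756528) (l 16754112)))) (a (b (a (l 16756488) (l 16754096)) (a (l 16751712) (l 16749320))) (b (l 16750504) (l 16745752)))) (a (a (b (a (l 16751288) (l 16754072)) (a (l 16751528) (l 16749040))) (b (a (l 16751632) (l 16749216)) (a (l 16746584) (b (l 16745432) (l 16743112))))) (b (a (l 16745608) (l 16740832)) (a (b (l 16741904) (a (l 16741712) (l 16741192))) (b (a (l 16739152) (l 16738440)) (l 16741808)))))) (b (a (a (b (l 16745328) (l 16740784)) (b (l 16739536) (l 16735640))) (b (l 16732016) (a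 (b (l 16731912) (l 16731208)) (b (l 16728472) (l 16730488))))) (a (b (a (b (l 16737264) (a (l 16736680) (l 16735760))) (b (l 16733856) (l 16736216))) (l 16720712)) (b (l 16715288) (l 16723928))))) (a (b (a (b (a (b (a (l 16747640) (l 16745640)) (a (b (l 16746608) (l 16747824)) (l 16747120))) (b (a (l 16744408) (l 16744072)) (l 16747512))) (a (l 16752208) (l 16752832))) (b (l 16736496) (l 16733408))) (a (b (l 16738320) (l 16732704)) (b (l 16732720) (l 16721896)))) (b (a (l 16740496) (l 16726120)) (a (b (l 16721080) (l 16730888)) (l 16702688))))), by decide +kernel⟩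

def k19_pm_012_s : ∃ t, chk3 f_pm_012_s t 34 60 1 = true :=
  ⟨(a (l 3) (b (l 3) (a (b (l 3) (a (l 3) (b (a (l 3) (b (l 3) (a (l 3) (l 166060844999)))) (a (b (a (l 3) (l 200957448919)) (a (b (l 16771984) (l 16776104)) (l 16752712))) (b (a (l 138680441575) (l 16750680)) (l 16745472)))))) (b (a (b (l 3) (a (l 3) (b (l 270750642903) (a (l 16753368) (l 16753032))))) (b (a (a (l 3) (l 166060812983)) (b (l 130627351831) (l 16751064))) (a (b (a (l 16754648) (l 16772112)) (l 16746360)) (l 16741056)))) (a (b (a (b (a (l 16749392) (l 16765048)) (a (l 16752888) (l 16748320))) (b (l 16748448) (l 16740856))) (a (a (l 16741720) (l 16736616)) (a (l 16731552) (l 16726552)))) (b (a (l 16735024) (l 16726448)) (a (l 16724536) (l 16710496)))))))), by decide +kernel⟩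

def k20_pm_012_s : ∃ t, chk3 f_pm_012_s t 68 122 1 = true :=
  ⟨(a (b (l 3) (a (l 3) (b (l 3) (a (l 3) (b (l 3) (l 375977392935)))))) (b (a (l 3) (b (l 3) (a (l 413021493303) (b (a (l 3) (a (l 16770792) (l 193978138967))) (a (b (l 16773608) (l 16765192)) (l 16762736)))))) (a (b (a (l 3) (b (l 3) (a (l 238538411559) (b (l 16764104) (l 16754424))))) (a (b (a (l 3) (b (l 16771752) (l 16765928))) (a (b (l 198273111991) (l 16754040)) (l 16751736))) (b (a (a (l 16764992) (l 16752944)) (l 16749824)) (l 16745440)))) (b (a (b (a (b (l 3) (l 183240728167)) (b (l 16765744) (l 16752784))) (a (l 16762512) (l 16747568))) (b (l 16747480) (l 16740200))) (a (a (l 16742072) (l 16737352)) (a (l 16732208) (l 16726936))))))), by decide +kernel⟩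

def k21_pm_012_s : ∃ t, chk3 f_pm_012_s t 68 123 1 = true :=
  ⟨(a (b (a (b (l 3) (a (b (l 3) (a (l 3) (b (l 16761176) (l 175187664743)))) (b (a (l 239612146327) (b (l 214916105239) (l 16754728))) (a (a (l 16765216) (l 16753432)) (l 16750872))))) (b (a (b (l 423758898519) (a (b (l 3) (l 197736239591)) (a (l 167134610759) (l 16753928)))) (b (a (b (l 16772848) (l 16765624)) (l 16768968)) (l 16749400))) (a (b (b (l 16762928) (l 16749664)) (l 16745392)) (a (l 16742480) (l 16738440))))) (a (a (b (b (a (b (l 307257928519) (l 16754216)) (l 16752320)) (l 16748768)) (b (l 16743600) (l 16759440))) (b (b (l 16747160) (l 16741752)) (l 16744176))) (b (a (c (l 16737152) (l 16736664)) (l 16739208)) (a (l 16736200) (l 16727576))))) (b (a (b (a (b (l 16747520) (l 16741304)) (b (l 16738968) (l 16753512))) (a (l 16739928) (l 16728208))) (a (b (c (l 16726744) (l 16725976)) (c (l 16713688) (l 16712584))) (b (c (l 16716512) (l 16715480)) (l 16707696)))) (a (b (a (l 16730360) (l 16720808)) (a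 (b (l 16731768) (a (b (l 16729664) (l 16726824)) (b (l 16724936) (l 16723864)))) (b (a (b (l 16725968) (l 16717744)) (b (l 16715744) (l 16698904))) (l 16720840)))) (b (a (b (l 16724280) (a (b (l 16722040) (a (l 16720064) (l 16717768))) (b (a (l 16717968) (l 16715616)) (l 16694680)))) (b (a (b (l 16717816) (a (l 16715800) (l 16713392))) (b (a (l 16713552) (l 16711096)) (l 16690216))) (l 16712400))) (a (b (l 16716744) (l 16716360)) (l 16712192)))))), by decide +kernel⟩

def k22_pm_012_s : ∃ t, chk3 f_pm_012_s t 69 122 1 = true :=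
  ⟨(a (b (a (b (a (b (l 3) (a (l 3) (b (l 16772720) (l 16754944)))) (b (a (l 202568062135) (b (l 16776000) (l 16753384))) (a (l 16762976) (l 16747776)))) (b (a (a (b (l 16765936) (l 16753112)) (l 16750168)) (l 16742536)) (a (l 16745056) (l 16734592)))) (b (a (b (l 16747888) (l 16740008)) (a (l 16736128) (l 16730848))) (a (a (l 16730552) (l 16725104)) (c (l 16717400) (l 16716384))))) (a (b (a (b (l 16737296) (l 16750496)) (a (l 16725200) (l 16719592))) (a (c (l 16729528) (l 16728576)) (b (l 16731560) (l 16724264)))) (b (a (a (l 16713936) (l 16708248)) (b (l 16725016) (l 16716432))) (a (b (l 16719848) (l 16712248)) (b (l 16708224) (l 16700456)))))) (b (a (b (a (c (l 16723376) (l 16722504)) (c (l 16713208) (l 16712048))) (a (c (l 16706704) (l 16705400)) (l 16700848))) (b (a (l 16708096) (l 16694072)) (a (b (l 16711112) (l 16702488)) (b (l 16702376) (l 16693888))))) (a (b (a (b (l 16713984) (l 16705288)) (b (l 16703456) (l 16694728))) (a (b (l 16696976) (a (b (l 16693816) (b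 (l 16690888) (l 16668736))) (b (b (l 16689248) (l 16667088)) (l 16687336)))) (b (a (b (l 16691008) (a (l 16667256) (l 16665480))) (b (a (l 16666208) (l 16664592)) (l 16684816))) (l 16684792)))) (b (a (b (l 16693736) (a (b (l 16689520) (a (l 16665512) (l 16664056))) (b (a (l 16665176) (l 16663896)) (l 16683680)))) (b (a (b (l 16689376) (l 16684448)) (b (l 16680920) (l 16684016))) (l 16682496))) (b (l 16681592) (l 16679784)))))), by decide +kernel⟩

def k23_pm_012_s : ∃ t, chk3 f_pm_012_s t 69 123 1 = true :=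
  ⟨(a (b (a (b (a (l 16709976) (b (l 16717232) (l 16710424))) (a (b (l 16715448) (a (b (l 16713240) (a (l 16711224) (l 16708736))) (b (a (l 16708808) (l 16695816)) (l 16685488)))) (b (a (b (l 16708312) (a (l 16706312) (l 16693304))) (b (a (l 16703736) (l 16690728)) (l 16680496))) (l 16702952)))) (b (a (b (l 16705120) (a (b (l 16702992) (a (l 16701072) (l 16688072))) (b (a (l 16698320) (l 16685376)) (l 16675208)))) (b (a (b (l 16697848) (b (l 16695096) (l 16688712))) (b (b (l 16692840) (l 16681192)) (l 16691168))) (l 16692512))) (a (b (l 16697808) (l 16697920)) (l 16692872)))) (a (b (a (b (l 16707816) (l 16707648)) (l 16703104)) (l 16705976)) (b (l 16696472) (l 16697728)))) (b (a (b (a (l 16687888) (l 16683576)) (l 16686032)) (b (l 16678200) (l 16677640))) (a (b (l 16687440) (l 16689464)) (b (l 16678848) (l 16680928))))), by decide +kernel⟩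

def k24_pm_012_s : ∃ t, chk3 f_pm_012_s t 35 60 1 = true :=
  ⟨(a (b (a (b (a (l 3) (b (l 3) (a (l 16737064) (l 111299985095)))) (a (a (b (l 3) (b (l 16766696) (l 16754200))) (b (l 151565282855) (l 16750128))) (a (b (l 16750416) (l 16743264)) (l 16742152)))) (a (b (b (a (l 16746744) (l 16774128)) (l 16747720)) (a (l 16736424) (l 16731640))) (b (l 16742296) (l 16726280)))) (a (b (a (b (l 16747536) (a (l 16733296) (l 16747344))) (b (l 16729032) (l 16717688))) (a (b (a (l 16718776) (l 16712336)) (a (l 16702920) (l 16696760))) (b (l 16704664) (a (l 16712520) (b (l 16712552) (l 16704600)))))) (b (a (b (l 16740448) (l 16730384)) (b (l 16734752) (a (l 16726720) (l 16725552)))) (a (b (a (l 16720040) (l 16706920)) (a (b (l 16709592) (l 16704008)) (l 16707824))) (b (a (b (l 16719080) (l 16715056)) (l 16718880)) (l 16710736)))))) (b (a (a (b (l 16736176) (l 16743664)) (b (l 16734104) (b (l 16746936) (l 16741552)))) (b (a (l 16756856) (l 16739984)) (a (l 16728088) (l 16756136)))) (b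 (a (a (b (l 16712416) (l 16728048)) (l 16714640)) (l 16724632)) (a (l 16701192) (l 16713424))))), by decide +kernel⟩

def k25_pm_012_s : ∃ t, chk3 f_pm_012_s t 35 61 1 = true :=
  ⟨(b (a (a (b (a (b (a (l 16686496) (b (l 16705272) (l 16696928))) (a (b (l 16694856) (a (b (l 16690160) (l 16676344)) (l 16686936))) (b (a (b (l 16692040) (l 16667976)) (l 16689552)) (l 16685816)))) (b (a (b (l 16700152) (a (b (l 16695088) (l 16692168)) (l 16693280))) (b (a (l 16698096) (l 16698232)) (l 16693616))) (l 16687352))) (b (a (l 16681288) (l 16679480)) (a (l 16675808) (l 16672712)))) (b (b (a (l 16698016) (l 16702240)) (a (l 16689104) (l 16692088))) (b (a (l 16679440) (l 16681560)) (a (l 16671296) (l 16671608))))) (b (a (l 16683544) (l 16694800)) (a (b (a (l 16684864) (l 16689680)) (a (l 16674032) (l 16677616))) (l 16670696)))) (a (b (a (b (a (l 16672344) (l 16668040)) (a (l 16670760) (l 16665320))) (b (a (l 16665320) (l 16664240)) (b (l 16660936) (l 16659136)))) (a (b (a (l 16670912)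 (l 16664424)) (a (l 16672768) (l 16665208))) (b (l 16657328) (l 16656480)))) (a (b (a (l 16650768) (b (l 16667536) (l 16659032))) (b (l 16653080) (l 16649728))) (b (a (l 16666400) (l 16670960)) (b (l 16655976) (l 16649008)))))), by decide +kernel⟩

def k26_pm_012_s : ∃ t, chk3 f_pm_012_s t 34 31 1 = true :=
  ⟨(b (a (b (a (a (b (b (a (l 16741304) (l 16733520)) (a (b (l 16744184) (a (b (l 16742368) (l 16740232)) (b (l 16738704) (l 16737768)))) (b (a (b (l 16739464) (l 16737144)) (b (l 16735536) (l 16734584))) (l 16735056)))) (b (a (l 16737704) (l 16733912)) (l 16734296))) (b (b (a (b (l 16738360) (a (b (l 16736392) (l 16733888)) (b (l 16732192) (l 16731208)))) (b (a (b (l 16733128) (l 16730456)) (b (l 16728664) (l 16727640))) (l 16728360))) (a (l 16731544) (l 16727512))) (l 16728104))) (b (a (b (a (l 16724584) (l 16720296)) (l 16721920)) (l 16714536)) (a (l 16721472) (l 16715048)))) (b (a (a (l 16732040) (l 16726248)) (a (l 16720712) (l 16715328))) (a (a (l 16728584) (l 16723856))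 (b (l 16717416) (a (l 16719304) (l 16706120)))))) (b (a (b (a (l 16707112) (l 16699728)) (a (l 16708720) (l 16702416))) (b (l 16678080) (l 16692856))) (b (a (l 16707376) (b (l 16695784) (a (l 16700408) (l 16696488)))) (a (b (a (l 16710896) (l 16707656)) (a (l 16715520) (l 16716488))) (b (l 16684960) (l 16717904)))))) (b (a (b (a (b (a (l 16726072) (b (l 16722520) (l 16724408))) (l 16720024)) (b (l 16713456) (l 16734040))) (a (l 16723432) (l 16725792))) (b (a (l 16711296) (l 16714320)) (l 16696408))) (a (b (a (l 16713352) (l 16700000)) (a (l 16710120) (l 16696000))) (b (l 16658512) (l 16653096))))), by decide +kernel⟩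

def k27_pm_012_s : ∃ t, chk3 f_pm_012_s t 35 31 1 = true :=
  ⟨(b (b (a (b (a (b (l 16671496) (l 16674360)) (b (l 16657304) (l 16660016))) (a (l 16679632) (b (l 16663336) (a (l 16671432) (l 16644544))))) (b (a (b (l 16648200) (l 16648376)) (b (l 16644776) (a (l 16623024) (l 16644032)))) (a (b (a (l 16653472) (l 16636016)) (a (l 16661480) (l 16660392))) (b (l 16628752) (l 16661264))))) (a (b (a (b (a (l 16687400) (l 16682648)) (l 16693672)) (b (l 16678504) (l 16692704))) (l 16692392)) (b (a (l 16661936) (l 16660848)) (a (l 16691960) (l 16690024))))) (b (a (a (l 16682576) (l 16671664)) (a (l 16661520) (l 16652328))) (a (b (l 16673416) (l 16644720)) (b (l 16648488) (l 16617024))))), by decide +kernel⟩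

def k28_pm_012_s : ∃ t, chk3 f_pm_012_s t 18 14 1 = true :=
  ⟨(b (a (a (l 3) (b (l 3) (a (b (l 3) (a (l 3) (l 152102075335))) (b (l 284709133591) (a (l 16719744) (l 16741240)))))) (a (b (b (l 3) (a (l 414095129671) (b (l 16764008) (l 16744544)))) (a (b (a (l 16745848) (l 16743232)) (l 16696416)) (b (l 16697904) (l 16678992)))) (b (a (b (l 79087687799) (l 16720400)) (b (l 16721504) (l 16702328))) (b (a (l 16679800) (a (l 16669400) (l 16647320))) (a (b (l 16668312) (a (l 16656784) (l 16637232))) (b (a (l 16636032) (l 16621528)) (l 16617632))))))) (a (a (b (a (b (l 3) (b (l 271287380679) (a (l 16763296) (l 16773320)))) (b (b (l 3) (a (l 16749536) (l 16775128))) (a (b (l 16774160) (l 16764776)) (l 16738240)))) (a (b (a (b (l 16772872) (l 16766272)) (l 16739744)) (b (l 16733256) (a (l 16753400) (l 16719272)))) (b (b (l 16727048) (l 16715696)) (b (a (l 16733416) (l 16718784)) (l 16699280))))) (b (b (a (a (b (l 16770360) (l 16766224)) (l 16739288)) (a (l 16724752) (l 16708008)))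 (a (a (l 16725024) (l 16709464)) (b (l 16711944) (a (l 16704360) (l 16684624))))) (b (a (b (a (l 16725288) (l 16706984)) (a (l 16711888) (l 16696872))) (b (a (l 16690024) (l 16674992)) (l 16675712))) (a (b (l 16697760) (l 16693216)) (l 16668208))))) (b (a (b (a (l 16658536) (b (a (l 16679320) (l 16656992)) (a (l 16659232) (l 16643616)))) (a (b (a (l 16681304) (l 16663264)) (l 16641256)) (l 16638520))) (b (a (b (l 16612968) (l 16623816)) (l 16604024)) (l 16599968))) (b (a (l 16596392) (l 16585536)) (a (b (l 16630184) (l 16625520)) (b (l 16576320) (l 16571136))))))), by decide +kernel⟩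

def k29_pm_012_s : ∃ t, chk3 f_pm_012_s t 19 14 1 = true :=
  ⟨(b (a (a (b (a (b (l 16704336) (l 16661960)) (b (l 16666568) (b (l 16634504) (l 16618880)))) (b (a (b (l 16608896) (l 16616176)) (l 16600824)) (l 16589648))) (b (a (b (b (l 16643192) (l 16626248)) (l 16607544)) (b (l 16619320) (l 16593392))) (b (l 16575656) (l 16551272)))) (b (a (l 16570400) (l 16577720)) (b (l 16534600) (l 16460400)))) (a (b (b (a (l 16569920) (l 16527424)) (a (l 16551096) (l 16505064))) (b (a (l 16534224) (l 16485264)) (a (l 16520232) (l 16468944)))) (b (b (a (l 16489000) (l 16455368)) (a (l 16462648) (l 16424560))) (b (a (l 16439432) (b (l 16403208) (a (l 16401280) (l 16376640)))) (a (b (l 16424096) (a (l 16427704) (l 16399496))) (b (a (l 16386312) (l 16352296)) (l 16344648))))))), by decide +kernel⟩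

def k30_pm_012_s : ∃ t, chk3 f_pm_012_s t 9 30 1 = true :=
  ⟨(a (b (a (b (a (a (b (l 16721560) (l 16740448)) (l 16694336)) (a (l 16688896) (l 16662000))) (a (b (b (l 16706824) (l 16707408)) (a (l 16724496) (l 16699864))) (b (l 16654528) (l 16660856)))) (b (a (a (l 16634792) (l 16607400)) (l 16545280)) (a (b (l 16621360) (l 16628056)) (b (l 16566384) (a (l 16586984) (l 16558112)))))) (a (b (a (b (a (l 16707848) (l 16714944)) (a (l 16682784) (l 16696496))) (b (l 16656080) (l 16679080))) (b (a (l 16643880) (a (l 16686224) (l 16683872))) (a (a (l 16638288) (b (l 16676216) (l 16647872))) (a (b (l 16671856) (l 16690736)) (l 16717408))))) (b (a (b (l 16623688) (a (l 16659560) (l 16608200))) (b (a (l 16580152) (l 16567592)) (l 16572504))) (a (b (a (l 16674936) (l 16657552)) (l 16635800)) (l 16558304))))) (b (a (b (a (l 16511888) (b (l 16459064) (a (l 16468912) (l 16436600)))) (a (b (a (l 16524888) (b (l 16496632) (l 16494616))) (a (b (l 16526920) (l 16527712)) (l 16488384))) (b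 (a (l 16459624) (l 16419112)) (l 16427640)))) (b (a (a (b (l 16416232) (l 16397152)) (l 16367744)) (l 16309128)) (a (b (l 16358808) (l 16346592)) (b (l 16278968) (l 16265760))))) (a (b (a (b (l 16507288) (l 16513352)) (b (l 16426096) (l 16431912))) (a (l 16520408) (l 16438896))) (b (a (b (l 16344416) (l 16349768)) (b (l 16262752) (l 16267432))) (a (l 16356360) (l 16273336)))))), by decide +kernel⟩

def k31_pm_012_s : ∃ t, chk3 f_pm_012_s t 9 31 1 = true :=
  ⟨(a (b (a (a (b (b (a (b (a (l 16647088) (l 16652320)) (l 16651184)) (l 16646912)) (a (l 16641624) (l 16656320))) (b (a (l 16662448) (l 16670312)) (a (l 16689664) (l 16691896)))) (b (b (l 16662656) (a (l 16675088) (l 16720064))) (a (b (l 16685600) (l 16694240)) (b (l 16688072) (l 16670600))))) (a (b (b (l 16632824) (l 16647776)) (a (b (l 16676344) (l 16664016)) (l 16636720))) (b (a (l 16616624) (l 16578096)) (a (l 16601560) (l 16564608))))) (a (b (a (b (a (l 16684520) (l 16676296)) (a (l 16667800) (l 16660456))) (b (a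 (l 16665576) (l 16669736)) (a (l 16651704) (l 16640536)))) (a (b (l 16627152) (l 16592512)) (b (a (l 16614728) (l 16605560)) (a (l 16577088) (l 16568872))))) (a (b (b (a (l 16645656) (l 16617728)) (a (l 16623320) (l 16598904))) (b (a (l 16594024) (l 16576504)) (a (l 16559376) (l 16547568)))) (b (a (b (l 16584296) (l 16570680)) (l 16543328)) (b (a (l 16551832) (l 16523408)) (a (l 16529832) (l 16504992))))))) (a (b (b (a (l 16518456) (l 16437424)) (a (l 16444408) (l 16427400))) (a (b (a (l 16507664) (l 16470296)) (a (b (l 16489576) (l 16476448)) (l 16448464))) (b (l 16412536) (a (l 16412616) (l 16375128))))) (b (b (a (l 16354952) (l 16271592)) (a (l 16345672) (l 16262672))) (a (b (l 16332200) (l 16317304)) (b (l 16250256) (l 16237096)))))), by decide +kernel⟩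

def k32_pm_012_s : ∃ t, chk3 f_pm_012_s t 5 6 1 = true :=
  ⟨(a (b (b (a (a (a (b (l 16771528) (l 16771480)) (a (l 16764944) (l 16759752))) (a (a (l 16760152) (l 16764968)) (a (l 16767056) (l 16765336)))) (l 16746400)) (a (a (a (b (l 16757152) (l 16739424)) (b (l 16747720) (l 16739504))) (a (a (l 16749672) (l 16751736)) (a (l 16752336) (l 16752088)))) (l 16683296))) (b (a (a (a (b (a (l 16724368) (l 16725168)) (l 16712080)) (b (l 16730600) (l 16714616))) (a (l 16726368) (b (l 16695264) (l 16681752)))) (b (l 16753160) (l 16739048))) (a (a (b (l 16693064) (b (l 16664136) (l 16629096))) (a (b (l 16697912) (l 16653432)) (a (b (l 16700160) (l 16655672)) (a (b (l 16700960) (l 16608680)) (b (l 16658440) (b (l 16622128) (l 16614616))))))) (b (l 16697464) (l 16569480))))) (b (a (b (l 16721728) (l 16720040)) (b (l 16692288) (l 16674880))) (b (a (l 16727256) (l 16669728)) (b (a (l 16739624) (l 16674664)) (a (l 16633240) (l 16702944)))))), by decide +kernel⟩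

def k33_pm_012_s : ∃ t, chk3 f_pm_012_s t 5 14 1 = true :=
  ⟨(a (a (b (a (b (b (l 16591904) (l 16548032)) (a (l 16465376) (b (l 16497256) (l 16448736)))) (a (b (b (l 16595920) (l 16545704)) (b (a (l 16494568) (l 16487776)) (a (l 16435024) (l 16412504)))) (b (a (b (l 16594568) (l 16538000)) (a (l 16524000) (l 16520600))) (a (l 16401592) (a (l 16390872) (l 16262536)))))) (a (b (a (b (l 16427192) (a (l 16398344) (l 16358032))) (b (a (l 16407688) (l 16390928)) (a (l 16354624) (l 16322704)))) (a (b (a (b (l 16370832) (l 16344080)) (l 16323976)) (l 16283336)) (b (l 16272176) (l 16210432)))) (a (b (b (l 16347600) (l 16273120)) (b (l 16202352) (l 16073344))) (b (a (l 16154792) (a (l 16183368) (b (l 16242248) (l 16160744)))) (a (b (l 16146472) (l 16077168)) (a (b (l 16109808) (l 16039296)) (b (l 16083880) (b (l 16009048) (l 15975160))))))))) (b (b (l 16487080) (a (b (l 16406648) (l 16319808)) (l 16379776))) (b (a (b (l 16234592) (l 16146784)) (b (l 16245800) (l 16148400))) (a (b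 (l 16060360) (l 15981200)) (b (l 16055472) (l 15962848)))))) (b (b (a (l 16548752) (l 16614704)) (a (l 16386080) (l 16449536))) (a (b (l 16115560) (a (b (l 16065544) (l 15963272)) (l 16027056))) (b (l 16237096) (b (l 16104608) (l 16000560)))))), by decide +kernel⟩

def k34_pm_012_s : ∃ t, chk3 f_pm_012_s t 10 15 1 = true :=
  ⟨(b (a (a (b (b (a (l 16232008) (l 16155504)) (a (b (l 16199784) (l 16185400)) (b (l 16120992) (l 16105288)))) (b (a (b (l 16181376) (l 16185208)) (b (l 16100112) (l 16102952))) (a (l 16190152) (l 16106728)))) (b (a (b (a (l 16098416) (l 16058848)) (b (l 16040712) (l 16023632))) (a (b (l 16015800) (a (l 15958904) (l 15935544))) (a (b (l 15956024) (l 15917544)) (b (a (a (a (l 15958112) (l 15928464)) (l 15943320)) (l 15940376)) (a (a (a (l 15909168) (a (l 15903248) (b (l 15907992) (l 15889952)))) (l 15894664)) (l 15891136)))))) (a (b (b (l 16017248) (l 16019048)) (l 16021608)) (a (b (l 15931296) (l 15954784)) (a (b (b (l 15912224) (l 15913224)) (l 15914992))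 (b (a (a (a (l 15893800) (a (l 15888104) (b (l 15882872) (l 15884240)))) (l 15879672)) (l 15875608)) (a (a (a (l 15896608) (b (l 15888824) (l 15888648))) (l 15882960)) (l 15878400)))))))) (b (b (a (l 15910976) (l 15855264)) (a (a (l 15850088) (l 15819040)) (a (l 15794408) (l 15776648)))) (b (a (b (l 15834096) (l 15832088)) (b (l 15774728) (l 15766176))) (a (l 15808760) (l 15733472))))) (a (a (b (a (b (l 16187728) (l 16178808)) (b (l 16103344) (l 16094168))) (a (b (l 16167112) (l 16155392)) (b (l 16082936) (l 16072416)))) (a (b (b (l 16017200) (l 16007736)) (b (l 15996960) (l 15987672))) (a (b (b (l 15949800) (l 15940336)) (l 15920208)) (a (b (b (l 15910328) (l 15901512)) (l 15867280)) (a (a (a (b (l 15888384) (l 15872120)) (b (a (l 15883432) (b (l 15883024) (l 15875480))) (b (l 15890576) (l 15885400)))) (b (l 15875664) (l 15861008))) (b (l 15870448) (l 15855096))))))) (b (a (b (l 15820248) (l 15807456)) (b (l 15712296) (l 15688776))) (a (b (l 15795160) (l 15786208)) (b (l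 15666728) (l 15649024)))))), by decide +kernel⟩

def k35_pm_012_s : ∃ t, chk3 f_pm_012_s t 11 15 1 = true :=
  ⟨(b (b (a (b (a (l 15870104) (l 15878992)) (a (a (l 15766192) (l 15763600)) (a (l 15764504) (l 15790648)))) (b (l 15898752) (l 15804848))) (a (b (a (b (l 15742376) (l 15726392)) (b (l 15737920) (l 15715856))) (a (a (l 15713952) (l 15695496)) (a (l 15684352) (l 15681072)))) (b (l 15718608) (a (a (l 15681312) (l 15685824)) (l 15692576))))) (a (b (a (a (l 15645216) (l 15616064)) (a (l 15593576) (l 15578184))) (a (b (l 15599128) (l 15549632)) (a (l 15506432) (l 15476504)))) (b (a (a (l 15592424) (l 15589912)) (a (l 15568240) (l 15595840))) (a (a (l 15453240) (l 15437080)) (a (l 15387632) (l 6)))))), by decide +kernel⟩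

def k36_pm_012_s : ∃ t, chk3 f_pm_012_s t 3 1 1 = true :=
  ⟨(b (a (b (l 2) (b (l 2) (b (l 2) (a (l 16695576) (l 2))))) (l 2)) (a (a (a (b (b (b (l 16671720) (l 16646248)) (b (l 16624536) (b (l 16618864) (l 16632928)))) (b (b (b (l 16658264) (l 16473184)) (b (l 16301296) (l 16028384))) (b (b (b (l 15934440) (l 15837216)) (b (l 15747136) (l 15712312))) (l 6)))) (b (b (b (l 16661960) (l 16626704)) (b (l 16596152) (l 16492576))) (b (b (b (l 16625848) (l 16535568)) (b (l 16344512) (l 6))) (l 6)))) (a (b (b (l 16573664) (b (l 16577088) (l 16544864))) (l 6)) (b (l 6) (l 6)))) (l 6))), by decide +kernel⟩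

theorem s37_pm_012_s : ∃ t, chk3 f_pm_012_s t 5 15 1 = true := ex3_a k34_pm_012_s k35_pm_012_s

theorem s38_pm_012_s : ∃ t, chk3 f_pm_012_s t 5 7 1 = true := ex3_b k33_pm_012_s s37_pm_012_s

theorem s39_pm_012_s : ∃ t, chk3 f_pm_012_s t 5 3 1 = true := ex3_b k32_pm_012_s s38_pm_012_s

theorem s40_pm_012_s : ∃ t, chk3 f_pm_012_s t 9 15 1 = true := ex3_b k30_pm_012_s k31_pm_012_s

theorem s41_pm_012_s : ∃ t, chk3 f_pm_012_s t 9 14 1 = true := ex3_a k28_pm_012_s k29_pm_012_s

theorem s42_pm_012_s : ∃ t, chk3 f_pm_012_s t 9 7 1 = true := ex3_b s41_pm_012_s s40_pm_012_s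

theorem s43_pm_012_s : ∃ t, chk3 f_pm_012_s t 17 31 1 = true := ex3_a k26_pm_012_s k27_pm_012_s

theorem s44_pm_012_s : ∃ t, chk3 f_pm_012_s t 35 30 1 = true := ex3_b k24_pm_012_s k25_pm_012_s

theorem s45_pm_012_s : ∃ t, chk3 f_pm_012_s t 69 61 1 = true := ex3_b k22_pm_012_s k23_pm_012_s

theorem s46_pm_012_s : ∃ t, chk3 f_pm_012_s t 68 61 1 = true := ex3_b k20_pm_012_s k21_pm_012_s

theorem s47_pm_012_s : ∃ t, chk3 f_pm_012_s t 34 61 1 = true := ex3_a s46_pm_012_s s45_pm_012_s

theorem s48_pm_012_s : ∃ t, chk3 f_pm_012_s t 34 30 1 = true := ex3_b k19_pm_012_s s47_pm_012_s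

theorem s49_pm_012_s : ∃ t, chk3 f_pm_012_s t 17 30 1 = true := ex3_a s48_pm_012_s s44_pm_012_s

theorem s50_pm_012_s : ∃ t, chk3 f_pm_012_s t 17 15 1 = true := ex3_b s49_pm_012_s s43_pm_012_s

theorem s51_pm_012_s : ∃ t, chk3 f_pm_012_s t 131 126 1 = true := ex3_b k15_pm_012_s k16_pm_012_s

theorem s52_pm_012_s : ∃ t, chk3 f_pm_012_s t 130 507 1 = true := ex3_a k13_pm_012_s k14_pm_012_s

theorem s53_pm_012_s : ∃ t, chk3 f_pm_012_s t 130 253 1 = true := ex3_b k12_pm_012_s s52_pm_012_s

theorem s54_pm_012_s : ∃ t, chk3 f_pm_012_s t 130 126 1 = true := ex3_b k11_pm_012_s s53_pm_012_s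

theorem s55_pm_012_s : ∃ t, chk3 f_pm_012_s t 65 126 1 = true := ex3_a s54_pm_012_s s51_pm_012_s

theorem s56_pm_012_s : ∃ t, chk3 f_pm_012_s t 65 63 1 = true := ex3_b s55_pm_012_s k17_pm_012_s

theorem s57_pm_012_s : ∃ t, chk3 f_pm_012_s t 32 63 1 = true := ex3_a k10_pm_012_s s56_pm_012_s

theorem s58_pm_012_s : ∃ t, chk3 f_pm_012_s t 16 63 1 = true := ex3_a s57_pm_012_s k18_pm_012_s

theorem s59_pm_012_s : ∃ t, chk3 f_pm_012_s t 67 62 1 = true := ex3_b k8_pm_012_s k9_pm_012_s

theorem s60_pm_012_s : ∃ t, chk3 f_pm_012_s t 66 125 1 = true := ex3_a k6_pm_012_s k7_pm_012_s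

theorem s61_pm_012_s : ∃ t, chk3 f_pm_012_s t 66 62 1 = true := ex3_b k5_pm_012_s s60_pm_012_s

theorem s62_pm_012_s : ∃ t, chk3 f_pm_012_s t 33 62 1 = true := ex3_a s61_pm_012_s s59_pm_012_s

theorem s63_pm_012_s : ∃ t, chk3 f_pm_012_s t 16 62 1 = true := ex3_a k4_pm_012_s s62_pm_012_s

theorem s64_pm_012_s : ∃ t, chk3 f_pm_012_s t 16 31 1 = true := ex3_b s63_pm_012_s s58_pm_012_s

theorem s65_pm_012_s : ∃ t, chk3 f_pm_012_s t 16 15 1 = true := ex3_b k3_pm_012_s s64_pm_012_s

theorem s66_pm_012_s : ∃ t, chk3 f_pm_012_s t 8 15 1 = true := ex3_a s65_pm_012_s s50_pm_012_s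

theorem s67_pm_012_s : ∃ t, chk3 f_pm_012_s t 8 7 1 = true := ex3_b k2_pm_012_s s66_pm_012_s

theorem s68_pm_012_s : ∃ t, chk3 f_pm_012_s t 4 7 1 = true := ex3_a s67_pm_012_s s42_pm_012_s

theorem s69_pm_012_s : ∃ t, chk3 f_pm_012_s t 4 3 1 = true := ex3_b k1_pm_012_s s68_pm_012_s

theorem s70_pm_012_s : ∃ t, chk3 f_pm_012_s t 2 3 1 = true := ex3_a s69_pm_012_s s39_pm_012_s

theorem s71_pm_012_s : ∃ t, chk3 f_pm_012_s t 2 1 1 = true := ex3_b k0_pm_012_s s70_pm_012_s

theorem s72_pm_012_s : ∃ t, chk3 f_pm_012_s t 1 1 1 = true := ex3_a s71_pm_012_s k36_pm_012_s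

theorem c_pm_012_s : CertNE 0 536870912 536870912 536870912 1033476505 6710887 3 eng mog cd0q0 cd0q1 pd2 true true false .pnp 0 1 2
    ndB0q0 ndB0q1 pcB2 cut_pm_012_s Ext.none :=
  certNE2 (fam := true) (s1 := true) (s2 := false) (a := 0) (b := 1) (c := 2) (cn := .pnp) (n1 := ndB0q0) (n2 := ndB0q1) (pc := pcB2) (cut := cut_pm_012_s) (xt := Ext.none) (P1 := 0) (W1 := 536870912) (P2 := 536870912) (W2 := 536870912) (P3 := 1033476505) (W3 := 6710887) (N0 := 3) (En := eng) (mo := mog) (C1 := cd0q0) (C2 := cd0q1) (C3 := pd2)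
    rfl (fun _ => rfl) s72_pm_012_s

noncomputable def cut_pm_012_t : Cut := Cut.of [[⟨3, 0, 0, 2845415833⟩], [⟨0, 0, 0, 16777216⟩, ⟨1, 1, 0, 16777216⟩, ⟨2, 1, 0, 16777216⟩]]

noncomputable def f_pm_012_t : ℕ → ℕ → ℕ → ℕ → Bool := onCell 0 536870912 536870912 536870912 1033476505 6710887
    (rowNE 3 eng mog cd0q0 cd0q1 pd2 0 true true false .pnp 0 1 2 (qsf 0 536870912 536870912 536870912 2) ndB0q0 ndB0q1 pcB2 cut_pm_012_t Ext.none)

def k0_pm_012_t : ∃ t, chk3 f_pm_012_t t 1 1 1 = true :=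
  ⟨(l 6), by decide +kernel⟩

theorem c_pm_012_t : CertNE 0 536870912 536870912 536870912 1033476505 6710887 3 eng mog cd0q0 cd0q1 pd2 true true false .pnp 0 1 2
    ndB0q0 ndB0q1 pcB2 cut_pm_012_t Ext.none :=
  certNE0 (fam := true) (s1 := true) (s2 := false) (a := 0) (b := 1) (c := 2) (cn := .pnp) (n1 := ndB0q0) (n2 := ndB0q1) (pc := pcB2) (cut := cut_pm_012_t) (xt := Ext.none) (P1 := 0) (W1 := 536870912) (P2 := 536870912) (W2 := 536870912) (P3 := 1033476505) (W3 := 6710887) (N0 := 3) (En := eng) (mo := mog) (C1 := cd0q0) (C2 := cd0q1) (C3 := pd2)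
    rfl k0_pm_012_t

noncomputable def cut_pm_022_s : Cut := Cut.of [[⟨4, 0, 0, 1449551462⟩], [⟨0, 0, 0, 26843545⟩, ⟨1, 1, 0, 26843545⟩, ⟨2, 1, 0, 26843545⟩]]

noncomputable def f_pm_022_s : ℕ → ℕ → ℕ → ℕ → Bool := onCell 1073741824 536870912 0 536870912 1033476505 6710887
    (rowNE 3 eng mog cd0q0 cd0q2 pd2 2 true true false .pp 0 2 2 (qsf 0 536870912 0 536870912 2) ndB0q0 ndB0q2 pcB2 cut_pm_022_s Ext.none)

def k0_pm_022_s : ∃ t, chk3 f_pm_022_s t 4 2 1 = true :=
  ⟨(a (l 1) (l 6)), by decide +kernel⟩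

def k1_pm_022_s : ∃ t, chk3 f_pm_022_s t 8 3 1 = true :=
  ⟨(b (l 1) (a (b (l 1) (a (b (l 1) (l 14)) (a (b (b (l 1) (b (l 1) (l 14))) (l 14)) (b (b (b (l 1) (b (l 1) (a (l 1) (l 16672784)))) (b (a (l 16691568) (l 16700272)) (a (l 16682120) (l 16690528)))) (b (b (a (l 16696944) (l 16704880)) (b (l 16712856) (l 16713560))) (b (b (l 16710040) (l 16706424)) (b (l 16702856) (l 16699504)))))))) (b (b (a (l 1) (b (l 1) (b (l 16350272) (l 16418616)))) (b (a (l 1) (b (l 16487696) (l 16555696))) (a (b (a (l 1) (l 16587064)) (a (l 16621464) (l 16619528))) (b (l 16558024) (l 16632632))))) (b (b (a (b (b (l 16618312) (l 16637000)) (a (b (l 16689632) (b (l 16684512) (l 16710472))) (a (l 16652392) (l 16635768)))) (b (l 16599936) (a (b (l 16658792) (l 16623336)) (l 16596184)))) (a (a (b (l 16692432) (l 16692912)) (b (l 16658408) (l 16679936))) (a (b (l 16643664) (l 16644424)) (b (l 16607200) (l 16608336))))) (a (b (a (b (l 16689840) (l 16684672)) (b (l 16677200) (l 16672688))) (a (b (l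 16678536) (a (l 16701000) (l 16686120))) (b (l 16667536) (l 16662912)))) (b (a (b (l 16642184) (l 16638480)) (b (l 16606720) (l 16604120))) (a (b (l 16634456) (l 16631584)) (b (l 16601800) (l 16601136))))))))), by decide +kernel⟩

def k2_pm_022_s : ∃ t, chk3 f_pm_022_s t 9 6 1 = true :=
  ⟨(b (a (l 1) (l 6)) (a (b (a (l 1) (b (l 15959744) (l 16037872))) (a (b (l 16066840) (l 16180136)) (b (l 16135640) (l 16249016)))) (a (b (b (l 16040904) (l 16119192)) (b (l 16215472) (l 16325640))) (b (l 6) (l 16224576))))), by decide +kernel⟩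

def k3_pm_022_s : ∃ t, chk3 f_pm_022_s t 9 7 1 = true :=
  ⟨(b (b (a (b (a (l 16306224) (l 16373504)) (a (l 16377320) (l 16462248))) (b (a (l 16445448) (l 16492680)) (b (l 16485376) (l 16544440)))) (a (b (a (l 16471496) (l 16551640)) (a (b (l 16620880) (l 16578592)) (b (l 16569872) (l 16550288)))) (b (a (l 16537848) (l 16499872)) (a (b (l 16525056) (l 16488736)) (a (l 16448256) (b (l 16467136) (l 16437992))))))) (b (a (b (a (b (l 16571496) (a (l 16581976) (l 16547440))) (b (l 16524600) (a (l 16514664) (l 16484848)))) (a (a (b (l 16570888) (l 16572600)) (b (l 16535640) (l 16538568))) (a (b (l 16502536) (l 16507440)) (b (l 16473552) (l 16480832))))) (b (a (b (l 16468224) (a (l 16459664) (l 16442400))) (b (a (l 16440232) (l 16419880)) (a (l 16424728) (l 16401120)))) (a (a (b (l 16449736) (a (l 16464464) (l 16456136))) (b (b (l 16430080) (l 16435576)) (l 16441224))) (a (b (b (l 16412536) (l 16413760)) (l 16412048)) (b (a (l 16387088) (l 16362712)) (l 16360464)))))) (a (a (b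 (a (b (l 16572112) (l 16571064)) (b (l 16539656) (l 16540984))) (a (b (l 16571016) (l 16573416)) (b (l 16543856) (l 16549808)))) (b (a (b (l 16510968) (l 16515176)) (b (l 16487216) (a (l 16500864) (l 16490896)))) (a (b (a (l 16526600) (l 16517816)) (a (l 16536184) (l 16526648))) (b (a (l 16508304) (l 16497984)) (a (l 16515328) (l 16498392)))))) (a (b (a (b (l 16469128) (a (l 16480144) (l 16467752))) (b (l 16444864) (a (l 16449064) (l 16423928)))) (a (b (a (l 16482728) (l 16462200)) (a (l 16474096) (l 16446944))) (b (a (l 16435240) (l 16404384)) (a (l 16414880) (l 16378968))))) (b (a (b (a (l 16412184) (l 16385280)) (a (l 16394848) (l 16361640))) (b (a (l 16354872) (l 16320488)) (l 16310160))) (a (b (l 16352464) (l 16324032)) (b (l 16279848) (l 16247704)))))))), by decide +kernel⟩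

def k4_pm_022_s : ∃ t, chk3 f_pm_022_s t 5 1 1 = true :=
  ⟨(b (l 6) (b (a (b (l 6) (a (b (l 6) (a (l 16319592) (l 6))) (l 6))) (l 6)) (a (b (a (b (a (b (l 16569208) (a (l 16600600) (l 16581120))) (b (l 16541400) (a (l 16535648) (l 16480080)))) (a (b (a (l 16511712) (l 16445776)) (a (b (l 16447032) (l 16415320)) (b (l 16415016) (l 16372592)))) (b (a (l 16411672) (l 16360672)) (b (a (l 16366864) (l 16305736)) (l 16283440))))) (b (a (l 6) (l 6)) (b (a (l 16307504) (l 6)) (a (b (l 16209064) (l 16154432)) (l 15943064))))) (a (b (a (b (b (a (l 16387880) (l 16337984)) (a (l 16356352) (l 16297560))) (a (b (b (l 16326400) (l 16313512)) (l 16296368)) (b (l 16256640) (l 16228656)))) (b (b (l 16244104) (l 16202080)) (a (b (l 16190696) (l 16158256)) (a (l 16121360) (a (l 16094864) (a (a (b (a (l 16103928) (l 16102928)) (l 16065016)) (l 16078744)) (l 16072392))))))) (a (b (a (l 16295352) (l 16179960)) (a (b (l 16203704) (l 16168096)) (l 16105912))) (a (b (l 16103752) (l 16024504)) (a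 (b (l 16045784) (l 15961816)) (a (b (l 16015264) (l 15927760)) (b (l 15994664) (b (l 15906608) (l 15861168)))))))) (b (b (a (b (l 16111960) (l 16068600)) (l 15956328)) (a (b (l 16020952) (l 15981088)) (l 15869448))) (b (a (l 15917688) (l 15788992)) (a (l 15807120) (l 15704488)))))) (b (l 6) (a (a (b (b (l 15829776) (l 15746560)) (b (l 15671544) (l 15595112))) (b (l 6) (b (l 15569640) (l 15483232)))) (b (l 6) (b (l 6) (a (b (l 6) (l 15424512)) (l 6))))))))), by decide +kernel⟩

def k5_pm_022_s : ∃ t, chk3 f_pm_022_s t 3 1 1 = true :=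
  ⟨(b (l 6) (l 6)), by decide +kernel⟩

theorem s6_pm_022_s : ∃ t, chk3 f_pm_022_s t 9 3 1 = true := ex3_b k2_pm_022_s k3_pm_022_s

theorem s7_pm_022_s : ∃ t, chk3 f_pm_022_s t 4 3 1 = true := ex3_a k1_pm_022_s s6_pm_022_s

theorem s8_pm_022_s : ∃ t, chk3 f_pm_022_s t 4 1 1 = true := ex3_b k0_pm_022_s s7_pm_022_s

theorem s9_pm_022_s : ∃ t, chk3 f_pm_022_s t 2 1 1 = true := ex3_a s8_pm_022_s k4_pm_022_s

theorem s10_pm_022_s : ∃ t, chk3 f_pm_022_s t 1 1 1 = true := ex3_a s9_pm_022_s k5_pm_022_s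

theorem c_pm_022_s : CertNE 0 536870912 0 536870912 1033476505 6710887 3 eng mog cd0q0 cd0q2 pd2 true true false .pp 0 2 2
    ndB0q0 ndB0q2 pcB2 cut_pm_022_s Ext.none :=
  certNE2 (fam := true) (s1 := true) (s2 := false) (a := 0) (b := 2) (c := 2) (cn := .pp) (n1 := ndB0q0) (n2 := ndB0q2) (pc := pcB2) (cut := cut_pm_022_s) (xt := Ext.none) (P1 := 0) (W1 := 536870912) (P2 := 0) (W2 := 536870912) (P3 := 1033476505) (W3 := 6710887) (N0 := 3) (En := eng) (mo := mog) (C1 := cd0q0) (C2 := cd0q2) (C3 := pd2)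
    rfl (fun _ => rfl) s10_pm_022_s

noncomputable def cut_pm_022_t : Cut := Cut.of [[⟨3, 0, 0, 2845415833⟩], [⟨0, 0, 0, 26843545⟩, ⟨1, 1, 0, 26843545⟩, ⟨2, 1, 0, 26843545⟩]]

noncomputable def f_pm_022_t : ℕ → ℕ → ℕ → ℕ → Bool := onCell 1073741824 536870912 0 536870912 1033476505 6710887
    (rowNE 3 eng mog cd0q0 cd0q2 pd2 2 true true false .pp 0 2 2 (qsf 0 536870912 0 536870912 2) ndB0q0 ndB0q2 pcB2 cut_pm_022_t Ext.none)

def k0_pm_022_t : ∃ t, chk3 f_pm_022_t t 1 1 1 = true :=
  ⟨(a (l 6) (b (l 6) (l 6))), by decide +kernel⟩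

theorem c_pm_022_t : CertNE 0 536870912 0 536870912 1033476505 6710887 3 eng mog cd0q0 cd0q2 pd2 true true false .pp 0 2 2
    ndB0q0 ndB0q2 pcB2 cut_pm_022_t Ext.none :=
  certNE2 (fam := true) (s1 := true) (s2 := false) (a := 0) (b := 2) (c := 2) (cn := .pp) (n1 := ndB0q0) (n2 := ndB0q2) (pc := pcB2) (cut := cut_pm_022_t) (xt := Ext.none) (P1 := 0) (W1 := 536870912) (P2 := 0) (W2 := 536870912) (P3 := 1033476505) (W3 := 6710887) (N0 := 3) (En := eng) (mo := mog) (C1 := cd0q0) (C2 := cd0q2) (C3 := pd2)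
    rfl (fun _ => rfl) k0_pm_022_t

noncomputable def cut_pm_023_s : Cut := Cut.of [[⟨4, 0, 0, 1449551462⟩]]

noncomputable def f_pm_023_s : ℕ → ℕ → ℕ → ℕ → Bool := onCell 1610612736 536870912 0 536870912 1033476505 6710887
    (rowNE 3 eng mog cd0q0 cd0q2 pd3 2 true true false .up 0 2 3 (qsf 0 536870912 0 536870912 3) ndB0q0 ndB0q2 pcB3 cut_pm_023_s Ext.none)

def k0_pm_023_s : ∃ t, chk3 f_pm_023_s t 1 1 1 = true :=
  ⟨(l 6), by decide +kernel⟩

theorem c_pm_023_s : CertNE 0 536870912 0 536870912 1033476505 6710887 3 eng mog cd0q0 cd0q2 pd3 true true false .up 0 2 3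
    ndB0q0 ndB0q2 pcB3 cut_pm_023_s Ext.none :=
  certNE2 (fam := true) (s1 := true) (s2 := false) (a := 0) (b := 2) (c := 3) (cn := .up) (n1 := ndB0q0) (n2 := ndB0q2) (pc := pcB3) (cut := cut_pm_023_s) (xt := Ext.none) (P1 := 0) (W1 := 536870912) (P2 := 0) (W2 := 536870912) (P3 := 1033476505) (W3 := 6710887) (N0 := 3) (En := eng) (mo := mog) (C1 := cd0q0) (C2 := cd0q2) (C3 := pd3)
    rfl (fun _ => rfl) k0_pm_023_s

noncomputable def cut_pm_023_t : Cut := Cut.of [[⟨3, 0, 0, 2845415833⟩]]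

noncomputable def f_pm_023_t : ℕ → ℕ → ℕ → ℕ → Bool := onCell 0 536870912 0 536870912 1033476505 6710887
    (rowNE 3 eng mog cd0q0 cd0q2 pd3 0 true true false .up 0 2 3 (qsf 0 536870912 0 536870912 3) ndB0q0 ndB0q2 pcB3 cut_pm_023_t Ext.none)

def k0_pm_023_t : ∃ t, chk3 f_pm_023_t t 1 1 1 = true :=
  ⟨(a (l 1) (b (a (b (a (l 1) (b (a (l 1) (b (a (l 6) (l 15038504)) (l 6))) (l 6))) (l 6)) (b (a (b (a (b (a (l 15161984) (l 15288544)) (l 6)) (a (b (l 15417224) (l 15134360)) (l 15198080))) (l 6)) (b (a (a (b (l 15677464) (l 15405912)) (b (l 15807608) (l 15542424))) (a (b (l 15936440) (l 15678384)) (b (l 16063744) (l 15813560)))) (a (b (b (l 15263688) (a (l 6) (l 15189696))) (l 6)) (b (a (l 15403968) (l 15546896)) (b (a (b (l 15225488) (l 15202112)) (l 15333416)) (a (l 6) (l 15256720))))))) (a (l 6) (l 6)))) (l 6))), by decide +kernel⟩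

theorem c_pm_023_t : CertNE 0 536870912 0 536870912 1033476505 6710887 3 eng mog cd0q0 cd0q2 pd3 true true false .up 0 2 3
    ndB0q0 ndB0q2 pcB3 cut_pm_023_t Ext.none :=
  certNE0 (fam := true) (s1 := true) (s2 := false) (a := 0) (b := 2) (c := 3) (cn := .up) (n1 := ndB0q0) (n2 := ndB0q2) (pc := pcB3) (cut := cut_pm_023_t) (xt := Ext.none) (P1 := 0) (W1 := 536870912) (P2 := 0) (W2 := 536870912) (P3 := 1033476505) (W3 := 6710887) (N0 := 3) (En := eng) (mo := mog) (C1 := cd0q0) (C2 := cd0q2) (C3 := pd3)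
    rfl k0_pm_023_t

noncomputable def cut_pm_101_s : Cut := Cut.of [[⟨4, 0, 0, 1449551462⟩], [⟨0, 1, 0, 33554432⟩, ⟨1, 0, 0, 33554432⟩, ⟨2, 1, 0, 33554432⟩]]

noncomputable def f_pm_101_s : ℕ → ℕ → ℕ → ℕ → Bool := onCell 536870912 536870912 536870912 536870912 1033476505 6710887
    (rowNE 3 eng mog cd0q1 cd0q0 pd1 1 true true false .npn 1 0 1 (qsf 536870912 536870912 0 536870912 1) ndB0q1 ndB0q0 pcB1 cut_pm_101_s Ext.none)

def k0_pm_101_s : ∃ t, chk3 f_pm_101_s t 1 1 1 = true :=
  ⟨(a (l 3) (b (l 3) (b (l 3) (a (l 3) (b (l 3) (a (l 3) (b (l 3) (a (l 3) (b (l 3) (a (l 3) (l 14))))))))))), by decide +kernel⟩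

theorem c_pm_101_s : CertNE 536870912 536870912 0 536870912 1033476505 6710887 3 eng mog cd0q1 cd0q0 pd1 true true false .npn 1 0 1
    ndB0q1 ndB0q0 pcB1 cut_pm_101_s Ext.none :=
  certNE1 (fam := true) (s1 := true) (s2 := false) (a := 1) (b := 0) (c := 1) (cn := .npn) (n1 := ndB0q1) (n2 := ndB0q0) (pc := pcB1) (cut := cut_pm_101_s) (xt := Ext.none) (P1 := 536870912) (W1 := 536870912) (P2 := 0) (W2 := 536870912) (P3 := 1033476505) (W3 := 6710887) (N0 := 3) (En := eng) (mo := mog) (C1 := cd0q1) (C2 := cd0q0) (C3 := pd1)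
    rfl (fun _ => rfl) k0_pm_101_s

noncomputable def cut_pm_101_t : Cut := Cut.of [[⟨3, 0, 0, 2845415833⟩], [⟨0, 1, 0, 33554432⟩, ⟨1, 0, 0, 33554432⟩, ⟨2, 1, 0, 33554432⟩]]

noncomputable def f_pm_101_t : ℕ → ℕ → ℕ → ℕ → Bool := onCell 536870912 536870912 0 536870912 1033476505 6710887
    (rowNE 3 eng mog cd0q1 cd0q0 pd1 0 true true false .npn 1 0 1 (qsf 536870912 536870912 0 536870912 1) ndB0q1 ndB0q0 pcB1 cut_pm_101_t Ext.none)

def k0_pm_101_t : ∃ t, chk3 f_pm_101_t t 1 1 1 = true :=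
  ⟨(l 6), by decide +kernel⟩

theorem c_pm_101_t : CertNE 536870912 536870912 0 536870912 1033476505 6710887 3 eng mog cd0q1 cd0q0 pd1 true true false .npn 1 0 1
    ndB0q1 ndB0q0 pcB1 cut_pm_101_t Ext.none :=
  certNE0 (fam := true) (s1 := true) (s2 := false) (a := 1) (b := 0) (c := 1) (cn := .npn) (n1 := ndB0q1) (n2 := ndB0q0) (pc := pcB1) (cut := cut_pm_101_t) (xt := Ext.none) (P1 := 536870912) (W1 := 536870912) (P2 := 0) (W2 := 536870912) (P3 := 1033476505) (W3 := 6710887) (N0 := 3) (En := eng) (mo := mog) (C1 := cd0q1) (C2 := cd0q0) (C3 := pd1)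
    rfl k0_pm_101_t

noncomputable def cut_pm_102_s : Cut := Cut.of [[⟨4, 0, 0, 1449551462⟩], [⟨0, 1, 0, 16777216⟩, ⟨1, 0, 0, 16777216⟩, ⟨2, 1, 0, 16777216⟩]]

noncomputable def f_pm_102_s : ℕ → ℕ → ℕ → ℕ → Bool := onCell 536870912 536870912 1073741824 536870912 1033476505 6710887
    (rowNE 3 eng mog cd0q1 cd0q0 pd2 1 true true false .npp 1 0 2 (qsf 536870912 536870912 0 536870912 2) ndB0q1 ndB0q0 pcB2 cut_pm_102_s Ext.none)

def k0_pm_102_s : ∃ t, chk3 f_pm_102_s t 2 1 1 = true :=
  ⟨(b (a (b (l 3) (b (b (b (l 3) (l 2)) (l 2)) (l 2))) (b (l 3) (b (b (b (a (l 3) (a (l 3) (b (l 3) (b (l 16771328) (l 16775232))))) (b (a (a (l 3) (a (l 3) (l 16794384))) (a (a (l 16795240) (l 16799832)) (b (l 16771296) (l 16773016)))) (b (a (a (l 16775040) (l 16776672)) (a (l 16775672) (l 16774008))) (a (a (l 16776344) (l 16774912)) (a (l 16774408) (l 16772640)))))) (a (a (l 16768992) (l 16764600)) (a (l 16763640) (l 16762600)))) (a (a (l 2) (l 16746912)) (a (a (l 16741664) (l 16812304)) (a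 (l 16745008) (l 16695944))))))) (a (l 2) (b (a (l 2) (a (l 2) (b (l 16695576) (l 2)))) (l 2)))), by decide +kernel⟩

def k1_pm_102_s : ∃ t, chk3 f_pm_102_s t 6 4 1 = true :=
  ⟨(b (l 3) (b (a (l 3) (a (l 3) (b (l 3) (b (l 3) (a (l 3) (b (l 3) (a (l 3) (l 16745280)))))))) (a (a (l 3) (b (l 3) (a (b (l 3) (l 16775344)) (b (l 16770728) (l 16740904))))) (b (a (a (l 3) (b (l 3) (b (l 16772040) (l 16767072)))) (b (b (a (l 222432226935) (a (l 16766696) (l 16743008))) (a (a (l 16770184) (l 16766200)) (l 16641136))) (a (b (a (l 16765384) (l 16743248)) (l 16688312)) (b (l 16629136) (a (l 16683704) (l 16626256)))))) (a (b (a (b (l 16774136) (l 16763768)) (b (l 16751368) (l 16731632))) (b (l 16668792) (a (l 16732592) (l 16710424)))) (a (b (a (l 16712824) (b (l 16696840) (l 16684120))) (b (l 16669000) (l 16689696))) (b (b (a (l 16665224) (l 16636872)) (l 16585344)) (l 16646048)))))))), by decide +kernel⟩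

def k2_pm_102_s : ∃ t, chk3 f_pm_102_s t 14 8 1 = true :=
  ⟨(b (l 3) (b (l 3) (a (l 3) (a (l 3) (b (b (l 3) (a (l 3) (a (l 3) (b (l 494088939351) (a (l 375440472871) (l 74255896647)))))) (b (a (a (l 3) (b (l 3) (l 400136511447))) (a (b (a (l 16729888) (l 16731336)) (l 16742064)) (b (l 16748512) (l 16764872)))) (a (a (b (l 3) (l 16772224)) (b (l 16776144) (l 16773136))) (a (b (l 16770368) (l 16768648)) (b (l 16763984) (l 16764416)))))))))), by decide +kernel⟩

def k3_pm_102_s : ∃ t, chk3 f_pm_102_s t 30 16 1 = true :=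
  ⟨(a (l 3) (b (l 3) (b (l 3) (a (l 3) (b (l 3) (a (l 3) (b (a (l 3) (b (l 3) (a (l 3) (b (a (l 3) (l 176261433415)) (a (l 195588752199) (l 16775544)))))) (a (b (l 430738210391) (a (c (l 380272361575) (l 379198628391)) (b (a (l 387788567799) (l 16776072)) (l 16763984)))) (b (a (b (a (l 273435023015) (l 284709350071)) (b (l 153712828647) (l 16753976))) (l 16761992)) (a (l 16750216) (l 16745296))))))))))), by decide +kernel⟩

def k4_pm_102_s : ∃ t, chk3 f_pm_102_s t 62 32 1 = true :=
  ⟨(b (l 3) (a (l 3) (b (l 3) (a (l 3) (b (l 3) (a (l 3) (b (l 3) (a (l 3) (b (a (l 3) (b (l 3) (a (l 3) (l 16776960)))) (a (b (l 502142074663) (a (l 421611438183) (l 16776888))) (b (a (l 16776936) (l 16776208)) (l 16775616)))))))))))), by decide +kernel⟩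

def k5_pm_102_s : ∃ t, chk3 f_pm_102_s t 63 64 1 = true :=
  ⟨(a (b (l 3) (a (l 3) (b (l 3) (a (l 3) (b (l 3) (a (l 3) (b (l 3) (a (l 3) (b (l 3) (b (l 415168985607) (a (l 3) (a (l 183240753703) (l 16774184))))))))))))) (b (l 14) (a (b (l 14) (a (b (l 14) (a (b (l 14) (a (b (l 14) (b (l 14) (l 16769840))) (l 14))) (l 14))) (l 14))) (l 14)))), by decide +kernel⟩

def k6_pm_102_s : ∃ t, chk3 f_pm_102_s t 252 130 1 = true :=
  ⟨(b (l 3) (a (l 3) (b (l 3) (a (l 3) (b (l 3) (a (l 3) (b (b (l 457044918087) (a (l 3) (l 16777008))) (a (a (l 299741741495) (l 16776976)) (l 16765856))))))))), by decide +kernel⟩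

def k7_pm_102_s : ∃ t, chk3 f_pm_102_s t 506 130 1 = true :=
  ⟨(b (b (l 3) (a (l 3) (b (l 3) (a (l 3) (a (l 450065596151) (b (l 433959468887) (a (b (l 16777168) (l 16776896)) (l 16771368)))))))) (b (a (b (l 3) (a (l 3) (b (l 394767889591) (a (a (l 3) (l 170892720375)) (c (l 16775256) (l 89825210551)))))) (b (a (b (l 422148308743) (a (l 286856838487) (b (a (l 16777136) (l 16776816)) (l 16776480)))) (a (b (a (a (l 111836920071) (l 16776920)) (l 16771312)) (l 16765088)) (l 16769720))) (a (a (a (b (a (l 16777000) (l 16776824)) (l 16775752)) (l 16770536)) (l 16769608)) (l 16767736)))) (b (b (a (a (c (l 369534954071) (l 372219311255)) (a (l 16775200) (l 16775384))) (l 16767072)) (a (a (a (a (l 428590760071) (l 118279371143)) (l 16773840)) (l 16764224)) (l 16765824))) (a (a (b (l 16773200) (l 16764112)) (l 16767592)) (c (l 16763992) (l 16764000)))))), by decide +kernel⟩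

def k8_pm_102_s : ∃ t, chk3 f_pm_102_s t 507 130 1 = true :=
  ⟨(b (b (a (b (l 3) (a (l 3) (b (l 3) (a (l 3) (a (b (l 3) (l 16777048)) (b (l 16777064) (l 16776592))))))) (b (a (b (l 3) (a (l 3) (a (b (l 3) (l 122574338151)) (b (l 140827949095) (l 16776704))))) (b (b (a (a (l 3) (l 169818980919)) (l 16773824)) (a (a (l 148881012791) (l 16776760)) (l 16775744))) (a (l 16773416) (l 16769416)))) (a (b (a (a (b (l 3) (l 184314494871)) (b (l 115058147991) (l 16776648))) (l 16770744)) (l 16772632)) (b (l 16768688) (l 16767296))))) (a (b (a (b (l 502678945527) (a (l 476909141847) (a (b (l 16777176) (l 16776984)) (l 93583307543)))) (b (a (b (a (l 16777168) (l 16777040)) (l 96804533255)) (l 16770632)) (l 16769912))) (a (b (a (a (a (l 158544690647) (l 141901689943)) (l 16775352)) (l 16765264)) (l 16769800)) (c (l 16767864) (l 16767880)))) (b (a (b (l 16768616) (l 16767248)) (l 16767872)) (a (l 16765248) (a (l 16768520) (b (l 16767824) (a (b (l 16767208) (l 16766592)) (a (l 16766528)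 (l 16766360))))))))) (b (a (b (a (l 16770424) (l 16765240)) (a (l 16765232) (a (l 16768592) (b (l 16767952) (l 16766648))))) (b (a (b (l 16768552) (b (l 16767544) (a (l 16767616) (a (l 16766632) (l 16760896))))) (a (b (a (l 16766872) (a (l 16765168) (l 16766304))) (l 16765880)) (l 16765568))) (a (a (a (b (l 16767000) (l 16765264)) (b (c (l 16766328) (l 16766360)) (l 16765552))) (a (b (l 16765968) (l 16765208)) (l 16765232))) (l 16764464)))) (a (b (a (l 16768000) (a (b (l 16766712) (a (l 16765856) (l 16765504))) (a (b (a (l 16765960) (l 16765776)) (l 16765104)) (l 16765224)))) (a (a (a (l 16766464) (b (l 16766512) (l 16765424))) (b (a (l 16765856) (l 16765464)) (l 16764944))) (l 16764304))) (b (l 16763752) (l 16762424))))), by decide +kernel⟩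

def k9_pm_102_s : ∃ t, chk3 f_pm_102_s t 252 131 1 = true :=
  ⟨(b (a (b (l 3) (a (l 3) (b (l 480130367015) (a (l 422685179575) (b (a (l 317995352551) (l 16776752)) (l 78550919687)))))) (b (a (b (l 3) (a (l 497847107255) (b (a (l 3) (c (l 153175976743) (l 156934073111))) (a (l 139217335431) (l 16776064))))) (b (a (b (b (l 413558374199) (a (l 3) (l 16776944))) (b (a (l 16777456) (l 16776512)) (l 16775080))) (l 16772464)) (a (l 16769720) (l 16762192)))) (a (b (a (b (a (l 423222050903) (c (l 16776848) (l 16776848))) (a (l 16776808) (l 16775904))) (l 16764344)) (l 16768360)) (b (l 16766232) (l 16763968))))) (a (b (a (b (a (l 3) (l 394231018599)) (a (c (l 367924341255) (l 371682440263)) (b (a (l 175187690391) (l 16776512)) (l 16765448)))) (b (a (b (a (l 237464716023) (l 16776640)) (l 16770832)) (l 16764072)) (l 16762888))) (a (b (a (a (b (l 120426857495) (l 16776288)) (l 16765328)) (l 16763800)) (l 16762656)) (b (l 16760720) (l 16769104)))) (b (a (b (l 16766104) (l 16758680))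 (a (l 16761800) (b (l 16765848) (a (b (l 16764880) (l 16764008)) (l 16763760))))) (a (b (l 16767064) (a (l 16766056) (a (l 16764432) (l 16762368)))) (a (b (a (b (l 16764976) (l 16763976)) (l 16763720)) (l 16762744)) (l 16762072)))))), by decide +kernel⟩

def k10_pm_102_s : ∃ t, chk3 f_pm_102_s t 253 131 1 = true :=
  ⟨(b (a (a (b (b (b (l 16766944) (l 16765752)) (l 16763992)) (a (b (l 16768104) (b (l 16766440) (a (l 16765912) (l 16764768)))) (b (b (l 16766392) (a (l 16765856) (l 16764784))) (a (b (l 16764768) (l 16764088)) (l 16763784))))) (b (b (a (l 16768064) (a (b (l 16766872) (l 16765656)) (b (c (l 16764320) (l 16765648)) (l 16764904)))) (a (a (l 16766320) (b (l 16765696) (l 16764840))) (b (a (l 16764872) (l 16764136)) (l 16763800)))) (b (a (a (b (l 16764808) (l 16764080)) (l 16763752)) (l 16762840)) (l 16762176)))) (b (a (b (a (b (l 16764648) (l 16763872)) (l 16762968)) (l 16762288)) (b (l 16761112) (l 16759808))) (a (l 16760360) (l 16757864)))) (a (b (a (b (a (a (b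 (l 16764784) (l 16764056)) (l 16763784)) (l 16762744)) (l 16762096)) (l 16760280)) (a (l 16760232) (l 16757776))) (b (a (l 16757808) (l 16755296)) (a (l 16755288) (l 16752760))))), by decide +kernel⟩

def k11_pm_102_s : ∃ t, chk3 f_pm_102_s t 127 65 1 = true :=
  ⟨(a (b (b (a (b (a (b (a (b (l 16771376) (l 16767328)) (b (l 14) (l 16769776))) (a (b (l 16765928) (l 16769808)) (a (a (l 16768768) (b (l 16768752) (b (l 16767712) (l 16767176)))) (a (b (l 16766696) (a (l 16766472) (l 16766928))) (b (l 14) (l 16766656)))))) (b (l 14) (b (l 14) (l 16765264)))) (a (b (a (a (b (l 16769136) (c (l 16766416) (l 16767768))) (a (b (l 16768120) (b (l 16767112) (l 16761464))) (b (b (l 16767776) (l 16767128)) (l 16766568)))) (b (b (a (a (l 16765840) (l 16766752)) (l 16766288)) (l 16766296)) (l 16765736))) (a (b (a (a (b (l 16767144) (l 16766640)) (l 16766520)) (l 16765968)) (l 16765592)) (l 16764704))) (b (a (l 16764840) (l 16763592)) (l 16762832)))) (b (l 14) (a (b (l 14) (l 16760296)) (l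 14)))) (a (b (a (b (l 16761336) (l 16762608)) (b (l 16761456) (l 16760088))) (a (b (l 16761264) (l 16759928)) (b (l 16758736) (l 16757384)))) (a (b (b (l 16758904) (l 16757520)) (l 16755472)) (b (a (l 16756264) (l 14)) (a (b (l 16754360) (l 16753512)) (l 16754800)))))) (a (b (b (a (l 16757944) (l 16755376)) (a (l 16755328) (l 16752736))) (a (b (l 16752736) (l 16750184)) (b (l 16750208) (a (l 16748256) (l 16748088))))) (b (a (b (a (l 16753424) (b (l 16752848) (l 16741416))) (a (l 16750984) (l 16751272))) (b (l 16753776) (l 16753616))) (a (b (l 16747776) (l 16750288)) (l 16753592))))) (b (a (b (l 14) (a (l 16757272) (l 14))) (l 14)) (a (b (l 16747952) (l 16737520)) (b (l 16743624) (l 16739912))))), by decide +kernel⟩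

def k12_pm_102_s : ∃ t, chk3 f_pm_102_s t 124 66 1 = true :=
  ⟨(b (l 3) (a (l 3) (b (l 3) (a (l 3) (b (a (l 3) (a (l 434496328103) (b (l 428590752167) (b (l 16776896) (l 16776320))))) (a (a (a (l 447381229559) (l 372756177767)) (b (l 251960231047) (l 16776232))) (b (a (l 18958250967) (l 16774992)) (l 16753024)))))))), by decide +kernel⟩

def k13_pm_102_s : ∃ t, chk3 f_pm_102_s t 125 132 1 = true :=
  ⟨(a (b (l 3) (a (l 3) (b (a (l 3) (l 462413620327)) (a (b (l 3) (a (l 3) (l 391546663879))) (a (b (l 413021500231) (b (l 16776720) (l 16775984))) (a (b (a (l 106468203479) (l 16776720)) (l 16775168)) (l 16769992))))))) (b (a (b (l 3) (a (l 486572815207) (b (a (l 3) (b (l 265382003543) (a (l 16777040) (l 16776504)))) (a (b (a (l 3) (l 16777000)) (l 16776600)) (l 16764960))))) (b (a (b (a (l 3) (a (l 413558374167) (b (l 356650058071) (l 16776776)))) (a (a (l 291151807335) (b (l 259476423287) (l 16776648))) (l 16770512))) (b (b (a (l 16773776) (l 16774544)) (l 16763984)) (l 16762416)))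 (a (b (l 16769416) (l 16762168)) (l 16764640)))) (a (b (a (a (b (l 467782333959) (b (c (l 105394467079) (l 105931337991)) (l 16776328))) (b (a (a (l 215453008855) (l 95193922327)) (l 16776496)) (l 16754120))) (l 16768120)) (a (l 16762576) (l 16759064))) (b (a (l 16759240) (l 16760832)) (a (l 16766024) (b (a (l 16764256) (l 16762568)) (a (l 16762520) (l 16761304)))))))), by decide +kernel⟩

def k14_pm_102_s : ∃ t, chk3 f_pm_102_s t 125 133 1 = true :=
  ⟨(a (b (a (b (a (l 3) (b (l 3) (a (l 3) (b (l 367924347239) (c (l 16776888) (l 16776880)))))) (a (b (l 3) (b (l 403357820455) (a (l 486035947015) (l 16776648)))) (a (b (b (l 283635614391) (l 16776776)) (l 16775624)) (l 16769648)))) (b (a (b (a (b (l 480667237847) (l 132774878263)) (l 16773528)) (l 16769920)) (l 16762272)) (b (l 16761200) (l 16759400)))) (a (b (a (b (b (a (l 201494335207) (l 16775880)) (l 16765232)) (l 16753432)) (l 16761608)) (l 16764928)) (b (l 16762024) (a (l 16765456) (a (l 16763088) (b (l 16762280) (l 16760816)))))))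 (b (a (b (b (l 16758056) (l 16756272)) (a (l 16765816) (b (l 16757912) (a (l 16762360) (l 16761200))))) (b (a (b (a (l 16764240) (l 16762472)) (a (l 16762432) (l 16761296))) (l 16760160)) (a (l 16757536) (l 16757600)))) (a (b (a (a (l 16763120) (b (l 16762328) (l 16761032))) (b (l 16760640) (l 16759184))) (a (b (l 16760480) (l 16759016)) (l 16757368))) (l 16744664)))), by decide +kernel⟩

def k15_pm_102_s : ∃ t, chk3 f_pm_102_s t 124 67 1 = true :=
  ⟨(b (a (b (a (l 3) (b (l 3) (a (l 3) (l 434496320039)))) (a (b (l 3) (a (l 3) (b (l 3) (a (l 272898147847) (l 160692142823))))) (b (a (b (l 3) (l 373829916759)) (b (a (l 237464716727) (l 16776312)) (l 16764672))) (a (a (b (l 191293804039) (l 16775352)) (l 16764072)) (l 16761184))))) (b (a (b (a (l 3) (b (c (l 363092501767) (l 363092500039)) (a (a (l 192904431031) (l 16776768)) (l 16775816)))) (a (a (b (l 455971176247) (l 232632871847)) (a (b (l 16775864) (l 16775560)) (l 60834167655))) (l 16763152))) (b (b (a (l 16764808) (l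 16772232)) (l 16761432)) (b (l 16748800) (l 16746488)))) (a (b (a (l 16762224) (l 16748120)) (l 16757984)) (b (l 16755832) (a (l 16760064) (b (l 16757696) (l 16754544))))))) (a (b (a (b (a (b (l 410337133511) (a (l 251960231383) (l 16776248))) (b (a (l 163376504407) (l 16774920)) (l 16752408))) (a (b (l 16764408) (l 16751280)) (l 16748256))) (b (a (l 16749536) (l 16745392)) (l 16752160))) (a (b (b (l 16746064) (l 16742936)) (l 16748456)) (b (l 16745768) (l 16738776)))) (b (a (b (l 16749704) (a (l 16756104) (l 16741152))) (b (a (b (l 16755600) (l 16752304)) (b (a (l 16752472) (l 16751224)) (l 16749672))) (a (b (a (l 16750112) (l 16748664)) (l 16747088)) (l 16746416)))) (a (b (a (l 16749312) (b (a (l 16747672) (l 16745984)) (l 16744368))) (a (b (a (l 16745120) (l 16743176)) (a (l 16741720) (l 16740768))) (l 16740992))) (l 16741368))))), by decide +kernel⟩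

def k16_pm_102_s : ∃ t, chk3 f_pm_102_s t 125 67 1 = true :=
  ⟨(b (a (b (a (b (b (l 16767600) (l 16765680)) (a (l 16763648) (b (l 16761624) (l 16753568)))) (b (a (b (l 16762952) (a (l 16761768) (l 16760224))) (b (l 16760256) (l 16758552))) (a (a (l 16752944) (l 16757080)) (l 16755392)))) (a (b (a (b (l 16759704) (l 16751472)) (b (l 16751312) (l 16754408))) (a (b (a (l 16754768) (l 16753656)) (l 16752120)) (l 16751208))) (l 16750536))) (a (b (l 16748840) (l 16746960)) (b (l 16749752) (l 16743296)))) (a (b (a (l 16746296) (l 16743488)) (a (l 16739288) (l 16737112))) (b (a (l 16740568) (l 16737536)) (l 16733600)))), by decide +kernel⟩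

def k17_pm_102_s : ∃ t, chk3 f_pm_102_s t 63 33 1 = true :=
  ⟨(a (b (a (b (b (a (b (a (c (l 16764800) (l 16764760)) (b (l 16767072) (a (l 16766088) (a (l 16764624) (l 16763616))))) (a (b (l 16767056) (a (l 16766096) (l 16764088))) (b (a (l 16761424) (l 16760120)) (a (l 16760088) (l 16761336))))) (b (a (a (b (a (l 16764520) (l 16763640)) (l 16762760)) (b (l 16762768) (l 16761384))) (l 16760192)) (l 16753712))) (a (b (a (b (a (l 16764152) (l 16762664)) (a (l 16762616) (l 16761288))) (l 16760112)) (l 16758904)) (b (l 16756528) (l 16754112)))) (b (a (b (l 16756488) (l 16754096)) (b (l 16751712) (l 16749320))) (a (l 16750504) (l 16745752)))) (b (b (a (b (l 16752600) (l 16754072)) (b (l 16751528) (l 16749040))) (a (b (l 16751632) (l 16749216)) (b (l 16746584) (a (l 16745432) (l 16743112))))) (a (b (l 16745608) (l 16740832)) (b (a (l 16741904) (b (l 16741712) (l 16741192))) (a (b (l 16739152) (l 16738440)) (l 16741808)))))) (a (b (b (a (l 16745328) (l 16740784)) (a (l 16739536)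 (l 16735640))) (a (l 16732016) (b (a (l 16731912) (l 16731208)) (a (l 16728472) (l 16730488))))) (b (a (b (a (l 16737264) (b (l 16736680) (l 16735760))) (a (l 16733856) (l 16736216))) (l 16720712)) (a (l 16725776) (l 16723928))))) (b (a (b (a (b (a (b (l 16747640) (l 16745640)) (b (a (l 16746608) (l 16747824)) (l 16747120))) (a (b (l 16744408) (l 16744072)) (l 16747512))) (b (l 16752208) (l 16752832))) (a (l 16736496) (l 16733408))) (b (a (l 16738320) (l 16732704)) (a (l 16732720) (l 16721896)))) (a (b (l 16740496) (l 16726120)) (b (l 16715464) (l 16702688))))), by decide +kernel⟩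

def k18_pm_102_s : ∃ t, chk3 f_pm_102_s t 60 34 1 = true :=
  ⟨(b (l 3) (a (l 3) (b (a (l 3) (b (l 3) (a (b (l 3) (a (l 3) (b (l 3) (l 166060844999)))) (b (a (b (l 3) (l 200957448919)) (b (a (l 16771984) (l 16776104)) (l 16752712))) (a (b (l 138680436327) (l 16750680)) (l 16745472)))))) (a (b (a (l 3) (b (l 3) (a (l 270750642903) (b (l 16753368) (l 16753032))))) (a (b (b (l 3) (l 166060812983)) (a (l 130627351831) (l 16751064))) (b (a (a (l 16764656) (l 16751584)) (l 16746360)) (l 16741056)))) (b (a (b (a (b (l 16749392) (l 16765048)) (b (l 16752888) (l 16748320))) (a (l 16748448) (l 16740856))) (b (b (l 16741720) (l 16736616)) (b (l 16731552) (l 16726552)))) (a (b (l 16735024) (l 16726448)) (b (l 16724536) (l 16710496)))))))), by decide +kernel⟩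

def k19_pm_102_s : ∃ t, chk3 f_pm_102_s t 122 68 1 = true :=
  ⟨(b (a (l 3) (b (l 3) (a (l 3) (b (l 3) (a (l 3) (l 375977392935)))))) (a (b (l 3) (a (l 3) (b (l 413021493303) (a (b (l 3) (l 202568064055)) (b (a (l 16773608) (l 16765192)) (l 16762736)))))) (b (a (b (l 3) (a (l 3) (b (l 238538411559) (a (l 16774592) (l 16754424))))) (b (a (b (l 3) (a (l 16771752) (l 16765928))) (b (a (l 16765176) (l 16754040)) (l 16751736))) (a (b (b (l 16764992) (l 16752944)) (l 16749824)) (l 16745440)))) (a (b (a (b (a (l 3) (l 183240728167)) (a (l 16765744) (l 16752784))) (b (l 16752024) (l 16747568))) (a (l 16747480) (l 16740200))) (b (b (l 16742072) (l 16737352)) (b (l 16732208) (l 16726936))))))), by decide +kernel⟩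

def k20_pm_102_s : ∃ t, chk3 f_pm_102_s t 123 68 1 = true :=
  ⟨(b (a (b (a (l 3) (b (a (l 3) (b (l 3) (a (l 16761176) (l 16764680)))) (a (b (l 239612146327) (a (l 214916105239) (l 16754728))) (b (b (l 16765216) (l 16753432)) (l 16750872))))) (a (b (a (l 423758898519) (b (a (l 3) (l 197736239591)) (b (l 167134600279) (l 16753928)))) (a (b (a (l 16772848) (l 16776112)) (l 16763728)) (l 16749400))) (b (a (a (l 16762928) (l 16749664)) (l 16745392)) (b (l 16742480) (l 16738440))))) (b (b (a (a (b (a (l 307257928519) (l 16754216)) (l 16752320)) (l 16748768)) (a (l 16743600) (l 16759440))) (a (a (l 16747160) (l 16741752)) (l 16744176))) (a (b (c (l 16737152) (l 16736664)) (l 16739208)) (b (l 16736200) (a (l 16740960) (l 16735168)))))) (a (b (a (b (a (l 16747520) (l 16741304)) (a (l 16738968) (l 16753512))) (b (c (l 16732368) (l 16731760)) (l 16728208))) (b (a (c (l 16726744) (l 16725976)) (c (l 16713688) (l 16712584))) (a (c (l 16716512) (l 16715480)) (a (l 16726808) (l 16720064)))))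 (b (a (b (l 16730360) (a (l 16734448) (l 16728152))) (b (a (l 16731768) (b (a (l 16729664) (l 16726824)) (a (l 16719696) (l 16723864)))) (a (b (a (l 16725968) (l 16717744)) (a (b (l 16722088) (l 16719864)) (l 16698904))) (l 16720840)))) (a (b (a (l 16724280) (b (a (l 16722040) (b (l 16720064) (l 16717768))) (a (b (l 16717968) (l 16715616)) (l 16694680)))) (a (b (a (l 16717816) (b (l 16715800) (l 16713392))) (a (b (l 16713552) (l 16711096)) (l 16690216))) (l 16712400))) (b (a (l 16716744) (l 16716360)) (l 16712192)))))), by decide +kernel⟩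

def k21_pm_102_s : ∃ t, chk3 f_pm_102_s t 122 69 1 = true :=
  ⟨(b (a (b (a (b (a (l 3) (b (l 3) (a (l 16772720) (l 16754944)))) (a (b (l 202568062135) (a (l 16776000) (l 16753384))) (b (l 16762976) (l 16747776)))) (a (b (b (a (l 16776424) (l 16753112)) (l 16750168)) (l 16742536)) (b (l 16745056) (l 16734592)))) (a (b (a (l 16747888) (l 16740008)) (b (l 16736128) (l 16730848))) (b (b (l 16730552) (l 16725104)) (c (l 16717400) (l 16716384))))) (b (a (b (b (l 16746560) (l 16730704)) (b (l 16725200) (l 16719592))) (b (c (l 16724288) (l 16728576)) (a (l 16731560) (l 16724264)))) (a (b (b (l 16713936) (l 16708248)) (a (l 16725016) (l 16716432))) (b (a (l 16719848) (l 16712248)) (a (l 16708224) (l 16700456)))))) (a (b (a (b (c (l 16723376) (l 16722504)) (c (l 16713208) (l 16712048))) (b (c (l 16706704) (l 16705400)) (a (l 16720880) (l 16712240)))) (a (b (l 16708096) (l 16694072)) (b (a (l 16711112) (l 16702488)) (a (l 16702376) (l 16693888))))) (b (a (b (a (l 16713984) (l 16705288))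 (a (l 16703456) (l 16694728))) (b (a (l 16696976) (b (a (l 16693816) (a (l 16690888) (l 16679224))) (a (a (l 16689248) (l 16667088)) (l 16687336)))) (a (b (a (l 16691008) (b (l 16667256) (l 16665480))) (a (b (l 16666208) (l 16664592)) (l 16684816))) (l 16663816)))) (a (b (a (l 16693736) (b (a (l 16689520) (b (l 16665512) (l 16664056))) (a (b (l 16665176) (l 16663896)) (l 16683680)))) (a (b (a (l 16689376) (a (l 16665296) (l 16664032))) (a (l 16680920) (l 16684016))) (l 16682496))) (a (l 16681592) (l 16679784)))))), by decide +kernel⟩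

def k22_pm_102_s : ∃ t, chk3 f_pm_102_s t 123 69 1 = true :=
  ⟨(b (a (b (a (b (l 16709976) (a (l 16717232) (l 16710424))) (b (a (l 16715448) (b (a (l 16713240) (b (l 16711224) (l 16708736))) (a (b (l 16708808) (l 16695816)) (l 16685488)))) (a (b (a (l 16708312) (b (l 16706312) (l 16693304))) (a (b (l 16703736) (l 16690728)) (l 16680496))) (l 16702952)))) (a (b (a (l 16705120) (b (a (l 16702992) (b (l 16701072) (l 16688072))) (a (b (l 16698320) (l 16685376)) (l 16675208)))) (a (b (a (l 16697848) (a (l 16695096) (l 16688712))) (a (a (l 16692840) (l 16681192)) (l 16691168))) (l 16692512))) (b (a (l 16697808) (l 16697920)) (l 16692872)))) (b (a (b (a (l 16707816) (l 16707648)) (l 16703104)) (l 16705976)) (a (l 16696472) (l 16697728)))) (a (b (a (b (l 16687888) (l 16683576)) (l 16686032)) (a (l 16678200) (l 16677640))) (b (a (l 16687440) (l 16689464)) (a (l 16678848) (l 16680928))))), by decide +kernel⟩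

def k23_pm_102_s : ∃ t, chk3 f_pm_102_s t 60 35 1 = true :=
  ⟨(b (a (b (a (b (l 3) (b (l 495162691463) (a (l 3) (l 16743632)))) (b (b (a (l 3) (a (l 16766696) (l 16754200))) (a (l 151565282855) (l 16750128))) (b (a (l 16753032) (l 16743264)) (l 16742152)))) (b (a (a (b (l 16746744) (l 16774128)) (l 16747720)) (b (l 16736424) (l 16731640))) (a (l 16742296) (l 16726280)))) (b (a (b (a (l 16747536) (b (l 16733296) (l 16747344))) (a (l 16729032) (l 16717688))) (b (a (b (l 16718776) (l 16712336)) (b (l 16702920) (l 16696760))) (a (l 16704664) (b (l 16712520) (a (l 16712552) (b (l 16705448) (l 16703824))))))) (a (b (a (l 16740448) (l 16730384)) (a (l 16734752) (b (l 16726720) (l 16725552)))) (b (a (b (l 16720040) (a (l 16720584) (l 16714424))) (b (a (l 16709592) (l 16704008)) (l 16707824))) (a (b (a (l 16719080) (l 16715056)) (l 16718880)) (l 16710736)))))) (a (b (b (a (l 16736176) (l 16743664)) (a (l 16734104) (a (l 16746936) (l 16741552)))) (a (b (l 16756856) (l 16739984))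 (b (l 16728088) (l 16756136)))) (b (a (b (a (b (l 16733104) (l 16733432)) (l 16717560)) (l 16725128)) (l 16701192)) (a (l 16724632) (l 16713424))))), by decide +kernel⟩

def k24_pm_102_s : ∃ t, chk3 f_pm_102_s t 61 35 1 = true :=
  ⟨(a (b (b (a (b (a (b (l 16686496) (a (l 16705272) (b (l 16698408) (l 16695432)))) (b (a (l 16694856) (b (a (l 16690160) (l 16676344)) (a (l 16677264) (l 16685624)))) (a (b (a (l 16692040) (l 16667976)) (l 16689552)) (l 16685816)))) (a (b (a (b (l 16701336) (l 16699024)) (b (a (l 16695088) (l 16692168)) (l 16693280))) (a (b (l 16698096) (l 16698232)) (l 16693616))) (l 16687352))) (a (b (l 16681288) (l 16679480)) (b (l 16675808) (l 16672712)))) (a (a (b (l 16698016) (l 16702240)) (b (l 16689104) (l 16692088))) (a (b (l 16679440) (l 16681560)) (b (l 16671296) (l 16671608))))) (a (b (l 16683544) (l 16694800)) (b (a (b (l 16684864) (l 16689680)) (b (l 16674032) (l 16677616))) (l 16670696)))) (b (a (b (a (b (l 16672344) (l 16668040)) (b (l 16670760)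 (l 16665320))) (a (b (l 16665320) (l 16664240)) (a (l 16660936) (l 16659136)))) (b (a (b (l 16670912) (l 16664424)) (b (l 16672768) (l 16665208))) (a (l 16657328) (l 16656480)))) (b (a (b (l 16650768) (a (l 16667536) (l 16659032))) (a (l 16653080) (l 16649728))) (a (b (l 16666400) (l 16670960)) (a (l 16655976) (l 16649008)))))), by decide +kernel⟩

def k25_pm_102_s : ∃ t, chk3 f_pm_102_s t 31 34 1 = true :=
  ⟨(a (b (a (b (b (a (a (b (l 16741304) (l 16733520)) (b (a (l 16744184) (b (a (l 16742368) (l 16740232)) (a (l 16738704) (l 16737768)))) (a (b (a (l 16739464) (l 16737144)) (a (l 16735536) (l 16734584))) (l 16735056)))) (a (b (l 16737704) (l 16733912)) (l 16734296))) (a (a (b (a (l 16738360) (b (a (l 16736392) (l 16733888)) (a (l 16732192) (l 16731208)))) (a (b (a (l 16733128) (l 16730456)) (a (l 16728664) (l 16727640))) (l 16728360))) (b (l 16731544) (l 16727512))) (l 16728104))) (a (b (a (b (l 16726224) (l 16720296)) (l 16721920)) (l 16714536)) (b (l 16721472) (l 16715048))))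 (a (b (b (l 16732040) (l 16726248)) (b (l 16720712) (l 16715328))) (b (b (l 16728584) (l 16723856)) (a (l 16717416) (b (l 16719304) (l 16706120)))))) (a (b (a (b (l 16707112) (l 16699728)) (b (l 16708720) (l 16702416))) (a (l 16678080) (l 16692856))) (a (b (l 16707376) (a (l 16695784) (b (l 16700408) (l 16696488)))) (b (a (b (l 16710896) (l 16707656)) (b (l 16715520) (l 16716488))) (a (l 16684960) (l 16717904)))))) (a (b (a (b (a (b (l 16726072) (a (l 16722520) (l 16724408))) (l 16720024)) (a (l 16713456) (l 16734040))) (b (l 16723432) (l 16725792))) (a (b (l 16711296) (l 16714320)) (l 16696408))) (b (a (b (l 16713352) (l 16700000)) (b (l 16710120) (l 16696000))) (a (l 16658512) (l 16653096))))), by decide +kernel⟩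

def k26_pm_102_s : ∃ t, chk3 f_pm_102_s t 31 35 1 = true :=
  ⟨(a (a (b (a (b (a (l 16671496) (l 16674360)) (a (l 16657304) (l 16660016))) (b (l 16679632) (a (l 16663336) (b (l 16671432) (l 16649792))))) (a (b (a (l 16648200) (l 16648376)) (a (l 16644776) (b (l 16623024) (l 16623056)))) (b (a (b (l 16653472) (a (l 16647640) (l 16650664))) (b (l 16661480) (l 16660392))) (a (l 16628752) (l 16661264))))) (b (a (b (a (b (l 16687400) (l 16682648)) (l 16693672)) (a (l 16678504) (l 16692704))) (l 16692392)) (a (b (l 16661936) (l 16660848)) (b (l 16691960) (l 16690024))))) (a (b (b (l 16682576) (l 16671664)) (b (l 16661520) (l 16652328))) (b (a (l 16673416) (l 16644720)) (a (l 16648488) (l 16617024))))), by decide +kernel⟩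

def k27_pm_102_s : ∃ t, chk3 f_pm_102_s t 14 18 1 = true :=
  ⟨(a (b (b (l 3) (a (l 3) (b (a (l 3) (b (l 3) (l 152102075335))) (a (l 284709133591) (b (l 16719744) (l 16741240)))))) (b (a (a (l 3) (b (l 414095129671) (b (l 16764224) (l 16765768)))) (b (a (b (l 16745848) (l 16743232)) (l 16696416)) (a (l 16697904) (l 16678992)))) (a (b (a (l 79087687959) (l 16720400)) (b (l 16669496) (l 16671096))) (a (b (l 16679800) (b (l 16669400) (l 16647320))) (b (a (l 16668312) (b (l 16656784) (l 16637232))) (a (b (l 16636032) (l 16621528)) (l 16617632))))))) (b (b (a (b (a (l 3) (a (l 271287380679) (b (l 16763296) (l 16773320)))) (a (b (l 447917993239) (l 246054570327)) (b (l 72108402231) (l 16738240)))) (b (a (b (l 16748544) (l 16739744)) (a (l 16733256) (b (l 16753400) (l 16719272)))) (a (a (l 16727048) (l 16715696)) (a (b (l 16733416) (l 16718784)) (b (l 16726800) (l 16713160)))))) (a (a (b (b (a (l 16770360) (l 16766224)) (l 16739288)) (l 16695640)) (b (b (l 16725024) (l 16709464))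 (a (l 16711944) (b (l 16704360) (l 16684624))))) (a (b (a (b (l 16725288) (l 16706984)) (b (l 16690920) (l 16696872))) (a (b (l 16690024) (l 16674992)) (l 16675712))) (b (a (l 16697760) (l 16693216)) (l 16668208))))) (a (b (a (b (l 16658536) (a (b (l 16679320) (l 16656992)) (b (l 16659232) (l 16643616)))) (b (a (b (l 16681304) (l 16663264)) (b (l 16668696) (l 16654120))) (l 16638520))) (a (b (a (b (l 16639832) (l 16625600)) (l 16623816)) (l 16604024)) (l 16599968))) (a (b (l 16596392) (l 16585536)) (b (a (l 16630184) (l 16625520)) (a (l 16576320) (l 16571136))))))), by decide +kernel⟩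

def k28_pm_102_s : ∃ t, chk3 f_pm_102_s t 14 19 1 = true :=
  ⟨(a (b (b (a (b (a (l 16704336) (l 16661960)) (a (l 16666568) (a (l 16634504) (l 16618880)))) (a (b (a (l 16587920) (l 16616176)) (l 16600824)) (l 16589648))) (a (b (a (a (l 16643192) (l 16626248)) (l 16607544)) (a (l 16619320) (l 16593392))) (a (l 16575656) (l 16551272)))) (a (b (l 16570400) (l 16577720)) (a (l 16534600) (l 16460400)))) (b (a (a (b (l 16569920) (l 16527424)) (b (l 16551096) (l 16505064))) (a (b (l 16534224) (l 16485264)) (b (l 16520232) (l 16468944)))) (a (a (b (l 16489000) (l 16455368)) (b (l 16462648) (l 16424560))) (a (b (l 16439432) (a (l 16403208) (b (l 16401280) (l 16376640)))) (b (a (l 16424096) (b (l 16427704) (l 16399496))) (a (b (l 16386312) (l 16352296)) (l 16344648))))))), by decide +kernel⟩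

def k29_pm_102_s : ∃ t, chk3 f_pm_102_s t 30 9 1 = true :=
  ⟨(b (a (b (a (b (b (a (b (l 16748848) (l 16735832)) (l 16740448)) (l 16694336)) (b (l 16688896) (l 16662000))) (b (a (a (l 16706824) (l 16707408)) (b (l 16724496) (l 16699864))) (a (l 16654528) (l 16639888)))) (a (b (b (l 16634792) (l 16607400)) (l 16545280)) (b (a (l 16621360) (l 16628056)) (a (l 16566384) (b (l 16586984) (l 16558112)))))) (b (a (b (a (b (l 16707848) (l 16714944)) (b (l 16682784) (l 16696496))) (a (l 16656080) (l 16679080))) (a (b (l 16643880) (b (l 16686224) (l 16683872))) (b (b (l 16638288) (a (l 16676216) (l 16647872))) (b (a (l 16671856) (l 16690736)) (l 16717408))))) (a (b (a (l 16623688) (b (l 16659560) (l 16608200))) (a (b (l 16580152) (l 16567592)) (l 16572504))) (b (a (b (l 16674936) (l 16657552)) (l 16635800)) (l 16558304))))) (a (b (a (b (l 16511888) (a (l 16459064) (b (l 16468912) (l 16436600)))) (b (a (b (l 16524888) (a (l 16496632) (l 16494616))) (b (a (l 16526920) (l 16527712))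 (l 16488384))) (a (b (l 16459624) (l 16419112)) (l 16427640)))) (a (b (b (a (l 16416232) (l 16397152)) (l 16367744)) (l 16309128)) (b (a (l 16358808) (l 16346592)) (a (l 16278968) (l 16265760))))) (b (a (b (a (l 16507288) (l 16513352)) (a (l 16426096) (l 16431912))) (b (l 16520408) (l 16438896))) (a (b (a (l 16344416) (l 16349768)) (a (l 16262752) (l 16267432))) (b (l 16356360) (l 16273336)))))), by decide +kernel⟩

def k30_pm_102_s : ∃ t, chk3 f_pm_102_s t 31 9 1 = true :=
  ⟨(b (a (b (b (a (a (b (a (b (l 16647088) (l 16652320)) (l 16651184)) (l 16646912)) (b (l 16641624) (l 16656320))) (a (b (l 16662448) (l 16670312)) (b (l 16689664) (l 16691896)))) (a (a (l 16662656) (b (l 16675088) (l 16720064))) (b (a (l 16685600) (l 16694240)) (a (l 16688072) (l 16670600))))) (b (a (a (l 16632824) (l 16647776)) (b (a (l 16676344) (l 16664016)) (l 16636720))) (a (b (l 16616624) (l 16578096)) (b (l 16601560) (l 16564608))))) (b (b (a (a (b (l 16684520) (l 16676296)) (b (l 16667800) (l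 16660456))) (a (l 16627152) (l 16592512))) (a (a (b (l 16665576) (l 16669736)) (b (l 16651704) (l 16640536))) (a (b (l 16614728) (l 16605560)) (b (l 16577088) (l 16568872))))) (b (a (a (b (l 16645656) (l 16617728)) (b (l 16623320) (l 16598904))) (a (b (l 16594024) (l 16576504)) (b (l 16559376) (l 16547568)))) (a (b (a (l 16584296) (l 16570680)) (l 16543328)) (a (b (l 16551832) (l 16523408)) (b (l 16529832) (l 16504992))))))) (b (a (a (b (l 16518456) (l 16437424)) (b (l 16444408) (l 16427400))) (b (a (b (l 16507664) (l 16470296)) (b (a (l 16489576) (l 16476448)) (l 16448464))) (a (l 16412536) (b (l 16412616) (l 16375128))))) (a (a (b (l 16354952) (l 16271592)) (b (l 16345672) (l 16262672))) (b (a (l 16332200) (l 16317304)) (a (l 16250256) (l 16237096)))))), by decide +kernel⟩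

def k31_pm_102_s : ∃ t, chk3 f_pm_102_s t 6 5 1 = true :=
  ⟨(b (b (a (a (b (b (a (l 16771528) (l 16771480)) (b (l 16764944) (l 16759752))) (b (b (l 16760152) (l 16764968)) (b (l 16767056) (l 16765336)))) (b (b (a (l 16757152) (l 16739424)) (b (l 16740648) (l 16744336))) (b (b (l 16749672) (l 16751736)) (b (l 16752336) (l 16710144))))) (b (a (b (a (b (l 16724368) (l 16725168)) (l 16691112)) (a (l 16730600) (l 16714616))) (a (l 16693064) (a (l 16664136) (l 16629096)))) (b (a (l 16726368) (a (l 16697912) (l 16653432))) (b (a (l 16728392) (a (l 16700160) (l 16655672))) (b (a (l 16728768) (a (l 16700960) (l 16608680))) (a (l 16729272) (a (l 16658440) (a (l 16601160) (l 16614616))))))))) (a (a (l 16746400) (l 16683296)) (a (a (l 16753160) (l 16739048)) (a (l 16697464) (l 16569480))))) (a (b (a (l 16721728) (l 16720040)) (a (l 16692288) (l 16674880))) (a (b (l 16727256) (l 16669728)) (a (b (l 16739624) (l 16674664)) (b (l 16633240) (l 16702944)))))), by decide +kernel⟩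

def k32_pm_102_s : ∃ t, chk3 f_pm_102_s t 14 5 1 = true :=
  ⟨(b (b (a (b (a (a (l 16591904) (l 16548032)) (b (l 16465376) (a (l 16497256) (l 16448736)))) (b (a (a (l 16595920) (l 16545704)) (a (b (l 16494568) (l 16487776)) (b (l 16435024) (l 16412504)))) (a (b (a (l 16594568) (l 16538000)) (b (l 16524000) (l 16520600))) (b (l 16401592) (b (l 16390872) (l 16262536)))))) (b (a (b (a (l 16427192) (b (l 16398344) (l 16358032))) (a (b (l 16407688) (l 16390928)) (b (l 16354624) (l 16322704)))) (b (a (b (a (l 16370832) (l 16344080)) (l 16323976)) (l 16283336)) (a (l 16272176) (l 16210432)))) (b (a (a (l 16347600) (l 16273120)) (a (l 16202352) (l 16052368))) (a (b (l 16154792) (b (l 16183368) (a (l 16242248) (l 16160744)))) (b (a (l 16146472) (l 16077168)) (b (a (l 16109808) (l 16039296)) (a (l 16083880) (a (l 16009048) (l 15975160))))))))) (a (a (l 16487080) (b (a (l 16406648) (l 16319808)) (l 16379776))) (a (b (a (l 16234592) (l 16146784)) (a (l 16245800) (l 16148400))) (b (a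 (l 16060360) (l 15981200)) (a (l 16055472) (l 15962848)))))) (a (a (b (l 16548752) (l 16614704)) (b (l 16386080) (l 16449536))) (b (a (l 16115560) (b (a (l 16065544) (l 15963272)) (l 16027056))) (a (l 16237096) (a (l 16104608) (l 16000560)))))), by decide +kernel⟩

def k33_pm_102_s : ∃ t, chk3 f_pm_102_s t 15 10 1 = true :=
  ⟨(a (b (b (a (a (b (l 16232008) (l 16155504)) (b (a (l 16199784) (l 16185400)) (a (l 16120992) (l 16105288)))) (a (b (a (l 16181376) (l 16185208)) (a (l 16100112) (l 16102952))) (b (l 16190152) (l 16106728)))) (a (b (a (b (l 16098416) (l 16058848)) (a (l 16040712) (l 16023632))) (b (a (l 16015800) (b (l 15958904) (l 15935544))) (b (a (l 15956024) (a (l 15937912) (l 15919616))) (a (b (b (b (l 15958112) (l 15928464)) (l 15943320)) (l 15940376)) (b (b (b (l 15909168) (b (l 15903248) (a (l 15907992) (l 15889952)))) (l 15894664)) (l 15891136)))))) (b (a (a (l 16017248) (l 16019048)) (l 16021608)) (b (a (l 15931296) (l 15954784)) (b (a (a (l 15912224) (l 15913224))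 (l 15914992)) (a (b (b (b (l 15893800) (b (l 15888104) (a (l 15882872) (l 15884240)))) (l 15879672)) (l 15875608)) (b (b (b (l 15896608) (a (l 15888824) (l 15888648))) (l 15882960)) (l 15878400)))))))) (a (a (b (l 15910976) (l 15855264)) (b (b (l 15850088) (l 15819040)) (b (l 15794408) (l 15776648)))) (a (b (a (l 15834096) (l 15832088)) (a (l 15774728) (l 15766176))) (b (l 15808760) (l 15733472))))) (b (b (a (b (a (l 16187728) (l 16178808)) (a (l 16103344) (l 16094168))) (b (a (l 16167112) (l 16155392)) (a (l 16082936) (l 16072416)))) (b (a (a (l 16017200) (l 16007736)) (a (l 15996960) (l 15987672))) (b (a (a (l 15949800) (l 15940336)) (l 15914960)) (b (a (a (l 15910328) (l 15901512)) (l 15867280)) (b (b (b (a (l 15888384) (l 15872120)) (a (b (l 15883432) (a (l 15883024) (l 15875480))) (a (l 15911552) (l 15885400)))) (a (l 15875664) (l 15861008))) (a (l 15870448) (l 15855096))))))) (a (b (a (l 15820248) (l 15807456)) (a (l 15712296) (l 15688776))) (b (a (l 15795160) (l 15786208))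 (a (l 15666728) (l 15649024)))))), by decide +kernel⟩

def k34_pm_102_s : ∃ t, chk3 f_pm_102_s t 15 11 1 = true :=
  ⟨(a (a (b (a (b (l 15870104) (l 15878992)) (b (b (l 15766192) (l 15763600)) (b (l 15764504) (l 15790648)))) (a (l 15898752) (l 15804848))) (b (a (b (a (l 15742376) (l 15726392)) (a (l 15737920) (l 15715856))) (b (b (l 15713952) (l 15695496)) (b (l 15684352) (l 15681072)))) (a (l 15718608) (b (b (l 15681312) (l 15685824)) (l 15692576))))) (b (a (b (b (l 15645216) (l 15616064)) (b (l 15593576) (l 15578184))) (b (a (l 15599128) (l 15549632)) (b (l 15506432) (l 15476504)))) (a (b (b (l 15592424) (l 15589912)) (b (l 15568240) (l 15595840))) (b (b (l 15453240) (l 15437080)) (b (l 15387632) (l 6)))))), by decide +kernel⟩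

def k35_pm_102_s : ∃ t, chk3 f_pm_102_s t 3 3 1 = true :=
  ⟨(b (b (b (a (a (a (l 16671720) (l 16646248)) (a (l 16624536) (a (l 16618864) (l 16632928)))) (a (a (a (l 16658264) (l 16473184)) (a (l 16301296) (l 16028384))) (a (a (a (l 15934440) (l 15837216)) (a (l 15747136) (l 15712312))) (l 6)))) (a (a (a (l 16661960) (l 16626704)) (a (l 16596152) (l 16492576))) (a (a (a (l 16625848) (l 16535568)) (a (l 16344512) (l 6))) (l 6)))) (b (a (a (l 16573664) (a (l 16577088) (l 16544864))) (l 6)) (a (l 6) (l 6)))) (l 6)), by decide +kernel⟩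

theorem s36_pm_102_s : ∃ t, chk3 f_pm_102_s t 15 5 1 = true := ex3_b k33_pm_102_s k34_pm_102_s

theorem s37_pm_102_s : ∃ t, chk3 f_pm_102_s t 7 5 1 = true := ex3_a k32_pm_102_s s36_pm_102_s

theorem s38_pm_102_s : ∃ t, chk3 f_pm_102_s t 3 5 1 = true := ex3_a k31_pm_102_s s37_pm_102_s

theorem s39_pm_102_s : ∃ t, chk3 f_pm_102_s t 15 9 1 = true := ex3_a k29_pm_102_s k30_pm_102_s

theorem s40_pm_102_s : ∃ t, chk3 f_pm_102_s t 14 9 1 = true := ex3_b k27_pm_102_s k28_pm_102_s

theorem s41_pm_102_s : ∃ t, chk3 f_pm_102_s t 7 9 1 = true := ex3_a s40_pm_102_s s39_pm_102_s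

theorem s42_pm_102_s : ∃ t, chk3 f_pm_102_s t 31 17 1 = true := ex3_b k25_pm_102_s k26_pm_102_s

theorem s43_pm_102_s : ∃ t, chk3 f_pm_102_s t 30 35 1 = true := ex3_a k23_pm_102_s k24_pm_102_s

theorem s44_pm_102_s : ∃ t, chk3 f_pm_102_s t 61 69 1 = true := ex3_a k21_pm_102_s k22_pm_102_s

theorem s45_pm_102_s : ∃ t, chk3 f_pm_102_s t 61 68 1 = true := ex3_a k19_pm_102_s k20_pm_102_s

theorem s46_pm_102_s : ∃ t, chk3 f_pm_102_s t 61 34 1 = true := ex3_b s45_pm_102_s s44_pm_102_s

theorem s47_pm_102_s : ∃ t, chk3 f_pm_102_s t 30 34 1 = true := ex3_a k18_pm_102_s s46_pm_102_s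

theorem s48_pm_102_s : ∃ t, chk3 f_pm_102_s t 30 17 1 = true := ex3_b s47_pm_102_s s43_pm_102_s

theorem s49_pm_102_s : ∃ t, chk3 f_pm_102_s t 15 17 1 = true := ex3_a s48_pm_102_s s42_pm_102_s

theorem s50_pm_102_s : ∃ t, chk3 f_pm_102_s t 62 67 1 = true := ex3_a k15_pm_102_s k16_pm_102_s

theorem s51_pm_102_s : ∃ t, chk3 f_pm_102_s t 125 66 1 = true := ex3_b k13_pm_102_s k14_pm_102_s

theorem s52_pm_102_s : ∃ t, chk3 f_pm_102_s t 62 66 1 = true := ex3_a k12_pm_102_s s51_pm_102_s

theorem s53_pm_102_s : ∃ t, chk3 f_pm_102_s t 62 33 1 = true := ex3_b s52_pm_102_s s50_pm_102_s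

theorem s54_pm_102_s : ∃ t, chk3 f_pm_102_s t 31 33 1 = true := ex3_a s53_pm_102_s k17_pm_102_s

theorem s55_pm_102_s : ∃ t, chk3 f_pm_102_s t 126 131 1 = true := ex3_a k9_pm_102_s k10_pm_102_s

theorem s56_pm_102_s : ∃ t, chk3 f_pm_102_s t 253 130 1 = true := ex3_a k7_pm_102_s k8_pm_102_s

theorem s57_pm_102_s : ∃ t, chk3 f_pm_102_s t 126 130 1 = true := ex3_a k6_pm_102_s s56_pm_102_s

theorem s58_pm_102_s : ∃ t, chk3 f_pm_102_s t 126 65 1 = true := ex3_b s57_pm_102_s s55_pm_102_s

theorem s59_pm_102_s : ∃ t, chk3 f_pm_102_s t 63 65 1 = true := ex3_a s58_pm_102_s k11_pm_102_s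

theorem s60_pm_102_s : ∃ t, chk3 f_pm_102_s t 63 32 1 = true := ex3_b k5_pm_102_s s59_pm_102_s

theorem s61_pm_102_s : ∃ t, chk3 f_pm_102_s t 31 32 1 = true := ex3_a k4_pm_102_s s60_pm_102_s

theorem s62_pm_102_s : ∃ t, chk3 f_pm_102_s t 31 16 1 = true := ex3_b s61_pm_102_s s54_pm_102_s

theorem s63_pm_102_s : ∃ t, chk3 f_pm_102_s t 15 16 1 = true := ex3_a k3_pm_102_s s62_pm_102_s

theorem s64_pm_102_s : ∃ t, chk3 f_pm_102_s t 15 8 1 = true := ex3_b s63_pm_102_s s49_pm_102_s

theorem s65_pm_102_s : ∃ t, chk3 f_pm_102_s t 7 8 1 = true := ex3_a k2_pm_102_s s64_pm_102_s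

theorem s66_pm_102_s : ∃ t, chk3 f_pm_102_s t 7 4 1 = true := ex3_b s65_pm_102_s s41_pm_102_s

theorem s67_pm_102_s : ∃ t, chk3 f_pm_102_s t 3 4 1 = true := ex3_a k1_pm_102_s s66_pm_102_s

theorem s68_pm_102_s : ∃ t, chk3 f_pm_102_s t 3 2 1 = true := ex3_b s67_pm_102_s s38_pm_102_s

theorem s69_pm_102_s : ∃ t, chk3 f_pm_102_s t 3 1 1 = true := ex3_b s68_pm_102_s k35_pm_102_s

theorem s70_pm_102_s : ∃ t, chk3 f_pm_102_s t 1 1 1 = true := ex3_a k0_pm_102_s s69_pm_102_s

theorem c_pm_102_s : CertNE 536870912 536870912 0 536870912 1033476505 6710887 3 eng mog cd0q1 cd0q0 pd2 true true false .npp 1 0 2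
    ndB0q1 ndB0q0 pcB2 cut_pm_102_s Ext.none :=
  certNE1 (fam := true) (s1 := true) (s2 := false) (a := 1) (b := 0) (c := 2) (cn := .npp) (n1 := ndB0q1) (n2 := ndB0q0) (pc := pcB2) (cut := cut_pm_102_s) (xt := Ext.none) (P1 := 536870912) (W1 := 536870912) (P2 := 0) (W2 := 536870912) (P3 := 1033476505) (W3 := 6710887) (N0 := 3) (En := eng) (mo := mog) (C1 := cd0q1) (C2 := cd0q0) (C3 := pd2)
    rfl (fun _ => rfl) s70_pm_102_s

noncomputable def cut_pm_102_t : Cut := Cut.of [[⟨3, 0, 0, 2845415833⟩], [⟨0, 1, 0, 16777216⟩, ⟨1, 0, 0, 16777216⟩, ⟨2, 1, 0, 16777216⟩]]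

noncomputable def f_pm_102_t : ℕ → ℕ → ℕ → ℕ → Bool := onCell 536870912 536870912 0 536870912 1033476505 6710887
    (rowNE 3 eng mog cd0q1 cd0q0 pd2 0 true true false .npp 1 0 2 (qsf 536870912 536870912 0 536870912 2) ndB0q1 ndB0q0 pcB2 cut_pm_102_t Ext.none)

def k0_pm_102_t : ∃ t, chk3 f_pm_102_t t 1 1 1 = true :=
  ⟨(l 6), by decide +kernel⟩

theorem c_pm_102_t : CertNE 536870912 536870912 0 536870912 1033476505 6710887 3 eng mog cd0q1 cd0q0 pd2 true true false .npp 1 0 2
    ndB0q1 ndB0q0 pcB2 cut_pm_102_t Ext.none :=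
  certNE0 (fam := true) (s1 := true) (s2 := false) (a := 1) (b := 0) (c := 2) (cn := .npp) (n1 := ndB0q1) (n2 := ndB0q0) (pc := pcB2) (cut := cut_pm_102_t) (xt := Ext.none) (P1 := 536870912) (W1 := 536870912) (P2 := 0) (W2 := 536870912) (P3 := 1033476505) (W3 := 6710887) (N0 := 3) (En := eng) (mo := mog) (C1 := cd0q1) (C2 := cd0q0) (C3 := pd2)
    rfl k0_pm_102_t

noncomputable def cut_pm_112_s : Cut := Cut.of [[⟨4, 0, 0, 1449551462⟩]]

noncomputable def f_pm_112_s : ℕ → ℕ → ℕ → ℕ → Bool := onCell 536870912 536870912 1073741824 536870912 1033476505 6710887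
    (rowNE 3 eng mog cd0q1 cd0q1 pd2 1 true true false .dn 1 1 2 (qsf 536870912 536870912 536870912 536870912 2) ndB0q1 ndB0q1 pcB2 cut_pm_112_s Ext.none)

def k0_pm_112_s : ∃ t, chk3 f_pm_112_s t 1 1 1 = true :=
  ⟨(a (b (b (b (l 3) (l 3)) (a (b (b (b (l 3) (b (l 3) (b (a (a (l 16774792) (l 3)) (l 3)) (a (l 16776800) (l 16777216))))) (a (a (l 16765600) (l 16769368)) (b (l 16773248) (l 16766904)))) (a (b (a (l 16751048) (l 16752624)) (a (l 16723048) (l 16740888))) (a (b (l 16756912) (l 16740024)) (l 16750696)))) (a (a (b (b (b (l 3) (b (l 3) (b (l 16775032) (l 16776368)))) (l 16769016)) (l 16749856)) (b (b (b (l 1) (b (l 1) (b (l 1) (l 16774992)))) (l 16764440)) (l 16820296))) (a (b (b (l 1) (l 16763240)) (b (l 16741856) (l 16732320))) (b (l 1) (b (l 16731960) (l 16710624))))))) (a (b (b (a (a (b (l 16687824) (l 16646072)) (b (l 16712832) (l 16676808))) (a (b (l 16727912) (l 16710352)) (b (l 16726872) (l 16714072)))) (b (a (a (l 16599008) (l 16636456)) (a (l 16673048) (l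 16707088))) (a (l 6) (l 6)))) (l 6)) (b (a (a (b (a (l 16718272) (l 16722168)) (l 16675584)) (b (l 16720048) (l 16686008))) (a (b (l 16701680) (b (l 16700544) (l 6))) (b (l 16695592) (l 16700064)))) (l 6)))) (b (a (b (l 1) (b (l 1) (a (b (l 1) (a (l 16691880) (l 1))) (l 1)))) (l 1)) (b (b (a (a (a (b (l 16671560) (l 16661936)) (b (l 16645832) (l 16626536))) (a (b (l 1) (l 16595736)) (l 1))) (l 1)) (b (a (a (l 16531736) (a (l 16576920) (l 16523480))) (l 1)) (a (l 6) (l 6)))) (l 6)))), by decide +kernel⟩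

theorem c_pm_112_s : CertNE 536870912 536870912 536870912 536870912 1033476505 6710887 3 eng mog cd0q1 cd0q1 pd2 true true false .dn 1 1 2
    ndB0q1 ndB0q1 pcB2 cut_pm_112_s Ext.none :=
  certNE1 (fam := true) (s1 := true) (s2 := false) (a := 1) (b := 1) (c := 2) (cn := .dn) (n1 := ndB0q1) (n2 := ndB0q1) (pc := pcB2) (cut := cut_pm_112_s) (xt := Ext.none) (P1 := 536870912) (W1 := 536870912) (P2 := 536870912) (W2 := 536870912) (P3 := 1033476505) (W3 := 6710887) (N0 := 3) (En := eng) (mo := mog) (C1 := cd0q1) (C2 := cd0q1) (C3 := pd2)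
    rfl (fun _ => rfl) k0_pm_112_s

noncomputable def cut_pm_112_t : Cut := Cut.of [[⟨3, 0, 0, 2845415833⟩]]

noncomputable def f_pm_112_t : ℕ → ℕ → ℕ → ℕ → Bool := onCell 536870912 536870912 1073741824 536870912 1033476505 6710887
    (rowNE 3 eng mog cd0q1 cd0q1 pd2 1 true true false .dn 1 1 2 (qsf 536870912 536870912 536870912 536870912 2) ndB0q1 ndB0q1 pcB2 cut_pm_112_t Ext.none)

def k0_pm_112_t : ∃ t, chk3 f_pm_112_t t 1 1 1 = true :=
  ⟨(l 6), by decide +kernel⟩

theorem c_pm_112_t : CertNE 536870912 536870912 536870912 536870912 1033476505 6710887 3 eng mog cd0q1 cd0q1 pd2 true true false .dn 1 1 2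
    ndB0q1 ndB0q1 pcB2 cut_pm_112_t Ext.none :=
  certNE1 (fam := true) (s1 := true) (s2 := false) (a := 1) (b := 1) (c := 2) (cn := .dn) (n1 := ndB0q1) (n2 := ndB0q1) (pc := pcB2) (cut := cut_pm_112_t) (xt := Ext.none) (P1 := 536870912) (W1 := 536870912) (P2 := 536870912) (W2 := 536870912) (P3 := 1033476505) (W3 := 6710887) (N0 := 3) (En := eng) (mo := mog) (C1 := cd0q1) (C2 := cd0q1) (C3 := pd2)
    rfl (fun _ => rfl) k0_pm_112_t

noncomputable def cut_pm_113_s : Cut := Cut.of [[⟨4, 0, 0, 1449551462⟩], [⟨0, 1, 0, 20971520⟩, ⟨1, 1, 0, 20971520⟩, ⟨2, 2, 0, 1572864⟩], [⟨0, 0, 1, 46137344⟩, ⟨1, 1, 0, 1048576⟩, ⟨2, 1, 1, 46137344⟩, ⟨0, 0, 0, 1047972020⟩, ⟨0, 1, 0, 45097156⟩, ⟨2, 1, 0, 1047972020⟩, ⟨2, 2, 0, 45097156⟩], [⟨0, 1, 0, 1048576⟩, ⟨1, 0, 1, 46137344⟩, ⟨2, 1, 1, 46137344⟩, ⟨1, 0, 0, 1047972020⟩, ⟨1, 1, 0, 45097156⟩, ⟨2, 1, 0, 1047972020⟩, ⟨2, 2, 0, 45097156⟩]]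

noncomputable def f_pm_113_s : ℕ → ℕ → ℕ → ℕ → Bool := onCell 1610612736 536870912 536870912 536870912 1033476505 6710887
    (rowNE 3 eng mog cd0q1 cd0q1 pd3 2 true true false .nn 1 1 3 (qsf 536870912 536870912 536870912 536870912 3) ndB0q1 ndB0q1 pcB3 cut_pm_113_s Ext.none)

def k0_pm_113_s : ∃ t, chk3 f_pm_113_s t 1 1 1 = true :=
  ⟨(a (b (a (l 6) (l 6)) (l 6)) (l 6)), by decide +kernel⟩

theorem c_pm_113_s : CertNE 536870912 536870912 536870912 536870912 1033476505 6710887 3 eng mog cd0q1 cd0q1 pd3 true true false .nn 1 1 3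
    ndB0q1 ndB0q1 pcB3 cut_pm_113_s Ext.none :=
  certNE2 (fam := true) (s1 := true) (s2 := false) (a := 1) (b := 1) (c := 3) (cn := .nn) (n1 := ndB0q1) (n2 := ndB0q1) (pc := pcB3) (cut := cut_pm_113_s) (xt := Ext.none) (P1 := 536870912) (W1 := 536870912) (P2 := 536870912) (W2 := 536870912) (P3 := 1033476505) (W3 := 6710887) (N0 := 3) (En := eng) (mo := mog) (C1 := cd0q1) (C2 := cd0q1) (C3 := pd3)
    rfl (fun _ => rfl) k0_pm_113_s

end Pool.Agent.Strip051.G.I9625_9688.Tab.CS.BA00

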