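import Pool.Agent.Strip051.G.I9625_9688.Tab
import Pool.Agent.Strip051.PB.StripB

/-! # Strips, near vertex: certificates 1 (generated) -/

set_option linter.all false
set_option maxRecDepth 100000

namespace Pool.Agent.Strip051.G.I9625_9688.Tab.CS.BA00

open Pool.Agent.Strip051.PB Pool.Agent.Strip051.PB.T
open Pool.Agent.Strip051.G.I9625_9688.Tab

noncomputable def cut_pm_113_t : Cut := Cut.of [[⟨3, 0, 0, 3194381926⟩], [⟨0, 1, 0, 20971520⟩, ⟨1, 1, 0, 20971520⟩, ⟨2, 2, 0, 1572864⟩], [⟨0, 0, 1, 46137344⟩, ⟨1, 1, 0, 1048576⟩, ⟨2, 1, 1, 46137344⟩, ⟨0, 0, 0, 1047972020⟩, ⟨0, 1, 0, 45097156⟩, ⟨2, 1, 0, 1047972020⟩, ⟨2, 2, 0, 45097156⟩], [⟨0, 1, 0, 1048576⟩, ⟨1, 0, 1, 46137344⟩, ⟨2, 1, 1, 46137344⟩, ⟨1, 0, 0, 1047972020⟩, ⟨1, 1, 0, 45097156⟩, ⟨2, 1, 0, 1047972020⟩, ⟨2, 2, 0, 45097156⟩]]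

noncomputable def f_pm_113_t : ℕ → ℕ → ℕ → ℕ → Bool := onCell 536870912 536870912 536870912 536870912 1033476505 6710887
    (rowNE 3 eng mog cd0q1 cd0q1 pd3 0 true true false .nn 1 1 3 (qsf 536870912 536870912 536870912 536870912 3) ndB0q1 ndB0q1 pcB3 cut_pm_113_t Ext.none)

def k0_pm_113_t : ∃ t, chk3 f_pm_113_t t 2 1 1 = true :=
  ⟨(l 6), by decide +kernel⟩

def k1_pm_113_t : ∃ t, chk3 f_pm_113_t t 3 2 1 = true :=
  ⟨(l 6), by decide +kernel⟩

def k2_pm_113_t : ∃ t, chk3 f_pm_113_t t 6 3 1 = true :=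
  ⟨(l 6), by decide +kernel⟩

def k3_pm_113_t : ∃ t, chk3 f_pm_113_t t 7 6 1 = true :=
  ⟨(l 6), by decide +kernel⟩

def k4_pm_113_t : ∃ t, chk3 f_pm_113_t t 14 7 1 = true :=
  ⟨(l 6), by decide +kernel⟩

def k5_pm_113_t : ∃ t, chk3 f_pm_113_t t 15 14 1 = true :=
  ⟨(l 6), by decide +kernel⟩

def k6_pm_113_t : ∃ t, chk3 f_pm_113_t t 30 15 1 = true :=
  ⟨(l 6), by decide +kernel⟩

def k7_pm_113_t : ∃ t, chk3 f_pm_113_t t 31 30 1 = true :=
  ⟨(l 6), by decide +kernel⟩

def k8_pm_113_t : ∃ t, chk3 f_pm_113_t t 62 31 1 = true :=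
  ⟨(l 6), by decide +kernel⟩

def k9_pm_113_t : ∃ t, chk3 f_pm_113_t t 63 62 1 = true :=
  ⟨(l 6), by decide +kernel⟩

def k10_pm_113_t : ∃ t, chk3 f_pm_113_t t 126 63 1 = true :=
  ⟨(b (l 6) (b (l 6) (a (l 6) (b (l 6) (a (l 6) (b (l 6) (a (l 6) (b (b (l 6) (a (l 6) (a (l 6) (c (l 16775360) (l 16775904))))) (b (a (l 6) (a (c (l 16775368) (l 16775280)) (c (l 16775424) (l 16775328)))) (c (a (c (l 16774728) (l 16774696)) (c (l 16775136) (l 16774760))) (a (c (l 16774656) (l 16774616)) (c (l 16774720) (l 16774672))))))))))))), by decide +kernel⟩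

def k11_pm_113_t : ∃ t, chk3 f_pm_113_t t 127 126 1 = true :=
  ⟨(a (l 6) (b (l 6) (a (l 6) (b (l 6) (a (l 6) (b (l 6) (a (a (l 6) (b (l 6) (b (l 6) (c (l 16775360) (l 16775904))))) (a (b (l 6) (b (c (l 16775368) (l 16775280)) (c (l 16775424) (l 16775656)))) (c (b (c (l 16774728) (l 16774696)) (c (l 16775136) (l 16775088))) (b (c (l 16774656) (l 16774616)) (c (l 16775048) (l 16775000)))))))))))), by decide +kernel⟩

def k12_pm_113_t : ∃ t, chk3 f_pm_113_t t 254 254 1 = true :=
  ⟨(a (l 6) (a (l 6) (b (l 6) (b (l 6) (a (l 16780632) (l 16780128)))))), by decide +kernel⟩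

def k13_pm_113_t : ∃ t, chk3 f_pm_113_t t 254 510 1 = true :=
  ⟨(b (a (l 6) (a (b (a (l 6) (a (l 6) (l 16777016))) (a (c (l 16780904) (l 16780768)) (b (a (l 16780936) (c (b (l 16781168) (l 16780904)) (b (l 16781048) (l 16780784)))) (l 16780680)))) (b (l 16780792) (a (b (c (l 16778936) (a (l 16781224) (l 16781656))) (a (c (l 16780704) (l 16780592)) (b (l 16779664) (c (l 16780664) (l 16780552))))) (c (l 16776704) (l 16776632)))))) (a (a (l 6) (b (c (l 16780424) (l 16779608)) (c (a (l 16779992) (l 16780064)) (a (l 16779824) (l 16779904))))) (a (b (c (a (l 16780456) (l 16780432)) (a (l 16780312) (l 16780296))) (c (a (l 16780088) (l 16780072)) (a (l 16779936) (l 16779936)))) (b (a (c (l 16780368) (l 16779920)) (b (a (c (b (l 16780568) (l 16780320)) (b (l 16779808) (l 16780208))) (c (l 16779424) (l 16779336))) (a (l 16780128) (b (c (l 16780184) (l 16780088)) (l 16780016))))) (a (c (l 16780016) (l 16779888)) (c (l 16779912) (l 16779800))))))), by decide +kernel⟩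

def k14_pm_113_t : ∃ t, chk3 f_pm_113_t t 508 1022 1 = true :=
  ⟨(b (b (a (l 6) (a (c (l 16777128) (l 16778256)) (c (l 16779832) (l 16777040)))) (a (a (l 6) (a (l 6) (c (l 16779288) (l 16779104)))) (a (c (b (a (l 16778240) (l 16778344)) (l 16779368)) (b (a (l 16779368) (l 16778824)) (l 16779192))) (c (b (l 16779728) (a (l 16779568) (l 16778360))) (b (l 16779552) (a (l 16779392) (l 16779168))))))) (b (a (a (l 6) (c (l 16778696) (c (l 16778576) (l 16778488)))) (c (a (l 16778952) (c (l 16779256) (l 16779176))) (a (c (l 16778832) (l 16778744)) (c (l 16779096) (l 16779008))))) (a (c (a (l 16777920) (l 16778136)) (a (c (l 16777816) (l 16777744)) (c (l 16778024) (l 16777952)))) (c (a (l 16777712) (c (l 16778648) (l 16778568))) (a (c (l 16778256) (l 16778176)) (c (l 16778496) (l 16778416))))))), by decide +kernel⟩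

def k15_pm_113_t : ∃ t, chk3 f_pm_113_t t 509 1022 1 = true :=
  ⟨(a (b (a (c (a (l 16778488) (l 16778496)) (a (l 16779304) (l 16779648))) (c (c (l 16778528) (l 16778456)) (c (l 16779688) (l 16779616)))) (b (a (c (b (a (l 16779568) (l 16779656)) (l 16779344)) (b (a (l 16779072) (c (l 16778216) (l 16779448))) (l 16779184))) (c (b (l 16778360) (a (l 16779536) (l 16779280))) (b (l 16778856) (a (c (l 16779416) (l 16779336)) (c (l 16779496) (l 16779416)))))) (b (c (a (l 16779024) (l 16779288)) (a (l 16778872) (l 16778808))) (c (a (l 16778696) (l 16778944)) (a (l 16778544) (l 16778792)))))) (b (a (c (b (l 16779816) (l 16777088)) (b (l 16779680) (l 16778256))) (c (b (l 16779720) (l 16778312)) (b (l 16779600) (l 16779496)))) (b (a (c (c (l 16778360) (l 16778944)) (c (l 16778872) (l 16778800))) (c (l 16778232) (l 16779416))) (a (b (b (a (c (l 16779552) (l 16779400)) (l 16779168)) (c (a (l 16779408) (l 16779512)) (a (l 16779264) (l 16779368)))) (c (l 16779208) (c (l 16779096) (l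 16779024)))) (c (b (l 16778840) (a (c (l 16778752) (l 16779016)) (a (l 16779144) (l 16778784)))) (b (l 16779032) (b (a (l 16779320) (l 16779328)) (a (l 16779176) (c (l 16779304) (l 16779240)))))))))), by decide +kernel⟩

def k16_pm_113_t : ∃ t, chk3 f_pm_113_t t 508 1023 1 = true :=
  ⟨(a (c (b (a (c (b (l 16776088) (l 16775504)) (b (l 16776024) (l 16775440))) (c (b (l 16777592) (l 16776968)) (b (l 16777520) (l 16776904)))) (a (c (b (l 16775544) (a (l 16774216) (l 16774264))) (b (l 16775488) (a (l 16774168) (l 16774208)))) (c (b (l 16775664) (a (l 16774312) (l 16775016))) (b (l 16775608) (a (l 16774256) (l 16774304)))))) (b (a (c (b (l 16777272) (l 16775384)) (b (l 16777200) (l 16776632))) (c (b (l 16777448) (l 16776840)) (b (l 16777384) (l 16776776)))) (a (c (b (l 16775432) (a (l 16774120) (l 16774152))) (b (l 16775376) (a (l 16774064) (l 16774104)))) (c (b (l 16776200) (a (l 16774200) (l 16774240))) (b (l 16775488) (a (l 16774144) (l 16774184))))))) (b (c (a (c (b (l 16777792)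 (l 16777136)) (b (l 16777720) (l 16777072))) (c (b (l 16778000) (l 16777312)) (b (l 16777928) (l 16777248)))) (a (c (b (l 16777648) (l 16777008)) (b (l 16777576) (l 16776936))) (c (b (l 16777856) (l 16777176)) (b (l 16777776) (l 16777112))))) (c (a (c (b (b (l 16775320) (l 16775624)) (a (l 16775064) (l 16775120))) (b (a (l 16775048) (l 16775120)) (a (l 16775008) (l 16775056)))) (b (c (a (l 16775256) (l 16776640)) (a (l 16776504) (l 16776576))) (c (a (l 16775176) (c (l 16775248) (l 16775216))) (a (l 16775112) (l 16775168))))) (a (c (b (a (l 16774984) (l 16776368)) (a (l 16774944) (l 16774992))) (b (a (l 16776232) (l 16776304)) (a (l 16774888) (l 16775592)))) (c (b (a (l 16776432) (l 16776504)) (a (l 16775704) (l 16775760))) (b (a (l 16776368) (l 16776440)) (a (l 16775640) (l 16775696)))))))), by decide +kernel⟩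

def k17_pm_113_t : ∃ t, chk3 f_pm_113_t t 509 2046 1 = true :=
  ⟨(a (c (a (b (c (l 16778216) (l 16778144)) (c (l 16776848) (l 16776776))) (a (b (l 16778352) (l 16776960)) (b (l 16778464) (l 16777056)))) (a (b (c (l 16778072) (l 16778000)) (c (l 16776704) (l 16776800))) (b (c (l 16778296) (l 16777568)) (c (a (l 16777504) (l 16777608)) (a (l 16777440) (l 16777536)))))) (a (a (b (c (l 16778584) (l 16778440)) (c (l 16777160) (a (l 16777648) (l 16777704)))) (c (b (l 16778704) (l 16777424)) (b (l 16777912) (c (l 16777816) (l 16777752))))) (b (c (a (l 16778832) (l 16778296)) (a (l 16778040) (c (l 16778848) (l 16778784)))) (c (c (a (l 16778056) (l 16778168)) (a (l 16777992) (l 16778104))) (c (a (l 16777928) (l 16778040)) (a (l 16777856) (l 16777968))))))), by decide +kernel⟩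

def k18_pm_113_t : ∃ t, chk3 f_pm_113_t t 1018 2047 1 = true :=
  ⟨(c (a (b (c (a (l 16776720) (l 16776792)) (a (l 16776648) (l 16776728))) (c (a (c (l 16775960) (l 16775928)) (c (l 16775368) (l 16775992))) (a (c (l 16775896) (l 16775864)) (c (l 16775960) (l 16775928))))) (b (c (a (l 16776872) (l 16776960)) (a (l 16776808) (l 16776888))) (c (a (c (l 16775592) (l 16775400)) (b (l 16775688) (l 16775272))) (a (c (l 16775368) (l 16775328)) (b (l 16775624) (l 16775200)))))) (a (b (c (a (l 16776584) (l 16776656)) (a (l 16776512) (l 16776592))) (c (a (l 16775320) (c (l 16775888) (l 16775856))) (a (l 16775096) (c (l 16775824) (l 16775792))))) (b (c (a (l 16776736) (l 16776824)) (a (l 16776672) (l 16776752))) (c (a (c (l 16775296) (l 16775920)) (c (l 16775360) (l 16775328))) (a (c (l 16775888) (l 16775856)) (c (l 16775296) (l 16775264))))))), by decide +kernel⟩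

def k19_pm_113_t : ∃ t, chk3 f_pm_113_t t 1019 2047 1 = true :=
  ⟨(a (c (b (c (a (l 16777040) (l 16776472)) (a (l 16776976) (l 16776408))) (c (a (b (l 16775760) (l 16775656)) (b (l 16775832) (c (l 16775416) (l 16775376)))) (a (b (l 16775696) (l 16775592)) (b (l 16775768) (l 16775656))))) (b (c (a (l 16776904) (l 16776344)) (a (l 16776840) (l 16776272))) (c (a (b (l 16775624) (l 16775200)) (b (l 16775704) (l 16775592))) (a (b (l 16775560) (l 16775128)) (b (l 16775632) (l 16775520)))))) (c (b (a (c (l 16776560) (l 16776496)) (b (l 16777496) (a (l 16777032) (l 16777080)))) (c (a (b (l 16775912) (c (l 16775808) (l 16775448))) (b (l 16775984) (c (l 16775872) (l 16775840)))) (a (b (l 16775840) (c (l 16775416) (l 16775384))) (b (l 16776576) (c (l 16775808) (l 16775776)))))) (b (a (c (l 16776432) (l 16776368)) (b (l 16777368) (a (l 16776904) (l 16776952)))) (b (c (a (l 16775776) (l 16776512)) (a (l 16776368) (l 16776448))) (c (a (c (l 16775344) (l 16775312)) (c (l 16775744) (l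 16775384))) (a (l 16775592) (c (l 16775352) (l 16775320)))))))), by decide +kernel⟩

def k20_pm_113_t : ∃ t, chk3 f_pm_113_t t 510 254 1 = true :=
  ⟨(a (b (l 6) (b (a (b (l 6) (b (l 6) (l 16777016))) (b (c (l 16780904) (l 16780768)) (a (b (l 16780936) (c (l 16779744) (a (l 16781048) (l 16780784)))) (l 16780680)))) (a (l 16780792) (b (a (c (l 16778936) (l 16780152)) (b (c (l 16780704) (l 16780592)) (a (l 16779664) (c (l 16780664) (l 16780552))))) (c (l 16776704) (l 16776632)))))) (b (b (l 6) (a (c (l 16780424) (b (l 6) (l 16780288))) (c (b (l 16779992) (l 16780064)) (b (c (l 16779864) (l 16779776)) (l 16779904))))) (b (a (c (b (l 16780456) (l 16780432)) (b (l 16780312) (l 16780296))) (c (b (l 16780088) (l 16780072)) (b (l 16779936) (l 16779936)))) (a (b (c (l 16780368) (l 16779592)) (a (b (c (a (l 16780568) (l 16780320)) (a (l 16780464) (l 16780208))) (c (l 16778112) (l 16779336))) (b (l 16780128) (c (l 16779632) (a (l 16780088) (l 16779968)))))) (b (c (l 16780016) (l 16779888))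 (c (l 16779912) (l 16779800))))))), by decide +kernel⟩

def k21_pm_113_t : ∃ t, chk3 f_pm_113_t t 1022 508 1 = true :=
  ⟨(a (b (a (l 6) (a (l 6) (b (l 6) (c (l 16779088) (l 16778920))))) (a (b (c (l 16778440) (l 16778912)) (c (l 16779832) (l 16778352))) (b (c (a (b (l 16778240) (l 16779000)) (l 16779368)) (a (b (l 16779368) (l 16778824)) (l 16779192))) (c (a (l 16779728) (b (l 16779568) (c (l 16778400) (l 16778312)))) (a (l 16778248) (b (l 16779392) (c (l 16778232) (l 16778144)))))))) (a (b (b (l 6) (c (l 16778696) (c (l 16778576) (l 16778488)))) (c (b (l 16778296) (c (l 16779256) (l 16779176))) (b (c (l 16778832) (l 16778744)) (c (l 16779096) (l 16779008))))) (b (c (b (l 16777920) (l 16777488)) (b (c (l 16777816) (l 16777744)) (c (l 16778024) (l 16777952)))) (c (b (c (l 16778408) (l 16778328)) (c (l 16778648) (l 16778568))) (b (c (l 16778256) (l 16778176)) (c (l 16778496) (l 16778416))))))), by decide +kernel⟩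

def k22_pm_113_t : ∃ t, chk3 f_pm_113_t t 1022 509 1 = true :=
  ⟨(b (a (a (c (c (l 16778600) (l 16778520)) (c (l 16779104) (l 16779680))) (b (c (l 16779424) (c (l 16778320) (l 16778896))) (c (l 16778440) (l 16778288)))) (a (b (c (a (b (l 16779240) (c (l 16778384) (l 16778304))) (l 16779344)) (a (b (c (l 16779440) (l 16779352)) (c (l 16778872) (l 16779448))) (c (l 16779224) (l 16779144)))) (c (a (l 16778360) (b (l 16779208) (c (l 16778336) (l 16779568)))) (a (l 16779184) (a (b (l 16779448) (l 16779488)) (b (l 16779320) (l 16779096)))))) (b (c (c (l 16778896) (l 16778824)) (c (l 16778744) (l 16778664))) (b (c (l 16779056) (l 16778904)) (c (l 16779184) (a (l 16779208) (l 16778864))))))) (a (b (c (a (l 16779816) (l 16778400)) (a (l 16779680) (l 16778256))) (c (a (l 16779720) (l 16778312)) (a (l 16779600) (l 16779496)))) (a (b (a (b (l 16779256) (l 16778904)) (c (l 16778288) (l 16779120))) (c (l 16778232) (l 16779416))) (b (c (a (b (c (l 16779504) (l 16779432)) (c (l 16779568)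 (l 16779496))) (l 16778552)) (a (a (b (l 16779072) (l 16779424)) (b (l 16779264) (l 16779040))) (c (l 16779096) (l 16779024)))) (c (a (l 16778840) (a (b (l 16779464) (l 16779456)) (b (l 16779312) (l 16779408)))) (a (l 16779032) (a (b (l 16778992) (l 16779328)) (b (l 16779176) (c (l 16779304) (l 16779240)))))))))), by decide +kernel⟩

def k23_pm_113_t : ∃ t, chk3 f_pm_113_t t 1023 508 1 = true :=
  ⟨(b (c (a (b (c (a (l 16776088) (l 16775504)) (a (l 16776024) (l 16775440))) (c (a (l 16777592) (l 16776968)) (a (l 16777520) (l 16776904)))) (b (c (a (l 16775544) (b (l 16774216) (l 16774264))) (a (l 16775488) (b (l 16774168) (l 16774208)))) (c (a (l 16775664) (b (l 16774312) (l 16775016))) (a (l 16775608) (b (l 16774256) (l 16774952)))))) (a (b (c (a (l 16777272) (l 16775384)) (a (l 16777200) (l 16776632))) (c (a (l 16777448) (l 16776840)) (a (l 16777384) (l 16776776)))) (b (c (a (l 16775432) (b (l 16774120) (l 16774152))) (a (l 16775376) (b (l 16774064) (l 16774104)))) (c (a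 (l 16776200) (b (l 16774200) (l 16774240))) (a (l 16775488) (b (l 16774144) (l 16774184))))))) (a (c (b (c (a (l 16777792) (l 16777136)) (a (l 16777720) (l 16777072))) (c (a (l 16778000) (l 16776664)) (a (l 16777928) (l 16776592)))) (b (c (a (l 16777648) (l 16777008)) (a (l 16777576) (l 16776936))) (c (a (l 16777856) (l 16776520)) (a (l 16777776) (l 16776456))))) (c (b (c (a (b (l 16775112) (l 16775184)) (b (l 16775064) (l 16775120))) (a (b (l 16775048) (l 16775120)) (b (l 16775008) (l 16775056)))) (a (c (b (l 16775256) (l 16776640)) (b (l 16776504) (l 16776576))) (c (b (c (l 16775192) (l 16775160)) (c (l 16775248) (l 16775216))) (b (l 16775112) (c (l 16775184) (l 16775808)))))) (b (c (a (b (l 16774984) (l 16776368)) (b (l 16774944) (l 16774992))) (a (b (l 16776232) (l 16776304)) (b (l 16774888) (l 16775592)))) (c (a (b (l 16776432) (l 16776504)) (b (l 16775704) (l 16775432))) (a (b (l 16776368) (l 16776440)) (b (l 16775640) (l 16775696)))))))), by decide +kernel⟩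

def k24_pm_113_t : ∃ t, chk3 f_pm_113_t t 2046 509 1 = true :=
  ⟨(b (c (b (a (c (l 16778216) (l 16778144)) (b (l 16776768) (l 16776856))) (a (c (l 16778440) (l 16778368)) (b (l 16776960) (l 16777056)))) (b (a (c (l 16778072) (l 16778000)) (c (b (l 16777312) (l 16777408)) (b (l 16777248) (l 16777336)))) (a (c (l 16777640) (l 16777568)) (c (b (l 16777504) (l 16777608)) (b (l 16777440) (l 16777536)))))) (b (b (c (a (l 16778584) (l 16777320)) (a (l 16777784) (c (l 16777712) (l 16777640)))) (c (a (l 16778704) (c (l 16777952) (l 16777888))) (a (l 16777912) (c (l 16777816) (l 16777752))))) (a (c (b (l 16778832) (a (l 16779152) (l 16778752))) (b (l 16778040) (c (l 16778848) (l 16777472)))) (c (c (b (l 16778056) (l 16778168)) (b (l 16777992) (l 16778104))) (c (b (l 16777928) (l 16778040)) (b (l 16777856) (l 16777968))))))), by decide +kernel⟩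

def k25_pm_113_t : ∃ t, chk3 f_pm_113_t t 2047 1018 1 = true :=
  ⟨(c (b (a (c (b (l 16776720) (l 16776792)) (b (l 16776648) (l 16776728))) (c (b (c (l 16775960) (l 16775928)) (c (l 16775368) (l 16775336))) (b (c (l 16775896) (l 16775864)) (c (l 16775960) (l 16775928))))) (a (c (b (l 16776872) (l 16776960)) (b (l 16776808) (l 16776888))) (a (c (b (l 16776272) (l 16775688)) (b (l 16776208) (l 16775624))) (c (b (l 16775208) (l 16775600)) (b (l 16775144) (l 16775200)))))) (b (a (c (b (l 16776584) (l 16776656)) (b (l 16776512) (l 16776592))) (c (b (c (l 16775832) (l 16775800)) (c (l 16775888) (l 16775856))) (b (c (l 16775768) (l 16775728)) (c (l 16775824) (l 16775792))))) (a (c (b (l 16776736) (l 16776824)) (b (l 16776672) (l 16776752))) (c (b (c (l 16775296) (l 16775264)) (a (l 16775552) (l 16775136))) (b (c (l 16775232) (l 16775200)) (c (l 16775296) (l 16775264))))))), by decide +kernel⟩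

def k26_pm_113_t : ∃ t, chk3 f_pm_113_t t 2047 1019 1 = true :=
  ⟨(b (c (a (c (b (l 16777040) (l 16776472)) (b (l 16776976) (l 16776408))) (c (b (a (l 16775760) (l 16775656)) (a (l 16775832) (c (l 16775416) (l 16775376)))) (b (a (l 16775696) (l 16775592)) (a (l 16775768) (l 16775824))))) (a (c (b (l 16776904) (l 16776344)) (b (l 16776840) (l 16776272))) (c (b (a (l 16775624) (l 16775528)) (a (l 16775704) (l 16775592))) (b (a (l 16775560) (l 16775128)) (a (l 16775632) (l 16775520)))))) (c (a (b (c (l 16776728) (l 16776496)) (a (l 16777496) (a (l 16776512) (l 16776616)))) (c (b (a (l 16775912) (c (l 16775808) (l 16775776))) (a (l 16775984) (c (l 16775872) (l 16775840)))) (b (a (l 16775840) (c (l 16775416) (l 16775384))) (a (l 16776576) (c (l 16775808) (l 16775776)))))) (a (b (c (l 16776432) (l 16776528)) (a (l 16777368) (a (l 16776384) (l 16776488)))) (a (c (b (l 16775776) (l 16776512)) (b (l 16776368) (l 16776448))) (c (b (c (l 16775344) (l 16775312)) (c (l 16775744) (l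 16775712))) (b (l 16775752) (c (l 16775352) (l 16775320)))))))), by decide +kernel⟩

def k27_pm_113_t : ∃ t, chk3 f_pm_113_t t 510 510 1 = true :=
  ⟨(a (b (a (c (l 16778616) (l 16778592)) (c (l 16778104) (l 16778088))) (b (a (b (l 16778736) (a (c (b (l 16780432) (l 16779416)) (b (l 16780344) (a (l 16779920) (l 16780000)))) (l 16777976))) (l 16779208)) (a (b (a (l 16779824) (b (a (b (l 16779568) (l 16778464)) (l 16779488)) (c (l 16779744) (l 16779648)))) (c (l 16779688) (l 16779592))) (b (a (a (b (l 16780200) (c (l 16779800) (l 16779712))) (l 16780192)) (l 16777936)) (b (a (a (l 16779560) (c (l 16779600) (l 16779520))) (c (l 16779848) (l 16779784))) (a (l 16779472) (c (a (l 16779440) (l 16779512)) (a (l 16779360) (l 16779104))))))))) (b (a (b (a (l 16778736) (b (c (a (l 16780432) (l 16779416)) (a (l 16780344) (b (l 16779920) (l 16780000)))) (l 16777976))) (l 16779208)) (b (a (b (l 16779824) (c (a (l 16779328) (l 16779744)) (a (b (l 16779800) (l 16779936)) (l 16779648))))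 (c (l 16779688) (l 16779592))) (a (a (l 16777944) (b (a (l 16779952) (c (l 16779792) (l 16779704))) (l 16780304))) (a (b (a (c (l 16779640) (l 16779224)) (l 16779184)) (c (l 16779848) (l 16779784))) (b (l 16779472) (c (b (l 16779440) (l 16779512)) (b (l 16779360) (l 16778776)))))))) (b (a (l 16780192) (b (c (l 16777952) (l 16777904)) (l 16778424))) (b (c (l 16779184) (l 16779176)) (a (c (l 16777704) (l 16778968)) (l 16778672)))))), by decide +kernel⟩

def k28_pm_113_t : ∃ t, chk3 f_pm_113_t t 510 1022 1 = true :=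
  ⟨(b (a (a (c (b (l 16779576) (l 16779488)) (b (l 16779472) (l 16779376))) (b (c (l 16779360) (a (l 16779344) (l 16779240))) (c (l 16779296) (l 16779208)))) (a (b (b (a (c (a (l 16778656) (l 16779440)) (a (c (l 16779256) (l 16778568)) (l 16779376))) (l 16779760)) (a (c (l 16779176) (a (l 16779136) (l 16779080))) (a (b (l 16779264) (a (l 16778400) (l 16778760))) (l 16779376)))) (a (l 16778760) (a (l 16778992) (b (b (c (l 16779072) (l 16779008)) (l 16778768)) (l 16778904))))) (b (l 16778952) (a (b (c (l 16778632) (a (l 16778448) (l 16779336))) (b (a (c (l 16778888) (l 16778832)) (l 16778328)) (a (l 16778832) (a (l 16778448) (a (l 16778456) (l 16778824)))))) (c (l 16776888) (l 16776848)))))) (a (a (b (c (l 16779416) (l 16779304)) (c (a (l 16778760) (l 16778024)) (a (l 16778632) (l 16777912)))) (b (c (l 16779240) (b (l 16779160) (l 16779128))) (c (a (l 16777944) (l 16777848)) (a (l 16777832) (l 16779056))))) (a (b (c (b (l 16779016) (l 16779000)) (a (l 16778984) (l 16778864)))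 (c (a (l 16779048) (l 16778920)) (a (l 16778952) (l 16778840)))) (b (a (c (l 16778800) (l 16778736)) (a (b (b (a (a (l 16778048) (l 16778472)) (l 16778784)) (a (l 16778672) (l 16778640))) (l 16778648)) (a (b (c (l 16778824) (l 16778112)) (l 16778584)) (b (l 16778896) (b (b (l 16778600) (l 16777888)) (l 16778544)))))) (c (a (l 16778784) (l 16778632)) (a (l 16778712) (l 16778568))))))), by decide +kernel⟩

def k29_pm_113_t : ∃ t, chk3 f_pm_113_t t 1020 2046 1 = true :=
  ⟨(b (a (c (b (b (a (l 16779016) (l 16779320)) (a (l 16779184) (a (l 16779264) (l 16779288)))) (a (l 16778880) (l 16779000))) (b (b (a (c (l 16779248) (l 16779184)) (l 16779200)) (a (l 16779056) (c (l 16779176) (l 16779112)))) (c (l 16778192) (l 16778128)))) (c (b (c (l 16779216) (l 16779160)) (b (a (c (l 16779216) (l 16778832)) (l 16779152)) (a (l 16779024) (a (l 16779104) (l 16779112))))) (b (a (l 16777824) (l 16779048)) (b (a (a (l 16779072) (l 16779088)) (l 16779040)) (a (l 16778912) (a (l 16778992) (l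 16779008))))))) (a (c (a (c (l 16778280) (l 16778216)) (c (l 16777080) (l 16777016))) (c (a (l 16778152) (l 16777616)) (a (l 16778088) (l 16777552)))) (c (a (c (l 16777848) (l 16777792)) (b (l 16778816) (l 16778368))) (a (c (l 16777736) (l 16777672)) (b (l 16778056) (l 16778256)))))), by decide +kernel⟩

def k30_pm_113_t : ∃ t, chk3 f_pm_113_t t 1021 2046 1 = true :=
  ⟨(b (a (a (c (a (l 16778424) (l 16777704)) (a (l 16778976) (l 16778264))) (c (l 16778928) (b (l 16778840) (l 16778840)))) (c (a (b (l 16778792) (l 16778800)) (b (l 16778640) (l 16778656))) (a (b (l 16778712) (l 16778720)) (b (l 16778568) (l 16778584))))) (b (a (b (a (c (a (l 16779008) (l 16779016)) (a (l 16778736) (c (l 16778936) (l 16778888)))) (c (l 16778944) (l 16778848))) (a (c (l 16778832) (l 16778728)) (a (c (l 16778576) (c (l 16778832) (l 16778776))) (b (l 16778872) (c (l 16778896) (l 16778800)))))) (a (c (l 16778824) (c (l 16778760) (l 16778720))) (c (l 16778680) (l 16778600)))) (a (c (a (l 16778480)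 (l 16778264)) (a (l 16777720) (c (l 16778520) (l 16777816)))) (a (b (b (a (c (l 16778840) (l 16778752)) (l 16778760)) (a (l 16778544) (c (l 16778776) (l 16778528)))) (c (l 16778592) (l 16778504))) (b (c (l 16778696) (l 16778624)) (b (a (c (l 16778712) (c (l 16778656) (l 16778616))) (l 16778640)) (c (a (l 16778624) (l 16778488)) (a (l 16778544) (c (l 16778592) (l 16778552)))))))))), by decide +kernel⟩

def k31_pm_113_t : ∃ t, chk3 f_pm_113_t t 510 4094 1 = true :=
  ⟨(b (a (a (a (c (l 16777592) (l 16777464)) (c (l 16777696) (l 16777240))) (a (c (l 16777792) (l 16777352)) (c (l 16777568) (c (l 16777816) (l 16777760))))) (a (c (a (l 16777680) (l 16777784)) (a (c (l 16777928) (l 16777872)) (c (l 16778040) (l 16777992)))) (b (c (a (l 16778352) (l 16778464)) (a (l 16778264) (l 16778056))) (c (a (l 16778104) (l 16778208)) (a (l 16778008) (l 16777800)))))) (a (a (c (c (a (l 16777176) (l 16777264)) (a (l 16777112) (l 16777208))) (c (a (l 16777048) (l 16777144)) (a (l 16776992) (l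 16777088)))) (c (a (c (l 16777360) (l 16777304)) (c (l 16777456) (l 16777400))) (c (a (l 16777240) (l 16777344)) (a (l 16777184) (l 16777288))))) (a (c (a (c (l 16777552) (l 16777496)) (c (l 16777320) (l 16777272))) (a (c (l 16777440) (l 16777392)) (c (l 16777216) (l 16777168)))) (a (a (c (l 16777368) (l 16777272)) (c (l 16777424) (l 16777328))) (a (c (l 16777472) (l 16777384)) (c (l 16777528) (l 16777440))))))), by decide +kernel⟩

def k32_pm_113_t : ∃ t, chk3 f_pm_113_t t 1020 4095 1 = true :=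
  ⟨(a (c (a (c (b (l 16776720) (a (l 16775912) (l 16775944))) (b (l 16776656) (c (l 16775880) (l 16775848)))) (c (b (l 16776800) (a (l 16775984) (l 16776016))) (b (l 16776744) (a (l 16775920) (l 16776288))))) (b (c (a (l 16776592) (l 16776680)) (a (l 16776528) (l 16776616))) (b (c (a (l 16775920) (l 16775992)) (a (l 16775528) (l 16775936))) (c (a (l 16775680) (l 16775920)) (a (l 16775616) (l 16775856)))))) (c (a (a (c (b (l 16776864) (l 16776056)) (b (l 16776808) (l 16775992))) (c (b (l 16776904) (c (l 16776432) (l 16776408))) (b (l 16776848) (l 16776032)))) (c (b (c (l 16776984) (l 16776952)) (b (l 16776440) (a (l 16776008) (l 16776040)))) (b (c (l 16776928) (l 16776896)) (b (l 16776376) (a (l 16775944) (l 16775984)))))) (c (a (b (l 16776440) (a (l 16776264) (l 16775976))) (a (b (l 16776832) (l 16776096)) (b (l 16776880) (c (l 16776392) (l 16776368))))) (a (b (l 16776376) (a (l 16776200) (l 16775912))) (a (b (l 16776776) (l 16775952)) (b (l 16776824) (c (l 16776336) (l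 16776304)))))))), by decide +kernel⟩

def k33_pm_113_t : ∃ t, chk3 f_pm_113_t t 2042 4095 1 = true :=
  ⟨(c (a (c (b (c (l 16776744) (l 16776712)) (c (a (l 16776224) (l 16776256)) (a (l 16776192) (l 16776232)))) (b (c (l 16776688) (l 16776664)) (c (a (l 16776168) (l 16776200)) (a (l 16776136) (l 16776176))))) (a (c (b (l 16777120) (a (l 16776272) (l 16776376))) (b (l 16777072) (c (l 16776288) (l 16776296)))) (c (b (l 16777168) (b (l 16776784) (l 16776360))) (b (l 16777112) (b (l 16776728) (l 16776304)))))) (a (c (b (c (l 16776632) (l 16776608)) (c (a (l 16776432) (l 16776152)) (a (l 16776408) (l 16776120)))) (b (c (l 16776576) (l 16776552)) (c (a (l 16776376) (l 16776096)) (a (l 16776352) (l 16776064))))) (a (c (b (l 16777016) (c (l 16776192) (l 16776160))) (b (l 16776968) (c (l 16776136) (l 16776112)))) (c (b (l 16777064) (a (l 16776208) (l 16776312))) (b (l 16777016) (c (l 16776264) (l 16776232))))))), by decide +kernel⟩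

def k34_pm_113_t : ∃ t, chk3 f_pm_113_t t 2043 4095 1 = true :=
  ⟨(c (b (b (a (c (l 16777360) (l 16777312)) (c (l 16777456) (l 16777416))) (a (c (l 16777104) (l 16777056)) (a (l 16777144) (l 16777192)))) (a (b (a (a (l 16776624) (l 16776640)) (a (l 16776664) (l 16776848))) (a (c (l 16776400) (l 16776344)) (c (a (l 16776264) (l 16776280)) (l 16776384)))) (b (a (c (l 16776904) (l 16776856)) (c (l 16776944) (l 16776904))) (c (c (a (l 16776488) (l 16776528)) (a (l 16776296) (l 16776504))) (c (a (l 16776272) (l 16776480)) (a (l 16776248) (l 16776456))))))) (a (a (c (b (l 16777112) (b (l 16776392) (l 16776296))) (b (l 16777064) (b (l 16776672) (l 16776240)))) (c (b (l 16776832) (b (l 16776768) (l 16776336))) (b (l 16776784) (b (l 16776720) (l 16776448))))) (c (b (a (l 16776888) (l 16776936)) (a (b (l 16776816) (a (l 16776208) (l 16776224))) (b (l 16776856) (a (l 16776248) (l 16776272))))) (b (a (l 16776840) (l 16776888)) (a (b (l 16776768) (l 16776328)) (b (l 16776816) (a (l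 16776528) (l 16776552)))))))), by decide +kernel⟩

def k35_pm_113_t : ∃ t, chk3 f_pm_113_t t 1022 510 1 = true :=
  ⟨(a (b (b (c (a (l 16779576) (l 16779488)) (a (l 16779472) (l 16779376))) (a (c (l 16779360) (b (l 16779344) (l 16779240))) (c (l 16779296) (l 16779208)))) (b (b (a (c (a (b (l 16779312) (l 16779440)) (l 16779176)) (a (b (c (l 16779256) (l 16779224)) (l 16779376)) (b (l 16779136) (l 16779080)))) (l 16779088)) (b (a (a (l 16779640) (a (l 16779264) (b (l 16778400) (l 16779088)))) (l 16778992)) (a (l 16778320) (a (a (c (l 16779072) (l 16779008)) (l 16778600)) (l 16778904))))) (a (l 16778952) (b (a (c (l 16778632) (b (l 16777792) (l 16779336))) (a (b (c (l 16778888) (l 16778832)) (l 16778328)) (b (l 16778832) (c (l 16778832) (l 16778448))))) (c (l 16776888) (l 16776848)))))) (b (b (a (c (l 16779416) (l 16779304)) (c (b (l 16778760) (l 16778024)) (b (l 16778632) (l 16777912)))) (a (c (l 16778912) (a (l 16779160) (l 16779128))) (c (b (l 16777944) (l 16777848)) (b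 (l 16777832) (l 16779056))))) (b (a (c (a (l 16779016) (l 16779000)) (b (l 16778984) (l 16778864))) (c (b (l 16779048) (l 16778920)) (b (l 16778952) (l 16778840)))) (a (b (c (l 16778800) (l 16778736)) (b (a (b (c (l 16778728) (l 16778336)) (a (l 16778784) (l 16778640))) (l 16778648)) (a (c (l 16778224) (c (l 16778192) (l 16778168))) (a (a (b (l 16778592) (l 16778600)) (l 16777912)) (l 16778560))))) (c (b (l 16778784) (l 16778632)) (b (l 16778712) (l 16778568))))))), by decide +kernel⟩

def k36_pm_113_t : ∃ t, chk3 f_pm_113_t t 2046 1020 1 = true :=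
  ⟨(a (b (c (a (a (b (b (l 16779336) (l 16778048)) (l 16779320)) (b (l 16779184) (b (l 16779264) (l 16779288)))) (b (l 16778880) (l 16779000))) (a (a (b (c (l 16779248) (l 16779184)) (l 16779200)) (b (l 16779056) (a (l 16779184) (l 16779128)))) (c (l 16778192) (l 16778456)))) (c (a (c (l 16779216) (l 16778832)) (a (b (a (l 16779224) (l 16779168)) (l 16779152)) (b (l 16779024) (b (l 16779104) (l 16779112))))) (a (b (l 16777824) (l 16779048)) (a (b (a (l 16779112) (l 16779056)) (l 16779040)) (b (l 16778912) (b (l 16778992) (l 16778680))))))) (b (c (b (c (l 16778280) (l 16778216)) (c (l 16777080) (l 16777672))) (c (b (l 16778152) (l 16777616)) (b (l 16776776) (l 16777552)))) (c (b (c (l 16777848) (l 16777792)) (a (l 16778816) (l 16778368))) (b (c (l 16777736) (l 16777672)) (a (l 16778056) (l 16777600)))))), by decide +kernel⟩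

def k37_pm_113_t : ∃ t, chk3 f_pm_113_t t 2046 1021 1 = true :=
  ⟨(a (b (b (c (b (l 16778424) (l 16778360)) (b (l 16778976) (l 16778264))) (c (l 16778760) (a (l 16778840) (l 16778840)))) (c (b (a (l 16778792) (l 16778800)) (a (l 16778640) (l 16778656))) (b (a (l 16778712) (l 16778720)) (a (l 16778568) (l 16778584))))) (a (b (a (b (c (b (l 16779008) (l 16778688)) (b (c (l 16778928) (l 16778872)) (c (l 16778936) (l 16778888)))) (c (l 16778944) (l 16778848))) (b (c (l 16778832) (l 16778728)) (a (b (c (l 16778952) (l 16778856)) (l 16778872)) (b (l 16778656) (c (l 16778896) (l 16778800)))))) (b (c (l 16778824) (c (l 16778760) (l 16778720))) (c (l 16778680) (l 16778600)))) (b (c (b (l 16778480) (c (l 16778616) (l 16778568))) (b (l 16777720) (c (l 16777872) (l 16777816)))) (b (a (a (b (c (l 16778840) (l 16778752)) (l 16778760)) (c (b (l 16778752) (l 16778776)) (b (l 16778656) (l 16778528)))) (c (l 16778592) (l 16778504))) (a (c (l 16778696) (l 16778624)) (a (b (c (l 16778712)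 (c (l 16778656) (l 16778616))) (l 16778640)) (c (b (l 16778624) (c (l 16778672) (l 16778632))) (b (l 16778544) (c (l 16778592) (l 16778552)))))))))), by decide +kernel⟩

def k38_pm_113_t : ∃ t, chk3 f_pm_113_t t 4094 510 1 = true :=
  ⟨(a (b (b (b (c (l 16777592) (l 16777136)) (c (l 16777696) (l 16777240))) (c (b (l 16777464) (l 16777568)) (c (b (l 16777704) (l 16777816)) (b (l 16777648) (l 16777760))))) (b (c (b (l 16777680) (c (l 16778136) (l 16778088))) (b (c (l 16777928) (l 16777872)) (c (l 16778040) (l 16777992)))) (a (c (b (l 16778352) (l 16778464)) (b (l 16778264) (l 16778056))) (c (b (l 16778104) (l 16778208)) (b (l 16778008) (l 16777800)))))) (b (b (c (c (b (l 16777176) (l 16777264)) (b (l 16777112) (l 16777208))) (c (b (l 16777048) (l 16777144)) (b (l 16776992) (l 16777088)))) (c (b (c (l 16777360) (l 16777304)) (c (l 16777456) (l 16777400))) (c (b (l 16777240) (l 16777344)) (b (l 16777184) (l 16777288))))) (b (c (b (c (l 16777552) (l 16777496)) (c (l 16777320)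 (l 16777272))) (b (c (l 16777440) (l 16777064)) (c (l 16777216) (l 16777168)))) (c (b (c (l 16777416) (l 16777368)) (b (l 16777472) (l 16777528))) (b (b (l 16777272) (l 16777328)) (b (l 16777384) (a (l 16777904) (l 16777640)))))))), by decide +kernel⟩

def k39_pm_113_t : ∃ t, chk3 f_pm_113_t t 4095 1020 1 = true :=
  ⟨(b (c (b (c (a (l 16776720) (a (l 16776048) (l 16775976))) (a (l 16776656) (a (l 16775984) (l 16775912)))) (c (a (l 16776472) (b (l 16775984) (l 16776016))) (a (l 16776744) (b (l 16775920) (l 16776288))))) (a (c (b (l 16776592) (l 16776680)) (b (l 16776528) (l 16776616))) (a (c (b (l 16775920) (l 16775992)) (b (l 16775528) (l 16775936))) (c (b (l 16775680) (l 16775920)) (b (l 16775616) (l 16775856)))))) (c (a (b (c (c (l 16776896) (l 16776872)) (c (l 16776840) (l 16776808))) (c (c (l 16776984) (l 16776952)) (c (l 16776928) (l 16776896)))) (a (c (b (l 16776192) (l 16776440)) (b (l 16776136) (l 16776376))) (c (b (c (l 16775968) (l 16775936)) (b (l 16776008) (l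 16776040))) (b (c (l 16775904) (l 16775872)) (b (l 16775944) (l 16775984)))))) (c (b (a (c (l 16776784) (l 16776752)) (b (l 16776264) (l 16775976))) (a (c (l 16776872) (l 16776840)) (a (l 16776320) (c (l 16776088) (l 16775888))))) (b (a (c (l 16776720) (l 16776688)) (b (l 16776200) (l 16775912))) (a (c (l 16776816) (l 16776784)) (a (l 16776264) (c (l 16775864) (l 16775832)))))))), by decide +kernel⟩

def k40_pm_113_t : ∃ t, chk3 f_pm_113_t t 4095 2042 1 = true :=
  ⟨(c (b (c (a (c (l 16776744) (l 16776712)) (c (b (l 16776224) (l 16776296)) (b (l 16776192) (l 16776232)))) (a (c (l 16776688) (l 16776664)) (c (b (l 16776168) (l 16776200)) (b (l 16776136) (l 16776176))))) (b (c (a (l 16777120) (a (l 16776744) (l 16776320))) (a (l 16777072) (a (l 16776688) (l 16776104)))) (c (a (l 16777168) (a (l 16776784) (l 16776360))) (a (l 16777112) (a (l 16776728) (l 16776304)))))) (b (c (a (c (l 16776632) (l 16776608)) (c (b (l 16776432) (l 16776152)) (b (l 16776408) (l 16776120)))) (a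 (c (l 16776576) (l 16776552)) (c (b (l 16776376) (l 16776096)) (b (l 16776352) (l 16776064))))) (b (c (a (l 16777016) (c (l 16776272) (l 16776160))) (a (l 16776968) (c (l 16776136) (l 16776112)))) (c (a (l 16777064) (a (l 16776680) (l 16776248))) (a (l 16777016) (c (l 16776264) (l 16776232))))))), by decide +kernel⟩

def k41_pm_113_t : ∃ t, chk3 f_pm_113_t t 4095 2043 1 = true :=
  ⟨(c (a (a (b (c (l 16777360) (l 16777312)) (c (l 16777456) (l 16777416))) (b (c (l 16777104) (l 16777056)) (b (l 16777144) (l 16777192)))) (b (a (a (c (l 16776744) (l 16776696)) (c (l 16776696) (l 16776648))) (b (c (l 16776400) (l 16776344)) (c (a (l 16776664) (l 16776368)) (l 16776384)))) (a (b (c (l 16776904) (l 16776856)) (c (l 16776944) (l 16776904))) (c (c (b (l 16776488) (l 16776528)) (b (l 16776296) (l 16776504))) (c (b (l 16776272) (l 16776480)) (b (l 16776248) (l 16776456))))))) (b (b (c (a (l 16777112) (a (l 16776392) (l 16776296))) (a (l 16776736) (a (l 16776672) (l 16776240)))) (c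 (a (l 16776832) (a (l 16776768) (l 16776336))) (a (l 16776784) (a (l 16776720) (l 16776448))))) (c (a (b (l 16776888) (l 16776936)) (b (a (l 16776816) (a (l 16776608) (l 16776312))) (a (l 16776856) (a (l 16776656) (l 16776352))))) (a (b (l 16776840) (l 16776888)) (b (a (l 16776768) (a (l 16776560) (l 16776264))) (a (l 16776816) (a (l 16776608) (l 16776304)))))))), by decide +kernel⟩

def k42_pm_113_t : ∃ t, chk3 f_pm_113_t t 1022 1022 1 = true :=
  ⟨(b (a (a (l 16779216) (l 16778960)) (b (b (a (a (l 16779088) (a (c (l 16778736) (l 16778688)) (a (b (l 16778184) (l 16778576)) (c (l 16778520) (l 16778464))))) (c (l 16778504) (l 16778448))) (a (l 16778272) (a (a (b (c (l 16778472) (l 16778424)) (c (l 16778536) (l 16778488))) (c (l 16777760) (l 16778368))) (l 16778392)))) (a (l 16778176) (b (b (a (a (l 16778632) (c (l 16778424) (l 16778384))) (l 16778328)) (a (l 16778632) (a (c (l 16778336) (l 16778088)) (l 16778280)))) (a (l 16778832) (a (c (l 16778464) (l 16778424)) (b (c (l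 16777608) (l 16778216)) (c (l 16778288) (a (l 16778288) (l 16778200)))))))))) (a (b (a (b (l 16777912) (b (c (l 16777552) (l 16778168)) (a (a (c (l 16777224) (l 16777168)) (c (l 16778560) (l 16778512))) (l 16778696)))) (l 16778176)) (b (a (a (l 16777824) (b (a (c (l 16778472) (l 16778424)) (c (l 16778536) (l 16778488))) (c (l 16777760) (l 16778368)))) (b (l 16777520) (a (a (c (l 16778424) (l 16778056)) (l 16778496)) (l 16778696)))) (b (a (l 16778432) (a (a (l 16778320) (c (l 16778336) (a (l 16778272) (l 16778288)))) (c (l 16778464) (l 16778424)))) (a (l 16778440) (a (l 16778304) (a (c (l 16777608) (l 16778216)) (c (l 16777960) (a (l 16778224) (l 16778264))))))))) (b (a (l 16778712) (a (l 16777920) (b (l 16777912) (l 16777528)))) (a (a (b (l 16777784) (l 16777912)) (l 16777792)) (l 16778208))))), by decide +kernel⟩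

def k43_pm_113_t : ∃ t, chk3 f_pm_113_t t 2046 1022 1 = true :=
  ⟨(b (c (a (b (a (l 16778472) (l 16778496)) (a (l 16778280) (l 16778312))) (b (a (l 16778520) (b (l 16778592) (l 16778512))) (a (l 16778176) (c (l 16778232) (l 16778200))))) (a (b (a (l 16778416) (l 16778432)) (a (l 16778072) (l 16778264))) (b (a (l 16778288) (b (l 16778528) (l 16778448))) (a (c (l 16778304) (l 16778272)) (a (l 16778312) (l 16778328)))))) (a (a (b (b (a (b (a (b (l 16778176) (l 16778208)) (l 16777816)) (c (l 16778264) (l 16778232))) (a (c (l 16777824) (l 16778112)) (l 16778128))) (b (a (l 16778368) (a (l 16778176) (c (l 16778104) (l 16778064)))) (l 16777720))) (l 16778056)) (a (b (b (l 16778144) (b (l 16778064) (a (c (l 16778080) (l 16778048)) (l 16777856)))) (b (b (c (l 16778136) (l 16777776)) (l 16778240)) (l 16778448))) (b (c (l 16778128) (l 16778080)) (b (a (b (c (l 16778000) (l 16777968)) (l 16777720)) (b (l 16777984) (b (l 16777784) (a (l 16777976) (l 16777928))))) (l 16777528))))) (a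 (a (b (c (l 16778144) (l 16778096)) (a (b (l 16777960) (b (b (a (l 16777920) (l 16777568)) (l 16777944)) (l 16778048))) (b (l 16777968) (b (c (l 16777248) (l 16777224)) (c (l 16777936) (l 16777752)))))) (b (c (l 16778160) (l 16778112)) (b (l 16777984) (a (b (l 16777904) (a (b (l 16777856) (l 16777856)) (l 16777688))) (l 16777888))))) (b (b (c (l 16778240) (l 16778192)) (c (l 16778144) (l 16778096))) (c (b (l 16778040) (l 16777768)) (b (l 16778000) (c (l 16777904) (l 16777888)))))))), by decide +kernel⟩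

def k44_pm_113_t : ∃ t, chk3 f_pm_113_t t 2047 4088 1 = true :=
  ⟨(a (b (c (a (a (a (c (l 16778600) (l 16778568)) (l 16778488)) (l 16778296)) (l 16777576)) (a (a (a (a (l 16778528) (l 16778496)) (l 16778416)) (l 16778224)) (c (l 16777848) (l 16777808)))) (c (a (a (a (l 16778536) (a (l 16778536) (l 16778504))) (l 16778352)) (l 16777632)) (a (a (a (l 16778464) (a (l 16778464) (l 16778432))) (l 16778280)) (c (l 16777248) (l 16777208))))) (c (a (a (b (l 16777504) (l 16777560)) (b (l 16777072) (l 16777120))) (c (b (a (l 16776992) (a (l 16776624) (l 16776488))) (a (l 16777032) (a (l 16776664) (l 16776608)))) (b (a (l 16776952) (a (l 16776416) (l 16776440))) (a (l 16776992) (a (l 16776624) (l 16776568)))))) (a (c (b (l 16777064) (c (l 16777048) (l 16777024))) (a (l 16777272) (a (l 16777232) (l 16777096)))) (c (b (a (l 16776904) (a (l 16776368) (l 16776400))) (a (l 16776952) (a (l 16776584) (l 16776520)))) (b (a (l 16776864) (a (l 16776328) (l 16776352))) (a (l 16776912) (a (l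 16776536) (l 16776400)))))))), by decide +kernel⟩

def k45_pm_113_t : ∃ t, chk3 f_pm_113_t t 2047 4089 1 = true :=
  ⟨(a (b (c (a (a (l 16778456) (a (a (l 16778464) (l 16778432)) (l 16778344))) (l 16777680)) (a (a (l 16778392) (a (b (l 16778384) (l 16778216)) (l 16778280))) (c (l 16777304) (l 16777272)))) (c (a (a (l 16778368) (a (l 16778384) (a (l 16778224) (l 16778192)))) (a (l 16778200) (l 16777928))) (a (a (l 16778312) (a (l 16778328) (b (l 16778144) (a (l 16778312) (l 16778304))))) (a (l 16777808) (l 16777864))))) (c (a (a (b (l 16777608) (l 16777656)) (b (c (l 16777352) (l 16777312)) (c (l 16777400) (l 16777368)))) (b (a (c (l 16777080) (l 16777040)) (b (c (l 16776624) (l 16776752)) (c (l 16776648) (l 16776608)))) (a (c (l 16776960) (l 16776920)) (b (c (l 16776664) (l 16776632)) (c (a (l 16776920) (l 16776784)) (l 16776688)))))) (a (a (b (l 16777208) (l 16777264)) (b (c (l 16777280) (l 16777240)) (c (l 16777328) (l 16777296)))) (a (c (b (l 16777000) (l 16776888)) (b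 (l 16776960) (l 16776848))) (b (a (c (l 16776624) (l 16776584)) (c (l 16776568) (l 16776528))) (b (c (l 16776592) (l 16776552)) (c (l 16776656) (l 16776656)))))))), by decide +kernel⟩

def k46_pm_113_t : ∃ t, chk3 f_pm_113_t t 2047 2045 1 = true :=
  ⟨(a (a (b (a (c (c (l 16778240) (l 16778216)) (c (l 16778192) (l 16778168))) (c (b (l 16778304) (l 16778208)) (b (l 16778248) (l 16778160)))) (c (a (a (l 16777856) (l 16777864)) (b (l 16778104) (l 16778000))) (a (b (l 16778032) (l 16777936)) (b (l 16778064) (l 16777960))))) (a (b (b (a (b (c (l 16778128) (a (l 16778264) (l 16778216))) (a (l 16778272) (c (l 16778288) (l 16778232)))) (c (l 16778184) (l 16778128))) (b (a (l 16778224) (a (c (l 16778248) (l 16778192)) (l 16778168))) (a (l 16778176) (a (l 16778192) (c (l 16778200) (l 16778152)))))) (c (b (l 16777976) (l 16778032)) (b (c (l 16778104) (l 16778080)) (l 16777992)))) (b (b (c (l 16777984) (l 16777920)) (c (l 16777704) (a (l 16778048) (l 16777912)))) (b (a (a (b (c (l 16778160)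 (l 16778032)) (l 16778112)) (b (l 16778088) (l 14))) (c (l 16778024) (l 16777968))) (l 14))))) (a (a (b (b (c (l 16777704) (l 16777320)) (c (l 16777432) (l 16777376))) (b (c (l 16777480) (l 16777592)) (l 14))) (b (b (c (c (l 16777448) (l 16777416)) (c (l 16777384) (l 16777352))) (c (c (l 16777496) (l 16777464)) (c (l 16777432) (l 16777400)))) (l 14))) (b (a (b (c (c (l 16777000) (l 16776968)) (c (c (l 16777104) (l 16777088)) (c (l 16777072) (l 16777056)))) (a (c (l 16777184) (c (l 16777216) (l 16777192))) (l 14))) (b (a (c (c (l 16776792) (l 16776752)) (c (l 16776880) (l 16776848))) (b (c (c (l 16776800) (l 16776768)) (c (l 16776728) (l 16776696))) (l 14))) (l 14))) (l 14)))), by decide +kernel⟩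

def k47_pm_113_t : ∃ t, chk3 f_pm_113_t t 2044 2046 1 = true :=
  ⟨(b (a (c (b (l 16778472) (l 16778496)) (b (l 16778416) (l 16778432))) (c (b (l 16778120) (l 16778312)) (b (c (l 16778248) (l 16778224)) (l 16778264)))) (a (c (b (l 16778520) (a (l 16778592) (l 16778512))) (b (l 16778128) (a (l 16778528) (l 16778448)))) (a (c (b (l 16778392) (l 16778424)) (b (l 16778328) (l 16778360))) (c (b (l 16778296) (l 16778336)) (b (l 16778248) (l 16778280)))))), by decide +kernel⟩

def k48_pm_113_t : ∃ t, chk3 f_pm_113_t t 2044 4094 1 = true :=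
  ⟨(b (b (b (a (a (a (c (l 16778592) (l 16778512)) (c (l 16778584) (l 16778512))) (l 16778336)) (c (l 16778408) (l 16778344))) (a (c (a (l 16778488) (c (l 16778528) (l 16778328))) (a (l 16778416) (a (l 16778448) (l 16778448)))) (c (l 16778416) (l 16778360)))) (a (c (l 16777992) (c (l 16778264) (l 16777904))) (b (b (a (c (l 16778464) (l 16778312)) (l 16778352)) (a (c (l 16778432) (l 16778200)) (l 16778200))) (c (a (l 16778344) (a (l 16778376) (l 16778368))) (a (l 16778280) (a (l 16778144) (a (l 16778312) (l 16778304)))))))) (a (a (c (l 16777576) (c (l 16777848) (l 16777808))) (c (l 16777632) (c (l 16777248) (l 16777208)))) (c (a (l 16777680) (b (l 16778200) (l 16777928))) (a (c (l 16777304) (l 16777272)) (b (l 16777808) (l 16777864)))))), by decide +kernel⟩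

def k49_pm_113_t : ∃ t, chk3 f_pm_113_t t 2044 4095 1 = true :=
  ⟨(c (a (b (a (b (l 16777504) (l 16777072)) (b (l 16777560) (l 16777120))) (c (a (b (l 16776992) (a (l 16776544) (l 16776568))) (b (l 16777032) (a (l 16776752) (l 16776768)))) (a (b (l 16776952) (a (l 16776336) (l 16776688))) (b (l 16776992) (a (l 16776704) (l 16776728)))))) (b (a (b (l 16777608) (l 16777168)) (b (l 16777656) (a (l 16777368) (l 16777392)))) (a (b (a (l 16776880) (l 16776904)) (a (c (l 16776792) (l 16776752)) (c (l 16776648) (l 16776608)))) (b (c (l 16776960) (l 16776920)) (a (c (l 16776664) (l 16776632)) (c (l 16776728) (l 16776688))))))) (a (b (c (a (l 16776984) (c (l 16777048) (l 16777024))) (b (l 16777272) (a (l 16777136) (l 16777184)))) (c (a (b (l 16776904) (a (l 16776616) (l 16776640))) (b (l 16776952) (a (l 16776664) (l 16776688)))) (a (b (l 16776864) (a (l 16776576) (l 16776600))) (b (l 16776912) (a (l 16776624) (l 16776648)))))) (b (a (b (l 16777536) (a (l 16777248) (l 16777272)))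 (b (l 16777264) (a (l 16777296) (l 16777328)))) (b (c (a (l 16777000) (l 16776888)) (a (l 16776960) (l 16776848))) (a (a (c (l 16776712) (l 16776672)) (c (l 16776728) (l 16776696))) (a (c (l 16776592) (l 16776552)) (c (l 16776616) (l 16776576)))))))), by decide +kernel⟩

def k50_pm_113_t : ∃ t, chk3 f_pm_113_t t 4090 1023 1 = true :=
  ⟨(b (b (a (a (b (b (b (a (l 16778176) (l 16778208)) (l 16777816)) (l 16778152)) (l 16778168)) (b (b (c (l 16778264) (l 16778232)) (c (l 16778128) (l 16778088))) (l 16778120))) (b (a (b (l 16778368) (b (l 16778176) (c (l 16778104) (l 16778064)))) (l 16777720)) (b (b (a (l 16778064) (c (l 16778080) (l 16778048))) (c (l 16777408) (l 16778024))) (l 16778056)))) (a (c (b (l 16778200) (l 16778240)) (b (l 16778152) (l 16778192))) (c (b (l 16778096) (l 16778144)) (b (l 16778056) (l 16778096))))) (b (a (c (b (c (l 16778144) (l 16778112)) (b (b (a (l 16778128) (l 16778208)) (l 16778184)) (l 16777984))) (b (a (l 16778256) (l 16778216)) (b (b (c (a (l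 16778256) (l 16778248)) (a (l 16778224) (l 16778216))) (l 16778128)) (l 16777920)))) (b (c (c (l 16778208) (l 16778176)) (c (l 16778152) (l 16778128))) (b (a (b (l 16778224) (b (c (l 16778248) (l 16778192)) (l 16778168))) (b (l 16778176) (b (l 16778192) (c (l 16778200) (l 16778152))))) (c (l 16777704) (c (l 16777664) (l 16777640)))))) (b (b (a (c (l 16777704) (l 16777320)) (c (l 16777432) (l 16777376))) (a (c (c (l 16777448) (l 16777416)) (c (l 16777384) (l 16777352))) (c (c (l 16777496) (l 16777464)) (c (l 16777432) (l 16777400))))) (b (a (c (c (l 16777000) (l 16776968)) (c (l 16776976) (c (l 16777072) (l 16777056)))) (b (c (l 16777264) (c (l 16777216) (l 16777192))) (l 14))) (a (b (c (c (l 16776792) (l 16776752)) (c (l 16776880) (l 16776848))) (a (c (c (l 16776800) (l 16776768)) (c (l 16776728) (l 16776696))) (l 14))) (l 14)))))), by decide +kernel⟩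

def k51_pm_113_t : ∃ t, chk3 f_pm_113_t t 4091 1023 1 = true :=
  ⟨(b (b (b (l 16778056) (b (a (a (c (l 16777808) (l 16777776)) (l 16778240)) (l 16778448)) (a (b (a (c (l 16778000) (l 16777968)) (l 16777880)) (a (l 16777984) (a (l 16777784) (b (l 16777976) (l 16777928))))) (l 16777856)))) (a (c (b (l 16777992) (l 16778040)) (b (l 16777960) (l 16778000))) (b (b (b (a (a (b (l 16777920) (l 16777568)) (l 16777944)) (l 16778048)) (a (c (l 16777248) (l 16777224)) (c (l 16777776) (l 16777752)))) (b (a (l 16777904) (a (l 16777864) (c (l 16777864) (l 16777840)))) (l 16777888))) (c (l 16777768) (c (l 16777904) (l 16777888)))))) (b (b (c (a (c (l 16778104) (l 16778080)) (a (l 16778008) (l 16777960))) (a (c (l 16777896) (l 16777872)) (a (l 16777976) (l 16777920)))) (a (b (c (l 16778136) (c (l 16778104) (l 16778080))) (b (b (a (c (l 16778160) (l 16778032)) (l 16778112)) (a (l 16778088) (l 14))) (c (l 16778024) (l 16777968)))) (b (c (l 16778032) (l 16777992)) (l 14)))) (b (b (a (c (l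 16777480) (l 16777592)) (l 14)) (l 14)) (l 14)))), by decide +kernel⟩

def k52_pm_113_t : ∃ t, chk3 f_pm_113_t t 1023 1023 1 = true :=
  ⟨(b (a (a (a (b (l 16777880) (b (b (l 16777528) (a (b (c (l 16777928) (l 16777904)) (a (c (l 16777504) (l 16777480)) (c (l 16777848) (l 16777816)))) (l 16777328))) (a (c (l 16777840) (l 16777816)) (b (b (a (c (l 16777640) (c (l 16777784) (l 16777768))) (c (l 16777832) (l 16777808))) (c (l 16777616) (l 16777752))) (l 16777784))))) (b (l 16778080) (b (l 16777680) (b (b (l 16777336) (l 14)) (l 14))))) (a (b (b (a (l 16777528) (b (a (c (l 16777928) (l 16777904)) (b (c (l 16777176) (l 16777152)) (c (l 16777848) (l 16777816)))) (l 16777328))) (l 16777680)) (b (l 16777968) (l 14))) (b (b (b (c (l 16777840) (l 16777816)) (a (a (b (c (l 16777800) (l 16777616)) (c (l 16777832) (l 16777808))) (c (l 16777616) (l 16777752))) (l 16777784))) (a (a (l 16777336) (l 14)) (l 14))) (l 14)))) (a (a (a (b (b (b (l 16777872) (l 14)) (l 14)) (l 14)) (l 14)) (l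 14)) (l 14))) (a (b (b (b (a (a (a (l 16777872) (l 14)) (l 14)) (l 14)) (l 14)) (l 14)) (l 14)) (l 14))), by decide +kernel⟩

theorem s53_pm_113_t : ∃ t, chk3 f_pm_113_t t 2045 1023 1 = true := ex3_a k50_pm_113_t k51_pm_113_t

theorem s54_pm_113_t : ∃ t, chk3 f_pm_113_t t 2044 2047 1 = true := ex3_b k48_pm_113_t k49_pm_113_t

theorem s55_pm_113_t : ∃ t, chk3 f_pm_113_t t 2044 1023 1 = true := ex3_b k47_pm_113_t s54_pm_113_t

theorem s56_pm_113_t : ∃ t, chk3 f_pm_113_t t 1022 1023 1 = true := ex3_a s55_pm_113_t s53_pm_113_t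

theorem s57_pm_113_t : ∃ t, chk3 f_pm_113_t t 511 1023 1 = true := ex3_a s56_pm_113_t k52_pm_113_t

theorem s58_pm_113_t : ∃ t, chk3 f_pm_113_t t 2047 2044 1 = true := ex3_b k44_pm_113_t k45_pm_113_t

theorem s59_pm_113_t : ∃ t, chk3 f_pm_113_t t 2047 1022 1 = true := ex3_b s58_pm_113_t k46_pm_113_t

theorem s60_pm_113_t : ∃ t, chk3 f_pm_113_t t 1023 1022 1 = true := ex3_a k43_pm_113_t s59_pm_113_t

theorem s61_pm_113_t : ∃ t, chk3 f_pm_113_t t 511 1022 1 = true := ex3_a k42_pm_113_t s60_pm_113_t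

theorem s62_pm_113_t : ∃ t, chk3 f_pm_113_t t 511 511 1 = true := ex3_b s61_pm_113_t s57_pm_113_t

theorem s63_pm_113_t : ∃ t, chk3 f_pm_113_t t 4095 1021 1 = true := ex3_b k40_pm_113_t k41_pm_113_t

theorem s64_pm_113_t : ∃ t, chk3 f_pm_113_t t 4095 510 1 = true := ex3_b k39_pm_113_t s63_pm_113_t

theorem s65_pm_113_t : ∃ t, chk3 f_pm_113_t t 2047 510 1 = true := ex3_a k38_pm_113_t s64_pm_113_t

theorem s66_pm_113_t : ∃ t, chk3 f_pm_113_t t 2046 510 1 = true := ex3_b k36_pm_113_t k37_pm_113_t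

theorem s67_pm_113_t : ∃ t, chk3 f_pm_113_t t 1023 510 1 = true := ex3_a s66_pm_113_t s65_pm_113_t

theorem s68_pm_113_t : ∃ t, chk3 f_pm_113_t t 511 510 1 = true := ex3_a k35_pm_113_t s67_pm_113_t

theorem s69_pm_113_t : ∃ t, chk3 f_pm_113_t t 511 255 1 = true := ex3_b s68_pm_113_t s62_pm_113_t

theorem s70_pm_113_t : ∃ t, chk3 f_pm_113_t t 1021 4095 1 = true := ex3_a k33_pm_113_t k34_pm_113_t

theorem s71_pm_113_t : ∃ t, chk3 f_pm_113_t t 510 4095 1 = true := ex3_a k32_pm_113_t s70_pm_113_t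

theorem s72_pm_113_t : ∃ t, chk3 f_pm_113_t t 510 2047 1 = true := ex3_b k31_pm_113_t s71_pm_113_t

theorem s73_pm_113_t : ∃ t, chk3 f_pm_113_t t 510 2046 1 = true := ex3_a k29_pm_113_t k30_pm_113_t

theorem s74_pm_113_t : ∃ t, chk3 f_pm_113_t t 510 1023 1 = true := ex3_b s73_pm_113_t s72_pm_113_t

theorem s75_pm_113_t : ∃ t, chk3 f_pm_113_t t 510 511 1 = true := ex3_b k28_pm_113_t s74_pm_113_t

theorem s76_pm_113_t : ∃ t, chk3 f_pm_113_t t 510 255 1 = true := ex3_b k27_pm_113_t s75_pm_113_t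

theorem s77_pm_113_t : ∃ t, chk3 f_pm_113_t t 255 255 1 = true := ex3_a s76_pm_113_t s69_pm_113_t

theorem s78_pm_113_t : ∃ t, chk3 f_pm_113_t t 2047 509 1 = true := ex3_b k25_pm_113_t k26_pm_113_t

theorem s79_pm_113_t : ∃ t, chk3 f_pm_113_t t 1023 509 1 = true := ex3_a k24_pm_113_t s78_pm_113_t

theorem s80_pm_113_t : ∃ t, chk3 f_pm_113_t t 1023 254 1 = true := ex3_b k23_pm_113_t s79_pm_113_t

theorem s81_pm_113_t : ∃ t, chk3 f_pm_113_t t 1022 254 1 = true := ex3_b k21_pm_113_t k22_pm_113_t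

theorem s82_pm_113_t : ∃ t, chk3 f_pm_113_t t 511 254 1 = true := ex3_a s81_pm_113_t s80_pm_113_t

theorem s83_pm_113_t : ∃ t, chk3 f_pm_113_t t 255 254 1 = true := ex3_a k20_pm_113_t s82_pm_113_t

theorem s84_pm_113_t : ∃ t, chk3 f_pm_113_t t 255 127 1 = true := ex3_b s83_pm_113_t s77_pm_113_t

theorem s85_pm_113_t : ∃ t, chk3 f_pm_113_t t 509 2047 1 = true := ex3_a k18_pm_113_t k19_pm_113_t

theorem s86_pm_113_t : ∃ t, chk3 f_pm_113_t t 509 1023 1 = true := ex3_b k17_pm_113_t s85_pm_113_t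

theorem s87_pm_113_t : ∃ t, chk3 f_pm_113_t t 254 1023 1 = true := ex3_a k16_pm_113_t s86_pm_113_t

theorem s88_pm_113_t : ∃ t, chk3 f_pm_113_t t 254 1022 1 = true := ex3_a k14_pm_113_t k15_pm_113_t

theorem s89_pm_113_t : ∃ t, chk3 f_pm_113_t t 254 511 1 = true := ex3_b s88_pm_113_t s87_pm_113_t

theorem s90_pm_113_t : ∃ t, chk3 f_pm_113_t t 254 255 1 = true := ex3_b k13_pm_113_t s89_pm_113_t

theorem s91_pm_113_t : ∃ t, chk3 f_pm_113_t t 254 127 1 = true := ex3_b k12_pm_113_t s90_pm_113_t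

theorem s92_pm_113_t : ∃ t, chk3 f_pm_113_t t 127 127 1 = true := ex3_a s91_pm_113_t s84_pm_113_t

theorem s93_pm_113_t : ∃ t, chk3 f_pm_113_t t 127 63 1 = true := ex3_b k11_pm_113_t s92_pm_113_t

theorem s94_pm_113_t : ∃ t, chk3 f_pm_113_t t 63 63 1 = true := ex3_a k10_pm_113_t s93_pm_113_t

theorem s95_pm_113_t : ∃ t, chk3 f_pm_113_t t 63 31 1 = true := ex3_b k9_pm_113_t s94_pm_113_t

theorem s96_pm_113_t : ∃ t, chk3 f_pm_113_t t 31 31 1 = true := ex3_a k8_pm_113_t s95_pm_113_t

theorem s97_pm_113_t : ∃ t, chk3 f_pm_113_t t 31 15 1 = true := ex3_b k7_pm_113_t s96_pm_113_t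

theorem s98_pm_113_t : ∃ t, chk3 f_pm_113_t t 15 15 1 = true := ex3_a k6_pm_113_t s97_pm_113_t

theorem s99_pm_113_t : ∃ t, chk3 f_pm_113_t t 15 7 1 = true := ex3_b k5_pm_113_t s98_pm_113_t

theorem s100_pm_113_t : ∃ t, chk3 f_pm_113_t t 7 7 1 = true := ex3_a k4_pm_113_t s99_pm_113_t

theorem s101_pm_113_t : ∃ t, chk3 f_pm_113_t t 7 3 1 = true := ex3_b k3_pm_113_t s100_pm_113_t

theorem s102_pm_113_t : ∃ t, chk3 f_pm_113_t t 3 3 1 = true := ex3_a k2_pm_113_t s101_pm_113_t

theorem s103_pm_113_t : ∃ t, chk3 f_pm_113_t t 3 1 1 = true := ex3_b k1_pm_113_t s102_pm_113_t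

theorem s104_pm_113_t : ∃ t, chk3 f_pm_113_t t 1 1 1 = true := ex3_a k0_pm_113_t s103_pm_113_t

theorem c_pm_113_t : CertNE 536870912 536870912 536870912 536870912 1033476505 6710887 3 eng mog cd0q1 cd0q1 pd3 true true false .nn 1 1 3
    ndB0q1 ndB0q1 pcB3 cut_pm_113_t Ext.none :=
  certNE0 (fam := true) (s1 := true) (s2 := false) (a := 1) (b := 1) (c := 3) (cn := .nn) (n1 := ndB0q1) (n2 := ndB0q1) (pc := pcB3) (cut := cut_pm_113_t) (xt := Ext.none) (P1 := 536870912) (W1 := 536870912) (P2 := 536870912) (W2 := 536870912) (P3 := 1033476505) (W3 := 6710887) (N0 := 3) (En := eng) (mo := mog) (C1 := cd0q1) (C2 := cd0q1) (C3 := pd3)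
    rfl s104_pm_113_t

noncomputable def cut_pm_123_s : Cut := Cut.of [[⟨4, 0, 0, 1449551462⟩], [⟨0, 1, 0, 20971520⟩, ⟨1, 1, 0, 20971520⟩, ⟨2, 2, 0, 1572864⟩], [⟨0, 0, 1, 46137344⟩, ⟨1, 1, 0, 1048576⟩, ⟨2, 1, 1, 46137344⟩, ⟨0, 0, 0, 1047972020⟩, ⟨0, 1, 0, 45097156⟩, ⟨2, 1, 0, 1047972020⟩, ⟨2, 2, 0, 45097156⟩], [⟨0, 1, 0, 1048576⟩, ⟨1, 0, 1, 46137344⟩, ⟨2, 1, 1, 46137344⟩, ⟨1, 0, 0, 1047972020⟩, ⟨1, 1, 0, 45097156⟩, ⟨2, 1, 0, 1047972020⟩, ⟨2, 2, 0, 45097156⟩]]

noncomputable def f_pm_123_s : ℕ → ℕ → ℕ → ℕ → Bool := onCell 536870912 536870912 0 536870912 1033476505 6710887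
    (rowNE 3 eng mog cd0q1 cd0q2 pd3 0 true true false .npn 1 2 3 (qsf 536870912 536870912 0 536870912 3) ndB0q1 ndB0q2 pcB3 cut_pm_123_s Ext.none)

def k0_pm_123_s : ∃ t, chk3 f_pm_123_s t 1 1 1 = true :=
  ⟨(l 6), by decide +kernel⟩

theorem c_pm_123_s : CertNE 536870912 536870912 0 536870912 1033476505 6710887 3 eng mog cd0q1 cd0q2 pd3 true true false .npn 1 2 3
    ndB0q1 ndB0q2 pcB3 cut_pm_123_s Ext.none :=
  certNE0 (fam := true) (s1 := true) (s2 := false) (a := 1) (b := 2) (c := 3) (cn := .npn) (n1 := ndB0q1) (n2 := ndB0q2) (pc := pcB3) (cut := cut_pm_123_s) (xt := Ext.none) (P1 := 536870912) (W1 := 536870912) (P2 := 0) (W2 := 536870912) (P3 := 1033476505) (W3 := 6710887) (N0 := 3) (En := eng) (mo := mog) (C1 := cd0q1) (C2 := cd0q2) (C3 := pd3)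
    rfl k0_pm_123_s

noncomputable def cut_pm_123_t : Cut := Cut.of [[⟨3, 0, 0, 3194381926⟩], [⟨0, 1, 0, 20971520⟩, ⟨1, 1, 0, 20971520⟩, ⟨2, 2, 0, 1572864⟩], [⟨0, 0, 1, 46137344⟩, ⟨1, 1, 0, 1048576⟩, ⟨2, 1, 1, 46137344⟩, ⟨0, 0, 0, 1047972020⟩, ⟨0, 1, 0, 45097156⟩, ⟨2, 1, 0, 1047972020⟩, ⟨2, 2, 0, 45097156⟩], [⟨0, 1, 0, 1048576⟩, ⟨1, 0, 1, 46137344⟩, ⟨2, 1, 1, 46137344⟩, ⟨1, 0, 0, 1047972020⟩, ⟨1, 1, 0, 45097156⟩, ⟨2, 1, 0, 1047972020⟩, ⟨2, 2, 0, 45097156⟩]]

noncomputable def f_pm_123_t : ℕ → ℕ → ℕ → ℕ → Bool := onCell 1610612736 536870912 0 536870912 1033476505 6710887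
    (rowNE 3 eng mog cd0q1 cd0q2 pd3 2 true true false .npn 1 2 3 (qsf 536870912 536870912 0 536870912 3) ndB0q1 ndB0q2 pcB3 cut_pm_123_t Ext.none)

def k0_pm_123_t : ∃ t, chk3 f_pm_123_t t 2 1 1 = true :=
  ⟨(b (a (l 6) (a (l 6) (b (b (a (a (l 6) (b (l 16549616) (l 6))) (a (b (l 16631224) (l 6)) (b (b (l 16699160) (l 16703304)) (l 16571784)))) (l 6)) (l 6)))) (l 6)), by decide +kernel⟩

def k1_pm_123_t : ∃ t, chk3 f_pm_123_t t 3 2 1 = true :=
  ⟨(a (a (b (b (a (a (b (b (l 4) (l 16701064)) (l 16648440)) (b (l 4) (b (l 16703832) (l 16719088)))) (b (l 4) (a (b (l 4) (l 16707160)) (l 4)))) (a (a (l 6) (b (l 16605152) (l 6))) (a (b (l 16652648) (l 6)) (b (a (l 16745688) (l 16766464)) (l 16647248))))) (l 6)) (b (b (l 4) (a (a (b (a (l 16772088) (l 4)) (a (l 16709416) (l 16741544))) (b (l 4) (b (l 112977825895) (l 74859812231)))) (b (l 4) (l 4)))) (a (b (a (l 6) (b (l 16697936) (l 6))) (l 6)) (b (a (b (a (l 16745504) (l 16743952)) (l 16682616)) (a (b (l 16773944) (l 16731960))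 (b (l 4) (l 16755568)))) (l 6))))) (a (b (l 4) (b (a (a (b (l 4) (a (l 16748944) (l 16733424))) (l 4)) (l 4)) (a (a (b (a (l 16728456) (l 16752216)) (l 6)) (a (b (l 16767560) (l 16736056)) (b (l 70564900583) (l 16756608)))) (a (b (a (l 120494013223) (l 4)) (a (l 16769952) (l 73786140231))) (a (b (l 4) (b (l 4) (l 16776512))) (l 4)))))) (l 4))), by decide +kernel⟩

def k2_pm_123_t : ∃ t, chk3 f_pm_123_t t 6 3 1 = true :=
  ⟨(l 6), by decide +kernel⟩

def k3_pm_123_t : ∃ t, chk3 f_pm_123_t t 7 6 1 = true :=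
  ⟨(a (a (l 6) (b (a (b (a (l 6) (l 16765168)) (l 6)) (b (a (l 16768184) (b (l 16776664) (l 16767784))) (a (l 6) (b (l 16753440) (l 6))))) (l 6))) (b (a (a (a (b (b (l 4) (l 94187228423)) (b (l 16763168) (l 16741752))) (b (l 4) (b (a (l 16774000) (l 16774016)) (a (l 16752936) (l 16764240))))) (b (l 4) (a (b (l 4) (a (l 16743544) (l 176865348839))) (l 4)))) (l 4)) (a (a (b (a (l 6) (b (a (l 16716832) (l 16708136)) (l 6))) (l 6)) (b (a (a (b (l 16746232) (l 16701224)) (b (l 16743328) (l 16702688))) (a (b (b (l 16768928) (l 16774760)) (l 16727168)) (b (l 4) (a (l 16744952) (l 16733768))))) (a (b (a (l 6) (l 16672544)) (l 6)) (b (a (l 16679168) (l 16687424)) (a (l 6) (l 16634416)))))) (a (a (b (a (b (l 4) (a (l 101166530263) (l 4))) (l 4)) (a (b (b (l 16737280) (l 16726168)) (b (l 16701624) (l 16696792))) (b (a (b (l 16767800) (l 16770504)) (b (l 4) (l 16729264))) (a (l 16694768) (b (l 16744144) (l 16721728)))))) (b (l 4) (b (l 4) (a (a (b (l 16753944) (l 16738808)) (b (l 4)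 (l 16733520))) (a (b (l 4) (l 301419388087)) (l 4)))))) (l 4))))), by decide +kernel⟩

def k4_pm_123_t : ∃ t, chk3 f_pm_123_t t 14 7 1 = true :=
  ⟨(l 6), by decide +kernel⟩

def k5_pm_123_t : ∃ t, chk3 f_pm_123_t t 30 14 1 = true :=
  ⟨(a (l 6) (l 6)), by decide +kernel⟩

def k6_pm_123_t : ∃ t, chk3 f_pm_123_t t 31 28 1 = true :=
  ⟨(a (a (b (a (b (l 16670160) (l 6)) (a (l 16644728) (a (l 16680600) (l 16669360)))) (a (l 6) (b (a (l 6) (l 16668320)) (l 6)))) (a (b (a (b (l 16736696) (l 16713000)) (b (l 16733656) (l 16731072))) (b (a (l 16688840) (l 16707240)) (a (l 16664280) (l 16683560)))) (b (a (b (a (l 16768416) (l 16755680)) (l 16729264)) (b (a (l 16748512) (l 4)) (a (l 16744256) (l 16753624)))) (b (a (l 16705480) (l 16725904)) (a (l 16681728) (b (l 16728960) (l 16717088))))))) (a (a (b (a (b (l 4) (a (l 16749960) (l 4))) (l 4)) (a (b (a (l 16742032) (l 16752368)) (a (l 16718192) (l 16729456))) (b (a (l 135526296183) (l 4)) (a (l 16741128) (b (l 16754648) (l 16747256))))))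 (b (l 4) (a (b (l 4) (a (b (l 4) (l 16759352)) (l 4))) (l 4)))) (l 4))), by decide +kernel⟩

def k7_pm_123_t : ∃ t, chk3 f_pm_123_t t 62 29 1 = true :=
  ⟨(a (l 6) (a (b (b (a (l 6) (b (l 16666080) (l 16656424))) (l 6)) (l 6)) (a (b (b (l 16658416) (b (a (l 16660136) (l 16667920)) (l 16661512))) (l 6)) (b (b (b (l 16705288) (l 16693784)) (b (l 16682944) (a (l 16669096) (l 16677944)))) (b (b (b (l 16670272) (l 16670664)) (l 16674808)) (b (l 16670496) (l 6))))))), by decide +kernel⟩

def k8_pm_123_t : ∃ t, chk3 f_pm_123_t t 126 29 1 = true :=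
  ⟨(b (a (a (b (b (l 16705896) (l 16715208)) (b (l 16704224) (l 16693792))) (b (a (l 16717224) (c (l 16730064) (l 16728720))) (a (b (l 16721112) (l 16710392)) (b (l 16732952) (l 16721960))))) (a (b (a (b (l 16747840) (l 16735992)) (b (a (l 16755592) (l 16760896)) (a (l 16766824) (l 16752360)))) (a (b (l 16745352) (l 16734024)) (b (l 16737392) (a (l 16743448) (l 16750072))))) (b (a (b (l 4) (a (l 16754224) (l 4))) (l 4)) (a (b (a (l 16747872) (l 16754336)) (l 16740096)) (b (a (l 332021076551) (l 4)) (a (l 16750544) (l 96871622711))))))) (a (b (a (b (a (b (l 16681032) (l 16677112)) (l 16688984)) (a (l 16678488) (b (l 16682608) (l 16682600)))) (b (a (l 16699840) (l 16711104)) (a (l 16680464) (l 16701872)))) (a (b (l 16688680) (b (l 16696096) (l 16695216))) (b (a (b (l 16689448) (l 16693512)) (b (l 16697616) (a (l 16695328) (l 16698912)))) (b (a (l 16700560) (l 16701320)) (l 16708184))))) (a (b (a (b (l 16701888) (l 16713312)) (b (a (l 16732040) (l 16717584)) (a (l 16722256)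 (l 16728656)))) (b (a (b (l 16708960) (l 16707032)) (b (l 16699744) (l 16718432))) (a (b (a (l 16703840) (l 16708328)) (a (l 16707688) (l 16708576))) (a (l 16712608) (l 16717960))))) (b (b (a (a (l 16746096) (l 16732616)) (a (l 16739864) (l 16746864))) (a (a (l 16715584) (l 16723272)) (a (l 16730696) (l 16748264)))) (b (a (b (l 16714408) (l 16732744)) (a (l 16734528) (l 16741320))) (a (b (l 16730152) (l 16727720)) (b (l 16733576) (l 16720392)))))))), by decide +kernel⟩

def k9_pm_123_t : ∃ t, chk3 f_pm_123_t t 127 29 1 = true :=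
  ⟨(a (b (a (b (l 4) (a (b (l 4) (a (l 385708165175) (l 4))) (l 4))) (l 4)) (a (b (a (b (a (b (l 16755848) (l 16751272)) (b (l 4) (l 158611782311))) (a (b (l 16767608) (l 16763608)) (b (l 16753064) (l 16748888)))) (b (l 4) (a (b (a (l 16755016) (l 4)) (c (l 16754816) (l 16754720))) (b (l 4) (l 416309815975))))) (a (b (a (b (l 16759928) (l 16756560)) (b (l 16766008) (l 16762496))) (a (l 16741512) (l 16749880))) (b (a (b (l 16750888) (l 16768192)) (b (a (l 16755144) (l 16765128)) (l 16752816))) (a (b (l 16764824) (l 16761720)) (b (l 16749312) (l 16767040)))))) (b (l 4) (a (b (a (b (l 4) (a (l 16755632) (l 4))) (l 4)) (a (b (b (l 16766024) (l 16753848)) (l 16751344)) (b (a (l 434563435639) (l 4)) (a (l 16755256) (l 321820545639))))) (l 4))))) (l 4)), by decide +kernel⟩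

def k10_pm_123_t : ∃ t, chk3 f_pm_123_t t 30 15 1 = true :=
  ⟨(l 6), by decide +kernel⟩

def k11_pm_123_t : ∃ t, chk3 f_pm_123_t t 62 30 1 = true :=
  ⟨(l 6), by decide +kernel⟩

def k12_pm_123_t : ∃ t, chk3 f_pm_123_t t 126 30 1 = true :=
  ⟨(a (a (b (b (b (b (l 16694216) (l 16693128)) (l 16691400)) (l 6)) (l 6)) (b (b (b (b (l 16716120) (l 16720760)) (l 16719296)) (b (l 16718520) (b (l 16720072) (l 16722592)))) (b (b (b (l 16726496) (l 16732016)) (l 6)) (l 6)))) (b (b (a (b (a (l 16717240) (b (a (l 16712960) (l 16715144)) (a (l 16718080) (l 16716960)))) (a (l 16728416) (l 16724416))) (b (a (b (l 16725440) (a (l 16720224) (l 16726312))) (b (l 16717880) (l 16736128))) (a (b (a (l 16721832) (l 16713848)) (l 16725344)) (b (a (l 16729320) (l 16735504)) (a (l 16716464) (l 16730880)))))) (a (b (a (l 16735392) (l 16709240)) (a (l 16738600) (b (l 16732800) (l 16734016)))) (b (a (l 16728496) (b (a (l 16727560) (l 16717880)) (l 16729024))) (l 16731288)))) (a (b (b (a (l 16740384)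 (l 16736064)) (a (l 16742432) (l 16738944))) (b (a (l 16744752) (l 16742064)) (a (l 6) (a (l 16746000) (l 16745056))))) (b (b (l 16734376) (l 16732360)) (b (a (l 16741056) (l 16741128)) (a (l 16744760) (l 16744832))))))), by decide +kernel⟩

def k13_pm_123_t : ∃ t, chk3 f_pm_123_t t 254 30 1 = true :=
  ⟨(b (a (b (a (b (a (l 16736040) (l 16744232)) (a (l 16718032) (l 16723592))) (b (a (b (l 16758872) (l 16755880)) (b (l 16764080) (l 16760904))) (a (l 16739424) (b (l 16757168) (l 16752976))))) (a (b (a (b (l 16731696) (l 16729672)) (b (l 16737304) (l 16722360))) (b (a (l 16730776) (l 16731352)) (l 16732472))) (b (a (l 16740752) (l 16746568)) (a (b (a (l 16732992) (l 16735368)) (l 16733280)) (b (l 16739992) (a (l 16734872) (l 16737232))))))) (b (a (b (a (b (l 16748248) (l 16766000)) (b (l 85060467623) (l 16750128))) (a (l 16749856) (l 16757880))) (b (a (a (b (b (l 462480726247) (l 16766576)) (l 16754080)) (b (l 4) (l 16771584))) (l 4)) (a (a (l 16748944) (l 16751896)) (a (b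 (l 16766680) (l 16774128)) (b (l 894661815159) (l 16766352)))))) (a (b (a (l 16731408) (l 16747776)) (a (l 16744088) (l 16729456))) (a (b (a (l 16762760) (l 16766096)) (a (l 16755248) (l 16758960))) (b (a (l 16748392) (l 16751424)) (b (l 16745152) (l 16741856))))))) (a (b (a (b (l 16734856) (l 16738144)) (b (b (a (l 16734696) (l 16735408)) (l 16736568)) (l 16739032))) (b (a (l 16741584) (l 16742432)) (a (l 16745248) (l 16746024)))) (b (a (b (a (b (a (l 16737048) (l 16739480)) (l 16737736)) (b (l 16744384) (a (l 16729016) (l 16742080)))) (b (a (l 16739200) (l 16740208)) (l 16741208))) (b (a (a (l 16747464) (l 16751536)) (c (l 16737200) (l 16736360))) (a (b (a (b (l 16742560) (l 16741608)) (l 16745880)) (a (l 16742368) (b (l 16743872) (l 16744104)))) (a (b (l 16750352) (b (l 16747600) (l 16746504))) (l 16752984))))) (a (b (l 16743704) (l 16741944)) (b (a (l 16745416) (b (a (l 16746912) (b (l 16749184) (l 16749024))) (l 16749224))) (a (l 16748720) (l 16751488))))))), by decide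 +kernel⟩

def k14_pm_123_t : ∃ t, chk3 f_pm_123_t t 510 30 1 = true :=
  ⟨(b (b (a (a (b (l 4) (a (b (l 4) (l 828626693543)) (l 4))) (l 4)) (l 4)) (a (a (b (a (b (l 16766112) (l 16773784)) (b (l 832921661223) (l 16771216))) (a (l 16748488) (l 16751488))) (b (a (b (l 4) (c (l 452280176295) (l 849027788759))) (l 4)) (b (a (l 16773808) (c (l 863523303383) (l 873186979783))) (a (l 16752960) (c (l 16766048) (l 16771248)))))) (a (a (a (b (l 4) (b (l 4) (l 460333243367))) (l 4)) (l 4)) (l 4)))) (a (b (a (b (a (l 16763448) (l 16745976)) (a (l 16757216) (l 16740240))) (b (a (l 16759672) (l 16762560)) (a (l 16743968) (l 16757872)))) (a (b (b (a (b (l 16753240) (l 16751920)) (l 16756800)) (a (l 16751808) (b (l 16754704) (l 16748864)))) (l 16754648)) (b (a (b (l 16760904) (l 16747760)) (l 16753016)) (b (a (b (c (l 16757168) (l 16751112)) (l 16756880)) (a (b (l 16759360) (l 16758536)) (l 16760888))) (a (l 16757784) (b (l 16754040) (l 16759816))))))) (b (a (b (a (a (l 16764480) (b (l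 16771952) (l 16775128))) (a (b (l 497914206759) (l 16776264)) (b (l 4) (c (l 16771656) (l 16772976))))) (a (l 16760936) (l 16763592))) (b (a (a (b (l 4) (l 1025121448151)) (l 4)) (l 4)) (a (b (a (l 16766136) (a (l 16771680) (l 493619241751))) (l 16754520)) (a (b (l 1267787099223) (b (l 16771720) (l 16776560))) (b (l 4) (b (l 4) (l 415772961255))))))) (a (b (a (l 16756632) (l 16759872)) (b (a (l 16763816) (l 16767488)) (a (a (b (l 16761312) (l 16761136)) (b (l 16763168) (l 16757192))) (l 16755136)))) (b (a (l 16767904) (a (l 16764408) (l 16770648))) (a (b (l 16770728) (l 16769112)) (b (l 16773472) (l 16772160)))))))), by decide +kernel⟩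

def k15_pm_123_t : ∃ t, chk3 f_pm_123_t t 511 30 1 = true :=
  ⟨(a (b (l 4) (b (l 4) (b (a (b (a (b (a (l 508114757383) (l 4)) (a (l 16777040) (l 610120229447))) (l 4)) (a (a (l 16776176) (b (l 16774512) (l 16776680))) (a (a (a (l 401277447463) (l 522073401143)) (l 1202825720583)) (l 4)))) (l 4)) (a (b (a (l 16770360) (a (l 16776744) (b (a (l 16771544) (l 868892009799)) (l 16774608)))) (a (l 16764144) (l 16771136))) (a (b (a (a (l 1347243995479) (l 4)) (l 4)) (a (a (l 16777088) (b (l 584887299591) (l 16777128))) (a (b (l 4) (l 467849441319)) (l 1656481639895)))) (l 4)))))) (l 4)), by decide +kernel⟩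

def k16_pm_123_t : ∃ t, chk3 f_pm_123_t t 62 31 1 = true :=
  ⟨(l 6), by decide +kernel⟩

def k17_pm_123_t : ∃ t, chk3 f_pm_123_t t 126 31 1 = true :=
  ⟨(a (l 6) (a (a (l 6) (a (l 6) (b (b (b (l 16749176) (b (l 16752616) (l 6))) (l 6)) (l 6)))) (a (b (b (b (l 16748912) (b (l 16752360) (l 16754816))) (b (b (l 16757400) (l 16760088)) (b (l 16762872) (l 16763120)))) (a (l 6) (b (b (b (l 16768520) (l 16771552)) (l 6)) (l 6)))) (b (b (b (l 16748936) (b (l 16752312) (l 16754712))) (b (b (l 16757200) (l 16759784)) (b (l 16762440) (l 16762560)))) (b (b (b (c (l 16768136) (l 16767872)) (c (l 16770976) (l 16770856))) (b (c (l 16768672) (l 16771304)) (c (b (l 16776168) (l 16777712)) (b (l 16776288) (l 16777896))))) (b (b (c (a (l 16775144) (l 16774512)) (b (l 16774280) (l 16778552))) (b (c (l 16779840) (l 16780888)) (c (a (l 16779240) (l 16778480)) (a (l 16779736) (l 16778912))))) (a (a (l 6) (b (b (b (b (c (l 16779944) (l 16780456)) (l 16779696)) (l 16778656)) (c (l 16776432) (l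 16776744))) (b (c (l 16776400) (l 16776552)) (a (l 6) (c (b (l 16777040) (l 16775080)) (c (l 16775080) (l 16775080))))))) (b (b (b (b (c (l 16782072) (l 16782544)) (c (l 16779216) (l 16779672))) (l 16781064)) (c (l 16778912) (l 16779200))) (c (b (c (l 16776296) (l 16776360)) (c (b (l 16777024) (b (l 16774768) (l 16774800))) (b (l 16777040) (b (l 16774760) (l 16774768))))) (b (c (l 16776432) (l 16776504)) (c (b (l 16777048) (b (l 16774744) (l 16774080))) (b (l 16777064) (b (l 16774728) (l 16774048)))))))))))))), by decide +kernel⟩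

def k18_pm_123_t : ∃ t, chk3 f_pm_123_t t 254 62 1 = true :=
  ⟨(a (b (b (a (l 16744032) (b (l 16748912) (l 16750968))) (a (b (l 16752560) (l 16754864)) (b (l 16753096) (l 16755288)))) (b (a (b (l 16757248) (l 16759696)) (b (l 16757544) (l 16759848))) (a (b (l 16762216) (c (l 16765032) (l 16764584))) (b (c (l 16762504) (l 16761920)) (c (l 16764880) (l 16764408)))))) (b (a (b (b (l 16749968) (l 16751920)) (b (l 16753936) (l 16755992))) (b (a (b (l 16751360) (l 16753208)) (l 16754704)) (a (b (l 16755088) (l 16757008)) (l 16754152)))) (a (b (b (l 16758096) (l 16760248)) (b (c (l 16762736) (l 16762160)) (c (l 16764936) (l 16764464)))) (b (a (b (l 16758960) (l 16760960)) (b (l 16760688) (l 16762472))) (a (b (a (l 16762752) (l 16763256)) (a (l 16764880) (l 16765296))) (b (l 16764304) (l 16766168))))))), by decide +kernel⟩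

def k19_pm_123_t : ∃ t, chk3 f_pm_123_t t 254 126 1 = true :=
  ⟨(a (b (a (b (c (l 16767632) (l 16767320)) (c (l 16770320) (l 16770128))) (b (c (l 16767320) (l 16766968)) (c (l 16769824) (l 16769584)))) (a (b (c (l 16770456) (l 16770392)) (c (b (l 16775200) (l 16776640)) (b (l 16775232) (l 16776736)))) (b (c (a (l 16772560) (l 16772264)) (b (l 16771592) (l 16772952))) (c (b (l 16774376) (l 16775712)) (b (l 16774336) (l 16775736)))))) (b (a (a (b (l 16767032) (l 16769448)) (b (l 16767024) (l 16767696))) (a (a (b (l 16767064) (l 16769296)) (b (l 16767384) (l 16769520))) (b (c (l 16768240) (l 16767904)) (b (l 16769528) (l 16770520))))) (a (b (c (a (l 16772008) (l 16771800)) (a (l 16771848) (l 16771616))) (c (b (l 16773704) (l 16774936)) (b (l 16773608) (l 16772272)))) (b (a (a (a (l 16771600) (l 16771576)) (l 16771696)) (b (l 16771512) (l 16772520))) (b (a (a (l 16773328) (l 16773368)) (l 16773544)) (a (a (l 16774512) (l 16774496)) (l 16773264))))))), by decide +kernel⟩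

def k20_pm_123_t : ∃ t, chk3 f_pm_123_t t 508 254 1 = true :=
  ⟨(b (a (c (a (l 16773904) (l 16775952)) (b (l 16773024) (l 16777192))) (c (b (l 16774456) (l 16777136)) (a (l 16775536) (l 16774984)))) (b (a (c (l 16779128) (c (l 16776064) (l 16776208))) (c (a (l 16780152) (l 16779560)) (c (l 16777368) (l 16777464)))) (a (a (c (l 16777744) (l 16778120)) (c (l 16777032) (l 16777352))) (c (a (l 16776352) (l 16778320)) (a (l 16776624) (l 16778544)))))), by decide +kernel⟩

def k21_pm_123_t : ∃ t, chk3 f_pm_123_t t 508 510 1 = true :=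
  ⟨(b (a (b (b (a (l 16781552) (l 16780776)) (a (c (l 16782744) (b (l 16781968) (l 16779176))) (c (l 16782880) (b (l 16773392) (l 16781336))))) (a (l 16782096) (a (l 16780576) (l 16780440)))) (a (b (c (l 16777448) (l 16777768)) (b (b (a (l 16782024) (l 16781776)) (l 16780392)) (l 16779944))) (b (c (l 16781992) (l 16777016)) (b (c (b (l 16782440) (l 16781176)) (b (l 16777480) (l 16781464))) (l 16779704))))) (a (c (a (l 16778720) (l 16778544)) (a (l 16778984) (l 16778776))) (c (a (l 16779680) (c (l 16778160) (l 16778248))) (a (l 16779240) (c (l 16778344) (l 16778440)))))), by decide +kernel⟩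

def k22_pm_123_t : ∃ t, chk3 f_pm_123_t t 508 511 1 = true :=
  ⟨(b (b (a (c (a (l 16779480) (l 16779384)) (a (l 16779640) (l 16779512))) (c (a (l 16779288) (l 16779200)) (a (l 16779400) (l 16777984)))) (a (c (a (l 16778248) (l 16776888)) (a (l 16777016) (l 16776952))) (c (a (l 16777496) (c (l 16778112) (l 16778128))) (a (l 16777544) (c (l 16778144) (l 16778160)))))) (a (c (a (c (b (l 16777016) (b (l 16774808) (l 16774856))) (b (l 16777024) (b (l 16774784) (l 16774816)))) (c (b (l 16777024) (a (l 16775856) (l 16775880))) (b (l 16777016) (b (l 16774816) (l 16775208))))) (a (c (b (l 16777024) (b (l 16774760) (l 16774776))) (b (l 16777032) (b (l 16774736) (l 16774736)))) (c (b (l 16777016) (b (l 16774784) (l 16775160))) (b (l 16777016) (b (l 16774760) (l 16775112)))))) (c (a (b (c (l 16776376) (l 16775712)) (c (a (l 16775256) (l 16775288)) (a (l 16775216) (l 16775248)))) (b (c (l 16776400) (l 16776384)) (b (c (l 16775608) (l 16775568)) (c (a (l 16775056) (l 16775104)) (a (l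 16775008) (l 16775048)))))) (a (c (b (l 16775704) (a (l 16775176) (l 16775200))) (b (l 16775696) (a (l 16775128) (l 16775160)))) (b (c (l 16776368) (l 16776352)) (c (a (l 16775232) (c (l 16775936) (l 16775904))) (a (l 16775184) (l 16775216)))))))), by decide +kernel⟩

def k23_pm_123_t : ∃ t, chk3 f_pm_123_t t 509 254 1 = true :=
  ⟨(a (b (b (a (l 16776416) (l 16774680)) (c (a (l 16777696) (l 16777224)) (a (l 16777768) (l 16777264)))) (c (a (b (l 16779000) (l 16777704)) (b (l 16778472) (l 16777112))) (a (b (l 16779128) (l 16777880)) (b (l 16778560) (l 16777248))))) (b (b (a (a (l 16775704) (l 16775632)) (c (l 16775640) (l 16775592))) (a (a (l 16775936) (l 16776784)) (c (l 16776672) (l 16776672)))) (a (b (a (c (l 16778104) (l 16778168)) (c (l 16777928) (l 16777976))) (a (c (l 16779320) (l 16776808)) (c (l 16779088) (l 16779176)))) (b (c (l 16776408) (l 16776440)) (c (c (l 16777448) (l 16777488)) (c (l 16777520) (l 16777560))))))), by decide +kernel⟩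

def k24_pm_123_t : ∃ t, chk3 f_pm_123_t t 509 510 1 = true :=
  ⟨(a (b (b (c (a (l 16781328) (l 16780688)) (a (l 16776304) (l 16778240))) (a (b (c (l 16781832) (l 16776832)) (c (b (l 16781320) (l 16781824)) (a (l 16779616) (l 16781384)))) (a (b (l 16781440) (c (l 16780936) (b (l 16781792) (l 16781832)))) (c (l 16779864) (l 16780704))))) (b (a (c (l 16778560) (l 16778760)) (c (l 16780008) (l 16780184))) (c (a (l 16780144) (l 16778704)) (a (l 16777664) (l 16778824))))) (b (a (a (c (l 16779232) (l 16779392)) (c (l 16777632) (l 16777768))) (c (a (l 16778672) (l 16778416)) (a (l 16778792) (l 16778520)))) (b (a (b (b (a (c (l 16779840) (l 16780672)) (c (l 16780912) (l 16781072))) (a (l 16781064) (c (l 16780872) (l 16781032)))) (c (l 16780584) (l 16780728))) (b (a (b (l 16780680) (a (l 16780184) (l 16780072))) (c (l 16780376) (l 16780504))) (a (l 16779224) (c (l 16779696) (l 16779824))))) (a (c (l 16778584) (l 16778688)) (c (l 16779112) (l 16778552)))))), by decide +kernel⟩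

def k25_pm_123_t : ∃ t, chk3 f_pm_123_t t 509 1022 1 = true :=
  ⟨(a (c (a (b (l 16777808) (c (l 16778088) (l 16778096))) (b (l 16778384) (c (l 16776752) (l 16776760)))) (a (b (l 16777880) (c (l 16778104) (l 16778112))) (b (l 16778448) (c (l 16776760) (l 16776768))))) (a (c (b (c (l 16778960) (l 16778984)) (c (l 16777392) (l 16777392))) (b (c (l 16779008) (l 16779032)) (c (l 16777392) (l 16777392)))) (c (a (b (l 16778920) (l 16777384)) (b (l 16778888) (l 16777384))) (a (b (l 16778968) (l 16777376)) (b (l 16778928) (l 16777376)))))), by decide +kernel⟩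

def k26_pm_123_t : ∃ t, chk3 f_pm_123_t t 509 2046 1 = true :=
  ⟨(a (b (c (a (l 16776992) (a (l 16776024) (l 16776032))) (a (l 16776968) (a (l 16777304) (l 16777312)))) (c (a (a (l 16776144) (l 16776168)) (c (l 16776216) (l 16776184))) (a (a (l 16775440) (l 16776112)) (c (l 16776808) (l 16776776))))) (c (a (c (a (l 16777136) (l 16777160)) (a (l 16777112) (l 16777128))) (c (a (l 16776528) (l 16776552)) (a (l 16776496) (l 16776520)))) (a (c (a (l 16777088) (l 16777104)) (a (l 16777056) (l 16777072))) (c (a (l 16776472) (l 16776488)) (a (l 16776440) (l 16776464)))))), by decide +kernel⟩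

def k27_pm_123_t : ∃ t, chk3 f_pm_123_t t 509 2047 1 = true :=
  ⟨(b (a (c (a (a (l 16775960) (a (l 16775656) (l 16775672))) (c (a (l 16776376) (l 16775760)) (c (l 16775704) (l 16775680)))) (a (c (l 16775912) (l 16776192)) (c (c (l 16775656) (l 16776288)) (c (l 16776272) (l 16776248))))) (c (a (c (a (l 16775800) (l 16775840)) (a (l 16775752) (l 16775792))) (c (a (l 16775880) (l 16775928)) (a (l 16775832) (l 16775880)))) (a (c (a (l 16775704) (l 16775744)) (a (l 16775000) (l 16776352))) (c (a (l 16775784) (l 16775832)) (a (l 16776392) (l 16776440)))))) (a (c (a (c (a (l 16775144) (l 16775192)) (a (l 16775088) (l 16775136))) (c (a (l 16775240) (l 16775616)) (a (l 16775184) (l 16775560)))) (a (c (a (l 16775032) (l 16775072)) (a (l 16774976) (l 16775016))) (c (a (l 16775120) (l 16775168)) (a (l 16775064) (l 16775112))))) (c (a (c (a (c (l 16775360) (l 16775328)) (c (l 16775408) (l 16775384))) (a (l 16775608) (c (l 16775352) (l 16775320)))) (c (a (c (l 16775792) (l 16775760))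 (c (l 16776016) (l 16775824))) (a (c (l 16775736) (l 16775376)) (c (l 16775792) (l 16775760))))) (a (c (a (l 16775552) (c (l 16775288) (l 16775256))) (a (l 16775488) (l 16775544))) (c (a (c (l 16775344) (l 16775312)) (c (l 16775728) (l 16775704))) (a (c (l 16775288) (l 16775256)) (c (l 16775344) (l 16775312)))))))), by decide +kernel⟩

def k28_pm_123_t : ∃ t, chk3 f_pm_123_t t 510 62 1 = true :=
  ⟨(a (b (b (a (l 16752216) (l 16755232)) (a (b (l 16759656) (l 16761152)) (b (l 16762328) (l 16763592)))) (b (a (b (l 16762680) (l 16764240)) (b (l 16764880) (l 16766184))) (a (b (l 16765824) (l 16767448)) (b (l 16767528) (l 16768896))))) (b (a (b (b (a (l 16762392) (a (b (l 16758376) (l 16763960)) (b (l 16765216) (l 16764872)))) (l 16764272)) (b (l 16765264) (l 16766280))) (b (b (a (a (b (l 16766992) (l 16761072)) (l 16768368)) (l 16770848)) (b (a (a (l 16766184) (b (l 16767480) (l 16767296))) (l 16769800)) (a (l 16767072) (a (b (l 16768608) (l 16768520)) (l 16770112))))) (b (a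 (l 16767680) (a (l 16768968) (b (b (l 16769744) (l 16769760)) (l 16770024)))) (l 16769288)))) (b (a (b (l 16767312) (l 16768360)) (b (l 16770040) (l 16770808))) (a (b (l 16769432) (l 16767904)) (b (l 16768976) (a (l 16771896) (l 16772896))))))), by decide +kernel⟩

def k29_pm_123_t : ∃ t, chk3 f_pm_123_t t 510 126 1 = true :=
  ⟨(b (a (b (a (c (l 16769256) (l 16768960)) (b (l 16769936) (l 16770640))) (a (b (l 16770376) (l 16771232)) (b (l 16771360) (l 16772080)))) (a (b (b (l 16771360) (l 16771928)) (b (l 16772504) (l 16773080))) (b (a (l 16772800) (l 16773640)) (b (l 16771216) (l 16772952))))) (a (b (a (b (l 16772104) (l 16772976)) (b (l 16772808) (l 16773552))) (b (a (l 16773864) (l 16773640)) (a (c (l 16774808) (l 16774720)) (c (l 16775096) (l 16775016))))) (b (b (a (l 16773664) (a (l 16774416) (l 16774984))) (a (l 16772944) (a (l 16774896) (l 16775376)))) (a (b (a (l 16774704) (l 16775024)) (c (l 16775496) (l 16775432))) (b (a (l 16775376) (l 16775776)) (a (l 16775864)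 (l 16776184))))))), by decide +kernel⟩

def k30_pm_123_t : ∃ t, chk3 f_pm_123_t t 510 254 1 = true :=
  ⟨(a (b (a (b (c (l 16775696) (l 16775648)) (c (l 16776600) (l 16776576))) (b (c (l 16775848) (l 16775792)) (c (l 16776608) (l 16776584)))) (a (b (c (l 16776856) (a (l 16777576) (l 16777480))) (c (c (l 16777112) (l 16777128)) (c (l 16777152) (l 16777176)))) (b (c (a (l 16777408) (l 16777360)) (a (l 16777408) (l 16777360))) (c (a (l 16778216) (l 16778096)) (a (l 16778248) (l 16778120)))))) (b (a (a (b (l 16776008) (l 16776664)) (b (l 16776168) (l 16776744))) (a (b (l 16776360) (l 16776864)) (b (l 16776592) (l 16777008)))) (a (b (c (a (l 16777336) (l 16777336)) (a (l 16777336) (l 16777336))) (c (a (l 16778000) (l 16777928)) (a (l 16778016) (l 16777936)))) (b (c (a (l 16777368) (l 16777432)) (a (l 16777368) (l 16777432))) (c (a (l 16777872) (l 16777848)) (a (l 16777888) (l 16777864))))))), by decide +kernel⟩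

def k31_pm_123_t : ∃ t, chk3 f_pm_123_t t 510 510 1 = true :=
  ⟨(a (b (a (c (a (l 16778168) (l 16777944)) (a (l 16778256) (l 16778016))) (c (a (l 16777728) (l 16778192)) (a (l 16777792) (l 16778240)))) (a (b (b (c (l 16778640) (l 16778736)) (b (a (c (l 16780264) (l 16780376)) (l 16778728)) (a (c (l 16780192) (l 16780304)) (c (l 16779392) (l 16779488))))) (c (l 16779000) (l 16779072))) (b (a (c (l 16778360) (l 16778440)) (c (l 16779416) (l 16779480))) (b (b (a (c (l 16779168) (l 16779248)) (c (l 16778992) (l 16779064))) (a (l 16779704) (c (l 16779584) (l 16779656)))) (c (l 16778040) (l 16778096)))))) (a (b (c (a (l 16778016) (l 16777864)) (a (l 16778056) (l 16777896))) (b (c (a (l 16779184) (l 16778968)) (a (l 16779232) (l 16779008))) (b (a (b (l 16778768) (a (a (l 16778912) (l 16779200)) (l 16779120))) (c (l 16779192) (l 16779240))) (a (c (l 16779272) (l 16778016)) (a (c (l 16778888) (l 16778936)) (b (a (l 16778952) (l 16779232)) (l 16779152))))))) (a (b (c (b (l 16778256)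 (l 16778512)) (b (l 16778280) (l 16778544))) (b (c (l 16778776) (l 16778808)) (b (c (l 16778968) (l 16779008)) (c (b (l 16779064) (c (l 16778880) (l 16778736))) (b (l 16779112) (c (l 16778760) (l 16778864))))))) (a (b (c (l 16778304) (l 16778328)) (b (l 16778000) (b (l 16778832) (b (l 16778920) (l 16778808))))) (b (c (l 16778256) (l 16778272)) (c (l 16778336) (l 16778040))))))), by decide +kernel⟩

def k32_pm_123_t : ∃ t, chk3 f_pm_123_t t 510 1022 1 = true :=
  ⟨(a (a (c (b (c (l 16778176) (l 16778192)) (a (l 16777376) (c (l 16778040) (l 16778032)))) (b (a (l 16777584) (l 16777552)) (a (l 16777368) (c (l 16778024) (l 16778016))))) (c (b (a (l 16777488) (l 16778112)) (a (c (l 16778040) (l 16778032)) (c (l 16777384) (l 16777376)))) (b (a (l 16777512) (l 16778144)) (a (c (l 16778024) (l 16778016)) (c (l 16777368) (l 16776704)))))) (a (c (b (a (l 16778088) (l 16778064)) (a (c (l 16777384) (l 16777376)) (c (l 16777384) (l 16777376)))) (b (a (l 16778112) (l 16778080)) (a (c (l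 16777368) (l 16777360)) (c (l 16777368) (l 16777360))))) (b (a (c (l 16778360) (l 16778056)) (b (b (a (l 16778584) (b (l 16778568) (l 16778856))) (l 16778424)) (c (l 16778504) (l 16778520)))) (b (c (a (l 16778200) (l 16778200)) (a (l 16778192) (l 16778192))) (c (a (l 16777880) (l 16777560)) (a (l 16777856) (l 16777536))))))), by decide +kernel⟩

def k33_pm_123_t : ∃ t, chk3 f_pm_123_t t 1020 1023 1 = true :=
  ⟨(a (c (b (a (c (l 16776736) (l 16776544)) (b (l 16777440) (a (l 16777032) (l 16777048)))) (a (c (b (l 16776296) (a (l 16775880) (l 16775912))) (b (l 16776248) (a (l 16775824) (l 16775848)))) (c (b (l 16776344) (a (l 16775936) (l 16776136))) (b (l 16776624) (a (l 16775880) (l 16775912)))))) (b (c (a (l 16776512) (c (l 16776552) (l 16776536))) (a (l 16776488) (l 16776672))) (c (a (b (l 16776528) (c (l 16775792) (l 16775760))) (b (l 16776576) (a (l 16775824) (l 16775856)))) (a (b (l 16776480) (c (l 16775736) (l 16776032))) (b (l 16776536) (a (l 16775768) (l 16775800)))))))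 (c (b (a (b (l 16777456) (a (l 16777072) (l 16777088))) (b (l 16777480) (a (l 16777104) (l 16777120)))) (a (c (b (c (l 16776400) (l 16776056)) (b (l 16776272) (a (l 16775904) (l 16775936)))) (b (l 16776512) (a (l 16776112) (a (l 16775968) (l 16775984))))) (c (b (c (l 16776776) (l 16776760)) (c (a (l 16776080) (l 16776112)) (a (l 16776048) (l 16776080)))) (b (c (l 16776736) (l 16776712)) (b (l 16776280) (a (l 16775912) (l 16775952))))))) (b (a (b (l 16777408) (a (l 16777000) (l 16777016))) (b (l 16777432) (a (l 16777040) (l 16777056)))) (a (c (b (l 16776304) (a (l 16775888) (l 16775920))) (b (l 16776584) (a (l 16775832) (l 16776192)))) (c (b (c (l 16776688) (l 16776672)) (b (l 16776232) (a (l 16775856) (l 16775896)))) (a (b (l 16776624) (l 16776064)) (b (l 16776648) (a (l 16775928) (l 16775944))))))))), by decide +kernel⟩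

def k34_pm_123_t : ∃ t, chk3 f_pm_123_t t 2042 1023 1 = true :=
  ⟨(c (b (b (a (l 16777176) (c (l 16777536) (l 16777520))) (a (c (l 16777168) (l 16777136)) (c (l 16777208) (l 16777176)))) (a (c (b (c (l 16776832) (l 16776808)) (c (a (l 16776144) (l 16776176)) (a (l 16776112) (l 16776152)))) (b (c (l 16776784) (l 16776768)) (c (a (l 16776088) (l 16776120)) (a (l 16776064) (l 16776096))))) (a (b (c (l 16776856) (l 16776816)) (c (c (l 16776368) (l 16776344)) (c (l 16776160) (l 16776128)))) (c (b (l 16776888) (b (l 16776312) (l 16776312))) (b (l 16776848) (c (l 16776352) (l 16776328))))))) (b (b (a (l 16777128) (c (l 16777496) (l 16777472))) (a (c (l 16777104) (l 16777072)) (c (l 16777144) (l 16777112)))) (a (c (b (c (l 16776744) (l 16776728)) (c (a (l 16776040) (l 16776072)) (a (l 16776008) (l 16776048)))) (b (c (l 16776704) (l 16776680)) (b (l 16776328) (a (l 16775872) (l 16775912))))) (c (b (c (l 16776640) (l 16776456)) (c (a (l 16776432) (l 16776144)) (a (l 16776408) (l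 16776120)))) (b (c (l 16776432) (l 16776416)) (c (a (l 16776384) (l 16776424)) (a (l 16776360) (l 16776400)))))))), by decide +kernel⟩

def k35_pm_123_t : ∃ t, chk3 f_pm_123_t t 2043 1023 1 = true :=
  ⟨(c (b (b (a (c (l 16777560) (l 16777544)) (c (l 16777592) (l 16777568))) (a (c (l 16776920) (l 16776888)) (a (l 16776936) (l 16777120)))) (a (a (c (b (l 16776912) (b (l 16776344) (l 16776384))) (b (l 16776872) (b (l 16776296) (l 16776296)))) (c (b (l 16776936) (b (l 16776376) (a (l 16776208) (l 16776224)))) (b (l 16776904) (b (l 16776328) (l 16776416))))) (b (a (c (l 16776968) (l 16776928)) (c (l 16776992) (l 16776960))) (c (a (b (l 16776408) (a (l 16776408) (l 16776424))) (b (l 16776440) (a (l 16776448) (l 16776464)))) (b (a (l 16776368) (l 16776400)) (c (a (l 16776384) (l 16776424)) (a (l 16776192) (l 16776400)))))))) (b (a (c (b (l 16777520) (l 16776856)) (b (l 16777504) (l 16776832))) (a (b (l 16777536) (l 16776880)) (b (l 16777552) (l 16777064)))) (a (a (c (b (l 16776832)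 (a (l 16776320) (l 16776336))) (b (l 16776792) (c (l 16776296) (l 16776104)))) (c (b (l 16776864) (b (l 16776288) (l 16776368))) (b (l 16776824) (b (l 16776240) (l 16776240))))) (b (a (c (l 16776896) (l 16776856)) (c (l 16776928) (l 16776888))) (b (a (c (l 16776320) (l 16776280)) (c (l 16776360) (l 16776320))) (c (c (a (l 16776176) (l 16776376)) (a (l 16776152) (l 16776352))) (c (a (l 16776128) (l 16776168)) (a (l 16776104) (l 16776144))))))))), by decide +kernel⟩

def k36_pm_123_t : ∃ t, chk3 f_pm_123_t t 2044 62 1 = true :=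
  ⟨(b (b (a (c (l 16767944) (l 16762624)) (a (l 16764440) (l 16765384))) (a (a (b (b (l 16765960) (b (l 16765648) (l 16771000))) (l 16771352)) (b (b (l 16772632) (b (l 16772272) (l 16766904))) (b (b (l 16772040) (l 16772176)) (l 16772360)))) (b (l 16769208) (a (a (b (l 16771664) (l 16773024)) (b (l 16773656) (l 16773440))) (a (b (l 16774280) (b (l 16774096) (l 16773976))) (l 16774856)))))) (b (b (b (a (l 16772192) (a (l 16773464) (b (l 16769016) (l 16774392)))) (l 16773272)) (l 16768376)) (b (a (l 16773416) (l 16774760)) (c (l 16769328) (l 16769304))))), by decide +kernel⟩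

def k37_pm_123_t : ∃ t, chk3 f_pm_123_t t 2044 126 1 = true :=
  ⟨(b (b (c (l 16772440) (l 16772424)) (a (l 16773840) (l 16774664))) (b (a (b (l 16775608) (l 16775912)) (b (l 16776296) (l 16776520))) (a (b (l 16776232) (l 16776544)) (c (l 16775536) (l 16775552))))), by decide +kernel⟩

def k38_pm_123_t : ∃ t, chk3 f_pm_123_t t 2044 254 1 = true :=
  ⟨(b (b (a (l 16776872) (l 16776544)) (a (c (l 16777200) (l 16777200)) (c (l 16777424) (l 16777440)))) (b (a (c (l 16777528) (l 16777536)) (c (l 16777664) (l 16777680))) (a (c (l 16777856) (l 16777872)) (c (l 16777248) (l 16777592))))), by decide +kernel⟩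

def k39_pm_123_t : ∃ t, chk3 f_pm_123_t t 2044 510 1 = true :=
  ⟨(b (a (c (b (l 16778112) (l 16778280)) (b (l 16778128) (l 16778304))) (c (b (l 16778088) (l 16778208)) (b (l 16778104) (l 16778224)))) (a (c (b (l 16778456) (l 16777968)) (b (l 16778472) (l 16777992))) (c (b (l 16777680) (l 16778128)) (b (l 16777696) (l 16778232))))), by decide +kernel⟩

def k40_pm_123_t : ∃ t, chk3 f_pm_123_t t 2044 1022 1 = true :=
  ⟨(b (a (a (b (b (a (l 16778656) (l 16778776)) (l 16778400)) (l 16778176)) (b (b (l 16778696) (c (l 16778352) (l 16778368))) (l 16778168))) (a (b (a (c (l 16778304) (l 16778320)) (l 16778264)) (c (l 16777816) (l 16777832))) (b (l 16778192) (b (b (a (l 16778568) (l 16778528)) (l 16778176)) (l 16778400))))) (b (c (a (l 16778192) (l 16777864)) (a (l 16777536) (l 16777864))) (c (a (l 16777736) (c (l 16777920) (l 16777912))) (a (l 16777632) (c (l 16777904) (l 16777896)))))), by decide +kernel⟩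

def k41_pm_123_t : ∃ t, chk3 f_pm_123_t t 2044 1023 1 = true :=
  ⟨(b (b (c (a (c (l 16777288) (l 16777600)) (c (l 16777400) (l 16777384))) (a (c (l 16777584) (l 16777560)) (c (l 16777368) (l 16777432)))) (c (a (c (a (l 16777312) (l 16777336)) (c (l 16777144) (l 16776968))) (c (a (l 16777360) (l 16777376)) (a (l 16777336) (l 16777360)))) (a (c (c (l 16776952) (l 16776944)) (c (l 16776928) (l 16776920))) (c (a (l 16777312) (l 16777336)) (a (l 16777288) (l 16777312)))))) (b (c (a (c (a (l 16776856) (l 16776888)) (a (l 16776664) (l 16776856))) (a (b (l 16777136) (a (l 16776824) (l 16776840))) (b (l 16777160) (a (l 16776856) (l 16776872))))) (a (c (a (l 16776624) (l 16776824)) (a (l 16776592) (l 16776792))) (a (b (l 16777080) (a (l 16776760) (l 16776776))) (b (l 16777112) (a (l 16776952) (l 16776976)))))) (b (c (a (a (c (l 16776640) (l 16776600)) (c (l 16776672) (l 16776632))) (c (a (l 16776704) (l 16776824)) (a (l 16776672) (l 16776792)))) (a (a (c (l 16776560) (l 16776360))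 (c (l 16776600) (l 16776560))) (c (a (l 16776632) (l 16776672)) (a (l 16776600) (l 16776800))))) (c (a (c (c (a (l 16776504) (l 16776624)) (a (l 16776480) (l 16776600))) (c (a (l 16776456) (l 16776576)) (a (l 16776440) (l 16776480)))) (c (a (a (l 16776560) (l 16776576)) (a (l 16776680) (l 16776696))) (a (a (l 16776520) (l 16776536)) (a (l 16776560) (l 16776656))))) (a (c (c (a (l 16776416) (l 16776456)) (a (l 16776392) (l 16776440))) (c (a (l 16776376) (l 16776416)) (a (l 16776352) (l 16776392)))) (c (a (a (l 16776480) (l 16776496)) (a (l 16776520) (l 16776544))) (a (c (l 16776544) (l 16776520)) (a (l 16776480) (l 16776504))))))))), by decide +kernel⟩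

def k42_pm_123_t : ∃ t, chk3 f_pm_123_t t 2045 31 1 = true :=
  ⟨(b (b (b (a (a (l 16771352) (a (l 16776968) (b (b (l 16774392) (l 16777152)) (l 16777072)))) (b (a (a (b (l 769034020839) (l 16774536)) (b (l 4) (l 689040255479))) (l 4)) (b (a (c (l 16771992) (l 16774632)) (a (b (l 832921660439) (l 16771680)) (l 4))) (l 14)))) (a (a (l 16773224) (l 14)) (l 14))) (a (a (a (b (b (b (b (l 16775160) (l 16775048)) (l 16775176)) (l 16775384)) (l 16773184)) (l 14)) (l 14)) (l 14))) (a (a (a (b (b (b (l 16776232) (l 16776536)) (b (l 16776848) (l 16775872))) (a (a (b (b (b (l 16777400) (l 16777576)) (b (l 16777768) (l 16777952))) (a (a (b (b (l 16777824) (c (l 16778336) (l 16778352))) (b (b (b (l 16778472) (b (l 16778504) (l 16778400))) (c (l 16777400) (l 16777392))) (b (c (l 16777184) (l 16777152)) (b (c (l 16777112) (l 16776728)) (c (c (l 16776688) (l 16776656)) (c (l 16776624) (l 16776592))))))) (l 14)) (l 14))) (l 14)) (l 14))) (l 14)) (l 14)) (l 14))), by decide +kernel⟩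

def k43_pm_123_t : ∃ t, chk3 f_pm_123_t t 1023 31 1 = true :=
  ⟨(b (b (b (b (l 4) (l 4)) (l 14)) (l 14)) (l 14)), by decide +kernel⟩

theorem s44_pm_123_t : ∃ t, chk3 f_pm_123_t t 2044 511 1 = true := ex3_b k40_pm_123_t k41_pm_123_t

theorem s45_pm_123_t : ∃ t, chk3 f_pm_123_t t 2044 255 1 = true := ex3_b k39_pm_123_t s44_pm_123_t

theorem s46_pm_123_t : ∃ t, chk3 f_pm_123_t t 2044 127 1 = true := ex3_b k38_pm_123_t s45_pm_123_t

theorem s47_pm_123_t : ∃ t, chk3 f_pm_123_t t 2044 63 1 = true := ex3_b k37_pm_123_t s46_pm_123_t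

theorem s48_pm_123_t : ∃ t, chk3 f_pm_123_t t 2044 31 1 = true := ex3_b k36_pm_123_t s47_pm_123_t

theorem s49_pm_123_t : ∃ t, chk3 f_pm_123_t t 1022 31 1 = true := ex3_a s48_pm_123_t k42_pm_123_t

theorem s50_pm_123_t : ∃ t, chk3 f_pm_123_t t 511 31 1 = true := ex3_a s49_pm_123_t k43_pm_123_t

theorem s51_pm_123_t : ∃ t, chk3 f_pm_123_t t 1021 1023 1 = true := ex3_a k34_pm_123_t k35_pm_123_t

theorem s52_pm_123_t : ∃ t, chk3 f_pm_123_t t 510 1023 1 = true := ex3_a k33_pm_123_t s51_pm_123_t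

theorem s53_pm_123_t : ∃ t, chk3 f_pm_123_t t 510 511 1 = true := ex3_b k32_pm_123_t s52_pm_123_t

theorem s54_pm_123_t : ∃ t, chk3 f_pm_123_t t 510 255 1 = true := ex3_b k31_pm_123_t s53_pm_123_t

theorem s55_pm_123_t : ∃ t, chk3 f_pm_123_t t 510 127 1 = true := ex3_b k30_pm_123_t s54_pm_123_t

theorem s56_pm_123_t : ∃ t, chk3 f_pm_123_t t 510 63 1 = true := ex3_b k29_pm_123_t s55_pm_123_t

theorem s57_pm_123_t : ∃ t, chk3 f_pm_123_t t 510 31 1 = true := ex3_b k28_pm_123_t s56_pm_123_t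

theorem s58_pm_123_t : ∃ t, chk3 f_pm_123_t t 255 31 1 = true := ex3_a s57_pm_123_t s50_pm_123_t

theorem s59_pm_123_t : ∃ t, chk3 f_pm_123_t t 509 1023 1 = true := ex3_b k26_pm_123_t k27_pm_123_t

theorem s60_pm_123_t : ∃ t, chk3 f_pm_123_t t 509 511 1 = true := ex3_b k25_pm_123_t s59_pm_123_t

theorem s61_pm_123_t : ∃ t, chk3 f_pm_123_t t 509 255 1 = true := ex3_b k24_pm_123_t s60_pm_123_t

theorem s62_pm_123_t : ∃ t, chk3 f_pm_123_t t 509 127 1 = true := ex3_b k23_pm_123_t s61_pm_123_t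

theorem s63_pm_123_t : ∃ t, chk3 f_pm_123_t t 508 255 1 = true := ex3_b k21_pm_123_t k22_pm_123_t

theorem s64_pm_123_t : ∃ t, chk3 f_pm_123_t t 508 127 1 = true := ex3_b k20_pm_123_t s63_pm_123_t

theorem s65_pm_123_t : ∃ t, chk3 f_pm_123_t t 254 127 1 = true := ex3_a s64_pm_123_t s62_pm_123_t

theorem s66_pm_123_t : ∃ t, chk3 f_pm_123_t t 254 63 1 = true := ex3_b k19_pm_123_t s65_pm_123_t

theorem s67_pm_123_t : ∃ t, chk3 f_pm_123_t t 254 31 1 = true := ex3_b k18_pm_123_t s66_pm_123_t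

theorem s68_pm_123_t : ∃ t, chk3 f_pm_123_t t 127 31 1 = true := ex3_a s67_pm_123_t s58_pm_123_t

theorem s69_pm_123_t : ∃ t, chk3 f_pm_123_t t 63 31 1 = true := ex3_a k17_pm_123_t s68_pm_123_t

theorem s70_pm_123_t : ∃ t, chk3 f_pm_123_t t 31 31 1 = true := ex3_a k16_pm_123_t s69_pm_123_t

theorem s71_pm_123_t : ∃ t, chk3 f_pm_123_t t 255 30 1 = true := ex3_a k14_pm_123_t k15_pm_123_t

theorem s72_pm_123_t : ∃ t, chk3 f_pm_123_t t 127 30 1 = true := ex3_a k13_pm_123_t s71_pm_123_t

theorem s73_pm_123_t : ∃ t, chk3 f_pm_123_t t 63 30 1 = true := ex3_a k12_pm_123_t s72_pm_123_t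

theorem s74_pm_123_t : ∃ t, chk3 f_pm_123_t t 31 30 1 = true := ex3_a k11_pm_123_t s73_pm_123_t

theorem s75_pm_123_t : ∃ t, chk3 f_pm_123_t t 31 15 1 = true := ex3_b s74_pm_123_t s70_pm_123_t

theorem s76_pm_123_t : ∃ t, chk3 f_pm_123_t t 15 15 1 = true := ex3_a k10_pm_123_t s75_pm_123_t

theorem s77_pm_123_t : ∃ t, chk3 f_pm_123_t t 63 29 1 = true := ex3_a k8_pm_123_t k9_pm_123_t

theorem s78_pm_123_t : ∃ t, chk3 f_pm_123_t t 31 29 1 = true := ex3_a k7_pm_123_t s77_pm_123_t

theorem s79_pm_123_t : ∃ t, chk3 f_pm_123_t t 31 14 1 = true := ex3_b k6_pm_123_t s78_pm_123_t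

theorem s80_pm_123_t : ∃ t, chk3 f_pm_123_t t 15 14 1 = true := ex3_a k5_pm_123_t s79_pm_123_t

theorem s81_pm_123_t : ∃ t, chk3 f_pm_123_t t 15 7 1 = true := ex3_b s80_pm_123_t s76_pm_123_t

theorem s82_pm_123_t : ∃ t, chk3 f_pm_123_t t 7 7 1 = true := ex3_a k4_pm_123_t s81_pm_123_t

theorem s83_pm_123_t : ∃ t, chk3 f_pm_123_t t 7 3 1 = true := ex3_b k3_pm_123_t s82_pm_123_t

theorem s84_pm_123_t : ∃ t, chk3 f_pm_123_t t 3 3 1 = true := ex3_a k2_pm_123_t s83_pm_123_t

theorem s85_pm_123_t : ∃ t, chk3 f_pm_123_t t 3 1 1 = true := ex3_b k1_pm_123_t s84_pm_123_t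

theorem s86_pm_123_t : ∃ t, chk3 f_pm_123_t t 1 1 1 = true := ex3_a k0_pm_123_t s85_pm_123_t

theorem c_pm_123_t : CertNE 536870912 536870912 0 536870912 1033476505 6710887 3 eng mog cd0q1 cd0q2 pd3 true true false .npn 1 2 3
    ndB0q1 ndB0q2 pcB3 cut_pm_123_t Ext.none :=
  certNE2 (fam := true) (s1 := true) (s2 := false) (a := 1) (b := 2) (c := 3) (cn := .npn) (n1 := ndB0q1) (n2 := ndB0q2) (pc := pcB3) (cut := cut_pm_123_t) (xt := Ext.none) (P1 := 536870912) (W1 := 536870912) (P2 := 0) (W2 := 536870912) (P3 := 1033476505) (W3 := 6710887) (N0 := 3) (En := eng) (mo := mog) (C1 := cd0q1) (C2 := cd0q2) (C3 := pd3)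
    rfl (fun _ => rfl) s86_pm_123_t

noncomputable def cut_pm_202_s : Cut := Cut.of [[⟨4, 0, 0, 1449551462⟩], [⟨0, 1, 0, 26843545⟩, ⟨1, 0, 0, 26843545⟩, ⟨2, 1, 0, 26843545⟩]]

noncomputable def f_pm_202_s : ℕ → ℕ → ℕ → ℕ → Bool := onCell 0 536870912 1073741824 536870912 1033476505 6710887
    (rowNE 3 eng mog cd0q2 cd0q0 pd2 1 true true false .pp 2 0 2 (qsf 0 536870912 0 536870912 2) ndB0q2 ndB0q0 pcB2 cut_pm_202_s Ext.none)

def k0_pm_202_s : ∃ t, chk3 f_pm_202_s t 2 4 1 = true :=
  ⟨(b (l 1) (l 6)), by decide +kernel⟩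

def k1_pm_202_s : ∃ t, chk3 f_pm_202_s t 3 8 1 = true :=
  ⟨(a (l 1) (b (a (l 1) (b (a (l 1) (l 14)) (b (a (a (l 1) (a (l 1) (l 14))) (l 14)) (a (a (a (l 1) (a (l 1) (b (l 1) (l 16672784)))) (a (b (l 16691568) (l 16700272)) (b (l 16682120) (l 16690528)))) (a (a (b (l 16696944) (l 16704880)) (a (l 16712856) (l 16713560))) (a (a (l 16710040) (l 16706424)) (a (l 16702856) (l 16699504)))))))) (a (a (b (l 1) (a (l 1) (a (l 16350272) (l 16418616)))) (a (b (l 1) (a (l 16487696) (l 16534720))) (b (a (b (l 1) (l 16587064)) (b (l 16621464) (l 16619528))) (a (l 16558024) (l 16632632))))) (a (a (b (a (b (a (l 16650856) (l 16669336)) (l 16659192)) (b (a (l 16668664) (a (l 16684512) (l 16710472))) (b (l 16652392) (l 16635768)))) (a (l 16599936) (b (a (l 16658792) (l 16623336)) (l 16596184)))) (b (b (a (l 16692432) (l 16692912)) (a (l 16658408) (l 16679936))) (b (a (l 16643664) (l 16644424)) (a (l 16607200) (l 16608336))))) (b (a (b (a (l 16689840) (l 16684672)) (a (l 16677200) (l 16672688)))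 (b (a (l 16678536) (b (l 16701000) (l 16686120))) (a (l 16667536) (l 16662912)))) (a (b (a (l 16642184) (l 16638480)) (a (l 16606720) (l 16604120))) (b (a (l 16634456) (l 16631584)) (a (l 16601800) (l 16601136))))))))), by decide +kernel⟩

def k2_pm_202_s : ∃ t, chk3 f_pm_202_s t 6 9 1 = true :=
  ⟨(a (b (l 1) (l 6)) (b (a (b (l 1) (a (l 15959744) (l 16037872))) (b (a (l 16066840) (l 16180136)) (a (l 16135640) (l 16249016)))) (b (a (a (l 16040904) (l 16119192)) (a (l 16215472) (l 16325640))) (a (l 6) (l 16224576))))), by decide +kernel⟩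

def k3_pm_202_s : ∃ t, chk3 f_pm_202_s t 7 9 1 = true :=
  ⟨(a (a (b (a (b (l 16264280) (l 16373504)) (b (l 16377320) (l 16462248))) (a (b (l 16445448) (l 16492680)) (a (l 16485376) (l 16544440)))) (b (a (b (l 16471496) (l 16551640)) (b (a (l 16620880) (l 16578592)) (a (l 16569872) (l 16550288)))) (a (b (l 16537848) (l 16499872)) (b (a (l 16525056) (l 16488736)) (b (l 16448256) (a (l 16467136) (l 16437992))))))) (a (b (a (b (a (l 16571496) (b (l 16581976) (l 16547440))) (a (l 16524600) (b (l 16514664) (l 16484848)))) (b (b (a (l 16570888) (l 16572600)) (a (l 16535640) (l 16538568))) (b (a (l 16502536) (l 16507440)) (a (l 16473552) (l 16480832))))) (a (b (a (l 16468224) (b (l 16459664) (l 16442400))) (a (b (l 16440232) (l 16419880)) (b (l 16424728) (l 16401120)))) (b (b (a (l 16449736) (b (l 16464464) (l 16456136))) (a (a (l 16430080) (l 16435576)) (l 16441224))) (b (a (a (l 16412536) (l 16413760)) (l 16412048)) (a (b (l 16387088) (l 16362712)) (l 16360464)))))) (b (b (a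 (b (a (l 16572112) (l 16571064)) (a (l 16539656) (l 16540984))) (b (a (l 16571016) (l 16573416)) (a (l 16543856) (l 16549808)))) (a (b (a (l 16510968) (l 16515176)) (a (l 16487216) (b (l 16500864) (l 16490896)))) (b (a (b (l 16526600) (l 16517816)) (b (l 16536184) (l 16526648))) (a (b (l 16508304) (l 16497984)) (b (l 16515328) (l 16498392)))))) (b (a (b (a (l 16469128) (b (l 16480144) (l 16467752))) (a (l 16444864) (b (l 16449064) (l 16423928)))) (b (a (b (l 16482728) (l 16462200)) (b (l 16474096) (l 16446944))) (a (b (l 16435240) (l 16404384)) (b (l 16414880) (l 16378968))))) (a (b (a (b (l 16412184) (l 16385280)) (b (l 16394848) (l 16361640))) (a (b (l 16354872) (l 16320488)) (l 16310160))) (b (a (l 16352464) (l 16324032)) (a (l 16279848) (l 16247704)))))))), by decide +kernel⟩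

def k4_pm_202_s : ∃ t, chk3 f_pm_202_s t 1 5 1 = true :=
  ⟨(a (l 6) (a (b (a (l 6) (b (a (l 6) (b (l 16319592) (l 6))) (l 6))) (l 6)) (b (a (b (a (b (a (l 16569208) (b (l 16600600) (l 16581120))) (a (l 16541400) (b (l 16535648) (l 16480080)))) (b (a (b (l 16511712) (l 16445776)) (b (a (l 16447032) (l 16415320)) (a (l 16415016) (l 16372592)))) (a (b (l 16411672) (l 16360672)) (a (b (l 16366864) (l 16305736)) (l 16283440))))) (a (b (l 6) (l 6)) (a (b (l 16307504) (l 6)) (b (a (l 16209064) (l 16154432)) (l 15943064))))) (b (a (b (a (a (b (l 16387880) (l 16337984)) (b (l 16356352) (l 16297560))) (b (a (a (l 16326400) (l 16313512)) (l 16296368)) (a (l 16256640) (l 16228656)))) (a (a (l 16244104) (l 16202080)) (b (a (l 16190696) (l 16158256)) (b (l 16121360) (b (l 16094864) (b (b (a (b (l 16103928) (l 16102928)) (l 16065016)) (l 16078744)) (l 16072392))))))) (b (a (b (l 16274376) (l 16179960)) (b (a (l 16203704) (l 16168096)) (l 16105912))) (b (a (l 16103752) (l 16024504)) (b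 (a (l 16045784) (l 15961816)) (b (a (l 16015264) (l 15927760)) (a (l 15994664) (a (l 15906608) (l 15861168)))))))) (a (a (b (a (l 16111960) (l 16068600)) (l 15956328)) (b (a (l 16020952) (l 15981088)) (l 15869448))) (a (b (l 15917688) (l 15788992)) (b (l 15828096) (l 15704488)))))) (a (l 6) (b (b (a (a (l 15829776) (l 15746560)) (a (l 15671544) (l 15595112))) (a (l 6) (a (l 15569640) (l 15483232)))) (a (l 6) (a (l 6) (b (a (l 6) (l 15424512)) (l 6))))))))), by decide +kernel⟩

def k5_pm_202_s : ∃ t, chk3 f_pm_202_s t 1 3 1 = true :=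
  ⟨(a (l 6) (l 6)), by decide +kernel⟩

theorem s6_pm_202_s : ∃ t, chk3 f_pm_202_s t 3 9 1 = true := ex3_a k2_pm_202_s k3_pm_202_s

theorem s7_pm_202_s : ∃ t, chk3 f_pm_202_s t 3 4 1 = true := ex3_b k1_pm_202_s s6_pm_202_s

theorem s8_pm_202_s : ∃ t, chk3 f_pm_202_s t 1 4 1 = true := ex3_a k0_pm_202_s s7_pm_202_s

theorem s9_pm_202_s : ∃ t, chk3 f_pm_202_s t 1 2 1 = true := ex3_b s8_pm_202_s k4_pm_202_s

theorem s10_pm_202_s : ∃ t, chk3 f_pm_202_s t 1 1 1 = true := ex3_b s9_pm_202_s k5_pm_202_s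

theorem c_pm_202_s : CertNE 0 536870912 0 536870912 1033476505 6710887 3 eng mog cd0q2 cd0q0 pd2 true true false .pp 2 0 2
    ndB0q2 ndB0q0 pcB2 cut_pm_202_s Ext.none :=
  certNE1 (fam := true) (s1 := true) (s2 := false) (a := 2) (b := 0) (c := 2) (cn := .pp) (n1 := ndB0q2) (n2 := ndB0q0) (pc := pcB2) (cut := cut_pm_202_s) (xt := Ext.none) (P1 := 0) (W1 := 536870912) (P2 := 0) (W2 := 536870912) (P3 := 1033476505) (W3 := 6710887) (N0 := 3) (En := eng) (mo := mog) (C1 := cd0q2) (C2 := cd0q0) (C3 := pd2)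
    rfl (fun _ => rfl) s10_pm_202_s

noncomputable def cut_pm_202_t : Cut := Cut.of [[⟨3, 0, 0, 2845415833⟩], [⟨0, 1, 0, 26843545⟩, ⟨1, 0, 0, 26843545⟩, ⟨2, 1, 0, 26843545⟩]]

noncomputable def f_pm_202_t : ℕ → ℕ → ℕ → ℕ → Bool := onCell 0 536870912 1073741824 536870912 1033476505 6710887
    (rowNE 3 eng mog cd0q2 cd0q0 pd2 1 true true false .pp 2 0 2 (qsf 0 536870912 0 536870912 2) ndB0q2 ndB0q0 pcB2 cut_pm_202_t Ext.none)

def k0_pm_202_t : ∃ t, chk3 f_pm_202_t t 1 1 1 = true :=
  ⟨(b (l 6) (a (l 6) (l 6))), by decide +kernel⟩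

theorem c_pm_202_t : CertNE 0 536870912 0 536870912 1033476505 6710887 3 eng mog cd0q2 cd0q0 pd2 true true false .pp 2 0 2
    ndB0q2 ndB0q0 pcB2 cut_pm_202_t Ext.none :=
  certNE1 (fam := true) (s1 := true) (s2 := false) (a := 2) (b := 0) (c := 2) (cn := .pp) (n1 := ndB0q2) (n2 := ndB0q0) (pc := pcB2) (cut := cut_pm_202_t) (xt := Ext.none) (P1 := 0) (W1 := 536870912) (P2 := 0) (W2 := 536870912) (P3 := 1033476505) (W3 := 6710887) (N0 := 3) (En := eng) (mo := mog) (C1 := cd0q2) (C2 := cd0q0) (C3 := pd2)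
    rfl (fun _ => rfl) k0_pm_202_t

noncomputable def cut_pm_203_s : Cut := Cut.of [[⟨4, 0, 0, 1449551462⟩]]

noncomputable def f_pm_203_s : ℕ → ℕ → ℕ → ℕ → Bool := onCell 0 536870912 1610612736 536870912 1033476505 6710887
    (rowNE 3 eng mog cd0q2 cd0q0 pd3 1 true true false .up 2 0 3 (qsf 0 536870912 0 536870912 3) ndB0q2 ndB0q0 pcB3 cut_pm_203_s Ext.none)

def k0_pm_203_s : ∃ t, chk3 f_pm_203_s t 1 1 1 = true :=
  ⟨(l 6), by decide +kernel⟩

theorem c_pm_203_s : CertNE 0 536870912 0 536870912 1033476505 6710887 3 eng mog cd0q2 cd0q0 pd3 true true false .up 2 0 3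
    ndB0q2 ndB0q0 pcB3 cut_pm_203_s Ext.none :=
  certNE1 (fam := true) (s1 := true) (s2 := false) (a := 2) (b := 0) (c := 3) (cn := .up) (n1 := ndB0q2) (n2 := ndB0q0) (pc := pcB3) (cut := cut_pm_203_s) (xt := Ext.none) (P1 := 0) (W1 := 536870912) (P2 := 0) (W2 := 536870912) (P3 := 1033476505) (W3 := 6710887) (N0 := 3) (En := eng) (mo := mog) (C1 := cd0q2) (C2 := cd0q0) (C3 := pd3)
    rfl (fun _ => rfl) k0_pm_203_s

noncomputable def cut_pm_203_t : Cut := Cut.of [[⟨3, 0, 0, 2845415833⟩]]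

noncomputable def f_pm_203_t : ℕ → ℕ → ℕ → ℕ → Bool := onCell 0 536870912 0 536870912 1033476505 6710887
    (rowNE 3 eng mog cd0q2 cd0q0 pd3 0 true true false .up 2 0 3 (qsf 0 536870912 0 536870912 3) ndB0q2 ndB0q0 pcB3 cut_pm_203_t Ext.none)

def k0_pm_203_t : ∃ t, chk3 f_pm_203_t t 1 1 1 = true :=
  ⟨(a (b (l 1) (b (a (b (l 1) (a (b (l 1) (a (b (l 6) (l 15038504)) (l 6))) (l 6))) (l 6)) (a (b (a (b (a (b (l 15161984) (l 15288544)) (l 6)) (b (a (l 15417224) (l 15134360)) (l 15177112))) (l 6)) (a (b (b (a (l 15677464) (l 15405912)) (a (l 15807608) (l 15542424))) (b (a (l 15936440) (l 15678384)) (a (l 16063744) (l 15813560)))) (b (a (a (l 15263688) (b (l 6) (l 15189696))) (l 6)) (a (b (l 15403968) (l 15546896)) (a (b (a (l 15225488) (l 15202112)) (l 15333416)) (b (l 6) (l 15256720))))))) (b (l 6) (l 6))))) (l 6)), by decide +kernel⟩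

theorem c_pm_203_t : CertNE 0 536870912 0 536870912 1033476505 6710887 3 eng mog cd0q2 cd0q0 pd3 true true false .up 2 0 3
    ndB0q2 ndB0q0 pcB3 cut_pm_203_t Ext.none :=
  certNE0 (fam := true) (s1 := true) (s2 := false) (a := 2) (b := 0) (c := 3) (cn := .up) (n1 := ndB0q2) (n2 := ndB0q0) (pc := pcB3) (cut := cut_pm_203_t) (xt := Ext.none) (P1 := 0) (W1 := 536870912) (P2 := 0) (W2 := 536870912) (P3 := 1033476505) (W3 := 6710887) (N0 := 3) (En := eng) (mo := mog) (C1 := cd0q2) (C2 := cd0q0) (C3 := pd3)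
    rfl k0_pm_203_t

noncomputable def cut_pm_213_s : Cut := Cut.of [[⟨4, 0, 0, 1449551462⟩], [⟨0, 1, 0, 20971520⟩, ⟨1, 1, 0, 20971520⟩, ⟨2, 2, 0, 1572864⟩], [⟨0, 0, 1, 46137344⟩, ⟨1, 1, 0, 1048576⟩, ⟨2, 1, 1, 46137344⟩, ⟨0, 0, 0, 1047972020⟩, ⟨0, 1, 0, 45097156⟩, ⟨2, 1, 0, 1047972020⟩, ⟨2, 2, 0, 45097156⟩], [⟨0, 1, 0, 1048576⟩, ⟨1, 0, 1, 46137344⟩, ⟨2, 1, 1, 46137344⟩, ⟨1, 0, 0, 1047972020⟩, ⟨1, 1, 0, 45097156⟩, ⟨2, 1, 0, 1047972020⟩, ⟨2, 2, 0, 45097156⟩]]

noncomputable def f_pm_213_s : ℕ → ℕ → ℕ → ℕ → Bool := onCell 0 536870912 536870912 536870912 1033476505 6710887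
    (rowNE 3 eng mog cd0q2 cd0q1 pd3 0 true true false .pnn 2 1 3 (qsf 0 536870912 536870912 536870912 3) ndB0q2 ndB0q1 pcB3 cut_pm_213_s Ext.none)

def k0_pm_213_s : ∃ t, chk3 f_pm_213_s t 1 1 1 = true :=
  ⟨(l 6), by decide +kernel⟩

theorem c_pm_213_s : CertNE 0 536870912 536870912 536870912 1033476505 6710887 3 eng mog cd0q2 cd0q1 pd3 true true false .pnn 2 1 3
    ndB0q2 ndB0q1 pcB3 cut_pm_213_s Ext.none :=
  certNE0 (fam := true) (s1 := true) (s2 := false) (a := 2) (b := 1) (c := 3) (cn := .pnn) (n1 := ndB0q2) (n2 := ndB0q1) (pc := pcB3) (cut := cut_pm_213_s) (xt := Ext.none) (P1 := 0) (W1 := 536870912) (P2 := 536870912) (W2 := 536870912) (P3 := 1033476505) (W3 := 6710887) (N0 := 3) (En := eng) (mo := mog) (C1 := cd0q2) (C2 := cd0q1) (C3 := pd3)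
    rfl k0_pm_213_s

noncomputable def cut_pm_213_t : Cut := Cut.of [[⟨3, 0, 0, 3194381926⟩], [⟨0, 1, 0, 20971520⟩, ⟨1, 1, 0, 20971520⟩, ⟨2, 2, 0, 1572864⟩], [⟨0, 0, 1, 46137344⟩, ⟨1, 1, 0, 1048576⟩, ⟨2, 1, 1, 46137344⟩, ⟨0, 0, 0, 1047972020⟩, ⟨0, 1, 0, 45097156⟩, ⟨2, 1, 0, 1047972020⟩, ⟨2, 2, 0, 45097156⟩], [⟨0, 1, 0, 1048576⟩, ⟨1, 0, 1, 46137344⟩, ⟨2, 1, 1, 46137344⟩, ⟨1, 0, 0, 1047972020⟩, ⟨1, 1, 0, 45097156⟩, ⟨2, 1, 0, 1047972020⟩, ⟨2, 2, 0, 45097156⟩]]

noncomputable def f_pm_213_t : ℕ → ℕ → ℕ → ℕ → Bool := onCell 0 536870912 1610612736 536870912 1033476505 6710887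
    (rowNE 3 eng mog cd0q2 cd0q1 pd3 1 true true false .pnn 2 1 3 (qsf 0 536870912 536870912 536870912 3) ndB0q2 ndB0q1 pcB3 cut_pm_213_t Ext.none)

def k0_pm_213_t : ∃ t, chk3 f_pm_213_t t 2 1 1 = true :=
  ⟨(b (b (l 6) (b (l 6) (a (a (b (b (l 6) (a (l 16549616) (l 6))) (b (a (l 16631224) (l 6)) (a (a (l 16720128) (l 16703304)) (l 16571784)))) (l 6)) (l 6)))) (a (b (a (b (b (b (a (a (l 4) (l 16722032)) (l 16648440)) (a (l 4) (a (l 16724800) (l 16719088)))) (a (l 4) (b (a (l 4) (l 16728128)) (l 4)))) (l 4)) (b (b (b (l 6) (a (l 16605152) (l 6))) (b (a (l 16652648) (l 6)) (a (b (l 16745688) (l 16766464)) (l 16647248)))) (b (b (a (b (l 16772088) (l 4)) (b (l 16709416) (l 16741544))) (a (l 4) (a (l 112977825895) (l 74859812231)))) (a (l 4) (l 4))))) (l 4)) (b (b (l 6) (b (a (b (l 6) (a (l 16676968) (l 6))) (l 6)) (a (b (a (b (l 16745504) (l 16764920)) (l 16682616)) (a (b (l 16773944) (l 4)) (b (l 16731960) (l 16755568)))) (l 6)))) (b (a (a (l 4) (b (b (b (l 16769920) (l 16775368))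 (l 4)) (l 4))) (b (b (a (b (l 16728456) (l 16752216)) (l 6)) (b (a (l 16767560) (l 16736056)) (a (l 16742584) (l 16756608)))) (b (a (b (l 120494013223) (l 4)) (b (l 16769952) (l 73786140231))) (b (a (l 4) (a (l 4) (l 16776512))) (l 4))))) (l 4))))), by decide +kernel⟩

def k1_pm_213_t : ∃ t, chk3 f_pm_213_t t 3 2 1 = true :=
  ⟨(l 6), by decide +kernel⟩

def k2_pm_213_t : ∃ t, chk3 f_pm_213_t t 6 3 1 = true :=
  ⟨(b (l 6) (a (b (b (l 6) (b (a (b (l 6) (l 16765168)) (l 6)) (a (b (l 16768184) (a (l 16776664) (l 16767784))) (a (b (l 6) (l 16753440)) (l 6))))) (b (b (b (a (a (l 4) (l 94187228423)) (a (l 16763168) (l 16741752))) (a (l 4) (a (b (l 16774000) (l 16774016)) (b (l 16752936) (l 16764240))))) (a (l 4) (b (a (l 4) (b (l 70028034215) (l 176865348839))) (l 4)))) (l 4))) (b (l 6) (b (b (a (b (l 6) (a (b (l 16716832) (l 16708136)) (l 6))) (l 6)) (a (b (b (a (l 16746232) (l 16701224)) (a (l 16722352) (l 16702688))) (b (a (a (l 16768928) (l 16753792)) (l 16727168)) (a (l 4)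 (b (l 16744952) (l 16733768))))) (b (a (b (l 6) (l 16672544)) (l 6)) (a (b (l 16679168) (l 16687424)) (b (l 6) (l 16634416)))))) (b (b (a (b (a (l 4) (b (l 101166530263) (l 4))) (l 4)) (b (a (a (b (l 16762776) (l 16775224)) (l 16726168)) (a (l 16701624) (l 16696792))) (a (b (a (l 16746832) (l 16770504)) (a (l 4) (l 231626180311))) (b (l 16694768) (a (l 16744144) (l 16721728)))))) (a (l 4) (a (l 4) (b (b (a (l 16732976) (l 16738808)) (a (l 4) (l 85597303383))) (b (a (l 4) (l 301419388087)) (l 4)))))) (l 4)))))), by decide +kernel⟩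

def k3_pm_213_t : ∃ t, chk3 f_pm_213_t t 7 6 1 = true :=
  ⟨(l 6), by decide +kernel⟩

def k4_pm_213_t : ∃ t, chk3 f_pm_213_t t 14 14 1 = true :=
  ⟨(l 6), by decide +kernel⟩

def k5_pm_213_t : ∃ t, chk3 f_pm_213_t t 28 15 1 = true :=
  ⟨(b (l 6) (b (b (a (b (a (l 16670160) (l 6)) (b (l 16644728) (a (l 16718768) (l 16693848)))) (b (l 6) (a (l 16610408) (l 6)))) (b (a (b (a (l 16736696) (l 16713000)) (a (l 16733656) (l 16731072))) (a (b (l 16688840) (l 16707240)) (b (l 16664280) (l 16683560)))) (a (b (a (a (l 16755736) (l 16746616)) (l 16729264)) (a (b (l 16748512) (l 4)) (b (l 16744256) (l 16753624)))) (b (a (l 16705480) (l 16681728)) (a (l 16725904) (a (l 16728960) (l 16717088))))))) (b (b (a (b (a (l 4) (b (l 16749960) (l 4))) (l 4)) (b (a (b (l 16742032) (l 16752368)) (b (l 16718192) (l 16729456))) (a (b (l 134989425271) (l 4)) (b (l 16741128) (a (l 16754648) (l 16747256)))))) (a (l 4) (b (a (l 4) (b (a (l 4) (l 103314061383)) (l 4))) (l 4)))) (l 4)))), by decide +kernel⟩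

def k6_pm_213_t : ∃ t, chk3 f_pm_213_t t 29 30 1 = true :=
  ⟨(l 6), by decide +kernel⟩

def k7_pm_213_t : ∃ t, chk3 f_pm_213_t t 29 62 1 = true :=
  ⟨(b (l 6) (b (a (a (b (l 6) (a (l 16666080) (l 16656424))) (l 6)) (l 6)) (b (a (a (l 16658416) (a (b (l 16660136) (l 16667920)) (l 16661512))) (l 6)) (a (a (a (l 16705288) (l 16693784)) (a (l 16682944) (b (l 16669096) (l 16677944)))) (a (a (a (l 16670272) (l 16670664)) (l 16674808)) (a (l 16670496) (l 6))))))), by decide +kernel⟩

def k8_pm_213_t : ∃ t, chk3 f_pm_213_t t 29 126 1 = true :=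
  ⟨(a (b (b (a (b (l 16715480) (l 16705640)) (a (l 16704224) (l 16693792))) (a (b (l 16717224) (l 16718912)) (b (a (l 16721112) (l 16710392)) (a (l 16732952) (l 16721960))))) (b (a (b (a (l 16747840) (l 16735992)) (a (b (l 16755592) (l 16760896)) (b (l 16766824) (l 16752360)))) (b (a (l 16745352) (l 16734024)) (a (l 16737392) (l 16720544)))) (a (b (a (l 4) (b (l 16754224) (l 4))) (l 4)) (b (a (b (l 16747872) (l 16754336)) (l 16740096)) (a (b (l 332021076551) (l 4)) (b (l 16750544) (l 97408493623))))))) (b (a (b (a (b (a (l 16681032) (l 16677112)) (l 16688984)) (b (l 16678488) (a (l 16682608) (l 16682600)))) (a (b (l 16699840) (l 16711104)) (b (a (l 16692792) (l 16689424)) (l 16701872)))) (b (a (l 16688680) (a (l 16696096) (l 16695216))) (a (b (a (l 16689448) (l 16693512)) (a (l 16697616) (b (l 16695328) (l 16698912)))) (a (b (l 16700560) (l 16701320)) (l 16708184))))) (b (a (b (a (l 16701888) (l 16713312)) (a (b (l 16732040) (l 16738552)) (b (l 16722256) (l 16728656))))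 (a (a (b (l 16708960) (l 16720720)) (b (l 16707032) (l 16718432))) (b (a (b (l 16703840) (l 16708328)) (b (l 16707688) (l 16708576))) (b (a (l 16713528) (l 16711720)) (l 16717960))))) (a (a (b (b (l 16746096) (l 16732616)) (b (l 16739864) (l 16746864))) (b (a (l 16742384) (l 16738592)) (b (l 16730696) (l 16748264)))) (a (b (a (l 16735376) (l 16732744)) (a (l 16729112) (l 16725984))) (b (a (l 16730152) (l 16727720)) (a (l 16723088) (l 16741360)))))))), by decide +kernel⟩

def k9_pm_213_t : ∃ t, chk3 f_pm_213_t t 29 127 1 = true :=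
  ⟨(b (a (b (a (l 4) (b (a (l 4) (b (l 385708165175) (l 4))) (l 4))) (l 4)) (b (a (b (a (b (a (l 16755848) (l 16751272)) (a (l 4) (l 158611782311))) (b (a (l 16767608) (l 16763608)) (a (l 16753064) (l 16748888)))) (a (l 4) (b (a (l 356180275799) (c (l 16754816) (l 16754720))) (a (l 4) (l 416309815975))))) (b (a (b (l 16749032) (a (l 16766008) (l 16762496))) (b (l 16731024) (l 16747264))) (a (b (a (l 16750888) (l 16768192)) (a (b (l 16755144) (l 16765128)) (l 16752816))) (b (a (l 16764824) (l 16761720)) (a (l 16749312) (l 16767040)))))) (a (l 4) (b (a (b (a (l 4) (b (l 16755632) (l 4))) (l 4)) (b (a (a (l 16766024) (l 16753848)) (l 16751344)) (a (l 813594305447) (b (l 16755256) (l 321820545639))))) (l 4))))) (l 4)), by decide +kernel⟩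

def k10_pm_213_t : ∃ t, chk3 f_pm_213_t t 15 14 1 = true :=
  ⟨(l 6), by decide +kernel⟩

def k11_pm_213_t : ∃ t, chk3 f_pm_213_t t 30 30 1 = true :=
  ⟨(l 6), by decide +kernel⟩

def k12_pm_213_t : ∃ t, chk3 f_pm_213_t t 30 62 1 = true :=
  ⟨(l 6), by decide +kernel⟩

def k13_pm_213_t : ∃ t, chk3 f_pm_213_t t 30 126 1 = true :=
  ⟨(b (b (a (a (a (a (l 16694216) (l 16693128)) (l 16691400)) (l 6)) (l 6)) (a (a (a (a (l 16716120) (l 16720760)) (l 16719296)) (a (l 16718520) (a (l 16720072) (l 16722592)))) (a (a (a (l 16726496) (l 16732016)) (l 6)) (l 6)))) (a (a (b (a (b (l 16717240) (a (b (l 16712960) (l 16704656)) (b (l 16718080) (l 16716960)))) (b (l 16728416) (l 16724416))) (a (b (a (l 16725440) (b (l 16720224) (l 16726312))) (a (l 16738856) (l 16736128))) (b (a (b (l 16721832) (l 16713848)) (l 16725344)) (a (b (l 16729320) (l 16735504)) (b (l 16716464) (l 16730880)))))) (b (a (b (l 16735392) (l 16719728)) (b (l 16738600) (a (l 16732800) (l 16734016)))) (a (b (l 16728496)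 (a (b (l 16727560) (l 16723128)) (l 16729024))) (l 16731288)))) (b (a (a (b (l 16740384) (l 16736064)) (b (l 16742432) (l 16738944))) (a (b (l 16744752) (l 16742064)) (b (l 6) (b (l 16746000) (l 16745056))))) (a (a (l 16734376) (b (l 16737656) (l 16737696))) (a (b (l 16741056) (l 16741128)) (b (l 16744760) (l 16744832))))))), by decide +kernel⟩

def k14_pm_213_t : ∃ t, chk3 f_pm_213_t t 30 254 1 = true :=
  ⟨(a (b (a (b (a (b (l 16746528) (l 16731128)) (b (l 16718032) (l 16723592))) (a (b (l 16749536) (a (l 16764080) (l 16760904))) (b (l 16728936) (a (l 16757168) (l 16752976))))) (b (a (b (a (l 16731696) (l 16729672)) (a (l 16737304) (l 16722360))) (a (b (l 16730776) (l 16731352)) (l 16732472))) (a (b (l 16740752) (l 16746568)) (b (a (b (l 16732992) (l 16735368)) (l 16733280)) (a (l 16739992) (b (l 16734872) (l 16737232))))))) (a (b (a (b (a (l 16748248) (l 16766000)) (a (l 85060467623) (l 16750128))) (b (l 16739368) (l 16755256))) (a (b (b (a (a (l 462480726247) (l 16766576))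 (l 16754080)) (a (l 4) (l 16771584))) (l 4)) (b (b (l 16748944) (l 16751896)) (b (a (l 16766680) (l 16774128)) (a (l 894661815159) (l 16766352)))))) (b (a (b (l 16752384) (l 16737288)) (b (l 16744088) (l 16750432))) (b (a (b (l 16762760) (l 16766096)) (b (l 16755248) (l 16758960))) (a (b (l 16748392) (l 16751424)) (a (l 16745152) (l 16762824))))))) (b (a (b (a (l 16734856) (l 16738144)) (a (a (b (l 16734696) (l 16735408)) (l 16736568)) (l 16739032))) (a (b (l 16741584) (l 16742432)) (b (l 16745248) (l 16746024)))) (a (b (a (b (a (b (l 16737048) (l 16739480)) (l 16737736)) (a (l 16744384) (b (l 16739504) (l 16742080)))) (a (b (l 16739200) (l 16740208)) (l 16741208))) (a (b (b (l 16747464) (l 16751536)) (l 16747264)) (b (a (b (a (l 16742560) (l 16741608)) (l 16745880)) (b (l 16742368) (l 16740128))) (b (a (l 16750352) (a (l 16747600) (l 16746504))) (l 16752984))))) (b (a (l 16743704) (l 16741944)) (a (b (l 16745416) (a (b (l 16746912) (a (l 16749184) (l 16749024))) (l 16749224)))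 (b (l 16748720) (l 16751488))))))), by decide +kernel⟩

def k15_pm_213_t : ∃ t, chk3 f_pm_213_t t 30 510 1 = true :=
  ⟨(a (a (b (a (l 4) (b (b (a (l 4) (l 829163564455)) (l 4)) (l 4))) (l 4)) (b (b (a (b (a (l 16766112) (l 16773784)) (a (l 832921661223) (l 16771216))) (b (l 16748488) (l 16751488))) (a (b (a (l 4) (c (l 452280176295) (l 849027788759))) (l 4)) (a (b (l 16771192) (c (l 863523303383) (l 873186979783))) (b (l 16752960) (c (l 16766048) (l 16771248)))))) (b (a (l 4) (a (l 4) (a (l 4) (b (l 463554468071) (l 4))))) (l 4)))) (b (a (b (a (b (l 16763448) (l 16745976)) (b (l 16757216) (l 16761208))) (a (b (l 16759672) (l 16762560)) (b (l 16764936) (l 16747384)))) (b (a (a (b (l 16742192) (l 16756800)) (b (l 16751808) (a (l 16754704) (l 16754104)))) (l 16754648)) (a (b (a (l 16760904) (l 16758248)) (l 16742528)) (a (b (a (c (l 16757168) (l 16756352)) (l 16756880)) (a (l 16760408) (c (l 16759848) (l 16748672)))) (b (l 16757784) (a (l 16759288) (l 16759816))))))) (a (b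 (a (b (a (a (l 270280943255) (l 16776064)) (l 16753568)) (b (a (l 497914206759) (l 16776264)) (a (l 4) (l 323968033783)))) (b (l 16760936) (l 16763592))) (a (a (l 4) (b (b (l 1025658319063) (l 4)) (l 4))) (b (a (b (l 16766136) (a (l 573613007719) (l 16766744))) (l 16754520)) (b (a (l 1267787099223) (a (l 16771720) (l 16776560))) (a (l 4) (a (l 4) (l 415772961255))))))) (b (a (b (l 16746144) (l 16759872)) (a (b (l 16763816) (l 16767488)) (b (a (l 16751816) (a (l 16756552) (l 16761760))) (l 16755136)))) (a (b (l 16767904) (a (l 16770808) (l 16764280))) (b (l 16764688) (a (l 16773472) (l 16772160)))))))), by decide +kernel⟩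

def k16_pm_213_t : ∃ t, chk3 f_pm_213_t t 30 511 1 = true :=
  ⟨(b (a (l 4) (a (l 4) (a (b (a (b (a (b (l 508114757383) (l 4)) (b (l 16777040) (l 610120229447))) (l 4)) (b (a (b (l 16776432) (l 16774512)) (l 16776328)) (b (a (l 1432606470439) (a (l 525831498503) (l 16771832))) (l 4)))) (l 4)) (b (a (b (l 16770360) (b (l 16776744) (a (a (l 708367607415) (l 521536531447)) (l 16774608)))) (b (l 16764144) (l 16771136))) (b (a (b (b (l 1347243995479) (l 4)) (l 4)) (b (b (l 16777088) (a (l 584887299591) (l 16777128))) (b (a (l 4) (l 16774864)) (l 1656481639895)))) (l 4)))))) (l 4)), by decide +kernel⟩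

def k17_pm_213_t : ∃ t, chk3 f_pm_213_t t 31 30 1 = true :=
  ⟨(l 6), by decide +kernel⟩

def k18_pm_213_t : ∃ t, chk3 f_pm_213_t t 62 62 1 = true :=
  ⟨(l 6), by decide +kernel⟩

def k19_pm_213_t : ∃ t, chk3 f_pm_213_t t 62 126 1 = true :=
  ⟨(b (l 6) (b (b (l 6) (a (b (l 6) (a (l 16749176) (a (l 16752616) (l 6)))) (l 6))) (a (a (b (l 16748912) (l 16748936)) (b (a (l 16752360) (l 16754816)) (a (l 16752312) (l 16754712)))) (a (b (a (l 16757400) (l 16760088)) (a (l 16757200) (l 16759784))) (b (a (l 16762872) (c (l 16765912) (l 16765568))) (a (l 16762440) (c (l 16765376) (l 16764976)))))))), by decide +kernel⟩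

def k20_pm_213_t : ∃ t, chk3 f_pm_213_t t 62 254 1 = true :=
  ⟨(b (a (a (b (l 16744032) (a (l 16748912) (l 16750968))) (b (a (l 16752560) (l 16754864)) (a (l 16753096) (l 16755288)))) (a (b (a (l 16757248) (l 16759696)) (a (l 16757544) (l 16759848))) (b (a (l 16762216) (c (l 16765032) (l 16764584))) (a (c (l 16762504) (l 16761920)) (c (l 16764880) (l 16764408)))))) (a (b (a (a (l 16749968) (l 16751920)) (a (l 16753936) (l 16755992))) (a (b (a (l 16751360) (l 16753208)) (l 16754704)) (b (a (l 16755088) (l 16757008)) (l 16752840)))) (b (a (a (l 16758096) (l 16760248)) (a (c (l 16762736) (l 16762160)) (c (l 16764936) (l 16764464)))) (a (b (a (l 16758960) (l 16760960)) (a (l 16760688) (l 16762472))) (b (a (l 16760376) (b (l 16764880) (l 16765296))) (a (l 16764304) (l 16766168))))))), by decide +kernel⟩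

def k21_pm_213_t : ∃ t, chk3 f_pm_213_t t 62 510 1 = true :=
  ⟨(b (b (a (a (l 16757456) (l 16756480)) (a (a (l 16762680) (l 16764240)) (a (l 16765824) (l 16767448)))) (a (a (l 16760472) (a (l 16762328) (l 16763592))) (a (a (l 16764880) (l 16766184)) (a (l 16767528) (l 16768896))))) (a (b (a (a (b (l 16762392) (a (b (l 16763624) (l 16765216)) (l 16764400))) (l 16764272)) (a (l 16765264) (l 16766280))) (a (a (b (a (l 16767896) (b (l 16766312) (l 16767976))) (l 16770848)) (a (b (b (l 16766184) (l 16764816)) (l 16769800)) (b (l 16767072) (b (a (l 16768608) (l 16768520)) (l 16770112))))) (a (a (b (l 16767480) (a (b (l 16768704) (l 16769744)) (l 16769304))) (l 16768728)) (l 16769288)))) (a (b (a (l 16767312) (l 16768360)) (a (l 16770040) (l 16770808))) (b (a (l 16769432) (l 16767904)) (a (l 16771592) (l 16769776)))))), by decide +kernel⟩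

def k22_pm_213_t : ∃ t, chk3 f_pm_213_t t 62 511 1 = true :=
  ⟨(b (b (a (a (a (b (l 16773640) (l 16765264)) (b (l 16772648) (l 16764616))) (a (b (b (a (l 16771200) (a (l 16770896) (l 16771000))) (a (l 16772632) (l 16769664))) (l 16763960)) (b (a (b (l 16771208) (l 16770752)) (l 16771928)) (b (a (a (l 16773368) (l 16768000)) (l 16767944)) (b (a (l 16774280) (a (l 16774096) (l 16773976))) (l 16774856)))))) (a (b (l 16767360) (a (a (b (l 16773464) (l 16771656)) (l 16774088)) (l 16774376))) (a (l 16768840) (b (l 16773976) (l 16775152))))) (a (a (b (b (l 16771352) (b (l 16776968) (a (a (l 16774392) (l 16777152)) (l 16777072)))) (a (b (b (a (l 769034020839) (l 16771912)) (a (l 4) (l 689040255479))) (l 4)) (a (b (c (l 16777232) (l 16774632)) (b (a (l 832921660439) (l 16771680)) (l 4))) (l 14)))) (b (b (l 16770608) (l 14)) (l 14))) (b (b (b (a (a (a (a (l 16775160) (l 16775048)) (l 16775176)) (l 16775384)) (l 16775800)) (l 14)) (l 14)) (l 14)))) (a (a (a (l 4) (l 4)) (l 14)) (l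 14))), by decide +kernel⟩

def k23_pm_213_t : ∃ t, chk3 f_pm_213_t t 63 62 1 = true :=
  ⟨(l 6), by decide +kernel⟩

def k24_pm_213_t : ∃ t, chk3 f_pm_213_t t 63 126 1 = true :=
  ⟨(b (l 6) (b (l 6) (b (a (a (b (l 6) (a (l 16768520) (l 16771552))) (l 6)) (l 6)) (a (a (a (c (l 16768136) (l 16767872)) (c (l 16770976) (l 16770856))) (a (c (l 16771288) (l 16771304)) (c (a (l 16776168) (l 16777712)) (a (l 16776288) (l 16777896))))) (b (a (a (c (l 16775144) (l 16778088)) (b (l 6) (c (l 16780848) (l 16781288)))) (b (l 6) (a (a (a (a (c (l 16779944) (l 16783080)) (l 16779696)) (l 16778656)) (c (l 16776432) (l 16776744))) (a (c (l 16776400) (l 16776552)) (b (l 6) (c (c (l 16775080) (l 16775080)) (c (l 16775080) (l 16775080)))))))) (a (a (c (l 16777128) (l 16777392)) (c (a (l 16782112) (l 16778480)) (a (l 16782480) (l 16778912)))) (a (a (a (a (c (l 16782072) (l 16782544)) (c (l 16779216) (l 16779672))) (l 16782376)) (c (l 16778912) (l 16779200))) (c (a (c (l 16776296) (l 16776360))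 (c (a (l 16777024) (c (l 16774464) (l 16774456))) (a (l 16777040) (a (l 16774760) (l 16774768))))) (a (c (l 16776432) (l 16776504)) (c (a (l 16777048) (a (l 16774744) (l 16774736))) (a (l 16777064) (a (l 16774728) (l 16774048))))))))))))), by decide +kernel⟩

def k25_pm_213_t : ∃ t, chk3 f_pm_213_t t 126 254 1 = true :=
  ⟨(b (a (b (a (c (l 16767632) (l 16767320)) (c (l 16770320) (l 16770128))) (a (c (l 16767320) (l 16766968)) (c (l 16769824) (l 16769584)))) (b (a (c (l 16770456) (l 16770392)) (c (a (l 16775200) (l 16776640)) (a (l 16775232) (l 16776736)))) (a (c (b (l 16772560) (l 16772264)) (b (l 16772448) (l 16772128))) (c (a (l 16774376) (l 16775712)) (a (l 16774336) (l 16775736)))))) (a (b (a (c (l 16767200) (l 16766824)) (b (l 16768136) (a (l 16768752) (l 16769920)))) (b (a (b (l 16767064) (l 16767384)) (b (l 16769296) (l 16769520))) (a (c (l 16768240) (l 16767904)) (a (l 16769528) (l 16770520))))) (b (a (c (b (l 16772008) (l 16771800)) (b (l 16771848) (l 16771616)))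 (b (a (l 16773824) (l 16775112)) (c (l 16772864) (l 16772128)))) (a (a (b (b (l 16771008) (l 16771144)) (l 16771512)) (b (b (l 16772160) (l 16772248)) (l 16772520))) (b (a (b (l 16773328) (l 16773368)) (b (l 16774512) (l 16774496))) (a (l 16773544) (c (l 16774616) (l 16774528)))))))), by decide +kernel⟩

def k26_pm_213_t : ∃ t, chk3 f_pm_213_t t 254 508 1 = true :=
  ⟨(a (a (b (c (l 16775480) (l 16775640)) (b (l 16776064) (l 16775568))) (b (c (l 16776968) (l 16777848)) (c (b (l 16778728) (l 16778192)) (b (l 16778888) (l 16778312))))) (a (b (c (c (l 16775776) (l 16775920)) (c (l 16776064) (l 16776208))) (c (b (l 16780152) (l 16779560)) (c (l 16777368) (l 16777464)))) (b (b (c (l 16777744) (l 16778120)) (c (l 16777032) (l 16777352))) (c (b (l 16776352) (l 16778320)) (b (l 16776624) (l 16778544)))))), by decide +kernel⟩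

def k27_pm_213_t : ∃ t, chk3 f_pm_213_t t 510 508 1 = true :=
  ⟨(a (a (b (a (b (l 16781552) (l 16780776)) (b (c (l 16782744) (a (l 16781968) (l 16779176))) (c (l 16782552) (a (l 16773392) (l 16781336))))) (b (c (l 16777448) (l 16777768)) (c (l 16781992) (l 16777016)))) (b (b (l 16782096) (a (l 16782128) (l 16780200))) (a (a (b (c (l 16780408) (l 16780736)) (c (l 16782440) (l 16777480))) (b (l 16780392) (c (l 16781176) (l 16781464)))) (c (l 16779680) (l 16779960))))) (b (c (b (l 16778720) (l 16778544)) (b (l 16778984) (l 16780088))) (c (b (l 16779680) (c (l 16778160) (l 16778248))) (b (l 16779568) (c (l 16778344) (l 16778440)))))), by decide +kernel⟩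

def k28_pm_213_t : ∃ t, chk3 f_pm_213_t t 511 508 1 = true :=
  ⟨(a (a (b (c (b (l 16779480) (l 16779384)) (b (l 16779640) (l 16779512))) (c (b (l 16779288) (l 16779200)) (b (l 16779400) (l 16777984)))) (b (c (b (l 16778248) (l 16776888)) (b (l 16777016) (l 16776952))) (c (b (l 16777496) (c (l 16778112) (l 16778128))) (b (l 16777544) (c (l 16778144) (l 16778160)))))) (b (c (b (c (a (l 16777016) (a (l 16774808) (l 16774856))) (a (l 16777024) (a (l 16774784) (l 16774816)))) (c (a (l 16777024) (b (l 16775856) (l 16775224))) (a (l 16777016) (a (l 16774816) (l 16775208))))) (b (c (a (l 16777024) (a (l 16774760) (l 16774776))) (a (l 16777032) (a (l 16774736) (l 16774736)))) (c (a (l 16777016) (a (l 16774784) (l 16775160))) (a (l 16777016) (b (l 16775744) (l 16774456)))))) (c (b (a (c (l 16776376) (l 16775712)) (c (b (l 16775256) (c (l 16775960) (l 16775936))) (b (l 16775216) (l 16775248)))) (a (a (l 16776984) (b (l 16775456) (l 16776128))) (a (c (c (l 16775616) (l 16775592))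 (l 16775896)) (c (b (l 16775056) (l 16775104)) (b (l 16775008) (l 16775048)))))) (b (c (a (l 16775704) (b (l 16775176) (l 16775200))) (a (l 16775696) (b (l 16775128) (l 16775160)))) (a (c (l 16776368) (l 16776352)) (b (c (l 16775232) (l 16775184)) (a (l 16775848) (c (l 16774992) (l 16774936))))))))), by decide +kernel⟩

def k29_pm_213_t : ∃ t, chk3 f_pm_213_t t 254 509 1 = true :=
  ⟨(b (a (a (b (l 16775104) (l 16774680)) (c (b (l 16777696) (l 16777224)) (b (l 16777768) (l 16777264)))) (c (b (a (l 16779000) (l 16777704)) (a (l 16778472) (l 16777112))) (b (a (l 16779128) (l 16777880)) (a (l 16778560) (l 16777248))))) (a (a (b (b (l 16775704) (l 16775632)) (c (l 16775640) (l 16775592))) (b (b (l 16775936) (l 16776784)) (c (l 16776672) (l 16776672)))) (b (c (b (a (l 16778104) (l 16779320)) (a (l 16777928) (l 16779088))) (b (a (l 16778168) (l 16776808)) (a (l 16777976) (l 16779176)))) (a (c (l 16777064) (b (l 16777824) (l 16777688))) (c (c (l 16777448) (l 16777488)) (c (l 16777520)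 (l 16777560))))))), by decide +kernel⟩

def k30_pm_213_t : ∃ t, chk3 f_pm_213_t t 510 509 1 = true :=
  ⟨(b (a (a (c (b (l 16781328) (l 16780688)) (b (l 16776304) (l 16778240))) (b (a (c (l 16781832) (l 16776832)) (c (a (l 16781320) (l 16781824)) (b (l 16779616) (l 16781384)))) (b (a (l 16781440) (c (l 16780936) (a (l 16781792) (l 16781832)))) (c (l 16779864) (l 16780704))))) (a (b (c (l 16778560) (l 16778760)) (c (l 16780008) (c (l 16778504) (l 16778592)))) (c (b (l 16780144) (l 16778704)) (b (l 16777664) (l 16778824))))) (a (b (b (c (l 16779232) (l 16779392)) (c (l 16778944) (l 16777768))) (c (b (l 16778672) (l 16778416)) (b (l 16778792) (l 16778520)))) (a (b (a (a (b (c (l 16779840) (l 16780672)) (c (l 16780912) (l 16781072))) (b (l 16781064) (c (l 16780872) (l 16781032)))) (c (l 16780584) (l 16780728))) (a (a (b (l 16779368) (l 16780376)) (b (b (l 16780512) (l 16780072)) (l 16779848))) (b (l 16779224) (c (l 16779864) (a (l 16779272) (l 16780392)))))) (b (c (l 16778584)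 (l 16778688)) (c (l 16779112) (l 16779208)))))), by decide +kernel⟩

def k31_pm_213_t : ∃ t, chk3 f_pm_213_t t 1022 509 1 = true :=
  ⟨(b (c (b (a (l 16778464) (c (l 16778088) (l 16778096))) (a (c (l 16779024) (l 16779056)) (c (l 16777408) (l 16777416)))) (b (a (l 16777880) (c (l 16778104) (l 16778112))) (a (c (l 16779088) (l 16779120)) (c (l 16777416) (l 16777424))))) (b (c (a (c (l 16777648) (l 16777672)) (c (l 16777392) (l 16777392))) (a (c (l 16777696) (l 16777720)) (c (l 16777392) (l 16777392)))) (c (a (c (l 16777584) (l 16777600)) (b (l 16777384) (l 16777384))) (a (c (l 16777624) (l 16777640)) (b (l 16777376) (l 16777376)))))), by decide +kernel⟩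

def k32_pm_213_t : ∃ t, chk3 f_pm_213_t t 1023 1018 1 = true :=
  ⟨(c (b (a (c (b (l 16777072) (l 16777088)) (b (l 16777048) (l 16777064))) (c (b (c (l 16775408) (l 16775384)) (c (l 16775456) (l 16775424))) (b (c (l 16775360) (l 16775336)) (c (l 16775400) (l 16775376))))) (a (c (b (l 16777104) (l 16777120)) (b (l 16777080) (l 16777096))) (c (b (a (l 16775720) (l 16775568)) (a (l 16775760) (l 16775616))) (b (c (l 16775440) (l 16775416)) (a (l 16775712) (l 16775560)))))) (b (a (c (b (l 16777032) (l 16777040)) (b (l 16777008) (l 16777016))) (c (b (c (l 16775312) (l 16775288)) (c (l 16775352) (l 16775320))) (b (c (l 16775920) (l 16775888)) (c (l 16775296) (l 16775272))))) (a (c (b (l 16777056) (l 16777072)) (b (l 16777032) (l 16777040))) (c (b (c (l 16775392) (l 16775360)) (a (l 16775008) (l 16775168))) (b (c (l 16775336) (l 16775312)) (a (l 16774968) (l 16775112))))))), by decide +kernel⟩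

def k33_pm_213_t : ∃ t, chk3 f_pm_213_t t 1023 1019 1 = true :=
  ⟨(b (c (a (c (b (l 16777136) (l 16776504)) (b (l 16777112) (l 16777128))) (c (b (a (l 16775800) (c (l 16775360) (l 16775328))) (a (l 16775840) (c (l 16775408) (l 16775384)))) (b (a (l 16775752) (c (l 16775296) (l 16775264))) (a (l 16775792) (c (l 16775352) (l 16775320)))))) (a (c (b (l 16777088) (l 16777104)) (b (l 16777056) (l 16777072))) (a (c (b (l 16775704) (l 16775744)) (b (l 16775656) (l 16776352))) (c (b (l 16775552) (c (l 16775288) (l 16775256))) (b (l 16775488) (l 16775544)))))) (c (a (c (b (l 16776528) (l 16776552)) (b (l 16776496) (l 16776520))) (c (b (a (l 16775880) (c (l 16775792) (l 16775760))) (a (l 16775928) (c (l 16776016) (l 16775824)))) (b (a (l 16775832) (c (l 16775736) (l 16775376))) (a (l 16775880) (c (l 16775792) (l 16775760)))))) (a (c (b (l 16776472) (l 16776488)) (b (l 16776440) (l 16776464))) (a (c (b (l 16775784) (l 16775832)) (b (l 16776392) (l 16776440))) (c (b (c (l 16775344)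 (l 16775312)) (c (l 16775728) (l 16775704))) (b (c (l 16775288) (l 16775256)) (c (l 16775672) (l 16775312)))))))), by decide +kernel⟩

def k34_pm_213_t : ∃ t, chk3 f_pm_213_t t 126 510 1 = true :=
  ⟨(a (b (a (b (c (l 16769256) (l 16768960)) (a (l 16769936) (l 16770640))) (b (a (l 16770376) (l 16771232)) (a (l 16771360) (l 16772080)))) (b (a (a (l 16771360) (l 16771928)) (c (l 16771552) (l 16771408))) (a (b (l 16772800) (l 16773640)) (a (l 16773840) (l 16772952))))) (b (a (b (a (l 16772104) (c (l 16773056) (l 16772904))) (a (l 16771504) (l 16772568))) (b (a (c (l 16773928) (l 16773808)) (c (l 16774808) (l 16774720))) (a (c (l 16774352) (l 16774248)) (c (l 16775096) (l 16775016))))) (a (b (a (l 16772352) (b (l 16774072) (l 16774464))) (a (b (l 16774416) (l 16774984)) (b (l 16774896) (l 16775376)))) (b (a (c (l 16774896) (l 16774816)) (c (l 16775496) (l 16775432))) (a (b (l 16775376) (l 16775776)) (b (l 16775864) (l 16776184))))))), by decide +kernel⟩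

def k35_pm_213_t : ∃ t, chk3 f_pm_213_t t 254 510 1 = true :=
  ⟨(b (a (b (a (c (l 16775696) (l 16775648)) (c (l 16776600) (l 16776576))) (a (c (l 16775848) (l 16775792)) (c (l 16776608) (l 16775928)))) (b (a (c (b (l 16777560) (l 16777472)) (b (l 16777576) (l 16777480))) (c (a (l 16778200) (l 16777352)) (c (l 16777808) (l 16777832)))) (a (c (b (l 16777408) (l 16777360)) (b (l 16777408) (l 16777360))) (c (b (l 16778216) (l 16778096)) (b (l 16778248) (l 16778120)))))) (a (b (a (c (l 16776104) (l 16776056)) (b (l 16776664) (l 16776744))) (b (a (l 16776360) (l 16776864)) (a (l 16776592) (l 16776352)))) (b (a (c (b (l 16777336) (l 16777336)) (b (l 16777336) (l 16777336))) (c (b (l 16778000) (l 16777928)) (b (l 16778016) (l 16777936)))) (a (c (b (l 16777368) (l 16777432)) (b (l 16777368) (l 16777432))) (c (b (l 16777872) (l 16777848)) (b (l 16777888) (l 16777864))))))), by decide +kernel⟩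

def k36_pm_213_t : ∃ t, chk3 f_pm_213_t t 510 510 1 = true :=
  ⟨(b (a (b (c (b (l 16778168) (l 16777944)) (b (l 16778256) (l 16778016))) (c (b (l 16778384) (l 16778192)) (b (l 16777792) (l 16778240)))) (b (a (a (c (l 16778640) (l 16778736)) (a (b (c (l 16780264) (l 16780376)) (l 16778728)) (b (c (l 16780192) (l 16780304)) (c (l 16779392) (l 16779488))))) (c (c (l 16778320) (l 16778360)) (b (l 16777144) (l 16777080)))) (a (b (c (l 16779016) (l 16779096)) (c (l 16779416) (l 16779480))) (a (a (b (c (l 16779168) (l 16779248)) (c (l 16778992) (l 16779064))) (b (l 16779704) (c (l 16779584) (l 16778344)))) (c (l 16778696) (l 16778096)))))) (b (a (c (b (l 16778016) (l 16778024)) (b (l 16778056) (l 16778056))) (a (c (b (l 16779184) (l 16778968)) (b (l 16779232) (l 16779008))) (a (b (a (l 16778768) (b (a (l 16779560) (l 16779536)) (l 16779120))) (c (l 16779192) (l 16779240))) (b (c (l 16777960) (l 16778016)) (a (c (c (l 16778912) (l 16778936)) (c (l 16778960) (l 16778992))) (l 16779160))))))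 (b (a (c (a (l 16778256) (l 16778512)) (a (l 16778280) (l 16778544))) (a (c (l 16778776) (l 16778808)) (a (c (l 16778968) (l 16779008)) (c (a (l 16779064) (c (l 16778800) (l 16778824))) (a (l 16779112) (b (l 16779136) (l 16778424))))))) (b (a (c (l 16778304) (l 16778328)) (a (l 16778328) (a (l 16778832) (c (l 16778928) (l 16778968))))) (a (c (l 16778256) (l 16778272)) (c (l 16778336) (l 16778368))))))), by decide +kernel⟩

def k37_pm_213_t : ∃ t, chk3 f_pm_213_t t 1022 510 1 = true :=
  ⟨(b (b (c (a (c (l 16778176) (l 16778192)) (b (l 16777544) (c (l 16778040) (l 16778032)))) (a (b (l 16777584) (l 16777552)) (b (l 16777528) (a (l 16778232) (l 16777808))))) (c (a (b (l 16777488) (l 16778112)) (b (c (l 16778040) (l 16778032)) (c (l 16777384) (l 16777376)))) (a (b (l 16777512) (l 16778144)) (b (c (l 16778024) (l 16778016)) (c (l 16777368) (l 16776704)))))) (a (b (c (b (l 16778088) (l 16778064)) (b (l 16778112) (l 16778080))) (b (c (l 16778200) (l 16778216)) (a (a (b (l 16778584)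 (a (l 16778568) (l 16778856))) (l 16778424)) (c (l 16778504) (l 16778520))))) (a (b (c (b (l 16778208) (l 16778208)) (b (l 16778208) (l 16778200))) (c (b (l 16778200) (l 16778200)) (b (l 16778192) (l 16778192)))) (b (c (b (l 16777856) (l 16777864)) (b (l 16777832) (l 16777840))) (c (b (l 16777880) (l 16777560)) (b (l 16777856) (l 16777536))))))), by decide +kernel⟩

def k38_pm_213_t : ∃ t, chk3 f_pm_213_t t 1023 1020 1 = true :=
  ⟨(b (b (c (a (c (a (l 16777432) (l 16776376)) (l 16776712)) (c (a (l 16776296) (b (l 16775880) (l 16775912))) (a (l 16776248) (b (l 16775824) (l 16775848))))) (a (c (l 16776512) (l 16776488)) (c (a (l 16776528) (c (l 16775792) (l 16775760))) (a (l 16776480) (c (l 16775736) (l 16776032)))))) (c (a (a (l 16777440) (c (l 16777064) (l 16777024))) (c (a (l 16776344) (a (l 16776048) (a (l 16775904) (l 16775928)))) (a (l 16776624) (b (l 16775880) (l 16775912))))) (a (a (l 16777392) (a (l 16776424) (l 16776544))) (c (a (l 16776576) (b (l 16775824) (l 16775856)))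 (a (l 16776536) (b (l 16775768) (l 16775800))))))) (c (a (b (a (l 16777456) (a (l 16776520) (l 16776656))) (a (l 16777480) (a (l 16776880) (l 16776696)))) (b (c (a (c (l 16776400) (l 16776056)) (a (l 16776272) (b (l 16775904) (l 16775936)))) (a (c (l 16776032) (l 16776664)) (a (l 16776056) (b (l 16775848) (l 16775880))))) (c (a (c (l 16776776) (l 16776760)) (c (b (l 16776080) (l 16776112)) (b (l 16776048) (l 16776080)))) (a (c (l 16776736) (l 16776712)) (c (b (l 16776024) (l 16776056)) (b (l 16775992) (l 16776032))))))) (a (b (a (l 16777408) (a (l 16776456) (l 16776584))) (a (l 16777432) (a (l 16776816) (l 16776624)))) (b (c (a (l 16776304) (a (l 16776000) (a (l 16775856) (l 16775920)))) (a (l 16776256) (b (l 16775832) (l 16775864)))) (c (a (c (l 16776688) (l 16776672)) (a (l 16776232) (b (l 16775856) (l 16775896)))) (a (c (l 16776648) (l 16776624)) (a (l 16776176) (b (l 16775800) (l 16775840))))))))), by decide +kernel⟩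

def k39_pm_213_t : ∃ t, chk3 f_pm_213_t t 1023 2042 1 = true :=
  ⟨(c (a (a (b (l 16777176) (c (l 16777536) (l 16777520))) (b (c (l 16777168) (l 16777136)) (c (l 16777208) (l 16777176)))) (b (c (a (c (l 16776504) (l 16776808)) (c (b (l 16776144) (l 16776176)) (b (l 16776112) (l 16776152)))) (a (c (l 16776784) (l 16776768)) (c (b (l 16776088) (l 16776120)) (b (l 16776064) (l 16776096))))) (b (a (c (l 16776856) (l 16776816)) (a (b (l 16776408) (l 16776424)) (c (l 16776272) (l 16776224)))) (c (a (l 16776888) (a (l 16776312) (l 16776312))) (a (l 16776848) (a (l 16776264) (l 16776256))))))) (a (a (b (l 16777128) (c (l 16777496) (l 16777472))) (b (c (l 16777104) (l 16777072)) (c (l 16777144) (l 16777112)))) (b (c (a (c (l 16776744) (l 16776728)) (c (b (l 16776040) (l 16776072)) (b (l 16776008) (l 16776048)))) (a (c (l 16776704) (l 16776680)) (c (b (l 16776312) (l 16776344)) (b (l 16776288) (l 16776320))))) (c (a (a (l 16776552) (l 16776376)) (c (b (l 16776432) (l 16776304)) (b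 (l 16776408) (l 16776120)))) (a (c (l 16776432) (l 16776416)) (c (b (l 16776384) (l 16776096)) (b (l 16776360) (l 16776400)))))))), by decide +kernel⟩

def k40_pm_213_t : ∃ t, chk3 f_pm_213_t t 1023 2043 1 = true :=
  ⟨(c (a (a (b (c (l 16777560) (l 16777544)) (c (l 16777592) (l 16777568))) (b (c (l 16777080) (l 16776888)) (a (l 16777344) (a (l 16777064) (l 16776992))))) (b (b (c (a (l 16776912) (a (l 16776344) (a (l 16776552) (l 16776304)))) (a (l 16776872) (a (l 16776296) (l 16776336)))) (c (a (l 16776936) (a (l 16776376) (a (l 16776584) (l 16776344)))) (a (l 16776904) (a (l 16776328) (a (l 16776536) (l 16776296)))))) (a (b (c (l 16776968) (l 16776928)) (c (l 16776664) (l 16776960))) (c (b (a (l 16776408) (a (l 16776456) (l 16776376))) (a (l 16776600) (a (l 16776488) (l 16776416)))) (a (b (l 16776368) (l 16776400)) (c (b (l 16776384) (l 16776424)) (b (l 16776360) (l 16776400)))))))) (a (b (c (a (l 16777520) (l 16776856)) (a (l 16777504) (l 16776832))) (a (c (l 16777552)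 (l 16777528)) (b (l 16777040) (a (l 16777312) (l 16777144))))) (b (b (c (a (l 16776832) (a (l 16776248) (l 16776248))) (a (l 16776792) (c (l 16776296) (l 16776272)))) (c (a (l 16776864) (a (l 16776288) (l 16776368))) (a (l 16776824) (a (l 16776240) (l 16776240))))) (a (b (c (l 16776896) (l 16776856)) (c (l 16776928) (l 16776888))) (a (b (c (l 16776320) (l 16776280)) (c (l 16776360) (l 16776320))) (c (c (b (l 16776176) (l 16776376)) (b (l 16776152) (l 16776352))) (c (b (l 16776128) (l 16776328)) (b (l 16776104) (l 16776144))))))))), by decide +kernel⟩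

def k41_pm_213_t : ∃ t, chk3 f_pm_213_t t 63 4088 1 = true :=
  ⟨(a (a (a (l 16774560) (l 16772528)) (a (a (l 16775608) (l 16775912)) (a (l 16776232) (l 16776544)))) (a (a (a (l 16776872) (c (l 16777200) (l 16777200))) (a (c (l 16777528) (l 16777536)) (c (l 16777856) (l 16777872)))) (a (a (c (a (l 16778112) (l 16778280)) (a (l 16778128) (l 16778304))) (c (a (l 16778456) (l 16778296)) (a (l 16778472) (l 16778320)))) (a (b (a (a (a (a (l 16778792) (l 16778640)) (l 16778400)) (l 16778176)) (c (l 16777720) (l 16777704))) (a (a (a (l 16778696) (c (l 16778352) (l 16778368))) (l 16778168)) (c (c (l 16777400) (l 16777392)) (c (l 16777384) (l 16777384))))) (c (a (c (a (l 16777288) (a (l 16777400) (l 16777256))) (a (l 16777272) (b (l 16777288) (l 16777312)))) (a (b (c (l 16776856) (l 16776824)) (a (l 16776944) (a (l 16776832) (l 16776760)))) (a (b (c (l 16776640) (l 16776600)) (c (l 16776672) (l 16776632))) (c (c (b (l 16776504) (l 16776624)) (b (l 16776480) (l 16776600))) (c (b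 (l 16776456) (l 16776576)) (b (l 16776440) (l 16776480))))))) (a (c (a (l 16777256) (c (l 16777120) (l 16776944))) (a (l 16777232) (c (l 16776928) (l 16776920)))) (c (a (b (l 16776624) (l 16776824)) (a (b (l 16776560) (l 16776600)) (c (b (l 16776416) (l 16776456)) (b (l 16776392) (l 16776440))))) (a (b (l 16776592) (l 16776792)) (a (b (l 16776360) (l 16776560)) (c (b (l 16776376) (l 16776416)) (b (l 16776352) (l 16776392)))))))))))), by decide +kernel⟩

def k42_pm_213_t : ∃ t, chk3 f_pm_213_t t 63 4089 1 = true :=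
  ⟨(a (a (a (l 16775560) (l 16773352)) (a (a (l 16776296) (l 16776520)) (c (l 16775536) (l 16775552)))) (a (a (a (l 16777200) (c (l 16777424) (l 16777440))) (a (c (l 16777664) (l 16777680)) (c (l 16777248) (l 16777264)))) (a (a (c (a (l 16778088) (l 16778208)) (a (l 16778104) (l 16778224))) (c (a (l 16777680) (l 16778216)) (a (l 16777696) (l 16778232)))) (a (a (b (a (a (l 16778592) (c (l 16778288) (l 16778312))) (c (l 16777816) (l 16777832))) (a (l 16778192) (a (a (a (l 16778552) (l 16778376)) (l 16778336)) (l 16778400)))) (a (c (l 16777864) (l 16777864)) (c (c (l 16777920) (l 16777912)) (c (l 16777904) (l 16777896))))) (b (c (a (a (l 16777632) (a (l 16777416) (l 16777272))) (a (a (l 16777136) (a (l 16776864) (l 16776792))) (a (c (l 16776704) (l 16776672)) (b (c (l 16776560) (l 16776520)) (c (l 16776576) (l 16776536)))))) (a (a (l 16777600) (a (l 16777376) (l 16777224))) (a (a (l 16777080) (a (l 16776800) (l 16776728))) (a (c (l 16776632) (l 16776600)) (b (c (l 16776480)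 (l 16776440)) (c (l 16776496) (l 16776464))))))) (c (a (a (l 16777640) (a (l 16777440) (l 16777296))) (a (a (l 16777160) (a (l 16776896) (l 16776904))) (a (c (l 16776824) (l 16776792)) (b (c (l 16776680) (l 16776640)) (c (l 16776696) (l 16776656)))))) (a (a (l 16777616) (a (l 16777400) (l 16777256))) (a (a (l 16777112) (a (l 16776840) (l 16776848))) (a (c (l 16776752) (l 16776800)) (b (c (l 16776520) (l 16776480)) (c (l 16776624) (l 16776584)))))))))))), by decide +kernel⟩

def k43_pm_213_t : ∃ t, chk3 f_pm_213_t t 63 2045 1 = true :=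
  ⟨(b (b (b (a (a (a (l 16776232) (l 16776536)) (a (l 16776848) (l 16777176))) (b (a (a (a (l 16777408) (l 16777592)) (a (l 16777776) (l 16777960))) (b (b (a (a (l 16777824) (c (l 16778336) (l 16778352))) (a (a (a (l 16778472) (a (l 16778504) (l 16778400))) (c (l 16777400) (l 16777392))) (a (c (c (l 16776872) (l 16776848)) (c (l 16776832) (l 16776816))) (a (c (l 16776944) (l 16776888)) (c (c (l 16776688) (l 16776656)) (c (l 16776624) (l 16776592))))))) (l 14)) (l 14))) (l 14))) (l 14)) (l 14)) (l 14)), by decide +kernel⟩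

def k44_pm_213_t : ∃ t, chk3 f_pm_213_t t 63 1023 1 = true :=
  ⟨(l 14), by decide +kernel⟩

theorem s45_pm_213_t : ∃ t, chk3 f_pm_213_t t 63 2044 1 = true := ex3_b k41_pm_213_t k42_pm_213_t

theorem s46_pm_213_t : ∃ t, chk3 f_pm_213_t t 63 1022 1 = true := ex3_b s45_pm_213_t k43_pm_213_t

theorem s47_pm_213_t : ∃ t, chk3 f_pm_213_t t 63 511 1 = true := ex3_b s46_pm_213_t k44_pm_213_t

theorem s48_pm_213_t : ∃ t, chk3 f_pm_213_t t 1023 1021 1 = true := ex3_b k39_pm_213_t k40_pm_213_t

theorem s49_pm_213_t : ∃ t, chk3 f_pm_213_t t 1023 510 1 = true := ex3_b k38_pm_213_t s48_pm_213_t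

theorem s50_pm_213_t : ∃ t, chk3 f_pm_213_t t 511 510 1 = true := ex3_a k37_pm_213_t s49_pm_213_t

theorem s51_pm_213_t : ∃ t, chk3 f_pm_213_t t 255 510 1 = true := ex3_a k36_pm_213_t s50_pm_213_t

theorem s52_pm_213_t : ∃ t, chk3 f_pm_213_t t 127 510 1 = true := ex3_a k35_pm_213_t s51_pm_213_t

theorem s53_pm_213_t : ∃ t, chk3 f_pm_213_t t 63 510 1 = true := ex3_a k34_pm_213_t s52_pm_213_t

theorem s54_pm_213_t : ∃ t, chk3 f_pm_213_t t 63 255 1 = true := ex3_b s53_pm_213_t s47_pm_213_t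

theorem s55_pm_213_t : ∃ t, chk3 f_pm_213_t t 1023 509 1 = true := ex3_b k32_pm_213_t k33_pm_213_t

theorem s56_pm_213_t : ∃ t, chk3 f_pm_213_t t 511 509 1 = true := ex3_a k31_pm_213_t s55_pm_213_t

theorem s57_pm_213_t : ∃ t, chk3 f_pm_213_t t 255 509 1 = true := ex3_a k30_pm_213_t s56_pm_213_t

theorem s58_pm_213_t : ∃ t, chk3 f_pm_213_t t 127 509 1 = true := ex3_a k29_pm_213_t s57_pm_213_t

theorem s59_pm_213_t : ∃ t, chk3 f_pm_213_t t 255 508 1 = true := ex3_a k27_pm_213_t k28_pm_213_t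

theorem s60_pm_213_t : ∃ t, chk3 f_pm_213_t t 127 508 1 = true := ex3_a k26_pm_213_t s59_pm_213_t

theorem s61_pm_213_t : ∃ t, chk3 f_pm_213_t t 127 254 1 = true := ex3_b s60_pm_213_t s58_pm_213_t

theorem s62_pm_213_t : ∃ t, chk3 f_pm_213_t t 63 254 1 = true := ex3_a k25_pm_213_t s61_pm_213_t

theorem s63_pm_213_t : ∃ t, chk3 f_pm_213_t t 63 127 1 = true := ex3_b s62_pm_213_t s54_pm_213_t

theorem s64_pm_213_t : ∃ t, chk3 f_pm_213_t t 63 63 1 = true := ex3_b k24_pm_213_t s63_pm_213_t

theorem s65_pm_213_t : ∃ t, chk3 f_pm_213_t t 63 31 1 = true := ex3_b k23_pm_213_t s64_pm_213_t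

theorem s66_pm_213_t : ∃ t, chk3 f_pm_213_t t 62 255 1 = true := ex3_b k21_pm_213_t k22_pm_213_t

theorem s67_pm_213_t : ∃ t, chk3 f_pm_213_t t 62 127 1 = true := ex3_b k20_pm_213_t s66_pm_213_t

theorem s68_pm_213_t : ∃ t, chk3 f_pm_213_t t 62 63 1 = true := ex3_b k19_pm_213_t s67_pm_213_t

theorem s69_pm_213_t : ∃ t, chk3 f_pm_213_t t 62 31 1 = true := ex3_b k18_pm_213_t s68_pm_213_t

theorem s70_pm_213_t : ∃ t, chk3 f_pm_213_t t 31 31 1 = true := ex3_a s69_pm_213_t s65_pm_213_t

theorem s71_pm_213_t : ∃ t, chk3 f_pm_213_t t 31 15 1 = true := ex3_b k17_pm_213_t s70_pm_213_t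

theorem s72_pm_213_t : ∃ t, chk3 f_pm_213_t t 30 255 1 = true := ex3_b k15_pm_213_t k16_pm_213_t

theorem s73_pm_213_t : ∃ t, chk3 f_pm_213_t t 30 127 1 = true := ex3_b k14_pm_213_t s72_pm_213_t

theorem s74_pm_213_t : ∃ t, chk3 f_pm_213_t t 30 63 1 = true := ex3_b k13_pm_213_t s73_pm_213_t

theorem s75_pm_213_t : ∃ t, chk3 f_pm_213_t t 30 31 1 = true := ex3_b k12_pm_213_t s74_pm_213_t

theorem s76_pm_213_t : ∃ t, chk3 f_pm_213_t t 30 15 1 = true := ex3_b k11_pm_213_t s75_pm_213_t

theorem s77_pm_213_t : ∃ t, chk3 f_pm_213_t t 15 15 1 = true := ex3_a s76_pm_213_t s71_pm_213_t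

theorem s78_pm_213_t : ∃ t, chk3 f_pm_213_t t 15 7 1 = true := ex3_b k10_pm_213_t s77_pm_213_t

theorem s79_pm_213_t : ∃ t, chk3 f_pm_213_t t 29 63 1 = true := ex3_b k8_pm_213_t k9_pm_213_t

theorem s80_pm_213_t : ∃ t, chk3 f_pm_213_t t 29 31 1 = true := ex3_b k7_pm_213_t s79_pm_213_t

theorem s81_pm_213_t : ∃ t, chk3 f_pm_213_t t 29 15 1 = true := ex3_b k6_pm_213_t s80_pm_213_t

theorem s82_pm_213_t : ∃ t, chk3 f_pm_213_t t 14 15 1 = true := ex3_a k5_pm_213_t s81_pm_213_t

theorem s83_pm_213_t : ∃ t, chk3 f_pm_213_t t 14 7 1 = true := ex3_b k4_pm_213_t s82_pm_213_t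

theorem s84_pm_213_t : ∃ t, chk3 f_pm_213_t t 7 7 1 = true := ex3_a s83_pm_213_t s78_pm_213_t

theorem s85_pm_213_t : ∃ t, chk3 f_pm_213_t t 7 3 1 = true := ex3_b k3_pm_213_t s84_pm_213_t

theorem s86_pm_213_t : ∃ t, chk3 f_pm_213_t t 3 3 1 = true := ex3_a k2_pm_213_t s85_pm_213_t

theorem s87_pm_213_t : ∃ t, chk3 f_pm_213_t t 3 1 1 = true := ex3_b k1_pm_213_t s86_pm_213_t

theorem s88_pm_213_t : ∃ t, chk3 f_pm_213_t t 1 1 1 = true := ex3_a k0_pm_213_t s87_pm_213_t

theorem c_pm_213_t : CertNE 0 536870912 536870912 536870912 1033476505 6710887 3 eng mog cd0q2 cd0q1 pd3 true true false .pnn 2 1 3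
    ndB0q2 ndB0q1 pcB3 cut_pm_213_t Ext.none :=
  certNE1 (fam := true) (s1 := true) (s2 := false) (a := 2) (b := 1) (c := 3) (cn := .pnn) (n1 := ndB0q2) (n2 := ndB0q1) (pc := pcB3) (cut := cut_pm_213_t) (xt := Ext.none) (P1 := 0) (W1 := 536870912) (P2 := 536870912) (W2 := 536870912) (P3 := 1033476505) (W3 := 6710887) (N0 := 3) (En := eng) (mo := mog) (C1 := cd0q2) (C2 := cd0q1) (C3 := pd3)
    rfl (fun _ => rfl) s88_pm_213_t

noncomputable def cut_mm_001_s : Cut := Cut.of [[⟨4, 0, 0, 1449551462⟩]]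

noncomputable def f_mm_001_s : ℕ → ℕ → ℕ → ℕ → Bool := onCell 0 536870912 0 536870912 1033476505 6710887
    (rowNE 3 eng mog cd0q0 cd0q0 pd1 0 true false false .up 0 0 1 (qsf 0 536870912 0 536870912 1) ndB0q0 ndB0q0 pcB1 cut_mm_001_s Ext.none)

def k0_mm_001_s : ∃ t, chk3 f_mm_001_s t 1 1 1 = true :=
  ⟨(l 4), by decide +kernel⟩

theorem c_mm_001_s : CertNE 0 536870912 0 536870912 1033476505 6710887 3 eng mog cd0q0 cd0q0 pd1 true false false .up 0 0 1
    ndB0q0 ndB0q0 pcB1 cut_mm_001_s Ext.none :=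
  certNE0 (fam := true) (s1 := false) (s2 := false) (a := 0) (b := 0) (c := 1) (cn := .up) (n1 := ndB0q0) (n2 := ndB0q0) (pc := pcB1) (cut := cut_mm_001_s) (xt := Ext.none) (P1 := 0) (W1 := 536870912) (P2 := 0) (W2 := 536870912) (P3 := 1033476505) (W3 := 6710887) (N0 := 3) (En := eng) (mo := mog) (C1 := cd0q0) (C2 := cd0q0) (C3 := pd1)
    rfl k0_mm_001_s

noncomputable def cut_mm_001_t : Cut := Cut.of [[⟨3, 0, 0, 2845415833⟩]]

noncomputable def f_mm_001_t : ℕ → ℕ → ℕ → ℕ → Bool := onCell 0 536870912 0 536870912 1033476505 6710887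
    (rowNE 3 eng mog cd0q0 cd0q0 pd1 0 true false false .up 0 0 1 (qsf 0 536870912 0 536870912 1) ndB0q0 ndB0q0 pcB1 cut_mm_001_t Ext.none)

def k0_mm_001_t : ∃ t, chk3 f_mm_001_t t 1 1 1 = true :=
  ⟨(l 4), by decide +kernel⟩

theorem c_mm_001_t : CertNE 0 536870912 0 536870912 1033476505 6710887 3 eng mog cd0q0 cd0q0 pd1 true false false .up 0 0 1
    ndB0q0 ndB0q0 pcB1 cut_mm_001_t Ext.none :=
  certNE0 (fam := true) (s1 := false) (s2 := false) (a := 0) (b := 0) (c := 1) (cn := .up) (n1 := ndB0q0) (n2 := ndB0q0) (pc := pcB1) (cut := cut_mm_001_t) (xt := Ext.none) (P1 := 0) (W1 := 536870912) (P2 := 0) (W2 := 536870912) (P3 := 1033476505) (W3 := 6710887) (N0 := 3) (En := eng) (mo := mog) (C1 := cd0q0) (C2 := cd0q0) (C3 := pd1)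
    rfl k0_mm_001_t

noncomputable def cut_mm_011_s : Cut := Cut.of [[⟨4, 0, 0, 1449551462⟩]]

noncomputable def f_mm_011_s : ℕ → ℕ → ℕ → ℕ → Bool := onCell 0 536870912 536870912 536870912 1033476505 6710887
    (rowNE 3 eng mog cd0q0 cd0q1 pd1 0 true false false .pnn 0 1 1 (qsf 0 536870912 536870912 536870912 1) ndB0q0 ndB0q1 pcB1 cut_mm_011_s Ext.none)

def k0_mm_011_s : ∃ t, chk3 f_mm_011_s t 1 1 1 = true :=
  ⟨(l 6), by decide +kernel⟩

theorem c_mm_011_s : CertNE 0 536870912 536870912 536870912 1033476505 6710887 3 eng mog cd0q0 cd0q1 pd1 true false false .pnn 0 1 1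
    ndB0q0 ndB0q1 pcB1 cut_mm_011_s Ext.none :=
  certNE0 (fam := true) (s1 := false) (s2 := false) (a := 0) (b := 1) (c := 1) (cn := .pnn) (n1 := ndB0q0) (n2 := ndB0q1) (pc := pcB1) (cut := cut_mm_011_s) (xt := Ext.none) (P1 := 0) (W1 := 536870912) (P2 := 536870912) (W2 := 536870912) (P3 := 1033476505) (W3 := 6710887) (N0 := 3) (En := eng) (mo := mog) (C1 := cd0q0) (C2 := cd0q1) (C3 := pd1)
    rfl k0_mm_011_s

noncomputable def cut_mm_011_t : Cut := Cut.of [[⟨3, 0, 0, 2845415833⟩]]

noncomputable def f_mm_011_t : ℕ → ℕ → ℕ → ℕ → Bool := onCell 0 536870912 536870912 536870912 1033476505 6710887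
    (rowNE 3 eng mog cd0q0 cd0q1 pd1 0 true false false .pnn 0 1 1 (qsf 0 536870912 536870912 536870912 1) ndB0q0 ndB0q1 pcB1 cut_mm_011_t Ext.none)

def k0_mm_011_t : ∃ t, chk3 f_mm_011_t t 1 1 1 = true :=
  ⟨(a (l 5) (l 4)), by decide +kernel⟩

theorem c_mm_011_t : CertNE 0 536870912 536870912 536870912 1033476505 6710887 3 eng mog cd0q0 cd0q1 pd1 true false false .pnn 0 1 1
    ndB0q0 ndB0q1 pcB1 cut_mm_011_t Ext.none :=
  certNE0 (fam := true) (s1 := false) (s2 := false) (a := 0) (b := 1) (c := 1) (cn := .pnn) (n1 := ndB0q0) (n2 := ndB0q1) (pc := pcB1) (cut := cut_mm_011_t) (xt := Ext.none) (P1 := 0) (W1 := 536870912) (P2 := 536870912) (W2 := 536870912) (P3 := 1033476505) (W3 := 6710887) (N0 := 3) (En := eng) (mo := mog) (C1 := cd0q0) (C2 := cd0q1) (C3 := pd1)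
    rfl k0_mm_011_t

noncomputable def cut_mm_012_s : Cut := Cut.of [[⟨4, 0, 0, 1449551462⟩]]

noncomputable def f_mm_012_s : ℕ → ℕ → ℕ → ℕ → Bool := onCell 0 536870912 536870912 536870912 1033476505 6710887
    (rowNE 3 eng mog cd0q0 cd0q1 pd2 0 true false false .pnp 0 1 2 (qsf 0 536870912 536870912 536870912 2) ndB0q0 ndB0q1 pcB2 cut_mm_012_s Ext.none)

def k0_mm_012_s : ∃ t, chk3 f_mm_012_s t 1 1 1 = true :=
  ⟨(l 6), by decide +kernel⟩

theorem c_mm_012_s : CertNE 0 536870912 536870912 536870912 1033476505 6710887 3 eng mog cd0q0 cd0q1 pd2 true false false .pnp 0 1 2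
    ndB0q0 ndB0q1 pcB2 cut_mm_012_s Ext.none :=
  certNE0 (fam := true) (s1 := false) (s2 := false) (a := 0) (b := 1) (c := 2) (cn := .pnp) (n1 := ndB0q0) (n2 := ndB0q1) (pc := pcB2) (cut := cut_mm_012_s) (xt := Ext.none) (P1 := 0) (W1 := 536870912) (P2 := 536870912) (W2 := 536870912) (P3 := 1033476505) (W3 := 6710887) (N0 := 3) (En := eng) (mo := mog) (C1 := cd0q0) (C2 := cd0q1) (C3 := pd2)
    rfl k0_mm_012_s

noncomputable def cut_mm_012_t : Cut := Cut.of [[⟨3, 0, 0, 2845415833⟩]]

noncomputable def f_mm_012_t : ℕ → ℕ → ℕ → ℕ → Bool := onCell 0 536870912 536870912 536870912 1033476505 6710887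
    (rowNE 3 eng mog cd0q0 cd0q1 pd2 0 true false false .pnp 0 1 2 (qsf 0 536870912 536870912 536870912 2) ndB0q0 ndB0q1 pcB2 cut_mm_012_t Ext.none)

def k0_mm_012_t : ∃ t, chk3 f_mm_012_t t 1 1 1 = true :=
  ⟨(a (l 5) (l 4)), by decide +kernel⟩

theorem c_mm_012_t : CertNE 0 536870912 536870912 536870912 1033476505 6710887 3 eng mog cd0q0 cd0q1 pd2 true false false .pnp 0 1 2
    ndB0q0 ndB0q1 pcB2 cut_mm_012_t Ext.none :=
  certNE0 (fam := true) (s1 := false) (s2 := false) (a := 0) (b := 1) (c := 2) (cn := .pnp) (n1 := ndB0q0) (n2 := ndB0q1) (pc := pcB2) (cut := cut_mm_012_t) (xt := Ext.none) (P1 := 0) (W1 := 536870912) (P2 := 536870912) (W2 := 536870912) (P3 := 1033476505) (W3 := 6710887) (N0 := 3) (En := eng) (mo := mog) (C1 := cd0q0) (C2 := cd0q1) (C3 := pd2)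
    rfl k0_mm_012_t

noncomputable def cut_mm_022_s : Cut := Cut.of [[⟨4, 0, 0, 1449551462⟩]]

noncomputable def f_mm_022_s : ℕ → ℕ → ℕ → ℕ → Bool := onCell 0 536870912 0 536870912 1033476505 6710887
    (rowNE 3 eng mog cd0q0 cd0q2 pd2 0 true false false .pp 0 2 2 (qsf 0 536870912 0 536870912 2) ndB0q0 ndB0q2 pcB2 cut_mm_022_s Ext.none)

def k0_mm_022_s : ∃ t, chk3 f_mm_022_s t 1 1 1 = true :=
  ⟨(l 5), by decide +kernel⟩

theorem c_mm_022_s : CertNE 0 536870912 0 536870912 1033476505 6710887 3 eng mog cd0q0 cd0q2 pd2 true false false .pp 0 2 2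
    ndB0q0 ndB0q2 pcB2 cut_mm_022_s Ext.none :=
  certNE0 (fam := true) (s1 := false) (s2 := false) (a := 0) (b := 2) (c := 2) (cn := .pp) (n1 := ndB0q0) (n2 := ndB0q2) (pc := pcB2) (cut := cut_mm_022_s) (xt := Ext.none) (P1 := 0) (W1 := 536870912) (P2 := 0) (W2 := 536870912) (P3 := 1033476505) (W3 := 6710887) (N0 := 3) (En := eng) (mo := mog) (C1 := cd0q0) (C2 := cd0q2) (C3 := pd2)
    rfl k0_mm_022_s

noncomputable def cut_mm_022_t : Cut := Cut.of [[⟨3, 0, 0, 2845415833⟩]]

noncomputable def f_mm_022_t : ℕ → ℕ → ℕ → ℕ → Bool := onCell 0 536870912 0 536870912 1033476505 6710887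
    (rowNE 3 eng mog cd0q0 cd0q2 pd2 0 true false false .pp 0 2 2 (qsf 0 536870912 0 536870912 2) ndB0q0 ndB0q2 pcB2 cut_mm_022_t Ext.none)

def k0_mm_022_t : ∃ t, chk3 f_mm_022_t t 1 1 1 = true :=
  ⟨(l 5), by decide +kernel⟩

theorem c_mm_022_t : CertNE 0 536870912 0 536870912 1033476505 6710887 3 eng mog cd0q0 cd0q2 pd2 true false false .pp 0 2 2
    ndB0q0 ndB0q2 pcB2 cut_mm_022_t Ext.none :=
  certNE0 (fam := true) (s1 := false) (s2 := false) (a := 0) (b := 2) (c := 2) (cn := .pp) (n1 := ndB0q0) (n2 := ndB0q2) (pc := pcB2) (cut := cut_mm_022_t) (xt := Ext.none) (P1 := 0) (W1 := 536870912) (P2 := 0) (W2 := 536870912) (P3 := 1033476505) (W3 := 6710887) (N0 := 3) (En := eng) (mo := mog) (C1 := cd0q0) (C2 := cd0q2) (C3 := pd2)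
    rfl k0_mm_022_t

noncomputable def cut_mm_023_s : Cut := Cut.of [[⟨4, 0, 0, 1449551462⟩]]

noncomputable def f_mm_023_s : ℕ → ℕ → ℕ → ℕ → Bool := onCell 0 536870912 0 536870912 1033476505 6710887
    (rowNE 3 eng mog cd0q0 cd0q2 pd3 0 true false false .up 0 2 3 (qsf 0 536870912 0 536870912 3) ndB0q0 ndB0q2 pcB3 cut_mm_023_s Ext.none)

def k0_mm_023_s : ∃ t, chk3 f_mm_023_s t 1 1 1 = true :=
  ⟨(l 5), by decide +kernel⟩

theorem c_mm_023_s : CertNE 0 536870912 0 536870912 1033476505 6710887 3 eng mog cd0q0 cd0q2 pd3 true false false .up 0 2 3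
    ndB0q0 ndB0q2 pcB3 cut_mm_023_s Ext.none :=
  certNE0 (fam := true) (s1 := false) (s2 := false) (a := 0) (b := 2) (c := 3) (cn := .up) (n1 := ndB0q0) (n2 := ndB0q2) (pc := pcB3) (cut := cut_mm_023_s) (xt := Ext.none) (P1 := 0) (W1 := 536870912) (P2 := 0) (W2 := 536870912) (P3 := 1033476505) (W3 := 6710887) (N0 := 3) (En := eng) (mo := mog) (C1 := cd0q0) (C2 := cd0q2) (C3 := pd3)
    rfl k0_mm_023_s

noncomputable def cut_mm_023_t : Cut := Cut.of [[⟨3, 0, 0, 2845415833⟩]]

noncomputable def f_mm_023_t : ℕ → ℕ → ℕ → ℕ → Bool := onCell 0 536870912 0 536870912 1033476505 6710887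
    (rowNE 3 eng mog cd0q0 cd0q2 pd3 0 true false false .up 0 2 3 (qsf 0 536870912 0 536870912 3) ndB0q0 ndB0q2 pcB3 cut_mm_023_t Ext.none)

def k0_mm_023_t : ∃ t, chk3 f_mm_023_t t 1 1 1 = true :=
  ⟨(l 5), by decide +kernel⟩

theorem c_mm_023_t : CertNE 0 536870912 0 536870912 1033476505 6710887 3 eng mog cd0q0 cd0q2 pd3 true false false .up 0 2 3
    ndB0q0 ndB0q2 pcB3 cut_mm_023_t Ext.none :=
  certNE0 (fam := true) (s1 := false) (s2 := false) (a := 0) (b := 2) (c := 3) (cn := .up) (n1 := ndB0q0) (n2 := ndB0q2) (pc := pcB3) (cut := cut_mm_023_t) (xt := Ext.none) (P1 := 0) (W1 := 536870912) (P2 := 0) (W2 := 536870912) (P3 := 1033476505) (W3 := 6710887) (N0 := 3) (En := eng) (mo := mog) (C1 := cd0q0) (C2 := cd0q2) (C3 := pd3)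
    rfl k0_mm_023_t

noncomputable def cut_mm_101_s : Cut := Cut.of [[⟨4, 0, 0, 1449551462⟩], [⟨0, 1, 0, 33554432⟩, ⟨1, 0, 0, 33554432⟩, ⟨2, 1, 0, 33554432⟩]]

noncomputable def f_mm_101_s : ℕ → ℕ → ℕ → ℕ → Bool := onCell 536870912 536870912 0 536870912 1033476505 6710887
    (rowNE 3 eng mog cd0q1 cd0q0 pd1 0 true false false .npn 1 0 1 (qsf 536870912 536870912 0 536870912 1) ndB0q1 ndB0q0 pcB1 cut_mm_101_s Ext.none)

def k0_mm_101_s : ∃ t, chk3 f_mm_101_s t 1 1 1 = true :=
  ⟨(l 6), by decide +kernel⟩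

theorem c_mm_101_s : CertNE 536870912 536870912 0 536870912 1033476505 6710887 3 eng mog cd0q1 cd0q0 pd1 true false false .npn 1 0 1
    ndB0q1 ndB0q0 pcB1 cut_mm_101_s Ext.none :=
  certNE0 (fam := true) (s1 := false) (s2 := false) (a := 1) (b := 0) (c := 1) (cn := .npn) (n1 := ndB0q1) (n2 := ndB0q0) (pc := pcB1) (cut := cut_mm_101_s) (xt := Ext.none) (P1 := 536870912) (W1 := 536870912) (P2 := 0) (W2 := 536870912) (P3 := 1033476505) (W3 := 6710887) (N0 := 3) (En := eng) (mo := mog) (C1 := cd0q1) (C2 := cd0q0) (C3 := pd1)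
    rfl k0_mm_101_s

noncomputable def cut_mm_101_t : Cut := Cut.of [[⟨3, 0, 0, 2845415833⟩], [⟨0, 1, 0, 33554432⟩, ⟨1, 0, 0, 33554432⟩, ⟨2, 1, 0, 33554432⟩]]

noncomputable def f_mm_101_t : ℕ → ℕ → ℕ → ℕ → Bool := onCell 536870912 536870912 0 536870912 1033476505 6710887
    (rowNE 3 eng mog cd0q1 cd0q0 pd1 0 true false false .npn 1 0 1 (qsf 536870912 536870912 0 536870912 1) ndB0q1 ndB0q0 pcB1 cut_mm_101_t Ext.none)

def k0_mm_101_t : ∃ t, chk3 f_mm_101_t t 1 1 1 = true :=
  ⟨(a (l 4) (b (a (l 4) (b (a (l 4) (b (a (l 4) (b (b (a (l 4) (l 14)) (l 4)) (l 4))) (l 4))) (l 4))) (l 4))), by decide +kernel⟩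

theorem c_mm_101_t : CertNE 536870912 536870912 0 536870912 1033476505 6710887 3 eng mog cd0q1 cd0q0 pd1 true false false .npn 1 0 1
    ndB0q1 ndB0q0 pcB1 cut_mm_101_t Ext.none :=
  certNE0 (fam := true) (s1 := false) (s2 := false) (a := 1) (b := 0) (c := 1) (cn := .npn) (n1 := ndB0q1) (n2 := ndB0q0) (pc := pcB1) (cut := cut_mm_101_t) (xt := Ext.none) (P1 := 536870912) (W1 := 536870912) (P2 := 0) (W2 := 536870912) (P3 := 1033476505) (W3 := 6710887) (N0 := 3) (En := eng) (mo := mog) (C1 := cd0q1) (C2 := cd0q0) (C3 := pd1)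
    rfl k0_mm_101_t

noncomputable def cut_mm_102_s : Cut := Cut.of [[⟨4, 0, 0, 1449551462⟩], [⟨0, 1, 0, 33554432⟩, ⟨1, 0, 0, 33554432⟩, ⟨2, 1, 0, 33554432⟩]]

noncomputable def f_mm_102_s : ℕ → ℕ → ℕ → ℕ → Bool := onCell 536870912 536870912 0 536870912 1033476505 6710887
    (rowNE 3 eng mog cd0q1 cd0q0 pd2 0 true false false .npp 1 0 2 (qsf 536870912 536870912 0 536870912 2) ndB0q1 ndB0q0 pcB2 cut_mm_102_s Ext.none)

def k0_mm_102_s : ∃ t, chk3 f_mm_102_s t 1 1 1 = true :=
  ⟨(l 6), by decide +kernel⟩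

theorem c_mm_102_s : CertNE 536870912 536870912 0 536870912 1033476505 6710887 3 eng mog cd0q1 cd0q0 pd2 true false false .npp 1 0 2
    ndB0q1 ndB0q0 pcB2 cut_mm_102_s Ext.none :=
  certNE0 (fam := true) (s1 := false) (s2 := false) (a := 1) (b := 0) (c := 2) (cn := .npp) (n1 := ndB0q1) (n2 := ndB0q0) (pc := pcB2) (cut := cut_mm_102_s) (xt := Ext.none) (P1 := 536870912) (W1 := 536870912) (P2 := 0) (W2 := 536870912) (P3 := 1033476505) (W3 := 6710887) (N0 := 3) (En := eng) (mo := mog) (C1 := cd0q1) (C2 := cd0q0) (C3 := pd2)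
    rfl k0_mm_102_s

noncomputable def cut_mm_102_t : Cut := Cut.of [[⟨3, 0, 0, 2845415833⟩], [⟨0, 1, 0, 33554432⟩, ⟨1, 0, 0, 33554432⟩, ⟨2, 1, 0, 33554432⟩]]

noncomputable def f_mm_102_t : ℕ → ℕ → ℕ → ℕ → Bool := onCell 536870912 536870912 0 536870912 1033476505 6710887
    (rowNE 3 eng mog cd0q1 cd0q0 pd2 0 true false false .npp 1 0 2 (qsf 536870912 536870912 0 536870912 2) ndB0q1 ndB0q0 pcB2 cut_mm_102_t Ext.none)

def k0_mm_102_t : ∃ t, chk3 f_mm_102_t t 1 1 1 = true :=
  ⟨(a (l 4) (b (a (l 4) (b (a (l 4) (b (a (l 4) (a (l 4) (b (b (l 14) (l 4)) (l 4)))) (l 4))) (l 4))) (l 4))), by decide +kernel⟩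

theorem c_mm_102_t : CertNE 536870912 536870912 0 536870912 1033476505 6710887 3 eng mog cd0q1 cd0q0 pd2 true false false .npp 1 0 2
    ndB0q1 ndB0q0 pcB2 cut_mm_102_t Ext.none :=
  certNE0 (fam := true) (s1 := false) (s2 := false) (a := 1) (b := 0) (c := 2) (cn := .npp) (n1 := ndB0q1) (n2 := ndB0q0) (pc := pcB2) (cut := cut_mm_102_t) (xt := Ext.none) (P1 := 536870912) (W1 := 536870912) (P2 := 0) (W2 := 536870912) (P3 := 1033476505) (W3 := 6710887) (N0 := 3) (En := eng) (mo := mog) (C1 := cd0q1) (C2 := cd0q0) (C3 := pd2)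
    rfl k0_mm_102_t

noncomputable def cut_mm_112_s : Cut := Cut.of [[⟨4, 0, 0, 1449551462⟩]]

noncomputable def f_mm_112_s : ℕ → ℕ → ℕ → ℕ → Bool := onCell 536870912 536870912 536870912 536870912 1033476505 6710887
    (rowNE 3 eng mog cd0q1 cd0q1 pd2 0 true false false .dn 1 1 2 (qsf 536870912 536870912 536870912 536870912 2) ndB0q1 ndB0q1 pcB2 cut_mm_112_s Ext.none)

def k0_mm_112_s : ∃ t, chk3 f_mm_112_s t 1 1 1 = true :=
  ⟨(l 4), by decide +kernel⟩

theorem c_mm_112_s : CertNE 536870912 536870912 536870912 536870912 1033476505 6710887 3 eng mog cd0q1 cd0q1 pd2 true false false .dn 1 1 2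
    ndB0q1 ndB0q1 pcB2 cut_mm_112_s Ext.none :=
  certNE0 (fam := true) (s1 := false) (s2 := false) (a := 1) (b := 1) (c := 2) (cn := .dn) (n1 := ndB0q1) (n2 := ndB0q1) (pc := pcB2) (cut := cut_mm_112_s) (xt := Ext.none) (P1 := 536870912) (W1 := 536870912) (P2 := 536870912) (W2 := 536870912) (P3 := 1033476505) (W3 := 6710887) (N0 := 3) (En := eng) (mo := mog) (C1 := cd0q1) (C2 := cd0q1) (C3 := pd2)
    rfl k0_mm_112_s

noncomputable def cut_mm_112_t : Cut := Cut.of [[⟨3, 0, 0, 2845415833⟩]]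

noncomputable def f_mm_112_t : ℕ → ℕ → ℕ → ℕ → Bool := onCell 536870912 536870912 536870912 536870912 1033476505 6710887
    (rowNE 3 eng mog cd0q1 cd0q1 pd2 0 true false false .dn 1 1 2 (qsf 536870912 536870912 536870912 536870912 2) ndB0q1 ndB0q1 pcB2 cut_mm_112_t Ext.none)

def k0_mm_112_t : ∃ t, chk3 f_mm_112_t t 1 1 1 = true :=
  ⟨(l 4), by decide +kernel⟩

theorem c_mm_112_t : CertNE 536870912 536870912 536870912 536870912 1033476505 6710887 3 eng mog cd0q1 cd0q1 pd2 true false false .dn 1 1 2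
    ndB0q1 ndB0q1 pcB2 cut_mm_112_t Ext.none :=
  certNE0 (fam := true) (s1 := false) (s2 := false) (a := 1) (b := 1) (c := 2) (cn := .dn) (n1 := ndB0q1) (n2 := ndB0q1) (pc := pcB2) (cut := cut_mm_112_t) (xt := Ext.none) (P1 := 536870912) (W1 := 536870912) (P2 := 536870912) (W2 := 536870912) (P3 := 1033476505) (W3 := 6710887) (N0 := 3) (En := eng) (mo := mog) (C1 := cd0q1) (C2 := cd0q1) (C3 := pd2)
    rfl k0_mm_112_t

noncomputable def cut_mm_113_s : Cut := Cut.of [[⟨4, 0, 0, 1449551462⟩]]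

noncomputable def f_mm_113_s : ℕ → ℕ → ℕ → ℕ → Bool := onCell 536870912 536870912 536870912 536870912 1033476505 6710887
    (rowNE 3 eng mog cd0q1 cd0q1 pd3 0 true false false .nn 1 1 3 (qsf 536870912 536870912 536870912 536870912 3) ndB0q1 ndB0q1 pcB3 cut_mm_113_s Ext.none)

def k0_mm_113_s : ∃ t, chk3 f_mm_113_s t 1 1 1 = true :=
  ⟨(l 4), by decide +kernel⟩

theorem c_mm_113_s : CertNE 536870912 536870912 536870912 536870912 1033476505 6710887 3 eng mog cd0q1 cd0q1 pd3 true false false .nn 1 1 3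
    ndB0q1 ndB0q1 pcB3 cut_mm_113_s Ext.none :=
  certNE0 (fam := true) (s1 := false) (s2 := false) (a := 1) (b := 1) (c := 3) (cn := .nn) (n1 := ndB0q1) (n2 := ndB0q1) (pc := pcB3) (cut := cut_mm_113_s) (xt := Ext.none) (P1 := 536870912) (W1 := 536870912) (P2 := 536870912) (W2 := 536870912) (P3 := 1033476505) (W3 := 6710887) (N0 := 3) (En := eng) (mo := mog) (C1 := cd0q1) (C2 := cd0q1) (C3 := pd3)
    rfl k0_mm_113_s

noncomputable def cut_mm_113_t : Cut := Cut.of [[⟨3, 0, 0, 2845415833⟩]]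

noncomputable def f_mm_113_t : ℕ → ℕ → ℕ → ℕ → Bool := onCell 536870912 536870912 536870912 536870912 1033476505 6710887
    (rowNE 3 eng mog cd0q1 cd0q1 pd3 0 true false false .nn 1 1 3 (qsf 536870912 536870912 536870912 536870912 3) ndB0q1 ndB0q1 pcB3 cut_mm_113_t Ext.none)

def k0_mm_113_t : ∃ t, chk3 f_mm_113_t t 1 1 1 = true :=
  ⟨(l 4), by decide +kernel⟩

theorem c_mm_113_t : CertNE 536870912 536870912 536870912 536870912 1033476505 6710887 3 eng mog cd0q1 cd0q1 pd3 true false false .nn 1 1 3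
    ndB0q1 ndB0q1 pcB3 cut_mm_113_t Ext.none :=
  certNE0 (fam := true) (s1 := false) (s2 := false) (a := 1) (b := 1) (c := 3) (cn := .nn) (n1 := ndB0q1) (n2 := ndB0q1) (pc := pcB3) (cut := cut_mm_113_t) (xt := Ext.none) (P1 := 536870912) (W1 := 536870912) (P2 := 536870912) (W2 := 536870912) (P3 := 1033476505) (W3 := 6710887) (N0 := 3) (En := eng) (mo := mog) (C1 := cd0q1) (C2 := cd0q1) (C3 := pd3)
    rfl k0_mm_113_t

noncomputable def cut_mm_123_s : Cut := Cut.of [[⟨4, 0, 0, 1449551462⟩]]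

noncomputable def f_mm_123_s : ℕ → ℕ → ℕ → ℕ → Bool := onCell 536870912 536870912 0 536870912 1033476505 6710887
    (rowNE 3 eng mog cd0q1 cd0q2 pd3 0 true false false .npn 1 2 3 (qsf 536870912 536870912 0 536870912 3) ndB0q1 ndB0q2 pcB3 cut_mm_123_s Ext.none)

def k0_mm_123_s : ∃ t, chk3 f_mm_123_s t 1 1 1 = true :=
  ⟨(l 6), by decide +kernel⟩

theorem c_mm_123_s : CertNE 536870912 536870912 0 536870912 1033476505 6710887 3 eng mog cd0q1 cd0q2 pd3 true false false .npn 1 2 3
    ndB0q1 ndB0q2 pcB3 cut_mm_123_s Ext.none :=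
  certNE0 (fam := true) (s1 := false) (s2 := false) (a := 1) (b := 2) (c := 3) (cn := .npn) (n1 := ndB0q1) (n2 := ndB0q2) (pc := pcB3) (cut := cut_mm_123_s) (xt := Ext.none) (P1 := 536870912) (W1 := 536870912) (P2 := 0) (W2 := 536870912) (P3 := 1033476505) (W3 := 6710887) (N0 := 3) (En := eng) (mo := mog) (C1 := cd0q1) (C2 := cd0q2) (C3 := pd3)
    rfl k0_mm_123_s

noncomputable def cut_mm_123_t : Cut := Cut.of [[⟨3, 0, 0, 2845415833⟩]]

noncomputable def f_mm_123_t : ℕ → ℕ → ℕ → ℕ → Bool := onCell 536870912 536870912 0 536870912 1033476505 6710887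
    (rowNE 3 eng mog cd0q1 cd0q2 pd3 0 true false false .npn 1 2 3 (qsf 536870912 536870912 0 536870912 3) ndB0q1 ndB0q2 pcB3 cut_mm_123_t Ext.none)

def k0_mm_123_t : ∃ t, chk3 f_mm_123_t t 1 1 1 = true :=
  ⟨(a (l 5) (l 4)), by decide +kernel⟩

theorem c_mm_123_t : CertNE 536870912 536870912 0 536870912 1033476505 6710887 3 eng mog cd0q1 cd0q2 pd3 true false false .npn 1 2 3
    ndB0q1 ndB0q2 pcB3 cut_mm_123_t Ext.none :=
  certNE0 (fam := true) (s1 := false) (s2 := false) (a := 1) (b := 2) (c := 3) (cn := .npn) (n1 := ndB0q1) (n2 := ndB0q2) (pc := pcB3) (cut := cut_mm_123_t) (xt := Ext.none) (P1 := 536870912) (W1 := 536870912) (P2 := 0) (W2 := 536870912) (P3 := 1033476505) (W3 := 6710887) (N0 := 3) (En := eng) (mo := mog) (C1 := cd0q1) (C2 := cd0q2) (C3 := pd3)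
    rfl k0_mm_123_t

noncomputable def cut_mm_202_s : Cut := Cut.of [[⟨4, 0, 0, 1449551462⟩], [⟨0, 1, 0, 22369621⟩, ⟨1, 0, 0, 22369621⟩, ⟨2, 1, 0, 22369621⟩]]

noncomputable def f_mm_202_s : ℕ → ℕ → ℕ → ℕ → Bool := onCell 0 536870912 0 536870912 1033476505 6710887
    (rowNE 3 eng mog cd0q2 cd0q0 pd2 0 true false false .pp 2 0 2 (qsf 0 536870912 0 536870912 2) ndB0q2 ndB0q0 pcB2 cut_mm_202_s Ext.none)

def k0_mm_202_s : ∃ t, chk3 f_mm_202_s t 1 1 1 = true :=
  ⟨(l 6), by decide +kernel⟩

theorem c_mm_202_s : CertNE 0 536870912 0 536870912 1033476505 6710887 3 eng mog cd0q2 cd0q0 pd2 true false false .pp 2 0 2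
    ndB0q2 ndB0q0 pcB2 cut_mm_202_s Ext.none :=
  certNE0 (fam := true) (s1 := false) (s2 := false) (a := 2) (b := 0) (c := 2) (cn := .pp) (n1 := ndB0q2) (n2 := ndB0q0) (pc := pcB2) (cut := cut_mm_202_s) (xt := Ext.none) (P1 := 0) (W1 := 536870912) (P2 := 0) (W2 := 536870912) (P3 := 1033476505) (W3 := 6710887) (N0 := 3) (En := eng) (mo := mog) (C1 := cd0q2) (C2 := cd0q0) (C3 := pd2)
    rfl k0_mm_202_s

end Pool.Agent.Strip051.G.I9625_9688.Tab.CS.BA00

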