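import Pool.Agent.Strip051.G.I9625_9688.StH
import Pool.Agent.Strip051.G.I9625_9688.StF

/-! # Unit strips 5 (generated) -/

set_option linter.all false
set_option maxRecDepth 100000

namespace Pool.Agent.Strip051.G.I9625_9688.Tab.St.C

open Pool.Agent.Strip051.PB Pool.Agent.Strip051.PB.T Pool.Agent.StripNear Pool.Agent.Strip051.LC
open Pool.Agent.Strip051.G.I9625_9688.Tab Pool.Agent.Strip051.G.I9625_9688.Tab.St

noncomputable def cut_B00pp_012_s1 : Cut := Cut.of [[⟨4, 0, 0, 1449551462⟩], [⟨0, 0, 0, 16777216⟩, ⟨1, 1, 0, 16777216⟩, ⟨2, 1, 0, 16777216⟩]]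

noncomputable def xt_B00pp_012_s1 : Ext := strExt dd false true true .u0 .u2 .u0m .pnp 0 1 2 rfl rfl gf1 vv ndB0q0 ndB0q2

noncomputable def f_B00pp_012_s1 : ℕ → ℕ → ℕ → ℕ → Bool := onCell 0 536870912 0 536870912 1033476505 6710887
    (rowF 0 false true true .pnp 0 1 2 (qsf 0 536870912 0 536870912 1) ndB0q0 ndB0q2 pcB1 cut_B00pp_012_s1 xt_B00pp_012_s1)

def k0_B00pp_012_s1 : ∃ t, chk3 f_B00pp_012_s1 t 2 2 1 = true :=
  ⟨(a (a (l 2) (a (l 2) (b (l 2) (a (l 2) (b (l 2) (b (l 2) (a (l 2) (l 16571656)))))))) (b (a (l 6) (a (l 6) (b (l 6) (l 16124232)))) (a (b (a (l 6) (a (l 16281456) (l 16313960))) (a (a (b (l 16473424) (l 16515928)) (b (l 16484072) (b (l 16516760) (l 16456072)))) (b (a (l 16420880) (l 16372216)) (a (b (l 16455224) (a (l 16494728) (l 16472240))) (a (b (l 16418344) (l 16453544)) (b (l 16403200) (l 16442088))))))) (b (a (a (l 16281008) (l 16270616)) (b (l 16286336) (a (l 16307208) (l 16277320)))) (a (b (a (b (l 16330224) (l 16356184)) (b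 (l 16324136) (l 16361696))) (a (b (l 16394128) (l 16438944)) (a (l 16426992) (l 525607439)))) (a (b (b (l 16354360) (l 16402360)) (a (l 525368591) (l 525937679))) (b (l 526088719) (a (l 526547215) (l 527506703))))))))), by decide +kernel⟩

def k1_B00pp_012_s1 : ∃ t, chk3 f_B00pp_012_s1 t 8 6 1 = true :=
  ⟨(l 2), by decide +kernel⟩

def k2_B00pp_012_s1 : ∃ t, chk3 f_B00pp_012_s1 t 18 6 1 = true :=
  ⟨(b (l 2) (b (a (l 2) (b (a (l 2) (b (l 2) (a (l 2) (b (a (l 2) (b (l 16396448) (l 16397672))) (a (l 16397704) (l 16379080)))))) (a (a (l 2) (b (l 2) (l 16418872))) (b (a (b (l 16400888) (l 16406080)) (a (l 16404328) (l 16385736))) (a (b (l 16391352) (l 16440536)) (l 16396904)))))) (a (a (l 2) (b (b (l 2) (l 16496496)) (b (a (l 16522792) (l 16515480)) (a (l 16548320) (l 16540920))))) (a (b (b (a (l 16463664) (l 16414216)) (a (l 16483456) (l 16475952))) (b (a (l 16506288) (l 16498760)) (a (l 16531664) (l 16524120)))) (b (a (b (l 16369272) (l 16472952)) (b (l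 16371352) (l 16475080))) (b (a (l 16495776) (l 16498008)) (a (l 16521232) (l 16523696)))))))), by decide +kernel⟩

def k3_B00pp_012_s1 : ∃ t, chk3 f_B00pp_012_s1 t 38 12 1 = true :=
  ⟨(b (a (l 2) (b (l 2) (l 16472584))) (b (a (l 2) (b (a (l 16462392) (l 16483136)) (a (b (a (l 2) (l 16447008)) (a (b (l 16458296) (a (l 2) (b (a (l 16459760) (b (l 16462216) (l 16446464))) (a (b (c (a (l 2) (l 16461800)) (l 16442488)) (l 16459304)) (l 16461456))))) (b (b (l 16447344) (a (l 16444944) (l 16449416))) (a (b (l 16454856) (l 16464320)) (l 16468776))))) (b (b (l 16483520) (a (l 16457376) (l 16445424))) (a (a (l 16452656) (l 16477904)) (l 16484024)))))) (a (b (a (l 2) (a (l 2) (b (b (l 2) (a (l 2) (l 16427976))) (b (l 16434424) (l 76872514343))))) (a (a (l 2) (b (l 2) (a (l 2) (b (l 16427072) (l 16405496))))) (a (b (a (b (l 2) (l 16410400)) (b (l 16415128) (l 16413888))) (a (b (l 16409480) (l 16429856)) (l 16433624))) (b (b (l 16430968) (l 16440232)) (l 16439024)))))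 (a (b (a (b (b (a (a (b (l 2) (l 16453480)) (l 16455928)) (l 16458720)) (l 169214334103)) (b (l 16452248) (l 16450376))) (b (l 16442240) (l 16458912))) (b (l 16441528) (l 16450288))) (b (a (l 16447920) (l 16477080)) (l 16425008)))))), by decide +kernel⟩

def k4_B00pp_012_s1 : ∃ t, chk3 f_B00pp_012_s1 t 38 13 1 = true :=
  ⟨(b (a (b (a (b (a (b (a (l 2) (l 16404720)) (a (l 16397864) (l 16400136))) (b (c (l 16405280) (a (l 16400512) (l 16403592))) (l 16404368))) (a (b (l 16400824) (l 16424848)) (l 16407680))) (b (b (a (l 16431336) (l 16438536)) (l 16393696)) (l 16418048))) (a (b (b (l 16389936) (l 16353264)) (l 16405048)) (b (l 16447480) (l 16460160)))) (b (a (b (l 16429128) (l 16454096)) (b (l 16466176) (l 16470288))) (b (l 16428744) (l 16483616)))) (a (b (a (b (l 16463448) (l 16483408)) (b (l 16476752) (l 16496936))) (a (b (l 16506576) (l 16532672)) (b (l 16520528) (l 16547384)))) (b (b (l 16500648) (l 16521592)) (b (l 16546336) (a (l 16565168) (l 16585504)))))),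 by decide +kernel⟩

def k5_B00pp_012_s1 : ∃ t, chk3 f_B00pp_012_s1 t 39 6 1 = true :=
  ⟨(b (b (b (a (l 16518544) (l 16565656)) (a (b (l 16516864) (l 16516184)) (b (l 16563424) (a (l 16550952) (l 16572840))))) (b (a (b (a (b (l 16504704) (b (l 16504784) (l 16504216))) (b (l 16527152) (l 16523904))) (a (a (l 16494408) (l 16503520)) (l 16517064))) (a (l 16539928) (l 16559768))) (a (b (a (l 16489872) (l 16507920)) (l 16451136)) (b (l 16536496) (l 16531096))))) (b (a (b (a (l 16484920) (l 16503408)) (a (l 16502848) (l 16522240))) (b (l 16533136) (l 16470256))) (a (b (b (l 16538272) (l 16561272)) (a (b (l 16577224) (l 16525632)) (b (l 16601896) (l 16634928)))) (b (a (b (l 16571616) (l 16597656)) (b (l 16596704) (l 16623416))) (a (b (l 16627768) (a (l 16654624) (l 16666344))) (b (l 16611160) (b (l 16674048) (l 16666920)))))))), by decide +kernel⟩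

def k6_B00pp_012_s1 : ∃ t, chk3 f_B00pp_012_s1 t 8 28 1 = true :=
  ⟨(a (l 2) (a (l 2) (b (l 2) (a (l 2) (b (l 16647768) (l 16594968)))))), by decide +kernel⟩

def k7_B00pp_012_s1 : ∃ t, chk3 f_B00pp_012_s1 t 18 28 1 = true :=
  ⟨(a (b (a (b (l 16583528) (l 16570920)) (b (l 16572400) (l 16601440))) (a (b (l 16643120) (l 16589824)) (b (l 16589560) (b (l 16654456) (l 16669872))))) (b (a (b (a (l 16559104) (l 16551640)) (a (l 16588176) (l 16580936))) (b (a (l 16548976) (l 16551856)) (a (l 16578712) (b (l 16574528) (l 16590368))))) (a (b (a (l 16618512) (l 16611728)) (a (l 16628832) (b (l 16635736) (l 16652168)))) (b (a (c (l 16611184) (l 16609544)) (b (l 16606840) (l 16623960))) (a (b (l 16635320) (l 16652664)) (b (c (l 16642464) (l 16641024)) (c (l 16660888) (l 16659624)))))))), by decide +kernel⟩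

def k8_B00pp_012_s1 : ∃ t, chk3 f_B00pp_012_s1 t 19 28 1 = true :=
  ⟨(a (a (b (b (a (l 16561616) (l 16577448)) (a (a (l 16589640) (l 16596976)) (l 16569016))) (b (a (a (l 16602968) (l 16600872)) (b (l 16638488) (a (l 16652304) (l 16664368)))) (a (b (a (l 16651704) (l 16661136)) (a (l 16671296) (c (l 16682336) (l 16681320)))) (b (a (l 16672816) (l 16685104)) (a (l 16693744) (l 16706088)))))) (b (a (b (l 16596912) (a (l 16626928) (l 16597280))) (b (a (l 16613448) (l 16625992)) (a (l 16651408) (l 16580200)))) (b (a (b (l 16578632) (l 16640936)) (a (l 16649496) (l 16660632))) (a (b (l 16682472) (a (l 16717320) (l 16727272))) (b (a (l 16719216) (l 16727920)) (a (l 16714704) (l 527824143))))))) (b (a (b (a (l 16603040) (c (l 16587048) (l 16628112))) (a (a (l 16676880) (l 16688352)) (a (l 16656672) (b (l 16700104) (l 16714288))))) (b (a (b (l 16641416) (a (l 16693880) (l 16702352))) (b (a (l 16696928) (l 16704040)) (l 16691792))) (a (a (b (l 16708160) (l 16721464))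 (l 528246287)) (a (l 528574991) (l 528888335))))) (a (b (a (b (l 16666864) (a (l 16720416) (l 16727664))) (b (a (l 16720784) (l 16706720)) (l 528102671))) (a (b (a (l 16713872) (l 527995151)) (a (l 528114447) (l 528420111))) (b (l 528498191) (l 528640271)))) (b (a (b (l 528507663) (a (l 16724392) (l 529009679))) (b (a (l 16734224) (l 529288207)) (a (b (l 16752752) (l 529390607)) (l 529550095)))) (a (b (a (l 529042191) (b (l 529276943) (l 529447183))) (a (l 529456143) (l 529701647))) (b (b (l 529641231) (l 529788943)) (l 530018575))))))), by decide +kernel⟩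

def k9_B00pp_012_s1 : ∃ t, chk3 f_B00pp_012_s1 t 8 58 1 = true :=
  ⟨(a (l 2) (a (l 2) (b (a (l 16708992) (l 16709560)) (a (b (l 16708272) (l 16704000)) (l 16679744))))), by decide +kernel⟩

def k10_B00pp_012_s1 : ∃ t, chk3 f_B00pp_012_s1 t 9 58 1 = true :=
  ⟨(a (a (a (b (l 16620224) (c (l 16690640) (l 16690976))) (b (a (l 16696296) (l 16689528)) (a (l 16683736) (l 16699032)))) (a (b (a (b (l 16673880) (l 16690064)) (b (l 16669048) (l 16686216))) (a (b (l 16706104) (l 16721976)) (b (l 16703400) (l 16720648)))) (b (a (b (l 16670608) (l 16689040)) (b (b (l 16674640) (l 16684504)) (a (l 16696176) (c (l 16704256) (l 16703456))))) (a (b (c (l 16708088) (l 16707336)) (a (l 16724424) (b (l 16724552) (l 16734496)))) (b (a (c (l 16716768) (l 16695128)) (l 523992591)) (a (l 524134415) (l 525211919))))))) (a (a (a (b (b (a (c (l 16692600) (l 16670712)) (c (l 16703304) (l 16660576))) (a (l 523409167) (l 16702904))) (b (a (l 524725007) (l 525750799)) (a (l 525995535)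 (b (l 526732559) (l 527452431))))) (b (b (a (l 16672912) (l 16683928)) (a (l 525768463) (l 526931983))) (b (a (l 527057679) (a (l 527980303) (b (l 16757152) (l 528775951)))) (a (a (l 528154895) (b (l 528453903) (l 528878863))) (b (a (l 528652559) (l 529188367)) (l 529214735)))))) (b (a (b (a (l 526735375) (l 527584783)) (a (l 527392783) (b (l 528275727) (l 528647439)))) (b (a (l 527798543) (l 528345615)) (l 528843023))) (a (b (a (b (l 528676623) (l 529045519)) (l 529168911)) (a (b (l 529424399) (l 529777679)) (b (l 529696015) (l 530056719)))) (b (l 529578255) (b (l 530121231) (l 3)))))) (a (b (a (b (b (l 528630799) (l 528914959)) (l 529431567)) (b (a (l 529206031) (a (l 529459471) (b (l 529521935) (l 529757199)))) (a (l 529870095) (a (l 530092303) (b (l 529990927) (l 3)))))) (a (b (l 530159119) (l 3)) (l 3))) (b (b (a (b (l 529848079) (l 530028559)) (a (l 530245391) (l 3))) (l 3)) (l 3))))), by decide +kernel⟩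

def k11_B00pp_012_s1 : ∃ t, chk3 f_B00pp_012_s1 t 8 59 1 = true :=
  ⟨(a (l 2) (a (a (b (l 2) (a (l 2) (b (l 2) (l 16692312)))) (b (a (l 16686456) (b (l 16691928) (l 16690512))) (a (b (l 16688928) (l 16696592)) (b (l 16693968) (l 16701952))))) (b (a (b (l 16700696) (l 16699808)) (b (l 16675168) (a (l 16711936) (l 16721376)))) (a (a (b (l 16700152) (l 16708336)) (b (l 16707496) (l 16715752))) (b (b (l 16677096) (l 16701112)) (a (l 16724056) (l 16712128))))))), by decide +kernel⟩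

def k12_B00pp_012_s1 : ∃ t, chk3 f_B00pp_012_s1 t 9 59 1 = true :=
  ⟨(a (a (b (a (a (b (l 16732520) (l 16731728)) (b (l 16743976) (l 16700832))) (a (b (l 16746488) (l 16733104)) (b (l 16700088) (l 532020239)))) (a (b (a (l 16714256) (l 530842127)) (a (l 529889039) (l 530531599))) (a (b (l 531040271) (b (l 531473679) (l 531398159))) (b (l 531995663) (a (l 532291343) (l 531967247)))))) (a (b (a (b (b (l 16733848) (l 16741792)) (l 528575247)) (b (b (l 16733704) (c (l 16742672) (l 16742352))) (a (b (l 16749824) (l 16757088)) (b (l 527460879) (l 527935759))))) (a (b (a (l 531602959) (b (l 16751112) (l 529404431))) (a (a (l 532755215) (b (l 16759600) (a (l 532523535) (l 531954447)))) (b (a (l 531462671) (l 529899535)) (a (a (l 531476495) (l 531735055)) (l 532081935))))) (b (a (b (a (l 16762840) (l 529417743)) (a (l 530339087) (l 530407183))) (b (l 529566223) (l 530692879))) (a (b (l 531107599) (l 532396815)) (l 532397839))))) (b (a (b (a (b (l 16738544) (l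 526338575)) (b (l 16733792) (l 526589455))) (b (a (l 527524879) (l 527896335)) (l 528966415))) (b (b (a (l 525871631) (l 526429199)) (a (l 527014927) (l 527600655))) (a (b (l 528422671) (l 529848591)) (l 529056783)))) (a (b (b (l 530247183) (l 530993423)) (b (l 531206927) (l 3))) (b (a (b (l 530205711) (l 3)) (l 3)) (l 3)))))) (b (a (a (a (b (a (b (l 527186447) (l 527582991)) (b (l 528317199) (b (l 528907535) (a (l 529383951) (a (l 529751055) (b (l 529808399) (l 530195215))))))) (a (b (l 529929743) (l 530743311)) (b (a (b (l 530232079) (l 3)) (l 3)) (l 3)))) (b (a (b (a (l 528839695) (l 529634063)) (b (l 529840655) (l 530105359))) (b (l 529862415) (l 3))) (l 3))) (b (a (a (b (l 530138383) (l 3)) (l 3)) (l 3)) (l 3))) (l 3)) (l 3))), by decide +kernel⟩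

def k13_B00pp_012_s1 : ∃ t, chk3 f_B00pp_012_s1 t 8 30 1 = true :=
  ⟨(a (a (l 2) (a (a (l 2) (b (l 2) (b (l 2) (a (b (l 2) (l 16738448)) (b (l 16744632) (l 16740224)))))) (b (a (l 2) (b (l 2) (b (l 2) (l 16707256)))) (a (b (a (l 531268879) (l 531406863)) (a (b (l 16725368) (l 16710744)) (b (l 16748256) (l 16733864)))) (a (b (l 531560975) (b (l 16750368) (l 16746656))) (b (l 531463695) (b (l 16731672) (l 531666191)))))))) (a (a (b (a (a (b (l 2) (l 531001359)) (b (l 530322959) (l 530891535))) (b (b (l 16703512) (l 16715688)) (b (l 16726672) (l 16715656)))) (a (a (b (l 531384591) (b (l 16734096) (l 531654159))) (b (l 531324175) (b (l 16747128) (l 531665679)))) (b (a (l 531283471) (l 531262991)) (b (a (l 531564559) (l 531593231)) (a (l 531701263) (l 531762191)))))) (b (a (b (b (l 16708136) (l 16720616)) (b (l 16731864) (l 16731528))) (b (b (l 16713744) (l 16726392)) (b (l 16716776) (l 530791183)))) (a (b (a (l 531263503) (l 531284751)) (b (a (l 531645711)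 (l 531726607)) (a (l 531848975) (l 531963151)))) (b (a (l 531326223) (l 531387407)) (b (a (l 531821071) (a (l 531910415) (l 531971343))) (a (b (l 532040207) (l 532156431)) (a (b (l 532165135) (l 3)) (l 532372495)))))))) (b (a (b (a (b (l 16720240) (l 16732912)) (b (l 16706624) (l 16719136))) (a (a (l 530614799) (l 530664463)) (a (l 530749967) (l 530082063)))) (b (a (b (l 529554959) (l 530190095)) (b (l 529575183) (l 530584591))) (a (b (l 530043151) (l 531507983)) (l 531457295)))) (a (b (a (a (l 531191311) (b (l 531373071) (l 531859983))) (b (a (l 531544079) (l 531763727)) (l 532225295))) (b (a (a (l 532121103) (l 532363535)) (l 532814351)) (l 3))) (b (a (l 531987215) (l 531485455)) (l 3)))))), by decide +kernel⟩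

def k14_B00pp_012_s1 : ∃ t, chk3 f_B00pp_012_s1 t 9 30 1 = true :=
  ⟨(b (a (a (a (b (b (a (l 530315535) (l 530158351)) (a (l 531154447) (l 531901967))) (a (l 531918863) (l 531950863))) (b (b (b (a (l 531557903) (a (l 532036111) (b (l 532857871) (l 532985615)))) (l 531721487)) (a (l 532835599) (a (l 532748815) (a (b (l 532675343) (l 3)) (l 3))))) (a (b (a (l 532597007) (l 3)) (l 3)) (l 3)))) (a (b (a (b (a (b (a (l 533172239) (a (b (l 532771343) (l 532860431)) (l 532384271))) (a (b (a (l 533004303) (l 532771599)) (l 3)) (a (l 532904463) (l 3)))) (b (l 532657679) (l 3))) (l 3)) (l 3)) (l 3)) (l 3))) (l 3)) (l 3)), by decide +kernel⟩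

def k15_B00pp_012_s1 : ∃ t, chk3 f_B00pp_012_s1 t 4 31 1 = true :=
  ⟨(a (b (a (a (a (l 2) (b (a (l 2) (a (l 2) (a (l 2) (l 532209679)))) (a (l 14) (a (l 14) (a (l 14) (l 531822351)))))) (a (a (a (a (b (l 532142607) (l 531509007)) (b (l 532079631) (l 531468815))) (b (a (l 531752719) (l 531966991)) (a (l 531702287) (l 531672591)))) (a (b (a (l 531917583) (l 531873039)) (a (l 531648271) (l 531629583))) (b (b (l 16746304) (l 531501583)) (a (l 531616527) (l 531609103))))) (a (b (a (a (l 531768847) (l 531744527)) (a (l 531725583) (l 531712271))) (a (l 531071503) (l 531093007))) (b (a (l 531165455) (l 531710479)) (a (l 531408399) (l 531749903)))))) (b (a (a (a (a (b (l 531715599) (l 531771151)) (b (l 531757327) (l 531845647))) (a (l 531348751) (b (l 531918863) (l 3)))) (a (b (b (l 531386895) (l 3)) (l 3)) (l 3))) (l 3)) (l 3))) (a (a (a (l 14) (a (l 14) (a (l 14) (b (a (l 14) (b (l 531481615) (l 531234575))) (l 3))))) (b (b (a (a (a (a (l 531456271) (l 531436559))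 (a (l 531422735) (l 531414543))) (a (a (l 531412239) (l 531416335)) (l 3))) (l 3)) (l 3)) (l 3))) (l 3))) (l 3)), by decide +kernel⟩

def k16_B00pp_012_s1 : ∃ t, chk3 f_B00pp_012_s1 t 20 6 1 = true :=
  ⟨(a (b (b (b (b (l 16543856) (l 16551560)) (a (b (l 16526184) (l 16518816)) (l 16562288))) (a (b (l 16588864) (l 16573592)) (b (l 16628608) (l 16532968)))) (b (a (b (a (l 16564664) (l 16588064)) (a (l 16589896) (l 16530504))) (b (a (l 16610848) (l 16634296)) (b (l 16597400) (a (l 16646664) (l 16666088))))) (b (a (a (b (l 16622088) (l 16648192)) (b (l 16646232) (b (l 16662456) (l 16673344)))) (b (a (l 16665416) (b (l 16677680) (l 16684960))) (a (b (l 16679408) (l 16688312)) (l 16676480)))) (a (a (b (a (l 16668520) (l 16635736)) (a (l 528408847) (l 16679376))) (b (b (l 16663136) (l 16694328)) (b (l 16683992) (l 529224719)))) (a (a (b (l 16657496) (l 529562639)) (b (l 16684896) (l 529795087))) (b (b (l 16710312) (l 16698056)) (c (l 530139663) (l 530096911))))))))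 (b (b (a (b (l 16499760) (l 16623200)) (b (l 16556680) (l 16595256))) (a (b (l 16578608) (l 16576992)) (b (l 16549368) (b (l 16658648) (l 16675728))))) (b (a (b (b (l 16663336) (l 16669800)) (b (a (l 16670256) (l 16685384)) (a (l 16681448) (l 16695224)))) (b (b (l 16689584) (l 16699936)) (b (l 16705352) (a (l 16623616) (l 16718264))))) (a (b (b (a (l 16694744) (l 16665136)) (a (c (l 16667872) (l 16688384)) (l 530939407))) (b (a (b (l 16700272) (l 530484495)) (c (l 530910223) (l 530874127))) (a (a (l 530433807) (l 530631951)) (c (l 530931471) (b (l 530885135) (l 530914575)))))) (b (b (a (l 16675880) (l 531920655)) (a (l 531356175) (l 531477007))) (b (a (c (l 531293199) (l 530993423)) (b (l 531653391) (l 531611407))) (a (b (c (l 531275023) (l 531245839)) (c (l 531283215) (l 531255567))) (b (c (l 531596559) (l 531571471)) (b (l 531304463) (l 531301647)))))))))), by decide +kernel⟩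

def k17_B00pp_012_s1 : ∃ t, chk3 f_B00pp_012_s1 t 21 6 1 = true :=
  ⟨(b (a (b (a (b (l 16530760) (l 16568760)) (b (l 16508912) (l 16549176))) (a (b (l 16523992) (l 16651304)) (b (l 16594944) (b (l 16631008) (l 16654432))))) (b (b (l 16489736) (a (l 16539440) (l 16535936))) (b (a (l 16588672) (l 16589048)) (a (l 529297935) (l 528588559))))) (b (a (a (a (b (l 16689920) (l 531644687)) (b (l 16602624) (l 531737615))) (b (b (l 16675208) (l 16651944)) (b (l 531066127) (l 531225103)))) (b (a (l 529986063) (l 529412111)) (a (b (l 530408207) (l 530649615)) (b (l 529960463) (l 530299151))))) (a (b (a (b (l 531501583) (a (l 532103183) (l 531866639))) (b (l 531077647) (a (l 531564559) (l 531317007)))) (b (a (a (l 531949583) (l 531579151)) (a (b (l 531591183) (l 531599887)) (l 531403023))) (a (a (a (b (l 531802127) (b (l 531778063) (a (l 531735055) (l 531796495)))) (b (l 531934991) (c (l 531901711) (b (l 531891983) (c (l 531878671) (l 531601167)))))) (b (c (l 531806991)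 (l 531548431)) (c (l 531505935) (b (l 531523599) (a (c (l 531824399) (l 531560719)) (l 531724303)))))) (a (b (l 531602191) (b (l 531331855) (l 3))) (b (l 531453967) (l 3)))))) (b (a (b (l 530864143) (l 531056143)) (b (b (l 530542607) (l 530700815)) (b (l 530856463) (l 531010319)))) (a (b (a (l 531272463) (l 530938895)) (l 3)) (l 3)))))), by decide +kernel⟩

def k18_B00pp_012_s1 : ∃ t, chk3 f_B00pp_012_s1 t 11 6 1 = true :=
  ⟨(b (a (b (a (a (b (l 16486624) (l 16539240)) (b (l 16493456) (l 16549224))) (b (a (l 16507280) (l 16527640)) (a (l 16523448) (l 525972239)))) (b (a (a (l 527192079) (l 526760463)) (a (b (l 16610656) (l 16599480)) (b (l 16632480) (l 526861583)))) (a (a (l 528070415) (l 527772431)) (a (b (l 527373071) (l 528068879)) (l 527947535))))) (a (b (b (a (l 16553816) (l 16500960)) (a (l 526215439) (l 526779407))) (b (b (a (l 526722575) (l 527364623)) (a (l 527236879) (l 527932687))) (b (a (l 528008975) (l 528794127)) (l 528006415)))) (b (a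 (b (l 527086607) (l 527710735)) (b (l 528285455) (l 529076495))) (b (a (b (l 528378383) (l 528718607)) (b (l 529842959) (a (l 530053647) (l 530983439)))) (a (b (b (l 529632527) (l 530212623)) (l 531120143)) (a (b (l 530487055) (l 532317199)) (b (b (l 531499023) (l 531817487)) (l 3)))))))) (a (b (a (b (a (l 529056271) (l 528410383)) (a (a (l 529992207) (l 529981455)) (b (l 529809679) (l 530384655)))) (b (a (l 529111567) (l 529574927)) (a (l 530247183) (l 530183951)))) (b (a (a (b (a (l 530614543) (b (l 530578959) (l 530818063))) (a (l 531025167) (l 3))) (b (l 530965263) (l 3))) (l 3)) (l 3))) (b (b (a (a (l 530361615) (l 530421263)) (a (b (l 532359183) (l 3)) (l 3))) (l 3)) (l 3)))), by decide +kernel⟩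

def k19_B00pp_012_s1 : ∃ t, chk3 f_B00pp_012_s1 t 5 7 1 = true :=
  ⟨(b (a (b (a (a (b (a (a (b (c (l 528922895) (l 528599823)) (b (a (l 16733408) (l 16728144)) (a (l 529293839) (l 529523983)))) (a (b (l 529314319) (l 529643535)) (b (l 529551119) (l 529854735)))) (b (a (c (l 529896207) (l 529852431)) (a (b (l 16732416) (l 530241295)) (l 530383119))) (a (c (l 530173199) (a (l 530036495) (l 530231823))) (c (l 530542863) (l 530241039))))) (a (a (b (b (l 529626383) (c (l 529884687) (l 529844751))) (b (b (l 530056207) (l 530191119)) (l 530404367))) (b (c (l 530162447) (b (l 530017551) (l 530237711))) (b (c (l 530510351) (a (l 530389007) (l 530567439))) (l 3)))) (b (a (l 530511119) (c (l 530856207) (l 530828815))) (l 3)))) (a (b (b (a (c (l 530679567) (l 530645775)) (c (l 531020559) (a (l 530908431) (l 531072271)))) (a (c (l 530878223) (c (l 530856463) (a (l 530760463) (l 530921743)))) (l 530626575))) (a (a (a (b (l 531030287) (l 3)) (l 3)) (l 3)) (l 3)))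 (b (b (a (b (l 531293967) (l 531333647)) (c (l 531589647) (a (l 531505423) (l 531360783)))) (a (c (l 531432463) (l 531411727)) (l 3))) (l 3)))) (b (b (b (a (a (a (c (l 531818511) (a (l 531745039) (c (l 531857679) (l 531580431)))) (a (b (a (a (b (l 531710223) (l 3)) (l 3)) (l 3)) (l 3)) (l 3))) (l 3)) (l 3)) (l 3)) (l 3)) (l 3))) (l 3)) (l 3)) (l 3)), by decide +kernel⟩

def k20_B00pp_012_s1 : ∃ t, chk3 f_B00pp_012_s1 t 6 1 1 = true :=
  ⟨(b (a (b (b (a (l 6) (l 16524712)) (a (a (l 16344936) (l 16429376)) (a (l 16518616) (b (l 16598544) (l 16545800))))) (b (a (a (b (l 16388024) (b (l 16426976) (l 16471456))) (b (l 16480432) (l 16468968))) (a (b (b (l 16561784) (l 16593448)) (a (l 16623744) (l 16582176))) (b (l 16588432) (l 534602255)))) (a (a (b (a (l 16521344) (l 16486928)) (a (l 528827407) (b (l 16641304) (l 16643160)))) (b (a (l 16532784) (l 531002127)) (a (b (l 16594536) (l 531916047)) (l 532177423)))) (a (b (a (l 532648719) (l 533845775)) (l 534007311))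 (b (l 535382543) (l 535103759)))))) (b (b (a (l 16626368) (b (l 16586512) (a (l 16690576) (l 16621736)))) (a (b (a (l 16696064) (l 16740680)) (a (l 16642640) (l 16684136))) (a (b (b (l 16679888) (l 16678336)) (l 16604168)) (b (a (l 16590176) (l 16596072)) (l 531605007))))) (a (b (a (b (l 16672584) (l 536309519)) (b (l 535317007) (l 534629647))) (a (b (l 534639887) (l 533388559)) (b (l 533072911) (l 531427343)))) (b (a (b (l 533266447) (l 532245775)) (b (l 530663951) (l 529547791))) (a (b (l 530500367) (l 528550927)) (b (a (l 528947983) (l 527556367)) (l 3))))))) (b (b (a (a (b (a (a (a (l 529934095) (b (l 16659928) (l 530296591))) (b (a (l 531115023) (l 531798287)) (a (l 532020239) (l 532643087)))) (a (b (l 532668431) (l 533554703)) (l 534333199))) (a (b (a (a (b (l 531436815) (l 531189007)) (l 532104719)) (l 533300751)) (b (a (b (a (l 532154383) (l 533034511)) (l 3)) (l 3)) (l 3))) (b (l 534606351) (l 3)))) (b (a (b (l 535740175) (l 535114511)) (l 532749071))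 (l 3))) (l 3)) (l 3)) (l 3))), by decide +kernel⟩

def k21_B00pp_012_s1 : ∃ t, chk3 f_B00pp_012_s1 t 14 4 1 = true :=
  ⟨(b (a (b (a (l 16560584) (l 16456768)) (a (b (l 16532680) (a (l 16544480) (l 16420656))) (b (a (l 16416504) (b (l 16412112) (l 16424936))) (l 16379944)))) (b (a (b (l 16363152) (a (b (l 16373448) (l 16326984)) (b (a (l 16335424) (l 16230328)) (l 16337488)))) (b (a (a (l 16298952) (b (l 16278112) (l 16229696))) (b (a (l 16252368) (b (l 16229528) (l 16144096))) (a (b (l 16249184) (l 16260000)) (l 16245504)))) (a (b (a (l 16298368) (l 16289472)) (l 16321344)) (l 16295104)))) (a (a (b (l 16392464) (l 16436328)) (l 524913935)) (a (l 523706127) (l 522504463))))) (a (b (a (l 529873423) (l 526866703)) (a (l 528803599) (l 526271247))) (b (a (a (l 525557007) (l 524333071)) (b (l 522692623) (l 522325519))) (a (a (l 524655119) (l 523409935)) (b (l 521848079) (l 521286159)))))), by decide +kernel⟩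

def k22_B00pp_012_s1 : ∃ t, chk3 f_B00pp_012_s1 t 15 4 1 = true :=
  ⟨(b (a (a (b (b (a (b (a (b (l 16123192) (l 16215112)) (l 16159360)) (l 16237880)) (l 16214144)) (l 520761103)) (a (l 521309711) (l 520122383))) (b (a (l 519341071) (l 517905935)) (a (l 518674191) (l 517500431)))) (a (b (a (l 516476175) (b (l 515942159) (l 515760143))) (a (b (l 516721935) (l 516487183)) (b (l 515541263) (l 515284239)))) (b (b (a (l 514774799) (l 513601807)) (a (l 514579215) (l 513392143))) (b (a (l 514346255) (l 513145359)) (a (l 514075151) (l 512859919)))))) (a (b (a (b (l 518958607) (a (l 520530191) (l 519350031))) (a (b (l 518534159) (l 518183951)) (b (l 517364495) (l 516759823)))) (a (b (a (l 520046863) (l 518867471)) (l 518871055)) (b (b (a (l 517851663) (b (l 516777487) (l 516650511))) (l 516995343)) (l 515464719)))) (b (a (a (b (l 515665423) (a (l 516160783) (l 515576079))) (b (l 514987535) (l 514649103))) (b (a (l 513764111) (l 512534543)) (a (l 513411855) (l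 512167695)))) (a (b (a (b (a (l 515881487) (l 515302927)) (a (l 515594511) (a (l 515183119) (l 3)))) (b (l 514372111) (l 3))) (l 3)) (l 3))))), by decide +kernel⟩

def k23_B00pp_012_s1 : ∃ t, chk3 f_B00pp_012_s1 t 7 5 1 = true :=
  ⟨(a (a (b (a (b (l 528047375) (l 526850831)) (b (l 525443855) (l 523910671))) (b (a (b (l 525847311) (l 3)) (l 3)) (l 3))) (b (a (b (l 522069007) (l 520211215)) (b (a (l 520981775) (l 519740175)) (l 3))) (l 3))) (a (b (a (b (a (l 518517775) (l 517316623)) (l 3)) (l 3)) (l 3)) (l 3))), by decide +kernel⟩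

def k24_B00pp_012_s1 : ∃ t, chk3 f_B00pp_012_s1 t 7 3 1 = true :=
  ⟨(l 3), by decide +kernel⟩

theorem t25_B00pp_012_s1 : ∃ t, chk3 f_B00pp_012_s1 t 7 4 1 = true := ex3_a k21_B00pp_012_s1 k22_B00pp_012_s1

theorem t26_B00pp_012_s1 : ∃ t, chk3 f_B00pp_012_s1 t 7 2 1 = true := ex3_b t25_B00pp_012_s1 k23_B00pp_012_s1

theorem t27_B00pp_012_s1 : ∃ t, chk3 f_B00pp_012_s1 t 7 1 1 = true := ex3_b t26_B00pp_012_s1 k24_B00pp_012_s1

theorem t28_B00pp_012_s1 : ∃ t, chk3 f_B00pp_012_s1 t 3 1 1 = true := ex3_a k20_B00pp_012_s1 t27_B00pp_012_s1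

theorem t29_B00pp_012_s1 : ∃ t, chk3 f_B00pp_012_s1 t 10 6 1 = true := ex3_a k16_B00pp_012_s1 k17_B00pp_012_s1

theorem t30_B00pp_012_s1 : ∃ t, chk3 f_B00pp_012_s1 t 5 6 1 = true := ex3_a t29_B00pp_012_s1 k18_B00pp_012_s1

theorem t31_B00pp_012_s1 : ∃ t, chk3 f_B00pp_012_s1 t 5 3 1 = true := ex3_b t30_B00pp_012_s1 k19_B00pp_012_s1

theorem t32_B00pp_012_s1 : ∃ t, chk3 f_B00pp_012_s1 t 4 30 1 = true := ex3_a k13_B00pp_012_s1 k14_B00pp_012_s1

theorem t33_B00pp_012_s1 : ∃ t, chk3 f_B00pp_012_s1 t 4 15 1 = true := ex3_b t32_B00pp_012_s1 k15_B00pp_012_s1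

theorem t34_B00pp_012_s1 : ∃ t, chk3 f_B00pp_012_s1 t 4 59 1 = true := ex3_a k11_B00pp_012_s1 k12_B00pp_012_s1

theorem t35_B00pp_012_s1 : ∃ t, chk3 f_B00pp_012_s1 t 4 58 1 = true := ex3_a k9_B00pp_012_s1 k10_B00pp_012_s1

theorem t36_B00pp_012_s1 : ∃ t, chk3 f_B00pp_012_s1 t 4 29 1 = true := ex3_b t35_B00pp_012_s1 t34_B00pp_012_s1

theorem t37_B00pp_012_s1 : ∃ t, chk3 f_B00pp_012_s1 t 9 28 1 = true := ex3_a k7_B00pp_012_s1 k8_B00pp_012_s1

theorem t38_B00pp_012_s1 : ∃ t, chk3 f_B00pp_012_s1 t 4 28 1 = true := ex3_a k6_B00pp_012_s1 t37_B00pp_012_s1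

theorem t39_B00pp_012_s1 : ∃ t, chk3 f_B00pp_012_s1 t 4 14 1 = true := ex3_b t38_B00pp_012_s1 t36_B00pp_012_s1

theorem t40_B00pp_012_s1 : ∃ t, chk3 f_B00pp_012_s1 t 4 7 1 = true := ex3_b t39_B00pp_012_s1 t33_B00pp_012_s1

theorem t41_B00pp_012_s1 : ∃ t, chk3 f_B00pp_012_s1 t 38 6 1 = true := ex3_b k3_B00pp_012_s1 k4_B00pp_012_s1

theorem t42_B00pp_012_s1 : ∃ t, chk3 f_B00pp_012_s1 t 19 6 1 = true := ex3_a t41_B00pp_012_s1 k5_B00pp_012_s1

theorem t43_B00pp_012_s1 : ∃ t, chk3 f_B00pp_012_s1 t 9 6 1 = true := ex3_a k2_B00pp_012_s1 t42_B00pp_012_s1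

theorem t44_B00pp_012_s1 : ∃ t, chk3 f_B00pp_012_s1 t 4 6 1 = true := ex3_a k1_B00pp_012_s1 t43_B00pp_012_s1

theorem t45_B00pp_012_s1 : ∃ t, chk3 f_B00pp_012_s1 t 4 3 1 = true := ex3_b t44_B00pp_012_s1 t40_B00pp_012_s1

theorem t46_B00pp_012_s1 : ∃ t, chk3 f_B00pp_012_s1 t 2 3 1 = true := ex3_a t45_B00pp_012_s1 t31_B00pp_012_s1

theorem t47_B00pp_012_s1 : ∃ t, chk3 f_B00pp_012_s1 t 2 1 1 = true := ex3_b k0_B00pp_012_s1 t46_B00pp_012_s1

theorem t48_B00pp_012_s1 : ∃ t, chk3 f_B00pp_012_s1 t 1 1 1 = true := ex3_a t47_B00pp_012_s1 t28_B00pp_012_s1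

theorem c_B00pp_012_s1 : CertF 0 536870912 0 536870912 1033476505 6710887 false true true .pnp 0 1 2
    ndB0q0 ndB0q2 pcB1 cut_B00pp_012_s1 xt_B00pp_012_s1 :=
  certF0 (fam := false) (s1 := true) (s2 := true) (a := 0) (b := 1) (c := 2) (cn := .pnp) (n1 := ndB0q0) (n2 := ndB0q2) (pc := pcB1) (cut := cut_B00pp_012_s1) (xt := xt_B00pp_012_s1) (P1 := 0) (W1 := 536870912) (P2 := 0) (W2 := 536870912) (P3 := 1033476505) (W3 := 6710887)
    rfl t48_B00pp_012_s1

theorem s_B00pp_012_s1 {κ x : ℝ} (hκ : κ * h0 = ken x) (hx : ((1033476505 : ℕ) : ℝ) / S ≤ x)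
    (hx' : x ≤ (((1033476505 : ℕ) : ℝ) + (6710887 : ℕ)) / S)
    (H : CutB (VFD κ) PP tK tL pcB (Cut.of [[⟨0, 0, 0, 16777216⟩, ⟨1, 1, 0, 16777216⟩, ⟨2, 1, 0, 16777216⟩]]) 0 1 2 0 0 (sgb true) (sgb true) x) :
    AltB (VFD κ) PP tK tL pcB [⟨3, 0, 0, 1449551462⟩] 0 1 2 0 0 (sgb true) (sgb true) x :=
  strip_altBD (m := 1449551462) true rfl hκ (SH.κ0 hκ (SH.hx1 hx).le (SH.hx2 hx').le) (SH.hx1 hx).le (SH.hx2 hx') (covB00).cov (covB02).cov hx hx' c_B00pp_012_s1 H ((okx hx hx').extB (T := tt) (sideB hx hx') hκ rfl rfl (.O 0 true) (.O 2 true) (Or.inr rfl))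

noncomputable def cut_B00pp_012_s3 : Cut := Cut.of [[⟨3, 0, 0, 2845415833⟩], [⟨0, 0, 0, 16777216⟩, ⟨1, 1, 0, 16777216⟩, ⟨2, 1, 0, 16777216⟩]]

noncomputable def f_B00pp_012_s3 : ℕ → ℕ → ℕ → ℕ → Bool := onCell 0 536870912 0 536870912 1033476505 6710887
    (rowF 0 false true true .pnp 0 1 2 (qsf 0 536870912 0 536870912 1) ndB0q0 ndB0q2 pcB1 cut_B00pp_012_s3 Ext.none)

def k0_B00pp_012_s3 : ∃ t, chk3 f_B00pp_012_s3 t 1 1 1 = true :=
  ⟨(l 6), by decide +kernel⟩

theorem c_B00pp_012_s3 : CertF 0 536870912 0 536870912 1033476505 6710887 false true true .pnp 0 1 2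
    ndB0q0 ndB0q2 pcB1 cut_B00pp_012_s3 Ext.none :=
  certF0 (fam := false) (s1 := true) (s2 := true) (a := 0) (b := 1) (c := 2) (cn := .pnp) (n1 := ndB0q0) (n2 := ndB0q2) (pc := pcB1) (cut := cut_B00pp_012_s3) (xt := Ext.none) (P1 := 0) (W1 := 536870912) (P2 := 0) (W2 := 536870912) (P3 := 1033476505) (W3 := 6710887)
    rfl k0_B00pp_012_s3

theorem s_B00pp_012_s3 {κ x : ℝ} (hκ : κ * h0 = ken x) (hx : ((1033476505 : ℕ) : ℝ) / S ≤ x)
    (hx' : x ≤ (((1033476505 : ℕ) : ℝ) + (6710887 : ℕ)) / S)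
    (H : CutB (VFD κ) PP tK tL pcB (Cut.of [[⟨0, 0, 0, 16777216⟩, ⟨1, 1, 0, 16777216⟩, ⟨2, 1, 0, 16777216⟩]]) 0 1 2 0 0 (sgb true) (sgb true) x) :
    AltB (VFD κ) PP tK tL pcB [⟨4, 0, 0, 2845415833⟩] 0 1 2 0 0 (sgb true) (sgb true) x :=
  strip_altBD (m := 2845415833) false rfl hκ (SH.κ0 hκ (SH.hx1 hx).le (SH.hx2 hx').le) (SH.hx1 hx).le (SH.hx2 hx') (covB00).cov (covB02).cov hx hx' c_B00pp_012_s3 H (noExt_B)

noncomputable def cut_B00pp_022_s1 : Cut := Cut.of [[⟨4, 0, 0, 1449551462⟩], [⟨0, 0, 0, 26843545⟩, ⟨1, 1, 0, 26843545⟩, ⟨2, 1, 0, 26843545⟩]]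

noncomputable def f_B00pp_022_s1 : ℕ → ℕ → ℕ → ℕ → Bool := onCell 1073741824 536870912 0 536870912 1033476505 6710887
    (rowF 2 false true true .pp 0 2 2 (qsf 0 536870912 0 536870912 2) ndB0q0 ndB0q2 pcB2 cut_B00pp_022_s1 Ext.none)

def k0_B00pp_022_s1 : ∃ t, chk3 f_B00pp_022_s1 t 4 2 1 = true :=
  ⟨(a (b (l 6) (a (b (l 6) (b (l 6) (b (a (a (a (l 16347440) (l 16358664)) (l 16313928)) (l 6)) (a (a (a (b (l 16370512) (l 16357824)) (l 16333520)) (l 16289304)) (a (l 16191064) (l 16190112)))))) (l 6))) (l 6)), by decide +kernel⟩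

def k1_B00pp_022_s1 : ∃ t, chk3 f_B00pp_022_s1 t 16 12 1 = true :=
  ⟨(b (a (a (a (b (b (l 16345120) (l 16332592)) (b (l 16320528) (l 16288032))) (b (l 16308656) (l 16285424))) (b (a (l 16279720) (l 16250072)) (a (a (l 16264264) (l 16166016)) (l 16230712)))) (a (b (l 16229224) (a (l 16126216) (l 16192192))) (b (l 16178448) (l 16096176)))) (a (a (a (b (a (b (l 16305448) (l 16274288)) (a (l 16247416) (l 16240280))) (b (b (a (l 16288200) (l 16273920)) (a (l 16284144) (l 16270192))) (b (a (a (a (l 16286680) (l 16283120)) (l 16277944)) (l 16226264)) (a (a (b (l 16283792) (l 16283576)) (l 16277056)) (l 16267984))))) (a (b (b (l 16276656) (l 16266712)) (b (l 16216880) (l 16225008))) (b (c (l 16217768) (l 16171496)) (b (l 16246736) (l 16246744))))) (b (a (a (l 16202784) (l 16149536)) (l 16133856)) (a (b (l 16147976) (l 16192936)) (b (l 16217088) (l 16223704))))) (b (a (a (l 16203064) (l 16111776)) (l 16102992)) (a (b (l 16121488) (l 16131376)) (l 16201160))))),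 by decide +kernel⟩

def k2_B00pp_022_s1 : ∃ t, chk3 f_B00pp_022_s1 t 16 26 1 = true :=
  ⟨(a (a (b (a (b (b (a (a (b (l 16283920) (l 16284792)) (l 16278312)) (l 16291064)) (a (c (a (b (l 16288160) (l 16290072)) (l 16283664)) (l 16282376)) (c (l 16276280) (l 16272312)))) (b (a (c (a (b (l 16292512) (l 16295456)) (l 16289080)) (l 16287608)) (l 16259592)) (a (c (a (b (l 16298920) (l 16302880)) (l 16296528)) (l 16294912)) (l 16267880)))) (a (b (l 16241864) (l 16256424)) (b (l 16255152) (l 16271616)))) (b (b (a (a (c (a (b (l 16307344) (l 16312304)) (l 16305968)) (l 16304240)) (l 16278144)) (l 16270120)) (a (a (c (a (b (l 16317752) (l 16323672)) (l 16317352)) (l 16315536)) (l 16290328)) (l 16283632))) (b (a (a (c (a (b (l 16330072) (l 16336936)) (l 16330624)) (l 16328760)) (a (l 16326504) (l 16324280))) (a (l 16321464) (l 16318712))) (a (a (c (a (b (l 16344264) (l 16352048)) (l 16345728)) (l 16343848)) (l 16325488)) (l 16315992))))) (b (a (b (l 16204176) (c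 (l 16226040) (l 16180496))) (b (l 16154992) (l 16260096))) (a (b (l 16249784) (a (l 16282376) (l 16321944))) (l 16301584)))) (b (a (b (l 16209664) (l 16252424)) (l 16227096)) (a (l 16289936) (l 16269320)))), by decide +kernel⟩

def k3_B00pp_022_s1 : ∃ t, chk3 f_B00pp_022_s1 t 16 27 1 = true :=
  ⟨(a (a (b (b (a (c (a (a (b (b (l 16360272) (l 16368928)) (b (l 16378016) (l 16387528))) (b (l 16362608) (c (l 16366192) (l 16380656)))) (b (l 16339376) (l 16358272))) (a (b (l 16360744) (l 16369104)) (l 16367072))) (a (b (l 16356320) (l 16375464)) (l 16363032))) (a (b (a (c (a (c (b (l 16398088) (l 16408304)) (l 16402008)) (l 16385520)) (l 16378648)) (l 16398160)) (a (a (b (l 16417232) (l 16427936)) (l 16421128)) (l 16418744))) (l 16400624))) (a (b (a (c (b (l 16433752) (l 16466000)) (l 16453488)) (c (l 16451224) (l 16449704))) (b (l 16485288) (l 16507568))) (b (l 16443944) (l 16486176)))) (b (b (l 16354000) (l 16390120)) (b (l 16428312) (l 16468152)))) (b (a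 (b (l 16334480) (l 16367544)) (l 16324712)) (a (l 16358312) (l 16390440)))), by decide +kernel⟩

def k4_B00pp_022_s1 : ∃ t, chk3 f_B00pp_022_s1 t 17 6 1 = true :=
  ⟨(b (b (a (a (b (l 16166072) (l 16086584)) (l 16161840)) (l 16139448)) (a (b (l 16171664) (l 16176800)) (b (l 16131632) (l 16128544)))) (a (b (b (l 16194504) (l 16229784)) (b (l 16279208) (l 16256672))) (b (b (l 16139528) (l 16168736)) (b (l 16213792) (l 16272008))))), by decide +kernel⟩

def k5_B00pp_022_s1 : ∃ t, chk3 f_B00pp_022_s1 t 8 7 1 = true :=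
  ⟨(b (b (a (a (b (b (a (a (a (l 16502200) (l 16538544)) (l 16529488)) (l 16509224)) (a (a (l 16544944) (l 16573424)) (l 16551072))) (a (b (a (l 16590496) (l 16617512)) (b (l 16616520) (l 16638536))) (b (l 16593184) (l 16551376)))) (b (a (l 16414312) (l 16463912)) (b (l 16456544) (l 16496280)))) (a (b (l 16326480) (a (l 16504552) (l 16468064))) (b (l 16340584) (l 16416512)))) (a (b (a (a (b (b (l 16660256) (l 16658864)) (a (b (l 16678576) (l 16663432)) (l 16599880))) (b (l 16592920) (l 16619480))) (b (l 16536048) (l 16574040))) (a (a (a (b (b (l 16628216) (l 16637296)) (b (l 16630144) (l 16627448))) (b (b (l 16662640) (l 16651040)) (l 16642440))) (b (l 16634952) (l 16579504))) (b (l 16608736) (l 16619112)))) (b (a (a (l 16498088) (l 16545616)) (l 16412088)) (a (b (l 16533336) (l 16556552)) (b (l 16552688) (l 1)))))) (a (b (a (b (a (b (b (l 16635824) (l 16637880)) (b (l 16638608) (l 16645976))) (b (l 16665184) (b (l 16667432) (l 16673952)))) (b (a (a (l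 16660232) (l 16675952)) (l 16656112)) (l 14))) (b (b (l 16662840) (b (l 16622848) (a (l 16657576) (b (l 16628880) (l 16624736))))) (a (b (l 16682456) (l 14)) (b (a (l 16618944) (l 16684912)) (a (l 16682376) (l 1)))))) (a (l 14) (a (l 14) (l 1)))) (b (b (a (a (b (l 16666904) (b (l 16673336) (l 16634304))) (l 1)) (l 1)) (l 1)) (l 1)))), by decide +kernel⟩

def k6_B00pp_022_s1 : ∃ t, chk3 f_B00pp_022_s1 t 9 3 1 = true :=
  ⟨(b (b (a (b (l 6) (a (l 16074392) (l 16020016))) (l 6)) (a (b (a (l 16091048) (l 16035072)) (a (b (l 16150480) (l 16208816)) (l 16041688))) (b (a (l 15991496) (l 1)) (l 1)))) (b (a (a (b (b (l 16279152) (l 16358720)) (l 1)) (l 1)) (l 1)) (l 1))), by decide +kernel⟩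

def k7_B00pp_022_s1 : ∃ t, chk3 f_B00pp_022_s1 t 5 1 1 = true :=
  ⟨(b (l 6) (b (l 1) (l 1))), by decide +kernel⟩

def k8_B00pp_022_s1 : ∃ t, chk3 f_B00pp_022_s1 t 3 1 1 = true :=
  ⟨(l 1), by decide +kernel⟩

theorem t9_B00pp_022_s1 : ∃ t, chk3 f_B00pp_022_s1 t 16 13 1 = true := ex3_b k2_B00pp_022_s1 k3_B00pp_022_s1

theorem t10_B00pp_022_s1 : ∃ t, chk3 f_B00pp_022_s1 t 16 6 1 = true := ex3_b k1_B00pp_022_s1 t9_B00pp_022_s1

theorem t11_B00pp_022_s1 : ∃ t, chk3 f_B00pp_022_s1 t 8 6 1 = true := ex3_a t10_B00pp_022_s1 k4_B00pp_022_s1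

theorem t12_B00pp_022_s1 : ∃ t, chk3 f_B00pp_022_s1 t 8 3 1 = true := ex3_b t11_B00pp_022_s1 k5_B00pp_022_s1

theorem t13_B00pp_022_s1 : ∃ t, chk3 f_B00pp_022_s1 t 4 3 1 = true := ex3_a t12_B00pp_022_s1 k6_B00pp_022_s1

theorem t14_B00pp_022_s1 : ∃ t, chk3 f_B00pp_022_s1 t 4 1 1 = true := ex3_b k0_B00pp_022_s1 t13_B00pp_022_s1

theorem t15_B00pp_022_s1 : ∃ t, chk3 f_B00pp_022_s1 t 2 1 1 = true := ex3_a t14_B00pp_022_s1 k7_B00pp_022_s1

theorem t16_B00pp_022_s1 : ∃ t, chk3 f_B00pp_022_s1 t 1 1 1 = true := ex3_a t15_B00pp_022_s1 k8_B00pp_022_s1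

theorem c_B00pp_022_s1 : CertF 0 536870912 0 536870912 1033476505 6710887 false true true .pp 0 2 2
    ndB0q0 ndB0q2 pcB2 cut_B00pp_022_s1 Ext.none :=
  certF2 (fam := false) (s1 := true) (s2 := true) (a := 0) (b := 2) (c := 2) (cn := .pp) (n1 := ndB0q0) (n2 := ndB0q2) (pc := pcB2) (cut := cut_B00pp_022_s1) (xt := Ext.none) (P1 := 0) (W1 := 536870912) (P2 := 0) (W2 := 536870912) (P3 := 1033476505) (W3 := 6710887)
    rfl (fun _ => rfl) t16_B00pp_022_s1

theorem s_B00pp_022_s1 {κ x : ℝ} (hκ : κ * h0 = ken x) (hx : ((1033476505 : ℕ) : ℝ) / S ≤ x)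
    (hx' : x ≤ (((1033476505 : ℕ) : ℝ) + (6710887 : ℕ)) / S)
    (H : CutB (VFD κ) PP tK tL pcB (Cut.of [[⟨0, 0, 0, 26843545⟩, ⟨1, 1, 0, 26843545⟩, ⟨2, 1, 0, 26843545⟩]]) 0 2 2 0 0 (sgb true) (sgb true) x) :
    AltB (VFD κ) PP tK tL pcB [⟨3, 0, 0, 1449551462⟩] 0 2 2 0 0 (sgb true) (sgb true) x :=
  strip_altBD (m := 1449551462) true rfl hκ (SH.κ0 hκ (SH.hx1 hx).le (SH.hx2 hx').le) (SH.hx1 hx).le (SH.hx2 hx') (covB00).cov (covB02).cov hx hx' c_B00pp_022_s1 H (noExt_B)

noncomputable def cut_B00pp_022_s3 : Cut := Cut.of [[⟨3, 0, 0, 2845415833⟩], [⟨0, 0, 0, 26843545⟩, ⟨1, 1, 0, 26843545⟩, ⟨2, 1, 0, 26843545⟩]]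

noncomputable def f_B00pp_022_s3 : ℕ → ℕ → ℕ → ℕ → Bool := onCell 0 536870912 0 536870912 1033476505 6710887
    (rowF 0 false true true .pp 0 2 2 (qsf 0 536870912 0 536870912 2) ndB0q0 ndB0q2 pcB2 cut_B00pp_022_s3 Ext.none)

def k0_B00pp_022_s3 : ∃ t, chk3 f_B00pp_022_s3 t 1 1 1 = true :=
  ⟨(l 6), by decide +kernel⟩

theorem c_B00pp_022_s3 : CertF 0 536870912 0 536870912 1033476505 6710887 false true true .pp 0 2 2
    ndB0q0 ndB0q2 pcB2 cut_B00pp_022_s3 Ext.none :=
  certF0 (fam := false) (s1 := true) (s2 := true) (a := 0) (b := 2) (c := 2) (cn := .pp) (n1 := ndB0q0) (n2 := ndB0q2) (pc := pcB2) (cut := cut_B00pp_022_s3) (xt := Ext.none) (P1 := 0) (W1 := 536870912) (P2 := 0) (W2 := 536870912) (P3 := 1033476505) (W3 := 6710887)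
    rfl k0_B00pp_022_s3

theorem s_B00pp_022_s3 {κ x : ℝ} (hκ : κ * h0 = ken x) (hx : ((1033476505 : ℕ) : ℝ) / S ≤ x)
    (hx' : x ≤ (((1033476505 : ℕ) : ℝ) + (6710887 : ℕ)) / S)
    (H : CutB (VFD κ) PP tK tL pcB (Cut.of [[⟨0, 0, 0, 26843545⟩, ⟨1, 1, 0, 26843545⟩, ⟨2, 1, 0, 26843545⟩]]) 0 2 2 0 0 (sgb true) (sgb true) x) :
    AltB (VFD κ) PP tK tL pcB [⟨4, 0, 0, 2845415833⟩] 0 2 2 0 0 (sgb true) (sgb true) x :=
  strip_altBD (m := 2845415833) false rfl hκ (SH.κ0 hκ (SH.hx1 hx).le (SH.hx2 hx').le) (SH.hx1 hx).le (SH.hx2 hx') (covB00).cov (covB02).cov hx hx' c_B00pp_022_s3 H (noExt_B)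

noncomputable def cut_B00pp_101_s1 : Cut := Cut.of [[⟨4, 0, 0, 1449551462⟩]]

noncomputable def f_B00pp_101_s1 : ℕ → ℕ → ℕ → ℕ → Bool := onCell 536870912 536870912 536870912 536870912 1033476505 6710887
    (rowF 0 false true true .npn 1 0 1 (qsf 536870912 536870912 536870912 536870912 0) ndB0q1 ndB0q1 pcB0 cut_B00pp_101_s1 Ext.none)

def k0_B00pp_101_s1 : ∃ t, chk3 f_B00pp_101_s1 t 1 1 1 = true :=
  ⟨(l 3), by decide +kernel⟩

theorem c_B00pp_101_s1 : CertF 536870912 536870912 536870912 536870912 1033476505 6710887 false true true .npn 1 0 1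
    ndB0q1 ndB0q1 pcB0 cut_B00pp_101_s1 Ext.none :=
  certF0 (fam := false) (s1 := true) (s2 := true) (a := 1) (b := 0) (c := 1) (cn := .npn) (n1 := ndB0q1) (n2 := ndB0q1) (pc := pcB0) (cut := cut_B00pp_101_s1) (xt := Ext.none) (P1 := 536870912) (W1 := 536870912) (P2 := 536870912) (W2 := 536870912) (P3 := 1033476505) (W3 := 6710887)
    rfl k0_B00pp_101_s1

theorem s_B00pp_101_s1 {κ x : ℝ} (hκ : κ * h0 = ken x) (hx : ((1033476505 : ℕ) : ℝ) / S ≤ x)
    (hx' : x ≤ (((1033476505 : ℕ) : ℝ) + (6710887 : ℕ)) / S) :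
    AltB (VFD κ) PP tK tL pcB [⟨3, 0, 0, 1449551462⟩] 1 0 1 0 0 (sgb true) (sgb true) x :=
  strip_altBD (m := 1449551462) true rfl hκ (SH.κ0 hκ (SH.hx1 hx).le (SH.hx2 hx').le) (SH.hx1 hx).le (SH.hx2 hx') (covB01).cov (covB01).cov hx hx' c_B00pp_101_s1 cutB_nil (noExt_B)

noncomputable def cut_B00pp_101_s3 : Cut := Cut.of [[⟨3, 0, 0, 2845415833⟩]]

noncomputable def f_B00pp_101_s3 : ℕ → ℕ → ℕ → ℕ → Bool := onCell 536870912 536870912 536870912 536870912 1033476505 6710887
    (rowF 0 false true true .npn 1 0 1 (qsf 536870912 536870912 536870912 536870912 0) ndB0q1 ndB0q1 pcB0 cut_B00pp_101_s3 Ext.none)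

def k0_B00pp_101_s3 : ∃ t, chk3 f_B00pp_101_s3 t 1 1 1 = true :=
  ⟨(l 3), by decide +kernel⟩

theorem c_B00pp_101_s3 : CertF 536870912 536870912 536870912 536870912 1033476505 6710887 false true true .npn 1 0 1
    ndB0q1 ndB0q1 pcB0 cut_B00pp_101_s3 Ext.none :=
  certF0 (fam := false) (s1 := true) (s2 := true) (a := 1) (b := 0) (c := 1) (cn := .npn) (n1 := ndB0q1) (n2 := ndB0q1) (pc := pcB0) (cut := cut_B00pp_101_s3) (xt := Ext.none) (P1 := 536870912) (W1 := 536870912) (P2 := 536870912) (W2 := 536870912) (P3 := 1033476505) (W3 := 6710887)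
    rfl k0_B00pp_101_s3

theorem s_B00pp_101_s3 {κ x : ℝ} (hκ : κ * h0 = ken x) (hx : ((1033476505 : ℕ) : ℝ) / S ≤ x)
    (hx' : x ≤ (((1033476505 : ℕ) : ℝ) + (6710887 : ℕ)) / S) :
    AltB (VFD κ) PP tK tL pcB [⟨4, 0, 0, 2845415833⟩] 1 0 1 0 0 (sgb true) (sgb true) x :=
  strip_altBD (m := 2845415833) false rfl hκ (SH.κ0 hκ (SH.hx1 hx).le (SH.hx2 hx').le) (SH.hx1 hx).le (SH.hx2 hx') (covB01).cov (covB01).cov hx hx' c_B00pp_101_s3 cutB_nil (noExt_B)

noncomputable def cut_B00pp_102_s1 : Cut := Cut.of [[⟨4, 0, 0, 1449551462⟩]]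

noncomputable def f_B00pp_102_s1 : ℕ → ℕ → ℕ → ℕ → Bool := onCell 0 536870912 0 536870912 1033476505 6710887
    (rowF 2 false true true .npp 1 0 2 (qsf 536870912 536870912 0 536870912 0) ndB0q1 ndB0q2 pcB0 cut_B00pp_102_s1 Ext.none)

def k0_B00pp_102_s1 : ∃ t, chk3 f_B00pp_102_s1 t 1 1 1 = true :=
  ⟨(a (b (l 3) (l 3)) (l 3)), by decide +kernel⟩

theorem c_B00pp_102_s1 : CertF 536870912 536870912 0 536870912 1033476505 6710887 false true true .npp 1 0 2
    ndB0q1 ndB0q2 pcB0 cut_B00pp_102_s1 Ext.none :=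
  certF2 (fam := false) (s1 := true) (s2 := true) (a := 1) (b := 0) (c := 2) (cn := .npp) (n1 := ndB0q1) (n2 := ndB0q2) (pc := pcB0) (cut := cut_B00pp_102_s1) (xt := Ext.none) (P1 := 536870912) (W1 := 536870912) (P2 := 0) (W2 := 536870912) (P3 := 1033476505) (W3 := 6710887)
    rfl (fun _ => rfl) k0_B00pp_102_s1

theorem s_B00pp_102_s1 {κ x : ℝ} (hκ : κ * h0 = ken x) (hx : ((1033476505 : ℕ) : ℝ) / S ≤ x)
    (hx' : x ≤ (((1033476505 : ℕ) : ℝ) + (6710887 : ℕ)) / S) :
    AltB (VFD κ) PP tK tL pcB [⟨3, 0, 0, 1449551462⟩] 1 0 2 0 0 (sgb true) (sgb true) x :=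
  strip_altBD (m := 1449551462) true rfl hκ (SH.κ0 hκ (SH.hx1 hx).le (SH.hx2 hx').le) (SH.hx1 hx).le (SH.hx2 hx') (covB01).cov (covB02).cov hx hx' c_B00pp_102_s1 cutB_nil (noExt_B)

noncomputable def cut_B00pp_102_s3 : Cut := Cut.of [[⟨3, 0, 0, 2845415833⟩]]

noncomputable def f_B00pp_102_s3 : ℕ → ℕ → ℕ → ℕ → Bool := onCell 536870912 536870912 0 536870912 1033476505 6710887
    (rowF 0 false true true .npp 1 0 2 (qsf 536870912 536870912 0 536870912 0) ndB0q1 ndB0q2 pcB0 cut_B00pp_102_s3 Ext.none)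

def k0_B00pp_102_s3 : ∃ t, chk3 f_B00pp_102_s3 t 1 1 1 = true :=
  ⟨(l 6), by decide +kernel⟩

theorem c_B00pp_102_s3 : CertF 536870912 536870912 0 536870912 1033476505 6710887 false true true .npp 1 0 2
    ndB0q1 ndB0q2 pcB0 cut_B00pp_102_s3 Ext.none :=
  certF0 (fam := false) (s1 := true) (s2 := true) (a := 1) (b := 0) (c := 2) (cn := .npp) (n1 := ndB0q1) (n2 := ndB0q2) (pc := pcB0) (cut := cut_B00pp_102_s3) (xt := Ext.none) (P1 := 536870912) (W1 := 536870912) (P2 := 0) (W2 := 536870912) (P3 := 1033476505) (W3 := 6710887)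
    rfl k0_B00pp_102_s3

theorem s_B00pp_102_s3 {κ x : ℝ} (hκ : κ * h0 = ken x) (hx : ((1033476505 : ℕ) : ℝ) / S ≤ x)
    (hx' : x ≤ (((1033476505 : ℕ) : ℝ) + (6710887 : ℕ)) / S) :
    AltB (VFD κ) PP tK tL pcB [⟨4, 0, 0, 2845415833⟩] 1 0 2 0 0 (sgb true) (sgb true) x :=
  strip_altBD (m := 2845415833) false rfl hκ (SH.κ0 hκ (SH.hx1 hx).le (SH.hx2 hx').le) (SH.hx1 hx).le (SH.hx2 hx') (covB01).cov (covB02).cov hx hx' c_B00pp_102_s3 cutB_nil (noExt_B)

noncomputable def cut_B00pp_112_s1 : Cut := Cut.of [[⟨4, 0, 0, 1449551462⟩]]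

noncomputable def xt_B00pp_112_s1 : Ext := strExt dd false true true .u0 .u2 .u0m .dn 1 1 2 rfl rfl gf1 vv ndB0q1 ndB0q2

noncomputable def f_B00pp_112_s1 : ℕ → ℕ → ℕ → ℕ → Bool := onCell 536870912 536870912 0 536870912 1033476505 6710887
    (rowF 2 false true true .dn 1 1 2 (qsf 536870912 536870912 0 536870912 1) ndB0q1 ndB0q2 pcB1 cut_B00pp_112_s1 xt_B00pp_112_s1)

def k0_B00pp_112_s1 : ∃ t, chk3 f_B00pp_112_s1 t 1 1 1 = true :=
  ⟨(a (b (a (b (a (l 3) (b (a (b (a (b (l 501081871) (l 3)) (b (a (l 502031375) (l 503206415)) (a (l 3) (l 502923023)))) (l 3)) (a (b (b (a (l 504385295) (l 505566991)) (a (l 504114703) (l 505309711))) (b (a (l 3) (l 505058575)) (l 3))) (b (b (a (l 506750735) (l 507935503)) (a (l 506506511) (l 507704591))) (b (a (l 506268943) (l 507480079)) (a (l 3) (l 507262735)))))) (l 3))) (l 3)) (a (b (a (b (a (b (b (a (l 509120271) (l 510304271)) (a (l 508902671) (l 510099983))) (b (a (l 508691727) (l 509902607)) (a (l 508487695) (l 509712143))))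 (b (b (a (l 511486479) (l 512666383)) (a (l 511295759) (l 512488975))) (b (a (l 511111695) (l 512318735)) (a (l 510935055) (l 512155663))))) (b (a (b (a (l 3) (l 509529103)) (l 3)) (b (a (l 510765839) (l 512000271)) (a (l 3) (l 511852815)))) (l 3))) (b (l 1) (l 1))) (l 3)) (l 1))) (l 3)) (l 1)), by decide +kernel⟩

theorem c_B00pp_112_s1 : CertF 536870912 536870912 0 536870912 1033476505 6710887 false true true .dn 1 1 2
    ndB0q1 ndB0q2 pcB1 cut_B00pp_112_s1 xt_B00pp_112_s1 :=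
  certF2 (fam := false) (s1 := true) (s2 := true) (a := 1) (b := 1) (c := 2) (cn := .dn) (n1 := ndB0q1) (n2 := ndB0q2) (pc := pcB1) (cut := cut_B00pp_112_s1) (xt := xt_B00pp_112_s1) (P1 := 536870912) (W1 := 536870912) (P2 := 0) (W2 := 536870912) (P3 := 1033476505) (W3 := 6710887)
    rfl (fun _ => rfl) k0_B00pp_112_s1

theorem s_B00pp_112_s1 {κ x : ℝ} (hκ : κ * h0 = ken x) (hx : ((1033476505 : ℕ) : ℝ) / S ≤ x)
    (hx' : x ≤ (((1033476505 : ℕ) : ℝ) + (6710887 : ℕ)) / S) :
    AltB (VFD κ) PP tK tL pcB [⟨3, 0, 0, 1449551462⟩] 1 1 2 0 0 (sgb true) (sgb true) x :=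
  strip_altBD (m := 1449551462) true rfl hκ (SH.κ0 hκ (SH.hx1 hx).le (SH.hx2 hx').le) (SH.hx1 hx).le (SH.hx2 hx') (covB01).cov (covB02).cov hx hx' c_B00pp_112_s1 cutB_nil ((okx hx hx').extB (T := tt) (sideB hx hx') hκ rfl rfl (.O 1 true) (.O 2 true) (Or.inr rfl))

noncomputable def cut_B00pp_112_s3 : Cut := Cut.of [[⟨3, 0, 0, 2845415833⟩]]

noncomputable def f_B00pp_112_s3 : ℕ → ℕ → ℕ → ℕ → Bool := onCell 536870912 536870912 0 536870912 1033476505 6710887
    (rowF 0 false true true .dn 1 1 2 (qsf 536870912 536870912 0 536870912 1) ndB0q1 ndB0q2 pcB1 cut_B00pp_112_s3 Ext.none)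

def k0_B00pp_112_s3 : ∃ t, chk3 f_B00pp_112_s3 t 1 1 1 = true :=
  ⟨(l 6), by decide +kernel⟩

theorem c_B00pp_112_s3 : CertF 536870912 536870912 0 536870912 1033476505 6710887 false true true .dn 1 1 2
    ndB0q1 ndB0q2 pcB1 cut_B00pp_112_s3 Ext.none :=
  certF0 (fam := false) (s1 := true) (s2 := true) (a := 1) (b := 1) (c := 2) (cn := .dn) (n1 := ndB0q1) (n2 := ndB0q2) (pc := pcB1) (cut := cut_B00pp_112_s3) (xt := Ext.none) (P1 := 536870912) (W1 := 536870912) (P2 := 0) (W2 := 536870912) (P3 := 1033476505) (W3 := 6710887)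
    rfl k0_B00pp_112_s3

theorem s_B00pp_112_s3 {κ x : ℝ} (hκ : κ * h0 = ken x) (hx : ((1033476505 : ℕ) : ℝ) / S ≤ x)
    (hx' : x ≤ (((1033476505 : ℕ) : ℝ) + (6710887 : ℕ)) / S) :
    AltB (VFD κ) PP tK tL pcB [⟨4, 0, 0, 2845415833⟩] 1 1 2 0 0 (sgb true) (sgb true) x :=
  strip_altBD (m := 2845415833) false rfl hκ (SH.κ0 hκ (SH.hx1 hx).le (SH.hx2 hx').le) (SH.hx1 hx).le (SH.hx2 hx') (covB01).cov (covB02).cov hx hx' c_B00pp_112_s3 cutB_nil (noExt_B)

noncomputable def cut_B00pp_202_s1 : Cut := Cut.of [[⟨4, 0, 0, 1449551462⟩]]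

noncomputable def f_B00pp_202_s1 : ℕ → ℕ → ℕ → ℕ → Bool := onCell 0 536870912 0 536870912 1033476505 6710887
    (rowF 0 false true true .pp 2 0 2 (qsf 0 536870912 0 536870912 0) ndB0q2 ndB0q2 pcB0 cut_B00pp_202_s1 Ext.none)

def k0_B00pp_202_s1 : ∃ t, chk3 f_B00pp_202_s1 t 1 1 1 = true :=
  ⟨(l 3), by decide +kernel⟩

theorem c_B00pp_202_s1 : CertF 0 536870912 0 536870912 1033476505 6710887 false true true .pp 2 0 2
    ndB0q2 ndB0q2 pcB0 cut_B00pp_202_s1 Ext.none :=
  certF0 (fam := false) (s1 := true) (s2 := true) (a := 2) (b := 0) (c := 2) (cn := .pp) (n1 := ndB0q2) (n2 := ndB0q2) (pc := pcB0) (cut := cut_B00pp_202_s1) (xt := Ext.none) (P1 := 0) (W1 := 536870912) (P2 := 0) (W2 := 536870912) (P3 := 1033476505) (W3 := 6710887)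
    rfl k0_B00pp_202_s1

theorem s_B00pp_202_s1 {κ x : ℝ} (hκ : κ * h0 = ken x) (hx : ((1033476505 : ℕ) : ℝ) / S ≤ x)
    (hx' : x ≤ (((1033476505 : ℕ) : ℝ) + (6710887 : ℕ)) / S) :
    AltB (VFD κ) PP tK tL pcB [⟨3, 0, 0, 1449551462⟩] 2 0 2 0 0 (sgb true) (sgb true) x :=
  strip_altBD (m := 1449551462) true rfl hκ (SH.κ0 hκ (SH.hx1 hx).le (SH.hx2 hx').le) (SH.hx1 hx).le (SH.hx2 hx') (covB02).cov (covB02).cov hx hx' c_B00pp_202_s1 cutB_nil (noExt_B)

noncomputable def cut_B00pp_202_s3 : Cut := Cut.of [[⟨3, 0, 0, 2845415833⟩]]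

noncomputable def f_B00pp_202_s3 : ℕ → ℕ → ℕ → ℕ → Bool := onCell 0 536870912 0 536870912 1033476505 6710887
    (rowF 0 false true true .pp 2 0 2 (qsf 0 536870912 0 536870912 0) ndB0q2 ndB0q2 pcB0 cut_B00pp_202_s3 Ext.none)

def k0_B00pp_202_s3 : ∃ t, chk3 f_B00pp_202_s3 t 1 1 1 = true :=
  ⟨(l 3), by decide +kernel⟩

theorem c_B00pp_202_s3 : CertF 0 536870912 0 536870912 1033476505 6710887 false true true .pp 2 0 2
    ndB0q2 ndB0q2 pcB0 cut_B00pp_202_s3 Ext.none :=
  certF0 (fam := false) (s1 := true) (s2 := true) (a := 2) (b := 0) (c := 2) (cn := .pp) (n1 := ndB0q2) (n2 := ndB0q2) (pc := pcB0) (cut := cut_B00pp_202_s3) (xt := Ext.none) (P1 := 0) (W1 := 536870912) (P2 := 0) (W2 := 536870912) (P3 := 1033476505) (W3 := 6710887)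
    rfl k0_B00pp_202_s3

theorem s_B00pp_202_s3 {κ x : ℝ} (hκ : κ * h0 = ken x) (hx : ((1033476505 : ℕ) : ℝ) / S ≤ x)
    (hx' : x ≤ (((1033476505 : ℕ) : ℝ) + (6710887 : ℕ)) / S) :
    AltB (VFD κ) PP tK tL pcB [⟨4, 0, 0, 2845415833⟩] 2 0 2 0 0 (sgb true) (sgb true) x :=
  strip_altBD (m := 2845415833) false rfl hκ (SH.κ0 hκ (SH.hx1 hx).le (SH.hx2 hx').le) (SH.hx1 hx).le (SH.hx2 hx') (covB02).cov (covB02).cov hx hx' c_B00pp_202_s3 cutB_nil (noExt_B)

noncomputable def cut_B00pm_001_s1 : Cut := Cut.of [[⟨4, 0, 0, 1449551462⟩]]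

noncomputable def f_B00pm_001_s1 : ℕ → ℕ → ℕ → ℕ → Bool := onCell 0 536870912 536870912 536870912 1033476505 6710887
    (rowF 0 false true false .up 0 0 1 (qsf 0 536870912 536870912 536870912 0) ndB0q0 ndB0q1 pcB0 cut_B00pm_001_s1 Ext.none)

def k0_B00pm_001_s1 : ∃ t, chk3 f_B00pm_001_s1 t 1 1 1 = true :=
  ⟨(l 6), by decide +kernel⟩

theorem c_B00pm_001_s1 : CertF 0 536870912 536870912 536870912 1033476505 6710887 false true false .up 0 0 1
    ndB0q0 ndB0q1 pcB0 cut_B00pm_001_s1 Ext.none :=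
  certF0 (fam := false) (s1 := true) (s2 := false) (a := 0) (b := 0) (c := 1) (cn := .up) (n1 := ndB0q0) (n2 := ndB0q1) (pc := pcB0) (cut := cut_B00pm_001_s1) (xt := Ext.none) (P1 := 0) (W1 := 536870912) (P2 := 536870912) (W2 := 536870912) (P3 := 1033476505) (W3 := 6710887)
    rfl k0_B00pm_001_s1

theorem s_B00pm_001_s1 {κ x : ℝ} (hκ : κ * h0 = ken x) (hx : ((1033476505 : ℕ) : ℝ) / S ≤ x)
    (hx' : x ≤ (((1033476505 : ℕ) : ℝ) + (6710887 : ℕ)) / S) :
    AltB (VFD κ) PP tK tL pcB [⟨3, 0, 0, 1449551462⟩] 0 0 1 0 0 (sgb true) (sgb false) x :=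
  strip_altBD (m := 1449551462) true rfl hκ (SH.κ0 hκ (SH.hx1 hx).le (SH.hx2 hx').le) (SH.hx1 hx).le (SH.hx2 hx') (covB00).cov (covB01).cov hx hx' c_B00pm_001_s1 cutB_nil (noExt_B)

noncomputable def cut_B00pm_001_s3 : Cut := Cut.of [[⟨3, 0, 0, 2845415833⟩]]

noncomputable def xt_B00pm_001_s3 : Ext := strExt dd false true false .u0 .u0m .s0m .up 0 0 1 rfl rfl gl0 vv ndB0q0 ndB0q1

noncomputable def f_B00pm_001_s3 : ℕ → ℕ → ℕ → ℕ → Bool := onCell 0 536870912 536870912 536870912 1033476505 6710887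
    (rowF 0 false true false .up 0 0 1 (qsf 0 536870912 536870912 536870912 0) ndB0q0 ndB0q1 pcB0 cut_B00pm_001_s3 xt_B00pm_001_s3)

def k0_B00pm_001_s3 : ∃ t, chk3 f_B00pm_001_s3 t 2 1 1 = true :=
  ⟨(b (l 4) (b (b (l 4) (l 2)) (l 2))), by decide +kernel⟩

def k1_B00pm_001_s3 : ∃ t, chk3 f_B00pm_001_s3 t 3 4 1 = true :=
  ⟨(l 4), by decide +kernel⟩

def k2_B00pm_001_s3 : ∃ t, chk3 f_B00pm_001_s3 t 6 5 1 = true :=
  ⟨(l 4), by decide +kernel⟩

def k3_B00pm_001_s3 : ∃ t, chk3 f_B00pm_001_s3 t 14 5 1 = true :=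
  ⟨(b (l 4) (b (a (l 4) (b (l 4) (a (l 4) (a (b (l 4) (l 531855119)) (b (l 531530255) (l 531721231)))))) (a (b (a (l 4) (b (l 4) (l 532648719))) (a (l 533118479) (b (l 532800271) (l 532941327)))) (b (a (b (l 531958287) (l 532124175)) (b (c (l 531962895) (l 531699727)) (l 531867663))) (a (a (l 532684559) (l 532559887)) (a (l 532166927) (l 532041999))))))), by decide +kernel⟩

def k4_B00pm_001_s3 : ∃ t, chk3 f_B00pm_001_s3 t 15 10 1 = true :=
  ⟨(a (b (l 4) (b (l 4) (a (l 4) (b (b (l 4) (a (l 4) (l 530120207))) (c (l 530109199) (a (l 530452239) (l 530296079))))))) (b (a (l 4) (b (l 4) (b (l 4) (l 529463055)))) (b (a (a (l 4) (l 529673743)) (b (l 529530127) (l 529594127))) (a (a (b (a (b (l 4) (l 529999887)) (b (a (b (l 4) (a (l 529856783) (b (c (l 529826319) (l 529816335)) (l 529854991)))) (b (l 529793551) (b (l 529805583) (l 529823759)))) (a (l 529938703) (b (a (l 529878543) (l 529858575)) (l 529931535))))) (a (l 530181903) (a (l 530121999) (b (l 530022671)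 (l 530143247))))) (b (b (b (l 529747471) (b (l 529758991) (l 529770511))) (a (b (l 529821967) (l 529877263)) (l 529796879))) (a (b (a (l 529985295) (l 529950479)) (l 530087439)) (b (l 529900815) (l 530017807))))) (b (b (a (l 529681423) (l 529606671)) (a (l 529730831) (l 529650191))) (a (b (l 529817103) (a (l 529951759) (l 529892111))) (b (l 529722127) (l 529810959)))))))), by decide +kernel⟩

def k5_B00pm_001_s3 : ∃ t, chk3 f_B00pm_001_s3 t 15 11 1 = true :=
  ⟨(a (b (a (b (a (b (l 4) (l 530920975)) (b (l 530562831) (l 530778639))) (a (b (l 531392527) (l 531586575)) (b (l 531253519) (l 531450383)))) (b (a (b (l 530414607) (l 530902287)) (b (l 530532111) (l 530755087))) (a (b (l 531112207) (l 531312655)) (b (l 530968847) (l 531172879))))) (b (a (b (c (l 531701263) (l 531433487)) (c (l 531876879) (l 531609871))) (b (c (l 531434255) (l 531162127)) (c (l 531616527) (l 531344911)))) (a (b (l 531774991) (l 531930639)) (b (l 531518479) (l 531680527))))) (b (a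 (a (b (a (c (l 530533391) (l 530257167)) (a (l 530203919) (l 530165519))) (b (l 530554127) (l 531030543))) (b (b (a (c (l 530268943) (l 530258959)) (l 530192143)) (a (l 530492943) (l 530420495))) (b (a (l 530713103) (l 530640911)) (l 530618639)))) (b (b (a (b (a (l 530066703) (l 530000911)) (a (l 530181135) (l 530113807))) (b (l 529910287) (l 530015759))) (a (a (l 530349839) (l 530280975)) (b (l 530124815) (l 530235151)))) (a (b (a (l 530569999) (l 530499855)) (c (l 530751247) (l 530739983))) (b (a (l 530430991) (l 530363151)) (c (l 530613519) (l 530600207)))))) (a (a (b (b (l 531228687) (l 531416591)) (b (l 531594255) (l 531761679))) (a (b (l 530950159) (l 531579663)) (b (l 530880783) (l 531513103)))) (b (a (b (l 530948367) (l 531141903)) (b (l 530809615) (l 531004175))) (a (b (l 531325711) (l 531499279)) (a (l 531042319) (l 530974479))))))), by decide +kernel⟩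

def k6_B00pm_001_s3 : ∃ t, chk3 f_B00pm_001_s3 t 6 6 1 = true :=
  ⟨(b (a (a (l 4) (b (l 4) (a (l 4) (l 534673679)))) (a (b (l 4) (a (l 534521103) (l 534347791))) (b (a (b (l 4) (l 534031119)) (b (l 533075727) (l 533802255))) (a (l 534159887) (b (l 533934863) (l 534003471)))))) (a (b (a (l 2) (b (l 534503439) (l 2))) (l 2)) (b (a (a (l 534300431) (l 534209295)) (a (l 534091023) (l 533952783))) (b (a (l 533016335) (l 532672271)) (a (l 2) (l 16554512)))))), by decide +kernel⟩

def k7_B00pm_001_s3 : ∃ t, chk3 f_B00pm_001_s3 t 7 12 1 = true :=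
  ⟨(a (b (a (b (a (l 533369359) (l 533127695)) (a (l 533571599) (l 533341199))) (b (a (l 532618767) (b (l 532586511) (l 532715279))) (a (l 533111567) (l 532882959)))) (a (a (b (l 533720335) (l 533809423)) (b (l 533504015) (l 533610767))) (b (a (l 533287183) (l 533071119)) (a (l 533409807) (l 533208079))))) (a (b (b (a (a (l 532472847) (l 532352783)) (b (l 531831823) (l 532240911))) (a (b (l 532602127) (l 532714255)) (c (l 532427279) (l 531889679)))) (b (a (l 532855567) (l 532640271)) (a (l 533006607) (l 532805391)))) (b (a (b (a (l 531720975) (l 531596559)) (a (l 532259087) (l 531873295))) (b (a (l 531468303) (c (l 531611663) (l 531331599))) (a (l 531751183) (l 531625487)))) (b (a (a (l 532483087) (l 532373007)) (b (l 531873551) (l 16569456))) (a (b (l 16591136) (l 16582120)) (b (l 16560680) (l 16551664))))))), by decide +kernel⟩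

def k8_B00pm_001_s3 : ∃ t, chk3 f_B00pm_001_s3 t 7 13 1 = true :=
  ⟨(a (b (a (a (l 533799695) (b (l 16645232) (l 16667312))) (b (b (l 533362447) (l 533383183)) (b (l 533387791) (l 16546448)))) (b (a (a (l 16662192) (l 16643200)) (a (l 16622440) (b (l 16607120) (b (l 16596208) (l 16591048))))) (b (a (l 16619824) (a (b (l 16597344) (a (l 16591328) (l 16593584))) (b (a (l 16589144) (l 16598304)) (l 16627360)))) (a (a (l 16599752) (b (l 16510304) (a (l 16588080) (l 16612208)))) (a (b (l 16528472) (l 16655640)) (l 16686288)))))) (b (a (b (a (l 533103887) (l 532918287)) (a (l 16600496) (l 16574624))) (b (a (l 532463631) (b (l 16542312) (l 16532464))) (b (a (l 16552448) (l 16521992)) (a (b (l 16544064) (a (l 16545328) (l 6))) (l 6))))) (b (a (b (a (l 16582920) (b (l 16561112) (a (l 16564488) (b (l 16555968) (l 16569880))))) (a (b (a (l 16579136) (l 16575000)) (a (l 16585696) (l 16603632))) (b (l 16506640) (l 16634096)))) (b (a (b (a (b (l 16543504) (l 6))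 (l 6)) (l 6)) (l 6)) (l 6))) (a (a (a (l 16597872) (l 16533648)) (l 6)) (l 6))))), by decide +kernel⟩

def k9_B00pm_001_s3 : ∃ t, chk3 f_B00pm_001_s3 t 3 7 1 = true :=
  ⟨(b (a (a (l 2) (b (a (l 2) (b (b (b (l 16587296) (l 2)) (l 2)) (l 2))) (l 2))) (a (b (a (b (a (b (b (a (l 16576608) (l 16589600)) (l 16611544)) (l 16653616)) (l 16479744)) (a (l 16267472) (l 16192856))) (b (b (l 16449176) (l 16314592)) (l 6))) (a (a (l 2) (l 6)) (l 6))) (l 6))) (a (l 2) (l 6))), by decide +kernel⟩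

theorem t10_B00pm_001_s3 : ∃ t, chk3 f_B00pm_001_s3 t 7 6 1 = true := ex3_b k7_B00pm_001_s3 k8_B00pm_001_s3

theorem t11_B00pm_001_s3 : ∃ t, chk3 f_B00pm_001_s3 t 3 6 1 = true := ex3_a k6_B00pm_001_s3 t10_B00pm_001_s3

theorem t12_B00pm_001_s3 : ∃ t, chk3 f_B00pm_001_s3 t 3 3 1 = true := ex3_b t11_B00pm_001_s3 k9_B00pm_001_s3

theorem t13_B00pm_001_s3 : ∃ t, chk3 f_B00pm_001_s3 t 15 5 1 = true := ex3_b k4_B00pm_001_s3 k5_B00pm_001_s3

theorem t14_B00pm_001_s3 : ∃ t, chk3 f_B00pm_001_s3 t 7 5 1 = true := ex3_a k3_B00pm_001_s3 t13_B00pm_001_s3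

theorem t15_B00pm_001_s3 : ∃ t, chk3 f_B00pm_001_s3 t 3 5 1 = true := ex3_a k2_B00pm_001_s3 t14_B00pm_001_s3

theorem t16_B00pm_001_s3 : ∃ t, chk3 f_B00pm_001_s3 t 3 2 1 = true := ex3_b k1_B00pm_001_s3 t15_B00pm_001_s3

theorem t17_B00pm_001_s3 : ∃ t, chk3 f_B00pm_001_s3 t 3 1 1 = true := ex3_b t16_B00pm_001_s3 t12_B00pm_001_s3

theorem t18_B00pm_001_s3 : ∃ t, chk3 f_B00pm_001_s3 t 1 1 1 = true := ex3_a k0_B00pm_001_s3 t17_B00pm_001_s3

theorem c_B00pm_001_s3 : CertF 0 536870912 536870912 536870912 1033476505 6710887 false true false .up 0 0 1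
    ndB0q0 ndB0q1 pcB0 cut_B00pm_001_s3 xt_B00pm_001_s3 :=
  certF0 (fam := false) (s1 := true) (s2 := false) (a := 0) (b := 0) (c := 1) (cn := .up) (n1 := ndB0q0) (n2 := ndB0q1) (pc := pcB0) (cut := cut_B00pm_001_s3) (xt := xt_B00pm_001_s3) (P1 := 0) (W1 := 536870912) (P2 := 536870912) (W2 := 536870912) (P3 := 1033476505) (W3 := 6710887)
    rfl t18_B00pm_001_s3

theorem s_B00pm_001_s3 {κ x : ℝ} (hκ : κ * h0 = ken x) (hx : ((1033476505 : ℕ) : ℝ) / S ≤ x)
    (hx' : x ≤ (((1033476505 : ℕ) : ℝ) + (6710887 : ℕ)) / S) :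
    AltB (VFD κ) PP tK tL pcB [⟨4, 0, 0, 2845415833⟩] 0 0 1 0 0 (sgb true) (sgb false) x :=
  strip_altBD (m := 2845415833) false rfl hκ (SH.κ0 hκ (SH.hx1 hx).le (SH.hx2 hx').le) (SH.hx1 hx).le (SH.hx2 hx') (covB00).cov (covB01).cov hx hx' c_B00pm_001_s3 cutB_nil ((okx hx hx').extB (T := tt) (sideB hx hx') hκ rfl rfl (.O 0 true) (.O 1 false) (Or.inl rfl))

noncomputable def cut_B00pm_011_s1 : Cut := Cut.of [[⟨4, 0, 0, 1449551462⟩], [⟨0, 0, 0, 22369621⟩, ⟨1, 1, 0, 22369621⟩, ⟨2, 1, 0, 22369621⟩]]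

noncomputable def f_B00pm_011_s1 : ℕ → ℕ → ℕ → ℕ → Bool := onCell 0 536870912 536870912 536870912 1033476505 6710887
    (rowF 0 false true false .pnn 0 1 1 (qsf 0 536870912 536870912 536870912 1) ndB0q0 ndB0q1 pcB1 cut_B00pm_011_s1 Ext.none)

def k0_B00pm_011_s1 : ∃ t, chk3 f_B00pm_011_s1 t 1 1 1 = true :=
  ⟨(l 6), by decide +kernel⟩

theorem c_B00pm_011_s1 : CertF 0 536870912 536870912 536870912 1033476505 6710887 false true false .pnn 0 1 1
    ndB0q0 ndB0q1 pcB1 cut_B00pm_011_s1 Ext.none :=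
  certF0 (fam := false) (s1 := true) (s2 := false) (a := 0) (b := 1) (c := 1) (cn := .pnn) (n1 := ndB0q0) (n2 := ndB0q1) (pc := pcB1) (cut := cut_B00pm_011_s1) (xt := Ext.none) (P1 := 0) (W1 := 536870912) (P2 := 536870912) (W2 := 536870912) (P3 := 1033476505) (W3 := 6710887)
    rfl k0_B00pm_011_s1

theorem s_B00pm_011_s1 {κ x : ℝ} (hκ : κ * h0 = ken x) (hx : ((1033476505 : ℕ) : ℝ) / S ≤ x)
    (hx' : x ≤ (((1033476505 : ℕ) : ℝ) + (6710887 : ℕ)) / S)
    (H : CutB (VFD κ) PP tK tL pcB (Cut.of [[⟨0, 0, 0, 22369621⟩, ⟨1, 1, 0, 22369621⟩, ⟨2, 1, 0, 22369621⟩]]) 0 1 1 0 0 (sgb true) (sgb false) x) :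
    AltB (VFD κ) PP tK tL pcB [⟨3, 0, 0, 1449551462⟩] 0 1 1 0 0 (sgb true) (sgb false) x :=
  strip_altBD (m := 1449551462) true rfl hκ (SH.κ0 hκ (SH.hx1 hx).le (SH.hx2 hx').le) (SH.hx1 hx).le (SH.hx2 hx') (covB00).cov (covB01).cov hx hx' c_B00pm_011_s1 H (noExt_B)

noncomputable def cut_B00pm_011_s3 : Cut := Cut.of [[⟨3, 0, 0, 2845415833⟩], [⟨0, 0, 0, 22369621⟩, ⟨1, 1, 0, 22369621⟩, ⟨2, 1, 0, 22369621⟩]]

noncomputable def xt_B00pm_011_s3 : Ext := strExt dd false true false .u0 .u0m .s0m .pnn 0 1 1 rfl rfl gl1 vv ndB0q0 ndB0q1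

noncomputable def f_B00pm_011_s3 : ℕ → ℕ → ℕ → ℕ → Bool := onCell 0 536870912 536870912 536870912 1033476505 6710887
    (rowF 0 false true false .pnn 0 1 1 (qsf 0 536870912 536870912 536870912 1) ndB0q0 ndB0q1 pcB1 cut_B00pm_011_s3 xt_B00pm_011_s3)

def k0_B00pm_011_s3 : ∃ t, chk3 f_B00pm_011_s3 t 1 2 1 = true :=
  ⟨(a (l 4) (a (b (l 1) (l 4)) (l 1))), by decide +kernel⟩

def k1_B00pm_011_s3 : ∃ t, chk3 f_B00pm_011_s3 t 2 6 1 = true :=
  ⟨(a (l 4) (a (l 4) (b (l 4) (b (l 4) (a (b (l 4) (a (l 4) (b (l 4) (a (l 4) (b (l 4) (a (l 4) (b (a (l 4) (c (l 507148303) (l 506889487))) (a (c (l 506776591) (l 506516751)) (c (l 507078927) (l 506820623)))))))))) (b (a (l 4) (b (b (l 4) (b (l 4) (a (l 4) (b (l 4) (l 514410511))))) (a (b (l 4) (a (l 511479823) (l 512388623))) (b (l 513907471) (l 513808399))))) (a (b (a (l 4) (a (b (l 4) (a (b (l 4) (l 509029903)) (l 509473039))) (b (a (l 4) (l 510542095)) (a (l 509868815) (l 510272783))))) (b (a (a (a (l 4) (b (l 4)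 (l 507483663))) (a (b (l 508190991) (l 508096527)) (b (l 508550927) (l 508449551)))) (a (a (l 508864783) (l 509238543)) (l 509814543))) (a (a (b (a (c (l 507466767) (l 507209743)) (l 507666703)) (a (l 507262223) (l 507583503))) (a (b (l 508004111) (l 507913743)) (l 508300815))) (a (a (l 508652303) (l 509012495)) (l 509568271))))) (a (b (b (a (l 511182863) (l 512066063)) (l 510511119)) (b (l 510216975) (l 509930767))) (b (c (l 513113359) (l 512886799)) (b (l 512749327) (l 512411407))))))))))), by decide +kernel⟩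

def k2_B00pm_011_s3 : ∃ t, chk3 f_B00pm_011_s3 t 4 14 1 = true :=
  ⟨(b (l 4) (b (l 4) (b (l 4) (a (l 4) (a (l 4) (a (l 4) (a (a (l 4) (b (l 4) (b (l 4) (a (l 519348751) (c (c (l 518659343) (l 518629903)) (l 518586127)))))) (b (l 516804879) (a (b (l 517521167) (c (l 517756943) (l 517957391))) (l 516639247)))))))))), by decide +kernel⟩

def k3_B00pm_011_s3 : ∃ t, chk3 f_B00pm_011_s3 t 8 30 1 = true :=
  ⟨(b (l 4) (a (l 4) (a (l 4) (b (l 4) (a (l 4) (a (l 4) (b (l 4) (c (l 526285327) (l 526080015))))))))), by decide +kernel⟩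

def k4_B00pm_011_s3 : ∃ t, chk3 f_B00pm_011_s3 t 16 62 1 = true :=
  ⟨(b (l 4) (a (l 4) (a (l 4) (a (l 4) (a (l 4) (b (l 4) (c (l 525758223) (l 525234447)))))))), by decide +kernel⟩

def k5_B00pm_011_s3 : ∃ t, chk3 f_B00pm_011_s3 t 16 126 1 = true :=
  ⟨(a (b (l 4) (a (l 4) (a (l 4) (a (l 4) (a (l 4) (b (l 4) (a (l 4) (l 528324879)))))))) (b (a (a (l 4) (a (l 4) (a (l 4) (l 526582799)))) (a (a (a (l 526462991) (l 526348303)) (a (l 526238223) (l 526133007))) (a (a (l 526032655) (l 525937167)) (c (l 526065423) (l 525521935))))) (a (b (a (a (l 4) (a (l 4) (l 527461903))) (a (a (l 527311887) (l 527166735)) (a (l 527026703) (l 526891535)))) (a (a (a (a (l 528236303) (l 528149007)) (a (l 528062991) (l 527977999))) (a (l 526506255) (l 527686671))) (a (a (l 527529999) (l 527377935)) (a (l 527231247) (l 527089167))))) (a (a (a (l 525770511) (l 526447631)) (b (l 526449167) (b (l 526584847) (b (a (l 16754320) (l 16751496)) (a (l 16746856) (l 16749912)))))) (b (a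 (l 526228751) (l 526027535)) (b (a (a (l 16741768) (b (l 16750608) (l 16748200))) (b (a (l 16747720) (l 16744952)) (l 16734456))) (a (b (a (l 16748968) (l 16746872)) (l 16747048)) (l 16743768)))))))), by decide +kernel⟩

def k6_B00pm_011_s3 : ∃ t, chk3 f_B00pm_011_s3 t 16 127 1 = true :=
  ⟨(a (b (a (l 14) (a (l 14) (b (a (a (l 14) (b (a (l 4) (l 528896271)) (l 14))) (a (a (l 527785231) (l 528226319)) (a (l 528400143) (l 528575247)))) (b (a (l 14) (a (l 14) (a (l 528865039) (l 528769039)))) (l 14))))) (l 14)) (b (a (a (b (a (a (a (l 528483343) (l 528392463)) (a (l 528303119) (l 528214799))) (b (a (l 528027663) (l 527860495)) (a (l 528143631) (b (l 16758600) (a (l 16762408) (l 16755928)))))) (a (b (b (a (l 528326159) (l 528411151)) (a (b (l 16760240) (a (l 16765104) (l 16764072))) (b (a (l 16763760) (l 16762768)) (l 16762768)))) (a (b (l 16758624) (l 16763096)) (l 16761856))) (b (b (a (b (l 16757464) (l 16756712)) (l 16755192)) (l 16760488)) (l 16748928))))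 (b (b (a (a (l 527698447) (l 527541263)) (b (l 525941007) (a (l 16747864) (b (l 16756248) (l 16755504))))) (a (b (a (l 16750888) (b (l 16759360) (l 16758408))) (a (b (l 16754608) (l 16759240)) (l 16757696))) (a (b (l 16751528) (l 16755928)) (l 16754536)))) (a (b (l 16757472) (l 16756072)) (l 16748112)))) (a (b (a (b (b (a (l 16749984) (l 16752928)) (l 16753008)) (l 16751920)) (b (l 16749752) (l 16748376))) (a (l 16739376) (l 16746312))) (b (a (l 16745456) (l 16741848)) (a (l 16742720) (l 16739096))))) (a (b (a (a (b (b (l 16751080) (l 16750328)) (l 14)) (b (l 16747456) (l 16745896))) (a (b (l 16754592) (l 16753032)) (b (l 16751152) (l 16749584)))) (a (b (a (l 14) (l 16744256)) (l 14)) (b (a (l 16751384) (l 16747936)) (b (l 16727400) (a (l 16749768) (l 16746424)))))) (b (a (a (l 16736392) (l 16743312)) (a (l 16739704) (l 16736072))) (b (a (l 16721672) (l 16735416)) (a (b (l 16741336) (l 16720360)) (b (l 16734136) (l 16734400)))))))), by decide +kernel⟩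

def k7_B00pm_011_s3 : ∃ t, chk3 f_B00pm_011_s3 t 17 62 1 = true :=
  ⟨(b (a (a (l 4) (a (l 4) (a (l 4) (b (l 4) (c (l 524891407) (a (l 524241935) (l 524283663))))))) (a (a (b (l 4) (c (l 525012239) (a (l 524353807) (l 524476943)))) (b (a (l 524725263) (l 524926991)) (c (l 525279503) (a (l 524625935) (l 524800527))))) (a (a (b (l 525153807) (l 525412111)) (b (l 525405967) (l 525629455))) (b (c (l 526205967) (l 525981455)) (c (l 526118671) (l 525874703)))))) (a (b (a (a (l 4) (a (l 4) (l 524868623))) (a (a (l 524833039) (l 524815631)) (a (l 524816399) (c (l 525038607) (a (l 524638735) (l 524403727)))))) (a (a (a (c (l 525615119) (l 525106191)) (c (l 525490703) (l 524996879))) (a (c (l 525385231) (l 524906511)) (c (l 525298191) (l 524834575)))) (a (a (c (l 525229839) (l 524781327)) (l 524963855)) (a (l 524939791) (c (l 525134863) (l 524463887)))))) (a (a (b (b (c (l 525092623) (a (l 524431887) (l 524797967))) (a (l 524640783) (l 524717839))) (c (b (l 525146127)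 (l 524907535)) (a (l 524490767) (l 524546831)))) (b (c (l 525299983) (a (l 524648719) (l 524791567))) (b (c (l 525035535) (l 524961039)) (b (a (l 16722704) (a (l 16718696) (l 16716056))) (a (b (l 16718488) (l 16711240)) (l 16708760)))))) (b (a (a (l 525379855) (l 525564431)) (a (l 525773839) (l 526008079))) (b (a (a (l 525333263) (b (l 16718472) (b (l 16714376) (l 16706736)))) (b (a (l 16713856) (a (l 16705624) (l 16709520))) (a (c (l 16710976) (l 16709272)) (l 16708024)))) (a (a (b (b (l 16708568) (l 16712384)) (l 16711232)) (l 16709904)) (l 16706976))))))), by decide +kernel⟩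

def k8_B00pm_011_s3 : ∃ t, chk3 f_B00pm_011_s3 t 17 126 1 = true :=
  ⟨(a (a (b (a (a (c (l 525896463) (l 525368079)) (c (l 525746447) (l 525232911))) (b (a (l 525320207) (l 525221135)) (a (l 525430287) (b (l 16731264) (a (l 16737952) (b (l 16736256) (l 16733720))))))) (a (b (b (a (l 525815567) (c (l 16744000) (l 16731920))) (a (b (l 16745360) (a (l 16744296) (l 16741760))) (b (a (l 16740952) (l 16738616)) (l 16738768)))) (a (a (l 16731408) (l 16739872)) (l 16737168))) (b (b (a (b (l 16733224) (l 16731472)) (l 16728104)) (l 16733616)) (l 16731792)))) (b (b (a (a (l 525141007) (l 525079055)) (a (b (l 16734616) (c (l 16729952) (l 16728176))) (b (l 16728688) (b (l 16719320) (l 16722944))))) (a (b (a (l 16735744) (b (l 16731064) (c (l 16729728) (l 16727856)))) (a (b (a (l 16733192) (l 16730568)) (l 16730600)) (l 16727368))) (a (b (b (l 16720560) (l 16724736)) (l 16723848)) (l 16721136)))) (a (b (l 16727192) (l 16724744)) (b (l 16720408) (l 16717936)))))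 (a (b (b (a (b (a (b (l 16724232) (c (l 16722552) (l 16720680))) (c (l 16719448) (b (l 16717984) (l 16716760)))) (a (l 16719968) (l 16716696))) (l 16713296)) (a (l 16716440) (l 16710784))) (a (b (l 16714048) (l 16711544)) (b (l 16708368) (l 16705840)))) (b (a (l 16701944) (l 16703400)) (a (l 16691800) (l 16698440))))), by decide +kernel⟩

def k9_B00pm_011_s3 : ∃ t, chk3 f_B00pm_011_s3 t 17 127 1 = true :=
  ⟨(a (b (a (a (b (l 16725936) (l 16723160)) (b (l 16729208) (l 16726408))) (a (b (l 16722136) (l 16719312)) (b (l 16715296) (l 16712448)))) (a (b (a (l 16720120) (l 16723344)) (b (a (l 16728112) (l 16720840)) (a (b (l 16726888) (l 16727424)) (l 16709560)))) (b (a (l 16716224) (l 16709336)) (b (l 16699704) (a (l 16713104) (l 16706432)))))) (b (a (a (b (l 16708880) (l 16706008)) (b (l 16703152) (l 16700248))) (a (l 16686352) (l 16692936))) (b (a (a (l 16702872) (l 16697096)) (a (l 16692160) (l 16688232))) (a (b (l 16697336) (a (l 16700216) (l 16694720)))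 (b (l 16677056) (l 16677696)))))), by decide +kernel⟩

def k10_B00pm_011_s3 : ∃ t, chk3 f_B00pm_011_s3 t 9 60 2 = true :=
  ⟨(a (a (l 4) (b (l 4) (a (l 4) (b (l 4) (a (b (l 4) (l 531095055)) (b (a (c (l 531217679) (l 530985743)) (l 530577935)) (a (l 530546959) (l 530230287)))))))) (a (b (a (l 4) (a (b (l 4) (a (b (l 4) (l 525499151)) (b (l 524350479) (l 524789519)))) (b (l 522647311) (b (l 523294991) (l 523730703))))) (a (b (b (a (l 4) (l 527017743)) (b (b (a (a (l 4) (a (l 4) (a (l 4) (a (l 528280591) (b (l 4) (l 528103183)))))) (a (l 527662095) (l 526940687))) (a (l 528188943) (a (a (a (b (l 527954959) (l 527889679)) (l 527767311)) (l 527528719)) (l 527014415)))) (a (l 527563279) (a (a (a (l 527505679) (l 527643151)) (l 527423503)) (l 526982159))))) (a (b (a (l 529549327) (l 528418575)) (a (l 529273871) (l 528215311))) (a (b (a (a (l 527674895) (l 527430671)) (b (l 527224591) (l 527080975))) (a (l 527380239) (l 526928143))) (b (b (l 526836239) (l 526649615))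 (a (l 526562575) (l 526255631)))))) (b (b (a (a (l 525944079) (l 525232143)) (l 524169743)) (a (b (a (l 526269711) (l 525559567)) (l 525996559)) (b (l 524496655) (l 524624911)))) (b (a (a (l 526191631) (l 525590031)) (l 524634383)) (a (a (l 525882127) (l 525349647)) (l 524488975)))))) (b (a (a (b (l 521260815) (l 522115599)) (b (a (l 520231695) (b (l 519026959) (l 519759631))) (l 520733967))) (b (a (b (a (l 518477583) (l 518156303)) (l 518822927)) (l 517518607)) (a (b (l 519214607) (l 519619087)) (l 518254607)))) (a (b (b (a (l 522766863) (l 521378063)) (a (l 523174415) (l 521787919))) (a (b (l 523317007) (l 523265551)) (b (l 521979919) (l 521996815)))) (b (a (b (l 520036879) (l 520441359)) (l 519017999)) (a (b (l 520663311) (l 16656912)) (l 519500303))))))), by decide +kernel⟩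

def k11_B00pm_011_s3 : ∃ t, chk3 f_B00pm_011_s3 t 9 122 2 = true :=
  ⟨(a (a (a (l 4) (b (l 4) (b (b (l 4) (l 529522447)) (l 528876815)))) (a (b (a (a (l 4) (l 531783951)) (b (l 531889423) (l 531880975))) (a (b (a (b (a (l 4) (l 531062031)) (a (l 531120399) (b (a (a (l 531335695) (l 531342351)) (l 531369999)) (a (l 531320591) (l 531385103))))) (b (l 531586575) (b (l 531374095) (l 531289359)))) (a (a (l 530985743) (a (l 531211279) (l 531130383))) (a (b (l 531334927) (l 16758880)) (b (l 531264527) (l 16767944))))) (b (b (l 531363343) (l 531082767)) (a (l 530566671) (l 530862351))))) (b (a (a (l 531621647) (l 530550031)) (a (l 529910543) (b (l 529880335) (l 529527823)))) (b (a (b (l 530693391) (l 530456079)) (a (l 529815567) (l 529180687))) (a (l 530080783) (l 529357071)))))) (a (a (a (b (b (l 527441679) (l 528272143)) (b (b (l 528088079) (l 527982607)) (l 527977743))) (b (a (b (l 526984719) (l 526835471)) (b (l 526194703) (l 526041103))) (b (a (l 16727544)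 (l 16718344)) (l 16698080)))) (b (a (a (b (l 525572111) (l 16719936)) (b (l 525073167) (l 16711232))) (b (l 524277263) (l 524075535))) (a (b (a (l 16709024) (l 16699528)) (l 16693992)) (b (a (l 16689840) (l 16679688)) (l 16673328))))) (a (b (a (b (l 523133967) (l 16676912)) (l 521880591)) (a (b (l 16663456) (l 16650832)) (b (l 16639352) (l 16625976)))) (b (a (l 520684303) (l 519270415)) (a (b (l 16612752) (l 16598568)) (l 16576648)))))), by decide +kernel⟩

def k12_B00pm_011_s3 : ∃ t, chk3 f_B00pm_011_s3 t 9 123 2 = true :=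
  ⟨(a (a (a (a (b (l 4) (l 526989583)) (b (l 527994127) (l 527789583))) (a (b (l 528954127) (l 528684303)) (l 528764175))) (a (a (a (b (l 530852367) (l 530473743)) (b (b (b (l 16760960) (l 16763624)) (l 16749080)) (l 530917647))) (b (b (a (l 530945551) (l 530936079)) (a (l 16736040) (l 16753528))) (a (l 530568719) (l 16735352)))) (b (a (b (l 530430223) (l 530545167)) (b (l 529470735) (l 16714416))) (a (b (l 16731616) (l 16716072)) (a (l 16710408) (l 16724480)))))) (b (a (a (a (a (l 16705960) (l 16717936)) (b (l 16706104) (l 16699592))) (a (a (l 16686952) (l 16676152)) (l 16638368))) (a (a (b (l 16640128) (l 16631376)) (b (l 16614376) (l 16604952))) (a (b (l 16586176) (l 16578000)) (l 16554728)))) (a (a (a (a (l 16716552) (l 16707248)) (l 16691464)) (a (l 16669480) (l 16646344))) (a (a (l 16622032) (l 16596464)) (l 16556816))))), by decide +kernel⟩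

def k13_B00pm_011_s3 : ∃ t, chk3 f_B00pm_011_s3 t 18 60 3 = true :=
  ⟨(a (l 4) (b (l 4) (a (l 4) (b (l 4) (a (a (l 4) (b (l 4) (l 531363855))) (a (a (b (l 4) (l 531342607)) (b (a (l 4) (l 531238671)) (l 530400527))) (b (l 530103311) (a (l 530505999) (l 530048015))))))))), by decide +kernel⟩

def k14_B00pm_011_s3 : ∃ t, chk3 f_B00pm_011_s3 t 19 60 3 = true :=
  ⟨(a (b (a (l 4) (a (b (l 4) (a (b (l 4) (l 525509903)) (b (l 524349199) (l 524792847)))) (b (l 522628367) (b (l 523282703) (l 523722767))))) (a (b (b (a (l 4) (l 527044623)) (a (a (b (l 4) (l 529811983)) (b (b (b (l 4) (a (l 4) (a (l 4) (a (l 528314383) (a (l 528218127) (l 528110095)))))) (l 528690191)) (l 528611343))) (b (a (b (l 527695631) (a (a (b (l 527990799) (l 527923727)) (l 527801103)) (l 527560207))) (b (l 526966799) (l 527040783))) (a (a (a (b (l 527853583) (l 527810575)) (b (l 527697935) (l 527601935))) (b (l 527497487) (l 527395855))) (l 527005967))))) (a (b (a (l 529598223) (l 528452623))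 (a (l 529312015) (l 528239631))) (a (b (a (a (l 527698703) (l 527451151)) (b (l 527245071) (l 527095823))) (a (l 527393295) (l 526935823))) (b (b (l 526854415) (l 526661135)) (a (l 526566415) (l 526256911)))))) (b (b (a (a (l 525959695) (l 525240079)) (l 524166415)) (a (b (a (l 526288399) (l 525570575)) (a (l 526351119) (l 525668111))) (a (l 524925967) (l 524219663)))) (a (b (a (l 526202383) (l 525595663)) (a (l 525881359) (l 525345039))) (b (l 524631055) (l 524477455)))))) (b (a (a (l 522191375) (b (a (l 520187151) (l 519435279)) (l 520694287))) (b (a (b (a (l 518417167) (l 518089487)) (l 518763023)) (l 517444367)) (a (a (l 519675919) (l 519053583)) (l 518188303)))) (a (b (b (l 522846223) (a (l 523160079) (l 521758991))) (a (b (l 523300623) (l 523243023)) (b (l 521950223) (l 16659936)))) (b (a (b (l 519989519) (l 520398095)) (l 518959631)) (a (l 520663823) (l 519443215)))))), by decide +kernel⟩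

def k15_B00pm_011_s3 : ∃ t, chk3 f_B00pm_011_s3 t 9 122 3 = true :=
  ⟨(a (a (a (l 4) (b (l 4) (b (a (l 4) (b (l 4) (l 530344207))) (a (l 529081615) (l 530216975))))) (a (b (a (a (l 4) (l 531290639)) (b (l 531580943) (l 531650575))) (a (b (a (b (a (l 4) (a (a (l 531333135) (l 531614223)) (l 531619855))) (a (l 531116303) (b (a (a (l 531338511) (l 531077647)) (l 531375375)) (a (l 531321871) (l 531389199))))) (b (l 531603215) (b (l 531384591) (l 531296527)))) (a (a (l 530974479) (a (l 531206671) (b (l 531365903) (l 16765040)))) (a (b (a (l 531388687) (l 531351311)) (l 531362063)) (b (l 531270671) (l 16762712))))) (b (b (l 531387151) (l 530292751)) (b (l 530468111) (a (l 531139599) (l 530881807)))))) (b (a (b (l 530615055) (l 530598671)) (a (b (l 530705935) (l 530265871)) (b (l 529917455) (l 529552399)))) (b (a (b (l 530718479) (l 530473999)) (a (l 529833231) (l 529192975))) (a (b (l 530372879) (l 530364431)) (a (l 529649935) (l 16733272))))))) (a (a (a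 (b (b (a (l 529023503) (l 528024847)) (a (l 528732687) (l 527808015))) (b (a (l 528446991) (l 527595535)) (l 526897679))) (b (a (a (l 527142927) (l 526685199)) (b (l 526187791) (l 526025487))) (b (a (l 16716984) (l 16718216)) (a (l 16718560) (l 16708736))))) (b (a (a (b (l 525559567) (l 16719832)) (b (l 525057807) (l 16711096))) (b (l 524256271) (l 524045327))) (a (b (a (l 16708856) (l 16699312)) (l 16693736)) (b (l 16663568) (l 16672968))))) (a (b (a (b (l 16668960) (l 16676640)) (l 521836303)) (a (b (l 16663080) (l 16650368)) (b (l 16638856) (l 16625376)))) (b (a (l 520629519) (l 16607224)) (a (l 16604912) (l 16575768)))))), by decide +kernel⟩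

def k16_B00pm_011_s3 : ∃ t, chk3 f_B00pm_011_s3 t 9 123 3 = true :=
  ⟨(a (a (a (a (b (l 4) (l 526817807)) (b (l 527875599) (l 527652111))) (a (b (l 528870415) (l 528581391)) (b (l 529957903) (l 529604367)))) (a (a (a (b (a (l 530686223) (l 530978575)) (l 530432527)) (b (a (b (l 531266831) (l 16749544)) (b (l 531322639) (l 16758984))) (l 530355215))) (b (a (b (b (l 531198735) (l 16755504)) (l 531243279)) (b (l 530941455) (l 16743048))) (a (b (l 16751568) (l 16745672)) (b (l 16748504) (l 16742968))))) (b (a (b (l 529900047) (a (l 16749360) (l 16744344))) (b (l 528936719) (l 529410575))) (b (a (a (l 16744448) (l 16739544)) (l 529900303)) (a (a (l 16739288) (l 16734560)) (l 16715176)))))) (b (a (a (a (b (l 528147727) (l 528425231)) (a (l 16707744) (l 16697296))) (a (a (l 16686680) (l 16675816)) (l 16658912))) (a (a (b (l 16639600) (l 16630808)) (b (l 16613712) (l 16604232))) (a (l 16581328) (l 16553664)))) (a (a (a (a (l 16716504) (l 16707144)) (l 16691264))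 (a (l 16648184) (l 16645880))) (a (a (l 16621400) (l 16595648)) (l 16555704))))), by decide +kernel⟩

def k17_B00pm_011_s3 : ∃ t, chk3 f_B00pm_011_s3 t 18 62 1 = true :=
  ⟨(a (b (a (a (b (c (l 526842639) (l 526651663)) (c (l 526687503) (l 526476815))) (b (l 526961167) (c (l 527354383) (l 527177231)))) (a (b (l 528075791) (c (l 528117775) (l 527974671))) (b (l 529016591) (b (l 529015311) (a (l 16718744) (b (l 16720336) (l 16716376))))))) (b (a (a (b (l 526453519) (b (l 16714648) (a (c (l 16711944) (l 16710416)) (c (l 16709632) (l 16708136))))) (a (b (l 16717416) (b (c (l 16710824) (l 16709440)) (l 16707696))) (b (b (l 16717152) (l 16712168)) (l 16708368)))) (b (a (a (b (l 16714912) (l 16710800)) (b (l 16713280) (l 16710728))) (c (l 16713648) (l 16707496))) (a (l 16708296) (l 16710096)))) (a (a (a (b (l 16707656) (l 16704912)) (l 16705152)) (l 16704320)) (a (l 16704488) (l 16706240))))) (b (a (b (a (a (l 530052879) (l 530507279)) (a (b (l 16739392) (l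 16732592)) (c (l 16733888) (l 16723240)))) (a (a (b (l 16726408) (a (l 16713392) (l 16719272))) (b (l 16726248) (l 16720224))) (b (a (l 16714800) (l 16723984)) (l 16720536)))) (b (a (b (l 16721096) (a (l 16727440) (l 16723304))) (b (l 16699656) (l 16705168))) (a (b (l 16699656) (l 16717192)) (l 16710216)))) (a (a (b (l 16693808) (l 16709528)) (b (l 16716192) (l 16710896))) (a (b (l 16712880) (l 16707528)) (c (l 16659704) (l 16680544)))))), by decide +kernel⟩

def k18_B00pm_011_s3 : ∃ t, chk3 f_B00pm_011_s3 t 18 63 1 = true :=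
  ⟨(a (b (a (b (a (l 16700760) (l 16699416)) (a (l 16695744) (l 16694344))) (b (a (l 16699520) (l 16701216)) (a (l 16694392) (l 16696032)))) (b (a (a (l 16690192) (l 16688744)) (a (l 16688744) (l 16690336))) (a (b (l 16684552) (b (a (l 16682960) (l 16681536)) (l 16683384))) (b (l 16684520) (b (a (l 16681568) (l 16683200)) (l 16684072)))))) (b (a (a (b (l 16704456) (l 16657272)) (b (l 16705760) (l 16700472))) (a (a (l 16680088) (l 16656128)) (a (l 16651792) (l 16604064)))) (a (b (a (l 16651528) (l 16652728)) (a (b (l 16688600) (b (l 16686392) (l 16688704))) (b (l 16689776) (b (l 16687672) (l 16689944))))) (b (a (l 16607272) (l 16598496)) (b (a (l 16686232) (l 16677424)) (a (l 16664560) (l 16635056))))))), by decide +kernel⟩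

def k19_B00pm_011_s3 : ∃ t, chk3 f_B00pm_011_s3 t 19 31 1 = true :=
  ⟨(a (b (b (a (b (a (b (l 16683688) (l 16700568)) (l 16682560)) (a (l 16695440) (l 16675544))) (a (l 16656920) (l 16633712))) (a (a (l 16644800) (l 16666784)) (l 16591224))) (a (b (a (l 16634144) (l 16656032)) (b (a (l 16667368) (l 16647256)) (a (b (l 16662384) (l 16620312)) (l 16621704)))) (b (l 16580336) (b (l 16613400) (a (l 16620512) (l 16597208)))))) (b (a (b (a (l 16609360) (l 16583848)) (l 16584192)) (b (l 16544072) (l 16531504))) (b (a (l 16573128) (l 16520272)) (a (b (l 16564128) (a (l 16572768) (l 16547192))) (b (l 16511168) (l 16507408)))))), by decide +kernel⟩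

def k20_B00pm_011_s3 : ∃ t, chk3 f_B00pm_011_s3 t 10 14 1 = true :=
  ⟨(b (b (l 4) (a (l 4) (a (a (l 4) (b (l 4) (a (l 504556559) (l 504406031)))) (b (a (a (l 4) (l 503752207)) (b (a (l 4) (l 503829263)) (a (l 503914255) (l 503998735)))) (a (a (l 504302863) (l 504246543)) (a (l 504236047) (b (l 504179471) (l 504371727)))))))) (a (b (a (l 4) (b (b (l 4) (a (l 4) (l 506723855))) (a (a (b (l 4) (l 509243663)) (l 508321295)) (b (l 507251727) (l 507793423))))) (a (b (a (b (l 4) (c (c (l 513508111) (l 513448975)) (a (l 513833743) (l 512912143)))) (l 511329551)) (a (a (b (l 514730767) (l 515586831)) (b (c (l 513831439) (l 513716495)) (c (l 514642959) (l 514536975)))) (a (b (c (l 512936719) (l 512811535)) (c (l 513708303) (l 513591567))) (b (l 512030223) (l 512766223))))) (b (a (b (l 509017871) (l 509664527)) (b (a (l 508635919) (l 508086287)) (l 508919823))) (b (a (a (l 511241999) (l 510508815)) (l 509505039)) (a (a (l 511938831) (l 511166479)) (l 510105103))))))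 (b (a (a (b (a (l 505894159) (l 505575439)) (a (l 506839567) (l 506448399))) (b (b (l 505005327) (l 505375247)) (a (l 506107663) (l 505816335)))) (b (a (b (l 504695311) (l 504995855)) (b (l 504573455) (l 504805903))) (a (b (l 505308687) (l 505634319)) (b (l 505050383) (l 505307407))))) (b (a (a (b (l 507354127) (l 507849999)) (b (l 506563855) (l 506986767))) (a (b (l 505973007) (l 506324751)) (b (l 505576719) (l 505858575)))) (a (a (b (l 508360207) (l 508884751)) (b (l 507423503) (l 507874063))) (a (b (l 506689551) (l 507067919)) (b (l 506153487) (a (l 16286824) (l 16251568))))))))), by decide +kernel⟩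

def k21_B00pm_011_s3 : ∃ t, chk3 f_B00pm_011_s3 t 22 56 1 = true :=
  ⟨(a (a (b (l 4) (b (l 4) (a (b (l 4) (a (l 4) (l 503949839))) (b (l 504079631) (l 504124175))))) (b (l 4) (b (a (b (l 4) (l 504339727)) (b (a (l 504581647) (l 504771087)) (l 504682511))) (a (b (l 504365583) (l 504394511)) (b (l 504693007) (l 504706319)))))) (b (a (b (a (l 4) (b (l 4) (a (l 4) (c (l 505850383) (l 505588239))))) (a (b (a (l 4) (c (l 505339919) (l 505077007))) (a (l 504976143) (l 505192719))) (b (a (c (l 505573647) (l 505311503)) (l 505686287)) (a (l 505419279) (l 505655567))))) (b (a (b (a (c (l 506153743) (b (l 4) (l 505881359))) (c (l 506430479) (l 506169871))) (a (c (l 506110479) (l 505849359)) (l 506250255))) (b (a (c (l 506716687) (l 506457359)) (l 506883087)) (a (l 506529551) (l 506818575)))) (a (b (a (l 505939471) (l 506202383)) (a (l 505901583) (l 506157071))) (b (a (l 506474767) (l 506756367)) (l 506557455))))) (a (b (a (b (a (l 504970255) (l 505179407)) (l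 505065743)) (b (l 505510927) (l 505488911))) (a (b (l 505061135) (l 505059087)) (b (l 505469199) (l 505452047)))) (b (a (b (l 505988111) (l 505950991)) (b (l 506503439) (l 506451983))) (a (l 505899535) (l 506378255)))))), by decide +kernel⟩

def k22_B00pm_011_s3 : ∃ t, chk3 f_B00pm_011_s3 t 22 57 1 = true :=
  ⟨(a (a (b (a (b (a (l 503947279) (l 504038671)) (l 504127503)) (b (a (l 504140815) (l 504253711)) (a (l 504253711) (l 504350735)))) (a (b (l 504275471) (l 504434959)) (b (l 504415503) (l 504542735)))) (b (b (a (b (l 504425743) (l 504459791)) (l 504730127)) (a (l 504514831) (l 504772111))) (a (b (l 504599055) (l 504694031)) (b (l 504824847) (l 504888335))))) (b (a (b (a (l 505059855) (l 505430031)) (a (l 505071119) (l 505411087))) (b (a (l 505840399) (l 506289679)) (a (l 505790991) (l 506210831)))) (a (b (a (l 505092879) (l 505402127)) (a (l 505125135) (l 505403663))) (b (a (l 505752079) (l 506141967)) (a (l 505723151) (l 506083087)))))), by decide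 +kernel⟩

def k23_B00pm_011_s3 : ∃ t, chk3 f_B00pm_011_s3 t 23 28 1 = true :=
  ⟨(a (b (b (b (a (a (b (a (l 507188239) (l 507502607)) (l 507268367)) (b (l 507990287) (l 507900943))) (a (l 508620047) (l 509330447))) (a (a (b (l 507195407) (l 507125007)) (b (l 507813903) (l 507729167))) (a (l 508418063) (l 509101071)))) (b (a (a (l 507022607) (l 507605775)) (a (l 508225295) (l 508880655))) (a (a (l 506895375) (l 507449871)) (a (l 508041487) (l 508669199))))) (b (a (b (a (l 506777615) (l 507303695)) (a (l 506669583) (l 507166735))) (b (a (l 507866639) (l 508466447)) (a (l 507701263) (l 508273167)))) (a (b (a (l 506571279) (l 507039247)) (a (l 506482959) (l 506921743))) (b (a (l 507545359) (l 508089103)) (a (l 507399183) (l 16314144)))))) (b (b (b (a (a (l 510075151) (l 510853647)) (l 512081167)) (a (a (l 509818895) (l 510570767)) (l 511759119))) (b (a (a (l 509571343) (l 510296335)) (l 511445263)) (a (l 509674767) (l 511139599)))) (b (b (a (l 509431055)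 (l 510842639)) (a (l 509196303) (l 510554127))) (a (b (l 508970511) (l 508753679)) (l 509329167))))), by decide +kernel⟩

def k24_B00pm_011_s3 : ∃ t, chk3 f_B00pm_011_s3 t 11 58 1 = true :=
  ⟨(a (a (a (b (a (b (l 504605967) (l 504788751)) (b (l 504681231) (l 504830991))) (a (b (l 504983055) (l 505189647)) (b (l 504992527) (l 505165839)))) (b (b (a (l 504800271) (l 504962831)) (a (l 504917775) (l 505048335))) (b (a (l 505046799) (l 505145103)) (a (l 505187343) (l 505253391))))) (b (a (b (a (l 505168399) (l 505415695)) (a (l 505222159) (l 505438735))) (b (a (l 505704719) (l 506034703)) (a (l 505696783) (l 505996303)))) (a (b (a (l 505287183) (l 505472271)) (a (l 505363471) (l 505517071))) (b (a (l 505699599) (l 505968399)) (a (l 505713167) (l 505951247)))))) (a (b (a (b (a (l 506404623) (l 506813967)) (a (l 506336271) (l 506716175))) (b (a (l 507262479) (l 16258880)) (a (l 507135503) (l 16208048)))) (a (b (a (l 506278415) (l 506628623)) (a (l 506230799)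 (l 506551055))) (b (a (l 16178264) (l 16135464)) (a (l 506911503) (l 16083096))))) (b (b (a (l 508546319) (l 509740815)) (a (l 508079887) (l 509487631))) (a (b (a (l 16094328) (l 16117880)) (b (l 16045600) (l 16019120))) (b (l 16093864) (a (l 16048680) (b (l 16047376) (b (l 16027000) (a (l 15955248) (l 15933072)))))))))), by decide +kernel⟩

def k25_B00pm_011_s3 : ∃ t, chk3 f_B00pm_011_s3 t 22 59 1 = true :=
  ⟨(b (a (a (b (a (l 505408015) (l 505350927)) (a (l 16313904) (l 16280648))) (b (a (l 505339407) (l 505372943)) (a (l 16247904) (l 16215816)))) (a (b (a (l 505451023) (l 505572623)) (a (l 16184496) (l 16154088))) (b (a (l 505737487) (l 16148840)) (a (l 16124688) (l 505949199))))) (a (b (a (a (l 16264992) (l 16231144)) (a (l 16197832) (l 16165184))) (a (a (l 16216600) (l 16182048)) (b (l 16143824) (a (l 16051320) (b (l 16087400) (l 16061064)))))) (b (a (a (l 16133336) (b (l 16115344) (l 16005304))) (b (a (l 16085584) (b (l 16063576) (a (l 16057296)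 (b (l 16046568) (l 15959416))))) (a (b (a (l 16073376) (b (l 16061952) (l 15972176))) (a (a (l 16022688) (l 16017736)) (l 16054360))) (b (a (b (l 16007392) (l 16047944)) (l 16042464)) (l 16045720))))) (a (b (a (b (l 16101408) (a (l 16096376) (l 16041312))) (b (a (l 16036192) (l 16025944)) (l 16070952))) (a (l 16044872) (l 16071568))) (l 16052984))))), by decide +kernel⟩

def k26_B00pm_011_s3 : ∃ t, chk3 f_B00pm_011_s3 t 23 59 1 = true :=
  ⟨(b (a (b (a (a (l 506193935) (l 506483983)) (a (l 16052216) (l 16009048))) (b (a (l 506299919) (a (b (l 16039864) (a (l 16032336) (b (l 16023832) (l 15956832)))) (b (a (l 15980760) (b (l 15953464) (l 16014432))) (l 15963752)))) (a (a (l 16056168) (b (a (l 16043472) (b (l 16034360) (l 15985936))) (a (b (l 16033256) (l 15966664)) (l 15941656)))) (a (b (a (b (l 15970976) (l 16021656)) (l 16018592)) (l 16020312)) (l 16015920))))) (b (a (b (a (l 16043912) (a (l 16029752) (b (l 16027624) (b (l 16017408) (l 15928696)))))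 (a (b (l 15981384) (a (b (l 16018480) (l 15951096)) (l 15928640))) (b (a (b (l 15929704) (l 16011440)) (l 16011184)) (l 16011136)))) (b (a (b (a (l 16018968) (l 15962160)) (l 15929192)) (l 16015504)) (l 16013864))) (a (b (l 15928632) (l 16013136)) (l 16015312)))) (a (a (b (b (a (b (a (b (l 16046312) (l 15998152)) (b (l 15982032) (l 16032896))) (l 15952144)) (l 16027320)) (l 16032256)) (l 16034528)) (b (l 16019784) (l 16022416))) (b (l 15973216) (l 15933296)))), by decide +kernel⟩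

def k27_B00pm_011_s3 : ∃ t, chk3 f_B00pm_011_s3 t 20 30 1 = true :=
  ⟨(b (b (a (a (b (a (l 516132367) (b (l 515191567) (l 515557391))) (a (l 517135887) (l 515817743))) (b (a (b (l 514225679) (l 514579727)) (l 513485839)) (a (b (l 16621192) (l 16605040)) (l 514147599)))) (a (b (c (l 512005647) (l 511871503)) (a (l 513256719) (l 16540448))) (b (a (l 16523632) (l 16490128)) (a (l 16485832) (l 16451216))))) (a (a (b (a (c (l 517894927) (l 517824015)) (b (l 16618568) (l 16603952))) (a (b (l 16617736) (l 16602432)) (b (l 16588800) (l 16572704)))) (a (b (l 515499279) (b (l 16558200) (l 16541344))) (b (b (l 16558600) (l 16542624)) (l 16538312)))) (b (a (a (b (l 16526408) (l 16509752)) (l 16505320)) (b (l 16440712) (l 16422408))) (a (b (l 16475200) (l 16456560)) (b (l 16423152) (a (l 16402152) (l 16370552))))))) (a (b (a (a (b (c (l 16547248) (l 16577888)) (b (l 16553344) (l 16538048))) (b (c (l 16547872) (l 16546856)) (b (l 16521120) (l 16508976)))) (b (a (l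 16514840) (b (l 16490176) (l 16471784))) (b (a (l 16489824) (l 16460776)) (l 16467112)))) (a (b (l 16512968) (l 16502280)) (l 16452808))) (b (b (a (b (a (l 16455032) (l 16421312)) (l 16443416)) (l 16376560)) (a (l 16416304) (l 16362920))) (a (l 16398664) (l 16345384))))), by decide +kernel⟩

def k28_B00pm_011_s3 : ∃ t, chk3 f_B00pm_011_s3 t 21 30 1 = true :=
  ⟨(b (b (a (b (a (a (l 16455784) (l 16420760)) (l 509129999)) (a (a (l 16415784) (l 16379680)) (l 16345584))) (b (a (l 16294888) (a (l 16240440) (l 16203752))) (a (b (l 16261344) (a (l 16173608) (l 16183976))) (b (a (l 16186016) (l 16096240)) (l 16190072))))) (a (b (a (a (l 16376944) (b (l 16349520) (l 16329432))) (b (a (l 16312032) (l 16233920)) (a (l 16255552) (l 16270120)))) (a (b (a (l 16349392) (l 16320072)) (l 16329072)) (l 16280440))) (a (b (b (l 16152240) (l 16234624)) (l 16233248)) (l 16106440)))) (b (a (b (l 16297880) (l 16285824)) (l 16197712)) (a (l 16268456) (l 16174552)))), by decide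 +kernel⟩

def k29_B00pm_011_s3 : ∃ t, chk3 f_B00pm_011_s3 t 11 30 1 = true :=
  ⟨(a (b (b (a (b (a (b (a (l 16180568) (b (l 16151536) (l 16099272))) (a (b (l 16078952) (l 16158384)) (l 16138632))) (b (a (b (l 16089840) (l 16118992)) (l 16101904)) (l 16111496))) (l 16130512)) (b (l 15983728) (l 16069792))) (a (b (l 16132320) (l 16130696)) (a (l 15999824) (l 15974352)))) (b (a (l 16117568) (l 16055848)) (a (l 16094736) (l 16033344)))) (b (b (a (l 15989008) (l 15935448)) (a (l 15947328) (l 15934528))) (b (a (l 15932728) (l 15919784)) (a (l 15994456) (l 15981856))))), by decide +kernel⟩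

def k30_B00pm_011_s3 : ∃ t, chk3 f_B00pm_011_s3 t 5 31 1 = true :=
  ⟨(a (a (b (a (b (a (l 16490064) (l 16435656)) (l 16366232)) (b (l 16354712) (l 16341728))) (a (b (l 16438664) (a (l 16456128) (l 16401576))) (b (l 16329984) (l 16236728)))) (b (a (l 16244392) (l 16150384)) (a (b (l 16226048) (l 16217032)) (b (l 16131664) (l 16123072))))) (a (b (a (l 16070488) (l 16009024)) (b (l 16018008) (a (l 16043296) (l 15982032)))) (b (a (l 15886176) (l 15873520)) (b (l 15856512) (a (l 15859464) (l 15847168)))))), by decide +kernel⟩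

def k31_B00pm_011_s3 : ∃ t, chk3 f_B00pm_011_s3 t 6 6 1 = true :=
  ⟨(b (a (a (l 4) (b (l 4) (a (l 4) (l 527273743)))) (a (b (l 1) (l 527830031)) (l 1))) (a (b (b (a (l 4) (l 524033039)) (a (a (a (l 4) (l 518926095)) (l 520409103)) (a (l 522259471) (l 523959567)))) (a (b (a (a (b (b (a (l 4) (l 517011215)) (b (a (a (l 4) (l 516245007)) (l 516659727)) (a (a (a (b (l 4) (a (l 515501839) (b (l 515654671) (l 515626511)))) (b (l 515854863) (l 515745807))) (l 516012815)) (b (l 516482575) (l 516367119))))) (a (a (a (l 515116303) (b (b (b (a (l 515641103) (l 515717647)) (l 515596815)) (l 515455503)) (l 515162127))) (b (b (b (l 515876623) (l 515817999)) (a (l 515642383) (l 515794447))) (b (l 515555087) (l 515373583)))) (b (b (l 516236047) (l 516105743)) (a (l 515792655) (b (l 516116751) (l 16684976)))))) (b (l 517317903) (b (b (l 517035791) (l 516874255)) (a (l 516421391) (l 516920847))))) (b (l 519132687) (b (l 518503951) (l 518169359)))) (a (a (a (a (b (l 514459407)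 (l 513706767)) (b (l 514899471) (l 514139919))) (b (b (a (l 515458063) (l 515775759)) (l 515269903)) (b (l 514902799) (l 16569336)))) (b (b (a (l 516180239) (l 516664847)) (a (l 515892239) (l 16607784))) (a (b (l 16589936) (l 16543328)) (b (l 16563536) (l 16528176))))) (b (b (l 517876751) (a (l 517122575) (l 16544608))) (b (b (l 517387279) (l 517254415)) (a (l 16521848) (l 16478992)))))) (b (b (l 520889103) (a (l 520282895) (l 522101519))) (a (b (l 519639823) (l 519050255)) (b (l 521450255) (l 520841999)))))) (b (a (b (l 527479823) (l 526230287)) (a (l 528769039) (l 1))) (a (b (b (l 525234191) (l 524554767)) (a (l 522291727) (l 524394767))) (b (l 526845967) (a (l 16410576) (l 16411800))))))), by decide +kernel⟩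

def k32_B00pm_011_s3 : ∃ t, chk3 f_B00pm_011_s3 t 7 6 1 = true :=
  ⟨(b (l 1) (a (a (a (b (l 1) (b (l 1) (l 16416256))) (l 1)) (l 1)) (l 1))), by decide +kernel⟩

def k33_B00pm_011_s3 : ∃ t, chk3 f_B00pm_011_s3 t 12 14 1 = true :=
  ⟨(b (a (a (a (b (a (b (b (l 513375247) (l 16495288)) (l 512490511)) (b (l 513971983) (l 513242383))) (b (a (l 511819535) (l 512536079)) (b (l 16267384) (l 16219424)))) (b (b (b (a (l 16505720) (l 16491280)) (l 16459704)) (b (l 16419464) (l 16377752))) (b (l 513241615) (b (l 16243944) (l 16196512))))) (b (a (b (l 515840271) (l 515139855)) (b (l 516819471) (l 16371664))) (a (b (l 16310328) (l 16198712)) (b (l 16268264) (l 16179128))))) (b (a (b (a (l 16429728) (l 16383640)) (a (l 16329680) (l 16311528))) (b (l 16381152) (l 16289832))) (a (b (a (l 16249368) (l 16232848)) (a (l 16161840) (b (l 16169264) (l 16039632)))) (b (l 16213592) (b (a (l 16156760) (l 16066296)) (a (b (l 16042648) (l 16118512)) (l 16135704))))))) (a (b (a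 (b (a (b (l 16170208) (l 16077824)) (l 511560207)) (b (a (l 15984224) (b (a (l 16064392) (l 15969176)) (a (b (l 16044512) (l 15993360)) (l 15956648)))) (a (b (a (a (l 16037800) (l 15989632)) (a (b (l 16032312) (l 16025208)) (l 15945400))) (a (b (a (l 15936816) (l 16021448)) (l 16019688)) (l 16025704))) (l 16036224)))) (b (b (l 16117136) (a (a (l 16081816) (b (l 16084648) (l 16018888))) (b (a (l 16074824) (l 15988552)) (l 15982248)))) (a (b (b (a (a (l 15964656) (l 15965280)) (l 16052848)) (l 16048504)) (l 16048808)) (l 16063224)))) (a (b (a (l 15940248) (l 16036648)) (l 15989712)) (b (l 16056536) (l 16057512)))) (b (a (b (b (a (b (l 16102992) (a (l 16000648) (l 16086784))) (l 16017648)) (l 16089224)) (l 16086336)) (l 16036520)) (b (l 16100640) (l 16099120))))), by decide +kernel⟩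

def k34_B00pm_011_s3 : ∃ t, chk3 f_B00pm_011_s3 t 13 14 1 = true :=
  ⟨(b (a (b (a (l 521616399) (b (l 16327832) (l 16260408))) (b (a (b (l 16216504) (a (l 16180024) (l 16101384))) (b (l 16221200) (l 16209000))) (a (l 16168192) (l 16201104)))) (b (b (a (l 16325352) (l 16331296)) (a (b (l 16279760) (l 16262448)) (l 16302456))) (l 16262088))) (b (a (l 16088512) (l 16241472)) (a (l 16162112) (l 16224384)))), by decide +kernel⟩

def k35_B00pm_011_s3 : ∃ t, chk3 f_B00pm_011_s3 t 7 14 1 = true :=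
  ⟨(a (b (a (b (a (l 16350240) (l 16380488)) (l 16332584)) (l 16410976)) (b (a (l 16305672) (l 6)) (l 6))) (l 6)), by decide +kernel⟩

def k36_B00pm_011_s3 : ∃ t, chk3 f_B00pm_011_s3 t 3 15 1 = true :=
  ⟨(a (b (a (a (b (b (a (l 15949272) (l 16057488)) (a (l 15947168) (l 16054192))) (a (b (l 16016152) (l 15994712)) (b (l 16039160) (l 16018088)))) (b (b (l 16096824) (l 16091768)) (b (l 16076552) (l 16056072)))) (b (a (b (l 16154080) (l 16146688)) (l 6)) (l 6))) (a (a (b (a (l 15886312) (l 15993536)) (b (a (l 15949720) (l 6)) (l 6))) (b (l 6) (l 6))) (l 6))) (l 6)), by decide +kernel⟩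

theorem t37_B00pm_011_s3 : ∃ t, chk3 f_B00pm_011_s3 t 6 14 1 = true := ex3_a k33_B00pm_011_s3 k34_B00pm_011_s3

theorem t38_B00pm_011_s3 : ∃ t, chk3 f_B00pm_011_s3 t 3 14 1 = true := ex3_a t37_B00pm_011_s3 k35_B00pm_011_s3

theorem t39_B00pm_011_s3 : ∃ t, chk3 f_B00pm_011_s3 t 3 7 1 = true := ex3_b t38_B00pm_011_s3 k36_B00pm_011_s3

theorem t40_B00pm_011_s3 : ∃ t, chk3 f_B00pm_011_s3 t 3 6 1 = true := ex3_a k31_B00pm_011_s3 k32_B00pm_011_s3

theorem t41_B00pm_011_s3 : ∃ t, chk3 f_B00pm_011_s3 t 3 3 1 = true := ex3_b t40_B00pm_011_s3 t39_B00pm_011_s3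

theorem t42_B00pm_011_s3 : ∃ t, chk3 f_B00pm_011_s3 t 10 30 1 = true := ex3_a k27_B00pm_011_s3 k28_B00pm_011_s3

theorem t43_B00pm_011_s3 : ∃ t, chk3 f_B00pm_011_s3 t 5 30 1 = true := ex3_a t42_B00pm_011_s3 k29_B00pm_011_s3

theorem t44_B00pm_011_s3 : ∃ t, chk3 f_B00pm_011_s3 t 5 15 1 = true := ex3_b t43_B00pm_011_s3 k30_B00pm_011_s3

theorem t45_B00pm_011_s3 : ∃ t, chk3 f_B00pm_011_s3 t 11 59 1 = true := ex3_a k25_B00pm_011_s3 k26_B00pm_011_s3

theorem t46_B00pm_011_s3 : ∃ t, chk3 f_B00pm_011_s3 t 11 29 1 = true := ex3_b k24_B00pm_011_s3 t45_B00pm_011_s3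

theorem t47_B00pm_011_s3 : ∃ t, chk3 f_B00pm_011_s3 t 22 28 1 = true := ex3_b k21_B00pm_011_s3 k22_B00pm_011_s3

theorem t48_B00pm_011_s3 : ∃ t, chk3 f_B00pm_011_s3 t 11 28 1 = true := ex3_a t47_B00pm_011_s3 k23_B00pm_011_s3

theorem t49_B00pm_011_s3 : ∃ t, chk3 f_B00pm_011_s3 t 11 14 1 = true := ex3_b t48_B00pm_011_s3 t46_B00pm_011_s3

theorem t50_B00pm_011_s3 : ∃ t, chk3 f_B00pm_011_s3 t 5 14 1 = true := ex3_a k20_B00pm_011_s3 t49_B00pm_011_s3

theorem t51_B00pm_011_s3 : ∃ t, chk3 f_B00pm_011_s3 t 5 7 1 = true := ex3_b t50_B00pm_011_s3 t44_B00pm_011_s3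

theorem t52_B00pm_011_s3 : ∃ t, chk3 f_B00pm_011_s3 t 18 31 1 = true := ex3_b k17_B00pm_011_s3 k18_B00pm_011_s3

theorem t53_B00pm_011_s3 : ∃ t, chk3 f_B00pm_011_s3 t 9 31 1 = true := ex3_a t52_B00pm_011_s3 k19_B00pm_011_s3

theorem t54_B00pm_011_s3 : ∃ t, chk3 f_B00pm_011_s3 t 9 61 3 = true := ex3_b k15_B00pm_011_s3 k16_B00pm_011_s3

theorem t55_B00pm_011_s3 : ∃ t, chk3 f_B00pm_011_s3 t 9 60 3 = true := ex3_a k13_B00pm_011_s3 k14_B00pm_011_s3

theorem t56_B00pm_011_s3 : ∃ t, chk3 f_B00pm_011_s3 t 9 30 3 = true := ex3_b t55_B00pm_011_s3 t54_B00pm_011_s3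

theorem t57_B00pm_011_s3 : ∃ t, chk3 f_B00pm_011_s3 t 9 61 2 = true := ex3_b k11_B00pm_011_s3 k12_B00pm_011_s3

theorem t58_B00pm_011_s3 : ∃ t, chk3 f_B00pm_011_s3 t 9 30 2 = true := ex3_b k10_B00pm_011_s3 t57_B00pm_011_s3

theorem t59_B00pm_011_s3 : ∃ t, chk3 f_B00pm_011_s3 t 9 30 1 = true := ex3_c t58_B00pm_011_s3 t56_B00pm_011_s3

theorem t60_B00pm_011_s3 : ∃ t, chk3 f_B00pm_011_s3 t 9 15 1 = true := ex3_b t59_B00pm_011_s3 t53_B00pm_011_s3

theorem t61_B00pm_011_s3 : ∃ t, chk3 f_B00pm_011_s3 t 17 63 1 = true := ex3_b k8_B00pm_011_s3 k9_B00pm_011_s3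

theorem t62_B00pm_011_s3 : ∃ t, chk3 f_B00pm_011_s3 t 17 31 1 = true := ex3_b k7_B00pm_011_s3 t61_B00pm_011_s3

theorem t63_B00pm_011_s3 : ∃ t, chk3 f_B00pm_011_s3 t 16 63 1 = true := ex3_b k5_B00pm_011_s3 k6_B00pm_011_s3

theorem t64_B00pm_011_s3 : ∃ t, chk3 f_B00pm_011_s3 t 16 31 1 = true := ex3_b k4_B00pm_011_s3 t63_B00pm_011_s3

theorem t65_B00pm_011_s3 : ∃ t, chk3 f_B00pm_011_s3 t 8 31 1 = true := ex3_a t64_B00pm_011_s3 t62_B00pm_011_s3

theorem t66_B00pm_011_s3 : ∃ t, chk3 f_B00pm_011_s3 t 8 15 1 = true := ex3_b k3_B00pm_011_s3 t65_B00pm_011_s3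

theorem t67_B00pm_011_s3 : ∃ t, chk3 f_B00pm_011_s3 t 4 15 1 = true := ex3_a t66_B00pm_011_s3 t60_B00pm_011_s3

theorem t68_B00pm_011_s3 : ∃ t, chk3 f_B00pm_011_s3 t 4 7 1 = true := ex3_b k2_B00pm_011_s3 t67_B00pm_011_s3

theorem t69_B00pm_011_s3 : ∃ t, chk3 f_B00pm_011_s3 t 2 7 1 = true := ex3_a t68_B00pm_011_s3 t51_B00pm_011_s3

theorem t70_B00pm_011_s3 : ∃ t, chk3 f_B00pm_011_s3 t 2 3 1 = true := ex3_b k1_B00pm_011_s3 t69_B00pm_011_s3

theorem t71_B00pm_011_s3 : ∃ t, chk3 f_B00pm_011_s3 t 1 3 1 = true := ex3_a t70_B00pm_011_s3 t41_B00pm_011_s3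

theorem t72_B00pm_011_s3 : ∃ t, chk3 f_B00pm_011_s3 t 1 1 1 = true := ex3_b k0_B00pm_011_s3 t71_B00pm_011_s3

theorem c_B00pm_011_s3 : CertF 0 536870912 536870912 536870912 1033476505 6710887 false true false .pnn 0 1 1
    ndB0q0 ndB0q1 pcB1 cut_B00pm_011_s3 xt_B00pm_011_s3 :=
  certF0 (fam := false) (s1 := true) (s2 := false) (a := 0) (b := 1) (c := 1) (cn := .pnn) (n1 := ndB0q0) (n2 := ndB0q1) (pc := pcB1) (cut := cut_B00pm_011_s3) (xt := xt_B00pm_011_s3) (P1 := 0) (W1 := 536870912) (P2 := 536870912) (W2 := 536870912) (P3 := 1033476505) (W3 := 6710887)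
    rfl t72_B00pm_011_s3

theorem s_B00pm_011_s3 {κ x : ℝ} (hκ : κ * h0 = ken x) (hx : ((1033476505 : ℕ) : ℝ) / S ≤ x)
    (hx' : x ≤ (((1033476505 : ℕ) : ℝ) + (6710887 : ℕ)) / S)
    (H : CutB (VFD κ) PP tK tL pcB (Cut.of [[⟨0, 0, 0, 22369621⟩, ⟨1, 1, 0, 22369621⟩, ⟨2, 1, 0, 22369621⟩]]) 0 1 1 0 0 (sgb true) (sgb false) x) :
    AltB (VFD κ) PP tK tL pcB [⟨4, 0, 0, 2845415833⟩] 0 1 1 0 0 (sgb true) (sgb false) x :=
  strip_altBD (m := 2845415833) false rfl hκ (SH.κ0 hκ (SH.hx1 hx).le (SH.hx2 hx').le) (SH.hx1 hx).le (SH.hx2 hx') (covB00).cov (covB01).cov hx hx' c_B00pm_011_s3 H ((okx hx hx').extB (T := tt) (sideB hx hx') hκ rfl rfl (.O 0 true) (.O 1 false) (Or.inr rfl))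

noncomputable def cut_B00pm_012_s1 : Cut := Cut.of [[⟨4, 0, 0, 1449551462⟩], [⟨0, 0, 0, 33554432⟩, ⟨1, 1, 0, 33554432⟩, ⟨2, 1, 0, 33554432⟩]]

noncomputable def xt_B00pm_012_s1 : Ext := strExt dd false true false .u0 .u2 .u0m .pnp 0 1 2 rfl rfl gf1 vv ndB0q0 ndB0q2

noncomputable def f_B00pm_012_s1 : ℕ → ℕ → ℕ → ℕ → Bool := onCell 0 536870912 0 536870912 1033476505 6710887
    (rowF 0 false true false .pnp 0 1 2 (qsf 0 536870912 0 536870912 1) ndB0q0 ndB0q2 pcB1 cut_B00pm_012_s1 xt_B00pm_012_s1)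

def k0_B00pm_012_s1 : ∃ t, chk3 f_B00pm_012_s1 t 2 1 1 = true :=
  ⟨(l 6), by decide +kernel⟩

def k1_B00pm_012_s1 : ∃ t, chk3 f_B00pm_012_s1 t 6 2 1 = true :=
  ⟨(b (a (l 6) (b (a (l 6) (l 16595456)) (l 6))) (l 6)), by decide +kernel⟩

def k2_B00pm_012_s1 : ∃ t, chk3 f_B00pm_012_s1 t 14 4 1 = true :=
  ⟨(b (a (a (l 16586672) (l 16505680)) (a (l 16323536) (b (l 16207248) (l 16327944)))) (l 6)), by decide +kernel⟩

def k3_B00pm_012_s1 : ∃ t, chk3 f_B00pm_012_s1 t 30 8 1 = true :=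
  ⟨(b (a (b (a (b (a (l 16212472) (l 16147056)) (l 16210960)) (b (b (a (b (l 16174832) (l 16083488)) (l 16166600)) (a (l 16166240) (b (l 16152536) (l 16114776)))) (l 16161616))) (l 16202168)) (b (a (b (l 16153728) (b (a (a (b (l 16131456) (l 16128864)) (l 16083128)) (l 16123032)) (a (l 16126696) (b (a (l 16110328) (l 16107392)) (a (l 16109336) (l 16058104)))))) (a (l 16132376) (l 16133352))) (a (l 16128384) (b (b (a (b (a (l 16048008) (l 16085200)) (l 16054368)) (b (l 16084928) (l 16032232))) (a (l 16088832) (a (l 16029656) (b (l 16021816) (l 16060688))))) (l 16085536))))) (a (l 16232128) (b (l 16042728) (l 16148016)))), by decide +kernel⟩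

def k4_B00pm_012_s1 : ∃ t, chk3 f_B00pm_012_s1 t 31 16 1 = true :=
  ⟨(a (b (a (l 517236495) (l 516088591)) (a (b (a (b (l 16080104) (a (b (l 16063240) (b (l 16054896) (l 16009368))) (l 16058024))) (l 16070600)) (b (a (b (a (l 16051240) (b (l 16044128) (l 15999480))) (l 16047904)) (b (l 16041912) (a (b (l 15991744) (l 15989840)) (l 16030696)))) (a (l 16052352) (a (l 16034360) (b (b (a (l 16024288) (l 16022208)) (l 16022352)) (l 16023944)))))) (a (b (l 16073536) (b (l 16038168) (b (l 15978472) (a (b (a (l 16014808) (l 16011712)) (l 16013104)) (b (l 16012072) (a (l 16006624) (l 16006384))))))) (l 515916559)))) (b (a (l 514934543) (l 513774863)) (a (l 515059471) (l 513913103)))), by decide +kernel⟩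

def k5_B00pm_012_s1 : ∃ t, chk3 f_B00pm_012_s1 t 62 17 1 = true :=
  ⟨(b (a (l 16055328) (b (b (a (a (l 16016664) (b (b (a (l 16005576) (l 16001640)) (l 16004000)) (l 16006320))) (b (a (b (l 16001272) (a (b (l 15996896) (l 15996000)) (l 15995480))) (l 15999648)) (a (c (l 15997512) (l 15951224)) (b (l 15990416) (a (l 15987224) (l 15984808)))))) (a (l 16016920) (l 15951752))) (l 16014336))) (l 15971488)), by decide +kernel⟩

def k6_B00pm_012_s1 : ∃ t, chk3 f_B00pm_012_s1 t 63 17 1 = true :=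
  ⟨(b (a (b (b (l 15998208) (a (b (a (b (a (b (l 15980792) (l 15978384)) (l 15980048)) (a (l 15978000) (b (l 15975352) (l 15973480)))) (l 15978256)) (a (l 15977224) (b (a (b (l 15970088) (l 15968704)) (l 15969256)) (a (l 15969008) (b (l 15964992) (l 15964040)))))) (l 15974920))) (a (l 15979072) (b (b (a (b (a (b (l 15960048) (l 15959472)) (l 15958440)) (a (l 15960352) (b (a (l 15955776) (l 15954224)) (l 15954992)))) (a (c (l 15958648) (l 15964360)) (l 15957400))) (a (l 15959832) (b (a (b (l 15950560) (l 15950584)) (b (l 15949288) (a (l 15946944) (l 15946288)))) (l 15949240)))) (l 15958792)))) (b (l 513995791) (a (b (a (a (b (l 15958584) (b (l 15948800) (b (l 15943880) (a (l 15942312) (l 15941056))))) (l 15953288)) (l 15955280)) (b (a (b (a (l 15941888) (b (l 15938656) (a (l 15937816) (l 15936072)))) (l 15940416)) (b (l 15938712) (a (b (a (l 15933664) (l 15933416)) (a (l 15933440) (l 15931296))) (l 15932664)))) (b (a (l 15942008) (a (l 15933208) (b (a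 (l 15928976) (l 15928064)) (l 15928104)))) (l 15937792)))) (b (l 15959800) (a (b (l 15938104) (b (a (l 15927328) (l 15928728)) (a (b (a (l 15924456) (l 15922984)) (l 15923696)) (a (b (l 15923336) (l 15920536)) (l 15922336))))) (l 15934344)))))) (a (l 15986192) (b (a (l 15945120) (b (b (a (a (l 15925632) (b (b (a (l 15920056) (l 15918136)) (l 15919368)) (l 15920616))) (b (a (b (l 15918328) (a (l 15915792) (l 15915264))) (l 15918088)) (a (c (l 15917800) (l 15912624)) (b (l 15912952) (a (l 15911232) (l 15910072)))))) (a (l 15926024) (l 15914576))) (l 15925168))) (l 15946504)))), by decide +kernel⟩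

def k7_B00pm_012_s1 : ∃ t, chk3 f_B00pm_012_s1 t 15 9 1 = true :=
  ⟨(a (b (a (l 16268200) (l 16177848)) (l 6)) (b (a (l 16004872) (b (a (l 16010600) (l 15965560)) (l 16012344))) (a (l 16130640) (l 15963080)))), by decide +kernel⟩

def k8_B00pm_012_s1 : ∃ t, chk3 f_B00pm_012_s1 t 7 5 1 = true :=
  ⟨(l 6), by decide +kernel⟩

def k9_B00pm_012_s1 : ∃ t, chk3 f_B00pm_012_s1 t 3 3 1 = true :=
  ⟨(l 6), by decide +kernel⟩

theorem t10_B00pm_012_s1 : ∃ t, chk3 f_B00pm_012_s1 t 31 17 1 = true := ex3_a k5_B00pm_012_s1 k6_B00pm_012_s1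

theorem t11_B00pm_012_s1 : ∃ t, chk3 f_B00pm_012_s1 t 31 8 1 = true := ex3_b k4_B00pm_012_s1 t10_B00pm_012_s1

theorem t12_B00pm_012_s1 : ∃ t, chk3 f_B00pm_012_s1 t 15 8 1 = true := ex3_a k3_B00pm_012_s1 t11_B00pm_012_s1

theorem t13_B00pm_012_s1 : ∃ t, chk3 f_B00pm_012_s1 t 15 4 1 = true := ex3_b t12_B00pm_012_s1 k7_B00pm_012_s1

theorem t14_B00pm_012_s1 : ∃ t, chk3 f_B00pm_012_s1 t 7 4 1 = true := ex3_a k2_B00pm_012_s1 t13_B00pm_012_s1

theorem t15_B00pm_012_s1 : ∃ t, chk3 f_B00pm_012_s1 t 7 2 1 = true := ex3_b t14_B00pm_012_s1 k8_B00pm_012_s1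

theorem t16_B00pm_012_s1 : ∃ t, chk3 f_B00pm_012_s1 t 3 2 1 = true := ex3_a k1_B00pm_012_s1 t15_B00pm_012_s1

theorem t17_B00pm_012_s1 : ∃ t, chk3 f_B00pm_012_s1 t 3 1 1 = true := ex3_b t16_B00pm_012_s1 k9_B00pm_012_s1

theorem t18_B00pm_012_s1 : ∃ t, chk3 f_B00pm_012_s1 t 1 1 1 = true := ex3_a k0_B00pm_012_s1 t17_B00pm_012_s1

theorem c_B00pm_012_s1 : CertF 0 536870912 0 536870912 1033476505 6710887 false true false .pnp 0 1 2
    ndB0q0 ndB0q2 pcB1 cut_B00pm_012_s1 xt_B00pm_012_s1 :=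
  certF0 (fam := false) (s1 := true) (s2 := false) (a := 0) (b := 1) (c := 2) (cn := .pnp) (n1 := ndB0q0) (n2 := ndB0q2) (pc := pcB1) (cut := cut_B00pm_012_s1) (xt := xt_B00pm_012_s1) (P1 := 0) (W1 := 536870912) (P2 := 0) (W2 := 536870912) (P3 := 1033476505) (W3 := 6710887)
    rfl t18_B00pm_012_s1

theorem s_B00pm_012_s1 {κ x : ℝ} (hκ : κ * h0 = ken x) (hx : ((1033476505 : ℕ) : ℝ) / S ≤ x)
    (hx' : x ≤ (((1033476505 : ℕ) : ℝ) + (6710887 : ℕ)) / S)
    (H : CutB (VFD κ) PP tK tL pcB (Cut.of [[⟨0, 0, 0, 33554432⟩, ⟨1, 1, 0, 33554432⟩, ⟨2, 1, 0, 33554432⟩]]) 0 1 2 0 0 (sgb true) (sgb false) x) :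
    AltB (VFD κ) PP tK tL pcB [⟨3, 0, 0, 1449551462⟩] 0 1 2 0 0 (sgb true) (sgb false) x :=
  strip_altBD (m := 1449551462) true rfl hκ (SH.κ0 hκ (SH.hx1 hx).le (SH.hx2 hx').le) (SH.hx1 hx).le (SH.hx2 hx') (covB00).cov (covB02).cov hx hx' c_B00pm_012_s1 H ((okx hx hx').extB (T := tt) (sideB hx hx') hκ rfl rfl (.O 0 true) (.O 2 false) (Or.inr rfl))

noncomputable def cut_B00pm_012_s3 : Cut := Cut.of [[⟨3, 0, 0, 2845415833⟩], [⟨0, 0, 0, 33554432⟩, ⟨1, 1, 0, 33554432⟩, ⟨2, 1, 0, 33554432⟩]]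

noncomputable def f_B00pm_012_s3 : ℕ → ℕ → ℕ → ℕ → Bool := onCell 0 536870912 0 536870912 1033476505 6710887
    (rowF 0 false true false .pnp 0 1 2 (qsf 0 536870912 0 536870912 1) ndB0q0 ndB0q2 pcB1 cut_B00pm_012_s3 Ext.none)

def k0_B00pm_012_s3 : ∃ t, chk3 f_B00pm_012_s3 t 2 2 1 = true :=
  ⟨(l 6), by decide +kernel⟩

def k1_B00pm_012_s3 : ∃ t, chk3 f_B00pm_012_s3 t 4 6 1 = true :=
  ⟨(a (l 2) (a (b (l 2) (b (l 6) (l 6))) (l 6))), by decide +kernel⟩

def k2_B00pm_012_s3 : ∃ t, chk3 f_B00pm_012_s3 t 8 14 1 = true :=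
  ⟨(a (l 2) (b (a (l 2) (b (l 2) (a (l 2) (b (l 16384336) (a (l 16424736) (l 16428080)))))) (b (a (l 2) (b (a (a (l 2) (b (l 16454392) (l 16475320))) (b (l 16457456) (l 16477872))) (a (a (b (l 16495240) (a (l 16514992) (l 16514752))) (b (l 16495472) (l 16514752))) (b (l 16497512) (a (l 16515528) (l 16517320)))))) (a (a (b (l 2) (b (l 2) (a (l 2) (a (l 2) (b (l 2) (a (l 2) (b (l 16576792) (l 16578168)))))))) (b (a (b (l 2) (a (l 2) (b (l 2) (l 16556680)))) (b (a (l 16535184) (b (l 16529688) (l 16538952))) (b (a (l 16548336) (l 16547520)) (a (l 16545224) (l 16554816))))) (a (b (a (b (l 2) (l 16558720)) (b (a (l 16563192) (l 16562648)) (l 16557544))) (a (b (a (l 16573656) (l 16573016)) (l 16571256)) (b (l 16572096) (l 16575208)))) (b (b (l 16550896) (l 16555912)) (c (l 16562328) (b (l 16569584) (l 16562104))))))) (b (a (b (b (l 16518200) (a (l 16538096) (l 16537592))) (a (b (l 16546544) (l 16553736)) (b (l 16545880) (l 16552928)))) (b (b (l 16508808) (c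 (l 16497216) (l 16537856))) (a (a (l 16549576) (l 16549880)) (c (l 16551432) (l 16550256))))) (a (b (a (b (l 16549248) (l 16543656)) (b (l 16537816) (l 16542584))) (b (a (l 16558000) (l 16556808)) (a (l 16560920) (l 16559624)))) (b (a (b (l 16537736) (l 16563344)) (b (l 16559648) (l 16564160))) (b (a (l 16556488) (l 16546696)) (a (l 16559192) (l 16559776)))))))))), by decide +kernel⟩

def k3_B00pm_012_s3 : ∃ t, chk3 f_B00pm_012_s3 t 16 30 1 = true :=
  ⟨(a (l 2) (b (a (l 2) (b (l 2) (a (l 2) (b (l 2) (a (l 2) (b (a (l 2) (b (l 16601360) (l 16603224))) (a (l 14) (l 16606160)))))))) (a (l 14) (a (l 14) (a (l 14) (b (b (c (l 16614024) (l 16611936)) (l 16611776)) (b (l 16632320) (l 16642976)))))))), by decide +kernel⟩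

def k4_B00pm_012_s3 : ∃ t, chk3 f_B00pm_012_s3 t 34 30 1 = true :=
  ⟨(b (b (a (a (b (l 2) (a (l 2) (b (l 16576608) (a (l 16590000) (a (l 16584144) (l 16588984)))))) (b (a (b (l 2) (a (l 16583816) (c (l 16583952) (l 16576920)))) (b (a (b (l 16580040) (l 16581000)) (l 16569304)) (l 16581944))) (a (a (b (a (l 16586104) (l 16585712)) (l 16588368)) (l 16575824)) (c (l 16586080) (l 16573696))))) (b (a (a (b (l 16578744) (l 16580488)) (b (l 16577400) (l 16579104))) (c (l 16566776) (b (l 16564184) (l 16565776)))) (a (a (l 16578368) (l 16571656)) (a (l 16570264) (l 16568952))))) (a (a (b (a (b (a (l 2) (l 16588472)) (c (l 16587888) (a (l 16591576) (l 16595936)))) (b (c (l 16593424) (a (l 16586640) (l 16591040))) (l 16595624))) (a (c (l 16603840) (b (l 16594664) (l 16603720))) (c (l 16602008) (l 16589448)))) (b (c (l 16581968) (a (l 16580808) (l 16579128))) (a (l 16599160) (l 16597368)))) (a (a (b (l 16578504) (l 16595624)) (b (l 16576928) (l 16583448))) (a (b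 (l 16575432) (l 16571352)) (b (l 16574016) (l 16569824)))))) (b (a (a (a (b (l 16605776) (l 16620176)) (b (l 16609064) (l 16618096))) (a (b (l 16607128) (l 16616032)) (b (l 16605216) (l 16614008)))) (a (b (c (l 16603520) (l 16596120)) (c (l 16612136) (l 16609944))) (b (c (l 16600040) (l 16597904)) (l 16607328)))) (a (a (a (b (l 16630112) (l 16640640)) (b (l 16627904) (l 16638304))) (b (l 16614144) (l 16634832))) (a (b (l 16620408) (l 16630344)) (b (l 16616440) (l 16626112)))))), by decide +kernel⟩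

def k5_B00pm_012_s3 : ∃ t, chk3 f_B00pm_012_s3 t 35 30 1 = true :=
  ⟨(b (b (a (b (a (c (l 16564600) (b (l 16562104) (l 16574088))) (c (l 16552624) (b (l 16560744) (l 16572624)))) (b (a (l 16566216) (l 16564616)) (a (l 16568336) (l 16566624)))) (b (a (b (l 16561000) (l 16562328)) (b (l 16561480) (l 16552224))) (a (a (l 16564904) (l 16554272)) (c (l 16576272) (l 16564272))))) (a (a (a (b (l 16572720) (l 16568416)) (b (l 16571600) (l 16567184))) (a (b (l 16570664) (l 16566128)) (b (l 16559448) (l 16586256)))) (a (b (c (l 16580624) (l 16568384)) (c (l 16586344) (l 16574008))) (b (c (l 16580576) (l 16568464)) (l 16574720))))) (b (a (a (b (l 16590704) (l 16604048)) (b (l 16593608) (l 16601464))) (a (b (l 16592136) (l 16599744)) (b (l 16570712) (l 16599032)))) (a (a (b (l 16612904) (l 16622312)) (b (l 16610056) (l 16619200))) (a (b (l 16608080) (l 16616960)) (b (l 16607112) (l 16615728)))))), by decide +kernel⟩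

def k6_B00pm_012_s3 : ∃ t, chk3 f_B00pm_012_s3 t 8 31 1 = true :=
  ⟨(a (a (l 14) (a (l 14) (a (l 14) (a (l 14) (b (b (b (l 16653976) (l 16665136)) (b (l 16676352) (l 16687504))) (b (b (l 16698448) (l 16709072)) (b (l 16719248) (l 16728848)))))))) (a (b (b (a (a (b (l 16650264) (l 16661224)) (b (l 16645360) (l 16656056))) (a (b (l 16640608) (l 16651032)) (b (l 16636104) (l 16646256)))) (a (a (b (l 16672240) (l 16683176)) (b (l 16666792) (l 16677464))) (a (b (l 16661496) (l 16671888)) (b (l 16656448) (l 16666568))))) (b (a (b (a (l 16693920) (l 16687928)) (a (l 16683376) (l 16698080))) (b (a (l 16682080) (l 16676480)) (a (l 16691952) (l 16686080)))) (a (b (a (l 16693344) (l 16707776)) (a (l 16713224) (l 16695936))) (b (a (l 16701384) (l 16695240)) (b (l 16683872) (l 16698560)))))) (b (b (a (b (a (l 16632032) (l 16628656)) (a (l 16641912) (l 16638264))) (a (b (l 16626144) (l 16635472)) (b (l 16624640) (l 16633696)))) (a (b (a (l 16651832) (l 16647904))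 (a (l 16661672) (l 16657472))) (b (l 16633200) (l 16642344)))) (b (a (b (a (l 16671312) (l 16666840)) (a (l 16680640) (l 16675880))) (b (a (l 16663216) (l 16660608)) (a (l 16671984) (l 16669096)))) (b (a (a (l 16689520) (l 16684488)) (a (l 16680320) (l 16677152))) (a (a (l 16697832) (l 16692536)) (a (l 16688088) (l 16684656)))))))), by decide +kernel⟩

def k7_B00pm_012_s3 : ∃ t, chk3 f_B00pm_012_s3 t 9 28 1 = true :=
  ⟨(a (a (b (a (b (l 16314864) (l 16354424)) (b (l 16333640) (l 16371848))) (b (a (l 16394792) (l 16410840)) (a (l 16435336) (l 16449992)))) (b (a (b (l 6) (l 16393888)) (l 6)) (a (b (l 16431488) (a (l 16465152) (l 16473736))) (b (l 16441288) (l 16477640))))) (a (a (b (l 6) (b (l 6) (l 16463024))) (l 6)) (l 6))), by decide +kernel⟩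

def k8_B00pm_012_s3 : ∃ t, chk3 f_B00pm_012_s3 t 9 29 1 = true :=
  ⟨(a (b (a (b (a (b (l 16465480) (l 16485200)) (b (l 16479088) (l 16498104))) (a (b (l 16504152) (l 16522256)) (b (l 16516376) (l 16533800)))) (a (b (a (l 16502792) (l 16510672)) (a (b (l 16529704) (l 16546616)) (b (l 16537064) (l 16553632)))) (b (a (l 16513856) (l 16511792)) (a (l 16547976) (l 16545216))))) (a (b (a (a (b (l 16540424) (c (l 16553672) (l 16552656))) (b (l 16541760) (b (l 16553424) (l 16559880)))) (b (b (l 16546296) (l 16554376)) (b (l 16551304) (a (l 16564912) (l 16571552))))) (a (b (a (b (l 16561760) (l 16566144)) (b (l 16565192) (l 16569440))) (a (b (l 16569536) (l 16551040)) (c (l 16574456) (l 16573568)))) (b (a (b (l 16570088) (l 16574208)) (b (l 16576592) (l 16580584))) (a (c (l 16578928) (l 16578272)) (l 16584800))))) (b (a (b (a (l 16541824) (l 16569480)) (a (b (l 16573744) (l 16579752)) (l 16583264))) (b (a (l 16571464) (l 16568208)) (a (l 16584928) (l 16581352))))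 (a (a (a (b (l 16584712) (l 16590608)) (b (l 16588712) (l 16594488))) (b (l 16582320) (l 16598400))) (a (b (l 16594192) (l 16599544)) (b (l 16590328) (l 16595440))))))) (a (b (a (b (a (l 16503520) (l 16490160)) (a (l 16536248) (l 16522192))) (b (l 16466472) (l 16497464))) (a (b (a (b (l 16558728) (l 16571552)) (l 16529744)) (a (b (l 16580256) (l 16585128)) (l 16546896))) (b (b (l 16518680) (l 16530712)) (a (l 16550440) (l 16531880))))) (b (a (b (l 16430864) (l 16460456)) (b (l 6) (l 16419856))) (b (a (l 16486640) (l 16444688)) (a (l 16501800) (l 16458720)))))), by decide +kernel⟩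

def k9_B00pm_012_s3 : ∃ t, chk3 f_B00pm_012_s3 t 18 15 1 = true :=
  ⟨(b (b (a (b (a (b (b (a (l 16563128) (l 16555608)) (a (l 16574744) (l 16577616))) (a (c (l 16577584) (l 16565744)) (l 16569136))) (b (a (c (l 16581920) (l 16570648)) (l 16587512)) (a (l 16583800) (l 16589576)))) (b (a (a (l 16570456) (l 16562464)) (a (l 16587392) (l 16592952))) (a (a (l 16575664) (l 16588416)) (a (l 16592144) (l 16597472))))) (a (b (a (b (c (l 16595176) (l 16584464)) (l 16596920)) (b (l 16600696) (l 16602352))) (a (a (l 16600360) (l 16603864)) (c (l 16607344) (l 16596592)))) (b (a (b (l 16601632) (l 16603072)) (b (l 16597312) (l 16598552))) (a (l 16607600) (l 16602736))))) (a (a (b (a (b (l 16592384) (l 16599496)) (a (l 16586680) (l 16577496))) (a (b (l 16607312) (l 16615656)) (c (l 16613576) (l 16591136)))) (b (a (c (l 16601728) (l 16590040)) (l 16595608)) (a (l 16594712) (l 16599152)))) (a (a (b (a (l 16610976) (l 16614232)) (l 16605144)) (b (l 16596240) (l 16588248)))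 (a (b (l 16617112) (l 16629568)) (b (l 16611760) (l 16623688)))))) (a (b (a (b (a (l 16607736) (l 16629544)) (b (l 16641936) (l 16650528))) (b (a (l 16631832) (l 16635728)) (a (l 16648320) (l 16651656)))) (b (a (b (l 16658920) (l 16656504)) (b (l 16640608) (l 16648128))) (a (b (l 16664152) (a (l 16682376) (l 16681408))) (b (l 16655216) (l 16672240))))) (a (b (a (b (l 16620200) (l 16635576)) (b (l 16644704) (l 16617568))) (b (a (l 16650360) (l 16631792)) (a (b (l 16639528) (l 16645656)) (l 16664048)))) (b (a (b (l 16643528) (l 16615832)) (b (l 16637096) (l 16566896))) (b (a (l 16629488) (l 16579984)) (a (l 16637944) (l 16633560))))))), by decide +kernel⟩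

def k10_B00pm_012_s3 : ∃ t, chk3 f_B00pm_012_s3 t 19 15 1 = true :=
  ⟨(b (a (b (a (b (a (b (l 16586784) (l 16587808)) (l 16571824)) (a (l 16591656) (l 16575488))) (b (a (l 16553952) (l 16534944)) (l 16547576))) (a (a (b (l 16600192) (l 16611584)) (l 16546920)) (a (l 16569784) (l 16549576)))) (b (b (a (l 16504208) (l 16460224)) (a (l 16506304) (l 16461424))) (a (l 16517008) (l 16470592)))) (a (a (b (a (a (l 16593280) (l 16543376)) (l 16529232)) (a (b (l 16566208) (l 16577280)) (b (l 16631216) (l 16641720)))) (b (a (l 16592936) (l 16571624)) (a (l 16573560) (l 16593048)))) (b (a (l 16537392) (l 16488736)) (a (a (l 16569464) (l 16544744)) (l 16506160))))), by decide +kernel⟩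

def k11_B00pm_012_s3 : ∃ t, chk3 f_B00pm_012_s3 t 5 3 1 = true :=
  ⟨(b (l 6) (b (a (b (l 6) (a (b (l 6) (a (b (l 16379576) (l 16391880)) (l 6))) (l 6))) (l 6)) (a (b (a (a (b (b (l 16392040) (l 16391872)) (l 16398704)) (b (b (l 16301536) (l 16299536)) (l 16303248))) (b (a (l 16215464) (l 6)) (a (l 16212728) (l 16131920)))) (a (a (b (l 16413480) (a (l 16453816) (l 16401128))) (b (l 16313496) (l 16322816))) (a (l 16221608) (l 16133848)))) (b (l 6) (a (a (l 16060328) (l 16005360)) (b (l 6) (l 15957560))))))), by decide +kernel⟩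

def k12_B00pm_012_s3 : ∃ t, chk3 f_B00pm_012_s3 t 3 1 1 = true :=
  ⟨(b (l 6) (b (l 6) (l 6))), by decide +kernel⟩

theorem t13_B00pm_012_s3 : ∃ t, chk3 f_B00pm_012_s3 t 9 15 1 = true := ex3_a k9_B00pm_012_s3 k10_B00pm_012_s3

theorem t14_B00pm_012_s3 : ∃ t, chk3 f_B00pm_012_s3 t 9 14 1 = true := ex3_b k7_B00pm_012_s3 k8_B00pm_012_s3

theorem t15_B00pm_012_s3 : ∃ t, chk3 f_B00pm_012_s3 t 9 7 1 = true := ex3_b t14_B00pm_012_s3 t13_B00pm_012_s3

theorem t16_B00pm_012_s3 : ∃ t, chk3 f_B00pm_012_s3 t 17 30 1 = true := ex3_a k4_B00pm_012_s3 k5_B00pm_012_s3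

theorem t17_B00pm_012_s3 : ∃ t, chk3 f_B00pm_012_s3 t 8 30 1 = true := ex3_a k3_B00pm_012_s3 t16_B00pm_012_s3

theorem t18_B00pm_012_s3 : ∃ t, chk3 f_B00pm_012_s3 t 8 15 1 = true := ex3_b t17_B00pm_012_s3 k6_B00pm_012_s3

theorem t19_B00pm_012_s3 : ∃ t, chk3 f_B00pm_012_s3 t 8 7 1 = true := ex3_b k2_B00pm_012_s3 t18_B00pm_012_s3

theorem t20_B00pm_012_s3 : ∃ t, chk3 f_B00pm_012_s3 t 4 7 1 = true := ex3_a t19_B00pm_012_s3 t15_B00pm_012_s3

theorem t21_B00pm_012_s3 : ∃ t, chk3 f_B00pm_012_s3 t 4 3 1 = true := ex3_b k1_B00pm_012_s3 t20_B00pm_012_s3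

theorem t22_B00pm_012_s3 : ∃ t, chk3 f_B00pm_012_s3 t 2 3 1 = true := ex3_a t21_B00pm_012_s3 k11_B00pm_012_s3

theorem t23_B00pm_012_s3 : ∃ t, chk3 f_B00pm_012_s3 t 2 1 1 = true := ex3_b k0_B00pm_012_s3 t22_B00pm_012_s3

theorem t24_B00pm_012_s3 : ∃ t, chk3 f_B00pm_012_s3 t 1 1 1 = true := ex3_a t23_B00pm_012_s3 k12_B00pm_012_s3

theorem c_B00pm_012_s3 : CertF 0 536870912 0 536870912 1033476505 6710887 false true false .pnp 0 1 2
    ndB0q0 ndB0q2 pcB1 cut_B00pm_012_s3 Ext.none :=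
  certF0 (fam := false) (s1 := true) (s2 := false) (a := 0) (b := 1) (c := 2) (cn := .pnp) (n1 := ndB0q0) (n2 := ndB0q2) (pc := pcB1) (cut := cut_B00pm_012_s3) (xt := Ext.none) (P1 := 0) (W1 := 536870912) (P2 := 0) (W2 := 536870912) (P3 := 1033476505) (W3 := 6710887)
    rfl t24_B00pm_012_s3

theorem s_B00pm_012_s3 {κ x : ℝ} (hκ : κ * h0 = ken x) (hx : ((1033476505 : ℕ) : ℝ) / S ≤ x)
    (hx' : x ≤ (((1033476505 : ℕ) : ℝ) + (6710887 : ℕ)) / S)
    (H : CutB (VFD κ) PP tK tL pcB (Cut.of [[⟨0, 0, 0, 33554432⟩, ⟨1, 1, 0, 33554432⟩, ⟨2, 1, 0, 33554432⟩]]) 0 1 2 0 0 (sgb true) (sgb false) x) :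
    AltB (VFD κ) PP tK tL pcB [⟨4, 0, 0, 2845415833⟩] 0 1 2 0 0 (sgb true) (sgb false) x :=
  strip_altBD (m := 2845415833) false rfl hκ (SH.κ0 hκ (SH.hx1 hx).le (SH.hx2 hx').le) (SH.hx1 hx).le (SH.hx2 hx') (covB00).cov (covB02).cov hx hx' c_B00pm_012_s3 H (noExt_B)

noncomputable def cut_B00pm_022_s1 : Cut := Cut.of [[⟨4, 0, 0, 1449551462⟩], [⟨0, 0, 0, 33554432⟩, ⟨1, 1, 0, 33554432⟩, ⟨2, 1, 0, 33554432⟩]]

noncomputable def f_B00pm_022_s1 : ℕ → ℕ → ℕ → ℕ → Bool := onCell 1073741824 536870912 0 536870912 1033476505 6710887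
    (rowF 2 false true false .pp 0 2 2 (qsf 0 536870912 0 536870912 2) ndB0q0 ndB0q2 pcB2 cut_B00pm_022_s1 Ext.none)

def k0_B00pm_022_s1 : ∃ t, chk3 f_B00pm_022_s1 t 1 1 1 = true :=
  ⟨(l 6), by decide +kernel⟩

theorem c_B00pm_022_s1 : CertF 0 536870912 0 536870912 1033476505 6710887 false true false .pp 0 2 2
    ndB0q0 ndB0q2 pcB2 cut_B00pm_022_s1 Ext.none :=
  certF2 (fam := false) (s1 := true) (s2 := false) (a := 0) (b := 2) (c := 2) (cn := .pp) (n1 := ndB0q0) (n2 := ndB0q2) (pc := pcB2) (cut := cut_B00pm_022_s1) (xt := Ext.none) (P1 := 0) (W1 := 536870912) (P2 := 0) (W2 := 536870912) (P3 := 1033476505) (W3 := 6710887)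
    rfl (fun _ => rfl) k0_B00pm_022_s1

theorem s_B00pm_022_s1 {κ x : ℝ} (hκ : κ * h0 = ken x) (hx : ((1033476505 : ℕ) : ℝ) / S ≤ x)
    (hx' : x ≤ (((1033476505 : ℕ) : ℝ) + (6710887 : ℕ)) / S)
    (H : CutB (VFD κ) PP tK tL pcB (Cut.of [[⟨0, 0, 0, 33554432⟩, ⟨1, 1, 0, 33554432⟩, ⟨2, 1, 0, 33554432⟩]]) 0 2 2 0 0 (sgb true) (sgb false) x) :
    AltB (VFD κ) PP tK tL pcB [⟨3, 0, 0, 1449551462⟩] 0 2 2 0 0 (sgb true) (sgb false) x :=
  strip_altBD (m := 1449551462) true rfl hκ (SH.κ0 hκ (SH.hx1 hx).le (SH.hx2 hx').le) (SH.hx1 hx).le (SH.hx2 hx') (covB00).cov (covB02).cov hx hx' c_B00pm_022_s1 H (noExt_B)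

noncomputable def cut_B00pm_022_s3 : Cut := Cut.of [[⟨3, 0, 0, 2845415833⟩], [⟨0, 0, 0, 33554432⟩, ⟨1, 1, 0, 33554432⟩, ⟨2, 1, 0, 33554432⟩]]

noncomputable def f_B00pm_022_s3 : ℕ → ℕ → ℕ → ℕ → Bool := onCell 0 536870912 0 536870912 1033476505 6710887
    (rowF 0 false true false .pp 0 2 2 (qsf 0 536870912 0 536870912 2) ndB0q0 ndB0q2 pcB2 cut_B00pm_022_s3 Ext.none)

def k0_B00pm_022_s3 : ∃ t, chk3 f_B00pm_022_s3 t 2 2 1 = true :=
  ⟨(l 6), by decide +kernel⟩

def k1_B00pm_022_s3 : ∃ t, chk3 f_B00pm_022_s3 t 2 6 1 = true :=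
  ⟨(a (b (l 6) (a (a (b (a (l 16419496) (l 16434144)) (a (b (l 16497496) (l 16484544)) (b (l 16520120) (l 16511968)))) (b (l 6) (a (a (l 16532384) (l 16539672)) (l 16500608)))) (a (b (l 6) (l 6)) (l 6)))) (l 1)), by decide +kernel⟩

def k2_B00pm_022_s3 : ∃ t, chk3 f_B00pm_022_s3 t 8 14 1 = true :=
  ⟨(b (a (b (a (b (l 16472976) (l 16465456)) (l 16500560)) (a (b (l 16458608) (a (l 16443944) (l 16462232))) (b (l 16492512) (l 16488456)))) (b (a (l 16525208) (l 16534056)) (a (l 16475048) (l 16526712)))) (a (a (b (b (a (l 16440048) (l 16459112)) (a (b (l 16397560) (a (l 16435784) (l 16445752))) (b (l 16459080) (l 16460648)))) (a (b (b (a (b (l 16437536) (l 16439112)) (l 16406336)) (a (b (l 16420520) (l 16434776)) (l 16432504))) (a (b (b (a (l 16447768) (l 16452944)) (a (l 16454096) (l 16459304))) (a (b (l 16451120) (a (l 16468888) (l 16471520))) (b (l 16466840) (l 16475464)))) (b (b (l 16460720) (l 16467120)) (a (l 16455304) (l 16481504))))) (b (b (l 16463368)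 (l 16468736)) (b (a (l 16432136) (l 16484168)) (a (l 16489288) (l 16499424)))))) (b (b (l 16454720) (a (l 16478608) (l 16495584))) (b (a (b (l 16482544) (l 16488048)) (l 16502096)) (a (b (l 16498584) (l 16513888)) (b (l 16515760) (l 16531032)))))) (a (b (b (l 16513800) (l 16515344)) (b (a (l 16516104) (l 16526016)) (a (l 16536704) (l 16546288)))) (b (b (l 16523520) (l 16524712)) (b (l 16530496) (l 1)))))), by decide +kernel⟩

def k3_B00pm_022_s3 : ∃ t, chk3 f_B00pm_022_s3 t 8 15 1 = true :=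
  ⟨(b (a (b (a (a (b (a (b (b (a (a (l 16468064) (l 16481192)) (l 16485160)) (a (a (l 16488856) (l 16491512)) (l 16495496))) (a (a (b (l 16499064) (l 16509056)) (b (l 16501736) (l 16511728))) (l 16510768))) (b (a (l 16495560) (l 16500824)) (a (l 16516096) (l 16521392)))) (b (a (a (a (b (l 16518832) (l 16517928)) (b (l 16521512) (l 16531104))) (l 16530368)) (a (l 16535712) (l 16541024))) (b (a (a (a (l 16527344) (l 16540520)) (l 16544560)) (l 16552592)) (l 14)))) (b (b (a (l 16508648) (l 16518832)) (a (l 16529240) (l 16539440))) (a (b (l 16548896) (l 16567760)) (l 16568600)))) (a (b (b (l 16533296) (l 16553888)) (a (l 16578304) (l 16587408))) (b (b (l 16550376) (l 16570848)) (l 16515776)))) (a (l 14) (a (l 14) (b (l 16593336) (l 16637272))))) (a (a (b (b (l 16489944) (l 16612680)) (l 1)) (l 1)) (l 1))) (a (a (l 14) (a (l 14) (l 1))) (l 1))), by decide +kernel⟩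

def k4_B00pm_022_s3 : ∃ t, chk3 f_B00pm_022_s3 t 9 7 1 = true :=
  ⟨(b (a (b (a (b (l 16516080) (l 16508496)) (l 1)) (l 1)) (l 1)) (l 1)), by decide +kernel⟩

def k5_B00pm_022_s3 : ∃ t, chk3 f_B00pm_022_s3 t 5 7 1 = true :=
  ⟨(l 1), by decide +kernel⟩

def k6_B00pm_022_s3 : ∃ t, chk3 f_B00pm_022_s3 t 3 1 1 = true :=
  ⟨(l 1), by decide +kernel⟩

theorem t7_B00pm_022_s3 : ∃ t, chk3 f_B00pm_022_s3 t 8 7 1 = true := ex3_b k2_B00pm_022_s3 k3_B00pm_022_s3

theorem t8_B00pm_022_s3 : ∃ t, chk3 f_B00pm_022_s3 t 4 7 1 = true := ex3_a t7_B00pm_022_s3 k4_B00pm_022_s3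

theorem t9_B00pm_022_s3 : ∃ t, chk3 f_B00pm_022_s3 t 2 7 1 = true := ex3_a t8_B00pm_022_s3 k5_B00pm_022_s3

theorem t10_B00pm_022_s3 : ∃ t, chk3 f_B00pm_022_s3 t 2 3 1 = true := ex3_b k1_B00pm_022_s3 t9_B00pm_022_s3

theorem t11_B00pm_022_s3 : ∃ t, chk3 f_B00pm_022_s3 t 2 1 1 = true := ex3_b k0_B00pm_022_s3 t10_B00pm_022_s3

theorem t12_B00pm_022_s3 : ∃ t, chk3 f_B00pm_022_s3 t 1 1 1 = true := ex3_a t11_B00pm_022_s3 k6_B00pm_022_s3

theorem c_B00pm_022_s3 : CertF 0 536870912 0 536870912 1033476505 6710887 false true false .pp 0 2 2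
    ndB0q0 ndB0q2 pcB2 cut_B00pm_022_s3 Ext.none :=
  certF0 (fam := false) (s1 := true) (s2 := false) (a := 0) (b := 2) (c := 2) (cn := .pp) (n1 := ndB0q0) (n2 := ndB0q2) (pc := pcB2) (cut := cut_B00pm_022_s3) (xt := Ext.none) (P1 := 0) (W1 := 536870912) (P2 := 0) (W2 := 536870912) (P3 := 1033476505) (W3 := 6710887)
    rfl t12_B00pm_022_s3

theorem s_B00pm_022_s3 {κ x : ℝ} (hκ : κ * h0 = ken x) (hx : ((1033476505 : ℕ) : ℝ) / S ≤ x)
    (hx' : x ≤ (((1033476505 : ℕ) : ℝ) + (6710887 : ℕ)) / S)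
    (H : CutB (VFD κ) PP tK tL pcB (Cut.of [[⟨0, 0, 0, 33554432⟩, ⟨1, 1, 0, 33554432⟩, ⟨2, 1, 0, 33554432⟩]]) 0 2 2 0 0 (sgb true) (sgb false) x) :
    AltB (VFD κ) PP tK tL pcB [⟨4, 0, 0, 2845415833⟩] 0 2 2 0 0 (sgb true) (sgb false) x :=
  strip_altBD (m := 2845415833) false rfl hκ (SH.κ0 hκ (SH.hx1 hx).le (SH.hx2 hx').le) (SH.hx1 hx).le (SH.hx2 hx') (covB00).cov (covB02).cov hx hx' c_B00pm_022_s3 H (noExt_B)

end Pool.Agent.Strip051.G.I9625_9688.Tab.St.C
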