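import Pool.Agent.Strip051.G.I9625_9688.StH
import Pool.Agent.Strip051.G.I9625_9688.StF

/-! # Unit strips 6 (generated) -/

set_option linter.all false
set_option maxRecDepth 100000

namespace Pool.Agent.Strip051.G.I9625_9688.Tab.St.C

open Pool.Agent.Strip051.PB Pool.Agent.Strip051.PB.T Pool.Agent.StripNear Pool.Agent.Strip051.LC
open Pool.Agent.Strip051.G.I9625_9688.Tab Pool.Agent.Strip051.G.I9625_9688.Tab.St

noncomputable def cut_B00pm_101_s1 : Cut := Cut.of [[⟨4, 0, 0, 1127428915⟩], [⟨0, 1, 0, 13421772⟩, ⟨1, 0, 0, 13421772⟩, ⟨2, 1, 0, 13421772⟩], [⟨0, 0, 1, 46137344⟩, ⟨1, 1, 2, 46137344⟩, ⟨2, 1, 0, 1048576⟩, ⟨0, 0, 0, 1047972020⟩, ⟨0, 1, 0, 45097156⟩, ⟨1, 0, 0, 45097156⟩, ⟨1, 1, 0, 1047972020⟩]]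

noncomputable def f_B00pm_101_s1 : ℕ → ℕ → ℕ → ℕ → Bool := onCell 0 536870912 536870912 536870912 1033476505 6710887
    (rowF 2 false true false .npn 1 0 1 (qsf 536870912 536870912 536870912 536870912 0) ndB0q1 ndB0q1 pcB0 cut_B00pm_101_s1 Ext.none)

def k0_B00pm_101_s1 : ∃ t, chk3 f_B00pm_101_s1 t 2 2 1 = true :=
  ⟨(l 6), by decide +kernel⟩

def k1_B00pm_101_s1 : ∃ t, chk3 f_B00pm_101_s1 t 4 6 1 = true :=
  ⟨(l 6), by decide +kernel⟩

def k2_B00pm_101_s1 : ∃ t, chk3 f_B00pm_101_s1 t 8 14 1 = true :=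
  ⟨(l 6), by decide +kernel⟩

def k3_B00pm_101_s1 : ∃ t, chk3 f_B00pm_101_s1 t 16 30 1 = true :=
  ⟨(l 6), by decide +kernel⟩

def k4_B00pm_101_s1 : ∃ t, chk3 f_B00pm_101_s1 t 16 62 1 = true :=
  ⟨(l 6), by decide +kernel⟩

def k5_B00pm_101_s1 : ∃ t, chk3 f_B00pm_101_s1 t 32 126 1 = true :=
  ⟨(b (l 6) (b (l 6) (a (a (a (l 14) (l 6)) (l 6)) (l 6)))), by decide +kernel⟩

def k6_B00pm_101_s1 : ∃ t, chk3 f_B00pm_101_s1 t 64 127 1 = true :=
  ⟨(b (a (l 14) (b (b (l 6) (a (a (l 14) (a (l 14) (l 6))) (l 6))) (a (l 14) (a (b (c (l 16779872) (b (l 16777544) (l 14))) (l 14)) (b (c (l 16778224) (b (l 6) (l 16785728))) (c (l 16777440) (b (l 16785192) (l 14)))))))) (l 14)), by decide +kernel⟩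

def k7_B00pm_101_s1 : ∃ t, chk3 f_B00pm_101_s1 t 65 254 1 = true :=
  ⟨(a (a (b (l 6) (b (l 6) (a (c (l 16776032) (b (l 16783712) (l 16783384))) (a (c (l 16780168) (l 16782456)) (l 6))))) (l 6)) (l 6)), by decide +kernel⟩

def k8_B00pm_101_s1 : ∃ t, chk3 f_B00pm_101_s1 t 130 255 1 = true :=
  ⟨(b (a (b (a (c (l 16780968) (b (l 16783096) (l 14))) (c (l 16779816) (b (l 16781888) (l 16781800)))) (a (l 14) (c (l 16780000) (l 16779120)))) (b (a (c (l 16778584) (b (l 16780592) (l 16780680))) (c (l 16777272) (b (l 6) (l 16779464)))) (a (c (l 16779088) (l 16778256)) (c (l 16778104) (b (l 16779760) (l 16780088)))))) (a (l 14) (b (b (a (c (l 16779568) (l 16781152)) (c (l 16778816) (l 16780448))) (a (l 14) (c (l 16779344) (l 16780848)))) (a (l 14) (a (l 14) (b (c (l 16779792) (l 16781184)) (l 14))))))), by decide +kernel⟩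

def k9_B00pm_101_s1 : ∃ t, chk3 f_B00pm_101_s1 t 131 255 1 = true :=
  ⟨(a (b (b (l 6) (a (c (l 16777024) (b (l 16778616) (l 16779112))) (a (c (l 16776152) (l 16778008)) (l 6)))) (b (a (c (b (l 16777984) (l 16778664)) (b (l 16779648) (l 16780216))) (a (c (l 16777688) (b (l 16778976) (l 16779672))) (c (a (a (l 16777408) (l 16777112)) (l 16776440)) (a (a (l 16779056) (l 16778752)) (l 16778048))))) (a (a (c (b (l 16779528) (l 16780256)) (b (l 16780944) (b (l 16781392) (l 14)))) (c (b (l 16779248) (l 16780048)) (b (l 16780680) (c (l 16781040) (l 16781704))))) (b (a (c (l 16778936) (l 16780400)) (c (a (a (l 16778736) (l 16778472)) (l 16777840)) (a (a (l 16780208) (l 16779936)) (l 16779280)))) (a (c (l 16779824) (c (l 16780824) (l 16781504))) (a (c (a (l 16779664) (l 16779424)) (a (c (l 16780680) (l 16781368)) (l 16780768))) (c (l 16778824) (c (l 16779816) (l 16780480))))))))) (b (l 6) (b (b (a (c (l 16773664) (l 16769992))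 (l 6)) (a (c (a (l 16775568) (l 16773776)) (a (l 16777064) (l 16775200))) (a (c (l 16771952) (l 16773304)) (l 6)))) (b (a (c (a (l 16776576) (l 16774864)) (a (c (l 16777608) (l 16778312)) (l 16773552))) (c (a (l 16773120) (l 16771352)) (a (l 16774360) (l 16772512)))) (a (c (a (c (l 16777304) (l 16777936)) (c (l 16775688) (l 16776288))) (a (c (l 16778568) (l 16779208)) (c (l 16776880) (l 16777488)))) (c (a (c (l 16774048) (l 16774608)) (c (l 16772376) (l 16772904))) (a (c (l 16775168) (l 16775736)) (c (l 16773424) (l 16773952))))))))), by decide +kernel⟩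

def k10_B00pm_101_s1 : ∃ t, chk3 f_B00pm_101_s1 t 33 63 1 = true :=
  ⟨(b (l 6) (a (a (b (l 6) (a (b (l 6) (b (l 6) (b (a (a (c (l 16769552) (l 16770640)) (l 6)) (l 6)) (b (a (c (a (l 16770576) (l 16768808)) (a (l 16771576) (l 16769736))) (l 6)) (a (c (a (l 16771272) (l 16769544)) (a (l 16772216) (l 16770416))) (a (c (l 16767784) (l 16768584)) (l 6))))))) (l 6))) (l 6)) (l 6))), by decide +kernel⟩

def k11_B00pm_101_s1 : ∃ t, chk3 f_B00pm_101_s1 t 17 15 1 = true :=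
  ⟨(l 6), by decide +kernel⟩

def k12_B00pm_101_s1 : ∃ t, chk3 f_B00pm_101_s1 t 9 7 1 = true :=
  ⟨(l 6), by decide +kernel⟩

def k13_B00pm_101_s1 : ∃ t, chk3 f_B00pm_101_s1 t 5 3 1 = true :=
  ⟨(l 6), by decide +kernel⟩

def k14_B00pm_101_s1 : ∃ t, chk3 f_B00pm_101_s1 t 3 1 1 = true :=
  ⟨(l 6), by decide +kernel⟩

theorem t15_B00pm_101_s1 : ∃ t, chk3 f_B00pm_101_s1 t 65 255 1 = true := ex3_a k8_B00pm_101_s1 k9_B00pm_101_s1

theorem t16_B00pm_101_s1 : ∃ t, chk3 f_B00pm_101_s1 t 65 127 1 = true := ex3_b k7_B00pm_101_s1 t15_B00pm_101_s1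

theorem t17_B00pm_101_s1 : ∃ t, chk3 f_B00pm_101_s1 t 32 127 1 = true := ex3_a k6_B00pm_101_s1 t16_B00pm_101_s1

theorem t18_B00pm_101_s1 : ∃ t, chk3 f_B00pm_101_s1 t 32 63 1 = true := ex3_b k5_B00pm_101_s1 t17_B00pm_101_s1

theorem t19_B00pm_101_s1 : ∃ t, chk3 f_B00pm_101_s1 t 16 63 1 = true := ex3_a t18_B00pm_101_s1 k10_B00pm_101_s1

theorem t20_B00pm_101_s1 : ∃ t, chk3 f_B00pm_101_s1 t 16 31 1 = true := ex3_b k4_B00pm_101_s1 t19_B00pm_101_s1

theorem t21_B00pm_101_s1 : ∃ t, chk3 f_B00pm_101_s1 t 16 15 1 = true := ex3_b k3_B00pm_101_s1 t20_B00pm_101_s1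

theorem t22_B00pm_101_s1 : ∃ t, chk3 f_B00pm_101_s1 t 8 15 1 = true := ex3_a t21_B00pm_101_s1 k11_B00pm_101_s1

theorem t23_B00pm_101_s1 : ∃ t, chk3 f_B00pm_101_s1 t 8 7 1 = true := ex3_b k2_B00pm_101_s1 t22_B00pm_101_s1

theorem t24_B00pm_101_s1 : ∃ t, chk3 f_B00pm_101_s1 t 4 7 1 = true := ex3_a t23_B00pm_101_s1 k12_B00pm_101_s1

theorem t25_B00pm_101_s1 : ∃ t, chk3 f_B00pm_101_s1 t 4 3 1 = true := ex3_b k1_B00pm_101_s1 t24_B00pm_101_s1

theorem t26_B00pm_101_s1 : ∃ t, chk3 f_B00pm_101_s1 t 2 3 1 = true := ex3_a t25_B00pm_101_s1 k13_B00pm_101_s1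

theorem t27_B00pm_101_s1 : ∃ t, chk3 f_B00pm_101_s1 t 2 1 1 = true := ex3_b k0_B00pm_101_s1 t26_B00pm_101_s1

theorem t28_B00pm_101_s1 : ∃ t, chk3 f_B00pm_101_s1 t 1 1 1 = true := ex3_a t27_B00pm_101_s1 k14_B00pm_101_s1

theorem c_B00pm_101_s1 : CertF 536870912 536870912 536870912 536870912 1033476505 6710887 false true false .npn 1 0 1
    ndB0q1 ndB0q1 pcB0 cut_B00pm_101_s1 Ext.none :=
  certF2 (fam := false) (s1 := true) (s2 := false) (a := 1) (b := 0) (c := 1) (cn := .npn) (n1 := ndB0q1) (n2 := ndB0q1) (pc := pcB0) (cut := cut_B00pm_101_s1) (xt := Ext.none) (P1 := 536870912) (W1 := 536870912) (P2 := 536870912) (W2 := 536870912) (P3 := 1033476505) (W3 := 6710887)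
    rfl (fun _ => rfl) t28_B00pm_101_s1

theorem s_B00pm_101_s1 {κ x : ℝ} (hκ : κ * h0 = ken x) (hx : ((1033476505 : ℕ) : ℝ) / S ≤ x)
    (hx' : x ≤ (((1033476505 : ℕ) : ℝ) + (6710887 : ℕ)) / S)
    (H : CutB (VFD κ) PP tK tL pcB (Cut.of [[⟨0, 1, 0, 13421772⟩, ⟨1, 0, 0, 13421772⟩, ⟨2, 1, 0, 13421772⟩], [⟨0, 0, 1, 46137344⟩, ⟨1, 1, 2, 46137344⟩, ⟨2, 1, 0, 1048576⟩, ⟨0, 0, 0, 1047972020⟩, ⟨0, 1, 0, 45097156⟩, ⟨1, 0, 0, 45097156⟩, ⟨1, 1, 0, 1047972020⟩]]) 1 0 1 0 0 (sgb true) (sgb false) x) :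
    AltB (VFD κ) PP tK tL pcB [⟨3, 0, 0, 1127428915⟩] 1 0 1 0 0 (sgb true) (sgb false) x :=
  strip_altBD (m := 1127428915) true rfl hκ (SH.κ0 hκ (SH.hx1 hx).le (SH.hx2 hx').le) (SH.hx1 hx).le (SH.hx2 hx') (covB01).cov (covB01).cov hx hx' c_B00pm_101_s1 H (noExt_B)

noncomputable def cut_B00pm_101_s3 : Cut := Cut.of [[⟨3, 0, 0, 2845415833⟩], [⟨0, 1, 0, 13421772⟩, ⟨1, 0, 0, 13421772⟩, ⟨2, 1, 0, 13421772⟩], [⟨0, 0, 1, 46137344⟩, ⟨1, 1, 2, 46137344⟩, ⟨2, 1, 0, 1048576⟩, ⟨0, 0, 0, 1047972020⟩, ⟨0, 1, 0, 45097156⟩, ⟨1, 0, 0, 45097156⟩, ⟨1, 1, 0, 1047972020⟩]]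

noncomputable def xt_B00pm_101_s3 : Ext := strExt dd false true false .u0 .u0m .s0m .npn 1 0 1 rfl rfl gl0 vv ndB0q1 ndB0q1

noncomputable def f_B00pm_101_s3 : ℕ → ℕ → ℕ → ℕ → Bool := onCell 536870912 536870912 536870912 536870912 1033476505 6710887
    (rowF 0 false true false .npn 1 0 1 (qsf 536870912 536870912 536870912 536870912 0) ndB0q1 ndB0q1 pcB0 cut_B00pm_101_s3 xt_B00pm_101_s3)

def k0_B00pm_101_s3 : ∃ t, chk3 f_B00pm_101_s3 t 4 4 1 = true :=
  ⟨(b (a (l 4) (b (l 1) (a (l 527587855) (l 1)))) (a (b (a (l 4) (b (l 4) (l 528274703))) (a (b (l 4) (a (l 4) (l 528823055))) (b (l 528430351) (l 528849935)))) (b (a (l 527616015) (l 527305487)) (a (b (l 528119567) (l 528263439)) (b (l 527791631) (l 527928335)))))), by decide +kernel⟩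

def k1_B00pm_101_s3 : ∃ t, chk3 f_B00pm_101_s3 t 4 10 1 = true :=
  ⟨(a (b (a (b (a (l 529127439) (l 528973071)) (a (l 529271311) (l 529115407))) (b (a (l 528816399) (l 528657167)) (a (l 528956943) (l 528795919)))) (b (a (a (b (l 529377295) (l 529441807)) (b (l 529221135) (l 529285903))) (a (l 529090575) (l 528928527))) (a (b (a (b (l 529490191) (l 529529871)) (b (l 529334799) (l 529371663))) (a (a (b (l 529634831) (l 529713679)) (l 529583887)) (a (l 529498127) (l 529413647)))) (b (a (l 529191183) (l 529028623)) (a (l 529284879) (l 529116175)))))) (b (a (b (l 528403215) (a (l 528632079) (l 528464399))) (b (l 528062991) (l 528194831))) (b (a (a (l 528763151) (l 528594447)) (a (l 528421135) (l 528242703))) (b (a (a (l 528862735) (l 528693263)) (l 528422927)) (a (a (l 528946191) (l 528773391)) (l 528768015)))))), by decide +kernel⟩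

def k2_B00pm_101_s3 : ∃ t, chk3 f_B00pm_101_s3 t 4 11 1 = true :=
  ⟨(a (b (a (b (a (b (a (b (l 529802767) (l 529899023)) (l 529746191)) (a (b (l 530000143) (l 530104079)) (l 529933583))) (b (a (l 529648655) (l 529554703)) (a (l 529824015) (l 529719823)))) (a (b (a (b (l 530210063) (l 530316047)) (l 530133263)) (a (l 530470671) (c (l 530345999) (l 530329359)))) (a (b (l 530013199) (l 530208527)) (b (l 529899279) (l 530086671))))) (b (a (b (a (l 529462543) (l 529371919)) (a (l 529619215) (l 529520911))) (b (l 529234703) (l 529374223))) (a (b (a (l 529790223) (l 529684751)) (a (l 529969935) (l 529857295))) (b (a (l 529581583) (l 529480463)) (a (l 529747727) (l 529640719)))))) (a (a (b (a (b (l 530672911) (l 530867215)) (b (l 530538255) (l 530731791))) (a (a (l 530906639) (l 530838799)) (a (l 530770959) (l 530703631)))) (b (b (a (l 530405647) (l 530276623)) (a (l 530598159) (l 530466319))) (a (b (l 530783247) (l 530960399))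 (b (l 530650383) (l 530827023))))) (b (b (a (a (l 530153231) (l 530034447)) (c (l 529872655) (l 530115855))) (a (a (l 530337295) (l 530213135)) (a (l 530092559) (l 529975311)))) (a (a (b (l 530519311) (l 530695183)) (b (l 530390287) (l 530564623))) (b (a (l 530265871) (l 530144271)) (a (l 530436111) (l 530311439))))))) (b (a (b (a (b (l 529056271) (l 529185551)) (a (l 528981263) (l 528889615))) (b (a (l 529328399) (l 529132303)) (a (l 529480975) (l 529275663)))) (a (b (b (l 528695823) (l 528810255)) (b (l 528936975) (l 529072911))) (b (l 528560399) (b (l 16346592) (l 16331896))))) (a (a (b (b (l 529907983) (a (l 529860623) (l 16459640))) (b (a (l 16439280) (l 16427288)) (a (l 16428696) (l 16416552)))) (b (b (l 529425423) (l 529579023)) (b (l 530002959) (a (l 16393320) (l 16369480))))) (a (b (b (l 529214991) (l 529361679)) (b (l 529510415) (l 529659919))) (b (b (l 529006095) (l 529146383)) (l 6)))))), by decide +kernel⟩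

def k3_B00pm_101_s3 : ∃ t, chk3 f_B00pm_101_s3 t 5 2 1 = true :=
  ⟨(b (a (b (l 1) (a (b (l 1) (b (l 1) (l 527565839))) (l 1))) (l 1)) (b (a (a (b (b (l 527695887) (l 527825167)) (b (l 527952655) (a (l 528187151) (l 527993615)))) (b (a (l 527456527) (l 1)) (a (b (l 16283296) (l 16241992)) (b (l 16226416) (l 6))))) (b (l 1) (a (l 6) (l 1)))) (a (b (a (b (a (l 528368655) (l 528170767)) (a (l 528599311) (l 6))) (l 6)) (l 6)) (l 6)))), by decide +kernel⟩

def k4_B00pm_101_s3 : ∃ t, chk3 f_B00pm_101_s3 t 2 3 1 = true :=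
  ⟨(b (a (b (a (a (b (b (a (a (c (l 531480079) (l 531197967)) (c (l 531347727) (l 531063567))) (b (a (l 531128847) (l 530995471)) (a (l 16533136) (l 16514152)))) (a (a (l 531497231) (a (l 531670287) (l 531605007))) (b (a (l 16534672) (l 16515664)) (a (l 16525896) (l 16506864))))) (b (a (b (l 531625231) (l 531739663)) (a (l 531494159) (a (l 531668239) (l 531604239)))) (a (b (l 16527000) (l 16517968)) (b (l 16479768) (l 16481160))))) (b (b (a (b (a (l 530863375) (l 530732303)) (a (l 16494480) (l 16474120))) (b (a (l 530602511) (l 16440864)) (a (l 16453096) (l 16426160)))) (a (b (a (l 16495960) (l 16475560)) (a (l 16487128) (l 16466680))) (a (b (l 16454480) (l 16445552)) (b (l 16432728) (l 16423736))))) (b (a (b (c (l 16468904) (l 531100175)) (c (l 16460128) (l 531222031))) (a (b (l 16436696) (l 6)) (l 6))) (a (a (l 531458575) (l 6)) (l 6))))) (b (a (b (a (b (a (l 16413424) (l 16406368)) (a (l 16419568) (l 16396632))) (b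 (a (l 16382984) (l 16358984)) (l 6))) (a (b (a (l 16410312) (l 6)) (l 6)) (l 6))) (l 6)) (l 6))) (b (a (a (b (a (b (l 16508576) (l 16498704)) (l 6)) (l 6)) (l 6)) (l 6)) (l 6))) (l 6)) (l 6)), by decide +kernel⟩

def k5_B00pm_101_s3 : ∃ t, chk3 f_B00pm_101_s3 t 3 1 1 = true :=
  ⟨(b (a (b (l 1) (l 6)) (l 1)) (l 6)), by decide +kernel⟩

theorem t6_B00pm_101_s3 : ∃ t, chk3 f_B00pm_101_s3 t 4 5 1 = true := ex3_b k1_B00pm_101_s3 k2_B00pm_101_s3

theorem t7_B00pm_101_s3 : ∃ t, chk3 f_B00pm_101_s3 t 4 2 1 = true := ex3_b k0_B00pm_101_s3 t6_B00pm_101_s3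

theorem t8_B00pm_101_s3 : ∃ t, chk3 f_B00pm_101_s3 t 2 2 1 = true := ex3_a t7_B00pm_101_s3 k3_B00pm_101_s3

theorem t9_B00pm_101_s3 : ∃ t, chk3 f_B00pm_101_s3 t 2 1 1 = true := ex3_b t8_B00pm_101_s3 k4_B00pm_101_s3

theorem t10_B00pm_101_s3 : ∃ t, chk3 f_B00pm_101_s3 t 1 1 1 = true := ex3_a t9_B00pm_101_s3 k5_B00pm_101_s3

theorem c_B00pm_101_s3 : CertF 536870912 536870912 536870912 536870912 1033476505 6710887 false true false .npn 1 0 1
    ndB0q1 ndB0q1 pcB0 cut_B00pm_101_s3 xt_B00pm_101_s3 :=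
  certF0 (fam := false) (s1 := true) (s2 := false) (a := 1) (b := 0) (c := 1) (cn := .npn) (n1 := ndB0q1) (n2 := ndB0q1) (pc := pcB0) (cut := cut_B00pm_101_s3) (xt := xt_B00pm_101_s3) (P1 := 536870912) (W1 := 536870912) (P2 := 536870912) (W2 := 536870912) (P3 := 1033476505) (W3 := 6710887)
    rfl t10_B00pm_101_s3

theorem s_B00pm_101_s3 {κ x : ℝ} (hκ : κ * h0 = ken x) (hx : ((1033476505 : ℕ) : ℝ) / S ≤ x)
    (hx' : x ≤ (((1033476505 : ℕ) : ℝ) + (6710887 : ℕ)) / S)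
    (H : CutB (VFD κ) PP tK tL pcB (Cut.of [[⟨0, 1, 0, 13421772⟩, ⟨1, 0, 0, 13421772⟩, ⟨2, 1, 0, 13421772⟩], [⟨0, 0, 1, 46137344⟩, ⟨1, 1, 2, 46137344⟩, ⟨2, 1, 0, 1048576⟩, ⟨0, 0, 0, 1047972020⟩, ⟨0, 1, 0, 45097156⟩, ⟨1, 0, 0, 45097156⟩, ⟨1, 1, 0, 1047972020⟩]]) 1 0 1 0 0 (sgb true) (sgb false) x) :
    AltB (VFD κ) PP tK tL pcB [⟨4, 0, 0, 2845415833⟩] 1 0 1 0 0 (sgb true) (sgb false) x :=
  strip_altBD (m := 2845415833) false rfl hκ (SH.κ0 hκ (SH.hx1 hx).le (SH.hx2 hx').le) (SH.hx1 hx).le (SH.hx2 hx') (covB01).cov (covB01).cov hx hx' c_B00pm_101_s3 H ((okx hx hx').extB (T := tt) (sideB hx hx') hκ rfl rfl (.O 1 true) (.O 1 false) (Or.inl rfl))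

noncomputable def cut_B00pm_102_s3 : Cut := Cut.of [[⟨3, 0, 0, 2845415833⟩], [⟨0, 1, 0, 11184810⟩, ⟨1, 0, 0, 11184810⟩, ⟨2, 1, 0, 11184810⟩], [⟨0, 0, 1, 46137344⟩, ⟨1, 1, 2, 46137344⟩, ⟨2, 1, 0, 1048576⟩, ⟨0, 0, 0, 1047972020⟩, ⟨0, 1, 0, 45097156⟩, ⟨1, 0, 0, 45097156⟩, ⟨1, 1, 0, 1047972020⟩]]

noncomputable def f_B00pm_102_s3 : ℕ → ℕ → ℕ → ℕ → Bool := onCell 536870912 536870912 0 536870912 1033476505 6710887
    (rowF 0 false true false .npp 1 0 2 (qsf 536870912 536870912 0 536870912 0) ndB0q1 ndB0q2 pcB0 cut_B00pm_102_s3 Ext.none)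

def k0_B00pm_102_s3 : ∃ t, chk3 f_B00pm_102_s3 t 1 1 1 = true :=
  ⟨(l 6), by decide +kernel⟩

theorem c_B00pm_102_s3 : CertF 536870912 536870912 0 536870912 1033476505 6710887 false true false .npp 1 0 2
    ndB0q1 ndB0q2 pcB0 cut_B00pm_102_s3 Ext.none :=
  certF0 (fam := false) (s1 := true) (s2 := false) (a := 1) (b := 0) (c := 2) (cn := .npp) (n1 := ndB0q1) (n2 := ndB0q2) (pc := pcB0) (cut := cut_B00pm_102_s3) (xt := Ext.none) (P1 := 536870912) (W1 := 536870912) (P2 := 0) (W2 := 536870912) (P3 := 1033476505) (W3 := 6710887)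
    rfl k0_B00pm_102_s3

theorem s_B00pm_102_s3 {κ x : ℝ} (hκ : κ * h0 = ken x) (hx : ((1033476505 : ℕ) : ℝ) / S ≤ x)
    (hx' : x ≤ (((1033476505 : ℕ) : ℝ) + (6710887 : ℕ)) / S)
    (H : CutB (VFD κ) PP tK tL pcB (Cut.of [[⟨0, 1, 0, 11184810⟩, ⟨1, 0, 0, 11184810⟩, ⟨2, 1, 0, 11184810⟩], [⟨0, 0, 1, 46137344⟩, ⟨1, 1, 2, 46137344⟩, ⟨2, 1, 0, 1048576⟩, ⟨0, 0, 0, 1047972020⟩, ⟨0, 1, 0, 45097156⟩, ⟨1, 0, 0, 45097156⟩, ⟨1, 1, 0, 1047972020⟩]]) 1 0 2 0 0 (sgb true) (sgb false) x) :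
    AltB (VFD κ) PP tK tL pcB [⟨4, 0, 0, 2845415833⟩] 1 0 2 0 0 (sgb true) (sgb false) x :=
  strip_altBD (m := 2845415833) false rfl hκ (SH.κ0 hκ (SH.hx1 hx).le (SH.hx2 hx').le) (SH.hx1 hx).le (SH.hx2 hx') (covB01).cov (covB02).cov hx hx' c_B00pm_102_s3 H (noExt_B)

noncomputable def cut_B00pm_112_s1 : Cut := Cut.of [[⟨4, 0, 0, 1449551462⟩]]

noncomputable def xt_B00pm_112_s1 : Ext := strExt dd false true false .u0 .u2 .u0m .dn 1 1 2 rfl rfl gf1 vv ndB0q1 ndB0q2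

noncomputable def f_B00pm_112_s1 : ℕ → ℕ → ℕ → ℕ → Bool := onCell 536870912 536870912 0 536870912 1033476505 6710887
    (rowF 0 false true false .dn 1 1 2 (qsf 536870912 536870912 0 536870912 1) ndB0q1 ndB0q2 pcB1 cut_B00pm_112_s1 xt_B00pm_112_s1)

def k0_B00pm_112_s1 : ∃ t, chk3 f_B00pm_112_s1 t 16 16 1 = true :=
  ⟨(a (b (a (l 512611087) (l 511444239)) (a (l 512494095) (a (l 511897615) (l 511320079)))) (a (b (l 510274831) (a (l 510742031) (l 510163471))) (b (l 509103887) (a (l 509584399) (l 509005327))))), by decide +kernel⟩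

def k1_B00pm_112_s1 : ∃ t, chk3 f_B00pm_112_s1 t 32 34 1 = true :=
  ⟨(a (a (l 513164303) (l 512594703)) (a (l 512024079) (l 511453199))), by decide +kernel⟩

def k2_B00pm_112_s1 : ∃ t, chk3 f_B00pm_112_s1 t 64 35 1 = true :=
  ⟨(b (b (a (b (l 15918632) (a (a (b (b (a (l 15907576) (l 15908000)) (a (l 15906808) (c (l 15907776) (l 15902496)))) (l 15906520)) (b (l 15907448) (b (a (c (l 15905408) (l 15900104)) (l 15902648)) (a (l 15902504) (c (l 15903088) (l 15897760)))))) (l 15906360))) (l 15918928)) (a (b (a (l 15906072) (b (a (a (c (l 15901120) (l 15895776)) (b (l 15897344) (l 15895904))) (c (l 15899464) (l 15894080))) (a (l 15898200) (b (a (l 15893696) (c (l 15895016) (l 15889600))) (l 15892960))))) (l 15903640)) (b (a (a (b (l 15898520) (a (b (l 15892816) (c (l 15892608) (l 15887168))) (l 15891920))) (l 15896776)) (l 15899584)) (a (b (a (b (a (l 15889376) (c (l 15890256) (l 15884792))) (l 15888712)) (b (l 15887944)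 (a (c (l 15887952) (l 15882464)) (l 15884808)))) (a (l 15889992) (a (l 15885648) (b (c (l 15885696) (l 15880192)) (l 15883176))))) (a (b (l 15887968) (b (l 15882608) (a (c (l 15883488) (l 15877952)) (b (l 15880408) (l 15878904))))) (l 15886264)))))) (a (l 15912008) (b (a (l 15891360) (b (b (a (l 15875128) (b (a (c (l 15879984) (l 15874408)) (l 15877784)) (a (l 15876384) (c (l 15877584) (b (l 15872320) (l 15871392)))))) (l 15879008)) (l 15881536))) (l 15892408)))), by decide +kernel⟩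

def k3_B00pm_112_s1 : ∃ t, chk3 f_B00pm_112_s1 t 65 35 1 = true :=
  ⟨(b (c (l 511894031) (l 511736335)) (b (a (b (a (b (l 15878384) (a (b (a (b (l 15872608) (l 15871944)) (l 15872480)) (a (l 15872160) (c (l 15872968) (b (l 15867360) (l 15866920))))) (l 15872080))) (l 15878824)) (a (b (a (l 15872016) (b (a (c (l 15870728) (b (l 15865000) (l 15864760))) (l 15867216)) (a (l 15868128) (c (l 15868536) (l 15862848))))) (l 15870872)) (b (a (a (b (l 15868184) (c (l 15867544) (l 15861840))) (l 15867368)) (l 15868920)) (a (b (a (c (l 15866384) (l 15860672)) (b (l 15862792) (c (l 15864400) (l 15858664)))) (l 15862824)) (a (b (l 15862912) (c (l 15862720) (b (l 15857312) (l 15856352)))) (l 15862112)))))) (l 15878096)) (a (b (b (a (l 15872608) (a (l 15863976) (b (a (l 15859296) (c (l 15860400) (b (l 15854800) (l 15854112)))) (l 15858656)))) (l 15868592)) (l 15871192)) (b (a (b (a (b (l 15858168) (a (c (l 15858136) (b (l 15852376)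 (l 15851920))) (l 15854968))) (l 15858456)) (a (b (a (l 15855224) (c (l 15855920) (b (l 15850040) (l 15849784)))) (l 15854664)) (b (c (l 15855792) (l 15849952)) (a (b (c (l 15853616) (l 15847768)) (l 15850616)) (b (l 15850664) (a (l 15849008) (l 15849072))))))) (l 15858088)) (a (a (l 15856864) (a (l 15852568) (c (l 15852880) (l 15847016)))) (b (a (b (a (b (l 15848008) (c (l 15849664) (l 15843768))) (l 15848200)) (a (l 15846576) (b (l 15845416) (a (l 15844616) (l 15843984))))) (l 15848008)) (a (l 15846360) (b (a (c (b (l 15845896) (l 15845192)) (b (l 15839960) (l 15839256))) (l 15842944)) (a (l 15842440) (c (b (l 15843512) (l 15843048)) (b (l 15837560) (l 15837088)))))))))))), by decide +kernel⟩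

def k4_B00pm_112_s1 : ∃ t, chk3 f_B00pm_112_s1 t 33 17 1 = true :=
  ⟨(b (a (a (l 510881551) (l 510309391)) (a (l 509736975) (l 509164047))) (a (a (b (l 510965519) (a (b (l 15885400) (c (l 15858112) (l 15852224))) (l 510869263))) (b (l 510398223) (l 510445839))) (a (b (l 509830671) (l 509881615)) (b (l 509262607) (l 509316879))))), by decide +kernel⟩

def k5_B00pm_112_s1 : ∃ t, chk3 f_B00pm_112_s1 t 32 18 1 = true :=
  ⟨(b (a (l 15836568) (b (a (l 15879800) (l 15857064)) (l 15882248))) (a (l 15946536) (l 15902616))), by decide +kernel⟩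

def k6_B00pm_112_s1 : ∃ t, chk3 f_B00pm_112_s1 t 66 144 1 = true :=
  ⟨(a (b (a (b (a (b (a (a (l 15838520) (b (l 15837872) (l 15837264))) (c (l 15840712) (l 15834728))) (a (l 15838496) (b (c (l 15838992) (l 15832984)) (l 15835896)))) (a (a (b (l 15838576) (c (l 15838048) (l 15832032))) (l 15837264)) (l 15838152))) (a (l 15838408) (b (a (c (l 15837008) (l 15830984)) (a (b (l 15833104) (l 15832096)) (l 15832736))) (c (l 15836336) (l 15830296))))) (a (b (l 15839960) (a (b (l 15833648) (b (l 15830816) (a (l 15829960) (l 15829368)))) (l 15832944))) (l 15838608))) (a (l 15838240) (b (a (b (a (l 15829848) (c (b (l 15831376) (l 15830656)) (b (l 15825296) (l 15824560)))) (l 15829240)) (b (l 15829048) (a (a (c (l 15829088) (l 15822984)) (b (l 15825848) (l 15824824))) (l 15825784)))) (a (l 15830592) (a (l 15826320) (b (a (l 15823944) (b (l 15823328) (l 15822704))) (l 15823928))))))) (a (b (l 15842448) (b (l 15830880) (a (b (c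 (l 15826872) (a (l 15820152) (l 15821384))) (a (b (c (l 15824528) (a (l 15818584) (l 15817864))) (l 15821352)) (b (l 15821568) (a (c (l 15822888) (l 15816712)) (l 15819952))))) (l 15824440)))) (l 15840072))), by decide +kernel⟩

def k7_B00pm_112_s1 : ∃ t, chk3 f_B00pm_112_s1 t 66 145 1 = true :=
  ⟨(a (l 15837912) (b (a (b (a (a (l 15822448) (a (l 15820312) (b (c (l 15821896) (l 15815712)) (l 15819352)))) (b (a (b (l 15818944) (a (c (l 15820688) (l 15814496)) (l 15817360))) (l 15819272)) (a (c (l 15820512) (l 15814312)) (a (b (l 15816120) (l 15815480)) (c (l 15818880) (l 15812664)))))) (l 15820072)) (b (l 15820592) (a (b (a (b (c (l 15817040) (l 15810800)) (a (l 15813432) (c (l 15815728) (l 15809480)))) (l 15814080)) (a (l 15813368) (b (a (c (l 15814624) (l 15808360)) (l 15811464)) (c (l 15814184) (l 15807920))))) (l 15814048)))) (a (l 15822728) (b (a (l 15813320) (b (a (b (a (l 15809344) (l 15808952)) (l 15808992))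 (c (l 15812056) (l 15805752))) (a (l 15809536) (b (a (l 15807280) (c (l 15809744) (l 15803432))) (l 15806976))))) (l 15812320))))), by decide +kernel⟩

def k8_B00pm_112_s1 : ∃ t, chk3 f_B00pm_112_s1 t 67 72 1 = true :=
  ⟨(a (b (l 509914639) (b (l 15824968) (a (b (a (a (b (l 15810232) (b (l 15807288) (a (c (l 15808616) (l 15802288)) (l 15805656)))) (l 15809624)) (l 15811688)) (a (b (a (b (c (l 15808112) (l 15801784)) (l 15805024)) (b (l 15804672) (a (c (l 15806440) (l 15800088)) (l 15803072)))) (c (l 15807656) (l 15801312))) (b (l 15805760) (a (a (b (l 15801840) (l 15801176)) (c (l 15804704) (l 15798328))) (l 15802496))))) (l 15811976)))) (l 509362703)), by decide +kernel⟩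

def k9_B00pm_112_s1 : ∃ t, chk3 f_B00pm_112_s1 t 66 73 1 = true :=
  ⟨(a (l 15848584) (l 15826136)), by decide +kernel⟩

def k10_B00pm_112_s1 : ∃ t, chk3 f_B00pm_112_s1 t 67 146 1 = true :=
  ⟨(a (b (a (b (a (l 15805688) (b (a (l 15801080) (b (a (c (l 15802672) (l 15796280)) (l 15799864)) (a (l 15799152) (c (l 15801544) (l 15795144))))) (l 15800504))) (l 15804712)) (b (a (b (l 15800608) (a (b (a (c (l 15800448) (l 15794032)) (l 15797264)) (c (l 15800016) (l 15793592))) (l 15797296))) (l 15801456)) (a (b (a (l 15797200) (b (c (l 15798288) (a (l 15791896) (l 15791536))) (l 15794768))) (l 15796720)) (b (a (c (l 15797984) (l 15791536)) (l 15796184)) (a (b (a (l 15793072) (c (l 15795640) (l 15789176))) (l 15792776)) (b (l 15793184) (a (c (l 15794520) (l 15788040)) (l 15791536)))))))) (a (l 15807472) (a (l 15799040) (b (b (a (l 15793424) (b (a (l 15791088) (c (l 15793424) (l 15786936))) (l 15790848))) (l 15792952)) (l 15794352)))))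 (b (l 15804864) (a (b (a (b (a (b (l 15790584) (a (c (l 15792360) (l 15785864)) (l 15788960))) (l 15791056)) (a (c (l 15792192) (l 15785688)) (b (c (l 15791296) (l 15784784)) (a (l 15787040) (c (l 15789808) (l 15783280)))))) (l 15791248)) (a (l 15788832) (b (a (b (a (c (l 15788656) (l 15782120)) (l 15785832)) (a (l 15785040) (c (l 15787536) (l 15780992)))) (l 15785928)) (a (l 15785000) (b (a (c (l 15786456) (l 15779888)) (l 15783248)) (c (l 15786016) (l 15779448))))))) (c (l 15794904) (l 15788376))))), by decide +kernel⟩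

def k11_B00pm_112_s1 : ∃ t, chk3 f_B00pm_112_s1 t 67 147 1 = true :=
  ⟨(a (l 15807400) (b (a (l 15788744) (b (a (b (a (a (c (l 15784544) (l 15777960)) (b (c (l 15784048) (l 15777456)) (l 15780048))) (c (l 15784104) (b (l 15778520) (l 15776544)))) (a (l 15781264) (b (a (l 15779040) (c (l 15781720) (l 15775104))) (l 15778752)))) (a (b (l 15782320) (b (l 15779264) (a (c (l 15780608) (l 15773984)) (l 15777600)))) (l 15781808))) (a (l 15781280) (b (a (b (a (l 15777080) (c (l 15779528) (l 15772888))) (l 15776848)) (b (l 15776688) (a (c (l 15778472) (l 15771816)) (l 15775040)))) (c (l 15779680) (l 15773040)))))) (l 15786912))), by decide +kernel⟩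

def k12_B00pm_112_s1 : ∃ t, chk3 f_B00pm_112_s1 t 33 37 1 = true :=
  ⟨(a (l 15774784) (b (a (l 15818424) (l 15796280)) (l 15822136))), by decide +kernel⟩

def k13_B00pm_112_s1 : ∃ t, chk3 f_B00pm_112_s1 t 16 19 1 = true :=
  ⟨(a (b (l 15950784) (l 15975584)) (b (b (l 15774480) (l 15788656)) (l 15892832))), by decide +kernel⟩

def k14_B00pm_112_s1 : ∃ t, chk3 f_B00pm_112_s1 t 17 8 1 = true :=
  ⟨(a (b (a (b (l 507932175) (l 508135951)) (b (l 506760719) (l 506977551))) (a (b (a (l 508591375) (l 508018447)) (a (l 508722703) (l 508156431))) (b (a (l 507445775) (l 506873359)) (a (l 507589903) (l 507023887))))) (b (a (b (l 505590543) (l 505820175)) (b (l 504422159) (l 504664847))) (a (b (l 506014735) (a (l 506458127) (l 505892879))) (b (l 504872463) (l 505045775))))), by decide +kernel⟩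

def k15_B00pm_112_s1 : ∃ t, chk3 f_B00pm_112_s1 t 34 36 1 = true :=
  ⟨(a (b (a (l 508801039) (l 508239631)) (a (b (l 508833039) (b (a (a (b (l 15784144) (b (l 15778000) (a (b (c (l 15777480) (l 15770816)) (a (l 15773096) (c (l 15775968) (l 15769296)))) (l 15774672)))) (l 15783208)) (l 15788112)) (a (b (a (b (a (l 15773024) (b (a (c (l 15774832) (l 15768144)) (l 15771984)) (a (l 15771120) (c (l 15773720) (l 15767024))))) (l 15772480)) (b (l 15772912) (a (b (a (c (l 15772640) (l 15765928)) (l 15769416)) (c (l 15772208) (l 15765496))) (l 15769544)))) (a (l 15773904) (b (a (l 15769240) (a (c (l 15770752) (l 15764024)) (b (c (l 15770296) (l 15763560)) (l 15766192)))) (l 15768800)))) (b (l 15775672) (a (b (a (c (l 15770408) (l 15763664)) (l 15768640)) (a (b (a (l 15765200) (c (l 15767984) (l 15761224))) (l 15764920)) (b (l 15765536) (a (c (l 15766880) (l 15760104)) (l 15763864))))) (l 15769008)))))) (l 508283663))) (a (b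 (l 507677967) (l 507725327)) (b (l 507116815) (l 507167247)))), by decide +kernel⟩

def k16_B00pm_112_s1 : ∃ t, chk3 f_B00pm_112_s1 t 68 74 1 = true :=
  ⟨(b (a (b (a (l 15773976) (b (a (b (a (l 15765576) (b (a (l 15763264) (c (l 15765808) (l 15759024))) (l 15763032))) (l 15765152)) (a (b (b (l 15762976) (a (c (l 15764760) (l 15757968)) (l 15761312))) (c (l 15764600) (l 15757800))) (b (l 15763584) (b (c (l 15763856) (l 15757048)) (a (l 15748848) (c (l 15762328) (l 15755504))))))) (c (l 15767288) (l 15760504)))) (l 15772248)) (b (a (b (l 15765640) (a (b (a (b (a (c (l 15761192) (l 15754352)) (l 15758328)) (a (l 15757384) (c (l 15760088) (l 15753240)))) (l 15758520)) (a (l 15757360) (b (a (c (l 15759024) (l 15752160)) (l 15755776)) (c (l 15758592) (l 15751728))))) (l 15758880))) (l 15768312)) (a (b (a (l 15757408) (a (a (c (l 15757608) (l 15750728)) (b (b (l 15753304) (l 15747288)) (l 15753040))) (b (c (l 15756904) (l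 15750016)) (b (a (l 15751552) (c (l 15754448) (l 15747536))) (l 15751272))))) (l 15756584)) (b (a (b (l 15756016) (a (b (l 15752000) (a (c (l 15753352) (l 15746432)) (l 15750312))) (l 15752648))) (l 15757368)) (a (b (a (b (a (l 15749632) (c (l 15752288) (l 15745352))) (l 15749416)) (b (l 15749464) (a (c (l 15751248) (l 15744304)) (l 15747784)))) (c (l 15752448) (l 15745512))) (b (l 15751008) (a (a (b (l 15746568) (l 15745768)) (c (l 15749840) (l 15742880))) (l 15747632)))))))) (a (l 15777976) (b (a (l 15759496) (b (b (a (l 15749736) (a (l 15745712) (b (a (c (l 15747752) (l 15740768)) (l 15744872)) (a (l 15743840) (c (l 15746656) (l 15739664)))))) (l 15747968)) (l 15749424))) (l 15757864)))), by decide +kernel⟩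

def k17_B00pm_112_s1 : ∃ t, chk3 f_B00pm_112_s1 t 69 74 1 = true :=
  ⟨(b (a (l 507756047) (l 507200527)) (a (b (a (b (b (l 15747768) (a (a (b (a (c (l 15745600) (l 15738592)) (l 15742344)) (c (l 15745168) (l 15738152))) (l 15742568)) (l 15745280))) (a (b (a (l 15742032) (a (c (l 15743744) (l 15736720)) (b (l 15739880) (l 15739064)))) (l 15741640)) (b (c (l 15744456) (l 15737424)) (a (b (a (l 15738096) (c (l 15741104) (l 15734048))) (l 15737824)) (b (l 15738672) (a (c (l 15740016) (l 15732952)) (l 15736968))))))) (l 15748592)) (a (b (a (l 15743120) (b (a (l 15738496) (b (a (l 15736200) (c (l 15738960) (l 15731880))) (l 15735984))) (l 15738104))) (l 15742344)) (b (a (b (a (b (l 15736152) (a (c (l 15737928) (l 15730840)) (l 15734448))) (l 15736896)) (a (c (l 15737776) (l 15730688)) (b (l 15733656) (a (l 15732400) (c (l 15735632) (l 15728512)))))) (l 15737488)) (a (l 15734216) (b (a (b (c (l 15734840) (l 15727712)) (a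 (l 15730496) (c (l 15733424) (l 15726288)))) (l 15731920)) (a (l 15730496) (b (a (c (l 15732368) (l 15725224)) (l 15729112)) (c (l 15731936) (l 15724784))))))))) (a (c (l 15750896) (l 15743848)) (l 15755296)))), by decide +kernel⟩

def k18_B00pm_112_s1 : ∃ t, chk3 f_B00pm_112_s1 t 34 75 1 = true :=
  ⟨(a (l 15736544) (a (l 15745752) (b (b (a (b (a (a (a (c (l 15731000) (l 15723832)) (b (b (l 15726656) (l 15725792)) (l 15726296))) (b (c (l 15730512) (l 15723328)) (b (a (l 15724840) (c (l 15727968) (l 15720768))) (l 15724576)))) (b (l 15729760) (a (b (l 15725544) (a (c (l 15726888) (l 15719672)) (l 15723832))) (l 15726344)))) (a (l 15727120) (b (a (b (a (l 15722976) (c (l 15725832) (l 15718616))) (l 15722760)) (b (l 15723056) (a (c (l 15724816) (l 15717584)) (l 15721328)))) (c (l 15726008) (l 15718784))))) (a (b (l 15731400) (b (l 15724824) (a (b (l 15720568) (a (l 15719240) (l 15718968))) (l 15721400)))) (l 15730912)))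 (a (l 15727400) (b (a (b (a (l 15719200) (b (c (l 15721832) (l 15714560)) (a (l 15717352) (c (l 15720400) (l 15713112))))) (l 15718728)) (b (l 15719896) (a (b (a (c (l 15719352) (l 15712056)) (l 15716096)) (c (l 15718912) (l 15711616))) (l 15716416)))) (a (l 15720216) (b (a (l 15715616) (b (a (c (l 15717352) (l 15710040)) (l 15713648)) (l 15713376))) (l 15715272)))))) (l 15728000)))), by decide +kernel⟩

def k19_B00pm_112_s1 : ∃ t, chk3 f_B00pm_112_s1 t 35 18 1 = true :=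
  ⟨(a (b (a (l 506582031) (l 506023183)) (b (a (l 506655503) (l 506101519)) (b (a (b (l 15741000) (a (b (l 15723600) (b (c (l 15720536) (l 15713224)) (a (a (b (a (l 15711784) (c (l 15715040) (l 15707696))) (l 15711536)) (a (c (l 15714872) (l 15707528)) (l 15712016))) (l 15714504)))) (l 15727304))) (l 15749184)) (a (b (a (b (a (a (l 15712712) (b (b (c (l 15713440) (l 15706080)) (l 15709736)) (l 15710504))) (b (a (b (l 15710168) (a (c (l 15711912) (l 15704536)) (l 15708424))) (l 15711048)) (a (c (l 15711760) (l 15704384)) (b (l 15707688) (a (l 15706280) (l 15706064)))))) (l 15710808)) (b (l 15713880) (a (a (b (a (b (l 15704952) (l 15704416)) (c (l 15708504) (l 15701088))) (l 15704448)) (b (l 15706152) (b (c (l 15706816) (l 15699384)) (c (l 15706104) (l 15698664))))) (l 15706920)))) (a (l 15713752) (b (a (l 15704592) (b (a (b (a (l 15700840) (l 15700856)) (l 15700520)) (l 15701232)) (a (l 15701040) (b (a (l 15698944) (l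 15698584)) (l 15698704))))) (l 15703952)))) (b (l 15722024) (a (b (a (a (b (l 15703320) (c (l 15702624) (l 15695136))) (l 15703144)) (l 15706296)) (b (a (a (b (a (l 15697136) (l 15696472)) (l 15696928)) (b (l 15697496) (a (l 15695464) (l 15695736)))) (l 15699504)) (a (c (l 15700384) (l 15692880)) (a (b (l 15695032) (a (l 15693536) (l 15693384))) (l 15696024))))) (l 15708192))))))) (b (a (l 505465103) (l 504907535)) (a (l 505569551) (l 505018383)))), by decide +kernel⟩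

def k20_B00pm_112_s1 : ∃ t, chk3 f_B00pm_112_s1 t 34 38 1 = true :=
  ⟨(a (l 15717504) (b (l 15666960) (l 15766648))), by decide +kernel⟩

def k21_B00pm_112_s1 : ∃ t, chk3 f_B00pm_112_s1 t 70 76 1 = true :=
  ⟨(b (a (l 15714504) (b (a (b (b (a (l 15697392) (a (l 15693512) (b (a (l 15692280) (l 15693144)) (a (l 15691704) (l 15691208))))) (l 15695784)) (l 15697296)) (a (b (b (l 15694656) (a (b (a (l 15690168) (l 15690712)) (a (l 15689928) (l 15689168))) (l 15691136))) (b (a (l 15690032) (b (a (l 15688192) (l 15688280)) (l 15687872))) (l 15689736))) (b (l 15696672) (b (l 15689768) (a (b (a (l 15686328) (l 15686024)) (l 15686088)) (c (l 15690192) (l 15682560))))))) (a (l 15700432) (b (a (l 15691312) (a (l 15687280) (b (c (l 15688392) (l 15680752)) (l 15685120)))) (l 15690728))))) (l 15712040)), by decide +kernel⟩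

def k22_B00pm_112_s1 : ∃ t, chk3 f_B00pm_112_s1 t 71 76 1 = true :=
  ⟨(b (a (b (l 15703152) (a (b (a (b (a (b (l 15685048) (a (l 15682920) (l 15683272))) (l 15686080)) (a (b (l 15682544) (l 15682696)) (b (l 15682608) (a (l 15681016) (l 15680928))))) (l 15687080)) (a (l 15682848) (a (b (b (l 15680272) (a (l 15679200) (l 15678760))) (l 15679256)) (b (l 15681264) (b (a (l 15677728) (l 15678360)) (a (l 15677456) (l 15676736))))))) (l 15689136))) (l 15712552)) (b (b (a (a (l 15682120) (a (a (b (b (a (l 15675776) (l 15675936)) (l 15675448)) (l 15675960)) (b (l 15676424) (b (a (l 15673928) (l 15673688)) (l 15673688)))) (c (l 15681296) (l 15673552)))) (l 15689096)) (a (a (l 15684248) (a (l 15676224) (c (b (a (l 15676112) (l 15675768)) (l 15675632)) (b (a (l 15668336) (l 15667984)) (l 15667840))))) (a (a (b (l 15675080) (a (b (l 15670408) (a (l 15668712) (l 15668704))) (l 15671552))) (l 15677368)) (l 15684448)))) (a (l 15682104)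 (a (b (a (b (a (l 15668696) (b (l 15668088) (a (l 15666928) (l 15666544)))) (l 15668312)) (b (l 15670328) (a (b (l 15665896) (l 15665048)) (l 15666776)))) (a (l 15669856) (b (a (l 15665320) (b (a (l 15663576) (l 15663824)) (l 15663248))) (l 15665072)))) (b (l 15675016) (a (a (b (l 15664368) (c (l 15665848) (l 15657952))) (l 15664344)) (l 15667936))))))), by decide +kernel⟩

def k23_B00pm_112_s1 : ∃ t, chk3 f_B00pm_112_s1 t 35 77 1 = true :=
  ⟨(a (l 15724344) (b (a (l 15688456) (b (a (l 15670416) (b (b (a (c (l 15665288) (l 15657384)) (c (l 15664840) (l 15656920))) (a (l 15661920) (a (l 15658328) (c (l 15661680) (l 15653736))))) (l 15661072))) (l 15669408))) (l 15686304))), by decide +kernel⟩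

def k24_B00pm_112_s1 : ∃ t, chk3 f_B00pm_112_s1 t 17 39 1 = true :=
  ⟨(a (a (l 15830752) (l 15789400)) (a (l 15748088) (l 15622952))), by decide +kernel⟩

def k25_B00pm_112_s1 : ∃ t, chk3 f_B00pm_112_s1 t 9 8 1 = true :=
  ⟨(a (a (b (a (b (l 503256847) (l 503512591)) (l 502227215)) (a (b (l 503733007) (l 503919375)) (b (l 502597647) (l 502796815)))) (b (a (l 501077519) (l 499933711)) (a (b (l 501467151) (l 501679631)) (l 500452879)))) (a (b (a (l 498797327) (l 497669391)) (a (l 499342095) (l 498239759))) (b (l 3) (a (l 497147151) (l 496065295))))), by decide +kernel⟩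

def k26_B00pm_112_s1 : ∃ t, chk3 f_B00pm_112_s1 t 18 18 1 = true :=
  ⟨(a (a (b (l 504072463) (a (l 504468239) (l 503919119))) (b (l 502963215) (l 503097103))) (a (b (l 501858831) (l 502006287)) (b (l 500760847) (l 500921615)))), by decide +kernel⟩

def k27_B00pm_112_s1 : ∃ t, chk3 f_B00pm_112_s1 t 18 38 1 = true :=
  ⟨(a (b (a (l 504264719) (l 503178767)) (a (b (a (b (a (b (l 15665640) (a (a (b (b (l 15656112) (l 15654864)) (l 15654904)) (b (l 15657280) (b (l 15653912) (l 15653008)))) (l 15658504))) (l 15670704)) (a (b (a (l 15655112) (a (b (b (l 15651832) (l 15651224)) (l 15651688)) (b (l 15652504) (b (l 15649856) (l 15649504))))) (l 15654640)) (b (l 15656184) (b (a (a (b (l 15647968) (l 15647824)) (l 15647984)) (l 15651512)) (a (l 15647640) (a (b (l 15646624) (l 15644912)) (l 15647920))))))) (l 15676360)) (a (b (a (l 15657880) (b (b (a (l 15648360) (a (l 15644664) (b (l 15644296) (l 15642976)))) (l 15646920)) (l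 15648448))) (l 15656936)) (b (a (b (a (b (l 15646816) (a (b (l 15642104) (l 15641136)) (l 15643208))) (l 15649432)) (a (b (a (l 15641336) (b (l 15640024) (l 15639368))) (l 15641112)) (b (l 15642064) (a (b (l 15638056) (l 15637656)) (l 15638496))))) (l 15652264)) (a (a (l 15643840) (c (l 15643168) (l 15635000))) (b (a (b (l 15637440) (a (l 15634576) (l 15634168))) (l 15640112)) (a (l 15634712) (a (b (b (l 15632664) (l 15631264)) (l 15631232)) (b (l 15634016) (b (l 15630472) (l 15629432)))))))))) (b (l 503211023) (l 503225359)))) (a (l 502389263) (l 501049871))), by decide +kernel⟩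

def k28_B00pm_112_s1 : ∃ t, chk3 f_B00pm_112_s1 t 36 39 1 = true :=
  ⟨(b (a (b (l 15600280) (l 15661472)) (b (a (b (a (b (a (a (a (l 15628608) (b (l 15627936) (l 15627424))) (b (l 15629288) (l 15626448))) (l 15630704)) (b (a (l 15627872) (a (l 15624680) (l 15624776))) (l 15626760))) (b (l 15638832) (c (l 15632896) (l 15635064)))) (a (l 15629120) (b (a (b (a (l 15621288) (l 15620624)) (l 15620936)) (b (l 15624008) (a (l 15618672) (l 15620336)))) (a (l 15622440) (b (a (l 15618040) (l 15616792)) (l 15617816)))))) (b (l 15650416) (a (b (l 15629680) (b (l 15622080) (a (a (l 15614976) (l 15615656)) (l 15619800)))) (l 15635800)))) (a (l 15630512) (b (a (b (a (l 15614896) (a (b (l 15613448) (l 15611520)) (l 15613648))) (l 15614216)) (b (l 15620528) (a (c (b (l 15614632) (l 15612448)) (b (l 15606128) (l 15614416))) (l 15613136)))) (a (l 15617264) (a (l 15609616) (b (b (a (l 15605496) (l 15606832)) (l 15604760)) (l 15605536))))))))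 (a (l 15674056) (l 15633296))), by decide +kernel⟩

def k29_B00pm_112_s1 : ∃ t, chk3 f_B00pm_112_s1 t 37 39 1 = true :=
  ⟨(b (a (b (l 15644080) (a (b (l 15632624) (a (b (l 15611320) (a (a (l 15602368) (b (l 15602312) (l 15600264))) (l 15603912))) (l 15617824))) (l 15646280))) (l 501105167)) (a (b (a (b (a (b (a (l 15602640) (b (a (l 15598624) (l 15598184)) (l 15598288))) (l 15602320)) (b (a (c (l 15603896) (l 15595256)) (l 15605184)) (a (c (l 15600040) (l 15591368)) (b (l 15597368) (a (l 15592592) (l 15593584)))))) (b (l 15526600) (l 15601688))) (b (l 15614872) (a (b (a (b (l 15592768) (a (l 15589192) (l 15589272))) (l 15596120)) (a (l 15589344) (a (a (l 15586864) (l 15586632)) (l 15587496)))) (l 15599896)))) (a (l 15607240) (b (a (l 15589944) (b (a (b (l 15584416) (l 15582696)) (l 15586984)) (a (l 15583376) (a (l 15580368) (a (l 15579448) (l 15579592)))))) (l 15589288)))) (b (l 15642056) (a (b (l 15597104) (a (a (b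 (c (l 15497768) (l 15488888)) (l 15577832)) (b (l 15578192) (l 15573976))) (b (l 15587392) (a (b (l 15576208) (l 15571856)) (l 15579792))))) (l 15612096))))), by decide +kernel⟩

def k30_B00pm_112_s1 : ∃ t, chk3 f_B00pm_112_s1 t 19 9 1 = true :=
  ⟨(b (a (a (l 499754255) (l 498679055)) (a (l 497613327) (l 496558351))) (a (b (a (l 499986191) (l 498931471)) (a (l 500057359) (l 499012623))) (b (a (l 497886479) (l 496852495)) (l 498803215)))), by decide +kernel⟩

def k31_B00pm_112_s1 : ∃ t, chk3 f_B00pm_112_s1 t 8 5 1 = true :=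
  ⟨(b (a (b (a (l 16009120) (l 15846464)) (l 6)) (b (a (b (l 15838256) (l 15864976)) (b (l 15674440) (l 15787768))) (a (l 15903088) (l 15830104)))) (l 6)), by decide +kernel⟩

def k32_B00pm_112_s1 : ∃ t, chk3 f_B00pm_112_s1 t 18 10 1 = true :=
  ⟨(b (b (a (a (l 15698528) (l 15658792)) (b (a (l 15610440) (b (a (b (a (l 15578736) (b (a (l 15570840) (b (l 15571656) (l 15568184))) (l 15570264))) (l 15578280)) (b (a (b (l 15578536) (a (c (l 15487088) (l 15478064)) (l 15570888))) (l 15586064)) (a (b (a (l 15564832) (c (l 15483544) (l 15474480))) (l 15564480)) (b (l 15569672) (a (b (l 15559592) (l 15558296)) (l 15561912)))))) (a (l 15585072) (a (l 15570216) (b (c (l 15480080) (l 15470968)) (l 15562632)))))) (l 15524424))) (a (l 15626992) (l 15550528))) (a (l 15673568) (b (l 15668512) (l 15702152)))), by decide +kernel⟩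

def k33_B00pm_112_s1 : ∃ t, chk3 f_B00pm_112_s1 t 19 10 1 = true :=
  ⟨(b (b (a (b (a (b (l 15608840) (a (b (a (a (b (l 15557656) (l 15553064)) (l 15485328)) (l 15568720)) (a (l 15553528) (b (a (l 15465880) (l 15555440)) (a (l 15547080) (l 15462216))))) (l 15578216))) (l 15644416)) (a (b (a (l 15555088) (b (a (b (a (l 15458720) (l 15546696)) (a (l 15541432) (l 15539272))) (l 15551280)) (a (l 15542520) (a (l 15453000) (b (l 15538040) (l 15533016)))))) (l 15554392)) (b (a (b (l 15572792) (l 15486936)) (l 15590888)) (a (b (a (b (a (l 15530072) (l 15530248)) (l 15529592)) (b (l 15540072) (l 15445552))) (a (l 15532584) (b (l 15446088) (l 15524192)))) (b (l 15556296) (a (b (l 15531592) (a (l 15519968) (l 15523584))) (l 15540584))))))) (a (l 497983503) (l 496964111))) (a (a (l 15577416) (b (b (a (l 15534912) (b (a (l 15435976) (b (l 15523024) (l 15436768))) (l 15519104))) (l 15534912)) (l 15549144))) (b (a (b (a (b (l 15539920)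 (a (b (l 15515008) (l 15425240)) (l 15524064))) (l 15559360)) (a (b (a (l 15509248) (a (l 15421040) (l 15422144))) (l 15509016)) (b (l 15523784) (a (b (l 15416872) (l 15497784)) (l 15507456))))) (l 15584528)) (a (b (a (l 15516344) (b (a (l 15499872) (b (l 15410552) (l 15492616))) (l 15500168))) (l 15516824)) (a (b (b (l 15423616) (a (l 15405400) (l 15408472))) (l 15407088)) (b (l 15528432) (b (a (c (l 15406656) (l 15396584)) (l 15500056)) (a (l 15479248) (a (a (l 15475552) (l 15392264)) (l 15479920)))))))))) (a (b (l 15595496) (l 15632056)) (b (a (l 15541184) (b (l 15412064) (l 15515360))) (l 15562744)))), by decide +kernel⟩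

def k34_B00pm_112_s1 : ∃ t, chk3 f_B00pm_112_s1 t 9 11 1 = true :=
  ⟨(b (a (a (l 15819040) (l 15752808)) (a (l 15687248) (l 15622504))) (a (l 6) (a (l 15764304) (l 15705920)))), by decide +kernel⟩

def k35_B00pm_112_s1 : ∃ t, chk3 f_B00pm_112_s1 t 10 4 1 = true :=
  ⟨(a (b (a (b (l 3) (l 494462991)) (l 3)) (b (a (a (l 495515919) (l 494487055)) (a (c (l 493649679) (l 493296399)) (c (b (l 492525583) (l 492796943)) (l 492293135)))) (b (a (a (l 495831055) (l 494823183)) (a (a (l 494077967) (l 493585423)) (a (b (l 493047055) (l 493145871)) (l 1)))) (a (a (l 495938063) (l 494936079)) (a (b (l 493931535) (l 493958415)) (l 1)))))) (b (l 1) (l 1))), by decide +kernel⟩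

def k36_B00pm_112_s1 : ∃ t, chk3 f_B00pm_112_s1 t 40 20 1 = true :=
  ⟨(a (b (l 495954447) (l 495918863)) (a (b (l 495204623) (l 495172879)) (b (l 494707471) (b (l 494690319) (l 494666767))))), by decide +kernel⟩

def k37_B00pm_112_s1 : ∃ t, chk3 f_B00pm_112_s1 t 80 42 1 = true :=
  ⟨(b (a (b (b (a (a (a (l 15470344) (l 15386416)) (a (l 15387504) (l 15473920))) (l 15484560)) (a (l 15470128) (c (a (b (l 15470464) (l 15469728)) (b (l 15475160) (l 15467800))) (l 15378432)))) (l 15473312)) (b (c (a (l 15494136) (l 15512104)) (l 15492720)) (b (c (b (a (a (l 15465288) (l 15467776)) (l 15480712)) (a (a (l 15466000) (l 15462904)) (a (a (l 15462688) (l 15465856)) (l 15472536)))) (a (l 15373144) (l 15463992))) (a (l 15462528) (c (a (l 15461880) (b (a (a (l 15459152) (l 15459744)) (l 15462112)) (l 15458480))) (l 15368192)))))) (l 15480040)), by decide +kernel⟩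

def k38_B00pm_112_s1 : ∃ t, chk3 f_B00pm_112_s1 t 81 42 1 = true :=
  ⟨(b (a (a (b (l 15525088) (c (a (b (l 15487720) (b (l 15468776) (b (l 15459448) (a (l 15455720) (l 15455968))))) (l 15484040)) (l 15406168))) (l 495005199)) (c (c (l 494888463) (l 15548392)) (l 15541024))) (a (b (b (b (a (a (l 15451176) (a (b (a (l 15448656) (l 15449376)) (l 15448392)) (b (l 15452504) (b (l 15448144) (l 15447088))))) (l 15460576)) (a (l 15451424) (c (b (a (a (a (l 15451560) (l 15451664)) (l 15453944)) (l 15460768)) (a (a (l 15451864) (b (l 15450608) (l 15450192))) (a (l 15452184) (l 15456648)))) (l 15366616)))) (c (a (l 15460664) (a (l 15454112) (b (b (c (b (a (l 15452008) (l 15454496)) (a (l 15451840) (a (l 15451072) (l 15452408)))) (l 15447856)) (a (l 15450176) (b (l 15448224) (l 15448328)))) (l 15451096)))) (l 15363424))) (l 15459080)) (a (a (b (b (l 15467864) (a (c (b (a (b (l 15453656) (b (l 15448840) (l 15447216))) (l 15452648))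 (l 15448120)) (l 15356192)) (c (b (l 15456152) (b (c (b (l 15450824) (a (l 15448768) (l 15449032))) (l 15444920)) (l 15446480))) (l 15357368)))) (l 15448216)) (c (b (a (b (l 15479944) (b (l 15460728) (b (l 15451104) (a (b (a (l 15445312) (l 15445776)) (l 15445120)) (b (l 15447432) (b (l 15445160) (l 15444528))))))) (l 15471704)) (a (l 15450280) (a (a (b (b (b (b (l 15444144) (l 15444504)) (l 15445520)) (l 1)) (l 1)) (l 1)) (l 1)))) (b (l 15374744) (l 15439512)))) (b (c (l 144449221031) (l 15472968)) (l 1))))), by decide +kernel⟩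

def k39_B00pm_112_s1 : ∃ t, chk3 f_B00pm_112_s1 t 40 43 1 = true :=
  ⟨(a (l 15511336) (l 339870137255)), by decide +kernel⟩

def k40_B00pm_112_s1 : ∃ t, chk3 f_B00pm_112_s1 t 41 10 1 = true :=
  ⟨(a (b (a (c (b (l 494384399) (b (l 494368271) (a (l 494468367) (l 1)))) (l 494025231)) (b (b (l 493722127) (l 1)) (l 1))) (b (l 1) (l 1))) (l 1)), by decide +kernel⟩

def k41_B00pm_112_s1 : ∃ t, chk3 f_B00pm_112_s1 t 20 11 1 = true :=
  ⟨(a (b (b (l 15537096) (l 15580576)) (l 15648560)) (l 1)), by decide +kernel⟩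

def k42_B00pm_112_s1 : ∃ t, chk3 f_B00pm_112_s1 t 21 5 1 = true :=
  ⟨(l 1), by decide +kernel⟩

def k43_B00pm_112_s1 : ∃ t, chk3 f_B00pm_112_s1 t 11 2 1 = true :=
  ⟨(l 1), by decide +kernel⟩

def k44_B00pm_112_s1 : ∃ t, chk3 f_B00pm_112_s1 t 2 3 1 = true :=
  ⟨(b (a (l 6) (l 1)) (a (l 6) (l 1))), by decide +kernel⟩

def k45_B00pm_112_s1 : ∃ t, chk3 f_B00pm_112_s1 t 3 1 1 = true :=
  ⟨(l 1), by decide +kernel⟩

theorem t46_B00pm_112_s1 : ∃ t, chk3 f_B00pm_112_s1 t 40 42 1 = true := ex3_a k37_B00pm_112_s1 k38_B00pm_112_s1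

theorem t47_B00pm_112_s1 : ∃ t, chk3 f_B00pm_112_s1 t 40 21 1 = true := ex3_b t46_B00pm_112_s1 k39_B00pm_112_s1

theorem t48_B00pm_112_s1 : ∃ t, chk3 f_B00pm_112_s1 t 40 10 1 = true := ex3_b k36_B00pm_112_s1 t47_B00pm_112_s1

theorem t49_B00pm_112_s1 : ∃ t, chk3 f_B00pm_112_s1 t 20 10 1 = true := ex3_a t48_B00pm_112_s1 k40_B00pm_112_s1

theorem t50_B00pm_112_s1 : ∃ t, chk3 f_B00pm_112_s1 t 20 5 1 = true := ex3_b t49_B00pm_112_s1 k41_B00pm_112_s1

theorem t51_B00pm_112_s1 : ∃ t, chk3 f_B00pm_112_s1 t 10 5 1 = true := ex3_a t50_B00pm_112_s1 k42_B00pm_112_s1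

theorem t52_B00pm_112_s1 : ∃ t, chk3 f_B00pm_112_s1 t 10 2 1 = true := ex3_b k35_B00pm_112_s1 t51_B00pm_112_s1

theorem t53_B00pm_112_s1 : ∃ t, chk3 f_B00pm_112_s1 t 5 2 1 = true := ex3_a t52_B00pm_112_s1 k43_B00pm_112_s1

theorem t54_B00pm_112_s1 : ∃ t, chk3 f_B00pm_112_s1 t 9 10 1 = true := ex3_a k32_B00pm_112_s1 k33_B00pm_112_s1

theorem t55_B00pm_112_s1 : ∃ t, chk3 f_B00pm_112_s1 t 9 5 1 = true := ex3_b t54_B00pm_112_s1 k34_B00pm_112_s1

theorem t56_B00pm_112_s1 : ∃ t, chk3 f_B00pm_112_s1 t 4 5 1 = true := ex3_a k31_B00pm_112_s1 t55_B00pm_112_s1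

theorem t57_B00pm_112_s1 : ∃ t, chk3 f_B00pm_112_s1 t 18 39 1 = true := ex3_a k28_B00pm_112_s1 k29_B00pm_112_s1

theorem t58_B00pm_112_s1 : ∃ t, chk3 f_B00pm_112_s1 t 18 19 1 = true := ex3_b k27_B00pm_112_s1 t57_B00pm_112_s1

theorem t59_B00pm_112_s1 : ∃ t, chk3 f_B00pm_112_s1 t 18 9 1 = true := ex3_b k26_B00pm_112_s1 t58_B00pm_112_s1

theorem t60_B00pm_112_s1 : ∃ t, chk3 f_B00pm_112_s1 t 9 9 1 = true := ex3_a t59_B00pm_112_s1 k30_B00pm_112_s1

theorem t61_B00pm_112_s1 : ∃ t, chk3 f_B00pm_112_s1 t 9 4 1 = true := ex3_b k25_B00pm_112_s1 t60_B00pm_112_s1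

theorem t62_B00pm_112_s1 : ∃ t, chk3 f_B00pm_112_s1 t 35 76 1 = true := ex3_a k21_B00pm_112_s1 k22_B00pm_112_s1

theorem t63_B00pm_112_s1 : ∃ t, chk3 f_B00pm_112_s1 t 35 38 1 = true := ex3_b t62_B00pm_112_s1 k23_B00pm_112_s1

theorem t64_B00pm_112_s1 : ∃ t, chk3 f_B00pm_112_s1 t 17 38 1 = true := ex3_a k20_B00pm_112_s1 t63_B00pm_112_s1

theorem t65_B00pm_112_s1 : ∃ t, chk3 f_B00pm_112_s1 t 17 19 1 = true := ex3_b t64_B00pm_112_s1 k24_B00pm_112_s1

theorem t66_B00pm_112_s1 : ∃ t, chk3 f_B00pm_112_s1 t 34 74 1 = true := ex3_a k16_B00pm_112_s1 k17_B00pm_112_s1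

theorem t67_B00pm_112_s1 : ∃ t, chk3 f_B00pm_112_s1 t 34 37 1 = true := ex3_b t66_B00pm_112_s1 k18_B00pm_112_s1

theorem t68_B00pm_112_s1 : ∃ t, chk3 f_B00pm_112_s1 t 34 18 1 = true := ex3_b k15_B00pm_112_s1 t67_B00pm_112_s1

theorem t69_B00pm_112_s1 : ∃ t, chk3 f_B00pm_112_s1 t 17 18 1 = true := ex3_a t68_B00pm_112_s1 k19_B00pm_112_s1

theorem t70_B00pm_112_s1 : ∃ t, chk3 f_B00pm_112_s1 t 17 9 1 = true := ex3_b t69_B00pm_112_s1 t65_B00pm_112_s1

theorem t71_B00pm_112_s1 : ∃ t, chk3 f_B00pm_112_s1 t 17 4 1 = true := ex3_b k14_B00pm_112_s1 t70_B00pm_112_s1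

theorem t72_B00pm_112_s1 : ∃ t, chk3 f_B00pm_112_s1 t 67 73 1 = true := ex3_b k10_B00pm_112_s1 k11_B00pm_112_s1

theorem t73_B00pm_112_s1 : ∃ t, chk3 f_B00pm_112_s1 t 33 73 1 = true := ex3_a k9_B00pm_112_s1 t72_B00pm_112_s1

theorem t74_B00pm_112_s1 : ∃ t, chk3 f_B00pm_112_s1 t 66 72 1 = true := ex3_b k6_B00pm_112_s1 k7_B00pm_112_s1

theorem t75_B00pm_112_s1 : ∃ t, chk3 f_B00pm_112_s1 t 33 72 1 = true := ex3_a t74_B00pm_112_s1 k8_B00pm_112_s1

theorem t76_B00pm_112_s1 : ∃ t, chk3 f_B00pm_112_s1 t 33 36 1 = true := ex3_b t75_B00pm_112_s1 t73_B00pm_112_s1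

theorem t77_B00pm_112_s1 : ∃ t, chk3 f_B00pm_112_s1 t 33 18 1 = true := ex3_b t76_B00pm_112_s1 k12_B00pm_112_s1

theorem t78_B00pm_112_s1 : ∃ t, chk3 f_B00pm_112_s1 t 16 18 1 = true := ex3_a k5_B00pm_112_s1 t77_B00pm_112_s1

theorem t79_B00pm_112_s1 : ∃ t, chk3 f_B00pm_112_s1 t 16 9 1 = true := ex3_b t78_B00pm_112_s1 k13_B00pm_112_s1

theorem t80_B00pm_112_s1 : ∃ t, chk3 f_B00pm_112_s1 t 32 35 1 = true := ex3_a k2_B00pm_112_s1 k3_B00pm_112_s1

theorem t81_B00pm_112_s1 : ∃ t, chk3 f_B00pm_112_s1 t 32 17 1 = true := ex3_b k1_B00pm_112_s1 t80_B00pm_112_s1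

theorem t82_B00pm_112_s1 : ∃ t, chk3 f_B00pm_112_s1 t 16 17 1 = true := ex3_a t81_B00pm_112_s1 k4_B00pm_112_s1

theorem t83_B00pm_112_s1 : ∃ t, chk3 f_B00pm_112_s1 t 16 8 1 = true := ex3_b k0_B00pm_112_s1 t82_B00pm_112_s1

theorem t84_B00pm_112_s1 : ∃ t, chk3 f_B00pm_112_s1 t 16 4 1 = true := ex3_b t83_B00pm_112_s1 t79_B00pm_112_s1

theorem t85_B00pm_112_s1 : ∃ t, chk3 f_B00pm_112_s1 t 8 4 1 = true := ex3_a t84_B00pm_112_s1 t71_B00pm_112_s1

theorem t86_B00pm_112_s1 : ∃ t, chk3 f_B00pm_112_s1 t 4 4 1 = true := ex3_a t85_B00pm_112_s1 t61_B00pm_112_s1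

theorem t87_B00pm_112_s1 : ∃ t, chk3 f_B00pm_112_s1 t 4 2 1 = true := ex3_b t86_B00pm_112_s1 t56_B00pm_112_s1

theorem t88_B00pm_112_s1 : ∃ t, chk3 f_B00pm_112_s1 t 2 2 1 = true := ex3_a t87_B00pm_112_s1 t53_B00pm_112_s1

theorem t89_B00pm_112_s1 : ∃ t, chk3 f_B00pm_112_s1 t 2 1 1 = true := ex3_b t88_B00pm_112_s1 k44_B00pm_112_s1

theorem t90_B00pm_112_s1 : ∃ t, chk3 f_B00pm_112_s1 t 1 1 1 = true := ex3_a t89_B00pm_112_s1 k45_B00pm_112_s1

theorem c_B00pm_112_s1 : CertF 536870912 536870912 0 536870912 1033476505 6710887 false true false .dn 1 1 2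
    ndB0q1 ndB0q2 pcB1 cut_B00pm_112_s1 xt_B00pm_112_s1 :=
  certF0 (fam := false) (s1 := true) (s2 := false) (a := 1) (b := 1) (c := 2) (cn := .dn) (n1 := ndB0q1) (n2 := ndB0q2) (pc := pcB1) (cut := cut_B00pm_112_s1) (xt := xt_B00pm_112_s1) (P1 := 536870912) (W1 := 536870912) (P2 := 0) (W2 := 536870912) (P3 := 1033476505) (W3 := 6710887)
    rfl t90_B00pm_112_s1

theorem s_B00pm_112_s1 {κ x : ℝ} (hκ : κ * h0 = ken x) (hx : ((1033476505 : ℕ) : ℝ) / S ≤ x)
    (hx' : x ≤ (((1033476505 : ℕ) : ℝ) + (6710887 : ℕ)) / S) :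
    AltB (VFD κ) PP tK tL pcB [⟨3, 0, 0, 1449551462⟩] 1 1 2 0 0 (sgb true) (sgb false) x :=
  strip_altBD (m := 1449551462) true rfl hκ (SH.κ0 hκ (SH.hx1 hx).le (SH.hx2 hx').le) (SH.hx1 hx).le (SH.hx2 hx') (covB01).cov (covB02).cov hx hx' c_B00pm_112_s1 cutB_nil ((okx hx hx').extB (T := tt) (sideB hx hx') hκ rfl rfl (.O 1 true) (.O 2 false) (Or.inr rfl))

noncomputable def cut_B00pm_112_s3 : Cut := Cut.of [[⟨3, 0, 0, 2845415833⟩]]

noncomputable def f_B00pm_112_s3 : ℕ → ℕ → ℕ → ℕ → Bool := onCell 536870912 536870912 0 536870912 1033476505 6710887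
    (rowF 0 false true false .dn 1 1 2 (qsf 536870912 536870912 0 536870912 1) ndB0q1 ndB0q2 pcB1 cut_B00pm_112_s3 Ext.none)

def k0_B00pm_112_s3 : ∃ t, chk3 f_B00pm_112_s3 t 1 1 1 = true :=
  ⟨(l 6), by decide +kernel⟩

theorem c_B00pm_112_s3 : CertF 536870912 536870912 0 536870912 1033476505 6710887 false true false .dn 1 1 2
    ndB0q1 ndB0q2 pcB1 cut_B00pm_112_s3 Ext.none :=
  certF0 (fam := false) (s1 := true) (s2 := false) (a := 1) (b := 1) (c := 2) (cn := .dn) (n1 := ndB0q1) (n2 := ndB0q2) (pc := pcB1) (cut := cut_B00pm_112_s3) (xt := Ext.none) (P1 := 536870912) (W1 := 536870912) (P2 := 0) (W2 := 536870912) (P3 := 1033476505) (W3 := 6710887)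
    rfl k0_B00pm_112_s3

theorem s_B00pm_112_s3 {κ x : ℝ} (hκ : κ * h0 = ken x) (hx : ((1033476505 : ℕ) : ℝ) / S ≤ x)
    (hx' : x ≤ (((1033476505 : ℕ) : ℝ) + (6710887 : ℕ)) / S) :
    AltB (VFD κ) PP tK tL pcB [⟨4, 0, 0, 2845415833⟩] 1 1 2 0 0 (sgb true) (sgb false) x :=
  strip_altBD (m := 2845415833) false rfl hκ (SH.κ0 hκ (SH.hx1 hx).le (SH.hx2 hx').le) (SH.hx1 hx).le (SH.hx2 hx') (covB01).cov (covB02).cov hx hx' c_B00pm_112_s3 cutB_nil (noExt_B)

noncomputable def cut_B00pm_202_s1 : Cut := Cut.of [[⟨4, 0, 0, 1449551462⟩], [⟨0, 1, 0, 33554432⟩, ⟨1, 0, 0, 33554432⟩, ⟨2, 1, 0, 33554432⟩], [⟨0, 0, 1, 46137344⟩, ⟨1, 1, 2, 46137344⟩, ⟨2, 1, 0, 1048576⟩, ⟨0, 0, 0, 1047972020⟩, ⟨0, 1, 0, 45097156⟩, ⟨1, 0, 0, 45097156⟩, ⟨1, 1, 0, 1047972020⟩]]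

noncomputable def f_B00pm_202_s1 : ℕ → ℕ → ℕ → ℕ → Bool := onCell 0 536870912 0 536870912 1033476505 6710887
    (rowF 0 false true false .pp 2 0 2 (qsf 0 536870912 0 536870912 0) ndB0q2 ndB0q2 pcB0 cut_B00pm_202_s1 Ext.none)

def k0_B00pm_202_s1 : ∃ t, chk3 f_B00pm_202_s1 t 1 1 1 = true :=
  ⟨(a (l 3) (b (l 3) (a (l 3) (b (l 3) (a (l 3) (b (l 3) (b (l 3) (a (l 3) (l 14))))))))), by decide +kernel⟩

theorem c_B00pm_202_s1 : CertF 0 536870912 0 536870912 1033476505 6710887 false true false .pp 2 0 2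
    ndB0q2 ndB0q2 pcB0 cut_B00pm_202_s1 Ext.none :=
  certF0 (fam := false) (s1 := true) (s2 := false) (a := 2) (b := 0) (c := 2) (cn := .pp) (n1 := ndB0q2) (n2 := ndB0q2) (pc := pcB0) (cut := cut_B00pm_202_s1) (xt := Ext.none) (P1 := 0) (W1 := 536870912) (P2 := 0) (W2 := 536870912) (P3 := 1033476505) (W3 := 6710887)
    rfl k0_B00pm_202_s1

theorem s_B00pm_202_s1 {κ x : ℝ} (hκ : κ * h0 = ken x) (hx : ((1033476505 : ℕ) : ℝ) / S ≤ x)
    (hx' : x ≤ (((1033476505 : ℕ) : ℝ) + (6710887 : ℕ)) / S)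
    (H : CutB (VFD κ) PP tK tL pcB (Cut.of [[⟨0, 1, 0, 33554432⟩, ⟨1, 0, 0, 33554432⟩, ⟨2, 1, 0, 33554432⟩], [⟨0, 0, 1, 46137344⟩, ⟨1, 1, 2, 46137344⟩, ⟨2, 1, 0, 1048576⟩, ⟨0, 0, 0, 1047972020⟩, ⟨0, 1, 0, 45097156⟩, ⟨1, 0, 0, 45097156⟩, ⟨1, 1, 0, 1047972020⟩]]) 2 0 2 0 0 (sgb true) (sgb false) x) :
    AltB (VFD κ) PP tK tL pcB [⟨3, 0, 0, 1449551462⟩] 2 0 2 0 0 (sgb true) (sgb false) x :=
  strip_altBD (m := 1449551462) true rfl hκ (SH.κ0 hκ (SH.hx1 hx).le (SH.hx2 hx').le) (SH.hx1 hx).le (SH.hx2 hx') (covB02).cov (covB02).cov hx hx' c_B00pm_202_s1 H (noExt_B)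

noncomputable def cut_B00pm_202_s3 : Cut := Cut.of [[⟨3, 0, 0, 2845415833⟩], [⟨0, 1, 0, 33554432⟩, ⟨1, 0, 0, 33554432⟩, ⟨2, 1, 0, 33554432⟩], [⟨0, 0, 1, 46137344⟩, ⟨1, 1, 2, 46137344⟩, ⟨2, 1, 0, 1048576⟩, ⟨0, 0, 0, 1047972020⟩, ⟨0, 1, 0, 45097156⟩, ⟨1, 0, 0, 45097156⟩, ⟨1, 1, 0, 1047972020⟩]]

noncomputable def f_B00pm_202_s3 : ℕ → ℕ → ℕ → ℕ → Bool := onCell 0 536870912 0 536870912 1033476505 6710887
    (rowF 0 false true false .pp 2 0 2 (qsf 0 536870912 0 536870912 0) ndB0q2 ndB0q2 pcB0 cut_B00pm_202_s3 Ext.none)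

def k0_B00pm_202_s3 : ∃ t, chk3 f_B00pm_202_s3 t 1 1 1 = true :=
  ⟨(l 6), by decide +kernel⟩

theorem c_B00pm_202_s3 : CertF 0 536870912 0 536870912 1033476505 6710887 false true false .pp 2 0 2
    ndB0q2 ndB0q2 pcB0 cut_B00pm_202_s3 Ext.none :=
  certF0 (fam := false) (s1 := true) (s2 := false) (a := 2) (b := 0) (c := 2) (cn := .pp) (n1 := ndB0q2) (n2 := ndB0q2) (pc := pcB0) (cut := cut_B00pm_202_s3) (xt := Ext.none) (P1 := 0) (W1 := 536870912) (P2 := 0) (W2 := 536870912) (P3 := 1033476505) (W3 := 6710887)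
    rfl k0_B00pm_202_s3

theorem s_B00pm_202_s3 {κ x : ℝ} (hκ : κ * h0 = ken x) (hx : ((1033476505 : ℕ) : ℝ) / S ≤ x)
    (hx' : x ≤ (((1033476505 : ℕ) : ℝ) + (6710887 : ℕ)) / S)
    (H : CutB (VFD κ) PP tK tL pcB (Cut.of [[⟨0, 1, 0, 33554432⟩, ⟨1, 0, 0, 33554432⟩, ⟨2, 1, 0, 33554432⟩], [⟨0, 0, 1, 46137344⟩, ⟨1, 1, 2, 46137344⟩, ⟨2, 1, 0, 1048576⟩, ⟨0, 0, 0, 1047972020⟩, ⟨0, 1, 0, 45097156⟩, ⟨1, 0, 0, 45097156⟩, ⟨1, 1, 0, 1047972020⟩]]) 2 0 2 0 0 (sgb true) (sgb false) x) :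
    AltB (VFD κ) PP tK tL pcB [⟨4, 0, 0, 2845415833⟩] 2 0 2 0 0 (sgb true) (sgb false) x :=
  strip_altBD (m := 2845415833) false rfl hκ (SH.κ0 hκ (SH.hx1 hx).le (SH.hx2 hx').le) (SH.hx1 hx).le (SH.hx2 hx') (covB02).cov (covB02).cov hx hx' c_B00pm_202_s3 H (noExt_B)

noncomputable def cut_B00mm_001_s1 : Cut := Cut.of [[⟨4, 0, 0, 1449551462⟩]]

noncomputable def f_B00mm_001_s1 : ℕ → ℕ → ℕ → ℕ → Bool := onCell 0 536870912 0 536870912 1033476505 6710887
    (rowF 1 false false false .up 0 0 1 (qsf 0 536870912 536870912 536870912 0) ndB0q0 ndB0q1 pcB0 cut_B00mm_001_s1 Ext.none)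

def k0_B00mm_001_s1 : ∃ t, chk3 f_B00mm_001_s1 t 1 1 1 = true :=
  ⟨(l 3), by decide +kernel⟩

theorem c_B00mm_001_s1 : CertF 0 536870912 536870912 536870912 1033476505 6710887 false false false .up 0 0 1
    ndB0q0 ndB0q1 pcB0 cut_B00mm_001_s1 Ext.none :=
  certF1 (fam := false) (s1 := false) (s2 := false) (a := 0) (b := 0) (c := 1) (cn := .up) (n1 := ndB0q0) (n2 := ndB0q1) (pc := pcB0) (cut := cut_B00mm_001_s1) (xt := Ext.none) (P1 := 0) (W1 := 536870912) (P2 := 536870912) (W2 := 536870912) (P3 := 1033476505) (W3 := 6710887)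
    rfl (fun _ => rfl) k0_B00mm_001_s1

theorem s_B00mm_001_s1 {κ x : ℝ} (hκ : κ * h0 = ken x) (hx : ((1033476505 : ℕ) : ℝ) / S ≤ x)
    (hx' : x ≤ (((1033476505 : ℕ) : ℝ) + (6710887 : ℕ)) / S) :
    AltB (VFD κ) PP tK tL pcB [⟨3, 0, 0, 1449551462⟩] 0 0 1 0 0 (sgb false) (sgb false) x :=
  strip_altBD (m := 1449551462) true rfl hκ (SH.κ0 hκ (SH.hx1 hx).le (SH.hx2 hx').le) (SH.hx1 hx).le (SH.hx2 hx') (covB00).cov (covB01).cov hx hx' c_B00mm_001_s1 cutB_nil (noExt_B)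

noncomputable def cut_B00mm_001_s3 : Cut := Cut.of [[⟨3, 0, 0, 2845415833⟩]]

noncomputable def f_B00mm_001_s3 : ℕ → ℕ → ℕ → ℕ → Bool := onCell 0 536870912 536870912 536870912 1033476505 6710887
    (rowF 0 false false false .up 0 0 1 (qsf 0 536870912 536870912 536870912 0) ndB0q0 ndB0q1 pcB0 cut_B00mm_001_s3 Ext.none)

def k0_B00mm_001_s3 : ∃ t, chk3 f_B00mm_001_s3 t 1 1 1 = true :=
  ⟨(l 6), by decide +kernel⟩

theorem c_B00mm_001_s3 : CertF 0 536870912 536870912 536870912 1033476505 6710887 false false false .up 0 0 1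
    ndB0q0 ndB0q1 pcB0 cut_B00mm_001_s3 Ext.none :=
  certF0 (fam := false) (s1 := false) (s2 := false) (a := 0) (b := 0) (c := 1) (cn := .up) (n1 := ndB0q0) (n2 := ndB0q1) (pc := pcB0) (cut := cut_B00mm_001_s3) (xt := Ext.none) (P1 := 0) (W1 := 536870912) (P2 := 536870912) (W2 := 536870912) (P3 := 1033476505) (W3 := 6710887)
    rfl k0_B00mm_001_s3

theorem s_B00mm_001_s3 {κ x : ℝ} (hκ : κ * h0 = ken x) (hx : ((1033476505 : ℕ) : ℝ) / S ≤ x)
    (hx' : x ≤ (((1033476505 : ℕ) : ℝ) + (6710887 : ℕ)) / S) :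
    AltB (VFD κ) PP tK tL pcB [⟨4, 0, 0, 2845415833⟩] 0 0 1 0 0 (sgb false) (sgb false) x :=
  strip_altBD (m := 2845415833) false rfl hκ (SH.κ0 hκ (SH.hx1 hx).le (SH.hx2 hx').le) (SH.hx1 hx).le (SH.hx2 hx') (covB00).cov (covB01).cov hx hx' c_B00mm_001_s3 cutB_nil (noExt_B)

noncomputable def cut_B00mm_011_s1 : Cut := Cut.of [[⟨4, 0, 0, 1449551462⟩]]

noncomputable def f_B00mm_011_s1 : ℕ → ℕ → ℕ → ℕ → Bool := onCell 0 536870912 536870912 536870912 1033476505 6710887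
    (rowF 1 false false false .pnn 0 1 1 (qsf 0 536870912 536870912 536870912 1) ndB0q0 ndB0q1 pcB1 cut_B00mm_011_s1 Ext.none)

def k0_B00mm_011_s1 : ∃ t, chk3 f_B00mm_011_s1 t 1 1 1 = true :=
  ⟨(l 5), by decide +kernel⟩

theorem c_B00mm_011_s1 : CertF 0 536870912 536870912 536870912 1033476505 6710887 false false false .pnn 0 1 1
    ndB0q0 ndB0q1 pcB1 cut_B00mm_011_s1 Ext.none :=
  certF1 (fam := false) (s1 := false) (s2 := false) (a := 0) (b := 1) (c := 1) (cn := .pnn) (n1 := ndB0q0) (n2 := ndB0q1) (pc := pcB1) (cut := cut_B00mm_011_s1) (xt := Ext.none) (P1 := 0) (W1 := 536870912) (P2 := 536870912) (W2 := 536870912) (P3 := 1033476505) (W3 := 6710887)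
    rfl (fun _ => rfl) k0_B00mm_011_s1

theorem s_B00mm_011_s1 {κ x : ℝ} (hκ : κ * h0 = ken x) (hx : ((1033476505 : ℕ) : ℝ) / S ≤ x)
    (hx' : x ≤ (((1033476505 : ℕ) : ℝ) + (6710887 : ℕ)) / S) :
    AltB (VFD κ) PP tK tL pcB [⟨3, 0, 0, 1449551462⟩] 0 1 1 0 0 (sgb false) (sgb false) x :=
  strip_altBD (m := 1449551462) true rfl hκ (SH.κ0 hκ (SH.hx1 hx).le (SH.hx2 hx').le) (SH.hx1 hx).le (SH.hx2 hx') (covB00).cov (covB01).cov hx hx' c_B00mm_011_s1 cutB_nil (noExt_B)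

noncomputable def cut_B00mm_011_s3 : Cut := Cut.of [[⟨3, 0, 0, 2845415833⟩]]

noncomputable def f_B00mm_011_s3 : ℕ → ℕ → ℕ → ℕ → Bool := onCell 0 536870912 536870912 536870912 1033476505 6710887
    (rowF 0 false false false .pnn 0 1 1 (qsf 0 536870912 536870912 536870912 1) ndB0q0 ndB0q1 pcB1 cut_B00mm_011_s3 Ext.none)

def k0_B00mm_011_s3 : ∃ t, chk3 f_B00mm_011_s3 t 1 1 1 = true :=
  ⟨(l 6), by decide +kernel⟩

theorem c_B00mm_011_s3 : CertF 0 536870912 536870912 536870912 1033476505 6710887 false false false .pnn 0 1 1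
    ndB0q0 ndB0q1 pcB1 cut_B00mm_011_s3 Ext.none :=
  certF0 (fam := false) (s1 := false) (s2 := false) (a := 0) (b := 1) (c := 1) (cn := .pnn) (n1 := ndB0q0) (n2 := ndB0q1) (pc := pcB1) (cut := cut_B00mm_011_s3) (xt := Ext.none) (P1 := 0) (W1 := 536870912) (P2 := 536870912) (W2 := 536870912) (P3 := 1033476505) (W3 := 6710887)
    rfl k0_B00mm_011_s3

theorem s_B00mm_011_s3 {κ x : ℝ} (hκ : κ * h0 = ken x) (hx : ((1033476505 : ℕ) : ℝ) / S ≤ x)
    (hx' : x ≤ (((1033476505 : ℕ) : ℝ) + (6710887 : ℕ)) / S) :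
    AltB (VFD κ) PP tK tL pcB [⟨4, 0, 0, 2845415833⟩] 0 1 1 0 0 (sgb false) (sgb false) x :=
  strip_altBD (m := 2845415833) false rfl hκ (SH.κ0 hκ (SH.hx1 hx).le (SH.hx2 hx').le) (SH.hx1 hx).le (SH.hx2 hx') (covB00).cov (covB01).cov hx hx' c_B00mm_011_s3 cutB_nil (noExt_B)

noncomputable def cut_B00mm_012_s1 : Cut := Cut.of [[⟨4, 0, 0, 1449551462⟩]]

noncomputable def f_B00mm_012_s1 : ℕ → ℕ → ℕ → ℕ → Bool := onCell 0 536870912 0 536870912 1033476505 6710887
    (rowF 0 false false false .pnp 0 1 2 (qsf 0 536870912 0 536870912 1) ndB0q0 ndB0q2 pcB1 cut_B00mm_012_s1 Ext.none)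

def k0_B00mm_012_s1 : ∃ t, chk3 f_B00mm_012_s1 t 1 1 1 = true :=
  ⟨(l 5), by decide +kernel⟩

theorem c_B00mm_012_s1 : CertF 0 536870912 0 536870912 1033476505 6710887 false false false .pnp 0 1 2
    ndB0q0 ndB0q2 pcB1 cut_B00mm_012_s1 Ext.none :=
  certF0 (fam := false) (s1 := false) (s2 := false) (a := 0) (b := 1) (c := 2) (cn := .pnp) (n1 := ndB0q0) (n2 := ndB0q2) (pc := pcB1) (cut := cut_B00mm_012_s1) (xt := Ext.none) (P1 := 0) (W1 := 536870912) (P2 := 0) (W2 := 536870912) (P3 := 1033476505) (W3 := 6710887)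
    rfl k0_B00mm_012_s1

theorem s_B00mm_012_s1 {κ x : ℝ} (hκ : κ * h0 = ken x) (hx : ((1033476505 : ℕ) : ℝ) / S ≤ x)
    (hx' : x ≤ (((1033476505 : ℕ) : ℝ) + (6710887 : ℕ)) / S) :
    AltB (VFD κ) PP tK tL pcB [⟨3, 0, 0, 1449551462⟩] 0 1 2 0 0 (sgb false) (sgb false) x :=
  strip_altBD (m := 1449551462) true rfl hκ (SH.κ0 hκ (SH.hx1 hx).le (SH.hx2 hx').le) (SH.hx1 hx).le (SH.hx2 hx') (covB00).cov (covB02).cov hx hx' c_B00mm_012_s1 cutB_nil (noExt_B)

noncomputable def cut_B00mm_012_s3 : Cut := Cut.of [[⟨3, 0, 0, 2845415833⟩]]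

noncomputable def f_B00mm_012_s3 : ℕ → ℕ → ℕ → ℕ → Bool := onCell 0 536870912 0 536870912 1033476505 6710887
    (rowF 0 false false false .pnp 0 1 2 (qsf 0 536870912 0 536870912 1) ndB0q0 ndB0q2 pcB1 cut_B00mm_012_s3 Ext.none)

def k0_B00mm_012_s3 : ∃ t, chk3 f_B00mm_012_s3 t 1 1 1 = true :=
  ⟨(l 5), by decide +kernel⟩

theorem c_B00mm_012_s3 : CertF 0 536870912 0 536870912 1033476505 6710887 false false false .pnp 0 1 2
    ndB0q0 ndB0q2 pcB1 cut_B00mm_012_s3 Ext.none :=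
  certF0 (fam := false) (s1 := false) (s2 := false) (a := 0) (b := 1) (c := 2) (cn := .pnp) (n1 := ndB0q0) (n2 := ndB0q2) (pc := pcB1) (cut := cut_B00mm_012_s3) (xt := Ext.none) (P1 := 0) (W1 := 536870912) (P2 := 0) (W2 := 536870912) (P3 := 1033476505) (W3 := 6710887)
    rfl k0_B00mm_012_s3

theorem s_B00mm_012_s3 {κ x : ℝ} (hκ : κ * h0 = ken x) (hx : ((1033476505 : ℕ) : ℝ) / S ≤ x)
    (hx' : x ≤ (((1033476505 : ℕ) : ℝ) + (6710887 : ℕ)) / S) :
    AltB (VFD κ) PP tK tL pcB [⟨4, 0, 0, 2845415833⟩] 0 1 2 0 0 (sgb false) (sgb false) x :=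
  strip_altBD (m := 2845415833) false rfl hκ (SH.κ0 hκ (SH.hx1 hx).le (SH.hx2 hx').le) (SH.hx1 hx).le (SH.hx2 hx') (covB00).cov (covB02).cov hx hx' c_B00mm_012_s3 cutB_nil (noExt_B)

noncomputable def cut_B00mm_022_s1 : Cut := Cut.of [[⟨4, 0, 0, 1449551462⟩]]

noncomputable def f_B00mm_022_s1 : ℕ → ℕ → ℕ → ℕ → Bool := onCell 0 536870912 0 536870912 1033476505 6710887
    (rowF 0 false false false .pp 0 2 2 (qsf 0 536870912 0 536870912 2) ndB0q0 ndB0q2 pcB2 cut_B00mm_022_s1 Ext.none)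

def k0_B00mm_022_s1 : ∃ t, chk3 f_B00mm_022_s1 t 1 1 1 = true :=
  ⟨(l 5), by decide +kernel⟩

theorem c_B00mm_022_s1 : CertF 0 536870912 0 536870912 1033476505 6710887 false false false .pp 0 2 2
    ndB0q0 ndB0q2 pcB2 cut_B00mm_022_s1 Ext.none :=
  certF0 (fam := false) (s1 := false) (s2 := false) (a := 0) (b := 2) (c := 2) (cn := .pp) (n1 := ndB0q0) (n2 := ndB0q2) (pc := pcB2) (cut := cut_B00mm_022_s1) (xt := Ext.none) (P1 := 0) (W1 := 536870912) (P2 := 0) (W2 := 536870912) (P3 := 1033476505) (W3 := 6710887)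
    rfl k0_B00mm_022_s1

theorem s_B00mm_022_s1 {κ x : ℝ} (hκ : κ * h0 = ken x) (hx : ((1033476505 : ℕ) : ℝ) / S ≤ x)
    (hx' : x ≤ (((1033476505 : ℕ) : ℝ) + (6710887 : ℕ)) / S) :
    AltB (VFD κ) PP tK tL pcB [⟨3, 0, 0, 1449551462⟩] 0 2 2 0 0 (sgb false) (sgb false) x :=
  strip_altBD (m := 1449551462) true rfl hκ (SH.κ0 hκ (SH.hx1 hx).le (SH.hx2 hx').le) (SH.hx1 hx).le (SH.hx2 hx') (covB00).cov (covB02).cov hx hx' c_B00mm_022_s1 cutB_nil (noExt_B)

noncomputable def cut_B00mm_022_s3 : Cut := Cut.of [[⟨3, 0, 0, 2845415833⟩]]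

noncomputable def f_B00mm_022_s3 : ℕ → ℕ → ℕ → ℕ → Bool := onCell 0 536870912 0 536870912 1033476505 6710887
    (rowF 0 false false false .pp 0 2 2 (qsf 0 536870912 0 536870912 2) ndB0q0 ndB0q2 pcB2 cut_B00mm_022_s3 Ext.none)

def k0_B00mm_022_s3 : ∃ t, chk3 f_B00mm_022_s3 t 1 1 1 = true :=
  ⟨(l 5), by decide +kernel⟩

theorem c_B00mm_022_s3 : CertF 0 536870912 0 536870912 1033476505 6710887 false false false .pp 0 2 2
    ndB0q0 ndB0q2 pcB2 cut_B00mm_022_s3 Ext.none :=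
  certF0 (fam := false) (s1 := false) (s2 := false) (a := 0) (b := 2) (c := 2) (cn := .pp) (n1 := ndB0q0) (n2 := ndB0q2) (pc := pcB2) (cut := cut_B00mm_022_s3) (xt := Ext.none) (P1 := 0) (W1 := 536870912) (P2 := 0) (W2 := 536870912) (P3 := 1033476505) (W3 := 6710887)
    rfl k0_B00mm_022_s3

theorem s_B00mm_022_s3 {κ x : ℝ} (hκ : κ * h0 = ken x) (hx : ((1033476505 : ℕ) : ℝ) / S ≤ x)
    (hx' : x ≤ (((1033476505 : ℕ) : ℝ) + (6710887 : ℕ)) / S) :
    AltB (VFD κ) PP tK tL pcB [⟨4, 0, 0, 2845415833⟩] 0 2 2 0 0 (sgb false) (sgb false) x :=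
  strip_altBD (m := 2845415833) false rfl hκ (SH.κ0 hκ (SH.hx1 hx).le (SH.hx2 hx').le) (SH.hx1 hx).le (SH.hx2 hx') (covB00).cov (covB02).cov hx hx' c_B00mm_022_s3 cutB_nil (noExt_B)

noncomputable def cut_B00mm_101_s1 : Cut := Cut.of [[⟨4, 0, 0, 1449551462⟩]]

noncomputable def f_B00mm_101_s1 : ℕ → ℕ → ℕ → ℕ → Bool := onCell 536870912 536870912 536870912 536870912 1033476505 6710887
    (rowF 0 false false false .npn 1 0 1 (qsf 536870912 536870912 536870912 536870912 0) ndB0q1 ndB0q1 pcB0 cut_B00mm_101_s1 Ext.none)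

def k0_B00mm_101_s1 : ∃ t, chk3 f_B00mm_101_s1 t 1 1 1 = true :=
  ⟨(l 3), by decide +kernel⟩

theorem c_B00mm_101_s1 : CertF 536870912 536870912 536870912 536870912 1033476505 6710887 false false false .npn 1 0 1
    ndB0q1 ndB0q1 pcB0 cut_B00mm_101_s1 Ext.none :=
  certF0 (fam := false) (s1 := false) (s2 := false) (a := 1) (b := 0) (c := 1) (cn := .npn) (n1 := ndB0q1) (n2 := ndB0q1) (pc := pcB0) (cut := cut_B00mm_101_s1) (xt := Ext.none) (P1 := 536870912) (W1 := 536870912) (P2 := 536870912) (W2 := 536870912) (P3 := 1033476505) (W3 := 6710887)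
    rfl k0_B00mm_101_s1

theorem s_B00mm_101_s1 {κ x : ℝ} (hκ : κ * h0 = ken x) (hx : ((1033476505 : ℕ) : ℝ) / S ≤ x)
    (hx' : x ≤ (((1033476505 : ℕ) : ℝ) + (6710887 : ℕ)) / S) :
    AltB (VFD κ) PP tK tL pcB [⟨3, 0, 0, 1449551462⟩] 1 0 1 0 0 (sgb false) (sgb false) x :=
  strip_altBD (m := 1449551462) true rfl hκ (SH.κ0 hκ (SH.hx1 hx).le (SH.hx2 hx').le) (SH.hx1 hx).le (SH.hx2 hx') (covB01).cov (covB01).cov hx hx' c_B00mm_101_s1 cutB_nil (noExt_B)

noncomputable def cut_B00mm_101_s3 : Cut := Cut.of [[⟨3, 0, 0, 2845415833⟩]]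

noncomputable def f_B00mm_101_s3 : ℕ → ℕ → ℕ → ℕ → Bool := onCell 536870912 536870912 536870912 536870912 1033476505 6710887
    (rowF 0 false false false .npn 1 0 1 (qsf 536870912 536870912 536870912 536870912 0) ndB0q1 ndB0q1 pcB0 cut_B00mm_101_s3 Ext.none)

def k0_B00mm_101_s3 : ∃ t, chk3 f_B00mm_101_s3 t 1 1 1 = true :=
  ⟨(l 3), by decide +kernel⟩

theorem c_B00mm_101_s3 : CertF 536870912 536870912 536870912 536870912 1033476505 6710887 false false false .npn 1 0 1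
    ndB0q1 ndB0q1 pcB0 cut_B00mm_101_s3 Ext.none :=
  certF0 (fam := false) (s1 := false) (s2 := false) (a := 1) (b := 0) (c := 1) (cn := .npn) (n1 := ndB0q1) (n2 := ndB0q1) (pc := pcB0) (cut := cut_B00mm_101_s3) (xt := Ext.none) (P1 := 536870912) (W1 := 536870912) (P2 := 536870912) (W2 := 536870912) (P3 := 1033476505) (W3 := 6710887)
    rfl k0_B00mm_101_s3

theorem s_B00mm_101_s3 {κ x : ℝ} (hκ : κ * h0 = ken x) (hx : ((1033476505 : ℕ) : ℝ) / S ≤ x)
    (hx' : x ≤ (((1033476505 : ℕ) : ℝ) + (6710887 : ℕ)) / S) :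
    AltB (VFD κ) PP tK tL pcB [⟨4, 0, 0, 2845415833⟩] 1 0 1 0 0 (sgb false) (sgb false) x :=
  strip_altBD (m := 2845415833) false rfl hκ (SH.κ0 hκ (SH.hx1 hx).le (SH.hx2 hx').le) (SH.hx1 hx).le (SH.hx2 hx') (covB01).cov (covB01).cov hx hx' c_B00mm_101_s3 cutB_nil (noExt_B)

noncomputable def cut_B00mm_102_s1 : Cut := Cut.of [[⟨4, 0, 0, 1449551462⟩]]

noncomputable def f_B00mm_102_s1 : ℕ → ℕ → ℕ → ℕ → Bool := onCell 536870912 536870912 0 536870912 1033476505 6710887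
    (rowF 0 false false false .npp 1 0 2 (qsf 536870912 536870912 0 536870912 0) ndB0q1 ndB0q2 pcB0 cut_B00mm_102_s1 Ext.none)

def k0_B00mm_102_s1 : ∃ t, chk3 f_B00mm_102_s1 t 1 1 1 = true :=
  ⟨(a (l 5) (l 3)), by decide +kernel⟩

theorem c_B00mm_102_s1 : CertF 536870912 536870912 0 536870912 1033476505 6710887 false false false .npp 1 0 2
    ndB0q1 ndB0q2 pcB0 cut_B00mm_102_s1 Ext.none :=
  certF0 (fam := false) (s1 := false) (s2 := false) (a := 1) (b := 0) (c := 2) (cn := .npp) (n1 := ndB0q1) (n2 := ndB0q2) (pc := pcB0) (cut := cut_B00mm_102_s1) (xt := Ext.none) (P1 := 536870912) (W1 := 536870912) (P2 := 0) (W2 := 536870912) (P3 := 1033476505) (W3 := 6710887)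
    rfl k0_B00mm_102_s1

theorem s_B00mm_102_s1 {κ x : ℝ} (hκ : κ * h0 = ken x) (hx : ((1033476505 : ℕ) : ℝ) / S ≤ x)
    (hx' : x ≤ (((1033476505 : ℕ) : ℝ) + (6710887 : ℕ)) / S) :
    AltB (VFD κ) PP tK tL pcB [⟨3, 0, 0, 1449551462⟩] 1 0 2 0 0 (sgb false) (sgb false) x :=
  strip_altBD (m := 1449551462) true rfl hκ (SH.κ0 hκ (SH.hx1 hx).le (SH.hx2 hx').le) (SH.hx1 hx).le (SH.hx2 hx') (covB01).cov (covB02).cov hx hx' c_B00mm_102_s1 cutB_nil (noExt_B)

noncomputable def cut_B00mm_102_s3 : Cut := Cut.of [[⟨3, 0, 0, 2845415833⟩]]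

noncomputable def f_B00mm_102_s3 : ℕ → ℕ → ℕ → ℕ → Bool := onCell 536870912 536870912 0 536870912 1033476505 6710887
    (rowF 0 false false false .npp 1 0 2 (qsf 536870912 536870912 0 536870912 0) ndB0q1 ndB0q2 pcB0 cut_B00mm_102_s3 Ext.none)

def k0_B00mm_102_s3 : ∃ t, chk3 f_B00mm_102_s3 t 1 1 1 = true :=
  ⟨(l 6), by decide +kernel⟩

theorem c_B00mm_102_s3 : CertF 536870912 536870912 0 536870912 1033476505 6710887 false false false .npp 1 0 2
    ndB0q1 ndB0q2 pcB0 cut_B00mm_102_s3 Ext.none :=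
  certF0 (fam := false) (s1 := false) (s2 := false) (a := 1) (b := 0) (c := 2) (cn := .npp) (n1 := ndB0q1) (n2 := ndB0q2) (pc := pcB0) (cut := cut_B00mm_102_s3) (xt := Ext.none) (P1 := 536870912) (W1 := 536870912) (P2 := 0) (W2 := 536870912) (P3 := 1033476505) (W3 := 6710887)
    rfl k0_B00mm_102_s3

theorem s_B00mm_102_s3 {κ x : ℝ} (hκ : κ * h0 = ken x) (hx : ((1033476505 : ℕ) : ℝ) / S ≤ x)
    (hx' : x ≤ (((1033476505 : ℕ) : ℝ) + (6710887 : ℕ)) / S) :
    AltB (VFD κ) PP tK tL pcB [⟨4, 0, 0, 2845415833⟩] 1 0 2 0 0 (sgb false) (sgb false) x :=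
  strip_altBD (m := 2845415833) false rfl hκ (SH.κ0 hκ (SH.hx1 hx).le (SH.hx2 hx').le) (SH.hx1 hx).le (SH.hx2 hx') (covB01).cov (covB02).cov hx hx' c_B00mm_102_s3 cutB_nil (noExt_B)

noncomputable def cut_B00mm_112_s1 : Cut := Cut.of [[⟨4, 0, 0, 1449551462⟩]]

noncomputable def f_B00mm_112_s1 : ℕ → ℕ → ℕ → ℕ → Bool := onCell 536870912 536870912 0 536870912 1033476505 6710887
    (rowF 2 false false false .dn 1 1 2 (qsf 536870912 536870912 0 536870912 1) ndB0q1 ndB0q2 pcB1 cut_B00mm_112_s1 Ext.none)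

def k0_B00mm_112_s1 : ∃ t, chk3 f_B00mm_112_s1 t 1 1 1 = true :=
  ⟨(l 5), by decide +kernel⟩

theorem c_B00mm_112_s1 : CertF 536870912 536870912 0 536870912 1033476505 6710887 false false false .dn 1 1 2
    ndB0q1 ndB0q2 pcB1 cut_B00mm_112_s1 Ext.none :=
  certF2 (fam := false) (s1 := false) (s2 := false) (a := 1) (b := 1) (c := 2) (cn := .dn) (n1 := ndB0q1) (n2 := ndB0q2) (pc := pcB1) (cut := cut_B00mm_112_s1) (xt := Ext.none) (P1 := 536870912) (W1 := 536870912) (P2 := 0) (W2 := 536870912) (P3 := 1033476505) (W3 := 6710887)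
    rfl (fun _ => rfl) k0_B00mm_112_s1

theorem s_B00mm_112_s1 {κ x : ℝ} (hκ : κ * h0 = ken x) (hx : ((1033476505 : ℕ) : ℝ) / S ≤ x)
    (hx' : x ≤ (((1033476505 : ℕ) : ℝ) + (6710887 : ℕ)) / S) :
    AltB (VFD κ) PP tK tL pcB [⟨3, 0, 0, 1449551462⟩] 1 1 2 0 0 (sgb false) (sgb false) x :=
  strip_altBD (m := 1449551462) true rfl hκ (SH.κ0 hκ (SH.hx1 hx).le (SH.hx2 hx').le) (SH.hx1 hx).le (SH.hx2 hx') (covB01).cov (covB02).cov hx hx' c_B00mm_112_s1 cutB_nil (noExt_B)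

noncomputable def cut_B00mm_112_s3 : Cut := Cut.of [[⟨3, 0, 0, 2845415833⟩]]

noncomputable def f_B00mm_112_s3 : ℕ → ℕ → ℕ → ℕ → Bool := onCell 536870912 536870912 0 536870912 1033476505 6710887
    (rowF 0 false false false .dn 1 1 2 (qsf 536870912 536870912 0 536870912 1) ndB0q1 ndB0q2 pcB1 cut_B00mm_112_s3 Ext.none)

def k0_B00mm_112_s3 : ∃ t, chk3 f_B00mm_112_s3 t 1 1 1 = true :=
  ⟨(l 6), by decide +kernel⟩

theorem c_B00mm_112_s3 : CertF 536870912 536870912 0 536870912 1033476505 6710887 false false false .dn 1 1 2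
    ndB0q1 ndB0q2 pcB1 cut_B00mm_112_s3 Ext.none :=
  certF0 (fam := false) (s1 := false) (s2 := false) (a := 1) (b := 1) (c := 2) (cn := .dn) (n1 := ndB0q1) (n2 := ndB0q2) (pc := pcB1) (cut := cut_B00mm_112_s3) (xt := Ext.none) (P1 := 536870912) (W1 := 536870912) (P2 := 0) (W2 := 536870912) (P3 := 1033476505) (W3 := 6710887)
    rfl k0_B00mm_112_s3

theorem s_B00mm_112_s3 {κ x : ℝ} (hκ : κ * h0 = ken x) (hx : ((1033476505 : ℕ) : ℝ) / S ≤ x)
    (hx' : x ≤ (((1033476505 : ℕ) : ℝ) + (6710887 : ℕ)) / S) :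
    AltB (VFD κ) PP tK tL pcB [⟨4, 0, 0, 2845415833⟩] 1 1 2 0 0 (sgb false) (sgb false) x :=
  strip_altBD (m := 2845415833) false rfl hκ (SH.κ0 hκ (SH.hx1 hx).le (SH.hx2 hx').le) (SH.hx1 hx).le (SH.hx2 hx') (covB01).cov (covB02).cov hx hx' c_B00mm_112_s3 cutB_nil (noExt_B)

noncomputable def cut_B00mm_202_s1 : Cut := Cut.of [[⟨4, 0, 0, 1449551462⟩]]

noncomputable def f_B00mm_202_s1 : ℕ → ℕ → ℕ → ℕ → Bool := onCell 0 536870912 0 536870912 1033476505 6710887
    (rowF 0 false false false .pp 2 0 2 (qsf 0 536870912 0 536870912 0) ndB0q2 ndB0q2 pcB0 cut_B00mm_202_s1 Ext.none)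

def k0_B00mm_202_s1 : ∃ t, chk3 f_B00mm_202_s1 t 1 1 1 = true :=
  ⟨(l 3), by decide +kernel⟩

theorem c_B00mm_202_s1 : CertF 0 536870912 0 536870912 1033476505 6710887 false false false .pp 2 0 2
    ndB0q2 ndB0q2 pcB0 cut_B00mm_202_s1 Ext.none :=
  certF0 (fam := false) (s1 := false) (s2 := false) (a := 2) (b := 0) (c := 2) (cn := .pp) (n1 := ndB0q2) (n2 := ndB0q2) (pc := pcB0) (cut := cut_B00mm_202_s1) (xt := Ext.none) (P1 := 0) (W1 := 536870912) (P2 := 0) (W2 := 536870912) (P3 := 1033476505) (W3 := 6710887)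
    rfl k0_B00mm_202_s1

theorem s_B00mm_202_s1 {κ x : ℝ} (hκ : κ * h0 = ken x) (hx : ((1033476505 : ℕ) : ℝ) / S ≤ x)
    (hx' : x ≤ (((1033476505 : ℕ) : ℝ) + (6710887 : ℕ)) / S) :
    AltB (VFD κ) PP tK tL pcB [⟨3, 0, 0, 1449551462⟩] 2 0 2 0 0 (sgb false) (sgb false) x :=
  strip_altBD (m := 1449551462) true rfl hκ (SH.κ0 hκ (SH.hx1 hx).le (SH.hx2 hx').le) (SH.hx1 hx).le (SH.hx2 hx') (covB02).cov (covB02).cov hx hx' c_B00mm_202_s1 cutB_nil (noExt_B)

noncomputable def cut_B00mm_202_s3 : Cut := Cut.of [[⟨3, 0, 0, 2845415833⟩]]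

noncomputable def f_B00mm_202_s3 : ℕ → ℕ → ℕ → ℕ → Bool := onCell 0 536870912 0 536870912 1033476505 6710887
    (rowF 0 false false false .pp 2 0 2 (qsf 0 536870912 0 536870912 0) ndB0q2 ndB0q2 pcB0 cut_B00mm_202_s3 Ext.none)

def k0_B00mm_202_s3 : ∃ t, chk3 f_B00mm_202_s3 t 1 1 1 = true :=
  ⟨(l 3), by decide +kernel⟩

theorem c_B00mm_202_s3 : CertF 0 536870912 0 536870912 1033476505 6710887 false false false .pp 2 0 2
    ndB0q2 ndB0q2 pcB0 cut_B00mm_202_s3 Ext.none :=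
  certF0 (fam := false) (s1 := false) (s2 := false) (a := 2) (b := 0) (c := 2) (cn := .pp) (n1 := ndB0q2) (n2 := ndB0q2) (pc := pcB0) (cut := cut_B00mm_202_s3) (xt := Ext.none) (P1 := 0) (W1 := 536870912) (P2 := 0) (W2 := 536870912) (P3 := 1033476505) (W3 := 6710887)
    rfl k0_B00mm_202_s3

theorem s_B00mm_202_s3 {κ x : ℝ} (hκ : κ * h0 = ken x) (hx : ((1033476505 : ℕ) : ℝ) / S ≤ x)
    (hx' : x ≤ (((1033476505 : ℕ) : ℝ) + (6710887 : ℕ)) / S) :
    AltB (VFD κ) PP tK tL pcB [⟨4, 0, 0, 2845415833⟩] 2 0 2 0 0 (sgb false) (sgb false) x :=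
  strip_altBD (m := 2845415833) false rfl hκ (SH.κ0 hκ (SH.hx1 hx).le (SH.hx2 hx').le) (SH.hx1 hx).le (SH.hx2 hx') (covB02).cov (covB02).cov hx hx' c_B00mm_202_s3 cutB_nil (noExt_B)

noncomputable def cut_B05pp_001_s1 : Cut := Cut.of [[⟨4, 0, 0, 1449551462⟩]]

noncomputable def f_B05pp_001_s1 : ℕ → ℕ → ℕ → ℕ → Bool := onCell 0 536870912 0 536870912 1033476505 6710887
    (rowF 1 false true true .up 0 0 1 (qsf 0 536870912 536870912 536870912 0) ndB0q0 ndB5q1 pcB0 cut_B05pp_001_s1 Ext.none)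

def k0_B05pp_001_s1 : ∃ t, chk3 f_B05pp_001_s1 t 1 1 1 = true :=
  ⟨(l 3), by decide +kernel⟩

theorem c_B05pp_001_s1 : CertF 0 536870912 536870912 536870912 1033476505 6710887 false true true .up 0 0 1
    ndB0q0 ndB5q1 pcB0 cut_B05pp_001_s1 Ext.none :=
  certF1 (fam := false) (s1 := true) (s2 := true) (a := 0) (b := 0) (c := 1) (cn := .up) (n1 := ndB0q0) (n2 := ndB5q1) (pc := pcB0) (cut := cut_B05pp_001_s1) (xt := Ext.none) (P1 := 0) (W1 := 536870912) (P2 := 536870912) (W2 := 536870912) (P3 := 1033476505) (W3 := 6710887)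
    rfl (fun _ => rfl) k0_B05pp_001_s1

theorem s_B05pp_001_s1 {κ x : ℝ} (hκ : κ * h0 = ken x) (hx : ((1033476505 : ℕ) : ℝ) / S ≤ x)
    (hx' : x ≤ (((1033476505 : ℕ) : ℝ) + (6710887 : ℕ)) / S) :
    AltB (VFD κ) PP tK tL pcB [⟨3, 0, 0, 1449551462⟩] 0 0 1 0 5 (sgb true) (sgb true) x :=
  strip_altBD (m := 1449551462) true rfl hκ (SH.κ0 hκ (SH.hx1 hx).le (SH.hx2 hx').le) (SH.hx1 hx).le (SH.hx2 hx') (covB00).cov (covB51).cov hx hx' c_B05pp_001_s1 cutB_nil (noExt_B)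

noncomputable def cut_B05pp_011_s1 : Cut := Cut.of [[⟨4, 0, 0, 1449551462⟩], [⟨0, 0, 0, 33554432⟩, ⟨1, 1, 0, 33554432⟩, ⟨2, 1, 0, 33554432⟩]]

noncomputable def f_B05pp_011_s1 : ℕ → ℕ → ℕ → ℕ → Bool := onCell 0 536870912 536870912 536870912 1033476505 6710887
    (rowF 1 false true true .pnn 0 1 1 (qsf 0 536870912 536870912 536870912 1) ndB0q0 ndB5q1 pcB1 cut_B05pp_011_s1 Ext.none)

def k0_B05pp_011_s1 : ∃ t, chk3 f_B05pp_011_s1 t 1 1 1 = true :=
  ⟨(b (l 3) (a (b (l 3) (a (b (l 3) (a (b (l 3) (a (a (b (l 3) (l 14)) (l 3)) (l 3))) (l 3))) (l 3))) (l 3))), by decide +kernel⟩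

theorem c_B05pp_011_s1 : CertF 0 536870912 536870912 536870912 1033476505 6710887 false true true .pnn 0 1 1
    ndB0q0 ndB5q1 pcB1 cut_B05pp_011_s1 Ext.none :=
  certF1 (fam := false) (s1 := true) (s2 := true) (a := 0) (b := 1) (c := 1) (cn := .pnn) (n1 := ndB0q0) (n2 := ndB5q1) (pc := pcB1) (cut := cut_B05pp_011_s1) (xt := Ext.none) (P1 := 0) (W1 := 536870912) (P2 := 536870912) (W2 := 536870912) (P3 := 1033476505) (W3 := 6710887)
    rfl (fun _ => rfl) k0_B05pp_011_s1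

theorem s_B05pp_011_s1 {κ x : ℝ} (hκ : κ * h0 = ken x) (hx : ((1033476505 : ℕ) : ℝ) / S ≤ x)
    (hx' : x ≤ (((1033476505 : ℕ) : ℝ) + (6710887 : ℕ)) / S)
    (H : CutB (VFD κ) PP tK tL pcB (Cut.of [[⟨0, 0, 0, 33554432⟩, ⟨1, 1, 0, 33554432⟩, ⟨2, 1, 0, 33554432⟩]]) 0 1 1 0 5 (sgb true) (sgb true) x) :
    AltB (VFD κ) PP tK tL pcB [⟨3, 0, 0, 1449551462⟩] 0 1 1 0 5 (sgb true) (sgb true) x :=
  strip_altBD (m := 1449551462) true rfl hκ (SH.κ0 hκ (SH.hx1 hx).le (SH.hx2 hx').le) (SH.hx1 hx).le (SH.hx2 hx') (covB00).cov (covB51).cov hx hx' c_B05pp_011_s1 H (noExt_B)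

noncomputable def cut_B05pp_012_s1 : Cut := Cut.of [[⟨4, 0, 0, 1449551462⟩], [⟨0, 0, 0, 33554432⟩, ⟨1, 1, 0, 33554432⟩, ⟨2, 1, 0, 33554432⟩]]

noncomputable def f_B05pp_012_s1 : ℕ → ℕ → ℕ → ℕ → Bool := onCell 0 536870912 536870912 536870912 1033476505 6710887
    (rowF 1 false true true .pnp 0 1 2 (qsf 0 536870912 1073741824 536870912 1) ndB0q0 ndB5q2 pcB1 cut_B05pp_012_s1 Ext.none)

def k0_B05pp_012_s1 : ∃ t, chk3 f_B05pp_012_s1 t 1 1 1 = true :=
  ⟨(b (l 3) (a (b (l 3) (a (b (l 3) (a (a (a (b (l 1) (b (l 3) (l 14))) (l 3)) (l 3)) (l 3))) (l 3))) (l 3))), by decide +kernel⟩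

theorem c_B05pp_012_s1 : CertF 0 536870912 1073741824 536870912 1033476505 6710887 false true true .pnp 0 1 2
    ndB0q0 ndB5q2 pcB1 cut_B05pp_012_s1 Ext.none :=
  certF1 (fam := false) (s1 := true) (s2 := true) (a := 0) (b := 1) (c := 2) (cn := .pnp) (n1 := ndB0q0) (n2 := ndB5q2) (pc := pcB1) (cut := cut_B05pp_012_s1) (xt := Ext.none) (P1 := 0) (W1 := 536870912) (P2 := 1073741824) (W2 := 536870912) (P3 := 1033476505) (W3 := 6710887)
    rfl (fun _ => rfl) k0_B05pp_012_s1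

theorem s_B05pp_012_s1 {κ x : ℝ} (hκ : κ * h0 = ken x) (hx : ((1033476505 : ℕ) : ℝ) / S ≤ x)
    (hx' : x ≤ (((1033476505 : ℕ) : ℝ) + (6710887 : ℕ)) / S)
    (H : CutB (VFD κ) PP tK tL pcB (Cut.of [[⟨0, 0, 0, 33554432⟩, ⟨1, 1, 0, 33554432⟩, ⟨2, 1, 0, 33554432⟩]]) 0 1 2 0 5 (sgb true) (sgb true) x) :
    AltB (VFD κ) PP tK tL pcB [⟨3, 0, 0, 1449551462⟩] 0 1 2 0 5 (sgb true) (sgb true) x :=
  strip_altBD (m := 1449551462) true rfl hκ (SH.κ0 hκ (SH.hx1 hx).le (SH.hx2 hx').le) (SH.hx1 hx).le (SH.hx2 hx') (covB00).cov (covB52).cov hx hx' c_B05pp_012_s1 H (noExt_B)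

noncomputable def cut_B05pp_022_s1 : Cut := Cut.of [[⟨4, 0, 0, 1449551462⟩], [⟨0, 0, 0, 22369621⟩, ⟨1, 1, 0, 22369621⟩, ⟨2, 1, 0, 22369621⟩]]

noncomputable def xt_B05pp_022_s1 : Ext := strExt dd false true true .u0 .s2 .u2 .pp 0 2 2 rfl rfl gf2 vv ndB0q0 ndB5q2

noncomputable def f_B05pp_022_s1 : ℕ → ℕ → ℕ → ℕ → Bool := onCell 0 536870912 1073741824 536870912 1033476505 6710887
    (rowF 1 false true true .pp 0 2 2 (qsf 0 536870912 1073741824 536870912 2) ndB0q0 ndB5q2 pcB2 cut_B05pp_022_s1 xt_B05pp_022_s1)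

def k0_B05pp_022_s1 : ∃ t, chk3 f_B05pp_022_s1 t 32 32 1 = true :=
  ⟨(b (a (l 14) (b (l 14) (a (l 14) (a (b (l 14) (a (l 14) (b (l 14) (l 503695743)))) (b (l 3) (a (b (l 502818943) (l 503755647)) (b (l 3) (l 503811455)))))))) (a (a (l 14) (b (l 14) (b (l 16738504) (l 16731776)))) (b (a (b (a (l 14) (b (l 14) (l 16758808))) (a (l 16750456) (l 16753752))) (b (a (a (b (b (l 16760928) (a (l 16763456) (l 16764368))) (l 16761288)) (b (l 504588159) (b (a (l 16763360) (l 16764512)) (l 16762080)))) (a (b (l 504649087) (b (l 16766464) (l 16763944))) (l 503660671))) (a (b (l 16758632) (l 16755328)) (b (a (b (l 16762000) (l 16760176)) (b (l 16764184) (l 16761944))) (a (l 16757712) (l 16759432)))))) (a (b (l 16734952) (l 16738896)) (b (a (l 16750432) (l 16753664)) (l 16745656)))))), by decide +kernel⟩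

def k1_B05pp_022_s1 : ∃ t, chk3 f_B05pp_022_s1 t 33 32 1 = true :=
  ⟨(b (a (b (l 3) (a (a (b (l 3) (a (b (l 3) (l 503863167)) (l 3))) (l 3)) (l 3))) (l 3)) (a (b (a (b (a (a (l 505056127) (l 505105279)) (a (l 505150335) (l 505191551))) (a (b (a (l 16760232) (l 506482815)) (a (b (l 16761952) (l 16760208)) (b (l 16764424) (l 16762080)))) (a (l 506843775) (l 506887295)))) (a (b (a (l 505228671) (l 3)) (a (l 506926975) (l 506962559))) (b (l 3) (l 506996095)))) (a (b (a (b (a (l 16757640) (l 16754184)) (l 16755256)) (b (b (l 16763480) (a (l 16760160) (l 16762448))) (a (l 16757760) (l 16754144)))) (a (l 16750544) (l 16753712))) (b (a (b (l 508146815) (b (l 16763704) (l 16761488))) (l 508524927)) (a (b (a (l 16757808) (l 16759472)) (l 16755496)) (b (l 16752376) (a (l 16757816) (l 16759808))))))) (b (a (a (b (l 3) (l 507046015)) (l 3)) (l 3)) (a (a (b (l 508579967) (l 509952895)) (b (l 508619391) (l 509997183))) (a (b (l 508642943)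 (l 510026111)) (b (l 3) (l 510039423))))))), by decide +kernel⟩

def k2_B05pp_022_s1 : ∃ t, chk3 f_B05pp_022_s1 t 16 33 1 = true :=
  ⟨(a (a (b (a (b (l 16718952) (l 16708624)) (b (l 16722088) (l 16710104))) (a (l 16694672) (l 16694432))) (b (b (a (l 16729280) (b (l 16739368) (l 16733184))) (a (l 16716848) (l 16724056))) (b (l 16708048) (l 16695816)))) (b (a (b (a (b (l 16745960) (l 16739880)) (b (a (l 16750736) (b (l 16755632) (l 16752352))) (l 16746296))) (a (l 16730880) (l 16695456))) (b (a (b (a (b (l 16753656) (l 16755680)) (b (l 16763224) (l 16759248))) (a (l 16750968) (b (l 16755704) (l 16752720)))) (a (b (l 511252095) (b (l 16759544) (l 16755768))) (l 511727231))) (a (b (l 16746600) (l 16740752)) (b (b (a (l 16752856) (l 16755912)) (l 16741056)) (l 16746816))))) (a (b (a (l 16718128) (l 16724376)) (l 16707584)) (b (a (l 16730320) (l 16694072)) (l 16717936))))), by decide +kernel⟩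

def k3_B05pp_022_s1 : ∃ t, chk3 f_B05pp_022_s1 t 17 16 1 = true :=
  ⟨(b (a (b (l 3) (a (b (l 3) (a (b (l 3) (a (l 510037887) (l 3))) (l 3))) (l 3))) (l 3)) (b (a (a (a (b (a (l 511733375) (l 511724415)) (b (b (l 513053823) (l 16747496)) (a (l 16751528) (b (l 16756392) (l 16752848))))) (b (a (l 511700607) (l 511661951)) (b (l 513228159) (l 514004351)))) (b (a (l 511561855) (l 3)) (a (b (l 513142399) (l 513942911)) (b (l 513049983) (l 513824895))))) (a (b (l 3) (a (b (l 3) (l 513551743)) (l 3))) (l 3))) (a (a (b (b (a (l 16725352) (b (a (l 16752688) (l 16756368)) (a (l 16748232) (l 16751320)))) (a (l 16737232) (a (l 16741096) (l 16744056)))) (a (l 16724984) (l 16729448))) (b (b (a (l 513762687) (l 513711743)) (a (b (l 16751744) (a (l 16744256) (l 16748192))) (l 511350911))) (b (a (a (l 16737368) (l 16718952)) (a (l 16722224) (l 16747816))) (a (l 16729456) (a (l 16732912) (l 16724984)))))) (a (b (a (l 512200063) (l 511852415))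 (a (l 507687039) (l 507364735))) (b (a (l 511422079) (l 3)) (l 505090431)))))), by decide +kernel⟩

def k4_B05pp_022_s1 : ∃ t, chk3 f_B05pp_022_s1 t 8 17 1 = true :=
  ⟨(a (a (a (b (b (l 16678088) (l 16664392)) (l 16647824)) (b (b (l 16659208) (l 16661888)) (l 16641368))) (b (b (a (l 16605264) (b (l 16704192) (l 16691528))) (a (l 16667128) (l 16673616))) (a (b (l 16647240) (l 16628728)) (l 16555208)))) (b (b (a (a (b (l 16712024) (l 16697952)) (b (b (l 16712568) (l 16714656)) (l 16702872))) (b (b (a (a (a (l 16727744) (l 16709864)) (l 16727920)) (l 503570559)) (a (a (l 16719256) (a (l 16711624) (l 16726224))) (l 501428863))) (a (b (a (l 16709960) (a (l 16711432) (l 16713408))) (l 16702216)) (b (a (b (l 16722936) (l 16704320)) (l 499015039)) (a (b (l 16687304) (l 16702592)) (b (l 16717592) (l 16708528))))))) (a (a (l 16678048) (b (l 16687776) (l 16673040))) (b (a (l 16689424) (b (a (l 16694904) (a (l 16696368) (b (l 16702320)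 (l 16694512)))) (l 16685760))) (a (l 16672696) (l 16671440))))) (a (a (l 16597096) (b (l 16651016) (l 16620904))) (b (a (l 16647632) (b (l 16652472) (a (l 16634912) (l 16630960)))) (a (b (l 16622064) (l 16602648)) (a (l 16605848) (l 16560664))))))), by decide +kernel⟩

def k5_B05pp_022_s1 : ∃ t, chk3 f_B05pp_022_s1 t 9 16 1 = true :=
  ⟨(a (a (b (l 3) (b (l 3) (b (l 3) (a (l 505578367) (l 3))))) (l 3)) (l 3)), by decide +kernel⟩

def k6_B05pp_022_s1 : ∃ t, chk3 f_B05pp_022_s1 t 9 34 1 = true :=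
  ⟨(a (a (a (b (b (l 501399423) (b (l 498200703) (b (l 496482175) (l 495104383)))) (b (a (b (l 16706504) (b (l 16692184) (l 16684912))) (b (l 492318079) (l 16698200))) (a (b (l 16676008) (l 16665104)) (b (a (l 16677032) (l 16680176)) (a (l 16664288) (l 16664352)))))) (b (b (l 500024447) (b (l 496878207) (a (b (l 495516799) (l 493815423)) (b (a (l 494927999) (b (l 494841215) (l 493950591))) (a (l 492864639) (l 491934847)))))) (b (a (b (l 490839935) (l 487224959)) (a (b (l 489265279) (l 485076351)) (b (b (l 489183871) (l 16730160)) (l 483825279)))) (a (b (l 16666912) (a (b (l 16669576) (l 16661408)) (l 16669904))) (b (b (l 16705264) (l 16694600)) (b (l 16684248) (l 16674512))))))) (b (b (l 3) (a (b (a (a (a (l 496018559) (l 3)) (l 3)) (l 3)) (a (a (a (b (b (l 494959487) (l 492716159)) (l 490797951)) (b (l 493740415) (l 490929791))) (l 492882303)) (l 494107519))) (l 3))) (a (b (a (b (a (a (l 487274623) (l 487293311)) (l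 487795071)) (a (l 483569791) (l 484134527))) (b (l 488938367) (l 485196671))) (b (a (a (l 481324671) (l 481851775)) (l 482833535)) (a (b (l 480810879) (l 480593791)) (b (l 482001535) (l 482103167))))) (b (a (b (l 490750335) (l 486897279)) (b (l 3) (a (b (l 489251199) (l 487624575)) (b (l 3) (l 488698751))))) (b (a (b (l 484920959) (l 484031871)) (a (b (l 486344063) (l 485412735)) (l 486856831))) (a (b (l 483256191) (a (l 16722992) (l 16721248))) (b (a (l 484879999) (l 485898623)) (a (l 485262463) (l 486474879))))))))) (b (l 3) (a (b (l 3) (a (a (b (l 488547711) (a (b (l 487202175) (l 487939711)) (a (b (l 487445631) (l 489307519)) (b (a (l 488328319) (l 488981119)) (l 490350463))))) (b (l 3) (b (l 489247615) (l 490732671)))) (l 3))) (l 3)))), by decide +kernel⟩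

def k7_B05pp_022_s1 : ∃ t, chk3 f_B05pp_022_s1 t 18 35 1 = true :=
  ⟨(a (b (a (a (b (l 16648680) (l 16628432)) (b (l 16647432) (l 16627312))) (b (a (b (a (l 16652352) (b (l 16656776) (l 16650944))) (l 16643056)) (b (a (b (l 16661976) (l 16654256)) (l 16665088)) (a (l 16646976) (b (l 16653896) (l 16649208))))) (a (l 16630520) (l 16638392)))) (a (b (a (l 16609264) (l 16611104)) (l 16595784)) (b (a (l 16617464) (l 16628752)) (a (l 16608712) (l 16623736))))) (b (a (b (b (a (b (l 16661424) (l 16674312)) (a (l 16692360) (l 483612543))) (a (a (b (l 16662344) (l 16655864)) (l 16668528)) (a (l 16678160) (l 16687768)))) (a (b (a (l 16650432) (b (l 16659744) (l 16656288))) (l 16649232)) (b (a (l 16667272) (l 16677128)) (a (l 16661536) (l 16670344))))) (a (a (b (b (l 484602751) (l 16697312)) (b (l 16687064) (l 16680488))) (b (b (l 485750399) (l 16696272)) (b (l 16696952) (l 16690600)))) (b (b (a (l 487091071) (l 488685695)) (a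 (l 490549887) (l 492510079))) (b (a (l 16706784) (l 16705400)) (a (l 16700328) (l 16709384)))))) (a (b (a (l 16645224) (b (l 16664144) (l 16664648))) (a (l 16644632) (l 16666768))) (b (a (b (a (l 16678144) (l 16687448)) (l 16683496)) (b (l 16701240) (l 16700400))) (a (l 16687224) (l 16703616)))))), by decide +kernel⟩

def k8_B05pp_022_s1 : ∃ t, chk3 f_B05pp_022_s1 t 19 35 1 = true :=
  ⟨(b (a (a (b (a (b (a (b (l 489669247) (l 491620735)) (b (l 491721855) (l 493265791))) (a (b (l 16726040) (l 16731232)) (l 495885951))) (b (l 493098879) (l 496355711))) (a (b (a (l 16724248) (l 16720656)) (c (l 16700024) (l 16698512))) (b (l 499715967) (l 503180159)))) (b (a (b (a (l 493397631) (b (l 492799615) (l 494401919))) (a (l 496656511) (l 496854399))) (b (l 493885311) (l 497147263))) (b (a (l 500116863) (l 500513407)) (a (l 503590783) (l 504003711))))) (b (a (b (l 3) (l 497723263)) (l 3)) (a (b (a (l 500905599) (a (l 501198207)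 (l 501502335))) (a (b (l 503505023) (l 505356415)) (a (b (l 503819647) (l 505733503)) (b (l 504022655) (l 506060415))))) (b (l 3) (b (a (l 504137343) (l 3)) (l 506214527)))))) (a (a (b (a (b (l 16715528) (l 16713448)) (b (l 16726104) (l 16723224))) (a (l 16694544) (b (l 16722936) (l 16725160)))) (b (b (a (l 507279999) (l 507769215)) (a (l 16731856) (l 16719224))) (a (l 16710272) (b (l 16696528) (l 16739224))))) (a (b (a (b (l 508313215) (l 512308607)) (b (a (l 508393855) (l 509060991)) (a (l 512830591) (l 513039487)))) (a (b (l 16745688) (l 16745664)) (b (c (l 16752792) (l 16751848)) (l 16730336)))) (b (b (l 509258111) (b (l 512255615) (l 514229631))) (b (b (l 516181631) (a (l 16757560) (l 518196607))) (c (l 520013951) (l 520510335))))))), by decide +kernel⟩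

def k9_B05pp_022_s1 : ∃ t, chk3 f_B05pp_022_s1 t 5 8 1 = true :=
  ⟨(b (l 3) (b (l 3) (a (b (l 3) (a (a (b (a (a (b (l 509407615) (b (l 512428671) (l 514418559))) (b (l 3) (c (l 513901439) (l 513099903)))) (l 3)) (a (a (b (c (l 517742975) (l 516984959)) (l 519912319)) (b (l 517191807) (l 519738239))) (l 519510655))) (l 3)) (l 3))) (l 3)))), by decide +kernel⟩

def k10_B05pp_022_s1 : ∃ t, chk3 f_B05pp_022_s1 t 8 9 1 = true :=
  ⟨(a (b (a (b (a (l 16629840) (l 16620208)) (l 16519272)) (b (a (l 16521840) (b (l 16604000) (l 16580232))) (a (b (l 16583776) (l 16564216)) (b (l 16555664) (l 16538720))))) (a (b (a (l 16466936) (l 16483480)) (b (l 16447352) (l 16501024))) (b (b (a (l 16549392) (l 16524760)) (l 16446728)) (b (a (l 16542568) (l 16548280)) (l 16436000))))) (b (b (a (a (b (l 16597712) (l 16563960)) (b (l 16543688) (l 16554168))) (b (a (l 16493024) (b (l 16578120) (l 16565488))) (a (l 16546136) (l 16511920)))) (a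 (a (b (l 16535992) (l 16513384)) (b (l 16524696) (l 16511248))) (b (a (l 16530144) (l 16470392)) (a (l 16531712) (l 16481744))))) (b (a (b (a (l 16512928) (l 16434800)) (a (l 16531672) (l 16546224))) (a (b (l 16461264) (l 16572576)) (l 16516512))) (a (b (a (l 16563104) (l 16573136)) (l 16503184)) (b (l 16550576) (l 16472384)))))), by decide +kernel⟩

def k11_B05pp_022_s1 : ∃ t, chk3 f_B05pp_022_s1 t 9 9 1 = true :=
  ⟨(b (a (a (b (a (b (b (l 16585968) (l 16580408)) (b (l 16580520) (l 16583064))) (b (b (a (l 16604456) (l 16623944)) (l 16532096)) (b (l 16536912) (l 16629024)))) (b (a (b (l 16588808) (l 16597864)) (l 16558000)) (b (l 16547208) (l 16558488)))) (b (a (b (b (a (l 16647656) (l 16672080)) (l 16581904)) (l 16593264)) (b (b (l 16618008) (l 16624584)) (l 16584768))) (a (b (l 16565360) (l 16508264)) (b (l 16528744) (l 16553656))))) (b (a (b (a (a (l 16711064) (b (l 16723480) (l 16696648))) (b (a (l 16703576) (b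 (l 16733536) (l 16635656))) (a (l 16697032) (l 16656504)))) (a (a (l 16656744) (l 16654872)) (b (l 16669344) (l 16640688)))) (b (a (b (a (b (l 16736592) (l 16723248)) (b (l 16740648) (l 16727984))) (a (b (l 16708336) (l 16693688)) (b (l 16713680) (l 16697896)))) (b (b (a (l 16745472) (l 517482623)) (a (l 16691552) (l 16697344))) (a (l 510062863) (c (l 16676888) (l 16698688))))) (b (a (a (l 16672096) (l 16633776)) (b (a (l 16688096) (l 16695792)) (a (l 16672624) (l 16678416)))) (a (l 16644904) (a (l 16650576) (l 16655624)))))) (a (a (b (a (l 16599160) (l 16596832)) (l 16538000)) (b (l 16554944) (l 16537384))) (b (a (l 16601040) (l 16609112)) (a (l 16541704) (l 16550264)))))) (a (b (a (b (l 16520648) (l 16461352)) (a (l 16418048) (b (l 16493408) (l 16432248)))) (a (b (l 16398104) (l 16330912)) (a (l 16378648) (l 16339688)))) (a (b (a (b (l 16477560) (l 16416520)) (l 16362864)) (a (l 16324680) (l 16325848))) (b (b (a (l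 16481872) (l 16491208)) (l 16426672)) (b (l 16367872) (l 16310016)))))), by decide +kernel⟩

def k12_B05pp_022_s1 : ∃ t, chk3 f_B05pp_022_s1 t 5 18 1 = true :=
  ⟨(b (a (a (a (a (b (b (a (b (l 517282175) (l 16724272)) (l 515304575)) (a (l 510512255) (l 510946943))) (b (a (l 16653576) (l 506420351)) (b (a (l 16669040) (l 16678336)) (a (l 16653200) (l 16659904))))) (b (b (b (l 516990079) (l 514491519)) (b (l 512074623) (l 509744767))) (b (l 506408575) (l 502340223)))) (b (b (b (a (l 516973695) (l 3)) (l 514597759)) (l 511081087)) (b (a (l 506567807) (l 506927119)) (a (l 502559359) (l 502976127))))) (b (a (b (l 3) (a (a (l 511589759) (l 3)) (l 3))) (l 3)) (a (b (a (l 507471231) (l 508213631)) (l 503964543)) (b (l 3) (l 505971327))))) (l 3)) (a (a (b (b (a (a (a (l 16631008) (l 16636824)) (b (a (l 16651048) (l 16661496)) (l 16618296))) (a (l 498992767) (l 499459455))) (a (a (l 16604648) (l 16616616)) (a (a (l 16585160) (b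 (l 16645568) (l 16626688))) (l 16611792)))) (a (a (l 16561088) (l 16573416)) (b (a (l 16601008) (b (a (l 16619520) (l 16630928)) (l 16609304))) (a (l 16573104) (l 16587872))))) (b (a (b (l 500526207) (l 497548159)) (b (l 502644351) (a (l 499129727) (l 500426367)))) (b (a (a (b (l 16649792) (l 16630496)) (l 495579775)) (a (l 496706943) (l 498031487))) (a (a (b (a (l 16606984) (l 16617776)) (l 16597856)) (b (l 16637832) (l 16618832))) (a (l 16612728) (l 496175487)))))) (b (a (a (b (a (l 504746111) (l 3)) (a (l 501917567) (l 503601791))) (b (l 3) (l 506481791))) (l 3)) (a (a (b (l 500380799) (l 498543487)) (l 501829647)) (a (b (l 3) (l 506911871)) (l 3)))))), by decide +kernel⟩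

def k13_B05pp_022_s1 : ∃ t, chk3 f_B05pp_022_s1 t 5 19 1 = true :=
  ⟨(a (b (a (a (b (a (l 16503120) (l 16516848)) (l 16453208)) (b (a (l 16532032) (l 16548320)) (l 16487448))) (b (a (a (l 16565368) (b (b (l 16602824) (l 16589304)) (l 16571120))) (b (a (a (l 16612056) (l 16625640)) (l 16645688)) (a (b (l 16596312) (l 16584008)) (b (l 16620200) (l 16605088))))) (a (a (l 16516448) (l 16536776)) (a (l 16557480) (b (l 16588648) (l 16568776)))))) (a (a (b (l 16397728) (l 16343752)) (b (l 16436464) (l 16387536))) (a (b (l 16481272) (l 16438512)) (b (l 16487448) (l 16493904))))) (b (a (b (a (b (l 497288831) (l 496766591)) (b (l 501103231) (l 500531839))) (a (b (a (b (l 16616000) (l 16604328)) (l 16635824)) (a (l 16590360) (b (l 16616896) (l 16608096)))) (b (l 500623743) (a (l 16636952) (l 16662344))))) (b (b (l 506721151) (a (l 504963967) (l 509787263))) (a (b (l 505099903) (l 506503807)) (a (b (b (l 508495999) (l 509186943))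 (l 510709375)) (b (a (l 510709375) (a (l 511846015) (l 512495487))) (a (l 513019007) (l 514439039))))))) (a (b (a (a (l 16565992) (l 16590096)) (b (a (l 16620208) (l 16643480)) (a (l 16608160) (l 16632320)))) (a (l 16551048) (l 16607376))) (a (b (b (l 508461439) (a (l 16655920) (l 16679896))) (a (l 16647480) (b (l 16674288) (l 16672128)))) (b (a (b (l 16713376) (l 16702944)) (b (l 516077183) (l 16720832))) (b (a (l 16695608) (l 16713312)) (l 16661208))))))), by decide +kernel⟩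

def k14_B05pp_022_s1 : ∃ t, chk3 f_B05pp_022_s1 t 4 5 1 = true :=
  ⟨(a (b (b (a (a (b (b (l 16363184) (l 16295888)) (b (a (l 16299160) (l 16286392)) (b (l 16216224) (b (l 16166960) (l 16132240))))) (b (b (a (l 16449720) (l 16440048)) (l 16360880)) (b (l 16268264) (b (l 16188592) (b (l 16137984) (l 16101320)))))) (b (a (b (l 16423200) (l 16336136)) (l 16259200)) (b (a (l 16239376) (l 16203576)) (b (l 16141480) (a (b (l 16106848) (l 16070232)) (l 16054536)))))) (a (b (a (l 16059152) (l 16026408)) (a (l 15941256) (l 15910344))) (b (a (l 15996280) (l 15962880)) (l 15871160)))) (b (a (a (l 15603104) (l 15746832)) (b (l 15770456) (l 15680488))) (a (l 15394064) (l 15570696)))) (b (b (a (b (a (b (l 16336824) (l 16248432)) (b (a (l 16280000) (l 16246048)) (l 16061248))) (b (a (l 16153032) (l 16093344)) (a (b (l 16073160) (l 16005904)) (b (l 16015632) (b (l 15965864) (l 15930400)))))) (b (a (b (l 16232464) (a (l 16168864) (l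 16177280))) (l 16225840)) (b (a (a (l 16082896) (l 16102736)) (l 16136584)) (a (b (l 16014848) (b (l 15966736) (l 15932424))) (b (l 16071928) (l 16011376)))))) (a (a (l 15868168) (b (l 15867288) (l 15780264))) (a (a (l 15825144) (l 15854200)) (l 15911912)))) (a (b (a (l 15697288) (l 15676648)) (a (l 15585352) (l 15597192))) (b (a (l 15719840) (l 15829776)) (a (b (l 15679088) (l 15672080)) (l 15803080)))))), by decide +kernel⟩

def k15_B05pp_022_s1 : ∃ t, chk3 f_B05pp_022_s1 t 5 5 1 = true :=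
  ⟨(b (b (b (a (a (a (l 16266288) (l 16318624)) (a (b (l 16398664) (l 16362040)) (b (l 16461808) (l 16433384)))) (a (a (b (l 16527728) (l 16508496)) (b (l 16593848) (l 16585592))) (a (b (l 16656664) (l 16652168)) (b (l 16701936) (l 16700664))))) (a (b (a (a (l 16192144) (l 16256424)) (a (l 16328856) (l 16408832))) (b (a (a (l 16146880) (l 16224240)) (l 16265328)) (a (a (l 16006400) (b (l 16195504) (l 16165936))) (a (b (l 16289832) (l 16268728)) (b (l 16384944) (l 16375904)))))) (a (a (b (l 16493552) (b (l 16486240) (b (l 16482320) (l 16479640)))) (b (l 16579296) (b (l 16575040) (l 16491040)))) (b (a (l 16651768) (l 16698752)) (b (l 16592856) (b (l 16591336) (l 16590496))))))) (a (a (a (l 16008240) (l 16037608)) (b (a (l 16247640) (l 16367440)) (a (l 16238976) (l 16362176)))) (a (a (b (l 16476520) (l 16477600)) (l 16574368)) (b (l 16591904) (l 16677976))))) (a (a (b (a (b (l 15964816) (l 15955376)) (l 16010032)) (a (l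 15942016) (l 16089576))) (b (a (l 16227192) (l 16361824)) (l 16296280))) (a (b (l 16445920) (l 16530440)) (b (l 16681400) (l 16682880))))), by decide +kernel⟩

def k16_B05pp_022_s1 : ∃ t, chk3 f_B05pp_022_s1 t 2 3 1 = true :=
  ⟨(b (a (a (b (a (b (l 15412736) (l 15325872)) (b (l 15479432) (a (l 15429016) (l 15486832)))) (l 6)) (b (a (b (a (l 15549672) (l 15575984)) (a (l 15528352) (l 15565832))) (a (b (l 15656104) (l 15649408)) (l 15791760))) (a (a (l 6) (l 15544944)) (a (l 15632032) (l 15770352))))) (a (b (a (b (l 16011912) (l 16005056)) (b (l 16293416) (l 16288872))) (b (a (l 15996488) (l 16280704)) (l 6))) (b (a (b (l 16529312) (l 16524568)) (b (l 16649384) (l 16622520))) (a (l 16341240) (l 2))))) (l 6)), by decide +kernel⟩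

def k17_B05pp_022_s1 : ∃ t, chk3 f_B05pp_022_s1 t 3 2 1 = true :=
  ⟨(b (b (l 3) (a (b (l 3) (b (a (a (b (b (l 3) (a (b (l 3) (a (l 509601919) (l 3))) (l 3))) (b (a (l 510376831) (l 3)) (l 512103295))) (l 3)) (l 3)) (a (a (b (b (l 515208831) (l 518274687)) (b (l 521301119) (a (a (l 16719000) (l 16727200)) (l 16736352)))) (b (b (l 510376831) (l 513687167)) (b (l 516964991) (l 520204927)))) (b (l 3) (a (b (l 513296255) (l 516786303)) (l 3)))))) (l 3))) (a (b (b (b (a (a (b (a (b (a (l 16717752) (l 16724304)) (l 16722256)) (b (l 16734408) (l 16733592))) (a (l 16722200) (l 16733912))) (a (b (b (l 16740440) (l 16741280)) (b (l 16744264) (l 16744720))) (b (l 524230927) (b (l 16748000) (l 16753264))))) (b (a (b (l 520241535) (l 523648895)) (b (l 517751679) (l 520104831))) (a (b (l 526984063) (a (l 16754456) (l 16756152))) (b (l 523839247) (l 528650879))))) (a (b (a (a (l 16721208) (l 16733672)) (a (l 16744912) (l 16753816)))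 (a (a (b (l 16719888) (b (l 16718728) (l 16718064))) (b (l 16732776) (l 16731592))) (b (l 16749440) (b (l 16748584) (l 16664208))))) (b (b (a (a (l 16760656) (l 16762024)) (l 532227599)) (a (a (l 16760880) (l 16766280)) (a (l 16769992) (l 2)))) (a (b (l 16763664) (b (l 16762888) (l 16762416))) (b (a (l 16769816) (l 2)) (b (l 16770632) (l 47882118247))))))) (a (a (a (l 16722368) (l 16735992)) (b (l 16750904) (l 16753624))) (a (b (b (l 16763712) (l 16764968)) (l 16748712)) (a (l 86536842519) (l 2))))) (a (a (b (l 16636680) (l 16673952)) (b (l 16714408) (l 16673072))) (b (a (l 16710280) (l 2)) (l 2)))) (b (b (b (b (b (l 3) (l 2)) (l 2)) (l 2)) (l 2)) (l 2)))), by decide +kernel⟩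

def k18_B05pp_022_s1 : ∃ t, chk3 f_B05pp_022_s1 t 3 3 1 = true :=
  ⟨(a (b (a (b (b (a (l 16642248) (l 2)) (l 2)) (l 2)) (l 2)) (l 2)) (l 2)), by decide +kernel⟩

theorem t19_B05pp_022_s1 : ∃ t, chk3 f_B05pp_022_s1 t 3 1 1 = true := ex3_b k17_B05pp_022_s1 k18_B05pp_022_s1

theorem t20_B05pp_022_s1 : ∃ t, chk3 f_B05pp_022_s1 t 2 5 1 = true := ex3_a k14_B05pp_022_s1 k15_B05pp_022_s1

theorem t21_B05pp_022_s1 : ∃ t, chk3 f_B05pp_022_s1 t 5 9 1 = true := ex3_b k12_B05pp_022_s1 k13_B05pp_022_s1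

theorem t22_B05pp_022_s1 : ∃ t, chk3 f_B05pp_022_s1 t 4 9 1 = true := ex3_a k10_B05pp_022_s1 k11_B05pp_022_s1

theorem t23_B05pp_022_s1 : ∃ t, chk3 f_B05pp_022_s1 t 2 9 1 = true := ex3_a t22_B05pp_022_s1 t21_B05pp_022_s1

theorem t24_B05pp_022_s1 : ∃ t, chk3 f_B05pp_022_s1 t 9 35 1 = true := ex3_a k7_B05pp_022_s1 k8_B05pp_022_s1

theorem t25_B05pp_022_s1 : ∃ t, chk3 f_B05pp_022_s1 t 9 17 1 = true := ex3_b k6_B05pp_022_s1 t24_B05pp_022_s1

theorem t26_B05pp_022_s1 : ∃ t, chk3 f_B05pp_022_s1 t 9 8 1 = true := ex3_b k5_B05pp_022_s1 t25_B05pp_022_s1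

theorem t27_B05pp_022_s1 : ∃ t, chk3 f_B05pp_022_s1 t 16 32 1 = true := ex3_a k0_B05pp_022_s1 k1_B05pp_022_s1

theorem t28_B05pp_022_s1 : ∃ t, chk3 f_B05pp_022_s1 t 16 16 1 = true := ex3_b t27_B05pp_022_s1 k2_B05pp_022_s1

theorem t29_B05pp_022_s1 : ∃ t, chk3 f_B05pp_022_s1 t 8 16 1 = true := ex3_a t28_B05pp_022_s1 k3_B05pp_022_s1

theorem t30_B05pp_022_s1 : ∃ t, chk3 f_B05pp_022_s1 t 8 8 1 = true := ex3_b t29_B05pp_022_s1 k4_B05pp_022_s1

theorem t31_B05pp_022_s1 : ∃ t, chk3 f_B05pp_022_s1 t 4 8 1 = true := ex3_a t30_B05pp_022_s1 t26_B05pp_022_s1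

theorem t32_B05pp_022_s1 : ∃ t, chk3 f_B05pp_022_s1 t 2 8 1 = true := ex3_a t31_B05pp_022_s1 k9_B05pp_022_s1

theorem t33_B05pp_022_s1 : ∃ t, chk3 f_B05pp_022_s1 t 2 4 1 = true := ex3_b t32_B05pp_022_s1 t23_B05pp_022_s1

theorem t34_B05pp_022_s1 : ∃ t, chk3 f_B05pp_022_s1 t 2 2 1 = true := ex3_b t33_B05pp_022_s1 t20_B05pp_022_s1

theorem t35_B05pp_022_s1 : ∃ t, chk3 f_B05pp_022_s1 t 2 1 1 = true := ex3_b t34_B05pp_022_s1 k16_B05pp_022_s1

theorem t36_B05pp_022_s1 : ∃ t, chk3 f_B05pp_022_s1 t 1 1 1 = true := ex3_a t35_B05pp_022_s1 t19_B05pp_022_s1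

theorem c_B05pp_022_s1 : CertF 0 536870912 1073741824 536870912 1033476505 6710887 false true true .pp 0 2 2
    ndB0q0 ndB5q2 pcB2 cut_B05pp_022_s1 xt_B05pp_022_s1 :=
  certF1 (fam := false) (s1 := true) (s2 := true) (a := 0) (b := 2) (c := 2) (cn := .pp) (n1 := ndB0q0) (n2 := ndB5q2) (pc := pcB2) (cut := cut_B05pp_022_s1) (xt := xt_B05pp_022_s1) (P1 := 0) (W1 := 536870912) (P2 := 1073741824) (W2 := 536870912) (P3 := 1033476505) (W3 := 6710887)
    rfl (fun _ => rfl) t36_B05pp_022_s1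

theorem s_B05pp_022_s1 {κ x : ℝ} (hκ : κ * h0 = ken x) (hx : ((1033476505 : ℕ) : ℝ) / S ≤ x)
    (hx' : x ≤ (((1033476505 : ℕ) : ℝ) + (6710887 : ℕ)) / S)
    (H : CutB (VFD κ) PP tK tL pcB (Cut.of [[⟨0, 0, 0, 22369621⟩, ⟨1, 1, 0, 22369621⟩, ⟨2, 1, 0, 22369621⟩]]) 0 2 2 0 5 (sgb true) (sgb true) x) :
    AltB (VFD κ) PP tK tL pcB [⟨3, 0, 0, 1449551462⟩] 0 2 2 0 5 (sgb true) (sgb true) x :=
  strip_altBD (m := 1449551462) true rfl hκ (SH.κ0 hκ (SH.hx1 hx).le (SH.hx2 hx').le) (SH.hx1 hx).le (SH.hx2 hx') (covB00).cov (covB52).cov hx hx' c_B05pp_022_s1 H ((okx hx hx').extB (T := tt) (sideB hx hx') hκ rfl rfl (.O 0 true) (.N 2 true) rfl)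

noncomputable def cut_B05pp_023_s1 : Cut := Cut.of [[⟨4, 0, 0, 1449551462⟩]]

noncomputable def xt_B05pp_023_s1 : Ext := strExt dd false true true .u0 .s2 .u2 .up 0 2 3 rfl rfl gf2 vv ndB0q0 ndB5q3

noncomputable def f_B05pp_023_s1 : ℕ → ℕ → ℕ → ℕ → Bool := onCell 1073741824 536870912 0 1230186008 1033476505 6710887
    (rowF 2 false true true .up 0 2 3 (qsf 0 536870912 0 1230186008 2) ndB0q0 ndB5q3 pcB2 cut_B05pp_023_s1 xt_B05pp_023_s1)

def k0_B05pp_023_s1 : ∃ t, chk3 f_B05pp_023_s1 t 2 2 1 = true :=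
  ⟨(l 2), by decide +kernel⟩

def k1_B05pp_023_s1 : ∃ t, chk3 f_B05pp_023_s1 t 2 6 1 = true :=
  ⟨(a (l 2) (a (l 2) (b (l 2) (b (l 2) (l 395237410775))))), by decide +kernel⟩

def k2_B05pp_023_s1 : ∃ t, chk3 f_B05pp_023_s1 t 2 14 1 = true :=
  ⟨(a (l 2) (a (a (b (l 2) (b (l 2) (a (l 3) (a (l 3) (a (l 533867583) (a (l 533836351) (b (l 16774128) (l 16772816)))))))) (b (l 535105375) (b (l 534379103) (l 533129055)))) (b (a (l 535149663) (l 16649544)) (b (a (l 16740704) (l 16723040)) (a (l 16737984) (l 16726688)))))), by decide +kernel⟩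

def k3_B05pp_023_s1 : ∃ t, chk3 f_B05pp_023_s1 t 4 15 1 = true :=
  ⟨(l 3), by decide +kernel⟩

def k4_B05pp_023_s1 : ∃ t, chk3 f_B05pp_023_s1 t 10 15 1 = true :=
  ⟨(a (b (a (l 3) (b (a (a (l 3) (b (a (l 3) (b (l 3) (l 533925503))) (a (l 3) (l 534514815)))) (b (a (a (a (b (l 533546111) (l 533537407)) (l 533530239)) (b (l 533505087) (l 16774552))) (b (a (l 16773456) (l 16771688)) (a (l 16772568) (a (a (a (l 16771448) (a (l 16771272) (l 16771472))) (l 16771440)) (l 16770664))))) (a (a (a (l 534294143) (l 533630335)) (b (l 16773808) (l 16773296))) (a (l 16771264) (a (a (a (l 16770192) (b (l 16771056) (l 16771424))) (l 16771976)) (l 16771368)))))) (a (a (b (l 3) (l 532544271)) (b (a (l 535110783) (l 535063679)) (l 535428879))) (a (a (b (b (l 534739471) (l 16775072)) (l 535398671)) (b (l 16762360) (l 16772824))) (b (a (a (l 16770888) (l 16770080)) (a (b (l 16771280) (l 16772456)) (l 16772096))) (a (a (l 16770784) (l 16771224))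 (l 16772752))))))) (b (a (a (l 3) (a (l 3) (b (l 527804943) (l 527799311)))) (a (a (b (l 532104975) (l 531870991)) (b (l 535606799) (l 535625743))) (b (a (a (l 16774760) (l 16773584)) (a (l 16763112) (l 16773128))) (a (a (l 16774488) (l 16774072)) (a (l 16773496) (l 16772832)))))) (a (a (b (l 3) (a (l 3) (l 520522255))) (b (a (l 523575935) (l 527996175)) (a (l 523634303) (l 528281471)))) (a (a (b (l 531858447) (l 532086031)) (b (l 535371023) (a (l 16769768) (l 16771824)))) (a (b (a (l 16773648) (l 16773200)) (a (l 16771544) (l 16770808))) (b (a (l 16772312) (l 16771504)) (a (l 16769776) (l 16768864)))))))) (b (b (a (b (a (l 16745744) (l 16759616)) (l 16740768)) (l 16705344)) (a (b (l 16762288) (l 16763616)) (l 16742472))) (b (a (b (l 16765656) (l 16768376)) (l 16743104)) (a (b (l 16770432) (l 16768128)) (l 16747376))))), by decide +kernel⟩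

def k5_B05pp_023_s1 : ∃ t, chk3 f_B05pp_023_s1 t 11 15 1 = true :=
  ⟨(b (a (b (l 16643184) (l 16715008)) (b (l 16705216) (l 16684560))) (a (b (l 16711368) (l 16712832)) (b (l 16675936) (b (l 16674440) (l 16670576))))), by decide +kernel⟩

def k6_B05pp_023_s1 : ∃ t, chk3 f_B05pp_023_s1 t 3 1 1 = true :=
  ⟨(a (b (l 2) (b (b (a (l 2) (b (l 206795488135) (l 16618112))) (b (a (l 269610107095) (l 16676008)) (a (a (l 16743496) (l 16732320)) (l 16715872)))) (a (b (b (a (l 16721320) (l 16709048)) (b (l 16710824) (l 16717320))) (b (b (l 16683216) (l 16652328)) (a (b (l 16647896) (b (l 16643488) (l 16647352))) (b (l 16625056) (b (l 16626512) (l 16576376)))))) (a (b (b (l 16704104) (l 16703336)) (b (b (l 16670352) (l 16629904)) (b (l 16605008) (l 16337840)))) (b (l 6) (l 6)))))) (b (l 6) (l 6))), by decide +kernel⟩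

theorem t7_B05pp_023_s1 : ∃ t, chk3 f_B05pp_023_s1 t 5 15 1 = true := ex3_a k4_B05pp_023_s1 k5_B05pp_023_s1

theorem t8_B05pp_023_s1 : ∃ t, chk3 f_B05pp_023_s1 t 2 15 1 = true := ex3_a k3_B05pp_023_s1 t7_B05pp_023_s1

theorem t9_B05pp_023_s1 : ∃ t, chk3 f_B05pp_023_s1 t 2 7 1 = true := ex3_b k2_B05pp_023_s1 t8_B05pp_023_s1

theorem t10_B05pp_023_s1 : ∃ t, chk3 f_B05pp_023_s1 t 2 3 1 = true := ex3_b k1_B05pp_023_s1 t9_B05pp_023_s1

theorem t11_B05pp_023_s1 : ∃ t, chk3 f_B05pp_023_s1 t 2 1 1 = true := ex3_b k0_B05pp_023_s1 t10_B05pp_023_s1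

theorem t12_B05pp_023_s1 : ∃ t, chk3 f_B05pp_023_s1 t 1 1 1 = true := ex3_a t11_B05pp_023_s1 k6_B05pp_023_s1

theorem c_B05pp_023_s1 : CertF 0 536870912 0 1230186008 1033476505 6710887 false true true .up 0 2 3
    ndB0q0 ndB5q3 pcB2 cut_B05pp_023_s1 xt_B05pp_023_s1 :=
  certF2 (fam := false) (s1 := true) (s2 := true) (a := 0) (b := 2) (c := 3) (cn := .up) (n1 := ndB0q0) (n2 := ndB5q3) (pc := pcB2) (cut := cut_B05pp_023_s1) (xt := xt_B05pp_023_s1) (P1 := 0) (W1 := 536870912) (P2 := 0) (W2 := 1230186008) (P3 := 1033476505) (W3 := 6710887)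
    rfl (fun _ => rfl) t12_B05pp_023_s1

theorem s_B05pp_023_s1 {κ x : ℝ} (hκ : κ * h0 = ken x) (hx : ((1033476505 : ℕ) : ℝ) / S ≤ x)
    (hx' : x ≤ (((1033476505 : ℕ) : ℝ) + (6710887 : ℕ)) / S) :
    AltB (VFD κ) PP tK tL pcB [⟨3, 0, 0, 1449551462⟩] 0 2 3 0 5 (sgb true) (sgb true) x :=
  strip_altBD (m := 1449551462) true rfl hκ (SH.κ0 hκ (SH.hx1 hx).le (SH.hx2 hx').le) (SH.hx1 hx).le (SH.hx2 hx') (covB00).cov (covB53).cov hx hx' c_B05pp_023_s1 cutB_nil ((okx hx hx').extB (T := tt) (sideB hx hx') hκ rfl rfl (.O 0 true) (.N 3 true) rfl)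

noncomputable def cut_B05pp_033_s1 : Cut := Cut.of [[⟨4, 0, 0, 1449551462⟩]]

noncomputable def f_B05pp_033_s1 : ℕ → ℕ → ℕ → ℕ → Bool := onCell 1610612736 536870912 0 1230186008 1033476505 6710887
    (rowF 2 false true true .pnn 0 3 3 (qsf 0 536870912 0 1230186008 3) ndB0q0 ndB5q3 pcB3 cut_B05pp_033_s1 Ext.none)

def k0_B05pp_033_s1 : ∃ t, chk3 f_B05pp_033_s1 t 1 1 1 = true :=
  ⟨(b (l 6) (l 6)), by decide +kernel⟩

theorem c_B05pp_033_s1 : CertF 0 536870912 0 1230186008 1033476505 6710887 false true true .pnn 0 3 3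
    ndB0q0 ndB5q3 pcB3 cut_B05pp_033_s1 Ext.none :=
  certF2 (fam := false) (s1 := true) (s2 := true) (a := 0) (b := 3) (c := 3) (cn := .pnn) (n1 := ndB0q0) (n2 := ndB5q3) (pc := pcB3) (cut := cut_B05pp_033_s1) (xt := Ext.none) (P1 := 0) (W1 := 536870912) (P2 := 0) (W2 := 1230186008) (P3 := 1033476505) (W3 := 6710887)
    rfl (fun _ => rfl) k0_B05pp_033_s1

theorem s_B05pp_033_s1 {κ x : ℝ} (hκ : κ * h0 = ken x) (hx : ((1033476505 : ℕ) : ℝ) / S ≤ x)
    (hx' : x ≤ (((1033476505 : ℕ) : ℝ) + (6710887 : ℕ)) / S) :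
    AltB (VFD κ) PP tK tL pcB [⟨3, 0, 0, 1449551462⟩] 0 3 3 0 5 (sgb true) (sgb true) x :=
  strip_altBD (m := 1449551462) true rfl hκ (SH.κ0 hκ (SH.hx1 hx).le (SH.hx2 hx').le) (SH.hx1 hx).le (SH.hx2 hx') (covB00).cov (covB53).cov hx hx' c_B05pp_033_s1 cutB_nil (noExt_B)

noncomputable def cut_B05pp_101_s1 : Cut := Cut.of [[⟨4, 0, 0, 1449551462⟩]]

noncomputable def f_B05pp_101_s1 : ℕ → ℕ → ℕ → ℕ → Bool := onCell 536870912 536870912 536870912 536870912 1033476505 6710887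
    (rowF 0 false true true .npn 1 0 1 (qsf 536870912 536870912 536870912 536870912 0) ndB0q1 ndB5q1 pcB0 cut_B05pp_101_s1 Ext.none)

def k0_B05pp_101_s1 : ∃ t, chk3 f_B05pp_101_s1 t 1 1 1 = true :=
  ⟨(a (l 3) (l 5)), by decide +kernel⟩

theorem c_B05pp_101_s1 : CertF 536870912 536870912 536870912 536870912 1033476505 6710887 false true true .npn 1 0 1
    ndB0q1 ndB5q1 pcB0 cut_B05pp_101_s1 Ext.none :=
  certF0 (fam := false) (s1 := true) (s2 := true) (a := 1) (b := 0) (c := 1) (cn := .npn) (n1 := ndB0q1) (n2 := ndB5q1) (pc := pcB0) (cut := cut_B05pp_101_s1) (xt := Ext.none) (P1 := 536870912) (W1 := 536870912) (P2 := 536870912) (W2 := 536870912) (P3 := 1033476505) (W3 := 6710887)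
    rfl k0_B05pp_101_s1

theorem s_B05pp_101_s1 {κ x : ℝ} (hκ : κ * h0 = ken x) (hx : ((1033476505 : ℕ) : ℝ) / S ≤ x)
    (hx' : x ≤ (((1033476505 : ℕ) : ℝ) + (6710887 : ℕ)) / S) :
    AltB (VFD κ) PP tK tL pcB [⟨3, 0, 0, 1449551462⟩] 1 0 1 0 5 (sgb true) (sgb true) x :=
  strip_altBD (m := 1449551462) true rfl hκ (SH.κ0 hκ (SH.hx1 hx).le (SH.hx2 hx').le) (SH.hx1 hx).le (SH.hx2 hx') (covB01).cov (covB51).cov hx hx' c_B05pp_101_s1 cutB_nil (noExt_B)

noncomputable def cut_B05pp_102_s1 : Cut := Cut.of [[⟨4, 0, 0, 1449551462⟩]]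

noncomputable def f_B05pp_102_s1 : ℕ → ℕ → ℕ → ℕ → Bool := onCell 536870912 536870912 1073741824 536870912 1033476505 6710887
    (rowF 0 false true true .npp 1 0 2 (qsf 536870912 536870912 1073741824 536870912 0) ndB0q1 ndB5q2 pcB0 cut_B05pp_102_s1 Ext.none)

def k0_B05pp_102_s1 : ∃ t, chk3 f_B05pp_102_s1 t 1 1 1 = true :=
  ⟨(a (l 3) (b (l 5) (l 3))), by decide +kernel⟩

theorem c_B05pp_102_s1 : CertF 536870912 536870912 1073741824 536870912 1033476505 6710887 false true true .npp 1 0 2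
    ndB0q1 ndB5q2 pcB0 cut_B05pp_102_s1 Ext.none :=
  certF0 (fam := false) (s1 := true) (s2 := true) (a := 1) (b := 0) (c := 2) (cn := .npp) (n1 := ndB0q1) (n2 := ndB5q2) (pc := pcB0) (cut := cut_B05pp_102_s1) (xt := Ext.none) (P1 := 536870912) (W1 := 536870912) (P2 := 1073741824) (W2 := 536870912) (P3 := 1033476505) (W3 := 6710887)
    rfl k0_B05pp_102_s1

theorem s_B05pp_102_s1 {κ x : ℝ} (hκ : κ * h0 = ken x) (hx : ((1033476505 : ℕ) : ℝ) / S ≤ x)
    (hx' : x ≤ (((1033476505 : ℕ) : ℝ) + (6710887 : ℕ)) / S) :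
    AltB (VFD κ) PP tK tL pcB [⟨3, 0, 0, 1449551462⟩] 1 0 2 0 5 (sgb true) (sgb true) x :=
  strip_altBD (m := 1449551462) true rfl hκ (SH.κ0 hκ (SH.hx1 hx).le (SH.hx2 hx').le) (SH.hx1 hx).le (SH.hx2 hx') (covB01).cov (covB52).cov hx hx' c_B05pp_102_s1 cutB_nil (noExt_B)

noncomputable def cut_B05pp_112_s1 : Cut := Cut.of [[⟨4, 0, 0, 1449551462⟩]]

noncomputable def f_B05pp_112_s1 : ℕ → ℕ → ℕ → ℕ → Bool := onCell 536870912 536870912 1073741824 536870912 1033476505 6710887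
    (rowF 0 false true true .dn 1 1 2 (qsf 536870912 536870912 1073741824 536870912 1) ndB0q1 ndB5q2 pcB1 cut_B05pp_112_s1 Ext.none)

def k0_B05pp_112_s1 : ∃ t, chk3 f_B05pp_112_s1 t 1 1 1 = true :=
  ⟨(a (l 3) (b (l 5) (l 3))), by decide +kernel⟩

theorem c_B05pp_112_s1 : CertF 536870912 536870912 1073741824 536870912 1033476505 6710887 false true true .dn 1 1 2
    ndB0q1 ndB5q2 pcB1 cut_B05pp_112_s1 Ext.none :=
  certF0 (fam := false) (s1 := true) (s2 := true) (a := 1) (b := 1) (c := 2) (cn := .dn) (n1 := ndB0q1) (n2 := ndB5q2) (pc := pcB1) (cut := cut_B05pp_112_s1) (xt := Ext.none) (P1 := 536870912) (W1 := 536870912) (P2 := 1073741824) (W2 := 536870912) (P3 := 1033476505) (W3 := 6710887)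
    rfl k0_B05pp_112_s1

theorem s_B05pp_112_s1 {κ x : ℝ} (hκ : κ * h0 = ken x) (hx : ((1033476505 : ℕ) : ℝ) / S ≤ x)
    (hx' : x ≤ (((1033476505 : ℕ) : ℝ) + (6710887 : ℕ)) / S) :
    AltB (VFD κ) PP tK tL pcB [⟨3, 0, 0, 1449551462⟩] 1 1 2 0 5 (sgb true) (sgb true) x :=
  strip_altBD (m := 1449551462) true rfl hκ (SH.κ0 hκ (SH.hx1 hx).le (SH.hx2 hx').le) (SH.hx1 hx).le (SH.hx2 hx') (covB01).cov (covB52).cov hx hx' c_B05pp_112_s1 cutB_nil (noExt_B)

noncomputable def cut_B05pp_113_s1 : Cut := Cut.of [[⟨4, 0, 0, 1449551462⟩], [⟨0, 1, 0, 20971520⟩, ⟨1, 1, 0, 20971520⟩, ⟨2, 2, 0, 1572864⟩]]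

noncomputable def f_B05pp_113_s1 : ℕ → ℕ → ℕ → ℕ → Bool := onCell 536870912 536870912 0 1230186008 1033476505 6710887
    (rowF 2 false true true .nn 1 1 3 (qsf 536870912 536870912 0 1230186008 1) ndB0q1 ndB5q3 pcB1 cut_B05pp_113_s1 Ext.none)

def k0_B05pp_113_s1 : ∃ t, chk3 f_B05pp_113_s1 t 1 1 1 = true :=
  ⟨(a (b (l 2) (a (b (l 2) (b (l 2) (l 3))) (b (b (l 2) (a (l 2) (l 3))) (l 3)))) (b (a (l 2) (b (a (l 2) (a (l 2) (b (b (a (l 2) (b (l 14) (l 3))) (l 3)) (l 3)))) (l 3))) (b (a (l 3) (l 3)) (l 3)))), by decide +kernel⟩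

theorem c_B05pp_113_s1 : CertF 536870912 536870912 0 1230186008 1033476505 6710887 false true true .nn 1 1 3
    ndB0q1 ndB5q3 pcB1 cut_B05pp_113_s1 Ext.none :=
  certF2 (fam := false) (s1 := true) (s2 := true) (a := 1) (b := 1) (c := 3) (cn := .nn) (n1 := ndB0q1) (n2 := ndB5q3) (pc := pcB1) (cut := cut_B05pp_113_s1) (xt := Ext.none) (P1 := 536870912) (W1 := 536870912) (P2 := 0) (W2 := 1230186008) (P3 := 1033476505) (W3 := 6710887)
    rfl (fun _ => rfl) k0_B05pp_113_s1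

theorem s_B05pp_113_s1 {κ x : ℝ} (hκ : κ * h0 = ken x) (hx : ((1033476505 : ℕ) : ℝ) / S ≤ x)
    (hx' : x ≤ (((1033476505 : ℕ) : ℝ) + (6710887 : ℕ)) / S)
    (H : CutB (VFD κ) PP tK tL pcB (Cut.of [[⟨0, 1, 0, 20971520⟩, ⟨1, 1, 0, 20971520⟩, ⟨2, 2, 0, 1572864⟩]]) 1 1 3 0 5 (sgb true) (sgb true) x) :
    AltB (VFD κ) PP tK tL pcB [⟨3, 0, 0, 1449551462⟩] 1 1 3 0 5 (sgb true) (sgb true) x :=
  strip_altBD (m := 1449551462) true rfl hκ (SH.κ0 hκ (SH.hx1 hx).le (SH.hx2 hx').le) (SH.hx1 hx).le (SH.hx2 hx') (covB01).cov (covB53).cov hx hx' c_B05pp_113_s1 H (noExt_B)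

noncomputable def cut_B05pp_123_s1 : Cut := Cut.of [[⟨4, 0, 0, 1449551462⟩], [⟨0, 1, 0, 20971520⟩, ⟨1, 1, 0, 20971520⟩, ⟨2, 2, 0, 1572864⟩]]

noncomputable def xt_B05pp_123_s1 : Ext := strExt dd false true true .u0 .s2 .u2 .npn 1 2 3 rfl rfl gf2 vv ndB0q1 ndB5q3

noncomputable def f_B05pp_123_s1 : ℕ → ℕ → ℕ → ℕ → Bool := onCell 1073741824 536870912 0 1230186008 1033476505 6710887
    (rowF 2 false true true .npn 1 2 3 (qsf 536870912 536870912 0 1230186008 2) ndB0q1 ndB5q3 pcB2 cut_B05pp_123_s1 xt_B05pp_123_s1)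

def k0_B05pp_123_s1 : ∃ t, chk3 f_B05pp_123_s1 t 16 16 1 = true :=
  ⟨(a (b (l 14) (b (l 14) (l 3))) (b (a (a (a (l 14) (l 16728920)) (l 16707768)) (l 16663584)) (a (b (a (a (l 14) (a (l 14) (b (b (l 16761920) (l 16756960)) (b (l 16760808) (b (l 16764208) (a (b (l 16766536) (l 16768320)) (l 16765880))))))) (b (b (l 16776464) (a (l 16758984) (l 16768528))) (a (b (l 16756792) (l 16760864)) (b (l 16756952) (l 16755272))))) (a (b (a (l 14) (b (a (l 524476559) (b (a (l 16760896) (l 16768504)) (l 524946575))) (l 524634255))) (l 3)) (b (a (b (a (b (a (b (l 16765912) (l 16767000)) (l 16765112)) (a (l 16770096) (b (l 16766552) (l 16768536)))) (b (l 16762632) (a (l 16765848) (l 16764056)))) (a (l 525330831) (b (a (l 16768880) (b (l 16765864) (l 16767192))) (l 525694351)))) (b (l 16759440) (a (b (l 16764536) (a (l 16767392) (l 16765736))) (l 16762496)))) (a (l 525407631) (b (a (l 525972879) (b (a (l 16755856) (l 16765040)) (a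 (l 16770048) (l 16767480)))) (l 526034831)))))) (b (a (b (l 16757664) (a (l 16676944) (l 16770936))) (l 16746784)) (a (b (a (l 16755256) (l 16731360)) (a (b (a (b (l 16762296) (a (l 16765512) (l 16763824))) (l 16759184)) (a (b (a (l 16768792) (l 16755384)) (l 526202255)) (b (l 16752096) (a (l 16766504) (l 16763080))))) (a (b (l 16755272) (l 16759112)) (l 16753168)))) (b (a (l 16670984) (l 16763936)) (a (l 16748304) (l 16745432)))))))), by decide +kernel⟩

def k1_B05pp_123_s1 : ∃ t, chk3 f_B05pp_123_s1 t 16 17 1 = true :=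
  ⟨(a (l 3) (b (a (a (l 3) (b (a (l 3) (l 525850143)) (l 3))) (b (a (b (a (l 525487759) (b (a (b (a (l 16763136) (l 16760304)) (l 16765824)) (b (l 16756904) (a (l 16759960) (l 16757456)))) (a (l 523425167) (b (a (l 16764624) (l 16760344)) (l 522002575))))) (l 522532127)) (b (a (b (l 16751456) (a (b (a (l 16756888) (l 16754424)) (a (l 16761280) (l 16756688))) (l 16742136))) (l 16745560)) (a (b (a (l 520556175) (b (a (l 16757456) (l 16753240)) (l 16760768))) (l 519759759)) (b (a (b (l 16749784) (a (l 16753248) (l 16749872))) (l 16745936)) (a (l 517724559) (b (a (l 16749336) (l 16746464)) (a (l 16755312) (l 16749600)))))))) (a (l 3) (a (l 519483535) (l 516724879))))) (l 3))), by decide +kernel⟩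

def k2_B05pp_123_s1 : ∃ t, chk3 f_B05pp_123_s1 t 16 9 1 = true :=
  ⟨(l 3), by decide +kernel⟩

def k3_B05pp_123_s1 : ∃ t, chk3 f_B05pp_123_s1 t 17 16 1 = true :=
  ⟨(a (b (a (b (l 16572336) (l 16639520)) (b (l 16540792) (l 16587952))) (a (b (l 16707696) (a (b (l 16770512) (l 16709504)) (l 16763712))) (l 16693760))) (b (a (b (l 16510440) (l 16523664)) (l 16459056)) (a (l 16623728) (l 16521968)))), by decide +kernel⟩

def k4_B05pp_123_s1 : ∃ t, chk3 f_B05pp_123_s1 t 34 34 1 = true :=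
  ⟨(a (b (a (b (a (l 16739552) (l 16736304)) (a (a (a (b (l 16743168) (l 16734952)) (l 16742240)) (l 16739336)) (l 16734472))) (b (l 16656376) (l 16727160))) (a (b (a (b (a (b (a (l 16750840) (l 16745152)) (l 16754768)) (b (l 16741048) (a (l 16745688) (l 16740968)))) (l 514013839)) (b (l 16735496) (a (b (a (l 16740632) (l 16736896)) (l 16723520)) (b (l 16733024) (a (l 16735944) (l 16732720)))))) (a (l 513811087) (b (a (l 511745167) (b (a (l 16742792) (l 16735728)) (l 16747440))) (l 510853007)))) (b (l 16723552) (a (b (a (b (l 16730528) (a (l 16736856) (l 16730472))) (l 16726136)) (a (l 508612751) (b (a (l 16730384) (l 16725488)) (l 16735632)))) (b (l 16719488) (a (b (l 16721120) (a (l 16724496) (l 16720544))) (l 16716832))))))) (b (a (b (l 16757848) (l 16684728)) (l 16766264)) (a (b (l 16713880) (l 16709672)) (b (l 16635496) (l 16707928))))), by decide +kernel⟩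

def k5_B05pp_123_s1 : ∃ t, chk3 f_B05pp_123_s1 t 34 35 1 = true :=
  ⟨(a (b (a (b (l 512028559) (l 3)) (b (a (l 507578767) (b (a (b (a (l 16732992) (l 16724512)) (l 16738328)) (b (a (l 16719000) (l 16715496)) (a (l 16725968) (l 16718168)))) (l 504403743))) (a (l 507261983) (l 504129567)))) (l 3)) (b (a (b (a (b (a (l 16713640) (l 16709648)) (a (b (a (l 16718720) (l 16713184)) (l 16724984)) (b (l 16709504) (a (l 16713080) (l 16709392))))) (l 16706400)) (a (b (a (l 502091663) (b (l 16697352) (l 16729248))) (l 501535887)) (b (a (b (a (l 16709096) (l 16706520)) (a (l 16717128) (l 16709720))) (l 16706400)) (a (l 16707976) (b (a (l 16711744) (l 16706912)) (l 16718728)))))) (b (l 16705544) (a (b (l 16704672) (a (b (l 16704952) (a (l 16708216) (l 16705616))) (l 16704880))) (l 16706888)))) (a (a (b (l 501396879) (l 3)) (b (l 500761119) (a (l 500624015) (l 500730399)))) (b (b (a (a (b (l 16714296) (l 16724816)) (b (l 16706760)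 (a (l 16714560) (l 16708680)))) (l 16708592)) (a (l 501828495) (a (b (a (l 16711856) (l 16708720)) (l 16718816)) (b (l 16709064) (a (l 16711392) (l 16710528)))))) (a (l 501708175) (b (a (l 16712072) (b (l 16717536) (l 16726624))) (l 504498719))))))), by decide +kernel⟩

def k6_B05pp_123_s1 : ∃ t, chk3 f_B05pp_123_s1 t 35 17 1 = true :=
  ⟨(b (a (b (l 16726192) (a (b (l 16753456) (l 16641904)) (l 16766288))) (l 16658024)) (a (b (a (b (l 16716416) (l 16715616)) (b (l 16741888) (l 16733680))) (a (b (l 16716136) (a (b (a (b (l 16713624) (a (l 16719552) (l 16715832))) (l 16716320)) (a (l 16729936) (b (l 16708368) (l 16725464)))) (b (l 16720984) (a (b (l 16719376) (l 16721120)) (l 16723024))))) (l 16733600))) (b (a (l 16689832) (l 16725056)) (a (l 16754616) (b (l 16763816) (l 16771672)))))), by decide +kernel⟩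

def k7_B05pp_123_s1 : ∃ t, chk3 f_B05pp_123_s1 t 17 9 1 = true :=
  ⟨(b (b (a (a (l 3) (a (l 3) (b (a (b (l 501584927) (l 3)) (b (l 504432671) (l 503992351))) (l 3)))) (a (a (b (b (a (l 508649503) (b (a (b (l 16725656) (l 16732736)) (b (l 16724064) (l 16726800))) (l 512719503))) (a (l 508422943) (l 512565647))) (a (l 3) (l 512263311))) (b (b (a (b (l 16729704) (a (b (l 16729104) (l 16733792)) (l 16732256))) (l 16738120)) (a (b (a (l 16742480) (l 16737632)) (l 516736399)) (b (a (l 16737272) (l 16740384)) (a (l 16744344) (l 16742784))))) (a (b (l 516611727) (l 516447631)) (b (l 520921887) (l 520798239))))) (b (a (b (l 16753336) (a (l 16748240) (l 16758240))) (l 16773664)) (a (b (a (b (a (l 16748768) (l 16750880)) (l 16755096)) (b (l 16757920) (l 16716736))) (a (l 525217423) (a (l 16752080) (b (l 16761768) (l 16765120))))) (b (l 16774280) (a (a (l 16724528) (l 16771032)) (l 16771496))))))) (a (l 3) (a (a (l 3) (b (b (a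 (l 3) (l 520621599)) (l 3)) (l 3))) (b (a (b (l 527242527) (c (l 527549215) (l 525926943))) (b (a (l 533443871) (b (l 16772584) (l 16772720))) (a (l 533402143) (l 535214735)))) (a (l 3) (a (l 533329295) (l 535135887))))))) (l 3)), by decide +kernel⟩

def k8_B05pp_123_s1 : ∃ t, chk3 f_B05pp_123_s1 t 9 8 1 = true :=
  ⟨(a (b (b (l 16301768) (a (a (l 16336024) (l 16328432)) (l 16215888))) (b (a (l 16327104) (l 16105072)) (a (a (b (l 16643728) (a (l 16727720) (l 16675168))) (l 16478744)) (a (l 16452320) (l 16344552))))) (b (l 16033168) (b (a (l 16094816) (l 15969656)) (a (l 16192584) (l 16016928))))), by decide +kernel⟩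

def k9_B05pp_123_s1 : ∃ t, chk3 f_B05pp_123_s1 t 18 18 1 = true :=
  ⟨(a (b (a (b (a (l 16748112) (l 16632624)) (l 16739640)) (b (a (l 16594296) (l 16625048)) (a (l 16700128) (l 16668112)))) (a (b (a (a (b (l 16677592) (a (l 16767816) (l 16719416))) (b (l 16748608) (b (l 16750416) (l 16752144)))) (l 16730568)) (a (a (l 530358159) (b (b (l 16713152) (l 16718504)) (l 527860111))) (a (b (b (l 16740576) (l 16701680)) (l 524508047)) (b (l 16728240) (b (l 16689536) (l 16738192)))))) (b (l 16692288) (a (b (l 16708256) (a (b (l 16716312) (l 16719264)) (l 16704152))) (l 16683968))))) (b (a (b (l 16542712) (a (l 16629744) (l 16577000))) (l 16464872)) (a (b (a (l 16652904) (l 16621864)) (l 16646888)) (b (l 16475192) (a (l 16609648) (l 16580752)))))), by decide +kernel⟩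

def k10_B05pp_123_s1 : ∃ t, chk3 f_B05pp_123_s1 t 18 19 1 = true :=
  ⟨(a (b (a (a (b (l 528944927) (l 3)) (b (l 522693007) (l 522485791))) (b (b (a (a (a (l 16734592) (l 16702016)) (b (l 16707096) (a (l 16715760) (l 16705760)))) (l 16687760)) (a (l 516614543) (a (b (l 16698264) (l 16683408)) (l 16685584)))) (a (l 516387103) (b (a (l 16680016) (b (a (l 16695760) (l 16685064)) (l 16700672))) (l 511029903))))) (a (l 3) (a (b (l 516119183) (l 3)) (l 510594335)))) (b (a (a (b (l 16664312) (b (a (b (l 16673872) (l 16678048)) (l 16662632)) (a (b (a (l 16692696) (l 16678328)) (l 16698600)) (b (l 16666272) (a (l 16676040) (l 16665480)))))) (l 16643384)) (l 16610288)) (a (b (a (b (a (l 507462031) (a (l 16697048) (l 16681704))) (l 506202767)) (b (a (b (l 16659160) (a (l 16673888) (l 16659400))) (l 16647352)) (a (l 16688008) (b (a (l 16657272) (l 16647672)) (l 16663448))))) (a (l 505914911) (l 502329119))) (b (a (b (l 16630120)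 (a (l 16641488) (l 16628792))) (l 16612120)) (a (b (a (b (a (l 16655400) (l 16642408)) (l 16663200)) (b (l 16632192) (a (l 16640472) (l 16632312)))) (a (l 16686416) (b (a (l 16654896) (l 16639128)) (l 16662696)))) (b (l 16618584) (a (b (l 16627992) (a (l 16638424) (l 16628336))) (l 16618576)))))))), by decide +kernel⟩

def k11_B05pp_123_s1 : ∃ t, chk3 f_B05pp_123_s1 t 19 9 1 = true :=
  ⟨(b (a (b (l 16145240) (a (b (l 16456888) (l 16520424)) (l 16393024))) (b (l 16137672) (l 16266336))) (a (b (a (b (l 16473536) (l 16576064)) (b (l 16490536) (l 16533872))) (a (l 16506864) (l 16564072))) (b (a (l 16438408) (l 16363472)) (a (b (l 16524072) (l 16553464)) (b (l 16467112) (l 16530800)))))), by decide +kernel⟩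

def k12_B05pp_123_s1 : ∃ t, chk3 f_B05pp_123_s1 t 5 4 1 = true :=
  ⟨(b (a (a (b (l 15867352) (a (b (l 15889784) (l 15910144)) (a (l 15866080) (a (l 15854656) (l 15849264))))) (b (l 6) (l 15831200))) (l 6)) (a (a (b (a (b (l 16007640) (l 16135936)) (a (b (l 15937560) (l 16064320)) (a (l 15964200) (b (l 15902496) (l 16007120))))) (a (b (l 16270976) (l 16325200)) (a (l 16260256) (a (l 16217144) (b (l 16122344) (l 16241712)))))) (b (b (l 15878352) (l 15957336)) (l 16135128))) (b (b (l 15846496) (l 15911640)) (a (l 16078432) (l 16036576))))), by decide +kernel⟩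

def k13_B05pp_123_s1 : ∃ t, chk3 f_B05pp_123_s1 t 3 4 1 = true :=
  ⟨(a (l 6) (l 6)), by decide +kernel⟩

def k14_B05pp_123_s1 : ∃ t, chk3 f_B05pp_123_s1 t 8 5 1 = true :=
  ⟨(l 3), by decide +kernel⟩

def k15_B05pp_123_s1 : ∃ t, chk3 f_B05pp_123_s1 t 18 5 1 = true :=
  ⟨(a (l 3) (b (b (b (a (a (b (l 505584671) (l 3)) (b (l 501880463) (l 501512079))) (a (l 498979103) (b (b (a (l 16612112) (b (l 16624672) (a (l 16639080) (l 16625800)))) (l 497579919)) (l 497136015)))) (a (l 3) (a (l 3) (b (l 496577679) (l 3))))) (l 3)) (l 3))), by decide +kernel⟩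

def k16_B05pp_123_s1 : ∃ t, chk3 f_B05pp_123_s1 t 19 5 1 = true :=
  ⟨(b (a (b (a (b (b (a (b (l 16612160) (a (b (l 16580640) (l 16590072)) (l 16614672))) (l 16600560)) (a (b (a (l 16656144) (b (a (l 16625584) (l 16617160)) (l 16633688))) (l 496597135)) (b (a (l 16614576) (l 16606752)) (a (b (l 16596608) (l 16636608)) (l 16615744))))) (a (b (l 496083855) (l 495358607)) (b (b (a (l 16659352) (b (l 16625240) (l 16639640))) (l 496889231)) (l 496223631)))) (b (b (l 16584824) (l 16599552)) (a (b (b (a (l 16618336) (l 16611960)) (a (b (l 16629112) (l 16643408)) (b (l 16618440) (l 16624424)))) (b (a (l 16664376) (l 16640720)) (l 498257183))) (b (l 16612584) (b (a (b (l 16624224) (l 16630472)) (l 16624176)) (a (l 16647208) (b (l 16631576) (l 16637856)))))))) (a (a (l 3) (b (b (l 495025039) (b (l 493807391) (l 3))) (l 3))) (b (a (b (a (l 496486687) (l 498670623)) (b (l 496935823) (l 496477071))) (b (a (l 500760463) (b (l 16654016)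 (l 16677280))) (l 500994447))) (a (b (l 495679375) (l 3)) (l 499803279))))) (b (b (a (l 16583336) (l 16493448)) (a (a (b (l 16611200) (l 16628240)) (l 16620136)) (l 16623368))) (a (b (a (b (a (b (l 16642528) (l 16659976)) (b (l 16639640) (l 16648896))) (l 505167503)) (b (l 16644304) (a (b (l 16655072) (l 16670520)) (b (l 16653168) (l 16661280))))) (b (l 506599711) (l 505869855))) (b (a (l 16652248) (l 16654176)) (a (b (a (b (l 16667448) (l 16681040)) (l 16670936)) (a (l 16703592) (l 16691936))) (b (l 16670728) (a (b (l 16679776) (l 16689976)) (l 16683368)))))))) (a (l 3) (b (a (b (b (l 505046047) (l 504139551)) (l 3)) (b (a (l 510858639) (b (a (l 16708888) (l 16699672)) (l 514542735))) (a (l 509250335) (l 513464351)))) (a (l 3) (b (a (l 3) (l 511292703)) (l 3)))))), by decide +kernel⟩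

def k17_B05pp_123_s1 : ∃ t, chk3 f_B05pp_123_s1 t 5 5 1 = true :=
  ⟨(a (b (a (b (a (b (a (b (l 16547456) (l 16590408)) (l 16524232)) (a (l 16628224) (b (l 16609304) (l 16639720)))) (a (b (l 16459016) (l 16502464)) (a (l 16468400) (b (l 16360992) (l 16474576))))) (b (a (a (l 16657896) (l 16664232)) (a (a (l 16667224) (l 16661000)) (a (l 16636520) (l 16493368)))) (a (a (l 16679888) (l 16685472)) (a (l 16692072) (a (l 16691616) (a (l 16594496) (l 16567880))))))) (b (b (l 16315040) (l 16429200)) (b (l 16532480) (l 16628024)))) (a (a (b (a (b (a (b (a (l 16695592) (l 16695440)) (a (l 16714456) (l 16707976))) (b (l 16696360) (l 16707464))) (a (l 516637327) (b (a (l 16720672) (l 16717240)) (l 521018511)))) (b (l 16704920) (a (b (l 16718360) (a (l 16727488) (l 16727304))) (l 16724144)))) (b (a (a (l 516102943) (b (l 520437903) (l 519832463))) (a (l 524051999) (b (l 16736792) (l 16744712)))) (a (a (l 3) (b (l 519208847) (l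 518572943))) (a (b (l 523257743) (l 522769039)) (l 526975519))))) (a (b (b (l 16710096) (l 16726504)) (b (a (l 16742000) (l 16742352)) (a (b (l 16752192) (l 16737488)) (b (l 16753200) (l 16759968))))) (b (a (l 16638344) (b (a (l 16715312) (b (l 16623464) (l 16721864))) (a (l 16729960) (l 16730920)))) (a (b (l 16742568) (l 16755248)) (b (a (l 16741960) (l 16741992)) (a (l 16753032) (l 16751904))))))) (b (b (a (l 16714144) (l 16714568)) (a (l 16745408) (l 16765904))) (a (b (l 16754800) (l 16762480)) (l 16770872))))) (b (b (a (l 16333336) (l 16288520)) (a (l 16470576) (l 16517424))) (a (b (b (l 16699832) (l 16769416)) (a (l 16744352) (l 16724560))) (b (l 16712784) (b (l 16711488) (l 16690168)))))), by decide +kernel⟩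

def k18_B05pp_123_s1 : ∃ t, chk3 f_B05pp_123_s1 t 3 5 1 = true :=
  ⟨(a (a (b (b (l 6) (l 16270288)) (b (l 16567416) (a (l 16702816) (l 16729544)))) (l 6)) (l 6)), by decide +kernel⟩

def k19_B05pp_123_s1 : ∃ t, chk3 f_B05pp_123_s1 t 4 6 1 = true :=
  ⟨(l 3), by decide +kernel⟩

def k20_B05pp_123_s1 : ∃ t, chk3 f_B05pp_123_s1 t 40 6 1 = true :=
  ⟨(b (b (a (l 3) (b (a (b (l 522283151) (l 3)) (l 525535775)) (a (l 3) (b (l 525804175) (l 3))))) (l 3)) (l 3)), by decide +kernel⟩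

def k21_B05pp_123_s1 : ∃ t, chk3 f_B05pp_123_s1 t 41 6 1 = true :=
  ⟨(a (b (a (b (b (b (l 530314271) (l 530208543)) (b (l 530147615) (l 530140191))) (b (b (l 530196511) (l 3)) (l 3))) (b (b (b (l 16743784) (a (l 16767448) (l 16769520))) (b (l 533842719) (l 533952031))) (b (b (l 534062111) (a (l 533300879) (l 534751119))) (b (a (l 533387151) (l 534872207)) (a (l 3) (l 535083551)))))) (l 3)) (a (b (b (b (a (l 16768072) (l 16766504)) (a (b (l 16773032) (l 16774448)) (b (l 16773040) (l 16775264)))) (b (a (b (l 16775432) (a (l 16776072) (l 16776312))) (b (l 16776328) (l 16776208))) (a (b (a (l 535872655) (l 16776736)) (a (l 536046623) (l 535831439))) (b (l 16776120) (l 536185743))))) (b (a (l 535949391) (l 536023119)) (l 3))) (b (b (b (a (l 16763496) (l 16677352)) (a (a (l 16772904) (l 16770672)) (l 16768288))) (a (b (b (l 16754360) (a (l 16775072) (l 16775736))) (b (a (l 16775320) (l 16775040)) (l 16775856))) (b (b (l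 16772048) (l 16773928)) (a (a (b (a (l 16775632) (l 16774808)) (a (l 16775512) (a (l 16775888) (l 16775568)))) (l 16774592)) (l 16774480))))) (b (b (b (a (l 16776504) (a (a (a (l 16776200) (b (l 16776088) (l 16776280))) (l 16776152)) (l 16775984))) (a (l 536142671) (l 16776328))) (a (l 535999567) (b (l 16776440) (a (l 16776696) (l 16776448))))) (b (a (l 535778639) (a (a (l 535815727) (b (b (l 16776728) (l 16776800)) (b (l 16776864) (l 16776920)))) (l 535828831))) (b (a (l 535585103) (a (a (l 535622959) (b (l 16776968) (b (l 16777000) (l 16777024)))) (l 535634271))) (a (l 3) (a (a (l 535476015) (b (b (l 16777040) (l 16777056)) (b (l 16777064) (b (l 16777064) (l 16777072))))) (l 535486047))))))))), by decide +kernel⟩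

def k22_B05pp_123_s1 : ∃ t, chk3 f_B05pp_123_s1 t 21 6 1 = true :=
  ⟨(b (b (a (b (l 16768144) (l 16729656)) (b (l 16766824) (l 16767384))) (b (a (a (l 16772416) (l 16772960)) (l 16768704)) (a (b (l 16772920) (l 16773448)) (l 16769792)))) (b (b (a (b (l 16774064) (l 16774312)) (l 16768824)) (l 536233055)) (l 535837535))), by decide +kernel⟩

def k23_B05pp_123_s1 : ∃ t, chk3 f_B05pp_123_s1 t 11 6 1 = true :=
  ⟨(b (a (b (l 16657968) (l 16753496)) (b (l 16706688) (l 16725920))) (b (a (a (l 16763872) (l 16755648)) (l 16741832)) (a (l 536000607) (l 16756432)))), by decide +kernel⟩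

def k24_B05pp_123_s1 : ∃ t, chk3 f_B05pp_123_s1 t 3 6 1 = true :=
  ⟨(a (b (a (b (a (l 16664624) (l 16632848)) (l 16677136)) (a (b (l 16616088) (l 16628448)) (l 6))) (b (a (a (l 16722096) (l 16706864)) (l 16677552)) (a (a (l 16743184) (l 16731608)) (l 1)))) (l 6)), by decide +kernel⟩

def k25_B05pp_123_s1 : ∃ t, chk3 f_B05pp_123_s1 t 1 7 1 = true :=
  ⟨(a (b (a (l 3) (a (a (a (l 3) (a (l 3) (a (b (l 3) (b (l 534404927) (l 533867583))) (b (b (a (l 3) (a (a (l 535223087) (b (b (b (b (l 16777072) (l 16777072)) (b (l 16777072) (l 16777072))) (b (b (l 16777064) (l 16777064)) (b (l 16777056) (l 16777048)))) (b (b (l 16777040) (l 16777016)) (b (l 16776984) (l 16776952))))) (l 535231071))) (a (l 534841407) (a (a (l 534823727) (b (b (b (l 16776904) (l 16776856)) (l 16776760)) (b (l 16776608) (l 16776408)))) (l 534829407)))) (b (a (l 534367295) (b (b (l 16776008) (l 16775704)) (b (l 16775336) (l 16774912)))) (b (a (l 533975871)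 (l 16774120)) (l 1))))))) (b (l 535105375) (b (l 534379103) (l 532860767)))) (b (a (l 535149663) (b (l 16739128) (l 1))) (l 1)))) (a (l 3) (a (a (a (b (l 3) (l 1)) (l 1)) (l 1)) (l 1)))) (l 1)), by decide +kernel⟩

theorem t26_B05pp_123_s1 : ∃ t, chk3 f_B05pp_123_s1 t 20 6 1 = true := ex3_a k20_B05pp_123_s1 k21_B05pp_123_s1

theorem t27_B05pp_123_s1 : ∃ t, chk3 f_B05pp_123_s1 t 10 6 1 = true := ex3_a t26_B05pp_123_s1 k22_B05pp_123_s1

theorem t28_B05pp_123_s1 : ∃ t, chk3 f_B05pp_123_s1 t 5 6 1 = true := ex3_a t27_B05pp_123_s1 k23_B05pp_123_s1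

theorem t29_B05pp_123_s1 : ∃ t, chk3 f_B05pp_123_s1 t 2 6 1 = true := ex3_a k19_B05pp_123_s1 t28_B05pp_123_s1

theorem t30_B05pp_123_s1 : ∃ t, chk3 f_B05pp_123_s1 t 1 6 1 = true := ex3_a t29_B05pp_123_s1 k24_B05pp_123_s1

theorem t31_B05pp_123_s1 : ∃ t, chk3 f_B05pp_123_s1 t 1 3 1 = true := ex3_b t30_B05pp_123_s1 k25_B05pp_123_s1

theorem t32_B05pp_123_s1 : ∃ t, chk3 f_B05pp_123_s1 t 9 5 1 = true := ex3_a k15_B05pp_123_s1 k16_B05pp_123_s1

theorem t33_B05pp_123_s1 : ∃ t, chk3 f_B05pp_123_s1 t 4 5 1 = true := ex3_a k14_B05pp_123_s1 t32_B05pp_123_s1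

theorem t34_B05pp_123_s1 : ∃ t, chk3 f_B05pp_123_s1 t 2 5 1 = true := ex3_a t33_B05pp_123_s1 k17_B05pp_123_s1

theorem t35_B05pp_123_s1 : ∃ t, chk3 f_B05pp_123_s1 t 1 5 1 = true := ex3_a t34_B05pp_123_s1 k18_B05pp_123_s1

theorem t36_B05pp_123_s1 : ∃ t, chk3 f_B05pp_123_s1 t 18 9 1 = true := ex3_b k9_B05pp_123_s1 k10_B05pp_123_s1

theorem t37_B05pp_123_s1 : ∃ t, chk3 f_B05pp_123_s1 t 9 9 1 = true := ex3_a t36_B05pp_123_s1 k11_B05pp_123_s1

theorem t38_B05pp_123_s1 : ∃ t, chk3 f_B05pp_123_s1 t 9 4 1 = true := ex3_b k8_B05pp_123_s1 t37_B05pp_123_s1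

theorem t39_B05pp_123_s1 : ∃ t, chk3 f_B05pp_123_s1 t 34 17 1 = true := ex3_b k4_B05pp_123_s1 k5_B05pp_123_s1

theorem t40_B05pp_123_s1 : ∃ t, chk3 f_B05pp_123_s1 t 17 17 1 = true := ex3_a t39_B05pp_123_s1 k6_B05pp_123_s1

theorem t41_B05pp_123_s1 : ∃ t, chk3 f_B05pp_123_s1 t 17 8 1 = true := ex3_b k3_B05pp_123_s1 t40_B05pp_123_s1

theorem t42_B05pp_123_s1 : ∃ t, chk3 f_B05pp_123_s1 t 17 4 1 = true := ex3_b t41_B05pp_123_s1 k7_B05pp_123_s1

theorem t43_B05pp_123_s1 : ∃ t, chk3 f_B05pp_123_s1 t 16 8 1 = true := ex3_b k0_B05pp_123_s1 k1_B05pp_123_s1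

theorem t44_B05pp_123_s1 : ∃ t, chk3 f_B05pp_123_s1 t 16 4 1 = true := ex3_b t43_B05pp_123_s1 k2_B05pp_123_s1

theorem t45_B05pp_123_s1 : ∃ t, chk3 f_B05pp_123_s1 t 8 4 1 = true := ex3_a t44_B05pp_123_s1 t42_B05pp_123_s1

theorem t46_B05pp_123_s1 : ∃ t, chk3 f_B05pp_123_s1 t 4 4 1 = true := ex3_a t45_B05pp_123_s1 t38_B05pp_123_s1

theorem t47_B05pp_123_s1 : ∃ t, chk3 f_B05pp_123_s1 t 2 4 1 = true := ex3_a t46_B05pp_123_s1 k12_B05pp_123_s1

theorem t48_B05pp_123_s1 : ∃ t, chk3 f_B05pp_123_s1 t 1 4 1 = true := ex3_a t47_B05pp_123_s1 k13_B05pp_123_s1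

theorem t49_B05pp_123_s1 : ∃ t, chk3 f_B05pp_123_s1 t 1 2 1 = true := ex3_b t48_B05pp_123_s1 t35_B05pp_123_s1

theorem t50_B05pp_123_s1 : ∃ t, chk3 f_B05pp_123_s1 t 1 1 1 = true := ex3_b t49_B05pp_123_s1 t31_B05pp_123_s1

theorem c_B05pp_123_s1 : CertF 536870912 536870912 0 1230186008 1033476505 6710887 false true true .npn 1 2 3
    ndB0q1 ndB5q3 pcB2 cut_B05pp_123_s1 xt_B05pp_123_s1 :=
  certF2 (fam := false) (s1 := true) (s2 := true) (a := 1) (b := 2) (c := 3) (cn := .npn) (n1 := ndB0q1) (n2 := ndB5q3) (pc := pcB2) (cut := cut_B05pp_123_s1) (xt := xt_B05pp_123_s1) (P1 := 536870912) (W1 := 536870912) (P2 := 0) (W2 := 1230186008) (P3 := 1033476505) (W3 := 6710887)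
    rfl (fun _ => rfl) t50_B05pp_123_s1

theorem s_B05pp_123_s1 {κ x : ℝ} (hκ : κ * h0 = ken x) (hx : ((1033476505 : ℕ) : ℝ) / S ≤ x)
    (hx' : x ≤ (((1033476505 : ℕ) : ℝ) + (6710887 : ℕ)) / S)
    (H : CutB (VFD κ) PP tK tL pcB (Cut.of [[⟨0, 1, 0, 20971520⟩, ⟨1, 1, 0, 20971520⟩, ⟨2, 2, 0, 1572864⟩]]) 1 2 3 0 5 (sgb true) (sgb true) x) :
    AltB (VFD κ) PP tK tL pcB [⟨3, 0, 0, 1449551462⟩] 1 2 3 0 5 (sgb true) (sgb true) x :=
  strip_altBD (m := 1449551462) true rfl hκ (SH.κ0 hκ (SH.hx1 hx).le (SH.hx2 hx').le) (SH.hx1 hx).le (SH.hx2 hx') (covB01).cov (covB53).cov hx hx' c_B05pp_123_s1 H ((okx hx hx').extB (T := tt) (sideB hx hx') hκ rfl rfl (.O 1 true) (.N 3 true) rfl)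

noncomputable def cut_B05pp_133_s1 : Cut := Cut.of [[⟨4, 0, 0, 1449551462⟩]]

noncomputable def f_B05pp_133_s1 : ℕ → ℕ → ℕ → ℕ → Bool := onCell 1610612736 536870912 0 1230186008 1033476505 6710887
    (rowF 2 false true true .dn 1 3 3 (qsf 536870912 536870912 0 1230186008 3) ndB0q1 ndB5q3 pcB3 cut_B05pp_133_s1 Ext.none)

def k0_B05pp_133_s1 : ∃ t, chk3 f_B05pp_133_s1 t 1 1 1 = true :=
  ⟨(b (l 6) (l 1)), by decide +kernel⟩

theorem c_B05pp_133_s1 : CertF 536870912 536870912 0 1230186008 1033476505 6710887 false true true .dn 1 3 3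
    ndB0q1 ndB5q3 pcB3 cut_B05pp_133_s1 Ext.none :=
  certF2 (fam := false) (s1 := true) (s2 := true) (a := 1) (b := 3) (c := 3) (cn := .dn) (n1 := ndB0q1) (n2 := ndB5q3) (pc := pcB3) (cut := cut_B05pp_133_s1) (xt := Ext.none) (P1 := 536870912) (W1 := 536870912) (P2 := 0) (W2 := 1230186008) (P3 := 1033476505) (W3 := 6710887)
    rfl (fun _ => rfl) k0_B05pp_133_s1

theorem s_B05pp_133_s1 {κ x : ℝ} (hκ : κ * h0 = ken x) (hx : ((1033476505 : ℕ) : ℝ) / S ≤ x)
    (hx' : x ≤ (((1033476505 : ℕ) : ℝ) + (6710887 : ℕ)) / S) :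
    AltB (VFD κ) PP tK tL pcB [⟨3, 0, 0, 1449551462⟩] 1 3 3 0 5 (sgb true) (sgb true) x :=
  strip_altBD (m := 1449551462) true rfl hκ (SH.κ0 hκ (SH.hx1 hx).le (SH.hx2 hx').le) (SH.hx1 hx).le (SH.hx2 hx') (covB01).cov (covB53).cov hx hx' c_B05pp_133_s1 cutB_nil (noExt_B)

noncomputable def cut_B05pp_202_s1 : Cut := Cut.of [[⟨4, 0, 0, 1449551462⟩]]

noncomputable def f_B05pp_202_s1 : ℕ → ℕ → ℕ → ℕ → Bool := onCell 0 536870912 1073741824 536870912 1033476505 6710887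
    (rowF 0 false true true .pp 2 0 2 (qsf 0 536870912 1073741824 536870912 0) ndB0q2 ndB5q2 pcB0 cut_B05pp_202_s1 Ext.none)

def k0_B05pp_202_s1 : ∃ t, chk3 f_B05pp_202_s1 t 1 1 1 = true :=
  ⟨(l 5), by decide +kernel⟩

theorem c_B05pp_202_s1 : CertF 0 536870912 1073741824 536870912 1033476505 6710887 false true true .pp 2 0 2
    ndB0q2 ndB5q2 pcB0 cut_B05pp_202_s1 Ext.none :=
  certF0 (fam := false) (s1 := true) (s2 := true) (a := 2) (b := 0) (c := 2) (cn := .pp) (n1 := ndB0q2) (n2 := ndB5q2) (pc := pcB0) (cut := cut_B05pp_202_s1) (xt := Ext.none) (P1 := 0) (W1 := 536870912) (P2 := 1073741824) (W2 := 536870912) (P3 := 1033476505) (W3 := 6710887)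
    rfl k0_B05pp_202_s1

theorem s_B05pp_202_s1 {κ x : ℝ} (hκ : κ * h0 = ken x) (hx : ((1033476505 : ℕ) : ℝ) / S ≤ x)
    (hx' : x ≤ (((1033476505 : ℕ) : ℝ) + (6710887 : ℕ)) / S) :
    AltB (VFD κ) PP tK tL pcB [⟨3, 0, 0, 1449551462⟩] 2 0 2 0 5 (sgb true) (sgb true) x :=
  strip_altBD (m := 1449551462) true rfl hκ (SH.κ0 hκ (SH.hx1 hx).le (SH.hx2 hx').le) (SH.hx1 hx).le (SH.hx2 hx') (covB02).cov (covB52).cov hx hx' c_B05pp_202_s1 cutB_nil (noExt_B)

noncomputable def cut_B05pp_203_s1 : Cut := Cut.of [[⟨4, 0, 0, 1449551462⟩]]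

noncomputable def f_B05pp_203_s1 : ℕ → ℕ → ℕ → ℕ → Bool := onCell 0 536870912 0 1230186008 1033476505 6710887
    (rowF 0 false true true .up 2 0 3 (qsf 0 536870912 0 1230186008 0) ndB0q2 ndB5q3 pcB0 cut_B05pp_203_s1 Ext.none)

def k0_B05pp_203_s1 : ∃ t, chk3 f_B05pp_203_s1 t 1 1 1 = true :=
  ⟨(b (l 2) (a (l 5) (b (l 2) (l 3)))), by decide +kernel⟩

theorem c_B05pp_203_s1 : CertF 0 536870912 0 1230186008 1033476505 6710887 false true true .up 2 0 3
    ndB0q2 ndB5q3 pcB0 cut_B05pp_203_s1 Ext.none :=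
  certF0 (fam := false) (s1 := true) (s2 := true) (a := 2) (b := 0) (c := 3) (cn := .up) (n1 := ndB0q2) (n2 := ndB5q3) (pc := pcB0) (cut := cut_B05pp_203_s1) (xt := Ext.none) (P1 := 0) (W1 := 536870912) (P2 := 0) (W2 := 1230186008) (P3 := 1033476505) (W3 := 6710887)
    rfl k0_B05pp_203_s1

theorem s_B05pp_203_s1 {κ x : ℝ} (hκ : κ * h0 = ken x) (hx : ((1033476505 : ℕ) : ℝ) / S ≤ x)
    (hx' : x ≤ (((1033476505 : ℕ) : ℝ) + (6710887 : ℕ)) / S) :
    AltB (VFD κ) PP tK tL pcB [⟨3, 0, 0, 1449551462⟩] 2 0 3 0 5 (sgb true) (sgb true) x :=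
  strip_altBD (m := 1449551462) true rfl hκ (SH.κ0 hκ (SH.hx1 hx).le (SH.hx2 hx').le) (SH.hx1 hx).le (SH.hx2 hx') (covB02).cov (covB53).cov hx hx' c_B05pp_203_s1 cutB_nil (noExt_B)

noncomputable def cut_B05pp_213_s1 : Cut := Cut.of [[⟨4, 0, 0, 1449551462⟩], [⟨0, 1, 0, 20971520⟩, ⟨1, 1, 0, 20971520⟩, ⟨2, 2, 0, 1572864⟩]]

noncomputable def f_B05pp_213_s1 : ℕ → ℕ → ℕ → ℕ → Bool := onCell 0 536870912 0 1230186008 1033476505 6710887
    (rowF 0 false true true .pnn 2 1 3 (qsf 0 536870912 0 1230186008 1) ndB0q2 ndB5q3 pcB1 cut_B05pp_213_s1 Ext.none)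

def k0_B05pp_213_s1 : ∃ t, chk3 f_B05pp_213_s1 t 1 1 1 = true :=
  ⟨(a (b (l 3) (l 5)) (b (b (a (l 3) (a (l 3) (b (a (l 3) (b (b (a (l 3) (l 14)) (l 3)) (l 3))) (l 3)))) (l 3)) (b (l 3) (l 3)))), by decide +kernel⟩

theorem c_B05pp_213_s1 : CertF 0 536870912 0 1230186008 1033476505 6710887 false true true .pnn 2 1 3
    ndB0q2 ndB5q3 pcB1 cut_B05pp_213_s1 Ext.none :=
  certF0 (fam := false) (s1 := true) (s2 := true) (a := 2) (b := 1) (c := 3) (cn := .pnn) (n1 := ndB0q2) (n2 := ndB5q3) (pc := pcB1) (cut := cut_B05pp_213_s1) (xt := Ext.none) (P1 := 0) (W1 := 536870912) (P2 := 0) (W2 := 1230186008) (P3 := 1033476505) (W3 := 6710887)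
    rfl k0_B05pp_213_s1

theorem s_B05pp_213_s1 {κ x : ℝ} (hκ : κ * h0 = ken x) (hx : ((1033476505 : ℕ) : ℝ) / S ≤ x)
    (hx' : x ≤ (((1033476505 : ℕ) : ℝ) + (6710887 : ℕ)) / S)
    (H : CutB (VFD κ) PP tK tL pcB (Cut.of [[⟨0, 1, 0, 20971520⟩, ⟨1, 1, 0, 20971520⟩, ⟨2, 2, 0, 1572864⟩]]) 2 1 3 0 5 (sgb true) (sgb true) x) :
    AltB (VFD κ) PP tK tL pcB [⟨3, 0, 0, 1449551462⟩] 2 1 3 0 5 (sgb true) (sgb true) x :=
  strip_altBD (m := 1449551462) true rfl hκ (SH.κ0 hκ (SH.hx1 hx).le (SH.hx2 hx').le) (SH.hx1 hx).le (SH.hx2 hx') (covB02).cov (covB53).cov hx hx' c_B05pp_213_s1 H (noExt_B)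

noncomputable def cut_B05pm_001_s1 : Cut := Cut.of [[⟨4, 0, 0, 1449551462⟩]]

noncomputable def f_B05pm_001_s1 : ℕ → ℕ → ℕ → ℕ → Bool := onCell 0 536870912 536870912 536870912 1033476505 6710887
    (rowF 0 false true false .up 0 0 1 (qsf 0 536870912 536870912 536870912 0) ndB0q0 ndB5q1 pcB0 cut_B05pm_001_s1 Ext.none)

def k0_B05pm_001_s1 : ∃ t, chk3 f_B05pm_001_s1 t 1 1 1 = true :=
  ⟨(l 4), by decide +kernel⟩

theorem c_B05pm_001_s1 : CertF 0 536870912 536870912 536870912 1033476505 6710887 false true false .up 0 0 1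
    ndB0q0 ndB5q1 pcB0 cut_B05pm_001_s1 Ext.none :=
  certF0 (fam := false) (s1 := true) (s2 := false) (a := 0) (b := 0) (c := 1) (cn := .up) (n1 := ndB0q0) (n2 := ndB5q1) (pc := pcB0) (cut := cut_B05pm_001_s1) (xt := Ext.none) (P1 := 0) (W1 := 536870912) (P2 := 536870912) (W2 := 536870912) (P3 := 1033476505) (W3 := 6710887)
    rfl k0_B05pm_001_s1

theorem s_B05pm_001_s1 {κ x : ℝ} (hκ : κ * h0 = ken x) (hx : ((1033476505 : ℕ) : ℝ) / S ≤ x)
    (hx' : x ≤ (((1033476505 : ℕ) : ℝ) + (6710887 : ℕ)) / S) :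
    AltB (VFD κ) PP tK tL pcB [⟨3, 0, 0, 1449551462⟩] 0 0 1 0 5 (sgb true) (sgb false) x :=
  strip_altBD (m := 1449551462) true rfl hκ (SH.κ0 hκ (SH.hx1 hx).le (SH.hx2 hx').le) (SH.hx1 hx).le (SH.hx2 hx') (covB00).cov (covB51).cov hx hx' c_B05pm_001_s1 cutB_nil (noExt_B)

noncomputable def cut_B05pm_011_s1 : Cut := Cut.of [[⟨4, 0, 0, 1449551462⟩]]

noncomputable def f_B05pm_011_s1 : ℕ → ℕ → ℕ → ℕ → Bool := onCell 0 536870912 536870912 536870912 1033476505 6710887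
    (rowF 0 false true false .pnn 0 1 1 (qsf 0 536870912 536870912 536870912 1) ndB0q0 ndB5q1 pcB1 cut_B05pm_011_s1 Ext.none)

def k0_B05pm_011_s1 : ∃ t, chk3 f_B05pm_011_s1 t 1 1 1 = true :=
  ⟨(l 4), by decide +kernel⟩

theorem c_B05pm_011_s1 : CertF 0 536870912 536870912 536870912 1033476505 6710887 false true false .pnn 0 1 1
    ndB0q0 ndB5q1 pcB1 cut_B05pm_011_s1 Ext.none :=
  certF0 (fam := false) (s1 := true) (s2 := false) (a := 0) (b := 1) (c := 1) (cn := .pnn) (n1 := ndB0q0) (n2 := ndB5q1) (pc := pcB1) (cut := cut_B05pm_011_s1) (xt := Ext.none) (P1 := 0) (W1 := 536870912) (P2 := 536870912) (W2 := 536870912) (P3 := 1033476505) (W3 := 6710887)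
    rfl k0_B05pm_011_s1

theorem s_B05pm_011_s1 {κ x : ℝ} (hκ : κ * h0 = ken x) (hx : ((1033476505 : ℕ) : ℝ) / S ≤ x)
    (hx' : x ≤ (((1033476505 : ℕ) : ℝ) + (6710887 : ℕ)) / S) :
    AltB (VFD κ) PP tK tL pcB [⟨3, 0, 0, 1449551462⟩] 0 1 1 0 5 (sgb true) (sgb false) x :=
  strip_altBD (m := 1449551462) true rfl hκ (SH.κ0 hκ (SH.hx1 hx).le (SH.hx2 hx').le) (SH.hx1 hx).le (SH.hx2 hx') (covB00).cov (covB51).cov hx hx' c_B05pm_011_s1 cutB_nil (noExt_B)

noncomputable def cut_B05pm_012_s1 : Cut := Cut.of [[⟨4, 0, 0, 1449551462⟩]]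

noncomputable def f_B05pm_012_s1 : ℕ → ℕ → ℕ → ℕ → Bool := onCell 0 536870912 1073741824 536870912 1033476505 6710887
    (rowF 0 false true false .pnp 0 1 2 (qsf 0 536870912 1073741824 536870912 1) ndB0q0 ndB5q2 pcB1 cut_B05pm_012_s1 Ext.none)

def k0_B05pm_012_s1 : ∃ t, chk3 f_B05pm_012_s1 t 1 1 1 = true :=
  ⟨(l 4), by decide +kernel⟩

theorem c_B05pm_012_s1 : CertF 0 536870912 1073741824 536870912 1033476505 6710887 false true false .pnp 0 1 2
    ndB0q0 ndB5q2 pcB1 cut_B05pm_012_s1 Ext.none :=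
  certF0 (fam := false) (s1 := true) (s2 := false) (a := 0) (b := 1) (c := 2) (cn := .pnp) (n1 := ndB0q0) (n2 := ndB5q2) (pc := pcB1) (cut := cut_B05pm_012_s1) (xt := Ext.none) (P1 := 0) (W1 := 536870912) (P2 := 1073741824) (W2 := 536870912) (P3 := 1033476505) (W3 := 6710887)
    rfl k0_B05pm_012_s1

theorem s_B05pm_012_s1 {κ x : ℝ} (hκ : κ * h0 = ken x) (hx : ((1033476505 : ℕ) : ℝ) / S ≤ x)
    (hx' : x ≤ (((1033476505 : ℕ) : ℝ) + (6710887 : ℕ)) / S) :
    AltB (VFD κ) PP tK tL pcB [⟨3, 0, 0, 1449551462⟩] 0 1 2 0 5 (sgb true) (sgb false) x :=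
  strip_altBD (m := 1449551462) true rfl hκ (SH.κ0 hκ (SH.hx1 hx).le (SH.hx2 hx').le) (SH.hx1 hx).le (SH.hx2 hx') (covB00).cov (covB52).cov hx hx' c_B05pm_012_s1 cutB_nil (noExt_B)

noncomputable def cut_B05pm_022_s1 : Cut := Cut.of [[⟨4, 0, 0, 1449551462⟩]]

noncomputable def f_B05pm_022_s1 : ℕ → ℕ → ℕ → ℕ → Bool := onCell 0 536870912 1073741824 536870912 1033476505 6710887
    (rowF 0 false true false .pp 0 2 2 (qsf 0 536870912 1073741824 536870912 2) ndB0q0 ndB5q2 pcB2 cut_B05pm_022_s1 Ext.none)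

def k0_B05pm_022_s1 : ∃ t, chk3 f_B05pm_022_s1 t 1 1 1 = true :=
  ⟨(l 4), by decide +kernel⟩

theorem c_B05pm_022_s1 : CertF 0 536870912 1073741824 536870912 1033476505 6710887 false true false .pp 0 2 2
    ndB0q0 ndB5q2 pcB2 cut_B05pm_022_s1 Ext.none :=
  certF0 (fam := false) (s1 := true) (s2 := false) (a := 0) (b := 2) (c := 2) (cn := .pp) (n1 := ndB0q0) (n2 := ndB5q2) (pc := pcB2) (cut := cut_B05pm_022_s1) (xt := Ext.none) (P1 := 0) (W1 := 536870912) (P2 := 1073741824) (W2 := 536870912) (P3 := 1033476505) (W3 := 6710887)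
    rfl k0_B05pm_022_s1

theorem s_B05pm_022_s1 {κ x : ℝ} (hκ : κ * h0 = ken x) (hx : ((1033476505 : ℕ) : ℝ) / S ≤ x)
    (hx' : x ≤ (((1033476505 : ℕ) : ℝ) + (6710887 : ℕ)) / S) :
    AltB (VFD κ) PP tK tL pcB [⟨3, 0, 0, 1449551462⟩] 0 2 2 0 5 (sgb true) (sgb false) x :=
  strip_altBD (m := 1449551462) true rfl hκ (SH.κ0 hκ (SH.hx1 hx).le (SH.hx2 hx').le) (SH.hx1 hx).le (SH.hx2 hx') (covB00).cov (covB52).cov hx hx' c_B05pm_022_s1 cutB_nil (noExt_B)

noncomputable def cut_B05pm_023_s1 : Cut := Cut.of [[⟨4, 0, 0, 1449551462⟩]]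

noncomputable def f_B05pm_023_s1 : ℕ → ℕ → ℕ → ℕ → Bool := onCell 0 536870912 0 1230186008 1033476505 6710887
    (rowF 0 false true false .up 0 2 3 (qsf 0 536870912 0 1230186008 2) ndB0q0 ndB5q3 pcB2 cut_B05pm_023_s1 Ext.none)

def k0_B05pm_023_s1 : ∃ t, chk3 f_B05pm_023_s1 t 1 1 1 = true :=
  ⟨(l 6), by decide +kernel⟩

theorem c_B05pm_023_s1 : CertF 0 536870912 0 1230186008 1033476505 6710887 false true false .up 0 2 3
    ndB0q0 ndB5q3 pcB2 cut_B05pm_023_s1 Ext.none :=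
  certF0 (fam := false) (s1 := true) (s2 := false) (a := 0) (b := 2) (c := 3) (cn := .up) (n1 := ndB0q0) (n2 := ndB5q3) (pc := pcB2) (cut := cut_B05pm_023_s1) (xt := Ext.none) (P1 := 0) (W1 := 536870912) (P2 := 0) (W2 := 1230186008) (P3 := 1033476505) (W3 := 6710887)
    rfl k0_B05pm_023_s1

theorem s_B05pm_023_s1 {κ x : ℝ} (hκ : κ * h0 = ken x) (hx : ((1033476505 : ℕ) : ℝ) / S ≤ x)
    (hx' : x ≤ (((1033476505 : ℕ) : ℝ) + (6710887 : ℕ)) / S) :
    AltB (VFD κ) PP tK tL pcB [⟨3, 0, 0, 1449551462⟩] 0 2 3 0 5 (sgb true) (sgb false) x :=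
  strip_altBD (m := 1449551462) true rfl hκ (SH.κ0 hκ (SH.hx1 hx).le (SH.hx2 hx').le) (SH.hx1 hx).le (SH.hx2 hx') (covB00).cov (covB53).cov hx hx' c_B05pm_023_s1 cutB_nil (noExt_B)

noncomputable def cut_B05pm_033_s1 : Cut := Cut.of [[⟨4, 0, 0, 1449551462⟩]]

noncomputable def f_B05pm_033_s1 : ℕ → ℕ → ℕ → ℕ → Bool := onCell 0 536870912 0 1230186008 1033476505 6710887
    (rowF 0 false true false .pnn 0 3 3 (qsf 0 536870912 0 1230186008 3) ndB0q0 ndB5q3 pcB3 cut_B05pm_033_s1 Ext.none)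

def k0_B05pm_033_s1 : ∃ t, chk3 f_B05pm_033_s1 t 1 1 1 = true :=
  ⟨(l 6), by decide +kernel⟩

theorem c_B05pm_033_s1 : CertF 0 536870912 0 1230186008 1033476505 6710887 false true false .pnn 0 3 3
    ndB0q0 ndB5q3 pcB3 cut_B05pm_033_s1 Ext.none :=
  certF0 (fam := false) (s1 := true) (s2 := false) (a := 0) (b := 3) (c := 3) (cn := .pnn) (n1 := ndB0q0) (n2 := ndB5q3) (pc := pcB3) (cut := cut_B05pm_033_s1) (xt := Ext.none) (P1 := 0) (W1 := 536870912) (P2 := 0) (W2 := 1230186008) (P3 := 1033476505) (W3 := 6710887)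
    rfl k0_B05pm_033_s1

theorem s_B05pm_033_s1 {κ x : ℝ} (hκ : κ * h0 = ken x) (hx : ((1033476505 : ℕ) : ℝ) / S ≤ x)
    (hx' : x ≤ (((1033476505 : ℕ) : ℝ) + (6710887 : ℕ)) / S) :
    AltB (VFD κ) PP tK tL pcB [⟨3, 0, 0, 1449551462⟩] 0 3 3 0 5 (sgb true) (sgb false) x :=
  strip_altBD (m := 1449551462) true rfl hκ (SH.κ0 hκ (SH.hx1 hx).le (SH.hx2 hx').le) (SH.hx1 hx).le (SH.hx2 hx') (covB00).cov (covB53).cov hx hx' c_B05pm_033_s1 cutB_nil (noExt_B)

noncomputable def cut_B05pm_101_s1 : Cut := Cut.of [[⟨4, 0, 0, 1449551462⟩]]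

noncomputable def f_B05pm_101_s1 : ℕ → ℕ → ℕ → ℕ → Bool := onCell 536870912 536870912 536870912 536870912 1033476505 6710887
    (rowF 0 false true false .npn 1 0 1 (qsf 536870912 536870912 536870912 536870912 0) ndB0q1 ndB5q1 pcB0 cut_B05pm_101_s1 Ext.none)

def k0_B05pm_101_s1 : ∃ t, chk3 f_B05pm_101_s1 t 1 1 1 = true :=
  ⟨(l 4), by decide +kernel⟩

theorem c_B05pm_101_s1 : CertF 536870912 536870912 536870912 536870912 1033476505 6710887 false true false .npn 1 0 1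
    ndB0q1 ndB5q1 pcB0 cut_B05pm_101_s1 Ext.none :=
  certF0 (fam := false) (s1 := true) (s2 := false) (a := 1) (b := 0) (c := 1) (cn := .npn) (n1 := ndB0q1) (n2 := ndB5q1) (pc := pcB0) (cut := cut_B05pm_101_s1) (xt := Ext.none) (P1 := 536870912) (W1 := 536870912) (P2 := 536870912) (W2 := 536870912) (P3 := 1033476505) (W3 := 6710887)
    rfl k0_B05pm_101_s1

theorem s_B05pm_101_s1 {κ x : ℝ} (hκ : κ * h0 = ken x) (hx : ((1033476505 : ℕ) : ℝ) / S ≤ x)
    (hx' : x ≤ (((1033476505 : ℕ) : ℝ) + (6710887 : ℕ)) / S) :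
    AltB (VFD κ) PP tK tL pcB [⟨3, 0, 0, 1449551462⟩] 1 0 1 0 5 (sgb true) (sgb false) x :=
  strip_altBD (m := 1449551462) true rfl hκ (SH.κ0 hκ (SH.hx1 hx).le (SH.hx2 hx').le) (SH.hx1 hx).le (SH.hx2 hx') (covB01).cov (covB51).cov hx hx' c_B05pm_101_s1 cutB_nil (noExt_B)

noncomputable def cut_B05pm_102_s1 : Cut := Cut.of [[⟨4, 0, 0, 1449551462⟩]]

noncomputable def f_B05pm_102_s1 : ℕ → ℕ → ℕ → ℕ → Bool := onCell 536870912 536870912 1073741824 536870912 1033476505 6710887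
    (rowF 0 false true false .npp 1 0 2 (qsf 536870912 536870912 1073741824 536870912 0) ndB0q1 ndB5q2 pcB0 cut_B05pm_102_s1 Ext.none)

def k0_B05pm_102_s1 : ∃ t, chk3 f_B05pm_102_s1 t 1 1 1 = true :=
  ⟨(l 6), by decide +kernel⟩

theorem c_B05pm_102_s1 : CertF 536870912 536870912 1073741824 536870912 1033476505 6710887 false true false .npp 1 0 2
    ndB0q1 ndB5q2 pcB0 cut_B05pm_102_s1 Ext.none :=
  certF0 (fam := false) (s1 := true) (s2 := false) (a := 1) (b := 0) (c := 2) (cn := .npp) (n1 := ndB0q1) (n2 := ndB5q2) (pc := pcB0) (cut := cut_B05pm_102_s1) (xt := Ext.none) (P1 := 536870912) (W1 := 536870912) (P2 := 1073741824) (W2 := 536870912) (P3 := 1033476505) (W3 := 6710887)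
    rfl k0_B05pm_102_s1

theorem s_B05pm_102_s1 {κ x : ℝ} (hκ : κ * h0 = ken x) (hx : ((1033476505 : ℕ) : ℝ) / S ≤ x)
    (hx' : x ≤ (((1033476505 : ℕ) : ℝ) + (6710887 : ℕ)) / S) :
    AltB (VFD κ) PP tK tL pcB [⟨3, 0, 0, 1449551462⟩] 1 0 2 0 5 (sgb true) (sgb false) x :=
  strip_altBD (m := 1449551462) true rfl hκ (SH.κ0 hκ (SH.hx1 hx).le (SH.hx2 hx').le) (SH.hx1 hx).le (SH.hx2 hx') (covB01).cov (covB52).cov hx hx' c_B05pm_102_s1 cutB_nil (noExt_B)

noncomputable def cut_B05pm_112_s1 : Cut := Cut.of [[⟨4, 0, 0, 1449551462⟩]]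

noncomputable def f_B05pm_112_s1 : ℕ → ℕ → ℕ → ℕ → Bool := onCell 536870912 536870912 1073741824 536870912 1033476505 6710887
    (rowF 0 false true false .dn 1 1 2 (qsf 536870912 536870912 1073741824 536870912 1) ndB0q1 ndB5q2 pcB1 cut_B05pm_112_s1 Ext.none)

def k0_B05pm_112_s1 : ∃ t, chk3 f_B05pm_112_s1 t 1 1 1 = true :=
  ⟨(l 6), by decide +kernel⟩

theorem c_B05pm_112_s1 : CertF 536870912 536870912 1073741824 536870912 1033476505 6710887 false true false .dn 1 1 2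
    ndB0q1 ndB5q2 pcB1 cut_B05pm_112_s1 Ext.none :=
  certF0 (fam := false) (s1 := true) (s2 := false) (a := 1) (b := 1) (c := 2) (cn := .dn) (n1 := ndB0q1) (n2 := ndB5q2) (pc := pcB1) (cut := cut_B05pm_112_s1) (xt := Ext.none) (P1 := 536870912) (W1 := 536870912) (P2 := 1073741824) (W2 := 536870912) (P3 := 1033476505) (W3 := 6710887)
    rfl k0_B05pm_112_s1

theorem s_B05pm_112_s1 {κ x : ℝ} (hκ : κ * h0 = ken x) (hx : ((1033476505 : ℕ) : ℝ) / S ≤ x)
    (hx' : x ≤ (((1033476505 : ℕ) : ℝ) + (6710887 : ℕ)) / S) :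
    AltB (VFD κ) PP tK tL pcB [⟨3, 0, 0, 1449551462⟩] 1 1 2 0 5 (sgb true) (sgb false) x :=
  strip_altBD (m := 1449551462) true rfl hκ (SH.κ0 hκ (SH.hx1 hx).le (SH.hx2 hx').le) (SH.hx1 hx).le (SH.hx2 hx') (covB01).cov (covB52).cov hx hx' c_B05pm_112_s1 cutB_nil (noExt_B)

noncomputable def cut_B05pm_113_s1 : Cut := Cut.of [[⟨4, 0, 0, 1449551462⟩], [⟨0, 1, 0, 20971520⟩, ⟨1, 1, 0, 20971520⟩, ⟨2, 2, 0, 1572864⟩]]

noncomputable def f_B05pm_113_s1 : ℕ → ℕ → ℕ → ℕ → Bool := onCell 536870912 536870912 0 1230186008 1033476505 6710887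
    (rowF 0 false true false .nn 1 1 3 (qsf 536870912 536870912 0 1230186008 1) ndB0q1 ndB5q3 pcB1 cut_B05pm_113_s1 Ext.none)

def k0_B05pm_113_s1 : ∃ t, chk3 f_B05pm_113_s1 t 1 1 1 = true :=
  ⟨(a (b (l 2) (l 6)) (b (a (l 2) (b (a (l 2) (a (l 2) (a (b (l 2) (b (l 2) (l 16576712))) (b (b (b (l 14) (a (l 2) (l 16730064))) (b (l 16686144) (l 16680696))) (b (b (l 16676120) (l 16671096)) (l 16686416)))))) (a (l 6) (b (a (l 6) (b (l 16667800) (l 6))) (l 6))))) (l 6))), by decide +kernel⟩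

theorem c_B05pm_113_s1 : CertF 536870912 536870912 0 1230186008 1033476505 6710887 false true false .nn 1 1 3
    ndB0q1 ndB5q3 pcB1 cut_B05pm_113_s1 Ext.none :=
  certF0 (fam := false) (s1 := true) (s2 := false) (a := 1) (b := 1) (c := 3) (cn := .nn) (n1 := ndB0q1) (n2 := ndB5q3) (pc := pcB1) (cut := cut_B05pm_113_s1) (xt := Ext.none) (P1 := 536870912) (W1 := 536870912) (P2 := 0) (W2 := 1230186008) (P3 := 1033476505) (W3 := 6710887)
    rfl k0_B05pm_113_s1

theorem s_B05pm_113_s1 {κ x : ℝ} (hκ : κ * h0 = ken x) (hx : ((1033476505 : ℕ) : ℝ) / S ≤ x)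
    (hx' : x ≤ (((1033476505 : ℕ) : ℝ) + (6710887 : ℕ)) / S)
    (H : CutB (VFD κ) PP tK tL pcB (Cut.of [[⟨0, 1, 0, 20971520⟩, ⟨1, 1, 0, 20971520⟩, ⟨2, 2, 0, 1572864⟩]]) 1 1 3 0 5 (sgb true) (sgb false) x) :
    AltB (VFD κ) PP tK tL pcB [⟨3, 0, 0, 1449551462⟩] 1 1 3 0 5 (sgb true) (sgb false) x :=
  strip_altBD (m := 1449551462) true rfl hκ (SH.κ0 hκ (SH.hx1 hx).le (SH.hx2 hx').le) (SH.hx1 hx).le (SH.hx2 hx') (covB01).cov (covB53).cov hx hx' c_B05pm_113_s1 H (noExt_B)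

noncomputable def cut_B05pm_123_s1 : Cut := Cut.of [[⟨4, 0, 0, 1449551462⟩], [⟨0, 1, 0, 20971520⟩, ⟨1, 1, 0, 20971520⟩, ⟨2, 2, 0, 1572864⟩]]

noncomputable def f_B05pm_123_s1 : ℕ → ℕ → ℕ → ℕ → Bool := onCell 536870912 536870912 0 1230186008 1033476505 6710887
    (rowF 0 false true false .npn 1 2 3 (qsf 536870912 536870912 0 1230186008 2) ndB0q1 ndB5q3 pcB2 cut_B05pm_123_s1 Ext.none)

def k0_B05pm_123_s1 : ∃ t, chk3 f_B05pm_123_s1 t 1 1 1 = true :=
  ⟨(a (b (l 6) (l 6)) (b (b (a (b (l 6) (l 6)) (a (b (a (b (l 16048816) (l 6)) (b (l 16082232) (a (l 16288480) (l 16365192)))) (l 6)) (b (a (b (a (l 16530168) (b (a (l 16555608) (l 16561568)) (l 16598688))) (a (b (l 16578064) (l 16529736)) (b (l 16638560) (l 16682368)))) (b (a (b (a (b (l 16579088) (l 16579776)) (b (l 16630536) (l 16602368))) (l 16622344)) (b (l 14) (b (l 14) (l 16667856)))) (b (a (l 16670112) (l 16709776)) (a (l 16721360) (l 16683744))))) (a (b (a (b (l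 16586864) (l 6)) (b (l 16722728) (l 16693768))) (a (l 6) (l 16649296))) (b (b (a (l 16768384) (l 16669672)) (a (l 16781240) (l 16719736))) (a (l 16662040) (l 369400363591))))))) (a (l 6) (a (l 6) (a (l 6) (a (l 6) (l 1)))))) (l 6))), by decide +kernel⟩

theorem c_B05pm_123_s1 : CertF 536870912 536870912 0 1230186008 1033476505 6710887 false true false .npn 1 2 3
    ndB0q1 ndB5q3 pcB2 cut_B05pm_123_s1 Ext.none :=
  certF0 (fam := false) (s1 := true) (s2 := false) (a := 1) (b := 2) (c := 3) (cn := .npn) (n1 := ndB0q1) (n2 := ndB5q3) (pc := pcB2) (cut := cut_B05pm_123_s1) (xt := Ext.none) (P1 := 536870912) (W1 := 536870912) (P2 := 0) (W2 := 1230186008) (P3 := 1033476505) (W3 := 6710887)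
    rfl k0_B05pm_123_s1

theorem s_B05pm_123_s1 {κ x : ℝ} (hκ : κ * h0 = ken x) (hx : ((1033476505 : ℕ) : ℝ) / S ≤ x)
    (hx' : x ≤ (((1033476505 : ℕ) : ℝ) + (6710887 : ℕ)) / S)
    (H : CutB (VFD κ) PP tK tL pcB (Cut.of [[⟨0, 1, 0, 20971520⟩, ⟨1, 1, 0, 20971520⟩, ⟨2, 2, 0, 1572864⟩]]) 1 2 3 0 5 (sgb true) (sgb false) x) :
    AltB (VFD κ) PP tK tL pcB [⟨3, 0, 0, 1449551462⟩] 1 2 3 0 5 (sgb true) (sgb false) x :=
  strip_altBD (m := 1449551462) true rfl hκ (SH.κ0 hκ (SH.hx1 hx).le (SH.hx2 hx').le) (SH.hx1 hx).le (SH.hx2 hx') (covB01).cov (covB53).cov hx hx' c_B05pm_123_s1 H (noExt_B)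

noncomputable def cut_B05pm_133_s1 : Cut := Cut.of [[⟨4, 0, 0, 1449551462⟩]]

noncomputable def f_B05pm_133_s1 : ℕ → ℕ → ℕ → ℕ → Bool := onCell 1610612736 536870912 0 1230186008 1033476505 6710887
    (rowF 2 false true false .dn 1 3 3 (qsf 536870912 536870912 0 1230186008 3) ndB0q1 ndB5q3 pcB3 cut_B05pm_133_s1 Ext.none)

def k0_B05pm_133_s1 : ∃ t, chk3 f_B05pm_133_s1 t 1 1 1 = true :=
  ⟨(l 6), by decide +kernel⟩

theorem c_B05pm_133_s1 : CertF 536870912 536870912 0 1230186008 1033476505 6710887 false true false .dn 1 3 3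
    ndB0q1 ndB5q3 pcB3 cut_B05pm_133_s1 Ext.none :=
  certF2 (fam := false) (s1 := true) (s2 := false) (a := 1) (b := 3) (c := 3) (cn := .dn) (n1 := ndB0q1) (n2 := ndB5q3) (pc := pcB3) (cut := cut_B05pm_133_s1) (xt := Ext.none) (P1 := 536870912) (W1 := 536870912) (P2 := 0) (W2 := 1230186008) (P3 := 1033476505) (W3 := 6710887)
    rfl (fun _ => rfl) k0_B05pm_133_s1

theorem s_B05pm_133_s1 {κ x : ℝ} (hκ : κ * h0 = ken x) (hx : ((1033476505 : ℕ) : ℝ) / S ≤ x)
    (hx' : x ≤ (((1033476505 : ℕ) : ℝ) + (6710887 : ℕ)) / S) :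
    AltB (VFD κ) PP tK tL pcB [⟨3, 0, 0, 1449551462⟩] 1 3 3 0 5 (sgb true) (sgb false) x :=
  strip_altBD (m := 1449551462) true rfl hκ (SH.κ0 hκ (SH.hx1 hx).le (SH.hx2 hx').le) (SH.hx1 hx).le (SH.hx2 hx') (covB01).cov (covB53).cov hx hx' c_B05pm_133_s1 cutB_nil (noExt_B)

noncomputable def cut_B05pm_202_s1 : Cut := Cut.of [[⟨4, 0, 0, 1449551462⟩]]

noncomputable def f_B05pm_202_s1 : ℕ → ℕ → ℕ → ℕ → Bool := onCell 0 536870912 1073741824 536870912 1033476505 6710887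
    (rowF 0 false true false .pp 2 0 2 (qsf 0 536870912 1073741824 536870912 0) ndB0q2 ndB5q2 pcB0 cut_B05pm_202_s1 Ext.none)

def k0_B05pm_202_s1 : ∃ t, chk3 f_B05pm_202_s1 t 1 1 1 = true :=
  ⟨(a (b (l 6) (b (l 6) (l 6))) (l 6)), by decide +kernel⟩

theorem c_B05pm_202_s1 : CertF 0 536870912 1073741824 536870912 1033476505 6710887 false true false .pp 2 0 2
    ndB0q2 ndB5q2 pcB0 cut_B05pm_202_s1 Ext.none :=
  certF0 (fam := false) (s1 := true) (s2 := false) (a := 2) (b := 0) (c := 2) (cn := .pp) (n1 := ndB0q2) (n2 := ndB5q2) (pc := pcB0) (cut := cut_B05pm_202_s1) (xt := Ext.none) (P1 := 0) (W1 := 536870912) (P2 := 1073741824) (W2 := 536870912) (P3 := 1033476505) (W3 := 6710887)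
    rfl k0_B05pm_202_s1

theorem s_B05pm_202_s1 {κ x : ℝ} (hκ : κ * h0 = ken x) (hx : ((1033476505 : ℕ) : ℝ) / S ≤ x)
    (hx' : x ≤ (((1033476505 : ℕ) : ℝ) + (6710887 : ℕ)) / S) :
    AltB (VFD κ) PP tK tL pcB [⟨3, 0, 0, 1449551462⟩] 2 0 2 0 5 (sgb true) (sgb false) x :=
  strip_altBD (m := 1449551462) true rfl hκ (SH.κ0 hκ (SH.hx1 hx).le (SH.hx2 hx').le) (SH.hx1 hx).le (SH.hx2 hx') (covB02).cov (covB52).cov hx hx' c_B05pm_202_s1 cutB_nil (noExt_B)

noncomputable def cut_B05pm_203_s1 : Cut := Cut.of [[⟨4, 0, 0, 1449551462⟩]]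

noncomputable def f_B05pm_203_s1 : ℕ → ℕ → ℕ → ℕ → Bool := onCell 0 536870912 0 1230186008 1033476505 6710887
    (rowF 0 false true false .up 2 0 3 (qsf 0 536870912 0 1230186008 0) ndB0q2 ndB5q3 pcB0 cut_B05pm_203_s1 Ext.none)

def k0_B05pm_203_s1 : ∃ t, chk3 f_B05pm_203_s1 t 1 1 1 = true :=
  ⟨(b (l 2) (b (l 2) (a (b (b (l 2) (a (a (b (l 2) (a (l 16679704) (l 16588472))) (l 162771778311)) (a (l 16172824) (l 6)))) (a (b (a (b (a (l 16644952) (l 16512112)) (l 16512000)) (b (l 16314928) (l 6))) (a (b (l 16459848) (a (l 16480696) (l 6))) (l 6))) (l 6))) (l 6)))), by decide +kernel⟩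

theorem c_B05pm_203_s1 : CertF 0 536870912 0 1230186008 1033476505 6710887 false true false .up 2 0 3
    ndB0q2 ndB5q3 pcB0 cut_B05pm_203_s1 Ext.none :=
  certF0 (fam := false) (s1 := true) (s2 := false) (a := 2) (b := 0) (c := 3) (cn := .up) (n1 := ndB0q2) (n2 := ndB5q3) (pc := pcB0) (cut := cut_B05pm_203_s1) (xt := Ext.none) (P1 := 0) (W1 := 536870912) (P2 := 0) (W2 := 1230186008) (P3 := 1033476505) (W3 := 6710887)
    rfl k0_B05pm_203_s1

theorem s_B05pm_203_s1 {κ x : ℝ} (hκ : κ * h0 = ken x) (hx : ((1033476505 : ℕ) : ℝ) / S ≤ x)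
    (hx' : x ≤ (((1033476505 : ℕ) : ℝ) + (6710887 : ℕ)) / S) :
    AltB (VFD κ) PP tK tL pcB [⟨3, 0, 0, 1449551462⟩] 2 0 3 0 5 (sgb true) (sgb false) x :=
  strip_altBD (m := 1449551462) true rfl hκ (SH.κ0 hκ (SH.hx1 hx).le (SH.hx2 hx').le) (SH.hx1 hx).le (SH.hx2 hx') (covB02).cov (covB53).cov hx hx' c_B05pm_203_s1 cutB_nil (noExt_B)

noncomputable def cut_B05pm_213_s1 : Cut := Cut.of [[⟨4, 0, 0, 1449551462⟩], [⟨0, 1, 0, 20971520⟩, ⟨1, 1, 0, 20971520⟩, ⟨2, 2, 0, 1572864⟩]]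

noncomputable def xt_B05pm_213_s1 : Ext := strExt dd false true false .u2 .s2m .u0m .pnn 2 1 3 rfl rfl gf1 vv ndB0q2 ndB5q3

noncomputable def f_B05pm_213_s1 : ℕ → ℕ → ℕ → ℕ → Bool := onCell 0 536870912 0 1230186008 1033476505 6710887
    (rowF 0 false true false .pnn 2 1 3 (qsf 0 536870912 0 1230186008 1) ndB0q2 ndB5q3 pcB1 cut_B05pm_213_s1 xt_B05pm_213_s1)

def k0_B05pm_213_s1 : ∃ t, chk3 f_B05pm_213_s1 t 2 2 1 = true :=
  ⟨(b (l 3) (b (l 3) (a (l 3) (a (b (l 3) (b (l 3) (l 525590543))) (b (a (l 3) (l 533897999)) (b (l 530140943) (l 527264783))))))), by decide +kernel⟩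

def k1_B05pm_213_s1 : ∃ t, chk3 f_B05pm_213_s1 t 6 4 1 = true :=
  ⟨(b (l 3) (a (l 3) (b (l 3) (a (l 3) (b (a (l 3) (l 529603599)) (a (l 529879311) (l 529145615))))))), by decide +kernel⟩

def k2_B05pm_213_s1 : ∃ t, chk3 f_B05pm_213_s1 t 7 8 1 = true :=
  ⟨(b (a (l 3) (a (a (l 3) (a (l 3) (b (l 3) (a (l 536280079) (l 536195855))))) (b (a (a (l 3) (l 14)) (l 14)) (b (a (a (a (l 3) (l 14)) (l 14)) (l 14)) (a (a (a (l 536161807) (l 536070415)) (l 16773376)) (l 16766664)))))) (a (a (l 3) (a (l 3) (b (l 3) (a (b (l 3) (a (l 3) (l 534136847))) (b (b (l 3) (l 535197455)) (l 534264591)))))) (b (a (a (a (a (l 3) (l 536177935)) (l 536835343)) (a (l 536664335) (a (l 536520463) (l 536434703)))) (a (a (a (l 16774640) (l 16773240)) (l 16770576)) (l 16762624))) (a (a (b (a (a (l 535517199) (l 535941391)) (l 536560143)) (a (a (l 534824719) (b (l 16772544) (l 16768472))) (l 16772368))) (b (a (l 16777968) (l 16776800)) (l 16779120)))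 (a (a (l 16775232) (l 16771200)) (l 16761776)))))), by decide +kernel⟩

def k3_B05pm_213_s1 : ∃ t, chk3 f_B05pm_213_s1 t 7 9 1 = true :=
  ⟨(b (a (a (b (l 3) (b (a (l 3) (a (l 530207247) (c (l 530623759) (l 529872399)))) (a (a (l 3) (l 529719055)) (a (l 529645071) (a (l 529634831) (l 16773296)))))) (b (a (b (a (l 3) (l 532332303)) (a (a (l 531053327) (l 531180559)) (l 531473935))) (a (b (a (l 532702991) (l 533030671)) (a (l 531812623) (l 16753648))) (b (b (l 533751055) (l 16760728)) (l 16752912)))) (a (a (b (b (l 530558991) (l 530212367)) (l 16780880)) (b (b (l 16753016) (l 16741592)) (l 16722160))) (b (a (l 16734408) (l 16725328)) (a (l 16707616) (l 16697680)))))) (b (a (a (a (b (a (l 16760240) (l 16759072)) (l 16742144)) (b (l 16761344) (l 16744456))) (l 16735112)) (a (l 16771784) (l 16758696))) (a (a (a (l 16706312) (l 16707536)) (l 16739920)) (l 16755160)))) (b (a (a (a (a (l 529243407) (l 529053711)) (a (b (l 529144335)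 (l 16724408)) (b (l 16731296) (l 16702520)))) (a (a (l 16695872) (l 16676016)) (a (l 16658392) (l 16646432)))) (a (a (l 16638664) (l 16662736)) (l 16749744))) (a (a (a (l 528537359) (a (l 16679400) (l 16654168))) (a (l 16616104) (l 16572824))) (a (a (l 16552880) (l 16561464)) (l 16749208))))), by decide +kernel⟩

def k4_B05pm_213_s1 : ∃ t, chk3 f_B05pm_213_s1 t 3 5 1 = true :=
  ⟨(a (b (a (b (a (l 3) (a (l 3) (l 531308303))) (a (b (l 3) (l 535519503)) (b (a (l 533963023) (a (l 533733903) (l 534277135))) (a (l 535167759) (l 534400271))))) (b (a (b (l 531262479) (l 531744527)) (a (b (l 529847567) (l 530145807)) (b (l 528988943) (l 16660568)))) (a (b (l 532535823) (a (l 16739088) (l 16702224))) (b (a (l 16676920) (l 16619704)) (l 16619744))))) (a (b (a (l 535052047) (a (l 535214607) (b (l 16750336) (l 16736896)))) (a (l 530123023) (b (l 16701640) (l 16538344)))) (b (b (a (a (l 16725440) (l 16683720)) (l 16592448)) (a (l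 16690016) (l 16566688))) (a (b (l 16669592) (l 16621960)) (l 16534256))))) (b (a (b (b (a (a (l 528241167) (l 16600384)) (a (l 16539488) (l 16485184))) (a (a (l 16601208) (l 16534152)) (a (l 16462544) (l 16396480)))) (a (b (a (l 16551760) (l 16474992)) (l 16467264)) (a (l 16357720) (l 16273848)))) (b (a (a (l 16487240) (l 16550816)) (l 16464288)) (a (a (l 16217376) (l 16161176)) (l 16087400)))) (b (a (a (b (l 16423920) (l 16386328)) (l 16024560)) (l 6)) (a (a (l 16344392) (l 6)) (l 6))))), by decide +kernel⟩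

def k5_B05pm_213_s1 : ∃ t, chk3 f_B05pm_213_s1 t 1 3 1 = true :=
  ⟨(b (a (b (a (b (l 3) (a (l 3) (a (l 3) (b (l 516806159) (l 514477327))))) (a (b (b (l 523365903) (l 521093391)) (b (l 518800399) (l 516518671))) (b (a (l 524264719) (l 525485071)) (a (b (l 16250200) (b (l 16281960) (l 16180152))) (b (a (l 16325960) (l 16275936)) (a (l 16154024) (l 16166704))))))) (a (a (b (l 508961295) (l 504150543)) (b (a (l 510135055) (b (l 512253967) (l 510020367))) (a (l 505414159) (b (l 507674639) (b (l 15938016) (a (l 15855176) (l 15718520))))))) (a (b (a (b (l 513616655) (l 511223311)) (b (l 16019096) (a (l 15733112) (b (l 15960400) (l 15888888))))) (b (a (a (l 15953496) (b (l 15898472) (l 15790288))) (b (l 15855000) (l 15821424))) (a (b (a (l 15750816) (l 15741784)) (l 15715408)) (l 15806872)))) (b (a (b (b (l 15916184) (l 16015504)) (l 15959648)) (l 16065992)) (l 15959728))))) (a (b (a (b (a (b (l 16531064) (l 16234480)) (b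 (l 16437120) (l 16433048))) (a (b (l 16295360) (l 16226984)) (l 16340416))) (b (l 16314216) (l 16410136))) (a (b (l 16041160) (l 6)) (l 6))) (a (l 6) (l 6)))) (a (b (a (b (a (a (l 498753807) (b (l 500893199) (b (l 15937520) (l 15670192)))) (b (a (b (l 15931328) (a (l 15846360) (l 15675744))) (b (a (l 15693616) (l 15647800)) (l 15629304))) (a (b (a (l 15664328) (l 15574632)) (a (l 15545616) (l 15550136))) (l 15618120)))) (a (b (a (l 495149071) (b (a (l 15658296) (b (l 15531624) (l 15491960))) (a (b (l 15517024) (l 15469440)) (l 15484096)))) (a (b (a (l 15663552) (a (l 15504584) (l 15454832))) (l 1)) (l 15505016))) (b (l 15599800) (l 15658608)))) (a (b (l 15758144) (l 15838296)) (l 6))) (a (l 1) (l 6))) (l 6))), by decide +kernel⟩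

theorem t6_B05pm_213_s1 : ∃ t, chk3 f_B05pm_213_s1 t 7 4 1 = true := ex3_b k2_B05pm_213_s1 k3_B05pm_213_s1

theorem t7_B05pm_213_s1 : ∃ t, chk3 f_B05pm_213_s1 t 3 4 1 = true := ex3_a k1_B05pm_213_s1 t6_B05pm_213_s1

theorem t8_B05pm_213_s1 : ∃ t, chk3 f_B05pm_213_s1 t 3 2 1 = true := ex3_b t7_B05pm_213_s1 k4_B05pm_213_s1

theorem t9_B05pm_213_s1 : ∃ t, chk3 f_B05pm_213_s1 t 1 2 1 = true := ex3_a k0_B05pm_213_s1 t8_B05pm_213_s1

theorem t10_B05pm_213_s1 : ∃ t, chk3 f_B05pm_213_s1 t 1 1 1 = true := ex3_b t9_B05pm_213_s1 k5_B05pm_213_s1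

theorem c_B05pm_213_s1 : CertF 0 536870912 0 1230186008 1033476505 6710887 false true false .pnn 2 1 3
    ndB0q2 ndB5q3 pcB1 cut_B05pm_213_s1 xt_B05pm_213_s1 :=
  certF0 (fam := false) (s1 := true) (s2 := false) (a := 2) (b := 1) (c := 3) (cn := .pnn) (n1 := ndB0q2) (n2 := ndB5q3) (pc := pcB1) (cut := cut_B05pm_213_s1) (xt := xt_B05pm_213_s1) (P1 := 0) (W1 := 536870912) (P2 := 0) (W2 := 1230186008) (P3 := 1033476505) (W3 := 6710887)
    rfl t10_B05pm_213_s1

theorem s_B05pm_213_s1 {κ x : ℝ} (hκ : κ * h0 = ken x) (hx : ((1033476505 : ℕ) : ℝ) / S ≤ x)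
    (hx' : x ≤ (((1033476505 : ℕ) : ℝ) + (6710887 : ℕ)) / S)
    (H : CutB (VFD κ) PP tK tL pcB (Cut.of [[⟨0, 1, 0, 20971520⟩, ⟨1, 1, 0, 20971520⟩, ⟨2, 2, 0, 1572864⟩]]) 2 1 3 0 5 (sgb true) (sgb false) x) :
    AltB (VFD κ) PP tK tL pcB [⟨3, 0, 0, 1449551462⟩] 2 1 3 0 5 (sgb true) (sgb false) x :=
  strip_altBD (m := 1449551462) true rfl hκ (SH.κ0 hκ (SH.hx1 hx).le (SH.hx2 hx').le) (SH.hx1 hx).le (SH.hx2 hx') (covB02).cov (covB53).cov hx hx' c_B05pm_213_s1 H ((okx hx hx').extB (T := tt) (sideB hx hx') hκ rfl rfl (.O 2 true) (.N 3 false) (Or.inr rfl))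

noncomputable def cut_B05mm_001_s1 : Cut := Cut.of [[⟨4, 0, 0, 1449551462⟩]]

noncomputable def f_B05mm_001_s1 : ℕ → ℕ → ℕ → ℕ → Bool := onCell 0 536870912 0 536870912 1033476505 6710887
    (rowF 1 false false false .up 0 0 1 (qsf 0 536870912 536870912 536870912 0) ndB0q0 ndB5q1 pcB0 cut_B05mm_001_s1 Ext.none)

def k0_B05mm_001_s1 : ∃ t, chk3 f_B05mm_001_s1 t 1 1 1 = true :=
  ⟨(l 3), by decide +kernel⟩

theorem c_B05mm_001_s1 : CertF 0 536870912 536870912 536870912 1033476505 6710887 false false false .up 0 0 1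
    ndB0q0 ndB5q1 pcB0 cut_B05mm_001_s1 Ext.none :=
  certF1 (fam := false) (s1 := false) (s2 := false) (a := 0) (b := 0) (c := 1) (cn := .up) (n1 := ndB0q0) (n2 := ndB5q1) (pc := pcB0) (cut := cut_B05mm_001_s1) (xt := Ext.none) (P1 := 0) (W1 := 536870912) (P2 := 536870912) (W2 := 536870912) (P3 := 1033476505) (W3 := 6710887)
    rfl (fun _ => rfl) k0_B05mm_001_s1

theorem s_B05mm_001_s1 {κ x : ℝ} (hκ : κ * h0 = ken x) (hx : ((1033476505 : ℕ) : ℝ) / S ≤ x)
    (hx' : x ≤ (((1033476505 : ℕ) : ℝ) + (6710887 : ℕ)) / S) :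
    AltB (VFD κ) PP tK tL pcB [⟨3, 0, 0, 1449551462⟩] 0 0 1 0 5 (sgb false) (sgb false) x :=
  strip_altBD (m := 1449551462) true rfl hκ (SH.κ0 hκ (SH.hx1 hx).le (SH.hx2 hx').le) (SH.hx1 hx).le (SH.hx2 hx') (covB00).cov (covB51).cov hx hx' c_B05mm_001_s1 cutB_nil (noExt_B)

noncomputable def cut_B05mm_011_s1 : Cut := Cut.of [[⟨4, 0, 0, 1449551462⟩]]

noncomputable def f_B05mm_011_s1 : ℕ → ℕ → ℕ → ℕ → Bool := onCell 0 536870912 536870912 536870912 1033476505 6710887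
    (rowF 1 false false false .pnn 0 1 1 (qsf 0 536870912 536870912 536870912 1) ndB0q0 ndB5q1 pcB1 cut_B05mm_011_s1 Ext.none)

def k0_B05mm_011_s1 : ∃ t, chk3 f_B05mm_011_s1 t 1 1 1 = true :=
  ⟨(l 5), by decide +kernel⟩

theorem c_B05mm_011_s1 : CertF 0 536870912 536870912 536870912 1033476505 6710887 false false false .pnn 0 1 1
    ndB0q0 ndB5q1 pcB1 cut_B05mm_011_s1 Ext.none :=
  certF1 (fam := false) (s1 := false) (s2 := false) (a := 0) (b := 1) (c := 1) (cn := .pnn) (n1 := ndB0q0) (n2 := ndB5q1) (pc := pcB1) (cut := cut_B05mm_011_s1) (xt := Ext.none) (P1 := 0) (W1 := 536870912) (P2 := 536870912) (W2 := 536870912) (P3 := 1033476505) (W3 := 6710887)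
    rfl (fun _ => rfl) k0_B05mm_011_s1

theorem s_B05mm_011_s1 {κ x : ℝ} (hκ : κ * h0 = ken x) (hx : ((1033476505 : ℕ) : ℝ) / S ≤ x)
    (hx' : x ≤ (((1033476505 : ℕ) : ℝ) + (6710887 : ℕ)) / S) :
    AltB (VFD κ) PP tK tL pcB [⟨3, 0, 0, 1449551462⟩] 0 1 1 0 5 (sgb false) (sgb false) x :=
  strip_altBD (m := 1449551462) true rfl hκ (SH.κ0 hκ (SH.hx1 hx).le (SH.hx2 hx').le) (SH.hx1 hx).le (SH.hx2 hx') (covB00).cov (covB51).cov hx hx' c_B05mm_011_s1 cutB_nil (noExt_B)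

noncomputable def cut_B05mm_012_s1 : Cut := Cut.of [[⟨4, 0, 0, 1449551462⟩]]

noncomputable def f_B05mm_012_s1 : ℕ → ℕ → ℕ → ℕ → Bool := onCell 0 536870912 1073741824 536870912 1033476505 6710887
    (rowF 0 false false false .pnp 0 1 2 (qsf 0 536870912 1073741824 536870912 1) ndB0q0 ndB5q2 pcB1 cut_B05mm_012_s1 Ext.none)

def k0_B05mm_012_s1 : ∃ t, chk3 f_B05mm_012_s1 t 1 1 1 = true :=
  ⟨(l 5), by decide +kernel⟩

theorem c_B05mm_012_s1 : CertF 0 536870912 1073741824 536870912 1033476505 6710887 false false false .pnp 0 1 2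
    ndB0q0 ndB5q2 pcB1 cut_B05mm_012_s1 Ext.none :=
  certF0 (fam := false) (s1 := false) (s2 := false) (a := 0) (b := 1) (c := 2) (cn := .pnp) (n1 := ndB0q0) (n2 := ndB5q2) (pc := pcB1) (cut := cut_B05mm_012_s1) (xt := Ext.none) (P1 := 0) (W1 := 536870912) (P2 := 1073741824) (W2 := 536870912) (P3 := 1033476505) (W3 := 6710887)
    rfl k0_B05mm_012_s1

theorem s_B05mm_012_s1 {κ x : ℝ} (hκ : κ * h0 = ken x) (hx : ((1033476505 : ℕ) : ℝ) / S ≤ x)
    (hx' : x ≤ (((1033476505 : ℕ) : ℝ) + (6710887 : ℕ)) / S) :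
    AltB (VFD κ) PP tK tL pcB [⟨3, 0, 0, 1449551462⟩] 0 1 2 0 5 (sgb false) (sgb false) x :=
  strip_altBD (m := 1449551462) true rfl hκ (SH.κ0 hκ (SH.hx1 hx).le (SH.hx2 hx').le) (SH.hx1 hx).le (SH.hx2 hx') (covB00).cov (covB52).cov hx hx' c_B05mm_012_s1 cutB_nil (noExt_B)

noncomputable def cut_B05mm_022_s1 : Cut := Cut.of [[⟨4, 0, 0, 1449551462⟩]]

noncomputable def f_B05mm_022_s1 : ℕ → ℕ → ℕ → ℕ → Bool := onCell 0 536870912 1073741824 536870912 1033476505 6710887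
    (rowF 0 false false false .pp 0 2 2 (qsf 0 536870912 1073741824 536870912 2) ndB0q0 ndB5q2 pcB2 cut_B05mm_022_s1 Ext.none)

def k0_B05mm_022_s1 : ∃ t, chk3 f_B05mm_022_s1 t 1 1 1 = true :=
  ⟨(l 5), by decide +kernel⟩

theorem c_B05mm_022_s1 : CertF 0 536870912 1073741824 536870912 1033476505 6710887 false false false .pp 0 2 2
    ndB0q0 ndB5q2 pcB2 cut_B05mm_022_s1 Ext.none :=
  certF0 (fam := false) (s1 := false) (s2 := false) (a := 0) (b := 2) (c := 2) (cn := .pp) (n1 := ndB0q0) (n2 := ndB5q2) (pc := pcB2) (cut := cut_B05mm_022_s1) (xt := Ext.none) (P1 := 0) (W1 := 536870912) (P2 := 1073741824) (W2 := 536870912) (P3 := 1033476505) (W3 := 6710887)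
    rfl k0_B05mm_022_s1

theorem s_B05mm_022_s1 {κ x : ℝ} (hκ : κ * h0 = ken x) (hx : ((1033476505 : ℕ) : ℝ) / S ≤ x)
    (hx' : x ≤ (((1033476505 : ℕ) : ℝ) + (6710887 : ℕ)) / S) :
    AltB (VFD κ) PP tK tL pcB [⟨3, 0, 0, 1449551462⟩] 0 2 2 0 5 (sgb false) (sgb false) x :=
  strip_altBD (m := 1449551462) true rfl hκ (SH.κ0 hκ (SH.hx1 hx).le (SH.hx2 hx').le) (SH.hx1 hx).le (SH.hx2 hx') (covB00).cov (covB52).cov hx hx' c_B05mm_022_s1 cutB_nil (noExt_B)

noncomputable def cut_B05mm_023_s1 : Cut := Cut.of [[⟨4, 0, 0, 1449551462⟩]]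

noncomputable def f_B05mm_023_s1 : ℕ → ℕ → ℕ → ℕ → Bool := onCell 0 536870912 0 1230186008 1033476505 6710887
    (rowF 0 false false false .up 0 2 3 (qsf 0 536870912 0 1230186008 2) ndB0q0 ndB5q3 pcB2 cut_B05mm_023_s1 Ext.none)

def k0_B05mm_023_s1 : ∃ t, chk3 f_B05mm_023_s1 t 1 1 1 = true :=
  ⟨(l 5), by decide +kernel⟩

theorem c_B05mm_023_s1 : CertF 0 536870912 0 1230186008 1033476505 6710887 false false false .up 0 2 3
    ndB0q0 ndB5q3 pcB2 cut_B05mm_023_s1 Ext.none :=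
  certF0 (fam := false) (s1 := false) (s2 := false) (a := 0) (b := 2) (c := 3) (cn := .up) (n1 := ndB0q0) (n2 := ndB5q3) (pc := pcB2) (cut := cut_B05mm_023_s1) (xt := Ext.none) (P1 := 0) (W1 := 536870912) (P2 := 0) (W2 := 1230186008) (P3 := 1033476505) (W3 := 6710887)
    rfl k0_B05mm_023_s1

theorem s_B05mm_023_s1 {κ x : ℝ} (hκ : κ * h0 = ken x) (hx : ((1033476505 : ℕ) : ℝ) / S ≤ x)
    (hx' : x ≤ (((1033476505 : ℕ) : ℝ) + (6710887 : ℕ)) / S) :
    AltB (VFD κ) PP tK tL pcB [⟨3, 0, 0, 1449551462⟩] 0 2 3 0 5 (sgb false) (sgb false) x :=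
  strip_altBD (m := 1449551462) true rfl hκ (SH.κ0 hκ (SH.hx1 hx).le (SH.hx2 hx').le) (SH.hx1 hx).le (SH.hx2 hx') (covB00).cov (covB53).cov hx hx' c_B05mm_023_s1 cutB_nil (noExt_B)

noncomputable def cut_B05mm_033_s1 : Cut := Cut.of [[⟨4, 0, 0, 1449551462⟩]]

noncomputable def f_B05mm_033_s1 : ℕ → ℕ → ℕ → ℕ → Bool := onCell 0 536870912 0 1230186008 1033476505 6710887
    (rowF 0 false false false .pnn 0 3 3 (qsf 0 536870912 0 1230186008 3) ndB0q0 ndB5q3 pcB3 cut_B05mm_033_s1 Ext.none)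

def k0_B05mm_033_s1 : ∃ t, chk3 f_B05mm_033_s1 t 1 1 1 = true :=
  ⟨(l 5), by decide +kernel⟩

theorem c_B05mm_033_s1 : CertF 0 536870912 0 1230186008 1033476505 6710887 false false false .pnn 0 3 3
    ndB0q0 ndB5q3 pcB3 cut_B05mm_033_s1 Ext.none :=
  certF0 (fam := false) (s1 := false) (s2 := false) (a := 0) (b := 3) (c := 3) (cn := .pnn) (n1 := ndB0q0) (n2 := ndB5q3) (pc := pcB3) (cut := cut_B05mm_033_s1) (xt := Ext.none) (P1 := 0) (W1 := 536870912) (P2 := 0) (W2 := 1230186008) (P3 := 1033476505) (W3 := 6710887)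
    rfl k0_B05mm_033_s1

theorem s_B05mm_033_s1 {κ x : ℝ} (hκ : κ * h0 = ken x) (hx : ((1033476505 : ℕ) : ℝ) / S ≤ x)
    (hx' : x ≤ (((1033476505 : ℕ) : ℝ) + (6710887 : ℕ)) / S) :
    AltB (VFD κ) PP tK tL pcB [⟨3, 0, 0, 1449551462⟩] 0 3 3 0 5 (sgb false) (sgb false) x :=
  strip_altBD (m := 1449551462) true rfl hκ (SH.κ0 hκ (SH.hx1 hx).le (SH.hx2 hx').le) (SH.hx1 hx).le (SH.hx2 hx') (covB00).cov (covB53).cov hx hx' c_B05mm_033_s1 cutB_nil (noExt_B)

noncomputable def cut_B05mm_101_s1 : Cut := Cut.of [[⟨4, 0, 0, 1449551462⟩], [⟨0, 1, 0, 33554432⟩, ⟨1, 0, 0, 33554432⟩, ⟨2, 1, 0, 33554432⟩]]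

noncomputable def f_B05mm_101_s1 : ℕ → ℕ → ℕ → ℕ → Bool := onCell 536870912 536870912 0 536870912 1033476505 6710887
    (rowF 1 false false false .npn 1 0 1 (qsf 536870912 536870912 536870912 536870912 0) ndB0q1 ndB5q1 pcB0 cut_B05mm_101_s1 Ext.none)

def k0_B05mm_101_s1 : ∃ t, chk3 f_B05mm_101_s1 t 1 1 1 = true :=
  ⟨(a (l 3) (b (a (l 3) (b (a (l 3) (b (a (l 3) (b (b (a (l 3) (l 14)) (l 3)) (l 3))) (l 3))) (l 3))) (l 3))), by decide +kernel⟩

theorem c_B05mm_101_s1 : CertF 536870912 536870912 536870912 536870912 1033476505 6710887 false false false .npn 1 0 1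
    ndB0q1 ndB5q1 pcB0 cut_B05mm_101_s1 Ext.none :=
  certF1 (fam := false) (s1 := false) (s2 := false) (a := 1) (b := 0) (c := 1) (cn := .npn) (n1 := ndB0q1) (n2 := ndB5q1) (pc := pcB0) (cut := cut_B05mm_101_s1) (xt := Ext.none) (P1 := 536870912) (W1 := 536870912) (P2 := 536870912) (W2 := 536870912) (P3 := 1033476505) (W3 := 6710887)
    rfl (fun _ => rfl) k0_B05mm_101_s1

theorem s_B05mm_101_s1 {κ x : ℝ} (hκ : κ * h0 = ken x) (hx : ((1033476505 : ℕ) : ℝ) / S ≤ x)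
    (hx' : x ≤ (((1033476505 : ℕ) : ℝ) + (6710887 : ℕ)) / S)
    (H : CutB (VFD κ) PP tK tL pcB (Cut.of [[⟨0, 1, 0, 33554432⟩, ⟨1, 0, 0, 33554432⟩, ⟨2, 1, 0, 33554432⟩]]) 1 0 1 0 5 (sgb false) (sgb false) x) :
    AltB (VFD κ) PP tK tL pcB [⟨3, 0, 0, 1449551462⟩] 1 0 1 0 5 (sgb false) (sgb false) x :=
  strip_altBD (m := 1449551462) true rfl hκ (SH.κ0 hκ (SH.hx1 hx).le (SH.hx2 hx').le) (SH.hx1 hx).le (SH.hx2 hx') (covB01).cov (covB51).cov hx hx' c_B05mm_101_s1 H (noExt_B)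

noncomputable def cut_B05mm_102_s1 : Cut := Cut.of [[⟨4, 0, 0, 1449551462⟩], [⟨0, 1, 0, 33554432⟩, ⟨1, 0, 0, 33554432⟩, ⟨2, 1, 0, 33554432⟩]]

noncomputable def f_B05mm_102_s1 : ℕ → ℕ → ℕ → ℕ → Bool := onCell 536870912 536870912 0 536870912 1033476505 6710887
    (rowF 1 false false false .npp 1 0 2 (qsf 536870912 536870912 1073741824 536870912 0) ndB0q1 ndB5q2 pcB0 cut_B05mm_102_s1 Ext.none)

def k0_B05mm_102_s1 : ∃ t, chk3 f_B05mm_102_s1 t 1 1 1 = true :=
  ⟨(a (l 3) (b (a (l 3) (b (a (l 3) (b (a (l 3) (b (b (a (l 3) (l 14)) (l 3)) (l 3))) (l 3))) (l 3))) (l 3))), by decide +kernel⟩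

theorem c_B05mm_102_s1 : CertF 536870912 536870912 1073741824 536870912 1033476505 6710887 false false false .npp 1 0 2
    ndB0q1 ndB5q2 pcB0 cut_B05mm_102_s1 Ext.none :=
  certF1 (fam := false) (s1 := false) (s2 := false) (a := 1) (b := 0) (c := 2) (cn := .npp) (n1 := ndB0q1) (n2 := ndB5q2) (pc := pcB0) (cut := cut_B05mm_102_s1) (xt := Ext.none) (P1 := 536870912) (W1 := 536870912) (P2 := 1073741824) (W2 := 536870912) (P3 := 1033476505) (W3 := 6710887)
    rfl (fun _ => rfl) k0_B05mm_102_s1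

theorem s_B05mm_102_s1 {κ x : ℝ} (hκ : κ * h0 = ken x) (hx : ((1033476505 : ℕ) : ℝ) / S ≤ x)
    (hx' : x ≤ (((1033476505 : ℕ) : ℝ) + (6710887 : ℕ)) / S)
    (H : CutB (VFD κ) PP tK tL pcB (Cut.of [[⟨0, 1, 0, 33554432⟩, ⟨1, 0, 0, 33554432⟩, ⟨2, 1, 0, 33554432⟩]]) 1 0 2 0 5 (sgb false) (sgb false) x) :
    AltB (VFD κ) PP tK tL pcB [⟨3, 0, 0, 1449551462⟩] 1 0 2 0 5 (sgb false) (sgb false) x :=
  strip_altBD (m := 1449551462) true rfl hκ (SH.κ0 hκ (SH.hx1 hx).le (SH.hx2 hx').le) (SH.hx1 hx).le (SH.hx2 hx') (covB01).cov (covB52).cov hx hx' c_B05mm_102_s1 H (noExt_B)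

noncomputable def cut_B05mm_112_s1 : Cut := Cut.of [[⟨4, 0, 0, 1449551462⟩]]

noncomputable def f_B05mm_112_s1 : ℕ → ℕ → ℕ → ℕ → Bool := onCell 536870912 536870912 1073741824 536870912 1033476505 6710887
    (rowF 2 false false false .dn 1 1 2 (qsf 536870912 536870912 1073741824 536870912 1) ndB0q1 ndB5q2 pcB1 cut_B05mm_112_s1 Ext.none)

def k0_B05mm_112_s1 : ∃ t, chk3 f_B05mm_112_s1 t 1 1 1 = true :=
  ⟨(a (l 3) (l 5)), by decide +kernel⟩

theorem c_B05mm_112_s1 : CertF 536870912 536870912 1073741824 536870912 1033476505 6710887 false false false .dn 1 1 2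
    ndB0q1 ndB5q2 pcB1 cut_B05mm_112_s1 Ext.none :=
  certF2 (fam := false) (s1 := false) (s2 := false) (a := 1) (b := 1) (c := 2) (cn := .dn) (n1 := ndB0q1) (n2 := ndB5q2) (pc := pcB1) (cut := cut_B05mm_112_s1) (xt := Ext.none) (P1 := 536870912) (W1 := 536870912) (P2 := 1073741824) (W2 := 536870912) (P3 := 1033476505) (W3 := 6710887)
    rfl (fun _ => rfl) k0_B05mm_112_s1

theorem s_B05mm_112_s1 {κ x : ℝ} (hκ : κ * h0 = ken x) (hx : ((1033476505 : ℕ) : ℝ) / S ≤ x)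
    (hx' : x ≤ (((1033476505 : ℕ) : ℝ) + (6710887 : ℕ)) / S) :
    AltB (VFD κ) PP tK tL pcB [⟨3, 0, 0, 1449551462⟩] 1 1 2 0 5 (sgb false) (sgb false) x :=
  strip_altBD (m := 1449551462) true rfl hκ (SH.κ0 hκ (SH.hx1 hx).le (SH.hx2 hx').le) (SH.hx1 hx).le (SH.hx2 hx') (covB01).cov (covB52).cov hx hx' c_B05mm_112_s1 cutB_nil (noExt_B)

noncomputable def cut_B05mm_113_s1 : Cut := Cut.of [[⟨4, 0, 0, 1449551462⟩]]

noncomputable def f_B05mm_113_s1 : ℕ → ℕ → ℕ → ℕ → Bool := onCell 536870912 536870912 0 1230186008 1033476505 6710887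
    (rowF 0 false false false .nn 1 1 3 (qsf 536870912 536870912 0 1230186008 1) ndB0q1 ndB5q3 pcB1 cut_B05mm_113_s1 Ext.none)

def k0_B05mm_113_s1 : ∃ t, chk3 f_B05mm_113_s1 t 1 1 1 = true :=
  ⟨(a (l 5) (b (l 5) (a (b (l 5) (l 3)) (l 3)))), by decide +kernel⟩

theorem c_B05mm_113_s1 : CertF 536870912 536870912 0 1230186008 1033476505 6710887 false false false .nn 1 1 3
    ndB0q1 ndB5q3 pcB1 cut_B05mm_113_s1 Ext.none :=
  certF0 (fam := false) (s1 := false) (s2 := false) (a := 1) (b := 1) (c := 3) (cn := .nn) (n1 := ndB0q1) (n2 := ndB5q3) (pc := pcB1) (cut := cut_B05mm_113_s1) (xt := Ext.none) (P1 := 536870912) (W1 := 536870912) (P2 := 0) (W2 := 1230186008) (P3 := 1033476505) (W3 := 6710887)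
    rfl k0_B05mm_113_s1

theorem s_B05mm_113_s1 {κ x : ℝ} (hκ : κ * h0 = ken x) (hx : ((1033476505 : ℕ) : ℝ) / S ≤ x)
    (hx' : x ≤ (((1033476505 : ℕ) : ℝ) + (6710887 : ℕ)) / S) :
    AltB (VFD κ) PP tK tL pcB [⟨3, 0, 0, 1449551462⟩] 1 1 3 0 5 (sgb false) (sgb false) x :=
  strip_altBD (m := 1449551462) true rfl hκ (SH.κ0 hκ (SH.hx1 hx).le (SH.hx2 hx').le) (SH.hx1 hx).le (SH.hx2 hx') (covB01).cov (covB53).cov hx hx' c_B05mm_113_s1 cutB_nil (noExt_B)

noncomputable def cut_B05mm_123_s1 : Cut := Cut.of [[⟨4, 0, 0, 1449551462⟩]]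

noncomputable def f_B05mm_123_s1 : ℕ → ℕ → ℕ → ℕ → Bool := onCell 1073741824 536870912 0 1230186008 1033476505 6710887
    (rowF 2 false false false .npn 1 2 3 (qsf 536870912 536870912 0 1230186008 2) ndB0q1 ndB5q3 pcB2 cut_B05mm_123_s1 Ext.none)

def k0_B05mm_123_s1 : ∃ t, chk3 f_B05mm_123_s1 t 1 1 1 = true :=
  ⟨(b (l 5) (l 5)), by decide +kernel⟩

theorem c_B05mm_123_s1 : CertF 536870912 536870912 0 1230186008 1033476505 6710887 false false false .npn 1 2 3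
    ndB0q1 ndB5q3 pcB2 cut_B05mm_123_s1 Ext.none :=
  certF2 (fam := false) (s1 := false) (s2 := false) (a := 1) (b := 2) (c := 3) (cn := .npn) (n1 := ndB0q1) (n2 := ndB5q3) (pc := pcB2) (cut := cut_B05mm_123_s1) (xt := Ext.none) (P1 := 536870912) (W1 := 536870912) (P2 := 0) (W2 := 1230186008) (P3 := 1033476505) (W3 := 6710887)
    rfl (fun _ => rfl) k0_B05mm_123_s1

theorem s_B05mm_123_s1 {κ x : ℝ} (hκ : κ * h0 = ken x) (hx : ((1033476505 : ℕ) : ℝ) / S ≤ x)
    (hx' : x ≤ (((1033476505 : ℕ) : ℝ) + (6710887 : ℕ)) / S) :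
    AltB (VFD κ) PP tK tL pcB [⟨3, 0, 0, 1449551462⟩] 1 2 3 0 5 (sgb false) (sgb false) x :=
  strip_altBD (m := 1449551462) true rfl hκ (SH.κ0 hκ (SH.hx1 hx).le (SH.hx2 hx').le) (SH.hx1 hx).le (SH.hx2 hx') (covB01).cov (covB53).cov hx hx' c_B05mm_123_s1 cutB_nil (noExt_B)

noncomputable def cut_B05mm_133_s1 : Cut := Cut.of [[⟨4, 0, 0, 1449551462⟩]]

noncomputable def f_B05mm_133_s1 : ℕ → ℕ → ℕ → ℕ → Bool := onCell 1610612736 536870912 0 1230186008 1033476505 6710887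
    (rowF 2 false false false .dn 1 3 3 (qsf 536870912 536870912 0 1230186008 3) ndB0q1 ndB5q3 pcB3 cut_B05mm_133_s1 Ext.none)

def k0_B05mm_133_s1 : ∃ t, chk3 f_B05mm_133_s1 t 1 1 1 = true :=
  ⟨(l 5), by decide +kernel⟩

theorem c_B05mm_133_s1 : CertF 536870912 536870912 0 1230186008 1033476505 6710887 false false false .dn 1 3 3
    ndB0q1 ndB5q3 pcB3 cut_B05mm_133_s1 Ext.none :=
  certF2 (fam := false) (s1 := false) (s2 := false) (a := 1) (b := 3) (c := 3) (cn := .dn) (n1 := ndB0q1) (n2 := ndB5q3) (pc := pcB3) (cut := cut_B05mm_133_s1) (xt := Ext.none) (P1 := 536870912) (W1 := 536870912) (P2 := 0) (W2 := 1230186008) (P3 := 1033476505) (W3 := 6710887)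
    rfl (fun _ => rfl) k0_B05mm_133_s1

theorem s_B05mm_133_s1 {κ x : ℝ} (hκ : κ * h0 = ken x) (hx : ((1033476505 : ℕ) : ℝ) / S ≤ x)
    (hx' : x ≤ (((1033476505 : ℕ) : ℝ) + (6710887 : ℕ)) / S) :
    AltB (VFD κ) PP tK tL pcB [⟨3, 0, 0, 1449551462⟩] 1 3 3 0 5 (sgb false) (sgb false) x :=
  strip_altBD (m := 1449551462) true rfl hκ (SH.κ0 hκ (SH.hx1 hx).le (SH.hx2 hx').le) (SH.hx1 hx).le (SH.hx2 hx') (covB01).cov (covB53).cov hx hx' c_B05mm_133_s1 cutB_nil (noExt_B)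

end Pool.Agent.Strip051.G.I9625_9688.Tab.St.C
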