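import Pool.Agent.Strip051.G.I9625_9688.Tab
import Pool.Agent.Strip051.PB.StripB

/-! # Strips, near vertex: certificates 2 (generated) -/

set_option linter.all false
set_option maxRecDepth 100000

namespace Pool.Agent.Strip051.G.I9625_9688.Tab.CS.BA00

open Pool.Agent.Strip051.PB Pool.Agent.Strip051.PB.T
open Pool.Agent.Strip051.G.I9625_9688.Tab

noncomputable def cut_mm_202_t : Cut := Cut.of [[⟨3, 0, 0, 2845415833⟩], [⟨0, 1, 0, 22369621⟩, ⟨1, 0, 0, 22369621⟩, ⟨2, 1, 0, 22369621⟩]]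

noncomputable def f_mm_202_t : ℕ → ℕ → ℕ → ℕ → Bool := onCell 0 536870912 0 536870912 1033476505 6710887
    (rowNE 3 eng mog cd0q2 cd0q0 pd2 0 true false false .pp 2 0 2 (qsf 0 536870912 0 536870912 2) ndB0q2 ndB0q0 pcB2 cut_mm_202_t Ext.none)

def k0_mm_202_t : ∃ t, chk3 f_mm_202_t t 2 2 1 = true :=
  ⟨(b (b (l 6) (a (l 6) (a (l 6) (a (l 6) (b (b (l 6) (b (l 6) (l 16378984))) (b (b (l 16367936) (l 16349760)) (l 16322808))))))) (a (b (l 6) (a (l 6) (b (l 6) (b (l 6) (a (l 6) (l 15550056)))))) (b (a (a (l 6) (b (l 6) (b (l 15959024) (l 15935168)))) (b (a (b (l 16177872) (l 16142536)) (b (l 16291488) (l 16269904))) (a (b (l 16118432) (l 16106000)) (b (l 16258920) (l 16237968))))) (a (b (b (a (l 15727720) (l 15924168)) (a (l 15722264) (l 15925256))) (a (b (l 15735256) (l 15771376)) (b (l 15941560) (l 15979792)))) (b (a (b (l 16105208) (l 16114144)) (b (l 16248904) (l 16186288))) (b (a (l 16137160) (a (l 16276440) (l 16365728))) (a (l 16177088) (l 16281192)))))))),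 by decide +kernel⟩

def k1_mm_202_t : ∃ t, chk3 f_mm_202_t t 6 8 1 = true :=
  ⟨(a (b (a (l 6) (a (l 6) (b (l 16479904) (l 16442056)))) (a (b (l 6) (l 16407896)) (b (a (l 16436784) (l 16392704)) (a (l 16411016) (l 16410176))))) (b (a (b (a (l 16529744) (l 16505648)) (a (b (l 16546104) (l 16500120)) (b (l 16582688) (l 16537240)))) (b (a (l 16471888) (b (l 16493584) (l 16538928))) (a (l 16546912) (l 16525600)))) (a (b (a (b (l 16460240) (l 16434744)) (b (l 16496448) (l 16462800))) (a (b (l 16420752) (l 16419824)) (b (l 16445880) (l 16442656)))) (b (a (b (l 16526680) (l 16513024)) (b (l 16590848) (l 16532496))) (a (b (l 16486136) (l 16479024)) (b (l 16522464) (a (l 16513864) (l 16542184)))))))), by decide +kernel⟩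

def k2_mm_202_t : ∃ t, chk3 f_mm_202_t t 6 9 1 = true :=
  ⟨(b (a (a (b (a (l 16397504) (l 16409448)) (b (l 16422456) (l 16432224))) (b (a (l 16416800) (l 16379896)) (b (a (l 16443984) (l 16454200)) (a (l 16459480) (l 16473288))))) (b (a (a (b (l 16427632) (l 16445592)) (b (l 16453000) (l 16472760))) (a (b (a (l 16478552) (l 16497440)) (l 16509368)) (b (a (l 16519176) (l 16543656)) (a (l 16541104) (l 16562696))))) (a (b (a (l 16472096) (b (l 16494744) (l 16509824))) (a (l 16494784) (a (l 16518504) (l 16537072)))) (b (a (b (l 16532512) (l 16548680)) (a (l 16572880) (l 16574856))) (a (a (l 16557272) (l 16578960)) (a (l 16580760) (l 16604024))))))) (a (a (b (b (l 16428784) (l 16417896)) (a (l 16383896) (l 16418168))) (b (b (a (l 16461432) (l 16478608)) (a (l 16455728) (l 16476160))) (a (l 16447248) (b (l 16473648) (l 16471600))))) (b (a (b (a (l 16503280) (a (l 16529232) (l 16549192))) (a (l 16503896) (l 16510984))) (a (b (b (l 16537864) (l 16562576)) (a (l 16576224)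 (l 16600256))) (b (a (b (l 16614464) (l 16619096)) (b (l 16638200) (l 16643184))) (a (l 16624960) (l 16628896))))) (a (a (b (l 16504488) (l 16505576)) (b (l 16545928) (l 16549976))) (a (b (a (l 16581736) (l 16607024)) (a (l 16587872) (l 16614464))) (b (a (l 16632912) (l 16637936)) (a (l 16641592) (l 16668744)))))))), by decide +kernel⟩

def k3_mm_202_t : ∃ t, chk3 f_mm_202_t t 14 16 1 = true :=
  ⟨(a (b (a (b (l 16474464) (l 16517096)) (b (a (l 16461504) (l 16454640)) (a (l 16502416) (l 16494480)))) (a (b (l 16539888) (l 16584400)) (a (b (l 16544048) (l 16586216)) (b (l 16534816) (l 16575472))))) (a (b (b (a (a (l 16450800) (l 16449176)) (b (a (l 16439232) (l 16440224)) (l 16437568))) (a (a (l 16489944) (l 16487872)) (a (l 16487056) (l 16487528)))) (a (b (l 16527992) (l 16567136)) (b (a (l 16525360) (l 16525304)) (a (l 16563456) (l 16562704))))) (b (a (b (a (b (l 16421456) (l 16440136)) (b (c (l 16427960) (l 16424712)) (l 16460552))) (a (b (l 16458872) (l 16477600))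 (b (l 16484312) (l 16502808)))) (b (a (b (b (l 16442264) (l 16440888)) (b (l 16450024) (l 16459160))) (b (b (l 16457160) (l 16466152)) (a (l 16465112) (l 16494480)))) (a (b (b (l 16468296) (l 16477432)) (a (l 16509272) (l 16515144))) (b (a (l 16504160) (l 16512416)) (a (l 16522168) (l 16530272)))))) (a (b (a (b (l 16496248) (l 16535728)) (b (l 16521200) (l 16539416))) (a (b (l 16554080) (l 16572304)) (b (l 16557456) (l 16575280)))) (b (a (b (l 16530176) (l 16548096)) (b (a (l 16540040) (l 16547984)) (l 16561480))) (a (b (l 16565776) (l 16583216)) (b (l 16578816) (l 16595824)))))))), by decide +kernel⟩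

def k4_mm_202_t : ∃ t, chk3 f_mm_202_t t 14 17 1 = true :=
  ⟨(a (b (a (b (l 16608368) (a (l 16606152) (l 16664568))) (a (l 16587008) (b (l 16616144) (l 16635608)))) (a (b (a (l 16595928) (l 16612168)) (a (l 16573736) (l 16608152))) (a (b (l 16649296) (l 16624736)) (b (l 16675336) (l 16641432))))) (a (b (a (b (l 16606136) (l 16644712)) (b (a (l 16601216) (l 16599640)) (a (l 16638392) (l 16635880)))) (a (b (l 16661424) (a (l 16690152) (l 16693752))) (b (b (l 16663824) (l 16681184)) (a (l 16687704) (l 16683000))))) (b (a (b (a (l 16599328) (b (l 16592920) (l 16610328))) (a (l 16634640) (b (l 16627496) (l 16644376)))) (b (a (b (l 16600384) (l 16617320)) (b (l 16612536) (l 16628960))) (a (b (l 16633968) (l 16650312)) (b (l 16645072) (l 16660840))))) (a (b (a (l 16647696) (b (l 16660896) (l 16676856))) (a (l 16679544) (b (l 16692192) (l 16706824)))) (b (a (b (l 16666256) (l 16681616)) (b (l 16676184) (l 16690904))) (a (b (l 16696312) (l 16710288)) (b (l 16683968) (l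 16707728)))))))), by decide +kernel⟩

def k5_mm_202_t : ∃ t, chk3 f_mm_202_t t 60 16 1 = true :=
  ⟨(b (a (b (a (b (a (l 16486128) (l 16496368)) (a (l 16503944) (l 16514048))) (b (b (l 16507128) (l 16515872)) (b (l 16524624) (l 16533360)))) (a (b (a (l 16521736) (l 16531688)) (a (l 16539432) (l 16549232))) (b (b (l 16542080) (l 16550776)) (b (l 16559432) (l 16568056))))) (b (b (a (b (l 16526624) (l 16535264)) (b (l 16545400) (l 16553944))) (a (b (l 16543896) (l 16552512)) (b (l 16562480) (l 16570984)))) (b (a (b (l 16561104) (l 16569672)) (b (l 16579472) (l 16587912))) (a (b (l 16578192) (l 16586672)) (b (l 16596312) (l 16604656)))))) (a (b (a (b (a (l 16556984) (l 16566608)) (a (l 16574312) (l 16583760))) (b (b (l 16576624) (l 16585136)) (l 16597776))) (a (b (l 16595928) (l 16612528)) (b (l 16614360) (l 16630576)))) (b (b (a (b (l 16595088) (l 16603440)) (b (l 16612936) (l 16621152))) (a (b (l 16611728) (l 16619928)) (b (l 16629288) (l 16637336)))) (b (a (b (l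 16628048) (l 16636072)) (b (l 16645296) (l 16653152))) (a (l 16647920) (b (l 16660896) (l 16668536))))))), by decide +kernel⟩

def k6_mm_202_t : ∃ t, chk3 f_mm_202_t t 61 16 1 = true :=
  ⟨(b (b (a (b (a (b (l 16563592) (l 16572056)) (b (l 16585288) (l 16589752))) (a (b (l 16580504) (l 16588920)) (b (l 16598120) (l 16606464)))) (b (a (b (b (l 16596736) (l 16600912)) (a (l 16602832) (l 16611496))) (b (a (l 16611832) (l 16620528)) (a (l 16620144) (l 16628824)))) (a (b (a (l 16611152) (l 16619792)) (a (l 16619440) (l 16628056))) (b (a (l 16628424) (l 16637080)) (a (l 16636656) (l 16645288)))))) (a (b (a (b (l 16597304) (l 16605640)) (b (l 16614760) (l 16623008))) (a (b (l 16613928) (l 16622160)) (b (l 16631192) (l 16639312)))) (b (a (b (a (l 16627680) (l 16636264)) (a (l 16635872) (l 16644408))) (b (a (l 16644832) (l 16653440)) (a (l 16652944) (l 16661528)))) (a (b (a (l 16643992) (l 16652496)) (a (l 16652040) (l 16660496))) (b (a (l 16660992) (l 16669536)) (a (l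 16668960) (l 16677464))))))) (b (a (b (a (b (l 16630312) (l 16638400)) (b (l 16647360) (l 16655328))) (a (b (l 16646392) (l 16654304)) (b (l 16663200) (l 16670976)))) (b (a (b (a (l 16660016) (l 16668424)) (a (l 16667896) (l 16676256))) (b (a (l 16676840) (l 16685304)) (a (l 16684624) (l 16693048)))) (a (b (a (l 16675680) (l 16683992)) (a (l 16683368) (l 16691616))) (b (a (l 16692312) (l 16700680)) (a (l 16699888) (l 16708208)))))) (a (b (a (b (l 16662112) (l 16669808)) (a (l 16678336) (l 16673416))) (a (b (l 16677400) (l 16684864)) (a (l 16693288) (l 16688224)))) (b (a (b (a (l 16690944) (l 16699136)) (a (l 16698400) (l 16706528))) (b (a (l 16707344) (l 16715608)) (a (l 16714672) (l 16722880)))) (a (b (a (l 16705736) (l 16713792)) (a (l 16712936) (l 16720920))) (b (a (l 16721880) (l 16730024)) (a (l 16728936) (l 16737024)))))))), by decide +kernel⟩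

def k7_mm_202_t : ∃ t, chk3 f_mm_202_t t 60 17 1 = true :=
  ⟨(b (a (b (a (b (l 16628776) (l 16644664)) (b (l 16646368) (l 16661744))) (a (b (l 16660208) (l 16654416)) (b (l 16676744) (l 16670360)))) (b (b (a (l 16642336) (a (l 16675688) (l 16683800))) (a (l 16657264) (a (l 16690280) (l 16698200)))) (b (a (l 16676968) (c (l 16687448) (l 16687072))) (a (b (l 16703256) (l 16710152)) (a (l 16718000) (l 16704456)))))) (a (b (a (b (l 16669136) (a (l 16700568) (l 16707904))) (b (l 16689696) (a (l 16715224) (l 16722416)))) (a (b (a (l 16714088) (l 16721072)) (a (l 16726824) (l 16733440))) (b (c (l 16710640) (l 16710408)) (b (l 16719472) (l 16725168))))) (b (b (a (c (l 16699400) (l 16699104)) (b (l 16720992) (l 16727272))) (a (b (l 16729872) (l 16715104)) (b (a (l 16740376) (l 16747296)) (c (l 16728816) (l 16728704))))) (a (b (b (l 16731584) (l 16737368)) (b (c (l 16732496) (l 16732392)) (c (l 16737816) (l 16737744)))) (b (b (a (l 16752088) (l 16737728)) (c (l 16750400)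 (l 16750336))) (a (b (l 16752448) (l 16757520)) (b (l 16762656) (a (l 16762104) (b (l 16753464) (a (l 16765504) (b (l 16766312) (l 133378835719)))))))))))), by decide +kernel⟩

def k8_mm_202_t : ∃ t, chk3 f_mm_202_t t 61 68 1 = true :=
  ⟨(a (b (a (b (l 16692208) (l 16699408)) (b (l 16697640) (a (l 16711232) (l 16719080)))) (a (a (l 16706040) (l 16713840)) (b (a (l 16718168) (l 16725920)) (a (l 16724944) (l 16732616))))) (a (b (b (a (l 16719992) (l 16727912)) (a (l 16726912) (l 16734752))) (b (a (l 16733672) (l 16741432)) (a (l 16740272) (l 16737464)))) (b (b (a (l 16735856) (l 16733384)) (a (l 16732136) (a (l 16748568) (l 16752560)))) (b (a (l 16738736) (c (l 16746648) (l 16746560))) (a (c (l 16745224) (l 16734648)) (c (l 16752992) (l 16752936))))))), by decide +kernel⟩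

def k9_mm_202_t : ∃ t, chk3 f_mm_202_t t 61 69 1 = true :=
  ⟨(a (a (b (b (l 16709672) (l 16716296)) (b (a (l 16729560) (l 16736952)) (c (l 16718736) (l 16718560)))) (b (b (a (l 16731560) (l 16739136)) (c (l 16731360) (l 16731200))) (b (a (l 16744320) (l 16741208)) (a (l 16750488) (l 16747240))))) (a (b (b (a (l 16746712) (l 16746440)) (a (l 16742496) (c (l 16739544) (l 16739472)))) (a (b (a (l 16757216) (l 16760912)) (c (l 16754528) (l 16743992))) (b (c (l 16756008) (l 16755968)) (a (c (l 16749496) (l 16749472)) (a (l 16767952) (b (l 16763120) (a (l 16770696) (c (l 44795141335) (l 42647657671))))))))) (b (a (b (c (l 16751472) (l 16751416)) (c (l 16757552) (l 16757512))) (b (b (c (l 16757640) (l 16747120)) (c (l 16760680) (l 16760656))) (a (a (l 16768832) (b (l 16762704) (a (l 16770416) (c (l 45332014135) (l 42647659399))))) (b (a (l 16769864) (a (c (b (l 16775824) (l 16776808)) (l 42647659783)) (b (l 101166608871) (b (l 138210680583) (l 4))))) (a (b (c (a (l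 16776728) (l 134989450903)) (l 240753046103)) (l 308398770055)) (l 4)))))) (a (b (b (c (l 16767224) (l 16761960)) (a (l 16763016) (b (a (l 16765088) (c (l 133378857863) (l 135526340983))) (a (c (l 16764960) (l 16766272)) (l 4))))) (a (b (b (c (l 16765096) (l 16765088)) (a (l 16770872) (c (l 117272699655) (l 137673796199)))) (b (c (l 269744067287) (l 270817818423)) (l 4))) (b (c (l 292292631463) (l 291755757815)) (l 4)))) (b (a (b (b (a (c (l 16776344) (l 16776344)) (c (c (l 143042545415) (l 137136919415)) (l 283165840695))) (c (l 278870870103) (l 279407739383))) (l 4)) (l 4)) (l 4)))))), by decide +kernel⟩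

def k10_mm_202_t : ∃ t, chk3 f_mm_202_t t 122 35 1 = true :=
  ⟨(b (a (b (b (c (l 16724912) (l 16724768)) (a (l 16748304) (l 16744808))) (b (a (l 16754168) (l 16750536)) (a (l 16749344) (c (l 16745576) (l 16745536))))) (b (a (b (l 16745992) (l 16754408)) (b (c (l 16742648) (l 16742600)) (c (l 16758784) (l 16758752)))) (b (b (a (l 16755992) (c (l 16768088) (l 16768072))) (a (l 16758728) (a (l 16763832) (a (c (l 86671079207) (l 85060456135)) (b (c (l 133915705287) (l 136600059479)) (l 4)))))) (a (a (l 16766296) (a (l 16768800) (b (l 16763928) (b (l 16776320) (a (l 16769152) (l 136063194167)))))) (a (b (b (c (l 16776120) (l 16765632)) (a (l 44795150439) (c (l 136063183143) (l 138210665895)))) (c (l 274575894743) (l 275112763991))) (l 4)))))) (a (b (a (b (l 16760024) (c (l 16749512) (l 16749488))) (b (c (l 16761328) (l 16761312)) (a (a (l 16770520) (b (l 16753840) (c (l 131231353191) (l 133378836167)))) (a (b (b (l 16775800) (l 44795147927)) (l 271891545527)) (b (c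 (l 132841955239) (l 134989438359)) (l 4)))))) (a (b (b (c (l 46942627207) (l 44258272615)) (a (l 16769832) (a (c (l 130694481383) (l 132841964599)) (l 272428415351)))) (a (b (a (b (l 16776128) (l 131231362503)) (c (l 132305083703) (l 134989437799))) (l 283165824695)) (l 4))) (a (a (b (c (l 262764735863) (l 263838497335)) (l 4)) (l 4)) (l 4)))) (b (a (b (a (b (c (l 16764872) (l 16764864)) (a (c (l 45332007575) (l 43721394839)) (l 271354686199))) (b (c (l 261154139959) (l 262764751655)) (l 4))) (l 4)) (l 4)) (l 4)))), by decide +kernel⟩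

def k11_mm_202_t : ∃ t, chk3 f_mm_202_t t 123 35 1 = true :=
  ⟨(b (a (b (a (b (c (l 16760256) (l 16760232)) (a (b (l 16762648) (a (l 16764504) (c (l 83986714759) (b (l 16776032) (l 16765776))))) (b (b (c (l 16765376) (l 16765368)) (a (l 16771128) (c (l 135526312599) (l 138210666327)))) (c (l 275112767767) (l 276186507863))))) (b (a (b (c (l 16764200) (l 16764192)) (b (a (l 16765400) (c (l 201561452743) (l 136600060359))) (a (c (l 16763760) (l 16763752)) (l 4)))) (b (c (a (c (l 132841988807) (l 133378848839)) (l 290145154983)) (a (b (l 16776568) (l 138210666887)) (l 289608282279))) (l 4))) (a (c (l 301419421959) (l 299271934711)) (l 4)))) (a (b (a (b (a (c (c (l 132841977671) (l 133378827111)) (b (l 16776776) (l 138210666439))) (l 299271957415)) (l 4)) (l 4)) (l 4)) (l 4))) (l 4)) (l 4)), by decide +kernel⟩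

def k12_mm_202_t : ∃ t, chk3 f_mm_202_t t 62 32 1 = true :=
  ⟨(b (a (b (b (a (a (l 16629272) (l 14)) (l 14)) (a (a (l 16637552) (l 16646352)) (a (l 16655232) (l 14)))) (a (b (a (l 16645792) (l 16654576)) (a (l 16653984) (l 16662744))) (b (a (l 16663440) (l 16675024)) (a (l 16671600) (l 16683168))))) (b (l 14) (a (b (a (b (l 14) (l 16683512)) (l 14)) (a (b (l 16687584) (l 16691632)) (b (l 14) (l 16700816)))) (l 14)))) (a (b (a (b (a (l 16662112) (l 16670856)) (a (l 16670168) (l 16678888))) (b (a (l 16679688) (b (l 16686608) (l 16690624))) (a (l 16687696) (b (l 16694624) (l 16698600))))) (a (b (a (l 16678144) (l 16686840)) (a (l 16686040) (l 16694704))) (b (a (l 16695624) (b (l 16702552) (l 16706480))) (a (l 16703456) (b (l 16710384) (l 16714264)))))) (b (a (b (a (b (l 16695664) (l 16699672)) (b (l 16704848) (l 16708848))) (a (b (l 16703664) (l 16707624)) (b (l 16712832) (l 16716792)))) (b (a (b (l 16714176) (l 16720792)) (b (l 14) (a (l 16725264) (l 14)))) (a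 (b (a (l 16719808) (l 16724504)) (a (l 16723760) (l 16728456))) (b (a (l 16729240) (l 16734024)) (a (l 16733192) (l 16737976)))))) (a (b (a (b (l 16711568) (l 16715488)) (b (l 16720728) (l 16724640))) (a (b (l 16719384) (l 16723248)) (b (l 16729832) (a (l 16730080) (l 16734680))))) (b (a (b (a (l 16727688) (l 16732384)) (a (l 16731592) (l 16736280))) (b (a (l 16737120) (l 16741896)) (a (l 16741016) (l 16745792)))) (a (b (a (l 16735472) (l 16740152)) (a (l 16739320) (l 16744000))) (b (a (l 16744880) (a (l 16748456) (l 16750856))) (a (l 16748720) (a (l 16752296) (l 16754688)))))))))), by decide +kernel⟩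

def k13_mm_202_t : ∃ t, chk3 f_mm_202_t t 63 64 1 = true :=
  ⟨(l 14), by decide +kernel⟩

def k14_mm_202_t : ∃ t, chk3 f_mm_202_t t 252 65 1 = true :=
  ⟨(b (a (b (l 14) (b (a (l 16738848) (l 14)) (a (l 16742800) (a (l 16746448) (l 16748896))))) (l 14)) (a (b (b (a (a (l 16745504) (l 16747928)) (a (l 16750368) (l 16752816))) (a (a (l 16749400) (l 16751824)) (a (l 16754256) (l 16754080)))) (b (a (a (l 16753264) (l 16755688)) (c (a (l 16758168) (l 16760600)) (l 16754056))) (a (c (a (l 16757144) (l 16759560)) (l 16753016)) (c (a (l 16761984) (l 16764424)) (l 16758552))))) (a (a (b (b (l 16755272) (c (l 16759208) (l 16759120))) (b (c (l 16763056) (l 16762984)) (c (l 16764256) (l 16761584)))) (b (b (b (l 16756768) (l 16758720)) (c (l 16761672) (l 16761600))) (b (c (l 16762240) (l 16760224)) (c (c (l 16764104) (l 16764088)) (l 16764056))))) (a (b (b (b (l 14) (l 16761208)) (b (l 16763152) (l 16762464))) (b (c (c (l 16762768) (l 16762744)) (l 16762712)) (c (c (l 16766576)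 (l 16766568)) (l 16769168)))) (b (b (l 14) (c (c (l 16764032) (l 16766632)) (l 16761352))) (b (c (c (l 16767880) (l 16765240)) (l 16767840)) (b (c (l 16770736) (l 16768096)) (c (c (l 16772632) (l 16772624)) (l 45332029095))))))))), by decide +kernel⟩

def k15_mm_202_t : ∃ t, chk3 f_mm_202_t t 253 130 1 = true :=
  ⟨(l 14), by decide +kernel⟩

def k16_mm_202_t : ∃ t, chk3 f_mm_202_t t 506 131 1 = true :=
  ⟨(b (b (l 14) (a (a (c (c (l 16765880) (l 16763896)) (l 16765176)) (b (l 14) (c (l 16770008) (l 16767368)))) (l 14))) (a (b (a (b (c (l 16769416) (l 16766768)) (c (l 16771328) (l 16768696))) (b (c (c (l 16769312) (l 16769312)) (l 16769296)) (a (c (b (l 16770120) (l 16775000)) (l 16773208)) (a (b (l 16774992) (b (c (l 112440900007) (l 16776968)) (a (c (l 81839260023) (l 16777192)) (l 4)))) (c (b (c (l 112977770215) (l 111367157479)) (c (l 184381604439) (l 185455346263))) (b (a (l 16771520) (b (l 16776856) (l 16777192))) (l 271891562679))))))) (a (b (a (c (l 16772608)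 (l 16769976)) (b (l 16774696) (a (c (l 16774016) (l 16771392)) (b (c (l 114588383671) (l 16776984)) (a (c (l 86134227319) (l 16777200)) (l 4)))))) (a (a (b (l 16775032) (b (c (l 16776832) (l 16776992)) (a (c (l 16777368) (l 16777208)) (l 4)))) (b (b (l 16775416) (c (a (l 16777024) (l 84523614599)) (l 99555996967))) (c (b (l 182770991527) (l 4)) (l 277797142727)))) (a (b (b (a (c (l 16777128) (l 16777120)) (c (l 161833025863) (l 16777256))) (l 4)) (l 4)) (l 4)))) (b (b (a (a (a (c (l 16774160) (l 16771536)) (b (l 16775560) (c (l 64659390919) (l 16777192)))) (b (a (c (l 16777112) (l 16777112)) (c (l 161833025847) (l 165054251319))) (l 4))) (l 4)) (a (c (l 287460819223) (l 289608302871)) (l 4))) (l 4)))) (b (a (a (a (b (c (c (l 16773512) (l 16773504)) (l 16773504)) (b (b (a (c (l 16777104) (l 16777104)) (c (l 129083900295) (l 131768254855))) (l 4)) (l 4))) (b (b (l 16774976) (b (c (l 109756545431) (l 16775648)) (a (c (l 81302387783) (l 16777184)) (l 4)))) (l 4)))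 (b (b (l 14) (b (c (l 268133466311) (l 271891562695)) (l 4))) (l 4))) (l 4)) (l 4)))), by decide +kernel⟩

def k17_mm_202_t : ∃ t, chk3 f_mm_202_t t 507 131 1 = true :=
  ⟨(b (l 14) (l 4)), by decide +kernel⟩

def k18_mm_202_t : ∃ t, chk3 f_mm_202_t t 127 65 1 = true :=
  ⟨(l 14), by decide +kernel⟩

def k19_mm_202_t : ∃ t, chk3 f_mm_202_t t 124 66 1 = true :=
  ⟨(b (a (b (a (l 16693840) (l 16702472)) (a (l 16701544) (l 16710128))) (b (a (b (l 16709272) (l 16713112)) (b (l 16718112) (l 16721936))) (a (b (l 16716920) (l 16720704)) (b (l 16725736) (l 16729504))))) (a (b (a (l 16709136) (l 16717680)) (a (l 16716608) (l 16714624))) (b (a (b (l 16724464) (l 16728184)) (c (l 16724720) (l 16724504))) (a (a (l 16731552) (l 16735880)) (a (l 16740248) (l 16739400)))))), by decide +kernel⟩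

def k20_mm_202_t : ∃ t, chk3 f_mm_202_t t 250 66 1 = true :=
  ⟨(b (b (b (a (l 16727088) (a (l 16733912) (l 16738504))) (a (l 16730896) (a (l 16737712) (l 16742296)))) (b (a (l 16734680) (a (l 16741480) (l 16746064))) (a (l 16733184) (c (l 16742336) (l 16736944))))) (b (a (a (l 16736512) (a (l 16745120) (l 16747376))) (a (c (l 16745592) (l 16740224)) (b (l 16753496) (l 16751920)))) (b (a (a (l 16747256) (l 16751728)) (a (l 16756240) (l 16756864))) (a (c (l 16742680) (l 16742568)) (a (l 16754608) (a (l 16763248) (l 16765536))))))), by decide +kernel⟩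

def k21_mm_202_t : ∃ t, chk3 f_mm_202_t t 251 132 1 = true :=
  ⟨(b (a (a (b (l 16743136) (l 16746928)) (b (l 16747816) (l 16751600))) (a (b (c (l 16752592) (l 16752472)) (c (l 16756360) (l 16756264))) (b (c (l 16757344) (l 16757248)) (c (l 16755864) (l 16755792))))) (b (a (a (l 16750688) (l 16751416)) (a (c (l 16760096) (l 16760016)) (c (a (l 16763648) (l 16766032)) (l 16759544)))) (a (a (l 16754408) (c (l 16759112) (l 16759024))) (a (c (l 16758560) (l 16758496)) (c (c (l 16763304) (l 16758048)) (l 16763256)))))), by decide +kernel⟩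

def k22_mm_202_t : ∃ t, chk3 f_mm_202_t t 251 133 1 = true :=
  ⟨(a (a (b (b (l 16752864) (c (l 16761800) (l 16761728))) (c (b (l 16760168) (l 16763752)) (a (l 16760768) (l 16763080)))) (b (c (b (l 16757544) (l 16761192)) (b (l 16762720) (l 16755896))) (b (c (l 16764800) (l 16764768)) (a (c (l 16767208) (l 16761944)) (b (l 16771256) (c (c (l 16770392) (l 16765144)) (l 16770384))))))) (b (a (b (c (l 16763544) (l 16762184)) (c (c (l 16765872) (l 16760616)) (l 16765840))) (b (b (c (l 16766048) (l 16766024)) (c (l 16767872) (l 16767856))) (a (b (l 16771112) (c (c (l 16770296) (l 16770288)) (l 16770280))) (a (b (l 16772896) (b (c (c (l 16776776) (l 16776776)) (l 109756544071)) (a (b (c (l 16777120) (l 16777120)) (l 231089373543)) (l 4)))) (b (a (c (l 16773768) (l 16771144)) (b (l 16773936) (b (c (l 16777112) (l 16777112)) (l 215520117127)))) (c (l 268670337399) (l 274575917415))))))) (a (b (a (c (l 16768296) (l 16763040)) (b (l 16772360) (a (c (l 16774192) (l 16770912))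 (b (a (l 16774000) (c (l 96334774215) (l 16777056))) (c (c (l 109219677239) (l 109219677239)) (a (l 75933680487) (l 4))))))) (a (b (b (l 16773800) (a (l 16770832) (c (c (l 105461579687) (l 16777000)) (a (l 16776888) (l 77007422327))))) (c (a (c (b (l 16776840) (l 131231384487)) (b (l 16776840) (l 122641449975))) (l 290145173895)) (b (a (l 16776840) (l 343832263831)) (l 327726135847)))) (b (a (b (a (c (l 104387837895) (l 16777064)) (c (l 181697249863) (l 176328540791))) (l 4)) (l 4)) (l 4)))) (a (b (b (a (b (l 16773680) (c (c (l 95261027079) (l 95261021847)) (a (l 16776856) (l 74859933399)))) (b (a (c (a (l 16776984) (l 16777152)) (l 16777048)) (c (l 161296155271) (l 164517380743))) (l 4))) (c (l 290145172743) (l 292292657703))) (l 4)) (l 4))))), by decide +kernel⟩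

def k23_mm_202_t : ∃ t, chk3 f_mm_202_t t 124 67 1 = true :=
  ⟨(a (b (b (a (l 16723960) (b (l 16730592) (l 16734216))) (a (l 16731184) (a (l 16737464) (l 16741688)))) (b (a (l 16727776) (c (l 16736184) (l 16736048))) (a (a (l 16743144) (l 16747256)) (c (l 16743040) (l 16742936))))) (b (b (a (c (l 16733192) (l 16733016)) (a (l 16742224) (a (l 16750744) (l 16752944)))) (a (c (l 16740288) (l 16737536)) (b (c (l 16744536) (l 16744432)) (c (l 16753264) (l 16747936))))) (a (b (c (c (l 16744648) (l 16744592)) (l 16747144)) (c (b (l 16749736) (l 16753096)) (b (l 16749664) (l 16753040)))) (b (c (a (l 16751032) (l 16760592)) (a (l 16750960) (l 16755296))) (a (c (l 16763032) (l 16757752)) (b (c (l 16760408) (l 16760384)) (a (l 16767896) (b (l 16769224) (c (l 57143183575) (l 16770808)))))))))), by decide +kernel⟩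

def k24_mm_202_t : ∃ t, chk3 f_mm_202_t t 250 134 1 = true :=
  ⟨(a (a (b (c (l 16745816) (l 16745720)) (c (c (l 16758096) (l 16752816)) (l 16758016))) (b (c (l 16754184) (l 16750184)) (c (c (l 16762504) (l 16757240)) (l 16762456)))) (a (b (c (c (l 16759984) (l 16754720)) (l 16758608)) (b (c (l 16765216) (l 16759944)) (a (l 16770168) (b (l 16768920) (c (l 69491221351) (l 16770592)))))) (c (b (b (l 16762728) (l 16766248)) (b (a (l 16763352) (b (l 16764744) (a (l 16773720) (b (a (l 16776784) (l 16777048)) (l 156464317319))))) (a (b (c (c (l 102777219399) (l 101703477575)) (l 100629735751)) (c (l 288534558807) (l 287997686855))) (l 325578650967)))) (b (b (l 16757448) (l 16760976)) (b (a (l 16763336) (a (l 16772872) (b (l 16765304) (b (l 16776928) (l 155390575527))))) (a (a (b (l 16765368) (l 265985979975)) (b (b (l 16776528) (l 260617271703)) (l 4))) (l 322894293671))))))), by decide +kernel⟩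

def k25_mm_202_t : ∃ t, chk3 f_mm_202_t t 250 135 1 = true :=
  ⟨(a (b (b (a (c (l 16758000) (l 16768448)) (b (l 16768744) (c (l 16763248) (l 16763232)))) (a (c (l 16761392) (l 16761368)) (b (a (l 16769072) (a (l 16770728) (b (l 45332028247) (c (l 267596593703) (l 66806864759))))) (c (a (l 74859930999) (c (l 290145169879) (l 289071427063))) (a (l 16770696) (l 289608299127)))))) (b (a (a (l 16771520) (b (l 16772856) (a (c (l 16768656) (l 16776512)) (b (c (l 16776984) (l 16776936)) (l 220888826615))))) (a (a (b (b (l 85597352967) (c (l 67880611847) (l 67343746215))) (l 4)) (c (l 318062452583) (l 316451836295))) (l 4))) (a (a (b (a (l 16770840) (b (l 90966062183) (c (l 73249326231) (l 78618035319)))) (c (l 290682038759) (l 290682036855))) (c (l 320209932327) (l 318062444279))) (l 4)))) (a (a (b (b (b (l 16772736) (a (c (l 16773808) (l 16771184)) (b (c (l 16776992) (l 16776992)) (c (l 195655893719) (l 188139701031))))) (c (l 322357419095) (l 320209930599))) (l 4))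 (b (b (a (b (b (l 45332028823) (c (l 262227884583) (l 265449109879))) (l 4)) (c (l 319673068007) (l 317525580487))) (l 4)) (l 4))) (l 4))), by decide +kernel⟩

def k26_mm_202_t : ∃ t, chk3 f_mm_202_t t 251 67 1 = true :=
  ⟨(b (a (b (b (a (c (l 16767296) (b (l 16761144) (l 16762912))) (a (b (l 16772480) (a (c (l 16773632) (l 16771000)) (b (c (c (l 16776872) (l 16776872)) (l 16776872)) (a (c (l 102240355079) (l 16777392)) (l 4))))) (b (a (a (c (l 16773888) (l 16771264)) (b (l 16774056) (c (l 88818582343) (l 90966065991)))) (b (c (c (l 70028098103) (l 70028095479)) (l 277260269671)) (l 4))) (l 359938390551)))) (a (a (b (l 16768776) (c (l 65733124743) (l 16770488))) (b (a (l 16770496) (a (c (l 16773928) (l 16771304)) (b (l 16774104) (c (l 121567707815) (l 16776616))))) (b (a (c (c (l 16776904) (l 16776904)) (l 16776904)) (l 356717164775)) (b (l 325041781927) (l 4))))) (a (b (c (c (c (l 239142435879) (l 239679306791)) (l 307325041623)) (l 316451844311)) (l 4)) (l 4))))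 (a (b (a (a (b (a (c (l 16771344) (l 16776584)) (b (l 16774144) (c (l 114588386055) (l 16776360)))) (l 4)) (c (l 321820554871) (l 319136196055))) (l 4)) (l 4)) (l 4))) (l 4)) (l 4)), by decide +kernel⟩

def k27_mm_202_t : ∃ t, chk3 f_mm_202_t t 504 132 1 = true :=
  ⟨(b (b (a (c (a (l 16760936) (l 16763352)) (l 16756832)) (a (b (l 16764800) (l 16766696)) (b (l 16764624) (l 16766512)))) (a (c (c (l 16760672) (l 16760648)) (l 16760608)) (c (c (a (l 16764296) (l 16766728)) (l 16765496)) (a (l 16764256) (l 16766704))))) (a (b (c (c (l 16764400) (l 16764384)) (l 16764352)) (a (c (l 16769504) (l 16766856)) (b (c (l 16768368) (l 16763104)) (c (c (l 16770192) (l 16770192)) (l 16772808))))) (b (a (c (l 16769984) (l 16768000)) (b (c (l 16769520) (l 16769512)) (a (c (l 60901288359) (l 16770744)) (b (a (l 16773832) (b (l 16775512) (c (l 58216937415) (l 16777144)))) (a (b (c (l 16777064) (l 16777064)) (c (l 152169349591) (l 146800640503))) (l 4)))))) (a (b (a (l 16772800) (b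 (l 16773552) (c (a (l 16774136) (c (l 66270003959) (l 65733127799))) (a (l 16776760) (a (l 16777096) (l 95261033143)))))) (a (b (c (c (l 16776720) (l 16775408)) (l 102240351015)) (a (a (b (l 16777008) (l 163980509495)) (c (l 124788933159) (l 111367160439))) (l 4))) (c (c (l 260617273687) (l 261691015511)) (b (l 252027338951) (l 4))))) (b (a (b (a (b (l 16775528) (c (l 16777480) (l 16777152))) (b (c (l 103314096631) (l 16777216)) (l 4))) (l 4)) (l 4)) (l 4)))))), by decide +kernel⟩

def k28_mm_202_t : ∃ t, chk3 f_mm_202_t t 505 264 1 = true :=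
  ⟨(b (a (a (c (c (l 16765424) (l 16765408)) (l 16765384)) (c (c (l 16767888) (l 16767872)) (l 16770480))) (a (b (c (l 16772032) (l 16769400)) (a (c (c (l 16770672) (l 16770664)) (l 16773280)) (b (a (l 16773760) (b (l 16775448) (c (l 102777223847) (l 16777104)))) (a (b (c (l 16777016) (l 16777016)) (a (c (l 16777216) (l 16777216)) (l 4))) (c (l 221425697303) (l 295513882823)))))) (b (a (b (l 16774736) (a (c (l 16774040) (l 16771416)) (b (c (l 16777008) (l 16777008)) (c (c (l 110830289447) (l 110830289447)) (l 114051514919))))) (b (a (b (l 16775432) (c (a (l 16777032) (l 16777208)) (l 105998450551))) (b (a (c (l 16777136) (l 16777136)) (c (l 167738605895) (l 16777256))) (l 4))) (c (l 291755786535) (l 293903270183)))) (a (a (b (b (c (c (l 16777184) (l 16777184)) (c (l 16777184) (l 66806873399))) (l 4)) (l 4)) (l 4)) (l 4))))) (a (a (b (c (l 16768240) (l 16768216)) (c (c (l 16770096) (l 16770096)) (l 16772712))) (b (a (c (l 16770080) (l 16770072)) (b (l 16773464)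 (b (c (l 94187288055) (l 16775432)) (c (a (l 16776920) (l 115662127671)) (a (l 16776920) (l 137136964071)))))) (b (b (a (l 16775504) (a (a (b (l 16777112) (l 116735869207)) (l 225720664327)) (l 4))) (a (a (l 16774032) (c (c (l 16777120) (l 16777120)) (l 16777120))) (l 4))) (a (a (b (c (l 16777040) (l 16777040)) (c (l 138747576807) (l 141431931367))) (c (l 246121759175) (l 247732371911))) (l 4))))) (a (b (a (b (a (b (l 16775464) (c (l 107609060775) (l 16777112))) (b (c (c (l 16777192) (l 16777192)) (l 67880613927)) (l 4))) (c (l 298735108391) (l 301419462951))) (l 4)) (l 4)) (l 4)))), by decide +kernel⟩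

def k29_mm_202_t : ∃ t, chk3 f_mm_202_t t 505 265 1 = true :=
  ⟨(a (b (a (b (a (b (l 16773504) (c (a (l 16774104) (b (l 16777048) (l 139284447735))) (b (l 16774152) (a (l 16776944) (l 142505673207))))) (b (a (b (l 16775496) (c (c (l 16777136) (l 16777136)) (l 16777128))) (b (a (b (l 16777128) (l 119420223783)) (l 260617273543)) (l 4))) (c (l 304103817527) (l 306788172087)))) (a (c (c (l 256859177287) (l 257932919111)) (b (l 246658629815) (l 4))) (l 4))) (l 4)) (l 4)) (l 4)), by decide +kernel⟩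

def k30_mm_202_t : ∃ t, chk3 f_mm_202_t t 252 133 1 = true :=
  ⟨(a (b (a (b (a (b (c (l 16769632) (l 16764376)) (a (c (l 54458836935) (l 16770824)) (b (c (c (l 16776744) (l 16776744)) (l 105998447623)) (a (b (c (l 16777104) (l 16777104)) (l 203708957047)) (l 4))))) (b (a (b (l 16773592) (c (b (l 106535319207) (c (l 16777432) (l 61975036679))) (a (l 16776792) (a (l 16777112) (l 112440902279))))) (b (a (c (c (l 16777000) (l 16777000)) (l 16777000)) (c (c (l 136063222455) (l 139821318823)) (l 126936417031))) (l 4))) (a (c (c (l 264375370087) (l 265985982823)) (l 268670337383)) (l 4)))) (a (b (a (b (a (c (c (l 16777024) (l 16777024)) (l 16777024)) (c (l 141968802503) (l 145190027975))) (l 4)) (l 4)) (l 4)) (l 4))) (l 4)) (l 4)) (l 4)), by decide +kernel⟩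

def k31_mm_202_t : ∃ t, chk3 f_mm_202_t t 253 66 1 = true :=
  ⟨(l 4), by decide +kernel⟩

def k32_mm_202_t : ∃ t, chk3 f_mm_202_t t 126 67 1 = true :=
  ⟨(l 4), by decide +kernel⟩

def k33_mm_202_t : ∃ t, chk3 f_mm_202_t t 127 33 1 = true :=
  ⟨(l 4), by decide +kernel⟩

def k34_mm_202_t : ∃ t, chk3 f_mm_202_t t 248 68 1 = true :=
  ⟨(b (b (a (c (l 16741552) (l 16741440)) (c (c (l 16749760) (l 16749728)) (l 16749672))) (a (c (l 16748152) (l 16748080)) (c (a (l 16754240) (l 16758336)) (a (l 16754192) (l 16758304))))) (a (b (c (b (l 16753000) (l 16756176)) (l 16754552)) (a (c (l 16758888) (l 16758856)) (b (l 16766536) (a (l 16763392) (a (l 16770120) (b (l 16775592) (b (l 16776704) (l 134452607191)))))))) (b (b (c (l 16766320) (l 16761056)) (a (l 16767432) (a (a (l 16769968) (c (l 89355445959) (l 42647662023))) (a (b (l 16771832) (c (l 134452610359) (l 132305126775))) (c (b (c (l 16776232) (l 16776144)) (l 4)) (l 279944616967)))))) (b (a (a (l 16769544) (c (b (l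 16775984) (l 254174819287)) (a (l 42647661639) (b (l 16776472) (l 161296155767))))) (a (c (l 286387075335) (l 286923944183)) (l 4))) (a (a (b (a (l 44795154535) (c (l 65733128631) (l 269744076935))) (l 296587622935)) (l 4)) (l 4)))))), by decide +kernel⟩

def k35_mm_202_t : ∃ t, chk3 f_mm_202_t t 249 68 1 = true :=
  ⟨(b (a (b (b (c (l 16756416) (l 16756376)) (a (l 16762832) (c (l 16761792) (l 16761776)))) (a (b (l 16766088) (a (l 16768264) (a (l 16769816) (c (l 83449865383) (l 80765510807))))) (b (a (l 16769216) (b (l 16773112) (a (c (l 16776696) (l 16776696)) (b (a (l 16777080) (l 183844733495)) (l 4))))) (b (a (a (l 16771064) (c (c (l 16776632) (l 16760840)) (l 134452602343))) (l 325041769863)) (c (l 303030059799) (l 301956314647)))))) (b (a (b (c (l 16762752) (l 16762736)) (b (a (l 16764136) (a (l 16770952) (b (l 102777222503) (c (l 97945388087) (l 16777376))))) (c (a (l 45868890375) (l 292292650039)) (a (l 16768288) (l 292292648199))))) (b (a (b (l 16772984)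 (a (c (l 16776608) (l 16776608)) (b (c (l 16774088) (l 16776576)) (l 4)))) (b (a (b (l 96871642295) (c (l 92039808039) (l 84523615367))) (l 310546261223)) (l 4))) (c (l 330410470775) (l 326652368551)))) (a (b (a (c (c (l 285313331751) (l 285313325399)) (b (l 270817818151) (l 4))) (l 4)) (l 4)) (l 4)))) (a (b (a (b (a (b (l 51237609063) (c (a (l 16776776) (l 122641445111)) (a (l 16776776) (l 117809575543)))) (a (c (l 288534558327) (l 278870880999)) (l 325041766887))) (l 4)) (l 4)) (l 4)) (l 4))), by decide +kernel⟩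

def k36_mm_202_t : ∃ t, chk3 f_mm_202_t t 124 69 1 = true :=
  ⟨(a (b (a (b (b (a (c (l 16763488) (l 16763472)) (a (a (c (b (l 16775672) (l 16776944)) (l 42647660711)) (b (l 44795153815) (c (l 177939153991) (l 139821281751)))) (c (l 286923934423) (l 287460803335)))) (a (b (b (c (l 16765288) (l 16765288)) (a (l 16765144) (a (l 16776968) (l 147337482999)))) (a (c (l 45332015623) (l 16766080)) (l 298198223943))) (l 4))) (a (b (c (l 292829525975) (l 292292654663)) (l 4)) (l 4))) (l 4)) (l 4)) (l 4)), by decide +kernel⟩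

def k37_mm_202_t : ∃ t, chk3 f_mm_202_t t 125 34 1 = true :=
  ⟨(l 4), by decide +kernel⟩

def k38_mm_202_t : ∃ t, chk3 f_mm_202_t t 62 35 1 = true :=
  ⟨(l 4), by decide +kernel⟩

def k39_mm_202_t : ∃ t, chk3 f_mm_202_t t 63 17 1 = true :=
  ⟨(l 4), by decide +kernel⟩

def k40_mm_202_t : ∃ t, chk3 f_mm_202_t t 28 18 1 = true :=
  ⟨(b (a (b (a (l 16569608) (l 16599424)) (a (l 16586464) (b (l 16605920) (l 16617576)))) (b (a (l 16631776) (l 16624272)) (a (b (l 16634328) (l 16642800)) (b (l 16664904) (l 16670512))))) (a (b (a (l 16598184) (b (l 16633840) (l 16651288))) (a (b (l 16642480) (l 16654072)) (b (l 16665896) (l 16677568)))) (b (a (b (l 16657344) (l 16673568)) (b (l 16660712) (a (l 16690344) (l 16701808)))) (a (b (l 16688616) (l 16700312)) (b (a (l 16704872) (l 16715048)) (l 16700784)))))), by decide +kernel⟩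

def k41_mm_202_t : ∃ t, chk3 f_mm_202_t t 29 36 1 = true :=
  ⟨(a (b (a (b (l 16685344) (l 16678416)) (b (l 16709288) (l 16713296))) (a (b (l 16676216) (l 16679024)) (b (a (l 16721536) (l 16737384)) (a (l 16722320) (l 16736856))))) (a (b (a (b (l 16722576) (l 16715720)) (b (l 16720704) (l 16733768))) (a (b (l 16727792) (l 16730256)) (b (l 16735568) (a (l 16756048) (l 16756008))))) (b (a (b (l 16723472) (l 16725328)) (b (a (l 16728480) (l 16733096)) (c (l 16721360) (l 16721200)))) (a (b (a (l 16725840) (l 16748264)) (a (l 16735680) (l 16747952))) (b (b (l 16729344) (l 16744912)) (b (l 16752368) (a (l 16763216) (l 16745648)))))))), by decide +kernel⟩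

def k42_mm_202_t : ∃ t, chk3 f_mm_202_t t 29 37 1 = true :=
  ⟨(a (b (a (b (a (l 16701400) (l 16714888)) (a (l 16712976) (l 16724816))) (b (a (l 16728224) (l 16720344)) (a (l 16715560) (l 16734904)))) (a (b (a (l 16704304) (l 16714712)) (a (l 16715712) (l 16724672))) (b (a (l 16724152) (b (l 16732160) (l 16735592))) (a (b (l 16730960) (l 16756104)) (b (l 16759984) (l 16742400)))))) (b (a (b (a (a (l 16729992) (l 16757320)) (b (l 16760120) (l 16761824))) (a (b (l 16737160) (l 16739712)) (a (l 16758616) (b (l 16764344) (l 16745480))))) (b (a (b (a (l 16761856) (l 16764032)) (a (l 16764128) (l 16766672))) (b (a (l 16745976) (l 16765200)) (a (l 16759464) (b (l 16752072) (l 16769480))))) (b (a (a (l 16766496) (l 16748456)) (a (l 16767840) (c (a (l 16760288) (b (l 16754016) (l 4))) (a (l 49626975991) (l 231626229559))))) (a (a (l 16748048) (l 16761880)) (a (a (l 16768728) (b (l 16765976) (l 119420179335))) (b (l 259006634583) (l 4))))))) (a (b (a (a (l 16751512) (c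 (l 16745000) (l 16745048))) (b (a (l 16766552) (l 16747768)) (a (l 16768592) (l 16750272)))) (a (a (b (l 16766072) (l 16768168)) (b (l 16768568) (l 16770584))) (b (a (l 16770856) (l 16768744)) (a (l 16762896) (a (l 52848205527) (b (l 16755960) (l 136063167863))))))) (a (b (a (b (l 16761264) (a (l 16752792) (l 16765120))) (b (c (l 51774454295) (a (l 16774504) (l 16760552))) (a (b (l 16766224) (l 114588336823)) (l 267059691543)))) (a (b (b (c (l 110830245175) (l 110830244839)) (a (l 109756510599) (l 4))) (l 4)) (l 4))) (b (a (b (a (c (l 117809548935) (l 233773709543)) (l 4)) (l 4)) (l 4)) (l 4)))))), by decide +kernel⟩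

def k43_mm_202_t : ∃ t, chk3 f_mm_202_t t 14 19 1 = true :=
  ⟨(a (b (a (b (a (b (l 16661976) (l 16667184)) (b (l 16685504) (l 16690664))) (a (b (l 16671936) (l 16676976)) (b (l 16695592) (l 16700888)))) (b (a (b (l 16687248) (l 16713320)) (b (b (l 16707232) (l 16710248)) (l 16713584))) (a (b (l 16718128) (l 16702584)) (b (l 16718256) (l 16723512))))) (a (b (a (b (l 16682048) (l 16687176)) (b (l 16706472) (l 16712064))) (a (l 16674440) (b (l 16717896) (l 16724376)))) (b (a (b (l 16708384) (l 16714456)) (b (l 16734632) (a (l 16751600) (l 16740584)))) (a (b (l 16720720) (l 16727656)) (b (c (l 16742360) (l 16742312)) (a (l 16744440) (l 16733688))))))) (b (a (b (a (b (a (l 16723448) (l 16753432)) (a (l 16728288) (l 16758168))) (b (a (b (l 16759792) (l 16761752)) (b (l 16744528) (l 16762168))) (a (l 16744640) (c (l 16750248) (l 16750232))))) (a (b (a (l 16732816) (l 16762584)) (a (l 16737920) (l 16767576))) (a (b (l 16749248) (b (l 16752872) (l 81302314807))) (b (a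 (l 16753888) (b (l 16755584) (l 134452510919))) (a (b (l 86671013559) (l 4)) (l 4)))))) (a (b (a (b (b (a (l 16769920) (l 16751896)) (a (l 16772064) (c (l 16754416) (l 16754408)))) (a (b (l 16774712) (l 93113482471)) (b (a (l 16754576) (l 135526271303)) (l 4)))) (b (a (b (c (l 52848186407) (l 52311314823)) (a (b (l 16754120) (l 4)) (l 4))) (b (c (l 271891523015) (l 271354650807)) (l 4))) (l 4))) (a (b (a (b (l 287460769687) (l 4)) (l 4)) (l 4)) (l 4))) (l 4))) (a (a (b (b (a (l 16743624) (l 16752240)) (a (l 16749920) (b (l 77007328695) (l 131231246679)))) (a (b (c (l 77007307975) (l 16732200)) (l 280481410919)) (l 4))) (b (a (b (a (l 158611735223) (l 4)) (l 4)) (l 4)) (l 4))) (l 4)))), by decide +kernel⟩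

def k44_mm_202_t : ∃ t, chk3 f_mm_202_t t 60 36 1 = true :=
  ⟨(a (b (b (a (a (l 16738712) (l 16723976)) (b (l 16741128) (c (l 16735920) (l 16735840)))) (a (a (l 16739216) (l 16745056)) (b (c (l 16740912) (l 16740848)) (c (l 16745656) (l 16745616))))) (b (b (a (a (l 16757312) (l 16762840)) (a (l 16747408) (c (l 16763256) (l 16763248)))) (a (a (l 16762080) (l 16746424)) (a (l 16762240) (a (b (l 16775584) (a (l 16766288) (l 129620734647))) (c (l 243974254375) (l 245047995287)))))) (b (a (a (l 16745616) (l 16761208)) (a (b (c (l 48553232951) (l 46942620199)) (a (l 48553241351) (l 247195481543))) (l 4))) (a (a (l 16760352) (a (l 16763984) (b (l 16775904) (a (l 16766312) (l 129083863079))))) (a (c (l 243974239879) (l 243974241063)) (l 4)))))) (b (a (b (b (c (l 16753400) (l 16753352)) (a (l 16755296) (l 16766392))) (a (b (l 16760008) (a (l 16763088) (b (l 16764744) (c (l 128546993527) (l 130694476807))))) (b (b (c (l 47479494375) (l 45332010711)) (a (l 46942633031)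 (c (l 130694459863) (l 250416710855)))) (a (b (c (l 129620726807) (l 131768210087)) (l 4)) (l 4))))) (b (b (c (a (l 16762336) (a (b (l 16775960) (a (l 16759112) (l 4))) (l 263301597303))) (a (l 16762320) (a (b (l 16765472) (l 250953584103)) (l 263838466487)))) (a (a (b (l 16764360) (c (l 46405744919) (a (l 16776280) (l 132305091495)))) (b (c (c (l 130157598727) (l 130694469175)) (b (l 16761080) (l 133378824263))) (l 4))) (l 4))) (a (b (a (b (l 260080380791) (l 4)) (l 4)) (l 4)) (l 4)))) (a (b (a (b (a (b (c (l 16755512) (l 16765992)) (l 248806096295)) (b (l 269744055335) (l 4))) (l 4)) (l 4)) (l 4)) (l 4)))), by decide +kernel⟩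

def k45_mm_202_t : ∃ t, chk3 f_mm_202_t t 60 37 1 = true :=
  ⟨(b (a (a (b (a (b (a (l 16763136) (c (l 50163850583) (l 49090108759))) (a (b (l 16765728) (c (l 16756592) (l 125862634471))) (c (l 241289895975) (l 241826765943)))) (b (a (b (c (l 16755488) (l 16755464)) (l 138747523671)) (l 4)) (l 4))) (l 4)) (l 4)) (l 4)) (l 4)), by decide +kernel⟩

def k46_mm_202_t : ∃ t, chk3 f_mm_202_t t 61 18 1 = true :=
  ⟨(l 4), by decide +kernel⟩

def k47_mm_202_t : ∃ t, chk3 f_mm_202_t t 31 18 1 = true :=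
  ⟨(l 4), by decide +kernel⟩

def k48_mm_202_t : ∃ t, chk3 f_mm_202_t t 15 19 1 = true :=
  ⟨(l 4), by decide +kernel⟩

def k49_mm_202_t : ∃ t, chk3 f_mm_202_t t 6 10 1 = true :=
  ⟨(a (b (a (b (a (l 16363216) (l 16404424)) (a (l 16352064) (l 16400192))) (b (a (l 16440304) (b (l 16471440) (l 16473640))) (a (l 16442960) (l 16460744)))) (a (b (a (l 16351312) (l 16406368)) (a (l 16361352) (l 16423344))) (b (a (l 16456136) (b (l 16495824) (l 16508712))) (a (l 16480248) (b (l 16524416) (l 16542936)))))) (b (a (b (a (b (l 16508608) (l 16514080)) (b (l 16556064) (l 16564696))) (a (b (l 16522160) (l 16532952)) (b (l 16576032) (l 16590200)))) (b (a (b (a (l 16596128) (l 16624104)) (a (l 16607032) (l 16636448))) (b (a (l 16652536) (l 16680936)) (a (l 16666280) (l 16696008)))) (a (b (a (l 16620736) (l 16651680)) (a (l 16637384) (l 16669928))) (b (a (l 16682984) (l 16693160)) (a (l 16702800) (l 16714488)))))) (a (b (a (b (l 16546568) (l 16563064)) (b (l 16607312) (l 16627416)))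 (a (b (l 16582472) (l 16604800)) (b (l 16629592) (l 16634816)))) (b (a (b (a (l 16657064) (l 16691296)) (a (l 16679864) (l 16715864))) (b (a (l 16704848) (b (l 16753624) (l 16744824))) (a (l 16709928) (b (l 16706088) (l 232163011191))))) (a (b (b (l 16675648) (l 16689880)) (a (l 16713968) (a (l 16763608) (l 16723136)))) (a (b (b (l 16760648) (l 16713776)) (l 4)) (l 4))))))), by decide +kernel⟩

def k50_mm_202_t : ∃ t, chk3 f_mm_202_t t 6 11 1 = true :=
  ⟨(a (b (a (b (a (l 16382088) (l 16451056)) (a (l 16412944) (l 16488920))) (b (a (l 16515256) (b (l 16564240) (l 16588256))) (a (l 16560600) (b (l 16614896) (l 16644032))))) (a (b (a (l 16451224) (l 16535880)) (a (l 16502152) (l 16548608))) (b (a (l 16552320) (b (l 16654536) (l 16667192))) (a (b (l 16661432) (l 16673232)) (b (a (l 16723312) (l 16761208)) (a (l 16755960) (l 16766808))))))) (b (a (b (a (b (l 16630016) (l 16658056)) (b (l 16664032) (a (l 16717472) (l 16736336)))) (a (b (l 16646888) (l 16659104)) (b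 (a (l 16729512) (l 167738525639)) (a (l 16724240) (l 4))))) (a (b (b (a (l 16721848) (l 217667481815)) (a (l 187602729143) (l 4))) (l 4)) (l 4))) (a (a (b (b (a (l 16736240) (l 16749736)) (a (l 16766112) (l 16750336))) (b (l 154853603991) (l 4))) (l 4)) (l 4)))), by decide +kernel⟩

def k51_mm_202_t : ∃ t, chk3 f_mm_202_t t 7 5 1 = true :=
  ⟨(a (b (a (b (b (a (b (a (l 16687792) (l 16704016)) (a (l 16704120) (l 16721520))) (b (a (b (l 16735360) (l 16743784)) (a (b (l 16773304) (l 217130645927)) (b (l 239679214935) (l 4)))) (a (a (b (l 16767856) (l 16753680)) (b (l 16723616) (l 4))) (l 4)))) (a (b (a (l 16723608) (a (l 16745328) (b (l 16774456) (l 16707128)))) (a (a (l 16738496) (l 59827438471)) (b (l 232162993255) (l 4)))) (a (b (a (l 258469659767) (l 4)) (l 4)) (l 4)))) (a (b (a (b (b (l 89355278791) (l 132841762535)) (l 4)) (l 4)) (l 4)) (l 4))) (l 4)) (l 4)) (l 4)), by decide +kernel⟩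

def k52_mm_202_t : ∃ t, chk3 f_mm_202_t t 1 3 1 = true :=
  ⟨(a (b (a (b (b (a (l 6) (b (a (l 6) (l 15606168)) (a (l 15439032) (l 15674248)))) (a (b (l 6) (a (l 6) (l 15349400))) (a (b (l 15512240) (l 15591576)) (b (l 15747936) (l 15827160))))) (b (a (a (l 15209856) (l 15416264)) (a (l 15531528) (b (l 15910968) (l 15998512)))) (b (a (l 15368560) (a (l 15857088) (l 16088984))) (l 2)))) (b (a (b (b (a (l 15829152) (l 16039304)) (a (l 15898328) (l 16109672))) (a (b (l 15972472) (l 16051560)) (b (l 16184392) (l 16263480)))) (b (b (a (l 16238536) (a (l 16382160) (l 16475456))) (a (l 16310344) (l 16397632))) (a (b (l 16364928) (l 16423304)) (b (l 16453432) (a (l 16611568) (b (l 16686776) (l 16726200))))))) (a (b (a (b (l 16134680) (l 16221008)) (b (l 16346056) (l 16410344))) (a (b (l 16309776) (l 16400304)) (b (l 16476600) (a (l 16556624) (l 16657504))))) (b (a (b (l 16463664) (a (l 16582856) (l 16681232))) (b (a (l 16680288) (b (l 16755816) (l 16772600))) (a (b (l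 16748200) (l 16769544)) (l 4)))) (b (a (a (l 16669096) (b (l 16740056) (l 16765008))) (l 96334702647)) (a (a (l 16700168) (l 16774296)) (l 4))))))) (a (l 2) (a (l 2) (a (l 2) (l 4))))) (a (a (b (b (b (a (b (a (l 16567248) (l 16594960)) (a (l 16621672) (a (l 16690768) (l 16708544)))) (b (a (b (l 16686816) (l 16725232)) (b (l 105998357799) (l 4))) (a (b (l 16748544) (l 4)) (l 4)))) (a (b (a (l 52847903367) (a (l 16726160) (l 16768728))) (a (b (l 16762784) (l 16772032)) (l 4))) (l 4))) (l 4)) (l 4)) (l 4)) (l 4))), by decide +kernel⟩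

theorem s53_mm_202_t : ∃ t, chk3 f_mm_202_t t 6 5 1 = true := ex3_b k49_mm_202_t k50_mm_202_t

theorem s54_mm_202_t : ∃ t, chk3 f_mm_202_t t 3 5 1 = true := ex3_a s53_mm_202_t k51_mm_202_t

theorem s55_mm_202_t : ∃ t, chk3 f_mm_202_t t 60 18 1 = true := ex3_b k44_mm_202_t k45_mm_202_t

theorem s56_mm_202_t : ∃ t, chk3 f_mm_202_t t 30 18 1 = true := ex3_a s55_mm_202_t k46_mm_202_t

theorem s57_mm_202_t : ∃ t, chk3 f_mm_202_t t 15 18 1 = true := ex3_a s56_mm_202_t k47_mm_202_t

theorem s58_mm_202_t : ∃ t, chk3 f_mm_202_t t 15 9 1 = true := ex3_b s57_mm_202_t k48_mm_202_t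

theorem s59_mm_202_t : ∃ t, chk3 f_mm_202_t t 29 18 1 = true := ex3_b k41_mm_202_t k42_mm_202_t

theorem s60_mm_202_t : ∃ t, chk3 f_mm_202_t t 14 18 1 = true := ex3_a k40_mm_202_t s59_mm_202_t

theorem s61_mm_202_t : ∃ t, chk3 f_mm_202_t t 14 9 1 = true := ex3_b s60_mm_202_t k43_mm_202_t

theorem s62_mm_202_t : ∃ t, chk3 f_mm_202_t t 7 9 1 = true := ex3_a s61_mm_202_t s58_mm_202_t

theorem s63_mm_202_t : ∃ t, chk3 f_mm_202_t t 124 68 1 = true := ex3_a k34_mm_202_t k35_mm_202_t

theorem s64_mm_202_t : ∃ t, chk3 f_mm_202_t t 124 34 1 = true := ex3_b s63_mm_202_t k36_mm_202_t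

theorem s65_mm_202_t : ∃ t, chk3 f_mm_202_t t 62 34 1 = true := ex3_a s64_mm_202_t k37_mm_202_t

theorem s66_mm_202_t : ∃ t, chk3 f_mm_202_t t 62 17 1 = true := ex3_b s65_mm_202_t k38_mm_202_t

theorem s67_mm_202_t : ∃ t, chk3 f_mm_202_t t 31 17 1 = true := ex3_a s66_mm_202_t k39_mm_202_t

theorem s68_mm_202_t : ∃ t, chk3 f_mm_202_t t 505 132 1 = true := ex3_b k28_mm_202_t k29_mm_202_t

theorem s69_mm_202_t : ∃ t, chk3 f_mm_202_t t 252 132 1 = true := ex3_a k27_mm_202_t s68_mm_202_t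

theorem s70_mm_202_t : ∃ t, chk3 f_mm_202_t t 252 66 1 = true := ex3_b s69_mm_202_t k30_mm_202_t

theorem s71_mm_202_t : ∃ t, chk3 f_mm_202_t t 126 66 1 = true := ex3_a s70_mm_202_t k31_mm_202_t

theorem s72_mm_202_t : ∃ t, chk3 f_mm_202_t t 126 33 1 = true := ex3_b s71_mm_202_t k32_mm_202_t

theorem s73_mm_202_t : ∃ t, chk3 f_mm_202_t t 63 33 1 = true := ex3_a s72_mm_202_t k33_mm_202_t

theorem s74_mm_202_t : ∃ t, chk3 f_mm_202_t t 250 67 1 = true := ex3_b k24_mm_202_t k25_mm_202_t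

theorem s75_mm_202_t : ∃ t, chk3 f_mm_202_t t 125 67 1 = true := ex3_a s74_mm_202_t k26_mm_202_t

theorem s76_mm_202_t : ∃ t, chk3 f_mm_202_t t 62 67 1 = true := ex3_a k23_mm_202_t s75_mm_202_t

theorem s77_mm_202_t : ∃ t, chk3 f_mm_202_t t 251 66 1 = true := ex3_b k21_mm_202_t k22_mm_202_t

theorem s78_mm_202_t : ∃ t, chk3 f_mm_202_t t 125 66 1 = true := ex3_a k20_mm_202_t s77_mm_202_t

theorem s79_mm_202_t : ∃ t, chk3 f_mm_202_t t 62 66 1 = true := ex3_a k19_mm_202_t s78_mm_202_t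

theorem s80_mm_202_t : ∃ t, chk3 f_mm_202_t t 62 33 1 = true := ex3_b s79_mm_202_t s76_mm_202_t

theorem s81_mm_202_t : ∃ t, chk3 f_mm_202_t t 31 33 1 = true := ex3_a s80_mm_202_t s73_mm_202_t

theorem s82_mm_202_t : ∃ t, chk3 f_mm_202_t t 253 131 1 = true := ex3_a k16_mm_202_t k17_mm_202_t

theorem s83_mm_202_t : ∃ t, chk3 f_mm_202_t t 253 65 1 = true := ex3_b k15_mm_202_t s82_mm_202_t

theorem s84_mm_202_t : ∃ t, chk3 f_mm_202_t t 126 65 1 = true := ex3_a k14_mm_202_t s83_mm_202_t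

theorem s85_mm_202_t : ∃ t, chk3 f_mm_202_t t 63 65 1 = true := ex3_a s84_mm_202_t k18_mm_202_t

theorem s86_mm_202_t : ∃ t, chk3 f_mm_202_t t 63 32 1 = true := ex3_b k13_mm_202_t s85_mm_202_t

theorem s87_mm_202_t : ∃ t, chk3 f_mm_202_t t 31 32 1 = true := ex3_a k12_mm_202_t s86_mm_202_t

theorem s88_mm_202_t : ∃ t, chk3 f_mm_202_t t 31 16 1 = true := ex3_b s87_mm_202_t s81_mm_202_t

theorem s89_mm_202_t : ∃ t, chk3 f_mm_202_t t 31 8 1 = true := ex3_b s88_mm_202_t s67_mm_202_t

theorem s90_mm_202_t : ∃ t, chk3 f_mm_202_t t 61 35 1 = true := ex3_a k10_mm_202_t k11_mm_202_t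

theorem s91_mm_202_t : ∃ t, chk3 f_mm_202_t t 61 34 1 = true := ex3_b k8_mm_202_t k9_mm_202_t

theorem s92_mm_202_t : ∃ t, chk3 f_mm_202_t t 61 17 1 = true := ex3_b s91_mm_202_t s90_mm_202_t

theorem s93_mm_202_t : ∃ t, chk3 f_mm_202_t t 30 17 1 = true := ex3_a k7_mm_202_t s92_mm_202_t

theorem s94_mm_202_t : ∃ t, chk3 f_mm_202_t t 30 16 1 = true := ex3_a k5_mm_202_t k6_mm_202_t

theorem s95_mm_202_t : ∃ t, chk3 f_mm_202_t t 30 8 1 = true := ex3_b s94_mm_202_t s93_mm_202_t

theorem s96_mm_202_t : ∃ t, chk3 f_mm_202_t t 15 8 1 = true := ex3_a s95_mm_202_t s89_mm_202_t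

theorem s97_mm_202_t : ∃ t, chk3 f_mm_202_t t 14 8 1 = true := ex3_b k3_mm_202_t k4_mm_202_t

theorem s98_mm_202_t : ∃ t, chk3 f_mm_202_t t 7 8 1 = true := ex3_a s97_mm_202_t s96_mm_202_t

theorem s99_mm_202_t : ∃ t, chk3 f_mm_202_t t 7 4 1 = true := ex3_b s98_mm_202_t s62_mm_202_t

theorem s100_mm_202_t : ∃ t, chk3 f_mm_202_t t 6 4 1 = true := ex3_b k1_mm_202_t k2_mm_202_t

theorem s101_mm_202_t : ∃ t, chk3 f_mm_202_t t 3 4 1 = true := ex3_a s100_mm_202_t s99_mm_202_t

theorem s102_mm_202_t : ∃ t, chk3 f_mm_202_t t 3 2 1 = true := ex3_b s101_mm_202_t s54_mm_202_t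

theorem s103_mm_202_t : ∃ t, chk3 f_mm_202_t t 1 2 1 = true := ex3_a k0_mm_202_t s102_mm_202_t

theorem s104_mm_202_t : ∃ t, chk3 f_mm_202_t t 1 1 1 = true := ex3_b s103_mm_202_t k52_mm_202_t

theorem c_mm_202_t : CertNE 0 536870912 0 536870912 1033476505 6710887 3 eng mog cd0q2 cd0q0 pd2 true false false .pp 2 0 2
    ndB0q2 ndB0q0 pcB2 cut_mm_202_t Ext.none :=
  certNE0 (fam := true) (s1 := false) (s2 := false) (a := 2) (b := 0) (c := 2) (cn := .pp) (n1 := ndB0q2) (n2 := ndB0q0) (pc := pcB2) (cut := cut_mm_202_t) (xt := Ext.none) (P1 := 0) (W1 := 536870912) (P2 := 0) (W2 := 536870912) (P3 := 1033476505) (W3 := 6710887) (N0 := 3) (En := eng) (mo := mog) (C1 := cd0q2) (C2 := cd0q0) (C3 := pd2)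
    rfl s104_mm_202_t

noncomputable def cut_mm_203_s : Cut := Cut.of [[⟨4, 0, 0, 1449551462⟩]]

noncomputable def f_mm_203_s : ℕ → ℕ → ℕ → ℕ → Bool := onCell 0 536870912 0 536870912 1033476505 6710887
    (rowNE 3 eng mog cd0q2 cd0q0 pd3 0 true false false .up 2 0 3 (qsf 0 536870912 0 536870912 3) ndB0q2 ndB0q0 pcB3 cut_mm_203_s Ext.none)

def k0_mm_203_s : ∃ t, chk3 f_mm_203_s t 1 1 1 = true :=
  ⟨(l 6), by decide +kernel⟩

theorem c_mm_203_s : CertNE 0 536870912 0 536870912 1033476505 6710887 3 eng mog cd0q2 cd0q0 pd3 true false false .up 2 0 3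
    ndB0q2 ndB0q0 pcB3 cut_mm_203_s Ext.none :=
  certNE0 (fam := true) (s1 := false) (s2 := false) (a := 2) (b := 0) (c := 3) (cn := .up) (n1 := ndB0q2) (n2 := ndB0q0) (pc := pcB3) (cut := cut_mm_203_s) (xt := Ext.none) (P1 := 0) (W1 := 536870912) (P2 := 0) (W2 := 536870912) (P3 := 1033476505) (W3 := 6710887) (N0 := 3) (En := eng) (mo := mog) (C1 := cd0q2) (C2 := cd0q0) (C3 := pd3)
    rfl k0_mm_203_s

noncomputable def cut_mm_203_t : Cut := Cut.of [[⟨3, 0, 0, 2845415833⟩]]

noncomputable def f_mm_203_t : ℕ → ℕ → ℕ → ℕ → Bool := onCell 0 536870912 1610612736 536870912 1033476505 6710887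
    (rowNE 3 eng mog cd0q2 cd0q0 pd3 1 true false false .up 2 0 3 (qsf 0 536870912 0 536870912 3) ndB0q2 ndB0q0 pcB3 cut_mm_203_t Ext.none)

def k0_mm_203_t : ∃ t, chk3 f_mm_203_t t 1 1 1 = true :=
  ⟨(b (a (b (b (a (a (b (b (a (l 15217680) (l 15500808)) (a (l 15334552) (l 15614568))) (b (a (l 15454664) (l 15730832)) (l 15502888))) (b (b (a (l 15782608) (l 16063304)) (a (l 15893176) (l 16170568))) (b (a (l 16005472) (l 16278784)) (a (l 16118640) (l 16366168))))) (a (b (a (b (l 16317432) (l 16379352)) (b (a (l 16540224) (b (l 16648168) (l 16697616))) (a (l 16641472) (b (l 16737520) (l 16763928))))) (a (b (a (l 16480296) (l 16591096)) (a (l 16584976) (l 16666408))) (b (a (b (l 16714632) (l 16749728)) (l 16774512)) (a (l 95260893015) (l 4))))) (b (a (b (a (b (l 16756360) (l 16773672)) (l 4)) (l 4)) (l 4)) (l 4)))) (a (b (a (b (l 15624064) (l 15745512)) (b (a (l 16231896) (l 16432008)) (a (l 16344528) (a (l 16537888) (l 16665240))))) (a (b (l 15824584) (a (l 16072792)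 (l 16320368))) (a (b (l 16434968) (a (l 16504696) (l 16626808))) (b (a (l 16644352) (l 17951464599)) (a (l 16691488) (l 16771640)))))) (a (a (b (b (a (l 16666096) (l 59290535159)) (a (l 41036898023) (l 4))) (l 4)) (l 4)) (l 4)))) (b (a (b (a (b (a (l 16194440) (l 16434784)) (a (l 16313480) (l 16545856))) (a (b (a (l 16613640) (l 16701712)) (a (l 16692064) (l 16749712))) (b (l 96334654247) (l 4)))) (a (l 2) (l 2))) (l 4)) (l 2))) (l 4)) (l 2)), by decide +kernel⟩

theorem c_mm_203_t : CertNE 0 536870912 0 536870912 1033476505 6710887 3 eng mog cd0q2 cd0q0 pd3 true false false .up 2 0 3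
    ndB0q2 ndB0q0 pcB3 cut_mm_203_t Ext.none :=
  certNE1 (fam := true) (s1 := false) (s2 := false) (a := 2) (b := 0) (c := 3) (cn := .up) (n1 := ndB0q2) (n2 := ndB0q0) (pc := pcB3) (cut := cut_mm_203_t) (xt := Ext.none) (P1 := 0) (W1 := 536870912) (P2 := 0) (W2 := 536870912) (P3 := 1033476505) (W3 := 6710887) (N0 := 3) (En := eng) (mo := mog) (C1 := cd0q2) (C2 := cd0q0) (C3 := pd3)
    rfl (fun _ => rfl) k0_mm_203_t

noncomputable def cut_mm_213_s : Cut := Cut.of [[⟨4, 0, 0, 1449551462⟩]]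

noncomputable def f_mm_213_s : ℕ → ℕ → ℕ → ℕ → Bool := onCell 0 536870912 536870912 536870912 1033476505 6710887
    (rowNE 3 eng mog cd0q2 cd0q1 pd3 0 true false false .pnn 2 1 3 (qsf 0 536870912 536870912 536870912 3) ndB0q2 ndB0q1 pcB3 cut_mm_213_s Ext.none)

def k0_mm_213_s : ∃ t, chk3 f_mm_213_s t 1 1 1 = true :=
  ⟨(l 6), by decide +kernel⟩

theorem c_mm_213_s : CertNE 0 536870912 536870912 536870912 1033476505 6710887 3 eng mog cd0q2 cd0q1 pd3 true false false .pnn 2 1 3
    ndB0q2 ndB0q1 pcB3 cut_mm_213_s Ext.none :=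
  certNE0 (fam := true) (s1 := false) (s2 := false) (a := 2) (b := 1) (c := 3) (cn := .pnn) (n1 := ndB0q2) (n2 := ndB0q1) (pc := pcB3) (cut := cut_mm_213_s) (xt := Ext.none) (P1 := 0) (W1 := 536870912) (P2 := 536870912) (W2 := 536870912) (P3 := 1033476505) (W3 := 6710887) (N0 := 3) (En := eng) (mo := mog) (C1 := cd0q2) (C2 := cd0q1) (C3 := pd3)
    rfl k0_mm_213_s

noncomputable def cut_mm_213_t : Cut := Cut.of [[⟨3, 0, 0, 2845415833⟩]]

noncomputable def f_mm_213_t : ℕ → ℕ → ℕ → ℕ → Bool := onCell 0 536870912 536870912 536870912 1033476505 6710887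
    (rowNE 3 eng mog cd0q2 cd0q1 pd3 0 true false false .pnn 2 1 3 (qsf 0 536870912 536870912 536870912 3) ndB0q2 ndB0q1 pcB3 cut_mm_213_t Ext.none)

def k0_mm_213_t : ∃ t, chk3 f_mm_213_t t 1 1 1 = true :=
  ⟨(a (b (a (b (b (a (b (a (b (l 16416456) (l 16528352)) (b (l 16591200) (a (l 16685392) (l 16694656)))) (a (b (l 16613672) (a (l 16686760) (l 16714616))) (b (a (l 16714856) (l 4)) (l 4)))) (b (a (b (a (l 16695936) (l 4)) (l 4)) (l 4)) (l 4))) (a (b (a (b (a (l 16714888) (l 4)) (l 4)) (l 4)) (l 4)) (l 4))) (l 4)) (l 4)) (l 4)) (l 4)), by decide +kernel⟩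

theorem c_mm_213_t : CertNE 0 536870912 536870912 536870912 1033476505 6710887 3 eng mog cd0q2 cd0q1 pd3 true false false .pnn 2 1 3
    ndB0q2 ndB0q1 pcB3 cut_mm_213_t Ext.none :=
  certNE0 (fam := true) (s1 := false) (s2 := false) (a := 2) (b := 1) (c := 3) (cn := .pnn) (n1 := ndB0q2) (n2 := ndB0q1) (pc := pcB3) (cut := cut_mm_213_t) (xt := Ext.none) (P1 := 0) (W1 := 536870912) (P2 := 536870912) (W2 := 536870912) (P3 := 1033476505) (W3 := 6710887) (N0 := 3) (En := eng) (mo := mog) (C1 := cd0q2) (C2 := cd0q1) (C3 := pd3)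
    rfl k0_mm_213_t

end Pool.Agent.Strip051.G.I9625_9688.Tab.CS.BA00

namespace Pool.Agent.Strip051.G.I9625_9688.Tab.CS.BA05

open Pool.Agent.Strip051.PB Pool.Agent.Strip051.PB.T
open Pool.Agent.Strip051.G.I9625_9688.Tab

noncomputable def cut_pp_001_s : Cut := Cut.of [[⟨4, 0, 0, 1449551462⟩]]

noncomputable def f_pp_001_s : ℕ → ℕ → ℕ → ℕ → Bool := onCell 0 536870912 0 536870912 1033476505 6710887
    (rowNE 3 eng mog cd0q0 cd5q0 pd1 0 true true true .up 0 0 1 (qsf 0 536870912 0 536870912 1) ndB0q0 ndB5q0 pcB1 cut_pp_001_s Ext.none)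

def k0_pp_001_s : ∃ t, chk3 f_pp_001_s t 1 1 1 = true :=
  ⟨(l 4), by decide +kernel⟩

theorem c_pp_001_s : CertNE 0 536870912 0 536870912 1033476505 6710887 3 eng mog cd0q0 cd5q0 pd1 true true true .up 0 0 1
    ndB0q0 ndB5q0 pcB1 cut_pp_001_s Ext.none :=
  certNE0 (fam := true) (s1 := true) (s2 := true) (a := 0) (b := 0) (c := 1) (cn := .up) (n1 := ndB0q0) (n2 := ndB5q0) (pc := pcB1) (cut := cut_pp_001_s) (xt := Ext.none) (P1 := 0) (W1 := 536870912) (P2 := 0) (W2 := 536870912) (P3 := 1033476505) (W3 := 6710887) (N0 := 3) (En := eng) (mo := mog) (C1 := cd0q0) (C2 := cd5q0) (C3 := pd1)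
    rfl k0_pp_001_s

noncomputable def cut_pp_011_s : Cut := Cut.of [[⟨4, 0, 0, 1449551462⟩]]

noncomputable def f_pp_011_s : ℕ → ℕ → ℕ → ℕ → Bool := onCell 0 536870912 536870912 536870912 1033476505 6710887
    (rowNE 3 eng mog cd0q0 cd5q1 pd1 0 true true true .pnn 0 1 1 (qsf 0 536870912 536870912 536870912 1) ndB0q0 ndB5q1 pcB1 cut_pp_011_s Ext.none)

def k0_pp_011_s : ∃ t, chk3 f_pp_011_s t 1 1 1 = true :=
  ⟨(l 4), by decide +kernel⟩

theorem c_pp_011_s : CertNE 0 536870912 536870912 536870912 1033476505 6710887 3 eng mog cd0q0 cd5q1 pd1 true true true .pnn 0 1 1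
    ndB0q0 ndB5q1 pcB1 cut_pp_011_s Ext.none :=
  certNE0 (fam := true) (s1 := true) (s2 := true) (a := 0) (b := 1) (c := 1) (cn := .pnn) (n1 := ndB0q0) (n2 := ndB5q1) (pc := pcB1) (cut := cut_pp_011_s) (xt := Ext.none) (P1 := 0) (W1 := 536870912) (P2 := 536870912) (W2 := 536870912) (P3 := 1033476505) (W3 := 6710887) (N0 := 3) (En := eng) (mo := mog) (C1 := cd0q0) (C2 := cd5q1) (C3 := pd1)
    rfl k0_pp_011_s

noncomputable def cut_pp_012_s : Cut := Cut.of [[⟨4, 0, 0, 1449551462⟩]]

noncomputable def f_pp_012_s : ℕ → ℕ → ℕ → ℕ → Bool := onCell 0 536870912 536870912 536870912 1033476505 6710887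
    (rowNE 3 eng mog cd0q0 cd5q1 pd2 0 true true true .pnp 0 1 2 (qsf 0 536870912 536870912 536870912 2) ndB0q0 ndB5q1 pcB2 cut_pp_012_s Ext.none)

def k0_pp_012_s : ∃ t, chk3 f_pp_012_s t 1 1 1 = true :=
  ⟨(l 4), by decide +kernel⟩

theorem c_pp_012_s : CertNE 0 536870912 536870912 536870912 1033476505 6710887 3 eng mog cd0q0 cd5q1 pd2 true true true .pnp 0 1 2
    ndB0q0 ndB5q1 pcB2 cut_pp_012_s Ext.none :=
  certNE0 (fam := true) (s1 := true) (s2 := true) (a := 0) (b := 1) (c := 2) (cn := .pnp) (n1 := ndB0q0) (n2 := ndB5q1) (pc := pcB2) (cut := cut_pp_012_s) (xt := Ext.none) (P1 := 0) (W1 := 536870912) (P2 := 536870912) (W2 := 536870912) (P3 := 1033476505) (W3 := 6710887) (N0 := 3) (En := eng) (mo := mog) (C1 := cd0q0) (C2 := cd5q1) (C3 := pd2)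
    rfl k0_pp_012_s

noncomputable def cut_pp_022_s : Cut := Cut.of [[⟨4, 0, 0, 1449551462⟩]]

noncomputable def f_pp_022_s : ℕ → ℕ → ℕ → ℕ → Bool := onCell 0 536870912 1073741824 536870912 1033476505 6710887
    (rowNE 3 eng mog cd0q0 cd5q2 pd2 0 true true true .pp 0 2 2 (qsf 0 536870912 1073741824 536870912 2) ndB0q0 ndB5q2 pcB2 cut_pp_022_s Ext.none)

def k0_pp_022_s : ∃ t, chk3 f_pp_022_s t 1 1 1 = true :=
  ⟨(l 4), by decide +kernel⟩

theorem c_pp_022_s : CertNE 0 536870912 1073741824 536870912 1033476505 6710887 3 eng mog cd0q0 cd5q2 pd2 true true true .pp 0 2 2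
    ndB0q0 ndB5q2 pcB2 cut_pp_022_s Ext.none :=
  certNE0 (fam := true) (s1 := true) (s2 := true) (a := 0) (b := 2) (c := 2) (cn := .pp) (n1 := ndB0q0) (n2 := ndB5q2) (pc := pcB2) (cut := cut_pp_022_s) (xt := Ext.none) (P1 := 0) (W1 := 536870912) (P2 := 1073741824) (W2 := 536870912) (P3 := 1033476505) (W3 := 6710887) (N0 := 3) (En := eng) (mo := mog) (C1 := cd0q0) (C2 := cd5q2) (C3 := pd2)
    rfl k0_pp_022_s

noncomputable def cut_pp_023_s : Cut := Cut.of [[⟨4, 0, 0, 1449551462⟩]]

noncomputable def f_pp_023_s : ℕ → ℕ → ℕ → ℕ → Bool := onCell 0 536870912 1073741824 536870912 1033476505 6710887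
    (rowNE 3 eng mog cd0q0 cd5q2 pd3 0 true true true .up 0 2 3 (qsf 0 536870912 1073741824 536870912 3) ndB0q0 ndB5q2 pcB3 cut_pp_023_s Ext.none)

def k0_pp_023_s : ∃ t, chk3 f_pp_023_s t 1 1 1 = true :=
  ⟨(l 4), by decide +kernel⟩

theorem c_pp_023_s : CertNE 0 536870912 1073741824 536870912 1033476505 6710887 3 eng mog cd0q0 cd5q2 pd3 true true true .up 0 2 3
    ndB0q0 ndB5q2 pcB3 cut_pp_023_s Ext.none :=
  certNE0 (fam := true) (s1 := true) (s2 := true) (a := 0) (b := 2) (c := 3) (cn := .up) (n1 := ndB0q0) (n2 := ndB5q2) (pc := pcB3) (cut := cut_pp_023_s) (xt := Ext.none) (P1 := 0) (W1 := 536870912) (P2 := 1073741824) (W2 := 536870912) (P3 := 1033476505) (W3 := 6710887) (N0 := 3) (En := eng) (mo := mog) (C1 := cd0q0) (C2 := cd5q2) (C3 := pd3)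
    rfl k0_pp_023_s

noncomputable def cut_pp_033_s : Cut := Cut.of [[⟨4, 0, 0, 1449551462⟩]]

noncomputable def f_pp_033_s : ℕ → ℕ → ℕ → ℕ → Bool := onCell 0 536870912 0 1230186008 1033476505 6710887
    (rowNE 3 eng mog cd0q0 cd5q3 pd3 0 true true true .pnn 0 3 3 (qsf 0 536870912 0 1230186008 3) ndB0q0 ndB5q3 pcB3 cut_pp_033_s Ext.none)

def k0_pp_033_s : ∃ t, chk3 f_pp_033_s t 1 1 1 = true :=
  ⟨(l 4), by decide +kernel⟩

theorem c_pp_033_s : CertNE 0 536870912 0 1230186008 1033476505 6710887 3 eng mog cd0q0 cd5q3 pd3 true true true .pnn 0 3 3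
    ndB0q0 ndB5q3 pcB3 cut_pp_033_s Ext.none :=
  certNE0 (fam := true) (s1 := true) (s2 := true) (a := 0) (b := 3) (c := 3) (cn := .pnn) (n1 := ndB0q0) (n2 := ndB5q3) (pc := pcB3) (cut := cut_pp_033_s) (xt := Ext.none) (P1 := 0) (W1 := 536870912) (P2 := 0) (W2 := 1230186008) (P3 := 1033476505) (W3 := 6710887) (N0 := 3) (En := eng) (mo := mog) (C1 := cd0q0) (C2 := cd5q3) (C3 := pd3)
    rfl k0_pp_033_s

noncomputable def cut_pp_101_s : Cut := Cut.of [[⟨4, 0, 0, 1449551462⟩]]

noncomputable def f_pp_101_s : ℕ → ℕ → ℕ → ℕ → Bool := onCell 536870912 536870912 0 536870912 1033476505 6710887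
    (rowNE 3 eng mog cd0q1 cd5q0 pd1 0 true true true .npn 1 0 1 (qsf 536870912 536870912 0 536870912 1) ndB0q1 ndB5q0 pcB1 cut_pp_101_s Ext.none)

def k0_pp_101_s : ∃ t, chk3 f_pp_101_s t 1 1 1 = true :=
  ⟨(l 4), by decide +kernel⟩

theorem c_pp_101_s : CertNE 536870912 536870912 0 536870912 1033476505 6710887 3 eng mog cd0q1 cd5q0 pd1 true true true .npn 1 0 1
    ndB0q1 ndB5q0 pcB1 cut_pp_101_s Ext.none :=
  certNE0 (fam := true) (s1 := true) (s2 := true) (a := 1) (b := 0) (c := 1) (cn := .npn) (n1 := ndB0q1) (n2 := ndB5q0) (pc := pcB1) (cut := cut_pp_101_s) (xt := Ext.none) (P1 := 536870912) (W1 := 536870912) (P2 := 0) (W2 := 536870912) (P3 := 1033476505) (W3 := 6710887) (N0 := 3) (En := eng) (mo := mog) (C1 := cd0q1) (C2 := cd5q0) (C3 := pd1)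
    rfl k0_pp_101_s

noncomputable def cut_pp_102_s : Cut := Cut.of [[⟨4, 0, 0, 1449551462⟩]]

noncomputable def f_pp_102_s : ℕ → ℕ → ℕ → ℕ → Bool := onCell 536870912 536870912 0 536870912 1033476505 6710887
    (rowNE 3 eng mog cd0q1 cd5q0 pd2 0 true true true .npp 1 0 2 (qsf 536870912 536870912 0 536870912 2) ndB0q1 ndB5q0 pcB2 cut_pp_102_s Ext.none)

def k0_pp_102_s : ∃ t, chk3 f_pp_102_s t 1 1 1 = true :=
  ⟨(l 4), by decide +kernel⟩

theorem c_pp_102_s : CertNE 536870912 536870912 0 536870912 1033476505 6710887 3 eng mog cd0q1 cd5q0 pd2 true true true .npp 1 0 2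
    ndB0q1 ndB5q0 pcB2 cut_pp_102_s Ext.none :=
  certNE0 (fam := true) (s1 := true) (s2 := true) (a := 1) (b := 0) (c := 2) (cn := .npp) (n1 := ndB0q1) (n2 := ndB5q0) (pc := pcB2) (cut := cut_pp_102_s) (xt := Ext.none) (P1 := 536870912) (W1 := 536870912) (P2 := 0) (W2 := 536870912) (P3 := 1033476505) (W3 := 6710887) (N0 := 3) (En := eng) (mo := mog) (C1 := cd0q1) (C2 := cd5q0) (C3 := pd2)
    rfl k0_pp_102_s

noncomputable def cut_pp_112_s : Cut := Cut.of [[⟨4, 0, 0, 1449551462⟩]]

noncomputable def f_pp_112_s : ℕ → ℕ → ℕ → ℕ → Bool := onCell 536870912 536870912 536870912 536870912 1033476505 6710887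
    (rowNE 3 eng mog cd0q1 cd5q1 pd2 0 true true true .dn 1 1 2 (qsf 536870912 536870912 536870912 536870912 2) ndB0q1 ndB5q1 pcB2 cut_pp_112_s Ext.none)

def k0_pp_112_s : ∃ t, chk3 f_pp_112_s t 1 1 1 = true :=
  ⟨(l 4), by decide +kernel⟩

theorem c_pp_112_s : CertNE 536870912 536870912 536870912 536870912 1033476505 6710887 3 eng mog cd0q1 cd5q1 pd2 true true true .dn 1 1 2
    ndB0q1 ndB5q1 pcB2 cut_pp_112_s Ext.none :=
  certNE0 (fam := true) (s1 := true) (s2 := true) (a := 1) (b := 1) (c := 2) (cn := .dn) (n1 := ndB0q1) (n2 := ndB5q1) (pc := pcB2) (cut := cut_pp_112_s) (xt := Ext.none) (P1 := 536870912) (W1 := 536870912) (P2 := 536870912) (W2 := 536870912) (P3 := 1033476505) (W3 := 6710887) (N0 := 3) (En := eng) (mo := mog) (C1 := cd0q1) (C2 := cd5q1) (C3 := pd2)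
    rfl k0_pp_112_s

noncomputable def cut_pp_113_s : Cut := Cut.of [[⟨4, 0, 0, 1449551462⟩]]

noncomputable def f_pp_113_s : ℕ → ℕ → ℕ → ℕ → Bool := onCell 536870912 536870912 536870912 536870912 1033476505 6710887
    (rowNE 3 eng mog cd0q1 cd5q1 pd3 0 true true true .nn 1 1 3 (qsf 536870912 536870912 536870912 536870912 3) ndB0q1 ndB5q1 pcB3 cut_pp_113_s Ext.none)

def k0_pp_113_s : ∃ t, chk3 f_pp_113_s t 1 1 1 = true :=
  ⟨(l 4), by decide +kernel⟩

theorem c_pp_113_s : CertNE 536870912 536870912 536870912 536870912 1033476505 6710887 3 eng mog cd0q1 cd5q1 pd3 true true true .nn 1 1 3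
    ndB0q1 ndB5q1 pcB3 cut_pp_113_s Ext.none :=
  certNE0 (fam := true) (s1 := true) (s2 := true) (a := 1) (b := 1) (c := 3) (cn := .nn) (n1 := ndB0q1) (n2 := ndB5q1) (pc := pcB3) (cut := cut_pp_113_s) (xt := Ext.none) (P1 := 536870912) (W1 := 536870912) (P2 := 536870912) (W2 := 536870912) (P3 := 1033476505) (W3 := 6710887) (N0 := 3) (En := eng) (mo := mog) (C1 := cd0q1) (C2 := cd5q1) (C3 := pd3)
    rfl k0_pp_113_s

noncomputable def cut_pp_123_s : Cut := Cut.of [[⟨4, 0, 0, 1449551462⟩]]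

noncomputable def f_pp_123_s : ℕ → ℕ → ℕ → ℕ → Bool := onCell 536870912 536870912 1073741824 536870912 1033476505 6710887
    (rowNE 3 eng mog cd0q1 cd5q2 pd3 0 true true true .npn 1 2 3 (qsf 536870912 536870912 1073741824 536870912 3) ndB0q1 ndB5q2 pcB3 cut_pp_123_s Ext.none)

def k0_pp_123_s : ∃ t, chk3 f_pp_123_s t 1 1 1 = true :=
  ⟨(l 4), by decide +kernel⟩

theorem c_pp_123_s : CertNE 536870912 536870912 1073741824 536870912 1033476505 6710887 3 eng mog cd0q1 cd5q2 pd3 true true true .npn 1 2 3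
    ndB0q1 ndB5q2 pcB3 cut_pp_123_s Ext.none :=
  certNE0 (fam := true) (s1 := true) (s2 := true) (a := 1) (b := 2) (c := 3) (cn := .npn) (n1 := ndB0q1) (n2 := ndB5q2) (pc := pcB3) (cut := cut_pp_123_s) (xt := Ext.none) (P1 := 536870912) (W1 := 536870912) (P2 := 1073741824) (W2 := 536870912) (P3 := 1033476505) (W3 := 6710887) (N0 := 3) (En := eng) (mo := mog) (C1 := cd0q1) (C2 := cd5q2) (C3 := pd3)
    rfl k0_pp_123_s

noncomputable def cut_pp_133_s : Cut := Cut.of [[⟨4, 0, 0, 1449551462⟩]]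

noncomputable def f_pp_133_s : ℕ → ℕ → ℕ → ℕ → Bool := onCell 536870912 536870912 0 1230186008 1033476505 6710887
    (rowNE 3 eng mog cd0q1 cd5q3 pd3 0 true true true .dn 1 3 3 (qsf 536870912 536870912 0 1230186008 3) ndB0q1 ndB5q3 pcB3 cut_pp_133_s Ext.none)

def k0_pp_133_s : ∃ t, chk3 f_pp_133_s t 1 1 1 = true :=
  ⟨(l 4), by decide +kernel⟩

theorem c_pp_133_s : CertNE 536870912 536870912 0 1230186008 1033476505 6710887 3 eng mog cd0q1 cd5q3 pd3 true true true .dn 1 3 3
    ndB0q1 ndB5q3 pcB3 cut_pp_133_s Ext.none :=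
  certNE0 (fam := true) (s1 := true) (s2 := true) (a := 1) (b := 3) (c := 3) (cn := .dn) (n1 := ndB0q1) (n2 := ndB5q3) (pc := pcB3) (cut := cut_pp_133_s) (xt := Ext.none) (P1 := 536870912) (W1 := 536870912) (P2 := 0) (W2 := 1230186008) (P3 := 1033476505) (W3 := 6710887) (N0 := 3) (En := eng) (mo := mog) (C1 := cd0q1) (C2 := cd5q3) (C3 := pd3)
    rfl k0_pp_133_s

noncomputable def cut_pp_202_s : Cut := Cut.of [[⟨4, 0, 0, 1449551462⟩]]

noncomputable def f_pp_202_s : ℕ → ℕ → ℕ → ℕ → Bool := onCell 0 536870912 0 536870912 1033476505 6710887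
    (rowNE 3 eng mog cd0q2 cd5q0 pd2 0 true true true .pp 2 0 2 (qsf 0 536870912 0 536870912 2) ndB0q2 ndB5q0 pcB2 cut_pp_202_s Ext.none)

def k0_pp_202_s : ∃ t, chk3 f_pp_202_s t 1 1 1 = true :=
  ⟨(l 4), by decide +kernel⟩

theorem c_pp_202_s : CertNE 0 536870912 0 536870912 1033476505 6710887 3 eng mog cd0q2 cd5q0 pd2 true true true .pp 2 0 2
    ndB0q2 ndB5q0 pcB2 cut_pp_202_s Ext.none :=
  certNE0 (fam := true) (s1 := true) (s2 := true) (a := 2) (b := 0) (c := 2) (cn := .pp) (n1 := ndB0q2) (n2 := ndB5q0) (pc := pcB2) (cut := cut_pp_202_s) (xt := Ext.none) (P1 := 0) (W1 := 536870912) (P2 := 0) (W2 := 536870912) (P3 := 1033476505) (W3 := 6710887) (N0 := 3) (En := eng) (mo := mog) (C1 := cd0q2) (C2 := cd5q0) (C3 := pd2)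
    rfl k0_pp_202_s

noncomputable def cut_pp_203_s : Cut := Cut.of [[⟨4, 0, 0, 1449551462⟩]]

noncomputable def f_pp_203_s : ℕ → ℕ → ℕ → ℕ → Bool := onCell 0 536870912 0 536870912 1033476505 6710887
    (rowNE 3 eng mog cd0q2 cd5q0 pd3 0 true true true .up 2 0 3 (qsf 0 536870912 0 536870912 3) ndB0q2 ndB5q0 pcB3 cut_pp_203_s Ext.none)

def k0_pp_203_s : ∃ t, chk3 f_pp_203_s t 1 1 1 = true :=
  ⟨(l 4), by decide +kernel⟩

theorem c_pp_203_s : CertNE 0 536870912 0 536870912 1033476505 6710887 3 eng mog cd0q2 cd5q0 pd3 true true true .up 2 0 3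
    ndB0q2 ndB5q0 pcB3 cut_pp_203_s Ext.none :=
  certNE0 (fam := true) (s1 := true) (s2 := true) (a := 2) (b := 0) (c := 3) (cn := .up) (n1 := ndB0q2) (n2 := ndB5q0) (pc := pcB3) (cut := cut_pp_203_s) (xt := Ext.none) (P1 := 0) (W1 := 536870912) (P2 := 0) (W2 := 536870912) (P3 := 1033476505) (W3 := 6710887) (N0 := 3) (En := eng) (mo := mog) (C1 := cd0q2) (C2 := cd5q0) (C3 := pd3)
    rfl k0_pp_203_s

noncomputable def cut_pp_213_s : Cut := Cut.of [[⟨4, 0, 0, 1449551462⟩]]

noncomputable def f_pp_213_s : ℕ → ℕ → ℕ → ℕ → Bool := onCell 0 536870912 536870912 536870912 1033476505 6710887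
    (rowNE 3 eng mog cd0q2 cd5q1 pd3 0 true true true .pnn 2 1 3 (qsf 0 536870912 536870912 536870912 3) ndB0q2 ndB5q1 pcB3 cut_pp_213_s Ext.none)

def k0_pp_213_s : ∃ t, chk3 f_pp_213_s t 1 1 1 = true :=
  ⟨(l 4), by decide +kernel⟩

theorem c_pp_213_s : CertNE 0 536870912 536870912 536870912 1033476505 6710887 3 eng mog cd0q2 cd5q1 pd3 true true true .pnn 2 1 3
    ndB0q2 ndB5q1 pcB3 cut_pp_213_s Ext.none :=
  certNE0 (fam := true) (s1 := true) (s2 := true) (a := 2) (b := 1) (c := 3) (cn := .pnn) (n1 := ndB0q2) (n2 := ndB5q1) (pc := pcB3) (cut := cut_pp_213_s) (xt := Ext.none) (P1 := 0) (W1 := 536870912) (P2 := 536870912) (W2 := 536870912) (P3 := 1033476505) (W3 := 6710887) (N0 := 3) (En := eng) (mo := mog) (C1 := cd0q2) (C2 := cd5q1) (C3 := pd3)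
    rfl k0_pp_213_s

noncomputable def cut_pm_001_s : Cut := Cut.of [[⟨4, 0, 0, 1449551462⟩]]

noncomputable def f_pm_001_s : ℕ → ℕ → ℕ → ℕ → Bool := onCell 0 536870912 536870912 536870912 1033476505 6710887
    (rowNE 3 eng mog cd0q0 cd5q0 pd1 1 true true false .up 0 0 1 (qsf 0 536870912 0 536870912 1) ndB0q0 ndB5q0 pcB1 cut_pm_001_s Ext.none)

def k0_pm_001_s : ∃ t, chk3 f_pm_001_s t 1 1 1 = true :=
  ⟨(a (b (l 3) (b (b (l 3) (l 2)) (l 2))) (b (b (l 3) (a (l 3) (b (a (l 3) (a (b (l 3) (l 365240073527)) (b (l 373829827767) (b (l 284172379335) (l 16739288))))) (a (b (a (l 3) (b (l 3) (l 362555549079))) (a (b (l 401747165015) (l 349670659543)) (b (l 16759864) (l 16742760)))) (b (a (b (l 277729939703) (l 16739872)) (l 16697984)) (a (l 16710288) (l 16672576))))))) (b (a (b (a (a (l 3) (b (l 3) (b (l 3) (l 377051047927)))) (b (a (l 3) (b (l 388325381479) (l 347523190199))) (a (b (l 365239924423) (l 253570782215)) (b (l 16771080) (l 16768384))))) (a (b (a (l 2) (b (l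 237934387495) (l 2))) (l 2)) (b (a (b (l 16768248) (l 16745440)) (l 16747880)) (a (b (l 16706120) (l 2)) (b (l 16677976) (l 16602264)))))) (b (a (b (a (b (l 16761440) (l 16754840)) (l 16731736)) (a (l 16766136) (l 16762448))) (b (a (l 16709456) (l 16692424)) (a (l 16757976) (l 16748096)))) (a (b (a (l 16736928) (l 16728296)) (a (l 16613424) (l 16587352))) (b (a (l 16721848) (l 16716224)) (a (l 16564944) (l 16545104)))))) (b (a (a (l 2) (b (a (l 2) (l 16316504)) (l 2))) (a (b (a (l 16382936) (l 16370752)) (a (l 16157880) (l 16126880))) (b (a (l 16343240) (l 16320448)) (a (l 16109416) (l 16095000))))) (a (l 2) (b (a (a (l 2) (l 15915344)) (a (l 15896144) (l 15894800))) (a (l 2) (l 15719352)))))))), by decide +kernel⟩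

theorem c_pm_001_s : CertNE 0 536870912 0 536870912 1033476505 6710887 3 eng mog cd0q0 cd5q0 pd1 true true false .up 0 0 1
    ndB0q0 ndB5q0 pcB1 cut_pm_001_s Ext.none :=
  certNE1 (fam := true) (s1 := true) (s2 := false) (a := 0) (b := 0) (c := 1) (cn := .up) (n1 := ndB0q0) (n2 := ndB5q0) (pc := pcB1) (cut := cut_pm_001_s) (xt := Ext.none) (P1 := 0) (W1 := 536870912) (P2 := 0) (W2 := 536870912) (P3 := 1033476505) (W3 := 6710887) (N0 := 3) (En := eng) (mo := mog) (C1 := cd0q0) (C2 := cd5q0) (C3 := pd1)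
    rfl (fun _ => rfl) k0_pm_001_s

noncomputable def cut_pm_011_s : Cut := Cut.of [[⟨4, 0, 0, 1449551462⟩], [⟨0, 0, 0, 22369621⟩, ⟨1, 1, 0, 22369621⟩, ⟨2, 1, 0, 22369621⟩]]

noncomputable def f_pm_011_s : ℕ → ℕ → ℕ → ℕ → Bool := onCell 0 536870912 536870912 536870912 1033476505 6710887
    (rowNE 3 eng mog cd0q0 cd5q1 pd1 1 true true false .pnn 0 1 1 (qsf 0 536870912 536870912 536870912 1) ndB0q0 ndB5q1 pcB1 cut_pm_011_s Ext.none)

def k0_pm_011_s : ∃ t, chk3 f_pm_011_s t 2 2 1 = true :=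
  ⟨(l 3), by decide +kernel⟩

def k1_pm_011_s : ∃ t, chk3 f_pm_011_s t 2 6 1 = true :=
  ⟨(a (l 3) (b (l 3) (a (l 3) (b (l 3) (a (b (l 3) (a (l 3) (b (l 3) (l 635822755143)))) (b (a (l 3) (b (l 381882841175) (l 351818105239))) (a (b (l 363629182439) (l 16725816)) (b (l 16763376) (l 16740224))))))))), by decide +kernel⟩

def k2_pm_011_s : ∃ t, chk3 f_pm_011_s t 4 14 1 = true :=
  ⟨(a (l 3) (a (l 3) (b (l 3) (a (l 3) (b (l 3) (b (l 3) (a (b (l 3) (a (l 3) (b (l 3) (a (l 991768283847) (l 315847778231))))) (b (a (l 3) (b (l 981030840919) (l 362555528503))) (a (c (b (l 353428704663) (l 16772856)) (l 312626508823)) (l 16758392)))))))))), by decide +kernel⟩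

def k3_pm_011_s : ∃ t, chk3 f_pm_011_s t 8 30 1 = true :=
  ⟨(a (l 3) (b (l 3) (b (l 3) (a (l 3) (a (l 3) (b (l 3) (a (l 3) (b (l 3) (a (b (l 3) (c (c (l 774335596327) (l 774335595399)) (l 773798723095))) (c (b (c (l 754471377431) (l 755545118519)) (c (l 242833383111) (l 248738962983))) (b (l 756081988311) (l 251960187799)))))))))))), by decide +kernel⟩

def k4_pm_011_s : ∃ t, chk3 f_pm_011_s t 16 62 1 = true :=
  ⟨(a (l 3) (b (l 3) (a (l 3) (b (l 3) (a (l 3) (b (l 3) (a (l 3) (a (l 3) (b (l 3) (b (l 3) (c (c (l 777019977191) (l 782388685511)) (l 783999300967)))))))))))), by decide +kernel⟩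

def k5_pm_011_s : ∃ t, chk3 f_pm_011_s t 32 63 1 = true :=
  ⟨(b (a (l 3) (b (l 3) (a (l 3) (b (l 3) (a (l 3) (b (l 3) (a (l 3) (b (l 3) (a (l 3) (b (l 3) (a (l 3) (a (c (l 749639565671) (l 757692629351)) (b (l 3) (c (l 16777208) (l 16777208))))))))))))))) (a (l 14) (b (a (l 14) (b (a (b (b (l 3) (b (l 3) (l 14))) (l 14)) (b (b (b (a (l 3) (a (a (l 3) (a (c (l 767893176695) (l 775946240375)) (b (l 3) (c (l 144586047815) (l 16777216))))) (c (a (b (a (l 503752688055) (l 124184953159)) (l 16777016)) (l 16776864)) (a (a (b (l 510732009911) (l 16777088)) (l 16777088)) (l 16776864))))) (a (b (l 3) (a (l 3) (a (l 3) (c (a (l 552071070151) (c (l 234243490055) (l 16777224))) (a (l 559050392007) (l 178408915287)))))) (a (c (a (b (a (l 532206846407) (a (l 283635614007) (l 16777200))) (l 16777024)) (l 16776880)) (a (b (a (l 539186168263) (l 16777384)) (l 16777024)) (l 16776880))) (l 16776448)))) (a (a (b (b (l 3) (a (l 3) (c (a (l 578377744855) (c (l 261087035671) (l 260013293847)))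 (a (l 585357066711) (l 268603228439))))) (a (b (b (c (l 615421837783) (l 624011772375)) (a (l 14) (c (l 16777192) (l 16777192)))) (c (l 16777056) (l 16777056))) (c (l 16776904) (l 16776904)))) (b (c (a (b (a (l 558513521111) (a (l 316384739655) (l 16777208))) (l 16777040)) (l 16776888)) (a (b (a (l 566029713879) (l 185388237159)) (l 16777040)) (l 16776888))) (l 16775160))) (c (l 16773264) (l 16773264)))) (a (b (c (l 16773288) (l 16774600)) (l 16774784)) (a (l 16771872) (l 16773928))))) (a (l 14) (b (c (l 16772560) (l 16769936)) (l 14))))) (l 14)))), by decide +kernel⟩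

def k6_pm_011_s : ∃ t, chk3 f_pm_011_s t 66 252 1 = true :=
  ⟨(a (l 3) (b (l 3) (a (l 3) (b (l 3) (a (l 3) (b (l 3) (a (l 3) (c (b (l 3) (a (b (l 3) (l 293299290647)) (c (l 16777160) (l 16777160)))) (l 869898647591))))))))), by decide +kernel⟩

def k7_pm_011_s : ∃ t, chk3 f_pm_011_s t 132 506 1 = true :=
  ⟨(a (l 3) (b (l 3) (a (l 3) (b (l 3) (a (l 3) (b (l 3) (a (c (l 821043397095) (l 830170202599)) (c (b (l 539186168471) (l 16777168)) (b (l 573009035927) (l 16777168)))))))))), by decide +kernel⟩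

def k8_pm_011_s : ∃ t, chk3 f_pm_011_s t 132 507 1 = true :=
  ⟨(a (b (a (l 3) (b (l 3) (a (l 3) (b (l 3) (a (l 3) (b (l 3) (c (c (l 16777376) (l 16777216)) (l 164987142551)))))))) (a (b (a (l 3) (b (l 3) (b (l 3) (a (l 3) (a (c (l 433959469447) (l 439865049479)) (c (l 16777184) (l 16777184))))))) (a (b (b (l 3) (b (c (l 750176435255) (l 759303242071)) (a (l 3) (c (l 16777200) (l 16777200))))) (a (a (b (c (l 474224787879) (l 480667238823)) (l 16777072)) (c (l 16777072) (l 16777072))) (l 238001584727))) (b (a (a (b (c (l 443623145879) (l 449528725911)) (l 16777064)) (c (l 16777064) (l 16777064))) (l 16776184)) (l 16776416)))) (b (a (b (a (l 3) (b (l 3) (c (c (l 173040206263) (l 172503335351)) (l 181630139543)))) (a (a (b (c (l 411410891143) (l 417316471175)) (l 16777048)) (c (l 16777048) (l 16777048))) (l 16776824))) (a (b (b (c (c (l 164987142567) (l 16777216)) (l 173040206247)) (l 16776960)) (l 16776536)) (l 16775872))) (a (l 16774816) (l 16775552))))) (b (a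 (a (b (l 3) (b (a (l 3) (c (b (l 867751166311) (l 133311757415)) (b (l 877414842727) (l 16777200)))) (a (b (c (c (l 16777208) (l 16777208)) (l 146733531543)) (l 16776944)) (l 16776800)))) (b (b (l 3) (a (c (l 861308715527) (l 870972391943)) (c (b (l 838760137047) (l 16777192)) (b (l 847886942551) (l 16777192))))) (a (b (b (c (l 115058147719) (l 16777200)) (l 16776928)) (l 16776504)) (l 16775192)))) (b (a (c (b (a (l 841444491767) (b (l 585893937847) (l 16777184))) (a (l 16777224) (l 16776768))) (b (a (l 850571297271) (b (l 603073807015) (l 16777184))) (l 16776920))) (b (c (l 16776904) (l 16776896)) (l 16776336))) (a (l 16773448) (l 16775496)))) (a (c (l 16772632) (l 16773936)) (l 16771488)))), by decide +kernel⟩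

def k9_pm_011_s : ∃ t, chk3 f_pm_011_s t 133 253 1 = true :=
  ⟨(b (a (b (a (l 3) (b (l 3) (a (l 3) (b (l 3) (c (a (l 713132343703) (b (l 402284085863) (l 16777112))) (a (l 731385954695) (a (l 276119421527) (l 16777168)))))))) (a (b (a (l 3) (b (l 3) (a (c (l 757692629431) (l 765208822199)) (b (c (l 458118660759) (l 464024240791)) (c (l 16777144) (l 16777144)))))) (a (b (b (c (l 792052367815) (l 800642302407)) (c (a (l 519321944727) (l 16777160)) (a (l 525227524759) (l 16777160)))) (c (l 16776880) (l 16776880))) (c (l 16776584) (l 16776584)))) (b (a (b (c (a (l 735144051111) (b (l 425906406023) (l 16777128))) (a (l 747492082087) (b (l 436106953351) (l 16777128)))) (c (l 16776848) (l 16776848))) (c (l 16776552) (l 16776552))) (l 16774408)))) (b (a (b (a (l 3) (c (b (l 3) (a (b (l 3) (l 356113187399)) (c (l 94657050663) (l 97878278759)))) (a (l 1010558828103) (l 732996561367)))) (b (c (a (a (l 695952474487) (c (l 118816243031) (l 120963725367))) (l 16776792)) (a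 (a (l 708300505463) (b (l 407115924007) (l 16777088))) (l 16776792))) (c (l 16776520) (l 16776520)))) (b (b (a (a (c (b (l 3) (l 320679707191)) (l 938618125655)) (c (c (l 16777176) (l 16777176)) (l 16777176))) (l 262697646311)) (c (l 16776488) (l 16776488))) (l 16773024))) (b (c (l 16775112) (l 16769864)) (l 16771376)))) (a (b (a (c (l 16769952) (l 16769944)) (l 16768808)) (l 16769784)) (c (l 16766008) (l 16768616)))), by decide +kernel⟩

def k10_pm_011_s : ∃ t, chk3 f_pm_011_s t 66 127 1 = true :=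
  ⟨(b (a (b (a (b (a (b (c (l 16775864) (l 16775864)) (l 16774744)) (c (l 16774160) (l 16774160))) (a (l 16773080) (l 16771952))) (a (c (l 16771928) (l 16766680)) (l 16765568))) (a (b (l 16770336) (l 16768200)) (l 16767080))) (b (a (l 16766520) (l 16766928)) (l 16753352))) (b (a (a (l 16765072) (l 16762968)) (l 16759832)) (a (l 16760088) (l 16756048)))), by decide +kernel⟩

def k11_pm_011_s : ∃ t, chk3 f_pm_011_s t 134 63 1 = true :=
  ⟨(b (b (b (a (l 3) (b (l 3) (a (l 3) (b (l 3) (c (c (l 845739454919) (l 848423810375)) (a (l 1028275556327) (l 786683654839))))))) (a (b (a (l 3) (a (l 3) (b (l 3) (c (c (l 700247438247) (l 826412104023)) (l 826948973175))))) (a (a (b (l 3) (a (b (b (l 3) (c (l 265382003191) (l 16776952))) (l 16776880)) (c (c (l 16776880) (l 16776880)) (l 16776880)))) (c (b (c (b (l 3) (a (l 357723800375) (l 16777128))) (l 792589237479)) (l 16776440)) (b (l 847886939239) (l 16776440)))) (b (a (b (a (b (l 3) (c (l 16777184) (l 16777008))) (c (l 16777112)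 (l 16777112))) (l 16776696)) (l 16775088)) (l 16772952)))) (b (a (b (c (c (l 865066808951) (l 866677422295)) (a (l 1056192844919) (l 806547878391))) (a (a (b (c (c (l 288467452647) (l 281488130823)) (l 322290320055)) (l 16776800)) (c (l 16776792) (l 16776792))) (l 16773736))) (b (a (a (b (c (a (l 331953995223) (l 145659789863)) (l 251423359671)) (l 16776760)) (c (l 16776752) (l 16776752))) (l 16773688)) (l 16775488))) (c (l 16771784) (l 16769160))))) (b (a (b (c (l 16771864) (l 16771856)) (l 16772272)) (c (l 16771096) (l 16765848))) (a (l 16758512) (l 16766752)))) (b (b (l 16763624) (l 16759536)) (l 16743288))), by decide +kernel⟩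

def k12_pm_011_s : ∃ t, chk3 f_pm_011_s t 135 63 1 = true :=
  ⟨(b (b (a (b (b (a (l 3) (b (l 3) (c (c (l 809769102663) (l 814064071367)) (a (l 954724240423) (l 749102692151))))) (b (c (c (a (l 827485843143) (l 16776520)) (a (l 830707069783) (l 16776520))) (a (a (l 979420302663) (l 767893173383)) (a (l 16776808) (l 16776224)))) (a (a (b (c (c (l 16777120) (l 16777120)) (l 16777120)) (l 16776568)) (l 16773648)) (l 16775400)))) (b (c (l 16769080) (l 16774320)) (l 16772112))) (c (b (b (c (a (b (l 793126104343) (l 16776472)) (l 16775864)) (a (b (l 797957941543) (l 16776472)) (l 16775864))) (l 16768984)) (l 16770920)) (b (b (b (a (l 799031687111) (l 16776416)) (l 265381997335)) (l 16774224)) (l 16770912)))) (b (b (l 16763528) (l 16766600)) (l 16763376))) (b (l 16746680) (l 16749568))), by decide +kernel⟩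

def k13_pm_011_s : ∃ t, chk3 f_pm_011_s t 34 124 1 = true :=
  ⟨(a (l 3) (b (l 3) (a (l 3) (b (l 3) (a (l 3) (b (l 3) (c (a (b (l 3) (l 779704325335)) (b (l 758229490679) (l 16776520))) (a (l 813527187591) (b (l 757155747975) (l 16776520)))))))))), by decide +kernel⟩

def k14_pm_011_s : ∃ t, chk3 f_pm_011_s t 34 250 1 = true :=
  ⟨(a (a (l 3) (a (l 3) (b (l 3) (b (l 3) (c (a (l 954187378999) (a (c (l 819969650215) (l 824264605863)) (b (l 889225987431) (l 16776784)))) (a (l 945060536583) (a (l 819969647303) (b (l 883857276135) (l 16776784))))))))) (a (b (a (l 3) (b (l 3) (c (a (b (l 3) (l 848960666359)) (a (c (l 764671946407) (l 770577520599)) (b (l 800105421895) (l 16776512)))) (a (l 868288023367) (b (l 830170184119) (l 16761088)))))) (a (b (c (c (a (l 901037151287) (a (l 792052365255) (b (l 843591963047) (l 16776648)))) (a (l 901573998967) (l 740512756007))) (a (l 893520931895) (b (l 862382435255) (l 239075287799)))) (a (b (a (b (l 922511998311) (l 242833406647))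 (c (l 16776712) (l 16776712))) (l 16775912)) (l 16772680))) (b (a (b (a (b (l 829633330311) (l 16776888)) (l 16776584)) (l 16775784)) (l 16769928)) (l 16770936)))) (a (c (b (b (b (a (l 3) (l 798494805495)) (a (l 814600931159) (l 236390971207))) (a (b (c (l 16776744) (l 16776744)) (l 16775648)) (l 16775032))) (l 16761840)) (b (b (a (l 844128836055) (b (l 799031675063) (l 16776672))) (l 254644553079)) (l 16772320))) (b (b (a (c (l 251960207175) (l 16776056)) (l 16774896)) (l 16768048)) (l 16769952))))), by decide +kernel⟩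

def k15_pm_011_s : ∃ t, chk3 f_pm_011_s t 34 251 1 = true :=
  ⟨(b (a (a (a (l 3) (b (l 3) (a (l 3) (b (l 3) (c (c (l 650855310551) (l 684141312167)) (l 705616145751)))))) (a (b (c (a (l 986399622103) (b (l 964387906487) (a (l 779167459831) (c (l 16776912) (l 16776912))))) (a (l 974588434535) (b (l 954187355191) (a (l 781851813415) (l 16776912))))) (a (b (a (c (l 800105424295) (l 801716035751)) (c (c (l 16776968) (l 16776968)) (l 16776968))) (l 16773528)) (b (l 16773472) (l 16774992)))) (a (b (b (b (c (a (l 911774570183) (l 16777104)) (l 757155753351)) (c (c (l 16776864) (l 16776864)) (l 16776864))) (l 16770792)) (l 16774384)) (c (l 16771704) (l 16774320))))) (a (a (c (l 16767336) (l 16772576)) (l 16764984)) (l 16764024))) (a (a (a (b (a (l 3) (b (l 3) (c (c (l 746418336327) (l 752323915879)) (c (l 755008269975) (l 755008269511))))) (a (c (b (c (l 761450721207) (l 766819429687)) (l 16776368)) (b (c (l 769503783623) (l 768966912087)) (l 16776368))) (a (c (l 16776048)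 (l 16776048)) (l 16772848)))) (c (b (a (b (c (l 731385951623) (l 737828402247)) (l 16776256)) (l 16770416)) (l 16774032)) (a (b (b (l 741049627239) (l 16776256)) (l 16774608)) (l 16769304)))) (a (c (l 16771504) (l 16762328)) (l 16765240))) (a (a (l 16768128) (l 16765744)) (l 16762096)))), by decide +kernel⟩

def k16_pm_011_s : ∃ t, chk3 f_pm_011_s t 35 62 1 = true :=
  ⟨(a (a (b (b (l 3) (b (a (l 3) (b (l 3) (a (c (c (l 767893159975) (l 766819417447)) (l 765745674567)) (b (c (c (l 351281304007) (l 351818174695)) (l 352891915607)) (l 16776216))))) (c (a (b (a (b (l 3) (l 742660236087)) (b (l 727090981559) (l 16776368))) (l 287393701223)) (c (l 16763592) (l 16763592))) (a (b (a (l 787220527639) (b (l 728164722903) (l 16776368))) (l 16775328)) (l 16763584))))) (b (b (c (b (l 16766696) (l 16769688)) (l 16760320)) (l 16761016)) (b (l 16761632) (l 16756992)))) (b (b (b (l 3) (a (a (l 3) (b (l 3) (c (l 882246665063) (l 877951674055)))) (c (c (b (l 862919282599) (a (l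 721722269591) (l 16776440))) (b (l 865603635527) (a (l 722796011111) (l 16776440)))) (b (l 862382407623) (a (l 724406623383) (l 16755472)))))) (a (a (b (b (c (c (l 744807714727) (l 744270843319)) (l 744807713495)) (l 16772976)) (l 16767040)) (b (c (c (l 245517737255) (l 252497058775)) (l 253570800279)) (l 16771064))) (b (c (l 16768520) (l 16773760)) (l 16769208)))) (b (b (l 16765776) (l 16761008)) (l 16753808)))) (b (a (b (a (b (b (l 3) (c (c (l 815137776087) (l 812990291063)) (l 809769063543))) (c (b (a (b (l 794199834103) (l 335175201879)) (l 250886463559)) (l 16774688)) (b (a (l 704542404231) (l 16776264)) (l 16774688)))) (c (b (b (c (l 794199815255) (l 793662943207)) (b (a (l 760913842039) (l 16776616)) (l 16765648))) (l 16762944)) (b (b (l 791515457863) (a (l 350744421191) (l 16776088))) (l 16773424)))) (b (c (l 16764872) (l 16770104)) (l 16765328))) (b (b (b (a (c (c (l 239075279175) (a (l 238001538215) (l 16775904))) (l 247665212967)) (l 16771552)) (c (l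 16767920) (l 16773160))) (a (l 16765752) (l 16768456))) (a (l 16763736) (l 16760936)))) (b (a (l 16757872) (l 16730904)) (b (l 16726208) (l 16721064))))), by decide +kernel⟩

def k17_pm_011_s : ∃ t, chk3 f_pm_011_s t 17 63 1 = true :=
  ⟨(b (a (a (b (a (b (a (c (c (l 16767784) (l 16767784)) (l 16767784)) (b (l 16771816) (l 16769608))) (a (l 16768616) (l 16766304))) (b (a (l 16768384) (l 16766040)) (l 16762792))) (a (c (l 16750488) (l 16755680)) (l 16756280))) (a (b (a (l 16761424) (l 16759000)) (l 16751456)) (b (l 16755272) (l 16746416)))) (a (b (a (l 16750024) (l 16723280)) (l 16738136)) (b (l 16713520) (l 16703872)))) (a (a (b (a (l 16752688) (l 16748064)) (l 16722008)) (b (l 16740752) (l 16733392))) (a (b (l 16729680) (l 16722184)) (l 16711816)))), by decide +kernel⟩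

def k18_pm_011_s : ∃ t, chk3 f_pm_011_s t 9 60 1 = true :=
  ⟨(a (a (l 3) (b (l 3) (a (l 3) (b (l 3) (a (b (l 3) (a (l 3) (c (b (l 841981321991) (c (l 324974621783) (l 324437750551))) (b (l 843591933415) (l 16750816))))) (c (b (a (b (l 3) (l 840907585239)) (b (l 842518203303) (l 313700344439))) (a (c (l 294909854535) (l 304573530951)) (l 16772256))) (b (a (l 857550560263) (b (l 850034395127) (l 16755408))) (a (l 308331626679) (l 16772240))))))))) (a (b (a (l 3) (b (a (l 3) (b (l 3) (a (l 3) (l 937544362807)))) (c (a (b (l 953650429607) (c (l 326048309255) (l 340543823879))) (b (l 309405328583) (l 16770064))) (a (b (l 971904038279) (l 358260563303)) (l 299204775479))))) (b (b (a (a (l 3) (a (c (l 787220495095) (l 785609881319)) (c (l 310479096007) (l 16755064)))) (a (a (l 16772792) (l 16769328)) (l 16742896))) (a (c (a (a (b (l 3) (l 773798732183)) (b (a (l 430201296535) (l 16753536)) (l 16754472))) (a (l 16763032) (l 16770184))) (a (a (l 799568512199) (a (l 315847787255)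 (l 16755104))) (l 192904404775))) (a (l 16764840) (l 16736280)))) (a (c (a (b (a (c (l 16753616) (l 16753608)) (l 16770768)) (a (l 16768304) (l 16742592))) (b (l 16764648) (l 16735328))) (a (b (a (l 16753608) (l 16770744)) (l 16764360)) (b (l 16764584) (l 16735200)))) (a (b (l 16736128) (l 16726344)) (l 16723432))))) (b (a (b (a (c (b (l 928954397575) (l 16732984)) (l 315310827191)) (b (l 297057331351) (l 16767808))) (a (b (l 16768976) (l 16741712)) (l 16758112))) (a (b (l 16763584) (l 16729032)) (b (l 16756136) (l 16742080)))) (a (b (a (l 16737056) (l 16723280)) (a (l 16714784) (l 16726544))) (b (l 16710040) (l 16691328)))))), by decide +kernel⟩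

def k19_pm_011_s : ∃ t, chk3 f_pm_011_s t 18 122 1 = true :=
  ⟨(a (a (l 3) (b (l 3) (b (a (l 3) (a (l 3) (a (l 3) (b (l 3) (c (l 712595455015) (l 715279808919)))))) (a (a (l 3) (b (l 3) (c (l 799031660039) (l 796884164247)))) (c (a (b (l 776483082055) (c (l 243370247991) (l 250886440759))) (c (l 255181413079) (l 262160734855))) (a (b (l 775409333623) (l 253570794663)) (l 266455701591))))))) (a (a (b (b (l 3) (a (l 3) (b (l 3) (c (c (l 697563068183) (l 695952455111)) (l 694341841879))))) (b (a (b (c (c (l 706689869063) (l 705616126807)) (l 703468642503)) (c (c (l 254107679799) (l 16760672)) (l 264308226471))) (c (b (a (l 262697621175) (l 16775552)) (l 16774216)) (b (l 16755152) (l 16774224)))) (a (c (l 16773520) (l 16773528)) (c (l 16771616) (l 16771632))))) (a (b (b (l 3) (c (b (a (l 747492056455) (l 332490825127)) (l 281488107655)) (b (l 686825654023) (l 16775848)))) (b (c (l 16772464) (l 16772464)) (l 16768584))) (b (b (b (l 3) (c (a (l 734070288439) (l 326048379655))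 (l 679309466343))) (c (b (l 16775512) (l 16773160)) (l 16774360))) (b (b (l 16760104) (l 16747032)) (l 16743712))))) (b (a (a (b (c (a (c (l 269140040663) (l 277729974935)) (l 242296521591)) (b (l 328732711383) (l 16775136))) (c (l 16771312) (l 16771296))) (b (c (l 16773416) (l 16773408)) (l 16767688))) (b (a (c (l 16769936) (l 16769912)) (l 16757944)) (a (l 16742496) (l 16737600)))) (a (b (a (l 16755112) (l 16740336)) (l 16747496)) (b (c (l 16732752) (l 16732624)) (l 16725800)))))), by decide +kernel⟩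

def k20_pm_011_s : ∃ t, chk3 f_pm_011_s t 19 122 1 = true :=
  ⟨(a (a (b (a (b (a (l 16740032) (l 16734400)) (c (l 16728672) (l 16728480))) (b (l 16725416) (l 16736240))) (a (b (l 16724864) (l 16732248)) (b (l 16725664) (l 16715752)))) (b (a (c (l 16709840) (l 16709472)) (l 16700104)) (a (l 16685256) (l 16673512)))) (a (b (l 16686360) (a (l 16683960) (l 16674168))) (b (l 16687496) (l 16658512)))), by decide +kernel⟩

def k21_pm_011_s : ∃ t, chk3 f_pm_011_s t 9 123 1 = true :=
  ⟨(b (a (a (a (a (l 3) (b (l 3) (a (b (l 3) (c (c (l 697026204343) (l 701321171351)) (l 705079267319))) (c (b (c (l 678772598087) (l 684141307047)) (l 16775544)) (b (l 688436274103) (l 16775544)))))) (c (a (b (a (b (l 822117093111) (a (l 716353554551) (l 249812714999))) (b (c (l 335175166455) (l 342154488311)) (l 16775152))) (a (l 16769072) (l 16771952))) (b (a (l 16773928) (l 16771568)) (l 16768144))) (a (b (a (b (l 818895865671) (l 498920808455)) (b (l 346449454951) (l 16775152))) (l 16762664))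 (a (l 16761272) (l 16769248))))) (a (a (a (b (l 16769032) (l 16742992)) (l 16764240)) (b (a (l 16765704) (l 16761592)) (l 16760152))) (a (b (l 16732864) (l 16751392)) (l 16718152)))) (a (a (a (l 16701528) (l 16703728)) (a (l 16686008) (l 16670544))) (a (a (l 16657824) (l 16646312)) (l 16630376)))) (a (a (a (c (a (b (a (b (l 3) (a (l 846276294887) (l 706153018199))) (b (c (l 715816681463) (l 719574777431)) (l 255181427895))) (a (c (l 251423322263) (l 257865773207)) (l 16772712))) (b (a (b (l 16765256) (l 16773624)) (l 16772336)) (l 16768960))) (a (b (a (b (l 3) (l 738902124407)) (b (l 721722260439) (l 16775936))) (a (l 261086997703) (l 16772712))) (b (a (l 16774696) (l 16772336)) (l 16768952)))) (a (b (c (l 16768560) (l 16768552)) (l 16742512)) (b (l 16742024) (l 16736424)))) (a (a (l 16742128) (l 16750352)) (a (l 16748928) (l 16734184)))) (a (a (a (l 16714176) (l 16692536)) (l 16641072)) (a (l 16587856) (l 16603968))))), by decide +kernel⟩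

def k22_pm_011_s : ∃ t, chk3 f_pm_011_s t 9 31 1 = true :=
  ⟨(a (b (a (b (a (b (a (b (a (l 16770624) (l 16768056)) (l 16764440)) (b (l 16763968) (l 16737648))) (a (l 16746008) (l 16729104))) (b (a (l 16734176) (l 16727328)) (a (l 16722032) (l 16735200)))) (a (b (a (l 16724368) (l 16738168)) (l 16709296)) (a (l 16702920) (l 16693816)))) (a (b (a (b (l 16719912) (l 16726776)) (b (l 16736192) (l 16721024))) (a (l 16683976) (l 16697744))) (b (a (l 16707768) (b (l 16732232) (l 16726144))) (l 16655192)))) (a (b (a (b (l 16719024) (l 16708432)) (l 16673288)) (a (l 16673424) (l 16672696))) (a (b (l 16630984) (l 16627504)) (b (l 16644120) (l 16637496))))) (a (b (a (b (a (l 16689872) (l 16665616)) (a (l 16710848) (l 16686456))) (b (b (l 16651296) (l 16645112)) (l 16602064))) (a (b (l 16661968) (l 16652224)) (b (l 16604232) (l 16648776)))) (b (b (a (b (l 16611512) (l 16598976)) (b (l 16582000) (l 16563232))) (a (l 16566952) (l 16541256))) (a (b (l 16564704) (l 16566152))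 (b (l 16525856) (l 16522920)))))), by decide +kernel⟩

def k23_pm_011_s : ∃ t, chk3 f_pm_011_s t 5 14 1 = true :=
  ⟨(a (b (a (l 3) (b (l 3) (a (b (l 3) (a (l 3) (b (l 3) (l 324974490215)))) (b (a (l 908016326327) (l 308868329559)) (a (l 314237100231) (l 16757528)))))) (a (b (a (l 3) (b (a (l 3) (b (l 3) (l 920901286583))) (a (b (l 947744795447) (a (l 338396273095) (l 16752688))) (b (l 320142698103) (l 16763416))))) (a (b (a (b (l 3) (a (b (l 3) (l 448454810231)) (c (l 311015872551) (l 16706408)))) (b (a (l 930564987895) (l 16713136)) (a (l 16750472) (l 16764440)))) (a (b (c (a (l 16731728) (l 16766680)) (l 309942187111)) (a (l 16761696) (l 16754392))) (b (l 16755920) (l 16743304)))) (b (a (b (l 16744696) (l 16753864)) (l 16725032)) (a (l 16724776) (l 16721032))))) (b (a (a (b (b (l 721185268903) (l 16730096)) (l 16734760)) (b (l 211694836263) (l 16742608))) (b (a (l 16749632) (l 16734488)) (a (l 16728024) (l 16712336)))) (a (b (a (l 16732664) (l 16720232)) (a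 (l 16707536) (l 16695152))) (b (l 16700824) (l 16679480)))))) (b (a (b (a (b (l 3) (a (l 688436126519) (l 16710120))) (b (a (l 16702128) (l 16767240)) (l 16730720))) (a (b (a (l 16765616) (l 16750688)) (a (l 16742224) (l 16725768))) (b (l 16725880) (l 16698448)))) (b (a (b (l 16745400) (l 16717904)) (l 16678976)) (a (b (l 16666576) (l 16656008)) (l 16560648)))) (a (b (a (b (l 16709584) (l 16686200)) (b (l 16650080) (l 16624264))) (a (b (l 16665512) (l 16648768)) (l 16611744))) (b (a (l 16547000) (l 16531464)) (a (l 16515896) (l 16492336)))))), by decide +kernel⟩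

def k24_pm_011_s : ∃ t, chk3 f_pm_011_s t 5 15 1 = true :=
  ⟨(a (b (b (a (a (b (a (b (l 16744944) (l 16709144)) (l 16722368)) (a (b (l 16693272) (l 16694408)) (b (l 16698104) (l 16677496)))) (b (a (l 16686112) (l 16671408)) (a (l 16651368) (l 16636264)))) (b (a (l 16672232) (l 16650968)) (a (l 16636928) (l 16616232)))) (a (b (a (a (b (l 16668520) (l 16638720)) (l 16594112)) (a (l 16598704) (l 16605200))) (a (a (l 16596320) (l 16577128)) (l 16489776))) (b (a (l 16543696) (l 16566704)) (a (l 16527288) (l 16510384))))) (a (b (a (b (a (b (l 16559448) (l 16536144)) (l 16526952)) (a (l 16507384) (l 16459720))) (b (l 16479280) (l 16452680))) (a (b (a (l 16477728) (l 16443440)) (a (l 16461664) (l 16413144))) (b (a (l 16416976) (l 16399160)) (a (l 16379112) (l 16353512))))) (b (a (b (l 16473240) (l 16424192)) (l 16412344)) (a (b (l 16376472) (l 16329448)) (l 16292752))))) (b (b (a (b (a (l 16638424) (l 16592008)) (a (l 16605360) (l 16590128))) (a (l 16486584) (l 16392736)))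 (a (a (a (l 16448984) (l 16501152)) (l 16455056)) (a (l 16538192) (l 16476944)))) (a (b (a (l 16430336) (l 16442520)) (a (l 16333480) (l 16348560))) (b (a (l 16472112) (l 16514696)) (a (l 16382704) (l 16437784)))))), by decide +kernel⟩

def k25_pm_011_s : ∃ t, chk3 f_pm_011_s t 3 1 1 = true :=
  ⟨(b (a (b (l 1) (l 3)) (l 1)) (b (a (b (a (a (l 3) (b (l 3) (b (l 3) (l 377051050903)))) (b (l 1) (a (b (l 1) (l 16773864)) (l 1)))) (a (b (a (b (l 3) (a (l 367387347751) (l 16775696))) (b (l 345912553671) (l 16762600))) (a (b (a (b (l 16732472) (l 16762864)) (l 16755664)) (a (b (l 16740304) (l 16687904)) (l 16702408))) (b (l 16733784) (l 16674696)))) (b (a (b (l 16768344) (l 16743928)) (l 16745456)) (a (b (l 16704520) (l 16636824)) (l 16640360))))) (b (l 1) (a (b (l 1) (a (l 16610976) (l 1))) (l 1)))) (b (a (a (b (a (b (a (l 16610944) (l 16618496)) (a (l 16548312) (l 16520192))) (b (a (l 16591984) (l 16570872)) (l 16406624))) (a (b (a (l 16487144) (l 16426032)) (a (l 16417152)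 (l 16345016))) (b (a (l 16376544) (l 16339968)) (l 16257344)))) (b (a (b (l 16538448) (l 16422400)) (l 16376456)) (a (b (l 16297136) (l 16181848)) (l 16130112)))) (a (b (a (l 16401256) (l 16368312)) (a (l 16154936) (l 16124240))) (b (l 1) (l 15972168)))) (a (a (b (a (b (a (l 16350120) (l 16288320)) (a (l 16380872) (l 16285144))) (b (l 16099408) (l 16159000))) (a (a (l 16293288) (l 16263120)) (b (l 16151688) (l 16147624)))) (b (b (a (l 16086224) (l 16024952)) (a (l 16027368) (l 15946048))) (a (l 15971664) (l 15849048)))) (b (a (b (l 15972288) (l 15880496)) (l 15744368)) (a (a (l 15767560) (l 15730504)) (l 15713056))))))), by decide +kernel⟩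

theorem s26_pm_011_s : ∃ t, chk3 f_pm_011_s t 5 7 1 = true := ex3_b k23_pm_011_s k24_pm_011_s

theorem s27_pm_011_s : ∃ t, chk3 f_pm_011_s t 9 122 1 = true := ex3_a k19_pm_011_s k20_pm_011_s

theorem s28_pm_011_s : ∃ t, chk3 f_pm_011_s t 9 61 1 = true := ex3_b s27_pm_011_s k21_pm_011_s

theorem s29_pm_011_s : ∃ t, chk3 f_pm_011_s t 9 30 1 = true := ex3_b k18_pm_011_s s28_pm_011_s

theorem s30_pm_011_s : ∃ t, chk3 f_pm_011_s t 9 15 1 = true := ex3_b s29_pm_011_s k22_pm_011_s

theorem s31_pm_011_s : ∃ t, chk3 f_pm_011_s t 34 125 1 = true := ex3_b k14_pm_011_s k15_pm_011_s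

theorem s32_pm_011_s : ∃ t, chk3 f_pm_011_s t 34 62 1 = true := ex3_b k13_pm_011_s s31_pm_011_s

theorem s33_pm_011_s : ∃ t, chk3 f_pm_011_s t 17 62 1 = true := ex3_a s32_pm_011_s k16_pm_011_s

theorem s34_pm_011_s : ∃ t, chk3 f_pm_011_s t 17 31 1 = true := ex3_b s33_pm_011_s k17_pm_011_s

theorem s35_pm_011_s : ∃ t, chk3 f_pm_011_s t 67 63 1 = true := ex3_a k11_pm_011_s k12_pm_011_s

theorem s36_pm_011_s : ∃ t, chk3 f_pm_011_s t 132 253 1 = true := ex3_b k7_pm_011_s k8_pm_011_s

theorem s37_pm_011_s : ∃ t, chk3 f_pm_011_s t 66 253 1 = true := ex3_a s36_pm_011_s k9_pm_011_s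

theorem s38_pm_011_s : ∃ t, chk3 f_pm_011_s t 66 126 1 = true := ex3_b k6_pm_011_s s37_pm_011_s

theorem s39_pm_011_s : ∃ t, chk3 f_pm_011_s t 66 63 1 = true := ex3_b s38_pm_011_s k10_pm_011_s

theorem s40_pm_011_s : ∃ t, chk3 f_pm_011_s t 33 63 1 = true := ex3_a s39_pm_011_s s35_pm_011_s

theorem s41_pm_011_s : ∃ t, chk3 f_pm_011_s t 16 63 1 = true := ex3_a k5_pm_011_s s40_pm_011_s

theorem s42_pm_011_s : ∃ t, chk3 f_pm_011_s t 16 31 1 = true := ex3_b k4_pm_011_s s41_pm_011_s

theorem s43_pm_011_s : ∃ t, chk3 f_pm_011_s t 8 31 1 = true := ex3_a s42_pm_011_s s34_pm_011_s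

theorem s44_pm_011_s : ∃ t, chk3 f_pm_011_s t 8 15 1 = true := ex3_b k3_pm_011_s s43_pm_011_s

theorem s45_pm_011_s : ∃ t, chk3 f_pm_011_s t 4 15 1 = true := ex3_a s44_pm_011_s s30_pm_011_s

theorem s46_pm_011_s : ∃ t, chk3 f_pm_011_s t 4 7 1 = true := ex3_b k2_pm_011_s s45_pm_011_s

theorem s47_pm_011_s : ∃ t, chk3 f_pm_011_s t 2 7 1 = true := ex3_a s46_pm_011_s s26_pm_011_s

theorem s48_pm_011_s : ∃ t, chk3 f_pm_011_s t 2 3 1 = true := ex3_b k1_pm_011_s s47_pm_011_s

theorem s49_pm_011_s : ∃ t, chk3 f_pm_011_s t 2 1 1 = true := ex3_b k0_pm_011_s s48_pm_011_s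

theorem s50_pm_011_s : ∃ t, chk3 f_pm_011_s t 1 1 1 = true := ex3_a s49_pm_011_s k25_pm_011_s

theorem c_pm_011_s : CertNE 0 536870912 536870912 536870912 1033476505 6710887 3 eng mog cd0q0 cd5q1 pd1 true true false .pnn 0 1 1
    ndB0q0 ndB5q1 pcB1 cut_pm_011_s Ext.none :=
  certNE1 (fam := true) (s1 := true) (s2 := false) (a := 0) (b := 1) (c := 1) (cn := .pnn) (n1 := ndB0q0) (n2 := ndB5q1) (pc := pcB1) (cut := cut_pm_011_s) (xt := Ext.none) (P1 := 0) (W1 := 536870912) (P2 := 536870912) (W2 := 536870912) (P3 := 1033476505) (W3 := 6710887) (N0 := 3) (En := eng) (mo := mog) (C1 := cd0q0) (C2 := cd5q1) (C3 := pd1)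
    rfl (fun _ => rfl) s50_pm_011_s

noncomputable def cut_pm_012_s : Cut := Cut.of [[⟨4, 0, 0, 1449551462⟩], [⟨0, 0, 0, 33554432⟩, ⟨1, 1, 0, 33554432⟩, ⟨2, 1, 0, 33554432⟩]]

noncomputable def f_pm_012_s : ℕ → ℕ → ℕ → ℕ → Bool := onCell 1073741824 536870912 536870912 536870912 1033476505 6710887
    (rowNE 3 eng mog cd0q0 cd5q1 pd2 2 true true false .pnp 0 1 2 (qsf 0 536870912 536870912 536870912 2) ndB0q0 ndB5q1 pcB2 cut_pm_012_s Ext.none)

def k0_pm_012_s : ∃ t, chk3 f_pm_012_s t 2 2 1 = true :=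
  ⟨(a (a (b (b (a (l 15863904) (l 6)) (b (l 15849752) (a (l 15886400) (l 15850584)))) (b (b (a (l 15954704) (l 15915240)) (a (l 16077752) (l 16033680))) (b (a (l 16224600) (l 16197632)) (a (b (l 16394200) (a (l 16415984) (l 16390752))) (l 16395512))))) (b (l 6) (b (b (l 15855272) (l 15956504)) (b (l 16022480) (l 16294152))))) (b (l 6) (l 6))), by decide +kernel⟩

def k1_pm_012_s : ∃ t, chk3 f_pm_012_s t 2 6 1 = true :=
  ⟨(a (b (a (b (a (b (l 16236344) (l 16122568)) (b (l 16259808) (l 16065424))) (a (b (l 16103856) (a (l 16216824) (l 16101192))) (b (l 16023208) (a (l 16012112) (l 15953608))))) (b (a (l 16161648) (l 16123112)) (a (b (l 16003880) (a (l 15908544) (l 15882504))) (l 15900008)))) (a (b (a (b (a (l 16219136) (l 16080208)) (a (l 16243552) (l 16085408))) (b (a (l 15963976) (l 15874456)) (a (l 15945824) (l 15829088)))) (a (b (a (b (l 16276120) (l 16307632)) (b (l 16106400) (l 16131616))) (a (b (l 16354416) (l 16331240)) (b (l 16173280) (l 16230096)))) (b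 (a (l 15958848) (l 15818704)) (a (b (l 16002808) (l 16053304)) (l 15866680))))) (b (a (b (a (l 15815648) (l 15770408)) (a (l 15739208) (l 15680168))) (b (l 15730176) (a (l 15634832) (l 15608776)))) (a (b (a (l 15701552) (l 15611400)) (a (l 15726080) (l 15608624))) (b (a (l 15552216) (l 15506856)) (a (l 15518288) (l 15459040))))))) (a (b (b (l 6) (l 15617184)) (b (a (l 15626216) (l 6)) (a (b (l 15466936) (a (l 15413744) (l 15387968))) (b (l 6) (l 15349664))))) (l 6))), by decide +kernel⟩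

def k2_pm_012_s : ∃ t, chk3 f_pm_012_s t 8 14 1 = true :=
  ⟨(b (a (b (a (b (a (l 16513560) (l 16440136)) (l 16436280)) (b (l 16299568) (l 16330520))) (a (b (l 16518376) (a (b (l 16567272) (l 16554032)) (l 16585152))) (a (l 16396456) (l 16364312)))) (b (a (b (l 16117648) (l 16186592)) (b (l 15946536) (l 16009136))) (a (a (l 16332616) (l 16238624)) (l 16016744)))) (a (a (b (a (b (a (l 16542336) (l 16554224)) (a (l 16556744) (l 16558512))) (b (l 16517848) (l 16533512))) (a (b (a (l 16587184) (l 16587104)) (l 16622792)) (b (a (l 16588720) (l 16590208)) (l 16580448)))) (b (b (l 16432216) (a (l 16566400) (l 16551672))) (a (b (l 16606704) (l 16605648)) (b (l 16544496) (l 16583616))))) (a (b (b (l 16269240) (l 16354904)) (a (b (l 16497200) (l 16486440)) (l 16424680))) (b (b (l 16187944) (l 16215472)) (a (l 16335360) (l 16244648)))))), by decide +kernel⟩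

def k3_pm_012_s : ∃ t, chk3 f_pm_012_s t 8 15 1 = true :=
  ⟨(a (b (a (b (a (a (l 16619472) (l 16627520)) (l 16625072)) (a (b (l 16657448) (a (l 16690480) (l 16716696))) (b (l 16648872) (l 16643408)))) (b (a (b (l 16649112) (l 16606072)) (b (l 16580192) (l 16563976))) (a (b (l 16611176) (l 16599936)) (l 16509008)))) (a (b (a (a (b (a (l 16703584) (l 16732384)) (l 14)) (b (l 16695168) (b (l 16695192) (l 14)))) (b (a (l 16679192) (l 16643448)) (a (l 16678056) (l 16641040)))) (a (l 14) (b (a (l 14) (l 16639616)) (l 14)))) (b (a (b (l 16592512) (l 16566656)) (b (l 16529704) (l 16520960))) (b (a (a (l 16602720) (l 16566888)) (l 16515112)) (a (a (l 14) (l 16564672)) (a (l 16529024) (l 16494360))))))) (b (a (b (a (b (l 16522664) (l 16516808)) (b (l 16447024) (l 16481000))) (b (a (l 16519424) (l 16473192)) (a (l 16493200) (l 16453232)))) (b (a (b (l 16379688) (l 16406072)) (l 16305768)) (a (b (l 16417296) (l 16408064)) (b (l 16343216) (l 16353160))))) (b (a (a (b (l 16473864)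 (l 16459848)) (l 16414952)) (a (b (l 16387032) (l 16358872)) (b (l 16343016) (l 16321456)))) (b (a (a (l 16450392) (l 16391040)) (l 16314976)) (a (a (l 16444216) (l 16381480)) (l 16234856)))))), by decide +kernel⟩

def k4_pm_012_s : ∃ t, chk3 f_pm_012_s t 9 7 1 = true :=
  ⟨(b (b (a (b (a (l 15816672) (l 15675720)) (a (l 15925632) (l 15765248))) (b (a (l 15558040) (l 15467616)) (a (l 15624016) (l 15506208)))) (a (a (b (b (l 16005600) (l 16055424)) (a (l 16155240) (l 16067392))) (b (l 15856216) (b (l 15921216) (l 15953008)))) (b (a (l 15695712) (l 15554288)) (a (b (l 15752768) (l 15787040)) (l 15611128))))) (b (a (a (b (a (l 16217544) (l 16127912)) (a (b (l 16256408) (l 16280024)) (l 16182608))) (b (a (l 16039592) (l 15952552)) (a (l 16095936) (l 16007816)))) (a (b (l 15825616) (a (l 15920960) (l 15835360))) (b (a (l 15704048) (l 15627120)) (l 15710576)))) (a (a (b (a (b (l 16289208) (l 16278680)) (b (l 16217120) (l 16226048))) (a (b (l 16257136) (l 16229264)) (b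 (l 16215680) (l 16194704)))) (b (a (b (l 16132240) (l 16155096)) (l 16059944)) (a (b (l 16164312) (l 16154648)) (b (l 16094584) (l 16104632))))) (a (b (a (l 15975192) (l 15888968)) (a (b (l 16011992) (l 16036216)) (l 15942640))) (b (a (l 15803976) (l 15720224)) (a (l 15860240) (l 15776384))))))), by decide +kernel⟩

def k5_pm_012_s : ∃ t, chk3 f_pm_012_s t 5 7 1 = true :=
  ⟨(b (a (b (a (b (b (l 15385728) (l 15386272)) (a (l 15415784) (l 15356680))) (b (l 15324144) (a (l 15311784) (l 6)))) (a (b (a (l 15436432) (l 15346088)) (a (l 15471280) (l 15353456))) (b (b (l 15272016) (l 15255856)) (a (l 15263296) (l 15204696))))) (l 6)) (a (a (a (b (b (a (l 15551832) (l 15479304)) (l 15552960)) (b (l 15598512) (a (l 15693848) (l 15612792)))) (a (b (b (l 15410368) (l 15443160)) (b (l 15482072) (l 15534168))) (b (a (b (l 15362248) (l 15391568)) (a (b (l 15338824) (l 15367608)) (b (l 15324728) (l 15329456)))) (a (b (l 15427072) (l 15477488)) (a (l 15445256) (b (l 15363224)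 (l 15413312))))))) (b (b (b (l 15215080) (l 15212896)) (a (l 15277768) (l 15163760))) (b (a (l 15302392) (l 15171512)) (a (l 15344160) (l 15193984))))) (a (a (b (b (l 6) (l 15075880)) (b (l 15062256) (l 15064008))) (l 6)) (l 6)))), by decide +kernel⟩

def k6_pm_012_s : ∃ t, chk3 f_pm_012_s t 3 1 1 = true :=
  ⟨(b (l 6) (l 6)), by decide +kernel⟩

theorem s7_pm_012_s : ∃ t, chk3 f_pm_012_s t 8 7 1 = true := ex3_b k2_pm_012_s k3_pm_012_s

theorem s8_pm_012_s : ∃ t, chk3 f_pm_012_s t 4 7 1 = true := ex3_a s7_pm_012_s k4_pm_012_s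

theorem s9_pm_012_s : ∃ t, chk3 f_pm_012_s t 2 7 1 = true := ex3_a s8_pm_012_s k5_pm_012_s

theorem s10_pm_012_s : ∃ t, chk3 f_pm_012_s t 2 3 1 = true := ex3_b k1_pm_012_s s9_pm_012_s

theorem s11_pm_012_s : ∃ t, chk3 f_pm_012_s t 2 1 1 = true := ex3_b k0_pm_012_s s10_pm_012_s

theorem s12_pm_012_s : ∃ t, chk3 f_pm_012_s t 1 1 1 = true := ex3_a s11_pm_012_s k6_pm_012_s

theorem c_pm_012_s : CertNE 0 536870912 536870912 536870912 1033476505 6710887 3 eng mog cd0q0 cd5q1 pd2 true true false .pnp 0 1 2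
    ndB0q0 ndB5q1 pcB2 cut_pm_012_s Ext.none :=
  certNE2 (fam := true) (s1 := true) (s2 := false) (a := 0) (b := 1) (c := 2) (cn := .pnp) (n1 := ndB0q0) (n2 := ndB5q1) (pc := pcB2) (cut := cut_pm_012_s) (xt := Ext.none) (P1 := 0) (W1 := 536870912) (P2 := 536870912) (W2 := 536870912) (P3 := 1033476505) (W3 := 6710887) (N0 := 3) (En := eng) (mo := mog) (C1 := cd0q0) (C2 := cd5q1) (C3 := pd2)
    rfl (fun _ => rfl) s12_pm_012_s

noncomputable def cut_pm_022_s : Cut := Cut.of [[⟨4, 0, 0, 1449551462⟩], [⟨0, 0, 0, 33554432⟩, ⟨1, 1, 0, 33554432⟩, ⟨2, 1, 0, 33554432⟩]]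

noncomputable def f_pm_022_s : ℕ → ℕ → ℕ → ℕ → Bool := onCell 0 536870912 1073741824 536870912 1033476505 6710887
    (rowNE 3 eng mog cd0q0 cd5q2 pd2 1 true true false .pp 0 2 2 (qsf 0 536870912 1073741824 536870912 2) ndB0q0 ndB5q2 pcB2 cut_pm_022_s Ext.none)

def k0_pm_022_s : ∃ t, chk3 f_pm_022_s t 1 4 1 = true :=
  ⟨(a (b (a (a (b (a (b (a (l 14) (a (l 14) (l 1))) (b (a (l 14) (a (l 14) (b (l 1) (l 16523456)))) (a (a (l 16628008) (l 16618048)) (a (l 16564424) (a (l 16523848) (l 16496888)))))) (a (b (l 1) (a (b (l 1) (l 16456976)) (l 1))) (l 1))) (a (a (b (a (b (l 16654472) (l 16641656)) (b (l 16603328) (l 16591472))) (a (l 16626640) (l 16578328))) (b (b (a (l 16550080) (l 16495944)) (l 16469904)) (a (l 16526984) (l 16473752)))) (a (b (a (b (l 16442160) (l 16430856)) (b (l 16390008) (l 16378048))) (a (l 16419856) (l 16366504))) (b (b (l 1) (a (l 16328016) (l 1))) (a (l 16315256) (l 16268200)))))) (a (b (l 1) (a (b (l 1) (a (l 16227272) (l 1))) (l 1))) (l 1)))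 (l 1)) (a (a (b (a (a (b (l 16527480) (l 16560512)) (b (l 16451232) (l 16471856))) (b (a (l 16345792) (a (l 16309568) (l 16260904))) (a (l 16391688) (l 16289560)))) (a (b (a (l 16531376) (l 16495808)) (a (b (l 16479456) (l 16492176)) (l 16499352))) (b (a (l 16402480) (l 16303608)) (a (l 16417152) (l 16325064))))) (a (b (a (b (a (l 16217352) (l 16180768)) (l 16200072)) (b (a (l 16150888) (l 1)) (a (l 16148120) (l 16105480)))) (a (b (l 16213712) (l 16237016)) (b (a (l 16158752) (l 16113408)) (l 16155888)))) (b (a (b (l 1) (a (l 16040976) (l 1))) (l 1)) (a (b (a (l 16046176) (l 15964312)) (l 15900408)) (b (l 15833552) (l 15847184)))))) (a (b (l 1) (a (a (b (l 1) (l 15659576)) (l 1)) (l 1))) (l 1)))) (l 1)), by decide +kernel⟩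

def k1_pm_022_s : ∃ t, chk3 f_pm_022_s t 1 10 1 = true :=
  ⟨(a (a (a (b (b (a (a (b (l 16462344) (l 16403768)) (b (l 16492552) (l 16480464))) (a (l 16434816) (l 16352640))) (a (b (a (a (l 16333560) (l 16388064)) (l 16440592)) (b (a (l 16277328) (l 16402688)) (a (b (l 16254680) (l 16181184)) (b (l 16370856) (l 16325616))))) (b (a (l 16442440) (l 16377864)) (b (a (l 16460104) (l 16395808)) (a (b (l 16435104) (l 16416616)) (l 16374352)))))) (a (a (b (b (l 16082256) (l 16126096)) (l 16042256)) (b (a (l 16245360) (l 16285832)) (a (l 16161784) (l 16202400)))) (a (b (a (l 16380080) (l 16412568)) (l 16173824)) (b (l 16407040) (l 16340192))))) (a (b (b (a (l 16269776) (l 16188976)) (b (a (l 16300664) (l 16222040)) (a (b (l 16322064) (b (l 16338896) (l 16351416))) (b (l 16244384) (b (l 16261336) (l 16273896)))))) (a (b (l 16350576) (l 16322192)) (l 16215656))) (b (b (a (l 15974504) (l 15876944)) (b (a (l 16091824) (l 15909880)) (a (b (l 16114456) (b (l 16130928) (l 16143088)))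 (b (l 15932168) (b (l 15947880) (l 15959432)))))) (a (l 16077512) (l 15988048))))) (a (b (b (a (a (l 15683912) (l 15489880)) (l 1)) (b (a (a (l 15714144) (l 15514888)) (l 1)) (a (b (a (l 15734984) (l 15533048)) (b (a (l 15749368) (l 15545504)) (a (l 15759952) (l 15554696)))) (b (l 1) (b (l 1) (a (l 15351784) (l 1))))))) (a (a (l 15794872) (l 15592920)) (a (b (l 15371520) (l 15409944)) (b (l 15176576) (l 15213344))))) (b (l 1) (a (a (b (l 1) (l 15030920)) (l 1)) (l 1))))) (l 1)), by decide +kernel⟩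

def k2_pm_022_s : ∃ t, chk3 f_pm_022_s t 1 11 1 = true :=
  ⟨(b (a (a (a (a (a (l 15661344) (b (l 16093624) (l 15983480))) (a (b (a (l 16210552) (l 16289000)) (l 16145248)) (b (l 16293136) (a (l 16253904) (l 16323544))))) (a (a (b (l 16299944) (l 16283976)) (b (l 16165584) (l 16145656))) (a (b (l 16164920) (l 16080000)) (l 16017888)))) (a (a (a (l 15851312) (l 15667336)) (a (l 15474320) (l 15281600))) (a (a (l 15097240) (l 14930760)) (b (l 1) (l 6))))) (l 1)) (a (a (a (a (a (l 15657968) (l 15824696)) (a (l 15967344) (l 16118808))) (a (a (b (l 16192168) (l 16214192)) (b (l 16153088) (l 16048880))) (a (b (l 16043384) (l 16013272)) (b (l 16004224) (l 15994832))))) (a (a (a (b (l 15873720) (l 15864504)) (l 15723376)) (a (l 15556936) (l 6))) (l 6))) (l 6))), by decide +kernel⟩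

def k3_pm_022_s : ∃ t, chk3 f_pm_022_s t 1 3 1 = true :=
  ⟨(b (a (b (a (b (a (a (a (l 15478512) (l 15635288)) (a (l 15793888) (l 15943504))) (a (a (l 16071232) (l 16179448)) (a (b (l 15955560) (l 6)) (l 6)))) (a (a (l 15416728) (l 6)) (l 6))) (l 6)) (l 6)) (l 6)) (l 6)), by decide +kernel⟩

theorem s4_pm_022_s : ∃ t, chk3 f_pm_022_s t 1 5 1 = true := ex3_b k1_pm_022_s k2_pm_022_s

theorem s5_pm_022_s : ∃ t, chk3 f_pm_022_s t 1 2 1 = true := ex3_b k0_pm_022_s s4_pm_022_s

theorem s6_pm_022_s : ∃ t, chk3 f_pm_022_s t 1 1 1 = true := ex3_b s5_pm_022_s k3_pm_022_s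

theorem c_pm_022_s : CertNE 0 536870912 1073741824 536870912 1033476505 6710887 3 eng mog cd0q0 cd5q2 pd2 true true false .pp 0 2 2
    ndB0q0 ndB5q2 pcB2 cut_pm_022_s Ext.none :=
  certNE1 (fam := true) (s1 := true) (s2 := false) (a := 0) (b := 2) (c := 2) (cn := .pp) (n1 := ndB0q0) (n2 := ndB5q2) (pc := pcB2) (cut := cut_pm_022_s) (xt := Ext.none) (P1 := 0) (W1 := 536870912) (P2 := 1073741824) (W2 := 536870912) (P3 := 1033476505) (W3 := 6710887) (N0 := 3) (En := eng) (mo := mog) (C1 := cd0q0) (C2 := cd5q2) (C3 := pd2)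
    rfl (fun _ => rfl) s6_pm_022_s

noncomputable def cut_pm_023_s : Cut := Cut.of [[⟨4, 0, 0, 1449551462⟩]]

noncomputable def f_pm_023_s : ℕ → ℕ → ℕ → ℕ → Bool := onCell 1610612736 536870912 1073741824 536870912 1033476505 6710887
    (rowNE 3 eng mog cd0q0 cd5q2 pd3 2 true true false .up 0 2 3 (qsf 0 536870912 1073741824 536870912 3) ndB0q0 ndB5q2 pcB3 cut_pm_023_s Ext.none)

def k0_pm_023_s : ∃ t, chk3 f_pm_023_s t 1 1 1 = true :=
  ⟨(a (l 6) (l 6)), by decide +kernel⟩

theorem c_pm_023_s : CertNE 0 536870912 1073741824 536870912 1033476505 6710887 3 eng mog cd0q0 cd5q2 pd3 true true false .up 0 2 3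
    ndB0q0 ndB5q2 pcB3 cut_pm_023_s Ext.none :=
  certNE2 (fam := true) (s1 := true) (s2 := false) (a := 0) (b := 2) (c := 3) (cn := .up) (n1 := ndB0q0) (n2 := ndB5q2) (pc := pcB3) (cut := cut_pm_023_s) (xt := Ext.none) (P1 := 0) (W1 := 536870912) (P2 := 1073741824) (W2 := 536870912) (P3 := 1033476505) (W3 := 6710887) (N0 := 3) (En := eng) (mo := mog) (C1 := cd0q0) (C2 := cd5q2) (C3 := pd3)
    rfl (fun _ => rfl) k0_pm_023_s

noncomputable def cut_pm_033_s : Cut := Cut.of [[⟨4, 0, 0, 1449551462⟩]]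

noncomputable def f_pm_033_s : ℕ → ℕ → ℕ → ℕ → Bool := onCell 1610612736 536870912 0 1230186008 1033476505 6710887
    (rowNE 3 eng mog cd0q0 cd5q3 pd3 2 true true false .pnn 0 3 3 (qsf 0 536870912 0 1230186008 3) ndB0q0 ndB5q3 pcB3 cut_pm_033_s Ext.none)

def k0_pm_033_s : ∃ t, chk3 f_pm_033_s t 1 1 1 = true :=
  ⟨(b (l 6) (l 6)), by decide +kernel⟩

theorem c_pm_033_s : CertNE 0 536870912 0 1230186008 1033476505 6710887 3 eng mog cd0q0 cd5q3 pd3 true true false .pnn 0 3 3
    ndB0q0 ndB5q3 pcB3 cut_pm_033_s Ext.none :=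
  certNE2 (fam := true) (s1 := true) (s2 := false) (a := 0) (b := 3) (c := 3) (cn := .pnn) (n1 := ndB0q0) (n2 := ndB5q3) (pc := pcB3) (cut := cut_pm_033_s) (xt := Ext.none) (P1 := 0) (W1 := 536870912) (P2 := 0) (W2 := 1230186008) (P3 := 1033476505) (W3 := 6710887) (N0 := 3) (En := eng) (mo := mog) (C1 := cd0q0) (C2 := cd5q3) (C3 := pd3)
    rfl (fun _ => rfl) k0_pm_033_s

noncomputable def cut_pm_101_s : Cut := Cut.of [[⟨4, 0, 0, 1449551462⟩]]

noncomputable def f_pm_101_s : ℕ → ℕ → ℕ → ℕ → Bool := onCell 536870912 536870912 536870912 536870912 1033476505 6710887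
    (rowNE 3 eng mog cd0q1 cd5q0 pd1 1 true true false .npn 1 0 1 (qsf 536870912 536870912 0 536870912 1) ndB0q1 ndB5q0 pcB1 cut_pm_101_s Ext.none)

def k0_pm_101_s : ∃ t, chk3 f_pm_101_s t 1 1 1 = true :=
  ⟨(a (b (b (a (b (a (l 3) (b (l 1) (a (l 363629241367) (l 1)))) (a (b (a (l 3) (l 368461114631)) (a (l 375440439943) (b (l 283635470775) (a (l 16756856) (l 16707040))))) (b (a (b (a (l 16774016) (l 16754096)) (a (l 16755632) (l 16697096))) (b (l 1) (l 16584744))) (a (b (l 16668376) (l 16612664)) (l 16461904))))) (b (l 1) (a (b (l 1) (a (l 16363224) (l 1))) (l 1)))) (a (b (a (b (a (b (l 285246102807) (l 16734792)) (l 16618088)) (a (l 16681088) (l 16593888))) (b (a (l 16548488) (l 16431496)) (a (l 16500688) (l 16403000)))) (a (b (a (l 16636792) (l 16568176)) (a (l 16631416) (l 16583512))) (b (a (l 16494544) (l 16417424)) (l 16442048)))) (b (a (b (a (l 16310504) (l 16187160)) (a (l 16302328) (l 16200360))) (b (l 1) (a (l 323764994615) (l 1)))) (a (b (a (l 16338408)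 (l 16263424)) (a (l 16420536) (l 16406232))) (b (a (l 16251128) (l 16280736)) (l 16451856)))))) (b (b (a (a (b (a (l 16672840) (l 16646824)) (l 16738928)) (b (l 16455496) (l 16687528))) (a (b (a (l 16572376) (l 16594944)) (l 16741624)) (b (l 16643952) (l 16707760)))) (a (a (b (l 16683312) (l 16514400)) (b (l 16650720) (l 16478424))) (a (b (l 16604160) (l 16441032)) (l 16387088)))) (b (a (a (b (l 16300848) (l 16093776)) (l 16188328)) (a (l 16169056) (l 6))) (a (a (b (l 15901568) (l 15721560)) (l 15607440)) (l 6))))) (b (a (b (l 1) (a (b (l 1) (b (l 1) (l 16512888))) (l 1))) (l 1)) (a (a (b (l 6) (l 6)) (l 6)) (l 6)))), by decide +kernel⟩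

theorem c_pm_101_s : CertNE 536870912 536870912 0 536870912 1033476505 6710887 3 eng mog cd0q1 cd5q0 pd1 true true false .npn 1 0 1
    ndB0q1 ndB5q0 pcB1 cut_pm_101_s Ext.none :=
  certNE1 (fam := true) (s1 := true) (s2 := false) (a := 1) (b := 0) (c := 1) (cn := .npn) (n1 := ndB0q1) (n2 := ndB5q0) (pc := pcB1) (cut := cut_pm_101_s) (xt := Ext.none) (P1 := 536870912) (W1 := 536870912) (P2 := 0) (W2 := 536870912) (P3 := 1033476505) (W3 := 6710887) (N0 := 3) (En := eng) (mo := mog) (C1 := cd0q1) (C2 := cd5q0) (C3 := pd1)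
    rfl (fun _ => rfl) k0_pm_101_s

noncomputable def cut_pm_102_s : Cut := Cut.of [[⟨4, 0, 0, 1449551462⟩]]

noncomputable def f_pm_102_s : ℕ → ℕ → ℕ → ℕ → Bool := onCell 536870912 536870912 1073741824 536870912 1033476505 6710887
    (rowNE 3 eng mog cd0q1 cd5q0 pd2 1 true true false .npp 1 0 2 (qsf 536870912 536870912 0 536870912 2) ndB0q1 ndB5q0 pcB2 cut_pm_102_s Ext.none)

def k0_pm_102_s : ∃ t, chk3 f_pm_102_s t 1 1 1 = true :=
  ⟨(a (b (a (b (b (a (b (l 15887424) (l 6)) (l 6)) (l 6)) (l 6)) (l 6)) (l 6)) (l 6)), by decide +kernel⟩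

theorem c_pm_102_s : CertNE 536870912 536870912 0 536870912 1033476505 6710887 3 eng mog cd0q1 cd5q0 pd2 true true false .npp 1 0 2
    ndB0q1 ndB5q0 pcB2 cut_pm_102_s Ext.none :=
  certNE1 (fam := true) (s1 := true) (s2 := false) (a := 1) (b := 0) (c := 2) (cn := .npp) (n1 := ndB0q1) (n2 := ndB5q0) (pc := pcB2) (cut := cut_pm_102_s) (xt := Ext.none) (P1 := 536870912) (W1 := 536870912) (P2 := 0) (W2 := 536870912) (P3 := 1033476505) (W3 := 6710887) (N0 := 3) (En := eng) (mo := mog) (C1 := cd0q1) (C2 := cd5q0) (C3 := pd2)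
    rfl (fun _ => rfl) k0_pm_102_s

noncomputable def cut_pm_112_s : Cut := Cut.of [[⟨4, 0, 0, 1449551462⟩]]

noncomputable def f_pm_112_s : ℕ → ℕ → ℕ → ℕ → Bool := onCell 536870912 536870912 536870912 536870912 1033476505 6710887
    (rowNE 3 eng mog cd0q1 cd5q1 pd2 0 true true false .dn 1 1 2 (qsf 536870912 536870912 536870912 536870912 2) ndB0q1 ndB5q1 pcB2 cut_pm_112_s Ext.none)

def k0_pm_112_s : ∃ t, chk3 f_pm_112_s t 1 1 1 = true :=
  ⟨(a (b (a (b (b (a (l 15804184) (l 6)) (l 6)) (l 6)) (l 6)) (l 6)) (l 6)), by decide +kernel⟩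

theorem c_pm_112_s : CertNE 536870912 536870912 536870912 536870912 1033476505 6710887 3 eng mog cd0q1 cd5q1 pd2 true true false .dn 1 1 2
    ndB0q1 ndB5q1 pcB2 cut_pm_112_s Ext.none :=
  certNE0 (fam := true) (s1 := true) (s2 := false) (a := 1) (b := 1) (c := 2) (cn := .dn) (n1 := ndB0q1) (n2 := ndB5q1) (pc := pcB2) (cut := cut_pm_112_s) (xt := Ext.none) (P1 := 536870912) (W1 := 536870912) (P2 := 536870912) (W2 := 536870912) (P3 := 1033476505) (W3 := 6710887) (N0 := 3) (En := eng) (mo := mog) (C1 := cd0q1) (C2 := cd5q1) (C3 := pd2)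
    rfl k0_pm_112_s

noncomputable def cut_pm_113_s : Cut := Cut.of [[⟨4, 0, 0, 1449551462⟩]]

noncomputable def f_pm_113_s : ℕ → ℕ → ℕ → ℕ → Bool := onCell 536870912 536870912 1610612736 536870912 1033476505 6710887
    (rowNE 3 eng mog cd0q1 cd5q1 pd3 1 true true false .nn 1 1 3 (qsf 536870912 536870912 536870912 536870912 3) ndB0q1 ndB5q1 pcB3 cut_pm_113_s Ext.none)

def k0_pm_113_s : ∃ t, chk3 f_pm_113_s t 1 1 1 = true :=
  ⟨(l 6), by decide +kernel⟩

theorem c_pm_113_s : CertNE 536870912 536870912 536870912 536870912 1033476505 6710887 3 eng mog cd0q1 cd5q1 pd3 true true false .nn 1 1 3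
    ndB0q1 ndB5q1 pcB3 cut_pm_113_s Ext.none :=
  certNE1 (fam := true) (s1 := true) (s2 := false) (a := 1) (b := 1) (c := 3) (cn := .nn) (n1 := ndB0q1) (n2 := ndB5q1) (pc := pcB3) (cut := cut_pm_113_s) (xt := Ext.none) (P1 := 536870912) (W1 := 536870912) (P2 := 536870912) (W2 := 536870912) (P3 := 1033476505) (W3 := 6710887) (N0 := 3) (En := eng) (mo := mog) (C1 := cd0q1) (C2 := cd5q1) (C3 := pd3)
    rfl (fun _ => rfl) k0_pm_113_s

noncomputable def cut_pm_123_s : Cut := Cut.of [[⟨4, 0, 0, 1449551462⟩]]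

noncomputable def f_pm_123_s : ℕ → ℕ → ℕ → ℕ → Bool := onCell 536870912 536870912 1073741824 536870912 1033476505 6710887
    (rowNE 3 eng mog cd0q1 cd5q2 pd3 0 true true false .npn 1 2 3 (qsf 536870912 536870912 1073741824 536870912 3) ndB0q1 ndB5q2 pcB3 cut_pm_123_s Ext.none)

def k0_pm_123_s : ∃ t, chk3 f_pm_123_s t 1 1 1 = true :=
  ⟨(l 6), by decide +kernel⟩

theorem c_pm_123_s : CertNE 536870912 536870912 1073741824 536870912 1033476505 6710887 3 eng mog cd0q1 cd5q2 pd3 true true false .npn 1 2 3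
    ndB0q1 ndB5q2 pcB3 cut_pm_123_s Ext.none :=
  certNE0 (fam := true) (s1 := true) (s2 := false) (a := 1) (b := 2) (c := 3) (cn := .npn) (n1 := ndB0q1) (n2 := ndB5q2) (pc := pcB3) (cut := cut_pm_123_s) (xt := Ext.none) (P1 := 536870912) (W1 := 536870912) (P2 := 1073741824) (W2 := 536870912) (P3 := 1033476505) (W3 := 6710887) (N0 := 3) (En := eng) (mo := mog) (C1 := cd0q1) (C2 := cd5q2) (C3 := pd3)
    rfl k0_pm_123_s

noncomputable def cut_pm_133_s : Cut := Cut.of [[⟨4, 0, 0, 1449551462⟩]]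

noncomputable def f_pm_133_s : ℕ → ℕ → ℕ → ℕ → Bool := onCell 536870912 536870912 0 1230186008 1033476505 6710887
    (rowNE 3 eng mog cd0q1 cd5q3 pd3 0 true true false .dn 1 3 3 (qsf 536870912 536870912 0 1230186008 3) ndB0q1 ndB5q3 pcB3 cut_pm_133_s Ext.none)

def k0_pm_133_s : ∃ t, chk3 f_pm_133_s t 1 1 1 = true :=
  ⟨(l 6), by decide +kernel⟩

theorem c_pm_133_s : CertNE 536870912 536870912 0 1230186008 1033476505 6710887 3 eng mog cd0q1 cd5q3 pd3 true true false .dn 1 3 3
    ndB0q1 ndB5q3 pcB3 cut_pm_133_s Ext.none :=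
  certNE0 (fam := true) (s1 := true) (s2 := false) (a := 1) (b := 3) (c := 3) (cn := .dn) (n1 := ndB0q1) (n2 := ndB5q3) (pc := pcB3) (cut := cut_pm_133_s) (xt := Ext.none) (P1 := 536870912) (W1 := 536870912) (P2 := 0) (W2 := 1230186008) (P3 := 1033476505) (W3 := 6710887) (N0 := 3) (En := eng) (mo := mog) (C1 := cd0q1) (C2 := cd5q3) (C3 := pd3)
    rfl k0_pm_133_s

noncomputable def cut_pm_202_s : Cut := Cut.of [[⟨4, 0, 0, 1449551462⟩]]

noncomputable def f_pm_202_s : ℕ → ℕ → ℕ → ℕ → Bool := onCell 0 536870912 0 536870912 1033476505 6710887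
    (rowNE 3 eng mog cd0q2 cd5q0 pd2 0 true true false .pp 2 0 2 (qsf 0 536870912 0 536870912 2) ndB0q2 ndB5q0 pcB2 cut_pm_202_s Ext.none)

def k0_pm_202_s : ∃ t, chk3 f_pm_202_s t 1 1 1 = true :=
  ⟨(l 6), by decide +kernel⟩

theorem c_pm_202_s : CertNE 0 536870912 0 536870912 1033476505 6710887 3 eng mog cd0q2 cd5q0 pd2 true true false .pp 2 0 2
    ndB0q2 ndB5q0 pcB2 cut_pm_202_s Ext.none :=
  certNE0 (fam := true) (s1 := true) (s2 := false) (a := 2) (b := 0) (c := 2) (cn := .pp) (n1 := ndB0q2) (n2 := ndB5q0) (pc := pcB2) (cut := cut_pm_202_s) (xt := Ext.none) (P1 := 0) (W1 := 536870912) (P2 := 0) (W2 := 536870912) (P3 := 1033476505) (W3 := 6710887) (N0 := 3) (En := eng) (mo := mog) (C1 := cd0q2) (C2 := cd5q0) (C3 := pd2)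
    rfl k0_pm_202_s

noncomputable def cut_pm_203_s : Cut := Cut.of [[⟨4, 0, 0, 1449551462⟩]]

noncomputable def f_pm_203_s : ℕ → ℕ → ℕ → ℕ → Bool := onCell 0 536870912 0 536870912 1033476505 6710887
    (rowNE 3 eng mog cd0q2 cd5q0 pd3 0 true true false .up 2 0 3 (qsf 0 536870912 0 536870912 3) ndB0q2 ndB5q0 pcB3 cut_pm_203_s Ext.none)

def k0_pm_203_s : ∃ t, chk3 f_pm_203_s t 1 1 1 = true :=
  ⟨(l 6), by decide +kernel⟩

theorem c_pm_203_s : CertNE 0 536870912 0 536870912 1033476505 6710887 3 eng mog cd0q2 cd5q0 pd3 true true false .up 2 0 3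
    ndB0q2 ndB5q0 pcB3 cut_pm_203_s Ext.none :=
  certNE0 (fam := true) (s1 := true) (s2 := false) (a := 2) (b := 0) (c := 3) (cn := .up) (n1 := ndB0q2) (n2 := ndB5q0) (pc := pcB3) (cut := cut_pm_203_s) (xt := Ext.none) (P1 := 0) (W1 := 536870912) (P2 := 0) (W2 := 536870912) (P3 := 1033476505) (W3 := 6710887) (N0 := 3) (En := eng) (mo := mog) (C1 := cd0q2) (C2 := cd5q0) (C3 := pd3)
    rfl k0_pm_203_s

noncomputable def cut_pm_213_s : Cut := Cut.of [[⟨4, 0, 0, 1449551462⟩]]

noncomputable def f_pm_213_s : ℕ → ℕ → ℕ → ℕ → Bool := onCell 0 536870912 536870912 536870912 1033476505 6710887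
    (rowNE 3 eng mog cd0q2 cd5q1 pd3 0 true true false .pnn 2 1 3 (qsf 0 536870912 536870912 536870912 3) ndB0q2 ndB5q1 pcB3 cut_pm_213_s Ext.none)

def k0_pm_213_s : ∃ t, chk3 f_pm_213_s t 1 1 1 = true :=
  ⟨(l 6), by decide +kernel⟩

theorem c_pm_213_s : CertNE 0 536870912 536870912 536870912 1033476505 6710887 3 eng mog cd0q2 cd5q1 pd3 true true false .pnn 2 1 3
    ndB0q2 ndB5q1 pcB3 cut_pm_213_s Ext.none :=
  certNE0 (fam := true) (s1 := true) (s2 := false) (a := 2) (b := 1) (c := 3) (cn := .pnn) (n1 := ndB0q2) (n2 := ndB5q1) (pc := pcB3) (cut := cut_pm_213_s) (xt := Ext.none) (P1 := 0) (W1 := 536870912) (P2 := 536870912) (W2 := 536870912) (P3 := 1033476505) (W3 := 6710887) (N0 := 3) (En := eng) (mo := mog) (C1 := cd0q2) (C2 := cd5q1) (C3 := pd3)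
    rfl k0_pm_213_s

noncomputable def cut_mm_001_s : Cut := Cut.of [[⟨4, 0, 0, 1449551462⟩]]

noncomputable def f_mm_001_s : ℕ → ℕ → ℕ → ℕ → Bool := onCell 0 536870912 0 536870912 1033476505 6710887
    (rowNE 3 eng mog cd0q0 cd5q0 pd1 0 true false false .up 0 0 1 (qsf 0 536870912 0 536870912 1) ndB0q0 ndB5q0 pcB1 cut_mm_001_s Ext.none)

def k0_mm_001_s : ∃ t, chk3 f_mm_001_s t 1 1 1 = true :=
  ⟨(l 4), by decide +kernel⟩

theorem c_mm_001_s : CertNE 0 536870912 0 536870912 1033476505 6710887 3 eng mog cd0q0 cd5q0 pd1 true false false .up 0 0 1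
    ndB0q0 ndB5q0 pcB1 cut_mm_001_s Ext.none :=
  certNE0 (fam := true) (s1 := false) (s2 := false) (a := 0) (b := 0) (c := 1) (cn := .up) (n1 := ndB0q0) (n2 := ndB5q0) (pc := pcB1) (cut := cut_mm_001_s) (xt := Ext.none) (P1 := 0) (W1 := 536870912) (P2 := 0) (W2 := 536870912) (P3 := 1033476505) (W3 := 6710887) (N0 := 3) (En := eng) (mo := mog) (C1 := cd0q0) (C2 := cd5q0) (C3 := pd1)
    rfl k0_mm_001_s

noncomputable def cut_mm_011_s : Cut := Cut.of [[⟨4, 0, 0, 1449551462⟩]]

noncomputable def f_mm_011_s : ℕ → ℕ → ℕ → ℕ → Bool := onCell 0 536870912 536870912 536870912 1033476505 6710887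
    (rowNE 3 eng mog cd0q0 cd5q1 pd1 0 true false false .pnn 0 1 1 (qsf 0 536870912 536870912 536870912 1) ndB0q0 ndB5q1 pcB1 cut_mm_011_s Ext.none)

def k0_mm_011_s : ∃ t, chk3 f_mm_011_s t 1 1 1 = true :=
  ⟨(l 4), by decide +kernel⟩

theorem c_mm_011_s : CertNE 0 536870912 536870912 536870912 1033476505 6710887 3 eng mog cd0q0 cd5q1 pd1 true false false .pnn 0 1 1
    ndB0q0 ndB5q1 pcB1 cut_mm_011_s Ext.none :=
  certNE0 (fam := true) (s1 := false) (s2 := false) (a := 0) (b := 1) (c := 1) (cn := .pnn) (n1 := ndB0q0) (n2 := ndB5q1) (pc := pcB1) (cut := cut_mm_011_s) (xt := Ext.none) (P1 := 0) (W1 := 536870912) (P2 := 536870912) (W2 := 536870912) (P3 := 1033476505) (W3 := 6710887) (N0 := 3) (En := eng) (mo := mog) (C1 := cd0q0) (C2 := cd5q1) (C3 := pd1)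
    rfl k0_mm_011_s

noncomputable def cut_mm_012_s : Cut := Cut.of [[⟨4, 0, 0, 1449551462⟩]]

noncomputable def f_mm_012_s : ℕ → ℕ → ℕ → ℕ → Bool := onCell 0 536870912 536870912 536870912 1033476505 6710887
    (rowNE 3 eng mog cd0q0 cd5q1 pd2 0 true false false .pnp 0 1 2 (qsf 0 536870912 536870912 536870912 2) ndB0q0 ndB5q1 pcB2 cut_mm_012_s Ext.none)

def k0_mm_012_s : ∃ t, chk3 f_mm_012_s t 1 1 1 = true :=
  ⟨(l 4), by decide +kernel⟩

theorem c_mm_012_s : CertNE 0 536870912 536870912 536870912 1033476505 6710887 3 eng mog cd0q0 cd5q1 pd2 true false false .pnp 0 1 2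
    ndB0q0 ndB5q1 pcB2 cut_mm_012_s Ext.none :=
  certNE0 (fam := true) (s1 := false) (s2 := false) (a := 0) (b := 1) (c := 2) (cn := .pnp) (n1 := ndB0q0) (n2 := ndB5q1) (pc := pcB2) (cut := cut_mm_012_s) (xt := Ext.none) (P1 := 0) (W1 := 536870912) (P2 := 536870912) (W2 := 536870912) (P3 := 1033476505) (W3 := 6710887) (N0 := 3) (En := eng) (mo := mog) (C1 := cd0q0) (C2 := cd5q1) (C3 := pd2)
    rfl k0_mm_012_s

noncomputable def cut_mm_022_s : Cut := Cut.of [[⟨4, 0, 0, 1449551462⟩]]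

noncomputable def f_mm_022_s : ℕ → ℕ → ℕ → ℕ → Bool := onCell 0 536870912 1073741824 536870912 1033476505 6710887
    (rowNE 3 eng mog cd0q0 cd5q2 pd2 0 true false false .pp 0 2 2 (qsf 0 536870912 1073741824 536870912 2) ndB0q0 ndB5q2 pcB2 cut_mm_022_s Ext.none)

def k0_mm_022_s : ∃ t, chk3 f_mm_022_s t 1 1 1 = true :=
  ⟨(l 4), by decide +kernel⟩

theorem c_mm_022_s : CertNE 0 536870912 1073741824 536870912 1033476505 6710887 3 eng mog cd0q0 cd5q2 pd2 true false false .pp 0 2 2
    ndB0q0 ndB5q2 pcB2 cut_mm_022_s Ext.none :=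
  certNE0 (fam := true) (s1 := false) (s2 := false) (a := 0) (b := 2) (c := 2) (cn := .pp) (n1 := ndB0q0) (n2 := ndB5q2) (pc := pcB2) (cut := cut_mm_022_s) (xt := Ext.none) (P1 := 0) (W1 := 536870912) (P2 := 1073741824) (W2 := 536870912) (P3 := 1033476505) (W3 := 6710887) (N0 := 3) (En := eng) (mo := mog) (C1 := cd0q0) (C2 := cd5q2) (C3 := pd2)
    rfl k0_mm_022_s

noncomputable def cut_mm_023_s : Cut := Cut.of [[⟨4, 0, 0, 1449551462⟩]]

noncomputable def f_mm_023_s : ℕ → ℕ → ℕ → ℕ → Bool := onCell 0 536870912 1073741824 536870912 1033476505 6710887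
    (rowNE 3 eng mog cd0q0 cd5q2 pd3 0 true false false .up 0 2 3 (qsf 0 536870912 1073741824 536870912 3) ndB0q0 ndB5q2 pcB3 cut_mm_023_s Ext.none)

def k0_mm_023_s : ∃ t, chk3 f_mm_023_s t 1 1 1 = true :=
  ⟨(l 4), by decide +kernel⟩

theorem c_mm_023_s : CertNE 0 536870912 1073741824 536870912 1033476505 6710887 3 eng mog cd0q0 cd5q2 pd3 true false false .up 0 2 3
    ndB0q0 ndB5q2 pcB3 cut_mm_023_s Ext.none :=
  certNE0 (fam := true) (s1 := false) (s2 := false) (a := 0) (b := 2) (c := 3) (cn := .up) (n1 := ndB0q0) (n2 := ndB5q2) (pc := pcB3) (cut := cut_mm_023_s) (xt := Ext.none) (P1 := 0) (W1 := 536870912) (P2 := 1073741824) (W2 := 536870912) (P3 := 1033476505) (W3 := 6710887) (N0 := 3) (En := eng) (mo := mog) (C1 := cd0q0) (C2 := cd5q2) (C3 := pd3)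
    rfl k0_mm_023_s

noncomputable def cut_mm_033_s : Cut := Cut.of [[⟨4, 0, 0, 1449551462⟩]]

noncomputable def f_mm_033_s : ℕ → ℕ → ℕ → ℕ → Bool := onCell 0 536870912 0 1230186008 1033476505 6710887
    (rowNE 3 eng mog cd0q0 cd5q3 pd3 0 true false false .pnn 0 3 3 (qsf 0 536870912 0 1230186008 3) ndB0q0 ndB5q3 pcB3 cut_mm_033_s Ext.none)

def k0_mm_033_s : ∃ t, chk3 f_mm_033_s t 1 1 1 = true :=
  ⟨(l 4), by decide +kernel⟩

theorem c_mm_033_s : CertNE 0 536870912 0 1230186008 1033476505 6710887 3 eng mog cd0q0 cd5q3 pd3 true false false .pnn 0 3 3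
    ndB0q0 ndB5q3 pcB3 cut_mm_033_s Ext.none :=
  certNE0 (fam := true) (s1 := false) (s2 := false) (a := 0) (b := 3) (c := 3) (cn := .pnn) (n1 := ndB0q0) (n2 := ndB5q3) (pc := pcB3) (cut := cut_mm_033_s) (xt := Ext.none) (P1 := 0) (W1 := 536870912) (P2 := 0) (W2 := 1230186008) (P3 := 1033476505) (W3 := 6710887) (N0 := 3) (En := eng) (mo := mog) (C1 := cd0q0) (C2 := cd5q3) (C3 := pd3)
    rfl k0_mm_033_s

noncomputable def cut_mm_101_s : Cut := Cut.of [[⟨4, 0, 0, 1449551462⟩]]

noncomputable def f_mm_101_s : ℕ → ℕ → ℕ → ℕ → Bool := onCell 536870912 536870912 0 536870912 1033476505 6710887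
    (rowNE 3 eng mog cd0q1 cd5q0 pd1 0 true false false .npn 1 0 1 (qsf 536870912 536870912 0 536870912 1) ndB0q1 ndB5q0 pcB1 cut_mm_101_s Ext.none)

def k0_mm_101_s : ∃ t, chk3 f_mm_101_s t 1 1 1 = true :=
  ⟨(l 4), by decide +kernel⟩

theorem c_mm_101_s : CertNE 536870912 536870912 0 536870912 1033476505 6710887 3 eng mog cd0q1 cd5q0 pd1 true false false .npn 1 0 1
    ndB0q1 ndB5q0 pcB1 cut_mm_101_s Ext.none :=
  certNE0 (fam := true) (s1 := false) (s2 := false) (a := 1) (b := 0) (c := 1) (cn := .npn) (n1 := ndB0q1) (n2 := ndB5q0) (pc := pcB1) (cut := cut_mm_101_s) (xt := Ext.none) (P1 := 536870912) (W1 := 536870912) (P2 := 0) (W2 := 536870912) (P3 := 1033476505) (W3 := 6710887) (N0 := 3) (En := eng) (mo := mog) (C1 := cd0q1) (C2 := cd5q0) (C3 := pd1)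
    rfl k0_mm_101_s

noncomputable def cut_mm_102_s : Cut := Cut.of [[⟨4, 0, 0, 1449551462⟩]]

noncomputable def f_mm_102_s : ℕ → ℕ → ℕ → ℕ → Bool := onCell 536870912 536870912 0 536870912 1033476505 6710887
    (rowNE 3 eng mog cd0q1 cd5q0 pd2 0 true false false .npp 1 0 2 (qsf 536870912 536870912 0 536870912 2) ndB0q1 ndB5q0 pcB2 cut_mm_102_s Ext.none)

def k0_mm_102_s : ∃ t, chk3 f_mm_102_s t 1 1 1 = true :=
  ⟨(l 4), by decide +kernel⟩

theorem c_mm_102_s : CertNE 536870912 536870912 0 536870912 1033476505 6710887 3 eng mog cd0q1 cd5q0 pd2 true false false .npp 1 0 2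
    ndB0q1 ndB5q0 pcB2 cut_mm_102_s Ext.none :=
  certNE0 (fam := true) (s1 := false) (s2 := false) (a := 1) (b := 0) (c := 2) (cn := .npp) (n1 := ndB0q1) (n2 := ndB5q0) (pc := pcB2) (cut := cut_mm_102_s) (xt := Ext.none) (P1 := 536870912) (W1 := 536870912) (P2 := 0) (W2 := 536870912) (P3 := 1033476505) (W3 := 6710887) (N0 := 3) (En := eng) (mo := mog) (C1 := cd0q1) (C2 := cd5q0) (C3 := pd2)
    rfl k0_mm_102_s

noncomputable def cut_mm_112_s : Cut := Cut.of [[⟨4, 0, 0, 1449551462⟩]]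

noncomputable def f_mm_112_s : ℕ → ℕ → ℕ → ℕ → Bool := onCell 536870912 536870912 536870912 536870912 1033476505 6710887
    (rowNE 3 eng mog cd0q1 cd5q1 pd2 0 true false false .dn 1 1 2 (qsf 536870912 536870912 536870912 536870912 2) ndB0q1 ndB5q1 pcB2 cut_mm_112_s Ext.none)

def k0_mm_112_s : ∃ t, chk3 f_mm_112_s t 1 1 1 = true :=
  ⟨(l 4), by decide +kernel⟩

theorem c_mm_112_s : CertNE 536870912 536870912 536870912 536870912 1033476505 6710887 3 eng mog cd0q1 cd5q1 pd2 true false false .dn 1 1 2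
    ndB0q1 ndB5q1 pcB2 cut_mm_112_s Ext.none :=
  certNE0 (fam := true) (s1 := false) (s2 := false) (a := 1) (b := 1) (c := 2) (cn := .dn) (n1 := ndB0q1) (n2 := ndB5q1) (pc := pcB2) (cut := cut_mm_112_s) (xt := Ext.none) (P1 := 536870912) (W1 := 536870912) (P2 := 536870912) (W2 := 536870912) (P3 := 1033476505) (W3 := 6710887) (N0 := 3) (En := eng) (mo := mog) (C1 := cd0q1) (C2 := cd5q1) (C3 := pd2)
    rfl k0_mm_112_s

noncomputable def cut_mm_113_s : Cut := Cut.of [[⟨4, 0, 0, 1449551462⟩]]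

noncomputable def f_mm_113_s : ℕ → ℕ → ℕ → ℕ → Bool := onCell 536870912 536870912 536870912 536870912 1033476505 6710887
    (rowNE 3 eng mog cd0q1 cd5q1 pd3 0 true false false .nn 1 1 3 (qsf 536870912 536870912 536870912 536870912 3) ndB0q1 ndB5q1 pcB3 cut_mm_113_s Ext.none)

def k0_mm_113_s : ∃ t, chk3 f_mm_113_s t 1 1 1 = true :=
  ⟨(l 4), by decide +kernel⟩

theorem c_mm_113_s : CertNE 536870912 536870912 536870912 536870912 1033476505 6710887 3 eng mog cd0q1 cd5q1 pd3 true false false .nn 1 1 3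
    ndB0q1 ndB5q1 pcB3 cut_mm_113_s Ext.none :=
  certNE0 (fam := true) (s1 := false) (s2 := false) (a := 1) (b := 1) (c := 3) (cn := .nn) (n1 := ndB0q1) (n2 := ndB5q1) (pc := pcB3) (cut := cut_mm_113_s) (xt := Ext.none) (P1 := 536870912) (W1 := 536870912) (P2 := 536870912) (W2 := 536870912) (P3 := 1033476505) (W3 := 6710887) (N0 := 3) (En := eng) (mo := mog) (C1 := cd0q1) (C2 := cd5q1) (C3 := pd3)
    rfl k0_mm_113_s

noncomputable def cut_mm_123_s : Cut := Cut.of [[⟨4, 0, 0, 1449551462⟩]]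

noncomputable def f_mm_123_s : ℕ → ℕ → ℕ → ℕ → Bool := onCell 536870912 536870912 1073741824 536870912 1033476505 6710887
    (rowNE 3 eng mog cd0q1 cd5q2 pd3 0 true false false .npn 1 2 3 (qsf 536870912 536870912 1073741824 536870912 3) ndB0q1 ndB5q2 pcB3 cut_mm_123_s Ext.none)

def k0_mm_123_s : ∃ t, chk3 f_mm_123_s t 1 1 1 = true :=
  ⟨(l 4), by decide +kernel⟩

theorem c_mm_123_s : CertNE 536870912 536870912 1073741824 536870912 1033476505 6710887 3 eng mog cd0q1 cd5q2 pd3 true false false .npn 1 2 3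
    ndB0q1 ndB5q2 pcB3 cut_mm_123_s Ext.none :=
  certNE0 (fam := true) (s1 := false) (s2 := false) (a := 1) (b := 2) (c := 3) (cn := .npn) (n1 := ndB0q1) (n2 := ndB5q2) (pc := pcB3) (cut := cut_mm_123_s) (xt := Ext.none) (P1 := 536870912) (W1 := 536870912) (P2 := 1073741824) (W2 := 536870912) (P3 := 1033476505) (W3 := 6710887) (N0 := 3) (En := eng) (mo := mog) (C1 := cd0q1) (C2 := cd5q2) (C3 := pd3)
    rfl k0_mm_123_s

noncomputable def cut_mm_133_s : Cut := Cut.of [[⟨4, 0, 0, 1449551462⟩]]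

noncomputable def f_mm_133_s : ℕ → ℕ → ℕ → ℕ → Bool := onCell 536870912 536870912 0 1230186008 1033476505 6710887
    (rowNE 3 eng mog cd0q1 cd5q3 pd3 0 true false false .dn 1 3 3 (qsf 536870912 536870912 0 1230186008 3) ndB0q1 ndB5q3 pcB3 cut_mm_133_s Ext.none)

def k0_mm_133_s : ∃ t, chk3 f_mm_133_s t 1 1 1 = true :=
  ⟨(l 4), by decide +kernel⟩

theorem c_mm_133_s : CertNE 536870912 536870912 0 1230186008 1033476505 6710887 3 eng mog cd0q1 cd5q3 pd3 true false false .dn 1 3 3
    ndB0q1 ndB5q3 pcB3 cut_mm_133_s Ext.none :=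
  certNE0 (fam := true) (s1 := false) (s2 := false) (a := 1) (b := 3) (c := 3) (cn := .dn) (n1 := ndB0q1) (n2 := ndB5q3) (pc := pcB3) (cut := cut_mm_133_s) (xt := Ext.none) (P1 := 536870912) (W1 := 536870912) (P2 := 0) (W2 := 1230186008) (P3 := 1033476505) (W3 := 6710887) (N0 := 3) (En := eng) (mo := mog) (C1 := cd0q1) (C2 := cd5q3) (C3 := pd3)
    rfl k0_mm_133_s

noncomputable def cut_mm_202_s : Cut := Cut.of [[⟨4, 0, 0, 1449551462⟩]]

noncomputable def f_mm_202_s : ℕ → ℕ → ℕ → ℕ → Bool := onCell 0 536870912 0 536870912 1033476505 6710887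
    (rowNE 3 eng mog cd0q2 cd5q0 pd2 0 true false false .pp 2 0 2 (qsf 0 536870912 0 536870912 2) ndB0q2 ndB5q0 pcB2 cut_mm_202_s Ext.none)

def k0_mm_202_s : ∃ t, chk3 f_mm_202_s t 1 1 1 = true :=
  ⟨(l 4), by decide +kernel⟩

theorem c_mm_202_s : CertNE 0 536870912 0 536870912 1033476505 6710887 3 eng mog cd0q2 cd5q0 pd2 true false false .pp 2 0 2
    ndB0q2 ndB5q0 pcB2 cut_mm_202_s Ext.none :=
  certNE0 (fam := true) (s1 := false) (s2 := false) (a := 2) (b := 0) (c := 2) (cn := .pp) (n1 := ndB0q2) (n2 := ndB5q0) (pc := pcB2) (cut := cut_mm_202_s) (xt := Ext.none) (P1 := 0) (W1 := 536870912) (P2 := 0) (W2 := 536870912) (P3 := 1033476505) (W3 := 6710887) (N0 := 3) (En := eng) (mo := mog) (C1 := cd0q2) (C2 := cd5q0) (C3 := pd2)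
    rfl k0_mm_202_s

noncomputable def cut_mm_203_s : Cut := Cut.of [[⟨4, 0, 0, 1449551462⟩]]

noncomputable def f_mm_203_s : ℕ → ℕ → ℕ → ℕ → Bool := onCell 0 536870912 0 536870912 1033476505 6710887
    (rowNE 3 eng mog cd0q2 cd5q0 pd3 0 true false false .up 2 0 3 (qsf 0 536870912 0 536870912 3) ndB0q2 ndB5q0 pcB3 cut_mm_203_s Ext.none)

def k0_mm_203_s : ∃ t, chk3 f_mm_203_s t 1 1 1 = true :=
  ⟨(l 4), by decide +kernel⟩

theorem c_mm_203_s : CertNE 0 536870912 0 536870912 1033476505 6710887 3 eng mog cd0q2 cd5q0 pd3 true false false .up 2 0 3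
    ndB0q2 ndB5q0 pcB3 cut_mm_203_s Ext.none :=
  certNE0 (fam := true) (s1 := false) (s2 := false) (a := 2) (b := 0) (c := 3) (cn := .up) (n1 := ndB0q2) (n2 := ndB5q0) (pc := pcB3) (cut := cut_mm_203_s) (xt := Ext.none) (P1 := 0) (W1 := 536870912) (P2 := 0) (W2 := 536870912) (P3 := 1033476505) (W3 := 6710887) (N0 := 3) (En := eng) (mo := mog) (C1 := cd0q2) (C2 := cd5q0) (C3 := pd3)
    rfl k0_mm_203_s

noncomputable def cut_mm_213_s : Cut := Cut.of [[⟨4, 0, 0, 1449551462⟩]]

noncomputable def f_mm_213_s : ℕ → ℕ → ℕ → ℕ → Bool := onCell 0 536870912 536870912 536870912 1033476505 6710887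
    (rowNE 3 eng mog cd0q2 cd5q1 pd3 0 true false false .pnn 2 1 3 (qsf 0 536870912 536870912 536870912 3) ndB0q2 ndB5q1 pcB3 cut_mm_213_s Ext.none)

def k0_mm_213_s : ∃ t, chk3 f_mm_213_s t 1 1 1 = true :=
  ⟨(l 4), by decide +kernel⟩

theorem c_mm_213_s : CertNE 0 536870912 536870912 536870912 1033476505 6710887 3 eng mog cd0q2 cd5q1 pd3 true false false .pnn 2 1 3
    ndB0q2 ndB5q1 pcB3 cut_mm_213_s Ext.none :=
  certNE0 (fam := true) (s1 := false) (s2 := false) (a := 2) (b := 1) (c := 3) (cn := .pnn) (n1 := ndB0q2) (n2 := ndB5q1) (pc := pcB3) (cut := cut_mm_213_s) (xt := Ext.none) (P1 := 0) (W1 := 536870912) (P2 := 536870912) (W2 := 536870912) (P3 := 1033476505) (W3 := 6710887) (N0 := 3) (En := eng) (mo := mog) (C1 := cd0q2) (C2 := cd5q1) (C3 := pd3)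
    rfl k0_mm_213_s

end Pool.Agent.Strip051.G.I9625_9688.Tab.CS.BA05

namespace Pool.Agent.Strip051.G.I9625_9688.Tab.CS.BB00

open Pool.Agent.Strip051.PB Pool.Agent.Strip051.PB.T
open Pool.Agent.Strip051.G.I9625_9688.Tab

noncomputable def cut_pp_001_s : Cut := Cut.of [[⟨4, 0, 0, 1449551462⟩]]

noncomputable def f_pp_001_s : ℕ → ℕ → ℕ → ℕ → Bool := onCell 0 536870912 0 536870912 1033476505 6710887
    (rowNE 3 eng mog cd0q0 cd0q1 pd0 1 false true true .up 0 0 1 (qsf 0 536870912 536870912 536870912 0) ndB0q0 ndB0q1 pcB0 cut_pp_001_s Ext.none)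

def k0_pp_001_s : ∃ t, chk3 f_pp_001_s t 1 1 1 = true :=
  ⟨(l 3), by decide +kernel⟩

theorem c_pp_001_s : CertNE 0 536870912 536870912 536870912 1033476505 6710887 3 eng mog cd0q0 cd0q1 pd0 false true true .up 0 0 1
    ndB0q0 ndB0q1 pcB0 cut_pp_001_s Ext.none :=
  certNE1 (fam := false) (s1 := true) (s2 := true) (a := 0) (b := 0) (c := 1) (cn := .up) (n1 := ndB0q0) (n2 := ndB0q1) (pc := pcB0) (cut := cut_pp_001_s) (xt := Ext.none) (P1 := 0) (W1 := 536870912) (P2 := 536870912) (W2 := 536870912) (P3 := 1033476505) (W3 := 6710887) (N0 := 3) (En := eng) (mo := mog) (C1 := cd0q0) (C2 := cd0q1) (C3 := pd0)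
    rfl (fun _ => rfl) k0_pp_001_s

noncomputable def cut_pp_001_t : Cut := Cut.of [[⟨3, 0, 0, 2845415833⟩]]

noncomputable def f_pp_001_t : ℕ → ℕ → ℕ → ℕ → Bool := onCell 0 536870912 536870912 536870912 1033476505 6710887
    (rowNE 3 eng mog cd0q0 cd0q1 pd0 0 false true true .up 0 0 1 (qsf 0 536870912 536870912 536870912 0) ndB0q0 ndB0q1 pcB0 cut_pp_001_t Ext.none)

def k0_pp_001_t : ∃ t, chk3 f_pp_001_t t 1 1 1 = true :=
  ⟨(l 6), by decide +kernel⟩

theorem c_pp_001_t : CertNE 0 536870912 536870912 536870912 1033476505 6710887 3 eng mog cd0q0 cd0q1 pd0 false true true .up 0 0 1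
    ndB0q0 ndB0q1 pcB0 cut_pp_001_t Ext.none :=
  certNE0 (fam := false) (s1 := true) (s2 := true) (a := 0) (b := 0) (c := 1) (cn := .up) (n1 := ndB0q0) (n2 := ndB0q1) (pc := pcB0) (cut := cut_pp_001_t) (xt := Ext.none) (P1 := 0) (W1 := 536870912) (P2 := 536870912) (W2 := 536870912) (P3 := 1033476505) (W3 := 6710887) (N0 := 3) (En := eng) (mo := mog) (C1 := cd0q0) (C2 := cd0q1) (C3 := pd0)
    rfl k0_pp_001_t

noncomputable def cut_pp_011_s : Cut := Cut.of [[⟨4, 0, 0, 1449551462⟩], [⟨0, 0, 0, 33554432⟩, ⟨1, 1, 0, 33554432⟩, ⟨2, 1, 0, 33554432⟩]]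

noncomputable def f_pp_011_s : ℕ → ℕ → ℕ → ℕ → Bool := onCell 536870912 536870912 536870912 536870912 1033476505 6710887
    (rowNE 3 eng mog cd0q0 cd0q1 pd1 2 false true true .pnn 0 1 1 (qsf 0 536870912 536870912 536870912 1) ndB0q0 ndB0q1 pcB1 cut_pp_011_s Ext.none)

def k0_pp_011_s : ∃ t, chk3 f_pp_011_s t 1 1 1 = true :=
  ⟨(a (l 3) (b (l 3) (a (l 3) (b (l 3) (a (l 3) (b (l 3) (a (l 3) (b (l 3) (b (l 3) (a (l 3) (l 14))))))))))), by decide +kernel⟩

theorem c_pp_011_s : CertNE 0 536870912 536870912 536870912 1033476505 6710887 3 eng mog cd0q0 cd0q1 pd1 false true true .pnn 0 1 1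
    ndB0q0 ndB0q1 pcB1 cut_pp_011_s Ext.none :=
  certNE2 (fam := false) (s1 := true) (s2 := true) (a := 0) (b := 1) (c := 1) (cn := .pnn) (n1 := ndB0q0) (n2 := ndB0q1) (pc := pcB1) (cut := cut_pp_011_s) (xt := Ext.none) (P1 := 0) (W1 := 536870912) (P2 := 536870912) (W2 := 536870912) (P3 := 1033476505) (W3 := 6710887) (N0 := 3) (En := eng) (mo := mog) (C1 := cd0q0) (C2 := cd0q1) (C3 := pd1)
    rfl (fun _ => rfl) k0_pp_011_s

noncomputable def cut_pp_011_t : Cut := Cut.of [[⟨3, 0, 0, 2845415833⟩], [⟨0, 0, 0, 33554432⟩, ⟨1, 1, 0, 33554432⟩, ⟨2, 1, 0, 33554432⟩]]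

noncomputable def f_pp_011_t : ℕ → ℕ → ℕ → ℕ → Bool := onCell 0 536870912 536870912 536870912 1033476505 6710887
    (rowNE 3 eng mog cd0q0 cd0q1 pd1 0 false true true .pnn 0 1 1 (qsf 0 536870912 536870912 536870912 1) ndB0q0 ndB0q1 pcB1 cut_pp_011_t Ext.none)

def k0_pp_011_t : ∃ t, chk3 f_pp_011_t t 1 1 1 = true :=
  ⟨(l 6), by decide +kernel⟩

theorem c_pp_011_t : CertNE 0 536870912 536870912 536870912 1033476505 6710887 3 eng mog cd0q0 cd0q1 pd1 false true true .pnn 0 1 1
    ndB0q0 ndB0q1 pcB1 cut_pp_011_t Ext.none :=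
  certNE0 (fam := false) (s1 := true) (s2 := true) (a := 0) (b := 1) (c := 1) (cn := .pnn) (n1 := ndB0q0) (n2 := ndB0q1) (pc := pcB1) (cut := cut_pp_011_t) (xt := Ext.none) (P1 := 0) (W1 := 536870912) (P2 := 536870912) (W2 := 536870912) (P3 := 1033476505) (W3 := 6710887) (N0 := 3) (En := eng) (mo := mog) (C1 := cd0q0) (C2 := cd0q1) (C3 := pd1)
    rfl k0_pp_011_t

noncomputable def cut_pp_012_s : Cut := Cut.of [[⟨4, 0, 0, 1449551462⟩], [⟨0, 0, 0, 16777216⟩, ⟨1, 1, 0, 16777216⟩, ⟨2, 1, 0, 16777216⟩]]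

noncomputable def f_pp_012_s : ℕ → ℕ → ℕ → ℕ → Bool := onCell 536870912 536870912 0 536870912 1033476505 6710887
    (rowNE 3 eng mog cd0q0 cd0q2 pd1 2 false true true .pnp 0 1 2 (qsf 0 536870912 0 536870912 1) ndB0q0 ndB0q2 pcB1 cut_pp_012_s Ext.none)

def k0_pp_012_s : ∃ t, chk3 f_pp_012_s t 2 1 1 = true :=
  ⟨(b (b (a (l 2) (a (a (a (l 2) (b (b (l 16381296) (l 16579384)) (b (l 92509317175) (l 3)))) (b (a (l 16377984) (l 16364608)) (b (a (l 16616736) (l 16628080)) (a (l 16740992) (b (l 16743992) (l 16770344)))))) (b (a (a (l 16332264) (b (l 16210912) (l 16389792))) (b (a (b (l 16279752) (l 16303640)) (l 16351480)) (a (l 16389928) (l 16411344)))) (a (a (b (l 16565400) (l 16646648)) (l 16503672)) (a (l 16535528) (l 16547160)))))) (a (l 3) (a (l 3) (b (a (b (a (l 16725096) (l 86066951559)) (l 3)) (b (a (l 16697840) (l 16681184)) (a (l 16709416) (l 90898811639)))) (l 3))))) (l 3)), by decide +kernel⟩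

def k1_pp_012_s : ∃ t, chk3 f_pp_012_s t 6 1 1 = true :=
  ⟨(b (a (b (b (a (b (l 16520528) (a (l 16464824) (l 16548304))) (l 16631768)) (a (a (l 16559768) (l 16594152)) (a (l 16567152) (l 16645048)))) (b (a (a (b (l 16663048) (l 16733008)) (l 16649928)) (a (l 16708216) (l 16738736))) (a (b (a (l 16722808) (l 16762408)) (l 3)) (b (a (l 16754952) (l 16757752)) (a (l 16751568) (l 16770888)))))) (a (b (b (l 16695600) (a (l 16762880) (l 16648336))) (b (a (l 16768624) (l 16697264)) (a (b (l 16771880) (l 16772808)) (b (l 16727536) (l 16748520))))) (b (b (l 16511192) (l 16462208)) (b (a (b (l 16593232) (l 16627920)) (b (l 16495128) (l 16532376))) (a (b (l 16664960) (l 16702720)) (b (l 16580944) (l 16566544))))))) (b (a (b (a (l 3) (b (a (l 3) (l 16745048)) (l 3))) (l 3)) (b (a (a (b (l 16774872) (l 3)) (b (l 16767904) (b (l 16769520) (l 3)))) (b (a (a (l 16748776) (l 16726808)) (a (l 16698304) (l 16665848))) (b (a (a (l 16770936) (l 16756976)) (l 16707640)) (a (a (l 16762944)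 (l 16774888)) (a (l 16761984) (l 16743960)))))) (a (l 3) (b (a (l 3) (b (a (l 16761680) (l 16769816)) (a (l 3) (l 210621031687)))) (l 3))))) (l 3))), by decide +kernel⟩

def k2_pp_012_s : ∃ t, chk3 f_pp_012_s t 7 2 1 = true :=
  ⟨(b (b (l 6) (a (a (a (l 16391832) (l 16311840)) (a (l 16252256) (l 6))) (l 6))) (a (a (b (a (b (l 16399984) (l 16428848)) (b (l 16324304) (l 16345976))) (a (b (l 16483080) (l 16483920)) (b (l 16399688) (l 16473392)))) (b (a (l 16285816) (l 16270512)) (a (b (l 16351096) (l 16429504)) (b (l 16338528) (l 16415800))))) (a (b (a (l 16281496) (l 16252008)) (a (b (l 16359168) (a (l 16426664) (l 16441960))) (b (l 16401600) (b (l 16456384) (l 16455792))))) (b (a (l 16240840) (l 6)) (b (a (l 16460104) (l 16493568)) (a (a (l 16522632) (l 16556792)) (l 16506984))))))), by decide +kernel⟩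

def k3_pp_012_s : ∃ t, chk3 f_pp_012_s t 14 6 1 = true :=
  ⟨(a (b (b (a (a (l 16629856) (l 16597992)) (a (l 16569592) (l 16545864))) (a (b (l 16651072) (a (l 16702520) (l 16702504))) (b (l 16604896) (a (l 16682664) (l 16665440))))) (b (a (b (a (l 16755552) (l 16738640)) (a (l 16710696) (l 16765120))) (b (a (l 16700936) (l 16706920)) (a (l 16751304) (l 16738112)))) (a (b (a (l 3) (l 222969021031)) (l 3)) (b (a (l 74792656551) (l 16761616)) (a (l 318532045927) (a (l 169281837239) (l 95193727255))))))) (b (b (a (a (l 16527768) (l 16516040)) (a (l 16511136) (l 16513184))) (a (b (l 16595696) (a (l 16652080) (l 16643608))) (b (l 16588248) (a (l 16640792) (l 16644024))))) (a (b (b (a (l 16695048) (l 16687408)) (a (l 16727232) (l 16719912))) (b (a (l 16751248) (l 16743736)) (a (b (l 16765272) (l 16752224)) (b (l 16756152) (l 16762816))))) (b (b (a (l 16684896) (l 16688024)) (a (l 16717160) (l 16713648))) (b (a (l 16734560) (l 16716000)) (a (b (l 16742064) (l 16749192))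 (b (l 16703352) (l 16711200)))))))), by decide +kernel⟩

def k4_pp_012_s : ∃ t, chk3 f_pp_012_s t 30 6 1 = true :=
  ⟨(b (a (b (a (l 16522440) (l 16538880)) (a (b (l 16600936) (l 16654208)) (b (l 16618608) (l 16672392)))) (b (a (l 16542208) (l 16528368)) (a (b (l 16647080) (l 16630008)) (b (l 16648648) (l 16585008))))) (a (b (a (b (l 16697936) (l 16688960)) (b (l 16666864) (l 16636368))) (a (b (l 16671224) (a (l 16690776) (l 16698936))) (b (a (l 16670168) (l 16651768)) (a (l 16684584) (l 16666536))))) (b (a (b (l 16602352) (l 16612480)) (b (l 16576208) (l 16563096))) (a (b (a (l 16628616) (l 16602488)) (a (l 16643016) (l 16595544))) (b (b (l 16563632) (l 16567896)) (b (l 16575496) (l 16585392))))))), by decide +kernel⟩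

def k5_pp_012_s : ∃ t, chk3 f_pp_012_s t 31 6 1 = true :=
  ⟨(b (b (a (b (a (l 16588568) (l 16622480)) (b (l 16581064) (l 16559576))) (b (l 16495440) (a (l 16528488) (l 16524120)))) (a (b (a (l 16587200) (l 16569008)) (a (l 16564264) (l 16503632))) (b (a (l 16466824) (b (l 16501096) (a (l 16492384) (l 16474792)))) (a (b (l 16497376) (l 16478336)) (b (l 16463536) (a (l 16453704) (l 16437936))))))) (a (b (b (a (l 16533280) (b (l 16500192) (l 16490336))) (a (l 16499720) (b (l 16484720) (l 16483776)))) (b (a (b (l 16521560) (l 16526904)) (b (a (l 16495000) (l 16478472)) (a (l 16500552) (l 16486888)))) (a (a (l 16528856) (b (l 16525840) (l 16539168))) (b (a (l 16511584) (l 16500576)) (a (l 16527136) (l 16521720)))))) (b (a (b (b (l 16464768) (l 16456208)) (b (a (l 16460032) (l 16423720)) (a (l 16438792) (l 16426232)))) (b (b (a (l 16441208) (l 16426968)) (a (l 16412640) (l 16402200))) (b (a (l 16412008) (l 16404616)) (a (l 16417912) (l 16415816))))) (b (a (b (a (l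 16444344) (l 16435128)) (a (l 16476792) (l 16473008))) (b (a (l 16432152) (l 16455344)) (a (l 16474568) (l 16481232)))) (a (b (a (l 16496000) (l 16496960)) (a (l 16522064) (l 16528112))) (b (a (l 16503296) (l 16511496)) (a (l 16536152) (l 16544904)))))))), by decide +kernel⟩

def k6_pp_012_s : ∃ t, chk3 f_pp_012_s t 14 7 1 = true :=
  ⟨(a (l 3) (b (b (a (b (a (b (a (l 3) (l 16765288)) (l 3)) (b (l 16749624) (a (l 16677696) (l 16776168)))) (l 3)) (b (a (a (l 16744400) (l 16737352)) (b (l 16741408) (l 16730584))) (a (b (a (l 89288156791) (l 16772776)) (a (l 3) (l 324437719399))) (b (a (l 16765776) (l 16736960)) (a (b (l 16773432) (l 16704496)) (l 16768848)))))) (b (a (l 3) (a (l 3) (b (a (l 3) (b (l 127942973031) (l 351818146215))) (l 3)))) (l 3))) (l 3))), by decide +kernel⟩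

def k7_pp_012_s : ∃ t, chk3 f_pp_012_s t 30 28 1 = true :=
  ⟨(a (a (b (b (l 16699464) (l 16710784)) (b (b (l 16719512) (l 16725680)) (a (l 16760520) (l 16729856)))) (b (a (b (l 16700504) (l 16712664)) (b (l 16682896) (l 16695848))) (a (b (l 16725960) (l 16719008)) (b (l 16710056) (l 16704448))))) (a (b (a (b (l 16659872) (l 16673312)) (b (l 16633584) (l 16647632))) (a (b (l 16688440) (l 16683664)) (b (l 16663272) (b (l 16654480) (l 16663512))))) (b (b (l 16577208) (a (l 16623656) (l 16582112))) (b (a (b (l 16635376) (l 16644240)) (b (l 16617376) (l 16627904))) (a (b (l 16654360) (l 16665040)) (b (l 16640520) (l 16654552))))))), by decide +kernel⟩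

def k8_pp_012_s : ∃ t, chk3 f_pp_012_s t 60 29 1 = true :=
  ⟨(b (a (b (a (b (l 16769288) (l 16732768)) (l 16748056)) (a (b (a (l 3) (l 93046330599)) (l 3)) (b (l 16751880) (a (l 341617628103) (l 87677654743))))) (b (a (b (l 16729992) (l 16737200)) (b (l 16737360) (l 16724248))) (a (b (l 16743896) (a (l 16772784) (l 16747728))) (b (a (l 16756368) (l 16748296)) (a (l 16741976) (l 16735152)))))) (a (l 3) (b (a (b (a (b (l 16776592) (l 299204806119)) (b (l 16772936) (l 16754720))) (a (l 3) (b (a (l 192367471111) (l 16774752)) (l 3)))) (b (a (b (l 16747120) (l 16771496)) (b (l 16762040) (l 16745512))) (a (b (l 16774840) (a (l 127942982023) (l 16776528))) (b (l 16770672) (l 16774024))))) (a (l 3) (b (a (b (l 340007017287) (l 3)) (b (a (l 16755152) (l 16775816)) (l 272361298007))) (l 3)))))), by decide +kernel⟩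

def k9_pp_012_s : ∃ t, chk3 f_pp_012_s t 61 29 1 = true :=
  ⟨(b (a (b (a (b (l 16695960) (l 16704768)) (b (a (l 16699712) (l 16689064)) (l 16684280))) (a (b (a (l 16739472) (l 16730064)) (a (l 16748336) (l 16740728))) (b (a (l 16721136) (l 16713568)) (a (l 16733208) (l 16726952))))) (b (a (b (l 16677752) (l 16691640)) (b (l 16669936) (l 16686360))) (a (b (l 16706288) (l 16721536)) (b (l 16703392) (l 16721256))))) (a (b (a (b (a (l 16737488) (l 16731344)) (a (b (l 16765920) (l 16749040)) (l 16742328))) (b (a (l 16725152) (l 16741120)) (a (l 16737400) (l 16754520)))) (a (b (a (b (l 16773304) (l 16754832)) (b (l 16748552) (l 16772712))) (a (b (a (l 184314419287) (l 16756000)) (l 3)) (b (l 16775216) (a (l 141901635975) (l 16776488))))) (b (a (b (l 16765480) (l 16748264)) (l 16743704)) (a (b (l 16772280) (l 16774912)) (l 16766560))))) (b (a (b (l 16716464) (a (l 16752680) (l 16731776))) (b (l 16717768) (l 16738384))) (a (b (b (l 16761464) (l 16766000)) (a (l 16770904)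 (l 16767592))) (b (l 16741200) (l 16761680)))))), by decide +kernel⟩

def k10_pp_012_s : ∃ t, chk3 f_pp_012_s t 31 14 1 = true :=
  ⟨(b (a (b (a (b (a (l 16569632) (l 16557432)) (a (b (l 16583296) (l 16593480)) (l 16580144))) (b (a (l 16549840) (l 16549496)) (a (l 16578944) (l 16584176)))) (a (b (a (b (l 16605856) (l 16619736)) (l 16610160)) (a (b (l 16635016) (l 16651584)) (b (l 16636192) (l 16655504)))) (b (a (l 16593704) (l 16621720)) (a (l 16631856) (l 16661248))))) (b (a (b (a (l 16555208) (l 16563024)) (a (l 16591680) (l 16600624))) (b (l 16575488) (l 16610184))) (a (b (l 16613224) (l 16649800)) (b (l 16644504) (l 16656960))))) (a (b (a (b (a (b (l 16669368) (l 16688496)) (l 16663760)) (a (b (l 16707168) (l 16725312)) (l 16701648))) (b (l 16674728) (l 16709456))) (b (a (b (l 16724488) (b (l 16731272) (l 16728280))) (b (l 16714224) (l 16707536))) (a (b (a (l 16752304) (l 16741944)) (a (l 16752872) (l 16743440))) (b (a (l 16731624) (l 16721840)) (a (l 16733936)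 (l 16724864)))))) (b (a (b (l 16684688) (l 16705976)) (b (l 16688936) (l 16688744))) (b (a (b (l 16693744) (l 16709280)) (b (l 16699024) (l 16694496))) (a (b (l 16687696) (a (l 16716488) (l 16708992))) (a (b (l 16697856) (l 16702504)) (l 16683536))))))), by decide +kernel⟩

def k11_pp_012_s : ∃ t, chk3 f_pp_012_s t 30 15 1 = true :=
  ⟨(b (a (l 3) (b (a (b (a (b (a (l 3) (b (a (l 3) (l 283098722407)) (l 3))) (l 3)) (b (a (b (a (l 134385460871) (l 16776024)) (a (l 3) (l 154786540103))) (b (l 16774808) (l 16776120))) (a (l 3) (b (a (l 289541176215) (l 16776840)) (l 337322664039))))) (l 3)) (b (a (b (b (l 16770800) (l 16762120)) (a (b (l 16775496) (a (l 154786540679) (l 16776424))) (l 16773968))) (b (l 16754632) (a (l 16771272) (l 16747232)))) (a (b (a (b (l 299741734919) (l 3)) (b (l 61371019655) (a (l 319605939367) (l 199346844439)))) (l 3)) (b (a (l 16769624) (l 16772312)) (a (b (a (l 286319957607) (l 16776648)) (l 324437768487)) (b (l 16774944) (a (l 151028469047)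 (l 16775968)))))))) (a (l 3) (b (a (l 3) (b (a (l 3) (b (a (l 3) (l 280414381991)) (l 3))) (l 3))) (l 3))))) (l 3)), by decide +kernel⟩

def k12_pp_012_s : ∃ t, chk3 f_pp_012_s t 62 30 1 = true :=
  ⟨(b (b (a (b (a (l 16736392) (l 16727888)) (a (l 16742064) (l 16734456))) (b (a (l 16740168) (l 16731808)) (a (l 16747512) (l 16739832)))) (a (a (b (l 16757376) (b (l 16760512) (a (l 16774184) (l 16750568)))) (a (b (l 16762864) (l 16746600)) (l 16752784))) (a (b (l 16732928) (l 16738496)) (a (l 16730720) (l 16727432))))) (a (b (a (b (a (b (l 16765368) (a (l 313163497175) (b (l 16776456) (l 156934033335)))) (l 16769032)) (a (b (l 371145532727) (l 3)) (b (a (b (l 16776904) (l 312089761879)) (l 16776168)) (a (l 3) (l 305110446823))))) (b (a (l 16771648) (l 16747832)) (a (b (l 16774352) (a (l 104857594807) (l 16775432))) (l 16767432)))) (a (l 3) (b (b (a (a (l 341617651975) (a (l 279340643543) (l 16776816))) (l 16775288)) (a (l 3) (a (b (l 154786573415) (l 348060110215))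 (l 92509563415)))) (a (l 3) (b (a (l 3) (b (l 312626636903) (l 3))) (l 3)))))) (b (b (a (l 16753840) (l 16737368)) (a (a (l 16749008) (l 16746256)) (l 16752520))) (a (b (a (c (l 16768440) (l 16768424)) (l 16771112)) (a (b (a (b (l 16776400) (a (l 212768654103) (l 16776944))) (l 16775616)) (a (l 380809230599) (b (a (l 163913400055) (l 16776552)) (l 334101473319)))) (a (b (l 16774392) (l 16776072)) (l 16768768)))) (a (b (l 16747504) (b (l 16750248) (l 16772968))) (b (l 16744816) (l 16748544))))))), by decide +kernel⟩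

def k13_pp_012_s : ∃ t, chk3 f_pp_012_s t 63 30 1 = true :=
  ⟨(b (a (b (b (a (l 16724048) (l 16717088)) (a (l 16732688) (l 16726168))) (a (a (l 16724208) (l 16721096)) (l 16727168))) (b (b (a (l 16710984) (l 16705848)) (a (l 16720424) (l 16715528))) (a (l 16711320) (l 16706744)))) (a (a (b (b (l 16752464) (l 16736432)) (b (l 16751240) (a (l 16745920) (l 16743304)))) (b (b (l 16746872) (l 16731032)) (b (l 16735496) (b (l 16738488) (l 16740376))))) (a (b (a (l 16724768) (l 16722424)) (b (l 16730640) (l 16745128))) (b (b (l 16737432) (l 16742784)) (a (l 16729472) (l 16727536)))))), by decide +kernel⟩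

def k14_pp_012_s : ∃ t, chk3 f_pp_012_s t 62 31 1 = true :=
  ⟨(b (a (l 3) (b (a (b (a (l 3) (b (a (b (a (l 348060118599) (l 16777032)) (l 407652784839)) (b (l 16776104) (a (l 131164264935) (l 16776640)))) (a (l 3) (b (l 351818215239) (l 3))))) (l 3)) (b (a (b (l 16769440) (a (b (l 16776584) (a (l 372219311687) (b (l 16776896) (l 16777040)))) (l 16775760))) (b (l 16751184) (l 16768640))) (a (b (a (l 430738239975) (b (a (b (l 16777112) (l 279340646855)) (l 16776728)) (a (l 3) (l 280414388247)))) (l 3)) (b (a (b (l 16775792) (l 53317990215)) (l 16774968)) (a (b (a (l 352891961463) (b (l 16776984) (l 209010557399))) (l 3)) (b (l 16776248) (a (b (l 16777144) (l 353965703239)) (l 16776808)))))))) (a (l 3) (b (a (l 3) (b (a (l 3) (b (a (l 3) (l 306721062951)) (l 3))) (l 3))) (l 3))))) (l 3)), by decide +kernel⟩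

def k15_pp_012_s : ∃ t, chk3 f_pp_012_s t 63 62 1 = true :=
  ⟨(a (b (b (a (a (l 16759976) (l 16746920)) (a (l 16744368) (l 16741872))) (a (a (a (b (l 16752728) (l 16775424)) (l 16768056)) (b (l 16749544) (l 16761760))) (a (l 16763600) (l 16755848)))) (a (b (a (b (a (b (a (b (l 16776816) (l 139754209735)) (l 16776392)) (a (l 395304763495) (b (l 16777072) (l 249812746663)))) (b (l 16775448) (l 16776312))) (a (l 3) (b (a (b (l 153712842999) (l 404968439879)) (l 49023023799)) (a (l 3) (l 330880254007))))) (b (l 16771344) (a (b (l 16775904) (a (b (l 16776880) (l 176261421223)) (l 16776456))) (l 16775056)))) (a (l 3) (b (a (b (a (l 424295792727) (b (a (l 16777184) (l 16776952)) (l 316384739351))) (l 3)) (b (a (l 16776696) (l 16776040)) (a (b (a (l 335175221431) (l 16777160)) (l 3)) (b (l 16776696) (a (l 184851366167) (l 16776984)))))) (a (l 3) (b (a (l 3) (l 351818219559)) (l 3)))))) (b (a (b (l 16760928) (l 16767888)) (b (l 16747920) (l 16760104))) (a (b (a (l 16770264)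 (l 16763736)) (a (b (a (b (l 16776944) (a (l 372219314199) (l 126332436759))) (l 16776504)) (a (l 3) (b (a (l 200957493543) (l 16777016)) (l 341617672215)))) (b (l 16775528) (a (b (l 16776512) (l 16776976)) (l 16776080))))) (b (l 16769672) (a (l 16769424) (l 16762880))))))) (a (b (b (a (l 16760432) (l 16758144)) (a (l 16742936) (l 16740600))) (a (b (a (l 16757392) (l 16745688)) (b (l 16759280) (a (l 16761600) (l 16770816)))) (b (l 16759632) (b (l 16756832) (l 16763704))))) (b (a (b (l 16755992) (l 16759376)) (b (l 16754008) (l 16757328))) (a (b (l 16752112) (a (l 16755864) (l 14))) (b (l 16749984) (l 14)))))), by decide +kernel⟩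

def k16_pp_012_s : ∃ t, chk3 f_pp_012_s t 63 63 1 = true :=
  ⟨(a (b (a (l 3) (b (a (b (a (l 3) (b (a (b (a (l 407652794391) (l 139754204327)) (l 3)) (b (l 16776752) (a (l 226727297239) (l 16777040)))) (a (l 3) (l 387251699735)))) (l 3)) (b (a (b (l 16775984) (a (b (a (b (l 16777040) (l 16777192)) (l 16776816)) (a (l 429664501767) (b (l 16777160) (l 289004322935)))) (l 16776544))) (l 16773144)) (a (b (a (l 3) (b (a (l 243907163799) (l 16777072)) (l 366313734151))) (l 3)) (b (a (b (l 16776552) (a (b (l 16777064) (l 193441300647)) (l 16776840))) (l 16776112)) (a (b (a (l 3) (b (l 16777168) (l 312626643063))) (l 3)) (b (l 16776792) (a (l 286856836519) (b (l 16776960) (l 16777176))))))))) (a (l 3) (b (a (l 3) (b (a (l 3) (l 408189662647)) (l 3))) (l 3))))) (l 3)) (b (a (b (b (a (a (l 16768560) (l 16762024)) (a (l 16760752) (l 14))) (a (a (b (l 16769880) (l 16773392)) (b (l 16763320) (l 14))) (l 14))) (l 14)) (l 14)) (l 14))), by decide +kernel⟩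

theorem s17_pp_012_s : ∃ t, chk3 f_pp_012_s t 63 31 1 = true := ex3_b k15_pp_012_s k16_pp_012_s

theorem s18_pp_012_s : ∃ t, chk3 f_pp_012_s t 31 31 1 = true := ex3_a k14_pp_012_s s17_pp_012_s

theorem s19_pp_012_s : ∃ t, chk3 f_pp_012_s t 31 30 1 = true := ex3_a k12_pp_012_s k13_pp_012_s

theorem s20_pp_012_s : ∃ t, chk3 f_pp_012_s t 31 15 1 = true := ex3_b s19_pp_012_s s18_pp_012_s

theorem s21_pp_012_s : ∃ t, chk3 f_pp_012_s t 15 15 1 = true := ex3_a k11_pp_012_s s20_pp_012_s

theorem s22_pp_012_s : ∃ t, chk3 f_pp_012_s t 30 29 1 = true := ex3_a k8_pp_012_s k9_pp_012_s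

theorem s23_pp_012_s : ∃ t, chk3 f_pp_012_s t 30 14 1 = true := ex3_b k7_pp_012_s s22_pp_012_s

theorem s24_pp_012_s : ∃ t, chk3 f_pp_012_s t 15 14 1 = true := ex3_a s23_pp_012_s k10_pp_012_s

theorem s25_pp_012_s : ∃ t, chk3 f_pp_012_s t 15 7 1 = true := ex3_b s24_pp_012_s s21_pp_012_s

theorem s26_pp_012_s : ∃ t, chk3 f_pp_012_s t 7 7 1 = true := ex3_a k6_pp_012_s s25_pp_012_s

theorem s27_pp_012_s : ∃ t, chk3 f_pp_012_s t 15 6 1 = true := ex3_a k4_pp_012_s k5_pp_012_s

theorem s28_pp_012_s : ∃ t, chk3 f_pp_012_s t 7 6 1 = true := ex3_a k3_pp_012_s s27_pp_012_s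

theorem s29_pp_012_s : ∃ t, chk3 f_pp_012_s t 7 3 1 = true := ex3_b s28_pp_012_s s26_pp_012_s

theorem s30_pp_012_s : ∃ t, chk3 f_pp_012_s t 7 1 1 = true := ex3_b k2_pp_012_s s29_pp_012_s

theorem s31_pp_012_s : ∃ t, chk3 f_pp_012_s t 3 1 1 = true := ex3_a k1_pp_012_s s30_pp_012_s

theorem s32_pp_012_s : ∃ t, chk3 f_pp_012_s t 1 1 1 = true := ex3_a k0_pp_012_s s31_pp_012_s

theorem c_pp_012_s : CertNE 0 536870912 0 536870912 1033476505 6710887 3 eng mog cd0q0 cd0q2 pd1 false true true .pnp 0 1 2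
    ndB0q0 ndB0q2 pcB1 cut_pp_012_s Ext.none :=
  certNE2 (fam := false) (s1 := true) (s2 := true) (a := 0) (b := 1) (c := 2) (cn := .pnp) (n1 := ndB0q0) (n2 := ndB0q2) (pc := pcB1) (cut := cut_pp_012_s) (xt := Ext.none) (P1 := 0) (W1 := 536870912) (P2 := 0) (W2 := 536870912) (P3 := 1033476505) (W3 := 6710887) (N0 := 3) (En := eng) (mo := mog) (C1 := cd0q0) (C2 := cd0q2) (C3 := pd1)
    rfl (fun _ => rfl) s32_pp_012_s

noncomputable def cut_pp_012_t : Cut := Cut.of [[⟨3, 0, 0, 2845415833⟩], [⟨0, 0, 0, 16777216⟩, ⟨1, 1, 0, 16777216⟩, ⟨2, 1, 0, 16777216⟩]]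

noncomputable def f_pp_012_t : ℕ → ℕ → ℕ → ℕ → Bool := onCell 0 536870912 0 536870912 1033476505 6710887
    (rowNE 3 eng mog cd0q0 cd0q2 pd1 0 false true true .pnp 0 1 2 (qsf 0 536870912 0 536870912 1) ndB0q0 ndB0q2 pcB1 cut_pp_012_t Ext.none)

def k0_pp_012_t : ∃ t, chk3 f_pp_012_t t 1 1 1 = true :=
  ⟨(l 6), by decide +kernel⟩

theorem c_pp_012_t : CertNE 0 536870912 0 536870912 1033476505 6710887 3 eng mog cd0q0 cd0q2 pd1 false true true .pnp 0 1 2
    ndB0q0 ndB0q2 pcB1 cut_pp_012_t Ext.none :=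
  certNE0 (fam := false) (s1 := true) (s2 := true) (a := 0) (b := 1) (c := 2) (cn := .pnp) (n1 := ndB0q0) (n2 := ndB0q2) (pc := pcB1) (cut := cut_pp_012_t) (xt := Ext.none) (P1 := 0) (W1 := 536870912) (P2 := 0) (W2 := 536870912) (P3 := 1033476505) (W3 := 6710887) (N0 := 3) (En := eng) (mo := mog) (C1 := cd0q0) (C2 := cd0q2) (C3 := pd1)
    rfl k0_pp_012_t

noncomputable def cut_pp_022_s : Cut := Cut.of [[⟨4, 0, 0, 1449551462⟩], [⟨0, 0, 0, 26843545⟩, ⟨1, 1, 0, 26843545⟩, ⟨2, 1, 0, 26843545⟩]]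

noncomputable def f_pp_022_s : ℕ → ℕ → ℕ → ℕ → Bool := onCell 1073741824 536870912 0 536870912 1033476505 6710887
    (rowNE 3 eng mog cd0q0 cd0q2 pd2 2 false true true .pp 0 2 2 (qsf 0 536870912 0 536870912 2) ndB0q0 ndB0q2 pcB2 cut_pp_022_s Ext.none)

def k0_pp_022_s : ∃ t, chk3 f_pp_022_s t 4 2 1 = true :=
  ⟨(a (b (l 6) (a (b (l 6) (b (l 6) (a (a (l 16298064) (l 16301632)) (b (l 6) (a (l 16233008) (l 16190112)))))) (l 6))) (l 6)), by decide +kernel⟩

def k1_pp_022_s : ∃ t, chk3 f_pp_022_s t 8 6 1 = true :=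
  ⟨(b (a (b (a (a (b (l 16323856) (l 16299896)) (b (a (l 16279720) (l 16250072)) (a (l 16256200) (l 16230712)))) (a (b (l 16213496) (a (l 16189128) (l 16192192))) (b (l 16157472) (l 16159088)))) (a (b (a (a (l 16292960) (a (l 16249832) (l 16236576))) (a (l 16217992) (l 16196776))) (a (b (a (l 16257664) (l 16232040)) (a (l 16253280) (l 16230448))) (b (l 16213296) (b (l 16205688) (l 16210176))))) (b (a (a (l 16203064) (l 16174688)) (l 16165904)) (a (b (l 16184400) (l 16194288)) (l 16180184))))) (b (a (a (b (l 16166072) (l 16149496)) (l 16161840)) (l 16139448)) (a (b (l 16150696) (l 16176800)) (b (l 16131632) (l 16128544))))) (a (b (a (b (a (b (a (l 16256064) (l 16237848)) (a (l 16278016) (l 16253376))) (b (b (l 16216664) (l 16231648)) (a (l 16245216) (l 16260096)))) (a (b (a (l 16297544) (l 16276656)) (a (l 16332600) (l 16307488))) (a (b (l 16291728) (l 16301520)) (l 16301584)))) (b (a (b (l 16220152) (l 16252424)) (l 16227096)) (a (l 16289936) (l 16269320)))) (a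 (b (a (b (a (a (l 16371720) (l 16368368)) (l 16363840)) (a (a (l 16411088) (l 16408408)) (l 16403248))) (b (l 16354000) (l 16390120))) (a (b (a (l 16452432) (l 16443944)) (l 16470496)) (b (l 16428312) (l 16468152)))) (b (b (l 16322664) (l 16354392)) (a (b (l 16402840) (l 16439976)) (l 16390440))))) (b (a (b (l 16194504) (l 16229784)) (b (l 16139528) (l 16168736))) (a (b (a (l 16294936) (l 16263008)) (a (l 16357432) (l 16323144))) (b (l 16213792) (l 16272008)))))), by decide +kernel⟩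

def k2_pp_022_s : ∃ t, chk3 f_pp_022_s t 8 7 1 = true :=
  ⟨(b (b (a (b (a (a (b (l 16514624) (l 16559328)) (b (l 16509224) (l 16551072))) (b (l 16440976) (l 16458824))) (a (b (a (l 16604128) (l 16593184)) (a (l 16627560) (l 16614288))) (b (l 16498488) (l 16538216)))) (b (a (a (l 16428272) (l 16392568)) (l 16319616)) (a (b (l 16466856) (l 16505568)) (b (l 16397008) (l 16436256))))) (a (b (a (b (a (l 16667240) (l 16634864)) (a (a (l 16649920) (l 16662792)) (l 16682392))) (b (l 16557024) (l 16595016))) (a (a (b (b (l 16634896) (l 16623200)) (b (l 16637160) (l 16634600))) (b (l 16634952) (l 16642416))) (b (a (l 16682392) (l 16652216)) (l 16661056)))) (b (a (b (l 16544576) (l 16561312)) (b (l 16476304) (l 16515592))) (a (b (l 16554304) (a (l 16658208) (l 16623528))) (b (l 16552688) (l 1)))))) (a (b (b (a (b (a (b (l 16635824) (l 16637880)) (l 16644216)) (a (b (l 16638608) (l 16625000)) (b (l 16667432) (l 16652976)))) (b (a (l 16671176) (l 16682656)) (b (l 16664792)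 (a (l 16678552) (b (l 16691800) (l 16687648)))))) (b (a (a (a (l 16639264) (l 16675952)) (a (l 16669920) (l 16684008))) (a (a (l 16697192) (l 16700696)) (a (l 16681856) (l 16663936)))) (a (l 14) (a (l 14) (a (l 16682376) (l 1)))))) (a (l 14) (a (l 14) (l 1)))) (b (b (a (a (b (l 16645936) (b (l 16673336) (l 16655280))) (l 1)) (l 1)) (l 1)) (l 1)))), by decide +kernel⟩

def k3_pp_022_s : ∃ t, chk3 f_pp_022_s t 9 3 1 = true :=
  ⟨(b (b (a (b (l 6) (b (l 16084384) (a (l 16072336) (l 16017152)))) (l 6)) (a (b (a (b (l 16079768) (l 16106696)) (b (l 16023752) (l 16051008))) (a (b (l 16150480) (l 16208816)) (b (l 16096504) (l 1)))) (b (a (b (l 15978712) (l 1)) (l 1)) (l 1)))) (b (a (a (b (b (l 16279152) (l 16358720)) (l 1)) (l 1)) (l 1)) (l 1))), by decide +kernel⟩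

def k4_pp_022_s : ∃ t, chk3 f_pp_022_s t 5 1 1 = true :=
  ⟨(b (l 6) (b (l 1) (l 1))), by decide +kernel⟩

def k5_pp_022_s : ∃ t, chk3 f_pp_022_s t 3 1 1 = true :=
  ⟨(l 1), by decide +kernel⟩

theorem s6_pp_022_s : ∃ t, chk3 f_pp_022_s t 8 3 1 = true := ex3_b k1_pp_022_s k2_pp_022_s

theorem s7_pp_022_s : ∃ t, chk3 f_pp_022_s t 4 3 1 = true := ex3_a s6_pp_022_s k3_pp_022_s

theorem s8_pp_022_s : ∃ t, chk3 f_pp_022_s t 4 1 1 = true := ex3_b k0_pp_022_s s7_pp_022_s

theorem s9_pp_022_s : ∃ t, chk3 f_pp_022_s t 2 1 1 = true := ex3_a s8_pp_022_s k4_pp_022_s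

theorem s10_pp_022_s : ∃ t, chk3 f_pp_022_s t 1 1 1 = true := ex3_a s9_pp_022_s k5_pp_022_s

theorem c_pp_022_s : CertNE 0 536870912 0 536870912 1033476505 6710887 3 eng mog cd0q0 cd0q2 pd2 false true true .pp 0 2 2
    ndB0q0 ndB0q2 pcB2 cut_pp_022_s Ext.none :=
  certNE2 (fam := false) (s1 := true) (s2 := true) (a := 0) (b := 2) (c := 2) (cn := .pp) (n1 := ndB0q0) (n2 := ndB0q2) (pc := pcB2) (cut := cut_pp_022_s) (xt := Ext.none) (P1 := 0) (W1 := 536870912) (P2 := 0) (W2 := 536870912) (P3 := 1033476505) (W3 := 6710887) (N0 := 3) (En := eng) (mo := mog) (C1 := cd0q0) (C2 := cd0q2) (C3 := pd2)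
    rfl (fun _ => rfl) s10_pp_022_s

noncomputable def cut_pp_022_t : Cut := Cut.of [[⟨3, 0, 0, 2845415833⟩], [⟨0, 0, 0, 26843545⟩, ⟨1, 1, 0, 26843545⟩, ⟨2, 1, 0, 26843545⟩]]

noncomputable def f_pp_022_t : ℕ → ℕ → ℕ → ℕ → Bool := onCell 0 536870912 0 536870912 1033476505 6710887
    (rowNE 3 eng mog cd0q0 cd0q2 pd2 0 false true true .pp 0 2 2 (qsf 0 536870912 0 536870912 2) ndB0q0 ndB0q2 pcB2 cut_pp_022_t Ext.none)

def k0_pp_022_t : ∃ t, chk3 f_pp_022_t t 1 1 1 = true :=
  ⟨(l 6), by decide +kernel⟩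

theorem c_pp_022_t : CertNE 0 536870912 0 536870912 1033476505 6710887 3 eng mog cd0q0 cd0q2 pd2 false true true .pp 0 2 2
    ndB0q0 ndB0q2 pcB2 cut_pp_022_t Ext.none :=
  certNE0 (fam := false) (s1 := true) (s2 := true) (a := 0) (b := 2) (c := 2) (cn := .pp) (n1 := ndB0q0) (n2 := ndB0q2) (pc := pcB2) (cut := cut_pp_022_t) (xt := Ext.none) (P1 := 0) (W1 := 536870912) (P2 := 0) (W2 := 536870912) (P3 := 1033476505) (W3 := 6710887) (N0 := 3) (En := eng) (mo := mog) (C1 := cd0q0) (C2 := cd0q2) (C3 := pd2)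
    rfl k0_pp_022_t

noncomputable def cut_pp_101_s : Cut := Cut.of [[⟨4, 0, 0, 1449551462⟩]]

noncomputable def f_pp_101_s : ℕ → ℕ → ℕ → ℕ → Bool := onCell 536870912 536870912 536870912 536870912 1033476505 6710887
    (rowNE 3 eng mog cd0q1 cd0q1 pd0 0 false true true .npn 1 0 1 (qsf 536870912 536870912 536870912 536870912 0) ndB0q1 ndB0q1 pcB0 cut_pp_101_s Ext.none)

def k0_pp_101_s : ∃ t, chk3 f_pp_101_s t 1 1 1 = true :=
  ⟨(l 3), by decide +kernel⟩

theorem c_pp_101_s : CertNE 536870912 536870912 536870912 536870912 1033476505 6710887 3 eng mog cd0q1 cd0q1 pd0 false true true .npn 1 0 1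
    ndB0q1 ndB0q1 pcB0 cut_pp_101_s Ext.none :=
  certNE0 (fam := false) (s1 := true) (s2 := true) (a := 1) (b := 0) (c := 1) (cn := .npn) (n1 := ndB0q1) (n2 := ndB0q1) (pc := pcB0) (cut := cut_pp_101_s) (xt := Ext.none) (P1 := 536870912) (W1 := 536870912) (P2 := 536870912) (W2 := 536870912) (P3 := 1033476505) (W3 := 6710887) (N0 := 3) (En := eng) (mo := mog) (C1 := cd0q1) (C2 := cd0q1) (C3 := pd0)
    rfl k0_pp_101_s

noncomputable def cut_pp_101_t : Cut := Cut.of [[⟨3, 0, 0, 2845415833⟩]]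

noncomputable def f_pp_101_t : ℕ → ℕ → ℕ → ℕ → Bool := onCell 536870912 536870912 536870912 536870912 1033476505 6710887
    (rowNE 3 eng mog cd0q1 cd0q1 pd0 0 false true true .npn 1 0 1 (qsf 536870912 536870912 536870912 536870912 0) ndB0q1 ndB0q1 pcB0 cut_pp_101_t Ext.none)

def k0_pp_101_t : ∃ t, chk3 f_pp_101_t t 1 1 1 = true :=
  ⟨(l 3), by decide +kernel⟩

theorem c_pp_101_t : CertNE 536870912 536870912 536870912 536870912 1033476505 6710887 3 eng mog cd0q1 cd0q1 pd0 false true true .npn 1 0 1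
    ndB0q1 ndB0q1 pcB0 cut_pp_101_t Ext.none :=
  certNE0 (fam := false) (s1 := true) (s2 := true) (a := 1) (b := 0) (c := 1) (cn := .npn) (n1 := ndB0q1) (n2 := ndB0q1) (pc := pcB0) (cut := cut_pp_101_t) (xt := Ext.none) (P1 := 536870912) (W1 := 536870912) (P2 := 536870912) (W2 := 536870912) (P3 := 1033476505) (W3 := 6710887) (N0 := 3) (En := eng) (mo := mog) (C1 := cd0q1) (C2 := cd0q1) (C3 := pd0)
    rfl k0_pp_101_t

noncomputable def cut_pp_102_s : Cut := Cut.of [[⟨4, 0, 0, 1449551462⟩]]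

noncomputable def f_pp_102_s : ℕ → ℕ → ℕ → ℕ → Bool := onCell 0 536870912 0 536870912 1033476505 6710887
    (rowNE 3 eng mog cd0q1 cd0q2 pd0 2 false true true .npp 1 0 2 (qsf 536870912 536870912 0 536870912 0) ndB0q1 ndB0q2 pcB0 cut_pp_102_s Ext.none)

def k0_pp_102_s : ∃ t, chk3 f_pp_102_s t 1 1 1 = true :=
  ⟨(a (b (l 3) (l 3)) (l 3)), by decide +kernel⟩

theorem c_pp_102_s : CertNE 536870912 536870912 0 536870912 1033476505 6710887 3 eng mog cd0q1 cd0q2 pd0 false true true .npp 1 0 2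
    ndB0q1 ndB0q2 pcB0 cut_pp_102_s Ext.none :=
  certNE2 (fam := false) (s1 := true) (s2 := true) (a := 1) (b := 0) (c := 2) (cn := .npp) (n1 := ndB0q1) (n2 := ndB0q2) (pc := pcB0) (cut := cut_pp_102_s) (xt := Ext.none) (P1 := 536870912) (W1 := 536870912) (P2 := 0) (W2 := 536870912) (P3 := 1033476505) (W3 := 6710887) (N0 := 3) (En := eng) (mo := mog) (C1 := cd0q1) (C2 := cd0q2) (C3 := pd0)
    rfl (fun _ => rfl) k0_pp_102_s

noncomputable def cut_pp_102_t : Cut := Cut.of [[⟨3, 0, 0, 2845415833⟩]]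

noncomputable def f_pp_102_t : ℕ → ℕ → ℕ → ℕ → Bool := onCell 536870912 536870912 0 536870912 1033476505 6710887
    (rowNE 3 eng mog cd0q1 cd0q2 pd0 0 false true true .npp 1 0 2 (qsf 536870912 536870912 0 536870912 0) ndB0q1 ndB0q2 pcB0 cut_pp_102_t Ext.none)

def k0_pp_102_t : ∃ t, chk3 f_pp_102_t t 1 1 1 = true :=
  ⟨(l 6), by decide +kernel⟩

theorem c_pp_102_t : CertNE 536870912 536870912 0 536870912 1033476505 6710887 3 eng mog cd0q1 cd0q2 pd0 false true true .npp 1 0 2
    ndB0q1 ndB0q2 pcB0 cut_pp_102_t Ext.none :=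
  certNE0 (fam := false) (s1 := true) (s2 := true) (a := 1) (b := 0) (c := 2) (cn := .npp) (n1 := ndB0q1) (n2 := ndB0q2) (pc := pcB0) (cut := cut_pp_102_t) (xt := Ext.none) (P1 := 536870912) (W1 := 536870912) (P2 := 0) (W2 := 536870912) (P3 := 1033476505) (W3 := 6710887) (N0 := 3) (En := eng) (mo := mog) (C1 := cd0q1) (C2 := cd0q2) (C3 := pd0)
    rfl k0_pp_102_t

noncomputable def cut_pp_112_s : Cut := Cut.of [[⟨4, 0, 0, 1449551462⟩]]

noncomputable def f_pp_112_s : ℕ → ℕ → ℕ → ℕ → Bool := onCell 536870912 536870912 0 536870912 1033476505 6710887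
    (rowNE 3 eng mog cd0q1 cd0q2 pd1 0 false true true .dn 1 1 2 (qsf 536870912 536870912 0 536870912 1) ndB0q1 ndB0q2 pcB1 cut_pp_112_s Ext.none)

def k0_pp_112_s : ∃ t, chk3 f_pp_112_s t 1 1 1 = true :=
  ⟨(a (b (b (a (a (a (b (b (a (l 16389704) (l 16476272)) (a (l 16565360) (b (l 16663168) (l 16713192)))) (b (a (l 120426605895) (l 3)) (l 3))) (b (b (a (b (l 16516648) (l 16651288)) (b (l 16640176) (l 16685704))) (a (b (l 16688816) (l 3)) (l 3))) (l 3))) (a (b (b (a (b (l 16662088) (l 3)) (l 3)) (l 3)) (l 3)) (l 3))) (l 3)) (l 3)) (l 3)) (l 1)), by decide +kernel⟩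

theorem c_pp_112_s : CertNE 536870912 536870912 0 536870912 1033476505 6710887 3 eng mog cd0q1 cd0q2 pd1 false true true .dn 1 1 2
    ndB0q1 ndB0q2 pcB1 cut_pp_112_s Ext.none :=
  certNE0 (fam := false) (s1 := true) (s2 := true) (a := 1) (b := 1) (c := 2) (cn := .dn) (n1 := ndB0q1) (n2 := ndB0q2) (pc := pcB1) (cut := cut_pp_112_s) (xt := Ext.none) (P1 := 536870912) (W1 := 536870912) (P2 := 0) (W2 := 536870912) (P3 := 1033476505) (W3 := 6710887) (N0 := 3) (En := eng) (mo := mog) (C1 := cd0q1) (C2 := cd0q2) (C3 := pd1)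
    rfl k0_pp_112_s

noncomputable def cut_pp_112_t : Cut := Cut.of [[⟨3, 0, 0, 2845415833⟩]]

noncomputable def f_pp_112_t : ℕ → ℕ → ℕ → ℕ → Bool := onCell 536870912 536870912 0 536870912 1033476505 6710887
    (rowNE 3 eng mog cd0q1 cd0q2 pd1 0 false true true .dn 1 1 2 (qsf 536870912 536870912 0 536870912 1) ndB0q1 ndB0q2 pcB1 cut_pp_112_t Ext.none)

def k0_pp_112_t : ∃ t, chk3 f_pp_112_t t 1 1 1 = true :=
  ⟨(l 6), by decide +kernel⟩

theorem c_pp_112_t : CertNE 536870912 536870912 0 536870912 1033476505 6710887 3 eng mog cd0q1 cd0q2 pd1 false true true .dn 1 1 2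
    ndB0q1 ndB0q2 pcB1 cut_pp_112_t Ext.none :=
  certNE0 (fam := false) (s1 := true) (s2 := true) (a := 1) (b := 1) (c := 2) (cn := .dn) (n1 := ndB0q1) (n2 := ndB0q2) (pc := pcB1) (cut := cut_pp_112_t) (xt := Ext.none) (P1 := 536870912) (W1 := 536870912) (P2 := 0) (W2 := 536870912) (P3 := 1033476505) (W3 := 6710887) (N0 := 3) (En := eng) (mo := mog) (C1 := cd0q1) (C2 := cd0q2) (C3 := pd1)
    rfl k0_pp_112_t

noncomputable def cut_pp_202_s : Cut := Cut.of [[⟨4, 0, 0, 1449551462⟩]]

noncomputable def f_pp_202_s : ℕ → ℕ → ℕ → ℕ → Bool := onCell 0 536870912 0 536870912 1033476505 6710887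
    (rowNE 3 eng mog cd0q2 cd0q2 pd0 0 false true true .pp 2 0 2 (qsf 0 536870912 0 536870912 0) ndB0q2 ndB0q2 pcB0 cut_pp_202_s Ext.none)

def k0_pp_202_s : ∃ t, chk3 f_pp_202_s t 1 1 1 = true :=
  ⟨(l 3), by decide +kernel⟩

theorem c_pp_202_s : CertNE 0 536870912 0 536870912 1033476505 6710887 3 eng mog cd0q2 cd0q2 pd0 false true true .pp 2 0 2
    ndB0q2 ndB0q2 pcB0 cut_pp_202_s Ext.none :=
  certNE0 (fam := false) (s1 := true) (s2 := true) (a := 2) (b := 0) (c := 2) (cn := .pp) (n1 := ndB0q2) (n2 := ndB0q2) (pc := pcB0) (cut := cut_pp_202_s) (xt := Ext.none) (P1 := 0) (W1 := 536870912) (P2 := 0) (W2 := 536870912) (P3 := 1033476505) (W3 := 6710887) (N0 := 3) (En := eng) (mo := mog) (C1 := cd0q2) (C2 := cd0q2) (C3 := pd0)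
    rfl k0_pp_202_s

noncomputable def cut_pp_202_t : Cut := Cut.of [[⟨3, 0, 0, 2845415833⟩]]

noncomputable def f_pp_202_t : ℕ → ℕ → ℕ → ℕ → Bool := onCell 0 536870912 0 536870912 1033476505 6710887
    (rowNE 3 eng mog cd0q2 cd0q2 pd0 0 false true true .pp 2 0 2 (qsf 0 536870912 0 536870912 0) ndB0q2 ndB0q2 pcB0 cut_pp_202_t Ext.none)

def k0_pp_202_t : ∃ t, chk3 f_pp_202_t t 1 1 1 = true :=
  ⟨(l 3), by decide +kernel⟩

theorem c_pp_202_t : CertNE 0 536870912 0 536870912 1033476505 6710887 3 eng mog cd0q2 cd0q2 pd0 false true true .pp 2 0 2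
    ndB0q2 ndB0q2 pcB0 cut_pp_202_t Ext.none :=
  certNE0 (fam := false) (s1 := true) (s2 := true) (a := 2) (b := 0) (c := 2) (cn := .pp) (n1 := ndB0q2) (n2 := ndB0q2) (pc := pcB0) (cut := cut_pp_202_t) (xt := Ext.none) (P1 := 0) (W1 := 536870912) (P2 := 0) (W2 := 536870912) (P3 := 1033476505) (W3 := 6710887) (N0 := 3) (En := eng) (mo := mog) (C1 := cd0q2) (C2 := cd0q2) (C3 := pd0)
    rfl k0_pp_202_t

noncomputable def cut_pm_001_s : Cut := Cut.of [[⟨4, 0, 0, 1449551462⟩]]

noncomputable def f_pm_001_s : ℕ → ℕ → ℕ → ℕ → Bool := onCell 0 536870912 536870912 536870912 1033476505 6710887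
    (rowNE 3 eng mog cd0q0 cd0q1 pd0 0 false true false .up 0 0 1 (qsf 0 536870912 536870912 536870912 0) ndB0q0 ndB0q1 pcB0 cut_pm_001_s Ext.none)

def k0_pm_001_s : ∃ t, chk3 f_pm_001_s t 1 1 1 = true :=
  ⟨(l 6), by decide +kernel⟩

theorem c_pm_001_s : CertNE 0 536870912 536870912 536870912 1033476505 6710887 3 eng mog cd0q0 cd0q1 pd0 false true false .up 0 0 1
    ndB0q0 ndB0q1 pcB0 cut_pm_001_s Ext.none :=
  certNE0 (fam := false) (s1 := true) (s2 := false) (a := 0) (b := 0) (c := 1) (cn := .up) (n1 := ndB0q0) (n2 := ndB0q1) (pc := pcB0) (cut := cut_pm_001_s) (xt := Ext.none) (P1 := 0) (W1 := 536870912) (P2 := 536870912) (W2 := 536870912) (P3 := 1033476505) (W3 := 6710887) (N0 := 3) (En := eng) (mo := mog) (C1 := cd0q0) (C2 := cd0q1) (C3 := pd0)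
    rfl k0_pm_001_s

noncomputable def cut_pm_001_t : Cut := Cut.of [[⟨3, 0, 0, 2845415833⟩]]

noncomputable def f_pm_001_t : ℕ → ℕ → ℕ → ℕ → Bool := onCell 0 536870912 536870912 536870912 1033476505 6710887
    (rowNE 3 eng mog cd0q0 cd0q1 pd0 0 false true false .up 0 0 1 (qsf 0 536870912 536870912 536870912 0) ndB0q0 ndB0q1 pcB0 cut_pm_001_t Ext.none)

def k0_pm_001_t : ∃ t, chk3 f_pm_001_t t 2 1 1 = true :=
  ⟨(b (l 4) (b (b (l 4) (l 2)) (l 2))), by decide +kernel⟩

def k1_pm_001_t : ∃ t, chk3 f_pm_001_t t 3 2 1 = true :=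
  ⟨(b (l 4) (a (l 4) (b (a (l 4) (b (a (l 4) (a (l 4) (l 118346405655))) (a (a (l 4) (l 116735777543)) (b (a (l 16770784) (l 16762448)) (l 16746472))))) (a (b (a (l 4) (b (l 4) (a (l 4) (l 16774320)))) (a (b (l 138210645735) (a (l 16774472) (l 16771152))) (b (a (l 16772704) (l 16757216)) (l 16746744)))) (a (b (b (a (l 16774248) (l 16759504)) (l 16746664)) (b (l 16722736) (l 16700976))) (b (b (l 16717104) (l 16690200)) (l 16593032))))))), by decide +kernel⟩

def k2_pm_001_t : ∃ t, chk3 f_pm_001_t t 3 3 1 = true :=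
  ⟨(b (a (b (a (a (l 4) (b (l 4) (b (l 4) (a (l 4) (l 123715132551))))) (b (a (l 4) (b (a (l 4) (l 16775048)) (a (l 16775600) (l 16768056)))) (a (a (b (l 124252011047) (l 16773440)) (b (l 16775144) (l 16763992))) (b (l 16760608) (l 16745760))))) (a (b (a (l 2) (b (a (l 2) (l 16770752)) (l 2))) (l 2)) (a (b (b (l 16755824) (l 16738616)) (b (l 16716208) (l 2))) (b (b (l 16729720) (l 16711072)) (b (l 16687736) (l 16638400)))))) (b (a (b (a (b (a (l 16769632) (l 16754976)) (l 16746720)) (b (l 16727200) (l 16709208))) (a (b (l 16730424) (l 16714176)) (l 16705048))) (b (a (l 16693568) (l 16574776)) (a (l 16595096) (l 16560288)))) (a (b (a (l 16687856) (l 16605112)) (b (a (l 16653056) (a (l 16622440) (l 16605624))) (a (b (l 16619824) (a (l 16599752) (l 16560400))) (b (a (l 16602792) (l 16591032)) (a (l 16634184) (l 16686288)))))) (b (a (l 16577968) (b (l 16553104) (b (l 16537488) (a (l 16545640) (l 6))))) (b (a (b (a (l 16582920) (l 16569032)) (a (l 16591832) (l 16613144)))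 (b (a (l 16570496) (l 6)) (l 6))) (a (l 16547360) (l 6))))))) (a (b (a (l 2) (b (b (a (l 2) (b (a (l 2) (l 16561912)) (l 2))) (l 2)) (l 2))) (l 2)) (b (a (b (a (b (b (a (l 16600856) (l 16658776)) (l 16594944)) (b (l 16451448) (l 16320024))) (b (b (l 16616952) (l 16482368)) (l 6))) (a (a (l 2) (l 6)) (l 6))) (l 6)) (l 6)))), by decide +kernel⟩

theorem s3_pm_001_t : ∃ t, chk3 f_pm_001_t t 3 1 1 = true := ex3_b k1_pm_001_t k2_pm_001_t

theorem s4_pm_001_t : ∃ t, chk3 f_pm_001_t t 1 1 1 = true := ex3_a k0_pm_001_t s3_pm_001_t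

theorem c_pm_001_t : CertNE 0 536870912 536870912 536870912 1033476505 6710887 3 eng mog cd0q0 cd0q1 pd0 false true false .up 0 0 1
    ndB0q0 ndB0q1 pcB0 cut_pm_001_t Ext.none :=
  certNE0 (fam := false) (s1 := true) (s2 := false) (a := 0) (b := 0) (c := 1) (cn := .up) (n1 := ndB0q0) (n2 := ndB0q1) (pc := pcB0) (cut := cut_pm_001_t) (xt := Ext.none) (P1 := 0) (W1 := 536870912) (P2 := 536870912) (W2 := 536870912) (P3 := 1033476505) (W3 := 6710887) (N0 := 3) (En := eng) (mo := mog) (C1 := cd0q0) (C2 := cd0q1) (C3 := pd0)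
    rfl s4_pm_001_t

noncomputable def cut_pm_011_s : Cut := Cut.of [[⟨4, 0, 0, 1449551462⟩], [⟨0, 0, 0, 22369621⟩, ⟨1, 1, 0, 22369621⟩, ⟨2, 1, 0, 22369621⟩]]

noncomputable def f_pm_011_s : ℕ → ℕ → ℕ → ℕ → Bool := onCell 0 536870912 536870912 536870912 1033476505 6710887
    (rowNE 3 eng mog cd0q0 cd0q1 pd1 0 false true false .pnn 0 1 1 (qsf 0 536870912 536870912 536870912 1) ndB0q0 ndB0q1 pcB1 cut_pm_011_s Ext.none)

def k0_pm_011_s : ∃ t, chk3 f_pm_011_s t 1 1 1 = true :=
  ⟨(l 6), by decide +kernel⟩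

theorem c_pm_011_s : CertNE 0 536870912 536870912 536870912 1033476505 6710887 3 eng mog cd0q0 cd0q1 pd1 false true false .pnn 0 1 1
    ndB0q0 ndB0q1 pcB1 cut_pm_011_s Ext.none :=
  certNE0 (fam := false) (s1 := true) (s2 := false) (a := 0) (b := 1) (c := 1) (cn := .pnn) (n1 := ndB0q0) (n2 := ndB0q1) (pc := pcB1) (cut := cut_pm_011_s) (xt := Ext.none) (P1 := 0) (W1 := 536870912) (P2 := 536870912) (W2 := 536870912) (P3 := 1033476505) (W3 := 6710887) (N0 := 3) (En := eng) (mo := mog) (C1 := cd0q0) (C2 := cd0q1) (C3 := pd1)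
    rfl k0_pm_011_s

end Pool.Agent.Strip051.G.I9625_9688.Tab.CS.BB00

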