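import Pool.Agent.Strip051.G.I9625_9688.Tab
import Pool.Agent.Strip051.PB.StripB
import Pool.Agent.Strip051.PB.ExtD3

/-! # Strips, near vertex: certificates 3 (generated) -/

set_option linter.all false
set_option maxRecDepth 100000

namespace Pool.Agent.Strip051.G.I9625_9688.Tab.CS.BB00

open Pool.Agent.Strip051.PB Pool.Agent.Strip051.PB.T
open Pool.Agent.Strip051.G.I9625_9688.Tab

noncomputable def cut_pm_011_t : Cut := Cut.of [[⟨3, 0, 0, 2845415833⟩], [⟨0, 0, 0, 22369621⟩, ⟨1, 1, 0, 22369621⟩, ⟨2, 1, 0, 22369621⟩]]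

noncomputable def f_pm_011_t : ℕ → ℕ → ℕ → ℕ → Bool := onCell 0 536870912 536870912 536870912 1033476505 6710887
    (rowNE 3 eng mog cd0q0 cd0q1 pd1 0 false true false .pnn 0 1 1 (qsf 0 536870912 536870912 536870912 1) ndB0q0 ndB0q1 pcB1 cut_pm_011_t Ext.none)

def k0_pm_011_t : ∃ t, chk3 f_pm_011_t t 2 2 1 = true :=
  ⟨(l 4), by decide +kernel⟩

def k1_pm_011_t : ∃ t, chk3 f_pm_011_t t 2 6 1 = true :=
  ⟨(a (l 4) (b (l 4) (a (l 4) (b (l 4) (a (b (l 4) (a (l 4) (b (l 4) (a (l 4) (b (l 4) (a (l 4) (l 16751200))))))) (b (a (l 4) (b (a (l 4) (l 137136875207)) (a (b (l 4) (l 16748936)) (b (l 16749440) (l 16746928))))) (a (b (a (l 4) (b (l 16739040) (l 16716184))) (a (b (a (l 16763248) (l 16766064)) (l 16699248)) (l 16646672))) (a (b (a (l 16706832) (l 16706640)) (l 16640312)) (b (l 16673824) (l 16619832)))))))))), by decide +kernel⟩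

def k2_pm_011_t : ∃ t, chk3 f_pm_011_t t 4 14 1 = true :=
  ⟨(a (l 4) (a (l 4) (b (l 4) (a (l 4) (b (l 4) (b (l 4) (a (b (l 4) (a (l 4) (b (l 4) (a (c (l 359938332359) (l 183307720167)) (c (a (l 122641360263) (l 16733920)) (l 117272648215)))))) (b (a (l 4) (c (b (l 360475179703) (a (l 118346374999) (l 16751352))) (b (l 173643994839) (b (l 166127884503) (l 16741432))))) (a (b (a (c (l 171496578407) (l 175791544599)) (c (l 110830214903) (l 16733000))) (a (c (l 16749080) (l 16749056)) (l 16739824))) (b (c (l 16740640) (l 16740576)) (c (l 16724408) (l 16724280)))))))))))), by decide +kernel⟩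

def k3_pm_011_t : ∃ t, chk3 f_pm_011_t t 8 30 1 = true :=
  ⟨(a (l 4) (b (l 4) (a (l 4) (b (l 4) (a (l 4) (b (l 4) (a (l 4) (b (l 4) (a (b (l 4) (a (l 4) (b (l 4) (c (c (l 133378825047) (c (l 134452566583) (l 16756120))) (l 139284403863))))) (a (b (l 4) (b (c (c (l 132305086519) (l 134452570071)) (l 138747536583)) (c (l 16764688) (l 16775128)))) (c (b (b (l 305714405735) (c (l 131231348119) (l 133378831415))) (l 16763352)) (b (b (l 304103791639) (l 138747540503)) (l 16752800))))))))))))), by decide +kernel⟩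

def k4_pm_011_t : ∃ t, chk3 f_pm_011_t t 16 62 1 = true :=
  ⟨(a (l 4) (b (l 4) (a (l 4) (b (l 4) (a (l 4) (b (l 4) (a (l 4) (b (l 4) (a (l 4) (b (l 4) (c (c (a (l 319673065143) (b (l 170422958487) (l 16776568))) (a (l 319673063575) (b (a (l 4) (l 155927446055)) (l 16776552)))) (a (l 319136200775) (b (l 301419456439) (l 16776528)))))))))))))), by decide +kernel⟩

def k5_pm_011_t : ∃ t, chk3 f_pm_011_t t 32 126 1 = true :=
  ⟨(a (l 4) (b (l 4) (a (l 4) (b (l 4) (a (l 4) (b (l 4) (a (l 4) (b (l 4) (a (l 4) (b (l 4) (b (l 4) (a (l 4) (c (a (c (l 195119022471) (l 196192764295)) (c (l 16777200) (l 16777192))) (a (l 203708957063) (c (l 16777192) (l 16777184)))))))))))))))), by decide +kernel⟩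

def k6_pm_011_t : ∃ t, chk3 f_pm_011_t t 64 127 1 = true :=
  ⟨(l 14), by decide +kernel⟩

def k7_pm_011_t : ∃ t, chk3 f_pm_011_t t 130 254 1 = true :=
  ⟨(l 14), by decide +kernel⟩

def k8_pm_011_t : ∃ t, chk3 f_pm_011_t t 262 508 1 = true :=
  ⟨(b (b (l 4) (b (l 4) (l 14))) (l 14)), by decide +kernel⟩

def k9_pm_011_t : ∃ t, chk3 f_pm_011_t t 263 508 1 = true :=
  ⟨(b (a (b (a (l 4) (b (l 4) (b (l 4) (a (l 4) (c (a (c (l 212835762599) (l 213372633511)) (c (l 105461577415) (l 110293418231))) (a (l 220351955367) (c (l 109219676439) (l 114051512023)))))))) (a (b (b (l 4) (a (l 4) (c (a (c (l 224646922663) (l 225183793575)) (c (l 114051513335) (l 115125253847))) (a (l 231089373607) (b (l 205856440631) (l 16777152)))))) (b (b (a (c (l 283165851831) (l 294440140983)) (c (l 16777048) (l 16777032))) (a (a (l 14) (c (l 16777168) (l 16777160))) (l 16776152))) (a (a (l 14) (l 16776160)) (a (l 16775256) (l 16773696))))) (b (c (a (b (a (c (l 218741342631) (l 219278213543)) (c (l 111367157447)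 (l 112977772807))) (l 16776920)) (l 85597353319)) (b (a (a (l 225720664487) (c (l 118346481927) (l 116198995687))) (l 16776224)) (c (l 16775336) (l 16774000)))) (c (l 16773368) (l 16774568))))) (b (a (b (b (l 4) (a (l 4) (c (a (c (l 204245827991) (l 204782698903)) (c (l 93113549063) (l 97945387255))) (a (l 212298891671) (c (l 16777296) (l 111367160039)))))) (a (c (b (a (c (l 210151408023) (l 211225149847)) (c (l 95797903639) (l 100629741831))) (l 16776896)) (b (a (l 217667600791) (c (l 106535321863) (l 111367154823))) (l 16776864))) (c (l 16775664) (a (l 16776072) (l 16771224))))) (b (a (c (b (a (c (l 197803377047) (l 198877118871)) (c (l 16777208) (l 16777200))) (l 16776872)) (b (a (l 206393311639) (c (l 16777200) (l 108145934551))) (l 16776840))) (c (l 16773992) (l 16775584))) (c (l 16770664) (l 16773176)))) (a (c (l 16773520) (c (l 16772744) (l 16772672))) (c (l 16769248) (c (l 16769072) (l 16768952)))))) (a (a (b (b (c (l 16773408) (l 16774608)) (l 14)) (l 14)) (b (c (l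 16771992) (c (l 16769192) (l 16771696))) (c (l 16772800) (l 16767152)))) (c (b (l 16770504) (l 16766040)) (b (a (l 16770688) (l 16766968)) (l 16768136))))), by decide +kernel⟩

def k10_pm_011_t : ∃ t, chk3 f_pm_011_t t 131 509 1 = true :=
  ⟨(b (a (l 14) (a (l 14) (b (l 16763888) (l 16756776)))) (l 14)), by decide +kernel⟩

def k11_pm_011_t : ∃ t, chk3 f_pm_011_t t 65 255 1 = true :=
  ⟨(l 14), by decide +kernel⟩

def k12_pm_011_t : ∃ t, chk3 f_pm_011_t t 66 252 1 = true :=
  ⟨(a (l 4) (b (l 4) (a (l 4) (b (l 4) (a (l 4) (b (l 4) (a (l 4) (b (l 4) (c (a (b (l 4) (c (l 150021865863) (l 151095607703))) (b (c (l 16777368) (l 146263769479)) (l 16776824))) (a (l 322357427207) (b (l 149484994999) (l 16776800)))))))))))), by decide +kernel⟩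

def k13_pm_011_t : ∃ t, chk3 f_pm_011_t t 132 506 1 = true :=
  ⟨(a (l 4) (b (l 4) (a (l 4) (b (l 4) (a (l 4) (b (l 4) (a (c (b (l 4) (l 215520117383)) (l 290145173879)) (c (b (l 217130730071) (c (l 16777104) (l 16777096))) (b (l 220351955543) (c (l 16777088) (l 16777088))))))))))), by decide +kernel⟩

def k14_pm_011_t : ∃ t, chk3 f_pm_011_t t 264 507 1 = true :=
  ⟨(b (a (l 4) (b (l 4) (a (l 4) (b (l 4) (b (l 4) (a (l 4) (c (c (l 91502933799) (l 95797901079)) (c (l 96871642935) (l 102240352055))))))))) (a (b (a (l 4) (b (l 4) (b (l 4) (a (l 4) (a (c (c (l 172570444151) (l 173644185975)) (l 182234120567)) (b (c (l 16777248) (l 16777248)) (l 97408515095))))))) (a (b (b (l 4) (a (l 4) (c (c (a (l 182770991495) (l 16777176)) (a (l 183844733319) (l 16777176))) (a (l 191360924775) (c (l 16777168) (l 16777160)))))) (b (c (a (a (c (l 188676571527) (l 189750313351)) (c (l 16777184) (l 16777184))) (l 16776832)) (a (a (l 197803377031) (c (l 16777176) (l 16777176))) (l 16776800))) (c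 (l 16775280) (l 16775232)))) (b (c (b (a (a (a (l 233236857207) (l 166664864055)) (a (l 94724161799) (l 16777112))) (l 16776800)) (l 16773944)) (a (a (b (l 185455346055) (l 16776920)) (c (l 16776904) (l 16776888))) (l 16773880))) (c (l 16770584) (l 16773088))))) (b (a (b (a (l 4) (b (l 4) (a (c (l 163443637335) (l 169349218679)) (c (l 16777128) (l 16777120))))) (b (a (a (c (l 169886088279) (l 175791669623)) (c (l 16777136) (l 16777128))) (c (l 16776768) (l 16776736))) (c (l 16776528) (l 16773848)))) (b (b (c (a (a (l 159685542247) (l 16777112)) (l 16776736)) (a (c (l 104387835687) (l 109219673895)) (l 16776704))) (c (l 16776496) (l 16771192))) (c (l 16770496) (l 16770376)))) (a (c (l 16772664) (c (l 16769928) (l 16769848))) (c (l 16768984) (l 16771376)))))), by decide +kernel⟩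

def k15_pm_011_t : ∃ t, chk3 f_pm_011_t t 265 507 1 = true :=
  ⟨(b (a (b (a (l 4) (b (l 4) (a (c (l 310546268567) (l 313230623127)) (c (b (l 304103817479) (c (l 16777160) (l 16777152))) (b (l 306788172039) (c (l 16777152) (l 94187290887))))))) (a (b (a (l 4) (c (b (l 313767493911) (c (l 82912999191) (l 85060480215))) (b (l 316451848471) (c (l 92576678215) (l 97945382087))))) (c (a (b (c (l 90966062855) (l 88281708327)) (l 16776720)) (l 16776448)) (a (b (c (l 93650414823) (l 101166607575)) (l 16776688)) (l 16771144)))) (b (b (a (c (c (l 79691776327) (l 83449872695)) (c (l 88818581815) (l 96334774567))) (l 16775992)) (a (l 16776016) (l 16773488))) (c (l 16770400) (l 16770280))))) (b (a (a (b (c (l 303566945383) (l 306788172167)) (a (b (c (l 119957094743) (l 128010158423)) (l 16774152)) (c (l 16776776) (l 16776736)))) (b (c (b (l 225720664679) (c (l 16777128) (l 16777128))) (b (l 238605566567) (a (l 126399545655) (l 16777000)))) (c (l 16771128) (l 16771064)))) (a (b (c (c (l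 16776864) (l 16776856)) (c (l 16777000) (l 16776824))) (l 16774456)) (c (l 16770552) (l 16770456)))) (c (a (l 16769824) (l 16768720)) (a (l 16772288) (l 16768480))))) (c (a (b (a (l 16769936) (l 16768856)) (l 16767368)) (a (l 16766720) (l 16765592))) (a (b (c (l 16772032) (l 16771776)) (c (l 16767096) (l 16766920))) (b (c (l 16766928) (l 16766752)) (l 16764624))))), by decide +kernel⟩

def k16_pm_011_t : ∃ t, chk3 f_pm_011_t t 266 506 1 = true :=
  ⟨(b (a (l 4) (b (l 4) (a (l 4) (b (l 4) (a (c (c (l 259006660935) (l 260080402759)) (l 261691015495)) (b (c (c (l 177939153415) (l 180086637063)) (l 183844733479)) (c (l 16776976) (l 16776952)))))))) (a (b (a (l 4) (b (l 4) (b (a (l 4) (c (l 196192764487) (l 201024602695))) (c (a (l 202098344519) (l 16777040)) (a (l 206393311815) (l 16777024)))))) (a (b (b (a (l 4) (c (l 205856440919) (l 209614537303))) (c (a (l 211225150039) (l 23857201031)) (a (l 214983246423) (l 20099104615)))) (c (a (c (l 16776832) (l 16776816)) (l 16771048))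 (c (l 108145930407) (l 110293413927)))) (c (a (c (l 99019124007) (l 95797898135)) (l 16770456)) (b (c (l 104924704855) (l 16773832)) (l 16770080))))) (b (a (c (b (b (c (l 263301628231) (l 264375370055)) (a (l 192971537687) (l 16777008))) (a (l 16776840) (l 16765712))) (b (a (b (l 4) (l 198340248119)) (b (l 192971538999) (l 16776992))) (c (l 16773816) (l 16776408)))) (a (b (c (l 16776720) (l 110293414887)) (l 16772952)) (c (l 16770360) (l 16770248)))) (c (l 16771640) (c (l 16768872) (l 16768768)))))), by decide +kernel⟩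

def k17_pm_011_t : ∃ t, chk3 f_pm_011_t t 267 506 1 = true :=
  ⟨(b (a (b (a (l 4) (b (l 4) (c (a (b (l 4) (c (l 172570444199) (l 175254798759))) (b (c (l 168275476887) (l 170959831447)) (l 16776904))) (a (l 273502175239) (b (l 162369896983) (l 16776880)))))) (a (b (a (c (b (l 4) (c (l 173644186103) (l 176328540663))) (l 254174820087)) (b (c (c (l 174717927879) (l 174717927895)) (l 172033573415)) (c (l 16776936) (l 16776920)))) (c (l 95261028183) (l 94724156839))) (c (c (l 16770568) (l 16770520)) (c (l 16770472) (l 16770424))))) (b (a (b (c (a (b (l 4) (c (l 161833025943) (l 164517380503))) (b (c (l 154853704087) (l 158074929559)) (l 16776864))) (a (l 327726136775) (b (l 158074929623) (l 16776840)))) (c (l 16773680) (l 16771000))) (c (c (l 16770464) (l 16770416)) (c (l 16770368) (l 16765080)))) (c (l 16768752) (c (l 16768600) (l 16763256))))) (a (b (c (l 16771512) (c (l 16768736) (l 16763392))) (c (l 16761424) (l 16766320))) (c (l 16765360) (b (l 16766136) (l 16768992))))),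 by decide +kernel⟩

def k18_pm_011_t : ∃ t, chk3 f_pm_011_t t 133 507 1 = true :=
  ⟨(a (b (a (b (c (l 16771768) (c (l 16769000) (l 16768904))) (c (l 16767016) (l 16769288))) (c (a (l 16766344) (l 16759928)) (b (l 16769112) (l 16758936)))) (a (b (c (l 16770152) (l 16759160)) (l 16757248)) (c (l 16756248) (l 16760752)))) (b (a (c (l 16758128) (c (l 16757696) (l 16762648))) (b (l 16756448) (l 16764656))) (a (l 16753360) (l 16750784)))), by decide +kernel⟩

def k19_pm_011_t : ∃ t, chk3 f_pm_011_t t 134 504 1 = true :=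
  ⟨(a (l 4) (b (l 4) (a (l 4) (b (l 4) (c (a (b (l 4) (l 351348453463)) (a (c (l 304640685639) (l 305177555351)) (b (l 340074165143) (l 16776712)))) (a (l 358864638407) (b (l 342221644263) (a (l 140895059463) (l 16776688))))))))), by decide +kernel⟩

def k20_pm_011_t : ∃ t, chk3 f_pm_011_t t 134 505 1 = true :=
  ⟨(a (b (a (l 4) (b (l 4) (a (l 4) (b (l 4) (c (c (a (l 146263767143) (l 16776904)) (a (l 292292655719) (l 16776888))) (a (b (l 4) (l 16777088)) (l 16776872))))))) (a (b (a (l 4) (b (l 4) (b (a (l 4) (c (c (l 16777248) (l 16777152)) (l 16776984))) (c (a (c (l 16777264) (l 16777168)) (l 16776736)) (a (l 132841996695) (l 16776704)))))) (a (b (b (a (l 4) (c (c (l 16777280) (l 16777200)) (l 150021865783))) (c (a (c (l 16777288) (l 16777240)) (l 16776776)) (a (l 137673834983) (l 16776752)))) (c (l 16770968) (l 16770904))) (c (l 16772952) (l 16772856)))) (b (a (b (b (a (l 4) (c (c (l 16777208) (l 16777144)) (l 16777048))) (a (c (c (l 16777224) (l 16777144)) (l 16777008))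 (l 16775360))) (c (l 16770864) (l 16776040))) (c (l 16772840) (l 16770120))) (c (l 16768480) (l 16770888))))) (a (c (b (b (a (l 373897033927) (b (l 366380839527) (c (a (l 129620771463) (l 16776816)) (a (l 278870882759) (l 16776800))))) (a (b (c (a (l 142505668071) (l 16776856)) (a (l 285313333751) (l 16776848))) (l 16770760)) (l 16770096))) (c (l 16767208) (l 16767072))) (b (b (a (l 367991445063) (b (l 361012126567) (a (b (l 247195501127) (l 16777104)) (l 16776784)))) (a (b (a (b (l 254174823031) (l 16777144)) (l 16776832)) (l 16775936)) (l 16764752))) (b (l 16768128) (l 16765600)))) (b (b (a (a (b (c (c (l 123178320471) (l 269744076647)) (l 277260269895)) (l 16774872)) (c (c (l 16776176) (l 16770904)) (l 70028082295))) (c (l 16769976) (l 16764624))) (c (l 16768184) (l 16767976))) (c (l 16764560) (c (l 16759008) (l 16758800)))))), by decide +kernel⟩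

def k21_pm_011_t : ∃ t, chk3 f_pm_011_t t 135 252 1 = true :=
  ⟨(c (b (a (b (a (l 4) (b (l 4) (a (b (l 4) (l 327726134855)) (b (l 321820554775) (c (l 16776776) (a (l 16777072) (l 16776496))))))) (b (b (a (a (l 4) (l 333631712407)) (a (a (b (l 307325041879) (l 16776896)) (l 16776560)) (l 16765096))) (a (a (l 339537292663) (a (b (l 318599331175) (l 16776944)) (l 16776616))) (l 16769752))) (a (a (b (a (b (l 211225149879) (l 16776992)) (l 16776664)) (l 16765288)) (l 16769848)) (l 16767880)))) (b (a (b (b (c (l 324504903543) (l 323968030871)) (a (l 315914976071) (c (l 16776680) (l 16776664)))) (a (c (l 111367153367) (b (l 16776712) (l 16775496))) (l 16769576))) (b (a (c (l 16770768) (l 102777218487)) (l 16764192)) (l 16767560))) (a (c (l 16761288) (l 16766400)) (l 16763760)))) (a (b (a (c (l 16766872) (l 16766736)) (l 16764160)) (a (l 16756696) (l 16764504))) (b (c (l 16755024) (l 16754720)) (l 16749920)))) (b (a (b (a (l 4) (b (l 4) (a (l 334168575463) (b (l 320746808023) (a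 (l 121030835943) (l 16776472)))))) (a (b (a (l 342221639431) (b (l 331484226007) (a (l 150021865207) (l 16776584)))) (a (b (a (l 115125254183) (l 16776632)) (l 16765208)) (l 16764496))) (b (a (b (a (l 137136963287) (l 16776528)) (l 16765080)) (l 16764360)) (l 16767664)))) (b (a (b (a (l 326652393223) (b (l 311083132135) (a (l 16776968) (l 16776352)))) (a (c (l 16773440) (l 110830281959)) (l 16764216))) (b (a (l 102240347159) (l 16764072)) (l 16762104))) (a (c (l 16761016) (l 16760872)) (c (l 16758216) (l 16758016))))) (a (b (a (b (l 16767824) (l 16759992)) (c (l 16758616) (l 16758408))) (a (l 16761392) (l 16753344))) (b (a (l 16760936) (l 16752840)) (l 16754296))))), by decide +kernel⟩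

def k22_pm_011_t : ∃ t, chk3 f_pm_011_t t 67 253 1 = true :=
  ⟨(b (a (a (b (a (b (c (l 16768616) (c (l 16763224) (l 16763120))) (c (l 16771552) (l 16765960))) (c (l 16764960) (b (l 16765784) (l 16768552)))) (a (b (l 16765744) (l 16756192)) (c (l 16765584) (l 16754392)))) (b (c (a (l 16757160) (l 16765040)) (a (l 16761848) (l 16753856))) (b (l 16751928) (l 16739048)))) (a (b (c (l 16750536) (l 16754896)) (l 16745192)) (b (l 16744456) (l 16749960)))) (a (a (b (b (l 16752552) (l 16750232)) (a (l 16758624) (l 16755920))) (b (l 16745968) (b (l 16742368) (l 16745840)))) (b (a (a (l 16752256) (l 16738872)) (b (l 16735824) (l 16744936))) (a (b (l 16748016) (l 16747048)) (l 16743768))))), by decide +kernel⟩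

def k23_pm_011_t : ∃ t, chk3 f_pm_011_t t 33 127 1 = true :=
  ⟨(b (a (a (b (a (b (a (b (a (c (l 16772760) (c (l 16772648) (l 16769952))) (c (l 16769120) (l 16772160))) (c (l 16770328) (a (l 16767912) (l 16766784)))) (c (b (l 16767536) (l 16760344)) (b (c (l 16767272) (l 16767088)) (l 16765064)))) (a (b (c (l 16765816) (l 16765288)) (l 16763600)) (b (l 16763320) (l 16756088)))) (b (a (b (b (l 16765624) (l 16764584)) (l 16763040)) (c (l 16756848) (l 16761336))) (a (c (l 16755208) (l 16754280)) (b (l 16763848) (l 16751296))))) (b (a (b (a (l 16756432) (l 16764616)) (a (a (l 16765576) (l 16753992)) (l 16757840))) (b (a (l 16757120) (l 16760440)) (l 16760488))) (a (a (l 16753032) (l 16761856)) (l 16759416)))) (b (b (a (a (l 16759288) (l 16751544)) (b (l 16748760) (a (l 16758352) (l 16755920)))) (a (b (a (l 16761368) (l 16748392)) (a (l 16759600) (l 16757696))) (b (l 16745416) (l 16755072)))) (a (l 16746296) (l 16753360)))) (a (b (b (a (b (a (l 16755232) (l 16752928)) (l 16753008))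 (l 16749752)) (l 16750152)) (l 16737608)) (b (l 16743656) (l 16740912)))) (a (b (a (a (a (l 14) (l 16738656)) (l 16746688)) (a (l 16753824) (l 16750384))) (a (b (l 16745904) (l 14)) (b (l 16749672) (l 16737848)))) (b (a (l 16724128) (l 16737896)) (b (l 16728568) (b (l 16716808) (l 16716928)))))), by decide +kernel⟩

def k24_pm_011_t : ∃ t, chk3 f_pm_011_t t 34 124 1 = true :=
  ⟨(a (l 4) (b (l 4) (a (l 4) (b (l 4) (a (l 4) (b (l 4) (a (b (l 4) (c (a (l 312693734311) (b (l 216056988727) (l 61438146199))) (a (l 310546248871) (b (l 143579374439) (l 16776816))))) (c (b (c (c (l 270280941191) (l 269744075319)) (l 269744069735)) (c (l 16770168) (l 16775376))) (b (a (l 301419445367) (a (l 138747539207) (l 16763768))) (l 16764848)))))))))), by decide +kernel⟩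

def k25_pm_011_t : ∃ t, chk3 f_pm_011_t t 68 250 1 = true :=
  ⟨(a (l 4) (b (l 4) (a (l 4) (b (l 4) (a (b (l 4) (c (c (l 332021083527) (l 323968018103)) (l 321820552807))) (b (a (l 4) (a (l 4) (c (l 308935649383) (l 308935642487)))) (a (b (a (l 4) (c (l 322894298231) (l 145726866407))) (c (c (l 16776784) (l 16776768)) (l 16776752))) (c (c (l 16765584) (l 16776048)) (l 16765528))))))))), by decide +kernel⟩

def k26_pm_011_t : ∃ t, chk3 f_pm_011_t t 136 251 1 = true :=
  ⟨(b (a (l 4) (b (l 4) (a (l 4) (b (l 4) (a (b (l 4) (c (c (l 259543528983) (l 263838496407)) (l 268670334311))) (b (c (c (l 146800639847) (l 150558736183)) (l 158074918343)) (c (l 16776056) (l 16776008)))))))) (a (b (a (l 4) (b (l 4) (b (c (c (l 300345717943) (l 300882582519)) (b (l 334705445143) (l 294977009271))) (a (c (a (l 226257535831) (l 259006658759)) (a (l 234847470375) (l 265985980311))) (c (l 16771080) (l 16776280)))))) (c (c (a (b (a (l 311620001479) (b (l 293366397239) (l 16776456))) (l 16769976))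 (l 75933663943)) (a (b (a (l 311620000119) (b (a (l 239142437703) (l 16776344)) (l 16776440))) (l 86134216967)) (a (l 74859924663) (l 16762552)))) (a (b (a (l 312156876887) (b (a (l 335779192519) (l 134452609655)) (l 16776408))) (a (l 68954339543) (l 16763928))) (b (l 74859925431) (l 16761776))))) (b (a (b (a (c (c (l 296050745783) (l 296587615751)) (a (l 325578640199) (l 289608295847))) (b (c (c (l 129083895415) (l 130694513447)) (a (l 203172086519) (l 16777056))) (c (l 16770952) (l 16776144)))) (c (c (l 16764456) (l 16764408)) (l 16769576))) (c (c (l 16768248) (l 16768824)) (a (l 16768776) (l 16762080)))) (c (a (c (l 16760592) (l 16760448)) (l 16757720)) (a (l 16765488) (l 16757328)))))), by decide +kernel⟩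

def k27_pm_011_t : ∃ t, chk3 f_pm_011_t t 137 251 1 = true :=
  ⟨(c (a (b (b (a (b (l 4) (a (l 4) (l 345442859879))) (b (a (l 4) (l 328799878199)) (a (b (l 339000415223) (c (l 110830288599) (l 16777016))) (b (c (l 97408515767) (l 16776960)) (l 16765272))))) (a (b (a (c (l 281018364407) (l 282628973895)) (b (c (l 123715190519) (l 16777032)) (l 16775912))) (l 16771344)) (b (l 16769216) (l 16761312)))) (b (a (l 16765408) (l 16757328)) (l 16758720))) (b (b (a (b (a (b (l 320209934375) (c (l 16776904) (l 16776896))) (b (c (l 16776840) (l 16776832)) (l 16765112))) (l 16769056)) (c (l 16762344) (l 16762256))) (a (l 16765040) (l 16756936))) (b (l 16753040) (l 16758224)))) (b (a (b (a (b (l 4) (l 341147882247)) (b (l 335242303351) (a (b (l 335779187751) (l 133378855975)) (b (l 60364421975) (l 16754728))))) (a (b (a (b (l 4) (l 146263758231)) (b (l 136063210807) (l 16775856))) (l 16764024)) (l 16767720))) (b (a (b (a (b (l 319136190871) (l 61975034343)) (l 64659366727)) (l 16763696))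 (l 16762128)) (a (l 16759520) (l 16756552)))) (a (b (a (l 16765128) (l 16756936)) (c (l 16753056) (l 16752768))) (b (c (l 16752624) (l 16741864)) (l 16746960))))), by decide +kernel⟩

def k28_pm_011_t : ∃ t, chk3 f_pm_011_t t 138 250 1 = true :=
  ⟨(b (a (l 4) (b (l 4) (a (b (l 4) (a (l 4) (b (l 4) (c (l 278870882087) (l 285313332855))))) (b (b (l 4) (c (c (l 283165842679) (l 285850196695)) (l 287460808631))) (a (b (c (c (l 133378868023) (l 16775520)) (l 214446355351)) (a (l 65196253479) (l 16765336))) (c (l 16770192) (l 16775376))))))) (a (b (a (a (l 4) (a (l 4) (b (l 4) (c (l 299808845207) (l 301419451335))))) (b (a (l 4) (c (c (l 297124483879) (l 298735095847)) (l 299271965607))) (a (b (c (l 304103815479) (l 175791670279)) (c (l 16776504) (l 16776472))) (c (l 68417473127) (l 16765216))))) (b (a (b (a (a (l 4) (c (l 177402282599) (l 143579386167))) (c (c (l 16776576) (l 16776568)) (l 16776544))) (c (c (l 16765472) (l 16775936)) (l 16765408))) (c (l 16763304) (l 16752696)))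 (c (c (l 16762088) (l 16762000)) (l 16761864)))) (b (a (b (c (a (b (c (l 152706220919) (l 155927446407)) (l 16776352)) (l 16770360)) (a (b (l 293903267719) (l 16776320)) (l 16765056))) (c (l 16763136) (l 16752520))) (c (l 16766840) (l 16761424))) (c (c (l 16757704) (l 16757544)) (l 16762544))))), by decide +kernel⟩

def k29_pm_011_t : ∃ t, chk3 f_pm_011_t t 139 250 1 = true :=
  ⟨(b (a (a (a (b (l 4) (b (b (c (c (l 132841969095) (l 16765864)) (l 140358161639)) (l 16773384)) (l 16771312))) (b (b (l 4) (b (l 4) (c (c (l 136600092327) (l 16776768)) (l 16763632)))) (c (l 16768656) (l 16763304)))) (c (b (b (c (c (l 281018356119) (l 282628968535)) (l 284776451687)) (c (c (l 16765256) (l 65733106711)) (l 16765224))) (l 16766480)) (b (b (c (l 285313321943) (l 287460815415)) (c (l 16765192) (l 62511880759))) (l 16750576)))) (b (b (c (a (c (l 66269981079) (l 16765056)) (l 16762240)) (a (l 61975013479) (l 16772584))) (c (l 16766216) (l 16760792))) (c (c (l 16756976) (l 16756816)) (l 16756584))))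 (a (c (b (c (l 16757336) (l 16757176)) (l 16751832)) (b (l 16756936) (l 16751320))) (c (b (l 16751472) (l 16756544)) (b (l 16750976) (l 16755856))))), by decide +kernel⟩

def k30_pm_011_t : ∃ t, chk3 f_pm_011_t t 69 251 1 = true :=
  ⟨(a (b (a (b (c (a (l 16764680) (l 16756552)) (b (l 16759064) (l 16745784))) (c (l 16752616) (l 16756016))) (c (b (l 16752216) (l 16757312)) (b (l 16751688) (l 16746096)))) (a (b (c (l 16757752) (l 16746512)) (l 16744072)) (b (l 16743608) (l 16746016)))) (b (a (b (c (l 16756912) (l 16756200)) (l 16743192)) (b (l 16742832) (l 16745192))) (a (b (l 16745568) (l 16740088)) (l 16726448)))), by decide +kernel⟩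

def k31_pm_011_t : ∃ t, chk3 f_pm_011_t t 70 124 1 = true :=
  ⟨(b (a (l 4) (b (l 4) (a (b (l 4) (a (l 4) (c (c (l 303566911751) (l 301956297687)) (l 311619972087)))) (b (a (l 4) (a (l 4) (c (c (l 292292633495) (l 291755761735)) (l 291218889543)))) (b (a (b (l 4) (c (l 290682030087) (l 290682029031))) (c (c (l 60901263895) (l 59290650967)) (l 58753779191))) (c (a (c (l 60364389367) (c (l 59827518439) (l 16760792))) (l 16763472)) (a (c (l 16760784) (l 58753775911)) (l 16773872)))))))) (a (b (a (l 4) (b (l 4) (a (a (c (c (l 293903257911) (l 293366375543)) (a (l 304640659479) (l 291218894135))) (b (l 4) (c (c (l 140895054647) (l 16776672)) (l 16763552)))) (b (b (a (l 4) (c (l 131768253175) (l 16776696))) (c (c (l 16776560) (l 16776544)) (l 16766040))) (c (l 16764200) (l 16753648)))))) (c (a (b (a (b (l 4) (c (c (l 264375362887) (l 264375365351)) (l 264912233399))) (b (a (a (l 312156865367) (l 306251298919)) (b (c (l 16763088) (l 16774784)) (l 16776344))) (l 16771120))) (a (c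 (l 16768664) (l 16763368)) (l 16765776))) (b (c (l 16766896) (l 16766824)) (l 16760192))) (a (b (a (b (l 4) (a (l 294976996455) (l 136063200935))) (b (a (l 289071418503) (l 58216909223)) (l 16764496))) (a (l 16768536) (l 16749864))) (b (l 53385078343) (l 16745472))))) (c (b (a (b (a (a (c (l 284239585367) (l 284239574135)) (b (l 305177541095) (b (l 130157622567) (l 16775784)))) (b (a (c (l 133378831015) (l 134452572663)) (l 62511890007)) (l 16763832))) (c (l 16761312) (l 16761240))) (b (c (l 16750504) (l 16760912)) (l 16755728))) (a (b (l 16755976) (l 16761160)) (c (l 16737504) (l 16747744)))) (b (a (b (a (b (l 314304337831) (a (l 139284406519) (l 16776328))) (a (b (l 138747539223) (l 16774968)) (l 16764344))) (l 16761128)) (b (l 16760800) (l 16744952))) (a (b (l 16745200) (l 16760712)) (c (l 16737008) (l 16736752))))))), by decide +kernel⟩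

def k32_pm_011_t : ∃ t, chk3 f_pm_011_t t 71 124 1 = true :=
  ⟨(b (a (b (a (b (l 4) (a (l 4) (a (l 4) (c (c (l 282628961383) (l 282628960743)) (l 283702701591))))) (c (b (a (l 4) (c (l 278333992007) (a (l 296587595623) (l 273502159783)))) (b (a (a (l 311619991415) (c (l 16758864) (l 135526316263))) (l 62511889671)) (c (l 16764072) (l 16764040)))) (b (a (l 4) (a (l 295513852455) (l 275649642727))) (a (b (l 275112775255) (l 16775832)) (l 16763920))))) (b (a (a (b (c (c (l 283702706551) (l 283165835079)) (l 284239576071)) (c (c (l 16776208) (l 16763088)) (l 58753782791))) (c (c (l 16764320) (l 61438139479)) (l 59827526487))) (c (l 16765608) (l 16749728))) (a (c (l 16765232) (l 16750008)) (c (l 16755344) (l 16765568))))) (b (a (b (a (b (c (c (l 134452563239) (b (l 139821273255) (l 16760672))) (a (l 141968756007) (l 16755680))) (c (l 16770272) (l 16775480))) (c (l 16768904) (l 16753112))) (c (l 16760112) (l 16749488))) (c (c (l 16747088) (l 16757480)) (c (l 16746904) (l 16746808))))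 (c (a (l 16755384) (l 16737480)) (a (c (l 16742048) (l 16741896)) (l 16747576))))) (a (b (c (a (c (l 16742536) (l 16752856)) (l 16747768)) (a (c (l 16742200) (l 16742024)) (l 16747312))) (c (a (l 16732120) (l 16748056)) (a (l 16741984) (l 16747344)))) (b (c (a (l 16753344) (l 16748728)) (a (l 16731824) (l 16748112))) (a (c (l 16743296) (l 16742496)) (l 16727928))))), by decide +kernel⟩

def k33_pm_011_t : ∃ t, chk3 f_pm_011_t t 35 125 1 = true :=
  ⟨(b (a (a (b (a (c (b (c (l 16746160) (l 16746008)) (l 16751160)) (b (l 16756256) (l 16740192))) (c (b (l 16750904) (l 16756008)) (c (l 16747808) (l 16737040)))) (a (c (l 16743048) (a (l 16743752) (l 16730360))) (b (l 16744976) (l 16744736)))) (b (a (c (l 16742688) (b (l 16755240) (l 16749736))) (c (l 16747816) (l 16736520))) (a (c (l 16742456) (l 16720464)) (l 16726112)))) (a (b (c (l 16719192) (a (l 16741744) (l 16736736))) (a (l 16731464) (l 16726584))) (b (a (l 16732560) (l 16728200)) (l 16719824)))) (a (a (b (a (b (l 16744904)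 (l 16739392)) (b (l 16739232) (l 16733728))) (b (l 16710056) (l 16725512))) (b (a (l 16730976) (l 16725664)) (b (a (l 16722704) (l 16717312)) (a (l 16717544) (l 16714000))))) (b (a (a (l 16720568) (b (l 16718472) (l 16713136))) (b (a (l 16713856) (l 16710296)) (l 16709296))) (a (b (a (l 16713264) (l 16710456)) (l 16710136)) (l 16706976))))), by decide +kernel⟩

def k34_pm_011_t : ∃ t, chk3 f_pm_011_t t 17 63 1 = true :=
  ⟨(b (a (a (b (a (b (a (b (a (c (c (l 16760944) (l 16760808)) (c (l 16760664) (l 16760528))) (c (l 16758120) (l 16762960))) (c (l 16758328) (b (l 16760384) (l 16752472)))) (b (c (l 16759168) (b (l 16754704) (l 16752000))) (c (l 16759256) (l 16747952)))) (a (b (c (l 16738848) (l 16748488)) (l 16743768)) (b (l 16743120) (l 16748408)))) (b (a (b (c (l 16758728) (l 16747440)) (l 16742520)) (b (l 16744584) (l 16747088))) (a (c (l 16724816) (l 16733888)) (b (l 16741752) (a (l 16737952) (l 16734920)))))) (b (a (b (a (l 16749152) (l 16743208)) (a (b (l 16745360) (l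 16732584)) (b (l 16739864) (l 16738768)))) (b (a (b (l 16738464) (l 16736720)) (l 16733344)) (l 16733616))) (a (a (l 16741016) (l 16737168)) (l 16731792)))) (b (b (a (a (b (l 16746520) (l 16741120)) (l 16727360)) (b (l 16710672) (a (l 16729064) (l 16716024)))) (a (b (a (l 16735744) (b (l 16731064) (l 16728792))) (a (b (l 16731904) (l 16730600)) (l 16727368))) (a (b (l 16725488) (l 16723848)) (l 16721136)))) (a (l 16705016) (l 16719200)))) (a (b (b (a (b (a (l 16722864) (l 16718512)) (l 16718480)) (l 16713296)) (l 16713520)) (a (l 16712824) (l 16707128))) (b (a (l 16707184) (l 16703400)) (l 16700232)))) (a (b (a (a (b (l 16736424) (l 16733648)) (l 16706872)) (a (l 16720760) (l 16713912))) (a (b (l 16716488) (b (l 16724472) (l 16702672))) (b (l 16712720) (b (l 16710192) (l 16709744))))) (b (a (l 16694032) (l 16694760)) (a (b (l 16699896) (l 16676584)) (b (l 16690072) (l 16687976)))))), by decide +kernel⟩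

def k35_pm_011_t : ∃ t, chk3 f_pm_011_t t 18 60 1 = true :=
  ⟨(a (l 4) (b (l 4) (a (l 4) (b (l 4) (a (b (l 4) (a (l 4) (c (b (a (l 4) (l 285313308087)) (c (l 67343694839) (a (l 16752632) (l 16776512)))) (b (l 306251261095) (l 68954306247))))) (b (a (a (l 4) (c (c (l 290682002039) (l 290145130439)) (l 289608258487))) (b (a (l 4) (c (l 132841937879) (l 16747576))) (c (c (l 16755416) (l 16758048)) (l 16755432)))) (a (c (b (c (l 68954312807) (l 69491183703)) (l 16774232)) (b (l 71101795767) (l 16774264))) (c (b (l 16773520) (l 16749536)) (l 16751104))))))))), by decide +kernel⟩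

def k36_pm_011_t : ∃ t, chk3 f_pm_011_t t 72 61 1 = true :=
  ⟨(b (l 4) (b (a (l 4) (b (l 4) (a (b (l 4) (a (c (c (l 274575894055) (l 275112764391)) (l 276723376263)) (c (c (l 130157618439) (c (l 132305102071) (l 59290636727))) (a (l 139284402663) (l 16755464))))) (b (a (c (c (l 266522835207) (l 267596576599)) (l 269744059591)) (c (c (l 59827514935) (c (l 59827514775) (l 16755600))) (l 58753772343))) (c (a (l 16769712) (l 16751952)) (l 16752904)))))) (c (a (b (b (a (l 4) (b (c (l 279407728599) (l 279407727911)) (a (l 279407738215) (a (l 59290659751) (l 16775912))))) (b (a (a (l 4) (l 284776444951)) (c (l 16764952) (l 60364396471))) (a (a (l 299808828103) (c (l 16776720) (l 16760984))) (l 16762872)))) (a (b (a (b (c (l 16761152) (l 132841964151)) (l 16753856)) (l 16763064)) (l 16759728)) (c (l 16746960) (l 16757368)))) (b (a (a (c (l 16762680) (l 61975012663)) (l 16760552)) (l 16761472)) (a (l 16753208) (l 16759920)))) (a (b (a (b (l 4) (a (l 300882556679) (b (l 284776443911)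 (l 16766216)))) (a (b (l 283165821927) (l 16764992)) (b (b (l 140895008823) (l 16776376)) (l 16752256)))) (a (b (a (b (l 16761136) (l 16753816)) (l 16752512)) (l 16749112)) (c (l 16746800) (l 16746720)))) (b (a (a (l 59827527623) (l 16749976)) (l 16757408)) (a (l 16752992) (l 16738688))))))), by decide +kernel⟩

def k37_pm_011_t : ∃ t, chk3 f_pm_011_t t 73 61 1 = true :=
  ⟨(b (b (l 4) (a (b (l 4) (a (l 4) (b (l 4) (c (c (l 286387039575) (l 286923909687)) (l 286923908487))))) (b (a (l 4) (b (l 4) (c (c (l 262227858999) (l 263838471207)) (l 264912212231)))) (b (a (c (c (l 268670304759) (l 269744045927)) (l 270280915847)) (c (c (l 61438125959) (a (l 133915699911) (l 16775680))) (a (l 16756144) (l 16775680)))) (a (a (c (c (l 131231338647) (l 134452563879)) (l 139284401303)) (c (l 62511888839) (l 16775840))) (c (l 16763128) (l 16752624))))))) (c (b (a (a (c (b (b (l 293903226967) (a (l 258469776295) (l 16755336))) (l 16761448)) (b (b (l 293903226007) (a (l 260617259639) (l 16760568)))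 (l 16766656))) (b (b (a (c (l 132841944327) (a (l 137136912039) (l 16758600))) (b (l 60901270759) (l 16775280))) (l 16763152)) (l 16757968))) (a (b (a (l 16762304) (l 16760776)) (l 16744528)) (b (l 16758752) (l 16763104)))) (a (b (a (l 16743432) (l 16761272)) (l 16734160)) (b (l 16736600) (l 16750560)))) (b (a (b (a (b (l 293366353655) (a (l 263838484663) (l 16760560))) (a (b (l 139284394151) (l 16753528)) (l 59827525159))) (a (a (l 16751840) (l 16749968)) (l 16757880))) (a (b (a (l 16751784) (l 16750248)) (l 16744432)) (b (l 16748224) (l 16763008)))) (a (b (a (l 16743264) (l 16761088)) (a (l 16756320) (l 16753496))) (b (l 16749536) (l 16729328)))))), by decide +kernel⟩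

def k38_pm_011_t : ∃ t, chk3 f_pm_011_t t 37 122 1 = true :=
  ⟨(a (b (a (b (l 4) (a (l 4) (b (l 4) (a (c (l 284776435895) (l 284239563943)) (c (c (l 131231337959) (l 131768208743)) (l 134452562775)))))) (b (a (l 4) (b (l 4) (a (c (l 267596580951) (l 134989418967)) (c (c (l 16756056) (l 16756056)) (l 16756048))))) (c (c (a (b (l 252564201639) (l 16775800)) (l 16763880)) (a (b (a (l 270280925479) (l 16754896)) (l 16775808)) (l 66269985079))) (a (b (a (l 269744053927) (l 16754856)) (l 16754848)) (l 16767840))))) (a (b (a (a (b (l 4) (c (c (l 16755912) (l 16755912)) (l 16755912))) (b (b (l 4) (c (l 130694484663) (l 16775960))) (c (l 16775552) (l 16775552)))) (b (c (c (l 16762880) (l 64659363127)) (l 64122491559)) (c (l 16773568) (l 16773576)))) (a (c (b (l 16763248) (l 16750160)) (l 16772440)) (c (l 16764624) (l 16759384)))) (b (a (c (b (l 16773304) (l 16749640)) (l 16766752)) (b (c (l 16749400) (l 16749432)) (l 16762240))) (a (c (l 16756400) (l 16745928)) (c (l 16742368) (l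 16742392)))))) (b (a (b (a (c (b (c (l 131768198647) (b (l 133378812119) (l 16755896))) (l 16764728)) (b (b (l 135526294935) (l 16755888)) (l 16775240))) (c (c (l 16773528) (l 16752568)) (l 16752600))) (c (a (l 16766184) (l 16767944)) (b (l 16760728) (l 16747384)))) (b (a (c (l 16759552) (l 16770088)) (c (l 16744728) (l 16744792))) (a (c (l 16742792) (l 16742856)) (b (l 16739584) (l 16756896))))) (a (b (a (c (l 16744512) (l 16744552)) (c (l 16740488) (l 16740536))) (a (l 16749016) (l 16734080))) (b (a (b (l 16758536) (l 16754904)) (l 16740608)) (c (l 16725936) (l 16725968)))))), by decide +kernel⟩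

def k39_pm_011_t : ∃ t, chk3 f_pm_011_t t 37 123 1 = true :=
  ⟨(a (b (a (b (a (c (l 16746088) (l 16746064)) (c (l 16764928) (l 16743952))) (a (l 16756032) (l 16738576))) (b (a (a (l 16741792) (l 16761112)) (l 16747936)) (a (l 16757008) (l 16753528)))) (a (b (a (l 16755120) (l 16753760)) (a (l 16748568) (l 16747544))) (a (l 16739536) (l 16724848)))) (b (a (b (a (l 16754184) (l 16749432)) (a (l 16749352) (l 16744336))) (a (l 16730712) (l 16713632))) (a (b (l 16721136) (l 16737032)) (a (l 16731376) (l 16724472))))), by decide +kernel⟩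

def k40_pm_011_t : ∃ t, chk3 f_pm_011_t t 38 60 1 = true :=
  ⟨(b (a (l 4) (b (a (l 4) (b (l 4) (a (l 4) (b (l 4) (c (l 126399469911) (l 16746112)))))) (a (b (a (l 4) (b (l 4) (c (l 169349127351) (l 16728472)))) (c (a (b (l 345979707847) (l 87207915783)) (b (l 16754856) (l 16750144))) (a (b (l 177402181959) (l 16755640)) (l 16752416)))) (b (a (c (b (l 128546945943) (l 16753968)) (l 102777138039)) (c (l 16750096) (l 16750088))) (c (l 16742656) (l 16742648)))))) (a (b (a (b (l 4) (b (a (l 4) (c (a (l 162369822471) (l 131768207527)) (l 133915660583))) (a (a (l 4) (c (l 132305072647) (l 16750504))) (c (l 77007394087) (l 16775008))))) (b (a (b (l 4) (c (a (l 132305058711) (l 16755960)) (l 16740048))) (c (a (b (l 131231324583) (l 16774648)) (l 16753144)) (l 91502873175))) (a (c (b (l 16753256) (l 16749296)) (l 16751256)) (c (l 16746120) (l 16746144))))) (a (b (a (c (a (b (l 16755752) (l 16752672)) (l 16752208)) (b (l 16754848) (l 16772632))) (c (c (l 16748560) (l 16748576)) (l 16748592)))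 (a (c (l 16757072) (l 16767608)) (c (l 16740912) (l 16740952)))) (b (c (a (l 16743096) (l 16737144)) (a (l 16743120) (l 16737168))) (a (b (l 16736512) (l 16753080)) (c (l 16748568) (l 16748576)))))) (b (b (a (c (a (l 16749056) (l 16742872)) (l 16746064)) (c (l 16732280) (l 16732280))) (a (c (b (l 16739320) (l 16734776)) (l 16737056)) (c (l 16722456) (l 16722456)))) (a (b (c (l 16727480) (l 16727504)) (a (l 16731072) (l 16734192))) (b (a (l 16737184) (l 16728792)) (l 16703432)))))), by decide +kernel⟩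

def k41_pm_011_t : ∃ t, chk3 f_pm_011_t t 39 60 1 = true :=
  ⟨(b (a (b (a (b (a (l 4) (c (b (l 4) (l 16742904)) (l 123178212423))) (a (c (a (l 97945318055) (l 16752776)) (l 110293346871)) (c (l 16747248) (l 16768200)))) (b (a (c (l 106535265975) (l 16751848)) (l 16743752)) (c (l 16734304) (l 16734240)))) (a (c (b (l 16738752) (l 16726912)) (b (l 16738720) (l 16726864))) (c (b (l 16721024) (l 16729360)) (a (l 16719344) (l 16730544))))) (b (a (c (a (l 16727088) (l 16717008)) (a (l 16726992) (l 16716872))) (b (l 16708560) (l 16693216))) (a (c (l 16694000) (l 16693808)) (c (l 16671432) (l 16671128))))) (a (b (a (b (a (l 16741088) (l 16732112)) (a (l 16730656) (l 16721272))) (b (l 16696360) (l 16684912))) (a (b (l 16693912) (l 16702792)) (b (l 16693912) (l 16681024)))) (b (a (b (l 16695464) (l 16683208)) (b (l 16671632) (l 16658560))) (a (b (l 16670424) (l 16656736)) (l 16616848))))), by decide +kernel⟩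

def k42_pm_011_t : ∃ t, chk3 f_pm_011_t t 19 61 1 = true :=
  ⟨(a (b (a (b (a (b (a (c (l 16739400) (l 16739456)) (b (l 16734920) (l 16751760))) (a (c (l 16752656) (l 16752704)) (l 16734872))) (b (c (l 16721496) (l 16721480)) (c (l 16711856) (l 16711800)))) (a (b (a (l 16723440) (l 16736456)) (a (l 16736576) (l 16728104))) (b (a (l 16727504) (l 16718280)) (l 16713736)))) (b (a (b (c (l 16705920) (l 16705864)) (a (l 16719888) (l 16711160))) (b (l 16709808) (l 16697272))) (a (b (l 16683232) (l 16693864)) (b (l 16684680) (l 16673152))))) (a (b (a (b (l 16704368) (l 16719424)) (l 16702624)) (a (l 16690768) (l 16691360))) (b (a (l 16681432) (l 16659128)) (a (l 16669320) (l 16646112))))) (b (a (b (a (b (l 16690024) (l 16676776)) (b (l 16667456) (l 16653408))) (a (b (l 16663264) (l 16650600)) (l 16632344))) (b (a (l 16634992) (l 16607544)) (a (l 16605256) (l 16576208)))) (a (b (a (l 16635680) (l 16588184)) (a (l 16621720) (l 16596056))) (b (a (l 16581768) (l 16554192)) (l 16556264))))),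 by decide +kernel⟩

def k43_pm_011_t : ∃ t, chk3 f_pm_011_t t 18 31 1 = true :=
  ⟨(b (a (b (a (b (a (b (c (a (l 16752840) (l 16758992)) (a (l 16755192) (l 16748176))) (c (l 16741400) (c (l 16741032) (l 16740784)))) (b (c (l 16732280) (a (l 16754680) (l 16751144))) (a (l 16735424) (l 16742632)))) (a (b (a (l 16733632) (l 16740192)) (a (l 16734272) (l 16730528))) (b (l 16724616) (l 16725712)))) (b (a (b (c (l 16747184) (l 16725792)) (l 16728160)) (b (l 16722040) (l 16735208))) (a (b (l 16729984) (l 16720976)) (b (l 16727024) (b (l 16720624) (l 16716456)))))) (a (b (b (a (l 16722344) (a (l 16717416) (l 16714560))) (a (b (l 16714648) (a (l 16711184) (l 16708888))) (b (l 16709720) (l 16707536)))) (a (l 16695600) (l 16704320))) (b (b (a (b (l 16714008) (l 16710920)) (l 16713192)) (l 16708992)) (l 16705168)))) (b (a (b (a (b (l 16741232) (l 16733992)) (l 16722600)) (a (b (l 16726312) (l 16698848)) (b (l 16724856) (l 16720536)))) (b (a (b (l 16731576) (l 16725408)) (b (l 16720624)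 (l 16715648))) (a (l 16719072) (l 16710216)))) (a (a (l 16691160) (l 16713520)) (a (l 16710184) (l 16701584))))) (a (b (a (b (l 16699928) (l 16694880)) (b (l 16700176) (l 16695016))) (b (a (l 16689304) (l 16689344)) (a (b (l 16684552) (l 16682752)) (b (l 16684520) (l 16683080))))) (a (b (a (l 16680928) (l 16703176)) (b (l 16672912) (b (l 16689000) (l 16667008)))) (b (a (l 16699736) (l 16670056)) (b (l 16687472) (b (l 16682528) (l 16682008))))))), by decide +kernel⟩

def k44_pm_011_t : ∃ t, chk3 f_pm_011_t t 19 31 1 = true :=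
  ⟨(a (b (b (a (b (a (l 16681680) (l 16682560)) (l 16644216)) (l 16624488)) (a (a (l 16686744) (l 16666784)) (l 16633168))) (a (b (l 16624784) (b (l 16637000) (b (l 16632008) (l 16632056)))) (b (l 16622280) (b (l 16613400) (l 16609064))))) (b (b (a (l 16596624) (l 16544072)) (a (l 16584192) (l 16531504))) (b (a (l 16573128) (l 16520272)) (a (b (l 16564128) (l 16560064)) (l 16489344))))), by decide +kernel⟩

def k45_pm_011_t : ∃ t, chk3 f_pm_011_t t 10 28 1 = true :=
  ⟨(a (l 4) (b (l 4) (a (b (l 4) (a (l 4) (b (l 4) (a (b (l 4) (l 159148553175)) (b (l 152169247383) (l 16740344)))))) (b (a (b (l 4) (a (l 4) (l 164517210007))) (b (a (l 4) (b (l 4) (l 16748696))) (a (b (l 16720312) (l 16744088)) (l 16705112)))) (a (b (a (b (l 4) (l 145189940679)) (b (l 16727968) (l 16728136))) (a (l 16701000) (l 16690016))) (b (l 16650296) (l 16620512))))))), by decide +kernel⟩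

def k46_pm_011_t : ∃ t, chk3 f_pm_011_t t 20 29 1 = true :=
  ⟨(b (a (l 4) (b (a (l 4) (b (l 4) (a (l 4) (b (l 4) (a (l 16733688) (l 16753488)))))) (a (b (a (l 4) (b (l 4) (a (l 4) (l 16727432)))) (a (b (a (l 4) (l 16708920)) (a (l 112977678183) (l 16749584))) (b (a (l 112977694487) (l 16745368)) (l 16730432)))) (b (a (b (a (l 4) (l 16724888)) (a (l 16751968) (l 16740376))) (b (l 89892232391) (l 16718304))) (a (l 16692024) (l 16683232)))))) (a (b (a (b (l 4) (a (b (l 4) (c (l 313767405527) (l 314304271287))) (b (a (l 4) (c (l 16720760) (l 16720440))) (a (c (l 16732720) (l 16753680)) (l 16744312))))) (b (a (b (l 4) (a (l 4) (c (l 16749440) (l 16749304)))) (b (a (l 164517269175) (l 102777155943)) (b (l 16745824) (l 16735984)))) (a (b (a (l 99555940743) (l 16739784)) (l 16726032)) (b (l 16720376) (l 16720960))))) (a (a (b (b (a (c (l 112977682983) (l 16728016)) (c (l 16748168) (l 16748128))) (c (l 16736272) (l 16736176))) (c (l 16689368) (l 16689160))) (b (c (l 16701088) (l 16700920))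 (c (l 16686240) (l 16685904)))) (b (a (c (l 16697112) (l 16696800)) (l 16649328)) (a (b (l 16690088) (l 16672208)) (l 16653512))))) (b (a (b (a (b (l 16735872) (l 16714400)) (l 16676128)) (a (l 16661784) (l 16654064))) (b (a (l 16667864) (l 16658560)) (a (l 16645168) (l 16614264)))) (a (b (a (l 16663136) (l 16633680)) (a (l 16624464) (l 16594112))) (b (a (l 16603048) (l 16571392)) (a (l 16562592) (l 16530080))))))), by decide +kernel⟩

def k47_pm_011_t : ∃ t, chk3 f_pm_011_t t 21 29 1 = true :=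
  ⟨(b (a (b (a (b (a (l 4) (b (l 165590988039) (a (l 16749488) (l 16745624)))) (a (b (a (l 16741648) (l 16750264)) (l 16735656)) (l 16696424))) (b (a (b (l 90965984519) (l 16723200)) (l 16703928)) (a (l 16686008) (l 16675088)))) (a (b (a (l 16678872) (l 16689768)) (a (l 16673528) (l 16642104))) (b (a (l 16658096) (l 16625952)) (l 16530952)))) (b (a (b (c (l 16635088) (l 16634360)) (l 16563728)) (b (l 16590952) (l 16561648))) (a (b (l 16556176) (l 16528240)) (b (l 16511712) (l 16462160))))) (a (b (a (b (a (l 16627392) (l 16595472)) (a (l 16582472) (l 16549960))) (b (l 16525552) (l 16500128))) (a (b (l 16522344) (l 16479752)) (b (l 16454768) (l 16410536)))) (b (a (b (l 16479992) (l 16432480)) (b (l 16413064) (l 16364480))) (a (b (l 16385776) (l 16339968)) (b (l 16316488) (l 16269176)))))), by decide +kernel⟩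

def k48_pm_011_t : ∃ t, chk3 f_pm_011_t t 11 28 1 = true :=
  ⟨(a (b (a (b (a (l 4) (l 4)) (a (b (l 4) (a (l 16700976) (b (l 16761040) (l 16746792)))) (b (a (l 148948000407) (l 16721888)) (a (l 16708512) (l 16719984))))) (b (a (b (a (l 4) (l 16738984)) (a (l 16729600) (l 16732128))) (b (a (l 16744304) (l 16719904)) (l 16688528))) (a (b (l 16680216) (l 16652712)) (l 16554928)))) (a (b (a (b (a (b (l 16751384) (l 16732296)) (l 16712792)) (l 16657448)) (a (l 16613832) (l 16603576))) (a (a (l 16576504) (l 16565624)) (b (l 16585920) (l 16535520)))) (b (a (b (l 16624728) (l 16575320)) (l 16500440)) (a (b (l 16525512) (l 16475336)) (l 16443624))))) (b (a (b (a (l 16612824) (l 16603064)) (a (l 16563056) (l 16534488))) (b (a (l 16578424) (l 16539728)) (a (l 16491064) (l 16454616)))) (a (b (a (l 16489136) (l 16441176)) (a (l 16391296) (l 16344336))) (b (a (l 16399408) (l 16364664)) (a (l 16303632) (l 16270040)))))), by decide +kernel⟩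

def k49_pm_011_t : ∃ t, chk3 f_pm_011_t t 11 29 1 = true :=
  ⟨(b (a (a (b (a (b (l 16547672) (l 16497192)) (b (l 16484976) (l 16434328))) (a (b (l 16446856) (l 16396704)) (b (l 16383632) (l 16332944)))) (b (a (l 16336512) (l 16342840)) (a (l 16302688) (l 16240352)))) (a (b (a (l 16290792) (l 16244200)) (a (l 16187904) (l 16141032))) (b (a (l 16203968) (l 16170944)) (a (l 16100632) (b (l 16093864) (l 16019424)))))) (a (b (a (a (b (l 16346808) (l 16297224)) (b (l 16282304) (l 16231784))) (a (l 16194824) (l 16136496))) (a (a (b (l 16248024) (l 16199272)) (b (l 16181432) (b (l 16143824) (a (l 16135208) (l 16085576))))) (b (a (l 16117384) (b (l 16070168) (b (l 16035896) (l 16053736)))) (a (b (b (l 16065848) (l 16060728)) (l 16080032)) (l 16052984))))) (b (a (b (l 16084960) (a (b (l 16069776) (l 16033816)) (b (a (l 16032880) (l 16019208)) (l 16020128)))) (b (a (a (l 16009800) (l 15999336)) (b (a (l 16016240) (l 16015504)) (l 16013864))) (l 16014488))) (a (a (b (b (a (l 16080832)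 (l 16027320)) (l 16032256)) (l 16034528)) (l 16021240)) (l 16016304))))), by decide +kernel⟩

def k50_pm_011_t : ∃ t, chk3 f_pm_011_t t 5 30 1 = true :=
  ⟨(a (a (b (a (b (a (b (a (c (l 16677696) (l 16677368)) (b (l 16681544) (l 16665096))) (a (b (l 16675224) (l 16660312)) (l 16641264))) (b (a (l 16646240) (l 16617616)) (a (l 16613048) (l 16583248)))) (a (b (a (b (l 16646008) (l 16632144)) (l 16611288)) (a (l 16610176) (l 16580840))) (b (a (l 16581792) (l 16550680)) (a (l 16549848) (l 16517344))))) (b (a (b (a (l 16587528) (l 16556152)) (a (l 16552000) (l 16519480))) (b (l 16507000) (l 16468640))) (a (b (a (l 16518144) (l 16484344)) (l 16465976)) (b (l 16431640) (b (l 16402176) (a (l 16402152) (l 16370552))))))) (a (b (a (b (a (l 16578296) (l 16547360)) (b (a (l 16553344) (l 16521120)) (a (l 16538048) (l 16508976)))) (b (a (l 16514840) (l 16480768)) (b (l 16475952) (l 16467112)))) (a (l 16507864) (l 16452808))) (b (b (a (b (a (l 16455032) (l 16421312)) (l 16427680)) (l 16376560))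 (l 16389472)) (l 16371880)))) (b (b (a (a (b (l 16438352) (l 16397816)) (b (l 16367256) (l 16324616))) (b (a (l 16294888) (l 16221728)) (a (b (l 16261344) (a (l 16257496) (l 16204952))) (b (a (l 16186016) (l 16180128)) (l 16190072))))) (a (b (a (a (l 16376944) (l 16339144)) (b (a (l 16312032) (l 16254896)) (l 16285128))) (a (b (l 16354056) (l 16329072)) (l 16280440))) (b (a (l 16237008) (l 16190632)) (l 16210848)))) (b (a (l 16333880) (l 16197712)) (a (l 16268456) (l 16174552))))) (b (a (b (a (b (a (b (l 16162336) (l 16130576)) (l 16093440)) (l 16130512)) (l 16068856)) (a (l 16131856) (l 16049320))) (b (a (l 16030952) (l 16019328)) (a (l 16031208) (l 16018416)))) (a (b (a (l 16117568) (l 16055848)) (a (l 16094736) (l 16033344))) (b (a (l 16016616) (l 16003664)) (l 15963816))))), by decide +kernel⟩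

def k51_pm_011_t : ∃ t, chk3 f_pm_011_t t 5 31 1 = true :=
  ⟨(a (a (b (a (b (a (l 16490064) (l 16435656)) (l 16450120)) (b (l 16354712) (l 16341728))) (a (b (l 16438664) (a (l 16456128) (l 16401576))) (b (l 16329984) (l 16299640)))) (b (a (l 16244392) (l 16150384)) (a (b (l 16226048) (l 16217032)) (b (l 16131664) (l 16123072))))) (a (b (a (l 16070488) (l 16009024)) (b (l 16018008) (a (l 16043296) (l 15982032)))) (b (b (l 15946648) (l 15932576)) (b (l 15919432) (b (l 15909400) (l 15935792)))))), by decide +kernel⟩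

def k52_pm_011_t : ∃ t, chk3 f_pm_011_t t 3 2 1 = true :=
  ⟨(a (b (l 1) (l 4)) (l 1)), by decide +kernel⟩

def k53_pm_011_t : ∃ t, chk3 f_pm_011_t t 3 6 1 = true :=
  ⟨(a (b (a (a (l 4) (b (l 4) (b (l 4) (a (l 4) (b (l 4) (l 16753416)))))) (a (b (l 1) (b (l 1) (a (b (l 1) (l 16751352)) (l 1)))) (l 1))) (a (b (b (a (l 4) (a (b (l 128546966599) (a (l 16774616) (l 16759376))) (b (l 16757648) (l 16726632)))) (a (a (a (l 4) (b (l 4) (l 16750432))) (b (a (l 16767920) (l 16768528)) (a (l 16758584) (l 16730792)))) (a (a (l 16662176) (l 16678696)) (l 16645976)))) (a (b (a (a (b (b (l 16771448) (l 16764216)) (l 16680824)) (b (l 16722592) (l 16685736))) (b (l 16672752) (l 16635840))) (a (b (a (l 16656920) (l 16622056)) (l 16505096)) (b (l 16575376) (l 16509360)))) (b (a (l 16527144) (l 16569976)) (a (l 16450528) (l 16456016))))) (b (a (b (a (l 16686136) (l 16680072)) (a (l 16633240) (l 16609592))) (b (l 1) (l 16589928))) (a (b (a (l 16540544) (l 16521216)) (a (l 16431232) (l 16416584)))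 (b (l 16508128) (l 16410544)))))) (b (l 1) (b (l 1) (a (a (b (l 1) (l 138545290951)) (l 1)) (l 1))))), by decide +kernel⟩

def k54_pm_011_t : ∃ t, chk3 f_pm_011_t t 3 7 1 = true :=
  ⟨(b (a (a (b (a (b (a (b (l 16492096) (l 16410448)) (b (l 16438576) (l 16362032))) (a (b (l 16323184) (l 16230464)) (b (l 16278608) (l 16188712)))) (b (a (b (l 16393656) (l 16320288)) (l 16325568)) (b (a (l 16240744) (l 16213592)) (a (l 16151272) (b (l 16152928) (l 16132928)))))) (a (b (a (b (l 16132416) (a (b (l 16068112) (c (l 16013464) (l 16007056))) (b (l 16029680) (l 16036224)))) (b (b (l 16117136) (a (l 16075952) (l 16051336))) (l 16040912))) (a (l 16009872) (l 16057488))) (b (b (a (b (l 16101088) (l 16089224)) (l 16122256)) (l 16102512)) (l 16100272)))) (b (a (b (a (l 16305600) (l 16291928)) (b (a (l 16199216) (l 16218336)) (l 16188024))) (b (b (l 16328304) (l 16270464)) (l 16262088))) (b (a (l 16172400) (l 16241472)) (a (l 16162112) (l 16224384))))) (a (b (a (b (l 16369032) (l 16332584))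 (l 16410976)) (a (l 16273088) (l 6))) (l 6))) (a (b (a (a (b (a (b (l 16033160) (l 16031048)) (l 16036560)) (a (b (l 16016152) (l 15994712)) (l 16029336))) (b (b (l 16096824) (l 16091768)) (l 16066936))) (b (a (l 16151536) (l 6)) (l 6))) (a (a (b (a (l 15970200) (l 15993536)) (b (l 15955160) (l 6))) (b (l 6) (l 6))) (l 6))) (l 6))), by decide +kernel⟩

theorem s55_pm_011_t : ∃ t, chk3 f_pm_011_t t 3 3 1 = true := ex3_b k53_pm_011_t k54_pm_011_t

theorem s56_pm_011_t : ∃ t, chk3 f_pm_011_t t 3 1 1 = true := ex3_b k52_pm_011_t s55_pm_011_t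

theorem s57_pm_011_t : ∃ t, chk3 f_pm_011_t t 5 15 1 = true := ex3_b k50_pm_011_t k51_pm_011_t

theorem s58_pm_011_t : ∃ t, chk3 f_pm_011_t t 11 14 1 = true := ex3_b k48_pm_011_t k49_pm_011_t

theorem s59_pm_011_t : ∃ t, chk3 f_pm_011_t t 10 29 1 = true := ex3_a k46_pm_011_t k47_pm_011_t

theorem s60_pm_011_t : ∃ t, chk3 f_pm_011_t t 10 14 1 = true := ex3_b k45_pm_011_t s59_pm_011_t

theorem s61_pm_011_t : ∃ t, chk3 f_pm_011_t t 5 14 1 = true := ex3_a s60_pm_011_t s58_pm_011_t

theorem s62_pm_011_t : ∃ t, chk3 f_pm_011_t t 5 7 1 = true := ex3_b s61_pm_011_t s57_pm_011_t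

theorem s63_pm_011_t : ∃ t, chk3 f_pm_011_t t 9 31 1 = true := ex3_a k43_pm_011_t k44_pm_011_t

theorem s64_pm_011_t : ∃ t, chk3 f_pm_011_t t 19 60 1 = true := ex3_a k40_pm_011_t k41_pm_011_t

theorem s65_pm_011_t : ∃ t, chk3 f_pm_011_t t 19 30 1 = true := ex3_b s64_pm_011_t k42_pm_011_t

theorem s66_pm_011_t : ∃ t, chk3 f_pm_011_t t 37 61 1 = true := ex3_b k38_pm_011_t k39_pm_011_t

theorem s67_pm_011_t : ∃ t, chk3 f_pm_011_t t 36 61 1 = true := ex3_a k36_pm_011_t k37_pm_011_t

theorem s68_pm_011_t : ∃ t, chk3 f_pm_011_t t 18 61 1 = true := ex3_a s67_pm_011_t s66_pm_011_t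

theorem s69_pm_011_t : ∃ t, chk3 f_pm_011_t t 18 30 1 = true := ex3_b k35_pm_011_t s68_pm_011_t

theorem s70_pm_011_t : ∃ t, chk3 f_pm_011_t t 9 30 1 = true := ex3_a s69_pm_011_t s65_pm_011_t

theorem s71_pm_011_t : ∃ t, chk3 f_pm_011_t t 9 15 1 = true := ex3_b s70_pm_011_t s63_pm_011_t

theorem s72_pm_011_t : ∃ t, chk3 f_pm_011_t t 35 124 1 = true := ex3_a k31_pm_011_t k32_pm_011_t

theorem s73_pm_011_t : ∃ t, chk3 f_pm_011_t t 35 62 1 = true := ex3_b s72_pm_011_t k33_pm_011_t

theorem s74_pm_011_t : ∃ t, chk3 f_pm_011_t t 69 250 1 = true := ex3_a k28_pm_011_t k29_pm_011_t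

theorem s75_pm_011_t : ∃ t, chk3 f_pm_011_t t 69 125 1 = true := ex3_b s74_pm_011_t k30_pm_011_t

theorem s76_pm_011_t : ∃ t, chk3 f_pm_011_t t 68 251 1 = true := ex3_a k26_pm_011_t k27_pm_011_t

theorem s77_pm_011_t : ∃ t, chk3 f_pm_011_t t 68 125 1 = true := ex3_b k25_pm_011_t s76_pm_011_t

theorem s78_pm_011_t : ∃ t, chk3 f_pm_011_t t 34 125 1 = true := ex3_a s77_pm_011_t s75_pm_011_t

theorem s79_pm_011_t : ∃ t, chk3 f_pm_011_t t 34 62 1 = true := ex3_b k24_pm_011_t s78_pm_011_t

theorem s80_pm_011_t : ∃ t, chk3 f_pm_011_t t 17 62 1 = true := ex3_a s79_pm_011_t s73_pm_011_t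

theorem s81_pm_011_t : ∃ t, chk3 f_pm_011_t t 17 31 1 = true := ex3_b s80_pm_011_t k34_pm_011_t

theorem s82_pm_011_t : ∃ t, chk3 f_pm_011_t t 134 252 1 = true := ex3_b k19_pm_011_t k20_pm_011_t

theorem s83_pm_011_t : ∃ t, chk3 f_pm_011_t t 67 252 1 = true := ex3_a s82_pm_011_t k21_pm_011_t

theorem s84_pm_011_t : ∃ t, chk3 f_pm_011_t t 67 126 1 = true := ex3_b s83_pm_011_t k22_pm_011_t

theorem s85_pm_011_t : ∃ t, chk3 f_pm_011_t t 133 506 1 = true := ex3_a k16_pm_011_t k17_pm_011_t

theorem s86_pm_011_t : ∃ t, chk3 f_pm_011_t t 133 253 1 = true := ex3_b s85_pm_011_t k18_pm_011_t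

theorem s87_pm_011_t : ∃ t, chk3 f_pm_011_t t 132 507 1 = true := ex3_a k14_pm_011_t k15_pm_011_t

theorem s88_pm_011_t : ∃ t, chk3 f_pm_011_t t 132 253 1 = true := ex3_b k13_pm_011_t s87_pm_011_t

theorem s89_pm_011_t : ∃ t, chk3 f_pm_011_t t 66 253 1 = true := ex3_a s88_pm_011_t s86_pm_011_t

theorem s90_pm_011_t : ∃ t, chk3 f_pm_011_t t 66 126 1 = true := ex3_b k12_pm_011_t s89_pm_011_t

theorem s91_pm_011_t : ∃ t, chk3 f_pm_011_t t 33 126 1 = true := ex3_a s90_pm_011_t s84_pm_011_t

theorem s92_pm_011_t : ∃ t, chk3 f_pm_011_t t 33 63 1 = true := ex3_b s91_pm_011_t k23_pm_011_t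

theorem s93_pm_011_t : ∃ t, chk3 f_pm_011_t t 131 508 1 = true := ex3_a k8_pm_011_t k9_pm_011_t

theorem s94_pm_011_t : ∃ t, chk3 f_pm_011_t t 131 254 1 = true := ex3_b s93_pm_011_t k10_pm_011_t

theorem s95_pm_011_t : ∃ t, chk3 f_pm_011_t t 65 254 1 = true := ex3_a k7_pm_011_t s94_pm_011_t

theorem s96_pm_011_t : ∃ t, chk3 f_pm_011_t t 65 127 1 = true := ex3_b s95_pm_011_t k11_pm_011_t

theorem s97_pm_011_t : ∃ t, chk3 f_pm_011_t t 32 127 1 = true := ex3_a k6_pm_011_t s96_pm_011_t

theorem s98_pm_011_t : ∃ t, chk3 f_pm_011_t t 32 63 1 = true := ex3_b k5_pm_011_t s97_pm_011_t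

theorem s99_pm_011_t : ∃ t, chk3 f_pm_011_t t 16 63 1 = true := ex3_a s98_pm_011_t s92_pm_011_t

theorem s100_pm_011_t : ∃ t, chk3 f_pm_011_t t 16 31 1 = true := ex3_b k4_pm_011_t s99_pm_011_t

theorem s101_pm_011_t : ∃ t, chk3 f_pm_011_t t 8 31 1 = true := ex3_a s100_pm_011_t s81_pm_011_t

theorem s102_pm_011_t : ∃ t, chk3 f_pm_011_t t 8 15 1 = true := ex3_b k3_pm_011_t s101_pm_011_t

theorem s103_pm_011_t : ∃ t, chk3 f_pm_011_t t 4 15 1 = true := ex3_a s102_pm_011_t s71_pm_011_t

theorem s104_pm_011_t : ∃ t, chk3 f_pm_011_t t 4 7 1 = true := ex3_b k2_pm_011_t s103_pm_011_t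

theorem s105_pm_011_t : ∃ t, chk3 f_pm_011_t t 2 7 1 = true := ex3_a s104_pm_011_t s62_pm_011_t

theorem s106_pm_011_t : ∃ t, chk3 f_pm_011_t t 2 3 1 = true := ex3_b k1_pm_011_t s105_pm_011_t

theorem s107_pm_011_t : ∃ t, chk3 f_pm_011_t t 2 1 1 = true := ex3_b k0_pm_011_t s106_pm_011_t

theorem s108_pm_011_t : ∃ t, chk3 f_pm_011_t t 1 1 1 = true := ex3_a s107_pm_011_t s56_pm_011_t

theorem c_pm_011_t : CertNE 0 536870912 536870912 536870912 1033476505 6710887 3 eng mog cd0q0 cd0q1 pd1 false true false .pnn 0 1 1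
    ndB0q0 ndB0q1 pcB1 cut_pm_011_t Ext.none :=
  certNE0 (fam := false) (s1 := true) (s2 := false) (a := 0) (b := 1) (c := 1) (cn := .pnn) (n1 := ndB0q0) (n2 := ndB0q1) (pc := pcB1) (cut := cut_pm_011_t) (xt := Ext.none) (P1 := 0) (W1 := 536870912) (P2 := 536870912) (W2 := 536870912) (P3 := 1033476505) (W3 := 6710887) (N0 := 3) (En := eng) (mo := mog) (C1 := cd0q0) (C2 := cd0q1) (C3 := pd1)
    rfl s108_pm_011_t

noncomputable def cut_pm_012_s : Cut := Cut.of [[⟨4, 0, 0, 1449551462⟩], [⟨0, 0, 0, 33554432⟩, ⟨1, 1, 0, 33554432⟩, ⟨2, 1, 0, 33554432⟩]]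

noncomputable def f_pm_012_s : ℕ → ℕ → ℕ → ℕ → Bool := onCell 0 536870912 0 536870912 1033476505 6710887
    (rowNE 3 eng mog cd0q0 cd0q2 pd1 0 false true false .pnp 0 1 2 (qsf 0 536870912 0 536870912 1) ndB0q0 ndB0q2 pcB1 cut_pm_012_s Ext.none)

def k0_pm_012_s : ∃ t, chk3 f_pm_012_s t 1 1 1 = true :=
  ⟨(a (l 6) (b (a (b (a (l 6) (b (a (l 6) (l 16679344)) (l 6))) (l 6)) (b (b (a (a (l 16552824) (l 16358216)) (a (b (a (l 16199368) (b (l 16136088) (l 16111328))) (l 16184552)) (b (a (b (l 16141272) (l 15973528)) (l 16119248)) (a (l 16048200) (b (a (l 15983416) (l 15971864)) (l 15965632)))))) (a (l 6) (a (l 16240032) (l 16003456)))) (l 6))) (l 6))), by decide +kernel⟩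

theorem c_pm_012_s : CertNE 0 536870912 0 536870912 1033476505 6710887 3 eng mog cd0q0 cd0q2 pd1 false true false .pnp 0 1 2
    ndB0q0 ndB0q2 pcB1 cut_pm_012_s Ext.none :=
  certNE0 (fam := false) (s1 := true) (s2 := false) (a := 0) (b := 1) (c := 2) (cn := .pnp) (n1 := ndB0q0) (n2 := ndB0q2) (pc := pcB1) (cut := cut_pm_012_s) (xt := Ext.none) (P1 := 0) (W1 := 536870912) (P2 := 0) (W2 := 536870912) (P3 := 1033476505) (W3 := 6710887) (N0 := 3) (En := eng) (mo := mog) (C1 := cd0q0) (C2 := cd0q2) (C3 := pd1)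
    rfl k0_pm_012_s

noncomputable def cut_pm_012_t : Cut := Cut.of [[⟨3, 0, 0, 2845415833⟩], [⟨0, 0, 0, 33554432⟩, ⟨1, 1, 0, 33554432⟩, ⟨2, 1, 0, 33554432⟩]]

noncomputable def f_pm_012_t : ℕ → ℕ → ℕ → ℕ → Bool := onCell 0 536870912 0 536870912 1033476505 6710887
    (rowNE 3 eng mog cd0q0 cd0q2 pd1 0 false true false .pnp 0 1 2 (qsf 0 536870912 0 536870912 1) ndB0q0 ndB0q2 pcB1 cut_pm_012_t Ext.none)

def k0_pm_012_t : ∃ t, chk3 f_pm_012_t t 1 2 1 = true :=
  ⟨(l 6), by decide +kernel⟩

def k1_pm_012_t : ∃ t, chk3 f_pm_012_t t 4 6 1 = true :=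
  ⟨(a (l 2) (a (a (a (l 2) (l 6)) (l 6)) (l 6))), by decide +kernel⟩

def k2_pm_012_t : ∃ t, chk3 f_pm_012_t t 8 7 1 = true :=
  ⟨(a (b (l 2) (a (b (l 2) (l 14)) (a (b (b (l 2) (l 14)) (l 14)) (a (b (b (l 2) (l 14)) (l 14)) (b (b (b (l 2) (b (l 2) (l 16605576))) (b (b (l 16613960) (l 16623296)) (l 16638768))) (b (b (l 16660848) (l 16662408)) (b (l 16688344) (b (l 16720888) (l 16730552))))))))) (b (b (a (l 2) (b (l 2) (a (l 2) (b (l 16384336) (l 16426264))))) (b (a (l 2) (a (b (a (l 2) (l 16464944)) (a (l 16505184) (l 16505256))) (b (l 16467752) (l 16507040)))) (a (a (b (l 2) (b (l 2) (a (l 2) (l 16577040)))) (b (a (l 16524368) (b (l 16534816) (l 16551736))) (b (a (l 16566176) (l 16564032)) (l 16573144)))) (b (a (b (l 16533376) (l 16549832)) (l 16521568)) (a (b (l 16561712) (l 16569344)) (l 16565552)))))) (b (b (a (b (a (b (a (l 2) (l 16581832)) (a (l 16589112) (l 16585912))) (b (l 16577624) (l 16581408))) (a (a (b (l 16594864) (l 16601896)) (l 16594736)) (l 16589744))) (b (a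 (b (l 16573416) (l 16576800)) (l 16574048)) (a (l 16584480) (l 16582288)))) (a (a (b (a (l 16614512) (l 16610520)) (a (l 16634224) (l 16629720))) (b (l 16604808) (l 16623240))) (a (b (l 16598600) (l 16616000)) (b (l 16595448) (l 16611816))))) (a (b (a (b (a (l 16655768) (l 16650728)) (b (l 16669504) (l 16680312))) (b (l 16643456) (l 16643112))) (b (a (a (l 16678248) (l 16693088)) (l 16663192)) (a (b (l 16711040) (l 16699328)) (b (l 16698248) (l 16706968))))) (b (a (b (l 16635144) (l 16654672)) (b (l 16629872) (l 16648304))) (b (a (l 16673648) (l 16666168)) (a (l 16670136) (l 16682528)))))))), by decide +kernel⟩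

def k3_pm_012_t : ∃ t, chk3 f_pm_012_t t 9 7 1 = true :=
  ⟨(b (a (b (a (b (a (b (l 16314864) (l 16354424)) (l 16352768)) (b (a (l 16394792) (l 16410840)) (a (l 16435336) (l 16449992)))) (b (a (l 16375480) (l 6)) (a (b (l 16431488) (l 16469240)) (l 16438656)))) (b (a (b (a (l 16475424) (l 16488680)) (a (l 16513344) (l 16525224))) (a (b (l 16506528) (l 16541688)) (b (l 16513512) (l 16547288)))) (a (b (a (l 16547528) (l 16558088)) (a (l 16569440) (l 16578880))) (a (b (l 16552248) (l 16571936)) (b (l 16577488) (l 16596040)))))) (b (a (b (l 6) (a (l 16403776) (l 6))) (l 6)) (a (b (a (b (l 16497488) (l 16529872)) (l 16461328)) (a (b (l 16537760) (l 16576168)) (b (l 16524984) (l 16541288)))) (b (a (l 16445984) (l 16406080)) (b (l 16445080) (l 16480648)))))) (a (b (b (a (b (a (l 16577072) (l 16585664)) (a (l 16584456) (l 16592176))) (a (b (l 16577848) (l 16604464)) (b (l 16601088) (l 16605856)))) (a (a (b (l 16596648) (l 16611984)) (l 16589464)) (a (a (l 16619256) (l 16623600)) (l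 16600144)))) (a (b (a (b (l 16628952) (l 16646280)) (l 16620848)) (b (a (l 16663032) (l 16665416)) (a (l 16678280) (l 16679560)))) (a (b (a (l 16628032) (l 16631280)) (b (l 16651368) (l 16664400))) (b (l 16627152) (b (l 16668344) (l 16679248)))))) (b (a (b (a (b (l 16580336) (l 16584224)) (b (l 16544576) (l 16547576))) (a (l 16577000) (l 16559808))) (b (b (l 16461632) (l 16484256)) (a (l 16517008) (l 16470592)))) (a (a (b (l 16580840) (b (l 16620336) (l 16631128))) (b (l 16582408) (l 16604408))) (b (a (l 16537392) (l 16488736)) (a (l 16557104) (l 16506160))))))), by decide +kernel⟩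

def k4_pm_012_t : ∃ t, chk3 f_pm_012_t t 5 3 1 = true :=
  ⟨(b (l 6) (b (a (b (l 6) (a (b (l 6) (a (b (l 16379576) (l 16391880)) (l 6))) (l 6))) (l 6)) (a (b (a (b (a (b (l 16392040) (l 16391872)) (l 16301968)) (a (l 16398704) (l 16303248))) (b (a (l 16215464) (l 6)) (a (l 16212728) (l 16131920)))) (a (a (b (l 16413480) (l 16427448)) (b (l 16313496) (l 16322816))) (a (l 16221608) (l 16133848)))) (b (l 6) (a (a (l 16060328) (l 16005360)) (b (l 6) (l 15957560))))))), by decide +kernel⟩

def k5_pm_012_t : ∃ t, chk3 f_pm_012_t t 3 3 1 = true :=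
  ⟨(b (l 6) (l 6)), by decide +kernel⟩

theorem s6_pm_012_t : ∃ t, chk3 f_pm_012_t t 4 7 1 = true := ex3_a k2_pm_012_t k3_pm_012_t

theorem s7_pm_012_t : ∃ t, chk3 f_pm_012_t t 4 3 1 = true := ex3_b k1_pm_012_t s6_pm_012_t

theorem s8_pm_012_t : ∃ t, chk3 f_pm_012_t t 2 3 1 = true := ex3_a s7_pm_012_t k4_pm_012_t

theorem s9_pm_012_t : ∃ t, chk3 f_pm_012_t t 1 3 1 = true := ex3_a s8_pm_012_t k5_pm_012_t

theorem s10_pm_012_t : ∃ t, chk3 f_pm_012_t t 1 1 1 = true := ex3_b k0_pm_012_t s9_pm_012_t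

theorem c_pm_012_t : CertNE 0 536870912 0 536870912 1033476505 6710887 3 eng mog cd0q0 cd0q2 pd1 false true false .pnp 0 1 2
    ndB0q0 ndB0q2 pcB1 cut_pm_012_t Ext.none :=
  certNE0 (fam := false) (s1 := true) (s2 := false) (a := 0) (b := 1) (c := 2) (cn := .pnp) (n1 := ndB0q0) (n2 := ndB0q2) (pc := pcB1) (cut := cut_pm_012_t) (xt := Ext.none) (P1 := 0) (W1 := 536870912) (P2 := 0) (W2 := 536870912) (P3 := 1033476505) (W3 := 6710887) (N0 := 3) (En := eng) (mo := mog) (C1 := cd0q0) (C2 := cd0q2) (C3 := pd1)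
    rfl s10_pm_012_t

noncomputable def cut_pm_022_s : Cut := Cut.of [[⟨4, 0, 0, 1449551462⟩], [⟨0, 0, 0, 33554432⟩, ⟨1, 1, 0, 33554432⟩, ⟨2, 1, 0, 33554432⟩]]

noncomputable def f_pm_022_s : ℕ → ℕ → ℕ → ℕ → Bool := onCell 1073741824 536870912 0 536870912 1033476505 6710887
    (rowNE 3 eng mog cd0q0 cd0q2 pd2 2 false true false .pp 0 2 2 (qsf 0 536870912 0 536870912 2) ndB0q0 ndB0q2 pcB2 cut_pm_022_s Ext.none)

def k0_pm_022_s : ∃ t, chk3 f_pm_022_s t 1 1 1 = true :=
  ⟨(l 6), by decide +kernel⟩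

theorem c_pm_022_s : CertNE 0 536870912 0 536870912 1033476505 6710887 3 eng mog cd0q0 cd0q2 pd2 false true false .pp 0 2 2
    ndB0q0 ndB0q2 pcB2 cut_pm_022_s Ext.none :=
  certNE2 (fam := false) (s1 := true) (s2 := false) (a := 0) (b := 2) (c := 2) (cn := .pp) (n1 := ndB0q0) (n2 := ndB0q2) (pc := pcB2) (cut := cut_pm_022_s) (xt := Ext.none) (P1 := 0) (W1 := 536870912) (P2 := 0) (W2 := 536870912) (P3 := 1033476505) (W3 := 6710887) (N0 := 3) (En := eng) (mo := mog) (C1 := cd0q0) (C2 := cd0q2) (C3 := pd2)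
    rfl (fun _ => rfl) k0_pm_022_s

noncomputable def cut_pm_022_t : Cut := Cut.of [[⟨3, 0, 0, 2845415833⟩], [⟨0, 0, 0, 33554432⟩, ⟨1, 1, 0, 33554432⟩, ⟨2, 1, 0, 33554432⟩]]

noncomputable def f_pm_022_t : ℕ → ℕ → ℕ → ℕ → Bool := onCell 0 536870912 0 536870912 1033476505 6710887
    (rowNE 3 eng mog cd0q0 cd0q2 pd2 0 false true false .pp 0 2 2 (qsf 0 536870912 0 536870912 2) ndB0q0 ndB0q2 pcB2 cut_pm_022_t Ext.none)

def k0_pm_022_t : ∃ t, chk3 f_pm_022_t t 2 2 1 = true :=
  ⟨(l 6), by decide +kernel⟩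

def k1_pm_022_t : ∃ t, chk3 f_pm_022_t t 4 6 1 = true :=
  ⟨(b (l 6) (a (a (b (a (b (l 16500424) (l 16503944)) (l 16455120)) (a (b (l 16497496) (l 16484544)) (b (l 16520120) (l 16511968)))) (b (l 6) (a (b (l 16538568) (l 16533784)) (b (l 6) (l 16540888))))) (a (b (l 6) (l 6)) (l 6)))), by decide +kernel⟩

def k2_pm_022_t : ∃ t, chk3 f_pm_022_t t 4 7 1 = true :=
  ⟨(a (b (b (a (b (a (a (l 16461208) (l 16477152)) (l 16479584)) (a (b (l 16437632) (a (l 16443944) (l 16462232))) (b (l 16492512) (l 16488456)))) (b (a (l 16525208) (l 16534056)) (a (b (l 16518776) (l 16515520)) (b (l 16528384) (l 16525320))))) (a (b (a (b (a (l 16440048) (l 16459112)) (a (b (l 16418528) (l 16419800)) (l 16459712))) (b (a (l 16477528) (l 16494184)) (a (l 16478608) (l 16495584)))) (a (b (a (b (a (l 16417184) (l 16448280)) (a (l 16422240) (l 16453480))) (b (l 16463368) (l 16468736))) (a (b (a (c (l 16433952) (l 16430864)) (l 16442800)) (a (c (l 16448872) (l 16466952)) (l 16478896))) (b (l 16479168) (l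 16494408)))) (b (a (b (l 16482544) (l 16488048)) (l 16502096)) (a (b (l 16498584) (l 16513888)) (l 16522856))))) (b (a (b (l 16513800) (l 16515344)) (b (l 16523520) (l 16524712))) (a (b (a (l 16516104) (l 16526016)) (a (l 16536704) (l 16546288))) (b (l 16530496) (l 1)))))) (b (a (b (a (b (a (b (a (a (l 16484968) (l 16490264)) (l 16498200)) (a (a (l 16505424) (l 16510768)) (l 16518752))) (b (a (l 16508648) (l 16518832)) (l 16534400))) (a (a (b (a (l 16524992) (l 16530368)) (a (l 16543824) (l 16549216))) (b (l 16538384) (l 16557248))) (a (l 16537456) (l 16568600)))) (b (a (b (l 16533296) (l 16553888)) (l 16518368)) (a (a (l 16578304) (l 16587408)) (l 16578688)))) (a (l 14) (a (l 14) (b (l 16593336) (a (l 14) (l 1)))))) (a (a (b (b (l 16552864) (l 16612680)) (l 1)) (l 1)) (l 1))) (a (a (l 14) (a (l 14) (l 1))) (l 1)))) (b (a (b (a (b (l 16516080) (l 16508496)) (l 1)) (l 1)) (l 1)) (l 1))), by decide +kernel⟩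

def k3_pm_022_t : ∃ t, chk3 f_pm_022_t t 5 3 1 = true :=
  ⟨(b (l 1) (l 1)), by decide +kernel⟩

def k4_pm_022_t : ∃ t, chk3 f_pm_022_t t 3 1 1 = true :=
  ⟨(l 1), by decide +kernel⟩

theorem s5_pm_022_t : ∃ t, chk3 f_pm_022_t t 4 3 1 = true := ex3_b k1_pm_022_t k2_pm_022_t

theorem s6_pm_022_t : ∃ t, chk3 f_pm_022_t t 2 3 1 = true := ex3_a s5_pm_022_t k3_pm_022_t

theorem s7_pm_022_t : ∃ t, chk3 f_pm_022_t t 2 1 1 = true := ex3_b k0_pm_022_t s6_pm_022_t

theorem s8_pm_022_t : ∃ t, chk3 f_pm_022_t t 1 1 1 = true := ex3_a s7_pm_022_t k4_pm_022_t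

theorem c_pm_022_t : CertNE 0 536870912 0 536870912 1033476505 6710887 3 eng mog cd0q0 cd0q2 pd2 false true false .pp 0 2 2
    ndB0q0 ndB0q2 pcB2 cut_pm_022_t Ext.none :=
  certNE0 (fam := false) (s1 := true) (s2 := false) (a := 0) (b := 2) (c := 2) (cn := .pp) (n1 := ndB0q0) (n2 := ndB0q2) (pc := pcB2) (cut := cut_pm_022_t) (xt := Ext.none) (P1 := 0) (W1 := 536870912) (P2 := 0) (W2 := 536870912) (P3 := 1033476505) (W3 := 6710887) (N0 := 3) (En := eng) (mo := mog) (C1 := cd0q0) (C2 := cd0q2) (C3 := pd2)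
    rfl s8_pm_022_t

noncomputable def cut_pm_101_s : Cut := Cut.of [[⟨4, 0, 0, 1127428915⟩], [⟨0, 1, 0, 13421772⟩, ⟨1, 0, 0, 13421772⟩, ⟨2, 1, 0, 13421772⟩], [⟨0, 0, 1, 46137344⟩, ⟨1, 1, 2, 46137344⟩, ⟨2, 1, 0, 1048576⟩, ⟨0, 0, 0, 1047972020⟩, ⟨0, 1, 0, 45097156⟩, ⟨1, 0, 0, 45097156⟩, ⟨1, 1, 0, 1047972020⟩]]

noncomputable def xt_pm_101_s : Ext := extD3 3 ⟨4, 1, 1, 5, 27, 5, 41, 50, 81, 200, 1, 64⟩ eng cd0q1 cd0q1 pd0 false true false .npn 1 0 1 rfl ndB0q1 ndB0q1 pcB0

noncomputable def f_pm_101_s : ℕ → ℕ → ℕ → ℕ → Bool := onCell 536870912 536870912 536870912 536870912 1033476505 6710887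
    (rowNE 3 eng mog cd0q1 cd0q1 pd0 0 false true false .npn 1 0 1 (qsf 536870912 536870912 536870912 536870912 0) ndB0q1 ndB0q1 pcB0 cut_pm_101_s xt_pm_101_s)

def k0_pm_101_s : ∃ t, chk3 f_pm_101_s t 1 1 1 = true :=
  ⟨(a (l 6) (b (l 6) (a (l 6) (b (l 6) (a (l 6) (b (l 6) (a (l 6) (b (l 6) (b (a (l 6) (a (l 6) (l 1))) (b (a (l 6) (b (a (l 6) (l 1)) (a (a (l 6) (l 14)) (l 14)))) (a (a (l 6) (a (l 6) (b (l 6) (a (l 6) (b (l 6) (b (c (l 143986442100818031) (l 143995306916118639)) (c (a (l 143950020782948463) (l 143991389915267183)) (b (l 143980532236976239) (a (l 144041348979671151) (l 144084848415981679)))))))))) (a (a (a (b (l 6) (b (c (b (l 604085760401592276854383) (l 143971461289721967)) (b (l 604264463071460146144879) (l 603825776432153990112879))) (b (c (l 144056398546174063) (b (l 143983349740961903) (l 144069317816402031))) (a (c (l 144031522096775279) (b (l 144135632118055023) (l 144037019662090351))) (c (b (l 144070623485902959) (l 144066706475073647)) (c (l 144076258484519023)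 (l 144082237082402927))))))) (b (b (l 6) (b (c (l 604155800293593073297007) (l 604323262164333614016111)) (c (l 603952597846039281444463) (l 604106801116934179284591)))) (b (c (b (l 603809059094045433865839) (l 143996337744658543)) (a (b (l 603837882138601275123311) (l 144184697833095279)) (l 144027605112078447))) (b (c (l 144084092516434031) (l 144098454890283119)) (c (c (l 144088765430710383) (l 144095156346110063)) (b (l 144102990376370287) (c (l 144104639633096815) (l 144110961826300015)))))))) (l 14)) (l 14))))))))))))), by decide +kernel⟩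

theorem c_pm_101_s : CertNE 536870912 536870912 536870912 536870912 1033476505 6710887 3 eng mog cd0q1 cd0q1 pd0 false true false .npn 1 0 1
    ndB0q1 ndB0q1 pcB0 cut_pm_101_s xt_pm_101_s :=
  certNE0 (fam := false) (s1 := true) (s2 := false) (a := 1) (b := 0) (c := 1) (cn := .npn) (n1 := ndB0q1) (n2 := ndB0q1) (pc := pcB0) (cut := cut_pm_101_s) (xt := xt_pm_101_s) (P1 := 536870912) (W1 := 536870912) (P2 := 536870912) (W2 := 536870912) (P3 := 1033476505) (W3 := 6710887) (N0 := 3) (En := eng) (mo := mog) (C1 := cd0q1) (C2 := cd0q1) (C3 := pd0)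
    rfl k0_pm_101_s

noncomputable def cut_pm_101_t : Cut := Cut.of [[⟨3, 0, 0, 2845415833⟩], [⟨0, 1, 0, 13421772⟩, ⟨1, 0, 0, 13421772⟩, ⟨2, 1, 0, 13421772⟩], [⟨0, 0, 1, 46137344⟩, ⟨1, 1, 2, 46137344⟩, ⟨2, 1, 0, 1048576⟩, ⟨0, 0, 0, 1047972020⟩, ⟨0, 1, 0, 45097156⟩, ⟨1, 0, 0, 45097156⟩, ⟨1, 1, 0, 1047972020⟩]]

noncomputable def f_pm_101_t : ℕ → ℕ → ℕ → ℕ → Bool := onCell 536870912 536870912 536870912 536870912 1033476505 6710887
    (rowNE 3 eng mog cd0q1 cd0q1 pd0 0 false true false .npn 1 0 1 (qsf 536870912 536870912 536870912 536870912 0) ndB0q1 ndB0q1 pcB0 cut_pm_101_t Ext.none)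

def k0_pm_101_t : ∃ t, chk3 f_pm_101_t t 1 1 1 = true :=
  ⟨(a (b (a (b (a (b (l 4) (a (b (l 4) (a (l 4) (l 119420156039))) (b (a (l 4) (l 119420160839)) (b (l 115125164679) (l 16749728))))) (b (a (a (l 4) (l 1)) (l 1)) (b (a (a (l 115125159495) (l 16748160)) (a (l 16712624) (l 1))) (a (l 16696144) (l 16546624))))) (b (a (b (a (b (l 58216856151) (l 16748800)) (l 16699064)) (a (l 16678296) (l 16583304))) (b (a (l 16576792) (l 16529240)) (a (l 16521800) (l 16450960)))) (a (b (a (l 16594448) (l 16560000)) (a (l 16567048) (l 16510136))) (b (a (l 16475168) (l 16380864)) (a (l 16422648) (l 16325664)))))) (b (a (b (l 1) (a (b (l 1) (l 16474408)) (l 1))) (l 1)) (b (a (b (a (l 16430536) (l 16325216)) (a (l 16348520) (l 16235488))) (b (l 1) (a (l 6) (l 1)))) (a (b (a (l 16275864) (l 6)) (l 6)) (l 6))))) (b (a (b (a (b (a (l 16549344) (l 16470336)) (a (l 16513928) (l 16434456))) (b (a (l 16381000) (l 6)) (l 6))) (b (a (a (b (l 16427696) (l 6)) (l 6)) (l 6)) (l 6))) (l 6)) (l 6))) (b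 (a (b (l 1) (l 6)) (l 1)) (l 6))), by decide +kernel⟩

theorem c_pm_101_t : CertNE 536870912 536870912 536870912 536870912 1033476505 6710887 3 eng mog cd0q1 cd0q1 pd0 false true false .npn 1 0 1
    ndB0q1 ndB0q1 pcB0 cut_pm_101_t Ext.none :=
  certNE0 (fam := false) (s1 := true) (s2 := false) (a := 1) (b := 0) (c := 1) (cn := .npn) (n1 := ndB0q1) (n2 := ndB0q1) (pc := pcB0) (cut := cut_pm_101_t) (xt := Ext.none) (P1 := 536870912) (W1 := 536870912) (P2 := 536870912) (W2 := 536870912) (P3 := 1033476505) (W3 := 6710887) (N0 := 3) (En := eng) (mo := mog) (C1 := cd0q1) (C2 := cd0q1) (C3 := pd0)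
    rfl k0_pm_101_t

noncomputable def cut_pm_102_s : Cut := Cut.of [[⟨4, 0, 0, 1100585369⟩], [⟨0, 1, 0, 11184810⟩, ⟨1, 0, 0, 11184810⟩, ⟨2, 1, 0, 11184810⟩], [⟨0, 0, 1, 46137344⟩, ⟨1, 1, 2, 46137344⟩, ⟨2, 1, 0, 1048576⟩, ⟨0, 0, 0, 1047972020⟩, ⟨0, 1, 0, 45097156⟩, ⟨1, 0, 0, 45097156⟩, ⟨1, 1, 0, 1047972020⟩]]

noncomputable def f_pm_102_s : ℕ → ℕ → ℕ → ℕ → Bool := onCell 536870912 536870912 0 536870912 1033476505 6710887
    (rowNE 3 eng mog cd0q1 cd0q2 pd0 0 false true false .npp 1 0 2 (qsf 536870912 536870912 0 536870912 0) ndB0q1 ndB0q2 pcB0 cut_pm_102_s Ext.none)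

def k0_pm_102_s : ∃ t, chk3 f_pm_102_s t 2 1 1 = true :=
  ⟨(b (b (a (l 2) (a (b (a (l 144049032311) (l 3)) (a (b (l 16715176) (l 16723552)) (b (l 133848514839) (a (l 16758504) (l 16771472))))) (b (l 3) (a (b (l 3) (l 149417788471)) (l 3))))) (a (l 6) (a (b (a (l 6) (b (l 16745208) (l 6))) (l 6)) (b (a (b (a (l 16770408) (l 16776664)) (l 16748840)) (b (l 154249800151) (a (l 16769832) (l 16772744)))) (b (a (l 6) (a (l 6) (l 16742808))) (l 6)))))) (l 6)), by decide +kernel⟩

def k1_pm_102_s : ∃ t, chk3 f_pm_102_s t 3 2 1 = true :=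
  ⟨(b (l 3) (a (a (a (b (b (l 3) (a (l 158007753575) (l 3))) (b (a (l 21105644775) (b (l 16774240) (l 16764528))) (a (l 6) (l 16682704)))) (b (l 3) (b (a (l 152102162711) (l 3)) (a (b (l 94656906375) (l 16723192)) (b (l 3) (l 107004923015)))))) (l 3)) (l 3))), by decide +kernel⟩

def k2_pm_102_s : ∃ t, chk3 f_pm_102_s t 6 3 1 = true :=
  ⟨(b (a (b (a (l 6) (b (a (b (l 6) (l 6)) (b (a (l 16702480) (l 16736456)) (l 16622168))) (l 6))) (l 6)) (b (a (b (a (b (a (l 16742960) (l 16773176)) (a (l 16698064) (l 16697584))) (b (l 3) (a (l 112373662743) (l 3)))) (a (b (l 16542904) (l 6)) (b (a (l 16636856) (b (l 16746456) (l 16731256))) (a (l 6) (l 16604000))))) (b (l 3) (a (b (a (l 126332321559) (l 3)) (a (b (l 16653632) (l 16659488)) (b (l 132237923895) (b (l 16738192) (l 16694488))))) (b (l 3) (a (l 140290968583) (l 3)))))) (a (l 6) (b (b (a (a (b (l 16620920) (l 6)) (l 16553448)) (a (b (a (l 16724008) (l 16747248)) (l 16659960)) (b (l 16770456) (a (l 16734352) (l 16751400))))) (a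 (l 6) (a (l 16499432) (b (l 73718786167) (l 16629152))))) (b (a (l 6) (l 6)) (l 6)))))) (l 6)), by decide +kernel⟩

def k3_pm_102_s : ∃ t, chk3 f_pm_102_s t 7 6 1 = true :=
  ⟨(a (b (l 3) (a (a (b (b (l 3) (a (b (a (l 32379944087) (l 16773728)) (a (l 16691576) (l 30232399159))) (b (l 3) (a (l 97878200647) (l 3))))) (b (a (b (l 16624528) (l 16598048)) (b (a (l 16688208) (b (l 16750768) (l 16733840))) (l 16599152))) (a (l 6) (b (l 16567952) (l 6))))) (b (l 3) (b (a (b (l 161765835831) (a (a (l 16716480) (l 16714488)) (b (l 16773904) (l 16745944)))) (l 3)) (a (b (a (l 16677056) (l 16680416)) (a (l 16601880) (l 16648488))) (b (a (b (l 16749584) (l 16728656)) (l 120426793079)) (a (l 16674352) (b (l 16737912) (l 16723896)))))))) (b (l 3) (a (b (l 3) (a (b (l 3) (a (b (l 16752640) (b (l 16750528) (l 16740176))) (l 175187655351))) (l 3))) (l 3))))) (l 3)), by decide +kernel⟩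

def k4_pm_102_s : ∃ t, chk3 f_pm_102_s t 14 7 1 = true :=
  ⟨(b (a (b (a (l 6) (b (a (l 6) (b (a (l 16619264) (l 16667560)) (a (l 6) (l 16589632)))) (l 6))) (l 6)) (b (a (b (a (b (a (l 16694792) (b (b (l 16752824) (l 16748808)) (l 16724192))) (a (l 16639312) (l 16673056))) (b (a (b (l 3) (l 109689392487)) (l 3)) (a (b (a (l 16744488) (l 16767776)) (l 16719144)) (b (l 167134588695) (a (l 16755920) (l 16752448)))))) (a (b (a (l 6) (l 16547856)) (l 6)) (b (a (b (l 16680856) (l 16641856)) (b (l 16730792) (l 16692496))) (a (l 6) (b (l 16653504) (l 16613880)))))) (b (b (l 3) (a (a (l 242296542551) (l 3)) (l 3))) (a (b (a (b (a (l 16767352) (l 16753856)) (l 16737464)) (b (l 3) (a (l 16742696) (l 16774544)))) (a (b (l 16683488) (l 16665464)) (b (a (l 16742464) (l 16767368)) (a (l 16703936) (l 16729520))))) (b (l 3) (a (b (l 159081509383) (a (l 16755008) (l 62444775319))) (b (l 3) (l 243370287031))))))) (a (l 6) (b (a (b (a (b (l 16625832) (l 6)) (b (l 16698648) (l 16638104))) (l 6))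 (b (a (b (a (l 16716408) (l 16742216)) (l 16732184)) (b (a (b (l 16775896) (l 16758424)) (l 148344124487)) (a (l 16708336) (l 16755400)))) (a (b (l 16671848) (l 16611328)) (b (a (l 16690264) (l 16716576)) (a (l 16650984) (l 16677472)))))) (a (l 6) (b (a (l 6) (b (a (l 6) (l 16638032)) (l 6))) (l 6))))))) (l 6)), by decide +kernel⟩

def k5_pm_102_s : ∃ t, chk3 f_pm_102_s t 15 14 1 = true :=
  ⟨(a (b (l 3) (a (b (a (b (a (b (l 3) (a (b (l 16754960) (l 16771848)) (l 173577061863))) (l 3)) (a (b (a (l 16742880) (b (l 16745264) (l 16759448))) (a (l 16703928) (b (l 16740048) (l 16720568)))) (b (a (l 143512290919) (l 3)) (a (b (l 16766376) (l 16725984)) (b (l 16770320) (l 16773400)))))) (b (l 3) (a (b (l 3) (a (l 225653548503) (l 3))) (l 3)))) (a (b (a (b (b (l 16687784) (l 16668112)) (a (l 16625976) (l 16652528))) (b (a (l 16759488) (b (l 16753928) (l 16734352))) (a (l 16679048) (b (l 16715024) (l 16696376))))) (a (l 6) (b (a (l 16643000) (l 16711528)) (a (l 6) (l 16635832))))) (b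 (a (b (a (b (l 150491574343) (a (l 16754320) (l 16767680))) (b (l 3) (a (l 74255950039) (l 3)))) (a (b (a (l 16735008) (l 16748384)) (l 16723056)) (b (a (l 16761792) (l 16773840)) (l 16770744)))) (b (l 3) (a (b (l 201494360503) (a (l 16769312) (l 88214594647))) (l 3)))) (a (b (a (b (l 16705056) (l 16687632)) (b (l 16752728) (l 16714312))) (a (l 16662472) (l 16731040))) (b (a (b (a (l 16751288) (l 16763936)) (l 16761144)) (b (a (b (l 16766032) (l 16771904)) (l 152639103431)) (a (l 16758840) (l 38822471575)))) (a (b (l 16723216) (l 16706728)) (a (l 16754504) (l 16766632)))))))) (b (l 3) (a (b (l 3) (a (b (a (b (l 3) (a (l 103246979895) (l 3))) (l 3)) (a (b (a (l 16765920) (b (l 111836916647) (l 16773440))) (a (l 16749376) (l 16761088))) (b (l 196662521351) (a (b (l 16773904) (l 16768536)) (b (l 3) (l 102173240135)))))) (l 3))) (l 3))))) (l 3)), by decide +kernel⟩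

def k6_pm_102_s : ∃ t, chk3 f_pm_102_s t 60 30 1 = true :=
  ⟨(b (a (l 6) (b (a (b (a (l 6) (l 16656992)) (l 6)) (b (a (l 16682704) (b (l 16715360) (l 16699424))) (a (l 16650152) (l 16674760)))) (a (l 6) (b (a (l 6) (l 16640320)) (l 6))))) (l 6)), by decide +kernel⟩

def k7_pm_102_s : ∃ t, chk3 f_pm_102_s t 61 30 1 = true :=
  ⟨(b (a (b (a (b (a (b (l 16760136) (l 16723208)) (b (b (a (l 16760464) (l 16771792)) (l 16758184)) (l 16767200))) (a (b (l 16706896) (l 16690128)) (b (l 16729944) (l 16713224)))) (b (a (b (a (b (l 127406172567) (l 67276631863)) (l 214379262263)) (a (l 16763040) (b (l 131164248087) (l 16770104)))) (b (l 3) (a (l 130627395127) (l 3)))) (a (a (l 16759464) (l 16770608)) (b (a (l 16774384) (b (l 146196652647) (l 16771152))) (l 16774016))))) (a (b (a (l 16664184) (l 16687400)) (a (l 6) (l 16651736))) (a (b (b (l 16718728) (l 16701376)) (l 16674736)) (b (b (l 16762376) (l 16724200)) (l 16697824))))) (b (a (b (l 3) (a (b (l 3) (a (b (l 104857595255) (l 16771432))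 (l 186998846359))) (l 3))) (l 3)) (a (b (a (b (a (l 16758792) (l 49023020807)) (l 16768536)) (b (a (b (l 218674230487) (l 134922340231)) (l 3)) (a (l 16765384) (b (l 119353109223) (l 16773096))))) (a (b (l 16730216) (l 16712632)) (b (l 16775120) (l 16736736)))) (b (a (b (l 3) (l 217600485879)) (l 3)) (a (b (a (b (l 16773952) (l 16767976)) (l 172503306391)) (a (l 16754976) (l 16772416))) (b (l 3) (a (b (l 135459236055) (l 16775064)) (l 227801034423)))))))) (a (b (a (l 6) (b (a (l 16638288) (l 16661848)) (l 6))) (l 6)) (b (a (b (a (l 16685920) (l 16731328)) (a (l 16650024) (l 16675080))) (b (a (b (l 16764672) (l 16726296)) (b (a (l 16762112) (b (l 96804531783) (l 16770040))) (l 16771992))) (a (l 16721256) (b (l 16733904) (l 16717008))))) (a (b (a (l 6) (b (l 16648904) (l 6))) (l 6)) (b (a (l 16666352) (l 16692296)) (a (l 6) (b (l 16668832) (a (l 6) (b (l 16664536) (l 6)))))))))), by decide +kernel⟩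

def k8_pm_102_s : ∃ t, chk3 f_pm_102_s t 30 31 1 = true :=
  ⟨(l 6), by decide +kernel⟩

def k9_pm_102_s : ∃ t, chk3 f_pm_102_s t 31 30 1 = true :=
  ⟨(b (l 3) (a (a (b (a (b (a (b (a (l 190220072103) (l 3)) (a (l 42580570679) (b (l 217063617927) (l 86067113991)))) (l 3)) (a (b (l 11978929287) (l 16741912)) (b (a (b (l 114521271303) (l 16772440)) (l 206326198711)) (a (l 16760120) (b (l 76403437911) (l 16767920)))))) (b (l 3) (a (b (l 3) (a (b (l 3) (l 104857595271)) (l 3))) (l 3)))) (a (b (a (l 16759720) (b (l 16771112) (l 16734904))) (a (l 16688056) (l 16734744))) (b (a (b (a (l 16772888) (b (l 190220073079) (l 66739762023))) (l 16768832)) (b (l 233706612359) (a (b (l 95730790135) (l 16771080)) (b (l 3) (l 182167004487))))) (a (b (l 16744440) (l 16731856)) (b (a (l 16760960) (b (l 57612956807) (l 16767944))) (l 16754040)))))) (b (l 3) (a (b (l 3) (a (b (a (b (l 213305521431) (a (l 16775024) (l 121500594295))) (l 3)) (a (l 16773792) (b (a (l 94657049447) (l 228874778423))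 (l 13052671527)))) (b (l 3) (a (l 211694907591) (l 3))))) (l 3)))) (l 3))), by decide +kernel⟩

def k10_pm_102_s : ∃ t, chk3 f_pm_102_s t 31 124 1 = true :=
  ⟨(a (a (a (b (a (b (a (l 6) (b (l 16678400) (a (l 6) (l 16675960)))) (l 6)) (b (l 16695544) (a (b (a (l 6) (l 16684416)) (l 6)) (b (l 16694560) (a (b (l 16687816) (l 6)) (l 16693584)))))) (a (l 6) (b (a (l 6) (b (a (l 6) (l 16689744)) (l 6))) (l 6)))) (b (a (b (l 16720904) (l 16711968)) (b (l 16743816) (l 16735904))) (a (b (a (b (a (b (l 16697600) (l 16695936)) (b (l 16704320) (l 16702808))) (a (l 6) (l 16700736))) (b (l 16713384) (a (b (l 16708232) (l 16707136)) (b (l 16714832) (l 16713904))))) (a (l 6) (b (b (l 16730616) (l 16708888)) (l 6)))) (b (l 16730824) (a (b (a (b (l 16719816) (l 16719376)) (b (l 16726248) (l 16757448))) (c (l 16739424) (l 16705584))) (b (l 16735368) (a (b (a (l 16730864) (l 16734040)) (l 16732776)) (b (l 16738656) (a (l 16737640) (l 16740752)))))))))) (a (b (a (b (l 16773696) (l 16756152)) (b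 (a (b (a (l 16775048) (l 109689434535)) (l 16772656)) (b (l 3) (a (l 82845889767) (l 212231780439)))) (a (l 16768016) (b (l 10905188103) (l 16772848))))) (a (b (l 16752328) (l 16752472)) (b (l 16768368) (l 16770080)))) (b (a (b (l 3) (a (b (l 196662523719) (a (l 16776024) (l 98952016551))) (l 3))) (l 3)) (a (b (a (l 16775480) (b (a (l 72645342823) (l 201494362471)) (l 16776200))) (c (l 16767192) (l 16774176))) (b (a (b (l 3) (a (b (l 229411649959) (l 16774464)) (l 3))) (l 3)) (a (b (a (l 16777344) (l 89288340359)) (l 16777488)) (b (l 228874777399) (a (l 62981666439) (l 191293815367))))))))) (l 3)), by decide +kernel⟩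

def k11_pm_102_s : ∃ t, chk3 f_pm_102_s t 124 125 1 = true :=
  ⟨(b (a (l 6) (a (l 6) (b (a (c (l 16743368) (l 16703808)) (b (a (l 16733616) (b (l 16739960) (l 16740904))) (l 16739360))) (l 6)))) (l 6)), by decide +kernel⟩

def k12_pm_102_s : ∃ t, chk3 f_pm_102_s t 250 125 1 = true :=
  ⟨(b (a (b (a (b (a (b (a (l 16744736) (l 16747776)) (l 16747488)) (b (l 16752168) (a (l 16752160) (l 16755120)))) (a (l 16749792) (b (l 16755392) (l 16757384)))) (b (l 16761168) (a (b (a (l 16759944) (l 16762816)) (l 16763696)) (b (l 16766920) (a (l 16768112) (l 16770880)))))) (a (c (l 16761496) (l 16738432)) (b (a (l 16767720) (b (l 16772416) (l 16775648))) (l 16778008)))) (b (l 16777400) (b (a (a (b (a (l 16776688) (l 16778904)) (l 16758856)) (b (l 16778792) (a (l 16773928) (l 16779016)))) (l 16778800)) (a (a (l 16760792) (b (l 16758952) (l 16781192))) (a (b (a (l 16776664) (l 16779136)) (l 16759040)) (b (l 16779016) (a (b (l 16779224) (l 16779536)) (l 16779256)))))))) (a (b (a (l 6) (c (l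 16781544) (l 16766256))) (l 6)) (b (a (c (b (l 16762344) (l 16764520)) (l 16779488)) (b (a (l 16760840) (b (l 16759144) (l 16781288))) (c (l 16762272) (l 16762696)))) (a (b (a (l 6) (l 16765040)) (l 6)) (b (c (l 16764240) (l 16764768)) (c (l 16765184) (l 16764544))))))), by decide +kernel⟩

def k13_pm_102_s : ∃ t, chk3 f_pm_102_s t 251 125 1 = true :=
  ⟨(b (a (b (c (l 16757168) (l 16757256)) (a (l 16778848) (l 16778696))) (b (a (l 16777864) (b (l 7683963095) (l 16777712))) (c (l 16767840) (l 16767896)))) (a (b (a (b (a (b (a (b (l 16779352) (l 16779656)) (l 16779376)) (l 16769728)) (b (l 16779248) (a (b (l 16779480) (l 16779776)) (l 16779504)))) (a (l 16760888) (b (l 16769824) (l 16781376)))) (b (l 16779232) (a (b (a (b (l 16779608) (l 16779896)) (l 16779632)) (l 16769920)) (b (l 16779488) (a (b (l 16779736) (l 16780016)) (l 16779752)))))) (a (b (c (l 16762168) (l 16762536)) (c (l 16763904) (l 16764368))) (b (a (l 16760904) (c (l 16770352) (l 16760048))) (c (l 16762024) (l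 16762336))))) (b (a (l 16779232) (l 16768488)) (a (b (a (b (a (b (l 16779856) (l 16780128)) (l 16779872)) (l 16775336)) (b (l 16779720) (a (b (l 16779984) (l 16780240)) (l 16779992)))) (a (l 16771376) (c (l 16770472) (l 16770616)))) (b (l 16779640) (a (b (a (b (l 16780096) (l 16780344)) (l 16780104)) (l 16775488)) (b (l 16779936) (a (b (l 16780216) (l 16780448)) (l 16780216))))))))), by decide +kernel⟩

def k14_pm_102_s : ∃ t, chk3 f_pm_102_s t 63 125 1 = true :=
  ⟨(a (a (b (a (b (a (b (a (b (l 209547426455) (l 16774560)) (l 3)) (a (l 16777440) (b (l 111836919239) (l 16777328)))) (b (l 3) (l 221895455735))) (a (l 16772592) (b (a (b (l 16774600) (l 16777416)) (b (l 3) (l 106468210215))) (a (l 16777688) (l 16772208))))) (b (l 3) (a (b (l 3) (a (b (l 196662524775) (l 16775944)) (l 3))) (l 3)))) (a (b (a (l 16768144) (l 16772944)) (a (l 16774320) (l 16773904))) (b (a (b (a (l 16777576) (b (l 101099501175) (l 16772152))) (l 16767392)) (b (a (l 202568104167) (l 3)) (a (b (l 65666021607)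 (l 16777528)) (b (l 235317229863) (l 96267663031))))) (a (l 16777320) (b (a (l 16777904) (l 16772320)) (l 16767792)))))) (b (l 3) (a (b (l 3) (a (b (a (b (l 185388235783) (a (l 16777416) (l 16774512))) (l 233706616455)) (a (l 16767248) (b (a (l 16772032) (l 130090530471)) (l 16772240)))) (b (l 3) (a (b (l 3) (a (l 104857598279) (l 3))) (l 3))))) (l 3)))) (l 3)), by decide +kernel⟩

def k15_pm_102_s : ∃ t, chk3 f_pm_102_s t 62 63 1 = true :=
  ⟨(b (a (l 6) (a (l 6) (b (b (a (a (b (c (l 16765152) (l 16764600)) (l 6)) (b (c (l 16763512) (l 16763896)) (c (l 16775264) (l 16764752)))) (a (b (c (l 16772312) (l 16762080)) (a (l 16779344) (l 16778496))) (b (a (l 16776560) (c (l 16775792) (l 16770656))) (c (l 16772040) (l 16772240))))) (a (a (l 6) (b (c (l 16776048) (l 16775528)) (l 6))) (a (b (c (l 16779712) (l 16774840)) (c (l 16780416) (l 16780832))) (b (c (l 16778160) (l 16773160)) (c (l 16781392) (l 16779048)))))) (a (l 6) (b (a (l 6) (a (b (c (l 16784744) (l 16764104)) (l 6)) (b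 (c (l 16783944) (l 16784208)) (c (l 16783928) (l 16784192))))) (l 6)))))) (l 6)), by decide +kernel⟩

def k16_pm_102_s : ∃ t, chk3 f_pm_102_s t 63 252 1 = true :=
  ⟨(a (a (a (b (a (b (a (b (a (b (l 16780320) (l 16780536)) (l 16780320)) (l 16775600)) (b (l 16780128) (a (b (l 16780424) (l 16780616)) (l 16780416)))) (a (l 16776440) (b (l 16775640) (l 16781384)))) (b (l 16779968) (a (b (a (b (l 16780512) (l 16780688)) (l 16777880)) (l 16775664)) (b (l 16780296) (a (b (l 16780592) (l 16780752)) (l 16777952)))))) (a (b (c (l 16776912) (l 16771816)) (c (l 16780056) (l 16777600))) (b (a (l 16778864) (b (l 16775672) (l 16781232))) (c (l 16779048) (l 16776512))))) (b (a (c (l 16769272) (l 16769288)) (b (l 16768376) (l 16768992))) (a (b (a (b (a (b (l 16780664) (l 16780792)) (l 16778016)) (l 16775664)) (b (l 16780416) (a (b (l 16780728) (l 16780824)) (l 16778072)))) (a (l 16779872) (b (l 16775640) (l 16780992)))) (b (l 16769648) (a (b (a (b (l 16780776) (l 16780840)) (l 16780728)) (l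 16780840)) (b (l 16780488) (a (b (l 16780808) (l 16780840)) (l 16780752)))))))) (a (b (a (b (l 16772888) (l 16768280)) (b (a (b (a (l 16777456) (l 16776504)) (l 16777656)) (b (l 227264166343) (a (l 16774672) (l 124184950519)))) (a (l 16767664) (l 16775080)))) (a (b (l 16768952) (l 16774896)) (b (l 16773368) (l 16774064)))) (b (a (b (l 3) (a (b (a (l 99488889223) (l 3)) (a (l 16777504) (l 74255956631))) (b (l 3) (l 222432328199)))) (l 3)) (a (b (a (l 16772624) (b (a (l 16774680) (l 118816241447)) (l 16772280))) (l 16776928)) (b (a (b (l 3) (a (b (l 130627402231) (l 16774600)) (l 240685939463))) (l 3)) (a (b (a (l 16777488) (b (l 95730793271) (l 16777328))) (l 16767184)) (b (a (l 198810008695) (l 3)) (a (l 16776656) (b (l 235317230759) (l 92509567831)))))))))) (l 3)), by decide +kernel⟩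

def k17_pm_102_s : ∃ t, chk3 f_pm_102_s t 252 253 1 = true :=
  ⟨(b (a (a (b (c (l 16781576) (l 16781760)) (c (a (l 16783136) (l 16782432)) (a (l 16783344) (l 16782576)))) (b (c (l 16780464) (l 16780560)) (c (a (l 16781816) (l 16781280)) (a (l 16781912) (l 16781336))))) (a (b (c (l 16779736) (l 16779760)) (c (a (l 16780856) (l 16780528)) (a (l 16780872) (l 16780512)))) (b (a (l 16780112) (c (l 16778048) (l 16778040))) (a (c (l 16780304) (l 16780280)) (b (l 16780360) (c (l 16780024) (l 16779976))))))) (a (b (a (a (l 6) (b (l 16782152) (l 16780480))) (c (a (l 16781232) (l 16780632)) (a (l 16781296) (l 16780640)))) (a (l 6) (c (a (l 16777624) (l 16776936)) (a (l 16778944) (l 16776888))))) (a (b (c (a (l 16780120) (l 16779720)) (a (l 16780096) (l 16779656))) (b (a (l 16777944) (c (l 16778856) (l 16778744))) (a (c (l 16778608) (l 16778488)) (c (l 16778216) (l 16778056))))) (b (a (b (c (l 16779688) (l 16779624)) (c (l 16779192) (l 16779088))) (c (l 16776752) (l 16776656))) (c (a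 (l 16778336) (l 16778248)) (a (l 16778176) (l 16778064))))))), by decide +kernel⟩

def k18_pm_102_s : ∃ t, chk3 f_pm_102_s t 253 253 1 = true :=
  ⟨(a (b (a (b (a (b (b (l 16780112) (a (l 16780816) (l 16780824))) (a (l 16780680) (l 16780728))) (b (l 16780504) (a (b (l 16780824) (l 16780784)) (b (l 16780696) (l 16780824))))) (a (b (l 16779768) (l 16780064)) (c (l 16777792) (l 16779064)))) (b (l 16777296) (a (b (a (c (l 16778136) (l 16778128)) (b (l 16780432) (l 16780656))) (l 16779192)) (b (l 16780064) (a (b (l 16777888) (l 16780680)) (b (l 16780136) (l 16777744))))))) (b (a (c (a (l 16779424) (l 16779560)) (a (l 16779320) (l 16779464))) (a (c (l 16774552) (l 16774472)) (b (c (l 16769904) (l 16769872)) (l 16777168)))) (a (c (a (l 16778232) (l 16778312)) (a (l 16778040) (l 16772872))) (c (a (l 16773240) (l 16776136)) (a (l 16773056) (l 16775976)))))) (b (a (b (l 16777512) (a (l 16769168) (l 16773888))) (b (a (l 16772848) (b (l 16774888) (l 16767296))) (a (l 16773392) (l 16772936))))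 (a (b (a (b (a (b (l 16778920) (l 16780592)) (b (l 16779856) (c (l 16780104) (l 16774856)))) (c (l 16775000) (l 16774952))) (b (l 16779528) (a (b (c (l 16779976) (l 16774728)) (l 16769992)) (b (l 16779592) (c (l 16777232) (l 16777232)))))) (a (c (l 16776528) (l 16776400)) (b (c (l 16774816) (l 16774760)) (c (l 16768736) (l 16768616))))) (b (a (l 16773920) (l 16776072)) (a (b (b (a (c (l 16777120) (l 16777112)) (l 16779352)) (a (l 16775088) (a (l 16778424) (l 16776840)))) (c (l 16777216) (l 16777152))) (b (l 16779064) (a (a (b (a (l 16774456) (l 16776904)) (l 16780072)) (b (l 16776736) (l 16778624))) (b (l 16779128) (a (b (a (l 16776784) (l 16779272)) (l 16779672)) (l 16776624)))))))))), by decide +kernel⟩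

def k19_pm_102_s : ∃ t, chk3 f_pm_102_s t 127 253 1 = true :=
  ⟨(a (a (b (a (b (a (b (a (b (l 124184951351) (l 16775920)) (l 233706617655)) (a (l 16777472) (b (l 89825213287) (l 16777328)))) (b (l 3) (a (b (l 3) (l 121500596807)) (l 3)))) (a (l 16775136) (b (a (b (l 16776584) (l 16777400)) (b (l 226727296215) (c (l 86603987831) (l 87677729655)))) (l 16776832)))) (b (l 3) (a (b (l 3) (a (b (l 118279371351) (c (l 16775928) (l 16775928))) (l 228337908583))) (l 3)))) (a (b (a (l 16776944) (c (l 16772616) (l 16772608))) (a (l 16777432) (c (l 16773088) (l 16773080)))) (b (a (b (a (l 16777456) (a (l 16775992) (b (l 118816242727) (l 16777280)))) (l 16774976)) (b (a (b (l 3) (c (l 115058145911) (l 116668758647))) (l 3)) (a (b (c (l 16776592) (l 16776912)) (l 16777392)) (b (l 211158039815) (a (l 16774624) (l 115595017287)))))) (a (c (l 16775320) (l 16775320)) (b (c (l 16776160) (l 16776160)) (l 16775072)))))) (b (l 3) (a (b (l 3) (a (b (a (a (b (l 90898955479) (l 16777320)) (b (l 239075327367)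 (l 66739764551))) (b (l 3) (l 207936814359))) (a (l 16774816) (b (a (l 16775936) (l 112373791831)) (l 16774704)))) (b (l 3) (a (a (b (l 3) (a (l 16776544) (l 111836920983))) (l 238001585175)) (l 3))))) (l 3)))) (l 3)), by decide +kernel⟩

def k20_pm_102_s : ∃ t, chk3 f_pm_102_s t 252 254 1 = true :=
  ⟨(b (a (b (a (l 6) (a (l 6) (b (c (l 16778456) (l 16778336)) (l 6)))) (l 6)) (b (b (a (a (c (l 16776560) (a (l 16777816) (l 16777576))) (c (l 16777536) (l 16777328))) (c (l 16775920) (l 16775664))) (a (c (a (l 16777104) (l 16776776)) (a (l 16776888) (l 16776512))) (c (a (l 16776512) (l 16776328)) (a (l 16776208) (l 16775992))))) (a (a (l 6) (c (b (l 16775920) (l 16774968)) (b (l 16775584) (l 16774560)))) (c (a (b (l 16775616) (l 16774608)) (b (l 16775384) (l 16774328))) (a (b (l 16775240) (l 16774152)) (b (l 16774976) (l 16773832))))))) (a (l 6) (a (l 6) (a (a (l 6) (b (b (c (l 16773408) (l 16772848)) (l 6)) (l 6))) (b (c (b (l 16771848) (c (l 16772040) (l 16771696))) (b (c (l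 16772720) (l 16772424)) (c (l 16771352) (l 16771000)))) (b (b (c (l 16770816) (c (l 16770232) (l 16769840))) (l 6)) (l 6))))))), by decide +kernel⟩

def k21_pm_102_s : ∃ t, chk3 f_pm_102_s t 253 508 1 = true :=
  ⟨(a (b (a (c (a (l 16775360) (l 16775360)) (b (l 16775504) (a (l 16775864) (l 16775832)))) (c (a (l 16775456) (b (l 16777456) (l 16776448))) (a (b (l 16776952) (l 16775904)) (b (l 16777184) (l 16776088))))) (a (c (a (b (l 16775232) (l 16774120)) (b (l 16775160) (l 16774000))) (a (b (l 16774792) (l 16773600)) (b (l 16774712) (l 16773456)))) (c (a (b (l 16775184) (l 16773976)) (b (l 16775312) (l 16774048))) (a (b (l 16774728) (l 16773416)) (b (l 16774864) (l 16773496)))))) (b (a (c (a (b (l 16777792) (l 16776736)) (c (l 16772536) (l 16772416))) (a (b (l 16777552) (l 16776408)) (b (l 16778048) (l 16776856)))) (a (b (a (l 16773368) (b (l 16773992) (c (l 16776136) (l 16775992)))) (c (a (b (l 16777856) (l 16777296)) (l 16775360)) (a (b (l 16777624) (l 16774400)) (l 16776456))))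 (b (a (b (c (l 16777064) (l 16777000)) (l 16779128)) (l 16774608)) (l 16775952)))) (a (a (b (c (l 16775552) (l 16775120)) (a (c (l 16774176) (l 16773632)) (b (l 16774392) (c (l 16773976) (a (l 16773344) (l 16773464)))))) (b (a (c (l 16773200) (l 16774104)) (b (c (l 16776384) (l 16773400)) (c (l 16775816) (l 16775416)))) (a (b (c (l 16774880) (a (l 16774296) (l 16774480))) (l 16772752)) (l 16774816)))) (b (a (c (l 16774128) (l 16773800)) (l 16776216)) (c (a (l 16775736) (l 16776632)) (a (l 16775328) (l 16776304))))))), by decide +kernel⟩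

def k22_pm_102_s : ∃ t, chk3 f_pm_102_s t 506 1018 1 = true :=
  ⟨(a (c (b (a (l 16772896) (l 16772720)) (a (c (l 16771728) (l 16771360)) (c (l 16771488) (l 16771112)))) (b (a (l 16770960) (l 16770760)) (a (c (l 16770992) (l 16770624)) (c (l 16770728) (l 16770336))))) (b (c (a (l 16772632) (l 16772640)) (a (l 16771960) (l 16769352))) (a (c (c (l 16771344) (l 16770952)) (c (l 16770552) (l 16770152))) (a (c (b (l 16771488) (l 16770688)) (b (l 16770720) (l 16768544))) (a (b (c (l 16771496) (l 16770728)) (c (l 16770784) (l 16769960))) (b (c (l 16771568) (l 16770800)) (l 16770584))))))), by decide +kernel⟩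

def k23_pm_102_s : ∃ t, chk3 f_pm_102_s t 1012 1019 1 = true :=
  ⟨(a (b (b (c (l 16770440) (l 16769616)) (a (a (l 6) (c (l 16769704) (l 16768824))) (c (l 16769568) (l 16768664)))) (a (l 6) (b (b (a (a (l 6) (a (b (l 16768872) (l 6)) (c (l 16766352) (l 16768024)))) (c (l 16768904) (l 16767944))) (b (a (l 6) (a (b (c (c (l 16767656) (l 16767176)) (c (l 16766688) (l 16766192))) (c (l 16768848) (l 16767864))) (b (c (l 16768624) (l 16767640)) (c (a (l 16768648) (l 16767240)) (a (l 16765040) (l 16766248)))))) (c (l 16769264) (l 16768280)))) (c (l 16770192) (l 16769184))))) (b (c (c (l 16769960) (l 16769512)) (c (l 16769064) (l 16765992))) (b (b (c (l 16768688) (l 16767704)) (a (a (b (c (l 16767200) (l 16766200)) (b (a (c (l 16767192) (l 16766840)) (c (l 16767688) (l 16767000))) (c (l 16768544) (l 16767528)))) (a (a (b (l 16768096) (b (l 16767760) (c (l 16766928) (l 16765896)))) (c (l 16768000) (l 16767304))) (c (l 16768272) (l 16767256)))) (c (l 16768168) (l 16767128)))) (c (b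 (b (b (a (a (l 16768736) (a (l 16768328) (l 16767928))) (l 16767240)) (a (l 16768648) (a (a (l 16766672) (l 16767168)) (l 16767728)))) (a (l 16768928) (a (l 16768112) (b (a (a (l 16766408) (l 16766336)) (l 16767592)) (a (l 16767808) (l 16767408)))))) (l 16766312)) (b (b (b (a (a (l 16767712) (a (l 16767296) (a (l 16764464) (l 16765680)))) (l 16766512)) (a (l 16767616) (a (a (l 16765616) (l 16766104)) (l 16766656)))) (a (l 16767888) (a (l 16767040) (b (a (a (l 16765328) (l 16765256)) (l 16766512)) (a (l 16766720) (a (l 16763896) (l 16765112))))))) (c (l 16768136) (l 16767592))))))), by decide +kernel⟩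

def k24_pm_102_s : ∃ t, chk3 f_pm_102_s t 1013 1019 1 = true :=
  ⟨(b (a (c (b (l 16769936) (a (l 16769128) (a (l 16769048) (l 16768096)))) (b (l 16769040) (a (l 16768176) (a (l 16768080) (b (l 16768288) (l 16767904)))))) (a (c (b (a (l 16769880) (l 16770008)) (l 16769352)) (b (a (b (l 16769176) (l 16768760)) (l 16769112)) (l 16768408))) (c (l 16770088) (l 16769208)))) (a (a (b (c (c (l 16765888) (l 16767992)) (c (l 16767480) (l 16766960))) (a (a (c (b (l 16766312) (a (l 16767792) (b (l 16766824) (l 16767856)))) (b (l 16766536) (c (b (l 16765400) (l 16764456)) (b (l 16764848) (l 16763896))))) (b (c (l 16767568) (l 16766480)) (b (b (a (c (l 16766008) (l 16765552)) (c (l 16765984) (c (l 16765152) (l 16764592)))) (a (c (l 16767440) (l 16763704)) (c (l 16767360) (l 16764936)))) (c (l 16767744) (l 16766624))))) (b (c (l 16766312) (l 16766048)) (a (b (b (c (l 16767360) (l 16766256)) (c (c (l 16766320) (l 16765768)) (c (l 16765216) (l 16765312)))) (c (l 16767640) (l 16766528))) (b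 (c (l 16767456) (l 16766360)) (b (c (c (l 16766416) (l 16765864)) (c (l 16765312) (l 16765408))) (c (l 16767648) (l 16766544)))))))) (a (b (b (c (l 16768424) (l 16767408)) (c (l 16765480) (l 16767048))) (c (b (l 16767832) (b (l 16767640) (b (l 16766240) (a (l 16766248) (l 16766256))))) (b (l 16766760) (b (l 16766552) (b (l 16765152) (c (a (l 16765424) (l 16765440)) (a (l 16764864) (l 16764888)))))))) (c (l 16768208) (l 16767168)))) (c (c (l 16769056) (l 16768568)) (c (l 16766760) (l 16766264))))), by decide +kernel⟩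

def k25_pm_102_s : ∃ t, chk3 f_pm_102_s t 507 509 1 = true :=
  ⟨(b (a (a (b (a (b (c (l 16773104) (l 16772472)) (c (a (l 16772352) (l 16772496)) (a (l 16771648) (l 16771816)))) (b (c (l 16773368) (l 16771448)) (l 16772512))) (c (b (l 16772096) (l 16771576)) (b (l 16770064) (l 16770816)))) (c (b (l 16773800) (l 16772776)) (b (l 16773224) (l 16772112)))) (c (a (b (l 16774720) (l 16773696)) (b (l 16775616) (l 16774600))) (a (b (l 16774224) (l 16773112)) (b (l 16775208) (l 16771480))))) (a (c (b (a (l 16769496) (l 16769128)) (a (c (l 16770000) (l 16769544)) (c (l 16770920) (l 16770504)))) (b (a (c (l 16770184) (l 16769768)) (l 16769688)) (a (c (l 16769088) (l 16767320)) (c (l 16770088) (l 16768360))))) (b (c (a (l 16770048) (l 16770960)) (a (l 16770688) (l 16771680))) (c (a (c (l 16771832) (l 16771456)) (b (l 16772808) (l 16772296))) (a (c (l 16771080) (l 16769384)) (c (l 16772048) (l 16769088))))))), by decide +kernel⟩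

def k26_pm_102_s : ∃ t, chk3 f_pm_102_s t 252 255 1 = true :=
  ⟨(l 6), by decide +kernel⟩

def k27_pm_102_s : ∃ t, chk3 f_pm_102_s t 1012 1020 1 = true :=
  ⟨(a (l 6) (b (b (a (c (l 16770576) (l 16769496)) (c (a (l 16769760) (a (b (l 16768992) (c (l 16770040) (l 16769472))) (b (c (l 16769016) (l 16768464)) (l 16769600)))) (a (l 16768648) (a (b (l 16767880) (b (l 16768416) (l 16768824))) (b (c (l 16767248) (b (l 16767144) (l 16766216))) (l 16768472)))))) (a (l 6) (a (a (l 6) (b (b (c (l 16770552) (l 16769424)) (a (l 6) (l 16769080))) (l 6))) (c (l 16771048) (l 16769920))))) (a (l 6) (c (l 16768696) (l 16770184))))), by decide +kernel⟩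

def k28_pm_102_s : ∃ t, chk3 f_pm_102_s t 1013 1020 1 = true :=
  ⟨(a (b (b (b (b (a (c (a (c (l 16765928) (l 16766680)) (l 16768056)) (a (c (l 16766128) (l 16766872)) (l 16766944))) (a (c (l 16767840) (l 16766744)) (b (a (c (c (l 16766608) (l 16766064)) (a (l 16765888) (l 16765248))) (c (l 16767720) (l 16766640))) (a (c (l 16767808) (l 16766720)) (c (a (l 16765112) (l 16766416)) (a (l 16765336) (l 16765992))))))) (c (l 16768416) (l 16767312))) (c (l 16769120) (l 16768016))) (c (l 16767888) (l 16766784))) (c (l 16770320) (c (l 16767200) (l 16769264)))) (b (b (b (a (b (c (l 16768000) (c (l 16764584) (l 16764048))) (b (c (a (a (l 16767192) (l 16766544)) (l 16768008)) (a (c (a (l 16765728) (l 16765744)) (a (l 16765184) (l 16765208))) (l 16766952))) (c (a (l 16765392) (c (l 16767760) (a (l 16766360) (l 16767744)))) (a (l 16765624) (a (a (l 16766520) (l 16765560)) (l 16766952)))))) (c (l 16768400) (l 16767376))) (a (b (b (c (a (l 16768248) (a (l 16768088) (a (l 16766712) (l 16766704))))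 (a (l 16767168) (a (l 16767024) (a (l 16765648) (l 16766304))))) (c (l 16768376) (l 16767304))) (c (l 16768720) (l 16767648))) (a (b (b (c (l 16766824) (l 16765776)) (a (c (l 16767472) (a (l 16767080) (l 16766400))) (c (l 16767488) (c (l 16766048) (l 16765520))))) (c (l 16768408) (l 16767352))) (b (c (l 16768328) (l 16767296)) (b (a (c (a (l 16766896) (l 16766912)) (a (l 16766832) (l 16765872))) (c (l 16768296) (l 16767256))) (a (c (l 16768376) (l 16767328)) (c (a (l 16766992) (l 16766992)) (a (l 16765952) (l 16766608))))))))) (c (l 16767040) (c (l 16768872) (l 16768336)))) (c (c (l 16770040) (l 16769512)) (c (l 16768984) (l 16768448))))), by decide +kernel⟩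

def k29_pm_102_s : ∃ t, chk3 f_pm_102_s t 507 2040 1 = true :=
  ⟨(c (b (a (a (a (c (l 16766392) (l 16768520)) (l 16769232)) (l 16769936)) (a (l 16770864) (l 16771784))) (a (a (a (b (b (b (a (a (l 16768080) (l 16767776)) (l 16768576)) (a (l 16767264) (a (a (l 16767832) (l 16767192)) (l 16768576)))) (b (a (l 16768808) (a (l 16768656) (a (l 16767272) (l 16767928)))) (l 16768928))) (l 16769496)) (b (b (l 16768904) (b (l 16767504) (a (a (l 16768360) (l 16768056)) (l 16768864)))) (a (l 16769184) (b (b (a (a (l 16768112) (l 16767472)) (l 16768856)) (a (l 16768928) (a (l 16767552) (l 16768208)))) (l 16769216))))) (a (b (l 16769312) (b (l 16769128) (b (a (a (a (l 16768976) (l 16768296)) (l 16768336)) (l 16769136)) (a (l 16767816) (a (a (l 16768384) (l 16767752)) (l 16769136)))))) (l 16769656))) (a (l 16770024) (l 16771264)))) (b (a (a (a (c (l 16768016) (l 16767512)) (l 16768272)) (l 16767728)) (a (l 16768736) (l 16769728))) (a (a (a (b (b (b (a (c (a (l 16766328) (l 16766352)) (a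 (l 16765808) (l 16765832))) (l 16767568)) (a (l 16766232) (a (a (l 16767136) (l 16766176)) (l 16767560)))) (b (a (l 16767776) (a (l 16767632) (a (l 16766256) (l 16766912)))) (l 16767904))) (l 16768472)) (b (b (l 16767920) (b (l 16767824) (a (c (a (l 16766624) (l 16766648)) (a (l 16766112) (l 16766144))) (l 16767872)))) (b (a (l 16767952) (b (a (a (l 16767440) (l 16766480)) (l 16767864)) (a (l 16767928) (a (l 16767216) (l 16767544))))) (l 16768312)))) (a (b (l 16768360) (b (l 16768160) (b (a (c (a (l 16766920) (l 16766944)) (a (l 16766424) (l 16766448))) (l 16768176)) (a (l 16766832) (a (b (l 16766760) (l 16767432)) (l 16768168)))))) (l 16768728))) (a (c (l 16769704) (l 16769272)) (c (l 16770680) (l 16770288)))))), by decide +kernel⟩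

def k30_pm_102_s : ∃ t, chk3 f_pm_102_s t 1014 2041 1 = true :=
  ⟨(a (c (c (l 16769176) (l 16768672)) (c (l 16768168) (a (l 16767848) (l 16767464)))) (b (c (b (a (b (b (a (l 16769352) (a (l 16769200) (a (l 16768480) (l 16768480)))) (l 16769480)) (l 16769808)) (a (b (b (l 16767944) (a (a (l 16769248) (l 16768568)) (l 16768608))) (l 16769504)) (b (l 16769448) (b (a (a (l 16768992) (l 16768024)) (l 16769408)) (a (l 16769472) (a (l 16768752) (l 16768752))))))) (l 16770280)) (b (a (b (b (a (l 16768368) (a (l 16768224) (a (l 16767512) (l 16767840)))) (l 16768496)) (l 16768832)) (a (b (b (l 16766984) (c (a (l 16767864) (l 16767232)) (a (l 16767376) (l 16766752)))) (l 16768048)) (b (l 16768504) (b (a (b (l 16767056) (l 16768056)) (l 16768464)) (a (l 16768520) (b (l 16767784) (l 16767176))))))) (l 16768000))) (c (l 16768984) (c (l 16770880) (l 16770392))))), by decide +kernel⟩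

def k31_pm_102_s : ∃ t, chk3 f_pm_102_s t 1015 2041 1 = true :=
  ⟨(b (a (c (b (a (l 16769736) (l 16770192)) (a (b (b (a (a (a (l 16769520) (l 16769168)) (l 16769208)) (l 16769688)) (a (l 16769008) (a (a (l 16769256) (l 16768296)) (l 16769680)))) (b (b (a (l 16769832) (a (l 16769680) (l 16769000))) (l 16769672)) (l 16770008))) (b (l 16770000) (b (l 16768600) (a (a (a (l 16769784) (l 16769432)) (l 16769472)) (l 16769952)))))) (b (c (l 16769296) (l 16768848)) (a (b (b (a (c (a (l 16768152) (l 16767528)) (a (l 16767680) (l 16767056))) (l 16768768)) (a (l 16768400) (a (b (l 16768656) (l 16768344)) (l 16768760)))) (b (a (l 16768944) (a (l 16768808) (b (l 16768080) (l 16767464)))) (l 16769072))) (b (l 16769104) (b (l 16769008) (a (c (a (l 16768432) (l 16767808)) (a (l 16767976) (l 16767352))) (l 16769056))))))) (a (c (l 16770520) (l 16769672)) (l 14))) (a (a (c (l 16770992) (l 16767440)) (c (b (b (a (l 16770032) (b (a (b (l 16769856) (l 16769544)) (l 16769944)) (a (l 16770000) (a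 (l 16769616) (l 16769616))))) (l 16770376)) (l 16771032)) (b (a (c (l 16769568) (l 16769104)) (b (b (a (a (a (l 16768608) (l 16768288)) (l 16767664)) (l 16769048)) (a (l 16769096) (b (l 16768368) (l 16768408)))) (l 16769376))) (l 16770120)))) (l 14))), by decide +kernel⟩

def k32_pm_102_s : ∃ t, chk3 f_pm_102_s t 253 1021 1 = true :=
  ⟨(a (a (l 6) (a (b (c (l 16771640) (l 16773160)) (l 6)) (b (c (l 16773352) (c (l 16769936) (l 16769408))) (c (l 16774240) (l 16775800))))) (a (b (c (a (l 16772472) (c (l 16771856) (l 16771368))) (a (c (l 16769088) (l 16771200)) (c (l 16770880) (l 16770392)))) (c (a (l 16773320) (l 16775048)) (a (l 16774920) (c (l 16771696) (l 16771200))))) (a (b (c (c (l 16771000) (l 16770544)) (c (l 16770080) (a (l 16769808) (l 16769424)))) (l 14)) (l 14)))), by decide +kernel⟩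

def k33_pm_102_s : ∃ t, chk3 f_pm_102_s t 253 511 1 = true :=
  ⟨(a (l 6) (a (b (a (b (c (l 16776720) (l 16775696)) (b (c (l 16773976) (l 16778184)) (l 6))) (b (c (l 16775792) (l 16777424)) (l 14))) (l 14)) (l 14))), by decide +kernel⟩

def k34_pm_102_s : ∃ t, chk3 f_pm_102_s t 127 127 1 = true :=
  ⟨(b (a (a (b (a (b (a (b (a (b (a (l 16778768) (l 16776528)) (l 16774736)) (b (l 16778936) (a (a (l 16776776) (l 16776600)) (l 16777744)))) (c (l 16774288) (l 16774216))) (b (l 16778680) (a (b (a (a (l 16776688) (l 16777824)) (l 16777648)) (l 16774552)) (b (l 16778752) (a (a (l 16776600) (l 16777736)) (l 16778224)))))) (b (a (l 16777136) (c (l 16776760) (l 16776688))) (a (c (l 16777512) (l 16777264)) (c (l 16773128) (l 16772968))))) (b (a (b (l 16775664) (l 16775896)) (b (l 16775304) (l 16775528))) (a (b (a (b (c (a (l 16777760) (l 16778800)) (a (l 16777760) (l 16776176))) (l 16774384)) (b (l 16778600) (a (b (l 16778816) (l 16779144)) (a (l 16778104) (l 16778664))))) (c (l 16776592)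 (l 16777824))) (b (l 16777072) (a (b (a (b (l 16777440) (l 16773832)) (b (l 16778576) (l 14))) (l 14)) (l 14)))))) (a (b (a (c (b (l 16776504) (l 16775488)) (b (l 16776168) (l 16772440))) (b (c (l 16774744) (l 16774488)) (c (l 16773728) (l 16773392)))) (a (b (c (l 16773152) (l 16772648)) (c (b (l 16773696) (l 16773184)) (c (l 16773000) (l 16770080)))) (b (c (l 16774016) (l 16773432)) (l 14)))) (b (a (b (c (l 16775576) (l 16775408)) (l 14)) (l 14)) (l 14)))) (b (a (b (a (b (l 16776920) (l 16777144)) (b (a (a (l 16777376) (l 14)) (l 14)) (l 14))) (l 14)) (l 14)) (l 14))) (l 14)) (l 14)), by decide +kernel⟩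

theorem s35_pm_102_s : ∃ t, chk3 f_pm_102_s t 507 2041 1 = true := ex3_a k30_pm_102_s k31_pm_102_s

theorem s36_pm_102_s : ∃ t, chk3 f_pm_102_s t 507 1020 1 = true := ex3_b k29_pm_102_s s35_pm_102_s

theorem s37_pm_102_s : ∃ t, chk3 f_pm_102_s t 506 1020 1 = true := ex3_a k27_pm_102_s k28_pm_102_s

theorem s38_pm_102_s : ∃ t, chk3 f_pm_102_s t 253 1020 1 = true := ex3_a s37_pm_102_s s36_pm_102_s

theorem s39_pm_102_s : ∃ t, chk3 f_pm_102_s t 253 510 1 = true := ex3_b s38_pm_102_s k32_pm_102_s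

theorem s40_pm_102_s : ∃ t, chk3 f_pm_102_s t 253 255 1 = true := ex3_b s39_pm_102_s k33_pm_102_s

theorem s41_pm_102_s : ∃ t, chk3 f_pm_102_s t 126 255 1 = true := ex3_a k26_pm_102_s s40_pm_102_s

theorem s42_pm_102_s : ∃ t, chk3 f_pm_102_s t 506 1019 1 = true := ex3_a k23_pm_102_s k24_pm_102_s

theorem s43_pm_102_s : ∃ t, chk3 f_pm_102_s t 506 509 1 = true := ex3_b k22_pm_102_s s42_pm_102_s

theorem s44_pm_102_s : ∃ t, chk3 f_pm_102_s t 253 509 1 = true := ex3_a s43_pm_102_s k25_pm_102_s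

theorem s45_pm_102_s : ∃ t, chk3 f_pm_102_s t 253 254 1 = true := ex3_b k21_pm_102_s s44_pm_102_s

theorem s46_pm_102_s : ∃ t, chk3 f_pm_102_s t 126 254 1 = true := ex3_a k20_pm_102_s s45_pm_102_s

theorem s47_pm_102_s : ∃ t, chk3 f_pm_102_s t 126 127 1 = true := ex3_b s46_pm_102_s s41_pm_102_s

theorem s48_pm_102_s : ∃ t, chk3 f_pm_102_s t 63 127 1 = true := ex3_a s47_pm_102_s k34_pm_102_s

theorem s49_pm_102_s : ∃ t, chk3 f_pm_102_s t 126 253 1 = true := ex3_a k17_pm_102_s k18_pm_102_s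

theorem s50_pm_102_s : ∃ t, chk3 f_pm_102_s t 63 253 1 = true := ex3_a s49_pm_102_s k19_pm_102_s

theorem s51_pm_102_s : ∃ t, chk3 f_pm_102_s t 63 126 1 = true := ex3_b k16_pm_102_s s50_pm_102_s

theorem s52_pm_102_s : ∃ t, chk3 f_pm_102_s t 63 63 1 = true := ex3_b s51_pm_102_s s48_pm_102_s

theorem s53_pm_102_s : ∃ t, chk3 f_pm_102_s t 31 63 1 = true := ex3_a k15_pm_102_s s52_pm_102_s

theorem s54_pm_102_s : ∃ t, chk3 f_pm_102_s t 125 125 1 = true := ex3_a k12_pm_102_s k13_pm_102_s

theorem s55_pm_102_s : ∃ t, chk3 f_pm_102_s t 62 125 1 = true := ex3_a k11_pm_102_s s54_pm_102_s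

theorem s56_pm_102_s : ∃ t, chk3 f_pm_102_s t 31 125 1 = true := ex3_a s55_pm_102_s k14_pm_102_s

theorem s57_pm_102_s : ∃ t, chk3 f_pm_102_s t 31 62 1 = true := ex3_b k10_pm_102_s s56_pm_102_s

theorem s58_pm_102_s : ∃ t, chk3 f_pm_102_s t 31 31 1 = true := ex3_b s57_pm_102_s s53_pm_102_s

theorem s59_pm_102_s : ∃ t, chk3 f_pm_102_s t 31 15 1 = true := ex3_b k9_pm_102_s s58_pm_102_s

theorem s60_pm_102_s : ∃ t, chk3 f_pm_102_s t 30 30 1 = true := ex3_a k6_pm_102_s k7_pm_102_s

theorem s61_pm_102_s : ∃ t, chk3 f_pm_102_s t 30 15 1 = true := ex3_b s60_pm_102_s k8_pm_102_s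

theorem s62_pm_102_s : ∃ t, chk3 f_pm_102_s t 15 15 1 = true := ex3_a s61_pm_102_s s59_pm_102_s

theorem s63_pm_102_s : ∃ t, chk3 f_pm_102_s t 15 7 1 = true := ex3_b k5_pm_102_s s62_pm_102_s

theorem s64_pm_102_s : ∃ t, chk3 f_pm_102_s t 7 7 1 = true := ex3_a k4_pm_102_s s63_pm_102_s

theorem s65_pm_102_s : ∃ t, chk3 f_pm_102_s t 7 3 1 = true := ex3_b k3_pm_102_s s64_pm_102_s

theorem s66_pm_102_s : ∃ t, chk3 f_pm_102_s t 3 3 1 = true := ex3_a k2_pm_102_s s65_pm_102_s

theorem s67_pm_102_s : ∃ t, chk3 f_pm_102_s t 3 1 1 = true := ex3_b k1_pm_102_s s66_pm_102_s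

theorem s68_pm_102_s : ∃ t, chk3 f_pm_102_s t 1 1 1 = true := ex3_a k0_pm_102_s s67_pm_102_s

theorem c_pm_102_s : CertNE 536870912 536870912 0 536870912 1033476505 6710887 3 eng mog cd0q1 cd0q2 pd0 false true false .npp 1 0 2
    ndB0q1 ndB0q2 pcB0 cut_pm_102_s Ext.none :=
  certNE0 (fam := false) (s1 := true) (s2 := false) (a := 1) (b := 0) (c := 2) (cn := .npp) (n1 := ndB0q1) (n2 := ndB0q2) (pc := pcB0) (cut := cut_pm_102_s) (xt := Ext.none) (P1 := 536870912) (W1 := 536870912) (P2 := 0) (W2 := 536870912) (P3 := 1033476505) (W3 := 6710887) (N0 := 3) (En := eng) (mo := mog) (C1 := cd0q1) (C2 := cd0q2) (C3 := pd0)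
    rfl s68_pm_102_s

noncomputable def cut_pm_102_t : Cut := Cut.of [[⟨3, 0, 0, 2845415833⟩], [⟨0, 1, 0, 11184810⟩, ⟨1, 0, 0, 11184810⟩, ⟨2, 1, 0, 11184810⟩], [⟨0, 0, 1, 46137344⟩, ⟨1, 1, 2, 46137344⟩, ⟨2, 1, 0, 1048576⟩, ⟨0, 0, 0, 1047972020⟩, ⟨0, 1, 0, 45097156⟩, ⟨1, 0, 0, 45097156⟩, ⟨1, 1, 0, 1047972020⟩]]

noncomputable def f_pm_102_t : ℕ → ℕ → ℕ → ℕ → Bool := onCell 536870912 536870912 0 536870912 1033476505 6710887
    (rowNE 3 eng mog cd0q1 cd0q2 pd0 0 false true false .npp 1 0 2 (qsf 536870912 536870912 0 536870912 0) ndB0q1 ndB0q2 pcB0 cut_pm_102_t Ext.none)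

def k0_pm_102_t : ∃ t, chk3 f_pm_102_t t 1 1 1 = true :=
  ⟨(l 6), by decide +kernel⟩

theorem c_pm_102_t : CertNE 536870912 536870912 0 536870912 1033476505 6710887 3 eng mog cd0q1 cd0q2 pd0 false true false .npp 1 0 2
    ndB0q1 ndB0q2 pcB0 cut_pm_102_t Ext.none :=
  certNE0 (fam := false) (s1 := true) (s2 := false) (a := 1) (b := 0) (c := 2) (cn := .npp) (n1 := ndB0q1) (n2 := ndB0q2) (pc := pcB0) (cut := cut_pm_102_t) (xt := Ext.none) (P1 := 536870912) (W1 := 536870912) (P2 := 0) (W2 := 536870912) (P3 := 1033476505) (W3 := 6710887) (N0 := 3) (En := eng) (mo := mog) (C1 := cd0q1) (C2 := cd0q2) (C3 := pd0)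
    rfl k0_pm_102_t

noncomputable def cut_pm_112_s : Cut := Cut.of [[⟨4, 0, 0, 1449551462⟩]]

noncomputable def f_pm_112_s : ℕ → ℕ → ℕ → ℕ → Bool := onCell 536870912 536870912 0 536870912 1033476505 6710887
    (rowNE 3 eng mog cd0q1 cd0q2 pd1 2 false true false .dn 1 1 2 (qsf 536870912 536870912 0 536870912 1) ndB0q1 ndB0q2 pcB1 cut_pm_112_s Ext.none)

def k0_pm_112_s : ∃ t, chk3 f_pm_112_s t 4 2 1 = true :=
  ⟨(a (a (b (b (b (l 3) (a (l 16684912) (b (l 16758496) (a (l 16714880) (l 16657104))))) (b (a (b (a (l 16689000) (l 16647320)) (a (l 16583184) (l 16486608))) (b (a (l 16601200) (l 16509432)) (l 16351216))) (a (l 15999840) (l 15937568)))) (b (b (a (b (l 15878776) (l 15653896)) (b (l 15727976) (b (a (l 15601496) (l 15541728)) (a (l 15490944) (l 15514616))))) (a (b (b (a (l 15518976) (b (a (l 15493664) (l 15478016)) (l 15475944))) (a (b (a (l 15460704) (l 15460184)) (l 15462368)) (l 15490560))) (l 15514936)) (l 15557928))) (b (l 15631664) (l 15744312)))) (b (b (b (a (l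 16727224) (b (l 16758760) (a (l 16763120) (l 16713424)))) (a (b (a (l 16739520) (l 16686040)) (a (l 16616856) (l 16530016))) (b (l 16525920) (l 16409504)))) (b (a (l 16180024) (l 16116800)) (a (l 15875192) (b (l 15863864) (a (l 15706376) (b (l 15698008) (l 15591976))))))) (b (b (a (b (b (l 15648648) (a (l 15577360) (b (l 15555768) (l 15545248)))) (a (l 15523200) (l 15571264))) (b (b (a (l 15561080) (l 15592008)) (l 15591080)) (l 15628208))) (l 15663920)) (l 15686928)))) (b (a (b (b (a (b (a (l 16764856) (l 16718512)) (l 16582000)) (b (l 16615480) (l 16460248))) (a (l 16309392) (l 16224792))) (b (a (l 16011864) (l 15907336)) (a (b (l 15753376) (a (b (l 15648160) (l 15613880)) (l 15625952))) (b (b (a (l 15727872) (l 15676688)) (a (l 15645616) (l 15685256))) (l 15695248))))) (b (a (b (l 16389992) (l 16119568)) (l 15918560)) (b (a (b (l 15898560) (b (l 15788792) (a (l 15732136) (l 15736680)))) (b (a (l 15846008) (l 15824904)) (a (l 15751656) (l 15803704)))) (a (l 15761776) (l 15840848)))))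 (b (a (l 15639568) (l 15853976)) (a (l 6) (l 6))))), by decide +kernel⟩

def k1_pm_112_s : ∃ t, chk3 f_pm_112_s t 5 2 1 = true :=
  ⟨(a (b (b (a (b (a (l 16221136) (l 16157928)) (a (b (l 16035464) (l 15909664)) (b (l 15987600) (b (l 15917216) (l 15905264))))) (l 1)) (a (a (b (b (b (l 15826656) (l 15843592)) (l 15869536)) (l 15924912)) (l 15975168)) (l 1))) (b (a (l 16026920) (l 1)) (l 6))) (l 1)), by decide +kernel⟩

def k2_pm_112_s : ∃ t, chk3 f_pm_112_s t 2 3 1 = true :=
  ⟨(b (a (l 6) (l 1)) (l 6)), by decide +kernel⟩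

def k3_pm_112_s : ∃ t, chk3 f_pm_112_s t 3 1 1 = true :=
  ⟨(l 1), by decide +kernel⟩

theorem s4_pm_112_s : ∃ t, chk3 f_pm_112_s t 2 2 1 = true := ex3_a k0_pm_112_s k1_pm_112_s

theorem s5_pm_112_s : ∃ t, chk3 f_pm_112_s t 2 1 1 = true := ex3_b s4_pm_112_s k2_pm_112_s

theorem s6_pm_112_s : ∃ t, chk3 f_pm_112_s t 1 1 1 = true := ex3_a s5_pm_112_s k3_pm_112_s

theorem c_pm_112_s : CertNE 536870912 536870912 0 536870912 1033476505 6710887 3 eng mog cd0q1 cd0q2 pd1 false true false .dn 1 1 2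
    ndB0q1 ndB0q2 pcB1 cut_pm_112_s Ext.none :=
  certNE2 (fam := false) (s1 := true) (s2 := false) (a := 1) (b := 1) (c := 2) (cn := .dn) (n1 := ndB0q1) (n2 := ndB0q2) (pc := pcB1) (cut := cut_pm_112_s) (xt := Ext.none) (P1 := 536870912) (W1 := 536870912) (P2 := 0) (W2 := 536870912) (P3 := 1033476505) (W3 := 6710887) (N0 := 3) (En := eng) (mo := mog) (C1 := cd0q1) (C2 := cd0q2) (C3 := pd1)
    rfl (fun _ => rfl) s6_pm_112_s

noncomputable def cut_pm_112_t : Cut := Cut.of [[⟨3, 0, 0, 2845415833⟩]]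

noncomputable def f_pm_112_t : ℕ → ℕ → ℕ → ℕ → Bool := onCell 536870912 536870912 0 536870912 1033476505 6710887
    (rowNE 3 eng mog cd0q1 cd0q2 pd1 0 false true false .dn 1 1 2 (qsf 536870912 536870912 0 536870912 1) ndB0q1 ndB0q2 pcB1 cut_pm_112_t Ext.none)

def k0_pm_112_t : ∃ t, chk3 f_pm_112_t t 1 1 1 = true :=
  ⟨(l 6), by decide +kernel⟩

theorem c_pm_112_t : CertNE 536870912 536870912 0 536870912 1033476505 6710887 3 eng mog cd0q1 cd0q2 pd1 false true false .dn 1 1 2
    ndB0q1 ndB0q2 pcB1 cut_pm_112_t Ext.none :=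
  certNE0 (fam := false) (s1 := true) (s2 := false) (a := 1) (b := 1) (c := 2) (cn := .dn) (n1 := ndB0q1) (n2 := ndB0q2) (pc := pcB1) (cut := cut_pm_112_t) (xt := Ext.none) (P1 := 536870912) (W1 := 536870912) (P2 := 0) (W2 := 536870912) (P3 := 1033476505) (W3 := 6710887) (N0 := 3) (En := eng) (mo := mog) (C1 := cd0q1) (C2 := cd0q2) (C3 := pd1)
    rfl k0_pm_112_t

noncomputable def cut_pm_202_s : Cut := Cut.of [[⟨4, 0, 0, 1449551462⟩], [⟨0, 1, 0, 33554432⟩, ⟨1, 0, 0, 33554432⟩, ⟨2, 1, 0, 33554432⟩], [⟨0, 0, 1, 46137344⟩, ⟨1, 1, 2, 46137344⟩, ⟨2, 1, 0, 1048576⟩, ⟨0, 0, 0, 1047972020⟩, ⟨0, 1, 0, 45097156⟩, ⟨1, 0, 0, 45097156⟩, ⟨1, 1, 0, 1047972020⟩]]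

noncomputable def f_pm_202_s : ℕ → ℕ → ℕ → ℕ → Bool := onCell 0 536870912 0 536870912 1033476505 6710887
    (rowNE 3 eng mog cd0q2 cd0q2 pd0 0 false true false .pp 2 0 2 (qsf 0 536870912 0 536870912 0) ndB0q2 ndB0q2 pcB0 cut_pm_202_s Ext.none)

def k0_pm_202_s : ∃ t, chk3 f_pm_202_s t 1 1 1 = true :=
  ⟨(a (l 3) (b (l 3) (a (l 3) (b (l 3) (a (l 3) (b (l 3) (b (l 3) (a (l 3) (l 14))))))))), by decide +kernel⟩

theorem c_pm_202_s : CertNE 0 536870912 0 536870912 1033476505 6710887 3 eng mog cd0q2 cd0q2 pd0 false true false .pp 2 0 2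
    ndB0q2 ndB0q2 pcB0 cut_pm_202_s Ext.none :=
  certNE0 (fam := false) (s1 := true) (s2 := false) (a := 2) (b := 0) (c := 2) (cn := .pp) (n1 := ndB0q2) (n2 := ndB0q2) (pc := pcB0) (cut := cut_pm_202_s) (xt := Ext.none) (P1 := 0) (W1 := 536870912) (P2 := 0) (W2 := 536870912) (P3 := 1033476505) (W3 := 6710887) (N0 := 3) (En := eng) (mo := mog) (C1 := cd0q2) (C2 := cd0q2) (C3 := pd0)
    rfl k0_pm_202_s

noncomputable def cut_pm_202_t : Cut := Cut.of [[⟨3, 0, 0, 2845415833⟩], [⟨0, 1, 0, 33554432⟩, ⟨1, 0, 0, 33554432⟩, ⟨2, 1, 0, 33554432⟩], [⟨0, 0, 1, 46137344⟩, ⟨1, 1, 2, 46137344⟩, ⟨2, 1, 0, 1048576⟩, ⟨0, 0, 0, 1047972020⟩, ⟨0, 1, 0, 45097156⟩, ⟨1, 0, 0, 45097156⟩, ⟨1, 1, 0, 1047972020⟩]]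

noncomputable def f_pm_202_t : ℕ → ℕ → ℕ → ℕ → Bool := onCell 0 536870912 0 536870912 1033476505 6710887
    (rowNE 3 eng mog cd0q2 cd0q2 pd0 0 false true false .pp 2 0 2 (qsf 0 536870912 0 536870912 0) ndB0q2 ndB0q2 pcB0 cut_pm_202_t Ext.none)

def k0_pm_202_t : ∃ t, chk3 f_pm_202_t t 1 1 1 = true :=
  ⟨(l 6), by decide +kernel⟩

theorem c_pm_202_t : CertNE 0 536870912 0 536870912 1033476505 6710887 3 eng mog cd0q2 cd0q2 pd0 false true false .pp 2 0 2
    ndB0q2 ndB0q2 pcB0 cut_pm_202_t Ext.none :=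
  certNE0 (fam := false) (s1 := true) (s2 := false) (a := 2) (b := 0) (c := 2) (cn := .pp) (n1 := ndB0q2) (n2 := ndB0q2) (pc := pcB0) (cut := cut_pm_202_t) (xt := Ext.none) (P1 := 0) (W1 := 536870912) (P2 := 0) (W2 := 536870912) (P3 := 1033476505) (W3 := 6710887) (N0 := 3) (En := eng) (mo := mog) (C1 := cd0q2) (C2 := cd0q2) (C3 := pd0)
    rfl k0_pm_202_t

noncomputable def cut_mm_001_s : Cut := Cut.of [[⟨4, 0, 0, 1449551462⟩]]

noncomputable def f_mm_001_s : ℕ → ℕ → ℕ → ℕ → Bool := onCell 0 536870912 0 536870912 1033476505 6710887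
    (rowNE 3 eng mog cd0q0 cd0q1 pd0 1 false false false .up 0 0 1 (qsf 0 536870912 536870912 536870912 0) ndB0q0 ndB0q1 pcB0 cut_mm_001_s Ext.none)

def k0_mm_001_s : ∃ t, chk3 f_mm_001_s t 1 1 1 = true :=
  ⟨(l 3), by decide +kernel⟩

theorem c_mm_001_s : CertNE 0 536870912 536870912 536870912 1033476505 6710887 3 eng mog cd0q0 cd0q1 pd0 false false false .up 0 0 1
    ndB0q0 ndB0q1 pcB0 cut_mm_001_s Ext.none :=
  certNE1 (fam := false) (s1 := false) (s2 := false) (a := 0) (b := 0) (c := 1) (cn := .up) (n1 := ndB0q0) (n2 := ndB0q1) (pc := pcB0) (cut := cut_mm_001_s) (xt := Ext.none) (P1 := 0) (W1 := 536870912) (P2 := 536870912) (W2 := 536870912) (P3 := 1033476505) (W3 := 6710887) (N0 := 3) (En := eng) (mo := mog) (C1 := cd0q0) (C2 := cd0q1) (C3 := pd0)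
    rfl (fun _ => rfl) k0_mm_001_s

noncomputable def cut_mm_001_t : Cut := Cut.of [[⟨3, 0, 0, 2845415833⟩]]

noncomputable def f_mm_001_t : ℕ → ℕ → ℕ → ℕ → Bool := onCell 0 536870912 536870912 536870912 1033476505 6710887
    (rowNE 3 eng mog cd0q0 cd0q1 pd0 0 false false false .up 0 0 1 (qsf 0 536870912 536870912 536870912 0) ndB0q0 ndB0q1 pcB0 cut_mm_001_t Ext.none)

def k0_mm_001_t : ∃ t, chk3 f_mm_001_t t 1 1 1 = true :=
  ⟨(l 6), by decide +kernel⟩

theorem c_mm_001_t : CertNE 0 536870912 536870912 536870912 1033476505 6710887 3 eng mog cd0q0 cd0q1 pd0 false false false .up 0 0 1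
    ndB0q0 ndB0q1 pcB0 cut_mm_001_t Ext.none :=
  certNE0 (fam := false) (s1 := false) (s2 := false) (a := 0) (b := 0) (c := 1) (cn := .up) (n1 := ndB0q0) (n2 := ndB0q1) (pc := pcB0) (cut := cut_mm_001_t) (xt := Ext.none) (P1 := 0) (W1 := 536870912) (P2 := 536870912) (W2 := 536870912) (P3 := 1033476505) (W3 := 6710887) (N0 := 3) (En := eng) (mo := mog) (C1 := cd0q0) (C2 := cd0q1) (C3 := pd0)
    rfl k0_mm_001_t

noncomputable def cut_mm_011_s : Cut := Cut.of [[⟨4, 0, 0, 1449551462⟩]]

noncomputable def f_mm_011_s : ℕ → ℕ → ℕ → ℕ → Bool := onCell 0 536870912 536870912 536870912 1033476505 6710887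
    (rowNE 3 eng mog cd0q0 cd0q1 pd1 1 false false false .pnn 0 1 1 (qsf 0 536870912 536870912 536870912 1) ndB0q0 ndB0q1 pcB1 cut_mm_011_s Ext.none)

def k0_mm_011_s : ∃ t, chk3 f_mm_011_s t 1 1 1 = true :=
  ⟨(l 5), by decide +kernel⟩

theorem c_mm_011_s : CertNE 0 536870912 536870912 536870912 1033476505 6710887 3 eng mog cd0q0 cd0q1 pd1 false false false .pnn 0 1 1
    ndB0q0 ndB0q1 pcB1 cut_mm_011_s Ext.none :=
  certNE1 (fam := false) (s1 := false) (s2 := false) (a := 0) (b := 1) (c := 1) (cn := .pnn) (n1 := ndB0q0) (n2 := ndB0q1) (pc := pcB1) (cut := cut_mm_011_s) (xt := Ext.none) (P1 := 0) (W1 := 536870912) (P2 := 536870912) (W2 := 536870912) (P3 := 1033476505) (W3 := 6710887) (N0 := 3) (En := eng) (mo := mog) (C1 := cd0q0) (C2 := cd0q1) (C3 := pd1)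
    rfl (fun _ => rfl) k0_mm_011_s

noncomputable def cut_mm_011_t : Cut := Cut.of [[⟨3, 0, 0, 2845415833⟩]]

noncomputable def f_mm_011_t : ℕ → ℕ → ℕ → ℕ → Bool := onCell 0 536870912 536870912 536870912 1033476505 6710887
    (rowNE 3 eng mog cd0q0 cd0q1 pd1 0 false false false .pnn 0 1 1 (qsf 0 536870912 536870912 536870912 1) ndB0q0 ndB0q1 pcB1 cut_mm_011_t Ext.none)

def k0_mm_011_t : ∃ t, chk3 f_mm_011_t t 1 1 1 = true :=
  ⟨(l 6), by decide +kernel⟩

theorem c_mm_011_t : CertNE 0 536870912 536870912 536870912 1033476505 6710887 3 eng mog cd0q0 cd0q1 pd1 false false false .pnn 0 1 1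
    ndB0q0 ndB0q1 pcB1 cut_mm_011_t Ext.none :=
  certNE0 (fam := false) (s1 := false) (s2 := false) (a := 0) (b := 1) (c := 1) (cn := .pnn) (n1 := ndB0q0) (n2 := ndB0q1) (pc := pcB1) (cut := cut_mm_011_t) (xt := Ext.none) (P1 := 0) (W1 := 536870912) (P2 := 536870912) (W2 := 536870912) (P3 := 1033476505) (W3 := 6710887) (N0 := 3) (En := eng) (mo := mog) (C1 := cd0q0) (C2 := cd0q1) (C3 := pd1)
    rfl k0_mm_011_t

noncomputable def cut_mm_012_s : Cut := Cut.of [[⟨4, 0, 0, 1449551462⟩]]

noncomputable def f_mm_012_s : ℕ → ℕ → ℕ → ℕ → Bool := onCell 0 536870912 0 536870912 1033476505 6710887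
    (rowNE 3 eng mog cd0q0 cd0q2 pd1 0 false false false .pnp 0 1 2 (qsf 0 536870912 0 536870912 1) ndB0q0 ndB0q2 pcB1 cut_mm_012_s Ext.none)

def k0_mm_012_s : ∃ t, chk3 f_mm_012_s t 1 1 1 = true :=
  ⟨(l 5), by decide +kernel⟩

theorem c_mm_012_s : CertNE 0 536870912 0 536870912 1033476505 6710887 3 eng mog cd0q0 cd0q2 pd1 false false false .pnp 0 1 2
    ndB0q0 ndB0q2 pcB1 cut_mm_012_s Ext.none :=
  certNE0 (fam := false) (s1 := false) (s2 := false) (a := 0) (b := 1) (c := 2) (cn := .pnp) (n1 := ndB0q0) (n2 := ndB0q2) (pc := pcB1) (cut := cut_mm_012_s) (xt := Ext.none) (P1 := 0) (W1 := 536870912) (P2 := 0) (W2 := 536870912) (P3 := 1033476505) (W3 := 6710887) (N0 := 3) (En := eng) (mo := mog) (C1 := cd0q0) (C2 := cd0q2) (C3 := pd1)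
    rfl k0_mm_012_s

noncomputable def cut_mm_012_t : Cut := Cut.of [[⟨3, 0, 0, 2845415833⟩]]

noncomputable def f_mm_012_t : ℕ → ℕ → ℕ → ℕ → Bool := onCell 0 536870912 0 536870912 1033476505 6710887
    (rowNE 3 eng mog cd0q0 cd0q2 pd1 0 false false false .pnp 0 1 2 (qsf 0 536870912 0 536870912 1) ndB0q0 ndB0q2 pcB1 cut_mm_012_t Ext.none)

def k0_mm_012_t : ∃ t, chk3 f_mm_012_t t 1 1 1 = true :=
  ⟨(l 5), by decide +kernel⟩

theorem c_mm_012_t : CertNE 0 536870912 0 536870912 1033476505 6710887 3 eng mog cd0q0 cd0q2 pd1 false false false .pnp 0 1 2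
    ndB0q0 ndB0q2 pcB1 cut_mm_012_t Ext.none :=
  certNE0 (fam := false) (s1 := false) (s2 := false) (a := 0) (b := 1) (c := 2) (cn := .pnp) (n1 := ndB0q0) (n2 := ndB0q2) (pc := pcB1) (cut := cut_mm_012_t) (xt := Ext.none) (P1 := 0) (W1 := 536870912) (P2 := 0) (W2 := 536870912) (P3 := 1033476505) (W3 := 6710887) (N0 := 3) (En := eng) (mo := mog) (C1 := cd0q0) (C2 := cd0q2) (C3 := pd1)
    rfl k0_mm_012_t

noncomputable def cut_mm_022_s : Cut := Cut.of [[⟨4, 0, 0, 1449551462⟩]]

noncomputable def f_mm_022_s : ℕ → ℕ → ℕ → ℕ → Bool := onCell 0 536870912 0 536870912 1033476505 6710887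
    (rowNE 3 eng mog cd0q0 cd0q2 pd2 0 false false false .pp 0 2 2 (qsf 0 536870912 0 536870912 2) ndB0q0 ndB0q2 pcB2 cut_mm_022_s Ext.none)

def k0_mm_022_s : ∃ t, chk3 f_mm_022_s t 1 1 1 = true :=
  ⟨(l 5), by decide +kernel⟩

theorem c_mm_022_s : CertNE 0 536870912 0 536870912 1033476505 6710887 3 eng mog cd0q0 cd0q2 pd2 false false false .pp 0 2 2
    ndB0q0 ndB0q2 pcB2 cut_mm_022_s Ext.none :=
  certNE0 (fam := false) (s1 := false) (s2 := false) (a := 0) (b := 2) (c := 2) (cn := .pp) (n1 := ndB0q0) (n2 := ndB0q2) (pc := pcB2) (cut := cut_mm_022_s) (xt := Ext.none) (P1 := 0) (W1 := 536870912) (P2 := 0) (W2 := 536870912) (P3 := 1033476505) (W3 := 6710887) (N0 := 3) (En := eng) (mo := mog) (C1 := cd0q0) (C2 := cd0q2) (C3 := pd2)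
    rfl k0_mm_022_s

noncomputable def cut_mm_022_t : Cut := Cut.of [[⟨3, 0, 0, 2845415833⟩]]

noncomputable def f_mm_022_t : ℕ → ℕ → ℕ → ℕ → Bool := onCell 0 536870912 0 536870912 1033476505 6710887
    (rowNE 3 eng mog cd0q0 cd0q2 pd2 0 false false false .pp 0 2 2 (qsf 0 536870912 0 536870912 2) ndB0q0 ndB0q2 pcB2 cut_mm_022_t Ext.none)

def k0_mm_022_t : ∃ t, chk3 f_mm_022_t t 1 1 1 = true :=
  ⟨(l 5), by decide +kernel⟩

theorem c_mm_022_t : CertNE 0 536870912 0 536870912 1033476505 6710887 3 eng mog cd0q0 cd0q2 pd2 false false false .pp 0 2 2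
    ndB0q0 ndB0q2 pcB2 cut_mm_022_t Ext.none :=
  certNE0 (fam := false) (s1 := false) (s2 := false) (a := 0) (b := 2) (c := 2) (cn := .pp) (n1 := ndB0q0) (n2 := ndB0q2) (pc := pcB2) (cut := cut_mm_022_t) (xt := Ext.none) (P1 := 0) (W1 := 536870912) (P2 := 0) (W2 := 536870912) (P3 := 1033476505) (W3 := 6710887) (N0 := 3) (En := eng) (mo := mog) (C1 := cd0q0) (C2 := cd0q2) (C3 := pd2)
    rfl k0_mm_022_t

noncomputable def cut_mm_101_s : Cut := Cut.of [[⟨4, 0, 0, 1449551462⟩]]

noncomputable def f_mm_101_s : ℕ → ℕ → ℕ → ℕ → Bool := onCell 536870912 536870912 536870912 536870912 1033476505 6710887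
    (rowNE 3 eng mog cd0q1 cd0q1 pd0 0 false false false .npn 1 0 1 (qsf 536870912 536870912 536870912 536870912 0) ndB0q1 ndB0q1 pcB0 cut_mm_101_s Ext.none)

def k0_mm_101_s : ∃ t, chk3 f_mm_101_s t 1 1 1 = true :=
  ⟨(l 3), by decide +kernel⟩

theorem c_mm_101_s : CertNE 536870912 536870912 536870912 536870912 1033476505 6710887 3 eng mog cd0q1 cd0q1 pd0 false false false .npn 1 0 1
    ndB0q1 ndB0q1 pcB0 cut_mm_101_s Ext.none :=
  certNE0 (fam := false) (s1 := false) (s2 := false) (a := 1) (b := 0) (c := 1) (cn := .npn) (n1 := ndB0q1) (n2 := ndB0q1) (pc := pcB0) (cut := cut_mm_101_s) (xt := Ext.none) (P1 := 536870912) (W1 := 536870912) (P2 := 536870912) (W2 := 536870912) (P3 := 1033476505) (W3 := 6710887) (N0 := 3) (En := eng) (mo := mog) (C1 := cd0q1) (C2 := cd0q1) (C3 := pd0)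
    rfl k0_mm_101_s

noncomputable def cut_mm_101_t : Cut := Cut.of [[⟨3, 0, 0, 2845415833⟩]]

noncomputable def f_mm_101_t : ℕ → ℕ → ℕ → ℕ → Bool := onCell 536870912 536870912 536870912 536870912 1033476505 6710887
    (rowNE 3 eng mog cd0q1 cd0q1 pd0 0 false false false .npn 1 0 1 (qsf 536870912 536870912 536870912 536870912 0) ndB0q1 ndB0q1 pcB0 cut_mm_101_t Ext.none)

def k0_mm_101_t : ∃ t, chk3 f_mm_101_t t 1 1 1 = true :=
  ⟨(l 3), by decide +kernel⟩

theorem c_mm_101_t : CertNE 536870912 536870912 536870912 536870912 1033476505 6710887 3 eng mog cd0q1 cd0q1 pd0 false false false .npn 1 0 1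
    ndB0q1 ndB0q1 pcB0 cut_mm_101_t Ext.none :=
  certNE0 (fam := false) (s1 := false) (s2 := false) (a := 1) (b := 0) (c := 1) (cn := .npn) (n1 := ndB0q1) (n2 := ndB0q1) (pc := pcB0) (cut := cut_mm_101_t) (xt := Ext.none) (P1 := 536870912) (W1 := 536870912) (P2 := 536870912) (W2 := 536870912) (P3 := 1033476505) (W3 := 6710887) (N0 := 3) (En := eng) (mo := mog) (C1 := cd0q1) (C2 := cd0q1) (C3 := pd0)
    rfl k0_mm_101_t

noncomputable def cut_mm_102_s : Cut := Cut.of [[⟨4, 0, 0, 1449551462⟩]]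

noncomputable def f_mm_102_s : ℕ → ℕ → ℕ → ℕ → Bool := onCell 536870912 536870912 0 536870912 1033476505 6710887
    (rowNE 3 eng mog cd0q1 cd0q2 pd0 0 false false false .npp 1 0 2 (qsf 536870912 536870912 0 536870912 0) ndB0q1 ndB0q2 pcB0 cut_mm_102_s Ext.none)

def k0_mm_102_s : ∃ t, chk3 f_mm_102_s t 1 1 1 = true :=
  ⟨(a (l 5) (l 3)), by decide +kernel⟩

theorem c_mm_102_s : CertNE 536870912 536870912 0 536870912 1033476505 6710887 3 eng mog cd0q1 cd0q2 pd0 false false false .npp 1 0 2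
    ndB0q1 ndB0q2 pcB0 cut_mm_102_s Ext.none :=
  certNE0 (fam := false) (s1 := false) (s2 := false) (a := 1) (b := 0) (c := 2) (cn := .npp) (n1 := ndB0q1) (n2 := ndB0q2) (pc := pcB0) (cut := cut_mm_102_s) (xt := Ext.none) (P1 := 536870912) (W1 := 536870912) (P2 := 0) (W2 := 536870912) (P3 := 1033476505) (W3 := 6710887) (N0 := 3) (En := eng) (mo := mog) (C1 := cd0q1) (C2 := cd0q2) (C3 := pd0)
    rfl k0_mm_102_s

noncomputable def cut_mm_102_t : Cut := Cut.of [[⟨3, 0, 0, 2845415833⟩]]

noncomputable def f_mm_102_t : ℕ → ℕ → ℕ → ℕ → Bool := onCell 536870912 536870912 0 536870912 1033476505 6710887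
    (rowNE 3 eng mog cd0q1 cd0q2 pd0 0 false false false .npp 1 0 2 (qsf 536870912 536870912 0 536870912 0) ndB0q1 ndB0q2 pcB0 cut_mm_102_t Ext.none)

def k0_mm_102_t : ∃ t, chk3 f_mm_102_t t 1 1 1 = true :=
  ⟨(l 6), by decide +kernel⟩

theorem c_mm_102_t : CertNE 536870912 536870912 0 536870912 1033476505 6710887 3 eng mog cd0q1 cd0q2 pd0 false false false .npp 1 0 2
    ndB0q1 ndB0q2 pcB0 cut_mm_102_t Ext.none :=
  certNE0 (fam := false) (s1 := false) (s2 := false) (a := 1) (b := 0) (c := 2) (cn := .npp) (n1 := ndB0q1) (n2 := ndB0q2) (pc := pcB0) (cut := cut_mm_102_t) (xt := Ext.none) (P1 := 536870912) (W1 := 536870912) (P2 := 0) (W2 := 536870912) (P3 := 1033476505) (W3 := 6710887) (N0 := 3) (En := eng) (mo := mog) (C1 := cd0q1) (C2 := cd0q2) (C3 := pd0)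
    rfl k0_mm_102_t

noncomputable def cut_mm_112_s : Cut := Cut.of [[⟨4, 0, 0, 1449551462⟩]]

noncomputable def f_mm_112_s : ℕ → ℕ → ℕ → ℕ → Bool := onCell 536870912 536870912 0 536870912 1033476505 6710887
    (rowNE 3 eng mog cd0q1 cd0q2 pd1 2 false false false .dn 1 1 2 (qsf 536870912 536870912 0 536870912 1) ndB0q1 ndB0q2 pcB1 cut_mm_112_s Ext.none)

def k0_mm_112_s : ∃ t, chk3 f_mm_112_s t 1 1 1 = true :=
  ⟨(l 5), by decide +kernel⟩

theorem c_mm_112_s : CertNE 536870912 536870912 0 536870912 1033476505 6710887 3 eng mog cd0q1 cd0q2 pd1 false false false .dn 1 1 2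
    ndB0q1 ndB0q2 pcB1 cut_mm_112_s Ext.none :=
  certNE2 (fam := false) (s1 := false) (s2 := false) (a := 1) (b := 1) (c := 2) (cn := .dn) (n1 := ndB0q1) (n2 := ndB0q2) (pc := pcB1) (cut := cut_mm_112_s) (xt := Ext.none) (P1 := 536870912) (W1 := 536870912) (P2 := 0) (W2 := 536870912) (P3 := 1033476505) (W3 := 6710887) (N0 := 3) (En := eng) (mo := mog) (C1 := cd0q1) (C2 := cd0q2) (C3 := pd1)
    rfl (fun _ => rfl) k0_mm_112_s

noncomputable def cut_mm_112_t : Cut := Cut.of [[⟨3, 0, 0, 2845415833⟩]]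

noncomputable def f_mm_112_t : ℕ → ℕ → ℕ → ℕ → Bool := onCell 536870912 536870912 0 536870912 1033476505 6710887
    (rowNE 3 eng mog cd0q1 cd0q2 pd1 0 false false false .dn 1 1 2 (qsf 536870912 536870912 0 536870912 1) ndB0q1 ndB0q2 pcB1 cut_mm_112_t Ext.none)

def k0_mm_112_t : ∃ t, chk3 f_mm_112_t t 1 1 1 = true :=
  ⟨(l 6), by decide +kernel⟩

theorem c_mm_112_t : CertNE 536870912 536870912 0 536870912 1033476505 6710887 3 eng mog cd0q1 cd0q2 pd1 false false false .dn 1 1 2
    ndB0q1 ndB0q2 pcB1 cut_mm_112_t Ext.none :=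
  certNE0 (fam := false) (s1 := false) (s2 := false) (a := 1) (b := 1) (c := 2) (cn := .dn) (n1 := ndB0q1) (n2 := ndB0q2) (pc := pcB1) (cut := cut_mm_112_t) (xt := Ext.none) (P1 := 536870912) (W1 := 536870912) (P2 := 0) (W2 := 536870912) (P3 := 1033476505) (W3 := 6710887) (N0 := 3) (En := eng) (mo := mog) (C1 := cd0q1) (C2 := cd0q2) (C3 := pd1)
    rfl k0_mm_112_t

noncomputable def cut_mm_202_s : Cut := Cut.of [[⟨4, 0, 0, 1449551462⟩]]

noncomputable def f_mm_202_s : ℕ → ℕ → ℕ → ℕ → Bool := onCell 0 536870912 0 536870912 1033476505 6710887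
    (rowNE 3 eng mog cd0q2 cd0q2 pd0 0 false false false .pp 2 0 2 (qsf 0 536870912 0 536870912 0) ndB0q2 ndB0q2 pcB0 cut_mm_202_s Ext.none)

def k0_mm_202_s : ∃ t, chk3 f_mm_202_s t 1 1 1 = true :=
  ⟨(l 3), by decide +kernel⟩

theorem c_mm_202_s : CertNE 0 536870912 0 536870912 1033476505 6710887 3 eng mog cd0q2 cd0q2 pd0 false false false .pp 2 0 2
    ndB0q2 ndB0q2 pcB0 cut_mm_202_s Ext.none :=
  certNE0 (fam := false) (s1 := false) (s2 := false) (a := 2) (b := 0) (c := 2) (cn := .pp) (n1 := ndB0q2) (n2 := ndB0q2) (pc := pcB0) (cut := cut_mm_202_s) (xt := Ext.none) (P1 := 0) (W1 := 536870912) (P2 := 0) (W2 := 536870912) (P3 := 1033476505) (W3 := 6710887) (N0 := 3) (En := eng) (mo := mog) (C1 := cd0q2) (C2 := cd0q2) (C3 := pd0)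
    rfl k0_mm_202_s

noncomputable def cut_mm_202_t : Cut := Cut.of [[⟨3, 0, 0, 2845415833⟩]]

noncomputable def f_mm_202_t : ℕ → ℕ → ℕ → ℕ → Bool := onCell 0 536870912 0 536870912 1033476505 6710887
    (rowNE 3 eng mog cd0q2 cd0q2 pd0 0 false false false .pp 2 0 2 (qsf 0 536870912 0 536870912 0) ndB0q2 ndB0q2 pcB0 cut_mm_202_t Ext.none)

def k0_mm_202_t : ∃ t, chk3 f_mm_202_t t 1 1 1 = true :=
  ⟨(l 3), by decide +kernel⟩

theorem c_mm_202_t : CertNE 0 536870912 0 536870912 1033476505 6710887 3 eng mog cd0q2 cd0q2 pd0 false false false .pp 2 0 2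
    ndB0q2 ndB0q2 pcB0 cut_mm_202_t Ext.none :=
  certNE0 (fam := false) (s1 := false) (s2 := false) (a := 2) (b := 0) (c := 2) (cn := .pp) (n1 := ndB0q2) (n2 := ndB0q2) (pc := pcB0) (cut := cut_mm_202_t) (xt := Ext.none) (P1 := 0) (W1 := 536870912) (P2 := 0) (W2 := 536870912) (P3 := 1033476505) (W3 := 6710887) (N0 := 3) (En := eng) (mo := mog) (C1 := cd0q2) (C2 := cd0q2) (C3 := pd0)
    rfl k0_mm_202_t

end Pool.Agent.Strip051.G.I9625_9688.Tab.CS.BB00

namespace Pool.Agent.Strip051.G.I9625_9688.Tab.CS.BB05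

open Pool.Agent.Strip051.PB Pool.Agent.Strip051.PB.T
open Pool.Agent.Strip051.G.I9625_9688.Tab

noncomputable def cut_pp_001_s : Cut := Cut.of [[⟨4, 0, 0, 1449551462⟩]]

noncomputable def f_pp_001_s : ℕ → ℕ → ℕ → ℕ → Bool := onCell 0 536870912 0 536870912 1033476505 6710887
    (rowNE 3 eng mog cd0q0 cd5q1 pd0 1 false true true .up 0 0 1 (qsf 0 536870912 536870912 536870912 0) ndB0q0 ndB5q1 pcB0 cut_pp_001_s Ext.none)

def k0_pp_001_s : ∃ t, chk3 f_pp_001_s t 1 1 1 = true :=
  ⟨(l 3), by decide +kernel⟩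

theorem c_pp_001_s : CertNE 0 536870912 536870912 536870912 1033476505 6710887 3 eng mog cd0q0 cd5q1 pd0 false true true .up 0 0 1
    ndB0q0 ndB5q1 pcB0 cut_pp_001_s Ext.none :=
  certNE1 (fam := false) (s1 := true) (s2 := true) (a := 0) (b := 0) (c := 1) (cn := .up) (n1 := ndB0q0) (n2 := ndB5q1) (pc := pcB0) (cut := cut_pp_001_s) (xt := Ext.none) (P1 := 0) (W1 := 536870912) (P2 := 536870912) (W2 := 536870912) (P3 := 1033476505) (W3 := 6710887) (N0 := 3) (En := eng) (mo := mog) (C1 := cd0q0) (C2 := cd5q1) (C3 := pd0)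
    rfl (fun _ => rfl) k0_pp_001_s

noncomputable def cut_pp_011_s : Cut := Cut.of [[⟨4, 0, 0, 1449551462⟩], [⟨0, 0, 0, 33554432⟩, ⟨1, 1, 0, 33554432⟩, ⟨2, 1, 0, 33554432⟩]]

noncomputable def f_pp_011_s : ℕ → ℕ → ℕ → ℕ → Bool := onCell 0 536870912 536870912 536870912 1033476505 6710887
    (rowNE 3 eng mog cd0q0 cd5q1 pd1 1 false true true .pnn 0 1 1 (qsf 0 536870912 536870912 536870912 1) ndB0q0 ndB5q1 pcB1 cut_pp_011_s Ext.none)

def k0_pp_011_s : ∃ t, chk3 f_pp_011_s t 1 1 1 = true :=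
  ⟨(a (b (l 3) (b (l 3) (a (b (l 3) (a (b (l 3) (a (b (l 3) (a (l 14) (l 3))) (l 3))) (l 3))) (l 3)))) (l 3)), by decide +kernel⟩

theorem c_pp_011_s : CertNE 0 536870912 536870912 536870912 1033476505 6710887 3 eng mog cd0q0 cd5q1 pd1 false true true .pnn 0 1 1
    ndB0q0 ndB5q1 pcB1 cut_pp_011_s Ext.none :=
  certNE1 (fam := false) (s1 := true) (s2 := true) (a := 0) (b := 1) (c := 1) (cn := .pnn) (n1 := ndB0q0) (n2 := ndB5q1) (pc := pcB1) (cut := cut_pp_011_s) (xt := Ext.none) (P1 := 0) (W1 := 536870912) (P2 := 536870912) (W2 := 536870912) (P3 := 1033476505) (W3 := 6710887) (N0 := 3) (En := eng) (mo := mog) (C1 := cd0q0) (C2 := cd5q1) (C3 := pd1)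
    rfl (fun _ => rfl) k0_pp_011_s

noncomputable def cut_pp_012_s : Cut := Cut.of [[⟨4, 0, 0, 1449551462⟩], [⟨0, 0, 0, 33554432⟩, ⟨1, 1, 0, 33554432⟩, ⟨2, 1, 0, 33554432⟩]]

noncomputable def f_pp_012_s : ℕ → ℕ → ℕ → ℕ → Bool := onCell 0 536870912 536870912 536870912 1033476505 6710887
    (rowNE 3 eng mog cd0q0 cd5q2 pd1 1 false true true .pnp 0 1 2 (qsf 0 536870912 1073741824 536870912 1) ndB0q0 ndB5q2 pcB1 cut_pp_012_s Ext.none)

def k0_pp_012_s : ∃ t, chk3 f_pp_012_s t 1 1 1 = true :=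
  ⟨(a (b (l 3) (b (l 3) (a (b (l 3) (a (a (a (b (l 1) (b (l 3) (l 14))) (l 3)) (l 3)) (l 3))) (l 3)))) (l 3)), by decide +kernel⟩

theorem c_pp_012_s : CertNE 0 536870912 1073741824 536870912 1033476505 6710887 3 eng mog cd0q0 cd5q2 pd1 false true true .pnp 0 1 2
    ndB0q0 ndB5q2 pcB1 cut_pp_012_s Ext.none :=
  certNE1 (fam := false) (s1 := true) (s2 := true) (a := 0) (b := 1) (c := 2) (cn := .pnp) (n1 := ndB0q0) (n2 := ndB5q2) (pc := pcB1) (cut := cut_pp_012_s) (xt := Ext.none) (P1 := 0) (W1 := 536870912) (P2 := 1073741824) (W2 := 536870912) (P3 := 1033476505) (W3 := 6710887) (N0 := 3) (En := eng) (mo := mog) (C1 := cd0q0) (C2 := cd5q2) (C3 := pd1)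
    rfl (fun _ => rfl) k0_pp_012_s

noncomputable def cut_pp_022_s : Cut := Cut.of [[⟨4, 0, 0, 1449551462⟩], [⟨0, 0, 0, 22369621⟩, ⟨1, 1, 0, 22369621⟩, ⟨2, 1, 0, 22369621⟩]]

noncomputable def f_pp_022_s : ℕ → ℕ → ℕ → ℕ → Bool := onCell 0 536870912 1073741824 536870912 1033476505 6710887
    (rowNE 3 eng mog cd0q0 cd5q2 pd2 1 false true true .pp 0 2 2 (qsf 0 536870912 1073741824 536870912 2) ndB0q0 ndB5q2 pcB2 cut_pp_022_s Ext.none)

def k0_pp_022_s : ∃ t, chk3 f_pp_022_s t 32 64 1 = true :=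
  ⟨(a (l 14) (b (l 14) (a (l 14) (a (b (l 14) (b (l 14) (a (l 14) (b (b (l 14) (c (l 16770824) (l 16768216))) (c (b (l 16766872) (l 16770800)) (l 16766232)))))) (b (l 3) (b (a (a (a (l 14) (l 3)) (l 3)) (l 3)) (b (a (b (b (a (a (b (l 14) (l 16775336)) (a (b (c (l 523616911719) (l 532743717223)) (c (l 16777104) (l 16777104))) (c (l 605221290487) (l 608979386871)))) (l 3)) (a (a (l 16774824) (c (l 344302024503) (l 16776128))) (a (b (c (l 564955972087) (l 575156519415)) (a (c (l 16777096) (l 16777096)) (c (l 501068333399) (l 510195138903)))) (l 3)))) (a (c (l 16772824) (l 16770216)) (a (c (b (l 337322702615) (l 16776112)) (l 291688673543)) (b (a (b (c (l 487646560599) (l 496773366103)) (c (l 16777088) (l 16777088))) (a (c (l 490867786183) (l 499994591687)) (l 3))) (c (l 16775448) (l 16776760)))))) (b (l 3) (b (l 3) (a (b (c (l 809769107751) (l 822117138727)) (a (a (c (l 16777072) (l 16777072)) (c (l 387788571031) (l 395841634711))) (l 3))) (l 3))))) (b (a (c (c (l 16769528) (l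 16772152)) (l 16772160)) (b (a (a (c (l 16776752) (l 16776752)) (b (a (c (l 375440540055) (l 382956732823)) (l 3)) (a (c (l 16777064) (l 16777064)) (c (l 377051152775) (l 384567345543))))) (l 3)) (a (c (l 291151802567) (l 16773792)) (a (a (b (c (l 364166250887) (l 371145572743)) (c (l 16777056) (l 16777056))) (a (c (l 392083538423) (l 400136602103)) (l 3))) (l 3))))) (a (c (l 16770824) (l 16768216)) (a (c (l 16770176) (l 16770184)) (a (c (l 16775080) (l 16773776)) (b (b (a (c (l 308868546983) (l 315310997927)) (l 3)) (a (c (l 16777040) (l 16777040)) (c (l 309942288791) (l 316384739735)))) (c (l 16776712) (l 16776712)))))))))))))), by decide +kernel⟩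

def k1_pp_022_s : ∃ t, chk3 f_pp_022_s t 32 65 1 = true :=
  ⟨(a (a (l 14) (b (l 14) (b (l 16728016) (l 16731776)))) (b (a (b (a (l 14) (b (l 14) (l 16758808))) (a (l 16750456) (l 16747856))) (b (b (a (a (b (b (l 14) (l 16765560)) (a (l 16763456) (l 16761744))) (b (b (l 16769520) (l 16768240)) (l 16766360))) (a (b (c (l 16768864) (l 16766264)) (l 16766328)) (b (b (c (l 16772128) (l 16769512)) (c (l 16768200) (l 16768208))) (c (l 16768888) (l 16766288))))) (a (a (b (l 16762128) (l 16760344)) (b (a (l 16763360) (l 16764512)) (l 16762080))) (b (a (l 16766464) (l 16763768)) (a (a (l 16763360) (l 16764680)) (l 16766560))))) (a (b (l 16758632) (l 16755328)) (b (a (b (a (l 16761520) (l 16762360)) (l 16760176)) (b (l 16764184) (a (l 16761464) (l 16762408)))) (a (l 16757712) (l 16759432)))))) (a (b (a (l 16743744) (l 16747128)) (l 16738896)) (b (a (l 16750432) (l 16743176)) (l 16737792))))), by decide +kernel⟩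

def k2_pp_022_s : ∃ t, chk3 f_pp_022_s t 33 64 1 = true :=
  ⟨(b (l 3) (a (b (l 3) (a (b (l 3) (a (b (l 3) (a (b (l 3) (a (b (l 3) (a (b (a (c (l 16777232) (l 16777232)) (l 3)) (a (c (l 16777032) (l 16777032)) (c (l 16777232) (l 16777232)))) (l 3))) (l 3))) (l 3))) (l 3))) (l 3))) (l 3))), by decide +kernel⟩

def k3_pp_022_s : ∃ t, chk3 f_pp_022_s t 132 520 1 = true :=
  ⟨(a (b (a (b (b (a (a (c (l 16776704) (l 16776704)) (b (a (c (l 16777224) (l 16777224)) (l 3)) (a (c (l 16777016) (l 16777016)) (c (l 16777224) (l 16777224))))) (l 3)) (a (c (l 16773744) (l 16771128)) (a (b (a (c (l 16777216) (l 16777216)) (l 3)) (a (c (l 16777008) (l 16777008)) (c (l 16777216) (l 16777216)))) (l 3)))) (b (a (l 16774400) (a (c (l 16776672) (l 16776680)) (b (a (c (l 16777208) (l 16777208)) (l 3)) (c (a (l 16776992) (l 16777208)) (l 16777248))))) (c (l 16773736) (l 16773080)))) (b (l 3) (a (b (l 3) (a (a (c (l 16777400) (l 16777080)) (b (l 3) (c (l 16777200) (l 16777200)))) (l 3))) (l 3))))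 (b (a (c (l 16772104) (l 16769488)) (a (a (c (l 16771080) (l 16776328)) (a (b (c (l 16777064) (l 16777064)) (l 16773856)) (b (b (l 3) (c (l 16777192) (l 16777192))) (l 16776136)))) (a (b (l 3) (a (c (l 16777056) (l 16777056)) (b (l 3) (c (l 16777184) (l 16777184))))) (l 3)))) (a (c (l 16768192) (l 16762960)) (b (a (l 16774360) (b (a (l 16775472) (c (l 306184192519) (l 312626642151))) (c (l 16776744) (l 16776744)))) (c (l 16773032) (l 16770416)))))) (b (l 3) (a (b (l 3) (a (a (b (l 3) (a (c (l 16777032) (l 16777032)) (b (l 3) (c (l 16777160) (l 16777160))))) (l 3)) (l 3))) (l 3)))), by decide +kernel⟩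

def k4_pp_022_s : ∃ t, chk3 f_pp_022_s t 132 521 1 = true :=
  ⟨(a (b (a (c (l 16766288) (l 16761064)) (c (b (l 16769448) (l 16768184)) (l 16771448))) (a (l 16763824) (c (l 16766304) (l 16761080)))) (b (b (a (a (b (b (a (l 16774136) (a (c (l 16777160) (l 16777160)) (l 3))) (c (l 16776720) (l 16776720))) (c (l 16771024) (l 16765784))) (c (a (b (l 772725015047) (a (l 16777008) (l 160155303943))) (l 903184646551)) (b (l 926806966679) (a (b (l 185388236119) (l 16777008)) (l 911237710087))))) (l 3)) (a (b (a (l 16773000) (b (a (l 16774104) (c (l 142975434103) (l 173040206439))) (c (l 16776696) (l 16776696)))) (c (l 16770368) (l 16770376))) (a (c (b (l 895668453767) (a (c (l 16777064) (l 16777392)) (l 665887703655))) (a (b (l 888689131783) (a (l 16776984) (l 139217338999))) (l 886004777351))) (l 3)))) (a (c (c (l 16768792) (l 16768792)) (l 16768800)) (b (a (b (b (a (l 16774072) (c (l 16777176) (l 16777504))) (c (l 16776664) (l 16776672))) (l 16774896)) (a (b (c (l 630991094407)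 (l 852718780663)) (a (c (l 16776960) (l 16776960)) (c (l 16777160) (l 16777160)))) (c (l 855940006263) (l 862382457207)))) (a (l 16773952) (a (l 16774872) (a (c (l 16776632) (l 16776632)) (b (c (l 16777152) (l 16777152)) (l 16774016))))))))), by decide +kernel⟩

def k5_pp_022_s : ∃ t, chk3 f_pp_022_s t 133 260 1 = true :=
  ⟨(b (l 3) (a (b (l 3) (a (b (l 3) (a (a (b (c (l 571935294071) (l 582135841399)) (c (l 16777016) (l 16777016))) (c (l 837149524311) (l 843591975255))) (l 3))) (l 3))) (l 3))), by decide +kernel⟩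

def k6_pp_022_s : ∃ t, chk3 f_pp_022_s t 132 261 1 = true :=
  ⟨(b (a (b (c (l 16762632) (l 16757416)) (l 16761592)) (b (a (c (l 16766320) (l 16771576)) (c (l 16771392) (l 16768776))) (c (b (l 16765728) (l 16759288)) (l 16765136)))) (a (a (b (l 16756712) (l 16760208)) (b (l 16764424) (l 16762080))) (b (c (l 16762768) (l 16757544)) (l 16760480)))), by decide +kernel⟩

def k7_pp_022_s : ∃ t, chk3 f_pp_022_s t 133 261 1 = true :=
  ⟨(b (a (b (a (a (b (a (l 16774848) (b (c (l 16777008) (l 16777008)) (l 16773832))) (l 16773912)) (a (b (b (c (l 503215817399) (l 512342622903)) (c (l 16776992) (l 16776992))) (l 16774816)) (b (c (l 812990333255) (l 818359042375)) (c (l 16776688) (l 16776688))))) (b (l 3) (a (c (b (l 771651273015) (a (l 16776968) (l 432885727959))) (b (l 783999303991) (a (l 16776968) (l 440938791639)))) (l 3)))) (a (c (l 16768736) (l 16768744)) (b (c (a (l 316384735015) (b (a (l 414095246039) (l 3)) (a (l 16776944) (l 365239993111)))) (a (l 16775064) (a (b (l 468319208055)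 (l 16776944)) (l 749639565591)))) (a (l 16772552) (c (l 16775032) (l 16776344)))))) (b (l 3) (a (b (l 3) (a (a (b (c (l 339470189351) (l 346449511207)) (c (l 16776912) (l 16776912))) (c (b (l 3) (l 328195900183)) (l 729238470903))) (l 3))) (l 3)))) (a (a (b (l 16768888) (l 16769248)) (b (c (l 16768712) (l 16768712)) (l 16768968))) (b (a (b (c (a (l 16776312) (b (a (l 294373032759) (l 3)) (a (l 16776880) (l 282561872679)))) (a (l 16776312) (b (l 716353568999) (a (l 16776880) (l 288467452711))))) (c (l 16773736) (l 16770456))) (b (l 3) (a (b (c (a (l 269676970775) (l 3)) (l 827485847335)) (a (c (l 16776856) (l 16776856)) (c (l 257328939783) (l 234780361543)))) (l 3)))) (a (c (l 16768672) (l 16763440)) (b (a (c (l 16776256) (l 16776256)) (b (c (a (l 215989879607) (l 3)) (l 894057839943)) (c (a (l 16776816) (l 202568106791)) (a (l 16776824) (l 193441301319))))) (c (l 16770400) (l 16770400))))))), by decide +kernel⟩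

def k8_pp_022_s : ∃ t, chk3 f_pp_022_s t 66 131 1 = true :=
  ⟨(a (b (a (b (a (l 16757640) (b (l 16760176) (l 16758464))) (l 16755256)) (b (a (b (l 16762312) (l 16760160)) (l 16763536)) (a (l 16757760) (b (l 16760224) (l 16758536))))) (a (l 16750544) (l 16753712))) (b (b (a (b (a (l 16766968) (l 16769280)) (l 16755408)) (b (c (a (l 16771584) (l 16768640)) (l 16767496)) (c (l 16765200) (l 16759968)))) (a (b (l 16763704) (l 16761488)) (c (l 16761872) (l 16756632)))) (a (b (a (l 16757808) (l 16754224)) (l 16755496)) (b (l 16752376) (a (l 16757816) (l 16759808)))))), by decide +kernel⟩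

def k9_pp_022_s : ∃ t, chk3 f_pp_022_s t 67 130 1 = true :=
  ⟨(b (l 3) (a (b (l 3) (a (b (l 3) (a (b (l 3) (a (a (b (c (l 189146333975) (l 186461979431)) (l 295983642503)) (c (b (l 3) (l 16777184)) (l 887078517655))) (l 3))) (l 3))) (l 3))) (l 3))), by decide +kernel⟩

def k10_pp_022_s : ∃ t, chk3 f_pp_022_s t 134 131 1 = true :=
  ⟨(b (b (a (b (a (a (c (l 16770360) (l 16765112)) (a (b (b (c (l 16777176) (l 16777360)) (l 16774128)) (l 16770632)) (b (b (l 3) (c (l 16777160) (l 16777048))) (l 16775128)))) (b (l 3) (a (b (a (c (l 16777152) (l 16777072)) (l 3)) (a (l 16774088) (c (l 16777136) (l 16777104)))) (l 3)))) (a (c (l 16763360) (l 16763360)) (a (c (l 16770296) (l 16765056)) (b (a (c (l 16776880) (l 16776880)) (b (l 3) (c (l 16777112) (l 16777112)))) (l 16774776))))) (b (l 3) (a (b (l 3) (b (c (l 908553353687) (l 903184641415)) (a (c (l 16776848) (l 16776848)) (l 1065856529095)))) (l 3)))) (a (b (c (l 16768760) (l 16767448)) (c (l 16759976) (l 16759976))) (b (a (b (b (a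 (l 16773712) (a (c (l 16777080) (l 16777080)) (c (l 676088250951) (l 672330154583)))) (c (l 16776280) (l 16776280))) (c (l 16764968) (l 16764968))) (b (a (l 1048676662215) (l 3)) (b (c (l 879025452647) (l 875804224583)) (a (c (l 16776784) (l 16776784)) (l 987473378071))))) (b (a (l 16771704) (b (a (l 16771016) (c (a (l 16777024) (l 16777056)) (l 745881467351))) (c (l 16776216) (l 16776216)))) (c (l 16769056) (l 16763808)))))) (b (a (c (l 16756736) (l 16756728)) (c (b (l 16767392) (l 16759976)) (b (l 16762144) (l 16749480)))) (a (l 16752576) (c (l 16756808) (l 16746304))))), by decide +kernel⟩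

def k11_pp_022_s : ∃ t, chk3 f_pp_022_s t 135 131 1 = true :=
  ⟨(b (b (l 3) (a (b (l 3) (a (c (a (a (b (l 590188905383) (l 16776720)) (l 848423810263)) (l 1017538143351)) (b (l 1015927525943) (b (l 848423808103) (a (l 16776712) (l 938081250407))))) (l 3))) (l 3))) (b (a (b (a (b (a (l 16773272) (c (b (a (l 16776952) (l 16776408)) (l 16776672)) (b (a (l 16776952) (l 16775904)) (l 16776672)))) (c (l 16764832) (l 16764832))) (c (a (a (b (l 460803015687) (l 16776648)) (l 821043393591)) (l 989083984055)) (a (a (b (l 917143284951) (l 16776648)) (l 821043394503)) (l 976199077975)))) (b (a (l 16768968) (a (l 16773192) (a (b (l 333027735703) (l 16776344)) (c (l 16777024) (l 16777024))))) (c (l 16763696) (l 16763696)))) (b (l 3) (a (a (b (c (l 910700834135) (l 906942735543)) (c (l 16776752) (l 16776752))) (c (l 932175666855) (l 927343825015))) (l 3)))) (a (c (b (l 16762080) (l 16759960)) (l 16766240)) (b (a (a (l 16773224) (b (c (l 16776720) (l 16776720)) (l 16770456))) (a (b (c (b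 (l 3) (l 314237256695)) (l 873119868647)) (c (l 16776680) (l 16776680))) (c (l 906405862887) (l 902647763383)))) (a (l 16770936) (c (l 295446765879) (l 224579793783))))))), by decide +kernel⟩

def k12_pp_022_s : ∃ t, chk3 f_pp_022_s t 16 33 1 = true :=
  ⟨(a (a (b (a (b (a (l 16719064) (l 16718816)) (l 16708624)) (b (a (l 16720272) (l 16723808)) (l 16710104))) (a (l 16694672) (b (l 16699136) (l 16689464)))) (b (b (a (b (l 16732464) (l 16726144)) (b (l 16739368) (l 16733184))) (a (l 16716848) (l 16724056))) (b (a (l 16704488) (l 16711520)) (l 16695816)))) (b (a (b (a (b (l 16745960) (l 16739880)) (b (a (l 16750736) (b (l 16745144) (l 16752352))) (l 16746296))) (a (l 16730880) (l 16726912))) (b (b (a (a (b (a (l 16757936) (l 16760120)) (l 16745192)) (b (l 16763224) (l 16759248))) (b (a (c (l 16756872) (l 16746352)) (c (c (l 16760960) (l 16760952)) (l 16766176))) (a (l 16763368) (c (l 16746416) (l 16767352))))) (a (a (l 16750968) (b (l 16745216) (l 16752720))) (a (b (l 16759544)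 (l 16755768)) (b (l 16763472) (l 16759720))))) (a (b (l 16746600) (l 16740752)) (b (a (l 16740960) (b (l 16755912) (l 16752888))) (l 16746816))))) (a (b (a (l 16718128) (l 16724376)) (l 16707584)) (b (a (l 16730320) (l 16715040)) (l 16696960))))), by decide +kernel⟩

def k13_pp_022_s : ∃ t, chk3 f_pp_022_s t 17 32 1 = true :=
  ⟨(b (l 3) (a (b (l 3) (a (b (l 3) (a (b (l 3) (a (a (b (l 3) (c (a (a (b (l 239075329047) (l 16776392)) (l 737828402791)) (l 881172930151)) (a (b (l 840370743799) (l 16776608)) (l 879025443847)))) (l 3)) (l 3))) (l 3))) (l 3))) (l 3))), by decide +kernel⟩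

def k14_pp_022_s : ∃ t, chk3 f_pp_022_s t 136 33 1 = true :=
  ⟨(b (b (a (b (b (b (c (a (l 16770296) (a (b (a (l 16777720) (l 585893938167)) (l 16776528)) (l 856476868583))) (a (l 16775528) (a (b (a (l 141364812663) (l 612200612791)) (l 16776528)) (l 855403124519)))) (c (b (l 16769736) (l 16763448)) (l 16769200))) (c (l 16766128) (l 16760856))) (b (l 16762136) (l 16763544))) (b (b (a (b (l 3) (c (a (b (a (l 16777040) (l 465634853911)) (l 16776440)) (l 832854549063)) (b (l 841444481527) (a (l 16776440) (a (l 16777072) (l 417316471879)))))) (l 3)) (a (c (l 16769104) (l 16769088)) (b (b (c (l 817822164119) (l 818359033447)) (a (l 243370289959) (c (c (l 16776616) (l 363629347127)) (l 723332888423)))) (c (l 16764808) (l 16764800))))) (b (c (l 16760800) (l 16760768)) (l 16762120)))) (b (b (a (l 16759848) (l 16763592)) (l 16747496)) (a (l 16741040) (b (l 16756392) (l 16752848))))) (b (b (b (l 16748464) (l 16743848)) (l 16737232)) (l 16724984))), by decide +kernel⟩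

def k15_pp_022_s : ∃ t, chk3 f_pp_022_s t 137 33 1 = true :=
  ⟨(b (a (b (b (b (l 3) (b (l 3) (a (a (a (c (l 16776480) (l 16776472)) (b (c (l 272898196583) (l 283635614807)) (l 16771256))) (c (b (l 3) (c (l 16777040) (l 16777040))) (l 788294263991))) (c (l 993915807799) (l 982641514375))))) (b (a (c (l 16763704) (l 16763688)) (a (a (c (l 16775384) (l 16775376)) (b (b (c (l 16776072) (l 16775856)) (l 16771152)) (l 16769624))) (b (c (b (l 665887704311) (l 16776976)) (l 766282558039)) (l 16772968)))) (c (l 16760696) (l 16760656)))) (b (b (l 16756840) (l 16763608)) (l 16758216))) (b (b (l 3) (c (b (b (l 975662206999) (a (b (a (l 16776944) (l 563882231047)) (l 16776456)) (l 950429265559))) (b (a (l 16754048) (b (l 723332887895) (l 16776368))) (l 16763496))) (b (b (l 965998524887) (a (b (l 751250173639) (l 16776456)) (l 941302456647))) (a (l 16763520) (b (b (a (l 16776856) (l 412484588951)) (l 16776360)) (l 16753936)))))) (b (b (c (l 16760584) (l 16750048)) (l 16756776)) (l 16751296))))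 (b (b (b (a (l 16752688) (l 16756368)) (a (l 16748232) (l 16751320))) (a (l 16741096) (l 16723080))) (l 16729448))), by decide +kernel⟩

def k16_pp_022_s : ∃ t, chk3 f_pp_022_s t 69 33 1 = true :=
  ⟨(b (b (a (a (b (l 3) (b (l 3) (c (b (l 943449953927) (a (b (a (l 16776776) (l 409800279335)) (l 16776280)) (l 880099178391))) (b (a (l 897279043335) (l 3)) (a (b (a (l 16776776) (l 389936055703)) (l 16776272)) (l 878488562999)))))) (l 3)) (l 3)) (b (a (a (a (b (c (l 16763368) (l 16752856)) (l 16759512)) (b (b (a (c (l 16776200) (l 16776192)) (b (c (l 297057387975) (l 370071831719)) (c (l 16776632) (l 16776632)))) (l 16772752)) (l 16769200))) (b (a (c (b (l 860234955991) (b (a (l 16776584) (l 223506073015)) (l 16776080))) (b (l 859161211863) (b (a (l 16776576) (l 235317212071)) (l 16776064)))) (b (l 3) (c (l 840907604647) (l 840907602647)))) (a (c (l 16763184) (l 16752664)) (a (c (l 16764544) (l 120426831063)) (b (c (l 334101478503) (l 574082773223)) (l 16769728)))))) (b (l 3) (a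 (a (b (c (l 822117124295) (l 822117122599)) (c (b (l 209547426647) (l 16754888)) (l 297594238087))) (b (l 3) (c (l 802789773127) (l 803863513527)))) (l 3)))) (a (b (a (l 16756688) (c (l 16749816) (l 16749752))) (c (l 16744392) (l 16744256))) (a (b (a (c (l 16752496) (l 16752456)) (b (c (l 16765664) (l 16765648)) (l 16769048))) (c (l 16749656) (l 16749584))) (c (b (b (a (l 783999292951) (l 3)) (a (l 16776048) (l 765208812855))) (b (l 16775064) (l 16752240))) (b (b (a (l 785609909767) (l 3)) (a (l 16776032) (l 767356300823))) (l 260013274871))))))) (b (a (b (b (a (l 16759872) (l 16742400)) (l 16736000)) (b (l 16751744) (a (l 16744256) (l 16748192)))) (b (a (b (b (l 16767848) (l 16765896)) (l 16762456)) (b (c (l 16759928) (l 16759840)) (l 16755608))) (b (l 16748944) (l 16733240)))) (b (a (a (l 16737368) (b (l 16742304) (l 16737368))) (b (l 16748632) (l 16721504))) (a (l 16729456) (a (l 16732912) (b (l 16738568) (l 16732616))))))), by decide +kernel⟩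

def k17_pp_022_s : ∃ t, chk3 f_pp_022_s t 70 33 1 = true :=
  ⟨(a (b (b (l 3) (b (l 3) (b (l 3) (a (c (b (b (l 872582978183) (a (l 350744443767) (l 3))) (a (l 16775824) (a (l 343765123927) (c (l 395304713607) (l 396378454903))))) (b (a (l 748028947463) (l 3)) (a (l 16775808) (l 728701594151)))) (l 3))))) (b (b (b (a (b (c (l 16774832) (l 16774800)) (c (l 16751960) (l 16751896))) (b (a (c (a (l 461876737079) (l 385641040375)) (l 708837372583)) (l 3)) (a (c (l 16775552) (l 16775536)) (a (c (l 325511519639) (l 324437777799)) (b (l 3) (c (l 16776808) (l 16776776))))))) (c (a (l 16748808) (l 16768176)) (a (l 16748704) (l 16762880)))) (b (a (l 16744168) (c (l 16748064) (l 16747944))) (c (l 16741304) (l 16741072)))) (b (b (l 16746416) (l 16751280)) (l 16726448)))) (b (l 3) (b (b (b (l 3) (a (a (a (c (l 243907143575) (l 237464692423)) (b (c (l 367924307495) (l 370608661607)) (l 16772984))) (c (b (l 905868977255) (c (l 16758392) (l 336785796983))) (b (l 900500266199) (a (l 16776456)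 (l 360944988791))))) (a (c (l 894057806375) (l 888689094519)) (l 3)))) (c (b (a (l 16762384) (b (a (b (l 352891929255) (l 16776272)) (l 833391408487)) (a (l 16753720) (l 429664481575)))) (a (l 16747280) (l 16761800))) (b (a (l 16762320) (b (a (c (l 328195866055) (l 330343349687)) (l 833391407031)) (a (l 16753680) (l 321753418743)))) (a (l 16747144) (c (l 16751256) (l 16751216)))))) (b (b (c (l 16757480) (l 16754664)) (c (l 16739088) (l 16738800))) (b (l 16743736) (l 16748176)))))), by decide +kernel⟩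

def k18_pp_022_s : ∃ t, chk3 f_pp_022_s t 71 33 1 = true :=
  ⟨(b (l 3) (b (a (b (l 3) (b (a (a (c (l 863456168935) (l 858624339015)) (l 3)) (l 3)) (a (b (a (c (l 222432303655) (l 217063594503)) (b (l 3) (c (l 380809209287) (l 384567305079)))) (c (a (l 16774184) (l 16765640)) (l 238001561463))) (b (l 3) (b (l 3) (c (l 787757382567) (l 788831123191))))))) (l 3)) (b (a (c (a (b (l 16761160) (l 16766568)) (b (b (a (l 16775936) (b (l 444159967799) (l 361481863479))) (l 16764184)) (l 16760480))) (a (b (l 16750584) (l 16766392)) (b (b (a (l 16775920) (l 753397651063)) (l 16764144)) (l 16749888)))) (b (a (b (l 3) (c (c (l 772724995831) (l 771651253383)) (b (l 836075755063) (l 755008266103)))) (l 3)) (a (c (b (a (l 16775512) (b (l 396915334535) (l 16766368))) (l 16763656)) (b (a (l 16775480) (b (l 402284043239) (l 16766360))) (l 16753120))) (b (l 3) (a (c (c (l 16757448) (l 355039405367)) (a (l 16766224) (l 385641048167))) (l 3)))))) (a (b (c (l 16752896) (l 16742168)) (c (l 16736680)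 (l 16736328))) (a (b (c (l 16749256) (l 16749136)) (c (l 16764688) (l 16764456))) (b (c (b (a (l 16775008) (l 346986345063)) (l 16773544)) (b (a (l 16774968) (l 346449473799)) (l 16773480))) (c (l 16748464) (l 16748328)))))))), by decide +kernel⟩

def k19_pp_022_s : ∃ t, chk3 f_pp_022_s t 8 17 1 = true :=
  ⟨(b (a (a (a (b (a (l 16678608) (l 16677456)) (l 16664392)) (b (a (l 16677600) (l 16681608)) (a (l 16661296) (l 16661808)))) (b (a (b (l 16695088) (l 16683456)) (b (l 16704192) (l 16691528))) (a (l 16667128) (l 16673616)))) (b (a (a (b (l 16712024) (l 16697952)) (b (b (a (l 16721192) (l 16724688)) (l 16714656)) (l 16702872))) (b (b (b (a (a (a (l 16730104) (l 16734632)) (l 16741760)) (a (l 16740848) (c (l 16750728) (l 16739944)))) (a (a (a (l 16724936) (l 16727592)) (l 16734968)) (a (l 16744816) (c (l 16734040) (l 16733616))))) (a (a (l 16719256) (a (b (l 16725120) (l 16718960)) (l 16726224))) (a (b (l 16737920) (l 16730632)) (b (l 16737680) (l 16741144))))) (a (b (a (l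 16709960) (a (l 16711432) (l 16692440))) (l 16702216)) (b (a (b (l 16722936) (a (l 16712496) (l 16717576))) (b (l 16733720) (l 16725880))) (a (a (l 16704416) (b (l 16709168) (l 16702864))) (b (l 16717592) (l 16708528))))))) (a (a (l 16657080) (b (l 16687776) (l 16673040))) (b (a (l 16689424) (a (l 16690240) (b (a (l 16696368) (b (l 16702320) (l 16694512))) (l 16685848)))) (a (l 16672696) (l 16671440)))))) (a (a (b (a (l 16652744) (l 16647248)) (l 16618864)) (a (b (l 16647240) (l 16628728)) (b (l 16650712) (l 16627440)))) (a (a (b (l 16652200) (l 16625776)) (b (l 16651016) (l 16620904))) (b (a (l 16626656) (b (l 16652472) (a (l 16634912) (l 16630960)))) (a (b (l 16622064) (l 16602648)) (b (l 16592336) (l 16595080))))))), by decide +kernel⟩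

def k20_pp_022_s : ∃ t, chk3 f_pp_022_s t 9 16 1 = true :=
  ⟨(a (b (l 3) (a (b (l 3) (b (l 3) (a (b (l 3) (a (a (b (c (b (l 878488550375) (a (l 338933285047) (l 439328119047))) (b (l 874193581111) (a (l 337859542871) (l 851645016951)))) (a (c (l 16773048) (l 16772968)) (b (c (l 330880224935) (l 328732741255)) (l 16770792)))) (b (l 3) (c (b (l 845202559079) (a (l 16763160) (l 395304711607))) (b (l 841444461127) (a (l 16763144) (l 780778061959)))))) (l 3))) (l 3)))) (l 3))) (l 3)), by decide +kernel⟩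

def k21_pp_022_s : ∃ t, chk3 f_pp_022_s t 36 136 1 = true :=
  ⟨(a (b (a (b (a (c (l 16747616) (l 16747456)) (c (b (l 239075303959) (l 16751168)) (b (l 233169723671) (l 16751072)))) (c (a (l 16762560) (l 16746696)) (l 16754384))) (b (a (c (b (l 779167442183) (a (l 16775800) (l 377587978247))) (b (l 779704311879) (a (l 16775776) (l 380809203511)))) (l 3)) (a (c (b (l 16763784) (l 16750376)) (l 249812724135)) (b (a (c (l 368998047527) (l 370608659543)) (l 3)) (c (a (l 16775240) (l 360408116311)) (a (l 16775208) (l 360944986807))))))) (a (b (c (l 16748288) (l 16737440)) (c (l 16731096) (l 16751568))) (b (c (a (l 16745712) (l 16764168)) (a (l 16745504) (l 16761448))) (c (a (l 16760152) (l 16744656)) (l 16752104))))) (b (l 3) (b (a (a (b (a (c (l 351281314183) (b (l 16762176) (l 16776568))) (l 3)) (c (a (l 16774568) (l 342154511895)) (a (l 16774520) (l 341080769879)))) (c (l 840370708599) (l 836612610343))) (l 3)) (a (a (c (l 16750208) (l 16750080)) (a (b (c (l 333564580807) (l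 330880225879)) (l 16768504)) (b (c (l 433959419943) (l 811916572663)) (c (l 16765736) (l 16765712))))) (a (c (l 813527168791) (l 809769070871)) (l 3)))))), by decide +kernel⟩

def k22_pp_022_s : ∃ t, chk3 f_pp_022_s t 36 137 1 = true :=
  ⟨(a (b (b (a (l 16734168) (c (l 16735048) (l 16734616))) (a (l 16737080) (a (l 16745608) (l 16751376)))) (a (b (l 16729064) (l 16720440)) (b (l 16730224) (l 16732240)))) (b (a (b (c (a (l 16743512) (l 16749256)) (a (l 16764224) (l 16749112))) (c (c (l 16739432) (l 16739264)) (l 16739000))) (b (a (c (b (a (l 16775944) (l 384030431575)) (l 16763744)) (b (a (l 16775920) (l 387788527591)) (l 16763680))) (a (c (l 739975868695) (l 739975867847)) (l 3))) (a (c (l 16748224) (l 16748056)) (c (b (a (l 16775304) (l 364703085191)) (l 16752456)) (b (a (l 16775264) (l 365776826727)) (l 16752376)))))) (a (b (c (l 16731888) (l 16731376)) (a (l 16741248) (l 16747328))) (b (a (a (l 16749712) (l 16752784)) (c (l 16747048) (l 16746856))) (a (l 16743008) (c (l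 16738880) (l 16738512))))))), by decide +kernel⟩

def k23_pp_022_s : ∃ t, chk3 f_pp_022_s t 37 68 1 = true :=
  ⟨(b (l 3) (a (a (b (a (b (l 3) (a (b (l 3) (c (l 354502541175) (l 354502540679))) (l 3))) (l 3)) (b (a (c (b (a (l 16774480) (l 344301996743)) (l 16751432)) (b (a (l 16774424) (l 342691383623)) (l 16751328))) (b (l 3) (c (a (l 330343355719) (l 438254390999)) (a (l 327659000807) (l 439865003047))))) (a (c (l 16755920) (l 16745208)) (a (c (l 16750520) (l 16750400)) (b (c (l 16765728) (l 16765704)) (l 16767624)))))) (b (l 3) (b (l 3) (a (c (b (l 433422532039) (a (l 16775880) (l 370608660359))) (b (l 799031663959) (a (l 16775856) (l 372219272599)))) (l 3))))) (l 3))), by decide +kernel⟩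

def k24_pp_022_s : ∃ t, chk3 f_pp_022_s t 36 69 1 = true :=
  ⟨(b (a (b (a (l 16685536) (b (l 16723072) (l 16713376))) (a (a (l 16687264) (b (l 16694752) (l 16685288))) (l 16698200))) (b (b (a (l 16714120) (a (l 16744288) (l 16740032))) (a (l 16725248) (a (l 16734248) (l 16740648)))) (a (b (l 16714896) (l 16703976)) (a (b (l 16723736) (l 16712912)) (b (l 16730208) (l 16719584)))))) (a (a (b (l 16676008) (l 16665104)) (b (a (b (l 16680336) (l 16673088)) (l 16680176)) (a (l 16664288) (l 16664352)))) (a (b (a (l 16685248) (l 16690624)) (a (b (l 16669576) (l 16661408)) (l 16669904))) (b (a (l 16696520) (l 16682576)) (b (l 16684248) (l 16674512)))))), by decide +kernel⟩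

def k25_pp_022_s : ∃ t, chk3 f_pp_022_s t 37 138 1 = true :=
  ⟨(a (b (a (b (a (c (l 16736584) (l 16757136)) (c (l 16743920) (l 16743656))) (a (c (l 16748120) (l 16747504)) (c (l 16755880) (l 16755424)))) (b (a (c (b (l 249812726471) (l 16749000)) (b (l 16765944) (l 16748848))) (c (b (a (l 356113147703) (l 3)) (a (l 16775096) (l 16759024))) (b (l 735144030583) (a (l 16775048) (l 341080764295))))) (a (c (l 16742504) (l 16742216)) (c (b (l 16751920) (l 16747752)) (l 16760184))))) (b (a (a (l 16737784) (l 16735504)) (a (c (l 16754304) (l 16753808)) (c (l 16741112) (l 16740792)))) (a (a (l 16727448) (l 16735960)) (a (l 16733864) (c (l 16752824) (l 16752296)))))) (b (a (b (l 3) (a (a (c (b (l 16759136) (l 16774136)) (b (l 16759056) (l 16774072))) (b (l 3) (c (l 16755336) (l 16755312)))) (l 3))) (l 3)) (a (b (a (c (l 16748656) (l 16748496)) (c (b (a (l 16776416) (l 16746984)) (l 16763632)) (b (a (l 16755416) (l 16746664)) (l 16763896)))) (a (c (l 16739768) (l 16739408)) (c (l 16747424)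 (l 16747232)))) (b (a (c (l 841444455207) (l 838223228471)) (l 3)) (a (c (b (a (l 16775680) (l 16749848)) (l 16752536)) (b (a (l 16775648) (l 16749632)) (l 16752456))) (b (l 3) (c (l 330880190871) (l 327122093159)))))))), by decide +kernel⟩

def k26_pp_022_s : ∃ t, chk3 f_pp_022_s t 37 139 1 = true :=
  ⟨(a (a (b (a (b (l 16716976) (l 16706544)) (b (l 16725728) (l 16715480))) (a (l 16670512) (b (l 16705416) (l 16695904)))) (b (a (c (l 16708896) (l 16707864)) (c (l 16722672) (l 16716576))) (a (b (l 16714432) (l 16705048)) (b (l 16723320) (l 16714088))))) (b (a (b (a (c (l 16751472) (l 16750912)) (c (l 16738488) (l 16759072))) (a (l 16720656) (c (l 16750264) (l 16749664)))) (a (b (c (l 16746208) (l 16745992)) (a (l 16735088) (l 16749560))) (b (a (c (l 16751728) (l 16751624)) (c (l 266992575543) (l 255718285815))) (c (l 16745032) (l 16744784))))) (b (a (a (l 16732056) (l 16730120)) (a (c (l 16749248) (l 16748624)) (c (l 16757232) (l 16756784)))) (a (c (l 16706960) (l 16705856))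 (a (l 16740272) (l 16738088)))))), by decide +kernel⟩

def k27_pp_022_s : ∃ t, chk3 f_pp_022_s t 19 34 1 = true :=
  ⟨(a (b (l 3) (b (l 3) (a (b (a (b (a (b (l 3) (c (l 304036650423) (l 295983585815))) (l 3)) (a (c (c (l 16752096) (l 224579777463)) (b (l 16753976) (l 16771184))) (c (b (l 436643748695) (l 276119368631)) (b (l 438254359735) (l 263234465879))))) (l 3)) (a (a (b (c (l 16743952) (l 16743680)) (l 16746120)) (b (c (l 201494335271) (l 16761504)) (c (l 16743424) (l 16743128)))) (b (a (c (b (l 417853272903) (l 16755288)) (b (l 417316400359) (l 16755256))) (l 3)) (a (c (l 16750352) (l 16771184)) (c (l 245517714759) (l 227264102695)))))) (l 3)))) (l 3)), by decide +kernel⟩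

def k28_pp_022_s : ∃ t, chk3 f_pp_022_s t 18 35 1 = true :=
  ⟨(a (b (a (b (a (l 16648680) (l 16647432)) (a (l 16628432) (l 16627312))) (b (a (b (a (l 16652352) (b (l 16656776) (l 16650944))) (l 16643056)) (b (a (b (l 16661976) (l 16654256)) (l 16665088)) (a (l 16646976) (b (l 16653896) (l 16649208))))) (a (l 16630520) (l 16638392)))) (a (b (a (l 16609264) (l 16611104)) (l 16595784)) (b (a (l 16617464) (l 16628752)) (a (l 16608712) (l 16623736))))) (b (a (b (a (b (a (l 16673680) (l 16683024)) (a (b (l 16662344) (l 16655864)) (l 16668528))) (b (a (l 16692360) (l 16680664)) (a (l 16678160) (l 16687768)))) (a (b (a (l 16650432) (b (l 16659744) (l 16656288))) (l 16649232)) (b (a (l 16667272) (l 16677128)) (a (l 16661536) (l 16670344))))) (b (a (b (a (b (l 16714688) (l 16707144)) (b (l 16723624) (l 16716280))) (a (l 16697312) (l 16706760))) (b (a (b (l 16732376) (l 16725264)) (b (l 16740920) (l 16734048))) (a (l 16716080) (l 16704296)))) (a (b (a (l 16687064) (l 16696952)) (a (l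 16680488) (l 16690600))) (b (a (l 16706784) (l 16715888)) (a (l 16700328) (l 16709384)))))) (a (b (a (l 16645224) (l 16643576)) (a (l 16644632) (l 16666768))) (b (a (b (a (l 16678144) (l 16687448)) (l 16683496)) (b (l 16701240) (l 16700400))) (a (l 16687224) (l 16703616)))))), by decide +kernel⟩

def k29_pp_022_s : ∃ t, chk3 f_pp_022_s t 19 35 1 = true :=
  ⟨(a (b (a (b (b (a (a (c (l 16725216) (l 16724496)) (c (l 16732640) (l 16732088))) (c (b (l 16746248) (l 16739296)) (l 16742376))) (a (a (b (l 16736528) (l 16731232)) (l 16720192)) (c (l 16729888) (l 16729240)))) (a (b (a (l 16724248) (l 16731136)) (l 16720248)) (b (l 16718912) (l 16731664)))) (b (b (a (b (a (c (l 16749552) (l 16754752)) (c (l 425906310103) (l 16736696))) (c (l 178945735543) (l 16751112))) (a (c (l 888689077751) (l 885467850647)) (l 3))) (a (c (l 16741704) (l 16741344)) (b (c (c (l 218674148919) (l 205789246327)) (l 189146246663)) (a (l 16747072) (l 16752552))))) (b (a (l 16735280) (c (l 16741072) (l 16740672)))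 (a (l 16741928) (l 16730936))))) (a (b (a (b (l 16715528) (l 16713448)) (b (l 16726104) (l 16723224))) (a (l 16694544) (l 16703288))) (b (b (a (l 16735528) (l 16744664)) (l 16715080)) (b (l 16713856) (l 16714904))))) (b (b (a (b (l 3) (a (b (l 3) (a (l 378124823703) (l 3))) (l 3))) (l 3)) (a (b (a (b (c (l 16732760) (l 16753656)) (l 16748504)) (b (l 3) (c (l 209547330183) (l 16726528)))) (a (l 16740632) (c (l 16749936) (l 16770720)))) (b (l 3) (a (c (b (l 16711520) (l 16755504)) (l 369534826871)) (l 3))))) (b (a (b (a (l 16732616) (l 16741080)) (a (l 16748280) (l 16734904))) (b (a (l 16759616) (c (l 197736157959) (l 16732088))) (c (l 16745496) (l 16745128)))) (a (a (l 16724344) (l 16730512)) (a (l 16735984) (b (l 16764040) (l 16760128))))))), by decide +kernel⟩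

def k30_pp_022_s : ∃ t, chk3 f_pp_022_s t 5 8 1 = true :=
  ⟨(b (l 3) (a (b (l 3) (a (b (l 3) (a (b (a (b (c (l 912848207703) (l 901037044791)) (a (c (l 16754944) (l 16775840)) (l 401747055415))) (l 3)) (b (a (a (l 16769656) (l 16754088)) (c (l 395841420391) (l 399599515015))) (a (l 16756560) (a (l 16774184) (l 16722752))))) (l 3))) (l 3))) (l 3))), by decide +kernel⟩

def k31_pp_022_s : ∃ t, chk3 f_pp_022_s t 8 9 1 = true :=
  ⟨(a (b (a (b (a (l 16629840) (l 16620208)) (a (l 16588504) (l 16597336))) (b (a (b (l 16612224) (l 16598624)) (b (l 16604000) (l 16580232))) (a (b (l 16583776) (l 16543248)) (b (l 16534688) (l 16538720))))) (b (a (a (b (l 16554608) (l 16536864)) (b (l 16573448) (l 16560984))) (b (a (l 16549392) (l 16524760)) (a (l 16537880) (l 16526880)))) (a (b (l 16468328) (l 16480048)) (b (a (l 16542568) (l 16548280)) (a (l 16519112) (l 16518528)))))) (b (b (a (a (b (l 16597712) (l 16542992)) (b (b (l 16597120) (l 16578672)) (l 16554168))) (b (a (b (l 16585672) (l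 16568528)) (b (l 16578120) (l 16565488))) (a (l 16546136) (b (l 16556728) (l 16552088))))) (a (a (b (l 16515024) (l 16513384)) (b (l 16524696) (l 16511248))) (a (b (l 16530144) (l 16531712)) (b (l 16533304) (l 16523688))))) (b (a (b (a (l 16512928) (l 16476744)) (a (l 16531672) (l 16546224))) (a (b (l 16503208) (l 16572576)) (l 16516512))) (a (b (a (l 16563104) (l 16573136)) (l 16503184)) (b (l 16508632) (l 16472384)))))), by decide +kernel⟩

def k32_pp_022_s : ∃ t, chk3 f_pp_022_s t 9 9 1 = true :=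
  ⟨(b (a (a (b (a (b (b (l 16585968) (l 16580408)) (b (l 16580520) (l 16583064))) (b (b (a (l 16604456) (l 16623944)) (l 16595008)) (b (l 16599832) (l 16629024)))) (b (a (b (l 16588808) (l 16597864)) (l 16620912)) (l 16532264))) (b (a (b (a (b (l 16647656) (l 16653664)) (l 16654112)) (l 16635208)) (b (l 16666408) (l 16626712))) (a (b (l 16607304) (l 16571176)) (b (l 16591664) (l 16553656))))) (b (a (b (a (b (a (l 16722344) (l 16723480)) (l 16675624)) (b (a (l 16703576) (l 16705336)) (l 16676984))) (a (a (l 16656744) (l 16654872)) (l 16613128))) (b (b (a (b (l 16738624) (l 16704648)) (b (l 16748008) (l 16715400))) (a (a (l 16680192) (l 16684472)) (l 16673888))) (a (b (l 16653144) (l 16644904)) (b (b (l 16691752) (l 16675832)) (l 16653344))))) (a (a (b (l 16576384) (l 16538000)) (b (l 16596888) (l 16537384))) (b (a (l 16601040) (l 16609112)) (a (l 16541704) (l 16550264)))))) (a (a (b (b (l 16541624) (l 16482320)) (b (l 16419072) (l 16330912))) (b (a (l 16418048) (b (l 16493408)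 (l 16432248))) (a (l 16336704) (l 16339688)))) (a (b (a (b (l 16477560) (l 16416520)) (l 16404808)) (a (l 16324680) (l 16325848))) (b (b (l 16444080) (l 16426672)) (b (l 16367872) (l 16310016)))))), by decide +kernel⟩

def k33_pp_022_s : ∃ t, chk3 f_pp_022_s t 5 18 1 = true :=
  ⟨(a (b (a (b (a (b (a (b (l 16758552) (l 16748280)) (b (l 16748528) (l 16760624))) (a (l 16687816) (l 16717912))) (b (a (b (a (l 16752528) (l 16700008)) (l 191293735303)) (b (l 3) (l 785609804471))) (a (b (l 16763840) (l 16732008)) (b (l 229411530263) (l 16767880))))) (a (b (a (l 16678744) (l 16695712)) (a (b (l 16673512) (l 16656928)) (l 16683808))) (b (a (l 16712848) (l 16708832)) (a (l 16703424) (l 16701952))))) (b (a (b (l 3) (a (b (l 3) (l 269676814679)) (l 3))) (l 3)) (a (b (a (b (l 16751104) (l 16761456)) (b (l 447381060055) (l 16710032))) (a (l 16721024) (l 16728776))) (b (l 3) (a (a (l 16730208) (l 383493468055)) (l 760913726775)))))) (a (b (a (b (a (l 16634184) (b (l 16656056) (l 16639272)))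 (a (l 16604648) (l 16616616))) (b (a (l 16668368) (l 16690232)) (a (b (l 16639760) (l 16623248)) (l 16653736)))) (a (a (l 16561088) (l 16573416)) (b (a (l 16601008) (l 16575752)) (l 16580432)))) (b (a (b (a (l 16711728) (l 16711576)) (a (l 16677440) (l 16700560))) (b (a (l 16731424) (b (l 16773968) (l 16764504))) (a (l 16722776) (l 16722840)))) (a (b (a (l 16639720) (l 16665432)) (a (l 16605832) (l 16627960))) (b (a (l 16689792) (l 16713072)) (l 16625536)))))) (b (l 3) (a (b (a (b (a (l 389935876951) (l 3)) (a (l 16741920) (l 350207477095))) (b (l 3) (l 699710427143))) (a (b (b (l 16710528) (l 16717120)) (l 16673424)) (b (a (l 16729120) (l 16711472)) (b (l 16720584) (l 16728872))))) (b (l 3) (a (b (l 3) (a (l 16766216) (l 3))) (l 3)))))), by decide +kernel⟩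

def k34_pp_022_s : ∃ t, chk3 f_pp_022_s t 5 19 1 = true :=
  ⟨(a (b (a (a (b (l 16488848) (l 16453208)) (b (l 16540104) (l 16487448))) (b (a (a (l 16565368) (b (l 16596744) (l 16571120))) (b (a (l 16618664) (l 16645688)) (a (l 16590880) (l 16612576)))) (a (l 16526600) (a (l 16557480) (l 16579224))))) (a (a (b (l 16397728) (l 16343752)) (b (l 16436464) (l 16387536))) (a (b (l 16481272) (l 16438512)) (b (l 16529392) (l 16493904))))) (b (a (b (a (b (l 16662848) (l 16652200)) (b (l 16687112) (l 16679680))) (a (b (a (l 16610464) (l 16635824)) (l 16581664)) (b (l 16673632) (l 16649416)))) (b (a (b (a (l 16757632) (l 16771328)) (l 16699560)) (b (l 362555526615) (a (l 16765496) (l 16770168)))) (a (a (l 16654656) (l 16675584)) (b (l 16732816) (l 16736328))))) (a (b (a (l 16578184) (b (l 16632448) (l 16620688))) (a (l 16551048) (l 16607376))) (b (a (b (l 16680440) (l 16668080)) (l 16674976)) (a (l 16641176) (b (l 16703752) (l 16703152))))))), by decide +kernel⟩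

def k35_pp_022_s : ∃ t, chk3 f_pp_022_s t 4 5 1 = true :=
  ⟨(a (b (b (a (b (a (b (a (l 16444840) (l 16451232)) (l 16316864)) (b (a (l 16449720) (l 16440048)) (l 16360880))) (b (a (a (l 16299160) (l 16286392)) (l 16268264)) (b (a (l 16216224) (l 16188592)) (b (a (l 16166960) (l 16137984)) (a (l 16132240) (l 16101320)))))) (b (a (b (l 16423200) (l 16336136)) (b (l 16388584) (l 16300104))) (b (a (l 16239376) (l 16203576)) (b (a (l 16158256) (l 16122560)) (b (a (l 16106848) (l 16071136)) (a (l 16070232) (l 16034520))))))) (a (a (b (l 16059152) (l 15941256)) (b (l 16026408) (l 15910344))) (a (b (l 15996280) (l 15884144)) (b (l 15962880) (l 15856936))))) (a (b (a (b (l 15826344) (l 15716568)) (l 15746832)) (a (l 15566816) (l 15559760))) (b (a (l 15730864) (l 15717128)) (a (l 15564920) (l 15576304))))) (b (b (a (b (a (b (l 16336824) (l 16248432)) (b (a (l 16280000) (l 16246048)) (a (l 16196656) (l 16173224)))) (b (a (l 16153032) (l 16030432)) (a (b (l 16073160) (b (l 16022280) (l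 15986056))) (b (l 16015632) (b (l 15965864) (l 15930400)))))) (b (a (a (b (l 16233944) (l 16168864)) (b (l 16236968) (l 16177280))) (b (l 16253504) (l 16198688))) (b (a (a (l 16082896) (l 16102736)) (b (l 16156048) (l 16120984))) (a (b (l 16014848) (b (l 15966736) (l 15932424))) (b (l 16071928) (b (l 16026016) (l 15993224))))))) (a (a (b (l 15918040) (l 15820496)) (b (l 15867288) (l 15780264))) (a (a (l 15825144) (l 15854200)) (b (l 15943608) (l 15883648))))) (a (b (a (l 15697288) (a (l 15675552) (l 15674856))) (a (l 15585352) (l 15597192))) (b (a (a (l 15700632) (l 15745080)) (b (l 15841240) (l 15818120))) (a (b (l 15679088) (l 15672080)) (b (l 15810016) (l 15802480))))))), by decide +kernel⟩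

def k36_pp_022_s : ∃ t, chk3 f_pp_022_s t 5 5 1 = true :=
  ⟨(b (b (b (a (a (a (l 16266288) (l 16318624)) (a (l 16379816) (l 16447016))) (a (a (l 16517504) (l 16590648)) (a (l 16633272) (l 16701328)))) (a (b (a (a (l 16192144) (l 16256424)) (a (l 16328856) (l 16408832))) (a (b (a (l 16146880) (l 16224240)) (b (a (l 16104000) (l 16195504)) (a (l 16073088) (l 16165936)))) (b (l 16307272) (b (a (l 16289832) (l 16384944)) (a (l 16268728) (l 16375904)))))) (a (b (a (l 16493552) (l 16579296)) (b (l 16490400) (b (l 16487568) (a (l 16479640) (l 16573832))))) (b (l 16657984) (a (l 16650752) (l 16697744)))))) (a (a (a (b (l 16031936) (l 15988304)) (b (l 16134320) (l 16109576))) (a (b (l 16247640) (l 16238976)) (b (l 16367440) (l 16362176)))) (a (a (b (l 16476520) (l 16477600)) (l 16574368)) (l 16572800)))) (a (a (b (a (b (l 15964816) (l 15955376)) (b (l 16100008) (l 16093408))) (a (l 15942016) (l 16089576))) (b (a (l 16185248) (l 16361824)) (l 16275312))) (a (b (a (l 16477480) (l 16575808))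 (l 16530440)) (b (l 16681400) (l 16682880))))), by decide +kernel⟩

def k37_pp_022_s : ∃ t, chk3 f_pp_022_s t 2 3 1 = true :=
  ⟨(b (a (a (b (a (b (a (l 15405448) (l 15423592)) (l 15325872)) (b (a (l 15457688) (l 15501512)) (a (l 15429016) (l 15486832)))) (l 6)) (b (a (b (a (l 15486752) (a (l 15544384) (l 15565880))) (a (l 15528352) (l 15565832))) (a (b (l 15551248) (l 15649408)) (l 15770784))) (a (a (l 6) (l 15544944)) (a (l 15632032) (l 15770352))))) (a (b (a (b (l 16011912) (l 16005056)) (b (l 16293416) (l 16288872))) (b (a (l 15996488) (l 16280704)) (l 6))) (b (a (b (l 16529312) (l 16524568)) (l 16548536)) (a (l 16404160) (l 2))))) (l 6)), by decide +kernel⟩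

def k38_pp_022_s : ∃ t, chk3 f_pp_022_s t 3 1 1 = true :=
  ⟨(b (b (b (l 3) (a (b (l 3) (a (b (a (b (a (b (l 3) (l 366850522631)) (l 3)) (a (b (a (l 16769096) (l 16772400)) (l 16758424)) (b (l 3) (l 16771160)))) (l 3)) (a (b (a (l 16739592) (l 16754848)) (a (l 16706576) (l 16737544))) (b (a (l 286856760167) (l 16751992)) (a (l 16747144) (l 16759360))))) (b (l 3) (b (l 3) (a (a (l 16769456) (l 16775544)) (l 3)))))) (l 3))) (a (b (b (b (a (b (a (a (l 16722992) (l 16734176)) (a (l 16742328) (l 16745200))) (a (a (l 16722200) (l 16733912)) (a (l 16744816) (l 16750760)))) (b (a (a (l 16752920) (l 16762376)) (a (l 16770752) (l 16775928))) (a (a (l 16752496) (l 16754536)) (l 16741224)))) (a (a (b (l 16733888) (a (l 16720184) (l 16732576))) (b (l 16749912) (b (l 16749440) (l 16748464)))) (a (b (b (l 16761272) (l 16763984)) (b (l 16763664) (l 16762784))) (b (b (l 16764352) (l 16770432)) (b (l 16771568) (l 16770472)))))) (a (a (a (l 16722368) (l 16735992)) (l 16753272)) (a (l 16762768)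 (l 16756416)))) (a (b (a (l 16720568) (l 16714408)) (a (l 16673952) (l 16673072))) (b (a (l 16710280) (l 2)) (l 2)))) (b (b (b (b (b (l 3) (l 2)) (l 2)) (l 2)) (l 2)) (l 2)))) (a (b (a (b (a (b (l 16642248) (l 2)) (l 2)) (l 2)) (l 2)) (l 2)) (l 2))), by decide +kernel⟩

theorem s39_pp_022_s : ∃ t, chk3 f_pp_022_s t 2 5 1 = true := ex3_a k35_pp_022_s k36_pp_022_s

theorem s40_pp_022_s : ∃ t, chk3 f_pp_022_s t 5 9 1 = true := ex3_b k33_pp_022_s k34_pp_022_s

theorem s41_pp_022_s : ∃ t, chk3 f_pp_022_s t 4 9 1 = true := ex3_a k31_pp_022_s k32_pp_022_s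

theorem s42_pp_022_s : ∃ t, chk3 f_pp_022_s t 2 9 1 = true := ex3_a s41_pp_022_s s40_pp_022_s

theorem s43_pp_022_s : ∃ t, chk3 f_pp_022_s t 9 35 1 = true := ex3_a k28_pp_022_s k29_pp_022_s

theorem s44_pp_022_s : ∃ t, chk3 f_pp_022_s t 37 69 1 = true := ex3_b k25_pp_022_s k26_pp_022_s

theorem s45_pp_022_s : ∃ t, chk3 f_pp_022_s t 18 69 1 = true := ex3_a k24_pp_022_s s44_pp_022_s

theorem s46_pp_022_s : ∃ t, chk3 f_pp_022_s t 36 68 1 = true := ex3_b k21_pp_022_s k22_pp_022_s

theorem s47_pp_022_s : ∃ t, chk3 f_pp_022_s t 18 68 1 = true := ex3_a s46_pp_022_s k23_pp_022_s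

theorem s48_pp_022_s : ∃ t, chk3 f_pp_022_s t 18 34 1 = true := ex3_b s47_pp_022_s s45_pp_022_s

theorem s49_pp_022_s : ∃ t, chk3 f_pp_022_s t 9 34 1 = true := ex3_a s48_pp_022_s k27_pp_022_s

theorem s50_pp_022_s : ∃ t, chk3 f_pp_022_s t 9 17 1 = true := ex3_b s49_pp_022_s s43_pp_022_s

theorem s51_pp_022_s : ∃ t, chk3 f_pp_022_s t 9 8 1 = true := ex3_b k20_pp_022_s s50_pp_022_s

theorem s52_pp_022_s : ∃ t, chk3 f_pp_022_s t 35 33 1 = true := ex3_a k17_pp_022_s k18_pp_022_s

theorem s53_pp_022_s : ∃ t, chk3 f_pp_022_s t 68 33 1 = true := ex3_a k14_pp_022_s k15_pp_022_s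

theorem s54_pp_022_s : ∃ t, chk3 f_pp_022_s t 34 33 1 = true := ex3_a s53_pp_022_s k16_pp_022_s

theorem s55_pp_022_s : ∃ t, chk3 f_pp_022_s t 17 33 1 = true := ex3_a s54_pp_022_s s52_pp_022_s

theorem s56_pp_022_s : ∃ t, chk3 f_pp_022_s t 17 16 1 = true := ex3_b k13_pp_022_s s55_pp_022_s

theorem s57_pp_022_s : ∃ t, chk3 f_pp_022_s t 67 131 1 = true := ex3_a k10_pp_022_s k11_pp_022_s

theorem s58_pp_022_s : ∃ t, chk3 f_pp_022_s t 67 65 1 = true := ex3_b k9_pp_022_s s57_pp_022_s

theorem s59_pp_022_s : ∃ t, chk3 f_pp_022_s t 66 261 1 = true := ex3_a k6_pp_022_s k7_pp_022_s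

theorem s60_pp_022_s : ∃ t, chk3 f_pp_022_s t 132 260 1 = true := ex3_b k3_pp_022_s k4_pp_022_s

theorem s61_pp_022_s : ∃ t, chk3 f_pp_022_s t 66 260 1 = true := ex3_a s60_pp_022_s k5_pp_022_s

theorem s62_pp_022_s : ∃ t, chk3 f_pp_022_s t 66 130 1 = true := ex3_b s61_pp_022_s s59_pp_022_s

theorem s63_pp_022_s : ∃ t, chk3 f_pp_022_s t 66 65 1 = true := ex3_b s62_pp_022_s k8_pp_022_s

theorem s64_pp_022_s : ∃ t, chk3 f_pp_022_s t 33 65 1 = true := ex3_a s63_pp_022_s s58_pp_022_s

theorem s65_pp_022_s : ∃ t, chk3 f_pp_022_s t 33 32 1 = true := ex3_b k2_pp_022_s s64_pp_022_s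

theorem s66_pp_022_s : ∃ t, chk3 f_pp_022_s t 32 32 1 = true := ex3_b k0_pp_022_s k1_pp_022_s

theorem s67_pp_022_s : ∃ t, chk3 f_pp_022_s t 16 32 1 = true := ex3_a s66_pp_022_s s65_pp_022_s

theorem s68_pp_022_s : ∃ t, chk3 f_pp_022_s t 16 16 1 = true := ex3_b s67_pp_022_s k12_pp_022_s

theorem s69_pp_022_s : ∃ t, chk3 f_pp_022_s t 8 16 1 = true := ex3_a s68_pp_022_s s56_pp_022_s

theorem s70_pp_022_s : ∃ t, chk3 f_pp_022_s t 8 8 1 = true := ex3_b s69_pp_022_s k19_pp_022_s

theorem s71_pp_022_s : ∃ t, chk3 f_pp_022_s t 4 8 1 = true := ex3_a s70_pp_022_s s51_pp_022_s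

theorem s72_pp_022_s : ∃ t, chk3 f_pp_022_s t 2 8 1 = true := ex3_a s71_pp_022_s k30_pp_022_s

theorem s73_pp_022_s : ∃ t, chk3 f_pp_022_s t 2 4 1 = true := ex3_b s72_pp_022_s s42_pp_022_s

theorem s74_pp_022_s : ∃ t, chk3 f_pp_022_s t 2 2 1 = true := ex3_b s73_pp_022_s s39_pp_022_s

theorem s75_pp_022_s : ∃ t, chk3 f_pp_022_s t 2 1 1 = true := ex3_b s74_pp_022_s k37_pp_022_s

theorem s76_pp_022_s : ∃ t, chk3 f_pp_022_s t 1 1 1 = true := ex3_a s75_pp_022_s k38_pp_022_s

theorem c_pp_022_s : CertNE 0 536870912 1073741824 536870912 1033476505 6710887 3 eng mog cd0q0 cd5q2 pd2 false true true .pp 0 2 2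
    ndB0q0 ndB5q2 pcB2 cut_pp_022_s Ext.none :=
  certNE1 (fam := false) (s1 := true) (s2 := true) (a := 0) (b := 2) (c := 2) (cn := .pp) (n1 := ndB0q0) (n2 := ndB5q2) (pc := pcB2) (cut := cut_pp_022_s) (xt := Ext.none) (P1 := 0) (W1 := 536870912) (P2 := 1073741824) (W2 := 536870912) (P3 := 1033476505) (W3 := 6710887) (N0 := 3) (En := eng) (mo := mog) (C1 := cd0q0) (C2 := cd5q2) (C3 := pd2)
    rfl (fun _ => rfl) s76_pp_022_s

noncomputable def cut_pp_023_s : Cut := Cut.of [[⟨4, 0, 0, 1449551462⟩]]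

noncomputable def f_pp_023_s : ℕ → ℕ → ℕ → ℕ → Bool := onCell 1073741824 536870912 0 1230186008 1033476505 6710887
    (rowNE 3 eng mog cd0q0 cd5q3 pd2 2 false true true .up 0 2 3 (qsf 0 536870912 0 1230186008 2) ndB0q0 ndB5q3 pcB2 cut_pp_023_s Ext.none)

def k0_pp_023_s : ∃ t, chk3 f_pp_023_s t 1 1 1 = true :=
  ⟨(a (b (l 2) (b (a (l 2) (a (l 2) (b (l 2) (b (l 2) (l 422081004871))))) (b (a (l 2) (a (a (a (l 3) (a (l 3) (b (l 2) (a (a (l 16773920) (l 16776680)) (l 16743743687))))) (b (l 16705104) (b (l 16760400) (l 16759040)))) (b (b (l 16743432) (l 16737176)) (b (l 16732552) (l 16730696))))) (a (l 3) (a (a (a (b (l 3) (a (a (l 3) (b (l 3) (l 16771784))) (a (b (l 3) (l 16774336)) (b (l 16776200) (l 16768304))))) (a (b (a (b (l 3) (l 16775784)) (b (l 16775320) (l 16776384))) (a (b (l 16773848) (l 16767064)) (b (l 16775160) (l 16771616)))) (b (a (b (l 16775560) (l 16774352)) (b (l 16772136) (l 16772072))) (a (b (l 16774424) (l 16772520)) (b (l 16773408) (l 16770952)))))) (b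 (b (l 16753976) (l 16752592)) (b (l 16754896) (l 16760328)))) (b (b (a (l 16727072) (l 16705216)) (a (l 16715008) (l 16684560))) (a (b (l 16711368) (l 16712832)) (b (l 16675936) (b (l 16674440) (l 16670576)))))))))) (a (b (l 2) (b (b (a (l 2) (b (l 16628208) (l 16618112))) (a (b (l 16721944) (l 16736968)) (b (l 16676008) (l 16715872)))) (b (a (a (b (l 16721320) (l 16716104)) (b (l 16709048) (l 16711208))) (b (l 16700240) (l 16695176))) (a (b (b (l 16683216) (l 16652328)) (b (a (l 16647896) (l 16625056)) (a (l 16644368) (b (l 16626512) (l 16576376))))) (a (b (b (l 16670352) (l 16629904)) (b (l 16605008) (l 16358808))) (l 6)))))) (b (l 6) (l 6)))), by decide +kernel⟩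

theorem c_pp_023_s : CertNE 0 536870912 0 1230186008 1033476505 6710887 3 eng mog cd0q0 cd5q3 pd2 false true true .up 0 2 3
    ndB0q0 ndB5q3 pcB2 cut_pp_023_s Ext.none :=
  certNE2 (fam := false) (s1 := true) (s2 := true) (a := 0) (b := 2) (c := 3) (cn := .up) (n1 := ndB0q0) (n2 := ndB5q3) (pc := pcB2) (cut := cut_pp_023_s) (xt := Ext.none) (P1 := 0) (W1 := 536870912) (P2 := 0) (W2 := 1230186008) (P3 := 1033476505) (W3 := 6710887) (N0 := 3) (En := eng) (mo := mog) (C1 := cd0q0) (C2 := cd5q3) (C3 := pd2)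
    rfl (fun _ => rfl) k0_pp_023_s

noncomputable def cut_pp_033_s : Cut := Cut.of [[⟨4, 0, 0, 1449551462⟩]]

noncomputable def f_pp_033_s : ℕ → ℕ → ℕ → ℕ → Bool := onCell 1610612736 536870912 0 1230186008 1033476505 6710887
    (rowNE 3 eng mog cd0q0 cd5q3 pd3 2 false true true .pnn 0 3 3 (qsf 0 536870912 0 1230186008 3) ndB0q0 ndB5q3 pcB3 cut_pp_033_s Ext.none)

def k0_pp_033_s : ∃ t, chk3 f_pp_033_s t 1 1 1 = true :=
  ⟨(b (l 6) (l 6)), by decide +kernel⟩

theorem c_pp_033_s : CertNE 0 536870912 0 1230186008 1033476505 6710887 3 eng mog cd0q0 cd5q3 pd3 false true true .pnn 0 3 3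
    ndB0q0 ndB5q3 pcB3 cut_pp_033_s Ext.none :=
  certNE2 (fam := false) (s1 := true) (s2 := true) (a := 0) (b := 3) (c := 3) (cn := .pnn) (n1 := ndB0q0) (n2 := ndB5q3) (pc := pcB3) (cut := cut_pp_033_s) (xt := Ext.none) (P1 := 0) (W1 := 536870912) (P2 := 0) (W2 := 1230186008) (P3 := 1033476505) (W3 := 6710887) (N0 := 3) (En := eng) (mo := mog) (C1 := cd0q0) (C2 := cd5q3) (C3 := pd3)
    rfl (fun _ => rfl) k0_pp_033_s

noncomputable def cut_pp_101_s : Cut := Cut.of [[⟨4, 0, 0, 1449551462⟩]]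

noncomputable def f_pp_101_s : ℕ → ℕ → ℕ → ℕ → Bool := onCell 536870912 536870912 536870912 536870912 1033476505 6710887
    (rowNE 3 eng mog cd0q1 cd5q1 pd0 0 false true true .npn 1 0 1 (qsf 536870912 536870912 536870912 536870912 0) ndB0q1 ndB5q1 pcB0 cut_pp_101_s Ext.none)

def k0_pp_101_s : ∃ t, chk3 f_pp_101_s t 1 1 1 = true :=
  ⟨(a (l 3) (l 5)), by decide +kernel⟩

theorem c_pp_101_s : CertNE 536870912 536870912 536870912 536870912 1033476505 6710887 3 eng mog cd0q1 cd5q1 pd0 false true true .npn 1 0 1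
    ndB0q1 ndB5q1 pcB0 cut_pp_101_s Ext.none :=
  certNE0 (fam := false) (s1 := true) (s2 := true) (a := 1) (b := 0) (c := 1) (cn := .npn) (n1 := ndB0q1) (n2 := ndB5q1) (pc := pcB0) (cut := cut_pp_101_s) (xt := Ext.none) (P1 := 536870912) (W1 := 536870912) (P2 := 536870912) (W2 := 536870912) (P3 := 1033476505) (W3 := 6710887) (N0 := 3) (En := eng) (mo := mog) (C1 := cd0q1) (C2 := cd5q1) (C3 := pd0)
    rfl k0_pp_101_s

noncomputable def cut_pp_102_s : Cut := Cut.of [[⟨4, 0, 0, 1449551462⟩]]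

noncomputable def f_pp_102_s : ℕ → ℕ → ℕ → ℕ → Bool := onCell 536870912 536870912 1073741824 536870912 1033476505 6710887
    (rowNE 3 eng mog cd0q1 cd5q2 pd0 0 false true true .npp 1 0 2 (qsf 536870912 536870912 1073741824 536870912 0) ndB0q1 ndB5q2 pcB0 cut_pp_102_s Ext.none)

def k0_pp_102_s : ∃ t, chk3 f_pp_102_s t 1 1 1 = true :=
  ⟨(a (l 3) (b (l 5) (l 3))), by decide +kernel⟩

theorem c_pp_102_s : CertNE 536870912 536870912 1073741824 536870912 1033476505 6710887 3 eng mog cd0q1 cd5q2 pd0 false true true .npp 1 0 2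
    ndB0q1 ndB5q2 pcB0 cut_pp_102_s Ext.none :=
  certNE0 (fam := false) (s1 := true) (s2 := true) (a := 1) (b := 0) (c := 2) (cn := .npp) (n1 := ndB0q1) (n2 := ndB5q2) (pc := pcB0) (cut := cut_pp_102_s) (xt := Ext.none) (P1 := 536870912) (W1 := 536870912) (P2 := 1073741824) (W2 := 536870912) (P3 := 1033476505) (W3 := 6710887) (N0 := 3) (En := eng) (mo := mog) (C1 := cd0q1) (C2 := cd5q2) (C3 := pd0)
    rfl k0_pp_102_s

noncomputable def cut_pp_112_s : Cut := Cut.of [[⟨4, 0, 0, 1449551462⟩]]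

noncomputable def f_pp_112_s : ℕ → ℕ → ℕ → ℕ → Bool := onCell 536870912 536870912 1073741824 536870912 1033476505 6710887
    (rowNE 3 eng mog cd0q1 cd5q2 pd1 0 false true true .dn 1 1 2 (qsf 536870912 536870912 1073741824 536870912 1) ndB0q1 ndB5q2 pcB1 cut_pp_112_s Ext.none)

def k0_pp_112_s : ∃ t, chk3 f_pp_112_s t 1 1 1 = true :=
  ⟨(a (l 3) (b (l 5) (l 3))), by decide +kernel⟩

theorem c_pp_112_s : CertNE 536870912 536870912 1073741824 536870912 1033476505 6710887 3 eng mog cd0q1 cd5q2 pd1 false true true .dn 1 1 2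
    ndB0q1 ndB5q2 pcB1 cut_pp_112_s Ext.none :=
  certNE0 (fam := false) (s1 := true) (s2 := true) (a := 1) (b := 1) (c := 2) (cn := .dn) (n1 := ndB0q1) (n2 := ndB5q2) (pc := pcB1) (cut := cut_pp_112_s) (xt := Ext.none) (P1 := 536870912) (W1 := 536870912) (P2 := 1073741824) (W2 := 536870912) (P3 := 1033476505) (W3 := 6710887) (N0 := 3) (En := eng) (mo := mog) (C1 := cd0q1) (C2 := cd5q2) (C3 := pd1)
    rfl k0_pp_112_s

noncomputable def cut_pp_113_s : Cut := Cut.of [[⟨4, 0, 0, 1449551462⟩], [⟨0, 1, 0, 20971520⟩, ⟨1, 1, 0, 20971520⟩, ⟨2, 2, 0, 1572864⟩]]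

noncomputable def f_pp_113_s : ℕ → ℕ → ℕ → ℕ → Bool := onCell 536870912 536870912 0 1230186008 1033476505 6710887
    (rowNE 3 eng mog cd0q1 cd5q3 pd1 2 false true true .nn 1 1 3 (qsf 536870912 536870912 0 1230186008 1) ndB0q1 ndB5q3 pcB1 cut_pp_113_s Ext.none)

def k0_pp_113_s : ∃ t, chk3 f_pp_113_s t 1 1 1 = true :=
  ⟨(a (b (l 2) (a (b (l 2) (b (l 2) (l 3))) (b (b (l 2) (a (l 2) (l 3))) (l 3)))) (a (b (l 2) (b (l 3) (l 3))) (b (b (a (l 2) (a (l 2) (a (l 3) (b (b (b (l 14) (l 3)) (l 3)) (l 3))))) (l 3)) (l 3)))), by decide +kernel⟩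

theorem c_pp_113_s : CertNE 536870912 536870912 0 1230186008 1033476505 6710887 3 eng mog cd0q1 cd5q3 pd1 false true true .nn 1 1 3
    ndB0q1 ndB5q3 pcB1 cut_pp_113_s Ext.none :=
  certNE2 (fam := false) (s1 := true) (s2 := true) (a := 1) (b := 1) (c := 3) (cn := .nn) (n1 := ndB0q1) (n2 := ndB5q3) (pc := pcB1) (cut := cut_pp_113_s) (xt := Ext.none) (P1 := 536870912) (W1 := 536870912) (P2 := 0) (W2 := 1230186008) (P3 := 1033476505) (W3 := 6710887) (N0 := 3) (En := eng) (mo := mog) (C1 := cd0q1) (C2 := cd5q3) (C3 := pd1)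
    rfl (fun _ => rfl) k0_pp_113_s

end Pool.Agent.Strip051.G.I9625_9688.Tab.CS.BB05

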