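import Pool.Agent.Strip051.G.I9625_9688.Tab

/-! # Certificates B0 (generated) -/

set_option linter.all false
set_option maxRecDepth 100000

namespace Pool.Agent.Strip051.G.I9625_9688.Tab.C.BA00

open Pool.Agent.Strip051.PB Pool.Agent.Strip051.PB.T
open Pool.Agent.Strip051.G.I9625_9688.Tab

noncomputable def cut_pp_001 : Cut := Cut.of [[⟨3, 0, 0, 1449551462⟩], [⟨4, 0, 0, 2845415833⟩]]

noncomputable def f_pp_001 : ℕ → ℕ → ℕ → ℕ → Bool := onCell 0 536870912 0 536870912 1033476505 6710887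
    (rowB 3 eng mog cd0q0 cd0q0 pd1 0 true true true .up 0 0 1 (qsf 0 536870912 0 536870912 1) ndB0q0 ndB0q0 pcB1 cut_pp_001 Ext.none)

def k0_pp_001 : ∃ t, chk3 f_pp_001 t 1 1 1 = true :=
  ⟨(l 4), by decide +kernel⟩

theorem c_pp_001 : CertB 0 536870912 0 536870912 1033476505 6710887 3 eng mog cd0q0 cd0q0 pd1 true true true .up 0 0 1
    ndB0q0 ndB0q0 pcB1 cut_pp_001 Ext.none :=
  certB0 (fam := true) (s1 := true) (s2 := true) (a := 0) (b := 0) (c := 1) (cn := .up) (n1 := ndB0q0) (n2 := ndB0q0) (pc := pcB1) (cut := cut_pp_001) (xt := Ext.none) (P1 := 0) (W1 := 536870912) (P2 := 0) (W2 := 536870912) (P3 := 1033476505) (W3 := 6710887) (N0 := 3) (En := eng) (mo := mog) (C1 := cd0q0) (C2 := cd0q0) (C3 := pd1)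
    rfl k0_pp_001

noncomputable def cut_pp_011 : Cut := Cut.of [[⟨3, 0, 0, 1449551462⟩], [⟨4, 0, 0, 2845415833⟩], [⟨0, 0, 0, 33554432⟩, ⟨1, 1, 0, 33554432⟩, ⟨2, 1, 0, 33554432⟩]]

noncomputable def f_pp_011 : ℕ → ℕ → ℕ → ℕ → Bool := onCell 0 536870912 536870912 536870912 1033476505 6710887
    (rowB 3 eng mog cd0q0 cd0q1 pd1 0 true true true .pnn 0 1 1 (qsf 0 536870912 536870912 536870912 1) ndB0q0 ndB0q1 pcB1 cut_pp_011 Ext.none)

def k0_pp_011 : ∃ t, chk3 f_pp_011 t 1 1 1 = true :=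
  ⟨(l 14), by decide +kernel⟩

theorem c_pp_011 : CertB 0 536870912 536870912 536870912 1033476505 6710887 3 eng mog cd0q0 cd0q1 pd1 true true true .pnn 0 1 1
    ndB0q0 ndB0q1 pcB1 cut_pp_011 Ext.none :=
  certB0 (fam := true) (s1 := true) (s2 := true) (a := 0) (b := 1) (c := 1) (cn := .pnn) (n1 := ndB0q0) (n2 := ndB0q1) (pc := pcB1) (cut := cut_pp_011) (xt := Ext.none) (P1 := 0) (W1 := 536870912) (P2 := 536870912) (W2 := 536870912) (P3 := 1033476505) (W3 := 6710887) (N0 := 3) (En := eng) (mo := mog) (C1 := cd0q0) (C2 := cd0q1) (C3 := pd1)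
    rfl k0_pp_011

noncomputable def cut_pp_012 : Cut := Cut.of [[⟨3, 0, 0, 1449551462⟩], [⟨4, 0, 0, 2845415833⟩], [⟨0, 0, 0, 33554432⟩, ⟨1, 1, 0, 33554432⟩, ⟨2, 1, 0, 33554432⟩]]

noncomputable def f_pp_012 : ℕ → ℕ → ℕ → ℕ → Bool := onCell 0 536870912 536870912 536870912 1033476505 6710887
    (rowB 3 eng mog cd0q0 cd0q1 pd2 0 true true true .pnp 0 1 2 (qsf 0 536870912 536870912 536870912 2) ndB0q0 ndB0q1 pcB2 cut_pp_012 Ext.none)

def k0_pp_012 : ∃ t, chk3 f_pp_012 t 1 1 1 = true :=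
  ⟨(l 14), by decide +kernel⟩

theorem c_pp_012 : CertB 0 536870912 536870912 536870912 1033476505 6710887 3 eng mog cd0q0 cd0q1 pd2 true true true .pnp 0 1 2
    ndB0q0 ndB0q1 pcB2 cut_pp_012 Ext.none :=
  certB0 (fam := true) (s1 := true) (s2 := true) (a := 0) (b := 1) (c := 2) (cn := .pnp) (n1 := ndB0q0) (n2 := ndB0q1) (pc := pcB2) (cut := cut_pp_012) (xt := Ext.none) (P1 := 0) (W1 := 536870912) (P2 := 536870912) (W2 := 536870912) (P3 := 1033476505) (W3 := 6710887) (N0 := 3) (En := eng) (mo := mog) (C1 := cd0q0) (C2 := cd0q1) (C3 := pd2)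
    rfl k0_pp_012

noncomputable def cut_pp_022 : Cut := Cut.of [[⟨3, 0, 0, 1449551462⟩], [⟨4, 0, 0, 2845415833⟩], [⟨0, 0, 0, 22369621⟩, ⟨1, 1, 0, 22369621⟩, ⟨2, 1, 0, 22369621⟩]]

noncomputable def f_pp_022 : ℕ → ℕ → ℕ → ℕ → Bool := onCell 0 536870912 0 536870912 1033476505 6710887
    (rowB 3 eng mog cd0q0 cd0q2 pd2 0 true true true .pp 0 2 2 (qsf 0 536870912 0 536870912 2) ndB0q0 ndB0q2 pcB2 cut_pp_022 Ext.none)

def k0_pp_022 : ∃ t, chk3 f_pp_022 t 4 2 1 = true :=
  ⟨(a (b (a (b (l 16302944) (l 16279488)) (b (l 16229952) (a (l 16318928) (l 16131848)))) (a (b (b (b (l 16270632) (l 16209952)) (a (l 16373112) (l 16493344))) (b (a (l 16402288) (l 16506088)) (a (l 16422016) (l 16489120)))) (b (a (b (l 16341760) (l 16389152)) (l 16172352)) (a (b (l 16421312) (l 16439048)) (b (l 16356912) (l 16390488)))))) (b (a (b (a (l 16129328) (l 16035328)) (a (b (l 16080888) (l 16063112)) (b (l 15980136) (b (l 15936824) (l 16030880))))) (b (a (l 15912528) (l 15762328)) (a (b (a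 (l 15888304) (l 15816128)) (a (l 15937312) (l 15888568))) (b (b (l 15702808) (b (l 15694976) (l 15712144))) (l 15814720))))) (a (b (a (b (l 16167528) (l 16252064)) (b (l 16118600) (l 16221928))) (a (b (l 16320456) (l 16371360)) (b (l 16266432) (a (l 16377280) (l 16378984))))) (b (a (b (l 16052048) (l 16172840)) (b (l 15968056) (l 16104816))) (a (b (a (l 16287504) (l 16261656)) (a (l 16367936) (l 16349760))) (b (l 16223536) (l 16280864))))))), by decide +kernel⟩

def k1_pp_022 : ∃ t, chk3 f_pp_022 t 10 4 1 = true :=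
  ⟨(b (a (a (l 15611752) (b (l 15495696) (l 15373144))) (b (a (l 15360024) (l 15214440)) (a (a (l 15290672) (b (l 15278728) (b (l 15255560) (b (a (l 15261008) (l 15229792)) (a (b (l 15257576) (l 15262320)) (l 15239160)))))) (b (l 15142616) (b (a (a (l 15207024) (b (l 15179600) (b (l 15173704) (l 15171992)))) (b (a (l 15149192) (b (l 15121720) (a (l 15125352) (l 15113016)))) (a (b (a (l 15151128) (l 15138248)) (l 15150496)) (a (l 15134552) (l 15129352))))) (a (b (a (b (l 15199560) (l 15204448)) (l 15183376)) (l 15217768)) (l 15179392))))))) (a (b (a (b (b (l 15552432) (a (l 15581336) (b (l 15506968) (l 15511328)))) (a (l 15613040) (l 15566680))) (b (a (b (l 15440624) (b (a (l 15454784) (l 15427696)) (l 15463088))) (b (b (l 15370656) (a (b (l 15384032) (l 15388544)) (l 15361664))) (l 15409560))) (l 15461600))) (a (l 15703632) (a (l 15666192) (l 15631992)))) (a (b (a (b (b (b (a (b (l 15319184) (l 15323800)) (l 15298696)) (l 15333864)) (l 15372672)) (l 15449904)) (l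 15366880)) (b (l 15537624) (l 15638304))) (b (a (l 15339984) (l 15317840)) (a (l 15553376) (l 15535416)))))), by decide +kernel⟩

def k2_pp_022 : ∃ t, chk3 f_pp_022 t 22 16 1 = true :=
  ⟨(a (a (l 15150928) (l 15099536)) (c (a (l 15058840) (b (l 15035328) (l 14997680))) (l 14982240))), by decide +kernel⟩

def k3_pp_022 : ∃ t, chk3 f_pp_022 t 22 17 1 = true :=
  ⟨(b (b (a (a (l 15106800) (l 15054496)) (a (a (l 15018096) (b (l 14999768) (b (l 14992992) (a (l 14994720) (b (l 14984720) (c (a (l 14993632) (l 14991704)) (l 14979376))))))) (a (b (l 14978152) (c (b (a (l 14984016) (b (l 14974704) (a (b (l 14975736) (l 14977488)) (l 14975312)))) (a (b (a (l 14985048) (l 14983336)) (l 14991000)) (l 14986568))) (b (a (l 14970512) (l 14962536)) (l 14973344)))) (b (b (l 14960064) (c (a (a (l 14969760) (l 14965456)) (b (a (l 14960968) (l 14956928)) (a (b (l 14960168) (l 14962096)) (l 14960280)))) (a (l 14954328) (l 14947064)))) (a (a (b (b (b (l 14981944) (l 14962816)) (l 14968416))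 (l 14979496)) (l 14971864)) (l 14972016)))))) (a (a (a (l 15103608) (b (l 15080448) (b (l 15074080) (a (l 15077096) (b (l 15064688) (l 15065776)))))) (b (a (l 15054136) (b (l 15031080) (a (l 15033456) (b (l 15022216) (c (l 15030024) (l 15016840)))))) (a (b (a (l 15054680) (b (l 15042848) (c (l 15050512) (l 15037480)))) (a (b (l 15054736) (l 15060968)) (l 15053880))) (a (b (b (c (l 15040112) (l 15027000)) (l 15039904)) (l 15050728)) (l 15040688))))) (a (b (a (b (a (l 15013456) (b (l 15002832) (c (a (l 15011792) (l 15009416)) (l 14997464)))) (a (b (c (l 15030728) (l 15006992)) (l 15020072)) (l 15014272))) (a (b (c (b (a (l 15002552) (l 15000392)) (l 15008184)) (l 14991376)) (l 15012472)) (l 15003712))) (l 15035200)) (c (l 15023040) (l 15009776))))) (a (a (b (b (a (b (a (l 15100664) (b (l 15087704) (l 15088736))) (a (l 15103520) (l 15098360))) (a (b (b (l 15077112) (l 15083240)) (l 15093912)) (l 15082672))) (l 15117400)) (l 15159896)) (l 15054016)) (a (l 15044848)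 (l 15041408)))), by decide +kernel⟩

def k4_pp_022 : ∃ t, chk3 f_pp_022 t 23 32 1 = true :=
  ⟨(a (a (l 14991624) (l 14959512)) (a (l 14932808) (c (l 14918680) (l 14904800)))), by decide +kernel⟩

def k5_pp_022 : ∃ t, chk3 f_pp_022 t 46 33 1 = true :=
  ⟨(b (a (l 14962664) (c (l 14937016) (l 14923248))) (a (a (l 14952672) (b (l 14939680) (b (l 14932552) (c (a (b (l 14940224) (a (l 14940072) (b (l 14936304) (l 14936240)))) (b (a (l 14933800) (b (l 14930200) (l 14930200))) (a (b (l 14933176) (l 14935496)) (l 14934432)))) (a (l 14926056) (l 14920280)))))) (b (a (l 14923296) (b (l 14910680) (c (a (b (l 14917664) (a (l 14917152) (b (l 14914096) (c (l 14917728) (l 14910728))))) (b (a (l 14912336) (b (l 14909464) (c (l 14913144) (l 14906136)))) (a (b (c (l 14915392) (l 14908384)) (l 14914624)) (l 14914312)))) (a (l 14903440) (l 14899240))))) (c (a (b (a (b (l 14928232) (a (l 14927880) (b (l 14924464) (c (l 14927992) (l 14921032))))) (b (a (l 14922336) (b (l 14919096) (c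 (l 14922672) (l 14915696)))) (a (b (c (l 14925288) (l 14918320)) (l 14924344)) (l 14923656)))) (a (b (a (b (c (l 14930784) (l 14923832)) (l 14929744)) (l 14928872)) (l 14935856)) (l 14934304))) (a (b (b (a (b (c (l 14920152) (l 14913168)) (l 14919296)) (l 14918800)) (l 14925624)) (l 14936896)) (l 14932352))) (a (b (a (l 14914024) (l 14909032)) (l 14919120)) (l 14916496)))))), by decide +kernel⟩

def k6_pp_022 : ∃ t, chk3 f_pp_022 t 47 33 1 = true :=
  ⟨(a (b (a (l 14909272) (b (l 14902064) (b (l 14894640) (c (a (b (l 14900896) (a (l 14900104) (b (l 14897776) (c (l 14901648) (l 14894592))))) (b (a (l 14896768) (b (l 14894632) (l 14895048))) (a (b (c (l 14900064) (l 14893008)) (l 14899648)) (l 14900112)))) (a (l 14886680) (l 14884152)))))) (c (b (a (b (a (b (l 14908544) (a (l 14907888) (b (l 14905200) (c (l 14908936) (l 14901912))))) (b (a (l 14903808) (b (l 14901304) (c (l 14905104) (l 14898064)))) (a (b (c (l 14906976) (l 14899936)) (l 14906384)) (l 14906456))))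 (a (b (a (b (c (l 14910992) (l 14903976)) (l 14910312)) (l 14910192)) (l 14916856)) (l 14916824))) (a (b (b (a (b (c (l 14903328) (l 14896280)) (l 14902824)) (l 14903088)) (l 14909592)) (l 14920976)) (l 14917936))) (l 14941584)) (b (a (b (a (l 14894312) (l 14890936)) (l 14900696)) (l 14901192)) (l 14927760)))) (a (b (b (l 14891368) (c (b (a (b (l 14894752) (a (l 14893816) (b (l 14891872) (l 14892352)))) (b (a (l 14891248) (b (l 14889488) (l 14890048))) (a (b (l 14891152) (l 14894448)) (l 14895304)))) (a (b (a (b (l 14893648) (l 14896856)) (l 14897512)) (l 14903848)) (l 14905376))) (b (a (l 14880568) (l 14878888)) (l 14888336)))) (l 14933840)) (b (b (b (l 14884640) (c (a (b (l 14890128) (a (l 14889056) (b (l 14887496) (l 14888136)))) (b (a (l 14887256) (b (l 14885888) (l 14886624))) (a (l 14888976) (l 14892056)))) (a (l 14875984) (l 14875192)))) (c (a (b (a (b (b (l 14889048) (l 14892432)) (l 14898176)) (l 14897320)) (l 14911136)) (l 14909640)) (l 14892048))) (l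 14945512)))), by decide +kernel⟩

def k7_pp_022 : ∃ t, chk3 f_pp_022 t 23 17 1 = true :=
  ⟨(b (c (a (a (b (b (a (b (a (a (l 14954816) (b (l 14951288) (b (l 14949552) (l 14949392)))) (b (a (l 14946688) (b (l 14942752) (l 14942640))) (a (b (l 14945976) (l 14948080)) (l 14946648)))) (a (b (a (b (l 14952896) (l 14954912)) (l 14953288)) (l 14960640)) (l 14957624))) (a (b (b (a (b (l 14939400) (l 14941608)) (l 14940360)) (l 14947536)) (l 14958704)) (l 14952704))) (l 14980408)) (l 15024816)) (a (l 15000336) (l 15005752))) (a (l 14953968) (l 14974456))) (a (a (b (b (a (b (a (l 14939504) (l 14932968)) (l 14943416)) (l 14937768)) (l 14966856)) (l 15011560)) (l 14989464)) (l 14971192))) (a (a (l 15064856) (l 15115360)) (a (l 15130176) (l 15151392)))), by decide +kernel⟩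

def k8_pp_022 : ∃ t, chk3 f_pp_022 t 11 9 1 = true :=
  ⟨(a (a (b (a (l 15300488) (l 15266928)) (a (l 15521616) (l 15511808))) (b (a (l 15259344) (l 15257288)) (a (l 15506512) (l 15506048)))) (a (b (a (l 15261008) (l 15270688)) (b (l 15438704) (l 15551520))) (b (a (l 15286496) (l 15329544)) (b (l 15493136) (l 15607056))))), by decide +kernel⟩

def k9_pp_022 : ∃ t, chk3 f_pp_022 t 5 5 1 = true :=
  ⟨(a (b (a (a (b (l 15893072) (l 16044616)) (b (l 15788712) (l 15995680))) (a (b (l 15698048) (l 15896104)) (b (l 15705624) (l 15935168)))) (a (b (a (l 16177872) (l 16142536)) (a (l 16291488) (l 14))) (b (a (l 16097456) (l 14)) (l 14)))) (b (a (a (b (a (l 15731280) (l 15724952)) (a (l 15925688) (l 15923344))) (b (b (l 15648616) (l 15753416)) (l 14))) (b (b (a (l 15660960) (l 15717552)) (l 14)) (l 14))) (l 14))), by decide +kernel⟩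

def k10_pp_022 : ∃ t, chk3 f_pp_022 t 2 3 1 = true :=
  ⟨(a (b (b (a (a (b (a (a (l 16454640) (l 16516528)) (l 16400848)) (a (b (l 16499232) (l 16479904)) (b (l 16500352) (l 16442056)))) (b (a (b (l 16442520) (l 16439496)) (l 16407896)) (a (b (l 16436784) (l 16392704)) (b (l 16411016) (l 14))))) (a (b (a (b (l 16397504) (l 16409448)) (a (l 16422456) (l 16432224))) (l 14)) (l 14))) (a (a (b (a (b (l 16529744) (l 14)) (l 14)) (l 14)) (l 14)) (l 14))) (l 14)) (l 14)), by decide +kernel⟩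

def k11_pp_022 : ∃ t, chk3 f_pp_022 t 24 8 1 = true :=
  ⟨(b (a (b (b (a (l 14906200) (l 14893368)) (a (a (l 14889472) (b (l 14887576) (b (l 14879912) (a (a (l 14877864) (b (l 14876944) (b (l 14875560) (l 14876616)))) (b (a (l 14875744) (b (l 14874768) (l 14875936))) (l 14879768)))))) (b (a (l 14880992) (b (l 14877408) (a (c (b (l 14882160) (a (l 14881024) (l 14881304))) (l 14868344)) (b (c (a (l 14880648) (l 14881064)) (l 14867040)) (l 14878448))))) (a (b (a (c (b (l 14883304) (a (l 14882128) (l 14882160))) (l 14869384)) (b (c (a (l 14881512) (l 14881672)) (l 14867784)) (l 14878848))) (c (l 14893864) (l 14879680))) (l 14894024))))) (a (c (b (b (a (b (a (b (l 14887040) (a (l 14885840) (b (l 14884656) (l 14885488)))) (b (a (l 14884720) (b (l 14883608) (l 14884544))) (l 14888328))) (a (a (b (l 14887696) (l 14895336)) (l 14894856)) (l 14899984))) (a (l 14898928) (l 14906352))) (l 14926400)) (l 14972456)) (b (b (a (b (a (l 14872952) (l 14872904)) (l 14882152)) (l 14888320))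 (l 14912456)) (l 14958824))) (l 14901432))) (b (b (a (a (l 14884680) (b (l 14884632) (b (l 14876776) (a (a (l 14874320) (b (l 14873488) (l 14873928))) (b (a (l 14873208) (l 14874176)) (l 14879192)))))) (b (a (l 14879864) (b (l 14878080) (c (a (b (l 14882312) (l 14882504)) (b (l 14883136) (l 14888896))) (l 14871208)))) (a (b (c (a (b (l 14881544) (l 14902552)) (b (l 14881984) (l 14887400))) (l 14891136)) (l 14887928)) (l 14897216)))) (a (b (a (b (a (b (l 14874352) (c (a (l 14880400) (l 14880944)) (l 14866848))) (b (c (a (l 14880272) (l 14880952)) (l 14866776)) (l 14878560))) (l 14886360)) (l 14894688)) (l 14918064)) (l 14935928))) (a (l 14996048) (l 15029928)))) (b (a (a (l 14994496) (l 15087512)) (l 15115632)) (a (a (l 15178584) (l 15209176)) (l 15237840)))), by decide +kernel⟩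

def k12_pp_022 : ∃ t, chk3 f_pp_022 t 24 9 1 = true :=
  ⟨(a (b (a (l 15357496) (l 15388704)) (a (l 15591176) (l 15623128))) (b (b (l 15379504) (l 15498776)) (b (l 15616664) (l 14)))), by decide +kernel⟩

def k13_pp_022 : ∃ t, chk3 f_pp_022 t 25 4 1 = true :=
  ⟨(b (a (b (b (a (b (a (b (b (c (a (b (l 14883512) (l 14883888)) (b (l 14884744) (l 14890840))) (l 14872696)) (l 14891152)) (l 14915000)) (l 14917352)) (l 14971616)) (l 14977440)) (l 15063624)) (b (l 15187936) (l 15331536))) (b (b (l 15016336) (l 15142712)) (b (l 15288168) (l 15410888)))) (b (a (b (l 15452576) (l 15572136)) (b (l 15531952) (l 14))) (l 14))), by decide +kernel⟩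

def k14_pp_022 : ∃ t, chk3 f_pp_022 t 13 4 1 = true :=
  ⟨(b (a (a (b (b (l 15101728) (l 15249016)) (b (l 15373360) (l 15495856))) (b (b (l 15213672) (l 15339624)) (b (l 15463528) (l 14)))) (b (a (b (l 15309304) (l 15434608)) (l 2)) (l 14))) (l 14)), by decide +kernel⟩

def k15_pp_022 : ∃ t, chk3 f_pp_022 t 7 4 1 = true :=
  ⟨(l 2), by decide +kernel⟩

def k16_pp_022 : ∃ t, chk3 f_pp_022 t 3 5 1 = true :=
  ⟨(l 14), by decide +kernel⟩

def k17_pp_022 : ∃ t, chk3 f_pp_022 t 3 3 1 = true :=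
  ⟨(l 14), by decide +kernel⟩

theorem s18_pp_022 : ∃ t, chk3 f_pp_022 t 24 4 1 = true := ex3_b k11_pp_022 k12_pp_022

theorem s19_pp_022 : ∃ t, chk3 f_pp_022 t 12 4 1 = true := ex3_a s18_pp_022 k13_pp_022

theorem s20_pp_022 : ∃ t, chk3 f_pp_022 t 6 4 1 = true := ex3_a s19_pp_022 k14_pp_022

theorem s21_pp_022 : ∃ t, chk3 f_pp_022 t 3 4 1 = true := ex3_a s20_pp_022 k15_pp_022

theorem s22_pp_022 : ∃ t, chk3 f_pp_022 t 3 2 1 = true := ex3_b s21_pp_022 k16_pp_022

theorem s23_pp_022 : ∃ t, chk3 f_pp_022 t 3 1 1 = true := ex3_b s22_pp_022 k17_pp_022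

theorem s24_pp_022 : ∃ t, chk3 f_pp_022 t 23 33 1 = true := ex3_a k5_pp_022 k6_pp_022

theorem s25_pp_022 : ∃ t, chk3 f_pp_022 t 23 16 1 = true := ex3_b k4_pp_022 s24_pp_022

theorem s26_pp_022 : ∃ t, chk3 f_pp_022 t 23 8 1 = true := ex3_b s25_pp_022 k7_pp_022

theorem s27_pp_022 : ∃ t, chk3 f_pp_022 t 22 8 1 = true := ex3_b k2_pp_022 k3_pp_022

theorem s28_pp_022 : ∃ t, chk3 f_pp_022 t 11 8 1 = true := ex3_a s27_pp_022 s26_pp_022

theorem s29_pp_022 : ∃ t, chk3 f_pp_022 t 11 4 1 = true := ex3_b s28_pp_022 k8_pp_022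

theorem s30_pp_022 : ∃ t, chk3 f_pp_022 t 5 4 1 = true := ex3_a k1_pp_022 s29_pp_022

theorem s31_pp_022 : ∃ t, chk3 f_pp_022 t 5 2 1 = true := ex3_b s30_pp_022 k9_pp_022

theorem s32_pp_022 : ∃ t, chk3 f_pp_022 t 2 2 1 = true := ex3_a k0_pp_022 s31_pp_022

theorem s33_pp_022 : ∃ t, chk3 f_pp_022 t 2 1 1 = true := ex3_b s32_pp_022 k10_pp_022

theorem s34_pp_022 : ∃ t, chk3 f_pp_022 t 1 1 1 = true := ex3_a s33_pp_022 s23_pp_022

theorem c_pp_022 : CertB 0 536870912 0 536870912 1033476505 6710887 3 eng mog cd0q0 cd0q2 pd2 true true true .pp 0 2 2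
    ndB0q0 ndB0q2 pcB2 cut_pp_022 Ext.none :=
  certB0 (fam := true) (s1 := true) (s2 := true) (a := 0) (b := 2) (c := 2) (cn := .pp) (n1 := ndB0q0) (n2 := ndB0q2) (pc := pcB2) (cut := cut_pp_022) (xt := Ext.none) (P1 := 0) (W1 := 536870912) (P2 := 0) (W2 := 536870912) (P3 := 1033476505) (W3 := 6710887) (N0 := 3) (En := eng) (mo := mog) (C1 := cd0q0) (C2 := cd0q2) (C3 := pd2)
    rfl s34_pp_022

noncomputable def cut_pp_023 : Cut := Cut.of [[⟨3, 0, 0, 1449551462⟩], [⟨4, 0, 0, 2845415833⟩]]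

noncomputable def f_pp_023 : ℕ → ℕ → ℕ → ℕ → Bool := onCell 1610612736 536870912 0 536870912 1033476505 6710887
    (rowB 3 eng mog cd0q0 cd0q2 pd3 2 true true true .up 0 2 3 (qsf 0 536870912 0 536870912 3) ndB0q0 ndB0q2 pcB3 cut_pp_023 Ext.none)

def k0_pp_023 : ∃ t, chk3 f_pp_023 t 1 1 1 = true :=
  ⟨(a (b (a (a (b (b (b (a (b (a (a (l 15117880) (l 15175656)) (l 15264344)) (a (a (l 15260248) (l 15317360)) (l 14))) (l 14)) (l 14)) (l 14)) (l 14)) (l 14)) (l 14)) (l 4)) (l 2)), by decide +kernel⟩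

theorem c_pp_023 : CertB 0 536870912 0 536870912 1033476505 6710887 3 eng mog cd0q0 cd0q2 pd3 true true true .up 0 2 3
    ndB0q0 ndB0q2 pcB3 cut_pp_023 Ext.none :=
  certB2 (fam := true) (s1 := true) (s2 := true) (a := 0) (b := 2) (c := 3) (cn := .up) (n1 := ndB0q0) (n2 := ndB0q2) (pc := pcB3) (cut := cut_pp_023) (xt := Ext.none) (P1 := 0) (W1 := 536870912) (P2 := 0) (W2 := 536870912) (P3 := 1033476505) (W3 := 6710887) (N0 := 3) (En := eng) (mo := mog) (C1 := cd0q0) (C2 := cd0q2) (C3 := pd3)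
    rfl (fun _ => rfl) k0_pp_023

noncomputable def cut_pp_101 : Cut := Cut.of [[⟨3, 0, 0, 1449551462⟩], [⟨4, 0, 0, 2845415833⟩]]

noncomputable def f_pp_101 : ℕ → ℕ → ℕ → ℕ → Bool := onCell 536870912 536870912 0 536870912 1033476505 6710887
    (rowB 3 eng mog cd0q1 cd0q0 pd1 0 true true true .npn 1 0 1 (qsf 536870912 536870912 0 536870912 1) ndB0q1 ndB0q0 pcB1 cut_pp_101 Ext.none)

def k0_pp_101 : ∃ t, chk3 f_pp_101 t 1 1 1 = true :=
  ⟨(l 14), by decide +kernel⟩

theorem c_pp_101 : CertB 536870912 536870912 0 536870912 1033476505 6710887 3 eng mog cd0q1 cd0q0 pd1 true true true .npn 1 0 1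
    ndB0q1 ndB0q0 pcB1 cut_pp_101 Ext.none :=
  certB0 (fam := true) (s1 := true) (s2 := true) (a := 1) (b := 0) (c := 1) (cn := .npn) (n1 := ndB0q1) (n2 := ndB0q0) (pc := pcB1) (cut := cut_pp_101) (xt := Ext.none) (P1 := 536870912) (W1 := 536870912) (P2 := 0) (W2 := 536870912) (P3 := 1033476505) (W3 := 6710887) (N0 := 3) (En := eng) (mo := mog) (C1 := cd0q1) (C2 := cd0q0) (C3 := pd1)
    rfl k0_pp_101

noncomputable def cut_pp_102 : Cut := Cut.of [[⟨3, 0, 0, 1449551462⟩], [⟨4, 0, 0, 2845415833⟩]]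

noncomputable def f_pp_102 : ℕ → ℕ → ℕ → ℕ → Bool := onCell 536870912 536870912 0 536870912 1033476505 6710887
    (rowB 3 eng mog cd0q1 cd0q0 pd2 0 true true true .npp 1 0 2 (qsf 536870912 536870912 0 536870912 2) ndB0q1 ndB0q0 pcB2 cut_pp_102 Ext.none)

def k0_pp_102 : ∃ t, chk3 f_pp_102 t 1 1 1 = true :=
  ⟨(l 14), by decide +kernel⟩

theorem c_pp_102 : CertB 536870912 536870912 0 536870912 1033476505 6710887 3 eng mog cd0q1 cd0q0 pd2 true true true .npp 1 0 2
    ndB0q1 ndB0q0 pcB2 cut_pp_102 Ext.none :=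
  certB0 (fam := true) (s1 := true) (s2 := true) (a := 1) (b := 0) (c := 2) (cn := .npp) (n1 := ndB0q1) (n2 := ndB0q0) (pc := pcB2) (cut := cut_pp_102) (xt := Ext.none) (P1 := 536870912) (W1 := 536870912) (P2 := 0) (W2 := 536870912) (P3 := 1033476505) (W3 := 6710887) (N0 := 3) (En := eng) (mo := mog) (C1 := cd0q1) (C2 := cd0q0) (C3 := pd2)
    rfl k0_pp_102

noncomputable def cut_pp_112 : Cut := Cut.of [[⟨3, 0, 0, 1449551462⟩], [⟨4, 0, 0, 2845415833⟩]]

noncomputable def f_pp_112 : ℕ → ℕ → ℕ → ℕ → Bool := onCell 536870912 536870912 536870912 536870912 1033476505 6710887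
    (rowB 3 eng mog cd0q1 cd0q1 pd2 0 true true true .dn 1 1 2 (qsf 536870912 536870912 536870912 536870912 2) ndB0q1 ndB0q1 pcB2 cut_pp_112 Ext.none)

def k0_pp_112 : ∃ t, chk3 f_pp_112 t 1 1 1 = true :=
  ⟨(l 4), by decide +kernel⟩

theorem c_pp_112 : CertB 536870912 536870912 536870912 536870912 1033476505 6710887 3 eng mog cd0q1 cd0q1 pd2 true true true .dn 1 1 2
    ndB0q1 ndB0q1 pcB2 cut_pp_112 Ext.none :=
  certB0 (fam := true) (s1 := true) (s2 := true) (a := 1) (b := 1) (c := 2) (cn := .dn) (n1 := ndB0q1) (n2 := ndB0q1) (pc := pcB2) (cut := cut_pp_112) (xt := Ext.none) (P1 := 536870912) (W1 := 536870912) (P2 := 536870912) (W2 := 536870912) (P3 := 1033476505) (W3 := 6710887) (N0 := 3) (En := eng) (mo := mog) (C1 := cd0q1) (C2 := cd0q1) (C3 := pd2)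
    rfl k0_pp_112

noncomputable def cut_pp_113 : Cut := Cut.of [[⟨3, 0, 0, 1449551462⟩], [⟨4, 0, 0, 2845415833⟩]]

noncomputable def f_pp_113 : ℕ → ℕ → ℕ → ℕ → Bool := onCell 536870912 536870912 536870912 536870912 1033476505 6710887
    (rowB 3 eng mog cd0q1 cd0q1 pd3 0 true true true .nn 1 1 3 (qsf 536870912 536870912 536870912 536870912 3) ndB0q1 ndB0q1 pcB3 cut_pp_113 Ext.none)

def k0_pp_113 : ∃ t, chk3 f_pp_113 t 1 1 1 = true :=
  ⟨(l 4), by decide +kernel⟩

theorem c_pp_113 : CertB 536870912 536870912 536870912 536870912 1033476505 6710887 3 eng mog cd0q1 cd0q1 pd3 true true true .nn 1 1 3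
    ndB0q1 ndB0q1 pcB3 cut_pp_113 Ext.none :=
  certB0 (fam := true) (s1 := true) (s2 := true) (a := 1) (b := 1) (c := 3) (cn := .nn) (n1 := ndB0q1) (n2 := ndB0q1) (pc := pcB3) (cut := cut_pp_113) (xt := Ext.none) (P1 := 536870912) (W1 := 536870912) (P2 := 536870912) (W2 := 536870912) (P3 := 1033476505) (W3 := 6710887) (N0 := 3) (En := eng) (mo := mog) (C1 := cd0q1) (C2 := cd0q1) (C3 := pd3)
    rfl k0_pp_113

noncomputable def cut_pp_123 : Cut := Cut.of [[⟨3, 0, 0, 1449551462⟩], [⟨4, 0, 0, 2845415833⟩]]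

noncomputable def f_pp_123 : ℕ → ℕ → ℕ → ℕ → Bool := onCell 536870912 536870912 0 536870912 1033476505 6710887
    (rowB 3 eng mog cd0q1 cd0q2 pd3 0 true true true .npn 1 2 3 (qsf 536870912 536870912 0 536870912 3) ndB0q1 ndB0q2 pcB3 cut_pp_123 Ext.none)

def k0_pp_123 : ∃ t, chk3 f_pp_123 t 1 1 1 = true :=
  ⟨(a (l 14) (l 4)), by decide +kernel⟩

theorem c_pp_123 : CertB 536870912 536870912 0 536870912 1033476505 6710887 3 eng mog cd0q1 cd0q2 pd3 true true true .npn 1 2 3
    ndB0q1 ndB0q2 pcB3 cut_pp_123 Ext.none :=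
  certB0 (fam := true) (s1 := true) (s2 := true) (a := 1) (b := 2) (c := 3) (cn := .npn) (n1 := ndB0q1) (n2 := ndB0q2) (pc := pcB3) (cut := cut_pp_123) (xt := Ext.none) (P1 := 536870912) (W1 := 536870912) (P2 := 0) (W2 := 536870912) (P3 := 1033476505) (W3 := 6710887) (N0 := 3) (En := eng) (mo := mog) (C1 := cd0q1) (C2 := cd0q2) (C3 := pd3)
    rfl k0_pp_123

noncomputable def cut_pp_202 : Cut := Cut.of [[⟨3, 0, 0, 1449551462⟩], [⟨4, 0, 0, 2845415833⟩]]

noncomputable def f_pp_202 : ℕ → ℕ → ℕ → ℕ → Bool := onCell 0 536870912 0 536870912 1033476505 6710887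
    (rowB 3 eng mog cd0q2 cd0q0 pd2 0 true true true .pp 2 0 2 (qsf 0 536870912 0 536870912 2) ndB0q2 ndB0q0 pcB2 cut_pp_202 Ext.none)

def k0_pp_202 : ∃ t, chk3 f_pp_202 t 1 1 1 = true :=
  ⟨(l 5), by decide +kernel⟩

theorem c_pp_202 : CertB 0 536870912 0 536870912 1033476505 6710887 3 eng mog cd0q2 cd0q0 pd2 true true true .pp 2 0 2
    ndB0q2 ndB0q0 pcB2 cut_pp_202 Ext.none :=
  certB0 (fam := true) (s1 := true) (s2 := true) (a := 2) (b := 0) (c := 2) (cn := .pp) (n1 := ndB0q2) (n2 := ndB0q0) (pc := pcB2) (cut := cut_pp_202) (xt := Ext.none) (P1 := 0) (W1 := 536870912) (P2 := 0) (W2 := 536870912) (P3 := 1033476505) (W3 := 6710887) (N0 := 3) (En := eng) (mo := mog) (C1 := cd0q2) (C2 := cd0q0) (C3 := pd2)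
    rfl k0_pp_202

noncomputable def cut_pp_203 : Cut := Cut.of [[⟨3, 0, 0, 1449551462⟩], [⟨4, 0, 0, 2845415833⟩]]

noncomputable def f_pp_203 : ℕ → ℕ → ℕ → ℕ → Bool := onCell 0 536870912 0 536870912 1033476505 6710887
    (rowB 3 eng mog cd0q2 cd0q0 pd3 0 true true true .up 2 0 3 (qsf 0 536870912 0 536870912 3) ndB0q2 ndB0q0 pcB3 cut_pp_203 Ext.none)

def k0_pp_203 : ∃ t, chk3 f_pp_203 t 1 1 1 = true :=
  ⟨(l 5), by decide +kernel⟩

theorem c_pp_203 : CertB 0 536870912 0 536870912 1033476505 6710887 3 eng mog cd0q2 cd0q0 pd3 true true true .up 2 0 3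
    ndB0q2 ndB0q0 pcB3 cut_pp_203 Ext.none :=
  certB0 (fam := true) (s1 := true) (s2 := true) (a := 2) (b := 0) (c := 3) (cn := .up) (n1 := ndB0q2) (n2 := ndB0q0) (pc := pcB3) (cut := cut_pp_203) (xt := Ext.none) (P1 := 0) (W1 := 536870912) (P2 := 0) (W2 := 536870912) (P3 := 1033476505) (W3 := 6710887) (N0 := 3) (En := eng) (mo := mog) (C1 := cd0q2) (C2 := cd0q0) (C3 := pd3)
    rfl k0_pp_203

noncomputable def cut_pp_213 : Cut := Cut.of [[⟨3, 0, 0, 1449551462⟩], [⟨4, 0, 0, 2845415833⟩]]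

noncomputable def f_pp_213 : ℕ → ℕ → ℕ → ℕ → Bool := onCell 0 536870912 536870912 536870912 1033476505 6710887
    (rowB 3 eng mog cd0q2 cd0q1 pd3 0 true true true .pnn 2 1 3 (qsf 0 536870912 536870912 536870912 3) ndB0q2 ndB0q1 pcB3 cut_pp_213 Ext.none)

def k0_pp_213 : ∃ t, chk3 f_pp_213 t 1 1 1 = true :=
  ⟨(a (l 5) (l 4)), by decide +kernel⟩

theorem c_pp_213 : CertB 0 536870912 536870912 536870912 1033476505 6710887 3 eng mog cd0q2 cd0q1 pd3 true true true .pnn 2 1 3
    ndB0q2 ndB0q1 pcB3 cut_pp_213 Ext.none :=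
  certB0 (fam := true) (s1 := true) (s2 := true) (a := 2) (b := 1) (c := 3) (cn := .pnn) (n1 := ndB0q2) (n2 := ndB0q1) (pc := pcB3) (cut := cut_pp_213) (xt := Ext.none) (P1 := 0) (W1 := 536870912) (P2 := 536870912) (W2 := 536870912) (P3 := 1033476505) (W3 := 6710887) (N0 := 3) (En := eng) (mo := mog) (C1 := cd0q2) (C2 := cd0q1) (C3 := pd3)
    rfl k0_pp_213

noncomputable def cut_pm_001 : Cut := Cut.of [[⟨3, 0, 0, 1449551462⟩], [⟨4, 0, 0, 2845415833⟩]]

noncomputable def f_pm_001 : ℕ → ℕ → ℕ → ℕ → Bool := onCell 0 536870912 0 536870912 1033476505 6710887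
    (rowB 3 eng mog cd0q0 cd0q0 pd1 0 true true false .up 0 0 1 (qsf 0 536870912 0 536870912 1) ndB0q0 ndB0q0 pcB1 cut_pm_001 Ext.none)

def k0_pm_001 : ∃ t, chk3 f_pm_001 t 1 1 1 = true :=
  ⟨(l 3), by decide +kernel⟩

theorem c_pm_001 : CertB 0 536870912 0 536870912 1033476505 6710887 3 eng mog cd0q0 cd0q0 pd1 true true false .up 0 0 1
    ndB0q0 ndB0q0 pcB1 cut_pm_001 Ext.none :=
  certB0 (fam := true) (s1 := true) (s2 := false) (a := 0) (b := 0) (c := 1) (cn := .up) (n1 := ndB0q0) (n2 := ndB0q0) (pc := pcB1) (cut := cut_pm_001) (xt := Ext.none) (P1 := 0) (W1 := 536870912) (P2 := 0) (W2 := 536870912) (P3 := 1033476505) (W3 := 6710887) (N0 := 3) (En := eng) (mo := mog) (C1 := cd0q0) (C2 := cd0q0) (C3 := pd1)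
    rfl k0_pm_001

noncomputable def cut_pm_011 : Cut := Cut.of [[⟨3, 0, 0, 1449551462⟩], [⟨4, 0, 0, 2845415833⟩], [⟨0, 0, 0, 33554432⟩, ⟨1, 1, 0, 33554432⟩, ⟨2, 1, 0, 33554432⟩]]

noncomputable def f_pm_011 : ℕ → ℕ → ℕ → ℕ → Bool := onCell 0 536870912 536870912 536870912 1033476505 6710887
    (rowB 3 eng mog cd0q0 cd0q1 pd1 1 true true false .pnn 0 1 1 (qsf 0 536870912 536870912 536870912 1) ndB0q0 ndB0q1 pcB1 cut_pm_011 Ext.none)

def k0_pm_011 : ∃ t, chk3 f_pm_011 t 1 1 1 = true :=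
  ⟨(l 6), by decide +kernel⟩

theorem c_pm_011 : CertB 0 536870912 536870912 536870912 1033476505 6710887 3 eng mog cd0q0 cd0q1 pd1 true true false .pnn 0 1 1
    ndB0q0 ndB0q1 pcB1 cut_pm_011 Ext.none :=
  certB1 (fam := true) (s1 := true) (s2 := false) (a := 0) (b := 1) (c := 1) (cn := .pnn) (n1 := ndB0q0) (n2 := ndB0q1) (pc := pcB1) (cut := cut_pm_011) (xt := Ext.none) (P1 := 0) (W1 := 536870912) (P2 := 536870912) (W2 := 536870912) (P3 := 1033476505) (W3 := 6710887) (N0 := 3) (En := eng) (mo := mog) (C1 := cd0q0) (C2 := cd0q1) (C3 := pd1)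
    rfl (fun _ => rfl) k0_pm_011

noncomputable def cut_pm_012 : Cut := Cut.of [[⟨3, 0, 0, 1449551462⟩], [⟨4, 0, 0, 2845415833⟩], [⟨0, 0, 0, 16777216⟩, ⟨1, 1, 0, 16777216⟩, ⟨2, 1, 0, 16777216⟩]]

noncomputable def f_pm_012 : ℕ → ℕ → ℕ → ℕ → Bool := onCell 0 536870912 536870912 536870912 1033476505 6710887
    (rowB 3 eng mog cd0q0 cd0q1 pd2 0 true true false .pnp 0 1 2 (qsf 0 536870912 536870912 536870912 2) ndB0q0 ndB0q1 pcB2 cut_pm_012 Ext.none)

def k0_pm_012 : ∃ t, chk3 f_pm_012 t 2 1 1 = true :=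
  ⟨(b (l 3) (a (l 6) (b (l 6) (b (l 6) (a (l 6) (b (l 6) (a (l 6) (b (l 6) (b (a (l 6) (a (b (l 6) (a (l 15479616) (l 15473432))) (b (l 15503960) (a (l 15469144) (l 15466816))))) (a (a (b (l 6) (l 15444336)) (b (l 15456416) (l 15420760))) (a (b (a (l 15443520) (l 15437232)) (a (l 15407712) (l 15401328))) (b (a (l 15432848) (l 15430424)) (a (l 15396848) (l 15394320)))))))))))))), by decide +kernel⟩

def k1_pm_012 : ∃ t, chk3 f_pm_012 t 3 2 1 = true :=
  ⟨(l 6), by decide +kernel⟩

def k2_pm_012 : ∃ t, chk3 f_pm_012 t 3 6 1 = true :=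
  ⟨(a (l 6) (b (l 6) (a (b (l 6) (a (l 6) (b (l 6) (l 16587904)))) (b (a (l 6) (l 16586856)) (a (b (l 16568760) (l 16546216)) (b (l 16547096) (l 16522336))))))), by decide +kernel⟩

def k3_pm_012 : ∃ t, chk3 f_pm_012 t 6 14 1 = true :=
  ⟨(a (l 6) (b (l 6) (b (a (l 6) (b (l 16356792) (l 16266240))) (a (b (l 6) (a (l 6) (l 16043856))) (b (a (l 16161184) (l 16182824)) (a (l 16065104) (l 16086504))))))), by decide +kernel⟩

def k4_pm_012 : ∃ t, chk3 f_pm_012 t 12 30 1 = true :=
  ⟨(b (a (l 6) (b (l 6) (a (l 6) (b (l 6) (a (l 6) (b (l 15817648) (l 15800584))))))) (a (b (l 6) (a (l 6) (a (l 6) (b (l 6) (l 15678776))))) (b (a (b (l 6) (a (l 6) (b (l 15746200) (l 15735504)))) (b (a (b (l 15777464) (l 15764720)) (b (l 15785768) (l 15772960))) (a (b (l 15753720) (l 15742952)) (b (l 15761896) (l 15751072))))) (a (a (b (l 15711048) (l 15684352)) (b (l 15717640) (l 15690800))) (a (b (l 15724992) (l 15698008)) (b (l 15733008) (l 15705888))))))), by decide +kernel⟩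

def k5_pm_012 : ∃ t, chk3 f_pm_012 t 13 30 1 = true :=
  ⟨(b (a (b (a (b (l 15952416) (l 15864432)) (b (l 15972552) (l 15884376))) (a (b (a (b (l 15868040) (l 15846328)) (b (l 15877592) (l 15855824))) (a (b (l 15826632) (l 15809504)) (b (l 15836064) (l 15818880)))) (b (a (b (l 15887496) (l 15865680)) (b (l 15897680) (l 15875816))) (a (b (l 15845872) (l 15828640)) (b (l 15855960) (l 15838672)))))) (b (a (b (l 15993560) (l 15915696)) (b (l 16014768) (l 15926288))) (a (b (a (b (l 15908048) (l 15886136)) (b (l 15918520) (l 15896568))) (a (b (l 15866240) (c (l 15852680) (l 15845144))) (b (l 15876632) (l 15859264)))) (b (a (b (l 15929008) (l 15907032)) (l 15886240)) (a (c (l 15881688) (l 15832440)) (c (l 15891992) (l 15842856))))))) (a (b (a (b (a (b (l 15794624) (l 15781760)) (b (l 15803952) (l 15791032))) (a (b (l 15770640) (l 15759752)) (b (l 15779856) (l 15768904)))) (b (a (b (l 15813656) (l 15800680)) (b (l 15823648) (l 15810624))) (a (b (l 15789448) (l 15778448))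 (b (l 15799336) (l 15788288))))) (a (a (b (l 15741592) (l 15714352)) (b (l 15750656) (l 15723296))) (a (b (l 15760120) (l 15732648)) (b (l 15769880) (l 15742304))))) (b (a (b (a (b (l 15833840) (l 15820768)) (b (l 15844152) (l 15831040))) (a (b (l 15809440) (l 15798344)) (b (l 15819664) (l 15808528)))) (b (a (b (l 15854496) (l 15841352)) (b (l 15864808) (l 15851624))) (a (b (l 15829944) (l 15818760)) (b (l 15840184) (l 15828968))))) (a (a (b (l 15779864) (l 15752192)) (b (l 15789984) (l 15762224))) (a (b (l 15800160) (l 15772320)) (b (l 15810320) (l 15782400))))))), by decide +kernel⟩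

def k6_pm_012 : ∃ t, chk3 f_pm_012 t 12 31 1 = true :=
  ⟨(a (b (a (a (b (l 6) (a (l 15556088) (l 15556712))) (b (b (l 6) (l 15609488)) (b (l 15575664) (l 15540512)))) (b (a (b (l 15644728) (l 15612704)) (b (l 15649184) (l 15617000))) (a (b (l 15578712) (l 15543376)) (b (l 15582832) (l 15547328))))) (a (a (b (a (b (l 15502728) (l 15466360)) (b (l 15503200) (l 15466744))) (a (b (l 15429872) (l 15393664)) (b (l 15430152) (l 15393848)))) (b (b (l 15504448) (l 15467848)) (b (l 15431112) (l 15394656)))) (b (a (b (l 15507128) (l 15470344)) (b (l 15510904) (l 15473944))) (a (b (l 15433424) (l 15396776)) (b (l 15436840) (l 15400016)))))) (b (a (b (a (b (l 15654608) (l 15622264)) (b (l 15660904) (l 15628408))) (a (b (l 15587936) (l 15552264)) (b (l 15593920) (l 15558096)))) (b (a (b (l 15667968) (l 15635328)) (b (l 15675712) (l 15642936))) (a (b (l 15600696) (l 15564712)) (b (l 15608160) (l 15572032))))) (a (b (a (b (l 15515672) (l 15478544)) (b (l 15521344) (l 15484048)))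 (a (b (l 15441264) (l 15404264)) (b (l 15446600) (c (l 15415184) (l 15403672))))) (b (a (b (l 15527808) (l 15490352)) (b (l 15534984) (l 15497376))) (a (b (l 15452752) (a (l 15413840) (l 15417024))) (b (l 15459624) (l 15422136))))))), by decide +kernel⟩

def k7_pm_012 : ∃ t, chk3 f_pm_012 t 13 31 1 = true :=
  ⟨(b (a (a (b (a (b (l 15684048) (l 15651128)) (b (l 15692872) (l 15659832))) (a (b (l 15616224) (l 15579960)) (b (l 15624800) (l 15588408)))) (b (a (b (l 15702104) (l 15668944)) (b (l 15711656) (l 15678392))) (a (b (l 15633792) (l 15597280)) (l 15624880)))) (a (b (a (b (l 15721440) (l 15688072)) (b (l 15731384) (l 15697920))) (a (l 15634408) (l 15644104))) (b (a (l 15724768) (l 15734736)) (a (l 15653904) (l 15663712))))) (a (a (b (a (b (l 15542768) (l 15505024)) (b (l 15551080) (l 15513200))) (a (b (l 15467128) (l 15429488)) (b (l 15475168) (l 15437392)))) (b (a (b (l 15559832) (l 15521824)) (b (l 15568928) (l 15530808))) (a (b (l 15483656) (l 15445752)) (b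 (l 15492520) (l 15454488))))) (a (b (a (b (l 15578296) (l 15540064)) (l 15547672)) (a (b (l 15501664) (l 15463520)) (b (l 15511008) (l 15472752)))) (b (a (l 15578256) (l 15587904)) (a (b (l 15520472) (l 15482128)) (b (l 15529992) (l 15491552))))))), by decide +kernel⟩

def k8_pm_012 : ∃ t, chk3 f_pm_012 t 7 14 1 = true :=
  ⟨(b (a (a (b (l 16604944) (l 16441408)) (b (b (l 16549920) (l 16623384)) (l 16456328))) (b (a (b (l 16536344) (l 16529128)) (b (l 16505088) (l 16501480))) (a (l 16502256) (l 16517616)))) (a (b (a (b (l 16399312) (l 16308544)) (b (l 16435536) (l 16344840))) (a (b (a (l 16203912) (l 16223848)) (a (l 16107416) (l 16127248))) (b (l 16208544) (a (l 16145440) (l 16161472))))) (b (a (b (l 16461296) (l 16370984)) (b (l 16474496) (l 16384864))) (a (b (l 16276928) (a (l 16174872) (l 16185208))) (b (l 16291392) (l 16153592)))))), by decide +kernel⟩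

def k9_pm_012 : ∃ t, chk3 f_pm_012 t 7 30 1 = true :=
  ⟨(a (b (a (b (a (b (l 16035536) (l 15967928)) (b (l 16055280) (l 15987600))) (a (b (a (l 15896536) (l 15906616)) (a (b (l 15907680) (l 15890216)) (l 15866728))) (b (a (l 15916424) (l 15967832)) (a (l 15876496) (l 15927872))))) (b (a (a (l 16045424) (l 16054008)) (l 16044880)) (a (b (a (l 15976880) (l 15985456)) (a (l 15936904) (l 15945464))) (b (l 15976336) (l 15915376))))) (a (b (a (b (a (b (l 15875000) (l 15861792)) (b (l 15885000) (l 15871768))) (a (b (l 15850320) (l 15839072)) (l 15854504))) (b (a (l 15887864) (l 15897264)) (a (l 15864184) (l 15873552)))) (a (a (b (l 15820376) (l 15792392)) (b (l 15830256) (l 15802224))) (a (b (l 15839904) (l 15811816)) (l 15835528)))) (b (a (b (a (l 15906272) (l 15914816)) (a (l 15882536) (l 15891064))) (b (a (l 15922840) (l 15930288)) (a (l 15899080) (l 15906528)))) (a (a (l 15844464) (l 15852968)) (a (l 15860976) (l 15868424)))))) (b (a (b (a (l 16079344) (l 16089848))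 (a (b (l 16010856) (l 15970888)) (b (l 16021472) (l 15981576)))) (b (a (l 16097072) (l 16103024)) (a (b (l 16028864) (l 15989088)) (l 15993688)))) (a (b (a (b (l 15940272) (l 15916536)) (b (l 15951024) (l 15927352))) (a (a (l 15875264) (l 15881432)) (l 15889352))) (b (a (b (l 15958632) (l 15935072)) (l 15953312)) (a (l 15897224) (l 15904048)))))), by decide +kernel⟩

def k10_pm_012 : ∃ t, chk3 f_pm_012 t 7 31 1 = true :=
  ⟨(a (b (a (a (b (a (l 15744632) (l 15754368)) (a (l 15673464) (l 15683080))) (b (a (l 15763896) (l 15773128)) (a (l 15692496) (l 15701640)))) (a (b (a (l 15782000) (l 15790464)) (l 15672792)) (b (a (l 15798448) (l 15805888)) (l 15688680)))) (a (a (b (a (l 15597504) (l 15606992)) (a (b (l 15539480) (l 15500960)) (l 15508456))) (b (a (l 15616296) (l 15625352)) (a (l 15538616) (l 15547568)))) (a (b (a (l 15634088) (l 15642448)) (a (l 15556232) (l 15564528))) (b (l 15612216) (a (l 15572408) (l 15579816)))))) (a (b (a (b (l 15815952) (l 15744336))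 (b (l 15826968) (l 15755464))) (a (b (l 15625944) (a (l 15586696) (l 15592992))) (b (l 15658144) (a (l 15598664) (l 15603664))))) (b (a (b (l 15835032) (l 15763720)) (b (l 15842136) (l 15771096))) (a (b (l 15687560) (l 15609896)) (b (l 15695216) (l 15617832)))))), by decide +kernel⟩

theorem s11_pm_012 : ∃ t, chk3 f_pm_012 t 7 15 1 = true := ex3_b k9_pm_012 k10_pm_012

theorem s12_pm_012 : ∃ t, chk3 f_pm_012 t 7 7 1 = true := ex3_b k8_pm_012 s11_pm_012

theorem s13_pm_012 : ∃ t, chk3 f_pm_012 t 6 31 1 = true := ex3_a k6_pm_012 k7_pm_012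

theorem s14_pm_012 : ∃ t, chk3 f_pm_012 t 6 30 1 = true := ex3_a k4_pm_012 k5_pm_012

theorem s15_pm_012 : ∃ t, chk3 f_pm_012 t 6 15 1 = true := ex3_b s14_pm_012 s13_pm_012

theorem s16_pm_012 : ∃ t, chk3 f_pm_012 t 6 7 1 = true := ex3_b k3_pm_012 s15_pm_012

theorem s17_pm_012 : ∃ t, chk3 f_pm_012 t 3 7 1 = true := ex3_a s16_pm_012 s12_pm_012

theorem s18_pm_012 : ∃ t, chk3 f_pm_012 t 3 3 1 = true := ex3_b k2_pm_012 s17_pm_012

theorem s19_pm_012 : ∃ t, chk3 f_pm_012 t 3 1 1 = true := ex3_b k1_pm_012 s18_pm_012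

theorem s20_pm_012 : ∃ t, chk3 f_pm_012 t 1 1 1 = true := ex3_a k0_pm_012 s19_pm_012

theorem c_pm_012 : CertB 0 536870912 536870912 536870912 1033476505 6710887 3 eng mog cd0q0 cd0q1 pd2 true true false .pnp 0 1 2
    ndB0q0 ndB0q1 pcB2 cut_pm_012 Ext.none :=
  certB0 (fam := true) (s1 := true) (s2 := false) (a := 0) (b := 1) (c := 2) (cn := .pnp) (n1 := ndB0q0) (n2 := ndB0q1) (pc := pcB2) (cut := cut_pm_012) (xt := Ext.none) (P1 := 0) (W1 := 536870912) (P2 := 536870912) (W2 := 536870912) (P3 := 1033476505) (W3 := 6710887) (N0 := 3) (En := eng) (mo := mog) (C1 := cd0q0) (C2 := cd0q1) (C3 := pd2)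
    rfl s20_pm_012

noncomputable def cut_pm_022 : Cut := Cut.of [[⟨3, 0, 0, 1449551462⟩], [⟨4, 0, 0, 2845415833⟩], [⟨0, 0, 0, 26843545⟩, ⟨1, 1, 0, 26843545⟩, ⟨2, 1, 0, 26843545⟩]]

noncomputable def f_pm_022 : ℕ → ℕ → ℕ → ℕ → Bool := onCell 0 536870912 0 536870912 1033476505 6710887
    (rowB 3 eng mog cd0q0 cd0q2 pd2 0 true true false .pp 0 2 2 (qsf 0 536870912 0 536870912 2) ndB0q0 ndB0q2 pcB2 cut_pm_022 Ext.none)

def k0_pm_022 : ∃ t, chk3 f_pm_022 t 4 1 1 = true :=
  ⟨(b (a (b (a (b (l 16240960) (l 16173224)) (b (l 16309712) (l 16411120))) (a (b (l 16079456) (b (l 16126520) (l 16093480))) (b (l 16276120) (a (l 16276312) (l 16381216))))) (a (b (b (a (l 16222000) (l 16136112)) (a (l 16334872) (l 16256296))) (b (a (l 16468824) (l 16397080)) (a (l 16469080) (l 16501088)))) (b (a (b (l 16021144) (l 16147840)) (b (l 15878480) (l 16010880))) (a (b (l 16273176) (l 16354504)) (b (l 16161376) (l 16329568)))))) (b (a (b (a (b (l 16049464) (a (l 16015104) (l 16111264)))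 (b (l 16276176) (l 16173040))) (a (b (a (l 16061344) (l 16149920)) (a (l 6) (l 16182488))) (b (a (l 16240824) (l 16325920)) (b (l 16354048) (l 16378184))))) (a (b (b (a (l 16404952) (l 16472456)) (a (l 16377808) (l 16440288))) (a (b (l 16394656) (l 16480840)) (b (l 16450224) (l 16471224)))) (b (a (b (l 16577128) (l 16509648)) (b (l 16448920) (l 16516600))) (a (b (l 16533832) (l 16504672)) (b (l 16537440) (l 16440216)))))) (b (a (b (a (l 6) (b (l 16414704) (l 6))) (l 6)) (a (b (a (l 16514200) (b (l 16617624) (l 16523072))) (l 6)) (b (a (a (l 16443632) (l 16447000)) (l 16309584)) (a (b (l 16295880) (l 6)) (b (l 16273048) (l 16216912)))))) (l 6)))), by decide +kernel⟩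

def k1_pm_022 : ∃ t, chk3 f_pm_022 t 5 2 1 = true :=
  ⟨(a (b (a (b (a (l 15735072) (l 15596144)) (a (l 15872688) (l 15738552))) (b (a (l 15464912) (l 15344416)) (a (l 15611696) (l 15495200)))) (a (b (a (l 16026792) (l 15895800)) (a (l 16197256) (l 16068056))) (b (a (l 15771688) (l 15657640)) (a (l 15945392) (l 15832552))))) (b (a (b (a (l 15216552) (b (l 15065320) (l 15186000))) (a (l 15391968) (l 15304712))) (b (a (b (l 14971520) (l 15115032)) (b (a (l 14993416) (l 14973024)) (l 15064840))) (a (l 15193968) (b (l 15147224) (l 15229008))))) (a (b (a (l 15556648) (l 15471504)) (b (l 15644992) (l 15626720))) (b (a (l 15404800) (l 15358864)) (b (a (l 15539488) (l 15494976)) (a (l 15626944) (l 15583336))))))), by decide +kernel⟩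

def k2_pm_022 : ∃ t, chk3 f_pm_022 t 5 6 1 = true :=
  ⟨(a (b (a (b (l 16231856) (l 16195000)) (b (l 15967368) (a (l 16134896) (l 16022424)))) (a (b (l 16236552) (a (l 16350528) (l 16221192))) (b (a (l 16155056) (l 16042440)) (a (l 16098160) (l 15985272))))) (b (a (b (a (l 15855064) (l 15771760)) (a (l 15923104) (l 15840136))) (b (a (l 15707472) (l 15664856)) (a (l 15776536) (l 15714088)))) (a (b (a (l 15943232) (l 15839776)) (a (l 15886176) (b (l 15824896) (l 15780784)))) (b (a (l 15777120) (b (l 15760336) (l 15751576))) (a (b (l 15763136) (a (l 15732784) (l 15707856))) (b (l 15724512) (a (l 15688968) (l 15676448)))))))), by decide +kernel⟩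

def k3_pm_022 : ∃ t, chk3 f_pm_022 t 5 14 1 = true :=
  ⟨(a (b (a (b (l 16143192) (l 15995208)) (b (l 15918144) (a (l 15953480) (l 15840040)))) (a (b (a (l 16140288) (l 16009584)) (a (l 16083816) (l 15952672))) (b (a (l 15885280) (l 15771544)) (a (l 15827936) (l 15692912))))) (b (a (b (a (l 15805904) (l 15724424)) (a (l 15740888) (l 15638656))) (b (a (l 15642856) (a (l 15633840) (l 15621888))) (a (c (l 15562552) (l 15573672)) (b (a (l 15586784) (l 15575264)) (a (l 15553592) (l 15542352)))))) (a (b (a (l 15672304) (b (l 15608128) (l 15574568))) (a (b (l 15624560) (l 15605256)) (b (a (l 15561904) (l 15526624)) (l 15524368)))) (b (a (b (a (l 15561176) (l 15537256)) (a (l 15527792) (l 15504048))) (b (a (l 15519648) (l 15508704)) (a (l 15486680) (l 15476032)))) (a (b (a (l 15497008) (l 15473448)) (a (l 15477944) (l 15454568))) (b (a (b (l 15463360) (l 15449840)) (b (l 15452936) (l 15439576))) (a (l 15437680) (b (l 15430576) (l 15425680))))))))), by decide +kernel⟩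

def k4_pm_022 : ∃ t, chk3 f_pm_022 t 5 15 1 = true :=
  ⟨(a (b (b (a (a (l 16066216) (l 15934632)) (a (l 15809448) (l 15695040))) (a (l 6) (a (l 15796808) (l 15680864)))) (a (l 6) (a (l 6) (b (l 15675024) (l 6))))) (b (a (a (b (b (l 15600128) (l 15594344)) (l 15559216)) (b (b (l 15519312) (l 15513592)) (b (l 15502392) (l 15495384)))) (b (a (b (a (l 15473056) (l 15449856)) (l 15455240)) (b (a (l 15433216) (l 15423496)) (l 15422568))) (a (b (l 15444048) (l 15435992)) (b (l 15411552) (l 15402600))))) (a (b (a (l 15572544) (a (l 15508232) (l 15472248))) (a (b (l 15565344) (l 6)) (a (b (l 15500456) (l 15495640)) (b (l 15464184) (l 15459176))))) (a (b (a (l 15442288) (l 15418800)) (a (b (l 15434040) (l 15428896)) (b (l 15410456) (a (l 15410512) (l 15400424))))) (b (a (l 15402192) (l 15392856)) (a (b (l 15393856) (a (l 15392128) (l 15385672))) (b (l 15384656) (a (l 15381112) (l 15378496))))))))), by decide +kernel⟩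

def k5_pm_022 : ∃ t, chk3 f_pm_022 t 12 4 1 = true :=
  ⟨(a (b (a (a (b (l 14957912) (l 15041376)) (b (l 14945576) (l 15029760))) (b (a (l 14934664) (l 14925304)) (l 15014992))) (a (b (l 15118352) (l 15201384)) (b (l 15099928) (l 15184056)))) (b (b (a (b (b (a (b (a (l 14882096) (b (c (a (b (l 14885712) (l 14885128)) (b (l 14893216) (l 14886792))) (l 14874624)) (l 14881136))) (l 14890576)) (b (a (b (l 14896176) (a (b (l 14880832) (l 14880016)) (b (l 14888904) (l 14882128)))) (l 14907352)) (a (l 14885992) (b (a (b (l 14883536) (l 14882456)) (c (l 14895544) (l 14881296))) (l 14885824))))) (l 14903232)) (l 14935536)) (b (b (a (a (b (l 14927008) (b (l 14902880) (a (b (l 14886672) (l 14885288)) (l 14891888)))) (l 14931000)) (l 14961968)) (a (b (a (l 14891464) (b (a (b (l 14890232) (l 14888512)) (l 14895768)) (l 14892048))) (l 14900384)) (b (a (b (l 14911168) (a (b (l 14894208) (l 14892120)) (l 14900064))) (l 14923992)) (a (l 14898432) (b (a (b (l 14898592) (l 14896088))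 (l 14904760)) (l 14899744)))))) (l 14925592))) (a (l 15000320) (l 14991016))) (a (b (l 15086240) (l 15171256)) (b (l 15077688) (l 15163400))))), by decide +kernel⟩

def k6_pm_022 : ∃ t, chk3 f_pm_022 t 13 4 1 = true :=
  ⟨(a (b (b (b (a (a (b (l 15004672) (a (b (l 14945336) (b (l 14920968) (a (b (l 14903400) (l 14900432)) (l 14909856)))) (l 14950808))) (l 15016488)) (l 15064552)) (a (b (a (b (a (l 14906824) (b (a (b (l 14908608) (l 14905136)) (l 14915344)) (l 14908832))) (l 14915952)) (b (a (b (l 14932200) (a (b (l 14914216) (l 14910192)) (l 14921216))) (l 14946504)) (a (b (l 14913872) (l 14917640)) (b (a (b (l 14920240) (l 14915608)) (l 14927480)) (a (l 14917360) (l 14919368)))))) (l 14931688)) (b (a (a (b (l 14969352) (b (l 14944776) (a (b (l 14926664) (l 14921368)) (l 14934104)))) (l 14976152)) (l 15011584)) (a (b (c (a (l 14955496) (b (a (l 14937416) (l 14947880)) (l 14937896))) (a (l 14920552) (b (l 14928664) (l 14923936)))) (l 14936640)) (b (a (b (l 14958640)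 (a (l 14937064) (l 14948072))) (l 14974264)) (a (b (a (l 14934720) (l 14958688)) (l 14940056)) (b (a (l 14944040) (l 14955512)) (a (l 14941128) (b (l 14944232) (l 14943072)))))))))) (a (l 14986616) (b (l 14964640) (l 15008672)))) (a (b (l 15073824) (l 15160008)) (b (l 15074224) (l 15160656)))) (a (b (a (a (b (b (l 15145008) (l 14950920)) (b (a (l 14967192) (a (a (l 14968000) (l 1508704334727)) (l 2))) (l 15010816))) (l 2)) (l 2)) (b (l 15078472) (l 15164936))) (l 2))), by decide +kernel⟩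

def k7_pm_022 : ∃ t, chk3 f_pm_022 t 6 5 1 = true :=
  ⟨(a (a (b (a (l 15332904) (l 15317112)) (a (b (l 15470720) (l 15560288)) (b (l 15456568) (l 15547344)))) (b (a (l 15305544) (l 15298616)) (b (a (l 15446336) (l 15440472)) (a (l 15538144) (l 15533136))))) (b (a (a (l 15295856) (l 15275832)) (a (b (l 15254640) (l 15348672)) (b (l 15261944) (l 15355752)))) (a (b (a (l 15438488) (l 15439896)) (a (l 15531824) (l 15533720))) (b (a (l 15444280) (l 15451224)) (a (l 15538368) (l 15545344)))))), by decide +kernel⟩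

def k8_pm_022 : ∃ t, chk3 f_pm_022 t 7 2 1 = true :=
  ⟨(b (l 2) (a (b (l 2) (a (b (l 2) (a (l 15554272) (l 2))) (l 2))) (l 2))), by decide +kernel⟩

def k9_pm_022 : ∃ t, chk3 f_pm_022 t 3 6 1 = true :=
  ⟨(a (a (b (a (b (a (l 15643168) (l 15631632)) (a (l 15693984) (b (l 15687776) (l 15718904)))) (b (a (l 15623664) (l 15619744)) (b (l 15679136) (l 15711520)))) (a (b (a (b (l 15741696) (l 15734064)) (b (l 15733368) (l 15726920))) (a (b (l 15708200) (a (l 15669912) (l 15666104))) (b (l 15702320) (l 15662272)))) (b (b (l 15727448) (a (l 15723024) (l 15722888))) (b (a (l 15699624) (l 15700624)) (a (l 15660824) (l 15663024)))))) (b (b (a (a (l 15619336) (l 15621952)) (a (l 15627112) (l 15634376))) (a (b (l 15679968) (l 15755704)) (b (l 15712328) (a (l 15722224) (l 15730336))))) (b (a (b (a (l 15729200) (l 15733952)) (a (l 15725920) (l 15731584))) (b (a (l 15740912) (l 15749592)) (a (l 15739352) (l 15748744)))) (a (b (a (l 15704728) (l 15711384)) (a (l 15668248) (l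 15675936))) (b (a (l 15720040) (l 15730216)) (a (l 15685544) (l 15696552))))))) (a (a (b (b (a (l 15643352) (l 15653656)) (a (b (l 15704528) (l 15739856)) (b (l 15714896) (l 15750392)))) (b (b (a (l 15759568) (l 15770432)) (a (l 15759312) (l 15770632))) (b (a (l 15741448) (l 15753320)) (a (l 15708496) (l 15720952))))) (b (l 2) (a (b (b (l 15781816) (l 15782352)) (b (l 15765448) (b (l 15742840) (l 15723648)))) (b (l 2) (b (l 15777496) (b (l 15755104) (l 15736072))))))) (l 2))), by decide +kernel⟩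

def k10_pm_022 : ∃ t, chk3 f_pm_022 t 6 14 1 = true :=
  ⟨(a (b (a (a (b (a (l 15616000) (l 15612872)) (a (b (l 15569880) (l 15537312)) (b (l 15567264) (l 15535056)))) (b (l 15610040) (b (l 15565208) (l 15533520)))) (b (a (l 15609880) (l 15613312)) (a (b (l 15566048) (l 15535040)) (b (l 15570432) (l 15540088))))) (a (b (a (b (a (l 15504008) (l 15502112)) (a (b (l 15479568) (l 15463992)) (l 15470168))) (b (l 15501112) (a (l 15469560) (l 15470048)))) (a (b (a (b (l 15448864) (l 15435688)) (b (l 15447624) (l 15434632))) (a (b (l 15426872) (l 15422160)) (b (l 15426016) (l 15421504)))) (b (b (l 15447592) (l 15434888)) (b (l 15426560) (l 15422336))))) (b (b (a (l 15503328) (l 15509056)) (a (a (l 15471528) (l 15473920)) (b (l 15486368) (l 15471968)))) (b (a (b (l 15451088) (l 15438760)) (b (l 15458048) (l 15446080))) (a (b (l 15430808) (l 15426968)) (b (l 15438504) (l 15435040))))))) (b (a (b (a (l 15619704) (l 15628480)) (a (b (l 15577744) (l 15548024)) (b (l 15587368)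 (l 15558232)))) (b (a (l 15639064) (b (l 15663360) (l 15638224))) (a (b (l 15598736) (l 15570152)) (b (l 15611328) (l 15583232))))) (b (a (b (a (l 15517640) (l 15528464)) (a (b (l 15495448) (l 15481392)) (a (l 15496704) (l 15502880)))) (b (a (a (l 15537664) (l 15544224)) (a (l 15551024) (l 15558016))) (a (a (l 15509424) (l 15516264)) (a (l 15523336) (l 15530576))))) (a (b (a (b (l 15467816) (l 15456200)) (b (l 15479760) (l 15468480))) (a (b (l 15448984) (l 15445888)) (b (l 15461600) (l 15458856)))) (b (a (b (l 15493280) (l 15482320)) (b (a (l 15504096) (l 15511536)) (a (l 15493344) (l 15500928)))) (a (b (l 15475760) (l 15473344)) (b (a (l 15487016) (l 15494736)) (l 15488776)))))))), by decide +kernel⟩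

def k11_pm_022 : ∃ t, chk3 f_pm_022 t 12 15 1 = true :=
  ⟨(b (a (b (a (b (a (b (l 15420896) (l 15420128)) (b (l 15420432) (l 15419872))) (a (l 15415880) (l 15415928))) (b (b (l 15421560) (l 15421296)) (l 15417824))) (a (b (a (l 15405272) (l 15405752)) (a (l 15395936) (l 15396112))) (b (l 15408272) (b (l 15399472) (l 15398176))))) (b (b (a (b (l 15426584) (l 15426720)) (b (l 15435048) (l 15435568))) (a (l 15423848) (l 15433304))) (b (a (l 15415144) (l 15425416)) (a (b (l 15406568) (l 15404776)) (b (l 15417272) (l 15414864)))))) (a (a (b (a (b (l 15392792) (l 15387832)) (l 15390840)) (a (b (l 15382392) (a (l 15377744) (l 15377824))) (b (l 15383184) (b (l 15379568) (l 15377536))))) (b (b (l 15395648) (l 15391152)) (b (a (l 15384888) (l 15387712)) (a (b (l 15381432) (l 15379512)) (b (l 15384416) (l 15382600)))))) (b (a (b (l 15402512) (l 15398400)) (b (l 15412864) (l 15409120))) (a (b (a (l 15391544) (l 15396296)) (a (b (l 15388408) (l 15386704)) (b (l 15393320) (l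 15391728)))) (b (a (l 15401872) (l 15408184)) (a (b (l 15399056) (l 15397576)) (b (l 15405528) (l 15404160)))))))), by decide +kernel⟩

def k12_pm_022 : ∃ t, chk3 f_pm_022 t 13 15 1 = true :=
  ⟨(b (b (a (b (a (b (l 15446256) (l 15447168)) (b (l 15459584) (l 15460856))) (a (l 15445480) (l 15459728))) (b (a (b (l 15474408) (l 15476024)) (b (l 15490152) (l 15492088))) (a (l 15475432) (l 15492000)))) (a (b (a (l 15438400) (l 15453432)) (a (b (l 15430736) (l 15427728)) (b (l 15446136) (l 15442528)))) (b (a (l 15469872) (l 15487136)) (a (l 15482336) (b (l 15480568) (l 15476248)))))) (a (b (a (b (l 15425984) (l 15422608)) (b (l 15441184) (l 15438160))) (a (b (a (l 15415136) (l 15422648)) (a (b (l 15412640) (l 15411376)) (l 15419648))) (b (l 15434792) (a (l 15427832) (l 15436400))))) (b (a (b (l 15457816) (l 15455120)) (b (l 15475272) (l 15472864))) (a (b (l 15452112) (a (l 15445272) (l 15454352))) (b (l 15470184) (a (l 15463576) (l 15472864))))))), by decide +kernel⟩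

def k13_pm_022 : ∃ t, chk3 f_pm_022 t 14 14 1 = true :=
  ⟨(b (a (b (a (b (l 15675872) (l 15651128)) (b (l 15688792) (l 15664376))) (a (b (l 15624640) (a (l 15593472) (l 15600432))) (b (l 15638232) (a (l 15607416) (l 15614368))))) (b (a (b (l 15701720) (l 15677560)) (b (l 15714312) (l 15690320))) (a (b (l 15651688) (a (l 15621248) (l 15628000))) (b (l 15664640) (a (l 15634592) (l 15640968)))))) (b (a (b (a (a (l 15565120) (l 15572288)) (a (l 15579464) (l 15586592))) (a (a (l 15537920) (l 15545312)) (a (b (l 15559168) (l 15546416)) (b (l 15566440) (l 15553784))))) (b (a (a (l 15593624) (l 15600520)) (a (l 15607216) (b (l 15620504) (l 15606952)))) (a (a (b (l 15573600) (l 15561024)) (b (l 15580600) (l 15568104))) (b (a (l 15587392) (l 15593936)) (a (l 15574960) (l 15581560)))))) (a (b (a (b (a (l 15519064) (l 15526632)) (a (l 15508584) (l 15516280))) (b (a (l 15534176) (l 15541640)) (a (l 15523936) (l 15531504)))) (a (b (a (l 15502528) (l 15510344)) (a (l 15500624)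 (l 15508568))) (b (a (l 15518120) (l 15525792)) (a (l 15516464) (l 15524248))))) (b (a (b (a (l 15548976) (l 15556136)) (a (l 15538936) (l 15546176))) (b (a (l 15563064) (l 15569720)) (a (l 15553176) (l 15559896)))) (a (b (a (l 15533320) (l 15540648)) (a (l 15531880) (l 15539304))) (b (a (l 15547728) (l 15554520)) (a (l 15546464) (l 15553320)))))))), by decide +kernel⟩

def k14_pm_022 : ∃ t, chk3 f_pm_022 t 14 15 1 = true :=
  ⟨(b (b (a (b (a (b (l 15506288) (l 15508520)) (b (l 15522312) (l 15524800))) (a (l 15508880) (l 15525568))) (b (a (b (a (l 15533952) (l 15541472)) (l 15540480)) (b (a (l 15548720) (l 15555648)) (l 15555144))) (a (l 15541600) (l 15556544)))) (a (b (a (l 15504656) (l 15521920)) (a (b (l 15498600) (l 15494288)) (b (l 15516320) (l 15512216)))) (a (b (l 15538448) (l 15532072)) (b (l 15553808) (l 15547616))))) (a (b (a (b (l 15492960) (l 15490800)) (b (l 15510352) (l 15508392))) (a (b (l 15488400) (a (l 15482144) (l 15491344))) (b (l 15506224) (a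 (l 15500400) (l 15509240))))) (b (a (b (l 15526944) (l 15525112)) (l 15541376)) (a (b (l 15523112) (a (l 15517800) (l 15526016))) (b (l 15538608) (a (l 15533840) (l 15541208))))))), by decide +kernel⟩

def k15_pm_022 : ∃ t, chk3 f_pm_022 t 15 7 1 = true :=
  ⟨(a (a (b (b (b (l 2) (b (l 15676768) (a (l 15647096) (l 2)))) (b (b (b (l 3319634519) (a (l 15613176) (l 15619080))) (b (a (l 15600192) (l 15606128)) (a (l 15587864) (l 15593832)))) (b (b (a (l 15565584) (l 15571592)) (a (l 15566296) (l 15572336))) (b (a (l 15560976) (l 15567056)) (a (l 15559832) (l 15565960)))))) (b (b (b (b (a (l 15562224) (l 15568400)) (l 15568408)) (l 15570032)) (b (l 15567616) (l 15561328))) (b (b (l 15555504) (l 15554152)) (b (l 15552264) (l 15551304))))) (b (b (l 2) (b (l 2) (a (b (b (l 15587696) (l 15577984)) (b (l 15572728) (l 15571664))) (b (l 2) (b (l 2) (l 15576920)))))) (b (b (b (b (a (l 15574144) (l 15579416)) (l 15579960)) (l 15581720)) (l 15576632)) (b (b (l 15566824) (l 15565656))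 (b (l 15563688) (l 15562688)))))) (b (l 2) (a (b (b (b (l 2) (l 15591416)) (l 15586488)) (b (b (l 15576112) (l 15574792)) (b (l 15572632) (l 15571488)))) (b (l 2) (b (b (l 15585208) (l 15583448)) (b (l 15581032) (l 15579656))))))), by decide +kernel⟩

theorem s16_pm_022 : ∃ t, chk3 f_pm_022 t 14 7 1 = true := ex3_b k13_pm_022 k14_pm_022

theorem s17_pm_022 : ∃ t, chk3 f_pm_022 t 7 7 1 = true := ex3_a s16_pm_022 k15_pm_022

theorem s18_pm_022 : ∃ t, chk3 f_pm_022 t 6 15 1 = true := ex3_a k11_pm_022 k12_pm_022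

theorem s19_pm_022 : ∃ t, chk3 f_pm_022 t 6 7 1 = true := ex3_b k10_pm_022 s18_pm_022

theorem s20_pm_022 : ∃ t, chk3 f_pm_022 t 3 7 1 = true := ex3_a s19_pm_022 s17_pm_022

theorem s21_pm_022 : ∃ t, chk3 f_pm_022 t 3 3 1 = true := ex3_b k9_pm_022 s20_pm_022

theorem s22_pm_022 : ∃ t, chk3 f_pm_022 t 6 4 1 = true := ex3_a k5_pm_022 k6_pm_022

theorem s23_pm_022 : ∃ t, chk3 f_pm_022 t 6 2 1 = true := ex3_b s22_pm_022 k7_pm_022

theorem s24_pm_022 : ∃ t, chk3 f_pm_022 t 3 2 1 = true := ex3_a s23_pm_022 k8_pm_022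

theorem s25_pm_022 : ∃ t, chk3 f_pm_022 t 3 1 1 = true := ex3_b s24_pm_022 s21_pm_022

theorem s26_pm_022 : ∃ t, chk3 f_pm_022 t 5 7 1 = true := ex3_b k3_pm_022 k4_pm_022

theorem s27_pm_022 : ∃ t, chk3 f_pm_022 t 5 3 1 = true := ex3_b k2_pm_022 s26_pm_022

theorem s28_pm_022 : ∃ t, chk3 f_pm_022 t 5 1 1 = true := ex3_b k1_pm_022 s27_pm_022

theorem s29_pm_022 : ∃ t, chk3 f_pm_022 t 2 1 1 = true := ex3_a k0_pm_022 s28_pm_022

theorem s30_pm_022 : ∃ t, chk3 f_pm_022 t 1 1 1 = true := ex3_a s29_pm_022 s25_pm_022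

theorem c_pm_022 : CertB 0 536870912 0 536870912 1033476505 6710887 3 eng mog cd0q0 cd0q2 pd2 true true false .pp 0 2 2
    ndB0q0 ndB0q2 pcB2 cut_pm_022 Ext.none :=
  certB0 (fam := true) (s1 := true) (s2 := false) (a := 0) (b := 2) (c := 2) (cn := .pp) (n1 := ndB0q0) (n2 := ndB0q2) (pc := pcB2) (cut := cut_pm_022) (xt := Ext.none) (P1 := 0) (W1 := 536870912) (P2 := 0) (W2 := 536870912) (P3 := 1033476505) (W3 := 6710887) (N0 := 3) (En := eng) (mo := mog) (C1 := cd0q0) (C2 := cd0q2) (C3 := pd2)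
    rfl s30_pm_022

noncomputable def cut_pm_023 : Cut := Cut.of [[⟨3, 0, 0, 1449551462⟩], [⟨4, 0, 0, 2845415833⟩]]

noncomputable def f_pm_023 : ℕ → ℕ → ℕ → ℕ → Bool := onCell 1610612736 536870912 0 536870912 1033476505 6710887
    (rowB 3 eng mog cd0q0 cd0q2 pd3 2 true true false .up 0 2 3 (qsf 0 536870912 0 536870912 3) ndB0q0 ndB0q2 pcB3 cut_pm_023 Ext.none)

def k0_pm_023 : ∃ t, chk3 f_pm_023 t 16 16 1 = true :=
  ⟨(a (a (b (l 14932952) (c (a (l 14760976) (l 14852896)) (l 14823992))) (b (l 15033328) (l 14848320))) (a (c (l 14985928) (l 15015568)) (l 15082744))), by decide +kernel⟩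

def k1_pm_023 : ∃ t, chk3 f_pm_023 t 16 17 1 = true :=
  ⟨(b (a (b (a (b (a (b (a (b (a (b (l 14731176) (c (a (l 14734848) (l 14736568)) (l 14720680))) (l 14736232)) (a (l 14729248) (b (c (a (l 14737248) (l 14739136)) (l 14723216)) (l 14730808)))) (c (a (b (l 14751072) (b (l 14744312) (c (l 14744752) (l 14737168)))) (l 14753840)) (l 14735024))) (c (a (l 14742080) (b (a (l 14741608) (b (l 14743512) (l 14743200))) (l 14745056))) (l 14728880))) (b (l 14764736) (c (a (b (a (b (l 14749872) (l 14746104)) (l 14754944)) (a (l 14746432) (b (l 14748736) (l 14748080)))) (l 14761240)) (a (l 14735464) (l 14746440))))) (a (l 14744992) (c (a (l 14754640) (b (b (a (l 14751352) (l 14774992)) (l 14754528)) (l 14759408))) (l 14742080)))) (b (l 14800472) (a (b (a (b (l 14755256) (c (a (l 14756376) (l 14759328)) (l 14743704))) (l 14765688)) (a (l 14753672) (a (l 14755768) (b (l 14757504) (l 14757512))))) (a (b (l 14780968) (b (l 14767312) (c (l 14790096) (l 14754680)))) (l 14787128)))))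 (a (l 14766096) (a (l 14770880) (b (a (l 14767072) (b (b (c (l 14774664) (l 14760360)) (l 14767520)) (l 14772240))) (l 14781056))))) (b (a (l 14843344) (l 14905408)) (a (b (a (b (a (b (l 14779888) (c (l 14780328) (l 14766176))) (l 14790752)) (a (l 14774576) (b (l 14779120) (l 14778488)))) (a (b (l 14806192) (b (l 14792720) (l 14785136))) (l 14812728))) (a (l 14785056) (b (a (l 14785704) (b (l 14791288) (l 14789832))) (l 14792656)))) (b (l 14851888) (a (b (l 14809048) (a (l 14797192) (b (l 14804040) (l 14801584)))) (l 14831448)))))) (a (a (l 14805408) (l 14811840)) (a (l 14819696) (b (a (l 14813536) (b (b (a (l 14809056) (l 14816192)) (l 14815296)) (l 14824976))) (l 14841840))))), by decide +kernel⟩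

def k2_pm_023 : ∃ t, chk3 f_pm_023 t 17 8 1 = true :=
  ⟨(b (a (a (l 15144696) (l 15207456)) (a (l 15270888) (l 15334888))) (b (a (l 14923224) (l 15095288)) (a (b (a (b (a (b (l 14836640) (a (l 14821296) (l 14829296))) (l 14860240)) (a (l 14830280) (b (a (l 14833928) (l 14842904)) (l 14839496)))) (a (b (l 14892752) (b (l 14866144) (l 14852928))) (l 14907744))) (a (l 14852336) (b (a (l 14855392) (b (l 14866832) (l 14865264))) (l 14870488)))) (b (l 14990592) (a (b (a (l 14888616) (l 14921120)) (a (l 14881704) (b (l 14896016) (l 14892304)))) (l 14953016)))))), by decide +kernel⟩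

def k3_pm_023 : ∃ t, chk3 f_pm_023 t 8 9 1 = true :=
  ⟨(b (a (a (a (l 14883824) (l 14889984)) (a (l 14897512) (l 14906352))) (a (l 14922032) (a (l 14940368) (b (b (b (a (l 14909192) (l 14925216)) (l 14922728)) (l 14941512)) (l 14979000))))) (a (a (b (l 14964424) (l 15016968)) (l 15004968)) (a (l 15024008) (l 15047560)))), by decide +kernel⟩

def k4_pm_023 : ∃ t, chk3 f_pm_023 t 9 4 1 = true :=
  ⟨(b (a (a (b (a (l 15399328) (l 14)) (a (l 15125416) (l 15192824))) (b (l 14) (l 15294696))) (a (b (l 14) (l 15431072)) (l 14))) (a (b (b (a (b (a (b (l 14968680) (a (l 14937872) (l 14956144))) (l 15021168)) (a (l 14956560) (b (a (l 14967760) (l 14988664)) (l 14979800)))) (a (b (l 15090752) (b (l 15039360) (a (l 14998920) (l 15022880)))) (l 15126624))) (a (l 15001336) (b (a (l 15015968) (b (l 15046144) (l 15041176))) (l 15046744)))) (a (l 15075336) (l 15107088))) (b (a (b (l 15232440) (b (a (l 15096376) (l 15167712)) (a (l 15078752) (b (l 15117704) (l 15106304))))) (a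 (l 15291544) (l 15343656))) (a (l 15142616) (b (b (a (b (l 15140384) (l 15142656)) (b (l 15195472) (a (l 15162592) (l 15184472)))) (l 15171480)) (l 15204600)))))), by decide +kernel⟩

def k5_pm_023 : ∃ t, chk3 f_pm_023 t 4 5 1 = true :=
  ⟨(a (b (a (a (b (l 15098784) (l 15212016)) (b (l 15112200) (l 15224648))) (a (b (l 15130064) (l 15241304)) (b (l 15152064) (l 15261688)))) (a (b (a (l 15327896) (l 15339728)) (a (l 15506520) (l 15454616))) (b (a (l 15355152) (l 15373848)) (a (l 15468736) (l 15485664))))) (b (a (b (l 15171360) (l 15277816)) (b (l 15236760) (l 15358712))) (a (b (a (l 15395552) (l 15420032)) (a (l 15505128) (l 15526600))) (b (l 15461944) (a (l 15551032) (l 15578768)))))), by decide +kernel⟩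

def k6_pm_023 : ∃ t, chk3 f_pm_023 t 5 2 1 = true :=
  ⟨(a (b (b (l 14) (a (b (a (a (l 15415064) (l 14)) (l 14)) (a (b (b (l 15290432) (a (b (a (l 15197752) (l 15223408)) (l 15209808)) (b (l 15278992) (a (l 15234880) (l 15265136))))) (a (l 15235912) (l 15261856))) (b (l 14) (a (b (b (a (l 15274320) (l 14)) (a (l 15271160) (l 15289480))) (l 15293312)) (l 2))))) (l 2))) (a (b (b (l 207866848519) (l 15433752)) (b (l 15531248) (l 15628584))) (l 2))) (l 2)), by decide +kernel⟩

def k7_pm_023 : ∃ t, chk3 f_pm_023 t 2 6 1 = true :=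
  ⟨(a (b (a (b (a (a (b (l 15528296) (l 15582808)) (b (l 15538664) (l 15592736))) (a (l 15620584) (l 15593688))) (a (a (b (l 15635128) (l 15683344)) (b (l 15644584) (l 15692320))) (a (b (l 15656240) (l 15703208)) (b (l 15669792) (l 15715728))))) (b (a (a (l 15610768) (l 15629624)) (a (l 15651264) (l 15676904))) (a (a (b (l 15684736) (l 15729528)) (b (l 15701968) (l 15745472))) (a (l 15724168) (l 2))))) (a (b (a (a (b (l 15716704) (l 15730928)) (b (l 15725232) (l 15739008))) (a (b (l 15735392) (l 15748440)) (b (l 15746904) (l 15758768)))) (a (b (a (b (l 15730416) (l 15725240)) (b (l 15738112) (l 15732624))) (a (b (l 15716584) (l 15704832)) (b (l 15723624) (l 15711480)))) (b (a (b (l 15746936) (l 15741000)) (l 15753808)) (a (b (l 15731504) (l 15718624)) (a (l 15731600) (l 15736312)))))) (b (a (a (b (l 15759608) (l 15770944)) (b (l 15774888) (l 15785720))) (a (b (l 15793776) (l 2)) (l 2))) (a (b (a (l 15765160) (l 15779816)) (a (l 15745000) (l 2))) (l 2))))) (l 2)),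 by decide +kernel⟩

def k8_pm_023 : ∃ t, chk3 f_pm_023 t 8 7 1 = true :=
  ⟨(b (b (a (b (a (b (l 15690424) (l 15673840)) (b (l 15696624) (l 15679536))) (a (b (a (l 15654328) (l 15656800)) (a (l 15635112) (l 15637328))) (b (a (l 15659384) (l 15662024)) (a (l 15639592) (l 15641824))))) (b (a (b (l 15703264) (l 15685600)) (b (l 15711216) (l 15693296))) (a (b (l 15666248) (a (l 15644312) (l 15647272))) (b (l 15673760) (l 15653176))))) (a (b (a (b (a (b (l 15620312) (l 15610568)) (b (l 15622312) (l 15612408))) (a (b (l 15601352) (l 15592792)) (b (l 15603040) (l 15594304)))) (b (a (b (l 15624336) (l 15614256)) (l 15621184)) (a (b (l 15604696) (l 15595744)) (b (l 15606400) (l 15597416))))) (b (a (a (b (c (l 15591136) (l 15578384)) (c (l 15585128) (l 15572376))) (b (c (l 15592432) (l 15579768)) (c (l 15586248) (l 15573568)))) (a (b (l 15587368) (l 15581008)) (b (l 15588880) (l 15582488)))) (a (a (b (c (l 15583528) (l 15570856)) (l 15579824)) (b (b (l 15578184) (l 15578344))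 (l 15580560))) (b (a (l 15579144) (l 15580584)) (a (l 15581432) (l 15582912)))))) (b (a (b (a (l 15623432) (l 15626400)) (a (l 15603984) (l 15606896))) (b (a (l 15630056) (l 15634392)) (a (l 15610472) (l 2)))) (b (a (b (a (l 15591080) (l 15593944)) (a (l 15584664) (l 15587496))) (b (l 25331224583) (l 2))) (a (b (a (l 15582744) (l 15585536)) (l 15586376)) (l 2)))))) (b (b (a (a (b (b (a (l 15585976) (l 15586528)) (l 15592904)) (a (l 15599920) (l 15600288))) (b (b (l 15588040) (l 15594608)) (l 15601696))) (a (a (b (l 15593960) (l 15604496)) (l 2)) (l 2))) (a (a (b (l 15605248) (l 15606176)) (l 15607648)) (l 2))) (a (b (a (b (l 15598856) (l 15579664)) (l 121968001175)) (a (b (l 15559368) (l 15540040)) (l 2))) (l 2)))), by decide +kernel⟩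

def k9_pm_023 : ∃ t, chk3 f_pm_023 t 9 7 1 = true :=
  ⟨(b (b (a (a (a (b (l 15710248) (l 123578766871)) (b (l 15716368) (l 2))) (l 2)) (l 2)) (l 2)) (l 2)), by decide +kernel⟩

def k10_pm_023 : ∃ t, chk3 f_pm_023 t 5 7 1 = true :=
  ⟨(l 2), by decide +kernel⟩

def k11_pm_023 : ∃ t, chk3 f_pm_023 t 3 1 1 = true :=
  ⟨(l 2), by decide +kernel⟩

theorem s12_pm_023 : ∃ t, chk3 f_pm_023 t 4 7 1 = true := ex3_a k8_pm_023 k9_pm_023

theorem s13_pm_023 : ∃ t, chk3 f_pm_023 t 2 7 1 = true := ex3_a s12_pm_023 k10_pm_023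

theorem s14_pm_023 : ∃ t, chk3 f_pm_023 t 2 3 1 = true := ex3_b k7_pm_023 s13_pm_023

theorem s15_pm_023 : ∃ t, chk3 f_pm_023 t 16 8 1 = true := ex3_b k0_pm_023 k1_pm_023

theorem s16_pm_023 : ∃ t, chk3 f_pm_023 t 8 8 1 = true := ex3_a s15_pm_023 k2_pm_023

theorem s17_pm_023 : ∃ t, chk3 f_pm_023 t 8 4 1 = true := ex3_b s16_pm_023 k3_pm_023

theorem s18_pm_023 : ∃ t, chk3 f_pm_023 t 4 4 1 = true := ex3_a s17_pm_023 k4_pm_023

theorem s19_pm_023 : ∃ t, chk3 f_pm_023 t 4 2 1 = true := ex3_b s18_pm_023 k5_pm_023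

theorem s20_pm_023 : ∃ t, chk3 f_pm_023 t 2 2 1 = true := ex3_a s19_pm_023 k6_pm_023

theorem s21_pm_023 : ∃ t, chk3 f_pm_023 t 2 1 1 = true := ex3_b s20_pm_023 s14_pm_023

theorem s22_pm_023 : ∃ t, chk3 f_pm_023 t 1 1 1 = true := ex3_a s21_pm_023 k11_pm_023

theorem c_pm_023 : CertB 0 536870912 0 536870912 1033476505 6710887 3 eng mog cd0q0 cd0q2 pd3 true true false .up 0 2 3
    ndB0q0 ndB0q2 pcB3 cut_pm_023 Ext.none :=
  certB2 (fam := true) (s1 := true) (s2 := false) (a := 0) (b := 2) (c := 3) (cn := .up) (n1 := ndB0q0) (n2 := ndB0q2) (pc := pcB3) (cut := cut_pm_023) (xt := Ext.none) (P1 := 0) (W1 := 536870912) (P2 := 0) (W2 := 536870912) (P3 := 1033476505) (W3 := 6710887) (N0 := 3) (En := eng) (mo := mog) (C1 := cd0q0) (C2 := cd0q2) (C3 := pd3)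
    rfl (fun _ => rfl) s22_pm_023

noncomputable def cut_pm_101 : Cut := Cut.of [[⟨3, 0, 0, 1449551462⟩], [⟨4, 0, 0, 2845415833⟩], [⟨0, 1, 0, 33554432⟩, ⟨1, 0, 0, 33554432⟩, ⟨2, 1, 0, 33554432⟩]]

noncomputable def f_pm_101 : ℕ → ℕ → ℕ → ℕ → Bool := onCell 536870912 536870912 536870912 536870912 1033476505 6710887
    (rowB 3 eng mog cd0q1 cd0q0 pd1 1 true true false .npn 1 0 1 (qsf 536870912 536870912 0 536870912 1) ndB0q1 ndB0q0 pcB1 cut_pm_101 Ext.none)

def k0_pm_101 : ∃ t, chk3 f_pm_101 t 1 1 1 = true :=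
  ⟨(l 6), by decide +kernel⟩

theorem c_pm_101 : CertB 536870912 536870912 0 536870912 1033476505 6710887 3 eng mog cd0q1 cd0q0 pd1 true true false .npn 1 0 1
    ndB0q1 ndB0q0 pcB1 cut_pm_101 Ext.none :=
  certB1 (fam := true) (s1 := true) (s2 := false) (a := 1) (b := 0) (c := 1) (cn := .npn) (n1 := ndB0q1) (n2 := ndB0q0) (pc := pcB1) (cut := cut_pm_101) (xt := Ext.none) (P1 := 536870912) (W1 := 536870912) (P2 := 0) (W2 := 536870912) (P3 := 1033476505) (W3 := 6710887) (N0 := 3) (En := eng) (mo := mog) (C1 := cd0q1) (C2 := cd0q0) (C3 := pd1)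
    rfl (fun _ => rfl) k0_pm_101

noncomputable def cut_pm_102 : Cut := Cut.of [[⟨3, 0, 0, 1449551462⟩], [⟨4, 0, 0, 2845415833⟩], [⟨0, 1, 0, 16777216⟩, ⟨1, 0, 0, 16777216⟩, ⟨2, 1, 0, 16777216⟩]]

noncomputable def f_pm_102 : ℕ → ℕ → ℕ → ℕ → Bool := onCell 536870912 536870912 0 536870912 1033476505 6710887
    (rowB 3 eng mog cd0q1 cd0q0 pd2 0 true true false .npp 1 0 2 (qsf 536870912 536870912 0 536870912 2) ndB0q1 ndB0q0 pcB2 cut_pm_102 Ext.none)

def k0_pm_102 : ∃ t, chk3 f_pm_102 t 2 1 1 = true :=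
  ⟨(l 6), by decide +kernel⟩

def k1_pm_102 : ∃ t, chk3 f_pm_102 t 3 2 1 = true :=
  ⟨(a (l 6) (b (l 6) (a (l 6) (b (l 6) (a (l 6) (b (l 6) (a (l 6) (a (b (l 6) (b (a (l 6) (b (l 15479616) (l 15473432))) (a (l 15503960) (b (l 15469144) (l 15466816))))) (b (b (a (l 6) (l 15444336)) (a (l 15456416) (l 15420760))) (b (a (b (l 15443520) (l 15437232)) (b (l 15407712) (l 15401328))) (a (b (l 15432848) (l 15430424)) (b (l 15396848) (l 15394320))))))))))))), by decide +kernel⟩

def k2_pm_102 : ∃ t, chk3 f_pm_102 t 6 3 1 = true :=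
  ⟨(b (l 6) (a (l 6) (b (a (l 6) (b (l 6) (a (l 6) (l 16587904)))) (a (b (l 6) (l 16586856)) (b (a (l 16568760) (l 16546216)) (a (l 16547096) (l 16522336))))))), by decide +kernel⟩

def k3_pm_102 : ∃ t, chk3 f_pm_102 t 14 6 1 = true :=
  ⟨(b (l 6) (a (l 6) (a (b (l 6) (a (l 16356792) (l 16266240))) (b (a (l 6) (b (l 6) (l 16043856))) (a (b (l 16161184) (l 16182824)) (b (l 16065104) (l 16086504))))))), by decide +kernel⟩

def k4_pm_102 : ∃ t, chk3 f_pm_102 t 30 12 1 = true :=
  ⟨(a (b (l 6) (a (l 6) (b (l 6) (a (l 6) (b (l 6) (a (l 15817648) (l 15800584))))))) (b (a (l 6) (b (l 6) (b (l 6) (a (l 6) (l 15678776))))) (a (b (a (l 6) (b (l 6) (a (l 15746200) (l 15735504)))) (a (b (a (l 15777464) (l 15764720)) (a (l 15785768) (l 15772960))) (b (a (l 15753720) (l 15742952)) (a (l 15761896) (l 15751072))))) (b (b (a (l 15711048) (l 15684352)) (a (l 15717640) (l 15690800))) (b (a (l 15724992) (l 15698008)) (a (l 15733008) (l 15705888))))))), by decide +kernel⟩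

def k5_pm_102 : ∃ t, chk3 f_pm_102 t 30 13 1 = true :=
  ⟨(a (b (a (b (a (l 15952416) (l 15864432)) (a (l 15972552) (l 15884376))) (b (a (b (a (l 15868040) (l 15846328)) (a (l 15877592) (l 15855824))) (b (a (l 15826632) (l 15809504)) (a (l 15836064) (l 15818880)))) (a (b (a (l 15887496) (l 15865680)) (a (l 15897680) (l 15875816))) (b (a (l 15845872) (l 15828640)) (a (l 15855960) (l 15838672)))))) (a (b (a (l 15993560) (l 15915696)) (a (l 16014768) (l 15926288))) (b (a (b (a (l 15908048) (l 15886136)) (a (l 15918520) (l 15896568))) (a (b (l 15866240) (l 15876632)) (b (c (l 15852680) (l 15845144)) (l 15859264)))) (a (b (a (l 15929008) (l 15907032)) (l 15886240)) (b (c (l 15881688) (l 15832440)) (c (l 15891992) (l 15842856))))))) (b (a (b (a (b (a (l 15794624) (l 15781760)) (a (l 15803952) (l 15791032))) (b (a (l 15770640) (l 15759752)) (a (l 15779856) (l 15768904)))) (a (b (a (l 15813656) (l 15800680)) (a (l 15823648) (l 15810624))) (b (a (l 15789448) (l 15778448))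 (a (l 15799336) (l 15788288))))) (b (b (a (l 15741592) (l 15714352)) (a (l 15750656) (l 15723296))) (b (a (l 15760120) (l 15732648)) (a (l 15769880) (l 15742304))))) (a (b (a (b (a (l 15833840) (l 15820768)) (a (l 15844152) (l 15831040))) (b (a (l 15809440) (l 15798344)) (a (l 15819664) (l 15808528)))) (a (b (a (l 15854496) (l 15841352)) (a (l 15864808) (l 15851624))) (b (a (l 15829944) (l 15818760)) (a (l 15840184) (l 15828968))))) (b (b (a (l 15779864) (l 15752192)) (a (l 15789984) (l 15762224))) (b (a (l 15800160) (l 15772320)) (a (l 15810320) (l 15782400))))))), by decide +kernel⟩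

def k6_pm_102 : ∃ t, chk3 f_pm_102 t 31 12 1 = true :=
  ⟨(b (a (b (b (a (l 6) (b (l 15556088) (l 15556712))) (a (a (l 6) (l 15609488)) (a (l 15575664) (l 15540512)))) (a (b (a (l 15644728) (l 15612704)) (a (l 15649184) (l 15617000))) (b (a (l 15578712) (l 15543376)) (a (l 15582832) (l 15547328))))) (b (b (a (b (a (l 15502728) (l 15466360)) (a (l 15503200) (l 15466744))) (b (a (l 15429872) (l 15393664)) (a (l 15430152) (l 15393848)))) (a (a (l 15504448) (l 15467848)) (a (l 15431112) (l 15394656)))) (a (b (a (l 15507128) (l 15470344)) (a (l 15510904) (l 15473944))) (b (a (l 15433424) (l 15396776)) (a (l 15436840) (l 15400016)))))) (a (b (a (b (a (l 15654608) (l 15622264)) (a (l 15660904) (l 15628408))) (b (a (l 15587936) (l 15552264)) (a (l 15593920) (l 15558096)))) (a (b (a (l 15667968) (l 15635328)) (a (l 15675712) (l 15642936))) (b (a (l 15600696) (l 15564712)) (a (l 15608160) (l 15572032))))) (b (a (b (a (l 15515672) (l 15478544)) (a (l 15521344) (l 15484048)))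 (b (a (l 15441264) (l 15404264)) (a (l 15446600) (c (l 15415184) (l 15403672))))) (a (b (a (l 15527808) (l 15490352)) (a (l 15534984) (l 15497376))) (b (a (l 15452752) (b (l 15413840) (l 15417024))) (a (l 15459624) (l 15422136))))))), by decide +kernel⟩

def k7_pm_102 : ∃ t, chk3 f_pm_102 t 31 13 1 = true :=
  ⟨(a (b (b (a (b (a (l 15684048) (l 15651128)) (a (l 15692872) (l 15659832))) (b (a (l 15616224) (l 15579960)) (a (l 15624800) (l 15588408)))) (a (b (a (l 15702104) (l 15668944)) (a (l 15711656) (l 15678392))) (b (a (l 15633792) (l 15597280)) (l 15624880)))) (b (a (b (a (l 15721440) (l 15688072)) (a (l 15731384) (l 15697920))) (b (l 15634408) (l 15644104))) (a (b (l 15724768) (l 15734736)) (b (l 15653904) (l 15663712))))) (b (b (a (b (a (l 15542768) (l 15505024)) (a (l 15551080) (l 15513200))) (b (a (l 15467128) (l 15429488)) (a (l 15475168) (l 15437392)))) (a (b (a (l 15559832) (l 15521824)) (a (l 15568928) (l 15530808))) (b (a (l 15483656) (l 15445752)) (a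 (l 15492520) (l 15454488))))) (b (a (b (a (l 15578296) (l 15540064)) (l 15547672)) (b (a (l 15501664) (l 15463520)) (a (l 15511008) (l 15472752)))) (a (b (l 15578256) (l 15587904)) (b (a (l 15520472) (l 15482128)) (a (l 15529992) (l 15491552))))))), by decide +kernel⟩

def k8_pm_102 : ∃ t, chk3 f_pm_102 t 14 7 1 = true :=
  ⟨(a (b (b (a (l 16604944) (l 16441408)) (a (a (l 16549920) (l 16623384)) (l 16456328))) (a (b (a (l 16536344) (l 16529128)) (a (l 16505088) (l 16501480))) (b (l 16502256) (l 16517616)))) (b (a (b (a (l 16399312) (l 16308544)) (a (l 16435536) (l 16344840))) (b (a (b (l 16203912) (l 16223848)) (b (l 16107416) (l 16127248))) (a (l 16208544) (b (l 16145440) (l 16161472))))) (a (b (a (l 16461296) (l 16370984)) (a (l 16474496) (l 16384864))) (b (a (l 16276928) (b (l 16174872) (l 16185208))) (a (l 16291392) (l 16153592)))))), by decide +kernel⟩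

def k9_pm_102 : ∃ t, chk3 f_pm_102 t 30 7 1 = true :=
  ⟨(b (a (b (a (b (a (l 16035536) (l 15967928)) (a (l 16055280) (l 15987600))) (b (a (b (l 15896536) (l 15906616)) (b (a (l 15907680) (l 15890216)) (l 15866728))) (a (b (l 15916424) (l 15967832)) (b (l 15876496) (l 15927872))))) (a (b (b (l 16045424) (l 16054008)) (l 16044880)) (b (a (b (l 15976880) (l 15985456)) (b (l 15936904) (l 15945464))) (a (l 15976336) (l 15915376))))) (b (a (b (a (b (a (l 15875000) (l 15861792)) (a (l 15885000) (l 15871768))) (b (a (l 15850320) (l 15839072)) (l 15854504))) (a (b (l 15887864) (l 15897264)) (b (l 15864184) (l 15873552)))) (b (b (a (l 15820376) (l 15792392)) (a (l 15830256) (l 15802224))) (b (a (l 15839904) (l 15811816)) (l 15835528)))) (a (b (a (b (l 15906272) (l 15914816)) (b (l 15882536) (l 15891064))) (a (b (l 15922840) (l 15930288)) (b (l 15899080) (l 15906528)))) (b (b (l 15844464) (l 15852968)) (b (l 15860976) (l 15868424)))))) (a (b (a (b (l 16079344) (l 16089848))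 (b (a (l 16010856) (l 15970888)) (a (l 16021472) (l 15981576)))) (a (b (l 16097072) (l 16103024)) (b (a (l 16028864) (l 15989088)) (l 15993688)))) (b (a (b (a (l 15940272) (l 15916536)) (a (l 15951024) (l 15927352))) (b (b (l 15875264) (l 15881432)) (l 15889352))) (a (b (a (l 15958632) (l 15935072)) (l 15953312)) (b (l 15897224) (l 15904048)))))), by decide +kernel⟩

def k10_pm_102 : ∃ t, chk3 f_pm_102 t 31 7 1 = true :=
  ⟨(b (a (b (b (a (b (l 15744632) (l 15754368)) (b (l 15673464) (l 15683080))) (a (b (l 15763896) (l 15773128)) (b (l 15692496) (l 15701640)))) (b (a (b (l 15782000) (l 15790464)) (l 15672792)) (a (b (l 15798448) (l 15805888)) (l 15688680)))) (b (b (a (b (l 15597504) (l 15606992)) (b (a (l 15539480) (l 15500960)) (l 15508456))) (a (b (l 15616296) (l 15625352)) (b (l 15538616) (l 15547568)))) (b (a (b (l 15634088) (l 15642448)) (b (l 15556232) (l 15564528))) (a (l 15612216) (b (l 15572408) (l 15579816)))))) (b (a (b (a (l 15815952) (l 15744336))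 (a (l 15826968) (l 15755464))) (b (a (l 15625944) (b (l 15586696) (l 15592992))) (a (l 15658144) (b (l 15598664) (l 15603664))))) (a (b (a (l 15835032) (l 15763720)) (a (l 15842136) (l 15771096))) (b (a (l 15687560) (l 15609896)) (a (l 15695216) (l 15617832)))))), by decide +kernel⟩

theorem s11_pm_102 : ∃ t, chk3 f_pm_102 t 15 7 1 = true := ex3_a k9_pm_102 k10_pm_102

theorem s12_pm_102 : ∃ t, chk3 f_pm_102 t 7 7 1 = true := ex3_a k8_pm_102 s11_pm_102

theorem s13_pm_102 : ∃ t, chk3 f_pm_102 t 31 6 1 = true := ex3_b k6_pm_102 k7_pm_102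

theorem s14_pm_102 : ∃ t, chk3 f_pm_102 t 30 6 1 = true := ex3_b k4_pm_102 k5_pm_102

theorem s15_pm_102 : ∃ t, chk3 f_pm_102 t 15 6 1 = true := ex3_a s14_pm_102 s13_pm_102

theorem s16_pm_102 : ∃ t, chk3 f_pm_102 t 7 6 1 = true := ex3_a k3_pm_102 s15_pm_102

theorem s17_pm_102 : ∃ t, chk3 f_pm_102 t 7 3 1 = true := ex3_b s16_pm_102 s12_pm_102

theorem s18_pm_102 : ∃ t, chk3 f_pm_102 t 3 3 1 = true := ex3_a k2_pm_102 s17_pm_102

theorem s19_pm_102 : ∃ t, chk3 f_pm_102 t 3 1 1 = true := ex3_b k1_pm_102 s18_pm_102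

theorem s20_pm_102 : ∃ t, chk3 f_pm_102 t 1 1 1 = true := ex3_a k0_pm_102 s19_pm_102

theorem c_pm_102 : CertB 536870912 536870912 0 536870912 1033476505 6710887 3 eng mog cd0q1 cd0q0 pd2 true true false .npp 1 0 2
    ndB0q1 ndB0q0 pcB2 cut_pm_102 Ext.none :=
  certB0 (fam := true) (s1 := true) (s2 := false) (a := 1) (b := 0) (c := 2) (cn := .npp) (n1 := ndB0q1) (n2 := ndB0q0) (pc := pcB2) (cut := cut_pm_102) (xt := Ext.none) (P1 := 536870912) (W1 := 536870912) (P2 := 0) (W2 := 536870912) (P3 := 1033476505) (W3 := 6710887) (N0 := 3) (En := eng) (mo := mog) (C1 := cd0q1) (C2 := cd0q0) (C3 := pd2)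
    rfl s20_pm_102

noncomputable def cut_pm_112 : Cut := Cut.of [[⟨3, 0, 0, 1449551462⟩], [⟨4, 0, 0, 2845415833⟩]]

noncomputable def f_pm_112 : ℕ → ℕ → ℕ → ℕ → Bool := onCell 536870912 536870912 536870912 536870912 1033476505 6710887
    (rowB 3 eng mog cd0q1 cd0q1 pd2 0 true true false .dn 1 1 2 (qsf 536870912 536870912 536870912 536870912 2) ndB0q1 ndB0q1 pcB2 cut_pm_112 Ext.none)

def k0_pm_112 : ∃ t, chk3 f_pm_112 t 2 1 1 = true :=
  ⟨(b (a (b (l 6) (b (l 6) (a (l 6) (b (a (l 6) (l 16708544)) (a (l 16691200) (l 16697600)))))) (b (a (l 6) (b (l 6) (a (b (l 6) (l 16708544)) (b (l 16691200) (l 16697600))))) (a (b (a (b (l 6) (l 16705312)) (b (l 16705312) (l 16687120))) (a (l 16669304) (l 16670152))) (b (b (l 16669304) (l 16670152)) (a (l 16653432) (l 16647656)))))) (b (a (b (a (b (a (l 6) (l 16657600)) (a (l 16623368) (l 16614432))) (b (l 16633400) (l 16613736))) (b (a (a (l 16574048) (l 16565848)) (l 16545496)) (a (b (l 16529136) (l 16501240)) (b (l 16526176)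 (l 16494288))))) (b (a (b (l 16579952) (a (l 16631208) (l 16656512))) (b (l 16649008) (l 16630736))) (a (b (l 16536352) (a (l 16528048) (l 16552504))) (b (l 16564528) (l 2))))) (b (a (b (a (b (a (l 16479696) (l 16464280)) (a (b (l 16470312) (l 16494648)) (b (l 16438848) (l 16416888)))) (a (b (l 16455888) (l 16395200)) (l 16388864))) (a (b (a (l 16354712) (l 16403472)) (a (b (l 16301384) (l 16206368)) (b (l 16310112) (l 16216272)))) (b (a (b (l 16404816) (l 16404952)) (b (l 16347968) (l 2))) (a (b (l 16315256) (l 16222944)) (l 2))))) (b (a (a (l 16415136) (l 2)) (l 2)) (l 2))) (a (b (b (a (b (a (l 16112184) (l 16123216)) (a (a (l 16021136) (l 16027544)) (a (l 16033656) (l 16039248)))) (b (a (l 16131376) (l 2)) (l 2))) (a (a (b (a (l 15960160) (l 15967016)) (l 15894000)) (b (a (l 15973672) (l 15979888)) (l 15908264))) (l 2))) (a (b (a (b (l 15832656) (l 15762184)) (b (l 15847984) (l 2))) (a (a (b (l 15703504) (l 15626480)) (b (l 15712136) (l 2))) (l 2))) (l 2))) (l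 2))))), by decide +kernel⟩

def k1_pm_112 : ∃ t, chk3 f_pm_112 t 3 1 1 = true :=
  ⟨(b (a (b (a (b (a (b (l 6) (l 16657600)) (b (l 16623368) (l 16614432))) (a (l 16633400) (l 16613736))) (a (b (b (l 16574048) (l 16565848)) (l 16545496)) (b (a (l 16529136) (l 16501240)) (a (l 16526176) (l 16494288))))) (a (b (a (l 16579952) (b (l 16631208) (l 16656512))) (a (l 16649008) (l 16630736))) (b (a (l 16536352) (b (l 16528048) (l 16552504))) (a (l 16564528) (l 2))))) (a (b (a (b (a (b (l 16479696) (l 16464280)) (b (a (l 16470312) (l 16494648)) (a (l 16438848) (l 16416888)))) (b (a (l 16455888) (l 16395200)) (l 16388864))) (b (a (b (l 16354712) (l 16403472)) (b (a (l 16301384) (l 16206368)) (a (l 16310112) (l 16216272)))) (a (b (a (l 16404816) (l 16404952)) (a (l 16347968) (l 2))) (b (a (l 16315256) (l 16222944)) (l 2))))) (a (b (b (l 16415136) (l 2)) (l 2)) (l 2))) (b (a (a (b (a (b (l 16112184) (l 16123216)) (b (b (l 16021136) (l 16027544)) (b (l 16033656) (l 16039248))))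 (a (b (l 16131376) (l 2)) (l 2))) (b (b (a (b (l 15960160) (l 15967016)) (l 15894000)) (a (b (l 15973672) (l 15979888)) (l 15908264))) (l 2))) (b (a (b (a (l 15832656) (l 15762184)) (a (l 15847984) (l 2))) (b (b (a (l 15703504) (l 15626480)) (a (l 15712136) (l 2))) (l 2))) (l 2))) (l 2)))) (a (b (b (a (a (l 16640840) (l 2)) (l 2)) (l 2)) (l 2)) (l 2))), by decide +kernel⟩

theorem s2_pm_112 : ∃ t, chk3 f_pm_112 t 1 1 1 = true := ex3_a k0_pm_112 k1_pm_112

theorem c_pm_112 : CertB 536870912 536870912 536870912 536870912 1033476505 6710887 3 eng mog cd0q1 cd0q1 pd2 true true false .dn 1 1 2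
    ndB0q1 ndB0q1 pcB2 cut_pm_112 Ext.none :=
  certB0 (fam := true) (s1 := true) (s2 := false) (a := 1) (b := 1) (c := 2) (cn := .dn) (n1 := ndB0q1) (n2 := ndB0q1) (pc := pcB2) (cut := cut_pm_112) (xt := Ext.none) (P1 := 536870912) (W1 := 536870912) (P2 := 536870912) (W2 := 536870912) (P3 := 1033476505) (W3 := 6710887) (N0 := 3) (En := eng) (mo := mog) (C1 := cd0q1) (C2 := cd0q1) (C3 := pd2)
    rfl s2_pm_112

end Pool.Agent.Strip051.G.I9625_9688.Tab.C.BA00

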