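import Pool.Agent.Strip051.G.I9625_9688.Tab

/-! # Certificates B3 (generated) -/

set_option linter.all false
set_option maxRecDepth 100000

namespace Pool.Agent.Strip051.G.I9625_9688.Tab.C.BA00

open Pool.Agent.Strip051.PB Pool.Agent.Strip051.PB.T
open Pool.Agent.Strip051.G.I9625_9688.Tab

noncomputable def cut_pm_202 : Cut := Cut.of [[⟨3, 0, 0, 1449551462⟩], [⟨4, 0, 0, 2845415833⟩], [⟨0, 1, 0, 26843545⟩, ⟨1, 0, 0, 26843545⟩, ⟨2, 1, 0, 26843545⟩]]

noncomputable def f_pm_202 : ℕ → ℕ → ℕ → ℕ → Bool := onCell 0 536870912 0 536870912 1033476505 6710887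
    (rowB 3 eng mog cd0q2 cd0q0 pd2 0 true true false .pp 2 0 2 (qsf 0 536870912 0 536870912 2) ndB0q2 ndB0q0 pcB2 cut_pm_202 Ext.none)

def k0_pm_202 : ∃ t, chk3 f_pm_202 t 2 2 1 = true :=
  ⟨(b (b (a (b (a (l 16219992) (l 16173224)) (a (l 16309712) (l 16411120))) (b (a (l 16079456) (a (l 16126520) (l 16093480))) (a (l 16276120) (b (l 16276312) (l 16381216))))) (b (a (a (b (l 16222000) (l 16136112)) (b (l 16334872) (l 16256296))) (a (b (l 16468824) (l 16397080)) (b (l 16469080) (l 16501088)))) (a (b (a (l 16021144) (l 16147840)) (a (l 15878480) (l 16010880))) (b (a (l 16273176) (l 16354504)) (a (l 16161376) (l 16329568)))))) (b (a (b (a (b (l 15735072) (l 15596144)) (b (l 15872688) (l 15738552))) (a (b (l 15464912) (l 15344416)) (b (l 15611696) (l 15495200)))) (b (a (b (l 16026792) (l 15895800)) (b (l 16197256) (l 16068056))) (a (b (l 15771688) (l 15657640)) (b (l 15945392) (l 15832552))))) (a (b (a (b (l 15195584) (a (l 15065320) (l 15186000))) (b (l 15391968) (l 15304712))) (a (b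 (a (l 14971520) (l 15115032)) (a (b (l 14993416) (l 14973024)) (l 15064840))) (b (l 15172992) (a (l 15147224) (l 15229008))))) (b (a (b (l 15556648) (l 15471504)) (a (l 15644992) (l 15626720))) (a (b (l 15404800) (l 15358864)) (a (b (l 15539488) (l 15494976)) (b (l 15626944) (l 15583336)))))))), by decide +kernel⟩

def k1_pm_202 : ∃ t, chk3 f_pm_202 t 4 12 1 = true :=
  ⟨(b (a (b (b (a (l 14957912) (l 15041376)) (a (l 14945576) (l 15029760))) (a (b (l 14934664) (l 14925304)) (l 15014992))) (b (a (l 15118352) (l 15201384)) (a (l 15099928) (l 15184056)))) (a (a (a (b (a (b (a (b (l 14882096) (a (c (b (a (l 14885712) (l 14885128)) (a (l 14893216) (l 14886792))) (l 14874624)) (l 14881136))) (l 14890576)) (a (b (a (l 14896176) (b (a (l 14880832) (l 14880016)) (a (l 14888904) (l 14882128)))) (l 14907352)) (b (l 14885992) (a (b (a (l 14883536) (l 14882456)) (c (l 14895544) (l 14881296))) (l 14885824))))) (l 14903232)) (a (b (b (a (l 14927008) (a (l 14902880) (b (a (l 14886672) (l 14885288))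 (l 14891888)))) (l 14931000)) (l 14961968)) (b (a (b (l 14891464) (a (b (a (l 14890232) (l 14888512)) (l 14895768)) (l 14892048))) (l 14900384)) (a (b (a (l 14911168) (b (a (l 14894208) (l 14892120)) (l 14900064))) (l 14923992)) (b (l 14898432) (a (b (a (l 14898592) (l 14896088)) (l 14904760)) (l 14899744))))))) (b (l 14935536) (l 14925592))) (b (l 15000320) (l 14991016))) (b (a (l 15086240) (l 15171256)) (a (l 15077688) (l 15163400))))), by decide +kernel⟩

def k2_pm_202 : ∃ t, chk3 f_pm_202 t 4 13 1 = true :=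
  ⟨(b (a (a (a (b (b (a (l 15004672) (b (a (l 14945336) (a (l 14920968) (b (a (l 14903400) (l 14900432)) (l 14909856)))) (l 14950808))) (l 15016488)) (l 15064552)) (b (a (b (a (b (l 14906824) (a (b (a (l 14908608) (l 14905136)) (l 14915344)) (l 14908832))) (l 14915952)) (a (b (a (l 14932200) (b (a (l 14914216) (l 14910192)) (l 14921216))) (l 14946504)) (b (a (l 14913872) (l 14917640)) (a (b (a (l 14920240) (l 14915608)) (l 14927480)) (b (l 14917360) (l 14919368)))))) (l 14931688)) (a (b (b (a (l 14969352) (a (l 14944776) (b (a (l 14926664) (l 14921368)) (l 14934104)))) (l 14976152)) (l 15011584)) (b (a (c (b (l 14955496) (a (b (l 14937416) (l 14947880)) (l 14937896))) (b (l 14920552) (a (l 14928664) (l 14923936)))) (l 14936640)) (a (b (a (l 14958640) (b (l 14937064) (l 14948072))) (l 14974264)) (b (a (b (l 14934720) (l 14958688)) (l 14940056)) (a (b (l 14944040) (l 14955512)) (b (l 14941128) (a (l 14944232) (l 14943072)))))))))) (b (l 14986616) (a (l 14964640) (l 15008672)))) (b (a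 (l 15073824) (l 15160008)) (a (l 15074224) (l 15160656)))) (b (a (b (b (a (a (l 15145008) (l 14950920)) (a (a (b (l 14956096) (b (l 14957488) (l 2))) (l 14977760)) (l 15010816))) (l 2)) (l 2)) (a (l 15078472) (l 15164936))) (l 2))), by decide +kernel⟩

def k3_pm_202 : ∃ t, chk3 f_pm_202 t 5 6 1 = true :=
  ⟨(b (b (a (b (l 15332904) (l 15317112)) (b (a (l 15470720) (l 15560288)) (a (l 15456568) (l 15547344)))) (a (b (l 15305544) (l 15298616)) (a (b (l 15446336) (l 15440472)) (b (l 15538144) (l 15533136))))) (a (b (b (l 15295856) (l 15278456)) (b (a (l 15254640) (l 15348672)) (a (l 15261944) (l 15355752)))) (b (a (b (l 15438488) (l 15439896)) (b (l 15531824) (l 15533720))) (a (b (l 15444280) (l 15451224)) (b (l 15538368) (l 15545344)))))), by decide +kernel⟩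

def k4_pm_202 : ∃ t, chk3 f_pm_202 t 2 7 1 = true :=
  ⟨(a (l 2) (b (a (l 2) (b (a (l 2) (b (l 15554272) (l 2))) (l 2))) (l 2))), by decide +kernel⟩

def k5_pm_202 : ∃ t, chk3 f_pm_202 t 3 4 1 = true :=
  ⟨(a (b (a (b (a (l 16049464) (b (l 16015104) (l 16111264))) (a (l 16276176) (l 16173040))) (b (a (b (l 16040376) (l 16149920)) (b (l 6) (l 16182488))) (a (b (l 16240824) (l 16325920)) (a (l 16354048) (l 16378184))))) (b (a (a (b (l 16404952) (l 16472456)) (b (l 16377808) (l 16440288))) (b (a (l 16394656) (l 16480840)) (a (l 16450224) (b (l 16510424) (l 16539480))))) (a (b (a (l 16577128) (l 16509648)) (a (l 16448920) (l 16516600))) (b (a (l 16533832) (l 16483704)) (a (l 16537440) (l 16440216)))))) (a (b (a (b (l 6) (a (l 16414704) (l 6))) (l 6)) (b (a (b (l 16514200) (a (l 16617624) (l 16523072))) (l 6)) (a (b (b (l 16443632) (l 16447000)) (l 16309584)) (b (a (l 16295880) (l 6)) (a (l 16273048) (l 16216912)))))) (l 6))), by decide +kernel⟩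

def k6_pm_202 : ∃ t, chk3 f_pm_202 t 6 5 1 = true :=
  ⟨(b (a (b (a (l 16231856) (l 16195000)) (a (l 15967368) (b (l 16134896) (l 16022424)))) (b (a (l 16236552) (b (l 16350528) (l 16221192))) (a (b (l 16155056) (l 16042440)) (b (l 16098160) (l 15985272))))) (a (b (a (b (l 15855064) (l 15771760)) (b (l 15923104) (l 15840136))) (a (b (l 15707472) (l 15664856)) (b (l 15776536) (l 15714088)))) (b (a (b (l 15943232) (l 15839776)) (b (l 15886176) (a (l 15824896) (l 15780784)))) (a (b (l 15777120) (a (l 15760336) (l 15751576))) (b (a (l 15763136) (b (l 15732784) (l 15707856))) (a (l 15724512) (b (l 15688968) (l 15676448)))))))), by decide +kernel⟩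

def k7_pm_202 : ∃ t, chk3 f_pm_202 t 14 5 1 = true :=
  ⟨(b (a (b (a (l 16143192) (l 15995208)) (a (l 15918144) (b (l 15953480) (l 15840040)))) (b (a (b (l 16140288) (l 16009584)) (b (l 16083816) (l 15952672))) (a (b (l 15885280) (l 15771544)) (b (l 15827936) (l 15692912))))) (a (b (a (b (l 15805904) (l 15724424)) (b (l 15740888) (l 15638656))) (a (b (l 15642856) (b (l 15633840) (l 15621888))) (b (c (l 15562552) (l 15573672)) (a (b (l 15586784) (l 15575264)) (b (l 15553592) (l 15542352)))))) (b (a (b (l 15672304) (a (l 15608128) (l 15574568))) (b (a (l 15624560) (l 15605256)) (a (b (l 15561904) (l 15526624)) (l 15524368)))) (a (b (a (b (l 15561176) (l 15537256)) (b (l 15527792) (l 15504048))) (a (b (l 15519648) (l 15508704)) (b (l 15486680) (l 15476032)))) (b (a (b (l 15497008) (l 15473448)) (b (l 15477944) (l 15454568))) (a (b (a (l 15463360) (l 15449840)) (a (l 15452936) (l 15439576))) (b (l 15437680) (a (l 15430576) (l 15425680))))))))), by decide +kernel⟩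

def k8_pm_202 : ∃ t, chk3 f_pm_202 t 15 5 1 = true :=
  ⟨(b (a (a (b (b (l 16066216) (l 15934632)) (b (l 15809448) (l 15695040))) (b (l 6) (b (l 15796808) (l 15680864)))) (b (l 6) (b (l 6) (a (l 15675024) (l 6))))) (a (b (b (a (a (l 15600128) (l 15594344)) (l 15559216)) (a (a (l 15519312) (l 15513592)) (a (l 15502392) (l 15495384)))) (a (b (a (b (l 15473056) (l 15449856)) (l 15455240)) (a (b (l 15433216) (l 15423496)) (l 15422568))) (b (a (l 15444048) (l 15435992)) (a (l 15411552) (l 15402600))))) (b (a (b (l 15572544) (b (l 15508232) (l 15472248))) (b (a (l 15565344) (l 6)) (b (a (l 15500456) (l 15495640)) (a (l 15464184) (l 15459176))))) (b (a (b (l 15442288) (l 15418800)) (b (a (l 15434040) (l 15428896)) (a (l 15410456) (b (l 15410512) (l 15400424))))) (a (b (l 15402192) (l 15392856)) (b (a (l 15393856) (b (l 15392128) (l 15385672))) (a (l 15384656) (b (l 15381112) (l 15378496))))))))), by decide +kernel⟩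

def k9_pm_202 : ∃ t, chk3 f_pm_202 t 6 3 1 = true :=
  ⟨(b (b (a (b (a (b (l 15643168) (l 15631632)) (b (l 15693984) (a (l 15687776) (l 15718904)))) (a (b (l 15623664) (l 15619744)) (a (l 15679136) (l 15711520)))) (b (a (b (a (l 15741696) (l 15734064)) (a (l 15733368) (l 15726920))) (b (a (l 15708200) (b (l 15669912) (l 15666104))) (a (l 15702320) (l 15662272)))) (a (a (l 15727448) (b (l 15723024) (l 15722888))) (a (b (l 15699624) (l 15700624)) (b (l 15660824) (l 15663024)))))) (a (a (b (b (l 15619336) (l 15621952)) (b (l 15627112) (l 15634376))) (b (a (l 15679968) (l 15755704)) (a (l 15712328) (b (l 15722224) (l 15730336))))) (a (b (a (b (l 15729200) (l 15733952)) (b (l 15725920) (l 15731584))) (a (b (l 15740912) (l 15749592)) (b (l 15739352) (l 15748744)))) (b (a (b (l 15704728) (l 15711384)) (b (l 15668248) (l 15675936))) (a (b (l 15720040) (l 15730216)) (b (l 15685544) (l 15696552))))))) (b (b (a (a (b (l 15643352) (l 15653656)) (b (a (l 15704528) (l 15739856)) (a (l 15714896)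 (l 15750392)))) (a (a (b (l 15759568) (l 15770432)) (b (l 15759312) (l 15770632))) (a (b (l 15741448) (l 15753320)) (b (l 15708496) (l 15720952))))) (a (l 2) (b (a (a (l 15781816) (l 15782352)) (a (l 15765448) (a (l 15742840) (l 15723648)))) (a (l 2) (a (l 15777496) (a (l 15755104) (l 15736072))))))) (l 2))), by decide +kernel⟩

def k10_pm_202 : ∃ t, chk3 f_pm_202 t 14 6 1 = true :=
  ⟨(b (a (b (b (a (b (l 15616000) (l 15612872)) (b (a (l 15569880) (l 15537312)) (a (l 15567264) (l 15535056)))) (a (l 15610040) (a (l 15565208) (l 15533520)))) (a (b (l 15609880) (l 15613312)) (b (a (l 15566048) (l 15535040)) (a (l 15570432) (l 15540088))))) (b (a (b (a (b (l 15504008) (l 15502112)) (b (a (l 15479568) (l 15463992)) (l 15470168))) (a (l 15501112) (b (l 15469560) (l 15470048)))) (b (a (b (a (l 15448864) (l 15435688)) (a (l 15447624) (l 15434632))) (b (a (l 15426872) (l 15422160)) (a (l 15426016) (l 15421504)))) (a (a (l 15447592) (l 15434888)) (a (l 15426560) (l 15422336))))) (a (a (b (l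 15503328) (l 15509056)) (b (b (l 15471528) (l 15473920)) (a (l 15486368) (l 15471968)))) (a (b (a (l 15451088) (l 15438760)) (a (l 15458048) (l 15446080))) (b (a (l 15430808) (l 15426968)) (a (l 15438504) (l 15435040))))))) (a (b (a (b (l 15619704) (l 15628480)) (b (a (l 15577744) (l 15548024)) (a (l 15587368) (l 15558232)))) (a (b (l 15639064) (a (l 15663360) (l 15638224))) (b (a (l 15598736) (l 15570152)) (a (l 15611328) (l 15583232))))) (a (b (a (b (l 15517640) (l 15528464)) (b (a (l 15495448) (l 15481392)) (b (l 15496704) (l 15502880)))) (a (b (b (l 15537664) (l 15544224)) (b (l 15551024) (l 15558016))) (b (b (l 15509424) (l 15516264)) (b (l 15523336) (l 15530576))))) (b (a (b (a (l 15467816) (l 15456200)) (a (l 15479760) (l 15468480))) (b (a (l 15448984) (l 15445888)) (a (l 15461600) (l 15458856)))) (a (b (a (l 15493280) (l 15482320)) (a (b (l 15504096) (l 15511536)) (b (l 15493344) (l 15500928)))) (b (a (l 15475760) (l 15473344)) (a (b (l 15487016) (l 15494736)) (l 15488776)))))))),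 by decide +kernel⟩

def k11_pm_202 : ∃ t, chk3 f_pm_202 t 15 12 1 = true :=
  ⟨(a (b (a (b (a (b (a (l 15420896) (l 15420128)) (a (l 15420432) (l 15419872))) (b (l 15415880) (l 15415928))) (a (a (l 15421560) (l 15421296)) (l 15417824))) (b (a (b (l 15405272) (l 15405752)) (b (l 15395936) (l 15396112))) (a (l 15408272) (a (l 15399472) (l 15398176))))) (a (a (b (a (l 15426584) (l 15426720)) (a (l 15435048) (l 15435568))) (b (l 15423848) (l 15433304))) (a (b (l 15415144) (l 15425416)) (b (a (l 15406568) (l 15404776)) (a (l 15417272) (l 15414864)))))) (b (b (a (b (a (l 15392792) (l 15387832)) (l 15390840)) (b (a (l 15382392) (b (l 15377744) (l 15377824))) (a (l 15383184) (a (l 15379568) (l 15377536))))) (a (a (l 15395648) (l 15391152)) (a (b (l 15384888) (l 15387712)) (b (a (l 15381432) (l 15379512)) (a (l 15384416) (l 15382600)))))) (a (b (a (l 15402512) (l 15398400)) (a (l 15412864) (l 15409120))) (b (a (b (l 15391544) (l 15396296)) (b (a (l 15388408) (l 15386704)) (a (l 15393320) (l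 15391728)))) (a (b (l 15401872) (l 15408184)) (b (a (l 15399056) (l 15397576)) (a (l 15405528) (l 15404160)))))))), by decide +kernel⟩

def k12_pm_202 : ∃ t, chk3 f_pm_202 t 15 13 1 = true :=
  ⟨(a (a (b (a (b (a (l 15446256) (l 15447168)) (a (l 15459584) (l 15460856))) (b (l 15445480) (l 15459728))) (a (b (a (l 15474408) (l 15476024)) (a (l 15490152) (l 15492088))) (b (l 15475432) (l 15492000)))) (b (a (b (l 15438400) (l 15453432)) (b (a (l 15430736) (l 15427728)) (a (l 15446136) (l 15442528)))) (a (b (l 15469872) (l 15487136)) (b (l 15482336) (a (l 15480568) (l 15476248)))))) (b (a (b (a (l 15425984) (l 15422608)) (a (l 15441184) (l 15438160))) (b (a (b (l 15415136) (l 15422648)) (b (a (l 15412640) (l 15411376)) (l 15419648))) (a (l 15434792) (b (l 15427832) (l 15436400))))) (a (b (a (l 15457816) (l 15455120)) (a (l 15475272) (l 15472864))) (b (a (l 15452112) (b (l 15445272) (l 15454352))) (a (l 15470184) (b (l 15463576) (l 15472864))))))), by decide +kernel⟩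

def k13_pm_202 : ∃ t, chk3 f_pm_202 t 14 14 1 = true :=
  ⟨(a (b (a (b (a (l 15675872) (l 15651128)) (a (l 15688792) (l 15664376))) (b (a (l 15624640) (b (l 15593472) (l 15600432))) (a (l 15638232) (b (l 15607416) (l 15614368))))) (a (b (a (l 15701720) (l 15677560)) (a (l 15714312) (l 15690320))) (b (a (l 15651688) (b (l 15621248) (l 15628000))) (a (l 15664640) (b (l 15634592) (l 15640968)))))) (a (b (a (b (b (l 15565120) (l 15572288)) (b (l 15579464) (l 15586592))) (b (b (l 15537920) (l 15545312)) (b (a (l 15559168) (l 15546416)) (a (l 15566440) (l 15553784))))) (a (b (b (l 15593624) (l 15600520)) (b (l 15607216) (a (l 15620504) (l 15606952)))) (b (b (a (l 15573600) (l 15561024)) (a (l 15580600) (l 15568104))) (a (b (l 15587392) (l 15593936)) (b (l 15574960) (l 15581560)))))) (b (a (b (a (b (l 15519064) (l 15526632)) (b (l 15508584) (l 15516280))) (a (b (l 15534176) (l 15541640)) (b (l 15523936) (l 15531504)))) (b (a (b (l 15502528) (l 15510344)) (b (l 15500624) (l 15508568))) (a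 (b (l 15518120) (l 15525792)) (b (l 15516464) (l 15524248))))) (a (b (a (b (l 15548976) (l 15556136)) (b (l 15538936) (l 15546176))) (a (b (l 15563064) (l 15569720)) (b (l 15553176) (l 15559896)))) (b (a (b (l 15533320) (l 15540648)) (b (l 15531880) (l 15539304))) (a (b (l 15547728) (l 15554520)) (b (l 15546464) (l 15553320)))))))), by decide +kernel⟩

def k14_pm_202 : ∃ t, chk3 f_pm_202 t 15 14 1 = true :=
  ⟨(a (a (b (a (b (a (l 15506288) (l 15508520)) (a (l 15522312) (l 15524800))) (b (l 15508880) (l 15525568))) (a (b (a (b (l 15533952) (l 15541472)) (l 15540480)) (a (b (l 15548720) (l 15555648)) (l 15555144))) (b (l 15541600) (l 15556544)))) (b (a (b (l 15504656) (l 15521920)) (b (a (l 15498600) (l 15494288)) (a (l 15516320) (l 15512216)))) (b (a (l 15538448) (l 15532072)) (a (l 15553808) (l 15547616))))) (b (a (b (a (l 15492960) (l 15490800)) (a (l 15510352) (l 15508392))) (b (a (l 15488400) (b (l 15482144) (l 15491344))) (a (l 15506224) (b (l 15500400) (l 15509240))))) (a (b (a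 (l 15526944) (l 15525112)) (l 15541376)) (b (a (l 15523112) (b (l 15517800) (l 15526016))) (a (l 15538608) (b (l 15533840) (l 15541208))))))), by decide +kernel⟩

def k15_pm_202 : ∃ t, chk3 f_pm_202 t 7 15 1 = true :=
  ⟨(b (b (a (a (a (l 2) (a (l 15676768) (b (l 15647096) (l 2)))) (a (a (a (l 3319634343) (a (l 15619536) (l 15612896))) (a (b (l 15600192) (l 15606128)) (b (l 15587864) (l 15593832)))) (a (a (b (l 15565584) (l 15571592)) (b (l 15566296) (l 15572336))) (a (b (l 15560976) (l 15567056)) (b (l 15559832) (l 15565960)))))) (a (a (a (a (b (l 15562224) (l 15568400)) (l 15568408)) (l 15570032)) (a (l 15567616) (l 15561328))) (a (a (l 15555504) (l 15554152)) (a (l 15552264) (l 15551304))))) (a (a (l 2) (a (l 2) (b (a (a (l 15587696) (l 15577984)) (a (l 15572728) (l 15571664))) (a (l 2) (a (l 2) (l 15576920)))))) (a (a (a (a (b (l 15574144) (l 15579416)) (l 15579960)) (l 15581720)) (l 15576632)) (a (a (l 15566824) (l 15565656)) (a (l 15563688) (l 15562688)))))) (a (l 2) (b (a (a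 (a (l 2) (l 15591416)) (l 15586488)) (a (a (l 15576112) (l 15574792)) (a (l 15572632) (l 15571488)))) (a (l 2) (a (a (l 15585208) (l 15583448)) (a (l 15581032) (l 15579656))))))), by decide +kernel⟩

theorem s16_pm_202 : ∃ t, chk3 f_pm_202 t 7 14 1 = true := ex3_a k13_pm_202 k14_pm_202

theorem s17_pm_202 : ∃ t, chk3 f_pm_202 t 7 7 1 = true := ex3_b s16_pm_202 k15_pm_202

theorem s18_pm_202 : ∃ t, chk3 f_pm_202 t 15 6 1 = true := ex3_b k11_pm_202 k12_pm_202

theorem s19_pm_202 : ∃ t, chk3 f_pm_202 t 7 6 1 = true := ex3_a k10_pm_202 s18_pm_202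

theorem s20_pm_202 : ∃ t, chk3 f_pm_202 t 7 3 1 = true := ex3_b s19_pm_202 s17_pm_202

theorem s21_pm_202 : ∃ t, chk3 f_pm_202 t 3 3 1 = true := ex3_a k9_pm_202 s20_pm_202

theorem s22_pm_202 : ∃ t, chk3 f_pm_202 t 7 5 1 = true := ex3_a k7_pm_202 k8_pm_202

theorem s23_pm_202 : ∃ t, chk3 f_pm_202 t 3 5 1 = true := ex3_a k6_pm_202 s22_pm_202

theorem s24_pm_202 : ∃ t, chk3 f_pm_202 t 3 2 1 = true := ex3_b k5_pm_202 s23_pm_202

theorem s25_pm_202 : ∃ t, chk3 f_pm_202 t 3 1 1 = true := ex3_b s24_pm_202 s21_pm_202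

theorem s26_pm_202 : ∃ t, chk3 f_pm_202 t 4 6 1 = true := ex3_b k1_pm_202 k2_pm_202

theorem s27_pm_202 : ∃ t, chk3 f_pm_202 t 2 6 1 = true := ex3_a s26_pm_202 k3_pm_202

theorem s28_pm_202 : ∃ t, chk3 f_pm_202 t 2 3 1 = true := ex3_b s27_pm_202 k4_pm_202

theorem s29_pm_202 : ∃ t, chk3 f_pm_202 t 2 1 1 = true := ex3_b k0_pm_202 s28_pm_202

theorem s30_pm_202 : ∃ t, chk3 f_pm_202 t 1 1 1 = true := ex3_a s29_pm_202 s25_pm_202

theorem c_pm_202 : CertB 0 536870912 0 536870912 1033476505 6710887 3 eng mog cd0q2 cd0q0 pd2 true true false .pp 2 0 2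
    ndB0q2 ndB0q0 pcB2 cut_pm_202 Ext.none :=
  certB0 (fam := true) (s1 := true) (s2 := false) (a := 2) (b := 0) (c := 2) (cn := .pp) (n1 := ndB0q2) (n2 := ndB0q0) (pc := pcB2) (cut := cut_pm_202) (xt := Ext.none) (P1 := 0) (W1 := 536870912) (P2 := 0) (W2 := 536870912) (P3 := 1033476505) (W3 := 6710887) (N0 := 3) (En := eng) (mo := mog) (C1 := cd0q2) (C2 := cd0q0) (C3 := pd2)
    rfl s30_pm_202

noncomputable def cut_pm_203 : Cut := Cut.of [[⟨3, 0, 0, 1449551462⟩], [⟨4, 0, 0, 2845415833⟩]]

noncomputable def f_pm_203 : ℕ → ℕ → ℕ → ℕ → Bool := onCell 0 536870912 1610612736 536870912 1033476505 6710887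
    (rowB 3 eng mog cd0q2 cd0q0 pd3 1 true true false .up 2 0 3 (qsf 0 536870912 0 536870912 3) ndB0q2 ndB0q0 pcB3 cut_pm_203 Ext.none)

def k0_pm_203 : ∃ t, chk3 f_pm_203 t 16 16 1 = true :=
  ⟨(b (b (a (l 14932952) (c (b (l 14760976) (l 14852896)) (l 14823992))) (a (l 15033328) (l 14848320))) (b (c (l 14985928) (l 15015568)) (l 15082744))), by decide +kernel⟩

def k1_pm_203 : ∃ t, chk3 f_pm_203 t 17 16 1 = true :=
  ⟨(a (b (a (b (a (b (a (b (a (a (l 14734800) (b (c (b (l 14734848) (l 14736568)) (l 14720680)) (l 14733968))) (a (b (l 14728424) (c (a (l 14738512) (l 14737880)) (l 14723216))) (l 14730472))) (c (b (a (l 14751072) (a (l 14744312) (c (l 14744752) (l 14737168)))) (l 14753840)) (l 14735024))) (c (b (l 14742080) (a (b (l 14741608) (a (l 14743512) (l 14743200))) (l 14745056))) (l 14728880))) (a (l 14764736) (c (b (a (b (a (l 14749872) (l 14746104)) (l 14754944)) (b (l 14746432) (a (l 14748736) (l 14748080)))) (l 14761240)) (b (l 14735464) (l 14746440))))) (b (l 14744992) (c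 (b (l 14754640) (a (a (b (l 14751352) (l 14774992)) (l 14754528)) (l 14759408))) (l 14742080)))) (a (l 14800472) (b (a (b (a (l 14755256) (c (b (l 14756376) (l 14759328)) (l 14743704))) (l 14765688)) (a (b (l 14752040) (b (l 14754208) (l 14757504))) (l 14756168))) (b (a (l 14780968) (a (l 14767312) (c (l 14790096) (l 14754680)))) (l 14787128))))) (b (l 14766096) (b (l 14770880) (a (b (l 14767072) (a (a (c (l 14774664) (l 14760360)) (l 14767520)) (l 14772240))) (l 14781056))))) (a (b (l 14843344) (l 14905408)) (b (a (b (a (b (a (l 14779888) (c (l 14780328) (l 14766176))) (l 14790752)) (b (l 14774576) (a (l 14779120) (l 14778488)))) (b (a (l 14806192) (a (l 14792720) (l 14785136))) (l 14812728))) (b (l 14785056) (a (b (l 14785704) (a (l 14791288) (l 14789832))) (l 14792656)))) (a (l 14851888) (b (a (l 14809048) (b (l 14797192) (a (l 14804040) (l 14801584)))) (l 14831448)))))) (b (b (l 14805408) (l 14811840)) (b (l 14819696) (a (b (l 14813536) (a (a (b (l 14809056) (l 14816192)) (l 14815296))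 (l 14824976))) (l 14841840))))), by decide +kernel⟩

def k2_pm_203 : ∃ t, chk3 f_pm_203 t 8 17 1 = true :=
  ⟨(a (b (b (l 15144696) (l 15207456)) (b (l 15270888) (l 15334888))) (a (b (l 14923224) (l 15095288)) (b (a (b (a (b (a (l 14836640) (b (l 14821296) (l 14829296))) (l 14860240)) (b (l 14830280) (a (b (l 14833928) (l 14842904)) (l 14839496)))) (b (a (l 14892752) (a (l 14866144) (l 14852928))) (l 14907744))) (b (l 14852336) (a (b (l 14855392) (a (l 14866832) (l 14865264))) (l 14870488)))) (a (l 14990592) (b (a (b (l 14888616) (l 14921120)) (b (l 14881704) (a (l 14896016) (l 14892304)))) (l 14953016)))))), by decide +kernel⟩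

def k3_pm_203 : ∃ t, chk3 f_pm_203 t 9 8 1 = true :=
  ⟨(a (b (b (b (l 14883824) (l 14889984)) (b (l 14897512) (l 14906352))) (b (l 14922032) (b (l 14940368) (a (a (a (b (l 14909192) (l 14925216)) (l 14922728)) (l 14941512)) (l 14979000))))) (b (b (a (l 14964424) (l 15016968)) (l 15004968)) (b (l 15024008) (l 15047560)))), by decide +kernel⟩

def k4_pm_203 : ∃ t, chk3 f_pm_203 t 4 9 1 = true :=
  ⟨(a (b (b (a (b (l 15399328) (l 14)) (b (l 15125416) (l 15192824))) (a (l 14) (l 15294696))) (b (a (l 14) (l 15431072)) (l 14))) (b (a (a (b (a (b (a (l 14968680) (b (l 14937872) (l 14956144))) (l 15021168)) (b (l 14956560) (a (b (l 14967760) (l 14988664)) (l 14979800)))) (b (a (l 15090752) (a (l 15039360) (b (l 14998920) (l 15022880)))) (l 15126624))) (b (l 15001336) (a (b (l 15015968) (a (l 15046144) (l 15041176))) (l 15046744)))) (b (l 15075336) (l 15107088))) (a (b (a (l 15232440) (a (b (l 15096376) (l 15167712)) (b (l 15078752) (a (l 15117704) (l 15106304))))) (b (l 15291544) (l 15343656)))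 (b (l 15142616) (a (a (b (a (l 15140384) (l 15142656)) (a (l 15195472) (b (l 15162592) (l 15184472)))) (l 15171480)) (l 15204600)))))), by decide +kernel⟩

def k5_pm_203 : ∃ t, chk3 f_pm_203 t 5 4 1 = true :=
  ⟨(b (a (b (b (a (l 15098784) (l 15212016)) (a (l 15112200) (l 15224648))) (b (a (l 15130064) (l 15241304)) (a (l 15152064) (l 15261688)))) (b (a (b (l 15327896) (l 15339728)) (b (l 15506520) (l 15454616))) (a (b (l 15355152) (l 15373848)) (b (l 15468736) (l 15485664))))) (a (b (a (l 15171360) (l 15277816)) (a (l 15236760) (l 15358712))) (b (a (b (l 15395552) (l 15420032)) (b (l 15505128) (l 15526600))) (a (l 15461944) (b (l 15551032) (l 15578768)))))), by decide +kernel⟩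

def k6_pm_203 : ∃ t, chk3 f_pm_203 t 2 5 1 = true :=
  ⟨(b (a (a (l 14) (b (a (b (b (l 15415064) (l 14)) (l 14)) (b (a (a (l 15290432) (b (a (b (l 15197752) (l 15223408)) (l 15209808)) (a (l 15278992) (b (l 15234880) (l 15265136))))) (b (l 15235912) (l 15261856))) (a (l 14) (b (a (a (b (l 15274320) (l 14)) (b (l 15271160) (l 15289480))) (l 15293312)) (l 2))))) (l 2))) (b (a (a (l 207866848519) (l 15433752)) (a (l 15531248) (l 15628584))) (l 2))) (l 2)), by decide +kernel⟩

def k7_pm_203 : ∃ t, chk3 f_pm_203 t 2 3 1 = true :=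
  ⟨(l 2), by decide +kernel⟩

def k8_pm_203 : ∃ t, chk3 f_pm_203 t 6 2 1 = true :=
  ⟨(b (a (b (a (b (b (a (l 15528296) (l 15582808)) (a (l 15538664) (l 15592736))) (b (l 15620584) (l 15593688))) (b (b (a (l 15635128) (l 15683344)) (a (l 15644584) (l 15692320))) (b (a (l 15656240) (l 15703208)) (a (l 15669792) (l 15715728))))) (a (b (b (l 15610768) (l 15629624)) (b (l 15651264) (l 15676904))) (b (b (a (l 15684736) (l 15729528)) (a (l 15701968) (l 15745472))) (b (l 15724168) (l 2))))) (b (a (b (b (a (l 15716704) (l 15730928)) (a (l 15725232) (l 15739008))) (b (a (l 15735392) (l 15748440)) (a (l 15746904) (l 15758768)))) (b (a (b (a (l 15730416) (l 15725240)) (a (l 15738112) (l 15732624))) (b (a (l 15716584) (l 15704832)) (a (l 15723624) (l 15711480)))) (a (b (a (l 15746936) (l 15741000)) (l 15753808)) (b (a (l 15731504) (l 15718624)) (b (l 15731600) (l 15736312)))))) (a (b (b (a (l 15759608) (l 15770944)) (a (l 15774888) (l 15785720))) (b (a (l 15793776) (l 2)) (l 2))) (b (a (b (l 15765160)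 (l 15779816)) (b (l 15745000) (l 2))) (l 2))))) (l 2)), by decide +kernel⟩

def k9_pm_203 : ∃ t, chk3 f_pm_203 t 7 8 1 = true :=
  ⟨(a (a (b (a (b (a (l 15690424) (l 15673840)) (a (l 15696624) (l 15679536))) (b (a (b (l 15654328) (l 15656800)) (b (l 15635112) (l 15637328))) (a (b (l 15659384) (l 15662024)) (b (l 15639592) (l 15641824))))) (a (b (a (l 15703264) (l 15685600)) (a (l 15711216) (l 15693296))) (b (a (l 15666248) (b (l 15644312) (l 15647272))) (a (l 15673760) (l 15653176))))) (b (a (b (a (b (a (l 15620312) (l 15610568)) (a (l 15622312) (l 15612408))) (b (a (l 15601352) (l 15592792)) (a (l 15603040) (l 15594304)))) (a (b (a (l 15624336) (l 15614256)) (l 15621184)) (b (a (l 15604696) (l 15595744)) (a (l 15606400) (l 15597416))))) (a (b (b (a (c (l 15591136) (l 15578384)) (c (l 15585128) (l 15572376))) (a (c (l 15592432) (l 15579768)) (c (l 15586248) (l 15573568)))) (b (a (l 15587368) (l 15581008)) (a (l 15588880) (l 15582488)))) (b (b (a (c (l 15583528) (l 15570856)) (l 15579824))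 (a (a (l 15578184) (l 15578344)) (l 15580560))) (a (b (l 15579144) (l 15580584)) (b (l 15581432) (l 15582912)))))) (a (b (a (b (l 15623432) (l 15626400)) (b (l 15603984) (l 15606896))) (a (b (l 15630056) (l 15634392)) (b (l 15610472) (l 2)))) (a (b (a (b (l 15591080) (l 15593944)) (b (l 15584664) (l 15587496))) (a (l 25331224583) (l 2))) (b (a (b (l 15582744) (l 15585536)) (l 15586376)) (l 2)))))) (a (a (b (b (a (a (b (l 15585976) (l 15586528)) (l 15592904)) (b (l 15599920) (l 15600288))) (a (a (l 15588040) (l 15594608)) (l 15601696))) (b (a (a (l 15592248) (l 15598760)) (l 15605768)) (l 2))) (b (b (a (l 15605248) (l 15606176)) (l 15607648)) (l 2))) (b (a (b (a (l 15598856) (l 15579664)) (l 121968001175)) (b (a (l 15559368) (l 15540040)) (l 2))) (l 2)))), by decide +kernel⟩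

def k10_pm_203 : ∃ t, chk3 f_pm_203 t 7 9 1 = true :=
  ⟨(a (a (b (b (a (a (l 15722096) (l 15703984)) (a (l 15684216) (l 2))) (l 2)) (l 2)) (l 2)) (l 2)), by decide +kernel⟩

def k11_pm_203 : ∃ t, chk3 f_pm_203 t 7 5 1 = true :=
  ⟨(l 2), by decide +kernel⟩

def k12_pm_203 : ∃ t, chk3 f_pm_203 t 3 3 1 = true :=
  ⟨(l 2), by decide +kernel⟩

theorem s13_pm_203 : ∃ t, chk3 f_pm_203 t 7 4 1 = true := ex3_b k9_pm_203 k10_pm_203

theorem s14_pm_203 : ∃ t, chk3 f_pm_203 t 7 2 1 = true := ex3_b s13_pm_203 k11_pm_203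

theorem s15_pm_203 : ∃ t, chk3 f_pm_203 t 3 2 1 = true := ex3_a k8_pm_203 s14_pm_203

theorem s16_pm_203 : ∃ t, chk3 f_pm_203 t 3 1 1 = true := ex3_b s15_pm_203 k12_pm_203

theorem s17_pm_203 : ∃ t, chk3 f_pm_203 t 8 16 1 = true := ex3_a k0_pm_203 k1_pm_203

theorem s18_pm_203 : ∃ t, chk3 f_pm_203 t 8 8 1 = true := ex3_b s17_pm_203 k2_pm_203

theorem s19_pm_203 : ∃ t, chk3 f_pm_203 t 4 8 1 = true := ex3_a s18_pm_203 k3_pm_203

theorem s20_pm_203 : ∃ t, chk3 f_pm_203 t 4 4 1 = true := ex3_b s19_pm_203 k4_pm_203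

theorem s21_pm_203 : ∃ t, chk3 f_pm_203 t 2 4 1 = true := ex3_a s20_pm_203 k5_pm_203

theorem s22_pm_203 : ∃ t, chk3 f_pm_203 t 2 2 1 = true := ex3_b s21_pm_203 k6_pm_203

theorem s23_pm_203 : ∃ t, chk3 f_pm_203 t 2 1 1 = true := ex3_b s22_pm_203 k7_pm_203

theorem s24_pm_203 : ∃ t, chk3 f_pm_203 t 1 1 1 = true := ex3_a s23_pm_203 s16_pm_203

theorem c_pm_203 : CertB 0 536870912 0 536870912 1033476505 6710887 3 eng mog cd0q2 cd0q0 pd3 true true false .up 2 0 3
    ndB0q2 ndB0q0 pcB3 cut_pm_203 Ext.none :=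
  certB1 (fam := true) (s1 := true) (s2 := false) (a := 2) (b := 0) (c := 3) (cn := .up) (n1 := ndB0q2) (n2 := ndB0q0) (pc := pcB3) (cut := cut_pm_203) (xt := Ext.none) (P1 := 0) (W1 := 536870912) (P2 := 0) (W2 := 536870912) (P3 := 1033476505) (W3 := 6710887) (N0 := 3) (En := eng) (mo := mog) (C1 := cd0q2) (C2 := cd0q0) (C3 := pd3)
    rfl (fun _ => rfl) s24_pm_203

end Pool.Agent.Strip051.G.I9625_9688.Tab.C.BA00

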