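import Pool.Agent.Strip051.G.I9625_9688.Tab
import Pool.Agent.Strip051.PB.ExtD3

/-! # Certificates B5 (generated) -/

set_option linter.all false
set_option maxRecDepth 100000

namespace Pool.Agent.Strip051.G.I9625_9688.Tab.C.BA00

open Pool.Agent.Strip051.PB Pool.Agent.Strip051.PB.T
open Pool.Agent.Strip051.G.I9625_9688.Tab

noncomputable def cut_mm_001 : Cut := Cut.of [[⟨3, 0, 0, 1449551462⟩], [⟨4, 0, 0, 2845415833⟩]]

noncomputable def f_mm_001 : ℕ → ℕ → ℕ → ℕ → Bool := onCell 0 536870912 0 536870912 1033476505 6710887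
    (rowB 3 eng mog cd0q0 cd0q0 pd1 0 true false false .up 0 0 1 (qsf 0 536870912 0 536870912 1) ndB0q0 ndB0q0 pcB1 cut_mm_001 Ext.none)

def k0_mm_001 : ∃ t, chk3 f_mm_001 t 1 1 1 = true :=
  ⟨(l 4), by decide +kernel⟩

theorem c_mm_001 : CertB 0 536870912 0 536870912 1033476505 6710887 3 eng mog cd0q0 cd0q0 pd1 true false false .up 0 0 1
    ndB0q0 ndB0q0 pcB1 cut_mm_001 Ext.none :=
  certB0 (fam := true) (s1 := false) (s2 := false) (a := 0) (b := 0) (c := 1) (cn := .up) (n1 := ndB0q0) (n2 := ndB0q0) (pc := pcB1) (cut := cut_mm_001) (xt := Ext.none) (P1 := 0) (W1 := 536870912) (P2 := 0) (W2 := 536870912) (P3 := 1033476505) (W3 := 6710887) (N0 := 3) (En := eng) (mo := mog) (C1 := cd0q0) (C2 := cd0q0) (C3 := pd1)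
    rfl k0_mm_001

noncomputable def cut_mm_011 : Cut := Cut.of [[⟨3, 0, 0, 1449551462⟩], [⟨4, 0, 0, 2845415833⟩]]

noncomputable def f_mm_011 : ℕ → ℕ → ℕ → ℕ → Bool := onCell 0 536870912 536870912 536870912 1033476505 6710887
    (rowB 3 eng mog cd0q0 cd0q1 pd1 0 true false false .pnn 0 1 1 (qsf 0 536870912 536870912 536870912 1) ndB0q0 ndB0q1 pcB1 cut_mm_011 Ext.none)

def k0_mm_011 : ∃ t, chk3 f_mm_011 t 1 1 1 = true :=
  ⟨(l 14), by decide +kernel⟩

theorem c_mm_011 : CertB 0 536870912 536870912 536870912 1033476505 6710887 3 eng mog cd0q0 cd0q1 pd1 true false false .pnn 0 1 1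
    ndB0q0 ndB0q1 pcB1 cut_mm_011 Ext.none :=
  certB0 (fam := true) (s1 := false) (s2 := false) (a := 0) (b := 1) (c := 1) (cn := .pnn) (n1 := ndB0q0) (n2 := ndB0q1) (pc := pcB1) (cut := cut_mm_011) (xt := Ext.none) (P1 := 0) (W1 := 536870912) (P2 := 536870912) (W2 := 536870912) (P3 := 1033476505) (W3 := 6710887) (N0 := 3) (En := eng) (mo := mog) (C1 := cd0q0) (C2 := cd0q1) (C3 := pd1)
    rfl k0_mm_011

noncomputable def cut_mm_012 : Cut := Cut.of [[⟨3, 0, 0, 1449551462⟩], [⟨4, 0, 0, 2845415833⟩]]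

noncomputable def f_mm_012 : ℕ → ℕ → ℕ → ℕ → Bool := onCell 0 536870912 536870912 536870912 1033476505 6710887
    (rowB 3 eng mog cd0q0 cd0q1 pd2 0 true false false .pnp 0 1 2 (qsf 0 536870912 536870912 536870912 2) ndB0q0 ndB0q1 pcB2 cut_mm_012 Ext.none)

def k0_mm_012 : ∃ t, chk3 f_mm_012 t 1 1 1 = true :=
  ⟨(l 14), by decide +kernel⟩

theorem c_mm_012 : CertB 0 536870912 536870912 536870912 1033476505 6710887 3 eng mog cd0q0 cd0q1 pd2 true false false .pnp 0 1 2
    ndB0q0 ndB0q1 pcB2 cut_mm_012 Ext.none :=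
  certB0 (fam := true) (s1 := false) (s2 := false) (a := 0) (b := 1) (c := 2) (cn := .pnp) (n1 := ndB0q0) (n2 := ndB0q1) (pc := pcB2) (cut := cut_mm_012) (xt := Ext.none) (P1 := 0) (W1 := 536870912) (P2 := 536870912) (W2 := 536870912) (P3 := 1033476505) (W3 := 6710887) (N0 := 3) (En := eng) (mo := mog) (C1 := cd0q0) (C2 := cd0q1) (C3 := pd2)
    rfl k0_mm_012

noncomputable def cut_mm_022 : Cut := Cut.of [[⟨3, 0, 0, 1449551462⟩], [⟨4, 0, 0, 2845415833⟩]]

noncomputable def f_mm_022 : ℕ → ℕ → ℕ → ℕ → Bool := onCell 0 536870912 0 536870912 1033476505 6710887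
    (rowB 3 eng mog cd0q0 cd0q2 pd2 0 true false false .pp 0 2 2 (qsf 0 536870912 0 536870912 2) ndB0q0 ndB0q2 pcB2 cut_mm_022 Ext.none)

def k0_mm_022 : ∃ t, chk3 f_mm_022 t 1 1 1 = true :=
  ⟨(l 5), by decide +kernel⟩

theorem c_mm_022 : CertB 0 536870912 0 536870912 1033476505 6710887 3 eng mog cd0q0 cd0q2 pd2 true false false .pp 0 2 2
    ndB0q0 ndB0q2 pcB2 cut_mm_022 Ext.none :=
  certB0 (fam := true) (s1 := false) (s2 := false) (a := 0) (b := 2) (c := 2) (cn := .pp) (n1 := ndB0q0) (n2 := ndB0q2) (pc := pcB2) (cut := cut_mm_022) (xt := Ext.none) (P1 := 0) (W1 := 536870912) (P2 := 0) (W2 := 536870912) (P3 := 1033476505) (W3 := 6710887) (N0 := 3) (En := eng) (mo := mog) (C1 := cd0q0) (C2 := cd0q2) (C3 := pd2)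
    rfl k0_mm_022

noncomputable def cut_mm_023 : Cut := Cut.of [[⟨3, 0, 0, 1449551462⟩], [⟨4, 0, 0, 2845415833⟩]]

noncomputable def f_mm_023 : ℕ → ℕ → ℕ → ℕ → Bool := onCell 0 536870912 0 536870912 1033476505 6710887
    (rowB 3 eng mog cd0q0 cd0q2 pd3 0 true false false .up 0 2 3 (qsf 0 536870912 0 536870912 3) ndB0q0 ndB0q2 pcB3 cut_mm_023 Ext.none)

def k0_mm_023 : ∃ t, chk3 f_mm_023 t 1 1 1 = true :=
  ⟨(l 5), by decide +kernel⟩

theorem c_mm_023 : CertB 0 536870912 0 536870912 1033476505 6710887 3 eng mog cd0q0 cd0q2 pd3 true false false .up 0 2 3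
    ndB0q0 ndB0q2 pcB3 cut_mm_023 Ext.none :=
  certB0 (fam := true) (s1 := false) (s2 := false) (a := 0) (b := 2) (c := 3) (cn := .up) (n1 := ndB0q0) (n2 := ndB0q2) (pc := pcB3) (cut := cut_mm_023) (xt := Ext.none) (P1 := 0) (W1 := 536870912) (P2 := 0) (W2 := 536870912) (P3 := 1033476505) (W3 := 6710887) (N0 := 3) (En := eng) (mo := mog) (C1 := cd0q0) (C2 := cd0q2) (C3 := pd3)
    rfl k0_mm_023

noncomputable def cut_mm_101 : Cut := Cut.of [[⟨3, 0, 0, 1449551462⟩], [⟨4, 0, 0, 2845415833⟩], [⟨0, 1, 0, 33554432⟩, ⟨1, 0, 0, 33554432⟩, ⟨2, 1, 0, 33554432⟩]]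

noncomputable def f_mm_101 : ℕ → ℕ → ℕ → ℕ → Bool := onCell 536870912 536870912 0 536870912 1033476505 6710887
    (rowB 3 eng mog cd0q1 cd0q0 pd1 0 true false false .npn 1 0 1 (qsf 536870912 536870912 0 536870912 1) ndB0q1 ndB0q0 pcB1 cut_mm_101 Ext.none)

def k0_mm_101 : ∃ t, chk3 f_mm_101 t 1 1 1 = true :=
  ⟨(l 14), by decide +kernel⟩

theorem c_mm_101 : CertB 536870912 536870912 0 536870912 1033476505 6710887 3 eng mog cd0q1 cd0q0 pd1 true false false .npn 1 0 1
    ndB0q1 ndB0q0 pcB1 cut_mm_101 Ext.none :=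
  certB0 (fam := true) (s1 := false) (s2 := false) (a := 1) (b := 0) (c := 1) (cn := .npn) (n1 := ndB0q1) (n2 := ndB0q0) (pc := pcB1) (cut := cut_mm_101) (xt := Ext.none) (P1 := 536870912) (W1 := 536870912) (P2 := 0) (W2 := 536870912) (P3 := 1033476505) (W3 := 6710887) (N0 := 3) (En := eng) (mo := mog) (C1 := cd0q1) (C2 := cd0q0) (C3 := pd1)
    rfl k0_mm_101

noncomputable def cut_mm_102 : Cut := Cut.of [[⟨3, 0, 0, 1449551462⟩], [⟨4, 0, 0, 2845415833⟩], [⟨0, 1, 0, 33554432⟩, ⟨1, 0, 0, 33554432⟩, ⟨2, 1, 0, 33554432⟩]]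

noncomputable def f_mm_102 : ℕ → ℕ → ℕ → ℕ → Bool := onCell 536870912 536870912 0 536870912 1033476505 6710887
    (rowB 3 eng mog cd0q1 cd0q0 pd2 0 true false false .npp 1 0 2 (qsf 536870912 536870912 0 536870912 2) ndB0q1 ndB0q0 pcB2 cut_mm_102 Ext.none)

def k0_mm_102 : ∃ t, chk3 f_mm_102 t 1 1 1 = true :=
  ⟨(l 14), by decide +kernel⟩

theorem c_mm_102 : CertB 536870912 536870912 0 536870912 1033476505 6710887 3 eng mog cd0q1 cd0q0 pd2 true false false .npp 1 0 2
    ndB0q1 ndB0q0 pcB2 cut_mm_102 Ext.none :=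
  certB0 (fam := true) (s1 := false) (s2 := false) (a := 1) (b := 0) (c := 2) (cn := .npp) (n1 := ndB0q1) (n2 := ndB0q0) (pc := pcB2) (cut := cut_mm_102) (xt := Ext.none) (P1 := 536870912) (W1 := 536870912) (P2 := 0) (W2 := 536870912) (P3 := 1033476505) (W3 := 6710887) (N0 := 3) (En := eng) (mo := mog) (C1 := cd0q1) (C2 := cd0q0) (C3 := pd2)
    rfl k0_mm_102

noncomputable def cut_mm_112 : Cut := Cut.of [[⟨3, 0, 0, 1449551462⟩], [⟨4, 0, 0, 2845415833⟩]]

noncomputable def f_mm_112 : ℕ → ℕ → ℕ → ℕ → Bool := onCell 536870912 536870912 536870912 536870912 1033476505 6710887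
    (rowB 3 eng mog cd0q1 cd0q1 pd2 0 true false false .dn 1 1 2 (qsf 536870912 536870912 536870912 536870912 2) ndB0q1 ndB0q1 pcB2 cut_mm_112 Ext.none)

def k0_mm_112 : ∃ t, chk3 f_mm_112 t 1 1 1 = true :=
  ⟨(l 4), by decide +kernel⟩

theorem c_mm_112 : CertB 536870912 536870912 536870912 536870912 1033476505 6710887 3 eng mog cd0q1 cd0q1 pd2 true false false .dn 1 1 2
    ndB0q1 ndB0q1 pcB2 cut_mm_112 Ext.none :=
  certB0 (fam := true) (s1 := false) (s2 := false) (a := 1) (b := 1) (c := 2) (cn := .dn) (n1 := ndB0q1) (n2 := ndB0q1) (pc := pcB2) (cut := cut_mm_112) (xt := Ext.none) (P1 := 536870912) (W1 := 536870912) (P2 := 536870912) (W2 := 536870912) (P3 := 1033476505) (W3 := 6710887) (N0 := 3) (En := eng) (mo := mog) (C1 := cd0q1) (C2 := cd0q1) (C3 := pd2)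
    rfl k0_mm_112

noncomputable def cut_mm_113 : Cut := Cut.of [[⟨3, 0, 0, 1449551462⟩], [⟨4, 0, 0, 2845415833⟩]]

noncomputable def f_mm_113 : ℕ → ℕ → ℕ → ℕ → Bool := onCell 536870912 536870912 536870912 536870912 1033476505 6710887
    (rowB 3 eng mog cd0q1 cd0q1 pd3 0 true false false .nn 1 1 3 (qsf 536870912 536870912 536870912 536870912 3) ndB0q1 ndB0q1 pcB3 cut_mm_113 Ext.none)

def k0_mm_113 : ∃ t, chk3 f_mm_113 t 1 1 1 = true :=
  ⟨(l 4), by decide +kernel⟩

theorem c_mm_113 : CertB 536870912 536870912 536870912 536870912 1033476505 6710887 3 eng mog cd0q1 cd0q1 pd3 true false false .nn 1 1 3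
    ndB0q1 ndB0q1 pcB3 cut_mm_113 Ext.none :=
  certB0 (fam := true) (s1 := false) (s2 := false) (a := 1) (b := 1) (c := 3) (cn := .nn) (n1 := ndB0q1) (n2 := ndB0q1) (pc := pcB3) (cut := cut_mm_113) (xt := Ext.none) (P1 := 536870912) (W1 := 536870912) (P2 := 536870912) (W2 := 536870912) (P3 := 1033476505) (W3 := 6710887) (N0 := 3) (En := eng) (mo := mog) (C1 := cd0q1) (C2 := cd0q1) (C3 := pd3)
    rfl k0_mm_113

noncomputable def cut_mm_123 : Cut := Cut.of [[⟨3, 0, 0, 1449551462⟩], [⟨4, 0, 0, 2845415833⟩]]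

noncomputable def f_mm_123 : ℕ → ℕ → ℕ → ℕ → Bool := onCell 536870912 536870912 0 536870912 1033476505 6710887
    (rowB 3 eng mog cd0q1 cd0q2 pd3 0 true false false .npn 1 2 3 (qsf 536870912 536870912 0 536870912 3) ndB0q1 ndB0q2 pcB3 cut_mm_123 Ext.none)

def k0_mm_123 : ∃ t, chk3 f_mm_123 t 1 1 1 = true :=
  ⟨(a (l 5) (l 4)), by decide +kernel⟩

theorem c_mm_123 : CertB 536870912 536870912 0 536870912 1033476505 6710887 3 eng mog cd0q1 cd0q2 pd3 true false false .npn 1 2 3
    ndB0q1 ndB0q2 pcB3 cut_mm_123 Ext.none :=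
  certB0 (fam := true) (s1 := false) (s2 := false) (a := 1) (b := 2) (c := 3) (cn := .npn) (n1 := ndB0q1) (n2 := ndB0q2) (pc := pcB3) (cut := cut_mm_123) (xt := Ext.none) (P1 := 536870912) (W1 := 536870912) (P2 := 0) (W2 := 536870912) (P3 := 1033476505) (W3 := 6710887) (N0 := 3) (En := eng) (mo := mog) (C1 := cd0q1) (C2 := cd0q2) (C3 := pd3)
    rfl k0_mm_123

noncomputable def cut_mm_202 : Cut := Cut.of [[⟨3, 0, 0, 1449551462⟩], [⟨4, 0, 0, 2845415833⟩], [⟨0, 1, 0, 22369621⟩, ⟨1, 0, 0, 22369621⟩, ⟨2, 1, 0, 22369621⟩]]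

noncomputable def f_mm_202 : ℕ → ℕ → ℕ → ℕ → Bool := onCell 0 536870912 0 536870912 1033476505 6710887
    (rowB 3 eng mog cd0q2 cd0q0 pd2 0 true false false .pp 2 0 2 (qsf 0 536870912 0 536870912 2) ndB0q2 ndB0q0 pcB2 cut_mm_202 Ext.none)

def k0_mm_202 : ∃ t, chk3 f_mm_202 t 2 4 1 = true :=
  ⟨(b (a (b (a (l 16302944) (l 16279488)) (a (l 16229952) (b (l 16318928) (l 16110872)))) (b (a (a (a (l 16270632) (l 16209952)) (a (l 16254664) (l 16261688))) (a (b (l 16402288) (l 16506088)) (b (l 16422016) (l 16489120)))) (a (b (a (l 16341760) (l 16389152)) (l 16151384)) (b (a (l 16421312) (l 16439048)) (a (l 16356912) (l 16390488)))))) (a (b (a (b (l 16129328) (l 16035328)) (b (a (l 16080888) (l 16063112)) (a (l 15980136) (a (l 15936824) (l 16030880))))) (a (b (l 15912528) (l 15762328)) (b (a (b (l 15888304) (l 15816128)) (b (l 15937312) (l 15888568))) (a (a (l 15702808) (a (l 15694976) (l 15712144))) (l 15814720))))) (b (a (b (a (l 16167528) (l 16252064)) (a (l 16118600) (l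 16221928))) (b (a (l 16320456) (l 16371360)) (a (l 16266432) (b (l 16377280) (l 16378984))))) (a (b (a (l 16052048) (l 16172840)) (a (l 15968056) (l 16104816))) (b (a (b (l 16287504) (l 16261656)) (b (l 16367936) (l 16349760))) (a (l 16223536) (l 16322808))))))), by decide +kernel⟩

def k1_mm_202 : ∃ t, chk3 f_mm_202 t 4 10 1 = true :=
  ⟨(a (b (b (l 15611752) (a (l 15495696) (l 15352168))) (a (b (l 15360024) (l 15214440)) (b (b (l 15269696) (a (l 15278728) (a (l 15255560) (a (b (l 15261008) (l 15229792)) (b (a (l 15257576) (l 15262320)) (l 15239160)))))) (a (l 15142616) (a (b (b (l 15207024) (a (l 15179600) (a (l 15173704) (l 15171992)))) (a (b (l 15149192) (a (l 15121720) (b (l 15125352) (l 15113016)))) (b (a (b (l 15151128) (l 15138248)) (l 15150496)) (b (l 15134552) (l 15129352))))) (b (a (b (a (l 15199560) (l 15204448)) (l 15183376)) (l 15217768)) (l 15179392))))))) (b (a (b (a (a (l 15552432) (b (l 15581336) (a (l 15506968) (l 15511328)))) (b (l 15613040) (l 15566680)))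 (a (b (a (l 15440624) (a (b (l 15454784) (l 15427696)) (l 15463088))) (a (a (l 15370656) (b (a (l 15384032) (l 15388544)) (l 15361664))) (l 15409560))) (l 15461600))) (b (l 15703632) (b (l 15666192) (l 15631992)))) (b (a (b (a (a (a (b (a (l 15319184) (l 15323800)) (l 15298696)) (l 15333864)) (l 15372672)) (l 15449904)) (l 15366880)) (a (l 15537624) (l 15638304))) (a (b (l 15339984) (l 15317840)) (b (l 15553376) (l 15535416)))))), by decide +kernel⟩

def k2_mm_202 : ∃ t, chk3 f_mm_202 t 16 22 1 = true :=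
  ⟨(b (b (l 15150928) (l 15099536)) (c (b (l 15058840) (a (l 15035328) (l 14997680))) (l 14982240))), by decide +kernel⟩

def k3_mm_202 : ∃ t, chk3 f_mm_202 t 17 22 1 = true :=
  ⟨(a (a (b (b (l 15106800) (l 15054496)) (b (b (l 15018096) (a (l 14999768) (a (l 14992992) (b (l 14994720) (a (l 14984720) (c (b (l 14993632) (l 14991704)) (l 14979376))))))) (b (a (l 14978152) (c (a (b (l 14984016) (a (l 14974704) (b (a (l 14975736) (l 14977488)) (l 14975312)))) (b (a (b (l 14985048) (l 14983336)) (l 14991000)) (l 14986568))) (a (b (l 14970512) (l 14962536)) (l 14973344)))) (a (a (l 14960064) (c (b (b (l 14969760) (l 14965456)) (a (b (l 14960968) (l 14956928)) (b (a (l 14960168) (l 14962096)) (l 14960280)))) (b (l 14954328) (l 14947064)))) (b (a (a (a (b (l 14981944) (l 14958992)) (l 14962720)) (l 14968352)) (l 14979432)) (l 14972016)))))) (b (b (b (l 15103608) (a (l 15080448) (a (l 15074080) (b (l 15077096) (a (l 15064688) (l 15065776)))))) (a (b (l 15054136) (a (l 15031080)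 (b (l 15033456) (a (l 15022216) (c (l 15030024) (l 15016840)))))) (b (a (b (l 15054680) (a (l 15042848) (c (l 15050512) (l 15037480)))) (b (a (l 15054736) (l 15060968)) (l 15053880))) (b (a (a (c (l 15040112) (l 15027000)) (l 15039904)) (l 15050728)) (l 15040688))))) (b (a (b (a (b (l 15013456) (a (l 15002832) (c (b (l 15011792) (l 15009416)) (l 14997464)))) (b (a (c (l 15030728) (l 15006992)) (l 15020072)) (l 15014272))) (b (a (c (a (b (l 15002552) (l 15000392)) (l 15008184)) (l 14991376)) (l 15012472)) (l 15003712))) (l 15035200)) (c (l 15023040) (l 15009776))))) (b (b (a (a (b (a (b (l 15100664) (a (l 15087704) (l 15088736))) (b (l 15103520) (l 15098360))) (b (a (a (l 15077112) (l 15083240)) (l 15093912)) (l 15082672))) (l 15117400)) (l 15159896)) (l 15054016)) (b (l 15044848) (l 15041408)))), by decide +kernel⟩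

def k4_mm_202 : ∃ t, chk3 f_mm_202 t 32 23 1 = true :=
  ⟨(b (b (l 14991624) (l 14959512)) (b (l 14932808) (c (l 14918680) (l 14904800)))), by decide +kernel⟩

def k5_mm_202 : ∃ t, chk3 f_mm_202 t 33 46 1 = true :=
  ⟨(a (b (l 14962664) (c (l 14937016) (l 14923248))) (b (b (l 14952672) (a (l 14939680) (a (l 14932552) (c (b (a (l 14940224) (b (l 14940072) (a (l 14936304) (l 14936240)))) (a (b (l 14933800) (a (l 14930200) (l 14930200))) (b (a (l 14933176) (l 14935496)) (l 14934432)))) (b (l 14926056) (l 14920280)))))) (a (b (l 14923296) (a (l 14910680) (c (b (a (l 14917664) (b (l 14917152) (a (l 14914096) (c (l 14917728) (l 14910728))))) (a (b (l 14912336) (a (l 14909464) (c (l 14913144) (l 14906136)))) (b (a (c (l 14915392) (l 14908384)) (l 14914624)) (l 14914312)))) (b (l 14903440) (l 14899240))))) (c (b (a (b (a (l 14928232) (b (l 14927880) (a (l 14924464) (c (l 14927992) (l 14921032))))) (a (b (l 14922336) (a (l 14919096) (c (l 14922672) (l 14915696)))) (b (a (c (l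 14925288) (l 14918320)) (l 14924344)) (l 14923656)))) (b (a (b (a (c (l 14930784) (l 14923832)) (l 14929744)) (l 14928872)) (l 14935856)) (l 14934304))) (b (a (a (b (a (c (l 14920152) (l 14913168)) (l 14919296)) (l 14918800)) (l 14925624)) (l 14936896)) (l 14932352))) (b (a (b (l 14914024) (l 14909032)) (l 14919120)) (l 14916496)))))), by decide +kernel⟩

def k6_mm_202 : ∃ t, chk3 f_mm_202 t 33 47 1 = true :=
  ⟨(b (a (b (l 14909272) (a (l 14902064) (a (l 14894640) (c (b (a (l 14900896) (b (l 14900104) (a (l 14897776) (c (l 14901648) (l 14894592))))) (a (b (l 14896768) (a (l 14894632) (l 14895048))) (b (a (c (l 14900064) (l 14893008)) (l 14899648)) (l 14900112)))) (b (l 14886680) (l 14884152)))))) (c (a (b (a (b (a (l 14908544) (b (l 14907888) (a (l 14905200) (c (l 14908936) (l 14901912))))) (a (b (l 14903808) (a (l 14901304) (c (l 14905104) (l 14898064)))) (b (a (c (l 14906976) (l 14899936)) (l 14906384)) (l 14906456)))) (b (a (b (a (c (l 14910992) (l 14903976)) (l 14910312))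 (l 14910192)) (l 14916856)) (l 14916824))) (b (a (a (b (a (c (l 14903328) (l 14896280)) (l 14902824)) (l 14903088)) (l 14909592)) (l 14920976)) (l 14917936))) (l 14941584)) (a (b (a (b (l 14894312) (l 14890936)) (l 14900696)) (l 14901192)) (l 14927760)))) (b (a (a (l 14891368) (c (a (b (a (l 14894752) (b (l 14893816) (a (l 14891872) (l 14892352)))) (a (b (l 14891248) (a (l 14889488) (l 14890048))) (b (a (l 14891152) (l 14894448)) (l 14895304)))) (b (a (b (a (l 14893648) (l 14896856)) (l 14897512)) (l 14903848)) (l 14905376))) (a (b (l 14880568) (l 14878888)) (l 14888336)))) (l 14933840)) (a (a (a (l 14884640) (c (b (a (l 14890128) (b (l 14889056) (a (l 14887496) (l 14888136)))) (a (b (l 14887256) (a (l 14885888) (l 14886624))) (b (l 14888976) (l 14892056)))) (b (l 14875984) (l 14875192)))) (c (b (a (b (a (a (l 14889048) (l 14892432)) (l 14898176)) (l 14897320)) (l 14911136)) (l 14909640)) (l 14892048))) (l 14945512)))), by decide +kernel⟩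

def k7_mm_202 : ∃ t, chk3 f_mm_202 t 17 23 1 = true :=
  ⟨(a (c (b (b (a (a (b (a (b (b (l 14954816) (a (l 14951288) (a (l 14949552) (l 14949392)))) (a (b (l 14946688) (a (l 14942752) (l 14942640))) (b (a (l 14945976) (l 14948080)) (l 14946648)))) (b (a (b (a (l 14952896) (l 14954912)) (l 14953288)) (l 14960640)) (l 14957624))) (b (a (a (b (a (l 14939400) (l 14941608)) (l 14940360)) (l 14947536)) (l 14958704)) (l 14952704))) (l 14980408)) (l 15024816)) (b (l 15000336) (l 15005752))) (b (l 14953968) (l 14974456))) (b (b (a (a (b (a (b (l 14939504) (l 14932968)) (l 14943416)) (l 14937768)) (l 14966856)) (l 15011560)) (l 14989464)) (l 14971192))) (b (b (l 15043880) (l 15115360)) (b (l 15130176) (l 15151392)))), by decide +kernel⟩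

def k8_mm_202 : ∃ t, chk3 f_mm_202 t 9 11 1 = true :=
  ⟨(b (b (a (b (l 15279520) (l 15245952)) (a (l 15440416) (l 15549864))) (a (b (l 15259344) (l 15236320)) (b (l 15506512) (l 15506048)))) (b (a (b (l 15240040) (l 15270688)) (a (l 15438704) (l 15551520))) (a (b (l 15286496) (l 15329544)) (a (l 15493136) (l 15607056))))), by decide +kernel⟩

def k9_mm_202 : ∃ t, chk3 f_mm_202 t 5 5 1 = true :=
  ⟨(b (a (b (b (a (l 15893072) (l 16044616)) (a (l 15767744) (l 15995680))) (b (a (l 15698048) (l 15896104)) (a (l 15684648) (l 15935168)))) (b (a (b (l 16177872) (l 16142536)) (b (l 16291488) (l 14))) (a (b (l 16097456) (l 14)) (l 14)))) (a (b (b (a (b (l 15731280) (l 15724952)) (b (l 15925688) (l 15923344))) (a (a (l 15648616) (l 15753416)) (l 14))) (a (a (b (l 15660960) (l 15717552)) (l 14)) (l 14))) (l 14))), by decide +kernel⟩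

def k10_mm_202 : ∃ t, chk3 f_mm_202 t 3 2 1 = true :=
  ⟨(b (a (a (b (b (a (b (b (l 16454640) (l 16516528)) (l 16400848)) (b (a (l 16499232) (l 16479904)) (a (l 16500352) (l 16442056)))) (a (b (a (l 16442520) (l 16439496)) (l 16407896)) (b (a (l 16436784) (l 16392704)) (a (l 16411016) (l 14))))) (b (a (b (a (l 16397504) (l 16409448)) (b (l 16422456) (l 16432224))) (l 14)) (l 14))) (b (b (a (b (a (l 16529744) (l 14)) (l 14)) (l 14)) (l 14)) (l 14))) (l 14)) (l 14)), by decide +kernel⟩

def k11_mm_202 : ∃ t, chk3 f_mm_202 t 8 24 1 = true :=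
  ⟨(a (b (a (a (b (l 14906200) (l 14893368)) (b (b (l 14889472) (a (l 14887576) (a (l 14879912) (b (a (l 14877816) (a (l 14876392) (b (l 14876008) (l 14876616)))) (a (a (l 14875560) (b (l 14875144) (l 14875936))) (l 14879768)))))) (a (b (l 14880992) (a (l 14877408) (b (c (a (l 14882160) (b (l 14881024) (l 14881304))) (l 14868344)) (a (c (b (l 14880648) (l 14881064)) (l 14867040)) (l 14878448))))) (b (a (b (c (a (l 14883304) (b (l 14882128) (l 14882160))) (l 14869384)) (a (c (b (l 14881512) (l 14881672)) (l 14867784)) (l 14878848))) (c (l 14893864) (l 14879680))) (l 14894024))))) (b (c (a (a (b (a (b (a (l 14887040) (b (l 14885840) (a (l 14884656) (l 14885488)))) (a (b (l 14884720) (a (l 14883608) (l 14884544))) (l 14888328))) (b (b (a (l 14887696) (l 14895336)) (l 14894856)) (l 14899984))) (b (l 14898928) (l 14906352))) (l 14926400)) (l 14972456)) (a (a (b (a (b (l 14872952) (l 14872904)) (l 14882152)) (l 14888320)) (l 14912456)) (l 14958824))) (l 14901432))) (a (a (b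 (b (l 14884680) (a (l 14884632) (a (l 14876776) (b (a (l 14874136) (b (l 14873104) (l 14873928))) (a (a (l 14873264) (l 14874128)) (l 14879192)))))) (a (b (l 14879864) (a (l 14878080) (c (b (a (l 14882312) (l 14882504)) (a (l 14883136) (l 14888896))) (l 14871208)))) (b (a (c (b (a (l 14881544) (l 14902552)) (a (l 14881984) (l 14887400))) (l 14891136)) (l 14887928)) (l 14897216)))) (b (a (b (a (b (a (l 14874352) (c (b (l 14880400) (l 14880944)) (l 14866848))) (a (c (b (l 14880272) (l 14880952)) (l 14866776)) (l 14878560))) (l 14886360)) (l 14894688)) (l 14918064)) (l 14935928))) (b (l 14996048) (l 15029928)))) (a (b (b (l 14994496) (l 15087512)) (l 15115632)) (b (b (l 15178584) (l 15209176)) (l 15237840)))), by decide +kernel⟩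

def k12_mm_202 : ∃ t, chk3 f_mm_202 t 9 24 1 = true :=
  ⟨(b (a (b (l 15357496) (l 15388704)) (b (l 15591176) (l 15623128))) (a (a (l 15379504) (l 15498776)) (a (l 15616664) (l 14)))), by decide +kernel⟩

def k13_mm_202 : ∃ t, chk3 f_mm_202 t 4 25 1 = true :=
  ⟨(a (b (a (a (b (a (b (a (a (c (b (a (l 14883512) (l 14883888)) (a (l 14884744) (l 14890840))) (l 14872696)) (l 14891152)) (l 14915000)) (l 14917352)) (l 14971616)) (l 14977440)) (l 15063624)) (a (l 15187936) (l 15331536))) (a (a (l 15016336) (l 15142712)) (a (l 15288168) (l 15410888)))) (a (b (a (l 15452576) (l 15572136)) (a (l 15531952) (l 14))) (l 14))), by decide +kernel⟩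

def k14_mm_202 : ∃ t, chk3 f_mm_202 t 4 13 1 = true :=
  ⟨(a (b (b (a (a (l 15101728) (l 15249016)) (a (l 15373360) (l 15495856))) (a (a (l 15213672) (l 15339624)) (a (l 15463528) (l 14)))) (a (b (a (l 15309304) (l 15434608)) (l 2)) (l 14))) (l 14)), by decide +kernel⟩

def k15_mm_202 : ∃ t, chk3 f_mm_202 t 4 7 1 = true :=
  ⟨(l 2), by decide +kernel⟩

def k16_mm_202 : ∃ t, chk3 f_mm_202 t 5 3 1 = true :=
  ⟨(l 14), by decide +kernel⟩

def k17_mm_202 : ∃ t, chk3 f_mm_202 t 3 3 1 = true :=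
  ⟨(l 14), by decide +kernel⟩

theorem s18_mm_202 : ∃ t, chk3 f_mm_202 t 4 24 1 = true := ex3_a k11_mm_202 k12_mm_202

theorem s19_mm_202 : ∃ t, chk3 f_mm_202 t 4 12 1 = true := ex3_b s18_mm_202 k13_mm_202

theorem s20_mm_202 : ∃ t, chk3 f_mm_202 t 4 6 1 = true := ex3_b s19_mm_202 k14_mm_202

theorem s21_mm_202 : ∃ t, chk3 f_mm_202 t 4 3 1 = true := ex3_b s20_mm_202 k15_mm_202

theorem s22_mm_202 : ∃ t, chk3 f_mm_202 t 2 3 1 = true := ex3_a s21_mm_202 k16_mm_202

theorem s23_mm_202 : ∃ t, chk3 f_mm_202 t 1 3 1 = true := ex3_a s22_mm_202 k17_mm_202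

theorem s24_mm_202 : ∃ t, chk3 f_mm_202 t 33 23 1 = true := ex3_b k5_mm_202 k6_mm_202

theorem s25_mm_202 : ∃ t, chk3 f_mm_202 t 16 23 1 = true := ex3_a k4_mm_202 s24_mm_202

theorem s26_mm_202 : ∃ t, chk3 f_mm_202 t 8 23 1 = true := ex3_a s25_mm_202 k7_mm_202

theorem s27_mm_202 : ∃ t, chk3 f_mm_202 t 8 22 1 = true := ex3_a k2_mm_202 k3_mm_202

theorem s28_mm_202 : ∃ t, chk3 f_mm_202 t 8 11 1 = true := ex3_b s27_mm_202 s26_mm_202

theorem s29_mm_202 : ∃ t, chk3 f_mm_202 t 4 11 1 = true := ex3_a s28_mm_202 k8_mm_202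

theorem s30_mm_202 : ∃ t, chk3 f_mm_202 t 4 5 1 = true := ex3_b k1_mm_202 s29_mm_202

theorem s31_mm_202 : ∃ t, chk3 f_mm_202 t 2 5 1 = true := ex3_a s30_mm_202 k9_mm_202

theorem s32_mm_202 : ∃ t, chk3 f_mm_202 t 2 2 1 = true := ex3_b k0_mm_202 s31_mm_202

theorem s33_mm_202 : ∃ t, chk3 f_mm_202 t 1 2 1 = true := ex3_a s32_mm_202 k10_mm_202

theorem s34_mm_202 : ∃ t, chk3 f_mm_202 t 1 1 1 = true := ex3_b s33_mm_202 s23_mm_202

theorem c_mm_202 : CertB 0 536870912 0 536870912 1033476505 6710887 3 eng mog cd0q2 cd0q0 pd2 true false false .pp 2 0 2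
    ndB0q2 ndB0q0 pcB2 cut_mm_202 Ext.none :=
  certB0 (fam := true) (s1 := false) (s2 := false) (a := 2) (b := 0) (c := 2) (cn := .pp) (n1 := ndB0q2) (n2 := ndB0q0) (pc := pcB2) (cut := cut_mm_202) (xt := Ext.none) (P1 := 0) (W1 := 536870912) (P2 := 0) (W2 := 536870912) (P3 := 1033476505) (W3 := 6710887) (N0 := 3) (En := eng) (mo := mog) (C1 := cd0q2) (C2 := cd0q0) (C3 := pd2)
    rfl s34_mm_202

noncomputable def cut_mm_203 : Cut := Cut.of [[⟨3, 0, 0, 1449551462⟩], [⟨4, 0, 0, 2845415833⟩]]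

noncomputable def f_mm_203 : ℕ → ℕ → ℕ → ℕ → Bool := onCell 0 536870912 1610612736 536870912 1033476505 6710887
    (rowB 3 eng mog cd0q2 cd0q0 pd3 1 true false false .up 2 0 3 (qsf 0 536870912 0 536870912 3) ndB0q2 ndB0q0 pcB3 cut_mm_203 Ext.none)

def k0_mm_203 : ∃ t, chk3 f_mm_203 t 1 1 1 = true :=
  ⟨(a (b (b (b (a (a (a (b (a (b (b (l 15117880) (l 15175656)) (l 15264344)) (b (b (l 15260248) (l 15317360)) (l 14))) (l 14)) (l 14)) (l 14)) (l 14)) (l 14)) (l 14)) (l 2)) (l 14)), by decide +kernel⟩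

theorem c_mm_203 : CertB 0 536870912 0 536870912 1033476505 6710887 3 eng mog cd0q2 cd0q0 pd3 true false false .up 2 0 3
    ndB0q2 ndB0q0 pcB3 cut_mm_203 Ext.none :=
  certB1 (fam := true) (s1 := false) (s2 := false) (a := 2) (b := 0) (c := 3) (cn := .up) (n1 := ndB0q2) (n2 := ndB0q0) (pc := pcB3) (cut := cut_mm_203) (xt := Ext.none) (P1 := 0) (W1 := 536870912) (P2 := 0) (W2 := 536870912) (P3 := 1033476505) (W3 := 6710887) (N0 := 3) (En := eng) (mo := mog) (C1 := cd0q2) (C2 := cd0q0) (C3 := pd3)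
    rfl (fun _ => rfl) k0_mm_203

noncomputable def cut_mm_213 : Cut := Cut.of [[⟨3, 0, 0, 1449551462⟩], [⟨4, 0, 0, 2845415833⟩]]

noncomputable def f_mm_213 : ℕ → ℕ → ℕ → ℕ → Bool := onCell 0 536870912 536870912 536870912 1033476505 6710887
    (rowB 3 eng mog cd0q2 cd0q1 pd3 0 true false false .pnn 2 1 3 (qsf 0 536870912 536870912 536870912 3) ndB0q2 ndB0q1 pcB3 cut_mm_213 Ext.none)

def k0_mm_213 : ∃ t, chk3 f_mm_213 t 1 1 1 = true :=
  ⟨(a (l 14) (l 4)), by decide +kernel⟩

theorem c_mm_213 : CertB 0 536870912 536870912 536870912 1033476505 6710887 3 eng mog cd0q2 cd0q1 pd3 true false false .pnn 2 1 3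
    ndB0q2 ndB0q1 pcB3 cut_mm_213 Ext.none :=
  certB0 (fam := true) (s1 := false) (s2 := false) (a := 2) (b := 1) (c := 3) (cn := .pnn) (n1 := ndB0q2) (n2 := ndB0q1) (pc := pcB3) (cut := cut_mm_213) (xt := Ext.none) (P1 := 0) (W1 := 536870912) (P2 := 536870912) (W2 := 536870912) (P3 := 1033476505) (W3 := 6710887) (N0 := 3) (En := eng) (mo := mog) (C1 := cd0q2) (C2 := cd0q1) (C3 := pd3)
    rfl k0_mm_213

end Pool.Agent.Strip051.G.I9625_9688.Tab.C.BA00

namespace Pool.Agent.Strip051.G.I9625_9688.Tab.C.BA01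

open Pool.Agent.Strip051.PB Pool.Agent.Strip051.PB.T
open Pool.Agent.Strip051.G.I9625_9688.Tab

noncomputable def f_pp_001 : ℕ → ℕ → ℕ → ℕ → Bool := onCell 0 536870912 0 536870912 1033476505 6710887
    (rowB 3 eng mog cd0q0 cd1q0 pd1 0 true true true .up 0 0 1 (qsf 0 536870912 0 536870912 1) ndB0q0 ndB1q0 pcB1 Cut.none Ext.none)

def k0_pp_001 : ∃ t, chk3 f_pp_001 t 1 1 1 = true :=
  ⟨(l 4), by decide +kernel⟩

theorem c_pp_001 : CertB 0 536870912 0 536870912 1033476505 6710887 3 eng mog cd0q0 cd1q0 pd1 true true true .up 0 0 1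
    ndB0q0 ndB1q0 pcB1 Cut.none Ext.none :=
  certB0 (fam := true) (s1 := true) (s2 := true) (a := 0) (b := 0) (c := 1) (cn := .up) (n1 := ndB0q0) (n2 := ndB1q0) (pc := pcB1) (cut := Cut.none) (xt := Ext.none) (P1 := 0) (W1 := 536870912) (P2 := 0) (W2 := 536870912) (P3 := 1033476505) (W3 := 6710887) (N0 := 3) (En := eng) (mo := mog) (C1 := cd0q0) (C2 := cd1q0) (C3 := pd1)
    rfl k0_pp_001

noncomputable def f_pp_011 : ℕ → ℕ → ℕ → ℕ → Bool := onCell 0 536870912 536870912 536870912 1033476505 6710887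
    (rowB 3 eng mog cd0q0 cd1q1 pd1 0 true true true .pnn 0 1 1 (qsf 0 536870912 536870912 536870912 1) ndB0q0 ndB1q1 pcB1 Cut.none Ext.none)

def k0_pp_011 : ∃ t, chk3 f_pp_011 t 1 1 1 = true :=
  ⟨(l 4), by decide +kernel⟩

theorem c_pp_011 : CertB 0 536870912 536870912 536870912 1033476505 6710887 3 eng mog cd0q0 cd1q1 pd1 true true true .pnn 0 1 1
    ndB0q0 ndB1q1 pcB1 Cut.none Ext.none :=
  certB0 (fam := true) (s1 := true) (s2 := true) (a := 0) (b := 1) (c := 1) (cn := .pnn) (n1 := ndB0q0) (n2 := ndB1q1) (pc := pcB1) (cut := Cut.none) (xt := Ext.none) (P1 := 0) (W1 := 536870912) (P2 := 536870912) (W2 := 536870912) (P3 := 1033476505) (W3 := 6710887) (N0 := 3) (En := eng) (mo := mog) (C1 := cd0q0) (C2 := cd1q1) (C3 := pd1)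
    rfl k0_pp_011

noncomputable def f_pp_012 : ℕ → ℕ → ℕ → ℕ → Bool := onCell 0 536870912 536870912 536870912 1033476505 6710887
    (rowB 3 eng mog cd0q0 cd1q1 pd2 0 true true true .pnp 0 1 2 (qsf 0 536870912 536870912 536870912 2) ndB0q0 ndB1q1 pcB2 Cut.none Ext.none)

def k0_pp_012 : ∃ t, chk3 f_pp_012 t 1 1 1 = true :=
  ⟨(l 4), by decide +kernel⟩

theorem c_pp_012 : CertB 0 536870912 536870912 536870912 1033476505 6710887 3 eng mog cd0q0 cd1q1 pd2 true true true .pnp 0 1 2
    ndB0q0 ndB1q1 pcB2 Cut.none Ext.none :=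
  certB0 (fam := true) (s1 := true) (s2 := true) (a := 0) (b := 1) (c := 2) (cn := .pnp) (n1 := ndB0q0) (n2 := ndB1q1) (pc := pcB2) (cut := Cut.none) (xt := Ext.none) (P1 := 0) (W1 := 536870912) (P2 := 536870912) (W2 := 536870912) (P3 := 1033476505) (W3 := 6710887) (N0 := 3) (En := eng) (mo := mog) (C1 := cd0q0) (C2 := cd1q1) (C3 := pd2)
    rfl k0_pp_012

noncomputable def cut_pp_022_a : Cut := Cut.of [[⟨0, 0, 0, 33554432⟩, ⟨1, 1, 0, 33554432⟩, ⟨2, 1, 0, 33554432⟩]]

noncomputable def f_pp_022_a : ℕ → ℕ → ℕ → ℕ → Bool := onCell 0 536870912 0 536870912 1033476505 6710887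
    (rowB 3 eng mog cd0q0 cd1q2a pd2 0 true true true .pp 0 2 2 (qsf 0 536870912 0 536870912 2) ndB0q0 ndB1q2a pcB2 cut_pp_022_a Ext.none)

def k0_pp_022_a : ∃ t, chk3 f_pp_022_a t 4 2 1 = true :=
  ⟨(a (b (a (b (a (l 16396104) (l 16389408)) (a (l 16405568) (l 16428344))) (b (b (l 16048400) (l 16200592)) (a (l 16340832) (l 16274264)))) (a (b (a (b (l 16413000) (l 16421776)) (l 16486984)) (a (b (l 16435576) (l 16452824)) (b (l 16518744) (l 16534128)))) (b (a (l 16430192) (l 16332448)) (a (b (l 16484696) (l 16512608)) (b (l 16469968) (l 16508200)))))) (b (a (b (a (b (l 16038368) (l 16112304)) (a (l 16034952) (l 16012000))) (a (l 16234664) (l 16134656))) (a (b (l 15830600) (a (l 16195656) (l 16169344))) (b (l 15873576) (l 16109688)))) (a (b (a (l 16303088) (b (l 16357704) (l 16421624))) (a (b (l 16482480) (l 16533368)) (b (l 16497064) (a (l 16571784) (l 16567512))))) (a (b (a (l 16337352) (l 16345656)) (b (l 16489848) (a (l 16574384) (l 16593336)))) (b (b (l 16312000) (l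 16423032)) (b (l 16523304) (l 16610376))))))), by decide +kernel⟩

def k1_pp_022_a : ∃ t, chk3 f_pp_022_a t 4 6 1 = true :=
  ⟨(a (a (b (a (b (l 16379664) (a (l 16445304) (l 16499216))) (b (l 16491744) (a (l 16550240) (l 16568872)))) (b (a (l 16400424) (b (l 16560744) (l 16502120))) (a (b (l 16500896) (l 16494864)) (b (l 16567752) (l 16555040))))) (b (a (b (a (l 16534056) (l 16530384)) (a (l 16550536) (l 16521864))) (b (l 16515064) (b (l 16549864) (l 16555344)))) (a (b (a (l 16518056) (b (l 16553904) (l 16564336))) (b (a (l 16612840) (l 16586224)) (a (l 16641088) (l 16589408)))) (b (b (a (l 16553216) (l 16566840)) (a (l 16558664) (l 16567888))) (b (a (l 16567784) (l 16571056)) (a (l 16586272) (l 16578512))))))) (a (b (a (b (l 16571544) (a (l 16581320) (l 16611800))) (b (a (l 16575208) (l 16556680)) (a (l 16570488) (b (l 16562728) (l 16574296))))) (a (b (a (l 16590784) (l 16603072)) (a (b (l 16590296) (l 16570480)) (b (l 16624976) (a (l 16612848) (l 16633008))))) (b (a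 (b (l 16618552) (l 16643656)) (b (l 16591936) (l 16594776))) (a (b (l 16647320) (l 16644808)) (b (l 16603856) (b (l 16650800) (l 16690848))))))) (b (a (b (a (l 16557832) (l 16570952)) (a (b (l 16559992) (l 16569240)) (l 16572040))) (b (l 16530968) (a (l 16581536) (l 16592000)))) (a (b (a (b (l 16584816) (a (l 16607416) (l 16607376))) (b (l 16589200) (l 16609288))) (a (b (a (l 16636368) (l 16635568)) (a (l 16650784) (l 16649552))) (b (b (l 16628736) (l 16643928)) (a (l 16649168) (l 16638592))))) (b (b (a (l 16595016) (l 16601576)) (a (l 16612960) (l 16617192))) (a (b (b (l 16630984) (l 16645336)) (b (l 16640536) (a (l 16679320) (l 16679520)))) (b (l 16619256) (b (l 16662448) (a (l 16680352) (l 16681872)))))))))), by decide +kernel⟩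

def k2_pp_022_a : ∃ t, chk3 f_pp_022_a t 8 14 1 = true :=
  ⟨(a (b (a (b (a (l 16516352) (l 16552408)) (a (l 16539320) (l 16573136))) (a (b (l 16589864) (l 16607696)) (b (l 16607416) (l 16621960)))) (a (b (a (b (l 16558616) (l 16572336)) (l 16555464)) (a (b (l 16586728) (a (l 16594072) (l 16609392))) (b (l 16617848) (l 16611416)))) (b (a (l 16608752) (l 16641016)) (a (b (l 16648808) (l 16641744)) (b (l 16658344) (l 16671256)))))) (b (a (b (a (l 16666784) (l 16627448)) (a (l 16678544) (l 16667920))) (b (a (l 16593296) (l 16596576)) (a (b (l 16636976) (l 16653688)) (b (l 16617792) (l 16633728))))) (a (b (a (l 16673208) (l 16650112)) (a (b (l 16688192) (l 16699768)) (b (l 16707784) (l 16696200)))) (b (a (l 16633160) (b (l 16628688) (l 16667296))) (a (b (l 16694248) (l 16684840)) (b (l 16661448) (a (l 16698640) (b (l 16691016) (l 16700312))))))))), by decide +kernel⟩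

def k3_pp_022_a : ∃ t, chk3 f_pp_022_a t 16 15 1 = true :=
  ⟨(b (a (b (a (a (b (l 16609728) (l 16625848)) (b (l 16624912) (l 16640984))) (b (a (l 16640072) (l 16655136)) (a (l 16656048) (l 16670960)))) (a (b (a (b (l 16638184) (l 6)) (l 16657520)) (a (l 6) (b (l 16671272) (l 6)))) (b (a (l 16672560) (l 16666432)) (a (b (l 16686344) (l 16699344)) (b (l 16701176) (l 16714160)))))) (b (b (a (l 16656456) (l 16685184)) (a (b (l 16667992) (l 16675936)) (b (l 16696304) (l 16703976)))) (a (b (a (l 16681000) (l 16695256)) (b (a (l 16715704) (l 16708888)) (a (l 16707680) (l 16721768)))) (b (a (l 16709112) (l 16722536)) (a (b (l 16722616) (l 16735408)) (b (l 16735864) (a (l 16756312) (l 81302336439)))))))) (a (b (a (l 6) (b (a (b (l 16691792) (l 6)) (b (l 16706632) (b (l 16716848) (l 16723736)))) (l 6))) (l 6)) (b (a (b (a (b (l 16721104) (a (l 16731184) (l 16738312))) (b (l 16735144) (b (l 16739432) (a (l 16760192) (l 31910221511))))) (a (b (a (l 16742784) (b (l 16761488) (a (l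 16760576) (l 16759968)))) (a (l 6) (a (l 6) (l 4)))) (b (a (b (a (l 16759352) (l 16758936)) (l 132841956023)) (l 133915694999)) (l 4)))) (b (b (a (a (l 16758592) (b (l 16756680) (l 16756504))) (a (b (l 16755664) (l 4)) (l 4))) (a (b (a (l 16752144) (l 16758816)) (l 134452564215)) (l 4))) (l 4))) (l 4)))), by decide +kernel⟩

def k4_pp_022_a : ∃ t, chk3 f_pp_022_a t 17 15 1 = true :=
  ⟨(b (a (b (a (b (l 16712624) (b (l 16720112) (l 16722960))) (b (b (l 16702640) (l 16706656)) (a (l 16735440) (b (l 16729296) (l 72175481175))))) (a (b (a (l 16729304) (b (l 16744368) (a (l 16748240) (l 16737200)))) (a (b (a (l 16753912) (l 78617974919)) (a (l 133378812199) (l 4))) (b (b (l 134452546855) (l 4)) (l 4)))) (b (a (b (b (l 16739776) (l 16732400)) (l 136063146119)) (b (l 161832936823) (l 4))) (l 4)))) (b (b (a (a (l 16718512) (b (l 16711720) (l 72712318663))) (a (b (l 16699584) (l 4)) (l 4))) (a (a (b (l 72175465079) (l 160222310151)) (l 139821214023)) (l 4))) (l 4))) (l 4)), by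 decide +kernel⟩

def k5_pp_022_a : ∃ t, chk3 f_pp_022_a t 9 7 1 = true :=
  ⟨(b (a (b (a (b (a (b (l 16594568) (l 16600600)) (b (l 16620360) (l 16620776))) (a (b (l 16609552) (l 16621544)) (b (l 16601344) (a (l 16624456) (l 16633160))))) (a (b (a (l 16607968) (l 16672760)) (a (b (l 16647600) (l 16647688)) (b (l 16667960) (b (l 16666056) (l 16665520))))) (a (b (l 16692072) (b (l 16687280) (b (l 16684560) (l 85597132855)))) (b (l 16708512) (b (l 16703264) (l 165590936551)))))) (a (b (a (b (a (l 16639664) (l 16634984)) (a (l 16657032) (l 16652120))) (b (a (l 16635216) (l 16640664)) (a (b (l 16645520) (l 16653768)) (b (l 115661852967) (l 124788673127))))) (a (b (a (l 16675048) (b (l 16665904) (l 16677760))) (a (b (l 16689584) (l 4)) (l 4))) (b (a (b (l 122641202695) (l 4)) (l 4)) (l 4)))) (b (a (b (a (a (l 16648496) (l 130157376199)) (b (l 94187037223) (l 138747327831))) (a (b (l 126936150423) (l 4)) (l 4))) (a (b (b (l 152169127943) (l 4)) (l 4)) (l 4))) (l 4)))) (b (a (a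 (b (a (l 16691608) (b (l 16700584) (l 16722456))) (a (b (l 16715776) (l 176865258151)) (b (l 16725904) (l 4)))) (b (b (a (l 16700136) (l 16699608)) (a (l 16721992) (l 16700504))) (l 4))) (b (a (b (a (l 16699464) (l 16700168)) (l 4)) (l 4)) (l 4))) (l 4))) (l 4)), by decide +kernel⟩

def k6_pp_022_a : ∃ t, chk3 f_pp_022_a t 5 2 1 = true :=
  ⟨(a (b (a (b (a (l 15695112) (b (l 15660072) (l 15817464))) (a (l 16042152) (l 15963320))) (b (a (l 15502656) (l 15469096)) (a (l 15978624) (l 15941360)))) (a (b (a (b (l 16284272) (l 16407232)) (b (l 16264664) (l 16398912))) (a (b (l 16519096) (l 16617368)) (b (l 16522040) (l 16631472)))) (b (a (b (l 16253592) (l 16398440)) (b (l 16250984) (l 16405672))) (a (b (l 16532496) (l 16653096)) (b (l 16550320) (b (l 16650776) (l 16712904))))))) (b (a (b (a (b (l 15546456) (l 15729968)) (b (l 15540544) (l 15728376))) (a (b (l 15909720) (l 16084864)) (b (l 15912280) (l 16092848)))) (b (a (b (l 15555784) (l 15747000)) (b (l 15593800) (l 15787728)))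 (a (b (l 15933768) (l 16116240)) (b (l 15976784) (l 16161264))))) (a (b (a (b (l 16256232) (l 16419944)) (b (l 16268576) (l 16439584))) (b (a (l 16532904) (l 16498104)) (a (b (l 16683744) (l 16738536)) (b (l 16722320) (l 16691920))))) (b (a (b (l 16294600) (l 16468976)) (b (l 16341464) (l 16454736))) (b (a (b (l 16598280) (l 16640112)) (b (l 16647408) (l 16711032))) (a (b (l 16743672) (a (l 16701040) (l 16669552))) (b (a (l 16751688) (l 16696728)) (a (l 97408290903) (l 109756354807))))))))), by decide +kernel⟩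

def k7_pp_022_a : ∃ t, chk3 f_pp_022_a t 5 3 1 = true :=
  ⟨(b (a (b (a (a (b (l 16561792) (a (l 16601512) (l 16609376))) (b (b (l 16660728) (l 16638392)) (b (l 16622440) (l 16592360)))) (b (a (b (l 16680376) (l 16630336)) (a (l 16629496) (l 16609096))) (b (a (l 16597032) (a (l 16626120) (l 16620872))) (a (a (l 16613688) (l 16610544)) (a (b (l 16609072) (l 16604192)) (b (l 16585320) (l 16611144))))))) (a (b (a (b (a (l 16606952) (l 16610440)) (a (l 16620048) (l 16620824))) (b (a (l 16611760) (l 16610632)) (a (b (l 16616480) (l 16623144)) (b (l 16614480) (l 130157297255))))) (a (b (a (b (l 16634752) (l 16647360)) (b (l 16634176) (l 64122219767))) (a (b (l 57679798311) (l 4)) (l 4))) (b (a (b (l 93650095143) (l 4)) (l 4)) (l 4)))) (b (a (b (a (b (l 16607672) (l 16608352)) (b (l 16604896) (l 116735501991))) (a (b (l 132304766599) (l 4)) (l 4))) (b (a (b (l 110829919767) (l 4)) (l 4)) (l 4))) (l 4)))) (b (a (b (a (b (l 16647752) (a (l 16648856) (l 16641568))) (b (a (l 16681192)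 (l 16651144)) (a (b (l 16643216) (l 16629400)) (b (l 16642520) (l 4))))) (a (b (a (b (l 16620920) (l 63048409687)) (b (l 16618936) (l 4))) (a (l 132841621431) (l 4))) (l 4))) (b (a (b (a (b (l 16675328) (l 16658160)) (l 108145661335)) (l 4)) (l 4)) (l 4))) (l 4))) (l 4)), by decide +kernel⟩

def k8_pp_022_a : ∃ t, chk3 f_pp_022_a t 3 1 1 = true :=
  ⟨(a (b (a (b (a (b (a (b (l 15653176) (l 15849192)) (b (l 15724032) (l 15921536))) (a (b (l 16040024) (l 16226080)) (b (l 16113592) (l 16300736)))) (b (a (b (l 15800192) (l 15998592)) (b (l 15881576) (l 16080312))) (a (b (l 16191312) (l 16379008)) (b (l 16273184) (l 16418992))))) (a (b (b (a (l 16386816) (l 16441544)) (a (a (l 16567912) (l 16584008)) (b (l 16618120) (l 16685080)))) (a (b (a (l 16694096) (b (l 16733592) (l 16696832))) (b (a (l 97408323687) (l 16701080)) (l 4))) (b (b (a (l 16740096) (l 16699400)) (a (l 92576513511) (l 16728960))) (l 4)))) (b (b (a (l 16457424) (b (l 16599048) (a (l 16668832) (l 16710200))))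 (a (b (l 16676048) (a (l 16740824) (l 16703208))) (b (a (l 16742880) (l 78081046999)) (a (l 87744720295) (l 4))))) (b (a (b (a (l 84523473655) (l 16735296)) (l 4)) (l 4)) (l 4))))) (b (a (b (a (b (l 15967264) (l 16165832)) (b (l 16056432) (l 16254336))) (b (a (l 16358360) (l 16362184)) (a (l 16419864) (a (l 16547728) (l 16570592))))) (a (b (b (l 16148304) (l 16345104)) (b (l 160624257735) (b (l 16591392) (a (l 16721728) (b (l 16762744) (l 16748232)))))) (l 2))) (b (a (b (a (b (a (l 16662136) (l 16704760)) (a (l 16724696) (l 75396697207))) (b (a (l 16725256) (b (l 16759520) (l 16763192))) (a (l 94724078199) (l 4)))) (a (b (a (l 90965965351) (l 4)) (l 4)) (l 4))) (b (a (b (a (l 99019059751) (l 4)) (l 4)) (l 4)) (l 4))) (l 4)))) (l 4)) (b (b (l 2) (l 4)) (l 4))), by decide +kernel⟩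

theorem s9_pp_022_a : ∃ t, chk3 f_pp_022_a t 5 1 1 = true := ex3_b k6_pp_022_a k7_pp_022_a

theorem s10_pp_022_a : ∃ t, chk3 f_pp_022_a t 8 15 1 = true := ex3_a k3_pp_022_a k4_pp_022_a

theorem s11_pp_022_a : ∃ t, chk3 f_pp_022_a t 8 7 1 = true := ex3_b k2_pp_022_a s10_pp_022_a

theorem s12_pp_022_a : ∃ t, chk3 f_pp_022_a t 4 7 1 = true := ex3_a s11_pp_022_a k5_pp_022_a

theorem s13_pp_022_a : ∃ t, chk3 f_pp_022_a t 4 3 1 = true := ex3_b k1_pp_022_a s12_pp_022_a

theorem s14_pp_022_a : ∃ t, chk3 f_pp_022_a t 4 1 1 = true := ex3_b k0_pp_022_a s13_pp_022_a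

theorem s15_pp_022_a : ∃ t, chk3 f_pp_022_a t 2 1 1 = true := ex3_a s14_pp_022_a s9_pp_022_a

theorem s16_pp_022_a : ∃ t, chk3 f_pp_022_a t 1 1 1 = true := ex3_a s15_pp_022_a k8_pp_022_a

theorem c_pp_022_a : CertB 0 536870912 0 536870912 1033476505 6710887 3 eng mog cd0q0 cd1q2a pd2 true true true .pp 0 2 2
    ndB0q0 ndB1q2a pcB2 cut_pp_022_a Ext.none :=
  certB0 (fam := true) (s1 := true) (s2 := true) (a := 0) (b := 2) (c := 2) (cn := .pp) (n1 := ndB0q0) (n2 := ndB1q2a) (pc := pcB2) (cut := cut_pp_022_a) (xt := Ext.none) (P1 := 0) (W1 := 536870912) (P2 := 0) (W2 := 536870912) (P3 := 1033476505) (W3 := 6710887) (N0 := 3) (En := eng) (mo := mog) (C1 := cd0q0) (C2 := cd1q2a) (C3 := pd2)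
    rfl s16_pp_022_a

noncomputable def cut_pp_022_b : Cut := Cut.of [[⟨0, 0, 0, 33554432⟩, ⟨1, 1, 0, 33554432⟩, ⟨2, 1, 0, 33554432⟩]]

noncomputable def f_pp_022_b : ℕ → ℕ → ℕ → ℕ → Bool := onCell 0 536870912 1073741824 536870912 1033476505 6710887
    (rowB 3 eng mog cd0q0 cd1q2b pd2 1 true true true .pp 0 2 2 (qsf 0 536870912 1239849684 370763052 2) ndB0q0 ndB1q2b pcB2 cut_pp_022_b Ext.none)

def k0_pp_022_b : ∃ t, chk3 f_pp_022_b t 1 2 1 = true :=
  ⟨(a (a (b (l 1) (b (a (a (a (l 292626835687) (l 294774482423)) (a (l 339334936311) (l 1))) (l 1)) (a (a (b (l 16180544) (l 15927312)) (b (l 16145640) (l 15793104))) (a (a (b (l 16202256) (l 15956664)) (b (l 1) (b (l 16031576) (l 15920464)))) (a (b (l 1) (a (l 407516647175) (l 1))) (l 1)))))) (l 1)) (l 1)), by decide +kernel⟩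

def k1_pp_022_b : ∃ t, chk3 f_pp_022_b t 2 3 1 = true :=
  ⟨(a (b (a (b (a (b (l 15768328) (l 15689560)) (b (l 15788992) (l 15717744))) (a (l 15662880) (l 15702736))) (b (a (b (a (l 15807664) (l 15826000)) (a (l 15740168) (l 15759568))) (a (b (l 325912074919) (l 15749248)) (b (l 324301609335) (l 15684240)))) (a (b (l 15737424) (l 15756368)) (a (b (l 15740448) (l 15765816)) (b (l 15704936) (l 15739320)))))) (a (b (a (l 15728760) (l 15784536)) (b (l 15870720) (l 15796960))) (a (b (b (l 15801744) (l 15873136)) (b (l 15963864) (l 16002800))) (b (a (l 15834480) (l 15843160)) (a (l 15987312) (l 16058512)))))) (b (a (b (a (b (a (l 648034579511) (l 1)) (a (l 454760870711) (b (l 632465104615) (l 558376926743)))) (b (l 1) (a (b (l 1) (l 620116925239)) (l 1)))) (a (b (a (l 15656784) (l 15578440)) (l 15677784)) (b (a (l 550323586759) (b (l 653402810039) (l 593273313255))) (a (l 15599056) (l 15540536))))) (b (l 1) (a (b (a (b (l 1) (l 671119476391)) (l 1)) (a (b (l 582535839191) (l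 15505240)) (b (l 643739024519) (l 562134643799)))) (b (l 1) (a (b (l 1) (l 617432356855)) (l 1)))))) (a (b (a (b (l 15754600) (l 15858672)) (b (l 15666688) (l 15791592))) (a (b (l 15983776) (l 16124008)) (b (l 15938440) (l 16101848)))) (b (a (b (a (l 15591440) (l 15542416)) (l 15708640)) (b (a (b (l 568577207111) (l 15534440)) (b (l 600789414823) (l 563208581767))) (a (l 15651120) (l 15622000)))) (a (b (l 15873856) (l 16056624)) (b (l 15812064) (l 16007432))))))), by decide +kernel⟩

def k2_pp_022_b : ∃ t, chk3 f_pp_022_b t 3 3 1 = true :=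
  ⟨(b (l 1) (a (a (b (a (b (a (b (l 1) (l 593810195639)) (l 1)) (a (b (l 543881364311) (l 15646304)) (b (l 586294131031) (l 519185330215)))) (b (l 1) (a (l 578777993175) (l 1)))) (a (b (a (l 15784024) (l 15770408)) (l 15973920)) (b (b (l 555155904119) (l 483215245655)) (b (l 15897416) (l 16001848))))) (b (l 1) (b (a (b (l 1) (l 577704637463)) (l 1)) (a (b (l 558377485639) (l 403221820583)) (b (l 1) (l 580926210743)))))) (l 1))), by decide +kernel⟩

theorem s3_pp_022_b : ∃ t, chk3 f_pp_022_b t 1 3 1 = true := ex3_a k1_pp_022_b k2_pp_022_b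

theorem s4_pp_022_b : ∃ t, chk3 f_pp_022_b t 1 1 1 = true := ex3_b k0_pp_022_b s3_pp_022_b

theorem c_pp_022_b : CertB 0 536870912 1239849684 370763052 1033476505 6710887 3 eng mog cd0q0 cd1q2b pd2 true true true .pp 0 2 2
    ndB0q0 ndB1q2b pcB2 cut_pp_022_b Ext.none :=
  certB1 (fam := true) (s1 := true) (s2 := true) (a := 0) (b := 2) (c := 2) (cn := .pp) (n1 := ndB0q0) (n2 := ndB1q2b) (pc := pcB2) (cut := cut_pp_022_b) (xt := Ext.none) (P1 := 0) (W1 := 536870912) (P2 := 1239849684) (W2 := 370763052) (P3 := 1033476505) (W3 := 6710887) (N0 := 3) (En := eng) (mo := mog) (C1 := cd0q0) (C2 := cd1q2b) (C3 := pd2)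
    rfl (fun _ => rfl) s4_pp_022_b

noncomputable def f_pp_023_a : ℕ → ℕ → ℕ → ℕ → Bool := onCell 1610612736 536870912 0 536870912 1033476505 6710887
    (rowB 3 eng mog cd0q0 cd1q2a pd3 2 true true true .up 0 2 3 (qsf 0 536870912 0 536870912 3) ndB0q0 ndB1q2a pcB3 Cut.none Ext.none)

def k0_pp_023_a : ∃ t, chk3 f_pp_023_a t 4 8 1 = true :=
  ⟨(a (a (a (b (l 16043952) (a (l 16286952) (l 16339280))) (b (l 16067728) (a (l 16391872) (l 16402664)))) (a (b (a (l 16274952) (l 16329392)) (a (l 16413504) (l 16424288))) (b (a (l 16383832) (l 16375256)) (a (b (l 16548128) (l 16615416)) (b (l 16600984) (b (l 16682160) (l 74859736375))))))) (a (a (b (a (l 16366504) (b (l 16492968) (l 16578576))) (b (a (l 16611600) (a (l 16671720) (l 70564709015))) (a (b (a (l 16720928) (l 16724200)) (a (l 67880531591) (l 16750032))) (b (a (l 66806786071) (l 16748976)) (l 4))))) (b (a (a (l 16481552) (l 16487256)) (b (l 16558912) (a (l 16670912) (a (l 16690480) (l 16660856))))) (b (a (b (a (l 16718224)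 (l 16721944)) (a (b (l 16755664) (l 16768600)) (l 91502897207))) (b (a (b (l 16755056) (l 16768088)) (l 91502896247)) (l 4))) (l 4)))) (b (a (b (a (l 16570256) (a (l 16651776) (b (l 16694608) (l 65196112247)))) (a (a (b (l 16718224) (b (l 16755032) (l 16747024))) (b (l 16722136) (l 91502896423))) (b (a (b (l 16734608) (l 16747344)) (l 92039768615)) (l 4)))) (b (a (b (a (l 16720832) (b (l 16734376) (l 16736488))) (a (b (l 16735720) (l 87207932119)) (l 93113512167))) (b (a (b (l 16732152) (l 88281676855)) (l 95260997623)) (l 4))) (l 4))) (l 4)))), by decide +kernel⟩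

def k1_pp_023_a : ∃ t, chk3 f_pp_023_a t 4 9 1 = true :=
  ⟨(a (a (b (a (a (l 16451592) (l 16460840)) (a (l 16470176) (b (l 16612384) (a (l 16669568) (b (l 16709016) (l 16760624)))))) (a (b (a (l 16643568) (b (l 16686488) (a (l 16751272) (l 16748864)))) (a (b (a (l 16757648) (l 16748632)) (l 16748344)) (l 95797846903))) (b (a (b (b (l 16743768) (l 16724536)) (l 95260978119)) (l 96334708951)) (l 4)))) (b (a (b (a (l 16622008) (b (l 16687840) (l 77544102887))) (a (b (l 78617853015) (l 92039743351)) (b (l 90965985143) (l 4)))) (b (a (b (l 75933483591) (a (l 16746640) (l 16774152))) (b (a (l 68954278679) (l 16751448)) (l 4))) (l 4))) (l 4))) (l 4)), by decide +kernel⟩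

def k2_pp_023_a : ∃ t, chk3 f_pp_023_a t 5 4 1 = true :=
  ⟨(a (l 4) (l 2)), by decide +kernel⟩

def k3_pp_023_a : ∃ t, chk3 f_pp_023_a t 2 5 1 = true :=
  ⟨(a (l 4) (l 4)), by decide +kernel⟩

def k4_pp_023_a : ∃ t, chk3 f_pp_023_a t 2 3 1 = true :=
  ⟨(l 4), by decide +kernel⟩

def k5_pp_023_a : ∃ t, chk3 f_pp_023_a t 3 1 1 = true :=
  ⟨(l 2), by decide +kernel⟩

theorem s6_pp_023_a : ∃ t, chk3 f_pp_023_a t 4 4 1 = true := ex3_b k0_pp_023_a k1_pp_023_a

theorem s7_pp_023_a : ∃ t, chk3 f_pp_023_a t 2 4 1 = true := ex3_a s6_pp_023_a k2_pp_023_a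

theorem s8_pp_023_a : ∃ t, chk3 f_pp_023_a t 2 2 1 = true := ex3_b s7_pp_023_a k3_pp_023_a

theorem s9_pp_023_a : ∃ t, chk3 f_pp_023_a t 2 1 1 = true := ex3_b s8_pp_023_a k4_pp_023_a

theorem s10_pp_023_a : ∃ t, chk3 f_pp_023_a t 1 1 1 = true := ex3_a s9_pp_023_a k5_pp_023_a

theorem c_pp_023_a : CertB 0 536870912 0 536870912 1033476505 6710887 3 eng mog cd0q0 cd1q2a pd3 true true true .up 0 2 3
    ndB0q0 ndB1q2a pcB3 Cut.none Ext.none :=
  certB2 (fam := true) (s1 := true) (s2 := true) (a := 0) (b := 2) (c := 3) (cn := .up) (n1 := ndB0q0) (n2 := ndB1q2a) (pc := pcB3) (cut := Cut.none) (xt := Ext.none) (P1 := 0) (W1 := 536870912) (P2 := 0) (W2 := 536870912) (P3 := 1033476505) (W3 := 6710887) (N0 := 3) (En := eng) (mo := mog) (C1 := cd0q0) (C2 := cd1q2a) (C3 := pd3)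
    rfl (fun _ => rfl) s10_pp_023_a

noncomputable def f_pp_023_b : ℕ → ℕ → ℕ → ℕ → Bool := onCell 1610612736 536870912 1239849684 370763052 1033476505 6710887
    (rowB 3 eng mog cd0q0 cd1q2b pd3 2 true true true .up 0 2 3 (qsf 0 536870912 1239849684 370763052 3) ndB0q0 ndB1q2b pcB3 Cut.none Ext.none)

def k0_pp_023_b : ∃ t, chk3 f_pp_023_b t 1 1 1 = true :=
  ⟨(a (b (a (b (a (a (b (b (a (l 15985256) (l 16094880)) (a (l 16010856) (l 16121560))) (a (l 16044968) (l 16156560))) (b (b (a (l 16205936) (a (l 16289712) (l 16345528))) (a (l 16233928) (l 16347064))) (a (l 16270128) (l 16384696)))) (a (b (a (b (a (l 16401256) (l 16456792)) (l 16460120)) (b (a (l 16512056) (l 16566968)) (l 16572240))) (a (l 16499288) (l 16570320))) (b (a (b (a (l 16558504) (b (l 16665952) (l 16684576))) (a (l 16655032) (l 16706008))) (b (a (b (l 16676968) (l 16734192)) (b (b (a (l 16752720) (l 16757432)) (l 16739656)) (l 16756128))) (a (l 16734360) (l 4)))) (a (b (l 16693008) (l 16690008)) (l 4)))))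 (a (a (b (b (a (l 16076760) (l 16189456)) (l 16154496)) (a (l 16144320) (l 16243048))) (b (a (b (l 16303648) (l 16321184)) (l 16428216)) (a (l 16351488) (l 16462944)))) (a (b (a (l 16543808) (l 16636688)) (b (l 16600592) (l 16516048))) (l 4)))) (a (a (a (l 4) (l 4)) (l 4)) (l 4))) (a (a (b (b (a (a (l 16182728) (l 16280192)) (l 16289368)) (a (b (l 16224832) (a (l 16044104) (l 16078440))) (b (l 16349040) (l 16128208)))) (b (a (b (a (l 15924064) (l 15845800)) (a (l 15771656) (l 15748640))) (b (a (l 15750000) (l 15914144)) (a (l 15687800) (l 15679968)))) (a (l 15560720) (b (a (l 15593504) (l 15545464)) (a (l 15512032) (l 15434800)))))) (a (a (b (b (l 16584248) (l 16306552)) (b (l 15772104) (b (l 15550800) (l 15442952)))) (l 4)) (l 4))) (l 4))) (l 4)), by decide +kernel⟩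

theorem c_pp_023_b : CertB 0 536870912 1239849684 370763052 1033476505 6710887 3 eng mog cd0q0 cd1q2b pd3 true true true .up 0 2 3
    ndB0q0 ndB1q2b pcB3 Cut.none Ext.none :=
  certB2 (fam := true) (s1 := true) (s2 := true) (a := 0) (b := 2) (c := 3) (cn := .up) (n1 := ndB0q0) (n2 := ndB1q2b) (pc := pcB3) (cut := Cut.none) (xt := Ext.none) (P1 := 0) (W1 := 536870912) (P2 := 1239849684) (W2 := 370763052) (P3 := 1033476505) (W3 := 6710887) (N0 := 3) (En := eng) (mo := mog) (C1 := cd0q0) (C2 := cd1q2b) (C3 := pd3)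
    rfl (fun _ => rfl) k0_pp_023_b

noncomputable def f_pp_033 : ℕ → ℕ → ℕ → ℕ → Bool := onCell 0 536870912 1610612736 536870912 1033476505 6710887
    (rowB 3 eng mog cd0q0 cd1q3 pd3 1 true true true .pnn 0 3 3 (qsf 0 536870912 1610612736 536870912 3) ndB0q0 ndB1q3 pcB3 Cut.none Ext.none)

def k0_pp_033 : ∃ t, chk3 f_pp_033 t 1 1 1 = true :=
  ⟨(b (b (a (b (a (a (b (l 15751456) (l 15374632)) (a (b (l 1) (l 15667032)) (l 1))) (l 1)) (b (a (a (l 15093232) (a (l 15504264) (l 15482952))) (l 1)) (l 4))) (l 1)) (a (l 4) (a (l 4) (l 1)))) (l 4)), by decide +kernel⟩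

theorem c_pp_033 : CertB 0 536870912 1610612736 536870912 1033476505 6710887 3 eng mog cd0q0 cd1q3 pd3 true true true .pnn 0 3 3
    ndB0q0 ndB1q3 pcB3 Cut.none Ext.none :=
  certB1 (fam := true) (s1 := true) (s2 := true) (a := 0) (b := 3) (c := 3) (cn := .pnn) (n1 := ndB0q0) (n2 := ndB1q3) (pc := pcB3) (cut := Cut.none) (xt := Ext.none) (P1 := 0) (W1 := 536870912) (P2 := 1610612736) (W2 := 536870912) (P3 := 1033476505) (W3 := 6710887) (N0 := 3) (En := eng) (mo := mog) (C1 := cd0q0) (C2 := cd1q3) (C3 := pd3)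
    rfl (fun _ => rfl) k0_pp_033

noncomputable def f_pp_101 : ℕ → ℕ → ℕ → ℕ → Bool := onCell 536870912 536870912 0 536870912 1033476505 6710887
    (rowB 3 eng mog cd0q1 cd1q0 pd1 0 true true true .npn 1 0 1 (qsf 536870912 536870912 0 536870912 1) ndB0q1 ndB1q0 pcB1 Cut.none Ext.none)

def k0_pp_101 : ∃ t, chk3 f_pp_101 t 1 1 1 = true :=
  ⟨(a (l 4) (l 5)), by decide +kernel⟩

theorem c_pp_101 : CertB 536870912 536870912 0 536870912 1033476505 6710887 3 eng mog cd0q1 cd1q0 pd1 true true true .npn 1 0 1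
    ndB0q1 ndB1q0 pcB1 Cut.none Ext.none :=
  certB0 (fam := true) (s1 := true) (s2 := true) (a := 1) (b := 0) (c := 1) (cn := .npn) (n1 := ndB0q1) (n2 := ndB1q0) (pc := pcB1) (cut := Cut.none) (xt := Ext.none) (P1 := 536870912) (W1 := 536870912) (P2 := 0) (W2 := 536870912) (P3 := 1033476505) (W3 := 6710887) (N0 := 3) (En := eng) (mo := mog) (C1 := cd0q1) (C2 := cd1q0) (C3 := pd1)
    rfl k0_pp_101

noncomputable def f_pp_102 : ℕ → ℕ → ℕ → ℕ → Bool := onCell 536870912 536870912 0 536870912 1033476505 6710887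
    (rowB 3 eng mog cd0q1 cd1q0 pd2 0 true true true .npp 1 0 2 (qsf 536870912 536870912 0 536870912 2) ndB0q1 ndB1q0 pcB2 Cut.none Ext.none)

def k0_pp_102 : ∃ t, chk3 f_pp_102 t 1 1 1 = true :=
  ⟨(a (l 4) (l 5)), by decide +kernel⟩

theorem c_pp_102 : CertB 536870912 536870912 0 536870912 1033476505 6710887 3 eng mog cd0q1 cd1q0 pd2 true true true .npp 1 0 2
    ndB0q1 ndB1q0 pcB2 Cut.none Ext.none :=
  certB0 (fam := true) (s1 := true) (s2 := true) (a := 1) (b := 0) (c := 2) (cn := .npp) (n1 := ndB0q1) (n2 := ndB1q0) (pc := pcB2) (cut := Cut.none) (xt := Ext.none) (P1 := 536870912) (W1 := 536870912) (P2 := 0) (W2 := 536870912) (P3 := 1033476505) (W3 := 6710887) (N0 := 3) (En := eng) (mo := mog) (C1 := cd0q1) (C2 := cd1q0) (C3 := pd2)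
    rfl k0_pp_102

noncomputable def f_pp_112 : ℕ → ℕ → ℕ → ℕ → Bool := onCell 536870912 536870912 536870912 536870912 1033476505 6710887
    (rowB 3 eng mog cd0q1 cd1q1 pd2 0 true true true .dn 1 1 2 (qsf 536870912 536870912 536870912 536870912 2) ndB0q1 ndB1q1 pcB2 Cut.none Ext.none)

def k0_pp_112 : ∃ t, chk3 f_pp_112 t 1 1 1 = true :=
  ⟨(l 4), by decide +kernel⟩

theorem c_pp_112 : CertB 536870912 536870912 536870912 536870912 1033476505 6710887 3 eng mog cd0q1 cd1q1 pd2 true true true .dn 1 1 2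
    ndB0q1 ndB1q1 pcB2 Cut.none Ext.none :=
  certB0 (fam := true) (s1 := true) (s2 := true) (a := 1) (b := 1) (c := 2) (cn := .dn) (n1 := ndB0q1) (n2 := ndB1q1) (pc := pcB2) (cut := Cut.none) (xt := Ext.none) (P1 := 536870912) (W1 := 536870912) (P2 := 536870912) (W2 := 536870912) (P3 := 1033476505) (W3 := 6710887) (N0 := 3) (En := eng) (mo := mog) (C1 := cd0q1) (C2 := cd1q1) (C3 := pd2)
    rfl k0_pp_112

noncomputable def f_pp_113 : ℕ → ℕ → ℕ → ℕ → Bool := onCell 536870912 536870912 536870912 536870912 1033476505 6710887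
    (rowB 3 eng mog cd0q1 cd1q1 pd3 0 true true true .nn 1 1 3 (qsf 536870912 536870912 536870912 536870912 3) ndB0q1 ndB1q1 pcB3 Cut.none Ext.none)

def k0_pp_113 : ∃ t, chk3 f_pp_113 t 1 1 1 = true :=
  ⟨(l 4), by decide +kernel⟩

theorem c_pp_113 : CertB 536870912 536870912 536870912 536870912 1033476505 6710887 3 eng mog cd0q1 cd1q1 pd3 true true true .nn 1 1 3
    ndB0q1 ndB1q1 pcB3 Cut.none Ext.none :=
  certB0 (fam := true) (s1 := true) (s2 := true) (a := 1) (b := 1) (c := 3) (cn := .nn) (n1 := ndB0q1) (n2 := ndB1q1) (pc := pcB3) (cut := Cut.none) (xt := Ext.none) (P1 := 536870912) (W1 := 536870912) (P2 := 536870912) (W2 := 536870912) (P3 := 1033476505) (W3 := 6710887) (N0 := 3) (En := eng) (mo := mog) (C1 := cd0q1) (C2 := cd1q1) (C3 := pd3)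
    rfl k0_pp_113

noncomputable def f_pp_123_a : ℕ → ℕ → ℕ → ℕ → Bool := onCell 536870912 536870912 0 536870912 1033476505 6710887
    (rowB 3 eng mog cd0q1 cd1q2a pd3 0 true true true .npn 1 2 3 (qsf 536870912 536870912 0 536870912 3) ndB0q1 ndB1q2a pcB3 Cut.none Ext.none)

def k0_pp_123_a : ∃ t, chk3 f_pp_123_a t 1 1 1 = true :=
  ⟨(a (b (l 4) (l 4)) (l 4)), by decide +kernel⟩

theorem c_pp_123_a : CertB 536870912 536870912 0 536870912 1033476505 6710887 3 eng mog cd0q1 cd1q2a pd3 true true true .npn 1 2 3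
    ndB0q1 ndB1q2a pcB3 Cut.none Ext.none :=
  certB0 (fam := true) (s1 := true) (s2 := true) (a := 1) (b := 2) (c := 3) (cn := .npn) (n1 := ndB0q1) (n2 := ndB1q2a) (pc := pcB3) (cut := Cut.none) (xt := Ext.none) (P1 := 536870912) (W1 := 536870912) (P2 := 0) (W2 := 536870912) (P3 := 1033476505) (W3 := 6710887) (N0 := 3) (En := eng) (mo := mog) (C1 := cd0q1) (C2 := cd1q2a) (C3 := pd3)
    rfl k0_pp_123_a

noncomputable def f_pp_123_b : ℕ → ℕ → ℕ → ℕ → Bool := onCell 536870912 536870912 1239849684 370763052 1033476505 6710887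
    (rowB 3 eng mog cd0q1 cd1q2b pd3 0 true true true .npn 1 2 3 (qsf 536870912 536870912 1239849684 370763052 3) ndB0q1 ndB1q2b pcB3 Cut.none Ext.none)

def k0_pp_123_b : ∃ t, chk3 f_pp_123_b t 1 1 1 = true :=
  ⟨(a (b (a (l 4) (l 4)) (l 4)) (l 4)), by decide +kernel⟩

theorem c_pp_123_b : CertB 536870912 536870912 1239849684 370763052 1033476505 6710887 3 eng mog cd0q1 cd1q2b pd3 true true true .npn 1 2 3
    ndB0q1 ndB1q2b pcB3 Cut.none Ext.none :=
  certB0 (fam := true) (s1 := true) (s2 := true) (a := 1) (b := 2) (c := 3) (cn := .npn) (n1 := ndB0q1) (n2 := ndB1q2b) (pc := pcB3) (cut := Cut.none) (xt := Ext.none) (P1 := 536870912) (W1 := 536870912) (P2 := 1239849684) (W2 := 370763052) (P3 := 1033476505) (W3 := 6710887) (N0 := 3) (En := eng) (mo := mog) (C1 := cd0q1) (C2 := cd1q2b) (C3 := pd3)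
    rfl k0_pp_123_b

noncomputable def f_pp_133 : ℕ → ℕ → ℕ → ℕ → Bool := onCell 536870912 536870912 1610612736 536870912 1033476505 6710887
    (rowB 3 eng mog cd0q1 cd1q3 pd3 0 true true true .dn 1 3 3 (qsf 536870912 536870912 1610612736 536870912 3) ndB0q1 ndB1q3 pcB3 Cut.none Ext.none)

def k0_pp_133 : ∃ t, chk3 f_pp_133 t 1 1 1 = true :=
  ⟨(l 4), by decide +kernel⟩

theorem c_pp_133 : CertB 536870912 536870912 1610612736 536870912 1033476505 6710887 3 eng mog cd0q1 cd1q3 pd3 true true true .dn 1 3 3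
    ndB0q1 ndB1q3 pcB3 Cut.none Ext.none :=
  certB0 (fam := true) (s1 := true) (s2 := true) (a := 1) (b := 3) (c := 3) (cn := .dn) (n1 := ndB0q1) (n2 := ndB1q3) (pc := pcB3) (cut := Cut.none) (xt := Ext.none) (P1 := 536870912) (W1 := 536870912) (P2 := 1610612736) (W2 := 536870912) (P3 := 1033476505) (W3 := 6710887) (N0 := 3) (En := eng) (mo := mog) (C1 := cd0q1) (C2 := cd1q3) (C3 := pd3)
    rfl k0_pp_133

noncomputable def f_pp_202 : ℕ → ℕ → ℕ → ℕ → Bool := onCell 0 536870912 0 536870912 1033476505 6710887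
    (rowB 3 eng mog cd0q2 cd1q0 pd2 0 true true true .pp 2 0 2 (qsf 0 536870912 0 536870912 2) ndB0q2 ndB1q0 pcB2 Cut.none Ext.none)

def k0_pp_202 : ∃ t, chk3 f_pp_202 t 1 1 1 = true :=
  ⟨(l 5), by decide +kernel⟩

theorem c_pp_202 : CertB 0 536870912 0 536870912 1033476505 6710887 3 eng mog cd0q2 cd1q0 pd2 true true true .pp 2 0 2
    ndB0q2 ndB1q0 pcB2 Cut.none Ext.none :=
  certB0 (fam := true) (s1 := true) (s2 := true) (a := 2) (b := 0) (c := 2) (cn := .pp) (n1 := ndB0q2) (n2 := ndB1q0) (pc := pcB2) (cut := Cut.none) (xt := Ext.none) (P1 := 0) (W1 := 536870912) (P2 := 0) (W2 := 536870912) (P3 := 1033476505) (W3 := 6710887) (N0 := 3) (En := eng) (mo := mog) (C1 := cd0q2) (C2 := cd1q0) (C3 := pd2)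
    rfl k0_pp_202

noncomputable def f_pp_203 : ℕ → ℕ → ℕ → ℕ → Bool := onCell 0 536870912 0 536870912 1033476505 6710887
    (rowB 3 eng mog cd0q2 cd1q0 pd3 0 true true true .up 2 0 3 (qsf 0 536870912 0 536870912 3) ndB0q2 ndB1q0 pcB3 Cut.none Ext.none)

def k0_pp_203 : ∃ t, chk3 f_pp_203 t 1 1 1 = true :=
  ⟨(l 5), by decide +kernel⟩

theorem c_pp_203 : CertB 0 536870912 0 536870912 1033476505 6710887 3 eng mog cd0q2 cd1q0 pd3 true true true .up 2 0 3
    ndB0q2 ndB1q0 pcB3 Cut.none Ext.none :=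
  certB0 (fam := true) (s1 := true) (s2 := true) (a := 2) (b := 0) (c := 3) (cn := .up) (n1 := ndB0q2) (n2 := ndB1q0) (pc := pcB3) (cut := Cut.none) (xt := Ext.none) (P1 := 0) (W1 := 536870912) (P2 := 0) (W2 := 536870912) (P3 := 1033476505) (W3 := 6710887) (N0 := 3) (En := eng) (mo := mog) (C1 := cd0q2) (C2 := cd1q0) (C3 := pd3)
    rfl k0_pp_203

noncomputable def f_pp_213 : ℕ → ℕ → ℕ → ℕ → Bool := onCell 0 536870912 536870912 536870912 1033476505 6710887
    (rowB 3 eng mog cd0q2 cd1q1 pd3 0 true true true .pnn 2 1 3 (qsf 0 536870912 536870912 536870912 3) ndB0q2 ndB1q1 pcB3 Cut.none Ext.none)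

def k0_pp_213 : ∃ t, chk3 f_pp_213 t 1 1 1 = true :=
  ⟨(l 5), by decide +kernel⟩

theorem c_pp_213 : CertB 0 536870912 536870912 536870912 1033476505 6710887 3 eng mog cd0q2 cd1q1 pd3 true true true .pnn 2 1 3
    ndB0q2 ndB1q1 pcB3 Cut.none Ext.none :=
  certB0 (fam := true) (s1 := true) (s2 := true) (a := 2) (b := 1) (c := 3) (cn := .pnn) (n1 := ndB0q2) (n2 := ndB1q1) (pc := pcB3) (cut := Cut.none) (xt := Ext.none) (P1 := 0) (W1 := 536870912) (P2 := 536870912) (W2 := 536870912) (P3 := 1033476505) (W3 := 6710887) (N0 := 3) (En := eng) (mo := mog) (C1 := cd0q2) (C2 := cd1q1) (C3 := pd3)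
    rfl k0_pp_213

noncomputable def f_pm_001 : ℕ → ℕ → ℕ → ℕ → Bool := onCell 0 536870912 0 536870912 1033476505 6710887
    (rowB 3 eng mog cd0q0 cd1q0 pd1 0 true true false .up 0 0 1 (qsf 0 536870912 0 536870912 1) ndB0q0 ndB1q0 pcB1 Cut.none Ext.none)

def k0_pm_001 : ∃ t, chk3 f_pm_001 t 1 1 1 = true :=
  ⟨(l 3), by decide +kernel⟩

theorem c_pm_001 : CertB 0 536870912 0 536870912 1033476505 6710887 3 eng mog cd0q0 cd1q0 pd1 true true false .up 0 0 1
    ndB0q0 ndB1q0 pcB1 Cut.none Ext.none :=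
  certB0 (fam := true) (s1 := true) (s2 := false) (a := 0) (b := 0) (c := 1) (cn := .up) (n1 := ndB0q0) (n2 := ndB1q0) (pc := pcB1) (cut := Cut.none) (xt := Ext.none) (P1 := 0) (W1 := 536870912) (P2 := 0) (W2 := 536870912) (P3 := 1033476505) (W3 := 6710887) (N0 := 3) (En := eng) (mo := mog) (C1 := cd0q0) (C2 := cd1q0) (C3 := pd1)
    rfl k0_pm_001

noncomputable def f_pm_011 : ℕ → ℕ → ℕ → ℕ → Bool := onCell 0 536870912 536870912 536870912 1033476505 6710887
    (rowB 3 eng mog cd0q0 cd1q1 pd1 1 true true false .pnn 0 1 1 (qsf 0 536870912 536870912 536870912 1) ndB0q0 ndB1q1 pcB1 Cut.none Ext.none)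

def k0_pm_011 : ∃ t, chk3 f_pm_011 t 1 1 1 = true :=
  ⟨(l 3), by decide +kernel⟩

theorem c_pm_011 : CertB 0 536870912 536870912 536870912 1033476505 6710887 3 eng mog cd0q0 cd1q1 pd1 true true false .pnn 0 1 1
    ndB0q0 ndB1q1 pcB1 Cut.none Ext.none :=
  certB1 (fam := true) (s1 := true) (s2 := false) (a := 0) (b := 1) (c := 1) (cn := .pnn) (n1 := ndB0q0) (n2 := ndB1q1) (pc := pcB1) (cut := Cut.none) (xt := Ext.none) (P1 := 0) (W1 := 536870912) (P2 := 536870912) (W2 := 536870912) (P3 := 1033476505) (W3 := 6710887) (N0 := 3) (En := eng) (mo := mog) (C1 := cd0q0) (C2 := cd1q1) (C3 := pd1)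
    rfl (fun _ => rfl) k0_pm_011

noncomputable def f_pm_012 : ℕ → ℕ → ℕ → ℕ → Bool := onCell 1073741824 536870912 536870912 536870912 1033476505 6710887
    (rowB 3 eng mog cd0q0 cd1q1 pd2 2 true true false .pnp 0 1 2 (qsf 0 536870912 536870912 536870912 2) ndB0q0 ndB1q1 pcB2 Cut.none Ext.none)

def k0_pm_012 : ∃ t, chk3 f_pm_012 t 2 2 1 = true :=
  ⟨(a (l 3) (a (b (a (a (b (l 2) (l 3)) (l 2)) (l 2)) (a (a (l 3) (a (l 3) (b (b (b (l 2) (a (l 3) (b (l 2) (a (l 15903048) (l 15903184))))) (a (l 3) (b (b (l 72643589511) (l 15971720)) (b (l 15986208) (l 16043584))))) (a (l 3) (b (b (l 16058264) (l 16179696)) (b (l 16263280) (l 16350528))))))) (b (b (a (b (l 2) (a (b (l 2) (l 15903312)) (l 2))) (l 2)) (a (b (a (b (l 15937664) (l 15972848)) (l 15955648)) (a (b (l 16008840) (l 16045600)) (l 16028896))) (b (l 15933952) (l 16030016)))) (b (a (b (a (l 16060768) (l 16105336)) (a (l 16182376) (l 16185640))) (b (l 16108144) (l 16189872))) (b (a (l 16268272) (l 16275136)) (a (l 16356208)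 (l 16364256))))))) (b (l 2) (b (b (l 2) (a (b (l 2) (l 16027264)) (l 2))) (b (a (b (l 16109152) (a (l 16193336) (l 16194272))) (b (l 2) (l 16190320))) (a (b (l 16240232) (l 16352640)) (b (l 16282936) (l 16378240)))))))), by decide +kernel⟩

def k1_pm_012 : ∃ t, chk3 f_pm_012 t 4 3 1 = true :=
  ⟨(a (l 3) (b (l 3) (b (l 3) (a (l 3) (a (b (l 3) (b (l 3) (a (l 3) (a (b (l 3) (a (a (l 3) (b (l 3) (b (l 3) (b (l 290614304103) (a (l 277729385479) (a (b (l 16465184) (l 16453656)) (l 16457488))))))) (b (a (l 3) (b (l 3) (l 16487080))) (a (b (a (l 16457808) (b (l 16484504) (l 16461104))) (a (b (l 16466360) (l 16473888)) (l 16481752))) (b (l 16493928) (l 16493584)))))) (b (b (l 260012776727) (a (l 264307718327) (l 16556240))) (a (b (b (l 192903873271) (l 16518552)) (l 16495960)) (b (l 16550584) (l 16546496)))))))) (b (a (b (l 3) (b (l 3) (l 224579255559))) (b (a (l 3) (l 16421288)) (a (b (l 16492800) (l 16509120)) (l 16445592)))) (a (b (a (b (l 16612280) (b (l 16591688) (l 16577656)))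 (b (l 16540016) (l 16574128))) (a (b (b (l 16567176) (l 16559672)) (b (l 16552504) (l 16546008))) (b (l 16562472) (c (l 16569968) (l 16572640))))) (b (a (b (l 16521504) (l 16533704)) (l 16430016)) (a (b (l 16546432) (a (l 16572024) (l 16525664))) (b (a (l 16507584) (l 16484032)) (a (l 16526592) (l 16507944)))))))))))), by decide +kernel⟩

def k2_pm_012 : ∃ t, chk3 f_pm_012 t 5 6 1 = true :=
  ⟨(a (a (a (b (l 3) (l 3)) (a (b (l 3) (b (a (l 3) (l 16681344)) (a (l 16537200) (l 16532008)))) (a (b (b (l 3) (a (l 16641456) (l 16640984))) (b (a (l 16701720) (l 16723032)) (l 16426144))) (b (b (l 16466192) (l 16640208)) (b (b (l 16756288) (l 16653112)) (a (l 16529928) (l 16527352))))))) (b (b (b (l 16389184) (l 16546416)) (b (l 16625568) (l 16685344))) (b (b (l 16740712) (l 16677320)) (l 16445072)))) (b (b (a (b (l 16446840) (l 16564688)) (b (l 16476552) (l 16577000))) (a (b (l 16627248) (l 16672976)) (l 16612192))) (b (a (l 16628656) (l 16651128)) (a (l 16454008) (b (l 16595608)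 (l 16498768)))))), by decide +kernel⟩

def k3_pm_012 : ∃ t, chk3 f_pm_012 t 5 7 1 = true :=
  ⟨(a (a (a (b (b (a (l 3) (b (l 16352696) (a (l 16352360) (l 16333112)))) (a (b (l 161764934295) (a (l 16364456) (l 16325664))) (b (a (l 16308920) (l 16282272)) (a (l 16288648) (l 16258616))))) (b (a (b (a (l 16374552) (l 16328960)) (a (l 16393552) (l 16348376))) (b (a (l 16290400) (l 16258536)) (a (l 16311344) (l 16279144)))) (a (b (a (b (l 16415192) (l 16432928)) (b (l 16373568) (l 16395680))) (b (a (l 16456304) (l 16420136)) (l 16464288))) (b (b (l 16321112) (l 16343008)) (b (l 16367672) (l 16394624)))))) (a (b (b (a (b (l 16399120) (l 16320024)) (b (l 16395872) (l 16312376))) (a (b (l 16262800) (l 16235256)) (b (l 16249016) (l 16214536)))) (b (b (a (l 16231568) (l 16204152)) (l 16231536)) (b (l 16264152) (b (l 16298368) (l 16325000))))) (b (a (b (b (l 16393880) (l 16306624)) (b (l 16235304) (l 16192744))) (b (b (l 16387832) (l 16297000)) (b (l 16219904) (l 16171504)))) (b (a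 (b (l 16177568) (l 16186072)) (b (a (l 16157488) (l 16144736)) (a (l 16163088) (l 16148376)))) (a (b (l 16214744) (l 16259952)) (a (b (l 16189768) (l 16233952)) (b (l 16173704) (l 16217416)))))))) (b (b (a (b (l 16383384) (l 16285792)) (l 16338136)) (a (b (l 16206664) (l 16140840)) (b (l 16196624) (l 16120544)))) (b (a (b (l 16105920) (l 16098464)) (b (l 16058464) (l 16028024))) (b (a (a (l 16140200) (l 16091128)) (l 16025904)) (a (a (l 16180616) (l 16125416)) (l 16048944)))))) (b (b (a (l 16343664) (l 16354960)) (a (a (b (l 16203504) (l 16111568)) (l 16162720)) (l 16170544))) (b (a (a (b (l 16039400) (l 15982024)) (b (l 16031552) (l 15964256))) (a (b (l 16040376) (l 15957584)) (l 16005968))) (a (b (a (l 15957136) (l 15912656)) (a (l 15961560) (l 15894552))) (b (l 15892648) (l 15844760)))))), by decide +kernel⟩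

def k4_pm_012 : ∃ t, chk3 f_pm_012 t 3 1 1 = true :=
  ⟨(b (a (b (l 2) (b (l 2) (a (b (l 2) (a (l 16322992) (l 2))) (l 2)))) (l 2)) (b (a (b (a (b (a (b (l 16475752) (l 16580552)) (l 16519640)) (a (l 16651456) (l 16655584))) (b (l 2) (l 16557288))) (a (b (a (l 16679776) (l 16681088)) (a (l 16531920) (l 16549688))) (b (a (l 16675448) (l 16672344)) (a (l 16492248) (l 16472288))))) (b (l 2) (a (b (l 2) (l 16393208)) (l 2)))) (a (b (a (b (a (l 16366440) (l 16373400)) (a (l 16184368) (l 16197720))) (b (a (l 16371872) (l 16357904)) (a (l 16205928) (l 16205032)))) (a (b (a (l 16016312) (l 16032880)) (a (a (l 15728696) (l 15876248)) (l 15889408))) (b (a (l 16048256) (l 16057792)) (a (l 15909024) (l 15926664))))) (b (a (b (a (l 16338512) (l 16312360)) (a (l 16191192) (l 16172128))) (b (l 2) (l 16071104))) (a (b (a (l 16057520) (l 16043640)) (a (l 15937672) (l 15938104))) (b (a (l 16023832) (l 15996728)) (a (l 15924168) (l 15903504)))))))), by decide +kernel⟩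

theorem s5_pm_012 : ∃ t, chk3 f_pm_012 t 5 3 1 = true := ex3_b k2_pm_012 k3_pm_012

theorem s6_pm_012 : ∃ t, chk3 f_pm_012 t 2 3 1 = true := ex3_a k1_pm_012 s5_pm_012

theorem s7_pm_012 : ∃ t, chk3 f_pm_012 t 2 1 1 = true := ex3_b k0_pm_012 s6_pm_012

theorem s8_pm_012 : ∃ t, chk3 f_pm_012 t 1 1 1 = true := ex3_a s7_pm_012 k4_pm_012

theorem c_pm_012 : CertB 0 536870912 536870912 536870912 1033476505 6710887 3 eng mog cd0q0 cd1q1 pd2 true true false .pnp 0 1 2
    ndB0q0 ndB1q1 pcB2 Cut.none Ext.none :=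
  certB2 (fam := true) (s1 := true) (s2 := false) (a := 0) (b := 1) (c := 2) (cn := .pnp) (n1 := ndB0q0) (n2 := ndB1q1) (pc := pcB2) (cut := Cut.none) (xt := Ext.none) (P1 := 0) (W1 := 536870912) (P2 := 536870912) (W2 := 536870912) (P3 := 1033476505) (W3 := 6710887) (N0 := 3) (En := eng) (mo := mog) (C1 := cd0q0) (C2 := cd1q1) (C3 := pd2)
    rfl (fun _ => rfl) s8_pm_012

noncomputable def cut_pm_022_a : Cut := Cut.of [[⟨0, 0, 0, 33554432⟩, ⟨1, 1, 0, 33554432⟩, ⟨2, 1, 0, 33554432⟩]]

noncomputable def f_pm_022_a : ℕ → ℕ → ℕ → ℕ → Bool := onCell 1073741824 536870912 0 536870912 1033476505 6710887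
    (rowB 3 eng mog cd0q0 cd1q2a pd2 2 true true false .pp 0 2 2 (qsf 0 536870912 0 536870912 2) ndB0q0 ndB1q2a pcB2 cut_pm_022_a Ext.none)

def k0_pm_022_a : ∃ t, chk3 f_pm_022_a t 8 1 1 = true :=
  ⟨(b (l 1) (b (l 1) (a (b (l 1) (b (a (l 1) (b (a (l 1) (b (l 1) (a (l 1) (l 16622584)))) (a (l 6) (a (l 6) (b (l 16648640) (l 16673704)))))) (a (l 6) (a (l 6) (a (l 6) (a (l 6) (b (l 16687232) (l 16684624)))))))) (b (b (a (l 1) (b (l 1) (a (l 1) (l 16412376)))) (a (b (l 1) (a (b (l 1) (l 16570088)) (b (l 16536496) (l 16588760)))) (b (a (l 16482808) (l 16506512)) (a (l 16542208) (l 16566288))))) (b (a (b (a (b (b (l 16585120) (l 16618272)) (l 16615328)) (b (b (l 16626504) (l 16639656)) (l 16657616))) (a (b (l 16641256) (l 16665984)) (b (l 16662200) (l 16686288)))) (b (b (a (l 16614832) (l 16639864)) (l 16641440)) (a (b (l 16677824) (l 16664144)) (l 16614352)))) (a (b (a (a (l 16672376) (l 16681208)) (b (l 16688928) (l 16677144))) (a (b (l 16695232) (l 16658032)) (b (l 16684592)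 (l 16648408)))) (b (a (l 16628040) (l 16614328)) (a (b (l 16651752) (l 16638136)) (b (l 16619240) (l 16607728)))))))))), by decide +kernel⟩

def k1_pm_022_a : ∃ t, chk3 f_pm_022_a t 9 2 1 = true :=
  ⟨(b (l 1) (a (l 1) (b (l 1) (a (l 1) (l 16003072))))), by decide +kernel⟩

def k2_pm_022_a : ∃ t, chk3 f_pm_022_a t 9 3 1 = true :=
  ⟨(b (b (a (l 1) (b (a (l 16031480) (l 16107400)) (a (l 16123832) (l 16202016)))) (a (b (a (l 1) (l 16170008)) (a (b (l 16211424) (l 16284176)) (b (l 16269552) (l 16344344)))) (b (a (l 16238744) (l 16315752)) (a (l 16333688) (l 16404912))))) (b (a (b (a (b (l 16364496) (l 16431120)) (b (l 16425256) (l 16511784))) (a (b (l 16483552) (l 16563008)) (b (l 16540592) (l 16566248)))) (a (b (l 16427048) (a (l 16513376) (l 16504680))) (b (l 16505592) (b (l 16582216) (a (l 16532720) (l 16516968)))))) (a (b (a (b (b (a (l 16614864) (l 16600728)) (l 16581128)) (a (l 16578432) (l 16564720))) (b (b (a (l 16587712) (l 16556056)) (l 16555168)) (a (l 16553400)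 (l 16525128)))) (a (b (a (l 16601624) (l 16570168)) (a (b (l 16588520) (l 16580032)) (b (l 16561344) (l 16556416)))) (b (a (l 16542704) (b (l 16520432) (l 16521632))) (a (b (a (l 16544040) (l 16535200)) (a (l 16542784) (l 16533224))) (b (a (l 16525624) (l 16515216)) (a (l 16521880) (l 16504920))))))) (b (a (b (b (a (l 16528160) (l 16505120)) (a (l 16512664) (l 16493576))) (a (b (l 16504384) (l 16501520)) (b (l 16486224) (l 16480536)))) (b (a (b (l 16488848) (l 16474104)) (b (l 16469152) (l 16448768))) (a (b (l 16465296) (l 16450464)) (b (l 16425152) (l 16397816))))) (a (b (a (b (l 16501888) (a (l 16505712) (l 16493136))) (b (l 16477040) (a (l 16474248) (l 16448880)))) (a (b (a (l 16499864) (l 16479224)) (a (l 16480592) (l 16453400))) (b (a (l 16452144) (l 16421144)) (a (l 16421296) (l 16385344))))) (b (a (b (l 16388832) (a (l 16419552) (l 16386064))) (b (a (l 16385752) (l 16350920)) (l 16334136))) (a (b (l 16369000) (l 16330320)) (b (l 16296024) (l 16253872))))))))), by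 decide +kernel⟩

def k3_pm_022_a : ∃ t, chk3 f_pm_022_a t 5 2 1 = true :=
  ⟨(a (b (a (b (l 16020600) (l 16015304)) (b (l 16252704) (l 16236688))) (a (b (a (l 16002592) (l 16100808)) (a (l 16089696) (l 16186328))) (b (l 16178896) (l 16165952)))) (b (a (b (l 16475000) (l 16464120)) (a (b (l 16349344) (l 16418072)) (b (l 16268464) (l 16339336)))) (a (b (a (l 16417976) (l 16453352)) (a (b (l 16444448) (l 16464720)) (b (l 16508248) (l 16460048)))) (b (a (a (l 16488328) (l 16450072)) (a (l 16402960) (l 16348064))) (a (b (l 16481504) (l 16442888)) (l 16351464)))))), by decide +kernel⟩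

def k4_pm_022_a : ∃ t, chk3 f_pm_022_a t 5 6 1 = true :=
  ⟨(a (a (b (b (l 16135896) (l 16203368)) (a (b (l 16393824) (l 16469656)) (b (l 16463752) (b (l 16536488) (l 16558936))))) (b (a (l 16325312) (b (l 16350248) (l 16494184))) (b (a (a (l 16455832) (l 16524064)) (a (l 16548960) (l 16563536))) (a (a (l 16564440) (l 16479344)) (a (l 16457472) (b (l 16516296) (l 16449768))))))) (a (b (a (b (l 16501088) (a (l 16546784) (l 16559784))) (b (l 16492880) (a (l 16507088) (l 16442768)))) (a (b (a (l 16516296) (l 16475912)) (l 16348184)) (b (l 16383488) (l 16262096)))) (b (a (l 16258032) (l 16177136)) (b (l 15984240) (a (l 16136592) (l 16017472)))))), by decide +kernel⟩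

def k5_pm_022_a : ∃ t, chk3 f_pm_022_a t 10 7 1 = true :=
  ⟨(b (a (b (a (b (l 16602152) (a (l 16601808) (l 16583992))) (b (l 16553776) (a (l 16561120) (l 16528128)))) (a (b (a (l 16554288) (l 16510744)) (a (l 16430968) (l 16398152))) (b (a (l 16478032) (l 16428416)) (a (l 16326816) (l 16347752))))) (b (a (b (l 16399888) (a (l 16478688) (l 16416960))) (l 16260672)) (a (b (l 16356304) (l 16252448)) (b (l 16227080) (l 16121096))))) (a (a (b (b (a (b (l 16437880) (l 16402344)) (b (l 16388832) (l 16341568))) (a (b (l 16369832) (l 16332472)) (l 16283296))) (b (a (l 16279936) (l 16205504)) (a (l 16197536) (l 16116784)))) (a (b (b (b (l 16327440) (l 16277056)) (l 16212920)) (b (l 16128040) (l 16034960))) (a (b (b (l 16254624) (l 16158040)) (b (l 16068848) (l 15971864))) (b (a (b (l 16229968) (l 16129736)) (b (a (a (a (l 16219824) (l 16156136)) (l 16214480)) (l 16208032)) (b (l 16135736) (l 16086056)))) (a (b (l 16037344) (l 15937488)) (b (l 16016016) (a (l 15876320) (l 15907344))))))))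 (b (a (b (l 16095936) (l 16034200)) (b (l 16006784) (l 15903072))) (a (b (l 15938944) (l 15837544)) (b (l 15810592) (b (l 15738992) (l 15689120))))))), by decide +kernel⟩

def k6_pm_022_a : ∃ t, chk3 f_pm_022_a t 11 7 1 = true :=
  ⟨(b (a (b (a (l 16236416) (l 16109256)) (a (l 16024936) (l 15923600))) (b (a (l 15988256) (l 15877448)) (a (l 15748912) (b (l 15757936) (l 15671456))))) (b (a (b (a (l 15881400) (l 15766096)) (a (l 15780320) (l 15670304))) (b (a (l 15664992) (l 15581936)) (a (l 15577136) (l 15483656)))) (a (a (b (l 15693456) (b (l 15627496) (l 15561200))) (b (l 15528936) (b (l 15491776) (a (l 15514304) (l 15475928))))) (b (a (b (l 15526072) (a (l 15511360) (l 15477616))) (a (b (l 15476872) (l 15450096)) (b (l 15451904) (l 15429232)))) (a (b (a (l 15477360) (l 15447376)) (a (b (l 15452016) (l 15435224)) (a (l 15423528) (l 15412288)))) (b (a (l 15423968) (b (l 15412872) (l 15402328))) (a (b (l 15404976) (a (l 15396416) (l 15389360))) (b (l 15392128) (a (l 15384184)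 (l 15380936)))))))))), by decide +kernel⟩

def k7_pm_022_a : ∃ t, chk3 f_pm_022_a t 3 2 1 = true :=
  ⟨(a (a (b (a (a (b (l 16162576) (l 16188576)) (l 15977256)) (b (l 15726480) (l 15800080))) (a (b (a (l 16250320) (l 16123768)) (a (l 16228088) (l 16102864))) (b (l 15941344) (a (l 15985768) (l 15877968))))) (b (a (b (l 15591072) (l 15676520)) (b (l 15335560) (l 15498040))) (a (b (l 15728344) (a (l 15782592) (l 15681608))) (b (b (l 15556704) (l 15586448)) (a (l 15619656) (l 15580528)))))) (a (b (a (b (a (l 15297848) (l 15256704)) (b (l 15344576) (l 15398056))) (b (l 15203744) (l 15330648))) (a (b (a (l 15483416) (l 15460176)) (a (l 15556872) (l 15567960))) (b (l 15444520) (l 15538608)))) (b (b (a (l 15182376) (b (l 15165056) (l 15234792))) (a (l 15315096) (l 15315632))) (b (a (l 15436488) (l 15442192)) (a (l 15539640) (l 15551560)))))), by decide +kernel⟩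

def k8_pm_022_a : ∃ t, chk3 f_pm_022_a t 6 6 1 = true :=
  ⟨(a (b (a (b (l 16106688) (l 16044072)) (b (l 15888064) (l 15756376))) (a (b (l 15856720) (a (l 15908600) (l 15813576))) (b (a (l 15817992) (l 15743240)) (a (l 15735800) (l 15657424))))) (b (a (b (l 15724112) (l 15700528)) (b (a (l 15653664) (l 15629104)) (a (l 15651512) (l 15640816)))) (a (b (a (l 15688720) (l 15658360)) (a (b (l 15655848) (l 15633960)) (a (l 15633784) (l 15631496)))) (a (b (b (l 15647392) (l 15643336)) (l 15629176)) (b (l 15641216) (l 15629456)))))), by decide +kernel⟩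

def k9_pm_022_a : ∃ t, chk3 f_pm_022_a t 12 7 1 = true :=
  ⟨(b (a (b (a (l 15780632) (l 15701360)) (a (b (l 15673728) (l 15597800)) (a (l 15590128) (l 15546392)))) (b (a (l 15642904) (b (l 15626288) (l 15592056))) (a (b (l 15570144) (a (l 15525328) (l 15519752))) (b (a (l 15557584) (l 15554368)) (a (l 15517160) (l 15518640)))))) (a (b (b (a (l 15499528) (a (l 15490360) (l 15480144))) (a (b (l 15468376) (l 15444520)) (b (l 15443888) (l 15427936)))) (a (b (a (b (l 15433680) (l 15415424)) (b (l 15422584) (l 15409304))) (b (a (b (l 15402608) (l 15394896)) (a (l 15396584) (l 15396672))) (a (b (l 15387024) (a (l 15379680) (l 15379624))) (b (l 15386944) (l 15380176))))) (b (a (b (l 15418736) (l 15407472)) (l 15414152)) (b (a (l 15397240) (l 15399016)) (a (b (l 15388240) (l 15381960)) (b (l 15390704) (l 15384880))))))) (b (a (b (a (l 15474312) (l 15472320)) (b (l 15440520) (l 15428488))) (b (l 15475976) (b (l 15444000) (l 15433464)))) (b (a (b (l 15421016) (l 15412832)) (b (l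 15427544) (l 15420888))) (a (b (a (l 15401888) (l 15405776)) (a (b (l 15394224) (l 15388824)) (b (l 15398704) (l 15393712)))) (b (a (l 15410568) (l 15416184)) (a (b (l 15404064) (a (l 15397912) (l 15400968))) (b (l 15410192) (l 15405904))))))))), by decide +kernel⟩

def k10_pm_022_a : ∃ t, chk3 f_pm_022_a t 13 7 1 = true :=
  ⟨(b (a (b (a (b (l 15609856) (a (l 15584480) (l 15584296))) (l 15595984)) (b (a (l 15555088) (l 15558048)) (a (l 15520888) (l 15527096)))) (b (a (l 15598112) (l 15603648)) (b (a (l 15564544) (l 15573936)) (a (l 15536480) (l 15548360))))) (b (a (b (a (l 15481936) (l 15491352)) (b (a (l 15451728) (l 15462920)) (a (l 15442200) (l 15453976)))) (b (a (l 15503536) (l 15517840)) (b (a (l 15476816) (l 15492672)) (a (l 15468096) (l 15483904))))) (a (b (a (b (l 15437608) (l 15432264)) (b (l 15450504) (l 15446248))) (a (b (a (l 15422528) (l 15429512)) (a (b (l 15417008) (l 15413032)) (l 15422608))) (b (l 15441064) (a (l 15430656) (l 15439104))))) (b (a (b (l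 15465528) (l 15462152)) (b (l 15482032) (l 15479312))) (a (b (l 15457808) (a (l 15447888) (l 15456912))) (b (l 15475584) (a (l 15466096) (l 15475376)))))))), by decide +kernel⟩

def k11_pm_022_a : ∃ t, chk3 f_pm_022_a t 7 3 1 = true :=
  ⟨(b (a (b (a (b (l 15616608) (l 15634184)) (b (l 15612856) (l 15637488))) (a (b (l 15641352) (a (l 15633168) (l 15639712))) (b (l 15651800) (a (l 15648520) (l 15659048))))) (b (a (b (l 15621328) (l 15651112)) (b (l 15638208) (l 15671264))) (a (b (l 15670472) (a (l 15670800) (l 15683320))) (b (l 15735560) (a (l 15696184) (l 15709024)))))) (b (a (a (b (a (l 15611976) (l 15622480)) (b (a (l 15585576) (l 15598872)) (a (l 15562128) (l 15577176)))) (b (a (l 15634600) (l 15647816)) (b (a (l 15613264) (l 15628240)) (a (l 15592960) (l 15608952))))) (a (b (a (l 15661624) (l 15675592)) (b (a (l 15643312) (l 15658032)) (a (l 15624688) (l 15639736)))) (b (a (l 15689296) (l 15702376)) (a (b (l 15672016) (l 15653688)) (b (l 15684904) (l 15666224))))))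 (a (b (a (b (a (l 15533624) (l 15550312)) (b (a (l 15509800) (l 15527512)) (a (l 15500776) (l 15518136)))) (b (a (l 15567352) (l 15584224)) (b (a (l 15545176) (l 15562192)) (a (l 15535424) (l 15551784))))) (a (b (a (b (l 15499400) (l 15497120)) (b (l 15517032) (l 15515000))) (a (b (l 15493792) (a (l 15484664) (l 15493896))) (b (l 15511856) (a (l 15503000) (l 15511912))))) (b (a (b (l 15534408) (l 15532400)) (l 15550080)) (a (b (l 15529224) (a (l 15520560) (l 15528896))) (b (l 15545416) (a (l 15536840) (l 15544352))))))) (b (a (b (a (l 15600464) (l 15615640)) (b (l 15586264) (a (l 15567200) (l 15581480)))) (b (a (l 15629384) (l 15641344)) (b (l 15611968) (a (l 15594184) (l 15604760))))) (a (b (a (l 15565264) (l 15578688)) (a (b (l 15559960) (a (l 15551376) (l 15557856))) (b (l 15572448) (l 15566512)))) (b (a (l 15589992) (l 15599008)) (a (b (l 15582344) (l 15575632)) (b (l 15591040) (l 15583704))))))))), by decide +kernel⟩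

theorem s12_pm_022_a : ∃ t, chk3 f_pm_022_a t 6 7 1 = true := ex3_a k9_pm_022_a k10_pm_022_a

theorem s13_pm_022_a : ∃ t, chk3 f_pm_022_a t 6 3 1 = true := ex3_b k8_pm_022_a s12_pm_022_a

theorem s14_pm_022_a : ∃ t, chk3 f_pm_022_a t 3 3 1 = true := ex3_a s13_pm_022_a k11_pm_022_a

theorem s15_pm_022_a : ∃ t, chk3 f_pm_022_a t 3 1 1 = true := ex3_b k7_pm_022_a s14_pm_022_a

theorem s16_pm_022_a : ∃ t, chk3 f_pm_022_a t 5 7 1 = true := ex3_a k5_pm_022_a k6_pm_022_a

theorem s17_pm_022_a : ∃ t, chk3 f_pm_022_a t 5 3 1 = true := ex3_b k4_pm_022_a s16_pm_022_a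

theorem s18_pm_022_a : ∃ t, chk3 f_pm_022_a t 5 1 1 = true := ex3_b k3_pm_022_a s17_pm_022_a

theorem s19_pm_022_a : ∃ t, chk3 f_pm_022_a t 9 1 1 = true := ex3_b k1_pm_022_a k2_pm_022_a

theorem s20_pm_022_a : ∃ t, chk3 f_pm_022_a t 4 1 1 = true := ex3_a k0_pm_022_a s19_pm_022_a

theorem s21_pm_022_a : ∃ t, chk3 f_pm_022_a t 2 1 1 = true := ex3_a s20_pm_022_a s18_pm_022_a

theorem s22_pm_022_a : ∃ t, chk3 f_pm_022_a t 1 1 1 = true := ex3_a s21_pm_022_a s15_pm_022_a

theorem c_pm_022_a : CertB 0 536870912 0 536870912 1033476505 6710887 3 eng mog cd0q0 cd1q2a pd2 true true false .pp 0 2 2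
    ndB0q0 ndB1q2a pcB2 cut_pm_022_a Ext.none :=
  certB2 (fam := true) (s1 := true) (s2 := false) (a := 0) (b := 2) (c := 2) (cn := .pp) (n1 := ndB0q0) (n2 := ndB1q2a) (pc := pcB2) (cut := cut_pm_022_a) (xt := Ext.none) (P1 := 0) (W1 := 536870912) (P2 := 0) (W2 := 536870912) (P3 := 1033476505) (W3 := 6710887) (N0 := 3) (En := eng) (mo := mog) (C1 := cd0q0) (C2 := cd1q2a) (C3 := pd2)
    rfl (fun _ => rfl) s22_pm_022_a

noncomputable def cut_pm_022_b : Cut := Cut.of [[⟨0, 0, 0, 33554432⟩, ⟨1, 1, 0, 33554432⟩, ⟨2, 1, 0, 33554432⟩]]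

noncomputable def f_pm_022_b : ℕ → ℕ → ℕ → ℕ → Bool := onCell 0 536870912 1073741824 536870912 1033476505 6710887
    (rowB 3 eng mog cd0q0 cd1q2b pd2 1 true true false .pp 0 2 2 (qsf 0 536870912 1239849684 370763052 2) ndB0q0 ndB1q2b pcB2 cut_pm_022_b Ext.none)

def k0_pm_022_b : ∃ t, chk3 f_pm_022_b t 1 1 1 = true :=
  ⟨(a (b (b (l 1) (a (b (a (a (l 316785934471) (l 296385287591)) (l 1)) (a (a (l 16297960) (l 16328616)) (a (a (l 16303000) (l 301753744999)) (a (l 346313849191) (l 1))))) (l 1))) (a (a (b (b (a (l 16089232) (l 16074304)) (a (l 15775800) (l 15785288))) (b (a (l 15472104) (l 15505800)) (l 15212904))) (b (a (b (a (l 16064992) (l 16064120)) (l 15734952)) (b (a (l 15969080) (l 15964648)) (a (l 15783544) (l 15739672)))) (a (b (l 15537832) (l 15291424)) (a (b (l 15544152) (l 15318072)) (b (l 15523376) (l 15320152)))))) (a (b (b (a (b (l 498247603175) (l 382283328855)) (b (l 1) (l 528312205911))) (a (b (l 15699328) (l 15607520)) (b (l 494488909863) (l 15480384))))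 (a (b (l 15473992) (l 15307808)) (b (l 15384360) (l 15267832)))) (b (b (l 1) (a (b (l 556765916775) (l 488046148951)) (b (l 1) (a (l 514889728743) (l 1))))) (b (a (b (l 15284408) (l 15265912)) (b (a (l 482140636327) (l 467645066423)) (a (l 15207416) (l 15179768)))) (a (l 15212712) (l 15163400))))))) (a (b (l 1) (b (l 1) (a (b (a (b (a (l 466571181639) (l 1)) (a (l 481066781175) (l 466571130151))) (b (l 1) (l 467107973991))) (a (a (l 15145456) (b (l 15143960) (l 15137664))) (b (l 469792453399) (l 15132696)))) (b (l 1) (a (b (l 469255431383) (l 466034210663)) (b (l 1) (l 473550404279))))))) (l 1))), by decide +kernel⟩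

theorem c_pm_022_b : CertB 0 536870912 1239849684 370763052 1033476505 6710887 3 eng mog cd0q0 cd1q2b pd2 true true false .pp 0 2 2
    ndB0q0 ndB1q2b pcB2 cut_pm_022_b Ext.none :=
  certB1 (fam := true) (s1 := true) (s2 := false) (a := 0) (b := 2) (c := 2) (cn := .pp) (n1 := ndB0q0) (n2 := ndB1q2b) (pc := pcB2) (cut := cut_pm_022_b) (xt := Ext.none) (P1 := 0) (W1 := 536870912) (P2 := 1239849684) (W2 := 370763052) (P3 := 1033476505) (W3 := 6710887) (N0 := 3) (En := eng) (mo := mog) (C1 := cd0q0) (C2 := cd1q2b) (C3 := pd2)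
    rfl (fun _ => rfl) k0_pm_022_b

noncomputable def f_pm_023_a : ℕ → ℕ → ℕ → ℕ → Bool := onCell 0 536870912 0 536870912 1033476505 6710887
    (rowB 3 eng mog cd0q0 cd1q2a pd3 0 true true false .up 0 2 3 (qsf 0 536870912 0 536870912 3) ndB0q0 ndB1q2a pcB3 Cut.none Ext.none)

def k0_pm_023_a : ∃ t, chk3 f_pm_023_a t 1 1 1 = true :=
  ⟨(a (l 1) (a (b (a (l 1) (a (b (b (l 1) (l 1)) (l 1)) (b (b (a (l 15033464) (l 15046032)) (l 15178360)) (b (l 15328568) (l 15463224))))) (b (l 1) (l 1))) (b (a (b (a (b (l 15053096) (l 15228072)) (b (l 15126648) (l 15272744))) (b (a (l 15371064) (l 15406640)) (a (l 15477288) (l 15503472)))) (b (b (a (a (l 15176400) (b (b (a (l 15151872) (b (l 15218088) (l 15180984))) (l 15197288)) (l 15249368))) (b (a (b (b (l 15266616) (a (l 15210456) (l 15258232))) (l 15264696)) (b (l 15393688) (a (b (b (l 15293936) (l 15280448)) (l 15283744)) (b (l 15358296) (b (l 15323208) (l 15316304)))))) (l 15290360))) (a (l 15331264) (l 15402872))) (b (a (l 15454088)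 (l 15512584)) (a (l 15560408) (l 15605224))))) (b (a (b (a (b (l 15579680) (l 15624072)) (b (l 15599192) (l 15639384))) (a (b (l 15658712) (l 1)) (b (l 15670144) (a (l 15686680) (l 15692016))))) (b (a (b (l 15626832) (l 15661696)) (b (l 15661592) (l 15689912))) (a (b (l 15687416) (a (l 15698344) (l 15705376))) (b (l 15709320) (a (l 15712952) (l 15722520)))))) (b (a (a (l 1) (b (a (l 1) (l 15695936)) (l 1))) (a (b (a (l 15700120) (l 15704672)) (a (b (l 15691040) (l 15678928)) (b (l 15693888) (l 15680728)))) (b (a (l 15709384) (l 15715808)) (a (b (l 15696616) (l 15682208)) (b (l 15700832) (l 15685024)))))) (a (l 1) (b (a (b (a (l 1) (l 15662512)) (l 1)) (b (a (l 15662824) (l 15664328)) (a (b (l 15644904) (l 15631856)) (l 15639896)))) (a (l 1) (a (l 237328049655) (b (l 15602248) (l 15555296))))))))))), by decide +kernel⟩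

theorem c_pm_023_a : CertB 0 536870912 0 536870912 1033476505 6710887 3 eng mog cd0q0 cd1q2a pd3 true true false .up 0 2 3
    ndB0q0 ndB1q2a pcB3 Cut.none Ext.none :=
  certB0 (fam := true) (s1 := true) (s2 := false) (a := 0) (b := 2) (c := 3) (cn := .up) (n1 := ndB0q0) (n2 := ndB1q2a) (pc := pcB3) (cut := Cut.none) (xt := Ext.none) (P1 := 0) (W1 := 536870912) (P2 := 0) (W2 := 536870912) (P3 := 1033476505) (W3 := 6710887) (N0 := 3) (En := eng) (mo := mog) (C1 := cd0q0) (C2 := cd1q2a) (C3 := pd3)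
    rfl k0_pm_023_a

noncomputable def f_pm_023_b : ℕ → ℕ → ℕ → ℕ → Bool := onCell 0 536870912 1610612736 536870912 1033476505 6710887
    (rowB 3 eng mog cd0q0 cd1q2b pd3 1 true true false .up 0 2 3 (qsf 0 536870912 1239849684 370763052 3) ndB0q0 ndB1q2b pcB3 Cut.none Ext.none)

def k0_pm_023_b : ∃ t, chk3 f_pm_023_b t 2 1 1 = true :=
  ⟨(b (a (b (a (b (b (a (l 14892824) (l 14940296)) (l 15151800)) (b (l 15395840) (l 2))) (b (a (b (a (l 14967728) (l 14986216)) (l 15203928)) (b (a (l 15001512) (l 14989560)) (l 15219848))) (a (b (l 15464448) (l 15719392)) (b (l 15475536) (l 15686632))))) (a (l 2) (b (a (l 2) (b (l 15812328) (l 2))) (l 2)))) (b (b (a (b (a (l 14996008) (l 15001720)) (a (l 15209688) (l 15158824))) (b (a (l 14969480) (l 14947384)) (a (l 15092496) (b (l 14970928) (l 15094456))))) (a (b (a (l 15514120) (l 15496320)) (a (l 15819304) (l 15830024))) (b (a (l 15446232) (l 15374048)) (l 15569112)))) (b (a (b (a (l 16109104) (l 16154656)) (a (l 16001904) (l 16370448)))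 (b (l 16015400) (a (l 16483736) (l 16471088)))) (b (a (a (l 2) (l 16093344)) (a (l 16429096) (l 16641128))) (l 4))))) (l 4)), by decide +kernel⟩

def k1_pm_023_b : ∃ t, chk3 f_pm_023_b t 3 1 1 = true :=
  ⟨(b (a (b (b (a (a (b (l 14940200) (b (l 14952584) (l 15019416))) (b (l 14944136) (l 14959704))) (a (b (a (l 14947480) (l 14950928)) (l 14972680)) (b (b (l 496098629911) (l 513815486679)) (l 14983392)))) (a (b (a (l 15294208) (l 15201848)) (a (l 15679448) (l 15601640))) (b (a (b (l 15044416) (l 15216192)) (b (l 15022592) (l 15120856))) (a (l 15515432) (l 15422168))))) (b (a (b (a (l 16060688) (l 15989832)) (a (l 16423624) (l 16360736))) (b (l 15678112) (l 16144320))) (a (b (a (l 16747592) (l 16699152)) (a (l 16634776) (l 16672216))) (b (l 16579712) (l 16735184))))) (b (b (a (a (b (l 514352311447) (b (l 484824408791) (l 502541273367))) (b (l 1) (l 512741736903))) (l 1)) (a (b (a (b (l 15026760) (a (l 15075232) (l 15065072))) (b (l 470865870167) (l 219610414471))) (a (b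 (l 15214312) (l 15422896)) (b (a (l 15145672) (b (l 15094336) (l 15138952))) (l 15315608)))) (b (a (l 510594364775) (l 1)) (a (b (a (b (l 15098312) (l 15120992)) (l 433285066583)) (a (l 15163824) (b (b (l 15134968) (l 240011730151)) (l 15218024)))) (b (l 1) (a (b (l 1) (b (l 1) (a (l 15197152) (l 1)))) (l 1))))))) (b (b (a (a (l 15728712) (l 15479408)) (a (b (l 15408336) (l 15616872)) (b (a (l 15293760) (b (l 1) (l 318394847687))) (a (l 15526552) (l 132100823719))))) (a (a (l 16122008) (l 16006240)) (a (b (l 15821840) (l 16021336)) (b (l 15515856) (l 15909288))))) (b (a (b (l 16353920) (l 16507720)) (a (l 16202224) (b (l 16107016) (l 16295784)))) (a (b (l 16691464) (l 16749920)) (b (a (l 16567432) (l 16473592)) (l 16681952))))))) (a (l 4) (b (b (b (a (l 16714312) (b (l 16743256) (l 16738608))) (l 4)) (l 4)) (l 4)))), by decide +kernel⟩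

theorem s2_pm_023_b : ∃ t, chk3 f_pm_023_b t 1 1 1 = true := ex3_a k0_pm_023_b k1_pm_023_b

theorem c_pm_023_b : CertB 0 536870912 1239849684 370763052 1033476505 6710887 3 eng mog cd0q0 cd1q2b pd3 true true false .up 0 2 3
    ndB0q0 ndB1q2b pcB3 Cut.none Ext.none :=
  certB1 (fam := true) (s1 := true) (s2 := false) (a := 0) (b := 2) (c := 3) (cn := .up) (n1 := ndB0q0) (n2 := ndB1q2b) (pc := pcB3) (cut := Cut.none) (xt := Ext.none) (P1 := 0) (W1 := 536870912) (P2 := 1239849684) (W2 := 370763052) (P3 := 1033476505) (W3 := 6710887) (N0 := 3) (En := eng) (mo := mog) (C1 := cd0q0) (C2 := cd1q2b) (C3 := pd3)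
    rfl (fun _ => rfl) s2_pm_023_b

noncomputable def f_pm_033 : ℕ → ℕ → ℕ → ℕ → Bool := onCell 0 536870912 1610612736 536870912 1033476505 6710887
    (rowB 3 eng mog cd0q0 cd1q3 pd3 1 true true false .pnn 0 3 3 (qsf 0 536870912 1610612736 536870912 3) ndB0q0 ndB1q3 pcB3 Cut.none Ext.none)

def k0_pm_033 : ∃ t, chk3 f_pm_033 t 1 1 1 = true :=
  ⟨(a (b (b (a (a (b (b (a (l 15055896) (l 15116056)) (l 15307872)) (b (l 15536168) (l 15580464))) (b (a (b (l 1) (l 15379736)) (l 1)) (a (b (l 15626752) (l 15863560)) (b (l 15588448) (l 15784416))))) (b (l 1) (a (b (l 1) (l 349534483175)) (l 1)))) (b (a (a (b (l 15032256) (a (l 14863384) (l 15091968))) (a (b (l 15518080) (l 15283848)) (b (l 15684120) (l 15339928)))) (a (b (a (l 16259160) (l 16331320)) (a (l 15954544) (l 16334752))) (b (l 1) (l 16497856)))) (b (a (a (l 4) (a (l 15147144) (a (l 15309112) (l 15481320)))) (a (a (l 15754008) (l 16103248)) (a (l 16403408) (l 16617720)))) (l 4)))) (l 4)) (b (a (b (l 1) (b (l 1) (a (b (l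 1) (l 231424979815)) (l 1)))) (l 1)) (a (l 4) (b (b (l 1) (l 4)) (l 4))))), by decide +kernel⟩

theorem c_pm_033 : CertB 0 536870912 1610612736 536870912 1033476505 6710887 3 eng mog cd0q0 cd1q3 pd3 true true false .pnn 0 3 3
    ndB0q0 ndB1q3 pcB3 Cut.none Ext.none :=
  certB1 (fam := true) (s1 := true) (s2 := false) (a := 0) (b := 3) (c := 3) (cn := .pnn) (n1 := ndB0q0) (n2 := ndB1q3) (pc := pcB3) (cut := Cut.none) (xt := Ext.none) (P1 := 0) (W1 := 536870912) (P2 := 1610612736) (W2 := 536870912) (P3 := 1033476505) (W3 := 6710887) (N0 := 3) (En := eng) (mo := mog) (C1 := cd0q0) (C2 := cd1q3) (C3 := pd3)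
    rfl (fun _ => rfl) k0_pm_033

noncomputable def cut_pm_101 : Cut := Cut.of [[⟨0, 1, 0, 33554432⟩, ⟨1, 0, 0, 33554432⟩, ⟨2, 1, 0, 33554432⟩]]

noncomputable def f_pm_101 : ℕ → ℕ → ℕ → ℕ → Bool := onCell 536870912 536870912 0 536870912 1033476505 6710887
    (rowB 3 eng mog cd0q1 cd1q0 pd1 2 true true false .npn 1 0 1 (qsf 536870912 536870912 0 536870912 1) ndB0q1 ndB1q0 pcB1 cut_pm_101 Ext.none)

def k0_pm_101 : ∃ t, chk3 f_pm_101 t 1 1 1 = true :=
  ⟨(a (l 3) (b (a (l 3) (b (a (l 3) (b (a (l 3) (b (a (l 3) (b (a (l 3) (l 6)) (l 3))) (l 3))) (l 3))) (l 3))) (l 3))), by decide +kernel⟩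

theorem c_pm_101 : CertB 536870912 536870912 0 536870912 1033476505 6710887 3 eng mog cd0q1 cd1q0 pd1 true true false .npn 1 0 1
    ndB0q1 ndB1q0 pcB1 cut_pm_101 Ext.none :=
  certB2 (fam := true) (s1 := true) (s2 := false) (a := 1) (b := 0) (c := 1) (cn := .npn) (n1 := ndB0q1) (n2 := ndB1q0) (pc := pcB1) (cut := cut_pm_101) (xt := Ext.none) (P1 := 536870912) (W1 := 536870912) (P2 := 0) (W2 := 536870912) (P3 := 1033476505) (W3 := 6710887) (N0 := 3) (En := eng) (mo := mog) (C1 := cd0q1) (C2 := cd1q0) (C3 := pd1)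
    rfl (fun _ => rfl) k0_pm_101

noncomputable def cut_pm_102 : Cut := Cut.of [[⟨0, 1, 0, 33554432⟩, ⟨1, 0, 0, 33554432⟩, ⟨2, 1, 0, 33554432⟩]]

noncomputable def xt_pm_102 : Ext := extD3 3 ⟨4, 1, 1, 5, 27, 5, 41, 50, 81, 200, 1, 64⟩ eng cd0q1 cd1q0 pd2 true true false .npp 1 0 2 rfl ndB0q1 ndB1q0 pcB2

noncomputable def f_pm_102 : ℕ → ℕ → ℕ → ℕ → Bool := onCell 536870912 536870912 1073741824 536870912 1033476505 6710887
    (rowB 3 eng mog cd0q1 cd1q0 pd2 1 true true false .npp 1 0 2 (qsf 536870912 536870912 0 536870912 2) ndB0q1 ndB1q0 pcB2 cut_pm_102 xt_pm_102)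

def k0_pm_102 : ∃ t, chk3 f_pm_102 t 2 1 1 = true :=
  ⟨(b (a (b (l 3) (b (b (b (b (l 3) (l 2)) (l 2)) (l 2)) (l 2))) (b (b (l 3) (b (l 3) (b (l 3) (a (l 3) (b (a (l 3) (a (l 3) (b (l 16623904) (l 16622896)))) (a (a (l 3) (l 16670208)) (a (b (l 16694000) (l 16703720)) (l 16626752)))))))) (b (b (b (a (b (a (l 3) (b (l 16738752) (l 16727360))) (a (b (l 16674232) (l 16665152)) (b (l 16715760) (l 16705112)))) (b (a (b (l 16720568) (l 16733840)) (a (l 16695952) (l 16605104))) (a (b (l 16729976) (l 16731896)) (b (l 16690376) (l 16699696))))) (b (a (a (b (l 16656800) (l 16649808)) (b (l 16696376) (l 16689008))) (a (b (l 16738736) (l 16736040)) (l 16712160))) (b (a (a (l 16643376) (l 16681248)) (a (l 16727472) (l 16723520))) (a (a (l 16635944) (l 16672384)) (a (l 16697376) (l 16729296)))))) (a (a (l 16609960) (l 16644024)) (a (l 16688600) (l 16750016)))) (a (a (l 2) (l 16577528)) (a (l 16595080) (l 16672616)))))) (a (l 2) (b (a (l 2) (b (l 16409712) (l 2))) (l 2)))), by decide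 +kernel⟩

def k1_pm_102 : ∃ t, chk3 f_pm_102 t 6 8 1 = true :=
  ⟨(l 3), by decide +kernel⟩

def k2_pm_102 : ∃ t, chk3 f_pm_102 t 14 16 1 = true :=
  ⟨(l 3), by decide +kernel⟩

def k3_pm_102 : ∃ t, chk3 f_pm_102 t 14 34 1 = true :=
  ⟨(a (l 3) (b (a (l 3) (b (l 3) (a (l 3) (b (l 3) (a (l 3) (a (b (l 3) (l 375976844743)) (b (l 382956193879) (l 16519696)))))))) (a (b (l 3) (a (l 3) (b (l 3) (a (l 3) (b (l 3) (a (l 3) (l 16436024))))))) (b (a (b (l 3) (a (l 3) (b (l 352354427671) (a (l 3) (l 43116841719))))) (b (a (a (l 360407524631) (b (l 342153900647) (l 39358791079))) (b (a (l 39358815191) (l 16538448)) (l 16542304))) (a (b (a (l 16483608) (l 16514064)) (l 16518552)) (b (l 16562472) (l 16582328))))) (a (b (a (b (l 3) (a (l 3) (l 16453048))) (b (a (l 16462520) (l 16491776)) (l 16496960))) (a (b (a (l 16423360) (l 16472128)) (l 16477648)) (l 16526776))) (b (a (l 16548784) (l 16610576)) (a (l 16585864) (a (l 16628896) (l 16655152))))))))), by decide +kernel⟩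

def k4_pm_102 : ∃ t, chk3 f_pm_102 t 28 35 1 = true :=
  ⟨(b (a (l 3) (b (l 3) (a (l 3) (b (l 3) (a (l 3) (a (l 3) (b (l 3) (c (l 16382208) (l 338932476743))))))))) (a (b (l 3) (a (l 3) (b (l 3) (a (l 3) (b (a (l 3) (c (l 392619512215) (l 394230113559))) (a (c (l 372755281575) (b (l 3) (l 366312826231))) (c (l 250885588391) (b (a (l 366849707495) (l 256791168599)) (l 234242588343))))))))) (b (a (b (l 3) (a (l 3) (b (l 3) (a (l 424294913879) (c (l 313699517367) (a (l 349133004983) (l 247127524871))))))) (b (a (a (l 3) (b (l 3) (b (l 365239126199) (l 300277760679)))) (b (a (c (l 16375896) (l 336248111127)) (l 16392312)) (a (l 16385744) (l 16406360)))) (a (a (b (c (l 323900075655) (a (l 361481019351) (l 248201276343))) (l 16352472)) (b (l 16379456) (l 16392336))) (b (l 16409224) (l 16421408))))) (a (a (c (b (b (l 417852445111) (l 349669862615)) (b (l 224578926071) (l 16362192))) (b (b (l 417852431223) (a (l 409262505671) (b (l 352354215207) (l 241758793879)))) (b (a (b (a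 (l 391545776119) (l 264844238231)) (l 238537561191)) (l 16354824)) (a (l 16350328) (l 16366080))))) (a (b (b (c (l 264844254983) (a (l 313162644919) (l 246053774023))) (l 16341352)) (l 16378904)) (b (b (l 16367728) (l 16379512)) (l 16395560)))) (b (a (b (l 16394952) (l 16406136)) (l 16437928)) (a (l 16421368) (l 16457128))))))), by decide +kernel⟩

def k5_pm_102 : ∃ t, chk3 f_pm_102 t 29 35 1 = true :=
  ⟨(a (b (b (a (b (l 3) (a (l 3) (a (l 3) (b (l 3) (l 344838109383))))) (b (a (a (l 3) (b (l 3) (l 307794045719))) (b (a (l 259475678487) (l 16454208)) (l 16459320))) (a (b (a (l 346985607095) (l 16437168)) (l 16441912)) (l 16485768)))) (a (b (a (a (l 3) (b (l 3) (l 339469373031))) (b (a (l 342153740967) (l 16421128)) (l 16425544))) (a (b (a (l 337858748471) (l 16406192)) (l 167133834903)) (l 16448504))) (b (a (l 16466608) (l 16516512)) (a (l 16495216) (l 16541992))))) (b (a (b (a (b (l 16424664) (l 16437920)) (l 16474968)) (a (l 16455832) (l 16497112))) (b (a (l 16519000)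 (l 16562264)) (a (l 16538432) (l 16578144)))) (a (b (a (l 16476448) (l 16515624)) (l 16489120)) (l 16578952)))) (b (b (a (b (a (l 16505880) (l 16561968)) (a (l 16538800) (l 16590984))) (a (b (l 16616488) (l 16637984)) (b (l 16664016) (l 16677712)))) (a (a (b (l 16565984) (l 16586928)) (b (l 16612232) (l 16627496))) (l 16667288))) (b (a (l 16624136) (l 16663320)) (l 16579736)))), by decide +kernel⟩

def k6_pm_102 : ∃ t, chk3 f_pm_102 t 30 32 1 = true :=
  ⟨(l 3), by decide +kernel⟩

def k7_pm_102 : ∃ t, chk3 f_pm_102 t 62 64 1 = true :=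
  ⟨(l 3), by decide +kernel⟩

def k8_pm_102 : ∃ t, chk3 f_pm_102 t 124 65 1 = true :=
  ⟨(b (l 3) (a (l 3) (b (l 3) (a (l 3) (b (l 3) (a (l 3) (a (b (l 3) (b (l 498383890327) (c (a (l 448454923527) (a (l 375440495959) (l 281488109927))) (l 4094023549200502294401899567)))) (c (b (b (l 3) (l 469929800663)) (b (a (b (l 466708549047) (l 371145556199)) (l 278803767191)) (l 16754400))) (b (l 7585401647136023173103770671) (l 3716838734121221029298838575)))))))))), by decide +kernel⟩

def k9_pm_102 : ∃ t, chk3 f_pm_102 t 125 130 1 = true :=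
  ⟨(a (l 3) (a (a (l 3) (l 6)) (l 6))), by decide +kernel⟩

def k10_pm_102 : ∃ t, chk3 f_pm_102 t 250 262 1 = true :=
  ⟨(a (l 3) (b (a (l 3) (b (l 3) (a (l 3) (b (l 3) (a (l 3) (c (b (l 3) (a (l 3) (c (l 438254439287) (l 440938793943)))) (l 8088315838118969230581816367))))))) (a (b (l 3) (a (b (l 3) (a (l 3) (b (l 479593499847) (c (a (l 447918114919) (l 378661766455)) (l 3581439837840220740539423791))))) (b (a (c (l 472077306935) (l 460266105799)) (c (b (a (l 3) (l 435570084039)) (a (c (l 397452248887) (l 399599732743)) (l 16778368))) (b (l 7827187458136143468750953519) (l 164987132839)))) (a (c (b (a (l 423222052807) (l 355039446183)) (l 16777968)) (l 3107540949409548985347628079)) (l 16777584))))) (a (b (b (l 494089013479) (a (b (l 3) (c (a (l 471540436295) (c (l 409263409239) (l 411947764007))) (l 3881253645748215843582811183))) (c (b (a (l 447381244679) (c (l 385641088871) (l 388325443639))) (l 16775704)) (l 4045667586903534154967391279)))) (b (c (a (b (a (l 368461219319)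 (l 16778248)) (l 16777712)) (l 16777216)) (l 601893047773580282846255)) (l 16776272))) (b (b (a (c (b (l 471003565639) (a (c (l 426443278711) (l 429127633447)) (l 349133866663))) (b (l 452213084103) (l 4393838314609806973527972911))) (b (a (c (a (l 420000827975) (l 382419863735)) (l 4364824159214429755169020975)) (l 280951260487)) (l 16778176))) (c (l 16777392) (l 16777576))) (l 16775264)))))), by decide +kernel⟩

def k11_pm_102 : ∃ t, chk3 f_pm_102 t 250 263 1 = true :=
  ⟨(a (b (a (b (l 3) (a (l 3) (b (l 3) (a (c (l 473687903207) (l 443623062631)) (c (b (l 449528718647) (l 363092508359)) (l 4152052421175799098559519791)))))) (b (a (b (l 3) (l 495699597943)) (b (a (l 3) (c (b (l 3) (l 448991857319)) (l 8039958297184230908076907567))) (a (c (b (l 467245468263) (a (l 422148310503) (l 350207607495))) (l 3968295894608643880255691823)) (c (b (a (l 397989119079) (l 16778120)) (l 16777608)) (l 182703825863))))) (a (b (a (c (b (l 3) (a (l 471003561543) (l 409263408263))) (l 7585401828432929772606528559))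 (c (b (a (l 446844372455) (l 373829927767)) (l 16777848)) (l 2894769681762892208351796271))) (c (a (l 336248961159) (l 16776776)) (l 16723112))) (c (l 16755256) (l 16750872))))) (a (b (a (b (a (l 3) (c (b (l 485499054567) (l 396378505447)) (l 3765196036689438274311773231))) (a (c (b (l 429127631319) (l 16760768)) (l 601147107560099555171375)) (l 224579778455))) (b (a (c (b (a (l 419463955431) (l 16769568)) (l 16767952)) (l 169818898199)) (l 16754904)) (l 16752448))) (l 16748472)) (b (l 16761488) (l 16759496)))) (b (a (b (a (b (c (a (b (a (l 472077306711) (l 410874021575)) (l 351818219479)) (l 16776408)) (l 4084352877919274824114986031)) (l 16775456)) (l 16754848)) (l 16773816)) (l 16750872)) (a (l 16769712) (l 601264705553569531141167)))), by decide +kernel⟩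

def k12_pm_102 : ∃ t, chk3 f_pm_102 t 251 131 1 = true :=
  ⟨(b (a (b (a (a (b (l 3) (b (a (l 3) (b (l 490867789959) (c (a (c (l 447918115383) (l 451676212663)) (c (b (l 399599733927) (l 16778896)) (l 374366800423))) (l 7266246256281439418884774959)))) (a (c (b (a (l 474761662295) (b (l 451139341719) (l 365239994967))) (a (c (l 362018768967) (l 362018769127)) (l 16778496))) (b (l 7566059798152797333897501743) (l 193978172695))) (c (b (l 331953996711) (l 16777824)) (l 16778360))))) (b (a (a (l 3) (l 6)) (l 6)) (b (a (b (c (a (c (b (l 465097985847) (l 382419864551)) (l 426980150311)) (c (l 350207608919) (l 350207609079))) (l 6947089899566865180165921839)) (l 16775912)) (l 16775384)) (l 16776936)))) (b (l 6) (l 16764496))) (a (b (b (l 16773696) (l 16774832)) (l 16772656)) (l 16770608))) (b (l 6) (a (l 602072615297922781322799) (l 6)))) (a (b (a (l 601612599617584651197999) (l 601752103119642074701359)) (l 601545441939941292989999)) (b (l 16762832) (l 16759784)))), by decide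 +kernel⟩

def k13_pm_102 : ∃ t, chk3 f_pm_102 t 63 32 1 = true :=
  ⟨(b (l 6) (a (b (l 6) (a (b (l 6) (l 16735808)) (l 6))) (l 6))), by decide +kernel⟩

def k14_pm_102 : ∃ t, chk3 f_pm_102 t 30 33 1 = true :=
  ⟨(a (b (l 3) (b (l 3) (a (l 3) (a (b (l 3) (l 512342152087)) (b (a (l 3) (l 427516606871)) (a (b (l 446307085751) (b (l 363092126439) (l 16589144))) (b (a (l 16587528) (l 16600184)) (l 16611992)))))))) (b (a (l 3) (b (l 3) (b (a (l 3) (a (b (l 3) (l 6869716091084553199307462703)) (b (a (l 484425063767) (b (l 462413377767) (l 5641447355746076047882704943))) (a (l 4674306512128167457187125295) (l 16666600))))) (a (b (l 8523524591534198710601095215) (a (l 477445672967) (l 4335806560907209404328433711))) (a (b (l 4625949206389416074501691439) (l 16658968)) (l 16679016)))))) (a (b (a (a (l 3) (b (l 3) (l 6482857638545243486450293295))) (b (a (l 3) (b (l 3) (l 5506046340683580667691538991))) (a (l 4171393439767311244519447087) (l 598874987504895419767343)))) (b (a (a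 (b (l 338932946663) (l 130627062727)) (l 598555628248119290976815)) (l 598648438429240220031535)) (a (b (l 16633448) (l 16652288)) (a (b (l 16671712) (l 16690240)) (l 16703920))))) (b (b (a (b (a (l 4142378837038390238722267183) (l 16646720)) (l 599262369130443349612591)) (a (l 600237740723340807542831) (l 600534041550024818890799))) (a (b (l 16665224) (l 599991015521354944354351)) (l 600356779868691548510255))) (a (b (l 599092889669266258860079) (l 16734752)) (l 16746424)))))), by decide +kernel⟩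

def k15_pm_102 : ∃ t, chk3 f_pm_102 t 31 33 1 = true :=
  ⟨(a (b (a (b (a (b (a (l 3) (b (l 3) (a (l 3) (l 8620241798238008346094360623)))) (b (a (l 3) (a (b (l 495162551623) (a (l 8088315029344533748668078127) (l 4606607911384973198878840879))) (b (a (l 7005117380254136299770910767) (l 4954778959891654674315942959)) (l 16693744)))) (a (a (l 8281741405159883652660713519) (b (l 6656946666094691160308127791) (l 3852237833604636505007822895))) (l 600853689037177040738351)))) (b (b (a (a (l 3) (b (l 3) (b (l 8020615138770406211438320687) (c (l 6289432973665406419266346031) (l 3968295615025179012965112879))))) (c (a (b (a (l 8359114146036882367438363695) (b (l 8010943215704655114238139439) (l 284709289591))) (l 4771021794605985903855934511)) (b (l 231559104455) (l 16749384))) (a (b (a (l 6753660690735148080810187823) (l 4335808850321087177544997935)) (l 601135290114677296159791)) (l 600890006064572215794735)))) (a (c (a (b (l 7778829984070852413358726191) (a (l 6115347811861763692331834415)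 (l 16717712))) (b (l 4858064619927166243946355759) (l 16727080))) (a (b (l 6995445843128858869641583663) (l 3165568482842978940734708783)) (l 3378339899504740188164594735))) (l 16711224))) (a (b (l 601007315827665941781551) (l 16719400)) (b (l 599613721958972465437743) (l 16742048))))) (a (b (a (b (l 4055337383693800380870613039) (l 16687112)) (l 599972857007657439926319)) (a (l 599975739311418951342127) (l 600510406659180425680943))) (b (a (l 599689814778276507884591) (l 16751952)) (l 16752960)))) (b (a (b (a (b (l 16752992) (l 599790983640305802828847)) (b (l 600288469269543678745647) (l 16760352))) (a (l 599737372790341592570927) (l 16755936))) (l 599936251749886225260079)) (a (l 16749960) (l 600193641475789726637615)))) (a (b (b (a (l 16740752) (l 16748256)) (l 16744928)) (l 16714912)) (b (a (l 16738816) (l 16720712)) (a (l 16734144) (l 16746416))))) (a (b (a (b (l 600791863081013890248303) (l 16728928)) (l 601438652048603043327599)) (a (l 16736848) (l 16723840)))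 (b (a (l 143532343740465263) (l 6)) (a (l 16702368) (l 16681496))))), by decide +kernel⟩

def k16_pm_102 : ∃ t, chk3 f_pm_102 t 15 17 1 = true :=
  ⟨(a (b (a (b (a (b (b (l 3) (a (l 3) (b (a (l 3) (l 317994911751)) (a (l 335711628471) (l 16569872))))) (b (a (a (b (l 3) (l 367386962871)) (b (l 351817731719) (l 16545392))) (b (l 16568168) (l 16592432))) (a (b (a (l 16532560) (l 16563912)) (l 16567312)) (l 16621752)))) (b (a (b (a (b (l 3) (l 347522834295)) (b (a (l 482277446391) (l 16581768)) (l 16592776))) (a (l 16591096) (l 16621744))) (b (a (l 16612528) (l 16640728)) (a (l 16651488) (l 16680344)))) (a (b (a (l 16629936) (l 16661080)) (a (l 16669640) (b (l 16690376) (l 16706800)))) (b (a (b (l 16681056) (l 16699984)) (l 16715344)) (l 16734184))))) (a (b (b (a (l 16597120) (a (l 16644992) (b (l 16666728) (l 16684432)))) (a (b (l 16626440) (l 16645056)) (a (b (l 16672464) (l 16686736)) (l 16704672)))) (a (b (a (l 16675880) (l 16680488)) (l 16689648)) (l 16719312))) (b (a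 (b (a (l 16702888) (l 16727600)) (l 16735976)) (l 16748088)) (l 16716200)))) (b (a (b (a (b (a (l 16667864) (b (l 16684248) (l 16702480))) (a (b (l 16696808) (l 16713776)) (l 16726456))) (a (b (l 16714952) (l 16743952)) (l 16745896))) (a (l 16754072) (l 16744376))) (b (l 16739128) (l 16729632))) (a (a (l 16741384) (l 16731952)) (b (l 16723784) (l 16700448))))) (a (a (b (l 16703528) (l 16693440)) (b (l 16706304) (a (l 16713024) (l 16723304)))) (a (b (a (l 16729224) (l 16703104)) (a (l 16727976) (l 16734200))) (b (l 16685872) (l 16748064))))) (a (b (a (b (a (b (l 16728400) (l 16723112)) (b (l 16727776) (l 16730600))) (a (l 16707704) (l 16742720))) (b (l 16728376) (l 16716088))) (b (l 16640960) (l 16625224))) (b (b (a (l 16682456) (l 16637128)) (a (l 16669040) (l 16642608))) (a (l 16571120) (b (l 16604104) (l 16564120)))))), by decide +kernel⟩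

def k17_pm_102 : ∃ t, chk3 f_pm_102 t 6 18 1 = true :=
  ⟨(a (b (l 3) (a (l 3) (b (l 3) (b (l 3) (a (l 3) (l 16414952)))))) (b (a (l 3) (b (a (l 3) (b (l 3) (a (l 3) (b (l 3) (a (l 414094282775) (b (a (l 416241781367) (b (l 348059178279) (l 16314280))) (a (l 175723626695) (l 16320160)))))))) (a (b (l 3) (a (l 3) (b (a (l 3) (l 302962015015)) (a (l 16326680) (l 16328808))))) (b (a (b (a (l 3) (l 332489832023)) (a (l 298130115559) (b (l 16291888) (l 16319792)))) (b (a (b (a (l 360407174375) (l 16312888)) (l 16316968)) (l 16327176)) (l 16291552))) (a (b (a (l 16321496) (l 16329168)) (l 16336832)) (b (l 16345960) (l 16357608))))))) (a (a (b (l 3) (b (a (l 3) (l 16373560)) (a (l 16391616) (l 16390656)))) (b (b (l 272897260455) (a (l 16360552) (b (l 16348960) (l 16355584)))) (b (a (l 16369024) (l 16374808)) (l 16400608)))) (b (a (b (a (b (l 219747069543) (l 16341064)) (b (l 16336528) (l 16346568))) (a (l 16355776) (l 16363040))) (b (a (l 16353288) (b (l 16368520) (a (l 16372512)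 (l 16385264)))) (a (b (l 16368136) (l 16376672)) (b (a (l 16381680) (l 16396272)) (l 16400216))))) (a (b (a (l 16380528) (b (l 16377640) (l 16384768))) (a (b (l 16396328) (l 16402104)) (b (a (l 16391680) (l 16394744)) (l 16403272)))) (b (a (b (a (l 16381616) (l 16390504)) (l 16396664)) (l 16417448)) (l 16421840))))))), by decide +kernel⟩

def k18_pm_102 : ∃ t, chk3 f_pm_102 t 6 19 1 = true :=
  ⟨(a (b (b (a (l 3) (a (b (l 3) (a (l 16471648) (b (l 16448536) (l 16460576)))) (b (a (l 16425800) (l 16416936)) (a (l 16450976) (l 16453504))))) (a (b (a (l 3) (a (l 3) (l 16506208))) (a (l 35600751527) (a (l 58686155511) (l 16536328)))) (b (a (a (l 16473808) (l 16491600)) (l 16490168)) (a (l 16530432) (l 16510152))))) (a (b (a (b (a (l 16576080) (l 16564336)) (l 16621888)) (b (l 16574928) (l 16592464))) (a (b (l 16631696) (l 16631856)) (b (l 16593608) (l 16601176)))) (b (a (b (l 16551488) (l 16554528)) (b (l 16517256) (l 16531328))) (a (b (l 16565544) (l 16579088)) (l 16554968)))))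 (b (a (b (a (b (l 16422040) (l 16455976)) (b (a (l 16427912) (l 16420520)) (a (l 16442112) (l 16436072)))) (a (b (a (l 16479216) (l 16464232)) (l 16484088)) (b (l 16456728) (l 16475368)))) (a (b (b (a (b (l 16409952) (l 16419576)) (l 16419536)) (l 16436824)) (l 16451448)) (l 16383584))) (a (b (a (l 16509296) (l 16491176)) (l 16520696)) (a (l 16470760) (l 16460288))))), by decide +kernel⟩

def k19_pm_102 : ∃ t, chk3 f_pm_102 t 28 18 1 = true :=
  ⟨(b (b (a (b (a (b (l 3) (a (l 3) (b (a (l 3) (c (l 330342444359) (b (l 407651862487) (l 298130207287)))) (a (c (l 326047476471) (b (l 397451312807) (l 261086097207))) (c (l 16326816) (b (l 217599565031) (l 16326632))))))) (b (a (b (a (l 3) (c (l 352354180791) (b (l 3) (l 360407241031)))) (a (c (l 343764240855) (b (l 3) (l 349669818407))) (c (l 16332552) (b (a (l 325510621815) (l 16329632)) (l 16331536))))) (a (b (c (l 244980003495) (b (a (l 344301123287) (l 247127486775)) (l 221357681639))) (l 16344088)) (b (c (l 16349976) (l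 16346192)) (l 16357944)))) (a (b (a (c (l 16329488) (b (a (l 306720136839) (l 16327016)) (l 16328888))) (l 16340448)) (c (l 16344280) (l 16342152))) (b (l 16360224) (l 16368896))))) (a (b (a (b (a (l 3) (b (l 379734573879) (l 228873843735))) (a (b (l 360407205447) (l 197735331847)) (l 16322000))) (b (a (c (l 16324552) (l 175186764679)) (l 16334376)) (l 16337216))) (a (b (l 16325360) (l 16332968)) (l 16348784))) (b (a (b (l 16351752) (l 16359752)) (l 16380952)) (a (l 16370952) (l 16395616))))) (b (a (b (a (b (l 16370328) (l 16379760)) (l 16406272)) (a (l 16392760) (l 16422992))) (b (l 16414448) (a (l 16455080) (l 16488784)))) (a (b (l 16401984) (a (l 16422608) (l 16451840))) (a (b (l 16469536) (l 16483328)) (l 16508696))))) (a (b (a (b (a (l 16343664) (l 16362888)) (l 16366040)) (b (l 16396616) (a (l 16397512) (l 16421672)))) (a (b (l 16378224) (a (l 16380584) (l 16399224))) (b (a (l 16409432) (l 16434616)) (l 16413672)))) (b (a (a (b (l 16435848) (l 16449160)) (l 16472048))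 (l 16507648)) (l 16473056)))) (b (a (b (a (b (a (l 16391144) (l 16411256)) (a (l 16402664) (l 16423664))) (l 16448920)) (l 16443584)) (l 16477520)) (a (l 16453048) (l 16501968)))), by decide +kernel⟩

def k20_pm_102 : ∃ t, chk3 f_pm_102 t 29 18 1 = true :=
  ⟨(b (a (b (a (b (a (l 16516552) (l 16549424)) (l 16543912)) (l 16582616)) (l 16521088)) (a (l 16617080) (b (l 16654352) (l 16651040)))) (a (a (l 16545728) (l 16580760)) (a (b (l 16613824) (l 16620920)) (b (l 16634928) (l 16680200))))), by decide +kernel⟩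

def k21_pm_102 : ∃ t, chk3 f_pm_102 t 14 19 1 = true :=
  ⟨(a (b (a (l 16464360) (b (l 16505040) (l 16511936))) (a (b (l 16473464) (l 16466288)) (b (a (l 16505528) (l 16542576)) (l 16557424)))) (b (a (b (a (l 16549040) (l 16589168)) (l 16506344)) (l 16570768)) (a (l 16563712) (l 16592424)))), by decide +kernel⟩

def k22_pm_102 : ∃ t, chk3 f_pm_102 t 15 9 1 = true :=
  ⟨(a (b (a (b (a (b (l 16688192) (l 16649552)) (b (a (l 16691344) (l 16731472)) (l 16741512))) (a (l 16685712) (l 16640392))) (b (a (l 16698816) (l 16671296)) (a (l 16619928) (l 16612376)))) (a (b (a (l 16669112) (l 16578544)) (a (l 16582512) (l 16513152))) (b (a (l 16557760) (l 16528976)) (a (l 16471752) (l 16443448))))) (b (a (b (a (l 16611072) (l 16563624)) (l 16422656)) (a (l 140928562103681135) (b (l 16481368) (l 16418432)))) (a (b (l 16443824) (l 16380160)) (b (l 16297696) (l 16277552))))), by decide +kernel⟩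

def k23_pm_102 : ∃ t, chk3 f_pm_102 t 6 5 1 = true :=
  ⟨(a (b (b (b (a (b (a (b (l 16636528) (l 16647656)) (l 16620488)) (l 16655248)) (a (l 16614944) (l 16591528))) (b (a (l 16677992) (l 16629856)) (a (b (l 16693624) (l 16640824)) (b (l 16639376) (b (l 16630432) (a (l 16670544) (l 16652608))))))) (a (l 16735456) (l 16639376))) (a (l 16741040) (a (l 16698848) (l 16699960)))) (b (b (b (a (l 16539832) (a (b (l 16485896) (l 16499992)) (b (l 16477488) (l 16504680)))) (a (b (a (l 16574008) (l 16545864)) (b (a (l 16590448) (l 16579240)) (b (l 16620728) (l 16620304)))) (b (a (l 16513024) (l 16566232)) (b (l 16564264) (b (l 16586080) (a (l 16603832) (l 16629664))))))) (a (l 16665944) (a (l 16647800) (l 16671856)))) (a (l 16726800) (a (l 16756688) (l 16762912))))), by decide +kernel⟩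

def k24_pm_102 : ∃ t, chk3 f_pm_102 t 7 5 1 = true :=
  ⟨(a (b (b (b (a (a (b (l 16514176) (l 16566968)) (l 16567192)) (a (l 16668336) (a (l 16644936) (l 16567152)))) (a (b (l 16519912) (b (l 16613584) (b (l 16650312) (l 16565248)))) (b (a (l 16682720) (l 16530888)) (a (b (l 16638360) (b (l 16609160) (l 16588352))) (b (l 16488264) (b (l 16460792) (l 16441328))))))) (a (a (l 16741576) (l 16672176)) (a (l 16536152) (l 16386624)))) (a (a (l 16677640) (l 16537064)) (a (l 16413968) (l 16255688)))) (a (b (b (b (a (a (l 16491272) (l 16422920)) (a (l 16382712) (l 16355752))) (a (b (l 16276488) (b (l 16320008) (b (l 16315640) (a (l 16333872) (l 16270224))))) (b (l 16299232) (b (l 16261640) (b (l 16238832) (l 16222936)))))) (a (l 16156560) (l 16162784))) (a (a (l 16139064) (l 16069112)) (a (l 16027552) (l 15999504)))) (b (b (b (a (l 16294816) (l 16195960)) (b (a (l 16230224) (l 16135976)) (b (a (l 16195928) (l 16105568)) (b (l 16006984) (a (l 16162472) (l 16078312)))))) (a (l 16099384)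 (l 16012016))) (a (l 15937568) (b (l 15894008) (l 15787472)))))), by decide +kernel⟩

def k25_pm_102 : ∃ t, chk3 f_pm_102 t 3 3 1 = true :=
  ⟨(a (a (b (b (a (l 16645392) (a (l 16696384) (l 16702600))) (a (l 2) (l 16623584))) (l 2)) (b (a (b (l 16720216) (l 16640000)) (b (l 16675184) (l 16586024))) (a (l 2) (b (l 16519024) (l 2))))) (a (b (a (b (l 16284496) (l 16350176)) (b (a (l 16272472) (l 16103376)) (a (l 16158104) (l 15979584)))) (a (b (l 16316000) (l 2)) (b (l 15786760) (l 15916872)))) (a (b (a (b (a (l 15977952) (l 15901808)) (l 15612816)) (b (a (l 15853776) (l 15818984)) (l 15689040))) (a (b (l 15699528) (l 15631384)) (b (l 15576800) (l 15499832)))) (b (b (a (l 15745344) (b (l 15691240) (l 15603032))) (a (b (l 15623088) (l 15556048)) (l 15484400))) (b (a (l 15475720) (l 15357128)) (a (l 15395464) (l 15265464))))))), by decide +kernel⟩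

theorem s26_pm_102 : ∃ t, chk3 f_pm_102 t 3 5 1 = true := ex3_a k23_pm_102 k24_pm_102

theorem s27_pm_102 : ∃ t, chk3 f_pm_102 t 14 18 1 = true := ex3_a k19_pm_102 k20_pm_102

theorem s28_pm_102 : ∃ t, chk3 f_pm_102 t 14 9 1 = true := ex3_b s27_pm_102 k21_pm_102

theorem s29_pm_102 : ∃ t, chk3 f_pm_102 t 7 9 1 = true := ex3_a s28_pm_102 k22_pm_102

theorem s30_pm_102 : ∃ t, chk3 f_pm_102 t 6 9 1 = true := ex3_b k17_pm_102 k18_pm_102

theorem s31_pm_102 : ∃ t, chk3 f_pm_102 t 3 9 1 = true := ex3_a s30_pm_102 s29_pm_102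

theorem s32_pm_102 : ∃ t, chk3 f_pm_102 t 15 33 1 = true := ex3_a k14_pm_102 k15_pm_102

theorem s33_pm_102 : ∃ t, chk3 f_pm_102 t 250 131 1 = true := ex3_b k10_pm_102 k11_pm_102

theorem s34_pm_102 : ∃ t, chk3 f_pm_102 t 125 131 1 = true := ex3_a s33_pm_102 k12_pm_102

theorem s35_pm_102 : ∃ t, chk3 f_pm_102 t 125 65 1 = true := ex3_b k9_pm_102 s34_pm_102

theorem s36_pm_102 : ∃ t, chk3 f_pm_102 t 62 65 1 = true := ex3_a k8_pm_102 s35_pm_102

theorem s37_pm_102 : ∃ t, chk3 f_pm_102 t 62 32 1 = true := ex3_b k7_pm_102 s36_pm_102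

theorem s38_pm_102 : ∃ t, chk3 f_pm_102 t 31 32 1 = true := ex3_a s37_pm_102 k13_pm_102

theorem s39_pm_102 : ∃ t, chk3 f_pm_102 t 15 32 1 = true := ex3_a k6_pm_102 s38_pm_102

theorem s40_pm_102 : ∃ t, chk3 f_pm_102 t 15 16 1 = true := ex3_b s39_pm_102 s32_pm_102

theorem s41_pm_102 : ∃ t, chk3 f_pm_102 t 15 8 1 = true := ex3_b s40_pm_102 k16_pm_102

theorem s42_pm_102 : ∃ t, chk3 f_pm_102 t 14 35 1 = true := ex3_a k4_pm_102 k5_pm_102

theorem s43_pm_102 : ∃ t, chk3 f_pm_102 t 14 17 1 = true := ex3_b k3_pm_102 s42_pm_102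

theorem s44_pm_102 : ∃ t, chk3 f_pm_102 t 14 8 1 = true := ex3_b k2_pm_102 s43_pm_102

theorem s45_pm_102 : ∃ t, chk3 f_pm_102 t 7 8 1 = true := ex3_a s44_pm_102 s41_pm_102

theorem s46_pm_102 : ∃ t, chk3 f_pm_102 t 3 8 1 = true := ex3_a k1_pm_102 s45_pm_102

theorem s47_pm_102 : ∃ t, chk3 f_pm_102 t 3 4 1 = true := ex3_b s46_pm_102 s31_pm_102

theorem s48_pm_102 : ∃ t, chk3 f_pm_102 t 3 2 1 = true := ex3_b s47_pm_102 s26_pm_102

theorem s49_pm_102 : ∃ t, chk3 f_pm_102 t 3 1 1 = true := ex3_b s48_pm_102 k25_pm_102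

theorem s50_pm_102 : ∃ t, chk3 f_pm_102 t 1 1 1 = true := ex3_a k0_pm_102 s49_pm_102

theorem c_pm_102 : CertB 536870912 536870912 0 536870912 1033476505 6710887 3 eng mog cd0q1 cd1q0 pd2 true true false .npp 1 0 2
    ndB0q1 ndB1q0 pcB2 cut_pm_102 xt_pm_102 :=
  certB1 (fam := true) (s1 := true) (s2 := false) (a := 1) (b := 0) (c := 2) (cn := .npp) (n1 := ndB0q1) (n2 := ndB1q0) (pc := pcB2) (cut := cut_pm_102) (xt := xt_pm_102) (P1 := 536870912) (W1 := 536870912) (P2 := 0) (W2 := 536870912) (P3 := 1033476505) (W3 := 6710887) (N0 := 3) (En := eng) (mo := mog) (C1 := cd0q1) (C2 := cd1q0) (C3 := pd2)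
    rfl (fun _ => rfl) s50_pm_102

noncomputable def f_pm_112 : ℕ → ℕ → ℕ → ℕ → Bool := onCell 536870912 536870912 1073741824 536870912 1033476505 6710887
    (rowB 3 eng mog cd0q1 cd1q1 pd2 1 true true false .dn 1 1 2 (qsf 536870912 536870912 536870912 536870912 2) ndB0q1 ndB1q1 pcB2 Cut.none Ext.none)

def k0_pm_112 : ∃ t, chk3 f_pm_112 t 4 4 1 = true :=
  ⟨(l 3), by decide +kernel⟩

def k1_pm_112 : ∃ t, chk3 f_pm_112 t 4 40 1 = true :=
  ⟨(a (l 3) (b (l 3) (a (l 3) (a (l 3) (b (l 3) (l 240683345095)))))), by decide +kernel⟩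

def k2_pm_112 : ∃ t, chk3 f_pm_112 t 4 41 1 = true :=
  ⟨(b (a (a (l 3) (l 3)) (a (b (l 3) (a (b (l 3) (a (b (l 3) (l 15640424)) (b (l 15613384) (l 15616536)))) (b (a (l 15585688) (l 15564544)) (a (l 15592352) (l 15570784))))) (b (a (b (l 3) (l 262695219655)) (b (l 15487168) (l 15494392))) (a (b (l 15556152) (l 15540592)) (b (l 15500264) (l 15504416)))))) (b (a (a (b (l 3) (a (l 3) (a (a (l 81770240151) (l 82307086167)) (a (l 82307055175) (l 82307024807))))) (b (a (b (l 3) (a (l 3) (l 105392380279))) (b (a (a (l 3) (l 168743058855)) (a (l 15674896) (l 15662064))) (a (l 80696262263) (l 15671272)))) (a (a (a (l 82306994903) (l 15751224)) (a (l 15736912) (l 15722832))) (a (l 15702184) (l 15675512))))) (a (b (a (a (b (l 15643304) (l 15645920)) (b (l 15619200) (l 15621616))) (a (l 15597328) (l 15575296))) (a (a (l 15649856) (l 15625248)) (l 15590360))) (b (a (l 15544384) (l 15507232)) (a (l 15547720) (l 15509912))))) (a (a (a (a (b (l 80696593367) (l 15899000)) (b (c (l 15860832)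 (l 15855048)) (l 15865984))) (a (b (a (l 15834032) (l 15818368)) (l 15833840)) (b (a (l 15802928) (l 15787712)) (l 15802584)))) (a (a (b (l 15765328) (l 15772240)) (b (l 15736304) (l 15742832))) (a (l 15711312) (b (l 15681176) (b (b (b (l 15684384) (b (l 15684928) (l 15685368))) (l 15686304)) (l 15688472)))))) (a (b (a (l 15642496) (b (l 15593536) (l 15596016))) (a (b (b (b (l 15645448) (b (a (l 15658712) (l 15634040)) (a (l 15659632) (l 15635704)))) (l 15649000)) (l 15650920)) (b (b (a (b (l 15609312) (l 15612088)) (l 15589376)) (l 15603408)) (l 15605048)))) (b (a (b (l 15550384) (l 15553688)) (b (l 15512976) (l 15517648))) (a (a (l 15591336) (l 15550968)) (a (l 15532744) (l 15515736)))))))), by decide +kernel⟩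

def k3_pm_112 : ∃ t, chk3 f_pm_112 t 4 21 1 = true :=
  ⟨(a (a (b (a (b (a (l 15920400) (l 15886464)) (l 15937872)) (b (a (l 15853392) (l 15821208)) (l 15868800))) (a (l 15992120) (l 15918704))) (b (a (b (a (l 15789928) (l 15759576)) (l 15803272)) (b (a (l 15730176) (l 15701824)) (l 15741464))) (a (l 15848760) (l 15782464)))) (a (a (b (b (l 15620768) (l 15684744)) (l 15720696)) (b (a (l 15636360) (l 15612928)) (l 15665272))) (b (a (a (l 15590608) (l 15569424)) (b (l 15533568) (l 15546488))) (a (l 15614656) (l 15568520))))), by decide +kernel⟩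

def k4_pm_112 : ∃ t, chk3 f_pm_112 t 4 11 1 = true :=
  ⟨(a (a (b (a (l 16046448) (l 15964568)) (l 16089832)) (b (a (l 15886016) (l 15852888)) (l 15868912))) (a (b (a (l 15802672) (l 15736896)) (a (l 15931960) (l 15853184))) (b (a (l 15677320) (l 15601240)) (l 15641736)))), by decide +kernel⟩

def k5_pm_112 : ∃ t, chk3 f_pm_112 t 5 2 1 = true :=
  ⟨(a (b (l 3) (a (b (b (b (b (l 3) (b (a (l 3) (l 1)) (a (c (b (a (l 3) (a (l 239072669687) (a (b (l 3) (l 253568183575)) (l 412884611191)))) (a (l 15463528) (b (l 97204537191) (l 15453832)))) (b (l 246051974311) (l 15447208))) (a (b (l 1) (l 414495217495)) (l 1))))) (b (b (a (b (a (l 15466048) (l 15453960)) (l 15465920)) (a (b (l 315710998279) (l 15447936)) (l 1))) (a (b (l 15470272) (l 15473136)) (b (l 113310670679) (l 115995027687)))) (b (b (a (l 15474968) (l 96130812887)) (a (l 15477960) (l 15452776))) (b (a (l 15485136) (l 15459856)) (a (a (l 15499968) (l 15485456)) (l 15466160)))))) (a (b (a (l 15512976) (l 15496616)) (l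 15527080)) (b (l 15474504) (l 15490536)))) (b (b (l 15512376) (l 15564248)) (l 15621760))) (b (b (b (l 1) (b (l 1) (b (l 1) (b (l 1) (a (l 15445072) (l 1)))))) (a (b (l 15449592) (l 15459120)) (l 70361058407))) (b (a (l 15484680) (l 15448624)) (l 15515016))))) (b (l 1) (b (b (l 1) (a (a (l 256655203687) (l 1)) (l 1))) (a (b (a (l 15416456) (l 15387720)) (l 15404192)) (b (l 245917741511) (l 15350112)))))), by decide +kernel⟩

def k6_pm_112 : ∃ t, chk3 f_pm_112 t 2 3 1 = true :=
  ⟨(a (b (a (b (a (b (l 16319736) (b (l 16577136) (l 16683688))) (b (l 16183208) (l 16349408))) (a (b (l 16724048) (l 16590936)) (b (b (l 16543440) (l 16671120)) (l 16748168)))) (b (a (b (l 16037912) (l 16204944)) (b (l 15867144) (l 16010952))) (a (b (l 16370792) (l 16542224)) (b (l 16176888) (l 16363472))))) (a (b (a (b (l 16411064) (l 16239976)) (l 16226968)) (a (b (l 16081856) (l 15946400)) (b (l 16216256) (l 16057928)))) (b (a (b (l 16736992) (l 16526824)) (b (a (l 16629400) (l 16506888)) (l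 16716432))) (a (l 16025144) (l 16264456))))) (b (a (b (a (b (l 15718528) (l 15837872)) (b (l 15587856) (l 15684344))) (a (b (l 15979288) (l 16143280)) (l 15641512))) (b (a (b (l 15473512) (l 15546488)) (b (l 15374032) (l 15423472))) (a (l 15512528) (l 15502992)))) (a (b (a (l 16177696) (l 15986600)) (a (l 16431304) (b (l 16468792) (l 16623024)))) (b (a (l 15900792) (l 15788448)) (a (l 16136944) (l 16053664)))))), by decide +kernel⟩

def k7_pm_112 : ∃ t, chk3 f_pm_112 t 3 1 1 = true :=
  ⟨(b (b (l 1) (a (a (b (l 1) (a (l 244306845111) (l 1))) (l 1)) (l 1))) (b (a (a (b (a (l 15300992) (a (b (l 15242680) (l 15247576)) (b (l 1) (l 15235408)))) (a (l 15403624) (a (l 15307984) (l 15266944)))) (a (b (l 219610883367) (l 15300200)) (b (l 1) (l 103109771207)))) (a (a (b (l 1) (l 280277330727)) (l 1)) (l 1))) (a (a (b (a (l 15605656) (b (l 15392336) (l 15492544))) (a (l 15898424) (l 15691080))) (a (b (l 15212048) (a (l 15563800) (l 15551080))) (b (l 15439312) (l 15571744)))) (a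 (a (b (l 15534000) (l 15615816)) (b (l 256118417655) (l 15690520))) (a (a (b (l 15804968) (l 15772168)) (b (l 1) (l 15840968))) (b (l 1) (l 269003778951))))))), by decide +kernel⟩

theorem s8_pm_112 : ∃ t, chk3 f_pm_112 t 4 20 1 = true := ex3_b k1_pm_112 k2_pm_112

theorem s9_pm_112 : ∃ t, chk3 f_pm_112 t 4 10 1 = true := ex3_b s8_pm_112 k3_pm_112

theorem s10_pm_112 : ∃ t, chk3 f_pm_112 t 4 5 1 = true := ex3_b s9_pm_112 k4_pm_112

theorem s11_pm_112 : ∃ t, chk3 f_pm_112 t 4 2 1 = true := ex3_b k0_pm_112 s10_pm_112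

theorem s12_pm_112 : ∃ t, chk3 f_pm_112 t 2 2 1 = true := ex3_a s11_pm_112 k5_pm_112

theorem s13_pm_112 : ∃ t, chk3 f_pm_112 t 2 1 1 = true := ex3_b s12_pm_112 k6_pm_112

theorem s14_pm_112 : ∃ t, chk3 f_pm_112 t 1 1 1 = true := ex3_a s13_pm_112 k7_pm_112

theorem c_pm_112 : CertB 536870912 536870912 536870912 536870912 1033476505 6710887 3 eng mog cd0q1 cd1q1 pd2 true true false .dn 1 1 2
    ndB0q1 ndB1q1 pcB2 Cut.none Ext.none :=
  certB1 (fam := true) (s1 := true) (s2 := false) (a := 1) (b := 1) (c := 2) (cn := .dn) (n1 := ndB0q1) (n2 := ndB1q1) (pc := pcB2) (cut := Cut.none) (xt := Ext.none) (P1 := 536870912) (W1 := 536870912) (P2 := 536870912) (W2 := 536870912) (P3 := 1033476505) (W3 := 6710887) (N0 := 3) (En := eng) (mo := mog) (C1 := cd0q1) (C2 := cd1q1) (C3 := pd2)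
    rfl (fun _ => rfl) s14_pm_112

noncomputable def xt_pm_113 : Ext := extD3 3 ⟨4, 1, 1, 5, 27, 5, 41, 50, 81, 200, 1, 64⟩ eng cd0q1 cd1q1 pd3 true true false .nn 1 1 3 rfl ndB0q1 ndB1q1 pcB3

noncomputable def f_pm_113 : ℕ → ℕ → ℕ → ℕ → Bool := onCell 536870912 536870912 536870912 536870912 1033476505 6710887
    (rowB 3 eng mog cd0q1 cd1q1 pd3 0 true true false .nn 1 1 3 (qsf 536870912 536870912 536870912 536870912 3) ndB0q1 ndB1q1 pcB3 Cut.none xt_pm_113)

def k0_pm_113 : ∃ t, chk3 f_pm_113 t 2 1 1 = true :=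
  ⟨(b (a (l 1) (b (l 1) (a (l 1) (b (l 1) (a (l 1) (l 16068568)))))) (a (b (b (l 1) (a (l 1) (b (l 1) (l 16464944)))) (b (a (b (l 1) (a (l 1) (l 16168136))) (b (l 16313496) (a (l 16125096) (l 16128384)))) (a (b (l 15976704) (l 15724040)) (b (a (l 15968728) (l 15965696)) (l 15718776))))) (b (a (b (b (l 1) (l 192232527831)) (b (l 16498216) (l 16298936))) (b (a (b (l 16230848) (l 16414264)) (l 16376360)) (a (l 16300752) (b (l 16515560) (l 16320144))))) (b (a (a (l 16063104) (l 16030232)) (a (l 16047032) (l 16037552))) (a (b (a (l 15903632) (l 15860432)) (l 15540280)) (b (a (l 15848112) (l 15800688)) (a (l 15653192) (l 15624280)))))))), by decide +kernel⟩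

def k1_pm_113 : ∃ t, chk3 f_pm_113 t 3 2 1 = true :=
  ⟨(a (a (b (l 1) (b (a (l 1) (l 15928888)) (a (l 16135664) (l 16210128)))) (b (a (l 1) (b (l 1) (l 15814872))) (a (b (l 15994312) (l 16222168)) (b (l 16045752) (l 16326632))))) (a (b (a (b (l 1) (l 15858272)) (b (l 15769192) (l 15873248))) (a (b (l 16059480) (l 16307336)) (b (l 16026384) (l 16220280)))) (a (b (a (b (l 15798192) (l 15867720)) (b (l 15821488) (l 15884872))) (a (b (l 15985312) (l 16138056)) (b (l 15996480) (l 16140400)))) (b (b (l 15806528) (l 15967016)) (b (l 16056552) (b (l 16082904) (l 15971064))))))), by decide +kernel⟩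

def k2_pm_113 : ∃ t, chk3 f_pm_113 t 6 3 1 = true :=
  ⟨(b (a (b (a (l 16429088) (l 16465856)) (a (l 16192520) (l 16462880))) (a (b (b (l 16526784) (l 16689824)) (l 16437992)) (b (l 16411880) (a (l 16433304) (l 16390192))))) (a (b (a (b (l 16122400) (l 15927840)) (b (l 16139584) (l 15926032))) (b (a (l 15762736) (l 15736824)) (a (l 15626600) (l 15587128)))) (b (a (l 15984336) (a (l 16040416) (l 15969312))) (a (b (l 15731872) (l 15555144)) (b (l 15732872) (a (l 15543600) (l 15538960))))))), by decide +kernel⟩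

def k3_pm_113 : ∃ t, chk3 f_pm_113 t 7 3 1 = true :=
  ⟨(b (a (a (b (l 16446928) (l 16219912)) (b (l 16171176) (a (l 16076248) (l 15936552)))) (a (b (a (a (l 16088472) (l 16016416)) (l 15949560)) (a (b (l 15858752) (l 15743600)) (l 15641024))) (b (a (l 15863064) (l 15754464)) (b (l 15668824) (l 15602608))))) (a (b (a (a (l 15954752) (l 15879016)) (a (l 15790560) (b (l 15751504) (l 15645344)))) (a (b (a (l 15688856) (l 15639808)) (a (l 15518912) (l 15494560))) (a (b (l 15593744) (l 15484496)) (b (l 15564080) (l 15524696))))) (b (a (a (b (l 15646424) (l 15579864)) (b (l 15607192) (l 15583768))) (b (l 15579592) (a (l 15622640) (l 15670280)))) (a (b (a (l 15566912) (l 15653392)) (a (l 15656616) (b (l 15834832) (a (b (l 15906032) (b (l 16003928) (l 16082984))) (b (l 16134984) (l 16356120)))))) (b (a (l 15813736) (b (l 15908520) (a (b (l 16062752) (l 16269664)) (b (l 16244176) (l 16544960))))) (a (b (a (b (l 16031032) (l 16212048)) (b (l 16259464) (l 16548752))) (a (b (l 16470696)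 (l 16596200)) (b (l 16669640) (a (l 16631184) (l 16635344))))) (b (a (b (l 16574088) (a (l 16734560) (l 16754728))) (b (a (l 16808960) (l 16801104)) (a (l 16763440) (b (l 16770424) (l 16743680))))) (a (b (a (l 16703560) (a (l 16714992) (l 16714360))) (b (a (l 16680496) (l 540543788670440544181791)) (a (a (l 16657568) (l 16652280)) (b (l 16665672) (b (l 16656616) (l 16649032)))))) (b (b (a (l 16723880) (a (l 16718344) (l 16696552))) (a (l 543704234744944076676639) (a (l 16712408) (l 4)))) (a (b (b (l 16692632) (l 228404617831)) (l 4)) (l 4))))))))))), by decide +kernel⟩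

theorem s4_pm_113 : ∃ t, chk3 f_pm_113 t 3 3 1 = true := ex3_a k2_pm_113 k3_pm_113

theorem s5_pm_113 : ∃ t, chk3 f_pm_113 t 3 1 1 = true := ex3_b k1_pm_113 s4_pm_113

theorem s6_pm_113 : ∃ t, chk3 f_pm_113 t 1 1 1 = true := ex3_a k0_pm_113 s5_pm_113

theorem c_pm_113 : CertB 536870912 536870912 536870912 536870912 1033476505 6710887 3 eng mog cd0q1 cd1q1 pd3 true true false .nn 1 1 3
    ndB0q1 ndB1q1 pcB3 Cut.none xt_pm_113 :=
  certB0 (fam := true) (s1 := true) (s2 := false) (a := 1) (b := 1) (c := 3) (cn := .nn) (n1 := ndB0q1) (n2 := ndB1q1) (pc := pcB3) (cut := Cut.none) (xt := xt_pm_113) (P1 := 536870912) (W1 := 536870912) (P2 := 536870912) (W2 := 536870912) (P3 := 1033476505) (W3 := 6710887) (N0 := 3) (En := eng) (mo := mog) (C1 := cd0q1) (C2 := cd1q1) (C3 := pd3)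
    rfl s6_pm_113

end Pool.Agent.Strip051.G.I9625_9688.Tab.C.BA01

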