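import Pool.Agent.Strip051.G.I9625_9688.Tab
import Pool.Agent.Strip051.PB.ExtD3

/-! # Certificates B6 (generated) -/

set_option linter.all false
set_option maxRecDepth 100000

namespace Pool.Agent.Strip051.G.I9625_9688.Tab.C.BA01

open Pool.Agent.Strip051.PB Pool.Agent.Strip051.PB.T
open Pool.Agent.Strip051.G.I9625_9688.Tab

noncomputable def cut_pm_123_a : Cut := Cut.of [[⟨0, 1, 0, 20971520⟩, ⟨1, 1, 0, 20971520⟩, ⟨2, 2, 0, 1572864⟩], [⟨0, 0, 1, 46137344⟩, ⟨1, 1, 0, 1048576⟩, ⟨2, 1, 1, 46137344⟩, ⟨0, 0, 0, 1047972020⟩, ⟨0, 1, 0, 45097156⟩, ⟨2, 1, 0, 1047972020⟩, ⟨2, 2, 0, 45097156⟩]]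

noncomputable def xt_pm_123_a : Ext := extD3 3 ⟨4, 1, 1, 5, 27, 5, 41, 50, 81, 200, 1, 64⟩ eng cd0q1 cd1q2a pd3 true true false .npn 1 2 3 rfl ndB0q1 ndB1q2a pcB3

noncomputable def f_pm_123_a : ℕ → ℕ → ℕ → ℕ → Bool := onCell 1610612736 536870912 0 536870912 1033476505 6710887
    (rowB 3 eng mog cd0q1 cd1q2a pd3 2 true true false .npn 1 2 3 (qsf 536870912 536870912 0 536870912 3) ndB0q1 ndB1q2a pcB3 cut_pm_123_a xt_pm_123_a)

def k0_pm_123_a : ∃ t, chk3 f_pm_123_a t 4 2 1 = true :=
  ⟨(b (l 1) (a (l 1) (a (l 1) (b (l 1) (l 15603648))))), by decide +kernel⟩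

def k1_pm_123_a : ∃ t, chk3 f_pm_123_a t 5 2 1 = true :=
  ⟨(b (a (b (a (a (l 1) (a (l 1) (a (l 1) (b (l 15416144) (l 15362672))))) (b (a (l 15554472) (a (l 15625096) (l 15699592))) (a (b (a (b (b (l 15371792) (l 15365512)) (l 15372104)) (b (l 15435096) (b (l 15428824) (l 15405688)))) (l 15409536)) (b (a (l 15489152) (l 15567800)) (a (b (b (l 15446616) (l 15447208)) (l 15457936)) (b (l 15481104) (l 15490760))))))) (a (l 15421520) (a (l 15488904) (l 15540072)))) (a (b (a (b (a (l 15773368) (l 15846264)) (a (b (l 15644696) (b (l 15579160) (b (l 15545152) (a (l 15516056) (l 15543912))))) (l 15678024))) (a (b (l 15918136) (l 15754352)) (b (l 15988792) (l 15829608)))) (b (a (b (b (a (l 15533040) (b (l 15581336) (a (l 15558432) (l 15582384)))) (l 15561704)) (l 15581504)) (b (a (b (l 15649480) (b (a (l 15602616) (l 15637312)) (l 15614512))) (l 15706272)) (a (l 15626584) (b (b (a (l 15644512) (l 15674344)) (l 15657728)) (l 15664528))))) (l 15652272))) (b (a (b (a (l 16058096) (l 16125864)) (a (l 15903640)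 (l 15976272))) (b (a (l 16191952) (l 16172304)) (a (l 16047344) (l 16116672)))) (b (a (b (l 15822944) (a (b (l 15722936) (b (a (l 15687720) (l 15713960)) (l 15701536))) (a (b (l 15782272) (l 15742936)) (l 15801208)))) (a (l 15897328) (l 15971832))) (a (a (l 15727968) (b (b (b (a (l 15731656) (l 15755424)) (l 15745664)) (l 15754032)) (l 15771792))) (b (a (b (b (l 15810632) (a (l 15776648) (l 15810576))) (a (l 15778824) (l 15799992))) (b (l 15878584) (b (l 15849160) (a (l 15819760) (l 15850192))))) (a (l 15804256) (b (l 15835160) (l 15842984))))))))) (a (a (b (l 15548544) (l 15661008)) (b (l 15631248) (l 15733672))) (a (b (l 15729840) (l 15819896)) (b (b (l 15821632) (l 15863728)) (l 15918384))))), by decide +kernel⟩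

def k2_pm_123_a : ∃ t, chk3 f_pm_123_a t 4 3 1 = true :=
  ⟨(b (a (l 1) (b (a (l 1) (b (l 15677808) (l 15716984))) (a (b (a (l 1) (l 15719016)) (a (l 15723288) (l 15735960))) (b (l 15745336) (l 15760208))))) (a (b (a (l 1) (b (a (l 1) (l 15715976)) (a (b (l 1) (l 15686400)) (l 15699552)))) (b (a (a (l 1) (b (l 15664088) (l 15641032))) (b (a (l 15667592) (l 15673256)) (a (l 15644712) (l 15650176)))) (a (b (a (l 15602416) (l 15605144)) (a (l 15556056) (l 15558656))) (b (a (l 15609832) (l 15616208)) (a (l 15563000) (l 15568832)))))) (b (b (a (a (l 15725088) (l 15736728)) (a (l 15750680) (l 15766744))) (a (a (l 15707880) (l 15718272)) (a (l 15730504) (l 15744368)))) (b (a (b (a (l 15680840) (l 15690120)) (a (l 15657168) (l 15665464))) (a (l 15688432) (l 15699728))) (a (b (a (l 15624040) (l 15632872)) (a (l 15575896) (l 15583920))) (b (a (l 15642544) (l 15652928)) (a (l 15592648) (l 15601824)))))))), by decide +kernel⟩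

def k3_pm_123_a : ∃ t, chk3 f_pm_123_a t 5 3 1 = true :=
  ⟨(b (a (b (a (l 15727832) (l 15790488)) (a (b (l 15790072) (l 15800744)) (b (l 15844744) (l 15849520)))) (b (a (l 15863984) (l 15968008)) (a (b (l 15907912) (l 15905048)) (b (l 15978272) (a (l 15950304) (l 15981736)))))) (a (b (a (b (a (l 15784704) (l 15804352)) (a (l 15759632) (l 15776096))) (b (a (l 15825504) (l 15847960)) (a (l 15793552) (l 15811808)))) (b (a (a (l 15711888) (l 15724696)) (a (l 15737936) (l 15751416))) (a (b (a (l 15663752) (l 15674776)) (a (l 15611176) (l 15620464))) (b (a (l 15685736) (l 15696008)) (a (l 15629424) (l 15637840)))))) (b (a (b (a (l 15871544) (l 15896096)) (a (l 15830680) (b (l 15864088) (l 15834640)))) (b (a (l 15921128) (l 15947832)) (a (b (l 15885288) (l 15853720)) (b (l 15908208) (l 15874544))))) (b (a (a (b (l 15783680) (l 15744808)) (b (l 15798776) (l 15758104))) (a (b (l 15815520) (l 15772824)) (b (l 15834696) (l 15789984)))) (a (b (a (l 15706984) (l 15719168)) (a (l 15647360) (l 15659360)))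 (b (a (l 15733664) (l 15749632)) (a (l 15673208) (l 15688200)))))))), by decide +kernel⟩

def k4_pm_123_a : ∃ t, chk3 f_pm_123_a t 12 2 1 = true :=
  ⟨(a (b (a (b (b (a (b (l 16351456) (l 16285496)) (b (l 16410200) (l 16346872))) (a (l 16184112) (l 16249480))) (b (a (l 16044552) (l 16115312)) (b (a (l 15936232) (l 16011088)) (a (b (b (l 15889256) (a (l 15863384) (l 15891184))) (l 15879008)) (b (l 15957576) (b (l 15909288) (a (l 15907192) (l 15933072)))))))) (b (b (a (b (l 16466584) (l 16405952)) (b (l 16520480) (l 16462568))) (a (l 16312624) (l 16373376))) (b (a (l 16183944) (l 16250280)) (a (l 16049432) (l 16121448))))) (b (b (a (b (l 15889608) (l 15927824)) (b (a (b (b (l 15950880) (a (l 15950944) (l 15975440))) (l 15966168)) (b (l 16037984) (b (l 16013744) (l 15986808)))) (l 15996136))) (l 15986200)) (l 16028040))) (b (a (b (a (b (b (l 16571720) (l 16516576)) (l 16431584)) (b (b (l 16620168) (l 16567824)) (l 16466112))) (b (a (l 16314152) (l 16375400)) (a (l 16191080) (l 16258176)))) (b (b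 (a (b (l 16644712) (l 16616168)) (a (l 16632080) (l 16695168))) (a (l 16518752) (l 16547416))) (b (a (l 16433856) (l 16489360)) (a (l 16322544) (l 16384032))))) (b (b (a (b (a (l 16094856) (l 16166392)) (a (b (a (l 16039960) (l 16045424)) (l 16051832)) (b (l 16118864) (a (l 16082400) (l 16087192))))) (a (b (l 16235264) (l 16174464)) (l 16272576))) (a (l 16085960) (b (a (b (a (l 16124352) (l 16128640)) (l 16135672)) (b (l 16198368) (a (l 16165704) (l 16169640)))) (l 16160904)))) (b (a (l 16108320) (l 16173416)) (l 16154368))))), by decide +kernel⟩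

def k5_pm_123_a : ∃ t, chk3 f_pm_123_a t 13 4 1 = true :=
  ⟨(a (b (a (b (a (b (a (l 16737800) (l 16756368)) (l 16703576)) (b (a (b (l 127473260983) (l 16764152)) (b (l 4) (l 123715164759))) (l 16742328))) (a (l 16593904) (l 16679016))) (b (a (a (b (l 106535301031) (b (l 16760752) (l 16758928))) (b (l 4) (b (l 109756530887) (l 16769904)))) (b (l 4) (a (l 110830266295) (l 4)))) (a (b (l 16738288) (l 16698440)) (b (a (l 16763128) (l 114588352007)) (l 16734936))))) (a (a (b (l 16541776) (l 16442440)) (b (l 16569944) (l 16497720))) (b (a (l 16615400) (l 16677664)) (a (l 16549464) (l 16597256))))) (b (b (l 4) (a (a (b (a (l 116198970711) (l 4)) (a (l 16759176) (l 109756517335))) (b (l 4) (a (l 118883323223) (l 101703461287)))) (l 4))) (a (b (a (l 16714464) (b (a (l 16755440) (l 16768208)) (l 16730288))) (a (l 16640712) (l 16658480))) (b (a (b (a (l 120493934423) (l 16765368)) (l 16758344)) (b (l 4) (a (l 16772704) (l 16775120)))) (a (l 16713056) (b (l 16754760) (l 16727240))))))), by decide +kernel⟩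

def k6_pm_123_a : ∃ t, chk3 f_pm_123_a t 13 5 1 = true :=
  ⟨(a (b (a (b (a (l 16337152) (l 16398672)) (b (a (l 16253616) (l 16320360)) (a (b (a (l 16206392) (l 16210208)) (l 16216408)) (b (l 16278296) (a (l 16246632) (l 16271456)))))) (b (a (l 16456896) (l 16511344)) (a (b (l 16383528) (l 16332072)) (l 16419152)))) (a (b (l 16241712) (l 16248240)) (b (b (a (b (a (l 16286352) (l 16311256)) (l 16295128)) (b (l 16358304) (a (l 16325376) (l 16350400)))) (l 16316752)) (l 16314704)))) (b (a (a (b (l 16561608) (l 16476384)) (b (l 16607288) (l 16529168))) (a (b (l 16647952) (l 16577024)) (b (l 16683128) (l 16619488)))) (a (a (b (b (l 16408208) (b (a (l 16363504) (l 16388648)) (l 16370080))) (l 16366168)) (b (b (l 16466392) (b (l 16433424) (a (l 16400512) (l 16425760)))) (l 16402256))) (b (a (l 16499440) (l 16549280)) (b (a (b (l 16463488) (l 16439688)) (b (l 16501952) (l 16482496))) (a (l 16432864) (l 16469184))))))), by decide +kernel⟩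

def k7_pm_123_a : ∃ t, chk3 f_pm_123_a t 7 2 1 = true :=
  ⟨(b (a (a (b (l 4) (b (l 4) (a (a (a (l 83449822551) (l 101166558823)) (b (l 4) (l 124788851063))) (l 4)))) (l 4)) (l 4)) (b (a (b (a (a (a (l 16712320) (l 16713880)) (a (b (l 124251972183) (l 16740512)) (a (l 111367064759) (l 110293331143)))) (l 4)) (a (a (a (l 16656032) (l 16686096)) (a (l 16709056) (l 16724352))) (a (a (b (l 91502822807) (l 16724592)) (b (l 4) (l 88281575719))) (l 4)))) (l 4)) (b (a (a (a (a (l 16593232) (l 16630696)) (a (l 16661040) (l 16683648))) (a (a (l 16698200) (l 16705488)) (a (b (l 85060319495) (l 16700696)) (a (l 95797712375) (l 122641264295))))) (l 4)) (a (a (a (a (b (l 16541512) (b (l 16513512) (l 16501432))) (b (l 16584496) (l 16550776))) (a (l 16605376) (l 16634976))) (a (a (l 16655952) (l 16668216)) (a (l 16673144) (b (l 16685752) (l 16664160))))) (a (a (a (a (b (l 16688888) (l 16668592)) (b (l 4) (l 16671904))) (a (l 134989225623) (l 4))) (l 4)) (l 4)))))), by decide +kernel⟩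

def k8_pm_123_a : ∃ t, chk3 f_pm_123_a t 6 3 1 = true :=
  ⟨(b (a (b (a (b (l 16055424) (l 16061248)) (b (l 16160680) (l 16157328))) (a (b (l 16054840) (l 16011864)) (b (l 16140272) (l 16097504)))) (b (a (b (l 16277024) (l 16262392)) (b (a (l 16370336) (l 16433960)) (a (l 16345840) (l 16402008)))) (a (b (l 16234288) (a (l 16168880) (l 16210256))) (b (l 16331504) (a (l 16251512) (l 16292048)))))) (a (b (a (b (a (l 15976232) (l 16007128)) (a (b (l 15933608) (l 15897744)) (b (l 15960856) (l 15922440)))) (b (a (l 16039784) (l 16073560)) (a (b (l 15989344) (l 15948000)) (b (l 16018432) (l 15973816))))) (b (a (a (b (l 15855608) (l 15808496)) (b (l 15877632) (l 15827696))) (a (b (l 15900136) (l 15846944)) (b (l 15922488) (l 15865600)))) (a (b (a (l 15766392) (l 15783248)) (a (l 15703632) (l 15718752))) (b (a (l 15799520) (l 15814576)) (a (l 15732824) (l 15745160)))))) (b (a (b (a (l 16107848) (l 16142056)) (a (b (l 16047544) (l 15999304)) (b (l 16076168) (l 16024016)))) (b (a (l 16175696) (l 16208408))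 (a (b (l 16103944) (l 16047696)) (b (l 16130760) (l 16070392))))) (a (b (a (b (l 15944160) (l 15883152)) (b (l 15964728) (l 15899216))) (b (a (l 15827880) (l 15839112)) (a (l 15755184) (l 15762528)))) (b (a (b (l 15984040) (l 15913736)) (b (l 16002336) (a (l 15923816) (b (l 15949280) (l 15911208))))) (a (b (a (l 15846232) (l 15850376)) (a (b (l 15788992) (l 15743912)) (b (l 15791728) (l 15743752)))) (b (a (b (l 15872304) (l 15836232)) (b (l 15875952) (l 15837376))) (a (b (l 15792168) (l 15740896)) (b (l 15790128) (l 15734064)))))))))), by decide +kernel⟩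

def k9_pm_123_a : ∃ t, chk3 f_pm_123_a t 14 6 1 = true :=
  ⟨(a (b (a (b (a (l 16481728) (b (b (l 16528232) (l 16517808)) (l 16504064))) (l 16457400)) (b (a (b (b (l 16565328) (l 16551432)) (l 16534096)) (b (l 16592888) (b (l 16570024) (l 16556744)))) (b (l 16523880) (l 16496152)))) (b (a (l 16402792) (l 16447496)) (a (l 16331304) (l 16368736)))) (b (a (b (a (b (l 16618544) (l 16590352)) (l 16600896)) (a (b (l 16561104) (l 16530320)) (b (l 16580512) (l 16549040)))) (b (a (l 16607888) (l 16605400)) (a (b (l 16589904) (a (l 16558728) (l 16559904))) (b (l 16584192) (a (l 16555200) (l 16551760)))))) (b (a (l 16487080) (a (l 16508912) (b (b (l 16509896) (l 16517120)) (l 16495384)))) (a (b (l 16426208) (l 16379064)) (b (a (l 16448232) (l 16460160)) (l 16412112)))))), by decide +kernel⟩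

def k10_pm_123_a : ∃ t, chk3 f_pm_123_a t 15 12 1 = true :=
  ⟨(b (a (a (a (a (l 16628456) (l 16632600)) (a (l 34594237591) (b (l 87207683143) (l 16631400)))) (a (b (l 4) (a (l 57142870807) (a (l 16640712) (l 4)))) (l 4))) (l 4)) (a (a (a (b (l 16584064) (l 16550472)) (b (l 16594072) (a (l 16554376) (l 16561504)))) (a (a (b (l 16606928) (l 16572632)) (b (a (l 16614528) (l 16618560)) (l 16585536))) (a (b (a (l 139284101735) (l 232162784263)) (a (l 16597328) (l 16605280))) (b (l 4) (a (l 129083542807) (l 187602482471)))))) (l 4))), by decide +kernel⟩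

def k11_pm_123_a : ∃ t, chk3 f_pm_123_a t 15 13 1 = true :=
  ⟨(a (a (b (a (b (a (l 16516048) (l 16514624)) (b (a (l 16495096) (l 16491064)) (l 16483128))) (b (a (l 16518400) (l 16526224)) (a (b (l 16492200) (l 16481488)) (b (l 16502336) (l 16487968))))) (a (b (l 16468040) (l 16440352)) (b (a (l 16473976) (l 16480816)) (l 16466352)))) (b (a (a (b (l 16539384) (l 16510576)) (b (l 16556352) (l 16530608))) (a (b (l 16576168) (l 16554000)) (b (l 16576840) (l 16579776)))) (a (b (a (b (l 16492512) (l 16489528)) (b (l 16513728) (l 16505328))) (a (l 16490496) (l 16507760))) (b (a (l 16535344) (l 16564984)) (a (b (l 16525832) (l 16528520)) (b (l 16555872) (l 16552968))))))) (b (a (a (a (b (a (l 124251686071) (b (l 296050423351) (l 16621096))) (l 16585848)) (b (a (l 308398449367) (l 4)) (a (l 97945043143) (b (l 300345404055) (l 16638344))))) (a (b (l 4) (a (b (l 4) (l 310009106423)) (l 4))) (l 4))) (l 4)) (a (a (a (b (l 16596424) (l 16588672)) (b (a (l 16620368) (l 16636160)) (a (l 16616040) (l 16634320))))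 (a (b (a (l 16650648) (b (l 335778934135) (l 16665840))) (a (l 16650584) (l 16666904))) (b (a (b (l 4) (l 356180057991)) (l 4)) (a (b (l 16683264) (l 16684760)) (b (a (l 16694928) (l 4)) (l 141431738487)))))) (a (a (a (b (l 4) (b (l 4) (a (l 344905851591) (l 4)))) (l 4)) (l 4)) (l 4))))), by decide +kernel⟩

def k12_pm_123_a : ∃ t, chk3 f_pm_123_a t 14 7 1 = true :=
  ⟨(b (a (b (a (l 16177208) (b (l 16297824) (a (l 16236288) (l 16250896)))) (a (b (l 16156920) (a (l 16087096) (b (l 16115448) (l 16081096)))) (b (a (l 16176672) (l 16190256)) (a (b (l 16127504) (l 16092136)) (b (l 16140224) (l 16104176)))))) (b (a (b (a (l 16321376) (l 16337688)) (a (l 16266208) (l 16282936))) (b (l 16365760) (a (l 16303848) (l 16330992)))) (a (b (a (l 16205144) (l 16223360)) (a (b (l 16155048) (l 16118776)) (b (l 16174008) (l 16138016)))) (b (a (l 16246936) (l 16277864)) (a (b (l 16199104) (l 16163920)) (b (l 16232296) (l 16198456))))))) (a (b (a (b (a (b (l 16034608) (l 15996944)) (b (l 16044448) (l 16005240)))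 (a (b (l 15956520) (l 15916040)) (b (l 15963104) (l 15920400)))) (b (a (b (l 16054432) (l 16013784)) (b (l 16065528) (l 16023776))) (a (b (l 15969696) (l 15924896)) (b (l 15978344) (l 15931936))))) (a (b (a (l 15857576) (l 15857184)) (b (a (l 15785384) (l 15780352)) (a (l 15725392) (l 15717008)))) (b (a (l 15857920) (l 15862072)) (b (a (l 15777256) (l 15778632)) (a (l 15711384) (l 15711368)))))) (b (a (b (a (l 16100800) (b (l 16099072) (l 16056664))) (a (b (l 15991128) (l 15943720)) (b (l 16010256) (l 15962608)))) (b (a (b (l 16125640) (l 16083832)) (l 16162544)) (a (b (l 16038040) (l 15991120)) (b (l 16076840) (l 16031944))))) (b (a (a (l 15914024) (b (l 15915984) (l 15864440))) (a (b (l 15945512) (l 15895680)) (b (l 15989072) (l 15943360)))) (a (b (a (l 15787392) (l 15806944)) (a (l 15720368) (l 15742472))) (a (b (l 15841352) (b (l 15797608) (l 15768040))) (b (a (l 15879856) (l 15912920)) (a (l 15828896) (b (l 15879576) (l 15859232)))))))))), by decide +kernel⟩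

def k13_pm_123_a : ∃ t, chk3 f_pm_123_a t 30 14 1 = true :=
  ⟨(a (b (b (a (l 16406552) (l 16443568)) (a (l 16366288) (l 16411408))) (b (a (l 16317976) (l 16368840)) (a (b (l 16275392) (l 16243448)) (b (l 16329896) (l 16300440))))) (a (b (b (a (l 16477048) (l 16502104)) (a (l 16452416) (l 16483312))) (b (a (l 16414696) (l 16448776)) (a (b (l 16378848) (l 16351624)) (b (l 16414952) (l 16389304))))) (b (b (a (l 16529016) (l 16556088)) (a (l 16517072) (l 16553648))) (b (a (l 16485400) (l 16525256)) (a (b (l 16453320) (l 16429168)) (b (l 16495000) (l 16472472))))))), by decide +kernel⟩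

def k14_pm_123_a : ∃ t, chk3 f_pm_123_a t 31 28 1 = true :=
  ⟨(a (a (b (a (b (l 16564176) (l 16588032)) (b (l 16622632) (a (l 16610664) (l 16629848)))) (a (l 16592512) (b (l 16630552) (l 16630720)))) (b (a (a (l 16650168) (l 16668416)) (a (l 16686728) (l 16705944))) (a (b (a (l 16650560) (l 16666808)) (a (l 16661824) (l 16673128))) (a (b (l 16687216) (l 16687152)) (l 16708096))))) (a (a (b (a (b (a (l 16720248) (l 16729840)) (l 16727280)) (a (b (l 379265633687) (l 16743696)) (b (l 4) (l 260617193079)))) (a (l 16708296) (a (l 16745840) (l 16736560)))) (a (b (b (l 4) (a (l 475365575767) (l 4))) (a (b (l 16747752) (l 16769960)) (b (a (l 16752904) (l 498451043863)) (l 16747872)))) (b (l 4) (b (l 4) (a (a (l 16758632) (l 366380769575)) (a (l 526905160487) (l 4))))))) (l 4))), by decide +kernel⟩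

def k15_pm_123_a : ∃ t, chk3 f_pm_123_a t 31 29 1 = true :=
  ⟨(a (a (b (a (l 16567968) (b (l 16620376) (l 16604656))) (a (b (l 16539528) (l 16518640)) (b (l 16586136) (l 16566800)))) (b (a (b (l 16667456) (l 16653568)) (b (a (l 16698232) (l 16688856)) (l 16704872))) (a (b (l 16635592) (l 16616768)) (b (l 16687448) (l 16668072))))) (a (a (b (a (b (l 16728160) (b (l 16729736) (l 16736152))) (a (b (l 16745920) (l 16744048)) (l 16736016))) (b (a (l 16726736) (b (l 16731408) (l 16747616))) (a (l 16706304) (l 16731624)))) (b (a (a (l 16768864) (l 16750704)) (a (b (l 16755048) (l 16758152)) (b (a (l 16743928) (l 16737232)) (l 16742376)))) (a (b (a (l 16764152) (l 16774048)) (b (l 16753480) (l 16751096))) (b (a (l 16742904) (l 16726568)) (a (b (l 16770248) (l 16765152)) (b (l 16755960) (l 16743344))))))) (a (a (b (a (b (a (l 305714315831) (l 574149760103)) (a (l 16731192) (l 16724168))) (b (l 4) (a (l 16706968) (l 366380693191)))) (b (a (l 16711240) (a (l 16721432) (l 16714464))) (a (l 16725168) (b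 (l 16727952) (l 16739008))))) (b (l 4) (a (b (a (b (l 16705360) (l 16709936)) (b (l 4) (l 16703344))) (b (l 16715136) (l 16726912))) (b (l 4) (a (b (l 484492273207) (l 16717904)) (b (l 4) (l 447985062583))))))) (b (l 4) (b (l 4) (l 4)))))), by decide +kernel⟩

def k16_pm_123_a : ∃ t, chk3 f_pm_123_a t 60 15 1 = true :=
  ⟨(b (b (a (b (l 16208464) (l 16170320)) (b (l 16268256) (l 16233560))) (a (b (l 16129024) (l 16087888)) (b (l 16196808) (a (l 16141472) (l 16183360))))) (b (a (b (l 16050136) (a (l 15992600) (l 16033056))) (b (a (l 16109688) (l 16156896)) (a (l 16080480) (l 16135584)))) (a (b (a (b (l 15962680) (l 15943560)) (b (l 16008408) (b (l 15997336) (l 15990720)))) (a (b (l 15926128) (a (l 15897496) (l 15926400))) (b (c (l 16022672) (l 15942216)) (c (a (l 16002312) (l 16039632)) (l 15930176))))) (b (a (b (l 16062560) (b (l 16055768) (l 16052480))) (b (l 16126208) (b (l 16124808) (a (l 16106216) (l 16146064))))) (a (b (c (b (l 16093552) (l 16095664)) (l 16005712)) (a (c (b (l 16078504)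 (l 16083096)) (l 15983040)) (b (c (a (l 16110576) (l 16133240)) (l 16022336)) (c (a (b (l 16115584) (l 16119704)) (c (b (l 16165848) (l 16171592)) (l 16115072))) (l 16023792))))) (b (a (b (l 16107744) (c (l 16160400) (l 16062008))) (b (l 16213168) (c (b (l 16205600) (l 16210936)) (l 16104824)))) (b (a (c (a (l 16156848) (l 16244288)) (l 16064368)) (c (c (l 138142193152262159) (l 16192520)) (l 16110088))) (b (a (c (a (l 16164344) (l 16190112)) (l 16067504)) (c (c (l 138262520980242447) (l 16201752)) (l 16115408))) (c (a (c (l 137675519112134671) (l 16155024)) (c (a (l 138179301682233359) (l 138529564958113807)) (l 137660744418967567))) (a (l 16070232) (l 16119704))))))))))), by decide +kernel⟩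

def k17_pm_123_a : ∃ t, chk3 f_pm_123_a t 61 30 1 = true :=
  ⟨(a (b (a (b (l 16322128) (l 16290920)) (b (l 16361832) (a (l 16322720) (l 16344320)))) (a (b (l 16258944) (l 16230560)) (b (a (l 16293664) (l 16317480)) (a (l 16269352) (l 16296392))))) (b (a (b (l 16403832) (l 16378576)) (b (l 16449472) (l 16427800))) (b (a (l 16355408) (l 16410016)) (a (a (l 16324832) (l 16354792)) (b (l 16402368) (a (l 16386360) (l 16420488))))))), by decide +kernel⟩

def k18_pm_123_a : ∃ t, chk3 f_pm_123_a t 122 31 1 = true :=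
  ⟨(b (a (b (l 16210568) (l 16199160)) (b (a (l 16255280) (l 16287024)) (a (b (l 16251928) (l 16297096)) (b (l 16289000) (l 16296592))))) (b (a (a (b (l 16180856) (b (l 16184512) (l 16231072))) (b (l 16220968) (b (l 16228176) (l 16235464)))) (b (a (a (l 16252888) (l 16275384)) (b (l 16306536) (l 16315368))) (a (a (b (l 16262992) (l 16272200)) (b (l 16287472) (l 16298208))) (c (l 139865265595498511) (b (l 16274568) (l 16284672)))))) (a (b (a (b (l 16280048) (c (l 16259496) (l 16151168))) (b (l 16287216) (a (l 16328064) (l 16355104)))) (c (b (l 138815712986988559) (c (b (l 139331864941379599) (b (l 139426422959456271) (c (a (l 139290564605067279) (l 140082762796777487)) (l 139305820257566735)))) (l 138662880718782479))) (b (a (l 16159336) (l 16212360)) (c (l 137929575053950991) (a (l 16139376) (l 137530864578985999)))))) (a (b (c (l 139560975705767951) (b (l 16284264) (l 138284579922542607))) (b (c (l 139920928392626191) (l 138444902492897295)) (c (b (l 140495285819457551) (a (l 140079807898992655)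 (c (l 140907053062750223) (l 140100354983362575)))) (l 138995620417355791)))) (b (b (l 139513421813645327) (l 140268923824308239)) (b (c (l 140926569358409743) (l 139198480404971535)) (b (c (a (l 140776692189397007) (l 141209143936385039)) (l 139367942670352399)) (l 14)))))))), by decide +kernel⟩

def k19_pm_123_a : ∃ t, chk3 f_pm_123_a t 123 31 1 = true :=
  ⟨(b (b (a (b (l 16337168) (a (l 16322064) (l 16359408))) (b (a (l 16390056) (l 16427288)) (a (l 16398664) (l 16439792)))) (a (b (a (l 16328336) (l 16369984)) (a (l 16340736) (c (l 16432856) (l 16341624)))) (b (a (l 16413608) (l 16459288)) (a (l 16499080) (l 140994189367361551))))) (b (a (b (c (l 140444777046786063) (a (l 16310912) (l 16361376))) (a (l 139917217526349839) (l 140610116133208079))) (b (l 141121457858674703) (a (l 141507867509866511) (l 142080575772246031)))) (b (a (a (b (l 140253943022764047) (l 142307762203574287)) (b (l 141014736488054799) (l 141677879630315535))) (c (l 143293406037032975) (l 142000586400317455))) (b (a (c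 (l 143144422206652431) (l 141119258890846223)) (c (l 143441702722797583) (b (l 142196230685982735) (l 142819791353970703)))) (b (b (a (c (l 143063401870245903) (l 141324798845222927)) (c (l 143575980588154895) (l 143214653508009999))) (l 14)) (l 14)))))), by decide +kernel⟩

def k20_pm_123_a : ∃ t, chk3 f_pm_123_a t 31 60 1 = true :=
  ⟨(a (a (a (b (l 16498160) (l 16480296)) (b (l 16548720) (l 16534944))) (b (a (l 16600240) (b (l 16655288) (l 16648856))) (a (b (l 16591664) (l 16589016)) (b (l 16645056) (l 16644824))))) (a (a (b (b (l 16705616) (l 16699520)) (a (l 16684592) (l 16711256))) (a (b (l 16738896) (l 16736728)) (b (a (l 16754376) (b (l 16763960) (l 16760520))) (l 16757576)))) (a (a (b (a (b (l 16742608) (l 16766880)) (b (l 16753472) (l 16746280))) (a (l 16769296) (l 143379649103134735))) (b (a (l 16707640) (c (l 142340266946871311) (l 142532887638048783))) (a (b (l 16750760) (l 16750312)) (l 142835115914084367)))) (a (a (b (a (b (l 460333110135) (l 16735864)) (b (l 4) (l 7189481849391052135182549007)))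 (a (l 16734768) (l 16728416))) (b (l 4) (a (b (l 11996170908178781312505921551) (l 16739112)) (b (l 4) (a (l 771181425863) (l 4)))))) (l 4))))), by decide +kernel⟩

def k21_pm_123_a : ∃ t, chk3 f_pm_123_a t 31 61 1 = true :=
  ⟨(b (a (a (a (b (l 16470712) (a (l 16451744) (l 16482968))) (a (b (l 16515080) (l 16514784)) (b (l 16545128) (l 16547024)))) (a (b (a (l 16574968) (l 16604752)) (l 16595312)) (b (l 16649504) (l 598850630700967073964559)))) (a (a (b (l 16708352) (l 598904530437097540411407)) (l 600075610540682856308751)) (a (a (l 16762656) (a (l 16763800) (b (l 143473657345327119) (l 16765248)))) (a (a (a (l 143427065508593679) (l 16750712)) (a (l 16744144) (a (l 16739936) (b (l 424899705255) (l 16762944))))) (a (a (b (a (l 1396099197863) (l 4)) (a (l 16739592) (l 18224556730833825603504013391))) (l 4)) (l 4)))))) (a (a (a (b (a (l 16450960) (l 16484584)) (a (l 16455848) (l 16492328))) (a (b (l 16519008) (l 16529720)) (b (l 16553992) (l 16567984)))) (a (b (a (l 16589136) (l 16624616)) (l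 597450983657373978436111)) (b (l 599712151505153859346959) (l 16706056)))) (a (a (l 601507251035563522269199) (l 600056875879044046299151)) (a (a (l 16760296) (l 143662842090438735)) (a (a (b (l 143704142467039311) (l 16770424)) (a (b (l 143590205591109711) (l 16764824)) (a (l 143358002473173199) (l 16760976)))) (a (a (b (l 143400264955936975) (l 16747896)) (b (a (b (l 1532464416503) (l 143533374577901775)) (l 4)) (a (l 16766312) (a (l 143391331431416015) (l 1545886195479))))) (l 4))))))), by decide +kernel⟩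

def k22_pm_123_a : ∃ t, chk3 f_pm_123_a t 62 62 1 = true :=
  ⟨(a (a (b (b (a (l 16465984) (l 16505920)) (a (l 16482480) (l 16526832))) (b (a (l 16569760) (l 16556968)) (a (l 141589712464216079) (l 16599576)))) (b (a (b (l 16547120) (l 16572800)) (b (l 16589480) (l 597239134284860409307663))) (a (b (l 16630552) (l 16661248)) (l 601074904937454195269647)))) (a (b (b (l 598831031025630581809167) (l 16696616)) (l 602278555578495457107983)) (b (l 602765953241668643872783) (l 601436634771802115334159)))), by decide +kernel⟩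

def k23_pm_123_a : ∃ t, chk3 f_pm_123_a t 124 126 1 = true :=
  ⟨(a (a (l 142490350092189711) (l 143313128542158863)) (a (b (l 16734072) (l 600767651914135116537871)) (b (l 602194104069899204190223) (a (l 16739656) (l 602631349484756806017039))))), by decide +kernel⟩

def k24_pm_123_a : ∃ t, chk3 f_pm_123_a t 248 127 1 = true :=
  ⟨(b (a (l 143540109017579535) (l 143529594942390287)) (b (c (a (l 143633979838038095) (l 143643256973082703)) (a (l 143619617466531855) (l 143631368502837263))) (b (b (c (l 143518599837220943) (l 143503962587742223)) (l 14)) (l 14)))), by decide +kernel⟩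

def k25_pm_123_a : ∃ t, chk3 f_pm_123_a t 249 254 1 = true :=
  ⟨(a (b (l 600354905971093077843983) (a (l 143680571656061007) (l 143677066965221455))) (b (a (l 602120028774648795947087) (l 601907314756361641156687)) (a (l 601844768742952639569999) (b (l 602332742780635168989263) (l 602094664484230137324623))))), by decide +kernel⟩

def k26_pm_123_a : ∃ t, chk3 f_pm_123_a t 498 255 1 = true :=
  ⟨(b (c (l 143652877705478351) (l 143643394417000527)) (b (c (l 143635972712218831) (l 143622641132879951)) (l 14))), by decide +kernel⟩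

def k27_pm_123_a : ∃ t, chk3 f_pm_123_a t 499 510 1 = true :=
  ⟨(a (c (l 601494857053453917185231) (l 601506962721693146014799)) (b (a (l 602626449512149685200079) (l 602546897953002108118223)) (c (l 601525697720400986399951) (l 601571238110761985303759)))), by decide +kernel⟩

def k28_pm_123_a : ∃ t, chk3 f_pm_123_a t 998 511 1 = true :=
  ⟨(b (c (l 143654389536571599) (l 143641676432589007)) (l 14)), by decide +kernel⟩

def k29_pm_123_a : ∃ t, chk3 f_pm_123_a t 999 1022 1 = true :=
  ⟨(a (c (l 143664353863024847) (l 143651984356458703)) (c (l 143692253973659855) (l 143678578797068495))), by decide +kernel⟩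

def k30_pm_123_a : ∃ t, chk3 f_pm_123_a t 999 2046 2 = true :=
  ⟨(a (l 143666415446671567) (l 143695415068885199)), by decide +kernel⟩

def k31_pm_123_a : ∃ t, chk3 f_pm_123_a t 999 4094 2 = true :=
  ⟨(a (c (l 143672325321572559) (l 143663460508647631)) (c (l 143701118785323215) (l 143691566777630927))), by decide +kernel⟩

def k32_pm_123_a : ∃ t, chk3 f_pm_123_a t 999 8190 2 = true :=
  ⟨(a (c (c (l 143675692575899855) (l 143671019651252431)) (c (l 143666346726621391) (l 143661811240927439))) (c (a (l 143693078605447375) (l 143709296403824847)) (a (l 143683320439324879) (l 143699263359795407)))), by decide +kernel⟩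

def k33_pm_123_a : ∃ t, chk3 f_pm_123_a t 999 8191 2 = true :=
  ⟨(a (a (l 14) (a (l 14) (a (a (l 14) (a (l 14) (c (c (c (c (l 143682220926763215) (l 143680983976132815)) (c (l 143679747025486031) (l 143678510074855631))) (c (c (l 143677341843701967) (l 143676104893055183)) (c (l 143674867942424783) (l 143673699711254735)))) (c (c (c (l 143672462760624335) (l 143671294529454287)) (c (l 143670126298300623) (l 143668958067146959))) (c (c (l 143667789835976911) (l 143666621604823247)) (c (l 143665453373653199) (l 143663735386685647))))))) (c (c (c (a (l 143682839402201295) (l 143686137937313999)) (c (l 143682976841187535) (l 143681739890557135))) (c (c (l 143680502939910351) (l 143679265989279951)) (c (l 143678029038633167) (l 143676860807479503)))) (c (c (c (l 143675623856849103) (l 143674455625679055)) (c (l 143673218675048655) (l 143672050443878607))) (c (c (l 143670882212724943) (l 143669713981571279)) (c (l 143668545750401231) (l 143667377519247567)))))))) (a (c (c (b (l 143696102262456527)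 (c (a (l 143690054948045007) (a (a (l 143699400797454543) (l 143701737259909327)) (l 143704073722462415))) (a (b (l 143690192386900175) (l 143687581046767823)) (a (a (l 143696789457240271) (l 143699057200201935)) (l 143701462382231759))))) (b (l 143691017020965071) (a (a (c (l 143685175864737999) (l 143682701963477199)) (c (l 143690329825968335) (l 143687787205214415))) (b (l 143695896104239311) (c (a (c (l 143695964823535823) (l 143694727872889039)) (l 143698507444601039)) (a (c (l 143693422202781903) (l 143692116532674767)) (l 143695964823863503))))))) (b (c (l 143686069218410703) (l 143681190135349455)) (c (a (a (c (l 143680228062200015) (l 143675005381509327)) (c (l 143685313303937231) (l 143682839402660047))) (b (l 143687993364185295) (c (a (c (l 143690879582027983) (l 143689573911920847)) (l 143693353483632847)) (a (c (l 143685519462744271) (l 143684213792620751)) (l 143690879582355663))))) (a (c (c (l 143678441355837647) (l 143677273124683983)) (c (l 143676036174037199) (l 143674867942883535)))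 (b (l 143682976842170575) (c (a (c (l 143682976841990351) (l 143681739891343567)) (l 143688336961618127)) (a (a (l 143681671171670223) (l 143683801475694799)) (l 143685863060340943)))))))) (c (c (c (l 143710808232362191) (l 143708196892131535)) (c (l 143705654271377615) (l 143703111649968335))) (c (c (l 143700569029558479) (b (l 143698713603932367) (l 143697339214004431))) (a (c (l 143693078606250191) (l 143690604704645327)) (c (l 143698026409492687) (l 143695552508231887))))))), by decide +kernel⟩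

def k34_pm_123_a : ∃ t, chk3 f_pm_123_a t 999 2046 3 = true :=
  ⟨(c (l 143623878091489487) (l 143616112790208719)), by decide +kernel⟩

def k35_pm_123_a : ∃ t, chk3 f_pm_123_a t 999 4094 3 = true :=
  ⟨(c (a (l 143655008012566735) (l 143682427086815439)) (a (l 143646899113885903) (l 143673630993367247))), by decide +kernel⟩

def k36_pm_123_a : ∃ t, chk3 f_pm_123_a t 1998 4095 3 = true :=
  ⟨(a (l 14) (b (a (l 14) (c (l 143660024534892751) (l 143651434599858383))) (b (c (c (l 143660505571000527) (l 143656038804799695)) (c (l 143651709477535951) (l 143647448869748943))) (a (l 14) (a (a (l 14) (a (l 14) (c (c (b (l 143661467643789519) (c (c (l 143663323069726927) (l 143662154838573263)) (c (l 143660986607403215) (l 143659887095726287)))) (c (a (c (l 143658375267156175) (l 143656932158095567)) (c (l 143658993742512335) (l 143657825511342287))) (c (c (l 143656725999648975) (l 143656176243802319)) (c (l 143655626487972047) (l 143655076732125391))))) (c (c (c (c (l 143654526976278735) (l 143653977220432079))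 (c (l 143653427464601807) (l 143652877708755151))) (c (c (l 143652327952908495) (l 143651778197078223)) (c (l 143651228441231567) (l 143650678685384911)))) (b (l 143648273503584463) (c (c (c (l 143650128929521871) (l 143649579173691599)) (c (l 143649098137321679) (l 143648548381475023))) (b (l 143647173991874767) (c (c (l 143647998625628367) (l 143647448869781711)) (c (l 143646899113869519) (c (l 143646555516534991) (l 143646280638628047))))))))))) (c (c (c (c (l 143666278007537871) (l 143665109776367823)) (c (l 143664010264690895) (l 143662842033520847))) (c (c (l 143661673802367183) (l 143660574290673871)) (c (l 143659406059520207) (l 143658306547843279)))) (c (b (l 143655489049166031) (c (c (l 143657207036133583) (l 143656107524374735)) (c (a (l 143653839781544143) (l 143656176243998927)) (c (l 143654183379009743) (l 143653633623163087))))) (c (c (c (l 143653083867332815) (l 143652534111502543)) (c (l 143651984355655887) (l 143651434599809231))) (b (l 143650128929702095) (c (c (l 143650884843962575)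 (l 143650335088115919)) (c (l 143649854051745999) (l 143649304295899343)))))))))))), by decide +kernel⟩

def k37_pm_123_a : ∃ t, chk3 f_pm_123_a t 3998 4095 3 = true :=
  ⟨(c (b (l 143673974590046415) (a (c (c (c (l 143670744774246607) (l 143669576543092943)) (c (l 143668408311922895) (l 143667240080605391))) (b (l 143667102641701071) (b (l 143667171361145039) (c (c (l 143668958067589327) (l 143667789836435663)) (c (l 143663872826196175) (l 143662704594878671)))))) (b (c (l 143681190135595215) (l 143676448491487439)) (c (c (b (l 143682152208285903) (a (a (a (l 143678647514366159) (l 143679884465225935)) (l 143679953184882895)) (l 143683389159063759))) (a (a (c (l 143677410563932367) (l 143676173613301967)) (c (l 143679609587433679) (l 143678372636786895))) (c (l 143681946049986767) (l 143680709099356367)))) (a (a (c (c (l 143675005382148303) (l 143673837150978255)) (c (l 143672600200347855) (l 143671431969177807))) (c (c (l 143677204405633231) (l 143675967454986447)) (c (l 143674799223832783)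 (l 143673630992679119)))) (c (c (l 143679540868186319) (l 143678303917555919)) (c (l 143677135686402255) (l 143675967455232207)))))))) (b (l 143665041057628367) (b (c (l 143667171361439951) (l 143662704595222735)) (a (c (c (a (c (l 143661948680519887) (l 143660849168826575)) (c (l 143666690324889807) (l 143665590813196495))) (c (c (l 143662360997511375) (l 143661811241681103)) (c (l 143661192766275791) (l 143660643010429135)))) (b (l 143658169109233871) (c (b (l 143659268620894415) (c (c (l 143660093254648015) (l 143659543498801359)) (c (l 143658993742921935) (a (l 143656107524686031) (l 143660780449562831))))) (a (c (c (l 143655557768839375) (l 143655008013009103)) (c (l 143654458257162447) (l 143653908501315791))) (c (c (l 143660230693732559) (l 143659680937885903)) (c (l 143659131182055631) (l 143658581426208975))))))) (c (c (a (a (c (l 143670263738024143) (l 143669164226347215)) (c (l 143669645262962895) (l 143669920140820687))) (c (l 143674799224078543) (l 143673630992908495))) (b (l 143670332457730255)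 (a (a (c (l 143667995995160783) (l 143666827764007119)) (c (l 143670057579708623) (l 143668889348538575))) (c (l 143672119164354767) (l 143670950933201103))))) (c (a (c (b (l 143666827764105423) (a (l 143665728252330191) (l 143667789836861647))) (a (c (l 143664834899099855) (l 143664285143253199)) (c (l 143666965203108047) (l 143666415447277775)))) (c (c (l 143670469896831183) (l 143669851421524175)) (c (l 143669301665677519) (l 143668751909830863)))) (a (c (a (c (l 143663735387422927) (l 143663185631576271)) (c (l 143665865691431119) (l 143665315935584463))) (a (c (l 143662635875729615) (l 143662017400422607)) (c (l 143663323070742735) (l 143662773314896079)))) (c (c (l 143668202154000591) (l 143667583678677199)) (a (c (l 143666415447425231) (l 143665865691578575)) (c (l 143667721117712591) (l 143667171361882319))))))))))), by decide +kernel⟩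

def k38_pm_123_a : ∃ t, chk3 f_pm_123_a t 3999 4095 3 = true :=
  ⟨(c (b (l 143689573913149647) (c (b (l 143690192388456655) (c (c (l 143690604705333455) (l 143689367754686671)) (c (l 143688199523205327) (l 143686962572558543)))) (b (l 143685450744332495) (b (l 143684351232655567) (c (c (l 143685450744004815) (l 143684282512933071)) (c (a (l 143680571660910799) (l 143685588183646415)) (a (l 143679403429757135) (l 143684419952492751)))))))) (b (a (l 143677685442773199) (l 143683183001862351)) (b (c (l 143680777819701455) (l 143676242334023887)) (c (b (l 143679747027501263) (c (c (a (l 143678235198603471) (l 143683251721339087)) (a (l 143677066967433423) (l 143682083490169039))) (a (c (l 143675898736197839) (a (l 143673493554299087) (l 143676036175413455))) (c (l 143680915259015375) (l 143679815747174607))))) (a (b (l 143672668920709327) (c (b (l 143673218676555983) (c (c (l 143673699712925903) (l 143673149957079247)) (c (l 143672600201232591) (l 143672050445320399)))) (a (c (c (l 143670401177698511)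 (l 143669782702391503)) (c (l 143669232946544847) (a (l 143668064715292879) (l 143669301666103503)))) (c (c (l 143672943798812879) (l 143672325323489487)) (c (l 143671775567659215) (a (l 143670607336407247) (l 143671844287217871))))))) (c (c (a (l 143677754162757839) (l 143680296783872207)) (c (l 143678166479814863) (l 143677616723804367))) (b (l 143676585931768015) (c (c (l 143676723370574031) (a (l 143674867944603855) (l 143677410565701839))) (a (b (l 143674249469280463) (c (l 143674112030326991) (l 143673562274398415))) (c (l 143676860809871567) (l 143676311054024911))))))))))), by decide +kernel⟩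

def k39_pm_123_a : ∃ t, chk3 f_pm_123_a t 125 126 1 = true :=
  ⟨(a (b (l 602224944644624750108687) (b (l 602297866913161017335887) (l 600978924710310235201615))) (b (l 599929477969153437525583) (a (l 600816939438886674408655) (l 143992970469884111)))), by decide +kernel⟩

def k40_pm_123_a : ∃ t, chk3 f_pm_123_a t 125 254 1 = true :=
  ⟨(b (a (a (l 601502351180535397621839) (l 600642559943186092123343)) (l 143755269751800015)) (a (a (l 601324224619095075759311) (l 143752795864858831)) (l 143894014371954895))), by decide +kernel⟩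

def k41_pm_123_a : ∃ t, chk3 f_pm_123_a t 125 255 2 = true :=
  ⟨(b (a (a (a (l 601210373762764459533519) (l 143821927642136783)) (l 143716237098959055)) (l 143830311410384975)) (a (a (b (a (l 143657344485343439) (l 143799387651457231)) (b (a (c (l 143744961817477327) (l 143735547248804047)) (l 143780558513701071)) (a (c (b (l 143738158588870863) (b (l 143728194263859407) (c (a (c (l 143725170605080783) (l 143722627984326863)) (l 143742762794025167)) (a (c (l 143720085363425487) (b (l 143718298657800399) (l 143716924267430095))) (l 143737883711324367))))) (b (l 143728469142257871) (a (a (b (l 143709433844203727) (c (c (l 143710258477957327) (l 143707784576696527)) (c (l 143705379394896079) (l 143702974212440271)))) (c (c (l 143721391035089103) (l 143718917133828303)) (c (l 143716511952044239) (l 143714175489736911)))) (c (a (l 143729774812365007) (l 143739258102644943)) (c (l 143731011763716303) (l 143728675301408975)))))) (a (c (c (l 143765852543402191) (l 143761110897983695)) (b (l 143757262608531663)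 (c (l 143753345598095567) (l 143748810111090895)))) (b (l 143780421075976399) (c (l 143778634367697103) (c (l 143771831140909263) (l 143767364374741199)))))))) (b (l 143766402313879759) (b (l 143790660276895951) (a (c (a (l 143799731252445391) (l 143817254722502863)) (c (l 143802136432967887) (l 143797944546066639))) (c (l 143842818372976847) (l 143789766931284175)))))) (a (a (c (l 143852851419807951) (l 143845910752477391)) (a (l 143873742145700047) (l 143889341464854607))) (a (l 143889410194522191) (l 143917585180819535))))), by decide +kernel⟩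

def k42_pm_123_a : ∃ t, chk3 f_pm_123_a t 125 510 3 = true :=
  ⟨(a (a (a (l 601261966989375377106127) (l 143808321185382607)) (l 143702768081338575)) (l 143820965561696335)), by decide +kernel⟩

def k43_pm_123_a : ∃ t, chk3 f_pm_123_a t 250 511 3 = true :=
  ⟨(a (b (a (l 143641126688194767) (l 143782688818069711)) (b (a (c (l 143726476277514447) (l 143717817623068879)) (l 143718367386616015)) (b (c (a (l 143719192012505295) (l 143757949804773583)) (a (l 143710327199629519) (l 143749634747744463))) (c (c (b (a (l 143717061708595407) (l 143755338464444623)) (a (a (b (l 143705035798216911) (c (a (l 143699813116707023) (l 143709571284582607)) (a (b (l 143697820252127439) (l 143697133056901327)) (l 143707234822258895)))) (c (l 143724827010531535) (l 143722559267700943))) (a (l 143742762797531343) (l 143761454499463375)))) (a (b (l 143712457503457487) (c (a (a (c (l 143696445862527183) (l 143695277631029455)) (l 143705722993033423)) (b (l 143721047439818959) (l 143719535610577103))) (a (a (c (l 143694109399875791)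 (l 143692941168722127)) (l 143703386530889935)) (a (l 143713213418422479) (l 143722902866460879))))) (a (a (l 143735134934614223) (l 143744686944370895)) (l 143758774439788751)))) (c (a (b (l 143707990737273039) (a (b (l 143695827387908303) (a (b (l 143689711353495759) (c (c (l 143690742145351887) (l 143689573914198223)) (c (a (l 143685931781750991) (l 143690948304486607)) (a (l 143684832270074063) (l 143689780073332943))))) (c (a (l 143697957692129487) (l 143702836775911631)) (c (l 143698713606766799) (l 143697614095089871))))) (a (c (l 143710945675575503) (l 143708746651549903)) (c (l 143720703843107023) (l 143718504819753167))))) (a (c (l 143736715483349199) (l 143734585179472079)) (l 143754651269677263))) (b (a (l 143703592690565327) (l 143742762799661263)) (a (c (b (l 143702424459215055) (a (a (a (c (l 143684076355616975) (a (l 143681671173816527) (l 143684213794930895))) (c (l 143689024159039695) (l 143687924647362767))) (c (l 143696514583068879) (l 143695415071391951))) (a (l 143705860433559759)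 (l 143715618601599183)))) (a (b (l 143690261110046927) (b (l 143689161598353615) (a (b (l 143683595319771343) (c (a (c (l 143681533735026895) (l 143680983979196623)) (l 143686275379839183)) (a (c (l 143680434223186127) (l 143679884467339471)) (c (l 143685450746085583) (l 143684900990238927))))) (c (l 143693971962265807) (a (l 143690398549328079) (l 143695346352586959)))))) (a (c (l 143704967080837327) (l 143703936288620751)) (l 143714244211998927)))) (a (c (l 143730943047008463) (l 143728881462624463)) (l 143748947553485007))))))))) (b (l 143661536391987407) (a (b (l 143801586680283343) (c (b (l 143795264487833807) (c (l 143790454121365711) (l 143786399673417935))) (a (c (l 143776641507377359) (l 143772793215172815)) (c (l 143794989611188431) (l 143791210039820495))))) (b (l 143838214168543439) (c (l 143782139071774927) (a (l 143811069969481935) (l 143828593442160847))))))), by decide +kernel⟩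

def k44_pm_123_a : ∃ t, chk3 f_pm_123_a t 251 511 3 = true :=
  ⟨(b (l 143813750032924751) (c (b (l 143835465390407759) (a (l 143831960699715791) (l 143846116918952015))) (a (a (l 143816979850985679) (l 143804747796103375)) (l 143850240088391759)))), by decide +kernel⟩

def k45_pm_123_a : ∃ t, chk3 f_pm_123_a t 63 62 1 = true :=
  ⟨(b (a (a (l 601136298648933538373647) (a (l 601265714095178639679503) (l 16745232))) (a (l 143511246890221647) (b (a (a (l 16772312) (a (l 16776568) (l 143614463564677327))) (a (a (a (l 143566634800398543) (l 16769592)) (a (l 16767376) (l 143486164323664079))) (a (a (a (a (l 16765856) (l 873723822023)) (a (l 1294093742183) (l 2295358000215))) (l 4)) (l 4)))) (a (l 143727507103989839) (a (a (l 143635766593716303) (a (l 143589930721656911) (l 6))) (l 6)))))) (a (a (a (l 600977772118590436909135) (l 600024017656638589789775)) (l 143598932957610191)) (a (l 143720222832509007) (a (l 143628619781619791) (a (a (l 16767344) (a (l 16769896) (l 6))) (l 6)))))), by decide +kernel⟩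

def k46_pm_123_a : ∃ t, chk3 f_pm_123_a t 63 126 1 = true :=
  ⟨(a (a (b (l 143904940789792975) (l 143901710980218959)) (b (l 143964658025414735) (l 143982593817165903))) (a (a (b (l 143951601321672783) (l 602561886223863907001935)) (b (l 143938750778490959) (l 602854151818134914377295))) (a (b (l 602385777376486591243855) (l 603330884813148279858767)) (a (b (l 602712342327108085900879) (l 603662061451918509057615)) (l 6))))), by decide +kernel⟩

def k47_pm_123_a : ∃ t, chk3 f_pm_123_a t 63 254 1 = true :=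
  ⟨(a (a (b (l 144065125900238927) (l 143941430854418511)) (a (b (l 144003415825252431) (l 603449347596840138417743)) (b (l 603765536283744432612943) (b (l 604146576847682782209615) (l 603916280788063960753743))))) (a (a (b (l 603279868108931046942287) (b (l 603769283291828539549263) (l 603871605073644409005647))) (b (l 603864687526612264216143) (l 603844799624747940881999))) (a (b (l 603780235978364891309647) (l 603789171124973418358351)) (a (l 603875063820978377696847) (l 6))))), by decide +kernel⟩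

def k48_pm_123_a : ∃ t, chk3 f_pm_123_a t 63 510 1 = true :=
  ⟨(a (a (a (l 143921708356911183) (a (l 143962665174614095) (l 603522269846615995098703))) (a (a (l 603846529041570750604879) (l 604172517614934125160015)) (b (a (l 16776288) (l 16774816)) (a (l 16778296) (l 16777920))))) (a (a (b (l 604037337552507330979407) (l 604301933018573147629135)) (a (l 604185488038485806671439) (l 604110836350858984253007))) (a (a (l 604118906782218495288911) (l 604133606535250523694671)) (a (a (b (l 16776736) (l 144015441744691279)) (l 144047258860322895)) (l 6))))), by decide +kernel⟩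

def k49_pm_123_a : ∃ t, chk3 f_pm_123_a t 126 511 1 = true :=
  ⟨(b (c (a (a (l 143863434254991439) (b (l 603415048259043914032719) (l 603640444390310964045391))) (a (a (l 16774880) (l 604575896114800401520143)) (l 604443886602522918245903))) (c (a (a (l 144038394042843215) (l 603886593139997023102543)) (a (l 604305391731684791526991) (l 604383069993154907297295))) (a (a (l 602971173415586274338383) (l 603559451661278124009039)) (a (l 604354679125731856524879) (l 604341853049365212648975))))) (a (a (a (c (l 143901367398776911) (b (l 143992764303818831) (c (l 603488258649791857944143) (l 603554263401601272800847)))) (b (c (l 144024100390813775) (l 603551381144500288300623)) (c (a (l 603598362676846438049359) (l 603738154419450503341647)) (c (l 603763518681625455797839) (l 603828082282241306895951))))) (b (a (c (l 603720860633096571217487) (l 603836729238537123325519)) (c (l 604013126252037878310479) (l 604126833188756042618383))) (a (a (c (l 603878810852495828919887) (l 604004767520002179163727))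 (c (l 604020908436734718191183) (l 604145279932829745665551))) (a (c (l 604163726676903457576463) (l 604287089277896390137359)) (c (l 604307841864979315611151) (l 604430051544467641357839)))))) (a (b (a (c (l 604309859477612383917583) (l 604421692863559248205327)) (c (l 604580507800818845160975) (a (l 16776720) (l 604613366063700141315599)))) (a (a (c (l 604453109974559780410895) (l 604574454962919651055119)) (c (l 604599531005644851959311) (l 604719723072500115772943))) (a (c (l 604729811135665427551759) (c (l 604779098529987370276367) (l 604742493272216102901263))) (c (l 604752004874629110912527) (c (l 604711652621967871301135) (l 604654006546737528968719)))))) (a (b (c (l 16776224) (l 16776288)) (c (l 604587425329846483768847) (c (l 604711652621967871514127) (l 604715399616857843750415)))) (a (c (l 604479627169165739939343) (l 604615383676333196170767)) (c (l 604456568739073603032591) (l 604537561474772233983503))))))), by decide +kernel⟩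

def k50_pm_123_a : ∃ t, chk3 f_pm_123_a t 127 511 1 = true :=
  ⟨(a (b (a (a (l 604441004298761411548687) (l 604312885831347192014415)) (a (l 604205952365711916951119) (l 604217193398622906263119))) (a (a (c (a (l 604390852213311012804111) (l 604353958725163593766415)) (c (l 604412181261146239424015) (l 604447633597412899919375))) (a (b (l 604397625625913634399823) (c (l 604323550404605393020495) (l 604385952296916437538319))) (b (l 604343150087775898429007) (c (l 604275127704985318368847) (l 604354679284611302532687))))) (a (c (b (l 604250916373179786864207) (c (l 604201340712266525517391) (l 604224399140159639103055))) (b (l 604292133313877105059407) (c (l 604247745798566343337551) (l 604271092457041767048783)))) (a (b (l 604215175763656021206607) (c (l 144089933663813711) (l 144085879214456911))) (c (l 144099416953061455) (l 144095912258879567)))))) (a (a (b (l 144104433471684687) (b (l 144107457133183055) (a (c (l 144106288899702863) (l 144102646767206479)) (c (l 144108419203711055) (l 144104983231004751)))))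 (b (l 144093507080224847) (b (l 144110137193070671) (a (b (l 144111649022509135) (c (l 144112817252597839) (l 144106701218955343))) (a (c (l 144111236702699599) (l 144108350485839951)) (c (l 144111717740511311) (l 144109106400231503))))))) (a (a (b (l 144076327209091151) (b (l 144111236702289999) (b (l 144114054203359311) (c (c (l 144115840908853327) (l 144114603958206543)) (c (l 144113367007543375) (l 144112198776356943)))))) (a (a (b (l 144069386540630095) (b (l 16776800) (c (l 144115359873171535) (l 144113435727691855)))) (l 6)) (l 6))) (l 6)))), by decide +kernel⟩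

theorem s51_pm_123_a : ∃ t, chk3 f_pm_123_a t 63 511 1 = true := ex3_a k49_pm_123_a k50_pm_123_a

theorem s52_pm_123_a : ∃ t, chk3 f_pm_123_a t 63 255 1 = true := ex3_b k48_pm_123_a s51_pm_123_a

theorem s53_pm_123_a : ∃ t, chk3 f_pm_123_a t 63 127 1 = true := ex3_b k47_pm_123_a s52_pm_123_a

theorem s54_pm_123_a : ∃ t, chk3 f_pm_123_a t 63 63 1 = true := ex3_b k46_pm_123_a s53_pm_123_a

theorem s55_pm_123_a : ∃ t, chk3 f_pm_123_a t 63 31 1 = true := ex3_b k45_pm_123_a s54_pm_123_a

theorem s56_pm_123_a : ∃ t, chk3 f_pm_123_a t 125 511 3 = true := ex3_a k43_pm_123_a k44_pm_123_a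

theorem s57_pm_123_a : ∃ t, chk3 f_pm_123_a t 125 255 3 = true := ex3_b k42_pm_123_a s56_pm_123_a

theorem s58_pm_123_a : ∃ t, chk3 f_pm_123_a t 125 255 1 = true := ex3_c k41_pm_123_a s57_pm_123_a

theorem s59_pm_123_a : ∃ t, chk3 f_pm_123_a t 125 127 1 = true := ex3_b k40_pm_123_a s58_pm_123_a

theorem s60_pm_123_a : ∃ t, chk3 f_pm_123_a t 125 63 1 = true := ex3_b k39_pm_123_a s59_pm_123_a

theorem s61_pm_123_a : ∃ t, chk3 f_pm_123_a t 1999 4095 3 = true := ex3_a k37_pm_123_a k38_pm_123_a

theorem s62_pm_123_a : ∃ t, chk3 f_pm_123_a t 999 4095 3 = true := ex3_a k36_pm_123_a s61_pm_123_a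

theorem s63_pm_123_a : ∃ t, chk3 f_pm_123_a t 999 2047 3 = true := ex3_b k35_pm_123_a s62_pm_123_a

theorem s64_pm_123_a : ∃ t, chk3 f_pm_123_a t 999 1023 3 = true := ex3_b k34_pm_123_a s63_pm_123_a

theorem s65_pm_123_a : ∃ t, chk3 f_pm_123_a t 999 4095 2 = true := ex3_b k32_pm_123_a k33_pm_123_a

theorem s66_pm_123_a : ∃ t, chk3 f_pm_123_a t 999 2047 2 = true := ex3_b k31_pm_123_a s65_pm_123_a

theorem s67_pm_123_a : ∃ t, chk3 f_pm_123_a t 999 1023 2 = true := ex3_b k30_pm_123_a s66_pm_123_a

theorem s68_pm_123_a : ∃ t, chk3 f_pm_123_a t 999 1023 1 = true := ex3_c s67_pm_123_a s64_pm_123_a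

theorem s69_pm_123_a : ∃ t, chk3 f_pm_123_a t 999 511 1 = true := ex3_b k29_pm_123_a s68_pm_123_a

theorem s70_pm_123_a : ∃ t, chk3 f_pm_123_a t 499 511 1 = true := ex3_a k28_pm_123_a s69_pm_123_a

theorem s71_pm_123_a : ∃ t, chk3 f_pm_123_a t 499 255 1 = true := ex3_b k27_pm_123_a s70_pm_123_a

theorem s72_pm_123_a : ∃ t, chk3 f_pm_123_a t 249 255 1 = true := ex3_a k26_pm_123_a s71_pm_123_a

theorem s73_pm_123_a : ∃ t, chk3 f_pm_123_a t 249 127 1 = true := ex3_b k25_pm_123_a s72_pm_123_a

theorem s74_pm_123_a : ∃ t, chk3 f_pm_123_a t 124 127 1 = true := ex3_a k24_pm_123_a s73_pm_123_a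

theorem s75_pm_123_a : ∃ t, chk3 f_pm_123_a t 124 63 1 = true := ex3_b k23_pm_123_a s74_pm_123_a

theorem s76_pm_123_a : ∃ t, chk3 f_pm_123_a t 62 63 1 = true := ex3_a s75_pm_123_a s60_pm_123_a

theorem s77_pm_123_a : ∃ t, chk3 f_pm_123_a t 62 31 1 = true := ex3_b k22_pm_123_a s76_pm_123_a

theorem s78_pm_123_a : ∃ t, chk3 f_pm_123_a t 31 31 1 = true := ex3_a s77_pm_123_a s55_pm_123_a

theorem s79_pm_123_a : ∃ t, chk3 f_pm_123_a t 31 30 1 = true := ex3_b k20_pm_123_a k21_pm_123_a

theorem s80_pm_123_a : ∃ t, chk3 f_pm_123_a t 31 15 1 = true := ex3_b s79_pm_123_a s78_pm_123_a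

theorem s81_pm_123_a : ∃ t, chk3 f_pm_123_a t 61 31 1 = true := ex3_a k18_pm_123_a k19_pm_123_a

theorem s82_pm_123_a : ∃ t, chk3 f_pm_123_a t 61 15 1 = true := ex3_b k17_pm_123_a s81_pm_123_a

theorem s83_pm_123_a : ∃ t, chk3 f_pm_123_a t 30 15 1 = true := ex3_a k16_pm_123_a s82_pm_123_a

theorem s84_pm_123_a : ∃ t, chk3 f_pm_123_a t 15 15 1 = true := ex3_a s83_pm_123_a s80_pm_123_a

theorem s85_pm_123_a : ∃ t, chk3 f_pm_123_a t 31 14 1 = true := ex3_b k14_pm_123_a k15_pm_123_a

theorem s86_pm_123_a : ∃ t, chk3 f_pm_123_a t 15 14 1 = true := ex3_a k13_pm_123_a s85_pm_123_a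

theorem s87_pm_123_a : ∃ t, chk3 f_pm_123_a t 15 7 1 = true := ex3_b s86_pm_123_a s84_pm_123_a

theorem s88_pm_123_a : ∃ t, chk3 f_pm_123_a t 7 7 1 = true := ex3_a k12_pm_123_a s87_pm_123_a

theorem s89_pm_123_a : ∃ t, chk3 f_pm_123_a t 15 6 1 = true := ex3_b k10_pm_123_a k11_pm_123_a

theorem s90_pm_123_a : ∃ t, chk3 f_pm_123_a t 7 6 1 = true := ex3_a k9_pm_123_a s89_pm_123_a

theorem s91_pm_123_a : ∃ t, chk3 f_pm_123_a t 7 3 1 = true := ex3_b s90_pm_123_a s88_pm_123_a

theorem s92_pm_123_a : ∃ t, chk3 f_pm_123_a t 3 3 1 = true := ex3_a k8_pm_123_a s91_pm_123_a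

theorem s93_pm_123_a : ∃ t, chk3 f_pm_123_a t 13 2 1 = true := ex3_b k5_pm_123_a k6_pm_123_a

theorem s94_pm_123_a : ∃ t, chk3 f_pm_123_a t 6 2 1 = true := ex3_a k4_pm_123_a s93_pm_123_a

theorem s95_pm_123_a : ∃ t, chk3 f_pm_123_a t 3 2 1 = true := ex3_a s94_pm_123_a k7_pm_123_a

theorem s96_pm_123_a : ∃ t, chk3 f_pm_123_a t 3 1 1 = true := ex3_b s95_pm_123_a s92_pm_123_a

theorem s97_pm_123_a : ∃ t, chk3 f_pm_123_a t 2 3 1 = true := ex3_a k2_pm_123_a k3_pm_123_a

theorem s98_pm_123_a : ∃ t, chk3 f_pm_123_a t 2 2 1 = true := ex3_a k0_pm_123_a k1_pm_123_a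

theorem s99_pm_123_a : ∃ t, chk3 f_pm_123_a t 2 1 1 = true := ex3_b s98_pm_123_a s97_pm_123_a

theorem s100_pm_123_a : ∃ t, chk3 f_pm_123_a t 1 1 1 = true := ex3_a s99_pm_123_a s96_pm_123_a

theorem c_pm_123_a : CertB 536870912 536870912 0 536870912 1033476505 6710887 3 eng mog cd0q1 cd1q2a pd3 true true false .npn 1 2 3
    ndB0q1 ndB1q2a pcB3 cut_pm_123_a xt_pm_123_a :=
  certB2 (fam := true) (s1 := true) (s2 := false) (a := 1) (b := 2) (c := 3) (cn := .npn) (n1 := ndB0q1) (n2 := ndB1q2a) (pc := pcB3) (cut := cut_pm_123_a) (xt := xt_pm_123_a) (P1 := 536870912) (W1 := 536870912) (P2 := 0) (W2 := 536870912) (P3 := 1033476505) (W3 := 6710887) (N0 := 3) (En := eng) (mo := mog) (C1 := cd0q1) (C2 := cd1q2a) (C3 := pd3)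
    rfl (fun _ => rfl) s100_pm_123_a

noncomputable def cut_pm_123_b : Cut := Cut.of [[⟨0, 1, 0, 20971520⟩, ⟨1, 1, 0, 20971520⟩, ⟨2, 2, 0, 1572864⟩], [⟨0, 0, 1, 46137344⟩, ⟨1, 1, 0, 1048576⟩, ⟨2, 1, 1, 46137344⟩, ⟨0, 0, 0, 1047972020⟩, ⟨0, 1, 0, 45097156⟩, ⟨2, 1, 0, 1047972020⟩, ⟨2, 2, 0, 45097156⟩]]

noncomputable def f_pm_123_b : ℕ → ℕ → ℕ → ℕ → Bool := onCell 1610612736 536870912 1239849684 370763052 1033476505 6710887
    (rowB 3 eng mog cd0q1 cd1q2b pd3 2 true true false .npn 1 2 3 (qsf 536870912 536870912 1239849684 370763052 3) ndB0q1 ndB1q2b pcB3 cut_pm_123_b Ext.none)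

def k0_pm_123_b : ∃ t, chk3 f_pm_123_b t 1 1 1 = true :=
  ⟨(a (b (a (l 1) (a (b (b (a (b (a (l 1) (b (l 15478456) (l 1))) (l 1)) (b (a (b (l 15626024) (l 15669552)) (b (l 15771984) (l 15815024))) (a (l 1) (l 15878144)))) (l 1)) (l 1)) (b (a (b (a (b (b (l 15915032) (l 15957440)) (l 16019136)) (b (a (l 16040392) (l 16108336)) (l 16156016))) (a (l 16136064) (l 16229016))) (b (a (b (a (l 16174808) (l 16239648)) (l 16286992)) (b (a (l 16302704) (l 16342832)) (l 16410768))) (a (l 16398768) (l 16477192)))) (a (l 1) (b (l 99890911703) (l 1)))))) (l 1)) (a (a (b (b (a (b (a (b (a (l 16380856) (l 16437592)) (l 16526048)) (b (a (l 16470936) (l 16522680)) (l 16631504))) (a (l 16630272) (l 16717480))) (b (a (b (b (a (l 16616960) (l 16642600)) (l 16675656)) (l 16704448)) (b (a (b (l 16707192) (l 16740360)) (b (l 16705680) (l 16763560))) (a (l 16756160) (l 16762856)))) (a (l 16680656) (l 16749568)))) (a (b (a (l 16729264) (l 16740032)) (l 1)) (b (a (l 4) (l 4)) (l 4)))) (l 1)) (b (b (a (b (b (a (a (b (a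 (l 16747944) (b (l 16752656) (l 16772760))) (l 16769472)) (l 4)) (l 4)) (l 4)) (l 4)) (l 4)) (l 4)) (l 4))) (l 4))), by decide +kernel⟩

theorem c_pm_123_b : CertB 536870912 536870912 1239849684 370763052 1033476505 6710887 3 eng mog cd0q1 cd1q2b pd3 true true false .npn 1 2 3
    ndB0q1 ndB1q2b pcB3 cut_pm_123_b Ext.none :=
  certB2 (fam := true) (s1 := true) (s2 := false) (a := 1) (b := 2) (c := 3) (cn := .npn) (n1 := ndB0q1) (n2 := ndB1q2b) (pc := pcB3) (cut := cut_pm_123_b) (xt := Ext.none) (P1 := 536870912) (W1 := 536870912) (P2 := 1239849684) (W2 := 370763052) (P3 := 1033476505) (W3 := 6710887) (N0 := 3) (En := eng) (mo := mog) (C1 := cd0q1) (C2 := cd1q2b) (C3 := pd3)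
    rfl (fun _ => rfl) k0_pm_123_b

noncomputable def f_pm_133 : ℕ → ℕ → ℕ → ℕ → Bool := onCell 536870912 536870912 1610612736 536870912 1033476505 6710887
    (rowB 3 eng mog cd0q1 cd1q3 pd3 0 true true false .dn 1 3 3 (qsf 536870912 536870912 1610612736 536870912 3) ndB0q1 ndB1q3 pcB3 Cut.none Ext.none)

def k0_pm_133 : ∃ t, chk3 f_pm_133 t 1 1 1 = true :=
  ⟨(l 4), by decide +kernel⟩

theorem c_pm_133 : CertB 536870912 536870912 1610612736 536870912 1033476505 6710887 3 eng mog cd0q1 cd1q3 pd3 true true false .dn 1 3 3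
    ndB0q1 ndB1q3 pcB3 Cut.none Ext.none :=
  certB0 (fam := true) (s1 := true) (s2 := false) (a := 1) (b := 3) (c := 3) (cn := .dn) (n1 := ndB0q1) (n2 := ndB1q3) (pc := pcB3) (cut := Cut.none) (xt := Ext.none) (P1 := 536870912) (W1 := 536870912) (P2 := 1610612736) (W2 := 536870912) (P3 := 1033476505) (W3 := 6710887) (N0 := 3) (En := eng) (mo := mog) (C1 := cd0q1) (C2 := cd1q3) (C3 := pd3)
    rfl k0_pm_133

noncomputable def cut_pm_202 : Cut := Cut.of [[⟨0, 1, 0, 26843545⟩, ⟨1, 0, 0, 26843545⟩, ⟨2, 1, 0, 26843545⟩]]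

noncomputable def f_pm_202 : ℕ → ℕ → ℕ → ℕ → Bool := onCell 0 536870912 1073741824 536870912 1033476505 6710887
    (rowB 3 eng mog cd0q2 cd1q0 pd2 1 true true false .pp 2 0 2 (qsf 0 536870912 0 536870912 2) ndB0q2 ndB1q0 pcB2 cut_pm_202 Ext.none)

def k0_pm_202 : ∃ t, chk3 f_pm_202 t 2 1 1 = true :=
  ⟨(b (a (b (l 1) (b (b (a (l 16075280) (l 16062672)) (a (l 16285288) (l 16273808))) (a (b (l 16348728) (l 16125240)) (b (l 16421368) (l 16214440))))) (b (b (l 1) (a (l 1) (b (l 1) (b (l 1) (l 15942488))))) (b (b (a (l 15968384) (a (l 16089152) (l 16111672))) (a (l 16285800) (l 16274368))) (a (b (l 16492512) (l 16301792)) (b (l 16507328) (l 16391632)))))) (b (a (b (a (b (l 15913560) (l 15715392)) (b (l 16017968) (l 15833568))) (a (b (l 15532272) (a (a (b (l 15345592) (l 15312168)) (l 15351768)) (l 15402432))) (b (l 15662704) (l 15506720)))) (b (a (b (l 16120336) (l 15949640)) (b (l 16225072) (l 16068072))) (a (b (l 15791064) (l 15645872)) (b (l 15921872) (l 15787624))))) (a (b (a (b (a (a (l 15383040)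 (b (l 15248928) (l 15280024))) (b (l 15290672) (l 15239160))) (a (l 15425720) (a (a (l 15267024) (l 15145216)) (b (l 15185456) (a (l 15170240) (l 15145368)))))) (b (l 15366872) (l 15244312))) (a (b (b (l 15392032) (l 15466304)) (l 15585080)) (b (a (b (l 15125184) (a (l 15122560) (l 15108352))) (l 15180184)) (a (b (a (l 15218832) (a (l 15119648) (l 15086792))) (l 15236168)) (a (b (l 15096424) (a (l 15085024) (l 15075048))) (l 15116560)))))) (b (a (b (l 15515232) (l 15400232)) (a (l 15574096) (l 15648616))) (a (b (l 15301896) (l 15221168)) (b (l 15467024) (l 15390680))))))), by decide +kernel⟩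

def k1_pm_202 : ∃ t, chk3 f_pm_202 t 3 8 1 = true :=
  ⟨(a (l 1) (b (a (l 1) (b (a (l 1) (l 6)) (b (a (a (l 1) (a (l 1) (l 6))) (l 6)) (a (a (a (l 1) (b (l 1) (a (l 1) (l 16671488)))) (a (b (l 16689320) (l 16682176)) (b (l 16685824) (l 16698872)))) (a (a (l 16688432) (l 16698680)) (a (l 16687280) (l 16697336))))))) (a (a (a (l 1) (b (l 1) (a (l 16349712) (l 16418776)))) (a (b (l 1) (a (l 16487784) (l 16555096))) (b (a (b (l 1) (l 16587256)) (b (l 16621520) (l 16640088))) (a (l 16577480) (l 16650240))))) (a (a (b (a (b (l 16639544) (l 16657632)) (b (a (l 16668152) (b (l 16683080) (l 16702416))) (l 16687288))) (a (l 16667872) (l 16619824))) (b (a (b (b (l 16713808) (l 16692440)) (a (l 16644464) (l 16659056))) (b (l 16677392) (l 16655888))) (a (b (l 16584528) (l 16592880)) (b (l 16612896) (l 16570112))))) (b (a (b (a (l 16669496) (l 16681048)) (l 16624000)) (b (a (l 16671096) (l 16661624)) (l 16627528))) (a (b (l 16603176) (l 16560872)) (b (l 16587336) (l 16546112)))))))), by decide +kernel⟩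

def k2_pm_202 : ∃ t, chk3 f_pm_202 t 3 9 1 = true :=
  ⟨(b (a (a (l 1) (a (b (l 1) (a (l 15957720) (l 16037936))) (b (a (l 16063680) (l 16179992)) (a (l 16135888) (l 16248104))))) (a (a (a (b (l 16306408) (l 16369896)) (b (l 16417976) (l 16497048))) (a (l 16472016) (b (l 16565440) (l 16546680)))) (a (a (a (l 16529936) (l 16525296)) (b (a (l 16545864) (b (l 16531608) (l 16496544))) (l 16445512))) (b (a (b (l 16518400) (l 16476080)) (l 16462256)) (a (b (l 16433744) (l 16394440)) (l 16398992)))))) (a (a (a (b (l 15902392) (l 15997680)) (a (l 15993848) (l 16030760))) (a (a (l 16085152) (l 16160056)) (a (l 16251528) (l 16355824)))) (a (a (a (l 16426864) (l 16502392)) (a (l 16515336) (l 16399872))) (a (a (l 16365864) (l 16372560)) (b (a (a (l 16351424) (l 16327952)) (l 16315968)) (a (l 16211336) (l 16235480))))))), by decide +kernel⟩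

def k3_pm_202 : ∃ t, chk3 f_pm_202 t 3 5 1 = true :=
  ⟨(a (a (b (a (b (l 16146568) (l 16346000)) (b (l 16197024) (l 16384128))) (a (l 16443120) (l 16418920))) (b (a (b (l 16250928) (l 16401112)) (b (l 16328104) (l 16519560))) (a (l 16346888) (b (l 16436760) (l 16338568))))) (a (a (b (a (l 16423256) (l 16284712)) (a (l 16291616) (l 16203024))) (b (a (l 16185048) (b (l 16351184) (l 16220512))) (a (l 16090552) (l 15947752)))) (a (b (a (b (l 16300448) (l 16174064)) (l 16187216)) (a (l 15991544) (l 15950400))) (b (b (b (a (l 16211448) (l 16157944)) (b (l 16031808) (b (l 16112416) (b (l 16100776) (a (l 16124136) (l 16060688)))))) (l 16030816)) (b (l 15916072) (l 15807824)))))), by decide +kernel⟩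

def k4_pm_202 : ∃ t, chk3 f_pm_202 t 3 3 1 = true :=
  ⟨(a (b (a (b (a (l 16195440) (l 16143976)) (a (l 15943056) (l 15988144))) (b (a (l 16107424) (b (l 16204944) (l 16078992))) (a (l 15985576) (b (l 15961784) (l 15854288))))) (a (b (a (l 15715512) (l 15770848)) (a (l 15541296) (l 15604064))) (b (a (l 15779544) (b (l 15757384) (l 15671912))) (a (l 15622000) (b (l 15598608) (l 15538200)))))) (a (b (a (b (a (l 16035888) (l 15913008)) (a (l 15812200) (l 15738376))) (b (a (b (l 15928520) (l 15815464)) (b (l 15854656) (l 15745424))) (a (b (l 15710648) (l 15614960)) (a (l 15608824) (l 15586360))))) (a (b (a (l 15628184) (l 15560744)) (a (l 15490224) (l 15428280))) (b (a (b (l 15529224) (l 15454192)) (a (l 15442288) (l 15402000))) (a (l 15363456) (l 15289280))))) (a (b (b (a (b (l 15820688) (l 15715336)) (l 15734376)) (a (a (l 15578384) (l 15570096)) (l 15547032))) (b (a (b (l 15449552) (l 15380232)) (l 15394744)) (a (l 15296848) (l 15282768)))) (b (b (b (l 15705976) (l 15610608)) (b (l 15522536)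 (l 15442504))) (b (b (l 15371168) (l 15309120)) (l 15235080)))))), by decide +kernel⟩

theorem s5_pm_202 : ∃ t, chk3 f_pm_202 t 3 4 1 = true := ex3_b k1_pm_202 k2_pm_202

theorem s6_pm_202 : ∃ t, chk3 f_pm_202 t 3 2 1 = true := ex3_b s5_pm_202 k3_pm_202

theorem s7_pm_202 : ∃ t, chk3 f_pm_202 t 3 1 1 = true := ex3_b s6_pm_202 k4_pm_202

theorem s8_pm_202 : ∃ t, chk3 f_pm_202 t 1 1 1 = true := ex3_a k0_pm_202 s7_pm_202

theorem c_pm_202 : CertB 0 536870912 0 536870912 1033476505 6710887 3 eng mog cd0q2 cd1q0 pd2 true true false .pp 2 0 2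
    ndB0q2 ndB1q0 pcB2 cut_pm_202 Ext.none :=
  certB1 (fam := true) (s1 := true) (s2 := false) (a := 2) (b := 0) (c := 2) (cn := .pp) (n1 := ndB0q2) (n2 := ndB1q0) (pc := pcB2) (cut := cut_pm_202) (xt := Ext.none) (P1 := 0) (W1 := 536870912) (P2 := 0) (W2 := 536870912) (P3 := 1033476505) (W3 := 6710887) (N0 := 3) (En := eng) (mo := mog) (C1 := cd0q2) (C2 := cd1q0) (C3 := pd2)
    rfl (fun _ => rfl) s8_pm_202

noncomputable def f_pm_203 : ℕ → ℕ → ℕ → ℕ → Bool := onCell 0 536870912 1610612736 536870912 1033476505 6710887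
    (rowB 3 eng mog cd0q2 cd1q0 pd3 1 true true false .up 2 0 3 (qsf 0 536870912 0 536870912 3) ndB0q2 ndB1q0 pcB3 Cut.none Ext.none)

def k0_pm_203 : ∃ t, chk3 f_pm_203 t 1 1 1 = true :=
  ⟨(b (b (b (a (a (a (b (b (l 15577240) (l 15687528)) (l 15733704)) (b (a (l 15198720) (b (a (l 14919904) (a (l 14881528) (l 14867576))) (a (l 15036640) (l 14883808)))) (l 15061120))) (a (b (l 14975848) (a (b (a (a (l 14911552) (l 14895760)) (l 14920344)) (a (l 14995432) (l 14934792))) (l 14990992))) (b (l 15171864) (l 15139240)))) (a (a (a (l 15293032) (l 15374648)) (a (l 15582160) (l 15363624))) (a (a (b (l 15320832) (l 15288848)) (a (l 15224248) (l 15182624))) (a (a (l 15180424) (l 15177520)) (l 15146680))))) (a (a (b (a (l 15970928) (l 15485248)) (a (b (l 16277568) (l 16398800)) (l 15730016))) (a (b (a (b (l 15060952) (l 15199792)) (a (l 14859992) (l 15014256))) (a (l 15413312) (b (l 15101208) (l 15216912)))) (b (l 15133456) (l 15169968)))) (a (a (a (l 15273024) (l 15350200)) (b (l 15358000) (l 15389552)))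 (a (a (b (l 15278168) (l 2)) (l 2)) (l 2))))) (a (b (b (a (a (b (l 16508616) (l 16570304)) (l 16081664)) (a (l 15573768) (a (b (l 15192360) (l 2)) (l 15245672)))) (a (a (l 2) (l 2)) (l 2))) (l 2)) (a (l 2) (l 2)))) (l 2)), by decide +kernel⟩

theorem c_pm_203 : CertB 0 536870912 0 536870912 1033476505 6710887 3 eng mog cd0q2 cd1q0 pd3 true true false .up 2 0 3
    ndB0q2 ndB1q0 pcB3 Cut.none Ext.none :=
  certB1 (fam := true) (s1 := true) (s2 := false) (a := 2) (b := 0) (c := 3) (cn := .up) (n1 := ndB0q2) (n2 := ndB1q0) (pc := pcB3) (cut := Cut.none) (xt := Ext.none) (P1 := 0) (W1 := 536870912) (P2 := 0) (W2 := 536870912) (P3 := 1033476505) (W3 := 6710887) (N0 := 3) (En := eng) (mo := mog) (C1 := cd0q2) (C2 := cd1q0) (C3 := pd3)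
    rfl (fun _ => rfl) k0_pm_203

noncomputable def f_pm_213 : ℕ → ℕ → ℕ → ℕ → Bool := onCell 0 536870912 1610612736 536870912 1033476505 6710887
    (rowB 3 eng mog cd0q2 cd1q1 pd3 1 true true false .pnn 2 1 3 (qsf 0 536870912 536870912 536870912 3) ndB0q2 ndB1q1 pcB3 Cut.none Ext.none)

def k0_pm_213 : ∃ t, chk3 f_pm_213 t 2 1 1 = true :=
  ⟨(b (b (b (l 1) (a (l 1) (a (l 1) (b (l 1) (l 15929608))))) (b (a (b (a (a (b (l 1) (l 15429048)) (l 15639648)) (l 15765160)) (a (b (a (l 15431128) (l 15511800)) (l 81836330231)) (l 15618944))) (a (b (l 16205656) (l 16031336)) (b (a (b (l 15906136) (l 15970784)) (l 15979712)) (a (l 16131624) (b (l 16007472) (l 16051096)))))) (a (b (a (b (l 15477440) (l 4)) (b (l 15585816) (a (l 15558808) (l 15688888)))) (a (l 4) (b (a (l 4) (l 15650104)) (l 87742281943)))) (b (a (l 15795272) (b (l 16058168) (l 16309368))) (a (b (l 15928272) (l 15866280)) (l 16052944)))))) (b (a (l 4) (a (b (b (b (l 15583152) (a (l 15782136) (l 15874920))) (b (l 74320826327) (l 92037781911)))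 (l 4)) (b (b (l 15917160) (b (l 16102416) (l 16044256))) (b (b (l 49088281239) (l 70026379463)) (b (l 89890807751) (l 4)))))) (l 4))), by decide +kernel⟩

def k1_pm_213 : ∃ t, chk3 f_pm_213 t 3 2 1 = true :=
  ⟨(a (b (b (l 1) (a (a (l 16099224) (l 16216224)) (a (l 16291744) (l 16297840)))) (b (a (a (l 16092144) (l 16192216)) (l 16250232)) (a (b (a (l 16072456) (l 16194952)) (a (b (l 16192560) (l 16271640)) (l 16222176))) (a (l 16235848) (l 16197072))))) (a (b (a (b (l 235718872679) (l 16258120)) (b (a (l 16253016) (l 16199824)) (a (l 16217256) (l 16203592)))) (a (b (l 16173672) (l 16107272)) (b (l 16094568) (l 15996648)))) (b (a (b (a (l 16150232) (l 16100936)) (a (l 16165064) (l 16123904))) (b (l 16025192) (l 16057432))) (a (b (l 16103432) (l 15969096)) (b (l 16105488) (l 15927560)))))), by decide +kernel⟩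

def k2_pm_213 : ∃ t, chk3 f_pm_213 t 3 3 1 = true :=
  ⟨(a (b (b (a (b (a (l 16408016) (b (l 16244344) (l 16324152))) (a (l 16344184) (l 16444528))) (a (b (l 16259392) (b (l 16296464) (l 16343032))) (l 16181992))) (b (a (a (l 16293008) (l 16442256)) (a (b (l 16408328) (l 16477520)) (b (l 16250808) (l 16229168)))) (a (a (b (l 16315496) (l 16378344)) (b (l 16435488) (l 16461128))) (a (l 16513816) (b (l 16347872) (l 16410840)))))) (b (b (a (a (l 4) (b (l 16523952) (l 16613088))) (b (l 16318080) (a (l 16638976) (l 16511056)))) (a (l 4) (b (a (l 16680536) (l 16552256)) (a (l 4) (l 16588504))))) (l 4))) (b (a (b (a (l 15997088) (a (l 15971344) (l 15907408))) (a (b (l 16107760) (a (l 16092584) (l 16118344))) (a (l 15991440) (l 15905896)))) (a (b (a (l 15880888) (l 15850016)) (a (l 15855120) (l 15797144))) (b (l 15767088) (b (l 15682400) (l 15661264))))) (a (b (a (b (b (l 16182472) (l 16306600)) (b (l 16364392) (l 16420664))) (b (a (l 16059664) (l 16000304)) (a (b (l 16200232) (l 16273000)) (b (l 16094248)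 (l 16178024))))) (b (a (b (b (l 16464776) (l 16499304)) (l 4)) (b (a (l 16352272) (l 16272760)) (a (l 4) (b (l 16360400) (l 4))))) (l 4))) (b (a (b (a (l 15929880) (l 15853488)) (a (b (l 16022832) (l 16111064)) (l 15984728))) (b (l 15693120) (l 15826896))) (a (b (b (a (l 16221448) (l 16163328)) (a (b (l 16322192) (l 16405824)) (l 16337384))) (b (b (a (l 4) (l 16509464)) (l 4)) (l 4))) (b (b (l 16057216) (b (l 16256376) (l 16446040))) (b (b (a (l 16586816) (l 16796528)) (l 16755728)) (l 4)))))))), by decide +kernel⟩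

theorem s3_pm_213 : ∃ t, chk3 f_pm_213 t 3 1 1 = true := ex3_b k1_pm_213 k2_pm_213

theorem s4_pm_213 : ∃ t, chk3 f_pm_213 t 1 1 1 = true := ex3_a k0_pm_213 s3_pm_213

theorem c_pm_213 : CertB 0 536870912 536870912 536870912 1033476505 6710887 3 eng mog cd0q2 cd1q1 pd3 true true false .pnn 2 1 3
    ndB0q2 ndB1q1 pcB3 Cut.none Ext.none :=
  certB1 (fam := true) (s1 := true) (s2 := false) (a := 2) (b := 1) (c := 3) (cn := .pnn) (n1 := ndB0q2) (n2 := ndB1q1) (pc := pcB3) (cut := Cut.none) (xt := Ext.none) (P1 := 0) (W1 := 536870912) (P2 := 536870912) (W2 := 536870912) (P3 := 1033476505) (W3 := 6710887) (N0 := 3) (En := eng) (mo := mog) (C1 := cd0q2) (C2 := cd1q1) (C3 := pd3)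
    rfl (fun _ => rfl) s4_pm_213

noncomputable def f_mm_001 : ℕ → ℕ → ℕ → ℕ → Bool := onCell 0 536870912 0 536870912 1033476505 6710887
    (rowB 3 eng mog cd0q0 cd1q0 pd1 0 true false false .up 0 0 1 (qsf 0 536870912 0 536870912 1) ndB0q0 ndB1q0 pcB1 Cut.none Ext.none)

def k0_mm_001 : ∃ t, chk3 f_mm_001 t 1 1 1 = true :=
  ⟨(l 4), by decide +kernel⟩

theorem c_mm_001 : CertB 0 536870912 0 536870912 1033476505 6710887 3 eng mog cd0q0 cd1q0 pd1 true false false .up 0 0 1
    ndB0q0 ndB1q0 pcB1 Cut.none Ext.none :=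
  certB0 (fam := true) (s1 := false) (s2 := false) (a := 0) (b := 0) (c := 1) (cn := .up) (n1 := ndB0q0) (n2 := ndB1q0) (pc := pcB1) (cut := Cut.none) (xt := Ext.none) (P1 := 0) (W1 := 536870912) (P2 := 0) (W2 := 536870912) (P3 := 1033476505) (W3 := 6710887) (N0 := 3) (En := eng) (mo := mog) (C1 := cd0q0) (C2 := cd1q0) (C3 := pd1)
    rfl k0_mm_001

noncomputable def f_mm_011 : ℕ → ℕ → ℕ → ℕ → Bool := onCell 0 536870912 536870912 536870912 1033476505 6710887
    (rowB 3 eng mog cd0q0 cd1q1 pd1 0 true false false .pnn 0 1 1 (qsf 0 536870912 536870912 536870912 1) ndB0q0 ndB1q1 pcB1 Cut.none Ext.none)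

def k0_mm_011 : ∃ t, chk3 f_mm_011 t 1 1 1 = true :=
  ⟨(l 4), by decide +kernel⟩

theorem c_mm_011 : CertB 0 536870912 536870912 536870912 1033476505 6710887 3 eng mog cd0q0 cd1q1 pd1 true false false .pnn 0 1 1
    ndB0q0 ndB1q1 pcB1 Cut.none Ext.none :=
  certB0 (fam := true) (s1 := false) (s2 := false) (a := 0) (b := 1) (c := 1) (cn := .pnn) (n1 := ndB0q0) (n2 := ndB1q1) (pc := pcB1) (cut := Cut.none) (xt := Ext.none) (P1 := 0) (W1 := 536870912) (P2 := 536870912) (W2 := 536870912) (P3 := 1033476505) (W3 := 6710887) (N0 := 3) (En := eng) (mo := mog) (C1 := cd0q0) (C2 := cd1q1) (C3 := pd1)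
    rfl k0_mm_011

noncomputable def f_mm_012 : ℕ → ℕ → ℕ → ℕ → Bool := onCell 0 536870912 536870912 536870912 1033476505 6710887
    (rowB 3 eng mog cd0q0 cd1q1 pd2 0 true false false .pnp 0 1 2 (qsf 0 536870912 536870912 536870912 2) ndB0q0 ndB1q1 pcB2 Cut.none Ext.none)

def k0_mm_012 : ∃ t, chk3 f_mm_012 t 1 1 1 = true :=
  ⟨(l 4), by decide +kernel⟩

theorem c_mm_012 : CertB 0 536870912 536870912 536870912 1033476505 6710887 3 eng mog cd0q0 cd1q1 pd2 true false false .pnp 0 1 2
    ndB0q0 ndB1q1 pcB2 Cut.none Ext.none :=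
  certB0 (fam := true) (s1 := false) (s2 := false) (a := 0) (b := 1) (c := 2) (cn := .pnp) (n1 := ndB0q0) (n2 := ndB1q1) (pc := pcB2) (cut := Cut.none) (xt := Ext.none) (P1 := 0) (W1 := 536870912) (P2 := 536870912) (W2 := 536870912) (P3 := 1033476505) (W3 := 6710887) (N0 := 3) (En := eng) (mo := mog) (C1 := cd0q0) (C2 := cd1q1) (C3 := pd2)
    rfl k0_mm_012

noncomputable def f_mm_022_a : ℕ → ℕ → ℕ → ℕ → Bool := onCell 0 536870912 0 536870912 1033476505 6710887
    (rowB 3 eng mog cd0q0 cd1q2a pd2 0 true false false .pp 0 2 2 (qsf 0 536870912 0 536870912 2) ndB0q0 ndB1q2a pcB2 Cut.none Ext.none)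

def k0_mm_022_a : ∃ t, chk3 f_mm_022_a t 1 1 1 = true :=
  ⟨(l 5), by decide +kernel⟩

theorem c_mm_022_a : CertB 0 536870912 0 536870912 1033476505 6710887 3 eng mog cd0q0 cd1q2a pd2 true false false .pp 0 2 2
    ndB0q0 ndB1q2a pcB2 Cut.none Ext.none :=
  certB0 (fam := true) (s1 := false) (s2 := false) (a := 0) (b := 2) (c := 2) (cn := .pp) (n1 := ndB0q0) (n2 := ndB1q2a) (pc := pcB2) (cut := Cut.none) (xt := Ext.none) (P1 := 0) (W1 := 536870912) (P2 := 0) (W2 := 536870912) (P3 := 1033476505) (W3 := 6710887) (N0 := 3) (En := eng) (mo := mog) (C1 := cd0q0) (C2 := cd1q2a) (C3 := pd2)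
    rfl k0_mm_022_a

noncomputable def f_mm_022_b : ℕ → ℕ → ℕ → ℕ → Bool := onCell 0 536870912 1239849684 370763052 1033476505 6710887
    (rowB 3 eng mog cd0q0 cd1q2b pd2 0 true false false .pp 0 2 2 (qsf 0 536870912 1239849684 370763052 2) ndB0q0 ndB1q2b pcB2 Cut.none Ext.none)

def k0_mm_022_b : ∃ t, chk3 f_mm_022_b t 1 1 1 = true :=
  ⟨(l 5), by decide +kernel⟩

theorem c_mm_022_b : CertB 0 536870912 1239849684 370763052 1033476505 6710887 3 eng mog cd0q0 cd1q2b pd2 true false false .pp 0 2 2
    ndB0q0 ndB1q2b pcB2 Cut.none Ext.none :=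
  certB0 (fam := true) (s1 := false) (s2 := false) (a := 0) (b := 2) (c := 2) (cn := .pp) (n1 := ndB0q0) (n2 := ndB1q2b) (pc := pcB2) (cut := Cut.none) (xt := Ext.none) (P1 := 0) (W1 := 536870912) (P2 := 1239849684) (W2 := 370763052) (P3 := 1033476505) (W3 := 6710887) (N0 := 3) (En := eng) (mo := mog) (C1 := cd0q0) (C2 := cd1q2b) (C3 := pd2)
    rfl k0_mm_022_b

noncomputable def f_mm_023_a : ℕ → ℕ → ℕ → ℕ → Bool := onCell 0 536870912 0 536870912 1033476505 6710887
    (rowB 3 eng mog cd0q0 cd1q2a pd3 0 true false false .up 0 2 3 (qsf 0 536870912 0 536870912 3) ndB0q0 ndB1q2a pcB3 Cut.none Ext.none)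

def k0_mm_023_a : ∃ t, chk3 f_mm_023_a t 1 1 1 = true :=
  ⟨(l 5), by decide +kernel⟩

theorem c_mm_023_a : CertB 0 536870912 0 536870912 1033476505 6710887 3 eng mog cd0q0 cd1q2a pd3 true false false .up 0 2 3
    ndB0q0 ndB1q2a pcB3 Cut.none Ext.none :=
  certB0 (fam := true) (s1 := false) (s2 := false) (a := 0) (b := 2) (c := 3) (cn := .up) (n1 := ndB0q0) (n2 := ndB1q2a) (pc := pcB3) (cut := Cut.none) (xt := Ext.none) (P1 := 0) (W1 := 536870912) (P2 := 0) (W2 := 536870912) (P3 := 1033476505) (W3 := 6710887) (N0 := 3) (En := eng) (mo := mog) (C1 := cd0q0) (C2 := cd1q2a) (C3 := pd3)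
    rfl k0_mm_023_a

noncomputable def f_mm_023_b : ℕ → ℕ → ℕ → ℕ → Bool := onCell 0 536870912 1239849684 370763052 1033476505 6710887
    (rowB 3 eng mog cd0q0 cd1q2b pd3 0 true false false .up 0 2 3 (qsf 0 536870912 1239849684 370763052 3) ndB0q0 ndB1q2b pcB3 Cut.none Ext.none)

def k0_mm_023_b : ∃ t, chk3 f_mm_023_b t 1 1 1 = true :=
  ⟨(l 5), by decide +kernel⟩

theorem c_mm_023_b : CertB 0 536870912 1239849684 370763052 1033476505 6710887 3 eng mog cd0q0 cd1q2b pd3 true false false .up 0 2 3
    ndB0q0 ndB1q2b pcB3 Cut.none Ext.none :=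
  certB0 (fam := true) (s1 := false) (s2 := false) (a := 0) (b := 2) (c := 3) (cn := .up) (n1 := ndB0q0) (n2 := ndB1q2b) (pc := pcB3) (cut := Cut.none) (xt := Ext.none) (P1 := 0) (W1 := 536870912) (P2 := 1239849684) (W2 := 370763052) (P3 := 1033476505) (W3 := 6710887) (N0 := 3) (En := eng) (mo := mog) (C1 := cd0q0) (C2 := cd1q2b) (C3 := pd3)
    rfl k0_mm_023_b

noncomputable def f_mm_033 : ℕ → ℕ → ℕ → ℕ → Bool := onCell 0 536870912 1610612736 536870912 1033476505 6710887
    (rowB 3 eng mog cd0q0 cd1q3 pd3 0 true false false .pnn 0 3 3 (qsf 0 536870912 1610612736 536870912 3) ndB0q0 ndB1q3 pcB3 Cut.none Ext.none)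

def k0_mm_033 : ∃ t, chk3 f_mm_033 t 1 1 1 = true :=
  ⟨(l 5), by decide +kernel⟩

theorem c_mm_033 : CertB 0 536870912 1610612736 536870912 1033476505 6710887 3 eng mog cd0q0 cd1q3 pd3 true false false .pnn 0 3 3
    ndB0q0 ndB1q3 pcB3 Cut.none Ext.none :=
  certB0 (fam := true) (s1 := false) (s2 := false) (a := 0) (b := 3) (c := 3) (cn := .pnn) (n1 := ndB0q0) (n2 := ndB1q3) (pc := pcB3) (cut := Cut.none) (xt := Ext.none) (P1 := 0) (W1 := 536870912) (P2 := 1610612736) (W2 := 536870912) (P3 := 1033476505) (W3 := 6710887) (N0 := 3) (En := eng) (mo := mog) (C1 := cd0q0) (C2 := cd1q3) (C3 := pd3)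
    rfl k0_mm_033

noncomputable def cut_mm_101 : Cut := Cut.of [[⟨0, 1, 0, 33554432⟩, ⟨1, 0, 0, 33554432⟩, ⟨2, 1, 0, 33554432⟩]]

noncomputable def f_mm_101 : ℕ → ℕ → ℕ → ℕ → Bool := onCell 536870912 536870912 0 536870912 1033476505 6710887
    (rowB 3 eng mog cd0q1 cd1q0 pd1 0 true false false .npn 1 0 1 (qsf 536870912 536870912 0 536870912 1) ndB0q1 ndB1q0 pcB1 cut_mm_101 Ext.none)

def k0_mm_101 : ∃ t, chk3 f_mm_101 t 1 1 1 = true :=
  ⟨(a (l 4) (b (a (l 4) (b (a (l 4) (a (l 4) (b (b (a (l 4) (b (l 6) (l 4))) (l 4)) (l 2)))) (l 4))) (l 4))), by decide +kernel⟩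

theorem c_mm_101 : CertB 536870912 536870912 0 536870912 1033476505 6710887 3 eng mog cd0q1 cd1q0 pd1 true false false .npn 1 0 1
    ndB0q1 ndB1q0 pcB1 cut_mm_101 Ext.none :=
  certB0 (fam := true) (s1 := false) (s2 := false) (a := 1) (b := 0) (c := 1) (cn := .npn) (n1 := ndB0q1) (n2 := ndB1q0) (pc := pcB1) (cut := cut_mm_101) (xt := Ext.none) (P1 := 536870912) (W1 := 536870912) (P2 := 0) (W2 := 536870912) (P3 := 1033476505) (W3 := 6710887) (N0 := 3) (En := eng) (mo := mog) (C1 := cd0q1) (C2 := cd1q0) (C3 := pd1)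
    rfl k0_mm_101

noncomputable def cut_mm_102 : Cut := Cut.of [[⟨0, 1, 0, 33554432⟩, ⟨1, 0, 0, 33554432⟩, ⟨2, 1, 0, 33554432⟩]]

noncomputable def f_mm_102 : ℕ → ℕ → ℕ → ℕ → Bool := onCell 536870912 536870912 0 536870912 1033476505 6710887
    (rowB 3 eng mog cd0q1 cd1q0 pd2 0 true false false .npp 1 0 2 (qsf 536870912 536870912 0 536870912 2) ndB0q1 ndB1q0 pcB2 cut_mm_102 Ext.none)

def k0_mm_102 : ∃ t, chk3 f_mm_102 t 1 1 1 = true :=
  ⟨(a (l 4) (b (a (l 4) (b (a (l 4) (b (a (l 4) (a (l 4) (b (b (l 6) (l 4)) (l 4)))) (l 4))) (l 4))) (l 4))), by decide +kernel⟩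

theorem c_mm_102 : CertB 536870912 536870912 0 536870912 1033476505 6710887 3 eng mog cd0q1 cd1q0 pd2 true false false .npp 1 0 2
    ndB0q1 ndB1q0 pcB2 cut_mm_102 Ext.none :=
  certB0 (fam := true) (s1 := false) (s2 := false) (a := 1) (b := 0) (c := 2) (cn := .npp) (n1 := ndB0q1) (n2 := ndB1q0) (pc := pcB2) (cut := cut_mm_102) (xt := Ext.none) (P1 := 536870912) (W1 := 536870912) (P2 := 0) (W2 := 536870912) (P3 := 1033476505) (W3 := 6710887) (N0 := 3) (En := eng) (mo := mog) (C1 := cd0q1) (C2 := cd1q0) (C3 := pd2)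
    rfl k0_mm_102

noncomputable def f_mm_112 : ℕ → ℕ → ℕ → ℕ → Bool := onCell 536870912 536870912 536870912 536870912 1033476505 6710887
    (rowB 3 eng mog cd0q1 cd1q1 pd2 0 true false false .dn 1 1 2 (qsf 536870912 536870912 536870912 536870912 2) ndB0q1 ndB1q1 pcB2 Cut.none Ext.none)

def k0_mm_112 : ∃ t, chk3 f_mm_112 t 1 1 1 = true :=
  ⟨(l 4), by decide +kernel⟩

theorem c_mm_112 : CertB 536870912 536870912 536870912 536870912 1033476505 6710887 3 eng mog cd0q1 cd1q1 pd2 true false false .dn 1 1 2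
    ndB0q1 ndB1q1 pcB2 Cut.none Ext.none :=
  certB0 (fam := true) (s1 := false) (s2 := false) (a := 1) (b := 1) (c := 2) (cn := .dn) (n1 := ndB0q1) (n2 := ndB1q1) (pc := pcB2) (cut := Cut.none) (xt := Ext.none) (P1 := 536870912) (W1 := 536870912) (P2 := 536870912) (W2 := 536870912) (P3 := 1033476505) (W3 := 6710887) (N0 := 3) (En := eng) (mo := mog) (C1 := cd0q1) (C2 := cd1q1) (C3 := pd2)
    rfl k0_mm_112

noncomputable def f_mm_113 : ℕ → ℕ → ℕ → ℕ → Bool := onCell 536870912 536870912 536870912 536870912 1033476505 6710887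
    (rowB 3 eng mog cd0q1 cd1q1 pd3 0 true false false .nn 1 1 3 (qsf 536870912 536870912 536870912 536870912 3) ndB0q1 ndB1q1 pcB3 Cut.none Ext.none)

def k0_mm_113 : ∃ t, chk3 f_mm_113 t 1 1 1 = true :=
  ⟨(l 4), by decide +kernel⟩

theorem c_mm_113 : CertB 536870912 536870912 536870912 536870912 1033476505 6710887 3 eng mog cd0q1 cd1q1 pd3 true false false .nn 1 1 3
    ndB0q1 ndB1q1 pcB3 Cut.none Ext.none :=
  certB0 (fam := true) (s1 := false) (s2 := false) (a := 1) (b := 1) (c := 3) (cn := .nn) (n1 := ndB0q1) (n2 := ndB1q1) (pc := pcB3) (cut := Cut.none) (xt := Ext.none) (P1 := 536870912) (W1 := 536870912) (P2 := 536870912) (W2 := 536870912) (P3 := 1033476505) (W3 := 6710887) (N0 := 3) (En := eng) (mo := mog) (C1 := cd0q1) (C2 := cd1q1) (C3 := pd3)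
    rfl k0_mm_113

noncomputable def f_mm_123_a : ℕ → ℕ → ℕ → ℕ → Bool := onCell 536870912 536870912 0 536870912 1033476505 6710887
    (rowB 3 eng mog cd0q1 cd1q2a pd3 0 true false false .npn 1 2 3 (qsf 536870912 536870912 0 536870912 3) ndB0q1 ndB1q2a pcB3 Cut.none Ext.none)

def k0_mm_123_a : ∃ t, chk3 f_mm_123_a t 1 1 1 = true :=
  ⟨(a (l 5) (l 4)), by decide +kernel⟩

theorem c_mm_123_a : CertB 536870912 536870912 0 536870912 1033476505 6710887 3 eng mog cd0q1 cd1q2a pd3 true false false .npn 1 2 3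
    ndB0q1 ndB1q2a pcB3 Cut.none Ext.none :=
  certB0 (fam := true) (s1 := false) (s2 := false) (a := 1) (b := 2) (c := 3) (cn := .npn) (n1 := ndB0q1) (n2 := ndB1q2a) (pc := pcB3) (cut := Cut.none) (xt := Ext.none) (P1 := 536870912) (W1 := 536870912) (P2 := 0) (W2 := 536870912) (P3 := 1033476505) (W3 := 6710887) (N0 := 3) (En := eng) (mo := mog) (C1 := cd0q1) (C2 := cd1q2a) (C3 := pd3)
    rfl k0_mm_123_a

noncomputable def f_mm_123_b : ℕ → ℕ → ℕ → ℕ → Bool := onCell 536870912 536870912 1239849684 370763052 1033476505 6710887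
    (rowB 3 eng mog cd0q1 cd1q2b pd3 0 true false false .npn 1 2 3 (qsf 536870912 536870912 1239849684 370763052 3) ndB0q1 ndB1q2b pcB3 Cut.none Ext.none)

def k0_mm_123_b : ∃ t, chk3 f_mm_123_b t 1 1 1 = true :=
  ⟨(l 5), by decide +kernel⟩

theorem c_mm_123_b : CertB 536870912 536870912 1239849684 370763052 1033476505 6710887 3 eng mog cd0q1 cd1q2b pd3 true false false .npn 1 2 3
    ndB0q1 ndB1q2b pcB3 Cut.none Ext.none :=
  certB0 (fam := true) (s1 := false) (s2 := false) (a := 1) (b := 2) (c := 3) (cn := .npn) (n1 := ndB0q1) (n2 := ndB1q2b) (pc := pcB3) (cut := Cut.none) (xt := Ext.none) (P1 := 536870912) (W1 := 536870912) (P2 := 1239849684) (W2 := 370763052) (P3 := 1033476505) (W3 := 6710887) (N0 := 3) (En := eng) (mo := mog) (C1 := cd0q1) (C2 := cd1q2b) (C3 := pd3)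
    rfl k0_mm_123_b

noncomputable def f_mm_133 : ℕ → ℕ → ℕ → ℕ → Bool := onCell 536870912 536870912 1610612736 536870912 1033476505 6710887
    (rowB 3 eng mog cd0q1 cd1q3 pd3 0 true false false .dn 1 3 3 (qsf 536870912 536870912 1610612736 536870912 3) ndB0q1 ndB1q3 pcB3 Cut.none Ext.none)

def k0_mm_133 : ∃ t, chk3 f_mm_133 t 1 1 1 = true :=
  ⟨(l 4), by decide +kernel⟩

theorem c_mm_133 : CertB 536870912 536870912 1610612736 536870912 1033476505 6710887 3 eng mog cd0q1 cd1q3 pd3 true false false .dn 1 3 3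
    ndB0q1 ndB1q3 pcB3 Cut.none Ext.none :=
  certB0 (fam := true) (s1 := false) (s2 := false) (a := 1) (b := 3) (c := 3) (cn := .dn) (n1 := ndB0q1) (n2 := ndB1q3) (pc := pcB3) (cut := Cut.none) (xt := Ext.none) (P1 := 536870912) (W1 := 536870912) (P2 := 1610612736) (W2 := 536870912) (P3 := 1033476505) (W3 := 6710887) (N0 := 3) (En := eng) (mo := mog) (C1 := cd0q1) (C2 := cd1q3) (C3 := pd3)
    rfl k0_mm_133

noncomputable def cut_mm_202 : Cut := Cut.of [[⟨0, 1, 0, 33554432⟩, ⟨1, 0, 0, 33554432⟩, ⟨2, 1, 0, 33554432⟩]]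

noncomputable def f_mm_202 : ℕ → ℕ → ℕ → ℕ → Bool := onCell 0 536870912 0 536870912 1033476505 6710887
    (rowB 3 eng mog cd0q2 cd1q0 pd2 0 true false false .pp 2 0 2 (qsf 0 536870912 0 536870912 2) ndB0q2 ndB1q0 pcB2 cut_mm_202 Ext.none)

def k0_mm_202 : ∃ t, chk3 f_mm_202 t 2 2 1 = true :=
  ⟨(b (b (a (b (a (l 16326128) (l 16218032)) (a (l 16265552) (b (l 16256936) (a (l 16184560) (l 16203424))))) (b (a (b (a (b (l 16318336) (l 16399232)) (l 16354440)) (a (l 16468264) (l 16493968))) (a (b (l 16405352) (l 16504128)) (b (l 16425912) (l 16505560)))) (a (b (a (l 16359968) (l 16402552)) (l 16246480)) (a (b (l 16430840) (l 16381648)) (b (l 16444064) (l 16408920)))))) (a (a (b (l 16045128) (a (l 15841144) (a (l 15803192) (b (l 15841656) (l 15750944))))) (b (a (b (l 16065280) (l 15962408)) (l 15898752)) (a (b (l 15888352) (l 15856512)) (l 16021840)))) (a (b (a (l 16194496) (l 16282296)) (a (l 16161480) (l 16283336))) (b (a (l 16352200) (b (l 16399264) (l 16411728))) (a (l 16343856) (b (l 16444352)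 (l 16494544))))))) (a (b (a (b (a (b (l 15682552) (l 15590256)) (a (b (l 15657088) (l 15602776)) (l 15669512))) (a (b (a (l 15503024) (b (l 15496720) (l 15479176))) (a (l 15414616) (l 15507568))) (l 15663736))) (b (a (l 15843728) (l 16027816)) (a (l 15878072) (l 16087120)))) (a (b (b (a (l 15468144) (l 15701392)) (l 15618472)) (l 15577928)) (b (a (l 15947616) (l 16172416)) (a (l 16040544) (l 16272216))))) (b (a (b (a (l 16198680) (l 16309320)) (a (l 16262256) (b (l 16431768) (l 16492760)))) (b (a (l 16358360) (l 16428256)) (a (l 16450232) (b (l 16513504) (l 16444472))))) (a (b (a (l 16322736) (l 16477928)) (a (l 16492448) (l 16566016))) (b (a (l 16328376) (b (l 16375192) (l 16310200))) (a (b (l 16424016) (l 16382328)) (b (l 16218600) (l 60899997751)))))))), by decide +kernel⟩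

def k1_mm_202 : ∃ t, chk3 f_mm_202 t 6 4 1 = true :=
  ⟨(b (a (b (a (b (l 16385880) (l 16456384)) (b (a (l 16504504) (l 16464664)) (a (l 16490808) (l 16483704)))) (a (b (l 16376304) (l 16419136)) (b (a (l 16432440) (l 16427528)) (l 16350488)))) (b (a (a (b (l 16535912) (l 16489448)) (b (l 16512360) (l 16482112))) (b (a (l 16479184) (b (l 16497752) (l 16549568))) (a (l 16574080) (l 16561688)))) (a (b (a (l 16438920) (l 16406560)) (a (l 16413864) (l 16434512))) (b (a (l 16430416) (b (l 16594616) (l 16557648))) (a (b (l 16473160) (l 16466960)) (b (l 16527000) (l 16510808))))))) (a (b (a (b (l 16422752) (l 16449400)) (b (a (l 16427480) (l 16426856)) (a (l 16464072) (l 16468992)))) (a (b (l 16496624) (l 16561688)) (a (l 16431400) (b (l 16532752) (l 16615312))))) (b (a (b (a (l 16434584) (l 16454328)) (a (l 16480544) (l 16504232))) (b (a (b (l 16474224) (l 16493712)) (b (l 16512488) (l 16527496))) (a (l 16535352) (l 16508864)))) (a (b (b (l 16502024) (l 16574776)) (a (l 16639848) (l 16646936))) (b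 (a (l 16583104) (b (l 16629936) (l 16677424))) (a (l 16604328) (b (l 16671064) (l 16628672)))))))), by decide +kernel⟩

def k2_mm_202 : ∃ t, chk3 f_mm_202 t 14 8 1 = true :=
  ⟨(b (a (b (a (b (l 16478992) (l 16528776)) (b (a (l 16466328) (l 16459664)) (a (l 16514936) (l 16507584)))) (a (l 16516240) (b (l 16535960) (l 16579488)))) (a (b (b (a (a (l 16455976) (l 16454464)) (a (l 16433184) (b (l 16443128) (l 16466896)))) (a (l 16502512) (a (l 16501232) (l 16502024)))) (a (b (l 16547176) (l 16588920)) (b (l 16545376) (l 16586056)))) (b (a (b (a (b (a (l 16444784) (l 16446304)) (l 16469072)) (b (a (l 16427664) (b (l 16446280) (l 16458336))) (a (l 16472256) (l 16475920)))) (a (l 16483064) (b (l 16497280) (l 16519880)))) (b (a (b (a (b (l 16430352) (l 16463360)) (b (l 16447136) (l 16469632))) (a (l 16480904) (l 16487128))) (b (b (a (b (l 16462056) (l 16468120)) (c (l 16454176) (l 16451208))) (a (l 16477072) (l 16485608))) (b (l 16492864) (l 16504320)))) (a (b (l 16507088) (l 16529520)) (b (l 16521696)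 (l 16543944))))) (a (b (a (l 16547464) (l 16551816)) (l 16589056)) (b (a (l 16561224) (l 16575328)) (l 16564488)))))) (a (b (a (b (l 16659672) (l 16603840)) (a (l 16648032) (l 16615328))) (a (b (l 16573976) (l 16569568)) (b (l 16602040) (l 16576792)))) (a (b (a (l 16606112) (l 16601120)) (b (l 16658848) (a (l 16691936) (l 16724872)))) (b (a (b (l 16626056) (l 16661288)) (b (l 16642016) (l 16675504))) (a (b (l 16695504) (l 16729096)) (b (l 16686544) (l 16726912))))))), by decide +kernel⟩

def k3_mm_202 : ∃ t, chk3 f_mm_202 t 30 8 1 = true :=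
  ⟨(b (a (b (a (b (a (b (a (b (b (l 16472416) (l 16486312)) (l 16495216)) (b (b (l 16490568) (l 16496584)) (l 16505464))) (b (l 16511856) (l 16523224))) (b (b (b (a (l 16500768) (l 16500256)) (l 16511784)) (b (l 16517696) (l 16523528))) (b (l 16532128) (l 16543424)))) (a (b (l 16540472) (l 16562520)) (b (l 16560544) (l 16582408)))) (b (b (a (b (a (b (l 16510024) (l 16526488)) (b (l 16519600) (l 16536056))) (b (l 16537184) (l 16542992))) (b (a (b (l 16529008) (l 16545456)) (b (l 16538256) (l 16554696))) (a (l 16554240) (l 16563472)))) (a (b (l 16551552) (l 16562792)) (b (l 16570288) (l 16581472)))) (b (a (l 16579808) (l 16598408)) (l 16589856)))) (a (b (a (l 16593552) (l 16613096)) (a (l 16631392) (l 16650432))) (b (b (l 16631272) (l 16650624)) (l 16656752)))) (b (b (a (b (a (b (b (l 6) (c (l 16569184) (l 16567448))) (a (l 16572576) (l 16581560))) (l 6)) (a (b (l 16588472) (l 16599624)) (b (l 16606240) (l 16617384)))) (b (l 6) (a (b (l 6) (l 16634896)) (l 6)))) (a (b (a (l 16616496) (l 16634208))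 (a (l 16637952) (l 16655592))) (b (a (l 16651704) (l 16669144)) (l 16650280)))) (b (a (a (l 16646920) (l 16664384)) (b (l 16680792) (l 16699592))) (a (l 16670600) (b (l 16717048) (a (l 16745608) (l 16756456))))))) (a (b (a (b (l 16653760) (l 16685304)) (b (l 16689576) (b (l 16710568) (l 16718912)))) (a (b (a (l 16704632) (l 16715088)) (l 4)) (l 4))) (b (a (b (b (l 16714992) (l 16724560)) (b (l 16728680) (l 4))) (b (a (b (l 16732888) (l 4)) (l 4)) (l 4))) (l 4)))), by decide +kernel⟩

def k4_mm_202 : ∃ t, chk3 f_mm_202 t 31 8 1 = true :=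
  ⟨(b (b (a (b (l 6) (a (b (a (l 16665800) (l 6)) (a (l 16708080) (l 16705096))) (l 6))) (l 6)) (a (b (a (b (l 16695056) (a (l 16725728) (l 39963262167))) (b (a (b (l 16738032) (l 16743832)) (a (l 16768584) (l 4))) (a (l 53385088695) (l 4)))) (a (b (a (l 16737648) (l 4)) (l 4)) (l 4))) (l 4))) (l 4)), by decide +kernel⟩

def k5_mm_202 : ∃ t, chk3 f_mm_202 t 7 9 1 = true :=
  ⟨(a (b (a (b (a (b (l 16559712) (l 16547704)) (b (l 16577184) (a (l 16602240) (l 16628120)))) (a (b (a (l 16583736) (l 16601440)) (l 16626512)) (b (a (l 16620672) (l 16599584)) (a (l 16654640) (l 116735550119))))) (a (b (b (a (l 16669824) (l 16660872)) (a (l 16656920) (l 88281462439))) (b (a (l 92576364567) (l 4)) (l 4))) (b (a (b (a (l 16727752) (l 16746480)) (l 4)) (l 4)) (l 4)))) (a (b (a (a (l 16619008) (b (l 16677392) (l 16721480))) (a (b (l 16698056) (l 4)) (l 4))) (a (l 4) (l 4))) (l 4))) (l 4)), by decide +kernel⟩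

def k6_mm_202 : ∃ t, chk3 f_mm_202 t 3 5 1 = true :=
  ⟨(a (b (a (b (a (b (l 16584720) (l 16511360)) (b (l 16522880) (l 16411968))) (a (b (l 16429632) (l 16343304)) (b (a (l 16385424) (l 16367056)) (a (l 16288448) (l 16223192))))) (b (a (b (a (l 16559184) (l 16532560)) (a (l 16458584) (l 89354615783))) (b (a (b (l 16576832) (l 16532616)) (l 4)) (l 4))) (a (b (a (l 92575663095) (l 4)) (l 4)) (l 4)))) (a (b (a (b (l 16113040) (a (l 16211600) (l 16189056))) (b (a (l 16222648) (l 4)) (l 4))) (a (b (a (l 16191672) (l 4)) (l 4)) (l 4))) (l 4))) (l 4)), by decide +kernel⟩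

def k7_mm_202 : ∃ t, chk3 f_mm_202 t 1 3 1 = true :=
  ⟨(a (a (b (b (a (b (l 15731376) (l 15866944)) (b (a (l 16158800) (l 16393664)) (a (l 16296624) (l 16531448)))) (a (b (l 15958560) (l 16064960)) (b (a (l 16428320) (l 16617040)) (a (l 16591696) (b (l 16622592) (l 2)))))) (l 2)) (b (b (a (b (a (l 16615656) (l 16398416)) (a (l 16525296) (b (l 16419704) (l 16390464)))) (b (a (b (l 16344072) (l 52847099047)) (b (l 16265624) (l 4))) (a (b (l 16358032) (l 4)) (l 4)))) (a (b (a (b (l 16515120) (l 16491304)) (l 63584778231)) (a (l 63584991383) (l 4))) (l 4))) (l 4))) (l 4)), by decide +kernel⟩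

theorem s8_mm_202 : ∃ t, chk3 f_mm_202 t 15 8 1 = true := ex3_a k3_mm_202 k4_mm_202

theorem s9_mm_202 : ∃ t, chk3 f_mm_202 t 7 8 1 = true := ex3_a k2_mm_202 s8_mm_202

theorem s10_mm_202 : ∃ t, chk3 f_mm_202 t 7 4 1 = true := ex3_b s9_mm_202 k5_mm_202

theorem s11_mm_202 : ∃ t, chk3 f_mm_202 t 3 4 1 = true := ex3_a k1_mm_202 s10_mm_202

theorem s12_mm_202 : ∃ t, chk3 f_mm_202 t 3 2 1 = true := ex3_b s11_mm_202 k6_mm_202

theorem s13_mm_202 : ∃ t, chk3 f_mm_202 t 1 2 1 = true := ex3_a k0_mm_202 s12_mm_202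

theorem s14_mm_202 : ∃ t, chk3 f_mm_202 t 1 1 1 = true := ex3_b s13_mm_202 k7_mm_202

theorem c_mm_202 : CertB 0 536870912 0 536870912 1033476505 6710887 3 eng mog cd0q2 cd1q0 pd2 true false false .pp 2 0 2
    ndB0q2 ndB1q0 pcB2 cut_mm_202 Ext.none :=
  certB0 (fam := true) (s1 := false) (s2 := false) (a := 2) (b := 0) (c := 2) (cn := .pp) (n1 := ndB0q2) (n2 := ndB1q0) (pc := pcB2) (cut := cut_mm_202) (xt := Ext.none) (P1 := 0) (W1 := 536870912) (P2 := 0) (W2 := 536870912) (P3 := 1033476505) (W3 := 6710887) (N0 := 3) (En := eng) (mo := mog) (C1 := cd0q2) (C2 := cd1q0) (C3 := pd2)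
    rfl s14_mm_202

noncomputable def f_mm_203 : ℕ → ℕ → ℕ → ℕ → Bool := onCell 0 536870912 1610612736 536870912 1033476505 6710887
    (rowB 3 eng mog cd0q2 cd1q0 pd3 1 true false false .up 2 0 3 (qsf 0 536870912 0 536870912 3) ndB0q2 ndB1q0 pcB3 Cut.none Ext.none)

def k0_mm_203 : ∃ t, chk3 f_mm_203 t 1 1 1 = true :=
  ⟨(a (b (a (a (b (b (b (b (l 16146744) (l 16251080)) (b (l 16315520) (l 16402256))) (b (a (l 16455568) (b (l 16683248) (l 16729168))) (b (l 16641672) (l 16712648)))) (b (b (l 79154490023) (l 2)) (l 2))) (b (b (b (a (l 16447512) (b (l 16579016) (l 16641448))) (a (b (l 16733592) (l 16724120)) (l 4))) (l 4)) (l 4))) (b (l 4) (l 4))) (l 2)) (l 4)), by decide +kernel⟩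

theorem c_mm_203 : CertB 0 536870912 0 536870912 1033476505 6710887 3 eng mog cd0q2 cd1q0 pd3 true false false .up 2 0 3
    ndB0q2 ndB1q0 pcB3 Cut.none Ext.none :=
  certB1 (fam := true) (s1 := false) (s2 := false) (a := 2) (b := 0) (c := 3) (cn := .up) (n1 := ndB0q2) (n2 := ndB1q0) (pc := pcB3) (cut := Cut.none) (xt := Ext.none) (P1 := 0) (W1 := 536870912) (P2 := 0) (W2 := 536870912) (P3 := 1033476505) (W3 := 6710887) (N0 := 3) (En := eng) (mo := mog) (C1 := cd0q2) (C2 := cd1q0) (C3 := pd3)
    rfl (fun _ => rfl) k0_mm_203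

noncomputable def f_mm_213 : ℕ → ℕ → ℕ → ℕ → Bool := onCell 0 536870912 536870912 536870912 1033476505 6710887
    (rowB 3 eng mog cd0q2 cd1q1 pd3 0 true false false .pnn 2 1 3 (qsf 0 536870912 536870912 536870912 3) ndB0q2 ndB1q1 pcB3 Cut.none Ext.none)

def k0_mm_213 : ∃ t, chk3 f_mm_213 t 1 1 1 = true :=
  ⟨(a (b (l 4) (l 4)) (l 4)), by decide +kernel⟩

theorem c_mm_213 : CertB 0 536870912 536870912 536870912 1033476505 6710887 3 eng mog cd0q2 cd1q1 pd3 true false false .pnn 2 1 3
    ndB0q2 ndB1q1 pcB3 Cut.none Ext.none :=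
  certB0 (fam := true) (s1 := false) (s2 := false) (a := 2) (b := 1) (c := 3) (cn := .pnn) (n1 := ndB0q2) (n2 := ndB1q1) (pc := pcB3) (cut := Cut.none) (xt := Ext.none) (P1 := 0) (W1 := 536870912) (P2 := 536870912) (W2 := 536870912) (P3 := 1033476505) (W3 := 6710887) (N0 := 3) (En := eng) (mo := mog) (C1 := cd0q2) (C2 := cd1q1) (C3 := pd3)
    rfl k0_mm_213

end Pool.Agent.Strip051.G.I9625_9688.Tab.C.BA01

namespace Pool.Agent.Strip051.G.I9625_9688.Tab.C.BA02

open Pool.Agent.Strip051.PB Pool.Agent.Strip051.PB.T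
open Pool.Agent.Strip051.G.I9625_9688.Tab

noncomputable def f_pp_001 : ℕ → ℕ → ℕ → ℕ → Bool := onCell 0 536870912 0 536870912 1033476505 6710887
    (rowB 3 eng mog cd0q0 cd2q0 pd1 0 true true true .up 0 0 1 (qsf 0 536870912 0 536870912 1) ndB0q0 ndB2q0 pcB1 Cut.none Ext.none)

def k0_pp_001 : ∃ t, chk3 f_pp_001 t 1 1 1 = true :=
  ⟨(l 4), by decide +kernel⟩

theorem c_pp_001 : CertB 0 536870912 0 536870912 1033476505 6710887 3 eng mog cd0q0 cd2q0 pd1 true true true .up 0 0 1
    ndB0q0 ndB2q0 pcB1 Cut.none Ext.none :=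
  certB0 (fam := true) (s1 := true) (s2 := true) (a := 0) (b := 0) (c := 1) (cn := .up) (n1 := ndB0q0) (n2 := ndB2q0) (pc := pcB1) (cut := Cut.none) (xt := Ext.none) (P1 := 0) (W1 := 536870912) (P2 := 0) (W2 := 536870912) (P3 := 1033476505) (W3 := 6710887) (N0 := 3) (En := eng) (mo := mog) (C1 := cd0q0) (C2 := cd2q0) (C3 := pd1)
    rfl k0_pp_001

noncomputable def f_pp_011 : ℕ → ℕ → ℕ → ℕ → Bool := onCell 0 536870912 536870912 536870912 1033476505 6710887
    (rowB 3 eng mog cd0q0 cd2q1 pd1 0 true true true .pnn 0 1 1 (qsf 0 536870912 536870912 536870912 1) ndB0q0 ndB2q1 pcB1 Cut.none Ext.none)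

def k0_pp_011 : ∃ t, chk3 f_pp_011 t 1 1 1 = true :=
  ⟨(l 4), by decide +kernel⟩

theorem c_pp_011 : CertB 0 536870912 536870912 536870912 1033476505 6710887 3 eng mog cd0q0 cd2q1 pd1 true true true .pnn 0 1 1
    ndB0q0 ndB2q1 pcB1 Cut.none Ext.none :=
  certB0 (fam := true) (s1 := true) (s2 := true) (a := 0) (b := 1) (c := 1) (cn := .pnn) (n1 := ndB0q0) (n2 := ndB2q1) (pc := pcB1) (cut := Cut.none) (xt := Ext.none) (P1 := 0) (W1 := 536870912) (P2 := 536870912) (W2 := 536870912) (P3 := 1033476505) (W3 := 6710887) (N0 := 3) (En := eng) (mo := mog) (C1 := cd0q0) (C2 := cd2q1) (C3 := pd1)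
    rfl k0_pp_011

noncomputable def f_pp_012 : ℕ → ℕ → ℕ → ℕ → Bool := onCell 0 536870912 536870912 536870912 1033476505 6710887
    (rowB 3 eng mog cd0q0 cd2q1 pd2 0 true true true .pnp 0 1 2 (qsf 0 536870912 536870912 536870912 2) ndB0q0 ndB2q1 pcB2 Cut.none Ext.none)

def k0_pp_012 : ∃ t, chk3 f_pp_012 t 1 1 1 = true :=
  ⟨(l 4), by decide +kernel⟩

theorem c_pp_012 : CertB 0 536870912 536870912 536870912 1033476505 6710887 3 eng mog cd0q0 cd2q1 pd2 true true true .pnp 0 1 2
    ndB0q0 ndB2q1 pcB2 Cut.none Ext.none :=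
  certB0 (fam := true) (s1 := true) (s2 := true) (a := 0) (b := 1) (c := 2) (cn := .pnp) (n1 := ndB0q0) (n2 := ndB2q1) (pc := pcB2) (cut := Cut.none) (xt := Ext.none) (P1 := 0) (W1 := 536870912) (P2 := 536870912) (W2 := 536870912) (P3 := 1033476505) (W3 := 6710887) (N0 := 3) (En := eng) (mo := mog) (C1 := cd0q0) (C2 := cd2q1) (C3 := pd2)
    rfl k0_pp_012

noncomputable def cut_pp_022_a : Cut := Cut.of [[⟨0, 0, 0, 33554432⟩, ⟨1, 1, 0, 33554432⟩, ⟨2, 1, 0, 33554432⟩]]

noncomputable def f_pp_022_a : ℕ → ℕ → ℕ → ℕ → Bool := onCell 0 536870912 0 536870912 1033476505 6710887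
    (rowB 3 eng mog cd0q0 cd2q2a pd2 0 true true true .pp 0 2 2 (qsf 0 536870912 0 536870912 2) ndB0q0 ndB2q2a pcB2 cut_pp_022_a Ext.none)

def k0_pp_022_a : ∃ t, chk3 f_pp_022_a t 4 2 1 = true :=
  ⟨(a (a (b (b (a (l 16431192) (l 16442240)) (a (l 16453696) (l 16449656))) (b (a (b (l 16476784) (l 16472776)) (l 16489544)) (a (b (l 16469544) (l 16471584)) (b (a (l 16488744) (l 16515688)) (a (l 16480440) (l 16499568)))))) (b (b (a (l 16437936) (l 16414264)) (a (l 16429496) (l 16389616))) (b (a (l 16460432) (l 16345120)) (a (b (l 16511176) (l 16527328)) (b (l 16454136) (l 16483096)))))) (a (b (a (b (l 16362640) (l 16321720)) (b (l 16246784) (a (l 16250080) (l 16209368)))) (b (a (b (l 16319352) (l 16335752)) (a (l 16245896) (l 16198400))) (a (b (l 16367016) (l 74858951975)) (b (a (l 16280920) (l 16235032)) (a (l 16332696) (l 4)))))) (b (a (b (l 16215664) (a (l 16189976) (l 16184256))) (b (l 16271136) (b (l 16198328) (l 16166320)))) (b (a (a (b (l 16168912) (l 16178112)) (b (l 16157976) (l 16173608)))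 (b (l 16140800) (l 4))) (l 4))))), by decide +kernel⟩

def k1_pp_022_a : ∃ t, chk3 f_pp_022_a t 4 3 1 = true :=
  ⟨(b (a (a (b (a (b (a (l 16503464) (l 16488400)) (a (l 16540264) (l 16518248))) (b (a (l 16477880) (l 16488424)) (a (l 16479488) (l 16488800)))) (a (b (l 16504264) (a (l 16605096) (l 16594688))) (b (a (b (l 16528376) (l 16551424)) (b (l 16510048) (l 16530864))) (a (l 16560992) (b (l 16555528) (l 16579760)))))) (b (a (b (a (l 16489552) (l 16545528)) (a (b (l 16499216) (l 16495072)) (b (l 16525968) (l 16515984)))) (b (l 16451232) (a (l 16518176) (l 16544752)))) (a (b (a (b (l 16499768) (l 16516872)) (b (l 16512512) (l 16516848))) (a (b (l 16540840) (l 4)) (l 4))) (l 4)))) (a (b (a (b (a (l 16483096) (l 4)) (l 4)) (l 4)) (l 4)) (l 4))) (a (a (b (a (a (b (l 16632496) (b (l 16652656) (l 16646360))) (b (l 16625272) (b (l 16646640) (b (l 16658424) (l 16667856))))) (b (a (b (l 16608936) (l 16627856)) (b (l 16605136) (l 4))) (b (a (l 16627776) (l 4)) (l 4)))) (a (a (b (b (b (l 16679328) (l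 16688048)) (a (b (l 16699720) (l 6)) (b (l 16696056) (l 16687096)))) (l 6)) (b (b (a (l 442616278791) (l 4)) (l 4)) (l 4))) (l 4))) (l 4)) (l 4))), by decide +kernel⟩

def k2_pp_022_a : ∃ t, chk3 f_pp_022_a t 5 1 1 = true :=
  ⟨(b (a (b (a (b (a (l 16290800) (l 16312256)) (a (b (l 16207072) (l 16184608)) (b (l 16236576) (l 4)))) (b (a (b (l 16371160) (l 16313208)) (b (l 16409360) (l 16383128))) (l 4))) (l 4)) (b (a (b (a (l 146799797271) (l 4)) (l 4)) (l 4)) (l 4))) (l 4)), by decide +kernel⟩

def k3_pp_022_a : ∃ t, chk3 f_pp_022_a t 3 1 1 = true :=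
  ⟨(l 4), by decide +kernel⟩

theorem s4_pp_022_a : ∃ t, chk3 f_pp_022_a t 4 1 1 = true := ex3_b k0_pp_022_a k1_pp_022_a

theorem s5_pp_022_a : ∃ t, chk3 f_pp_022_a t 2 1 1 = true := ex3_a s4_pp_022_a k2_pp_022_a

theorem s6_pp_022_a : ∃ t, chk3 f_pp_022_a t 1 1 1 = true := ex3_a s5_pp_022_a k3_pp_022_a

theorem c_pp_022_a : CertB 0 536870912 0 536870912 1033476505 6710887 3 eng mog cd0q0 cd2q2a pd2 true true true .pp 0 2 2
    ndB0q0 ndB2q2a pcB2 cut_pp_022_a Ext.none :=
  certB0 (fam := true) (s1 := true) (s2 := true) (a := 0) (b := 2) (c := 2) (cn := .pp) (n1 := ndB0q0) (n2 := ndB2q2a) (pc := pcB2) (cut := cut_pp_022_a) (xt := Ext.none) (P1 := 0) (W1 := 536870912) (P2 := 0) (W2 := 536870912) (P3 := 1033476505) (W3 := 6710887) (N0 := 3) (En := eng) (mo := mog) (C1 := cd0q0) (C2 := cd2q2a) (C3 := pd2)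
    rfl s6_pp_022_a

noncomputable def cut_pp_022_b : Cut := Cut.of [[⟨0, 0, 0, 33554432⟩, ⟨1, 1, 0, 33554432⟩, ⟨2, 1, 0, 33554432⟩]]

noncomputable def f_pp_022_b : ℕ → ℕ → ℕ → ℕ → Bool := onCell 0 536870912 1073741824 536870912 1033476505 6710887
    (rowB 3 eng mog cd0q0 cd2q2b pd2 1 true true true .pp 0 2 2 (qsf 0 536870912 1239849684 370763052 2) ndB0q0 ndB2q2b pcB2 cut_pp_022_b Ext.none)

def k0_pp_022_b : ∃ t, chk3 f_pp_022_b t 1 1 1 = true :=
  ⟨(b (a (a (b (l 1) (b (a (b (a (b (l 1) (l 172368555079)) (l 1)) (a (b (l 16453008) (l 16367656)) (b (l 1) (l 16535424)))) (l 1)) (a (b (a (l 16313576) (b (l 16476464) (l 16379272))) (a (l 16097000) (l 16136560))) (a (b (a (l 215318274183) (l 1)) (a (l 16294576) (l 325913030135))) (b (l 1) (a (a (l 16282808) (l 1)) (l 1))))))) (l 1)) (l 1)) (a (a (b (a (b (b (a (l 15927704) (l 16047088)) (a (l 15701872) (l 15816608))) (b (a (l 15487640) (l 15597696)) (a (l 15342680) (l 15467824)))) (b (a (b (a (l 16118912) (l 15985088)) (a (l 15885504) (l 15917864)))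 (b (a (b (l 16296368) (l 16180488)) (l 380136896599)) (a (b (l 16061912) (l 15944080)) (l 16055120)))) (a (b (a (l 15663424) (l 15693920)) (a (l 15543384) (l 15579464))) (b (a (l 15714264) (l 15912088)) (a (l 15666720) (l 15803792)))))) (l 4)) (b (b (a (b (a (a (b (l 1) (l 16442736)) (l 1)) (l 1)) (a (b (l 391948099879) (l 213169848247)) (b (l 1) (a (l 16432464) (l 1))))) (l 1)) (b (a (a (b (l 16122000) (l 16078520)) (b (l 401075050535) (l 235181723623))) (a (a (b (l 1) (l 651257260215)) (l 1)) (l 1))) (b (a (a (l 16025360) (l 16302968)) (a (a (l 16481528) (l 626024458679)) (l 1))) (l 4)))) (l 4))) (b (l 1) (a (b (a (l 4) (l 1)) (l 4)) (l 1))))), by decide +kernel⟩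

theorem c_pp_022_b : CertB 0 536870912 1239849684 370763052 1033476505 6710887 3 eng mog cd0q0 cd2q2b pd2 true true true .pp 0 2 2
    ndB0q0 ndB2q2b pcB2 cut_pp_022_b Ext.none :=
  certB1 (fam := true) (s1 := true) (s2 := true) (a := 0) (b := 2) (c := 2) (cn := .pp) (n1 := ndB0q0) (n2 := ndB2q2b) (pc := pcB2) (cut := cut_pp_022_b) (xt := Ext.none) (P1 := 0) (W1 := 536870912) (P2 := 1239849684) (W2 := 370763052) (P3 := 1033476505) (W3 := 6710887) (N0 := 3) (En := eng) (mo := mog) (C1 := cd0q0) (C2 := cd2q2b) (C3 := pd2)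
    rfl (fun _ => rfl) k0_pp_022_b

noncomputable def f_pp_023_a : ℕ → ℕ → ℕ → ℕ → Bool := onCell 0 536870912 0 536870912 1033476505 6710887
    (rowB 3 eng mog cd0q0 cd2q2a pd3 0 true true true .up 0 2 3 (qsf 0 536870912 0 536870912 3) ndB0q0 ndB2q2a pcB3 Cut.none Ext.none)

def k0_pp_023_a : ∃ t, chk3 f_pp_023_a t 1 1 1 = true :=
  ⟨(a (l 1) (l 4)), by decide +kernel⟩

theorem c_pp_023_a : CertB 0 536870912 0 536870912 1033476505 6710887 3 eng mog cd0q0 cd2q2a pd3 true true true .up 0 2 3
    ndB0q0 ndB2q2a pcB3 Cut.none Ext.none :=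
  certB0 (fam := true) (s1 := true) (s2 := true) (a := 0) (b := 2) (c := 3) (cn := .up) (n1 := ndB0q0) (n2 := ndB2q2a) (pc := pcB3) (cut := Cut.none) (xt := Ext.none) (P1 := 0) (W1 := 536870912) (P2 := 0) (W2 := 536870912) (P3 := 1033476505) (W3 := 6710887) (N0 := 3) (En := eng) (mo := mog) (C1 := cd0q0) (C2 := cd2q2a) (C3 := pd3)
    rfl k0_pp_023_a

noncomputable def f_pp_023_b : ℕ → ℕ → ℕ → ℕ → Bool := onCell 1610612736 536870912 1239849684 370763052 1033476505 6710887
    (rowB 3 eng mog cd0q0 cd2q2b pd3 2 true true true .up 0 2 3 (qsf 0 536870912 1239849684 370763052 3) ndB0q0 ndB2q2b pcB3 Cut.none Ext.none)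

def k0_pp_023_b : ∃ t, chk3 f_pp_023_b t 1 1 1 = true :=
  ⟨(a (l 4) (l 4)), by decide +kernel⟩

theorem c_pp_023_b : CertB 0 536870912 1239849684 370763052 1033476505 6710887 3 eng mog cd0q0 cd2q2b pd3 true true true .up 0 2 3
    ndB0q0 ndB2q2b pcB3 Cut.none Ext.none :=
  certB2 (fam := true) (s1 := true) (s2 := true) (a := 0) (b := 2) (c := 3) (cn := .up) (n1 := ndB0q0) (n2 := ndB2q2b) (pc := pcB3) (cut := Cut.none) (xt := Ext.none) (P1 := 0) (W1 := 536870912) (P2 := 1239849684) (W2 := 370763052) (P3 := 1033476505) (W3 := 6710887) (N0 := 3) (En := eng) (mo := mog) (C1 := cd0q0) (C2 := cd2q2b) (C3 := pd3)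
    rfl (fun _ => rfl) k0_pp_023_b

noncomputable def f_pp_033 : ℕ → ℕ → ℕ → ℕ → Bool := onCell 0 536870912 1610612736 536870912 1033476505 6710887
    (rowB 3 eng mog cd0q0 cd2q3 pd3 0 true true true .pnn 0 3 3 (qsf 0 536870912 1610612736 536870912 3) ndB0q0 ndB2q3 pcB3 Cut.none Ext.none)

def k0_pp_033 : ∃ t, chk3 f_pp_033 t 1 1 1 = true :=
  ⟨(a (l 4) (l 4)), by decide +kernel⟩

theorem c_pp_033 : CertB 0 536870912 1610612736 536870912 1033476505 6710887 3 eng mog cd0q0 cd2q3 pd3 true true true .pnn 0 3 3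
    ndB0q0 ndB2q3 pcB3 Cut.none Ext.none :=
  certB0 (fam := true) (s1 := true) (s2 := true) (a := 0) (b := 3) (c := 3) (cn := .pnn) (n1 := ndB0q0) (n2 := ndB2q3) (pc := pcB3) (cut := Cut.none) (xt := Ext.none) (P1 := 0) (W1 := 536870912) (P2 := 1610612736) (W2 := 536870912) (P3 := 1033476505) (W3 := 6710887) (N0 := 3) (En := eng) (mo := mog) (C1 := cd0q0) (C2 := cd2q3) (C3 := pd3)
    rfl k0_pp_033

noncomputable def f_pp_101 : ℕ → ℕ → ℕ → ℕ → Bool := onCell 536870912 536870912 0 536870912 1033476505 6710887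
    (rowB 3 eng mog cd0q1 cd2q0 pd1 0 true true true .npn 1 0 1 (qsf 536870912 536870912 0 536870912 1) ndB0q1 ndB2q0 pcB1 Cut.none Ext.none)

def k0_pp_101 : ∃ t, chk3 f_pp_101 t 1 1 1 = true :=
  ⟨(l 5), by decide +kernel⟩

theorem c_pp_101 : CertB 536870912 536870912 0 536870912 1033476505 6710887 3 eng mog cd0q1 cd2q0 pd1 true true true .npn 1 0 1
    ndB0q1 ndB2q0 pcB1 Cut.none Ext.none :=
  certB0 (fam := true) (s1 := true) (s2 := true) (a := 1) (b := 0) (c := 1) (cn := .npn) (n1 := ndB0q1) (n2 := ndB2q0) (pc := pcB1) (cut := Cut.none) (xt := Ext.none) (P1 := 536870912) (W1 := 536870912) (P2 := 0) (W2 := 536870912) (P3 := 1033476505) (W3 := 6710887) (N0 := 3) (En := eng) (mo := mog) (C1 := cd0q1) (C2 := cd2q0) (C3 := pd1)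
    rfl k0_pp_101

noncomputable def f_pp_102 : ℕ → ℕ → ℕ → ℕ → Bool := onCell 536870912 536870912 0 536870912 1033476505 6710887
    (rowB 3 eng mog cd0q1 cd2q0 pd2 0 true true true .npp 1 0 2 (qsf 536870912 536870912 0 536870912 2) ndB0q1 ndB2q0 pcB2 Cut.none Ext.none)

def k0_pp_102 : ∃ t, chk3 f_pp_102 t 1 1 1 = true :=
  ⟨(l 5), by decide +kernel⟩

theorem c_pp_102 : CertB 536870912 536870912 0 536870912 1033476505 6710887 3 eng mog cd0q1 cd2q0 pd2 true true true .npp 1 0 2
    ndB0q1 ndB2q0 pcB2 Cut.none Ext.none :=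
  certB0 (fam := true) (s1 := true) (s2 := true) (a := 1) (b := 0) (c := 2) (cn := .npp) (n1 := ndB0q1) (n2 := ndB2q0) (pc := pcB2) (cut := Cut.none) (xt := Ext.none) (P1 := 536870912) (W1 := 536870912) (P2 := 0) (W2 := 536870912) (P3 := 1033476505) (W3 := 6710887) (N0 := 3) (En := eng) (mo := mog) (C1 := cd0q1) (C2 := cd2q0) (C3 := pd2)
    rfl k0_pp_102

noncomputable def f_pp_112 : ℕ → ℕ → ℕ → ℕ → Bool := onCell 536870912 536870912 536870912 536870912 1033476505 6710887
    (rowB 3 eng mog cd0q1 cd2q1 pd2 0 true true true .dn 1 1 2 (qsf 536870912 536870912 536870912 536870912 2) ndB0q1 ndB2q1 pcB2 Cut.none Ext.none)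

def k0_pp_112 : ∃ t, chk3 f_pp_112 t 1 1 1 = true :=
  ⟨(l 4), by decide +kernel⟩

theorem c_pp_112 : CertB 536870912 536870912 536870912 536870912 1033476505 6710887 3 eng mog cd0q1 cd2q1 pd2 true true true .dn 1 1 2
    ndB0q1 ndB2q1 pcB2 Cut.none Ext.none :=
  certB0 (fam := true) (s1 := true) (s2 := true) (a := 1) (b := 1) (c := 2) (cn := .dn) (n1 := ndB0q1) (n2 := ndB2q1) (pc := pcB2) (cut := Cut.none) (xt := Ext.none) (P1 := 536870912) (W1 := 536870912) (P2 := 536870912) (W2 := 536870912) (P3 := 1033476505) (W3 := 6710887) (N0 := 3) (En := eng) (mo := mog) (C1 := cd0q1) (C2 := cd2q1) (C3 := pd2)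
    rfl k0_pp_112

noncomputable def f_pp_113 : ℕ → ℕ → ℕ → ℕ → Bool := onCell 536870912 536870912 536870912 536870912 1033476505 6710887
    (rowB 3 eng mog cd0q1 cd2q1 pd3 0 true true true .nn 1 1 3 (qsf 536870912 536870912 536870912 536870912 3) ndB0q1 ndB2q1 pcB3 Cut.none Ext.none)

def k0_pp_113 : ∃ t, chk3 f_pp_113 t 1 1 1 = true :=
  ⟨(l 4), by decide +kernel⟩

theorem c_pp_113 : CertB 536870912 536870912 536870912 536870912 1033476505 6710887 3 eng mog cd0q1 cd2q1 pd3 true true true .nn 1 1 3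
    ndB0q1 ndB2q1 pcB3 Cut.none Ext.none :=
  certB0 (fam := true) (s1 := true) (s2 := true) (a := 1) (b := 1) (c := 3) (cn := .nn) (n1 := ndB0q1) (n2 := ndB2q1) (pc := pcB3) (cut := Cut.none) (xt := Ext.none) (P1 := 536870912) (W1 := 536870912) (P2 := 536870912) (W2 := 536870912) (P3 := 1033476505) (W3 := 6710887) (N0 := 3) (En := eng) (mo := mog) (C1 := cd0q1) (C2 := cd2q1) (C3 := pd3)
    rfl k0_pp_113

noncomputable def f_pp_123_a : ℕ → ℕ → ℕ → ℕ → Bool := onCell 536870912 536870912 0 536870912 1033476505 6710887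
    (rowB 3 eng mog cd0q1 cd2q2a pd3 0 true true true .npn 1 2 3 (qsf 536870912 536870912 0 536870912 3) ndB0q1 ndB2q2a pcB3 Cut.none Ext.none)

def k0_pp_123_a : ∃ t, chk3 f_pp_123_a t 1 1 1 = true :=
  ⟨(l 4), by decide +kernel⟩

theorem c_pp_123_a : CertB 536870912 536870912 0 536870912 1033476505 6710887 3 eng mog cd0q1 cd2q2a pd3 true true true .npn 1 2 3
    ndB0q1 ndB2q2a pcB3 Cut.none Ext.none :=
  certB0 (fam := true) (s1 := true) (s2 := true) (a := 1) (b := 2) (c := 3) (cn := .npn) (n1 := ndB0q1) (n2 := ndB2q2a) (pc := pcB3) (cut := Cut.none) (xt := Ext.none) (P1 := 536870912) (W1 := 536870912) (P2 := 0) (W2 := 536870912) (P3 := 1033476505) (W3 := 6710887) (N0 := 3) (En := eng) (mo := mog) (C1 := cd0q1) (C2 := cd2q2a) (C3 := pd3)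
    rfl k0_pp_123_a

noncomputable def f_pp_123_b : ℕ → ℕ → ℕ → ℕ → Bool := onCell 536870912 536870912 1239849684 370763052 1033476505 6710887
    (rowB 3 eng mog cd0q1 cd2q2b pd3 0 true true true .npn 1 2 3 (qsf 536870912 536870912 1239849684 370763052 3) ndB0q1 ndB2q2b pcB3 Cut.none Ext.none)

def k0_pp_123_b : ∃ t, chk3 f_pp_123_b t 1 1 1 = true :=
  ⟨(l 4), by decide +kernel⟩

theorem c_pp_123_b : CertB 536870912 536870912 1239849684 370763052 1033476505 6710887 3 eng mog cd0q1 cd2q2b pd3 true true true .npn 1 2 3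
    ndB0q1 ndB2q2b pcB3 Cut.none Ext.none :=
  certB0 (fam := true) (s1 := true) (s2 := true) (a := 1) (b := 2) (c := 3) (cn := .npn) (n1 := ndB0q1) (n2 := ndB2q2b) (pc := pcB3) (cut := Cut.none) (xt := Ext.none) (P1 := 536870912) (W1 := 536870912) (P2 := 1239849684) (W2 := 370763052) (P3 := 1033476505) (W3 := 6710887) (N0 := 3) (En := eng) (mo := mog) (C1 := cd0q1) (C2 := cd2q2b) (C3 := pd3)
    rfl k0_pp_123_b

noncomputable def f_pp_133 : ℕ → ℕ → ℕ → ℕ → Bool := onCell 536870912 536870912 1610612736 536870912 1033476505 6710887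
    (rowB 3 eng mog cd0q1 cd2q3 pd3 0 true true true .dn 1 3 3 (qsf 536870912 536870912 1610612736 536870912 3) ndB0q1 ndB2q3 pcB3 Cut.none Ext.none)

def k0_pp_133 : ∃ t, chk3 f_pp_133 t 1 1 1 = true :=
  ⟨(l 4), by decide +kernel⟩

theorem c_pp_133 : CertB 536870912 536870912 1610612736 536870912 1033476505 6710887 3 eng mog cd0q1 cd2q3 pd3 true true true .dn 1 3 3
    ndB0q1 ndB2q3 pcB3 Cut.none Ext.none :=
  certB0 (fam := true) (s1 := true) (s2 := true) (a := 1) (b := 3) (c := 3) (cn := .dn) (n1 := ndB0q1) (n2 := ndB2q3) (pc := pcB3) (cut := Cut.none) (xt := Ext.none) (P1 := 536870912) (W1 := 536870912) (P2 := 1610612736) (W2 := 536870912) (P3 := 1033476505) (W3 := 6710887) (N0 := 3) (En := eng) (mo := mog) (C1 := cd0q1) (C2 := cd2q3) (C3 := pd3)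
    rfl k0_pp_133

noncomputable def f_pp_202 : ℕ → ℕ → ℕ → ℕ → Bool := onCell 0 536870912 0 536870912 1033476505 6710887
    (rowB 3 eng mog cd0q2 cd2q0 pd2 0 true true true .pp 2 0 2 (qsf 0 536870912 0 536870912 2) ndB0q2 ndB2q0 pcB2 Cut.none Ext.none)

def k0_pp_202 : ∃ t, chk3 f_pp_202 t 1 1 1 = true :=
  ⟨(l 5), by decide +kernel⟩

theorem c_pp_202 : CertB 0 536870912 0 536870912 1033476505 6710887 3 eng mog cd0q2 cd2q0 pd2 true true true .pp 2 0 2
    ndB0q2 ndB2q0 pcB2 Cut.none Ext.none :=
  certB0 (fam := true) (s1 := true) (s2 := true) (a := 2) (b := 0) (c := 2) (cn := .pp) (n1 := ndB0q2) (n2 := ndB2q0) (pc := pcB2) (cut := Cut.none) (xt := Ext.none) (P1 := 0) (W1 := 536870912) (P2 := 0) (W2 := 536870912) (P3 := 1033476505) (W3 := 6710887) (N0 := 3) (En := eng) (mo := mog) (C1 := cd0q2) (C2 := cd2q0) (C3 := pd2)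
    rfl k0_pp_202

noncomputable def f_pp_203 : ℕ → ℕ → ℕ → ℕ → Bool := onCell 0 536870912 0 536870912 1033476505 6710887
    (rowB 3 eng mog cd0q2 cd2q0 pd3 0 true true true .up 2 0 3 (qsf 0 536870912 0 536870912 3) ndB0q2 ndB2q0 pcB3 Cut.none Ext.none)

def k0_pp_203 : ∃ t, chk3 f_pp_203 t 1 1 1 = true :=
  ⟨(l 5), by decide +kernel⟩

theorem c_pp_203 : CertB 0 536870912 0 536870912 1033476505 6710887 3 eng mog cd0q2 cd2q0 pd3 true true true .up 2 0 3
    ndB0q2 ndB2q0 pcB3 Cut.none Ext.none :=
  certB0 (fam := true) (s1 := true) (s2 := true) (a := 2) (b := 0) (c := 3) (cn := .up) (n1 := ndB0q2) (n2 := ndB2q0) (pc := pcB3) (cut := Cut.none) (xt := Ext.none) (P1 := 0) (W1 := 536870912) (P2 := 0) (W2 := 536870912) (P3 := 1033476505) (W3 := 6710887) (N0 := 3) (En := eng) (mo := mog) (C1 := cd0q2) (C2 := cd2q0) (C3 := pd3)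
    rfl k0_pp_203

noncomputable def f_pp_213 : ℕ → ℕ → ℕ → ℕ → Bool := onCell 0 536870912 536870912 536870912 1033476505 6710887
    (rowB 3 eng mog cd0q2 cd2q1 pd3 0 true true true .pnn 2 1 3 (qsf 0 536870912 536870912 536870912 3) ndB0q2 ndB2q1 pcB3 Cut.none Ext.none)

def k0_pp_213 : ∃ t, chk3 f_pp_213 t 1 1 1 = true :=
  ⟨(l 4), by decide +kernel⟩

theorem c_pp_213 : CertB 0 536870912 536870912 536870912 1033476505 6710887 3 eng mog cd0q2 cd2q1 pd3 true true true .pnn 2 1 3
    ndB0q2 ndB2q1 pcB3 Cut.none Ext.none :=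
  certB0 (fam := true) (s1 := true) (s2 := true) (a := 2) (b := 1) (c := 3) (cn := .pnn) (n1 := ndB0q2) (n2 := ndB2q1) (pc := pcB3) (cut := Cut.none) (xt := Ext.none) (P1 := 0) (W1 := 536870912) (P2 := 536870912) (W2 := 536870912) (P3 := 1033476505) (W3 := 6710887) (N0 := 3) (En := eng) (mo := mog) (C1 := cd0q2) (C2 := cd2q1) (C3 := pd3)
    rfl k0_pp_213

noncomputable def f_pm_001 : ℕ → ℕ → ℕ → ℕ → Bool := onCell 0 536870912 0 536870912 1033476505 6710887
    (rowB 3 eng mog cd0q0 cd2q0 pd1 0 true true false .up 0 0 1 (qsf 0 536870912 0 536870912 1) ndB0q0 ndB2q0 pcB1 Cut.none Ext.none)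

def k0_pm_001 : ∃ t, chk3 f_pm_001 t 1 1 1 = true :=
  ⟨(l 3), by decide +kernel⟩

theorem c_pm_001 : CertB 0 536870912 0 536870912 1033476505 6710887 3 eng mog cd0q0 cd2q0 pd1 true true false .up 0 0 1
    ndB0q0 ndB2q0 pcB1 Cut.none Ext.none :=
  certB0 (fam := true) (s1 := true) (s2 := false) (a := 0) (b := 0) (c := 1) (cn := .up) (n1 := ndB0q0) (n2 := ndB2q0) (pc := pcB1) (cut := Cut.none) (xt := Ext.none) (P1 := 0) (W1 := 536870912) (P2 := 0) (W2 := 536870912) (P3 := 1033476505) (W3 := 6710887) (N0 := 3) (En := eng) (mo := mog) (C1 := cd0q0) (C2 := cd2q0) (C3 := pd1)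
    rfl k0_pm_001

noncomputable def f_pm_011 : ℕ → ℕ → ℕ → ℕ → Bool := onCell 0 536870912 536870912 536870912 1033476505 6710887
    (rowB 3 eng mog cd0q0 cd2q1 pd1 1 true true false .pnn 0 1 1 (qsf 0 536870912 536870912 536870912 1) ndB0q0 ndB2q1 pcB1 Cut.none Ext.none)

def k0_pm_011 : ∃ t, chk3 f_pm_011 t 1 1 1 = true :=
  ⟨(l 3), by decide +kernel⟩

theorem c_pm_011 : CertB 0 536870912 536870912 536870912 1033476505 6710887 3 eng mog cd0q0 cd2q1 pd1 true true false .pnn 0 1 1
    ndB0q0 ndB2q1 pcB1 Cut.none Ext.none :=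
  certB1 (fam := true) (s1 := true) (s2 := false) (a := 0) (b := 1) (c := 1) (cn := .pnn) (n1 := ndB0q0) (n2 := ndB2q1) (pc := pcB1) (cut := Cut.none) (xt := Ext.none) (P1 := 0) (W1 := 536870912) (P2 := 536870912) (W2 := 536870912) (P3 := 1033476505) (W3 := 6710887) (N0 := 3) (En := eng) (mo := mog) (C1 := cd0q0) (C2 := cd2q1) (C3 := pd1)
    rfl (fun _ => rfl) k0_pm_011

noncomputable def f_pm_012 : ℕ → ℕ → ℕ → ℕ → Bool := onCell 0 536870912 1073741824 536870912 1033476505 6710887
    (rowB 3 eng mog cd0q0 cd2q1 pd2 1 true true false .pnp 0 1 2 (qsf 0 536870912 536870912 536870912 2) ndB0q0 ndB2q1 pcB2 Cut.none Ext.none)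

def k0_pm_012 : ∃ t, chk3 f_pm_012 t 2 1 1 = true :=
  ⟨(b (a (b (l 3) (b (b (b (l 3) (l 2)) (l 2)) (l 2))) (b (l 3) (b (b (b (a (l 3) (b (l 3) (a (l 16263304) (l 16340016)))) (a (b (a (b (l 3) (l 16415480)) (b (l 16389128) (l 16369256))) (a (a (l 2) (b (l 16438792) (l 16412112))) (b (l 16343760) (l 16318584)))) (b (a (l 16197400) (l 16304688)) (b (a (l 16263960) (l 16268264)) (a (l 16241544) (l 16248904)))))) (a (a (a (l 2) (l 16292520)) (l 16094456)) (a (l 16124976) (l 16134472)))) (a (a (l 2) (b (l 15988880) (l 2))) (a (b (l 15910088) (l 15703760)) (b (l 15921872) (l 15710600))))))) (a (l 2) (a (l 2) (b (b (a (l 2) (b (l 15507448) (l 2))) (l 2)) (l 2))))), by decide +kernel⟩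

def k1_pm_012 : ∃ t, chk3 f_pm_012 t 3 2 1 = true :=
  ⟨(b (b (l 3) (b (l 3) (a (a (l 3) (b (l 3) (b (l 3) (a (l 16728320) (l 16628952))))) (b (a (l 3) (b (a (l 3) (b (l 3) (l 16272208))) (a (b (l 16341680) (l 16349160)) (b (l 16279184) (l 16275272))))) (a (b (a (l 16525624) (l 16431032)) (a (l 16524976) (l 16424072))) (a (b (l 16342336) (b (l 16337336) (l 16341560))) (b (a (l 16283680) (l 16250248)) (b (l 16271392) (l 16286552))))))))) (a (b (b (b (a (a (b (l 16465296) (l 16437032)) (b (l 16600864) (l 16574064))) (b (a (l 16727976) (l 16624768)) (a (l 16707352) (l 16638136)))) (a (a (b (l 16252272) (b (l 16366088) (l 16348192))) (b (l 16471960) (l 16478672))) (b (a (l 16606368) (l 16664088)) (a (l 16614176) (l 16581360))))) (a (a (l 16236856) (l 16379776)) (a (l 16480432) (l 16664472)))) (a (a (a (l 15894992) (l 15965448)) (l 16013040)) (a (l 16083392) (l 16177104)))) (b (b (b (a (b (a (l 16525704) (l 16414632)) (a (l 16547976) (l 16465224))) (a (b (l 16365256) (l 16397728)) (l 16308552)))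 (a (b (a (l 16575992) (l 16496432)) (a (b (l 16596304) (l 16587200)) (b (l 16518600) (b (l 16528496) (l 16535336))))) (b (a (l 16430336) (l 16380440)) (b (a (l 16453888) (l 16404816)) (b (a (l 16464776) (l 16416424)) (a (l 16472440) (a (l 16435976) (b (b (b (l 16410584) (l 16408240)) (l 16407616)) (l 16411176))))))))) (a (a (l 16642656) (l 16570944)) (a (l 16530512) (a (l 16514232) (l 16487000))))) (a (a (b (l 16608712) (l 16446768)) (b (l 16723336) (l 16574824))) (a (l 16563576) (b (l 16528848) (l 16621440))))))), by decide +kernel⟩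

def k2_pm_012 : ∃ t, chk3 f_pm_012 t 3 3 1 = true :=
  ⟨(a (a (b (a (b (a (l 15481552) (l 15549784)) (l 2)) (b (l 15661224) (l 15272376))) (l 2)) (b (b (a (l 15821040) (l 15946304)) (a (l 15415176) (l 15578544))) (b (a (l 2) (l 15193664)) (l 2)))) (a (b (b (a (l 16030040) (l 16150056)) (a (l 15749464) (l 15920328))) (b (a (l 15347656) (l 15512376)) (a (l 2) (l 15130816)))) (b (b (a (b (l 16558856) (l 16375608)) (b (l 16646768) (l 16517216))) (a (l 16000992) (l 16113192))) (b (a (l 15678728) (l 15841080)) (a (l 15277408) (l 15432248)))))), by decide +kernel⟩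

theorem s3_pm_012 : ∃ t, chk3 f_pm_012 t 3 1 1 = true := ex3_b k1_pm_012 k2_pm_012

theorem s4_pm_012 : ∃ t, chk3 f_pm_012 t 1 1 1 = true := ex3_a k0_pm_012 s3_pm_012

theorem c_pm_012 : CertB 0 536870912 536870912 536870912 1033476505 6710887 3 eng mog cd0q0 cd2q1 pd2 true true false .pnp 0 1 2
    ndB0q0 ndB2q1 pcB2 Cut.none Ext.none :=
  certB1 (fam := true) (s1 := true) (s2 := false) (a := 0) (b := 1) (c := 2) (cn := .pnp) (n1 := ndB0q0) (n2 := ndB2q1) (pc := pcB2) (cut := Cut.none) (xt := Ext.none) (P1 := 0) (W1 := 536870912) (P2 := 536870912) (W2 := 536870912) (P3 := 1033476505) (W3 := 6710887) (N0 := 3) (En := eng) (mo := mog) (C1 := cd0q0) (C2 := cd2q1) (C3 := pd2)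
    rfl (fun _ => rfl) s4_pm_012

noncomputable def cut_pm_022_a : Cut := Cut.of [[⟨0, 0, 0, 33554432⟩, ⟨1, 1, 0, 33554432⟩, ⟨2, 1, 0, 33554432⟩]]

noncomputable def f_pm_022_a : ℕ → ℕ → ℕ → ℕ → Bool := onCell 1073741824 536870912 0 536870912 1033476505 6710887
    (rowB 3 eng mog cd0q0 cd2q2a pd2 2 true true false .pp 0 2 2 (qsf 0 536870912 0 536870912 2) ndB0q0 ndB2q2a pcB2 cut_pm_022_a Ext.none)

def k0_pm_022_a : ∃ t, chk3 f_pm_022_a t 8 1 1 = true :=
  ⟨(b (l 1) (b (l 1) (a (b (l 1) (a (b (l 1) (l 6)) (a (b (b (l 1) (l 6)) (l 6)) (a (b (b (l 1) (l 6)) (l 6)) (b (b (l 16554256) (b (l 16573784) (l 16607744))) (a (l 6) (b (l 16642976) (l 16699344)))))))) (b (b (a (l 1) (b (l 1) (a (l 1) (b (l 16426480) (l 16448968))))) (a (b (l 1) (a (b (l 1) (l 16493232)) (b (l 16482328) (l 16509896)))) (b (a (b (l 16450960) (l 16475848)) (l 16464952)) (a (l 16495584) (l 16540360))))) (b (a (a (b (b (l 16521784) (l 16552328)) (a (l 16555856) (l 16585048))) (b (b (l 16539272) (l 16570360)) (l 16567624))) (b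 (a (l 16555208) (l 16579112)) (a (l 16599224) (l 16622000)))) (a (b (a (a (l 16627416) (l 16635416)) (l 16627776)) (a (b (l 16709248) (l 16665592)) (a (l 16658560) (l 16642736)))) (a (b (l 16668216) (b (l 16654664) (l 16646088))) (b (l 16641704) (b (l 16643416) (l 16615776)))))))))), by decide +kernel⟩

def k1_pm_022_a : ∃ t, chk3 f_pm_022_a t 9 2 1 = true :=
  ⟨(b (l 1) (a (l 1) (b (l 1) (a (l 1) (b (l 1) (l 16068456)))))), by decide +kernel⟩

def k2_pm_022_a : ∃ t, chk3 f_pm_022_a t 9 6 1 = true :=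
  ⟨(b (a (l 1) (b (a (l 16091768) (l 16147744)) (a (b (l 16157976) (l 16208480)) (l 16243696)))) (a (b (a (l 1) (b (l 16212096) (l 16269616))) (a (a (l 1) (b (l 16298120) (l 16364416))) (b (a (l 16320360) (l 16345944)) (a (l 16388384) (l 16414848))))) (b (a (b (l 16263832) (l 16323928)) (l 16313760)) (a (b (l 16388512) (l 16457200)) (l 16376760))))), by decide +kernel⟩

def k3_pm_022_a : ∃ t, chk3 f_pm_022_a t 9 7 1 = true :=
  ⟨(b (a (b (a (b (b (a (l 16396032) (l 16418032)) (a (b (l 16421824) (l 16433544)) (l 16431440))) (a (l 16419864) (l 16488648))) (b (a (b (l 16442832) (l 16478864)) (l 16466544)) (a (l 16517160) (l 16546384)))) (a (b (a (l 16511496) (l 16538984)) (a (l 16566344) (l 16593472))) (b (l 16519032) (l 16571312)))) (b (a (b (a (l 16515328) (l 16543016)) (a (l 16575760) (l 16582528))) (b (l 16539216) (a (l 16607568) (l 16605408)))) (a (b (l 16573000) (l 16582056)) (a (l 16554008) (b (l 16583880) (l 16565416)))))) (a (b (a (b (b (l 16602256) (l 16611328)) (a (l 16645424) (l 16642608)))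 (b (l 16590968) (a (l 16609792) (l 16601576)))) (a (a (b (l 16608264) (b (l 16612816) (l 16588128))) (b (l 16597736) (l 16527656))) (b (a (l 16590936) (b (l 16576088) (l 16561376))) (a (b (a (l 16568208) (l 16559264)) (a (l 16550832) (l 16541232))) (b (a (l 16549544) (l 16538968)) (a (l 16529848) (l 16512832))))))) (b (a (b (a (l 16607552) (b (l 16589024) (l 16578544))) (a (b (l 16584512) (l 16571816)) (b (l 16564536) (l 16549344)))) (b (a (l 16541952) (b (l 16544800) (l 16528080))) (a (b (l 16541416) (l 16517472)) (b (l 16498680) (l 16462712))))) (a (b (a (b (l 16556632) (a (l 16544992) (l 16532048))) (b (l 16530632) (a (l 16512744) (l 16486928)))) (a (b (l 16471720) (a (l 16488432) (l 16461168))) (b (a (l 16475232) (l 16443960)) (a (l 16428984) (l 16392936))))) (b (a (b (l 16462000) (a (l 16457096) (l 16423072))) (b (a (l 16436752) (l 16401032)) (l 16370216))) (a (b (l 16391344) (l 16337760)) (l 16226720))))))), by decide +kernel⟩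

def k4_pm_022_a : ∃ t, chk3 f_pm_022_a t 5 2 1 = true :=
  ⟨(a (b (a (b (l 15947776) (a (l 1) (l 16004768))) (b (l 16114800) (l 16131792))) (a (b (a (l 15993840) (l 16066136)) (b (l 15998080) (a (l 16134064) (l 16208464)))) (b (a (l 16148096) (l 16232520)) (a (l 16253496) (l 16326480))))) (b (a (b (l 16300568) (l 16305816)) (a (b (l 16407000) (l 16398944)) (b (l 16476872) (l 16470928)))) (a (b (a (l 16310656) (b (l 16362224) (l 16378472))) (a (b (l 16363480) (l 16357704)) (b (l 16407328) (a (l 16434568) (l 16468920))))) (b (a (a (l 16407296) (l 16442984)) (a (l 16492480) (l 16498312))) (a (b (l 16417360) (l 16349304)) (l 16449904)))))), by decide +kernel⟩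

def k5_pm_022_a : ∃ t, chk3 f_pm_022_a t 5 6 1 = true :=
  ⟨(a (a (b (a (b (l 16215592) (l 16311120)) (b (l 16288160) (l 16378120))) (a (b (l 16398032) (l 16450232)) (b (l 16453608) (b (l 16547488) (a (l 16588384) (l 16596728)))))) (b (a (b (l 16357016) (l 16435568)) (b (a (l 16401096) (l 16417312)) (a (l 16461896) (l 16479440)))) (a (b (b (l 16424008) (l 16529272)) (a (b (l 16564168) (l 16580032)) (b (l 16577896) (l 16549496)))) (a (b (l 16483256) (c (l 16405584) (l 16386992))) (b (l 16459736) (b (l 16512336) (l 16444648))))))) (a (b (a (b (a (l 16439512) (l 16463080)) (a (l 16448512) (l 16502048))) (b (l 16354608) (a (l 16490600) (l 16473632)))) (a (b (a (l 16458184) (l 16485496)) (l 16286560)) (b (l 16379096) (l 16271096)))) (b (a (b (l 16471248) (l 16388400)) (l 16171800)) (b (a (l 16281960) (l 16167024)) (l 15844416))))), by decide +kernel⟩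

def k6_pm_022_a : ∃ t, chk3 f_pm_022_a t 10 7 1 = true :=
  ⟨(b (a (a (b (b (l 16608656) (a (l 16582648) (l 16524720))) (b (a (l 16565760) (a (l 16549928) (l 16538400))) (a (b (l 16548712) (l 16534424)) (b (l 16514816) (l 16488504))))) (a (b (b (l 16583816) (a (l 16552704) (l 16542632))) (b (a (l 16517680) (l 16496696)) (b (l 16464320) (l 16426952)))) (b (b (l 16563688) (a (l 16505848) (a (l 16489848) (a (a (a (l 16504080) (l 16441032)) (l 16500312)) (l 16495800))))) (a (b (l 16469904) (l 16396816)) (a (b (l 16448320) (l 16370712)) (b (b (l 16429680) (l 16413336)) (l 16352688))))))) (b (a (a (b (l 16512712) (l 16404736)) (b (l 16466360) (l 16408648))) (b (l 16400224) (l 16318816))) (a (b (l 16320840) (l 16280408)) (b (l 16236136) (l 16150384))))) (a (a (b (b (a (b (l 16508752) (l 16478056)) (a (l 16451200) (l 16417128))) (a (a (l 16394104) (l 16399904)) (l 16346392))) (b (a (l 16321560) (l 16245144)) (a (l 16211368) (l 16129952)))) (a (b (b (l 16365216) (l 16271856)) (b (l 16165168) (l 16047288)))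 (b (a (b (l 16311200) (l 16212904)) (a (l 16169864) (b (l 16262168) (l 16159888)))) (a (b (l 16103536) (l 15983376)) (a (b (l 16070064) (l 15948336)) (b (l 16047280) (l 15840568))))))) (b (a (b (l 16186440) (l 16083064)) (b (l 16055944) (l 15953088))) (a (b (l 15970016) (l 15847840)) (b (l 15842344) (l 15598744)))))), by decide +kernel⟩

def k7_pm_022_a : ∃ t, chk3 f_pm_022_a t 11 7 1 = true :=
  ⟨(b (a (b (a (l 16195264) (l 16115632)) (a (l 16066792) (l 15946048))) (b (a (l 16000392) (l 15895136)) (a (l 15836024) (l 15740688)))) (b (a (a (l 15797288) (l 15643184)) (a (b (l 15715304) (l 15630104)) (b (l 15632528) (l 15558400)))) (a (a (b (l 15725848) (b (l 15643656) (l 15587544))) (b (l 15624816) (b (l 15529192) (b (l 15470560) (l 15445408))))) (b (a (l 15543304) (a (l 15497160) (l 15474448))) (a (a (b (l 15494000) (b (l 15460320) (l 15437992))) (b (l 15464144) (a (l 15429088) (l 15417872)))) (b (a (l 15440848) (l 15424536)) (a (b (l 15413408) (a (l 15399216) (l 15392168))) (b (l 15400616) (a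 (l 15387000) (l 15383760)))))))))), by decide +kernel⟩

def k8_pm_022_a : ∃ t, chk3 f_pm_022_a t 3 2 1 = true :=
  ⟨(a (a (b (a (a (a (l 16461048) (l 16405576)) (l 16323504)) (b (l 16153224) (l 16166872))) (a (b (a (l 16413008) (l 16302432)) (a (l 16340096) (l 16227928))) (b (l 16142624) (l 16074128)))) (b (a (l 15958968) (l 15803888)) (a (b (l 15957000) (l 15906528)) (b (l 15823896) (l 15808792))))) (a (b (a (l 15716392) (l 15682104)) (a (b (l 15763160) (l 15748440)) (l 15763112))) (b (l 15688616) (b (l 15762104) (l 15791840))))), by decide +kernel⟩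

def k9_pm_022_a : ∃ t, chk3 f_pm_022_a t 6 3 1 = true :=
  ⟨(b (a (b (a (a (l 16202984) (l 16096832)) (l 15768040)) (a (b (l 16008232) (l 15892928)) (b (l 15840216) (l 15750528)))) (b (a (l 15821912) (l 15765920)) (a (b (l 15749784) (l 15672536)) (b (l 15701176) (l 15694624))))) (a (b (a (b (l 15764272) (b (l 15664352) (l 15605472))) (b (a (l 15675616) (l 15647728)) (b (l 15572792) (a (l 15560176) (l 15553664))))) (a (b (a (a (l 15551544) (l 15509584)) (b (l 15538208) (b (l 15502112) (l 15480128)))) (a (b (a (l 15458616) (b (l 15462872) (l 15438016))) (b (a (b (l 15422568) (l 15409136)) (l 15413424)) (a (b (l 15395552) (a (l 15382512) (l 15382464))) (b (l 15395520) (l 15383032))))) (b (a (b (l 15459240) (l 15436336)) (l 15448968)) (b (l 15415376) (b (l 15419008) (a (l 15384832) (l 15387760))))))) (b (a (b (l 15524680) (l 15490416)) (b (l 15527416) (l 15495032))) (b (a (l 15452064) (l 15459608)) (a (b (l 15421248) (a (b (l 15402920) (l 15391720)) (b (l 15407440) (l 15396616)))) (b (l 15430944)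 (a (b (l 15412824) (l 15402352)) (b (l 15418984) (l 15408832))))))))) (b (a (b (a (l 15637184) (l 15640808)) (l 15558176)) (b (l 15650560) (l 15578160))) (a (b (b (l 15537720) (a (l 15503424) (l 15514864))) (b (a (l 15470528) (l 15484112)) (a (b (l 15443704) (a (b (l 15425824) (l 15415968)) (l 15428488))) (b (l 15458808) (a (l 15436544) (l 15445000)))))) (a (b (l 15541784) (b (l 15499656) (b (l 15475584) (a (l 15453792) (l 15462816))))) (b (l 15556560) (b (l 15516520) (b (l 15493376) (a (l 15472000) (l 15481280)))))))))), by decide +kernel⟩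

def k10_pm_022_a : ∃ t, chk3 f_pm_022_a t 7 3 1 = true :=
  ⟨(b (a (b (l 15766736) (b (l 15724160) (l 15699680))) (b (l 15801336) (b (l 15770272) (l 15752960)))) (a (b (b (a (l 15672480) (l 15700672)) (a (l 15606976) (l 15639504))) (b (a (b (l 15592160) (l 15611440)) (b (l 15625160) (l 15603344))) (a (b (a (l 15534080) (l 15551752)) (a (b (l 15511568) (a (l 15490568) (l 15499792))) (b (l 15529576) (a (l 15508888) (l 15517792))))) (b (a (l 15569000) (l 15585312)) (a (b (l 15546880) (a (l 15526432) (l 15534744))) (b (l 15562960) (a (l 15542680) (l 15550168)))))))) (b (a (b (l 15730904) (b (l 15702176) (l 15679896))) (b (l 15759608) (l 15719632))) (b (a (b (l 15655632) (l 15634000)) (b (l 15681496) (l 15657192))) (a (b (a (l 15600232) (l 15613344)) (a (b (l 15577376) (l 15560528)) (b (l 15589704) (l 15572240)))) (b (a (l 15624280) (l 15632872)) (a (b (l 15599416) (l 15581296)) (b (l 15607896) (l 15589296))))))))), by decide +kernel⟩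

theorem s11_pm_022_a : ∃ t, chk3 f_pm_022_a t 3 3 1 = true := ex3_a k9_pm_022_a k10_pm_022_a

theorem s12_pm_022_a : ∃ t, chk3 f_pm_022_a t 3 1 1 = true := ex3_b k8_pm_022_a s11_pm_022_a

theorem s13_pm_022_a : ∃ t, chk3 f_pm_022_a t 5 7 1 = true := ex3_a k6_pm_022_a k7_pm_022_a

theorem s14_pm_022_a : ∃ t, chk3 f_pm_022_a t 5 3 1 = true := ex3_b k5_pm_022_a s13_pm_022_a

theorem s15_pm_022_a : ∃ t, chk3 f_pm_022_a t 5 1 1 = true := ex3_b k4_pm_022_a s14_pm_022_a

theorem s16_pm_022_a : ∃ t, chk3 f_pm_022_a t 9 3 1 = true := ex3_b k2_pm_022_a k3_pm_022_a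

theorem s17_pm_022_a : ∃ t, chk3 f_pm_022_a t 9 1 1 = true := ex3_b k1_pm_022_a s16_pm_022_a

theorem s18_pm_022_a : ∃ t, chk3 f_pm_022_a t 4 1 1 = true := ex3_a k0_pm_022_a s17_pm_022_a

theorem s19_pm_022_a : ∃ t, chk3 f_pm_022_a t 2 1 1 = true := ex3_a s18_pm_022_a s15_pm_022_a

theorem s20_pm_022_a : ∃ t, chk3 f_pm_022_a t 1 1 1 = true := ex3_a s19_pm_022_a s12_pm_022_a

theorem c_pm_022_a : CertB 0 536870912 0 536870912 1033476505 6710887 3 eng mog cd0q0 cd2q2a pd2 true true false .pp 0 2 2
    ndB0q0 ndB2q2a pcB2 cut_pm_022_a Ext.none :=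
  certB2 (fam := true) (s1 := true) (s2 := false) (a := 0) (b := 2) (c := 2) (cn := .pp) (n1 := ndB0q0) (n2 := ndB2q2a) (pc := pcB2) (cut := cut_pm_022_a) (xt := Ext.none) (P1 := 0) (W1 := 536870912) (P2 := 0) (W2 := 536870912) (P3 := 1033476505) (W3 := 6710887) (N0 := 3) (En := eng) (mo := mog) (C1 := cd0q0) (C2 := cd2q2a) (C3 := pd2)
    rfl (fun _ => rfl) s20_pm_022_a

noncomputable def cut_pm_022_b : Cut := Cut.of [[⟨0, 0, 0, 33554432⟩, ⟨1, 1, 0, 33554432⟩, ⟨2, 1, 0, 33554432⟩]]

noncomputable def f_pm_022_b : ℕ → ℕ → ℕ → ℕ → Bool := onCell 0 536870912 1239849684 370763052 1033476505 6710887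
    (rowB 3 eng mog cd0q0 cd2q2b pd2 0 true true false .pp 0 2 2 (qsf 0 536870912 1239849684 370763052 2) ndB0q0 ndB2q2b pcB2 cut_pm_022_b Ext.none)

def k0_pm_022_b : ∃ t, chk3 f_pm_022_b t 1 1 1 = true :=
  ⟨(a (b (a (a (b (a (b (l 16044632) (l 15991000)) (b (l 16239616) (l 16194336))) (a (b (l 15933920) (l 15894624)) (l 15960320))) (a (b (a (l 16350088) (l 16289000)) (a (l 16263592) (l 16262328))) (b (a (b (l 16400008) (l 16336032)) (l 16272976)) (a (l 16207320) (l 16139512))))) (a (b (a (b (l 16139416) (l 16112712)) (l 15950064)) (a (l 15914640) (l 15925312))) (b (a (l 15809712) (l 15722936)) (a (l 15839664) (l 15792416))))) (a (a (a (b (l 15784560) (l 15690912)) (b (l 15990056) (l 25868184039))) (a (b (a (l 16050464) (l 16019088)) (b (l 15817800) (l 2))) (b (a (l 15920808) (l 15946032)) (l 2)))) (b (a (a (l 15770440) (l 15848232)) (l 2)) (l 2)))) (b (a (a (b (a (l 15693016) (l 15692168)) (a (l 15783336) (l 2))) (b (b (l 15675200) (l 2)) (l 2))) (l 2)) (l 2))), by decide +kernel⟩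

theorem c_pm_022_b : CertB 0 536870912 1239849684 370763052 1033476505 6710887 3 eng mog cd0q0 cd2q2b pd2 true true false .pp 0 2 2
    ndB0q0 ndB2q2b pcB2 cut_pm_022_b Ext.none :=
  certB0 (fam := true) (s1 := true) (s2 := false) (a := 0) (b := 2) (c := 2) (cn := .pp) (n1 := ndB0q0) (n2 := ndB2q2b) (pc := pcB2) (cut := cut_pm_022_b) (xt := Ext.none) (P1 := 0) (W1 := 536870912) (P2 := 1239849684) (W2 := 370763052) (P3 := 1033476505) (W3 := 6710887) (N0 := 3) (En := eng) (mo := mog) (C1 := cd0q0) (C2 := cd2q2b) (C3 := pd2)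
    rfl k0_pm_022_b

noncomputable def f_pm_023_a : ℕ → ℕ → ℕ → ℕ → Bool := onCell 0 536870912 0 536870912 1033476505 6710887
    (rowB 3 eng mog cd0q0 cd2q2a pd3 0 true true false .up 0 2 3 (qsf 0 536870912 0 536870912 3) ndB0q0 ndB2q2a pcB3 Cut.none Ext.none)

def k0_pm_023_a : ∃ t, chk3 f_pm_023_a t 1 1 1 = true :=
  ⟨(a (l 1) (a (b (a (l 1) (b (l 15627352) (a (l 1) (l 15749328)))) (b (l 1) (l 1))) (b (a (b (l 15663416) (a (l 15759872) (l 15779240))) (b (l 15739208) (a (l 15805304) (l 15837352)))) (b (a (b (l 15787912) (a (l 15800656) (l 15807192))) (b (l 15840104) (a (l 15816816) (l 15828360)))) (a (b (a (l 1) (l 270614261351)) (l 1)) (b (a (b (l 15785584) (l 15750960)) (b (l 15791360) (l 15753184))) (a (b (b (l 15710864) (l 1)) (l 1)) (b (b (l 15713264) (l 15667760)) (a (l 310879280279) (l 15525040)))))))))), by decide +kernel⟩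

theorem c_pm_023_a : CertB 0 536870912 0 536870912 1033476505 6710887 3 eng mog cd0q0 cd2q2a pd3 true true false .up 0 2 3
    ndB0q0 ndB2q2a pcB3 Cut.none Ext.none :=
  certB0 (fam := true) (s1 := true) (s2 := false) (a := 0) (b := 2) (c := 3) (cn := .up) (n1 := ndB0q0) (n2 := ndB2q2a) (pc := pcB3) (cut := Cut.none) (xt := Ext.none) (P1 := 0) (W1 := 536870912) (P2 := 0) (W2 := 536870912) (P3 := 1033476505) (W3 := 6710887) (N0 := 3) (En := eng) (mo := mog) (C1 := cd0q0) (C2 := cd2q2a) (C3 := pd3)
    rfl k0_pm_023_a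

noncomputable def f_pm_023_b : ℕ → ℕ → ℕ → ℕ → Bool := onCell 0 536870912 1610612736 536870912 1033476505 6710887
    (rowB 3 eng mog cd0q0 cd2q2b pd3 1 true true false .up 0 2 3 (qsf 0 536870912 1239849684 370763052 3) ndB0q0 ndB2q2b pcB3 Cut.none Ext.none)

def k0_pm_023_b : ∃ t, chk3 f_pm_023_b t 2 1 1 = true :=
  ⟨(b (a (b (a (b (a (l 15443888) (l 15544000)) (a (l 2) (l 15310360))) (a (b (l 15543160) (a (l 15395464) (l 15445304))) (b (a (l 15680944) (l 15709352)) (a (l 15499264) (l 15554096))))) (a (l 2) (b (a (l 2) (b (a (l 2) (l 15465560)) (l 2))) (l 2)))) (b (a (b (a (l 15736032) (l 15742584)) (a (l 15623320) (l 15687144))) (b (a (l 15721752) (l 15688920)) (a (l 15718408) (l 15725904)))) (b (a (b (a (l 15565576) (l 15670728)) (a (b (l 15559144) (l 2)) (b (l 15672912) (l 15716112)))) (a (b (l 15739592) (l 15778240)) (l 15796736))) (a (b (a (l 2) (l 15979688)) (l 2)) (b (b (a (l 15883040) (l 15894760)) (l 16081152)) (a (l 16385936) (l 16331944))))))) (a (l 2) (b (b (a (l 2) (b (l 98347364839)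 (l 2))) (l 2)) (l 2)))), by decide +kernel⟩

def k1_pm_023_b : ∃ t, chk3 f_pm_023_b t 3 1 1 = true :=
  ⟨(b (a (b (a (a (b (l 15661808) (l 15723952)) (b (l 15638952) (l 15718232))) (b (a (l 15612208) (l 15584008)) (l 15699528))) (b (a (a (l 15818104) (l 15827840)) (l 15828832)) (a (b (a (b (l 15905464) (l 16002400)) (l 15958632)) (a (l 16232264) (l 16096584))) (b (l 15955088) (b (l 16062544) (l 16122536)))))) (b (a (b (l 451539114375) (a (l 15672832) (l 15649856))) (b (l 1) (l 382819663815))) (b (a (l 15812056) (a (l 15785480) (l 15759088))) (a (b (l 15951392) (l 15934912)) (l 15938128))))) (b (a (b (a (b (a (l 16682096) (l 16632008)) (a (l 16594280) (l 16577752))) (b (b (l 16415984) (l 16589104)) (l 16566384))) (b (a (a (l 2) (l 16537032)) (l 16505776)) (l 4))) (b (b (a (b (l 16087440) (l 16429384)) (b (l 16145032) (a (l 16276784) (l 16217888)))) (a (l 16556056) (b (l 16425840) (l 16530248)))) (b (a (l 16543744) (l 16553024)) (a (l 16522584) (b (l 16547416) (l 16535488)))))) (l 4))), by decide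 +kernel⟩

theorem s2_pm_023_b : ∃ t, chk3 f_pm_023_b t 1 1 1 = true := ex3_a k0_pm_023_b k1_pm_023_b

theorem c_pm_023_b : CertB 0 536870912 1239849684 370763052 1033476505 6710887 3 eng mog cd0q0 cd2q2b pd3 true true false .up 0 2 3
    ndB0q0 ndB2q2b pcB3 Cut.none Ext.none :=
  certB1 (fam := true) (s1 := true) (s2 := false) (a := 0) (b := 2) (c := 3) (cn := .up) (n1 := ndB0q0) (n2 := ndB2q2b) (pc := pcB3) (cut := Cut.none) (xt := Ext.none) (P1 := 0) (W1 := 536870912) (P2 := 1239849684) (W2 := 370763052) (P3 := 1033476505) (W3 := 6710887) (N0 := 3) (En := eng) (mo := mog) (C1 := cd0q0) (C2 := cd2q2b) (C3 := pd3)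
    rfl (fun _ => rfl) s2_pm_023_b

noncomputable def f_pm_033 : ℕ → ℕ → ℕ → ℕ → Bool := onCell 0 536870912 1610612736 536870912 1033476505 6710887
    (rowB 3 eng mog cd0q0 cd2q3 pd3 1 true true false .pnn 0 3 3 (qsf 0 536870912 1610612736 536870912 3) ndB0q0 ndB2q3 pcB3 Cut.none Ext.none)

def k0_pm_033 : ∃ t, chk3 f_pm_033 t 1 1 1 = true :=
  ⟨(a (b (a (b (a (b (a (l 15033704) (l 15135384)) (a (l 14777096) (l 14896496))) (a (b (l 15165112) (a (l 14977816) (l 15027632))) (b (l 1) (a (l 15082928) (l 15140728))))) (a (b (b (a (b (l 14671072) (l 14744640)) (b (l 14785240) (a (l 14777216) (l 14812912)))) (a (l 15006608) (l 15039608))) (b (a (l 15304304) (l 15356560)) (a (l 15106616) (l 15344728)))) (b (a (b (a (l 14869648) (l 14893136)) (a (l 15051448) (b (l 14958720) (l 15138680)))) (b (a (l 14971632) (l 15043360)) (a (b (l 14986656) (l 15155880)) (b (l 15039088) (l 15185272))))) (a (b (a (l 15379760) (l 15386312)) (l 15540488)) (b (a (l 15411448) (l 15451936)) (a (l 15689792) (l 15752104)))))))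 (b (a (b (l 1) (a (l 15218648) (l 1))) (l 1)) (b (a (b (a (l 15144328) (l 15258440)) (a (b (l 15135488) (l 15221080)) (b (l 15253072) (l 15293424)))) (a (b (l 1) (l 15367848)) (l 1))) (a (b (a (l 15507056) (l 15555904)) (a (l 15837720) (l 15921720))) (b (b (a (l 15464968) (l 1)) (l 15664544)) (a (l 15962576) (l 15956768))))))) (b (b (b (a (a (b (l 14936496) (l 4)) (a (b (l 15324816) (l 15262512)) (a (l 15456032) (l 15629456)))) (a (a (l 15906496) (l 16211520)) (l 16123592))) (a (l 4) (a (a (l 15791760) (l 16108168)) (b (l 16500144) (l 16456680))))) (l 4)) (l 4))) (b (a (b (l 1) (b (l 1) (a (b (l 1) (a (l 15911768) (l 1))) (l 1)))) (l 1)) (b (a (b (a (b (a (l 16283840) (l 16232400)) (a (l 16547728) (l 16541096))) (b (l 1) (l 16474712))) (b (a (b (l 16626464) (l 4)) (l 16645560)) (l 4))) (b (l 1) (b (l 1) (a (l 16594576) (l 1))))) (l 4)))), by decide +kernel⟩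

theorem c_pm_033 : CertB 0 536870912 1610612736 536870912 1033476505 6710887 3 eng mog cd0q0 cd2q3 pd3 true true false .pnn 0 3 3
    ndB0q0 ndB2q3 pcB3 Cut.none Ext.none :=
  certB1 (fam := true) (s1 := true) (s2 := false) (a := 0) (b := 3) (c := 3) (cn := .pnn) (n1 := ndB0q0) (n2 := ndB2q3) (pc := pcB3) (cut := Cut.none) (xt := Ext.none) (P1 := 0) (W1 := 536870912) (P2 := 1610612736) (W2 := 536870912) (P3 := 1033476505) (W3 := 6710887) (N0 := 3) (En := eng) (mo := mog) (C1 := cd0q0) (C2 := cd2q3) (C3 := pd3)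
    rfl (fun _ => rfl) k0_pm_033

noncomputable def cut_pm_101 : Cut := Cut.of [[⟨0, 1, 0, 33554432⟩, ⟨1, 0, 0, 33554432⟩, ⟨2, 1, 0, 33554432⟩]]

noncomputable def f_pm_101 : ℕ → ℕ → ℕ → ℕ → Bool := onCell 536870912 536870912 0 536870912 1033476505 6710887
    (rowB 3 eng mog cd0q1 cd2q0 pd1 2 true true false .npn 1 0 1 (qsf 536870912 536870912 0 536870912 1) ndB0q1 ndB2q0 pcB1 cut_pm_101 Ext.none)

def k0_pm_101 : ∃ t, chk3 f_pm_101 t 1 1 1 = true :=
  ⟨(a (l 3) (b (a (l 3) (b (a (l 3) (b (a (l 3) (b (a (l 3) (b (a (l 3) (l 6)) (l 3))) (l 3))) (l 3))) (l 3))) (l 3))), by decide +kernel⟩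

theorem c_pm_101 : CertB 536870912 536870912 0 536870912 1033476505 6710887 3 eng mog cd0q1 cd2q0 pd1 true true false .npn 1 0 1
    ndB0q1 ndB2q0 pcB1 cut_pm_101 Ext.none :=
  certB2 (fam := true) (s1 := true) (s2 := false) (a := 1) (b := 0) (c := 1) (cn := .npn) (n1 := ndB0q1) (n2 := ndB2q0) (pc := pcB1) (cut := cut_pm_101) (xt := Ext.none) (P1 := 536870912) (W1 := 536870912) (P2 := 0) (W2 := 536870912) (P3 := 1033476505) (W3 := 6710887) (N0 := 3) (En := eng) (mo := mog) (C1 := cd0q1) (C2 := cd2q0) (C3 := pd1)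
    rfl (fun _ => rfl) k0_pm_101

end Pool.Agent.Strip051.G.I9625_9688.Tab.C.BA02

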