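import Pool.Agent.Strip051.G.I9625_9688.Tab
import Pool.Agent.Strip051.PB.ExtD3

/-! # Certificates B8 (generated) -/

set_option linter.all false
set_option maxRecDepth 100000

namespace Pool.Agent.Strip051.G.I9625_9688.Tab.C.BA03

open Pool.Agent.Strip051.PB Pool.Agent.Strip051.PB.T
open Pool.Agent.Strip051.G.I9625_9688.Tab

noncomputable def f_pm_022 : ℕ → ℕ → ℕ → ℕ → Bool := onCell 0 536870912 1073741824 536870912 1033476505 6710887
    (rowB 3 eng mog cd0q0 cd3q2 pd2 1 true true false .pp 0 2 2 (qsf 0 536870912 1073741824 536870912 2) ndB0q0 ndB3q2 pcB2 Cut.none Ext.none)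

def k0_pm_022 : ∃ t, chk3 f_pm_022 t 2 8 1 = true :=
  ⟨(a (b (a (a (b (l 3) (b (l 3) (b (l 3) (a (a (l 277192984215) (l 297594047799)) (a (l 308331413991) (l 3)))))) (l 3)) (l 1)) (a (b (a (b (b (a (a (b (l 16680168) (l 16656504)) (l 16666776)) (b (a (l 16673912) (l 16623680)) (a (l 16668216) (l 16659600)))) (a (b (l 16608016) (a (l 16605656) (l 16644168))) (b (l 16650400) (b (l 16665384) (l 16653008))))) (a (b (l 16579288) (l 16571568)) (a (l 16623792) (l 16664528)))) (b (a (b (a (b (a (l 401075778615) (l 1)) (l 372084741255)) (l 1)) (a (b (l 235719562439) (l 16635464)) (b (l 1) (l 726956485879)))) (l 1)) (a (a (l 16648752) (b (b (l 520798036839) (l 16658168)) (l 16668544))) (b (l 1) (l 783327915287))))) (a (a (b (a (l 16533608) (l 16571488)) (l 16439160)) (b (a (l 16611232) (l 16630952)) (l 16539352))) (a (b (l 16637952) (l 16599720)) (b (a (l 16617304) (l 460131639751)) (l 101501846983))))) (b (l 1) (a (a (b (l 1) (l 442951755735)) (l 1)) (l 1))))) (l 1)), by decide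 +kernel⟩

def k1_pm_022 : ∃ t, chk3 f_pm_022 t 4 9 1 = true :=
  ⟨(a (b (a (b (a (b (b (l 16403840) (a (l 16431816) (l 16467480))) (a (l 16419328) (l 16454848))) (b (b (l 16524584) (a (l 16505592) (l 16545112))) (l 16469392))) (a (b (a (l 16405024) (l 16440416)) (a (l 16393376) (l 16428656))) (b (l 16454752) (l 16432344)))) (b (b (a (a (l 16575584) (l 16615032)) (l 16622952)) (a (l 16567008) (l 16595408))) (a (b (l 16552104) (l 16539952)) (b (l 16601528) (l 16589144))))) (a (b (a (b (a (l 16363136) (l 16419296)) (a (b (l 16378456) (l 16375408)) (l 16412120))) (b (a (l 16456344) (l 16494336)) (a (l 16449104) (l 16487032)))) (a (b (a (b (l 16372848) (l 16370768)) (l 16406984)) (a (b (l 16369176) (l 16368064)) (l 16382848))) (b (a (l 16443928) (l 16481824)) (a (l 16440760) (l 16478648))))) (b (a (b (l 16509312) (l 16501904)) (b (l 16579288) (l 16571752))) (a (b (l 16496640) (l 16493456)) (b (l 16554896) (l 16529464)))))) (a (b (b (a (b (l 157336396439) (a (l 16662192) (l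 104186213847))) (b (l 1) (a (b (l 1) (l 16639048)) (l 1)))) (a (b (l 16621816) (l 16606672)) (a (b (l 16629896) (l 16615352)) (b (l 16590152) (l 16597160))))) (a (b (b (l 16588968) (l 16568912)) (b (l 16546624) (l 16522128))) (b (a (b (l 16598224) (l 16578704)) (b (l 16580584) (l 16561600))) (a (b (l 16556912) (l 16532864)) (b (l 16540312) (l 16516744)))))) (b (a (b (l 1) (a (b (l 1) (l 16534080)) (l 1))) (l 1)) (a (b (a (b (l 16539464) (l 16521440)) (b (l 16481752) (l 16464968))) (a (b (l 16501080) (l 16478416)) (b (l 16445832) (l 16424352)))) (a (b (l 238403376599) (a (l 16389504) (l 16357392))) (b (l 1) (l 69825715383))))))), by decide +kernel⟩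

def k2_pm_022 : ∃ t, chk3 f_pm_022 t 5 9 1 = true :=
  ⟨(a (b (l 1) (a (a (b (l 1) (a (l 510596564567) (l 1))) (l 1)) (l 1))) (l 1)), by decide +kernel⟩

def k3_pm_022 : ∃ t, chk3 f_pm_022 t 3 4 1 = true :=
  ⟨(l 1), by decide +kernel⟩

def k4_pm_022 : ∃ t, chk3 f_pm_022 t 8 40 1 = true :=
  ⟨(a (a (b (a (b (l 16367472) (l 16367424)) (l 16381760)) (a (b (l 16368008) (l 16369328)) (b (l 16403176) (l 16404552)))) (b (a (l 16439712) (l 16477624)) (a (l 16420216) (l 16458216)))) (a (b (l 16492480) (l 16483680)) (b (l 16501768) (a (l 16500856) (l 16505280))))), by decide +kernel⟩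

def k5_pm_022 : ∃ t, chk3 f_pm_022 t 8 82 1 = true :=
  ⟨(a (a (b (a (l 16350656) (l 16406936)) (a (b (l 16374080) (l 16376424)) (l 16389848))) (b (a (l 16444096) (l 16482192)) (a (l 16427112) (l 16465312)))) (a (b (l 16482088) (l 16462952)) (b (l 16467496) (l 16427776)))), by decide +kernel⟩

def k6_pm_022 : ∃ t, chk3 f_pm_022 t 16 83 1 = true :=
  ⟨(b (a (b (a (l 16358552) (l 16415032)) (a (b (l 16382472) (l 16364104)) (l 16398536))) (a (b (l 16452392) (l 16436000)) (l 16451624))) (b (a (b (a (l 16367520) (l 16403216)) (a (b (l 16370856) (b (l 16373080) (l 16375016))) (b (l 16406616) (l 16409952)))) (b (a (l 16440768) (l 16471928)) (a (l 16435768) (l 16462512)))) (a (b (b (a (b (a (l 16369096) (l 16407384)) (b (a (c (l 16383272) (l 16381952)) (l 16389464)) (b (b (a (c (l 16395984) (l 16394704)) (l 16391728)) (b (b (b (a (l 16396344) (l 16413704)) (b (a (l 16396704) (l 16414064)) (a (b (l 16397000) (l 16386768)) (l 16404000)))) (a (l 16397368) (l 16414736))) (a (l 16397336)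 (l 16414704)))) (a (l 16397240) (l 16414608))))) (b (l 16413536) (b (a (l 16407440) (l 16446912)) (b (b (l 16418920) (b (b (b (l 16419936) (a (c (l 16411696) (l 16411032)) (l 16429896))) (l 16420976)) (l 16420944))) (l 16420848))))) (a (a (l 16396528) (l 16413896)) (l 16420128))) (a (a (l 16394632) (l 16411992)) (l 16418224))) (b (b (a (b (l 16451272) (b (l 16454408) (b (b (l 16456736) (a (l 16448592) (l 16459416))) (l 16458688)))) (b (l 16455008) (b (l 16451104) (b (b (l 16469408) (l 16446864)) (l 16467128))))) (a (l 16457968) (l 16466768))) (a (l 16456048) (l 16465824)))))), by decide +kernel⟩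

def k7_pm_022 : ∃ t, chk3 f_pm_022 t 17 83 1 = true :=
  ⟨(b (a (a (l 16449640) (l 16452544)) (b (l 16433248) (a (l 16450304) (l 16434368)))) (b (a (b (l 16434864) (a (l 16444976) (l 16426944))) (b (a (l 16439744) (l 16423824)) (a (l 16409296) (b (l 16417392) (l 16411928))))) (a (b (b (a (b (l 16458408) (b (l 16454464) (b (b (l 16451768) (l 16439688)) (l 16449456)))) (b (l 16440336) (b (l 16436360) (b (b (l 16433640) (a (l 16436584) (l 16427512))) (l 16431304))))) (a (l 16449128) (l 16431000))) (a (l 16448256) (l 16430200))) (b (b (a (b (l 16422656) (b (l 16418640) (b (b (l 16415888) (a (c (l 16397960) (l 16407760)) (c (l 16389424) (a (l 16401272) (l 16397096))))) (l 16413536)))) (b (l 16406664) (b (a (l 16406384) (l 16378024)) (b (b (l 16389344) (b (b (b (l 16377688) (a (l 16391264) (c (l 16373752) (l 16383464)))) (l 16376520)) (l 16376512))) (l 16376472))))) (a (l 16413256) (l 16376224))) (a (l 16412520) (l 16375552)))))), by decide +kernel⟩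

def k8_pm_022 : ∃ t, chk3 f_pm_022 t 8 21 1 = true :=
  ⟨(a (b (a (a (b (a (b (l 16367376) (l 16378416)) (l 16379728)) (a (l 16342816) (l 16381048))) (b (a (l 16397696) (l 16416184)) (l 16387136))) (a (b (l 16423664) (l 16424768)) (l 16433728))) (a (a (b (b (l 16337008) (l 16327632)) (l 16308608)) (b (l 16367960) (l 16349360))) (a (l 16375096) (l 16411176)))) (a (b (a (l 16416976) (l 16399720)) (a (l 16416928) (l 16401208))) (b (a (b (l 16407984) (l 16399536)) (b (l 16381880) (l 16384592))) (a (l 16385784) (l 16371872))))), by decide +kernel⟩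

def k9_pm_022 : ∃ t, chk3 f_pm_022 t 8 11 1 = true :=
  ⟨(a (b (a (b (a (b (l 16295976) (l 16278696)) (l 16301640)) (a (b (l 16282976) (l 16266888)) (l 16288960))) (b (a (l 16338808) (l 16386344)) (l 16302752))) (a (b (a (l 16222952) (l 16257688)) (a (l 16194376) (l 16228816))) (b (l 16271048) (l 16241728)))) (b (a (a (l 16339048) (l 16346616)) (b (l 16338072) (l 16337240))) (a (b (l 16313600) (l 16284128)) (l 16258072)))), by decide +kernel⟩

def k10_pm_022 : ∃ t, chk3 f_pm_022 t 18 40 1 = true :=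
  ⟨(a (b (l 16474312) (a (l 16491776) (l 16482552))) (a (b (l 16485440) (a (l 16479056) (l 16475360))) (b (l 16469760) (a (l 16467464) (l 16454752))))), by decide +kernel⟩

def k11_pm_022 : ∃ t, chk3 f_pm_022 t 18 82 1 = true :=
  ⟨(a (b (l 16441296) (a (l 16448824) (l 16439856))) (a (b (l 16452920) (a (l 16436448) (l 16432848))) (b (l 16437880) (a (l 16425152) (l 16412760))))), by decide +kernel⟩

def k12_pm_022 : ∃ t, chk3 f_pm_022 t 18 166 1 = true :=
  ⟨(a (a (b (l 16433456) (l 16421336)) (b (l 16424520) (l 16412400))) (a (a (b (l 16421112) (l 16408968)) (b (l 16417520) (l 16405368))) (a (b (l 16409856) (l 16397728)) (b (l 16397544) (l 16385448))))), by decide +kernel⟩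

def k13_pm_022 : ∃ t, chk3 f_pm_022 t 36 167 1 = true :=
  ⟨(a (a (b (b (l 16413704) (l 16383200)) (b (b (b (l 16396480) (b (l 16371424) (b (b (l 16368624) (b (b (b (l 16388416) (b (l 16388008) (l 16377048))) (l 16387240)) (l 16387232))) (l 16387192)))) (l 16386960)) (l 16386328))) (b (b (l 16408104) (b (l 16401648) (l 16396152))) (b (b (b (l 16390840) (b (l 16365768) (b (b (l 16362952) (b (b (b (l 16382736) (b (l 16382320) (c (l 16361216) (l 16371016)))) (l 16381544)) (l 16381536))) (l 16381504)))) (l 16381280)) (l 16380672)))) (b (b (l 16380848) (b (l 16374376) (l 16368848))) (b (b (b (c (l 16363704) (l 16363296)) (b (a (l 16371680) (l 16368352)) (b (b (a (l 16358360) (l 16365504)) (b (b (b (a (l 16378136) (l 16374784)) (b (a (l 16377720) (l 16374368)) (a (b (l 16377376) (l 16361360)) (b (l 16374024) (l 16360624))))) (a (l 16376944) (l 16373584))) (a (l 16376936) (l 16373576)))) (a (l 16376904) (l 16373544))))) (a (l 16376688) (l 16373336))) (a (l 16376104) (l 16372776))))),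 by decide +kernel⟩

def k14_pm_022 : ∃ t, chk3 f_pm_022 t 37 167 1 = true :=
  ⟨(b (a (b (a (l 16398360) (l 16394744)) (a (b (l 16391848) (l 16365328)) (b (l 16388224) (l 16361680)))) (b (a (l 16387096) (l 16374840)) (a (b (l 16380568) (l 16354008)) (b (l 16368304) (l 16341744))))) (a (b (b (b (a (l 16370432) (l 16356272)) (b (a (a (l 16366784) (l 16365736)) (a (l 16363864) (l 16350560))) (b (b (a (a (l 16358680) (l 16357624)) (a (l 16350496) (l 16347672))) (b (b (b (a (a (l 16373200) (l 16372144)) (a (l 16370256) (l 16367424))) (b (a (a (l 16372784) (l 16371720)) (a (l 16369832) (l 16367000))) (b (a (a (l 16372432) (l 16371376)) (a (l 16369488) (l 16366656))) (a (a (l 16356408) (l 16355352)) (a (l 16353456) (l 16345384)))))) (a (a (l 16371992) (l 16370936)) (a (l 16369040) (l 16366208)))) (a (a (l 16371984) (l 16370928)) (a (l 16369032) (l 16366200))))) (a (a (l 16371960) (l 16370896)) (a (l 16369008) (l 16366176)))))) (a (a (l 16371752) (l 16370696)) (a (l 16368808)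 (l 16365984)))) (a (a (l 16371200) (l 16370160)) (l 16356512))) (b (b (b (a (l 16348584) (l 16336304)) (b (a (a (l 16346712) (l 16341768)) (c (l 16332136) (l 16332040))) (b (b (a (c (l 16341552) (l 16351920)) (l 16343592)) (b (b (b (a (l 16350752) (l 16327952)) (b (a (l 16350328) (l 16327520)) (a (a (a (l 16347992) (l 16340552)) (l 16341968)) (a (l 16330576) (l 16344120))))) (a (l 16349528) (l 16326720))) (a (l 16349520) (l 16326712)))) (a (l 16349496) (l 16326688))))) (a (l 16349312) (l 16326512))) (a (l 16348816) (l 16326056))))), by decide +kernel⟩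

def k15_pm_022 : ∃ t, chk3 f_pm_022 t 18 21 1 = true :=
  ⟨(a (b (a (a (l 16373568) (a (l 16353728) (l 16351304))) (b (a (l 16372504) (l 16348328)) (l 16343096))) (a (l 16360576) (l 16353008))) (a (b (a (b (a (l 16367808) (l 16366816)) (l 16360936)) (b (a (l 16365000) (l 16362256)) (l 16357592))) (a (l 16350328) (l 16347328))) (b (a (b (l 16348360) (l 16350376)) (b (l 16333696) (l 16338736))) (a (l 16340584) (l 16329552))))), by decide +kernel⟩

def k16_pm_022 : ∃ t, chk3 f_pm_022 t 19 10 1 = true :=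
  ⟨(b (b (a (a (b (l 16432296) (a (l 16436216) (l 16412712))) (b (l 16400360) (l 16373296))) (b (a (l 16341152) (l 16276368)) (a (l 16315280) (l 16251776)))) (b (a (a (a (b (l 16412744) (l 16394688)) (l 16379960)) (b (l 16350784) (l 16333320))) (a (l 16242480) (l 16222112))) (a (b (a (a (b (l 16379592) (l 16367560)) (l 16350264)) (b (l 16318640) (l 16306848))) (b (a (a (b (l 16356984) (a (l 16331544) (l 16321248))) (b (l 16334368) (l 16324704))) (b (l 16296432) (l 16301224))) (a (b (b (b (a (l 16318456) (l 16316824)) (b (a (l 16324712) (l 16312584)) (b (b (a (l 16311304) (l 16309648)) (a (a (c (l 16314904) (l 16314656)) (l 16304472)) (l 16297416))) (a (l 16308800) (l 16307136))))) (a (l 16308648) (l 16307008))) (a (l 16308240) (l 16306656))) (b (b (b (l 16278936) (b (l 16274680) (b (b (l 16271728) (a (l 16262000) (l 16256584))) (l 16269200)))) (l 16269104)) (l 16268848))))) (b (a (l 16256008) (l 16194512)) (b (a (b (l 16240560) (l 16231000)) (l 16173512)) (b (b (a (b (l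 16223144) (b (l 16218872) (a (l 16208752) (l 16179376)))) (b (l 16162040) (b (l 16157744) (l 16153968)))) (a (l 16213304) (l 16152192))) (a (l 16213176) (l 16152208)))))))) (a (a (a (b (b (l 16305680) (l 16321728)) (l 16313328)) (b (l 16302320) (l 16292664))) (b (a (l 16278176) (l 16252600)) (l 16257896))) (a (b (l 16211384) (l 16206544)) (l 16151184)))), by decide +kernel⟩

def k17_pm_022 : ∃ t, chk3 f_pm_022 t 9 11 1 = true :=
  ⟨(a (a (b (a (l 16333144) (l 16327112)) (l 16265416)) (a (b (b (l 16332920) (l 16314944)) (l 16283584)) (b (b (l 16321120) (l 16304400)) (l 16274944)))) (a (a (b (a (l 16292832) (l 16274040)) (l 16250264)) (b (l 16242288) (l 16213968))) (b (a (l 16195216) (l 16143312)) (l 16150264)))), by decide +kernel⟩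

def k18_pm_022 : ∃ t, chk3 f_pm_022 t 5 5 1 = true :=
  ⟨(b (a (b (b (a (a (b (l 16172888) (l 16150264)) (b (l 1) (l 512743536551))) (l 1)) (a (b (a (a (l 16156336) (l 16088024)) (l 15919192)) (b (a (l 16138072) (l 15957504)) (b (a (a (l 16108904) (l 16041784)) (l 15937672)) (a (b (b (b (l 16064272) (a (a (l 16086760) (l 16053808)) (l 16024272))) (l 16054432)) (l 16054656)) (a (a (l 15959600) (l 15919552)) (l 15887800)))))) (b (l 1) (b (l 1) (a (b (l 1) (b (l 1) (l 15775736))) (l 1)))))) (a (a (a (l 16089920) (l 16026176)) (l 15927096)) (a (l 119216882775) (b (l 630854616103) (l 15667680))))) (b (l 1) (a (a (l 721048694983) (l 1)) (l 1)))) (a (a (a (b (l 16059656) (l 16052520)) (b (l 15940824) (l 15946248))) (a (l 15826888) (l 15709840))) (a (b (a (l 204041915655) (l 568040368887)) (a (l 15617552) (l 15521080))) (b (a (l 646423346183) (l 1)) (a (l 472477147719) (l 568577060423)))))), by decide +kernel⟩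

def k19_pm_022 : ∃ t, chk3 f_pm_022 t 3 5 1 = true :=
  ⟨(a (a (b (l 1) (a (b (l 1) (a (l 594883667415) (l 1))) (l 1))) (l 1)) (l 1)), by decide +kernel⟩

def k20_pm_022 : ∃ t, chk3 f_pm_022 t 8 3 1 = true :=
  ⟨(b (b (a (b (a (a (b (l 16189176) (l 16165392)) (l 16169224)) (b (l 16235776) (l 16208504))) (a (b (l 16118496) (l 16099224)) (l 16126832))) (b (a (l 16214312) (l 16221504)) (a (l 16141312) (l 16175664)))) (a (b (a (b (l 16079904) (b (a (l 16062200) (l 16086496)) (a (l 16062016) (l 16064328)))) (b (l 16103440) (a (b (l 16089080) (l 16065144)) (l 16078496)))) (a (b (l 16011744) (l 15969200)) (b (a (l 16035184) (l 16036528)) (l 15996040)))) (b (a (l 16038272) (l 16078848)) (a (b (b (l 16024568) (l 16026608)) (l 15998144)) (b (a (l 16036024) (l 16038544)) (a (l 15998552) (l 16000040))))))) (b (a (b (a (b (l 15945048) (l 15897448)) (l 15890064)) (a (l 15800456) (l 15838392))) (b (a (l 15918104) (l 15944240)) (a (l 15852064) (l 15863576)))) (a (b (a (l 15712728) (l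 15736000)) (l 15527600)) (b (a (l 15756264) (l 15774088)) (a (l 15652832) (l 15676920)))))), by decide +kernel⟩

def k21_pm_022 : ∃ t, chk3 f_pm_022 t 9 3 1 = true :=
  ⟨(b (a (b (a (b (l 16233936) (l 16172280)) (a (b (l 16233960) (l 16175176)) (b (l 16227904) (l 16171736)))) (a (b (l 16101624) (b (l 16043208) (b (l 16011704) (l 15973192)))) (a (b (l 16107432) (b (l 16051176) (l 16010224))) (b (l 16106616) (l 16032912))))) (a (b (a (b (l 16207504) (l 16155656)) (b (l 16176648) (l 16130240))) (a (b (l 16094856) (l 16025464)) (b (l 16074904) (l 16010952)))) (b (b (l 16121768) (l 16084232)) (b (l 16037776) (l 15982688))))) (a (b (a (b (l 15950544) (l 15875208)) (b (a (b (l 15975072) (l 15940688)) (b (l 15976736) (l 15942888))) (a (l 15885440) (l 15889664)))) (a (b (l 15791032) (l 15699128)) (b (a (l 15804288) (l 15811208)) (l 15657176)))) (b (a (b (a (b (l 15969872) (l 15937904)) (b (l 15957456) (l 15927248))) (a (l 15887952) (l 15881416))) (b (b (l 15935736) (l 15907440))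 (l 15866512))) (a (b (a (l 15813840) (l 15812760)) (l 15744960)) (b (l 15806720) (l 15738976)))))), by decide +kernel⟩

def k22_pm_022 : ∃ t, chk3 f_pm_022 t 5 3 1 = true :=
  ⟨(b (a (a (b (a (l 15940560) (l 15937240)) (a (l 15956672) (l 15895032))) (b (a (l 15845016) (l 15751592)) (a (l 15827976) (l 15758520)))) (a (b (l 15618760) (l 15657672)) (b (a (l 15509928) (l 15438912)) (l 15552352)))) (a (b (a (b (a (l 15882992) (l 15841992)) (a (l 15838632) (l 15805504))) (b (l 15768200) (b (l 15747528) (l 15738728)))) (a (a (l 15763776) (l 15747368)) (a (l 15724832) (l 15697648)))) (b (a (l 15660464) (l 15589200)) (a (b (l 15656968) (l 15651448)) (a (l 15616232) (l 15595072)))))), by decide +kernel⟩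

def k23_pm_022 : ∃ t, chk3 f_pm_022 t 3 3 1 = true :=
  ⟨(a (b (a (a (b (b (a (l 515963790103) (l 546028489303)) (a (l 15455480) (l 15437840))) (l 15501728)) (b (b (l 576630081031) (a (l 514890049511) (l 542270440791))) (b (l 15462848) (l 15501712)))) (b (a (b (l 1) (l 565892734055)) (l 1)) (a (b (l 531533096263) (l 15488896)) (b (l 559450367127) (l 519722009079))))) (a (a (b (l 15554848) (l 15576568)) (b (l 15543920) (l 15571384))) (b (a (l 15536312) (b (l 15519856) (l 15548816))) (l 15554920)))) (b (a (b (l 1) (a (b (l 1) (l 539049357975)) (l 1))) (l 1)) (a (b (a (b (l 507374051815) (l 15551016)) (b (l 519185211031) (l 495026086183))) (a (l 15582888) (b (l 15578280) (l 15596984)))) (b (a (b (l 1) (l 498784175447)) (l 1)) (a (b (l 483214975191) (l 15598256)) (b (l 479456859175) (l 472477644151))))))), by decide +kernel⟩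

theorem s24_pm_022 : ∃ t, chk3 f_pm_022 t 4 3 1 = true := ex3_a k20_pm_022 k21_pm_022

theorem s25_pm_022 : ∃ t, chk3 f_pm_022 t 2 3 1 = true := ex3_a s24_pm_022 k22_pm_022

theorem s26_pm_022 : ∃ t, chk3 f_pm_022 t 1 3 1 = true := ex3_a s25_pm_022 k23_pm_022

theorem s27_pm_022 : ∃ t, chk3 f_pm_022 t 18 167 1 = true := ex3_a k13_pm_022 k14_pm_022

theorem s28_pm_022 : ∃ t, chk3 f_pm_022 t 18 83 1 = true := ex3_b k12_pm_022 s27_pm_022

theorem s29_pm_022 : ∃ t, chk3 f_pm_022 t 18 41 1 = true := ex3_b k11_pm_022 s28_pm_022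

theorem s30_pm_022 : ∃ t, chk3 f_pm_022 t 18 20 1 = true := ex3_b k10_pm_022 s29_pm_022

theorem s31_pm_022 : ∃ t, chk3 f_pm_022 t 18 10 1 = true := ex3_b s30_pm_022 k15_pm_022

theorem s32_pm_022 : ∃ t, chk3 f_pm_022 t 9 10 1 = true := ex3_a s31_pm_022 k16_pm_022

theorem s33_pm_022 : ∃ t, chk3 f_pm_022 t 9 5 1 = true := ex3_b s32_pm_022 k17_pm_022

theorem s34_pm_022 : ∃ t, chk3 f_pm_022 t 8 83 1 = true := ex3_a k6_pm_022 k7_pm_022

theorem s35_pm_022 : ∃ t, chk3 f_pm_022 t 8 41 1 = true := ex3_b k5_pm_022 s34_pm_022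

theorem s36_pm_022 : ∃ t, chk3 f_pm_022 t 8 20 1 = true := ex3_b k4_pm_022 s35_pm_022

theorem s37_pm_022 : ∃ t, chk3 f_pm_022 t 8 10 1 = true := ex3_b s36_pm_022 k8_pm_022

theorem s38_pm_022 : ∃ t, chk3 f_pm_022 t 8 5 1 = true := ex3_b s37_pm_022 k9_pm_022

theorem s39_pm_022 : ∃ t, chk3 f_pm_022 t 4 5 1 = true := ex3_a s38_pm_022 s33_pm_022

theorem s40_pm_022 : ∃ t, chk3 f_pm_022 t 2 5 1 = true := ex3_a s39_pm_022 k18_pm_022

theorem s41_pm_022 : ∃ t, chk3 f_pm_022 t 1 5 1 = true := ex3_a s40_pm_022 k19_pm_022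

theorem s42_pm_022 : ∃ t, chk3 f_pm_022 t 2 9 1 = true := ex3_a k1_pm_022 k2_pm_022

theorem s43_pm_022 : ∃ t, chk3 f_pm_022 t 2 4 1 = true := ex3_b k0_pm_022 s42_pm_022

theorem s44_pm_022 : ∃ t, chk3 f_pm_022 t 1 4 1 = true := ex3_a s43_pm_022 k3_pm_022

theorem s45_pm_022 : ∃ t, chk3 f_pm_022 t 1 2 1 = true := ex3_b s44_pm_022 s41_pm_022

theorem s46_pm_022 : ∃ t, chk3 f_pm_022 t 1 1 1 = true := ex3_b s45_pm_022 s26_pm_022

theorem c_pm_022 : CertB 0 536870912 1073741824 536870912 1033476505 6710887 3 eng mog cd0q0 cd3q2 pd2 true true false .pp 0 2 2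
    ndB0q0 ndB3q2 pcB2 Cut.none Ext.none :=
  certB1 (fam := true) (s1 := true) (s2 := false) (a := 0) (b := 2) (c := 2) (cn := .pp) (n1 := ndB0q0) (n2 := ndB3q2) (pc := pcB2) (cut := Cut.none) (xt := Ext.none) (P1 := 0) (W1 := 536870912) (P2 := 1073741824) (W2 := 536870912) (P3 := 1033476505) (W3 := 6710887) (N0 := 3) (En := eng) (mo := mog) (C1 := cd0q0) (C2 := cd3q2) (C3 := pd2)
    rfl (fun _ => rfl) s46_pm_022

noncomputable def f_pm_023 : ℕ → ℕ → ℕ → ℕ → Bool := onCell 0 536870912 1610612736 536870912 1033476505 6710887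
    (rowB 3 eng mog cd0q0 cd3q2 pd3 1 true true false .up 0 2 3 (qsf 0 536870912 1073741824 536870912 3) ndB0q0 ndB3q2 pcB3 Cut.none Ext.none)

def k0_pm_023 : ∃ t, chk3 f_pm_023 t 2 1 1 = true :=
  ⟨(b (a (b (a (b (a (b (l 15450432) (l 15310712)) (b (l 15523104) (l 15395264))) (a (l 2) (b (l 15274088) (l 2)))) (a (b (a (b (l 15570136) (l 15449880)) (b (l 15598616) (l 15482328))) (a (b (l 15335968) (l 2)) (b (l 15372160) (l 15270784)))) (b (a (b (l 15623968) (l 15515096)) (b (l 15643016) (l 15545104))) (a (b (l 15412096) (l 15317616)) (b (l 15452816) (l 15368768)))))) (a (l 2) (a (l 2) (b (a (l 2) (l 213235125991)) (l 2))))) (b (a (b (a (a (l 15610696) (l 15622256)) (l 15627592)) (a (a (l 15449728) (l 15484712)) (l 15524464))) (b (a (l 15618152) (l 15602400)) (a (l 15555608) (l 15568632)))) (a (b (a (b (l 15380048) (l 15337424)) (l 15456056)) (a (l 2) (l 15363184))) (b (a (l 15504376) (l 15564736)) (a (l 15551496) (l 15614208)))))) (a (l 2) (b (b (b (a (l 2) (l 165454230727))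 (l 2)) (l 2)) (l 2)))), by decide +kernel⟩

def k1_pm_023 : ∃ t, chk3 f_pm_023 t 3 1 1 = true :=
  ⟨(b (a (b (a (b (a (l 15595752) (l 15600080)) (a (l 15575856) (l 15583216))) (b (l 15582512) (l 15593120))) (a (a (b (l 15583384) (l 15641192)) (b (l 15594448) (l 15652840))) (b (l 15607072) (l 15663488)))) (b (a (b (l 15552528) (l 15603112)) (b (a (l 15518832) (l 15487704)) (l 15572448))) (a (b (l 15621504) (l 15671448)) (b (l 15635232) (l 15676544))))) (a (b (b (a (a (l 15776200) (l 15784696)) (l 15787792)) (a (b (a (l 2) (l 15918968)) (l 2)) (b (l 15959472) (b (l 16086632) (l 16220640))))) (b (a (l 2) (b (b (l 16329112) (l 2)) (l 2))) (l 2))) (a (b (b (l 15781712) (b (l 15920552) (l 16067064))) (b (b (b (l 16208384) (l 16294976)) (l 16341960)) (l 4))) (b (b (l 15775024) (l 15951816)) (b (b (b (l 16121336) (l 16205464)) (l 16279392)) (l 4)))))), by decide +kernel⟩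

theorem s2_pm_023 : ∃ t, chk3 f_pm_023 t 1 1 1 = true := ex3_a k0_pm_023 k1_pm_023

theorem c_pm_023 : CertB 0 536870912 1073741824 536870912 1033476505 6710887 3 eng mog cd0q0 cd3q2 pd3 true true false .up 0 2 3
    ndB0q0 ndB3q2 pcB3 Cut.none Ext.none :=
  certB1 (fam := true) (s1 := true) (s2 := false) (a := 0) (b := 2) (c := 3) (cn := .up) (n1 := ndB0q0) (n2 := ndB3q2) (pc := pcB3) (cut := Cut.none) (xt := Ext.none) (P1 := 0) (W1 := 536870912) (P2 := 1073741824) (W2 := 536870912) (P3 := 1033476505) (W3 := 6710887) (N0 := 3) (En := eng) (mo := mog) (C1 := cd0q0) (C2 := cd3q2) (C3 := pd3)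
    rfl (fun _ => rfl) s2_pm_023

noncomputable def f_pm_033 : ℕ → ℕ → ℕ → ℕ → Bool := onCell 0 536870912 0 1230186008 1033476505 6710887
    (rowB 3 eng mog cd0q0 cd3q3 pd3 0 true true false .pnn 0 3 3 (qsf 0 536870912 0 1230186008 3) ndB0q0 ndB3q3 pcB3 Cut.none Ext.none)

def k0_pm_033 : ∃ t, chk3 f_pm_033 t 1 2 1 = true :=
  ⟨(l 4), by decide +kernel⟩

def k1_pm_033 : ∃ t, chk3 f_pm_033 t 1 6 1 = true :=
  ⟨(a (b (l 4) (a (a (b (a (b (l 4) (a (b (l 14908904) (l 14974280)) (b (l 4) (l 14996760)))) (l 4)) (a (b (a (l 15134744) (l 15109392)) (a (b (l 15086072) (l 14958176)) (b (l 15235472) (l 15129112)))) (b (a (b (l 15086312) (l 15149768)) (b (l 4) (l 15170096))) (a (b (l 15251448) (l 15283048)) (b (l 15233792) (l 15335368)))))) (b (l 4) (b (l 4) (a (a (b (l 15237280) (l 15301872)) (b (l 4) (l 15291296))) (a (b (l 4) (l 15326632)) (l 4)))))) (l 4))) (l 4)), by decide +kernel⟩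

def k2_pm_033 : ∃ t, chk3 f_pm_033 t 4 14 1 = true :=
  ⟨(a (b (a (b (b (a (a (b (l 14800336) (l 14724048)) (l 14856096)) (l 14996152)) (a (b (a (l 14696976) (l 14746008)) (l 14714440)) (b (l 14881712) (a (l 14770664) (l 14846680))))) (b (a (l 14724216) (a (l 14759856) (b (l 14776488) (l 14789632)))) (l 14744152))) (b (a (b (l 15170984) (l 15032360)) (b (l 15324672) (l 15206696))) (b (a (b (a (l 14863872) (l 14961408)) (a (b (l 14825384) (l 14819040)) (l 14883320))) (l 14978256)) (a (l 14823472) (a (b (c (l 14881200) (l 14906632)) (l 14882704)) (b (l 14983800) (l 14905072))))))) (a (a (b (l 14787688) (l 14863392)) (b (l 14819368) (l 14881864))) (a (b (l 14859936) (l 14908536)) (b (l 14906024) (l 14961464))))) (b (a (b (a (b (l 15403896) (l 15353560)) (b (l 15358048) (l 15460272))) (a (b (l 15209008) (a (b (l 15076136) (l 14991680)) (l 15121232))) (b (l 15350864) (a (l 15200392) (l 15281296))))) (b (a (b (l 15394912) (l 15464256)) (b (l 15497544) (l 15547080))) (a (b (l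 15522896) (a (l 15371576) (l 15467112))) (b (l 15619064) (l 15608784))))) (a (b (a (b (a (b (b (a (l 14933792) (l 14956992)) (l 14938776)) (l 14940032)) (b (b (l 15016456) (l 14961056)) (l 14967248))) (l 14955408)) (b (a (b (l 15082048) (b (l 15018072) (a (l 14980992) (l 15002704)))) (l 14999864)) (a (l 14985328) (b (b (l 15010080) (l 15016112)) (l 15012072))))) (a (b (l 14965744) (l 14982312)) (a (l 14995744) (l 15017160)))) (b (a (b (a (l 15229360) (l 15334192)) (a (b (l 15062304) (l 15038464)) (b (l 15215744) (b (l 15149512) (l 15116248))))) (b (l 15449176) (l 15174472))) (a (a (l 15051200) (b (l 15100472) (l 15095296))) (b (b (a (l 15170232) (l 15268448)) (a (l 15145264) (l 15211008))) (l 15165864))))))), by decide +kernel⟩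

def k3_pm_033 : ∃ t, chk3 f_pm_033 t 5 14 1 = true :=
  ⟨(b (a (a (b (b (l 4) (a (l 15674584) (l 4))) (a (b (l 15705408) (l 15780272)) (b (l 15828752) (l 15862728)))) (b (l 4) (a (b (l 4) (l 15976112)) (l 4)))) (l 4)) (a (a (b (a (b (l 15693320) (l 15562456)) (b (l 15878904) (l 15771088))) (b (a (a (l 15214152) (l 15458352)) (l 15627000)) (a (a (l 15251672) (l 15175288)) (b (l 15493360) (l 15273512))))) (b (a (b (l 16013456) (l 15961760)) (b (l 16111816) (l 16124936))) (a (b (l 15838672) (l 15681448)) (b (l 16030168) (l 15893104))))) (a (b (b (l 4) (a (l 16231056) (l 16314176))) (a (b (l 16193760) (l 16081928)) (b (l 16308200) (l 16240504)))) (b (l 4) (a (b (l 16376632) (l 16351432)) (b (l 4) (l 16406016))))))), by decide +kernel⟩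

def k4_pm_033 : ∃ t, chk3 f_pm_033 t 2 15 1 = true :=
  ⟨(a (a (b (a (b (a (l 14962088) (l 14967968)) (a (l 15084368) (l 15078336))) (b (a (l 14981296) (l 14978672)) (a (l 15079000) (l 15063456)))) (a (b (b (l 15183568) (l 15259976)) (b (l 15342448) (l 15430960))) (b (a (l 15202136) (l 15195416)) (b (l 15303080) (l 15381096))))) (a (b (a (b (b (l 15005264) (l 15034744)) (l 15070376)) (b (a (l 15032408) (l 15046848)) (a (l 15095928) (l 15103720)))) (a (b (l 15190680) (l 15317392)) (b (a (l 15187136) (l 15188680)) (a (l 15306472) (l 15302224))))) (b (a (b (a (l 15072304) (l 15106176)) (a (l 15120848) (l 15145192))) (b (l 15165112) (l 15188936))) (a (b (a (l 15197784) (l 15212872)) (a (l 15303680) (l 15309824))) (b (l 15220800) (l 15324320)))))) (a (b (b (a (a (l 15256600) (b (l 15377320) (l 15351768))) (b (a (b (l 15545392) (l 15492408)) (l 15610456)) (a (l 15457592) (l 15401768)))) (a (a (l 15258960) (l 15339280)) (l 15474904))) (a (b (a (l 15290736) (l 15349216)) (a (l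 15352768) (l 15389912))) (b (l 15451416) (l 15459424)))) (b (a (b (b (a (l 15931816) (l 16115152)) (a (b (l 15796920) (l 15708824)) (l 15952616))) (b (a (l 15650968) (l 15701312)) (l 15653448))) (b (a (b (l 16265384) (l 16128176)) (b (l 16368872) (l 16267560))) (b (a (l 15945976) (l 16119552)) (a (l 15812760) (l 15939160))))) (a (b (l 15605544) (l 15570928)) (b (a (l 15724096) (l 15812184)) (l 15688968)))))), by decide +kernel⟩

def k5_pm_033 : ∃ t, chk3 f_pm_033 t 3 7 1 = true :=
  ⟨(b (a (a (l 4) (l 4)) (l 2)) (a (b (a (a (b (a (b (l 16411672) (l 16362480)) (b (l 4) (l 16406024))) (a (b (l 16248752) (l 16090488)) (b (l 16343000) (l 16218816)))) (b (a (b (l 4) (l 16419224)) (l 4)) (b (a (l 16395992) (l 16411672)) (a (l 16318184) (l 16380472))))) (b (l 4) (a (b (l 4) (a (l 16400992) (l 4))) (l 4)))) (a (a (b (b (a (l 15927224) (l 16044080)) (a (l 15840488) (l 15918512))) (l 15799408)) (b (b (l 16010048) (a (l 16015208) (l 16130544))) (b (l 15816920) (l 15885016)))) (b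 (a (b (a (l 16359080) (l 16387488)) (l 16108528)) (b (a (l 16383632) (l 4)) (a (l 16371104) (l 16377696)))) (a (b (a (l 16092800) (l 16211264)) (l 15820848)) (b (a (l 16299336) (l 16351272)) (a (l 16158112) (l 16262704))))))) (b (l 4) (a (b (l 4) (a (b (a (l 16365024) (l 16365328)) (a (l 16326792) (l 16352000))) (b (l 4) (a (l 16355304) (l 4))))) (l 4))))), by decide +kernel⟩

theorem s6_pm_033 : ∃ t, chk3 f_pm_033 t 2 14 1 = true := ex3_a k2_pm_033 k3_pm_033

theorem s7_pm_033 : ∃ t, chk3 f_pm_033 t 2 7 1 = true := ex3_b s6_pm_033 k4_pm_033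

theorem s8_pm_033 : ∃ t, chk3 f_pm_033 t 1 7 1 = true := ex3_a s7_pm_033 k5_pm_033

theorem s9_pm_033 : ∃ t, chk3 f_pm_033 t 1 3 1 = true := ex3_b k1_pm_033 s8_pm_033

theorem s10_pm_033 : ∃ t, chk3 f_pm_033 t 1 1 1 = true := ex3_b k0_pm_033 s9_pm_033

theorem c_pm_033 : CertB 0 536870912 0 1230186008 1033476505 6710887 3 eng mog cd0q0 cd3q3 pd3 true true false .pnn 0 3 3
    ndB0q0 ndB3q3 pcB3 Cut.none Ext.none :=
  certB0 (fam := true) (s1 := true) (s2 := false) (a := 0) (b := 3) (c := 3) (cn := .pnn) (n1 := ndB0q0) (n2 := ndB3q3) (pc := pcB3) (cut := Cut.none) (xt := Ext.none) (P1 := 0) (W1 := 536870912) (P2 := 0) (W2 := 1230186008) (P3 := 1033476505) (W3 := 6710887) (N0 := 3) (En := eng) (mo := mog) (C1 := cd0q0) (C2 := cd3q3) (C3 := pd3)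
    rfl s10_pm_033

noncomputable def xt_pm_101 : Ext := extD3 3 ⟨4, 1, 1, 5, 27, 5, 41, 50, 81, 200, 1, 64⟩ eng cd0q1 cd3q0 pd1 true true false .npn 1 0 1 rfl ndB0q1 ndB3q0 pcB1

noncomputable def f_pm_101 : ℕ → ℕ → ℕ → ℕ → Bool := onCell 536870912 536870912 0 536870912 1033476505 6710887
    (rowB 3 eng mog cd0q1 cd3q0 pd1 2 true true false .npn 1 0 1 (qsf 536870912 536870912 0 536870912 1) ndB0q1 ndB3q0 pcB1 Cut.none xt_pm_101)

def k0_pm_101 : ∃ t, chk3 f_pm_101 t 2 1 1 = true :=
  ⟨(l 3), by decide +kernel⟩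

def k1_pm_101 : ∃ t, chk3 f_pm_101 t 6 2 1 = true :=
  ⟨(l 3), by decide +kernel⟩

def k2_pm_101 : ∃ t, chk3 f_pm_101 t 14 4 1 = true :=
  ⟨(l 3), by decide +kernel⟩

def k3_pm_101 : ∃ t, chk3 f_pm_101 t 30 8 1 = true :=
  ⟨(l 3), by decide +kernel⟩

def k4_pm_101 : ∃ t, chk3 f_pm_101 t 62 8 1 = true :=
  ⟨(l 3), by decide +kernel⟩

def k5_pm_101 : ∃ t, chk3 f_pm_101 t 504 8 1 = true :=
  ⟨(l 3), by decide +kernel⟩

def k6_pm_101 : ∃ t, chk3 f_pm_101 t 1010 8 1 = true :=
  ⟨(b (b (l 3) (l 3)) (b (l 3) (l 3))), by decide +kernel⟩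

def k7_pm_101 : ∃ t, chk3 f_pm_101 t 1011 16 2 = true :=
  ⟨(b (b (b (b (a (a (a (a (l 3) (b (c (l 16780624) (l 16778096)) (l 16785328))) (b (l 16774792) (l 16780760))) (a (l 16768192) (l 16769088))) (a (l 16770440) (l 16772232))) (b (a (a (b (l 445770654743) (l 451139359367)) (a (l 16777168) (l 16778072))) (l 16780344)) (c (l 353965737767) (l 364166283751)))) (a (b (b (l 360945062375) (c (l 345375800183) (l 334101505239))) (a (b (c (l 372756210807) (l 368998108567)) (c (l 378124911143) (l 377051173847))) (l 16770488))) (l 16770680))) (b (a (a (a (a (l 3) (b (b (c (l 405505322359) (l 16785080)) (c (c (l 404968442967) (l 405505315703)) (l 406042188231))) (b (c (c (l 404968434151) (l 405505306839)) (c (l 406042179527) (l 406579052551))) (b (c (c (l 392083530551) (l 394231016087)) (l 405505304167)) (c (l 394767880119) (l 392083530775)))))) (b (b (l 16781616) (l 16777072)) (b (c (l 16776656) (l 16778760)) (c (l 16771992) (l 16774040))))) (b (l 16761544) (l 16762824))) (l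 16752848)) (a (b (c (a (b (a (l 7498363011243360198201709615) (l 16767240)) (l 6637606675188725577067046127)) (l 603617097865220023002351)) (a (b (a (b (l 7537049097774939046091265071) (l 409800262423)) (l 16769232)) (a (l 7382305441816408196230620399) (l 604328162232185917940975))) (l 603945104032937077581039))) (b (a (c (l 6617659936714701358872396015) (l 6627331343271610145936310511)) (l 16753808)) (c (l 6201789454767200890469433583) (l 6201789454767187765052850415)))) (b (l 16738616) (l 16745840))))) (b (b (b (a (c (l 6163103828539275746002075887) (l 6163103828539255336320893039)) (l 16729656)) (l 5872961631831587928812322927)) (l 5756904753148181725185490991)) (b (b (b (l 143274439410106415) (l 143271621913133103)) (l 6202386656575396231009394735)) (b (b (l 594067016600308472271407) (l 5399657778727860953654809135)) (b (a (l 6154027710375396938461975087) (l 16429568)) (l 5786512411638225903748305455)))))), by decide +kernel⟩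

def k8_pm_101 : ∃ t, chk3 f_pm_101 t 1011 16 3 = true :=
  ⟨(b (a (a (b (b (a (a (l 3) (b (b (c (l 402284083239) (c (l 16773640) (l 16773664))) (c (l 16781576) (l 16779056))) (b (l 403894714999) (l 439328208695)))) (b (b (l 16774960) (l 16775760)) (b (l 16781824) (b (l 16775912) (l 16778968))))) (c (b (a (l 309942327623) (l 16784904)) (b (l 362555662279) (l 374903694759))) (b (c (l 398526026567) (b (l 457044957895) (l 376514332663))) (b (l 351818248727) (l 371145602967))))) (a (a (l 3) (c (b (b (b (l 16787312) (l 406579063495)) (b (c (l 407115925415) (l 407115927383)) (b (l 406579049655) (l 403357819447)))) (b (b (c (l 404431551607) (l 404968424375)) (l 6937421096162731648164291823)) (b (l 6985777129076097483346650351) (l 390472862791)))) (b (b (b (l 373293080359) (l 375440554663)) (b (c (l 377588029367) (l 377588031511)) (c (a (l 436106949815) (l 16778520)) (a (l 436643822823) (l 16779568))))) (b (b (c (l 382956718999) (a (l 431811974711) (l 16774608))) (c (l 6947092769476720522731164719)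 (l 6947092948179553736794444847))) (b (l 6995448929067472878593254639) (l 7043201825218976473892208751)))))) (c (b (b (l 16777400) (b (l 16780880) (l 16776104))) (b (b (l 16771232) (l 604679803289373023315183)) (l 602422382912159372616943))) (b (b (l 16779616) (b (l 16783008) (l 16778176))) (b (b (l 16773248) (l 605034758873633924289583)) (l 602833111190822603087983)))))) (b (b (b (l 16763624) (b (l 16772720) (b (l 16777296) (l 16780352)))) (b (l 16783992) (l 16775080))) (b (b (l 16765928) (l 16766992)) (b (b (l 16770184) (l 603975368215217462928623)) (l 16732512))))) (b (b (a (b (l 16765448) (l 16777616)) (l 602985729129571416512047)) (l 16775328)) (b (l 16757088) (b (l 16742512) (l 16749464))))) (b (b (a (a (b (c (l 6588645717043608104360837231) (a (l 7391372461267716172655378543) (l 144032071748993135))) (a (l 7391372461267580520368701487) (l 143897175378985007))) (l 143758911805718575)) (l 16703520)) (l 5756904753148049165319667759)) (b (b (b (l 141604280987959343)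 (l 309405039527)) (l 587856368363791341036079)) (b (l 585814404470332236911151) (b (l 289003439111) (l 290077097495)))))), by decide +kernel⟩

def k9_pm_101 : ∃ t, chk3 f_pm_101 t 1011 17 1 = true :=
  ⟨(b (c (b (b (b (l 5370639924472066580065620527) (l 582026769097322454962735)) (b (l 577799294170305166037551) (b (l 312625440615) (l 316383481575)))) (b (b (a (b (l 343763845799) (l 348058763943)) (l 16073232)) (b (l 328194491191) (a (l 356648601543) (l 16013656)))) (b (l 335710544407) (l 337857948631)))) (b (b (b (l 578572039808767854727727) (a (l 319604777415) (l 16094728))) (b (l 303498523271) (l 310477629767))) (b (b (b (l 15940736) (l 15918256)) (b (l 15896680) (l 15876152))) (l 343763298743)))) (b (b (b (c (l 341079101607) (l 348058201191)) (a (c (l 372754421159) (l 381344142439)) (l 15835880))) (a (a (l 3) (b (c (l 15832976) (l 336783815447)) (c (b (l 15812952) (l 15779448)) (b (l 15711768) (l 330341316887))))) (b (c (l 15839624) (l 15735160)) (c (l 15812768) (l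 15712736))))) (a (a (l 3) (b (b (c (b (l 324435716151) (a (l 347521146087) (l 15778104))) (b (a (l 349131778119) (l 15692496)) (c (l 326046285175) (l 324972471703)))) (b (c (c (l 327120121847) (l 324972547319)) (c (l 324435634759) (l 322824971639))) (c (c (l 328193844871) (l 324972528071)) (c (l 322824998087) (l 320677471495))))) (b (b (c (c (l 328730696711) (l 325509383671)) (a (c (l 354500371543) (l 352352839287)) (l 15678800))) (c (c (l 329267549847) (l 326583108471)) (c (l 325509323543) (l 323898665847)))) (b (c (c (l 329804402951) (l 327656834823)) (c (l 327119935111) (l 326046136759))) (c (c (l 330341258247) (l 329267432935)) (c (l 329267409207) (l 328730478327))))))) (b (b (c (l 15788488) (l 15692584)) (c (l 15766520) (l 15674472))) (b (c (l 15746648) (l 15658200)) (c (l 15728656) (l 15643608))))))), by decide +kernel⟩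

def k10_pm_101 : ∃ t, chk3 f_pm_101 t 253 8 1 = true :=
  ⟨(b (b (b (a (a (l 602748371143574664046191) (l 16741088)) (l 16724376)) (a (b (l 16741056) (b (l 16726880) (l 16713208))) (l 595523588043199235712623))) (b (a (b (l 143507673403932719) (l 16643768)) (l 16630256)) (b (b (a (l 588784761273727478194223) (l 16634752)) (l 592585654896525639884847)) (a (b (l 591780625583808886530095) (a (l 590790701914591628612143) (l 16392480))) (l 593540848880263302537263))))) (b (b (b (a (b (a (l 584171779556643553432111) (l 16307680)) (c (l 16292920) (l 16137176))) (l 586168639602622722740783)) (b (a (b (l 16165640) (l 16134936)) (l 16215016)) (a (a (l 16213400) (l 16107024)) (l 16152544)))) (b (b (a (b (l 16052432) (l 16027736)) (l 16096768)) (b (a (l 16004104) (l 16058656)) (a (a (l 15967896) (l 15994088)) (l 16033648)))) (a (l 15989944) (l 15974072)))) (b (b (a (a (l 15844728) (l 15864768)) (l 15894832)) (a (b (l 15809848) (l 15783600)) (l 15830792))) (a (b (a (b (l 15752224)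 (l 15731376)) (l 15756408)) (a (b (l 15712560) (l 15695576)) (l 15716752))) (b (l 15778712) (l 15736136)))))), by decide +kernel⟩

def k11_pm_101 : ∃ t, chk3 f_pm_101 t 127 8 1 = true :=
  ⟨(b (b (b (a (l 16691408) (l 16690776)) (l 587423737264159812724335)) (b (a (l 16619912) (l 16598648)) (b (b (l 583020729261673518178351) (l 16571256)) (l 589164648234807507410991)))) (b (b (b (a (l 590584180823598796038191) (l 16576936)) (a (a (l 16393936) (l 16311688)) (l 585547931272739794477103))) (b (a (b (l 16183864) (l 16127648)) (b (l 16302096) (l 16238840))) (a (l 16045032) (l 16139248)))) (b (a (b (l 15954296) (l 15882096)) (b (l 16032456) (l 15948592))) (a (l 15797856) (l 15852472))))), by decide +kernel⟩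

def k12_pm_101 : ∃ t, chk3 f_pm_101 t 30 9 1 = true :=
  ⟨(l 3), by decide +kernel⟩

def k13_pm_101 : ∃ t, chk3 f_pm_101 t 62 9 1 = true :=
  ⟨(l 3), by decide +kernel⟩

def k14_pm_101 : ∃ t, chk3 f_pm_101 t 126 9 1 = true :=
  ⟨(a (a (l 3) (a (b (l 3) (l 3)) (b (c (b (a (a (l 3) (b (c (b (a (b (l 371680318199) (l 377048997159)) (b (l 15729160) (l 15713960))) (b (l 336246782071) (l 340541725015))) (b (b (b (l 330341175015) (l 331951773703)) (a (l 378659530103) (l 15674744))) (b (a (l 387249440919) (l 15662424)) (l 341078521015)))) (b (b (l 344299728343) (l 349131549479)) (b (l 353426500807) (l 358258326279))))) (b (b (b (l 15712392) (l 15697688)) (b (l 15684424) (l 15672480))) (b (b (l 15661752) (l 15652160)) (l 15639704)))) (b (b (a (l 370069475031) (l 15626384)) (l 323361689655)) (b (l 324435419799) (l 326046026407)))) (b (a (a (l 3) (b (c (b (b (b (l 330878004471) (l 332488592247)) (b (l 334099172535) (l 335709765607))) (b (a (l 388859975559) (l 15624368)) (l 342152188087)))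 (b (b (b (l 330877949703) (l 333562292663)) (a (l 382954396599) (l 15595536))) (a (b (l 390470522791) (l 3)) (b (l 15586064) (l 15577712))))) (b (b (c (l 345910267367) (l 346447065623)) (b (l 348594536423) (l 350742014935))) (b (l 352889494999) (l 356647582119))))) (b (b (b (l 15630528) (l 15618840)) (b (l 15608416) (l 15599160))) (b (b (l 15590992) (l 15583824)) (b (l 15577592) (l 15572232))))) (b (b (b (l 321214155543) (l 321214088679)) (a (l 373827436183) (l 15559688))) (b (l 324435309991) (l 326582794487))))) (b (b (b (l 328193416871) (l 326045942871)) (b (l 322287859751) (l 15595280))) (b (l 313161106327) (l 15638120)))))) (b (b (a (c (b (b (l 15718592) (l 15690160)) (b (l 15667024) (l 15648416))) (b (b (l 15638688) (l 15615952)) (b (l 15597928) (l 15583952)))) (b (b (l 15701248) (l 15672712)) (l 15639656))) (b (a (b (a (l 15600688) (l 15606808)) (l 15594480)) (l 15610128)) (a (b (l 15588224) (l 15584720)) (l 15593888)))) (b (b (a (b (l 15583792) (l 15585296)) (l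 15588752)) (b (l 15590224) (l 15595688))) (b (l 15608176) (l 15632808))))), by decide +kernel⟩

def k15_pm_101 : ∃ t, chk3 f_pm_101 t 127 9 1 = true :=
  ⟨(b (a (b (b (l 15717976) (l 15663792)) (b (l 15628032) (l 15606432))) (b (b (l 15760656) (l 15697192)) (l 15637728))) (b (b (a (l 15596536) (l 15609280)) (l 15600104)) (b (l 15607600) (l 15624760)))), by decide +kernel⟩

def k16_pm_101 : ∃ t, chk3 f_pm_101 t 7 5 1 = true :=
  ⟨(a (l 3) (a (l 3) (a (l 3) (b (b (b (a (b (a (l 306718841383) (l 15666712)) (a (l 295981537367) (l 15710376))) (b (l 15651632) (l 15688488))) (a (a (l 314771882743) (b (l 15762040) (l 15820320))) (b (l 15735832) (l 15790392)))) (a (b (l 15821936) (l 15807264)) (b (l 15884408) (l 15764880)))) (b (a (b (l 15647600) (l 15484632)) (b (l 15608880) (l 15448832))) (b (l 205786453655) (l 204712398471))))))), by decide +kernel⟩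

def k17_pm_101 : ∃ t, chk3 f_pm_101 t 3 3 1 = true :=
  ⟨(a (l 3) (a (l 3) (a (l 3) (a (l 3) (a (b (b (b (l 239071786455) (l 14685736)) (b (l 14400784) (l 14208840))) (a (l 3) (b (b (l 14017256) (b (l 13898504) (l 13829880))) (b (b (l 13770128) (l 4809988193351)) (b (l 3) (l 3)))))) (b (b (b (l 14908856) (l 14634216)) (b (l 14394504) (l 14184768))) (b (b (l 14001808) (b (l 13884624) (l 13816920))) (b (b (l 13758008) (b (l 13719784) (l 13697272))) (b (b (l 13677176) (a (l 13663048) (l 13656008))) (b (a (c (l 13659856) (l 13635776)) (l 13640952)) (a (c (l 103643411527) (l 13622944)) (l 13628448)))))))))))), by decide +kernel⟩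

theorem s18_pm_101 : ∃ t, chk3 f_pm_101 t 63 9 1 = true := ex3_a k14_pm_101 k15_pm_101

theorem s19_pm_101 : ∃ t, chk3 f_pm_101 t 31 9 1 = true := ex3_a k13_pm_101 s18_pm_101

theorem s20_pm_101 : ∃ t, chk3 f_pm_101 t 15 9 1 = true := ex3_a k12_pm_101 s19_pm_101

theorem s21_pm_101 : ∃ t, chk3 f_pm_101 t 1011 16 1 = true := ex3_c k7_pm_101 k8_pm_101

theorem s22_pm_101 : ∃ t, chk3 f_pm_101 t 1011 8 1 = true := ex3_b s21_pm_101 k9_pm_101

theorem s23_pm_101 : ∃ t, chk3 f_pm_101 t 505 8 1 = true := ex3_a k6_pm_101 s22_pm_101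

theorem s24_pm_101 : ∃ t, chk3 f_pm_101 t 252 8 1 = true := ex3_a k5_pm_101 s23_pm_101

theorem s25_pm_101 : ∃ t, chk3 f_pm_101 t 126 8 1 = true := ex3_a s24_pm_101 k10_pm_101

theorem s26_pm_101 : ∃ t, chk3 f_pm_101 t 63 8 1 = true := ex3_a s25_pm_101 k11_pm_101

theorem s27_pm_101 : ∃ t, chk3 f_pm_101 t 31 8 1 = true := ex3_a k4_pm_101 s26_pm_101

theorem s28_pm_101 : ∃ t, chk3 f_pm_101 t 15 8 1 = true := ex3_a k3_pm_101 s27_pm_101

theorem s29_pm_101 : ∃ t, chk3 f_pm_101 t 15 4 1 = true := ex3_b s28_pm_101 s20_pm_101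

theorem s30_pm_101 : ∃ t, chk3 f_pm_101 t 7 4 1 = true := ex3_a k2_pm_101 s29_pm_101

theorem s31_pm_101 : ∃ t, chk3 f_pm_101 t 7 2 1 = true := ex3_b s30_pm_101 k16_pm_101

theorem s32_pm_101 : ∃ t, chk3 f_pm_101 t 3 2 1 = true := ex3_a k1_pm_101 s31_pm_101

theorem s33_pm_101 : ∃ t, chk3 f_pm_101 t 3 1 1 = true := ex3_b s32_pm_101 k17_pm_101

theorem s34_pm_101 : ∃ t, chk3 f_pm_101 t 1 1 1 = true := ex3_a k0_pm_101 s33_pm_101

theorem c_pm_101 : CertB 536870912 536870912 0 536870912 1033476505 6710887 3 eng mog cd0q1 cd3q0 pd1 true true false .npn 1 0 1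
    ndB0q1 ndB3q0 pcB1 Cut.none xt_pm_101 :=
  certB2 (fam := true) (s1 := true) (s2 := false) (a := 1) (b := 0) (c := 1) (cn := .npn) (n1 := ndB0q1) (n2 := ndB3q0) (pc := pcB1) (cut := Cut.none) (xt := xt_pm_101) (P1 := 536870912) (W1 := 536870912) (P2 := 0) (W2 := 536870912) (P3 := 1033476505) (W3 := 6710887) (N0 := 3) (En := eng) (mo := mog) (C1 := cd0q1) (C2 := cd3q0) (C3 := pd1)
    rfl (fun _ => rfl) s34_pm_101

noncomputable def xt_pm_102 : Ext := extD3 3 ⟨4, 1, 1, 5, 27, 5, 41, 50, 81, 200, 1, 64⟩ eng cd0q1 cd3q0 pd2 true true false .npp 1 0 2 rfl ndB0q1 ndB3q0 pcB2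

noncomputable def f_pm_102 : ℕ → ℕ → ℕ → ℕ → Bool := onCell 536870912 536870912 1073741824 536870912 1033476505 6710887
    (rowB 3 eng mog cd0q1 cd3q0 pd2 1 true true false .npp 1 0 2 (qsf 536870912 536870912 0 536870912 2) ndB0q1 ndB3q0 pcB2 Cut.none xt_pm_102)

def k0_pm_102 : ∃ t, chk3 f_pm_102 t 2 8 1 = true :=
  ⟨(a (b (a (a (b (a (b (a (b (l 13618680) (l 13607408)) (l 13623896)) (a (l 13591512) (l 13600184))) (b (a (l 13637320) (l 13653216)) (a (l 13611384) (l 13625064)))) (a (b (a (l 2) (l 13578624)) (l 2)) (b (a (l 13587496) (l 13598848)) (l 91362358407)))) (b (a (b (l 13681656) (l 13650184)) (b (l 13727736) (l 13691856))) (a (b (l 13620496) (l 13592840)) (b (l 13657560) (l 13625128))))) (b (a (a (b (l 13782880) (l 13742624)) (b (l 13846696) (l 13802096))) (a (l 13894304) (l 13972112))) (a (a (b (l 13703744) (l 13666552)) (l 13737544)) (a (l 13798440) (l 13867256))))) (a (a (b (a (l 2) (b (l 96194162711) (l 2))) (l 2)) (b (a (b (l 13567368) (l 13544216)) (b (l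 13594752) (l 13566608))) (a (b (l 13523480) (l 2)) (b (l 13540800) (l 13517424))))) (a (b (a (b (l 13631288) (l 13598152)) (l 13657352)) (a (b (l 13567288) (l 13538792)) (l 13585552))) (b (a (l 13708568) (l 13767752)) (a (l 13626720) (l 13675792)))))) (a (b (a (b (l 14081760) (l 13963560)) (b (l 14299752) (l 14164080))) (a (b (a (l 13834488) (l 13908328)) (a (l 13733008) (l 13797992))) (b (l 14031392) (l 13888608)))) (b (a (b (l 14527648) (l 14374928)) (b (a (l 14721696) (l 14860480)) (l 14621176))) (a (b (l 14223616) (l 14089096)) (b (l 14454408) (l 14308672)))))), by decide +kernel⟩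

def k1_pm_102 : ∃ t, chk3 f_pm_102 t 2 9 1 = true :=
  ⟨(a (a (b (a (l 2) (b (a (l 2) (b (l 13496552) (l 2))) (l 2))) (l 2)) (b (a (b (a (b (l 13512760) (l 13489776)) (b (l 13537896) (l 13510712))) (a (l 13461304) (l 13475488))) (b (a (b (l 13572112) (l 13540904)) (l 13597360)) (a (l 13498864) (l 13531064)))) (a (a (l 2) (l 142901845447)) (a (l 13429664) (l 13447960))))) (a (b (a (a (l 13608416) (l 13661528)) (l 13755296)) (a (a (l 13474864) (l 13510000)) (a (l 13552984) (l 13603816)))) (a (b (l 13912120) (l 13699848)) (b (l 14109360) (l 13864080))))), by decide +kernel⟩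

def k2_pm_102 : ∃ t, chk3 f_pm_102 t 2 5 1 = true :=
  ⟨(a (a (l 2) (b (a (l 2) (b (l 155786744455) (l 2))) (l 2))) (a (b (a (b (a (l 13375968) (l 13392152)) (l 13311216)) (b (l 13431384) (l 13320000))) (a (l 2) (b (l 13245416) (l 2)))) (b (a (a (l 13396504) (l 13461992)) (l 13548456)) (a (b (l 13251744) (l 13173760)) (l 13216976))))), by decide +kernel⟩

def k3_pm_102 : ∃ t, chk3 f_pm_102 t 2 3 1 = true :=
  ⟨(a (l 2) (b (a (l 2) (b (a (l 2) (l 13073720)) (l 2))) (l 2))), by decide +kernel⟩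

def k4_pm_102 : ∃ t, chk3 f_pm_102 t 6 2 1 = true :=
  ⟨(b (b (a (b (a (b (a (l 15005344) (l 15154920)) (l 14915832)) (b (a (l 15307560) (l 15461136)) (a (l 15111744) (l 15258168)))) (a (b (b (l 14756216) (l 14674400)) (l 14560496)) (b (a (l 14926840) (l 15072152)) (l 14834864)))) (b (a (b (a (l 15591272) (l 15752336)) (a (l 15405896) (l 15445920))) (b (a (b (l 15723656) (l 15771424)) (b (l 15641608) (l 15699304))) (a (b (l 15731040) (l 15637320)) (b (l 15732392) (l 15741648))))) (a (b (l 15293112) (l 15120264)) (a (l 15379640) (l 15541160))))) (a (a (b (l 14339928) (l 14063160)) (b (l 14594816) (l 14288376))) (a (b (l 14863152) (l 14529272)) (b (l 14892040) (l 14764232))))) (a (b (a (l 13694560) (l 13868664)) (a (l 13304504) (l 13400392))) (b (a (l 13955848) (b (l 14416544) (l 14085392))) (a (l 13515944) (b (l 13775424) (l 13490672)))))), by decide +kernel⟩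

def k5_pm_102 : ∃ t, chk3 f_pm_102 t 14 4 1 = true :=
  ⟨(b (b (a (b (a (b (l 15601152) (l 15668496)) (b (l 15599920) (l 15676056))) (b (a (l 15711440) (l 15729672)) (l 15766320))) (b (a (b (l 15639296) (l 15721368)) (b (a (l 15700168) (l 15761408)) (l 15808024))) (a (b (l 15784936) (l 15846384)) (b (l 15877632) (l 15936456))))) (a (a (l 15628048) (l 15692560)) (a (l 15743888) (l 15788912)))) (a (b (l 15290320) (l 14909448)) (b (a (l 15357928) (l 15392840)) (a (l 14960920) (l 14985920))))), by decide +kernel⟩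

def k6_pm_102 : ∃ t, chk3 f_pm_102 t 30 8 1 = true :=
  ⟨(b (a (b (a (b (l 15845304) (l 15909120)) (b (l 15962784) (l 16001040))) (a (l 16000848) (l 16071344))) (b (a (b (b (a (l 16098352) (b (l 571057435688766403174959) (l 572888274806978419141167))) (l 16130384)) (l 16126816)) (b (b (a (b (l 16374208) (l 579523627698519439403055)) (l 16494472)) (a (l 576612788770154192529455) (b (l 16423904) (l 16396376)))) (b (a (l 16260240) (l 575565360442693503871023)) (l 16288688)))) (a (l 16158320) (l 16260520)))) (a (a (l 15828016) (l 15862960)) (a (l 15927120) (l 16005944)))), by decide +kernel⟩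

def k7_pm_102 : ∃ t, chk3 f_pm_102 t 31 8 1 = true :=
  ⟨(b (a (b (b (a (b (a (l 16444352) (b (l 16473336) (l 16465304))) (l 584268476754842090874927)) (b (a (b (a (l 16469672) (l 16482208)) (l 585234913858089159863535)) (l 16488896)) (a (l 16413712) (l 575605712080521727585903)))) (a (b (a (b (l 16463032) (l 16445288)) (l 16436848)) (a (l 574196266017984286730287) (b (l 16431480) (l 16436312)))) (b (a (l 16416264) (l 16398320)) (l 581080648474439996190319)))) (b (a (b (a (l 16394512) (l 16381024)) (l 16367056)) (a (b (b (l 16420456) (l 16426512)) (l 16426512)) (b (l 16414208) (a (l 16429160) (l 16416832))))) (a (l 16318024) (a (l 16365976) (b (l 16411144) (l 16372488)))))) (b (b (a (b (l 16529480) (l 16467952)) (b (l 16520152) (l 16498944))) (a (b (a (l 573593575411327623130735) (l 16426160)) (a (l 16389680) (l 572331414796950432280175))) (b (l 16464848) (l 16421392)))) (a (b (a (l 579085517760415175159407) (b (l 16374896) (l 16377664))) (a (b (a (l 16412536) (l 16400000))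 (l 16372680)) (b (l 16382168) (a (l 16395120) (l 16382816))))) (b (a (b (l 571275914916971800014447) (l 16359400)) (b (l 16393240) (a (l 16352592) (l 16358176)))) (a (b (l 16361600) (l 16365560)) (b (l 16344512) (l 16346184))))))) (a (b (l 16205720) (l 16005496)) (b (a (b (a (l 16330296) (b (l 16354840) (l 16336104))) (l 16247376)) (b (a (b (b (l 16370104) (l 16373496)) (l 16316232)) (b (l 16349624) (a (l 16360968) (l 16349848)))) (a (l 16293344) (b (l 16299256) (l 16300504))))) (l 16126944)))), by decide +kernel⟩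

def k8_pm_102 : ∃ t, chk3 f_pm_102 t 15 9 1 = true :=
  ⟨(a (a (b (a (l 15425544) (l 15457080)) (l 15021152)) (b (a (l 15518520) (l 15595120)) (l 15047376))) (b (a (l 15693224) (b (l 15919432) (l 15705688))) (a (l 15262536) (l 15376624)))), by decide +kernel⟩

def k9_pm_102 : ∃ t, chk3 f_pm_102 t 7 5 1 = true :=
  ⟨(a (a (b (b (l 14534360) (l 14171784)) (b (l 13826976) (l 13504448))) (b (a (l 14373568) (b (l 14579648) (l 14181032))) (a (l 13636232) (l 13611080)))) (a (b (a (b (l 14603520) (l 14191376)) (b (l 14702800) (l 14277368))) (a (b (l 13790904) (l 13407600)) (b (l 13861576) (l 13461280)))) (b (b (a (l 14824016) (l 14928792)) (a (l 14385912) (l 14478680))) (b (a (l 13955352) (l 14034080)) (a (l 13538640) (l 13601784)))))), by decide +kernel⟩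

def k10_pm_102 : ∃ t, chk3 f_pm_102 t 3 3 1 = true :=
  ⟨(a (a (b (b (a (l 13052704) (l 13061280)) (l 318993754791)) (l 2)) (b (b (a (l 13090184) (l 13119872)) (a (l 12807560) (l 12743672))) (a (l 2) (b (l 12524960) (l 2))))) (a (b (a (b (b (l 13208264) (l 12942112)) (l 12607760)) (b (a (l 12987944) (l 12926048)) (a (l 12460936) (l 12358784)))) (a (b (l 12294992) (l 2)) (b (l 12005600) (l 11777856)))) (b (a (b (a (a (l 12887888) (l 12873168)) (a (l 12888336) (l 12919448))) (a (l 12269584) (b (l 12403528) (l 12113232)))) (b (a (b (l 13141376) (l 12768648)) (b (l 13187872) (l 12797808))) (a (b (l 12425104) (l 12115000)) (b (l 12436576) (l 12108744))))) (a (b (a (l 11807384) (l 11750424)) (a (l 11516216) (l 11416376))) (b (b (l 11828944) (l 11588344)) (l 11313784)))))), by decide +kernel⟩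

theorem s11_pm_102 : ∃ t, chk3 f_pm_102 t 15 8 1 = true := ex3_a k6_pm_102 k7_pm_102

theorem s12_pm_102 : ∃ t, chk3 f_pm_102 t 15 4 1 = true := ex3_b s11_pm_102 k8_pm_102

theorem s13_pm_102 : ∃ t, chk3 f_pm_102 t 7 4 1 = true := ex3_a k5_pm_102 s12_pm_102

theorem s14_pm_102 : ∃ t, chk3 f_pm_102 t 7 2 1 = true := ex3_b s13_pm_102 k9_pm_102

theorem s15_pm_102 : ∃ t, chk3 f_pm_102 t 3 2 1 = true := ex3_a k4_pm_102 s14_pm_102

theorem s16_pm_102 : ∃ t, chk3 f_pm_102 t 3 1 1 = true := ex3_b s15_pm_102 k10_pm_102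

theorem s17_pm_102 : ∃ t, chk3 f_pm_102 t 2 4 1 = true := ex3_b k0_pm_102 k1_pm_102

theorem s18_pm_102 : ∃ t, chk3 f_pm_102 t 2 2 1 = true := ex3_b s17_pm_102 k2_pm_102

theorem s19_pm_102 : ∃ t, chk3 f_pm_102 t 2 1 1 = true := ex3_b s18_pm_102 k3_pm_102

theorem s20_pm_102 : ∃ t, chk3 f_pm_102 t 1 1 1 = true := ex3_a s19_pm_102 s16_pm_102

theorem c_pm_102 : CertB 536870912 536870912 0 536870912 1033476505 6710887 3 eng mog cd0q1 cd3q0 pd2 true true false .npp 1 0 2
    ndB0q1 ndB3q0 pcB2 Cut.none xt_pm_102 :=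
  certB1 (fam := true) (s1 := true) (s2 := false) (a := 1) (b := 0) (c := 2) (cn := .npp) (n1 := ndB0q1) (n2 := ndB3q0) (pc := pcB2) (cut := Cut.none) (xt := xt_pm_102) (P1 := 536870912) (W1 := 536870912) (P2 := 0) (W2 := 536870912) (P3 := 1033476505) (W3 := 6710887) (N0 := 3) (En := eng) (mo := mog) (C1 := cd0q1) (C2 := cd3q0) (C3 := pd2)
    rfl (fun _ => rfl) s20_pm_102

noncomputable def f_pm_112 : ℕ → ℕ → ℕ → ℕ → Bool := onCell 536870912 536870912 1073741824 536870912 1033476505 6710887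
    (rowB 3 eng mog cd0q1 cd3q1 pd2 1 true true false .dn 1 1 2 (qsf 536870912 536870912 536870912 536870912 2) ndB0q1 ndB3q1 pcB2 Cut.none Ext.none)

def k0_pm_112 : ∃ t, chk3 f_pm_112 t 1 1 1 = true :=
  ⟨(b (b (a (b (a (b (a (l 16186120) (l 1)) (a (l 16151344) (l 16045072))) (l 1)) (a (b (a (a (l 16077840) (l 16091504)) (b (l 16041232) (l 16054080))) (a (a (l 16004344) (l 16025936)) (l 16045472))) (a (b (l 1) (l 15979976)) (l 1)))) (l 1)) (a (a (a (b (l 15834760) (l 15716688)) (b (l 15949912) (l 15795088))) (a (b (l 15961952) (l 15829280)) (l 125659102727))) (a (a (l 200283954519) (l 1)) (l 1)))) (a (a (b (a (b (l 15518040) (l 15310680)) (b (l 15618800) (l 15430880))) (a (b (l 14998944) (a (l 14859776) (l 14950192))) (b (l 15241160) (l 15017840)))) (b (a (b (l 15670216) (l 15495640)) (b (l 15678344) (l 15509864))) (a (b (l 15316184) (l 15142640)) (b (l 15332616) (l 15155392))))) (a (a (b (l 15539416) (b (l 15232248) (l 15001728))) (b (a (l 15472832) (l 15424352)) (a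 (l 15029552) (l 14990312)))) (a (b (a (l 486435040807) (l 1)) (a (l 14828200) (l 14520704))) (b (l 1) (a (a (l 14251720) (l 14127144)) (l 413954860183))))))), by decide +kernel⟩

theorem c_pm_112 : CertB 536870912 536870912 536870912 536870912 1033476505 6710887 3 eng mog cd0q1 cd3q1 pd2 true true false .dn 1 1 2
    ndB0q1 ndB3q1 pcB2 Cut.none Ext.none :=
  certB1 (fam := true) (s1 := true) (s2 := false) (a := 1) (b := 1) (c := 2) (cn := .dn) (n1 := ndB0q1) (n2 := ndB3q1) (pc := pcB2) (cut := Cut.none) (xt := Ext.none) (P1 := 536870912) (W1 := 536870912) (P2 := 536870912) (W2 := 536870912) (P3 := 1033476505) (W3 := 6710887) (N0 := 3) (En := eng) (mo := mog) (C1 := cd0q1) (C2 := cd3q1) (C3 := pd2)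
    rfl (fun _ => rfl) k0_pm_112

noncomputable def f_pm_113 : ℕ → ℕ → ℕ → ℕ → Bool := onCell 536870912 536870912 1610612736 536870912 1033476505 6710887
    (rowB 3 eng mog cd0q1 cd3q1 pd3 1 true true false .nn 1 1 3 (qsf 536870912 536870912 536870912 536870912 3) ndB0q1 ndB3q1 pcB3 Cut.none Ext.none)

def k0_pm_113 : ∃ t, chk3 f_pm_113 t 2 1 1 = true :=
  ⟨(b (b (a (a (b (b (l 14660712) (l 14459152)) (a (l 2) (l 14354440))) (b (a (l 14919712) (l 14977704)) (a (l 14454056) (l 14830448)))) (a (b (l 14748208) (a (l 14835040) (l 14744368))) (b (l 14820568) (a (l 14655712) (l 14563232))))) (a (b (a (l 2) (a (l 2) (l 14462648))) (l 2)) (b (a (a (l 14587416) (l 14572544)) (a (l 14490448) (l 14400784))) (a (b (l 14248472) (l 2)) (b (a (b (l 14410888) (l 14398608)) (b (l 14335328) (l 14411536))) (a (b (l 14425240) (l 2)) (l 14339808))))))) (a (l 2) (b (b (a (l 2) (b (a (l 2) (l 13900328)) (l 2))) (l 2)) (l 2)))), by decide +kernel⟩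

def k1_pm_113 : ∃ t, chk3 f_pm_113 t 3 1 1 = true :=
  ⟨(b (a (b (b (a (l 14617672) (l 14379040)) (a (l 14364256) (a (l 14310304) (b (l 14305480) (l 14262224))))) (b (a (b (a (l 14345840) (l 14277864)) (a (b (l 14299600) (l 14312720)) (b (l 14285200) (l 14390408)))) (b (a (l 14272072) (l 14388160)) (a (l 14473448) (l 14561120)))) (a (b (a (l 14245976) (l 14514008)) (a (l 14330480) (l 14333112))) (b (a (l 14514584) (l 14561848)) (a (l 14388128) (l 14486208)))))) (a (b (b (a (l 14387320) (l 14092336)) (a (b (l 14273384) (l 14306416)) (b (l 14052256) (l 14233304)))) (b (a (l 14522344) (l 14485824)) (b (a (l 14603544) (l 14609936)) (a (l 14557728) (l 14557536))))) (b (b (a (b (l 13779112) (a (l 13792856) (l 13718168))) (b (l 13565016) (l 13728120))) (a (a (l 14069032) (l 14098136)) (l 14189816))) (b (a (b (l 14415760) (l 14581128)) (b (l 14571088) (l 14720416))) (a (b (l 14376624) (l 4)) (l 4)))))) (b (a (b (a (b (a (l 13989912) (l 14071072)) (b (l 364629509207) (l 347449360839)))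 (b (a (l 14189744) (l 14333944)) (a (l 4) (l 4)))) (a (l 4) (l 4))) (a (b (l 4) (l 4)) (l 4))) (l 4))), by decide +kernel⟩

theorem s2_pm_113 : ∃ t, chk3 f_pm_113 t 1 1 1 = true := ex3_a k0_pm_113 k1_pm_113

theorem c_pm_113 : CertB 536870912 536870912 536870912 536870912 1033476505 6710887 3 eng mog cd0q1 cd3q1 pd3 true true false .nn 1 1 3
    ndB0q1 ndB3q1 pcB3 Cut.none Ext.none :=
  certB1 (fam := true) (s1 := true) (s2 := false) (a := 1) (b := 1) (c := 3) (cn := .nn) (n1 := ndB0q1) (n2 := ndB3q1) (pc := pcB3) (cut := Cut.none) (xt := Ext.none) (P1 := 536870912) (W1 := 536870912) (P2 := 536870912) (W2 := 536870912) (P3 := 1033476505) (W3 := 6710887) (N0 := 3) (En := eng) (mo := mog) (C1 := cd0q1) (C2 := cd3q1) (C3 := pd3)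
    rfl (fun _ => rfl) s2_pm_113

noncomputable def xt_pm_123 : Ext := extD3 3 ⟨4, 1, 1, 5, 27, 5, 41, 50, 81, 200, 1, 64⟩ eng cd0q1 cd3q2 pd3 true true false .npn 1 2 3 rfl ndB0q1 ndB3q2 pcB3

noncomputable def f_pm_123 : ℕ → ℕ → ℕ → ℕ → Bool := onCell 536870912 536870912 1610612736 536870912 1033476505 6710887
    (rowB 3 eng mog cd0q1 cd3q2 pd3 1 true true false .npn 1 2 3 (qsf 536870912 536870912 1073741824 536870912 3) ndB0q1 ndB3q2 pcB3 Cut.none xt_pm_123)

def k0_pm_123 : ∃ t, chk3 f_pm_123 t 2 1 1 = true :=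
  ⟨(b (a (b (a (b (a (l 463887399063) (l 454760505255)) (a (l 15532296) (l 15501080))) (b (a (l 447781121559) (l 1)) (a (l 453686882439) (l 444559988599)))) (b (a (l 15603368) (a (l 15566120) (l 15531192))) (a (l 15684992) (l 15547184)))) (b (a (b (l 1) (a (l 437580600503) (l 1))) (l 1)) (a (b (a (l 426843099351) (l 432748859047)) (a (l 15608560) (l 15565024))) (b (a (l 426306333559) (l 1)) (a (l 409126339607) (l 417179653959)))))) (a (b (b (a (l 15764352) (l 15745056)) (a (l 15923456) (l 15884832))) (b (b (a (b (l 16067088) (l 16136176)) (l 16039632)) (a (l 16150056) (l 16060136))) (b (b (l 15972632) (l 16131848)) (l 4)))) (b (a (b (a (l 15727352) (l 15697488)) (l 15839792)) (b (a (l 15657272) (b (l 15571040) (l 15650032))) (b (l 15745600) (l 15819096)))) (b (a (b (l 15976112) (b (l 16052792) (l 16092056))) (l 15949000)) (b (b (a (l 16075384) (l 15964240)) (a (l 16098104) (b (l 16010552) (l 16010744)))) (b (a (l 15952848) (b (l 16016752) (l 16003344))) (l 4))))))), by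 decide +kernel⟩

def k1_pm_123 : ∃ t, chk3 f_pm_123 t 3 2 1 = true :=
  ⟨(a (a (b (l 1) (b (l 1) (a (l 421474555543) (l 1)))) (l 1)) (l 1)), by decide +kernel⟩

def k2_pm_123 : ∃ t, chk3 f_pm_123 t 6 3 1 = true :=
  ⟨(b (a (b (a (l 386040906343) (b (l 443486334391) (l 420401074567))) (a (b (l 15678928) (l 15759648)) (b (l 15616952) (l 15705896)))) (a (b (b (l 1) (a (l 466034946615) (l 1))) (b (l 403220796759) (l 15635336))) (b (l 1) (b (a (l 489120497847) (l 1)) (a (l 386041410759) (b (l 544955025479) (l 15534816))))))) (a (b (a (l 15877144) (b (l 15783160) (l 15866848))) (b (b (l 15929136) (b (l 15931856) (l 15937552))) (b (b (a (l 15932976) (l 15896176)) (l 15905440)) (b (b (l 15904848) (l 15908808)) (l 4))))) (b (a (b (l 15732432) (l 15816360)) (b (a (l 15677952) (l 15627912)) (a (l 15781544) (b (l 15730224) (l 15794136))))) (a (b (b (l 15869856) (b (l 15877552) (l 15887424))) (b (b (l 15883200) (l 15865992)) (b (b (l 15845800) (l 15855368)) (b (l 15880344) (l 4)))))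 (b (b (l 15849280) (b (l 15873976) (l 15881736))) (b (b (l 15889528) (l 15887784)) (b (b (l 15807480) (b (l 15854800) (l 15856104))) (b (b (l 15867648) (l 15887504)) (l 4))))))))), by decide +kernel⟩

def k3_pm_123 : ∃ t, chk3 f_pm_123 t 7 6 1 = true :=
  ⟨(a (a (b (l 1) (a (b (l 1) (b (l 1) (l 586830910535))) (l 1))) (l 1)) (l 1)), by decide +kernel⟩

def k4_pm_123 : ∃ t, chk3 f_pm_123 t 14 7 1 = true :=
  ⟨(b (a (b (a (b (l 404294950791) (l 15596144)) (b (l 633538588615) (l 410200698759))) (a (b (l 15688512) (l 15780016)) (b (l 15620464) (l 15748728)))) (a (b (l 717827314343) (b (l 432212467895) (l 15691520))) (b (l 1) (b (l 496099840247) (l 466572514983))))) (a (b (b (a (l 15864088) (l 15875352)) (b (a (l 15921632) (l 15964928)) (l 15989528))) (b (b (l 16024808) (l 16022896)) (b (b (l 16017544) (a (l 15949456) (l 16066896))) (b (b (l 16002816) (l 16009376)) (b (l 16034536) (b (l 16053096) (l 4))))))) (b (b (a (l 15865480) (a (l 15846480) (l 15836640))) (b (a (l 15995272)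 (b (l 15980816) (l 16037256))) (a (l 16079216) (l 16121152)))) (b (b (a (l 16162176) (l 16233104)) (a (l 16215064) (l 16344032))) (b (a (l 16205392) (l 16356384)) (b (l 16145240) (b (a (l 16198200) (l 16336848)) (b (a (l 16213096) (l 16343544)) (a (l 4) (b (l 16352016) (b (l 16358040) (l 4)))))))))))), by decide +kernel⟩

def k5_pm_123 : ∃ t, chk3 f_pm_123 t 15 7 1 = true :=
  ⟨(b (a (a (b (l 1) (a (l 533681051255) (l 1))) (l 1)) (l 1)) (a (b (b (a (a (l 15855504) (l 512207228567)) (a (l 643203534759) (l 1))) (a (a (b (l 16030472) (l 16157304)) (l 16140664)) (a (l 16249136) (l 16470480)))) (a (b (b (a (l 16284440) (l 16335728)) (a (l 16411304) (l 16465288))) (b (a (l 16465888) (l 16521840)) (b (l 16461096) (b (l 16474440) (b (l 16474760) (b (l 16388696) (b (l 16476104) (b (l 16480696) (a (l 4) (l 16508632)))))))))) (b (a (b (l 16421664) (l 16537072)) (l 16541752)) (b (a (l 16536424) (l 16534760)) (b (a (l 16533072) (l 16533376)) (b (l 16511744) (b (l 16532848) (b (l 16532928)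 (b (l 16532904) (b (l 16512040) (a (b (l 16524520) (l 16529424)) (l 141719523544498191)))))))))))) (b (a (a (a (l 549252041239) (l 1)) (l 1)) (l 1)) (a (b (b (a (l 16556312) (l 535830339783)) (a (l 16549960) (l 500933668311))) (b (l 141295180809224207) (b (l 142276220070215695) (b (l 16563864) (b (l 16567088) (b (l 16573536) (b (l 16572552) (b (l 16570352) (a (l 142047659082678287) (l 142485745745363023)))))))))) (b (b (l 1) (a (l 559989504023) (l 1))) (b (b (l 543346497719) (l 528850967591)) (b (l 445636004663) (b (l 16632328) (b (a (l 16596800) (b (l 16649144) (l 16644280))) (b (a (l 16615736) (l 16639584)) (b (l 5694287388887) (b (l 5982587078343) (l 4))))))))))))), by decide +kernel⟩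

theorem s6_pm_123 : ∃ t, chk3 f_pm_123 t 7 7 1 = true := ex3_a k4_pm_123 k5_pm_123

theorem s7_pm_123 : ∃ t, chk3 f_pm_123 t 7 3 1 = true := ex3_b k3_pm_123 s6_pm_123

theorem s8_pm_123 : ∃ t, chk3 f_pm_123 t 3 3 1 = true := ex3_a k2_pm_123 s7_pm_123

theorem s9_pm_123 : ∃ t, chk3 f_pm_123 t 3 1 1 = true := ex3_b k1_pm_123 s8_pm_123

theorem s10_pm_123 : ∃ t, chk3 f_pm_123 t 1 1 1 = true := ex3_a k0_pm_123 s9_pm_123

theorem c_pm_123 : CertB 536870912 536870912 1073741824 536870912 1033476505 6710887 3 eng mog cd0q1 cd3q2 pd3 true true false .npn 1 2 3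
    ndB0q1 ndB3q2 pcB3 Cut.none xt_pm_123 :=
  certB1 (fam := true) (s1 := true) (s2 := false) (a := 1) (b := 2) (c := 3) (cn := .npn) (n1 := ndB0q1) (n2 := ndB3q2) (pc := pcB3) (cut := Cut.none) (xt := xt_pm_123) (P1 := 536870912) (W1 := 536870912) (P2 := 1073741824) (W2 := 536870912) (P3 := 1033476505) (W3 := 6710887) (N0 := 3) (En := eng) (mo := mog) (C1 := cd0q1) (C2 := cd3q2) (C3 := pd3)
    rfl (fun _ => rfl) s10_pm_123

noncomputable def f_pm_133 : ℕ → ℕ → ℕ → ℕ → Bool := onCell 536870912 536870912 0 1230186008 1033476505 6710887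
    (rowB 3 eng mog cd0q1 cd3q3 pd3 0 true true false .dn 1 3 3 (qsf 536870912 536870912 0 1230186008 3) ndB0q1 ndB3q3 pcB3 Cut.none Ext.none)

def k0_pm_133 : ∃ t, chk3 f_pm_133 t 1 1 1 = true :=
  ⟨(b (l 2) (b (l 2) (a (l 4) (l 2)))), by decide +kernel⟩

theorem c_pm_133 : CertB 536870912 536870912 0 1230186008 1033476505 6710887 3 eng mog cd0q1 cd3q3 pd3 true true false .dn 1 3 3
    ndB0q1 ndB3q3 pcB3 Cut.none Ext.none :=
  certB0 (fam := true) (s1 := true) (s2 := false) (a := 1) (b := 3) (c := 3) (cn := .dn) (n1 := ndB0q1) (n2 := ndB3q3) (pc := pcB3) (cut := Cut.none) (xt := Ext.none) (P1 := 536870912) (W1 := 536870912) (P2 := 0) (W2 := 1230186008) (P3 := 1033476505) (W3 := 6710887) (N0 := 3) (En := eng) (mo := mog) (C1 := cd0q1) (C2 := cd3q3) (C3 := pd3)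
    rfl k0_pm_133

noncomputable def f_pm_202 : ℕ → ℕ → ℕ → ℕ → Bool := onCell 0 536870912 0 536870912 1033476505 6710887
    (rowB 3 eng mog cd0q2 cd3q0 pd2 0 true true false .pp 2 0 2 (qsf 0 536870912 0 536870912 2) ndB0q2 ndB3q0 pcB2 Cut.none Ext.none)

def k0_pm_202 : ∃ t, chk3 f_pm_202 t 2 1 1 = true :=
  ⟨(b (a (b (b (b (b (a (l 16386936) (l 16321984)) (b (l 16378888) (a (l 16311576) (l 16404928)))) (b (b (a (l 16261200) (l 16359368)) (a (l 16202712) (l 16305488))) (a (l 16037568) (l 16140680)))) (b (a (b (l 15684272) (a (l 15704392) (l 15627312))) (l 15797000)) (a (b (l 15578304) (l 15550144)) (a (b (l 15446496) (l 15308248)) (l 15384352))))) (b (b (a (l 15564904) (b (a (l 15273160) (a (l 15136184) (l 15087344))) (l 15165824))) (a (l 15662672) (l 15025920))) (b (a (l 15788688) (l 15283160)) (a (l 15714144) (l 15393056))))) (b (b (b (b (a (l 16249608) (l 16172592)) (b (a (l 16430448) (l 16344328)) (a (l 16523064) (l 16431360)))) (b (b (a (l 16482712) (l 16463408))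 (a (l 16433688) (l 16507848))) (a (l 16273584) (l 16429752)))) (b (a (l 15937872) (l 16016360)) (a (l 15487568) (l 15655384)))) (b (a (b (a (b (l 15113584) (a (l 14932312) (l 14922240))) (l 15083472)) (a (b (l 14841736) (l 14846728)) (b (l 14778320) (a (l 14669640) (l 14604992))))) (b (l 15211672) (a (l 14732616) (l 14817336)))) (a (b (a (l 14888192) (l 14624552)) (l 14836656)) (b (a (b (a (l 14458320) (l 14446944)) (l 14290752)) (b (l 14498944) (l 14307456))) (a (l 14406808) (b (a (l 14161320) (l 14132728)) (l 14121064)))))))) (b (b (a (b (a (l 15395896) (l 15312624)) (a (l 4) (l 15049552))) (a (b (l 14945304) (l 14888424)) (b (l 14314248) (l 14440680)))) (a (l 4) (a (b (l 14698600) (l 14469024)) (b (l 14414344) (a (l 14402832) (l 14245912)))))) (b (a (l 2) (a (l 2) (b (a (l 2) (l 14161080)) (l 2)))) (l 2)))), by decide +kernel⟩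

def k1_pm_202 : ∃ t, chk3 f_pm_202 t 6 2 1 = true :=
  ⟨(b (b (a (a (b (b (l 16130688) (b (l 16294592) (l 16376632))) (b (b (l 16403832) (l 16443600)) (l 16543128))) (b (b (l 16119936) (b (l 16277840) (l 16356024))) (b (b (l 16379480) (l 16394648)) (l 16596648)))) (a (b (b (l 16159736) (b (l 16310000) (l 16383240))) (b (b (l 16401872) (l 16391368)) (l 16607504))) (b (b (l 16132376) (b (l 16419416) (l 16444192))) (b (b (l 16498368) (b (l 16502720) (l 16543616))) (l 16552960))))) (a (b (a (l 16217424) (l 16222064)) (a (l 15775344) (l 15844024))) (b (a (l 16243616) (l 16127072)) (a (l 15866224) (l 15812800))))) (b (a (a (b (l 15331736) (l 14893728)) (b (l 15399752) (l 14959288))) (b (a (l 15421160) (l 15366960)) (a (l 14978608) (l 14922976)))) (a (b (a (l 14467776) (l 14529096)) (a (b (l 14159608) (l 13989024)) (l 14115096))) (b (a (l 14545064) (l 14487528)) (a (l 14126480) (l 14066648)))))), by decide +kernel⟩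

def k2_pm_202 : ∃ t, chk3 f_pm_202 t 7 2 1 = true :=
  ⟨(b (a (b (a (b (b (a (l 16408424) (l 16444512)) (b (l 16438960) (a (l 16601032) (l 16619040)))) (b (b (l 16534560) (a (l 16606424) (l 16518832))) (l 16340320))) (b (b (a (l 16485440) (b (l 16590944) (l 16589832))) (b (a (l 16585840) (l 16545640)) (a (l 16527400) (b (l 16491464) (l 16486728))))) (b (b (a (l 16537912) (l 16480760)) (a (l 16389776) (b (l 16478864) (l 16443096)))) (a (l 16368880) (l 16314736))))) (a (b (a (l 16176368) (l 16114640)) (a (l 15736352) (l 15674624))) (b (a (l 16049864) (l 15870608)) (a (l 15609864) (l 15556464))))) (b (a (b (b (a (b (l 16655408) (l 16587552)) (l 16532912)) (b (a (l 16523408) (l 16499224)) (a (l 16426136) (l 16445552)))) (b (b (a (l 16462720) (l 16442896)) (a (b (l 16462848) (l 16427664)) (l 16364600))) (a (l 16299872) (l 16283344)))) (b (b (a (b (l 16605024) (l 16540176)) (b (a (b (l 16587936) (l 16552216)) (b (l 16585520) (a (l 16537272) (l 16535624)))) (a (l 16503872) (l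 16480496)))) (b (a (l 16457208) (l 16409864)) (b (l 16320080) (l 16383008)))) (b (b (a (l 16405408) (l 16362768)) (b (l 16389768) (l 16356160))) (l 16229888)))) (a (b (a (l 15940432) (l 15966696)) (a (l 15542472) (l 15526880))) (b (b (l 16021384) (l 15806352)) (l 15349104))))) (a (a (b (b (a (l 15289832) (l 15227504)) (l 14645848)) (b (l 14376232) (a (l 13985656) (l 13919880)))) (b (a (b (l 15162048) (l 14714808)) (b (l 15107864) (l 14659224))) (a (b (l 14275376) (l 13850096)) (b (l 14217936) (l 13790472))))) (a (b (a (b (l 15092976) (l 14642672)) (b (l 15076496) (l 14624520))) (a (b (l 14199104) (l 13768856)) (b (l 14178656) (l 13745616)))) (b (b (l 15023208) (l 14568712)) (b (l 14119400) (l 13682224)))))), by decide +kernel⟩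

def k3_pm_202 : ∃ t, chk3 f_pm_202 t 3 3 1 = true :=
  ⟨(a (b (b (a (b (a (b (a (l 13915360) (l 13821752)) (l 13863592)) (b (l 13818328) (a (l 13664576) (l 13635728)))) (a (l 13930952) (b (a (l 13639352) (l 13503672)) (l 13585624)))) (b (a (l 13728304) (l 13665808)) (a (b (l 13446720) (a (l 13330192) (l 13257240))) (l 13290056)))) (a (b (a (l 14038584) (l 13662424)) (a (l 14021832) (l 13753408))) (b (a (b (a (l 13324528) (l 13142360)) (l 13262808)) (a (b (l 13051952) (l 12943472)) (l 12918736))) (a (l 13356464) (a (l 12986312) (b (l 12736424) (l 12749760))))))) (b (a (b (l 13886264) (l 2)) (b (a (l 13482552) (l 13009464)) (l 13413472))) (l 2))) (b (a (a (b (b (l 13550280) (l 13172384)) (b (l 12824240) (a (b (l 12620000) (l 12586488)) (l 12474208)))) (b (a (b (l 13444680) (l 13064280)) (b (l 13382632) (l 12999632))) (a (b (l 12713632) (l 12397096)) (b (l 12646264) (l 12326928))))) (a (b (a (b (l 13357808) (l 12971272)) (b (l 13331384) (l 12941360))) (a (b (l 12614080)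 (l 12290680)) (l 12455104))) (b (b (l 13263352) (l 12868352)) (b (l 12502296) (l 12169816))))) (a (b (a (b (a (l 12583632) (b (l 12307728) (l 12317136))) (l 12627248)) (b (a (b (l 12184344) (l 12092824)) (l 12045712)) (b (a (l 12096408) (l 11891232)) (l 12037392)))) (b (a (l 12864784) (l 12219024)) (l 2))) (b (a (a (b (l 12005192) (l 11781008)) (l 11835128)) (b (l 11875208) (l 11622448))) (a (b (a (l 11872672) (b (l 11572248) (l 11552464))) (l 11870008)) (b (l 11420992) (a (b (l 11386184) (l 11465288)) (l 11256984)))))))), by decide +kernel⟩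

theorem s4_pm_202 : ∃ t, chk3 f_pm_202 t 3 2 1 = true := ex3_a k1_pm_202 k2_pm_202

theorem s5_pm_202 : ∃ t, chk3 f_pm_202 t 3 1 1 = true := ex3_b s4_pm_202 k3_pm_202

theorem s6_pm_202 : ∃ t, chk3 f_pm_202 t 1 1 1 = true := ex3_a k0_pm_202 s5_pm_202

theorem c_pm_202 : CertB 0 536870912 0 536870912 1033476505 6710887 3 eng mog cd0q2 cd3q0 pd2 true true false .pp 2 0 2
    ndB0q2 ndB3q0 pcB2 Cut.none Ext.none :=
  certB0 (fam := true) (s1 := true) (s2 := false) (a := 2) (b := 0) (c := 2) (cn := .pp) (n1 := ndB0q2) (n2 := ndB3q0) (pc := pcB2) (cut := Cut.none) (xt := Ext.none) (P1 := 0) (W1 := 536870912) (P2 := 0) (W2 := 536870912) (P3 := 1033476505) (W3 := 6710887) (N0 := 3) (En := eng) (mo := mog) (C1 := cd0q2) (C2 := cd3q0) (C3 := pd2)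
    rfl s6_pm_202

noncomputable def f_pm_203 : ℕ → ℕ → ℕ → ℕ → Bool := onCell 0 536870912 1610612736 536870912 1033476505 6710887
    (rowB 3 eng mog cd0q2 cd3q0 pd3 1 true true false .up 2 0 3 (qsf 0 536870912 0 536870912 3) ndB0q2 ndB3q0 pcB3 Cut.none Ext.none)

def k0_pm_203 : ∃ t, chk3 f_pm_203 t 1 1 1 = true :=
  ⟨(b (a (b (b (b (a (l 4) (a (l 4) (l 14196112))) (l 4)) (l 4)) (l 4)) (a (b (a (b (b (l 13868320) (l 13839856)) (l 4)) (b (b (l 13381128) (l 13557616)) (b (l 13648824) (l 4)))) (l 2)) (b (b (a (a (b (l 12742672) (l 13062992)) (b (l 12209928) (l 12559024))) (a (b (l 11724264) (l 12086664)) (b (l 11235912) (l 2)))) (a (a (b (l 13400728) (l 2)) (l 2)) (l 2))) (l 2)))) (l 2)), by decide +kernel⟩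

theorem c_pm_203 : CertB 0 536870912 0 536870912 1033476505 6710887 3 eng mog cd0q2 cd3q0 pd3 true true false .up 2 0 3
    ndB0q2 ndB3q0 pcB3 Cut.none Ext.none :=
  certB1 (fam := true) (s1 := true) (s2 := false) (a := 2) (b := 0) (c := 3) (cn := .up) (n1 := ndB0q2) (n2 := ndB3q0) (pc := pcB3) (cut := Cut.none) (xt := Ext.none) (P1 := 0) (W1 := 536870912) (P2 := 0) (W2 := 536870912) (P3 := 1033476505) (W3 := 6710887) (N0 := 3) (En := eng) (mo := mog) (C1 := cd0q2) (C2 := cd3q0) (C3 := pd3)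
    rfl (fun _ => rfl) k0_pm_203

noncomputable def f_pm_213 : ℕ → ℕ → ℕ → ℕ → Bool := onCell 0 536870912 1610612736 536870912 1033476505 6710887
    (rowB 3 eng mog cd0q2 cd3q1 pd3 1 true true false .pnn 2 1 3 (qsf 0 536870912 536870912 536870912 3) ndB0q2 ndB3q1 pcB3 Cut.none Ext.none)

def k0_pm_213 : ∃ t, chk3 f_pm_213 t 1 1 1 = true :=
  ⟨(b (a (b (b (l 1) (l 4)) (l 4)) (a (b (b (l 1) (a (l 4) (b (l 16065200) (l 4)))) (l 4)) (b (b (a (a (l 14956144) (l 490728640791)) (a (l 14193416) (b (l 13636816) (l 13986880)))) (a (a (b (l 15557776) (l 15759824)) (b (l 15094456) (l 15391912))) (a (l 14874312) (l 14472432)))) (b (a (a (l 4) (b (l 15476360) (l 4))) (b (a (l 15220352) (l 14878984)) (a (l 4) (l 14944280)))) (l 4))))) (l 4)), by decide +kernel⟩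

theorem c_pm_213 : CertB 0 536870912 536870912 536870912 1033476505 6710887 3 eng mog cd0q2 cd3q1 pd3 true true false .pnn 2 1 3
    ndB0q2 ndB3q1 pcB3 Cut.none Ext.none :=
  certB1 (fam := true) (s1 := true) (s2 := false) (a := 2) (b := 1) (c := 3) (cn := .pnn) (n1 := ndB0q2) (n2 := ndB3q1) (pc := pcB3) (cut := Cut.none) (xt := Ext.none) (P1 := 0) (W1 := 536870912) (P2 := 536870912) (W2 := 536870912) (P3 := 1033476505) (W3 := 6710887) (N0 := 3) (En := eng) (mo := mog) (C1 := cd0q2) (C2 := cd3q1) (C3 := pd3)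
    rfl (fun _ => rfl) k0_pm_213

noncomputable def f_mm_001 : ℕ → ℕ → ℕ → ℕ → Bool := onCell 0 536870912 0 536870912 1033476505 6710887
    (rowB 3 eng mog cd0q0 cd3q0 pd1 0 true false false .up 0 0 1 (qsf 0 536870912 0 536870912 1) ndB0q0 ndB3q0 pcB1 Cut.none Ext.none)

def k0_mm_001 : ∃ t, chk3 f_mm_001 t 1 1 1 = true :=
  ⟨(l 4), by decide +kernel⟩

theorem c_mm_001 : CertB 0 536870912 0 536870912 1033476505 6710887 3 eng mog cd0q0 cd3q0 pd1 true false false .up 0 0 1
    ndB0q0 ndB3q0 pcB1 Cut.none Ext.none :=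
  certB0 (fam := true) (s1 := false) (s2 := false) (a := 0) (b := 0) (c := 1) (cn := .up) (n1 := ndB0q0) (n2 := ndB3q0) (pc := pcB1) (cut := Cut.none) (xt := Ext.none) (P1 := 0) (W1 := 536870912) (P2 := 0) (W2 := 536870912) (P3 := 1033476505) (W3 := 6710887) (N0 := 3) (En := eng) (mo := mog) (C1 := cd0q0) (C2 := cd3q0) (C3 := pd1)
    rfl k0_mm_001

noncomputable def f_mm_011 : ℕ → ℕ → ℕ → ℕ → Bool := onCell 0 536870912 536870912 536870912 1033476505 6710887
    (rowB 3 eng mog cd0q0 cd3q1 pd1 0 true false false .pnn 0 1 1 (qsf 0 536870912 536870912 536870912 1) ndB0q0 ndB3q1 pcB1 Cut.none Ext.none)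

def k0_mm_011 : ∃ t, chk3 f_mm_011 t 1 1 1 = true :=
  ⟨(l 4), by decide +kernel⟩

theorem c_mm_011 : CertB 0 536870912 536870912 536870912 1033476505 6710887 3 eng mog cd0q0 cd3q1 pd1 true false false .pnn 0 1 1
    ndB0q0 ndB3q1 pcB1 Cut.none Ext.none :=
  certB0 (fam := true) (s1 := false) (s2 := false) (a := 0) (b := 1) (c := 1) (cn := .pnn) (n1 := ndB0q0) (n2 := ndB3q1) (pc := pcB1) (cut := Cut.none) (xt := Ext.none) (P1 := 0) (W1 := 536870912) (P2 := 536870912) (W2 := 536870912) (P3 := 1033476505) (W3 := 6710887) (N0 := 3) (En := eng) (mo := mog) (C1 := cd0q0) (C2 := cd3q1) (C3 := pd1)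
    rfl k0_mm_011

noncomputable def f_mm_012 : ℕ → ℕ → ℕ → ℕ → Bool := onCell 0 536870912 536870912 536870912 1033476505 6710887
    (rowB 3 eng mog cd0q0 cd3q1 pd2 0 true false false .pnp 0 1 2 (qsf 0 536870912 536870912 536870912 2) ndB0q0 ndB3q1 pcB2 Cut.none Ext.none)

def k0_mm_012 : ∃ t, chk3 f_mm_012 t 1 1 1 = true :=
  ⟨(l 4), by decide +kernel⟩

theorem c_mm_012 : CertB 0 536870912 536870912 536870912 1033476505 6710887 3 eng mog cd0q0 cd3q1 pd2 true false false .pnp 0 1 2
    ndB0q0 ndB3q1 pcB2 Cut.none Ext.none :=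
  certB0 (fam := true) (s1 := false) (s2 := false) (a := 0) (b := 1) (c := 2) (cn := .pnp) (n1 := ndB0q0) (n2 := ndB3q1) (pc := pcB2) (cut := Cut.none) (xt := Ext.none) (P1 := 0) (W1 := 536870912) (P2 := 536870912) (W2 := 536870912) (P3 := 1033476505) (W3 := 6710887) (N0 := 3) (En := eng) (mo := mog) (C1 := cd0q0) (C2 := cd3q1) (C3 := pd2)
    rfl k0_mm_012

noncomputable def f_mm_022 : ℕ → ℕ → ℕ → ℕ → Bool := onCell 0 536870912 1073741824 536870912 1033476505 6710887
    (rowB 3 eng mog cd0q0 cd3q2 pd2 0 true false false .pp 0 2 2 (qsf 0 536870912 1073741824 536870912 2) ndB0q0 ndB3q2 pcB2 Cut.none Ext.none)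

def k0_mm_022 : ∃ t, chk3 f_mm_022 t 1 1 1 = true :=
  ⟨(l 5), by decide +kernel⟩

theorem c_mm_022 : CertB 0 536870912 1073741824 536870912 1033476505 6710887 3 eng mog cd0q0 cd3q2 pd2 true false false .pp 0 2 2
    ndB0q0 ndB3q2 pcB2 Cut.none Ext.none :=
  certB0 (fam := true) (s1 := false) (s2 := false) (a := 0) (b := 2) (c := 2) (cn := .pp) (n1 := ndB0q0) (n2 := ndB3q2) (pc := pcB2) (cut := Cut.none) (xt := Ext.none) (P1 := 0) (W1 := 536870912) (P2 := 1073741824) (W2 := 536870912) (P3 := 1033476505) (W3 := 6710887) (N0 := 3) (En := eng) (mo := mog) (C1 := cd0q0) (C2 := cd3q2) (C3 := pd2)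
    rfl k0_mm_022

noncomputable def f_mm_023 : ℕ → ℕ → ℕ → ℕ → Bool := onCell 0 536870912 1073741824 536870912 1033476505 6710887
    (rowB 3 eng mog cd0q0 cd3q2 pd3 0 true false false .up 0 2 3 (qsf 0 536870912 1073741824 536870912 3) ndB0q0 ndB3q2 pcB3 Cut.none Ext.none)

def k0_mm_023 : ∃ t, chk3 f_mm_023 t 1 1 1 = true :=
  ⟨(l 5), by decide +kernel⟩

theorem c_mm_023 : CertB 0 536870912 1073741824 536870912 1033476505 6710887 3 eng mog cd0q0 cd3q2 pd3 true false false .up 0 2 3
    ndB0q0 ndB3q2 pcB3 Cut.none Ext.none :=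
  certB0 (fam := true) (s1 := false) (s2 := false) (a := 0) (b := 2) (c := 3) (cn := .up) (n1 := ndB0q0) (n2 := ndB3q2) (pc := pcB3) (cut := Cut.none) (xt := Ext.none) (P1 := 0) (W1 := 536870912) (P2 := 1073741824) (W2 := 536870912) (P3 := 1033476505) (W3 := 6710887) (N0 := 3) (En := eng) (mo := mog) (C1 := cd0q0) (C2 := cd3q2) (C3 := pd3)
    rfl k0_mm_023

noncomputable def f_mm_033 : ℕ → ℕ → ℕ → ℕ → Bool := onCell 0 536870912 0 1230186008 1033476505 6710887
    (rowB 3 eng mog cd0q0 cd3q3 pd3 0 true false false .pnn 0 3 3 (qsf 0 536870912 0 1230186008 3) ndB0q0 ndB3q3 pcB3 Cut.none Ext.none)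

def k0_mm_033 : ∃ t, chk3 f_mm_033 t 1 1 1 = true :=
  ⟨(l 5), by decide +kernel⟩

theorem c_mm_033 : CertB 0 536870912 0 1230186008 1033476505 6710887 3 eng mog cd0q0 cd3q3 pd3 true false false .pnn 0 3 3
    ndB0q0 ndB3q3 pcB3 Cut.none Ext.none :=
  certB0 (fam := true) (s1 := false) (s2 := false) (a := 0) (b := 3) (c := 3) (cn := .pnn) (n1 := ndB0q0) (n2 := ndB3q3) (pc := pcB3) (cut := Cut.none) (xt := Ext.none) (P1 := 0) (W1 := 536870912) (P2 := 0) (W2 := 1230186008) (P3 := 1033476505) (W3 := 6710887) (N0 := 3) (En := eng) (mo := mog) (C1 := cd0q0) (C2 := cd3q3) (C3 := pd3)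
    rfl k0_mm_033

noncomputable def f_mm_101 : ℕ → ℕ → ℕ → ℕ → Bool := onCell 536870912 536870912 0 536870912 1033476505 6710887
    (rowB 3 eng mog cd0q1 cd3q0 pd1 0 true false false .npn 1 0 1 (qsf 536870912 536870912 0 536870912 1) ndB0q1 ndB3q0 pcB1 Cut.none Ext.none)

def k0_mm_101 : ∃ t, chk3 f_mm_101 t 1 1 1 = true :=
  ⟨(a (l 4) (b (a (l 4) (l 4)) (l 4))), by decide +kernel⟩

theorem c_mm_101 : CertB 536870912 536870912 0 536870912 1033476505 6710887 3 eng mog cd0q1 cd3q0 pd1 true false false .npn 1 0 1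
    ndB0q1 ndB3q0 pcB1 Cut.none Ext.none :=
  certB0 (fam := true) (s1 := false) (s2 := false) (a := 1) (b := 0) (c := 1) (cn := .npn) (n1 := ndB0q1) (n2 := ndB3q0) (pc := pcB1) (cut := Cut.none) (xt := Ext.none) (P1 := 536870912) (W1 := 536870912) (P2 := 0) (W2 := 536870912) (P3 := 1033476505) (W3 := 6710887) (N0 := 3) (En := eng) (mo := mog) (C1 := cd0q1) (C2 := cd3q0) (C3 := pd1)
    rfl k0_mm_101

noncomputable def f_mm_102 : ℕ → ℕ → ℕ → ℕ → Bool := onCell 536870912 536870912 0 536870912 1033476505 6710887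
    (rowB 3 eng mog cd0q1 cd3q0 pd2 0 true false false .npp 1 0 2 (qsf 536870912 536870912 0 536870912 2) ndB0q1 ndB3q0 pcB2 Cut.none Ext.none)

def k0_mm_102 : ∃ t, chk3 f_mm_102 t 1 1 1 = true :=
  ⟨(a (l 4) (b (a (l 4) (l 4)) (l 4))), by decide +kernel⟩

theorem c_mm_102 : CertB 536870912 536870912 0 536870912 1033476505 6710887 3 eng mog cd0q1 cd3q0 pd2 true false false .npp 1 0 2
    ndB0q1 ndB3q0 pcB2 Cut.none Ext.none :=
  certB0 (fam := true) (s1 := false) (s2 := false) (a := 1) (b := 0) (c := 2) (cn := .npp) (n1 := ndB0q1) (n2 := ndB3q0) (pc := pcB2) (cut := Cut.none) (xt := Ext.none) (P1 := 536870912) (W1 := 536870912) (P2 := 0) (W2 := 536870912) (P3 := 1033476505) (W3 := 6710887) (N0 := 3) (En := eng) (mo := mog) (C1 := cd0q1) (C2 := cd3q0) (C3 := pd2)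
    rfl k0_mm_102

noncomputable def f_mm_112 : ℕ → ℕ → ℕ → ℕ → Bool := onCell 536870912 536870912 536870912 536870912 1033476505 6710887
    (rowB 3 eng mog cd0q1 cd3q1 pd2 0 true false false .dn 1 1 2 (qsf 536870912 536870912 536870912 536870912 2) ndB0q1 ndB3q1 pcB2 Cut.none Ext.none)

def k0_mm_112 : ∃ t, chk3 f_mm_112 t 1 1 1 = true :=
  ⟨(l 4), by decide +kernel⟩

theorem c_mm_112 : CertB 536870912 536870912 536870912 536870912 1033476505 6710887 3 eng mog cd0q1 cd3q1 pd2 true false false .dn 1 1 2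
    ndB0q1 ndB3q1 pcB2 Cut.none Ext.none :=
  certB0 (fam := true) (s1 := false) (s2 := false) (a := 1) (b := 1) (c := 2) (cn := .dn) (n1 := ndB0q1) (n2 := ndB3q1) (pc := pcB2) (cut := Cut.none) (xt := Ext.none) (P1 := 536870912) (W1 := 536870912) (P2 := 536870912) (W2 := 536870912) (P3 := 1033476505) (W3 := 6710887) (N0 := 3) (En := eng) (mo := mog) (C1 := cd0q1) (C2 := cd3q1) (C3 := pd2)
    rfl k0_mm_112

noncomputable def f_mm_113 : ℕ → ℕ → ℕ → ℕ → Bool := onCell 536870912 536870912 536870912 536870912 1033476505 6710887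
    (rowB 3 eng mog cd0q1 cd3q1 pd3 0 true false false .nn 1 1 3 (qsf 536870912 536870912 536870912 536870912 3) ndB0q1 ndB3q1 pcB3 Cut.none Ext.none)

def k0_mm_113 : ∃ t, chk3 f_mm_113 t 1 1 1 = true :=
  ⟨(l 4), by decide +kernel⟩

theorem c_mm_113 : CertB 536870912 536870912 536870912 536870912 1033476505 6710887 3 eng mog cd0q1 cd3q1 pd3 true false false .nn 1 1 3
    ndB0q1 ndB3q1 pcB3 Cut.none Ext.none :=
  certB0 (fam := true) (s1 := false) (s2 := false) (a := 1) (b := 1) (c := 3) (cn := .nn) (n1 := ndB0q1) (n2 := ndB3q1) (pc := pcB3) (cut := Cut.none) (xt := Ext.none) (P1 := 536870912) (W1 := 536870912) (P2 := 536870912) (W2 := 536870912) (P3 := 1033476505) (W3 := 6710887) (N0 := 3) (En := eng) (mo := mog) (C1 := cd0q1) (C2 := cd3q1) (C3 := pd3)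
    rfl k0_mm_113

noncomputable def f_mm_123 : ℕ → ℕ → ℕ → ℕ → Bool := onCell 536870912 536870912 1073741824 536870912 1033476505 6710887
    (rowB 3 eng mog cd0q1 cd3q2 pd3 0 true false false .npn 1 2 3 (qsf 536870912 536870912 1073741824 536870912 3) ndB0q1 ndB3q2 pcB3 Cut.none Ext.none)

def k0_mm_123 : ∃ t, chk3 f_mm_123 t 1 1 1 = true :=
  ⟨(l 4), by decide +kernel⟩

theorem c_mm_123 : CertB 536870912 536870912 1073741824 536870912 1033476505 6710887 3 eng mog cd0q1 cd3q2 pd3 true false false .npn 1 2 3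
    ndB0q1 ndB3q2 pcB3 Cut.none Ext.none :=
  certB0 (fam := true) (s1 := false) (s2 := false) (a := 1) (b := 2) (c := 3) (cn := .npn) (n1 := ndB0q1) (n2 := ndB3q2) (pc := pcB3) (cut := Cut.none) (xt := Ext.none) (P1 := 536870912) (W1 := 536870912) (P2 := 1073741824) (W2 := 536870912) (P3 := 1033476505) (W3 := 6710887) (N0 := 3) (En := eng) (mo := mog) (C1 := cd0q1) (C2 := cd3q2) (C3 := pd3)
    rfl k0_mm_123

noncomputable def f_mm_133 : ℕ → ℕ → ℕ → ℕ → Bool := onCell 1610612736 536870912 0 1230186008 1033476505 6710887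
    (rowB 3 eng mog cd0q1 cd3q3 pd3 2 true false false .dn 1 3 3 (qsf 536870912 536870912 0 1230186008 3) ndB0q1 ndB3q3 pcB3 Cut.none Ext.none)

def k0_mm_133 : ∃ t, chk3 f_mm_133 t 1 1 1 = true :=
  ⟨(l 5), by decide +kernel⟩

theorem c_mm_133 : CertB 536870912 536870912 0 1230186008 1033476505 6710887 3 eng mog cd0q1 cd3q3 pd3 true false false .dn 1 3 3
    ndB0q1 ndB3q3 pcB3 Cut.none Ext.none :=
  certB2 (fam := true) (s1 := false) (s2 := false) (a := 1) (b := 3) (c := 3) (cn := .dn) (n1 := ndB0q1) (n2 := ndB3q3) (pc := pcB3) (cut := Cut.none) (xt := Ext.none) (P1 := 536870912) (W1 := 536870912) (P2 := 0) (W2 := 1230186008) (P3 := 1033476505) (W3 := 6710887) (N0 := 3) (En := eng) (mo := mog) (C1 := cd0q1) (C2 := cd3q3) (C3 := pd3)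
    rfl (fun _ => rfl) k0_mm_133

noncomputable def f_mm_202 : ℕ → ℕ → ℕ → ℕ → Bool := onCell 0 536870912 0 536870912 1033476505 6710887
    (rowB 3 eng mog cd0q2 cd3q0 pd2 0 true false false .pp 2 0 2 (qsf 0 536870912 0 536870912 2) ndB0q2 ndB3q0 pcB2 Cut.none Ext.none)

def k0_mm_202 : ∃ t, chk3 f_mm_202 t 2 1 1 = true :=
  ⟨(b (a (a (b (b (b (b (l 16443856) (b (l 16335184) (l 16247800))) (b (b (l 16203568) (l 16139688)) (l 16022704))) (b (l 15820288) (l 15861608))) (b (b (l 15945240) (l 16010920)) (b (b (l 16150376) (l 16032256)) (l 4)))) (b (b (b (b (l 16263840) (b (l 16336144) (l 16274856))) (b (b (l 16262512) (l 16254984)) (l 16183256))) (b (b (l 16120152) (l 16099368)) (l 16011224))) (b (b (b (l 16242160) (l 16321480)) (b (l 16360000) (l 16335776))) (l 4)))) (b (a (b (b (b (b (l 16448224) (l 16450176)) (b (l 16365584) (l 16317504))) (b (b (l 16321640) (l 16330928)) (l 16281984))) (b (b (l 16249224) (l 16258832)) (b (l 16306128) (l 16306744)))) (b (b (b (a (l 16469432)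 (l 16443544)) (b (l 16250552) (a (l 16306688) (l 16276232)))) (b (b (l 16309992) (b (l 16333824) (l 16327040))) (l 16231120))) (b (b (l 16282176) (a (l 16311832) (l 16300272))) (b (a (l 16360632) (l 16322112)) (l 16122808))))) (b (b (a (b (l 16350904) (l 16418024)) (l 4)) (l 4)) (l 4)))) (l 4)), by decide +kernel⟩

def k1_mm_202 : ∃ t, chk3 f_mm_202 t 3 1 1 = true :=
  ⟨(b (b (b (b (a (b (a (a (l 16337720) (b (l 16452608) (l 16352432))) (a (l 16306096) (b (l 16502936) (l 16420136)))) (a (b (a (l 16280176) (l 16250992)) (a (l 16234512) (l 16188800))) (b (a (l 16258264) (l 16320584)) (a (l 16148944) (a (l 16236184) (l 16279536)))))) (a (b (a (a (l 16435720) (l 16428136)) (a (b (l 16627784) (l 16508296)) (b (a (l 16638744) (l 16638480)) (l 16532256)))) (a (b (a (l 16378800) (l 16433008)) (a (l 16341600) (l 4))) (l 4))) (b (a (a (b (a (l 16609216) (l 16629440)) (l 4)) (l 4)) (l 4)) (l 4)))) (a (b (a (b (a (l 16248896) (l 16195080)) (a (l 16273688) (b (l 16216720) (l 16208448))))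 (b (a (a (l 16173424) (l 16189184)) (a (l 16226168) (l 16292320))) (a (b (l 16188168) (l 16179000)) (b (l 66268694007) (l 4))))) (a (a (l 16241536) (a (l 16196312) (l 16164096))) (a (b (l 70026647591) (l 4)) (l 4)))) (l 4))) (a (a (b (a (b (l 16233744) (l 16246264)) (b (l 16033016) (l 4))) (l 4)) (l 4)) (l 4))) (l 4)) (l 4)), by decide +kernel⟩

theorem s2_mm_202 : ∃ t, chk3 f_mm_202 t 1 1 1 = true := ex3_a k0_mm_202 k1_mm_202

theorem c_mm_202 : CertB 0 536870912 0 536870912 1033476505 6710887 3 eng mog cd0q2 cd3q0 pd2 true false false .pp 2 0 2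
    ndB0q2 ndB3q0 pcB2 Cut.none Ext.none :=
  certB0 (fam := true) (s1 := false) (s2 := false) (a := 2) (b := 0) (c := 2) (cn := .pp) (n1 := ndB0q2) (n2 := ndB3q0) (pc := pcB2) (cut := Cut.none) (xt := Ext.none) (P1 := 0) (W1 := 536870912) (P2 := 0) (W2 := 536870912) (P3 := 1033476505) (W3 := 6710887) (N0 := 3) (En := eng) (mo := mog) (C1 := cd0q2) (C2 := cd3q0) (C3 := pd2)
    rfl s2_mm_202

noncomputable def f_mm_203 : ℕ → ℕ → ℕ → ℕ → Bool := onCell 0 536870912 1610612736 536870912 1033476505 6710887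
    (rowB 3 eng mog cd0q2 cd3q0 pd3 1 true false false .up 2 0 3 (qsf 0 536870912 0 536870912 3) ndB0q2 ndB3q0 pcB3 Cut.none Ext.none)

def k0_mm_203 : ∃ t, chk3 f_mm_203 t 1 1 1 = true :=
  ⟨(l 4), by decide +kernel⟩

theorem c_mm_203 : CertB 0 536870912 0 536870912 1033476505 6710887 3 eng mog cd0q2 cd3q0 pd3 true false false .up 2 0 3
    ndB0q2 ndB3q0 pcB3 Cut.none Ext.none :=
  certB1 (fam := true) (s1 := false) (s2 := false) (a := 2) (b := 0) (c := 3) (cn := .up) (n1 := ndB0q2) (n2 := ndB3q0) (pc := pcB3) (cut := Cut.none) (xt := Ext.none) (P1 := 0) (W1 := 536870912) (P2 := 0) (W2 := 536870912) (P3 := 1033476505) (W3 := 6710887) (N0 := 3) (En := eng) (mo := mog) (C1 := cd0q2) (C2 := cd3q0) (C3 := pd3)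
    rfl (fun _ => rfl) k0_mm_203

noncomputable def f_mm_213 : ℕ → ℕ → ℕ → ℕ → Bool := onCell 0 536870912 536870912 536870912 1033476505 6710887
    (rowB 3 eng mog cd0q2 cd3q1 pd3 0 true false false .pnn 2 1 3 (qsf 0 536870912 536870912 536870912 3) ndB0q2 ndB3q1 pcB3 Cut.none Ext.none)

def k0_mm_213 : ∃ t, chk3 f_mm_213 t 1 1 1 = true :=
  ⟨(l 4), by decide +kernel⟩

theorem c_mm_213 : CertB 0 536870912 536870912 536870912 1033476505 6710887 3 eng mog cd0q2 cd3q1 pd3 true false false .pnn 2 1 3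
    ndB0q2 ndB3q1 pcB3 Cut.none Ext.none :=
  certB0 (fam := true) (s1 := false) (s2 := false) (a := 2) (b := 1) (c := 3) (cn := .pnn) (n1 := ndB0q2) (n2 := ndB3q1) (pc := pcB3) (cut := Cut.none) (xt := Ext.none) (P1 := 0) (W1 := 536870912) (P2 := 536870912) (W2 := 536870912) (P3 := 1033476505) (W3 := 6710887) (N0 := 3) (En := eng) (mo := mog) (C1 := cd0q2) (C2 := cd3q1) (C3 := pd3)
    rfl k0_mm_213

end Pool.Agent.Strip051.G.I9625_9688.Tab.C.BA03

namespace Pool.Agent.Strip051.G.I9625_9688.Tab.C.BA04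

open Pool.Agent.Strip051.PB Pool.Agent.Strip051.PB.T
open Pool.Agent.Strip051.G.I9625_9688.Tab

noncomputable def f_pp_001 : ℕ → ℕ → ℕ → ℕ → Bool := onCell 0 536870912 0 536870912 1033476505 6710887
    (rowB 3 eng mog cd0q0 cd4q0 pd1 0 true true true .up 0 0 1 (qsf 0 536870912 0 536870912 1) ndB0q0 ndB4q0 pcB1 Cut.none Ext.none)

def k0_pp_001 : ∃ t, chk3 f_pp_001 t 1 1 1 = true :=
  ⟨(l 4), by decide +kernel⟩

theorem c_pp_001 : CertB 0 536870912 0 536870912 1033476505 6710887 3 eng mog cd0q0 cd4q0 pd1 true true true .up 0 0 1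
    ndB0q0 ndB4q0 pcB1 Cut.none Ext.none :=
  certB0 (fam := true) (s1 := true) (s2 := true) (a := 0) (b := 0) (c := 1) (cn := .up) (n1 := ndB0q0) (n2 := ndB4q0) (pc := pcB1) (cut := Cut.none) (xt := Ext.none) (P1 := 0) (W1 := 536870912) (P2 := 0) (W2 := 536870912) (P3 := 1033476505) (W3 := 6710887) (N0 := 3) (En := eng) (mo := mog) (C1 := cd0q0) (C2 := cd4q0) (C3 := pd1)
    rfl k0_pp_001

noncomputable def f_pp_011 : ℕ → ℕ → ℕ → ℕ → Bool := onCell 0 536870912 536870912 536870912 1033476505 6710887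
    (rowB 3 eng mog cd0q0 cd4q1 pd1 0 true true true .pnn 0 1 1 (qsf 0 536870912 536870912 536870912 1) ndB0q0 ndB4q1 pcB1 Cut.none Ext.none)

def k0_pp_011 : ∃ t, chk3 f_pp_011 t 1 1 1 = true :=
  ⟨(l 4), by decide +kernel⟩

theorem c_pp_011 : CertB 0 536870912 536870912 536870912 1033476505 6710887 3 eng mog cd0q0 cd4q1 pd1 true true true .pnn 0 1 1
    ndB0q0 ndB4q1 pcB1 Cut.none Ext.none :=
  certB0 (fam := true) (s1 := true) (s2 := true) (a := 0) (b := 1) (c := 1) (cn := .pnn) (n1 := ndB0q0) (n2 := ndB4q1) (pc := pcB1) (cut := Cut.none) (xt := Ext.none) (P1 := 0) (W1 := 536870912) (P2 := 536870912) (W2 := 536870912) (P3 := 1033476505) (W3 := 6710887) (N0 := 3) (En := eng) (mo := mog) (C1 := cd0q0) (C2 := cd4q1) (C3 := pd1)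
    rfl k0_pp_011

noncomputable def f_pp_012 : ℕ → ℕ → ℕ → ℕ → Bool := onCell 0 536870912 536870912 536870912 1033476505 6710887
    (rowB 3 eng mog cd0q0 cd4q1 pd2 0 true true true .pnp 0 1 2 (qsf 0 536870912 536870912 536870912 2) ndB0q0 ndB4q1 pcB2 Cut.none Ext.none)

def k0_pp_012 : ∃ t, chk3 f_pp_012 t 1 1 1 = true :=
  ⟨(l 4), by decide +kernel⟩

theorem c_pp_012 : CertB 0 536870912 536870912 536870912 1033476505 6710887 3 eng mog cd0q0 cd4q1 pd2 true true true .pnp 0 1 2
    ndB0q0 ndB4q1 pcB2 Cut.none Ext.none :=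
  certB0 (fam := true) (s1 := true) (s2 := true) (a := 0) (b := 1) (c := 2) (cn := .pnp) (n1 := ndB0q0) (n2 := ndB4q1) (pc := pcB2) (cut := Cut.none) (xt := Ext.none) (P1 := 0) (W1 := 536870912) (P2 := 536870912) (W2 := 536870912) (P3 := 1033476505) (W3 := 6710887) (N0 := 3) (En := eng) (mo := mog) (C1 := cd0q0) (C2 := cd4q1) (C3 := pd2)
    rfl k0_pp_012

noncomputable def f_pp_022 : ℕ → ℕ → ℕ → ℕ → Bool := onCell 0 536870912 1073741824 536870912 1033476505 6710887
    (rowB 3 eng mog cd0q0 cd4q2 pd2 0 true true true .pp 0 2 2 (qsf 0 536870912 1073741824 536870912 2) ndB0q0 ndB4q2 pcB2 Cut.none Ext.none)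

def k0_pp_022 : ∃ t, chk3 f_pp_022 t 1 1 1 = true :=
  ⟨(l 4), by decide +kernel⟩

theorem c_pp_022 : CertB 0 536870912 1073741824 536870912 1033476505 6710887 3 eng mog cd0q0 cd4q2 pd2 true true true .pp 0 2 2
    ndB0q0 ndB4q2 pcB2 Cut.none Ext.none :=
  certB0 (fam := true) (s1 := true) (s2 := true) (a := 0) (b := 2) (c := 2) (cn := .pp) (n1 := ndB0q0) (n2 := ndB4q2) (pc := pcB2) (cut := Cut.none) (xt := Ext.none) (P1 := 0) (W1 := 536870912) (P2 := 1073741824) (W2 := 536870912) (P3 := 1033476505) (W3 := 6710887) (N0 := 3) (En := eng) (mo := mog) (C1 := cd0q0) (C2 := cd4q2) (C3 := pd2)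
    rfl k0_pp_022

noncomputable def f_pp_023 : ℕ → ℕ → ℕ → ℕ → Bool := onCell 0 536870912 1073741824 536870912 1033476505 6710887
    (rowB 3 eng mog cd0q0 cd4q2 pd3 0 true true true .up 0 2 3 (qsf 0 536870912 1073741824 536870912 3) ndB0q0 ndB4q2 pcB3 Cut.none Ext.none)

def k0_pp_023 : ∃ t, chk3 f_pp_023 t 1 1 1 = true :=
  ⟨(l 4), by decide +kernel⟩

theorem c_pp_023 : CertB 0 536870912 1073741824 536870912 1033476505 6710887 3 eng mog cd0q0 cd4q2 pd3 true true true .up 0 2 3
    ndB0q0 ndB4q2 pcB3 Cut.none Ext.none :=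
  certB0 (fam := true) (s1 := true) (s2 := true) (a := 0) (b := 2) (c := 3) (cn := .up) (n1 := ndB0q0) (n2 := ndB4q2) (pc := pcB3) (cut := Cut.none) (xt := Ext.none) (P1 := 0) (W1 := 536870912) (P2 := 1073741824) (W2 := 536870912) (P3 := 1033476505) (W3 := 6710887) (N0 := 3) (En := eng) (mo := mog) (C1 := cd0q0) (C2 := cd4q2) (C3 := pd3)
    rfl k0_pp_023

noncomputable def f_pp_033 : ℕ → ℕ → ℕ → ℕ → Bool := onCell 0 536870912 0 1230186008 1033476505 6710887
    (rowB 3 eng mog cd0q0 cd4q3 pd3 0 true true true .pnn 0 3 3 (qsf 0 536870912 0 1230186008 3) ndB0q0 ndB4q3 pcB3 Cut.none Ext.none)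

def k0_pp_033 : ∃ t, chk3 f_pp_033 t 1 1 1 = true :=
  ⟨(b (l 4) (l 4)), by decide +kernel⟩

theorem c_pp_033 : CertB 0 536870912 0 1230186008 1033476505 6710887 3 eng mog cd0q0 cd4q3 pd3 true true true .pnn 0 3 3
    ndB0q0 ndB4q3 pcB3 Cut.none Ext.none :=
  certB0 (fam := true) (s1 := true) (s2 := true) (a := 0) (b := 3) (c := 3) (cn := .pnn) (n1 := ndB0q0) (n2 := ndB4q3) (pc := pcB3) (cut := Cut.none) (xt := Ext.none) (P1 := 0) (W1 := 536870912) (P2 := 0) (W2 := 1230186008) (P3 := 1033476505) (W3 := 6710887) (N0 := 3) (En := eng) (mo := mog) (C1 := cd0q0) (C2 := cd4q3) (C3 := pd3)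
    rfl k0_pp_033

noncomputable def f_pp_101 : ℕ → ℕ → ℕ → ℕ → Bool := onCell 536870912 536870912 0 536870912 1033476505 6710887
    (rowB 3 eng mog cd0q1 cd4q0 pd1 0 true true true .npn 1 0 1 (qsf 536870912 536870912 0 536870912 1) ndB0q1 ndB4q0 pcB1 Cut.none Ext.none)

def k0_pp_101 : ∃ t, chk3 f_pp_101 t 1 1 1 = true :=
  ⟨(l 4), by decide +kernel⟩

theorem c_pp_101 : CertB 536870912 536870912 0 536870912 1033476505 6710887 3 eng mog cd0q1 cd4q0 pd1 true true true .npn 1 0 1
    ndB0q1 ndB4q0 pcB1 Cut.none Ext.none :=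
  certB0 (fam := true) (s1 := true) (s2 := true) (a := 1) (b := 0) (c := 1) (cn := .npn) (n1 := ndB0q1) (n2 := ndB4q0) (pc := pcB1) (cut := Cut.none) (xt := Ext.none) (P1 := 536870912) (W1 := 536870912) (P2 := 0) (W2 := 536870912) (P3 := 1033476505) (W3 := 6710887) (N0 := 3) (En := eng) (mo := mog) (C1 := cd0q1) (C2 := cd4q0) (C3 := pd1)
    rfl k0_pp_101

noncomputable def f_pp_102 : ℕ → ℕ → ℕ → ℕ → Bool := onCell 536870912 536870912 0 536870912 1033476505 6710887
    (rowB 3 eng mog cd0q1 cd4q0 pd2 0 true true true .npp 1 0 2 (qsf 536870912 536870912 0 536870912 2) ndB0q1 ndB4q0 pcB2 Cut.none Ext.none)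

def k0_pp_102 : ∃ t, chk3 f_pp_102 t 1 1 1 = true :=
  ⟨(l 4), by decide +kernel⟩

theorem c_pp_102 : CertB 536870912 536870912 0 536870912 1033476505 6710887 3 eng mog cd0q1 cd4q0 pd2 true true true .npp 1 0 2
    ndB0q1 ndB4q0 pcB2 Cut.none Ext.none :=
  certB0 (fam := true) (s1 := true) (s2 := true) (a := 1) (b := 0) (c := 2) (cn := .npp) (n1 := ndB0q1) (n2 := ndB4q0) (pc := pcB2) (cut := Cut.none) (xt := Ext.none) (P1 := 536870912) (W1 := 536870912) (P2 := 0) (W2 := 536870912) (P3 := 1033476505) (W3 := 6710887) (N0 := 3) (En := eng) (mo := mog) (C1 := cd0q1) (C2 := cd4q0) (C3 := pd2)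
    rfl k0_pp_102

noncomputable def f_pp_112 : ℕ → ℕ → ℕ → ℕ → Bool := onCell 536870912 536870912 536870912 536870912 1033476505 6710887
    (rowB 3 eng mog cd0q1 cd4q1 pd2 0 true true true .dn 1 1 2 (qsf 536870912 536870912 536870912 536870912 2) ndB0q1 ndB4q1 pcB2 Cut.none Ext.none)

def k0_pp_112 : ∃ t, chk3 f_pp_112 t 1 1 1 = true :=
  ⟨(l 4), by decide +kernel⟩

theorem c_pp_112 : CertB 536870912 536870912 536870912 536870912 1033476505 6710887 3 eng mog cd0q1 cd4q1 pd2 true true true .dn 1 1 2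
    ndB0q1 ndB4q1 pcB2 Cut.none Ext.none :=
  certB0 (fam := true) (s1 := true) (s2 := true) (a := 1) (b := 1) (c := 2) (cn := .dn) (n1 := ndB0q1) (n2 := ndB4q1) (pc := pcB2) (cut := Cut.none) (xt := Ext.none) (P1 := 536870912) (W1 := 536870912) (P2 := 536870912) (W2 := 536870912) (P3 := 1033476505) (W3 := 6710887) (N0 := 3) (En := eng) (mo := mog) (C1 := cd0q1) (C2 := cd4q1) (C3 := pd2)
    rfl k0_pp_112

noncomputable def f_pp_113 : ℕ → ℕ → ℕ → ℕ → Bool := onCell 536870912 536870912 536870912 536870912 1033476505 6710887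
    (rowB 3 eng mog cd0q1 cd4q1 pd3 0 true true true .nn 1 1 3 (qsf 536870912 536870912 536870912 536870912 3) ndB0q1 ndB4q1 pcB3 Cut.none Ext.none)

def k0_pp_113 : ∃ t, chk3 f_pp_113 t 1 1 1 = true :=
  ⟨(l 4), by decide +kernel⟩

theorem c_pp_113 : CertB 536870912 536870912 536870912 536870912 1033476505 6710887 3 eng mog cd0q1 cd4q1 pd3 true true true .nn 1 1 3
    ndB0q1 ndB4q1 pcB3 Cut.none Ext.none :=
  certB0 (fam := true) (s1 := true) (s2 := true) (a := 1) (b := 1) (c := 3) (cn := .nn) (n1 := ndB0q1) (n2 := ndB4q1) (pc := pcB3) (cut := Cut.none) (xt := Ext.none) (P1 := 536870912) (W1 := 536870912) (P2 := 536870912) (W2 := 536870912) (P3 := 1033476505) (W3 := 6710887) (N0 := 3) (En := eng) (mo := mog) (C1 := cd0q1) (C2 := cd4q1) (C3 := pd3)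
    rfl k0_pp_113

noncomputable def f_pp_123 : ℕ → ℕ → ℕ → ℕ → Bool := onCell 536870912 536870912 1073741824 536870912 1033476505 6710887
    (rowB 3 eng mog cd0q1 cd4q2 pd3 0 true true true .npn 1 2 3 (qsf 536870912 536870912 1073741824 536870912 3) ndB0q1 ndB4q2 pcB3 Cut.none Ext.none)

def k0_pp_123 : ∃ t, chk3 f_pp_123 t 1 1 1 = true :=
  ⟨(l 4), by decide +kernel⟩

theorem c_pp_123 : CertB 536870912 536870912 1073741824 536870912 1033476505 6710887 3 eng mog cd0q1 cd4q2 pd3 true true true .npn 1 2 3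
    ndB0q1 ndB4q2 pcB3 Cut.none Ext.none :=
  certB0 (fam := true) (s1 := true) (s2 := true) (a := 1) (b := 2) (c := 3) (cn := .npn) (n1 := ndB0q1) (n2 := ndB4q2) (pc := pcB3) (cut := Cut.none) (xt := Ext.none) (P1 := 536870912) (W1 := 536870912) (P2 := 1073741824) (W2 := 536870912) (P3 := 1033476505) (W3 := 6710887) (N0 := 3) (En := eng) (mo := mog) (C1 := cd0q1) (C2 := cd4q2) (C3 := pd3)
    rfl k0_pp_123

noncomputable def f_pp_133 : ℕ → ℕ → ℕ → ℕ → Bool := onCell 536870912 536870912 0 1230186008 1033476505 6710887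
    (rowB 3 eng mog cd0q1 cd4q3 pd3 0 true true true .dn 1 3 3 (qsf 536870912 536870912 0 1230186008 3) ndB0q1 ndB4q3 pcB3 Cut.none Ext.none)

def k0_pp_133 : ∃ t, chk3 f_pp_133 t 1 1 1 = true :=
  ⟨(l 4), by decide +kernel⟩

theorem c_pp_133 : CertB 536870912 536870912 0 1230186008 1033476505 6710887 3 eng mog cd0q1 cd4q3 pd3 true true true .dn 1 3 3
    ndB0q1 ndB4q3 pcB3 Cut.none Ext.none :=
  certB0 (fam := true) (s1 := true) (s2 := true) (a := 1) (b := 3) (c := 3) (cn := .dn) (n1 := ndB0q1) (n2 := ndB4q3) (pc := pcB3) (cut := Cut.none) (xt := Ext.none) (P1 := 536870912) (W1 := 536870912) (P2 := 0) (W2 := 1230186008) (P3 := 1033476505) (W3 := 6710887) (N0 := 3) (En := eng) (mo := mog) (C1 := cd0q1) (C2 := cd4q3) (C3 := pd3)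
    rfl k0_pp_133

noncomputable def f_pp_202 : ℕ → ℕ → ℕ → ℕ → Bool := onCell 0 536870912 0 536870912 1033476505 6710887
    (rowB 3 eng mog cd0q2 cd4q0 pd2 0 true true true .pp 2 0 2 (qsf 0 536870912 0 536870912 2) ndB0q2 ndB4q0 pcB2 Cut.none Ext.none)

def k0_pp_202 : ∃ t, chk3 f_pp_202 t 1 1 1 = true :=
  ⟨(l 4), by decide +kernel⟩

theorem c_pp_202 : CertB 0 536870912 0 536870912 1033476505 6710887 3 eng mog cd0q2 cd4q0 pd2 true true true .pp 2 0 2
    ndB0q2 ndB4q0 pcB2 Cut.none Ext.none :=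
  certB0 (fam := true) (s1 := true) (s2 := true) (a := 2) (b := 0) (c := 2) (cn := .pp) (n1 := ndB0q2) (n2 := ndB4q0) (pc := pcB2) (cut := Cut.none) (xt := Ext.none) (P1 := 0) (W1 := 536870912) (P2 := 0) (W2 := 536870912) (P3 := 1033476505) (W3 := 6710887) (N0 := 3) (En := eng) (mo := mog) (C1 := cd0q2) (C2 := cd4q0) (C3 := pd2)
    rfl k0_pp_202

noncomputable def f_pp_203 : ℕ → ℕ → ℕ → ℕ → Bool := onCell 0 536870912 0 536870912 1033476505 6710887
    (rowB 3 eng mog cd0q2 cd4q0 pd3 0 true true true .up 2 0 3 (qsf 0 536870912 0 536870912 3) ndB0q2 ndB4q0 pcB3 Cut.none Ext.none)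

def k0_pp_203 : ∃ t, chk3 f_pp_203 t 1 1 1 = true :=
  ⟨(l 4), by decide +kernel⟩

theorem c_pp_203 : CertB 0 536870912 0 536870912 1033476505 6710887 3 eng mog cd0q2 cd4q0 pd3 true true true .up 2 0 3
    ndB0q2 ndB4q0 pcB3 Cut.none Ext.none :=
  certB0 (fam := true) (s1 := true) (s2 := true) (a := 2) (b := 0) (c := 3) (cn := .up) (n1 := ndB0q2) (n2 := ndB4q0) (pc := pcB3) (cut := Cut.none) (xt := Ext.none) (P1 := 0) (W1 := 536870912) (P2 := 0) (W2 := 536870912) (P3 := 1033476505) (W3 := 6710887) (N0 := 3) (En := eng) (mo := mog) (C1 := cd0q2) (C2 := cd4q0) (C3 := pd3)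
    rfl k0_pp_203

noncomputable def f_pp_213 : ℕ → ℕ → ℕ → ℕ → Bool := onCell 0 536870912 536870912 536870912 1033476505 6710887
    (rowB 3 eng mog cd0q2 cd4q1 pd3 0 true true true .pnn 2 1 3 (qsf 0 536870912 536870912 536870912 3) ndB0q2 ndB4q1 pcB3 Cut.none Ext.none)

def k0_pp_213 : ∃ t, chk3 f_pp_213 t 1 1 1 = true :=
  ⟨(l 4), by decide +kernel⟩

theorem c_pp_213 : CertB 0 536870912 536870912 536870912 1033476505 6710887 3 eng mog cd0q2 cd4q1 pd3 true true true .pnn 2 1 3
    ndB0q2 ndB4q1 pcB3 Cut.none Ext.none :=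
  certB0 (fam := true) (s1 := true) (s2 := true) (a := 2) (b := 1) (c := 3) (cn := .pnn) (n1 := ndB0q2) (n2 := ndB4q1) (pc := pcB3) (cut := Cut.none) (xt := Ext.none) (P1 := 0) (W1 := 536870912) (P2 := 536870912) (W2 := 536870912) (P3 := 1033476505) (W3 := 6710887) (N0 := 3) (En := eng) (mo := mog) (C1 := cd0q2) (C2 := cd4q1) (C3 := pd3)
    rfl k0_pp_213

noncomputable def f_pm_001 : ℕ → ℕ → ℕ → ℕ → Bool := onCell 0 536870912 536870912 536870912 1033476505 6710887
    (rowB 3 eng mog cd0q0 cd4q0 pd1 1 true true false .up 0 0 1 (qsf 0 536870912 0 536870912 1) ndB0q0 ndB4q0 pcB1 Cut.none Ext.none)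

def k0_pm_001 : ∃ t, chk3 f_pm_001 t 1 1 1 = true :=
  ⟨(b (l 3) (a (b (l 3) (l 2)) (b (a (l 3) (b (l 3) (b (a (l 3) (b (l 3) (a (l 3) (b (l 3) (l 307257402983))))) (a (b (a (l 3) (l 309404966967)) (a (l 16578664) (l 16538696))) (b (a (b (l 308331177671) (l 16554784)) (b (l 175724079063) (l 16507600))) (a (l 16514192) (l 16466008))))))) (b (a (a (l 2) (b (a (l 2) (b (l 16526624) (l 2))) (l 2))) (b (a (b (a (l 16510656) (l 16467056)) (l 81703902823)) (b (a (l 16421560) (l 16375248)) (l 16281408))) (a (b (l 257260416183) (l 270681923303)) (b (l 16153248) (l 16025856))))) (a (l 2) (b (a (b (l 280345326567) (l 2)) (b (l 15909720) (l 15825336))) (a (l 2) (l 15694280)))))))), by decide +kernel⟩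

theorem c_pm_001 : CertB 0 536870912 0 536870912 1033476505 6710887 3 eng mog cd0q0 cd4q0 pd1 true true false .up 0 0 1
    ndB0q0 ndB4q0 pcB1 Cut.none Ext.none :=
  certB1 (fam := true) (s1 := true) (s2 := false) (a := 0) (b := 0) (c := 1) (cn := .up) (n1 := ndB0q0) (n2 := ndB4q0) (pc := pcB1) (cut := Cut.none) (xt := Ext.none) (P1 := 0) (W1 := 536870912) (P2 := 0) (W2 := 536870912) (P3 := 1033476505) (W3 := 6710887) (N0 := 3) (En := eng) (mo := mog) (C1 := cd0q0) (C2 := cd4q0) (C3 := pd1)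
    rfl (fun _ => rfl) k0_pm_001

noncomputable def cut_pm_011 : Cut := Cut.of [[⟨0, 0, 0, 33554432⟩, ⟨1, 1, 0, 33554432⟩, ⟨2, 1, 0, 33554432⟩]]

noncomputable def f_pm_011 : ℕ → ℕ → ℕ → ℕ → Bool := onCell 0 536870912 536870912 536870912 1033476505 6710887
    (rowB 3 eng mog cd0q0 cd4q1 pd1 1 true true false .pnn 0 1 1 (qsf 0 536870912 536870912 536870912 1) ndB0q0 ndB4q1 pcB1 cut_pm_011 Ext.none)

def k0_pm_011 : ∃ t, chk3 f_pm_011 t 1 2 1 = true :=
  ⟨(l 3), by decide +kernel⟩

def k1_pm_011 : ∃ t, chk3 f_pm_011 t 2 6 1 = true :=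
  ⟨(l 3), by decide +kernel⟩

def k2_pm_011 : ∃ t, chk3 f_pm_011 t 4 14 1 = true :=
  ⟨(l 3), by decide +kernel⟩

def k3_pm_011 : ∃ t, chk3 f_pm_011 t 8 15 1 = true :=
  ⟨(b (l 3) (a (b (l 3) (a (b (l 3) (l 6)) (b (a (l 3) (b (l 3) (b (l 3) (a (a (l 3) (l 216526688391)) (b (l 226190352359) (l 16735064)))))) (b (a (b (a (l 6) (a (l 6) (l 148880962823))) (l 6)) (a (b (a (l 176798243031) (l 16749048)) (l 16748152)) (b (l 16743688) (l 16741008)))) (a (l 6) (b (l 16720736) (l 16717568))))))) (b (a (l 3) (b (l 3) (b (l 3) (a (a (l 3) (b (l 3) (l 175724425703))) (a (b (l 121500472103) (l 16710680)) (b (l 158544547543) (l 16706984))))))) (a (b (a (b (a (l 3) (b (l 3) (l 171429497655))) (a (b (l 211157954407) (l 16728496)) (b (l 167671396791) (l 16731824)))) (b (a (b (l 3) (l 143512196407)) (b (l 160692057239) (l 16722752))) (a (b (l 16727200) (l 16724808)) (l 16719256)))) (b (a (a (l 16714200) (l 16727992)) (l 16696544)) (a (l 16710032) (l 16711696)))) (a (b (b (b (a (l 161765787415)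 (l 16713144)) (l 16703064)) (l 16689040)) (b (l 16704912) (l 16699088))) (b (b (a (l 16707224) (l 16703472)) (l 16700472)) (l 16676824))))))), by decide +kernel⟩

def k4_pm_011 : ∃ t, chk3 f_pm_011 t 9 15 1 = true :=
  ⟨(b (a (l 3) (b (l 3) (b (l 3) (b (a (l 3) (a (l 566566201671) (l 16587272))) (a (a (a (l 3) (l 331416918295)) (l 250349314727)) (a (l 284172083895) (l 16556072))))))) (a (b (a (b (a (l 3) (b (l 3) (a (l 3) (l 162839524167)))) (a (a (b (l 161228901719) (l 201494210135)) (b (l 154786449639) (l 16704344))) (b (a (l 178945639591) (l 16711408)) (l 16705224)))) (a (b (b (l 3) (a (l 156397077719) (l 179482535383))) (a (b (l 16714776) (l 16709656)) (l 16703112))) (a (b (b (l 320142715735) (l 16697728)) (l 16689336)) (b (b (l 156397064023) (l 16710184)) (l 16701752))))) (a (b (a (b (l 16700064) (l 16695272)) (l 16677080)) (a (l 16687304) (l 16687576))) (a (b (a (l 16702416) (l 16703792)) (l 16692376)) (b (l 16696856) (l 16686248))))) (a (b (a (b (a (b (l 218137181319)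 (l 16695416)) (l 261623667799)) (a (l 16686968) (l 16667072))) (b (b (l 16648984) (l 16642032)) (l 16633560))) (a (a (l 16651032) (l 16631080)) (l 16576512))) (b (b (a (l 16596592) (l 16544096)) (l 16516976)) (a (l 16569536) (l 16516944)))))), by decide +kernel⟩

def k5_pm_011 : ∃ t, chk3 f_pm_011 t 5 7 1 = true :=
  ⟨(b (a (l 3) (b (l 3) (a (b (l 3) (b (l 3) (a (b (l 3) (a (l 3) (l 380271069415))) (b (a (l 362554253591) (l 341616237047)) (a (l 183239381351) (l 16052968)))))) (b (a (l 3) (b (l 3) (a (l 3) (b (l 3) (l 466707054935))))) (b (a (b (l 3) (a (l 331952510279) (l 313162001095))) (a (b (l 410335614183) (l 16012816)) (b (l 16013608) (l 16015776)))) (a (a (b (l 284171008375) (l 16034528)) (b (l 16019976) (l 16022440))) (a (b (l 16015192) (l 16017176)) (l 16018568)))))))) (b (a (b (a (b (l 3) (a (l 3) (b (l 3) (a (l 3) (l 16381840))))) (b (a (l 3) (b (l 382955617815) (l 16225016))) (a (b (l 165523109399) (l 16325536)) (b (l 16211552) (l 16209712))))) (a (b (a (a (b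 (l 3) (l 16548224)) (b (l 16482304) (l 16470272))) (b (a (l 16428240) (l 16374672)) (l 16409840))) (a (a (l 16506920) (l 16452448)) (l 16371448))) (b (a (b (l 16296944) (l 16284832)) (l 16196288)) (a (l 16268032) (l 16174232))))) (b (a (b (a (b (l 127404880359) (l 16130072)) (b (l 16046376) (l 16069016))) (a (b (l 16131256) (l 16129008)) (l 16047512))) (b (a (a (l 16037440) (l 16024696)) (l 16018560)) (a (l 16008144) (l 16037096)))) (a (b (a (l 16115888) (l 16054008)) (a (l 16094592) (l 16033440))) (b (a (l 16014712) (l 16001768)) (l 15964296))))) (a (a (b (a (b (l 16442064) (l 16451192)) (b (l 16355144) (l 16343296))) (a (l 16351872) (l 16327688))) (b (a (l 16245824) (l 16152312)) (a (l 16224392) (l 16130656)))) (a (b (a (l 16072936) (l 16011992)) (a (l 16051016) (l 15989768))) (b (a (l 15973520) (l 15961304)) (b (l 15925952) (l 15914408))))))), by decide +kernel⟩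

def k6_pm_011 : ∃ t, chk3 f_pm_011 t 3 3 1 = true :=
  ⟨(b (a (l 3) (b (l 1) (a (b (l 1) (b (l 1) (a (l 16397448) (l 1)))) (l 1)))) (b (a (a (b (a (l 3) (b (l 3) (b (l 3) (l 466707129575)))) (a (b (a (b (l 3) (a (b (l 3) (l 301887704759)) (l 297592769271))) (b (l 504824980295) (b (l 16056336) (l 16056944)))) (a (b (a (b (l 16023888) (l 16025544)) (l 16037512)) (a (l 16027584) (l 16039360))) (b (l 16057744) (l 16058136)))) (b (b (a (l 284707972695) (l 16123632)) (l 16104304)) (b (l 16102416) (l 16099992))))) (b (a (b (l 471539130039) (a (l 285244926807) (l 16185896))) (b (l 259475279143) (l 16264208))) (b (a (l 16175008) (l 16244376)) (a (l 16163744) (l 16225792))))) (b (a (a (b (l 16364104) (l 16334744)) (l 16411600)) (l 1)) (a (b (l 16294240) (l 16307240)) (b (l 1) (l 16366680))))) (a (b (a (a (b (b (a (l 16032360) (l 16056704)) (a (l 16028656) (l 16051760))) (a (l 16005392) (l 16028672))) (b (b (l 16096088) (l 16089336)) (l 16066424))) (b (a (l 16149696) (l 16205760))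 (a (l 16121424) (l 16176504)))) (a (a (a (a (l 15958784) (l 15969224)) (l 15985984)) (b (l 16036120) (l 16011432))) (a (l 16078296) (l 16132584)))) (b (a (b (l 16278840) (l 16247688)) (b (l 16328200) (l 16272088))) (a (l 16180848) (l 16188840)))))), by decide +kernel⟩

theorem s7_pm_011 : ∃ t, chk3 f_pm_011 t 4 15 1 = true := ex3_a k3_pm_011 k4_pm_011

theorem s8_pm_011 : ∃ t, chk3 f_pm_011 t 4 7 1 = true := ex3_b k2_pm_011 s7_pm_011

theorem s9_pm_011 : ∃ t, chk3 f_pm_011 t 2 7 1 = true := ex3_a s8_pm_011 k5_pm_011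

theorem s10_pm_011 : ∃ t, chk3 f_pm_011 t 2 3 1 = true := ex3_b k1_pm_011 s9_pm_011

theorem s11_pm_011 : ∃ t, chk3 f_pm_011 t 1 3 1 = true := ex3_a s10_pm_011 k6_pm_011

theorem s12_pm_011 : ∃ t, chk3 f_pm_011 t 1 1 1 = true := ex3_b k0_pm_011 s11_pm_011

theorem c_pm_011 : CertB 0 536870912 536870912 536870912 1033476505 6710887 3 eng mog cd0q0 cd4q1 pd1 true true false .pnn 0 1 1
    ndB0q0 ndB4q1 pcB1 cut_pm_011 Ext.none :=
  certB1 (fam := true) (s1 := true) (s2 := false) (a := 0) (b := 1) (c := 1) (cn := .pnn) (n1 := ndB0q0) (n2 := ndB4q1) (pc := pcB1) (cut := cut_pm_011) (xt := Ext.none) (P1 := 0) (W1 := 536870912) (P2 := 536870912) (W2 := 536870912) (P3 := 1033476505) (W3 := 6710887) (N0 := 3) (En := eng) (mo := mog) (C1 := cd0q0) (C2 := cd4q1) (C3 := pd1)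
    rfl (fun _ => rfl) s12_pm_011

noncomputable def cut_pm_012 : Cut := Cut.of [[⟨0, 0, 0, 33554432⟩, ⟨1, 1, 0, 33554432⟩, ⟨2, 1, 0, 33554432⟩]]

noncomputable def f_pm_012 : ℕ → ℕ → ℕ → ℕ → Bool := onCell 0 536870912 1073741824 536870912 1033476505 6710887
    (rowB 3 eng mog cd0q0 cd4q1 pd2 1 true true false .pnp 0 1 2 (qsf 0 536870912 536870912 536870912 2) ndB0q0 ndB4q1 pcB2 cut_pm_012 Ext.none)

def k0_pm_012 : ∃ t, chk3 f_pm_012 t 2 8 1 = true :=
  ⟨(a (a (b (a (b (a (l 6) (a (l 6) (a (l 6) (b (l 16675352) (l 16647208))))) (a (b (l 6) (l 2)) (a (b (l 6) (a (l 2) (l 16511488))) (b (b (l 16596360) (l 16561784)) (a (l 16510816) (l 16509888)))))) (b (a (b (b (a (l 16728232) (l 16719424)) (l 16668872)) (a (l 16642624) (l 16636656))) (b (b (l 16709112) (l 16656648)) (l 16609520))) (a (a (b (l 16575048) (l 16508248)) (b (l 16571104) (l 16506144))) (b (l 16567912) (l 16505656))))) (a (b (a (l 2) (b (a (l 2) (a (l 2) (l 16442600))) (l 2))) (l 2)) (a (b (a (b (l 16442232)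 (l 16377016)) (b (l 16441800) (l 16378112))) (a (l 2) (l 16284024))) (b (b (l 16443776) (l 16382344)) (a (l 16330168) (l 16295080)))))) (a (b (a (b (b (l 16646848) (l 16614048)) (l 16484008)) (b (a (l 16620976) (l 16623336)) (a (l 16567096) (l 16570256)))) (a (b (l 16408648) (l 16313152)) (a (b (l 16454480) (l 16341952)) (l 16322072)))) (a (b (a (b (l 16627640) (l 16550040)) (b (l 16615664) (l 16514472))) (a (l 16327128) (l 16358720))) (b (b (b (l 16529688) (l 16524624)) (l 16452144)) (b (l 16352880) (l 16251728)))))) (a (b (a (a (b (l 16428560) (l 16359912)) (b (l 16282096) (l 16224032))) (a (b (l 16234920) (l 16144144)) (l 16099040))) (a (a (b (l 16266256) (l 16169944)) (b (l 16178152) (l 16086552))) (a (b (a (l 16113512) (l 16067272)) (l 16006552)) (b (l 15996144) (a (l 15945472) (l 15902496)))))) (a (a (b (l 16011976) (l 15877872)) (b (l 15943968) (l 15814064))) (a (l 15774352) (l 15821152))))), by decide +kernel⟩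

def k1_pm_012 : ∃ t, chk3 f_pm_012 t 2 9 1 = true :=
  ⟨(a (a (b (a (l 2) (b (a (l 2) (a (l 2) (l 16176848))) (l 2))) (l 2)) (a (b (a (b (b (l 16226688) (l 16169720)) (l 16085664)) (b (a (l 16230296) (l 16241248)) (a (l 16120352) (l 16133056)))) (a (l 2) (a (l 2) (l 15934984)))) (a (a (b (l 16154840) (b (l 16017752) (l 2))) (b (l 16148720) (b (l 15992896) (l 15892536)))) (b (b (l 16149656) (l 16047576)) (b (l 15946432) (l 15847464)))))) (a (a (b (a (b (l 16072024) (l 15973408)) (b (l 15992712) (l 15897536))) (a (b (l 15875016) (l 15777968)) (b (l 15801912) (l 15706864)))) (b (a (b (l 15916616) (l 15824856)) (b (a (l 15864440) (l 15827248)) (l 15760232))) (a (b (l 15732024) (l 15639032)) (b (l 15670064) (l 15579200))))) (a (b (a (b (l 15771008) (a (l 15712904) (l 15680288))) (l 15675000)) (b (a (a (l 15631008) (l 15582144)) (l 15564544)) (a (a (l 15542288) (l 15500296)) (a (l 15477368) (l 15478112))))) (a (b (l 15638672) (l 15495136)) (b (l 15628976) (l 15490176)))))),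 by decide +kernel⟩

def k2_pm_012 : ∃ t, chk3 f_pm_012 t 3 4 1 = true :=
  ⟨(a (a (a (b (a (l 15830976) (l 15851872)) (a (l 15495136) (l 15608200))) (b (l 15887248) (l 15655664))) (b (l 15865216) (a (l 15724912) (l 15795920)))) (a (b (l 16033816) (l 15894496)) (b (l 16141544) (l 15983928)))), by decide +kernel⟩

def k3_pm_012 : ∃ t, chk3 f_pm_012 t 4 5 1 = true :=
  ⟨(a (l 2) (b (a (l 2) (b (b (a (l 2) (l 15752912)) (l 2)) (l 2))) (l 2))), by decide +kernel⟩

def k4_pm_012 : ∃ t, chk3 f_pm_012 t 10 5 1 = true :=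
  ⟨(b (b (b (a (a (a (l 15701720) (l 15666616)) (l 15614016)) (a (l 15547248) (l 15488608))) (b (a (a (l 15617736) (l 15547280)) (a (l 15480400) (l 15421792))) (a (a (l 2) (b (l 15516752) (b (l 15504192) (b (b (b (l 15500808) (l 15480344)) (l 15500168)) (l 15495312))))) (b (a (l 15449048) (l 15389752)) (b (a (l 15435384) (l 15375088)) (a (b (c (l 15412640) (l 15405232)) (l 15425200)) (b (b (b (l 15370264) (a (l 15384104) (l 15356304))) (l 15368200)) (l 15363704)))))))) (a (a (l 2) (l 15449872)) (a (a (l 15336768) (l 15305488)) (a (l 15276640) (l 15250768))))) (a (l 2) (a (l 2) (b (a (l 2) (l 15050152)) (l 2))))), by decide +kernel⟩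

def k5_pm_012 : ∃ t, chk3 f_pm_012 t 11 5 1 = true :=
  ⟨(b (b (a (b (a (b (l 15464848) (l 15420208)) (a (b (l 15438216) (l 15396096)) (l 15399824))) (b (a (a (l 15385960) (l 15366952)) (a (l 15352712) (b (l 15349376) (l 15328712)))) (b (a (l 15343328) (a (l 15319464) (l 15328616))) (b (a (a (l 15338128) (l 15318448)) (b (l 15300032) (a (l 15300656) (l 15289536)))) (b (a (b (b (l 15322312) (b (l 15321632) (l 15321256))) (l 15319624)) (b (b (l 15291504) (b (l 15290560) (a (l 15295912) (a (l 15286848) (a (l 15283520) (l 15280872)))))) (l 15288272))) (a (l 15315296) (l 15284152))))))) (a (l 15342520) (l 15342696))) (a (a (a (l 15228424) (l 15210128)) (a (l 15196392) (l 15187696))) (a (a (l 15181688) (l 15178888)) (l 15186472)))) (a (a (b (a (l 15031688) (l 15017224)) (l 2)) (b (a (l 15007280) (l 15002336)) (a (l 2) (l 14786592)))) (a (b (a (l 14981848) (a (l 14985808) (l 14988616))) (a (b (l 14860544) (l 2)) (b (l 14869864) (l 14774096)))) (b (a (l 14994104) (l 15028800))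 (a (a (b (l 14880784) (l 14786664)) (b (l 14887848) (l 14797024))) (b (l 14900464) (l 14811736))))))), by decide +kernel⟩

def k6_pm_012 : ∃ t, chk3 f_pm_012 t 3 5 1 = true :=
  ⟨(a (a (a (b (a (b (l 15368328) (l 15217456)) (l 15227984)) (a (b (l 15037248) (a (l 14858360) (l 14904680))) (b (l 15105296) (l 14943728)))) (b (b (l 15462384) (l 15324248)) (b (l 15178680) (l 15025768)))) (b (a (l 15481408) (l 15569192)) (a (b (l 15280856) (l 15138888)) (l 15317768)))) (a (b (l 15628008) (a (l 15418648) (l 15508352))) (b (l 15807040) (l 15612320)))), by decide +kernel⟩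

def k7_pm_012 : ∃ t, chk3 f_pm_012 t 1 3 1 = true :=
  ⟨(a (a (l 2) (a (l 2) (b (a (l 2) (b (a (l 2) (b (a (l 2) (a (l 2) (b (l 14727168) (l 2)))) (l 2))) (l 2))) (l 2)))) (a (a (b (a (b (a (b (a (a (l 14673472) (l 14709208)) (l 14730520)) (l 2)) (b (l 14774360) (l 120355265975))) (l 2)) (b (b (a (l 14834672) (l 14896464)) (a (l 14664288) (l 14732496))) (b (a (l 2) (l 14561952)) (l 2)))) (l 2)) (b (b (a (b (l 14990432) (l 14835704)) (l 14937912)) (a (b (l 100490941879) (l 112838619095)) (b (l 14822064) (l 14668728)))) (b (a (l 2) (b (l 14364080) (l 2))) (l 2)))) (b (a (b (a (l 15163984) (l 15272488)) (a (l 14743432) (l 15019936))) (b (l 15275832) (a (l 15130648) (l 15219768)))) (a (b (a (b (l 14674032) (l 14525680)) (l 48951366103)) (a (l 2) (b (l 14547488) (l 2)))) (b (a (l 14886256) (l 14995128)) (a (l 138608570231) (l 14765568))))))), by decide +kernel⟩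

theorem s8_pm_012 : ∃ t, chk3 f_pm_012 t 5 5 1 = true := ex3_a k4_pm_012 k5_pm_012

theorem s9_pm_012 : ∃ t, chk3 f_pm_012 t 2 5 1 = true := ex3_a k3_pm_012 s8_pm_012

theorem s10_pm_012 : ∃ t, chk3 f_pm_012 t 1 5 1 = true := ex3_a s9_pm_012 k6_pm_012

theorem s11_pm_012 : ∃ t, chk3 f_pm_012 t 2 4 1 = true := ex3_b k0_pm_012 k1_pm_012

theorem s12_pm_012 : ∃ t, chk3 f_pm_012 t 1 4 1 = true := ex3_a s11_pm_012 k2_pm_012

theorem s13_pm_012 : ∃ t, chk3 f_pm_012 t 1 2 1 = true := ex3_b s12_pm_012 s10_pm_012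

theorem s14_pm_012 : ∃ t, chk3 f_pm_012 t 1 1 1 = true := ex3_b s13_pm_012 k7_pm_012

theorem c_pm_012 : CertB 0 536870912 536870912 536870912 1033476505 6710887 3 eng mog cd0q0 cd4q1 pd2 true true false .pnp 0 1 2
    ndB0q0 ndB4q1 pcB2 cut_pm_012 Ext.none :=
  certB1 (fam := true) (s1 := true) (s2 := false) (a := 0) (b := 1) (c := 2) (cn := .pnp) (n1 := ndB0q0) (n2 := ndB4q1) (pc := pcB2) (cut := cut_pm_012) (xt := Ext.none) (P1 := 0) (W1 := 536870912) (P2 := 536870912) (W2 := 536870912) (P3 := 1033476505) (W3 := 6710887) (N0 := 3) (En := eng) (mo := mog) (C1 := cd0q0) (C2 := cd4q1) (C3 := pd2)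
    rfl (fun _ => rfl) s14_pm_012

noncomputable def f_pm_022 : ℕ → ℕ → ℕ → ℕ → Bool := onCell 0 536870912 1073741824 536870912 1033476505 6710887
    (rowB 3 eng mog cd0q0 cd4q2 pd2 1 true true false .pp 0 2 2 (qsf 0 536870912 1073741824 536870912 2) ndB0q0 ndB4q2 pcB2 Cut.none Ext.none)

def k0_pm_022 : ∃ t, chk3 f_pm_022 t 4 1 1 = true :=
  ⟨(b (b (l 3) (b (a (b (b (b (l 3) (a (l 16216560) (l 16156456))) (b (a (b (l 16235128) (l 16251312)) (b (l 16176480) (l 16195272))) (b (a (l 16273080) (l 16217688)) (a (l 16290056) (l 16232976))))) (a (l 16338216) (l 16265832))) (a (b (b (b (l 3) (a (l 16093928) (l 16037432))) (b (a (l 16124752) (b (l 16060520) (l 16083104))) (b (a (l 16158672) (l 16104568)) (a (l 16173232) (l 16119296))))) (a (l 16273024) (l 16221800))) (a (b (b (b (l 16009952) (l 16032912)) (b (b (l 16058176) (l 16081544)) (b (l 16102048) (l 16117752)))) (l 16222880)) (b (b (b (l 16056704) (l 16079240)) (b (l 16118456) (l 16152968))) (l 16275120))))) (a (a (b (l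 16153792) (l 15945168)) (b (l 16293840) (l 16027792))) (a (a (l 16139896) (l 16129088)) (a (l 16169904) (l 16237472)))))) (a (b (b (a (l 15630760) (l 15686264)) (a (l 15315288) (l 15338448))) (b (l 15106584) (l 14984672))) (b (a (b (a (l 15746032) (l 15800328)) (l 15388200)) (b (a (l 15828952) (l 15828752)) (a (l 15416904) (l 15411224)))) (a (b (l 15118544) (l 14952992)) (a (l 15024288) (l 15011240)))))), by decide +kernel⟩

def k1_pm_022 : ∃ t, chk3 f_pm_022 t 5 1 1 = true :=
  ⟨(a (a (b (b (l 3) (a (b (b (b (b (l 16111952) (l 16134952)) (b (l 16177056) (l 16170856))) (l 16336832)) (l 16191560)) (b (b (b (b (l 1) (l 16192208)) (b (l 16236984) (l 97205984183))) (l 16400016)) (l 16163440)))) (b (b (b (l 15940032) (l 15700296)) (l 15395912)) (b (l 15090376) (l 14899416)))) (b (b (l 1) (b (b (b (l 1) (b (l 1) (b (l 1) (l 157335693559)))) (l 106869865943)) (b (l 16352704) (l 16133376)))) (b (b (b (l 15923592) (l 15680896)) (l 15372488)) (b (l 15059480) (l 14861256))))) (b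 (b (l 1) (b (b (l 1) (a (l 126197435879) (l 1))) (a (b (b (l 16540688) (l 16420312)) (a (l 16203360) (l 16225728))) (b (a (b (l 1) (l 16503800)) (l 1)) (a (l 16268872) (l 16318152)))))) (b (b (a (b (l 15787080) (l 15685424)) (b (a (l 15982264) (l 16044640)) (a (l 15725752) (l 15780256)))) (a (b (l 15466616) (l 15276960)) (b (l 15519592) (l 15318600)))) (b (a (l 15046416) (l 15071624)) (a (l 14833920) (l 14838488)))))), by decide +kernel⟩

def k2_pm_022 : ∃ t, chk3 f_pm_022 t 3 1 1 = true :=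
  ⟨(b (b (l 1) (a (b (l 1) (a (a (b (l 1) (a (l 16312960) (l 1))) (l 1)) (l 1))) (l 1))) (a (a (b (b (a (a (b (l 16134288) (l 15859888)) (b (l 16239464) (l 15954072))) (b (l 183105301127) (l 119753928935))) (b (a (a (l 15615328) (l 15698552)) (a (l 15788720) (l 15886808))) (a (l 15557288) (l 15594232)))) (a (b (a (l 15132488) (l 15188704)) (l 14887696)) (b (b (l 15380816) (l 15196248)) (l 14972808)))) (b (b (a (b (l 1) (l 201358777415)) (l 1)) (a (b (l 132638708807) (a (l 15732280) (l 15833432))) (b (l 219075405847) (a (l 15941416) (l 16055832))))) (b (a (b (l 15545472) (l 15337888)) (b (a (l 15686640) (l 15788840)) (l 15610552))) (a (l 15080544) (b (l 15303136) (l 15128920)))))) (b (a (b (l 1) (a (b (l 1) (a (l 242160633623) (l 1))) (l 1))) (l 1)) (a (b (a (b (a (l 15896960) (b (l 254508634935) (l 15946904))) (a (l 15647216) (l 15771576))) (b (a (l 238939402231) (l 1)) (a (b (l 15950744) (l 15810456)) (l 146597338263)))) (a (b (a (l 15426632) (l 15515896)) (l 15272952))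 (b (a (a (l 15588808) (l 15649992)) (l 15764368)) (a (l 15397824) (l 15619368))))) (b (a (b (l 1) (a (l 224443950663) (l 1))) (l 1)) (a (b (a (l 96131230631) (l 122438222935)) (a (l 15661600) (l 15832240))) (b (a (l 205116665271) (l 1)) (a (l 84320198583) (l 102037208983))))))))), by decide +kernel⟩

theorem s3_pm_022 : ∃ t, chk3 f_pm_022 t 2 1 1 = true := ex3_a k0_pm_022 k1_pm_022

theorem s4_pm_022 : ∃ t, chk3 f_pm_022 t 1 1 1 = true := ex3_a s3_pm_022 k2_pm_022

theorem c_pm_022 : CertB 0 536870912 1073741824 536870912 1033476505 6710887 3 eng mog cd0q0 cd4q2 pd2 true true false .pp 0 2 2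
    ndB0q0 ndB4q2 pcB2 Cut.none Ext.none :=
  certB1 (fam := true) (s1 := true) (s2 := false) (a := 0) (b := 2) (c := 2) (cn := .pp) (n1 := ndB0q0) (n2 := ndB4q2) (pc := pcB2) (cut := Cut.none) (xt := Ext.none) (P1 := 0) (W1 := 536870912) (P2 := 1073741824) (W2 := 536870912) (P3 := 1033476505) (W3 := 6710887) (N0 := 3) (En := eng) (mo := mog) (C1 := cd0q0) (C2 := cd4q2) (C3 := pd2)
    rfl (fun _ => rfl) s4_pm_022

noncomputable def f_pm_023 : ℕ → ℕ → ℕ → ℕ → Bool := onCell 0 536870912 1073741824 536870912 1033476505 6710887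
    (rowB 3 eng mog cd0q0 cd4q2 pd3 0 true true false .up 0 2 3 (qsf 0 536870912 1073741824 536870912 3) ndB0q0 ndB4q2 pcB3 Cut.none Ext.none)

def k0_pm_023 : ∃ t, chk3 f_pm_023 t 1 1 1 = true :=
  ⟨(a (a (b (l 1) (a (b (l 1) (b (l 15045808) (l 15052592))) (b (a (l 1) (b (l 1) (l 14890888))) (a (b (l 14935248) (l 14958800)) (b (l 14863616) (l 14905248)))))) (b (a (l 1) (b (l 1) (b (l 1) (l 301750698967)))) (b (a (b (a (l 1) (l 14745112)) (l 14732784)) (b (a (l 14661552) (l 14627800)) (l 14601384))) (b (a (l 14772208) (l 14712520)) (a (l 14871224) (l 14871120)))))) (b (a (a (b (l 1) (a (b (l 1) (l 14849344)) (b (l 15155936) (l 14871208)))) (b (b (l 1) (a (l 1) (l 260413018999))) (b (a (l 15178592) (l 15210280)) (l 14920048)))) (b (a (b (a (l 1) (b (l 1) (l 218538023047))) (a (l 207262865047) (b (l 15731776) (l 15539784)))) (b (a (b (l 16196184) (l 15963992)) (b (l 16143816) (l 15975120))) (a (b (l 15752712) (l 15562416)) (b (l 15764112) (l 15573736))))) (a (b (a (l 15247184)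 (l 15287368)) (a (l 14978368) (l 15019856))) (b (a (b (l 15390824) (l 15241840)) (l 15327096)) (a (l 15055984) (l 15070032)))))) (a (b (a (b (a (l 14637696) (l 14668824)) (a (l 14571224) (l 14575584))) (b (l 14727736) (l 14626120))) (a (b (l 14682584) (l 14855488)) (b (l 14660488) (l 14809600)))) (b (a (b (l 14814264) (l 14708880)) (b (a (l 14876712) (l 14891512)) (a (l 14771520) (l 14792184)))) (a (b (l 14706472) (l 14787192)) (b (l 14743432) (a (l 14794288) (b (b (l 14780200) (a (l 14797784) (a (l 14799112) (l 14795496)))) (a (a (l 14824520) (b (l 14817792) (l 14838696))) (b (a (l 14816792) (l 14817968)) (a (l 14838648) (b (l 14835888) (a (l 14850760) (b (l 14849216) (b (l 14855440) (a (l 14858928) (b (l 14859144) (a (l 14860888) (b (l 14860976) (l 14862000)))))))))))))))))))), by decide +kernel⟩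

theorem c_pm_023 : CertB 0 536870912 1073741824 536870912 1033476505 6710887 3 eng mog cd0q0 cd4q2 pd3 true true false .up 0 2 3
    ndB0q0 ndB4q2 pcB3 Cut.none Ext.none :=
  certB0 (fam := true) (s1 := true) (s2 := false) (a := 0) (b := 2) (c := 3) (cn := .up) (n1 := ndB0q0) (n2 := ndB4q2) (pc := pcB3) (cut := Cut.none) (xt := Ext.none) (P1 := 0) (W1 := 536870912) (P2 := 1073741824) (W2 := 536870912) (P3 := 1033476505) (W3 := 6710887) (N0 := 3) (En := eng) (mo := mog) (C1 := cd0q0) (C2 := cd4q2) (C3 := pd3)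
    rfl k0_pm_023

noncomputable def f_pm_033 : ℕ → ℕ → ℕ → ℕ → Bool := onCell 1610612736 536870912 0 1230186008 1033476505 6710887
    (rowB 3 eng mog cd0q0 cd4q3 pd3 2 true true false .pnn 0 3 3 (qsf 0 536870912 0 1230186008 3) ndB0q0 ndB4q3 pcB3 Cut.none Ext.none)

def k0_pm_033 : ∃ t, chk3 f_pm_033 t 2 2 1 = true :=
  ⟨(l 1), by decide +kernel⟩

def k1_pm_033 : ∃ t, chk3 f_pm_033 t 2 6 1 = true :=
  ⟨(a (l 1) (b (l 1) (a (l 1) (b (l 1) (a (l 1) (b (l 1) (a (l 1) (b (l 14654496) (l 14659320))))))))), by decide +kernel⟩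

def k2_pm_033 : ∃ t, chk3 f_pm_033 t 2 7 1 = true :=
  ⟨(b (a (l 1) (a (b (a (l 1) (b (l 1) (c (l 14614520) (l 14635656)))) (b (a (l 1) (b (a (l 1) (l 14598464)) (l 14584520))) (a (l 14568576) (b (l 14569080) (l 14554520))))) (b (b (a (a (l 1) (b (l 1) (l 14650504))) (b (a (b (l 14670288) (l 14668000)) (l 14665672)) (a (l 14656984) (l 14666256)))) (a (b (a (l 14631184) (l 14631864)) (l 64454063831)) (b (a (l 14639496) (l 14653720)) (l 14628176)))) (a (b (b (l 14595336) (l 14578944)) (b (l 14561032) (a (l 14543608) (l 14531240)))) (b (a (l 14593560) (b (l 14610848) (l 14577792))) (b (a (l 14551344) (b (l 14556920) (l 14547088))) (b (a (l 14530856) (l 14544696)) (l 14509584)))))))) (a (b (a (l 1) (b (a (l 1) (b (l 14630920) (l 14634664))) (b (l 14668952) (l 14678192)))) (a (b (a (l 1) (l 14770248)) (a (l 14872712) (l 14802360))) (b (b (l 14689640) (a (l 14732536) (l 14646400))) (a (b (l 14747568) (l 14740208)) (b (l 14665824) (a (l 14822608) (l 14695312))))))) (b (a (b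 (a (b (l 14577016) (l 14584640)) (b (l 14543712) (a (l 14552864) (l 14526920)))) (a (b (l 14591912) (a (l 14611448) (l 14581696))) (b (a (l 14552192) (l 14680424)) (a (l 14581528) (l 14546208))))) (b (a (a (a (l 14494352) (l 14495216)) (b (b (l 14511992) (l 14502928)) (l 14652176))) (b (a (l 14539432) (l 14558664)) (l 14553696))) (a (b (a (l 14522200) (l 14540256)) (l 14567568)) (l 14603360)))) (a (b (a (b (l 14587392) (a (l 14628568) (l 14610016))) (b (a (l 14575456) (l 14582976)) (l 14616104))) (a (b (a (l 14649936) (l 14648360)) (l 14687584)) (l 14677224))) (b (b (l 14632528) (l 14669728)) (l 14718032)))))), by decide +kernel⟩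

def k3_pm_033 : ∃ t, chk3 f_pm_033 t 6 2 1 = true :=
  ⟨(l 1), by decide +kernel⟩

def k4_pm_033 : ∃ t, chk3 f_pm_033 t 6 6 1 = true :=
  ⟨(b (a (l 1) (a (b (l 1) (b (a (l 1) (l 14743960)) (a (l 14688000) (l 14736880)))) (b (a (b (l 1) (a (l 1) (l 14825696))) (b (l 14874560) (l 14909088))) (b (a (l 14803832) (a (l 14863504) (l 14912896))) (a (l 14820128) (l 14892464)))))) (a (b (a (b (l 1) (a (l 1) (b (l 1) (l 14650408)))) (b (b (l 14646840) (l 14649136)) (b (l 14653896) (l 14660104)))) (a (a (b (b (l 1) (l 14650184)) (b (l 14655432) (l 14661560))) (b (b (l 14654528) (l 14660168)) (b (l 14666192) (l 14672424)))) (b (a (b (l 14674016) (l 14680088)) (b (l 14703648) (l 14708664))) (a (l 14688192) (l 14709552))))) (b (a (b (b (l 14741856) (l 14748928)) (b (l 14755496) (l 14759752))) (b (l 14822704) (a (l 14831496) (b (l 14877696) (l 14864072))))) (a (b (a (l 14741512) (b (l 14780176) (l 14743408))) (a (a (b (l 14728992) (l 14714472)) (l 14706904)) (b (a (l 14745600) (l 14759272))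 (l 14747304)))) (b (a (b (l 14789016) (l 14806416)) (b (l 14863232) (l 14867464))) (a (b (l 14799928) (l 14818152)) (l 14917744))))))), by decide +kernel⟩

def k5_pm_033 : ∃ t, chk3 f_pm_033 t 6 7 1 = true :=
  ⟨(b (a (b (a (b (a (b (l 14668168) (l 14674544)) (l 14679072)) (a (b (l 14668392) (l 14645600)) (a (b (l 14675336) (l 14648144)) (b (l 14670304) (l 14651552))))) (b (a (b (l 14688816) (a (l 14681768) (l 14678840))) (a (l 14664016) (b (l 14695320) (l 14687552)))) (a (b (a (l 14667768) (l 14669784)) (l 14646104)) (b (l 14667744) (l 14708088))))) (a (b (a (b (l 14610584) (a (l 14585032) (l 14590488))) (b (l 14611024) (l 14600816))) (b (a (a (l 14570000) (l 14595816)) (l 14638824)) (l 14621664))) (b (a (b (l 14672224) (l 14692632)) (l 14758728)) (l 14752192)))) (b (a (b (a (b (l 14694448) (l 14719800)) (b (l 14763728) (l 14801160))) (a (l 14771984) (l 14852176))) (b (a (l 14878208) (l 14988352)) (l 14999552))) (a (b (l 14880200) (l 14910984)) (b (l 15048976) (l 15056520)))))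 (b (a (b (a (l 14644576) (l 14768144)) (a (l 14680864) (l 14765584))) (b (a (l 14892896) (l 14985848)) (a (l 14826424) (l 14872544)))) (a (b (l 14634456) (l 14743616)) (b (a (l 14770064) (l 14755472)) (l 14704792))))), by decide +kernel⟩

def k6_pm_033 : ∃ t, chk3 f_pm_033 t 7 2 1 = true :=
  ⟨(a (b (l 1) (b (l 4) (a (b (l 1) (a (l 345774789303) (l 14806392))) (l 4)))) (l 4)), by decide +kernel⟩

def k7_pm_033 : ∃ t, chk3 f_pm_033 t 7 3 1 = true :=
  ⟨(a (b (b (a (b (a (b (l 14893176) (l 14996840)) (b (l 14938376) (l 15022568))) (a (b (l 14903744) (a (l 14953952) (l 14997480))) (b (l 15073472) (a (l 15039864) (l 15064304))))) (b (a (a (l 15021256) (l 15048632)) (l 4)) (a (b (a (l 15099688) (l 15095296)) (a (l 15083848) (l 15109184))) (b (a (l 15101048) (l 4)) (a (l 15120048) (l 15154448)))))) (b (a (b (a (b (l 14960960) (l 14942704)) (b (l 15018768) (a (l 14990072) (l 15032376)))) (a (b (l 14940112) (l 14930336)) (b (l 15021864) (l 15054120)))) (a (b (a (l 15082880) (l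 15134672)) (l 15180296)) (b (l 15225048) (l 15318240)))) (a (b (a (b (l 14948448) (l 14987776)) (l 15104576)) (a (l 15037112) (l 15174808))) (a (b (l 15256072) (l 15315696)) (b (l 15399376) (l 15457440)))))) (b (b (a (b (l 15167944) (l 15207416)) (b (l 15415816) (l 15384568))) (a (b (l 15209176) (l 15139648)) (b (l 15325856) (l 15221312)))) (b (b (a (l 15051408) (l 15060408)) (l 14910336)) (l 14722024)))) (a (b (b (b (l 4) (l 4)) (a (b (a (l 15349352) (l 15420160)) (b (l 15513120) (l 15570176))) (b (l 69488185943) (l 15504872)))) (b (a (b (b (l 15574760) (l 15505024)) (l 15344128)) (b (b (l 15607296) (l 15521096)) (l 15308016))) (a (b (l 15003168) (l 14717152)) (b (a (l 15008848) (l 15006056)) (l 14510760))))) (a (b (b (l 4) (b (l 4) (a (l 15693056) (l 4)))) (b (b (a (l 15572944) (l 15589784)) (l 15272048)) (b (l 14984744) (l 14724768)))) (b (l 4) (b (a (b (l 4) (l 15307648)) (a (l 15252344) (l 4))) (a (b (l 14994768) (l 14725584)) (b (a (l 14995320) (a (l 14989808) (a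 (l 14985944) (l 14979864)))) (a (l 14728512) (a (l 14730056) (a (l 14730712) (l 14731184))))))))))), by decide +kernel⟩

theorem s8_pm_033 : ∃ t, chk3 f_pm_033 t 7 1 1 = true := ex3_b k6_pm_033 k7_pm_033

theorem s9_pm_033 : ∃ t, chk3 f_pm_033 t 6 3 1 = true := ex3_b k4_pm_033 k5_pm_033

theorem s10_pm_033 : ∃ t, chk3 f_pm_033 t 6 1 1 = true := ex3_b k3_pm_033 s9_pm_033

theorem s11_pm_033 : ∃ t, chk3 f_pm_033 t 3 1 1 = true := ex3_a s10_pm_033 s8_pm_033

theorem s12_pm_033 : ∃ t, chk3 f_pm_033 t 2 3 1 = true := ex3_b k1_pm_033 k2_pm_033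

theorem s13_pm_033 : ∃ t, chk3 f_pm_033 t 2 1 1 = true := ex3_b k0_pm_033 s12_pm_033

theorem s14_pm_033 : ∃ t, chk3 f_pm_033 t 1 1 1 = true := ex3_a s13_pm_033 s11_pm_033

theorem c_pm_033 : CertB 0 536870912 0 1230186008 1033476505 6710887 3 eng mog cd0q0 cd4q3 pd3 true true false .pnn 0 3 3
    ndB0q0 ndB4q3 pcB3 Cut.none Ext.none :=
  certB2 (fam := true) (s1 := true) (s2 := false) (a := 0) (b := 3) (c := 3) (cn := .pnn) (n1 := ndB0q0) (n2 := ndB4q3) (pc := pcB3) (cut := Cut.none) (xt := Ext.none) (P1 := 0) (W1 := 536870912) (P2 := 0) (W2 := 1230186008) (P3 := 1033476505) (W3 := 6710887) (N0 := 3) (En := eng) (mo := mog) (C1 := cd0q0) (C2 := cd4q3) (C3 := pd3)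
    rfl (fun _ => rfl) s14_pm_033

noncomputable def f_pm_101 : ℕ → ℕ → ℕ → ℕ → Bool := onCell 536870912 536870912 536870912 536870912 1033476505 6710887
    (rowB 3 eng mog cd0q1 cd4q0 pd1 1 true true false .npn 1 0 1 (qsf 536870912 536870912 0 536870912 1) ndB0q1 ndB4q0 pcB1 Cut.none Ext.none)

def k0_pm_101 : ∃ t, chk3 f_pm_101 t 2 2 1 = true :=
  ⟨(a (l 3) (b (a (b (l 1) (l 3)) (l 1)) (l 3))), by decide +kernel⟩

def k1_pm_101 : ∃ t, chk3 f_pm_101 t 2 6 1 = true :=
  ⟨(b (a (b (l 3) (a (l 3) (b (a (l 3) (a (l 3) (a (l 3) (b (l 3) (l 290613773463))))) (a (b (l 3) (a (b (l 3) (l 280950393719)) (b (l 289540207495) (l 290077167559)))) (b (a (b (l 263233473831) (a (l 284171473735) (l 315846833159))) (b (a (l 299740653863) (l 16211640)) (l 16230456))) (a (b (l 16272656) (l 16280872)) (l 16243784))))))) (a (b (a (l 3) (b (l 3) (b (l 3) (a (l 324973208247) (b (l 341616157799) (l 311014539639)))))) (a (b (b (a (l 3) (b (l 303498488551) (l 330342097799))) (a (b (a (l 290613725959)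 (l 294908667287)) (l 321215406215)) (b (l 16127336) (l 16139824)))) (b (a (l 16191496) (l 16156152)) (l 16191584))) (b (b (a (b (l 301887837879) (l 16077464)) (l 16032256)) (l 16067776)) (l 16108912)))) (b (a (b (a (l 3) (l 386176088247)) (a (b (l 363090870199) (l 15961600)) (b (l 296518791447) (l 15921384)))) (b (a (l 263232641159) (l 258400588727)) (a (l 15863368) (l 15821512)))) (a (b (a (l 16006344) (l 15965328)) (l 16027600)) (b (l 15901752) (l 15941176)))))) (a (b (a (b (a (a (l 3) (l 279876857751)) (b (a (l 3) (b (l 272897404743) (l 264307449671))) (a (l 306720334887) (l 16394776)))) (a (a (l 313162924999) (l 238537807543)) (b (l 16414664) (l 16414088)))) (b (a (b (a (l 292224674759) (l 16323232)) (l 16348400)) (l 16278808)) (a (l 16352184) (l 16284432)))) (a (b (a (l 16461752) (l 16402192)) (l 16299344)) (b (l 16219176) (l 16253040)))) (b (a (a (b (l 16208232) (l 16212080)) (l 16136120)) (a (l 16053104) (l 15964736))) (a (a (l 16171832) (l 16094504)) (a (l 16012112)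 (l 15925160)))))), by decide +kernel⟩

def k2_pm_101 : ∃ t, chk3 f_pm_101 t 2 7 1 = true :=
  ⟨(b (a (b (a (b (l 16295408) (l 16185560)) (l 15889136)) (a (l 15839032) (l 15905424))) (b (a (l 15921264) (l 15839208)) (a (l 15695760) (l 15685184)))) (a (b (a (b (l 15846696) (l 15763288)) (b (l 15760904) (l 15680840))) (a (l 15637912) (l 15566040))) (a (b (l 15635920) (l 15502192)) (l 15490856)))), by decide +kernel⟩

def k3_pm_101 : ∃ t, chk3 f_pm_101 t 3 1 1 = true :=
  ⟨(b (a (b (l 1) (a (a (a (b (l 1) (l 3)) (l 1)) (l 1)) (l 1))) (l 1)) (a (b (b (a (b (a (b (a (l 279875335831) (l 15666128)) (l 15757520)) (l 562134735575)) (a (l 15833648) (l 15740176))) (a (b (l 1) (l 15643584)) (l 1))) (a (b (a (l 15871936) (l 15772760)) (l 15680624)) (b (a (l 15666632) (l 260412978615)) (a (l 15649048) (l 15548472))))) (b (a (b (l 15698344) (l 15585656)) (a (l 15579064) (l 15547088))) (a (l 15410416) (a (l 15381976) (l 15398480))))) (b (a (b (l 1) (a (b (l 1) (l 534754806039)) (l 1)))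 (l 1)) (a (a (b (l 126196283863) (l 15457488)) (b (a (b (l 15566680) (l 15583736)) (b (l 1) (l 15881640))) (b (l 15610296) (l 15505304)))) (a (b (a (b (l 1) (a (l 16223904) (l 1))) (l 1)) (a (b (l 15951920) (l 15580472)) (b (l 141229167271) (l 15710072)))) (b (l 1) (a (b (l 15932624) (l 15688328)) (b (l 1) (l 15671056))))))))), by decide +kernel⟩

theorem s4_pm_101 : ∃ t, chk3 f_pm_101 t 2 3 1 = true := ex3_b k1_pm_101 k2_pm_101

theorem s5_pm_101 : ∃ t, chk3 f_pm_101 t 2 1 1 = true := ex3_b k0_pm_101 s4_pm_101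

theorem s6_pm_101 : ∃ t, chk3 f_pm_101 t 1 1 1 = true := ex3_a s5_pm_101 k3_pm_101

theorem c_pm_101 : CertB 536870912 536870912 0 536870912 1033476505 6710887 3 eng mog cd0q1 cd4q0 pd1 true true false .npn 1 0 1
    ndB0q1 ndB4q0 pcB1 Cut.none Ext.none :=
  certB1 (fam := true) (s1 := true) (s2 := false) (a := 1) (b := 0) (c := 1) (cn := .npn) (n1 := ndB0q1) (n2 := ndB4q0) (pc := pcB1) (cut := Cut.none) (xt := Ext.none) (P1 := 536870912) (W1 := 536870912) (P2 := 0) (W2 := 536870912) (P3 := 1033476505) (W3 := 6710887) (N0 := 3) (En := eng) (mo := mog) (C1 := cd0q1) (C2 := cd4q0) (C3 := pd1)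
    rfl (fun _ => rfl) s6_pm_101

noncomputable def f_pm_102 : ℕ → ℕ → ℕ → ℕ → Bool := onCell 536870912 536870912 1073741824 536870912 1033476505 6710887
    (rowB 3 eng mog cd0q1 cd4q0 pd2 1 true true false .npp 1 0 2 (qsf 536870912 536870912 0 536870912 2) ndB0q1 ndB4q0 pcB2 Cut.none Ext.none)

def k0_pm_102 : ∃ t, chk3 f_pm_102 t 2 1 1 = true :=
  ⟨(b (a (b (b (a (l 15763784) (l 15741912)) (l 89218727431)) (a (l 2) (l 15681448))) (b (a (b (l 15717728) (l 15704632)) (b (l 15690368) (l 15678288))) (a (l 15633240) (l 15580336)))) (a (l 2) (b (a (l 2) (l 15428336)) (l 2)))), by decide +kernel⟩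

def k1_pm_102 : ∃ t, chk3 f_pm_102 t 3 1 1 = true :=
  ⟨(b (a (a (b (b (l 15557000) (l 15651136)) (l 15476424)) (b (a (b (l 15677440) (l 15668424)) (b (b (l 15704632) (l 15749576)) (l 15725280))) (a (l 15499224) (l 15522544)))) (a (b (a (b (b (l 15845104) (l 15902568)) (l 15864800)) (b (a (b (l 15974040) (l 16021480)) (b (l 16036360) (l 15919408))) (a (l 15807800) (l 15667448)))) (a (b (l 15700008) (l 15478064)) (b (a (l 15516688) (l 15353232)) (l 15165832)))) (a (b (a (b (b (a (l 16003944) (l 15962816)) (a (l 15829560) (l 15777584))) (a (l 15562744) (l 15501472))) (b (b (a (l 15947936) (l 15947520)) (a (l 15754984) (l 15747392))) (b (l 15554600) (l 15365632)))) (a (b (l 15190648) (l 14892816)) (b (l 15097464) (l 14775320)))) (b (b (b (b (a (b (l 16005200) (l 15956168)) (b (a (b (l 15998968) (l 15973104)) (a (l 15977424) (l 15972200))) (a (l 15932032) (a (l 15920936) (l 15914896))))) (a (l 15877512) (a (l 15849080) (l 15832192)))) (a (l 15719400) (b (l 15727928) (l 15616384))))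 (a (b (l 15511688) (l 15309792)) (b (l 15450976) (l 15235480)))) (b (a (l 15022088) (l 14927136)) (l 14613264)))))) (a (b (a (l 15303880) (a (l 15225696) (l 15201688))) (a (l 2) (a (l 2) (l 15005440)))) (a (b (a (l 15213088) (b (l 14946520) (l 14780800))) (b (a (l 15031856) (b (l 14726128) (l 14766768))) (a (l 2) (l 14996296)))) (b (a (b (a (l 14643656) (l 14502800)) (a (l 14476576) (b (l 14361328) (l 14380472)))) (b (b (l 14390280) (a (l 14332192) (l 14268424))) (a (l 14366240) (l 14386208)))) (a (b (a (l 14573032) (l 14574472)) (l 14906824)) (b (l 14641680) (l 14997040))))))), by decide +kernel⟩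

theorem s2_pm_102 : ∃ t, chk3 f_pm_102 t 1 1 1 = true := ex3_a k0_pm_102 k1_pm_102

theorem c_pm_102 : CertB 536870912 536870912 0 536870912 1033476505 6710887 3 eng mog cd0q1 cd4q0 pd2 true true false .npp 1 0 2
    ndB0q1 ndB4q0 pcB2 Cut.none Ext.none :=
  certB1 (fam := true) (s1 := true) (s2 := false) (a := 1) (b := 0) (c := 2) (cn := .npp) (n1 := ndB0q1) (n2 := ndB4q0) (pc := pcB2) (cut := Cut.none) (xt := Ext.none) (P1 := 536870912) (W1 := 536870912) (P2 := 0) (W2 := 536870912) (P3 := 1033476505) (W3 := 6710887) (N0 := 3) (En := eng) (mo := mog) (C1 := cd0q1) (C2 := cd4q0) (C3 := pd2)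
    rfl (fun _ => rfl) s2_pm_102

noncomputable def f_pm_112 : ℕ → ℕ → ℕ → ℕ → Bool := onCell 536870912 536870912 1073741824 536870912 1033476505 6710887
    (rowB 3 eng mog cd0q1 cd4q1 pd2 1 true true false .dn 1 1 2 (qsf 536870912 536870912 536870912 536870912 2) ndB0q1 ndB4q1 pcB2 Cut.none Ext.none)

def k0_pm_112 : ∃ t, chk3 f_pm_112 t 1 1 1 = true :=
  ⟨(a (b (a (b (a (b (l 16158872) (l 16030064)) (l 527775727927)) (a (l 15791352) (l 15835416))) (b (a (l 508985082711) (l 1)) (a (l 15747128) (l 498783812551)))) (a (b (a (b (l 15520696) (l 15327808)) (l 15299672)) (a (b (l 14981992) (a (l 14877464) (l 14972976))) (b (l 15250376) (l 15079368)))) (b (a (l 15500952) (l 15322256)) (a (b (l 15280848) (l 15124960)) (l 14946816))))) (b (a (a (b (l 1) (l 478919347991)) (l 1)) (l 1)) (a (b (a (l 15145808) (a (l 15035640) (l 14986464))) (a (l 14770936) (a (l 14627832) (l 14573944)))) (b (a (a (l 652327379095) (l 1)) (l 1)) (a (b (a (l 14557008) (l 630314538951)) (a (l 14479896)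 (l 14390600))) (a (b (l 686685761575) (l 14392088)) (b (l 1) (l 14557352)))))))), by decide +kernel⟩

theorem c_pm_112 : CertB 536870912 536870912 536870912 536870912 1033476505 6710887 3 eng mog cd0q1 cd4q1 pd2 true true false .dn 1 1 2
    ndB0q1 ndB4q1 pcB2 Cut.none Ext.none :=
  certB1 (fam := true) (s1 := true) (s2 := false) (a := 1) (b := 1) (c := 2) (cn := .dn) (n1 := ndB0q1) (n2 := ndB4q1) (pc := pcB2) (cut := Cut.none) (xt := Ext.none) (P1 := 536870912) (W1 := 536870912) (P2 := 536870912) (W2 := 536870912) (P3 := 1033476505) (W3 := 6710887) (N0 := 3) (En := eng) (mo := mog) (C1 := cd0q1) (C2 := cd4q1) (C3 := pd2)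
    rfl (fun _ => rfl) k0_pm_112

noncomputable def f_pm_113 : ℕ → ℕ → ℕ → ℕ → Bool := onCell 536870912 536870912 1610612736 536870912 1033476505 6710887
    (rowB 3 eng mog cd0q1 cd4q1 pd3 1 true true false .nn 1 1 3 (qsf 536870912 536870912 536870912 536870912 3) ndB0q1 ndB4q1 pcB3 Cut.none Ext.none)

def k0_pm_113 : ∃ t, chk3 f_pm_113 t 2 1 1 = true :=
  ⟨(b (b (a (a (b (a (b (l 14748008) (l 14558928)) (l 14636432)) (b (l 14222264) (l 2))) (b (a (l 14940448) (l 15002376)) (a (l 165989514599) (l 14732320)))) (a (b (a (l 14919408) (l 14791240)) (a (l 14784768) (l 14659056))) (b (l 14536016) (a (l 14534408) (l 14405072))))) (a (b (a (l 2) (a (l 2) (l 118207390343))) (l 2)) (b (a (a (l 82237150887) (l 14515040)) (b (l 14400112) (a (l 14426136) (a (l 14342728) (l 14313664))))) (a (b (l 43045048663) (l 2)) (b (a (b (l 14403632) (l 14404864)) (a (b (l 14351128) (l 14413680)) (l 14440200))) (a (a (l 2) (l 14290032)) (l 14339736))))))) (a (l 2) (b (b (a (l 2) (b (a (l 2) (l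 13951600)) (l 2))) (l 2)) (l 2)))), by decide +kernel⟩

def k1_pm_113 : ∃ t, chk3 f_pm_113 t 3 1 1 = true :=
  ⟨(b (a (b (a (b (l 14336016) (a (l 14292064) (b (l 14197808) (l 14233576)))) (b (a (l 14209016) (b (l 14215440) (l 14340152))) (a (b (l 14245768) (l 14432064)) (l 14618160)))) (a (b (b (a (a (l 14261152) (l 14255848)) (l 14387232)) (a (l 14274120) (l 14559688))) (b (a (l 14498928) (l 14455528)) (a (l 14287936) (l 14277000)))) (b (a (l 14608552) (l 14681104)) (b (a (l 14493456) (l 14600200)) (a (l 14345912) (l 14471568)))))) (a (b (b (a (l 14491064) (l 14495320)) (a (l 14681656) (l 14703352))) (b (a (l 14759224) (b (l 14788480) (l 14751776))) (b (a (l 14676784) (l 4)) (l 4)))) (b (b (a (l 14555056) (l 14791112)) (a (b (l 14742888) (l 14817944)) (b (l 14938272) (l 14916424)))) (b (a (b (l 14801928) (l 4)) (l 4)) (l 4))))) (a (b (b (a (b (a (l 13989848) (l 14038320)) (a (l 408652681767) (b (l 13843112) (l 13732168)))) (b (a (l 14157664) (l 4)) (l 4))) (a (a (l 2)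 (l 4)) (l 4))) (l 4)) (l 4))), by decide +kernel⟩

theorem s2_pm_113 : ∃ t, chk3 f_pm_113 t 1 1 1 = true := ex3_a k0_pm_113 k1_pm_113

theorem c_pm_113 : CertB 536870912 536870912 536870912 536870912 1033476505 6710887 3 eng mog cd0q1 cd4q1 pd3 true true false .nn 1 1 3
    ndB0q1 ndB4q1 pcB3 Cut.none Ext.none :=
  certB1 (fam := true) (s1 := true) (s2 := false) (a := 1) (b := 1) (c := 3) (cn := .nn) (n1 := ndB0q1) (n2 := ndB4q1) (pc := pcB3) (cut := Cut.none) (xt := Ext.none) (P1 := 536870912) (W1 := 536870912) (P2 := 536870912) (W2 := 536870912) (P3 := 1033476505) (W3 := 6710887) (N0 := 3) (En := eng) (mo := mog) (C1 := cd0q1) (C2 := cd4q1) (C3 := pd3)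
    rfl (fun _ => rfl) s2_pm_113

end Pool.Agent.Strip051.G.I9625_9688.Tab.C.BA04

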