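import Pool.Agent.Strip051.G.I9625_9688.Gn
import Pool.Agent.Strip051.PB.Corns
import Pool.Agent.Strip051.PB.CornW

/-! # Certificates of the aligned corners (generated) -/

set_option linter.all false

namespace Pool.Agent.Strip051.G.I9625_9688.Tab.CG

open Pool.Agent.Strip051.PB

def B012E_200_1_8_1 :
    ∃ t, chk3 (onCell 0 22369621 0 1073741824 1033476505 6710887 (corT true 1 c0B cB012E gB2q0 gB0q2 gB0q1 gB1q1 true false)) t 1 8 1 = true :=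
  ⟨(T.l 1), by decide +kernel⟩

def B012E_200_1_18_1 :
    ∃ t, chk3 (onCell 0 22369621 0 1073741824 1033476505 6710887 (corT true 1 c0B cB012E gB2q0 gB0q2 gB0q1 gB1q1 true false)) t 1 18 1 = true :=
  ⟨(T.l 1), by decide +kernel⟩

def B012E_200_1_152_1 :
    ∃ t, chk3 (onCell 0 22369621 0 1073741824 1033476505 6710887 (corT true 1 c0B cB012E gB2q0 gB0q2 gB0q1 gB1q1 true false)) t 1 152 1 = true :=
  ⟨(T.l 1), by decide +kernel⟩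

def B012E_200_1_306_1 :
    ∃ t, chk3 (onCell 0 22369621 0 1073741824 1033476505 6710887 (corT true 1 c0B cB012E gB2q0 gB0q2 gB0q1 gB1q1 true false)) t 1 306 1 = true :=
  ⟨(T.a (T.l 1) (T.a (T.l 1) (T.l 1))), by decide +kernel⟩

def B012E_200_2_1228_1 :
    ∃ t, chk3 (onCell 0 22369621 0 1073741824 1033476505 6710887 (corT true 1 c0B cB012E gB2q0 gB0q2 gB0q1 gB1q1 true false)) t 2 1228 1 = true :=
  ⟨(T.b (T.a (T.l 1) (T.a (T.l 1) (T.b (T.l 1) (T.b (T.l 1) (T.b (T.l 1) (T.a (T.c (T.l 748) (T.a (T.l 1) (T.l 748))) (T.c (T.l 748) (T.c (T.l 748) (T.l 748))))))))) (T.a (T.c (T.l 204) (T.a (T.l 204) (T.l 204))) (T.b (T.a (T.b (T.a (T.c (T.l 236) (T.l 236)) (T.b (T.a (T.l 1) (T.c (T.l 236) (T.l 748))) (T.a (T.c (T.l 236) (T.l 748)) (T.c (T.l 236) (T.l 748))))) (T.a (T.c (T.l 236) (T.l 236)) (T.b (T.a (T.c (T.l 236) (T.l 748)) (T.c (T.l 236) (T.l 748)))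 (T.a (T.c (T.l 236) (T.l 748)) (T.c (T.l 236) (T.l 748)))))) (T.b (T.a (T.c (T.l 748) (T.a (T.l 748) (T.l 748))) (T.c (T.l 748) (T.c (T.l 748) (T.l 748)))) (T.a (T.c (T.l 748) (T.a (T.l 748) (T.l 748))) (T.c (T.l 748) (T.c (T.l 748) (T.l 748)))))) (T.a (T.b (T.a (T.c (T.l 236) (T.l 236)) (T.b (T.a (T.c (T.l 236) (T.l 748)) (T.c (T.l 236) (T.l 748))) (T.a (T.c (T.l 236) (T.l 236)) (T.c (T.l 236) (T.l 748))))) (T.a (T.c (T.l 236) (T.l 236)) (T.b (T.a (T.c (T.l 236) (T.l 236)) (T.c (T.l 236) (T.l 748))) (T.a (T.c (T.l 236) (T.l 236)) (T.c (T.l 236) (T.l 748)))))) (T.b (T.a (T.c (T.l 748) (T.a (T.l 748) (T.l 748))) (T.c (T.l 748) (T.c (T.l 748) (T.l 748)))) (T.a (T.c (T.l 748) (T.a (T.l 748) (T.l 748))) (T.c (T.l 748) (T.c (T.l 748) (T.l 748))))))))), by decide +kernel⟩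

def B012E_200_6_2456_1 :
    ∃ t, chk3 (onCell 0 22369621 0 1073741824 1033476505 6710887 (corT true 1 c0B cB012E gB2q0 gB0q2 gB0q1 gB1q1 true false)) t 6 2456 1 = true :=
  ⟨(T.b (T.a (T.l 1) (T.a (T.l 1) (T.a (T.l 1) (T.c (T.l 236) (T.l 236))))) (T.a (T.b (T.a (T.l 1) (T.c (T.l 748) (T.a (T.l 748) (T.l 748)))) (T.a (T.b (T.a (T.c (T.l 748) (T.l 748)) (T.c (T.l 748) (T.l 748))) (T.a (T.c (T.l 748) (T.l 748)) (T.c (T.l 748) (T.l 748)))) (T.c (T.l 748) (T.a (T.l 748) (T.l 748))))) (T.b (T.a (T.b (T.a (T.l 1) (T.c (T.l 748) (T.l 748))) (T.a (T.c (T.l 748) (T.l 748)) (T.c (T.l 748) (T.l 748)))) (T.b (T.a (T.c (T.l 236) (T.l 236)) (T.c (T.l 236) (T.l 236))) (T.a (T.c (T.l 236) (T.l 236)) (T.c (T.l 236) (T.l 236))))) (T.a (T.b (T.a (T.c (T.l 748) (T.l 748)) (T.c (T.l 748) (T.l 748))) (T.c (T.c (T.l 748) (T.l 748)) (T.a (T.l 748) (T.l 748)))) (T.c (T.c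 (T.l 236) (T.l 236)) (T.c (T.l 236) (T.l 748))))))), by decide +kernel⟩

def B012E_200_14_4912_1 :
    ∃ t, chk3 (onCell 0 22369621 0 1073741824 1033476505 6710887 (corT true 1 c0B cB012E gB2q0 gB0q2 gB0q1 gB1q1 true false)) t 14 4912 1 = true :=
  ⟨(T.b (T.l 1) (T.a (T.b (T.l 1) (T.a (T.c (T.l 236) (T.l 236)) (T.c (T.l 236) (T.l 236)))) (T.b (T.a (T.b (T.l 1) (T.c (T.c (T.l 236) (T.l 236)) (T.c (T.l 236) (T.l 236)))) (T.b (T.b (T.l 1) (T.c (T.c (T.l 236) (T.l 236)) (T.c (T.l 236) (T.l 236)))) (T.c (T.c (T.l 236) (T.l 236)) (T.c (T.l 236) (T.l 236))))) (T.a (T.c (T.l 236) (T.c (T.l 236) (T.l 236))) (T.b (T.c (T.c (T.l 236) (T.l 236)) (T.c (T.l 236) (T.l 236))) (T.c (T.c (T.l 236) (T.l 236)) (T.c (T.l 236) (T.l 236)))))))), by decide +kernel⟩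

def B012E_200_15_9824_1 :
    ∃ t, chk3 (onCell 0 22369621 0 1073741824 1033476505 6710887 (corT true 1 c0B cB012E gB2q0 gB0q2 gB0q1 gB1q1 true false)) t 15 9824 1 = true :=
  ⟨(T.a (T.b (T.l 1) (T.a (T.a (T.l 1) (T.b (T.l 1) (T.b (T.l 1) (T.c (T.c (T.l 236) (T.l 236)) (T.c (T.l 236) (T.l 236)))))) (T.b (T.a (T.l 1) (T.a (T.l 1) (T.b (T.l 1) (T.b (T.l 1) (T.c (T.c (T.l 236) (T.l 236)) (T.c (T.l 236) (T.l 236))))))) (T.c (T.c (T.l 236) (T.l 236)) (T.c (T.l 236) (T.c (T.l 236) (T.l 236))))))) (T.b (T.b (T.l 1) (T.a (T.a (T.l 1) (T.a (T.l 1) (T.a (T.l 1) (T.b (T.l 1) (T.b (T.l 1) (T.b (T.l 1) (T.c (T.c (T.l 236) (T.l 236)) (T.c (T.l 236) (T.l 236))))))))) (T.c (T.c (T.l 236) (T.l 236)) (T.c (T.l 236) (T.c (T.l 236) (T.l 236)))))) (T.a (T.b (T.c (T.c (T.l 236) (T.l 236)) (T.c (T.l 236) (T.c (T.l 236) (T.l 236)))) (T.c (T.c (T.l 236) (T.l 236)) (T.c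 (T.l 236) (T.c (T.l 236) (T.l 236))))) (T.b (T.c (T.c (T.l 236) (T.l 236)) (T.c (T.l 236) (T.c (T.l 236) (T.l 236)))) (T.c (T.c (T.l 236) (T.l 236)) (T.c (T.l 236) (T.c (T.l 236) (T.l 236)))))))), by decide +kernel⟩

def B012E_200_15_9825_1 :
    ∃ t, chk3 (onCell 0 22369621 0 1073741824 1033476505 6710887 (corT true 1 c0B cB012E gB2q0 gB0q2 gB0q1 gB1q1 true false)) t 15 9825 1 = true :=
  ⟨(T.a (T.b (T.a (T.b (T.c (T.c (T.l 236) (T.l 236)) (T.a (T.c (T.l 236) (T.l 236)) (T.c (T.l 236) (T.l 236)))) (T.c (T.c (T.l 236) (T.l 236)) (T.c (T.c (T.l 236) (T.l 236)) (T.c (T.l 236) (T.l 236))))) (T.b (T.c (T.c (T.l 236) (T.l 236)) (T.c (T.l 236) (T.c (T.l 236) (T.l 236)))) (T.c (T.c (T.l 236) (T.l 236)) (T.c (T.l 236) (T.c (T.l 236) (T.l 236)))))) (T.a (T.b (T.c (T.c (T.l 236) (T.l 236)) (T.c (T.l 236) (T.c (T.l 236) (T.l 236)))) (T.c (T.c (T.l 236) (T.l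 236)) (T.c (T.l 236) (T.c (T.l 236) (T.l 236))))) (T.b (T.c (T.c (T.l 236) (T.l 236)) (T.c (T.l 236) (T.l 236))) (T.c (T.c (T.l 236) (T.l 236)) (T.c (T.l 236) (T.l 236)))))) (T.b (T.a (T.b (T.c (T.c (T.l 236) (T.l 236)) (T.c (T.l 236) (T.c (T.l 236) (T.l 236)))) (T.c (T.c (T.l 236) (T.l 236)) (T.c (T.l 236) (T.l 236)))) (T.b (T.c (T.c (T.l 236) (T.l 236)) (T.c (T.l 236) (T.l 236))) (T.c (T.c (T.l 236) (T.l 236)) (T.c (T.l 236) (T.l 236))))) (T.a (T.c (T.c (T.l 236) (T.l 236)) (T.c (T.l 236) (T.l 236))) (T.c (T.c (T.l 236) (T.l 236)) (T.c (T.l 236) (T.l 236)))))), by decide +kernel⟩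

def B012E_200_14_4913_1 :
    ∃ t, chk3 (onCell 0 22369621 0 1073741824 1033476505 6710887 (corT true 1 c0B cB012E gB2q0 gB0q2 gB0q1 gB1q1 true false)) t 14 4913 1 = true :=
  ⟨(T.b (T.a (T.b (T.a (T.c (T.l 236) (T.l 236)) (T.c (T.l 236) (T.l 236))) (T.a (T.c (T.l 236) (T.l 236)) (T.c (T.l 236) (T.l 236)))) (T.b (T.a (T.c (T.l 236) (T.c (T.l 236) (T.l 236))) (T.c (T.c (T.l 236) (T.l 236)) (T.c (T.l 236) (T.l 236)))) (T.a (T.c (T.l 236) (T.c (T.l 236) (T.l 236))) (T.c (T.c (T.l 236) (T.l 236)) (T.c (T.l 236) (T.l 236)))))) (T.a (T.b (T.a (T.c (T.l 236) (T.l 236)) (T.c (T.l 236) (T.l 236))) (T.a (T.c (T.l 236) (T.l 236)) (T.c (T.l 236) (T.l 236)))) (T.b (T.a (T.c (T.l 236) (T.c (T.l 236) (T.l 236))) (T.c (T.c (T.l 236) (T.l 236)) (T.c (T.l 236) (T.l 236)))) (T.a (T.c (T.l 236) (T.c (T.l 236) (T.l 236))) (T.c (T.c (T.l 236) (T.l 236)) (T.c (T.l 236)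 (T.l 236))))))), by decide +kernel⟩

def B012E_200_15_4913_1 :
    ∃ t, chk3 (onCell 0 22369621 0 1073741824 1033476505 6710887 (corT true 1 c0B cB012E gB2q0 gB0q2 gB0q1 gB1q1 true false)) t 15 4913 1 = true :=
  ⟨(T.b (T.a (T.b (T.a (T.b (T.c (T.c (T.l 236) (T.l 236)) (T.c (T.l 236) (T.c (T.l 236) (T.l 236)))) (T.c (T.c (T.l 236) (T.l 236)) (T.c (T.l 236) (T.l 236)))) (T.c (T.c (T.l 236) (T.l 236)) (T.c (T.l 236) (T.l 236)))) (T.a (T.c (T.c (T.l 236) (T.l 236)) (T.c (T.l 236) (T.l 236))) (T.c (T.c (T.l 236) (T.l 236)) (T.c (T.l 236) (T.l 236))))) (T.b (T.a (T.c (T.c (T.l 236) (T.l 236)) (T.c (T.l 236) (T.l 236))) (T.c (T.c (T.l 236) (T.l 236)) (T.c (T.l 236) (T.l 236)))) (T.a (T.c (T.c (T.l 236) (T.l 236)) (T.c (T.l 236) (T.l 236))) (T.c (T.c (T.l 236) (T.l 236)) (T.c (T.l 236) (T.l 236)))))) (T.a (T.b (T.a (T.c (T.c (T.l 236) (T.l 236)) (T.c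 (T.l 236) (T.l 236))) (T.c (T.c (T.l 236) (T.l 236)) (T.c (T.l 236) (T.l 236)))) (T.a (T.c (T.c (T.l 236) (T.l 236)) (T.c (T.l 236) (T.l 236))) (T.c (T.c (T.l 236) (T.l 236)) (T.c (T.l 236) (T.l 236))))) (T.b (T.a (T.c (T.c (T.l 236) (T.l 236)) (T.c (T.l 236) (T.l 236))) (T.c (T.c (T.l 236) (T.l 236)) (T.c (T.l 236) (T.l 236)))) (T.a (T.c (T.c (T.l 236) (T.l 236)) (T.c (T.l 236) (T.l 236))) (T.c (T.c (T.l 236) (T.l 236)) (T.c (T.l 236) (T.l 236))))))), by decide +kernel⟩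

def B012E_200_6_2457_1 :
    ∃ t, chk3 (onCell 0 22369621 0 1073741824 1033476505 6710887 (corT true 1 c0B cB012E gB2q0 gB0q2 gB0q1 gB1q1 true false)) t 6 2457 1 = true :=
  ⟨(T.b (T.a (T.b (T.a (T.b (T.a (T.c (T.l 748) (T.l 748)) (T.c (T.l 748) (T.l 748))) (T.a (T.c (T.l 748) (T.l 748)) (T.c (T.l 748) (T.l 748)))) (T.c (T.l 748) (T.a (T.l 748) (T.l 748)))) (T.a (T.c (T.c (T.l 748) (T.l 748)) (T.a (T.l 748) (T.l 748))) (T.c (T.l 748) (T.a (T.l 748) (T.l 748))))) (T.b (T.a (T.c (T.c (T.l 748) (T.l 748)) (T.a (T.l 748) (T.l 748))) (T.c (T.c (T.l 236) (T.l 236)) (T.c (T.l 236) (T.l 748)))) (T.a (T.c (T.c (T.l 748) (T.l 748)) (T.a (T.l 748) (T.l 748))) (T.c (T.c (T.l 236) (T.l 236)) (T.c (T.l 236) (T.l 748)))))) (T.a (T.b (T.a (T.c (T.c (T.l 748) (T.l 748)) (T.a (T.l 748) (T.l 748))) (T.c (T.l 748) (T.a (T.l 748) (T.l 748)))) (T.a (T.c (T.c (T.l 748)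 (T.l 748)) (T.a (T.l 748) (T.l 748))) (T.c (T.l 748) (T.c (T.l 748) (T.l 748))))) (T.b (T.a (T.a (T.c (T.l 748) (T.l 748)) (T.c (T.l 748) (T.l 748))) (T.c (T.l 236) (T.c (T.l 236) (T.l 236)))) (T.a (T.a (T.c (T.l 748) (T.l 748)) (T.l 748)) (T.c (T.l 236) (T.c (T.l 236) (T.l 236))))))), by decide +kernel⟩

def B012E_200_7_2457_1 :
    ∃ t, chk3 (onCell 0 22369621 0 1073741824 1033476505 6710887 (corT true 1 c0B cB012E gB2q0 gB0q2 gB0q1 gB1q1 true false)) t 7 2457 1 = true :=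
  ⟨(T.b (T.a (T.b (T.a (T.b (T.a (T.c (T.l 236) (T.l 236)) (T.c (T.l 236) (T.l 236))) (T.c (T.a (T.l 236) (T.l 236)) (T.a (T.l 236) (T.l 236)))) (T.b (T.a (T.c (T.l 236) (T.l 236)) (T.c (T.l 236) (T.c (T.l 236) (T.l 236)))) (T.a (T.c (T.l 236) (T.l 236)) (T.c (T.l 236) (T.c (T.l 236) (T.l 236)))))) (T.a (T.c (T.c (T.l 236) (T.l 236)) (T.a (T.l 236) (T.l 236))) (T.b (T.a (T.c (T.l 236) (T.l 236)) (T.c (T.l 236) (T.c (T.l 236) (T.l 236)))) (T.c (T.a (T.l 236) (T.l 236)) (T.a (T.l 236) (T.c (T.l 236) (T.l 236))))))) (T.b (T.a (T.b (T.a (T.c (T.c (T.l 236) (T.l 236)) (T.c (T.l 236) (T.l 236))) (T.c (T.c (T.l 236) (T.l 236)) (T.c (T.l 236) (T.l 236)))) (T.a (T.c (T.c (T.l 236) (T.l 236)) (T.c (T.l 236) (T.l 236))) (T.c (T.l 236) (T.c (T.l 236) (T.l 236))))) (T.c (T.a (T.l 236) (T.l 236)) (T.a (T.c (T.l 236) (T.l 236)) (T.c (T.l 236) (T.l 236))))) (T.a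 (T.c (T.a (T.c (T.l 236) (T.l 236)) (T.l 236)) (T.a (T.c (T.l 236) (T.l 236)) (T.c (T.l 236) (T.l 236)))) (T.c (T.a (T.l 236) (T.l 236)) (T.a (T.c (T.l 236) (T.l 236)) (T.c (T.l 236) (T.l 236))))))) (T.a (T.b (T.a (T.c (T.c (T.l 236) (T.l 236)) (T.a (T.l 236) (T.l 236))) (T.c (T.a (T.l 236) (T.l 236)) (T.a (T.l 236) (T.l 236)))) (T.a (T.c (T.c (T.l 236) (T.l 236)) (T.c (T.l 236) (T.l 236))) (T.c (T.a (T.l 236) (T.l 236)) (T.a (T.l 236) (T.l 236))))) (T.b (T.a (T.c (T.a (T.l 236) (T.l 236)) (T.a (T.c (T.l 236) (T.l 236)) (T.l 236))) (T.c (T.a (T.l 236) (T.l 236)) (T.a (T.l 236) (T.l 236)))) (T.a (T.c (T.a (T.l 236) (T.l 236)) (T.a (T.l 236) (T.l 236))) (T.c (T.c (T.l 236) (T.l 236)) (T.a (T.l 236) (T.l 236))))))), by decide +kernel⟩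

def B012E_200_2_1229_1 :
    ∃ t, chk3 (onCell 0 22369621 0 1073741824 1033476505 6710887 (corT true 1 c0B cB012E gB2q0 gB0q2 gB0q1 gB1q1 true false)) t 2 1229 1 = true :=
  ⟨(T.b (T.a (T.c (T.l 204) (T.l 204)) (T.b (T.a (T.a (T.c (T.l 236) (T.l 236)) (T.b (T.b (T.a (T.c (T.l 236) (T.l 236)) (T.c (T.l 236) (T.l 748))) (T.a (T.c (T.l 236) (T.l 236)) (T.c (T.l 236) (T.l 748)))) (T.a (T.c (T.l 236) (T.l 236)) (T.c (T.l 236) (T.l 748))))) (T.b (T.a (T.c (T.l 748) (T.a (T.l 748) (T.l 748))) (T.c (T.l 748) (T.c (T.l 748) (T.l 748)))) (T.a (T.c (T.l 748) (T.a (T.l 748) (T.l 748))) (T.c (T.l 748) (T.c (T.l 748) (T.l 748)))))) (T.a (T.a (T.c (T.l 204) (T.l 236)) (T.a (T.c (T.l 236) (T.l 236)) (T.c (T.l 236) (T.l 236)))) (T.b (T.a (T.c (T.l 748) (T.c (T.l 748) (T.l 748))) (T.c (T.l 748) (T.l 748))) (T.a (T.c (T.l 748) (T.c (T.l 748) (T.l 748))) (T.c (T.l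 748) (T.l 748))))))) (T.a (T.c (T.l 204) (T.l 204)) (T.b (T.a (T.a (T.c (T.l 204) (T.l 204)) (T.a (T.c (T.l 236) (T.l 236)) (T.c (T.l 204) (T.l 236)))) (T.b (T.a (T.a (T.l 748) (T.l 748)) (T.c (T.l 748) (T.l 748))) (T.a (T.a (T.l 748) (T.l 748)) (T.c (T.l 716) (T.l 748))))) (T.a (T.a (T.c (T.l 204) (T.l 204)) (T.a (T.c (T.l 236) (T.l 236)) (T.c (T.l 204) (T.l 236)))) (T.a (T.a (T.l 748) (T.l 748)) (T.c (T.l 716) (T.l 748))))))), by decide +kernel⟩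

def B012E_200_6_2458_1 :
    ∃ t, chk3 (onCell 0 22369621 0 1073741824 1033476505 6710887 (corT true 1 c0B cB012E gB2q0 gB0q2 gB0q1 gB1q1 true false)) t 6 2458 1 = true :=
  ⟨(T.b (T.a (T.b (T.a (T.c (T.l 748) (T.a (T.l 748) (T.l 748))) (T.c (T.l 748) (T.c (T.l 748) (T.l 748)))) (T.a (T.c (T.l 748) (T.a (T.l 748) (T.l 748))) (T.c (T.l 748) (T.c (T.l 748) (T.l 748))))) (T.b (T.a (T.c (T.l 748) (T.a (T.l 748) (T.l 748))) (T.c (T.l 236) (T.l 748))) (T.a (T.c (T.l 748) (T.a (T.l 748) (T.l 748))) (T.c (T.l 236) (T.l 748))))) (T.a (T.b (T.a (T.c (T.l 748) (T.a (T.l 748) (T.l 748))) (T.c (T.l 748) (T.c (T.l 748) (T.l 748)))) (T.a (T.c (T.l 748) (T.a (T.l 748) (T.l 748))) (T.c (T.l 748) (T.c (T.l 748) (T.l 748))))) (T.b (T.a (T.c (T.l 748) (T.a (T.l 748) (T.l 748))) (T.c (T.l 236) (T.l 748))) (T.a (T.c (T.l 748) (T.c (T.l 748) (T.l 748))) (T.c (T.l 236)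 (T.l 748)))))), by decide +kernel⟩

def B012E_200_7_2458_1 :
    ∃ t, chk3 (onCell 0 22369621 0 1073741824 1033476505 6710887 (corT true 1 c0B cB012E gB2q0 gB0q2 gB0q1 gB1q1 true false)) t 7 2458 1 = true :=
  ⟨(T.b (T.a (T.b (T.a (T.c (T.c (T.l 236) (T.l 236)) (T.c (T.l 236) (T.l 236))) (T.c (T.a (T.l 236) (T.l 236)) (T.a (T.l 236) (T.l 236)))) (T.a (T.c (T.c (T.l 236) (T.l 236)) (T.c (T.l 236) (T.l 236))) (T.c (T.c (T.l 236) (T.l 236)) (T.a (T.l 236) (T.l 236))))) (T.b (T.a (T.c (T.a (T.l 236) (T.l 236)) (T.a (T.l 236) (T.l 236))) (T.c (T.c (T.l 236) (T.l 236)) (T.c (T.l 236) (T.l 236)))) (T.a (T.c (T.c (T.l 236) (T.l 236)) (T.a (T.l 236) (T.l 236))) (T.c (T.c (T.l 236) (T.l 236)) (T.c (T.l 236) (T.l 236)))))) (T.a (T.b (T.a (T.c (T.l 236) (T.c (T.l 236) (T.l 236))) (T.c (T.c (T.l 236) (T.l 236)) (T.c (T.l 236) (T.l 236)))) (T.a (T.c (T.l 236)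 (T.c (T.l 236) (T.l 236))) (T.c (T.c (T.l 236) (T.l 236)) (T.c (T.l 236) (T.l 236))))) (T.b (T.a (T.c (T.c (T.l 236) (T.l 236)) (T.c (T.l 236) (T.l 236))) (T.c (T.c (T.l 236) (T.l 236)) (T.c (T.l 236) (T.l 236)))) (T.a (T.c (T.c (T.l 236) (T.l 236)) (T.c (T.l 236) (T.l 236))) (T.c (T.l 236) (T.c (T.l 236) (T.l 236))))))), by decide +kernel⟩

def B012E_200_3_2459_1 :
    ∃ t, chk3 (onCell 0 22369621 0 1073741824 1033476505 6710887 (corT true 1 c0B cB012E gB2q0 gB0q2 gB0q1 gB1q1 true false)) t 3 2459 1 = true :=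
  ⟨(T.a (T.b (T.a (T.b (T.a (T.c (T.l 748) (T.c (T.l 748) (T.l 748))) (T.c (T.l 748) (T.c (T.l 748) (T.l 748)))) (T.a (T.c (T.l 748) (T.c (T.l 748) (T.l 748))) (T.c (T.l 748) (T.c (T.l 748) (T.l 748))))) (T.a (T.c (T.l 748) (T.c (T.l 748) (T.l 748))) (T.c (T.l 236) (T.l 748)))) (T.a (T.a (T.c (T.l 748) (T.c (T.l 748) (T.l 748))) (T.c (T.l 748) (T.c (T.l 748) (T.l 748)))) (T.a (T.c (T.l 748) (T.c (T.l 748) (T.l 748))) (T.c (T.l 236) (T.l 748))))) (T.b (T.a (T.a (T.c (T.l 236) (T.l 236)) (T.c (T.c (T.l 236) (T.l 236)) (T.c (T.l 236) (T.l 236)))) (T.a (T.c (T.c (T.l 236) (T.l 236)) (T.c (T.l 236) (T.l 236))) (T.c (T.l 236) (T.c (T.l 236) (T.l 236))))) (T.a (T.a (T.c (T.l 236) (T.l 236)) (T.c (T.l 236) (T.c (T.l 236) (T.l 236)))) (T.a (T.c (T.l 236) (T.c (T.l 236) (T.l 236))) (T.c (T.l 236) (T.l 236)))))), by decide +kernel⟩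

def B012E_200_2_1230_1 :
    ∃ t, chk3 (onCell 0 22369621 0 1073741824 1033476505 6710887 (corT true 1 c0B cB012E gB2q0 gB0q2 gB0q1 gB1q1 true false)) t 2 1230 1 = true :=
  ⟨(T.a (T.c (T.l 204) (T.l 204)) (T.b (T.b (T.a (T.a (T.l 236) (T.a (T.c (T.l 236) (T.l 236)) (T.c (T.l 204) (T.l 204)))) (T.a (T.a (T.l 748) (T.l 748)) (T.c (T.l 716) (T.l 748)))) (T.a (T.a (T.l 236) (T.a (T.c (T.l 236) (T.l 236)) (T.l 748))) (T.a (T.a (T.l 748) (T.l 748)) (T.c (T.l 716) (T.l 748))))) (T.b (T.a (T.a (T.l 236) (T.a (T.c (T.l 204) (T.l 236)) (T.l 748))) (T.a (T.c (T.l 716) (T.l 748)) (T.c (T.l 716) (T.l 716)))) (T.a (T.a (T.l 236) (T.a (T.c (T.l 204) (T.l 204)) (T.l 748))) (T.a (T.c (T.l 716) (T.l 748)) (T.c (T.l 716) (T.l 716))))))), by decide +kernel⟩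

def B012E_200_3_1230_1 :
    ∃ t, chk3 (onCell 0 22369621 0 1073741824 1033476505 6710887 (corT true 1 c0B cB012E gB2q0 gB0q2 gB0q1 gB1q1 true false)) t 3 1230 1 = true :=
  ⟨(T.b (T.a (T.b (T.a (T.a (T.a (T.c (T.l 204) (T.l 748)) (T.l 748)) (T.c (T.l 748) (T.l 748))) (T.a (T.c (T.l 748) (T.c (T.l 748) (T.l 748))) (T.c (T.l 236) (T.l 236)))) (T.a (T.a (T.a (T.l 748) (T.l 748)) (T.c (T.l 748) (T.l 748))) (T.a (T.c (T.l 748) (T.c (T.l 748) (T.l 748))) (T.c (T.l 236) (T.l 236))))) (T.b (T.a (T.a (T.c (T.l 236) (T.l 236)) (T.c (T.l 236) (T.l 236))) (T.a (T.c (T.l 236) (T.l 236)) (T.c (T.l 236) (T.l 236)))) (T.a (T.a (T.c (T.l 236) (T.l 236)) (T.c (T.l 236) (T.l 236))) (T.a (T.c (T.l 236) (T.l 236)) (T.c (T.l 236) (T.l 236)))))) (T.a (T.b (T.a (T.a (T.a (T.l 748) (T.l 748)) (T.c (T.l 748) (T.l 748))) (T.a (T.c (T.l 748) (T.c (T.l 748) (T.l 748))) (T.c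 (T.l 236) (T.l 236)))) (T.a (T.a (T.c (T.l 748) (T.l 748)) (T.c (T.l 748) (T.l 748))) (T.a (T.c (T.l 748) (T.l 748)) (T.c (T.l 236) (T.l 236))))) (T.b (T.a (T.a (T.c (T.l 236) (T.l 236)) (T.c (T.l 236) (T.l 236))) (T.a (T.c (T.l 236) (T.l 236)) (T.c (T.l 236) (T.l 236)))) (T.a (T.a (T.c (T.l 236) (T.l 236)) (T.c (T.l 236) (T.l 236))) (T.a (T.c (T.l 236) (T.l 236)) (T.c (T.l 236) (T.l 236))))))), by decide +kernel⟩

def B012E_200_1_1231_1 :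
    ∃ t, chk3 (onCell 0 22369621 0 1073741824 1033476505 6710887 (corT true 1 c0B cB012E gB2q0 gB0q2 gB0q1 gB1q1 true false)) t 1 1231 1 = true :=
  ⟨(T.a (T.a (T.c (T.l 204) (T.l 204)) (T.b (T.b (T.a (T.a (T.l 236) (T.a (T.c (T.l 204) (T.l 204)) (T.l 748))) (T.a (T.c (T.l 716) (T.l 716)) (T.c (T.l 716) (T.l 716)))) (T.a (T.a (T.l 236) (T.a (T.l 748) (T.l 748))) (T.a (T.c (T.l 716) (T.l 716)) (T.c (T.l 716) (T.l 716))))) (T.b (T.a (T.a (T.l 236) (T.a (T.l 748) (T.l 748))) (T.a (T.c (T.l 716) (T.l 716)) (T.c (T.l 716) (T.l 716)))) (T.a (T.a (T.l 236) (T.a (T.l 748) (T.l 748))) (T.a (T.c (T.l 716) (T.l 716)) (T.c (T.l 716) (T.l 716))))))) (T.b (T.a (T.b (T.a (T.a (T.c (T.l 748) (T.l 748)) (T.c (T.l 748) (T.l 748))) (T.a (T.c (T.l 748) (T.l 748)) (T.c (T.l 236) (T.l 236)))) (T.a (T.a (T.c (T.l 748) (T.l 748)) (T.c (T.l 748) (T.l 748))) (T.a (T.c (T.l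 748) (T.l 748)) (T.c (T.l 236) (T.l 236))))) (T.a (T.a (T.c (T.l 236) (T.l 236)) (T.c (T.l 236) (T.l 236))) (T.a (T.c (T.l 236) (T.l 236)) (T.c (T.l 236) (T.l 236))))) (T.a (T.b (T.a (T.a (T.c (T.l 748) (T.l 748)) (T.c (T.l 716) (T.l 748))) (T.a (T.c (T.l 748) (T.l 748)) (T.l 748))) (T.a (T.a (T.c (T.l 748) (T.l 748)) (T.c (T.l 716) (T.l 748))) (T.a (T.c (T.l 748) (T.l 748)) (T.l 748)))) (T.a (T.a (T.c (T.l 236) (T.l 236)) (T.c (T.l 236) (T.l 236))) (T.a (T.c (T.l 236) (T.l 236)) (T.c (T.l 236) (T.l 236))))))), by decide +kernel⟩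

def B012E_200_1_1232_1 :
    ∃ t, chk3 (onCell 0 22369621 0 1073741824 1033476505 6710887 (corT true 1 c0B cB012E gB2q0 gB0q2 gB0q1 gB1q1 true false)) t 1 1232 1 = true :=
  ⟨(T.a (T.a (T.a (T.l 204) (T.l 204)) (T.b (T.b (T.a (T.a (T.l 204) (T.a (T.l 748) (T.l 748))) (T.a (T.c (T.l 716) (T.l 716)) (T.c (T.l 204) (T.l 716)))) (T.a (T.a (T.l 204) (T.a (T.l 748) (T.l 748))) (T.a (T.c (T.l 204) (T.l 716)) (T.c (T.l 204) (T.l 716))))) (T.b (T.a (T.a (T.l 204) (T.c (T.l 748) (T.l 748))) (T.a (T.c (T.l 204) (T.l 716)) (T.c (T.l 204) (T.l 716)))) (T.a (T.a (T.l 204) (T.c (T.l 716) (T.l 748))) (T.a (T.c (T.l 204) (T.l 716)) (T.c (T.l 204) (T.l 716))))))) (T.b (T.a (T.b (T.a (T.a (T.c (T.l 748) (T.l 748)) (T.c (T.l 716) (T.l 748))) (T.a (T.c (T.l 748) (T.l 748)) (T.l 748))) (T.a (T.a (T.c (T.l 748) (T.l 748)) (T.c (T.l 716) (T.l 716))) (T.a (T.c (T.l 716)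 (T.l 748)) (T.l 748)))) (T.a (T.a (T.l 236) (T.c (T.l 236) (T.l 236))) (T.a (T.c (T.l 236) (T.l 236)) (T.l 236)))) (T.a (T.a (T.a (T.c (T.l 716) (T.l 748)) (T.c (T.l 716) (T.l 716))) (T.a (T.c (T.l 716) (T.l 748)) (T.l 748))) (T.a (T.a (T.l 236) (T.l 236)) (T.a (T.l 236) (T.l 236)))))), by decide +kernel⟩

def B012E_200_1_1233_1 :
    ∃ t, chk3 (onCell 0 22369621 0 1073741824 1033476505 6710887 (corT true 1 c0B cB012E gB2q0 gB0q2 gB0q1 gB1q1 true false)) t 1 1233 1 = true :=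
  ⟨(T.a (T.a (T.l 204) (T.b (T.b (T.a (T.a (T.l 204) (T.c (T.l 716) (T.l 716))) (T.a (T.c (T.l 204) (T.l 716)) (T.l 716))) (T.a (T.a (T.l 204) (T.c (T.l 716) (T.l 716))) (T.a (T.c (T.l 204) (T.l 716)) (T.l 716)))) (T.b (T.a (T.a (T.l 204) (T.c (T.l 204) (T.l 716))) (T.a (T.c (T.l 204) (T.l 716)) (T.l 716))) (T.a (T.a (T.l 204) (T.c (T.l 204) (T.l 716))) (T.a (T.c (T.l 204) (T.l 716)) (T.l 716)))))) (T.b (T.a (T.a (T.a (T.c (T.l 716) (T.l 716)) (T.c (T.l 716) (T.l 716))) (T.a (T.c (T.l 716) (T.l 716)) (T.l 748))) (T.a (T.a (T.l 236) (T.l 236)) (T.a (T.l 236) (T.l 236)))) (T.a (T.a (T.a (T.c (T.l 716) (T.l 716)) (T.c (T.l 716) (T.l 716))) (T.a (T.c (T.l 716) (T.l 716)) (T.l 748))) (T.a (T.a (T.l 236) (T.l 236)) (T.c (T.l 236) (T.l 236)))))), by decide +kernel⟩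

def B012E_200_1_617_1 :
    ∃ t, chk3 (onCell 0 22369621 0 1073741824 1033476505 6710887 (corT true 1 c0B cB012E gB2q0 gB0q2 gB0q1 gB1q1 true false)) t 1 617 1 = true :=
  ⟨(T.b (T.a (T.a (T.l 204) (T.b (T.b (T.a (T.a (T.l 204) (T.c (T.l 204) (T.l 716))) (T.a (T.c (T.l 204) (T.l 716)) (T.l 716))) (T.a (T.a (T.l 204) (T.c (T.l 204) (T.l 716))) (T.a (T.l 716) (T.l 716)))) (T.a (T.a (T.l 204) (T.c (T.l 204) (T.l 716))) (T.a (T.l 716) (T.l 716))))) (T.b (T.a (T.a (T.a (T.c (T.l 716) (T.l 716)) (T.l 748)) (T.a (T.c (T.l 716) (T.l 716)) (T.l 236))) (T.a (T.a (T.l 236) (T.l 236)) (T.c (T.l 236) (T.l 236)))) (T.a (T.a (T.a (T.c (T.l 204) (T.l 716)) (T.l 716)) (T.a (T.l 748) (T.l 236))) (T.a (T.a (T.l 236) (T.l 236)) (T.c (T.l 236) (T.l 236)))))) (T.a (T.a (T.l 204) (T.a (T.a (T.l 204) (T.c (T.l 204) (T.l 716))) (T.a (T.l 716) (T.l 716)))) (T.b (T.a (T.a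 (T.a (T.l 748) (T.l 716)) (T.a (T.l 748) (T.l 204))) (T.a (T.c (T.l 236) (T.l 236)) (T.c (T.l 236) (T.l 236)))) (T.a (T.a (T.a (T.l 748) (T.l 716)) (T.a (T.l 716) (T.l 204))) (T.a (T.c (T.l 236) (T.l 236)) (T.c (T.l 236) (T.l 236))))))), by decide +kernel⟩

def B012E_200_1_309_1 :
    ∃ t, chk3 (onCell 0 22369621 0 1073741824 1033476505 6710887 (corT true 1 c0B cB012E gB2q0 gB0q2 gB0q1 gB1q1 true false)) t 1 309 1 = true :=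
  ⟨(T.b (T.b (T.a (T.a (T.l 204) (T.a (T.a (T.l 204) (T.c (T.l 204) (T.l 204))) (T.a (T.l 716) (T.l 716)))) (T.b (T.a (T.a (T.a (T.l 716) (T.l 716)) (T.a (T.l 716) (T.l 204))) (T.a (T.c (T.l 236) (T.l 236)) (T.l 236))) (T.a (T.a (T.a (T.l 716) (T.l 716)) (T.a (T.l 716) (T.l 204))) (T.a (T.c (T.l 236) (T.l 236)) (T.l 236))))) (T.a (T.a (T.l 204) (T.a (T.a (T.l 204) (T.l 716)) (T.a (T.l 716) (T.l 716)))) (T.b (T.a (T.a (T.a (T.l 716) (T.l 716)) (T.a (T.l 716) (T.l 204))) (T.a (T.c (T.l 236) (T.l 236)) (T.l 236))) (T.a (T.a (T.a (T.l 716) (T.l 716)) (T.a (T.l 716) (T.l 204))) (T.a (T.l 236) (T.l 236)))))) (T.b (T.a (T.a (T.l 204) (T.a (T.a (T.l 204) (T.l 716)) (T.a (T.l 716) (T.l 204)))) (T.b (T.a (T.a (T.a (T.l 716) (T.l 716)) (T.a (T.l 716) (T.l 204))) (T.a (T.l 236) (T.l 236))) (T.a (T.a (T.a (T.l 716) (T.l 716)) (T.a (T.l 716) (T.l 204))) (T.a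 (T.l 236) (T.l 236))))) (T.a (T.a (T.l 204) (T.a (T.a (T.l 204) (T.l 716)) (T.a (T.l 204) (T.l 204)))) (T.a (T.a (T.a (T.l 716) (T.l 716)) (T.a (T.l 716) (T.l 204))) (T.a (T.l 236) (T.l 204)))))), by decide +kernel⟩

def B012E_200_1_155_1 :
    ∃ t, chk3 (onCell 0 22369621 0 1073741824 1033476505 6710887 (corT true 1 c0B cB012E gB2q0 gB0q2 gB0q1 gB1q1 true false)) t 1 155 1 = true :=
  ⟨(T.b (T.b (T.b (T.a (T.a (T.l 204) (T.a (T.a (T.l 204) (T.l 716)) (T.a (T.l 204) (T.l 204)))) (T.a (T.a (T.a (T.l 716) (T.l 204)) (T.c (T.l 716) (T.l 748))) (T.a (T.l 236) (T.l 204)))) (T.a (T.a (T.l 204) (T.a (T.a (T.l 204) (T.l 204)) (T.a (T.l 204) (T.l 204)))) (T.a (T.a (T.a (T.l 204) (T.l 204)) (T.c (T.l 716) (T.l 716))) (T.a (T.l 204) (T.l 204))))) (T.b (T.a (T.a (T.l 204) (T.a (T.a (T.l 204) (T.l 204)) (T.a (T.l 204) (T.l 204)))) (T.a (T.a (T.a (T.l 204) (T.l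 204)) (T.c (T.l 716) (T.l 716))) (T.a (T.l 204) (T.l 204)))) (T.a (T.a (T.l 204) (T.a (T.a (T.l 204) (T.l 204)) (T.a (T.l 204) (T.l 204)))) (T.a (T.a (T.a (T.l 204) (T.l 204)) (T.c (T.l 716) (T.l 716))) (T.a (T.l 204) (T.l 204)))))) (T.b (T.b (T.a (T.a (T.l 204) (T.a (T.a (T.l 204) (T.l 204)) (T.a (T.l 204) (T.l 204)))) (T.a (T.a (T.a (T.l 204) (T.l 204)) (T.l 716)) (T.a (T.l 204) (T.l 204)))) (T.a (T.a (T.l 204) (T.a (T.a (T.l 204) (T.l 204)) (T.a (T.l 204) (T.l 204)))) (T.a (T.a (T.a (T.l 204) (T.l 204)) (T.l 716)) (T.a (T.l 204) (T.l 204))))) (T.b (T.a (T.a (T.l 204) (T.a (T.a (T.l 204) (T.l 204)) (T.c (T.l 716) (T.l 716)))) (T.a (T.a (T.c (T.l 716) (T.l 716)) (T.l 716)) (T.a (T.l 204) (T.l 204)))) (T.a (T.a (T.l 204) (T.a (T.a (T.l 204) (T.l 204)) (T.c (T.l 716) (T.l 716)))) (T.a (T.a (T.c (T.l 716) (T.l 716)) (T.l 716)) (T.a (T.l 204) (T.l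 204))))))), by decide +kernel⟩

def B012E_200_1_156_1 :
    ∃ t, chk3 (onCell 0 22369621 0 1073741824 1033476505 6710887 (corT true 1 c0B cB012E gB2q0 gB0q2 gB0q1 gB1q1 true false)) t 1 156 1 = true :=
  ⟨(T.b (T.b (T.b (T.a (T.a (T.l 204) (T.a (T.a (T.l 204) (T.l 204)) (T.c (T.l 716) (T.l 716)))) (T.a (T.a (T.c (T.l 716) (T.l 716)) (T.l 716)) (T.a (T.l 204) (T.l 204)))) (T.a (T.a (T.l 204) (T.a (T.a (T.l 204) (T.l 204)) (T.c (T.l 204) (T.l 716)))) (T.a (T.a (T.c (T.l 716) (T.l 716)) (T.l 716)) (T.a (T.l 204) (T.l 204))))) (T.b (T.a (T.a (T.l 204) (T.a (T.a (T.l 204) (T.l 204)) (T.l 716))) (T.a (T.a (T.l 716) (T.l 716)) (T.a (T.l 204) (T.l 204)))) (T.a (T.a (T.l 204) (T.a (T.a (T.l 204) (T.l 204)) (T.l 716))) (T.a (T.a (T.l 716) (T.l 204)) (T.a (T.l 204) (T.l 204)))))) (T.b (T.b (T.a (T.a (T.l 204) (T.a (T.a (T.l 204) (T.l 204)) (T.l 716))) (T.a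 (T.a (T.l 716) (T.l 204)) (T.a (T.l 204) (T.l 204)))) (T.a (T.a (T.l 204) (T.a (T.a (T.l 204) (T.l 204)) (T.l 716))) (T.a (T.a (T.l 716) (T.l 204)) (T.a (T.l 204) (T.l 204))))) (T.b (T.a (T.a (T.l 204) (T.a (T.a (T.l 204) (T.l 204)) (T.l 716))) (T.a (T.a (T.l 716) (T.l 204)) (T.a (T.l 204) (T.l 204)))) (T.a (T.a (T.l 204) (T.a (T.a (T.l 204) (T.l 204)) (T.l 204))) (T.a (T.a (T.l 716) (T.l 204)) (T.a (T.l 204) (T.l 204))))))), by decide +kernel⟩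

def B012E_200_1_157_1 :
    ∃ t, chk3 (onCell 0 22369621 0 1073741824 1033476505 6710887 (corT true 1 c0B cB012E gB2q0 gB0q2 gB0q1 gB1q1 true false)) t 1 157 1 = true :=
  ⟨(T.b (T.b (T.b (T.a (T.a (T.l 204) (T.a (T.a (T.l 204) (T.l 204)) (T.l 204))) (T.a (T.a (T.l 204) (T.l 204)) (T.l 748))) (T.a (T.a (T.l 204) (T.a (T.a (T.l 204) (T.l 204)) (T.l 204))) (T.a (T.a (T.l 204) (T.l 204)) (T.l 748)))) (T.b (T.b (T.a (T.a (T.l 204) (T.a (T.a (T.l 204) (T.l 204)) (T.l 204))) (T.a (T.a (T.l 204) (T.l 204)) (T.l 716))) (T.a (T.a (T.l 204) (T.a (T.a (T.l 204) (T.l 204)) (T.l 204))) (T.a (T.a (T.l 204) (T.l 204)) (T.l 204)))) (T.b (T.a (T.a (T.l 204) (T.a (T.a (T.l 204) (T.l 204)) (T.l 204))) (T.a (T.a (T.l 204) (T.l 204)) (T.l 204))) (T.a (T.a (T.l 204) (T.a (T.a (T.l 204) (T.l 204)) (T.l 204))) (T.a (T.a (T.l 204) (T.l 204)) (T.l 204)))))) (T.b (T.b (T.b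 (T.a (T.a (T.l 204) (T.a (T.a (T.l 204) (T.l 204)) (T.l 204))) (T.a (T.a (T.l 204) (T.l 204)) (T.l 204))) (T.a (T.a (T.l 204) (T.a (T.a (T.l 204) (T.l 204)) (T.l 204))) (T.a (T.a (T.l 204) (T.l 204)) (T.l 204)))) (T.b (T.a (T.a (T.l 204) (T.a (T.a (T.l 204) (T.l 204)) (T.l 204))) (T.a (T.a (T.l 204) (T.l 204)) (T.l 204))) (T.a (T.a (T.l 204) (T.a (T.a (T.l 204) (T.l 204)) (T.l 204))) (T.a (T.a (T.l 204) (T.l 204)) (T.l 204))))) (T.b (T.b (T.a (T.a (T.l 204) (T.a (T.a (T.l 204) (T.l 204)) (T.l 204))) (T.a (T.a (T.l 204) (T.l 204)) (T.l 204))) (T.a (T.a (T.l 204) (T.a (T.a (T.l 204) (T.l 204)) (T.l 204))) (T.a (T.a (T.l 204) (T.l 204)) (T.l 204)))) (T.b (T.a (T.a (T.l 204) (T.a (T.a (T.l 204) (T.l 204)) (T.l 204))) (T.a (T.a (T.l 204) (T.l 204)) (T.l 204))) (T.a (T.a (T.l 204) (T.a (T.a (T.l 204) (T.l 204)) (T.l 204))) (T.a (T.a (T.l 204) (T.l 204))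 (T.l 204))))))), by decide +kernel⟩

def B012E_200_1_316_1 :
    ∃ t, chk3 (onCell 0 22369621 0 1073741824 1033476505 6710887 (corT true 1 c0B cB012E gB2q0 gB0q2 gB0q1 gB1q1 true false)) t 1 316 1 = true :=
  ⟨(T.b (T.b (T.b (T.a (T.a (T.l 204) (T.a (T.a (T.l 204) (T.l 204)) (T.l 204))) (T.a (T.a (T.l 204) (T.l 204)) (T.l 204))) (T.a (T.a (T.l 204) (T.a (T.a (T.l 204) (T.l 204)) (T.l 204))) (T.a (T.a (T.l 204) (T.l 204)) (T.l 204)))) (T.b (T.a (T.a (T.l 204) (T.a (T.a (T.l 204) (T.l 204)) (T.l 204))) (T.a (T.a (T.l 204) (T.l 204)) (T.l 204))) (T.a (T.a (T.l 204) (T.a (T.a (T.l 204) (T.l 204)) (T.l 204))) (T.a (T.a (T.l 204) (T.l 204)) (T.l 204))))) (T.b (T.b (T.a (T.a (T.l 204) (T.a (T.a (T.l 204) (T.l 204)) (T.l 204))) (T.a (T.a (T.l 204) (T.l 204)) (T.l 204))) (T.a (T.a (T.l 204) (T.a (T.a (T.l 204) (T.l 204)) (T.l 204))) (T.a (T.a (T.l 204)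 (T.l 204)) (T.l 204)))) (T.b (T.a (T.a (T.l 204) (T.a (T.a (T.l 204) (T.l 204)) (T.l 204))) (T.a (T.a (T.l 204) (T.l 204)) (T.l 204))) (T.a (T.a (T.l 204) (T.a (T.c (T.l 716) (T.l 716)) (T.l 204))) (T.a (T.a (T.l 204) (T.l 204)) (T.l 204)))))), by decide +kernel⟩

def B012E_200_1_317_1 :
    ∃ t, chk3 (onCell 0 22369621 0 1073741824 1033476505 6710887 (corT true 1 c0B cB012E gB2q0 gB0q2 gB0q1 gB1q1 true false)) t 1 317 1 = true :=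
  ⟨(T.b (T.b (T.b (T.a (T.a (T.l 204) (T.a (T.c (T.l 204) (T.l 716)) (T.l 204))) (T.a (T.a (T.l 204) (T.l 204)) (T.l 204))) (T.a (T.a (T.l 204) (T.a (T.c (T.l 204) (T.l 716)) (T.l 204))) (T.a (T.a (T.l 204) (T.l 204)) (T.l 204)))) (T.b (T.a (T.a (T.l 204) (T.a (T.c (T.l 204) (T.l 716)) (T.l 204))) (T.a (T.a (T.l 204) (T.l 204)) (T.l 204))) (T.a (T.a (T.l 204) (T.a (T.c (T.l 204) (T.l 716)) (T.l 204))) (T.a (T.a (T.l 204) (T.l 204)) (T.l 204))))) (T.b (T.b (T.a (T.a (T.l 204) (T.a (T.c (T.l 204) (T.l 716)) (T.l 204))) (T.a (T.a (T.l 204) (T.l 204)) (T.l 204))) (T.a (T.a (T.l 204) (T.a (T.c (T.l 204) (T.l 204)) (T.l 204))) (T.a (T.a (T.l 204) (T.l 204)) (T.l 204)))) (T.a (T.a (T.l 204) (T.a (T.c (T.l 204) (T.l 204)) (T.l 204))) (T.a (T.a (T.l 204) (T.l 204)) (T.l 204))))), by decide +kernel⟩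

def B012E_200_1_159_1 :
    ∃ t, chk3 (onCell 0 22369621 0 1073741824 1033476505 6710887 (corT true 1 c0B cB012E gB2q0 gB0q2 gB0q1 gB1q1 true false)) t 1 159 1 = true :=
  ⟨(T.b (T.b (T.b (T.a (T.a (T.l 204) (T.a (T.c (T.l 204) (T.l 204)) (T.l 204))) (T.a (T.a (T.l 204) (T.l 204)) (T.l 204))) (T.a (T.a (T.l 204) (T.a (T.l 716) (T.l 204))) (T.a (T.a (T.l 204) (T.l 204)) (T.l 204)))) (T.b (T.a (T.a (T.l 204) (T.a (T.l 716) (T.l 204))) (T.a (T.a (T.l 204) (T.l 204)) (T.l 204))) (T.a (T.a (T.l 204) (T.a (T.l 716) (T.l 204))) (T.a (T.a (T.l 204) (T.l 204)) (T.l 204))))) (T.b (T.b (T.a (T.a (T.l 204) (T.a (T.l 204) (T.l 204))) (T.a (T.a (T.l 204) (T.l 204)) (T.l 204))) (T.a (T.a (T.l 204) (T.a (T.l 204) (T.l 204))) (T.a (T.a (T.l 204) (T.l 204)) (T.l 204)))) (T.b (T.a (T.a (T.l 204) (T.a (T.l 204) (T.l 204))) (T.a (T.a (T.l 204) (T.l 204)) (T.l 204)))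 (T.a (T.a (T.l 204) (T.a (T.l 204) (T.l 204))) (T.a (T.a (T.l 204) (T.l 204)) (T.l 204)))))), by decide +kernel⟩

def B012E_200_1_80_1 :
    ∃ t, chk3 (onCell 0 22369621 0 1073741824 1033476505 6710887 (corT true 1 c0B cB012E gB2q0 gB0q2 gB0q1 gB1q1 true false)) t 1 80 1 = true :=
  ⟨(T.b (T.b (T.b (T.b (T.a (T.a (T.l 204) (T.a (T.l 204) (T.l 204))) (T.a (T.a (T.l 204) (T.l 204)) (T.l 204))) (T.a (T.a (T.l 204) (T.a (T.l 204) (T.l 204))) (T.a (T.a (T.l 204) (T.l 204)) (T.l 204)))) (T.b (T.a (T.a (T.l 204) (T.a (T.l 204) (T.l 204))) (T.a (T.a (T.l 204) (T.l 204)) (T.l 204))) (T.a (T.a (T.l 204) (T.a (T.l 204) (T.l 204))) (T.a (T.a (T.l 204) (T.l 204)) (T.l 204))))) (T.b (T.b (T.a (T.a (T.l 204) (T.a (T.l 204) (T.l 204))) (T.a (T.a (T.l 204) (T.l 204)) (T.l 204))) (T.a (T.a (T.l 204) (T.a (T.l 204) (T.l 204))) (T.a (T.a (T.l 204) (T.l 204)) (T.l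 204)))) (T.b (T.a (T.a (T.l 204) (T.a (T.l 204) (T.l 204))) (T.a (T.a (T.l 204) (T.l 204)) (T.l 204))) (T.a (T.a (T.l 204) (T.a (T.l 204) (T.l 204))) (T.a (T.a (T.l 204) (T.l 204)) (T.l 204)))))) (T.b (T.b (T.b (T.a (T.a (T.l 204) (T.a (T.l 204) (T.l 204))) (T.a (T.a (T.l 204) (T.l 204)) (T.l 204))) (T.a (T.a (T.l 204) (T.a (T.l 204) (T.l 204))) (T.a (T.a (T.l 204) (T.l 204)) (T.l 204)))) (T.b (T.a (T.a (T.l 204) (T.a (T.l 204) (T.l 204))) (T.a (T.a (T.l 204) (T.l 204)) (T.l 204))) (T.a (T.a (T.l 204) (T.a (T.l 204) (T.l 204))) (T.a (T.a (T.l 204) (T.l 204)) (T.l 204))))) (T.b (T.b (T.a (T.a (T.l 204) (T.a (T.l 204) (T.l 204))) (T.a (T.a (T.l 204) (T.l 204)) (T.l 0))) (T.a (T.a (T.l 204) (T.a (T.l 204) (T.l 204))) (T.a (T.a (T.l 204) (T.l 204)) (T.l 0)))) (T.b (T.a (T.a (T.l 204) (T.a (T.l 204) (T.l 204))) (T.a (T.a (T.l 204) (T.l 204)) (T.l 0)))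 (T.a (T.a (T.l 204) (T.a (T.l 204) (T.l 204))) (T.a (T.a (T.l 204) (T.l 204)) (T.l 0))))))), by decide +kernel⟩

def B012E_200_1_81_1 :
    ∃ t, chk3 (onCell 0 22369621 0 1073741824 1033476505 6710887 (corT true 1 c0B cB012E gB2q0 gB0q2 gB0q1 gB1q1 true false)) t 1 81 1 = true :=
  ⟨(T.b (T.b (T.b (T.b (T.a (T.a (T.l 204) (T.a (T.l 204) (T.l 204))) (T.a (T.a (T.l 204) (T.l 204)) (T.l 0))) (T.a (T.a (T.l 204) (T.a (T.l 204) (T.l 204))) (T.a (T.a (T.l 204) (T.l 204)) (T.l 0)))) (T.b (T.a (T.a (T.l 204) (T.a (T.l 204) (T.l 204))) (T.a (T.a (T.l 204) (T.l 204)) (T.l 0))) (T.a (T.a (T.l 204) (T.a (T.l 204) (T.l 204))) (T.a (T.a (T.l 204) (T.l 204)) (T.l 0))))) (T.b (T.b (T.a (T.a (T.l 204) (T.a (T.l 204) (T.l 204))) (T.a (T.a (T.l 204) (T.l 204)) (T.l 0))) (T.a (T.a (T.l 204) (T.a (T.l 204) (T.l 204))) (T.a (T.a (T.l 204) (T.l 204)) (T.l 0)))) (T.b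 (T.a (T.a (T.l 204) (T.a (T.l 204) (T.l 204))) (T.a (T.a (T.l 204) (T.l 204)) (T.l 0))) (T.a (T.a (T.l 204) (T.a (T.l 204) (T.l 204))) (T.a (T.a (T.l 204) (T.l 204)) (T.l 0)))))) (T.a (T.a (T.l 204) (T.a (T.l 204) (T.l 204))) (T.a (T.a (T.l 204) (T.l 204)) (T.l 0)))), by decide +kernel⟩

def B012E_200_1_41_1 :
    ∃ t, chk3 (onCell 0 22369621 0 1073741824 1033476505 6710887 (corT true 1 c0B cB012E gB2q0 gB0q2 gB0q1 gB1q1 true false)) t 1 41 1 = true :=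
  ⟨(T.a (T.a (T.l 204) (T.a (T.l 204) (T.l 204))) (T.a (T.a (T.l 204) (T.l 204)) (T.l 0))), by decide +kernel⟩

def B012E_200_1_21_1 :
    ∃ t, chk3 (onCell 0 22369621 0 1073741824 1033476505 6710887 (corT true 1 c0B cB012E gB2q0 gB0q2 gB0q1 gB1q1 true false)) t 1 21 1 = true :=
  ⟨(T.a (T.a (T.l 204) (T.a (T.l 204) (T.l 204))) (T.a (T.b (T.l 204) (T.l 204)) (T.l 0))), by decide +kernel⟩

def B012E_200_1_11_1 :
    ∃ t, chk3 (onCell 0 22369621 0 1073741824 1033476505 6710887 (corT true 1 c0B cB012E gB2q0 gB0q2 gB0q1 gB1q1 true false)) t 1 11 1 = true :=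
  ⟨(T.b (T.a (T.a (T.l 204) (T.l 204)) (T.a (T.l 204) (T.l 0))) (T.a (T.a (T.l 204) (T.l 204)) (T.a (T.l 204) (T.l 0)))), by decide +kernel⟩

def B012E_200_1_3_1 :
    ∃ t, chk3 (onCell 0 22369621 0 1073741824 1033476505 6710887 (corT true 1 c0B cB012E gB2q0 gB0q2 gB0q1 gB1q1 true false)) t 1 3 1 = true :=
  ⟨(T.b (T.b (T.a (T.a (T.l 204) (T.l 204)) (T.a (T.l 204) (T.l 0))) (T.a (T.a (T.l 204) (T.l 204)) (T.a (T.l 0) (T.l 0)))) (T.a (T.a (T.l 204) (T.a (T.l 204) (T.l 204))) (T.a (T.b (T.l 0) (T.l 0)) (T.l 0)))), by decide +kernel⟩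

theorem B012E_200_1_40_1 :
    ∃ t, chk3 (onCell 0 22369621 0 1073741824 1033476505 6710887 (corT true 1 c0B cB012E gB2q0 gB0q2 gB0q1 gB1q1 true false)) t 1 40 1 = true :=
  ex3_b B012E_200_1_80_1 B012E_200_1_81_1
theorem B012E_200_1_20_1 :
    ∃ t, chk3 (onCell 0 22369621 0 1073741824 1033476505 6710887 (corT true 1 c0B cB012E gB2q0 gB0q2 gB0q1 gB1q1 true false)) t 1 20 1 = true :=
  ex3_b B012E_200_1_40_1 B012E_200_1_41_1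
theorem B012E_200_1_10_1 :
    ∃ t, chk3 (onCell 0 22369621 0 1073741824 1033476505 6710887 (corT true 1 c0B cB012E gB2q0 gB0q2 gB0q1 gB1q1 true false)) t 1 10 1 = true :=
  ex3_b B012E_200_1_20_1 B012E_200_1_21_1
theorem B012E_200_1_5_1 :
    ∃ t, chk3 (onCell 0 22369621 0 1073741824 1033476505 6710887 (corT true 1 c0B cB012E gB2q0 gB0q2 gB0q1 gB1q1 true false)) t 1 5 1 = true :=
  ex3_b B012E_200_1_10_1 B012E_200_1_11_1
theorem B012E_200_1_158_1 :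
    ∃ t, chk3 (onCell 0 22369621 0 1073741824 1033476505 6710887 (corT true 1 c0B cB012E gB2q0 gB0q2 gB0q1 gB1q1 true false)) t 1 158 1 = true :=
  ex3_b B012E_200_1_316_1 B012E_200_1_317_1
theorem B012E_200_1_79_1 :
    ∃ t, chk3 (onCell 0 22369621 0 1073741824 1033476505 6710887 (corT true 1 c0B cB012E gB2q0 gB0q2 gB0q1 gB1q1 true false)) t 1 79 1 = true :=
  ex3_b B012E_200_1_158_1 B012E_200_1_159_1
theorem B012E_200_1_78_1 :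
    ∃ t, chk3 (onCell 0 22369621 0 1073741824 1033476505 6710887 (corT true 1 c0B cB012E gB2q0 gB0q2 gB0q1 gB1q1 true false)) t 1 78 1 = true :=
  ex3_b B012E_200_1_156_1 B012E_200_1_157_1
theorem B012E_200_1_39_1 :
    ∃ t, chk3 (onCell 0 22369621 0 1073741824 1033476505 6710887 (corT true 1 c0B cB012E gB2q0 gB0q2 gB0q1 gB1q1 true false)) t 1 39 1 = true :=
  ex3_b B012E_200_1_78_1 B012E_200_1_79_1
theorem B012E_200_1_616_1 :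
    ∃ t, chk3 (onCell 0 22369621 0 1073741824 1033476505 6710887 (corT true 1 c0B cB012E gB2q0 gB0q2 gB0q1 gB1q1 true false)) t 1 616 1 = true :=
  ex3_b B012E_200_1_1232_1 B012E_200_1_1233_1
theorem B012E_200_1_308_1 :
    ∃ t, chk3 (onCell 0 22369621 0 1073741824 1033476505 6710887 (corT true 1 c0B cB012E gB2q0 gB0q2 gB0q1 gB1q1 true false)) t 1 308 1 = true :=
  ex3_b B012E_200_1_616_1 B012E_200_1_617_1
theorem B012E_200_1_154_1 :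
    ∃ t, chk3 (onCell 0 22369621 0 1073741824 1033476505 6710887 (corT true 1 c0B cB012E gB2q0 gB0q2 gB0q1 gB1q1 true false)) t 1 154 1 = true :=
  ex3_b B012E_200_1_308_1 B012E_200_1_309_1
theorem B012E_200_1_77_1 :
    ∃ t, chk3 (onCell 0 22369621 0 1073741824 1033476505 6710887 (corT true 1 c0B cB012E gB2q0 gB0q2 gB0q1 gB1q1 true false)) t 1 77 1 = true :=
  ex3_b B012E_200_1_154_1 B012E_200_1_155_1
theorem B012E_200_1_1230_1 :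
    ∃ t, chk3 (onCell 0 22369621 0 1073741824 1033476505 6710887 (corT true 1 c0B cB012E gB2q0 gB0q2 gB0q1 gB1q1 true false)) t 1 1230 1 = true :=
  ex3_a B012E_200_2_1230_1 B012E_200_3_1230_1
theorem B012E_200_1_615_1 :
    ∃ t, chk3 (onCell 0 22369621 0 1073741824 1033476505 6710887 (corT true 1 c0B cB012E gB2q0 gB0q2 gB0q1 gB1q1 true false)) t 1 615 1 = true :=
  ex3_b B012E_200_1_1230_1 B012E_200_1_1231_1
theorem B012E_200_3_2458_1 :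
    ∃ t, chk3 (onCell 0 22369621 0 1073741824 1033476505 6710887 (corT true 1 c0B cB012E gB2q0 gB0q2 gB0q1 gB1q1 true false)) t 3 2458 1 = true :=
  ex3_a B012E_200_6_2458_1 B012E_200_7_2458_1
theorem B012E_200_3_1229_1 :
    ∃ t, chk3 (onCell 0 22369621 0 1073741824 1033476505 6710887 (corT true 1 c0B cB012E gB2q0 gB0q2 gB0q1 gB1q1 true false)) t 3 1229 1 = true :=
  ex3_b B012E_200_3_2458_1 B012E_200_3_2459_1
theorem B012E_200_1_1229_1 :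
    ∃ t, chk3 (onCell 0 22369621 0 1073741824 1033476505 6710887 (corT true 1 c0B cB012E gB2q0 gB0q2 gB0q1 gB1q1 true false)) t 1 1229 1 = true :=
  ex3_a B012E_200_2_1229_1 B012E_200_3_1229_1
theorem B012E_200_3_2457_1 :
    ∃ t, chk3 (onCell 0 22369621 0 1073741824 1033476505 6710887 (corT true 1 c0B cB012E gB2q0 gB0q2 gB0q1 gB1q1 true false)) t 3 2457 1 = true :=
  ex3_a B012E_200_6_2457_1 B012E_200_7_2457_1
theorem B012E_200_7_4913_1 :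
    ∃ t, chk3 (onCell 0 22369621 0 1073741824 1033476505 6710887 (corT true 1 c0B cB012E gB2q0 gB0q2 gB0q1 gB1q1 true false)) t 7 4913 1 = true :=
  ex3_a B012E_200_14_4913_1 B012E_200_15_4913_1
theorem B012E_200_15_4912_1 :
    ∃ t, chk3 (onCell 0 22369621 0 1073741824 1033476505 6710887 (corT true 1 c0B cB012E gB2q0 gB0q2 gB0q1 gB1q1 true false)) t 15 4912 1 = true :=
  ex3_b B012E_200_15_9824_1 B012E_200_15_9825_1
theorem B012E_200_7_4912_1 :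
    ∃ t, chk3 (onCell 0 22369621 0 1073741824 1033476505 6710887 (corT true 1 c0B cB012E gB2q0 gB0q2 gB0q1 gB1q1 true false)) t 7 4912 1 = true :=
  ex3_a B012E_200_14_4912_1 B012E_200_15_4912_1
theorem B012E_200_7_2456_1 :
    ∃ t, chk3 (onCell 0 22369621 0 1073741824 1033476505 6710887 (corT true 1 c0B cB012E gB2q0 gB0q2 gB0q1 gB1q1 true false)) t 7 2456 1 = true :=
  ex3_b B012E_200_7_4912_1 B012E_200_7_4913_1
theorem B012E_200_3_2456_1 :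
    ∃ t, chk3 (onCell 0 22369621 0 1073741824 1033476505 6710887 (corT true 1 c0B cB012E gB2q0 gB0q2 gB0q1 gB1q1 true false)) t 3 2456 1 = true :=
  ex3_a B012E_200_6_2456_1 B012E_200_7_2456_1
theorem B012E_200_3_1228_1 :
    ∃ t, chk3 (onCell 0 22369621 0 1073741824 1033476505 6710887 (corT true 1 c0B cB012E gB2q0 gB0q2 gB0q1 gB1q1 true false)) t 3 1228 1 = true :=
  ex3_b B012E_200_3_2456_1 B012E_200_3_2457_1
theorem B012E_200_1_1228_1 :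
    ∃ t, chk3 (onCell 0 22369621 0 1073741824 1033476505 6710887 (corT true 1 c0B cB012E gB2q0 gB0q2 gB0q1 gB1q1 true false)) t 1 1228 1 = true :=
  ex3_a B012E_200_2_1228_1 B012E_200_3_1228_1
theorem B012E_200_1_614_1 :
    ∃ t, chk3 (onCell 0 22369621 0 1073741824 1033476505 6710887 (corT true 1 c0B cB012E gB2q0 gB0q2 gB0q1 gB1q1 true false)) t 1 614 1 = true :=
  ex3_b B012E_200_1_1228_1 B012E_200_1_1229_1
theorem B012E_200_1_307_1 :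
    ∃ t, chk3 (onCell 0 22369621 0 1073741824 1033476505 6710887 (corT true 1 c0B cB012E gB2q0 gB0q2 gB0q1 gB1q1 true false)) t 1 307 1 = true :=
  ex3_b B012E_200_1_614_1 B012E_200_1_615_1
theorem B012E_200_1_153_1 :
    ∃ t, chk3 (onCell 0 22369621 0 1073741824 1033476505 6710887 (corT true 1 c0B cB012E gB2q0 gB0q2 gB0q1 gB1q1 true false)) t 1 153 1 = true :=
  ex3_b B012E_200_1_306_1 B012E_200_1_307_1
theorem B012E_200_1_76_1 :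
    ∃ t, chk3 (onCell 0 22369621 0 1073741824 1033476505 6710887 (corT true 1 c0B cB012E gB2q0 gB0q2 gB0q1 gB1q1 true false)) t 1 76 1 = true :=
  ex3_b B012E_200_1_152_1 B012E_200_1_153_1
theorem B012E_200_1_38_1 :
    ∃ t, chk3 (onCell 0 22369621 0 1073741824 1033476505 6710887 (corT true 1 c0B cB012E gB2q0 gB0q2 gB0q1 gB1q1 true false)) t 1 38 1 = true :=
  ex3_b B012E_200_1_76_1 B012E_200_1_77_1
theorem B012E_200_1_19_1 :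
    ∃ t, chk3 (onCell 0 22369621 0 1073741824 1033476505 6710887 (corT true 1 c0B cB012E gB2q0 gB0q2 gB0q1 gB1q1 true false)) t 1 19 1 = true :=
  ex3_b B012E_200_1_38_1 B012E_200_1_39_1
theorem B012E_200_1_9_1 :
    ∃ t, chk3 (onCell 0 22369621 0 1073741824 1033476505 6710887 (corT true 1 c0B cB012E gB2q0 gB0q2 gB0q1 gB1q1 true false)) t 1 9 1 = true :=
  ex3_b B012E_200_1_18_1 B012E_200_1_19_1
theorem B012E_200_1_4_1 :
    ∃ t, chk3 (onCell 0 22369621 0 1073741824 1033476505 6710887 (corT true 1 c0B cB012E gB2q0 gB0q2 gB0q1 gB1q1 true false)) t 1 4 1 = true :=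
  ex3_b B012E_200_1_8_1 B012E_200_1_9_1
theorem B012E_200_1_2_1 :
    ∃ t, chk3 (onCell 0 22369621 0 1073741824 1033476505 6710887 (corT true 1 c0B cB012E gB2q0 gB0q2 gB0q1 gB1q1 true false)) t 1 2 1 = true :=
  ex3_b B012E_200_1_4_1 B012E_200_1_5_1
theorem B012E_200 :
    ∃ t, chk3 (onCell 0 22369621 0 1073741824 1033476505 6710887 (corT true 1 c0B cB012E gB2q0 gB0q2 gB0q1 gB1q1 true false)) t 1 1 1 = true :=
  ex3_b B012E_200_1_2_1 B012E_200_1_3_1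

def B012E_210_1_8_1 :
    ∃ t, chk3 (onCell 0 33554432 0 1073741824 1033476505 6710887 (corT true 1 c0B cB012E gB2q0 gB1q2 gB0q1 gB1q1 true false)) t 1 8 1 = true :=
  ⟨(T.l 1), by decide +kernel⟩

def B012E_210_1_18_1 :
    ∃ t, chk3 (onCell 0 33554432 0 1073741824 1033476505 6710887 (corT true 1 c0B cB012E gB2q0 gB1q2 gB0q1 gB1q1 true false)) t 1 18 1 = true :=
  ⟨(T.l 1), by decide +kernel⟩

def B012E_210_1_38_1 :
    ∃ t, chk3 (onCell 0 33554432 0 1073741824 1033476505 6710887 (corT true 1 c0B cB012E gB2q0 gB1q2 gB0q1 gB1q1 true false)) t 1 38 1 = true :=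
  ⟨(T.l 1), by decide +kernel⟩

def B012E_210_1_312_1 :
    ∃ t, chk3 (onCell 0 33554432 0 1073741824 1033476505 6710887 (corT true 1 c0B cB012E gB2q0 gB1q2 gB0q1 gB1q1 true false)) t 1 312 1 = true :=
  ⟨(T.b (T.l 1) (T.a (T.b (T.l 1) (T.b (T.a (T.l 1) (T.a (T.l 1) (T.l 1))) (T.a (T.a (T.l 204) (T.a (T.l 204) (T.c (T.l 204) (T.l 204)))) (T.b (T.b (T.a (T.a (T.l 204) (T.l 204)) (T.a (T.l 204) (T.l 204))) (T.a (T.a (T.l 204) (T.l 204)) (T.a (T.l 204) (T.l 204)))) (T.b (T.a (T.a (T.l 204) (T.l 204)) (T.a (T.l 204) (T.l 204))) (T.a (T.a (T.l 204) (T.l 204)) (T.a (T.l 204) (T.l 204)))))))) (T.b (T.l 1) (T.b (T.a (T.a (T.l 236) (T.l 204)) (T.a (T.l 0) (T.l 0))) (T.a (T.a (T.l 204) (T.l 204)) (T.a (T.l 0) (T.l 0))))))), by decide +kernel⟩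

def B012E_210_1_626_1 :
    ∃ t, chk3 (onCell 0 33554432 0 1073741824 1033476505 6710887 (corT true 1 c0B cB012E gB2q0 gB1q2 gB0q1 gB1q1 true false)) t 1 626 1 = true :=
  ⟨(T.a (T.b (T.b (T.a (T.a (T.l 204) (T.a (T.l 204) (T.l 716))) (T.b (T.b (T.a (T.a (T.l 204) (T.l 204)) (T.a (T.l 204) (T.l 204))) (T.a (T.a (T.l 204) (T.l 204)) (T.a (T.l 204) (T.l 204)))) (T.b (T.a (T.a (T.l 204) (T.l 204)) (T.a (T.l 204) (T.l 204))) (T.a (T.a (T.l 204) (T.l 204)) (T.a (T.l 204) (T.l 204)))))) (T.a (T.a (T.l 204) (T.a (T.l 204) (T.l 716))) (T.b (T.b (T.a (T.a (T.l 204) (T.l 204)) (T.a (T.l 204) (T.l 204))) (T.a (T.a (T.l 204) (T.l 204)) (T.a (T.l 204) (T.l 204)))) (T.b (T.a (T.a (T.l 204) (T.l 204)) (T.a (T.l 204) (T.l 204))) (T.a (T.a (T.l 204) (T.l 204)) (T.a (T.l 204) (T.l 204))))))) (T.b (T.a (T.a (T.l 204) (T.a (T.l 204) (T.l 716))) (T.b (T.b (T.a (T.a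 (T.l 204) (T.l 204)) (T.a (T.l 204) (T.l 204))) (T.a (T.a (T.l 204) (T.l 204)) (T.a (T.l 204) (T.l 204)))) (T.b (T.a (T.a (T.l 204) (T.l 204)) (T.a (T.l 204) (T.l 204))) (T.a (T.a (T.l 204) (T.l 204)) (T.a (T.l 204) (T.l 204)))))) (T.a (T.a (T.l 204) (T.a (T.l 204) (T.l 716))) (T.b (T.b (T.a (T.a (T.l 204) (T.l 204)) (T.a (T.l 204) (T.l 204))) (T.a (T.a (T.l 204) (T.l 204)) (T.a (T.l 204) (T.l 204)))) (T.b (T.a (T.a (T.l 204) (T.l 204)) (T.a (T.l 204) (T.l 204))) (T.a (T.a (T.l 204) (T.l 204)) (T.a (T.l 204) (T.l 204)))))))) (T.b (T.b (T.a (T.a (T.l 204) (T.l 204)) (T.a (T.l 0) (T.l 0))) (T.a (T.a (T.l 204) (T.l 204)) (T.a (T.l 0) (T.l 0)))) (T.b (T.a (T.a (T.l 204) (T.l 204)) (T.a (T.l 0) (T.l 0))) (T.a (T.a (T.l 204) (T.l 204)) (T.a (T.l 0) (T.l 0)))))), by decide +kernel⟩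

def B012E_210_1_627_1 :
    ∃ t, chk3 (onCell 0 33554432 0 1073741824 1033476505 6710887 (corT true 1 c0B cB012E gB2q0 gB1q2 gB0q1 gB1q1 true false)) t 1 627 1 = true :=
  ⟨(T.b (T.a (T.b (T.a (T.a (T.l 204) (T.a (T.l 204) (T.l 716))) (T.b (T.b (T.a (T.a (T.l 204) (T.l 204)) (T.a (T.l 204) (T.l 204))) (T.a (T.a (T.l 204) (T.l 204)) (T.a (T.l 204) (T.l 204)))) (T.b (T.a (T.a (T.l 204) (T.l 204)) (T.a (T.l 204) (T.l 204))) (T.a (T.a (T.l 204) (T.l 204)) (T.a (T.l 204) (T.l 204)))))) (T.a (T.a (T.l 204) (T.a (T.l 204) (T.l 716))) (T.b (T.b (T.a (T.a (T.l 204) (T.l 204)) (T.a (T.l 204) (T.l 204))) (T.a (T.a (T.l 204) (T.l 204)) (T.a (T.l 204) (T.l 204)))) (T.b (T.a (T.a (T.l 204) (T.l 204)) (T.a (T.l 204) (T.l 204))) (T.a (T.a (T.l 204) (T.l 204)) (T.a (T.l 204) (T.l 204))))))) (T.a (T.a (T.l 204) (T.l 204)) (T.a (T.l 0) (T.l 0)))) (T.a (T.b (T.a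 (T.a (T.l 204) (T.a (T.l 204) (T.l 716))) (T.b (T.b (T.a (T.a (T.l 204) (T.l 204)) (T.a (T.l 204) (T.l 204))) (T.a (T.a (T.l 204) (T.l 204)) (T.a (T.l 204) (T.l 204)))) (T.b (T.a (T.a (T.l 204) (T.l 204)) (T.a (T.l 204) (T.l 204))) (T.a (T.a (T.l 204) (T.l 204)) (T.a (T.l 204) (T.l 204)))))) (T.a (T.a (T.l 204) (T.a (T.l 204) (T.l 716))) (T.b (T.b (T.a (T.a (T.l 204) (T.l 204)) (T.a (T.l 204) (T.l 204))) (T.a (T.a (T.l 204) (T.l 204)) (T.a (T.l 204) (T.l 204)))) (T.b (T.a (T.a (T.l 204) (T.l 204)) (T.a (T.l 204) (T.l 204))) (T.a (T.a (T.l 204) (T.l 204)) (T.a (T.l 204) (T.l 204))))))) (T.a (T.a (T.l 204) (T.l 204)) (T.a (T.l 0) (T.l 0))))), by decide +kernel⟩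

def B012E_210_1_314_1 :
    ∃ t, chk3 (onCell 0 33554432 0 1073741824 1033476505 6710887 (corT true 1 c0B cB012E gB2q0 gB1q2 gB0q1 gB1q1 true false)) t 1 314 1 = true :=
  ⟨(T.b (T.b (T.a (T.b (T.a (T.a (T.l 204) (T.a (T.l 204) (T.l 204))) (T.b (T.b (T.a (T.a (T.l 204) (T.l 204)) (T.a (T.l 204) (T.l 204))) (T.a (T.a (T.l 204) (T.l 204)) (T.a (T.l 204) (T.l 204)))) (T.b (T.a (T.a (T.l 204) (T.l 204)) (T.a (T.l 204) (T.l 204))) (T.a (T.a (T.l 204) (T.l 204)) (T.a (T.l 204) (T.l 204)))))) (T.a (T.a (T.l 204) (T.a (T.l 204) (T.l 204))) (T.b (T.b (T.a (T.a (T.l 204) (T.l 204)) (T.a (T.l 204) (T.l 204))) (T.a (T.a (T.l 204) (T.l 204)) (T.a (T.l 204) (T.l 204)))) (T.b (T.a (T.a (T.l 204) (T.l 204)) (T.a (T.l 204) (T.l 204))) (T.a (T.a (T.l 204) (T.l 204)) (T.a (T.l 204) (T.l 204))))))) (T.a (T.a (T.l 204) (T.l 204)) (T.a (T.l 0) (T.l 0)))) (T.a (T.b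 (T.a (T.a (T.l 204) (T.a (T.l 204) (T.l 204))) (T.a (T.a (T.l 204) (T.l 204)) (T.a (T.l 204) (T.l 204)))) (T.a (T.a (T.l 204) (T.a (T.l 204) (T.l 204))) (T.a (T.a (T.l 204) (T.l 204)) (T.a (T.l 204) (T.l 204))))) (T.a (T.a (T.l 204) (T.l 204)) (T.a (T.l 0) (T.l 0))))) (T.b (T.a (T.b (T.a (T.a (T.l 204) (T.a (T.l 204) (T.l 204))) (T.a (T.a (T.l 204) (T.l 204)) (T.a (T.l 204) (T.l 204)))) (T.a (T.a (T.l 204) (T.a (T.l 204) (T.l 204))) (T.a (T.a (T.l 204) (T.l 204)) (T.a (T.l 204) (T.l 204))))) (T.a (T.a (T.l 204) (T.l 204)) (T.a (T.l 0) (T.l 0)))) (T.a (T.b (T.a (T.a (T.l 204) (T.a (T.l 204) (T.l 204))) (T.a (T.a (T.l 204) (T.l 204)) (T.a (T.l 204) (T.l 204)))) (T.a (T.a (T.l 204) (T.a (T.l 204) (T.l 204))) (T.a (T.a (T.l 204) (T.l 204)) (T.a (T.l 204) (T.l 204))))) (T.a (T.a (T.l 204) (T.l 204)) (T.l 32))))), by decide +kernel⟩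

def B012E_210_1_315_1 :
    ∃ t, chk3 (onCell 0 33554432 0 1073741824 1033476505 6710887 (corT true 1 c0B cB012E gB2q0 gB1q2 gB0q1 gB1q1 true false)) t 1 315 1 = true :=
  ⟨(T.b (T.b (T.a (T.b (T.a (T.a (T.l 204) (T.a (T.l 204) (T.l 204))) (T.a (T.a (T.l 204) (T.l 204)) (T.a (T.l 204) (T.l 204)))) (T.a (T.a (T.l 204) (T.a (T.l 204) (T.l 204))) (T.a (T.a (T.l 204) (T.l 204)) (T.a (T.l 204) (T.l 204))))) (T.a (T.a (T.l 204) (T.l 204)) (T.l 32))) (T.a (T.b (T.a (T.a (T.l 204) (T.a (T.l 204) (T.l 204))) (T.a (T.a (T.l 204) (T.l 204)) (T.a (T.l 204) (T.l 204)))) (T.a (T.a (T.l 204) (T.a (T.l 204) (T.l 204))) (T.a (T.a (T.l 204) (T.l 204)) (T.a (T.l 204) (T.l 204))))) (T.a (T.a (T.l 204) (T.l 204)) (T.l 0)))) (T.a (T.b (T.b (T.a (T.a (T.l 204) (T.a (T.l 204) (T.l 204))) (T.a (T.a (T.l 204) (T.l 204)) (T.a (T.l 204) (T.l 204)))) (T.a (T.a (T.l 204) (T.a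 (T.l 204) (T.l 204))) (T.a (T.a (T.l 204) (T.l 204)) (T.a (T.l 204) (T.l 204))))) (T.b (T.a (T.a (T.l 204) (T.a (T.l 204) (T.l 204))) (T.a (T.a (T.l 204) (T.l 204)) (T.a (T.l 204) (T.l 204)))) (T.a (T.a (T.l 204) (T.a (T.l 204) (T.l 204))) (T.a (T.a (T.l 204) (T.l 204)) (T.a (T.l 204) (T.l 204)))))) (T.a (T.a (T.l 204) (T.l 204)) (T.l 0)))), by decide +kernel⟩

def B012E_210_1_316_1 :
    ∃ t, chk3 (onCell 0 33554432 0 1073741824 1033476505 6710887 (corT true 1 c0B cB012E gB2q0 gB1q2 gB0q1 gB1q1 true false)) t 1 316 1 = true :=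
  ⟨(T.b (T.a (T.b (T.b (T.a (T.a (T.l 204) (T.a (T.l 204) (T.l 204))) (T.a (T.a (T.l 204) (T.l 204)) (T.a (T.l 204) (T.l 204)))) (T.a (T.a (T.l 204) (T.a (T.l 204) (T.l 204))) (T.a (T.a (T.l 204) (T.l 204)) (T.a (T.l 204) (T.l 204))))) (T.b (T.a (T.a (T.l 204) (T.a (T.l 204) (T.l 204))) (T.a (T.a (T.l 204) (T.l 204)) (T.a (T.l 204) (T.l 204)))) (T.a (T.a (T.l 204) (T.a (T.l 204) (T.l 204))) (T.a (T.a (T.l 204) (T.l 204)) (T.a (T.l 204) (T.l 204)))))) (T.a (T.a (T.l 204) (T.l 204)) (T.l 0))) (T.a (T.b (T.b (T.a (T.a (T.l 204) (T.a (T.l 204) (T.l 204))) (T.a (T.a (T.l 204) (T.l 204)) (T.a (T.l 204) (T.l 204)))) (T.a (T.a (T.l 204) (T.a (T.l 204) (T.l 204))) (T.a (T.a (T.l 204) (T.l 204)) (T.a (T.l 204) (T.l 204))))) (T.b (T.a (T.a (T.l 204) (T.a (T.l 204) (T.l 204))) (T.a (T.a (T.l 204) (T.l 204)) (T.a (T.l 204) (T.l 204)))) (T.a (T.a (T.l 204) (T.a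 (T.l 204) (T.l 204))) (T.a (T.a (T.l 204) (T.l 204)) (T.a (T.l 204) (T.l 204)))))) (T.a (T.a (T.l 204) (T.l 204)) (T.l 0)))), by decide +kernel⟩

def B012E_210_1_317_1 :
    ∃ t, chk3 (onCell 0 33554432 0 1073741824 1033476505 6710887 (corT true 1 c0B cB012E gB2q0 gB1q2 gB0q1 gB1q1 true false)) t 1 317 1 = true :=
  ⟨(T.b (T.a (T.b (T.b (T.a (T.a (T.l 204) (T.a (T.l 204) (T.l 204))) (T.a (T.a (T.l 204) (T.l 204)) (T.a (T.l 204) (T.l 204)))) (T.a (T.a (T.l 204) (T.a (T.l 204) (T.l 204))) (T.a (T.a (T.l 204) (T.l 204)) (T.a (T.l 204) (T.l 204))))) (T.b (T.a (T.a (T.l 204) (T.a (T.l 204) (T.l 204))) (T.a (T.a (T.l 204) (T.l 204)) (T.a (T.l 204) (T.l 204)))) (T.a (T.a (T.l 204) (T.a (T.l 204) (T.l 204))) (T.a (T.a (T.l 204) (T.l 204)) (T.l 716))))) (T.a (T.a (T.l 204) (T.l 204)) (T.l 0))) (T.a (T.b (T.b (T.a (T.a (T.l 204) (T.a (T.l 204) (T.l 204)))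 (T.a (T.a (T.l 204) (T.l 204)) (T.l 716))) (T.a (T.a (T.l 204) (T.a (T.l 204) (T.l 204))) (T.a (T.a (T.l 204) (T.l 204)) (T.l 716)))) (T.b (T.a (T.a (T.l 204) (T.a (T.l 204) (T.l 204))) (T.a (T.a (T.l 204) (T.l 204)) (T.l 716))) (T.a (T.a (T.l 204) (T.a (T.l 204) (T.l 204))) (T.a (T.a (T.l 204) (T.l 204)) (T.l 716))))) (T.a (T.a (T.l 204) (T.l 204)) (T.l 0)))), by decide +kernel⟩

def B012E_210_1_159_1 :
    ∃ t, chk3 (onCell 0 33554432 0 1073741824 1033476505 6710887 (corT true 1 c0B cB012E gB2q0 gB1q2 gB0q1 gB1q1 true false)) t 1 159 1 = true :=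
  ⟨(T.b (T.b (T.a (T.b (T.b (T.a (T.a (T.l 204) (T.a (T.l 204) (T.l 204))) (T.a (T.a (T.l 204) (T.l 204)) (T.l 716))) (T.a (T.a (T.l 204) (T.a (T.l 204) (T.l 204))) (T.a (T.a (T.l 204) (T.l 204)) (T.l 716)))) (T.b (T.a (T.a (T.l 204) (T.a (T.l 204) (T.l 204))) (T.a (T.a (T.l 204) (T.l 204)) (T.l 716))) (T.a (T.a (T.l 204) (T.a (T.l 204) (T.l 204))) (T.a (T.a (T.l 204) (T.l 204)) (T.l 716))))) (T.a (T.a (T.l 204) (T.l 204)) (T.l 0))) (T.a (T.b (T.b (T.a (T.a (T.l 204) (T.a (T.l 204) (T.l 204))) (T.a (T.a (T.l 204) (T.l 204)) (T.l 716))) (T.a (T.a (T.l 204) (T.a (T.l 204) (T.l 204))) (T.a (T.a (T.l 204) (T.l 204)) (T.l 716)))) (T.a (T.a (T.l 204) (T.a (T.l 204) (T.l 204))) (T.a (T.a (T.l 204) (T.l 204)) (T.l 716)))) (T.a (T.a (T.l 204) (T.l 204)) (T.l 0)))) (T.b (T.a (T.b (T.a (T.a (T.l 204) (T.a (T.l 204) (T.l 204))) (T.a (T.a (T.l 204) (T.l 204))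 (T.l 716))) (T.a (T.a (T.l 204) (T.a (T.l 204) (T.l 204))) (T.a (T.a (T.l 204) (T.l 204)) (T.l 204)))) (T.a (T.a (T.l 204) (T.l 204)) (T.l 0))) (T.a (T.b (T.a (T.a (T.l 204) (T.a (T.l 204) (T.l 204))) (T.a (T.a (T.l 204) (T.l 204)) (T.l 204))) (T.a (T.a (T.l 204) (T.a (T.l 204) (T.l 204))) (T.a (T.a (T.l 204) (T.l 204)) (T.l 204)))) (T.a (T.a (T.l 204) (T.l 204)) (T.l 0))))), by decide +kernel⟩

def B012E_210_1_160_1 :
    ∃ t, chk3 (onCell 0 33554432 0 1073741824 1033476505 6710887 (corT true 1 c0B cB012E gB2q0 gB1q2 gB0q1 gB1q1 true false)) t 1 160 1 = true :=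
  ⟨(T.b (T.b (T.a (T.b (T.a (T.a (T.l 204) (T.a (T.l 204) (T.l 204))) (T.a (T.a (T.l 204) (T.l 204)) (T.l 204))) (T.a (T.a (T.l 204) (T.a (T.l 204) (T.l 204))) (T.a (T.a (T.l 204) (T.l 204)) (T.l 204)))) (T.a (T.a (T.l 204) (T.l 204)) (T.l 0))) (T.a (T.b (T.a (T.a (T.l 204) (T.a (T.l 204) (T.l 204))) (T.a (T.a (T.l 204) (T.l 204)) (T.l 204))) (T.a (T.a (T.l 204) (T.a (T.l 204) (T.l 204))) (T.a (T.a (T.l 204) (T.l 204)) (T.l 204)))) (T.a (T.a (T.l 204) (T.l 204)) (T.l 0)))) (T.b (T.a (T.b (T.a (T.a (T.l 204) (T.a (T.l 204) (T.l 204))) (T.a (T.a (T.l 204) (T.l 204)) (T.l 204))) (T.a (T.a (T.l 204) (T.a (T.l 204) (T.l 204))) (T.a (T.a (T.l 204) (T.l 204)) (T.l 204)))) (T.a (T.a (T.l 204) (T.l 204)) (T.l 0))) (T.a (T.b (T.a (T.a (T.l 204) (T.a (T.l 204) (T.l 204))) (T.a (T.a (T.l 204) (T.l 204)) (T.l 204))) (T.a (T.a (T.l 204) (T.a (T.l 204) (T.l 204)))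 (T.a (T.a (T.l 204) (T.l 204)) (T.l 204)))) (T.a (T.a (T.l 204) (T.l 204)) (T.l 0))))), by decide +kernel⟩

def B012E_210_1_161_1 :
    ∃ t, chk3 (onCell 0 33554432 0 1073741824 1033476505 6710887 (corT true 1 c0B cB012E gB2q0 gB1q2 gB0q1 gB1q1 true false)) t 1 161 1 = true :=
  ⟨(T.b (T.b (T.a (T.b (T.a (T.a (T.l 204) (T.a (T.l 204) (T.l 204))) (T.a (T.a (T.l 204) (T.l 204)) (T.l 204))) (T.a (T.a (T.l 204) (T.a (T.l 204) (T.l 204))) (T.a (T.a (T.l 204) (T.l 204)) (T.l 204)))) (T.a (T.a (T.l 204) (T.l 204)) (T.l 0))) (T.a (T.b (T.a (T.a (T.l 204) (T.a (T.l 204) (T.l 204))) (T.a (T.a (T.l 204) (T.l 204)) (T.l 204))) (T.a (T.a (T.l 204) (T.a (T.l 204) (T.l 204))) (T.a (T.a (T.l 204) (T.l 204)) (T.l 204)))) (T.a (T.l 512) (T.l 0)))) (T.b (T.a (T.b (T.a (T.a (T.l 204) (T.a (T.l 204) (T.l 204))) (T.a (T.a (T.l 204) (T.l 204)) (T.l 204))) (T.a (T.a (T.l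 204) (T.a (T.l 204) (T.l 204))) (T.a (T.a (T.l 204) (T.l 204)) (T.l 204)))) (T.a (T.l 512) (T.l 0))) (T.a (T.b (T.a (T.a (T.l 204) (T.a (T.l 204) (T.l 204))) (T.a (T.a (T.l 204) (T.l 204)) (T.l 204))) (T.a (T.a (T.l 204) (T.a (T.l 204) (T.l 204))) (T.a (T.a (T.l 204) (T.l 204)) (T.l 204)))) (T.a (T.l 512) (T.l 0))))), by decide +kernel⟩

def B012E_210_1_81_1 :
    ∃ t, chk3 (onCell 0 33554432 0 1073741824 1033476505 6710887 (corT true 1 c0B cB012E gB2q0 gB1q2 gB0q1 gB1q1 true false)) t 1 81 1 = true :=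
  ⟨(T.b (T.b (T.b (T.a (T.b (T.a (T.a (T.l 204) (T.a (T.l 204) (T.l 204))) (T.a (T.a (T.l 204) (T.l 204)) (T.l 204))) (T.a (T.a (T.l 204) (T.a (T.l 204) (T.l 204))) (T.a (T.a (T.l 204) (T.l 204)) (T.l 204)))) (T.a (T.l 0) (T.l 0))) (T.a (T.b (T.a (T.a (T.l 204) (T.a (T.l 204) (T.l 204))) (T.a (T.a (T.l 204) (T.l 204)) (T.l 204))) (T.a (T.a (T.l 204) (T.a (T.l 204) (T.l 204))) (T.a (T.l 716) (T.l 204)))) (T.a (T.l 0) (T.l 0)))) (T.b (T.a (T.b (T.a (T.a (T.l 204) (T.a (T.l 204) (T.l 204))) (T.a (T.l 716) (T.l 204))) (T.a (T.a (T.l 204) (T.a (T.l 204) (T.l 204))) (T.a (T.l 716) (T.l 204)))) (T.a (T.l 0) (T.l 0))) (T.a (T.b (T.a (T.a (T.l 204) (T.a (T.l 204) (T.l 204))) (T.a (T.l 716) (T.l 204))) (T.a (T.a (T.l 204) (T.a (T.l 204) (T.l 204))) (T.a (T.l 716) (T.l 204)))) (T.a (T.l 0) (T.l 0))))) (T.b (T.b (T.a (T.b (T.a (T.a (T.l 204) (T.a (T.l 204)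 (T.l 204))) (T.a (T.l 716) (T.l 204))) (T.a (T.a (T.l 204) (T.a (T.l 204) (T.l 204))) (T.a (T.l 204) (T.l 204)))) (T.a (T.l 0) (T.l 0))) (T.a (T.b (T.a (T.a (T.l 204) (T.a (T.l 204) (T.l 204))) (T.a (T.l 204) (T.l 204))) (T.a (T.a (T.l 204) (T.a (T.l 204) (T.l 204))) (T.a (T.l 204) (T.l 204)))) (T.a (T.l 0) (T.l 0)))) (T.b (T.a (T.b (T.a (T.a (T.l 204) (T.a (T.l 204) (T.l 204))) (T.a (T.l 204) (T.l 204))) (T.a (T.a (T.l 204) (T.a (T.l 204) (T.l 204))) (T.a (T.l 204) (T.l 204)))) (T.a (T.l 0) (T.l 0))) (T.a (T.b (T.a (T.a (T.l 204) (T.a (T.l 204) (T.l 204))) (T.a (T.l 204) (T.l 204))) (T.a (T.a (T.l 204) (T.a (T.l 204) (T.l 204))) (T.a (T.l 204) (T.l 204)))) (T.a (T.l 0) (T.l 0)))))), by decide +kernel⟩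

def B012E_210_1_41_1 :
    ∃ t, chk3 (onCell 0 33554432 0 1073741824 1033476505 6710887 (corT true 1 c0B cB012E gB2q0 gB1q2 gB0q1 gB1q1 true false)) t 1 41 1 = true :=
  ⟨(T.b (T.a (T.b (T.b (T.b (T.b (T.a (T.a (T.l 204) (T.a (T.l 204) (T.l 204))) (T.a (T.l 204) (T.l 204))) (T.a (T.a (T.l 204) (T.a (T.l 204) (T.l 204))) (T.a (T.l 204) (T.l 204)))) (T.b (T.a (T.a (T.l 204) (T.a (T.l 204) (T.l 204))) (T.a (T.l 204) (T.l 204))) (T.a (T.a (T.l 204) (T.a (T.l 204) (T.l 204))) (T.a (T.l 204) (T.l 204))))) (T.b (T.b (T.a (T.a (T.l 204) (T.a (T.l 204) (T.l 204))) (T.a (T.l 204) (T.l 204))) (T.a (T.a (T.l 204) (T.a (T.l 204) (T.l 204))) (T.a (T.l 204) (T.l 204)))) (T.b (T.a (T.a (T.l 204) (T.a (T.l 204) (T.l 204))) (T.a (T.l 204) (T.l 204))) (T.a (T.a (T.l 204) (T.a (T.l 204) (T.l 204))) (T.a (T.l 204) (T.l 204)))))) (T.a (T.a (T.l 204) (T.a (T.l 204)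 (T.l 204))) (T.a (T.l 204) (T.l 204)))) (T.a (T.l 0) (T.l 0))) (T.a (T.a (T.a (T.l 204) (T.a (T.l 204) (T.l 204))) (T.a (T.l 204) (T.l 204))) (T.a (T.l 0) (T.l 0)))), by decide +kernel⟩

def B012E_210_1_21_1 :
    ∃ t, chk3 (onCell 0 33554432 0 1073741824 1033476505 6710887 (corT true 1 c0B cB012E gB2q0 gB1q2 gB0q1 gB1q1 true false)) t 1 21 1 = true :=
  ⟨(T.a (T.a (T.a (T.l 204) (T.a (T.l 204) (T.l 204))) (T.a (T.l 204) (T.l 204))) (T.a (T.l 0) (T.l 0))), by decide +kernel⟩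

def B012E_210_1_11_1 :
    ∃ t, chk3 (onCell 0 33554432 0 1073741824 1033476505 6710887 (corT true 1 c0B cB012E gB2q0 gB1q2 gB0q1 gB1q1 true false)) t 1 11 1 = true :=
  ⟨(T.a (T.a (T.a (T.l 204) (T.l 204)) (T.a (T.l 204) (T.l 204))) (T.a (T.l 0) (T.l 0))), by decide +kernel⟩

def B012E_210_1_3_1 :
    ∃ t, chk3 (onCell 0 33554432 0 1073741824 1033476505 6710887 (corT true 1 c0B cB012E gB2q0 gB1q2 gB0q1 gB1q1 true false)) t 1 3 1 = true :=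
  ⟨(T.b (T.b (T.a (T.a (T.a (T.l 204) (T.l 204)) (T.l 0)) (T.b (T.l 0) (T.l 0))) (T.a (T.a (T.a (T.l 204) (T.l 204)) (T.l 0)) (T.b (T.l 0) (T.l 0)))) (T.a (T.a (T.a (T.l 204) (T.l 204)) (T.l 0)) (T.a (T.l 0) (T.l 0)))), by decide +kernel⟩

theorem B012E_210_1_80_1 :
    ∃ t, chk3 (onCell 0 33554432 0 1073741824 1033476505 6710887 (corT true 1 c0B cB012E gB2q0 gB1q2 gB0q1 gB1q1 true false)) t 1 80 1 = true :=
  ex3_b B012E_210_1_160_1 B012E_210_1_161_1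
theorem B012E_210_1_40_1 :
    ∃ t, chk3 (onCell 0 33554432 0 1073741824 1033476505 6710887 (corT true 1 c0B cB012E gB2q0 gB1q2 gB0q1 gB1q1 true false)) t 1 40 1 = true :=
  ex3_b B012E_210_1_80_1 B012E_210_1_81_1
theorem B012E_210_1_20_1 :
    ∃ t, chk3 (onCell 0 33554432 0 1073741824 1033476505 6710887 (corT true 1 c0B cB012E gB2q0 gB1q2 gB0q1 gB1q1 true false)) t 1 20 1 = true :=
  ex3_b B012E_210_1_40_1 B012E_210_1_41_1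
theorem B012E_210_1_10_1 :
    ∃ t, chk3 (onCell 0 33554432 0 1073741824 1033476505 6710887 (corT true 1 c0B cB012E gB2q0 gB1q2 gB0q1 gB1q1 true false)) t 1 10 1 = true :=
  ex3_b B012E_210_1_20_1 B012E_210_1_21_1
theorem B012E_210_1_5_1 :
    ∃ t, chk3 (onCell 0 33554432 0 1073741824 1033476505 6710887 (corT true 1 c0B cB012E gB2q0 gB1q2 gB0q1 gB1q1 true false)) t 1 5 1 = true :=
  ex3_b B012E_210_1_10_1 B012E_210_1_11_1
theorem B012E_210_1_158_1 :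
    ∃ t, chk3 (onCell 0 33554432 0 1073741824 1033476505 6710887 (corT true 1 c0B cB012E gB2q0 gB1q2 gB0q1 gB1q1 true false)) t 1 158 1 = true :=
  ex3_b B012E_210_1_316_1 B012E_210_1_317_1
theorem B012E_210_1_79_1 :
    ∃ t, chk3 (onCell 0 33554432 0 1073741824 1033476505 6710887 (corT true 1 c0B cB012E gB2q0 gB1q2 gB0q1 gB1q1 true false)) t 1 79 1 = true :=
  ex3_b B012E_210_1_158_1 B012E_210_1_159_1
theorem B012E_210_1_157_1 :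
    ∃ t, chk3 (onCell 0 33554432 0 1073741824 1033476505 6710887 (corT true 1 c0B cB012E gB2q0 gB1q2 gB0q1 gB1q1 true false)) t 1 157 1 = true :=
  ex3_b B012E_210_1_314_1 B012E_210_1_315_1
theorem B012E_210_1_313_1 :
    ∃ t, chk3 (onCell 0 33554432 0 1073741824 1033476505 6710887 (corT true 1 c0B cB012E gB2q0 gB1q2 gB0q1 gB1q1 true false)) t 1 313 1 = true :=
  ex3_b B012E_210_1_626_1 B012E_210_1_627_1
theorem B012E_210_1_156_1 :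
    ∃ t, chk3 (onCell 0 33554432 0 1073741824 1033476505 6710887 (corT true 1 c0B cB012E gB2q0 gB1q2 gB0q1 gB1q1 true false)) t 1 156 1 = true :=
  ex3_b B012E_210_1_312_1 B012E_210_1_313_1
theorem B012E_210_1_78_1 :
    ∃ t, chk3 (onCell 0 33554432 0 1073741824 1033476505 6710887 (corT true 1 c0B cB012E gB2q0 gB1q2 gB0q1 gB1q1 true false)) t 1 78 1 = true :=
  ex3_b B012E_210_1_156_1 B012E_210_1_157_1
theorem B012E_210_1_39_1 :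
    ∃ t, chk3 (onCell 0 33554432 0 1073741824 1033476505 6710887 (corT true 1 c0B cB012E gB2q0 gB1q2 gB0q1 gB1q1 true false)) t 1 39 1 = true :=
  ex3_b B012E_210_1_78_1 B012E_210_1_79_1
theorem B012E_210_1_19_1 :
    ∃ t, chk3 (onCell 0 33554432 0 1073741824 1033476505 6710887 (corT true 1 c0B cB012E gB2q0 gB1q2 gB0q1 gB1q1 true false)) t 1 19 1 = true :=
  ex3_b B012E_210_1_38_1 B012E_210_1_39_1
theorem B012E_210_1_9_1 :
    ∃ t, chk3 (onCell 0 33554432 0 1073741824 1033476505 6710887 (corT true 1 c0B cB012E gB2q0 gB1q2 gB0q1 gB1q1 true false)) t 1 9 1 = true :=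
  ex3_b B012E_210_1_18_1 B012E_210_1_19_1
theorem B012E_210_1_4_1 :
    ∃ t, chk3 (onCell 0 33554432 0 1073741824 1033476505 6710887 (corT true 1 c0B cB012E gB2q0 gB1q2 gB0q1 gB1q1 true false)) t 1 4 1 = true :=
  ex3_b B012E_210_1_8_1 B012E_210_1_9_1
theorem B012E_210_1_2_1 :
    ∃ t, chk3 (onCell 0 33554432 0 1073741824 1033476505 6710887 (corT true 1 c0B cB012E gB2q0 gB1q2 gB0q1 gB1q1 true false)) t 1 2 1 = true :=
  ex3_b B012E_210_1_4_1 B012E_210_1_5_1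
theorem B012E_210 :
    ∃ t, chk3 (onCell 0 33554432 0 1073741824 1033476505 6710887 (corT true 1 c0B cB012E gB2q0 gB1q2 gB0q1 gB1q1 true false)) t 1 1 1 = true :=
  ex3_b B012E_210_1_2_1 B012E_210_1_3_1

def B012E_220_1_4_1 :
    ∃ t, chk3 (onCell 0 33554432 0 1073741824 1033476505 6710887 (corT true 1 c0B cB012E gB2q0 gB2q2 gB0q1 gB1q1 true false)) t 1 4 1 = true :=
  ⟨(T.l 1), by decide +kernel⟩

def B012E_220_1_20_1 :
    ∃ t, chk3 (onCell 0 33554432 0 1073741824 1033476505 6710887 (corT true 1 c0B cB012E gB2q0 gB2q2 gB0q1 gB1q1 true false)) t 1 20 1 = true :=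
  ⟨(T.b (T.l 1) (T.b (T.b (T.b (T.l 1) (T.a (T.b (T.a (T.a (T.l 204) (T.a (T.l 204) (T.l 204))) (T.a (T.l 204) (T.l 1))) (T.a (T.a (T.l 204) (T.a (T.l 204) (T.l 204))) (T.a (T.l 204) (T.l 204)))) (T.a (T.l 0) (T.l 0)))) (T.b (T.a (T.b (T.a (T.a (T.l 204) (T.a (T.l 204) (T.l 204))) (T.a (T.l 204) (T.l 204))) (T.a (T.a (T.l 204) (T.a (T.l 204) (T.l 204))) (T.a (T.l 204) (T.l 204)))) (T.a (T.l 0) (T.l 0))) (T.a (T.b (T.a (T.a (T.l 204) (T.a (T.l 204) (T.l 204))) (T.a (T.l 204) (T.l 204))) (T.a (T.a (T.l 204) (T.a (T.l 204) (T.l 204))) (T.a (T.l 204) (T.l 204)))) (T.a (T.l 0) (T.l 0))))) (T.b (T.b (T.a (T.b (T.a (T.a (T.l 204) (T.a (T.l 204) (T.l 204))) (T.a (T.l 204) (T.l 204))) (T.a (T.a (T.l 204) (T.a (T.l 204) (T.l 204))) (T.a (T.l 204) (T.l 204)))) (T.a (T.l 0) (T.l 0))) (T.a (T.b (T.a (T.a (T.l 204) (T.a (T.l 204) (T.l 204))) (T.a (T.l 204) (T.l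 204))) (T.a (T.a (T.l 204) (T.a (T.l 204) (T.l 204))) (T.a (T.l 204) (T.l 204)))) (T.a (T.l 0) (T.l 0)))) (T.b (T.a (T.b (T.a (T.a (T.l 204) (T.a (T.l 204) (T.l 204))) (T.a (T.l 204) (T.l 204))) (T.a (T.a (T.l 204) (T.a (T.l 204) (T.l 204))) (T.a (T.l 204) (T.l 204)))) (T.a (T.l 0) (T.l 0))) (T.a (T.b (T.a (T.a (T.l 204) (T.a (T.l 204) (T.l 204))) (T.a (T.l 204) (T.l 204))) (T.a (T.a (T.l 204) (T.a (T.l 204) (T.l 204))) (T.a (T.l 204) (T.l 204)))) (T.a (T.l 0) (T.l 0))))))), by decide +kernel⟩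

def B012E_220_1_21_1 :
    ∃ t, chk3 (onCell 0 33554432 0 1073741824 1033476505 6710887 (corT true 1 c0B cB012E gB2q0 gB2q2 gB0q1 gB1q1 true false)) t 1 21 1 = true :=
  ⟨(T.b (T.b (T.b (T.b (T.a (T.b (T.a (T.a (T.l 204) (T.a (T.l 204) (T.l 204))) (T.a (T.l 204) (T.l 204))) (T.a (T.a (T.l 204) (T.a (T.l 204) (T.l 204))) (T.a (T.l 204) (T.l 204)))) (T.a (T.l 0) (T.l 0))) (T.a (T.b (T.a (T.a (T.l 204) (T.a (T.l 204) (T.l 204))) (T.a (T.l 204) (T.l 204))) (T.a (T.a (T.l 204) (T.a (T.l 204) (T.l 204))) (T.a (T.l 204) (T.l 204)))) (T.a (T.l 0) (T.l 0)))) (T.b (T.a (T.b (T.a (T.a (T.l 204) (T.a (T.l 204) (T.l 204))) (T.a (T.l 204) (T.l 204))) (T.a (T.a (T.l 204) (T.a (T.l 204) (T.l 204))) (T.a (T.l 204) (T.l 204)))) (T.a (T.l 0) (T.l 0))) (T.a (T.b (T.a (T.a (T.l 204) (T.a (T.l 204) (T.l 204))) (T.a (T.l 204) (T.l 204))) (T.a (T.a (T.l 204) (T.a (T.l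 204) (T.l 204))) (T.a (T.l 204) (T.l 204)))) (T.a (T.l 0) (T.l 0))))) (T.a (T.b (T.b (T.b (T.a (T.a (T.l 204) (T.a (T.l 204) (T.l 204))) (T.a (T.l 204) (T.l 204))) (T.a (T.a (T.l 204) (T.a (T.l 204) (T.l 204))) (T.a (T.l 204) (T.l 204)))) (T.b (T.a (T.a (T.l 204) (T.a (T.l 204) (T.l 204))) (T.a (T.l 204) (T.l 204))) (T.a (T.a (T.l 204) (T.a (T.l 204) (T.l 204))) (T.a (T.l 204) (T.l 204))))) (T.b (T.b (T.a (T.a (T.l 204) (T.a (T.l 204) (T.l 204))) (T.a (T.l 204) (T.l 204))) (T.a (T.a (T.l 204) (T.a (T.l 204) (T.l 204))) (T.a (T.l 204) (T.l 204)))) (T.a (T.a (T.l 204) (T.l 716)) (T.a (T.l 204) (T.l 204))))) (T.a (T.l 0) (T.l 0)))) (T.a (T.a (T.a (T.l 204) (T.l 204)) (T.a (T.l 204) (T.l 204))) (T.a (T.l 0) (T.l 0)))), by decide +kernel⟩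

def B012E_220_1_11_1 :
    ∃ t, chk3 (onCell 0 33554432 0 1073741824 1033476505 6710887 (corT true 1 c0B cB012E gB2q0 gB2q2 gB0q1 gB1q1 true false)) t 1 11 1 = true :=
  ⟨(T.b (T.a (T.a (T.a (T.l 204) (T.l 204)) (T.a (T.l 204) (T.l 204))) (T.a (T.l 0) (T.l 0))) (T.a (T.a (T.a (T.l 204) (T.l 204)) (T.a (T.l 204) (T.l 204))) (T.a (T.l 0) (T.l 0)))), by decide +kernel⟩

def B012E_220_1_3_1 :
    ∃ t, chk3 (onCell 0 33554432 0 1073741824 1033476505 6710887 (corT true 1 c0B cB012E gB2q0 gB2q2 gB0q1 gB1q1 true false)) t 1 3 1 = true :=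
  ⟨(T.b (T.b (T.a (T.a (T.a (T.l 204) (T.l 204)) (T.l 204)) (T.b (T.l 0) (T.l 0))) (T.a (T.a (T.a (T.l 204) (T.l 204)) (T.l 204)) (T.b (T.l 0) (T.l 0)))) (T.a (T.a (T.a (T.l 204) (T.l 204)) (T.l 204)) (T.b (T.l 0) (T.l 0)))), by decide +kernel⟩

theorem B012E_220_1_10_1 :
    ∃ t, chk3 (onCell 0 33554432 0 1073741824 1033476505 6710887 (corT true 1 c0B cB012E gB2q0 gB2q2 gB0q1 gB1q1 true false)) t 1 10 1 = true :=
  ex3_b B012E_220_1_20_1 B012E_220_1_21_1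
theorem B012E_220_1_5_1 :
    ∃ t, chk3 (onCell 0 33554432 0 1073741824 1033476505 6710887 (corT true 1 c0B cB012E gB2q0 gB2q2 gB0q1 gB1q1 true false)) t 1 5 1 = true :=
  ex3_b B012E_220_1_10_1 B012E_220_1_11_1
theorem B012E_220_1_2_1 :
    ∃ t, chk3 (onCell 0 33554432 0 1073741824 1033476505 6710887 (corT true 1 c0B cB012E gB2q0 gB2q2 gB0q1 gB1q1 true false)) t 1 2 1 = true :=
  ex3_b B012E_220_1_4_1 B012E_220_1_5_1
theorem B012E_220 :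
    ∃ t, chk3 (onCell 0 33554432 0 1073741824 1033476505 6710887 (corT true 1 c0B cB012E gB2q0 gB2q2 gB0q1 gB1q1 true false)) t 1 1 1 = true :=
  ex3_b B012E_220_1_2_1 B012E_220_1_3_1

def B012L_050 :
    ∃ t, chk3 (onCell 0 33554432 0 1073741824 1033476505 6710887 (corT true 1 c0B cB012L gB0q0 gB5q2 gB0q1 gB1q1 true false)) t 1 1 1 = true :=
  ⟨(T.l 1), by decide +kernel⟩

def B012L_150 :
    ∃ t, chk3 (onCell 0 33554432 0 1073741824 1033476505 6710887 (corT true 1 c0B cB012L gB1q0 gB5q2 gB0q1 gB1q1 true false)) t 1 1 1 = true :=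
  ⟨(T.l 1), by decide +kernel⟩

def B012L_250 :
    ∃ t, chk3 (onCell 0 33554432 0 1073741824 1033476505 6710887 (corT true 1 c0B cB012L gB2q0 gB5q2 gB0q1 gB1q1 true false)) t 1 1 1 = true :=
  ⟨(T.l 1), by decide +kernel⟩

def B012R_002_1_2_1 :
    ∃ t, chk3 (onCell 0 33554432 0 1073741824 1033476505 6710887 (corT true 1 c0B cB012R gB0q0 gB0q2 gB2q1 gB3q1 false true)) t 1 2 1 = true :=
  ⟨(T.b (T.a (T.b (T.l 0) (T.l 0)) (T.a (T.l 816) (T.l 816))) (T.b (T.a (T.l 816) (T.a (T.a (T.l 816) (T.b (T.l 816) (T.l 816))) (T.b (T.b (T.l 816) (T.l 816)) (T.b (T.l 816) (T.l 816))))) (T.a (T.b (T.l 816) (T.l 816)) (T.a (T.a (T.b (T.b (T.l 816) (T.l 816)) (T.b (T.l 816) (T.l 816))) (T.b (T.l 816) (T.l 816))) (T.b (T.b (T.l 816) (T.l 816)) (T.a (T.l 816) (T.l 816))))))), by decide +kernel⟩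

def B012R_002_1_3_1 :
    ∃ t, chk3 (onCell 0 33554432 0 1073741824 1033476505 6710887 (corT true 1 c0B cB012R gB0q0 gB0q2 gB2q1 gB3q1 false true)) t 1 3 1 = true :=
  ⟨(T.b (T.b (T.a (T.a (T.l 816) (T.a (T.l 816) (T.a (T.b (T.l 816) (T.l 816)) (T.b (T.l 816) (T.l 816))))) (T.a (T.a (T.a (T.b (T.l 816) (T.l 816)) (T.l 816)) (T.b (T.l 816) (T.l 816))) (T.a (T.b (T.l 816) (T.l 816)) (T.b (T.l 816) (T.l 816))))) (T.a (T.a (T.l 816) (T.a (T.a (T.l 816) (T.b (T.l 816) (T.l 816))) (T.a (T.b (T.l 816) (T.l 816)) (T.b (T.l 816) (T.l 816))))) (T.a (T.a (T.a (T.b (T.l 816) (T.l 816)) (T.l 816)) (T.b (T.l 816) (T.l 816))) (T.a (T.b (T.l 816) (T.l 816)) (T.b (T.l 816) (T.b (T.l 816) (T.l 816))))))) (T.b (T.a (T.a (T.l 816) (T.a (T.a (T.a (T.l 816) (T.b (T.l 816) (T.l 816))) (T.b (T.l 816) (T.l 816))) (T.a (T.b (T.l 816) (T.l 816)) (T.b (T.l 816) (T.l 816)))))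 (T.a (T.a (T.a (T.l 816) (T.l 816)) (T.a (T.l 816) (T.b (T.l 816) (T.l 816)))) (T.a (T.b (T.b (T.l 816) (T.l 816)) (T.b (T.l 816) (T.l 816))) (T.b (T.b (T.l 816) (T.l 816)) (T.b (T.l 816) (T.l 816)))))) (T.a (T.a (T.l 816) (T.a (T.a (T.a (T.b (T.l 816) (T.l 816)) (T.l 816)) (T.b (T.l 816) (T.l 816))) (T.a (T.b (T.l 816) (T.l 816)) (T.b (T.l 816) (T.l 816))))) (T.a (T.a (T.a (T.b (T.l 816) (T.l 816)) (T.b (T.l 816) (T.l 816))) (T.a (T.b (T.l 816) (T.l 816)) (T.b (T.l 816) (T.l 816)))) (T.a (T.a (T.b (T.l 816) (T.l 816)) (T.b (T.l 816) (T.l 816))) (T.b (T.a (T.l 816) (T.l 816)) (T.a (T.l 816) (T.l 816)))))))), by decide +kernel⟩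

theorem B012R_002 :
    ∃ t, chk3 (onCell 0 33554432 0 1073741824 1033476505 6710887 (corT true 1 c0B cB012R gB0q0 gB0q2 gB2q1 gB3q1 false true)) t 1 1 1 = true :=
  ex3_b B012R_002_1_2_1 B012R_002_1_3_1

def B012R_003 :
    ∃ t, chk3 (onCell 0 33554432 0 1073741824 1033476505 6710887 (corT true 1 c0B cB012R gB0q0 gB0q2 gB3q1 gB4q1 true true)) t 1 1 1 = true :=
  ⟨(T.b (T.b (T.l 1) (T.l 1)) (T.l 1)), by decide +kernel⟩

def B012R_004 :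
    ∃ t, chk3 (onCell 0 33554432 0 1073741824 1033476505 6710887 (corT true 1 c0B cB012R gB0q0 gB0q2 gB4q1 gB5q1 true true)) t 1 1 1 = true :=
  ⟨(T.l 1), by decide +kernel⟩

def B012R_012 :
    ∃ t, chk3 (onCell 0 33554432 0 1073741824 1033476505 6710887 (corT true 1 c0B cB012R gB0q0 gB1q2 gB2q1 gB3q1 false true)) t 1 1 1 = true :=
  ⟨(T.a (T.b (T.b (T.l 0) (T.l 816)) (T.l 816)) (T.b (T.a (T.l 816) (T.l 816)) (T.b (T.l 816) (T.a (T.l 816) (T.b (T.l 816) (T.l 816)))))), by decide +kernel⟩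

def B012R_013 :
    ∃ t, chk3 (onCell 0 33554432 0 1073741824 1033476505 6710887 (corT true 1 c0B cB012R gB0q0 gB1q2 gB3q1 gB4q1 true true)) t 1 1 1 = true :=
  ⟨(T.b (T.l 1) (T.l 1)), by decide +kernel⟩

def B012R_014 :
    ∃ t, chk3 (onCell 0 33554432 0 1073741824 1033476505 6710887 (corT true 1 c0B cB012R gB0q0 gB1q2 gB4q1 gB5q1 true true)) t 1 1 1 = true :=
  ⟨(T.l 1), by decide +kernel⟩

def B012R_022 :
    ∃ t, chk3 (onCell 0 33554432 0 1073741824 1033476505 6710887 (corT true 1 c0B cB012R gB0q0 gB2q2 gB2q1 gB3q1 false true)) t 1 1 1 = true :=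
  ⟨(T.a (T.b (T.b (T.l 0) (T.l 816)) (T.l 816)) (T.a (T.b (T.l 816) (T.l 816)) (T.b (T.l 816) (T.b (T.l 816) (T.l 816))))), by decide +kernel⟩

def B012R_023 :
    ∃ t, chk3 (onCell 0 33554432 0 1073741824 1033476505 6710887 (corT true 1 c0B cB012R gB0q0 gB2q2 gB3q1 gB4q1 true true)) t 1 1 1 = true :=
  ⟨(T.b (T.l 1) (T.l 1)), by decide +kernel⟩

def B012R_024 :
    ∃ t, chk3 (onCell 0 33554432 0 1073741824 1033476505 6710887 (corT true 1 c0B cB012R gB0q0 gB2q2 gB4q1 gB5q1 true true)) t 1 1 1 = true :=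
  ⟨(T.l 1), by decide +kernel⟩

end Pool.Agent.Strip051.G.I9625_9688.Tab.CG
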