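import Pool.Agent.Strip051.G.I9625_9688.Gn
import Pool.Agent.Strip051.PB.Corns
import Pool.Agent.Strip051.PB.CornW

/-! # Certificates of the aligned corners (generated) -/

set_option linter.all false

namespace Pool.Agent.Strip051.G.I9625_9688.Tab.CG

open Pool.Agent.Strip051.PB

def B012R_102 :
    ∃ t, chk3 (onCell 0 33554432 0 1073741824 1033476505 6710887 (corT true 1 c0B cB012R gB1q0 gB0q2 gB2q1 gB3q1 false true)) t 1 1 1 = true :=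
  ⟨(T.b (T.b (T.b (T.l 2) (T.a (T.a (T.a (T.l 816) (T.l 816)) (T.l 816)) (T.l 816))) (T.b (T.b (T.a (T.a (T.a (T.l 816) (T.l 816)) (T.l 816)) (T.b (T.l 816) (T.l 816))) (T.a (T.a (T.a (T.l 816) (T.l 816)) (T.l 816)) (T.b (T.l 816) (T.l 816)))) (T.b (T.a (T.a (T.a (T.l 816) (T.l 816)) (T.l 816)) (T.b (T.l 816) (T.l 816))) (T.a (T.a (T.a (T.l 816) (T.l 816)) (T.l 816)) (T.b (T.l 816) (T.l 816)))))) (T.b (T.b (T.a (T.a (T.a (T.l 816) (T.l 816)) (T.a (T.l 816) (T.l 816))) (T.a (T.l 816) (T.l 816))) (T.a (T.a (T.a (T.l 816) (T.l 816)) (T.a (T.l 816) (T.l 816))) (T.a (T.l 816) (T.l 816)))) (T.b (T.a (T.a (T.a (T.l 816) (T.l 816)) (T.a (T.l 816) (T.l 816))) (T.a (T.l 816) (T.l 816))) (T.a (T.a (T.a (T.l 816) (T.l 816)) (T.a (T.l 816) (T.l 816))) (T.a (T.b (T.l 816) (T.l 816)) (T.l 816)))))), by decide +kernel⟩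

def B012R_103 :
    ∃ t, chk3 (onCell 0 33554432 0 1073741824 1033476505 6710887 (corT true 1 c0B cB012R gB1q0 gB0q2 gB3q1 gB4q1 true true)) t 1 1 1 = true :=
  ⟨(T.b (T.b (T.b (T.a (T.a (T.a (T.l 816) (T.l 0)) (T.l 0)) (T.l 0)) (T.a (T.b (T.a (T.a (T.l 816) (T.l 816)) (T.l 816)) (T.l 1)) (T.l 816))) (T.l 1)) (T.l 1)), by decide +kernel⟩

def B012R_104 :
    ∃ t, chk3 (onCell 0 33554432 0 1073741824 1033476505 6710887 (corT true 1 c0B cB012R gB1q0 gB0q2 gB4q1 gB5q1 true true)) t 1 1 1 = true :=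
  ⟨(T.b (T.l 1) (T.l 1)), by decide +kernel⟩

def B012R_112 :
    ∃ t, chk3 (onCell 0 33554432 0 1073741824 1033476505 6710887 (corT true 1 c0B cB012R gB1q0 gB1q2 gB2q1 gB3q1 false true)) t 1 1 1 = true :=
  ⟨(T.b (T.a (T.a (T.a (T.l 816) (T.l 816)) (T.l 816)) (T.l 816)) (T.b (T.a (T.a (T.a (T.l 816) (T.l 816)) (T.l 816)) (T.l 816)) (T.a (T.a (T.a (T.l 816) (T.l 816)) (T.l 816)) (T.a (T.l 816) (T.l 816))))), by decide +kernel⟩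

def B012R_113 :
    ∃ t, chk3 (onCell 0 33554432 0 1073741824 1033476505 6710887 (corT true 1 c0B cB012R gB1q0 gB1q2 gB3q1 gB4q1 true true)) t 1 1 1 = true :=
  ⟨(T.b (T.b (T.a (T.a (T.a (T.l 816) (T.l 0)) (T.l 0)) (T.l 0)) (T.l 1)) (T.l 1)), by decide +kernel⟩

def B012R_114 :
    ∃ t, chk3 (onCell 0 33554432 0 1073741824 1033476505 6710887 (corT true 1 c0B cB012R gB1q0 gB1q2 gB4q1 gB5q1 true true)) t 1 1 1 = true :=
  ⟨(T.b (T.l 1) (T.l 1)), by decide +kernel⟩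

def B012R_122 :
    ∃ t, chk3 (onCell 0 33554432 0 1073741824 1033476505 6710887 (corT true 1 c0B cB012R gB1q0 gB2q2 gB2q1 gB3q1 false true)) t 1 1 1 = true :=
  ⟨(T.b (T.a (T.a (T.a (T.l 816) (T.l 816)) (T.l 816)) (T.l 816)) (T.b (T.a (T.a (T.a (T.l 816) (T.l 816)) (T.l 816)) (T.l 816)) (T.a (T.a (T.a (T.l 816) (T.l 816)) (T.l 816)) (T.l 0)))), by decide +kernel⟩

def B012R_123 :
    ∃ t, chk3 (onCell 0 33554432 0 1073741824 1033476505 6710887 (corT true 1 c0B cB012R gB1q0 gB2q2 gB3q1 gB4q1 true true)) t 1 1 1 = true :=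
  ⟨(T.b (T.a (T.a (T.a (T.l 816) (T.l 0)) (T.l 0)) (T.l 0)) (T.b (T.l 1) (T.l 1))), by decide +kernel⟩

def B012R_124 :
    ∃ t, chk3 (onCell 0 33554432 0 1073741824 1033476505 6710887 (corT true 1 c0B cB012R gB1q0 gB2q2 gB4q1 gB5q1 true true)) t 1 1 1 = true :=
  ⟨(T.b (T.l 1) (T.l 1)), by decide +kernel⟩

def B012R_202 :
    ∃ t, chk3 (onCell 0 33554432 0 1073741824 1033476505 6710887 (corT true 1 c0B cB012R gB2q0 gB0q2 gB2q1 gB3q1 false true)) t 1 1 1 = true :=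
  ⟨(T.b (T.l 2) (T.b (T.b (T.a (T.a (T.a (T.l 816) (T.l 816)) (T.l 816)) (T.b (T.l 816) (T.l 816))) (T.a (T.a (T.a (T.l 816) (T.l 816)) (T.l 816)) (T.b (T.l 816) (T.l 816)))) (T.b (T.a (T.a (T.a (T.l 816) (T.l 816)) (T.l 816)) (T.b (T.l 816) (T.l 816))) (T.a (T.a (T.a (T.l 816) (T.l 816)) (T.l 816)) (T.b (T.l 816) (T.l 816)))))), by decide +kernel⟩

def B012R_203 :
    ∃ t, chk3 (onCell 0 33554432 0 1073741824 1033476505 6710887 (corT true 1 c0B cB012R gB2q0 gB0q2 gB3q1 gB4q1 true true)) t 1 1 1 = true :=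
  ⟨(T.b (T.b (T.l 2) (T.b (T.l 2) (T.a (T.a (T.a (T.l 816) (T.l 816)) (T.l 816)) (T.b (T.l 816) (T.l 816))))) (T.b (T.b (T.a (T.a (T.a (T.l 816) (T.l 816)) (T.l 816)) (T.b (T.l 816) (T.l 816))) (T.l 1)) (T.l 1))), by decide +kernel⟩

def B012R_204 :
    ∃ t, chk3 (onCell 0 33554432 0 1073741824 1033476505 6710887 (corT true 1 c0B cB012R gB2q0 gB0q2 gB4q1 gB5q1 true true)) t 1 1 1 = true :=
  ⟨(T.b (T.b (T.l 2) (T.b (T.b (T.l 2) (T.a (T.a (T.l 2) (T.l 0)) (T.l 816))) (T.b (T.a (T.a (T.a (T.l 816) (T.l 816)) (T.l 816)) (T.l 816)) (T.a (T.a (T.a (T.l 816) (T.l 816)) (T.l 816)) (T.l 816))))) (T.b (T.l 1) (T.l 1))), by decide +kernel⟩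

def B012R_212 :
    ∃ t, chk3 (onCell 0 33554432 0 1073741824 1033476505 6710887 (corT true 1 c0B cB012R gB2q0 gB1q2 gB2q1 gB3q1 false true)) t 1 1 1 = true :=
  ⟨(T.b (T.l 2) (T.b (T.a (T.a (T.a (T.l 816) (T.l 816)) (T.l 816)) (T.l 816)) (T.a (T.a (T.a (T.l 816) (T.l 816)) (T.l 816)) (T.b (T.l 816) (T.l 816))))), by decide +kernel⟩

def B012R_213 :
    ∃ t, chk3 (onCell 0 33554432 0 1073741824 1033476505 6710887 (corT true 1 c0B cB012R gB2q0 gB1q2 gB3q1 gB4q1 true true)) t 1 1 1 = true :=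
  ⟨(T.b (T.l 2) (T.b (T.a (T.a (T.a (T.l 816) (T.l 816)) (T.l 816)) (T.l 816)) (T.b (T.b (T.l 1) (T.l 1)) (T.l 1)))), by decide +kernel⟩

def B012R_214 :
    ∃ t, chk3 (onCell 0 33554432 0 1073741824 1033476505 6710887 (corT true 1 c0B cB012R gB2q0 gB1q2 gB4q1 gB5q1 true true)) t 1 1 1 = true :=
  ⟨(T.b (T.b (T.l 2) (T.a (T.l 2) (T.l 0))) (T.b (T.a (T.b (T.a (T.a (T.l 816) (T.l 816)) (T.l 816)) (T.b (T.b (T.a (T.a (T.l 816) (T.l 816)) (T.l 1)) (T.l 1)) (T.l 1))) (T.l 816)) (T.l 1))), by decide +kernel⟩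

def B012R_222 :
    ∃ t, chk3 (onCell 0 33554432 0 1073741824 1033476505 6710887 (corT true 1 c0B cB012R gB2q0 gB2q2 gB2q1 gB3q1 false true)) t 1 1 1 = true :=
  ⟨(T.l 2), by decide +kernel⟩

def B012R_223 :
    ∃ t, chk3 (onCell 0 33554432 0 1073741824 1033476505 6710887 (corT true 1 c0B cB012R gB2q0 gB2q2 gB3q1 gB4q1 true true)) t 1 1 1 = true :=
  ⟨(T.l 2), by decide +kernel⟩

def B012R_224 :
    ∃ t, chk3 (onCell 0 33554432 0 1073741824 1033476505 6710887 (corT true 1 c0B cB012R gB2q0 gB2q2 gB4q1 gB5q1 true true)) t 1 1 1 = true :=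
  ⟨(T.l 2), by decide +kernel⟩

def B022E_000 :
    ∃ t, chk3 (onCell 0 26843545 0 1073741824 1033476505 6710887 (corT true 1 c0B cB022E gB0q0 gB0q2 gB0q2 gB1q2 true true)) t 1 1 1 = true :=
  ⟨(T.l 2), by decide +kernel⟩

def B022E_001 :
    ∃ t, chk3 (onCell 0 26843545 0 1073741824 1033476505 6710887 (corT true 1 c0B cB022E gB0q0 gB0q2 gB1q2 gB2q2 true true)) t 1 1 1 = true :=
  ⟨(T.l 2), by decide +kernel⟩

def B022E_002 :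
    ∃ t, chk3 (onCell 0 26843545 0 1073741824 1033476505 6710887 (corT true 1 c0B cB022E gB0q0 gB0q2 gB2q2 gB3q2 true false)) t 1 1 1 = true :=
  ⟨(T.b (T.b (T.a (T.a (T.l 204) (T.l 204)) (T.a (T.l 204) (T.l 0))) (T.a (T.a (T.l 0) (T.l 0)) (T.a (T.l 0) (T.l 0)))) (T.a (T.a (T.l 0) (T.a (T.l 0) (T.l 0))) (T.a (T.b (T.l 0) (T.l 816)) (T.b (T.l 0) (T.l 816))))), by decide +kernel⟩

def B022E_010 :
    ∃ t, chk3 (onCell 0 33554432 0 1073741824 1033476505 6710887 (corT true 1 c0B cB022E gB0q0 gB1q2 gB0q2 gB1q2 true true)) t 1 1 1 = true :=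
  ⟨(T.l 2), by decide +kernel⟩

def B022E_011 :
    ∃ t, chk3 (onCell 0 33554432 0 1073741824 1033476505 6710887 (corT true 1 c0B cB022E gB0q0 gB1q2 gB1q2 gB2q2 true true)) t 1 1 1 = true :=
  ⟨(T.l 2), by decide +kernel⟩

def B022E_012 :
    ∃ t, chk3 (onCell 0 33554432 0 1073741824 1033476505 6710887 (corT true 1 c0B cB022E gB0q0 gB1q2 gB2q2 gB3q2 true false)) t 1 1 1 = true :=
  ⟨(T.a (T.b (T.l 0) (T.l 0)) (T.b (T.a (T.l 0) (T.b (T.l 0) (T.l 0))) (T.a (T.b (T.l 0) (T.l 816)) (T.b (T.l 0) (T.l 0))))), by decide +kernel⟩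

def B022E_020 :
    ∃ t, chk3 (onCell 0 33554432 0 1073741824 1033476505 6710887 (corT true 1 c0B cB022E gB0q0 gB2q2 gB0q2 gB1q2 true true)) t 1 1 1 = true :=
  ⟨(T.l 2), by decide +kernel⟩

def B022E_021 :
    ∃ t, chk3 (onCell 0 33554432 0 1073741824 1033476505 6710887 (corT true 1 c0B cB022E gB0q0 gB2q2 gB1q2 gB2q2 true true)) t 1 1 1 = true :=
  ⟨(T.l 2), by decide +kernel⟩

def B022E_022 :
    ∃ t, chk3 (onCell 0 33554432 0 1073741824 1033476505 6710887 (corT true 1 c0B cB022E gB0q0 gB2q2 gB2q2 gB3q2 true false)) t 1 1 1 = true :=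
  ⟨(T.a (T.b (T.l 204) (T.l 0)) (T.b (T.b (T.a (T.l 204) (T.l 204)) (T.l 204)) (T.b (T.b (T.l 204) (T.l 204)) (T.a (T.l 0) (T.l 0))))), by decide +kernel⟩

def B022E_100 :
    ∃ t, chk3 (onCell 0 26843545 0 1073741824 1033476505 6710887 (corT true 1 c0B cB022E gB1q0 gB0q2 gB0q2 gB1q2 true true)) t 1 1 1 = true :=
  ⟨(T.l 2), by decide +kernel⟩

def B022E_101 :
    ∃ t, chk3 (onCell 0 26843545 0 1073741824 1033476505 6710887 (corT true 1 c0B cB022E gB1q0 gB0q2 gB1q2 gB2q2 true true)) t 1 1 1 = true :=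
  ⟨(T.l 2), by decide +kernel⟩

def B022E_102 :
    ∃ t, chk3 (onCell 0 26843545 0 1073741824 1033476505 6710887 (corT true 1 c0B cB022E gB1q0 gB0q2 gB2q2 gB3q2 true false)) t 1 1 1 = true :=
  ⟨(T.b (T.b (T.a (T.a (T.l 204) (T.l 204)) (T.a (T.l 204) (T.l 0))) (T.a (T.a (T.l 0) (T.l 0)) (T.a (T.b (T.l 0) (T.l 0)) (T.l 0)))) (T.b (T.a (T.a (T.l 816) (T.a (T.l 0) (T.l 0))) (T.a (T.l 0) (T.l 0))) (T.a (T.a (T.l 816) (T.a (T.l 816) (T.l 816))) (T.a (T.l 816) (T.l 816))))), by decide +kernel⟩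

def B022E_110 :
    ∃ t, chk3 (onCell 0 33554432 0 1073741824 1033476505 6710887 (corT true 1 c0B cB022E gB1q0 gB1q2 gB0q2 gB1q2 true true)) t 1 1 1 = true :=
  ⟨(T.l 2), by decide +kernel⟩

def B022E_111 :
    ∃ t, chk3 (onCell 0 33554432 0 1073741824 1033476505 6710887 (corT true 1 c0B cB022E gB1q0 gB1q2 gB1q2 gB2q2 true true)) t 1 1 1 = true :=
  ⟨(T.l 2), by decide +kernel⟩

def B022E_112 :
    ∃ t, chk3 (onCell 0 33554432 0 1073741824 1033476505 6710887 (corT true 1 c0B cB022E gB1q0 gB1q2 gB2q2 gB3q2 true false)) t 1 1 1 = true :=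
  ⟨(T.b (T.b (T.a (T.l 204) (T.b (T.a (T.l 204) (T.l 204)) (T.a (T.l 204) (T.l 0)))) (T.a (T.a (T.l 204) (T.b (T.l 204) (T.l 0))) (T.a (T.b (T.l 0) (T.l 0)) (T.l 0)))) (T.b (T.a (T.a (T.l 0) (T.b (T.l 0) (T.l 0))) (T.a (T.l 0) (T.l 0))) (T.a (T.a (T.a (T.l 816) (T.b (T.l 0) (T.l 0))) (T.b (T.l 0) (T.l 0))) (T.a (T.l 0) (T.l 0))))), by decide +kernel⟩

def B022E_120 :
    ∃ t, chk3 (onCell 0 33554432 0 1073741824 1033476505 6710887 (corT true 1 c0B cB022E gB1q0 gB2q2 gB0q2 gB1q2 true true)) t 1 1 1 = true :=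
  ⟨(T.l 2), by decide +kernel⟩

def B022E_121 :
    ∃ t, chk3 (onCell 0 33554432 0 1073741824 1033476505 6710887 (corT true 1 c0B cB022E gB1q0 gB2q2 gB1q2 gB2q2 true true)) t 1 1 1 = true :=
  ⟨(T.l 2), by decide +kernel⟩

def B022E_122 :
    ∃ t, chk3 (onCell 0 33554432 0 1073741824 1033476505 6710887 (corT true 1 c0B cB022E gB1q0 gB2q2 gB2q2 gB3q2 true false)) t 1 1 1 = true :=
  ⟨(T.b (T.b (T.a (T.l 204) (T.b (T.b (T.l 204) (T.l 204)) (T.b (T.l 204) (T.l 0)))) (T.a (T.a (T.l 204) (T.b (T.l 204) (T.l 0))) (T.b (T.b (T.l 204) (T.l 204)) (T.l 0)))) (T.b (T.a (T.a (T.l 204) (T.b (T.l 0) (T.l 0))) (T.b (T.l 0) (T.l 0))) (T.a (T.a (T.a (T.l 0) (T.b (T.l 0) (T.l 0))) (T.b (T.l 0) (T.l 0))) (T.a (T.l 0) (T.l 0))))), by decide +kernel⟩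

def B022E_200 :
    ∃ t, chk3 (onCell 0 16777216 0 1073741824 1033476505 6710887 (corT true 1 c0B cB022E gB2q0 gB0q2 gB0q2 gB1q2 true true)) t 1 1 1 = true :=
  ⟨(T.l 2), by decide +kernel⟩

def B022E_201 :
    ∃ t, chk3 (onCell 0 16777216 0 1073741824 1033476505 6710887 (corT true 1 c0B cB022E gB2q0 gB0q2 gB1q2 gB2q2 true true)) t 1 1 1 = true :=
  ⟨(T.l 2), by decide +kernel⟩

def B022E_202 :
    ∃ t, chk3 (onCell 0 16777216 0 1073741824 1033476505 6710887 (corT true 1 c0B cB022E gB2q0 gB0q2 gB2q2 gB3q2 true false)) t 1 1 1 = true :=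
  ⟨(T.b (T.a (T.l 0) (T.b (T.l 204) (T.a (T.l 0) (T.l 0)))) (T.b (T.a (T.l 0) (T.a (T.l 0) (T.l 0))) (T.a (T.a (T.l 816) (T.b (T.l 816) (T.l 816))) (T.a (T.l 816) (T.l 816))))), by decide +kernel⟩

def B022E_210 :
    ∃ t, chk3 (onCell 0 22369621 0 1073741824 1033476505 6710887 (corT true 1 c0B cB022E gB2q0 gB1q2 gB0q2 gB1q2 true true)) t 1 1 1 = true :=
  ⟨(T.l 2), by decide +kernel⟩

def B022E_211 :
    ∃ t, chk3 (onCell 0 22369621 0 1073741824 1033476505 6710887 (corT true 1 c0B cB022E gB2q0 gB1q2 gB1q2 gB2q2 true true)) t 1 1 1 = true :=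
  ⟨(T.l 2), by decide +kernel⟩

def B022E_212 :
    ∃ t, chk3 (onCell 0 22369621 0 1073741824 1033476505 6710887 (corT true 1 c0B cB022E gB2q0 gB1q2 gB2q2 gB3q2 true false)) t 1 1 1 = true :=
  ⟨(T.b (T.b (T.l 204) (T.a (T.l 204) (T.b (T.l 0) (T.l 0)))) (T.b (T.a (T.a (T.l 0) (T.b (T.l 0) (T.l 0))) (T.b (T.l 0) (T.l 0))) (T.a (T.a (T.l 816) (T.b (T.l 0) (T.l 816))) (T.b (T.l 0) (T.l 0))))), by decide +kernel⟩

def B022E_220 :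
    ∃ t, chk3 (onCell 0 33554432 0 1073741824 1033476505 6710887 (corT true 1 c0B cB022E gB2q0 gB2q2 gB0q2 gB1q2 true true)) t 1 1 1 = true :=
  ⟨(T.l 2), by decide +kernel⟩

def B022E_221 :
    ∃ t, chk3 (onCell 0 33554432 0 1073741824 1033476505 6710887 (corT true 1 c0B cB022E gB2q0 gB2q2 gB1q2 gB2q2 true true)) t 1 1 1 = true :=
  ⟨(T.l 2), by decide +kernel⟩

def B022E_222 :
    ∃ t, chk3 (onCell 0 33554432 0 1073741824 1033476505 6710887 (corT true 1 c0B cB022E gB2q0 gB2q2 gB2q2 gB3q2 true false)) t 1 1 1 = true :=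
  ⟨(T.b (T.b (T.a (T.l 204) (T.b (T.b (T.l 204) (T.l 204)) (T.b (T.l 204) (T.l 204)))) (T.b (T.a (T.l 204) (T.b (T.l 204) (T.l 204))) (T.a (T.a (T.l 204) (T.l 204)) (T.l 0)))) (T.b (T.a (T.a (T.l 204) (T.b (T.l 204) (T.l 0))) (T.b (T.l 0) (T.l 0))) (T.a (T.a (T.a (T.l 0) (T.b (T.l 0) (T.l 0))) (T.b (T.l 0) (T.l 0))) (T.b (T.l 0) (T.l 0))))), by decide +kernel⟩

def B022L_050 :
    ∃ t, chk3 (onCell 0 22369621 0 1073741824 1033476505 6710887 (corX 1 c0B cB022L tB022L gB0q0 gB5q2 gB0q2 gB1q2 gB0q2 true true)) t 1 1 1 = true :=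
  ⟨(T.b (T.l 2) (T.b (T.b (T.a (T.l 819) (T.b (T.l 2) (T.a (T.l 819) (T.a (T.l 819) (T.b (T.l 816) (T.b (T.l 816) (T.l 819))))))) (T.b (T.b (T.l 819) (T.l 819)) (T.l 1))) (T.l 1))), by decide +kernel⟩

def B022L_051 :
    ∃ t, chk3 (onCell 0 22369621 0 1073741824 1033476505 6710887 (corT true 1 c0B cB022L gB0q0 gB5q2 gB1q2 gB2q2 true true)) t 1 1 1 = true :=
  ⟨(T.b (T.l 816) (T.b (T.b (T.l 816) (T.l 1)) (T.l 1))), by decide +kernel⟩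

def B022L_052 :
    ∃ t, chk3 (onCell 0 22369621 0 1073741824 1033476505 6710887 (corT true 1 c0B cB022L gB0q0 gB5q2 gB2q2 gB3q2 true false)) t 1 1 1 = true :=
  ⟨(T.b (T.b (T.l 816) (T.l 1)) (T.l 1)), by decide +kernel⟩

def B022L_150 :
    ∃ t, chk3 (onCell 0 33554432 0 1073741824 1033476505 6710887 (corT true 1 c0B cB022L gB1q0 gB5q2 gB0q2 gB1q2 true true)) t 1 1 1 = true :=
  ⟨(T.b (T.b (T.l 2) (T.b (T.l 2) (T.b (T.l 2) (T.b (T.a (T.a (T.l 816) (T.l 2)) (T.l 2)) (T.b (T.b (T.a (T.a (T.l 816) (T.a (T.l 816) (T.l 816))) (T.a (T.l 816) (T.l 816))) (T.a (T.a (T.l 816) (T.l 816)) (T.a (T.l 816) (T.l 816)))) (T.b (T.a (T.a (T.l 816) (T.l 816)) (T.a (T.l 816) (T.l 816))) (T.a (T.a (T.l 816) (T.l 816)) (T.a (T.l 816) (T.l 816))))))))) (T.b (T.b (T.b (T.b (T.b (T.b (T.a (T.a (T.l 816) (T.l 0)) (T.a (T.l 816) (T.l 816))) (T.a (T.a (T.l 816)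 (T.l 0)) (T.a (T.l 816) (T.l 816)))) (T.b (T.a (T.a (T.l 816) (T.l 0)) (T.a (T.l 816) (T.l 816))) (T.a (T.a (T.l 816) (T.l 0)) (T.a (T.l 816) (T.l 816))))) (T.b (T.b (T.a (T.a (T.l 816) (T.l 0)) (T.a (T.l 816) (T.l 816))) (T.a (T.a (T.l 816) (T.l 0)) (T.a (T.l 0) (T.l 816)))) (T.b (T.a (T.a (T.l 816) (T.l 0)) (T.a (T.l 0) (T.l 0))) (T.a (T.a (T.l 816) (T.l 0)) (T.a (T.l 0) (T.l 0)))))) (T.a (T.l 1) (T.b (T.a (T.l 0) (T.l 0)) (T.l 1)))) (T.l 1)) (T.l 1))), by decide +kernel⟩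

def B022L_151 :
    ∃ t, chk3 (onCell 0 33554432 0 1073741824 1033476505 6710887 (corT true 1 c0B cB022L gB1q0 gB5q2 gB1q2 gB2q2 true true)) t 1 1 1 = true :=
  ⟨(T.b (T.b (T.a (T.l 816) (T.a (T.l 816) (T.b (T.l 2) (T.b (T.l 0) (T.l 0))))) (T.b (T.a (T.l 816) (T.b (T.l 0) (T.l 0))) (T.b (T.a (T.a (T.l 816) (T.l 0)) (T.l 0)) (T.a (T.a (T.l 816) (T.l 0)) (T.l 0))))) (T.l 1)), by decide +kernel⟩

def B022L_152 :
    ∃ t, chk3 (onCell 0 33554432 0 1073741824 1033476505 6710887 (corT true 1 c0B cB022L gB1q0 gB5q2 gB2q2 gB3q2 true false)) t 1 1 1 = true :=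
  ⟨(T.b (T.b (T.a (T.l 816) (T.b (T.l 0) (T.b (T.l 0) (T.l 1)))) (T.l 1)) (T.l 1)), by decide +kernel⟩

def B022L_250 :
    ∃ t, chk3 (onCell 0 33554432 0 1073741824 1033476505 6710887 (corT true 1 c0B cB022L gB2q0 gB5q2 gB0q2 gB1q2 true true)) t 1 1 1 = true :=
  ⟨(T.b (T.b (T.l 2) (T.b (T.b (T.l 2) (T.b (T.b (T.l 2) (T.a (T.a (T.l 816) (T.l 816)) (T.a (T.l 0) (T.l 2)))) (T.b (T.b (T.a (T.a (T.l 816) (T.l 816)) (T.a (T.l 0) (T.l 0))) (T.a (T.a (T.l 816) (T.l 816)) (T.a (T.l 0) (T.l 0)))) (T.a (T.a (T.l 0) (T.l 0)) (T.a (T.l 0) (T.l 0)))))) (T.b (T.b (T.b (T.a (T.a (T.l 0) (T.l 0)) (T.a (T.l 0) (T.l 0))) (T.a (T.a (T.l 204) (T.l 204)) (T.a (T.l 204) (T.l 204)))) (T.b (T.a (T.a (T.l 204) (T.l 204)) (T.l 0)) (T.a (T.a (T.l 1) (T.l 204)) (T.l 0)))) (T.l 1)))) (T.l 1)), by decide +kernel⟩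

def B022L_251 :
    ∃ t, chk3 (onCell 0 33554432 0 1073741824 1033476505 6710887 (corT true 1 c0B cB022L gB2q0 gB5q2 gB1q2 gB2q2 true true)) t 1 1 1 = true :=
  ⟨(T.b (T.b (T.a (T.l 816) (T.a (T.l 816) (T.b (T.l 0) (T.b (T.l 0) (T.l 0))))) (T.b (T.a (T.l 816) (T.b (T.l 0) (T.l 0))) (T.l 1))) (T.l 1)), by decide +kernel⟩

def B022L_252 :
    ∃ t, chk3 (onCell 0 33554432 0 1073741824 1033476505 6710887 (corT true 1 c0B cB022L gB2q0 gB5q2 gB2q2 gB3q2 true false)) t 1 1 1 = true :=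
  ⟨(T.b (T.b (T.b (T.a (T.l 816) (T.l 0)) (T.l 1)) (T.l 1)) (T.l 1)), by decide +kernel⟩

def B022R_004 :
    ∃ t, chk3 (onCell 0 33554432 0 1073741824 1033476505 6710887 (corT true 1 c0B cB022R gB0q0 gB0q2 gB4q2 gB5q2 false true)) t 1 1 1 = true :=
  ⟨(T.b (T.b (T.a (T.a (T.b (T.l 204) (T.l 204)) (T.a (T.a (T.l 204) (T.l 204)) (T.a (T.l 204) (T.l 204)))) (T.a (T.a (T.b (T.l 204) (T.l 204)) (T.a (T.l 204) (T.l 204))) (T.a (T.b (T.a (T.l 204) (T.l 204)) (T.l 204)) (T.b (T.a (T.l 204) (T.l 204)) (T.l 204))))) (T.a (T.a (T.l 204) (T.a (T.l 204) (T.l 204))) (T.a (T.a (T.l 204) (T.l 204)) (T.l 204)))) (T.a (T.a (T.l 204) (T.a (T.l 204) (T.l 204))) (T.a (T.b (T.b (T.l 204) (T.l 204)) (T.l 204)) (T.b (T.l 204) (T.l 204))))), by decide +kernel⟩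

def B022R_014 :
    ∃ t, chk3 (onCell 0 33554432 0 1073741824 1033476505 6710887 (corT true 1 c0B cB022R gB0q0 gB1q2 gB4q2 gB5q2 false true)) t 1 1 1 = true :=
  ⟨(T.a (T.l 0) (T.b (T.a (T.l 204) (T.b (T.l 204) (T.l 204))) (T.a (T.b (T.l 204) (T.l 0)) (T.b (T.l 0) (T.l 0))))), by decide +kernel⟩

def B022R_024 :
    ∃ t, chk3 (onCell 0 33554432 0 1073741824 1033476505 6710887 (corT true 1 c0B cB022R gB0q0 gB2q2 gB4q2 gB5q2 false true)) t 1 1 1 = true :=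
  ⟨(T.a (T.l 0) (T.b (T.a (T.l 816) (T.l 816)) (T.b (T.l 816) (T.l 816)))), by decide +kernel⟩

def B022R_104 :
    ∃ t, chk3 (onCell 0 33554432 0 1073741824 1033476505 6710887 (corT true 1 c0B cB022R gB1q0 gB0q2 gB4q2 gB5q2 false true)) t 1 1 1 = true :=
  ⟨(T.b (T.b (T.a (T.a (T.b (T.l 204) (T.l 204)) (T.a (T.a (T.l 204) (T.l 204)) (T.a (T.l 204) (T.l 204)))) (T.a (T.a (T.b (T.l 204) (T.l 204)) (T.a (T.l 204) (T.l 204))) (T.b (T.a (T.a (T.l 204) (T.l 204)) (T.a (T.l 204) (T.l 204))) (T.b (T.l 204) (T.l 204))))) (T.a (T.a (T.l 204) (T.a (T.l 204) (T.b (T.l 204) (T.l 204)))) (T.a (T.a (T.b (T.l 204) (T.l 204)) (T.l 204)) (T.b (T.l 204) (T.l 204))))) (T.b (T.a (T.a (T.l 204) (T.a (T.l 0) (T.l 0))) (T.a (T.l 0) (T.l 0))) (T.a (T.a (T.a (T.l 204) (T.l 0)) (T.a (T.l 0) (T.l 0))) (T.a (T.l 0) (T.l 0))))), by decide +kernel⟩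

def B022R_114 :
    ∃ t, chk3 (onCell 0 33554432 0 1073741824 1033476505 6710887 (corT true 1 c0B cB022R gB1q0 gB1q2 gB4q2 gB5q2 false true)) t 1 1 1 = true :=
  ⟨(T.b (T.b (T.a (T.l 204) (T.b (T.a (T.l 204) (T.l 204)) (T.a (T.l 204) (T.l 0)))) (T.a (T.a (T.l 204) (T.b (T.l 204) (T.l 0))) (T.a (T.b (T.l 0) (T.l 0)) (T.l 0)))) (T.b (T.a (T.a (T.l 0) (T.b (T.l 0) (T.l 0))) (T.b (T.l 0) (T.l 0))) (T.a (T.a (T.a (T.l 816) (T.l 0)) (T.l 0)) (T.b (T.l 0) (T.l 0))))), by decide +kernel⟩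

def B022R_124 :
    ∃ t, chk3 (onCell 0 33554432 0 1073741824 1033476505 6710887 (corT true 1 c0B cB022R gB1q0 gB2q2 gB4q2 gB5q2 false true)) t 1 1 1 = true :=
  ⟨(T.b (T.b (T.a (T.l 816) (T.b (T.l 0) (T.b (T.l 816) (T.l 0)))) (T.b (T.a (T.l 816) (T.l 0)) (T.a (T.a (T.l 816) (T.l 816)) (T.l 0)))) (T.b (T.a (T.a (T.l 816) (T.l 0)) (T.l 4)) (T.a (T.a (T.a (T.l 816) (T.l 816)) (T.l 816)) (T.l 0)))), by decide +kernel⟩

def B022R_204 :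
    ∃ t, chk3 (onCell 0 33554432 0 1073741824 1033476505 6710887 (corT true 1 c0B cB022R gB2q0 gB0q2 gB4q2 gB5q2 false true)) t 1 1 1 = true :=
  ⟨(T.b (T.b (T.a (T.a (T.b (T.l 204) (T.l 204)) (T.a (T.a (T.l 204) (T.l 204)) (T.a (T.l 204) (T.l 204)))) (T.a (T.a (T.b (T.l 204) (T.l 204)) (T.a (T.l 204) (T.l 204))) (T.b (T.a (T.a (T.l 204) (T.l 204)) (T.a (T.l 204) (T.l 204))) (T.b (T.l 204) (T.l 204))))) (T.a (T.a (T.l 204) (T.a (T.l 204) (T.b (T.l 204) (T.l 204)))) (T.a (T.b (T.l 204) (T.l 204)) (T.b (T.l 204) (T.l 204))))) (T.b (T.a (T.a (T.l 204) (T.b (T.l 0) (T.l 0))) (T.a (T.l 0) (T.l 0))) (T.a (T.a (T.a (T.l 0) (T.l 0)) (T.b (T.l 0) (T.l 0))) (T.b (T.l 0) (T.l 0))))), by decide +kernel⟩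

def B022R_214 :
    ∃ t, chk3 (onCell 0 33554432 0 1073741824 1033476505 6710887 (corT true 1 c0B cB022R gB2q0 gB1q2 gB4q2 gB5q2 false true)) t 1 1 1 = true :=
  ⟨(T.b (T.b (T.a (T.l 204) (T.a (T.l 204) (T.b (T.l 204) (T.l 0)))) (T.b (T.a (T.l 204) (T.b (T.l 0) (T.l 0))) (T.a (T.a (T.l 0) (T.l 0)) (T.l 0)))) (T.b (T.a (T.a (T.l 816) (T.b (T.l 0) (T.l 816))) (T.b (T.l 0) (T.l 0))) (T.a (T.a (T.a (T.l 816) (T.l 816)) (T.l 0)) (T.b (T.l 0) (T.l 0))))), by decide +kernel⟩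

def B022R_224 :
    ∃ t, chk3 (onCell 0 33554432 0 1073741824 1033476505 6710887 (corT true 1 c0B cB022R gB2q0 gB2q2 gB4q2 gB5q2 false true)) t 1 1 1 = true :=
  ⟨(T.b (T.b (T.a (T.l 816) (T.b (T.l 0) (T.b (T.l 816) (T.l 816)))) (T.b (T.a (T.l 816) (T.l 816)) (T.a (T.l 2) (T.l 0)))) (T.l 2)), by decide +kernel⟩

def B101E_000 :
    ∃ t, chk3 (onCell 0 13421772 0 1073741824 1033476505 6710887 (corT true 1 c0B cB101E gB0q1 gB0q1 gB0q0 gB1q0 true true)) t 1 1 1 = true :=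
  ⟨(T.l 2), by decide +kernel⟩

def B101E_001 :
    ∃ t, chk3 (onCell 0 13421772 0 1073741824 1033476505 6710887 (corT true 1 c0B cB101E gB0q1 gB0q1 gB1q0 gB2q0 true true)) t 1 1 1 = true :=
  ⟨(T.l 2), by decide +kernel⟩

def B101E_002_2_1_1 :
    ∃ t, chk3 (onCell 0 13421772 0 1073741824 1033476505 6710887 (corT true 1 c0B cB101E gB0q1 gB0q1 gB2q0 gB3q0 true false)) t 2 1 1 = true :=
  ⟨(T.b (T.b (T.a (T.b (T.c (T.b (T.l 0) (T.l 0)) (T.a (T.a (T.b (T.l 816) (T.l 816)) (T.l 816)) (T.b (T.l 816) (T.l 816)))) (T.c (T.b (T.l 0) (T.l 0)) (T.a (T.a (T.b (T.l 816) (T.l 816)) (T.l 816)) (T.b (T.l 816) (T.l 816))))) (T.b (T.c (T.b (T.l 816) (T.l 816)) (T.b (T.l 816) (T.l 816))) (T.c (T.l 0) (T.b (T.l 816) (T.l 816))))) (T.a (T.b (T.c (T.b (T.l 0) (T.l 0)) (T.a (T.a (T.b (T.l 816) (T.l 816)) (T.l 816)) (T.l 816))) (T.c (T.b (T.l 0) (T.l 0)) (T.a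 (T.a (T.b (T.l 816) (T.l 816)) (T.l 816)) (T.l 0)))) (T.b (T.c (T.l 0) (T.b (T.l 816) (T.l 0))) (T.c (T.l 0) (T.b (T.l 0) (T.l 0)))))) (T.b (T.a (T.b (T.c (T.b (T.l 0) (T.l 0)) (T.a (T.a (T.b (T.l 816) (T.l 816)) (T.l 0)) (T.l 0))) (T.c (T.b (T.l 0) (T.l 0)) (T.a (T.a (T.b (T.l 0) (T.l 0)) (T.l 0)) (T.l 0)))) (T.b (T.c (T.l 0) (T.l 8)) (T.c (T.l 0) (T.b (T.l 0) (T.l 0))))) (T.b (T.a (T.c (T.a (T.b (T.l 0) (T.l 0)) (T.l 204)) (T.a (T.a (T.b (T.l 0) (T.l 0)) (T.l 0)) (T.l 0))) (T.c (T.b (T.l 204) (T.l 204)) (T.b (T.l 0) (T.l 0)))) (T.a (T.c (T.b (T.b (T.l 204) (T.l 204)) (T.a (T.b (T.l 204) (T.l 204)) (T.l 204))) (T.a (T.b (T.b (T.l 0) (T.l 0)) (T.b (T.l 0) (T.l 0))) (T.b (T.l 0) (T.l 0)))) (T.c (T.b (T.l 204) (T.l 204)) (T.b (T.l 204) (T.l 204))))))), by decide +kernel⟩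

def B101E_002_3_2_1 :
    ∃ t, chk3 (onCell 0 13421772 0 1073741824 1033476505 6710887 (corT true 1 c0B cB101E gB0q1 gB0q1 gB2q0 gB3q0 true false)) t 3 2 1 = true :=
  ⟨(T.b (T.a (T.a (T.b (T.b (T.l 816) (T.l 816)) (T.l 0)) (T.b (T.a (T.b (T.b (T.l 816) (T.l 816)) (T.l 816)) (T.b (T.c (T.l 816) (T.l 816)) (T.b (T.l 816) (T.l 816)))) (T.c (T.l 0) (T.l 816)))) (T.a (T.b (T.a (T.b (T.c (T.l 816) (T.l 816)) (T.b (T.l 944) (T.l 816))) (T.b (T.c (T.l 816) (T.b (T.l 816) (T.l 816))) (T.c (T.l 816) (T.l 816)))) (T.a (T.b (T.b (T.l 816) (T.l 816)) (T.l 0)) (T.b (T.b (T.l 944) (T.l 816)) (T.b (T.l 816) (T.l 0))))) (T.b (T.a (T.b (T.c (T.l 816) (T.b (T.l 816) (T.l 816))) (T.c (T.l 816) (T.b (T.l 816) (T.l 816)))) (T.b (T.c (T.b (T.l 816) (T.l 816)) (T.a (T.l 816) (T.l 944))) (T.c (T.l 816) (T.b (T.l 816) (T.l 816))))) (T.b (T.a (T.c (T.l 816) (T.l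 816)) (T.c (T.l 816) (T.l 944))) (T.a (T.b (T.l 944) (T.l 0)) (T.c (T.l 0) (T.l 816))))))) (T.a (T.a (T.b (T.l 0) (T.l 0)) (T.a (T.l 0) (T.l 0))) (T.b (T.a (T.c (T.l 0) (T.l 0)) (T.b (T.a (T.b (T.l 0) (T.l 0)) (T.b (T.l 0) (T.l 0))) (T.a (T.l 0) (T.b (T.l 0) (T.l 0))))) (T.a (T.b (T.l 0) (T.l 0)) (T.c (T.l 204) (T.l 0)))))), by decide +kernel⟩

def B101E_002_3_3_1 :
    ∃ t, chk3 (onCell 0 13421772 0 1073741824 1033476505 6710887 (corT true 1 c0B cB101E gB0q1 gB0q1 gB2q0 gB3q0 true false)) t 3 3 1 = true :=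
  ⟨(T.b (T.a (T.a (T.b (T.l 0) (T.l 204)) (T.b (T.b (T.l 204) (T.l 204)) (T.a (T.l 204) (T.b (T.l 204) (T.l 204))))) (T.b (T.a (T.b (T.l 204) (T.c (T.l 204) (T.l 204))) (T.b (T.a (T.l 204) (T.l 716)) (T.a (T.l 204) (T.l 716)))) (T.a (T.a (T.b (T.l 204) (T.l 204)) (T.b (T.l 204) (T.l 204))) (T.a (T.b (T.l 204) (T.l 204)) (T.b (T.l 204) (T.l 204)))))) (T.a (T.a (T.b (T.a (T.l 204) (T.b (T.l 204) (T.b (T.l 204) (T.l 204)))) (T.a (T.b (T.l 204) (T.a (T.l 204) (T.b (T.l 204) (T.l 204)))) (T.b (T.b (T.l 204) (T.l 204)) (T.c (T.l 204) (T.b (T.l 204) (T.l 204)))))) (T.b (T.a (T.b (T.l 204) (T.b (T.l 204) (T.l 204))) (T.b (T.l 204) (T.l 204))) (T.a (T.b (T.b (T.l 204) (T.l 204)) (T.c (T.l 204) (T.b (T.l 204) (T.l 204)))) (T.b (T.b (T.l 204) (T.l 204)) (T.c (T.l 204) (T.b (T.l 204) (T.l 204))))))) (T.b (T.a (T.b (T.b (T.l 716) (T.l 716)) (T.a (T.l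 204) (T.l 204))) (T.b (T.c (T.l 204) (T.l 204)) (T.a (T.l 204) (T.l 204)))) (T.a (T.b (T.a (T.b (T.l 204) (T.l 204)) (T.b (T.l 204) (T.l 204))) (T.a (T.c (T.l 204) (T.b (T.l 204) (T.l 204))) (T.c (T.l 204) (T.b (T.l 204) (T.l 204))))) (T.b (T.a (T.b (T.l 204) (T.l 204)) (T.b (T.l 204) (T.l 204))) (T.a (T.c (T.l 204) (T.b (T.l 204) (T.l 204))) (T.c (T.l 204) (T.b (T.l 204) (T.l 204))))))))), by decide +kernel⟩

theorem B101E_002_3_1_1 :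
    ∃ t, chk3 (onCell 0 13421772 0 1073741824 1033476505 6710887 (corT true 1 c0B cB101E gB0q1 gB0q1 gB2q0 gB3q0 true false)) t 3 1 1 = true :=
  ex3_b B101E_002_3_2_1 B101E_002_3_3_1
theorem B101E_002 :
    ∃ t, chk3 (onCell 0 13421772 0 1073741824 1033476505 6710887 (corT true 1 c0B cB101E gB0q1 gB0q1 gB2q0 gB3q0 true false)) t 1 1 1 = true :=
  ex3_a B101E_002_2_1_1 B101E_002_3_1_1

def B101L_300 :
    ∃ t, chk3 (onCell 0 33554432 0 1073741824 1033476505 6710887 (corT true 1 c0B cB101L gB3q1 gB0q1 gB0q0 gB1q0 true true)) t 1 1 1 = true :=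
  ⟨(T.b (T.l 1) (T.b (T.l 1) (T.b (T.l 1) (T.b (T.l 1) (T.b (T.l 1) (T.b (T.b (T.l 1) (T.b (T.l 1) (T.b (T.l 1) (T.b (T.b (T.l 1) (T.b (T.l 1) (T.a (T.a (T.a (T.l 0) (T.l 0)) (T.l 204)) (T.a (T.l 204) (T.l 204))))) (T.a (T.a (T.a (T.l 0) (T.l 0)) (T.l 0)) (T.a (T.l 204) (T.l 204))))))) (T.b (T.b (T.b (T.b (T.a (T.a (T.a (T.l 0) (T.l 0)) (T.l 0)) (T.a (T.l 204) (T.l 204))) (T.a (T.a (T.a (T.l 0) (T.l 0)) (T.l 0)) (T.a (T.l 204) (T.l 204)))) (T.b (T.b (T.a (T.a (T.a (T.l 0) (T.l 0)) (T.l 0)) (T.a (T.l 204) (T.l 204))) (T.a (T.a (T.a (T.l 0) (T.l 0)) (T.l 0)) (T.a (T.l 204) (T.l 204)))) (T.b (T.a (T.a (T.a (T.l 0) (T.l 0)) (T.l 0)) (T.a (T.l 204) (T.l 204))) (T.a (T.a (T.a (T.l 0) (T.l 0)) (T.l 0)) (T.a (T.l 204) (T.l 204)))))) (T.b (T.b (T.b (T.a (T.a (T.a (T.l 0) (T.l 0)) (T.l 0)) (T.a (T.l 204) (T.l 204))) (T.a (T.a (T.a (T.l 0) (T.l 0))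 (T.l 0)) (T.a (T.l 204) (T.l 204)))) (T.b (T.a (T.a (T.a (T.l 0) (T.l 0)) (T.l 0)) (T.a (T.l 204) (T.l 204))) (T.a (T.a (T.a (T.l 0) (T.l 0)) (T.l 0)) (T.a (T.l 204) (T.l 204))))) (T.a (T.a (T.a (T.l 0) (T.l 0)) (T.l 0)) (T.a (T.l 204) (T.l 204))))) (T.b (T.a (T.a (T.a (T.l 0) (T.l 0)) (T.l 0)) (T.a (T.l 204) (T.l 204))) (T.a (T.a (T.a (T.l 0) (T.l 0)) (T.l 0)) (T.a (T.l 204) (T.l 204))))))))))), by decide +kernel⟩

def B101L_301 :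
    ∃ t, chk3 (onCell 0 33554432 0 1073741824 1033476505 6710887 (corT true 1 c0B cB101L gB3q1 gB0q1 gB1q0 gB2q0 true true)) t 1 1 1 = true :=
  ⟨(T.l 1), by decide +kernel⟩

def B101L_302 :
    ∃ t, chk3 (onCell 0 33554432 0 1073741824 1033476505 6710887 (corT true 1 c0B cB101L gB3q1 gB0q1 gB2q0 gB3q0 true false)) t 1 1 1 = true :=
  ⟨(T.l 1), by decide +kernel⟩

def B101L_400 :
    ∃ t, chk3 (onCell 0 33554432 0 1073741824 1033476505 6710887 (corT true 1 c0B cB101L gB4q1 gB0q1 gB0q0 gB1q0 true true)) t 1 1 1 = true :=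
  ⟨(T.b (T.l 1) (T.b (T.l 1) (T.b (T.b (T.b (T.b (T.l 1) (T.b (T.b (T.b (T.b (T.a (T.a (T.a (T.a (T.l 1) (T.l 0)) (T.l 0)) (T.l 204)) (T.a (T.l 204) (T.l 204))) (T.a (T.a (T.a (T.l 0) (T.l 0)) (T.l 204)) (T.a (T.l 204) (T.l 204)))) (T.b (T.a (T.a (T.l 0) (T.l 204)) (T.a (T.l 204) (T.l 204))) (T.a (T.a (T.l 0) (T.l 204)) (T.a (T.l 204) (T.l 204))))) (T.b (T.b (T.a (T.a (T.l 0) (T.l 204)) (T.a (T.l 204) (T.l 204))) (T.a (T.a (T.l 0) (T.l 204)) (T.a (T.l 204) (T.l 204)))) (T.b (T.a (T.a (T.l 0) (T.l 204)) (T.a (T.l 204) (T.l 204))) (T.a (T.a (T.l 0) (T.l 204)) (T.a (T.l 204) (T.l 204)))))) (T.b (T.b (T.b (T.a (T.a (T.l 0) (T.l 0)) (T.a (T.l 204) (T.l 204))) (T.a (T.a (T.l 0) (T.l 0)) (T.a (T.l 204) (T.l 204)))) (T.a (T.a (T.l 0) (T.l 0)) (T.a (T.l 204) (T.l 204)))) (T.a (T.a (T.l 0) (T.l 0)) (T.a (T.l 204) (T.l 204)))))) (T.b (T.a (T.a (T.l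 0) (T.l 0)) (T.a (T.l 204) (T.l 204))) (T.a (T.a (T.l 0) (T.l 0)) (T.a (T.l 204) (T.l 204))))) (T.b (T.a (T.a (T.l 0) (T.l 0)) (T.a (T.l 0) (T.l 204))) (T.a (T.a (T.a (T.l 0) (T.l 0)) (T.l 0)) (T.a (T.l 0) (T.l 204))))) (T.b (T.b (T.a (T.a (T.a (T.l 0) (T.l 0)) (T.l 0)) (T.a (T.l 0) (T.l 204))) (T.a (T.a (T.a (T.l 204) (T.l 0)) (T.l 0)) (T.l 0))) (T.b (T.a (T.a (T.a (T.l 204) (T.l 0)) (T.l 0)) (T.l 0)) (T.l 2)))))), by decide +kernel⟩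

def B101L_401 :
    ∃ t, chk3 (onCell 0 33554432 0 1073741824 1033476505 6710887 (corT true 1 c0B cB101L gB4q1 gB0q1 gB1q0 gB2q0 true true)) t 1 1 1 = true :=
  ⟨(T.b (T.l 1) (T.b (T.l 1) (T.b (T.l 1) (T.b (T.l 1) (T.a (T.a (T.a (T.l 0) (T.l 0)) (T.l 0)) (T.l 0)))))), by decide +kernel⟩

def B101L_402 :
    ∃ t, chk3 (onCell 0 33554432 0 1073741824 1033476505 6710887 (corT true 1 c0B cB101L gB4q1 gB0q1 gB2q0 gB3q0 true false)) t 1 1 1 = true :=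
  ⟨(T.l 1), by decide +kernel⟩

def B101L_500 :
    ∃ t, chk3 (onCell 0 22369621 0 1073741824 1033476505 6710887 (corX 1 c0B cB101L tB101L gB5q1 gB0q1 gB0q0 gB1q0 gB0q0 true true)) t 1 1 1 = true :=
  ⟨(T.b (T.l 1) (T.b (T.b (T.l 1) (T.a (T.a (T.l 207) (T.l 3)) (T.l 3))) (T.b (T.b (T.b (T.a (T.a (T.l 207) (T.l 3)) (T.l 3)) (T.a (T.a (T.l 207) (T.l 3)) (T.b (T.l 0) (T.l 0)))) (T.b (T.a (T.a (T.l 207) (T.l 3)) (T.b (T.l 0) (T.l 0))) (T.l 2))) (T.l 2)))), by decide +kernel⟩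

def B101L_501 :
    ∃ t, chk3 (onCell 0 22369621 0 1073741824 1033476505 6710887 (corT true 1 c0B cB101L gB5q1 gB0q1 gB1q0 gB2q0 true true)) t 1 1 1 = true :=
  ⟨(T.b (T.l 1) (T.b (T.l 1) (T.b (T.b (T.l 1) (T.a (T.a (T.l 0) (T.l 0)) (T.l 0))) (T.b (T.a (T.a (T.l 0) (T.l 0)) (T.l 0)) (T.a (T.a (T.l 816) (T.l 0)) (T.l 0)))))), by decide +kernel⟩

def B101L_502 :
    ∃ t, chk3 (onCell 0 22369621 0 1073741824 1033476505 6710887 (corT true 1 c0B cB101L gB5q1 gB0q1 gB2q0 gB3q0 true false)) t 1 1 1 = true :=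
  ⟨(T.l 1), by decide +kernel⟩

def B101R_030 :
    ∃ t, chk3 (onCell 0 33554432 0 1073741824 1033476505 6710887 (corT true 1 c0B cB101R gB0q1 gB3q1 gB0q0 gB1q0 true true)) t 1 1 1 = true :=
  ⟨(T.l 1), by decide +kernel⟩

def B101R_031 :
    ∃ t, chk3 (onCell 0 33554432 0 1073741824 1033476505 6710887 (corT true 1 c0B cB101R gB0q1 gB3q1 gB1q0 gB2q0 true true)) t 1 1 1 = true :=
  ⟨(T.l 1), by decide +kernel⟩

def B101R_032 :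
    ∃ t, chk3 (onCell 0 33554432 0 1073741824 1033476505 6710887 (corT true 1 c0B cB101R gB0q1 gB3q1 gB2q0 gB3q0 true false)) t 1 1 1 = true :=
  ⟨(T.l 1), by decide +kernel⟩

def B101R_040 :
    ∃ t, chk3 (onCell 0 33554432 0 1073741824 1033476505 6710887 (corT true 1 c0B cB101R gB0q1 gB4q1 gB0q0 gB1q0 true true)) t 1 1 1 = true :=
  ⟨(T.l 1), by decide +kernel⟩

def B101R_041 :
    ∃ t, chk3 (onCell 0 33554432 0 1073741824 1033476505 6710887 (corT true 1 c0B cB101R gB0q1 gB4q1 gB1q0 gB2q0 true true)) t 1 1 1 = true :=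
  ⟨(T.l 1), by decide +kernel⟩

def B101R_042 :
    ∃ t, chk3 (onCell 0 33554432 0 1073741824 1033476505 6710887 (corT true 1 c0B cB101R gB0q1 gB4q1 gB2q0 gB3q0 true false)) t 1 1 1 = true :=
  ⟨(T.l 1), by decide +kernel⟩

def B101R_050 :
    ∃ t, chk3 (onCell 0 33554432 0 1073741824 1033476505 6710887 (corT true 1 c0B cB101R gB0q1 gB5q1 gB0q0 gB1q0 true true)) t 1 1 1 = true :=
  ⟨(T.l 1), by decide +kernel⟩

def B101R_051 :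
    ∃ t, chk3 (onCell 0 33554432 0 1073741824 1033476505 6710887 (corT true 1 c0B cB101R gB0q1 gB5q1 gB1q0 gB2q0 true true)) t 1 1 1 = true :=
  ⟨(T.l 1), by decide +kernel⟩

def B101R_052 :
    ∃ t, chk3 (onCell 0 33554432 0 1073741824 1033476505 6710887 (corT true 1 c0B cB101R gB0q1 gB5q1 gB2q0 gB3q0 true false)) t 1 1 1 = true :=
  ⟨(T.l 1), by decide +kernel⟩

def B102E_000 :
    ∃ t, chk3 (onCell 0 11184810 0 1073741824 1033476505 6710887 (corX 1 c0B cB102E tB102E gB0q1 gB0q2 gB0q0 gB1q0 gB0q0 true true)) t 1 1 1 = true :=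
  ⟨(T.b (T.b (T.l 1) (T.b (T.l 1) (T.b (T.l 1) (T.b (T.l 1) (T.b (T.l 1) (T.a (T.b (T.l 1) (T.a (T.c (T.l 207) (T.l 207)) (T.l 1))) (T.l 1))))))) (T.b (T.b (T.a (T.a (T.a (T.c (T.b (T.l 207) (T.l 207)) (T.l 207)) (T.l 207)) (T.c (T.l 207) (T.b (T.l 207) (T.l 207)))) (T.a (T.a (T.c (T.b (T.l 207) (T.l 207)) (T.b (T.l 207) (T.l 207))) (T.a (T.a (T.c (T.b (T.l 207) (T.l 207)) (T.b (T.l 207) (T.l 719))) (T.c (T.l 207) (T.l 207))) (T.c (T.l 207) (T.l 207)))) (T.a (T.a (T.l 207) (T.l 207)) (T.b (T.l 207) (T.l 207))))) (T.l 2)) (T.l 2))), by decide +kernel⟩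

def B102E_001_1_2_1 :
    ∃ t, chk3 (onCell 0 11184810 0 1073741824 1033476505 6710887 (corT true 1 c0B cB102E gB0q1 gB0q2 gB1q0 gB2q0 true true)) t 1 2 1 = true :=
  ⟨(T.l 1), by decide +kernel⟩

def B102E_001_2_6_1 :
    ∃ t, chk3 (onCell 0 11184810 0 1073741824 1033476505 6710887 (corT true 1 c0B cB102E gB0q1 gB0q2 gB1q0 gB2q0 true true)) t 2 6 1 = true :=
  ⟨(T.b (T.b (T.l 1) (T.b (T.l 1) (T.c (T.b (T.a (T.b (T.b (T.l 1) (T.a (T.l 204) (T.l 204))) (T.l 204)) (T.l 204)) (T.l 0)) (T.b (T.b (T.b (T.l 1) (T.a (T.l 204) (T.l 204))) (T.l 204)) (T.l 0))))) (T.b (T.c (T.b (T.l 0) (T.l 816)) (T.b (T.l 0) (T.l 816))) (T.c (T.b (T.l 816) (T.l 816)) (T.b (T.l 816) (T.b (T.l 816) (T.l 816)))))), by decide +kernel⟩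

def B102E_001_3_6_1 :
    ∃ t, chk3 (onCell 0 11184810 0 1073741824 1033476505 6710887 (corT true 1 c0B cB102E gB0q1 gB0q2 gB1q0 gB2q0 true true)) t 3 6 1 = true :=
  ⟨(T.a (T.a (T.b (T.b (T.l 1) (T.b (T.l 1) (T.b (T.b (T.b (T.l 1) (T.c (T.l 204) (T.b (T.l 1) (T.l 204)))) (T.c (T.l 0) (T.l 0))) (T.c (T.l 0) (T.l 0))))) (T.c (T.b (T.l 944) (T.l 944)) (T.b (T.b (T.l 816) (T.l 816)) (T.l 944)))) (T.b (T.b (T.l 1) (T.b (T.l 1) (T.a (T.b (T.b (T.b (T.l 1) (T.b (T.l 1) (T.b (T.l 1) (T.b (T.l 1) (T.b (T.l 1) (T.b (T.l 1) (T.a (T.c (T.l 204) (T.l 204)) (T.c (T.l 204) (T.l 204))))))))) (T.c (T.a (T.l 0) (T.l 0)) (T.a (T.l 0) (T.l 0)))) (T.c (T.b (T.l 0) (T.l 816)) (T.b (T.l 0) (T.l 944)))) (T.b (T.b (T.l 1) (T.c (T.l 0) (T.l 0))) (T.b (T.l 0) (T.l 816)))))) (T.a (T.c (T.a (T.b (T.b (T.l 816) (T.l 816)) (T.b (T.l 944) (T.l 944))) (T.b (T.l 816)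 (T.l 944))) (T.a (T.b (T.b (T.l 816) (T.l 944)) (T.b (T.l 944) (T.l 944))) (T.b (T.l 944) (T.l 944)))) (T.c (T.a (T.b (T.l 816) (T.l 944)) (T.l 944)) (T.b (T.b (T.l 816) (T.l 944)) (T.b (T.l 944) (T.l 944))))))) (T.a (T.b (T.b (T.l 1) (T.b (T.l 1) (T.a (T.b (T.b (T.l 1) (T.l 0)) (T.l 0)) (T.c (T.l 0) (T.l 0))))) (T.a (T.c (T.b (T.l 816) (T.l 944)) (T.b (T.l 816) (T.l 952))) (T.c (T.l 952) (T.b (T.l 816) (T.l 952))))) (T.b (T.b (T.l 1) (T.b (T.l 1) (T.b (T.b (T.l 1) (T.l 0)) (T.l 0)))) (T.a (T.c (T.l 952) (T.b (T.l 816) (T.l 952))) (T.c (T.l 952) (T.b (T.l 816) (T.l 952))))))), by decide +kernel⟩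

def B102E_001_2_28_1 :
    ∃ t, chk3 (onCell 0 11184810 0 1073741824 1033476505 6710887 (corT true 1 c0B cB102E gB0q1 gB0q2 gB1q0 gB2q0 true true)) t 2 28 1 = true :=
  ⟨(T.c (T.a (T.b (T.l 816) (T.l 816)) (T.l 944)) (T.a (T.c (T.l 816) (T.b (T.l 816) (T.l 816))) (T.b (T.l 816) (T.l 952)))), by decide +kernel⟩

def B102E_001_3_56_1 :
    ∃ t, chk3 (onCell 0 11184810 0 1073741824 1033476505 6710887 (corT true 1 c0B cB102E gB0q1 gB0q2 gB1q0 gB2q0 true true)) t 3 56 1 = true :=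
  ⟨(T.a (T.a (T.c (T.l 944) (T.l 944)) (T.a (T.c (T.a (T.l 944) (T.l 944)) (T.a (T.b (T.l 944) (T.l 944)) (T.l 944))) (T.c (T.b (T.l 944) (T.l 944)) (T.c (T.l 944) (T.l 952))))) (T.a (T.a (T.c (T.l 944) (T.l 952)) (T.c (T.l 952) (T.l 952))) (T.a (T.c (T.l 952) (T.l 952)) (T.c (T.l 952) (T.l 952))))), by decide +kernel⟩

def B102E_001_3_228_1 :
    ∃ t, chk3 (onCell 0 11184810 0 1073741824 1033476505 6710887 (corT true 1 c0B cB102E gB0q1 gB0q2 gB1q0 gB2q0 true true)) t 3 228 1 = true :=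
  ⟨(T.a (T.a (T.c (T.l 944) (T.l 944)) (T.a (T.c (T.a (T.l 944) (T.l 944)) (T.a (T.l 944) (T.l 944))) (T.c (T.l 944) (T.b (T.l 952) (T.l 952))))) (T.a (T.a (T.c (T.l 944) (T.l 952)) (T.c (T.l 952) (T.l 952))) (T.a (T.c (T.l 952) (T.l 952)) (T.c (T.l 952) (T.l 952))))), by decide +kernel⟩

def B102E_001_3_3664_1 :
    ∃ t, chk3 (onCell 0 11184810 0 1073741824 1033476505 6710887 (corT true 1 c0B cB102E gB0q1 gB0q2 gB1q0 gB2q0 true true)) t 3 3664 1 = true :=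
  ⟨(T.b (T.b (T.a (T.a (T.c (T.l 944) (T.l 944)) (T.a (T.c (T.a (T.l 944) (T.l 944)) (T.a (T.l 944) (T.l 944))) (T.c (T.l 944) (T.l 952)))) (T.a (T.a (T.c (T.l 944) (T.l 952)) (T.c (T.l 944) (T.l 952))) (T.a (T.c (T.l 952) (T.l 952)) (T.c (T.l 952) (T.l 952))))) (T.a (T.a (T.c (T.l 944) (T.l 944)) (T.a (T.c (T.a (T.l 944) (T.l 944)) (T.a (T.l 944) (T.l 944))) (T.c (T.l 944) (T.l 952)))) (T.a (T.a (T.c (T.l 944) (T.l 952)) (T.c (T.l 944) (T.l 952))) (T.a (T.c (T.l 952) (T.l 952)) (T.c (T.l 952) (T.l 952)))))) (T.b (T.a (T.a (T.c (T.l 944) (T.l 944)) (T.a (T.c (T.a (T.l 944) (T.l 944)) (T.a (T.l 944) (T.l 944))) (T.c (T.l 944) (T.l 952)))) (T.a (T.a (T.c (T.l 944) (T.l 952)) (T.c (T.l 944) (T.l 952))) (T.a (T.c (T.l 952) (T.l 952)) (T.c (T.l 952) (T.l 952))))) (T.a (T.a (T.c (T.l 944) (T.l 944)) (T.a (T.c (T.a (T.l 944) (T.l 944)) (T.a (T.l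 944) (T.l 944))) (T.c (T.l 944) (T.l 952)))) (T.a (T.a (T.c (T.l 944) (T.l 952)) (T.c (T.l 944) (T.l 952))) (T.a (T.c (T.l 952) (T.l 952)) (T.c (T.l 952) (T.l 952))))))), by decide +kernel⟩

def B102E_001_3_3665_1 :
    ∃ t, chk3 (onCell 0 11184810 0 1073741824 1033476505 6710887 (corT true 1 c0B cB102E gB0q1 gB0q2 gB1q0 gB2q0 true true)) t 3 3665 1 = true :=
  ⟨(T.b (T.b (T.a (T.a (T.c (T.l 944) (T.l 944)) (T.a (T.c (T.a (T.l 944) (T.l 944)) (T.a (T.l 944) (T.l 944))) (T.c (T.l 944) (T.l 952)))) (T.a (T.a (T.c (T.l 944) (T.l 952)) (T.c (T.l 944) (T.l 952))) (T.a (T.c (T.l 952) (T.l 952)) (T.c (T.l 952) (T.l 952))))) (T.a (T.a (T.c (T.l 944) (T.l 944)) (T.a (T.c (T.a (T.l 944) (T.l 944)) (T.a (T.l 944) (T.l 944))) (T.c (T.l 944) (T.l 952)))) (T.a (T.a (T.c (T.l 944) (T.l 952)) (T.c (T.l 944) (T.l 952))) (T.a (T.c (T.l 952) (T.l 952)) (T.c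 (T.l 952) (T.l 952)))))) (T.b (T.a (T.a (T.c (T.l 944) (T.l 944)) (T.a (T.c (T.a (T.l 944) (T.l 944)) (T.a (T.l 944) (T.l 944))) (T.c (T.l 944) (T.l 952)))) (T.a (T.a (T.c (T.l 944) (T.l 952)) (T.c (T.l 944) (T.l 952))) (T.a (T.c (T.l 952) (T.l 952)) (T.c (T.l 952) (T.l 952))))) (T.a (T.a (T.c (T.l 944) (T.l 944)) (T.a (T.c (T.a (T.l 944) (T.l 944)) (T.a (T.l 944) (T.l 944))) (T.c (T.l 944) (T.l 952)))) (T.a (T.a (T.c (T.l 944) (T.l 952)) (T.c (T.l 952) (T.l 952))) (T.a (T.c (T.l 952) (T.l 952)) (T.c (T.l 952) (T.l 952))))))), by decide +kernel⟩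

def B102E_001_3_3666_1 :
    ∃ t, chk3 (onCell 0 11184810 0 1073741824 1033476505 6710887 (corT true 1 c0B cB102E gB0q1 gB0q2 gB1q0 gB2q0 true true)) t 3 3666 1 = true :=
  ⟨(T.b (T.b (T.a (T.a (T.c (T.l 944) (T.l 944)) (T.a (T.c (T.a (T.l 944) (T.l 944)) (T.a (T.l 944) (T.l 944))) (T.c (T.l 944) (T.l 952)))) (T.a (T.a (T.c (T.l 944) (T.l 952)) (T.c (T.l 952) (T.l 952))) (T.a (T.c (T.l 952) (T.l 952)) (T.c (T.l 952) (T.l 952))))) (T.a (T.a (T.c (T.l 944) (T.l 944)) (T.a (T.c (T.a (T.l 944) (T.l 944)) (T.a (T.l 944) (T.l 944))) (T.c (T.l 944) (T.l 952)))) (T.a (T.a (T.c (T.l 944) (T.l 952)) (T.c (T.l 952) (T.l 952))) (T.a (T.c (T.l 952) (T.l 952)) (T.c (T.l 952) (T.l 952)))))) (T.b (T.a (T.a (T.c (T.l 944) (T.l 944)) (T.a (T.c (T.a (T.l 944) (T.l 944)) (T.a (T.l 944) (T.l 944))) (T.c (T.l 944) (T.l 952)))) (T.a (T.a (T.c (T.l 944) (T.l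 952)) (T.c (T.l 952) (T.l 952))) (T.a (T.c (T.l 952) (T.l 952)) (T.c (T.l 952) (T.l 952))))) (T.a (T.a (T.c (T.l 944) (T.l 944)) (T.a (T.c (T.a (T.l 944) (T.l 944)) (T.a (T.l 944) (T.l 944))) (T.c (T.l 944) (T.l 952)))) (T.a (T.a (T.c (T.l 944) (T.l 952)) (T.c (T.l 952) (T.l 952))) (T.a (T.c (T.l 952) (T.l 952)) (T.c (T.l 952) (T.l 952))))))), by decide +kernel⟩

def B102E_001_3_3667_1 :
    ∃ t, chk3 (onCell 0 11184810 0 1073741824 1033476505 6710887 (corT true 1 c0B cB102E gB0q1 gB0q2 gB1q0 gB2q0 true true)) t 3 3667 1 = true :=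
  ⟨(T.b (T.b (T.a (T.a (T.c (T.l 944) (T.l 944)) (T.a (T.c (T.a (T.l 944) (T.l 944)) (T.a (T.l 944) (T.l 944))) (T.c (T.l 944) (T.l 952)))) (T.a (T.a (T.c (T.l 944) (T.l 952)) (T.c (T.l 952) (T.l 952))) (T.a (T.c (T.l 952) (T.l 952)) (T.c (T.l 952) (T.l 952))))) (T.a (T.a (T.c (T.l 944) (T.l 944)) (T.a (T.c (T.a (T.l 944) (T.l 944)) (T.a (T.l 944) (T.l 944))) (T.c (T.l 944) (T.l 952)))) (T.a (T.a (T.c (T.l 944) (T.l 952)) (T.c (T.l 952) (T.l 952))) (T.a (T.c (T.l 952) (T.l 952)) (T.c (T.l 952) (T.l 952)))))) (T.b (T.a (T.a (T.c (T.l 944) (T.l 944)) (T.a (T.c (T.a (T.l 944) (T.l 944)) (T.a (T.l 944) (T.l 944))) (T.c (T.l 944) (T.l 952)))) (T.a (T.a (T.c (T.l 944) (T.l 952)) (T.c (T.l 952) (T.l 952))) (T.a (T.c (T.l 952) (T.l 952)) (T.c (T.l 952) (T.l 952))))) (T.a (T.a (T.c (T.l 944) (T.l 944)) (T.a (T.c (T.a (T.l 944) (T.l 944)) (T.a (T.l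 944) (T.l 944))) (T.c (T.l 944) (T.l 952)))) (T.a (T.a (T.c (T.l 944) (T.l 952)) (T.c (T.l 952) (T.l 952))) (T.a (T.c (T.l 952) (T.l 952)) (T.c (T.l 952) (T.l 952))))))), by decide +kernel⟩

def B102E_001_3_3668_1 :
    ∃ t, chk3 (onCell 0 11184810 0 1073741824 1033476505 6710887 (corT true 1 c0B cB102E gB0q1 gB0q2 gB1q0 gB2q0 true true)) t 3 3668 1 = true :=
  ⟨(T.b (T.b (T.a (T.a (T.c (T.l 944) (T.l 944)) (T.a (T.c (T.a (T.l 944) (T.l 944)) (T.a (T.l 944) (T.l 944))) (T.c (T.l 944) (T.l 952)))) (T.a (T.a (T.c (T.l 944) (T.l 952)) (T.c (T.l 952) (T.l 952))) (T.a (T.c (T.l 952) (T.l 952)) (T.c (T.l 952) (T.l 952))))) (T.a (T.a (T.c (T.l 944) (T.l 944)) (T.a (T.c (T.a (T.l 944) (T.l 944)) (T.a (T.l 944) (T.l 944))) (T.c (T.l 944) (T.l 952)))) (T.a (T.a (T.c (T.l 944) (T.l 952)) (T.c (T.l 952) (T.l 952))) (T.a (T.c (T.l 952) (T.l 952)) (T.c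 (T.l 952) (T.l 952)))))) (T.b (T.a (T.a (T.c (T.l 944) (T.l 944)) (T.a (T.c (T.a (T.l 944) (T.l 944)) (T.a (T.l 944) (T.l 944))) (T.c (T.l 944) (T.l 952)))) (T.a (T.a (T.c (T.l 944) (T.l 952)) (T.c (T.l 952) (T.l 952))) (T.a (T.c (T.l 952) (T.l 952)) (T.c (T.l 952) (T.l 952))))) (T.a (T.a (T.c (T.l 944) (T.l 944)) (T.a (T.c (T.a (T.l 944) (T.l 944)) (T.a (T.l 944) (T.l 944))) (T.c (T.l 944) (T.l 952)))) (T.a (T.a (T.c (T.l 944) (T.l 952)) (T.c (T.l 952) (T.l 952))) (T.a (T.c (T.l 952) (T.l 952)) (T.c (T.l 952) (T.l 952))))))), by decide +kernel⟩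

def B102E_001_3_3669_1 :
    ∃ t, chk3 (onCell 0 11184810 0 1073741824 1033476505 6710887 (corT true 1 c0B cB102E gB0q1 gB0q2 gB1q0 gB2q0 true true)) t 3 3669 1 = true :=
  ⟨(T.b (T.b (T.a (T.a (T.c (T.l 944) (T.l 944)) (T.a (T.c (T.a (T.l 944) (T.l 944)) (T.a (T.l 944) (T.l 944))) (T.c (T.l 944) (T.l 952)))) (T.a (T.a (T.c (T.l 944) (T.l 952)) (T.c (T.l 952) (T.l 952))) (T.a (T.c (T.l 952) (T.l 952)) (T.c (T.l 952) (T.l 952))))) (T.a (T.a (T.c (T.l 944) (T.l 944)) (T.a (T.c (T.a (T.l 944) (T.l 944)) (T.a (T.l 944) (T.l 944))) (T.c (T.l 944) (T.l 952)))) (T.a (T.a (T.c (T.l 944) (T.l 952)) (T.c (T.l 952) (T.l 952))) (T.a (T.c (T.l 952) (T.l 952)) (T.c (T.l 952) (T.l 952)))))) (T.b (T.a (T.a (T.c (T.l 944) (T.l 944)) (T.a (T.c (T.a (T.l 944) (T.l 944)) (T.a (T.l 944) (T.l 944))) (T.c (T.l 944) (T.l 952)))) (T.a (T.a (T.c (T.l 944) (T.l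 952)) (T.c (T.l 952) (T.l 952))) (T.a (T.c (T.l 952) (T.l 952)) (T.c (T.l 952) (T.l 952))))) (T.a (T.a (T.c (T.l 944) (T.l 944)) (T.a (T.c (T.a (T.l 944) (T.l 944)) (T.a (T.l 944) (T.l 944))) (T.c (T.l 944) (T.l 952)))) (T.a (T.a (T.c (T.l 944) (T.l 952)) (T.c (T.l 952) (T.l 952))) (T.a (T.c (T.l 952) (T.l 952)) (T.c (T.l 952) (T.l 952))))))), by decide +kernel⟩

def B102E_001_3_3670_1 :
    ∃ t, chk3 (onCell 0 11184810 0 1073741824 1033476505 6710887 (corT true 1 c0B cB102E gB0q1 gB0q2 gB1q0 gB2q0 true true)) t 3 3670 1 = true :=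
  ⟨(T.b (T.b (T.a (T.a (T.c (T.l 944) (T.l 944)) (T.a (T.c (T.a (T.l 944) (T.l 944)) (T.a (T.l 944) (T.l 944))) (T.c (T.l 944) (T.l 952)))) (T.a (T.a (T.c (T.l 944) (T.l 952)) (T.c (T.l 952) (T.l 952))) (T.a (T.c (T.l 952) (T.l 952)) (T.c (T.l 952) (T.l 952))))) (T.a (T.a (T.c (T.l 944) (T.l 944)) (T.a (T.c (T.a (T.l 944) (T.l 944)) (T.a (T.l 944) (T.l 944))) (T.c (T.l 944) (T.l 952)))) (T.a (T.a (T.c (T.l 944) (T.l 952)) (T.c (T.l 952) (T.l 952))) (T.a (T.c (T.l 952) (T.l 952)) (T.c (T.l 952) (T.l 952)))))) (T.b (T.a (T.a (T.c (T.l 944) (T.l 944)) (T.a (T.c (T.a (T.l 944) (T.l 944)) (T.a (T.l 944) (T.l 944))) (T.c (T.l 944) (T.l 952)))) (T.a (T.a (T.c (T.l 944) (T.l 952)) (T.c (T.l 952) (T.l 952))) (T.a (T.c (T.l 952) (T.l 952)) (T.c (T.l 952) (T.l 952))))) (T.a (T.a (T.c (T.l 944) (T.l 944)) (T.a (T.c (T.a (T.l 944) (T.l 944)) (T.a (T.l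 944) (T.l 944))) (T.c (T.l 944) (T.l 952)))) (T.a (T.a (T.c (T.l 944) (T.l 952)) (T.c (T.l 952) (T.l 952))) (T.a (T.c (T.l 952) (T.l 952)) (T.c (T.l 952) (T.l 952))))))), by decide +kernel⟩

def B102E_001_3_3671_1 :
    ∃ t, chk3 (onCell 0 11184810 0 1073741824 1033476505 6710887 (corT true 1 c0B cB102E gB0q1 gB0q2 gB1q0 gB2q0 true true)) t 3 3671 1 = true :=
  ⟨(T.b (T.b (T.a (T.a (T.c (T.l 944) (T.l 944)) (T.a (T.c (T.a (T.l 944) (T.l 944)) (T.a (T.l 944) (T.l 944))) (T.c (T.l 944) (T.l 952)))) (T.a (T.a (T.c (T.l 944) (T.l 952)) (T.c (T.l 952) (T.l 952))) (T.a (T.c (T.l 952) (T.l 952)) (T.c (T.l 952) (T.l 952))))) (T.a (T.a (T.c (T.l 944) (T.l 944)) (T.a (T.c (T.a (T.l 944) (T.l 944)) (T.a (T.l 944) (T.l 944))) (T.c (T.l 944) (T.l 952)))) (T.a (T.a (T.c (T.l 944) (T.l 952)) (T.c (T.l 952) (T.l 952))) (T.a (T.c (T.l 952) (T.l 952)) (T.c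 (T.l 952) (T.l 952)))))) (T.b (T.a (T.a (T.c (T.l 944) (T.l 944)) (T.a (T.c (T.a (T.l 944) (T.l 944)) (T.a (T.l 944) (T.l 944))) (T.c (T.l 944) (T.l 952)))) (T.a (T.a (T.c (T.l 944) (T.l 952)) (T.c (T.l 952) (T.l 952))) (T.a (T.c (T.l 952) (T.l 952)) (T.c (T.l 952) (T.l 952))))) (T.a (T.a (T.c (T.l 944) (T.l 944)) (T.a (T.c (T.a (T.l 944) (T.l 944)) (T.a (T.l 944) (T.l 944))) (T.c (T.l 944) (T.l 952)))) (T.a (T.a (T.c (T.l 944) (T.l 952)) (T.c (T.l 952) (T.l 952))) (T.a (T.c (T.l 952) (T.l 952)) (T.c (T.l 952) (T.l 952))))))), by decide +kernel⟩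

def B102E_001_3_1836_1 :
    ∃ t, chk3 (onCell 0 11184810 0 1073741824 1033476505 6710887 (corT true 1 c0B cB102E gB0q1 gB0q2 gB1q0 gB2q0 true true)) t 3 1836 1 = true :=
  ⟨(T.b (T.b (T.a (T.a (T.c (T.l 944) (T.l 944)) (T.a (T.c (T.a (T.l 944) (T.l 944)) (T.a (T.l 944) (T.l 944))) (T.c (T.l 944) (T.c (T.l 944) (T.l 952))))) (T.a (T.a (T.c (T.l 944) (T.l 952)) (T.c (T.l 952) (T.l 952))) (T.a (T.c (T.l 952) (T.l 952)) (T.c (T.l 952) (T.l 952))))) (T.a (T.a (T.c (T.l 944) (T.l 944)) (T.a (T.c (T.a (T.l 944) (T.l 944)) (T.a (T.l 944) (T.l 944))) (T.c (T.l 944) (T.c (T.l 944) (T.l 952))))) (T.a (T.a (T.c (T.l 944) (T.l 952)) (T.c (T.l 952) (T.l 952))) (T.a (T.c (T.l 952) (T.l 952)) (T.c (T.l 952) (T.l 952)))))) (T.b (T.a (T.a (T.c (T.l 944) (T.l 944)) (T.a (T.c (T.a (T.l 944) (T.l 944)) (T.a (T.l 944) (T.l 944))) (T.c (T.l 944) (T.c (T.l 944)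 (T.l 952))))) (T.a (T.a (T.c (T.l 944) (T.l 952)) (T.c (T.l 952) (T.l 952))) (T.a (T.c (T.l 952) (T.l 952)) (T.c (T.l 952) (T.l 952))))) (T.a (T.a (T.c (T.l 944) (T.l 944)) (T.a (T.c (T.a (T.l 944) (T.l 944)) (T.a (T.l 944) (T.l 944))) (T.c (T.l 944) (T.c (T.l 944) (T.l 952))))) (T.a (T.a (T.c (T.l 944) (T.l 952)) (T.c (T.l 952) (T.l 952))) (T.a (T.c (T.l 952) (T.l 952)) (T.c (T.l 952) (T.l 952))))))), by decide +kernel⟩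

def B102E_001_3_1837_1 :
    ∃ t, chk3 (onCell 0 11184810 0 1073741824 1033476505 6710887 (corT true 1 c0B cB102E gB0q1 gB0q2 gB1q0 gB2q0 true true)) t 3 1837 1 = true :=
  ⟨(T.b (T.b (T.a (T.a (T.c (T.l 944) (T.l 944)) (T.a (T.c (T.a (T.l 944) (T.l 944)) (T.a (T.l 944) (T.l 944))) (T.c (T.l 944) (T.c (T.l 944) (T.l 952))))) (T.a (T.a (T.c (T.l 944) (T.l 952)) (T.c (T.l 952) (T.l 952))) (T.a (T.c (T.l 952) (T.l 952)) (T.c (T.l 952) (T.l 952))))) (T.a (T.a (T.c (T.l 944) (T.l 944)) (T.a (T.c (T.a (T.l 944) (T.l 944)) (T.a (T.l 944) (T.l 944))) (T.c (T.l 944) (T.c (T.l 944) (T.l 952))))) (T.a (T.a (T.c (T.l 944) (T.l 952)) (T.c (T.l 952) (T.l 952))) (T.a (T.c (T.l 952) (T.l 952)) (T.c (T.l 952) (T.l 952)))))) (T.b (T.a (T.a (T.c (T.l 944) (T.l 944)) (T.a (T.c (T.a (T.l 944) (T.l 944)) (T.a (T.l 944) (T.l 944))) (T.c (T.l 944) (T.c (T.l 944)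 (T.l 952))))) (T.a (T.a (T.c (T.l 944) (T.l 952)) (T.c (T.l 952) (T.l 952))) (T.a (T.c (T.l 952) (T.l 952)) (T.c (T.l 952) (T.l 952))))) (T.a (T.a (T.c (T.l 944) (T.l 944)) (T.a (T.c (T.a (T.l 944) (T.l 944)) (T.a (T.l 944) (T.l 944))) (T.c (T.l 944) (T.c (T.l 944) (T.l 952))))) (T.a (T.a (T.c (T.l 944) (T.l 952)) (T.c (T.l 952) (T.l 952))) (T.a (T.c (T.l 952) (T.l 952)) (T.c (T.l 952) (T.l 952))))))), by decide +kernel⟩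

def B102E_001_3_1838_1 :
    ∃ t, chk3 (onCell 0 11184810 0 1073741824 1033476505 6710887 (corT true 1 c0B cB102E gB0q1 gB0q2 gB1q0 gB2q0 true true)) t 3 1838 1 = true :=
  ⟨(T.b (T.b (T.a (T.a (T.c (T.l 944) (T.l 944)) (T.a (T.c (T.a (T.l 944) (T.l 944)) (T.a (T.l 944) (T.l 944))) (T.c (T.l 944) (T.c (T.l 944) (T.l 952))))) (T.a (T.a (T.c (T.l 944) (T.l 952)) (T.c (T.l 952) (T.l 952))) (T.a (T.c (T.l 952) (T.l 952)) (T.c (T.l 952) (T.l 952))))) (T.a (T.a (T.c (T.l 944) (T.l 944)) (T.a (T.c (T.a (T.l 944) (T.l 944)) (T.a (T.l 944) (T.l 944))) (T.c (T.l 944) (T.c (T.l 944) (T.l 952))))) (T.a (T.a (T.c (T.l 944) (T.l 952)) (T.c (T.l 952) (T.l 952))) (T.a (T.c (T.l 952) (T.l 952)) (T.c (T.l 952) (T.l 952)))))) (T.b (T.a (T.a (T.c (T.l 944) (T.l 944)) (T.a (T.c (T.a (T.l 944) (T.l 944)) (T.a (T.l 944) (T.l 944))) (T.c (T.l 944) (T.c (T.l 944)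 (T.l 952))))) (T.a (T.a (T.c (T.l 944) (T.l 952)) (T.c (T.l 952) (T.l 952))) (T.a (T.c (T.l 952) (T.l 952)) (T.c (T.l 952) (T.l 952))))) (T.a (T.a (T.c (T.l 944) (T.l 944)) (T.a (T.c (T.a (T.l 944) (T.l 944)) (T.a (T.l 944) (T.l 944))) (T.c (T.l 944) (T.c (T.l 944) (T.l 952))))) (T.a (T.a (T.c (T.l 944) (T.l 952)) (T.c (T.l 952) (T.l 952))) (T.a (T.c (T.l 952) (T.l 952)) (T.c (T.l 952) (T.l 952))))))), by decide +kernel⟩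

def B102E_001_3_1839_1 :
    ∃ t, chk3 (onCell 0 11184810 0 1073741824 1033476505 6710887 (corT true 1 c0B cB102E gB0q1 gB0q2 gB1q0 gB2q0 true true)) t 3 1839 1 = true :=
  ⟨(T.b (T.b (T.a (T.a (T.c (T.l 944) (T.l 944)) (T.a (T.c (T.a (T.l 944) (T.l 944)) (T.a (T.l 944) (T.l 944))) (T.c (T.l 944) (T.c (T.l 944) (T.l 952))))) (T.a (T.a (T.c (T.l 944) (T.l 952)) (T.c (T.l 952) (T.l 952))) (T.a (T.c (T.l 952) (T.l 952)) (T.c (T.l 952) (T.l 952))))) (T.a (T.a (T.c (T.l 944) (T.l 944)) (T.a (T.c (T.a (T.l 944) (T.l 944)) (T.a (T.l 944) (T.l 944))) (T.c (T.l 944) (T.c (T.l 944) (T.l 952))))) (T.a (T.a (T.c (T.l 944) (T.l 952)) (T.c (T.l 952) (T.l 952))) (T.a (T.c (T.l 952) (T.l 952)) (T.c (T.l 952) (T.l 952)))))) (T.b (T.a (T.a (T.c (T.l 944) (T.l 944)) (T.a (T.c (T.a (T.l 944) (T.l 944)) (T.a (T.l 944) (T.l 944))) (T.c (T.l 944) (T.c (T.l 944)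 (T.l 952))))) (T.a (T.a (T.c (T.l 944) (T.l 952)) (T.c (T.l 952) (T.l 952))) (T.a (T.c (T.l 952) (T.l 952)) (T.c (T.l 952) (T.l 952))))) (T.a (T.a (T.c (T.l 944) (T.l 944)) (T.a (T.c (T.a (T.l 944) (T.l 944)) (T.a (T.l 944) (T.l 944))) (T.c (T.l 944) (T.c (T.l 944) (T.l 952))))) (T.a (T.a (T.c (T.l 944) (T.l 952)) (T.c (T.l 952) (T.l 952))) (T.a (T.c (T.l 952) (T.l 952)) (T.c (T.l 952) (T.l 952))))))), by decide +kernel⟩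

def B102E_001_3_1840_1 :
    ∃ t, chk3 (onCell 0 11184810 0 1073741824 1033476505 6710887 (corT true 1 c0B cB102E gB0q1 gB0q2 gB1q0 gB2q0 true true)) t 3 1840 1 = true :=
  ⟨(T.b (T.b (T.a (T.a (T.c (T.l 944) (T.l 944)) (T.a (T.c (T.a (T.l 944) (T.l 944)) (T.a (T.l 944) (T.l 944))) (T.c (T.l 944) (T.c (T.l 944) (T.l 952))))) (T.a (T.a (T.c (T.l 944) (T.l 952)) (T.c (T.l 952) (T.l 952))) (T.a (T.c (T.l 952) (T.l 952)) (T.c (T.l 952) (T.l 952))))) (T.a (T.a (T.c (T.l 944) (T.l 944)) (T.a (T.c (T.a (T.l 944) (T.l 944)) (T.a (T.l 944) (T.l 944))) (T.c (T.l 944) (T.c (T.l 944) (T.l 952))))) (T.a (T.a (T.c (T.l 952) (T.l 952)) (T.c (T.l 952) (T.l 952))) (T.a (T.c (T.l 952) (T.l 952)) (T.c (T.l 952) (T.l 952)))))) (T.b (T.a (T.a (T.c (T.l 944) (T.l 944)) (T.a (T.c (T.a (T.l 944) (T.l 944)) (T.a (T.l 944) (T.l 944))) (T.c (T.l 944) (T.c (T.l 944)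 (T.l 952))))) (T.b (T.a (T.a (T.c (T.l 952) (T.l 952)) (T.c (T.l 952) (T.l 952))) (T.a (T.c (T.l 952) (T.l 952)) (T.c (T.l 952) (T.l 952)))) (T.a (T.a (T.c (T.l 952) (T.l 952)) (T.c (T.l 952) (T.l 952))) (T.a (T.c (T.l 952) (T.l 952)) (T.c (T.l 952) (T.l 952)))))) (T.a (T.a (T.c (T.l 944) (T.l 944)) (T.a (T.c (T.a (T.l 944) (T.l 944)) (T.a (T.l 944) (T.l 944))) (T.c (T.l 944) (T.c (T.l 944) (T.l 952))))) (T.b (T.a (T.a (T.c (T.l 952) (T.l 952)) (T.c (T.l 952) (T.l 952))) (T.a (T.c (T.l 952) (T.l 952)) (T.c (T.l 952) (T.l 952)))) (T.a (T.a (T.c (T.l 952) (T.l 952)) (T.c (T.l 952) (T.l 952))) (T.a (T.c (T.l 952) (T.l 952)) (T.c (T.l 952) (T.l 952)))))))), by decide +kernel⟩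

def B102E_001_3_1841_1 :
    ∃ t, chk3 (onCell 0 11184810 0 1073741824 1033476505 6710887 (corT true 1 c0B cB102E gB0q1 gB0q2 gB1q0 gB2q0 true true)) t 3 1841 1 = true :=
  ⟨(T.b (T.b (T.a (T.a (T.c (T.l 944) (T.l 944)) (T.a (T.c (T.a (T.l 944) (T.l 944)) (T.a (T.l 944) (T.l 944))) (T.c (T.l 944) (T.c (T.l 944) (T.l 952))))) (T.b (T.a (T.a (T.c (T.l 952) (T.l 952)) (T.c (T.l 952) (T.l 952))) (T.a (T.c (T.l 952) (T.l 952)) (T.c (T.l 952) (T.l 952)))) (T.a (T.a (T.c (T.l 952) (T.l 952)) (T.c (T.l 952) (T.l 952))) (T.a (T.c (T.l 952) (T.l 952)) (T.c (T.l 952) (T.l 952)))))) (T.a (T.a (T.c (T.l 944) (T.l 944)) (T.a (T.c (T.a (T.l 944) (T.l 944)) (T.a (T.l 944) (T.l 944))) (T.c (T.l 944) (T.c (T.l 944) (T.l 952))))) (T.b (T.a (T.a (T.c (T.l 952) (T.l 952)) (T.c (T.l 952) (T.l 952))) (T.a (T.c (T.l 952) (T.l 952)) (T.c (T.l 952) (T.l 952))))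 (T.a (T.a (T.c (T.l 952) (T.l 952)) (T.c (T.l 952) (T.l 952))) (T.a (T.c (T.l 952) (T.l 952)) (T.c (T.l 952) (T.l 952))))))) (T.b (T.a (T.a (T.c (T.l 944) (T.l 944)) (T.a (T.c (T.a (T.l 944) (T.l 944)) (T.a (T.l 944) (T.l 944))) (T.c (T.l 944) (T.c (T.l 944) (T.l 952))))) (T.b (T.a (T.a (T.c (T.l 952) (T.l 952)) (T.c (T.l 952) (T.l 952))) (T.a (T.c (T.l 952) (T.l 952)) (T.c (T.l 952) (T.l 952)))) (T.a (T.a (T.c (T.l 952) (T.l 952)) (T.c (T.l 952) (T.l 952))) (T.a (T.c (T.l 952) (T.l 952)) (T.c (T.l 952) (T.l 952)))))) (T.a (T.a (T.c (T.l 944) (T.l 944)) (T.a (T.c (T.a (T.l 944) (T.l 944)) (T.a (T.l 944) (T.l 944))) (T.c (T.l 944) (T.c (T.l 944) (T.l 952))))) (T.b (T.a (T.a (T.c (T.l 952) (T.l 952)) (T.c (T.l 952) (T.l 952))) (T.a (T.c (T.l 952) (T.l 952)) (T.c (T.l 952) (T.l 952)))) (T.a (T.a (T.c (T.l 952) (T.l 952)) (T.c (T.l 952) (T.l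 952))) (T.a (T.c (T.l 952) (T.l 952)) (T.c (T.l 952) (T.l 952)))))))), by decide +kernel⟩

def B102E_001_3_3684_1 :
    ∃ t, chk3 (onCell 0 11184810 0 1073741824 1033476505 6710887 (corT true 1 c0B cB102E gB0q1 gB0q2 gB1q0 gB2q0 true true)) t 3 3684 1 = true :=
  ⟨(T.b (T.a (T.a (T.c (T.l 944) (T.l 944)) (T.b (T.b (T.a (T.c (T.a (T.l 944) (T.l 944)) (T.a (T.l 944) (T.l 944))) (T.c (T.l 944) (T.c (T.l 944) (T.l 952)))) (T.a (T.c (T.a (T.l 944) (T.l 944)) (T.a (T.l 944) (T.l 944))) (T.c (T.l 944) (T.c (T.l 944) (T.l 952))))) (T.b (T.a (T.c (T.a (T.l 944) (T.l 944)) (T.a (T.l 944) (T.l 944))) (T.c (T.l 944) (T.c (T.l 944) (T.l 952)))) (T.a (T.c (T.a (T.l 944) (T.l 944)) (T.a (T.l 944) (T.l 944))) (T.c (T.l 944) (T.c (T.l 944) (T.l 952))))))) (T.b (T.a (T.a (T.c (T.l 952) (T.l 952)) (T.c (T.l 952) (T.l 952))) (T.a (T.c (T.l 952) (T.l 952))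 (T.c (T.l 952) (T.l 952)))) (T.a (T.a (T.c (T.l 952) (T.l 952)) (T.c (T.l 952) (T.l 952))) (T.a (T.c (T.l 952) (T.l 952)) (T.c (T.l 952) (T.l 952)))))) (T.a (T.a (T.c (T.l 944) (T.l 944)) (T.b (T.b (T.a (T.c (T.a (T.l 944) (T.l 944)) (T.a (T.l 944) (T.l 944))) (T.c (T.l 944) (T.c (T.l 944) (T.l 952)))) (T.a (T.c (T.a (T.l 944) (T.l 944)) (T.a (T.l 944) (T.l 944))) (T.c (T.l 944) (T.c (T.l 944) (T.l 952))))) (T.b (T.a (T.c (T.a (T.l 944) (T.l 944)) (T.a (T.l 944) (T.l 944))) (T.c (T.l 944) (T.c (T.l 944) (T.l 952)))) (T.a (T.c (T.a (T.l 944) (T.l 944)) (T.a (T.l 944) (T.l 944))) (T.c (T.l 944) (T.c (T.l 944) (T.l 952))))))) (T.b (T.a (T.a (T.c (T.l 952) (T.l 952)) (T.c (T.l 952) (T.l 952))) (T.a (T.c (T.l 952) (T.l 952)) (T.c (T.l 952) (T.l 952)))) (T.a (T.a (T.c (T.l 952) (T.l 952)) (T.c (T.l 952) (T.l 952))) (T.a (T.c (T.l 952) (T.l 952))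 (T.c (T.l 952) (T.l 952))))))), by decide +kernel⟩

def B102E_001_3_7370_1 :
    ∃ t, chk3 (onCell 0 11184810 0 1073741824 1033476505 6710887 (corT true 1 c0B cB102E gB0q1 gB0q2 gB1q0 gB2q0 true true)) t 3 7370 1 = true :=
  ⟨(T.a (T.a (T.c (T.l 944) (T.l 944)) (T.b (T.b (T.a (T.c (T.a (T.l 944) (T.l 944)) (T.a (T.l 944) (T.l 944))) (T.c (T.l 944) (T.c (T.l 944) (T.l 952)))) (T.a (T.b (T.c (T.a (T.l 944) (T.l 944)) (T.a (T.l 944) (T.l 944))) (T.c (T.a (T.l 944) (T.l 944)) (T.a (T.l 944) (T.l 944)))) (T.c (T.l 944) (T.c (T.l 944) (T.l 952))))) (T.b (T.a (T.b (T.c (T.a (T.l 944) (T.l 944)) (T.a (T.l 944) (T.l 944))) (T.c (T.a (T.l 944) (T.l 944)) (T.a (T.l 944) (T.l 944)))) (T.c (T.l 944) (T.c (T.l 944) (T.l 952)))) (T.a (T.b (T.c (T.a (T.l 944) (T.l 944)) (T.a (T.l 944) (T.l 944))) (T.c (T.a (T.l 944) (T.l 944)) (T.a (T.l 944) (T.l 944))))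 (T.c (T.l 944) (T.c (T.l 944) (T.l 952))))))) (T.b (T.a (T.a (T.c (T.l 952) (T.l 952)) (T.c (T.l 952) (T.l 952))) (T.a (T.c (T.l 952) (T.l 952)) (T.c (T.l 952) (T.l 952)))) (T.a (T.b (T.a (T.c (T.l 952) (T.l 952)) (T.c (T.l 952) (T.l 952))) (T.a (T.c (T.l 952) (T.l 952)) (T.c (T.l 952) (T.l 952)))) (T.a (T.c (T.l 952) (T.l 952)) (T.c (T.l 952) (T.l 952)))))), by decide +kernel⟩

def B102E_001_3_7371_1 :
    ∃ t, chk3 (onCell 0 11184810 0 1073741824 1033476505 6710887 (corT true 1 c0B cB102E gB0q1 gB0q2 gB1q0 gB2q0 true true)) t 3 7371 1 = true :=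
  ⟨(T.a (T.b (T.a (T.c (T.l 944) (T.l 944)) (T.b (T.a (T.b (T.c (T.a (T.l 944) (T.l 944)) (T.a (T.l 944) (T.l 944))) (T.c (T.a (T.l 944) (T.l 944)) (T.a (T.l 944) (T.l 944)))) (T.c (T.l 944) (T.c (T.l 944) (T.l 952)))) (T.a (T.b (T.c (T.a (T.l 944) (T.l 944)) (T.a (T.l 944) (T.l 944))) (T.c (T.a (T.l 944) (T.l 944)) (T.a (T.l 944) (T.l 944)))) (T.c (T.l 944) (T.c (T.l 944) (T.l 952)))))) (T.a (T.c (T.l 944) (T.l 944)) (T.b (T.a (T.b (T.c (T.a (T.l 944) (T.l 944)) (T.a (T.l 944) (T.l 944))) (T.c (T.a (T.l 944) (T.l 944)) (T.a (T.l 944) (T.l 944)))) (T.c (T.l 944) (T.c (T.l 944) (T.l 952)))) (T.a (T.b (T.c (T.a (T.l 944) (T.l 944)) (T.a (T.l 944) (T.l 944))) (T.c (T.a (T.l 944) (T.l 944)) (T.a (T.l 944) (T.l 944)))) (T.c (T.l 944) (T.c (T.l 944) (T.l 952))))))) (T.b (T.a (T.b (T.a (T.c (T.l 952) (T.l 952)) (T.c (T.l 952) (T.l 952))) (T.a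 (T.c (T.l 952) (T.l 952)) (T.c (T.l 952) (T.l 952)))) (T.a (T.c (T.l 952) (T.l 952)) (T.c (T.l 952) (T.l 952)))) (T.a (T.b (T.a (T.c (T.l 952) (T.l 952)) (T.c (T.l 952) (T.l 952))) (T.a (T.c (T.l 952) (T.l 952)) (T.c (T.l 952) (T.l 952)))) (T.b (T.a (T.c (T.l 952) (T.l 952)) (T.c (T.l 952) (T.l 952))) (T.a (T.c (T.l 952) (T.l 952)) (T.c (T.l 952) (T.l 952))))))), by decide +kernel⟩

def B102E_001_3_7372_1 :
    ∃ t, chk3 (onCell 0 11184810 0 1073741824 1033476505 6710887 (corT true 1 c0B cB102E gB0q1 gB0q2 gB1q0 gB2q0 true true)) t 3 7372 1 = true :=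
  ⟨(T.a (T.b (T.a (T.c (T.l 944) (T.l 944)) (T.b (T.a (T.b (T.c (T.a (T.l 944) (T.l 944)) (T.a (T.l 944) (T.l 944))) (T.c (T.a (T.l 944) (T.l 944)) (T.a (T.l 944) (T.l 944)))) (T.c (T.l 944) (T.c (T.l 944) (T.l 952)))) (T.a (T.b (T.c (T.a (T.l 944) (T.l 944)) (T.a (T.l 944) (T.l 944))) (T.c (T.a (T.l 944) (T.l 944)) (T.a (T.l 944) (T.l 944)))) (T.c (T.l 944) (T.c (T.l 944) (T.l 952)))))) (T.a (T.c (T.l 944) (T.l 944)) (T.b (T.a (T.b (T.c (T.a (T.l 944) (T.l 944)) (T.a (T.l 944) (T.l 944))) (T.c (T.a (T.l 944) (T.l 944)) (T.a (T.l 944) (T.l 944)))) (T.c (T.l 944) (T.c (T.l 944) (T.l 952)))) (T.a (T.b (T.c (T.a (T.l 944) (T.l 944)) (T.a (T.l 944) (T.l 944))) (T.c (T.a (T.l 944) (T.l 944)) (T.a (T.l 944) (T.l 944)))) (T.c (T.l 944) (T.c (T.l 944) (T.l 952))))))) (T.b (T.a (T.b (T.a (T.c (T.l 952) (T.l 952)) (T.c (T.l 952) (T.l 952))) (T.a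 (T.c (T.l 952) (T.l 952)) (T.c (T.l 952) (T.l 952)))) (T.b (T.a (T.c (T.l 952) (T.l 952)) (T.c (T.l 952) (T.l 952))) (T.a (T.c (T.l 952) (T.l 952)) (T.c (T.l 952) (T.l 952))))) (T.a (T.b (T.a (T.c (T.l 952) (T.l 952)) (T.c (T.l 952) (T.l 952))) (T.a (T.c (T.l 952) (T.l 952)) (T.c (T.l 952) (T.l 952)))) (T.b (T.a (T.c (T.l 952) (T.l 952)) (T.c (T.l 952) (T.l 952))) (T.a (T.c (T.l 952) (T.l 952)) (T.c (T.l 952) (T.l 952))))))), by decide +kernel⟩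

def B102E_001_3_7373_1 :
    ∃ t, chk3 (onCell 0 11184810 0 1073741824 1033476505 6710887 (corT true 1 c0B cB102E gB0q1 gB0q2 gB1q0 gB2q0 true true)) t 3 7373 1 = true :=
  ⟨(T.a (T.b (T.a (T.c (T.l 944) (T.l 944)) (T.b (T.a (T.b (T.c (T.a (T.l 944) (T.l 944)) (T.a (T.l 944) (T.l 944))) (T.c (T.a (T.l 944) (T.l 944)) (T.a (T.l 944) (T.l 944)))) (T.c (T.l 944) (T.c (T.l 944) (T.l 952)))) (T.a (T.b (T.c (T.a (T.l 944) (T.l 944)) (T.a (T.l 944) (T.l 944))) (T.c (T.a (T.l 944) (T.l 944)) (T.a (T.l 944) (T.l 944)))) (T.c (T.l 944) (T.c (T.l 944) (T.l 952)))))) (T.a (T.c (T.l 944) (T.l 944)) (T.b (T.a (T.b (T.c (T.a (T.l 944) (T.l 944)) (T.a (T.l 944) (T.l 944))) (T.c (T.a (T.l 944) (T.l 944)) (T.a (T.l 944) (T.l 944)))) (T.c (T.l 944) (T.c (T.l 944) (T.l 952)))) (T.a (T.l 2) (T.c (T.l 944) (T.c (T.l 944) (T.l 952))))))) (T.b (T.a (T.b (T.a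 (T.c (T.l 952) (T.l 952)) (T.c (T.l 952) (T.l 952))) (T.a (T.c (T.l 952) (T.l 952)) (T.c (T.l 952) (T.l 952)))) (T.b (T.a (T.c (T.l 952) (T.l 952)) (T.c (T.l 952) (T.l 952))) (T.a (T.c (T.l 952) (T.l 952)) (T.c (T.l 952) (T.l 952))))) (T.a (T.b (T.a (T.c (T.l 952) (T.l 952)) (T.c (T.l 952) (T.l 952))) (T.a (T.c (T.l 952) (T.l 952)) (T.c (T.l 952) (T.l 952)))) (T.b (T.a (T.c (T.l 952) (T.l 952)) (T.c (T.l 952) (T.l 952))) (T.a (T.c (T.l 952) (T.l 952)) (T.c (T.l 952) (T.l 952))))))), by decide +kernel⟩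

def B102E_001_3_3687_1 :
    ∃ t, chk3 (onCell 0 11184810 0 1073741824 1033476505 6710887 (corT true 1 c0B cB102E gB0q1 gB0q2 gB1q0 gB2q0 true true)) t 3 3687 1 = true :=
  ⟨(T.a (T.l 2) (T.b (T.b (T.b (T.a (T.a (T.l 2) (T.c (T.l 952) (T.l 952))) (T.a (T.c (T.l 952) (T.l 952)) (T.c (T.l 952) (T.l 952)))) (T.l 2)) (T.l 2)) (T.l 2))), by decide +kernel⟩

def B102E_001_3_461_1 :
    ∃ t, chk3 (onCell 0 11184810 0 1073741824 1033476505 6710887 (corT true 1 c0B cB102E gB0q1 gB0q2 gB1q0 gB2q0 true true)) t 3 461 1 = true :=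
  ⟨(T.l 2), by decide +kernel⟩

def B102E_001_3_231_1 :
    ∃ t, chk3 (onCell 0 11184810 0 1073741824 1033476505 6710887 (corT true 1 c0B cB102E gB0q1 gB0q2 gB1q0 gB2q0 true true)) t 3 231 1 = true :=
  ⟨(T.l 2), by decide +kernel⟩

def B102E_001_1_29_1 :
    ∃ t, chk3 (onCell 0 11184810 0 1073741824 1033476505 6710887 (corT true 1 c0B cB102E gB0q1 gB0q2 gB1q0 gB2q0 true true)) t 1 29 1 = true :=
  ⟨(T.l 2), by decide +kernel⟩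

def B102E_001_1_15_1 :
    ∃ t, chk3 (onCell 0 11184810 0 1073741824 1033476505 6710887 (corT true 1 c0B cB102E gB0q1 gB0q2 gB1q0 gB2q0 true true)) t 1 15 1 = true :=
  ⟨(T.l 2), by decide +kernel⟩

theorem B102E_001_3_3686_1 :
    ∃ t, chk3 (onCell 0 11184810 0 1073741824 1033476505 6710887 (corT true 1 c0B cB102E gB0q1 gB0q2 gB1q0 gB2q0 true true)) t 3 3686 1 = true :=
  ex3_b B102E_001_3_7372_1 B102E_001_3_7373_1
theorem B102E_001_3_1843_1 :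
    ∃ t, chk3 (onCell 0 11184810 0 1073741824 1033476505 6710887 (corT true 1 c0B cB102E gB0q1 gB0q2 gB1q0 gB2q0 true true)) t 3 1843 1 = true :=
  ex3_b B102E_001_3_3686_1 B102E_001_3_3687_1
theorem B102E_001_3_3685_1 :
    ∃ t, chk3 (onCell 0 11184810 0 1073741824 1033476505 6710887 (corT true 1 c0B cB102E gB0q1 gB0q2 gB1q0 gB2q0 true true)) t 3 3685 1 = true :=
  ex3_b B102E_001_3_7370_1 B102E_001_3_7371_1
theorem B102E_001_3_1842_1 :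
    ∃ t, chk3 (onCell 0 11184810 0 1073741824 1033476505 6710887 (corT true 1 c0B cB102E gB0q1 gB0q2 gB1q0 gB2q0 true true)) t 3 1842 1 = true :=
  ex3_b B102E_001_3_3684_1 B102E_001_3_3685_1
theorem B102E_001_3_921_1 :
    ∃ t, chk3 (onCell 0 11184810 0 1073741824 1033476505 6710887 (corT true 1 c0B cB102E gB0q1 gB0q2 gB1q0 gB2q0 true true)) t 3 921 1 = true :=
  ex3_b B102E_001_3_1842_1 B102E_001_3_1843_1
theorem B102E_001_3_920_1 :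
    ∃ t, chk3 (onCell 0 11184810 0 1073741824 1033476505 6710887 (corT true 1 c0B cB102E gB0q1 gB0q2 gB1q0 gB2q0 true true)) t 3 920 1 = true :=
  ex3_b B102E_001_3_1840_1 B102E_001_3_1841_1
theorem B102E_001_3_460_1 :
    ∃ t, chk3 (onCell 0 11184810 0 1073741824 1033476505 6710887 (corT true 1 c0B cB102E gB0q1 gB0q2 gB1q0 gB2q0 true true)) t 3 460 1 = true :=
  ex3_b B102E_001_3_920_1 B102E_001_3_921_1
theorem B102E_001_3_230_1 :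
    ∃ t, chk3 (onCell 0 11184810 0 1073741824 1033476505 6710887 (corT true 1 c0B cB102E gB0q1 gB0q2 gB1q0 gB2q0 true true)) t 3 230 1 = true :=
  ex3_b B102E_001_3_460_1 B102E_001_3_461_1
theorem B102E_001_3_115_1 :
    ∃ t, chk3 (onCell 0 11184810 0 1073741824 1033476505 6710887 (corT true 1 c0B cB102E gB0q1 gB0q2 gB1q0 gB2q0 true true)) t 3 115 1 = true :=
  ex3_b B102E_001_3_230_1 B102E_001_3_231_1
theorem B102E_001_3_919_1 :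
    ∃ t, chk3 (onCell 0 11184810 0 1073741824 1033476505 6710887 (corT true 1 c0B cB102E gB0q1 gB0q2 gB1q0 gB2q0 true true)) t 3 919 1 = true :=
  ex3_b B102E_001_3_1838_1 B102E_001_3_1839_1
theorem B102E_001_3_918_1 :
    ∃ t, chk3 (onCell 0 11184810 0 1073741824 1033476505 6710887 (corT true 1 c0B cB102E gB0q1 gB0q2 gB1q0 gB2q0 true true)) t 3 918 1 = true :=
  ex3_b B102E_001_3_1836_1 B102E_001_3_1837_1
theorem B102E_001_3_459_1 :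
    ∃ t, chk3 (onCell 0 11184810 0 1073741824 1033476505 6710887 (corT true 1 c0B cB102E gB0q1 gB0q2 gB1q0 gB2q0 true true)) t 3 459 1 = true :=
  ex3_b B102E_001_3_918_1 B102E_001_3_919_1
theorem B102E_001_3_1835_1 :
    ∃ t, chk3 (onCell 0 11184810 0 1073741824 1033476505 6710887 (corT true 1 c0B cB102E gB0q1 gB0q2 gB1q0 gB2q0 true true)) t 3 1835 1 = true :=
  ex3_b B102E_001_3_3670_1 B102E_001_3_3671_1
theorem B102E_001_3_1834_1 :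
    ∃ t, chk3 (onCell 0 11184810 0 1073741824 1033476505 6710887 (corT true 1 c0B cB102E gB0q1 gB0q2 gB1q0 gB2q0 true true)) t 3 1834 1 = true :=
  ex3_b B102E_001_3_3668_1 B102E_001_3_3669_1
theorem B102E_001_3_917_1 :
    ∃ t, chk3 (onCell 0 11184810 0 1073741824 1033476505 6710887 (corT true 1 c0B cB102E gB0q1 gB0q2 gB1q0 gB2q0 true true)) t 3 917 1 = true :=
  ex3_b B102E_001_3_1834_1 B102E_001_3_1835_1
theorem B102E_001_3_1833_1 :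
    ∃ t, chk3 (onCell 0 11184810 0 1073741824 1033476505 6710887 (corT true 1 c0B cB102E gB0q1 gB0q2 gB1q0 gB2q0 true true)) t 3 1833 1 = true :=
  ex3_b B102E_001_3_3666_1 B102E_001_3_3667_1
theorem B102E_001_3_1832_1 :
    ∃ t, chk3 (onCell 0 11184810 0 1073741824 1033476505 6710887 (corT true 1 c0B cB102E gB0q1 gB0q2 gB1q0 gB2q0 true true)) t 3 1832 1 = true :=
  ex3_b B102E_001_3_3664_1 B102E_001_3_3665_1
theorem B102E_001_3_916_1 :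
    ∃ t, chk3 (onCell 0 11184810 0 1073741824 1033476505 6710887 (corT true 1 c0B cB102E gB0q1 gB0q2 gB1q0 gB2q0 true true)) t 3 916 1 = true :=
  ex3_b B102E_001_3_1832_1 B102E_001_3_1833_1
theorem B102E_001_3_458_1 :
    ∃ t, chk3 (onCell 0 11184810 0 1073741824 1033476505 6710887 (corT true 1 c0B cB102E gB0q1 gB0q2 gB1q0 gB2q0 true true)) t 3 458 1 = true :=
  ex3_b B102E_001_3_916_1 B102E_001_3_917_1
theorem B102E_001_3_229_1 :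
    ∃ t, chk3 (onCell 0 11184810 0 1073741824 1033476505 6710887 (corT true 1 c0B cB102E gB0q1 gB0q2 gB1q0 gB2q0 true true)) t 3 229 1 = true :=
  ex3_b B102E_001_3_458_1 B102E_001_3_459_1
theorem B102E_001_3_114_1 :
    ∃ t, chk3 (onCell 0 11184810 0 1073741824 1033476505 6710887 (corT true 1 c0B cB102E gB0q1 gB0q2 gB1q0 gB2q0 true true)) t 3 114 1 = true :=
  ex3_b B102E_001_3_228_1 B102E_001_3_229_1
theorem B102E_001_3_57_1 :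
    ∃ t, chk3 (onCell 0 11184810 0 1073741824 1033476505 6710887 (corT true 1 c0B cB102E gB0q1 gB0q2 gB1q0 gB2q0 true true)) t 3 57 1 = true :=
  ex3_b B102E_001_3_114_1 B102E_001_3_115_1
theorem B102E_001_3_28_1 :
    ∃ t, chk3 (onCell 0 11184810 0 1073741824 1033476505 6710887 (corT true 1 c0B cB102E gB0q1 gB0q2 gB1q0 gB2q0 true true)) t 3 28 1 = true :=
  ex3_b B102E_001_3_56_1 B102E_001_3_57_1
theorem B102E_001_1_28_1 :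
    ∃ t, chk3 (onCell 0 11184810 0 1073741824 1033476505 6710887 (corT true 1 c0B cB102E gB0q1 gB0q2 gB1q0 gB2q0 true true)) t 1 28 1 = true :=
  ex3_a B102E_001_2_28_1 B102E_001_3_28_1
theorem B102E_001_1_14_1 :
    ∃ t, chk3 (onCell 0 11184810 0 1073741824 1033476505 6710887 (corT true 1 c0B cB102E gB0q1 gB0q2 gB1q0 gB2q0 true true)) t 1 14 1 = true :=
  ex3_b B102E_001_1_28_1 B102E_001_1_29_1
theorem B102E_001_1_7_1 :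
    ∃ t, chk3 (onCell 0 11184810 0 1073741824 1033476505 6710887 (corT true 1 c0B cB102E gB0q1 gB0q2 gB1q0 gB2q0 true true)) t 1 7 1 = true :=
  ex3_b B102E_001_1_14_1 B102E_001_1_15_1
theorem B102E_001_1_6_1 :
    ∃ t, chk3 (onCell 0 11184810 0 1073741824 1033476505 6710887 (corT true 1 c0B cB102E gB0q1 gB0q2 gB1q0 gB2q0 true true)) t 1 6 1 = true :=
  ex3_a B102E_001_2_6_1 B102E_001_3_6_1
theorem B102E_001_1_3_1 :
    ∃ t, chk3 (onCell 0 11184810 0 1073741824 1033476505 6710887 (corT true 1 c0B cB102E gB0q1 gB0q2 gB1q0 gB2q0 true true)) t 1 3 1 = true :=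
  ex3_b B102E_001_1_6_1 B102E_001_1_7_1
theorem B102E_001 :
    ∃ t, chk3 (onCell 0 11184810 0 1073741824 1033476505 6710887 (corT true 1 c0B cB102E gB0q1 gB0q2 gB1q0 gB2q0 true true)) t 1 1 1 = true :=
  ex3_b B102E_001_1_2_1 B102E_001_1_3_1

def B102E_002 :
    ∃ t, chk3 (onCell 0 11184810 0 1073741824 1033476505 6710887 (corT true 1 c0B cB102E gB0q1 gB0q2 gB2q0 gB3q0 true false)) t 1 1 1 = true :=
  ⟨(T.b (T.l 1) (T.b (T.l 1) (T.a (T.b (T.b (T.b (T.l 1) (T.b (T.l 1) (T.c (T.b (T.l 944) (T.l 816)) (T.c (T.l 944) (T.l 944))))) (T.c (T.a (T.b (T.l 816) (T.l 816)) (T.l 816)) (T.a (T.c (T.b (T.l 816) (T.l 816)) (T.b (T.l 816) (T.l 816))) (T.b (T.l 816) (T.l 816))))) (T.c (T.a (T.a (T.b (T.l 816) (T.l 0)) (T.l 0)) (T.l 8)) (T.a (T.b (T.c (T.l 816) (T.b (T.l 816) (T.l 816))) (T.c (T.l 0) (T.b (T.l 816) (T.l 0)))) (T.b (T.l 816) (T.l 0)))))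 (T.a (T.a (T.b (T.b (T.b (T.l 1) (T.b (T.l 1) (T.c (T.l 944) (T.l 944)))) (T.c (T.l 944) (T.l 944))) (T.c (T.l 0) (T.l 0))) (T.b (T.b (T.b (T.l 1) (T.b (T.l 1) (T.c (T.a (T.c (T.l 944) (T.l 944)) (T.l 944)) (T.a (T.c (T.l 944) (T.l 944)) (T.l 952))))) (T.c (T.a (T.l 944) (T.l 944)) (T.a (T.l 952) (T.l 952)))) (T.c (T.b (T.l 0) (T.l 0)) (T.a (T.l 0) (T.l 0))))) (T.b (T.a (T.b (T.b (T.l 1) (T.b (T.l 1) (T.c (T.c (T.l 952) (T.l 952)) (T.a (T.l 952) (T.l 952))))) (T.c (T.b (T.l 952) (T.l 816)) (T.a (T.l 952) (T.l 952)))) (T.b (T.b (T.l 1) (T.b (T.l 1) (T.a (T.c (T.l 952) (T.l 952)) (T.c (T.l 952) (T.l 952))))) (T.a (T.b (T.c (T.l 816) (T.l 824)) (T.c (T.l 816) (T.l 824))) (T.c (T.b (T.l 952) (T.l 816)) (T.b (T.b (T.l 952) (T.l 824)) (T.l 824)))))) (T.a (T.b (T.a (T.b (T.l 824) (T.l 0)) (T.b (T.l 824) (T.l 8))) (T.a (T.c (T.l 0) (T.l 0)) (T.c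 (T.l 0) (T.l 0)))) (T.b (T.a (T.c (T.l 0) (T.l 8)) (T.c (T.l 0) (T.l 8))) (T.a (T.c (T.l 0) (T.l 0)) (T.c (T.l 0) (T.l 0)))))))))), by decide +kernel⟩

def B102E_010_1_2_1 :
    ∃ t, chk3 (onCell 0 16777216 0 1073741824 1033476505 6710887 (corT true 1 c0B cB102E gB0q1 gB1q2 gB0q0 gB1q0 true true)) t 1 2 1 = true :=
  ⟨(T.b (T.l 1) (T.b (T.l 1) (T.b (T.l 1) (T.b (T.b (T.b (T.a (T.a (T.b (T.l 1) (T.b (T.l 1) (T.l 816))) (T.l 1)) (T.l 1)) (T.a (T.a (T.l 816) (T.a (T.l 816) (T.b (T.l 816) (T.l 816)))) (T.a (T.b (T.b (T.l 1) (T.a (T.l 816) (T.l 816))) (T.l 816)) (T.b (T.a (T.b (T.l 1) (T.b (T.l 1) (T.l 816))) (T.l 1)) (T.a (T.l 816) (T.l 820)))))) (T.a (T.a (T.l 816) (T.a (T.l 816) (T.l 816))) (T.a (T.b (T.l 816) (T.l 816)) (T.b (T.l 816) (T.l 816))))) (T.a (T.a (T.l 816) (T.a (T.l 816) (T.l 816))) (T.a (T.l 816) (T.l 816))))))), by decide +kernel⟩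

def B102E_010_1_3_1 :
    ∃ t, chk3 (onCell 0 16777216 0 1073741824 1033476505 6710887 (corT true 1 c0B cB102E gB0q1 gB1q2 gB0q0 gB1q0 true true)) t 1 3 1 = true :=
  ⟨(T.b (T.b (T.b (T.b (T.a (T.a (T.l 816) (T.a (T.l 816) (T.l 816))) (T.a (T.l 816) (T.l 816))) (T.b (T.b (T.b (T.a (T.a (T.l 816) (T.a (T.l 816) (T.l 816))) (T.a (T.l 816) (T.l 816))) (T.b (T.a (T.a (T.l 816) (T.a (T.l 816) (T.l 816))) (T.a (T.l 816) (T.l 816))) (T.a (T.a (T.l 816) (T.a (T.l 816) (T.l 816))) (T.a (T.l 816) (T.l 816))))) (T.b (T.b (T.a (T.a (T.l 816) (T.a (T.l 816) (T.l 816))) (T.a (T.l 816) (T.l 816))) (T.a (T.a (T.l 816) (T.a (T.l 816) (T.l 816))) (T.a (T.l 816) (T.l 816)))) (T.b (T.a (T.a (T.l 816) (T.a (T.l 816) (T.l 816))) (T.a (T.l 816) (T.l 816))) (T.a (T.a (T.l 816) (T.a (T.l 816) (T.l 816))) (T.a (T.l 816) (T.l 816)))))) (T.b (T.b (T.b (T.a (T.a (T.l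 816) (T.a (T.l 816) (T.l 816))) (T.a (T.l 816) (T.l 816))) (T.a (T.a (T.l 816) (T.a (T.l 816) (T.l 816))) (T.a (T.l 816) (T.l 816)))) (T.b (T.a (T.a (T.l 816) (T.a (T.l 816) (T.l 816))) (T.a (T.l 816) (T.l 816))) (T.a (T.a (T.l 816) (T.a (T.l 816) (T.l 816))) (T.a (T.l 816) (T.l 816))))) (T.b (T.b (T.a (T.a (T.l 816) (T.a (T.l 816) (T.l 816))) (T.a (T.l 816) (T.l 816))) (T.a (T.a (T.l 2) (T.a (T.l 816) (T.l 816))) (T.a (T.l 0) (T.l 816)))) (T.a (T.l 2) (T.a (T.l 2) (T.l 816))))))) (T.l 2)) (T.l 2)) (T.l 2)), by decide +kernel⟩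

theorem B102E_010 :
    ∃ t, chk3 (onCell 0 16777216 0 1073741824 1033476505 6710887 (corT true 1 c0B cB102E gB0q1 gB1q2 gB0q0 gB1q0 true true)) t 1 1 1 = true :=
  ex3_b B102E_010_1_2_1 B102E_010_1_3_1

end Pool.Agent.Strip051.G.I9625_9688.Tab.CG
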