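import Pool.Agent.Strip051.G.I9625_9688.Gn
import Pool.Agent.Strip051.PB.Corns
import Pool.Agent.Strip051.PB.CornW

/-! # Certificates of the aligned corners (generated) -/

set_option linter.all false

namespace Pool.Agent.Strip051.G.I9625_9688.Tab.CG

open Pool.Agent.Strip051.PB

def B102E_011_1_2_1 :
    ∃ t, chk3 (onCell 0 16777216 0 1073741824 1033476505 6710887 (corT true 1 c0B cB102E gB0q1 gB1q2 gB1q0 gB2q0 true true)) t 1 2 1 = true :=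
  ⟨(T.l 1), by decide +kernel⟩

def B102E_011_1_24_1 :
    ∃ t, chk3 (onCell 0 16777216 0 1073741824 1033476505 6710887 (corT true 1 c0B cB102E gB0q1 gB1q2 gB1q0 gB2q0 true true)) t 1 24 1 = true :=
  ⟨(T.b (T.l 1) (T.b (T.l 1) (T.b (T.l 1) (T.b (T.b (T.a (T.a (T.l 816) (T.a (T.l 816) (T.l 1))) (T.l 1)) (T.a (T.a (T.l 816) (T.a (T.l 816) (T.l 816))) (T.a (T.l 0) (T.l 816)))) (T.b (T.a (T.a (T.l 816) (T.a (T.l 816) (T.l 816))) (T.a (T.l 816) (T.l 816))) (T.a (T.a (T.l 816) (T.a (T.l 816) (T.l 816))) (T.a (T.l 816) (T.l 816)))))))), by decide +kernel⟩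

def B102E_011_1_50_1 :
    ∃ t, chk3 (onCell 0 16777216 0 1073741824 1033476505 6710887 (corT true 1 c0B cB102E gB0q1 gB1q2 gB1q0 gB2q0 true true)) t 1 50 1 = true :=
  ⟨(T.b (T.b (T.b (T.b (T.a (T.a (T.l 816) (T.a (T.l 816) (T.l 816))) (T.a (T.l 816) (T.l 816))) (T.a (T.a (T.l 816) (T.a (T.l 816) (T.l 816))) (T.a (T.l 816) (T.l 816)))) (T.b (T.a (T.a (T.l 816) (T.a (T.l 816) (T.l 816))) (T.a (T.l 816) (T.l 816))) (T.a (T.a (T.l 816) (T.a (T.l 816) (T.l 816))) (T.a (T.l 816) (T.l 816))))) (T.b (T.b (T.a (T.a (T.l 816) (T.a (T.l 816) (T.l 816))) (T.a (T.l 816) (T.l 816))) (T.a (T.a (T.l 816) (T.a (T.l 816) (T.l 816))) (T.a (T.l 816) (T.l 816)))) (T.b (T.a (T.a (T.l 816) (T.a (T.l 816) (T.l 816))) (T.a (T.l 816) (T.l 816))) (T.a (T.a (T.l 816) (T.a (T.l 816) (T.l 816))) (T.a (T.l 816) (T.l 816)))))) (T.b (T.b (T.b (T.a (T.a (T.l 816) (T.a (T.l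 816) (T.l 816))) (T.a (T.l 816) (T.l 816))) (T.a (T.a (T.l 816) (T.a (T.l 816) (T.l 816))) (T.a (T.l 816) (T.l 816)))) (T.b (T.a (T.a (T.l 816) (T.a (T.l 816) (T.l 816))) (T.a (T.l 816) (T.l 816))) (T.a (T.a (T.l 816) (T.a (T.l 816) (T.l 816))) (T.a (T.l 816) (T.l 816))))) (T.b (T.b (T.a (T.a (T.l 816) (T.a (T.l 816) (T.l 816))) (T.a (T.l 816) (T.l 816))) (T.a (T.a (T.l 816) (T.a (T.l 816) (T.l 816))) (T.a (T.l 816) (T.l 816)))) (T.b (T.a (T.a (T.l 816) (T.a (T.l 816) (T.l 816))) (T.a (T.l 816) (T.l 816))) (T.a (T.a (T.l 816) (T.a (T.l 816) (T.l 816))) (T.a (T.l 816) (T.l 816))))))), by decide +kernel⟩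

def B102E_011_1_51_1 :
    ∃ t, chk3 (onCell 0 16777216 0 1073741824 1033476505 6710887 (corT true 1 c0B cB102E gB0q1 gB1q2 gB1q0 gB2q0 true true)) t 1 51 1 = true :=
  ⟨(T.b (T.b (T.b (T.b (T.a (T.a (T.l 816) (T.a (T.l 816) (T.l 816))) (T.a (T.l 816) (T.l 816))) (T.a (T.a (T.l 816) (T.a (T.l 816) (T.l 816))) (T.a (T.l 816) (T.l 816)))) (T.b (T.a (T.a (T.l 816) (T.a (T.l 816) (T.l 816))) (T.a (T.l 816) (T.l 816))) (T.a (T.a (T.l 816) (T.a (T.l 816) (T.l 816))) (T.a (T.l 816) (T.l 816))))) (T.b (T.b (T.a (T.a (T.l 816) (T.a (T.l 816) (T.l 816))) (T.a (T.l 816) (T.l 816))) (T.a (T.a (T.l 816) (T.a (T.l 816) (T.l 816))) (T.a (T.l 816) (T.l 816)))) (T.b (T.a (T.a (T.l 816) (T.a (T.l 816) (T.l 816))) (T.a (T.l 816) (T.l 816))) (T.a (T.a (T.l 816) (T.a (T.l 816) (T.l 816))) (T.a (T.l 816) (T.l 816)))))) (T.b (T.b (T.b (T.a (T.a (T.l 816) (T.a (T.l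 816) (T.l 816))) (T.a (T.l 816) (T.l 816))) (T.a (T.a (T.l 816) (T.a (T.l 816) (T.l 816))) (T.a (T.l 816) (T.l 816)))) (T.b (T.a (T.a (T.l 816) (T.a (T.l 816) (T.l 816))) (T.a (T.l 816) (T.l 816))) (T.a (T.a (T.l 816) (T.a (T.l 816) (T.l 816))) (T.a (T.l 824) (T.l 816))))) (T.b (T.a (T.a (T.l 816) (T.a (T.l 816) (T.l 816))) (T.a (T.l 824) (T.l 816))) (T.a (T.a (T.l 816) (T.a (T.l 816) (T.l 816))) (T.a (T.a (T.l 816) (T.l 816)) (T.l 816)))))), by decide +kernel⟩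

def B102E_011_1_52_1 :
    ∃ t, chk3 (onCell 0 16777216 0 1073741824 1033476505 6710887 (corT true 1 c0B cB102E gB0q1 gB1q2 gB1q0 gB2q0 true true)) t 1 52 1 = true :=
  ⟨(T.b (T.b (T.b (T.a (T.a (T.l 816) (T.a (T.l 816) (T.l 816))) (T.a (T.a (T.l 816) (T.l 816)) (T.l 816))) (T.a (T.a (T.l 816) (T.a (T.l 816) (T.l 816))) (T.a (T.a (T.l 816) (T.l 816)) (T.l 816)))) (T.b (T.a (T.a (T.l 816) (T.a (T.l 816) (T.l 816))) (T.a (T.a (T.l 816) (T.l 816)) (T.l 824))) (T.a (T.a (T.l 816) (T.a (T.l 816) (T.l 816))) (T.a (T.a (T.l 816) (T.l 816)) (T.l 824))))) (T.b (T.b (T.a (T.a (T.l 816) (T.a (T.l 816) (T.l 816))) (T.a (T.a (T.l 816) (T.l 816)) (T.l 824))) (T.a (T.a (T.l 816) (T.a (T.l 816) (T.l 816))) (T.a (T.a (T.l 816) (T.l 816)) (T.a (T.l 816) (T.l 816))))) (T.b (T.a (T.a (T.l 816) (T.a (T.l 816) (T.l 816))) (T.a (T.a (T.l 816) (T.l 816)) (T.a (T.l 816)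 (T.l 816)))) (T.a (T.a (T.l 816) (T.a (T.l 816) (T.l 816))) (T.a (T.a (T.l 816) (T.l 816)) (T.a (T.l 816) (T.l 816))))))), by decide +kernel⟩

def B102E_011_1_53_1 :
    ∃ t, chk3 (onCell 0 16777216 0 1073741824 1033476505 6710887 (corT true 1 c0B cB102E gB0q1 gB1q2 gB1q0 gB2q0 true true)) t 1 53 1 = true :=
  ⟨(T.b (T.b (T.a (T.a (T.l 816) (T.a (T.l 816) (T.l 816))) (T.a (T.a (T.l 816) (T.l 816)) (T.a (T.l 816) (T.l 816)))) (T.a (T.a (T.l 816) (T.a (T.l 816) (T.l 816))) (T.a (T.a (T.l 816) (T.l 816)) (T.a (T.l 816) (T.l 816))))) (T.b (T.b (T.b (T.a (T.a (T.l 816) (T.a (T.l 816) (T.l 816))) (T.a (T.a (T.l 816) (T.l 816)) (T.a (T.l 816) (T.l 816)))) (T.a (T.a (T.l 816) (T.a (T.l 816) (T.l 816))) (T.a (T.a (T.l 816) (T.l 816)) (T.a (T.l 816) (T.l 816))))) (T.b (T.a (T.a (T.l 816) (T.a (T.l 816) (T.l 816))) (T.a (T.a (T.l 816) (T.l 816)) (T.a (T.l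 816) (T.l 816)))) (T.a (T.a (T.l 816) (T.a (T.l 816) (T.l 816))) (T.a (T.a (T.l 816) (T.l 816)) (T.a (T.l 816) (T.l 816)))))) (T.b (T.b (T.a (T.a (T.l 816) (T.a (T.l 816) (T.l 816))) (T.a (T.a (T.l 816) (T.l 816)) (T.a (T.l 816) (T.l 816)))) (T.a (T.a (T.l 816) (T.a (T.l 816) (T.l 816))) (T.a (T.a (T.l 816) (T.l 816)) (T.a (T.l 816) (T.l 816))))) (T.b (T.a (T.a (T.l 816) (T.a (T.l 816) (T.l 816))) (T.a (T.a (T.l 816) (T.l 816)) (T.a (T.l 816) (T.l 816)))) (T.a (T.a (T.l 816) (T.a (T.l 816) (T.l 816))) (T.a (T.a (T.l 816) (T.l 816)) (T.a (T.l 816) (T.l 816)))))))), by decide +kernel⟩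

def B102E_011_1_216_1 :
    ∃ t, chk3 (onCell 0 16777216 0 1073741824 1033476505 6710887 (corT true 1 c0B cB102E gB0q1 gB1q2 gB1q0 gB2q0 true true)) t 1 216 1 = true :=
  ⟨(T.b (T.b (T.a (T.a (T.l 816) (T.a (T.l 816) (T.l 816))) (T.a (T.a (T.l 816) (T.l 816)) (T.a (T.l 816) (T.l 816)))) (T.a (T.a (T.l 816) (T.a (T.l 816) (T.l 824))) (T.a (T.a (T.l 816) (T.l 816)) (T.a (T.l 816) (T.l 816))))) (T.b (T.b (T.a (T.a (T.l 816) (T.a (T.l 816) (T.l 824))) (T.a (T.a (T.l 816) (T.l 816)) (T.a (T.l 816) (T.l 816)))) (T.a (T.a (T.l 816) (T.a (T.l 816) (T.l 824))) (T.a (T.a (T.l 816) (T.l 816)) (T.a (T.l 816) (T.l 816))))) (T.b (T.a (T.a (T.l 816) (T.a (T.l 816) (T.l 824))) (T.a (T.a (T.l 816) (T.l 816)) (T.a (T.l 816) (T.l 816)))) (T.a (T.a (T.l 816) (T.a (T.l 816) (T.l 824))) (T.a (T.a (T.l 816) (T.l 816)) (T.a (T.l 816) (T.l 816))))))), by decide +kernel⟩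

def B102E_011_1_217_1 :
    ∃ t, chk3 (onCell 0 16777216 0 1073741824 1033476505 6710887 (corT true 1 c0B cB102E gB0q1 gB1q2 gB1q0 gB2q0 true true)) t 1 217 1 = true :=
  ⟨(T.b (T.b (T.b (T.a (T.a (T.l 816) (T.a (T.l 816) (T.l 824))) (T.a (T.a (T.l 816) (T.l 816)) (T.a (T.l 816) (T.l 816)))) (T.a (T.a (T.l 816) (T.a (T.l 816) (T.l 824))) (T.a (T.a (T.l 816) (T.l 816)) (T.a (T.l 816) (T.l 816))))) (T.b (T.a (T.a (T.l 816) (T.a (T.l 816) (T.l 824))) (T.a (T.a (T.l 816) (T.l 816)) (T.a (T.l 816) (T.l 816)))) (T.a (T.a (T.l 816) (T.a (T.l 816) (T.l 824))) (T.a (T.a (T.l 816) (T.l 816)) (T.a (T.l 816) (T.l 816)))))) (T.b (T.b (T.a (T.a (T.l 816) (T.a (T.l 816) (T.l 824))) (T.a (T.a (T.l 816) (T.l 816)) (T.a (T.l 816) (T.l 816)))) (T.a (T.a (T.l 816) (T.a (T.l 816) (T.c (T.l 816) (T.l 816)))) (T.a (T.a (T.l 816) (T.l 816)) (T.a (T.l 816) (T.l 816)))))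 (T.b (T.a (T.a (T.l 816) (T.a (T.l 816) (T.c (T.l 816) (T.l 816)))) (T.a (T.a (T.l 816) (T.l 816)) (T.a (T.l 816) (T.l 816)))) (T.a (T.a (T.l 816) (T.a (T.l 816) (T.c (T.l 816) (T.l 816)))) (T.a (T.a (T.l 816) (T.l 816)) (T.a (T.l 816) (T.l 816))))))), by decide +kernel⟩

def B102E_011_1_218_1 :
    ∃ t, chk3 (onCell 0 16777216 0 1073741824 1033476505 6710887 (corT true 1 c0B cB102E gB0q1 gB1q2 gB1q0 gB2q0 true true)) t 1 218 1 = true :=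
  ⟨(T.b (T.b (T.b (T.a (T.a (T.l 816) (T.a (T.l 816) (T.c (T.l 816) (T.l 816)))) (T.a (T.a (T.l 816) (T.l 816)) (T.a (T.l 816) (T.l 816)))) (T.a (T.a (T.l 816) (T.a (T.l 816) (T.c (T.l 816) (T.l 816)))) (T.a (T.a (T.l 816) (T.l 816)) (T.a (T.l 816) (T.l 816))))) (T.b (T.a (T.a (T.l 816) (T.a (T.l 816) (T.c (T.l 816) (T.l 816)))) (T.a (T.a (T.l 816) (T.l 816)) (T.a (T.l 816) (T.l 816)))) (T.a (T.a (T.l 816) (T.a (T.l 816) (T.c (T.l 816) (T.l 816)))) (T.a (T.a (T.l 816) (T.l 816)) (T.a (T.l 816) (T.l 816)))))) (T.b (T.b (T.a (T.a (T.l 816) (T.a (T.l 816) (T.c (T.l 816) (T.l 816)))) (T.a (T.a (T.l 816) (T.l 816)) (T.a (T.l 816) (T.l 816)))) (T.a (T.a (T.l 816) (T.a (T.l 816) (T.c (T.l 816) (T.l 824)))) (T.a (T.a (T.l 816) (T.l 816)) (T.a (T.l 816) (T.l 816))))) (T.b (T.a (T.a (T.l 816) (T.a (T.l 816) (T.c (T.l 816) (T.l 824)))) (T.a (T.a (T.l 816)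 (T.l 816)) (T.a (T.l 816) (T.l 816)))) (T.a (T.a (T.l 816) (T.a (T.l 816) (T.c (T.l 816) (T.l 824)))) (T.a (T.a (T.l 816) (T.l 816)) (T.a (T.l 816) (T.l 816))))))), by decide +kernel⟩

def B102E_011_1_219_1 :
    ∃ t, chk3 (onCell 0 16777216 0 1073741824 1033476505 6710887 (corT true 1 c0B cB102E gB0q1 gB1q2 gB1q0 gB2q0 true true)) t 1 219 1 = true :=
  ⟨(T.b (T.b (T.b (T.a (T.a (T.l 816) (T.a (T.l 816) (T.c (T.l 816) (T.l 824)))) (T.a (T.a (T.l 816) (T.l 816)) (T.a (T.l 816) (T.l 816)))) (T.a (T.a (T.l 816) (T.a (T.l 816) (T.c (T.l 816) (T.l 824)))) (T.a (T.a (T.l 816) (T.l 816)) (T.a (T.l 816) (T.l 816))))) (T.b (T.a (T.a (T.l 816) (T.a (T.l 816) (T.c (T.l 816) (T.l 824)))) (T.a (T.a (T.l 816) (T.l 816)) (T.a (T.l 816) (T.l 816)))) (T.a (T.a (T.l 816) (T.a (T.l 816) (T.c (T.l 816) (T.l 824)))) (T.a (T.a (T.l 816) (T.l 816)) (T.a (T.l 816) (T.l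 816)))))) (T.b (T.b (T.a (T.a (T.l 816) (T.a (T.l 816) (T.c (T.l 816) (T.l 824)))) (T.a (T.a (T.l 816) (T.l 816)) (T.a (T.l 816) (T.l 816)))) (T.a (T.a (T.l 816) (T.a (T.l 816) (T.c (T.l 824) (T.l 824)))) (T.a (T.a (T.l 816) (T.l 816)) (T.a (T.l 816) (T.l 816))))) (T.b (T.a (T.a (T.l 816) (T.a (T.l 816) (T.c (T.l 824) (T.l 824)))) (T.a (T.a (T.l 816) (T.l 816)) (T.a (T.l 816) (T.l 816)))) (T.a (T.a (T.l 816) (T.a (T.l 816) (T.c (T.l 824) (T.l 824)))) (T.a (T.a (T.l 816) (T.l 816)) (T.a (T.l 816) (T.l 816))))))), by decide +kernel⟩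

def B102E_011_1_220_1 :
    ∃ t, chk3 (onCell 0 16777216 0 1073741824 1033476505 6710887 (corT true 1 c0B cB102E gB0q1 gB1q2 gB1q0 gB2q0 true true)) t 1 220 1 = true :=
  ⟨(T.b (T.b (T.b (T.a (T.a (T.l 816) (T.a (T.l 816) (T.c (T.l 824) (T.l 824)))) (T.a (T.a (T.l 816) (T.l 816)) (T.a (T.l 816) (T.l 816)))) (T.a (T.a (T.l 816) (T.a (T.l 816) (T.c (T.l 824) (T.l 824)))) (T.a (T.a (T.l 816) (T.l 816)) (T.a (T.l 816) (T.l 816))))) (T.b (T.a (T.a (T.l 816) (T.a (T.l 816) (T.a (T.l 816) (T.l 816)))) (T.a (T.a (T.l 816) (T.l 816)) (T.a (T.l 816) (T.l 816)))) (T.a (T.a (T.l 816) (T.a (T.l 816) (T.a (T.l 816) (T.l 816)))) (T.a (T.a (T.l 816) (T.l 816)) (T.a (T.l 816) (T.l 816)))))) (T.b (T.b (T.a (T.a (T.l 816) (T.a (T.l 816) (T.a (T.l 816) (T.l 816)))) (T.a (T.a (T.l 816) (T.l 816)) (T.a (T.l 816) (T.l 816)))) (T.a (T.a (T.l 816) (T.a (T.l 816) (T.a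 (T.l 816) (T.l 816)))) (T.a (T.a (T.l 816) (T.l 816)) (T.a (T.l 816) (T.l 816))))) (T.b (T.a (T.a (T.l 816) (T.a (T.l 816) (T.a (T.l 816) (T.l 816)))) (T.a (T.a (T.l 816) (T.l 816)) (T.a (T.l 816) (T.l 816)))) (T.a (T.a (T.l 816) (T.a (T.l 816) (T.a (T.l 816) (T.l 816)))) (T.a (T.a (T.l 816) (T.l 816)) (T.a (T.l 816) (T.l 816))))))), by decide +kernel⟩

def B102E_011_1_221_1 :
    ∃ t, chk3 (onCell 0 16777216 0 1073741824 1033476505 6710887 (corT true 1 c0B cB102E gB0q1 gB1q2 gB1q0 gB2q0 true true)) t 1 221 1 = true :=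
  ⟨(T.b (T.b (T.b (T.a (T.a (T.l 816) (T.a (T.l 816) (T.a (T.l 816) (T.l 816)))) (T.a (T.a (T.l 816) (T.l 816)) (T.a (T.l 816) (T.l 816)))) (T.a (T.a (T.l 816) (T.a (T.l 816) (T.a (T.l 816) (T.l 816)))) (T.a (T.a (T.l 816) (T.l 816)) (T.a (T.l 816) (T.l 816))))) (T.b (T.a (T.a (T.l 816) (T.a (T.l 816) (T.a (T.l 816) (T.l 816)))) (T.a (T.a (T.l 816) (T.l 816)) (T.a (T.l 816) (T.l 816)))) (T.a (T.a (T.l 816) (T.a (T.l 816) (T.a (T.l 816) (T.l 816)))) (T.a (T.a (T.l 816) (T.l 816)) (T.a (T.l 816) (T.l 816)))))) (T.b (T.b (T.a (T.a (T.l 816) (T.a (T.l 816) (T.a (T.l 816) (T.l 816)))) (T.a (T.a (T.l 816) (T.l 816)) (T.a (T.l 816) (T.l 816)))) (T.a (T.a (T.l 816) (T.a (T.l 816) (T.a (T.l 816) (T.l 816)))) (T.a (T.a (T.l 816) (T.l 816)) (T.a (T.l 816) (T.l 816))))) (T.b (T.a (T.a (T.l 816) (T.a (T.l 816) (T.a (T.l 816) (T.l 816)))) (T.a (T.a (T.l 816)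 (T.l 816)) (T.a (T.l 816) (T.l 816)))) (T.a (T.a (T.l 816) (T.a (T.l 816) (T.a (T.l 816) (T.l 816)))) (T.a (T.a (T.l 816) (T.l 816)) (T.a (T.l 816) (T.l 816))))))), by decide +kernel⟩

def B102E_011_1_222_1 :
    ∃ t, chk3 (onCell 0 16777216 0 1073741824 1033476505 6710887 (corT true 1 c0B cB102E gB0q1 gB1q2 gB1q0 gB2q0 true true)) t 1 222 1 = true :=
  ⟨(T.b (T.b (T.b (T.a (T.a (T.l 816) (T.a (T.l 816) (T.a (T.l 816) (T.l 816)))) (T.a (T.a (T.l 816) (T.l 816)) (T.a (T.l 816) (T.l 816)))) (T.a (T.a (T.l 816) (T.a (T.l 816) (T.a (T.l 816) (T.l 816)))) (T.a (T.a (T.l 816) (T.l 816)) (T.a (T.l 816) (T.l 816))))) (T.b (T.a (T.a (T.l 816) (T.a (T.l 816) (T.a (T.l 816) (T.l 816)))) (T.a (T.a (T.l 816) (T.l 816)) (T.a (T.l 816) (T.l 816)))) (T.a (T.a (T.l 816) (T.a (T.l 816) (T.a (T.l 816) (T.l 816)))) (T.a (T.a (T.l 816) (T.l 816)) (T.a (T.l 816) (T.l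 816)))))) (T.b (T.b (T.a (T.a (T.l 816) (T.a (T.l 816) (T.a (T.l 816) (T.l 816)))) (T.a (T.a (T.l 816) (T.l 816)) (T.a (T.l 816) (T.l 816)))) (T.a (T.a (T.l 816) (T.a (T.l 816) (T.a (T.l 816) (T.l 816)))) (T.a (T.a (T.l 816) (T.l 816)) (T.a (T.l 816) (T.l 816))))) (T.b (T.a (T.a (T.l 816) (T.a (T.l 816) (T.a (T.l 816) (T.l 816)))) (T.a (T.a (T.l 816) (T.l 816)) (T.a (T.l 816) (T.l 816)))) (T.a (T.a (T.l 816) (T.a (T.l 816) (T.a (T.l 816) (T.l 816)))) (T.a (T.a (T.l 816) (T.l 816)) (T.a (T.l 816) (T.l 816))))))), by decide +kernel⟩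

def B102E_011_1_223_1 :
    ∃ t, chk3 (onCell 0 16777216 0 1073741824 1033476505 6710887 (corT true 1 c0B cB102E gB0q1 gB1q2 gB1q0 gB2q0 true true)) t 1 223 1 = true :=
  ⟨(T.b (T.b (T.b (T.a (T.a (T.l 816) (T.a (T.l 816) (T.a (T.l 816) (T.l 816)))) (T.a (T.a (T.l 816) (T.l 816)) (T.a (T.l 816) (T.l 816)))) (T.a (T.a (T.l 816) (T.a (T.l 816) (T.a (T.l 816) (T.l 816)))) (T.a (T.a (T.l 816) (T.l 816)) (T.a (T.l 816) (T.l 816))))) (T.b (T.a (T.a (T.l 816) (T.a (T.l 816) (T.a (T.l 816) (T.l 816)))) (T.a (T.a (T.l 816) (T.l 816)) (T.a (T.l 816) (T.l 816)))) (T.a (T.a (T.l 816) (T.a (T.l 816) (T.a (T.l 816) (T.l 816)))) (T.a (T.a (T.l 816) (T.l 816)) (T.a (T.l 816) (T.l 816)))))) (T.b (T.b (T.a (T.a (T.l 816) (T.a (T.l 816) (T.a (T.l 816) (T.l 816)))) (T.a (T.a (T.l 816) (T.l 816)) (T.a (T.l 816) (T.l 816)))) (T.a (T.a (T.l 816) (T.a (T.l 816) (T.a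 (T.l 816) (T.l 816)))) (T.a (T.a (T.l 824) (T.l 816)) (T.a (T.l 816) (T.l 816))))) (T.b (T.a (T.a (T.l 816) (T.a (T.l 816) (T.a (T.l 816) (T.l 816)))) (T.a (T.a (T.l 824) (T.l 816)) (T.a (T.l 816) (T.l 816)))) (T.a (T.a (T.l 816) (T.a (T.l 816) (T.a (T.l 816) (T.l 816)))) (T.a (T.a (T.l 824) (T.l 816)) (T.a (T.l 816) (T.l 816))))))), by decide +kernel⟩

def B102E_011_1_224_1 :
    ∃ t, chk3 (onCell 0 16777216 0 1073741824 1033476505 6710887 (corT true 1 c0B cB102E gB0q1 gB1q2 gB1q0 gB2q0 true true)) t 1 224 1 = true :=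
  ⟨(T.b (T.b (T.b (T.a (T.a (T.l 816) (T.a (T.l 816) (T.a (T.l 816) (T.l 816)))) (T.a (T.a (T.l 824) (T.l 816)) (T.a (T.l 816) (T.l 816)))) (T.a (T.a (T.l 816) (T.a (T.l 816) (T.a (T.l 816) (T.l 816)))) (T.a (T.a (T.l 824) (T.l 816)) (T.a (T.l 816) (T.l 816))))) (T.b (T.a (T.a (T.l 816) (T.a (T.l 816) (T.a (T.l 816) (T.l 816)))) (T.a (T.a (T.l 824) (T.l 824)) (T.a (T.l 816) (T.l 816)))) (T.a (T.a (T.l 816) (T.a (T.l 816) (T.a (T.l 816) (T.l 816)))) (T.a (T.a (T.l 824) (T.l 824)) (T.a (T.l 816) (T.l 816)))))) (T.b (T.b (T.a (T.a (T.l 816) (T.a (T.l 816) (T.a (T.l 816) (T.l 816)))) (T.a (T.a (T.l 824) (T.l 824)) (T.a (T.l 816) (T.l 816)))) (T.b (T.a (T.a (T.l 816) (T.a (T.l 816) (T.a (T.l 816) (T.l 816)))) (T.a (T.a (T.l 824) (T.l 824)) (T.a (T.l 816) (T.l 816)))) (T.a (T.a (T.l 816) (T.a (T.l 816) (T.a (T.l 816) (T.l 816)))) (T.a (T.a (T.l 824)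 (T.l 824)) (T.a (T.l 816) (T.l 816)))))) (T.b (T.b (T.a (T.a (T.l 816) (T.a (T.l 816) (T.a (T.l 816) (T.l 816)))) (T.a (T.a (T.l 824) (T.l 824)) (T.a (T.l 816) (T.l 816)))) (T.a (T.a (T.l 816) (T.a (T.l 816) (T.a (T.l 816) (T.l 816)))) (T.a (T.a (T.l 824) (T.l 824)) (T.a (T.l 816) (T.l 816))))) (T.b (T.a (T.a (T.l 816) (T.a (T.l 816) (T.a (T.l 816) (T.l 816)))) (T.a (T.a (T.l 824) (T.l 824)) (T.a (T.l 816) (T.l 816)))) (T.a (T.a (T.l 816) (T.a (T.l 816) (T.a (T.l 816) (T.l 816)))) (T.a (T.a (T.l 824) (T.l 824)) (T.a (T.l 816) (T.l 816)))))))), by decide +kernel⟩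

def B102E_011_1_450_1 :
    ∃ t, chk3 (onCell 0 16777216 0 1073741824 1033476505 6710887 (corT true 1 c0B cB102E gB0q1 gB1q2 gB1q0 gB2q0 true true)) t 1 450 1 = true :=
  ⟨(T.b (T.b (T.b (T.a (T.a (T.l 816) (T.a (T.l 816) (T.a (T.l 816) (T.l 816)))) (T.a (T.a (T.l 824) (T.l 824)) (T.a (T.l 816) (T.l 816)))) (T.a (T.a (T.l 816) (T.a (T.l 816) (T.a (T.l 816) (T.l 816)))) (T.a (T.a (T.l 824) (T.l 824)) (T.a (T.l 816) (T.l 816))))) (T.b (T.a (T.a (T.l 816) (T.a (T.l 816) (T.a (T.l 816) (T.l 816)))) (T.a (T.a (T.l 824) (T.l 824)) (T.a (T.l 816) (T.l 816)))) (T.a (T.a (T.l 816) (T.a (T.l 816) (T.a (T.l 816) (T.l 816)))) (T.a (T.a (T.l 824) (T.l 824)) (T.a (T.l 816) (T.l 816)))))) (T.b (T.b (T.a (T.a (T.l 816) (T.a (T.l 816) (T.a (T.l 816) (T.l 816)))) (T.a (T.a (T.l 824) (T.l 824)) (T.a (T.l 816) (T.l 816)))) (T.a (T.a (T.l 816) (T.a (T.l 816) (T.a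 (T.l 816) (T.l 816)))) (T.a (T.a (T.l 824) (T.l 824)) (T.a (T.l 816) (T.l 816))))) (T.b (T.a (T.a (T.l 816) (T.a (T.l 816) (T.a (T.l 816) (T.l 816)))) (T.a (T.a (T.l 824) (T.l 824)) (T.a (T.l 816) (T.l 816)))) (T.a (T.a (T.l 816) (T.a (T.l 816) (T.a (T.l 816) (T.l 816)))) (T.a (T.a (T.l 824) (T.l 824)) (T.a (T.l 816) (T.l 816))))))), by decide +kernel⟩

def B102E_011_1_451_1 :
    ∃ t, chk3 (onCell 0 16777216 0 1073741824 1033476505 6710887 (corT true 1 c0B cB102E gB0q1 gB1q2 gB1q0 gB2q0 true true)) t 1 451 1 = true :=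
  ⟨(T.b (T.b (T.b (T.a (T.a (T.l 816) (T.a (T.l 816) (T.a (T.l 816) (T.l 816)))) (T.a (T.a (T.l 824) (T.l 824)) (T.a (T.l 816) (T.l 816)))) (T.a (T.a (T.l 816) (T.a (T.l 816) (T.a (T.l 816) (T.l 816)))) (T.a (T.a (T.l 824) (T.l 824)) (T.a (T.l 816) (T.l 816))))) (T.b (T.a (T.a (T.l 816) (T.a (T.l 816) (T.a (T.l 816) (T.l 816)))) (T.a (T.a (T.l 824) (T.l 824)) (T.a (T.l 816) (T.l 816)))) (T.a (T.a (T.l 816) (T.a (T.l 816) (T.a (T.l 816) (T.l 816)))) (T.a (T.a (T.l 824) (T.l 824)) (T.a (T.l 816) (T.l 816)))))) (T.b (T.b (T.a (T.a (T.l 816) (T.a (T.l 816) (T.a (T.l 816) (T.l 816)))) (T.a (T.a (T.l 824) (T.l 824)) (T.a (T.l 816) (T.l 816)))) (T.a (T.a (T.l 816) (T.a (T.l 816) (T.a (T.l 816) (T.l 816)))) (T.b (T.a (T.a (T.l 824) (T.l 824)) (T.a (T.l 816) (T.l 816))) (T.a (T.a (T.l 824) (T.l 824)) (T.a (T.l 816) (T.l 816)))))) (T.b (T.a (T.a (T.l 816)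 (T.a (T.l 816) (T.a (T.l 816) (T.l 816)))) (T.b (T.a (T.a (T.l 824) (T.l 824)) (T.a (T.l 816) (T.l 816))) (T.a (T.a (T.l 824) (T.l 824)) (T.a (T.l 816) (T.l 816))))) (T.a (T.a (T.l 816) (T.a (T.l 816) (T.a (T.l 816) (T.l 816)))) (T.b (T.a (T.a (T.l 824) (T.l 824)) (T.a (T.l 816) (T.l 816))) (T.a (T.a (T.l 824) (T.l 824)) (T.a (T.l 816) (T.l 816)))))))), by decide +kernel⟩

def B102E_011_1_904_1 :
    ∃ t, chk3 (onCell 0 16777216 0 1073741824 1033476505 6710887 (corT true 1 c0B cB102E gB0q1 gB1q2 gB1q0 gB2q0 true true)) t 1 904 1 = true :=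
  ⟨(T.b (T.b (T.a (T.a (T.l 816) (T.a (T.l 816) (T.a (T.l 816) (T.l 816)))) (T.b (T.a (T.a (T.l 824) (T.l 824)) (T.a (T.l 816) (T.l 816))) (T.a (T.a (T.l 824) (T.l 824)) (T.a (T.l 816) (T.l 816))))) (T.a (T.a (T.l 816) (T.a (T.l 816) (T.a (T.l 816) (T.l 816)))) (T.b (T.a (T.a (T.l 824) (T.l 824)) (T.a (T.l 816) (T.l 816))) (T.a (T.a (T.l 824) (T.l 824)) (T.a (T.l 816) (T.l 816)))))) (T.b (T.a (T.a (T.l 816) (T.a (T.l 816) (T.a (T.l 816) (T.l 816)))) (T.b (T.a (T.a (T.l 824) (T.l 824)) (T.a (T.l 816) (T.l 816))) (T.a (T.a (T.l 824) (T.l 824)) (T.a (T.l 816) (T.l 816))))) (T.a (T.a (T.l 816) (T.a (T.l 816) (T.a (T.l 816) (T.l 816)))) (T.b (T.a (T.a (T.l 824) (T.l 824)) (T.a (T.l 816) (T.l 816))) (T.a (T.a (T.l 824) (T.l 824)) (T.a (T.l 816) (T.l 816))))))), by decide +kernel⟩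

def B102E_011_1_905_1 :
    ∃ t, chk3 (onCell 0 16777216 0 1073741824 1033476505 6710887 (corT true 1 c0B cB102E gB0q1 gB1q2 gB1q0 gB2q0 true true)) t 1 905 1 = true :=
  ⟨(T.b (T.b (T.a (T.a (T.l 816) (T.a (T.l 816) (T.a (T.l 816) (T.l 816)))) (T.b (T.a (T.a (T.l 824) (T.l 824)) (T.a (T.l 816) (T.l 816))) (T.a (T.a (T.l 824) (T.l 824)) (T.a (T.l 816) (T.l 816))))) (T.a (T.a (T.l 816) (T.a (T.l 816) (T.a (T.l 816) (T.l 816)))) (T.b (T.a (T.a (T.l 824) (T.l 824)) (T.a (T.l 816) (T.l 816))) (T.a (T.a (T.l 824) (T.l 824)) (T.a (T.l 816) (T.l 816)))))) (T.b (T.a (T.a (T.l 816) (T.a (T.l 816) (T.a (T.l 816) (T.l 816)))) (T.b (T.a (T.a (T.l 824) (T.l 824)) (T.a (T.l 816) (T.l 816))) (T.a (T.a (T.l 824) (T.l 824)) (T.a (T.l 816) (T.l 816))))) (T.a (T.a (T.l 816) (T.a (T.l 816) (T.a (T.l 816) (T.l 816)))) (T.b (T.b (T.a (T.a (T.l 824) (T.l 824)) (T.a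 (T.l 816) (T.l 816))) (T.a (T.a (T.l 824) (T.l 824)) (T.a (T.l 816) (T.l 816)))) (T.b (T.a (T.a (T.l 824) (T.l 824)) (T.a (T.l 816) (T.l 816))) (T.a (T.a (T.l 824) (T.l 824)) (T.a (T.l 816) (T.l 816)))))))), by decide +kernel⟩

def B102E_011_1_906_1 :
    ∃ t, chk3 (onCell 0 16777216 0 1073741824 1033476505 6710887 (corT true 1 c0B cB102E gB0q1 gB1q2 gB1q0 gB2q0 true true)) t 1 906 1 = true :=
  ⟨(T.b (T.b (T.a (T.a (T.l 816) (T.a (T.l 816) (T.a (T.l 816) (T.l 816)))) (T.b (T.b (T.a (T.a (T.l 824) (T.l 824)) (T.a (T.l 816) (T.l 816))) (T.a (T.a (T.l 824) (T.l 824)) (T.a (T.l 816) (T.l 816)))) (T.b (T.a (T.a (T.l 824) (T.l 824)) (T.a (T.l 824) (T.l 816))) (T.a (T.a (T.l 824) (T.l 824)) (T.a (T.l 824) (T.l 816)))))) (T.a (T.a (T.l 816) (T.a (T.l 816) (T.a (T.l 816) (T.l 816)))) (T.b (T.b (T.a (T.a (T.l 824) (T.l 824)) (T.a (T.l 824) (T.l 816)))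 (T.a (T.a (T.l 824) (T.l 824)) (T.a (T.l 824) (T.l 816)))) (T.b (T.a (T.a (T.l 824) (T.l 824)) (T.a (T.l 824) (T.l 816))) (T.a (T.a (T.l 824) (T.l 824)) (T.a (T.l 824) (T.l 816))))))) (T.b (T.a (T.a (T.l 816) (T.a (T.l 816) (T.a (T.l 816) (T.l 816)))) (T.b (T.b (T.a (T.a (T.l 824) (T.l 824)) (T.a (T.l 824) (T.l 816))) (T.a (T.a (T.l 824) (T.l 824)) (T.a (T.l 824) (T.l 816)))) (T.b (T.a (T.a (T.l 824) (T.l 824)) (T.a (T.l 824) (T.l 816))) (T.a (T.a (T.l 824) (T.l 824)) (T.a (T.l 824) (T.l 816)))))) (T.a (T.a (T.l 816) (T.a (T.l 816) (T.a (T.l 816) (T.l 816)))) (T.b (T.b (T.a (T.a (T.l 824) (T.l 824)) (T.a (T.l 824) (T.l 816))) (T.a (T.a (T.l 824) (T.l 824)) (T.a (T.l 824) (T.l 816)))) (T.b (T.a (T.a (T.l 824) (T.l 824)) (T.a (T.l 824) (T.l 816))) (T.a (T.a (T.l 824) (T.l 824)) (T.a (T.l 824) (T.l 816)))))))), by decide +kernel⟩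

def B102E_011_1_907_1 :
    ∃ t, chk3 (onCell 0 16777216 0 1073741824 1033476505 6710887 (corT true 1 c0B cB102E gB0q1 gB1q2 gB1q0 gB2q0 true true)) t 1 907 1 = true :=
  ⟨(T.b (T.b (T.a (T.a (T.l 816) (T.a (T.l 816) (T.a (T.l 816) (T.l 816)))) (T.b (T.b (T.a (T.a (T.l 824) (T.l 824)) (T.a (T.l 824) (T.l 816))) (T.a (T.a (T.c (T.l 816) (T.l 824)) (T.l 824)) (T.a (T.l 824) (T.l 816)))) (T.b (T.a (T.a (T.c (T.l 816) (T.l 824)) (T.l 824)) (T.a (T.l 824) (T.l 816))) (T.a (T.a (T.c (T.l 816) (T.l 824)) (T.l 824)) (T.a (T.l 824) (T.l 816)))))) (T.a (T.a (T.l 816) (T.a (T.l 816) (T.a (T.l 816) (T.l 816)))) (T.b (T.b (T.a (T.a (T.c (T.l 816) (T.l 824)) (T.l 824)) (T.a (T.l 824) (T.l 816))) (T.a (T.a (T.c (T.l 816) (T.l 824)) (T.l 824)) (T.a (T.l 824) (T.l 816)))) (T.b (T.a (T.a (T.c (T.l 816) (T.l 824)) (T.l 824)) (T.a (T.l 824) (T.l 816))) (T.a (T.a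 (T.c (T.l 816) (T.l 824)) (T.l 824)) (T.a (T.l 824) (T.l 816))))))) (T.b (T.a (T.a (T.l 816) (T.a (T.l 816) (T.a (T.l 816) (T.l 816)))) (T.b (T.b (T.a (T.a (T.c (T.l 816) (T.l 824)) (T.l 824)) (T.a (T.l 824) (T.l 816))) (T.a (T.a (T.c (T.l 816) (T.l 824)) (T.l 824)) (T.a (T.l 824) (T.l 816)))) (T.b (T.a (T.a (T.c (T.l 816) (T.l 824)) (T.l 824)) (T.a (T.l 824) (T.l 816))) (T.a (T.a (T.c (T.l 816) (T.l 824)) (T.l 824)) (T.a (T.l 824) (T.l 816)))))) (T.a (T.a (T.l 816) (T.a (T.l 816) (T.a (T.l 816) (T.l 816)))) (T.b (T.b (T.a (T.a (T.c (T.l 816) (T.l 824)) (T.l 824)) (T.a (T.l 824) (T.l 816))) (T.a (T.a (T.c (T.l 816) (T.l 824)) (T.l 824)) (T.a (T.l 824) (T.l 816)))) (T.b (T.a (T.a (T.c (T.l 816) (T.l 824)) (T.l 824)) (T.a (T.l 824) (T.l 816))) (T.a (T.a (T.c (T.l 816) (T.l 824)) (T.l 824)) (T.a (T.l 824) (T.l 816)))))))), by decide +kernel⟩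

def B102E_011_1_908_1 :
    ∃ t, chk3 (onCell 0 16777216 0 1073741824 1033476505 6710887 (corT true 1 c0B cB102E gB0q1 gB1q2 gB1q0 gB2q0 true true)) t 1 908 1 = true :=
  ⟨(T.b (T.b (T.a (T.a (T.l 816) (T.a (T.l 816) (T.a (T.l 816) (T.l 816)))) (T.b (T.b (T.a (T.a (T.c (T.l 816) (T.l 824)) (T.l 824)) (T.a (T.l 824) (T.l 816))) (T.a (T.a (T.c (T.l 816) (T.l 824)) (T.l 824)) (T.a (T.l 824) (T.l 816)))) (T.b (T.a (T.a (T.c (T.l 816) (T.l 824)) (T.l 824)) (T.a (T.l 824) (T.l 816))) (T.a (T.a (T.c (T.l 816) (T.l 824)) (T.l 824)) (T.a (T.l 824) (T.l 816)))))) (T.a (T.a (T.l 816) (T.a (T.l 816) (T.a (T.l 816) (T.l 816)))) (T.b (T.b (T.a (T.a (T.c (T.l 816) (T.l 824)) (T.l 824)) (T.a (T.l 824) (T.l 816))) (T.a (T.a (T.c (T.l 816) (T.l 824)) (T.l 824)) (T.a (T.l 824) (T.l 816)))) (T.b (T.a (T.a (T.c (T.l 816) (T.l 824)) (T.l 824)) (T.a (T.l 824) (T.l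 816))) (T.a (T.a (T.c (T.l 816) (T.l 824)) (T.l 824)) (T.a (T.l 824) (T.l 816))))))) (T.b (T.a (T.a (T.l 816) (T.a (T.l 816) (T.a (T.l 816) (T.l 816)))) (T.b (T.b (T.a (T.a (T.c (T.l 816) (T.l 824)) (T.l 824)) (T.a (T.l 824) (T.l 816))) (T.a (T.a (T.c (T.l 816) (T.l 824)) (T.l 824)) (T.a (T.l 824) (T.l 816)))) (T.b (T.a (T.a (T.c (T.l 816) (T.l 824)) (T.l 824)) (T.a (T.l 824) (T.l 816))) (T.a (T.a (T.c (T.l 816) (T.l 824)) (T.l 824)) (T.a (T.l 824) (T.l 816)))))) (T.a (T.a (T.l 816) (T.a (T.l 816) (T.a (T.l 816) (T.l 816)))) (T.b (T.b (T.a (T.a (T.c (T.l 816) (T.l 824)) (T.l 824)) (T.a (T.l 824) (T.l 816))) (T.a (T.a (T.c (T.l 816) (T.l 824)) (T.l 824)) (T.a (T.l 824) (T.l 816)))) (T.b (T.a (T.a (T.c (T.l 816) (T.l 824)) (T.l 824)) (T.a (T.l 824) (T.l 816))) (T.a (T.a (T.c (T.l 816) (T.l 824)) (T.l 824)) (T.a (T.l 824) (T.l 816)))))))), by decide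 +kernel⟩

def B102E_011_1_909_1 :
    ∃ t, chk3 (onCell 0 16777216 0 1073741824 1033476505 6710887 (corT true 1 c0B cB102E gB0q1 gB1q2 gB1q0 gB2q0 true true)) t 1 909 1 = true :=
  ⟨(T.b (T.b (T.a (T.a (T.l 816) (T.a (T.l 816) (T.a (T.l 816) (T.l 816)))) (T.b (T.b (T.a (T.a (T.c (T.l 816) (T.l 824)) (T.l 824)) (T.a (T.l 824) (T.l 816))) (T.a (T.a (T.c (T.l 816) (T.l 824)) (T.l 824)) (T.a (T.l 824) (T.l 816)))) (T.b (T.a (T.a (T.c (T.l 816) (T.l 824)) (T.l 824)) (T.a (T.l 824) (T.l 816))) (T.a (T.a (T.c (T.l 816) (T.l 824)) (T.l 824)) (T.a (T.l 824) (T.l 816)))))) (T.a (T.a (T.l 816) (T.a (T.l 816) (T.a (T.l 816) (T.l 816)))) (T.b (T.b (T.a (T.a (T.c (T.l 816) (T.l 824)) (T.l 824)) (T.a (T.l 824) (T.l 816))) (T.a (T.a (T.c (T.l 816) (T.l 824)) (T.l 824)) (T.a (T.l 824) (T.l 816)))) (T.b (T.a (T.a (T.c (T.l 816) (T.l 824)) (T.l 824)) (T.a (T.l 824)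 (T.l 816))) (T.a (T.a (T.c (T.l 816) (T.l 824)) (T.l 824)) (T.a (T.l 824) (T.l 816))))))) (T.b (T.a (T.a (T.l 816) (T.a (T.l 816) (T.a (T.l 816) (T.l 816)))) (T.b (T.b (T.a (T.a (T.c (T.l 816) (T.l 824)) (T.l 824)) (T.a (T.l 824) (T.l 816))) (T.a (T.a (T.c (T.l 816) (T.l 824)) (T.l 824)) (T.a (T.l 824) (T.l 816)))) (T.b (T.a (T.a (T.c (T.l 816) (T.l 824)) (T.l 824)) (T.a (T.l 824) (T.l 816))) (T.a (T.a (T.c (T.l 816) (T.l 824)) (T.l 824)) (T.a (T.l 824) (T.l 816)))))) (T.a (T.a (T.l 816) (T.a (T.l 816) (T.a (T.l 816) (T.l 816)))) (T.b (T.b (T.a (T.a (T.c (T.l 816) (T.l 824)) (T.l 824)) (T.a (T.l 824) (T.l 816))) (T.a (T.a (T.c (T.l 816) (T.l 824)) (T.l 824)) (T.a (T.l 824) (T.l 816)))) (T.b (T.a (T.a (T.c (T.l 816) (T.l 824)) (T.l 824)) (T.a (T.l 824) (T.l 816))) (T.a (T.a (T.c (T.l 816) (T.l 824)) (T.l 824)) (T.a (T.l 824) (T.l 816)))))))), by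 decide +kernel⟩

def B102E_011_1_455_1 :
    ∃ t, chk3 (onCell 0 16777216 0 1073741824 1033476505 6710887 (corT true 1 c0B cB102E gB0q1 gB1q2 gB1q0 gB2q0 true true)) t 1 455 1 = true :=
  ⟨(T.b (T.b (T.b (T.a (T.a (T.l 816) (T.a (T.l 816) (T.a (T.l 816) (T.l 816)))) (T.b (T.b (T.a (T.a (T.c (T.l 816) (T.l 824)) (T.l 824)) (T.a (T.l 824) (T.l 816))) (T.a (T.a (T.c (T.l 816) (T.l 824)) (T.l 824)) (T.a (T.l 824) (T.l 816)))) (T.b (T.a (T.a (T.c (T.l 816) (T.l 824)) (T.l 824)) (T.a (T.l 824) (T.l 816))) (T.a (T.a (T.c (T.l 816) (T.l 824)) (T.l 824)) (T.a (T.l 824) (T.l 816)))))) (T.a (T.l 2) (T.a (T.l 2) (T.l 2)))) (T.l 2)) (T.l 2)), by decide +kernel⟩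

def B102E_011_1_57_1 :
    ∃ t, chk3 (onCell 0 16777216 0 1073741824 1033476505 6710887 (corT true 1 c0B cB102E gB0q1 gB1q2 gB1q0 gB2q0 true true)) t 1 57 1 = true :=
  ⟨(T.l 2), by decide +kernel⟩

def B102E_011_1_29_1 :
    ∃ t, chk3 (onCell 0 16777216 0 1073741824 1033476505 6710887 (corT true 1 c0B cB102E gB0q1 gB1q2 gB1q0 gB2q0 true true)) t 1 29 1 = true :=
  ⟨(T.l 2), by decide +kernel⟩

def B102E_011_1_15_1 :
    ∃ t, chk3 (onCell 0 16777216 0 1073741824 1033476505 6710887 (corT true 1 c0B cB102E gB0q1 gB1q2 gB1q0 gB2q0 true true)) t 1 15 1 = true :=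
  ⟨(T.l 2), by decide +kernel⟩

theorem B102E_011_1_454_1 :
    ∃ t, chk3 (onCell 0 16777216 0 1073741824 1033476505 6710887 (corT true 1 c0B cB102E gB0q1 gB1q2 gB1q0 gB2q0 true true)) t 1 454 1 = true :=
  ex3_b B102E_011_1_908_1 B102E_011_1_909_1
theorem B102E_011_1_227_1 :
    ∃ t, chk3 (onCell 0 16777216 0 1073741824 1033476505 6710887 (corT true 1 c0B cB102E gB0q1 gB1q2 gB1q0 gB2q0 true true)) t 1 227 1 = true :=
  ex3_b B102E_011_1_454_1 B102E_011_1_455_1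
theorem B102E_011_1_453_1 :
    ∃ t, chk3 (onCell 0 16777216 0 1073741824 1033476505 6710887 (corT true 1 c0B cB102E gB0q1 gB1q2 gB1q0 gB2q0 true true)) t 1 453 1 = true :=
  ex3_b B102E_011_1_906_1 B102E_011_1_907_1
theorem B102E_011_1_452_1 :
    ∃ t, chk3 (onCell 0 16777216 0 1073741824 1033476505 6710887 (corT true 1 c0B cB102E gB0q1 gB1q2 gB1q0 gB2q0 true true)) t 1 452 1 = true :=
  ex3_b B102E_011_1_904_1 B102E_011_1_905_1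
theorem B102E_011_1_226_1 :
    ∃ t, chk3 (onCell 0 16777216 0 1073741824 1033476505 6710887 (corT true 1 c0B cB102E gB0q1 gB1q2 gB1q0 gB2q0 true true)) t 1 226 1 = true :=
  ex3_b B102E_011_1_452_1 B102E_011_1_453_1
theorem B102E_011_1_113_1 :
    ∃ t, chk3 (onCell 0 16777216 0 1073741824 1033476505 6710887 (corT true 1 c0B cB102E gB0q1 gB1q2 gB1q0 gB2q0 true true)) t 1 113 1 = true :=
  ex3_b B102E_011_1_226_1 B102E_011_1_227_1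
theorem B102E_011_1_225_1 :
    ∃ t, chk3 (onCell 0 16777216 0 1073741824 1033476505 6710887 (corT true 1 c0B cB102E gB0q1 gB1q2 gB1q0 gB2q0 true true)) t 1 225 1 = true :=
  ex3_b B102E_011_1_450_1 B102E_011_1_451_1
theorem B102E_011_1_112_1 :
    ∃ t, chk3 (onCell 0 16777216 0 1073741824 1033476505 6710887 (corT true 1 c0B cB102E gB0q1 gB1q2 gB1q0 gB2q0 true true)) t 1 112 1 = true :=
  ex3_b B102E_011_1_224_1 B102E_011_1_225_1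
theorem B102E_011_1_56_1 :
    ∃ t, chk3 (onCell 0 16777216 0 1073741824 1033476505 6710887 (corT true 1 c0B cB102E gB0q1 gB1q2 gB1q0 gB2q0 true true)) t 1 56 1 = true :=
  ex3_b B102E_011_1_112_1 B102E_011_1_113_1
theorem B102E_011_1_28_1 :
    ∃ t, chk3 (onCell 0 16777216 0 1073741824 1033476505 6710887 (corT true 1 c0B cB102E gB0q1 gB1q2 gB1q0 gB2q0 true true)) t 1 28 1 = true :=
  ex3_b B102E_011_1_56_1 B102E_011_1_57_1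
theorem B102E_011_1_14_1 :
    ∃ t, chk3 (onCell 0 16777216 0 1073741824 1033476505 6710887 (corT true 1 c0B cB102E gB0q1 gB1q2 gB1q0 gB2q0 true true)) t 1 14 1 = true :=
  ex3_b B102E_011_1_28_1 B102E_011_1_29_1
theorem B102E_011_1_7_1 :
    ∃ t, chk3 (onCell 0 16777216 0 1073741824 1033476505 6710887 (corT true 1 c0B cB102E gB0q1 gB1q2 gB1q0 gB2q0 true true)) t 1 7 1 = true :=
  ex3_b B102E_011_1_14_1 B102E_011_1_15_1
theorem B102E_011_1_111_1 :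
    ∃ t, chk3 (onCell 0 16777216 0 1073741824 1033476505 6710887 (corT true 1 c0B cB102E gB0q1 gB1q2 gB1q0 gB2q0 true true)) t 1 111 1 = true :=
  ex3_b B102E_011_1_222_1 B102E_011_1_223_1
theorem B102E_011_1_110_1 :
    ∃ t, chk3 (onCell 0 16777216 0 1073741824 1033476505 6710887 (corT true 1 c0B cB102E gB0q1 gB1q2 gB1q0 gB2q0 true true)) t 1 110 1 = true :=
  ex3_b B102E_011_1_220_1 B102E_011_1_221_1
theorem B102E_011_1_55_1 :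
    ∃ t, chk3 (onCell 0 16777216 0 1073741824 1033476505 6710887 (corT true 1 c0B cB102E gB0q1 gB1q2 gB1q0 gB2q0 true true)) t 1 55 1 = true :=
  ex3_b B102E_011_1_110_1 B102E_011_1_111_1
theorem B102E_011_1_109_1 :
    ∃ t, chk3 (onCell 0 16777216 0 1073741824 1033476505 6710887 (corT true 1 c0B cB102E gB0q1 gB1q2 gB1q0 gB2q0 true true)) t 1 109 1 = true :=
  ex3_b B102E_011_1_218_1 B102E_011_1_219_1
theorem B102E_011_1_108_1 :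
    ∃ t, chk3 (onCell 0 16777216 0 1073741824 1033476505 6710887 (corT true 1 c0B cB102E gB0q1 gB1q2 gB1q0 gB2q0 true true)) t 1 108 1 = true :=
  ex3_b B102E_011_1_216_1 B102E_011_1_217_1
theorem B102E_011_1_54_1 :
    ∃ t, chk3 (onCell 0 16777216 0 1073741824 1033476505 6710887 (corT true 1 c0B cB102E gB0q1 gB1q2 gB1q0 gB2q0 true true)) t 1 54 1 = true :=
  ex3_b B102E_011_1_108_1 B102E_011_1_109_1
theorem B102E_011_1_27_1 :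
    ∃ t, chk3 (onCell 0 16777216 0 1073741824 1033476505 6710887 (corT true 1 c0B cB102E gB0q1 gB1q2 gB1q0 gB2q0 true true)) t 1 27 1 = true :=
  ex3_b B102E_011_1_54_1 B102E_011_1_55_1
theorem B102E_011_1_26_1 :
    ∃ t, chk3 (onCell 0 16777216 0 1073741824 1033476505 6710887 (corT true 1 c0B cB102E gB0q1 gB1q2 gB1q0 gB2q0 true true)) t 1 26 1 = true :=
  ex3_b B102E_011_1_52_1 B102E_011_1_53_1
theorem B102E_011_1_13_1 :
    ∃ t, chk3 (onCell 0 16777216 0 1073741824 1033476505 6710887 (corT true 1 c0B cB102E gB0q1 gB1q2 gB1q0 gB2q0 true true)) t 1 13 1 = true :=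
  ex3_b B102E_011_1_26_1 B102E_011_1_27_1
theorem B102E_011_1_25_1 :
    ∃ t, chk3 (onCell 0 16777216 0 1073741824 1033476505 6710887 (corT true 1 c0B cB102E gB0q1 gB1q2 gB1q0 gB2q0 true true)) t 1 25 1 = true :=
  ex3_b B102E_011_1_50_1 B102E_011_1_51_1
theorem B102E_011_1_12_1 :
    ∃ t, chk3 (onCell 0 16777216 0 1073741824 1033476505 6710887 (corT true 1 c0B cB102E gB0q1 gB1q2 gB1q0 gB2q0 true true)) t 1 12 1 = true :=
  ex3_b B102E_011_1_24_1 B102E_011_1_25_1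
theorem B102E_011_1_6_1 :
    ∃ t, chk3 (onCell 0 16777216 0 1073741824 1033476505 6710887 (corT true 1 c0B cB102E gB0q1 gB1q2 gB1q0 gB2q0 true true)) t 1 6 1 = true :=
  ex3_b B102E_011_1_12_1 B102E_011_1_13_1
theorem B102E_011_1_3_1 :
    ∃ t, chk3 (onCell 0 16777216 0 1073741824 1033476505 6710887 (corT true 1 c0B cB102E gB0q1 gB1q2 gB1q0 gB2q0 true true)) t 1 3 1 = true :=
  ex3_b B102E_011_1_6_1 B102E_011_1_7_1
theorem B102E_011 :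
    ∃ t, chk3 (onCell 0 16777216 0 1073741824 1033476505 6710887 (corT true 1 c0B cB102E gB0q1 gB1q2 gB1q0 gB2q0 true true)) t 1 1 1 = true :=
  ex3_b B102E_011_1_2_1 B102E_011_1_3_1

def B102E_012_1_2_1 :
    ∃ t, chk3 (onCell 0 16777216 0 1073741824 1033476505 6710887 (corT true 1 c0B cB102E gB0q1 gB1q2 gB2q0 gB3q0 true false)) t 1 2 1 = true :=
  ⟨(T.l 1), by decide +kernel⟩

def B102E_012_1_6_1 :
    ∃ t, chk3 (onCell 0 16777216 0 1073741824 1033476505 6710887 (corT true 1 c0B cB102E gB0q1 gB1q2 gB2q0 gB3q0 true false)) t 1 6 1 = true :=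
  ⟨(T.l 1), by decide +kernel⟩

def B102E_012_1_112_1 :
    ∃ t, chk3 (onCell 0 16777216 0 1073741824 1033476505 6710887 (corT true 1 c0B cB102E gB0q1 gB1q2 gB2q0 gB3q0 true false)) t 1 112 1 = true :=
  ⟨(T.l 1), by decide +kernel⟩

def B102E_012_1_226_1 :
    ∃ t, chk3 (onCell 0 16777216 0 1073741824 1033476505 6710887 (corT true 1 c0B cB102E gB0q1 gB1q2 gB2q0 gB3q0 true false)) t 1 226 1 = true :=
  ⟨(T.l 1), by decide +kernel⟩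

def B102E_012_1_454_1 :
    ∃ t, chk3 (onCell 0 16777216 0 1073741824 1033476505 6710887 (corT true 1 c0B cB102E gB0q1 gB1q2 gB2q0 gB3q0 true false)) t 1 454 1 = true :=
  ⟨(T.l 1), by decide +kernel⟩

def B102E_012_1_910_1 :
    ∃ t, chk3 (onCell 0 16777216 0 1073741824 1033476505 6710887 (corT true 1 c0B cB102E gB0q1 gB1q2 gB2q0 gB3q0 true false)) t 1 910 1 = true :=
  ⟨(T.b (T.b (T.b (T.l 1) (T.a (T.a (T.l 816) (T.a (T.l 816) (T.c (T.l 816) (T.l 816)))) (T.b (T.l 1) (T.a (T.a (T.l 816) (T.l 816)) (T.a (T.l 816) (T.l 816)))))) (T.a (T.a (T.l 816) (T.a (T.l 816) (T.c (T.l 816) (T.l 816)))) (T.b (T.b (T.a (T.a (T.l 816) (T.l 816)) (T.a (T.l 816) (T.l 816))) (T.a (T.a (T.l 816) (T.l 816)) (T.a (T.l 816) (T.l 816)))) (T.b (T.a (T.a (T.l 816) (T.l 816)) (T.a (T.l 816) (T.l 816))) (T.a (T.a (T.l 816) (T.l 816)) (T.a (T.l 816) (T.l 816))))))) (T.b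 (T.a (T.a (T.l 816) (T.a (T.l 816) (T.c (T.l 816) (T.l 816)))) (T.b (T.b (T.a (T.a (T.l 816) (T.l 816)) (T.a (T.l 816) (T.l 816))) (T.a (T.a (T.l 816) (T.l 816)) (T.a (T.l 816) (T.l 816)))) (T.a (T.a (T.l 816) (T.l 816)) (T.a (T.l 816) (T.l 816))))) (T.a (T.a (T.l 816) (T.a (T.l 816) (T.c (T.l 816) (T.l 816)))) (T.b (T.a (T.a (T.l 816) (T.l 816)) (T.a (T.l 816) (T.l 816))) (T.a (T.a (T.l 816) (T.l 816)) (T.a (T.l 816) (T.l 816))))))), by decide +kernel⟩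

def B102E_012_1_911_1 :
    ∃ t, chk3 (onCell 0 16777216 0 1073741824 1033476505 6710887 (corT true 1 c0B cB102E gB0q1 gB1q2 gB2q0 gB3q0 true false)) t 1 911 1 = true :=
  ⟨(T.b (T.b (T.a (T.a (T.l 816) (T.a (T.l 816) (T.c (T.l 816) (T.l 816)))) (T.b (T.a (T.a (T.l 816) (T.l 816)) (T.a (T.l 816) (T.l 816))) (T.a (T.a (T.l 816) (T.l 816)) (T.a (T.l 816) (T.l 816))))) (T.a (T.a (T.l 816) (T.a (T.l 816) (T.c (T.l 816) (T.l 816)))) (T.b (T.a (T.a (T.l 816) (T.l 816)) (T.a (T.l 816) (T.l 816))) (T.a (T.a (T.l 816) (T.l 816)) (T.a (T.l 816) (T.l 816)))))) (T.b (T.a (T.a (T.l 816) (T.a (T.l 816) (T.c (T.l 816) (T.l 816)))) (T.b (T.a (T.a (T.l 816) (T.l 816)) (T.a (T.l 816) (T.l 816))) (T.a (T.a (T.l 816) (T.l 816)) (T.a (T.l 816) (T.l 816))))) (T.a (T.a (T.l 816) (T.a (T.l 816) (T.c (T.l 816) (T.l 816)))) (T.b (T.a (T.a (T.l 816) (T.l 816)) (T.a (T.l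 816) (T.l 816))) (T.a (T.a (T.l 816) (T.l 816)) (T.a (T.l 816) (T.l 816))))))), by decide +kernel⟩

def B102E_012_1_456_1 :
    ∃ t, chk3 (onCell 0 16777216 0 1073741824 1033476505 6710887 (corT true 1 c0B cB102E gB0q1 gB1q2 gB2q0 gB3q0 true false)) t 1 456 1 = true :=
  ⟨(T.b (T.b (T.b (T.a (T.a (T.l 816) (T.a (T.l 816) (T.c (T.l 816) (T.l 816)))) (T.b (T.a (T.a (T.l 816) (T.l 816)) (T.a (T.l 816) (T.l 816))) (T.a (T.a (T.l 816) (T.l 816)) (T.a (T.l 816) (T.l 816))))) (T.a (T.a (T.l 816) (T.a (T.l 816) (T.c (T.l 816) (T.l 816)))) (T.b (T.a (T.a (T.l 816) (T.l 816)) (T.a (T.l 816) (T.l 816))) (T.a (T.a (T.l 816) (T.l 816)) (T.a (T.l 816) (T.l 816)))))) (T.b (T.a (T.a (T.l 816) (T.a (T.l 816) (T.c (T.l 816) (T.l 816)))) (T.b (T.a (T.a (T.l 816) (T.l 816)) (T.a (T.l 816) (T.l 816))) (T.a (T.a (T.l 816) (T.l 816)) (T.a (T.l 816) (T.l 816))))) (T.a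 (T.a (T.l 816) (T.a (T.l 816) (T.c (T.l 816) (T.l 816)))) (T.b (T.a (T.a (T.l 816) (T.l 816)) (T.a (T.l 816) (T.l 816))) (T.a (T.a (T.l 816) (T.l 816)) (T.a (T.l 816) (T.l 816))))))) (T.b (T.b (T.a (T.a (T.l 816) (T.a (T.l 816) (T.c (T.l 816) (T.l 816)))) (T.b (T.a (T.a (T.l 816) (T.l 816)) (T.a (T.l 816) (T.l 816))) (T.a (T.a (T.l 816) (T.l 816)) (T.a (T.l 816) (T.l 816))))) (T.a (T.a (T.l 816) (T.a (T.l 816) (T.c (T.l 816) (T.l 816)))) (T.b (T.a (T.a (T.l 816) (T.l 816)) (T.a (T.l 816) (T.l 816))) (T.a (T.a (T.l 816) (T.l 816)) (T.a (T.l 816) (T.l 816)))))) (T.b (T.a (T.a (T.l 816) (T.a (T.l 816) (T.c (T.l 816) (T.l 816)))) (T.b (T.a (T.a (T.l 816) (T.l 816)) (T.a (T.l 816) (T.l 816))) (T.a (T.a (T.l 816) (T.l 816)) (T.a (T.l 816) (T.l 816))))) (T.a (T.a (T.l 816) (T.a (T.l 816) (T.c (T.l 816) (T.l 816)))) (T.b (T.a (T.a (T.l 816) (T.l 816))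 (T.a (T.l 816) (T.l 816))) (T.a (T.a (T.l 816) (T.l 816)) (T.a (T.l 816) (T.l 816)))))))), by decide +kernel⟩

def B102E_012_1_457_1 :
    ∃ t, chk3 (onCell 0 16777216 0 1073741824 1033476505 6710887 (corT true 1 c0B cB102E gB0q1 gB1q2 gB2q0 gB3q0 true false)) t 1 457 1 = true :=
  ⟨(T.b (T.b (T.b (T.a (T.a (T.l 816) (T.a (T.l 816) (T.c (T.l 816) (T.l 816)))) (T.b (T.a (T.a (T.l 816) (T.l 816)) (T.a (T.l 816) (T.l 816))) (T.a (T.a (T.l 816) (T.l 816)) (T.a (T.l 816) (T.l 816))))) (T.a (T.a (T.l 816) (T.a (T.l 816) (T.c (T.l 816) (T.l 816)))) (T.a (T.a (T.l 816) (T.l 816)) (T.a (T.l 816) (T.l 816))))) (T.b (T.a (T.a (T.l 816) (T.a (T.l 816) (T.c (T.l 816) (T.l 816)))) (T.a (T.a (T.l 816) (T.l 816)) (T.a (T.l 816) (T.l 816)))) (T.a (T.a (T.l 816) (T.a (T.l 816) (T.c (T.l 816) (T.l 816)))) (T.a (T.a (T.l 816) (T.l 816)) (T.a (T.l 816) (T.l 816))))))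 (T.b (T.b (T.a (T.a (T.l 816) (T.a (T.l 816) (T.c (T.l 816) (T.l 816)))) (T.a (T.a (T.l 816) (T.l 816)) (T.a (T.l 816) (T.l 816)))) (T.a (T.a (T.l 816) (T.a (T.l 816) (T.c (T.l 816) (T.l 816)))) (T.a (T.a (T.l 816) (T.l 816)) (T.a (T.l 816) (T.l 816))))) (T.b (T.a (T.a (T.l 816) (T.a (T.l 816) (T.c (T.l 816) (T.l 816)))) (T.a (T.a (T.l 816) (T.l 816)) (T.a (T.l 816) (T.l 816)))) (T.a (T.a (T.l 816) (T.a (T.l 816) (T.c (T.l 816) (T.l 816)))) (T.a (T.a (T.l 816) (T.l 816)) (T.a (T.l 816) (T.l 816))))))), by decide +kernel⟩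

def B102E_012_1_458_1 :
    ∃ t, chk3 (onCell 0 16777216 0 1073741824 1033476505 6710887 (corT true 1 c0B cB102E gB0q1 gB1q2 gB2q0 gB3q0 true false)) t 1 458 1 = true :=
  ⟨(T.b (T.b (T.b (T.a (T.a (T.l 816) (T.a (T.l 816) (T.c (T.l 816) (T.l 816)))) (T.a (T.a (T.l 816) (T.l 816)) (T.a (T.l 816) (T.l 816)))) (T.a (T.a (T.l 816) (T.a (T.l 816) (T.c (T.l 816) (T.l 816)))) (T.a (T.a (T.l 816) (T.l 816)) (T.a (T.l 816) (T.l 816))))) (T.b (T.a (T.a (T.l 816) (T.a (T.l 816) (T.c (T.l 816) (T.l 816)))) (T.a (T.a (T.l 816) (T.l 816)) (T.a (T.l 816) (T.l 816)))) (T.a (T.a (T.l 816) (T.a (T.l 816) (T.c (T.l 816) (T.l 816)))) (T.a (T.a (T.l 816) (T.l 816)) (T.a (T.l 816) (T.l 816)))))) (T.b (T.b (T.a (T.a (T.l 816) (T.a (T.l 816) (T.c (T.l 816) (T.l 816)))) (T.a (T.a (T.l 816) (T.l 816)) (T.a (T.l 816) (T.l 816)))) (T.a (T.a (T.l 816) (T.a (T.l 816) (T.c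 (T.l 816) (T.l 816)))) (T.a (T.a (T.l 816) (T.l 816)) (T.a (T.l 816) (T.l 816))))) (T.b (T.a (T.a (T.l 816) (T.a (T.l 816) (T.c (T.l 816) (T.l 816)))) (T.a (T.a (T.l 816) (T.l 816)) (T.a (T.l 816) (T.l 816)))) (T.a (T.a (T.l 816) (T.a (T.l 816) (T.c (T.l 816) (T.l 816)))) (T.a (T.a (T.l 816) (T.l 816)) (T.a (T.l 816) (T.l 816))))))), by decide +kernel⟩

def B102E_012_1_459_1 :
    ∃ t, chk3 (onCell 0 16777216 0 1073741824 1033476505 6710887 (corT true 1 c0B cB102E gB0q1 gB1q2 gB2q0 gB3q0 true false)) t 1 459 1 = true :=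
  ⟨(T.b (T.b (T.b (T.a (T.a (T.l 816) (T.a (T.l 816) (T.c (T.l 816) (T.l 816)))) (T.a (T.a (T.l 816) (T.l 816)) (T.a (T.l 816) (T.l 816)))) (T.a (T.a (T.l 816) (T.a (T.l 816) (T.c (T.l 816) (T.l 816)))) (T.a (T.a (T.l 816) (T.l 816)) (T.a (T.l 816) (T.l 816))))) (T.b (T.a (T.a (T.l 816) (T.a (T.l 816) (T.c (T.l 816) (T.l 816)))) (T.a (T.a (T.l 816) (T.l 816)) (T.a (T.l 816) (T.l 816)))) (T.a (T.a (T.l 816) (T.a (T.l 816) (T.c (T.l 816) (T.l 816)))) (T.a (T.a (T.l 816) (T.l 816)) (T.a (T.l 816) (T.l 816)))))) (T.b (T.b (T.a (T.a (T.l 816) (T.a (T.l 816) (T.c (T.l 816) (T.l 816)))) (T.a (T.a (T.l 816) (T.l 816)) (T.a (T.l 816) (T.l 816)))) (T.a (T.a (T.l 816) (T.a (T.l 816) (T.c (T.l 816) (T.l 816)))) (T.a (T.a (T.l 816) (T.l 816)) (T.a (T.l 816) (T.l 816))))) (T.a (T.a (T.l 816) (T.a (T.l 816) (T.c (T.l 816) (T.l 816)))) (T.a (T.a (T.l 816) (T.l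 816)) (T.a (T.l 816) (T.l 816)))))), by decide +kernel⟩

def B102E_012_1_230_1 :
    ∃ t, chk3 (onCell 0 16777216 0 1073741824 1033476505 6710887 (corT true 1 c0B cB102E gB0q1 gB1q2 gB2q0 gB3q0 true false)) t 1 230 1 = true :=
  ⟨(T.b (T.b (T.b (T.a (T.a (T.l 816) (T.a (T.l 816) (T.c (T.l 816) (T.l 816)))) (T.a (T.a (T.l 816) (T.l 816)) (T.a (T.l 816) (T.l 816)))) (T.a (T.a (T.l 816) (T.a (T.l 816) (T.c (T.l 816) (T.l 816)))) (T.a (T.a (T.l 816) (T.l 816)) (T.a (T.l 816) (T.l 816))))) (T.b (T.a (T.a (T.l 816) (T.a (T.l 816) (T.c (T.l 816) (T.l 816)))) (T.a (T.a (T.l 816) (T.l 816)) (T.a (T.l 816) (T.l 816)))) (T.a (T.a (T.l 816) (T.a (T.l 816) (T.c (T.l 816) (T.l 816)))) (T.a (T.a (T.l 816) (T.l 816)) (T.a (T.l 816) (T.l 816)))))) (T.b (T.b (T.a (T.a (T.l 816) (T.a (T.l 816) (T.c (T.l 816) (T.l 816)))) (T.a (T.a (T.l 816) (T.l 816)) (T.a (T.l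 816) (T.l 816)))) (T.a (T.a (T.l 816) (T.a (T.l 816) (T.c (T.l 816) (T.l 816)))) (T.a (T.a (T.l 816) (T.l 816)) (T.a (T.l 816) (T.l 816))))) (T.b (T.a (T.a (T.l 816) (T.a (T.l 816) (T.c (T.l 816) (T.l 816)))) (T.a (T.a (T.l 816) (T.l 816)) (T.a (T.l 816) (T.l 816)))) (T.a (T.a (T.l 816) (T.a (T.l 816) (T.c (T.l 816) (T.l 816)))) (T.a (T.a (T.l 816) (T.l 816)) (T.a (T.l 816) (T.l 816))))))), by decide +kernel⟩

def B102E_012_1_231_1 :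
    ∃ t, chk3 (onCell 0 16777216 0 1073741824 1033476505 6710887 (corT true 1 c0B cB102E gB0q1 gB1q2 gB2q0 gB3q0 true false)) t 1 231 1 = true :=
  ⟨(T.b (T.b (T.b (T.a (T.a (T.l 816) (T.a (T.l 816) (T.c (T.l 816) (T.l 816)))) (T.a (T.a (T.l 816) (T.l 816)) (T.a (T.l 816) (T.l 816)))) (T.a (T.a (T.l 816) (T.a (T.l 816) (T.c (T.l 816) (T.l 816)))) (T.a (T.a (T.l 816) (T.l 816)) (T.a (T.l 816) (T.l 816))))) (T.b (T.a (T.a (T.l 816) (T.a (T.l 816) (T.c (T.l 816) (T.l 816)))) (T.a (T.a (T.l 816) (T.l 816)) (T.a (T.l 816) (T.l 816)))) (T.a (T.a (T.l 816) (T.a (T.l 816) (T.c (T.l 816) (T.l 824)))) (T.a (T.a (T.l 816) (T.l 816)) (T.a (T.l 816) (T.l 816)))))) (T.b (T.b (T.a (T.a (T.l 816) (T.a (T.l 816) (T.c (T.l 816) (T.l 824)))) (T.a (T.a (T.l 816) (T.l 816)) (T.a (T.l 816) (T.l 816)))) (T.a (T.a (T.l 816) (T.a (T.l 816) (T.c (T.l 816) (T.l 824))))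 (T.a (T.a (T.l 816) (T.l 816)) (T.a (T.l 816) (T.l 816))))) (T.b (T.a (T.a (T.l 816) (T.a (T.l 816) (T.c (T.l 816) (T.l 824)))) (T.a (T.a (T.l 816) (T.l 816)) (T.a (T.l 816) (T.l 816)))) (T.a (T.a (T.l 816) (T.a (T.l 816) (T.c (T.l 816) (T.l 824)))) (T.a (T.a (T.l 816) (T.l 816)) (T.a (T.l 816) (T.l 816))))))), by decide +kernel⟩

def B102E_012_1_232_1 :
    ∃ t, chk3 (onCell 0 16777216 0 1073741824 1033476505 6710887 (corT true 1 c0B cB102E gB0q1 gB1q2 gB2q0 gB3q0 true false)) t 1 232 1 = true :=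
  ⟨(T.b (T.b (T.b (T.a (T.a (T.l 816) (T.a (T.l 816) (T.c (T.l 816) (T.l 824)))) (T.a (T.a (T.l 816) (T.l 816)) (T.a (T.l 816) (T.l 816)))) (T.a (T.a (T.l 816) (T.a (T.l 816) (T.c (T.l 816) (T.l 824)))) (T.a (T.a (T.l 816) (T.l 816)) (T.a (T.l 816) (T.l 816))))) (T.b (T.a (T.a (T.l 816) (T.a (T.l 816) (T.c (T.l 816) (T.l 824)))) (T.a (T.a (T.l 816) (T.l 816)) (T.a (T.l 816) (T.l 816)))) (T.a (T.a (T.l 816) (T.a (T.l 816) (T.c (T.l 816) (T.l 824)))) (T.a (T.a (T.l 816) (T.l 816)) (T.a (T.l 816) (T.l 816)))))) (T.b (T.b (T.a (T.a (T.l 816) (T.a (T.l 816) (T.c (T.l 816) (T.l 824)))) (T.a (T.a (T.l 816) (T.l 816)) (T.a (T.l 816) (T.l 816)))) (T.a (T.a (T.l 816) (T.a (T.l 816) (T.c (T.l 816) (T.l 824)))) (T.a (T.a (T.l 816) (T.l 816)) (T.a (T.l 816) (T.l 816))))) (T.b (T.a (T.a (T.l 816) (T.a (T.l 816) (T.c (T.l 816) (T.l 824)))) (T.a (T.a (T.l 816)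 (T.l 816)) (T.a (T.l 816) (T.l 816)))) (T.a (T.a (T.l 816) (T.a (T.l 816) (T.c (T.l 816) (T.l 824)))) (T.a (T.a (T.l 816) (T.l 816)) (T.a (T.l 816) (T.l 816))))))), by decide +kernel⟩

def B102E_012_1_233_1 :
    ∃ t, chk3 (onCell 0 16777216 0 1073741824 1033476505 6710887 (corT true 1 c0B cB102E gB0q1 gB1q2 gB2q0 gB3q0 true false)) t 1 233 1 = true :=
  ⟨(T.b (T.b (T.b (T.a (T.a (T.l 816) (T.a (T.l 816) (T.c (T.l 816) (T.l 824)))) (T.a (T.a (T.l 816) (T.l 816)) (T.a (T.l 816) (T.l 816)))) (T.a (T.a (T.l 816) (T.a (T.l 816) (T.c (T.l 816) (T.l 824)))) (T.a (T.a (T.l 816) (T.l 816)) (T.a (T.l 816) (T.l 816))))) (T.b (T.a (T.a (T.l 816) (T.a (T.l 816) (T.c (T.l 816) (T.l 824)))) (T.a (T.a (T.l 816) (T.l 816)) (T.a (T.l 816) (T.l 816)))) (T.a (T.a (T.l 816) (T.a (T.l 816) (T.c (T.l 816) (T.l 824)))) (T.a (T.a (T.l 816) (T.l 816)) (T.a (T.l 816) (T.l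 816)))))) (T.b (T.b (T.a (T.a (T.l 816) (T.a (T.l 816) (T.c (T.l 816) (T.l 824)))) (T.a (T.a (T.l 816) (T.l 816)) (T.a (T.l 816) (T.l 816)))) (T.a (T.a (T.l 816) (T.a (T.l 816) (T.c (T.l 816) (T.l 824)))) (T.a (T.a (T.l 816) (T.l 816)) (T.a (T.l 816) (T.l 816))))) (T.b (T.a (T.a (T.l 816) (T.a (T.l 816) (T.c (T.l 816) (T.l 824)))) (T.a (T.a (T.l 816) (T.l 816)) (T.a (T.l 816) (T.l 816)))) (T.a (T.a (T.l 816) (T.a (T.l 816) (T.c (T.l 816) (T.l 824)))) (T.a (T.a (T.l 816) (T.l 816)) (T.a (T.l 816) (T.l 816))))))), by decide +kernel⟩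

def B102E_012_1_234_1 :
    ∃ t, chk3 (onCell 0 16777216 0 1073741824 1033476505 6710887 (corT true 1 c0B cB102E gB0q1 gB1q2 gB2q0 gB3q0 true false)) t 1 234 1 = true :=
  ⟨(T.b (T.b (T.b (T.a (T.a (T.l 816) (T.a (T.l 816) (T.c (T.l 816) (T.l 824)))) (T.a (T.a (T.l 816) (T.l 816)) (T.a (T.l 816) (T.l 816)))) (T.a (T.a (T.l 816) (T.a (T.l 816) (T.c (T.l 816) (T.l 824)))) (T.a (T.a (T.l 816) (T.l 816)) (T.a (T.l 816) (T.l 816))))) (T.b (T.a (T.a (T.l 816) (T.a (T.l 816) (T.c (T.l 816) (T.l 824)))) (T.a (T.a (T.l 816) (T.l 816)) (T.a (T.l 816) (T.l 816)))) (T.a (T.a (T.l 816) (T.a (T.l 816) (T.c (T.l 816) (T.l 824)))) (T.a (T.a (T.l 816) (T.l 816)) (T.a (T.l 816) (T.l 816)))))) (T.b (T.b (T.a (T.a (T.l 816) (T.a (T.l 816) (T.c (T.l 816) (T.l 824)))) (T.a (T.a (T.l 816) (T.l 816)) (T.a (T.l 816) (T.l 816)))) (T.a (T.a (T.l 816) (T.a (T.l 816) (T.c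 (T.l 816) (T.l 824)))) (T.a (T.a (T.l 816) (T.l 816)) (T.a (T.l 816) (T.l 816))))) (T.b (T.a (T.a (T.l 816) (T.a (T.l 816) (T.c (T.l 816) (T.l 824)))) (T.a (T.a (T.l 816) (T.l 816)) (T.a (T.l 816) (T.l 816)))) (T.a (T.a (T.l 816) (T.a (T.l 816) (T.c (T.l 816) (T.l 824)))) (T.a (T.a (T.l 816) (T.l 816)) (T.a (T.l 816) (T.l 816))))))), by decide +kernel⟩

def B102E_012_1_235_1 :
    ∃ t, chk3 (onCell 0 16777216 0 1073741824 1033476505 6710887 (corT true 1 c0B cB102E gB0q1 gB1q2 gB2q0 gB3q0 true false)) t 1 235 1 = true :=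
  ⟨(T.b (T.b (T.b (T.a (T.a (T.l 816) (T.a (T.l 816) (T.c (T.l 816) (T.l 824)))) (T.a (T.a (T.l 816) (T.l 816)) (T.a (T.l 816) (T.l 816)))) (T.a (T.a (T.l 816) (T.a (T.l 816) (T.c (T.l 816) (T.l 824)))) (T.a (T.a (T.l 816) (T.l 816)) (T.a (T.l 816) (T.l 816))))) (T.b (T.a (T.a (T.l 816) (T.a (T.l 816) (T.c (T.l 816) (T.l 824)))) (T.a (T.a (T.l 816) (T.l 816)) (T.a (T.l 816) (T.l 816)))) (T.a (T.a (T.l 816) (T.a (T.l 816) (T.c (T.l 816) (T.l 824)))) (T.a (T.a (T.l 816) (T.l 816)) (T.a (T.l 816) (T.l 816)))))) (T.b (T.a (T.a (T.l 816) (T.a (T.l 816) (T.c (T.l 816) (T.l 824)))) (T.a (T.a (T.l 816) (T.l 816)) (T.a (T.l 816) (T.l 816)))) (T.a (T.a (T.l 816) (T.a (T.l 816) (T.c (T.l 816) (T.l 824)))) (T.a (T.a (T.l 816) (T.l 816)) (T.a (T.l 816) (T.l 816)))))), by decide +kernel⟩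

def B102E_012_1_118_1 :
    ∃ t, chk3 (onCell 0 16777216 0 1073741824 1033476505 6710887 (corT true 1 c0B cB102E gB0q1 gB1q2 gB2q0 gB3q0 true false)) t 1 118 1 = true :=
  ⟨(T.b (T.b (T.b (T.a (T.a (T.l 816) (T.a (T.l 816) (T.c (T.l 816) (T.l 824)))) (T.a (T.a (T.l 816) (T.l 816)) (T.a (T.l 816) (T.l 816)))) (T.a (T.a (T.l 816) (T.a (T.l 816) (T.c (T.l 816) (T.l 824)))) (T.a (T.a (T.l 816) (T.l 816)) (T.a (T.l 816) (T.l 816))))) (T.b (T.a (T.a (T.l 816) (T.a (T.l 816) (T.c (T.l 816) (T.l 824)))) (T.a (T.a (T.l 816) (T.l 816)) (T.a (T.l 816) (T.l 816)))) (T.a (T.a (T.l 816) (T.a (T.l 816) (T.c (T.l 816) (T.l 824)))) (T.a (T.a (T.l 816) (T.l 816)) (T.a (T.l 816) (T.l 816)))))) (T.b (T.b (T.a (T.a (T.l 816) (T.a (T.l 816) (T.c (T.l 816) (T.l 824)))) (T.a (T.a (T.l 816) (T.l 816)) (T.a (T.l 816) (T.l 816)))) (T.a (T.a (T.l 816) (T.a (T.l 816) (T.c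 (T.l 816) (T.l 824)))) (T.a (T.a (T.l 816) (T.l 816)) (T.a (T.l 816) (T.l 816))))) (T.b (T.a (T.a (T.l 816) (T.a (T.l 816) (T.c (T.l 816) (T.l 824)))) (T.a (T.a (T.l 816) (T.l 816)) (T.a (T.l 816) (T.l 816)))) (T.a (T.a (T.l 816) (T.a (T.l 816) (T.c (T.l 816) (T.l 824)))) (T.a (T.a (T.l 816) (T.l 816)) (T.a (T.l 816) (T.l 816))))))), by decide +kernel⟩

def B102E_012_1_119_1 :
    ∃ t, chk3 (onCell 0 16777216 0 1073741824 1033476505 6710887 (corT true 1 c0B cB102E gB0q1 gB1q2 gB2q0 gB3q0 true false)) t 1 119 1 = true :=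
  ⟨(T.b (T.b (T.b (T.a (T.a (T.l 816) (T.a (T.l 816) (T.c (T.l 816) (T.l 824)))) (T.a (T.a (T.c (T.l 816) (T.l 824)) (T.l 824)) (T.a (T.l 816) (T.l 816)))) (T.a (T.a (T.l 816) (T.a (T.l 816) (T.c (T.l 816) (T.l 824)))) (T.a (T.a (T.c (T.l 816) (T.l 824)) (T.l 816)) (T.a (T.l 816) (T.l 816))))) (T.b (T.a (T.a (T.l 816) (T.a (T.l 816) (T.c (T.l 816) (T.l 824)))) (T.a (T.a (T.c (T.l 816) (T.l 824)) (T.l 816)) (T.a (T.l 816) (T.l 816)))) (T.a (T.a (T.l 816) (T.a (T.l 816) (T.c (T.l 816) (T.l 824)))) (T.a (T.a (T.c (T.l 816) (T.l 824)) (T.l 816)) (T.a (T.l 816) (T.l 816)))))) (T.b (T.b (T.a (T.a (T.l 816) (T.a (T.l 816) (T.c (T.l 816) (T.l 824)))) (T.a (T.a (T.c (T.l 816) (T.l 824)) (T.l 816)) (T.a (T.l 816) (T.l 816)))) (T.a (T.a (T.l 816) (T.a (T.l 816) (T.c (T.l 816) (T.l 824)))) (T.a (T.a (T.c (T.l 816) (T.l 824)) (T.l 816)) (T.a (T.l 816) (T.l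 816))))) (T.b (T.a (T.a (T.l 816) (T.a (T.l 816) (T.c (T.l 816) (T.l 824)))) (T.a (T.a (T.c (T.l 816) (T.l 824)) (T.l 816)) (T.a (T.l 816) (T.l 816)))) (T.a (T.a (T.l 816) (T.a (T.l 816) (T.c (T.l 816) (T.l 824)))) (T.a (T.a (T.c (T.l 816) (T.l 824)) (T.l 816)) (T.a (T.l 816) (T.l 816))))))), by decide +kernel⟩

def B102E_012_1_120_1 :
    ∃ t, chk3 (onCell 0 16777216 0 1073741824 1033476505 6710887 (corT true 1 c0B cB102E gB0q1 gB1q2 gB2q0 gB3q0 true false)) t 1 120 1 = true :=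
  ⟨(T.b (T.b (T.b (T.a (T.a (T.l 816) (T.a (T.l 816) (T.c (T.l 816) (T.l 824)))) (T.a (T.a (T.c (T.l 816) (T.l 824)) (T.l 816)) (T.a (T.l 816) (T.l 0)))) (T.a (T.a (T.l 816) (T.a (T.l 816) (T.c (T.l 816) (T.l 824)))) (T.a (T.a (T.c (T.l 816) (T.l 824)) (T.l 816)) (T.a (T.l 816) (T.l 0))))) (T.b (T.a (T.a (T.l 816) (T.a (T.l 816) (T.c (T.l 816) (T.l 824)))) (T.a (T.a (T.c (T.l 816) (T.l 824)) (T.l 816)) (T.a (T.l 816) (T.l 0)))) (T.a (T.a (T.l 816) (T.a (T.l 816) (T.c (T.l 816) (T.l 824)))) (T.a (T.a (T.c (T.l 816) (T.l 824)) (T.l 816)) (T.a (T.l 816) (T.l 0)))))) (T.b (T.b (T.a (T.a (T.l 816) (T.a (T.l 816) (T.c (T.l 816) (T.l 824)))) (T.a (T.a (T.c (T.l 816) (T.l 824)) (T.l 816)) (T.a (T.l 816) (T.l 0)))) (T.a (T.a (T.l 816) (T.a (T.l 816) (T.c (T.l 816) (T.l 824)))) (T.a (T.a (T.c (T.l 816) (T.l 824)) (T.l 816)) (T.a (T.l 816) (T.l 0))))) (T.b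 (T.a (T.a (T.l 816) (T.a (T.l 816) (T.c (T.l 816) (T.l 824)))) (T.a (T.a (T.c (T.l 816) (T.l 824)) (T.l 816)) (T.a (T.l 816) (T.l 0)))) (T.a (T.a (T.l 816) (T.a (T.l 816) (T.c (T.l 816) (T.l 824)))) (T.a (T.a (T.c (T.l 816) (T.l 824)) (T.l 816)) (T.a (T.l 816) (T.l 0))))))), by decide +kernel⟩

def B102E_012_1_121_1 :
    ∃ t, chk3 (onCell 0 16777216 0 1073741824 1033476505 6710887 (corT true 1 c0B cB102E gB0q1 gB1q2 gB2q0 gB3q0 true false)) t 1 121 1 = true :=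
  ⟨(T.b (T.b (T.b (T.a (T.a (T.l 816) (T.a (T.l 816) (T.c (T.l 816) (T.l 824)))) (T.a (T.a (T.c (T.l 816) (T.l 824)) (T.l 816)) (T.a (T.l 816) (T.l 0)))) (T.a (T.a (T.l 816) (T.a (T.l 816) (T.a (T.l 816) (T.l 816)))) (T.a (T.a (T.c (T.l 816) (T.l 824)) (T.l 816)) (T.a (T.l 816) (T.l 0))))) (T.a (T.a (T.l 816) (T.a (T.l 816) (T.a (T.l 816) (T.l 816)))) (T.a (T.a (T.a (T.l 816) (T.l 816)) (T.l 816)) (T.a (T.l 816) (T.l 0))))) (T.a (T.a (T.l 816) (T.a (T.l 816) (T.a (T.l 816) (T.l 816)))) (T.a (T.a (T.a (T.l 816) (T.l 816)) (T.l 824)) (T.a (T.l 8) (T.l 0))))), by decide +kernel⟩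

def B102E_012_1_61_1 :
    ∃ t, chk3 (onCell 0 16777216 0 1073741824 1033476505 6710887 (corT true 1 c0B cB102E gB0q1 gB1q2 gB2q0 gB3q0 true false)) t 1 61 1 = true :=
  ⟨(T.b (T.a (T.a (T.l 816) (T.a (T.l 816) (T.a (T.l 816) (T.l 816)))) (T.a (T.a (T.a (T.l 816) (T.l 816)) (T.b (T.l 824) (T.l 8))) (T.a (T.l 8) (T.l 0)))) (T.a (T.a (T.b (T.l 816) (T.l 816)) (T.a (T.l 816) (T.a (T.l 816) (T.l 0)))) (T.a (T.a (T.a (T.l 0) (T.l 0)) (T.c (T.l 0) (T.l 0))) (T.a (T.c (T.l 0) (T.l 0)) (T.l 0))))), by decide +kernel⟩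

def B102E_012_1_31_1 :
    ∃ t, chk3 (onCell 0 16777216 0 1073741824 1033476505 6710887 (corT true 1 c0B cB102E gB0q1 gB1q2 gB2q0 gB3q0 true false)) t 1 31 1 = true :=
  ⟨(T.a (T.a (T.c (T.a (T.l 0) (T.l 0)) (T.c (T.l 0) (T.b (T.l 0) (T.l 0)))) (T.a (T.c (T.l 0) (T.l 0)) (T.a (T.c (T.l 0) (T.l 0)) (T.c (T.l 0) (T.l 0))))) (T.a (T.a (T.a (T.a (T.l 0) (T.c (T.l 0) (T.l 0))) (T.b (T.l 0) (T.c (T.l 204) (T.l 204)))) (T.a (T.b (T.l 0) (T.c (T.l 204) (T.l 204))) (T.b (T.l 0) (T.c (T.l 204) (T.l 204))))) (T.a (T.a (T.b (T.l 0) (T.c (T.l 204) (T.l 204))) (T.c (T.b (T.l 0) (T.l 204)) (T.a (T.l 0) (T.b (T.l 0) (T.l 204))))) (T.a (T.b (T.l 204) (T.c (T.l 204) (T.l 236))) (T.b (T.l 204) (T.c (T.l 204) (T.l 204))))))), by decide +kernel⟩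

theorem B102E_012_1_60_1 :
    ∃ t, chk3 (onCell 0 16777216 0 1073741824 1033476505 6710887 (corT true 1 c0B cB102E gB0q1 gB1q2 gB2q0 gB3q0 true false)) t 1 60 1 = true :=
  ex3_b B102E_012_1_120_1 B102E_012_1_121_1
theorem B102E_012_1_30_1 :
    ∃ t, chk3 (onCell 0 16777216 0 1073741824 1033476505 6710887 (corT true 1 c0B cB102E gB0q1 gB1q2 gB2q0 gB3q0 true false)) t 1 30 1 = true :=
  ex3_b B102E_012_1_60_1 B102E_012_1_61_1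
theorem B102E_012_1_15_1 :
    ∃ t, chk3 (onCell 0 16777216 0 1073741824 1033476505 6710887 (corT true 1 c0B cB102E gB0q1 gB1q2 gB2q0 gB3q0 true false)) t 1 15 1 = true :=
  ex3_b B102E_012_1_30_1 B102E_012_1_31_1
theorem B102E_012_1_59_1 :
    ∃ t, chk3 (onCell 0 16777216 0 1073741824 1033476505 6710887 (corT true 1 c0B cB102E gB0q1 gB1q2 gB2q0 gB3q0 true false)) t 1 59 1 = true :=
  ex3_b B102E_012_1_118_1 B102E_012_1_119_1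
theorem B102E_012_1_117_1 :
    ∃ t, chk3 (onCell 0 16777216 0 1073741824 1033476505 6710887 (corT true 1 c0B cB102E gB0q1 gB1q2 gB2q0 gB3q0 true false)) t 1 117 1 = true :=
  ex3_b B102E_012_1_234_1 B102E_012_1_235_1
theorem B102E_012_1_116_1 :
    ∃ t, chk3 (onCell 0 16777216 0 1073741824 1033476505 6710887 (corT true 1 c0B cB102E gB0q1 gB1q2 gB2q0 gB3q0 true false)) t 1 116 1 = true :=
  ex3_b B102E_012_1_232_1 B102E_012_1_233_1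
theorem B102E_012_1_58_1 :
    ∃ t, chk3 (onCell 0 16777216 0 1073741824 1033476505 6710887 (corT true 1 c0B cB102E gB0q1 gB1q2 gB2q0 gB3q0 true false)) t 1 58 1 = true :=
  ex3_b B102E_012_1_116_1 B102E_012_1_117_1
theorem B102E_012_1_29_1 :
    ∃ t, chk3 (onCell 0 16777216 0 1073741824 1033476505 6710887 (corT true 1 c0B cB102E gB0q1 gB1q2 gB2q0 gB3q0 true false)) t 1 29 1 = true :=
  ex3_b B102E_012_1_58_1 B102E_012_1_59_1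
theorem B102E_012_1_115_1 :
    ∃ t, chk3 (onCell 0 16777216 0 1073741824 1033476505 6710887 (corT true 1 c0B cB102E gB0q1 gB1q2 gB2q0 gB3q0 true false)) t 1 115 1 = true :=
  ex3_b B102E_012_1_230_1 B102E_012_1_231_1
theorem B102E_012_1_229_1 :
    ∃ t, chk3 (onCell 0 16777216 0 1073741824 1033476505 6710887 (corT true 1 c0B cB102E gB0q1 gB1q2 gB2q0 gB3q0 true false)) t 1 229 1 = true :=
  ex3_b B102E_012_1_458_1 B102E_012_1_459_1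
theorem B102E_012_1_228_1 :
    ∃ t, chk3 (onCell 0 16777216 0 1073741824 1033476505 6710887 (corT true 1 c0B cB102E gB0q1 gB1q2 gB2q0 gB3q0 true false)) t 1 228 1 = true :=
  ex3_b B102E_012_1_456_1 B102E_012_1_457_1
theorem B102E_012_1_114_1 :
    ∃ t, chk3 (onCell 0 16777216 0 1073741824 1033476505 6710887 (corT true 1 c0B cB102E gB0q1 gB1q2 gB2q0 gB3q0 true false)) t 1 114 1 = true :=
  ex3_b B102E_012_1_228_1 B102E_012_1_229_1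
theorem B102E_012_1_57_1 :
    ∃ t, chk3 (onCell 0 16777216 0 1073741824 1033476505 6710887 (corT true 1 c0B cB102E gB0q1 gB1q2 gB2q0 gB3q0 true false)) t 1 57 1 = true :=
  ex3_b B102E_012_1_114_1 B102E_012_1_115_1
theorem B102E_012_1_455_1 :
    ∃ t, chk3 (onCell 0 16777216 0 1073741824 1033476505 6710887 (corT true 1 c0B cB102E gB0q1 gB1q2 gB2q0 gB3q0 true false)) t 1 455 1 = true :=
  ex3_b B102E_012_1_910_1 B102E_012_1_911_1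
theorem B102E_012_1_227_1 :
    ∃ t, chk3 (onCell 0 16777216 0 1073741824 1033476505 6710887 (corT true 1 c0B cB102E gB0q1 gB1q2 gB2q0 gB3q0 true false)) t 1 227 1 = true :=
  ex3_b B102E_012_1_454_1 B102E_012_1_455_1
theorem B102E_012_1_113_1 :
    ∃ t, chk3 (onCell 0 16777216 0 1073741824 1033476505 6710887 (corT true 1 c0B cB102E gB0q1 gB1q2 gB2q0 gB3q0 true false)) t 1 113 1 = true :=
  ex3_b B102E_012_1_226_1 B102E_012_1_227_1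
theorem B102E_012_1_56_1 :
    ∃ t, chk3 (onCell 0 16777216 0 1073741824 1033476505 6710887 (corT true 1 c0B cB102E gB0q1 gB1q2 gB2q0 gB3q0 true false)) t 1 56 1 = true :=
  ex3_b B102E_012_1_112_1 B102E_012_1_113_1
theorem B102E_012_1_28_1 :
    ∃ t, chk3 (onCell 0 16777216 0 1073741824 1033476505 6710887 (corT true 1 c0B cB102E gB0q1 gB1q2 gB2q0 gB3q0 true false)) t 1 28 1 = true :=
  ex3_b B102E_012_1_56_1 B102E_012_1_57_1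
theorem B102E_012_1_14_1 :
    ∃ t, chk3 (onCell 0 16777216 0 1073741824 1033476505 6710887 (corT true 1 c0B cB102E gB0q1 gB1q2 gB2q0 gB3q0 true false)) t 1 14 1 = true :=
  ex3_b B102E_012_1_28_1 B102E_012_1_29_1
theorem B102E_012_1_7_1 :
    ∃ t, chk3 (onCell 0 16777216 0 1073741824 1033476505 6710887 (corT true 1 c0B cB102E gB0q1 gB1q2 gB2q0 gB3q0 true false)) t 1 7 1 = true :=
  ex3_b B102E_012_1_14_1 B102E_012_1_15_1
theorem B102E_012_1_3_1 :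
    ∃ t, chk3 (onCell 0 16777216 0 1073741824 1033476505 6710887 (corT true 1 c0B cB102E gB0q1 gB1q2 gB2q0 gB3q0 true false)) t 1 3 1 = true :=
  ex3_b B102E_012_1_6_1 B102E_012_1_7_1
theorem B102E_012 :
    ∃ t, chk3 (onCell 0 16777216 0 1073741824 1033476505 6710887 (corT true 1 c0B cB102E gB0q1 gB1q2 gB2q0 gB3q0 true false)) t 1 1 1 = true :=
  ex3_b B102E_012_1_2_1 B102E_012_1_3_1

def B102E_020 :
    ∃ t, chk3 (onCell 0 16777216 0 1073741824 1033476505 6710887 (corT true 1 c0B cB102E gB0q1 gB2q2 gB0q0 gB1q0 true true)) t 1 1 1 = true :=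
  ⟨(T.b (T.b (T.l 1) (T.b (T.b (T.b (T.l 1) (T.a (T.a (T.l 816) (T.l 816)) (T.l 816))) (T.a (T.a (T.l 816) (T.b (T.l 816) (T.l 816))) (T.b (T.l 816) (T.l 0)))) (T.b (T.a (T.a (T.l 816) (T.b (T.l 0) (T.l 0))) (T.b (T.l 0) (T.l 0))) (T.l 2)))) (T.l 2)), by decide +kernel⟩

def B102E_021_1_2_1 :
    ∃ t, chk3 (onCell 0 16777216 0 1073741824 1033476505 6710887 (corT true 1 c0B cB102E gB0q1 gB2q2 gB1q0 gB2q0 true true)) t 1 2 1 = true :=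
  ⟨(T.b (T.l 1) (T.b (T.l 1) (T.b (T.b (T.l 1) (T.a (T.a (T.l 816) (T.l 0)) (T.l 0))) (T.a (T.a (T.l 816) (T.b (T.l 0) (T.l 0))) (T.a (T.l 816) (T.l 816)))))), by decide +kernel⟩

def B102E_021_1_12_1 :
    ∃ t, chk3 (onCell 0 16777216 0 1073741824 1033476505 6710887 (corT true 1 c0B cB102E gB0q1 gB2q2 gB1q0 gB2q0 true true)) t 1 12 1 = true :=
  ⟨(T.b (T.b (T.a (T.a (T.l 816) (T.b (T.l 0) (T.l 0))) (T.a (T.l 816) (T.l 816))) (T.a (T.a (T.l 816) (T.a (T.l 816) (T.l 816))) (T.a (T.l 816) (T.l 816)))) (T.b (T.a (T.a (T.l 816) (T.a (T.l 816) (T.l 816))) (T.a (T.l 816) (T.l 816))) (T.b (T.a (T.a (T.l 816) (T.a (T.l 816) (T.l 816))) (T.a (T.l 816) (T.l 816))) (T.b (T.a (T.a (T.l 816) (T.a (T.l 816) (T.l 816))) (T.a (T.l 816) (T.l 816))) (T.b (T.a (T.a (T.l 816) (T.a (T.l 816) (T.l 816))) (T.a (T.l 816) (T.l 816))) (T.a (T.a (T.l 816) (T.a (T.l 816)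 (T.l 816))) (T.a (T.l 816) (T.l 816)))))))), by decide +kernel⟩

def B102E_021_1_52_1 :
    ∃ t, chk3 (onCell 0 16777216 0 1073741824 1033476505 6710887 (corT true 1 c0B cB102E gB0q1 gB2q2 gB1q0 gB2q0 true true)) t 1 52 1 = true :=
  ⟨(T.b (T.b (T.b (T.a (T.a (T.l 816) (T.a (T.l 816) (T.l 816))) (T.a (T.l 816) (T.l 816))) (T.a (T.a (T.l 816) (T.a (T.l 816) (T.l 816))) (T.a (T.l 816) (T.l 816)))) (T.b (T.a (T.a (T.l 816) (T.a (T.l 816) (T.l 816))) (T.a (T.l 816) (T.l 816))) (T.a (T.a (T.l 816) (T.a (T.l 816) (T.l 816))) (T.a (T.l 816) (T.l 816))))) (T.b (T.b (T.a (T.a (T.l 816) (T.a (T.l 816) (T.l 816))) (T.a (T.l 816) (T.l 816))) (T.a (T.a (T.l 816) (T.a (T.l 816) (T.l 816))) (T.a (T.l 816) (T.l 816)))) (T.b (T.a (T.a (T.l 816) (T.a (T.l 816) (T.l 816))) (T.a (T.l 816) (T.l 816))) (T.a (T.a (T.l 816) (T.a (T.l 816) (T.l 816))) (T.a (T.l 816) (T.l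 816)))))), by decide +kernel⟩

def B102E_021_1_53_1 :
    ∃ t, chk3 (onCell 0 16777216 0 1073741824 1033476505 6710887 (corT true 1 c0B cB102E gB0q1 gB2q2 gB1q0 gB2q0 true true)) t 1 53 1 = true :=
  ⟨(T.b (T.b (T.b (T.a (T.a (T.l 816) (T.a (T.l 816) (T.l 816))) (T.a (T.l 816) (T.l 816))) (T.b (T.a (T.a (T.l 816) (T.a (T.l 816) (T.l 816))) (T.a (T.l 816) (T.l 816))) (T.a (T.a (T.l 816) (T.a (T.l 816) (T.l 816))) (T.a (T.l 816) (T.l 816))))) (T.b (T.b (T.a (T.a (T.l 816) (T.a (T.l 816) (T.l 816))) (T.a (T.l 816) (T.l 816))) (T.a (T.a (T.l 816) (T.a (T.l 816) (T.l 816))) (T.a (T.l 816) (T.l 816)))) (T.b (T.a (T.a (T.l 816) (T.a (T.l 816) (T.l 816))) (T.a (T.l 816) (T.l 816))) (T.a (T.a (T.l 816) (T.a (T.l 816) (T.l 816))) (T.a (T.l 816) (T.l 816)))))) (T.b (T.b (T.b (T.a (T.a (T.l 816) (T.a (T.l 816) (T.l 816))) (T.a (T.l 816) (T.l 816))) (T.a (T.a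 (T.l 816) (T.a (T.l 816) (T.l 816))) (T.a (T.l 816) (T.l 816)))) (T.b (T.a (T.a (T.l 816) (T.a (T.l 816) (T.l 816))) (T.a (T.l 816) (T.l 816))) (T.a (T.a (T.l 816) (T.a (T.l 816) (T.l 816))) (T.a (T.l 816) (T.l 816))))) (T.b (T.b (T.a (T.a (T.l 816) (T.a (T.l 816) (T.l 816))) (T.a (T.l 816) (T.l 816))) (T.a (T.a (T.l 816) (T.a (T.l 816) (T.l 816))) (T.a (T.l 816) (T.l 816)))) (T.b (T.a (T.a (T.l 816) (T.a (T.l 816) (T.l 816))) (T.a (T.l 816) (T.l 816))) (T.a (T.a (T.l 816) (T.a (T.l 816) (T.l 816))) (T.a (T.l 816) (T.l 816))))))), by decide +kernel⟩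

def B102E_021_1_27_1 :
    ∃ t, chk3 (onCell 0 16777216 0 1073741824 1033476505 6710887 (corT true 1 c0B cB102E gB0q1 gB2q2 gB1q0 gB2q0 true true)) t 1 27 1 = true :=
  ⟨(T.b (T.b (T.b (T.b (T.b (T.a (T.a (T.l 816) (T.a (T.l 816) (T.l 816))) (T.a (T.l 816) (T.l 816))) (T.a (T.a (T.l 816) (T.a (T.l 816) (T.l 816))) (T.a (T.l 816) (T.l 816)))) (T.b (T.a (T.a (T.l 816) (T.a (T.l 816) (T.l 816))) (T.a (T.l 816) (T.l 816))) (T.a (T.a (T.l 816) (T.a (T.l 816) (T.l 816))) (T.a (T.l 816) (T.l 816))))) (T.b (T.b (T.a (T.a (T.l 816) (T.a (T.l 816) (T.l 816))) (T.a (T.l 816) (T.l 816))) (T.a (T.a (T.l 816) (T.a (T.l 816) (T.l 816))) (T.a (T.l 816) (T.l 816)))) (T.b (T.a (T.a (T.l 816) (T.a (T.l 816) (T.l 816))) (T.a (T.l 816) (T.l 816))) (T.a (T.a (T.l 816) (T.a (T.l 816) (T.l 816))) (T.a (T.l 816) (T.l 816)))))) (T.b (T.b (T.b (T.a (T.a (T.l 816) (T.a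 (T.l 816) (T.l 816))) (T.a (T.l 816) (T.l 816))) (T.a (T.a (T.l 816) (T.a (T.l 816) (T.l 816))) (T.a (T.l 816) (T.l 816)))) (T.b (T.a (T.a (T.l 816) (T.a (T.l 816) (T.l 816))) (T.a (T.l 816) (T.l 816))) (T.a (T.a (T.l 816) (T.a (T.l 816) (T.l 816))) (T.a (T.l 816) (T.l 816))))) (T.b (T.b (T.a (T.a (T.l 816) (T.a (T.l 816) (T.l 816))) (T.a (T.l 816) (T.l 816))) (T.a (T.a (T.l 816) (T.a (T.l 816) (T.l 816))) (T.a (T.l 816) (T.l 2)))) (T.l 2)))) (T.l 2)), by decide +kernel⟩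

def B102E_021_1_7_1 :
    ∃ t, chk3 (onCell 0 16777216 0 1073741824 1033476505 6710887 (corT true 1 c0B cB102E gB0q1 gB2q2 gB1q0 gB2q0 true true)) t 1 7 1 = true :=
  ⟨(T.l 2), by decide +kernel⟩

theorem B102E_021_1_26_1 :
    ∃ t, chk3 (onCell 0 16777216 0 1073741824 1033476505 6710887 (corT true 1 c0B cB102E gB0q1 gB2q2 gB1q0 gB2q0 true true)) t 1 26 1 = true :=
  ex3_b B102E_021_1_52_1 B102E_021_1_53_1
theorem B102E_021_1_13_1 :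
    ∃ t, chk3 (onCell 0 16777216 0 1073741824 1033476505 6710887 (corT true 1 c0B cB102E gB0q1 gB2q2 gB1q0 gB2q0 true true)) t 1 13 1 = true :=
  ex3_b B102E_021_1_26_1 B102E_021_1_27_1
theorem B102E_021_1_6_1 :
    ∃ t, chk3 (onCell 0 16777216 0 1073741824 1033476505 6710887 (corT true 1 c0B cB102E gB0q1 gB2q2 gB1q0 gB2q0 true true)) t 1 6 1 = true :=
  ex3_b B102E_021_1_12_1 B102E_021_1_13_1
theorem B102E_021_1_3_1 :
    ∃ t, chk3 (onCell 0 16777216 0 1073741824 1033476505 6710887 (corT true 1 c0B cB102E gB0q1 gB2q2 gB1q0 gB2q0 true true)) t 1 3 1 = true :=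
  ex3_b B102E_021_1_6_1 B102E_021_1_7_1
theorem B102E_021 :
    ∃ t, chk3 (onCell 0 16777216 0 1073741824 1033476505 6710887 (corT true 1 c0B cB102E gB0q1 gB2q2 gB1q0 gB2q0 true true)) t 1 1 1 = true :=
  ex3_b B102E_021_1_2_1 B102E_021_1_3_1

end Pool.Agent.Strip051.G.I9625_9688.Tab.CG
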