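import Pool.Agent.Strip051.G.I9625_9688.StH
import Pool.Agent.Strip051.G.I9625_9688.StF

/-! # Unit strips 7 (generated) -/

set_option linter.all false
set_option maxRecDepth 100000

namespace Pool.Agent.Strip051.G.I9625_9688.Tab.St.C

open Pool.Agent.Strip051.PB Pool.Agent.Strip051.PB.T Pool.Agent.StripNear Pool.Agent.Strip051.LC
open Pool.Agent.Strip051.G.I9625_9688.Tab Pool.Agent.Strip051.G.I9625_9688.Tab.St

noncomputable def cut_B05mm_202_s1 : Cut := Cut.of [[⟨4, 0, 0, 1449551462⟩], [⟨0, 1, 0, 22369621⟩, ⟨1, 0, 0, 22369621⟩, ⟨2, 1, 0, 22369621⟩]]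

noncomputable def xt_B05mm_202_s1 : Ext := strExt dd false false false .u2 .s2m .u0m .pp 2 0 2 rfl rfl gf0 vv ndB0q2 ndB5q2

noncomputable def f_B05mm_202_s1 : ℕ → ℕ → ℕ → ℕ → Bool := onCell 0 536870912 0 536870912 1033476505 6710887
    (rowF 1 false false false .pp 2 0 2 (qsf 0 536870912 1073741824 536870912 0) ndB0q2 ndB5q2 pcB0 cut_B05mm_202_s1 xt_B05mm_202_s1)

def k0_B05mm_202_s1 : ∃ t, chk3 f_B05mm_202_s1 t 2 1 1 = true :=
  ⟨(b (a (a (l 6) (b (l 6) (b (l 6) (b (l 16612600) (a (l 6) (b (l 16671264) (l 16647880))))))) (b (a (a (l 6) (b (l 6) (l 6))) (b (b (l 6) (b (b (l 6) (l 16193504)) (l 16247672))) (b (b (l 16303192) (a (l 16365480) (l 16247800))) (b (a (l 16407192) (l 16415552)) (l 16424016))))) (b (a (a (b (l 6) (l 16685248)) (b (l 16342912) (b (l 16633144) (l 16500848)))) (b (a (l 16500864) (b (l 16620176) (a (l 16500648) (l 16481920)))) (a (b (a (l 16495592) (l 16441072)) (l 16402392)) (b (l 16409152)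 (l 16331192))))) (a (b (a (b (l 16605784) (l 16493656)) (b (l 16358640) (l 16404720))) (a (l 16445960) (l 16403984))) (b (a (l 16333640) (b (l 16277808) (l 16239600))) (a (b (l 16307440) (l 16304544)) (a (b (l 16240440) (b (l 16237752) (l 16255152))) (b (b (l 16203456) (l 16215760)) (b (l 16256872) (l 16329376)))))))))) (b (a (b (a (b (l 6) (a (l 6) (l 16658384))) (b (a (l 16562744) (l 16624552)) (l 16600720))) (b (a (l 16625496) (l 16423024)) (a (l 16664856) (a (l 16715712) (a (l 16547768) (l 229880794359)))))) (b (a (b (a (l 16509400) (l 16400952)) (a (l 16505112) (b (a (l 16422600) (l 16387736)) (a (l 16436512) (l 16456704))))) (b (a (b (a (l 16324984) (l 16211544)) (a (l 16340408) (l 16203384))) (b (a (b (l 16297256) (l 16365784)) (l 16353544)) (l 513426703))) (a (b (a (l 16413336) (l 16495320)) (l 519792143)) (l 518108687)))) (a (b (a (b (l 16425808) (a (l 16535176) (l 16544280))) (b (a (l 16500568) (l 16559944))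 (l 16532976))) (a (b (l 16525160) (l 16589160)) (l 528793359))) (b (a (l 523881999) (l 523728143)) (a (l 528673039) (l 528575759)))))) (a (l 2) (a (l 2) (a (l 2) (l 3)))))), by decide +kernel⟩

def k1_B05mm_202_s1 : ∃ t, chk3 f_B05mm_202_s1 t 6 4 1 = true :=
  ⟨(a (b (a (b (b (l 15939824) (b (l 15945696) (l 15985112))) (b (b (l 16067488) (l 16152224)) (l 16194696))) (b (b (l 15978704) (b (l 15969976) (l 15984088))) (b (b (l 16054824) (l 16043928)) (a (l 16173176) (l 16076216))))) (b (b (a (b (l 16231856) (l 16253128)) (a (l 16222584) (l 16224968))) (a (l 16322720) (l 16334360))) (a (b (l 16443640) (l 16510848)) (b (a (l 16467984) (b (l 16451120) (l 16520336))) (a (l 16608488) (l 16613496)))))) (b (a (b (b (l 16064960) (b (l 16048792) (l 16055488))) (b (b (l 16110056) (b (a (l 16135528) (l 16180720)) (l 16083552))) (a (b (l 16153448) (l 16178408)) (l 16195384)))) (b (b (l 16208360) (b (l 16200064) (b (b (l 16190928)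 (l 16203520)) (l 16224080)))) (b (b (a (l 16214072) (l 16306152)) (a (b (l 16250984) (l 16249224)) (l 16254600))) (a (b (l 16243944) (l 16262792)) (b (l 16326600) (l 16336648)))))) (b (a (b (a (l 16242144) (l 16278480)) (a (l 16207120) (b (l 16376304) (l 16435400)))) (b (a (b (l 16303536) (l 16364728)) (b (a (l 16357944) (l 16392976)) (a (l 16404880) (l 16437152)))) (a (b (l 16417376) (l 16480640)) (b (l 16475608) (l 16533736))))) (a (b (a (l 16329912) (l 16532424)) (l 16557584)) (a (b (l 16490272) (b (l 16670792) (l 16634712))) (b (b (l 16595496) (l 16660720)) (b (a (l 16679640) (l 16680312)) (a (l 16551864) (l 16655912))))))))), by decide +kernel⟩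

def k2_B05mm_202_s1 : ∃ t, chk3 f_B05mm_202_s1 t 6 5 1 = true :=
  ⟨(b (a (b (a (b (a (l 16566392) (l 16565856)) (l 16460288)) (b (l 16565416) (l 16376552))) (a (b (l 16372368) (l 16293608)) (b (a (l 16361616) (b (l 16382560) (l 16341128))) (a (b (l 16294376) (l 16264560)) (b (a (l 16300496) (l 16341896)) (l 16261144)))))) (b (a (b (a (l 16568512) (b (l 16589616) (l 16533176))) (a (b (l 16484136) (l 16433624)) (b (a (l 16480528) (l 16500720)) (a (l 16457512) (l 16508216))))) (b (b (a (a (l 16580392) (l 16590504)) (l 518373135)) (a (a (l 16545264) (l 16581296)) (l 515079183))) (a (l 510658575) (b (l 512141327) (l 509565967))))) (a (b (a (b (a (l 16385480) (l 16416256)) (a (l 16377528) (l 16440456))) (l 505947151)) (a (l 502592271) (l 503050255))) (a (b (l 506258447) (a (l 503291151) (l 503398671))) (b (l 506378255) (l 503471375)))))) (b (a (a (b (a (l 16238008) (b (l 16231848) (l 16215472))) (a (b (l 16200600) (l 16198256))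 (b (a (l 16200976) (l 16251256)) (l 16281680)))) (a (b (b (a (l 16235632) (l 16283032)) (l 16299656)) (b (l 16359824) (l 16422952))) (b (l 500641551) (l 500804367)))) (a (b (a (l 501218575) (l 501669903)) (a (l 501378063) (l 501834511))) (a (b (a (l 501911311) (l 502022159)) (l 3)) (l 3)))) (a (a (b (a (b (l 16142248) (l 16294456)) (l 16219712)) (a (l 16241488) (l 505683983))) (a (b (b (l 16487536) (l 16467896)) (a (b (l 16583800) (l 16560424)) (b (l 16560136) (b (l 16602424) (l 507980303))))) (a (a (b (l 502269199) (l 505509647)) (l 503825935)) (l 504064783)))) (a (a (a (l 504361999) (l 504633359)) (l 3)) (l 3))))), by decide +kernel⟩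

def k3_B05mm_202_s1 : ∃ t, chk3 f_B05mm_202_s1 t 14 8 1 = true :=
  ⟨(a (b (b (b (l 16383560) (a (l 16345984) (l 16443784))) (b (a (l 16341456) (b (l 16439120) (l 16437880))) (a (b (l 16342320) (l 16376456)) (l 16389392)))) (b (b (a (l 16416432) (l 16524872)) (a (b (l 16441736) (l 16437608)) (b (l 16544808) (l 16545168)))) (a (b (l 16430464) (a (l 16411200) (l 16459424))) (a (b (l 16517368) (l 16513240)) (b (l 16570656) (l 16570608)))))) (b (b (a (b (l 16525136) (b (l 16536424) (l 16537992))) (b (a (l 16592808) (l 16536040)) (b (l 16530856) (l 16546240)))) (b (a (l 16550032) (l 16647512)) (a (l 16503464) (a (l 16665736) (b (l 16693464) (l 16715808)))))) (b (b (a (l 16546984) (a (l 16701848) (l 16723512))) (a (b (a (l 16620816) (l 16584176)) (l 16561936)) (a (b (l 16709072) (l 16713904)) (l 16729632)))) (a (b (a (l 16624280) (l 16675192)) (a (l 16626200) (l 16681776))) (a (b (l 16721048) (a (l 16719648) (l 16742752)))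 (b (b (l 16731448) (l 16731576)) (b (l 16756272) (l 16742688)))))))), by decide +kernel⟩

def k4_B05mm_202_s1 : ∃ t, chk3 f_B05mm_202_s1 t 14 18 1 = true :=
  ⟨(a (a (b (b (a (l 16428936) (l 16474976)) (l 16405272)) (b (a (l 16523088) (l 16556104)) (l 16512776))) (b (b (a (l 16523064) (l 16575184)) (a (l 16548848) (l 16594776))) (b (a (l 16592976) (b (l 16621360) (a (l 16634848) (l 16651408)))) (a (b (l 16635408) (l 16661344)) (b (l 16622872) (l 16689176)))))) (b (a (b (a (l 16631464) (b (l 16685504) (l 16604640))) (a (b (l 16639928) (a (l 16638608) (l 16661120))) (b (a (l 16678104) (l 16700144)) (l 16691696)))) (b (b (a (a (l 16725552) (l 16744472)) (l 16750976)) (a (l 16690184) (l 16759816))) (a (b (l 16646848) (a (l 16721392) (l 16740000))) (a (b (l 16754064) (l 16755056)) (b (l 16764448) (b (l 16765616) (a (l 16764344) (l 16769096)))))))) (b (a (a (b (a (l 16651688) (l 16670960)) (l 16676240)) (b (l 16614960) (c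 (l 16627744) (l 16625656)))) (a (a (b (l 16727320) (l 16695240)) (b (l 16703264) (l 523825679))) (b (a (l 525793551) (l 527450127)) (l 526498319)))) (a (a (b (l 16611240) (c (l 16632160) (l 16630008))) (a (b (l 16717344) (l 16650608)) (b (l 16648904) (c (l 16726680) (l 16725592))))) (a (a (a (b (l 16744584) (l 523428111)) (b (l 16731576) (a (l 523884303) (l 524378895)))) (b (l 524402447) (l 525709071))) (a (b (l 526298895) (l 527667727)) (l 528593935))))))), by decide +kernel⟩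

def k5_B05mm_202_s1 : ∃ t, chk3 f_B05mm_202_s1 t 14 19 1 = true :=
  ⟨(b (a (b (a (a (l 16641624) (b (l 16659392) (l 16601976))) (a (a (l 16605960) (l 16618824)) (b (l 16709792) (l 16643440)))) (a (a (l 16617304) (l 16716912)) (a (l 16734112) (b (l 16742064) (l 16750464))))) (a (b (a (b (c (l 16650288) (l 16648592)) (b (l 16660352) (l 16750400))) (b (a (l 525539087) (b (l 16736576) (l 526409487))) (a (l 527500559) (l 527879183)))) (a (a (b (l 16754440) (l 16760472)) (l 529448207)) (a (l 529095695) (l 528200207)))) (a (b (a (b (a (b (c (l 16744776) (l 16744312)) (b (l 16758904) (l 526954255))) (a (l 525358351) (l 526412303))) (a (l 528169231) (a (l 528315919) (b (l 528168463) (l 3))))) (b (l 527783951) (l 3))) (a (b (l 529461775) (l 3)) (l 3))) (l 3)))) (a (a (b (b (l 16706328) (l 16615928)) (a (l 16683200) (l 521894159))) (a (b (b (l 16732560) (l 16647624)) (a (l 521772559) (l 521667599))) (b (a (l 525616399) (b (l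 16754392) (l 524412687))) (l 521472527)))) (a (a (b (a (b (l 526267407) (a (l 524173327) (l 524251919))) (b (l 526182671) (l 523994127))) (a (l 521232655) (l 3))) (b (a (l 524718351) (l 3)) (l 3))) (l 3)))), by decide +kernel⟩

def k6_B05mm_202_s1 : ∃ t, chk3 f_B05mm_202_s1 t 15 16 1 = true :=
  ⟨(b (a (b (a (a (l 16546904) (l 16648016)) (a (l 16663392) (l 16643632))) (a (a (l 16657392) (l 16591600)) (a (l 16698936) (b (l 16714696) (b (l 16733752) (l 16743136)))))) (a (b (b (a (l 16702432) (l 14)) (a (l 16635920) (a (l 16740112) (l 14)))) (a (b (a (l 16735888) (b (l 16744000) (l 16749504))) (a (b (l 16743920) (l 16742056)) (b (l 16744992) (l 16749376)))) (b (a (b (l 16714648) (l 16750656)) (b (a (l 16754096) (l 16672952)) (l 16758520))) (a (b (l 16669096) (l 16759208)) (a (b (l 16761080) (l 16766248)) (b (l 16766376) (l 16769024))))))) (b (l 14) (a (b (a (b (l 14) (a (b (l 16765256) (l 16767920)) (l 14))) (l 14)) (a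 (a (b (b (l 16769328) (l 16769960)) (l 16771744)) (a (l 529959951) (l 529987599))) (a (a (l 530018063) (l 530050831)) (b (l 14) (l 3))))) (l 14))))) (a (a (b (a (l 16688952) (b (l 16702904) (l 16723336))) (a (b (l 16717936) (l 16728416)) (b (l 16735648) (l 16739040)))) (b (a (b (l 16729808) (l 16741312)) (b (a (l 16740256) (l 16743688)) (l 16749216))) (a (b (l 16744848) (l 16749176)) (b (a (l 16752656) (l 16756528)) (a (l 16754488) (l 16760072)))))) (a (b (a (b (a (l 16749936) (l 16758056)) (a (b (l 16756832) (l 16759528)) (b (l 16763120) (l 16765312)))) (b (a (b (l 16763992) (l 16766880)) (a (b (l 16768384) (l 16770768)) (l 530410511))) (a (b (l 16768976) (l 16770688)) (a (l 530482191) (l 530413071))))) (a (a (b (b (l 16761352) (l 16763112)) (l 16765752)) (b (l 16767832) (l 529673743))) (a (a (l 529857295) (l 529811983)) (a (l 529756175) (l 3))))) (b (a (a (a (a (l 530670607) (l 530647055)) (a (l 530601487) (l 530553103)))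 (l 3)) (l 3)) (l 3))))), by decide +kernel⟩

def k7_B05mm_202_s1 : ∃ t, chk3 f_B05mm_202_s1 t 15 17 1 = true :=
  ⟨(a (a (b (b (a (l 16732384) (l 16743144)) (a (b (l 16734696) (l 16734328)) (b (l 16742800) (a (l 16657408) (l 16748768))))) (a (b (a (b (l 16732232) (l 16735680)) (b (l 16738240) (l 16744096))) (a (l 16746848) (l 16755504))) (a (l 528627215) (l 528952079)))) (b (b (a (b (l 16750016) (a (l 16748320) (l 16754728))) (a (b (l 16757536) (l 16761408)) (l 529219599))) (a (a (b (l 16667832) (l 16756776)) (l 528613647)) (a (l 528890127) (l 528955663)))) (a (a (l 529231375) (l 529463311)) (a (l 529646351) (l 3))))) (b (a (a (a (b (l 529233423) (l 528976655)) (a (l 529026063) (l 529006607))) (l 3)) (l 3)) (l 3))), by decide +kernel⟩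

def k8_B05mm_202_s1 : ∃ t, chk3 f_B05mm_202_s1 t 15 9 1 = true :=
  ⟨(a (b (a (b (a (a (a (b (l 16760768) (a (a (l 530343951) (l 530343439)) (l 530575119))) (l 531507727)) (l 531031055)) (b (l 531190287) (l 528933647))) (b (a (a (b (a (b (a (l 527803919) (l 528829455)) (l 528303375)) (b (l 528654863) (l 3))) (l 3)) (l 3)) (l 3)) (l 3))) (l 3)) (l 3)) (l 3)), by decide +kernel⟩

def k9_B05mm_202_s1 : ∃ t, chk3 f_B05mm_202_s1 t 7 5 1 = true :=
  ⟨(a (a (b (b (a (b (b (a (l 518339855) (l 518234895)) (l 514990351)) (a (l 510741007) (l 510629135))) (b (a (b (b (l 518944527) (l 517201167)) (l 514749711)) (b (a (l 517877519) (l 517731599)) (l 3))) (a (l 510449679) (l 3)))) (a (b (a (l 506325519) (l 3)) (l 3)) (l 3))) (l 3)) (l 3)) (l 3)), by decide +kernel⟩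

def k10_B05mm_202_s1 : ∃ t, chk3 f_B05mm_202_s1 t 3 3 1 = true :=
  ⟨(b (a (b (a (a (b (b (l 509747215) (l 513203215)) (l 517938703)) (b (a (l 511041807) (b (b (a (a (b (l 508333327) (l 509198351)) (l 3)) (l 3)) (l 3)) (l 3))) (l 3))) (l 3)) (l 3)) (l 3)) (l 3)), by decide +kernel⟩

theorem t11_B05mm_202_s1 : ∃ t, chk3 f_B05mm_202_s1 t 15 8 1 = true := ex3_b k6_B05mm_202_s1 k7_B05mm_202_s1

theorem t12_B05mm_202_s1 : ∃ t, chk3 f_B05mm_202_s1 t 15 4 1 = true := ex3_b t11_B05mm_202_s1 k8_B05mm_202_s1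

theorem t13_B05mm_202_s1 : ∃ t, chk3 f_B05mm_202_s1 t 14 9 1 = true := ex3_b k4_B05mm_202_s1 k5_B05mm_202_s1

theorem t14_B05mm_202_s1 : ∃ t, chk3 f_B05mm_202_s1 t 14 4 1 = true := ex3_b k3_B05mm_202_s1 t13_B05mm_202_s1

theorem t15_B05mm_202_s1 : ∃ t, chk3 f_B05mm_202_s1 t 7 4 1 = true := ex3_a t14_B05mm_202_s1 t12_B05mm_202_s1

theorem t16_B05mm_202_s1 : ∃ t, chk3 f_B05mm_202_s1 t 7 2 1 = true := ex3_b t15_B05mm_202_s1 k9_B05mm_202_s1

theorem t17_B05mm_202_s1 : ∃ t, chk3 f_B05mm_202_s1 t 6 2 1 = true := ex3_b k1_B05mm_202_s1 k2_B05mm_202_s1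

theorem t18_B05mm_202_s1 : ∃ t, chk3 f_B05mm_202_s1 t 3 2 1 = true := ex3_a t17_B05mm_202_s1 t16_B05mm_202_s1

theorem t19_B05mm_202_s1 : ∃ t, chk3 f_B05mm_202_s1 t 3 1 1 = true := ex3_b t18_B05mm_202_s1 k10_B05mm_202_s1

theorem t20_B05mm_202_s1 : ∃ t, chk3 f_B05mm_202_s1 t 1 1 1 = true := ex3_a k0_B05mm_202_s1 t19_B05mm_202_s1

theorem c_B05mm_202_s1 : CertF 0 536870912 1073741824 536870912 1033476505 6710887 false false false .pp 2 0 2
    ndB0q2 ndB5q2 pcB0 cut_B05mm_202_s1 xt_B05mm_202_s1 :=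
  certF1 (fam := false) (s1 := false) (s2 := false) (a := 2) (b := 0) (c := 2) (cn := .pp) (n1 := ndB0q2) (n2 := ndB5q2) (pc := pcB0) (cut := cut_B05mm_202_s1) (xt := xt_B05mm_202_s1) (P1 := 0) (W1 := 536870912) (P2 := 1073741824) (W2 := 536870912) (P3 := 1033476505) (W3 := 6710887)
    rfl (fun _ => rfl) t20_B05mm_202_s1

theorem s_B05mm_202_s1 {κ x : ℝ} (hκ : κ * h0 = ken x) (hx : ((1033476505 : ℕ) : ℝ) / S ≤ x)
    (hx' : x ≤ (((1033476505 : ℕ) : ℝ) + (6710887 : ℕ)) / S)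
    (H : CutB (VFD κ) PP tK tL pcB (Cut.of [[⟨0, 1, 0, 22369621⟩, ⟨1, 0, 0, 22369621⟩, ⟨2, 1, 0, 22369621⟩]]) 2 0 2 0 5 (sgb false) (sgb false) x) :
    AltB (VFD κ) PP tK tL pcB [⟨3, 0, 0, 1449551462⟩] 2 0 2 0 5 (sgb false) (sgb false) x :=
  strip_altBD (m := 1449551462) true rfl hκ (SH.κ0 hκ (SH.hx1 hx).le (SH.hx2 hx').le) (SH.hx1 hx).le (SH.hx2 hx') (covB02).cov (covB52).cov hx hx' c_B05mm_202_s1 H ((okx hx hx').extB (T := tt) (sideB hx hx') hκ rfl rfl (.O 2 false) (.N 2 false) (Or.inl rfl))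

noncomputable def cut_B05mm_203_s1 : Cut := Cut.of [[⟨4, 0, 0, 1449551462⟩]]

noncomputable def xt_B05mm_203_s1 : Ext := strExt dd false false false .u2 .s2m .u0m .up 2 0 3 rfl rfl gf0 vv ndB0q2 ndB5q3

noncomputable def f_B05mm_203_s1 : ℕ → ℕ → ℕ → ℕ → Bool := onCell 0 536870912 0 1230186008 1033476505 6710887
    (rowF 0 false false false .up 2 0 3 (qsf 0 536870912 0 1230186008 0) ndB0q2 ndB5q3 pcB0 cut_B05mm_203_s1 xt_B05mm_203_s1)

def k0_B05mm_203_s1 : ∃ t, chk3 f_B05mm_203_s1 t 1 1 1 = true :=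
  ⟨(b (l 2) (b (l 2) (a (b (a (b (l 2) (a (l 533744143) (a (l 533751567) (b (l 2) (l 3))))) (l 3)) (a (b (a (a (b (b (l 16722328) (l 16717280)) (l 16695664)) (b (l 16743048) (b (l 16743056) (l 16745288)))) (b (a (l 534664719) (l 534689295)) (a (l 535745807) (l 535762447)))) (a (b (a (l 16654296) (l 16735848)) (l 16667944)) (a (b (b (l 16739256) (l 16711736)) (b (l 16701536) (l 16716848))) (b (l 534341903) (b (l 16672560) (a (l 16625656) (l 16614696))))))) (b (a (b (l 3) (l 535808783)) (l 3)) (a (b (l 534987791) (b (l 532288527) (l 530106127))) (b (l 3) (a (l 532270607) (l 3))))))) (l 3)))), by decide +kernel⟩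

theorem c_B05mm_203_s1 : CertF 0 536870912 0 1230186008 1033476505 6710887 false false false .up 2 0 3
    ndB0q2 ndB5q3 pcB0 cut_B05mm_203_s1 xt_B05mm_203_s1 :=
  certF0 (fam := false) (s1 := false) (s2 := false) (a := 2) (b := 0) (c := 3) (cn := .up) (n1 := ndB0q2) (n2 := ndB5q3) (pc := pcB0) (cut := cut_B05mm_203_s1) (xt := xt_B05mm_203_s1) (P1 := 0) (W1 := 536870912) (P2 := 0) (W2 := 1230186008) (P3 := 1033476505) (W3 := 6710887)
    rfl k0_B05mm_203_s1

theorem s_B05mm_203_s1 {κ x : ℝ} (hκ : κ * h0 = ken x) (hx : ((1033476505 : ℕ) : ℝ) / S ≤ x)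
    (hx' : x ≤ (((1033476505 : ℕ) : ℝ) + (6710887 : ℕ)) / S) :
    AltB (VFD κ) PP tK tL pcB [⟨3, 0, 0, 1449551462⟩] 2 0 3 0 5 (sgb false) (sgb false) x :=
  strip_altBD (m := 1449551462) true rfl hκ (SH.κ0 hκ (SH.hx1 hx).le (SH.hx2 hx').le) (SH.hx1 hx).le (SH.hx2 hx') (covB02).cov (covB53).cov hx hx' c_B05mm_203_s1 cutB_nil ((okx hx hx').extB (T := tt) (sideB hx hx') hκ rfl rfl (.O 2 false) (.N 3 false) (Or.inl rfl))

noncomputable def cut_B05mm_213_s1 : Cut := Cut.of [[⟨4, 0, 0, 1449551462⟩]]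

noncomputable def xt_B05mm_213_s1 : Ext := strExt dd false false false .u2 .s2m .u0m .pnn 2 1 3 rfl rfl gf1 vv ndB0q2 ndB5q3

noncomputable def f_B05mm_213_s1 : ℕ → ℕ → ℕ → ℕ → Bool := onCell 0 536870912 0 1230186008 1033476505 6710887
    (rowF 0 false false false .pnn 2 1 3 (qsf 0 536870912 0 1230186008 1) ndB0q2 ndB5q3 pcB1 cut_B05mm_213_s1 xt_B05mm_213_s1)

def k0_B05mm_213_s1 : ∃ t, chk3 f_B05mm_213_s1 t 1 1 1 = true :=
  ⟨(b (a (l 3) (b (l 5) (l 3))) (b (a (b (l 3) (a (l 3) (l 3))) (l 3)) (a (b (a (b (a (b (l 499106831) (l 496555023)) (l 3)) (a (b (l 494065423) (l 491709199)) (b (a (l 493188111) (l 3)) (a (l 490762767) (l 3))))) (l 3)) (b (a (l 1) (a (l 1) (l 3))) (l 1))) (l 3)))), by decide +kernel⟩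

theorem c_B05mm_213_s1 : CertF 0 536870912 0 1230186008 1033476505 6710887 false false false .pnn 2 1 3
    ndB0q2 ndB5q3 pcB1 cut_B05mm_213_s1 xt_B05mm_213_s1 :=
  certF0 (fam := false) (s1 := false) (s2 := false) (a := 2) (b := 1) (c := 3) (cn := .pnn) (n1 := ndB0q2) (n2 := ndB5q3) (pc := pcB1) (cut := cut_B05mm_213_s1) (xt := xt_B05mm_213_s1) (P1 := 0) (W1 := 536870912) (P2 := 0) (W2 := 1230186008) (P3 := 1033476505) (W3 := 6710887)
    rfl k0_B05mm_213_s1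

theorem s_B05mm_213_s1 {κ x : ℝ} (hκ : κ * h0 = ken x) (hx : ((1033476505 : ℕ) : ℝ) / S ≤ x)
    (hx' : x ≤ (((1033476505 : ℕ) : ℝ) + (6710887 : ℕ)) / S) :
    AltB (VFD κ) PP tK tL pcB [⟨3, 0, 0, 1449551462⟩] 2 1 3 0 5 (sgb false) (sgb false) x :=
  strip_altBD (m := 1449551462) true rfl hκ (SH.κ0 hκ (SH.hx1 hx).le (SH.hx2 hx').le) (SH.hx1 hx).le (SH.hx2 hx') (covB02).cov (covB53).cov hx hx' c_B05mm_213_s1 cutB_nil ((okx hx hx').extB (T := tt) (sideB hx hx') hκ rfl rfl (.O 2 false) (.N 3 false) (Or.inr rfl))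

noncomputable def cut_B50pp_001_s1 : Cut := Cut.of [[⟨4, 0, 0, 1449551462⟩]]

noncomputable def xt_B50pp_001_s1 : Ext := strExt dd false true true .s0 .u0 .u0m .up 0 0 1 rfl rfl gf0 vv ndB5q0 ndB0q1

noncomputable def f_B50pp_001_s1 : ℕ → ℕ → ℕ → ℕ → Bool := onCell 0 536870912 536870912 536870912 1033476505 6710887
    (rowF 2 false true true .up 0 0 1 (qsf 0 536870912 536870912 536870912 0) ndB5q0 ndB0q1 pcB0 cut_B50pp_001_s1 xt_B50pp_001_s1)

def k0_B50pp_001_s1 : ∃ t, chk3 f_B50pp_001_s1 t 1 1 1 = true :=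
  ⟨(a (b (l 3) (b (b (l 3) (l 2)) (l 2))) (b (a (l 3) (b (l 3) (a (b (l 3) (a (l 534579215) (l 535802895))) (b (b (a (l 3) (l 530342927)) (a (l 532409103) (l 530001935))) (a (l 533389839) (l 531128079)))))) (b (a (b (a (a (l 3) (l 522084623)) (a (l 526682383) (l 530855439))) (a (b (a (l 2) (l 523964431)) (l 2)) (b (a (l 528165135) (l 531305743)) (b (a (l 275515057319) (l 16663232)) (a (l 2) (l 16599480)))))) (b (a (a (l 534524687) (l 536047631)) (a (l 534023183) (l 531964175))) (a (b (l 534545423) (a (b (l 16684624) (l 16636392)) (b (l 16717520) (l 16686536)))) (b (a (l 16693744) (l 16522088)) (a (l 16623840) (l 16417280)))))) (a (b (a (l 2) (b (a (l 2) (b (l 16423928) (l 2))) (l 2))) (l 2)) (b (a (b (a (l 16490568) (l 16513448)) (b (l 16269968) (l 16097480))) (b (a (l 16500432) (l 16287456)) (a (l 16206096) (l 16064056)))) (b (a (b (a (l 2) (l 16313832)) (l 2)) (b (a (l 16283016) (l 6)) (l 6))) (a (l 2) (l 6)))))))),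 by decide +kernel⟩

theorem c_B50pp_001_s1 : CertF 0 536870912 536870912 536870912 1033476505 6710887 false true true .up 0 0 1
    ndB5q0 ndB0q1 pcB0 cut_B50pp_001_s1 xt_B50pp_001_s1 :=
  certF2 (fam := false) (s1 := true) (s2 := true) (a := 0) (b := 0) (c := 1) (cn := .up) (n1 := ndB5q0) (n2 := ndB0q1) (pc := pcB0) (cut := cut_B50pp_001_s1) (xt := xt_B50pp_001_s1) (P1 := 0) (W1 := 536870912) (P2 := 536870912) (W2 := 536870912) (P3 := 1033476505) (W3 := 6710887)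
    rfl (fun _ => rfl) k0_B50pp_001_s1

theorem s_B50pp_001_s1 {κ x : ℝ} (hκ : κ * h0 = ken x) (hx : ((1033476505 : ℕ) : ℝ) / S ≤ x)
    (hx' : x ≤ (((1033476505 : ℕ) : ℝ) + (6710887 : ℕ)) / S) :
    AltB (VFD κ) PP tK tL pcB [⟨3, 0, 0, 1449551462⟩] 0 0 1 5 0 (sgb true) (sgb true) x :=
  strip_altBD (m := 1449551462) true rfl hκ (SH.κ0 hκ (SH.hx1 hx).le (SH.hx2 hx').le) (SH.hx1 hx).le (SH.hx2 hx') (covB50).cov (covB01).cov hx hx' c_B50pp_001_s1 cutB_nil ((okx hx hx').extB (T := tt) (sideB hx hx') hκ rfl rfl (.N 0 true) (.O 1 true) (Or.inl rfl))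

noncomputable def cut_B50pp_011_s1 : Cut := Cut.of [[⟨4, 0, 0, 1449551462⟩]]

noncomputable def xt_B50pp_011_s1 : Ext := strExt dd false true true .s0 .u0 .u0m .pnn 0 1 1 rfl rfl gf1 vv ndB5q0 ndB0q1

noncomputable def f_B50pp_011_s1 : ℕ → ℕ → ℕ → ℕ → Bool := onCell 536870912 536870912 536870912 536870912 1033476505 6710887
    (rowF 2 false true true .pnn 0 1 1 (qsf 0 536870912 536870912 536870912 1) ndB5q0 ndB0q1 pcB1 cut_B50pp_011_s1 xt_B50pp_011_s1)

def k0_B50pp_011_s1 : ∃ t, chk3 f_B50pp_011_s1 t 1 1 1 = true :=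
  ⟨(a (b (a (b (b (a (l 3) (a (l 503434255) (l 1))) (a (a (l 496076047) (l 499781135)) (a (l 503843855) (l 508174351)))) (a (b (a (b (l 496973327) (l 498060303)) (l 500855311)) (a (b (l 497880335) (l 497824015)) (b (l 501552399) (l 501498895)))) (b (a (l 504738063) (l 508911887)) (b (a (l 505404687) (l 16064344)) (a (l 15924544) (b (l 15936408) (a (l 15848920) (l 15858792)))))))) (b (a (a (b (l 1) (l 512708879)) (l 1)) (l 1)) (a (b (a (l 513255439) (l 517702671)) (a (b (l 16054376) (b (a (l 15937680) (l 15978520)) (l 15949128))) (b (b (l 16123264) (l 16008208)) (l 16104328)))) (b (a (b (l 1) (a (l 16238112) (l 1))) (l 1)) (a (b (l 16082960) (l 16280568)) (l 16283456)))))) (b (a (b (a (b (a (l 497772047) (b (l 15828760) (l 15716464))) (a (b (l 15668552) (a (l 15566112) (l 15488304))) (b (a (l 15620544) (l 15643976)) (l 15638208)))) (b (a (b (l 15690864) (a (l 15694688) (l 15736024))) (b (l 15825608) (l 15839072))) (a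 (l 15748696) (l 15886976)))) (a (b (a (l 15434272) (l 15710264)) (b (l 15739024) (l 15821992))) (b (l 15647672) (a (l 15950440) (l 16076560))))) (b (a (b (l 15895512) (l 16030568)) (b (l 16238568) (l 16276544))) (a (b (l 16097848) (l 6)) (l 6)))) (b (a (b (a (a (l 15888712) (l 15980608)) (l 6)) (a (b (l 15743280) (l 6)) (l 6))) (l 6)) (l 6)))) (b (a (a (b (l 1) (b (l 1) (b (l 1) (l 16500440)))) (l 1)) (l 1)) (b (a (b (l 6) (l 6)) (l 6)) (l 6)))), by decide +kernel⟩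

theorem c_B50pp_011_s1 : CertF 0 536870912 536870912 536870912 1033476505 6710887 false true true .pnn 0 1 1
    ndB5q0 ndB0q1 pcB1 cut_B50pp_011_s1 xt_B50pp_011_s1 :=
  certF2 (fam := false) (s1 := true) (s2 := true) (a := 0) (b := 1) (c := 1) (cn := .pnn) (n1 := ndB5q0) (n2 := ndB0q1) (pc := pcB1) (cut := cut_B50pp_011_s1) (xt := xt_B50pp_011_s1) (P1 := 0) (W1 := 536870912) (P2 := 536870912) (W2 := 536870912) (P3 := 1033476505) (W3 := 6710887)
    rfl (fun _ => rfl) k0_B50pp_011_s1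

theorem s_B50pp_011_s1 {κ x : ℝ} (hκ : κ * h0 = ken x) (hx : ((1033476505 : ℕ) : ℝ) / S ≤ x)
    (hx' : x ≤ (((1033476505 : ℕ) : ℝ) + (6710887 : ℕ)) / S) :
    AltB (VFD κ) PP tK tL pcB [⟨3, 0, 0, 1449551462⟩] 0 1 1 5 0 (sgb true) (sgb true) x :=
  strip_altBD (m := 1449551462) true rfl hκ (SH.κ0 hκ (SH.hx1 hx).le (SH.hx2 hx').le) (SH.hx1 hx).le (SH.hx2 hx') (covB50).cov (covB01).cov hx hx' c_B50pp_011_s1 cutB_nil ((okx hx hx').extB (T := tt) (sideB hx hx') hκ rfl rfl (.N 0 true) (.O 1 true) (Or.inr rfl))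

noncomputable def cut_B50pp_012_s1 : Cut := Cut.of [[⟨4, 0, 0, 1449551462⟩]]

noncomputable def f_B50pp_012_s1 : ℕ → ℕ → ℕ → ℕ → Bool := onCell 0 536870912 0 536870912 1033476505 6710887
    (rowF 0 false true true .pnp 0 1 2 (qsf 0 536870912 0 536870912 1) ndB5q0 ndB0q2 pcB1 cut_B50pp_012_s1 Ext.none)

def k0_B50pp_012_s1 : ∃ t, chk3 f_B50pp_012_s1 t 1 1 1 = true :=
  ⟨(b (l 6) (l 6)), by decide +kernel⟩

theorem c_B50pp_012_s1 : CertF 0 536870912 0 536870912 1033476505 6710887 false true true .pnp 0 1 2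
    ndB5q0 ndB0q2 pcB1 cut_B50pp_012_s1 Ext.none :=
  certF0 (fam := false) (s1 := true) (s2 := true) (a := 0) (b := 1) (c := 2) (cn := .pnp) (n1 := ndB5q0) (n2 := ndB0q2) (pc := pcB1) (cut := cut_B50pp_012_s1) (xt := Ext.none) (P1 := 0) (W1 := 536870912) (P2 := 0) (W2 := 536870912) (P3 := 1033476505) (W3 := 6710887)
    rfl k0_B50pp_012_s1

theorem s_B50pp_012_s1 {κ x : ℝ} (hκ : κ * h0 = ken x) (hx : ((1033476505 : ℕ) : ℝ) / S ≤ x)
    (hx' : x ≤ (((1033476505 : ℕ) : ℝ) + (6710887 : ℕ)) / S) :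
    AltB (VFD κ) PP tK tL pcB [⟨3, 0, 0, 1449551462⟩] 0 1 2 5 0 (sgb true) (sgb true) x :=
  strip_altBD (m := 1449551462) true rfl hκ (SH.κ0 hκ (SH.hx1 hx).le (SH.hx2 hx').le) (SH.hx1 hx).le (SH.hx2 hx') (covB50).cov (covB02).cov hx hx' c_B50pp_012_s1 cutB_nil (noExt_B)

noncomputable def cut_B50pp_022_s1 : Cut := Cut.of [[⟨4, 0, 0, 1449551462⟩]]

noncomputable def f_B50pp_022_s1 : ℕ → ℕ → ℕ → ℕ → Bool := onCell 1073741824 536870912 0 536870912 1033476505 6710887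
    (rowF 2 false true true .pp 0 2 2 (qsf 0 536870912 0 536870912 2) ndB5q0 ndB0q2 pcB2 cut_B50pp_022_s1 Ext.none)

def k0_B50pp_022_s1 : ∃ t, chk3 f_B50pp_022_s1 t 1 1 1 = true :=
  ⟨(l 6), by decide +kernel⟩

theorem c_B50pp_022_s1 : CertF 0 536870912 0 536870912 1033476505 6710887 false true true .pp 0 2 2
    ndB5q0 ndB0q2 pcB2 cut_B50pp_022_s1 Ext.none :=
  certF2 (fam := false) (s1 := true) (s2 := true) (a := 0) (b := 2) (c := 2) (cn := .pp) (n1 := ndB5q0) (n2 := ndB0q2) (pc := pcB2) (cut := cut_B50pp_022_s1) (xt := Ext.none) (P1 := 0) (W1 := 536870912) (P2 := 0) (W2 := 536870912) (P3 := 1033476505) (W3 := 6710887)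
    rfl (fun _ => rfl) k0_B50pp_022_s1

theorem s_B50pp_022_s1 {κ x : ℝ} (hκ : κ * h0 = ken x) (hx : ((1033476505 : ℕ) : ℝ) / S ≤ x)
    (hx' : x ≤ (((1033476505 : ℕ) : ℝ) + (6710887 : ℕ)) / S) :
    AltB (VFD κ) PP tK tL pcB [⟨3, 0, 0, 1449551462⟩] 0 2 2 5 0 (sgb true) (sgb true) x :=
  strip_altBD (m := 1449551462) true rfl hκ (SH.κ0 hκ (SH.hx1 hx).le (SH.hx2 hx').le) (SH.hx1 hx).le (SH.hx2 hx') (covB50).cov (covB02).cov hx hx' c_B50pp_022_s1 cutB_nil (noExt_B)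

noncomputable def cut_B50pp_101_s1 : Cut := Cut.of [[⟨4, 0, 0, 1449551462⟩], [⟨0, 1, 0, 22369621⟩, ⟨1, 0, 0, 22369621⟩, ⟨2, 1, 0, 22369621⟩]]

noncomputable def xt_B50pp_101_s1 : Ext := strExt dd false true true .s0 .u0 .u0m .npn 1 0 1 rfl rfl gf0 vv ndB5q1 ndB0q1

noncomputable def f_B50pp_101_s1 : ℕ → ℕ → ℕ → ℕ → Bool := onCell 0 536870912 536870912 536870912 1033476505 6710887
    (rowF 2 false true true .npn 1 0 1 (qsf 536870912 536870912 536870912 536870912 0) ndB5q1 ndB0q1 pcB0 cut_B50pp_101_s1 xt_B50pp_101_s1)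

def k0_B50pp_101_s1 : ∃ t, chk3 f_B50pp_101_s1 t 2 2 1 = true :=
  ⟨(l 3), by decide +kernel⟩

def k1_B50pp_101_s1 : ∃ t, chk3 f_B50pp_101_s1 t 4 6 1 = true :=
  ⟨(l 3), by decide +kernel⟩

def k2_B50pp_101_s1 : ∃ t, chk3 f_B50pp_101_s1 t 8 7 1 = true :=
  ⟨(b (l 3) (b (b (l 3) (a (l 3) (a (l 3) (b (l 3) (l 529740303))))) (b (a (b (l 3) (a (l 3) (a (l 3) (a (l 3) (l 529193999))))) (a (b (a (l 3) (l 528745743)) (a (l 528797967) (l 528445455))) (b (a (l 528571919) (l 528836623)) (a (l 528322063) (l 528399119))))) (b (a (a (b (l 3) (a (l 3) (a (l 3) (a (l 3) (l 530024463))))) (a (a (b (l 3) (a (l 530182159) (l 530359055))) (b (l 529970959) (l 530180879))) (a (b (l 529638671) (l 529840911)) (l 529383695)))) (a (a (a (l 529102607) (b (l 16763504) (l 16754336))) (b (l 16734016) (b (l 16748024) (l 16744736)))) (a (b (l 16744120) (l 16738128)) (b (l 16734856) (l 16733792))))) (a (a (b (a (l 14) (a (l 14) (a (b (l 529807887)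 (l 14)) (b (l 529926927) (l 16771448))))) (l 14)) (a (b (a (b (l 530112271) (a (l 16769336) (l 16767320))) (b (l 16768712) (l 16764600))) (b (a (l 16764720) (l 16760432)) (l 16768976))) (b (a (b (l 16763824) (l 16760192)) (l 16757368)) (l 16749720)))) (a (a (b (l 16761576) (l 16737664)) (l 16734176)) (a (l 16721576) (l 16707880)))))))), by decide +kernel⟩

def k3_B50pp_101_s1 : ∃ t, chk3 f_B50pp_101_s1 t 9 7 1 = true :=
  ⟨(b (a (l 3) (b (l 3) (a (l 3) (b (l 3) (b (l 3) (a (l 521723663) (l 520280591))))))) (b (b (a (a (l 3) (b (l 3) (a (l 3) (b (l 3) (l 525420047))))) (a (b (a (l 3) (l 526944783)) (a (b (a (b (l 3) (l 525578511)) (b (l 526487311) (a (l 525361423) (l 526532111)))) (a (l 523964431) (a (l 523750671) (l 523952399)))) (b (b (l 527897359) (a (l 527893519) (l 16761272))) (a (l 525795087) (l 16753720))))) (b (a (l 524370703) (l 521745423)) (b (a (l 525502735) (l 522814223)) (a (l 527273231) (l 16716944))))))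 (a (a (b (b (l 3) (l 528938255)) (l 529937679)) (a (b (b (a (l 528832527) (l 526035983)) (a (a (l 527782159) (l 527170575)) (b (l 524516623) (l 525170959)))) (a (l 528473871) (b (l 525993743) (l 16661928)))) (b (b (l 523569167) (b (l 522494479) (l 522321679))) (b (l 522233871) (l 16682456))))) (b (a (a (b (a (l 522170895) (l 522071055)) (a (l 520934415) (l 16635296))) (b (a (l 16693728) (l 16734032)) (a (l 16712264) (l 16710448)))) (a (b (l 16736664) (l 16671536)) (b (l 16717648) (l 16725048)))) (a (a (a (l 16674784) (l 16609784)) (b (l 16690248) (l 16675736))) (a (a (l 16598512) (l 16603272)) (b (l 16709432) (l 16692696))))))) (a (b (b (a (l 529785615) (a (a (l 16744576) (l 16734824)) (a (l 16722216) (l 16706824)))) (a (b (l 529365007) (a (l 16735536) (l 16731872))) (a (l 16723048) (l 16699720)))) (a (b (a (l 16729832) (l 16714136)) (l 16684128)) (b (l 16681744) (l 16560696)))) (a (b (b (a (b (l 16687920) (l 16681424))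 (b (l 16666312) (l 16657240))) (b (l 16574616) (l 16560536))) (b (l 16537368) (l 16592200))) (b (b (a (b (l 16661936) (l 16642416)) (l 16654904)) (l 16515272)) (b (l 16477536) (l 16523760))))))), by decide +kernel⟩

def k4_B50pp_101_s1 : ∃ t, chk3 f_B50pp_101_s1 t 5 3 1 = true :=
  ⟨(b (a (l 3) (b (l 3) (b (l 3) (a (b (l 3) (l 511852559)) (b (b (a (l 3) (l 517162511)) (l 514966543)) (l 511543055)))))) (b (a (a (b (l 3) (b (a (l 3) (l 512214287)) (a (b (l 516379151) (a (l 517923343) (l 515455503))) (b (l 511955727) (l 512084239))))) (b (a (l 511242511) (l 508828431)) (b (a (l 508728079) (l 505986575)) (a (b (l 508282127) (l 508287247)) (b (l 505378575) (l 505276943)))))) (b (a (a (l 507118095) (l 506118415)) (b (l 507592207) (l 504510479))) (a (b (a (l 504002575) (l 502784783)) (a (b (l 503258895) (l 16374000)) (b (l 16348008) (l 16265600)))) (b (l 502366223) (a (b (l 16249336) (b (l 16185144) (l 16157312))) (b (l 16163664)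 (l 16117040))))))) (a (b (a (a (a (b (b (l 518777871) (b (l 16609224) (l 16682432))) (b (l 16683568) (l 16693600))) (b (b (l 516107279) (l 516326159)) (b (l 16638464) (l 16651600)))) (b (b (a (l 513733391) (l 16513784)) (a (l 16538536) (l 16551376))) (b (a (l 16587848) (l 16450032)) (l 16487392)))) (b (b (a (l 508638479) (l 16329528)) (a (a (l 16497512) (l 16440656)) (b (l 16363656) (l 16267184)))) (b (a (b (l 16367504) (l 16469952)) (l 16381272)) (a (l 16517088) (l 16447392))))) (a (b (a (b (a (l 16663128) (l 16677744)) (l 16510504)) (l 16491080)) (a (b (l 16443912) (l 16465992)) (b (l 16532040) (l 16456360)))) (b (a (l 16520944) (l 16536560)) (a (l 16519672) (l 16546736))))) (b (b (a (b (a (a (l 16327392) (l 16270992)) (b (l 16211632) (l 16199072))) (a (b (l 16267000) (l 16273616)) (l 16207400))) (b (a (l 16146392) (l 16107064)) (l 16134312))) (a (b (l 16199784) (l 16349944)) (b (l 16177456) (l 16240056)))) (a (b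 (b (l 16410280) (l 16468392)) (l 16477120)) (b (l 16241840) (l 16445200))))))), by decide +kernel⟩

def k5_B50pp_101_s1 : ∃ t, chk3 f_B50pp_101_s1 t 3 1 1 = true :=
  ⟨(b (a (l 3) (l 1)) (b (a (b (a (a (l 3) (l 522084623)) (a (l 526682383) (l 1))) (a (b (a (l 519094543) (l 523964431)) (a (a (b (a (b (l 517659151) (l 516034319)) (l 518575119)) (a (l 512798223) (l 513723407))) (b (b (l 520455951) (l 519714063)) (l 516257807))) (b (l 523126543) (a (l 16606392) (l 16592200))))) (b (a (l 528165135) (l 344704401671)) (b (a (l 527013647) (l 16661712)) (a (l 16585392) (l 16597896)))))) (b (l 1) (a (b (l 1) (a (l 430066591207) (l 1))) (l 1)))) (a (b (a (b (a (a (b (l 509278735) (l 505953807)) (b (l 511798031) (l 16343224))) (b (l 516405263) (a (l 16318984) (l 16313016)))) (a (b (a (b (l 16264936) (l 16177408)) (b (l 16214696) (l 16140664))) (a (b (l 16115440) (l 16089128)) (l 16086320))) (b (a (l 16084640) (l 16185264)) (l 16093424))))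 (b (a (b (l 16470960) (l 16261632)) (b (l 16506176) (l 16413480))) (a (b (l 16237344) (l 16146896)) (b (l 16320288) (l 16227336))))) (b (a (b (a (b (l 16068384) (l 16069584)) (b (l 16056344) (l 16048056))) (a (b (l 16105704) (l 16161984)) (l 16096928))) (b (a (l 15914400) (l 16150208)) (a (l 16107256) (l 16165560)))) (a (b (a (l 16239528) (l 16189160)) (a (l 16350832) (l 16287344))) (a (b (l 16180632) (l 16261880)) (b (l 16221504) (l 16279336)))))) (b (a (b (a (l 16529848) (l 16594960)) (a (l 16178160) (l 16334080))) (b (l 1) (a (l 16292408) (l 1)))) (b (a (b (l 16023048) (l 16038696)) (b (l 15956168) (l 6))) (a (a (l 16148568) (l 6)) (l 6))))))), by decide +kernel⟩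

theorem t6_B50pp_101_s1 : ∃ t, chk3 f_B50pp_101_s1 t 4 7 1 = true := ex3_a k2_B50pp_101_s1 k3_B50pp_101_s1

theorem t7_B50pp_101_s1 : ∃ t, chk3 f_B50pp_101_s1 t 4 3 1 = true := ex3_b k1_B50pp_101_s1 t6_B50pp_101_s1

theorem t8_B50pp_101_s1 : ∃ t, chk3 f_B50pp_101_s1 t 2 3 1 = true := ex3_a t7_B50pp_101_s1 k4_B50pp_101_s1

theorem t9_B50pp_101_s1 : ∃ t, chk3 f_B50pp_101_s1 t 2 1 1 = true := ex3_b k0_B50pp_101_s1 t8_B50pp_101_s1

theorem t10_B50pp_101_s1 : ∃ t, chk3 f_B50pp_101_s1 t 1 1 1 = true := ex3_a t9_B50pp_101_s1 k5_B50pp_101_s1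

theorem c_B50pp_101_s1 : CertF 536870912 536870912 536870912 536870912 1033476505 6710887 false true true .npn 1 0 1
    ndB5q1 ndB0q1 pcB0 cut_B50pp_101_s1 xt_B50pp_101_s1 :=
  certF2 (fam := false) (s1 := true) (s2 := true) (a := 1) (b := 0) (c := 1) (cn := .npn) (n1 := ndB5q1) (n2 := ndB0q1) (pc := pcB0) (cut := cut_B50pp_101_s1) (xt := xt_B50pp_101_s1) (P1 := 536870912) (W1 := 536870912) (P2 := 536870912) (W2 := 536870912) (P3 := 1033476505) (W3 := 6710887)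
    rfl (fun _ => rfl) t10_B50pp_101_s1

theorem s_B50pp_101_s1 {κ x : ℝ} (hκ : κ * h0 = ken x) (hx : ((1033476505 : ℕ) : ℝ) / S ≤ x)
    (hx' : x ≤ (((1033476505 : ℕ) : ℝ) + (6710887 : ℕ)) / S)
    (H : CutB (VFD κ) PP tK tL pcB (Cut.of [[⟨0, 1, 0, 22369621⟩, ⟨1, 0, 0, 22369621⟩, ⟨2, 1, 0, 22369621⟩]]) 1 0 1 5 0 (sgb true) (sgb true) x) :
    AltB (VFD κ) PP tK tL pcB [⟨3, 0, 0, 1449551462⟩] 1 0 1 5 0 (sgb true) (sgb true) x :=
  strip_altBD (m := 1449551462) true rfl hκ (SH.κ0 hκ (SH.hx1 hx).le (SH.hx2 hx').le) (SH.hx1 hx).le (SH.hx2 hx') (covB51).cov (covB01).cov hx hx' c_B50pp_101_s1 H ((okx hx hx').extB (T := tt) (sideB hx hx') hκ rfl rfl (.N 1 true) (.O 1 true) (Or.inl rfl))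

noncomputable def cut_B50pp_102_s1 : Cut := Cut.of [[⟨4, 0, 0, 1449551462⟩], [⟨0, 1, 0, 33554432⟩, ⟨1, 0, 0, 33554432⟩, ⟨2, 1, 0, 33554432⟩]]

noncomputable def f_B50pp_102_s1 : ℕ → ℕ → ℕ → ℕ → Bool := onCell 0 536870912 0 536870912 1033476505 6710887
    (rowF 2 false true true .npp 1 0 2 (qsf 536870912 536870912 0 536870912 0) ndB5q1 ndB0q2 pcB0 cut_B50pp_102_s1 Ext.none)

def k0_B50pp_102_s1 : ∃ t, chk3 f_B50pp_102_s1 t 2 2 1 = true :=
  ⟨(a (l 6) (l 6)), by decide +kernel⟩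

def k1_B50pp_102_s1 : ∃ t, chk3 f_B50pp_102_s1 t 4 3 1 = true :=
  ⟨(b (a (l 2) (b (l 6) (a (b (l 15016264) (a (l 15065168) (b (l 15125872) (l 15267040)))) (b (l 6) (a (b (l 15013472) (l 15186088)) (l 15019240)))))) (a (b (a (l 2) (a (b (l 2) (b (l 2) (a (l 16191048) (l 16115040)))) (b (b (l 2) (l 15811880)) (b (l 15982872) (l 16138816))))) (a (a (b (l 2) (l 14)) (b (a (b (l 2) (l 14)) (b (b (l 2) (l 16318080)) (b (l 16382640) (l 16451752)))) (a (l 14) (a (l 14) (a (l 14) (b (l 16557704) (l 16599952))))))) (a (b (a (b (l 16303728) (l 16418656)) (b (l 16220176) (l 16411096))) (b (a (b (l 16516656) (l 16583568)) (b (l 16502720) (l 16480576))) (b (l 16550808) (l 16630624)))) (b (b (l 16255904) (l 16374064)) (b (b (l 16474128) (l 16536304)) (b (l 16601128) (l 16579592))))))) (b (b (a (a (b (l 15535608) (l 15718896)) (l 15548072)) (b (l 15350600) (l 15555104))) (a (b (l 15699248) (a (l 16071104) (l 16017016))) (b (l 15757976)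 (l 15947040)))) (b (a (b (a (l 16202384) (l 16158792)) (a (l 16336992) (l 16301608))) (b (l 16098400) (a (l 16261768) (l 16214456)))) (a (b (a (l 16467232) (l 16434544)) (a (l 16516200) (l 16562152))) (a (l 16287336) (b (l 16339576) (l 16365272)))))))), by decide +kernel⟩

def k2_B50pp_102_s1 : ∃ t, chk3 f_B50pp_102_s1 t 5 3 1 = true :=
  ⟨(b (a (b (l 6) (a (b (l 6) (l 14931088)) (l 6))) (l 6)) (b (a (b (a (l 15177336) (a (l 15255944) (l 15179504))) (a (b (l 15656312) (l 15846968)) (b (l 15520080) (l 15464472)))) (b (l 6) (a (b (l 15445048) (l 15427376)) (l 15369376)))) (a (b (a (b (a (l 16028840) (l 15967336)) (a (l 16156520) (l 16087504))) (b (a (l 15908680) (l 15877480)) (l 15865600))) (a (a (b (l 16270520) (l 16384920)) (b (l 16214080) (l 16344992))) (a (b (l 16185432) (l 16344056)) (l 16203152)))) (b (a (b (a (l 15883032) (l 15917072)) (l 16071536)) (b (l 15965544) (l 16134416))) (a (l 16158144) (l 16384384)))))),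 by decide +kernel⟩

def k3_B50pp_102_s1 : ∃ t, chk3 f_B50pp_102_s1 t 3 1 1 = true :=
  ⟨(b (l 6) (b (l 6) (a (b (l 6) (b (a (b (a (l 6) (l 6)) (l 16213552)) (l 6)) (a (a (l 16427544) (l 16446312)) (a (l 16432168) (l 6))))) (l 6)))), by decide +kernel⟩

theorem t4_B50pp_102_s1 : ∃ t, chk3 f_B50pp_102_s1 t 2 3 1 = true := ex3_a k1_B50pp_102_s1 k2_B50pp_102_s1

theorem t5_B50pp_102_s1 : ∃ t, chk3 f_B50pp_102_s1 t 2 1 1 = true := ex3_b k0_B50pp_102_s1 t4_B50pp_102_s1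

theorem t6_B50pp_102_s1 : ∃ t, chk3 f_B50pp_102_s1 t 1 1 1 = true := ex3_a t5_B50pp_102_s1 k3_B50pp_102_s1

theorem c_B50pp_102_s1 : CertF 536870912 536870912 0 536870912 1033476505 6710887 false true true .npp 1 0 2
    ndB5q1 ndB0q2 pcB0 cut_B50pp_102_s1 Ext.none :=
  certF2 (fam := false) (s1 := true) (s2 := true) (a := 1) (b := 0) (c := 2) (cn := .npp) (n1 := ndB5q1) (n2 := ndB0q2) (pc := pcB0) (cut := cut_B50pp_102_s1) (xt := Ext.none) (P1 := 536870912) (W1 := 536870912) (P2 := 0) (W2 := 536870912) (P3 := 1033476505) (W3 := 6710887)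
    rfl (fun _ => rfl) t6_B50pp_102_s1

theorem s_B50pp_102_s1 {κ x : ℝ} (hκ : κ * h0 = ken x) (hx : ((1033476505 : ℕ) : ℝ) / S ≤ x)
    (hx' : x ≤ (((1033476505 : ℕ) : ℝ) + (6710887 : ℕ)) / S)
    (H : CutB (VFD κ) PP tK tL pcB (Cut.of [[⟨0, 1, 0, 33554432⟩, ⟨1, 0, 0, 33554432⟩, ⟨2, 1, 0, 33554432⟩]]) 1 0 2 5 0 (sgb true) (sgb true) x) :
    AltB (VFD κ) PP tK tL pcB [⟨3, 0, 0, 1449551462⟩] 1 0 2 5 0 (sgb true) (sgb true) x :=
  strip_altBD (m := 1449551462) true rfl hκ (SH.κ0 hκ (SH.hx1 hx).le (SH.hx2 hx').le) (SH.hx1 hx).le (SH.hx2 hx') (covB51).cov (covB02).cov hx hx' c_B50pp_102_s1 H (noExt_B)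

noncomputable def cut_B50pp_112_s1 : Cut := Cut.of [[⟨4, 0, 0, 1449551462⟩]]

noncomputable def f_B50pp_112_s1 : ℕ → ℕ → ℕ → ℕ → Bool := onCell 536870912 536870912 0 536870912 1033476505 6710887
    (rowF 2 false true true .dn 1 1 2 (qsf 536870912 536870912 0 536870912 1) ndB5q1 ndB0q2 pcB1 cut_B50pp_112_s1 Ext.none)

def k0_B50pp_112_s1 : ∃ t, chk3 f_B50pp_112_s1 t 1 1 1 = true :=
  ⟨(b (l 6) (l 6)), by decide +kernel⟩

theorem c_B50pp_112_s1 : CertF 536870912 536870912 0 536870912 1033476505 6710887 false true true .dn 1 1 2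
    ndB5q1 ndB0q2 pcB1 cut_B50pp_112_s1 Ext.none :=
  certF2 (fam := false) (s1 := true) (s2 := true) (a := 1) (b := 1) (c := 2) (cn := .dn) (n1 := ndB5q1) (n2 := ndB0q2) (pc := pcB1) (cut := cut_B50pp_112_s1) (xt := Ext.none) (P1 := 536870912) (W1 := 536870912) (P2 := 0) (W2 := 536870912) (P3 := 1033476505) (W3 := 6710887)
    rfl (fun _ => rfl) k0_B50pp_112_s1

theorem s_B50pp_112_s1 {κ x : ℝ} (hκ : κ * h0 = ken x) (hx : ((1033476505 : ℕ) : ℝ) / S ≤ x)
    (hx' : x ≤ (((1033476505 : ℕ) : ℝ) + (6710887 : ℕ)) / S) :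
    AltB (VFD κ) PP tK tL pcB [⟨3, 0, 0, 1449551462⟩] 1 1 2 5 0 (sgb true) (sgb true) x :=
  strip_altBD (m := 1449551462) true rfl hκ (SH.κ0 hκ (SH.hx1 hx).le (SH.hx2 hx').le) (SH.hx1 hx).le (SH.hx2 hx') (covB51).cov (covB02).cov hx hx' c_B50pp_112_s1 cutB_nil (noExt_B)

noncomputable def cut_B50pp_202_s1 : Cut := Cut.of [[⟨4, 0, 0, 1449551462⟩], [⟨0, 1, 0, 33554432⟩, ⟨1, 0, 0, 33554432⟩, ⟨2, 1, 0, 33554432⟩]]

noncomputable def f_B50pp_202_s1 : ℕ → ℕ → ℕ → ℕ → Bool := onCell 0 536870912 0 536870912 1033476505 6710887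
    (rowF 2 false true true .pp 2 0 2 (qsf 1073741824 536870912 0 536870912 0) ndB5q2 ndB0q2 pcB0 cut_B50pp_202_s1 Ext.none)

def k0_B50pp_202_s1 : ∃ t, chk3 f_B50pp_202_s1 t 1 1 1 = true :=
  ⟨(a (b (a (l 6) (l 6)) (a (b (a (b (b (a (a (l 15869832) (l 6)) (l 6)) (a (a (l 15912824) (a (l 15791280) (l 15721600))) (a (a (l 15686504) (l 15641920)) (l 6)))) (a (a (b (l 15983352) (l 16116336)) (a (b (l 15849848) (l 15972736)) (b (l 15775288) (l 15894160)))) (a (a (b (l 15739824) (l 15859792)) (b (l 15695088) (l 15815976))) (b (l 15524720) (l 15638352))))) (b (l 6) (a (b (l 15141088) (a (l 15300376) (b (l 15076248) (l 1)))) (b (l 6) (l 1))))) (a (b (a (a (b (l 16038360) (b (l 16428472) (a (l 16471384) (b (l 16447304) (l 16475136))))) (b (a (l 16137672) (l 16056608)) (a (b (l 16275184) (l 16186336)) (b (a (l 16202176) (l 16185104)) (l 16284224))))) (a (b (a (b (l 15980712) (l 16070800)) (b (l 15938440) (l 16027592))) (a (b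 (l 16162888) (l 16248680)) (b (l 16118704) (l 16196368)))) (b (b (l 15760248) (l 15848872)) (b (l 15952872) (l 16043296))))) (a (a (b (b (a (b (l 16581912) (l 16596992)) (l 16420600)) (l 14)) (l 14)) (b (b (a (l 16412120) (b (l 16326336) (l 16350280))) (a (l 14) (l 16313392))) (a (l 14) (l 1)))) (a (b (a (b (l 16293904) (l 1)) (l 1)) (l 1)) (l 1)))) (b (b (a (a (b (l 15502784) (l 15620104)) (l 1)) (l 1)) (l 1)) (l 1)))) (b (l 1) (l 1)))) (l 1)), by decide +kernel⟩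

theorem c_B50pp_202_s1 : CertF 1073741824 536870912 0 536870912 1033476505 6710887 false true true .pp 2 0 2
    ndB5q2 ndB0q2 pcB0 cut_B50pp_202_s1 Ext.none :=
  certF2 (fam := false) (s1 := true) (s2 := true) (a := 2) (b := 0) (c := 2) (cn := .pp) (n1 := ndB5q2) (n2 := ndB0q2) (pc := pcB0) (cut := cut_B50pp_202_s1) (xt := Ext.none) (P1 := 1073741824) (W1 := 536870912) (P2 := 0) (W2 := 536870912) (P3 := 1033476505) (W3 := 6710887)
    rfl (fun _ => rfl) k0_B50pp_202_s1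

theorem s_B50pp_202_s1 {κ x : ℝ} (hκ : κ * h0 = ken x) (hx : ((1033476505 : ℕ) : ℝ) / S ≤ x)
    (hx' : x ≤ (((1033476505 : ℕ) : ℝ) + (6710887 : ℕ)) / S)
    (H : CutB (VFD κ) PP tK tL pcB (Cut.of [[⟨0, 1, 0, 33554432⟩, ⟨1, 0, 0, 33554432⟩, ⟨2, 1, 0, 33554432⟩]]) 2 0 2 5 0 (sgb true) (sgb true) x) :
    AltB (VFD κ) PP tK tL pcB [⟨3, 0, 0, 1449551462⟩] 2 0 2 5 0 (sgb true) (sgb true) x :=
  strip_altBD (m := 1449551462) true rfl hκ (SH.κ0 hκ (SH.hx1 hx).le (SH.hx2 hx').le) (SH.hx1 hx).le (SH.hx2 hx') (covB52).cov (covB02).cov hx hx' c_B50pp_202_s1 H (noExt_B)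

noncomputable def cut_B50pm_001_s1 : Cut := Cut.of [[⟨4, 0, 0, 1449551462⟩]]

noncomputable def f_B50pm_001_s1 : ℕ → ℕ → ℕ → ℕ → Bool := onCell 0 536870912 536870912 536870912 1033476505 6710887
    (rowF 0 false true false .up 0 0 1 (qsf 0 536870912 536870912 536870912 0) ndB5q0 ndB0q1 pcB0 cut_B50pm_001_s1 Ext.none)

def k0_B50pm_001_s1 : ∃ t, chk3 f_B50pm_001_s1 t 1 1 1 = true :=
  ⟨(l 4), by decide +kernel⟩

theorem c_B50pm_001_s1 : CertF 0 536870912 536870912 536870912 1033476505 6710887 false true false .up 0 0 1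
    ndB5q0 ndB0q1 pcB0 cut_B50pm_001_s1 Ext.none :=
  certF0 (fam := false) (s1 := true) (s2 := false) (a := 0) (b := 0) (c := 1) (cn := .up) (n1 := ndB5q0) (n2 := ndB0q1) (pc := pcB0) (cut := cut_B50pm_001_s1) (xt := Ext.none) (P1 := 0) (W1 := 536870912) (P2 := 536870912) (W2 := 536870912) (P3 := 1033476505) (W3 := 6710887)
    rfl k0_B50pm_001_s1

theorem s_B50pm_001_s1 {κ x : ℝ} (hκ : κ * h0 = ken x) (hx : ((1033476505 : ℕ) : ℝ) / S ≤ x)
    (hx' : x ≤ (((1033476505 : ℕ) : ℝ) + (6710887 : ℕ)) / S) :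
    AltB (VFD κ) PP tK tL pcB [⟨3, 0, 0, 1449551462⟩] 0 0 1 5 0 (sgb true) (sgb false) x :=
  strip_altBD (m := 1449551462) true rfl hκ (SH.κ0 hκ (SH.hx1 hx).le (SH.hx2 hx').le) (SH.hx1 hx).le (SH.hx2 hx') (covB50).cov (covB01).cov hx hx' c_B50pm_001_s1 cutB_nil (noExt_B)

noncomputable def cut_B50pm_011_s1 : Cut := Cut.of [[⟨4, 0, 0, 1449551462⟩]]

noncomputable def f_B50pm_011_s1 : ℕ → ℕ → ℕ → ℕ → Bool := onCell 0 536870912 536870912 536870912 1033476505 6710887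
    (rowF 0 false true false .pnn 0 1 1 (qsf 0 536870912 536870912 536870912 1) ndB5q0 ndB0q1 pcB1 cut_B50pm_011_s1 Ext.none)

def k0_B50pm_011_s1 : ∃ t, chk3 f_B50pm_011_s1 t 1 1 1 = true :=
  ⟨(l 4), by decide +kernel⟩

theorem c_B50pm_011_s1 : CertF 0 536870912 536870912 536870912 1033476505 6710887 false true false .pnn 0 1 1
    ndB5q0 ndB0q1 pcB1 cut_B50pm_011_s1 Ext.none :=
  certF0 (fam := false) (s1 := true) (s2 := false) (a := 0) (b := 1) (c := 1) (cn := .pnn) (n1 := ndB5q0) (n2 := ndB0q1) (pc := pcB1) (cut := cut_B50pm_011_s1) (xt := Ext.none) (P1 := 0) (W1 := 536870912) (P2 := 536870912) (W2 := 536870912) (P3 := 1033476505) (W3 := 6710887)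
    rfl k0_B50pm_011_s1

theorem s_B50pm_011_s1 {κ x : ℝ} (hκ : κ * h0 = ken x) (hx : ((1033476505 : ℕ) : ℝ) / S ≤ x)
    (hx' : x ≤ (((1033476505 : ℕ) : ℝ) + (6710887 : ℕ)) / S) :
    AltB (VFD κ) PP tK tL pcB [⟨3, 0, 0, 1449551462⟩] 0 1 1 5 0 (sgb true) (sgb false) x :=
  strip_altBD (m := 1449551462) true rfl hκ (SH.κ0 hκ (SH.hx1 hx).le (SH.hx2 hx').le) (SH.hx1 hx).le (SH.hx2 hx') (covB50).cov (covB01).cov hx hx' c_B50pm_011_s1 cutB_nil (noExt_B)

noncomputable def cut_B50pm_012_s1 : Cut := Cut.of [[⟨4, 0, 0, 1449551462⟩]]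

noncomputable def f_B50pm_012_s1 : ℕ → ℕ → ℕ → ℕ → Bool := onCell 0 536870912 0 536870912 1033476505 6710887
    (rowF 0 false true false .pnp 0 1 2 (qsf 0 536870912 0 536870912 1) ndB5q0 ndB0q2 pcB1 cut_B50pm_012_s1 Ext.none)

def k0_B50pm_012_s1 : ∃ t, chk3 f_B50pm_012_s1 t 1 1 1 = true :=
  ⟨(l 6), by decide +kernel⟩

theorem c_B50pm_012_s1 : CertF 0 536870912 0 536870912 1033476505 6710887 false true false .pnp 0 1 2
    ndB5q0 ndB0q2 pcB1 cut_B50pm_012_s1 Ext.none :=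
  certF0 (fam := false) (s1 := true) (s2 := false) (a := 0) (b := 1) (c := 2) (cn := .pnp) (n1 := ndB5q0) (n2 := ndB0q2) (pc := pcB1) (cut := cut_B50pm_012_s1) (xt := Ext.none) (P1 := 0) (W1 := 536870912) (P2 := 0) (W2 := 536870912) (P3 := 1033476505) (W3 := 6710887)
    rfl k0_B50pm_012_s1

theorem s_B50pm_012_s1 {κ x : ℝ} (hκ : κ * h0 = ken x) (hx : ((1033476505 : ℕ) : ℝ) / S ≤ x)
    (hx' : x ≤ (((1033476505 : ℕ) : ℝ) + (6710887 : ℕ)) / S) :
    AltB (VFD κ) PP tK tL pcB [⟨3, 0, 0, 1449551462⟩] 0 1 2 5 0 (sgb true) (sgb false) x :=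
  strip_altBD (m := 1449551462) true rfl hκ (SH.κ0 hκ (SH.hx1 hx).le (SH.hx2 hx').le) (SH.hx1 hx).le (SH.hx2 hx') (covB50).cov (covB02).cov hx hx' c_B50pm_012_s1 cutB_nil (noExt_B)

noncomputable def cut_B50pm_022_s1 : Cut := Cut.of [[⟨4, 0, 0, 1449551462⟩]]

noncomputable def f_B50pm_022_s1 : ℕ → ℕ → ℕ → ℕ → Bool := onCell 0 536870912 0 536870912 1033476505 6710887
    (rowF 0 false true false .pp 0 2 2 (qsf 0 536870912 0 536870912 2) ndB5q0 ndB0q2 pcB2 cut_B50pm_022_s1 Ext.none)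

def k0_B50pm_022_s1 : ∃ t, chk3 f_B50pm_022_s1 t 1 1 1 = true :=
  ⟨(l 6), by decide +kernel⟩

theorem c_B50pm_022_s1 : CertF 0 536870912 0 536870912 1033476505 6710887 false true false .pp 0 2 2
    ndB5q0 ndB0q2 pcB2 cut_B50pm_022_s1 Ext.none :=
  certF0 (fam := false) (s1 := true) (s2 := false) (a := 0) (b := 2) (c := 2) (cn := .pp) (n1 := ndB5q0) (n2 := ndB0q2) (pc := pcB2) (cut := cut_B50pm_022_s1) (xt := Ext.none) (P1 := 0) (W1 := 536870912) (P2 := 0) (W2 := 536870912) (P3 := 1033476505) (W3 := 6710887)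
    rfl k0_B50pm_022_s1

theorem s_B50pm_022_s1 {κ x : ℝ} (hκ : κ * h0 = ken x) (hx : ((1033476505 : ℕ) : ℝ) / S ≤ x)
    (hx' : x ≤ (((1033476505 : ℕ) : ℝ) + (6710887 : ℕ)) / S) :
    AltB (VFD κ) PP tK tL pcB [⟨3, 0, 0, 1449551462⟩] 0 2 2 5 0 (sgb true) (sgb false) x :=
  strip_altBD (m := 1449551462) true rfl hκ (SH.κ0 hκ (SH.hx1 hx).le (SH.hx2 hx').le) (SH.hx1 hx).le (SH.hx2 hx') (covB50).cov (covB02).cov hx hx' c_B50pm_022_s1 cutB_nil (noExt_B)

noncomputable def cut_B50pm_101_s1 : Cut := Cut.of [[⟨4, 0, 0, 1449551462⟩]]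

noncomputable def f_B50pm_101_s1 : ℕ → ℕ → ℕ → ℕ → Bool := onCell 536870912 536870912 536870912 536870912 1033476505 6710887
    (rowF 0 false true false .npn 1 0 1 (qsf 536870912 536870912 536870912 536870912 0) ndB5q1 ndB0q1 pcB0 cut_B50pm_101_s1 Ext.none)

def k0_B50pm_101_s1 : ∃ t, chk3 f_B50pm_101_s1 t 1 1 1 = true :=
  ⟨(l 4), by decide +kernel⟩

theorem c_B50pm_101_s1 : CertF 536870912 536870912 536870912 536870912 1033476505 6710887 false true false .npn 1 0 1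
    ndB5q1 ndB0q1 pcB0 cut_B50pm_101_s1 Ext.none :=
  certF0 (fam := false) (s1 := true) (s2 := false) (a := 1) (b := 0) (c := 1) (cn := .npn) (n1 := ndB5q1) (n2 := ndB0q1) (pc := pcB0) (cut := cut_B50pm_101_s1) (xt := Ext.none) (P1 := 536870912) (W1 := 536870912) (P2 := 536870912) (W2 := 536870912) (P3 := 1033476505) (W3 := 6710887)
    rfl k0_B50pm_101_s1

theorem s_B50pm_101_s1 {κ x : ℝ} (hκ : κ * h0 = ken x) (hx : ((1033476505 : ℕ) : ℝ) / S ≤ x)
    (hx' : x ≤ (((1033476505 : ℕ) : ℝ) + (6710887 : ℕ)) / S) :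
    AltB (VFD κ) PP tK tL pcB [⟨3, 0, 0, 1449551462⟩] 1 0 1 5 0 (sgb true) (sgb false) x :=
  strip_altBD (m := 1449551462) true rfl hκ (SH.κ0 hκ (SH.hx1 hx).le (SH.hx2 hx').le) (SH.hx1 hx).le (SH.hx2 hx') (covB51).cov (covB01).cov hx hx' c_B50pm_101_s1 cutB_nil (noExt_B)

noncomputable def cut_B50pm_102_s1 : Cut := Cut.of [[⟨4, 0, 0, 1449551462⟩]]

noncomputable def f_B50pm_102_s1 : ℕ → ℕ → ℕ → ℕ → Bool := onCell 536870912 536870912 0 536870912 1033476505 6710887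
    (rowF 0 false true false .npp 1 0 2 (qsf 536870912 536870912 0 536870912 0) ndB5q1 ndB0q2 pcB0 cut_B50pm_102_s1 Ext.none)

def k0_B50pm_102_s1 : ∃ t, chk3 f_B50pm_102_s1 t 1 1 1 = true :=
  ⟨(l 6), by decide +kernel⟩

theorem c_B50pm_102_s1 : CertF 536870912 536870912 0 536870912 1033476505 6710887 false true false .npp 1 0 2
    ndB5q1 ndB0q2 pcB0 cut_B50pm_102_s1 Ext.none :=
  certF0 (fam := false) (s1 := true) (s2 := false) (a := 1) (b := 0) (c := 2) (cn := .npp) (n1 := ndB5q1) (n2 := ndB0q2) (pc := pcB0) (cut := cut_B50pm_102_s1) (xt := Ext.none) (P1 := 536870912) (W1 := 536870912) (P2 := 0) (W2 := 536870912) (P3 := 1033476505) (W3 := 6710887)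
    rfl k0_B50pm_102_s1

theorem s_B50pm_102_s1 {κ x : ℝ} (hκ : κ * h0 = ken x) (hx : ((1033476505 : ℕ) : ℝ) / S ≤ x)
    (hx' : x ≤ (((1033476505 : ℕ) : ℝ) + (6710887 : ℕ)) / S) :
    AltB (VFD κ) PP tK tL pcB [⟨3, 0, 0, 1449551462⟩] 1 0 2 5 0 (sgb true) (sgb false) x :=
  strip_altBD (m := 1449551462) true rfl hκ (SH.κ0 hκ (SH.hx1 hx).le (SH.hx2 hx').le) (SH.hx1 hx).le (SH.hx2 hx') (covB51).cov (covB02).cov hx hx' c_B50pm_102_s1 cutB_nil (noExt_B)

noncomputable def cut_B50pm_112_s1 : Cut := Cut.of [[⟨4, 0, 0, 1449551462⟩]]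

noncomputable def f_B50pm_112_s1 : ℕ → ℕ → ℕ → ℕ → Bool := onCell 536870912 536870912 0 536870912 1033476505 6710887
    (rowF 0 false true false .dn 1 1 2 (qsf 536870912 536870912 0 536870912 1) ndB5q1 ndB0q2 pcB1 cut_B50pm_112_s1 Ext.none)

def k0_B50pm_112_s1 : ∃ t, chk3 f_B50pm_112_s1 t 1 1 1 = true :=
  ⟨(l 6), by decide +kernel⟩

theorem c_B50pm_112_s1 : CertF 536870912 536870912 0 536870912 1033476505 6710887 false true false .dn 1 1 2
    ndB5q1 ndB0q2 pcB1 cut_B50pm_112_s1 Ext.none :=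
  certF0 (fam := false) (s1 := true) (s2 := false) (a := 1) (b := 1) (c := 2) (cn := .dn) (n1 := ndB5q1) (n2 := ndB0q2) (pc := pcB1) (cut := cut_B50pm_112_s1) (xt := Ext.none) (P1 := 536870912) (W1 := 536870912) (P2 := 0) (W2 := 536870912) (P3 := 1033476505) (W3 := 6710887)
    rfl k0_B50pm_112_s1

theorem s_B50pm_112_s1 {κ x : ℝ} (hκ : κ * h0 = ken x) (hx : ((1033476505 : ℕ) : ℝ) / S ≤ x)
    (hx' : x ≤ (((1033476505 : ℕ) : ℝ) + (6710887 : ℕ)) / S) :
    AltB (VFD κ) PP tK tL pcB [⟨3, 0, 0, 1449551462⟩] 1 1 2 5 0 (sgb true) (sgb false) x :=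
  strip_altBD (m := 1449551462) true rfl hκ (SH.κ0 hκ (SH.hx1 hx).le (SH.hx2 hx').le) (SH.hx1 hx).le (SH.hx2 hx') (covB51).cov (covB02).cov hx hx' c_B50pm_112_s1 cutB_nil (noExt_B)

noncomputable def cut_B50pm_202_s1 : Cut := Cut.of [[⟨4, 0, 0, 1449551462⟩]]

noncomputable def f_B50pm_202_s1 : ℕ → ℕ → ℕ → ℕ → Bool := onCell 0 536870912 0 536870912 1033476505 6710887
    (rowF 2 false true false .pp 2 0 2 (qsf 1073741824 536870912 0 536870912 0) ndB5q2 ndB0q2 pcB0 cut_B50pm_202_s1 Ext.none)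

def k0_B50pm_202_s1 : ∃ t, chk3 f_B50pm_202_s1 t 1 1 1 = true :=
  ⟨(l 6), by decide +kernel⟩

theorem c_B50pm_202_s1 : CertF 1073741824 536870912 0 536870912 1033476505 6710887 false true false .pp 2 0 2
    ndB5q2 ndB0q2 pcB0 cut_B50pm_202_s1 Ext.none :=
  certF2 (fam := false) (s1 := true) (s2 := false) (a := 2) (b := 0) (c := 2) (cn := .pp) (n1 := ndB5q2) (n2 := ndB0q2) (pc := pcB0) (cut := cut_B50pm_202_s1) (xt := Ext.none) (P1 := 1073741824) (W1 := 536870912) (P2 := 0) (W2 := 536870912) (P3 := 1033476505) (W3 := 6710887)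
    rfl (fun _ => rfl) k0_B50pm_202_s1

theorem s_B50pm_202_s1 {κ x : ℝ} (hκ : κ * h0 = ken x) (hx : ((1033476505 : ℕ) : ℝ) / S ≤ x)
    (hx' : x ≤ (((1033476505 : ℕ) : ℝ) + (6710887 : ℕ)) / S) :
    AltB (VFD κ) PP tK tL pcB [⟨3, 0, 0, 1449551462⟩] 2 0 2 5 0 (sgb true) (sgb false) x :=
  strip_altBD (m := 1449551462) true rfl hκ (SH.κ0 hκ (SH.hx1 hx).le (SH.hx2 hx').le) (SH.hx1 hx).le (SH.hx2 hx') (covB52).cov (covB02).cov hx hx' c_B50pm_202_s1 cutB_nil (noExt_B)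

noncomputable def cut_B50mm_001_s1 : Cut := Cut.of [[⟨4, 0, 0, 1449551462⟩]]

noncomputable def f_B50mm_001_s1 : ℕ → ℕ → ℕ → ℕ → Bool := onCell 0 536870912 536870912 536870912 1033476505 6710887
    (rowF 0 false false false .up 0 0 1 (qsf 0 536870912 536870912 536870912 0) ndB5q0 ndB0q1 pcB0 cut_B50mm_001_s1 Ext.none)

def k0_B50mm_001_s1 : ∃ t, chk3 f_B50mm_001_s1 t 1 1 1 = true :=
  ⟨(l 5), by decide +kernel⟩

theorem c_B50mm_001_s1 : CertF 0 536870912 536870912 536870912 1033476505 6710887 false false false .up 0 0 1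
    ndB5q0 ndB0q1 pcB0 cut_B50mm_001_s1 Ext.none :=
  certF0 (fam := false) (s1 := false) (s2 := false) (a := 0) (b := 0) (c := 1) (cn := .up) (n1 := ndB5q0) (n2 := ndB0q1) (pc := pcB0) (cut := cut_B50mm_001_s1) (xt := Ext.none) (P1 := 0) (W1 := 536870912) (P2 := 536870912) (W2 := 536870912) (P3 := 1033476505) (W3 := 6710887)
    rfl k0_B50mm_001_s1

theorem s_B50mm_001_s1 {κ x : ℝ} (hκ : κ * h0 = ken x) (hx : ((1033476505 : ℕ) : ℝ) / S ≤ x)
    (hx' : x ≤ (((1033476505 : ℕ) : ℝ) + (6710887 : ℕ)) / S) :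
    AltB (VFD κ) PP tK tL pcB [⟨3, 0, 0, 1449551462⟩] 0 0 1 5 0 (sgb false) (sgb false) x :=
  strip_altBD (m := 1449551462) true rfl hκ (SH.κ0 hκ (SH.hx1 hx).le (SH.hx2 hx').le) (SH.hx1 hx).le (SH.hx2 hx') (covB50).cov (covB01).cov hx hx' c_B50mm_001_s1 cutB_nil (noExt_B)

noncomputable def cut_B50mm_011_s1 : Cut := Cut.of [[⟨4, 0, 0, 1449551462⟩]]

noncomputable def f_B50mm_011_s1 : ℕ → ℕ → ℕ → ℕ → Bool := onCell 0 536870912 536870912 536870912 1033476505 6710887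
    (rowF 0 false false false .pnn 0 1 1 (qsf 0 536870912 536870912 536870912 1) ndB5q0 ndB0q1 pcB1 cut_B50mm_011_s1 Ext.none)

def k0_B50mm_011_s1 : ∃ t, chk3 f_B50mm_011_s1 t 1 1 1 = true :=
  ⟨(l 5), by decide +kernel⟩

theorem c_B50mm_011_s1 : CertF 0 536870912 536870912 536870912 1033476505 6710887 false false false .pnn 0 1 1
    ndB5q0 ndB0q1 pcB1 cut_B50mm_011_s1 Ext.none :=
  certF0 (fam := false) (s1 := false) (s2 := false) (a := 0) (b := 1) (c := 1) (cn := .pnn) (n1 := ndB5q0) (n2 := ndB0q1) (pc := pcB1) (cut := cut_B50mm_011_s1) (xt := Ext.none) (P1 := 0) (W1 := 536870912) (P2 := 536870912) (W2 := 536870912) (P3 := 1033476505) (W3 := 6710887)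
    rfl k0_B50mm_011_s1

theorem s_B50mm_011_s1 {κ x : ℝ} (hκ : κ * h0 = ken x) (hx : ((1033476505 : ℕ) : ℝ) / S ≤ x)
    (hx' : x ≤ (((1033476505 : ℕ) : ℝ) + (6710887 : ℕ)) / S) :
    AltB (VFD κ) PP tK tL pcB [⟨3, 0, 0, 1449551462⟩] 0 1 1 5 0 (sgb false) (sgb false) x :=
  strip_altBD (m := 1449551462) true rfl hκ (SH.κ0 hκ (SH.hx1 hx).le (SH.hx2 hx').le) (SH.hx1 hx).le (SH.hx2 hx') (covB50).cov (covB01).cov hx hx' c_B50mm_011_s1 cutB_nil (noExt_B)

noncomputable def cut_B50mm_012_s1 : Cut := Cut.of [[⟨4, 0, 0, 1449551462⟩]]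

noncomputable def f_B50mm_012_s1 : ℕ → ℕ → ℕ → ℕ → Bool := onCell 0 536870912 0 536870912 1033476505 6710887
    (rowF 0 false false false .pnp 0 1 2 (qsf 0 536870912 0 536870912 1) ndB5q0 ndB0q2 pcB1 cut_B50mm_012_s1 Ext.none)

def k0_B50mm_012_s1 : ∃ t, chk3 f_B50mm_012_s1 t 1 1 1 = true :=
  ⟨(l 5), by decide +kernel⟩

theorem c_B50mm_012_s1 : CertF 0 536870912 0 536870912 1033476505 6710887 false false false .pnp 0 1 2
    ndB5q0 ndB0q2 pcB1 cut_B50mm_012_s1 Ext.none :=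
  certF0 (fam := false) (s1 := false) (s2 := false) (a := 0) (b := 1) (c := 2) (cn := .pnp) (n1 := ndB5q0) (n2 := ndB0q2) (pc := pcB1) (cut := cut_B50mm_012_s1) (xt := Ext.none) (P1 := 0) (W1 := 536870912) (P2 := 0) (W2 := 536870912) (P3 := 1033476505) (W3 := 6710887)
    rfl k0_B50mm_012_s1

theorem s_B50mm_012_s1 {κ x : ℝ} (hκ : κ * h0 = ken x) (hx : ((1033476505 : ℕ) : ℝ) / S ≤ x)
    (hx' : x ≤ (((1033476505 : ℕ) : ℝ) + (6710887 : ℕ)) / S) :
    AltB (VFD κ) PP tK tL pcB [⟨3, 0, 0, 1449551462⟩] 0 1 2 5 0 (sgb false) (sgb false) x :=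
  strip_altBD (m := 1449551462) true rfl hκ (SH.κ0 hκ (SH.hx1 hx).le (SH.hx2 hx').le) (SH.hx1 hx).le (SH.hx2 hx') (covB50).cov (covB02).cov hx hx' c_B50mm_012_s1 cutB_nil (noExt_B)

noncomputable def cut_B50mm_022_s1 : Cut := Cut.of [[⟨4, 0, 0, 1449551462⟩]]

noncomputable def f_B50mm_022_s1 : ℕ → ℕ → ℕ → ℕ → Bool := onCell 0 536870912 0 536870912 1033476505 6710887
    (rowF 0 false false false .pp 0 2 2 (qsf 0 536870912 0 536870912 2) ndB5q0 ndB0q2 pcB2 cut_B50mm_022_s1 Ext.none)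

def k0_B50mm_022_s1 : ∃ t, chk3 f_B50mm_022_s1 t 1 1 1 = true :=
  ⟨(l 5), by decide +kernel⟩

theorem c_B50mm_022_s1 : CertF 0 536870912 0 536870912 1033476505 6710887 false false false .pp 0 2 2
    ndB5q0 ndB0q2 pcB2 cut_B50mm_022_s1 Ext.none :=
  certF0 (fam := false) (s1 := false) (s2 := false) (a := 0) (b := 2) (c := 2) (cn := .pp) (n1 := ndB5q0) (n2 := ndB0q2) (pc := pcB2) (cut := cut_B50mm_022_s1) (xt := Ext.none) (P1 := 0) (W1 := 536870912) (P2 := 0) (W2 := 536870912) (P3 := 1033476505) (W3 := 6710887)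
    rfl k0_B50mm_022_s1

theorem s_B50mm_022_s1 {κ x : ℝ} (hκ : κ * h0 = ken x) (hx : ((1033476505 : ℕ) : ℝ) / S ≤ x)
    (hx' : x ≤ (((1033476505 : ℕ) : ℝ) + (6710887 : ℕ)) / S) :
    AltB (VFD κ) PP tK tL pcB [⟨3, 0, 0, 1449551462⟩] 0 2 2 5 0 (sgb false) (sgb false) x :=
  strip_altBD (m := 1449551462) true rfl hκ (SH.κ0 hκ (SH.hx1 hx).le (SH.hx2 hx').le) (SH.hx1 hx).le (SH.hx2 hx') (covB50).cov (covB02).cov hx hx' c_B50mm_022_s1 cutB_nil (noExt_B)

noncomputable def cut_B50mm_101_s1 : Cut := Cut.of [[⟨4, 0, 0, 1449551462⟩]]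

noncomputable def f_B50mm_101_s1 : ℕ → ℕ → ℕ → ℕ → Bool := onCell 0 536870912 536870912 536870912 1033476505 6710887
    (rowF 2 false false false .npn 1 0 1 (qsf 536870912 536870912 536870912 536870912 0) ndB5q1 ndB0q1 pcB0 cut_B50mm_101_s1 Ext.none)

def k0_B50mm_101_s1 : ∃ t, chk3 f_B50mm_101_s1 t 1 1 1 = true :=
  ⟨(l 5), by decide +kernel⟩

theorem c_B50mm_101_s1 : CertF 536870912 536870912 536870912 536870912 1033476505 6710887 false false false .npn 1 0 1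
    ndB5q1 ndB0q1 pcB0 cut_B50mm_101_s1 Ext.none :=
  certF2 (fam := false) (s1 := false) (s2 := false) (a := 1) (b := 0) (c := 1) (cn := .npn) (n1 := ndB5q1) (n2 := ndB0q1) (pc := pcB0) (cut := cut_B50mm_101_s1) (xt := Ext.none) (P1 := 536870912) (W1 := 536870912) (P2 := 536870912) (W2 := 536870912) (P3 := 1033476505) (W3 := 6710887)
    rfl (fun _ => rfl) k0_B50mm_101_s1

theorem s_B50mm_101_s1 {κ x : ℝ} (hκ : κ * h0 = ken x) (hx : ((1033476505 : ℕ) : ℝ) / S ≤ x)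
    (hx' : x ≤ (((1033476505 : ℕ) : ℝ) + (6710887 : ℕ)) / S) :
    AltB (VFD κ) PP tK tL pcB [⟨3, 0, 0, 1449551462⟩] 1 0 1 5 0 (sgb false) (sgb false) x :=
  strip_altBD (m := 1449551462) true rfl hκ (SH.κ0 hκ (SH.hx1 hx).le (SH.hx2 hx').le) (SH.hx1 hx).le (SH.hx2 hx') (covB51).cov (covB01).cov hx hx' c_B50mm_101_s1 cutB_nil (noExt_B)

noncomputable def cut_B50mm_102_s1 : Cut := Cut.of [[⟨4, 0, 0, 1449551462⟩]]

noncomputable def f_B50mm_102_s1 : ℕ → ℕ → ℕ → ℕ → Bool := onCell 536870912 536870912 0 536870912 1033476505 6710887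
    (rowF 0 false false false .npp 1 0 2 (qsf 536870912 536870912 0 536870912 0) ndB5q1 ndB0q2 pcB0 cut_B50mm_102_s1 Ext.none)

def k0_B50mm_102_s1 : ∃ t, chk3 f_B50mm_102_s1 t 1 1 1 = true :=
  ⟨(l 5), by decide +kernel⟩

theorem c_B50mm_102_s1 : CertF 536870912 536870912 0 536870912 1033476505 6710887 false false false .npp 1 0 2
    ndB5q1 ndB0q2 pcB0 cut_B50mm_102_s1 Ext.none :=
  certF0 (fam := false) (s1 := false) (s2 := false) (a := 1) (b := 0) (c := 2) (cn := .npp) (n1 := ndB5q1) (n2 := ndB0q2) (pc := pcB0) (cut := cut_B50mm_102_s1) (xt := Ext.none) (P1 := 536870912) (W1 := 536870912) (P2 := 0) (W2 := 536870912) (P3 := 1033476505) (W3 := 6710887)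
    rfl k0_B50mm_102_s1

theorem s_B50mm_102_s1 {κ x : ℝ} (hκ : κ * h0 = ken x) (hx : ((1033476505 : ℕ) : ℝ) / S ≤ x)
    (hx' : x ≤ (((1033476505 : ℕ) : ℝ) + (6710887 : ℕ)) / S) :
    AltB (VFD κ) PP tK tL pcB [⟨3, 0, 0, 1449551462⟩] 1 0 2 5 0 (sgb false) (sgb false) x :=
  strip_altBD (m := 1449551462) true rfl hκ (SH.κ0 hκ (SH.hx1 hx).le (SH.hx2 hx').le) (SH.hx1 hx).le (SH.hx2 hx') (covB51).cov (covB02).cov hx hx' c_B50mm_102_s1 cutB_nil (noExt_B)

noncomputable def cut_B50mm_112_s1 : Cut := Cut.of [[⟨4, 0, 0, 1449551462⟩]]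

noncomputable def f_B50mm_112_s1 : ℕ → ℕ → ℕ → ℕ → Bool := onCell 536870912 536870912 0 536870912 1033476505 6710887
    (rowF 0 false false false .dn 1 1 2 (qsf 536870912 536870912 0 536870912 1) ndB5q1 ndB0q2 pcB1 cut_B50mm_112_s1 Ext.none)

def k0_B50mm_112_s1 : ∃ t, chk3 f_B50mm_112_s1 t 1 1 1 = true :=
  ⟨(l 5), by decide +kernel⟩

theorem c_B50mm_112_s1 : CertF 536870912 536870912 0 536870912 1033476505 6710887 false false false .dn 1 1 2
    ndB5q1 ndB0q2 pcB1 cut_B50mm_112_s1 Ext.none :=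
  certF0 (fam := false) (s1 := false) (s2 := false) (a := 1) (b := 1) (c := 2) (cn := .dn) (n1 := ndB5q1) (n2 := ndB0q2) (pc := pcB1) (cut := cut_B50mm_112_s1) (xt := Ext.none) (P1 := 536870912) (W1 := 536870912) (P2 := 0) (W2 := 536870912) (P3 := 1033476505) (W3 := 6710887)
    rfl k0_B50mm_112_s1

theorem s_B50mm_112_s1 {κ x : ℝ} (hκ : κ * h0 = ken x) (hx : ((1033476505 : ℕ) : ℝ) / S ≤ x)
    (hx' : x ≤ (((1033476505 : ℕ) : ℝ) + (6710887 : ℕ)) / S) :
    AltB (VFD κ) PP tK tL pcB [⟨3, 0, 0, 1449551462⟩] 1 1 2 5 0 (sgb false) (sgb false) x :=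
  strip_altBD (m := 1449551462) true rfl hκ (SH.κ0 hκ (SH.hx1 hx).le (SH.hx2 hx').le) (SH.hx1 hx).le (SH.hx2 hx') (covB51).cov (covB02).cov hx hx' c_B50mm_112_s1 cutB_nil (noExt_B)

noncomputable def cut_B50mm_202_s1 : Cut := Cut.of [[⟨4, 0, 0, 1449551462⟩]]

noncomputable def f_B50mm_202_s1 : ℕ → ℕ → ℕ → ℕ → Bool := onCell 1073741824 536870912 0 536870912 1033476505 6710887
    (rowF 0 false false false .pp 2 0 2 (qsf 1073741824 536870912 0 536870912 0) ndB5q2 ndB0q2 pcB0 cut_B50mm_202_s1 Ext.none)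

def k0_B50mm_202_s1 : ∃ t, chk3 f_B50mm_202_s1 t 1 1 1 = true :=
  ⟨(l 5), by decide +kernel⟩

theorem c_B50mm_202_s1 : CertF 1073741824 536870912 0 536870912 1033476505 6710887 false false false .pp 2 0 2
    ndB5q2 ndB0q2 pcB0 cut_B50mm_202_s1 Ext.none :=
  certF0 (fam := false) (s1 := false) (s2 := false) (a := 2) (b := 0) (c := 2) (cn := .pp) (n1 := ndB5q2) (n2 := ndB0q2) (pc := pcB0) (cut := cut_B50mm_202_s1) (xt := Ext.none) (P1 := 1073741824) (W1 := 536870912) (P2 := 0) (W2 := 536870912) (P3 := 1033476505) (W3 := 6710887)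
    rfl k0_B50mm_202_s1

theorem s_B50mm_202_s1 {κ x : ℝ} (hκ : κ * h0 = ken x) (hx : ((1033476505 : ℕ) : ℝ) / S ≤ x)
    (hx' : x ≤ (((1033476505 : ℕ) : ℝ) + (6710887 : ℕ)) / S) :
    AltB (VFD κ) PP tK tL pcB [⟨3, 0, 0, 1449551462⟩] 2 0 2 5 0 (sgb false) (sgb false) x :=
  strip_altBD (m := 1449551462) true rfl hκ (SH.κ0 hκ (SH.hx1 hx).le (SH.hx2 hx').le) (SH.hx1 hx).le (SH.hx2 hx') (covB52).cov (covB02).cov hx hx' c_B50mm_202_s1 cutB_nil (noExt_B)

end Pool.Agent.Strip051.G.I9625_9688.Tab.St.C
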