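import Pool.Agent.Strip051.G.I9625_9688.Tab
import Pool.Agent.Strip051.PB.StripB

/-! # Strips, near vertex: certificates 4 (generated) -/

set_option linter.all false
set_option maxRecDepth 100000

namespace Pool.Agent.Strip051.G.I9625_9688.Tab.CS.BB05

open Pool.Agent.Strip051.PB Pool.Agent.Strip051.PB.T
open Pool.Agent.Strip051.G.I9625_9688.Tab

noncomputable def cut_pp_123_s : Cut := Cut.of [[⟨4, 0, 0, 1449551462⟩], [⟨0, 1, 0, 20971520⟩, ⟨1, 1, 0, 20971520⟩, ⟨2, 2, 0, 1572864⟩]]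

noncomputable def f_pp_123_s : ℕ → ℕ → ℕ → ℕ → Bool := onCell 1073741824 536870912 0 1230186008 1033476505 6710887
    (rowNE 3 eng mog cd0q1 cd5q3 pd2 2 false true true .npn 1 2 3 (qsf 536870912 536870912 0 1230186008 2) ndB0q1 ndB5q3 pcB2 cut_pp_123_s Ext.none)

def k0_pp_123_s : ∃ t, chk3 f_pp_123_s t 32 16 1 = true :=
  ⟨(b (l 14) (b (l 14) (l 3))), by decide +kernel⟩

def k1_pp_123_s : ∃ t, chk3 f_pp_123_s t 33 32 1 = true :=
  ⟨(a (a (a (l 14) (l 16728920)) (l 16707768)) (l 16663584)), by decide +kernel⟩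

def k2_pp_123_s : ∃ t, chk3 f_pp_123_s t 66 33 1 = true :=
  ⟨(b (a (a (l 14) (a (l 14) (b (l 16739272) (b (l 16760808) (b (l 16764208) (a (l 16761976) (l 16765880))))))) (b (b (l 16776464) (a (l 16758984) (l 16768528))) (a (b (l 16756792) (l 16760864)) (b (l 16756952) (l 16755272))))) (a (b (a (l 14) (b (a (a (l 14) (a (l 14) (b (l 16773408) (b (l 140827949703) (l 420537695063))))) (b (a (l 16771376) (l 16768504)) (a (b (l 16774384) (a (l 292762412695) (l 16775696))) (l 16772696)))) (a (l 3) (b (a (b (a (l 3) (l 345375768119)) (l 3)) (b (a (l 16776184) (l 16774968)) (a (l 406042180535) (l 277730021879)))) (l 462950494119))))) (l 3)) (b (a (b (a (b (a (l 16766488) (l 16765112)) (a (l 16770096) (l 16767296))) (b (l 16762632) (l 16765328))) (a (b (a (l 16773952) (l 16771376)) (a (b (a (l 331417124151) (l 16776096)) (l 409263405511)) (b (l 16774208) (a (l 169282108135) (l 16775440))))) (b (a (l 16768880) (l 16766432)) (l 16750368)))) (b (l 16759440) (a (b (l 16764536)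 (a (l 16767392) (l 16765736))) (l 16762496)))) (a (b (a (b (a (l 3) (b (a (l 443086273239) (l 317458480215)) (l 3))) (l 3)) (b (a (b (l 16775352) (a (l 369534957415) (l 161765915383))) (l 16773768)) (a (l 442012530119) (b (a (l 302426094519) (l 16775856)) (l 387251698311))))) (l 3)) (b (a (b (l 16770088) (a (b (l 16773992) (l 127406176743)) (l 16772440))) (b (a (l 16766344) (l 16765040)) (l 16747640))) (a (b (a (b (a (l 408726535111) (l 284172483415)) (l 3)) (b (l 16775096) (a (l 334638349719) (l 16776176)))) (a (l 3) (l 423758919399))) (b (l 16772336) (a (b (a (l 185388235543) (l 16775544)) (l 360408152775)) (l 16774584))))))))), by decide +kernel⟩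

def k3_pp_123_s : ∃ t, chk3 f_pp_123_s t 67 33 1 = true :=
  ⟨(b (a (b (l 16757664) (a (l 16739856) (l 16770936))) (l 16746784)) (a (b (a (l 16755256) (l 16752328)) (a (b (a (b (l 16762296) (l 16754352)) (l 16759184)) (a (a (l 16770504) (b (l 16765872) (l 16769648))) (b (l 16762576) (a (l 16766504) (l 16763080))))) (a (b (l 16755272) (l 16759112)) (l 16753168)))) (b (l 16728440) (a (l 16748304) (l 16745432))))), by decide +kernel⟩

def k4_pp_123_s : ∃ t, chk3 f_pp_123_s t 32 17 1 = true :=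
  ⟨(l 3), by decide +kernel⟩

def k5_pp_123_s : ∃ t, chk3 f_pp_123_s t 66 34 1 = true :=
  ⟨(b (a (l 3) (b (a (l 3) (b (a (l 3) (b (a (l 3) (b (a (l 367387473799) (l 16776408)) (l 430201370967))) (l 3))) (l 3))) (l 3))) (l 3)), by decide +kernel⟩

def k6_pp_123_s : ∃ t, chk3 f_pp_123_s t 67 68 1 = true :=
  ⟨(a (b (a (b (a (b (a (b (l 16774776) (l 254644579975)) (l 16752160)) (a (l 403894695879) (b (l 16775672) (a (l 369534955671) (l 273971935927))))) (a (l 16772080) (l 16747992))) (a (l 464024234551) (b (a (b (a (l 321753447495) (l 16776008)) (l 397989116503)) (b (l 16773896) (l 136532981543))) (a (l 3) (b (l 338933311223) (l 3)))))) (b (a (b (a (l 16763136) (l 16760304)) (l 16765824)) (b (l 16756904) (a (l 16759960) (l 16757456)))) (a (b (l 16770112) (a (b (l 16774904) (a (l 339470187879) (l 16776112))) (l 16772760))) (b (l 16741176) (l 16746400))))) (a (l 3) (b (a (b (a (l 425369532103) (b (a (l 258402679127) (l 16775248)) (l 350744476855))) (l 3)) (b (a (l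 16773824) (l 16770248)) (a (b (a (l 361481896263) (l 16776216)) (l 440938789191)) (b (l 16773872) (a (l 351281343607) (l 16775392)))))) (a (l 3) (b (a (l 3) (l 392083535799)) (l 3)))))) (b (a (b (l 16751456) (a (b (l 16755976) (a (l 16761280) (l 16756688))) (l 16752624))) (l 16745560)) (a (b (a (a (l 16768856) (l 16764736)) (b (a (l 16757456) (l 16753240)) (l 16760768))) (a (b (a (b (l 16775048) (a (l 372756182759) (l 16775008))) (l 16772616)) (a (l 460266141095) (b (a (l 356650053191) (l 16775536)) (l 381346118231)))) (a (a (b (l 16769560) (l 41506829351)) (l 16770192)) (l 16745960)))) (b (a (b (l 16749784) (a (l 16753248) (l 16749872))) (l 16745936)) (a (l 16738920) (b (l 16737728) (l 16731112))))))), by decide +kernel⟩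

def k7_pp_123_s : ∃ t, chk3 f_pp_123_s t 67 69 1 = true :=
  ⟨(a (l 3) (b (a (b (a (l 3) (b (a (a (l 426443274407) (l 324974669399)) (b (l 16774008) (a (l 314774125111) (l 16775672)))) (l 432348852935))) (l 3)) (b (a (b (l 16768864) (a (b (a (l 16776152) (l 16774448)) (l 325511532279)) (l 16772584))) (a (l 16743784) (l 16759632))) (a (b (a (l 3) (b (a (l 329269640055) (l 16775800)) (l 410337147319))) (l 3)) (b (a (b (l 16772616) (a (l 229948519911) (l 16774592))) (l 16748408)) (a (l 366313732087) (b (l 16774168) (a (l 344302026007) (l 16775912)))))))) (a (l 3) (b (a (l 3) (l 448991849527)) (l 3))))), by decide +kernel⟩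

def k8_pp_123_s : ∃ t, chk3 f_pp_123_s t 33 35 1 = true :=
  ⟨(l 3), by decide +kernel⟩

def k9_pp_123_s : ∃ t, chk3 f_pp_123_s t 16 9 1 = true :=
  ⟨(l 3), by decide +kernel⟩

def k10_pp_123_s : ∃ t, chk3 f_pp_123_s t 34 16 1 = true :=
  ⟨(b (a (b (l 16572336) (l 16639520)) (b (l 16540792) (l 16587952))) (a (b (l 16707696) (a (b (l 16770512) (l 16709504)) (l 16763712))) (l 16672784))), by decide +kernel⟩

def k11_pp_123_s : ∃ t, chk3 f_pp_123_s t 34 34 1 = true :=
  ⟨(a (b (b (a (l 16717864) (l 16719296)) (a (a (b (l 16740656) (a (l 16744616) (l 16739632))) (l 16734472)) (l 16727160))) (a (b (b (a (a (b (a (l 16750840) (l 16745152)) (l 16754768)) (b (l 16741048) (a (l 16745688) (l 16740968)))) (l 16735496)) (a (a (a (l 16746640) (l 16741312)) (l 16732728)) (a (b (a (l 16740632) (l 16736896)) (l 16744488)) (b (l 16733024) (l 16713872))))) (a (b (a (b (a (b (a (l 250349614423) (l 16774728)) (l 341080799895)) (b (l 16770920) (l 16774232))) (a (l 3) (b (a (l 361481896375)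 (l 16776008)) (l 448454981895)))) (a (b (l 16767328) (b (l 16772664) (a (l 270213837975) (l 16774840)))) (l 16744376))) (a (l 3) (b (a (l 380272375703) (b (l 16774288) (a (l 16775360) (l 16773464)))) (l 3)))) (b (a (l 16735464) (b (l 16724440) (l 16747440))) (a (b (b (l 16745024) (l 16748840)) (a (b (a (l 280414385415) (l 16774936)) (l 356650058535)) (b (l 16770744) (a (l 16775632) (l 16773168))))) (a (l 16741760) (l 16756312)))))) (b (l 16723552) (a (b (a (b (l 16730528) (a (l 16736856) (l 16730472))) (l 16726136)) (a (l 16725080) (b (a (l 16730384) (l 16725488)) (l 16735632)))) (b (l 16719488) (a (b (l 16721120) (a (l 16724496) (l 16720544))) (l 16716832))))))) (a (b (b (l 16757848) (l 16705704)) (a (l 16713440) (l 16710328))) (b (l 16766264) (b (l 16698416) (l 16707928))))), by decide +kernel⟩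

def k12_pp_123_s : ∃ t, chk3 f_pp_123_s t 34 70 1 = true :=
  ⟨(a (a (b (a (l 3) (b (a (b (a (l 3) (b (l 357186920423) (l 3))) (l 3)) (b (a (b (l 16772672) (a (l 289004320087) (l 16775008))) (l 16747616)) (a (l 391546664775) (b (a (l 16775688) (l 16773184)) (l 358260662295))))) (l 3))) (l 3)) (a (b (b (a (a (b (l 16762168) (l 16749576)) (l 16738744)) (l 16728120)) (a (b (a (b (a (l 295446771095) (l 16775048)) (l 377588023575)) (b (l 16749520) (a (l 16775736) (l 16773176)))) (a (l 3) (b (l 358260662327) (l 3)))) (a (b (l 16745016) (a (b (l 16774208) (l 299741738439)) (l 16762472))) (l 16742544)))) (b (a (l 3) (b (a (l 398525986583) (b (a (l 16775752) (l 16773128)) (l 296520506471))) (l 3))) (l 3))) (b (b (a (a (l 16737648) (l 16708088)) (b (l 16718000) (a (l 16725968) (l 16718168)))) (a (a (l 16735272) (l 16748600)) (l 16736528))) (b (a (a (b (l 16749184) (b (a (l 301352351191) (l 16775064)) (l 370071826631))) (a (b (l 16764760) (b (l 16771872) (l 16770512)))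 (l 16744856))) (a (l 16739192) (l 16731408))) (a (b (a (l 3) (b (l 295983635239) (l 3))) (l 3)) (b (a (b (l 16751344) (a (l 16773968) (l 16775024))) (l 16746384)) (a (l 418390210343) (b (a (l 16775736) (l 16772936)) (l 293299285799))))))))) (a (b (a (b (l 16712280) (a (b (a (l 16718720) (l 16713184)) (l 16724984)) (b (l 16709504) (a (l 16713080) (l 16709392))))) (l 16706400)) (a (b (a (l 16719376) (b (l 16718328) (l 16729248))) (a (a (b (l 16759632) (l 16748720)) (l 16735896)) (l 16723936))) (b (a (b (l 16708520) (a (l 16717128) (l 16709720))) (l 16706400)) (a (l 16728952) (b (a (l 16711744) (l 16706912)) (l 16718728)))))) (a (b (l 16705072) (a (b (l 16704648) (b (l 16704952) (l 16707440))) (l 16704888))) (l 16706856)))), by decide +kernel⟩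

def k13_pp_123_s : ∃ t, chk3 f_pp_123_s t 34 71 1 = true :=
  ⟨(a (l 3) (a (a (b (b (b (a (a (b (a (l 16776600) (l 16774984)) (l 392620405495)) (b (l 16748696) (l 331953976087))) (l 16739528)) (a (a (l 3) (b (l 294909898071) (l 3))) (a (b (l 16751104) (a (l 16776616) (l 16774928))) (l 16745960)))) (a (l 3) (b (a (l 397452242567) (b (l 331417105047) (l 335175213543))) (l 3)))) (l 3)) (b (a (b (l 16728944) (b (l 285246171879) (a (b (l 268066345815) (l 16777136)) (b (l 16769408) (l 16763464))))) (b (l 16734392) (l 16734192))) (b (a (b (a (l 3) (l 319605959575)) (l 3)) (b (a (b (l 16771880) (l 268603216327)) (l 16745800)) (a (l 405505311303) (a (l 346449498103) (l 283635593815))))) (l 3)))) (a (b (b (a (l 16698248) (b (l 16706760) (l 16711384))) (a (l 16740152) (l 16726256))) (b (a (a (l 16743240) (l 16735784)) (l 16725064)) (a (b (a (b (l 254107701927) (l 16776504)) (l 16760960)) (a (l 3) (l 343765147143))) (a (a (b (l 16766208) (l 16764328)) (l 16746416)) (l 16741096)))))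 (b (b (l 16708592) (a (b (l 16710480) (l 16718816)) (l 16711128))) (a (b (l 16733048) (l 16730944)) (b (l 16721744) (l 16739952))))))), by decide +kernel⟩

def k14_pp_123_s : ∃ t, chk3 f_pp_123_s t 35 8 1 = true :=
  ⟨(b (b (a (b (l 16510440) (l 16523664)) (l 16459056)) (a (l 16623728) (l 16521968))) (b (a (a (b (l 16748032) (b (l 16753456) (l 16704816))) (l 16735568)) (l 16658024)) (a (a (b (l 16716776) (b (l 16716136) (a (b (a (b (l 16713624) (l 16717552)) (l 16716320)) (a (l 16729936) (l 16700952))) (l 16701864)))) (b (b (l 16741888) (l 16733680)) (l 16733600))) (b (a (l 16731776) (l 16725056)) (a (l 16754616) (l 16765032)))))), by decide +kernel⟩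

def k15_pp_123_s : ∃ t, chk3 f_pp_123_s t 17 9 1 = true :=
  ⟨(b (a (a (l 3) (b (a (l 3) (b (a (b (a (l 3) (b (b (a (l 394231020039) (l 255181433783)) (l 3)) (l 3))) (l 3)) (b (a (b (b (l 16744936) (a (l 340543914807) (l 16771496))) (a (l 3) (l 357186912231))) (b (l 16736632) (b (l 313163474839) (a (l 16776208) (l 16774584))))) (l 432348845063))) (l 3))) (l 3))) (a (b (a (b (a (b (a (b (l 16746392) (l 16741656)) (l 16723544)) (a (b (a (l 332490853463) (b (l 16771640) (l 16776288))) (l 3)) (b (l 302426044439) (b (l 333027717767) (l 423222051959))))) (b (b (a (l 16728888) (l 16725832)) (l 16739432)) (a (b (l 16757088) (b (l 16767456) (l 16773288))) (l 16734272)))) (a (l 3) (b (b (a (l 399062852695) (b (l 16770920) (l 16769904))) (l 439865041015)) (l 3)))) (b (a (b (b (l 16729704) (a (l 16731312) (l 16732256))) (a (l 16748264) (l 16742736))) (b (l 16738120) (b (l 16739440) (l 16743640)))) (a (b (a (b (l 16765496) (l 328195874759)) (l 16763744)) (a (l 3) (l 340543888519)))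 (b (l 16735008) (a (b (l 16771504) (l 341617662023)) (b (l 16766184) (l 16773504))))))) (a (l 3) (b (a (l 3) (b (l 443623133815) (l 3))) (l 3)))) (b (a (b (b (l 16753336) (l 16753568)) (a (b (b (l 16750120) (l 16755096)) (l 16764376)) (b (l 16758624) (l 16762640)))) (b (l 16773664) (b (l 16774280) (l 16753248)))) (a (b (a (b (a (l 337859547879) (l 314237229191)) (l 3)) (b (l 16770576) (l 322290307335))) (l 3)) (b (b (a (l 16771352) (l 16773040)) (a (l 16774816) (l 16774720))) (a (b (l 328732779927) (l 3)) (b (l 16776320) (l 340007066423)))))))) (l 3)), by decide +kernel⟩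

def k16_pp_123_s : ∃ t, chk3 f_pp_123_s t 9 8 1 = true :=
  ⟨(a (b (b (l 16301768) (a (a (l 16419912) (l 16328432)) (l 16215888))) (b (a (l 16348080) (l 16188952)) (a (a (b (l 16643728) (a (l 16727720) (l 16675168))) (l 16562632)) (l 16335192)))) (b (l 16033168) (a (b (l 16094816) (l 16192584)) (b (l 15969656) (l 16016928))))), by decide +kernel⟩

def k17_pp_123_s : ∃ t, chk3 f_pp_123_s t 9 9 1 = true :=
  ⟨(a (b (a (b (a (b (a (l 16748112) (l 16695536)) (l 16739640)) (b (l 16589072) (l 16638864))) (a (a (a (b (l 16763120) (b (l 16770136) (l 16775000))) (b (l 16750776) (l 16762384))) (b (l 16730568) (a (b (l 16742600) (l 16753184)) (b (l 16728240) (l 16734656))))) (a (b (l 16705024) (a (l 16717760) (l 16702944))) (l 16681424)))) (b (a (b (l 16542712) (l 16582864)) (l 16464872)) (a (b (l 16634040) (l 16646888)) (b (l 16559080) (l 16591856))))) (a (a (b (a (b (b (a (l 442549395991) (l 16753480)) (l 447918089591)) (l 3)) (a (b (b (l 16765184) (l 16753336)) (l 3))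 (b (l 16756864) (l 352891893767)))) (l 3)) (b (b (a (b (a (l 16728560) (l 16709896)) (l 16736480)) (a (l 16663368) (l 16684336))) (a (a (b (l 16764296) (l 16752424)) (l 16754808)) (b (a (l 16721960) (l 16695680)) (l 16732520)))) (a (b (b (l 421074495223) (l 3)) (l 3)) (b (a (b (l 16765304) (l 16771784)) (b (l 16744152) (l 16766104))) (b (l 438791277543) (l 3)))))) (a (b (a (b (l 16664312) (b (l 16671552) (a (l 16691264) (l 16670000)))) (l 16643384)) (b (a (a (l 16731320) (l 16702888)) (b (a (l 16663664) (l 16647352)) (a (l 16688008) (l 16658744)))) (a (a (b (l 16766944) (l 16770624)) (b (l 16744920) (l 16767760))) (l 16691960)))) (b (l 16610288) (a (b (l 16634872) (a (l 16606736) (b (l 16636384) (l 16653888)))) (b (l 16612120) (l 16626048))))))) (b (a (b (l 16313008) (a (l 16490120) (l 16393024))) (b (l 16137672) (l 16266336))) (a (b (a (l 16498760) (b (l 16490536) (l 16533872))) (a (l 16590752) (l 16564072))) (b (l 16338104) (a (l 16512776) (l 16500520)))))),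 by decide +kernel⟩

def k18_pp_123_s : ∃ t, chk3 f_pp_123_s t 5 4 1 = true :=
  ⟨(a (b (a (b (l 15867352) (a (b (l 15889784) (l 15910144)) (a (l 15866080) (a (l 15854656) (l 15849264))))) (b (l 6) (l 15831200))) (a (b (a (b (l 16007640) (l 16135936)) (a (l 15991832) (a (l 15964200) (b (l 15902496) (l 16007120))))) (a (b (l 16270976) (l 16409088)) (a (l 16260256) (a (l 16217144) (l 16181976))))) (b (b (l 15878352) (l 15957336)) (l 16135128)))) (b (l 6) (b (a (l 15885360) (l 6)) (a (l 16078432) (l 16036576))))), by decide +kernel⟩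

def k19_pp_123_s : ∃ t, chk3 f_pp_123_s t 3 4 1 = true :=
  ⟨(a (l 6) (l 6)), by decide +kernel⟩

def k20_pp_123_s : ∃ t, chk3 f_pp_123_s t 4 5 1 = true :=
  ⟨(a (l 3) (a (b (a (l 3) (b (a (b (a (b (b (l 418390145111) (l 3)) (l 3)) (b (a (l 234780311399) (b (l 16746504) (l 16768896))) (l 410873936807))) (l 3)) (b (a (b (l 16696160) (a (l 240685891015) (b (l 16748080) (l 16769896)))) (b (b (a (l 16654056) (l 16629496)) (l 16670768)) (l 16696888))) (a (l 3) (b (a (l 16749296) (l 16737352)) (l 3))))) (l 3))) (l 3)) (b (a (b (a (b (a (b (b (l 16612160) (l 16623408)) (a (l 16671832) (l 16641448))) (b (l 16600560) (a (l 16623568) (l 16612952)))) (a (b (l 16697640) (a (l 16750336) (l 16758288))) (b (a (l 16674384) (l 16645616)) (l 16697904)))) (b (l 16592152) (a (b (a (l 16627712) (l 16619192)) (l 16664624)) (b (l 16612584) (l 16636312))))) (a (b (a (l 3) (b (a (l 16772376) (l 16757784)) (l 16772712))) (l 3)) (b (a (b (l 16720056) (a (l 16772256) (l 16756976))) (b (l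 16673952) (l 16722656))) (a (b (l 16772000) (l 3)) (b (l 16740232) (l 16773136)))))) (b (b (a (l 16583336) (l 16577336)) (a (a (l 16620192) (l 16620136)) (l 16623368))) (a (b (a (b (l 16649640) (l 16683336)) (l 16635056)) (a (b (l 16724304) (l 16759528)) (l 16687152))) (b (a (l 16652248) (l 16654176)) (a (l 16632080) (l 16679616)))))) (a (l 3) (b (a (b (a (l 16729632) (l 162839563127)) (l 3)) (b (a (l 16740336) (l 16715000)) (a (l 16755408) (l 16759840)))) (a (l 3) (b (a (l 3) (l 16769800)) (l 3)))))))), by decide +kernel⟩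

def k21_pp_123_s : ∃ t, chk3 f_pp_123_s t 5 5 1 = true :=
  ⟨(a (b (a (a (b (b (a (l 16565768) (l 16524232)) (a (l 16628224) (l 16620632))) (a (l 16649000) (l 16676432))) (b (a (b (l 16459016) (l 16586352)) (a (l 16468400) (l 16356184))) (a (b (l 16659104) (l 16692072)) (a (b (l 16636520) (l 16691616)) (b (l 16577256) (a (l 16678384) (l 16651768))))))) (b (l 16373704) (l 16497720))) (a (a (b (a (b (a (l 16703352) (l 16702872)) (a (l 16739624) (l 16724960))) (b (l 16704920) (a (l 16722968) (l 16724144)))) (a (b (a (l 16771024) (l 16755360)) (a (l 3) (l 16776944))) (b (a (l 16743488) (l 16740024)) (a (l 16764880) (l 16755896))))) (a (b (l 16718560) (a (a (l 16747496) (l 16748688)) (l 16749936))) (a (b (l 16722232) (l 16748776)) (b (a (l 16721928) (l 16719144)) (l 16748432))))) (b (b (l 16713896) (l 16753656)) (l 16769368)))) (b (b (l 16145576) (a (l 16554464) (l 16517424))) (b (a (l 16720880) (l 16712784)) (a (l 16738384) (l 16707872))))), by decide +kernel⟩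

def k22_pp_123_s : ∃ t, chk3 f_pp_123_s t 3 5 1 = true :=
  ⟨(a (a (b (b (l 6) (l 16375152)) (b (l 16651304) (a (l 16702816) (l 16729544)))) (l 6)) (l 6)), by decide +kernel⟩

def k23_pp_123_s : ∃ t, chk3 f_pp_123_s t 1 3 1 = true :=
  ⟨(b (a (a (l 3) (a (a (a (b (b (a (l 3) (b (a (l 16774008) (l 16770384)) (a (l 3) (l 16773320)))) (l 3)) (l 3)) (b (a (b (b (a (l 16764856) (l 16766376)) (a (l 16773504) (l 16772032))) (a (b (l 16774376) (l 3)) (l 198273210775))) (b (a (a (l 16770856) (l 16770704)) (b (l 16762608) (l 16770328))) (b (a (l 16776080) (l 16774520)) (a (l 16776656) (l 16775768))))) (a (l 3) (b (a (c (l 271824547047) (l 271824546695)) (l 16797264)) (a (l 3) (l 16777200)))))) (b (b (b (l 16774368) (l 16773432)) (a (l 16773944) (l 16767832))) (b (l 16773376) (l 16771880)))) (b (b (a (l 16741856) (l 16706688)) (l 16740184)) (b (a (l 16760176) (l 16741832)) (a (l 16764208) (l 16756432)))))) (a (b (a (b (l 16654960) (l 16677136)) (b (l 16628296) (l 16618648)))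 (a (b (l 16722136) (a (l 16743184) (l 16731608))) (b (l 16677552) (l 1)))) (l 6))) (a (b (a (l 3) (a (a (a (l 3) (a (l 3) (b (a (l 3) (l 16777184)) (a (a (l 16774016) (l 16776784)) (b (l 16776144) (l 16774232)))))) (b (b (l 16769384) (l 16766888)) (b (l 16760264) (l 16758704)))) (b (a (b (l 16755832) (l 16746296)) (l 16732816)) (l 1)))) (a (l 3) (a (a (a (b (l 3) (l 1)) (l 1)) (l 1)) (l 1)))) (l 1))), by decide +kernel⟩

theorem s24_pp_123_s : ∃ t, chk3 f_pp_123_s t 2 5 1 = true := ex3_a k20_pp_123_s k21_pp_123_s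

theorem s25_pp_123_s : ∃ t, chk3 f_pp_123_s t 1 5 1 = true := ex3_a s24_pp_123_s k22_pp_123_s

theorem s26_pp_123_s : ∃ t, chk3 f_pp_123_s t 9 4 1 = true := ex3_b k16_pp_123_s k17_pp_123_s

theorem s27_pp_123_s : ∃ t, chk3 f_pp_123_s t 34 35 1 = true := ex3_b k12_pp_123_s k13_pp_123_s

theorem s28_pp_123_s : ∃ t, chk3 f_pp_123_s t 34 17 1 = true := ex3_b k11_pp_123_s s27_pp_123_s

theorem s29_pp_123_s : ∃ t, chk3 f_pp_123_s t 34 8 1 = true := ex3_b k10_pp_123_s s28_pp_123_s

theorem s30_pp_123_s : ∃ t, chk3 f_pp_123_s t 17 8 1 = true := ex3_a s29_pp_123_s k14_pp_123_s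

theorem s31_pp_123_s : ∃ t, chk3 f_pp_123_s t 17 4 1 = true := ex3_b s30_pp_123_s k15_pp_123_s

theorem s32_pp_123_s : ∃ t, chk3 f_pp_123_s t 67 34 1 = true := ex3_b k6_pp_123_s k7_pp_123_s

theorem s33_pp_123_s : ∃ t, chk3 f_pp_123_s t 33 34 1 = true := ex3_a k5_pp_123_s s32_pp_123_s

theorem s34_pp_123_s : ∃ t, chk3 f_pp_123_s t 33 17 1 = true := ex3_b s33_pp_123_s k8_pp_123_s

theorem s35_pp_123_s : ∃ t, chk3 f_pp_123_s t 16 17 1 = true := ex3_a k4_pp_123_s s34_pp_123_s

theorem s36_pp_123_s : ∃ t, chk3 f_pp_123_s t 33 33 1 = true := ex3_a k2_pp_123_s k3_pp_123_s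

theorem s37_pp_123_s : ∃ t, chk3 f_pp_123_s t 33 16 1 = true := ex3_b k1_pp_123_s s36_pp_123_s

theorem s38_pp_123_s : ∃ t, chk3 f_pp_123_s t 16 16 1 = true := ex3_a k0_pp_123_s s37_pp_123_s

theorem s39_pp_123_s : ∃ t, chk3 f_pp_123_s t 16 8 1 = true := ex3_b s38_pp_123_s s35_pp_123_s

theorem s40_pp_123_s : ∃ t, chk3 f_pp_123_s t 16 4 1 = true := ex3_b s39_pp_123_s k9_pp_123_s

theorem s41_pp_123_s : ∃ t, chk3 f_pp_123_s t 8 4 1 = true := ex3_a s40_pp_123_s s31_pp_123_s

theorem s42_pp_123_s : ∃ t, chk3 f_pp_123_s t 4 4 1 = true := ex3_a s41_pp_123_s s26_pp_123_s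

theorem s43_pp_123_s : ∃ t, chk3 f_pp_123_s t 2 4 1 = true := ex3_a s42_pp_123_s k18_pp_123_s

theorem s44_pp_123_s : ∃ t, chk3 f_pp_123_s t 1 4 1 = true := ex3_a s43_pp_123_s k19_pp_123_s

theorem s45_pp_123_s : ∃ t, chk3 f_pp_123_s t 1 2 1 = true := ex3_b s44_pp_123_s s25_pp_123_s

theorem s46_pp_123_s : ∃ t, chk3 f_pp_123_s t 1 1 1 = true := ex3_b s45_pp_123_s k23_pp_123_s

theorem c_pp_123_s : CertNE 536870912 536870912 0 1230186008 1033476505 6710887 3 eng mog cd0q1 cd5q3 pd2 false true true .npn 1 2 3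
    ndB0q1 ndB5q3 pcB2 cut_pp_123_s Ext.none :=
  certNE2 (fam := false) (s1 := true) (s2 := true) (a := 1) (b := 2) (c := 3) (cn := .npn) (n1 := ndB0q1) (n2 := ndB5q3) (pc := pcB2) (cut := cut_pp_123_s) (xt := Ext.none) (P1 := 536870912) (W1 := 536870912) (P2 := 0) (W2 := 1230186008) (P3 := 1033476505) (W3 := 6710887) (N0 := 3) (En := eng) (mo := mog) (C1 := cd0q1) (C2 := cd5q3) (C3 := pd2)
    rfl (fun _ => rfl) s46_pp_123_s

noncomputable def cut_pp_133_s : Cut := Cut.of [[⟨4, 0, 0, 1449551462⟩]]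

noncomputable def f_pp_133_s : ℕ → ℕ → ℕ → ℕ → Bool := onCell 1610612736 536870912 0 1230186008 1033476505 6710887
    (rowNE 3 eng mog cd0q1 cd5q3 pd3 2 false true true .dn 1 3 3 (qsf 536870912 536870912 0 1230186008 3) ndB0q1 ndB5q3 pcB3 cut_pp_133_s Ext.none)

def k0_pp_133_s : ∃ t, chk3 f_pp_133_s t 1 1 1 = true :=
  ⟨(b (l 6) (l 1)), by decide +kernel⟩

theorem c_pp_133_s : CertNE 536870912 536870912 0 1230186008 1033476505 6710887 3 eng mog cd0q1 cd5q3 pd3 false true true .dn 1 3 3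
    ndB0q1 ndB5q3 pcB3 cut_pp_133_s Ext.none :=
  certNE2 (fam := false) (s1 := true) (s2 := true) (a := 1) (b := 3) (c := 3) (cn := .dn) (n1 := ndB0q1) (n2 := ndB5q3) (pc := pcB3) (cut := cut_pp_133_s) (xt := Ext.none) (P1 := 536870912) (W1 := 536870912) (P2 := 0) (W2 := 1230186008) (P3 := 1033476505) (W3 := 6710887) (N0 := 3) (En := eng) (mo := mog) (C1 := cd0q1) (C2 := cd5q3) (C3 := pd3)
    rfl (fun _ => rfl) k0_pp_133_s

noncomputable def cut_pp_202_s : Cut := Cut.of [[⟨4, 0, 0, 1449551462⟩]]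

noncomputable def f_pp_202_s : ℕ → ℕ → ℕ → ℕ → Bool := onCell 0 536870912 1073741824 536870912 1033476505 6710887
    (rowNE 3 eng mog cd0q2 cd5q2 pd0 0 false true true .pp 2 0 2 (qsf 0 536870912 1073741824 536870912 0) ndB0q2 ndB5q2 pcB0 cut_pp_202_s Ext.none)

def k0_pp_202_s : ∃ t, chk3 f_pp_202_s t 1 1 1 = true :=
  ⟨(l 5), by decide +kernel⟩

theorem c_pp_202_s : CertNE 0 536870912 1073741824 536870912 1033476505 6710887 3 eng mog cd0q2 cd5q2 pd0 false true true .pp 2 0 2
    ndB0q2 ndB5q2 pcB0 cut_pp_202_s Ext.none :=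
  certNE0 (fam := false) (s1 := true) (s2 := true) (a := 2) (b := 0) (c := 2) (cn := .pp) (n1 := ndB0q2) (n2 := ndB5q2) (pc := pcB0) (cut := cut_pp_202_s) (xt := Ext.none) (P1 := 0) (W1 := 536870912) (P2 := 1073741824) (W2 := 536870912) (P3 := 1033476505) (W3 := 6710887) (N0 := 3) (En := eng) (mo := mog) (C1 := cd0q2) (C2 := cd5q2) (C3 := pd0)
    rfl k0_pp_202_s

noncomputable def cut_pp_203_s : Cut := Cut.of [[⟨4, 0, 0, 1449551462⟩]]

noncomputable def f_pp_203_s : ℕ → ℕ → ℕ → ℕ → Bool := onCell 0 536870912 0 1230186008 1033476505 6710887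
    (rowNE 3 eng mog cd0q2 cd5q3 pd0 0 false true true .up 2 0 3 (qsf 0 536870912 0 1230186008 0) ndB0q2 ndB5q3 pcB0 cut_pp_203_s Ext.none)

def k0_pp_203_s : ∃ t, chk3 f_pp_203_s t 1 1 1 = true :=
  ⟨(b (l 2) (a (l 5) (b (l 2) (l 3)))), by decide +kernel⟩

theorem c_pp_203_s : CertNE 0 536870912 0 1230186008 1033476505 6710887 3 eng mog cd0q2 cd5q3 pd0 false true true .up 2 0 3
    ndB0q2 ndB5q3 pcB0 cut_pp_203_s Ext.none :=
  certNE0 (fam := false) (s1 := true) (s2 := true) (a := 2) (b := 0) (c := 3) (cn := .up) (n1 := ndB0q2) (n2 := ndB5q3) (pc := pcB0) (cut := cut_pp_203_s) (xt := Ext.none) (P1 := 0) (W1 := 536870912) (P2 := 0) (W2 := 1230186008) (P3 := 1033476505) (W3 := 6710887) (N0 := 3) (En := eng) (mo := mog) (C1 := cd0q2) (C2 := cd5q3) (C3 := pd0)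
    rfl k0_pp_203_s

noncomputable def cut_pp_213_s : Cut := Cut.of [[⟨4, 0, 0, 1449551462⟩], [⟨0, 1, 0, 20971520⟩, ⟨1, 1, 0, 20971520⟩, ⟨2, 2, 0, 1572864⟩]]

noncomputable def f_pp_213_s : ℕ → ℕ → ℕ → ℕ → Bool := onCell 0 536870912 0 1230186008 1033476505 6710887
    (rowNE 3 eng mog cd0q2 cd5q3 pd1 0 false true true .pnn 2 1 3 (qsf 0 536870912 0 1230186008 1) ndB0q2 ndB5q3 pcB1 cut_pp_213_s Ext.none)

def k0_pp_213_s : ∃ t, chk3 f_pp_213_s t 1 1 1 = true :=
  ⟨(b (b (a (l 3) (a (l 3) (a (l 3) (b (a (l 3) (b (b (a (l 3) (l 14)) (l 3)) (l 3))) (l 3))))) (l 3)) (a (l 5) (b (l 3) (l 3)))), by decide +kernel⟩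

theorem c_pp_213_s : CertNE 0 536870912 0 1230186008 1033476505 6710887 3 eng mog cd0q2 cd5q3 pd1 false true true .pnn 2 1 3
    ndB0q2 ndB5q3 pcB1 cut_pp_213_s Ext.none :=
  certNE0 (fam := false) (s1 := true) (s2 := true) (a := 2) (b := 1) (c := 3) (cn := .pnn) (n1 := ndB0q2) (n2 := ndB5q3) (pc := pcB1) (cut := cut_pp_213_s) (xt := Ext.none) (P1 := 0) (W1 := 536870912) (P2 := 0) (W2 := 1230186008) (P3 := 1033476505) (W3 := 6710887) (N0 := 3) (En := eng) (mo := mog) (C1 := cd0q2) (C2 := cd5q3) (C3 := pd1)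
    rfl k0_pp_213_s

noncomputable def cut_pm_001_s : Cut := Cut.of [[⟨4, 0, 0, 1449551462⟩]]

noncomputable def f_pm_001_s : ℕ → ℕ → ℕ → ℕ → Bool := onCell 0 536870912 536870912 536870912 1033476505 6710887
    (rowNE 3 eng mog cd0q0 cd5q1 pd0 0 false true false .up 0 0 1 (qsf 0 536870912 536870912 536870912 0) ndB0q0 ndB5q1 pcB0 cut_pm_001_s Ext.none)

def k0_pm_001_s : ∃ t, chk3 f_pm_001_s t 1 1 1 = true :=
  ⟨(l 4), by decide +kernel⟩

theorem c_pm_001_s : CertNE 0 536870912 536870912 536870912 1033476505 6710887 3 eng mog cd0q0 cd5q1 pd0 false true false .up 0 0 1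
    ndB0q0 ndB5q1 pcB0 cut_pm_001_s Ext.none :=
  certNE0 (fam := false) (s1 := true) (s2 := false) (a := 0) (b := 0) (c := 1) (cn := .up) (n1 := ndB0q0) (n2 := ndB5q1) (pc := pcB0) (cut := cut_pm_001_s) (xt := Ext.none) (P1 := 0) (W1 := 536870912) (P2 := 536870912) (W2 := 536870912) (P3 := 1033476505) (W3 := 6710887) (N0 := 3) (En := eng) (mo := mog) (C1 := cd0q0) (C2 := cd5q1) (C3 := pd0)
    rfl k0_pm_001_s

noncomputable def cut_pm_011_s : Cut := Cut.of [[⟨4, 0, 0, 1449551462⟩]]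

noncomputable def f_pm_011_s : ℕ → ℕ → ℕ → ℕ → Bool := onCell 0 536870912 536870912 536870912 1033476505 6710887
    (rowNE 3 eng mog cd0q0 cd5q1 pd1 0 false true false .pnn 0 1 1 (qsf 0 536870912 536870912 536870912 1) ndB0q0 ndB5q1 pcB1 cut_pm_011_s Ext.none)

def k0_pm_011_s : ∃ t, chk3 f_pm_011_s t 1 1 1 = true :=
  ⟨(l 4), by decide +kernel⟩

theorem c_pm_011_s : CertNE 0 536870912 536870912 536870912 1033476505 6710887 3 eng mog cd0q0 cd5q1 pd1 false true false .pnn 0 1 1
    ndB0q0 ndB5q1 pcB1 cut_pm_011_s Ext.none :=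
  certNE0 (fam := false) (s1 := true) (s2 := false) (a := 0) (b := 1) (c := 1) (cn := .pnn) (n1 := ndB0q0) (n2 := ndB5q1) (pc := pcB1) (cut := cut_pm_011_s) (xt := Ext.none) (P1 := 0) (W1 := 536870912) (P2 := 536870912) (W2 := 536870912) (P3 := 1033476505) (W3 := 6710887) (N0 := 3) (En := eng) (mo := mog) (C1 := cd0q0) (C2 := cd5q1) (C3 := pd1)
    rfl k0_pm_011_s

noncomputable def cut_pm_012_s : Cut := Cut.of [[⟨4, 0, 0, 1449551462⟩]]

noncomputable def f_pm_012_s : ℕ → ℕ → ℕ → ℕ → Bool := onCell 0 536870912 1073741824 536870912 1033476505 6710887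
    (rowNE 3 eng mog cd0q0 cd5q2 pd1 0 false true false .pnp 0 1 2 (qsf 0 536870912 1073741824 536870912 1) ndB0q0 ndB5q2 pcB1 cut_pm_012_s Ext.none)

def k0_pm_012_s : ∃ t, chk3 f_pm_012_s t 1 1 1 = true :=
  ⟨(l 4), by decide +kernel⟩

theorem c_pm_012_s : CertNE 0 536870912 1073741824 536870912 1033476505 6710887 3 eng mog cd0q0 cd5q2 pd1 false true false .pnp 0 1 2
    ndB0q0 ndB5q2 pcB1 cut_pm_012_s Ext.none :=
  certNE0 (fam := false) (s1 := true) (s2 := false) (a := 0) (b := 1) (c := 2) (cn := .pnp) (n1 := ndB0q0) (n2 := ndB5q2) (pc := pcB1) (cut := cut_pm_012_s) (xt := Ext.none) (P1 := 0) (W1 := 536870912) (P2 := 1073741824) (W2 := 536870912) (P3 := 1033476505) (W3 := 6710887) (N0 := 3) (En := eng) (mo := mog) (C1 := cd0q0) (C2 := cd5q2) (C3 := pd1)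
    rfl k0_pm_012_s

noncomputable def cut_pm_022_s : Cut := Cut.of [[⟨4, 0, 0, 1449551462⟩]]

noncomputable def f_pm_022_s : ℕ → ℕ → ℕ → ℕ → Bool := onCell 0 536870912 1073741824 536870912 1033476505 6710887
    (rowNE 3 eng mog cd0q0 cd5q2 pd2 0 false true false .pp 0 2 2 (qsf 0 536870912 1073741824 536870912 2) ndB0q0 ndB5q2 pcB2 cut_pm_022_s Ext.none)

def k0_pm_022_s : ∃ t, chk3 f_pm_022_s t 1 1 1 = true :=
  ⟨(l 4), by decide +kernel⟩

theorem c_pm_022_s : CertNE 0 536870912 1073741824 536870912 1033476505 6710887 3 eng mog cd0q0 cd5q2 pd2 false true false .pp 0 2 2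
    ndB0q0 ndB5q2 pcB2 cut_pm_022_s Ext.none :=
  certNE0 (fam := false) (s1 := true) (s2 := false) (a := 0) (b := 2) (c := 2) (cn := .pp) (n1 := ndB0q0) (n2 := ndB5q2) (pc := pcB2) (cut := cut_pm_022_s) (xt := Ext.none) (P1 := 0) (W1 := 536870912) (P2 := 1073741824) (W2 := 536870912) (P3 := 1033476505) (W3 := 6710887) (N0 := 3) (En := eng) (mo := mog) (C1 := cd0q0) (C2 := cd5q2) (C3 := pd2)
    rfl k0_pm_022_s

noncomputable def cut_pm_023_s : Cut := Cut.of [[⟨4, 0, 0, 1449551462⟩]]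

noncomputable def f_pm_023_s : ℕ → ℕ → ℕ → ℕ → Bool := onCell 0 536870912 0 1230186008 1033476505 6710887
    (rowNE 3 eng mog cd0q0 cd5q3 pd2 0 false true false .up 0 2 3 (qsf 0 536870912 0 1230186008 2) ndB0q0 ndB5q3 pcB2 cut_pm_023_s Ext.none)

def k0_pm_023_s : ∃ t, chk3 f_pm_023_s t 1 1 1 = true :=
  ⟨(l 6), by decide +kernel⟩

theorem c_pm_023_s : CertNE 0 536870912 0 1230186008 1033476505 6710887 3 eng mog cd0q0 cd5q3 pd2 false true false .up 0 2 3
    ndB0q0 ndB5q3 pcB2 cut_pm_023_s Ext.none :=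
  certNE0 (fam := false) (s1 := true) (s2 := false) (a := 0) (b := 2) (c := 3) (cn := .up) (n1 := ndB0q0) (n2 := ndB5q3) (pc := pcB2) (cut := cut_pm_023_s) (xt := Ext.none) (P1 := 0) (W1 := 536870912) (P2 := 0) (W2 := 1230186008) (P3 := 1033476505) (W3 := 6710887) (N0 := 3) (En := eng) (mo := mog) (C1 := cd0q0) (C2 := cd5q3) (C3 := pd2)
    rfl k0_pm_023_s

noncomputable def cut_pm_033_s : Cut := Cut.of [[⟨4, 0, 0, 1449551462⟩]]

noncomputable def f_pm_033_s : ℕ → ℕ → ℕ → ℕ → Bool := onCell 0 536870912 0 1230186008 1033476505 6710887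
    (rowNE 3 eng mog cd0q0 cd5q3 pd3 0 false true false .pnn 0 3 3 (qsf 0 536870912 0 1230186008 3) ndB0q0 ndB5q3 pcB3 cut_pm_033_s Ext.none)

def k0_pm_033_s : ∃ t, chk3 f_pm_033_s t 1 1 1 = true :=
  ⟨(l 6), by decide +kernel⟩

theorem c_pm_033_s : CertNE 0 536870912 0 1230186008 1033476505 6710887 3 eng mog cd0q0 cd5q3 pd3 false true false .pnn 0 3 3
    ndB0q0 ndB5q3 pcB3 cut_pm_033_s Ext.none :=
  certNE0 (fam := false) (s1 := true) (s2 := false) (a := 0) (b := 3) (c := 3) (cn := .pnn) (n1 := ndB0q0) (n2 := ndB5q3) (pc := pcB3) (cut := cut_pm_033_s) (xt := Ext.none) (P1 := 0) (W1 := 536870912) (P2 := 0) (W2 := 1230186008) (P3 := 1033476505) (W3 := 6710887) (N0 := 3) (En := eng) (mo := mog) (C1 := cd0q0) (C2 := cd5q3) (C3 := pd3)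
    rfl k0_pm_033_s

noncomputable def cut_pm_101_s : Cut := Cut.of [[⟨4, 0, 0, 1449551462⟩]]

noncomputable def f_pm_101_s : ℕ → ℕ → ℕ → ℕ → Bool := onCell 536870912 536870912 536870912 536870912 1033476505 6710887
    (rowNE 3 eng mog cd0q1 cd5q1 pd0 0 false true false .npn 1 0 1 (qsf 536870912 536870912 536870912 536870912 0) ndB0q1 ndB5q1 pcB0 cut_pm_101_s Ext.none)

def k0_pm_101_s : ∃ t, chk3 f_pm_101_s t 1 1 1 = true :=
  ⟨(l 4), by decide +kernel⟩

theorem c_pm_101_s : CertNE 536870912 536870912 536870912 536870912 1033476505 6710887 3 eng mog cd0q1 cd5q1 pd0 false true false .npn 1 0 1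
    ndB0q1 ndB5q1 pcB0 cut_pm_101_s Ext.none :=
  certNE0 (fam := false) (s1 := true) (s2 := false) (a := 1) (b := 0) (c := 1) (cn := .npn) (n1 := ndB0q1) (n2 := ndB5q1) (pc := pcB0) (cut := cut_pm_101_s) (xt := Ext.none) (P1 := 536870912) (W1 := 536870912) (P2 := 536870912) (W2 := 536870912) (P3 := 1033476505) (W3 := 6710887) (N0 := 3) (En := eng) (mo := mog) (C1 := cd0q1) (C2 := cd5q1) (C3 := pd0)
    rfl k0_pm_101_s

noncomputable def cut_pm_102_s : Cut := Cut.of [[⟨4, 0, 0, 1449551462⟩]]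

noncomputable def f_pm_102_s : ℕ → ℕ → ℕ → ℕ → Bool := onCell 536870912 536870912 1073741824 536870912 1033476505 6710887
    (rowNE 3 eng mog cd0q1 cd5q2 pd0 0 false true false .npp 1 0 2 (qsf 536870912 536870912 1073741824 536870912 0) ndB0q1 ndB5q2 pcB0 cut_pm_102_s Ext.none)

def k0_pm_102_s : ∃ t, chk3 f_pm_102_s t 1 1 1 = true :=
  ⟨(l 6), by decide +kernel⟩

theorem c_pm_102_s : CertNE 536870912 536870912 1073741824 536870912 1033476505 6710887 3 eng mog cd0q1 cd5q2 pd0 false true false .npp 1 0 2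
    ndB0q1 ndB5q2 pcB0 cut_pm_102_s Ext.none :=
  certNE0 (fam := false) (s1 := true) (s2 := false) (a := 1) (b := 0) (c := 2) (cn := .npp) (n1 := ndB0q1) (n2 := ndB5q2) (pc := pcB0) (cut := cut_pm_102_s) (xt := Ext.none) (P1 := 536870912) (W1 := 536870912) (P2 := 1073741824) (W2 := 536870912) (P3 := 1033476505) (W3 := 6710887) (N0 := 3) (En := eng) (mo := mog) (C1 := cd0q1) (C2 := cd5q2) (C3 := pd0)
    rfl k0_pm_102_s

noncomputable def cut_pm_112_s : Cut := Cut.of [[⟨4, 0, 0, 1449551462⟩]]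

noncomputable def f_pm_112_s : ℕ → ℕ → ℕ → ℕ → Bool := onCell 536870912 536870912 1073741824 536870912 1033476505 6710887
    (rowNE 3 eng mog cd0q1 cd5q2 pd1 0 false true false .dn 1 1 2 (qsf 536870912 536870912 1073741824 536870912 1) ndB0q1 ndB5q2 pcB1 cut_pm_112_s Ext.none)

def k0_pm_112_s : ∃ t, chk3 f_pm_112_s t 1 1 1 = true :=
  ⟨(l 6), by decide +kernel⟩

theorem c_pm_112_s : CertNE 536870912 536870912 1073741824 536870912 1033476505 6710887 3 eng mog cd0q1 cd5q2 pd1 false true false .dn 1 1 2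
    ndB0q1 ndB5q2 pcB1 cut_pm_112_s Ext.none :=
  certNE0 (fam := false) (s1 := true) (s2 := false) (a := 1) (b := 1) (c := 2) (cn := .dn) (n1 := ndB0q1) (n2 := ndB5q2) (pc := pcB1) (cut := cut_pm_112_s) (xt := Ext.none) (P1 := 536870912) (W1 := 536870912) (P2 := 1073741824) (W2 := 536870912) (P3 := 1033476505) (W3 := 6710887) (N0 := 3) (En := eng) (mo := mog) (C1 := cd0q1) (C2 := cd5q2) (C3 := pd1)
    rfl k0_pm_112_s

noncomputable def cut_pm_113_s : Cut := Cut.of [[⟨4, 0, 0, 1449551462⟩], [⟨0, 1, 0, 20971520⟩, ⟨1, 1, 0, 20971520⟩, ⟨2, 2, 0, 1572864⟩]]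

noncomputable def f_pm_113_s : ℕ → ℕ → ℕ → ℕ → Bool := onCell 536870912 536870912 0 1230186008 1033476505 6710887
    (rowNE 3 eng mog cd0q1 cd5q3 pd1 0 false true false .nn 1 1 3 (qsf 536870912 536870912 0 1230186008 1) ndB0q1 ndB5q3 pcB1 cut_pm_113_s Ext.none)

def k0_pm_113_s : ∃ t, chk3 f_pm_113_s t 1 1 1 = true :=
  ⟨(b (a (l 2) (a (l 2) (b (a (l 2) (a (l 2) (a (b (l 2) (b (l 2) (l 16576712))) (b (b (a (l 2) (b (l 14) (l 16730064))) (b (l 16686144) (l 16680696))) (b (b (l 16676120) (l 16671096)) (l 16686416)))))) (a (l 6) (b (a (l 6) (b (l 16667800) (l 6))) (l 6)))))) (b (l 6) (l 6))), by decide +kernel⟩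

theorem c_pm_113_s : CertNE 536870912 536870912 0 1230186008 1033476505 6710887 3 eng mog cd0q1 cd5q3 pd1 false true false .nn 1 1 3
    ndB0q1 ndB5q3 pcB1 cut_pm_113_s Ext.none :=
  certNE0 (fam := false) (s1 := true) (s2 := false) (a := 1) (b := 1) (c := 3) (cn := .nn) (n1 := ndB0q1) (n2 := ndB5q3) (pc := pcB1) (cut := cut_pm_113_s) (xt := Ext.none) (P1 := 536870912) (W1 := 536870912) (P2 := 0) (W2 := 1230186008) (P3 := 1033476505) (W3 := 6710887) (N0 := 3) (En := eng) (mo := mog) (C1 := cd0q1) (C2 := cd5q3) (C3 := pd1)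
    rfl k0_pm_113_s

noncomputable def cut_pm_123_s : Cut := Cut.of [[⟨4, 0, 0, 1449551462⟩], [⟨0, 1, 0, 20971520⟩, ⟨1, 1, 0, 20971520⟩, ⟨2, 2, 0, 1572864⟩]]

noncomputable def f_pm_123_s : ℕ → ℕ → ℕ → ℕ → Bool := onCell 536870912 536870912 0 1230186008 1033476505 6710887
    (rowNE 3 eng mog cd0q1 cd5q3 pd2 0 false true false .npn 1 2 3 (qsf 536870912 536870912 0 1230186008 2) ndB0q1 ndB5q3 pcB2 cut_pm_123_s Ext.none)

def k0_pm_123_s : ∃ t, chk3 f_pm_123_s t 1 1 1 = true :=
  ⟨(a (b (l 6) (l 6)) (b (b (a (b (l 6) (l 6)) (a (b (a (b (l 16048816) (l 6)) (b (l 16270976) (l 16122880))) (l 6)) (b (a (b (a (l 16530168) (b (a (l 16555608) (l 16561568)) (l 16598688))) (a (l 16491192) (b (l 16638560) (l 16682368)))) (b (b (a (a (b (l 16579088) (l 16579776)) (b (l 16630536) (l 16602368))) (l 14)) (a (l 16622344) (b (l 14) (l 16667856)))) (a (l 16612144) (b (l 16709776) (l 16767632))))) (a (b (a (l 16509776) (b (l 16722728) (l 16693768))) (a (l 6) (l 16649296))) (b (b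 (l 646962725783) (l 16623000)) (a (l 16745928) (l 16677200))))))) (a (l 6) (a (l 6) (a (l 6) (a (l 6) (l 1)))))) (l 6))), by decide +kernel⟩

theorem c_pm_123_s : CertNE 536870912 536870912 0 1230186008 1033476505 6710887 3 eng mog cd0q1 cd5q3 pd2 false true false .npn 1 2 3
    ndB0q1 ndB5q3 pcB2 cut_pm_123_s Ext.none :=
  certNE0 (fam := false) (s1 := true) (s2 := false) (a := 1) (b := 2) (c := 3) (cn := .npn) (n1 := ndB0q1) (n2 := ndB5q3) (pc := pcB2) (cut := cut_pm_123_s) (xt := Ext.none) (P1 := 536870912) (W1 := 536870912) (P2 := 0) (W2 := 1230186008) (P3 := 1033476505) (W3 := 6710887) (N0 := 3) (En := eng) (mo := mog) (C1 := cd0q1) (C2 := cd5q3) (C3 := pd2)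
    rfl k0_pm_123_s

noncomputable def cut_pm_133_s : Cut := Cut.of [[⟨4, 0, 0, 1449551462⟩]]

noncomputable def f_pm_133_s : ℕ → ℕ → ℕ → ℕ → Bool := onCell 1610612736 536870912 0 1230186008 1033476505 6710887
    (rowNE 3 eng mog cd0q1 cd5q3 pd3 2 false true false .dn 1 3 3 (qsf 536870912 536870912 0 1230186008 3) ndB0q1 ndB5q3 pcB3 cut_pm_133_s Ext.none)

def k0_pm_133_s : ∃ t, chk3 f_pm_133_s t 1 1 1 = true :=
  ⟨(l 6), by decide +kernel⟩

theorem c_pm_133_s : CertNE 536870912 536870912 0 1230186008 1033476505 6710887 3 eng mog cd0q1 cd5q3 pd3 false true false .dn 1 3 3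
    ndB0q1 ndB5q3 pcB3 cut_pm_133_s Ext.none :=
  certNE2 (fam := false) (s1 := true) (s2 := false) (a := 1) (b := 3) (c := 3) (cn := .dn) (n1 := ndB0q1) (n2 := ndB5q3) (pc := pcB3) (cut := cut_pm_133_s) (xt := Ext.none) (P1 := 536870912) (W1 := 536870912) (P2 := 0) (W2 := 1230186008) (P3 := 1033476505) (W3 := 6710887) (N0 := 3) (En := eng) (mo := mog) (C1 := cd0q1) (C2 := cd5q3) (C3 := pd3)
    rfl (fun _ => rfl) k0_pm_133_s

noncomputable def cut_pm_202_s : Cut := Cut.of [[⟨4, 0, 0, 1449551462⟩]]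

noncomputable def f_pm_202_s : ℕ → ℕ → ℕ → ℕ → Bool := onCell 0 536870912 1073741824 536870912 1033476505 6710887
    (rowNE 3 eng mog cd0q2 cd5q2 pd0 0 false true false .pp 2 0 2 (qsf 0 536870912 1073741824 536870912 0) ndB0q2 ndB5q2 pcB0 cut_pm_202_s Ext.none)

def k0_pm_202_s : ∃ t, chk3 f_pm_202_s t 1 1 1 = true :=
  ⟨(a (b (l 6) (b (l 6) (l 6))) (l 6)), by decide +kernel⟩

theorem c_pm_202_s : CertNE 0 536870912 1073741824 536870912 1033476505 6710887 3 eng mog cd0q2 cd5q2 pd0 false true false .pp 2 0 2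
    ndB0q2 ndB5q2 pcB0 cut_pm_202_s Ext.none :=
  certNE0 (fam := false) (s1 := true) (s2 := false) (a := 2) (b := 0) (c := 2) (cn := .pp) (n1 := ndB0q2) (n2 := ndB5q2) (pc := pcB0) (cut := cut_pm_202_s) (xt := Ext.none) (P1 := 0) (W1 := 536870912) (P2 := 1073741824) (W2 := 536870912) (P3 := 1033476505) (W3 := 6710887) (N0 := 3) (En := eng) (mo := mog) (C1 := cd0q2) (C2 := cd5q2) (C3 := pd0)
    rfl k0_pm_202_s

noncomputable def cut_pm_203_s : Cut := Cut.of [[⟨4, 0, 0, 1449551462⟩]]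

noncomputable def f_pm_203_s : ℕ → ℕ → ℕ → ℕ → Bool := onCell 0 536870912 0 1230186008 1033476505 6710887
    (rowNE 3 eng mog cd0q2 cd5q3 pd0 0 false true false .up 2 0 3 (qsf 0 536870912 0 1230186008 0) ndB0q2 ndB5q3 pcB0 cut_pm_203_s Ext.none)

def k0_pm_203_s : ∃ t, chk3 f_pm_203_s t 1 1 1 = true :=
  ⟨(b (l 2) (b (l 2) (a (b (b (l 2) (a (a (b (l 2) (a (l 16679704) (l 16588472))) (l 16433496)) (a (l 16172824) (l 6)))) (a (b (a (b (a (l 16644952) (l 16512112)) (l 16512000)) (b (l 16314928) (l 6))) (a (b (l 16459848) (a (l 16480696) (l 6))) (l 6))) (l 6))) (l 6)))), by decide +kernel⟩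

theorem c_pm_203_s : CertNE 0 536870912 0 1230186008 1033476505 6710887 3 eng mog cd0q2 cd5q3 pd0 false true false .up 2 0 3
    ndB0q2 ndB5q3 pcB0 cut_pm_203_s Ext.none :=
  certNE0 (fam := false) (s1 := true) (s2 := false) (a := 2) (b := 0) (c := 3) (cn := .up) (n1 := ndB0q2) (n2 := ndB5q3) (pc := pcB0) (cut := cut_pm_203_s) (xt := Ext.none) (P1 := 0) (W1 := 536870912) (P2 := 0) (W2 := 1230186008) (P3 := 1033476505) (W3 := 6710887) (N0 := 3) (En := eng) (mo := mog) (C1 := cd0q2) (C2 := cd5q3) (C3 := pd0)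
    rfl k0_pm_203_s

noncomputable def cut_pm_213_s : Cut := Cut.of [[⟨4, 0, 0, 1449551462⟩], [⟨0, 1, 0, 20971520⟩, ⟨1, 1, 0, 20971520⟩, ⟨2, 2, 0, 1572864⟩]]

noncomputable def f_pm_213_s : ℕ → ℕ → ℕ → ℕ → Bool := onCell 0 536870912 0 1230186008 1033476505 6710887
    (rowNE 3 eng mog cd0q2 cd5q3 pd1 0 false true false .pnn 2 1 3 (qsf 0 536870912 0 1230186008 1) ndB0q2 ndB5q3 pcB1 cut_pm_213_s Ext.none)

def k0_pm_213_s : ∃ t, chk3 f_pm_213_s t 2 4 1 = true :=
  ⟨(l 3), by decide +kernel⟩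

def k1_pm_213_s : ∃ t, chk3 f_pm_213_s t 6 4 1 = true :=
  ⟨(b (l 3) (a (l 3) (b (l 3) (a (l 3) (b (a (l 3) (b (l 3) (a (l 3) (l 315847862887)))) (a (b (l 3) (a (l 363092498695) (l 272361301735))) (b (a (l 284709330167) (l 16761224)) (l 16746864)))))))), by decide +kernel⟩

def k2_pm_213_s : ∃ t, chk3 f_pm_213_s t 14 4 1 = true :=
  ⟨(b (a (l 3) (b (l 3) (a (l 3) (b (l 3) (a (b (l 3) (a (l 3) (b (l 3) (a (l 350744476103) (a (l 311016028807) (l 306184190487)))))) (b (b (l 3) (a (l 3) (b (l 3) (a (l 3) (l 343228283383))))) (b (a (b (l 3) (a (l 368461215847) (l 318532221895))) (b (a (l 330880252743) (l 16776232)) (l 16775160))) (a (a (b (l 305647318935) (l 16774568)) (l 16774128)) (l 16772000))))))))) (a (b (b (l 3) (a (b (l 3) (a (l 3) (l 366313726199))) (b (a (l 369534951159) (b (l 300815480487) (l 265918860135))) (a (l 282024975079) (l 16756816))))) (b (a (b (a (l 325511538007) (l 255181435895)) (a (l 243907148727) (l 16745632))) (b (a (l 16751128) (l 16731296))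 (l 16713488))) (a (b (l 16729680) (l 16701840)) (l 16687800)))) (b (a (b (b (a (l 3) (b (l 3) (a (l 357186927447) (l 282561869863)))) (a (b (l 357723775815) (a (l 350744476711) (l 255181449239))) (b (a (l 269676962919) (l 16769072)) (l 16763232)))) (a (b (b (l 204178708407) (l 16757072)) (l 16738936)) (b (l 16747336) (l 16722160)))) (b (a (b (b (a (a (l 345375767463) (l 292225535895)) (a (l 260550160775) (l 16772232))) (a (l 16771288) (l 16766512))) (a (l 16758736) (l 16753648))) (b (a (b (l 16769456) (l 16762480)) (l 16762896)) (l 16747664))) (a (l 16742080) (l 16711648)))) (a (b (a (l 16695872) (l 16676016)) (l 16616104)) (b (l 16652008) (l 16572824)))))), by decide +kernel⟩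

def k3_pm_213_s : ∃ t, chk3 f_pm_213_s t 30 8 1 = true :=
  ⟨(b (a (l 3) (b (l 3) (b (l 3) (a (l 3) (b (a (l 3) (b (l 3) (a (l 3) (l 405505306967)))) (a (b (l 3) (a (l 3) (b (l 3) (a (l 412484630583) (l 357723799159))))) (b (a (b (l 3) (l 393694148791)) (b (a (l 392620407655) (l 276656285047)) (l 276119419527))) (a (b (a (l 369534958983) (l 16777072)) (l 16776944)) (l 16776648))))))))) (a (b (b (l 3) (b (a (l 3) (a (l 3) (b (a (l 3) (l 383493600791)) (a (l 375440537655) (l 278803775527))))) (a (l 3) (a (b (a (l 3) (l 364166248983)) (a (l 354502572983) (l 16777064))) (b (l 279340643271) (l 16777360)))))) (b (a (a (a (b (l 3) (b (l 356650055703) (l 283098739703))) (b (l 382419856775) (b (l 277730030199) (l 16775664)))) (b (b (a (l 384567341911) (l 346986380503)) (a (l 280951258551) (l 16776488))) (l 16775376))) (b (a (l 16776496) (l 16777472)) (l 16775848))) (a (a (b (l 16773848) (l 16769576)) (l 16770648)) (l 16772368)))) (b (b (a (b (a (l 3) (b (l 3) (a (l 3)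 (b (l 388862310471) (l 272898184599))))) (a (b (l 409263401399) (a (l 391009792935) (b (l 363092507767) (l 277193160791)))) (b (a (b (l 377051150983) (l 275045679063)) (l 16777008)) (l 16776912)))) (b (a (b (a (b (l 397989115319) (a (l 389399182023) (l 273435059143))) (l 275582539303)) (l 278803772823)) (l 16776272)) (l 16776088))) (a (b (a (b (a (l 276119404999) (l 16777064)) (l 16777080)) (l 16776752)) (l 16777000)) (l 16775784))) (b (a (l 16777968) (l 16776800)) (l 16779120))))), by decide +kernel⟩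

def k4_pm_213_s : ∃ t, chk3 f_pm_213_s t 31 8 1 = true :=
  ⟨(b (a (a (b (l 3) (a (b (l 3) (b (b (a (l 419463949879) (a (b (l 3) (l 363092502983)) (l 14))) (a (b (a (l 404431567063) (l 271824442935)) (l 272898184759)) (l 16776680))) (l 16776168))) (b (l 14) (b (l 14) (l 16775000))))) (b (l 14) (b (l 14) (l 16773376)))) (b (l 14) (b (l 14) (l 16766664)))) (b (a (a (b (l 16774328) (l 16773536)) (l 16770576)) (l 16762624)) (a (l 16773368) (l 16761776)))), by decide +kernel⟩

def k5_pm_213_s : ∃ t, chk3 f_pm_213_s t 15 9 1 = true :=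
  ⟨(a (b (a (b (a (b (l 16759720) (l 16742144)) (b (l 16761344) (l 16744456))) (a (l 16706312) (l 16707536))) (b (l 16777056) (l 16739920))) (a (b (l 16638664) (l 16552880)) (b (l 16662736) (l 16561464)))) (b (b (a (l 16771784) (l 16758696)) (l 16755160)) (b (l 16749744) (l 16749208)))), by decide +kernel⟩

def k6_pm_213_s : ∃ t, chk3 f_pm_213_s t 1 5 1 = true :=
  ⟨(a (b (l 3) (a (l 3) (b (a (l 3) (a (l 3) (b (l 336785826935) (a (l 324437798535) (l 246591434135))))) (a (a (l 3) (b (l 3) (l 363092485943))) (a (b (a (l 3) (l 307794720263)) (a (l 290077923463) (l 16737376))) (b (a (l 197736189447) (l 16736344)) (l 16685496))))))) (a (b (a (b (a (l 3) (b (l 3) (a (l 3) (l 332490861271)))) (a (b (l 3) (a (l 3) (l 300815480663))) (b (a (b (l 3) (l 300815455047)) (b (l 266455698087) (l 16769304))) (a (l 226190383495) (l 16760952))))) (b (a (b (a (l 3) (b (l 347523240615) (l 265381974151))) (a (b (l 288467421031) (l 220284814983)) (b (l 16757816) (l 16741608)))) (b (a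 (b (l 208473659239) (l 16741256)) (l 16709104)) (a (l 16710312) (l 16660568)))) (a (b (a (b (l 16758832) (l 16750200)) (l 16722040)) (a (l 16739088) (l 16702224))) (b (l 16649504) (l 16619744))))) (a (b (a (b (a (l 291688629591) (l 16770568)) (a (l 16760424) (l 16753240))) (b (a (l 16762432) (l 16750336)) (l 16743896))) (a (b (l 16711424) (l 16637624)) (b (l 16701640) (l 16622232)))) (b (a (b (l 16706264) (l 16690016)) (b (l 16592448) (l 16566688))) (a (b (l 16669592) (l 16621960)) (l 16534256))))) (b (a (a (b (a (b (l 16658040) (l 16601208)) (b (l 16600384) (l 16534152))) (b (l 16514056) (l 16467264))) (b (a (b (l 16539488) (l 16462544)) (b (l 16485184) (l 16396480))) (a (l 16357720) (l 16273848)))) (b (a (a (l 16424328) (l 16508872)) (l 16464288)) (a (a (l 16217376) (l 16161176)) (l 16087400)))) (b (a (a (b (l 16423920) (l 16386328)) (l 16045536)) (l 6)) (a (a (l 16344392) (l 6)) (l 6)))))), by decide +kernel⟩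

def k7_pm_213_s : ∃ t, chk3 f_pm_213_s t 1 6 1 = true :=
  ⟨(a (b (a (b (l 3) (a (l 3) (a (l 3) (b (l 370071792087) (a (b (l 16763680) (l 16699728)) (b (l 16747112) (l 16682080))))))) (b (a (a (b (l 3) (a (l 3) (l 293835984471))) (b (a (l 322290201543) (b (l 16767904) (l 16736176))) (b (l 16715968) (l 16662216)))) (b (a (l 16678792) (l 16592072)) (a (l 16503480) (l 16463992)))) (a (b (a (a (b (l 16729608) (l 16730384)) (l 16680856)) (l 16435056)) (a (b (l 16615256) (l 16532056)) (l 16372648))) (b (a (l 16417976) (l 16219712)) (a (l 16213376) (l 16105920)))))) (a (b (a (a (l 3) (b (l 3) (a (l 3) (l 306183950999)))) (b (a (a (l 328732608855) (b (l 16712944) (l 16726560))) (b (l 16629288) (l 16517176))) (a (b (a (l 16725464) (l 16640904)) (a (l 16667776) (l 16537544))) (l 16234224)))) (a (b (a (l 389935993991) (b (a (l 16692008) (l 16694520)) (a (l 16719184) (l 16585888)))) (a (a (b (l 3) (l 282561624199)) (b (l 16683592) (l 16645256))) (b (a (l 16593344) (l 16462656))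 (l 16406832)))) (b (a (b (l 16470560) (l 16369480)) (l 16091456)) (a (l 15996368) (b (l 15938016) (a (l 15855176) (l 15718520))))))) (b (a (b (a (l 16283896) (l 16186872)) (a (l 16161008) (a (l 15984768) (l 15933008)))) (a (b (a (l 16056040) (l 16040648)) (l 15959648)) (l 16065992))) (a (b (a (a (l 15953496) (b (l 15898472) (l 15790288))) (l 15825960)) (a (b (l 15758704) (l 15715408)) (l 15806872))) (l 15959728))))) (a (b (a (b (a (b (l 16531064) (l 16402248)) (b (l 16521000) (l 16433048))) (a (b (l 16295360) (l 16226984)) (l 16340416))) (b (l 16440040) (l 16410136))) (a (b (l 16062128) (l 6)) (l 6))) (a (l 6) (l 6)))), by decide +kernel⟩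

def k8_pm_213_s : ∃ t, chk3 f_pm_213_s t 1 7 1 = true :=
  ⟨(a (a (b (b (b (a (a (b (a (l 16654344) (l 16513104)) (l 16350304)) (b (l 16263144) (l 16106816))) (a (b (l 15931328) (l 15758912)) (b (a (l 15693616) (l 15647800)) (l 15629304)))) (a (a (b (l 16301656) (l 16135128)) (b (l 15937520) (l 15754080))) (a (b (a (l 15664328) (l 15574632)) (a (l 15545616) (l 15550136))) (l 15618120)))) (a (b (a (b (l 15955400) (l 15762424)) (b (a (l 15658296) (l 15521728)) (a (l 15503040) (l 15484096)))) (a (b (b (l 15608256) (l 1)) (l 1)) (l 15505016))) (b (l 15599800) (l 15658608)))) (l 1)) (b (a (b (l 15758144) (l 15838296)) (l 6)) (l 6))) (l 6)), by decide +kernel⟩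

theorem s9_pm_213_s : ∃ t, chk3 f_pm_213_s t 1 3 1 = true := ex3_b k7_pm_213_s k8_pm_213_s

theorem s10_pm_213_s : ∃ t, chk3 f_pm_213_s t 15 8 1 = true := ex3_a k3_pm_213_s k4_pm_213_s

theorem s11_pm_213_s : ∃ t, chk3 f_pm_213_s t 15 4 1 = true := ex3_b s10_pm_213_s k5_pm_213_s

theorem s12_pm_213_s : ∃ t, chk3 f_pm_213_s t 7 4 1 = true := ex3_a k2_pm_213_s s11_pm_213_s

theorem s13_pm_213_s : ∃ t, chk3 f_pm_213_s t 3 4 1 = true := ex3_a k1_pm_213_s s12_pm_213_s

theorem s14_pm_213_s : ∃ t, chk3 f_pm_213_s t 1 4 1 = true := ex3_a k0_pm_213_s s13_pm_213_s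

theorem s15_pm_213_s : ∃ t, chk3 f_pm_213_s t 1 2 1 = true := ex3_b s14_pm_213_s k6_pm_213_s

theorem s16_pm_213_s : ∃ t, chk3 f_pm_213_s t 1 1 1 = true := ex3_b s15_pm_213_s s9_pm_213_s

theorem c_pm_213_s : CertNE 0 536870912 0 1230186008 1033476505 6710887 3 eng mog cd0q2 cd5q3 pd1 false true false .pnn 2 1 3
    ndB0q2 ndB5q3 pcB1 cut_pm_213_s Ext.none :=
  certNE0 (fam := false) (s1 := true) (s2 := false) (a := 2) (b := 1) (c := 3) (cn := .pnn) (n1 := ndB0q2) (n2 := ndB5q3) (pc := pcB1) (cut := cut_pm_213_s) (xt := Ext.none) (P1 := 0) (W1 := 536870912) (P2 := 0) (W2 := 1230186008) (P3 := 1033476505) (W3 := 6710887) (N0 := 3) (En := eng) (mo := mog) (C1 := cd0q2) (C2 := cd5q3) (C3 := pd1)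
    rfl s16_pm_213_s

noncomputable def cut_mm_001_s : Cut := Cut.of [[⟨4, 0, 0, 1449551462⟩]]

noncomputable def f_mm_001_s : ℕ → ℕ → ℕ → ℕ → Bool := onCell 0 536870912 0 536870912 1033476505 6710887
    (rowNE 3 eng mog cd0q0 cd5q1 pd0 1 false false false .up 0 0 1 (qsf 0 536870912 536870912 536870912 0) ndB0q0 ndB5q1 pcB0 cut_mm_001_s Ext.none)

def k0_mm_001_s : ∃ t, chk3 f_mm_001_s t 1 1 1 = true :=
  ⟨(l 3), by decide +kernel⟩

theorem c_mm_001_s : CertNE 0 536870912 536870912 536870912 1033476505 6710887 3 eng mog cd0q0 cd5q1 pd0 false false false .up 0 0 1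
    ndB0q0 ndB5q1 pcB0 cut_mm_001_s Ext.none :=
  certNE1 (fam := false) (s1 := false) (s2 := false) (a := 0) (b := 0) (c := 1) (cn := .up) (n1 := ndB0q0) (n2 := ndB5q1) (pc := pcB0) (cut := cut_mm_001_s) (xt := Ext.none) (P1 := 0) (W1 := 536870912) (P2 := 536870912) (W2 := 536870912) (P3 := 1033476505) (W3 := 6710887) (N0 := 3) (En := eng) (mo := mog) (C1 := cd0q0) (C2 := cd5q1) (C3 := pd0)
    rfl (fun _ => rfl) k0_mm_001_s

noncomputable def cut_mm_011_s : Cut := Cut.of [[⟨4, 0, 0, 1449551462⟩]]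

noncomputable def f_mm_011_s : ℕ → ℕ → ℕ → ℕ → Bool := onCell 0 536870912 536870912 536870912 1033476505 6710887
    (rowNE 3 eng mog cd0q0 cd5q1 pd1 1 false false false .pnn 0 1 1 (qsf 0 536870912 536870912 536870912 1) ndB0q0 ndB5q1 pcB1 cut_mm_011_s Ext.none)

def k0_mm_011_s : ∃ t, chk3 f_mm_011_s t 1 1 1 = true :=
  ⟨(l 5), by decide +kernel⟩

theorem c_mm_011_s : CertNE 0 536870912 536870912 536870912 1033476505 6710887 3 eng mog cd0q0 cd5q1 pd1 false false false .pnn 0 1 1
    ndB0q0 ndB5q1 pcB1 cut_mm_011_s Ext.none :=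
  certNE1 (fam := false) (s1 := false) (s2 := false) (a := 0) (b := 1) (c := 1) (cn := .pnn) (n1 := ndB0q0) (n2 := ndB5q1) (pc := pcB1) (cut := cut_mm_011_s) (xt := Ext.none) (P1 := 0) (W1 := 536870912) (P2 := 536870912) (W2 := 536870912) (P3 := 1033476505) (W3 := 6710887) (N0 := 3) (En := eng) (mo := mog) (C1 := cd0q0) (C2 := cd5q1) (C3 := pd1)
    rfl (fun _ => rfl) k0_mm_011_s

noncomputable def cut_mm_012_s : Cut := Cut.of [[⟨4, 0, 0, 1449551462⟩]]

noncomputable def f_mm_012_s : ℕ → ℕ → ℕ → ℕ → Bool := onCell 0 536870912 1073741824 536870912 1033476505 6710887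
    (rowNE 3 eng mog cd0q0 cd5q2 pd1 0 false false false .pnp 0 1 2 (qsf 0 536870912 1073741824 536870912 1) ndB0q0 ndB5q2 pcB1 cut_mm_012_s Ext.none)

def k0_mm_012_s : ∃ t, chk3 f_mm_012_s t 1 1 1 = true :=
  ⟨(l 5), by decide +kernel⟩

theorem c_mm_012_s : CertNE 0 536870912 1073741824 536870912 1033476505 6710887 3 eng mog cd0q0 cd5q2 pd1 false false false .pnp 0 1 2
    ndB0q0 ndB5q2 pcB1 cut_mm_012_s Ext.none :=
  certNE0 (fam := false) (s1 := false) (s2 := false) (a := 0) (b := 1) (c := 2) (cn := .pnp) (n1 := ndB0q0) (n2 := ndB5q2) (pc := pcB1) (cut := cut_mm_012_s) (xt := Ext.none) (P1 := 0) (W1 := 536870912) (P2 := 1073741824) (W2 := 536870912) (P3 := 1033476505) (W3 := 6710887) (N0 := 3) (En := eng) (mo := mog) (C1 := cd0q0) (C2 := cd5q2) (C3 := pd1)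
    rfl k0_mm_012_s

noncomputable def cut_mm_022_s : Cut := Cut.of [[⟨4, 0, 0, 1449551462⟩]]

noncomputable def f_mm_022_s : ℕ → ℕ → ℕ → ℕ → Bool := onCell 0 536870912 1073741824 536870912 1033476505 6710887
    (rowNE 3 eng mog cd0q0 cd5q2 pd2 0 false false false .pp 0 2 2 (qsf 0 536870912 1073741824 536870912 2) ndB0q0 ndB5q2 pcB2 cut_mm_022_s Ext.none)

def k0_mm_022_s : ∃ t, chk3 f_mm_022_s t 1 1 1 = true :=
  ⟨(l 5), by decide +kernel⟩

theorem c_mm_022_s : CertNE 0 536870912 1073741824 536870912 1033476505 6710887 3 eng mog cd0q0 cd5q2 pd2 false false false .pp 0 2 2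
    ndB0q0 ndB5q2 pcB2 cut_mm_022_s Ext.none :=
  certNE0 (fam := false) (s1 := false) (s2 := false) (a := 0) (b := 2) (c := 2) (cn := .pp) (n1 := ndB0q0) (n2 := ndB5q2) (pc := pcB2) (cut := cut_mm_022_s) (xt := Ext.none) (P1 := 0) (W1 := 536870912) (P2 := 1073741824) (W2 := 536870912) (P3 := 1033476505) (W3 := 6710887) (N0 := 3) (En := eng) (mo := mog) (C1 := cd0q0) (C2 := cd5q2) (C3 := pd2)
    rfl k0_mm_022_s

noncomputable def cut_mm_023_s : Cut := Cut.of [[⟨4, 0, 0, 1449551462⟩]]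

noncomputable def f_mm_023_s : ℕ → ℕ → ℕ → ℕ → Bool := onCell 0 536870912 0 1230186008 1033476505 6710887
    (rowNE 3 eng mog cd0q0 cd5q3 pd2 0 false false false .up 0 2 3 (qsf 0 536870912 0 1230186008 2) ndB0q0 ndB5q3 pcB2 cut_mm_023_s Ext.none)

def k0_mm_023_s : ∃ t, chk3 f_mm_023_s t 1 1 1 = true :=
  ⟨(l 5), by decide +kernel⟩

theorem c_mm_023_s : CertNE 0 536870912 0 1230186008 1033476505 6710887 3 eng mog cd0q0 cd5q3 pd2 false false false .up 0 2 3
    ndB0q0 ndB5q3 pcB2 cut_mm_023_s Ext.none :=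
  certNE0 (fam := false) (s1 := false) (s2 := false) (a := 0) (b := 2) (c := 3) (cn := .up) (n1 := ndB0q0) (n2 := ndB5q3) (pc := pcB2) (cut := cut_mm_023_s) (xt := Ext.none) (P1 := 0) (W1 := 536870912) (P2 := 0) (W2 := 1230186008) (P3 := 1033476505) (W3 := 6710887) (N0 := 3) (En := eng) (mo := mog) (C1 := cd0q0) (C2 := cd5q3) (C3 := pd2)
    rfl k0_mm_023_s

noncomputable def cut_mm_033_s : Cut := Cut.of [[⟨4, 0, 0, 1449551462⟩]]

noncomputable def f_mm_033_s : ℕ → ℕ → ℕ → ℕ → Bool := onCell 0 536870912 0 1230186008 1033476505 6710887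
    (rowNE 3 eng mog cd0q0 cd5q3 pd3 0 false false false .pnn 0 3 3 (qsf 0 536870912 0 1230186008 3) ndB0q0 ndB5q3 pcB3 cut_mm_033_s Ext.none)

def k0_mm_033_s : ∃ t, chk3 f_mm_033_s t 1 1 1 = true :=
  ⟨(l 5), by decide +kernel⟩

theorem c_mm_033_s : CertNE 0 536870912 0 1230186008 1033476505 6710887 3 eng mog cd0q0 cd5q3 pd3 false false false .pnn 0 3 3
    ndB0q0 ndB5q3 pcB3 cut_mm_033_s Ext.none :=
  certNE0 (fam := false) (s1 := false) (s2 := false) (a := 0) (b := 3) (c := 3) (cn := .pnn) (n1 := ndB0q0) (n2 := ndB5q3) (pc := pcB3) (cut := cut_mm_033_s) (xt := Ext.none) (P1 := 0) (W1 := 536870912) (P2 := 0) (W2 := 1230186008) (P3 := 1033476505) (W3 := 6710887) (N0 := 3) (En := eng) (mo := mog) (C1 := cd0q0) (C2 := cd5q3) (C3 := pd3)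
    rfl k0_mm_033_s

noncomputable def cut_mm_101_s : Cut := Cut.of [[⟨4, 0, 0, 1449551462⟩], [⟨0, 1, 0, 33554432⟩, ⟨1, 0, 0, 33554432⟩, ⟨2, 1, 0, 33554432⟩]]

noncomputable def f_mm_101_s : ℕ → ℕ → ℕ → ℕ → Bool := onCell 536870912 536870912 0 536870912 1033476505 6710887
    (rowNE 3 eng mog cd0q1 cd5q1 pd0 1 false false false .npn 1 0 1 (qsf 536870912 536870912 536870912 536870912 0) ndB0q1 ndB5q1 pcB0 cut_mm_101_s Ext.none)

def k0_mm_101_s : ∃ t, chk3 f_mm_101_s t 1 1 1 = true :=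
  ⟨(a (l 3) (b (a (l 3) (b (a (l 3) (b (a (l 3) (b (b (a (l 3) (l 14)) (l 3)) (l 3))) (l 3))) (l 3))) (l 3))), by decide +kernel⟩

theorem c_mm_101_s : CertNE 536870912 536870912 536870912 536870912 1033476505 6710887 3 eng mog cd0q1 cd5q1 pd0 false false false .npn 1 0 1
    ndB0q1 ndB5q1 pcB0 cut_mm_101_s Ext.none :=
  certNE1 (fam := false) (s1 := false) (s2 := false) (a := 1) (b := 0) (c := 1) (cn := .npn) (n1 := ndB0q1) (n2 := ndB5q1) (pc := pcB0) (cut := cut_mm_101_s) (xt := Ext.none) (P1 := 536870912) (W1 := 536870912) (P2 := 536870912) (W2 := 536870912) (P3 := 1033476505) (W3 := 6710887) (N0 := 3) (En := eng) (mo := mog) (C1 := cd0q1) (C2 := cd5q1) (C3 := pd0)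
    rfl (fun _ => rfl) k0_mm_101_s

noncomputable def cut_mm_102_s : Cut := Cut.of [[⟨4, 0, 0, 1449551462⟩], [⟨0, 1, 0, 33554432⟩, ⟨1, 0, 0, 33554432⟩, ⟨2, 1, 0, 33554432⟩]]

noncomputable def f_mm_102_s : ℕ → ℕ → ℕ → ℕ → Bool := onCell 536870912 536870912 0 536870912 1033476505 6710887
    (rowNE 3 eng mog cd0q1 cd5q2 pd0 1 false false false .npp 1 0 2 (qsf 536870912 536870912 1073741824 536870912 0) ndB0q1 ndB5q2 pcB0 cut_mm_102_s Ext.none)

def k0_mm_102_s : ∃ t, chk3 f_mm_102_s t 1 1 1 = true :=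
  ⟨(a (l 3) (b (a (l 3) (b (a (l 3) (b (a (l 3) (b (b (a (l 3) (l 14)) (l 3)) (l 3))) (l 3))) (l 3))) (l 3))), by decide +kernel⟩

theorem c_mm_102_s : CertNE 536870912 536870912 1073741824 536870912 1033476505 6710887 3 eng mog cd0q1 cd5q2 pd0 false false false .npp 1 0 2
    ndB0q1 ndB5q2 pcB0 cut_mm_102_s Ext.none :=
  certNE1 (fam := false) (s1 := false) (s2 := false) (a := 1) (b := 0) (c := 2) (cn := .npp) (n1 := ndB0q1) (n2 := ndB5q2) (pc := pcB0) (cut := cut_mm_102_s) (xt := Ext.none) (P1 := 536870912) (W1 := 536870912) (P2 := 1073741824) (W2 := 536870912) (P3 := 1033476505) (W3 := 6710887) (N0 := 3) (En := eng) (mo := mog) (C1 := cd0q1) (C2 := cd5q2) (C3 := pd0)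
    rfl (fun _ => rfl) k0_mm_102_s

noncomputable def cut_mm_112_s : Cut := Cut.of [[⟨4, 0, 0, 1449551462⟩]]

noncomputable def f_mm_112_s : ℕ → ℕ → ℕ → ℕ → Bool := onCell 536870912 536870912 1073741824 536870912 1033476505 6710887
    (rowNE 3 eng mog cd0q1 cd5q2 pd1 2 false false false .dn 1 1 2 (qsf 536870912 536870912 1073741824 536870912 1) ndB0q1 ndB5q2 pcB1 cut_mm_112_s Ext.none)

def k0_mm_112_s : ∃ t, chk3 f_mm_112_s t 1 1 1 = true :=
  ⟨(a (l 3) (l 5)), by decide +kernel⟩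

theorem c_mm_112_s : CertNE 536870912 536870912 1073741824 536870912 1033476505 6710887 3 eng mog cd0q1 cd5q2 pd1 false false false .dn 1 1 2
    ndB0q1 ndB5q2 pcB1 cut_mm_112_s Ext.none :=
  certNE2 (fam := false) (s1 := false) (s2 := false) (a := 1) (b := 1) (c := 2) (cn := .dn) (n1 := ndB0q1) (n2 := ndB5q2) (pc := pcB1) (cut := cut_mm_112_s) (xt := Ext.none) (P1 := 536870912) (W1 := 536870912) (P2 := 1073741824) (W2 := 536870912) (P3 := 1033476505) (W3 := 6710887) (N0 := 3) (En := eng) (mo := mog) (C1 := cd0q1) (C2 := cd5q2) (C3 := pd1)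
    rfl (fun _ => rfl) k0_mm_112_s

noncomputable def cut_mm_113_s : Cut := Cut.of [[⟨4, 0, 0, 1449551462⟩]]

noncomputable def f_mm_113_s : ℕ → ℕ → ℕ → ℕ → Bool := onCell 536870912 536870912 0 1230186008 1033476505 6710887
    (rowNE 3 eng mog cd0q1 cd5q3 pd1 0 false false false .nn 1 1 3 (qsf 536870912 536870912 0 1230186008 1) ndB0q1 ndB5q3 pcB1 cut_mm_113_s Ext.none)

def k0_mm_113_s : ∃ t, chk3 f_mm_113_s t 1 1 1 = true :=
  ⟨(a (l 5) (b (l 5) (a (b (l 5) (l 3)) (l 3)))), by decide +kernel⟩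

theorem c_mm_113_s : CertNE 536870912 536870912 0 1230186008 1033476505 6710887 3 eng mog cd0q1 cd5q3 pd1 false false false .nn 1 1 3
    ndB0q1 ndB5q3 pcB1 cut_mm_113_s Ext.none :=
  certNE0 (fam := false) (s1 := false) (s2 := false) (a := 1) (b := 1) (c := 3) (cn := .nn) (n1 := ndB0q1) (n2 := ndB5q3) (pc := pcB1) (cut := cut_mm_113_s) (xt := Ext.none) (P1 := 536870912) (W1 := 536870912) (P2 := 0) (W2 := 1230186008) (P3 := 1033476505) (W3 := 6710887) (N0 := 3) (En := eng) (mo := mog) (C1 := cd0q1) (C2 := cd5q3) (C3 := pd1)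
    rfl k0_mm_113_s

noncomputable def cut_mm_123_s : Cut := Cut.of [[⟨4, 0, 0, 1449551462⟩]]

noncomputable def f_mm_123_s : ℕ → ℕ → ℕ → ℕ → Bool := onCell 1073741824 536870912 0 1230186008 1033476505 6710887
    (rowNE 3 eng mog cd0q1 cd5q3 pd2 2 false false false .npn 1 2 3 (qsf 536870912 536870912 0 1230186008 2) ndB0q1 ndB5q3 pcB2 cut_mm_123_s Ext.none)

def k0_mm_123_s : ∃ t, chk3 f_mm_123_s t 1 1 1 = true :=
  ⟨(b (l 5) (l 5)), by decide +kernel⟩

theorem c_mm_123_s : CertNE 536870912 536870912 0 1230186008 1033476505 6710887 3 eng mog cd0q1 cd5q3 pd2 false false false .npn 1 2 3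
    ndB0q1 ndB5q3 pcB2 cut_mm_123_s Ext.none :=
  certNE2 (fam := false) (s1 := false) (s2 := false) (a := 1) (b := 2) (c := 3) (cn := .npn) (n1 := ndB0q1) (n2 := ndB5q3) (pc := pcB2) (cut := cut_mm_123_s) (xt := Ext.none) (P1 := 536870912) (W1 := 536870912) (P2 := 0) (W2 := 1230186008) (P3 := 1033476505) (W3 := 6710887) (N0 := 3) (En := eng) (mo := mog) (C1 := cd0q1) (C2 := cd5q3) (C3 := pd2)
    rfl (fun _ => rfl) k0_mm_123_s

noncomputable def cut_mm_133_s : Cut := Cut.of [[⟨4, 0, 0, 1449551462⟩]]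

noncomputable def f_mm_133_s : ℕ → ℕ → ℕ → ℕ → Bool := onCell 1610612736 536870912 0 1230186008 1033476505 6710887
    (rowNE 3 eng mog cd0q1 cd5q3 pd3 2 false false false .dn 1 3 3 (qsf 536870912 536870912 0 1230186008 3) ndB0q1 ndB5q3 pcB3 cut_mm_133_s Ext.none)

def k0_mm_133_s : ∃ t, chk3 f_mm_133_s t 1 1 1 = true :=
  ⟨(l 5), by decide +kernel⟩

theorem c_mm_133_s : CertNE 536870912 536870912 0 1230186008 1033476505 6710887 3 eng mog cd0q1 cd5q3 pd3 false false false .dn 1 3 3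
    ndB0q1 ndB5q3 pcB3 cut_mm_133_s Ext.none :=
  certNE2 (fam := false) (s1 := false) (s2 := false) (a := 1) (b := 3) (c := 3) (cn := .dn) (n1 := ndB0q1) (n2 := ndB5q3) (pc := pcB3) (cut := cut_mm_133_s) (xt := Ext.none) (P1 := 536870912) (W1 := 536870912) (P2 := 0) (W2 := 1230186008) (P3 := 1033476505) (W3 := 6710887) (N0 := 3) (En := eng) (mo := mog) (C1 := cd0q1) (C2 := cd5q3) (C3 := pd3)
    rfl (fun _ => rfl) k0_mm_133_s

noncomputable def cut_mm_202_s : Cut := Cut.of [[⟨4, 0, 0, 1449551462⟩], [⟨0, 1, 0, 22369621⟩, ⟨1, 0, 0, 22369621⟩, ⟨2, 1, 0, 22369621⟩]]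

noncomputable def f_mm_202_s : ℕ → ℕ → ℕ → ℕ → Bool := onCell 0 536870912 0 536870912 1033476505 6710887
    (rowNE 3 eng mog cd0q2 cd5q2 pd0 1 false false false .pp 2 0 2 (qsf 0 536870912 1073741824 536870912 0) ndB0q2 ndB5q2 pcB0 cut_mm_202_s Ext.none)

def k0_mm_202_s : ∃ t, chk3 f_mm_202_s t 2 2 1 = true :=
  ⟨(a (a (l 6) (b (l 6) (b (l 6) (b (l 16549688) (a (l 6) (b (l 16671264) (l 16647880))))))) (a (a (b (l 6) (b (b (l 6) (l 16685248)) (b (b (l 16605784) (a (l 16568240) (l 16494472))) (l 16445960)))) (b (b (l 6) (l 6)) (b (b (b (l 16528248) (l 16641888)) (b (l 16633144) (a (l 16560648) (l 16457184)))) (b (b (l 16379616) (l 16404720)) (l 16403984))))) (b (b (b (l 6) (b (b (l 6) (l 16193504)) (l 16247672))) (b (b (l 16303192) (a (l 16365480) (l 16247800))) (b (a (l 16365248) (l 16415552)) (a (l 16482960) (l 16537944))))) (b (b (a (l 16416976) (b (l 16620176) (a (l 16500648) (l 16481920)))) (a (b (a (l 16495592) (l 16441072)) (l 16402392)) (b (l 16409152)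 (l 16331192)))) (b (a (l 16312672) (b (l 16277808) (l 16239600))) (a (l 16218968) (b (a (l 16240440) (b (l 16203456) (l 16215760))) (a (l 16253520) (b (l 16256872) (l 16329376)))))))))), by decide +kernel⟩

def k1_mm_202_s : ∃ t, chk3 f_mm_202_s t 2 3 1 = true :=
  ⟨(b (b (a (b (a (l 6) (a (b (l 16731296) (l 16745032)) (l 16624552))) (a (a (l 6) (l 16658384)) (l 16684608))) (b (a (l 16287568) (a (b (a (l 16324984) (l 16295432)) (a (l 16340408) (l 16371160))) (b (a (l 16268144) (l 16437432)) (l 16427464)))) (a (a (l 16505112) (b (l 16410448) (a (l 16436512) (l 16456704)))) (a (b (l 16330112) (l 16561512)) (b (l 16510208) (a (l 16663296) (l 16728512))))))) (a (a (b (l 16625496) (l 16664856)) (b (l 16569824) (a (l 16715712) (a (l 16589712) (l 16551456))))) (a (b (a (b (l 16509696) (l 16547824)) (b (l 16532344) (l 16616864))) (b (a (l 16609048) (l 16661672)) (l 16701480))) (b (a (b (l 16604120) (l 16710096)) (b (a (l 16729832) (l 249812646519)) (l 272898065687)))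 (a (b (l 188072491591) (l 280414286807)) (l 332490839319)))))) (a (l 2) (a (l 2) (a (l 2) (l 3))))), by decide +kernel⟩

def k2_mm_202_s : ∃ t, chk3 f_mm_202_s t 6 4 1 = true :=
  ⟨(a (b (a (b (b (l 15939824) (b (l 15945696) (l 15985112))) (b (b (l 16067488) (l 16152224)) (l 16194696))) (b (b (l 15978704) (b (l 15969976) (l 15984088))) (b (b (l 16054824) (l 16043928)) (b (l 16155648) (l 16151720))))) (b (b (a (b (l 16231856) (l 16253128)) (a (l 16222584) (l 16224968))) (a (l 16322720) (l 16334360))) (a (b (l 16443640) (b (l 16549576) (l 16629568))) (b (a (l 16467984) (b (l 16451120) (l 16520336))) (a (l 16608488) (l 16613496)))))) (b (a (b (b (l 16064960) (b (l 16048792) (l 16055488))) (b (b (l 16110056) (b (a (l 16135528) (l 16180720)) (l 16146464))) (b (a (l 16153448) (l 16187176)) (l 16188728)))) (b (b (l 16208360) (b (l 16200064) (b (b (l 16190928) (l 16203520)) (l 16224080)))) (b (b (a (l 16214072) (l 16306152)) (b (a (l 16250984) (l 16340408)) (l 16292632)))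 (a (b (l 16243944) (l 16262792)) (b (l 16326600) (l 16336648)))))) (b (b (a (a (l 16242144) (l 16278480)) (a (b (l 16303536) (l 16343752)) (b (a (l 16357944) (l 16392976)) (a (l 16404880) (l 16437152))))) (a (a (b (l 16331552) (l 16406000)) (b (l 16376304) (l 16435400))) (a (b (l 16417376) (l 16480640)) (b (l 16475608) (l 16533736))))) (b (a (a (b (l 16469720) (l 16536016)) (l 16511448)) (b (a (l 16542576) (l 16595496)) (a (l 16606144) (l 16660720)))) (a (a (l 16628600) (l 16658784)) (a (b (l 16670792) (l 16634712)) (b (a (l 16679640) (l 16680312)) (a (l 16614776) (l 16655912))))))))), by decide +kernel⟩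

def k3_mm_202_s : ∃ t, chk3 f_mm_202_s t 6 10 1 = true :=
  ⟨(a (b (a (b (a (l 16566392) (l 16565856)) (l 16460288)) (b (l 16523472) (l 16418496))) (a (b (l 16372368) (l 16293608)) (b (a (l 16361616) (b (l 16382560) (l 16341128))) (a (b (l 16294376) (l 16264560)) (b (a (l 16300496) (l 16341896)) (l 16345032)))))) (b (b (a (b (l 16594744) (a (l 16540232) (l 16533176))) (a (b (a (l 16580392) (l 16590504)) (a (l 16545264) (l 16581296))) (b (l 16594232) (a (l 16622720) (l 16663000))))) (a (a (b (l 16484136) (l 16433624)) (b (a (l 16480528) (l 16500720)) (a (l 16457512) (l 16508216)))) (a (b (l 16568456) (l 16545904)) (a (b (l 16638368) (l 16663984)) (b (l 16662608) (l 16650480)))))) (a (b (a (b (a (l 16385480) (l 16416256)) (a (l 16377528) (l 16440456))) (b (l 16503048) (l 16534520))) (a (b (l 16443632) (l 16486560)) (b (l 16510672) (l 16513704)))) (b (a (b (a (l 16588856) (l 16644056)) (a (l 16624200) (l 16661064))) (b (a (l 16656008) (a (l 16716672) (b (l 16753672)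 (l 16728784)))) (a (b (l 16706904) (l 16738312)) (a (b (l 16766896) (l 16716776)) (l 491404538279))))) (a (b (a (l 16645072) (a (l 16710952) (l 16698496))) (a (l 16670744) (b (l 265381874263) (l 411410800743)))) (a (b (b (a (l 16757608) (l 16725112)) (l 319605775735)) (l 3)) (l 3))))))), by decide +kernel⟩

def k4_mm_202_s : ∃ t, chk3 f_mm_202_s t 6 11 1 = true :=
  ⟨(a (b (a (b (a (l 16238008) (b (l 16231848) (l 16215472))) (a (b (l 16200600) (l 16198256)) (b (a (l 16200976) (l 16251256)) (l 16281680)))) (b (a (b (a (l 16235632) (l 16283032)) (l 16299656)) (b (l 16393576) (l 16447160))) (a (l 16328320) (b (l 16504336) (l 16563344))))) (a (b (a (b (l 16226136) (l 16294456)) (l 16387488)) (a (l 16409264) (l 16464728))) (b (a (l 16415112) (b (l 16580464) (a (l 16648256) (l 16711216)))) (a (b (l 16613880) (l 16630200)) (b (a (l 16683176) (l 16735560)) (a (l 16751848) (l 16724648))))))) (b (a (b (a (b (l 16535136) (l 16545680)) (a (b (l 16635288) (l 16666152)) (b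 (l 16657744) (a (l 16735280) (l 16719832))))) (a (b (l 16558392) (a (l 16664720) (l 16708000))) (b (a (a (l 16703064) (l 16732632)) (l 399599619015)) (a (a (l 16725936) (l 16714440)) (l 3))))) (b (a (a (b (b (l 16737984) (l 264844996247)) (l 307794588615)) (b (l 503752595495) (l 3))) (l 3)) (l 3))) (a (a (b (b (a (l 16709264) (l 271287435207)) (a (l 238001446903) (l 16726008))) (a (l 295983471767) (l 3))) (l 3)) (l 3)))), by decide +kernel⟩

def k5_mm_202_s : ∃ t, chk3 f_mm_202_s t 14 8 1 = true :=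
  ⟨(a (b (b (b (l 16383560) (a (l 16345984) (l 16443784))) (b (a (l 16341456) (b (l 16439120) (l 16437880))) (a (b (l 16300376) (l 16376456)) (b (l 16458088) (l 16490256))))) (b (b (a (l 16416432) (l 16503896)) (a (b (l 16441736) (l 16437608)) (b (l 16544808) (l 16545168)))) (a (b (l 16430464) (a (l 16411200) (l 16459424))) (b (a (l 16496392) (l 16549688)) (a (l 16513240) (l 16570608)))))) (b (b (a (b (l 16525136) (b (l 16536424) (l 16517024))) (b (b (l 16582600) (a (l 16594432) (l 16620808))) (a (l 16584608) (l 16639016)))) (b (a (l 16550032) (a (l 16628008) (l 16666040))) (a (b (l 16574152) (l 16602096)) (a (l 16644768) (b (l 16693464) (l 16715808)))))) (b (b (a (a (l 16605216) (l 16635080)) (a (b (l 16696512) (l 16705864)) (b (l 16722712) (l 16725296)))) (a (b (a (l 16620816) (l 16647088)) (l 16582904)) (a (b (b (l 16709136) (l 16710888)) (l 16713904)) (l 16729632)))) (a (b (a (l 16624280) (l 16675192)) (a (l 16626200) (l 16681776))) (a (b (l 16721048) (a (l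 16719648) (l 16742752))) (a (b (l 16733424) (b (l 16734584) (l 16741128))) (b (l 16730136) (l 16740512)))))))), by decide +kernel⟩

def k6_mm_202_s : ∃ t, chk3 f_mm_202_s t 28 18 1 = true :=
  ⟨(b (a (b (a (l 16428936) (l 16474976)) (l 16426240)) (b (a (l 16523064) (l 16575184)) (a (l 16548848) (l 16594776)))) (a (b (a (l 16523088) (l 16556104)) (l 16554720)) (b (a (l 16592976) (b (l 16621360) (l 16600904))) (a (b (l 16635408) (l 16661344)) (b (l 16643840) (l 16689176)))))), by decide +kernel⟩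

def k7_mm_202_s : ∃ t, chk3 f_mm_202_s t 29 18 1 = true :=
  ⟨(b (a (b (a (l 16631464) (b (l 16685504) (l 16646576))) (a (b (l 16639928) (l 16607856)) (b (l 16646168) (l 16691696)))) (a (b (a (b (l 16725552) (l 16723424)) (l 16743016)) (b (l 16688792) (a (l 16721392) (l 16740000)))) (b (a (l 16755016) (l 16756936)) (a (b (l 16754064) (l 16755056)) (b (l 16764448) (b (l 16765616) (l 16766824))))))) (a (b (a (b (l 16639232) (l 16676240)) (b (l 16698848) (l 16689616))) (a (b (l 16695128) (l 16694000)) (b (a (l 16717344) (l 16732792)) (a (l 16713520) (l 16726136))))) (b (a (a (b (l 16727320) (l 16716216)) (b (l 16724232) (b (l 16751592) (l 16735304)))) (b (a (b (l 16736920) (l 16740336)) (b (a (l 16766456) (l 16771336)) (a (l 16748632) (b (l 16773440) (l 280414375895))))) (c (a (b (l 16744352) (l 16769208)) (a (b (l 16773088) (b (l 16765048) (l 293299243431))) (b (a (l 289004293239) (l 468856063383)) (l 524690610775)))) (a (b (l 16743888) (l 16774128)) (a (b (l 16772920)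 (b (l 16764968) (l 315847820967))) (b (a (l 289004293143) (l 468856062807)) (l 523079996471))))))) (a (b (a (a (l 16744584) (l 16731576)) (b (l 16740136) (a (l 16762640) (l 16747968)))) (a (b (l 16736536) (a (l 16759888) (l 16745200))) (b (a (l 16746560) (c (l 16773280) (l 16773112))) (a (l 16772064) (a (b (l 16774912) (l 16766136)) (b (l 311015998935) (l 333564551943))))))) (a (b (a (b (l 16770336) (c (l 16766464) (l 266455721623))) (b (c (l 278803740327) (a (l 16774160) (l 283098708823))) (a (b (l 281488103527) (l 517711313287)) (l 534891166151)))) (a (b (a (c (l 277193124119) (l 276119381895)) (b (l 324437758567) (l 3))) (l 3)) (l 3))) (b (a (b (a (b (l 297594217783) (l 3)) (l 3)) (l 3)) (l 3)) (l 3))))))), by decide +kernel⟩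

def k8_mm_202_s : ∃ t, chk3 f_mm_202_s t 14 19 1 = true :=
  ⟨(a (b (a (b (a (l 16641624) (b (l 16659392) (l 16664888))) (a (l 16680224) (l 16716912))) (b (b (a (l 16685456) (l 16709792)) (a (l 16707424) (l 16706352))) (a (l 16734112) (b (l 16742064) (l 16750464))))) (a (b (a (l 16692696) (l 16712280)) (a (l 16683200) (l 16688960))) (b (a (b (l 16732560) (l 16731512)) (b (l 16750032) (a (l 16747432) (l 16737256)))) (a (b (l 16734016) (l 16718624)) (b (a (l 16752656) (l 16765232)) (a (l 16739848) (b (l 16751088) (l 311015933319)))))))) (b (a (b (a (b (l 16712360) (l 16747392)) (a (b (l 16749608) (l 16761576)) (b (b (l 16736576) (l 16763296)) (b (l 16768144) (l 16771968))))) (a (b (l 16758464) (a (l 16760472) (l 16767368))) (a (b (l 16769848) (b (l 16773448) (l 304036628695))) (b (a (b (l 16773448) (l 16755192)) (b (l 246591466119) (l 545091708935))) (a (l 538649268951) (l 3)))))) (a (b (b (b (c (a (l 16768528) (a (l 263771344167) (l 537038642791))) (a (l 16768168)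 (a (l 260013247143) (l 535964899575)))) (a (a (l 16770488) (c (l 252497068023) (l 247665229271))) (a (b (l 515563828503) (l 3)) (l 3)))) (a (a (b (l 16774440) (l 311552831543)) (b (a (l 261623856247) (l 552071036535)) (l 3))) (l 3))) (a (b (a (l 566029639159) (l 3)) (l 3)) (l 3))) (l 3))) (a (a (b (b (a (l 16763264) (b (l 16770768) (l 226727243703))) (a (b (l 16746344) (l 16770960)) (b (l 311015929063) (l 541333600807)))) (a (b (a (l 231559070343) (l 316921488583)) (l 552070979175)) (l 3))) (a (b (b (b (l 521469397191) (l 559050316791)) (l 3)) (l 3)) (l 3))) (l 3)))), by decide +kernel⟩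

def k9_mm_202_s : ∃ t, chk3 f_mm_202_s t 30 32 1 = true :=
  ⟨(b (a (a (b (l 16629224) (l 16636400)) (l 16627040)) (b (l 16647432) (l 16660752))) (a (a (l 16636424) (l 16633544)) (b (l 16696064) (a (l 16710608) (b (l 16733752) (a (l 16737104) (l 16741408))))))), by decide +kernel⟩

def k10_mm_202_s : ∃ t, chk3 f_mm_202_s t 31 64 1 = true :=
  ⟨(a (b (a (l 16702432) (l 14)) (a (l 16698840) (a (l 16740112) (l 14)))) (l 14)), by decide +kernel⟩

def k11_mm_202_s : ∃ t, chk3 f_mm_202_s t 62 65 1 = true :=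
  ⟨(a (b (b (l 16736816) (a (l 16742416) (l 16749504))) (a (b (l 16743920) (l 16742056)) (b (l 16744992) (l 16749376)))) (b (a (b (b (l 16755248) (l 16752632)) (l 16750656)) (b (b (l 16755392) (l 16734456)) (l 16758520))) (a (b (l 16732008) (l 16759208)) (b (b (l 16762464) (l 16765056)) (a (l 16766248) (l 16769024)))))), by decide +kernel⟩

def k12_mm_202_s : ∃ t, chk3 f_mm_202_s t 63 65 1 = true :=
  ⟨(a (b (a (b (l 14) (a (b (l 16765256) (l 16767920)) (l 14))) (l 14)) (b (a (a (a (l 16769160) (l 16770168)) (l 16774960)) (b (l 14) (a (a (l 16775216) (l 14)) (l 14)))) (a (a (l 16771744) (b (l 16774136) (a (l 16774560) (a (l 16775656) (b (l 16776104) (c (l 16776648) (l 16776656))))))) (a (a (b (b (c (l 16776072) (l 16776072)) (a (l 16776272) (a (c (l 16776816) (l 16776816)) (b (c (c (l 16777040) (l 16777040)) (c (l 16777040) (l 56002347223))) (c (a (c (l 211694911863) (l 212768653687)) (l 540259909831)) (a (b (l 16777152) (l 340007059783)) (l 546702360775)))))))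 (a (a (b (l 16776648) (b (c (c (l 16777048) (l 16777048)) (l 39896219975)) (c (a (c (l 218137362823) (l 218674233735)) (l 561734746327)) (a (b (l 16777160) (l 371682443559)) (l 564955971799))))) (b (b (l 16776872) (a (c (l 16777048) (l 16777048)) (c (c (l 212768653703) (l 213305524615)) (b (l 16777160) (l 348060123463))))) (b (c (c (l 480130367687) (l 482277851335)) (l 486035947063)) (l 3)))) (b (a (b (a (c (c (l 16777128) (l 16777128)) (l 128479920375)) (b (c (l 272898195719) (l 277193163015)) (l 3))) (c (l 564955971895) (l 572472164647))) (l 3)) (l 3)))) (b (a (b (b (a (l 16776856) (l 14)) (a (b (c (l 16777064) (l 16777064)) (a (l 298131127863) (c (l 327659028807) (l 331953996103)))) (c (l 560124133671) (l 563345359143)))) (a (a (b (b (c (l 265382002951) (l 269140099335)) (l 3)) (l 3)) (l 3)) (l 3))) (l 3)) (l 3))) (l 3))))) (l 14)), by decide +kernel⟩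

def k13_mm_202_s : ∃ t, chk3 f_mm_202_s t 30 33 1 = true :=
  ⟨(a (a (b (l 16688952) (b (l 16717936) (l 16728416))) (b (b (l 16702904) (a (l 16714584) (l 16728968))) (b (b (l 16734112) (l 16735536)) (l 16739040)))) (b (b (b (a (l 16724888) (l 16741208)) (a (l 16735480) (l 16743160))) (a (a (l 16737968) (l 16741232)) (l 16749216))) (a (b (l 16744848) (l 16749176)) (a (b (l 16752656) (l 16754488)) (b (l 16756528) (l 16760072)))))), by decide +kernel⟩

def k14_mm_202_s : ∃ t, chk3 f_mm_202_s t 62 66 1 = true :=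
  ⟨(b (a (b (l 16751312) (l 16756328)) (a (b (l 16763992) (l 16766880)) (a (b (l 16768384) (l 16770768)) (b (l 16771216) (c (l 16773536) (l 16773544)))))) (b (a (a (l 16756832) (l 16763120)) (b (a (l 16768392) (a (l 16772440) (c (l 16775112) (l 16775112)))) (a (l 16769336) (a (l 16773376) (a (l 16775432) (a (c (l 16777328) (l 16776464)) (b (a (l 16776728) (b (l 16776944) (c (l 200420621447) (l 203641848231)))) (c (a (b (l 16777112) (l 357186929223)) (l 553144811943)) (a (b (l 16777112) (l 462413627559)) (l 556366037415)))))))))) (a (a (l 16759528) (l 16765312)) (a (l 16770688) (b (a (l 16774360) (b (a (l 16776200) (a (a (b (l 16776944) (c (l 208473686455) (l 212231782839))) (c (c (l 441475662039) (l 443623145687)) (l 446844371159))) (l 3))) (a (a (l 16776376) (b (c (l 16777368) (l 16776960)) (a (l 297057385671) (c (l 365776863831) (l 482814722183))))) (a (c (l 568714068583) (l 571935294055)) (l 3))))) (a (a (l 16774680) (c (c (l 16776104) (l 16776104)) (l 16776760)))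 (a (a (b (a (l 16776728) (b (l 16776952) (c (l 217600491975) (l 220821717447)))) (c (a (c (l 233706619623) (l 240149070535)) (l 568177197495)) (l 531669974311))) (b (c (c (l 482277851559) (l 484425335207)) (l 575156518615)) (l 3))) (l 3)))))))), by decide +kernel⟩

def k15_mm_202_s : ∃ t, chk3 f_mm_202_s t 62 67 1 = true :=
  ⟨(a (b (a (b (l 16761352) (l 16763112)) (l 16773080)) (a (l 16765752) (a (l 16770440) (b (l 16772432) (b (l 16774136) (c (c (l 16775312) (l 16775312)) (l 259476416743))))))) (a (b (a (b (l 16771200) (l 16773280)) (b (b (l 16773576) (l 16774624)) (a (b (l 16774976) (c (a (l 16775712) (l 16776480)) (l 16776096))) (b (a (l 16776096) (b (l 16776560) (b (c (l 16777000) (l 16777000)) (a (l 298667998743) (l 610589996919))))) (b (a (a (l 16776760) (c (l 166060881927) (l 169282110023))) (a (l 590188901527) (l 3))) (c (l 593946995895) (l 591799507479))))))) (a (b (a (c (l 16774736) (l 16774744)) (b (l 16775712) (c (a (l 16776488) (b (a (l 16776776)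 (l 180019528311)) (l 562808483943))) (a (l 16776496) (b (l 127406176295) (l 563345352823)))))) (b (b (a (l 16776200) (c (l 562271610279) (l 562808478055))) (a (a (l 16776400) (a (l 280414387319) (c (l 304573580039) (l 537038680951)))) (l 3))) (a (c (c (l 533817456503) (l 534354322231)) (a (l 476909137671) (l 625085497047))) (l 3)))) (b (a (b (b (a (l 16776576) (c (l 496236493751) (l 516100716647))) (b (c (l 513953233239) (l 517711328439)) (c (l 567103450583) (l 566566576679)))) (c (l 641191628231) (l 634212299015))) (l 3)) (l 3)))) (b (a (b (b (a (l 16775736) (b (a (l 16776552) (a (c (b (l 16776960) (l 226727297495)) (l 152102238135)) (c (l 454360563959) (l 584283323175)))) (a (b (c (l 16776976) (l 16776976)) (a (l 269140098455) (l 604147547559))) (l 677161990999)))) (c (a (a (l 16776472) (b (c (l 16776944) (l 16776944)) (l 506437041735))) (a (l 591262646087) (l 3))) (a (a (l 16776472) (b (a (l 16776744) (l 156397208087)) (l 557976647063))) (l 644949728247))))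 (a (b (a (b (a (c (l 158007819543) (l 161229046327)) (l 588041420087)) (l 3)) (l 3)) (l 3)) (l 3))) (l 3)) (l 3)))), by decide +kernel⟩

def k16_mm_202_s : ∃ t, chk3 f_mm_202_s t 504 132 1 = true :=
  ⟨(a (b (l 16773384) (b (l 16775064) (b (l 16775872) (c (l 16777040) (l 16776384))))) (b (b (l 16774248) (l 16775368)) (b (a (l 16776104) (b (l 16776528) (a (c (l 16776872) (l 16776880)) (b (c (l 66202894647) (l 16777080)) (c (a (l 260550164871) (l 3)) (l 435033211015)))))) (b (b (a (l 16776760) (a (c (c (l 248202134007) (l 249275875831)) (a (l 16777168) (l 373829927383))) (l 3))) (a (a (l 16776848) (a (l 263771389463) (c (l 262697648535) (l 266455744919)))) (l 3))) (a (c (a (b (l 70497861959) (a (l 270213841303) (l 3))) (l 526838137223)) (a (b (l 16777088) (l 442012532887)) (l 533280588167))) (l 3)))))), by decide +kernel⟩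

def k17_mm_202_s : ∃ t, chk3 f_mm_202_s t 505 132 1 = true :=
  ⟨(b (a (b (c (l 16775688) (l 16775688)) (a (c (c (l 16776424) (l 16776424)) (l 16777280)) (a (b (l 16776680) (b (c (l 65666023703) (l 16777064)) (c (c (l 326585287175) (l 328195899911)) (l 428053889143)))) (b (b (l 16776896) (c (c (l 153712853415) (l 154786595239)) (a (l 16777072) (l 248739004791)))) (b (c (l 490867785959) (l 496773365991)) (l 3)))))) (a (b (b (l 16776480) (a (c (l 16776848) (l 16776848)) (b (c (a (l 16776976) (l 138680467719)) (l 16777056)) (c (a (c (l 234780361079) (l 235854102903)) (l 569250939111)) (a (l 232096006551) (l 573009035495)))))) (b (a (b (c (a (l 139754209559) (b (l 292225548583) (l 3))) (a (l 16777144) (l 351281349063))) (c (l 579988357447) (l 583746453831))) (l 3)) (l 3))) (b (b (b (a (l 16776880) (c (a (l 132238016775) (b (l 282025001239) (l 3))) (a (l 16777136) (l 344838897447)))) (a (a (l 279877516679) (a (c (l 175724560647) (l 16777184)) (c (l 320679706935) (l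 324974674231)))) (c (l 574619648311) (l 577840873783)))) (a (b (c (c (l 484962205911) (l 487109689559)) (l 490867785943)) (l 3)) (l 3))) (l 3)))) (a (b (a (a (b (b (l 16776912) (a (l 273435065815) (c (l 253570843015) (l 257328939399)))) (b (c (l 501068333287) (l 506973913319)) (l 3))) (b (a (b (c (l 148344144167) (l 16777152)) (l 585357066487)) (c (l 504826429063) (l 510732009751))) (l 3))) (l 3)) (l 3)) (l 3))), by decide +kernel⟩

def k18_mm_202_s : ∃ t, chk3 f_mm_202_s t 252 133 1 = true :=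
  ⟨(a (b (a (b (b (a (l 16776552) (a (c (c (l 72645345767) (l 73719087591)) (b (l 16776936) (l 196125655447))) (b (c (c (l 255181455879) (l 256255197703)) (a (l 16777176) (l 384030474727))) (l 3)))) (c (a (a (l 16776896) (b (l 16777104) (a (l 280414388647) (l 3)))) (a (l 532206846359) (l 3))) (a (a (l 16776896) (b (l 16777104) (l 453823692951))) (l 563345359431)))) (a (b (a (b (c (c (l 262697648663) (l 263771390487)) (l 269676970519)) (l 3)) (l 3)) (l 3)) (l 3))) (l 3)) (l 3)) (l 3)), by decide +kernel⟩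

def k19_mm_202_s : ∃ t, chk3 f_mm_202_s t 253 66 1 = true :=
  ⟨(l 3), by decide +kernel⟩

def k20_mm_202_s : ∃ t, chk3 f_mm_202_s t 126 67 1 = true :=
  ⟨(l 3), by decide +kernel⟩

def k21_mm_202_s : ∃ t, chk3 f_mm_202_s t 127 33 1 = true :=
  ⟨(l 3), by decide +kernel⟩

def k22_mm_202_s : ∃ t, chk3 f_mm_202_s t 30 34 1 = true :=
  ⟨(a (a (b (l 16732384) (b (l 16734696) (l 16734328))) (b (l 16758872) (b (l 16753288) (a (l 16720320) (l 16748768))))) (b (b (a (l 16765744) (a (l 16757536) (l 16742640))) (b (a (l 16750984) (l 16763720)) (a (l 16752528) (a (l 16762640) (l 16769624))))) (a (b (b (l 16733392) (l 16735592)) (b (l 16738368) (l 16741200))) (a (b (l 16756000) (b (l 16770464) (a (l 16750400) (a (l 16774024) (c (l 327122149479) (l 310479137911)))))) (b (c (a (l 16771728) (b (l 16773880) (a (l 322290311143) (b (a (l 16776280) (l 314237217223)) (l 540259893863))))) (a (l 16771792) (b (l 16773920) (a (l 290078037623) (b (l 311015989991) (l 541333633687))))))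 (a (b (a (l 16774840) (b (l 295446763607) (a (c (l 16765000) (l 16763696)) (b (l 409263391767) (l 3))))) (c (a (b (c (l 309942248615) (l 311015989959)) (l 543481116807)) (l 590725757111)) (a (b (l 313163473127) (l 544017985815)) (l 587504527431)))) (b (a (b (c (l 509121388727) (l 512342613239)) (l 3)) (l 3)) (l 3)))))))), by decide +kernel⟩

def k23_mm_202_s : ∃ t, chk3 f_mm_202_s t 31 34 1 = true :=
  ⟨(a (a (b (a (a (b (l 16768560) (b (l 16772192) (b (l 16774088) (c (l 313700375735) (l 299741716759))))) (b (b (l 16749688) (l 16773056)) (b (a (l 16774712) (b (l 16775744) (a (c (l 16776600) (l 16776608)) (c (l 506973909047) (l 510732004679))))) (a (b (a (l 16776200) (b (l 16776720) (l 511805749783))) (c (l 537575552471) (l 539186163095))) (b (c (l 573545886071) (l 573009011639)) (l 3)))))) (b (a (b (a (l 16773088) (l 16776672)) (a (b (l 16774904) (a (l 16775736) (b (l 16776248) (l 385641084519)))) (b (a (l 16776136) (b (l 16776648) (a (l 418927081927) (b (l 297594257911)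 (l 3))))) (a (c (l 502678942775) (l 506437038487)) (l 625622381287))))) (a (b (b (l 16775712) (a (b (l 16776224) (l 348596991511)) (c (l 498383976423) (l 502678943127)))) (b (c (l 574619642455) (l 574082767511)) (l 3))) (b (b (b (a (l 16776616) (c (l 523616908327) (l 526301261911))) (c (l 535428065079) (l 537575546791))) (c (l 632601685415) (l 626696099367))) (l 3)))) (a (b (a (b (b (a (l 16776680) (l 534891197367)) (c (l 539723029495) (l 541333640391))) (l 3)) (l 3)) (l 3)) (l 3)))) (a (b (a (b (a (b (l 16775816) (a (b (l 16776360) (l 309405395127)) (b (l 472614172903) (l 595020729223)))) (b (c (c (l 503215811223) (l 504289552631)) (l 507510780071)) (l 3))) (a (a (c (l 574619620103) (l 574082745527)) (l 3)) (l 3))) (l 3)) (l 3)) (l 3))) (l 3)) (l 3)), by decide +kernel⟩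

def k24_mm_202_s : ∃ t, chk3 f_mm_202_s t 15 35 1 = true :=
  ⟨(a (a (a (a (b (b (l 16732232) (l 16735680)) (l 16746848)) (b (b (l 16717272) (l 16744096)) (l 16755504))) (a (b (l 16728576) (b (l 16738976) (l 16766424))) (b (l 16768472) (b (l 16767400) (a (c (l 16771312) (l 16771512)) (b (l 16773272) (a (l 16775000) (c (l 302426060391) (l 304036672871))))))))) (b (a (a (b (l 16741768) (b (l 16746240) (l 16770104))) (a (b (l 16747376) (b (l 16772560) (c (a (l 16774368) (l 280414356439)) (l 300278577943)))) (b (b (l 16749584) (l 16773312)) (b (a (b (l 16753496) (l 16775792)) (b (l 298667983399) (c (l 490330909799) (l 493552134855)))) (a (b (a (l 302426078647) (l 499457717079)) (a (l 537038669015) (l 3))) (l 3)))))) (a (a (b (c (b (l 16774064) (a (l 307257911527) (b (l 311015989143) (l 544017985335)))) (b (l 16774120) (a (l 303499806679) (b (l 314237214231) (l 544554854439))))) (a (b (b (c (l 516637576695) (l 518785059255)) (l 3)) (l 3)) (l 3))) (b (a (b (b (l 297594244295)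 (c (l 483888461351) (l 488720299319))) (c (l 588578250103) (l 585357020871))) (b (b (c (l 513953224535) (l 516100707159)) (l 3)) (l 3))) (l 3))) (l 3))) (a (a (b (a (b (l 16750208) (l 16773872)) (b (b (l 16773872) (l 291688667911)) (a (c (l 278266870887) (l 304036674407)) (b (a (l 304036688759) (l 505363291863)) (l 560124107479))))) (a (b (a (b (l 16774984) (l 16770960)) (b (l 300815461383) (c (l 497310226535) (l 499457709543)))) (a (b (a (l 306184169639) (l 511268869303)) (l 561197847335)) (l 3))) (a (b (c (l 530059332471) (l 530596201447)) (l 3)) (l 3)))) (b (a (b (a (b (l 299741722295) (c (l 494089003623) (l 496773357639))) (c (l 531133076263) (l 532206818679))) (l 3)) (l 3)) (l 3))) (l 3)))) (l 3)), by decide +kernel⟩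

def k25_mm_202_s : ∃ t, chk3 f_mm_202_s t 15 9 1 = true :=
  ⟨(b (a (a (b (a (b (a (b (l 16758760) (l 16765704)) (b (l 16765840) (b (l 16770216) (l 16772592)))) (a (b (a (l 16769128) (l 16771400)) (a (c (l 16772128) (l 16771880)) (b (l 16773984) (a (l 16772792) (c (l 303499796983) (l 304573538407)))))) (b (a (b (l 16772968) (a (l 16774088) (l 16775456))) (c (b (l 291688655271) (a (l 302962926935) (l 493552118631))) (b (l 292762396919) (a (l 304573539607) (l 494625859463))))) (a (c (b (a (l 16765664) (l 465634843623)) (l 516637552647)) (b (a (l 295446750231) (l 467245455927)) (l 515026938343))) (l 3))))) (b (a (b (b (l 16770760) (a (l 16771896) (l 16772064))) (a (b (l 16774280) (a (l 16775512) (c (l 302962928487) (l 304573540823)))) (b (a (b (l 16775656) (l 296520498423)) (b (l 302962940231) (l 502142059447))) (a (c (l 495162733447) (l 496236474295)) (l 3))))) (b (a (c (b (l 16775136) (a (l 302426058807) (l 496236477495))) (b (l 16775224) (a (l 304573542071) (l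 497847089271)))) (b (b (a (l 301889200823) (l 522543149191)) (c (l 515563819639) (l 516100688951))) (l 3))) (a (b (c (l 547239183159) (l 545628567879)) (l 3)) (l 3)))) (a (b (a (b (a (b (l 304036680215) (l 503215798967)) (b (l 540259885143) (l 3))) (l 3)) (l 3)) (l 3)) (l 3)))) (b (a (a (b (a (b (b (l 16774632) (a (l 16775040) (l 299204845015))) (a (b (l 291151788487) (l 469392938631)) (b (l 502678929623) (l 3)))) (b (a (b (l 305647289015) (l 520395663991)) (l 3)) (l 3))) (l 3)) (l 3)) (l 3)) (l 3))) (l 3)) (l 3)) (l 3)), by decide +kernel⟩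

def k26_mm_202_s : ∃ t, chk3 f_mm_202_s t 7 5 1 = true :=
  ⟨(b (a (a (b (b (a (b (a (l 16686992) (b (l 16716536) (l 16724528))) (a (l 16681480) (b (l 16714176) (l 16748200)))) (a (b (b (l 16727032) (a (l 16750400) (l 16746312))) (a (b (l 16763080) (l 257865691015)) (b (l 254644444439) (l 3)))) (b (a (b (c (l 234780281703) (l 16728992)) (b (l 314237141255) (l 321216427639))) (b (l 539186100935) (l 3))) (l 3)))) (a (b (a (b (l 16720736) (l 16714784)) (a (b (l 16731840) (l 16747128)) (b (l 251960131751) (l 484425244983)))) (b (a (a (l 16740920) (l 16763904)) (l 537038600183)) (a (a (l 16759096) (l 264845002615)) (l 3)))) (a (b (a (l 544017890247) (l 3)) (l 3)) (l 3)))) (b (a (a (b (a (b (l 266455631911) (l 16699488)) (l 3)) (l 3)) (l 3)) (l 3)) (l 3))) (l 3)) (l 3)) (l 3)), by decide +kernel⟩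

def k27_mm_202_s : ∃ t, chk3 f_mm_202_s t 3 3 1 = true :=
  ⟨(a (b (a (b (b (a (b (b (l 16481440) (l 16536568)) (a (l 16606264) (b (l 16715832) (l 16750264)))) (b (a (b (l 16700968) (l 175187575143)) (b (l 291151663287) (l 3))) (a (l 288467304343) (l 3)))) (a (b (a (b (l 16712560) (l 16746256)) (l 282024867143)) (a (l 275045560583) (l 3))) (l 3))) (l 3)) (l 3)) (l 3)) (l 3)), by decide +kernel⟩

theorem s28_mm_202_s : ∃ t, chk3 f_mm_202_s t 15 34 1 = true := ex3_a k22_mm_202_s k23_mm_202_s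

theorem s29_mm_202_s : ∃ t, chk3 f_mm_202_s t 15 17 1 = true := ex3_b s28_mm_202_s k24_mm_202_s

theorem s30_mm_202_s : ∃ t, chk3 f_mm_202_s t 252 132 1 = true := ex3_a k16_mm_202_s k17_mm_202_s

theorem s31_mm_202_s : ∃ t, chk3 f_mm_202_s t 252 66 1 = true := ex3_b s30_mm_202_s k18_mm_202_s

theorem s32_mm_202_s : ∃ t, chk3 f_mm_202_s t 126 66 1 = true := ex3_a s31_mm_202_s k19_mm_202_s

theorem s33_mm_202_s : ∃ t, chk3 f_mm_202_s t 126 33 1 = true := ex3_b s32_mm_202_s k20_mm_202_s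

theorem s34_mm_202_s : ∃ t, chk3 f_mm_202_s t 63 33 1 = true := ex3_a s33_mm_202_s k21_mm_202_s

theorem s35_mm_202_s : ∃ t, chk3 f_mm_202_s t 62 33 1 = true := ex3_b k14_mm_202_s k15_mm_202_s

theorem s36_mm_202_s : ∃ t, chk3 f_mm_202_s t 31 33 1 = true := ex3_a s35_mm_202_s s34_mm_202_s

theorem s37_mm_202_s : ∃ t, chk3 f_mm_202_s t 15 33 1 = true := ex3_a k13_mm_202_s s36_mm_202_s

theorem s38_mm_202_s : ∃ t, chk3 f_mm_202_s t 31 65 1 = true := ex3_a k11_mm_202_s k12_mm_202_s

theorem s39_mm_202_s : ∃ t, chk3 f_mm_202_s t 31 32 1 = true := ex3_b k10_mm_202_s s38_mm_202_s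

theorem s40_mm_202_s : ∃ t, chk3 f_mm_202_s t 15 32 1 = true := ex3_a k9_mm_202_s s39_mm_202_s

theorem s41_mm_202_s : ∃ t, chk3 f_mm_202_s t 15 16 1 = true := ex3_b s40_mm_202_s s37_mm_202_s

theorem s42_mm_202_s : ∃ t, chk3 f_mm_202_s t 15 8 1 = true := ex3_b s41_mm_202_s s29_mm_202_s

theorem s43_mm_202_s : ∃ t, chk3 f_mm_202_s t 15 4 1 = true := ex3_b s42_mm_202_s k25_mm_202_s

theorem s44_mm_202_s : ∃ t, chk3 f_mm_202_s t 14 18 1 = true := ex3_a k6_mm_202_s k7_mm_202_s

theorem s45_mm_202_s : ∃ t, chk3 f_mm_202_s t 14 9 1 = true := ex3_b s44_mm_202_s k8_mm_202_s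

theorem s46_mm_202_s : ∃ t, chk3 f_mm_202_s t 14 4 1 = true := ex3_b k5_mm_202_s s45_mm_202_s

theorem s47_mm_202_s : ∃ t, chk3 f_mm_202_s t 7 4 1 = true := ex3_a s46_mm_202_s s43_mm_202_s

theorem s48_mm_202_s : ∃ t, chk3 f_mm_202_s t 7 2 1 = true := ex3_b s47_mm_202_s k26_mm_202_s

theorem s49_mm_202_s : ∃ t, chk3 f_mm_202_s t 6 5 1 = true := ex3_b k3_mm_202_s k4_mm_202_s

theorem s50_mm_202_s : ∃ t, chk3 f_mm_202_s t 6 2 1 = true := ex3_b k2_mm_202_s s49_mm_202_s

theorem s51_mm_202_s : ∃ t, chk3 f_mm_202_s t 3 2 1 = true := ex3_a s50_mm_202_s s48_mm_202_s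

theorem s52_mm_202_s : ∃ t, chk3 f_mm_202_s t 3 1 1 = true := ex3_b s51_mm_202_s k27_mm_202_s

theorem s53_mm_202_s : ∃ t, chk3 f_mm_202_s t 2 1 1 = true := ex3_b k0_mm_202_s k1_mm_202_s

theorem s54_mm_202_s : ∃ t, chk3 f_mm_202_s t 1 1 1 = true := ex3_a s53_mm_202_s s52_mm_202_s

theorem c_mm_202_s : CertNE 0 536870912 1073741824 536870912 1033476505 6710887 3 eng mog cd0q2 cd5q2 pd0 false false false .pp 2 0 2
    ndB0q2 ndB5q2 pcB0 cut_mm_202_s Ext.none :=
  certNE1 (fam := false) (s1 := false) (s2 := false) (a := 2) (b := 0) (c := 2) (cn := .pp) (n1 := ndB0q2) (n2 := ndB5q2) (pc := pcB0) (cut := cut_mm_202_s) (xt := Ext.none) (P1 := 0) (W1 := 536870912) (P2 := 1073741824) (W2 := 536870912) (P3 := 1033476505) (W3 := 6710887) (N0 := 3) (En := eng) (mo := mog) (C1 := cd0q2) (C2 := cd5q2) (C3 := pd0)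
    rfl (fun _ => rfl) s54_mm_202_s

noncomputable def cut_mm_203_s : Cut := Cut.of [[⟨4, 0, 0, 1449551462⟩]]

noncomputable def f_mm_203_s : ℕ → ℕ → ℕ → ℕ → Bool := onCell 0 536870912 0 1230186008 1033476505 6710887
    (rowNE 3 eng mog cd0q2 cd5q3 pd0 0 false false false .up 2 0 3 (qsf 0 536870912 0 1230186008 0) ndB0q2 ndB5q3 pcB0 cut_mm_203_s Ext.none)

def k0_mm_203_s : ∃ t, chk3 f_mm_203_s t 1 1 1 = true :=
  ⟨(b (l 2) (b (l 2) (a (b (a (b (l 2) (b (l 2) (a (l 16739080) (a (l 280414307511) (l 3))))) (l 3)) (a (b (a (b (a (l 16716504) (l 16743048)) (a (l 16695664) (l 16719600))) (b (a (l 16759728) (b (l 298667942663) (l 16773856))) (b (l 242833309879) (l 16766216)))) (a (b (a (l 16654296) (l 16735848)) (l 16667944)) (a (b (b (l 16739256) (l 16711736)) (l 16707952)) (b (l 16740000) (b (l 16672560) (l 16586056)))))) (b (a (b (l 3) (b (l 338933297015) (l 302963037159))) (l 3)) (a (b (a (b (l 16772512) (l 16756032)) (a (l 286320028679) (l 3))) (a (b (l 16722544)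 (l 16646888)) (b (l 236390872759) (l 16739696)))) (b (l 3) (a (b (l 3) (l 289004316455)) (l 3))))))) (l 3)))), by decide +kernel⟩

theorem c_mm_203_s : CertNE 0 536870912 0 1230186008 1033476505 6710887 3 eng mog cd0q2 cd5q3 pd0 false false false .up 2 0 3
    ndB0q2 ndB5q3 pcB0 cut_mm_203_s Ext.none :=
  certNE0 (fam := false) (s1 := false) (s2 := false) (a := 2) (b := 0) (c := 3) (cn := .up) (n1 := ndB0q2) (n2 := ndB5q3) (pc := pcB0) (cut := cut_mm_203_s) (xt := Ext.none) (P1 := 0) (W1 := 536870912) (P2 := 0) (W2 := 1230186008) (P3 := 1033476505) (W3 := 6710887) (N0 := 3) (En := eng) (mo := mog) (C1 := cd0q2) (C2 := cd5q3) (C3 := pd0)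
    rfl k0_mm_203_s

noncomputable def cut_mm_213_s : Cut := Cut.of [[⟨4, 0, 0, 1449551462⟩]]

noncomputable def f_mm_213_s : ℕ → ℕ → ℕ → ℕ → Bool := onCell 0 536870912 0 1230186008 1033476505 6710887
    (rowNE 3 eng mog cd0q2 cd5q3 pd1 0 false false false .pnn 2 1 3 (qsf 0 536870912 0 1230186008 1) ndB0q2 ndB5q3 pcB1 cut_mm_213_s Ext.none)

def k0_mm_213_s : ∃ t, chk3 f_mm_213_s t 1 1 1 = true :=
  ⟨(b (b (a (l 3) (l 5)) (l 3)) (a (b (b (l 3) (a (l 3) (l 3))) (b (a (b (a (b (a (a (b (l 292225455687) (l 16660928)) (l 321753226807)) (l 3)) (a (b (a (l 16552672) (a (l 16704272) (l 16741536))) (a (l 16419360) (b (l 16645024) (l 16568800)))) (a (b (l 16757088) (a (l 16732112) (l 16754312))) (l 3)))) (l 3)) (b (b (a (a (l 16245208) (a (b (l 16679296) (l 16603280)) (l 291151549559))) (l 3)) (a (a (l 16173592) (a (l 16479144) (a (l 16609384) (l 16697376)))) (a (l 359871157735) (l 3)))) (b (a (a (l 15983888) (l 16197248)) (a (a (a (l 16645592) (l 16680608)) (l 321753275271))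 (l 3))) (l 1)))) (l 3)) (b (a (l 1) (a (l 1) (l 3))) (l 1)))) (b (l 3) (l 3)))), by decide +kernel⟩

theorem c_mm_213_s : CertNE 0 536870912 0 1230186008 1033476505 6710887 3 eng mog cd0q2 cd5q3 pd1 false false false .pnn 2 1 3
    ndB0q2 ndB5q3 pcB1 cut_mm_213_s Ext.none :=
  certNE0 (fam := false) (s1 := false) (s2 := false) (a := 2) (b := 1) (c := 3) (cn := .pnn) (n1 := ndB0q2) (n2 := ndB5q3) (pc := pcB1) (cut := cut_mm_213_s) (xt := Ext.none) (P1 := 0) (W1 := 536870912) (P2 := 0) (W2 := 1230186008) (P3 := 1033476505) (W3 := 6710887) (N0 := 3) (En := eng) (mo := mog) (C1 := cd0q2) (C2 := cd5q3) (C3 := pd1)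
    rfl k0_mm_213_s

end Pool.Agent.Strip051.G.I9625_9688.Tab.CS.BB05

namespace Pool.Agent.Strip051.G.I9625_9688.Tab.CS.BB50

open Pool.Agent.Strip051.PB Pool.Agent.Strip051.PB.T
open Pool.Agent.Strip051.G.I9625_9688.Tab

noncomputable def cut_pp_001_s : Cut := Cut.of [[⟨4, 0, 0, 1449551462⟩]]

noncomputable def f_pp_001_s : ℕ → ℕ → ℕ → ℕ → Bool := onCell 0 536870912 536870912 536870912 1033476505 6710887
    (rowNE 3 eng mog cd5q0 cd0q1 pd0 2 false true true .up 0 0 1 (qsf 0 536870912 536870912 536870912 0) ndB5q0 ndB0q1 pcB0 cut_pp_001_s Ext.none)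

def k0_pp_001_s : ∃ t, chk3 f_pp_001_s t 1 1 1 = true :=
  ⟨(a (b (l 3) (b (b (l 3) (l 2)) (l 2))) (b (a (l 3) (b (l 3) (a (b (l 3) (a (b (l 3) (l 327122228551)) (b (l 336248870215) (l 261623815191)))) (b (a (b (l 3) (l 344838773239)) (b (l 354502451575) (l 304573414919))) (b (a (l 285782998279) (l 16737024)) (a (l 16751376) (l 16709032))))))) (b (a (a (b (b (l 3) (a (l 3) (b (l 3) (a (l 3) (l 323364005479))))) (b (a (l 2) (b (a (l 2) (l 16755304)) (l 2))) (l 2))) (b (a (b (l 3) (a (b (l 365239953959) (l 16764208)) (b (l 16769928) (l 16750520)))) (a (b (l 325511474503) (l 16751040)) (b (l 300278538375) (l 16747344)))) (b (a (a (l 16764008) (l 16714800)) (b (l 16725440) (l 16698520))) (a (b (l 16658696) (l 2)) (b (l 16663232) (l 16599480)))))) (b (a (a (b (a (l 16768288) (l 16769688)) (l 16756312)) (b (l 16773144) (l 16764704))) (a (b (l 16735816) (l 16719976)) (b (l 16682744) (l 16655456)))) (a (a (b (l 16725520) (b (l 16684624) (l 16636392))) (b (l 16743768)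 (l 16641768))) (b (a (l 16693744) (l 16605976)) (a (l 16623840) (l 16501168)))))) (a (b (a (l 2) (b (a (l 2) (b (l 16507816) (l 2))) (l 2))) (l 2)) (b (a (b (a (l 16532512) (l 16597336)) (a (l 16348856) (l 16420568))) (b (a (l 16500432) (l 16371344)) (a (l 16373872) (l 16231824)))) (b (a (b (l 16027792) (l 2)) (b (l 16120016) (l 6))) (a (l 2) (l 6)))))))), by decide +kernel⟩

theorem c_pp_001_s : CertNE 0 536870912 536870912 536870912 1033476505 6710887 3 eng mog cd5q0 cd0q1 pd0 false true true .up 0 0 1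
    ndB5q0 ndB0q1 pcB0 cut_pp_001_s Ext.none :=
  certNE2 (fam := false) (s1 := true) (s2 := true) (a := 0) (b := 0) (c := 1) (cn := .up) (n1 := ndB5q0) (n2 := ndB0q1) (pc := pcB0) (cut := cut_pp_001_s) (xt := Ext.none) (P1 := 0) (W1 := 536870912) (P2 := 536870912) (W2 := 536870912) (P3 := 1033476505) (W3 := 6710887) (N0 := 3) (En := eng) (mo := mog) (C1 := cd5q0) (C2 := cd0q1) (C3 := pd0)
    rfl (fun _ => rfl) k0_pp_001_s

noncomputable def cut_pp_011_s : Cut := Cut.of [[⟨4, 0, 0, 1449551462⟩]]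

noncomputable def f_pp_011_s : ℕ → ℕ → ℕ → ℕ → Bool := onCell 536870912 536870912 536870912 536870912 1033476505 6710887
    (rowNE 3 eng mog cd5q0 cd0q1 pd1 2 false true true .pnn 0 1 1 (qsf 0 536870912 536870912 536870912 1) ndB5q0 ndB0q1 pcB1 cut_pp_011_s Ext.none)

def k0_pp_011_s : ∃ t, chk3 f_pp_011_s t 2 1 1 = true :=
  ⟨(b (a (b (a (b (l 3) (a (b (l 3) (l 363092370055)) (b (l 369534838615) (a (b (l 16773600) (l 16748328)) (b (l 16751712) (l 16682912)))))) (b (a (b (l 1) (l 392083429143)) (l 1)) (a (b (a (l 325511335719) (b (l 16755608) (l 16697072))) (a (l 16629672) (l 16584720))) (b (a (l 16668192) (l 1)) (l 16419776))))) (a (b (a (b (a (b (l 16775160) (l 16737720)) (b (l 16743736) (l 16662536))) (a (b (l 16649560) (l 16547000)) (l 16495576))) (b (a (b (l 16673608) (l 16581968)) (l 16553184)) (a (l 16441976) (l 16375736)))) (a (b (a (l 16383920) (l 16309568)) (l 16051176)) (b (l 16213816) (l 15999944)))) (b (a (b (l 16352704) (l 16293784)) (b (l 16363160)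 (l 16218952))) (a (b (l 16118496) (l 15924544)) (b (l 16064344) (b (l 15936408) (l 15856720))))))) (b (a (b (l 1) (a (b (l 1) (l 16430704)) (l 1))) (l 1)) (a (b (a (b (l 16310184) (l 16187040)) (b (l 16301224) (l 16199952))) (a (b (l 16054376) (b (l 15963128) (l 15949128))) (b (b (l 16123264) (l 16092088)) (l 16104328)))) (b (a (b (l 1) (l 16262192)) (l 1)) (a (b (l 16250728) (l 16280568)) (l 16451224)))))) (b (a (b (a (b (a (l 15864624) (l 15620408)) (a (b (l 15668552) (a (l 15566112) (l 15572192))) (b (l 15640744) (l 15638208)))) (b (a (b (l 15774744) (l 15722664)) (l 15839312)) (l 15818648))) (a (b (a (l 15602048) (l 15710264)) (a (l 15726088) (l 15833264))) (b (l 15899328) (l 15951936)))) (b (a (b (l 16063288) (l 16114456)) (a (l 16337464) (l 16512576))) (a (b (l 16181736) (l 6)) (l 6)))) (b (a (b (a (l 15790432) (l 6)) (a (b (l 15743280) (l 6)) (l 6))) (l 6)) (l 6)))), by decide +kernel⟩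

def k1_pp_011_s : ∃ t, chk3 f_pp_011_s t 3 1 1 = true :=
  ⟨(b (a (a (b (l 1) (b (l 1) (a (l 16643408) (l 1)))) (l 1)) (l 1)) (b (a (b (l 6) (l 6)) (l 6)) (l 6))), by decide +kernel⟩

theorem s2_pp_011_s : ∃ t, chk3 f_pp_011_s t 1 1 1 = true := ex3_a k0_pp_011_s k1_pp_011_s

theorem c_pp_011_s : CertNE 0 536870912 536870912 536870912 1033476505 6710887 3 eng mog cd5q0 cd0q1 pd1 false true true .pnn 0 1 1
    ndB5q0 ndB0q1 pcB1 cut_pp_011_s Ext.none :=
  certNE2 (fam := false) (s1 := true) (s2 := true) (a := 0) (b := 1) (c := 1) (cn := .pnn) (n1 := ndB5q0) (n2 := ndB0q1) (pc := pcB1) (cut := cut_pp_011_s) (xt := Ext.none) (P1 := 0) (W1 := 536870912) (P2 := 536870912) (W2 := 536870912) (P3 := 1033476505) (W3 := 6710887) (N0 := 3) (En := eng) (mo := mog) (C1 := cd5q0) (C2 := cd0q1) (C3 := pd1)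
    rfl (fun _ => rfl) s2_pp_011_s

noncomputable def cut_pp_012_s : Cut := Cut.of [[⟨4, 0, 0, 1449551462⟩]]

noncomputable def f_pp_012_s : ℕ → ℕ → ℕ → ℕ → Bool := onCell 0 536870912 0 536870912 1033476505 6710887
    (rowNE 3 eng mog cd5q0 cd0q2 pd1 0 false true true .pnp 0 1 2 (qsf 0 536870912 0 536870912 1) ndB5q0 ndB0q2 pcB1 cut_pp_012_s Ext.none)

def k0_pp_012_s : ∃ t, chk3 f_pp_012_s t 1 1 1 = true :=
  ⟨(b (l 6) (l 6)), by decide +kernel⟩

theorem c_pp_012_s : CertNE 0 536870912 0 536870912 1033476505 6710887 3 eng mog cd5q0 cd0q2 pd1 false true true .pnp 0 1 2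
    ndB5q0 ndB0q2 pcB1 cut_pp_012_s Ext.none :=
  certNE0 (fam := false) (s1 := true) (s2 := true) (a := 0) (b := 1) (c := 2) (cn := .pnp) (n1 := ndB5q0) (n2 := ndB0q2) (pc := pcB1) (cut := cut_pp_012_s) (xt := Ext.none) (P1 := 0) (W1 := 536870912) (P2 := 0) (W2 := 536870912) (P3 := 1033476505) (W3 := 6710887) (N0 := 3) (En := eng) (mo := mog) (C1 := cd5q0) (C2 := cd0q2) (C3 := pd1)
    rfl k0_pp_012_s

noncomputable def cut_pp_022_s : Cut := Cut.of [[⟨4, 0, 0, 1449551462⟩]]

noncomputable def f_pp_022_s : ℕ → ℕ → ℕ → ℕ → Bool := onCell 1073741824 536870912 0 536870912 1033476505 6710887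
    (rowNE 3 eng mog cd5q0 cd0q2 pd2 2 false true true .pp 0 2 2 (qsf 0 536870912 0 536870912 2) ndB5q0 ndB0q2 pcB2 cut_pp_022_s Ext.none)

def k0_pp_022_s : ∃ t, chk3 f_pp_022_s t 1 1 1 = true :=
  ⟨(l 6), by decide +kernel⟩

theorem c_pp_022_s : CertNE 0 536870912 0 536870912 1033476505 6710887 3 eng mog cd5q0 cd0q2 pd2 false true true .pp 0 2 2
    ndB5q0 ndB0q2 pcB2 cut_pp_022_s Ext.none :=
  certNE2 (fam := false) (s1 := true) (s2 := true) (a := 0) (b := 2) (c := 2) (cn := .pp) (n1 := ndB5q0) (n2 := ndB0q2) (pc := pcB2) (cut := cut_pp_022_s) (xt := Ext.none) (P1 := 0) (W1 := 536870912) (P2 := 0) (W2 := 536870912) (P3 := 1033476505) (W3 := 6710887) (N0 := 3) (En := eng) (mo := mog) (C1 := cd5q0) (C2 := cd0q2) (C3 := pd2)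
    rfl (fun _ => rfl) k0_pp_022_s

noncomputable def cut_pp_101_s : Cut := Cut.of [[⟨4, 0, 0, 1449551462⟩], [⟨0, 1, 0, 22369621⟩, ⟨1, 0, 0, 22369621⟩, ⟨2, 1, 0, 22369621⟩]]

noncomputable def f_pp_101_s : ℕ → ℕ → ℕ → ℕ → Bool := onCell 0 536870912 536870912 536870912 1033476505 6710887
    (rowNE 3 eng mog cd5q1 cd0q1 pd0 2 false true true .npn 1 0 1 (qsf 536870912 536870912 536870912 536870912 0) ndB5q1 ndB0q1 pcB0 cut_pp_101_s Ext.none)

def k0_pp_101_s : ∃ t, chk3 f_pp_101_s t 2 2 1 = true :=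
  ⟨(l 3), by decide +kernel⟩

def k1_pp_101_s : ∃ t, chk3 f_pp_101_s t 4 6 1 = true :=
  ⟨(l 3), by decide +kernel⟩

def k2_pp_101_s : ∃ t, chk3 f_pp_101_s t 8 14 1 = true :=
  ⟨(l 3), by decide +kernel⟩

def k3_pp_101_s : ∃ t, chk3 f_pp_101_s t 16 30 1 = true :=
  ⟨(l 3), by decide +kernel⟩

def k4_pp_101_s : ∃ t, chk3 f_pp_101_s t 32 31 1 = true :=
  ⟨(b (l 3) (b (a (l 3) (b (l 3) (a (l 3) (b (l 3) (a (l 3) (b (l 3) (a (l 3) (b (l 3) (a (l 3) (b (l 3) (b (l 3) (a (l 3) (c (a (l 417853342087) (l 210621169991)) (a (l 420000825735) (l 211158040903))))))))))))))) (a (l 14) (b (a (l 14) (b (b (a (b (l 3) (b (l 3) (l 14))) (a (b (a (l 3) (b (l 3) (b (l 3) (a (l 3) (c (a (l 540796780727) (c (l 250349617479) (l 249812746567))) (a (l 544554877111) (l 241222812007))))))) (b (b (a (l 3) (a (a (c (l 551534198967) (l 554755424439)) (b (a (l 3) (l 381346119911)) (l 154249723415))) (l 304036707591))) (a (a (l 3) (a (l 575156519095) (a (b (l 3) (l 239612199063)) (b (l 424295792839)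 (l 16777152))))) (c (l 16776904) (l 16776904)))) (a (a (a (b (l 578914615495) (l 14)) (b (a (b (l 3) (l 247128391847)) (b (l 431275114711) (l 16777152))) (l 16776984))) (c (l 16776912) (l 16776912))) (l 16776496)))) (b (a (b (b (l 3) (a (l 3) (c (a (l 526301266087) (l 226190425799)) (a (l 529522491559) (l 226727297367))))) (b (a (c (a (l 537038684327) (c (l 246591521079) (l 245517779255))) (a (l 540259909799) (l 231022264679))) (l 298131127543)) (a (l 303499836663) (l 16776760)))) (b (a (b (c (a (l 522006298775) (l 215453008215)) (a (l 525227524247) (l 215989879127))) (l 297057385703)) (l 297594256007)) (l 16776480))) (c (l 16775944) (l 16775944))))) (a (l 14) (a (a (b (l 16776224) (l 14)) (l 16775112)) (l 16774296)))) (a (l 14) (b (l 16772592) (l 14))))) (l 14))))), by decide +kernel⟩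

def k5_pp_101_s : ∃ t, chk3 f_pp_101_s t 33 62 1 = true :=
  ⟨(b (l 3) (a (l 3) (b (l 3) (a (l 3) (b (l 3) (a (l 3) (b (l 3) (a (l 3) (b (l 3) (a (l 612200600983) (b (l 582135835319) (l 291688676263)))))))))))), by decide +kernel⟩

def k6_pp_101_s : ∃ t, chk3 f_pp_101_s t 66 252 1 = true :=
  ⟨(a (l 3) (b (l 3) (a (l 3) (b (l 3) (a (l 3) (b (l 3) (a (l 3) (b (l 3) (a (l 528985620471) (c (l 188072589271) (l 190220075543))))))))))), by decide +kernel⟩

def k7_pp_101_s : ∃ t, chk3 f_pp_101_s t 132 506 1 = true :=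
  ⟨(a (l 3) (b (l 3) (a (l 3) (b (l 3) (a (l 3) (b (l 3) (a (c (l 585357066631) (l 589652033927)) (b (l 563345359095) (c (l 167134626183) (l 16777160)))))))))), by decide +kernel⟩

def k8_pp_101_s : ∃ t, chk3 f_pp_101_s t 132 507 1 = true :=
  ⟨(a (b (a (l 3) (b (l 3) (a (l 3) (b (l 3) (b (l 3) (a (l 3) (c (c (l 245517779319) (l 244980908407)) (a (l 323364061591) (l 16777152))))))))) (a (b (a (l 3) (b (l 3) (b (l 3) (a (l 3) (c (a (l 386714829159) (l 16777336)) (a (l 388325441895) (l 16777176))))))) (b (b (a (l 3) (a (a (b (l 3) (l 306721063207)) (b (l 323364061431) (l 16777128))) (l 16776992))) (a (a (l 3) (c (a (l 402284085623) (l 195051913527)) (a (l 404431569271) (l 195051913527)))) (l 16777192))) (a (a (b (c (a (l 407115923847) (l 199883751751)) (a (l 409263407495) (l 199883751751))) (l 16777008)) (l 16776872)) (l 16776472)))) (b (a (a (b (l 3) (a (b (b (l 3) (l 282025001239)) (l 16777056)) (c (l 16777376) (l 16777048)))) (b (a (c (l 515026977015) (l 517711331575))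 (b (l 3) (a (l 228874780887) (l 16777144)))) (l 16776856))) (a (b (a (b (a (l 436643823959) (l 319069093527)) (l 16777048)) (c (l 16777032) (l 16777032))) (l 16776584)) (l 16776584))) (l 16775936)))) (a (b (b (a (l 3) (b (l 3) (a (l 606831903143) (b (l 594483872023) (c (l 197736268199) (l 197199397287)))))) (a (a (b (l 3) (b (a (a (l 393694151031) (l 297594257687)) (l 129016791319)) (l 16776968))) (b (a (c (l 493015269591) (l 495699624151)) (b (l 613811224791) (l 94657052903))) (l 16776832))) (a (b (b (c (l 202568105111) (l 202031235511)) (l 16776960)) (l 16776568)) (l 16776568)))) (c (l 16775408) (l 16775408))) (b (b (a (a (b (l 596631354487) (b (c (l 187535720871) (l 187535720871)) (l 16776944))) (b (b (l 579451486471) (c (l 182703882647) (l 182167011735))) (l 16776816))) (a (a (b (c (l 117742502167) (l 98952020327)) (l 16776616)) (l 285783095335)) (l 16776544))) (l 16775920)) (l 16774384)))), by decide +kernel⟩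

def k9_pp_101_s : ∃ t, chk3 f_pp_101_s t 133 253 1 = true :=
  ⟨(b (a (b (a (l 3) (b (l 3) (a (l 3) (b (l 3) (a (c (l 526838137159) (l 532206846279)) (b (a (l 3) (l 328732770727)) (l 16777112))))))) (a (b (a (l 3) (b (l 3) (a (c (l 549923586407) (l 553144811879)) (c (b (l 409263407687) (l 16777136)) (b (l 411410891335) (l 16777136)))))) (a (b (a (c (l 560661004663) (l 578377744759)) (b (l 532206846183) (a (l 218137362791) (l 16777096)))) (c (c (l 16776912) (l 16776912)) (l 34527510983))) (a (c (l 18421383591) (l 16776776)) (l 16776496)))) (b (a (b (a (c (l 538649297239) (l 544018006359)) (b (a (l 3) (l 351818219959)) (l 132238016823))) (c (l 16776880) (l 16776880))) (c (l 16776592) (l 16776592))) (l 16775824)))) (b (b (a (a (l 3) (b (l 3) (a (c (l 506437042455) (l 594483871607)) (c (b (l 336785834519) (l 16777080)) (l 212768652583))))) (a (b (c (a (l 494089011463) (c (l 195588784695) (l 196125655607))) (l 455434305175)) (l 16776792)) (l 16775848))) (a (a (b (a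 (c (l 515026977079) (l 520395686199)) (a (b (l 3) (l 16777160)) (l 317458480935))) (l 291151804887)) (l 291688674583)) (l 16775712))) (a (l 16775240) (l 16774112)))) (b (a (a (l 16776352) (l 16774280)) (l 16772592)) (l 16774312))), by decide +kernel⟩

def k10_pp_101_s : ∃ t, chk3 f_pp_101_s t 67 126 1 = true :=
  ⟨(b (a (b (a (l 3) (b (l 3) (a (l 3) (a (l 683604437303) (b (l 3) (c (l 546702358663) (l 547239228215))))))) (a (b (a (l 3) (a (l 3) (b (l 3) (c (l 552607939495) (l 568177193687))))) (a (b (a (l 3) (b (l 3) (a (l 594483870967) (c (l 158007820807) (l 159618433543))))) (b (a (a (l 591799516743) (c (l 168745239079) (l 170355851815))) (l 16776728)) (l 306721059623))) (b (a (b (a (l 583746452503) (c (l 16777112) (l 16777112))) (l 16776704)) (l 16776400)) (l 16775592)))) (b (a (a (b (l 692731240839) (b (a (c (l 304036709079) (l 335175221831)) (l 280414387623)) (l 16776656))) (b (c (l 557439777127) (l 557976646263)) (l 16776344))) (b (a (a (b (c (l 280951259799)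 (l 283098743447)) (l 16776752)) (l 304036706423)) (l 16776288)) (l 16775456))) (c (l 16774368) (l 16774376))))) (a (b (b (a (l 3) (b (l 3) (a (l 637433533927) (b (l 614884960071) (l 328195893431))))) (b (b (a (l 657297758039) (a (a (l 329806512151) (l 16776920)) (l 16776464))) (a (c (l 538112424103) (l 539186164855)) (l 16776184))) (a (a (b (c (l 180556399239) (l 183777619447)) (l 16776544)) (l 16776232)) (l 16775320)))) (a (l 16775968) (l 16772440))) (b (b (a (b (a (l 624548631847) (b (l 598241962135) (l 327122156647))) (c (c (l 16776424) (l 16776424)) (l 296520512615))) (b (a (l 306184189767) (l 16776048)) (l 16775176))) (l 16774040)) (l 16770536)))) (a (b (a (a (b (l 16775112) (l 16772960)) (l 16772856)) (l 16771040)) (l 16767968)) (b (l 16767248) (l 16762800)))), by decide +kernel⟩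

def k11_pp_101_s : ∃ t, chk3 f_pp_101_s t 33 127 1 = true :=
  ⟨(a (a (b (b (a (a (b (c (l 16775400) (l 16775400)) (l 16773216)) (l 16775232)) (l 16771736)) (a (l 16769336) (l 16767320))) (b (l 16769968) (l 16759608))) (b (b (l 16768712) (l 16764600)) (l 16758272))) (a (b (b (l 16763824) (l 16760192)) (l 16752640)) (b (l 16757368) (l 16746776)))), by decide +kernel⟩

def k12_pp_101_s : ∃ t, chk3 f_pp_101_s t 17 30 1 = true :=
  ⟨(b (l 3) (a (l 3) (b (l 3) (a (l 3) (b (l 3) (a (l 3) (b (l 3) (a (b (l 3) (a (l 3) (b (l 3) (l 329269600471)))) (b (a (l 3) (b (l 593946976743) (l 324437768935))) (c (l 313163474599) (l 311552861271))))))))))), by decide +kernel⟩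

def k13_pp_101_s : ∃ t, chk3 f_pp_101_s t 34 62 1 = true :=
  ⟨(b (a (l 3) (b (l 3) (a (l 3) (b (l 3) (a (l 3) (b (l 3) (a (b (l 3) (l 546165483943)) (b (l 534891196631) (l 311016012535))))))))) (a (b (a (l 3) (b (l 3) (a (l 3) (b (l 3) (a (b (l 3) (l 630991070359)) (b (l 621327395159) (a (l 524153779159) (l 290078045447)))))))) (a (b (a (l 3) (b (l 3) (a (l 3) (b (l 3) (a (l 566566576167) (l 447381239223)))))) (a (b (a (l 3) (b (l 3) (a (l 588578281831) (b (l 550997324103) (l 16776816))))) (a (b (a (l 600389441287) (b (l 566566579623) (l 16776880))) (l 335712087383)) (b (l 329269636295) (l 16775024)))) (b (a (b (c (l 522006295927) (l 523616908727)) (l 16776160)) (l 16772856)) (l 16773696)))) (b (a (b (a (b (l 3) (l 651392162983)) (b (l 641191616583) (a (l 545091741991) (l 380272374855)))) (a (b (a (l 555292288119) (l 432885724455)) (l 16776016)) (l 16775328))) (b (a (b (a (l 534354325079) (l 286319945783)) (l 16775872)) (l 16775168)) (l 16773344))) (c (l 16775504)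 (l 16775720))))) (b (a (b (a (l 3) (b (l 3) (a (b (l 3) (l 581598962503)) (b (l 573009032167) (a (l 324974643175) (l 16776400)))))) (a (b (a (b (l 3) (l 599315699607)) (b (l 590725766471) (a (b (l 595557612679) (l 16776912)) (l 16776560)))) (a (b (b (a (l 579988348983) (l 16776952)) (l 314237238343)) (l 16775720)) (l 16775008))) (b (a (b (a (b (l 570861550583) (l 16776832)) (l 16776480)) (l 16775560)) (l 16774848)) (l 16772992)))) (b (a (b (a (b (l 3) (l 564419096631)) (b (l 555829163799) (l 315847844199))) (a (b (l 359334402983) (l 16775392)) (l 16774680))) (b (c (l 299741718455) (l 308868523527)) (l 16751680))) (a (l 16771544) (l 16747824)))) (a (a (b (l 16771904) (l 16766840)) (l 16745640)) (l 16741448))))), by decide +kernel⟩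

def k14_pp_101_s : ∃ t, chk3 f_pp_101_s t 35 62 1 = true :=
  ⟨(b (a (b (a (l 3) (b (l 3) (a (b (l 3) (a (l 3) (l 604147533527))) (c (b (l 595557570407) (a (l 517711323463) (l 322827168471))) (b (l 593410083719) (a (l 516637581079) (l 309942258439))))))) (a (b (a (l 3) (b (l 3) (a (b (l 3) (l 510732006071)) (c (l 318532179463) (l 315847823783))))) (a (b (a (b (l 3) (l 526838129591)) (b (l 518785067815) (l 16776224))) (a (l 304573563591) (l 16774336))) (b (l 299741730103) (l 16751336)))) (b (a (b (a (c (l 529522479559) (l 527911865895)) (c (l 282561835687) (l 313163476407))) (l 16774688)) (b (l 16774536) (l 16751080))) (l 16769544)))) (b (a (b (a (b (l 3) (c (l 568714029383) (l 582672670535))) (b (a (l 3) (b (l 3) (l 529522481623))) (a (b (l 538112414007) (l 16766152)) (l 16768112)))) (a (b (a (b (l 555829149703) (l 315310972151)) (l 295983621399)) (l 16774392)) (l 16773072))) (b (a (b (a (b (l 520932549239) (l 16776464)) (l 16775824)) (l 16774152)) (l 16772928))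 (l 16769416))) (b (a (l 16769416) (l 16743488)) (l 16772224)))) (a (b (a (b (a (l 16771192) (l 16747464)) (l 16743656)) (l 16740712)) (l 16732952)) (b (l 16753792) (l 16722232)))), by decide +kernel⟩

def k15_pp_101_s : ∃ t, chk3 f_pp_101_s t 17 63 1 = true :=
  ⟨(b (a (a (a (b (a (b (c (l 16772656) (l 16772680)) (l 16746944)) (l 16772864)) (l 16759552)) (b (l 16763504) (l 16754336))) (a (b (l 16736872) (l 16748968)) (b (l 16752096) (l 16743928)))) (a (b (l 16744120) (l 16738128)) (b (l 16734856) (l 16733792)))) (a (b (a (a (l 16752952) (l 16749432)) (l 16743008)) (a (l 16737664) (l 16725008))) (a (l 16721576) (l 16707880)))), by decide +kernel⟩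

def k16_pp_101_s : ∃ t, chk3 f_pp_101_s t 9 14 1 = true :=
  ⟨(a (l 3) (b (l 3) (a (l 3) (b (l 3) (b (l 3) (a (b (l 3) (a (l 3) (b (l 3) (a (l 688973094215) (l 429127577847))))) (b (a (l 3) (b (l 687362458759) (c (l 331953893943) (l 334101376503)))) (a (a (b (l 401747097815) (l 16773656)) (l 299204796999)) (b (l 16769104) (l 16739384)))))))))), by decide +kernel⟩

def k17_pp_101_s : ∃ t, chk3 f_pp_101_s t 18 60 1 = true :=
  ⟨(a (l 3) (b (l 3) (a (l 3) (b (l 3) (a (b (l 3) (a (l 3) (b (l 595020705175) (a (l 318532174727) (l 16765552))))) (b (a (b (l 3) (a (l 3) (l 591262624743))) (b (a (l 3) (l 322290262375)) (c (l 299204830887) (l 294372992071)))) (a (b (c (l 304573534471) (l 300815437175)) (l 16773176)) (b (l 16772688) (l 16747944))))))))), by decide +kernel⟩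

def k18_pp_101_s : ∃ t, chk3 f_pp_101_s t 36 61 1 = true :=
  ⟨(b (a (l 3) (b (l 3) (a (b (l 3) (a (l 3) (b (l 3) (l 564955944871)))) (b (a (l 3) (b (l 3) (a (l 3) (l 517174444343)))) (a (b (a (l 3) (l 530596212199)) (a (l 491404652759) (l 16768256))) (b (c (l 313700346183) (l 313700345591)) (l 16774128))))))) (a (b (a (l 3) (b (l 3) (a (b (l 3) (a (l 543481112087) (b (l 333564567063) (l 16776680)))) (b (a (l 530059344199) (c (l 318532186903) (l 317995315287))) (l 300278597671))))) (a (b (a (b (l 3) (a (l 588041387783) (b (l 574619628711) (l 319069066679)))) (b (a (l 556902879911) (b (l 540796766023) (l 313700363447))) (c (l 297057360391) (l 306184165351)))) (a (b (c (l 292225515911) (l 308868513303)) (l 16773984)) (l 16772888))) (b (a (c (l 302962944119) (l 300278589239)) (l 16772768)) (l 16769880)))) (b (a (b (a (b (l 577303959927) (a (l 517174447143) (l 313163484039))) (b (a (l 504826420903) (l 308868522807)) (l 16774920))) (a (b (l 16775256) (l 16773288))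 (l 16771840))) (a (b (l 16773440) (l 16769240)) (l 16775088))) (a (b (l 16769256) (l 16765704)) (l 16762032))))), by decide +kernel⟩

def k19_pp_101_s : ∃ t, chk3 f_pp_101_s t 37 61 1 = true :=
  ⟨(b (a (b (a (b (l 3) (a (l 3) (b (l 3) (a (l 563345331111) (b (l 358260627591) (l 310479136679)))))) (b (a (l 3) (b (l 3) (a (l 531133085207) (l 309942253351)))) (a (b (a (l 559587239047) (l 315310957607)) (c (l 298131105799) (l 292762396343))) (b (a (l 16775624) (l 16773760)) (l 16771320))))) (a (a (b (b (a (l 3) (b (l 3) (l 317995324343))) (a (l 314774095095) (l 16775400))) (l 16772456)) (b (b (a (l 304573552663) (l 16774824)) (l 16772856)) (l 16768848))) (b (a (l 16770328) (l 16744848)) (a (l 16743328) (l 16758888))))) (b (a (b (a (b (a (l 524153768071) (l 302962936743)) (l 16774200)) (b (l 16773688) (l 16749056))) (a (l 16768792) (l 16743120))) (b (a (l 16767472) (l 16741792)) (l 16735456))) (a (b (l 16737224) (l 16750240)) (b (l 16725976) (l 16737864))))) (b (a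 (a (c (l 16764112) (l 16763512)) (l 16753928)) (a (l 16720448) (l 16726720))) (a (a (l 16755536) (l 16724840)) (l 16682456)))), by decide +kernel⟩

def k20_pp_101_s : ∃ t, chk3 f_pp_101_s t 19 30 1 = true :=
  ⟨(a (b (b (a (l 3) (b (a (l 3) (b (l 3) (a (l 3) (l 651929019847)))) (a (b (a (l 3) (l 662666424343)) (a (b (l 663740179911) (l 366850554199)) (l 287930536327))) (a (b (l 305110369031) (l 16772384)) (l 279340611719))))) (a (b (a (b (l 3) (a (b (l 3) (a (l 3) (l 315310945863))) (b (a (l 636896644775) (l 308868500519)) (l 285783069655)))) (b (a (b (l 3) (l 367924280519)) (c (l 297057326519) (l 16744520))) (a (b (l 16764448) (l 16771712)) (l 16770424)))) (a (b (a (c (l 287393674199) (l 281488093879)) (l 16769936)) (a (l 16766464) (l 16740896))) (b (a (l 16766184) (l 16763128)) (l 16735088)))) (b (a (b (a (l 16773328) (l 16770904)) (l 16766824)) (b (l 16765688) (l 16761272))) (a (b (l 16760064) (l 16751192)) (l 16753720))))) (b (a (b (a (a (l 16732240) (l 16726968))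 (l 16719896)) (a (l 16709112) (l 16719184))) (b (a (l 16714696) (l 16734032)) (a (l 16712264) (l 16710448)))) (a (a (l 16664304) (l 16672696)) (b (l 16690248) (l 16675736))))) (b (b (a (a (b (b (a (l 3) (l 322827090055)) (a (l 299204804391) (l 16772768))) (a (l 16767696) (l 16742496))) (b (b (l 289541140231) (l 16766248)) (l 16735408))) (a (b (l 16759640) (l 16745336)) (b (l 16726808) (l 16732208)))) (a (b (a (l 16754576) (l 16723312)) (l 16743496)) (b (l 16704400) (l 16716944)))) (b (a (b (l 16736664) (l 16692512)) (l 16679384)) (a (b (l 16671992) (l 16676640)) (b (l 16709432) (l 16692696)))))), by decide +kernel⟩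

def k21_pp_101_s : ∃ t, chk3 f_pp_101_s t 9 31 1 = true :=
  ⟨(a (b (a (b (b (a (a (b (l 16769560) (l 16764864)) (l 16763208)) (l 16758016)) (a (l 16755312) (l 16749200))) (a (a (l 16720720) (l 16738944)) (b (l 16739544) (l 16731872)))) (b (a (a (l 16744576) (l 16734824)) (a (l 16701248) (l 16685856))) (a (b (l 16728104) (l 16718560)) (l 16699720)))) (a (b (a (l 16729832) (l 16714136)) (l 16684128)) (b (l 16681744) (l 16623616)))) (b (a (b (a (b (l 16687920) (l 16681424)) (b (l 16666312) (l 16657240))) (a (l 16626040) (l 16635800))) (b (a (b (l 16661936) (l 16642416)) (l 16633936)) (l 16515272))) (a (a (l 16582736) (b (l 16607112) (l 16576808))) (b (l 16477536) (l 16523760))))), by decide +kernel⟩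

def k22_pp_101_s : ∃ t, chk3 f_pp_101_s t 5 6 1 = true :=
  ⟨(b (l 3) (b (l 3) (a (l 3) (a (b (l 3) (a (l 3) (b (l 3) (a (l 3) (l 474224687735))))) (b (a (l 3) (b (l 344838771303) (a (l 349670646807) (l 16765848)))) (a (b (a (l 3) (l 334101379143)) (a (l 232632784519) (l 16738336))) (b (a (l 16754768) (l 16727952)) (l 16649928)))))))), by decide +kernel⟩

def k23_pp_101_s : ∃ t, chk3 f_pp_101_s t 10 14 1 = true :=
  ⟨(a (b (l 3) (b (a (l 3) (b (a (l 3) (b (l 3) (a (l 3) (l 490330819943)))) (a (b (l 673403770103) (a (b (l 394767736887) (l 16730736)) (l 306720980263))) (b (a (l 314774001815) (l 16762688)) (l 16734736))))) (a (b (a (b (l 3) (a (l 675014407415) (a (l 311015885687) (l 304036609271)))) (b (a (l 652465860615) (a (l 309405308775) (l 16749632))) (a (l 296520450599) (l 16731192)))) (a (b (a (b (l 303499751815) (l 16766696)) (l 16758896)) (a (l 16731448) (l 16738552))) (a (b (l 16723832) (l 16723160)) (l 16675592)))) (b (a (a (b (l 16760400) (l 16736496))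 (l 16690120)) (b (l 16697736) (l 16691776))) (a (b (l 16703408) (l 16678592)) (l 16629736)))))) (b (b (l 3) (a (b (l 3) (a (l 3) (b (l 3) (a (l 590725685431) (l 16730648))))) (b (a (l 662666332983) (b (l 549386606295) (a (l 404968388199) (l 16760672)))) (a (b (b (l 386177826903) (l 323900846983)) (l 16749312)) (l 16710608))))) (b (a (a (b (b (a (l 3) (l 319068964391)) (a (l 309405326407) (l 16755904))) (b (l 16737136) (l 16708976))) (b (b (a (l 16765096) (l 16748192)) (l 16707672)) (l 16642048))) (b (a (l 16641776) (l 16642568)) (a (l 16641608) (l 16596616)))) (a (b (a (l 16623624) (l 16622144)) (a (l 16606424) (l 16558600))) (b (a (l 16575648) (l 16526808)) (l 16418920)))))), by decide +kernel⟩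

def k24_pp_101_s : ∃ t, chk3 f_pp_101_s t 11 14 1 = true :=
  ⟨(b (a (b (a (b (l 3) (a (a (l 390472695975) (l 298667826279)) (b (l 387251647575) (l 16753696)))) (b (a (b (l 16707416) (l 16726984)) (b (l 16763376) (l 16738664))) (a (l 16731912) (l 16694944)))) (a (b (a (b (l 16739576) (l 16712128)) (l 16667824)) (a (l 16665672) (l 16645240))) (b (a (l 16670464) (l 16630520)) (l 16539448)))) (b (a (b (a (l 16696840) (l 16683496)) (l 16597264)) (b (l 16633576) (l 16567720))) (a (b (l 16570848) (l 16496544)) (l 16372728)))) (a (b (a (b (a (l 16620240) (l 16575480)) (l 16483864)) (b (l 16507120) (l 16428904))) (a (b (l 16450752) (l 16374000)) (b (l 16348008) (l 16265600)))) (b (a (l 16229288) (l 16291688)) (a (b (l 16249336) (l 16173352)) (b (l 16163664) (l 16117040)))))), by decide +kernel⟩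

def k25_pp_101_s : ∃ t, chk3 f_pp_101_s t 5 15 1 = true :=
  ⟨(a (b (a (b (a (b (a (b (l 16705680) (l 16688360)) (l 16640928)) (a (b (l 16693112) (l 16682432)) (l 16605456))) (b (a (l 16642648) (l 16597664)) (a (l 16601448) (l 16551376)))) (a (b (a (l 16683568) (l 16638464)) (a (l 16693600) (l 16651600))) (b (a (l 16587848) (l 16533912)) (a (l 16589096) (l 16571256))))) (b (a (b (a (l 16548648) (l 16496344)) (a (l 16497512) (l 16440656))) (b (l 16413408) (b (l 16363656) (l 16351072)))) (b (a (b (l 16430416) (l 16469952)) (l 16381272)) (a (l 16517088) (l 16447392))))) (a (b (a (b (a (l 16663128) (l 16677744)) (a (l 16592184) (l 16598240))) (l 16533024)) (a (b (l 16506824) (l 16465992)) (b (l 16532040) (l 16456360)))) (b (a (l 16562888) (l 16536560)) (a (l 16519672) (l 16546736))))) (b (b (a (b (a (a (l 16327392) (l 16270992)) (l 16145520)) (a (b (l 16267000) (l 16273616)) (l 16207400))) (b (l 16126728) (l 16134312))) (a (b (l 16220752) (l 16349944)) (b (l 16177456)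 (l 16240056)))) (a (b (b (l 16410280) (l 16468392)) (l 16477120)) (b (l 16304752) (l 16445200))))), by decide +kernel⟩

def k26_pp_101_s : ∃ t, chk3 f_pp_101_s t 3 1 1 = true :=
  ⟨(b (a (l 3) (l 1)) (b (a (a (b (a (l 3) (a (l 3) (b (l 1) (l 330343314615)))) (b (b (a (l 3) (a (l 325511469175) (l 16755024))) (a (a (l 343765047831) (b (l 328195845575) (l 16757880))) (a (l 16741360) (l 16719104)))) (a (b (a (b (a (l 16747504) (l 16759032)) (l 16735664)) (l 16716160)) (a (a (l 16665720) (l 16654192)) (l 16628424))) (b (a (l 16688712) (l 16670152)) (l 16598264))))) (b (b (l 1) (a (a (b (l 1) (l 16763992)) (l 1)) (l 1))) (b (a (b (l 16730056) (l 16699904)) (l 16732456)) (a (b (l 16657048) (l 16585392)) (b (l 16661712) (l 16597896)))))) (b (l 1) (a (a (b (l 1) (l 323766317095)) (l 1)) (l 1)))) (a (b (a (b (a (b (a (l 16478176) (l 16500984)) (a (l 16390360) (l 16343224))) (b (a (l 16478392) (l 16470056)) (a (l 16318984) (l 16313016)))) (a (b (a (l 16178896) (b (l 16214696)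 (l 16140664))) (a (l 16018896) (l 16086320))) (b (a (l 16168528) (l 16185264)) (l 16093424)))) (b (a (b (l 16470960) (l 16345512)) (b (l 16506176) (l 16413480))) (a (b (l 16237344) (l 16146896)) (l 16184128)))) (b (a (b (a (b (l 16068384) (l 16069584)) (l 16047352)) (a (l 16005848) (l 16096928))) (b (a (l 16082168) (l 16150208)) (a (l 16107256) (l 16165560)))) (b (a (a (l 16239528) (l 16189160)) (a (l 16180632) (l 16221504))) (a (a (l 16350832) (l 16287344)) (l 16055832))))) (b (a (b (a (l 16529848) (l 16594960)) (a (l 16262048) (l 16417968))) (b (l 1) (b (l 1) (l 16272128)))) (b (a (b (l 16253736) (l 16248416)) (b (l 16207832) (l 6))) (a (a (l 16316336) (l 6)) (l 6))))))), by decide +kernel⟩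

theorem s27_pp_101_s : ∃ t, chk3 f_pp_101_s t 5 14 1 = true := ex3_a k23_pp_101_s k24_pp_101_s

theorem s28_pp_101_s : ∃ t, chk3 f_pp_101_s t 5 7 1 = true := ex3_b s27_pp_101_s k25_pp_101_s

theorem s29_pp_101_s : ∃ t, chk3 f_pp_101_s t 5 3 1 = true := ex3_b k22_pp_101_s s28_pp_101_s

theorem s30_pp_101_s : ∃ t, chk3 f_pp_101_s t 18 61 1 = true := ex3_a k18_pp_101_s k19_pp_101_s

theorem s31_pp_101_s : ∃ t, chk3 f_pp_101_s t 18 30 1 = true := ex3_b k17_pp_101_s s30_pp_101_s

theorem s32_pp_101_s : ∃ t, chk3 f_pp_101_s t 9 30 1 = true := ex3_a s31_pp_101_s k20_pp_101_s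

theorem s33_pp_101_s : ∃ t, chk3 f_pp_101_s t 9 15 1 = true := ex3_b s32_pp_101_s k21_pp_101_s

theorem s34_pp_101_s : ∃ t, chk3 f_pp_101_s t 9 7 1 = true := ex3_b k16_pp_101_s s33_pp_101_s

theorem s35_pp_101_s : ∃ t, chk3 f_pp_101_s t 17 62 1 = true := ex3_a k13_pp_101_s k14_pp_101_s

theorem s36_pp_101_s : ∃ t, chk3 f_pp_101_s t 17 31 1 = true := ex3_b s35_pp_101_s k15_pp_101_s

theorem s37_pp_101_s : ∃ t, chk3 f_pp_101_s t 17 15 1 = true := ex3_b k12_pp_101_s s36_pp_101_s

theorem s38_pp_101_s : ∃ t, chk3 f_pp_101_s t 132 253 1 = true := ex3_b k7_pp_101_s k8_pp_101_s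

theorem s39_pp_101_s : ∃ t, chk3 f_pp_101_s t 66 253 1 = true := ex3_a s38_pp_101_s k9_pp_101_s

theorem s40_pp_101_s : ∃ t, chk3 f_pp_101_s t 66 126 1 = true := ex3_b k6_pp_101_s s39_pp_101_s

theorem s41_pp_101_s : ∃ t, chk3 f_pp_101_s t 33 126 1 = true := ex3_a s40_pp_101_s k10_pp_101_s

theorem s42_pp_101_s : ∃ t, chk3 f_pp_101_s t 33 63 1 = true := ex3_b s41_pp_101_s k11_pp_101_s

theorem s43_pp_101_s : ∃ t, chk3 f_pp_101_s t 33 31 1 = true := ex3_b k5_pp_101_s s42_pp_101_s

theorem s44_pp_101_s : ∃ t, chk3 f_pp_101_s t 16 31 1 = true := ex3_a k4_pp_101_s s43_pp_101_s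

theorem s45_pp_101_s : ∃ t, chk3 f_pp_101_s t 16 15 1 = true := ex3_b k3_pp_101_s s44_pp_101_s

theorem s46_pp_101_s : ∃ t, chk3 f_pp_101_s t 8 15 1 = true := ex3_a s45_pp_101_s s37_pp_101_s

theorem s47_pp_101_s : ∃ t, chk3 f_pp_101_s t 8 7 1 = true := ex3_b k2_pp_101_s s46_pp_101_s

theorem s48_pp_101_s : ∃ t, chk3 f_pp_101_s t 4 7 1 = true := ex3_a s47_pp_101_s s34_pp_101_s

theorem s49_pp_101_s : ∃ t, chk3 f_pp_101_s t 4 3 1 = true := ex3_b k1_pp_101_s s48_pp_101_s

theorem s50_pp_101_s : ∃ t, chk3 f_pp_101_s t 2 3 1 = true := ex3_a s49_pp_101_s s29_pp_101_s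

theorem s51_pp_101_s : ∃ t, chk3 f_pp_101_s t 2 1 1 = true := ex3_b k0_pp_101_s s50_pp_101_s

theorem s52_pp_101_s : ∃ t, chk3 f_pp_101_s t 1 1 1 = true := ex3_a s51_pp_101_s k26_pp_101_s

theorem c_pp_101_s : CertNE 536870912 536870912 536870912 536870912 1033476505 6710887 3 eng mog cd5q1 cd0q1 pd0 false true true .npn 1 0 1
    ndB5q1 ndB0q1 pcB0 cut_pp_101_s Ext.none :=
  certNE2 (fam := false) (s1 := true) (s2 := true) (a := 1) (b := 0) (c := 1) (cn := .npn) (n1 := ndB5q1) (n2 := ndB0q1) (pc := pcB0) (cut := cut_pp_101_s) (xt := Ext.none) (P1 := 536870912) (W1 := 536870912) (P2 := 536870912) (W2 := 536870912) (P3 := 1033476505) (W3 := 6710887) (N0 := 3) (En := eng) (mo := mog) (C1 := cd5q1) (C2 := cd0q1) (C3 := pd0)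
    rfl (fun _ => rfl) s52_pp_101_s

noncomputable def cut_pp_102_s : Cut := Cut.of [[⟨4, 0, 0, 1449551462⟩], [⟨0, 1, 0, 33554432⟩, ⟨1, 0, 0, 33554432⟩, ⟨2, 1, 0, 33554432⟩]]

noncomputable def f_pp_102_s : ℕ → ℕ → ℕ → ℕ → Bool := onCell 0 536870912 0 536870912 1033476505 6710887
    (rowNE 3 eng mog cd5q1 cd0q2 pd0 2 false true true .npp 1 0 2 (qsf 536870912 536870912 0 536870912 0) ndB5q1 ndB0q2 pcB0 cut_pp_102_s Ext.none)

def k0_pp_102_s : ∃ t, chk3 f_pp_102_s t 2 2 1 = true :=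
  ⟨(a (l 6) (l 6)), by decide +kernel⟩

def k1_pp_102_s : ∃ t, chk3 f_pp_102_s t 4 3 1 = true :=
  ⟨(b (a (l 2) (b (l 6) (a (b (l 15016264) (a (b (l 15244152) (l 15382880)) (b (l 15125872) (l 15267040)))) (b (l 6) (a (b (l 15013472) (l 15186088)) (l 15019240)))))) (a (b (a (l 2) (a (b (l 2) (b (l 2) (a (l 16191048) (a (l 16206144) (l 16192024))))) (b (b (l 2) (l 15811880)) (b (l 15982872) (l 16138816))))) (a (a (b (l 2) (l 14)) (b (a (b (l 2) (l 14)) (b (b (l 2) (l 16318080)) (b (l 16382640) (l 16451752)))) (a (l 14) (a (l 14) (b (l 16517136) (b (l 16658464) (l 16713088))))))) (a (b (a (b (b (l 16275616) (l 16328328)) (l 16418656)) (b (b (l 16277848) (l 16326776)) (a (l 16416480) (l 16405720)))) (a (b (b (l 16516656) (l 16583568)) (b (l 16643904) (l 16701232))) (b (a (l 16477072) (l 16529920)) (b (l 16626056) (l 16665128))))) (b (b (l 16234928) (l 16374064)) (b (b (l 16474128) (l 16536304)) (b (l 16601128) (l 16642504))))))) (b (b (a (a (b (l 15535608) (l 15718896))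 (l 15548072)) (a (l 15482600) (l 15426192))) (a (b (a (l 15901376) (l 15837208)) (a (l 16071104) (l 16017016))) (b (l 15757976) (l 15947040)))) (b (a (b (a (l 16202384) (l 16158792)) (a (l 16336992) (l 16301608))) (b (l 16056456) (a (l 16261768) (l 16214456)))) (b (a (a (l 16404320) (l 16434544)) (l 16304328)) (a (a (l 16537168) (l 16541184)) (a (l 16515064) (l 16386248)))))))), by decide +kernel⟩

def k2_pp_102_s : ∃ t, chk3 f_pp_102_s t 5 3 1 = true :=
  ⟨(b (a (b (l 6) (a (b (l 6) (l 14931088)) (l 6))) (l 6)) (b (a (b (a (b (l 15239784) (l 15449368)) (a (l 15255944) (l 15179504))) (a (b (l 15656312) (l 15846968)) (b (l 15520080) (a (l 15744536) (l 15685840))))) (b (l 6) (a (b (l 15445048) (a (l 15677080) (l 15699184))) (b (l 6) (l 15741136))))) (a (b (a (b (a (l 16028840) (l 15967336)) (a (l 16156520) (l 16087504))) (b (a (l 15908680) (l 15877480)) (a (l 16043288) (l 16034200)))) (a (a (b (l 16270520) (l 16384920)) (b (l 16214080) (l 16344992))) (a (b (l 16185432)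 (l 16344056)) (l 16224128)))) (b (a (b (a (l 15883032) (l 15917072)) (l 16071536)) (b (l 15965544) (l 16134416))) (a (b (l 16240072) (l 16410264)) (l 16321472)))))), by decide +kernel⟩

def k3_pp_102_s : ∃ t, chk3 f_pp_102_s t 3 1 1 = true :=
  ⟨(b (l 6) (b (l 6) (a (b (l 6) (b (a (b (a (l 6) (l 6)) (l 16192584)) (l 6)) (a (a (l 16427544) (l 16446312)) (a (l 16432168) (l 6))))) (l 6)))), by decide +kernel⟩

theorem s4_pp_102_s : ∃ t, chk3 f_pp_102_s t 2 3 1 = true := ex3_a k1_pp_102_s k2_pp_102_s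

theorem s5_pp_102_s : ∃ t, chk3 f_pp_102_s t 2 1 1 = true := ex3_b k0_pp_102_s s4_pp_102_s

theorem s6_pp_102_s : ∃ t, chk3 f_pp_102_s t 1 1 1 = true := ex3_a s5_pp_102_s k3_pp_102_s

theorem c_pp_102_s : CertNE 536870912 536870912 0 536870912 1033476505 6710887 3 eng mog cd5q1 cd0q2 pd0 false true true .npp 1 0 2
    ndB5q1 ndB0q2 pcB0 cut_pp_102_s Ext.none :=
  certNE2 (fam := false) (s1 := true) (s2 := true) (a := 1) (b := 0) (c := 2) (cn := .npp) (n1 := ndB5q1) (n2 := ndB0q2) (pc := pcB0) (cut := cut_pp_102_s) (xt := Ext.none) (P1 := 536870912) (W1 := 536870912) (P2 := 0) (W2 := 536870912) (P3 := 1033476505) (W3 := 6710887) (N0 := 3) (En := eng) (mo := mog) (C1 := cd5q1) (C2 := cd0q2) (C3 := pd0)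
    rfl (fun _ => rfl) s6_pp_102_s

noncomputable def cut_pp_112_s : Cut := Cut.of [[⟨4, 0, 0, 1449551462⟩]]

noncomputable def f_pp_112_s : ℕ → ℕ → ℕ → ℕ → Bool := onCell 536870912 536870912 0 536870912 1033476505 6710887
    (rowNE 3 eng mog cd5q1 cd0q2 pd1 2 false true true .dn 1 1 2 (qsf 536870912 536870912 0 536870912 1) ndB5q1 ndB0q2 pcB1 cut_pp_112_s Ext.none)

def k0_pp_112_s : ∃ t, chk3 f_pp_112_s t 1 1 1 = true :=
  ⟨(b (l 6) (l 6)), by decide +kernel⟩

theorem c_pp_112_s : CertNE 536870912 536870912 0 536870912 1033476505 6710887 3 eng mog cd5q1 cd0q2 pd1 false true true .dn 1 1 2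
    ndB5q1 ndB0q2 pcB1 cut_pp_112_s Ext.none :=
  certNE2 (fam := false) (s1 := true) (s2 := true) (a := 1) (b := 1) (c := 2) (cn := .dn) (n1 := ndB5q1) (n2 := ndB0q2) (pc := pcB1) (cut := cut_pp_112_s) (xt := Ext.none) (P1 := 536870912) (W1 := 536870912) (P2 := 0) (W2 := 536870912) (P3 := 1033476505) (W3 := 6710887) (N0 := 3) (En := eng) (mo := mog) (C1 := cd5q1) (C2 := cd0q2) (C3 := pd1)
    rfl (fun _ => rfl) k0_pp_112_s

noncomputable def cut_pp_202_s : Cut := Cut.of [[⟨4, 0, 0, 1449551462⟩], [⟨0, 1, 0, 33554432⟩, ⟨1, 0, 0, 33554432⟩, ⟨2, 1, 0, 33554432⟩]]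

noncomputable def f_pp_202_s : ℕ → ℕ → ℕ → ℕ → Bool := onCell 0 536870912 0 536870912 1033476505 6710887
    (rowNE 3 eng mog cd5q2 cd0q2 pd0 2 false true true .pp 2 0 2 (qsf 1073741824 536870912 0 536870912 0) ndB5q2 ndB0q2 pcB0 cut_pp_202_s Ext.none)

def k0_pp_202_s : ∃ t, chk3 f_pp_202_s t 1 1 1 = true :=
  ⟨(a (b (a (l 6) (l 6)) (a (b (a (b (b (a (a (l 15869832) (l 6)) (l 6)) (a (a (l 15912824) (a (l 15791280) (l 15721600))) (a (a (l 15686504) (l 15641920)) (l 6)))) (a (a (b (l 15983352) (l 16116336)) (a (b (l 15849848) (l 15972736)) (b (l 15775288) (l 15894160)))) (a (a (b (l 15739824) (l 15859792)) (b (l 15695088) (l 15815976))) (b (l 15524720) (l 15638352))))) (b (l 6) (a (b (l 15141088) (a (b (l 15345656) (l 15417456)) (b (l 15076248) (l 1)))) (b (l 6) (l 1))))) (a (b (a (a (b (l 16101280) (b (l 16428472) (a (l 16471384) (b (l 16447304) (l 16475136))))) (b (a (l 16137672) (l 16056608)) (a (b (l 16275184) (b (l 16337080) (l 16375152))) (b (a (l 16202176)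 (l 16185104)) (b (l 16264944) (l 16302848)))))) (a (b (a (b (l 15980712) (l 16070800)) (b (l 15938440) (a (l 16052408) (l 16004448)))) (a (b (l 16162888) (l 16248680)) (b (l 16118704) (a (l 16218696) (l 16174288))))) (b (b (l 15760248) (l 15848872)) (b (l 15952872) (l 16043296))))) (a (a (b (b (a (b (l 16560944) (l 16596992)) (b (l 16493448) (l 16512176))) (l 14)) (l 14)) (b (a (b (l 16370176) (l 14)) (b (b (l 16326336) (l 16350280)) (a (l 14) (l 16384176)))) (a (l 14) (l 1)))) (a (b (a (b (l 16293904) (l 1)) (l 1)) (l 1)) (l 1)))) (b (b (a (a (b (l 15502784) (l 15620104)) (l 1)) (l 1)) (l 1)) (l 1)))) (b (l 1) (l 1)))) (l 1)), by decide +kernel⟩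

theorem c_pp_202_s : CertNE 1073741824 536870912 0 536870912 1033476505 6710887 3 eng mog cd5q2 cd0q2 pd0 false true true .pp 2 0 2
    ndB5q2 ndB0q2 pcB0 cut_pp_202_s Ext.none :=
  certNE2 (fam := false) (s1 := true) (s2 := true) (a := 2) (b := 0) (c := 2) (cn := .pp) (n1 := ndB5q2) (n2 := ndB0q2) (pc := pcB0) (cut := cut_pp_202_s) (xt := Ext.none) (P1 := 1073741824) (W1 := 536870912) (P2 := 0) (W2 := 536870912) (P3 := 1033476505) (W3 := 6710887) (N0 := 3) (En := eng) (mo := mog) (C1 := cd5q2) (C2 := cd0q2) (C3 := pd0)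
    rfl (fun _ => rfl) k0_pp_202_s

noncomputable def cut_pm_001_s : Cut := Cut.of [[⟨4, 0, 0, 1449551462⟩]]

noncomputable def f_pm_001_s : ℕ → ℕ → ℕ → ℕ → Bool := onCell 0 536870912 536870912 536870912 1033476505 6710887
    (rowNE 3 eng mog cd5q0 cd0q1 pd0 0 false true false .up 0 0 1 (qsf 0 536870912 536870912 536870912 0) ndB5q0 ndB0q1 pcB0 cut_pm_001_s Ext.none)

def k0_pm_001_s : ∃ t, chk3 f_pm_001_s t 1 1 1 = true :=
  ⟨(l 4), by decide +kernel⟩

theorem c_pm_001_s : CertNE 0 536870912 536870912 536870912 1033476505 6710887 3 eng mog cd5q0 cd0q1 pd0 false true false .up 0 0 1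
    ndB5q0 ndB0q1 pcB0 cut_pm_001_s Ext.none :=
  certNE0 (fam := false) (s1 := true) (s2 := false) (a := 0) (b := 0) (c := 1) (cn := .up) (n1 := ndB5q0) (n2 := ndB0q1) (pc := pcB0) (cut := cut_pm_001_s) (xt := Ext.none) (P1 := 0) (W1 := 536870912) (P2 := 536870912) (W2 := 536870912) (P3 := 1033476505) (W3 := 6710887) (N0 := 3) (En := eng) (mo := mog) (C1 := cd5q0) (C2 := cd0q1) (C3 := pd0)
    rfl k0_pm_001_s

noncomputable def cut_pm_011_s : Cut := Cut.of [[⟨4, 0, 0, 1449551462⟩]]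

noncomputable def f_pm_011_s : ℕ → ℕ → ℕ → ℕ → Bool := onCell 0 536870912 536870912 536870912 1033476505 6710887
    (rowNE 3 eng mog cd5q0 cd0q1 pd1 0 false true false .pnn 0 1 1 (qsf 0 536870912 536870912 536870912 1) ndB5q0 ndB0q1 pcB1 cut_pm_011_s Ext.none)

def k0_pm_011_s : ∃ t, chk3 f_pm_011_s t 1 1 1 = true :=
  ⟨(l 4), by decide +kernel⟩

theorem c_pm_011_s : CertNE 0 536870912 536870912 536870912 1033476505 6710887 3 eng mog cd5q0 cd0q1 pd1 false true false .pnn 0 1 1
    ndB5q0 ndB0q1 pcB1 cut_pm_011_s Ext.none :=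
  certNE0 (fam := false) (s1 := true) (s2 := false) (a := 0) (b := 1) (c := 1) (cn := .pnn) (n1 := ndB5q0) (n2 := ndB0q1) (pc := pcB1) (cut := cut_pm_011_s) (xt := Ext.none) (P1 := 0) (W1 := 536870912) (P2 := 536870912) (W2 := 536870912) (P3 := 1033476505) (W3 := 6710887) (N0 := 3) (En := eng) (mo := mog) (C1 := cd5q0) (C2 := cd0q1) (C3 := pd1)
    rfl k0_pm_011_s

noncomputable def cut_pm_012_s : Cut := Cut.of [[⟨4, 0, 0, 1449551462⟩]]

noncomputable def f_pm_012_s : ℕ → ℕ → ℕ → ℕ → Bool := onCell 0 536870912 0 536870912 1033476505 6710887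
    (rowNE 3 eng mog cd5q0 cd0q2 pd1 0 false true false .pnp 0 1 2 (qsf 0 536870912 0 536870912 1) ndB5q0 ndB0q2 pcB1 cut_pm_012_s Ext.none)

def k0_pm_012_s : ∃ t, chk3 f_pm_012_s t 1 1 1 = true :=
  ⟨(l 6), by decide +kernel⟩

theorem c_pm_012_s : CertNE 0 536870912 0 536870912 1033476505 6710887 3 eng mog cd5q0 cd0q2 pd1 false true false .pnp 0 1 2
    ndB5q0 ndB0q2 pcB1 cut_pm_012_s Ext.none :=
  certNE0 (fam := false) (s1 := true) (s2 := false) (a := 0) (b := 1) (c := 2) (cn := .pnp) (n1 := ndB5q0) (n2 := ndB0q2) (pc := pcB1) (cut := cut_pm_012_s) (xt := Ext.none) (P1 := 0) (W1 := 536870912) (P2 := 0) (W2 := 536870912) (P3 := 1033476505) (W3 := 6710887) (N0 := 3) (En := eng) (mo := mog) (C1 := cd5q0) (C2 := cd0q2) (C3 := pd1)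
    rfl k0_pm_012_s

noncomputable def cut_pm_022_s : Cut := Cut.of [[⟨4, 0, 0, 1449551462⟩]]

noncomputable def f_pm_022_s : ℕ → ℕ → ℕ → ℕ → Bool := onCell 0 536870912 0 536870912 1033476505 6710887
    (rowNE 3 eng mog cd5q0 cd0q2 pd2 0 false true false .pp 0 2 2 (qsf 0 536870912 0 536870912 2) ndB5q0 ndB0q2 pcB2 cut_pm_022_s Ext.none)

def k0_pm_022_s : ∃ t, chk3 f_pm_022_s t 1 1 1 = true :=
  ⟨(l 6), by decide +kernel⟩

theorem c_pm_022_s : CertNE 0 536870912 0 536870912 1033476505 6710887 3 eng mog cd5q0 cd0q2 pd2 false true false .pp 0 2 2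
    ndB5q0 ndB0q2 pcB2 cut_pm_022_s Ext.none :=
  certNE0 (fam := false) (s1 := true) (s2 := false) (a := 0) (b := 2) (c := 2) (cn := .pp) (n1 := ndB5q0) (n2 := ndB0q2) (pc := pcB2) (cut := cut_pm_022_s) (xt := Ext.none) (P1 := 0) (W1 := 536870912) (P2 := 0) (W2 := 536870912) (P3 := 1033476505) (W3 := 6710887) (N0 := 3) (En := eng) (mo := mog) (C1 := cd5q0) (C2 := cd0q2) (C3 := pd2)
    rfl k0_pm_022_s

noncomputable def cut_pm_101_s : Cut := Cut.of [[⟨4, 0, 0, 1449551462⟩]]

noncomputable def f_pm_101_s : ℕ → ℕ → ℕ → ℕ → Bool := onCell 536870912 536870912 536870912 536870912 1033476505 6710887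
    (rowNE 3 eng mog cd5q1 cd0q1 pd0 0 false true false .npn 1 0 1 (qsf 536870912 536870912 536870912 536870912 0) ndB5q1 ndB0q1 pcB0 cut_pm_101_s Ext.none)

def k0_pm_101_s : ∃ t, chk3 f_pm_101_s t 1 1 1 = true :=
  ⟨(l 4), by decide +kernel⟩

theorem c_pm_101_s : CertNE 536870912 536870912 536870912 536870912 1033476505 6710887 3 eng mog cd5q1 cd0q1 pd0 false true false .npn 1 0 1
    ndB5q1 ndB0q1 pcB0 cut_pm_101_s Ext.none :=
  certNE0 (fam := false) (s1 := true) (s2 := false) (a := 1) (b := 0) (c := 1) (cn := .npn) (n1 := ndB5q1) (n2 := ndB0q1) (pc := pcB0) (cut := cut_pm_101_s) (xt := Ext.none) (P1 := 536870912) (W1 := 536870912) (P2 := 536870912) (W2 := 536870912) (P3 := 1033476505) (W3 := 6710887) (N0 := 3) (En := eng) (mo := mog) (C1 := cd5q1) (C2 := cd0q1) (C3 := pd0)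
    rfl k0_pm_101_s

noncomputable def cut_pm_102_s : Cut := Cut.of [[⟨4, 0, 0, 1449551462⟩]]

noncomputable def f_pm_102_s : ℕ → ℕ → ℕ → ℕ → Bool := onCell 536870912 536870912 0 536870912 1033476505 6710887
    (rowNE 3 eng mog cd5q1 cd0q2 pd0 0 false true false .npp 1 0 2 (qsf 536870912 536870912 0 536870912 0) ndB5q1 ndB0q2 pcB0 cut_pm_102_s Ext.none)

def k0_pm_102_s : ∃ t, chk3 f_pm_102_s t 1 1 1 = true :=
  ⟨(l 6), by decide +kernel⟩

theorem c_pm_102_s : CertNE 536870912 536870912 0 536870912 1033476505 6710887 3 eng mog cd5q1 cd0q2 pd0 false true false .npp 1 0 2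
    ndB5q1 ndB0q2 pcB0 cut_pm_102_s Ext.none :=
  certNE0 (fam := false) (s1 := true) (s2 := false) (a := 1) (b := 0) (c := 2) (cn := .npp) (n1 := ndB5q1) (n2 := ndB0q2) (pc := pcB0) (cut := cut_pm_102_s) (xt := Ext.none) (P1 := 536870912) (W1 := 536870912) (P2 := 0) (W2 := 536870912) (P3 := 1033476505) (W3 := 6710887) (N0 := 3) (En := eng) (mo := mog) (C1 := cd5q1) (C2 := cd0q2) (C3 := pd0)
    rfl k0_pm_102_s

noncomputable def cut_pm_112_s : Cut := Cut.of [[⟨4, 0, 0, 1449551462⟩]]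

noncomputable def f_pm_112_s : ℕ → ℕ → ℕ → ℕ → Bool := onCell 536870912 536870912 0 536870912 1033476505 6710887
    (rowNE 3 eng mog cd5q1 cd0q2 pd1 0 false true false .dn 1 1 2 (qsf 536870912 536870912 0 536870912 1) ndB5q1 ndB0q2 pcB1 cut_pm_112_s Ext.none)

def k0_pm_112_s : ∃ t, chk3 f_pm_112_s t 1 1 1 = true :=
  ⟨(l 6), by decide +kernel⟩

theorem c_pm_112_s : CertNE 536870912 536870912 0 536870912 1033476505 6710887 3 eng mog cd5q1 cd0q2 pd1 false true false .dn 1 1 2
    ndB5q1 ndB0q2 pcB1 cut_pm_112_s Ext.none :=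
  certNE0 (fam := false) (s1 := true) (s2 := false) (a := 1) (b := 1) (c := 2) (cn := .dn) (n1 := ndB5q1) (n2 := ndB0q2) (pc := pcB1) (cut := cut_pm_112_s) (xt := Ext.none) (P1 := 536870912) (W1 := 536870912) (P2 := 0) (W2 := 536870912) (P3 := 1033476505) (W3 := 6710887) (N0 := 3) (En := eng) (mo := mog) (C1 := cd5q1) (C2 := cd0q2) (C3 := pd1)
    rfl k0_pm_112_s

noncomputable def cut_pm_202_s : Cut := Cut.of [[⟨4, 0, 0, 1449551462⟩]]

noncomputable def f_pm_202_s : ℕ → ℕ → ℕ → ℕ → Bool := onCell 0 536870912 0 536870912 1033476505 6710887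
    (rowNE 3 eng mog cd5q2 cd0q2 pd0 2 false true false .pp 2 0 2 (qsf 1073741824 536870912 0 536870912 0) ndB5q2 ndB0q2 pcB0 cut_pm_202_s Ext.none)

def k0_pm_202_s : ∃ t, chk3 f_pm_202_s t 1 1 1 = true :=
  ⟨(l 6), by decide +kernel⟩

theorem c_pm_202_s : CertNE 1073741824 536870912 0 536870912 1033476505 6710887 3 eng mog cd5q2 cd0q2 pd0 false true false .pp 2 0 2
    ndB5q2 ndB0q2 pcB0 cut_pm_202_s Ext.none :=
  certNE2 (fam := false) (s1 := true) (s2 := false) (a := 2) (b := 0) (c := 2) (cn := .pp) (n1 := ndB5q2) (n2 := ndB0q2) (pc := pcB0) (cut := cut_pm_202_s) (xt := Ext.none) (P1 := 1073741824) (W1 := 536870912) (P2 := 0) (W2 := 536870912) (P3 := 1033476505) (W3 := 6710887) (N0 := 3) (En := eng) (mo := mog) (C1 := cd5q2) (C2 := cd0q2) (C3 := pd0)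
    rfl (fun _ => rfl) k0_pm_202_s

noncomputable def cut_mm_001_s : Cut := Cut.of [[⟨4, 0, 0, 1449551462⟩]]

noncomputable def f_mm_001_s : ℕ → ℕ → ℕ → ℕ → Bool := onCell 0 536870912 536870912 536870912 1033476505 6710887
    (rowNE 3 eng mog cd5q0 cd0q1 pd0 0 false false false .up 0 0 1 (qsf 0 536870912 536870912 536870912 0) ndB5q0 ndB0q1 pcB0 cut_mm_001_s Ext.none)

def k0_mm_001_s : ∃ t, chk3 f_mm_001_s t 1 1 1 = true :=
  ⟨(l 5), by decide +kernel⟩

theorem c_mm_001_s : CertNE 0 536870912 536870912 536870912 1033476505 6710887 3 eng mog cd5q0 cd0q1 pd0 false false false .up 0 0 1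
    ndB5q0 ndB0q1 pcB0 cut_mm_001_s Ext.none :=
  certNE0 (fam := false) (s1 := false) (s2 := false) (a := 0) (b := 0) (c := 1) (cn := .up) (n1 := ndB5q0) (n2 := ndB0q1) (pc := pcB0) (cut := cut_mm_001_s) (xt := Ext.none) (P1 := 0) (W1 := 536870912) (P2 := 536870912) (W2 := 536870912) (P3 := 1033476505) (W3 := 6710887) (N0 := 3) (En := eng) (mo := mog) (C1 := cd5q0) (C2 := cd0q1) (C3 := pd0)
    rfl k0_mm_001_s

noncomputable def cut_mm_011_s : Cut := Cut.of [[⟨4, 0, 0, 1449551462⟩]]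

noncomputable def f_mm_011_s : ℕ → ℕ → ℕ → ℕ → Bool := onCell 0 536870912 536870912 536870912 1033476505 6710887
    (rowNE 3 eng mog cd5q0 cd0q1 pd1 0 false false false .pnn 0 1 1 (qsf 0 536870912 536870912 536870912 1) ndB5q0 ndB0q1 pcB1 cut_mm_011_s Ext.none)

def k0_mm_011_s : ∃ t, chk3 f_mm_011_s t 1 1 1 = true :=
  ⟨(l 5), by decide +kernel⟩

theorem c_mm_011_s : CertNE 0 536870912 536870912 536870912 1033476505 6710887 3 eng mog cd5q0 cd0q1 pd1 false false false .pnn 0 1 1
    ndB5q0 ndB0q1 pcB1 cut_mm_011_s Ext.none :=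
  certNE0 (fam := false) (s1 := false) (s2 := false) (a := 0) (b := 1) (c := 1) (cn := .pnn) (n1 := ndB5q0) (n2 := ndB0q1) (pc := pcB1) (cut := cut_mm_011_s) (xt := Ext.none) (P1 := 0) (W1 := 536870912) (P2 := 536870912) (W2 := 536870912) (P3 := 1033476505) (W3 := 6710887) (N0 := 3) (En := eng) (mo := mog) (C1 := cd5q0) (C2 := cd0q1) (C3 := pd1)
    rfl k0_mm_011_s

noncomputable def cut_mm_012_s : Cut := Cut.of [[⟨4, 0, 0, 1449551462⟩]]

noncomputable def f_mm_012_s : ℕ → ℕ → ℕ → ℕ → Bool := onCell 0 536870912 0 536870912 1033476505 6710887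
    (rowNE 3 eng mog cd5q0 cd0q2 pd1 0 false false false .pnp 0 1 2 (qsf 0 536870912 0 536870912 1) ndB5q0 ndB0q2 pcB1 cut_mm_012_s Ext.none)

def k0_mm_012_s : ∃ t, chk3 f_mm_012_s t 1 1 1 = true :=
  ⟨(l 5), by decide +kernel⟩

theorem c_mm_012_s : CertNE 0 536870912 0 536870912 1033476505 6710887 3 eng mog cd5q0 cd0q2 pd1 false false false .pnp 0 1 2
    ndB5q0 ndB0q2 pcB1 cut_mm_012_s Ext.none :=
  certNE0 (fam := false) (s1 := false) (s2 := false) (a := 0) (b := 1) (c := 2) (cn := .pnp) (n1 := ndB5q0) (n2 := ndB0q2) (pc := pcB1) (cut := cut_mm_012_s) (xt := Ext.none) (P1 := 0) (W1 := 536870912) (P2 := 0) (W2 := 536870912) (P3 := 1033476505) (W3 := 6710887) (N0 := 3) (En := eng) (mo := mog) (C1 := cd5q0) (C2 := cd0q2) (C3 := pd1)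
    rfl k0_mm_012_s

noncomputable def cut_mm_022_s : Cut := Cut.of [[⟨4, 0, 0, 1449551462⟩]]

noncomputable def f_mm_022_s : ℕ → ℕ → ℕ → ℕ → Bool := onCell 0 536870912 0 536870912 1033476505 6710887
    (rowNE 3 eng mog cd5q0 cd0q2 pd2 0 false false false .pp 0 2 2 (qsf 0 536870912 0 536870912 2) ndB5q0 ndB0q2 pcB2 cut_mm_022_s Ext.none)

def k0_mm_022_s : ∃ t, chk3 f_mm_022_s t 1 1 1 = true :=
  ⟨(l 5), by decide +kernel⟩

theorem c_mm_022_s : CertNE 0 536870912 0 536870912 1033476505 6710887 3 eng mog cd5q0 cd0q2 pd2 false false false .pp 0 2 2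
    ndB5q0 ndB0q2 pcB2 cut_mm_022_s Ext.none :=
  certNE0 (fam := false) (s1 := false) (s2 := false) (a := 0) (b := 2) (c := 2) (cn := .pp) (n1 := ndB5q0) (n2 := ndB0q2) (pc := pcB2) (cut := cut_mm_022_s) (xt := Ext.none) (P1 := 0) (W1 := 536870912) (P2 := 0) (W2 := 536870912) (P3 := 1033476505) (W3 := 6710887) (N0 := 3) (En := eng) (mo := mog) (C1 := cd5q0) (C2 := cd0q2) (C3 := pd2)
    rfl k0_mm_022_s

noncomputable def cut_mm_101_s : Cut := Cut.of [[⟨4, 0, 0, 1449551462⟩]]

noncomputable def f_mm_101_s : ℕ → ℕ → ℕ → ℕ → Bool := onCell 0 536870912 536870912 536870912 1033476505 6710887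
    (rowNE 3 eng mog cd5q1 cd0q1 pd0 2 false false false .npn 1 0 1 (qsf 536870912 536870912 536870912 536870912 0) ndB5q1 ndB0q1 pcB0 cut_mm_101_s Ext.none)

def k0_mm_101_s : ∃ t, chk3 f_mm_101_s t 1 1 1 = true :=
  ⟨(l 5), by decide +kernel⟩

theorem c_mm_101_s : CertNE 536870912 536870912 536870912 536870912 1033476505 6710887 3 eng mog cd5q1 cd0q1 pd0 false false false .npn 1 0 1
    ndB5q1 ndB0q1 pcB0 cut_mm_101_s Ext.none :=
  certNE2 (fam := false) (s1 := false) (s2 := false) (a := 1) (b := 0) (c := 1) (cn := .npn) (n1 := ndB5q1) (n2 := ndB0q1) (pc := pcB0) (cut := cut_mm_101_s) (xt := Ext.none) (P1 := 536870912) (W1 := 536870912) (P2 := 536870912) (W2 := 536870912) (P3 := 1033476505) (W3 := 6710887) (N0 := 3) (En := eng) (mo := mog) (C1 := cd5q1) (C2 := cd0q1) (C3 := pd0)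
    rfl (fun _ => rfl) k0_mm_101_s

noncomputable def cut_mm_102_s : Cut := Cut.of [[⟨4, 0, 0, 1449551462⟩]]

noncomputable def f_mm_102_s : ℕ → ℕ → ℕ → ℕ → Bool := onCell 536870912 536870912 0 536870912 1033476505 6710887
    (rowNE 3 eng mog cd5q1 cd0q2 pd0 0 false false false .npp 1 0 2 (qsf 536870912 536870912 0 536870912 0) ndB5q1 ndB0q2 pcB0 cut_mm_102_s Ext.none)

def k0_mm_102_s : ∃ t, chk3 f_mm_102_s t 1 1 1 = true :=
  ⟨(l 5), by decide +kernel⟩

theorem c_mm_102_s : CertNE 536870912 536870912 0 536870912 1033476505 6710887 3 eng mog cd5q1 cd0q2 pd0 false false false .npp 1 0 2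
    ndB5q1 ndB0q2 pcB0 cut_mm_102_s Ext.none :=
  certNE0 (fam := false) (s1 := false) (s2 := false) (a := 1) (b := 0) (c := 2) (cn := .npp) (n1 := ndB5q1) (n2 := ndB0q2) (pc := pcB0) (cut := cut_mm_102_s) (xt := Ext.none) (P1 := 536870912) (W1 := 536870912) (P2 := 0) (W2 := 536870912) (P3 := 1033476505) (W3 := 6710887) (N0 := 3) (En := eng) (mo := mog) (C1 := cd5q1) (C2 := cd0q2) (C3 := pd0)
    rfl k0_mm_102_s

noncomputable def cut_mm_112_s : Cut := Cut.of [[⟨4, 0, 0, 1449551462⟩]]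

noncomputable def f_mm_112_s : ℕ → ℕ → ℕ → ℕ → Bool := onCell 536870912 536870912 0 536870912 1033476505 6710887
    (rowNE 3 eng mog cd5q1 cd0q2 pd1 0 false false false .dn 1 1 2 (qsf 536870912 536870912 0 536870912 1) ndB5q1 ndB0q2 pcB1 cut_mm_112_s Ext.none)

def k0_mm_112_s : ∃ t, chk3 f_mm_112_s t 1 1 1 = true :=
  ⟨(l 5), by decide +kernel⟩

theorem c_mm_112_s : CertNE 536870912 536870912 0 536870912 1033476505 6710887 3 eng mog cd5q1 cd0q2 pd1 false false false .dn 1 1 2
    ndB5q1 ndB0q2 pcB1 cut_mm_112_s Ext.none :=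
  certNE0 (fam := false) (s1 := false) (s2 := false) (a := 1) (b := 1) (c := 2) (cn := .dn) (n1 := ndB5q1) (n2 := ndB0q2) (pc := pcB1) (cut := cut_mm_112_s) (xt := Ext.none) (P1 := 536870912) (W1 := 536870912) (P2 := 0) (W2 := 536870912) (P3 := 1033476505) (W3 := 6710887) (N0 := 3) (En := eng) (mo := mog) (C1 := cd5q1) (C2 := cd0q2) (C3 := pd1)
    rfl k0_mm_112_s

noncomputable def cut_mm_202_s : Cut := Cut.of [[⟨4, 0, 0, 1449551462⟩]]

noncomputable def f_mm_202_s : ℕ → ℕ → ℕ → ℕ → Bool := onCell 1073741824 536870912 0 536870912 1033476505 6710887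
    (rowNE 3 eng mog cd5q2 cd0q2 pd0 0 false false false .pp 2 0 2 (qsf 1073741824 536870912 0 536870912 0) ndB5q2 ndB0q2 pcB0 cut_mm_202_s Ext.none)

def k0_mm_202_s : ∃ t, chk3 f_mm_202_s t 1 1 1 = true :=
  ⟨(l 5), by decide +kernel⟩

theorem c_mm_202_s : CertNE 1073741824 536870912 0 536870912 1033476505 6710887 3 eng mog cd5q2 cd0q2 pd0 false false false .pp 2 0 2
    ndB5q2 ndB0q2 pcB0 cut_mm_202_s Ext.none :=
  certNE0 (fam := false) (s1 := false) (s2 := false) (a := 2) (b := 0) (c := 2) (cn := .pp) (n1 := ndB5q2) (n2 := ndB0q2) (pc := pcB0) (cut := cut_mm_202_s) (xt := Ext.none) (P1 := 1073741824) (W1 := 536870912) (P2 := 0) (W2 := 536870912) (P3 := 1033476505) (W3 := 6710887) (N0 := 3) (En := eng) (mo := mog) (C1 := cd5q2) (C2 := cd0q2) (C3 := pd0)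
    rfl k0_mm_202_s

end Pool.Agent.Strip051.G.I9625_9688.Tab.CS.BB50

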