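import Pool.Agent.Strip051.G.I9625_9688.Tab
import Pool.Agent.Strip051.PB.ExtD3

/-! # Certificates B15 (generated) -/

set_option linter.all false
set_option maxRecDepth 100000

namespace Pool.Agent.Strip051.G.I9625_9688.Tab.C.BB00

open Pool.Agent.Strip051.PB Pool.Agent.Strip051.PB.T
open Pool.Agent.Strip051.G.I9625_9688.Tab

noncomputable def cut_pm_112 : Cut := Cut.of [[⟨3, 0, 0, 1449551462⟩], [⟨4, 0, 0, 2845415833⟩]]

noncomputable def f_pm_112 : ℕ → ℕ → ℕ → ℕ → Bool := onCell 536870912 536870912 0 536870912 1033476505 6710887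
    (rowB 3 eng mog cd0q1 cd0q2 pd1 0 false true false .dn 1 1 2 (qsf 536870912 536870912 0 536870912 1) ndB0q1 ndB0q2 pcB1 cut_pm_112 Ext.none)

def k0_pm_112 : ∃ t, chk3 f_pm_112 t 1 1 1 = true :=
  ⟨(a (b (b (a (a (a (b (l 6) (b (l 6) (a (b (l 6) (l 15975584)) (l 6)))) (l 6)) (l 6)) (l 6)) (a (a (b (a (b (a (l 16009120) (l 15867432)) (a (l 16049592) (l 15976296))) (b (a (b (l 6) (l 15864976)) (l 6)) (a (l 15903088) (l 15830104)))) (a (b (a (l 16087936) (l 16020392)) (l 16055136)) (b (a (l 15952968) (l 15885808)) (l 15869744)))) (b (a (b (l 6) (a (l 15715512) (l 6))) (l 6)) (a (b (a (l 15819040) (l 15752808)) (a (l 15883528) (l 15823552))) (b (a (l 15687248) (l 6)) (a (l 15764304) (l 15705920)))))) (b (l 6) (b (l 6) (b (l 6) (l 1)))))) (b (a (b (a (b (a (l 16103288) (l 15973328)) (a (b (l 16185952) (a (b (l 16232216) (l 16244576)) (l 16197520))) (b (l 16088536) (l 16126984)))) (b (a (a (l 15955224) (l 15901976)) (a (l 15849464) (l 15797864))) (a (b (l 15992048) (l 16018248)) (b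 (l 15898088) (l 15953520))))) (a (b (a (b (a (l 16269112) (b (l 16214352) (l 16230016))) (l 16257584)) (b (a (b (l 16180416) (l 16184632)) (b (l 16138824) (l 16153080))) (a (l 16198384) (l 16158064)))) (a (l 16145432) (b (l 16171712) (l 16143040)))) (b (a (b (l 16093944) (a (b (l 16125296) (l 16125688)) (b (l 16098672) (b (l 16097744) (l 16072704))))) (b (l 16019872) (l 1))) (a (b (l 16107600) (l 16082800)) (l 1))))) (l 1)) (a (a (b (b (a (b (l 16170360) (l 16123888)) (b (l 16101856) (l 16055096))) (b (a (l 16079168) (l 16009640)) (a (l 16051800) (l 15981376)))) (b (b (l 15971448) (l 16059880)) (a (l 16125208) (l 1)))) (b (b (a (b (l 16042736) (l 15995680)) (l 1)) (l 1)) (l 1))) (l 1)))) (l 1)), by decide +kernel⟩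

theorem c_pm_112 : CertB 536870912 536870912 0 536870912 1033476505 6710887 3 eng mog cd0q1 cd0q2 pd1 false true false .dn 1 1 2
    ndB0q1 ndB0q2 pcB1 cut_pm_112 Ext.none :=
  certB0 (fam := false) (s1 := true) (s2 := false) (a := 1) (b := 1) (c := 2) (cn := .dn) (n1 := ndB0q1) (n2 := ndB0q2) (pc := pcB1) (cut := cut_pm_112) (xt := Ext.none) (P1 := 536870912) (W1 := 536870912) (P2 := 0) (W2 := 536870912) (P3 := 1033476505) (W3 := 6710887) (N0 := 3) (En := eng) (mo := mog) (C1 := cd0q1) (C2 := cd0q2) (C3 := pd1)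
    rfl k0_pm_112

noncomputable def cut_pm_202 : Cut := Cut.of [[⟨3, 0, 0, 1449551462⟩], [⟨4, 0, 0, 2845415833⟩], [⟨0, 1, 0, 33554432⟩, ⟨1, 0, 0, 33554432⟩, ⟨2, 1, 0, 33554432⟩], [⟨0, 0, 1, 46137344⟩, ⟨1, 1, 2, 46137344⟩, ⟨2, 1, 0, 1048576⟩, ⟨0, 0, 0, 1047972020⟩, ⟨0, 1, 0, 45097156⟩, ⟨1, 0, 0, 45097156⟩, ⟨1, 1, 0, 1047972020⟩]]

noncomputable def f_pm_202 : ℕ → ℕ → ℕ → ℕ → Bool := onCell 0 536870912 0 536870912 1033476505 6710887
    (rowB 3 eng mog cd0q2 cd0q2 pd0 0 false true false .pp 2 0 2 (qsf 0 536870912 0 536870912 0) ndB0q2 ndB0q2 pcB0 cut_pm_202 Ext.none)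

def k0_pm_202 : ∃ t, chk3 f_pm_202 t 1 1 1 = true :=
  ⟨(l 6), by decide +kernel⟩

theorem c_pm_202 : CertB 0 536870912 0 536870912 1033476505 6710887 3 eng mog cd0q2 cd0q2 pd0 false true false .pp 2 0 2
    ndB0q2 ndB0q2 pcB0 cut_pm_202 Ext.none :=
  certB0 (fam := false) (s1 := true) (s2 := false) (a := 2) (b := 0) (c := 2) (cn := .pp) (n1 := ndB0q2) (n2 := ndB0q2) (pc := pcB0) (cut := cut_pm_202) (xt := Ext.none) (P1 := 0) (W1 := 536870912) (P2 := 0) (W2 := 536870912) (P3 := 1033476505) (W3 := 6710887) (N0 := 3) (En := eng) (mo := mog) (C1 := cd0q2) (C2 := cd0q2) (C3 := pd0)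
    rfl k0_pm_202

noncomputable def cut_mm_001 : Cut := Cut.of [[⟨3, 0, 0, 1449551462⟩], [⟨4, 0, 0, 2845415833⟩]]

noncomputable def f_mm_001 : ℕ → ℕ → ℕ → ℕ → Bool := onCell 0 536870912 536870912 536870912 1033476505 6710887
    (rowB 3 eng mog cd0q0 cd0q1 pd0 0 false false false .up 0 0 1 (qsf 0 536870912 536870912 536870912 0) ndB0q0 ndB0q1 pcB0 cut_mm_001 Ext.none)

def k0_mm_001 : ∃ t, chk3 f_mm_001 t 1 1 1 = true :=
  ⟨(l 6), by decide +kernel⟩

theorem c_mm_001 : CertB 0 536870912 536870912 536870912 1033476505 6710887 3 eng mog cd0q0 cd0q1 pd0 false false false .up 0 0 1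
    ndB0q0 ndB0q1 pcB0 cut_mm_001 Ext.none :=
  certB0 (fam := false) (s1 := false) (s2 := false) (a := 0) (b := 0) (c := 1) (cn := .up) (n1 := ndB0q0) (n2 := ndB0q1) (pc := pcB0) (cut := cut_mm_001) (xt := Ext.none) (P1 := 0) (W1 := 536870912) (P2 := 536870912) (W2 := 536870912) (P3 := 1033476505) (W3 := 6710887) (N0 := 3) (En := eng) (mo := mog) (C1 := cd0q0) (C2 := cd0q1) (C3 := pd0)
    rfl k0_mm_001

noncomputable def cut_mm_011 : Cut := Cut.of [[⟨3, 0, 0, 1449551462⟩], [⟨4, 0, 0, 2845415833⟩]]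

noncomputable def f_mm_011 : ℕ → ℕ → ℕ → ℕ → Bool := onCell 0 536870912 536870912 536870912 1033476505 6710887
    (rowB 3 eng mog cd0q0 cd0q1 pd1 0 false false false .pnn 0 1 1 (qsf 0 536870912 536870912 536870912 1) ndB0q0 ndB0q1 pcB1 cut_mm_011 Ext.none)

def k0_mm_011 : ∃ t, chk3 f_mm_011 t 1 1 1 = true :=
  ⟨(l 6), by decide +kernel⟩

theorem c_mm_011 : CertB 0 536870912 536870912 536870912 1033476505 6710887 3 eng mog cd0q0 cd0q1 pd1 false false false .pnn 0 1 1
    ndB0q0 ndB0q1 pcB1 cut_mm_011 Ext.none :=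
  certB0 (fam := false) (s1 := false) (s2 := false) (a := 0) (b := 1) (c := 1) (cn := .pnn) (n1 := ndB0q0) (n2 := ndB0q1) (pc := pcB1) (cut := cut_mm_011) (xt := Ext.none) (P1 := 0) (W1 := 536870912) (P2 := 536870912) (W2 := 536870912) (P3 := 1033476505) (W3 := 6710887) (N0 := 3) (En := eng) (mo := mog) (C1 := cd0q0) (C2 := cd0q1) (C3 := pd1)
    rfl k0_mm_011

noncomputable def cut_mm_012 : Cut := Cut.of [[⟨3, 0, 0, 1449551462⟩], [⟨4, 0, 0, 2845415833⟩]]

noncomputable def f_mm_012 : ℕ → ℕ → ℕ → ℕ → Bool := onCell 0 536870912 0 536870912 1033476505 6710887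
    (rowB 3 eng mog cd0q0 cd0q2 pd1 0 false false false .pnp 0 1 2 (qsf 0 536870912 0 536870912 1) ndB0q0 ndB0q2 pcB1 cut_mm_012 Ext.none)

def k0_mm_012 : ∃ t, chk3 f_mm_012 t 1 1 1 = true :=
  ⟨(l 5), by decide +kernel⟩

theorem c_mm_012 : CertB 0 536870912 0 536870912 1033476505 6710887 3 eng mog cd0q0 cd0q2 pd1 false false false .pnp 0 1 2
    ndB0q0 ndB0q2 pcB1 cut_mm_012 Ext.none :=
  certB0 (fam := false) (s1 := false) (s2 := false) (a := 0) (b := 1) (c := 2) (cn := .pnp) (n1 := ndB0q0) (n2 := ndB0q2) (pc := pcB1) (cut := cut_mm_012) (xt := Ext.none) (P1 := 0) (W1 := 536870912) (P2 := 0) (W2 := 536870912) (P3 := 1033476505) (W3 := 6710887) (N0 := 3) (En := eng) (mo := mog) (C1 := cd0q0) (C2 := cd0q2) (C3 := pd1)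
    rfl k0_mm_012

noncomputable def cut_mm_022 : Cut := Cut.of [[⟨3, 0, 0, 1449551462⟩], [⟨4, 0, 0, 2845415833⟩]]

noncomputable def f_mm_022 : ℕ → ℕ → ℕ → ℕ → Bool := onCell 0 536870912 0 536870912 1033476505 6710887
    (rowB 3 eng mog cd0q0 cd0q2 pd2 0 false false false .pp 0 2 2 (qsf 0 536870912 0 536870912 2) ndB0q0 ndB0q2 pcB2 cut_mm_022 Ext.none)

def k0_mm_022 : ∃ t, chk3 f_mm_022 t 1 1 1 = true :=
  ⟨(l 5), by decide +kernel⟩

theorem c_mm_022 : CertB 0 536870912 0 536870912 1033476505 6710887 3 eng mog cd0q0 cd0q2 pd2 false false false .pp 0 2 2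
    ndB0q0 ndB0q2 pcB2 cut_mm_022 Ext.none :=
  certB0 (fam := false) (s1 := false) (s2 := false) (a := 0) (b := 2) (c := 2) (cn := .pp) (n1 := ndB0q0) (n2 := ndB0q2) (pc := pcB2) (cut := cut_mm_022) (xt := Ext.none) (P1 := 0) (W1 := 536870912) (P2 := 0) (W2 := 536870912) (P3 := 1033476505) (W3 := 6710887) (N0 := 3) (En := eng) (mo := mog) (C1 := cd0q0) (C2 := cd0q2) (C3 := pd2)
    rfl k0_mm_022

noncomputable def cut_mm_101 : Cut := Cut.of [[⟨3, 0, 0, 1449551462⟩], [⟨4, 0, 0, 2845415833⟩]]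

noncomputable def f_mm_101 : ℕ → ℕ → ℕ → ℕ → Bool := onCell 536870912 536870912 536870912 536870912 1033476505 6710887
    (rowB 3 eng mog cd0q1 cd0q1 pd0 0 false false false .npn 1 0 1 (qsf 536870912 536870912 536870912 536870912 0) ndB0q1 ndB0q1 pcB0 cut_mm_101 Ext.none)

def k0_mm_101 : ∃ t, chk3 f_mm_101 t 1 1 1 = true :=
  ⟨(l 3), by decide +kernel⟩

theorem c_mm_101 : CertB 536870912 536870912 536870912 536870912 1033476505 6710887 3 eng mog cd0q1 cd0q1 pd0 false false false .npn 1 0 1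
    ndB0q1 ndB0q1 pcB0 cut_mm_101 Ext.none :=
  certB0 (fam := false) (s1 := false) (s2 := false) (a := 1) (b := 0) (c := 1) (cn := .npn) (n1 := ndB0q1) (n2 := ndB0q1) (pc := pcB0) (cut := cut_mm_101) (xt := Ext.none) (P1 := 536870912) (W1 := 536870912) (P2 := 536870912) (W2 := 536870912) (P3 := 1033476505) (W3 := 6710887) (N0 := 3) (En := eng) (mo := mog) (C1 := cd0q1) (C2 := cd0q1) (C3 := pd0)
    rfl k0_mm_101

noncomputable def cut_mm_102 : Cut := Cut.of [[⟨3, 0, 0, 1449551462⟩], [⟨4, 0, 0, 2845415833⟩]]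

noncomputable def f_mm_102 : ℕ → ℕ → ℕ → ℕ → Bool := onCell 536870912 536870912 0 536870912 1033476505 6710887
    (rowB 3 eng mog cd0q1 cd0q2 pd0 0 false false false .npp 1 0 2 (qsf 536870912 536870912 0 536870912 0) ndB0q1 ndB0q2 pcB0 cut_mm_102 Ext.none)

def k0_mm_102 : ∃ t, chk3 f_mm_102 t 1 1 1 = true :=
  ⟨(a (l 5) (l 3)), by decide +kernel⟩

theorem c_mm_102 : CertB 536870912 536870912 0 536870912 1033476505 6710887 3 eng mog cd0q1 cd0q2 pd0 false false false .npp 1 0 2
    ndB0q1 ndB0q2 pcB0 cut_mm_102 Ext.none :=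
  certB0 (fam := false) (s1 := false) (s2 := false) (a := 1) (b := 0) (c := 2) (cn := .npp) (n1 := ndB0q1) (n2 := ndB0q2) (pc := pcB0) (cut := cut_mm_102) (xt := Ext.none) (P1 := 536870912) (W1 := 536870912) (P2 := 0) (W2 := 536870912) (P3 := 1033476505) (W3 := 6710887) (N0 := 3) (En := eng) (mo := mog) (C1 := cd0q1) (C2 := cd0q2) (C3 := pd0)
    rfl k0_mm_102

noncomputable def cut_mm_112 : Cut := Cut.of [[⟨3, 0, 0, 1449551462⟩], [⟨4, 0, 0, 2845415833⟩]]

noncomputable def f_mm_112 : ℕ → ℕ → ℕ → ℕ → Bool := onCell 536870912 536870912 0 536870912 1033476505 6710887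
    (rowB 3 eng mog cd0q1 cd0q2 pd1 2 false false false .dn 1 1 2 (qsf 536870912 536870912 0 536870912 1) ndB0q1 ndB0q2 pcB1 cut_mm_112 Ext.none)

def k0_mm_112 : ∃ t, chk3 f_mm_112 t 1 1 1 = true :=
  ⟨(l 5), by decide +kernel⟩

theorem c_mm_112 : CertB 536870912 536870912 0 536870912 1033476505 6710887 3 eng mog cd0q1 cd0q2 pd1 false false false .dn 1 1 2
    ndB0q1 ndB0q2 pcB1 cut_mm_112 Ext.none :=
  certB2 (fam := false) (s1 := false) (s2 := false) (a := 1) (b := 1) (c := 2) (cn := .dn) (n1 := ndB0q1) (n2 := ndB0q2) (pc := pcB1) (cut := cut_mm_112) (xt := Ext.none) (P1 := 536870912) (W1 := 536870912) (P2 := 0) (W2 := 536870912) (P3 := 1033476505) (W3 := 6710887) (N0 := 3) (En := eng) (mo := mog) (C1 := cd0q1) (C2 := cd0q2) (C3 := pd1)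
    rfl (fun _ => rfl) k0_mm_112

noncomputable def cut_mm_202 : Cut := Cut.of [[⟨3, 0, 0, 1449551462⟩], [⟨4, 0, 0, 2845415833⟩]]

noncomputable def f_mm_202 : ℕ → ℕ → ℕ → ℕ → Bool := onCell 0 536870912 0 536870912 1033476505 6710887
    (rowB 3 eng mog cd0q2 cd0q2 pd0 0 false false false .pp 2 0 2 (qsf 0 536870912 0 536870912 0) ndB0q2 ndB0q2 pcB0 cut_mm_202 Ext.none)

def k0_mm_202 : ∃ t, chk3 f_mm_202 t 1 1 1 = true :=
  ⟨(l 3), by decide +kernel⟩

theorem c_mm_202 : CertB 0 536870912 0 536870912 1033476505 6710887 3 eng mog cd0q2 cd0q2 pd0 false false false .pp 2 0 2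
    ndB0q2 ndB0q2 pcB0 cut_mm_202 Ext.none :=
  certB0 (fam := false) (s1 := false) (s2 := false) (a := 2) (b := 0) (c := 2) (cn := .pp) (n1 := ndB0q2) (n2 := ndB0q2) (pc := pcB0) (cut := cut_mm_202) (xt := Ext.none) (P1 := 0) (W1 := 536870912) (P2 := 0) (W2 := 536870912) (P3 := 1033476505) (W3 := 6710887) (N0 := 3) (En := eng) (mo := mog) (C1 := cd0q2) (C2 := cd0q2) (C3 := pd0)
    rfl k0_mm_202

end Pool.Agent.Strip051.G.I9625_9688.Tab.C.BB00

namespace Pool.Agent.Strip051.G.I9625_9688.Tab.C.BB01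

open Pool.Agent.Strip051.PB Pool.Agent.Strip051.PB.T
open Pool.Agent.Strip051.G.I9625_9688.Tab

noncomputable def f_pp_001 : ℕ → ℕ → ℕ → ℕ → Bool := onCell 0 536870912 536870912 536870912 1033476505 6710887
    (rowB 3 eng mog cd0q0 cd1q1 pd0 0 false true true .up 0 0 1 (qsf 0 536870912 536870912 536870912 0) ndB0q0 ndB1q1 pcB0 Cut.none Ext.none)

def k0_pp_001 : ∃ t, chk3 f_pp_001 t 1 1 1 = true :=
  ⟨(l 3), by decide +kernel⟩

theorem c_pp_001 : CertB 0 536870912 536870912 536870912 1033476505 6710887 3 eng mog cd0q0 cd1q1 pd0 false true true .up 0 0 1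
    ndB0q0 ndB1q1 pcB0 Cut.none Ext.none :=
  certB0 (fam := false) (s1 := true) (s2 := true) (a := 0) (b := 0) (c := 1) (cn := .up) (n1 := ndB0q0) (n2 := ndB1q1) (pc := pcB0) (cut := Cut.none) (xt := Ext.none) (P1 := 0) (W1 := 536870912) (P2 := 536870912) (W2 := 536870912) (P3 := 1033476505) (W3 := 6710887) (N0 := 3) (En := eng) (mo := mog) (C1 := cd0q0) (C2 := cd1q1) (C3 := pd0)
    rfl k0_pp_001

noncomputable def f_pp_011 : ℕ → ℕ → ℕ → ℕ → Bool := onCell 0 536870912 536870912 536870912 1033476505 6710887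
    (rowB 3 eng mog cd0q0 cd1q1 pd1 0 false true true .pnn 0 1 1 (qsf 0 536870912 536870912 536870912 1) ndB0q0 ndB1q1 pcB1 Cut.none Ext.none)

def k0_pp_011 : ∃ t, chk3 f_pp_011 t 1 1 1 = true :=
  ⟨(l 3), by decide +kernel⟩

theorem c_pp_011 : CertB 0 536870912 536870912 536870912 1033476505 6710887 3 eng mog cd0q0 cd1q1 pd1 false true true .pnn 0 1 1
    ndB0q0 ndB1q1 pcB1 Cut.none Ext.none :=
  certB0 (fam := false) (s1 := true) (s2 := true) (a := 0) (b := 1) (c := 1) (cn := .pnn) (n1 := ndB0q0) (n2 := ndB1q1) (pc := pcB1) (cut := Cut.none) (xt := Ext.none) (P1 := 0) (W1 := 536870912) (P2 := 536870912) (W2 := 536870912) (P3 := 1033476505) (W3 := 6710887) (N0 := 3) (En := eng) (mo := mog) (C1 := cd0q0) (C2 := cd1q1) (C3 := pd1)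
    rfl k0_pp_011

noncomputable def cut_pp_012_a : Cut := Cut.of [[⟨0, 0, 0, 33554432⟩, ⟨1, 1, 0, 33554432⟩, ⟨2, 1, 0, 33554432⟩]]

noncomputable def xt_pp_012_a : Ext := extD3 3 ⟨4, 1, 1, 5, 27, 5, 41, 50, 81, 200, 1, 64⟩ eng cd0q0 cd1q2a pd1 false true true .pnp 0 1 2 rfl ndB0q0 ndB1q2a pcB1

noncomputable def f_pp_012_a : ℕ → ℕ → ℕ → ℕ → Bool := onCell 0 536870912 0 536870912 1033476505 6710887
    (rowB 3 eng mog cd0q0 cd1q2a pd1 0 false true true .pnp 0 1 2 (qsf 0 536870912 0 536870912 1) ndB0q0 ndB1q2a pcB1 cut_pp_012_a xt_pp_012_a)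

def k0_pp_012_a : ∃ t, chk3 f_pp_012_a t 2 2 1 = true :=
  ⟨(a (a (l 2) (a (l 2) (b (l 2) (a (l 2) (b (l 2) (b (l 2) (a (l 2) (b (l 16546296) (b (l 16550272) (l 16559400)))))))))) (a (a (b (a (l 2) (b (l 16364936) (l 16372088))) (b (a (b (l 16460024) (l 16470192)) (b (l 16384824) (l 16397000))) (a (b (a (l 16500416) (l 16463328)) (b (a (l 16508864) (l 16478376)) (a (l 16528024) (l 16502104)))) (b (b (l 16407320) (a (l 16431768) (l 16405144))) (a (l 16465936) (l 16441440)))))) (b (b (l 16267808) (a (l 16305088) (l 16252544))) (b (a (b (l 16319960) (l 16334208)) (b (l 16269888) (a (l 16296824) (l 16280848)))) (a (b (a (l 16373680) (l 16351864)) (a (l 16374488) (b (l 16382096) (l 16403160)))) (b (a (l 16333096) (l 16318168)) (a (b (l 16362704) (l 16386048)) (l 16368528))))))) (a (b (b (l 16196576) (a (l 16218720) (l 16207712))) (b (a (b (l 16238080) (a (l 16270880) (l 16267904))) (b (l 16235488) (a (l 16272408) (l 16287000)))) (a (b (a (l 16313768) (l 16317264)) (a (b (l 16354904)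 (l 16387256)) (b (l 16363760) (l 16399376)))) (b (a (l 16329408) (l 16370504)) (a (b (l 16380328) (l 16418832)) (b (l 16404352) (a (l 16437896) (l 16452512)))))))) (b (b (l 16222512) (a (l 16223728) (b (l 16260752) (l 16286440)))) (b (a (b (l 16267896) (a (l 16310088) (l 16341680))) (b (l 16338352) (a (l 16381376) (l 16428520)))) (a (b (a (b (l 16359232) (l 16395848)) (b (l 16393768) (l 16431816))) (a (b (l 16435208) (b (l 16466256) (l 16487648))) (b (l 16471968) (b (l 16503040) (l 16524104))))) (b (a (b (l 16435272) (l 16473760)) (b (l 16482776) (l 16520512))) (a (b (l 16513488) (a (l 16543392) (l 16563920))) (b (l 16516440) (a (l 16584768) (l 16605688))))))))))), by decide +kernel⟩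

def k1_pp_012_a : ∃ t, chk3 f_pp_012_a t 4 6 1 = true :=
  ⟨(a (l 2) (a (b (l 2) (a (b (l 2) (a (l 2) (b (l 16597904) (a (l 16613056) (l 16606688))))) (b (a (b (l 2) (a (l 2) (l 16571304))) (b (a (l 2) (l 16566224)) (a (l 16569488) (l 16572600)))) (a (b (a (l 16586768) (l 16580328)) (a (l 16598320) (l 16591536))) (b (a (l 16578232) (l 16581152)) (a (l 16589304) (l 16592352))))))) (b (a (b (a (l 2) (b (l 2) (l 16607856))) (a (b (l 2) (a (l 16571344) (l 16585392))) (b (l 16586768) (l 16609776)))) (b (a (b (b (l 16555200) (l 16609136)) (l 16608912)) (b (l 16578576) (l 16605720))) (a (b (l 16622704) (l 16645888)) (l 16582104)))) (a (b (a (b (a (l 16575416) (l 16589456)) (a (l 16581656) (l 16595648))) (b (l 16613848) (l 16620184))) (a (b (a (l 16590192) (l 16604336)) (a (l 16601832) (l 16616992))) (b (l 16608960) (b (l 16640616) (l 16629416))))) (b (a (b (l 16650296) (l 16636976)) (b (l 16679896) (l 16677240))) (a (b (l 16628888) (a (b (l 16673568) (l 16666456)) (b (l 16679176) (l 16704136))))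 (b (b (l 141180007149174847) (a (l 16714448) (l 16676616))) (b (a (l 16699944) (a (l 16704640) (l 16696000))) (a (a (l 16727048) (l 16697152)) (b (a (l 16708880) (l 16703232)) (a (l 16714072) (l 16709880)))))))))))), by decide +kernel⟩

def k2_pp_012_a : ∃ t, chk3 f_pp_012_a t 8 14 1 = true :=
  ⟨(a (l 2) (b (a (l 2) (a (l 2) (b (l 2) (b (l 16650416) (l 16660576))))) (b (a (l 2) (a (b (l 16669304) (a (l 16680224) (l 16682152))) (b (l 16671176) (l 16682312)))) (a (a (b (l 2) (a (l 2) (l 16696328))) (b (a (l 16686216) (l 16690240)) (a (b (l 16697056) (l 16704376)) (l 16704000)))) (a (b (a (l 16692984) (l 16694392)) (a (l 16706192) (b (l 16703960) (l 16710624)))) (b (a (l 16694536) (l 16693536)) (a (b (l 16704056) (l 16710808)) (b (l 16703264) (l 16710240))))))))), by decide +kernel⟩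

def k3_pp_012_a : ∃ t, chk3 f_pp_012_a t 16 15 1 = true :=
  ⟨(b (a (l 2) (b (a (l 2) (b (l 2) (a (l 2) (b (l 2) (l 16713112))))) (a (l 6) (a (l 6) (a (l 6) (b (b (l 16733568) (l 16742368)) (b (l 16750120) (l 16749376)))))))) (a (l 6) (a (l 6) (a (l 6) (a (l 6) (a (l 6) (b (b (b (b (l 16758232) (l 16760416)) (b (b (l 16762080) (a (l 6) (l 16762464))) (l 3))) (l 3)) (l 3)))))))), by decide +kernel⟩

def k4_pp_012_a : ∃ t, chk3 f_pp_012_a t 34 30 1 = true :=
  ⟨(b (a (b (a (b (l 2) (l 16711400)) (b (l 16707976) (l 16715824))) (a (b (l 16719736) (l 16728112)) (b (l 16723728) (l 16731728)))) (b (a (b (l 16711760) (l 16719240)) (b (l 16714576) (l 16721824))) (a (b (l 16726848) (l 16734616)) (b (l 16729280) (a (l 16736424) (l 16737520)))))) (a (b (a (b (l 16736544) (l 16737208)) (b (l 16729368) (a (l 16747424) (l 16748864)))) (b (a (a (l 16741328) (l 16748144)) (b (a (l 16753640) (l 16755072)) (a (l 16756096) (l 16757536)))) (a (a (b (l 16755144) (l 16757256)) (b (l 16756680) (l 16758776)))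 (b (a (l 16758160) (a (l 16759264) (l 16760000))) (a (a (l 16759904) (l 16760648)) (b (a (l 16760864) (l 16761464)) (a (l 28085028903) (l 3)))))))) (b (b (a (a (l 16741952) (l 16743232)) (a (l 16744440) (l 16745616))) (a (a (l 16750224) (l 16741048)) (a (b (l 16750688) (l 16755000)) (b (l 16751968) (b (l 16755256) (l 45264884407)))))) (a (b (b (a (l 16756464) (l 16757848)) (a (l 16758968) (b (l 16759864) (a (l 16760552) (l 182166978951))))) (b (a (b (l 16760520) (a (l 16761176) (l 192367527335))) (a (l 191830656359) (l 3))) (a (l 197736237655) (l 3)))) (b (b (a (b (l 16758312) (a (l 16759840) (b (l 16760184) (l 16759280)))) (b (a (l 27548149415) (l 199346845159)) (l 3))) (a (b (a (l 176798269447) (l 3)) (l 3)) (l 3))) (l 3)))))), by decide +kernel⟩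

def k5_pp_012_a : ∃ t, chk3 f_pp_012_a t 35 30 1 = true :=
  ⟨(b (a (b (a (b (l 16716496) (l 16723672)) (b (l 16717568) (l 16724848))) (a (b (l 16731152) (a (l 16738528) (l 16739456))) (b (a (l 16732232) (l 16732840)) (a (b (l 16738248) (l 16742440)) (b (l 16739024) (l 16743360)))))) (b (a (b (l 16717928) (a (l 16725384) (l 16725624))) (b (a (l 16717848) (l 16717704)) (a (l 16725840) (b (l 16723904) (l 16728304))))) (a (b (a (l 16736008) (b (l 16731792) (l 16736128))) (b (a (l 16739816) (b (l 16739512) (a (l 16741576) (l 168745167095)))) (a (b (l 16743144) (a (l 16745144) (l 177335108775))) (b (a (l 173040137975) (l 3)) (l 3))))) (b (b (a (l 16732304) (a (l 16732768) (l 16733048))) (a (a (l 16736688) (l 22716272119)) (b (a (l 16736192) (l 185388154871)) (l 3)))) (b (a (a (b (l 16737368) (l 3)) (l 3)) (l 3)) (l 3)))))) (b (a (b (a (a (b (l 16744648) (l 16748888)) (b (l 16745712) (l 16750064))) (b (a (l 16746768) (b (l 16746640) (a (l 16748568) (l 185925050807)))) (a (b (a (l 16749824)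 (l 16750224)) (a (l 167134575767) (l 3))) (l 3)))) (a (b (a (l 16753232) (b (a (l 16753072) (l 174113900823)) (l 183240708903))) (a (b (a (l 16756200) (l 188609420951)) (l 193441262327)) (l 3))) (l 3))) (b (a (b (a (l 183777565671) (l 3)) (l 3)) (l 3)) (l 3))) (l 3))), by decide +kernel⟩

def k6_pp_012_a : ∃ t, chk3 f_pp_012_a t 17 31 1 = true :=
  ⟨(a (b (b (a (b (a (b (a (a (l 16759008) (l 16759776)) (a (l 16760544) (b (l 16760760) (l 16761808)))) (a (a (b (l 16760640) (l 16761744)) (b (l 16761408) (b (l 16762216) (l 16761328)))) (b (a (l 16762104) (b (l 16757184) (l 3))) (a (b (l 8757676711) (l 3)) (l 3))))) (b (a (b (a (l 16761504) (b (l 16761888) (l 193978140375))) (a (b (l 16756920) (l 201494333463)) (l 3))) (l 3)) (l 3))) (a (b (a (b (a (a (l 16762600) (l 16761536)) (b (l 197199367335) (l 3))) (l 3)) (l 3)) (l 3)) (l 3))) (l 3)) (l 3)) (l 3)) (l 3)), by decide +kernel⟩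

def k7_pp_012_a : ∃ t, chk3 f_pp_012_a t 18 28 1 = true :=
  ⟨(a (b (a (b (l 16630112) (l 16638456)) (b (l 16620696) (l 16628440))) (a (b (l 16647288) (l 16656664)) (b (l 16636864) (l 16646184)))) (a (b (a (l 16612208) (l 16605464)) (a (b (l 16624736) (l 16634680)) (b (l 16618592) (l 16629504)))) (b (a (b (l 16599624) (l 16607936)) (b (l 16603232) (l 16612432))) (b (a (l 16617968) (l 141928293493801023)) (a (b (l 16626936) (l 16633888)) (a (l 16635608) (b (l 16637440) (l 16646008)))))))), by decide +kernel⟩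

def k8_pp_012_a : ∃ t, chk3 f_pp_012_a t 36 29 1 = true :=
  ⟨(b (a (b (l 16666744) (l 16656832)) (b (a (l 16659680) (l 16653448)) (a (l 16671464) (l 16666376)))) (a (b (a (l 16691544) (b (l 16685320) (l 16692248))) (a (b (l 16701736) (a (l 16709528) (l 16708968))) (b (a (l 16700328) (l 16699344)) (a (l 16708464) (b (l 16705776) (l 16710384)))))) (b (a (b (l 16681704) (a (l 16690096) (l 16688704))) (b (l 16677872) (a (l 16687392) (b (l 16683792) (l 16688712))))) (a (b (a (b (l 16696264) (l 16700680)) (b (l 16695320) (l 16700072))) (a (b (l 16705352) (a (l 16710304) (l 16710328))) (b (c (a (l 16706040) (l 16705992)) (l 16698968)) (a (b (l 16709064) (l 16810636791)) (b (l 22716211319) (b (l 16705776) (l 3))))))) (b (a (b (b (l 16693288) (l 16685296)) (c (a (l 16700696) (l 16695328)) (l 16693448))) (b (b (l 16687360) (a (l 16695400) (l 16692600))) (a (c (b (l 16699120) (l 40969805271)) (l 16693288)) (b (c (l 46338508071) (l 16697056)) (c (a (l 16698584) (l 16696496)) (l 16689320))))))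 (b (a (a (c (b (l 16704648) (l 16704736)) (l 16698912)) (b (c (l 16702040) (l 16702784)) (c (l 16704616) (l 16700160)))) (a (b (a (l 16701880) (l 16700928)) (l 3)) (l 3))) (a (b (a (b (l 16705792) (l 3)) (l 3)) (l 3)) (l 3)))))))), by decide +kernel⟩

def k9_pp_012_a : ∃ t, chk3 f_pp_012_a t 74 58 1 = true :=
  ⟨(a (b (l 16646560) (a (l 16662256) (b (l 16656000) (l 16664528)))) (b (b (l 16639248) (l 16646792)) (b (a (l 16655112) (l 16655928)) (a (l 16664352) (a (l 16665392) (l 16666680)))))), by decide +kernel⟩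

def k10_pp_012_a : ∃ t, chk3 f_pp_012_a t 75 116 1 = true :=
  ⟨(a (b (a (l 16640440) (l 16643504)) (a (l 16648960) (l 16652768))) (b (a (l 16648552) (l 16655736)) (a (b (l 16656008) (l 16661392)) (b (l 16663880) (a (l 16667448) (l 16672264)))))), by decide +kernel⟩

def k11_pp_012_a : ∃ t, chk3 f_pp_012_a t 150 117 1 = true :=
  ⟨(b (a (a (l 16657752) (l 16659576)) (b (l 16660528) (a (l 16664696) (l 16667688)))) (a (b (l 16666672) (a (l 16671352) (l 16673776))) (b (a (l 16670536) (b (l 16672224) (l 16664888))) (a (b (l 16664672) (c (l 16677040) (l 16674448))) (b (a (l 16677704) (c (l 16680888) (l 16673048))) (a (b (l 16674952) (c (l 16683136) (l 16680592))) (b (a (l 16681608) (l 16682584)) (c (a (l 16684552) (b (l 16685088) (l 16685904))) (a (l 16682024) (b (l 16682560) (c (l 16684016) (l 16682760)))))))))))), by decide +kernel⟩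

def k12_pp_012_a : ∃ t, chk3 f_pp_012_a t 151 234 1 = true :=
  ⟨(a (b (a (l 16665264) (l 16669128)) (a (l 16671248) (b (l 16663336) (l 16677008)))) (b (a (l 16674928) (b (l 16676912) (l 16680056))) (a (b (l 16678344) (a (l 16680392) (l 16677424))) (b (c (l 16679168) (l 16676552)) (a (l 16683632) (c (l 16686288) (l 16683984))))))), by decide +kernel⟩

def k13_pp_012_a : ∃ t, chk3 f_pp_012_a t 302 470 1 = true :=
  ⟨(a (b (a (l 16674992) (l 16677032)) (a (l 16673016) (c (l 16681600) (l 16673752)))) (b (a (l 16673912) (l 16678728)) (a (c (l 16681072) (l 16678816)) (b (l 16681584) (a (c (l 16686032) (l 16683480)) (c (l 16687056) (l 16684528))))))), by decide +kernel⟩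

def k14_pp_012_a : ∃ t, chk3 f_pp_012_a t 604 942 1 = true :=
  ⟨(a (b (l 16675488) (c (l 16683672) (l 16681112))) (b (c (l 16684048) (l 16681480)) (a (c (l 16685152) (l 16682608)) (b (l 16683168) (c (l 16686528) (l 16684008)))))), by decide +kernel⟩

def k15_pp_012_a : ∃ t, chk3 f_pp_012_a t 1208 943 1 = true :=
  ⟨(b (c (a (l 16684816) (b (l 16685376) (l 16686184))) (a (l 16682280) (b (l 16682848) (l 16683664)))) (b (a (c (l 16686032) (c (l 16684152) (l 16682888))) (c (a (l 16686744) (b (l 16687016) (a (c (l 77477004327) (l 75866389095)) (b (a (l 16687376) (l 90361903799)) (l 132237835335))))) (a (c (l 16684864) (l 16683608)) (b (l 16684512) (a (b (l 16684696) (c (l 83382579399) (l 81771964199))) (c (b (l 79624483095) (l 127942865447)) (b (l 77476997063) (l 125258508711)))))))) (a (c (a (c (l 16687224) (l 16685984)) (b (l 16686872) (c (b (l 86066938743) (l 122037290199)) (b (a (l 16686432) (l 96804354471)) (a (l 101099321623) (l 146733349543)))))) (a (c (l 16684728) (l 16683472))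 (b (l 16684368) (a (b (l 16684560) (a (l 87140673399) (l 112910477479))) (a (b (l 81771964439) (l 144048990695)) (c (l 126332252423) (l 119352928055))))))) (a (a (c (b (c (l 82308842375) (b (l 16686504) (l 93046258087))) (l 146733350039)) (b (b (l 16684624) (c (l 91435642935) (c (l 89288158023) (l 88751285815)))) (l 141901507671))) (b (b (c (c (l 90361906167) (l 88751291031)) (a (l 16684152) (a (l 88751286775) (l 103783672487)))) (c (l 140827769767) (l 135995927383))) (l 3))) (a (a (c (l 144048994695) (c (l 139754026135) (l 137606540135))) (l 3)) (l 3)))))), by decide +kernel⟩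

def k16_pp_012_a : ∃ t, chk3 f_pp_012_a t 1209 943 1 = true :=
  ⟨(b (a (b (c (l 16686344) (l 16683824)) (c (a (l 16686904) (a (c (l 16687880) (l 16686640)) (b (l 16687304) (b (l 16687600) (a (a (l 91972516967) (l 107004902599)) (l 130627222887)))))) (a (c (l 16685024) (l 16683760)) (b (l 16684680) (a (c (l 16685584) (l 16684328)) (b (l 62981483735) (a (b (l 16684856) (l 118816059111)) (b (l 114521091847) (l 3))))))))) (a (b (c (l 16687072) (l 16684560)) (b (c (a (l 16687544) (b (l 16687688) (c (l 106468034471) (a (l 87140679047) (l 112910482887))))) (a (l 16685040) (b (l 16685184) (a (c (l 86066934727) (l 83382578279)) (c (l 111836738567) (l 111299866039)))))) (a (b (b (c (a (l 16687728) (l 112910482807)) (c (l 93046256519) (l 89825029111))) (c (l 127405997495) (c (l 122037285943) (l 119352929559)))) (l 3)) (l 3)))) (b (c (a (l 16686784) (b (l 16687488) (b (l 16687776) (a (l 79087615495) (b (l 83919453847) (l 130627223351)))))) (b (l 16684856) (a (l 16685128) (a (c (l 68350194791)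 (l 66202709111)) (b (l 16685336) (b (a (l 16685456) (l 85530063287)) (l 124184769063))))))) (b (a (b (c (c (l 97878099975) (a (l 81771970023) (l 107541774023))) (a (c (l 80698225703) (l 78013869367)) (b (a (l 16685408) (l 95730610519)) (l 132237832647)))) (c (l 145659609079) (l 139754025623))) (c (l 144048996759) (c (l 139754026839) (l 135995928887)))) (l 3))))) (b (a (a (a (c (b (c (l 16687992) (l 70497680135)) (c (l 134385321847) (l 132774706631))) (b (c (l 68887064903) (b (l 16684144) (l 73718900887))) (b (c (l 123647898231) (l 120963541575)) (l 3)))) (b (b (c (l 75329518471) (c (l 16685640) (l 16684224))) (a (c (l 110226127847) (b (l 88214416519) (l 135459057111))) (c (l 141901511863) (l 135995928151)))) (l 3))) (a (b (b (c (c (l 118816065175) (l 117205449959)) (a (c (l 101636190919) (l 99488705207)) (l 130090348295))) (l 3)) (l 3)) (l 3))) (l 3)) (l 3))), by decide +kernel⟩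

def k17_pp_012_a : ∃ t, chk3 f_pp_012_a t 1210 942 1 = true :=
  ⟨(a (c (b (l 16685552) (b (l 16686736) (b (l 16687320) (a (l 16687464) (a (l 16687824) (a (l 16688008) (c (l 74792651351) (l 73182036055)))))))) (b (l 16683008) (b (l 16684208) (a (l 16684752) (a (l 16685128) (b (l 16685176) (a (l 16685504) (b (l 16685536) (c (l 80161355511) (l 77476999543)))))))))) (b (b (l 16684904) (c (l 16686952) (l 16684424))) (b (a (c (l 16687472) (l 16684960)) (c (c (l 16688592) (l 16687344)) (c (b (l 16685896) (l 16686288)) (l 16684832)))) (b (a (c (c (l 16688672) (l 64592101671)) (a (l 16685424) (c (l 16686304) (l 16685040)))) (a (b (c (l 16687672) (c (l 16686456) (l 16685192))) (a (b (c (l 16688408) (l 68887066263)) (c (l 119889805975) (c (l 114521094743) (l 110762996919)))) (c (c (l 125795388679) (l 124184773303)) (c (l 121500416743) (l 118279189895))))) (b (a (c (c (l 93046262951) (l 91435647719)) (b (l 16685960) (c (l 105931160263) (l 102709933431)))) (c (c (l 120963550423) (l 118279193543))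 (c (l 115594836903) (c (l 113447352263) (l 112373609687))))) (l 3)))) (a (b (a (c (c (l 16688840) (l 16687272)) (c (l 71034550071) (l 68350194071))) (a (b (c (l 82845712599) (a (l 16685824) (l 82845709911))) (c (l 128479740455) (c (l 122574158231) (l 118816060407)))) (c (c (l 131700968439) (l 129553482311)) (c (l 126869125735) (l 123647898823))))) (a (a (b (c (l 90898776167) (c (l 16686104) (l 16685336))) (c (l 136532803863) (l 129016608311))) (c (l 138143416887) (c (l 132774705575) (l 129016607751)))) (l 3))) (l 3)))))), by decide +kernel⟩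

def k18_pp_012_a : ∃ t, chk3 f_pp_012_a t 2422 942 1 = true :=
  ⟨(b (b (c (l 16687184) (l 16684656)) (a (c (l 16687704) (l 16685184)) (c (c (l 16688824) (l 16687576)) (c (l 16686320) (l 16685064))))) (a (b (a (c (b (l 16688152) (b (l 16688440) (a (c (l 88214424695) (l 86603809463)) (c (l 113447357783) (l 113447355287))))) (b (l 16685640) (b (l 16685936) (a (c (l 84456323895) (l 81771967879)) (b (c (l 93046258679) (l 89288160887)) (l 134922189415)))))) (b (c (l 16688400) (l 16685896)) (b (a (c (c (l 16689240) (l 81235100631)) (c (l 79087614919) (l 74792646231))) (b (c (c (l 16689320) (l 16688072)) (c (l 16686824) (l 16685568))) (c (l 133311579671) (l 126869125943)))) (c (l 142438385287) (c (l 137069674055) (l 134922189047)))))) (a (a (b (c (l 146733352503) (l 140290898775)) (l 3)) (l 3)) (l 3))) (b (a (b (a (c (c (l 16689208) (l 69960811559)) (c (l 67813325655) (l 16685784))) (b (c (l 16688616) (l 16686112)) (b (c (l 81235101159) (c (l 16686880) (l 16685624))) (c (l 125258516183)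 (c (l 119889804919) (l 117742319879)))))) (c (c (l 140290904295) (l 138680288983)) (c (l 135995932631) (l 133848447655)))) (b (b (a (c (l 72645166535) (c (l 16686864) (l 16685608))) (b (c (l 16688816) (l 16686312)) (c (a (l 106468034423) (l 132774709223)) (c (l 111836741447) (l 109689256311))))) (c (c (l 133311582247) (l 131164096119)) (c (l 129016610775) (l 126869125783)))) (l 3))) (l 3)))), by decide +kernel⟩

def k19_pp_012_a : ∃ t, chk3 f_pp_012_a t 2423 942 1 = true :=
  ⟨(a (b (b (c (l 16687944) (l 16685432)) (b (c (l 16688512) (l 16686008)) (a (a (c (l 16688704) (l 16686528)) (b (c (l 16688736) (l 16686232)) (c (c (l 92509392855) (l 90898777639)) (c (l 88751292295) (l 86066936391))))) (a (b (c (l 16688864) (l 16686360)) (c (c (l 118816067607) (l 116668581559)) (c (l 114521096391) (l 111836740471)))) (b (c (c (l 87677554615) (l 86066939559)) (c (l 83382583399) (l 76940130999))) (c (l 143512128135) (l 138680287143))))))) (a (a (b (b (b (c (c (l 124184776599) (l 122037290551))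 (c (l 119352934439) (l 117205449383))) (l 3)) (l 3)) (l 3)) (l 3)) (l 3))) (b (b (c (c (l 16689080) (l 16687824)) (c (l 16686568) (l 16685312))) (b (b (c (c (l 70497685799) (l 67813328759)) (c (l 64055230439) (l 59223390855))) (a (c (c (l 78013878359) (l 75866392231)) (c (l 71571423335) (l 66739583751))) (a (c (b (l 87677553335) (l 130090355623)) (b (a (l 16686592) (l 89288163415)) (l 125258514631))) (c (l 132774710407) (c (l 129016611911) (l 126869126823)))))) (a (b (a (c (c (l 113447358791) (l 111299872647)) (b (a (l 16686528) (l 100025581367)) (l 133848448919))) (c (l 138143419303) (l 133311578311))) (l 3)) (l 3)))) (l 3))), by decide +kernel⟩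

def k20_pp_012_a : ∃ t, chk3 f_pp_012_a t 605 943 1 = true :=
  ⟨(a (b (a (b (b (b (a (c (l 16687752) (l 16685248)) (c (c (a (l 81771973095) (l 124184775511)) (a (c (l 80161359143) (l 79087616039)) (c (l 121500419783) (l 120426676663)))) (b (a (l 16685568) (a (c (l 94656870183) (l 92509385175)) (l 133311575543))) (a (c (l 86603806327) (l 83919450327)) (l 139217155623))))) (a (a (c (l 16687824) (l 16685320)) (a (c (l 16688008) (l 16685504)) (b (c (l 16688080) (l 16685584)) (c (l 114521096039) (a (l 94656869207) (l 122037285911)))))) (a (a (b (c (l 110762999703) (a (l 89288160215) (l 116131705927))) (l 3)) (l 3)) (l 3)))) (a (a (a (b (c (l 74255777383) (a (l 16685432) (l 71034548599))) (c (l 134385319863) (c (l 129553479143) (l 125795381319)))) (b (b (c (l 16688032) (l 70497677783)) (c (l 122574159783) (a (l 105394287271) (l 132774703975)))) (l 3))) (a (c (c (l 135995935399) (l 133848449271)) (c (l 132237834119) (l 128479736263))) (l 3))) (l 3))) (l 3)) (l 3)) (l 3)) (l 3)), by decide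 +kernel⟩

def k21_pp_012_a : ∃ t, chk3 f_pp_012_a t 606 940 1 = true :=
  ⟨(a (c (l 16682192) (l 16679608)) (b (l 16682336) (a (l 16685920) (a (l 16686736) (l 16687272))))), by decide +kernel⟩

def k22_pp_012_a : ∃ t, chk3 f_pp_012_a t 606 1882 1 = true :=
  ⟨(a (a (l 16682680) (c (l 16687632) (l 16685096))) (b (a (l 16687048) (c (l 16689368) (l 16686848))) (a (c (l 16689048) (l 16686536)) (a (c (l 16689832) (l 16687328)) (b (c (l 16690176) (l 16687672)) (a (c (a (l 69960817783) (c (l 92509397095) (l 89825041111))) (c (l 73718911703) (l 70497683719))) (b (c (a (l 16690512) (l 104320557079)) (l 78013879063)) (c (l 137069682951) (l 133311583223))))))))), by decide +kernel⟩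

def k23_pp_012_a : ∃ t, chk3 f_pp_012_a t 606 1883 1 = true :=
  ⟨(a (a (a (c (l 16687832) (l 16685304)) (b (l 16686712) (c (l 16688720) (l 16686208)))) (b (c (c (l 16689376) (l 16688120)) (c (l 16686864) (l 16685600))) (c (b (a (l 16689048) (a (l 16689432) (c (l 75866396455) (l 71571427319)))) (b (a (l 16689328) (c (a (l 87677556295) (l 127942875207)) (a (l 83382587335) (l 125795390103)))) (a (a (l 16689384) (a (l 16689248) (b (l 16689656) (l 120426681079)))) (c (l 136532809943) (l 134385324759))))) (b (a (l 16686536) (a (l 16686928) (c (l 66739587671) (l 62444618599)))) (b (a (l 16686824) (c (a (l 78550747703) (l 123647905095)) (a (l 74792649287) (l 122037290023)))) (a (a (l 16686880) (a (l 16687728) (b (l 16687152) (l 115594840087)))) (c (l 132237839671) (l 130627224999)))))))) (a (a (b (a (c (l 16689392) (l 16686888)) (c (c (l 66202720247) (l 62444621831)) (c (l 16687776) (l 16686520)))) (b (a (c (c (b (l 16690472) (l 124184779175)) (b (l 16689232) (l 122037294023))) (c (b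 (l 16687976) (l 119352938039)) (b (l 16686720) (l 118279193783)))) (b (c (c (l 119889812119) (l 117742327047)) (c (l 115594841975) (l 114521097559))) (l 3))) (l 3))) (b (b (c (c (l 16690480) (l 16689232)) (l 16688664)) (a (b (c (l 16690000) (l 16687504)) (c (c (l 116131716055) (l 113447360071)) (a (l 100562455959) (l 126332259975)))) (b (c (c (l 111836749079) (l 109689264007)) (c (l 107541778519) (l 106468034183))) (l 3)))) (l 3))) (b (b (a (a (b (c (l 16690152) (l 16687656)) (c (c (l 108078652983) (l 105931167783)) (c (l 103783682295) (l 102709937959)))) (b (c (a (l 89825041431) (l 115057974647)) (a (l 84456329479) (l 110226133511))) (l 3))) (c (l 142975263175) (l 139217163943))) (l 3)) (l 3)))), by decide +kernel⟩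

def k24_pp_012_a : ∃ t, chk3 f_pp_012_a t 607 470 1 = true :=
  ⟨(a (b (b (c (l 16688440) (l 16685896)) (a (c (l 16689344) (l 16686824)) (a (c (l 16690152) (l 16687640)) (a (c (l 16691536) (l 16688048)) (b (l 16689216) (b (l 16691064) (c (c (l 91972529575) (l 90361914359)) (l 87140686455)))))))) (b (a (b (c (a (l 16690160) (b (l 16690512) (a (l 67813335591) (b (l 16690904) (l 121500427783))))) (a (l 16687656) (a (l 51707204839) (b (l 16688144) (a (l 89288169095) (l 104320554887)))))) (b (c (a (a (c (l 76940141095) (l 71571430551)) (b (l 79087624663) (l 129016619863))) (c (l 135995943399) (l 134385328935))) (a (a (a (l 16688000) (l 79624492087)) (b (l 69423944983) (l 125795390887))) (c (l 133311584615) (l 132237840295)))) (a (a (c (l 137069683431) (l 133311583783)) (l 3)) (l 3)))) (b (a (a (c (b (l 16690904) (c (l 127942879943) (l 126332265223))) (b (l 16688408) (l 123647908071))) (b (b (c (l 16691080) (l 16688584)) (c (l 112910494039) (l 110226135143))) (l 3))) (a (b (b (c (l 109152397991)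 (l 105931168023)) (l 3)) (l 3)) (l 3))) (l 3))) (l 3))) (b (b (c (a (l 16690080) (a (l 16690904) (l 49022857239))) (a (l 16687560) (b (l 16688320) (l 16689024)))) (a (a (b (c (l 16690872) (l 16688368)) (c (a (b (l 16691264) (a (l 110763011527) (l 125795397383))) (b (l 73718918679) (l 141364654167))) (b (l 59760270375) (c (l 122037296551) (l 120963552231))))) (b (c (b (l 16691232) (l 63518371623)) (l 49559723399)) (a (b (c (a (l 104320561047) (l 119889817735)) (l 108078652887)) (l 3)) (c (l 139754042407) (l 137606553783))))) (b (a (c (b (l 16693080) (c (b (l 95730627383) (l 134922204167)) (l 115594847719))) (b (l 16689280) (c (l 114521104727) (l 112910489495)))) (a (b (c (l 100562465719) (l 98414977255)) (l 3)) (c (l 133848463159) (l 132237845463)))) (l 3)))) (l 3))), by decide +kernel⟩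

def k25_pp_012_a : ∃ t, chk3 f_pp_012_a t 303 471 1 = true :=
  ⟨(a (b (a (b (b (a (a (a (c (c (l 16689456) (l 16688208)) (c (l 16686952) (l 16685696))) (b (c (l 16688896) (l 16686392)) (b (c (l 16689176) (l 16686680)) (a (c (c (l 97341231815) (l 95730616935)) (c (l 93046260855) (l 90361904919))) (c (c (l 123111035655) (l 120963550103)) (c (l 118816065015) (l 116668579847))))))) (b (a (c (l 16689152) (l 16686648)) (a (c (c (l 78013879159) (l 73718909703)) (c (l 68887070055) (l 64055230407))) (b (c (l 16689376) (l 16686872)) (c (b (l 92509392887) (l 136532807863)) (b (l 82845713687) (l 132237837831)))))) (b (a (a (c (c (l 92509393751) (l 90361907943)) (c (l 87677551991) (l 84993195943))) (c (c (l 117742326839) (l 115594841207)) (c (l 113447356119) (l 111299870775)))) (c (l 142975258951) (l 138680288791))) (l 3)))) (a (a (b (b (a (c (l 79087620071) (l 69423940855)) (c (c (l 107541779799) (l 105394294407)) (c (l 102709938407) (l 100562452983)))) (c (l 138680291975) (l 134385321815)))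 (l 3)) (c (c (l 141901519399) (l 140290904839)) (c (l 138143419767) (l 135995934519)))) (l 3))) (a (a (b (a (a (b (c (c (l 102709940647) (l 101099325703)) (c (l 98414969751) (l 95730613751))) (l 3)) (c (c (l 134922195895) (l 133848451911)) (c (l 131164095927) (l 129016610919)))) (l 3)) (l 3)) (l 3)) (l 3))) (l 3)) (l 3)) (l 3)) (l 3)), by decide +kernel⟩

def k26_pp_012_a : ∃ t, chk3 f_pp_012_a t 74 59 1 = true :=
  ⟨(b (a (b (a (l 16675184) (l 16674152)) (a (b (l 16682592) (a (l 16688112) (l 16682568))) (b (l 16671704) (b (l 16683888) (a (l 16689296) (c (l 30769235063) (l 16688624))))))) (b (a (a (l 16674480) (l 16677728)) (b (a (l 16673616) (l 16664776)) (a (l 16676928) (b (l 16674632) (a (l 16682528) (b (l 16682832) (l 86603797559))))))) (a (b (a (l 16683048) (b (l 16682656) (l 81771964247))) (a (b (l 87140676727) (l 122574162183)) (l 173576896919))) (b (a (b (a (l 16683808) (l 82308832423)) (a (l 114521091239) (l 172503155639))) (b (a (b (l 91435636743) (l 163913217175)) (l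 159081370391)) (l 3))) (l 3))))) (a (b (a (b (b (a (l 16692256) (a (l 16692136) (l 16697368))) (c (b (a (l 16695440) (a (l 16695408) (b (l 16695064) (l 16695752)))) (a (l 16696888) (a (a (l 16696872) (l 16696816)) (l 16696696)))) (a (l 16694080) (l 15199985879)))) (b (a (c (a (l 20031833287) (l 16695624)) (l 16691648)) (a (l 3925704887) (l 3))) (l 3))) (b (a (a (c (b (b (l 16692560) (l 25937414151)) (l 16692032)) (l 47412239591)) (b (c (l 73718912567) (l 16691208)) (l 3))) (b (l 61370882071) (l 3))) (l 3))) (l 3)) (l 3))), by decide +kernel⟩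

def k27_pp_012_a : ∃ t, chk3 f_pp_012_a t 300 236 1 = true :=
  ⟨(b (a (b (l 16675872) (l 16676384)) (b (c (l 16674536) (l 16671968)) (a (l 16679064) (b (l 16679096) (a (l 16683000) (b (l 16683384) (c (l 69960806727) (l 66739576311)))))))) (a (b (a (l 16676360) (b (l 16682088) (b (l 16683336) (a (l 16683824) (l 94656860215))))) (a (b (c (l 87140667815) (l 82308825703)) (l 152102051031)) (b (b (a (l 98951827767) (l 155860149751)) (l 159081378951)) (l 3)))) (b (a (b (a (l 16683160) (c (l 69423936151) (b (l 16682248) (l 75329511095)))) (a (b (c (l 83382579863) (l 80161349479)) (l 149954569527)) (a (l 147270210439) (l 3)))) (b (a (b (c (l 74255774087) (l 71034543671)) (c (l 136532801319) (l 132774700023))) (b (a (b (l 91435638487) (l 152102052119)) (l 149417698215)) (l 3))) (l 3))) (l 3)))), by decide +kernel⟩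

def k28_pp_012_a : ∃ t, chk3 f_pp_012_a t 602 472 1 = true :=
  ⟨(b (a (c (l 16682104) (l 16676936)) (b (a (l 16681280) (l 16681520)) (c (a (l 16684232) (b (l 16684704) (l 16685544))) (a (l 16681712) (b (l 16682192) (l 16683048)))))) (a (b (a (c (l 16684184) (l 16681680)) (c (b (l 16684616) (l 16685464)) (b (l 16682120) (a (l 16682760) (l 16683200))))) (b (a (c (l 65665839495) (a (l 16682760) (l 65665834391))) (c (a (b (l 16685888) (l 131164091319)) (l 135459059319)) (a (b (l 16683408) (l 127405990007)) (l 131700958151)))) (a (c (a (l 100562449415) (l 141364639303)) (a (b (l 16683400) (l 136532795479)) (l 138143408903))) (l 3)))) (b (b (a (c (l 16685496) (a (l 16682784) (l 16683232))) (a (c (b (l 16685952) (l 113447351383)) (b (l 16683464) (c (l 108078639783) (l 106468024471)))) (b (c (l 96804353175) (c (l 93046254375) (l 91435639063))) (l 153175795367)))) (a (a (c (b (l 16685912) (l 122037285879)) (b (l 16683432) (l 118279184551))) (b (c (l 117742318631) (c (l 112910477863) (l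 110762991879))) (l 3))) (l 3))) (l 3)))), by decide +kernel⟩

def k29_pp_012_a : ∃ t, chk3 f_pp_012_a t 603 472 1 = true :=
  ⟨(b (a (a (b (c (l 16684352) (l 16681824)) (b (c (l 16685608) (l 16683112)) (a (a (c (l 16686104) (l 65665834999)) (b (l 16683568) (c (l 103783675143) (l 101099315623)))) (c (b (c (l 88214421191) (l 86603805975)) (l 143512123207)) (b (a (l 16683856) (a (l 88214413543) (l 103246799287))) (l 139754021863)))))) (b (c (b (l 16684864) (l 16685688)) (b (l 16682344) (l 16683184))) (a (a (b (c (l 16686176) (l 16683680)) (c (l 141901510855) (l 138143409591))) (b (b (l 16683312) (c (l 93583127975) (a (l 81771962679) (l 97341219175)))) (l 3))) (b (c (b (c (l 80161357751) (l 78550742455)) (l 134385318039)) (a (b (l 16683928) (l 125795377959)) (b (b (l 16684056) (l 110226121239)) (l 3)))) (l 3))))) (b (b (a (c (l 16685784) (c (l 16683912) (l 16682648))) (c (a (c (l 16687104) (l 62981486327)) (b (l 65665841015) (a (b (l 16686928) (l 127405996135)) (l 132237834887)))) (b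 (a (l 16683776) (c (l 16684872) (l 16683616))) (a (c (l 65128967463) (l 63518352231)) (a (b (l 72645157927) (l 123111024183)) (c (l 127942864935) (l 125795378775))))))) (b (a (c (a (l 16686168) (c (l 16687248) (l 71034549895))) (a (l 16683672) (c (l 69423934663) (a (l 16683392) (l 72108286775))))) (a (a (b (c (l 16685888) (l 80698221495)) (c (l 135995930599) (l 131700958567))) (c (l 138143414791) (l 134385313431))) (l 3))) (a (b (c (a (l 16686480) (c (l 116131709303) (l 113984223175))) (a (l 16683984) (a (l 88751284903) (l 135995925735)))) (c (a (l 85530064455) (l 146733349079)) (a (c (l 80161352759) (l 78550737511)) (l 142975247799)))) (l 3)))) (b (b (b (a (a (c (l 123111028663) (c (l 118279187879) (l 116131701655))) (l 3)) (l 3)) (l 3)) (l 3)) (l 3)))) (a (b (a (b (c (l 148343963655) (l 145122731927)) (l 3)) (l 3)) (l 3)) (l 3))), by decide +kernel⟩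

def k30_pp_012_a : ∃ t, chk3 f_pp_012_a t 301 473 1 = true :=
  ⟨(l 3), by decide +kernel⟩

def k31_pp_012_a : ∃ t, chk3 f_pp_012_a t 151 236 1 = true :=
  ⟨(a (b (a (b (a (b (a (b (a (b (a (b (c (l 16686992) (l 16684496)) (c (l 118816061671) (c (l 113984220887) (l 112373605639)))) (b (c (l 115057965351) (a (l 92509382375) (l 124184766551))) (l 3))) (l 3)) (l 3)) (l 3)) (l 3)) (l 3)) (l 3)) (l 3)) (l 3)) (l 3)) (l 3)), by decide +kernel⟩

def k32_pp_012_a : ∃ t, chk3 f_pp_012_a t 75 237 1 = true :=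
  ⟨(l 3), by decide +kernel⟩

def k33_pp_012_a : ∃ t, chk3 f_pp_012_a t 75 119 1 = true :=
  ⟨(l 3), by decide +kernel⟩

def k34_pp_012_a : ∃ t, chk3 f_pp_012_a t 38 28 1 = true :=
  ⟨(a (b (a (b (l 16613848) (l 16624336)) (b (l 16630696) (l 16643136))) (a (b (a (l 16633248) (l 16642256)) (b (a (l 16645224) (l 16655352)) (a (l 16654584) (a (l 16662544) (l 16668792))))) (b (a (l 16653208) (b (l 16660744) (l 16670552))) (b (a (l 16667840) (l 16680912)) (a (l 16657608) (l 16691664)))))) (b (a (b (l 16651424) (a (l 16660176) (l 16673384))) (b (b (l 16671632) (l 16680112)) (b (l 16688600) (l 16676744)))) (b (a (b (l 16659464) (a (l 16683784) (l 16697208))) (b (l 16686136) (a (l 16709416) (l 16720232)))) (a (b (a (l 16694176) (l 16706184)) (a (l 16703456) (b (l 16712032) (l 16715400)))) (b (a (l 16716768) (b (l 16724464) (l 16726664))) (a (b (l 16721136) (a (l 16721576) (l 16725056))) (b (l 16720320) (a (l 130627308071) (l 150491536807))))))))), by decide +kernel⟩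

def k35_pp_012_a : ∃ t, chk3 f_pp_012_a t 39 28 1 = true :=
  ⟨(b (a (b (a (l 16660984) (b (l 16726496) (l 16712200))) (a (a (l 16692520) (l 16704512)) (b (a (l 16712456) (l 16743264)) (a (l 16717232) (l 16735456))))) (b (a (b (a (l 16730520) (l 16724808)) (a (l 16735432) (l 16710144))) (b (a (l 16699568) (l 16718160)) (a (l 16707832) (c (l 16726184) (l 16717344))))) (a (a (b (l 16720608) (b (l 16726432) (l 16731024))) (b (l 16728872) (b (l 16725000) (l 16745360)))) (b (a (a (l 16717080) (l 16729480)) (c (l 16735720) (b (l 16734904) (c (l 16739440) (l 16740264))))) (c (a (l 16725456) (l 51707301495)) (a (b (l 16740392) (a (l 16750776) (l 16740000))) (c (b (l 16744584) (l 16744744)) (b (a (l 16745512) (l 16745336)) (a (l 16748144) (b (l 16749392) (l 16752280))))))))))) (a (b (a (b (a (l 16724168) (l 16712600)) (a (l 16708408) (b (l 16735944) (l 16737040)))) (b (a (a (l 16739296) (l 16721720)) (b (l 16736744) (l 16726544))) (a (b (a (l 16740760) (l 16743600)) (l 16742688)) (b (l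 16742656) (a (l 16746760) (l 16743984)))))) (a (b (a (b (l 16731848) (a (l 16731528) (l 16734384))) (b (a (l 16736408) (l 16739072)) (l 44191097383))) (b (a (a (l 16732344) (l 16734520)) (l 146733451799)) (l 3))) (b (b (a (l 42580494071) (l 79087726039)) (a (l 153712773751) (l 3))) (l 3)))) (b (a (b (a (b (l 16732056) (c (l 16754264) (l 16746984))) (a (b (l 16734664) (l 16752008)) (b (l 16744768) (l 28621886855)))) (b (a (a (l 16741504) (l 30769360071)) (c (l 16758624) (l 23790041927))) (a (l 33453708103) (l 3)))) (b (a (c (l 29158744407) (b (a (l 16750616) (c (l 16734480) (l 24326913495))) (a (l 16750328) (l 3)))) (b (c (l 16754816) (a (l 15200105783) (l 3))) (l 3))) (l 3))) (l 3)))), by decide +kernel⟩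

def k36_pp_012_a : ∃ t, chk3 f_pp_012_a t 76 116 1 = true :=
  ⟨(a (b (a (b (l 16662424) (l 16668224)) (a (l 16673912) (l 16684672))) (a (b (a (l 16671368) (l 16676912)) (a (l 16677440) (l 16682896))) (b (a (l 16682744) (l 16688600)) (a (l 16688336) (b (l 16692536) (l 16695048)))))) (b (a (b (l 16687016) (l 16692264)) (a (l 16698480) (l 16709792))) (a (b (a (l 16694400) (l 16699904)) (a (b (l 16698024) (l 28084908567)) (b (l 16703176) (a (a (l 87140721303) (l 114521129127)) (l 134385357015))))) (b (a (l 16705016) (b (l 16708808) (c (l 76403310583) (l 16709280)))) (b (a (a (l 61370914487) (l 131164137255)) (l 160692043543)) (a (l 161765780231) (l 3))))))), by decide +kernel⟩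

def k37_pp_012_a : ∃ t, chk3 f_pp_012_a t 304 234 1 = true :=
  ⟨(b (a (b (l 16682040) (l 16684984)) (b (l 16687176) (c (l 16690544) (l 16686032)))) (a (a (b (l 16686664) (b (l 16687168) (a (l 16692264) (c (l 16692008) (l 16689512))))) (a (b (l 16688448) (b (l 16690528) (b (l 16695480) (c (b (a (l 16693016) (l 70497697943)) (a (l 74792664791) (l 132237853047))) (a (l 16693312) (l 105931173783)))))) (b (l 16689632) (a (b (l 16691392) (b (c (l 16696256) (l 16691152)) (c (l 134385337735) (l 132774720055)))) (b (l 16691960) (b (c (b (l 16694024) (l 124721661223)) (l 101636207415)) (l 3))))))) (b (b (c (a (l 16692000) (l 16694376)) (l 16689704)) (a (c (l 16693328) (l 16690832)) (a (c (b (l 16694752) (l 58149671575)) (l 16692592)) (b (c (l 16695912) (l 16693448)) (c (b (l 89288185895) (l 144049019079)) (l 121500436279)))))) (b (a (b (a (l 16692496) (c (a (l 16694592) (l 94656892471)) (l 16695016))) (a (c (a (l 16694104) (b (l 16694504) (l 117205469415))) (l 59223406423)) (c (b (l 124184793079)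 (l 3)) (l 128479755847)))) (b (a (c (b (l 119352955911) (l 3)) (l 124721660503)) (l 3)) (l 3))) (a (a (a (b (c (l 130090371383) (l 127942882791)) (l 3)) (l 3)) (l 3)) (l 3)))))), by decide +kernel⟩

def k38_pp_012_a : ∃ t, chk3 f_pp_012_a t 305 234 1 = true :=
  ⟨(b (a (b (l 16692976) (b (a (l 16692992) (l 16695480)) (a (l 16699512) (a (l 16696096) (b (l 16697008) (c (l 109689285927) (l 16696344))))))) (a (b (l 16696176) (a (b (l 16697344) (b (l 65129001687) (l 147270251447))) (b (c (l 16702392) (l 16697344)) (l 145659641047)))) (a (b (l 16698096) (c (l 135995955847) (l 138680306423))) (b (b (l 16698800) (l 16705168)) (l 151028341127))))) (a (b (b (a (c (a (l 16696152) (b (l 16697032) (l 116668605223))) (a (l 16693688) (l 96267506087))) (b (a (c (l 112910510183) (l 16695728)) (l 3)) (l 3))) (a (b (a (c (l 119889829543) (l 118279211911)) (l 3)) (l 3)) (l 3))) (l 3)) (l 3))), by decide +kernel⟩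

def k39_pp_012_a : ∃ t, chk3 f_pp_012_a t 153 234 1 = true :=
  ⟨(a (b (a (b (a (c (b (l 16701912) (l 122037311127)) (l 110763023079)) (a (l 133848478295) (l 147270255511))) (l 3)) (l 3)) (l 3)) (l 3)), by decide +kernel⟩

def k40_pp_012_a : ∃ t, chk3 f_pp_012_a t 76 235 1 = true :=
  ⟨(a (a (b (a (b (b (a (a (b (c (l 16691928) (l 16689432)) (a (b (a (l 16690792) (l 16693688)) (c (a (l 95730628071) (l 121500432183)) (l 104857429175))) (b (c (c (l 105394305399) (l 104320561111)) (l 101099333207)) (l 3)))) (b (a (b (l 16693960) (c (c (l 88214436647) (l 84456337783)) (l 75866400775))) (c (b (c (l 83919469767) (l 80161370919)) (l 139217174007)) (b (l 71571433911) (l 137606556311)))) (c (l 147807105591) (l 146196487911)))) (b (a (c (b (l 138680304663) (l 3)) (l 138680300279)) (l 3)) (l 3))) (l 3)) (l 3)) (l 3)) (l 3)) (l 3)) (l 3)), by decide +kernel⟩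

def k41_pp_012_a : ∃ t, chk3 f_pp_012_a t 77 58 1 = true :=
  ⟨(b (a (b (a (b (l 16709480) (a (l 16710712) (b (l 16714280) (l 16716976)))) (a (b (l 16716248) (a (l 126332319383) (l 144049062039))) (b (l 16720128) (l 165523901431)))) (a (b (a (b (l 55465350535) (l 160155177671)) (l 164987021303)) (l 3)) (l 3))) (b (a (b (a (l 135459137623) (l 167134524967)) (l 3)) (l 3)) (l 3))) (l 3)), by decide +kernel⟩

def k42_pp_012_a : ∃ t, chk3 f_pp_012_a t 38 59 1 = true :=
  ⟨(l 3), by decide +kernel⟩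

def k43_pp_012_a : ∃ t, chk3 f_pp_012_a t 39 29 1 = true :=
  ⟨(l 3), by decide +kernel⟩

def k44_pp_012_a : ∃ t, chk3 f_pp_012_a t 9 15 1 = true :=
  ⟨(a (b (a (b (a (b (a (b (a (l 16717552) (b (l 16715264) (l 16719760))) (b (a (l 16724128) (a (l 16724392) (l 16724608))) (a (a (l 16728672) (l 16728928)) (a (b (l 16728024) (l 173040109863)) (b (l 11441961127) (l 3)))))) (b (b (a (l 16715184) (a (l 16715224) (l 16715320))) (a (a (l 16719912) (l 16720080)) (b (a (l 16719008) (l 16713848)) (a (l 16716192) (l 3))))) (b (a (a (b (l 16723624) (l 16723312)) (b (l 16718472) (l 3))) (l 3)) (l 3)))) (b (a (b (a (b (a (l 16732208) (l 176798210375)) (l 182166914951)) (l 3)) (l 3)) (l 3)) (l 3))) (b (a (b (b (a (a (b (l 16714152) (l 16714072)) (b (l 16712920) (l 177335049223))) (b (a (a (l 16714184) (l 3)) (l 3)) (l 3))) (a (a (l 181630026103) (l 3)) (l 3))) (l 3)) (l 3)) (l 3))) (l 3)) (l 3)) (l 3)) (l 3)), by decide +kernel⟩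

def k45_pp_012_a : ∃ t, chk3 f_pp_012_a t 10 12 1 = true :=
  ⟨(a (a (b (a (l 16546560) (l 16541968)) (a (l 16576064) (b (l 16577488) (l 16552328)))) (b (a (l 16515136) (b (l 16474520) (l 16493656))) (a (b (l 16543712) (a (l 16567352) (l 16550832))) (b (a (l 16517920) (l 16503136)) (a (l 16535792) (b (l 16520120) (l 16535184))))))) (a (b (a (b (l 16445912) (l 16464848)) (b (l 16423240) (a (l 16452072) (l 16449096)))) (b (a (a (l 16492488) (l 16485216)) (b (l 16474192) (l 16491560))) (a (b (l 16512888) (l 16530072)) (b (l 16510288) (a (l 16529920) (l 16532000)))))) (b (a (b (l 16414952) (l 16447176)) (b (l 16415024) (a (l 16450184) (l 16454352)))) (b (a (b (l 16474704) (l 16494560)) (b (l 16482456) (a (l 16501256) (l 16507656)))) (a (b (a (l 16513792) (l 16518016)) (a (l 16535672) (l 16540840))) (b (a (l 16523760) (l 16530928)) (a (l 16547400) (a (l 16553168) (l 16557368))))))))), by decide +kernel⟩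

def k46_pp_012_a : ∃ t, chk3 f_pp_012_a t 40 13 1 = true :=
  ⟨(b (b (a (l 140371385027428415) (a (l 16618120) (l 16577624))) (a (b (l 16613952) (a (l 16670792) (l 16649928))) (b (a (l 16626064) (l 16609304)) (a (l 16632760) (b (l 16617376) (l 16624432)))))) (b (a (a (b (l 16673856) (l 16656440)) (b (l 16654456) (b (l 16661992) (l 16652568)))) (b (a (b (l 16639632) (l 16646376)) (b (l 16631720) (l 16641216))) (a (b (a (l 16655672) (l 16653232)) (l 16662984)) (b (l 16650256) (l 16659888))))) (a (a (b (b (l 16663336) (a (l 16692328) (l 16688352))) (b (a (l 16699144) (l 16696672)) (a (l 16707440) (l 16705472)))) (b (b (a (l 16677504) (l 16675000)) (a (l 16685856) (l 16683776))) (b (a (l 16694640) (l 16693168)) (a (c (l 16703312) (l 16704816)) (c (l 16702512) (l 16703960)))))) (b (a (b (a (l 16672888) (l 16671352)) (a (l 16682264) (l 16681336))) (b (a (l 16670408) (l 16670088)) (a (l 16681048) (l 16681256)))) (a (b (a (l 16692288) (c (l 16691368) (l 16692712))) (a (a (l 16703016) (l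 16705688)) (b (l 16700472) (l 16706312)))) (b (a (b (l 16689432) (l 16695232)) (b (l 16690032) (l 16696008))) (a (b (l 16701136) (c (l 16706504) (l 16707832))) (a (b (l 16701840) (l 16708008)) (b (l 16702408) (l 16709984)))))))))), by decide +kernel⟩

def k47_pp_012_a : ∃ t, chk3 f_pp_012_a t 41 26 1 = true :=
  ⟨(b (a (a (b (l 16576392) (l 16586208)) (b (l 16563600) (l 16577000))) (b (a (l 16555368) (l 16551576)) (a (l 16572456) (l 16569784)))) (a (b (a (l 16598808) (l 16593704)) (a (l 16615224) (l 16611936))) (b (a (l 16590664) (l 16589760)) (a (l 16610752) (a (l 16611288) (l 16612072)))))), by decide +kernel⟩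

def k48_pp_012_a : ∃ t, chk3 f_pp_012_a t 41 27 1 = true :=
  ⟨(b (a (b (a (b (l 16628568) (l 16638288)) (b (l 16626824) (l 16637480))) (a (b (l 16648408) (a (l 16659176) (l 16659312))) (b (l 16648704) (a (l 16659928) (l 16660840))))) (b (a (b (l 16627168) (l 16638624)) (b (l 16629008) (a (l 16640384) (l 16641960)))) (a (b (a (l 16649936) (l 16651176)) (a (l 16662088) (l 16663648))) (b (a (l 16652744) (l 16654616)) (a (a (l 16665024) (l 16666024)) (b (l 16664360) (l 16660488))))))) (a (b (a (b (a (l 16670264) (l 16670896)) (a (l 16684544) (a (l 16682624) (l 16683184)))) (b (a (l 16671824) (a (l 16672744) (l 16673456))) (a (b (l 16681048) (a (l 16686960) (l 16687728))) (b (a (l 16682152) (l 16682984)) (a (l 16688560) (l 16689472)))))) (b (a (a (b (l 16690952) (a (l 16696808) (l 16697440))) (b (a (l 16691848) (l 16692552)) (a (l 16698152) (l 16699592)))) (a (b (a (l 16693320) (l 16694168)) (a (l 22179326455) (l 9831297479))) (a (b (l 24326799943) (l 16701776)) (b (l 13589383783)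 (l 3))))) (b (a (a (a (l 16703048) (l 16704424)) (c (l 16704440) (a (l 23253078519) (l 16706120)))) (a (a (l 16706496) (l 3)) (l 3))) (a (a (c (l 16709256) (a (l 18421250871) (l 16711944))) (a (l 16711280) (l 3))) (l 3))))) (b (a (b (a (b (l 16671472) (l 16672624)) (b (l 16662776) (a (l 16679296) (l 16680336)))) (a (b (a (l 16683888) (l 16684856)) (a (l 16690456) (l 16691504))) (b (c (l 16680672) (l 12515622839)) (a (l 16692592) (l 3))))) (b (a (b (l 16672720) (b (l 16669848) (l 16678440))) (b (l 16677664) (l 16684336))) (a (b (l 16688688) (l 3)) (l 3)))) (a (b (a (b (c (l 16697112) (l 16698240)) (l 3)) (l 3)) (l 3)) (l 3))))), by decide +kernel⟩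

def k49_pp_012_a : ∃ t, chk3 f_pp_012_a t 21 26 1 = true :=
  ⟨(a (b (a (b (a (l 16549368) (l 16549152)) (a (l 16569208) (l 16570592))) (a (b (l 16550960) (l 16573408)) (b (l 16554152) (l 16577656)))) (a (b (a (l 16590840) (a (l 16592600) (l 16594216))) (a (b (l 16607984) (l 16619904)) (b (l 16611368) (l 16623840)))) (b (a (a (l 16596168) (l 16598456)) (b (l 16596120) (l 16608840))) (a (b (l 16616032) (a (l 16627592) (l 16630432))) (b (a (l 16620312) (l 16623480)) (a (l 16633528) (l 16636848))))))) (b (a (a (b (l 16558824) (a (l 16581728) (l 16584824))) (b (l 16564856) (b (l 16583584) (l 16596416)))) (b (a (a (l 16570200) (l 16574112)) (b (l 16563552) (a (l 16584672) (l 16589120)))) (a (b (l 16591264) (a (l 16602272) (l 16606440))) (b (a (l 16597648) (l 16623120)) (a (l 16600312) (c (l 16609896) (l 16615496))))))) (a (b (a (b (l 16602288) (b (l 16591088) (l 16597680))) (b (a (l 16607616) (l 16611448)) (a (l 16620864) (l 16624784)))) (a (b (a (l 16626888) (l 16630504)) (a (l 16640360)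 (b (l 16640640) (l 16636608)))) (b (a (l 16634960) (b (l 16634872) (l 16630768))) (a (b (l 16633616) (l 3)) (l 3))))) (b (a (b (a (l 16605000) (l 16619712)) (a (l 21105442583) (b (l 16619240) (l 16630768)))) (b (a (c (l 16622872) (l 16624288)) (b (l 16619992) (l 35600953879))) (a (b (l 32916604087) (l 3)) (l 3)))) (a (b (a (b (l 16628072) (l 3)) (l 3)) (l 3)) (l 3)))))), by decide +kernel⟩

def k50_pp_012_a : ∃ t, chk3 f_pp_012_a t 21 27 1 = true :=
  ⟨(a (b (a (b (a (b (l 16632216) (a (l 16643856) (l 16646040))) (b (a (l 16635456) (l 16637968)) (a (l 16648512) (l 16651240)))) (a (b (a (l 16656776) (l 16659216)) (a (b (l 16666712) (l 16662936)) (a (l 16671976) (l 16673256)))) (b (a (a (l 16661208) (l 16662592)) (a (l 16663984) (l 16665360))) (a (b (l 16671896) (l 3)) (l 3))))) (b (a (b (a (l 16640744) (l 16643768)) (a (l 16656152) (a (l 16656464) (l 16657944)))) (b (a (l 16646992) (l 18421133191)) (a (b (l 16656936) (l 3)) (l 3)))) (a (b (a (b (l 16664168) (l 3)) (l 3)) (l 3)) (l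 3)))) (a (b (a (b (a (b (l 16680080) (l 3)) (l 3)) (l 3)) (l 3)) (l 3)) (l 3))) (b (a (b (a (b (a (b (l 16639752) (l 3)) (l 3)) (l 3)) (l 3)) (l 3)) (l 3)) (l 3))), by decide +kernel⟩

def k51_pp_012_a : ∃ t, chk3 f_pp_012_a t 80 56 1 = true :=
  ⟨(b (a (b (a (c (l 16715464) (l 16717072)) (a (l 16715208) (l 16714688))) (c (a (l 16724960) (l 16724320)) (a (b (l 16724112) (l 16729040)) (b (l 16723248) (c (l 16728128) (l 16728912)))))) (a (b (c (l 16713424) (b (l 16712328) (l 16717560))) (c (b (l 16721488) (l 16727128)) (b (l 16724792) (a (l 16728536) (l 16728736))))) (b (b (l 16711248) (c (l 16716120) (l 16717576))) (b (a (l 16722464) (l 16724088)) (c (l 16727792) (a (l 16729064) (l 16731808))))))) (b (a (c (a (l 16735184) (b (l 16732440) (l 16738144))) (a (a (b (l 16734280) (l 16739496)) (b (l 16734048) (a (l 16739440) (l 16739456)))) (b (a (l 16733968) (l 16735352)) (a (c (l 16739152) (l 16741896)) (c (l 16739456) (b (l 16738736) (l 16741720))))))) (a (b (b (a (l 16732056) (l 16732392))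 (c (l 16734432) (a (l 16735736) (l 16736168)))) (c (l 16739224) (a (b (l 16740048) (l 16741992)) (l 16735880)))) (b (a (b (l 16734496) (l 16736096)) (a (l 16729792) (l 16735456))) (l 3)))) (a (b (a (c (l 16743408) (a (b (l 16743536) (l 16746288)) (c (l 16744696) (b (l 16744016) (l 16746952))))) (c (l 16744376) (a (b (a (l 16743800) (l 16744040)) (l 16741920)) (c (l 16745880) (l 16741416))))) (a (c (l 16749576) (a (b (l 18421321415) (l 16752408)) (l 16746232))) (l 3))) (l 3)))), by decide +kernel⟩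

def k52_pp_012_a : ∃ t, chk3 f_pp_012_a t 81 56 1 = true :=
  ⟨(b (a (b (c (a (l 16717672) (b (l 16711584) (l 16717664))) (a (b (l 16712240) (a (l 16717944) (l 16718336))) (b (l 16712960) (a (l 16718792) (l 16719328))))) (a (a (b (l 16725488) (b (l 16727760) (l 16731000))) (c (l 28621812167) (b (l 16725712) (l 16730888)))) (b (c (l 16724056) (a (l 16727008) (l 16725832))) (l 3)))) (b (a (b (a (l 16713024) (l 16715432)) (c (l 16719072) (a (l 16721320) (l 16720816)))) (b (c (l 16714136) (a (l 16716328) (l 16717168))) (l 3))) (l 3))) (l 3)), by decide +kernel⟩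

def k53_pp_012_a : ∃ t, chk3 f_pp_012_a t 41 56 1 = true :=
  ⟨(a (b (b (l 3) (l 3)) (l 3)) (l 3)), by decide +kernel⟩

def k54_pp_012_a : ∃ t, chk3 f_pp_012_a t 20 57 1 = true :=
  ⟨(l 3), by decide +kernel⟩

def k55_pp_012_a : ∃ t, chk3 f_pp_012_a t 20 29 1 = true :=
  ⟨(l 3), by decide +kernel⟩

def k56_pp_012_a : ∃ t, chk3 f_pp_012_a t 21 14 1 = true :=
  ⟨(l 3), by decide +kernel⟩

def k57_pp_012_a : ∃ t, chk3 f_pp_012_a t 10 15 1 = true :=
  ⟨(l 3), by decide +kernel⟩

def k58_pp_012_a : ∃ t, chk3 f_pp_012_a t 22 24 1 = true :=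
  ⟨(a (b (a (l 16423440) (a (l 16434352) (l 16443728))) (a (a (l 16460248) (l 16467792)) (a (l 16490016) (b (l 16476120) (l 16498832))))) (b (a (a (l 16454712) (l 16467176)) (a (l 16481008) (l 16513096))) (a (b (a (l 16487816) (l 16500776)) (a (l 16510864) (l 16523976))) (b (a (l 16514848) (l 16529856)) (a (l 16538016) (l 16558024)))))), by decide +kernel⟩

def k59_pp_012_a : ∃ t, chk3 f_pp_012_a t 44 25 1 = true :=
  ⟨(b (a (b (a (l 16492592) (l 16501184)) (a (l 16515504) (l 16524680))) (b (a (l 16511136) (l 16522296)) (a (a (l 16532352) (l 16537800)) (a (l 16543496) (l 16549416))))) (a (b (a (l 16539392) (a (l 16546520) (l 16551584))) (a (b (l 16536904) (l 16567840)) (b (a (l 16565184) (l 16570328)) (a (l 16577848) (l 16583016))))) (b (a (b (l 16532424) (a (l 16563104) (l 16568632))) (b (a (l 16561912) (l 16567816)) (a (l 16574336) (b (l 16577088) (l 16583296))))) (a (b (a (l 16575672) (l 16591664)) (a (b (l 16585160) (l 16591520)) (b (l 16590640) (l 16586480)))) (b (a (b (l 16583704)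 (l 16589968)) (b (l 16589504) (l 16587848))) (a (b (l 16588376) (a (l 16601120) (l 16603912))) (c (b (a (l 16600432) (l 16603280)) (a (l 16606624) (l 16609424))) (l 16599872)))))))), by decide +kernel⟩

def k60_pp_012_a : ∃ t, chk3 f_pp_012_a t 45 50 1 = true :=
  ⟨(a (b (a (a (l 16531384) (l 16537736)) (a (l 16544288) (l 16551040))) (a (b (l 16542088) (a (l 16561624) (l 16567896))) (b (l 16565552) (a (l 16574304) (l 16580824))))) (b (a (b (l 16555552) (l 16567296)) (b (l 16569992) (l 16581448))) (a (b (a (l 16575640) (l 16582472)) (a (l 16587424) (l 16588824))) (b (a (l 16589368) (l 16596280)) (a (l 16595488) (l 16604744)))))), by decide +kernel⟩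

def k61_pp_012_a : ∃ t, chk3 f_pp_012_a t 90 51 1 = true :=
  ⟨(b (a (b (a (l 16573880) (l 16590560)) (a (b (l 16583096) (l 16589248)) (c (l 16588304) (l 16592272)))) (b (a (l 16581120) (l 16590768)) (a (c (b (l 16595360) (l 16601328)) (l 16598432)) (b (l 16596368) (c (l 16612656) (l 16607568)))))) (a (b (a (b (l 16587536) (c (l 16611960) (l 16601608))) (c (b (l 16601304) (a (l 16605856) (l 16608784))) (l 16599216))) (a (b (a (l 16606224) (l 16614344)) (c (a (l 16612240) (a (l 16614344) (b (l 16614240) (l 16617208)))) (l 16603384))) (c (a (b (l 16611872) (c (b (l 11441745959) (a (l 22179166487) (l 16619408))) (l 31842822743))) (a (b (l 16614024) (b (l 22179166199) (l 3))) (b (b (l 16613968) (l 16616880)) (l 29158493223)))) (b (l 16603032) (l 29158476295))))) (b (a (c (a (b (l 16605776) (l 16611704)) (b (l 16608760) (a (l 16613896) (l 16620560)))) (l 16609424)) (b (c (a (l 16611736) (b (l 16613264) (l 16616096))) (l 16613408)) (c (b (a (l 16616040) (a (l 16618008) (l 16619104)))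 (c (a (l 27011006135) (l 3)) (l 40432760887))) (l 32379701095)))) (b (a (c (a (c (b (l 16616024) (a (l 23252907623) (l 16619120))) (l 32379693111)) (a (b (l 24326649255) (l 3)) (l 31305976407))) (l 30769088503)) (l 3)) (l 3))))), by decide +kernel⟩

def k62_pp_012_a : ∃ t, chk3 f_pp_012_a t 91 51 1 = true :=
  ⟨(b (a (b (a (c (l 16593864) (l 16599168)) (c (l 16602872) (l 16605600))) (a (b (l 16602592) (c (a (l 16611960) (l 16620192)) (l 16613656))) (a (b (l 16612480) (b (l 16616648) (l 30769082311))) (b (l 4462404935) (l 43653989735))))) (b (a (c (b (l 16609072) (l 18421048167)) (l 16601488)) (a (b (l 16613928) (l 38285279271)) (b (l 16617056) (l 47948959831)))) (a (b (a (a (l 35064049575) (l 39895890359)) (l 45801474759)) (l 3)) (l 3)))) (a (b (b (a (a (b (l 7683628695) (l 39895888263)) (b (l 40432759399) (l 3))) (l 3)) (l 3)) (l 3)) (l 3))), by decide +kernel⟩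

def k63_pp_012_a : ∃ t, chk3 f_pp_012_a t 23 12 1 = true :=
  ⟨(b (a (b (a (b (l 16525176) (a (l 16523216) (l 16540040))) (a (b (l 16536072) (l 16557456)) (b (l 16554600) (l 16575240)))) (a (b (a (l 16545632) (l 16561960)) (a (b (l 16562456) (l 16573648)) (b (l 16578272) (l 16589024)))) (b (a (l 16578640) (l 16595424)) (a (b (l 16594216) (l 16604376)) (b (l 16610024) (l 16619400)))))) (b (a (a (b (l 16573536) (l 16593168)) (b (l 16592640) (l 16610984))) (a (b (l 16611664) (l 16628384)) (b (l 16630328) (l 16645024)))) (a (b (a (l 16617280) (l 16638656)) (a (b (l 16625376) (a (l 16630152) (l 16636360))) (b (a (l 16636248) (l 16642456)) (l 65665763591)))) (b (a (b (l 16639864) (a (l 16643144) (l 16649312))) (b (l 60297041271) (l 68350146039))) (a (b (l 71034485799) (l 3)) (l 3)))))) (a (b (a (b (a (a (l 16589288) (l 16597896)) (b (l 16599632) (a (l 16606488) (l 16613520)))) (a (b (a (l 16603176) (l 16610024)) (a (b (l 16611264) (l 16612600)) (b (l 16612536) (c (l 45264608759) (l 16611736)))))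 (b (a (b (l 16614224) (l 16608744)) (b (l 16620880) (l 47412101175))) (a (b (l 45264614215) (l 3)) (l 3))))) (b (a (b (l 16616896) (a (l 16620384) (b (l 16624800) (l 51707076247)))) (b (a (l 16624856) (l 44727766007)) (a (l 56002053991) (l 3)))) (a (b (a (l 51707078471) (l 3)) (l 3)) (l 3)))) (a (b (a (a (b (a (b (l 39895893783) (l 3)) (l 50096453015)) (l 3)) (l 3)) (l 3)) (l 3)) (l 3))) (b (a (a (a (b (l 72645045959) (l 3)) (l 3)) (l 3)) (l 3)) (l 3)))), by decide +kernel⟩

def k64_pp_012_a : ∃ t, chk3 f_pp_012_a t 88 52 1 = true :=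
  ⟨(b (a (b (a (l 16580864) (l 16585664)) (a (l 16593768) (b (l 16595344) (l 16601840)))) (b (a (b (l 16587440) (l 16593872)) (b (l 16592592) (l 16599008))) (a (b (l 16600328) (l 16596320)) (b (l 16600200) (a (l 16610608) (l 16613168)))))) (a (b (a (l 16604192) (b (l 16608352) (l 16609648))) (b (a (l 16616664) (a (l 16620232) (l 16617376))) (a (l 25937260775) (a (l 27011006471) (l 42580265623))))) (b (a (b (c (l 16623632) (l 16613448)) (a (l 16618552) (l 27010995031))) (b (a (l 16617056) (c (b (l 16617824) (l 16620992)) (l 16619744))) (c (a (l 30232221879) (b (l 29695371495) (l 3))) (l 36674680391)))) (a (b (a (l 27547873751) (l 40969649511)) (l 3)) (l 3))))), by decide +kernel⟩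

def k65_pp_012_a : ∃ t, chk3 f_pp_012_a t 89 52 1 = true :=
  ⟨(b (a (b (a (b (l 16597888) (l 16599440)) (c (b (l 16613688) (a (l 16608168) (l 16610848))) (l 16601320))) (a (b (a (l 16609344) (l 16611968)) (c (a (l 16615592) (b (l 16616592) (l 16624968))) (l 16606688))) (c (a (b (l 16614472) (b (l 14662977239) (a (l 19494818135) (l 16622488)))) (b (b (l 16615544) (a (l 16618016) (l 16619296))) (b (a (l 19494817047) (l 16621952)) (l 3)))) (b (l 16605584) (l 32379707639))))) (b (a (b (c (a (l 16607296) (l 16610040)) (l 16608880)) (c (a (l 16613536) (b (l 16614688) (a (l 16617104) (l 16618416)))) (l 16609904))) (c (b (a (l 16612792) (b (l 16614016) (a (l 16616384) (l 16617712)))) (c (a (b (a (l 16616656) (l 16617968)) (a (l 22716039639) (l 27547878935))) (b (a (l 21642297095) (l 26474136407)) (l 3))) (a (l 31305954039) (l 22716046407)))) (b (l 16609168) (l 28621607575)))) (b (a (c (a (c (b (l 14662975111) (a (l 20031686807) (l 16621376))) (l 30769085127)) (b (a (l 23252906279) (l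 28084750791)) (l 3))) (l 30232221959)) (l 3)) (l 3)))) (a (b (b (a (c (a (b (l 16620336) (l 28621628327)) (b (a (l 16622080) (l 16623064)) (l 3))) (l 34527193991)) (l 3)) (l 3)) (l 3)) (l 3))), by decide +kernel⟩

def k66_pp_012_a : ∃ t, chk3 f_pp_012_a t 44 53 1 = true :=
  ⟨(a (b (a (b (a (b (c (l 38822171847) (l 16619104)) (l 3)) (l 3)) (l 3)) (l 3)) (l 3)) (l 3)), by decide +kernel⟩

def k67_pp_012_a : ∃ t, chk3 f_pp_012_a t 45 26 1 = true :=
  ⟨(b (a (b (a (b (b (a (c (a (c (b (a (l 16616024) (l 16617368)) (a (l 21642296551) (l 27011006695))) (l 31842823655)) (b (a (c (l 21642295943) (l 16618712)) (l 27547877239)) (l 3))) (l 29158477207)) (l 3)) (l 3)) (l 3)) (l 3)) (l 3)) (l 3)) (l 3)), by decide +kernel⟩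

def k68_pp_012_a : ∃ t, chk3 f_pp_012_a t 22 27 1 = true :=
  ⟨(l 3), by decide +kernel⟩

def k69_pp_012_a : ∃ t, chk3 f_pp_012_a t 23 13 1 = true :=
  ⟨(l 3), by decide +kernel⟩

def k70_pp_012_a : ∃ t, chk3 f_pp_012_a t 11 7 1 = true :=
  ⟨(l 3), by decide +kernel⟩

def k71_pp_012_a : ∃ t, chk3 f_pp_012_a t 12 2 1 = true :=
  ⟨(b (a (b (a (l 16319192) (l 16406024)) (a (b (l 16338488) (l 16379200)) (b (l 16436200) (l 16488312)))) (b (a (l 16500160) (b (l 16586944) (l 16605992))) (a (b (l 16542176) (l 16546992)) (a (b (l 16616504) (l 16653560)) (l 16613584))))) (a (b (a (b (l 16335112) (a (l 16481312) (l 16534168))) (b (l 16483840) (a (l 16583112) (l 16584424)))) (a (b (a (b (l 16534224) (l 16569792)) (b (l 16583728) (l 16615544))) (a (b (a (l 16593200) (l 16615296)) (a (l 16626312) (l 16645248))) (b (b (l 16637648) (l 16651152)) (b (l 16663232) (a (l 16666976) (l 16678752)))))) (b (a (b (l 16627056) (l 16653312)) (b (l 16661576) (a (l 16674824) (l 16686088)))) (b (a (b (l 16670032)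 (l 16657736)) (a (l 16689720) (l 16686176))) (a (b (a (l 16681576) (l 16689440)) (a (l 77476984695) (l 98951809079))) (b (a (l 82308835207) (l 95730600359)) (l 3))))))) (b (a (b (a (l 16616336) (l 16654504)) (a (b (l 16650808) (l 16671064)) (b (l 16681712) (l 16695664)))) (b (a (l 16686504) (l 16714112)) (a (b (l 16706104) (l 16715400)) (b (l 16726232) (l 16729888))))) (a (b (a (b (l 16666824) (l 16699224)) (b (l 16706480) (b (l 16711256) (l 16701600)))) (b (a (b (l 53854702983) (a (l 84456330775) (l 100025580919))) (b (l 91435651767) (l 3))) (l 3))) (b (b (a (l 16720288) (b (l 16729232) (l 63518411031))) (a (b (l 16709184) (l 96804374759)) (b (l 103246839399) (l 3)))) (l 3)))))), by decide +kernel⟩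

def k72_pp_012_a : ∃ t, chk3 f_pp_012_a t 13 2 1 = true :=
  ⟨(b (a (b (a (b (l 16665368) (l 16701928)) (a (l 16760648) (l 16743672))) (a (b (l 16719944) (a (l 16721928) (l 16749496))) (b (l 16741992) (b (l 16749000) (l 16750360))))) (b (a (b (l 16706032) (l 16699328)) (b (l 16666376) (a (l 16698152) (l 16684296)))) (a (b (a (l 16742208) (l 16730904)) (a (l 16729936) (b (l 16739664) (l 16744408)))) (b (a (l 16719400) (b (l 16705000) (l 16719080))) (a (b (l 16733824) (l 16722768)) (b (l 16733752) (a (l 16747024) (l 16730000)))))))) (b (b (a (a (a (l 16736960) (l 16733768)) (a (b (l 16768360) (l 16757224)) (b (l 16756904) (l 16750744)))) (a (b (a (l 16750160) (l 16728008)) (a (b (l 16749528) (l 16748984)) (b (a (l 16750912) (l 16753152)) (a (l 83919576359) (l 129016739575))))) (b (a (a (l 16751720) (b (l 16752680) (l 62981625927))) (b (a (l 16756864) (b (l 16760368) (l 103783821191))) (a (l 115058101479) (l 3)))) (a (b (a (l 92509518327) (l 141901650071)) (l 3)) (l 3))))) (a (a (a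 (b (l 16741120) (l 16717576)) (b (l 16750040) (b (l 16742168) (l 72108366743)))) (b (a (l 16725680) (b (l 16746440) (a (l 16743120) (l 107541872871)))) (a (b (a (l 16739528) (l 89288251655)) (l 129016700391)) (l 139754100023)))) (a (b (a (b (a (l 16746912) (l 118279300983)) (l 3)) (l 3)) (l 3)) (l 3)))) (a (b (a (b (a (b (l 67276517815) (l 109689302535)) (l 127942939607)) (l 3)) (l 3)) (l 3)) (l 3)))), by decide +kernel⟩

def k73_pp_012_a : ∃ t, chk3 f_pp_012_a t 6 3 1 = true :=
  ⟨(b (a (a (b (b (a (b (a (b (a (l 16648184) (l 16663696)) (a (b (l 16657504) (l 42043477143)) (b (l 57075885975) (l 101099277655)))) (b (a (b (l 16673832) (l 71571400695)) (l 107004859447)) (a (l 117205426551) (l 3)))) (a (b (a (l 102173018375) (l 3)) (l 3)) (l 3))) (l 3)) (l 3)) (l 3)) (l 3)) (l 3)) (l 3)), by decide +kernel⟩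

def k74_pp_012_a : ∃ t, chk3 f_pp_012_a t 14 8 1 = true :=
  ⟨(a (a (b (a (l 16635736) (l 16620752)) (a (l 16672832) (l 16666864))) (b (a (l 16611224) (l 16607216)) (a (b (l 16652784) (l 16680464)) (b (l 16655616) (l 16688088))))) (a (b (a (b (l 16590448) (l 16627224)) (b (l 16595296) (l 16594632))) (a (b (l 16664048) (a (l 16697496) (l 16705504))) (b (b (l 16646680) (l 16688496)) (b (l 16699024) (a (l 16725256) (l 16736608)))))) (b (a (b (l 16563728) (a (l 16626256) (l 16656032))) (a (b (l 16617056) (l 16666208)) (b (l 16605376) (l 16672488)))) (a (b (a (l 16692176) (b (l 16691424) (l 16715192))) (a (b (l 16726288) (l 16727848)) (b (l 16739104) (l 16738552)))) (b (a (b (l 16703304) (l 16728200)) (b (l 16716512) (l 16720912))) (b (a (l 16729928) (a (l 16738424) (b (l 16760152) (b (l 16767352) (a (l 16770512) (l 73719074167)))))) (a (b (a (l 16762832) (l 16760224)) (a (b (l 16769752) (a (l 16772576) (l 116668749591))) (b (l 104857585671) (l 3)))) (b (a (b (l 52244229655) (l 120963713383))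 (l 147270375015)) (l 3))))))))), by decide +kernel⟩

def k75_pp_012_a : ∃ t, chk3 f_pp_012_a t 14 9 1 = true :=
  ⟨(a (b (a (a (b (l 16700584) (l 16719632)) (b (l 16701816) (a (l 16723824) (l 16728408)))) (a (b (l 16708728) (a (l 16734424) (l 16720896))) (b (a (l 16717640) (l 16725344)) (b (a (l 16742352) (l 16751984)) (a (l 16759200) (a (l 16746272) (b (l 16768456) (l 85530228087)))))))) (a (b (a (a (l 16737512) (l 16741808)) (a (l 16747552) (l 16733728))) (a (b (l 16733592) (a (l 16760480) (b (l 16759320) (l 122574307591)))) (b (a (b (l 16762272) (l 69960958199)) (b (a (l 16767904) (l 99488866151)) (l 144586030151))) (a (l 140827930311) (l 3))))) (b (a (b (a (l 16756040) (b (l 16761456) (l 16758440))) (a (b (l 16766640) (a (l 16759648) (l 120426833703))) (b (a (l 84993354615) (l 132774867415)) (l 3)))) (b (a (b (a (l 16769088) (l 16765800)) (a (l 98415127831) (l 149417874599))) (b (a (l 119353095303) (l 3)) (l 3))) (l 3))) (a (l 158007775415) (l 3))))) (b (a (b (a (a (l 16713472)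 (b (l 16734960) (l 16734008))) (b (a (l 16746168) (l 16736592)) (a (a (l 16742608) (a (l 16746336) (l 52781085159))) (b (a (l 16747944) (b (l 16771536) (l 96804522583))) (a (b (l 16770264) (l 134922359095)) (l 167671489783)))))) (a (b (a (l 16742040) (b (l 16748856) (a (l 68887232359) (l 119353096647)))) (a (b (a (l 16753184) (l 98952001063)) (l 170892713095)) (l 154786562375))) (b (a (b (a (a (l 16764816) (l 97878262407)) (l 173577070695)) (l 3)) (l 3)) (l 3)))) (b (a (b (a (b (l 16742208) (a (l 16748768) (b (l 16761768) (l 117742488343)))) (b (a (b (l 16768576) (l 62981651063)) (b (l 80161521463) (l 139217326855))) (l 159618405351))) (a (b (a (b (l 107005069703) (l 3)) (l 3)) (l 3)) (l 3))) (b (l 173040172151) (l 3))) (l 3))) (l 3))), by decide +kernel⟩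

def k76_pp_012_a : ∃ t, chk3 f_pp_012_a t 14 5 1 = true :=
  ⟨(a (b (b (a (b (a (b (a (l 126332387527) (l 3)) (l 3)) (l 3)) (l 3)) (l 3)) (l 3)) (l 3)) (l 3)), by decide +kernel⟩

def k77_pp_012_a : ∃ t, chk3 f_pp_012_a t 30 16 1 = true :=
  ⟨(a (a (b (a (l 16595040) (b (l 16635048) (l 16662880))) (a (b (l 16677152) (l 16704040)) (b (l 16690776) (l 16718752)))) (b (b (a (l 16647808) (l 16640912)) (a (l 16655752) (l 16691872))) (a (b (l 16705704) (l 16713720)) (b (l 16695688) (a (l 16724584) (l 16731312)))))) (b (a (a (b (l 16656280) (l 16682080)) (b (l 16693904) (b (l 16717952) (l 16712984)))) (b (a (b (l 16682568) (l 16720080)) (a (l 16705080) (l 16714928))) (a (a (l 16719000) (l 16727456)) (b (l 16732776) (a (l 16740808) (a (l 16756536) (b (l 16767832) (b (l 16771464) (l 114521264503))))))))) (a (b (a (a (l 16713864) (l 16722160)) (a (l 16729328) (l 16736416))) (a (b (l 16735880) (a (l 16743216) (b (l 16762632) (a (b (l 16770032) (l 16771704)) (l 112910651591))))) (b (a (a (l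 16744160) (b (l 16765792) (b (l 16769552) (l 16771456)))) (b (b (l 16763976) (a (l 16770160) (l 96804524615))) (l 127406162487))) (a (b (a (b (l 16771024) (l 16772272)) (l 137606715047)) (l 3)) (l 3))))) (b (a (b (b (l 16738544) (a (l 16761576) (l 52781089847))) (a (b (l 16745928) (a (l 39359328791) (b (l 61907913879) (l 16772720)))) (b (a (b (l 16770432) (l 78014042551)) (l 125795552423)) (l 3)))) (b (a (b (a (l 16768152) (b (l 16770160) (l 62981656599))) (a (b (l 16771568) (l 118816233239)) (l 148881004023))) (b (a (l 120963713047) (l 3)) (l 3))) (l 3))) (a (l 171429570567) (l 3)))))), by decide +kernel⟩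

def k78_pp_012_a : ∃ t, chk3 f_pp_012_a t 30 17 1 = true :=
  ⟨(a (b (a (b (a (l 16710032) (l 16723952)) (a (a (l 16729848) (l 16735840)) (b (l 16739736) (a (b (l 16765176) (a (l 16768520) (l 16768288))) (b (a (l 16769400) (l 66202879591)) (l 124184939351)))))) (b (a (a (l 16733472) (b (l 16755472) (l 47412371351))) (b (b (l 16741424) (a (l 16764360) (a (l 16768872) (b (l 16770520) (l 16771968))))) (a (b (a (l 16767784) (l 43117427175)) (a (l 78550909687) (l 138143585799))) (b (l 122037454663) (l 3))))) (a (b (a (b (l 16767128) (a (l 16770200) (l 91972684999))) (b (a (l 54391717895) (l 113447522919)) (l 3))) (l 159081553991)) (l 3)))) (a (b (a (b (a (l 16744832) (b (l 16758432) (a (l 60834170295) (l 120426845751)))) (a (b (a (l 16771112) (l 99488879223)) (l 143512298679)) (l 3))) (b (a (b (a (l 84993363031) (l 141901683191)) (l 3)) (l 3)) (l 3))) (l 3)) (l 3))) (b (a (b (a (b (a (b (a (l 16769864) (b (l 16771352) (l 16772384))) (l 135996104039)) (l 3)) (l 3)) (l 3)) (l 3)) (l 3))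 (l 3))), by decide +kernel⟩

def k79_pp_012_a : ∃ t, chk3 f_pp_012_a t 31 8 1 = true :=
  ⟨(b (a (b (a (b (a (a (l 16725032) (l 16733736)) (b (a (l 16735448) (l 16743392)) (a (b (l 16765512) (b (l 16748664) (a (l 16770552) (l 95730781511)))) (b (a (l 16760336) (b (l 16770112) (l 129553649719))) (a (l 127406163607) (l 3)))))) (a (b (a (l 16754464) (b (a (l 16767568) (l 40969941543)) (a (b (l 16771392) (l 103246974951)) (l 133848615671)))) (a (b (a (b (l 16769912) (l 16770728)) (b (l 74792816663) (l 16770896))) (l 156397199863)) (l 3))) (b (a (b (a (b (l 61907914615) (l 139217327255)) (l 172503327095)) (l 3)) (l 3)) (l 3)))) (b (a (b (a (b (l 16758464) (a (b (l 16771272) (l 83919621543)) (b (l 107541941207) (l 3)))) (b (a (b (l 16767488) (l 120963714855)) (l 140827938119)) (l 3))) (l 175187678119)) (l 3)) (l 3))) (l 3)) (l 3)) (l 3)), by decide +kernel⟩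

def k80_pp_012_a : ∃ t, chk3 f_pp_012_a t 15 9 1 = true :=
  ⟨(l 3), by decide +kernel⟩

def k81_pp_012_a : ∃ t, chk3 f_pp_012_a t 15 5 1 = true :=
  ⟨(l 3), by decide +kernel⟩

def k82_pp_012_a : ∃ t, chk3 f_pp_012_a t 7 3 1 = true :=
  ⟨(l 3), by decide +kernel⟩

theorem s83_pp_012_a : ∃ t, chk3 f_pp_012_a t 30 8 1 = true := ex3_b k77_pp_012_a k78_pp_012_a

theorem s84_pp_012_a : ∃ t, chk3 f_pp_012_a t 15 8 1 = true := ex3_a s83_pp_012_a k79_pp_012_a

theorem s85_pp_012_a : ∃ t, chk3 f_pp_012_a t 15 4 1 = true := ex3_b s84_pp_012_a k80_pp_012_a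

theorem s86_pp_012_a : ∃ t, chk3 f_pp_012_a t 15 2 1 = true := ex3_b s85_pp_012_a k81_pp_012_a

theorem s87_pp_012_a : ∃ t, chk3 f_pp_012_a t 14 4 1 = true := ex3_b k74_pp_012_a k75_pp_012_a

theorem s88_pp_012_a : ∃ t, chk3 f_pp_012_a t 14 2 1 = true := ex3_b s87_pp_012_a k76_pp_012_a

theorem s89_pp_012_a : ∃ t, chk3 f_pp_012_a t 7 2 1 = true := ex3_a s88_pp_012_a s86_pp_012_a

theorem s90_pp_012_a : ∃ t, chk3 f_pp_012_a t 7 1 1 = true := ex3_b s89_pp_012_a k82_pp_012_a

theorem s91_pp_012_a : ∃ t, chk3 f_pp_012_a t 6 2 1 = true := ex3_a k71_pp_012_a k72_pp_012_a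

theorem s92_pp_012_a : ∃ t, chk3 f_pp_012_a t 6 1 1 = true := ex3_b s91_pp_012_a k73_pp_012_a

theorem s93_pp_012_a : ∃ t, chk3 f_pp_012_a t 3 1 1 = true := ex3_a s92_pp_012_a s90_pp_012_a

theorem s94_pp_012_a : ∃ t, chk3 f_pp_012_a t 44 52 1 = true := ex3_a k64_pp_012_a k65_pp_012_a

theorem s95_pp_012_a : ∃ t, chk3 f_pp_012_a t 44 26 1 = true := ex3_b s94_pp_012_a k66_pp_012_a

theorem s96_pp_012_a : ∃ t, chk3 f_pp_012_a t 22 26 1 = true := ex3_a s95_pp_012_a k67_pp_012_a

theorem s97_pp_012_a : ∃ t, chk3 f_pp_012_a t 22 13 1 = true := ex3_b s96_pp_012_a k68_pp_012_a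

theorem s98_pp_012_a : ∃ t, chk3 f_pp_012_a t 11 13 1 = true := ex3_a s97_pp_012_a k69_pp_012_a

theorem s99_pp_012_a : ∃ t, chk3 f_pp_012_a t 45 51 1 = true := ex3_a k61_pp_012_a k62_pp_012_a

theorem s100_pp_012_a : ∃ t, chk3 f_pp_012_a t 45 25 1 = true := ex3_b k60_pp_012_a s99_pp_012_a

theorem s101_pp_012_a : ∃ t, chk3 f_pp_012_a t 22 25 1 = true := ex3_a k59_pp_012_a s100_pp_012_a

theorem s102_pp_012_a : ∃ t, chk3 f_pp_012_a t 22 12 1 = true := ex3_b k58_pp_012_a s101_pp_012_a

theorem s103_pp_012_a : ∃ t, chk3 f_pp_012_a t 11 12 1 = true := ex3_a s102_pp_012_a k63_pp_012_a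

theorem s104_pp_012_a : ∃ t, chk3 f_pp_012_a t 11 6 1 = true := ex3_b s103_pp_012_a s98_pp_012_a

theorem s105_pp_012_a : ∃ t, chk3 f_pp_012_a t 11 3 1 = true := ex3_b s104_pp_012_a k70_pp_012_a

theorem s106_pp_012_a : ∃ t, chk3 f_pp_012_a t 40 56 1 = true := ex3_a k51_pp_012_a k52_pp_012_a

theorem s107_pp_012_a : ∃ t, chk3 f_pp_012_a t 20 56 1 = true := ex3_a s106_pp_012_a k53_pp_012_a

theorem s108_pp_012_a : ∃ t, chk3 f_pp_012_a t 20 28 1 = true := ex3_b s107_pp_012_a k54_pp_012_a

theorem s109_pp_012_a : ∃ t, chk3 f_pp_012_a t 20 14 1 = true := ex3_b s108_pp_012_a k55_pp_012_a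

theorem s110_pp_012_a : ∃ t, chk3 f_pp_012_a t 10 14 1 = true := ex3_a s109_pp_012_a k56_pp_012_a

theorem s111_pp_012_a : ∃ t, chk3 f_pp_012_a t 10 7 1 = true := ex3_b s110_pp_012_a k57_pp_012_a

theorem s112_pp_012_a : ∃ t, chk3 f_pp_012_a t 21 13 1 = true := ex3_b k49_pp_012_a k50_pp_012_a

theorem s113_pp_012_a : ∃ t, chk3 f_pp_012_a t 41 13 1 = true := ex3_b k47_pp_012_a k48_pp_012_a

theorem s114_pp_012_a : ∃ t, chk3 f_pp_012_a t 20 13 1 = true := ex3_a k46_pp_012_a s113_pp_012_a

theorem s115_pp_012_a : ∃ t, chk3 f_pp_012_a t 10 13 1 = true := ex3_a s114_pp_012_a s112_pp_012_a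

theorem s116_pp_012_a : ∃ t, chk3 f_pp_012_a t 10 6 1 = true := ex3_b k45_pp_012_a s115_pp_012_a

theorem s117_pp_012_a : ∃ t, chk3 f_pp_012_a t 10 3 1 = true := ex3_b s116_pp_012_a s111_pp_012_a

theorem s118_pp_012_a : ∃ t, chk3 f_pp_012_a t 5 3 1 = true := ex3_a s117_pp_012_a s105_pp_012_a

theorem s119_pp_012_a : ∃ t, chk3 f_pp_012_a t 152 234 1 = true := ex3_a k37_pp_012_a k38_pp_012_a

theorem s120_pp_012_a : ∃ t, chk3 f_pp_012_a t 76 234 1 = true := ex3_a s119_pp_012_a k39_pp_012_a

theorem s121_pp_012_a : ∃ t, chk3 f_pp_012_a t 76 117 1 = true := ex3_b s120_pp_012_a k40_pp_012_a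

theorem s122_pp_012_a : ∃ t, chk3 f_pp_012_a t 76 58 1 = true := ex3_b k36_pp_012_a s121_pp_012_a

theorem s123_pp_012_a : ∃ t, chk3 f_pp_012_a t 38 58 1 = true := ex3_a s122_pp_012_a k41_pp_012_a

theorem s124_pp_012_a : ∃ t, chk3 f_pp_012_a t 38 29 1 = true := ex3_b s123_pp_012_a k42_pp_012_a

theorem s125_pp_012_a : ∃ t, chk3 f_pp_012_a t 19 29 1 = true := ex3_a s124_pp_012_a k43_pp_012_a

theorem s126_pp_012_a : ∃ t, chk3 f_pp_012_a t 19 28 1 = true := ex3_a k34_pp_012_a k35_pp_012_a

theorem s127_pp_012_a : ∃ t, chk3 f_pp_012_a t 19 14 1 = true := ex3_b s126_pp_012_a s125_pp_012_a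

theorem s128_pp_012_a : ∃ t, chk3 f_pp_012_a t 301 472 1 = true := ex3_a k28_pp_012_a k29_pp_012_a

theorem s129_pp_012_a : ∃ t, chk3 f_pp_012_a t 301 236 1 = true := ex3_b s128_pp_012_a k30_pp_012_a

theorem s130_pp_012_a : ∃ t, chk3 f_pp_012_a t 150 236 1 = true := ex3_a k27_pp_012_a s129_pp_012_a

theorem s131_pp_012_a : ∃ t, chk3 f_pp_012_a t 75 236 1 = true := ex3_a s130_pp_012_a k31_pp_012_a

theorem s132_pp_012_a : ∃ t, chk3 f_pp_012_a t 75 118 1 = true := ex3_b s131_pp_012_a k32_pp_012_a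

theorem s133_pp_012_a : ∃ t, chk3 f_pp_012_a t 75 59 1 = true := ex3_b s132_pp_012_a k33_pp_012_a

theorem s134_pp_012_a : ∃ t, chk3 f_pp_012_a t 37 59 1 = true := ex3_a k26_pp_012_a s133_pp_012_a

theorem s135_pp_012_a : ∃ t, chk3 f_pp_012_a t 606 941 1 = true := ex3_b k22_pp_012_a k23_pp_012_a

theorem s136_pp_012_a : ∃ t, chk3 f_pp_012_a t 606 470 1 = true := ex3_b k21_pp_012_a s135_pp_012_a

theorem s137_pp_012_a : ∃ t, chk3 f_pp_012_a t 303 470 1 = true := ex3_a s136_pp_012_a k24_pp_012_a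

theorem s138_pp_012_a : ∃ t, chk3 f_pp_012_a t 303 235 1 = true := ex3_b s137_pp_012_a k25_pp_012_a

theorem s139_pp_012_a : ∃ t, chk3 f_pp_012_a t 1211 942 1 = true := ex3_a k18_pp_012_a k19_pp_012_a

theorem s140_pp_012_a : ∃ t, chk3 f_pp_012_a t 605 942 1 = true := ex3_a k17_pp_012_a s139_pp_012_a

theorem s141_pp_012_a : ∃ t, chk3 f_pp_012_a t 605 471 1 = true := ex3_b s140_pp_012_a k20_pp_012_a

theorem s142_pp_012_a : ∃ t, chk3 f_pp_012_a t 604 943 1 = true := ex3_a k15_pp_012_a k16_pp_012_a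

theorem s143_pp_012_a : ∃ t, chk3 f_pp_012_a t 604 471 1 = true := ex3_b k14_pp_012_a s142_pp_012_a

theorem s144_pp_012_a : ∃ t, chk3 f_pp_012_a t 302 471 1 = true := ex3_a s143_pp_012_a s141_pp_012_a

theorem s145_pp_012_a : ∃ t, chk3 f_pp_012_a t 302 235 1 = true := ex3_b k13_pp_012_a s144_pp_012_a

theorem s146_pp_012_a : ∃ t, chk3 f_pp_012_a t 151 235 1 = true := ex3_a s145_pp_012_a s138_pp_012_a

theorem s147_pp_012_a : ∃ t, chk3 f_pp_012_a t 151 117 1 = true := ex3_b k12_pp_012_a s146_pp_012_a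

theorem s148_pp_012_a : ∃ t, chk3 f_pp_012_a t 75 117 1 = true := ex3_a k11_pp_012_a s147_pp_012_a

theorem s149_pp_012_a : ∃ t, chk3 f_pp_012_a t 75 58 1 = true := ex3_b k10_pp_012_a s148_pp_012_a

theorem s150_pp_012_a : ∃ t, chk3 f_pp_012_a t 37 58 1 = true := ex3_a k9_pp_012_a s149_pp_012_a

theorem s151_pp_012_a : ∃ t, chk3 f_pp_012_a t 37 29 1 = true := ex3_b s150_pp_012_a s134_pp_012_a

theorem s152_pp_012_a : ∃ t, chk3 f_pp_012_a t 18 29 1 = true := ex3_a k8_pp_012_a s151_pp_012_a

theorem s153_pp_012_a : ∃ t, chk3 f_pp_012_a t 18 14 1 = true := ex3_b k7_pp_012_a s152_pp_012_a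

theorem s154_pp_012_a : ∃ t, chk3 f_pp_012_a t 9 14 1 = true := ex3_a s153_pp_012_a s127_pp_012_a

theorem s155_pp_012_a : ∃ t, chk3 f_pp_012_a t 9 7 1 = true := ex3_b s154_pp_012_a k44_pp_012_a

theorem s156_pp_012_a : ∃ t, chk3 f_pp_012_a t 17 30 1 = true := ex3_a k4_pp_012_a k5_pp_012_a

theorem s157_pp_012_a : ∃ t, chk3 f_pp_012_a t 17 15 1 = true := ex3_b s156_pp_012_a k6_pp_012_a

theorem s158_pp_012_a : ∃ t, chk3 f_pp_012_a t 8 15 1 = true := ex3_a k3_pp_012_a s157_pp_012_a

theorem s159_pp_012_a : ∃ t, chk3 f_pp_012_a t 8 7 1 = true := ex3_b k2_pp_012_a s158_pp_012_a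

theorem s160_pp_012_a : ∃ t, chk3 f_pp_012_a t 4 7 1 = true := ex3_a s159_pp_012_a s155_pp_012_a

theorem s161_pp_012_a : ∃ t, chk3 f_pp_012_a t 4 3 1 = true := ex3_b k1_pp_012_a s160_pp_012_a

theorem s162_pp_012_a : ∃ t, chk3 f_pp_012_a t 2 3 1 = true := ex3_a s161_pp_012_a s118_pp_012_a

theorem s163_pp_012_a : ∃ t, chk3 f_pp_012_a t 2 1 1 = true := ex3_b k0_pp_012_a s162_pp_012_a

theorem s164_pp_012_a : ∃ t, chk3 f_pp_012_a t 1 1 1 = true := ex3_a s163_pp_012_a s93_pp_012_a

theorem c_pp_012_a : CertB 0 536870912 0 536870912 1033476505 6710887 3 eng mog cd0q0 cd1q2a pd1 false true true .pnp 0 1 2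
    ndB0q0 ndB1q2a pcB1 cut_pp_012_a xt_pp_012_a :=
  certB0 (fam := false) (s1 := true) (s2 := true) (a := 0) (b := 1) (c := 2) (cn := .pnp) (n1 := ndB0q0) (n2 := ndB1q2a) (pc := pcB1) (cut := cut_pp_012_a) (xt := xt_pp_012_a) (P1 := 0) (W1 := 536870912) (P2 := 0) (W2 := 536870912) (P3 := 1033476505) (W3 := 6710887) (N0 := 3) (En := eng) (mo := mog) (C1 := cd0q0) (C2 := cd1q2a) (C3 := pd1)
    rfl s164_pp_012_a

noncomputable def cut_pp_012_b : Cut := Cut.of [[⟨0, 0, 0, 33554432⟩, ⟨1, 1, 0, 33554432⟩, ⟨2, 1, 0, 33554432⟩]]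

noncomputable def f_pp_012_b : ℕ → ℕ → ℕ → ℕ → Bool := onCell 0 536870912 536870912 536870912 1033476505 6710887
    (rowB 3 eng mog cd0q0 cd1q2b pd1 1 false true true .pnp 0 1 2 (qsf 0 536870912 1239849684 370763052 1) ndB0q0 ndB1q2b pcB1 cut_pp_012_b Ext.none)

def k0_pp_012_b : ∃ t, chk3 f_pp_012_b t 2 1 1 = true :=
  ⟨(b (l 1) (b (l 1) (a (l 1) (a (b (l 1) (a (b (l 1) (a (l 1) (l 449930422135))) (b (a (l 1) (l 461204500679)) (l 362956754599)))) (b (a (b (l 1) (l 445098259831)) (b (l 388190100999) (l 16105720))) (a (b (l 166461917399) (l 16026896)) (b (l 16040072) (l 15878984)))))))), by decide +kernel⟩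

def k1_pp_012_b : ∃ t, chk3 f_pp_012_b t 3 2 1 = true :=
  ⟨(a (l 1) (b (l 1) (b (a (l 1) (b (a (l 1) (l 3)) (a (b (l 1) (a (l 1) (b (l 1) (a (l 1) (b (l 1) (l 93985791015)))))) (b (a (a (l 1) (l 3)) (l 3)) (a (b (a (a (l 1) (b (l 1) (l 121366321815))) (a (b (b (l 1) (a (l 1) (b (l 207265715783) (l 16772976)))) (l 79490408935)) (b (l 244980898359) (a (l 16767896) (l 179482627543))))) (a (b (a (l 118145053975) (l 16739384)) (l 81100945591)) (b (l 16756672) (l 16746464)))) (b (b (l 3) (a (l 231559096167) (l 3))) (a (b (l 16741040) (l 16752888)) (l 202031170983)))))))) (a (b (a (l 1) (b (l 1) (a (l 1) (b (l 1) (a (l 1) (l 95596176919)))))) (a (b (l 1) (a (l 1) (l 92911657079))) (b (a (b (l 1) (l 16536560)) (b (l 36540337383) (l 16571984))) (a (b (l 16547616) (l 16582688)) (l 16588408))))) (b (a (b (a (b (l 1) (a (l 1) (l 101501852999))) (b (a (b (l 1) (l 106333755655)) (b (l 62310399863) (l 16677880))) (a (b (l 57478494311) (l 16644776)) (l 16690512)))) (a (b (a (l 97743705159) (l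 58015301543)) (a (l 16594272) (l 16635384))) (b (a (l 16660328) (l 16681248)) (l 16664880)))) (b (a (b (a (l 16701736) (l 16732016)) (l 16689368)) (b (l 16741656) (l 16724616))) (a (l 16667416) (l 16702320)))) (a (b (a (b (l 16625248) (l 16628072)) (l 16651680)) (a (l 16629024) (l 16640680))) (b (a (l 16666624) (l 16679312)) (l 16658104)))))))), by decide +kernel⟩

def k2_pp_012_b : ∃ t, chk3 f_pp_012_b t 3 3 1 = true :=
  ⟨(b (a (b (a (l 1) (b (a (l 1) (b (l 1) (l 156799426583))) (a (l 362421143319) (b (l 16653024) (l 16698440))))) (a (a (b (l 1) (l 359199393623)) (b (l 178274472727) (l 16523912))) (a (b (l 16658840) (l 16526424)) (b (l 16667008) (l 16534928))))) (b (a (b (a (b (a (l 16533968) (l 16572208)) (l 16560768)) (b (a (l 16609784) (l 16621664)) (l 16630144))) (a (b (l 16652824) (l 16679616)) (b (l 16645664) (l 16663728)))) (b (a (b (l 16632512) (l 16635992)) (b (l 16650224) (l 16648152))) (a (l 16628232) (l 16652760)))) (a (a (b (l 16658224) (l 16525728)) (b (l 16692512)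 (l 16553496))) (b (a (l 16673344) (l 16664512)) (b (l 16606728) (l 16459648)))))) (b (a (a (a (b (l 146598145383) (l 16160296)) (l 16097856)) (b (l 16277440) (l 16157296))) (a (b (l 16312984) (l 16168840)) (b (a (l 16352776) (l 16343120)) (l 16157552)))) (a (a (a (b (l 15988816) (l 15827192)) (l 15900680)) (b (l 15983136) (l 15819224))) (a (b (l 15992008) (l 15825840)) (b (l 15977792) (l 15809208)))))), by decide +kernel⟩

theorem s3_pp_012_b : ∃ t, chk3 f_pp_012_b t 3 1 1 = true := ex3_b k1_pp_012_b k2_pp_012_b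

theorem s4_pp_012_b : ∃ t, chk3 f_pp_012_b t 1 1 1 = true := ex3_a k0_pp_012_b s3_pp_012_b

theorem c_pp_012_b : CertB 0 536870912 1239849684 370763052 1033476505 6710887 3 eng mog cd0q0 cd1q2b pd1 false true true .pnp 0 1 2
    ndB0q0 ndB1q2b pcB1 cut_pp_012_b Ext.none :=
  certB1 (fam := false) (s1 := true) (s2 := true) (a := 0) (b := 1) (c := 2) (cn := .pnp) (n1 := ndB0q0) (n2 := ndB1q2b) (pc := pcB1) (cut := cut_pp_012_b) (xt := Ext.none) (P1 := 0) (W1 := 536870912) (P2 := 1239849684) (W2 := 370763052) (P3 := 1033476505) (W3 := 6710887) (N0 := 3) (En := eng) (mo := mog) (C1 := cd0q0) (C2 := cd1q2b) (C3 := pd1)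
    rfl (fun _ => rfl) s4_pp_012_b

noncomputable def cut_pp_022_a : Cut := Cut.of [[⟨0, 0, 0, 33554432⟩, ⟨1, 1, 0, 33554432⟩, ⟨2, 1, 0, 33554432⟩]]

noncomputable def f_pp_022_a : ℕ → ℕ → ℕ → ℕ → Bool := onCell 0 536870912 0 536870912 1033476505 6710887
    (rowB 3 eng mog cd0q0 cd1q2a pd2 0 false true true .pp 0 2 2 (qsf 0 536870912 0 536870912 2) ndB0q0 ndB1q2a pcB2 cut_pp_022_a Ext.none)

def k0_pp_022_a : ∃ t, chk3 f_pp_022_a t 2 2 1 = true :=
  ⟨(a (a (b (a (l 16107560) (l 16095424)) (a (b (l 16078472) (l 16093944)) (b (l 16157824) (a (l 16168568) (l 16215176))))) (a (b (a (l 16179808) (b (l 16176328) (l 16185992))) (a (b (l 16199072) (l 16247376)) (b (l 16211688) (a (l 16258200) (l 16275328))))) (b (a (a (l 16212392) (l 16258144)) (b (l 16324296) (l 16349104))) (a (b (a (l 16252928) (l 16304400)) (a (l 16315576) (l 16370872))) (b (a (l 16360608) (l 16420512)) (b (a (l 16408952) (l 16471560)) (a (l 16454472) (l 391411788375)))))))) (a (b (b (a (a (l 16432896) (a (l 16515208)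 (l 16548296))) (l 1)) (a (a (a (l 16435520) (l 16493792)) (a (l 16509904) (l 367252846503))) (l 1))) (a (b (a (a (b (l 16467680) (l 16497232)) (b (l 16528480) (l 384432573143))) (b (l 426308567559) (l 526166612071))) (a (a (b (l 410739188215) (a (l 360810367943) (l 1))) (b (a (l 372621559143) (l 1)) (l 1))) (l 1))) (l 1))) (l 1))), by decide +kernel⟩

def k1_pp_022_a : ∃ t, chk3 f_pp_022_a t 4 6 1 = true :=
  ⟨(a (a (b (a (l 16130616) (l 16186992)) (b (a (l 16218032) (l 16281984)) (a (l 16303960) (l 16372872)))) (a (b (l 16247168) (b (l 16349344) (l 16423944))) (b (l 16198152) (b (l 16411984) (b (l 16484424) (l 16540488)))))) (a (b (a (b (l 16313456) (l 16377080)) (a (b (l 16328984) (l 16395712)) (b (l 16349136) (l 16417856)))) (a (b (l 16438400) (b (l 16534944) (l 243772455639))) (b (a (l 16439104) (l 357588877767)) (b (a (l 385506342071) (l 1)) (l 1))))) (a (b (a (b (l 16392312) (l 342556402599)) (b (l 16450448) (l 464963089175))) (b (a (b (l 424160947655) (l 1)) (l 1)) (l 1)))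 (b (b (a (l 381748086695) (b (l 398391341879) (l 1))) (l 1)) (l 1))))), by decide +kernel⟩

def k2_pp_022_a : ∃ t, chk3 f_pp_022_a t 4 7 1 = true :=
  ⟨(a (b (b (a (a (b (l 16384864) (l 16447976)) (b (l 16457424) (l 16522912))) (a (b (l 16532896) (l 16558680)) (b (l 16561240) (b (l 16612816) (l 101501904167))))) (a (a (b (l 16476960) (a (l 16537664) (l 16575592))) (b (l 16554224) (b (l 16614504) (a (l 16636960) (l 16673632))))) (a (b (a (l 16614240) (l 16653544)) (a (b (l 16692672) (l 16644552)) (b (l 16663896) (a (l 345241272135) (l 1))))) (b (a (l 305512846631) (l 1127999132039)) (b (l 652331382215) (l 1)))))) (a (b (a (b (a (b (b (l 16628840) (l 16635680)) (l 16625424)) (b (b (l 16645216) (l 16673536)) (l 16665144))) (l 6)) (b (b (a (l 16667864) (l 16682032)) (a (l 16686640) (a (l 16707592) (l 16670152)))) (a (l 6) (a (l 6) (a (l 6) (a (l 6) (l 1))))))) (a (l 6) (a (l 6) (l 1)))) (b (a (b (a (b (a (l 16680712) (l 541199179911)) (a (l 543883544951) (l 1))) (l 1)) (l 1)) (l 1))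 (l 1)))) (b (a (b (a (b (a (l 16604240) (b (l 16619296) (l 1))) (l 648036520711)) (l 1)) (l 1)) (l 1)) (l 1))), by decide +kernel⟩

def k3_pp_022_a : ∃ t, chk3 f_pp_022_a t 5 3 1 = true :=
  ⟨(b (l 1) (l 1)), by decide +kernel⟩

def k4_pp_022_a : ∃ t, chk3 f_pp_022_a t 3 1 1 = true :=
  ⟨(l 1), by decide +kernel⟩

theorem s5_pp_022_a : ∃ t, chk3 f_pp_022_a t 4 3 1 = true := ex3_b k1_pp_022_a k2_pp_022_a

theorem s6_pp_022_a : ∃ t, chk3 f_pp_022_a t 2 3 1 = true := ex3_a s5_pp_022_a k3_pp_022_a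

theorem s7_pp_022_a : ∃ t, chk3 f_pp_022_a t 2 1 1 = true := ex3_b k0_pp_022_a s6_pp_022_a

theorem s8_pp_022_a : ∃ t, chk3 f_pp_022_a t 1 1 1 = true := ex3_a s7_pp_022_a k4_pp_022_a

theorem c_pp_022_a : CertB 0 536870912 0 536870912 1033476505 6710887 3 eng mog cd0q0 cd1q2a pd2 false true true .pp 0 2 2
    ndB0q0 ndB1q2a pcB2 cut_pp_022_a Ext.none :=
  certB0 (fam := false) (s1 := true) (s2 := true) (a := 0) (b := 2) (c := 2) (cn := .pp) (n1 := ndB0q0) (n2 := ndB1q2a) (pc := pcB2) (cut := cut_pp_022_a) (xt := Ext.none) (P1 := 0) (W1 := 536870912) (P2 := 0) (W2 := 536870912) (P3 := 1033476505) (W3 := 6710887) (N0 := 3) (En := eng) (mo := mog) (C1 := cd0q0) (C2 := cd1q2a) (C3 := pd2)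
    rfl s8_pp_022_a

noncomputable def cut_pp_022_b : Cut := Cut.of [[⟨0, 0, 0, 33554432⟩, ⟨1, 1, 0, 33554432⟩, ⟨2, 1, 0, 33554432⟩]]

noncomputable def f_pp_022_b : ℕ → ℕ → ℕ → ℕ → Bool := onCell 0 536870912 1073741824 536870912 1033476505 6710887
    (rowB 3 eng mog cd0q0 cd1q2b pd2 1 false true true .pp 0 2 2 (qsf 0 536870912 1239849684 370763052 2) ndB0q0 ndB1q2b pcB2 cut_pp_022_b Ext.none)

def k0_pp_022_b : ∃ t, chk3 f_pp_022_b t 1 1 1 = true :=
  ⟨(b (a (a (a (b (b (l 1) (a (l 289942205895) (l 303364133175))) (a (b (l 16141624) (l 16233768)) (b (l 16225064) (l 16259288)))) (a (b (b (a (l 1) (l 265783174023)) (a (l 16191568) (l 16198192))) (b (a (l 16249848) (l 16249768)) (l 16174720))) (b (a (b (a (l 270615109847) (l 265246505863)) (l 16213096)) (b (l 274910269207) (l 16360800))) (a (b (l 16299720) (l 16094320)) (l 16155888))))) (a (b (a (b (a (l 284037313495) (b (l 16470624) (l 16551952))) (l 16225512)) (b (b (a (l 16484680) (l 16397472)) (l 16257008)) (l 16083272))) (a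 (b (l 16149376) (l 15890656)) (b (l 15963224) (l 15743384)))) (b (b (a (b (a (l 16304096) (l 16208576)) (l 16152480)) (b (a (l 16135632) (l 16088696)) (l 16019800))) (a (l 16005480) (l 15890720))) (a (l 15574552) (l 15640880))))) (a (a (b (a (b (a (b (l 16066816) (l 15981608)) (b (l 16055912) (l 15971760))) (l 15849104)) (b (b (l 16044248) (l 15961352)) (l 15840528))) (a (l 15611576) (l 15604584))) (b (b (a (b (l 16037152) (l 15955200)) (b (l 16034968) (l 15953520))) (l 15834768)) (b (l 15677824) (l 15522048)))) (b (a (b (a (b (l 16032848) (l 15951920)) (b (l 16026592) (l 15946688))) (l 15831480)) (b (a (b (l 16012648) (l 15934824)) (b (l 15989432) (l 15915160))) (l 15770408))) (a (b (l 15674528) (l 2)) (l 2))))) (a (a (b (a (b (a (l 16040744) (l 15942768)) (l 15571128)) (a (b (l 15864584) (l 15561168)) (a (l 15542016) (l 15590800)))) (a (b (l 15370784) (l 15083048)) (a (b (l 15267296) (l 14993248)) (b (l 15203608) (l 2))))) (b (a (b (l 15516176) (l 15349752)) (b (l 15418152) (l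 15252416))) (a (b (l 15129320) (l 2)) (l 2)))) (b (a (a (a (l 15303440) (l 2)) (l 2)) (l 2)) (l 2)))), by decide +kernel⟩

theorem c_pp_022_b : CertB 0 536870912 1239849684 370763052 1033476505 6710887 3 eng mog cd0q0 cd1q2b pd2 false true true .pp 0 2 2
    ndB0q0 ndB1q2b pcB2 cut_pp_022_b Ext.none :=
  certB1 (fam := false) (s1 := true) (s2 := true) (a := 0) (b := 2) (c := 2) (cn := .pp) (n1 := ndB0q0) (n2 := ndB1q2b) (pc := pcB2) (cut := cut_pp_022_b) (xt := Ext.none) (P1 := 0) (W1 := 536870912) (P2 := 1239849684) (W2 := 370763052) (P3 := 1033476505) (W3 := 6710887) (N0 := 3) (En := eng) (mo := mog) (C1 := cd0q0) (C2 := cd1q2b) (C3 := pd2)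
    rfl (fun _ => rfl) k0_pp_022_b

noncomputable def f_pp_023 : ℕ → ℕ → ℕ → ℕ → Bool := onCell 0 536870912 1073741824 536870912 1033476505 6710887
    (rowB 3 eng mog cd0q0 cd1q3 pd2 1 false true true .up 0 2 3 (qsf 0 536870912 1610612736 536870912 2) ndB0q0 ndB1q3 pcB2 Cut.none Ext.none)

def k0_pp_023 : ∃ t, chk3 f_pp_023 t 1 1 1 = true :=
  ⟨(b (a (a (l 1) (a (l 1) (b (l 1) (a (l 1) (l 15723600))))) (a (a (b (l 1) (a (l 15620888) (l 15769904))) (b (b (l 1) (l 15909792)) (b (l 15836088) (l 15655464)))) (b (a (b (l 316785818471) (l 15861792)) (b (a (l 288331665735) (b (l 16143752) (l 16057192))) (a (l 15956016) (l 15927320)))) (a (b (l 15805808) (l 15621904)) (b (l 15764272) (l 15584992)))))) (a (a (b (a (l 1) (a (l 1) (a (l 1) (l 15774608)))) (a (b (l 15490240) (l 15223144)) (a (b (l 15433304) (l 15135304)) (b (l 15357784) (l 15076448))))) (b (a (b (l 15572760) (l 15510576)) (b (l 15579608) (l 15388784))) (a (b (l 15265192) (l 15040456)) (b (l 15204168) (l 15042080))))) (b (a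 (a (a (l 15432248) (l 15411192)) (l 15380984)) (a (l 15343592) (l 15147520))) (a (a (b (l 15170168) (l 15026560)) (l 15039792)) (a (l 15006904) (b (l 15073960) (l 14942352))))))), by decide +kernel⟩

theorem c_pp_023 : CertB 0 536870912 1610612736 536870912 1033476505 6710887 3 eng mog cd0q0 cd1q3 pd2 false true true .up 0 2 3
    ndB0q0 ndB1q3 pcB2 Cut.none Ext.none :=
  certB1 (fam := false) (s1 := true) (s2 := true) (a := 0) (b := 2) (c := 3) (cn := .up) (n1 := ndB0q0) (n2 := ndB1q3) (pc := pcB2) (cut := Cut.none) (xt := Ext.none) (P1 := 0) (W1 := 536870912) (P2 := 1610612736) (W2 := 536870912) (P3 := 1033476505) (W3 := 6710887) (N0 := 3) (En := eng) (mo := mog) (C1 := cd0q0) (C2 := cd1q3) (C3 := pd2)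
    rfl (fun _ => rfl) k0_pp_023

noncomputable def f_pp_033 : ℕ → ℕ → ℕ → ℕ → Bool := onCell 0 536870912 1610612736 536870912 1033476505 6710887
    (rowB 3 eng mog cd0q0 cd1q3 pd3 1 false true true .pnn 0 3 3 (qsf 0 536870912 1610612736 536870912 3) ndB0q0 ndB1q3 pcB3 Cut.none Ext.none)

def k0_pp_033 : ∃ t, chk3 f_pp_033 t 1 1 1 = true :=
  ⟨(a (b (b (a (a (b (b (l 14972552) (l 15198584)) (b (l 15421392) (l 15395824))) (b (a (b (l 14907280) (l 15137496)) (b (l 14872496) (l 15115400))) (a (b (l 15371752) (l 15454272)) (b (l 15363872) (l 15556024))))) (b (a (b (l 14886560) (l 15167200)) (l 15009840)) (a (b (l 15457104) (l 15744184)) (l 15515520)))) (b (a (a (b (l 15076560) (a (l 14839008) (l 15021216))) (a (b (l 15284248) (l 15166768)) (b (l 15444328) (l 15384336)))) (a (b (l 15885144) (l 15907136)) (b (l 16263184) (l 16440360)))) (l 4))) (a (l 4) (b (l 4) (a (b (l 4) (l 2)) (l 2))))) (b (a (b (b (a (b (l 14901400) (l 15256120)) (l 14978832)) (a (b (l 15619184) (l 15989520)) (b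 (l 15557728) (l 15950376)))) (b (a (b (l 16357192) (l 16627792)) (b (l 16348368) (l 16637712))) (l 4))) (b (b (b (a (l 14748368) (l 14757104)) (a (l 15112232) (l 15165488))) (a (b (l 15533832) (l 15982048)) (b (l 15646872) (l 2)))) (a (b (b (l 16401712) (l 2)) (l 2)) (l 2)))) (a (b (a (b (l 4) (l 2)) (l 2)) (l 2)) (l 2)))), by decide +kernel⟩

theorem c_pp_033 : CertB 0 536870912 1610612736 536870912 1033476505 6710887 3 eng mog cd0q0 cd1q3 pd3 false true true .pnn 0 3 3
    ndB0q0 ndB1q3 pcB3 Cut.none Ext.none :=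
  certB1 (fam := false) (s1 := true) (s2 := true) (a := 0) (b := 3) (c := 3) (cn := .pnn) (n1 := ndB0q0) (n2 := ndB1q3) (pc := pcB3) (cut := Cut.none) (xt := Ext.none) (P1 := 0) (W1 := 536870912) (P2 := 1610612736) (W2 := 536870912) (P3 := 1033476505) (W3 := 6710887) (N0 := 3) (En := eng) (mo := mog) (C1 := cd0q0) (C2 := cd1q3) (C3 := pd3)
    rfl (fun _ => rfl) k0_pp_033

noncomputable def f_pp_101 : ℕ → ℕ → ℕ → ℕ → Bool := onCell 536870912 536870912 536870912 536870912 1033476505 6710887
    (rowB 3 eng mog cd0q1 cd1q1 pd0 0 false true true .npn 1 0 1 (qsf 536870912 536870912 536870912 536870912 0) ndB0q1 ndB1q1 pcB0 Cut.none Ext.none)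

def k0_pp_101 : ∃ t, chk3 f_pp_101 t 1 1 1 = true :=
  ⟨(l 3), by decide +kernel⟩

theorem c_pp_101 : CertB 536870912 536870912 536870912 536870912 1033476505 6710887 3 eng mog cd0q1 cd1q1 pd0 false true true .npn 1 0 1
    ndB0q1 ndB1q1 pcB0 Cut.none Ext.none :=
  certB0 (fam := false) (s1 := true) (s2 := true) (a := 1) (b := 0) (c := 1) (cn := .npn) (n1 := ndB0q1) (n2 := ndB1q1) (pc := pcB0) (cut := Cut.none) (xt := Ext.none) (P1 := 536870912) (W1 := 536870912) (P2 := 536870912) (W2 := 536870912) (P3 := 1033476505) (W3 := 6710887) (N0 := 3) (En := eng) (mo := mog) (C1 := cd0q1) (C2 := cd1q1) (C3 := pd0)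
    rfl k0_pp_101

noncomputable def f_pp_102_a : ℕ → ℕ → ℕ → ℕ → Bool := onCell 0 536870912 0 536870912 1033476505 6710887
    (rowB 3 eng mog cd0q1 cd1q2a pd0 2 false true true .npp 1 0 2 (qsf 536870912 536870912 0 536870912 0) ndB0q1 ndB1q2a pcB0 Cut.none Ext.none)

def k0_pp_102_a : ∃ t, chk3 f_pp_102_a t 1 1 1 = true :=
  ⟨(a (b (l 3) (l 3)) (l 3)), by decide +kernel⟩

theorem c_pp_102_a : CertB 536870912 536870912 0 536870912 1033476505 6710887 3 eng mog cd0q1 cd1q2a pd0 false true true .npp 1 0 2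
    ndB0q1 ndB1q2a pcB0 Cut.none Ext.none :=
  certB2 (fam := false) (s1 := true) (s2 := true) (a := 1) (b := 0) (c := 2) (cn := .npp) (n1 := ndB0q1) (n2 := ndB1q2a) (pc := pcB0) (cut := Cut.none) (xt := Ext.none) (P1 := 536870912) (W1 := 536870912) (P2 := 0) (W2 := 536870912) (P3 := 1033476505) (W3 := 6710887) (N0 := 3) (En := eng) (mo := mog) (C1 := cd0q1) (C2 := cd1q2a) (C3 := pd0)
    rfl (fun _ => rfl) k0_pp_102_a

noncomputable def f_pp_102_b : ℕ → ℕ → ℕ → ℕ → Bool := onCell 536870912 536870912 0 536870912 1033476505 6710887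
    (rowB 3 eng mog cd0q1 cd1q2b pd0 1 false true true .npp 1 0 2 (qsf 536870912 536870912 1239849684 370763052 0) ndB0q1 ndB1q2b pcB0 Cut.none Ext.none)

def k0_pp_102_b : ∃ t, chk3 f_pp_102_b t 1 1 1 = true :=
  ⟨(l 3), by decide +kernel⟩

theorem c_pp_102_b : CertB 536870912 536870912 1239849684 370763052 1033476505 6710887 3 eng mog cd0q1 cd1q2b pd0 false true true .npp 1 0 2
    ndB0q1 ndB1q2b pcB0 Cut.none Ext.none :=
  certB1 (fam := false) (s1 := true) (s2 := true) (a := 1) (b := 0) (c := 2) (cn := .npp) (n1 := ndB0q1) (n2 := ndB1q2b) (pc := pcB0) (cut := Cut.none) (xt := Ext.none) (P1 := 536870912) (W1 := 536870912) (P2 := 1239849684) (W2 := 370763052) (P3 := 1033476505) (W3 := 6710887) (N0 := 3) (En := eng) (mo := mog) (C1 := cd0q1) (C2 := cd1q2b) (C3 := pd0)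
    rfl (fun _ => rfl) k0_pp_102_b

noncomputable def f_pp_112_a : ℕ → ℕ → ℕ → ℕ → Bool := onCell 536870912 536870912 0 536870912 1033476505 6710887
    (rowB 3 eng mog cd0q1 cd1q2a pd1 0 false true true .dn 1 1 2 (qsf 536870912 536870912 0 536870912 1) ndB0q1 ndB1q2a pcB1 Cut.none Ext.none)

def k0_pp_112_a : ∃ t, chk3 f_pp_112_a t 1 1 1 = true :=
  ⟨(a (a (b (l 3) (l 3)) (l 3)) (l 1)), by decide +kernel⟩

theorem c_pp_112_a : CertB 536870912 536870912 0 536870912 1033476505 6710887 3 eng mog cd0q1 cd1q2a pd1 false true true .dn 1 1 2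
    ndB0q1 ndB1q2a pcB1 Cut.none Ext.none :=
  certB0 (fam := false) (s1 := true) (s2 := true) (a := 1) (b := 1) (c := 2) (cn := .dn) (n1 := ndB0q1) (n2 := ndB1q2a) (pc := pcB1) (cut := Cut.none) (xt := Ext.none) (P1 := 536870912) (W1 := 536870912) (P2 := 0) (W2 := 536870912) (P3 := 1033476505) (W3 := 6710887) (N0 := 3) (En := eng) (mo := mog) (C1 := cd0q1) (C2 := cd1q2a) (C3 := pd1)
    rfl k0_pp_112_a

noncomputable def f_pp_112_b : ℕ → ℕ → ℕ → ℕ → Bool := onCell 536870912 536870912 536870912 536870912 1033476505 6710887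
    (rowB 3 eng mog cd0q1 cd1q2b pd1 1 false true true .dn 1 1 2 (qsf 536870912 536870912 1239849684 370763052 1) ndB0q1 ndB1q2b pcB1 Cut.none Ext.none)

def k0_pp_112_b : ∃ t, chk3 f_pp_112_b t 1 1 1 = true :=
  ⟨(a (b (b (l 3) (a (b (a (b (l 3) (b (l 3) (a (b (l 3) (l 243907060391)) (l 3)))) (l 3)) (a (b (a (b (a (b (l 16746824) (l 16733264)) (l 199346747639)) (l 16673040)) (b (l 3) (l 16694968))) (a (b (l 16692144) (l 16675448)) (b (l 16699264) (l 16683504)))) (b (l 3) (a (b (l 16694792) (l 16683792)) (l 16681920))))) (l 3))) (b (b (a (a (b (a (l 16661184) (l 16667712)) (a (l 16656976) (l 16658048))) (b (a (l 16669848) (l 16668760)) (l 16658152))) (b (a (a (l 16666976) (l 16668528)) (l 3)) (a (a (l 16660184) (l 16665496)) (l 16653440)))) (a (b (a (l 16654624) (l 16643760)) (a (l 16510104) (l 16535112))) (b (a (l 16586760) (l 16622728)) (a (a (l 16557248) (l 16554680)) (l 2))))) (b (a (b (a (l 16208408) (l 16273016)) (a (l 16129992) (l 15962336))) (b (a (a (l 16340088) (l 2))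 (l 2)) (l 2))) (a (a (l 15711280) (a (l 15833904) (l 2))) (l 2))))) (b (l 3) (b (b (l 3) (l 2)) (l 2)))), by decide +kernel⟩

theorem c_pp_112_b : CertB 536870912 536870912 1239849684 370763052 1033476505 6710887 3 eng mog cd0q1 cd1q2b pd1 false true true .dn 1 1 2
    ndB0q1 ndB1q2b pcB1 Cut.none Ext.none :=
  certB1 (fam := false) (s1 := true) (s2 := true) (a := 1) (b := 1) (c := 2) (cn := .dn) (n1 := ndB0q1) (n2 := ndB1q2b) (pc := pcB1) (cut := Cut.none) (xt := Ext.none) (P1 := 536870912) (W1 := 536870912) (P2 := 1239849684) (W2 := 370763052) (P3 := 1033476505) (W3 := 6710887) (N0 := 3) (En := eng) (mo := mog) (C1 := cd0q1) (C2 := cd1q2b) (C3 := pd1)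
    rfl (fun _ => rfl) k0_pp_112_b

noncomputable def cut_pp_113 : Cut := Cut.of [[⟨0, 1, 0, 20971520⟩, ⟨1, 1, 0, 20971520⟩, ⟨2, 2, 0, 1572864⟩]]

noncomputable def xt_pp_113 : Ext := extD3 3 ⟨4, 1, 1, 5, 27, 5, 41, 50, 81, 200, 1, 64⟩ eng cd0q1 cd1q3 pd1 false true true .nn 1 1 3 rfl ndB0q1 ndB1q3 pcB1

noncomputable def f_pp_113 : ℕ → ℕ → ℕ → ℕ → Bool := onCell 536870912 536870912 536870912 536870912 1033476505 6710887
    (rowB 3 eng mog cd0q1 cd1q3 pd1 1 false true true .nn 1 1 3 (qsf 536870912 536870912 1610612736 536870912 1) ndB0q1 ndB1q3 pcB1 cut_pp_113 xt_pp_113)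

def k0_pp_113 : ∃ t, chk3 f_pp_113 t 2 1 1 = true :=
  ⟨(a (b (l 1) (a (b (l 1) (b (b (l 1) (l 16247424)) (l 77340888343))) (b (b (l 1) (b (l 1) (l 16438184))) (b (b (l 16402072) (b (l 16251152) (l 16149480))) (b (l 16019136) (l 15848792)))))) (b (l 3) (b (b (a (b (l 1) (a (l 1) (l 16489832))) (b (l 3) (l 84992746727))) (b (a (a (l 16468896) (l 16489376)) (a (l 16511272) (l 16527904))) (a (a (l 16447432) (l 16465496)) (b (l 16509080) (l 16483504))))) (b (b (a (a (l 16393248) (l 16393144)) (a (l 16384440) (l 16385168))) (a (a (l 16148808) (l 16107224)) (a (l 16047720) (l 15955304)))) (b (a (b (l 15957432) (l 15903712)) (b (l 15805000) (l 15814112))) (a (l 15776640) (a (l 15723072) (l 15704176)))))))), by decide +kernel⟩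

def k1_pp_113 : ∃ t, chk3 f_pp_113 t 3 2 1 = true :=
  ⟨(l 3), by decide +kernel⟩

def k2_pp_113 : ∃ t, chk3 f_pp_113 t 3 6 1 = true :=
  ⟨(a (b (l 3) (a (b (l 92508911751) (b (l 16551448) (l 16526320))) (l 3))) (l 3)), by decide +kernel⟩

def k3_pp_113 : ∃ t, chk3 f_pp_113 t 6 7 1 = true :=
  ⟨(b (a (b (a (l 16391576) (l 16336376)) (b (a (l 16190568) (l 16191648)) (a (l 16056616) (l 16051728)))) (b (a (b (l 16460824) (l 16335336)) (a (l 16391312) (l 3))) (a (b (l 16189528) (l 16043432)) (b (a (l 16183528) (l 16163016)) (a (l 16033064) (l 16011656)))))) (b (a (b (a (l 15934792) (l 15924888)) (a (l 15841144) (l 15834112))) (a (b (b (l 15943536) (l 15884968)) (l 15824184)) (b (a (l 15834696) (b (l 15908080) (l 15848568))) (a (l 15813568) (l 15794224))))) (a (a (l 15695968) (l 15691536)) (a (l 15541136) (a (l 15683336) (b (l 15716904) (l 15621568))))))), by decide +kernel⟩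

def k4_pp_113 : ∃ t, chk3 f_pp_113 t 7 14 1 = true :=
  ⟨(a (b (l 3) (a (b (a (l 16117368) (l 3)) (a (l 15970184) (l 15914704))) (a (l 3) (l 3)))) (l 3)), by decide +kernel⟩

def k5_pp_113 : ∃ t, chk3 f_pp_113 t 14 15 1 = true :=
  ⟨(b (a (b (b (a (l 15867800) (l 15817144)) (a (l 15809656) (l 15763104))) (b (a (l 15774680) (l 15733896)) (a (l 15747824) (l 15713824)))) (b (a (b (l 15764616) (l 15717344)) (b (l 3) (a (l 15690232) (l 3)))) (b (a (l 15697752) (a (l 15679912) (l 15675792))) (a (l 15688808) (l 15684640))))) (a (a (b (l 15690448) (l 15601064)) (b (l 15665960) (l 15589000))) (b (a (l 15658432) (b (l 15685984) (l 15684168))) (a (l 15606864) (l 15684136))))), by decide +kernel⟩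

def k6_pp_113 : ∃ t, chk3 f_pp_113 t 15 30 1 = true :=
  ⟨(a (b (l 3) (a (b (a (l 15681424) (l 3)) (l 2884497005732715949934379039)) (a (l 3) (l 3)))) (l 3)), by decide +kernel⟩

def k7_pp_113 : ∃ t, chk3 f_pp_113 t 30 31 1 = true :=
  ⟨(a (b (a (l 15742368) (b (l 15781920) (l 15833248))) (a (l 15808152) (l 15937864))) (b (a (b (l 135646300974252063) (a (l 15913928) (l 15980080))) (b (l 5215305985954765008961191951) (l 138047222528147471))) (a (b (l 16051224) (l 16191744)) (l 139833585865129999)))), by decide +kernel⟩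

def k8_pp_113 : ∃ t, chk3 f_pp_113 t 31 62 1 = true :=
  ⟨(b (l 3) (a (a (a (b (l 5689204907244275927425875983) (l 138869520399941647)) (b (l 3) (b (a (l 159080806807) (l 3)) (c (l 2652383248377389867902140623) (l 3135953576221531865617891407))))) (b (l 3) (a (l 3) (l 3)))) (l 3))), by decide +kernel⟩

def k9_pp_113 : ∃ t, chk3 f_pp_113 t 62 63 1 = true :=
  ⟨(a (b (a (l 140895164563914767) (b (c (l 142818210759999695) (l 141010063564308559)) (l 16739864))) (l 16690320)) (b (a (a (b (c (a (l 2439612304126315881889480911) (l 2168812920532577717702951119)) (l 2139798700860920894687051983)) (l 16761264)) (b (b (a (b (l 3) (c (l 1917356350052798002645614799) (l 2062427448406620436291928271))) (l 3)) (c (l 2478297930354023185682956495) (c (l 2507312150024825619324584143) (l 2410598084455304815922102479)))) (l 16747336))) (b (b (l 3) (a (b (a (c (b (l 3) (l 88214624967)) (c (l 1424114615650109288880308431) (l 1569185714003897706391650511))) (l 3)) (c (c (l 2178484327089607932193587279)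 (l 2178484327089639199555256399)) (c (l 2178484327089671154111693007) (l 2178484327089702421473345743)))) (l 3))) (a (b (b (c (l 144062926906490959) (c (l 144113504419430607) (l 2981211071313821828464148687))) (l 16778248)) (l 16769696)) (a (b (c (l 2458955117240241345695629391) (c (l 2478297930354138565689966671) (b (l 2188155733646659106012086351) (l 16783320)))) (l 16774968)) (b (b (b (l 3) (c (l 86604010487) (c (l 87140881079) (l 1569185714003965395157352527)))) (c (l 2584683402480207584971849807) (c (l 2604026215593992448621412431) (l 2623369028707853865768173647)))) (l 144160027494006863)))))) (b (l 143872024106664015) (l 16726488)))), by decide +kernel⟩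

def k10_pp_113 : ∃ t, chk3 f_pp_113 t 126 63 1 = true :=
  ⟨(b (b (l 3) (a (a (b (b (l 3) (a (c (b (l 71034755479) (l 2168812920532776248391549007)) (c (b (l 3058582323769162906032242767) (l 2168812920532829231108079695)) (l 1830313691040718974696980559))) (l 3))) (b (c (a (l 144066843918286927) (c (l 2246184172988111553494859855) (l 2255855579545052776148074575))) (c (l 2458955117240328894310924367) (c (l 2468626523797269704647327823) (a (l 144137350111363151) (l 2275198392658943399072186447))))) (c (l 16770128) (l 144162432679444559)))) (b (l 3) (b (b (l 3) (a (a (c (l 103247005495) (c (l 103783876247) (l 1868999317268435830398271567))) (l 3)) (l 3))) (a (c (l 2623369028707913033234333775) (c (l 2633040435264850132718813263) (l 2642711841821788194276081743))) (c (b (a (l 80698427495) (l 3)) (l 2246184172988151410791989327)) (a (c (l 2091441668077503959038509135) (l 2101113074634440440047861839)) (b (l 3) (l 1907684943496096748441092175)))))))) (a (a (b (l 3) (l 3)) (l 3)) (l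 3)))) (a (b (b (a (l 16771480) (a (l 16768312) (b (c (l 144094744031379535) (c (l 144124568283873359) (l 144143741018275919))) (l 16776352)))) (l 16741928)) (l 16745904)) (b (b (a (a (b (c (c (l 2352569645114242076695134287) (l 2362241051671175740205760591)) (b (l 1994727602508346338164867151) (l 2797454346732456742910017615))) (l 144140030149787727)) (b (a (b (l 3) (c (l 109152580199) (l 1965713382837607057722671183))) (l 3)) (c (l 2710411687720188667637743695) (b (l 2507312150024963608044142671) (l 16780936))))) (a (b (l 3) (b (a (c (l 190756959191) (l 3387410146704389526700654671)) (l 3)) (c (a (l 151028505831) (l 112910673959)) (l 2400926677898854112998850639)))) (a (l 3) (l 3)))) (a (l 144046846503206991) (b (c (a (l 16774640) (b (a (l 138680474999) (l 173577087543)) (l 160155305863))) (a (l 144094537868656719) (b (a (l 138680474631) (b (l 3) (l 101099514135))) (l 2874825599187785382224183375)))) (l 144052069211635791)))) (l 143695277632143439)))), by decide +kernel⟩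

def k11_pp_113 : ∃ t, chk3 f_pp_113 t 127 126 1 = true :=
  ⟨(l 3), by decide +kernel⟩

def k12_pp_113 : ∃ t, chk3 f_pp_113 t 127 254 1 = true :=
  ⟨(a (b (l 3) (b (a (a (a (b (l 3) (c (l 178408922823) (b (l 159081565975) (l 137606733239)))) (l 3)) (l 3)) (l 3)) (c (a (a (b (l 2807125753289333094373048399) (l 16778768)) (b (a (l 310479167527) (l 3)) (a (l 168208370199) (b (l 320142847799) (l 141364827463))))) (l 640654776071)) (a (a (l 2865154192630853711572058191) (b (a (b (l 3) (l 206326210391)) (l 3)) (a (l 168745240791) (b (l 322290320727) (l 141364827175))))) (a (l 410874017495) (l 3)))))) (l 3)), by decide +kernel⟩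

def k13_pp_113 : ∃ t, chk3 f_pp_113 t 127 510 1 = true :=
  ⟨(b (a (c (a (l 144131646377476175) (a (b (a (b (l 222969206247) (l 16780376)) (l 304036714055)) (l 3232667641793670675396264015)) (a (b (l 3) (b (l 315310996615) (l 239075331335))) (l 393694157239)))) (a (a (l 16774344) (l 144121544616951887)) (a (b (a (b (l 3938680320448630056350367823) (l 16780232)) (b (l 3) (a (l 220284851783) (l 3)))) (l 3222996235236768004367581263)) (b (l 3) (a (b (l 317458480071) (l 4219151110599215984700768335)) (b (l 3) (l 351281347751))))))) (l 3)) (a (a (l 16770488) (a (l 16769648) (b (b (a (l 16777424) (a (c (l 242296556999) (l 152102243479)) (c (l 321216585063) (l 323900934199)))) (c (l 3484124212273508595926302799) (l 144158103386046543))) (l 144090552141807695)))) (a (a (b (a (b (l 3) (a (c (l 236390977127) (l 4074080012245451687643660367)) (l 320679711655))) (l 3)) (a (b (a (l 16778840) (c (l 244444039447) (l 243907168359))) (l 16777856)) (b (a (c (l 317458482231) (l 320142836647)) (l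 3)) (a (c (l 186461979815) (l 183240754071)) (b (l 327122160535) (a (l 184851368423) (l 236390976711))))))) (a (c (l 608442514455) (l 610589998135)) (l 3))) (l 3)))), by decide +kernel⟩

def k14_pp_113 : ∃ t, chk3 f_pp_113 t 127 511 1 = true :=
  ⟨(a (l 143917585164157007) (a (b (a (b (c (l 144128072965832783) (l 144117009129816143)) (l 16773968)) (b (a (b (a (c (b (l 355039447655) (l 16778672)) (l 4441593461408290572975718479)) (a (c (l 318532222471) (l 321216576903)) (l 349133867815))) (c (l 4171398382774139911794323039) (l 3503467025387334966146826319))) (b (l 3) (a (a (b (l 362555640519) (l 190220076487)) (c (l 315847869959) (l 6704702595726846495054233695))) (a (b (l 3) (l 329806513655)) (l 3))))) (a (l 16773432) (b (a (l 604308850672189211405919) (c (b (l 318532223511) (l 202031235399)) (b (a (l 258939553255) (l 327659031911)) (l 198810009799)))) (l 16775464))))) (l 144032346724221007)) (a (b (b (l 3) (a (b (a (b (l 3) (c (l 6743388221954512841938108511) (l 6714374002283764078207287391)))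 (l 3)) (b (a (c (l 5244924653554201038474686047) (l 4664035812217371002407092303)) (a (c (l 322290319703) (l 324974675495)) (l 3))) (a (l 16777472) (c (a (l 268066357687) (l 357723800711)) (a (l 266455744855) (c (l 358797542471) (l 6414560399019352672993050703))))))) (a (c (l 612200611639) (l 573545905991)) (l 3)))) (b (a (b (c (l 144122850291482703) (l 144117146574766159)) (l 16775592)) (a (b (c (b (a (c (l 5079906294164785571442491487) (l 5041220667937117781449228383)) (l 6782073848182183518148919391)) (l 4229426892443859115878674015)) (b (a (c (l 4992863635152533301655715935) (l 4499621900749779922818859087)) (l 6753059628511433311309103199)) (l 4277783913410999272963501663))) (l 16775296)) (b (b (l 3) (b (c (l 7845928569443057604207214687) (l 7913628415341478349819215967)) (a (c (l 6704702595726847388406071391) (l 4934835195811031032550408287)) (l 415168986663)))) (b (b (a (l 604401084393244953652831) (a (b (l 6724045408840681936238116959) (l 16777920)) (l 365239993335))) (c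 (l 4287455353979101585616350815) (l 3832294848322500289052655695))) (l 16776312))))) (l 144063682816884815))) (b (l 3) (a (b (b (l 3) (b (a (a (c (l 7081887451446611347316998239) (l 7081887451446612171950669919)) (l 3)) (l 3)) (a (b (c (a (l 5341638720564525520952274527) (l 7091558858003529136628924511)) (a (l 4983796669599915064034307679) (l 7797571536658473605449449567))) (a (l 16777312) (l 6))) (l 6)))) (a (a (l 144094537865068623) (l 6)) (l 6))) (b (l 3) (l 6))))))), by decide +kernel⟩

theorem s15_pp_113 : ∃ t, chk3 f_pp_113 t 127 255 1 = true := ex3_b k13_pp_113 k14_pp_113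

theorem s16_pp_113 : ∃ t, chk3 f_pp_113 t 127 127 1 = true := ex3_b k12_pp_113 s15_pp_113

theorem s17_pp_113 : ∃ t, chk3 f_pp_113 t 127 63 1 = true := ex3_b k11_pp_113 s16_pp_113

theorem s18_pp_113 : ∃ t, chk3 f_pp_113 t 63 63 1 = true := ex3_a k10_pp_113 s17_pp_113

theorem s19_pp_113 : ∃ t, chk3 f_pp_113 t 31 63 1 = true := ex3_a k9_pp_113 s18_pp_113

theorem s20_pp_113 : ∃ t, chk3 f_pp_113 t 31 31 1 = true := ex3_b k8_pp_113 s19_pp_113

theorem s21_pp_113 : ∃ t, chk3 f_pp_113 t 15 31 1 = true := ex3_a k7_pp_113 s20_pp_113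

theorem s22_pp_113 : ∃ t, chk3 f_pp_113 t 15 15 1 = true := ex3_b k6_pp_113 s21_pp_113

theorem s23_pp_113 : ∃ t, chk3 f_pp_113 t 7 15 1 = true := ex3_a k5_pp_113 s22_pp_113

theorem s24_pp_113 : ∃ t, chk3 f_pp_113 t 7 7 1 = true := ex3_b k4_pp_113 s23_pp_113

theorem s25_pp_113 : ∃ t, chk3 f_pp_113 t 3 7 1 = true := ex3_a k3_pp_113 s24_pp_113

theorem s26_pp_113 : ∃ t, chk3 f_pp_113 t 3 3 1 = true := ex3_b k2_pp_113 s25_pp_113

theorem s27_pp_113 : ∃ t, chk3 f_pp_113 t 3 1 1 = true := ex3_b k1_pp_113 s26_pp_113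

theorem s28_pp_113 : ∃ t, chk3 f_pp_113 t 1 1 1 = true := ex3_a k0_pp_113 s27_pp_113

theorem c_pp_113 : CertB 536870912 536870912 1610612736 536870912 1033476505 6710887 3 eng mog cd0q1 cd1q3 pd1 false true true .nn 1 1 3
    ndB0q1 ndB1q3 pcB1 cut_pp_113 xt_pp_113 :=
  certB1 (fam := false) (s1 := true) (s2 := true) (a := 1) (b := 1) (c := 3) (cn := .nn) (n1 := ndB0q1) (n2 := ndB1q3) (pc := pcB1) (cut := cut_pp_113) (xt := xt_pp_113) (P1 := 536870912) (W1 := 536870912) (P2 := 1610612736) (W2 := 536870912) (P3 := 1033476505) (W3 := 6710887) (N0 := 3) (En := eng) (mo := mog) (C1 := cd0q1) (C2 := cd1q3) (C3 := pd1)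
    rfl (fun _ => rfl) s28_pp_113

noncomputable def cut_pp_123 : Cut := Cut.of [[⟨0, 1, 0, 20971520⟩, ⟨1, 1, 0, 20971520⟩, ⟨2, 2, 0, 1572864⟩]]

noncomputable def xt_pp_123 : Ext := extD3 3 ⟨4, 1, 1, 5, 27, 5, 41, 50, 81, 200, 1, 64⟩ eng cd0q1 cd1q3 pd2 false true true .npn 1 2 3 rfl ndB0q1 ndB1q3 pcB2

noncomputable def f_pp_123 : ℕ → ℕ → ℕ → ℕ → Bool := onCell 536870912 536870912 1073741824 536870912 1033476505 6710887
    (rowB 3 eng mog cd0q1 cd1q3 pd2 1 false true true .npn 1 2 3 (qsf 536870912 536870912 1610612736 536870912 2) ndB0q1 ndB1q3 pcB2 cut_pp_123 xt_pp_123)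

def k0_pp_123 : ∃ t, chk3 f_pp_123 t 2 1 1 = true :=
  ⟨(b (a (b (a (b (b (a (l 16105512) (l 16067944)) (l 15984568)) (l 15841672)) (b (b (a (l 16029472) (l 15989016)) (l 15937480)) (l 15808600))) (a (b (l 15719776) (l 15554536)) (b (l 15684632) (l 15539208)))) (b (a (b (a (b (l 15945680) (l 15884160)) (b (l 15898704) (l 15846568))) (a (l 15791624) (l 15768176))) (b (a (b (l 15853720) (l 15812272)) (b (l 15815872) (l 15785064))) (a (l 15750040) (l 15739024)))) (a (b (l 15664224) (l 15550856)) (b (l 15671656) (a (l 15586920) (l 15622224)))))) (a (a (b (l 15308328) (b (l 15097808) (l 14993040))) (b (b (l 15397344) (l 15266464)) (b (l 15154024) (l 15033456)))) (b (a (b (l 15443464) (l 15340064)) (b (l 15523992) (l 15406888))) (a (b (l 15212696) (l 2)) (l 2))))), by decide +kernel⟩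

def k1_pp_123 : ∃ t, chk3 f_pp_123 t 3 1 1 = true :=
  ⟨(b (a (a (b (b (a (b (l 15781824) (l 15762680)) (b (l 15748360) (l 15744048))) (a (l 15734488) (l 15738552))) (b (a (l 15698576) (l 15734136)) (a (l 15659008) (l 15687160)))) (b (a (b (b (l 15714016) (l 15731784)) (l 15759936)) (b (a (b (l 15689416) (l 15733248)) (b (l 15670792) (l 15748000))) (b (l 15798560) (l 15858936)))) (a (b (l 15784152) (l 15735360)) (b (a (l 15823560) (l 15879280)) (l 2))))) (b (b (a (a (b (a (l 15656648) (l 15666008)) (a (l 15791536) (l 15883296))) (a (b (l 15722904) (l 16044072)) (b (b (l 15749008) (l 15967088)) (b (l 16184832) (l 16371368))))) (b (a (a (a (l 16039112) (l 16209816)) (a (b (b (l 16244656) (l 16363760)) (l 16537504)) (b (l 16579424) (l 16551344)))) (a (b (b (l 142205714067472399) (l 142204683260542991)) (a (l 16599392) (l 16653408))) (b (a (b (b (l 16694152) (l 16695760)) (l 16717952)) (b (b (a (l 143704073704996943) (a (l 143845842019631183) (b (a (l 143893602090156111) (b (l 6) (l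 16753488))) (l 16751208)))) (l 368930889479)) (l 392553176999))) (b (l 225049399799) (l 2))))) (a (a (a (l 16463928) (l 16511872)) (a (l 16520176) (l 141472820600979471))) (a (b (l 16534920) (l 2)) (l 2))))) (a (a (b (a (l 15926960) (l 16100168)) (l 15932840)) (b (a (l 16233648) (l 16368736)) (a (l 16233632) (l 2)))) (a (a (a (l 16424320) (l 2)) (l 2)) (l 2)))) (a (b (a (a (l 15972352) (l 2)) (l 2)) (l 2)) (l 2)))) (a (b (a (b (l 15581888) (l 2)) (l 2)) (l 2)) (l 2))), by decide +kernel⟩

theorem s2_pp_123 : ∃ t, chk3 f_pp_123 t 1 1 1 = true := ex3_a k0_pp_123 k1_pp_123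

theorem c_pp_123 : CertB 536870912 536870912 1610612736 536870912 1033476505 6710887 3 eng mog cd0q1 cd1q3 pd2 false true true .npn 1 2 3
    ndB0q1 ndB1q3 pcB2 cut_pp_123 xt_pp_123 :=
  certB1 (fam := false) (s1 := true) (s2 := true) (a := 1) (b := 2) (c := 3) (cn := .npn) (n1 := ndB0q1) (n2 := ndB1q3) (pc := pcB2) (cut := cut_pp_123) (xt := xt_pp_123) (P1 := 536870912) (W1 := 536870912) (P2 := 1610612736) (W2 := 536870912) (P3 := 1033476505) (W3 := 6710887) (N0 := 3) (En := eng) (mo := mog) (C1 := cd0q1) (C2 := cd1q3) (C3 := pd2)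
    rfl (fun _ => rfl) s2_pp_123

noncomputable def f_pp_133 : ℕ → ℕ → ℕ → ℕ → Bool := onCell 536870912 536870912 1610612736 536870912 1033476505 6710887
    (rowB 3 eng mog cd0q1 cd1q3 pd3 0 false true true .dn 1 3 3 (qsf 536870912 536870912 1610612736 536870912 3) ndB0q1 ndB1q3 pcB3 Cut.none Ext.none)

def k0_pp_133 : ∃ t, chk3 f_pp_133 t 1 1 1 = true :=
  ⟨(a (b (l 1) (a (b (l 1) (b (l 1) (a (l 14854792) (l 1)))) (l 1))) (l 1)), by decide +kernel⟩

theorem c_pp_133 : CertB 536870912 536870912 1610612736 536870912 1033476505 6710887 3 eng mog cd0q1 cd1q3 pd3 false true true .dn 1 3 3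
    ndB0q1 ndB1q3 pcB3 Cut.none Ext.none :=
  certB0 (fam := false) (s1 := true) (s2 := true) (a := 1) (b := 3) (c := 3) (cn := .dn) (n1 := ndB0q1) (n2 := ndB1q3) (pc := pcB3) (cut := Cut.none) (xt := Ext.none) (P1 := 536870912) (W1 := 536870912) (P2 := 1610612736) (W2 := 536870912) (P3 := 1033476505) (W3 := 6710887) (N0 := 3) (En := eng) (mo := mog) (C1 := cd0q1) (C2 := cd1q3) (C3 := pd3)
    rfl k0_pp_133

noncomputable def f_pp_202_a : ℕ → ℕ → ℕ → ℕ → Bool := onCell 0 536870912 0 536870912 1033476505 6710887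
    (rowB 3 eng mog cd0q2 cd1q2a pd0 0 false true true .pp 2 0 2 (qsf 0 536870912 0 536870912 0) ndB0q2 ndB1q2a pcB0 Cut.none Ext.none)

def k0_pp_202_a : ∃ t, chk3 f_pp_202_a t 1 1 1 = true :=
  ⟨(l 3), by decide +kernel⟩

theorem c_pp_202_a : CertB 0 536870912 0 536870912 1033476505 6710887 3 eng mog cd0q2 cd1q2a pd0 false true true .pp 2 0 2
    ndB0q2 ndB1q2a pcB0 Cut.none Ext.none :=
  certB0 (fam := false) (s1 := true) (s2 := true) (a := 2) (b := 0) (c := 2) (cn := .pp) (n1 := ndB0q2) (n2 := ndB1q2a) (pc := pcB0) (cut := Cut.none) (xt := Ext.none) (P1 := 0) (W1 := 536870912) (P2 := 0) (W2 := 536870912) (P3 := 1033476505) (W3 := 6710887) (N0 := 3) (En := eng) (mo := mog) (C1 := cd0q2) (C2 := cd1q2a) (C3 := pd0)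
    rfl k0_pp_202_a

noncomputable def f_pp_202_b : ℕ → ℕ → ℕ → ℕ → Bool := onCell 0 536870912 1239849684 370763052 1033476505 6710887
    (rowB 3 eng mog cd0q2 cd1q2b pd0 0 false true true .pp 2 0 2 (qsf 0 536870912 1239849684 370763052 0) ndB0q2 ndB1q2b pcB0 Cut.none Ext.none)

def k0_pp_202_b : ∃ t, chk3 f_pp_202_b t 1 1 1 = true :=
  ⟨(l 3), by decide +kernel⟩

theorem c_pp_202_b : CertB 0 536870912 1239849684 370763052 1033476505 6710887 3 eng mog cd0q2 cd1q2b pd0 false true true .pp 2 0 2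
    ndB0q2 ndB1q2b pcB0 Cut.none Ext.none :=
  certB0 (fam := false) (s1 := true) (s2 := true) (a := 2) (b := 0) (c := 2) (cn := .pp) (n1 := ndB0q2) (n2 := ndB1q2b) (pc := pcB0) (cut := Cut.none) (xt := Ext.none) (P1 := 0) (W1 := 536870912) (P2 := 1239849684) (W2 := 370763052) (P3 := 1033476505) (W3 := 6710887) (N0 := 3) (En := eng) (mo := mog) (C1 := cd0q2) (C2 := cd1q2b) (C3 := pd0)
    rfl k0_pp_202_b

noncomputable def f_pp_203 : ℕ → ℕ → ℕ → ℕ → Bool := onCell 0 536870912 0 536870912 1033476505 6710887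
    (rowB 3 eng mog cd0q2 cd1q3 pd0 1 false true true .up 2 0 3 (qsf 0 536870912 1610612736 536870912 0) ndB0q2 ndB1q3 pcB0 Cut.none Ext.none)

def k0_pp_203 : ∃ t, chk3 f_pp_203 t 1 1 1 = true :=
  ⟨(l 3), by decide +kernel⟩

theorem c_pp_203 : CertB 0 536870912 1610612736 536870912 1033476505 6710887 3 eng mog cd0q2 cd1q3 pd0 false true true .up 2 0 3
    ndB0q2 ndB1q3 pcB0 Cut.none Ext.none :=
  certB1 (fam := false) (s1 := true) (s2 := true) (a := 2) (b := 0) (c := 3) (cn := .up) (n1 := ndB0q2) (n2 := ndB1q3) (pc := pcB0) (cut := Cut.none) (xt := Ext.none) (P1 := 0) (W1 := 536870912) (P2 := 1610612736) (W2 := 536870912) (P3 := 1033476505) (W3 := 6710887) (N0 := 3) (En := eng) (mo := mog) (C1 := cd0q2) (C2 := cd1q3) (C3 := pd0)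
    rfl (fun _ => rfl) k0_pp_203

noncomputable def cut_pp_213 : Cut := Cut.of [[⟨0, 1, 0, 20971520⟩, ⟨1, 1, 0, 20971520⟩, ⟨2, 2, 0, 1572864⟩]]

noncomputable def f_pp_213 : ℕ → ℕ → ℕ → ℕ → Bool := onCell 0 536870912 1610612736 536870912 1033476505 6710887
    (rowB 3 eng mog cd0q2 cd1q3 pd1 0 false true true .pnn 2 1 3 (qsf 0 536870912 1610612736 536870912 1) ndB0q2 ndB1q3 pcB1 cut_pp_213 Ext.none)

def k0_pp_213 : ∃ t, chk3 f_pp_213 t 1 1 1 = true :=
  ⟨(a (l 3) (b (l 3) (a (l 3) (b (l 3) (b (l 3) (a (l 3) (a (l 3) (b (l 3) (b (l 3) (a (l 3) (b (l 3) (b (l 3) (b (l 3) (b (l 3) (l 6))))))))))))))), by decide +kernel⟩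

theorem c_pp_213 : CertB 0 536870912 1610612736 536870912 1033476505 6710887 3 eng mog cd0q2 cd1q3 pd1 false true true .pnn 2 1 3
    ndB0q2 ndB1q3 pcB1 cut_pp_213 Ext.none :=
  certB0 (fam := false) (s1 := true) (s2 := true) (a := 2) (b := 1) (c := 3) (cn := .pnn) (n1 := ndB0q2) (n2 := ndB1q3) (pc := pcB1) (cut := cut_pp_213) (xt := Ext.none) (P1 := 0) (W1 := 536870912) (P2 := 1610612736) (W2 := 536870912) (P3 := 1033476505) (W3 := 6710887) (N0 := 3) (En := eng) (mo := mog) (C1 := cd0q2) (C2 := cd1q3) (C3 := pd1)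
    rfl k0_pp_213

noncomputable def f_pm_001 : ℕ → ℕ → ℕ → ℕ → Bool := onCell 0 536870912 0 536870912 1033476505 6710887
    (rowB 3 eng mog cd0q0 cd1q1 pd0 1 false true false .up 0 0 1 (qsf 0 536870912 536870912 536870912 0) ndB0q0 ndB1q1 pcB0 Cut.none Ext.none)

def k0_pm_001 : ∃ t, chk3 f_pm_001 t 1 1 1 = true :=
  ⟨(a (l 4) (b (l 4) (a (l 4) (a (l 4) (b (l 4) (b (b (l 22245920071) (a (l 4) (l 16183472))) (b (a (l 16185680) (l 15972064)) (a (l 15982384) (l 15768088))))))))), by decide +kernel⟩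

theorem c_pm_001 : CertB 0 536870912 536870912 536870912 1033476505 6710887 3 eng mog cd0q0 cd1q1 pd0 false true false .up 0 0 1
    ndB0q0 ndB1q1 pcB0 Cut.none Ext.none :=
  certB1 (fam := false) (s1 := true) (s2 := false) (a := 0) (b := 0) (c := 1) (cn := .up) (n1 := ndB0q0) (n2 := ndB1q1) (pc := pcB0) (cut := Cut.none) (xt := Ext.none) (P1 := 0) (W1 := 536870912) (P2 := 536870912) (W2 := 536870912) (P3 := 1033476505) (W3 := 6710887) (N0 := 3) (En := eng) (mo := mog) (C1 := cd0q0) (C2 := cd1q1) (C3 := pd0)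
    rfl (fun _ => rfl) k0_pm_001

noncomputable def f_pm_011 : ℕ → ℕ → ℕ → ℕ → Bool := onCell 536870912 536870912 536870912 536870912 1033476505 6710887
    (rowB 3 eng mog cd0q0 cd1q1 pd1 2 false true false .pnn 0 1 1 (qsf 0 536870912 536870912 536870912 1) ndB0q0 ndB1q1 pcB1 Cut.none Ext.none)

def k0_pm_011 : ∃ t, chk3 f_pm_011 t 1 1 1 = true :=
  ⟨(a (b (l 4) (b (l 4) (b (l 4) (b (a (a (a (b (l 15946792) (l 15899736)) (b (l 4) (l 15869224))) (l 4)) (l 4)) (a (a (a (l 15940488) (b (l 15851376) (l 15914224))) (a (b (l 74857693335) (l 15835384)) (b (l 4) (a (l 15772976) (l 15763712))))) (a (a (l 4) (l 4)) (l 4))))))) (l 4)), by decide +kernel⟩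

theorem c_pm_011 : CertB 0 536870912 536870912 536870912 1033476505 6710887 3 eng mog cd0q0 cd1q1 pd1 false true false .pnn 0 1 1
    ndB0q0 ndB1q1 pcB1 Cut.none Ext.none :=
  certB2 (fam := false) (s1 := true) (s2 := false) (a := 0) (b := 1) (c := 1) (cn := .pnn) (n1 := ndB0q0) (n2 := ndB1q1) (pc := pcB1) (cut := Cut.none) (xt := Ext.none) (P1 := 0) (W1 := 536870912) (P2 := 536870912) (W2 := 536870912) (P3 := 1033476505) (W3 := 6710887) (N0 := 3) (En := eng) (mo := mog) (C1 := cd0q0) (C2 := cd1q1) (C3 := pd1)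
    rfl (fun _ => rfl) k0_pm_011

end Pool.Agent.Strip051.G.I9625_9688.Tab.C.BB01

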