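import Pool.Agent.Strip051.G.I9625_9688.Tab
import Pool.Agent.Strip051.PB.ExtD3

/-! # Certificates B16 (generated) -/

set_option linter.all false
set_option maxRecDepth 100000

namespace Pool.Agent.Strip051.G.I9625_9688.Tab.C.BB01

open Pool.Agent.Strip051.PB Pool.Agent.Strip051.PB.T
open Pool.Agent.Strip051.G.I9625_9688.Tab

noncomputable def cut_pm_012_a : Cut := Cut.of [[⟨0, 0, 0, 33554432⟩, ⟨1, 1, 0, 33554432⟩, ⟨2, 1, 0, 33554432⟩]]

noncomputable def xt_pm_012_a : Ext := extD3 3 ⟨4, 1, 1, 5, 27, 5, 41, 50, 81, 200, 1, 64⟩ eng cd0q0 cd1q2a pd1 false true false .pnp 0 1 2 rfl ndB0q0 ndB1q2a pcB1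

noncomputable def f_pm_012_a : ℕ → ℕ → ℕ → ℕ → Bool := onCell 0 536870912 0 536870912 1033476505 6710887
    (rowB 3 eng mog cd0q0 cd1q2a pd1 0 false true false .pnp 0 1 2 (qsf 0 536870912 0 536870912 1) ndB0q0 ndB1q2a pcB1 cut_pm_012_a xt_pm_012_a)

def k0_pm_012_a : ∃ t, chk3 f_pm_012_a t 4 2 1 = true :=
  ⟨(a (l 2) (a (l 2) (b (l 2) (a (l 2) (b (l 2) (l 16108952)))))), by decide +kernel⟩

def k1_pm_012_a : ∃ t, chk3 f_pm_012_a t 8 3 1 = true :=
  ⟨(b (l 2) (b (a (l 2) (b (a (l 2) (a (l 2) (b (l 2) (l 16335128)))) (b (a (l 2) (a (b (l 16370096) (l 16397752)) (l 16386536))) (a (a (b (l 2) (a (l 2) (l 16462376))) (b (a (l 16429208) (l 16427720)) (a (l 16460112) (l 16458112)))) (a (b (l 16426392) (l 16456016)) (b (l 16427464) (l 16456056))))))) (a (b (a (l 2) (b (a (l 2) (b (l 2) (a (l 2) (l 16535240)))) (a (l 6) (a (l 6) (b (l 16549808) (l 16603992)))))) (a (l 6) (a (l 6) (a (l 6) (b (b (l 16632168) (l 142789623491051647)) (b (b (l 16682728) (l 16697528)) (b (l 16691488)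 (l 143485408286621759)))))))) (b (a (b (a (b (a (l 16497744) (l 16494808)) (a (l 16531720) (l 16528240))) (b (l 16490688) (l 16523312))) (a (b (l 16564672) (b (l 16590208) (l 16603920))) (b (l 16556904) (l 16588224)))) (b (a (b (l 16486600) (l 16518144)) (l 141347063907762239)) (a (b (l 16550616) (l 16580848)) (l 141726189300236351)))) (b (a (a (b (a (l 16627048) (l 16621968)) (b (l 16645344) (l 16659448))) (b (l 16593664) (l 142758562247966783))) (a (b (l 16606240) (l 142724477368172607)) (b (l 16600888) (l 16604712)))) (a (b (a (b (l 16652728) (l 143248463493005375)) (b (l 16662008) (l 16654896))) (a (b (l 143356215619338303) (a (l 16710216) (l 16692928))) (b (l 143313334682648639) (a (l 16686272) (l 16700832))))) (b (a (b (l 16651776) (l 16665096)) (b (l 16644584) (l 16657360))) (a (b (l 16657568) (a (l 16694848) (l 16689552))) (b (l 16670256) (a (l 16685112) (l 16681688))))))))))), by decide +kernel⟩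

def k2_pm_012_a : ∃ t, chk3 f_pm_012_a t 9 6 1 = true :=
  ⟨(a (b (l 2) (a (b (l 2) (a (l 2) (l 16256584))) (b (a (l 16218448) (l 16234088)) (a (l 16279976) (l 16292536))))) (a (b (a (b (l 2) (l 16186160)) (l 16155600)) (a (b (l 16226784) (l 16282120)) (b (l 16204544) (l 16256744)))) (b (b (l 16109728) (l 16129288)) (b (l 16162904) (l 16210368))))), by decide +kernel⟩

def k3_pm_012_a : ∃ t, chk3 f_pm_012_a t 9 7 1 = true :=
  ⟨(a (b (a (b (b (a (l 16298312) (l 16314568)) (l 16329456)) (b (a (l 16393488) (l 16406016)) (a (b (l 16432920) (l 16460472)) (l 140714844632465471)))) (b (a (b (l 16335424) (l 16377472)) (l 16365752)) (a (b (l 16423136) (a (l 16469296) (l 16475792))) (b (l 16429384) (b (l 16464272) (l 16488688)))))) (a (b (b (a (l 141447806666391615) (l 16491064)) (a (b (l 16548512) (l 16576544)) (b (l 16555184) (l 16582112)))) (b (a (b (l 16599888) (l 16623632)) (b (l 16604424) (l 16627120))) (a (b (b (l 16641728) (l 16653960)) (a (b (l 16666816) (l 16679416))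 (l 16651344))) (b (l 16629296) (a (l 16651968) (l 16654200)))))) (b (a (b (a (l 16522456) (l 16527872)) (a (b (l 16564336) (l 16590432)) (l 16539808))) (b (a (l 16528584) (l 16524040)) (b (l 16566768) (l 16591464)))) (a (b (a (b (l 16611968) (l 16633864)) (l 16605256)) (a (b (l 16656200) (l 16657976)) (b (l 16658616) (l 16659832)))) (b (a (l 16603776) (l 16597032)) (a (b (l 16656320) (l 16656976)) (b (l 16648768) (l 16648864)))))))) (b (a (b (a (l 16351848) (l 16322968)) (a (b (l 16412608) (a (l 16464448) (l 16449680))) (b (l 16380832) (l 16423864)))) (b (a (l 16289480) (l 16252416)) (b (l 16324832) (a (l 16385400) (l 16343328))))) (a (b (a (b (l 16464056) (a (l 16563768) (l 16546776))) (b (l 16469976) (l 16517624))) (a (b (a (l 16584072) (l 16586984)) (a (b (l 16634992) (l 16634536)) (l 16605216))) (b (l 16556224) (a (l 16604888) (l 16582440))))) (b (b (a (l 16429320) (l 16385056)) (a (l 16474696) (l 16428136))) (b (a (l 16511136) (l 16462416)) (a (l 16546504) (l 16495568))))))),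 by decide +kernel⟩

def k4_pm_012_a : ∃ t, chk3 f_pm_012_a t 5 1 1 = true :=
  ⟨(b (a (b (a (a (l 2) (b (l 16337592) (l 16185400))) (b (a (l 16301424) (l 16266216)) (l 16148760))) (a (b (a (l 16114656) (l 16076664)) (a (l 16063128) (l 16017888))) (b (l 16031256) (l 15961360)))) (b (a (b (l 16224624) (l 16147120)) (b (l 16240568) (b (l 16240464) (l 16188016)))) (a (b (l 16017416) (l 15932296)) (b (l 16087168) (l 15986576))))) (b (a (a (b (a (l 16065136) (l 16010672)) (a (b (l 16099752) (l 16140816)) (l 16054904))) (b (a (l 15961504) (l 15922344)) (a (l 15993984) (l 15942968)))) (a (b (l 15891888) (a (l 15906360) (l 15888472))) (b (l 15926776) (l 15905352)))) (a (b (a (a (b (l 16194592) (a (l 16281776) (l 16239088))) (b (l 16118056) (l 16175800))) (b (a (l 16046584) (l 15984928)) (a (l 16096248) (l 16026472)))) (a (b (a (b (l 16316408) (l 16356048)) (l 16243072)) (a (a (l 16428152) (l 16376592)) (l 16299952))) (b (a (l 16154600) (l 16075848)) (a (l 16202480) (l 16114688)))))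 (b (a (b (l 15920648) (l 15949936)) (a (l 15912560) (l 15929000))) (a (b (l 15985792) (a (l 16041144) (l 15986152))) (b (l 15940312) (l 15905328))))))), by decide +kernel⟩

def k5_pm_012_a : ∃ t, chk3 f_pm_012_a t 3 1 1 = true :=
  ⟨(a (b (a (b (a (b (l 16342712) (a (l 16317472) (l 16393384))) (b (l 16492080) (l 16502224))) (a (b (l 16250944) (l 16134704)) (b (l 16269336) (l 16324752)))) (b (a (l 16612472) (l 16587984)) (b (b (a (l 16663872) (l 16665016)) (a (l 16624080) (a (l 16680456) (l 16626888)))) (a (l 16516056) (l 16646848))))) (a (b (a (b (l 16055296) (l 15988496)) (b (l 16225456) (l 16154896))) (b (a (a (l 15971072) (l 16023872)) (l 16106056)) (a (b (l 15987672) (a (l 15967360) (l 15997568))) (b (l 16075784) (l 16045896))))) (b (b (a (l 16396648) (l 16547864)) (a (l 16301056) (b (l 16476048) (l 16419144)))) (b (a (l 16221472) (l 16295776)) (b (a (l 16164200) (l 16253432)) (a (l 16115824) (l 16186648))))))) (b (b (a (a (b (l 16595768) (l 16592704)) (b (l 16415968)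 (l 16493936))) (a (b (a (l 16330120) (l 16266704)) (l 16307512)) (b (a (l 16162584) (l 16037928)) (a (l 16257656) (l 16183128))))) (a (b (a (a (l 16590568) (l 16540208)) (l 16474376)) (a (b (a (l 16580344) (l 16519416)) (l 16575312)) (b (a (l 16427400) (l 16426016)) (l 16456976)))) (b (a (l 16369496) (a (l 16323800) (l 16259952))) (a (b (l 16367840) (b (a (l 16370176) (l 16332992)) (l 16332784))) (b (l 16300520) (a (b (l 16299984) (l 16270896)) (l 16269832))))))) (b (a (b (a (l 16575784) (l 16438632)) (a (l 16547616) (l 16461904))) (b (a (b (l 16372320) (l 16383448)) (b (a (l 16305216) (b (l 16256480) (l 16269016))) (l 16297848))) (a (l 16339048) (b (l 16300072) (l 16292608))))) (a (b (b (l 16312160) (l 16271392)) (b (a (l 16337760) (l 16411776)) (a (l 16252840) (l 16309328)))) (b (a (b (l 16362632) (l 16340704)) (l 16139384)) (a (b (l 16313720) (l 16309624)) (b (l 16227536) (l 16224592)))))))), by decide +kernel⟩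

theorem s6_pm_012_a : ∃ t, chk3 f_pm_012_a t 9 3 1 = true := ex3_b k2_pm_012_a k3_pm_012_a

theorem s7_pm_012_a : ∃ t, chk3 f_pm_012_a t 4 3 1 = true := ex3_a k1_pm_012_a s6_pm_012_a

theorem s8_pm_012_a : ∃ t, chk3 f_pm_012_a t 4 1 1 = true := ex3_b k0_pm_012_a s7_pm_012_a

theorem s9_pm_012_a : ∃ t, chk3 f_pm_012_a t 2 1 1 = true := ex3_a s8_pm_012_a k4_pm_012_a

theorem s10_pm_012_a : ∃ t, chk3 f_pm_012_a t 1 1 1 = true := ex3_a s9_pm_012_a k5_pm_012_a

theorem c_pm_012_a : CertB 0 536870912 0 536870912 1033476505 6710887 3 eng mog cd0q0 cd1q2a pd1 false true false .pnp 0 1 2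
    ndB0q0 ndB1q2a pcB1 cut_pm_012_a xt_pm_012_a :=
  certB0 (fam := false) (s1 := true) (s2 := false) (a := 0) (b := 1) (c := 2) (cn := .pnp) (n1 := ndB0q0) (n2 := ndB1q2a) (pc := pcB1) (cut := cut_pm_012_a) (xt := xt_pm_012_a) (P1 := 0) (W1 := 536870912) (P2 := 0) (W2 := 536870912) (P3 := 1033476505) (W3 := 6710887) (N0 := 3) (En := eng) (mo := mog) (C1 := cd0q0) (C2 := cd1q2a) (C3 := pd1)
    rfl s10_pm_012_a

noncomputable def cut_pm_012_b : Cut := Cut.of [[⟨0, 0, 0, 33554432⟩, ⟨1, 1, 0, 33554432⟩, ⟨2, 1, 0, 33554432⟩]]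

noncomputable def f_pm_012_b : ℕ → ℕ → ℕ → ℕ → Bool := onCell 0 536870912 536870912 536870912 1033476505 6710887
    (rowB 3 eng mog cd0q0 cd1q2b pd1 1 false true false .pnp 0 1 2 (qsf 0 536870912 1239849684 370763052 1) ndB0q0 ndB1q2b pcB1 cut_pm_012_b Ext.none)

def k0_pm_012_b : ∃ t, chk3 f_pm_012_b t 1 1 1 = true :=
  ⟨(a (a (l 1) (b (l 1) (b (l 1) (a (b (l 1) (a (b (l 1) (l 401612130423)) (b (a (l 1) (l 16406096)) (l 343092607095)))) (b (a (b (l 1) (l 16190752)) (l 190084449015)) (a (b (l 16175240) (l 16011272)) (l 15709032))))))) (b (a (l 1) (b (l 1) (b (a (l 1) (b (a (l 1) (b (l 1) (a (l 1) (l 166998725671)))) (a (b (l 1) (l 172367739335)) (a (l 148208385031) (l 95058133575))))) (a (b (a (l 1) (l 177736589575)) (a (l 180958088087) (l 16375120))) (a (b (b (l 93984737223) (l 16318992)) (l 16436232)) (b (l 16190088) (l 16408288))))))) (a (a (b (b (l 1) (a (l 136934886071) (l 16475552))) (a (b (l 146060843367) (l 15677592)) (b (l 16184520) (l 15780200)))) (b (b (a (l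 404296854647) (l 163778457399)) (b (l 16570608) (l 16437832))) (b (b (l 16238768) (l 16037536)) (l 15483088)))) (b (a (b (a (b (l 16575328) (l 16729040)) (l 16507056)) (a (l 16406360) (l 16414296))) (b (b (a (l 16598520) (l 16571176)) (l 16668408)) (a (l 16398968) (l 16400208)))) (a (b (b (l 16205048) (l 16002976)) (l 15533160)) (b (a (l 16079032) (l 16057280)) (l 15455440))))))), by decide +kernel⟩

theorem c_pm_012_b : CertB 0 536870912 1239849684 370763052 1033476505 6710887 3 eng mog cd0q0 cd1q2b pd1 false true false .pnp 0 1 2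
    ndB0q0 ndB1q2b pcB1 cut_pm_012_b Ext.none :=
  certB1 (fam := false) (s1 := true) (s2 := false) (a := 0) (b := 1) (c := 2) (cn := .pnp) (n1 := ndB0q0) (n2 := ndB1q2b) (pc := pcB1) (cut := cut_pm_012_b) (xt := Ext.none) (P1 := 0) (W1 := 536870912) (P2 := 1239849684) (W2 := 370763052) (P3 := 1033476505) (W3 := 6710887) (N0 := 3) (En := eng) (mo := mog) (C1 := cd0q0) (C2 := cd1q2b) (C3 := pd1)
    rfl (fun _ => rfl) k0_pm_012_b

noncomputable def cut_pm_022_a : Cut := Cut.of [[⟨0, 0, 0, 33554432⟩, ⟨1, 1, 0, 33554432⟩, ⟨2, 1, 0, 33554432⟩]]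

noncomputable def f_pm_022_a : ℕ → ℕ → ℕ → ℕ → Bool := onCell 0 536870912 0 536870912 1033476505 6710887
    (rowB 3 eng mog cd0q0 cd1q2a pd2 0 false true false .pp 0 2 2 (qsf 0 536870912 0 536870912 2) ndB0q0 ndB1q2a pcB2 cut_pm_022_a Ext.none)

def k0_pm_022_a : ∃ t, chk3 f_pm_022_a t 4 2 1 = true :=
  ⟨(a (b (a (b (l 16261832) (a (l 16326136) (l 16297488))) (b (l 16230800) (b (l 16151296) (l 16265288)))) (a (b (a (l 16337928) (l 16347000)) (a (b (l 16384504) (l 16398376)) (b (l 16379704) (l 16397816)))) (b (a (l 16327520) (l 16301352)) (a (l 16384816) (l 16375800))))) (a (b (a (b (l 16182944) (b (l 16169624) (l 16185592))) (b (l 16139592) (b (l 16117072) (l 16074464)))) (a (b (l 16256568) (l 16346840)) (b (l 16195464) (l 16216400)))) (b (a (b (l 16150480) (a (l 16111040) (l 16130024))) (b (l 16214328) (l 16170168))) (a (b (l 16159144) (l 16214088)) (b (l 16212248) (l 16338888)))))), by decide +kernel⟩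

def k1_pm_022_a : ∃ t, chk3 f_pm_022_a t 4 3 1 = true :=
  ⟨(b (a (b (b (a (a (l 16413976) (l 16420600)) (l 16415376)) (a (a (l 16427256) (l 16448608)) (a (l 16469440) (l 16479256)))) (a (b (a (l 16452184) (l 16483272)) (a (b (l 16477504) (l 16497584)) (l 16462880))) (b (a (l 16511480) (l 16526416)) (a (l 16559256) (l 16577336))))) (a (b (a (b (l 16417328) (l 16465864)) (b (l 16379384) (l 16431984))) (a (b (l 16516664) (l 16568960)) (b (l 16443032) (a (l 16541136) (l 1))))) (b (a (b (l 16384240) (l 16439656)) (l 16374168)) (a (b (l 16451480) (l 1)) (l 1))))) (a (b (a (b (a (b (l 16520280) (a (l 16534168) (l 16557128))) (a (l 16523912) (l 16544424))) (a (b (a (l 16561384) (l 16585096)) (a (b (l 16583328) (l 16598584)) (l 16572904))) (b (a (l 16607912) (l 16607752)) (b (l 16598776) (l 16613648))))) (b (a (b (l 16598696) (l 16626128)) (b (l 16617384) (l 16622896))) (a (b (l 16630064) (a (l 16661176) (l 16638312))) (b (l 16617656) (l 16572832))))) (a (b (a (b (a (b (l 16614272)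 (l 16609336)) (b (l 16638032) (l 16653736))) (l 6)) (b (a (l 16629832) (l 16645160)) (a (l 6) (b (l 16690704) (l 16689624))))) (a (l 6) (a (l 6) (l 1)))) (b (a (b (a (l 16661408) (l 1)) (l 1)) (l 1)) (l 1)))) (a (b (a (b (b (l 16608160) (l 16621496)) (l 1)) (l 1)) (l 1)) (l 1)))), by decide +kernel⟩

def k2_pm_022_a : ∃ t, chk3 f_pm_022_a t 5 1 1 = true :=
  ⟨(b (a (a (b (a (l 16260760) (l 16334640)) (b (b (a (l 16209248) (b (l 16249152) (l 16254152))) (l 16276672)) (a (l 16381720) (l 1)))) (b (b (l 1) (l 1)) (l 1))) (l 1)) (b (l 1) (l 1))), by decide +kernel⟩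

def k3_pm_022_a : ∃ t, chk3 f_pm_022_a t 3 1 1 = true :=
  ⟨(l 1), by decide +kernel⟩

theorem s4_pm_022_a : ∃ t, chk3 f_pm_022_a t 4 1 1 = true := ex3_b k0_pm_022_a k1_pm_022_a

theorem s5_pm_022_a : ∃ t, chk3 f_pm_022_a t 2 1 1 = true := ex3_a s4_pm_022_a k2_pm_022_a

theorem s6_pm_022_a : ∃ t, chk3 f_pm_022_a t 1 1 1 = true := ex3_a s5_pm_022_a k3_pm_022_a

theorem c_pm_022_a : CertB 0 536870912 0 536870912 1033476505 6710887 3 eng mog cd0q0 cd1q2a pd2 false true false .pp 0 2 2
    ndB0q0 ndB1q2a pcB2 cut_pm_022_a Ext.none :=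
  certB0 (fam := false) (s1 := true) (s2 := false) (a := 0) (b := 2) (c := 2) (cn := .pp) (n1 := ndB0q0) (n2 := ndB1q2a) (pc := pcB2) (cut := cut_pm_022_a) (xt := Ext.none) (P1 := 0) (W1 := 536870912) (P2 := 0) (W2 := 536870912) (P3 := 1033476505) (W3 := 6710887) (N0 := 3) (En := eng) (mo := mog) (C1 := cd0q0) (C2 := cd1q2a) (C3 := pd2)
    rfl s6_pm_022_a

noncomputable def cut_pm_022_b : Cut := Cut.of [[⟨0, 0, 0, 33554432⟩, ⟨1, 1, 0, 33554432⟩, ⟨2, 1, 0, 33554432⟩]]

noncomputable def f_pm_022_b : ℕ → ℕ → ℕ → ℕ → Bool := onCell 0 536870912 1239849684 370763052 1033476505 6710887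
    (rowB 3 eng mog cd0q0 cd1q2b pd2 0 false true false .pp 0 2 2 (qsf 0 536870912 1239849684 370763052 2) ndB0q0 ndB1q2b pcB2 cut_pm_022_b Ext.none)

def k0_pm_022_b : ∃ t, chk3 f_pm_022_b t 1 2 1 = true :=
  ⟨(b (a (a (a (b (a (l 16290112) (l 16268440)) (a (l 15959408) (l 16192888))) (a (a (l 16130480) (b (l 16226808) (l 16356976))) (a (b (l 16219568) (l 16394192)) (b (l 16328000) (l 16392248))))) (a (a (b (b (l 16314016) (l 16449256)) (l 16285008)) (b (l 173442042775) (l 16092888))) (a (b (l 222297392615) (a (l 16297696) (l 16294016))) (b (l 1) (l 182568254279))))) (l 1)) (a (a (a (b (a (b (l 15836632) (l 15714560)) (l 15778248)) (a (l 15614736) (b (l 15619152) (l 15529760)))) (a (b (l 15776200) (a (l 15606024) (l 15662584))) (a (l 15657016) (l 15791608)))) (a (a (b (l 16030648) (l 15718064)) (b (l 16002976) (l 15708096))) (a (b (a (l 15988416) (l 15990304)) (l 15707504)) (b (a (l 16007552) (l 16046000)) (l 15750272))))) (a (a (a (b (a (l 16107768) (l 16159920)) (a (l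 15831808) (l 15901392))) (b (l 190084393447) (l 180957017207))) (b (l 1) (a (l 202969041399) (l 1)))) (l 1)))), by decide +kernel⟩

def k1_pm_022_b : ∃ t, chk3 f_pm_022_b t 1 3 1 = true :=
  ⟨(a (a (a (b (b (a (l 15573984) (l 15460904)) (a (l 15477184) (l 15454296))) (b (a (l 15671600) (l 15430728)) (a (l 15781776) (l 15604872)))) (b (a (b (a (l 15416568) (l 15403816)) (l 15336560)) (b (a (l 15411816) (l 15415680)) (a (l 15256648) (l 15205760)))) (a (b (l 15356984) (l 15430696)) (b (a (l 15244776) (l 15162936)) (l 15198528))))) (b (a (a (b (l 15430952) (l 15185992)) (l 15313504)) (a (l 15187872) (b (l 15502152) (l 15279192)))) (a (b (a (l 14910120) (l 14994792)) (a (l 15073608) (l 14910424))) (a (b (l 15017808) (l 14858176)) (l 14991632))))) (a (a (b (a (b (l 15547160) (l 15384256)) (b (l 15752520) (l 15519048))) (a (l 15092360) (l 15215888))) (b (b (a (l 186862421015) (l 215316855463)) (a (l 15661008) (l 199747140583))) (a (l 15157504) (b (l 15586728) (l 15386888)))))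 (a (b (b (l 1) (a (l 192768086199) (l 213169488695))) (a (b (l 15733080) (l 15525176)) (b (l 191694212615) (l 15663912)))) (b (l 1) (b (a (l 205653136439) (l 1)) (a (l 187935995575) (l 202431758279))))))), by decide +kernel⟩

theorem s2_pm_022_b : ∃ t, chk3 f_pm_022_b t 1 1 1 = true := ex3_b k0_pm_022_b k1_pm_022_b

theorem c_pm_022_b : CertB 0 536870912 1239849684 370763052 1033476505 6710887 3 eng mog cd0q0 cd1q2b pd2 false true false .pp 0 2 2
    ndB0q0 ndB1q2b pcB2 cut_pm_022_b Ext.none :=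
  certB0 (fam := false) (s1 := true) (s2 := false) (a := 0) (b := 2) (c := 2) (cn := .pp) (n1 := ndB0q0) (n2 := ndB1q2b) (pc := pcB2) (cut := cut_pm_022_b) (xt := Ext.none) (P1 := 0) (W1 := 536870912) (P2 := 1239849684) (W2 := 370763052) (P3 := 1033476505) (W3 := 6710887) (N0 := 3) (En := eng) (mo := mog) (C1 := cd0q0) (C2 := cd1q2b) (C3 := pd2)
    rfl s2_pm_022_b

noncomputable def f_pm_023 : ℕ → ℕ → ℕ → ℕ → Bool := onCell 0 536870912 1073741824 536870912 1033476505 6710887
    (rowB 3 eng mog cd0q0 cd1q3 pd2 1 false true false .up 0 2 3 (qsf 0 536870912 1610612736 536870912 2) ndB0q0 ndB1q3 pcB2 Cut.none Ext.none)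

def k0_pm_023 : ∃ t, chk3 f_pm_023 t 1 1 1 = true :=
  ⟨(b (a (a (l 1) (a (l 1) (b (l 1) (a (l 1) (l 285107853703))))) (a (a (b (l 1) (a (l 261485489431) (l 262559246135))) (b (b (l 1) (l 195988722887)) (b (l 15070712) (l 14871936)))) (b (a (b (a (l 1) (l 147670913447)) (a (l 15333696) (l 15345936))) (b (a (l 126196042823) (b (l 15663360) (l 15536152))) (a (l 15358632) (l 15370704)))) (a (b (l 15118392) (l 14946640)) (b (l 15177264) (l 15035664)))))) (a (a (b (a (l 1) (b (l 1) (a (l 1) (l 15041880)))) (a (b (l 417179009335) (l 216926543063)) (a (b (l 15276976) (l 15497456)) (b (l 15190448) (l 15437952))))) (b (b (a (a (l 1) (l 14502400)) (a (l 14668360) (l 14628464))) (a (l 473012481591) (a (l 14716080) (l 14653160)))) (a (b (l 15071384) (l 15389832)) (b (l 14962424) (l 15353288))))) (b (a (a (b (a (l 14633824) (l 14664136)) (a (l 14607040) (l 14597536))) (b (l 14724312) (l 14640480))) (a (b (l 14821792) (l 14740848)) (b (l 14935632) (l 14872920)))) (a (a (b (l 14861248)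 (l 15271912)) (b (l 14741656) (l 15112520))) (b (a (l 14736584) (l 14843088)) (a (l 14923840) (l 14885872))))))), by decide +kernel⟩

theorem c_pm_023 : CertB 0 536870912 1610612736 536870912 1033476505 6710887 3 eng mog cd0q0 cd1q3 pd2 false true false .up 0 2 3
    ndB0q0 ndB1q3 pcB2 Cut.none Ext.none :=
  certB1 (fam := false) (s1 := true) (s2 := false) (a := 0) (b := 2) (c := 3) (cn := .up) (n1 := ndB0q0) (n2 := ndB1q3) (pc := pcB2) (cut := Cut.none) (xt := Ext.none) (P1 := 0) (W1 := 536870912) (P2 := 1610612736) (W2 := 536870912) (P3 := 1033476505) (W3 := 6710887) (N0 := 3) (En := eng) (mo := mog) (C1 := cd0q0) (C2 := cd1q3) (C3 := pd2)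
    rfl (fun _ => rfl) k0_pm_023

noncomputable def f_pm_033 : ℕ → ℕ → ℕ → ℕ → Bool := onCell 0 536870912 1610612736 536870912 1033476505 6710887
    (rowB 3 eng mog cd0q0 cd1q3 pd3 1 false true false .pnn 0 3 3 (qsf 0 536870912 1610612736 536870912 3) ndB0q0 ndB1q3 pcB3 Cut.none Ext.none)

def k0_pm_033 : ∃ t, chk3 f_pm_033 t 1 1 1 = true :=
  ⟨(a (b (a (b (b (a (b (l 15726120) (l 15486240)) (a (l 15708208) (b (l 15600320) (l 15785784)))) (b (a (l 15074000) (a (l 15499800) (l 15680432))) (l 4))) (l 4)) (b (b (a (b (l 15598352) (l 15828800)) (l 15737576)) (a (b (l 16052896) (l 16073208)) (b (l 16146960) (l 16387824)))) (b (a (l 4) (b (l 16486712) (l 4))) (l 4)))) (a (l 4) (b (l 4) (a (b (l 4) (l 2)) (l 2))))) (b (a (b (b (a (l 15656640) (l 15455456)) (a (b (l 16084080) (l 16367016)) (b (l 15871360) (l 16143632)))) (b (a (b (l 16580488) (l 16652232)) (b (l 16404816) (l 16593160))) (a (l 4) (b (l 16675680) (l 2))))) (b (b (a (l 15192360) (b (l 14805160) (l 15063624))) (a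 (b (l 15596888) (l 15892968)) (b (l 15389664) (l 2)))) (a (b (l 496704772167) (l 2)) (l 2)))) (a (b (a (b (l 4) (l 2)) (l 2)) (l 2)) (l 2)))), by decide +kernel⟩

theorem c_pm_033 : CertB 0 536870912 1610612736 536870912 1033476505 6710887 3 eng mog cd0q0 cd1q3 pd3 false true false .pnn 0 3 3
    ndB0q0 ndB1q3 pcB3 Cut.none Ext.none :=
  certB1 (fam := false) (s1 := true) (s2 := false) (a := 0) (b := 3) (c := 3) (cn := .pnn) (n1 := ndB0q0) (n2 := ndB1q3) (pc := pcB3) (cut := Cut.none) (xt := Ext.none) (P1 := 0) (W1 := 536870912) (P2 := 1610612736) (W2 := 536870912) (P3 := 1033476505) (W3 := 6710887) (N0 := 3) (En := eng) (mo := mog) (C1 := cd0q0) (C2 := cd1q3) (C3 := pd3)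
    rfl (fun _ => rfl) k0_pm_033

noncomputable def f_pm_101 : ℕ → ℕ → ℕ → ℕ → Bool := onCell 0 536870912 536870912 536870912 1033476505 6710887
    (rowB 3 eng mog cd0q1 cd1q1 pd0 2 false true false .npn 1 0 1 (qsf 536870912 536870912 536870912 536870912 0) ndB0q1 ndB1q1 pcB0 Cut.none Ext.none)

def k0_pm_101 : ∃ t, chk3 f_pm_101 t 2 2 1 = true :=
  ⟨(a (b (l 4) (b (l 4) (a (b (a (b (l 16171696) (l 16244832)) (l 56067952679)) (a (l 16328536) (l 16276880))) (b (l 4) (a (l 65731963479) (l 16363736)))))) (l 4)), by decide +kernel⟩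

def k1_pm_101 : ∃ t, chk3 f_pm_101 t 4 3 1 = true :=
  ⟨(b (b (a (b (a (l 16408160) (l 16470704)) (a (l 16250824) (l 16390216))) (b (a (l 16514552) (l 16435760)) (a (l 16516688) (l 16631104)))) (a (b (a (l 15910168) (l 16060544)) (a (a (b (l 15618640) (l 15503576)) (b (l 15697336) (l 15582744))) (a (l 15701376) (l 15764072)))) (b (a (l 16193456) (l 16312864)) (a (l 15860448) (l 15986864))))) (a (b (a (a (b (l 15373920) (b (l 15331400) (l 15415704))) (b (b (l 15492864) (l 15423768)) (a (l 15369752) (l 15381456)))) (a (b (l 15691928) (a (l 15384464) (l 15390560))) (b (l 15553672) (l 15420568)))) (a (b (a (b (a (b (l 15662544) (l 15909592)) (l 15594632)) (b (a (l 16267544) (l 15883704)) (a (l 16271200) (l 16177072)))) (b (a (l 15502504) (l 15448752)) (a (b (l 15674768) (l 15842824)) (l 15601752)))) (a (b (a (l 16234168) (l 16196816)) (l 16159840)) (b (a (l 16113664) (b (l 15787504) (l 15953856))) (a (l 16111040) (b (l 16098288) (l 16075848)))))) (b (a (a (l 15445488) (l 15405704))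 (l 15390120)) (a (b (a (b (l 15631792) (l 15737792)) (l 15571328)) (a (b (l 15866624) (l 15993976)) (b (l 15702208) (l 15806840)))) (b (l 15476744) (a (l 15819664) (l 15557200))))))) (b (b (a (l 15631824) (l 15712672)) (a (b (l 15511728) (l 15451912)) (l 15554112))) (b (a (a (l 15390544) (l 15402880)) (b (l 15462464) (l 15414440))) (a (b (l 15399856) (a (l 15482832) (l 15423096))) (b (l 15384568) (l 15378688))))))), by decide +kernel⟩

def k2_pm_101 : ∃ t, chk3 f_pm_101 t 5 3 1 = true :=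
  ⟨(b (b (a (b (a (l 16482528) (l 16520648)) (a (l 16706440) (l 16728600))) (b (l 4) (a (l 16673536) (l 4)))) (a (b (a (l 16419448) (l 16512256)) (a (l 16095648) (l 16193272))) (b (a (l 16591592) (l 16647240)) (a (l 16279888) (l 16355320))))) (b (a (b (a (l 15789232) (l 15874280)) (a (l 15621504) (l 15680424))) (b (l 15819048) (a (l 15729576) (l 15736272)))) (a (a (b (l 15510336) (b (l 15433448) (l 15401120))) (b (l 15589608) (l 15515352))) (a (b (l 15661184) (l 15625584)) (b (l 15712416) (l 15728808)))))), by decide +kernel⟩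

def k3_pm_101 : ∃ t, chk3 f_pm_101 t 3 1 1 = true :=
  ⟨(b (l 4) (b (b (l 4) (a (a (b (a (l 16675464) (l 4)) (a (l 16419960) (l 16464728))) (b (l 4) (a (l 16488528) (l 4)))) (l 4))) (a (b (b (a (l 16027768) (a (l 16236480) (l 16271000))) (a (a (l 15833480) (l 15891408)) (l 15939496))) (a (b (a (l 15731304) (b (l 15719808) (l 15744048))) (a (l 15809744) (l 15855224))) (b (a (b (l 15753056) (l 15708768)) (b (l 15803080) (l 15705928))) (a (l 15862936) (l 15786224))))) (b (a (b (a (l 16264192) (l 4)) (a (l 16046832) (l 16069824))) (b (l 1) (a (l 16081104) (l 1)))) (a (b (a (l 15793480) (l 15829000)) (a (b (b (l 15666512) (l 15695200)) (l 15844728)) (b (l 15511680) (l 15719784)))) (b (a (l 15856288) (l 15876080)) (b (l 15697352) (a (b (l 15631752) (l 15660264)) (a (l 15625432) (l 15616376)))))))))), by decide +kernel⟩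

theorem s4_pm_101 : ∃ t, chk3 f_pm_101 t 2 3 1 = true := ex3_a k1_pm_101 k2_pm_101

theorem s5_pm_101 : ∃ t, chk3 f_pm_101 t 2 1 1 = true := ex3_b k0_pm_101 s4_pm_101

theorem s6_pm_101 : ∃ t, chk3 f_pm_101 t 1 1 1 = true := ex3_a s5_pm_101 k3_pm_101

theorem c_pm_101 : CertB 536870912 536870912 536870912 536870912 1033476505 6710887 3 eng mog cd0q1 cd1q1 pd0 false true false .npn 1 0 1
    ndB0q1 ndB1q1 pcB0 Cut.none Ext.none :=
  certB2 (fam := false) (s1 := true) (s2 := false) (a := 1) (b := 0) (c := 1) (cn := .npn) (n1 := ndB0q1) (n2 := ndB1q1) (pc := pcB0) (cut := Cut.none) (xt := Ext.none) (P1 := 536870912) (W1 := 536870912) (P2 := 536870912) (W2 := 536870912) (P3 := 1033476505) (W3 := 6710887) (N0 := 3) (En := eng) (mo := mog) (C1 := cd0q1) (C2 := cd1q1) (C3 := pd0)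
    rfl (fun _ => rfl) s6_pm_101

end Pool.Agent.Strip051.G.I9625_9688.Tab.C.BB01

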