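import Pool.Agent.Strip051.G.I9625_9688.Tab
import Pool.Agent.Strip051.PB.ExtD3

/-! # Certificates B18 (generated) -/

set_option linter.all false
set_option maxRecDepth 100000

namespace Pool.Agent.Strip051.G.I9625_9688.Tab.C.BB01

open Pool.Agent.Strip051.PB Pool.Agent.Strip051.PB.T
open Pool.Agent.Strip051.G.I9625_9688.Tab

noncomputable def cut_pm_102_b : Cut := Cut.of [[⟨0, 1, 0, 16777216⟩, ⟨1, 0, 0, 16777216⟩, ⟨2, 1, 0, 16777216⟩], [⟨0, 0, 1, 46137344⟩, ⟨1, 1, 2, 46137344⟩, ⟨2, 1, 0, 1048576⟩, ⟨0, 0, 0, 1047972020⟩, ⟨0, 1, 0, 45097156⟩, ⟨1, 0, 0, 45097156⟩, ⟨1, 1, 0, 1047972020⟩]]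

noncomputable def f_pm_102_b : ℕ → ℕ → ℕ → ℕ → Bool := onCell 0 536870912 1239849684 370763052 1033476505 6710887
    (rowB 3 eng mog cd0q1 cd1q2b pd0 2 false true false .npp 1 0 2 (qsf 536870912 536870912 1239849684 370763052 0) ndB0q1 ndB1q2b pcB0 cut_pm_102_b Ext.none)

def k0_pm_102_b : ∃ t, chk3 f_pm_102_b t 1 1 1 = true :=
  ⟨(a (l 3) (b (a (l 3) (b (a (l 3) (a (l 3) (b (a (b (b (a (l 3) (b (a (a (l 3) (l 16766880)) (a (l 16762000) (l 16771248))) (l 80161505831))) (l 3)) (l 3)) (b (a (b (a (b (l 16768352) (l 16768768)) (l 16764528)) (a (l 16764208) (l 16765424))) (b (l 16757696) (l 16760056))) (a (l 3) (b (l 16760536) (l 3))))) (l 3)))) (l 3))) (a (l 3) (l 3)))), by decide +kernel⟩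

theorem c_pm_102_b : CertB 536870912 536870912 1239849684 370763052 1033476505 6710887 3 eng mog cd0q1 cd1q2b pd0 false true false .npp 1 0 2
    ndB0q1 ndB1q2b pcB0 cut_pm_102_b Ext.none :=
  certB2 (fam := false) (s1 := true) (s2 := false) (a := 1) (b := 0) (c := 2) (cn := .npp) (n1 := ndB0q1) (n2 := ndB1q2b) (pc := pcB0) (cut := cut_pm_102_b) (xt := Ext.none) (P1 := 536870912) (W1 := 536870912) (P2 := 1239849684) (W2 := 370763052) (P3 := 1033476505) (W3 := 6710887) (N0 := 3) (En := eng) (mo := mog) (C1 := cd0q1) (C2 := cd1q2b) (C3 := pd0)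
    rfl (fun _ => rfl) k0_pm_102_b

noncomputable def f_pm_112_a : ℕ → ℕ → ℕ → ℕ → Bool := onCell 536870912 536870912 0 536870912 1033476505 6710887
    (rowB 3 eng mog cd0q1 cd1q2a pd1 0 false true false .dn 1 1 2 (qsf 536870912 536870912 0 536870912 1) ndB0q1 ndB1q2a pcB1 Cut.none Ext.none)

def k0_pm_112_a : ∃ t, chk3 f_pm_112_a t 8 4 1 = true :=
  ⟨(b (a (a (b (l 15994432) (l 16042088)) (b (l 15909488) (l 15960960))) (a (b (b (l 15810392) (l 15838848)) (l 15879848)) (b (b (b (a (l 15738448) (a (l 15706120) (b (a (b (a (l 15686736) (b (a (l 15682416) (l 15681696)) (l 15682328))) (l 15688008)) (b (a (b (l 15684080) (a (l 15679112) (l 15678528))) (l 15684848)) (a (l 15679920) (b (a (l 15675824) (l 15675384)) (l 15675568))))) (l 15688560)))) (l 15711344)) (l 15733960)) (l 15798872)))) (a (a (l 16108320) (l 16012464)) (a (l 15916664) (l 15779080)))), by decide +kernel⟩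

def k1_pm_112_a : ∃ t, chk3 f_pm_112_a t 18 16 1 = true :=
  ⟨(a (b (b (a (a (b (a (b (l 15691720) (a (b (l 15678160) (a (l 15672560) (l 15672272))) (l 15678984))) (l 15693584)) (a (b (a (l 15673240) (b (l 15669640) (l 15668920))) (l 15674464)) (b (a (b (l 15672296) (l 15666488)) (l 15673192)) (a (l 15666624) (b (l 15663368) (l 15662336)))))) (b (l 15708280) (a (b (l 15680360) (a (b (l 15666512) (l 15660272)) (l 15667472))) (l 15682512)))) (l 15724224)) (b (a (a (l 15675096) (a (b (a (l 15660064) (b (l 15657200) (l 15655824))) (l 15661112)) (b (a (b (l 15660800) (l 15654152)) (l 15661840)) (a (l 15653576) (b (l 15651136) (l 15649384)))))) (a (a (b (l 15669320) (a (l 15651576) (l 15656280))) (l 15671760)) (l 15687712))) (a (l 15672424) (a (a (b (a (l 15647144) (b (l 15645200) (l 15643016))) (l 15647960)) (b (l 15648240) (a (l 15640784) (b (l 15639376) (l 15636736))))) (l 15655912))))) (b (a (l 15684304) (a (l 15652776) (b (a (b (a (l 15634504) (b (l 15633696) (l 15630544))) (l 15635008)) (b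 (l 15637336) (a (l 15628288) (b (l 15628152) (l 15624448))))) (l 15635888)))) (l 15679216))) (b (a (a (l 15726320) (l 15750400)) (a (l 15775840) (l 15802632))) (a (b (a (b (l 15645736) (a (b (a (l 15622160) (b (l 15622760) (l 15618448))) (l 15622272)) (b (l 15626920) (a (l 15616112) (b (l 15617536) (l 15612560)))))) (l 15651984)) (a (l 15627352) (b (a (b (a (l 15610152) (l 15609784)) (l 15609800)) (b (l 15616888) (a (l 15604288) (l 15604352)))) (l 15610928)))) (b (l 15688528) (a (b (l 15626184) (a (b (a (l 15598520) (l 15599040)) (l 15597808)) (b (l 15607160) (a (l 15592848) (l 15593872))))) (l 15633856)))))), by decide +kernel⟩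

def k2_pm_112_a : ∃ t, chk3 f_pm_112_a t 18 17 1 = true :=
  ⟨(a (l 15718136) (b (b (a (l 15633480) (a (l 15603352) (b (a (b (a (l 15587288) (l 15588848)) (l 15586120)) (b (l 15597808) (a (l 15581848) (l 15583968)))) (l 15587464)))) (l 15629672)) (l 15654352))), by decide +kernel⟩

def k3_pm_112_a : ∃ t, chk3 f_pm_112_a t 19 8 1 = true :=
  ⟨(b (a (b (a (a (l 15830784) (l 15860296)) (a (l 15891160) (l 15923376))) (a (l 15707360) (l 15765120))) (b (a (a (l 15956936) (l 15991848)) (a (l 16028088) (l 16065672))) (a (l 15828312) (l 15896920)))) (a (b (a (b (a (b (l 15608168) (a (b (a (l 15576528) (l 15579256)) (l 15574768)) (b (l 15588848) (a (l 15571336) (l 15574712))))) (l 15617120)) (a (l 15580512) (b (a (b (l 15568632) (l 15563768)) (b (l 15580304) (l 15563920))) (l 15565200)))) (b (l 15658784) (a (b (l 15591760) (a (b (l 15559360) (l 15553160)) (l 15563256))) (l 15602024)))) (b (a (l 15586560) (a (b (a (l 15557440) (l 15549840)) (l 15561288)) (b (a (b (l 15550680) (l 15542968)) (l 15555240))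 (a (l 15546528) (b (l 15538040) (l 15538944)))))) (l 15584224))) (b (a (l 15682768) (l 15747608)) (a (b (a (b (l 15577048) (a (b (l 15542672) (l 15533232)) (l 15547832))) (l 15588664)) (a (b (a (l 15535904) (b (l 15528552) (l 15528440))) (l 15540072)) (b (a (b (l 15535376) (l 15524008)) (l 15541096)) (a (l 15525584) (b (l 15519592) (l 15518312)))))) (a (a (b (l 15611816) (b (l 15556392) (b (l 15528680) (l 15515328)))) (l 15590544)) (l 15614648)))))), by decide +kernel⟩

def k4_pm_112_a : ∃ t, chk3 f_pm_112_a t 9 9 1 = true :=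
  ⟨(a (a (b (l 15779480) (l 15840640)) (b (l 15703280) (l 15768872))) (b (a (l 15627592) (b (b (a (l 15544048) (a (b (a (l 15515872) (b (l 15511208) (l 15508856))) (l 15520072)) (b (a (b (l 15522336) (l 15507248)) (l 15528752)) (a (l 15506616) (b (l 15503456) (l 15499824)))))) (l 15543432)) (l 15571152))) (a (l 15697648) (l 15627112)))), by decide +kernel⟩

def k5_pm_112_a : ∃ t, chk3 f_pm_112_a t 4 5 1 = true :=
  ⟨(a (b (a (a (l 16195240) (l 16109200)) (a (l 16044024) (l 15978944))) (a (b (l 16231744) (l 16223688)) (b (l 16120784) (l 16165936)))) (b (a (a (l 15914136) (l 15828760)) (a (l 15743952) (l 15680816))) (a (b (l 15966896) (l 16081896)) (b (l 15877224) (l 15985976))))), by decide +kernel⟩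

def k6_pm_112_a : ∃ t, chk3 f_pm_112_a t 20 8 1 = true :=
  ⟨(b (a (b (a (a (l 16104576) (l 16144800)) (a (l 16228288) (b (l 16268864) (l 16189464)))) (a (l 16012840) (a (l 16029872) (l 16091816)))) (b (a (b (a (l 16313480) (l 16380344)) (a (l 16233136) (l 16278096))) (a (b (b (l 16427112) (l 16385936)) (l 16345304)) (b (b (a (l 16463480) (l 16488120)) (l 16455104)) (a (l 16359840) (l 16404880))))) (a (b (a (l 16153040) (l 16197080)) (l 16136520)) (b (a (l 16242408) (l 46740386535)) (a (l 16160728) (l 16227416)))))) (a (b (a (l 15817872) (a (l 15874088) (l 15913240))) (a (l 15665160) (l 15758216))) (a (b (a (l 15953720) (l 16037464)) (a (l 15794840) (l 15834904))) (b (b (a (l 16079248) (l 16124088)) (a (l 15997952) (l 16041928))) (b (l 65530195847) (l 86467985015)))))), by decide +kernel⟩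

def k7_pm_112_a : ∃ t, chk3 f_pm_112_a t 20 9 1 = true :=
  ⟨(b (a (b (a (b (a (b (l 15553064) (a (l 15507984) (l 15523248))) (l 15567472)) (a (b (a (l 15497776) (b (l 15496392) (l 15491264))) (l 15501352)) (b (l 15509888) (a (l 15489360) (b (l 15490096) (l 15483224)))))) (a (a (l 15553704) (l 15572216)) (l 15599120))) (b (a (l 15506536) (a (b (a (l 15481408) (b (l 15484624) (l 15475744))) (l 15483984)) (b (l 15500736) (a (b (l 15472240) (l 15472840)) (b (l 15480080) (l 15489864)))))) (l 15507856))) (a (b (a (l 15636168) (l 15674560)) (b (a (l 15516696) (l 15554280)) (a (b (a (b (a (l 15464080) (l 15465136)) (l 15464880)) (b (l 15476536) (a (l 15460752) (l 15462552)))) (l 15468160)) (b (l 15494112) (a (b (a (l 15457608) (l 15460224)) (l 15457768)) (b (l 15473304) (a (l 15486120) (l 15458176)))))))) (b (a (l 15714296) (l 109553223655)) (a (l 15552352) (l 1))))) (a (l 15557392) (b (a (b (a (l 15483392) (l 15466640)) (l 15495328)) (a (b (b (a (b (a (b (l 15452664) (l 15449536)) (l 15456416))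 (l 15451248)) (l 1)) (l 355976360583)) (l 15469496)) (l 1))) (l 15509960)))), by decide +kernel⟩

def k8_pm_112_a : ∃ t, chk3 f_pm_112_a t 20 5 1 = true :=
  ⟨(b (a (l 15618536) (b (l 15575184) (l 15666424))) (b (l 15790424) (l 15828912))), by decide +kernel⟩

def k9_pm_112_a : ∃ t, chk3 f_pm_112_a t 21 2 1 = true :=
  ⟨(b (b (l 1) (l 1)) (l 1)), by decide +kernel⟩

def k10_pm_112_a : ∃ t, chk3 f_pm_112_a t 11 2 1 = true :=
  ⟨(l 1), by decide +kernel⟩

def k11_pm_112_a : ∃ t, chk3 f_pm_112_a t 2 3 1 = true :=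
  ⟨(a (b (a (b (b (a (b (a (b (l 16224656) (l 16220288)) (l 16196504)) (a (l 16228760) (b (l 16166888) (l 16192400)))) (a (b (l 16169576) (b (l 16161552) (l 16136248))) (l 16142408))) (a (l 16221024) (a (l 16166576) (b (b (l 16107600) (l 16129568)) (l 16136240))))) (a (b (l 16224912) (l 16217400)) (b (l 16156056) (l 16148872)))) (b (a (b (l 16106816) (b (a (a (l 16089920) (l 16100880)) (l 16084800)) (a (l 16103720) (b (a (b (l 16082312) (l 16080680)) (l 16073368)) (l 16075888))))) (b (l 16063872) (a (a (b (l 16072320) (l 16043352)) (l 16063160)) (l 1)))) (a (b (a (l 16109928) (l 16082392)) (l 16089568)) (a (a (b (l 16063520) (l 1)) (l 1)) (l 1))))) (a (b (a (b (l 16200880) (l 16177400)) (b (l 16131352) (l 16106384))) (b (a (l 16149904) (l 16077648)) (a (l 16147456) (l 1)))) (b (b (a (l 16070888) (l 1)) (l 1)) (l 1)))) (b (l 1) (l 1))), by decide +kernel⟩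

def k12_pm_112_a : ∃ t, chk3 f_pm_112_a t 3 1 1 = true :=
  ⟨(l 1), by decide +kernel⟩

theorem s13_pm_112_a : ∃ t, chk3 f_pm_112_a t 20 4 1 = true := ex3_b k6_pm_112_a k7_pm_112_a

theorem s14_pm_112_a : ∃ t, chk3 f_pm_112_a t 20 2 1 = true := ex3_b s13_pm_112_a k8_pm_112_a

theorem s15_pm_112_a : ∃ t, chk3 f_pm_112_a t 10 2 1 = true := ex3_a s14_pm_112_a k9_pm_112_a

theorem s16_pm_112_a : ∃ t, chk3 f_pm_112_a t 5 2 1 = true := ex3_a s15_pm_112_a k10_pm_112_a

theorem s17_pm_112_a : ∃ t, chk3 f_pm_112_a t 18 8 1 = true := ex3_b k1_pm_112_a k2_pm_112_a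

theorem s18_pm_112_a : ∃ t, chk3 f_pm_112_a t 9 8 1 = true := ex3_a s17_pm_112_a k3_pm_112_a

theorem s19_pm_112_a : ∃ t, chk3 f_pm_112_a t 9 4 1 = true := ex3_b s18_pm_112_a k4_pm_112_a

theorem s20_pm_112_a : ∃ t, chk3 f_pm_112_a t 4 4 1 = true := ex3_a k0_pm_112_a s19_pm_112_a

theorem s21_pm_112_a : ∃ t, chk3 f_pm_112_a t 4 2 1 = true := ex3_b s20_pm_112_a k5_pm_112_a

theorem s22_pm_112_a : ∃ t, chk3 f_pm_112_a t 2 2 1 = true := ex3_a s21_pm_112_a s16_pm_112_a

theorem s23_pm_112_a : ∃ t, chk3 f_pm_112_a t 2 1 1 = true := ex3_b s22_pm_112_a k11_pm_112_a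

theorem s24_pm_112_a : ∃ t, chk3 f_pm_112_a t 1 1 1 = true := ex3_a s23_pm_112_a k12_pm_112_a

theorem c_pm_112_a : CertB 536870912 536870912 0 536870912 1033476505 6710887 3 eng mog cd0q1 cd1q2a pd1 false true false .dn 1 1 2
    ndB0q1 ndB1q2a pcB1 Cut.none Ext.none :=
  certB0 (fam := false) (s1 := true) (s2 := false) (a := 1) (b := 1) (c := 2) (cn := .dn) (n1 := ndB0q1) (n2 := ndB1q2a) (pc := pcB1) (cut := Cut.none) (xt := Ext.none) (P1 := 536870912) (W1 := 536870912) (P2 := 0) (W2 := 536870912) (P3 := 1033476505) (W3 := 6710887) (N0 := 3) (En := eng) (mo := mog) (C1 := cd0q1) (C2 := cd1q2a) (C3 := pd1)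
    rfl s24_pm_112_a

noncomputable def f_pm_112_b : ℕ → ℕ → ℕ → ℕ → Bool := onCell 536870912 536870912 536870912 536870912 1033476505 6710887
    (rowB 3 eng mog cd0q1 cd1q2b pd1 1 false true false .dn 1 1 2 (qsf 536870912 536870912 1239849684 370763052 1) ndB0q1 ndB1q2b pcB1 Cut.none Ext.none)

def k0_pm_112_b : ∃ t, chk3 f_pm_112_b t 4 4 1 = true :=
  ⟨(b (a (l 1) (a (a (l 1) (b (l 1) (b (l 1) (b (l 1) (l 185789010743))))) (b (a (l 1) (b (l 1) (b (l 1) (l 193842637783)))) (b (a (b (l 1) (l 185252410935)) (a (l 157335301271) (l 140155538263))) (a (a (l 155187510439) (l 138544607959)) (b (l 16043160) (l 16021376))))))) (a (b (a (l 1) (b (l 1) (a (l 1) (a (l 1) (b (l 1) (a (l 1) (l 165924471591))))))) (a (b (l 1) (a (l 1) (l 193305180119))) (b (a (b (l 1) (l 188473202631)) (b (a (l 183641266007) (a (l 15696824) (b (a (b (a (l 15682312) (l 15683600)) (l 15688328)) (b (l 15689688) (l 15689728))) (b (l 15694768) (l 15701152))))) (l 102573806791))) (a (a (l 158408487095) (l 15754048)) (l 15755864)))))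 (b (a (b (a (a (l 1) (b (l 1) (l 181493894103))) (b (a (l 183104607271) (l 135323178279)) (l 129954368183))) (a (b (a (l 179346320743) (l 131028000983)) (a (l 131564766471) (l 15747944))) (b (l 15768344) (l 15801968)))) (b (a (b (l 15915672) (l 15900480)) (l 15992168)) (a (l 15881472) (l 15960384)))) (a (a (b (a (b (b (l 15710560) (a (a (l 15698376) (l 15705528)) (l 15717976))) (a (b (a (l 15707808) (l 15707952)) (l 15721024)) (b (l 15717472) (l 15720624)))) (l 15742512)) (a (b (l 15742080) (l 15773072)) (b (a (l 15739184) (l 15750192)) (l 15763680)))) (b (l 15793536) (b (l 15790376) (l 15790632)))) (b (l 15879792) (l 15889448)))))), by decide +kernel⟩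

def k1_pm_112_b : ∃ t, chk3 f_pm_112_b t 5 4 1 = true :=
  ⟨(a (b (b (a (a (b (b (l 1) (a (l 1) (l 201359132567))) (b (a (l 187400419383) (l 16280240)) (a (l 16195792) (l 16248440)))) (b (b (b (a (l 1) (a (l 136935009303) (l 16489032))) (a (l 190621889799) (l 16434280))) (b (a (l 31171195975) (l 16436712)) (l 34392371383))) (b (l 16300696) (l 16329776)))) (b (a (b (b (a (l 16534656) (l 16596440)) (l 16482888)) (l 16453608)) (b (a (l 16648808) (l 16669512)) (l 16596728))) (a (b (l 16478560) (l 16441904)) (l 16494056)))) (a (b (a (b (l 16192584) (l 16164568)) (l 16281672)) (a (l 16125616) (l 16223344))) (b (a (l 16389512) (l 16501736)) (l 16295072)))) (b (a (b (l 16042624) (l 16086136)) (a (l 16242208) (l 16339240))) (a (b (l 16054280) (l 16031488)) (l 16203136)))) (b (b (a (a (b (a (b (l 16728392) (l 16704472)) (l 16746200)) (a (l 16668048) (b (l 16731952) (l 16704848)))) (l 214379087623)) (l 3)) (a (b (a (l 16575280) (a (l 16696232) (l 16720496))) (a (l 16541328) (l 16629448))) (b (l 3) (l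 16668088)))) (a (b (a (l 16439712) (l 16480656)) (l 16378408)) (b (a (b (l 16670776) (l 16614480)) (l 16614376)) (a (l 16518240) (l 16589040)))))), by decide +kernel⟩

def k2_pm_112_b : ∃ t, chk3 f_pm_112_b t 2 5 1 = true :=
  ⟨(a (b (a (b (a (b (a (l 197600316311) (l 103110974903)) (a (l 15955280) (l 15955608))) (b (a (l 15866208) (l 15841728)) (l 15921496))) (a (b (l 16034968) (l 16106512)) (l 16028208))) (b (a (a (l 15850328) (b (a (l 15782512) (l 15813248)) (l 15862736))) (b (l 15887688) (a (l 15849384) (l 15924040)))) (a (l 15982456) (b (a (l 15917016) (l 15939080)) (l 15986360))))) (a (b (a (l 16218552) (l 16179616)) (l 16274128)) (b (a (l 16138528) (l 16098208)) (l 16285408)))) (b (a (b (a (l 16015080) (l 16151904)) (a (l 16029080) (l 16141152))) (b (a (l 16300912) (l 16463448)) (a (l 16263904) (l 16399152)))) (a (b (a (b (l 16068448) (l 16121392)) (l 16171680)) (a (l 16236536) (l 16247792))) (b (l 16216304) (l 16310016))))), by decide +kernel⟩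

def k3_pm_112_b : ∃ t, chk3 f_pm_112_b t 2 3 1 = true :=
  ⟨(b (a (b (a (b (l 16503696) (l 16672944)) (b (l 16461168) (l 16639920))) (a (b (l 16543328) (l 16339456)) (l 16363480))) (b (a (b (a (l 16413944) (l 16391712)) (l 16586856)) (b (a (l 16407656) (l 16454488)) (l 16459616))) (a (a (l 16430096) (l 16428232)) (b (l 16541184) (l 2))))) (b (a (a (l 16032472) (l 16017016)) (a (l 15880896) (l 2))) (a (a (l 15629800) (l 15614064)) (l 2)))), by decide +kernel⟩

def k4_pm_112_b : ∃ t, chk3 f_pm_112_b t 3 1 1 = true :=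
  ⟨(b (a (b (a (b (l 3) (a (b (l 3) (l 242296137751)) (l 3))) (l 3)) (a (b (b (a (a (l 16591688) (l 16650248)) (l 3)) (a (l 16547536) (l 276655816887))) (b (a (l 16492968) (l 16550536)) (a (l 16477016) (l 16571352)))) (b (l 3) (a (b (l 261623474519) (l 2)) (l 2))))) (l 3)) (b (a (b (a (b (l 16538656) (l 2)) (l 2)) (l 2)) (l 2)) (l 2))), by decide +kernel⟩

theorem s5_pm_112_b : ∃ t, chk3 f_pm_112_b t 2 4 1 = true := ex3_a k0_pm_112_b k1_pm_112_b

theorem s6_pm_112_b : ∃ t, chk3 f_pm_112_b t 2 2 1 = true := ex3_b s5_pm_112_b k2_pm_112_b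

theorem s7_pm_112_b : ∃ t, chk3 f_pm_112_b t 2 1 1 = true := ex3_b s6_pm_112_b k3_pm_112_b

theorem s8_pm_112_b : ∃ t, chk3 f_pm_112_b t 1 1 1 = true := ex3_a s7_pm_112_b k4_pm_112_b

theorem c_pm_112_b : CertB 536870912 536870912 1239849684 370763052 1033476505 6710887 3 eng mog cd0q1 cd1q2b pd1 false true false .dn 1 1 2
    ndB0q1 ndB1q2b pcB1 Cut.none Ext.none :=
  certB1 (fam := false) (s1 := true) (s2 := false) (a := 1) (b := 1) (c := 2) (cn := .dn) (n1 := ndB0q1) (n2 := ndB1q2b) (pc := pcB1) (cut := Cut.none) (xt := Ext.none) (P1 := 536870912) (W1 := 536870912) (P2 := 1239849684) (W2 := 370763052) (P3 := 1033476505) (W3 := 6710887) (N0 := 3) (En := eng) (mo := mog) (C1 := cd0q1) (C2 := cd1q2b) (C3 := pd1)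
    rfl (fun _ => rfl) s8_pm_112_b

noncomputable def cut_pm_113 : Cut := Cut.of [[⟨0, 1, 0, 20971520⟩, ⟨1, 1, 0, 20971520⟩, ⟨2, 2, 0, 1572864⟩]]

noncomputable def xt_pm_113 : Ext := extD3 3 ⟨4, 1, 1, 5, 27, 5, 41, 50, 81, 200, 1, 64⟩ eng cd0q1 cd1q3 pd1 false true false .nn 1 1 3 rfl ndB0q1 ndB1q3 pcB1

noncomputable def f_pm_113 : ℕ → ℕ → ℕ → ℕ → Bool := onCell 536870912 536870912 536870912 536870912 1033476505 6710887
    (rowB 3 eng mog cd0q1 cd1q3 pd1 1 false true false .nn 1 1 3 (qsf 536870912 536870912 1610612736 536870912 1) ndB0q1 ndB1q3 pcB1 cut_pm_113 xt_pm_113)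

def k0_pm_113 : ∃ t, chk3 f_pm_113 t 2 1 1 = true :=
  ⟨(b (b (l 1) (a (l 1) (b (l 1) (a (l 1) (b (l 1) (l 16064928)))))) (b (a (b (l 1) (a (l 1) (l 16223488))) (b (a (b (l 1) (l 16403760)) (b (l 69825275111) (l 16215744))) (a (l 59088070055) (b (l 16495512) (l 16291280))))) (b (a (a (l 15789720) (l 15880768)) (a (a (l 15934584) (l 15941776)) (a (l 15953464) (l 15975000)))) (a (a (l 15475480) (l 15485768)) (a (a (l 15520144) (l 15528384)) (a (l 15540736) (l 15562080))))))), by decide +kernel⟩

def k1_pm_113 : ∃ t, chk3 f_pm_113 t 3 2 1 = true :=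
  ⟨(a (b (a (l 1) (l 3)) (a (b (b (l 1) (a (l 1) (l 281487274327))) (b (a (l 16315208) (l 241221848775)) (a (l 16310872) (l 16417688)))) (b (l 3) (a (b (l 261623250263) (l 249812102199)) (l 3))))) (l 3)), by decide +kernel⟩

def k2_pm_113 : ∃ t, chk3 f_pm_113 t 3 6 1 = true :=
  ⟨(a (b (a (b (a (l 16354768) (l 16427080)) (l 16471640)) (a (b (l 16500240) (l 16527160)) (b (l 309404798295) (l 291688000567)))) (a (b (l 16545256) (a (l 16344440) (l 16396088))) (b (a (l 16567832) (l 16548208)) (a (l 16438328) (l 16451032))))) (a (b (a (b (l 3) (l 426979218839)) (l 3)) (a (b (l 454359514455) (b (l 301351436551) (l 16317304))) (b (l 3) (a (b (l 448453601047) (l 16122840)) (l 3))))) (l 3))), by decide +kernel⟩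

def k3_pm_113 : ∃ t, chk3 f_pm_113 t 6 7 1 = true :=
  ⟨(b (a (b (a (l 16115312) (l 16163704)) (a (l 15892888) (l 15922880))) (b (a (l 16216960) (l 16225792)) (a (l 15959528) (b (l 16050584) (l 15919424))))) (a (b (a (l 15685032) (l 15706512)) (l 15503152)) (b (a (b (l 15783496) (l 15677208)) (b (l 15797592) (l 15696928))) (a (l 15528344) (a (l 15544888) (l 15549800)))))), by decide +kernel⟩

def k4_pm_113 : ∃ t, chk3 f_pm_113 t 7 14 1 = true :=
  ⟨(a (b (a (a (l 16206808) (l 16140416)) (a (b (l 16095632) (l 16002640)) (b (l 540795222215) (l 326046924215)))) (a (b (l 15995152) (l 15868784)) (a (b (l 15897144) (l 15789376)) (b (l 15817008) (l 15729568))))) (a (b (a (a (b (l 3) (l 565491095463)) (l 3)) (l 3)) (a (b (a (l 317456650631) (l 505361324279)) (a (l 15690512) (a (l 15675712) (l 328193914007)))) (a (b (l 3) (b (l 443620973847) (l 422683184695))) (l 3)))) (l 3))), by decide +kernel⟩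

def k5_pm_113 : ∃ t, chk3 f_pm_113 t 14 15 1 = true :=
  ⟨(b (a (b (l 15584016) (l 15668912)) (b (a (l 15692224) (b (l 15673904) (l 15645928))) (a (l 15639400) (l 15637688)))) (a (a (l 15547008) (l 15547616)) (a (l 15569208) (b (l 15636472) (l 15635840))))), by decide +kernel⟩

def k6_pm_113 : ∃ t, chk3 f_pm_113 t 15 30 1 = true :=
  ⟨(a (b (a (a (l 15642776) (b (l 15649368) (l 15647184))) (a (b (l 15672552) (l 15682128)) (b (l 458116533063) (l 133074268134752271)))) (a (a (l 15657488) (b (l 15669536) (l 15708008))) (a (b (l 15718504) (l 15774408)) (b (l 15788280) (l 15864712))))) (a (b (a (l 8871097664464688720828350479) (l 3)) (b (a (l 8155413579255715910732873743) (l 3)) (a (l 2739425907381998950164414479) (l 8706683753001075881148481615)))) (l 3))), by decide +kernel⟩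

def k7_pm_113 : ∃ t, chk3 f_pm_113 t 30 31 1 = true :=
  ⟨(a (a (l 15732400) (b (l 15774472) (l 15905528))) (b (a (l 15877592) (l 16014160)) (a (l 16089312) (l 16339048)))), by decide +kernel⟩

def k8_pm_113 : ∃ t, chk3 f_pm_113 t 62 31 1 = true :=
  ⟨(a (b (b (l 16105592) (l 16286840)) (l 16664760)) (b (a (b (l 3909666100772845528420188367) (l 16494120)) (c (b (b (l 8416541556296332900265443407) (a (l 288466882599) (b (l 455970603495) (a (l 309941939351) (b (l 448454564135) (l 6066389762969116401086300239)))))) (l 599285859627717237468767)) (b (b (l 477981787975) (b (l 7942642635006982304704397391) (b (l 7226958549797078139442905167) (l 5418405523654035997608378447)))) (l 141901424094888015)))) (l 143064638909628495))), by decide +kernel⟩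

def k9_pm_113 : ∃ t, chk3 f_pm_113 t 63 124 1 = true :=
  ⟨(a (a (b (l 3) (c (l 8416541556299441632540426319) (l 8716355159562152367822782543))) (l 3)) (l 3)), by decide +kernel⟩

def k10_pm_113 : ∃ t, chk3 f_pm_113 t 63 250 1 = true :=
  ⟨(a (a (b (a (a (c (b (l 7488086526836076372653703247) (l 6153432421981998759977566287)) (b (l 7797571536655630817640431695) (l 5969675697398828276211843151))) (c (a (l 7391372461267406110432297039) (l 3)) (c (l 8097385139921244745198125135) (l 8261799051387897047841833039)))) (l 3)) (a (a (l 16739728) (c (b (b (a (l 347523174183) (l 432348860679)) (l 6675688376055609823060820047)) (l 16774984)) (a (l 6018032730184644690182471759) (b (b (l 7903957008783279766688825423) (c (l 370071747031) (l 6346860553119441813998387279))) (l 16741936))))) (b (c (l 467782326807) (l 8184427798934699193732857935)) (a (a (c (b (a (l 387788578135) (l 438254461751)) (l 360945050455)) (c (b (a (l 387251706871) (l 436643848647)) (l 367387485335)) (b (l 7478415120279816984669274191)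 (l 6259817894108101383089291343)))) (b (l 3) (c (l 436106972039) (c (l 434496343207) (l 7749214503873561677321109583))))) (l 3))))) (l 3)) (l 3)), by decide +kernel⟩

def k11_pm_113 : ∃ t, chk3 f_pm_113 t 252 251 1 = true :=
  ⟨(b (a (l 16783208) (a (b (a (l 143668202190225487) (c (b (a (l 356113212839) (l 7401043867824476594488295503)) (l 16793256)) (c (b (a (l 355576341591) (l 7372029648153769474760097871)) (l 16793096)) (b (a (l 343765063639) (b (l 429664506199) (l 6762731035068070175362449487))) (l 16772016))))) (l 16776304)) (a (c (b (b (l 458118682279) (a (l 6956159166206323226043449423) (l 442012557351))) (l 6462917431803583797261107279)) (c (b (b (l 457044940071) (a (l 6956159166206408506913718351) (l 440401944247))) (l 6443574618689862499126804559)) (b (b (l 455971197991) (a (b (a (l 6898130726864919363213262927) (l 435033236311)) (l 6530617277702089892464296015)) (b (l 3) (l 7778228723544345350599262287)))) (a (l 16793512) (b (c (l 6704702595726609206723657807) (l 6704702595726619033608716367))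 (l 16792960)))))) (b (l 3) (a (c (b (l 428053909159) (l 359334437831)) (c (b (l 426443296071) (l 358797566903)) (b (b (l 453286845687) (a (l 6965830572763373781385265231) (l 437180719543))) (l 6453246025246798842698612815)))) (b (l 3) (c (l 7468743713722976161339310159) (c (l 7430058087495347472727982159) (b (a (l 7613814812076822028415205455) (l 3)) (a (l 357723824903) (l 7284986989141656499349897295))))))))))) (c (l 143683732856373327) (c (l 143899305854779471) (a (l 16806000) (l 143865152262733903))))), by decide +kernel⟩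

def k12_pm_113 : ∃ t, chk3 f_pm_113 t 253 251 1 = true :=
  ⟨(b (a (a (b (l 3) (c (l 469392954871) (c (l 468319202119) (a (l 462950509095) (l 3))))) (l 3)) (l 3)) (b (a (a (a (c (b (a (l 7023859012104821830821757007) (l 446307523799)) (l 6617659936714335015423656015)) (c (b (a (l 7139915890787865470418436175) (l 444696910695)) (l 6598317123600583274561159247)) (b (a (b (a (l 6994844792434158966438232143) (l 439328202775)) (l 6578974310486743366611550287)) (b (l 3) (a (l 7652500438304523903268438095) (l 3)))) (a (l 16792184) (b (a (l 359334437191) (l 7304329802255523895090954319)) (l 16791176)))))) (b (l 3) (a (c (l 7787900130101332958899011663) (c (l 7758885910430571344625745999) (b (l 458118683031) (a (l 7033530418661860016657727567) (l 441475685959))))) (l 3)))) (l 3)) (l 3)) (a (a (a (l 143807427912745039) (c (b (a (l 362555662391) (l 7536443559621470986546331727)) (l 16792368)) (c (b (a (l 361481920567) (b (l 438791331207) (l 396378531079))) (l 16792208)) (b (a (l 6501603058031449430627795023)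 (b (a (l 7681514657975307576492884047) (l 3)) (a (l 360945049463) (l 7323672615369390053881413711)))) (l 16781624))))) (a (c (b (l 467245486039) (a (l 7081887451446397148730097743) (l 450065619223))) (c (b (l 465634872919) (a (b (l 418390237271) (l 368461241703)) (l 448991877031))) (b (l 465097991271) (a (b (a (l 7052873231775725763131310159) (l 443623169127)) (l 6627331343271392167834288207)) (b (l 3) (a (l 7720200284203005396896923727) (l 3))))))) (l 3))) (l 3)))), by decide +kernel⟩

def k13_pm_113 : ∃ t, chk3 f_pm_113 t 127 251 1 = true :=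
  ⟨(l 3), by decide +kernel⟩

def k14_pm_113 : ∃ t, chk3 f_pm_113 t 252 126 1 = true :=
  ⟨(l 143807084228378703), by decide +kernel⟩

def k15_pm_113 : ∃ t, chk3 f_pm_113 t 506 126 1 = true :=
  ⟨(b (a (l 143977165013614671) (b (c (b (a (l 6549960090815980240508043343) (b (a (l 7855599975999812597101592655) (l 3)) (a (l 364166274087) (l 7604143405519944233837527119)))) (l 143871474464686159)) (c (b (a (l 6530617277702155863158653007) (b (a (l 7836257162885964717691109455) (l 3)) (a (l 363629403191) (b (l 443086297479) (l 399599755511))))) (l 16788720)) (b (a (b (a (l 16791696) (b (a (l 361481919879) (l 7343015428483250989991608399)) (l 16790688))) (l 16792736)) (b (a (b (l 462413649351) (a (l 7072216044889583813023465551) (l 445770652279))) (l 3)) (a (l 6530617277702253376097321039) (b (a (l 7758885910430648860194848847) (l 3)) (a (l 362555661159) (l 7372029648154021950112792655)))))) (l 143909338895941711)))) (l 16777848))) (l 16785400)), by decide +kernel⟩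

def k16_pm_113 : ∃ t, chk3 f_pm_113 t 507 126 1 = true :=
  ⟨(a (b (b (a (c (b (l 474761665319) (b (a (l 7149587297344863043037020239) (l 454360580039)) (l 6646674156385195585740472399))) (c (b (l 473151052183) (b (a (b (l 7604143405519995223688659023) (l 368461240535)) (l 8165084985821201233972265039)) (l 6627331343271391068320022607))) (b (b (l 3) (a (l 466708615111) (l 3))) (b (a (b (a (l 7101230264560354360827773007) (l 8068370920252027807620726863)) (l 6627331343271432987202289743)) (b (l 3) (a (l 7845928569442944354531655759) (l 3)))) (a (l 16790984) (b (a (l 360945047831) (l 7459072307166292018242928719)) (l 16789840))))))) (b (l 3) (b (l 3) (a (c (l 7903957008784437552665051215) (c (l 7923299821898291685547196495) (b (l 468856098631) (a (l 7188272923572622848409681999) (l 452213101319))))) (l 3))))) (a (l 143934421505687631) (b (b (c (a (l 363629401351) (l 7681514657975320083434963023)) (c (a (l 362555659223) (b (l 448991875319) (l 401747236775))) (a (l 6511274464588451126417555535)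 (b (l 8078042326808958722350530639) (l 7033530418661915954307547215))))) (c (l 16790520) (l 144075983635873871))) (l 16771776)))) (l 16770648)) (b (b (l 3) (a (c (b (b (l 475298546167) (a (l 7130244484231065191403470927) (l 458655549783))) (l 6472588838360721351453638735)) (c (b (b (l 474224803975) (a (l 7391372461267851481422430287) (l 458118678535))) (l 6549960090816081533012459599)) (b (b (l 474224798471) (a (b (a (l 7197944330129553419542806607) (l 454360583575)) (l 368998108423)) (b (l 3) (l 8107056546479724597229551695)))) (b (a (l 16789568) (l 6830430880966690482390220879)) (l 16790368))))) (b (l 3) (a (c (b (l 8000671074353809921900298335) (l 364166269463)) (c (b (l 7990999667796739506630230095) (l 363629398263)) (b (b (l 473151063159) (a (l 408726556327) (l 456508065863))) (l 362555656231)))) (b (l 3) (c (l 7729871690760138209446510687) (c (l 7720200284203044566993322063) (b (l 452213095191) (l 7052873231775796063149359183))))))))) (b (c (l 143957305088671823) (l 143980669718560847))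 (l 16790736)))), by decide +kernel⟩

def k17_pm_113 : ∃ t, chk3 f_pm_113 t 126 127 1 = true :=
  ⟨(l 143487744756957263), by decide +kernel⟩

def k18_pm_113 : ∃ t, chk3 f_pm_113 t 127 126 1 = true :=
  ⟨(a (a (a (b (b (l 3) (b (l 3) (a (a (c (l 477982897895) (c (l 477982897527) (l 477982892039))) (l 3)) (l 3)))) (b (a (b (c (b (a (l 6578974310486826929486086223) (l 462413643463)) (l 370071846343)) (c (b (a (l 7449400900609382887583154255) (l 461876772215)) (l 6646674156385281004044369999)) (b (a (b (l 7758885910430738126789443663) (l 368998105703)) (l 8319827490731939601587519567)) (l 6637002749828373866251010127)))) (l 16779384)) (b (b (l 3) (a (c (l 447381258135) (b (l 477982898823) (a (l 7255972769471062904189190223) (l 461339901511)))) (l 3))) (c (b (a (l 363092524919) (l 432348870151)) (l 16787752)) (b (a (l 6520945871145363899202142287) (b (l 8223113425162756348349104207) (l 7043201825218892017730109519))) (l 16782344))))) (l 16771944))) (b (l 3) (b (a (b (l 3) (c (b (l 482814733607)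 (a (l 416779611239) (l 465634866311))) (b (l 483351598807) (a (b (a (l 403894712263) (l 462950512951)) (l 367924361255)) (b (l 3) (l 458655542311)))))) (l 3)) (c (b (a (l 6192118048210179953315905615) (b (a (l 450602480983) (l 3)) (a (l 362018780439) (l 435570095639)))) (l 144046983997030479)) (b (a (b (l 6627331343271465285346394191) (l 16787688)) (b (a (b (l 482277863543) (l 7865271382556843429943115855)) (l 3)) (a (l 360945038295) (b (l 460266156407) (l 406042193351))))) (l 144063407951741007)))))) (a (b (l 3) (b (l 3) (a (c (b (l 487646557047) (b (a (l 420000839367) (l 469392960151)) (l 367924357559))) (b (b (l 3) (l 487646558375)) (b (a (l 7101230264560402327010099279) (l 470466696343)) (l 6617659936714559659379392591)))) (b (l 3) (a (b (l 3) (c (l 452213091175) (l 8165084985821420105494954079))) (l 3)))))) (l 3))) (l 3)), by decide +kernel⟩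

def k19_pm_113 : ∃ t, chk3 f_pm_113 t 254 127 1 = true :=
  ⟨(b (a (l 143899924281786447) (b (b (a (a (l 16766192) (a (c (l 348060133959) (l 353965713735)) (b (c (l 434496351271) (l 7836257162886233685710553183)) (l 16781712)))) (a (c (b (l 486572824983) (a (l 416242740423) (l 466708603095))) (b (l 488183437335) (a (l 6520945871145391112106410063) (l 468319215479)))) (l 3))) (a (l 16767680) (c (a (l 5244320205632425785464422495) (b (l 461339887351) (a (l 16780456) (l 430738252391)))) (a (l 4896149569583335617334870095) (b (a (l 450602470391) (l 3)) (a (l 359334420487) (l 7797571536658543218287509599))))))) (c (l 144083817628450895) (l 144095843536846927)))) (l 143888860415049807)), by decide +kernel⟩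

def k20_pm_113 : ∃ t, chk3 f_pm_113 t 255 254 1 = true :=
  ⟨(a (b (a (a (b (l 3) (c (l 486035939479) (l 488183422743))) (l 3)) (l 3)) (a (a (b (c (b (a (l 397989126919) (l 463487375191)) (l 319605970039)) (b (a (l 6501603058031565841401954383) (l 468319213095)) (l 4838121130241842694076285007))) (l 16774048)) (b (a (b (l 3) (c (l 445233759143) (l 8155413579264463489673740383))) (l 3)) (a (c (l 4992863635152514541238206543) (l 5012206448266355136389677135)) (b (c (l 404431572631) (b (l 455434310887) (l 388325445863))) (l 16779200))))) (b (l 3) (a (c (b (l 481204100647) (a (b (l 402284091047) (l 16779544)) (l 460266142087))) (b (l 483888454903) (a (l 6675688376056143635935101023) (l 463487369943)))) (l 3))))) (l 3)), by decide +kernel⟩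

def k21_pm_113 : ∃ t, chk3 f_pm_113 t 510 255 1 = true :=
  ⟨(b (a (l 144010081599684687) (b (a (a (l 16777312) (b (c (l 310479163335) (l 5041220667937158944418578527)) (l 16771416))) (b (a (b (l 477982884119) (c (l 386177957255) (l 404431570695))) (l 3)) (c (a (l 261087038887) (b (l 450065599671) (a (l 16779952) (l 382956736503)))) (a (l 260550167847) (b (l 453286822327) (l 6298503520336323258332856399)))))) (c (l 144111167973474383) (l 144094262992912463)))) (l 143916760534597711)), by decide +kernel⟩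

def k22_pm_113 : ∃ t, chk3 f_pm_113 t 511 255 1 = true :=
  ⟨(b (a (b (a (b (l 3) (a (b (l 3) (l 8580955467768780592292528223)) (l 3))) (l 3)) (a (b (a (b (c (a (l 354502576615) (l 453823695543)) (a (l 356113189207) (l 457581791767))) (c (l 279340649015) (l 278803777975))) (b (l 3) (c (a (l 388325444391) (l 3)) (l 8435884369415025228766920799)))) (a (l 16775416) (b (a (l 284172487223) (b (l 407652795575) (a (l 16778368) (l 359334414247)))) (l 16777072)))) (b (l 3) (a (b (c (l 472614175479) (l 476909137367)) (a (b (a (l 356113188823) (l 377588024583)) (l 279877519431)) (c (l 413558376023) (l 456508047543)))) (l 3))))) (l 3)) (a (b (a (l 16775128) (b (a (b (c (l 4876806756469522441254125647) (l 4896149569583358981950505039)) (l 16774504)) (a (b (b (l 471540434183) (c (l 357723800455) (l 6366203366234746752722468943))) (c (l 205789332999) (l 268066358711))) (b (l 3) (b (c (l 391009797575) (l 410874019895)) (a (l 285783098887) (b (l 364703122343) (l 355039446375))))))) (c (l 144113229564575823)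 (l 144115909624168527)))) (l 16770592)) (b (a (b (a (b (l 3) (c (l 8958140323488529776513826911) (a (l 474224785127) (l 3)))) (l 3)) (b (a (a (a (c (l 275045680231) (l 4789764097457272988965404751)) (c (b (l 390472926423) (l 273971938439)) (b (l 410874020999) (l 272898196391)))) (a (b (l 3) (c (l 360408154439) (l 362555638007))) (l 3))) (l 3)) (a (b (a (l 16776064) (a (l 271287583735) (c (c (l 355576316295) (l 357186928999)) (l 6337189146563997988991320143)))) (l 16777720)) (a (b (c (l 468319207719) (l 472614174919)) (a (b (c (l 357186929223) (l 359871283719)) (l 281488130967)) (c (l 392620408903) (l 6733716815397594159271034959)))) (l 3))))) (l 3)) (a (b (a (l 16776264) (a (b (b (c (l 4615678779432766387807600719) (l 4615678779432767556038492239)) (l 16775800)) (l 16778200)) (b (a (b (b (l 467782337079) (c (l 6279160707222496200922300495) (l 6346860553120916328058994767))) (l 4731735658115772162968797263)) (b (l 3) (l 6))) (l 6)))) (l 16773640)) (b (b (b (l 3) (l 6)) (l 6)) (l 6)))))), by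 decide +kernel⟩

theorem s23_pm_113 : ∃ t, chk3 f_pm_113 t 255 255 1 = true := ex3_a k21_pm_113 k22_pm_113

theorem s24_pm_113 : ∃ t, chk3 f_pm_113 t 255 127 1 = true := ex3_b k20_pm_113 s23_pm_113

theorem s25_pm_113 : ∃ t, chk3 f_pm_113 t 127 127 1 = true := ex3_a k19_pm_113 s24_pm_113

theorem s26_pm_113 : ∃ t, chk3 f_pm_113 t 127 63 1 = true := ex3_b k18_pm_113 s25_pm_113

theorem s27_pm_113 : ∃ t, chk3 f_pm_113 t 253 126 1 = true := ex3_a k15_pm_113 k16_pm_113

theorem s28_pm_113 : ∃ t, chk3 f_pm_113 t 126 126 1 = true := ex3_a k14_pm_113 s27_pm_113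

theorem s29_pm_113 : ∃ t, chk3 f_pm_113 t 126 63 1 = true := ex3_b s28_pm_113 k17_pm_113

theorem s30_pm_113 : ∃ t, chk3 f_pm_113 t 63 63 1 = true := ex3_a s29_pm_113 s26_pm_113

theorem s31_pm_113 : ∃ t, chk3 f_pm_113 t 126 251 1 = true := ex3_a k11_pm_113 k12_pm_113

theorem s32_pm_113 : ∃ t, chk3 f_pm_113 t 63 251 1 = true := ex3_a s31_pm_113 k13_pm_113

theorem s33_pm_113 : ∃ t, chk3 f_pm_113 t 63 125 1 = true := ex3_b k10_pm_113 s32_pm_113

theorem s34_pm_113 : ∃ t, chk3 f_pm_113 t 63 62 1 = true := ex3_b k9_pm_113 s33_pm_113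

theorem s35_pm_113 : ∃ t, chk3 f_pm_113 t 63 31 1 = true := ex3_b s34_pm_113 s30_pm_113

theorem s36_pm_113 : ∃ t, chk3 f_pm_113 t 31 31 1 = true := ex3_a k8_pm_113 s35_pm_113

theorem s37_pm_113 : ∃ t, chk3 f_pm_113 t 15 31 1 = true := ex3_a k7_pm_113 s36_pm_113

theorem s38_pm_113 : ∃ t, chk3 f_pm_113 t 15 15 1 = true := ex3_b k6_pm_113 s37_pm_113

theorem s39_pm_113 : ∃ t, chk3 f_pm_113 t 7 15 1 = true := ex3_a k5_pm_113 s38_pm_113

theorem s40_pm_113 : ∃ t, chk3 f_pm_113 t 7 7 1 = true := ex3_b k4_pm_113 s39_pm_113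

theorem s41_pm_113 : ∃ t, chk3 f_pm_113 t 3 7 1 = true := ex3_a k3_pm_113 s40_pm_113

theorem s42_pm_113 : ∃ t, chk3 f_pm_113 t 3 3 1 = true := ex3_b k2_pm_113 s41_pm_113

theorem s43_pm_113 : ∃ t, chk3 f_pm_113 t 3 1 1 = true := ex3_b k1_pm_113 s42_pm_113

theorem s44_pm_113 : ∃ t, chk3 f_pm_113 t 1 1 1 = true := ex3_a k0_pm_113 s43_pm_113

theorem c_pm_113 : CertB 536870912 536870912 1610612736 536870912 1033476505 6710887 3 eng mog cd0q1 cd1q3 pd1 false true false .nn 1 1 3
    ndB0q1 ndB1q3 pcB1 cut_pm_113 xt_pm_113 :=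
  certB1 (fam := false) (s1 := true) (s2 := false) (a := 1) (b := 1) (c := 3) (cn := .nn) (n1 := ndB0q1) (n2 := ndB1q3) (pc := pcB1) (cut := cut_pm_113) (xt := xt_pm_113) (P1 := 536870912) (W1 := 536870912) (P2 := 1610612736) (W2 := 536870912) (P3 := 1033476505) (W3 := 6710887) (N0 := 3) (En := eng) (mo := mog) (C1 := cd0q1) (C2 := cd1q3) (C3 := pd1)
    rfl (fun _ => rfl) s44_pm_113

noncomputable def cut_pm_123 : Cut := Cut.of [[⟨0, 1, 0, 20971520⟩, ⟨1, 1, 0, 20971520⟩, ⟨2, 2, 0, 1572864⟩]]

noncomputable def xt_pm_123 : Ext := extD3 3 ⟨4, 1, 1, 5, 27, 5, 41, 50, 81, 200, 1, 64⟩ eng cd0q1 cd1q3 pd2 false true false .npn 1 2 3 rfl ndB0q1 ndB1q3 pcB2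

noncomputable def f_pm_123 : ℕ → ℕ → ℕ → ℕ → Bool := onCell 536870912 536870912 1073741824 536870912 1033476505 6710887
    (rowB 3 eng mog cd0q1 cd1q3 pd2 1 false true false .npn 1 2 3 (qsf 536870912 536870912 1610612736 536870912 2) ndB0q1 ndB1q3 pcB2 cut_pm_123 xt_pm_123)

def k0_pm_123 : ∃ t, chk3 f_pm_123 t 2 1 1 = true :=
  ⟨(b (a (b (a (b (b (a (l 15652352) (l 15647552)) (l 15518280)) (a (l 15386984) (l 15409104))) (b (a (b (l 15646672) (l 15553088)) (b (l 15647808) (l 15565880))) (a (l 15435360) (l 15464480)))) (a (b (l 15249200) (l 15140976)) (b (l 15339088) (l 15262024)))) (b (a (b (a (b (l 15649152) (l 15579616)) (b (l 15648880) (l 15593008))) (a (l 15495512) (l 15527944))) (b (a (b (l 15651536) (l 15609656)) (b (l 15661000) (l 15632048))) (a (l 15563968) (l 15603904)))) (a (b (l 15441656) (l 15397696)) (b (l 15557344) (a (l 15507720) (l 15580024)))))) (a (b (a (b (l 15067696) (l 15023552)) (b (l 15211656) (l 15180704))) (a (b (l 15002728) (l 15003184)) (b (l 15163648) (l 15194832))))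 (b (a (b (a (l 15325784) (l 15409392)) (l 15348776)) (b (l 15531416) (l 15529560))) (a (b (l 15357856) (l 2)) (l 2))))), by decide +kernel⟩

def k1_pm_123 : ∃ t, chk3 f_pm_123 t 3 1 1 = true :=
  ⟨(b (a (a (b (b (a (b (l 15672416) (l 15656176)) (b (l 15680784) (l 15678912))) (a (l 15644992) (l 15686912))) (b (a (l 15644944) (l 15707064)) (a (l 15646128) (l 15706576)))) (b (a (b (b (l 15682616) (l 15700528)) (l 15735672)) (b (a (b (l 15680000) (l 15720888)) (b (l 15672840) (l 15744304))) (b (l 15789208) (a (l 15811192) (l 15887336))))) (a (b (l 15775800) (l 15772288)) (b (a (l 15829864) (l 15889824)) (l 2))))) (b (b (a (a (b (a (l 15667072) (l 15681504)) (a (l 15793024) (l 15886936))) (a (b (l 15740008) (l 16047384)) (b (l 15874976) (b (l 16188808) (l 16372608))))) (b (a (a (a (l 16050712) (l 16218344)) (a (l 16428024) (b (l 16549256) (l 16543088)))) (a (b (a (l 142430289176608783) (l 142510622381359183)) (a (l 16590656) (l 16662680))) (b (a (a (l 143071235974250575) (l 142974341493342287))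 (b (a (l 143506505165324367) (b (b (a (l 16739896) (b (a (l 16748312) (l 6)) (l 461272751815))) (l 555225136711)) (l 590658575991))) (l 637366256903))) (b (l 634681801303) (l 2))))) (a (a (a (l 16465496) (l 16513296)) (a (b (l 16533008) (l 16525336)) (b (l 16544352) (l 2)))) (a (a (l 16601888) (l 2)) (l 2))))) (a (a (b (a (l 15922456) (l 16097720)) (l 15891272)) (b (a (l 16232968) (l 16366888)) (a (l 16227072) (l 2)))) (a (a (b (l 16449352) (l 2)) (l 2)) (l 2)))) (a (b (b (a (l 16035800) (l 2)) (l 2)) (l 2)) (l 2)))) (a (b (a (b (a (l 15631400) (l 2)) (l 2)) (l 2)) (l 2)) (l 2))), by decide +kernel⟩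

theorem s2_pm_123 : ∃ t, chk3 f_pm_123 t 1 1 1 = true := ex3_a k0_pm_123 k1_pm_123

theorem c_pm_123 : CertB 536870912 536870912 1610612736 536870912 1033476505 6710887 3 eng mog cd0q1 cd1q3 pd2 false true false .npn 1 2 3
    ndB0q1 ndB1q3 pcB2 cut_pm_123 xt_pm_123 :=
  certB1 (fam := false) (s1 := true) (s2 := false) (a := 1) (b := 2) (c := 3) (cn := .npn) (n1 := ndB0q1) (n2 := ndB1q3) (pc := pcB2) (cut := cut_pm_123) (xt := xt_pm_123) (P1 := 536870912) (W1 := 536870912) (P2 := 1610612736) (W2 := 536870912) (P3 := 1033476505) (W3 := 6710887) (N0 := 3) (En := eng) (mo := mog) (C1 := cd0q1) (C2 := cd1q3) (C3 := pd2)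
    rfl (fun _ => rfl) s2_pm_123

noncomputable def f_pm_133 : ℕ → ℕ → ℕ → ℕ → Bool := onCell 536870912 536870912 1610612736 536870912 1033476505 6710887
    (rowB 3 eng mog cd0q1 cd1q3 pd3 0 false true false .dn 1 3 3 (qsf 536870912 536870912 1610612736 536870912 3) ndB0q1 ndB1q3 pcB3 Cut.none Ext.none)

def k0_pm_133 : ∃ t, chk3 f_pm_133 t 1 1 1 = true :=
  ⟨(a (b (l 1) (a (b (l 1) (b (l 1) (a (l 14793680) (l 1)))) (l 1))) (l 1)), by decide +kernel⟩

theorem c_pm_133 : CertB 536870912 536870912 1610612736 536870912 1033476505 6710887 3 eng mog cd0q1 cd1q3 pd3 false true false .dn 1 3 3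
    ndB0q1 ndB1q3 pcB3 Cut.none Ext.none :=
  certB0 (fam := false) (s1 := true) (s2 := false) (a := 1) (b := 3) (c := 3) (cn := .dn) (n1 := ndB0q1) (n2 := ndB1q3) (pc := pcB3) (cut := Cut.none) (xt := Ext.none) (P1 := 536870912) (W1 := 536870912) (P2 := 1610612736) (W2 := 536870912) (P3 := 1033476505) (W3 := 6710887) (N0 := 3) (En := eng) (mo := mog) (C1 := cd0q1) (C2 := cd1q3) (C3 := pd3)
    rfl k0_pm_133

noncomputable def cut_pm_202_a : Cut := Cut.of [[⟨0, 1, 0, 33554432⟩, ⟨1, 0, 0, 33554432⟩, ⟨2, 1, 0, 33554432⟩], [⟨0, 0, 1, 46137344⟩, ⟨1, 1, 2, 46137344⟩, ⟨2, 1, 0, 1048576⟩, ⟨0, 0, 0, 1047972020⟩, ⟨0, 1, 0, 45097156⟩, ⟨1, 0, 0, 45097156⟩, ⟨1, 1, 0, 1047972020⟩]]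

noncomputable def f_pm_202_a : ℕ → ℕ → ℕ → ℕ → Bool := onCell 0 536870912 0 536870912 1033476505 6710887
    (rowB 3 eng mog cd0q2 cd1q2a pd0 0 false true false .pp 2 0 2 (qsf 0 536870912 0 536870912 0) ndB0q2 ndB1q2a pcB0 cut_pm_202_a Ext.none)

def k0_pm_202_a : ∃ t, chk3 f_pm_202_a t 1 1 1 = true :=
  ⟨(a (l 3) (b (l 3) (a (l 3) (b (l 3) (a (l 3) (b (l 3) (a (l 3) (b (l 3) (l 6))))))))), by decide +kernel⟩

theorem c_pm_202_a : CertB 0 536870912 0 536870912 1033476505 6710887 3 eng mog cd0q2 cd1q2a pd0 false true false .pp 2 0 2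
    ndB0q2 ndB1q2a pcB0 cut_pm_202_a Ext.none :=
  certB0 (fam := false) (s1 := true) (s2 := false) (a := 2) (b := 0) (c := 2) (cn := .pp) (n1 := ndB0q2) (n2 := ndB1q2a) (pc := pcB0) (cut := cut_pm_202_a) (xt := Ext.none) (P1 := 0) (W1 := 536870912) (P2 := 0) (W2 := 536870912) (P3 := 1033476505) (W3 := 6710887) (N0 := 3) (En := eng) (mo := mog) (C1 := cd0q2) (C2 := cd1q2a) (C3 := pd0)
    rfl k0_pm_202_a

noncomputable def cut_pm_202_b : Cut := Cut.of [[⟨0, 1, 0, 33554432⟩, ⟨1, 0, 0, 33554432⟩, ⟨2, 1, 0, 33554432⟩], [⟨0, 0, 1, 46137344⟩, ⟨1, 1, 2, 46137344⟩, ⟨2, 1, 0, 1048576⟩, ⟨0, 0, 0, 1047972020⟩, ⟨0, 1, 0, 45097156⟩, ⟨1, 0, 0, 45097156⟩, ⟨1, 1, 0, 1047972020⟩]]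

noncomputable def f_pm_202_b : ℕ → ℕ → ℕ → ℕ → Bool := onCell 0 536870912 1239849684 370763052 1033476505 6710887
    (rowB 3 eng mog cd0q2 cd1q2b pd0 0 false true false .pp 2 0 2 (qsf 0 536870912 1239849684 370763052 0) ndB0q2 ndB1q2b pcB0 cut_pm_202_b Ext.none)

def k0_pm_202_b : ∃ t, chk3 f_pm_202_b t 1 1 1 = true :=
  ⟨(l 3), by decide +kernel⟩

theorem c_pm_202_b : CertB 0 536870912 1239849684 370763052 1033476505 6710887 3 eng mog cd0q2 cd1q2b pd0 false true false .pp 2 0 2
    ndB0q2 ndB1q2b pcB0 cut_pm_202_b Ext.none :=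
  certB0 (fam := false) (s1 := true) (s2 := false) (a := 2) (b := 0) (c := 2) (cn := .pp) (n1 := ndB0q2) (n2 := ndB1q2b) (pc := pcB0) (cut := cut_pm_202_b) (xt := Ext.none) (P1 := 0) (W1 := 536870912) (P2 := 1239849684) (W2 := 370763052) (P3 := 1033476505) (W3 := 6710887) (N0 := 3) (En := eng) (mo := mog) (C1 := cd0q2) (C2 := cd1q2b) (C3 := pd0)
    rfl k0_pm_202_b

noncomputable def f_pm_203 : ℕ → ℕ → ℕ → ℕ → Bool := onCell 0 536870912 0 536870912 1033476505 6710887
    (rowB 3 eng mog cd0q2 cd1q3 pd0 1 false true false .up 2 0 3 (qsf 0 536870912 1610612736 536870912 0) ndB0q2 ndB1q3 pcB0 Cut.none Ext.none)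

def k0_pm_203 : ∃ t, chk3 f_pm_203 t 1 1 1 = true :=
  ⟨(l 3), by decide +kernel⟩

theorem c_pm_203 : CertB 0 536870912 1610612736 536870912 1033476505 6710887 3 eng mog cd0q2 cd1q3 pd0 false true false .up 2 0 3
    ndB0q2 ndB1q3 pcB0 Cut.none Ext.none :=
  certB1 (fam := false) (s1 := true) (s2 := false) (a := 2) (b := 0) (c := 3) (cn := .up) (n1 := ndB0q2) (n2 := ndB1q3) (pc := pcB0) (cut := Cut.none) (xt := Ext.none) (P1 := 0) (W1 := 536870912) (P2 := 1610612736) (W2 := 536870912) (P3 := 1033476505) (W3 := 6710887) (N0 := 3) (En := eng) (mo := mog) (C1 := cd0q2) (C2 := cd1q3) (C3 := pd0)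
    rfl (fun _ => rfl) k0_pm_203

noncomputable def cut_pm_213 : Cut := Cut.of [[⟨0, 1, 0, 20971520⟩, ⟨1, 1, 0, 20971520⟩, ⟨2, 2, 0, 1572864⟩]]

noncomputable def f_pm_213 : ℕ → ℕ → ℕ → ℕ → Bool := onCell 0 536870912 1610612736 536870912 1033476505 6710887
    (rowB 3 eng mog cd0q2 cd1q3 pd1 0 false true false .pnn 2 1 3 (qsf 0 536870912 1610612736 536870912 1) ndB0q2 ndB1q3 pcB1 cut_pm_213 Ext.none)

def k0_pm_213 : ∃ t, chk3 f_pm_213 t 1 1 1 = true :=
  ⟨(a (l 3) (b (l 3) (a (l 3) (b (l 3) (b (l 3) (a (l 3) (b (l 3) (a (l 3) (b (l 3) (a (l 3) (b (l 3) (b (l 3) (b (l 3) (b (l 3) (l 6))))))))))))))), by decide +kernel⟩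

theorem c_pm_213 : CertB 0 536870912 1610612736 536870912 1033476505 6710887 3 eng mog cd0q2 cd1q3 pd1 false true false .pnn 2 1 3
    ndB0q2 ndB1q3 pcB1 cut_pm_213 Ext.none :=
  certB0 (fam := false) (s1 := true) (s2 := false) (a := 2) (b := 1) (c := 3) (cn := .pnn) (n1 := ndB0q2) (n2 := ndB1q3) (pc := pcB1) (cut := cut_pm_213) (xt := Ext.none) (P1 := 0) (W1 := 536870912) (P2 := 1610612736) (W2 := 536870912) (P3 := 1033476505) (W3 := 6710887) (N0 := 3) (En := eng) (mo := mog) (C1 := cd0q2) (C2 := cd1q3) (C3 := pd1)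
    rfl k0_pm_213

noncomputable def f_mm_001 : ℕ → ℕ → ℕ → ℕ → Bool := onCell 0 536870912 536870912 536870912 1033476505 6710887
    (rowB 3 eng mog cd0q0 cd1q1 pd0 0 false false false .up 0 0 1 (qsf 0 536870912 536870912 536870912 0) ndB0q0 ndB1q1 pcB0 Cut.none Ext.none)

def k0_mm_001 : ∃ t, chk3 f_mm_001 t 1 1 1 = true :=
  ⟨(l 3), by decide +kernel⟩

theorem c_mm_001 : CertB 0 536870912 536870912 536870912 1033476505 6710887 3 eng mog cd0q0 cd1q1 pd0 false false false .up 0 0 1
    ndB0q0 ndB1q1 pcB0 Cut.none Ext.none :=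
  certB0 (fam := false) (s1 := false) (s2 := false) (a := 0) (b := 0) (c := 1) (cn := .up) (n1 := ndB0q0) (n2 := ndB1q1) (pc := pcB0) (cut := Cut.none) (xt := Ext.none) (P1 := 0) (W1 := 536870912) (P2 := 536870912) (W2 := 536870912) (P3 := 1033476505) (W3 := 6710887) (N0 := 3) (En := eng) (mo := mog) (C1 := cd0q0) (C2 := cd1q1) (C3 := pd0)
    rfl k0_mm_001

noncomputable def f_mm_011 : ℕ → ℕ → ℕ → ℕ → Bool := onCell 0 536870912 536870912 536870912 1033476505 6710887
    (rowB 3 eng mog cd0q0 cd1q1 pd1 0 false false false .pnn 0 1 1 (qsf 0 536870912 536870912 536870912 1) ndB0q0 ndB1q1 pcB1 Cut.none Ext.none)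

def k0_mm_011 : ∃ t, chk3 f_mm_011 t 1 1 1 = true :=
  ⟨(l 3), by decide +kernel⟩

theorem c_mm_011 : CertB 0 536870912 536870912 536870912 1033476505 6710887 3 eng mog cd0q0 cd1q1 pd1 false false false .pnn 0 1 1
    ndB0q0 ndB1q1 pcB1 Cut.none Ext.none :=
  certB0 (fam := false) (s1 := false) (s2 := false) (a := 0) (b := 1) (c := 1) (cn := .pnn) (n1 := ndB0q0) (n2 := ndB1q1) (pc := pcB1) (cut := Cut.none) (xt := Ext.none) (P1 := 0) (W1 := 536870912) (P2 := 536870912) (W2 := 536870912) (P3 := 1033476505) (W3 := 6710887) (N0 := 3) (En := eng) (mo := mog) (C1 := cd0q0) (C2 := cd1q1) (C3 := pd1)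
    rfl k0_mm_011

noncomputable def f_mm_012_a : ℕ → ℕ → ℕ → ℕ → Bool := onCell 0 536870912 0 536870912 1033476505 6710887
    (rowB 3 eng mog cd0q0 cd1q2a pd1 0 false false false .pnp 0 1 2 (qsf 0 536870912 0 536870912 1) ndB0q0 ndB1q2a pcB1 Cut.none Ext.none)

def k0_mm_012_a : ∃ t, chk3 f_mm_012_a t 1 1 1 = true :=
  ⟨(l 5), by decide +kernel⟩

theorem c_mm_012_a : CertB 0 536870912 0 536870912 1033476505 6710887 3 eng mog cd0q0 cd1q2a pd1 false false false .pnp 0 1 2
    ndB0q0 ndB1q2a pcB1 Cut.none Ext.none :=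
  certB0 (fam := false) (s1 := false) (s2 := false) (a := 0) (b := 1) (c := 2) (cn := .pnp) (n1 := ndB0q0) (n2 := ndB1q2a) (pc := pcB1) (cut := Cut.none) (xt := Ext.none) (P1 := 0) (W1 := 536870912) (P2 := 0) (W2 := 536870912) (P3 := 1033476505) (W3 := 6710887) (N0 := 3) (En := eng) (mo := mog) (C1 := cd0q0) (C2 := cd1q2a) (C3 := pd1)
    rfl k0_mm_012_a

noncomputable def f_mm_012_b : ℕ → ℕ → ℕ → ℕ → Bool := onCell 0 536870912 1239849684 370763052 1033476505 6710887
    (rowB 3 eng mog cd0q0 cd1q2b pd1 0 false false false .pnp 0 1 2 (qsf 0 536870912 1239849684 370763052 1) ndB0q0 ndB1q2b pcB1 Cut.none Ext.none)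

def k0_mm_012_b : ∃ t, chk3 f_mm_012_b t 1 1 1 = true :=
  ⟨(l 5), by decide +kernel⟩

theorem c_mm_012_b : CertB 0 536870912 1239849684 370763052 1033476505 6710887 3 eng mog cd0q0 cd1q2b pd1 false false false .pnp 0 1 2
    ndB0q0 ndB1q2b pcB1 Cut.none Ext.none :=
  certB0 (fam := false) (s1 := false) (s2 := false) (a := 0) (b := 1) (c := 2) (cn := .pnp) (n1 := ndB0q0) (n2 := ndB1q2b) (pc := pcB1) (cut := Cut.none) (xt := Ext.none) (P1 := 0) (W1 := 536870912) (P2 := 1239849684) (W2 := 370763052) (P3 := 1033476505) (W3 := 6710887) (N0 := 3) (En := eng) (mo := mog) (C1 := cd0q0) (C2 := cd1q2b) (C3 := pd1)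
    rfl k0_mm_012_b

noncomputable def f_mm_022_a : ℕ → ℕ → ℕ → ℕ → Bool := onCell 0 536870912 0 536870912 1033476505 6710887
    (rowB 3 eng mog cd0q0 cd1q2a pd2 0 false false false .pp 0 2 2 (qsf 0 536870912 0 536870912 2) ndB0q0 ndB1q2a pcB2 Cut.none Ext.none)

def k0_mm_022_a : ∃ t, chk3 f_mm_022_a t 1 1 1 = true :=
  ⟨(l 5), by decide +kernel⟩

theorem c_mm_022_a : CertB 0 536870912 0 536870912 1033476505 6710887 3 eng mog cd0q0 cd1q2a pd2 false false false .pp 0 2 2
    ndB0q0 ndB1q2a pcB2 Cut.none Ext.none :=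
  certB0 (fam := false) (s1 := false) (s2 := false) (a := 0) (b := 2) (c := 2) (cn := .pp) (n1 := ndB0q0) (n2 := ndB1q2a) (pc := pcB2) (cut := Cut.none) (xt := Ext.none) (P1 := 0) (W1 := 536870912) (P2 := 0) (W2 := 536870912) (P3 := 1033476505) (W3 := 6710887) (N0 := 3) (En := eng) (mo := mog) (C1 := cd0q0) (C2 := cd1q2a) (C3 := pd2)
    rfl k0_mm_022_a

noncomputable def f_mm_022_b : ℕ → ℕ → ℕ → ℕ → Bool := onCell 0 536870912 1239849684 370763052 1033476505 6710887
    (rowB 3 eng mog cd0q0 cd1q2b pd2 0 false false false .pp 0 2 2 (qsf 0 536870912 1239849684 370763052 2) ndB0q0 ndB1q2b pcB2 Cut.none Ext.none)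

def k0_mm_022_b : ∃ t, chk3 f_mm_022_b t 1 1 1 = true :=
  ⟨(l 5), by decide +kernel⟩

theorem c_mm_022_b : CertB 0 536870912 1239849684 370763052 1033476505 6710887 3 eng mog cd0q0 cd1q2b pd2 false false false .pp 0 2 2
    ndB0q0 ndB1q2b pcB2 Cut.none Ext.none :=
  certB0 (fam := false) (s1 := false) (s2 := false) (a := 0) (b := 2) (c := 2) (cn := .pp) (n1 := ndB0q0) (n2 := ndB1q2b) (pc := pcB2) (cut := Cut.none) (xt := Ext.none) (P1 := 0) (W1 := 536870912) (P2 := 1239849684) (W2 := 370763052) (P3 := 1033476505) (W3 := 6710887) (N0 := 3) (En := eng) (mo := mog) (C1 := cd0q0) (C2 := cd1q2b) (C3 := pd2)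
    rfl k0_mm_022_b

noncomputable def f_mm_023 : ℕ → ℕ → ℕ → ℕ → Bool := onCell 0 536870912 1610612736 536870912 1033476505 6710887
    (rowB 3 eng mog cd0q0 cd1q3 pd2 0 false false false .up 0 2 3 (qsf 0 536870912 1610612736 536870912 2) ndB0q0 ndB1q3 pcB2 Cut.none Ext.none)

def k0_mm_023 : ∃ t, chk3 f_mm_023 t 1 1 1 = true :=
  ⟨(l 5), by decide +kernel⟩

theorem c_mm_023 : CertB 0 536870912 1610612736 536870912 1033476505 6710887 3 eng mog cd0q0 cd1q3 pd2 false false false .up 0 2 3
    ndB0q0 ndB1q3 pcB2 Cut.none Ext.none :=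
  certB0 (fam := false) (s1 := false) (s2 := false) (a := 0) (b := 2) (c := 3) (cn := .up) (n1 := ndB0q0) (n2 := ndB1q3) (pc := pcB2) (cut := Cut.none) (xt := Ext.none) (P1 := 0) (W1 := 536870912) (P2 := 1610612736) (W2 := 536870912) (P3 := 1033476505) (W3 := 6710887) (N0 := 3) (En := eng) (mo := mog) (C1 := cd0q0) (C2 := cd1q3) (C3 := pd2)
    rfl k0_mm_023

noncomputable def f_mm_033 : ℕ → ℕ → ℕ → ℕ → Bool := onCell 0 536870912 1610612736 536870912 1033476505 6710887
    (rowB 3 eng mog cd0q0 cd1q3 pd3 0 false false false .pnn 0 3 3 (qsf 0 536870912 1610612736 536870912 3) ndB0q0 ndB1q3 pcB3 Cut.none Ext.none)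

def k0_mm_033 : ∃ t, chk3 f_mm_033 t 1 1 1 = true :=
  ⟨(l 5), by decide +kernel⟩

theorem c_mm_033 : CertB 0 536870912 1610612736 536870912 1033476505 6710887 3 eng mog cd0q0 cd1q3 pd3 false false false .pnn 0 3 3
    ndB0q0 ndB1q3 pcB3 Cut.none Ext.none :=
  certB0 (fam := false) (s1 := false) (s2 := false) (a := 0) (b := 3) (c := 3) (cn := .pnn) (n1 := ndB0q0) (n2 := ndB1q3) (pc := pcB3) (cut := Cut.none) (xt := Ext.none) (P1 := 0) (W1 := 536870912) (P2 := 1610612736) (W2 := 536870912) (P3 := 1033476505) (W3 := 6710887) (N0 := 3) (En := eng) (mo := mog) (C1 := cd0q0) (C2 := cd1q3) (C3 := pd3)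
    rfl k0_mm_033

noncomputable def f_mm_101 : ℕ → ℕ → ℕ → ℕ → Bool := onCell 536870912 536870912 536870912 536870912 1033476505 6710887
    (rowB 3 eng mog cd0q1 cd1q1 pd0 0 false false false .npn 1 0 1 (qsf 536870912 536870912 536870912 536870912 0) ndB0q1 ndB1q1 pcB0 Cut.none Ext.none)

def k0_mm_101 : ∃ t, chk3 f_mm_101 t 1 1 1 = true :=
  ⟨(l 3), by decide +kernel⟩

theorem c_mm_101 : CertB 536870912 536870912 536870912 536870912 1033476505 6710887 3 eng mog cd0q1 cd1q1 pd0 false false false .npn 1 0 1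
    ndB0q1 ndB1q1 pcB0 Cut.none Ext.none :=
  certB0 (fam := false) (s1 := false) (s2 := false) (a := 1) (b := 0) (c := 1) (cn := .npn) (n1 := ndB0q1) (n2 := ndB1q1) (pc := pcB0) (cut := Cut.none) (xt := Ext.none) (P1 := 536870912) (W1 := 536870912) (P2 := 536870912) (W2 := 536870912) (P3 := 1033476505) (W3 := 6710887) (N0 := 3) (En := eng) (mo := mog) (C1 := cd0q1) (C2 := cd1q1) (C3 := pd0)
    rfl k0_mm_101

noncomputable def f_mm_102_a : ℕ → ℕ → ℕ → ℕ → Bool := onCell 536870912 536870912 0 536870912 1033476505 6710887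
    (rowB 3 eng mog cd0q1 cd1q2a pd0 0 false false false .npp 1 0 2 (qsf 536870912 536870912 0 536870912 0) ndB0q1 ndB1q2a pcB0 Cut.none Ext.none)

def k0_mm_102_a : ∃ t, chk3 f_mm_102_a t 1 1 1 = true :=
  ⟨(a (l 5) (l 3)), by decide +kernel⟩

theorem c_mm_102_a : CertB 536870912 536870912 0 536870912 1033476505 6710887 3 eng mog cd0q1 cd1q2a pd0 false false false .npp 1 0 2
    ndB0q1 ndB1q2a pcB0 Cut.none Ext.none :=
  certB0 (fam := false) (s1 := false) (s2 := false) (a := 1) (b := 0) (c := 2) (cn := .npp) (n1 := ndB0q1) (n2 := ndB1q2a) (pc := pcB0) (cut := Cut.none) (xt := Ext.none) (P1 := 536870912) (W1 := 536870912) (P2 := 0) (W2 := 536870912) (P3 := 1033476505) (W3 := 6710887) (N0 := 3) (En := eng) (mo := mog) (C1 := cd0q1) (C2 := cd1q2a) (C3 := pd0)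
    rfl k0_mm_102_a

noncomputable def f_mm_102_b : ℕ → ℕ → ℕ → ℕ → Bool := onCell 536870912 536870912 1239849684 370763052 1033476505 6710887
    (rowB 3 eng mog cd0q1 cd1q2b pd0 0 false false false .npp 1 0 2 (qsf 536870912 536870912 1239849684 370763052 0) ndB0q1 ndB1q2b pcB0 Cut.none Ext.none)

def k0_mm_102_b : ∃ t, chk3 f_mm_102_b t 1 1 1 = true :=
  ⟨(l 5), by decide +kernel⟩

theorem c_mm_102_b : CertB 536870912 536870912 1239849684 370763052 1033476505 6710887 3 eng mog cd0q1 cd1q2b pd0 false false false .npp 1 0 2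
    ndB0q1 ndB1q2b pcB0 Cut.none Ext.none :=
  certB0 (fam := false) (s1 := false) (s2 := false) (a := 1) (b := 0) (c := 2) (cn := .npp) (n1 := ndB0q1) (n2 := ndB1q2b) (pc := pcB0) (cut := Cut.none) (xt := Ext.none) (P1 := 536870912) (W1 := 536870912) (P2 := 1239849684) (W2 := 370763052) (P3 := 1033476505) (W3 := 6710887) (N0 := 3) (En := eng) (mo := mog) (C1 := cd0q1) (C2 := cd1q2b) (C3 := pd0)
    rfl k0_mm_102_b

noncomputable def f_mm_112_a : ℕ → ℕ → ℕ → ℕ → Bool := onCell 536870912 536870912 0 536870912 1033476505 6710887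
    (rowB 3 eng mog cd0q1 cd1q2a pd1 2 false false false .dn 1 1 2 (qsf 536870912 536870912 0 536870912 1) ndB0q1 ndB1q2a pcB1 Cut.none Ext.none)

def k0_mm_112_a : ∃ t, chk3 f_mm_112_a t 1 1 1 = true :=
  ⟨(l 5), by decide +kernel⟩

theorem c_mm_112_a : CertB 536870912 536870912 0 536870912 1033476505 6710887 3 eng mog cd0q1 cd1q2a pd1 false false false .dn 1 1 2
    ndB0q1 ndB1q2a pcB1 Cut.none Ext.none :=
  certB2 (fam := false) (s1 := false) (s2 := false) (a := 1) (b := 1) (c := 2) (cn := .dn) (n1 := ndB0q1) (n2 := ndB1q2a) (pc := pcB1) (cut := Cut.none) (xt := Ext.none) (P1 := 536870912) (W1 := 536870912) (P2 := 0) (W2 := 536870912) (P3 := 1033476505) (W3 := 6710887) (N0 := 3) (En := eng) (mo := mog) (C1 := cd0q1) (C2 := cd1q2a) (C3 := pd1)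
    rfl (fun _ => rfl) k0_mm_112_a

noncomputable def f_mm_112_b : ℕ → ℕ → ℕ → ℕ → Bool := onCell 536870912 536870912 1239849684 370763052 1033476505 6710887
    (rowB 3 eng mog cd0q1 cd1q2b pd1 0 false false false .dn 1 1 2 (qsf 536870912 536870912 1239849684 370763052 1) ndB0q1 ndB1q2b pcB1 Cut.none Ext.none)

def k0_mm_112_b : ∃ t, chk3 f_mm_112_b t 1 1 1 = true :=
  ⟨(l 5), by decide +kernel⟩

theorem c_mm_112_b : CertB 536870912 536870912 1239849684 370763052 1033476505 6710887 3 eng mog cd0q1 cd1q2b pd1 false false false .dn 1 1 2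
    ndB0q1 ndB1q2b pcB1 Cut.none Ext.none :=
  certB0 (fam := false) (s1 := false) (s2 := false) (a := 1) (b := 1) (c := 2) (cn := .dn) (n1 := ndB0q1) (n2 := ndB1q2b) (pc := pcB1) (cut := Cut.none) (xt := Ext.none) (P1 := 536870912) (W1 := 536870912) (P2 := 1239849684) (W2 := 370763052) (P3 := 1033476505) (W3 := 6710887) (N0 := 3) (En := eng) (mo := mog) (C1 := cd0q1) (C2 := cd1q2b) (C3 := pd1)
    rfl k0_mm_112_b

noncomputable def f_mm_113 : ℕ → ℕ → ℕ → ℕ → Bool := onCell 536870912 536870912 1610612736 536870912 1033476505 6710887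
    (rowB 3 eng mog cd0q1 cd1q3 pd1 0 false false false .nn 1 1 3 (qsf 536870912 536870912 1610612736 536870912 1) ndB0q1 ndB1q3 pcB1 Cut.none Ext.none)

def k0_mm_113 : ∃ t, chk3 f_mm_113 t 1 1 1 = true :=
  ⟨(l 5), by decide +kernel⟩

theorem c_mm_113 : CertB 536870912 536870912 1610612736 536870912 1033476505 6710887 3 eng mog cd0q1 cd1q3 pd1 false false false .nn 1 1 3
    ndB0q1 ndB1q3 pcB1 Cut.none Ext.none :=
  certB0 (fam := false) (s1 := false) (s2 := false) (a := 1) (b := 1) (c := 3) (cn := .nn) (n1 := ndB0q1) (n2 := ndB1q3) (pc := pcB1) (cut := Cut.none) (xt := Ext.none) (P1 := 536870912) (W1 := 536870912) (P2 := 1610612736) (W2 := 536870912) (P3 := 1033476505) (W3 := 6710887) (N0 := 3) (En := eng) (mo := mog) (C1 := cd0q1) (C2 := cd1q3) (C3 := pd1)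
    rfl k0_mm_113

noncomputable def f_mm_123 : ℕ → ℕ → ℕ → ℕ → Bool := onCell 536870912 536870912 1610612736 536870912 1033476505 6710887
    (rowB 3 eng mog cd0q1 cd1q3 pd2 0 false false false .npn 1 2 3 (qsf 536870912 536870912 1610612736 536870912 2) ndB0q1 ndB1q3 pcB2 Cut.none Ext.none)

def k0_mm_123 : ∃ t, chk3 f_mm_123 t 1 1 1 = true :=
  ⟨(l 5), by decide +kernel⟩

theorem c_mm_123 : CertB 536870912 536870912 1610612736 536870912 1033476505 6710887 3 eng mog cd0q1 cd1q3 pd2 false false false .npn 1 2 3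
    ndB0q1 ndB1q3 pcB2 Cut.none Ext.none :=
  certB0 (fam := false) (s1 := false) (s2 := false) (a := 1) (b := 2) (c := 3) (cn := .npn) (n1 := ndB0q1) (n2 := ndB1q3) (pc := pcB2) (cut := Cut.none) (xt := Ext.none) (P1 := 536870912) (W1 := 536870912) (P2 := 1610612736) (W2 := 536870912) (P3 := 1033476505) (W3 := 6710887) (N0 := 3) (En := eng) (mo := mog) (C1 := cd0q1) (C2 := cd1q3) (C3 := pd2)
    rfl k0_mm_123

noncomputable def f_mm_133 : ℕ → ℕ → ℕ → ℕ → Bool := onCell 536870912 536870912 1610612736 536870912 1033476505 6710887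
    (rowB 3 eng mog cd0q1 cd1q3 pd3 0 false false false .dn 1 3 3 (qsf 536870912 536870912 1610612736 536870912 3) ndB0q1 ndB1q3 pcB3 Cut.none Ext.none)

def k0_mm_133 : ∃ t, chk3 f_mm_133 t 1 1 1 = true :=
  ⟨(l 5), by decide +kernel⟩

theorem c_mm_133 : CertB 536870912 536870912 1610612736 536870912 1033476505 6710887 3 eng mog cd0q1 cd1q3 pd3 false false false .dn 1 3 3
    ndB0q1 ndB1q3 pcB3 Cut.none Ext.none :=
  certB0 (fam := false) (s1 := false) (s2 := false) (a := 1) (b := 3) (c := 3) (cn := .dn) (n1 := ndB0q1) (n2 := ndB1q3) (pc := pcB3) (cut := Cut.none) (xt := Ext.none) (P1 := 536870912) (W1 := 536870912) (P2 := 1610612736) (W2 := 536870912) (P3 := 1033476505) (W3 := 6710887) (N0 := 3) (En := eng) (mo := mog) (C1 := cd0q1) (C2 := cd1q3) (C3 := pd3)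
    rfl k0_mm_133

noncomputable def f_mm_202_a : ℕ → ℕ → ℕ → ℕ → Bool := onCell 0 536870912 0 536870912 1033476505 6710887
    (rowB 3 eng mog cd0q2 cd1q2a pd0 0 false false false .pp 2 0 2 (qsf 0 536870912 0 536870912 0) ndB0q2 ndB1q2a pcB0 Cut.none Ext.none)

def k0_mm_202_a : ∃ t, chk3 f_mm_202_a t 1 1 1 = true :=
  ⟨(l 3), by decide +kernel⟩

theorem c_mm_202_a : CertB 0 536870912 0 536870912 1033476505 6710887 3 eng mog cd0q2 cd1q2a pd0 false false false .pp 2 0 2
    ndB0q2 ndB1q2a pcB0 Cut.none Ext.none :=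
  certB0 (fam := false) (s1 := false) (s2 := false) (a := 2) (b := 0) (c := 2) (cn := .pp) (n1 := ndB0q2) (n2 := ndB1q2a) (pc := pcB0) (cut := Cut.none) (xt := Ext.none) (P1 := 0) (W1 := 536870912) (P2 := 0) (W2 := 536870912) (P3 := 1033476505) (W3 := 6710887) (N0 := 3) (En := eng) (mo := mog) (C1 := cd0q2) (C2 := cd1q2a) (C3 := pd0)
    rfl k0_mm_202_a

noncomputable def f_mm_202_b : ℕ → ℕ → ℕ → ℕ → Bool := onCell 0 536870912 1239849684 370763052 1033476505 6710887
    (rowB 3 eng mog cd0q2 cd1q2b pd0 0 false false false .pp 2 0 2 (qsf 0 536870912 1239849684 370763052 0) ndB0q2 ndB1q2b pcB0 Cut.none Ext.none)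

def k0_mm_202_b : ∃ t, chk3 f_mm_202_b t 1 1 1 = true :=
  ⟨(l 3), by decide +kernel⟩

theorem c_mm_202_b : CertB 0 536870912 1239849684 370763052 1033476505 6710887 3 eng mog cd0q2 cd1q2b pd0 false false false .pp 2 0 2
    ndB0q2 ndB1q2b pcB0 Cut.none Ext.none :=
  certB0 (fam := false) (s1 := false) (s2 := false) (a := 2) (b := 0) (c := 2) (cn := .pp) (n1 := ndB0q2) (n2 := ndB1q2b) (pc := pcB0) (cut := Cut.none) (xt := Ext.none) (P1 := 0) (W1 := 536870912) (P2 := 1239849684) (W2 := 370763052) (P3 := 1033476505) (W3 := 6710887) (N0 := 3) (En := eng) (mo := mog) (C1 := cd0q2) (C2 := cd1q2b) (C3 := pd0)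
    rfl k0_mm_202_b

noncomputable def f_mm_203 : ℕ → ℕ → ℕ → ℕ → Bool := onCell 0 536870912 0 536870912 1033476505 6710887
    (rowB 3 eng mog cd0q2 cd1q3 pd0 1 false false false .up 2 0 3 (qsf 0 536870912 1610612736 536870912 0) ndB0q2 ndB1q3 pcB0 Cut.none Ext.none)

def k0_mm_203 : ∃ t, chk3 f_mm_203 t 1 1 1 = true :=
  ⟨(l 3), by decide +kernel⟩

theorem c_mm_203 : CertB 0 536870912 1610612736 536870912 1033476505 6710887 3 eng mog cd0q2 cd1q3 pd0 false false false .up 2 0 3
    ndB0q2 ndB1q3 pcB0 Cut.none Ext.none :=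
  certB1 (fam := false) (s1 := false) (s2 := false) (a := 2) (b := 0) (c := 3) (cn := .up) (n1 := ndB0q2) (n2 := ndB1q3) (pc := pcB0) (cut := Cut.none) (xt := Ext.none) (P1 := 0) (W1 := 536870912) (P2 := 1610612736) (W2 := 536870912) (P3 := 1033476505) (W3 := 6710887) (N0 := 3) (En := eng) (mo := mog) (C1 := cd0q2) (C2 := cd1q3) (C3 := pd0)
    rfl (fun _ => rfl) k0_mm_203

noncomputable def f_mm_213 : ℕ → ℕ → ℕ → ℕ → Bool := onCell 0 536870912 1610612736 536870912 1033476505 6710887
    (rowB 3 eng mog cd0q2 cd1q3 pd1 0 false false false .pnn 2 1 3 (qsf 0 536870912 1610612736 536870912 1) ndB0q2 ndB1q3 pcB1 Cut.none Ext.none)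

def k0_mm_213 : ∃ t, chk3 f_mm_213 t 1 1 1 = true :=
  ⟨(a (l 3) (l 5)), by decide +kernel⟩

theorem c_mm_213 : CertB 0 536870912 1610612736 536870912 1033476505 6710887 3 eng mog cd0q2 cd1q3 pd1 false false false .pnn 2 1 3
    ndB0q2 ndB1q3 pcB1 Cut.none Ext.none :=
  certB0 (fam := false) (s1 := false) (s2 := false) (a := 2) (b := 1) (c := 3) (cn := .pnn) (n1 := ndB0q2) (n2 := ndB1q3) (pc := pcB1) (cut := Cut.none) (xt := Ext.none) (P1 := 0) (W1 := 536870912) (P2 := 1610612736) (W2 := 536870912) (P3 := 1033476505) (W3 := 6710887) (N0 := 3) (En := eng) (mo := mog) (C1 := cd0q2) (C2 := cd1q3) (C3 := pd1)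
    rfl k0_mm_213

end Pool.Agent.Strip051.G.I9625_9688.Tab.C.BB01

namespace Pool.Agent.Strip051.G.I9625_9688.Tab.C.BB02

open Pool.Agent.Strip051.PB Pool.Agent.Strip051.PB.T
open Pool.Agent.Strip051.G.I9625_9688.Tab

noncomputable def f_pp_001 : ℕ → ℕ → ℕ → ℕ → Bool := onCell 0 536870912 536870912 536870912 1033476505 6710887
    (rowB 3 eng mog cd0q0 cd2q1 pd0 0 false true true .up 0 0 1 (qsf 0 536870912 536870912 536870912 0) ndB0q0 ndB2q1 pcB0 Cut.none Ext.none)

def k0_pp_001 : ∃ t, chk3 f_pp_001 t 1 1 1 = true :=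
  ⟨(l 3), by decide +kernel⟩

theorem c_pp_001 : CertB 0 536870912 536870912 536870912 1033476505 6710887 3 eng mog cd0q0 cd2q1 pd0 false true true .up 0 0 1
    ndB0q0 ndB2q1 pcB0 Cut.none Ext.none :=
  certB0 (fam := false) (s1 := true) (s2 := true) (a := 0) (b := 0) (c := 1) (cn := .up) (n1 := ndB0q0) (n2 := ndB2q1) (pc := pcB0) (cut := Cut.none) (xt := Ext.none) (P1 := 0) (W1 := 536870912) (P2 := 536870912) (W2 := 536870912) (P3 := 1033476505) (W3 := 6710887) (N0 := 3) (En := eng) (mo := mog) (C1 := cd0q0) (C2 := cd2q1) (C3 := pd0)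
    rfl k0_pp_001

noncomputable def f_pp_011 : ℕ → ℕ → ℕ → ℕ → Bool := onCell 0 536870912 536870912 536870912 1033476505 6710887
    (rowB 3 eng mog cd0q0 cd2q1 pd1 0 false true true .pnn 0 1 1 (qsf 0 536870912 536870912 536870912 1) ndB0q0 ndB2q1 pcB1 Cut.none Ext.none)

def k0_pp_011 : ∃ t, chk3 f_pp_011 t 1 1 1 = true :=
  ⟨(l 3), by decide +kernel⟩

theorem c_pp_011 : CertB 0 536870912 536870912 536870912 1033476505 6710887 3 eng mog cd0q0 cd2q1 pd1 false true true .pnn 0 1 1
    ndB0q0 ndB2q1 pcB1 Cut.none Ext.none :=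
  certB0 (fam := false) (s1 := true) (s2 := true) (a := 0) (b := 1) (c := 1) (cn := .pnn) (n1 := ndB0q0) (n2 := ndB2q1) (pc := pcB1) (cut := Cut.none) (xt := Ext.none) (P1 := 0) (W1 := 536870912) (P2 := 536870912) (W2 := 536870912) (P3 := 1033476505) (W3 := 6710887) (N0 := 3) (En := eng) (mo := mog) (C1 := cd0q0) (C2 := cd2q1) (C3 := pd1)
    rfl k0_pp_011

noncomputable def cut_pp_012_a : Cut := Cut.of [[⟨0, 0, 0, 33554432⟩, ⟨1, 1, 0, 33554432⟩, ⟨2, 1, 0, 33554432⟩]]

noncomputable def xt_pp_012_a : Ext := extD3 3 ⟨4, 1, 1, 5, 27, 5, 41, 50, 81, 200, 1, 64⟩ eng cd0q0 cd2q2a pd1 false true true .pnp 0 1 2 rfl ndB0q0 ndB2q2a pcB1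

noncomputable def f_pp_012_a : ℕ → ℕ → ℕ → ℕ → Bool := onCell 536870912 536870912 0 536870912 1033476505 6710887
    (rowB 3 eng mog cd0q0 cd2q2a pd1 2 false true true .pnp 0 1 2 (qsf 0 536870912 0 536870912 1) ndB0q0 ndB2q2a pcB1 cut_pp_012_a xt_pp_012_a)

def k0_pp_012_a : ∃ t, chk3 f_pp_012_a t 2 1 1 = true :=
  ⟨(l 3), by decide +kernel⟩

def k1_pp_012_a : ∃ t, chk3 f_pp_012_a t 6 1 1 = true :=
  ⟨(b (a (l 3) (a (l 3) (b (b (a (a (l 3) (l 109152355911)) (a (l 45801511991) (l 16610544))) (l 3)) (l 3)))) (l 3)), by decide +kernel⟩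

def k2_pp_012_a : ∃ t, chk3 f_pp_012_a t 28 2 1 = true :=
  ⟨(b (a (b (a (l 16582096) (l 16524368)) (a (l 96267226503) (b (l 16543368) (l 16549808)))) (b (a (l 16462328) (l 16398112)) (a (b (l 16480920) (l 16448720)) (b (l 16415960) (a (l 16443272) (l 16411880)))))) (a (l 3) (b (b (a (b (l 16495584) (l 3)) (b (l 16436408) (a (l 16456184) (l 16428776)))) (a (l 3) (b (a (l 3) (l 16414248)) (l 3)))) (l 3)))), by decide +kernel⟩

def k3_pp_012_a : ∃ t, chk3 f_pp_012_a t 29 4 1 = true :=
  ⟨(a (b (a (l 16336776) (l 16283408)) (a (b (l 16354856) (b (l 16364696) (l 16371832))) (b (l 16301656) (l 16324440)))) (b (a (l 16239144) (l 16204576)) (a (b (l 16257280) (l 16273424)) (b (l 16222448) (l 16218664))))), by decide +kernel⟩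

def k4_pp_012_a : ∃ t, chk3 f_pp_012_a t 58 5 1 = true :=
  ⟨(b (b (a (a (l 16397288) (l 16368232)) (a (l 16340976) (l 16302584))) (a (b (a (l 16389200) (l 16364384)) (a (l 65128423367) (b (l 16372568) (l 16388600)))) (a (b (l 16340920) (a (l 16358576) (l 16347736))) (b (l 16319328) (b (l 16349880) (l 16335808)))))) (b (a (l 3) (b (a (a (a (l 56538421511) (l 58685895143)) (b (l 16378984) (l 56538401159))) (b (a (l 16368960) (l 16359392)) (a (l 33989802695) (l 16367288)))) (a (l 3) (b (a (l 49559076039) (c (l 41505990119) (l 16375152))) (a (l 3) (c (b (l 16382656) (l 3)) (l 16383952))))))) (l 3))), by decide +kernel⟩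

def k5_pp_012_a : ∃ t, chk3 f_pp_012_a t 59 5 1 = true :=
  ⟨(b (a (b (a (l 16282032) (l 16263744)) (a (b (l 16320760) (l 16321464)) (b (l 16303416) (l 16296984)))) (b (b (l 16255392) (l 16246752)) (a (b (l 16288384) (l 16303616)) (b (l 16275752) (l 16291632))))) (a (b (a (b (b (l 16325016) (a (l 16358448) (l 16350112))) (b (a (c (l 16367560) (l 16366544)) (l 16358928)) (a (c (b (l 16374304) (l 16378968)) (l 16375696)) (a (l 16370200) (l 16366384))))) (b (a (l 16317056) (l 16330664)) (a (b (l 16351336) (l 16341232)) (b (l 16344272) (l 16354040))))) (a (b (b (a (c (b (l 16383752) (l 3)) (l 16385344)) (c (b (l 16376072) (l 16391640)) (l 16377744))) (a (l 3) (c (b (l 16386384) (l 3)) (l 16388288)))) (l 3)) (b (a (b (c (b (l 16368856) (l 16374032)) (l 16370568)) (c (b (l 16389848) (l 16395368)) (l 16362984))) (b (c (l 16364800) (l 16363928)) (c (b (l 16372872) (l 16378440)) (l 16374864)))) (a (l 3) (b (c (c (l 37211046775) (l 39895403399)) (l 16365536)) (l 3)))))) (b (a (b (c (l 16300272) (l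 16299144)) (a (b (l 16337760) (l 16347728)) (l 16315936))) (b (l 16288424) (c (l 16313952) (l 16307768)))) (a (b (a (b (l 16358256) (c (l 16369752) (l 16368968))) (b (l 16352712) (l 16364008))) (a (b (c (b (l 16378424) (l 16384408)) (l 16380720)) (c (l 31305483959) (l 16393264))) (b (c (l 16376256) (l 16375576)) (c (b (l 16385528) (l 16391944)) (l 16388152))))) (b (a (b (l 16347736) (l 16359224)) (l 16328208)) (a (b (l 16371320) (l 16366984)) (b (l 16367296) (l 16380184)))))))), by decide +kernel⟩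

def k6_pp_012_a : ∃ t, chk3 f_pp_012_a t 15 2 1 = true :=
  ⟨(a (b (a (b (a (l 16180856) (l 16169432)) (a (b (l 16198656) (l 16216912)) (b (l 16187888) (l 16207576)))) (a (b (l 16176080) (l 16209696)) (b (l 16191040) (l 16231192)))) (a (b (a (b (l 16219648) (a (l 16253264) (l 16247128))) (b (l 16212360) (a (l 16265120) (l 16267976)))) (a (b (a (b (l 16300896) (l 16300440)) (b (l 16295752) (l 16316968))) (a (b (l 16333664) (b (l 16341688) (l 16354848))) (b (l 16319448) (b (l 16359456) (l 16372960))))) (b (a (b (l 16293768) (l 16315680)) (l 16309256)) (a (b (l 16318864) (a (l 16366072) (l 16367104))) (b (l 16345544) (l 16372832)))))) (b (a (b (l 16250152) (l 16286816)) (l 16298720)) (a (b (a (l 16322184) (l 16340928)) (a (l 16374296) (l 16395472))) (b (l 16368208) (l 16426032)))))) (b (a (b (l 16212488) (l 16259352)) (b (l 16226592) (l 16279400))) (b (a (b (l 16312376) (l 16358368)) (b (l 16359096) (l 16409112))) (a (b (l 16412440) (a (l 16459656) (l 16489144))) (b (l 16445888) (l 16447992)))))),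 by decide +kernel⟩

def k7_pp_012_a : ∃ t, chk3 f_pp_012_a t 14 3 1 = true :=
  ⟨(b (a (l 3) (b (a (l 3) (b (a (l 3) (b (a (b (a (l 3) (b (l 23789298359) (l 16405328))) (l 3)) (b (a (b (l 16393952) (l 27010528935)) (l 16377976)) (a (b (l 16389648) (l 16415480)) (b (l 16404248) (l 16393224))))) (a (l 3) (b (a (l 3) (c (l 16407648) (l 16402160))) (l 3))))) (l 3))) (l 3))) (l 3)), by decide +kernel⟩

def k8_pp_012_a : ∃ t, chk3 f_pp_012_a t 120 12 1 = true :=
  ⟨(b (b (a (b (a (l 16390760) (l 16388672)) (a (l 16384120) (l 16403168))) (b (l 16366112) (a (l 16402080) (l 16401792)))) (a (b (a (b (l 16416256) (l 16403072)) (l 16405536)) (a (l 17346939671) (b (l 16413712) (a (l 16438760) (l 16437920))))) (b (a (l 16401656) (l 16417248)) (a (c (l 16417608) (b (l 16429240) (l 16437400))) (c (l 16433320) (l 16417640)))))) (b (a (b (a (l 3) (a (l 3) (l 20031324631))) (l 3)) (b (a (a (b (l 25936924343) (l 16454656)) (b (l 16445640) (a (l 17347006039) (l 38284970919)))) (c (l 16438200) (b (l 16445864) (a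 (l 16454288) (l 16454592))))) (a (c (l 16457704) (a (l 3) (b (l 16463360) (l 3)))) (a (c (l 39358709447) (a (b (l 16810152983) (l 3)) (b (a (l 16463040) (l 16463080)) (l 16472344)))) (c (l 59222933399) (a (b (l 16463208) (b (l 16469896) (l 16474616))) (b (l 16463424) (b (l 16470064) (c (l 16474536) (l 27010718311)))))))))) (a (l 3) (b (a (l 3) (c (l 16476104) (a (l 3) (c (l 16476296) (b (b (l 16479536) (l 3)) (l 3)))))) (l 3))))), by decide +kernel⟩

def k9_pp_012_a : ∃ t, chk3 f_pp_012_a t 121 12 1 = true :=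
  ⟨(b (a (b (a (l 16373840) (l 16375200)) (a (b (l 16417896) (l 16423648)) (b (l 16419488) (l 16414888)))) (a (b (l 16399720) (l 16431576)) (b (l 16405840) (l 16438104)))) (a (b (a (b (a (c (l 16450592) (l 16440304)) (l 16440848)) (c (l 16459208) (a (b (l 16463832) (c (l 16472648) (b (l 16470568) (l 16475064)))) (b (l 16464536) (l 16473464))))) (a (b (l 16452184) (b (l 16465264) (l 16479440))) (b (l 16453552) (l 16460688)))) (b (a (a (c (l 16476016) (b (c (l 16487128) (b (a (l 24863239079) (l 16479776)) (a (l 3) (c (l 16484408) (l 26473856551))))) (l 3))) (c (l 16476400) (b (a (b (l 16480056) (l 46338090631)) (l 16482768)) (c (l 16491904) (b (a (c (l 16489440) (l 30768833927)) (l 16489808)) (a (l 3) (l 37211305639))))))) (a (c (l 16487664) (b (c (l 16483392) (l 16483632)) (c (l 16492640) (a (b (l 16490280) (l 16494960)) (l 16493200))))) (c (l 16489128) (b (l 16485008) (l 16494288))))) (a (l 3) (a (c (l 16486040) (b (c (l 16502312) (a (l 31842586039) (l 46338101703))) (l 3))) (c (l 16508088)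 (c (l 25937030775) (b (a (l 16508664) (l 16504376)) (l 61907383495)))))))) (b (b (a (l 16456960) (l 16463752)) (a (l 16469440) (l 16481648))) (a (a (b (l 16486368) (c (l 16510136) (b (l 16506008) (l 16507752)))) (b (l 16494528) (l 16508192))) (b (l 16500104) (l 16519104)))))), by decide +kernel⟩

def k10_pp_012_a : ∃ t, chk3 f_pp_012_a t 60 13 1 = true :=
  ⟨(b (a (l 3) (a (l 3) (b (a (b (b (a (l 83919117895) (l 16517496)) (l 81234785095)) (l 3)) (b (a (l 16536600) (l 16540856)) (c (l 16558840) (l 117205188743)))) (l 3)))) (l 3)), by decide +kernel⟩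

def k11_pp_012_a : ∃ t, chk3 f_pp_012_a t 61 6 1 = true :=
  ⟨(b (a (b (a (b (l 16419008) (l 16451976)) (b (l 16441896) (l 16475912))) (a (a (b (l 16481896) (l 16529632)) (b (l 16493008) (l 16530648))) (b (l 16512104) (l 16529384)))) (b (b (l 16474696) (l 16510056)) (b (l 16547416) (l 16544688)))) (a (b (a (b (a (b (l 16548352) (l 16568552)) (l 16570272)) (b (a (l 16589896) (l 16601128)) (l 123110828999))) (b (l 16548528) (a (l 16604448) (l 16639208)))) (b (a (l 3) (l 170355551239)) (l 3))) (b (b (l 16564536) (a (l 16637120) (l 16659448))) (b (l 16649544) (a (l 358260468999) (l 16667192)))))), by decide +kernel⟩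

def k12_pp_012_a : ∃ t, chk3 f_pp_012_a t 31 6 1 = true :=
  ⟨(b (a (a (b (l 16528816) (l 16542360)) (b (l 16559816) (l 16595336))) (b (a (l 16547824) (l 16596824)) (a (l 16622976) (b (l 16644808) (a (l 16633432) (l 16612888)))))) (a (b (a (b (l 16645304) (l 16658832)) (b (l 16660280) (l 16636696))) (a (b (l 16634352) (a (l 16665144) (b (l 16648664) (l 16640472)))) (b (b (l 140743088711057535) (l 16589680)) (a (b (l 16631816) (l 16625968)) (l 16596816))))) (b (a (b (l 16620016) (a (l 16607328) (l 16612760))) (b (l 16562992) (a (l 16601168) (l 16592152)))) (a (b (a (l 16614376) (l 16604688)) (a (l 16613616) (l 16595736))) (a (b (l 16601560) (l 16620312)) (b (l 16604464) (l 16625504))))))), by decide +kernel⟩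

def k13_pp_012_a : ∃ t, chk3 f_pp_012_a t 15 7 1 = true :=
  ⟨(a (b (a (l 3) (b (a (l 3) (a (l 3) (b (b (l 16671744) (l 306183907319)) (l 3)))) (l 3))) (l 3)) (b (a (b (a (a (b (b (l 16629600) (a (l 229948234631) (l 16641048))) (b (a (l 3) (l 177871756951)) (l 3))) (b (b (l 16635560) (l 16633992)) (b (l 16627360) (a (l 173039925335) (l 16651080))))) (b (a (b (l 16625640) (l 16630584)) (b (l 16623208) (l 16633848))) (a (b (l 16641608) (l 16655080)) (b (l 16646816) (l 16661784))))) (a (b (a (l 3) (b (a (l 3) (l 16644704)) (l 3))) (l 3)) (b (a (b (l 16670632) (l 16684408)) (l 16681720)) (a (l 197736081079) (b (l 16699088) (l 16709120)))))) (b (a (b (a (l 16612008) (l 16596976)) (l 16642000)) (b (l 16647760) (l 16668088))) (a (b (b (l 16680088) (l 16690328)) (a (b (l 16699768) (l 16708960)) (b (l 16699336) (l 16707480)))) (b (a (l 16685792) (l 16684080)) (b (l 16685744) (a (l 16704896) (l 16701160))))))) (a (b (a (l 3) (b (a (l 3) (b (l 66739631175) (l 3))) (l 3))) (l 3)) (b (a (b (a (b (l 16717368)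 (a (l 16725408) (l 16724712))) (b (l 16715128) (b (l 16720704) (l 16724440)))) (a (b (a (l 3) (l 16731744)) (l 3)) (b (a (b (l 16729024) (l 16732696)) (l 16729216)) (a (b (l 16736192) (l 3)) (b (l 16734976) (l 16738760)))))) (b (a (b (l 16711976) (l 16719016)) (b (l 16707760) (l 16714600))) (a (b (a (l 16727336) (l 16725280)) (a (b (l 16733080) (l 6)) (l 6))) (b (a (l 16723016) (l 16720536)) (l 6))))) (a (a (l 3) (a (l 3) (l 6))) (l 6)))))), by decide +kernel⟩

theorem s14_pp_012_a : ∃ t, chk3 f_pp_012_a t 60 12 1 = true := ex3_a k8_pp_012_a k9_pp_012_a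

theorem s15_pp_012_a : ∃ t, chk3 f_pp_012_a t 60 6 1 = true := ex3_b s14_pp_012_a k10_pp_012_a

theorem s16_pp_012_a : ∃ t, chk3 f_pp_012_a t 30 6 1 = true := ex3_a s15_pp_012_a k11_pp_012_a

theorem s17_pp_012_a : ∃ t, chk3 f_pp_012_a t 15 6 1 = true := ex3_a s16_pp_012_a k12_pp_012_a

theorem s18_pp_012_a : ∃ t, chk3 f_pp_012_a t 15 3 1 = true := ex3_b s17_pp_012_a k13_pp_012_a

theorem s19_pp_012_a : ∃ t, chk3 f_pp_012_a t 7 3 1 = true := ex3_a k7_pp_012_a s18_pp_012_a

theorem s20_pp_012_a : ∃ t, chk3 f_pp_012_a t 29 5 1 = true := ex3_a k4_pp_012_a k5_pp_012_a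

theorem s21_pp_012_a : ∃ t, chk3 f_pp_012_a t 29 2 1 = true := ex3_b k3_pp_012_a s20_pp_012_a

theorem s22_pp_012_a : ∃ t, chk3 f_pp_012_a t 14 2 1 = true := ex3_a k2_pp_012_a s21_pp_012_a

theorem s23_pp_012_a : ∃ t, chk3 f_pp_012_a t 7 2 1 = true := ex3_a s22_pp_012_a k6_pp_012_a

theorem s24_pp_012_a : ∃ t, chk3 f_pp_012_a t 7 1 1 = true := ex3_b s23_pp_012_a s19_pp_012_a

theorem s25_pp_012_a : ∃ t, chk3 f_pp_012_a t 3 1 1 = true := ex3_a k1_pp_012_a s24_pp_012_a

theorem s26_pp_012_a : ∃ t, chk3 f_pp_012_a t 1 1 1 = true := ex3_a k0_pp_012_a s25_pp_012_a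

theorem c_pp_012_a : CertB 0 536870912 0 536870912 1033476505 6710887 3 eng mog cd0q0 cd2q2a pd1 false true true .pnp 0 1 2
    ndB0q0 ndB2q2a pcB1 cut_pp_012_a xt_pp_012_a :=
  certB2 (fam := false) (s1 := true) (s2 := true) (a := 0) (b := 1) (c := 2) (cn := .pnp) (n1 := ndB0q0) (n2 := ndB2q2a) (pc := pcB1) (cut := cut_pp_012_a) (xt := xt_pp_012_a) (P1 := 0) (W1 := 536870912) (P2 := 0) (W2 := 536870912) (P3 := 1033476505) (W3 := 6710887) (N0 := 3) (En := eng) (mo := mog) (C1 := cd0q0) (C2 := cd2q2a) (C3 := pd1)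
    rfl (fun _ => rfl) s26_pp_012_a

noncomputable def cut_pp_012_b : Cut := Cut.of [[⟨0, 0, 0, 33554432⟩, ⟨1, 1, 0, 33554432⟩, ⟨2, 1, 0, 33554432⟩]]

noncomputable def f_pp_012_b : ℕ → ℕ → ℕ → ℕ → Bool := onCell 0 536870912 536870912 536870912 1033476505 6710887
    (rowB 3 eng mog cd0q0 cd2q2b pd1 1 false true true .pnp 0 1 2 (qsf 0 536870912 1239849684 370763052 1) ndB0q0 ndB2q2b pcB1 cut_pp_012_b Ext.none)

def k0_pp_012_b : ∃ t, chk3 f_pp_012_b t 2 1 1 = true :=
  ⟨(b (l 1) (b (l 1) (a (l 1) (b (a (l 1) (b (a (l 1) (b (l 1) (a (l 1) (l 310880935303)))) (a (b (l 1) (a (l 1) (l 362957061511))) (b (a (l 338261139191) (l 16296528)) (a (l 16206680) (l 16181656)))))) (b (a (a (l 1) (b (l 1) (a (l 1) (l 385505624231)))) (a (b (a (l 400001059287) (l 229812862167)) (a (l 16163576) (l 16088872))) (b (b (l 16114056) (l 16069432)) (l 16020528)))) (a (a (a (l 1) (b (l 1) (l 379063313335))) (a (b (l 357051536663) (l 161093505975)) (b (l 16187904) (l 16111912)))) (a (a (l 15930928) (l 15982024)) (l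 15913464)))))))), by decide +kernel⟩

def k1_pp_012_b : ∃ t, chk3 f_pp_012_b t 3 1 1 = true :=
  ⟨(b (l 3) (b (b (l 3) (b (a (l 3) (l 3)) (a (a (a (b (l 1) (a (l 1) (l 486438302007))) (b (b (l 3) (a (l 473016636487) (l 304036504423))) (b (a (l 253436329271) (l 16678152)) (l 16571456)))) (b (a (l 263234328839) (l 3)) (a (a (l 16681592) (l 16701496)) (l 16688752)))) (a (b (l 3) (a (l 16619688) (l 16580608))) (l 3))))) (b (a (a (b (a (b (a (l 448856984903) (l 251825395735)) (a (l 119754883319) (l 16429952))) (b (l 16481400) (l 16453032))) (a (b (a (l 16297928) (l 16310104)) (a (l 16182192) (l 16193424))) (b (l 16331784) (l 16213616)))) (b (b (a (l 16561608) (l 16601688)) (a (l 16489856) (l 16486640))) (b (a (l 16366664) (l 16403376)) (a (l 16246368) (l 16280816))))) (b (a (b (a (l 16624024) (l 16580544)) (a (l 16522120) (l 16564760))) (b (a (l 16529552) (l 16494136)) (a (l 16529248) (l 16487992)))) (a (b (a (l 16415824) (l 16441520)) (a (l 16311856) (l 16335064))) (b (a (l 16476744) (l 16477944))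 (a (l 16325736) (l 16303208)))))) (a (b (a (a (b (a (l 16080192) (l 16090600)) (a (l 16010656) (l 16020864))) (b (l 16088496) (l 16039400))) (b (a (l 16140320) (l 16151736)) (a (l 16069768) (l 16101664)))) (a (a (a (l 15903208) (l 15913064)) (l 15931000)) (a (l 15960552) (l 15991600)))) (b (a (b (a (l 16159632) (l 16180544)) (a (l 16130024) (l 16150456))) (b (a (l 16189784) (l 16164736)) (a (l 16159256) (l 16154768)))) (a (a (l 16019120) (l 16038744)) (a (l 16046792) (l 16041624)))))))), by decide +kernel⟩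

theorem s2_pp_012_b : ∃ t, chk3 f_pp_012_b t 1 1 1 = true := ex3_a k0_pp_012_b k1_pp_012_b

theorem c_pp_012_b : CertB 0 536870912 1239849684 370763052 1033476505 6710887 3 eng mog cd0q0 cd2q2b pd1 false true true .pnp 0 1 2
    ndB0q0 ndB2q2b pcB1 cut_pp_012_b Ext.none :=
  certB1 (fam := false) (s1 := true) (s2 := true) (a := 0) (b := 1) (c := 2) (cn := .pnp) (n1 := ndB0q0) (n2 := ndB2q2b) (pc := pcB1) (cut := cut_pp_012_b) (xt := Ext.none) (P1 := 0) (W1 := 536870912) (P2 := 1239849684) (W2 := 370763052) (P3 := 1033476505) (W3 := 6710887) (N0 := 3) (En := eng) (mo := mog) (C1 := cd0q0) (C2 := cd2q2b) (C3 := pd1)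
    rfl (fun _ => rfl) s2_pp_012_b

noncomputable def cut_pp_022_a : Cut := Cut.of [[⟨0, 0, 0, 33554432⟩, ⟨1, 1, 0, 33554432⟩, ⟨2, 1, 0, 33554432⟩]]

noncomputable def f_pp_022_a : ℕ → ℕ → ℕ → ℕ → Bool := onCell 0 536870912 0 536870912 1033476505 6710887
    (rowB 3 eng mog cd0q0 cd2q2a pd2 0 false true true .pp 0 2 2 (qsf 0 536870912 0 536870912 2) ndB0q0 ndB2q2a pcB2 cut_pp_022_a Ext.none)

def k0_pp_022_a : ∃ t, chk3 f_pp_022_a t 2 2 1 = true :=
  ⟨(a (a (b (a (b (l 16058952) (l 16060864)) (b (l 16167848) (l 16179424))) (a (b (l 16083528) (a (l 16102864) (l 16169984))) (b (l 16212152) (a (l 16240520) (l 16306320))))) (a (b (a (l 16239088) (l 16203880)) (a (b (l 16287568) (l 16356840)) (b (l 16321648) (a (l 16380856) (l 16406480))))) (a (b (a (l 16318864) (l 16377304)) (b (l 16343232) (a (l 16454976) (l 16518272)))) (b (l 16460968) (b (l 16539568) (l 16516120)))))) (a (a (b (a (l 16466840) (b (l 16443320) (l 427918806839))) (a (b (l 16441616) (a (l 427918995623) (l 600254597559))) (b (l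 550862296391) (l 1)))) (b (b (l 1) (l 1)) (l 1))) (l 1))), by decide +kernel⟩

def k1_pp_022_a : ∃ t, chk3 f_pp_022_a t 4 6 1 = true :=
  ⟨(a (a (b (b (l 16135744) (a (l 16220248) (l 16294208))) (b (a (l 16290464) (l 16367112)) (a (b (l 16353120) (l 16358584)) (b (l 16431728) (l 16459448))))) (b (a (l 16256048) (l 16305744)) (b (a (l 16446600) (l 16499848)) (a (b (l 16513056) (l 16520992)) (b (l 16568000) (b (l 16605728) (l 16590032))))))) (a (b (a (b (l 16433064) (l 16499272)) (a (l 16451024) (l 16457744))) (b (a (l 16537272) (a (l 16566856) (l 16596024))) (a (b (l 16627976) (a (l 16656184) (l 16619632))) (a (b (l 16657272) (l 1)) (l 1))))) (b (a (a (a (l 16493624) (l 16555592)) (l 16552400)) (a (l 452078292279) (l 578242958951))) (a (b (a (l 16567160) (l 1)) (l 1)) (l 1))))), by decide +kernel⟩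

def k2_pp_022_a : ∃ t, chk3 f_pp_022_a t 4 7 1 = true :=
  ⟨(a (b (a (b (a (b (b (a (l 16420096) (l 16458288)) (a (l 16440368) (l 16476680))) (a (l 16435512) (l 16493536))) (b (b (a (l 16498256) (l 16539016)) (l 16492184)) (a (l 16532928) (l 16573832)))) (a (b (a (l 16482352) (l 16521336)) (a (b (l 16505824) (l 16523976)) (b (l 16546760) (l 16566504)))) (b (a (l 16563032) (l 16585680)) (a (l 16538480) (b (l 16637080) (l 16660920)))))) (b (b (a (a (b (l 16579600) (l 16593768)) (l 16584472)) (a (l 16622344) (l 16663360))) (a (a (l 16615464) (l 16636144)) (a (l 16655912) (l 16634936)))) (a (b (a (l 16630536) (l 16634072)) (a (a (l 16643680) (l 221224142743)) (b (l 16672280) (a (l 16690864) (l 1))))) (b (a (b (l 16675920) (l 353831242551)) (l 729640821559)) (a (b (l 747894528759) (l 1)) (l 1)))))) (a (b (a (b (a (b (l 16544368) (l 16546328)) (b (l 16588768) (l 16592928))) (l 6)) (b (a (b (l 16636840) (l 16622632)) (b (l 16646064) (b (l 16668760) (l 250752086167)))) (a (l 6) (a (l 6) (a (l 6)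 (a (l 6) (l 1))))))) (a (l 6) (a (l 6) (l 1)))) (b (a (b (a (b (a (l 16707168) (l 499860208231)) (a (b (l 16707704) (l 650184113495)) (l 1))) (l 1)) (l 1)) (l 1)) (l 1)))) (b (a (b (a (b (a (l 16642256) (l 220687185335)) (a (l 434361868375) (l 1))) (l 1)) (l 1)) (l 1)) (l 1))), by decide +kernel⟩

def k3_pp_022_a : ∃ t, chk3 f_pp_022_a t 5 3 1 = true :=
  ⟨(b (l 1) (l 1)), by decide +kernel⟩

def k4_pp_022_a : ∃ t, chk3 f_pp_022_a t 3 1 1 = true :=
  ⟨(l 1), by decide +kernel⟩

theorem s5_pp_022_a : ∃ t, chk3 f_pp_022_a t 4 3 1 = true := ex3_b k1_pp_022_a k2_pp_022_a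

theorem s6_pp_022_a : ∃ t, chk3 f_pp_022_a t 2 3 1 = true := ex3_a s5_pp_022_a k3_pp_022_a

theorem s7_pp_022_a : ∃ t, chk3 f_pp_022_a t 2 1 1 = true := ex3_b k0_pp_022_a s6_pp_022_a

theorem s8_pp_022_a : ∃ t, chk3 f_pp_022_a t 1 1 1 = true := ex3_a s7_pp_022_a k4_pp_022_a

theorem c_pp_022_a : CertB 0 536870912 0 536870912 1033476505 6710887 3 eng mog cd0q0 cd2q2a pd2 false true true .pp 0 2 2
    ndB0q0 ndB2q2a pcB2 cut_pp_022_a Ext.none :=
  certB0 (fam := false) (s1 := true) (s2 := true) (a := 0) (b := 2) (c := 2) (cn := .pp) (n1 := ndB0q0) (n2 := ndB2q2a) (pc := pcB2) (cut := cut_pp_022_a) (xt := Ext.none) (P1 := 0) (W1 := 536870912) (P2 := 0) (W2 := 536870912) (P3 := 1033476505) (W3 := 6710887) (N0 := 3) (En := eng) (mo := mog) (C1 := cd0q0) (C2 := cd2q2a) (C3 := pd2)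
    rfl s8_pp_022_a

noncomputable def cut_pp_022_b : Cut := Cut.of [[⟨0, 0, 0, 33554432⟩, ⟨1, 1, 0, 33554432⟩, ⟨2, 1, 0, 33554432⟩]]

noncomputable def f_pp_022_b : ℕ → ℕ → ℕ → ℕ → Bool := onCell 0 536870912 1239849684 370763052 1033476505 6710887
    (rowB 3 eng mog cd0q0 cd2q2b pd2 0 false true true .pp 0 2 2 (qsf 0 536870912 1239849684 370763052 2) ndB0q0 ndB2q2b pcB2 cut_pp_022_b Ext.none)

def k0_pp_022_b : ∃ t, chk3 f_pp_022_b t 1 1 1 = true :=
  ⟨(a (a (a (b (b (a (b (l 16015616) (l 15933240)) (b (l 16117136) (l 16028448))) (a (l 15737432) (l 15925480))) (b (a (l 15780920) (l 15844768)) (a (l 15777808) (l 15819520)))) (b (a (b (a (l 16125768) (b (l 16196616) (l 16101368))) (a (l 15970280) (l 15985576))) (b (a (b (l 16270288) (l 16172824)) (b (l 16393648) (l 16294184))) (a (l 16010632) (l 16169840)))) (a (b (a (l 15876496) (l 15883832)) (l 15830544)) (b (a (l 15943376) (l 16053672)) (a (l 15885328) (l 15987440)))))) (b (a (b (a (b (a (l 16524696) (l 16432456)) (l 16467272)) (b (a (l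 413423186231) (l 427381764359)) (a (l 16381248) (l 16283240)))) (a (l 16169704) (l 16168960))) (b (a (a (b (b (l 1) (l 487511128215)) (l 404832871047)) (b (l 1) (l 410738395959))) (b (l 1) (a (a (l 415033320103) (l 418791358455)) (l 424696874711)))) (a (b (l 16104216) (l 16172968)) (b (a (l 16073840) (l 371546620295)) (l 16078072))))) (a (b (a (l 16232832) (l 16231416)) (a (l 16080112) (l 16068784))) (b (a (l 16147912) (l 16085760)) (l 15887088))))) (b (a (b (l 1) (a (a (b (a (b (l 401611453959) (l 16026280)) (l 401074588199)) (a (l 16050616) (l 16045120))) (b (b (l 1) (l 392484656871)) (b (l 353829925191) (l 16026016)))) (b (l 1) (a (l 383357904951) (l 1))))) (l 1)) (a (a (a (b (l 16004368) (l 16032288)) (b (b (l 16065312) (l 16074352)) (l 16051352))) (b (b (a (l 368862361367) (l 368862459223)) (a (l 16082000) (l 388189771399))) (a (l 16069152) (l 16086784)))) (b (a (b (l 1) (a (l 361346317319) (l 341482091271))) (l 1)) (a (b (a (l 16104224) (l 343092663255)) (a (l 16093216) (l 16104360)))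 (b (a (l 334502779367) (l 1)) (a (l 342555778007) (l 332355172567)))))))), by decide +kernel⟩

theorem c_pp_022_b : CertB 0 536870912 1239849684 370763052 1033476505 6710887 3 eng mog cd0q0 cd2q2b pd2 false true true .pp 0 2 2
    ndB0q0 ndB2q2b pcB2 cut_pp_022_b Ext.none :=
  certB0 (fam := false) (s1 := true) (s2 := true) (a := 0) (b := 2) (c := 2) (cn := .pp) (n1 := ndB0q0) (n2 := ndB2q2b) (pc := pcB2) (cut := cut_pp_022_b) (xt := Ext.none) (P1 := 0) (W1 := 536870912) (P2 := 1239849684) (W2 := 370763052) (P3 := 1033476505) (W3 := 6710887) (N0 := 3) (En := eng) (mo := mog) (C1 := cd0q0) (C2 := cd2q2b) (C3 := pd2)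
    rfl k0_pp_022_b

noncomputable def f_pp_023 : ℕ → ℕ → ℕ → ℕ → Bool := onCell 0 536870912 1073741824 536870912 1033476505 6710887
    (rowB 3 eng mog cd0q0 cd2q3 pd2 1 false true true .up 0 2 3 (qsf 0 536870912 1610612736 536870912 2) ndB0q0 ndB2q3 pcB2 Cut.none Ext.none)

def k0_pp_023 : ∃ t, chk3 f_pp_023 t 1 1 1 = true :=
  ⟨(b (a (a (l 1) (a (l 1) (b (l 1) (l 365103168039)))) (a (a (b (l 1) (a (l 15641776) (l 15623944))) (b (l 394631248087) (l 15606808))) (b (a (b (l 383893981975) (l 15690952)) (b (b (a (l 15717520) (l 15695336)) (l 15674672)) (l 15671776))) (a (l 15595528) (l 15585680))))) (a (a (a (b (l 1) (b (l 15409864) (l 15191336))) (b (a (l 1) (a (l 1) (l 15689816))) (a (b (l 15511824) (l 15224888)) (b (l 15433408) (l 15165208))))) (a (b (a (l 15471200) (l 15596112)) (b (l 15339208) (l 15130104))) (b (l 214241967031) (b (l 15281200) (l 15137048))))) (a (a (b (a (l 15442600) (l 15427408)) (a (l 15192736) (l 15176432))) (b (l 15409072) (l 15149840))) (b (a (l 15390768) (l 15380056))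 (a (l 15112944) (b (l 15172048) (l 15015072))))))), by decide +kernel⟩

theorem c_pp_023 : CertB 0 536870912 1610612736 536870912 1033476505 6710887 3 eng mog cd0q0 cd2q3 pd2 false true true .up 0 2 3
    ndB0q0 ndB2q3 pcB2 Cut.none Ext.none :=
  certB1 (fam := false) (s1 := true) (s2 := true) (a := 0) (b := 2) (c := 3) (cn := .up) (n1 := ndB0q0) (n2 := ndB2q3) (pc := pcB2) (cut := Cut.none) (xt := Ext.none) (P1 := 0) (W1 := 536870912) (P2 := 1610612736) (W2 := 536870912) (P3 := 1033476505) (W3 := 6710887) (N0 := 3) (En := eng) (mo := mog) (C1 := cd0q0) (C2 := cd2q3) (C3 := pd2)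
    rfl (fun _ => rfl) k0_pp_023

noncomputable def f_pp_033 : ℕ → ℕ → ℕ → ℕ → Bool := onCell 0 536870912 1610612736 536870912 1033476505 6710887
    (rowB 3 eng mog cd0q0 cd2q3 pd3 1 false true true .pnn 0 3 3 (qsf 0 536870912 1610612736 536870912 3) ndB0q0 ndB2q3 pcB3 Cut.none Ext.none)

def k0_pp_033 : ∃ t, chk3 f_pp_033 t 1 1 1 = true :=
  ⟨(a (b (a (b (a (b (a (l 14940432) (l 14868904)) (a (l 14682776) (b (l 14681728) (l 14595240)))) (b (a (l 14799616) (l 14754560)) (a (b (l 14620328) (a (l 14567264) (l 14553024))) (b (l 14590592) (a (l 14565376) (l 14608688)))))) (a (b (b (a (b (l 14615320) (l 14765480)) (l 14693712)) (a (l 15021416) (l 15099768))) (b (a (l 15310856) (l 15366200)) (b (l 15153744) (l 14951208)))) (b (a (b (l 14811088) (l 15170448)) (b (l 14793888) (l 15293304))) (a (b (l 15393528) (l 15299904)) (b (l 15521672) (l 15497472)))))) (b (b (a (l 14771672) (l 14835320)) (a (b (l 14668336) (a (l 14710240) (l 14880608))) (b (l 14817744) (l 15189768)))) (b (a (b (a (l 15122064)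 (l 15345160)) (l 15483440)) (b (l 15680728) (l 16150256))) (a (b (a (l 15817344) (l 16110352)) (l 15866912)) (b (l 16275744) (l 4)))))) (a (b (a (b (l 4) (l 4)) (l 4)) (l 4)) (b (l 4) (a (b (l 4) (l 2)) (l 2))))) (b (a (b (b (a (l 14862384) (b (l 14809992) (l 14825648))) (a (b (a (l 14926088) (l 14999784)) (l 15496320)) (b (l 15185896) (l 15736000)))) (b (a (b (l 16018664) (a (l 16409440) (l 16516256))) (b (l 16286664) (l 16619520))) (a (b (l 16657936) (l 4)) (l 4)))) (b (b (a (b (l 14760552) (l 14848144)) (b (a (l 14750432) (l 14821008)) (l 15176816))) (a (b (l 15467720) (l 16010808)) (b (l 15915768) (l 2)))) (a (b (b (l 16546696) (l 2)) (l 2)) (l 2)))) (a (b (a (b (l 4) (l 2)) (l 2)) (l 2)) (l 2)))), by decide +kernel⟩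

theorem c_pp_033 : CertB 0 536870912 1610612736 536870912 1033476505 6710887 3 eng mog cd0q0 cd2q3 pd3 false true true .pnn 0 3 3
    ndB0q0 ndB2q3 pcB3 Cut.none Ext.none :=
  certB1 (fam := false) (s1 := true) (s2 := true) (a := 0) (b := 3) (c := 3) (cn := .pnn) (n1 := ndB0q0) (n2 := ndB2q3) (pc := pcB3) (cut := Cut.none) (xt := Ext.none) (P1 := 0) (W1 := 536870912) (P2 := 1610612736) (W2 := 536870912) (P3 := 1033476505) (W3 := 6710887) (N0 := 3) (En := eng) (mo := mog) (C1 := cd0q0) (C2 := cd2q3) (C3 := pd3)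
    rfl (fun _ => rfl) k0_pp_033

noncomputable def f_pp_101 : ℕ → ℕ → ℕ → ℕ → Bool := onCell 536870912 536870912 536870912 536870912 1033476505 6710887
    (rowB 3 eng mog cd0q1 cd2q1 pd0 0 false true true .npn 1 0 1 (qsf 536870912 536870912 536870912 536870912 0) ndB0q1 ndB2q1 pcB0 Cut.none Ext.none)

def k0_pp_101 : ∃ t, chk3 f_pp_101 t 1 1 1 = true :=
  ⟨(l 3), by decide +kernel⟩

theorem c_pp_101 : CertB 536870912 536870912 536870912 536870912 1033476505 6710887 3 eng mog cd0q1 cd2q1 pd0 false true true .npn 1 0 1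
    ndB0q1 ndB2q1 pcB0 Cut.none Ext.none :=
  certB0 (fam := false) (s1 := true) (s2 := true) (a := 1) (b := 0) (c := 1) (cn := .npn) (n1 := ndB0q1) (n2 := ndB2q1) (pc := pcB0) (cut := Cut.none) (xt := Ext.none) (P1 := 536870912) (W1 := 536870912) (P2 := 536870912) (W2 := 536870912) (P3 := 1033476505) (W3 := 6710887) (N0 := 3) (En := eng) (mo := mog) (C1 := cd0q1) (C2 := cd2q1) (C3 := pd0)
    rfl k0_pp_101

noncomputable def f_pp_102_a : ℕ → ℕ → ℕ → ℕ → Bool := onCell 536870912 536870912 0 536870912 1033476505 6710887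
    (rowB 3 eng mog cd0q1 cd2q2a pd0 0 false true true .npp 1 0 2 (qsf 536870912 536870912 0 536870912 0) ndB0q1 ndB2q2a pcB0 Cut.none Ext.none)

def k0_pp_102_a : ∃ t, chk3 f_pp_102_a t 1 1 1 = true :=
  ⟨(l 3), by decide +kernel⟩

theorem c_pp_102_a : CertB 536870912 536870912 0 536870912 1033476505 6710887 3 eng mog cd0q1 cd2q2a pd0 false true true .npp 1 0 2
    ndB0q1 ndB2q2a pcB0 Cut.none Ext.none :=
  certB0 (fam := false) (s1 := true) (s2 := true) (a := 1) (b := 0) (c := 2) (cn := .npp) (n1 := ndB0q1) (n2 := ndB2q2a) (pc := pcB0) (cut := Cut.none) (xt := Ext.none) (P1 := 536870912) (W1 := 536870912) (P2 := 0) (W2 := 536870912) (P3 := 1033476505) (W3 := 6710887) (N0 := 3) (En := eng) (mo := mog) (C1 := cd0q1) (C2 := cd2q2a) (C3 := pd0)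
    rfl k0_pp_102_a

noncomputable def f_pp_102_b : ℕ → ℕ → ℕ → ℕ → Bool := onCell 536870912 536870912 0 536870912 1033476505 6710887
    (rowB 3 eng mog cd0q1 cd2q2b pd0 1 false true true .npp 1 0 2 (qsf 536870912 536870912 1239849684 370763052 0) ndB0q1 ndB2q2b pcB0 Cut.none Ext.none)

def k0_pp_102_b : ∃ t, chk3 f_pp_102_b t 1 1 1 = true :=
  ⟨(l 3), by decide +kernel⟩

theorem c_pp_102_b : CertB 536870912 536870912 1239849684 370763052 1033476505 6710887 3 eng mog cd0q1 cd2q2b pd0 false true true .npp 1 0 2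
    ndB0q1 ndB2q2b pcB0 Cut.none Ext.none :=
  certB1 (fam := false) (s1 := true) (s2 := true) (a := 1) (b := 0) (c := 2) (cn := .npp) (n1 := ndB0q1) (n2 := ndB2q2b) (pc := pcB0) (cut := Cut.none) (xt := Ext.none) (P1 := 536870912) (W1 := 536870912) (P2 := 1239849684) (W2 := 370763052) (P3 := 1033476505) (W3 := 6710887) (N0 := 3) (En := eng) (mo := mog) (C1 := cd0q1) (C2 := cd2q2b) (C3 := pd0)
    rfl (fun _ => rfl) k0_pp_102_b

noncomputable def f_pp_112_a : ℕ → ℕ → ℕ → ℕ → Bool := onCell 536870912 536870912 0 536870912 1033476505 6710887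
    (rowB 3 eng mog cd0q1 cd2q2a pd1 0 false true true .dn 1 1 2 (qsf 536870912 536870912 0 536870912 1) ndB0q1 ndB2q2a pcB1 Cut.none Ext.none)

def k0_pp_112_a : ∃ t, chk3 f_pp_112_a t 1 1 1 = true :=
  ⟨(l 3), by decide +kernel⟩

theorem c_pp_112_a : CertB 536870912 536870912 0 536870912 1033476505 6710887 3 eng mog cd0q1 cd2q2a pd1 false true true .dn 1 1 2
    ndB0q1 ndB2q2a pcB1 Cut.none Ext.none :=
  certB0 (fam := false) (s1 := true) (s2 := true) (a := 1) (b := 1) (c := 2) (cn := .dn) (n1 := ndB0q1) (n2 := ndB2q2a) (pc := pcB1) (cut := Cut.none) (xt := Ext.none) (P1 := 536870912) (W1 := 536870912) (P2 := 0) (W2 := 536870912) (P3 := 1033476505) (W3 := 6710887) (N0 := 3) (En := eng) (mo := mog) (C1 := cd0q1) (C2 := cd2q2a) (C3 := pd1)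
    rfl k0_pp_112_a

noncomputable def f_pp_112_b : ℕ → ℕ → ℕ → ℕ → Bool := onCell 536870912 536870912 536870912 536870912 1033476505 6710887
    (rowB 3 eng mog cd0q1 cd2q2b pd1 1 false true true .dn 1 1 2 (qsf 536870912 536870912 1239849684 370763052 1) ndB0q1 ndB2q2b pcB1 Cut.none Ext.none)

def k0_pp_112_b : ∃ t, chk3 f_pp_112_b t 1 1 1 = true :=
  ⟨(b (l 3) (a (a (b (l 3) (b (b (a (b (l 16390672) (a (l 16454456) (l 16424976))) (b (l 3) (l 16329432))) (a (b (a (l 16438016) (l 16401736)) (a (l 16338320) (l 16329984))) (b (a (l 16371272) (l 16348032)) (a (l 16318480) (l 2))))) (b (b (a (a (l 16176232) (l 16144160)) (b (l 16214496) (l 2))) (a (a (l 16144928) (l 16133512)) (l 2))) (a (b (l 16068112) (l 15982240)) (l 2))))) (b (l 3) (b (b (l 3) (l 2)) (l 2)))) (b (l 3) (l 2)))), by decide +kernel⟩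

theorem c_pp_112_b : CertB 536870912 536870912 1239849684 370763052 1033476505 6710887 3 eng mog cd0q1 cd2q2b pd1 false true true .dn 1 1 2
    ndB0q1 ndB2q2b pcB1 Cut.none Ext.none :=
  certB1 (fam := false) (s1 := true) (s2 := true) (a := 1) (b := 1) (c := 2) (cn := .dn) (n1 := ndB0q1) (n2 := ndB2q2b) (pc := pcB1) (cut := Cut.none) (xt := Ext.none) (P1 := 536870912) (W1 := 536870912) (P2 := 1239849684) (W2 := 370763052) (P3 := 1033476505) (W3 := 6710887) (N0 := 3) (En := eng) (mo := mog) (C1 := cd0q1) (C2 := cd2q2b) (C3 := pd1)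
    rfl (fun _ => rfl) k0_pp_112_b

noncomputable def cut_pp_113 : Cut := Cut.of [[⟨0, 1, 0, 20971520⟩, ⟨1, 1, 0, 20971520⟩, ⟨2, 2, 0, 1572864⟩]]

noncomputable def xt_pp_113 : Ext := extD3 3 ⟨4, 1, 1, 5, 27, 5, 41, 50, 81, 200, 1, 64⟩ eng cd0q1 cd2q3 pd1 false true true .nn 1 1 3 rfl ndB0q1 ndB2q3 pcB1

noncomputable def f_pp_113 : ℕ → ℕ → ℕ → ℕ → Bool := onCell 536870912 536870912 536870912 536870912 1033476505 6710887
    (rowB 3 eng mog cd0q1 cd2q3 pd1 1 false true true .nn 1 1 3 (qsf 536870912 536870912 1610612736 536870912 1) ndB0q1 ndB2q3 pcB1 cut_pp_113 xt_pp_113)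

def k0_pp_113 : ∃ t, chk3 f_pp_113 t 2 1 1 = true :=
  ⟨(b (l 3) (b (b (l 3) (l 3)) (b (a (b (a (l 1) (b (l 3) (l 16333120))) (a (b (l 1) (a (l 1) (l 16057192))) (b (a (l 16217448) (l 16215800)) (a (l 16052016) (l 16048472))))) (b (l 3) (a (b (a (l 16213688) (l 16209448)) (a (l 16045048) (l 16040344))) (b (l 3) (a (l 16040552) (l 16051472)))))) (b (a (b (a (b (l 15950152) (l 15884856)) (b (l 15936352) (l 15848992))) (a (a (l 15820824) (l 15811536)) (a (l 15805416) (l 15800912)))) (b (a (a (b (l 15928960) (l 15861696)) (b (l 15922480) (l 15854624))) (b (a (l 15920360) (l 15928576)) (a (l 15851888) (l 15859128)))) (a (a (l 15796560) (b (l 15809992) (l 15773088))) (a (b (l 15808088) (l 15772624)) (b (l 15816192) (l 15782256)))))) (a (a (b (l 15718848) (l 15607096)) (b (l 15708616) (l 15597696))) (a (a (l 15649944) (b (l 15700512) (l 15591016))) (a (b (l 15701200) (l 15592456)) (b (l 15712032) (l 15604040))))))))), by decide +kernel⟩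

def k1_pp_113 : ∃ t, chk3 f_pp_113 t 3 2 1 = true :=
  ⟨(l 3), by decide +kernel⟩

def k2_pp_113 : ∃ t, chk3 f_pp_113 t 3 6 1 = true :=
  ⟨(l 3), by decide +kernel⟩

def k3_pp_113 : ∃ t, chk3 f_pp_113 t 6 7 1 = true :=
  ⟨(b (a (l 3) (l 3)) (b (a (b (a (b (l 15944360) (l 15893048)) (b (l 3) (a (l 15883440) (l 15891512)))) (a (b (l 15829848) (l 15797560)) (b (l 78549213623) (l 15813456)))) (b (l 3) (b (a (a (l 15852968) (l 15858224)) (l 3)) (a (l 15825256) (a (l 15830168) (l 15820904)))))) (a (a (b (l 15728632) (l 15621440)) (b (l 15746016) (l 15639816))) (a (b (a (l 15756760) (l 15762112)) (l 15654928)) (b (a (l 15765800) (b (l 15780032) (l 15733224))) (a (l 15662888) (l 15657216))))))), by decide +kernel⟩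

def k4_pp_113 : ∃ t, chk3 f_pp_113 t 7 14 1 = true :=
  ⟨(l 3), by decide +kernel⟩

def k5_pp_113 : ∃ t, chk3 f_pp_113 t 14 15 1 = true :=
  ⟨(b (a (l 3) (l 3)) (a (b (a (b (l 15756960) (l 15712856)) (l 133848736592429087)) (a (l 15641776) (a (l 15633624) (l 15634400)))) (b (b (l 3) (a (l 132991461075861599) (l 3242339048341493783558520927))) (a (a (l 15643600) (l 15664800)) (b (l 132508775542095967) (a (l 15700464) (l 15770896))))))), by decide +kernel⟩

def k6_pp_113 : ∃ t, chk3 f_pp_113 t 15 30 1 = true :=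
  ⟨(l 3), by decide +kernel⟩

def k7_pp_113 : ∃ t, chk3 f_pp_113 t 30 31 1 = true :=
  ⟨(a (b (a (l 3) (l 3)) (a (b (l 111298402503) (l 15875408)) (b (b (l 8271470457939745193881763935) (l 134694124088787039)) (a (l 15983120) (l 16071640))))) (b (l 3) (a (b (b (l 3) (a (l 4267508143377110828410142815) (b (l 10457793008782506784849586703) (l 576969904567933611076111)))) (a (l 16174192) (l 580865339289646531895823))) (b (b (l 3) (b (l 3) (b (a (c (l 9403616842917560917195003919) (l 563344246087)) (l 3)) (a (l 583436215636704683235343) (a (c (c (l 5834869639554775725744953359) (l 317994696615)) (l 309941417207)) (b (l 3) (c (a (l 6066984921371243993940056079) (c (l 8117329472682056742506159119) (l 481203672391))) (l 9200517436078893988867430415)))))))) (b (a (l 16376904) (a (l 591887130265473028954127) (b (c (l 598214075252379689834511) (l 16464752)) (l 16619152)))) (l 16589512)))))), by decide +kernel⟩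

def k8_pp_113 : ∃ t, chk3 f_pp_113 t 31 62 1 = true :=
  ⟨(l 3), by decide +kernel⟩

def k9_pp_113 : ∃ t, chk3 f_pp_113 t 62 126 1 = true :=
  ⟨(a (a (a (l 3) (l 3)) (l 3)) (l 3)), by decide +kernel⟩

def k10_pp_113 : ∃ t, chk3 f_pp_113 t 248 127 1 = true :=
  ⟨(b (b (b (a (b (a (c (b (c (l 7362960116342351556524923919) (l 7952912126661304950911866895)) (l 312089745783)) (l 6008953913897090281708689423)) (b (l 3) (c (c (l 6908406833401398026039139343) (l 7537044340532580661892406287)) (b (l 490330459559) (l 7324267615820212204533438479))))) (c (l 5573750319517363541161187343) (l 594466215671278735792143))) (b (l 3) (c (a (b (c (l 6811693715533704478909373455) (a (l 349133782327) (l 408189615223))) (l 5641453408583975234012257295)) (a (b (l 3) (c (l 6366808803795576728015952911) (l 6366808908423203271087528975))) (c (l 7411320509893122652619185167) (l 7430663230196775598563531791)))) (c (b (c (l 7730475685439615421481802767) (l 8059302584884669366828424207)) (a (l 16663936) (a (l 6347462479747530757198830607)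 (l 7537046748985603785708379151)))) (a (l 6086328341210019860063934479) (a (l 6647273820403506001290352655) (l 8523527954317997272681487375))))))) (c (a (l 16740928) (c (l 604297753801813965380623) (l 604398922663843194887183))) (c (l 5448019877737767739870271503) (l 596020353859488881317903)))) (l 16751288)) (l 16731800)), by decide +kernel⟩

def k11_pp_113 : ∃ t, chk3 f_pp_113 t 249 127 1 = true :=
  ⟨(a (b (b (b (l 3) (c (c (b (a (b (a (l 6386151370760669561250110479) (l 7179206657699320097161124879)) (l 16766536)) (b (l 3) (a (l 6134694529344273110308445199) (l 7169534967235482554328194063)))) (l 604712229082720144825359)) (b (a (b (a (l 6376480073731295465502923791) (l 7198549582934770486972455951)) (l 16766608)) (b (l 3) (a (l 6395822620520261968117423119) (l 7188877897082618962566880271)))) (l 604823774238290854681615))) (c (b (a (b (a (l 6376479830464857993458392079) (l 7217892509323142381390633999)) (l 16766680)) (b (l 3) (a (l 6395822735524182052650376207) (l 7208220827794446499260685327))))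 (l 604936184084990011628559)) (b (a (b (a (l 6318447042303440415980510223) (l 7730473691173642827803925519)) (l 16727328)) (b (l 3) (a (l 6395821503915784756386159631) (l 7227563004207379646924872719)))) (l 604118474507847605459983))))) (l 16735888)) (l 16737328)) (b (b (b (l 3) (b (l 3) (b (a (c (a (a (c (l 330343366599) (l 330343366951)) (c (l 6318450939034030590328925391) (l 6560236222140197172789386255))) (b (l 3) (c (l 6608593036590304634295495887) (l 6647278783874719687769353423)))) (a (c (b (l 6947092662543250970453826575) (l 16768144)) (b (l 6956764190156925987570342927) (l 16768192))) (b (l 3) (c (l 6947092509204690857743637519) (l 6956764039124208884073831439))))) (l 3)) (a (c (c (l 16768664) (l 315847845159)) (c (l 16765456) (l 16764832))) (c (a (c (b (l 6588645717043890129180754127) (l 16768560)) (b (l 6627935808775426799376805071) (l 16768584))) (b (l 3) (c (l 6569302903930065683112755407) (l 6607988530157720828722299087)))) (a (c (b (l 6666621559518606297951710415) (l 16768608))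 (b (l 6956763881750423505239677967) (l 16768640))) (b (l 3) (c (l 6947092234665288222125829327) (l 6956763768043559973318864079))))))))) (a (l 603152470107162419178703) (b (c (a (l 16764864) (c (l 5669862094136731137017888975) (l 5669862094136717393122361551))) (c (l 5651123420249955682551639247) (l 5283610095026158888682499279))) (l 16758800)))) (l 16741456))), by decide +kernel⟩

def k12_pp_113 : ∃ t, chk3 f_pp_113 t 125 508 1 = true :=
  ⟨(a (b (l 3) (l 3)) (l 3)), by decide +kernel⟩

def k13_pp_113 : ∃ t, chk3 f_pp_113 t 500 1018 1 = true :=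
  ⟨(b (a (b (b (a (a (c (c (l 352355075751) (l 351818205159)) (c (l 6289436594559530877053594831) (l 6308779532765337473453468879))) (c (c (l 399599716791) (l 401210329559)) (c (l 403357810615) (l 7101834934563779574239288335)))) (l 3)) (a (c (c (l 16769112) (l 16769120)) (c (l 16769136) (l 16769144))) (a (c (c (l 6250146487551790180692410575) (l 6269489300665611740542959823)) (c (l 6289436644423380110144761039) (l 6308779580179221018832100367))) (c (c (l 400136588279) (l 7043806300522690718965640399)) (c (l 7072820640673727849299406031) (l 7101834982121791639272283151)))))) (c (c (l 16769744) (l 299741726455)) (c (l 604380908264852730784975) (l 604503406163996969921743)))) (b (l 3) (b (a (a (c (c (l 6240475080994866756384030927) (l 6260422355577344093660753103)) (c (l 6279765288018542754709482703) (l 6299108221468546426619157519))) (c (c (l 7014187605548232039537311951) (l 7043806352980613199983291599)) (c (l 7072820690825807664700746959) (b (l 3) (l 6840707032466917471948020751))))) (l 3))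 (a (c (c (l 16769696) (l 16769688)) (c (l 16769688) (l 16769688))) (a (c (c (l 6240475080994860502912254159) (l 6260422408323497088269069519)) (c (b (l 6821364125101750403543178255) (l 16770320)) (b (l 6850378462946955725937941519) (l 16770312)))) (b (l 3) (c (c (l 386177944967) (l 6802021221627711005372607695)) (c (l 6821364150466023504894106639) (l 6850378487158307322682022927))))))))) (a (l 16765944) (c (c (l 144116321934131407) (l 604288386303319078333647)) (a (l 16767600) (c (l 5728495002440853743455202511) (l 5718823712184913209763011599)))))), by decide +kernel⟩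

def k14_pp_113 : ∃ t, chk3 f_pp_113 t 501 2036 1 = true :=
  ⟨(l 3), by decide +kernel⟩

def k15_pp_113 : ∃ t, chk3 f_pp_113 t 1002 2037 1 = true :=
  ⟨(b (b (a (a (c (c (b (l 6782678321180081554543570127) (l 16770640)) (b (l 6802021247856672417680141519) (l 16770624))) (c (b (l 6821364175830296606245051407) (l 16770616)) (c (l 6289436882069307036571491343) (l 6299108346848760052614913039)))) (b (l 3) (c (c (l 6782678348850194641451232463) (l 6811692680930781170817543375)) (c (l 6831035607751486740993629199) (a (l 6434508037204446639423036431) (l 7266249033381113640613305359)))))) (l 3)) (a (c (c (l 16770304) (l 16770616)) (c (l 310479146391) (l 311016017431))) (a (c (c (b (l 6792349783077224830476020943) (l 16770944)) (b (l 6811692707303848700229999631) (l 16770928))) (c (c (l 6260422598411412430699174927) (l 6270094061461483189832309775)) (b (a (l 6434508061415798236167117839) (l 7266249057592465237357386767)) (l 317995339671)))) (b (l 3) (c (c (l 6792349810747337986103176399) (a (l 6386150828887562396043009039)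 (l 411410879159))) (a (c (l 6405493753546552033550720015) (l 6424836679358463175665359887)) (c (l 7246906156568366444290333711) (l 7275920488360733867499117583)))))))) (c (c (l 604361020369448026320079) (l 604472277283166433045711)) (c (l 5312624636073799945179409615) (l 5322296155472931163485232143)))), by decide +kernel⟩

def k16_pp_113 : ∃ t, chk3 f_pp_113 t 1003 2037 1 = true :=
  ⟨(b (l 3) (a (b (b (a (c (a (c (l 6366807932907508792087342287) (l 6386150855404757002000800783)) (c (l 7208220336794015636952149199) (l 7227563259003032165043854351))) (c (a (l 6405493778910825134901648399) (l 7246906181932639545641278479)) (c (l 6850378580256718819686407183) (l 6860050042730328826516118543)))) (l 3)) (a (c (c (l 311016019287) (l 319069081607)) (c (l 319605952631) (l 318532211079))) (c (a (c (l 6357136554020704983036308687) (l 6376479475365034574561025039)) (c (l 7208220364320001647314492431) (l 7227563285520226771001646095))) (c (c (l 6831035682114923788136504335) (l 6840707143435612290359352335))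 (a (c (l 362555626263) (l 6424836755739512855869561871)) (c (l 412484621687) (l 413558363479))))))) (c (c (l 311016018119) (l 604628930504012322135055)) (c (l 5496381514137920802035096591) (l 5506053031087071901538294799)))) (b (l 3) (b (a (c (b (a (c (l 6956763797875384045099244559) (l 6966435311654001006933613583)) (l 3)) (a (c (l 318532212519) (l 319069083367)) (c (l 6956763811710442100381572111) (l 6976106731757745719461862415)))) (a (c (c (l 6386150989720112288699145231) (l 6405493857309487448167848975)) (c (l 6405493911785028540841434127) (l 6415165373393947419215993871))) (c (c (l 413021492775) (l 7246906260043071482755865615)) (c (l 7266249127632446642224569359) (l 7275920588664904768295705615))))) (l 3)) (a (c (c (l 311016019911) (l 311552889447)) (c (l 5631781282892269702109551631) (l 5641452798112038544702462991))) (c (a (c (c (l 6357136582987847066045619215) (l 6357136636022236277960563727)) (c (l 6366808095613542523273141263) (l 6376479555493079144737430543))) (c (c (l 7217891800276417048187395087)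 (l 7227563259291262541196549135)) (c (l 7227563312325651753111493647) (l 7237234771916957998424071183)))) (a (c (c (l 6386151015660846142353431567) (l 6405493882385530173367081999)) (c (l 6415165343129757923286522895) (l 6415165397317068639808379919))) (c (c (l 7237234825239577586490792975) (l 7256577691964261617504361487)) (c (l 7266249152132028615120378895) (l 7266249206319339331642235919)))))))))), by decide +kernel⟩

def k17_pp_113 : ∃ t, chk3 f_pp_113 t 250 1019 1 = true :=
  ⟨(a (l 16762104) (b (a (l 16767112) (c (a (l 16768856) (b (c (l 5380324436143602496262302927) (l 5380324541780044151957675023)) (l 16769168))) (c (c (l 5109525097946218601115671567) (l 5109525151845298941485734927)) (c (l 5119196612301296315253431311) (l 5119196666776837407926901775))))) (l 16764960))), by decide +kernel⟩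

def k18_pp_113 : ∃ t, chk3 f_pp_113 t 251 1018 1 = true :=
  ⟨(a (l 3) (l 3)), by decide +kernel⟩

def k19_pp_113 : ∃ t, chk3 f_pp_113 t 1004 1019 1 = true :=
  ⟨(b (b (b (a (a (b (a (c (c (c (l 6347465204677506895516048399) (l 6357136663404122012373490703)) (c (l 6366808122418967505382644751) (l 6376479581722043374543510543))) (c (b (c (l 6985778257642038479668616207) (l 6995449717521575101132905487)) (l 5757509632119334641959459855)) (c (b (l 7005121177401111722597194767) (l 326585275591)) (b (l 7005121231300192062967258127) (l 326048404807))))) (b (l 3) (c (c (c (l 6956763841109940467856825359) (l 6966435299836555584714267663)) (c (l 6966435352006253668174060559) (l 6976106811309329537334926351))) (c (c (l 6985778270612405406495792143) (l 6995449730203711651808369679)) (c (l 7005121189795017897120947215) (l 7005121243405867861339298831)))))) (c (c (l 5593095497561433932774824975) (l 5612438415302894542641421327)) (c (c (l 311552891415) (l 312626633127)) (c (l 312626633095) (l 318532212183)))))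 (b (l 3) (a (c (c (b (c (l 6802021349746095612625050639) (l 6811692808184480353330781199)) (l 5641452568392428751789186063)) (c (b (l 6821364266622865094036511759) (l 326048404791)) (b (l 6831035725349480210893954063) (l 326048404839)))) (c (c (b (l 6850378590921242737300757519) (l 327122146631)) (b (l 6860050050224318606461623311) (l 326585275847))) (c (b (l 6869721509815624851774200847) (l 326585275895)) (b (a (l 6560236545822909591171226639) (l 412484622375)) (l 326585275943))))) (b (l 3) (c (c (c (l 6898735418197569708118875151) (l 6908406876347724072672877583)) (c (l 6908406927940961403829246991) (l 6918078386379346144534977551))) (c (c (l 6927749845105961261392419855) (l 6927749897275659344852212751)) (c (l 6937421356578735214013078543) (l 6947092815881811083173944335)))))))) (l 3)) (a (c (a (l 16771256) (c (l 5177225011290545854400683023) (l 5244924960375439750496787471))) (c (c (l 604806192185345626774543) (l 604858938344181389974543)) (c (l 604911684503017152519183) (l 5380324862003992056509930511))))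 (b (a (a (c (c (c (l 6473193518164005192554077199) (l 6473193569180781771407023119)) (c (l 6492536433599622793206881295) (l 6482865078347712714813971471))) (c (c (l 6502207943054784112765557775) (l 6492536588379334786676071439)) (b (c (l 6937421353408201076344445967) (l 6937421405866129535955950607)) (l 5506053186731475023464127503)))) (b (l 3) (c (c (l 6889064035852004271465421839) (l 6908406950711161119814884367)) (c (c (l 392620398919) (l 391546657303)) (c (l 391009786439) (l 391546657319)))))) (l 3)) (a (c (c (l 289541184839) (l 292225539319)) (c (l 304573569063) (l 5360982064454598301907491855))) (c (c (c (l 6763335725247809735946198543) (l 6763335775111664810192296975)) (c (l 6773007232108897670139452431) (l 6782678689106130530086624271))) (c (c (b (l 407652785319) (l 349133855479)) (b (l 407115914535) (l 349133855591))) (c (b (l 7198549335056646996509449231) (l 6125023184756886949536390159)) (b (l 7208220793206801361063468047) (l 6144366049175727971336346639))))))))) (c (c (l 604541740797909124705999)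 (l 604643053792443758074895)) (a (l 16770248) (c (l 604786880750143462038543) (l 604889202533677319609359))))) (l 16768480)), by decide +kernel⟩

def k20_pp_113 : ∃ t, chk3 f_pp_113 t 1005 1019 1 = true :=
  ⟨(b (b (l 3) (b (a (b (a (c (c (l 6753664343190474675444456975) (c (l 6763335823822598379831958543) (l 6773007280243370487475690511))) (c (c (l 6782678736664142595119422479) (l 6782678786816228045517233167)) (c (l 6782678837256543872066821135) (l 6792350294253776732013976591)))) (l 3)) (a (c (c (l 16772688) (l 16772640)) (c (l 16772592) (l 16772544))) (c (c (l 6753664343478705051596594703) (l 6763335847457489224272714767)) (c (c (l 385104207767) (l 385641078631)) (c (l 6792350239778235639340817423) (l 6792350289353860337435188239)))))) (l 3)) (a (c (c (l 16772392) (l 16772344)) (c (l 16772288) (l 16772560))) (a (c (c (l 6337793840778685532574752271) (l 6337793936471170414943034895)) (c (b (l 6773007349995121516190686223) (l 16772992)) (c (l 6347465512507548625547074575) (l 6357136968063629604735671311))))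 (b (l 3) (c (c (l 384030466775) (l 384030466823)) (c (l 6773007348265739259280808975) (l 6782678851091601927350082575)))))))) (c (c (l 16772976) (l 604554567066965183946255)) (c (l 604650259551847552097295) (l 604746816727858375384079)))), by decide +kernel⟩

def k21_pp_113 : ∃ t, chk3 f_pp_113 t 503 1019 1 = true :=
  ⟨(b (l 3) (a (b (b (a (c (c (b (l 399599724775) (l 341080794663)) (b (l 6995449627017236989500694031) (l 5950937675347410583645003279))) (b (a (c (l 385104208935) (l 6773007441940611508587420687)) (l 3)) (c (l 5989623394385259838086667791) (l 5999294894617049120790666255)))) (l 3)) (a (c (l 299204862567) (c (l 16773080) (l 16773008))) (c (c (l 6569907631291187591568186895) (b (l 400673467271) (l 344302020887))) (a (c (l 6328122624165586383156616719) (l 6337794122091532656646757391)) (c (l 401747209159) (l 7034135437424115484035652623)))))) (c (l 604600539792926090276431) (c (l 16775080) (l 16773696)))) (b (l 3) (b (a (c (c (l 6550564826824264809325043215) (l 6569907726407211721633717775))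 (c (b (l 401747209735) (l 346449505319)) (b (l 7005121218041594759995170319) (l 6066994738497855721513623055)))) (l 3)) (a (c (l 16773960) (l 604868738176970552942095)) (c (c (l 379735502967) (l 6550564921652058563238829583)) (c (l 6560236412372245432936160783) (b (l 402820952151) (l 346986376983))))))))), by decide +kernel⟩

def k22_pp_113 : ∃ t, chk3 f_pp_113 t 125 255 1 = true :=
  ⟨(b (a (l 16754600) (b (a (l 16764864) (b (b (a (l 16770880) (c (l 604618986537961868717647) (l 604032293625378285510159))) (l 16770464)) (l 16768048))) (l 16760864))) (l 16725688)), by decide +kernel⟩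

def k23_pp_113 : ∃ t, chk3 f_pp_113 t 63 126 1 = true :=
  ⟨(l 3), by decide +kernel⟩

def k24_pp_113 : ∃ t, chk3 f_pp_113 t 126 254 1 = true :=
  ⟨(a (a (a (a (l 3) (l 3)) (l 3)) (l 3)) (l 3)), by decide +kernel⟩

def k25_pp_113 : ∃ t, chk3 f_pp_113 t 252 510 1 = true :=
  ⟨(b (a (a (b (c (b (a (b (c (l 379198632807) (l 380809244711)) (l 16774720)) (c (l 7188877556394314351258312207) (l 7208220447906810731319041551))) (l 16775240)) (b (a (b (c (l 6550565013885778931787177487) (b (l 402820952871) (l 348060119527))) (l 16774864)) (b (l 3) (c (l 6531222211436468782605950479) (l 6550564726231863532379414031)))) (l 604049010987195087609359))) (l 16771568)) (b (b (l 3) (a (c (c (l 6028308892062180208019594767) (l 6037979995977202282119716367)) (b (c (l 6511879033422978507744288271) (l 6531221923494323007046442511)) (l 16775240))) (b (l 3) (c (l 6521550534519458918904028687) (c (l 6492536235873584753142111759) (l 6511879312141752246450036239)))))) (b (c (l 16776104) (l 604076104642553349922319))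 (l 16773072)))) (b (a (l 3) (l 3)) (a (b (a (b (c (l 6511879149579820096885415439) (c (l 381346118839) (l 6492536514304128115696115215))) (c (l 16776096) (l 16775888))) (b (l 3) (c (l 6482864965649635639505378831) (c (l 381882990375) (l 6473193719060577370307583503))))) (c (l 16776760) (l 604112998130700770336271))) (b (l 3) (b (a (c (l 6463522179052996178668166671) (c (l 6463522266098569776484982287) (l 6453850973392651323013422607))) (l 3)) (a (c (l 16776712) (l 16776496)) (c (l 6444179400815037626230578703) (c (l 6434508119061873466523966991) (l 6453851008268526837370953231))))))))) (a (l 16767896) (b (a (l 16772912) (b (a (l 16775384) (c (l 16776592) (l 16777024))) (l 16774312))) (l 16770784)))), by decide +kernel⟩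

def k26_pp_113 : ∃ t, chk3 f_pp_113 t 253 1020 1 = true :=
  ⟨(a (a (l 3) (l 3)) (l 3)), by decide +kernel⟩

def k27_pp_113 : ∃ t, chk3 f_pp_113 t 253 1021 1 = true :=
  ⟨(a (b (a (b (a (b (c (l 6415165212273167150423039503) (c (l 6415165345435600932513717775) (l 6434508214466127972740881935))) (c (l 16777264) (l 16777040))) (b (l 3) (c (a (l 351818221607) (l 406042184455)) (c (l 6405493969142873395046325775) (a (l 353428833927) (l 410337151255)))))) (a (l 16775928) (c (l 16777112) (l 16777696)))) (b (l 3) (b (a (c (a (l 350744480295) (l 407652797655)) (c (l 6405493957325427972826619407) (a (l 351281350839) (l 412484634039)))) (l 3)) (a (c (l 16777744) (l 16777848)) (a (c (l 6115351592867838050600410639) (c (l 350744480503) (l 6144365888343178078693088783))) (c (l 6927749834153206967641562639) (c (l 412484635975) (l 6947092710965954163964796431)))))))) (a (l 16774032) (b (a (l 16776416) (c (l 16777552) (l 604610771990314778140175))) (l 16775304)))) (b (a (b (l 3) (l 3)) (l 3)) (a (b (b (a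 (a (c (l 6086337316127472472368946703) (c (l 350207609991) (l 6125023069752966865015676431))) (b (l 3) (c (l 386177961639) (c (l 387788574103) (l 6773007295231350047376236047))))) (l 3)) (a (c (l 16778152) (l 604583966565332670176783)) (a (c (l 6057323041981180279502855695) (c (l 6066994519731000222373060111) (b (l 6782678670371156080237485583) (l 16778424)))) (b (l 3) (c (l 6763335711989212432980073999) (c (l 388325445399) (l 6792350046375653241553853967))))))) (a (l 16776824) (c (l 16778744) (c (l 16779064) (l 16778952))))) (b (a (l 3) (l 3)) (b (a (b (a (c (l 6763335686048478579326180879) (c (l 6773007347689278506988494351) (a (l 362555640935) (l 7256577532861093981773454863)))) (l 3)) (c (c (l 6221737056635244509576355343) (l 6231408506138487589578857999)) (c (a (l 16778688) (l 6782678726864309805973675535)) (a (l 16778584) (b (l 7227563291573064670202322447) (l 6550565003509485390331371023)))))) (l 3)) (a (c (l 16778968) (c (l 16778312) (l 290614938519))) (b (a (c (a (l 6221737055482323004968934927)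 (l 7198549123207320525014556175)) (a (c (l 361481899591) (c (l 362018770359) (l 6250751389292303061239291407))) (b (l 3) (c (l 400136605447) (l 6976106865208409877718900239))))) (l 3)) (a (c (l 16778984) (c (l 16778824) (l 16778720))) (c (a (l 6250751251229952884569939471) (l 6995449561877171979223670287)) (a (c (l 6270094124007474814769339919) (c (l 6289436967097268001342512655) (b (l 6753664510652323219600793103) (l 16778952)))) (b (l 3) (c (l 387788574583) (l 6782678706399953099201699343))))))))))))), by decide +kernel⟩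

def k28_pp_113 : ∃ t, chk3 f_pp_113 t 126 511 1 = true :=
  ⟨(a (l 16739592) (b (a (l 16770224) (b (a (l 16774880) (b (a (l 16777144) (b (c (l 604711076161215576432143) (c (l 16779104) (l 604810803871364068154895))) (l 16777680))) (l 16775992))) (l 16772600))) (l 16765824))), by decide +kernel⟩

def k29_pp_113 : ∃ t, chk3 f_pp_113 t 127 254 1 = true :=
  ⟨(l 3), by decide +kernel⟩

def k30_pp_113 : ∃ t, chk3 f_pp_113 t 254 510 1 = true :=
  ⟨(b (l 3) (a (a (a (a (l 3) (l 3)) (l 3)) (l 3)) (l 3))), by decide +kernel⟩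

def k31_pp_113 : ∃ t, chk3 f_pp_113 t 508 1022 1 = true :=
  ⟨(a (b (b (b (a (b (a (a (c (l 6270094041285356859228397071) (c (l 360945029079) (b (l 6773007286296208386673647119) (l 16779032)))) (c (l 6966435319147990786893897231) (c (l 401210348007) (b (l 3) (l 6734321646809942950104440335))))) (l 3)) (a (c (l 16779088) (c (l 16778936) (l 16778832))) (c (c (l 371145577383) (l 6482864984096379713218715151)) (b (a (c (l 387788574743) (l 6763335853222096747318615567)) (l 3)) (c (l 352891965559) (l 6125023005477592983184809487)))))) (l 3)) (a (c (l 16779200) (c (l 16778552) (l 279877520759))) (a (c (c (l 5950937549967196957661683215) (l 5979951803937362819908132367)) (b (c (l 6492536402758972544988143119) (a (l 6279765491076830315382578703) (l 6995449581188607181388226063))) (l 604735287512812318973455))) (b (l 3) (c (a (l 355576320567) (l 394767897655)) (c (l 6473193566298478009904258575) (a (l 6260422653175183899540135439) (l 6966435336730043732148149775)))))))) (b (a (l 16777784) (c (l 16779112)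 (a (l 16778352) (l 604694935260151079640591)))) (l 16777416))) (l 16775376)) (a (b (b (l 3) (b (b (a (c (l 6434507775491265093686517263) (c (l 6444179324145757569877843471) (a (l 358260674759) (l 396378510071)))) (l 3)) (a (c (l 16779224) (l 16779200)) (c (l 6405493536364993633664396879) (c (l 6415165082569497882154851855) (c (l 6444179325010448698332896783) (l 6463522153400492701168819727)))))) (c (l 16779488) (l 604644783174700681453071)))) (l 16776688)) (b (b (l 3) (b (l 3) (b (a (c (l 6386150751497737941565353551) (c (l 6386150841569698946735267343) (c (l 6415165083145958634458177039) (l 6434507910959541884990676495)))) (l 3)) (a (c (l 16779256) (l 16779072)) (c (l 6347465107111557553525943887) (c (l 366850610151) (l 6395822255620605760077258255))))))) (b (b (c (l 16778856) (l 604602269209611468172879)) (l 16777944)) (l 16776712))))), by decide +kernel⟩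

def k32_pp_113 : ∃ t, chk3 f_pp_113 t 509 1022 1 = true :=
  ⟨(b (a (a (a (l 3) (l 3)) (l 3)) (l 3)) (b (b (a (a (a (c (c (l 328732775735) (l 5767180740501957576838573647)) (c (l 5757509312615988585045552719) (b (l 6357136608352120167411719695) (l 16779040)))) (c (l 7517705256399263071968521807) (c (l 7556390934220164619705101903) (b (l 3) (l 6318450914678544014320557583))))) (a (l 3) (l 3))) (l 3)) (a (a (c (l 16778848) (l 604562781650964901703247)) (a (c (l 6772402441625290811447885903) (c (l 5709152237461540528937250383) (b (l 6279765269139440678565256719) (l 16779032)))) (c (l 7517100746507906093919420495) (c (l 7546719495381447862497357391) (l 7566062330400787012129271375))))) (a (a (l 3) (l 3)) (l 3)))) (a (a (l 16777536) (c (l 144139824008036431) (b (l 604526464625906244152911) (l 16777824)))) (a (c (b (a (l 6762731035068374465244905551) (l 7517100746507907811906191439)) (l 16778760)) (b (c (b (l 7546114966178654788930437199) (l 6714374002283785381246287951)) (b (l 7566062311377583148188888655)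 (l 6714978505545841989818789455))) (l 144137418829414479))) (a (c (b (l 433959475079) (l 6753059628511458393919750223)) (b (l 438254439495) (c (l 6782073848182206745333497935) (l 6801416661296037582313242703)))) (b (l 3) (c (l 7507429339950991053386154063) (l 7555786372735569829462802511)))))))), by decide +kernel⟩

def k33_pp_113 : ∃ t, chk3 f_pp_113 t 254 1023 1 = true :=
  ⟨(b (a (l 16773000) (a (l 16775480) (b (a (l 16777448) (c (l 144096324578934863) (b (l 144138380901908559) (l 16777688)))) (l 16776176)))) (l 603076665584755017475663)), by decide +kernel⟩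

def k34_pp_113 : ∃ t, chk3 f_pp_113 t 255 510 1 = true :=
  ⟨(l 3), by decide +kernel⟩

def k35_pp_113 : ∃ t, chk3 f_pp_113 t 255 1022 1 = true :=
  ⟨(a (b (l 3) (a (b (l 3) (b (l 3) (b (l 3) (c (l 8329498897288938479870165071) (l 8368184523516602627730833487))))) (l 3))) (l 3)), by decide +kernel⟩

def k36_pp_113 : ∃ t, chk3 f_pp_113 t 510 1023 1 = true :=
  ⟨(b (a (b (b (a (a (c (l 6724045408840707499885002831) (c (l 6753059628511455920018227279) (l 6772402441625286275961651279))) (c (l 7623486218633995591596638287) (l 7642829031747823817236168783))) (a (c (l 439328181047) (l 442012535399)) (l 3))) (a (c (l 16777232) (l 144138518337945679)) (a (c (l 6704702595726873089492009039) (c (l 6733716815397621303466836047) (l 6753059628511452621482852431))) (c (l 7594471998963243804208758863) (c (l 7623486218633991674586136655) (l 7633157625190906165363032143)))))) (a (l 16777240) (b (c (l 16777728) (l 144115359875334223)) (l 16777496)))) (b (a (c (l 458655532231) (b (l 3) (l 8377855930073521035517575247)))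 (l 3)) (b (b (a (a (c (l 7207615736686561162632544335) (l 7226958549800390281625321551)) (l 8329498897288935318773432399)) (l 3)) (a (a (c (l 16778648) (l 16778544)) (c (l 7197944330129644266673635407) (a (l 6743388221954539505095901263) (l 422148311671)))) (a (l 8319827490732016910986018895) (l 3)))) (b (a (c (l 16777736) (l 144115978350690383)) (a (c (l 7188272923572724209618780239) (a (l 6743388221954538336864583759) (l 7594471998963238925125435471))) (l 8310156084175095548261269583))) (a (l 16777928) (a (c (l 16778432) (l 16778336)) (c (l 7188272923572722422912122959) (a (l 6743388221954536962474737743) (l 7594471998963237413296717903))))))))) (a (l 16775112) (b (a (l 16776896) (a (l 16776040) (b (c (l 16777448) (l 144112679815249999)) (l 16777232)))) (l 16775552)))), by decide +kernel⟩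

def k37_pp_113 : ∃ t, chk3 f_pp_113 t 511 1023 1 = true :=
  ⟨(b (a (b (l 3) (b (l 3) (b (l 3) (a (a (l 8310156084175090119422165071) (l 3)) (l 3))))) (l 3)) (a (a (b (b (b (a (c (l 7178601517015801541223514191) (a (l 6743388221954535244487557199) (l 7584800592406317150083399759))) (c (l 8213442018605915868435447887) (l 8348841710402757428378878031))) (a (c (l 16778176) (l 16777768)) (c (a (l 6695031189169946985122807887) (l 7555786372735561858002206799)) (a (c (l 6733716815397618485967749199) (l 6753059628511450972214935631)) (l 7584800592406313233072930895))))) (a (l 16777512) (c (l 144123468772704335) (c (l 16777112) (l 144119276884426831))))) (l 16776408)) (a (b (b (b (l 3) (c (l 8213442018605911264230178895) (l 8348841710402752411856765007))) (b (c (a (l 6695031189169945129696624719) (l 7459072307166386988539920463)) (a (c (l 6724045408840699047388119119) (l 6753059628511448773191467087)) (c (l 7575129185849393382176637007) (l 7594471998963228754641928271)))) (c (l 16777544) (l 144119895360553039))))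 (l 16775496)) (b (b (l 3) (b (c (l 537575555223) (l 8348841710402747670212558927)) (a (b (c (l 7072216044889705790072815695) (l 7197944330129629698143338575)) (a (l 16777896) (l 6))) (l 6)))) (a (l 144111511580721231) (l 6))))) (b (b (l 3) (l 6)) (l 6)))), by decide +kernel⟩

theorem s38_pp_113 : ∃ t, chk3 f_pp_113 t 255 1023 1 = true := ex3_a k36_pp_113 k37_pp_113

theorem s39_pp_113 : ∃ t, chk3 f_pp_113 t 255 511 1 = true := ex3_b k35_pp_113 s38_pp_113

theorem s40_pp_113 : ∃ t, chk3 f_pp_113 t 255 255 1 = true := ex3_b k34_pp_113 s39_pp_113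

theorem s41_pp_113 : ∃ t, chk3 f_pp_113 t 254 1022 1 = true := ex3_a k31_pp_113 k32_pp_113

theorem s42_pp_113 : ∃ t, chk3 f_pp_113 t 254 511 1 = true := ex3_b s41_pp_113 k33_pp_113

theorem s43_pp_113 : ∃ t, chk3 f_pp_113 t 254 255 1 = true := ex3_b k30_pp_113 s42_pp_113

theorem s44_pp_113 : ∃ t, chk3 f_pp_113 t 127 255 1 = true := ex3_a s43_pp_113 s40_pp_113

theorem s45_pp_113 : ∃ t, chk3 f_pp_113 t 127 127 1 = true := ex3_b k29_pp_113 s44_pp_113

theorem s46_pp_113 : ∃ t, chk3 f_pp_113 t 253 510 1 = true := ex3_b k26_pp_113 k27_pp_113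

theorem s47_pp_113 : ∃ t, chk3 f_pp_113 t 126 510 1 = true := ex3_a k25_pp_113 s46_pp_113

theorem s48_pp_113 : ∃ t, chk3 f_pp_113 t 126 255 1 = true := ex3_b s47_pp_113 k28_pp_113

theorem s49_pp_113 : ∃ t, chk3 f_pp_113 t 126 127 1 = true := ex3_b k24_pp_113 s48_pp_113

theorem s50_pp_113 : ∃ t, chk3 f_pp_113 t 63 127 1 = true := ex3_a s49_pp_113 s45_pp_113

theorem s51_pp_113 : ∃ t, chk3 f_pp_113 t 63 63 1 = true := ex3_b k23_pp_113 s50_pp_113

theorem s52_pp_113 : ∃ t, chk3 f_pp_113 t 502 1019 1 = true := ex3_a k19_pp_113 k20_pp_113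

theorem s53_pp_113 : ∃ t, chk3 f_pp_113 t 251 1019 1 = true := ex3_a s52_pp_113 k21_pp_113

theorem s54_pp_113 : ∃ t, chk3 f_pp_113 t 251 509 1 = true := ex3_b k18_pp_113 s53_pp_113

theorem s55_pp_113 : ∃ t, chk3 f_pp_113 t 501 2037 1 = true := ex3_a k15_pp_113 k16_pp_113

theorem s56_pp_113 : ∃ t, chk3 f_pp_113 t 501 1018 1 = true := ex3_b k14_pp_113 s55_pp_113

theorem s57_pp_113 : ∃ t, chk3 f_pp_113 t 250 1018 1 = true := ex3_a k13_pp_113 s56_pp_113

theorem s58_pp_113 : ∃ t, chk3 f_pp_113 t 250 509 1 = true := ex3_b s57_pp_113 k17_pp_113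

theorem s59_pp_113 : ∃ t, chk3 f_pp_113 t 125 509 1 = true := ex3_a s58_pp_113 s54_pp_113

theorem s60_pp_113 : ∃ t, chk3 f_pp_113 t 125 254 1 = true := ex3_b k12_pp_113 s59_pp_113

theorem s61_pp_113 : ∃ t, chk3 f_pp_113 t 125 127 1 = true := ex3_b s60_pp_113 k22_pp_113

theorem s62_pp_113 : ∃ t, chk3 f_pp_113 t 124 127 1 = true := ex3_a k10_pp_113 k11_pp_113

theorem s63_pp_113 : ∃ t, chk3 f_pp_113 t 62 127 1 = true := ex3_a s62_pp_113 s61_pp_113

theorem s64_pp_113 : ∃ t, chk3 f_pp_113 t 62 63 1 = true := ex3_b k9_pp_113 s63_pp_113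

theorem s65_pp_113 : ∃ t, chk3 f_pp_113 t 31 63 1 = true := ex3_a s64_pp_113 s51_pp_113

theorem s66_pp_113 : ∃ t, chk3 f_pp_113 t 31 31 1 = true := ex3_b k8_pp_113 s65_pp_113

theorem s67_pp_113 : ∃ t, chk3 f_pp_113 t 15 31 1 = true := ex3_a k7_pp_113 s66_pp_113

theorem s68_pp_113 : ∃ t, chk3 f_pp_113 t 15 15 1 = true := ex3_b k6_pp_113 s67_pp_113

theorem s69_pp_113 : ∃ t, chk3 f_pp_113 t 7 15 1 = true := ex3_a k5_pp_113 s68_pp_113

theorem s70_pp_113 : ∃ t, chk3 f_pp_113 t 7 7 1 = true := ex3_b k4_pp_113 s69_pp_113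

theorem s71_pp_113 : ∃ t, chk3 f_pp_113 t 3 7 1 = true := ex3_a k3_pp_113 s70_pp_113

theorem s72_pp_113 : ∃ t, chk3 f_pp_113 t 3 3 1 = true := ex3_b k2_pp_113 s71_pp_113

theorem s73_pp_113 : ∃ t, chk3 f_pp_113 t 3 1 1 = true := ex3_b k1_pp_113 s72_pp_113

theorem s74_pp_113 : ∃ t, chk3 f_pp_113 t 1 1 1 = true := ex3_a k0_pp_113 s73_pp_113

theorem c_pp_113 : CertB 536870912 536870912 1610612736 536870912 1033476505 6710887 3 eng mog cd0q1 cd2q3 pd1 false true true .nn 1 1 3
    ndB0q1 ndB2q3 pcB1 cut_pp_113 xt_pp_113 :=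
  certB1 (fam := false) (s1 := true) (s2 := true) (a := 1) (b := 1) (c := 3) (cn := .nn) (n1 := ndB0q1) (n2 := ndB2q3) (pc := pcB1) (cut := cut_pp_113) (xt := xt_pp_113) (P1 := 536870912) (W1 := 536870912) (P2 := 1610612736) (W2 := 536870912) (P3 := 1033476505) (W3 := 6710887) (N0 := 3) (En := eng) (mo := mog) (C1 := cd0q1) (C2 := cd2q3) (C3 := pd1)
    rfl (fun _ => rfl) s74_pp_113

noncomputable def cut_pp_123 : Cut := Cut.of [[⟨0, 1, 0, 20971520⟩, ⟨1, 1, 0, 20971520⟩, ⟨2, 2, 0, 1572864⟩]]

noncomputable def xt_pp_123 : Ext := extD3 3 ⟨4, 1, 1, 5, 27, 5, 41, 50, 81, 200, 1, 64⟩ eng cd0q1 cd2q3 pd2 false true true .npn 1 2 3 rfl ndB0q1 ndB2q3 pcB2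

noncomputable def f_pp_123 : ℕ → ℕ → ℕ → ℕ → Bool := onCell 536870912 536870912 1073741824 536870912 1033476505 6710887
    (rowB 3 eng mog cd0q1 cd2q3 pd2 1 false true true .npn 1 2 3 (qsf 536870912 536870912 1610612736 536870912 2) ndB0q1 ndB2q3 pcB2 cut_pp_123 xt_pp_123)

def k0_pp_123 : ∃ t, chk3 f_pp_123 t 2 1 1 = true :=
  ⟨(b (a (b (a (b (b (a (l 15674352) (l 15657808)) (l 15664232)) (l 15652352)) (b (a (l 15647744) (l 15637696)) (l 15646192))) (a (l 15582608) (l 15592632))) (b (a (b (a (l 15627976) (b (l 15603808) (l 15628648))) (l 15669216)) (b (a (b (l 15593472) (l 15626512)) (b (l 15591688) (l 15632128))) (l 15645696))) (a (b (l 15639440) (l 15589912)) (b (l 15679080) (a (l 15629144) (l 15657984)))))) (a (b (b (l 15451560) (a (l 15320096) (l 15329664))) (b (a (l 15167496) (l 15143840)) (a (b (l 15042312) (l 14970472)) (b (l 14971840) (l 2))))) (b (a (b (l 15286864) (l 15330408)) (b (a (l 15529944) (l 15508608)) (a (l 15293264) (l 2)))) (a (b (a (l 15096528) (l 2)) (l 2)) (l 2))))),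 by decide +kernel⟩

def k1_pp_123 : ∃ t, chk3 f_pp_123 t 3 1 1 = true :=
  ⟨(b (a (b (a (b (a (b (l 15594528) (l 15642480)) (b (l 15598056) (l 15655584))) (a (l 15694696) (l 15720240))) (a (b (b (l 15599976) (l 15672944)) (l 15758624)) (b (b (a (l 15601320) (l 15599136)) (l 15768464)) (b (l 15797768) (l 15874856))))) (a (b (a (l 15720712) (l 15758296)) (a (l 15676128) (l 15660272))) (b (a (l 15797664) (b (l 15856192) (l 15793672))) (a (l 15630528) (l 2))))) (b (b (a (b (a (a (l 15600312) (b (l 15559416) (l 15686704))) (b (a (b (l 15574464) (l 15651016)) (b (l 15710080) (l 15801928))) (a (l 15780112) (l 15956832)))) (a (a (l 15773336) (l 15872264)) (a (l 16038128) (b (l 16179408) (l 16380480))))) (b (a (a (b (a (l 15949688) (b (l 16080616) (l 16186520))) (a (l 16165256) (l 16347760))) (b (a (b (l 16323048) (l 16414560)) (b (l 16653144) (l 16640312))) (a (l 16557920) (l 16591464)))) (b (a (b (a (l 591029211449284640120847) (l 143380885973008463)) (a (l 16662864) (l 16690896))) (b (a (b (a (l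 16735760) (l 16738312)) (l 16714448)) (b (a (b (l 143796295312638031) (l 16759328)) (b (b (a (l 16770176) (a (b (l 16773880) (l 16773424)) (l 6))) (l 16768848)) (l 16769368))) (l 195521598503))) (a (l 16717728) (l 16741032)))) (a (b (l 16644216) (l 16603016)) (b (l 16654440) (l 2))))) (a (a (a (l 16323336) (l 16514448)) (b (a (l 16534584) (l 16534984)) (l 16500624))) (b (a (l 141553566017437711) (l 2)) (l 2))))) (a (a (b (a (l 15932032) (l 16106832)) (l 15910856)) (b (a (l 16238824) (l 16360672)) (a (l 16187160) (l 2)))) (a (a (b (l 16430296) (l 2)) (l 2)) (l 2)))) (a (b (a (b (l 15971336) (l 2)) (l 2)) (l 2)) (l 2)))) (a (b (a (b (a (l 15470784) (l 2)) (l 2)) (l 2)) (l 2)) (l 2))), by decide +kernel⟩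

theorem s2_pp_123 : ∃ t, chk3 f_pp_123 t 1 1 1 = true := ex3_a k0_pp_123 k1_pp_123

theorem c_pp_123 : CertB 536870912 536870912 1610612736 536870912 1033476505 6710887 3 eng mog cd0q1 cd2q3 pd2 false true true .npn 1 2 3
    ndB0q1 ndB2q3 pcB2 cut_pp_123 xt_pp_123 :=
  certB1 (fam := false) (s1 := true) (s2 := true) (a := 1) (b := 2) (c := 3) (cn := .npn) (n1 := ndB0q1) (n2 := ndB2q3) (pc := pcB2) (cut := cut_pp_123) (xt := xt_pp_123) (P1 := 536870912) (W1 := 536870912) (P2 := 1610612736) (W2 := 536870912) (P3 := 1033476505) (W3 := 6710887) (N0 := 3) (En := eng) (mo := mog) (C1 := cd0q1) (C2 := cd2q3) (C3 := pd2)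
    rfl (fun _ => rfl) s2_pp_123

noncomputable def f_pp_133 : ℕ → ℕ → ℕ → ℕ → Bool := onCell 536870912 536870912 1610612736 536870912 1033476505 6710887
    (rowB 3 eng mog cd0q1 cd2q3 pd3 0 false true true .dn 1 3 3 (qsf 536870912 536870912 1610612736 536870912 3) ndB0q1 ndB2q3 pcB3 Cut.none Ext.none)

def k0_pp_133 : ∃ t, chk3 f_pp_133 t 1 1 1 = true :=
  ⟨(a (b (l 1) (a (b (l 1) (b (l 1) (a (l 14918800) (l 1)))) (l 1))) (l 1)), by decide +kernel⟩

theorem c_pp_133 : CertB 536870912 536870912 1610612736 536870912 1033476505 6710887 3 eng mog cd0q1 cd2q3 pd3 false true true .dn 1 3 3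
    ndB0q1 ndB2q3 pcB3 Cut.none Ext.none :=
  certB0 (fam := false) (s1 := true) (s2 := true) (a := 1) (b := 3) (c := 3) (cn := .dn) (n1 := ndB0q1) (n2 := ndB2q3) (pc := pcB3) (cut := Cut.none) (xt := Ext.none) (P1 := 536870912) (W1 := 536870912) (P2 := 1610612736) (W2 := 536870912) (P3 := 1033476505) (W3 := 6710887) (N0 := 3) (En := eng) (mo := mog) (C1 := cd0q1) (C2 := cd2q3) (C3 := pd3)
    rfl k0_pp_133

noncomputable def f_pp_202_a : ℕ → ℕ → ℕ → ℕ → Bool := onCell 0 536870912 0 536870912 1033476505 6710887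
    (rowB 3 eng mog cd0q2 cd2q2a pd0 0 false true true .pp 2 0 2 (qsf 0 536870912 0 536870912 0) ndB0q2 ndB2q2a pcB0 Cut.none Ext.none)

def k0_pp_202_a : ∃ t, chk3 f_pp_202_a t 1 1 1 = true :=
  ⟨(l 3), by decide +kernel⟩

theorem c_pp_202_a : CertB 0 536870912 0 536870912 1033476505 6710887 3 eng mog cd0q2 cd2q2a pd0 false true true .pp 2 0 2
    ndB0q2 ndB2q2a pcB0 Cut.none Ext.none :=
  certB0 (fam := false) (s1 := true) (s2 := true) (a := 2) (b := 0) (c := 2) (cn := .pp) (n1 := ndB0q2) (n2 := ndB2q2a) (pc := pcB0) (cut := Cut.none) (xt := Ext.none) (P1 := 0) (W1 := 536870912) (P2 := 0) (W2 := 536870912) (P3 := 1033476505) (W3 := 6710887) (N0 := 3) (En := eng) (mo := mog) (C1 := cd0q2) (C2 := cd2q2a) (C3 := pd0)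
    rfl k0_pp_202_a

noncomputable def f_pp_202_b : ℕ → ℕ → ℕ → ℕ → Bool := onCell 0 536870912 1239849684 370763052 1033476505 6710887
    (rowB 3 eng mog cd0q2 cd2q2b pd0 0 false true true .pp 2 0 2 (qsf 0 536870912 1239849684 370763052 0) ndB0q2 ndB2q2b pcB0 Cut.none Ext.none)

def k0_pp_202_b : ∃ t, chk3 f_pp_202_b t 1 1 1 = true :=
  ⟨(l 3), by decide +kernel⟩

theorem c_pp_202_b : CertB 0 536870912 1239849684 370763052 1033476505 6710887 3 eng mog cd0q2 cd2q2b pd0 false true true .pp 2 0 2
    ndB0q2 ndB2q2b pcB0 Cut.none Ext.none :=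
  certB0 (fam := false) (s1 := true) (s2 := true) (a := 2) (b := 0) (c := 2) (cn := .pp) (n1 := ndB0q2) (n2 := ndB2q2b) (pc := pcB0) (cut := Cut.none) (xt := Ext.none) (P1 := 0) (W1 := 536870912) (P2 := 1239849684) (W2 := 370763052) (P3 := 1033476505) (W3 := 6710887) (N0 := 3) (En := eng) (mo := mog) (C1 := cd0q2) (C2 := cd2q2b) (C3 := pd0)
    rfl k0_pp_202_b

noncomputable def f_pp_203 : ℕ → ℕ → ℕ → ℕ → Bool := onCell 0 536870912 0 536870912 1033476505 6710887
    (rowB 3 eng mog cd0q2 cd2q3 pd0 1 false true true .up 2 0 3 (qsf 0 536870912 1610612736 536870912 0) ndB0q2 ndB2q3 pcB0 Cut.none Ext.none)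

def k0_pp_203 : ∃ t, chk3 f_pp_203 t 1 1 1 = true :=
  ⟨(l 3), by decide +kernel⟩

theorem c_pp_203 : CertB 0 536870912 1610612736 536870912 1033476505 6710887 3 eng mog cd0q2 cd2q3 pd0 false true true .up 2 0 3
    ndB0q2 ndB2q3 pcB0 Cut.none Ext.none :=
  certB1 (fam := false) (s1 := true) (s2 := true) (a := 2) (b := 0) (c := 3) (cn := .up) (n1 := ndB0q2) (n2 := ndB2q3) (pc := pcB0) (cut := Cut.none) (xt := Ext.none) (P1 := 0) (W1 := 536870912) (P2 := 1610612736) (W2 := 536870912) (P3 := 1033476505) (W3 := 6710887) (N0 := 3) (En := eng) (mo := mog) (C1 := cd0q2) (C2 := cd2q3) (C3 := pd0)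
    rfl (fun _ => rfl) k0_pp_203

noncomputable def cut_pp_213 : Cut := Cut.of [[⟨0, 1, 0, 20971520⟩, ⟨1, 1, 0, 20971520⟩, ⟨2, 2, 0, 1572864⟩]]

noncomputable def f_pp_213 : ℕ → ℕ → ℕ → ℕ → Bool := onCell 0 536870912 1610612736 536870912 1033476505 6710887
    (rowB 3 eng mog cd0q2 cd2q3 pd1 0 false true true .pnn 2 1 3 (qsf 0 536870912 1610612736 536870912 1) ndB0q2 ndB2q3 pcB1 cut_pp_213 Ext.none)

def k0_pp_213 : ∃ t, chk3 f_pp_213 t 1 1 1 = true :=
  ⟨(a (l 3) (b (l 3) (a (l 3) (b (l 3) (b (l 3) (a (l 3) (b (l 3) (a (l 3) (b (l 3) (a (l 3) (b (l 3) (b (l 3) (b (l 3) (b (l 3) (l 6))))))))))))))), by decide +kernel⟩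

theorem c_pp_213 : CertB 0 536870912 1610612736 536870912 1033476505 6710887 3 eng mog cd0q2 cd2q3 pd1 false true true .pnn 2 1 3
    ndB0q2 ndB2q3 pcB1 cut_pp_213 Ext.none :=
  certB0 (fam := false) (s1 := true) (s2 := true) (a := 2) (b := 1) (c := 3) (cn := .pnn) (n1 := ndB0q2) (n2 := ndB2q3) (pc := pcB1) (cut := cut_pp_213) (xt := Ext.none) (P1 := 0) (W1 := 536870912) (P2 := 1610612736) (W2 := 536870912) (P3 := 1033476505) (W3 := 6710887) (N0 := 3) (En := eng) (mo := mog) (C1 := cd0q2) (C2 := cd2q3) (C3 := pd1)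
    rfl k0_pp_213

noncomputable def f_pm_001 : ℕ → ℕ → ℕ → ℕ → Bool := onCell 0 536870912 536870912 536870912 1033476505 6710887
    (rowB 3 eng mog cd0q0 cd2q1 pd0 0 false true false .up 0 0 1 (qsf 0 536870912 536870912 536870912 0) ndB0q0 ndB2q1 pcB0 Cut.none Ext.none)

def k0_pm_001 : ∃ t, chk3 f_pm_001 t 1 1 1 = true :=
  ⟨(l 4), by decide +kernel⟩

theorem c_pm_001 : CertB 0 536870912 536870912 536870912 1033476505 6710887 3 eng mog cd0q0 cd2q1 pd0 false true false .up 0 0 1
    ndB0q0 ndB2q1 pcB0 Cut.none Ext.none :=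
  certB0 (fam := false) (s1 := true) (s2 := false) (a := 0) (b := 0) (c := 1) (cn := .up) (n1 := ndB0q0) (n2 := ndB2q1) (pc := pcB0) (cut := Cut.none) (xt := Ext.none) (P1 := 0) (W1 := 536870912) (P2 := 536870912) (W2 := 536870912) (P3 := 1033476505) (W3 := 6710887) (N0 := 3) (En := eng) (mo := mog) (C1 := cd0q0) (C2 := cd2q1) (C3 := pd0)
    rfl k0_pm_001

noncomputable def f_pm_011 : ℕ → ℕ → ℕ → ℕ → Bool := onCell 0 536870912 536870912 536870912 1033476505 6710887
    (rowB 3 eng mog cd0q0 cd2q1 pd1 0 false true false .pnn 0 1 1 (qsf 0 536870912 536870912 536870912 1) ndB0q0 ndB2q1 pcB1 Cut.none Ext.none)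

def k0_pm_011 : ∃ t, chk3 f_pm_011 t 1 1 1 = true :=
  ⟨(l 4), by decide +kernel⟩

theorem c_pm_011 : CertB 0 536870912 536870912 536870912 1033476505 6710887 3 eng mog cd0q0 cd2q1 pd1 false true false .pnn 0 1 1
    ndB0q0 ndB2q1 pcB1 Cut.none Ext.none :=
  certB0 (fam := false) (s1 := true) (s2 := false) (a := 0) (b := 1) (c := 1) (cn := .pnn) (n1 := ndB0q0) (n2 := ndB2q1) (pc := pcB1) (cut := Cut.none) (xt := Ext.none) (P1 := 0) (W1 := 536870912) (P2 := 536870912) (W2 := 536870912) (P3 := 1033476505) (W3 := 6710887) (N0 := 3) (En := eng) (mo := mog) (C1 := cd0q0) (C2 := cd2q1) (C3 := pd1)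
    rfl k0_pm_011

noncomputable def cut_pm_012_a : Cut := Cut.of [[⟨0, 0, 0, 33554432⟩, ⟨1, 1, 0, 33554432⟩, ⟨2, 1, 0, 33554432⟩]]

noncomputable def xt_pm_012_a : Ext := extD3 3 ⟨4, 1, 1, 5, 27, 5, 41, 50, 81, 200, 1, 64⟩ eng cd0q0 cd2q2a pd1 false true false .pnp 0 1 2 rfl ndB0q0 ndB2q2a pcB1

noncomputable def f_pm_012_a : ℕ → ℕ → ℕ → ℕ → Bool := onCell 0 536870912 0 536870912 1033476505 6710887
    (rowB 3 eng mog cd0q0 cd2q2a pd1 0 false true false .pnp 0 1 2 (qsf 0 536870912 0 536870912 1) ndB0q0 ndB2q2a pcB1 cut_pm_012_a xt_pm_012_a)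

def k0_pm_012_a : ∃ t, chk3 f_pm_012_a t 4 2 1 = true :=
  ⟨(a (l 2) (a (l 2) (b (l 2) (a (l 2) (b (l 2) (l 15752960)))))), by decide +kernel⟩

def k1_pm_012_a : ∃ t, chk3 f_pm_012_a t 8 3 1 = true :=
  ⟨(b (l 2) (b (a (l 2) (b (a (l 2) (a (l 2) (l 16192096))) (b (a (l 2) (a (l 16285760) (l 16286424))) (a (a (l 16363920) (l 16358448)) (l 16353536))))) (a (b (a (l 2) (b (a (l 2) (a (l 2) (l 16444560))) (a (l 6) (b (a (l 6) (l 16503616)) (l 16546480))))) (a (l 6) (a (l 6) (a (l 6) (b (b (l 16585288) (l 16627232)) (b (l 16669888) (b (l 16702296) (l 143525815331995711)))))))) (b (a (b (a (b (l 16419704) (l 16457992)) (l 16431808)) (a (l 141897919266357375) (l 16508168))) (b (l 141426091149426751) (l 141411041735032895))) (b (a (a (b (l 16577360) (l 16618600)) (l 142049308331819071)) (a (l 142101878798549055) (l 16530056))) (b (a (a (l 142988841210527807) (l 16627464)) (a (l 16637784) (l 16630168))) (a (b (a (l 16671432) (l 16679560)) (b (l 143107382392127551) (a (l 143452010603987007) (l 16690064))))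 (a (b (l 16668168) (b (l 16683504) (l 16672808))) (b (l 16659808) (b (l 16674760) (l 16663816))))))))))), by decide +kernel⟩

def k2_pm_012_a : ∃ t, chk3 f_pm_012_a t 9 3 1 = true :=
  ⟨(b (b (a (l 2) (a (a (l 15916752) (l 15893896)) (l 15851328))) (a (a (b (l 2) (l 16093376)) (b (a (l 16026752) (l 16038552)) (b (l 16099856) (l 16149960)))) (a (b (l 16017080) (l 139133952351273023)) (l 15871000)))) (a (b (a (b (b (l 16175304) (l 16234168)) (l 140496385152598079)) (b (l 140245971179913279) (a (l 16348768) (l 16352296)))) (a (b (b (l 16428288) (b (l 16480552) (l 16516312))) (b (a (l 16549200) (l 16552912)) (b (a (l 16626888) (l 16629136)) (a (b (l 16655784) (a (l 16675904) (l 16674928))) (b (l 16657280) (l 16655264)))))) (b (a (b (l 16444632) (l 16512184)) (b (l 16445648) (l 16511416))) (b (a (b (l 16564280) (l 16599832)) (l 16537552)) (b (a (a (l 16634960) (l 16637296)) (l 16610840)) (a (a (l 16650872) (l 16652704)) (a (l 16649824) (l 16641688)))))))) (b (a (b (a (l 16219800) (l 16188376))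 (a (l 16332776) (l 16298240))) (b (l 16132880) (l 16238064))) (a (b (a (b (l 16423616) (l 16487592)) (l 16417992)) (a (b (l 16511840) (a (b (l 16613448) (l 16627328)) (l 16569832))) (b (l 16513024) (b (l 16562400) (l 16575016))))) (b (a (l 16375392) (l 16329152)) (b (a (l 16467616) (l 16418568)) (a (l 16489952) (l 16480848)))))))), by decide +kernel⟩

def k3_pm_012_a : ∃ t, chk3 f_pm_012_a t 5 1 1 = true :=
  ⟨(b (a (b (a (a (l 2) (l 15635728)) (b (l 15605576) (l 15549224))) (a (b (a (l 15651472) (l 15600680)) (a (l 15695944) (l 15639376))) (b (l 15535936) (l 15565800)))) (b (a (l 15488872) (l 15586360)) (a (b (l 15495696) (l 15492624)) (b (l 15538920) (l 15544720))))) (a (b (a (b (a (l 15786992) (l 15722984)) (a (l 15923256) (l 15849904))) (b (l 15638096) (a (l 15781688) (l 15723352)))) (a (b (a (b (l 16051048) (l 16149912)) (b (l 15969344) (l 16061840))) (a (b (l 16257520) (b (l 16342720) (l 16360056))) (b (l 16162432) (l 16269920)))) (b (a (l 15936896) (l 15866840)) (b (a (l 16072296) (l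 15991896)) (a (l 16172016) (l 16083792)))))) (b (a (b (l 15570568) (l 15664120)) (b (l 15586200) (l 15660376))) (b (a (b (l 15753944) (l 15823792)) (a (l 15759800) (l 15772016))) (a (b (l 15899424) (l 15958520)) (b (l 15850784) (l 15914936))))))), by decide +kernel⟩

def k4_pm_012_a : ∃ t, chk3 f_pm_012_a t 3 1 1 = true :=
  ⟨(a (b (a (a (b (a (l 15717896) (l 15808936)) (b (l 15676248) (l 15669808))) (b (l 15949400) (l 15785768))) (b (a (l 16101968) (l 16173320)) (a (l 15919176) (b (l 16222184) (l 16177816))))) (a (b (a (b (l 15695624) (l 15750184)) (b (l 15847000) (l 15881632))) (a (b (a (l 15809920) (l 15858616)) (a (l 15909784) (l 15943680))) (b (l 15934832) (b (l 15980464) (l 16012168))))) (b (b (a (l 15999944) (l 16155016)) (a (l 16014304) (l 16148760))) (b (a (l 16042568) (l 16151736)) (a (b (l 16066328) (l 16081536)) (l 16111696)))))) (b (a (b (a (b (l 16584808) (l 16482328)) (b (l 16624736) (l 16663992))) (a (b (l 16403480) (l 16346120)) (b (l 16576088) (l 16505744)))) (b (a (b (l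 16526856) (l 16591784)) (b (a (l 16482208) (b (b (l 16416760) (l 16432584)) (l 16456408))) (l 16509800))) (a (b (l 16611600) (l 16608992)) (b (l 16531440) (l 16528040))))) (b (a (a (b (l 16306576) (l 16279384)) (b (l 16449288) (l 16400904))) (b (a (l 16577616) (l 16500840)) (a (l 16508144) (l 16450064)))) (a (b (a (l 16256736) (l 16352376)) (a (l 16164920) (l 16208680))) (b (a (l 16433808) (l 16376200)) (a (l 16259464) (l 16240512))))))), by decide +kernel⟩

theorem s5_pm_012_a : ∃ t, chk3 f_pm_012_a t 4 3 1 = true := ex3_a k1_pm_012_a k2_pm_012_a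

theorem s6_pm_012_a : ∃ t, chk3 f_pm_012_a t 4 1 1 = true := ex3_b k0_pm_012_a s5_pm_012_a

theorem s7_pm_012_a : ∃ t, chk3 f_pm_012_a t 2 1 1 = true := ex3_a s6_pm_012_a k3_pm_012_a

theorem s8_pm_012_a : ∃ t, chk3 f_pm_012_a t 1 1 1 = true := ex3_a s7_pm_012_a k4_pm_012_a

theorem c_pm_012_a : CertB 0 536870912 0 536870912 1033476505 6710887 3 eng mog cd0q0 cd2q2a pd1 false true false .pnp 0 1 2
    ndB0q0 ndB2q2a pcB1 cut_pm_012_a xt_pm_012_a :=
  certB0 (fam := false) (s1 := true) (s2 := false) (a := 0) (b := 1) (c := 2) (cn := .pnp) (n1 := ndB0q0) (n2 := ndB2q2a) (pc := pcB1) (cut := cut_pm_012_a) (xt := xt_pm_012_a) (P1 := 0) (W1 := 536870912) (P2 := 0) (W2 := 536870912) (P3 := 1033476505) (W3 := 6710887) (N0 := 3) (En := eng) (mo := mog) (C1 := cd0q0) (C2 := cd2q2a) (C3 := pd1)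
    rfl s8_pm_012_a

noncomputable def cut_pm_012_b : Cut := Cut.of [[⟨0, 0, 0, 33554432⟩, ⟨1, 1, 0, 33554432⟩, ⟨2, 1, 0, 33554432⟩]]

noncomputable def f_pm_012_b : ℕ → ℕ → ℕ → ℕ → Bool := onCell 0 536870912 536870912 536870912 1033476505 6710887
    (rowB 3 eng mog cd0q0 cd2q2b pd1 1 false true false .pnp 0 1 2 (qsf 0 536870912 1239849684 370763052 1) ndB0q0 ndB2q2b pcB1 cut_pm_012_b Ext.none)

def k0_pm_012_b : ∃ t, chk3 f_pm_012_b t 1 1 1 = true :=
  ⟨(a (a (l 1) (b (l 1) (b (l 1) (a (b (l 1) (a (b (l 1) (l 385504819911)) (b (l 15687696) (l 15528272)))) (b (a (a (l 1) (l 15738336)) (b (l 15928680) (l 15673896))) (a (b (l 15611648) (l 15329232)) (b (l 15406176) (l 15126720)))))))) (a (b (l 1) (a (b (b (l 1) (a (l 186862939687) (l 15932568))) (a (b (a (l 15725520) (l 15697440)) (a (l 15193904) (l 15168184))) (b (l 15668320) (l 15142664)))) (b (b (b (l 165389168711) (a (l 16435760) (l 16435016))) (a (l 16017248) (l 16081464))) (b (a (l 15651824) (l 15656872)) (a (l 15131008) (l 15140912))))))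 (b (b (l 1) (a (b (l 1) (a (l 378526902471) (a (l 154114561223) (l 139082247847)))) (b (a (b (l 1) (l 171831079367)) (b (a (l 1) (l 171830998807)) (a (l 16354424) (l 16371952)))) (a (b (l 16440864) (l 16631256)) (b (a (l 16569328) (l 16546624)) (l 16562264)))))) (b (a (b (b (a (l 16635544) (l 16662472)) (l 16276648)) (a (l 16078280) (l 16087088))) (b (b (a (l 16697416) (l 16683984)) (a (l 16513848) (l 16555112))) (a (l 16103864) (l 16147408)))) (a (b (a (l 15678456) (l 15712088)) (a (l 15167384) (l 15205944))) (b (a (l 15753832) (l 15801688)) (a (l 15252712) (l 15305760)))))))), by decide +kernel⟩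

theorem c_pm_012_b : CertB 0 536870912 1239849684 370763052 1033476505 6710887 3 eng mog cd0q0 cd2q2b pd1 false true false .pnp 0 1 2
    ndB0q0 ndB2q2b pcB1 cut_pm_012_b Ext.none :=
  certB1 (fam := false) (s1 := true) (s2 := false) (a := 0) (b := 1) (c := 2) (cn := .pnp) (n1 := ndB0q0) (n2 := ndB2q2b) (pc := pcB1) (cut := cut_pm_012_b) (xt := Ext.none) (P1 := 0) (W1 := 536870912) (P2 := 1239849684) (W2 := 370763052) (P3 := 1033476505) (W3 := 6710887) (N0 := 3) (En := eng) (mo := mog) (C1 := cd0q0) (C2 := cd2q2b) (C3 := pd1)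
    rfl (fun _ => rfl) k0_pm_012_b

noncomputable def cut_pm_022_a : Cut := Cut.of [[⟨0, 0, 0, 33554432⟩, ⟨1, 1, 0, 33554432⟩, ⟨2, 1, 0, 33554432⟩]]

noncomputable def f_pm_022_a : ℕ → ℕ → ℕ → ℕ → Bool := onCell 0 536870912 0 536870912 1033476505 6710887
    (rowB 3 eng mog cd0q0 cd2q2a pd2 0 false true false .pp 0 2 2 (qsf 0 536870912 0 536870912 2) ndB0q0 ndB2q2a pcB2 cut_pm_022_a Ext.none)

def k0_pm_022_a : ∃ t, chk3 f_pm_022_a t 4 2 1 = true :=
  ⟨(a (b (a (a (b (l 16452840) (l 16436992)) (b (l 16405424) (l 16388096))) (a (b (l 16395384) (l 16366496)) (b (l 16401096) (l 16359344)))) (a (b (a (b (l 16431384) (l 16430656)) (l 16368696)) (a (b (l 16444888) (l 16465072)) (b (l 16405088) (l 16426152)))) (b (a (l 16364808) (l 16339680)) (a (l 16375104) (l 16333384))))) (a (b (a (b (l 16419016) (l 16362224)) (b (l 16451992) (l 16380376))) (a (b (l 16327856) (l 16308536)) (b (l 16332536) (l 16302592)))) (b (a (b (l 16450440) (l 16342360)) (b (l 16412776) (l 16309696))) (a (b (l 16302096) (l 16219712))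 (b (l 16234664) (l 16183568)))))), by decide +kernel⟩

def k1_pm_022_a : ∃ t, chk3 f_pm_022_a t 4 3 1 = true :=
  ⟨(b (a (a (b (a (b (l 16446512) (l 16522680)) (b (l 16443472) (l 16460000))) (b (a (l 16548376) (l 16476248)) (a (l 16550808) (l 16472032)))) (b (a (l 16296304) (b (l 16333120) (l 16336128))) (b (a (l 16403784) (l 16342448)) (a (l 16416568) (l 16353912))))) (a (b (a (l 16280264) (b (l 16289640) (l 16288336))) (a (b (l 16305600) (l 16318336)) (b (l 16294288) (l 16289720)))) (a (b (a (l 16260344) (l 16221352)) (b (l 16248440) (l 1))) (b (l 16159504) (l 1))))) (a (b (a (b (a (a (l 16615624) (l 16574288)) (b (l 16506648) (l 16517680))) (a (a (b (l 16635000) (l 16628880)) (b (l 16593016) (l 16607920))) (b (l 16530640) (a (l 16566520) (l 16526824))))) (b (a (l 16393048) (l 16332016)) (a (b (l 16454920) (a (l 16490024) (l 16457304))) (b (l 16397488) (l 16419256))))) (a (b (b (a (a (l 16624968) (l 16625584)) (a (l 16585176) (l 16546840))) (a (l 6) (a (l 6) (b (l 16565048) (l 16579104)))))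 (a (l 6) (a (l 6) (l 1)))) (b (a (b (a (l 16511784) (l 1)) (l 1)) (l 1)) (l 1)))) (a (b (a (b (l 16342896) (l 1)) (l 1)) (l 1)) (l 1)))), by decide +kernel⟩

def k2_pm_022_a : ∃ t, chk3 f_pm_022_a t 5 1 1 = true :=
  ⟨(b (a (b (a (b (l 16210816) (a (l 16255560) (l 16209216))) (b (l 1) (l 1))) (a (b (a (l 16167344) (l 16108728)) (a (l 16106816) (l 1))) (l 1))) (l 1)) (b (l 1) (l 1))), by decide +kernel⟩

def k3_pm_022_a : ∃ t, chk3 f_pm_022_a t 3 1 1 = true :=
  ⟨(l 1), by decide +kernel⟩

theorem s4_pm_022_a : ∃ t, chk3 f_pm_022_a t 4 1 1 = true := ex3_b k0_pm_022_a k1_pm_022_a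

theorem s5_pm_022_a : ∃ t, chk3 f_pm_022_a t 2 1 1 = true := ex3_a s4_pm_022_a k2_pm_022_a

theorem s6_pm_022_a : ∃ t, chk3 f_pm_022_a t 1 1 1 = true := ex3_a s5_pm_022_a k3_pm_022_a

theorem c_pm_022_a : CertB 0 536870912 0 536870912 1033476505 6710887 3 eng mog cd0q0 cd2q2a pd2 false true false .pp 0 2 2
    ndB0q0 ndB2q2a pcB2 cut_pm_022_a Ext.none :=
  certB0 (fam := false) (s1 := true) (s2 := false) (a := 0) (b := 2) (c := 2) (cn := .pp) (n1 := ndB0q0) (n2 := ndB2q2a) (pc := pcB2) (cut := cut_pm_022_a) (xt := Ext.none) (P1 := 0) (W1 := 536870912) (P2 := 0) (W2 := 536870912) (P3 := 1033476505) (W3 := 6710887) (N0 := 3) (En := eng) (mo := mog) (C1 := cd0q0) (C2 := cd2q2a) (C3 := pd2)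
    rfl s6_pm_022_a

noncomputable def cut_pm_022_b : Cut := Cut.of [[⟨0, 0, 0, 33554432⟩, ⟨1, 1, 0, 33554432⟩, ⟨2, 1, 0, 33554432⟩]]

noncomputable def f_pm_022_b : ℕ → ℕ → ℕ → ℕ → Bool := onCell 0 536870912 1073741824 536870912 1033476505 6710887
    (rowB 3 eng mog cd0q0 cd2q2b pd2 1 false true false .pp 0 2 2 (qsf 0 536870912 1239849684 370763052 2) ndB0q0 ndB2q2b pcB2 cut_pm_022_b Ext.none)

def k0_pm_022_b : ∃ t, chk3 f_pm_022_b t 2 2 1 = true :=
  ⟨(a (b (a (b (l 1) (b (a (l 1) (l 310343805255)) (a (l 316249301799) (b (l 16453208) (l 16350680))))) (b (a (b (l 1) (a (l 1) (l 16264400))) (a (b (l 1) (l 16333184)) (b (l 16304632) (l 16305472)))) (a (b (a (l 16491800) (l 16377288)) (a (l 16174640) (l 16069824))) (b (a (a (l 16330432) (l 16253472)) (l 16133760)) (a (l 15973416) (l 15908024)))))) (a (b (b (a (b (l 16429800) (l 16402272)) (b (l 16246192) (l 16182720))) (a (l 16350456) (l 16138984))) (b (a (l 16323808) (l 16141232)) (a (l 16158640) (l 16195912)))) (b (a (b (a (l 16067608) (l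 15987528)) (a (l 16001664) (l 15923680))) (b (a (l 15877256) (l 15738496)) (a (l 15818744) (l 15688576)))) (a (b (l 15951392) (l 16031304)) (b (a (l 15831592) (l 15709224)) (l 15676512)))))) (b (b (a (a (b (b (l 16267024) (a (l 16430040) (l 16253320))) (a (l 16195072) (l 16048288))) (b (a (l 16159032) (l 16004928)) (l 15628424))) (a (b (a (l 15870336) (l 15759312)) (a (l 15621528) (l 15517960))) (b (a (l 15675648) (l 15622824)) (a (l 15439616) (l 15389584))))) (a (b (a (l 15788512) (l 15600744)) (a (l 15517192) (l 15414312))) (b (a (l 15368240) (l 15222128)) (a (l 15199560) (l 15063840))))) (b (a (b (a (l 15531784) (l 15281728)) (a (l 15494968) (l 15260592))) (b (a (l 15083264) (l 14956368)) (a (l 15072768) (l 14948344)))) (a (a (b (l 15527384) (l 15610120)) (b (l 15306712) (l 15402312))) (b (a (l 15127312) (l 15002936)) (l 15160712)))))), by decide +kernel⟩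

def k1_pm_022_b : ∃ t, chk3 f_pm_022_b t 3 2 1 = true :=
  ⟨(b (a (a (b (a (b (a (l 15599912) (l 15592856)) (a (l 15366896) (l 15358648))) (b (l 15596888) (l 15359472))) (a (b (a (l 15178368) (l 15168568)) (a (l 15021544) (l 15010680))) (b (l 15165632) (l 15004832)))) (b (b (a (b (l 15695048) (l 15561640)) (a (l 15665496) (l 15698392))) (a (l 15383000) (l 15502112))) (b (a (l 15181760) (l 15217408)) (a (l 15014816) (l 15041848))))) (b (a (a (b (a (l 15736040) (b (l 15850776) (l 15706792))) (b (l 15554280) (l 15432232))) (b (b (l 15847016) (l 15719448)) (a (l 15603800) (l 15543472)))) (a (b (l 15752536) (l 15530480)) (b (l 15719832) (l 15513552)))) (a (b (a (l 15268512) (a (l 15314880) (l 15331408))) (a (l 15082200) (l 15132152))) (a (b (l 15332392) (l 2)) (l 2))))) (a (b (a (b (a (a (l 14914312) (l 14901520)) (l 14891400)) (a (l 14888712) (l 14862600))) (b (a (l 14893320) (l 14909680)) (a (l 14847960) (l 14844400)))) (a (a (b (l 14933416) (l 15024584)) (l 14923144)) (b (l 14884648) (l 2))))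 (b (a (b (a (l 14937064) (l 2)) (l 2)) (l 2)) (l 2)))), by decide +kernel⟩

def k2_pm_022_b : ∃ t, chk3 f_pm_022_b t 1 3 1 = true :=
  ⟨(a (a (b (a (b (b (a (l 15959624) (l 16131160)) (a (l 15747528) (l 15941008))) (b (a (l 15546776) (l 15761704)) (a (l 15394616) (l 15615960)))) (b (a (b (l 16125096) (l 16081456)) (b (l 15945768) (l 16062168))) (a (b (l 15922760) (l 15792048)) (b (l 16137920) (l 16022640))))) (b (a (a (l 4) (l 15388744)) (a (b (l 15696288) (l 4)) (b (l 15921376) (l 15839104)))) (l 4))) (b (b (a (b (l 15416496) (l 15662768)) (b (l 15299224) (l 15456800))) (a (b (l 15903912) (l 16012440)) (b (l 15613888) (l 2)))) (b (a (a (l 16204304) (l 2)) (l 2)) (l 2)))) (a (b (a (b (a (l 15223000) (l 2)) (l 2)) (l 2)) (l 2)) (l 2))), by decide +kernel⟩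

theorem s3_pm_022_b : ∃ t, chk3 f_pm_022_b t 1 2 1 = true := ex3_a k0_pm_022_b k1_pm_022_b

theorem s4_pm_022_b : ∃ t, chk3 f_pm_022_b t 1 1 1 = true := ex3_b s3_pm_022_b k2_pm_022_b

theorem c_pm_022_b : CertB 0 536870912 1239849684 370763052 1033476505 6710887 3 eng mog cd0q0 cd2q2b pd2 false true false .pp 0 2 2
    ndB0q0 ndB2q2b pcB2 cut_pm_022_b Ext.none :=
  certB1 (fam := false) (s1 := true) (s2 := false) (a := 0) (b := 2) (c := 2) (cn := .pp) (n1 := ndB0q0) (n2 := ndB2q2b) (pc := pcB2) (cut := cut_pm_022_b) (xt := Ext.none) (P1 := 0) (W1 := 536870912) (P2 := 1239849684) (W2 := 370763052) (P3 := 1033476505) (W3 := 6710887) (N0 := 3) (En := eng) (mo := mog) (C1 := cd0q0) (C2 := cd2q2b) (C3 := pd2)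
    rfl (fun _ => rfl) s4_pm_022_b

noncomputable def f_pm_023 : ℕ → ℕ → ℕ → ℕ → Bool := onCell 0 536870912 1073741824 536870912 1033476505 6710887
    (rowB 3 eng mog cd0q0 cd2q3 pd2 1 false true false .up 0 2 3 (qsf 0 536870912 1610612736 536870912 2) ndB0q0 ndB2q3 pcB2 Cut.none Ext.none)

def k0_pm_023 : ∃ t, chk3 f_pm_023 t 1 1 1 = true :=
  ⟨(b (a (a (l 1) (b (l 1) (b (l 1) (a (l 1) (b (l 1) (l 15558152)))))) (b (a (a (l 1) (b (l 1) (b (l 1) (l 250749218327)))) (b (a (a (l 1) (b (l 1) (l 222832942055))) (a (l 104721387559) (b (l 16112600) (l 15908752)))) (a (b (a (l 15662688) (l 15722136)) (a (l 15485184) (l 15534176))) (a (l 15639736) (l 15635352))))) (a (b (a (b (l 1) (a (l 1) (l 15264224))) (b (l 15325264) (l 15254176))) (a (a (l 15193784) (l 15335152)) (b (l 15250104) (l 15283464)))) (b (a (b (a (l 15342128) (l 15370832)) (l 15227000)) (b (l 15394208) (l 15256552))) (a (b (l 15178816) (l 15145536)) (a (l 14976728) (l 15093712))))))) (a (a (b (a (l 1) (b (l 1) (a (l 1) (b (l 1) (l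 15631968))))) (b (a (b (l 1) (l 4)) (a (l 276518592903) (b (l 15523568) (l 15462688)))) (l 4))) (b (b (a (b (l 1) (l 16137568)) (b (l 15708600) (l 15870992))) (a (a (l 16028216) (l 16289104)) (l 15921552))) (b (a (a (l 15847320) (l 16166680)) (l 16326360)) (a (b (l 15921048) (l 4)) (l 16438024))))) (a (b (a (b (a (l 15635464) (l 15541088)) (a (l 15907048) (l 15776592))) (b (l 15363936) (l 15555992))) (a (b (l 16061352) (l 16297696)) (b (l 15722688) (l 15914368)))) (b (a (b (l 15003808) (l 15220760)) (b (a (l 14954184) (l 14927928)) (a (l 14939384) (l 14840040)))) (a (b (l 15322608) (l 15459544)) (a (l 14955896) (b (l 14822320) (l 14865256)))))))), by decide +kernel⟩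

theorem c_pm_023 : CertB 0 536870912 1610612736 536870912 1033476505 6710887 3 eng mog cd0q0 cd2q3 pd2 false true false .up 0 2 3
    ndB0q0 ndB2q3 pcB2 Cut.none Ext.none :=
  certB1 (fam := false) (s1 := true) (s2 := false) (a := 0) (b := 2) (c := 3) (cn := .up) (n1 := ndB0q0) (n2 := ndB2q3) (pc := pcB2) (cut := Cut.none) (xt := Ext.none) (P1 := 0) (W1 := 536870912) (P2 := 1610612736) (W2 := 536870912) (P3 := 1033476505) (W3 := 6710887) (N0 := 3) (En := eng) (mo := mog) (C1 := cd0q0) (C2 := cd2q3) (C3 := pd2)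
    rfl (fun _ => rfl) k0_pm_023

noncomputable def f_pm_033 : ℕ → ℕ → ℕ → ℕ → Bool := onCell 1610612736 536870912 1610612736 536870912 1033476505 6710887
    (rowB 3 eng mog cd0q0 cd2q3 pd3 2 false true false .pnn 0 3 3 (qsf 0 536870912 1610612736 536870912 3) ndB0q0 ndB2q3 pcB3 Cut.none Ext.none)

def k0_pm_033 : ∃ t, chk3 f_pm_033 t 1 1 1 = true :=
  ⟨(a (b (a (b (l 4) (a (b (l 4) (a (l 16325880) (l 4))) (l 4))) (l 4)) (a (b (a (b (a (l 16423104) (l 16470216)) (a (l 16121352) (b (l 16550792) (l 16368848)))) (b (l 4) (a (l 16555696) (l 4)))) (a (b (a (l 15602840) (l 15992680)) (a (b (l 15155312) (l 14847704)) (l 15398680))) (b (a (l 16357448) (b (l 16602552) (l 16537024))) (a (l 15815080) (l 16217792))))) (b (l 4) (a (b (l 4) (a (l 16505920) (b (l 4) (l 16635480)))) (l 4))))) (l 4)), by decide +kernel⟩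

theorem c_pm_033 : CertB 0 536870912 1610612736 536870912 1033476505 6710887 3 eng mog cd0q0 cd2q3 pd3 false true false .pnn 0 3 3
    ndB0q0 ndB2q3 pcB3 Cut.none Ext.none :=
  certB2 (fam := false) (s1 := true) (s2 := false) (a := 0) (b := 3) (c := 3) (cn := .pnn) (n1 := ndB0q0) (n2 := ndB2q3) (pc := pcB3) (cut := Cut.none) (xt := Ext.none) (P1 := 0) (W1 := 536870912) (P2 := 1610612736) (W2 := 536870912) (P3 := 1033476505) (W3 := 6710887) (N0 := 3) (En := eng) (mo := mog) (C1 := cd0q0) (C2 := cd2q3) (C3 := pd3)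
    rfl (fun _ => rfl) k0_pm_033

noncomputable def f_pm_101 : ℕ → ℕ → ℕ → ℕ → Bool := onCell 536870912 536870912 536870912 536870912 1033476505 6710887
    (rowB 3 eng mog cd0q1 cd2q1 pd0 0 false true false .npn 1 0 1 (qsf 536870912 536870912 536870912 536870912 0) ndB0q1 ndB2q1 pcB0 Cut.none Ext.none)

def k0_pm_101 : ∃ t, chk3 f_pm_101 t 1 1 1 = true :=
  ⟨(a (l 4) (b (a (l 4) (l 1)) (a (l 4) (b (a (l 4) (l 1)) (a (a (b (l 4) (b (l 4) (l 15509584))) (b (a (l 4) (b (l 1) (l 15368672))) (b (a (l 15380496) (l 15253936)) (a (l 15319344) (l 15217728))))) (a (b (a (b (l 1) (a (l 15314200) (l 1))) (l 1)) (a (b (l 146595893975) (l 15131656)) (b (a (b (l 15208704) (l 15141200)) (l 266855314711)) (a (l 15117296) (l 15116864))))) (b (l 1) (b (a (b (l 1) (l 314099940311)) (l 1)) (a (b (l 15169680) (l 15093952)) (b (l 335574801399) (l 15153200))))))))))), by decide +kernel⟩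

theorem c_pm_101 : CertB 536870912 536870912 536870912 536870912 1033476505 6710887 3 eng mog cd0q1 cd2q1 pd0 false true false .npn 1 0 1
    ndB0q1 ndB2q1 pcB0 Cut.none Ext.none :=
  certB0 (fam := false) (s1 := true) (s2 := false) (a := 1) (b := 0) (c := 1) (cn := .npn) (n1 := ndB0q1) (n2 := ndB2q1) (pc := pcB0) (cut := Cut.none) (xt := Ext.none) (P1 := 536870912) (W1 := 536870912) (P2 := 536870912) (W2 := 536870912) (P3 := 1033476505) (W3 := 6710887) (N0 := 3) (En := eng) (mo := mog) (C1 := cd0q1) (C2 := cd2q1) (C3 := pd0)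
    rfl k0_pm_101

end Pool.Agent.Strip051.G.I9625_9688.Tab.C.BB02

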