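import Pool.Agent.Strip051.G.I9625_9688.Tab
import Pool.Agent.Strip051.PB.ExtD3

/-! # Certificates B19 (generated) -/

set_option linter.all false
set_option maxRecDepth 100000

namespace Pool.Agent.Strip051.G.I9625_9688.Tab.C.BB02

open Pool.Agent.Strip051.PB Pool.Agent.Strip051.PB.T
open Pool.Agent.Strip051.G.I9625_9688.Tab

noncomputable def cut_pm_102_a : Cut := Cut.of [[⟨0, 1, 0, 16777216⟩, ⟨1, 0, 0, 16777216⟩, ⟨2, 1, 0, 16777216⟩], [⟨0, 0, 1, 46137344⟩, ⟨1, 1, 2, 46137344⟩, ⟨2, 1, 0, 1048576⟩, ⟨0, 0, 0, 1047972020⟩, ⟨0, 1, 0, 45097156⟩, ⟨1, 0, 0, 45097156⟩, ⟨1, 1, 0, 1047972020⟩]]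

noncomputable def xt_pm_102_a : Ext := extD3 3 ⟨4, 1, 1, 5, 27, 5, 41, 50, 81, 200, 1, 64⟩ eng cd0q1 cd2q2a pd0 false true false .npp 1 0 2 rfl ndB0q1 ndB2q2a pcB0

noncomputable def f_pm_102_a : ℕ → ℕ → ℕ → ℕ → Bool := onCell 0 536870912 0 536870912 1033476505 6710887
    (rowB 3 eng mog cd0q1 cd2q2a pd0 2 false true false .npp 1 0 2 (qsf 536870912 536870912 0 536870912 0) ndB0q1 ndB2q2a pcB0 cut_pm_102_a xt_pm_102_a)

def k0_pm_102_a : ∃ t, chk3 f_pm_102_a t 4 2 1 = true :=
  ⟨(a (l 2) (l 3)), by decide +kernel⟩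

def k1_pm_102_a : ∃ t, chk3 f_pm_102_a t 10 2 1 = true :=
  ⟨(a (l 3) (b (l 3) (b (l 3) (a (l 3) (b (l 3) (b (l 3) (a (l 3) (a (l 3) (b (l 3) (b (l 3) (a (l 3) (b (a (l 3) (b (l 3) (a (l 174113177479) (a (b (l 173576307783) (c (b (l 175723795735) (l 16395936)) (l 16394648))) (a (b (l 178945020151) (l 16397104)) (l 151564569943)))))) (a (b (a (l 3) (c (b (l 3) (l 175723796151)) (l 176260663719))) (a (a (l 3) (b (l 3) (b (l 176797539991) (l 180555638711)))) (a (b (b (l 16394632) (l 178945024823)) (l 16398568)) (l 16378912)))) (a (b (b (c (a (l 175723795287) (l 178408152183)) (l 158007015207)) (l 152101445287)) (l 16405216)) (l 16407824))))))))))))))), by decide +kernel⟩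

def k2_pm_102_a : ∃ t, chk3 f_pm_102_a t 22 4 1 = true :=
  ⟨(l 3), by decide +kernel⟩

def k3_pm_102_a : ∃ t, chk3 f_pm_102_a t 22 10 1 = true :=
  ⟨(l 3), by decide +kernel⟩

def k4_pm_102_a : ∃ t, chk3 f_pm_102_a t 44 22 1 = true :=
  ⟨(l 3), by decide +kernel⟩

def k5_pm_102_a : ∃ t, chk3 f_pm_102_a t 88 46 1 = true :=
  ⟨(a (l 3) (b (l 3) (a (l 3) (b (l 3) (b (l 3) (a (l 3) (b (l 167133832663) (a (c (l 169281319319) (l 167133834167)) (c (b (a (l 169281321415) (b (l 174650033447) (l 16385632))) (a (b (l 176260646983) (l 16386288)) (l 16388944))) (a (l 152101411511) (l 16365312))))))))))), by decide +kernel⟩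

def k6_pm_102_a : ∃ t, chk3 f_pm_102_a t 88 94 1 = true :=
  ⟨(a (b (l 3) (a (l 3) (b (l 3) (b (a (l 3) (a (l 169818198103) (c (a (b (l 16387272) (b (l 172502558775) (l 16390088))) (b (b (l 175723783095) (l 176797526135)) (l 16392544))) (l 154785782471)))) (b (a (l 3) (a (c (a (l 173039428583) (b (l 173576301767) (l 16390888))) (l 149417067271)) (l 16394944))) (c (a (a (l 3) (l 173039429047)) (c (l 150490829527) (l 16375160))) (a (l 171428812871) (l 16374648)))))))) (b (a (b (l 3) (a (l 3) (b (a (l 3) (c (b (l 3) (a (l 16385008) (b (l 175723778759) (l 16387224)))) (l 153712026151))) (a (c (b (l 170355066647) (a (l 172502553143) (b (l 175186909831) (l 16388664)))) (l 153712029735)) (b (a (c (b (l 173576296135) (l 16387928)) (l 16386528)) (l 16390096)) (l 16392800)))))) (b (b (b (a (l 3) (a (c (a (l 172502549623) (b (l 177334389591) (l 16386984))) (l 149953929527)) (l 16391216))) (c (a (a (l 3) (a (l 3) (b (l 16383928) (l 176260647847)))) (l 154248919607)) (a (l 168744449447) (l 16370688)))) (a (a (b (l 3) (a (l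 3) (b (l 171428809399) (c (l 176260649591) (l 16385216))))) (b (c (a (b (l 16384328) (l 174650036023)) (l 179481874487)) (l 149417061959)) (l 16368712))) (l 16398848))) (a (a (b (b (c (a (b (l 174113164839) (l 177334392071)) (l 16388904)) (l 16365928)) (l 16391208)) (l 16398112)) (l 16401152)) (l 16412664)))) (a (b (a (b (a (l 3) (c (b (a (l 3) (l 174113167367)) (a (b (l 16386384) (l 173039427415)) (l 177871266087))) (l 153712033319))) (a (b (a (l 3) (b (l 171428813143) (c (l 174113170135) (l 16387280)))) (c (a (b (l 174113168919) (l 175723783799)) (l 16390856)) (l 16368000))) (l 151564569527))) (a (b (c (l 149953949127) (l 16370952)) (l 16401368)) (l 16404344))) (a (l 16382936) (l 16419056))) (l 16411760)))), by decide +kernel⟩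

def k7_pm_102_a : ∃ t, chk3 f_pm_102_a t 88 95 1 = true :=
  ⟨(a (b (a (a (b (l 3) (b (l 3) (a (l 3) (c (b (l 174113176519) (a (l 176797533783) (l 177871276375))) (l 157470141367))))) (c (b (b (l 3) (a (l 3) (b (l 3) (a (l 16389920) (b (l 176260659175) (l 16391944)))))) (b (a (b (l 171965689287) (a (l 174113175911) (b (l 175186919943) (l 16393632)))) (b (a (b (l 178408144183) (l 16392760)) (l 16395160)) (l 16397952))) (l 156933298183))) (b (l 160691358807) (b (a (l 156933266167) (l 16374336)) (l 16379712))))) (b (a (b (a (c (b (l 3) (a (l 3) (b (l 16389352) (l 174650046199)))) (l 173576299927)) (b (c (a (l 175723785975) (l 177334400231)) (l 149953942023)) (l 16374968))) (a (b (c (a (b (l 16389912) (l 175723788807)) (l 16393336)) (l 16370560)) (l 16395752)) (l 16400856))) (l 16407416)) (l 16397544))) (a (a (b (b (a (b (a (l 3) (c (b (l 16392256) (l 176260664663)) (l 16392344))) (b (a (l 176260663831) (l 16394888)) (l 150490823767))) (l 16378240)) (l 16404800)) (l 16418784)) (l 16424200)) (l 16446552))) (a (b (l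 16439360) (l 16476840)) (l 16488808))), by decide +kernel⟩

def k8_pm_102_a : ∃ t, chk3 f_pm_102_a t 178 46 1 = true :=
  ⟨(b (a (l 3) (b (l 3) (b (l 3) (a (l 3) (b (l 3) (a (l 3) (c (b (l 3) (a (l 3) (l 170891929863))) (l 167133828439)))))))) (b (a (b (l 3) (a (l 3) (b (l 3) (a (l 3) (a (c (l 168744446327) (l 167670702903)) (b (l 168744447223) (a (b (l 173576287719) (l 16383232)) (l 16384048)))))))) (b (a (b (l 3) (a (l 3) (b (l 3) (a (l 3) (b (l 171428802343) (c (l 180018738791) (l 16381616))))))) (a (b (a (l 3) (a (l 166596960087) (b (l 3) (b (l 16380360) (l 182703092119))))) (a (b (a (l 170355059703) (b (l 171428801831) (l 16382080))) (l 16384432)) (l 152101419063))) (a (b (c (b (b (l 16380288) (l 175186898791)) (l 182703092615)) (l 152638278919)) (l 16390008)) (c (l 156396399559) (l 16368104))))) (a (b (a (b (l 165523217911) (a (l 167133833351) (c (b (l 175186900247) (l 182166223063)) (l 178944996039)))) (b (a (c (b (l 173576286807) (l 181092480935)) (l 177871253783)) (l 16385024)) (l 16387600))) (a (a (a (b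 (b (l 16381336) (l 16382664)) (l 16385944)) (l 150490803351)) (l 16388552)) (l 16394424))) (l 16401672)))) (a (a (b (b (l 3) (a (l 3) (a (b (l 3) (a (l 171965676375) (b (l 173039418455) (l 16384016)))) (b (a (l 169818191463) (b (l 16382144) (l 180555611991))) (l 182166225479))))) (b (a (b (a (l 3) (c (b (l 173039418887) (l 178945000695)) (l 176797515271))) (a (c (b (l 175186903639) (l 180018742951)) (l 178408128807)) (l 16387112))) (l 16369664)) (l 16395912))) (b (c (b (a (b (a (l 3) (l 171965675127)) (a (b (l 16381984) (l 175723773063)) (b (l 180555611735) (l 16385880)))) (c (l 149417067143) (l 16367280))) (l 16377856)) (a (b (b (l 169281317399) (l 152101410663)) (l 16388904)) (l 16371184))) (l 16406864))) (a (l 16392384) (l 16429088))))), by decide +kernel⟩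

def k9_pm_102_a : ∃ t, chk3 f_pm_102_a t 179 46 1 = true :=
  ⟨(b (b (a (l 3) (b (a (l 3) (b (a (l 3) (b (l 3) (a (l 167133828199) (c (b (l 175186895223) (l 184313701911)) (l 178944991239))))) (a (c (b (l 166596956103) (a (l 168744442279) (b (l 178408121639) (l 16381600)))) (l 156933238983)) (a (b (c (b (l 176797508535) (l 16381232)) (l 179481862263)) (l 16383976)) (l 16385776))))) (a (b (a (l 3) (c (b (l 168744441527) (a (l 171428798327) (b (l 181629347783) (l 16382432)))) (b (l 169818181511) (a (l 16378416) (l 16380728))))) (a (c (b (a (l 3) (b (l 3) (l 175723767223))) (a (b (l 16379240) (l 176797509399)) (l 182166219255))) (b (l 171428796103) (l 155322630295))) (c (l 151564547543) (l 16364272)))) (a (a (c (c (c (l 152101424311) (l 153712037895)) (l 16366536)) (l 16365864)) (l 16391144)) (l 16397184))))) (a (b (a (l 166060081559) (b (a (l 3) (c (b (a (l 3) (b (l 16379456) (l 178408122535))) (a (b (l 170355057303) (l 180018735799)) (l 16383280))) (b (l 173039410167) (l 155322632407)))) (a (b (a (l 3) (c (b (l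 172502541639) (l 181629348855)) (l 178408121511))) (a (c (b (l 174113155223) (l 181629349063)) (l 179481863959)) (l 16383824))) (l 16366584)))) (a (b (b (a (l 3) (a (l 167133830775) (c (b (l 175723768439) (l 16382096)) (l 180555605991)))) (a (l 167133830055) (a (b (a (l 16379864) (l 183776832711)) (l 185387445911)) (l 16384888)))) (b (a (a (c (l 169818187095) (l 16379336)) (a (b (l 173576284791) (l 16381672)) (l 16382528))) (l 16387424)) (c (c (c (l 151564553815) (l 152638296343)) (l 16367344)) (l 16366704)))) (l 16376120))) (a (a (c (l 141900892071) (l 16378664)) (l 16408080)) (l 16420136)))) (a (b (a (l 16376944) (l 16424304)) (l 16452864)) (l 16445624))), by decide +kernel⟩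

def k10_pm_102_a : ∃ t, chk3 f_pm_102_a t 89 47 1 = true :=
  ⟨(a (b (a (b (l 16384728) (l 16463720)) (l 16455600)) (l 16514600)) (b (l 16503216) (l 16599000))), by decide +kernel⟩

def k11_pm_102_a : ∃ t, chk3 f_pm_102_a t 90 44 1 = true :=
  ⟨(l 3), by decide +kernel⟩

def k12_pm_102_a : ∃ t, chk3 f_pm_102_a t 180 45 1 = true :=
  ⟨(b (l 3) (a (b (l 3) (b (a (l 3) (c (b (l 167670695591) (a (b (l 3) (a (l 3) (l 173039410695))) (b (a (l 171965668247) (b (l 182703088743) (l 16382024))) (a (b (l 184313701607) (l 16382368)) (l 16385336))))) (b (l 169818175255) (a (l 171965663639) (l 155859507511))))) (a (b (a (l 3) (b (l 3) (a (l 3) (b (l 169818183975) (c (l 178944992071) (l 16378832)))))) (a (b (l 3) (a (l 3) (c (b (l 171965669015) (l 182166218087)) (l 181092474327)))) (a (b (c (b (l 16378896) (l 180555605143)) (l 179481860951)) (l 16382336)) (l 16363208)))) (a (b (c (b (a (a (l 16378656) (l 173039411703)) (l 181629347271)) (l 181092476727)) (l 155859509047)) (l 16390224)) (l 16393920))))) (b (b (a (l 3) (a (l 3)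 (b (l 3) (c (b (a (l 3) (b (l 16379048) (l 182166218151))) (a (b (l 16379120) (l 183239959895)) (l 16382896))) (l 161228210903))))) (a (b (l 189682401399) (a (l 168744437591) (c (b (a (l 16378416) (b (l 177334379015) (l 16380904))) (a (b (l 178944991975) (l 16381144)) (l 16384016))) (l 154785762599)))) (a (b (c (b (a (l 3) (b (l 174113152919) (l 184313701751))) (a (b (l 175723766087) (l 16380680)) (l 16383424))) (l 161765083239)) (l 16387488)) (l 16370336)))) (a (b (a (b (c (b (a (l 169281312775) (b (l 180018733831) (l 16381416))) (a (b (l 181629346807) (l 16381712)) (l 16384656))) (l 155322634999)) (l 16388776)) (l 16392528)) (l 16406152)) (l 16413680))))), by decide +kernel⟩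

def k13_pm_102_a : ∃ t, chk3 f_pm_102_a t 181 45 1 = true :=
  ⟨(b (a (b (l 3) (b (a (l 3) (a (l 3) (b (l 3) (b (l 171428795863) (a (l 173576281559) (c (l 178408123559) (l 16380536))))))) (a (a (l 3) (b (l 3) (c (b (l 171428797015) (a (l 175186895239) (l 181092477239))) (l 160691337927)))) (c (b (a (b (l 170355054519) (a (l 173039411047) (l 180018735959))) (l 150490803991)) (l 159617628391)) (b (a (l 160691336951) (l 16363728)) (l 16368176)))))) (b (b (a (l 3) (a (l 3) (b (l 3) (a (l 3) (b (l 3) (c (l 181092478919) (l 16380184))))))) (a (b (l 3) (a (l 3) (b (l 3) (a (l 16378896) (c (l 181092478519) (l 16380240)))))) (b (a (a (l 3) (b (l 3) (c (l 182166220407) (l 16380184)))) (c (b (a (l 181629349815) (l 16384248)) (l 16386424)) (l 16362864))) (a (a (b (c (l 183239962263) (l 16380200)) (l 16384072)) (l 16386096)) (l 16392360))))) (a (a (b (b (a (l 170355053527) (b (l 16378848) (a (l 174113155703) (l 16381424)))) (c (l 150490803095) (l 16363432))) (l 16397648)) (b (a (c (c (l 152101422983) (l 16366104)) (l 16365360))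 (l 16390704)) (l 16405960))) (l 16409792)))) (a (b (a (b (b (a (c (b (a (l 3) (l 176260637287)) (a (b (l 16378992) (l 180555605303)) (l 16382448))) (l 161228209895)) (l 156933260535)) (l 16374776)) (l 16403648)) (l 16411408)) (l 16438336)) (l 16411904))), by decide +kernel⟩

def k14_pm_102_a : ∃ t, chk3 f_pm_102_a t 91 22 1 = true :=
  ⟨(b (a (b (l 3) (b (a (l 3) (a (l 171965662983) (b (l 3) (a (b (l 171428799223) (a (b (l 16381976) (l 176797517479)) (l 149953932119))) (a (b (b (l 3) (l 180555614615)) (l 16389560)) (l 158007013671)))))) (a (a (a (l 3) (c (l 170891943127) (l 174113145575))) (b (l 172502536551) (b (a (l 174113153767) (a (b (l 177334382903) (l 181629353335)) (l 16364560))) (a (a (b (l 178944995591) (l 183239965399)) (l 16364568)) (l 16391688))))) (a (b (a (b (l 172502541015) (a (b (l 16381360) (l 180018741383)) (l 151027673959))) (a (b (b (l 16381648) (l 178408129383)) (l 16389488)) (l 159080755863))) (l 16400088)) (l 16408528))))) (b (a (b (l 3) (a (l 3) (b (l 3) (a (b (l 3) (c (b (l 180018744471)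 (l 191293036951)) (l 16364384))) (b (l 162838835655) (l 16392400)))))) (b (a (l 3) (b (l 3) (a (l 163375708807) (b (l 162838838679) (l 16393848))))) (a (b (a (b (l 3) (l 162838836359)) (b (l 162838836967) (l 16393032))) (l 16380104)) (l 16389000)))) (a (b (a (b (a (b (l 3) (c (b (l 181629355975) (l 191829911271)) (l 16363720))) (a (b (l 182703098791) (l 16389824)) (l 157470143575))) (l 16400232)) (l 16408904)) (l 16433920)) (l 16430176)))) (a (b (a (b (a (b (a (b (c (l 173576283015) (l 176797506359)) (a (b (c (l 180018737143) (l 16380208)) (l 16383664)) (l 16385712))) (a (b (b (l 180555608295) (l 16383552)) (l 16389840)) (l 16368856))) (l 16400608)) (l 16408832)) (l 16434840)) (l 16430240)) (l 16461720)) (b (l 16480640) (l 16570192)))), by decide +kernel⟩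

def k15_pm_102_a : ∃ t, chk3 f_pm_102_a t 45 23 1 = true :=
  ⟨(a (b (a (b (a (b (a (b (a (b (b (a (c (b (l 173576282215) (l 183239960183)) (l 181629345415)) (l 16382720)) (l 16385144)) (l 16391832)) (l 16395472)) (l 16409304)) (l 16416592)) (l 16444368)) (l 16438016)) (l 16473072)) (b (l 16466208) (l 16580184))) (b (l 16536848) (l 16590144))) (a (b (l 16546904) (l 16694112)) (l 16534856))), by decide +kernel⟩

def k16_pm_102_a : ∃ t, chk3 f_pm_102_a t 23 4 1 = true :=
  ⟨(a (l 3) (b (l 3) (a (l 3) (b (l 3) (b (l 3) (l 191830033063)))))), by decide +kernel⟩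

def k17_pm_102_a : ∃ t, chk3 f_pm_102_a t 23 10 1 = true :=
  ⟨(a (b (l 3) (a (b (l 3) (a (b (l 3) (a (b (l 3) (a (l 3) (b (l 3) (a (l 163375712839) (c (l 150490825991) (l 16372264)))))) (b (a (l 3) (b (l 3) (a (l 163375718263) (l 152638318823)))) (a (b (a (l 163375715415) (l 153175186711)) (l 16383856)) (l 16414112))))) (b (a (b (l 3) (a (l 3) (b (l 3) (l 173576291527)))) (b (a (l 3) (b (l 3) (l 174113170919))) (a (b (l 173576295463) (l 16390256)) (l 16420872)))) (a (b (a (b (a (l 163912592439) (l 152101451207)) (l 16386728)) (l 16417168)) (l 16439928)) (l 16458752))))) (b (a (b (l 3) (a (b (l 3) (a (l 3) (l 171428820311))) (b (l 166596997895) (a (b (l 176797540935) (l 16420184)) (l 16430208))))) (b (a (b (l 3) (l 167133857751)) (b (l 167670739943) (a (l 139753463607) (l 16442088)))) (a (b (a (l 140827193447) (l 16435832)) (l 16456336)) (l 16476568)))) (a (b (a (b (a (b (l 175186917575) (l 16415384)) (l 16425224)) (l 16446848)) (l 16466400)) (l 16510272)) (l 16485216))))) (b (a (b (l 3) (a (b (l 3) (a (l 166060123831)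 (b (l 167670764327) (l 16428128)))) (b (a (l 166597021271) (b (l 168207663255) (l 16465432))) (l 129552943319)))) (b (a (b (l 3) (a (l 167670793127) (l 129016105287))) (b (a (l 168207697607) (l 16497136)) (l 16523832))) (a (l 127405490183) (l 16576336)))) (a (b (a (b (a (b (l 134921632807) (l 16468344)) (l 16489200)) (l 16528272)) (l 16526400)) (l 16542824)) (l 16531008)))), by decide +kernel⟩

def k18_pm_102_a : ∃ t, chk3 f_pm_102_a t 23 11 1 = true :=
  ⟨(a (b (a (b (a (b (a (b (a (b (a (l 163375710519) (c (l 151564565639) (l 16376256))) (l 16381640)) (l 16390736)) (l 16435616)) (l 16432688)) (l 16481048)) (l 16453360)) (l 16488560)) (a (l 16501040) (l 16564944))) (a (b (l 16643184) (l 16587336)) (b (l 16605488) (b (l 16541448) (l 16513192))))) (a (b (l 16585728) (b (b (l 16559888) (l 16515304)) (l 16514856))) (b (a (l 16577832) (l 16512336)) (b (l 16486376) (l 16538552))))), by decide +kernel⟩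

def k19_pm_102_a : ∃ t, chk3 f_pm_102_a t 4 6 1 = true :=
  ⟨(a (l 2) (a (l 3) (b (l 3) (b (l 3) (a (a (l 3) (b (l 3) (a (l 86066852359) (b (l 3) (l 16668000))))) (a (b (a (l 3) (l 125795378263)) (a (b (l 16688480) (a (l 16709104) (l 16718344))) (b (a (l 16725456) (l 16723640)) (l 16728776)))) (b (a (b (l 131700931127) (b (l 16675624) (l 16681984))) (b (b (a (l 3) (l 16641696)) (a (l 16676840) (l 16670560))) (a (l 16691648) (l 16690872)))) (a (b (l 16696824) (l 16735528)) (b (l 16697392) (l 16728072)))))))))), by decide +kernel⟩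

def k20_pm_102_a : ∃ t, chk3 f_pm_102_a t 8 14 1 = true :=
  ⟨(a (l 2) (b (l 3) (a (l 3) (b (l 3) (a (l 3) (b (a (l 3) (l 187535550871)) (a (b (l 192904294295) (a (l 166060754871) (l 16711704))) (b (a (l 123111063479) (l 16706464)) (l 16710984))))))))), by decide +kernel⟩

def k21_pm_102_a : ∃ t, chk3 f_pm_102_a t 16 30 1 = true :=
  ⟨(a (l 2) (b (l 3) (a (l 3) (b (l 3) (a (l 3) (b (l 3) (a (b (l 3) (a (l 198273063767) (l 158007735255))) (b (l 2740027398933090836536323695) (l 2130728821587902036201385583))))))))), by decide +kernel⟩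

def k22_pm_102_a : ∃ t, chk3 f_pm_102_a t 32 31 1 = true :=
  ⟨(b (a (l 2) (b (l 3) (a (l 3) (b (l 3) (a (l 3) (b (l 3) (a (l 6) (b (l 3097267949996450058772332655) (l 2081770261520147601964302447))))))))) (a (l 6) (a (l 6) (a (l 6) (a (l 6) (b (b (b (l 16758600) (l 603045248469974889541231)) (l 16760872)) (b (b (l 143806740672774255) (l 16752320)) (a (l 6) (c (l 144023619352985711) (l 144030078991089775)))))))))), by decide +kernel⟩

def k23_pm_102_a : ∃ t, chk3 f_pm_102_a t 33 62 1 = true :=
  ⟨(a (b (a (l 3) (b (l 3) (a (b (l 3) (a (l 3) (l 190756884151))) (b (l 3204256159108719372077969007) (a (l 2807728282172773066007096943) (l 1995330077204445356693368431)))))) (a (b (a (l 3) (b (l 3) (a (l 3039239510654900716818301039) (b (l 2739425907390435023213772911) (l 16751432))))) (a (b (a (b (l 3) (l 3000553884427267836324298863)) (b (l 2923182631971883259348959343) (l 1907684943495613306853490799))) (a (l 1830313691040288240948559983) (l 16756512))) (b (a (l 1714256812357229002030825583) (l 16754488)) (a (l 602758459187910848147055)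 (l 16758080))))) (b (a (b (a (l 2933456773209262306058940015) (l 2130729955198128258746150511)) (l 602370212709125224787567)) (b (l 602965120266593979575919) (l 602510004356965143670383))) (a (b (a (l 16755520) (l 16756176)) (l 16758704)) (b (l 16757104) (l 16760264)))))) (a (b (b (a (a (l 3) (l 3175241699630256693309845103)) (b (a (l 3) (l 170892645399)) (a (l 2382185992739924945894354543) (l 16743912)))) (a (b (a (l 2507914476858828877053062767) (l 103246919143)) (l 16748376)) (b (l 16746592) (l 602104464339902906740335)))) (b (a (b (l 602328130959239400795759) (l 16744808)) (l 601708435681436992712303)) (l 16747264))) (b (b (a (b (l 2188757558671427743846166127) (l 16744832)) (l 601302318959255978782319)) (a (b (l 16747928) (l 16746120)) (l 601071158284100142001775))) (l 601762623049121940631151)))), by decide +kernel⟩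

def k24_pm_102_a : ∃ t, chk3 f_pm_102_a t 66 63 1 = true :=
  ⟨(a (b (b (a (b (a (l 602899115462489062026863) (l 16757296)) (l 602738571129022462766703)) (b (l 16760024) (l 16760936))) (a (l 16761232) (l 143625458698305647))) (b (b (l 143538184932180079) (l 143739876627906671)) (b (l 143880270510145647) (a (a (c (l 143968918645211247) (l 144019015150862447)) (c (l 144020183368024175) (l 143977714738217071))) (a (c (l 143935039929270383) (l 143957579924127855)) (b (l 143881370037141615) (c (l 143894770312888431) (l 143892296412545263)))))))) (b (b (l 602202462588217362525807) (b (l 143655489119715439) (l 143572338524782703))) (b (l 143713763176415343) (b (l 143691910390890607) (c (b (l 143754101499887855) (a (a (l 143842612220788975) (c (l 143791416201068783) (l 143787086874116335))) (b (l 143637553270210799) (a (a (c (l 143775404563562735) (l 143769975714103535)) (b (l 143800281010618607) (c (l 143737471405981935) (l 143753826638627055)))) (b (l 143712869828657391) (b (c (l 143745717736390895) (l 143738364752117999))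 (c (a (l 143738021154013423) (c (l 143711632870605039) (l 143707647140790511))) (a (c (l 143743999750340847) (l 143740632495866095)) (a (c (l 143722353111302383) (l 143718642259411183)) (c (l 143707784579629295) (l 143703936287424751))))))))))) (b (l 143744343334125807) (a (a (c (l 143838626480767215) (l 143836152590598383)) (c (l 143805572413440239) (a (l 143793546507583727) (l 143809764301750511)))) (b (l 143624977605591279) (a (a (c (l 143764890478149871) (c (l 143761248345850095) (l 143758843164147951))) (c (c (l 143737333962916079) (l 143734447744827631)) (c (l 143731630246215919) (a (l 143736440610816239) (l 143721391042789615))))) (b (l 143698851044114671) (b (c (l 143686344107966703) (l 143679678318461167)) (a (c (c (l 143714793969811695) (b (l 143736784205332719) (l 143731492803526895))) (a (c (l 143738570912563439) (l 143735615973621999)) (c (l 143723383904207087) (a (l 143724071100874991) (l 143716443236942063))))) (b (c (l 143708471775707375) (l 143701462388769007)) (a (c (c (l 143712457505980655) (l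 143708952812536047)) (c (a (l 143709365129920751) (l 143701668546511087)) (c (l 143703042937290991) (l 143701393669112047)))) (c (c (l 143697476656742639) (c (l 143694659158753519) (l 143692872452276463))) (c (c (l 143691085745799407) (l 143689299038650607)) (a (c (l 143691429343690991) (l 143689711356690671)) (c (l 143683664041459951) (l 143681877334474991))))))))))))))))))), by decide +kernel⟩

def k25_pm_102_a : ∃ t, chk3 f_pm_102_a t 67 126 1 = true :=
  ⟨(a (b (a (l 16769872) (l 16754608)) (l 601867250414118684978799)) (b (l 143459707281195119) (l 601557403105689458257135))), by decide +kernel⟩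

def k26_pm_102_a : ∃ t, chk3 f_pm_102_a t 67 254 1 = true :=
  ⟨(b (a (l 602903150833028143558383) (l 601851974684119500254319)) (a (l 601783087425138873887983) (l 601385617797860898418287))), by decide +kernel⟩

def k27_pm_102_a : ∃ t, chk3 f_pm_102_a t 134 510 1 = true :=
  ⟨(a (l 602087170527641730067695) (l 602148275289183119076591)), by decide +kernel⟩

def k28_pm_102_a : ∃ t, chk3 f_pm_102_a t 268 1022 1 = true :=
  ⟨(a (l 143675898753827055) (c (l 143749978345275631) (l 602569091741031504653551))), by decide +kernel⟩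

def k29_pm_102_a : ∃ t, chk3 f_pm_102_a t 1072 2046 1 = true :=
  ⟨(c (l 143747023405482223) (l 143730668169183471)), by decide +kernel⟩

def k30_pm_102_a : ∃ t, chk3 f_pm_102_a t 1072 2047 2 = true :=
  ⟨(b (l 143714793966272751) (b (c (l 143703180372607215) (l 143694659157082351)) (a (c (c (l 143690261109489903) (l 143691635498828015)) (c (a (l 143696789461401839) (l 143678166480552175)) (c (l 143690054951878895) (l 143688062085628143)))) (c (b (l 143688611841081583) (a (c (c (l 143689299035881711) (l 143687100012527855)) (c (l 143684900989173999) (l 143677066968711407))) (c (c (l 143682495806390511) (l 143680159344066799)) (b (l 143680434222006511) (c (l 143679747026911471) (l 143677479284064495)))))) (b (l 143679884467110127) (b (c (l 143678441357639919) (l 143674112030392559)) (c (a (c (l 143679265991672047) (l 143671500690702575)) (c (l 143675211541233903) (l 143673012517863663))) (a (c (l 143669370386825455) (l 143667308802425071)) (c (l 143670744774361327) (l 143668614470467823)))))))))), by decide +kernel⟩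

def k31_pm_102_a : ∃ t, chk3 f_pm_102_a t 1072 2047 3 = true :=
  ⟨(b (l 143698438730006767) (b (c (l 143686481538957551) (l 143678716237693167)) (c (b (c (l 143680709101863151) (l 143676723372015855)) (a (c (c (l 143683389162078447) (l 143681396296483055)) (c (l 143679472151036143) (b (l 143678922395992303) (l 143676242335351023)))) (a (c (a (c (l 143673974592094447) (l 143671913007694063)) (c (l 143664766181540079) (l 143662704597139695))) (c (c (l 143663048194785519) (l 143662017402568943)) (c (l 143661055329845487) (l 143660024537645295)))) (c (c (a (l 143668064715751663) (l 143666690324873455)) (c (l 143660161974845679) (l 143659062463152367))) (b (l 143663048193540335) (c (c (l 143662704595845359) (l 143661605084168431)) (c (l 143660574291296495) (l 143659543499096303)))))))) (b (c (l 143672806361645295) (l 143669026790228207)) (a (a (c (c (l 143679540871676143) (l 143677685445722351)) (c (l 143675898738721007) (c (l 143674524349628655) (l 143673630996381935)))) (b (c (l 143672187886452975) (l 143668477034529007))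 (c (c (l 143670469899206895) (l 143668614472909039)) (c (c (l 143667171364159727) (l 143666278010913007)) (c (l 143665315938189551) (l 143664422584598767)))))) (c (b (l 143661811243434223) (c (a (c (l 143657756794667247) (l 143656726002467055)) (c (l 143658512707223791) (l 143657481914843375))) (a (a (l 143662773316354287) (c (l 143659543500620015) (l 143658581427896559))) (a (c (l 143657344476692719) (l 143656313684476143)) (c (l 143655626488742127) (l 143654595696541935)))))) (b (l 143657894233047279) (b (c (l 143651434601988335) (l 143649510456541423)) (c (a (c (a (l 143660643012739311) (l 143657000879784175)) (a (l 143659680940015855) (l 143656038807060719))) (a (c (l 143654801855840495) (l 143653839783117039)) (c (l 143653083867906287) (c (l 143652259234480367) (l 143651778198110447))))) (a (c (a (l 143658787586769135) (l 143655076734337263)) (a (l 143657825514045679) (l 143651297162903791))) (a (c (l 143652877710147823) (c (l 143652121796100335) (l 143651640759746799))) (b (l 143650747405943023) (c (c (l 143651022283800815)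 (l 143650541247430895)) (c (l 143649991491420399) (l 143649510455050479))))))))))))))), by decide +kernel⟩

def k32_pm_102_a : ∃ t, chk3 f_pm_102_a t 1073 2046 1 = true :=
  ⟨(c (l 143720085366636783) (l 143703386532839663)), by decide +kernel⟩

def k33_pm_102_a : ∃ t, chk3 f_pm_102_a t 1073 4094 1 = true :=
  ⟨(c (c (l 143696926898602223) (l 143687924646674671)) (c (l 143679265992147183) (l 143671019654463727))), by decide +kernel⟩

def k34_pm_102_a : ∃ t, chk3 f_pm_102_a t 1073 8190 1 = true :=
  ⟨(c (c (l 143684900987846895) (l 143675692577505519)) (c (l 143666759045071087) (l 143658237829497071))), by decide +kernel⟩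

def k35_pm_102_a : ∃ t, chk3 f_pm_102_a t 2146 16382 1 = true :=
  ⟨(c (c (l 143682152208089327) (l 143667102642225391)) (c (c (l 143665865691300079) (l 143661467644559599)) (c (l 143657138317312239) (l 143652877709525231)))), by decide +kernel⟩

def k36_pm_102_a : ∃ t, chk3 f_pm_102_a t 2146 32766 1 = true :=
  ⟨(c (c (c (l 143676242332614895) (l 143671363249537263)) (c (l 143666621605429487) (l 143667583677874415))) (c (c (l 143662979472703727) (l 143658512706486511)) (c (l 143654183379222767) (l 143649854051975407)))), by decide +kernel⟩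

def k37_pm_102_a : ∃ t, chk3 f_pm_102_a t 4292 32767 2 = true :=
  ⟨(a (c (c (c (l 143683114280501487) (l 143679265989705967)) (c (a (l 143678510075511023) (l 143678029038846191)) (c (l 143676517210439919) (l 143675280259793135)))) (c (c (c (l 143674112028639471) (l 143672943797485807)) (c (l 143671775566315759) (l 143670607335162095))) (c (c (l 143669439103992047) (l 143668270872838383)) (c (l 143667171361161455) (l 143666003129991407))))) (b (c (c (l 143681327573631215) (l 143676379771093231)) (c (l 143671569407492335) (l 143666827763368175))) (a (a (c (c (c (c (l 143682770682642671) (l 143681533732012271)) (c (l 143680296781381871) (l 143679059830735087))) (c (c (l 143677822880104687) (l 143676585929457903)) (c (l 143675348978827503) (l 143674180747657455)))) (c (c (c (l 143672943797027055) (l 143671775565857007)) (c (l 143670538615226607) (l 143669370384072943))) (c (b (l 143667858555535599) (c (l 143667927274946799) (l 143666071849025775))) (a (c (l 143665934410105071) (l 143664766178935023)) (c (l 143665728251592943)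 (l 143663872825655535)))))) (c (c (c (l 143681877329330415) (l 143678647513809135)) (c (c (l 143677479282622703) (l 143676242331975919)) (c (l 143675074100822255) (l 143673837150191855)))) (c (c (c (l 143672600199545071) (l 143671431968391407)) (c (l 143670195017744623) (l 143669026786590959))) (c (c (l 143667858555420911) (l 143666690324267247)) (c (l 143665522093097199) (l 143664353861943535)))))) (l 14)))), by decide +kernel⟩

def k38_pm_102_a : ∃ t, chk3 f_pm_102_a t 4292 32767 6 = true :=
  ⟨(c (a (c (c (l 143664903618314479) (l 143663735387144431)) (c (l 143662635875467503) (l 143661536363790575))) (a (c (c (a (c (l 143664285142614255) (l 143663735386767599)) (l 143663666667208943)) (a (c (l 143663116911460591) (l 143662567155613935)) (l 143662498436055279))) (c (a (c (l 143662017399767279) (l 143661398924443887)) (l 143661330204885231)) (a (c (l 143660849168613615) (l 143660299412766959)) (l 143660230693208303)))) (b (l 143661879960748271) (l 14)))) (a (c (c (l 143660368131948783) (l 143659268620271855))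 (c (l 143658169108922607) (l 143657138316542191))) (b (l 143657688072503535) (a (c (a (c (c (l 143659199901008111) (l 143658650145177839)) (c (l 143658100389331183) (l 143657550633484527))) (c (l 143658581425619183) (l 143657481913925871))) (c (a (c (l 143657000877637871) (l 143655695207563503)) (l 143656313682772207)) (a (a (l 143655695207563503) (c (l 143655763926958319) (l 143655214171128047))) (l 143655214171078895)))) (l 14))))), by decide +kernel⟩

def k39_pm_102_a : ∃ t, chk3 f_pm_102_a t 4292 32767 7 = true :=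
  ⟨(c (a (c (c (a (l 143656451122397423) (l 143655626488004847)) (c (l 143655214171603183) (l 143654664415756527))) (c (c (l 143654114659582191) (l 143653633623228655)) (c (l 143653083867381999) (l 143652534111535343)))) (b (l 143653290025763055) (c (a (a (a (c (l 143654595695706351) (c (l 143653771062116591) (l 143653221306269935))) (c (c (l 143654664415281391) (l 143654114659434735)) (c (l 143653564903604463) (l 143652327952990447)))) (c (l 143654114659401967) (b (l 143653290025664751) (l 143652740269670639)))) (l 14)) (a (b (l 143651778197143791) (a (c (c (a (l 143652396672467183) (l 143651846916571375)) (c (l 143651915636064495) (l 143650953563390191))) (a (c (l 143651365880266991) (l 143650816124420335)) (a (c (l 143651159721771247) (l 143650609965924591)) (c (l 143651091002261743) (l 143650541246415087))))) (b (l 143651228441215215) (b (l 143651091002212591) (l 14))))) (l 14))))) (a (c (c (c (l 143651984355688687) (l 143651503319417071)) (a (c (l 143651434600333551) (l 143650884844486895)) (c (l 143650472526971119)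 (l 143649991490617583)))) (b (l 143649647893758191) (c (a (c (l 143649854052221167) (l 143649373015851247)) (c (l 143648960698499311) (l 143648410942669039))) (c (a (l 143648823260004591) (a (l 143648136064991471) (l 143647655028392175))) (a (l 143648342223487215) (c (l 143647517589586159) (l 143647242711498991))))))) (b (l 143648960698515695) (a (b (c (l 143649647893250287) (l 143647517589356783)) (a (a (c (c (c (l 143650266368573679) (l 143649716612743407)) (c (l 143649166856896751) (l 143648617101050095))) (c (c (l 143648136064696559) (l 143647586308849903)) (c (l 143647036552921327) (c (l 143646624236126447) (l 143646418077679855))))) (c (b (l 143649373015277807) (c (c (c (l 143650060210045167) (l 143649785332121839)) (c (l 143649510454198511) (l 143649235576291567))) (c (c (l 143648960698368239) (l 143648685820444911)) (c (l 143648410942521583) (l 143647998625644783))))) (c (a (c (l 143647929906200815) (l 143647380150354159)) (c (c (l 143647929906168047) (l 143647655028244719)) (c (l 143647448869798127) (l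 143647173991792879)))) (a (c (c (l 143646967833477359) (l 143646761675030767)) (c (l 143646486797107439) (l 143646211919184111))) (a (c (c (l 143646899113967855) (l 143646624236044527)) (c (l 143646349358121199) (l 143646143199674607))) (c (l 143646761674981615) (l 143646211919151343))))))) (b (c (l 143649098137321711) (l 143646899113951471)) (b (b (c (l 143648891978858735) (l 143646761674965231)) (l 14)) (l 14))))) (l 14))))), by decide +kernel⟩

def k40_pm_102_a : ∃ t, chk3 f_pm_102_a t 4293 32767 1 = true :=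
  ⟨(l 14), by decide +kernel⟩

def k41_pm_102_a : ∃ t, chk3 f_pm_102_a t 2147 8191 1 = true :=
  ⟨(l 14), by decide +kernel⟩

def k42_pm_102_a : ∃ t, chk3 f_pm_102_a t 537 1023 1 = true :=
  ⟨(b (c (l 143698782326112495) (l 143682839406510319)) (l 14)), by decide +kernel⟩

def k43_pm_102_a : ∃ t, chk3 f_pm_102_a t 269 511 1 = true :=
  ⟨(b (c (l 143720222806163695) (l 143705310678565103)) (l 14)), by decide +kernel⟩

def k44_pm_102_a : ∃ t, chk3 f_pm_102_a t 135 255 1 = true :=
  ⟨(b (a (l 143601819155759215) (l 143577148855435375)) (b (c (l 143496266020438127) (l 143479017430417519)) (l 14))), by decide +kernel⟩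

def k45_pm_102_a : ∃ t, chk3 f_pm_102_a t 17 30 1 = true :=
  ⟨(a (b (a (l 3) (b (l 3) (a (b (l 3) (a (l 3) (l 180019427671))) (b (a (l 3) (l 168745132151)) (a (l 124184846855) (l 16726976)))))) (a (b (a (b (l 3) (a (l 3) (l 200420533991))) (b (a (l 3) (l 191293722775)) (a (b (l 192904339831) (l 144049086199)) (b (l 122037375815) (l 16734328))))) (a (b (a (b (l 3) (a (l 182166930471) (l 130627320023))) (b (a (l 172503251143) (l 120426770087)) (l 16737456))) (a (b (l 96804455239) (l 16741376)) (l 16740904))) (b (a (l 16736936) (l 16737224)) (a (l 599915066133342859177583) (l 599751639531505319177839))))) (b (a (b (a (b (l 177871948423) (l 113447438839)) (l 95730694887)) (l 16728464)) (b (l 16730272) (a (l 599325203352444598181423) (l 599157453273524305501743)))) (a (b (a (l 599248822302764402171439) (l 599079631071963351031343)) (l 16730608)) (a (l 16731848) (l 16739144)))))) (b (a (b (a (b (l 3) (a (l 195051800775) (l 137069735351))) (b (a (l 181093149383) (l 123111082791)) (l 90898831927))) (a (b (a (l 110763067335)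 (l 16723448)) (l 16726776)) (b (l 16723168) (a (l 16727504) (l 16708440))))) (b (a (b (l 16715576) (l 16719400)) (b (l 16715568) (a (l 16720648) (l 16723280)))) (a (b (a (l 16724016) (l 16726216)) (l 16716528)) (a (l 16719136) (l 16728712))))) (a (b (a (b (a (l 16731064) (l 598474347282044741311535)) (l 16723104)) (b (l 16719656) (l 16759808))) (a (l 16730424) (l 16702640))) (b (l 596737037567601200441391) (a (l 16648776) (l 16636424)))))), by decide +kernel⟩

def k46_pm_102_a : ∃ t, chk3 f_pm_102_a t 34 31 1 = true :=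
  ⟨(a (b (b (b (a (a (b (l 16743936) (l 16736816)) (l 600416298826671210868335)) (l 16734448)) (a (l 16737840) (l 16767552))) (a (l 599903248606281890229871) (b (l 16751672) (l 600200126102213035060847)))) (b (a (b (l 601420493579573143284847) (l 143809420694962287)) (l 143344602049429551)) (b (a (l 143566840906874927) (l 142718773667430447)) (b (a (l 143543682415558703) (l 143493998021066799)) (b (a (c (l 143447337738682415) (l 143409816868487215)) (c (l 142984855539335215) (l 141760617749954607))) (l 14)))))) (b (b (a (l 16744944) (l 16694984)) (a (b (l 16687912) (l 142867826225168431)) (l 142271409766760495))) (b (a (l 142265980902277167) (l 140885406392827951)) (a (b (a (l 141497903217016879) (l 140761092850565167)) (b (a (l 140978383888908335) (l 140176152570036271)) (b (a (c (l 141515083101749295) (l 139880933657575471)) (c (l 140638566015860783) (l 139084199898791983))) (a (l 14) (c (a (l 14) (l 140773324840255535)) (l 138855501442809903)))))) (b (l 140905678433058863) (c (b (l 139677042919800879) (b (l 139558639211135023)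 (l 139361826680881199))) (a (l 138424286643372079) (b (l 16225208) (c (l 137853090247049263) (l 16155008)))))))))), by decide +kernel⟩

def k47_pm_102_a : ∃ t, chk3 f_pm_102_a t 35 31 1 = true :=
  ⟨(b (a (b (l 142508010958995503) (a (l 141453716552286255) (l 589830170712983863715887))) (b (a (b (l 16546680) (l 141226529894547503)) (b (l 16488600) (l 16415920))) (a (b (l 16402400) (l 16326728)) (b (l 16340432) (l 16263520))))) (b (a (a (b (l 140200410522419247) (l 139313310648008751)) (c (l 139275652352000047) (b (l 16287176) (l 16205224)))) (b (a (l 16249160) (l 16185488)) (a (a (l 16187952) (l 16153776)) (a (l 16121864) (l 16091920))))) (a (b (c (a (l 138978028266471471) (b (l 16228856) (l 16233760))) (a (b (l 16249728) (l 16187536)) (a (l 16141976) (l 16102920)))) (a (c (a (l 138441260343099439) (a (l 137992247197663279) (b (l 16212608) (l 16176152)))) (b (a (l 16171112) (l 16122704)) (a (c (l 16158304) (l 16101576)) (l 16080984)))) (a (b (c (l 16176976) (l 16079224)) (c (a (l 16151808) (l 16128840)) (l 16037336)))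 (b (l 16128744) (c (a (l 16107000) (l 16086224)) (l 15997944)))))) (a (b (b (l 16111176) (a (l 16088984) (l 16054552))) (a (b (l 16049168) (c (l 16056656) (l 15962072))) (c (l 16038984) (l 15950168)))) (b (l 16027240) (c (b (l 16008456) (a (l 15986176) (l 15954920))) (a (l 15919688) (l 15891464)))))))), by decide +kernel⟩

def k48_pm_102_a : ∃ t, chk3 f_pm_102_a t 18 14 1 = true :=
  ⟨(a (b (l 3) (b (a (a (l 3) (b (l 3) (b (l 3) (l 108078633143)))) (a (b (l 128479720391) (b (l 94656840199) (l 16687888))) (b (b (l 118816004983) (l 72645109847)) (l 16664576)))) (a (b (a (b (l 170892547511) (l 71571435863)) (b (l 16694760) (l 16700992))) (a (l 16708872) (b (l 16707832) (a (l 16714456) (l 16718472))))) (b (a (l 16699872) (b (l 16700408) (l 16713448))) (a (b (l 16693992) (l 16708104)) (b (l 16707344) (l 16751944))))))) (b (a (b (l 3) (b (l 3) (a (a (l 3) (l 39359073735)) (b (a (l 16648328) (l 71034449783)) (a (l 16655072) (l 16658864)))))) (b (a (l 3) (b (l 3) (a (l 3) (l 57612657927)))) (b (a (b (l 31842860439) (a (l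 16622360) (l 16647128))) (a (b (l 74255662679) (l 16654432)) (l 16636472))) (a (b (l 16634352) (l 16668008)) (l 16677368))))) (b (a (b (a (a (l 89288089863) (l 16669112)) (l 16654232)) (a (l 16691024) (b (l 16695272) (l 16711664)))) (b (a (l 16688336) (b (l 16697640) (l 16693992))) (a (b (l 16712320) (l 16710320)) (l 16681824)))) (a (b (a (b (l 16712176) (l 16707400)) (a (l 16713352) (l 16728120))) (a (l 16724080) (l 16755768))) (b (a (l 16746704) (l 16750336)) (a (l 16738976) (l 16719576))))))), by decide +kernel⟩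

def k49_pm_102_a : ∃ t, chk3 f_pm_102_a t 19 14 1 = true :=
  ⟨(a (b (a (b (a (b (l 3) (a (l 68350080215) (l 95193639895))) (b (b (l 16659272) (l 115057876263)) (l 122574077831))) (b (a (l 16640808) (l 16672656)) (a (l 16676152) (b (l 16707608) (l 16699216))))) (b (b (a (l 100562391399) (l 16676616)) (a (l 16653768) (l 16710784))) (b (a (l 16709144) (b (l 16717160) (l 16723128))) (a (b (l 16701816) (l 16737320)) (l 16722328))))) (a (b (b (a (b (l 16696368) (l 16714280)) (l 16705864)) (a (l 16761672) (l 16753736))) (b (a (l 16743080) (l 16738960)) (a (l 16674792) (l 16625664)))) (b (b (a (l 16764536) (l 16762624)) (a (l 16752216) (l 16755320))) (l 16674320)))) (b (a (b (b (a (l 16696440) (l 16725304)) (a (l 16719496) (b (l 16717360) (l 16717136)))) (b (a (b (l 16721424) (l 16731592)) (l 16733824)) (a (l 16754288) (l 16759752)))) (b (b (a (l 16719592) (b (l 16708592) (l 16704288))) (a (b (l 16711528) (l 16720896)) (l 16719568))) (l 16691400))) (b (a (l 16738912) (l 16639464)) (a (b (l 16572696) (l 16459480)) (l 16362952))))),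 by decide +kernel⟩

def k50_pm_102_a : ∃ t, chk3 f_pm_102_a t 18 30 1 = true :=
  ⟨(a (b (a (b (a (b (a (l 16717432) (l 16720680)) (l 16711336)) (a (l 16714928) (l 16725816))) (l 16709616)) (b (a (l 16742448) (l 16741688)) (a (l 16710880) (l 16662912)))) (a (b (a (l 16677800) (l 16648632)) (a (l 16540872) (b (l 16524640) (l 16453840)))) (a (b (l 16578328) (b (l 16475096) (l 16403392))) (b (l 16529880) (b (l 16425512) (l 16354104)))))) (b (a (b (a (l 16716936) (l 16694616)) (a (l 16615336) (l 16567824))) (b (a (l 16648128) (l 16600360)) (a (l 16520024) (l 16471056)))) (a (b (a (l 16481568) (l 16432840)) (b (a (l 16376792) (l 16329584)) (l 16282640))) (b (b (l 16395960) (a (l 16352000) (l 16306808))) (l 16228872))))), by decide +kernel⟩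

def k51_pm_102_a : ∃ t, chk3 f_pm_102_a t 36 31 1 = true :=
  ⟨(b (a (b (b (a (l 16433776) (l 16381000)) (a (l 16359408) (l 16306168))) (a (b (l 16283408) (l 16206376)) (b (l 16230400) (l 16153832)))) (b (a (l 16292912) (l 16244328)) (a (l 16142920) (l 16097416)))) (a (b (a (b (l 16128552) (l 16050104)) (b (l 16076872) (l 15999520))) (b (a (b (l 15991024) (l 15951488)) (b (l 15941344) (l 15902464))) (a (b (a (l 15925016) (l 15899176)) (a (c (l 15925952) (l 15844520)) (b (l 15869536) (c (l 15889536) (l 15810048))))) (b (a (l 15875024) (l 15852416)) (a (b (l 15866632) (c (l 15864520) (a (l 15793112) (l 15782328)))) (b (c (l 15859896) (l 15786936)) (c (b (l 15845880) (l 15836536)) (b (l 15771880) (l 15761840))))))))) (b (a (b (l 16029832) (l 15954048)) (b (l 15986872) (l 15913032))) (b (a (b (l 15897136) (l 15859152)) (a (l 15848512) (l 15830176))) (a (b (a (l 15831248) (l 15853344)) (a (a (b (l 15807632) (c (l 15824752) (l 15752192))) (b (l 15797576) (c (l 15814248) (l 15742840)))) (c (b (l 15817408) (a (l 15804096)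 (l 15794288))) (b (l 15748896) (b (l 15734288) (l 15745528)))))) (b (a (l 15792784) (l 15775336)) (a (c (b (l 15798192) (a (l 15784800) (l 15775640))) (b (l 15731752) (a (l 15716696) (l 15708576)))) (c (b (l 15780200) (a (l 15766784) (l 15758216))) (b (l 15715736) (b (l 15701640) (l 15692240))))))))))), by decide +kernel⟩

def k52_pm_102_a : ∃ t, chk3 f_pm_102_a t 37 31 1 = true :=
  ⟨(b (a (b (l 16134704) (a (l 16055192) (l 16015960))) (b (l 16095328) (a (l 15979800) (l 15946504)))) (a (b (a (b (l 15947680) (l 15876072)) (b (l 15911944) (l 15842776))) (b (a (b (l 15822496) (l 15786808)) (b (l 15791104) (l 15756720))) (a (b (a (l 15758968) (l 15743624)) (a (c (b (l 15763360) (b (l 15750272) (l 15752040))) (b (l 15700792) (b (l 15686960) (l 15677736)))) (a (b (l 15720808) (c (l 15734224) (l 15672072))) (c (l 15735280) (l 15674520))))) (b (a (l 15729256) (l 15715808)) (b (c (l 15725864) (l 15688696)) (a (c (l 15716040) (l 15656168)) (c (l 15702600) (l 15644472)))))))) (b (a (b (l 15879448) (l 15812856)) (b (l 15849976)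 (l 15786080))) (b (a (b (l 15763192) (l 15730184)) (b (l 15738504) (l 15706920))) (a (b (a (l 15703248) (l 15691528)) (a (c (l 15677192) (b (l 15650584) (l 15633640))) (c (l 15686368) (l 15631912)))) (b (a (l 15680624) (l 15670512)) (a (c (l 15675424) (l 15622528)) (c (l 15665304) (l 15613920))))))))), by decide +kernel⟩

def k53_pm_102_a : ∃ t, chk3 f_pm_102_a t 19 15 1 = true :=
  ⟨(b (a (b (a (b (l 16527000) (l 16422296)) (b (l 16433832) (b (l 16343536) (a (l 16304136) (l 16262976))))) (a (b (b (a (l 16327816) (l 16284592)) (l 16242912)) (l 16148696)) (b (l 16194696) (l 16078080)))) (b (a (b (l 16346280) (b (l 16261192) (l 16206040))) (b (b (l 16292952) (l 16239704)) (l 16163048))) (a (b (l 16124144) (l 16016992)) (b (l 16062968) (l 15965592))))) (a (b (a (b (l 16024360) (a (l 15915960) (l 15888096))) (b (l 15963440) (a (l 15862840) (l 15840168)))) (a (b (b (l 15811160) (a (l 15762272) (l 15741304))) (b (a (b (l 15716840) (l 15686720)) (l 15683688)) (a (b (l 15656760) (a (c (l 15655968) (l 15606056)) (l 15602160)))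 (b (l 15640984) (a (l 15616024) (l 15609624)))))) (b (a (l 15750568) (l 15733552)) (b (a (l 15668440) (l 15655896)) (a (b (l 15628032) (a (l 15603928) (l 15598928))) (b (l 15617808) (l 15592704))))))) (b (a (b (l 15912440) (l 15810944)) (b (l 15871408) (l 15780896))) (a (b (a (l 15719152) (l 15707352)) (b (a (l 15646016) (l 15638776)) (a (b (l 15610272) (l 15586760)) (l 15594376)))) (b (a (l 15698144) (l 15691552)) (a (b (l 15634168) (l 15592952)) (b (l 15632200) (l 15594184)))))))), by decide +kernel⟩

def k54_pm_102_a : ∃ t, chk3 f_pm_102_a t 40 12 1 = true :=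
  ⟨(l 3), by decide +kernel⟩

def k55_pm_102_a : ∃ t, chk3 f_pm_102_a t 41 24 1 = true :=
  ⟨(l 3), by decide +kernel⟩

def k56_pm_102_a : ∃ t, chk3 f_pm_102_a t 82 25 1 = true :=
  ⟨(b (l 3) (b (l 3) (a (l 3) (b (l 3) (a (l 3) (b (l 3) (c (a (l 143511764679) (b (l 135995566247) (l 16510272))) (a (b (l 3) (a (l 3) (c (l 142438022087) (l 144585508135)))) (b (a (l 156396686119) (c (l 135458697415) (b (a (l 3) (l 139753659319)) (a (l 135458696343) (l 16518056))))) (a (b (a (l 155322949847) (l 120963185847)) (l 16509376)) (l 16522560))))))))))), by decide +kernel⟩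

def k57_pm_102_a : ∃ t, chk3 f_pm_102_a t 83 50 1 = true :=
  ⟨(l 3), by decide +kernel⟩

def k58_pm_102_a : ∃ t, chk3 f_pm_102_a t 166 102 1 = true :=
  ⟨(b (l 3) (a (l 3) (l 3))), by decide +kernel⟩

def k59_pm_102_a : ∃ t, chk3 f_pm_102_a t 334 204 1 = true :=
  ⟨(l 3), by decide +kernel⟩

def k60_pm_102_a : ∃ t, chk3 f_pm_102_a t 335 408 1 = true :=
  ⟨(b (l 3) (b (l 3) (b (l 3) (a (l 3) (c (l 150491000215) (a (l 3) (a (l 3) (a (l 170892131031) (a (b (l 171965872551) (b (l 169281518951) (l 16482040))) (b (b (l 170355260087) (l 165523422263)) (l 16482336))))))))))), by decide +kernel⟩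

def k61_pm_102_a : ∃ t, chk3 f_pm_102_a t 670 409 1 = true :=
  ⟨(b (l 3) (a (l 3) (c (b (l 148880394535) (l 136532372407)) (c (b (l 158007202295) (a (l 152101626359) (l 16472392))) (b (a (l 3) (a (l 3) (b (l 3) (b (l 170892138647) (a (l 169818397511) (l 164449688215)))))) (a (b (l 170892139767) (c (a (l 169281528359) (l 166597174471)) (a (b (l 3) (a (l 3) (l 169818399991))) (b (a (l 170892141095) (l 166060302983)) (l 164449690743))))) (b (a (a (b (l 3) (a (l 169281527831) (l 167134044071))) (b (a (l 170355268887) (l 168207785399)) (l 16486720))) (l 16487048)) (l 16488536)))))))), by decide +kernel⟩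

def k62_pm_102_a : ∃ t, chk3 f_pm_102_a t 671 409 1 = true :=
  ⟨(b (c (a (l 146732911783) (b (l 137069236343) (l 16486720))) (a (b (l 3) (b (c (l 157470327815) (a (l 3) (a (l 3) (a (a (l 171429005719) (b (l 3) (l 169281522711))) (b (c (l 16483312) (l 171429005751)) (l 16484104)))))) (c (a (l 16483912) (l 16466416)) (a (c (l 170892136215) (a (l 3) (l 171965878007))) (a (b (a (l 171429006791) (a (l 169818394295) (l 16484176))) (a (c (l 16484480) (l 168207782199)) (l 16485024))) (l 16485360)))))) (b (a (a (c (l 168207778359) (a (l 171965874695) (b (l 3) (b (l 171965875031) (a (l 169818392359) (l 16483320)))))) (a (b (l 3) (b (b (l 169818391719) (l 163912811831)) (l 16483624))) (b (a (l 170892132311) (b (l 3) (a (l 168744649287) (l 167670907351)))) (l 16483680)))) (b (c (l 16483056) (a (b (a (l 171429003287) (l 168744648791)) (l 16483088)) (l 16483696))) (l 16485104))) (a (c (l 16485840) (b (a (b (c (l 16483888) (l 168207780343)) (l 16484944)) (l 16485560)) (l 16487056))) (l 16488216))))) (c (l 134921780039) (b (a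 (a (c (l 139216725063) (a (a (b (l 175723975239) (a (b (l 168744654983) (l 16486200)) (l 16485976))) (b (b (l 3) (a (l 169818396135) (l 168207783335))) (l 16486384))) (a (b (b (a (l 170892137143) (l 169281524663)) (l 16485408)) (l 16486944)) (l 162839073767)))) (l 16487784)) (l 16491224)) (l 16482584)))), by decide +kernel⟩

def k63_pm_102_a : ∃ t, chk3 f_pm_102_a t 334 410 1 = true :=
  ⟨(a (l 3) (a (a (l 3) (c (l 149954152279) (b (l 3) (b (l 3) (c (l 146732928727) (a (a (l 170892150615) (b (l 3) (b (l 16491560) (l 165523443079)))) (a (b (l 3) (b (l 166597184263) (l 16492472))) (c (l 141364220711) (b (l 168744666775) (l 16492576)))))))))) (b (c (l 162839079479) (c (l 166597176663) (b (l 3) (a (l 3) (b (l 3) (a (l 3) (a (l 171965887527) (a (l 169281533479) (b (l 3) (l 166597179527)))))))))) (c (l 131700550455) (a (a (b (l 169281535079) (b (c (l 16491256) (b (a (l 168207795463) (l 160154731959)) (l 158007248855))) (l 16493200))) (b (b (l 3) (c (l 16490456) (b (a (l 3) (l 167670923463)) (a (c (l 16490672) (l 167134053127))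 (l 16491120))))) (l 16493272))) (c (l 137069261607) (b (b (b (a (l 169281534631) (a (a (l 167134051031) (l 16489872)) (l 16490248))) (a (a (l 168207793639) (l 160154729895)) (l 16490992))) (l 157470375959)) (l 16495024)))))))), by decide +kernel⟩

def k64_pm_102_a : ∃ t, chk3 f_pm_102_a t 334 411 1 = true :=
  ⟨(b (a (a (l 3) (c (l 142974838599) (a (a (l 3) (b (l 3) (b (l 3) (a (l 166060318535) (b (l 166597189159) (l 152638546295)))))) (a (c (l 147269805271) (b (l 3) (b (a (l 169281542119) (b (l 3) (l 165523446807))) (b (a (l 157470383927) (l 16494736)) (l 16495472))))) (b (l 167134056599) (b (a (b (l 165523446279) (l 16494136)) (l 151564802471)) (l 16495912))))))) (a (c (l 16483664) (b (b (c (l 140290482263) (a (a (l 3) (b (l 168207798215) (a (l 166597186135) (l 16492912)))) (a (b (l 157470379991) (l 16493696)) (l 16494264)))) (a (a (c (l 16493096) (b (a (l 16492848) (l 165523445015)) (a (l 157470381735) (l 16493840)))) (l 16494016)) (l 16495632))) (l 16497600))) (l 16489256))) (a (c (a (l 139216750375) (l 16498992))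 (b (b (a (l 166060319415) (a (c (l 16495384) (c (l 140290486775) (a (b (l 167134061703) (a (l 164986578663) (l 16495704))) (l 16496000)))) (l 16497400))) (a (c (l 146196065671) (a (l 3) (a (l 166597192263) (a (b (l 166597191719) (l 16496096)) (l 154249161111))))) (l 16498352))) (a (a (a (b (l 3) (b (l 164986582023) (a (l 163375969863) (l 16497336)))) (a (b (l 166060322183) (l 148880454631)) (b (b (l 16495976) (l 152101679447)) (l 16497864)))) (a (a (b (b (l 162839096967) (l 16496888)) (l 16498392)) (l 16497920)) (l 16498712))) (l 16501384)))) (l 16484744))), by decide +kernel⟩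

def k65_pm_102_a : ∃ t, chk3 f_pm_102_a t 335 205 1 = true :=
  ⟨(b (a (c (b (a (b (l 142974822615) (l 16469016)) (l 16492096)) (l 16498080)) (b (b (a (a (l 3) (b (a (l 3) (a (l 169281529623) (b (l 171965883831) (b (l 167134046567) (l 16487648))))) (c (l 16471896) (a (c (l 167670918903) (b (l 170355272935) (a (b (l 16488016) (l 164986564551)) (l 16488512)))) (b (a (l 162302209031) (l 16488512)) (l 16489256)))))) (a (a (b (a (b (b (l 168207787671) (l 160154724439)) (l 16487928)) (l 16487976)) (l 16489744)) (l 16489832)) (l 16491520))) (a (a (c (l 140290474327) (a (b (l 169818403079) (b (a (l 168207791767) (l 160691598759)) (l 16490048))) (c (l 138142991751) (b (b (a (l 170355273623) (b (l 169281532071) (l 16488704))) (a (l 163912823991) (l 16489432))) (l 16490688))))) (l 16491152)) (l 16494512))) (a (l 16496192) (l 16500704)))) (l 16482368)) (a (l 16489720) (l 16520136))), by decide +kernel⟩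

def k66_pm_102_a : ∃ t, chk3 f_pm_102_a t 332 206 1 = true :=
  ⟨(a (l 3) (b (l 3) (b (l 3) (c (b (l 141364249751) (l 124184388999)) (a (c (l 159081022887) (b (l 3) (a (l 3) (l 160691636935)))) (c (b (l 141364251639) (l 16493024)) (b (a (l 162302245943) (c (l 139216769127) (b (a (l 3) (l 161228504039)) (a (l 159617892663) (l 16507376))))) (a (b (a (l 161228506535) (l 143511766727)) (l 140827413559)) (l 16509696))))))))), by decide +kernel⟩

def k67_pm_102_a : ∃ t, chk3 f_pm_102_a t 333 206 1 = true :=
  ⟨(b (b (a (l 3) (c (a (l 146196071271) (l 135458662151)) (a (c (l 149954169943) (b (l 3) (a (l 3) (a (l 165523457303) (b (l 3) (b (l 164449716567) (l 151027944375))))))) (c (b (a (l 164449712887) (l 137069268183)) (l 16487888)) (b (b (a (l 3) (c (l 145659199623) (a (l 166597196007) (b (l 165523454471) (l 153712294791))))) (a (a (l 3) (a (l 166597196743) (l 164449713863))) (a (b (a (l 164449713559) (l 16498408)) (l 16499112)) (l 16499648)))) (a (b (a (a (l 164986585943) (a (l 163375973239) (l 162302231623))) (a (l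 151027942439) (l 16499832))) (l 16501048)) (l 16502128))))))) (a (c (l 144048595991) (a (l 3) (b (l 3) (c (l 141901114263) (a (l 163912850135) (b (a (l 3) (b (l 163912849495) (l 149417335767))) (a (b (l 162302238423) (l 16502912)) (l 16503368)))))))) (a (c (l 122573768279) (a (c (l 137606151511) (b (b (l 166060330871) (a (b (l 16500784) (l 151564818023)) (a (l 159617881191) (l 16501696)))) (l 16501288))) (b (a (b (a (b (l 16499960) (l 16500600)) (l 146196106727)) (l 16502320)) (l 16502352)) (l 16505816)))) (l 16496240)))) (b (a (a (c (l 137606153287) (b (a (l 3) (a (l 3) (b (l 3) (b (l 162302240743) (l 144585501831))))) (a (a (l 161228501415) (b (l 162302242311) (a (l 157470405879) (l 16505440)))) (a (b (a (l 159617888231) (l 156933533463)) (l 16506128)) (l 16506128))))) (c (l 16485328) (b (a (c (l 16482920) (b (a (l 162302239959) (a (l 159617885287) (l 16503608))) (l 144585501111))) (l 16505688)) (l 16508632)))) (c (l 16512384) (l 16491848))) (a (c (l 16512040) (a (c (l 16510408) (l 132237465447)) (l 16514576)))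 (l 16520728)))), by decide +kernel⟩

def k68_pm_102_a : ∃ t, chk3 f_pm_102_a t 166 207 1 = true :=
  ⟨(a (a (b (c (b (l 142974872215) (a (l 135995557831) (l 16514248))) (b (a (l 3) (c (l 144048614999) (b (l 3) (a (l 3) (b (l 160154771383) (l 131163715303)))))) (b (a (l 158544163319) (a (c (l 16512208) (a (l 139216781591) (l 131163719655))) (l 16513616))) (a (a (l 142974880295) (c (l 16513960) (l 126331885735))) (l 16516488))))) (c (l 16502728) (b (a (l 121500064055) (l 16522192)) (l 16528008)))) (b (b (a (c (l 16489704) (b (a (a (l 160154768087) (b (l 3) (l 155859802263))) (a (b (l 157470413671) (l 16510144)) (l 16510128))) (l 122036917639))) (l 16503664)) (l 16509504)) (l 16531792))) (a (b (l 16503224) (l 16540328)) (l 16541048))), by decide +kernel⟩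

def k69_pm_102_a : ∃ t, chk3 f_pm_102_a t 167 103 1 = true :=
  ⟨(a (b (a (c (l 16517136) (b (b (a (l 16492672) (l 16507464)) (l 16513400)) (l 16525608))) (l 16505376)) (l 16554928)) (b (l 16540624) (l 16574752))), by decide +kernel⟩

def k70_pm_102_a : ∃ t, chk3 f_pm_102_a t 40 13 1 = true :=
  ⟨(b (a (b (l 3) (b (a (l 3) (b (l 3) (a (l 3) (b (l 3) (l 112910309575))))) (a (b (l 130627084807) (a (l 119889699047) (l 68886938663))) (b (a (b (l 16622544) (l 16625712)) (l 16620224)) (l 16616048))))) (b (b (l 3) (a (l 3) (b (b (l 3) (a (l 3) (a (l 138143154903) (a (l 130626958455) (l 123647638023))))) (a (b (l 135995699047) (a (l 127942640919) (l 16554352))) (b (a (c (l 16545952) (l 93582880055)) (l 16569664)) (l 16579864)))))) (a (a (b (b (l 132774513159) (a (l 102172870231) (l 16603816))) (l 16612416)) (b (b (b (a (l 16565712) (l 122573948503)) (l 74792436007)) (l 16606760)) (l 16600520))) (b (a (b (b (l 16584776) (l 16596168)) (l 16614128)) (b (l 16598632) (l 16625552))) (a (l 16632568) (l 16647360)))))) (a (b (b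 (a (a (b (l 16655104) (l 16667920)) (l 16660384)) (b (l 16655944) (l 16676672))) (a (l 16651464) (l 16670072))) (b (a (l 16692968) (l 16721112)) (a (b (l 16717544) (l 16701160)) (l 16672848)))) (b (a (b (l 16624152) (l 16672424)) (b (l 16654664) (l 16705392))) (b (a (l 16694600) (l 16656064)) (l 16668328))))), by decide +kernel⟩

def k71_pm_102_a : ∃ t, chk3 f_pm_102_a t 41 13 1 = true :=
  ⟨(b (b (a (b (a (b (l 3) (a (c (l 139216869575) (b (l 3) (a (l 3) (l 137606250407)))) (b (a (l 146196163863) (c (l 129553170359) (a (b (l 3) (l 127405684935)) (b (l 132237514375) (l 16541064))))) (a (b (a (l 134385012807) (l 100025277623)) (l 16526856)) (l 16549456))))) (b (b (a (a (l 3) (c (l 138679942391) (b (l 3) (a (l 152638609431) (b (l 140290550807) (l 116131365911)))))) (a (c (b (l 112910134615) (l 16528328)) (b (a (c (l 137069320583) (b (l 155859827543) (l 126331904647))) (a (a (l 131700615735) (l 16513048)) (l 16524128))) (a (l 16516992) (l 16530552)))) (l 16515976))) (a (c (a (l 133311248967) (l 16522736)) (a (b (l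 142974919799) (a (l 137069344583) (l 111299545799))) (b (a (b (l 130090011351) (l 16509512)) (l 16531472)) (l 16537024)))) (a (l 16518600) (l 16547008)))) (a (a (b (c (l 16540992) (l 103246492999)) (l 16555360)) (l 16533992)) (l 16534808)))) (a (a (b (b (a (c (l 129016327367) (b (l 139753741751) (l 103783396967))) (b (c (l 16549928) (l 100562166279)) (l 16556080))) (a (l 16540392) (l 16565752))) (l 16562000)) (b (a (l 16564328) (l 16570344)) (l 16596064))) (a (b (l 16581192) (l 16611808)) (l 16593032)))) (b (a (a (b (a (l 16526264) (l 16555800)) (l 16583648)) (l 16564872)) (l 16574144)) (a (l 16600920) (l 16644680)))) (a (a (b (a (l 16583392) (l 16599128)) (l 16653152)) (b (l 16627384) (l 16693952))) (a (l 16624224) (b (l 16719176) (l 16641048))))) (b (a (b (a (l 16720496) (l 16685368)) (a (l 16634144) (l 16659360))) (b (a (l 16613912) (l 16642168)) (l 16658496))) (a (l 16643784) (l 16691912)))), by decide +kernel⟩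

def k72_pm_102_a : ∃ t, chk3 f_pm_102_a t 42 24 1 = true :=
  ⟨(a (l 3) (b (l 3) (a (b (l 3) (a (l 3) (b (l 3) (b (l 3) (a (l 3) (b (a (l 3) (b (l 3) (a (l 3) (l 166597044935)))) (a (b (l 180555724599) (a (l 172502625687) (l 149417182407))) (a (c (l 144585346199) (l 156396510455)) (l 16445912))))))))) (b (l 3) (b (a (b (l 3) (a (l 3) (b (l 3) (a (l 3) (b (l 175723832807) (a (l 171428868535) (l 16414760))))))) (a (b (b (l 3) (a (l 3) (l 175723829255))) (c (b (a (l 164986413127) (l 149417169575)) (l 153175285959)) (b (a (l 181092544855) (l 161228333943)) (l 165523320887)))) (b (b (a (l 177871306263) (b (l 171965729479) (l 154248999127))) (a (b (a (l 173576342231) (l 16410168)) (l 16413000)) (l 16437704))) (l 16448360)))) (a (b (a (b (l 188071906103) (a (l 175723843511) (b (a (l 175186969079) (l 152638397111)) (l 150490923191)))) (b (a (b (a (l 3) (l 168744517623)) (a (l 154785877351) (l 16438656))) (l 16419896)) (l 16446912))) (a (b (a (b (a (l 169281395719) (l 16419624)) (l 16443536)) (l 16447096)) (l 16453192))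 (l 16460560))) (a (l 16463584) (l 16476040)))))))), by decide +kernel⟩

def k73_pm_102_a : ∃ t, chk3 f_pm_102_a t 84 100 1 = true :=
  ⟨(a (l 3) (b (l 3) (a (l 3) (b (a (l 3) (b (l 3) (a (c (l 166060195895) (b (l 3) (l 181092585943))) (b (c (l 158007134247) (a (l 185924457639) (b (l 176260744727) (l 149417204135)))) (a (b (a (l 177871396823) (l 145659106647)) (l 140827273175)) (l 16456808)))))) (a (b (a (l 3) (b (l 3) (c (l 160154623303) (a (l 3) (c (l 169281430983) (b (l 189145690167) (l 173576400471))))))) (b (a (l 177334531943) (a (c (l 144585370423) (b (l 175723883159) (c (l 16458008) (l 151027825767)))) (l 16443568))) (a (c (l 155322792455) (a (l 184850727815) (a (b (l 184850727159) (l 16458992)) (l 147269733335)))) (l 16462320)))) (b (a (b (c (l 153712174439) (a (b (l 3) (l 174113267751)) (b (l 167133946631) (l 16456992)))) (c (l 16458912) (l 148880349879))) (l 16462064)) (l 16468168))))))), by decide +kernel⟩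

def k74_pm_102_a : ∃ t, chk3 f_pm_102_a t 336 101 1 = true :=
  ⟨(b (l 3) (b (l 3) (a (l 3) (a (b (l 3) (c (b (l 167134021479) (l 144585414215)) (b (c (l 171428988759) (a (l 3) (a (l 3) (a (l 3) (b (l 3) (b (l 3) (l 176260828791))))))) (a (a (l 3) (c (l 160691538471) (b (l 3) (b (a (l 3) (l 175723959687)) (a (c (l 16476936) (l 176797702119)) (l 16477360)))))) (c (l 141901061911) (b (b (a (l 177334570679) (a (c (l 16476080) (l 174113345815)) (l 16476560))) (a (a (l 176797700743) (l 171965862695)) (l 16477312))) (a (l 169281508823) (l 16478880)))))))) (b (c (l 153712211959) (b (l 3) (a (l 3) (a (c (l 163375887879) (b (l 3) (b (l 178408309287) (a (l 177871439175) (l 16474880))))) (c (l 145122279463) (a (b (l 179482049799) (l 171428987623)) (b (b (l 16473552) (l 173576470695)) (l 16475520)))))))) (c (l 138142973799) (b (a (a (b (l 174650214023) (b (a (l 173576473511) (l 170355248183)) (l 16476320))) (c (l 16459656) (b (b (a (l 16474752) (l 176797697879)) (a (l 173039602135) (l 16475768))) (l 16477048)))) (l 16477704))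 (l 16480728)))))))), by decide +kernel⟩

def k75_pm_102_a : ∃ t, chk3 f_pm_102_a t 337 202 1 = true :=
  ⟨(b (l 3) (a (l 3) (b (l 3) (a (l 3) (c (b (l 169818356503) (l 152638457367)) (b (l 181629517383) (c (a (l 171965806967) (l 146196008423)) (a (b (l 3) (a (l 3) (b (l 16467104) (l 184850747079)))) (a (b (l 185924487239) (l 175187070391)) (b (b (l 185387616487) (l 16467656)) (l 16469248))))))))))), by decide +kernel⟩

def k76_pm_102_a : ∃ t, chk3 f_pm_102_a t 337 203 1 = true :=
  ⟨(b (a (b (l 3) (a (c (l 158544042279) (b (l 3) (a (l 3) (a (l 3) (b (l 3) (a (l 176797691879) (b (l 177334562631) (l 16472376)))))))) (c (b (l 151564721687) (l 16457736)) (b (a (c (l 174113333655) (l 181092655975)) (a (b (l 183240138711) (b (a (l 178408301927) (l 173039593191)) (l 171428981095))) (b (b (l 178408301255) (a (l 174113334503) (l 16470824))) (l 16472112)))) (a (a (c (l 146196015991) (b (b (l 3) (a (l 16471480) (l 175723949607))) (b (l 173576466615) (l 16473312)))) (a (b (b (l 176797690711) (l 16472024)) (l 16473616)) (l 16473168)))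 (l 16474688)))))) (b (a (c (b (l 158007164647) (l 146196013959)) (b (a (l 3) (a (l 180018909095) (c (l 152101587111) (b (l 3) (b (l 183777007031) (l 16469152)))))) (a (a (a (l 179482040519) (b (l 3) (b (l 16469368) (l 16469984)))) (c (l 147269752599) (b (b (l 3) (l 183240137687)) (b (l 175187074663) (l 16470904))))) (a (a (b (b (l 179482040711) (l 16469632)) (l 16471224)) (l 16470784)) (l 16471696))))) (c (l 16451592) (b (a (a (c (l 144048525991) (b (b (l 184850747415) (l 183777006423)) (l 16469800))) (l 16469920)) (l 16471768)) (l 16474800)))) (c (l 16478536) (a (l 16465432) (l 16481232))))) (a (b (a (c (b (l 145122278503) (l 16476856)) (b (a (c (l 162839015463) (b (l 180018918279) (a (c (l 177334565143) (l 181092661783)) (a (b (l 179482048647) (l 16473664)) (l 172502727159))))) (a (c (l 141364181719) (b (b (a (l 3) (l 179482047639)) (a (l 174650210183) (l 16473312))) (l 16474600))) (l 16474672))) (b (c (l 16476000) (a (a (b (a (l 174650211847) (l 16474088)) (l 16474840)) (l 16475504)) (l 16477312))) (l 16478144))))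 (l 16469232)) (l 16475296)) (l 16470568))), by decide +kernel⟩

def k77_pm_102_a : ∃ t, chk3 f_pm_102_a t 169 101 1 = true :=
  ⟨(b (a (b (a (b (l 3) (a (l 3) (c (l 164986472887) (a (l 3) (a (l 3) (b (l 3) (b (l 3) (l 183776998423)))))))) (b (a (l 3) (b (a (l 3) (a (l 176797665143) (b (l 3) (b (l 176260796215) (l 171965829431))))) (c (l 150490961879) (a (b (l 184313860903) (a (l 183776991335) (l 175187056743))) (a (l 146732867127) (l 16462592)))))) (a (c (b (l 156933410919) (l 138679809223)) (b (a (l 184313862903) (c (l 151027832951) (b (a (l 3) (l 187535089159)) (a (b (l 188071960519) (l 16462248)) (l 16462904))))) (a (a (b (l 183776994359) (l 174650190343)) (c (l 16463608) (l 148343484423))) (l 16465448)))) (c (l 16467024) (l 16446184))))) (a (b (b (a (l 3) (c (l 152101580407) (a (a (l 183776996039) (b (l 3) (a (l 176797676135) (l 175187063431)))) (a (b (a (l 183776996567) (l 176260804183)) (l 16465104)) (l 16465312))))) (a (c (l 158544029655) (a (l 3) (b (l 183776998983) (a (a (l 183776999687) (l 176260807415))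 (a (l 174650194727) (l 16465936)))))) (c (l 16467576) (a (a (a (b (l 175723935671) (l 16466560)) (l 16466136)) (l 16467064)) (l 16468968))))) (a (b (c (l 141364169623) (a (a (b (l 3) (b (l 182166389687) (l 174113326567))) (b (b (l 183240130055) (l 181629518327)) (l 16467400))) (l 16465600))) (l 16471144)) (l 16474080))) (c (l 16477488) (l 16456608)))) (a (b (b (a (c (l 16442696) (a (a (b (b (l 184313859255) (l 16460640)) (l 16463888)) (l 16463032)) (l 16464976))) (l 16468896)) (l 16474992)) (l 16488200)) (l 16490312))) (a (a (b (l 16463536) (l 16501920)) (l 16503840)) (l 16520424))), by decide +kernel⟩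

def k78_pm_102_a : ∃ t, chk3 f_pm_102_a t 84 51 1 = true :=
  ⟨(b (a (a (b (b (a (a (a (b (l 3) (c (l 142437941495) (b (a (l 3) (a (l 176260836823) (b (l 3) (b (l 3) (b (l 170355258311) (l 16480760)))))) (c (l 139216718183) (b (c (a (l 170355259591) (l 16481832)) (a (b (l 173576484535) (a (l 173039614247) (l 16481584))) (b (a (l 171429000823) (l 16481656)) (l 16482408)))) (l 16483344)))))) (b (c (l 166597154423) (l 171965865911)) (c (l 16467984) (b (b (b (a (l 3) (a (l 171428998279) (b (l 168744643815) (l 16479928)))) (c (l 164449678007) (a (a (l 3) (l 172502740903)) (l 168744644519)))) (a (a (b (b (l 171428999383) (l 167134032567)) (l 16481048)) (l 16481112)) (l 16481976))) (l 16484520))))) (b (a (c (l 148343513303) (b (l 3) (b (a (l 3) (b (l 172502737399) (c (l 16478720) (a (l 174113351175) (l 170355254679))))) (a (a (b (l 3) (a (l 170355255863) (l 168744643079))) (b (b (l 171965867639) (l 168744642951)) (l 16479776))) (l 165523417111))))) (c (l 139753584023) (b (c (b (l 170892122295) (l 153712220791)) (b (l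 175187089703) (a (a (l 180018928695) (a (l 174650220071) (b (l 3) (l 171428995175)))) (b (a (l 174650220231) (l 16478176)) (l 16478896))))) (a (b (a (b (b (l 170355253911) (l 16478672)) (l 16479432)) (l 16479496)) (l 16481296)) (l 16481424))))) (c (l 16485640) (l 16475456)))) (c (l 16467696) (b (a (b (a (c (l 16463312) (b (a (b (a (l 176260831367) (c (l 16477312) (l 174650219111))) (a (l 171428994167) (l 16478264))) (l 16478624)) (l 16480128))) (l 16481360)) (l 16484376)) (l 16487056)) (l 16493096)))) (a (c (l 16495904) (b (l 16470984) (l 16500352))) (l 16505752))) (l 16505440)) (b (a (l 16486256) (l 16517584)) (l 16547288))) (a (l 16530664) (l 16574920))) (a (l 16526448) (l 16594568))), by decide +kernel⟩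

def k79_pm_102_a : ∃ t, chk3 f_pm_102_a t 85 25 1 = true :=
  ⟨(b (b (a (b (a (b (a (l 3) (b (l 3) (a (l 3) (b (l 3) (l 174113246647))))) (a (b (l 3) (a (l 3) (b (l 178945127767) (a (l 172502642215) (c (l 16429504) (b (l 171965772599) (l 16451240))))))) (b (a (b (l 3) (a (l 3) (c (l 156933379911) (l 174650124695)))) (b (a (c (l 160691472887) (l 177334475591)) (l 147269710551)) (l 146195978423))) (a (a (b (b (l 168207672407) (l 145659099015)) (l 16452784)) (l 16453344)) (l 16457520))))) (b (a (b (a (l 3) (b (a (l 3) (l 169281403719)) (a (c (l 156933371783) (l 174650116151)) (l 16445720)))) (a (b (a (l 180018861383) (c (l 16424200) (l 156396508759))) (c (l 16426856) (l 153712163767))) (l 16450952))) (a (b (l 152638427415) (l 16456672)) (l 16457968))) (a (l 16440568) (l 16473128)))) (a (b (a (b (c (a (b (l 162838965063) (l 152101556391)) (l 16434432)) (a (b (a (l 3) (l 177334484215)) (a (b (l 185924456247) (l 169818294919)) (l 16432584))) (b (l 151564692007) (l 16457536)))) (l 155859688327)) (l 16468088)) (l 16480320))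 (l 16494480))) (a (b (l 16460976) (l 16518896)) (l 16504672))) (a (a (l 16483560) (l 16528800)) (l 16546080))) (a (b (l 16569992) (l 16646096)) (l 16598928))), by decide +kernel⟩

def k80_pm_102_a : ∃ t, chk3 f_pm_102_a t 86 24 1 = true :=
  ⟨(b (a (l 3) (b (l 3) (a (b (l 3) (b (l 3) (a (b (l 3) (a (l 3) (l 179481890151))) (b (a (l 181629368167) (b (a (l 16412088) (l 170355083127)) (a (l 157470184167) (l 16416936)))) (a (b (a (l 189145607431) (l 155859574295)) (l 16399760)) (l 16422248)))))) (b (b (l 3) (a (l 3) (b (a (l 3) (l 175186908999)) (a (b (l 3) (a (l 16408744) (l 167670721671))) (b (a (l 168744460631) (l 16411296)) (l 16414200)))))) (b (a (b (a (l 3) (a (l 177334396503) (b (l 185924372967) (l 16392416)))) (a (b (l 176260657575) (a (l 171965693047) (l 16414400))) (l 16402032))) (a (c (l 159080821719) (l 16398096)) (l 16425840))) (a (l 16406640) (l 16441136))))))) (b (a (b (a (l 3) (b (a (l 3) (b (l 3) (a (l 3) (b (l 186998127591) (a (l 187535001831) (l 16399584)))))) (a (b (l 3) (a (l 180018771367) (b (l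 174113194919) (l 156396464903)))) (b (a (b (l 177334414503) (a (l 173039450103) (l 16421384))) (l 159617698279)) (l 16408864))))) (a (b (a (l 3) (b (l 178945035863) (a (b (l 3) (l 173576332951)) (b (a (l 171965716951) (l 16425288)) (l 16428224))))) (a (b (a (l 3) (b (l 178408167623) (a (l 175186945303) (l 16405832)))) (a (b (l 175186948535) (a (l 170355113367) (l 16429464))) (l 16410880))) (a (c (l 154785883591) (l 160691462183)) (l 16439736)))) (a (b (a (b (b (a (l 176260678007) (l 16401760)) (l 16404520)) (l 16432248)) (l 16434032)) (l 16449352)) (l 16453080)))) (a (b (b (a (c (b (a (l 169281344519) (b (l 161765155879) (l 16420824))) (a (l 152638366071) (l 16427776))) (b (a (l 184850605223) (l 165523266439)) (l 169281381847))) (l 16432880)) (l 16423880)) (l 16473000)) (b (l 16462472) (l 16500288)))) (a (a (b (a (b (l 16421440) (l 16460872)) (l 16464360)) (l 16495224)) (l 16460768)) (l 16480704)))), by decide +kernel⟩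

def k81_pm_102_a : ∃ t, chk3 f_pm_102_a t 87 24 1 = true :=
  ⟨(b (b (a (b (a (l 3) (b (l 3) (a (l 3) (l 178408153607)))) (a (b (l 3) (a (l 3) (b (l 3) (a (l 3) (a (l 170891932967) (b (l 182166265223) (l 16385264))))))) (b (a (b (l 3) (a (l 3) (b (l 3) (a (l 3) (b (l 16401608) (l 184850618583)))))) (b (a (c (l 176260676951) (l 172502537751)) (b (a (l 178945032647) (l 152638319031)) (l 153175200007))) (a (a (c (b (l 179481907239) (l 16405040)) (l 16382136)) (l 16385024)) (l 16411168)))) (a (b (a (b (l 179481904951) (a (l 180555650151) (l 154248936759))) (b (a (l 155859547031) (l 16405920)) (l 16408824))) (c (l 158543935335) (l 16391256))) (l 16421664))))) (b (a (b (a (l 3) (b (a (l 3) (a (l 175186925687) (b (l 16395472) (a (l 181092510663) (l 16398136))))) (a (b (l 176797541895) (a (l 178945028199) (l 151027701799))) (c (l 151564584039) (l 16381224))))) (a (b (a (l 3) (c (b (a (l 3) (l 178408158823)) (a (l 179481902247) (l 16401760))) (l 165523221207))) (a (a (b (l 16398568) (l 153712058423)) (c (l 150490836311)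 (l 16380688))) (l 16406656))) (a (l 159080800423) (l 16416248)))) (a (b (a (a (a (b (b (l 179481896711) (l 16399744)) (l 16406736)) (l 160154530279)) (l 16406568)) (l 16411968)) (l 16427048)) (l 16432224))) (a (a (l 16405496) (l 16440776)) (l 16462528)))) (a (a (b (b (a (b (l 3) (a (l 183240009335) (b (a (l 16405600) (l 156396426247)) (a (l 154785816183) (l 16410888))))) (b (a (b (l 169818193799) (a (l 165523229111) (l 16408464))) (l 16390352)) (l 16417136))) (a (a (b (b (a (l 184850627495) (l 16388056)) (l 16390808)) (l 16418656)) (l 16420824)) (l 16431160))) (l 16431408)) (b (a (l 16435728) (l 16449824)) (l 16480504))) (a (l 16469320) (l 16519584)))) (a (b (l 16460472) (l 16579616)) (l 16515928))), by decide +kernel⟩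

def k82_pm_102_a : ∃ t, chk3 f_pm_102_a t 43 25 1 = true :=
  ⟨(a (b (a (b (l 16523344) (l 16621408)) (l 16555256)) (b (l 16643944) (l 16641328))) (b (l 16583352) (a (b (l 16655024) (l 16594608)) (b (l 16604400) (l 16575472))))), by decide +kernel⟩

def k83_pm_102_a : ∃ t, chk3 f_pm_102_a t 21 13 1 = true :=
  ⟨(b (a (b (a (a (l 16593448) (l 16642728)) (b (l 16649624) (a (l 16650336) (l 16593568)))) (a (b (a (l 16677960) (l 16616912)) (a (l 16614680) (l 16626176))) (a (b (l 16616584) (l 16629400)) (l 16623216)))) (b (a (b (a (l 16621376) (l 16593384)) (l 16601808)) (l 16599248)) (l 16594648))) (a (b (a (l 16655816) (l 16664752)) (l 16630536)) (a (l 16535224) (l 16485280)))), by decide +kernel⟩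

def k84_pm_102_a : ∃ t, chk3 f_pm_102_a t 10 7 1 = true :=
  ⟨(b (a (b (a (b (a (b (a (l 16702208) (l 16705000)) (l 16726744)) (l 16702216)) (a (l 16741896) (l 16644464))) (b (a (l 16719040) (l 16633416)) (a (l 16553896) (l 16471224)))) (a (b (a (l 16502344) (l 16457064)) (b (l 16354104) (a (l 16294048) (b (l 16246328) (l 16200088))))) (b (a (l 16377824) (l 16307168)) (b (a (l 16247384) (b (l 16206912) (l 16167824))) (a (l 16162424) (l 16114312)))))) (b (a (b (a (l 16549488) (l 16473464)) (l 16216864)) (a (l 16214752) (b (l 16349512) (l 16233600)))) (b (b (a (l 16254832) (a (l 16184872) (l 16151752))) (a (a (l 16209784) (b (l 16178336) (l 16146760))) (l 16116960))) (a (a (b (l 16139032) (l 16076344)) (l 16076024)) (a (l 16056184) (l 16048112)))))) (a (b (a (b (a (b (b (l 16219208) (l 16171992)) (l 16102120)) (l 16092392)) (a (b (l 16011496) (l 15924120)) (b (l 15970064) (l 15892880)))) (b (a (l 16046840) (l 16011856)) (a (l 15904736) (l 15889712)))) (a (b (a (b (l 15840504) (l 15761152)) (b (l 15820000) (l 15751968)))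 (a (b (a (l 15687584) (l 15686280)) (a (l 15615224) (l 15620216))) (b (l 15689360) (a (l 15627944) (l 15638456))))) (b (a (b (l 15810200) (l 15753648)) (b (l 15811496) (l 15766592))) (a (b (l 15703184) (l 15659528)) (b (l 15728984) (l 15697784)))))) (b (a (b (a (l 15987832) (l 15975152)) (a (l 15885936) (l 15894776))) (b (a (l 15975576) (l 15985064)) (a (l 15913064) (l 15940656)))) (a (b (a (b (l 15824272) (l 15791408)) (l 15835944)) (a (b (l 15764680) (l 15744800)) (l 15801960))) (b (a (l 15873208) (l 15915104)) (l 15736296)))))), by decide +kernel⟩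

def k85_pm_102_a : ∃ t, chk3 f_pm_102_a t 11 3 1 = true :=
  ⟨(b (b (a (a (b (a (b (a (b (a (l 16431248) (l 16503200)) (l 16543512)) (l 16482656)) (l 16544216)) (b (b (l 16559064) (l 16635928)) (l 16597816))) (b (a (a (l 16634048) (b (l 16637600) (l 16574656))) (b (a (l 16585472) (l 16550760)) (l 16555888))) (a (b (a (l 16571608) (l 16561448)) (l 16578152)) (l 16581992)))) (b (b (a (l 16625072) (a (l 16610384) (l 16519848))) (a (b (l 16589176) (a (l 16554136) (l 16533560))) (b (l 16531512) (l 16538904)))) (a (l 16495120) (l 16596168)))) (b (a (b (a (b (l 16488496) (l 16520840)) (l 16528040)) (l 16561488)) (l 16507528)) (a (l 16508840) (a (l 16518464) (l 16496256))))) (a (a (b (b (l 16618792) (l 16590160)) (b (l 16489872) (l 16385728))) (b (a (l 16547016) (l 16497176)) (b (l 16394880) (l 16312504)))) (b (a (a (l 16457024) (l 16430856)) (a (l 16410520) (l 16399728))) (a (a (l 16320040) (l 16309400)) (b (l 16331504) (b (l 16294784) (l 16272760))))))) (b (a (b (a (b (l 16283712) (b (l 16211872) (a (l 16176128) (l 16159296))))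 (b (a (l 16243000) (l 16232360)) (b (a (l 16187120) (l 16185808)) (l 16159968)))) (a (b (a (l 16115632) (l 16114416)) (a (l 16052192) (l 16063712))) (b (a (l 16120944) (l 16135384)) (l 16094384)))) (b (a (b (b (a (l 16241816) (l 16242880)) (a (l 16214480) (l 16221872))) (l 16190600)) (b (a (l 16239600) (l 16254200)) (l 16225024))) (a (l 16048968) (l 16007152)))) (a (b (a (b (a (l 16002752) (l 16029384)) (l 15991184)) (b (l 16075232) (l 16046344))) (a (a (l 15796376) (l 15724992)) (b (l 15904168) (l 15710416)))) (b (a (b (l 16056240) (l 15908896)) (b (l 15912264) (l 15758736))) (a (b (l 15755440) (l 15598488)) (b (l 15602304) (l 15443816))))))), by decide +kernel⟩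

def k86_pm_102_a : ∃ t, chk3 f_pm_102_a t 6 2 1 = true :=
  ⟨(a (a (b (a (b (l 3) (a (b (l 3) (b (l 171428906487) (a (b (l 16468552) (l 124721173815)) (b (l 16489312) (l 16567632))))) (b (b (l 3) (l 165523408743)) (b (a (l 119889393319) (l 16574336)) (l 16577696))))) (b (a (l 3) (b (l 3) (b (l 3) (l 117742057575)))) (a (b (b (l 117205106407) (a (l 16549032) (l 16639984))) (l 16589624)) (b (l 62981238983) (l 16707136))))) (a (b (b (a (a (l 16489624) (l 16573208)) (l 16632048)) (a (l 16627240) (l 16587016))) (b (b (a (l 16561224) (l 16507360)) (a (l 16463144) (l 16514696))) (l 16505376))) (b (b (a (l 16656368) (l 16610992)) (a (b (l 16575840) (l 16513392)) (b (l 16522408) (l 16511888)))) (b (a (l 16535264) (l 16579488)) (l 16566616))))) (b (a (b (b (a (l 141901352951) (b (l 148343862039) (a (l 16659904) (l 16712736)))) (a (b (a (l 16645272) (l 16677192)) (l 16658104)) (l 16673216))) (a (b (b (l 16708640) (l 16739952)) (l 16643424)) (b (l 16704600) (l 16616368)))) (a (b (b (a (l 16666744) (l 16716896)) (l 16735568))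 (l 16536784)) (b (l 16706400) (b (l 16628208) (l 16567296))))) (b (a (b (a (l 16559888) (b (l 16547800) (l 16527920))) (a (l 16476360) (l 16582248))) (b (a (l 16536032) (l 16597256)) (l 16638648))) (a (b (l 16570944) (l 16577944)) (l 16591584))))) (b (a (b (a (b (l 16706992) (l 16652480)) (b (l 16664920) (l 16608232))) (a (b (l 16579808) (l 16520768)) (b (l 16549720) (l 16673256)))) (b (a (b (l 16658024) (l 16604728)) (b (l 16673480) (l 16700392))) (a (l 16685392) (l 16645832)))) (a (b (a (l 16608400) (l 16650424)) (a (l 16524496) (l 16458504))) (b (a (l 16541208) (l 16483400)) (a (b (l 16512832) (l 16414120)) (l 16237488)))))), by decide +kernel⟩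

def k87_pm_102_a : ∃ t, chk3 f_pm_102_a t 6 3 1 = true :=
  ⟨(b (a (b (a (a (b (l 16532680) (l 16412176)) (b (l 16529048) (l 16466352))) (a (l 16409680) (l 16328696))) (a (b (a (l 16394808) (l 16396544)) (a (b (l 16334280) (b (l 16306048) (l 16293152))) (b (b (l 16356560) (l 16342424)) (l 16332384)))) (b (a (b (l 16422768) (l 16355744)) (b (l 16400168) (b (l 16264368) (l 16295032)))) (a (b (a (l 16369704) (l 16300656)) (l 16200032)) (b (l 16191120) (l 16051520)))))) (b (a (a (b (l 16507344) (l 16395880)) (b (l 16409008) (b (l 16325624) (l 16110416)))) (b (a (l 16309400) (l 16212448)) (a (b (l 16199664) (a (l 16053096) (l 16112656))) (b (b (l 16053408) (l 15992184)) (l 16001672))))) (a (b (a (b (a (l 16322752) (l 16163416)) (l 16178928)) (b (a (l 16183112) (l 16126688)) (l 16030824))) (a (l 15847048) (l 15805736))) (b (a (l 15804752) (l 15747464)) (a (l 15685080) (l 15549504)))))) (a (b (a (b (a (l 16167464) (l 16029336)) (a (b (l 16063120) (l 15914168)) (l 15734432))) (b (a (l 15838824) (l 15773648)) (a (l 15689608)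 (l 15542736)))) (a (b (a (l 15537592) (l 15449744)) (a (b (l 15449712) (l 15291496)) (b (l 15300192) (l 15143520)))) (b (a (l 15386032) (l 15243336)) (a (l 14826848) (l 14878880))))) (b (a (b (a (l 15690104) (l 15548168)) (a (l 15400488) (l 15264328))) (b (a (l 15412232) (l 15283544)) (a (l 15135480) (l 15015344)))) (a (b (a (l 15106952) (l 14978096)) (a (l 14814104) (l 14692992))) (b (a (l 14858032) (l 14744712)) (a (l 14579136) (l 14473432))))))), by decide +kernel⟩

def k88_pm_102_a : ∃ t, chk3 f_pm_102_a t 7 2 1 = true :=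
  ⟨(b (a (a (b (l 16477704) (a (l 16561584) (l 16461840))) (b (a (l 16518920) (l 16446736)) (a (l 16386976) (l 16317304)))) (a (b (a (l 16359352) (l 16278624)) (a (l 16211872) (l 16134424))) (b (a (l 16205424) (l 16138552)) (a (l 16022664) (l 15958552))))) (a (a (b (a (l 16382968) (l 16285944)) (a (l 16098648) (b (l 16220320) (l 16128400)))) (b (a (l 16193728) (l 16065400)) (b (a (l 16132040) (l 16050168)) (a (a (l 16064080) (b (l 16045672) (l 15994536))) (b (l 15983000) (b (a (l 15969184) (l 15925136)) (a (l 15936120) (l 15872584)))))))) (b (a (a (b (l 16128208) (l 16053448)) (b (l 16054760) (l 15983000))) (a (b (l 15987832) (l 15918904)) (b (l 15926352) (b (l 15876216) (a (l 15852704) (b (l 15833800) (a (l 15820528) (l 15799096)))))))) (a (b (a (l 15955120) (b (l 15927480) (a (b (l 15915240) (l 15847896)) (b (l 15878208) (l 15844376))))) (a (b (a (b (l 15941472) (l 15850520)) (b (l 15838720) (l 15857616))) (l 15809584)) (b (a (l 15826064) (l 15768696)) (l 15696088)))) (b (a (b (a (l 15854096) (b (l 15855336) (a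 (l 15840272) (l 15813648)))) (a (b (l 15836496) (l 15786792)) (l 15756056))) (b (a (b (b (l 15828128) (l 15808320)) (l 15772920)) (l 15743032)) (l 15676608))) (a (b (l 15686584) (l 15588040)) (b (l 15582112) (l 15486000)))))))), by decide +kernel⟩

def k89_pm_102_a : ∃ t, chk3 f_pm_102_a t 7 3 1 = true :=
  ⟨(b (a (b (a (b (a (b (l 16145176) (b (l 16101416) (a (l 16097704) (l 16041984)))) (b (a (l 16074920) (b (l 16047280) (l 16015232))) (a (b (l 16029608) (l 15971360)) (l 15933280)))) (a (b (l 15986072) (l 15862448)) (l 15621848))) (b (a (b (b (a (l 15999880) (l 15945664)) (l 15920552)) (l 15835776)) (b (l 15822344) (l 15713056))) (a (l 15516496) (l 15440728)))) (a (b (a (l 15654440) (l 15547896)) (a (l 15421224) (l 15301584))) (b (a (l 15429016) (l 15316704)) (a (l 15188944) (l 15083400))))) (b (a (b (a (b (l 15704648) (l 15597792)) (b (l 15593512) (l 15489208))) (a (l 15434856) (l 15329600))) (b (a (l 15269192) (l 15254960)) (a (l 15230488) (l 15138088)))) (a (b (a (l 15211744) (l 15111952)) (a (l 14983168) (l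 14889456))) (b (a (l 15018752) (l 14932680)) (a (l 14802800) (l 14723728)))))) (a (b (a (b (a (l 15163520) (l 15050584)) (a (l 14902232) (l 14796320))) (b (a (l 14944768) (l 14844296)) (a (l 14695744) (l 14601680)))) (a (b (a (l 14638840) (l 14538208)) (a (l 14372736) (l 14278824))) (b (a (l 14444192) (l 14357312)) (a (l 14066368) (a (l 14111072) (l 14073680)))))) (b (a (b (a (l 14750312) (l 14663368)) (a (l 14514672) (l 14435232))) (b (a (l 14583960) (l 14512600)) (a (l 14363840) (l 14300976)))) (a (b (a (l 14278072) (l 14123072)) (a (a (l 14017408) (l 13942312)) (a (b (l 14051936) (l 13938640)) (b (l 14022000) (l 13911200))))) (a (b (a (l 14117032) (l 14087984)) (b (b (l 14008360) (l 13954536)) (b (l 13901064) (a (l 13859208) (l 13837184))))) (b (b (l 14142984) (b (l 14064568) (l 14012696))) (b (b (l 13961144) (l 13909952)) (b (a (l 13868624) (l 13850152)) (a (l 13817616) (l 13800560)))))))))), by decide +kernel⟩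

theorem s90_pm_102_a : ∃ t, chk3 f_pm_102_a t 7 1 1 = true := ex3_b k88_pm_102_a k89_pm_102_a

theorem s91_pm_102_a : ∃ t, chk3 f_pm_102_a t 6 1 1 = true := ex3_b k86_pm_102_a k87_pm_102_a

theorem s92_pm_102_a : ∃ t, chk3 f_pm_102_a t 3 1 1 = true := ex3_a s91_pm_102_a s90_pm_102_a

theorem s93_pm_102_a : ∃ t, chk3 f_pm_102_a t 43 24 1 = true := ex3_a k80_pm_102_a k81_pm_102_a

theorem s94_pm_102_a : ∃ t, chk3 f_pm_102_a t 43 12 1 = true := ex3_b s93_pm_102_a k82_pm_102_a

theorem s95_pm_102_a : ∃ t, chk3 f_pm_102_a t 337 101 1 = true := ex3_b k75_pm_102_a k76_pm_102_a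

theorem s96_pm_102_a : ∃ t, chk3 f_pm_102_a t 168 101 1 = true := ex3_a k74_pm_102_a s95_pm_102_a

theorem s97_pm_102_a : ∃ t, chk3 f_pm_102_a t 84 101 1 = true := ex3_a s96_pm_102_a k77_pm_102_a

theorem s98_pm_102_a : ∃ t, chk3 f_pm_102_a t 84 50 1 = true := ex3_b k73_pm_102_a s97_pm_102_a

theorem s99_pm_102_a : ∃ t, chk3 f_pm_102_a t 84 25 1 = true := ex3_b s98_pm_102_a k78_pm_102_a

theorem s100_pm_102_a : ∃ t, chk3 f_pm_102_a t 42 25 1 = true := ex3_a s99_pm_102_a k79_pm_102_a

theorem s101_pm_102_a : ∃ t, chk3 f_pm_102_a t 42 12 1 = true := ex3_b k72_pm_102_a s100_pm_102_a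

theorem s102_pm_102_a : ∃ t, chk3 f_pm_102_a t 21 12 1 = true := ex3_a s101_pm_102_a s94_pm_102_a

theorem s103_pm_102_a : ∃ t, chk3 f_pm_102_a t 21 6 1 = true := ex3_b s102_pm_102_a k83_pm_102_a

theorem s104_pm_102_a : ∃ t, chk3 f_pm_102_a t 20 13 1 = true := ex3_a k70_pm_102_a k71_pm_102_a

theorem s105_pm_102_a : ∃ t, chk3 f_pm_102_a t 166 206 1 = true := ex3_a k66_pm_102_a k67_pm_102_a

theorem s106_pm_102_a : ∃ t, chk3 f_pm_102_a t 166 103 1 = true := ex3_b s105_pm_102_a k68_pm_102_a

theorem s107_pm_102_a : ∃ t, chk3 f_pm_102_a t 83 103 1 = true := ex3_a s106_pm_102_a k69_pm_102_a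

theorem s108_pm_102_a : ∃ t, chk3 f_pm_102_a t 334 205 1 = true := ex3_b k63_pm_102_a k64_pm_102_a

theorem s109_pm_102_a : ∃ t, chk3 f_pm_102_a t 167 205 1 = true := ex3_a s108_pm_102_a k65_pm_102_a

theorem s110_pm_102_a : ∃ t, chk3 f_pm_102_a t 335 409 1 = true := ex3_a k61_pm_102_a k62_pm_102_a

theorem s111_pm_102_a : ∃ t, chk3 f_pm_102_a t 335 204 1 = true := ex3_b k60_pm_102_a s110_pm_102_a

theorem s112_pm_102_a : ∃ t, chk3 f_pm_102_a t 167 204 1 = true := ex3_a k59_pm_102_a s111_pm_102_a

theorem s113_pm_102_a : ∃ t, chk3 f_pm_102_a t 167 102 1 = true := ex3_b s112_pm_102_a s109_pm_102_a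

theorem s114_pm_102_a : ∃ t, chk3 f_pm_102_a t 83 102 1 = true := ex3_a k58_pm_102_a s113_pm_102_a

theorem s115_pm_102_a : ∃ t, chk3 f_pm_102_a t 83 51 1 = true := ex3_b s114_pm_102_a s107_pm_102_a

theorem s116_pm_102_a : ∃ t, chk3 f_pm_102_a t 83 25 1 = true := ex3_b k57_pm_102_a s115_pm_102_a

theorem s117_pm_102_a : ∃ t, chk3 f_pm_102_a t 41 25 1 = true := ex3_a k56_pm_102_a s116_pm_102_a

theorem s118_pm_102_a : ∃ t, chk3 f_pm_102_a t 41 12 1 = true := ex3_b k55_pm_102_a s117_pm_102_a

theorem s119_pm_102_a : ∃ t, chk3 f_pm_102_a t 20 12 1 = true := ex3_a k54_pm_102_a s118_pm_102_a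

theorem s120_pm_102_a : ∃ t, chk3 f_pm_102_a t 20 6 1 = true := ex3_b s119_pm_102_a s104_pm_102_a

theorem s121_pm_102_a : ∃ t, chk3 f_pm_102_a t 10 6 1 = true := ex3_a s120_pm_102_a s103_pm_102_a

theorem s122_pm_102_a : ∃ t, chk3 f_pm_102_a t 10 3 1 = true := ex3_b s121_pm_102_a k84_pm_102_a

theorem s123_pm_102_a : ∃ t, chk3 f_pm_102_a t 5 3 1 = true := ex3_a s122_pm_102_a k85_pm_102_a

theorem s124_pm_102_a : ∃ t, chk3 f_pm_102_a t 18 31 1 = true := ex3_a k51_pm_102_a k52_pm_102_a

theorem s125_pm_102_a : ∃ t, chk3 f_pm_102_a t 18 15 1 = true := ex3_b k50_pm_102_a s124_pm_102_a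

theorem s126_pm_102_a : ∃ t, chk3 f_pm_102_a t 9 15 1 = true := ex3_a s125_pm_102_a k53_pm_102_a

theorem s127_pm_102_a : ∃ t, chk3 f_pm_102_a t 9 14 1 = true := ex3_a k48_pm_102_a k49_pm_102_a

theorem s128_pm_102_a : ∃ t, chk3 f_pm_102_a t 9 7 1 = true := ex3_b s127_pm_102_a s126_pm_102_a

theorem s129_pm_102_a : ∃ t, chk3 f_pm_102_a t 17 31 1 = true := ex3_a k46_pm_102_a k47_pm_102_a

theorem s130_pm_102_a : ∃ t, chk3 f_pm_102_a t 17 15 1 = true := ex3_b k45_pm_102_a s129_pm_102_a

theorem s131_pm_102_a : ∃ t, chk3 f_pm_102_a t 4292 32767 3 = true := ex3_c k38_pm_102_a k39_pm_102_a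

theorem s132_pm_102_a : ∃ t, chk3 f_pm_102_a t 4292 32767 1 = true := ex3_c k37_pm_102_a s131_pm_102_a

theorem s133_pm_102_a : ∃ t, chk3 f_pm_102_a t 2146 32767 1 = true := ex3_a s132_pm_102_a k40_pm_102_a

theorem s134_pm_102_a : ∃ t, chk3 f_pm_102_a t 2146 16383 1 = true := ex3_b k36_pm_102_a s133_pm_102_a

theorem s135_pm_102_a : ∃ t, chk3 f_pm_102_a t 2146 8191 1 = true := ex3_b k35_pm_102_a s134_pm_102_a

theorem s136_pm_102_a : ∃ t, chk3 f_pm_102_a t 1073 8191 1 = true := ex3_a s135_pm_102_a k41_pm_102_a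

theorem s137_pm_102_a : ∃ t, chk3 f_pm_102_a t 1073 4095 1 = true := ex3_b k34_pm_102_a s136_pm_102_a

theorem s138_pm_102_a : ∃ t, chk3 f_pm_102_a t 1073 2047 1 = true := ex3_b k33_pm_102_a s137_pm_102_a

theorem s139_pm_102_a : ∃ t, chk3 f_pm_102_a t 1073 1023 1 = true := ex3_b k32_pm_102_a s138_pm_102_a

theorem s140_pm_102_a : ∃ t, chk3 f_pm_102_a t 1072 2047 1 = true := ex3_c k30_pm_102_a k31_pm_102_a

theorem s141_pm_102_a : ∃ t, chk3 f_pm_102_a t 1072 1023 1 = true := ex3_b k29_pm_102_a s140_pm_102_a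

theorem s142_pm_102_a : ∃ t, chk3 f_pm_102_a t 536 1023 1 = true := ex3_a s141_pm_102_a s139_pm_102_a

theorem s143_pm_102_a : ∃ t, chk3 f_pm_102_a t 268 1023 1 = true := ex3_a s142_pm_102_a k42_pm_102_a

theorem s144_pm_102_a : ∃ t, chk3 f_pm_102_a t 268 511 1 = true := ex3_b k28_pm_102_a s143_pm_102_a

theorem s145_pm_102_a : ∃ t, chk3 f_pm_102_a t 134 511 1 = true := ex3_a s144_pm_102_a k43_pm_102_a

theorem s146_pm_102_a : ∃ t, chk3 f_pm_102_a t 134 255 1 = true := ex3_b k27_pm_102_a s145_pm_102_a

theorem s147_pm_102_a : ∃ t, chk3 f_pm_102_a t 67 255 1 = true := ex3_a s146_pm_102_a k44_pm_102_a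

theorem s148_pm_102_a : ∃ t, chk3 f_pm_102_a t 67 127 1 = true := ex3_b k26_pm_102_a s147_pm_102_a

theorem s149_pm_102_a : ∃ t, chk3 f_pm_102_a t 67 63 1 = true := ex3_b k25_pm_102_a s148_pm_102_a

theorem s150_pm_102_a : ∃ t, chk3 f_pm_102_a t 33 63 1 = true := ex3_a k24_pm_102_a s149_pm_102_a

theorem s151_pm_102_a : ∃ t, chk3 f_pm_102_a t 33 31 1 = true := ex3_b k23_pm_102_a s150_pm_102_a

theorem s152_pm_102_a : ∃ t, chk3 f_pm_102_a t 16 31 1 = true := ex3_a k22_pm_102_a s151_pm_102_a

theorem s153_pm_102_a : ∃ t, chk3 f_pm_102_a t 16 15 1 = true := ex3_b k21_pm_102_a s152_pm_102_a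

theorem s154_pm_102_a : ∃ t, chk3 f_pm_102_a t 8 15 1 = true := ex3_a s153_pm_102_a s130_pm_102_a

theorem s155_pm_102_a : ∃ t, chk3 f_pm_102_a t 8 7 1 = true := ex3_b k20_pm_102_a s154_pm_102_a

theorem s156_pm_102_a : ∃ t, chk3 f_pm_102_a t 4 7 1 = true := ex3_a s155_pm_102_a s128_pm_102_a

theorem s157_pm_102_a : ∃ t, chk3 f_pm_102_a t 4 3 1 = true := ex3_b k19_pm_102_a s156_pm_102_a

theorem s158_pm_102_a : ∃ t, chk3 f_pm_102_a t 2 3 1 = true := ex3_a s157_pm_102_a s123_pm_102_a

theorem s159_pm_102_a : ∃ t, chk3 f_pm_102_a t 23 5 1 = true := ex3_b k17_pm_102_a k18_pm_102_a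

theorem s160_pm_102_a : ∃ t, chk3 f_pm_102_a t 23 2 1 = true := ex3_b k16_pm_102_a s159_pm_102_a

theorem s161_pm_102_a : ∃ t, chk3 f_pm_102_a t 90 45 1 = true := ex3_a k12_pm_102_a k13_pm_102_a

theorem s162_pm_102_a : ∃ t, chk3 f_pm_102_a t 90 22 1 = true := ex3_b k11_pm_102_a s161_pm_102_a

theorem s163_pm_102_a : ∃ t, chk3 f_pm_102_a t 45 22 1 = true := ex3_a s162_pm_102_a k14_pm_102_a

theorem s164_pm_102_a : ∃ t, chk3 f_pm_102_a t 45 11 1 = true := ex3_b s163_pm_102_a k15_pm_102_a

theorem s165_pm_102_a : ∃ t, chk3 f_pm_102_a t 89 46 1 = true := ex3_a k8_pm_102_a k9_pm_102_a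

theorem s166_pm_102_a : ∃ t, chk3 f_pm_102_a t 89 23 1 = true := ex3_b s165_pm_102_a k10_pm_102_a

theorem s167_pm_102_a : ∃ t, chk3 f_pm_102_a t 88 47 1 = true := ex3_b k6_pm_102_a k7_pm_102_a

theorem s168_pm_102_a : ∃ t, chk3 f_pm_102_a t 88 23 1 = true := ex3_b k5_pm_102_a s167_pm_102_a

theorem s169_pm_102_a : ∃ t, chk3 f_pm_102_a t 44 23 1 = true := ex3_a s168_pm_102_a s166_pm_102_a

theorem s170_pm_102_a : ∃ t, chk3 f_pm_102_a t 44 11 1 = true := ex3_b k4_pm_102_a s169_pm_102_a

theorem s171_pm_102_a : ∃ t, chk3 f_pm_102_a t 22 11 1 = true := ex3_a s170_pm_102_a s164_pm_102_a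

theorem s172_pm_102_a : ∃ t, chk3 f_pm_102_a t 22 5 1 = true := ex3_b k3_pm_102_a s171_pm_102_a

theorem s173_pm_102_a : ∃ t, chk3 f_pm_102_a t 22 2 1 = true := ex3_b k2_pm_102_a s172_pm_102_a

theorem s174_pm_102_a : ∃ t, chk3 f_pm_102_a t 11 2 1 = true := ex3_a s173_pm_102_a s160_pm_102_a

theorem s175_pm_102_a : ∃ t, chk3 f_pm_102_a t 5 2 1 = true := ex3_a k1_pm_102_a s174_pm_102_a

theorem s176_pm_102_a : ∃ t, chk3 f_pm_102_a t 2 2 1 = true := ex3_a k0_pm_102_a s175_pm_102_a

theorem s177_pm_102_a : ∃ t, chk3 f_pm_102_a t 2 1 1 = true := ex3_b s176_pm_102_a s158_pm_102_a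

theorem s178_pm_102_a : ∃ t, chk3 f_pm_102_a t 1 1 1 = true := ex3_a s177_pm_102_a s92_pm_102_a

theorem c_pm_102_a : CertB 536870912 536870912 0 536870912 1033476505 6710887 3 eng mog cd0q1 cd2q2a pd0 false true false .npp 1 0 2
    ndB0q1 ndB2q2a pcB0 cut_pm_102_a xt_pm_102_a :=
  certB2 (fam := false) (s1 := true) (s2 := false) (a := 1) (b := 0) (c := 2) (cn := .npp) (n1 := ndB0q1) (n2 := ndB2q2a) (pc := pcB0) (cut := cut_pm_102_a) (xt := xt_pm_102_a) (P1 := 536870912) (W1 := 536870912) (P2 := 0) (W2 := 536870912) (P3 := 1033476505) (W3 := 6710887) (N0 := 3) (En := eng) (mo := mog) (C1 := cd0q1) (C2 := cd2q2a) (C3 := pd0)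
    rfl (fun _ => rfl) s178_pm_102_a

noncomputable def cut_pm_102_b : Cut := Cut.of [[⟨0, 1, 0, 16777216⟩, ⟨1, 0, 0, 16777216⟩, ⟨2, 1, 0, 16777216⟩], [⟨0, 0, 1, 46137344⟩, ⟨1, 1, 2, 46137344⟩, ⟨2, 1, 0, 1048576⟩, ⟨0, 0, 0, 1047972020⟩, ⟨0, 1, 0, 45097156⟩, ⟨1, 0, 0, 45097156⟩, ⟨1, 1, 0, 1047972020⟩]]

noncomputable def f_pm_102_b : ℕ → ℕ → ℕ → ℕ → Bool := onCell 536870912 536870912 0 536870912 1033476505 6710887
    (rowB 3 eng mog cd0q1 cd2q2b pd0 1 false true false .npp 1 0 2 (qsf 536870912 536870912 1239849684 370763052 0) ndB0q1 ndB2q2b pcB0 cut_pm_102_b Ext.none)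

def k0_pm_102_b : ∃ t, chk3 f_pm_102_b t 1 1 1 = true :=
  ⟨(a (b (l 1) (b (l 1) (a (l 1) (a (b (l 1) (a (b (l 1) (l 219075362391)) (b (l 224444328663) (a (l 173441517975) (l 16252672))))) (b (a (b (l 1) (l 233571426999)) (b (l 241624828663) (a (l 16505840) (l 16591448)))) (a (b (l 169146801591) (l 16284576)) (b (l 16458128) (l 16443456)))))))) (b (a (l 1) (l 3)) (a (b (b (a (l 1) (a (b (l 1) (b (l 1) (a (l 1) (l 409665877559)))) (a (b (l 1) (b (a (l 1) (a (l 1) (l 340409518503))) (a (l 316787251367) (a (l 16697616) (l 16678672))))) (l 3)))) (a (a (b (l 1) (l 348999182935)) (a (b (l 1) (l 179347965303)) (b (l 369937019879) (l 16666400)))) (a (b (b (a (l 359736688791) (l 16695496)) (l 16636736)) (a (l 16668536) (l 16674864))) (b (a (b (l 16690440) (l 16738592)) (b (l 16648368) (l 16646528))) (a (l 16665552) (b (l 16681288) (l 16686320))))))) (a (b (a (b (l 186864209367) (l 16591024)) (a (b (l 16691848) (l 16704472)) (l 16639680))) (a (b (l 16613840) (l 16576128)) (a (l 16688144) (l 16668880)))) (b (a (b (l 16641496)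 (l 16621624)) (b (a (l 16630320) (a (l 16632952) (l 16616520))) (a (l 16590248) (l 16579584)))) (a (b (l 16611984) (l 16611256)) (b (a (l 16566512) (l 16543712)) (a (l 16557520) (l 16526560))))))) (a (b (l 3) (a (b (a (b (l 3) (l 231558619063)) (l 3)) (a (b (l 192903827943) (l 16479848)) (b (l 3) (l 3)))) (l 3))) (l 3))))), by decide +kernel⟩

theorem c_pm_102_b : CertB 536870912 536870912 1239849684 370763052 1033476505 6710887 3 eng mog cd0q1 cd2q2b pd0 false true false .npp 1 0 2
    ndB0q1 ndB2q2b pcB0 cut_pm_102_b Ext.none :=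
  certB1 (fam := false) (s1 := true) (s2 := false) (a := 1) (b := 0) (c := 2) (cn := .npp) (n1 := ndB0q1) (n2 := ndB2q2b) (pc := pcB0) (cut := cut_pm_102_b) (xt := Ext.none) (P1 := 536870912) (W1 := 536870912) (P2 := 1239849684) (W2 := 370763052) (P3 := 1033476505) (W3 := 6710887) (N0 := 3) (En := eng) (mo := mog) (C1 := cd0q1) (C2 := cd2q2b) (C3 := pd0)
    rfl (fun _ => rfl) k0_pm_102_b

noncomputable def f_pm_112_a : ℕ → ℕ → ℕ → ℕ → Bool := onCell 536870912 536870912 0 536870912 1033476505 6710887
    (rowB 3 eng mog cd0q1 cd2q2a pd1 0 false true false .dn 1 1 2 (qsf 536870912 536870912 0 536870912 1) ndB0q1 ndB2q2a pcB1 Cut.none Ext.none)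

def k0_pm_112_a : ∃ t, chk3 f_pm_112_a t 1 1 1 = true :=
  ⟨(a (a (b (a (b (b (a (b (a (l 16370552) (l 16359320)) (a (l 16412864) (b (l 16369472) (l 16377832)))) (a (b (l 16309776) (l 16342824)) (l 16270816))) (a (l 16410848) (b (a (b (l 16351752) (l 16366872)) (b (l 16311744) (l 16326832))) (l 16365296)))) (a (b (l 16458112) (l 16455568)) (b (l 16387160) (l 16387936)))) (b (a (b (a (l 16217552) (l 16164344)) (b (a (l 16269928) (l 16218472)) (a (b (l 16297360) (l 16313248)) (b (l 16245536) (l 16268344))))) (b (a (l 16111424) (l 16058984)) (a (l 16189488) (l 16142640)))) (b (a (a (l 16336144) (b (l 16293656) (l 16310632))) (b (a (b (l 16243552) (l 16265688)) (l 16214096)) (a (l 16280648) (b (l 16246160) (l 16256208))))) (a (l 16327128) (l 16274680))))) (b (a (b (a (l 16426848) (l 16358808)) (a (l 16373632) (l 16303280))) (b (a (l 16299080) (l 16249720)) (a (l 16241488) (l 16190400)))) (a (b (a (l 16297848) (l 16225048)) (a (l 16204432) (l 16110120))) (b (a (l 16160224) (l 1)) (l 1))))) (b (a (b (a (b (a (l 16007184)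 (l 15956168)) (a (l 16096280) (l 16050600))) (b (l 1) (l 1))) (a (b (b (l 16147384) (a (b (l 16207600) (l 16229696)) (l 16185536))) (a (l 16241560) (l 1))) (l 1))) (l 1)) (b (l 1) (l 1)))) (l 1)), by decide +kernel⟩

theorem c_pm_112_a : CertB 536870912 536870912 0 536870912 1033476505 6710887 3 eng mog cd0q1 cd2q2a pd1 false true false .dn 1 1 2
    ndB0q1 ndB2q2a pcB1 Cut.none Ext.none :=
  certB0 (fam := false) (s1 := true) (s2 := false) (a := 1) (b := 1) (c := 2) (cn := .dn) (n1 := ndB0q1) (n2 := ndB2q2a) (pc := pcB1) (cut := Cut.none) (xt := Ext.none) (P1 := 536870912) (W1 := 536870912) (P2 := 0) (W2 := 536870912) (P3 := 1033476505) (W3 := 6710887) (N0 := 3) (En := eng) (mo := mog) (C1 := cd0q1) (C2 := cd2q2a) (C3 := pd1)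
    rfl k0_pm_112_a

noncomputable def f_pm_112_b : ℕ → ℕ → ℕ → ℕ → Bool := onCell 536870912 536870912 536870912 536870912 1033476505 6710887
    (rowB 3 eng mog cd0q1 cd2q2b pd1 1 false true false .dn 1 1 2 (qsf 536870912 536870912 1239849684 370763052 1) ndB0q1 ndB2q2b pcB1 Cut.none Ext.none)

def k0_pm_112_b : ∃ t, chk3 f_pm_112_b t 2 1 1 = true :=
  ⟨(b (a (b (a (b (l 1) (b (a (l 1) (b (l 1) (l 174515180551))) (a (b (l 1) (l 169146580775)) (a (l 142303129511) (l 16248056))))) (b (a (b (l 1) (a (l 1) (l 192231798407))) (b (a (l 1) (l 207800896999)) (a (l 118680653495) (l 16017328)))) (a (b (a (l 136397438775) (l 16131840)) (l 16134088)) (b (l 15988048) (l 16072952))))) (b (a (a (b (l 119754627671) (l 16430856)) (b (l 16302816) (l 16347016))) (a (b (l 16209232) (l 16259080)) (b (l 16113216) (l 16171848)))) (a (a (b (l 16486448) (l 16554056)) (l 16336464)) (a (l 16302680) (l 16293008))))) (b (a (b (a (b (a (l 119754185719) (l 15905520)) (l 15949128)) (b (l 15842432) (l 15805904))) (a (b (l 15938352) (l 15968328))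 (b (l 15824680) (l 15864432)))) (b (a (b (l 15672920) (l 15680160)) (b (l 15531816) (l 15551176))) (a (b (l 15709648) (l 15760720)) (l 15623176)))) (a (b (a (l 15945496) (l 15941304)) (a (l 16223768) (l 16157504))) (b (a (l 15876152) (l 15792808)) (a (l 16095048) (l 16038120)))))) (a (b (b (a (b (l 16536584) (l 16518080)) (b (l 16475712) (l 16548192))) (a (a (b (l 16385392) (l 16187768)) (l 16283952)) (b (l 16373304) (l 16180864)))) (a (b (a (b (l 15975032) (l 15745280)) (l 15879696)) (a (l 15372744) (l 15392888))) (b (b (l 15979552) (l 15772368)) (b (l 15561656) (l 2))))) (b (b (a (a (l 16457976) (l 16414280)) (a (l 16375696) (l 16344960))) (a (a (l 16284576) (l 16291304)) (a (l 16305448) (l 2)))) (a (b (a (l 15881728) (l 2)) (l 2)) (l 2))))), by decide +kernel⟩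

def k1_pm_112_b : ∃ t, chk3 f_pm_112_b t 3 1 1 = true :=
  ⟨(b (a (b (a (b (a (l 15402944) (a (l 15301848) (b (l 15284224) (l 15298752)))) (a (l 15514792) (b (a (l 15392704) (l 15350416)) (l 15459304)))) (b (a (b (l 15553480) (l 15520144)) (b (a (l 15854768) (l 16072912)) (a (l 15797504) (l 15996552)))) (a (b (l 15513432) (a (l 15464080) (l 15606984))) (b (l 15602952) (l 15837480))))) (a (b (a (l 15712720) (l 15635056)) (a (l 15985952) (l 15936464))) (b (a (a (b (l 15543800) (l 15663248)) (l 15683512)) (b (l 15849088) (l 15891280))) (a (b (l 15828544) (l 2)) (l 2))))) (a (b (a (b (b (a (a (l 16243728) (l 16318312)) (a (b (l 16464544) (l 16408408)) (l 3))) (a (l 16141160) (a (l 280950131159) (l 192366774887)))) (b (a (l 16126024) (a (l 16264136) (b (l 16372040) (l 16330872)))) (a (l 16072240) (l 16187304)))) (b (l 3) (a (b (l 260012359127) (a (l 589047071767) (l 2))) (l 3)))) (b (a (b (l 780172306439) (l 2)) (l 2)) (l 2))) (b (l 3) (l 2)))) (b (a (a (b (a (l 16319944) (l 2)) (l 2)) (l 2)) (l 2)) (l 2))), by decide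 +kernel⟩

theorem s2_pm_112_b : ∃ t, chk3 f_pm_112_b t 1 1 1 = true := ex3_a k0_pm_112_b k1_pm_112_b

theorem c_pm_112_b : CertB 536870912 536870912 1239849684 370763052 1033476505 6710887 3 eng mog cd0q1 cd2q2b pd1 false true false .dn 1 1 2
    ndB0q1 ndB2q2b pcB1 Cut.none Ext.none :=
  certB1 (fam := false) (s1 := true) (s2 := false) (a := 1) (b := 1) (c := 2) (cn := .dn) (n1 := ndB0q1) (n2 := ndB2q2b) (pc := pcB1) (cut := Cut.none) (xt := Ext.none) (P1 := 536870912) (W1 := 536870912) (P2 := 1239849684) (W2 := 370763052) (P3 := 1033476505) (W3 := 6710887) (N0 := 3) (En := eng) (mo := mog) (C1 := cd0q1) (C2 := cd2q2b) (C3 := pd1)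
    rfl (fun _ => rfl) s2_pm_112_b

noncomputable def cut_pm_113 : Cut := Cut.of [[⟨0, 1, 0, 20971520⟩, ⟨1, 1, 0, 20971520⟩, ⟨2, 2, 0, 1572864⟩]]

noncomputable def xt_pm_113 : Ext := extD3 3 ⟨4, 1, 1, 5, 27, 5, 41, 50, 81, 200, 1, 64⟩ eng cd0q1 cd2q3 pd1 false true false .nn 1 1 3 rfl ndB0q1 ndB2q3 pcB1

noncomputable def f_pm_113 : ℕ → ℕ → ℕ → ℕ → Bool := onCell 536870912 536870912 536870912 536870912 1033476505 6710887
    (rowB 3 eng mog cd0q1 cd2q3 pd1 1 false true false .nn 1 1 3 (qsf 536870912 536870912 1610612736 536870912 1) ndB0q1 ndB2q3 pcB1 cut_pm_113 xt_pm_113)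

def k0_pm_113 : ∃ t, chk3 f_pm_113 t 2 1 1 = true :=
  ⟨(b (a (l 1) (b (l 1) (b (l 1) (a (l 1) (b (l 1) (l 16534688)))))) (a (b (a (l 1) (b (l 1) (l 16357096))) (b (a (a (l 1) (l 16123968)) (l 16092240)) (a (a (l 15711408) (l 15771048)) (l 15776672)))) (b (a (b (l 16577248) (l 16240288)) (b (l 53720227399) (a (l 16421968) (l 16425968)))) (a (b (l 15837224) (a (l 15756920) (l 15739648))) (b (l 15879936) (a (l 15724568) (l 15716968))))))), by decide +kernel⟩

def k1_pm_113 : ∃ t, chk3 f_pm_113 t 3 2 1 = true :=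
  ⟨(a (b (a (l 1) (b (l 1) (a (l 1) (a (l 1) (l 16270808))))) (a (b (l 232496731895) (l 46740023175)) (b (a (b (l 15817456) (l 16031352)) (b (l 16270176) (l 16314632))) (a (b (l 16250696) (l 16407792)) (b (l 16382016) (l 16472576)))))) (a (b (a (b (l 1) (a (l 190621858423) (b (a (l 1) (l 161093734951)) (l 16380272)))) (b (l 3) (a (b (l 277191751511) (a (l 305109181351) (l 275044320311))) (l 3)))) (b (a (b (a (l 16469296) (l 16534464)) (l 16454024)) (a (b (a (l 16320912) (l 317457045783)) (a (l 16347856) (l 16212056))) (b (l 3) (a (l 330341777783) (l 3))))) (a (b (l 16521008) (l 16542792)) (a (b (l 16274960) (l 16297448)) (b (a (l 382418266823) (l 357185157783)) (b (l 381881254023) (l 16080760))))))) (b (l 3) (a (b (l 3) (a (b (l 3) (a (l 364164354567) (l 3))) (l 3))) (l 3))))), by decide +kernel⟩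

def k2_pm_113 : ∃ t, chk3 f_pm_113 t 3 6 1 = true :=
  ⟨(a (a (b (l 16474992) (a (l 16433896) (l 16440016))) (b (a (l 16423608) (b (l 16567840) (l 16669896))) (a (l 16437984) (b (l 16506784) (l 16319192))))) (a (b (a (b (l 16543920) (l 16466984)) (b (a (l 16279848) (l 15961024)) (a (l 16240128) (l 16074128)))) (a (b (l 16362720) (l 16225816)) (b (a (l 16176792) (l 16036672)) (a (l 16085528) (l 15971744))))) (b (a (a (b (a (b (l 15922536) (l 15951536)) (b (l 3) (l 374365027687))) (a (l 15954992) (b (l 408724788887) (l 15886144)))) (b (l 3) (a (b (l 3) (l 330878447447)) (l 3)))) (l 3)) (a (b (a (a (l 15936400) (b (l 15882944) (l 15873120))) (a (b (l 358795746695) (l 15847912)) (b (l 3) (l 358795658695)))) (a (a (l 15888912) (b (l 15857152) (l 15826112))) (a (b (l 15837256) (l 15810456)) (b (l 382418041879) (l 319604109719))))) (b (l 3) (a (b (l 3) (a (l 392618439639) (l 3))) (l 3))))))), by decide +kernel⟩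

def k3_pm_113 : ∃ t, chk3 f_pm_113 t 6 7 1 = true :=
  ⟨(b (a (a (l 16067080) (l 16064248)) (a (l 16053704) (b (l 16122216) (l 15929232)))) (a (a (l 15712208) (l 15705040)) (a (l 15690664) (l 15409296)))), by decide +kernel⟩

def k4_pm_113 : ∃ t, chk3 f_pm_113 t 7 14 1 = true :=
  ⟨(a (a (b (l 16046584) (l 15621560)) (b (a (l 15943416) (l 15854920)) (a (l 15771264) (l 15752664)))) (a (b (a (a (l 15788976) (l 15752096)) (a (b (l 15767064) (l 15718496)) (b (l 15769208) (l 15725400)))) (a (b (l 15683240) (l 15637704)) (a (b (l 15675384) (l 15648168)) (l 135158048707379215)))) (a (b (b (a (l 408187704439) (l 3)) (l 7072216044879794240329695247)) (b (a (l 15696632) (l 7855599975988957116563472463)) (a (l 15699720) (l 6143761015414580976180445263)))) (b (l 3) (a (b (l 3) (l 8542269841530892564721926223)) (l 3)))))), by decide +kernel⟩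

def k5_pm_113 : ∃ t, chk3 f_pm_113 t 14 15 1 = true :=
  ⟨(b (a (b (l 15715464) (l 15632592)) (b (a (l 15653592) (l 15622720)) (a (l 15597632) (l 15600096)))) (a (l 15389120) (a (l 15521856) (l 15589640)))), by decide +kernel⟩

def k6_pm_113 : ∃ t, chk3 f_pm_113 t 15 30 1 = true :=
  ⟨(a (a (b (a (l 15613176) (l 15618832)) (a (l 15625072) (l 15658712))) (b (a (l 15650816) (l 133893747822477327)) (a (l 15720128) (l 15804448)))) (b (a (a (l 133777886891655183) (b (l 15780896) (l 134148010193043535))) (a (b (l 7671843251408009983144607823) (a (l 134617020750692431) (l 7758885910421462713728090191))) (l 3))) (a (b (a (l 15854608) (l 15997624)) (l 136157642928537615)) (a (b (a (b (l 16009488) (l 16088008)) (a (b (l 162301566679) (l 578072673547354048883231)) (b (l 3) (l 7459654591030328720573475359)))) (a (l 16231536) (a (l 584452804173391549945887) (c (a (l 589059013814672280639519) (b (l 236390239367) (b (l 2449877989116935111823530015) (l 1453724700462701387206662175)))) (b (l 3881233276219302824844450335) (l 225446542008536707328595999))))))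 (b (l 3) (b (l 3) (b (l 3) (a (c (c (l 7101831933220872706320291871) (l 8301082543943462654083913759)) (l 8465490738361541252396095519)) (l 3))))))))), by decide +kernel⟩

def k7_pm_113 : ∃ t, chk3 f_pm_113 t 30 31 1 = true :=
  ⟨(a (a (l 15691544) (l 15794840)) (a (l 16062744) (l 138018704003153935))), by decide +kernel⟩

def k8_pm_113 : ∃ t, chk3 f_pm_113 t 62 31 1 = true :=
  ⟨(b (l 141176707889283087) (a (l 16665368) (l 16642720))), by decide +kernel⟩

def k9_pm_113 : ∃ t, chk3 f_pm_113 t 126 62 1 = true :=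
  ⟨(a (l 142596659215417423) (b (a (l 141837721198542927) (a (l 601388068154562281068575) (b (c (l 602476137824535048771615) (l 594706311574613018859551)) (l 16760928)))) (l 596445781894689057054239))), by decide +kernel⟩

def k10_pm_113 : ∃ t, chk3 f_pm_113 t 508 62 1 = true :=
  ⟨(b (b (b (a (b (a (c (l 2188755945878929045774407711) (l 134921957655)) (l 3)) (c (l 2237116934913657271224425503) (l 2430539808729936931699038239))) (l 3)) (a (c (c (l 2662659787260384592048856095) (l 2662658778165837684906155039)) (c (l 1927629064405828896606903327) (l 1337668483556640630733084703))) (a (a (b (l 3) (c (l 1608475862660952014683560991) (l 1608473802678453658375378975))) (l 3)) (l 3)))) (b (b (a (c (l 605210579403086455659551) (l 602331157945330834005023)) (a (c (a (l 2266131480284733422860164127) (l 1598804206208298857752386591)) (c (l 2140402316806855854421744671) (l 2188758827029769058287393823))) (l 3))) (c (c (l 2672330156908439925497015519) (l 2672330279694571988508650719)) (c (l 2672330403777840593602681887) (l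 2672329984979104045165288479)))) (c (c (b (l 2846415412963456129812819167) (l 2962472063079706409023270111)) (b (l 2856086942018275056228805855) (l 3039843442932859795570797791))) (c (b (l 2856087065957327043299323103) (l 3049514978328746997324442847)) (a (l 16777576) (l 2691673206659423739249355999)))))) (a (l 600750214332138728594975) (b (b (c (c (l 603710484467579482598623) (l 603832694137790679100639)) (c (l 603955768500229842365663) (l 604080284015580556356831))) (l 16769224)) (l 16765680)))), by decide +kernel⟩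

def k11_pm_113 : ∃ t, chk3 f_pm_113 t 1018 62 1 = true :=
  ⟨(a (b (b (l 3) (b (l 3) (b (l 3) (c (c (l 3029568104098343361195868383) (l 3058582323769081198529822943)) (c (l 3088200455541381372820696287) (l 3300971524597348563678801119)))))) (b (c (c (b (b (l 2150073757519075760335334623) (l 2546601586897024226314284255)) (l 604387537589755062562015)) (b (b (l 2140402524765062833316687071) (l 2720687022231282651224812767)) (l 604499659197213265947871))) (c (b (b (l 2140402652739338231085149407) (l 2556273228938137066464570591)) (l 604612501372571669814303)) (b (b (l 2130731368968550855517301983) (l 2720687259733093152623389919)) (l 604726640601527747681311)))) (l 603300764930705211678239))) (b (l 3) (b (b (b (l 3) (a (c (c (l 1569185714003918459711389919) (l 1560118259324339523129814239)) (c (l 1550446969500668481204481247) (l 1540775739628984948067724511))) (l 3))) (c (b (a (c (l 2449887494810643274743819487) (l 2237116662680073867895090399)) (b (l 3) (c (l 199883738407) (l 1560118062174753095672409311)))) (c (b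 (b (l 2546601662125130068083911903) (l 2740029882903117375623064799)) (b (l 2943129512832094689608559839) (l 2904443980999864300344253471))) (b (b (l 2546601771652662491654401247) (l 2740029991421842795467775007)) (c (l 2749701510388606528034266143) (l 2759372971132834277953707039))))) (c (c (b (l 2140402860841654625619012831) (b (l 2623973153379321432086027295) (l 2769044431588831651721272351))) (b (l 2140402917334802029162638559) (b (l 2614301801874406243665304607) (l 2769044486064372744394775583)))) (c (b (l 2140402977286715595794246879) (b (l 2614301857502868840945654815) (l 2778715947385061246617639967))) (b (l 2130731630537648824157281311) (b (l 2614301913131331438226005023) (l 2788387408705749748840504351))))))) (b (b (c (b (c (l 604307841864979314990111) (l 604413622413026993167391)) (l 16775520)) (b (c (l 604520267652203126479903) (l 604627777582507715599391)) (l 16775488))) (l 604809362719483294031391)) (l 16759920))))), by decide +kernel⟩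

def k12_pm_113 : ∃ t, chk3 f_pm_113 t 1019 62 1 = true :=
  ⟨(b (l 3) (b (b (l 3) (a (b (l 3) (b (l 3) (b (l 3) (b (l 3) (a (a (a (c (c (l 94120170183) (l 91972686471)) (c (l 1627819003492723765990202399) (c (l 88751460727) (l 88214589783)))) (l 3)) (l 3)) (l 3)))))) (l 3))) (b (b (b (a (a (a (c (c (c (l 2440216996035278064102693919) (l 2430545641359828738013125663)) (c (l 2430545693529526821472918559) (l 2430545745699224904932711455))) (c (c (l 2430545798445383740695927839) (l 2430545851191542576459144223)) (c (l 2430545904225931788374072351) (l 2372517518207049176054815775)))) (a (a (b (l 3) (b (l 3) (c (c (l 110763169207) (l 108615685655)) (c (l 105931331175) (l 1859932913909062304093821983))))) (l 3)) (l 3))) (l 3)) (l 3)) (a (a (c (c (a (l 16772248) (l 2353174373051821782488456735)) (c (l 2643315962746160608913087519) (l 2652987420608084597315394591))) (c (c (l 2652987471913091552320052255) (l 2652987523218098507324709919)) (c (l 2662658981656483248030424095) (l 2662659033826181331490216991)))) (a (c (c (l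 1782561268307492965975416351) (l 190220064407)) (c (l 1705190217901650381143792671) (l 1676176100552682814808415263))) (l 3))) (l 3))) (c (a (c (a (l 604262589695923492085279) (l 2343502221851726655472315999)) (a (l 604360876254191225708063) (l 2594958888744631652228734495))) (a (c (l 204178710087) (l 201494355399)) (l 3))) (a (c (b (l 2527259214919746981017082911) (l 2904444203801945065618938911)) (c (l 2662659051120003900591758367) (l 2662659100983858974837857311))) (a (c (l 1618147166896085514233797663) (l 1598804456680495733599460383)) (l 3))))) (c (c (a (l 604566960973139705388575) (l 2469230626418985402260401759)) (a (l 604657753541627494506015) (b (l 2188759986724640500657942111) (l 2682001889309880692589370911)))) (c (a (l 603991653142340888583711) (b (l 2179088673698527532612689439) (l 2691673382335910571500396063))) (a (l 604653718316361370377759) (b (l 2169417361969404253128055839) (l 2691673528468711280418119199)))))))), by decide +kernel⟩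

def k13_pm_113 : ∃ t, chk3 f_pm_113 t 255 62 1 = true :=
  ⟨(b (l 3) (a (b (l 3) (a (b (l 3) (a (b (l 3) (a (a (b (l 3) (c (l 188072582935) (l 1502090533208900842424835615))) (l 3)) (l 3))) (l 3))) (l 3))) (l 3))), by decide +kernel⟩

def k14_pm_113 : ∃ t, chk3 f_pm_113 t 126 63 1 = true :=
  ⟨(b (l 143317457917050959) (l 16689456)), by decide +kernel⟩

def k15_pm_113 : ∃ t, chk3 f_pm_113 t 254 63 1 = true :=
  ⟨(b (a (l 143566016357662799) (b (a (l 16768624) (b (b (c (l 603798250559943094083103) (l 603629059329142040436255)) (l 16776688)) (l 16764360))) (l 16768632))) (l 143620785682612303)), by decide +kernel⟩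

def k16_pm_113 : ∃ t, chk3 f_pm_113 t 510 63 1 = true :=
  ⟨(b (b (b (a (a (c (c (l 2401530832978495727603084895) (l 2401530915700605711684873823)) (c (l 2401530995972812061741637151) (a (l 2720687739780781472212606495) (b (l 371682430839) (l 2411202792505428028410945055))))) (b (l 3) (a (c (l 372756182423) (a (l 1434390603147211772341509663) (l 3))) (l 3)))) (l 3)) (a (c (a (l 604315912315511570193951) (a (l 2662659133265661103836995103) (b (l 373293054631) (l 2449888285282432003761872415)))) (a (l 604174967661573382872607) (a (b (l 2420874152657254501384085023) (l 604358282180805868805663)) (b (b (l 3) (l 202031233175)) (l 2440217011599718376302927391))))) (a (a (b (l 3) (b (l 3) (c (l 203104975287) (l 2411202782993825615405620767)))) (l 3)) (l 3)))) (a (b (a (l 16763832) (b (c (l 16777968) (l 604251060480877434789407)) (l 16772112))) (l 16766280)) (b (a (a (b (c (l 2469231163248100704693411359) (b (l 2121060675349500844357492255) (l 2798059125110321145340812831))) (c (l 16777640) (b (l 16776936) (l 16780592))))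 (b (a (b (l 3) (c (l 177872041927) (l 177872044103))) (l 3)) (c (l 2488574045537225047900659231) (a (l 2575616709161164366908382751) (b (l 1453733727549852082992274975) (l 2478902818836062733173169695)))))) (a (a (b (l 3) (c (l 2894773091816472459277164063) (c (l 2962473054159963658352057887) (l 3001158741204241159953604127)))) (l 3)) (l 3))) (b (a (c (l 604342141279741377814047) (a (l 16782104) (l 604459162812458976140831))) (a (c (b (l 2169417601200616459063270943) (l 2856087500176449463897071135)) (c (l 2498245492734625118690139679) (b (l 2140403532850812838518447647) (l 2836744751626219655084858911)))) (a (b (l 3) (c (l 198273141975) (c (l 196662527607) (l 195588788183)))) (l 3)))) (a (l 16772824) (c (c (a (l 16778376) (l 2527259516120490059568766495)) (b (l 2730359093591539669855280671) (l 2904444425739334702449024543))) (c (a (l 16778864) (a (l 2536931116944680619221655071) (b (l 195588787399) (l 2498245449788299072088268319)))) (a (l 604439851377256812011039) (b (a (l 2507916906785531932034997791) (l 194515045351))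 (b (b (l 2623973788350840094324301343) (l 2865758943338624268562980383)) (l 3107543942682005320877383199))))))))))) (b (a (l 16759976) (b (a (l 16765096) (b (a (l 16772232) (c (l 604524879338221569187359) (c (l 604470115566752742366751) (l 604433222078605324443167)))) (l 16773168))) (l 16771456))) (l 143934490152501327))), by decide +kernel⟩

def k17_pm_113 : ∃ t, chk3 f_pm_113 t 511 126 1 = true :=
  ⟨(b (l 3) (a (b (l 3) (a (a (a (b (l 3) (b (l 3) (b (l 3) (c (l 181630144295) (c (l 182167012439) (l 182167014839)))))) (l 3)) (l 3)) (l 3))) (l 3))), by decide +kernel⟩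

def k18_pm_113 : ∃ t, chk3 f_pm_113 t 1022 127 1 = true :=
  ⟨(b (b (b (a (a (c (c (l 2536930838946484126564626015) (l 2536930880019311422513290783)) (c (b (a (l 2536931024999190626826100255) (l 206863077015)) (l 2827073174725150316026912287)) (b (a (b (l 2188760457837237324769795615) (l 2807730411186940947326672415)) (l 205789334983)) (l 2817401808808716320020438559)))) (a (b (l 3) (c (l 209547432039) (c (l 207936817687) (l 206863076967)))) (l 3))) (l 3)) (b (a (a (c (l 16779544) (l 604494326918349488119327)) (c (a (l 2585287912083333911983631967) (l 3030172558937738901342301791)) (a (c (l 2585287975926348966728490527) (l 2585288019160905389485055519)) (c (l 209010559607) (l 207936818903))))) (l 3)) (a (c (l 3155900828901460020199517791) (c (l 3146229489502218087529819743) (l 3126886672209030303675538975))) (a (a (b (l 3) (c (l 185925109575) (l 3059186825878272102733672031))) (l 3)) (l 3))))) (b (b (a (c (l 16779064) (l 604347617656888265924127)) (a (c (a (l 2633644877710247826534428255) (l 3252010454907480896535478367))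 (a (l 2623973527646475860217867871) (c (l 220284848823) (l 218137364999)))) (l 3))) (a (l 16777176) (a (c (l 2933458436010739312498421343) (l 2904444273697825988389695071)) (a (a (c (l 188072593143) (l 3078529584516568787707145823)) (l 3)) (l 3))))) (a (l 16773080) (a (c (l 604363614482690701094495) (l 604346032424591485677151)) (b (c (a (l 2662659042617231168753856095) (l 371145572551)) (a (l 2652987681888936934091271775) (l 6163103828539503276302991455))) (c (l 3049515271170960006737882719) (l 3039843899778141304706346591))))))) (a (l 143967406815412303) (b (a (l 16774936) (b (c (l 604311156508670075973215) (l 604329603248758055693919)) (l 16769192))) (l 16763848)))), by decide +kernel⟩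

def k19_pm_113 : ∃ t, chk3 f_pm_113 t 1023 127 1 = true :=
  ⟨(b (b (l 3) (a (b (l 3) (b (l 3) (a (a (a (c (l 370608704551) (l 372756186599)) (l 3)) (l 3)) (l 3)))) (l 3))) (a (b (a (b (c (a (b (l 2681397468049388295581532255) (l 16777392)) (b (l 376514281239) (l 2710411687720137540348297311))) (c (a (l 3020501057553043369756454495) (b (l 377588025479) (l 2671726061492468101087461471))) (a (l 3010829665119410850782391903) (b (l 378661764535) (l 2652987619919409566166150751))))) (c (l 604269074892374903483999) (b (l 16778840) (l 16774800)))) (b (a (a (b (l 3) (c (l 374903669975) (l 6308174926893265443057451103))) (l 3)) (l 3)) (a (b (c (c (l 2739425907390890564686250079) (l 2710411687720136990592041055)) (a (l 2961868258199977866066919519) (b (l 351281349991) (l 2681397468049384722168774751)))) (c (l 16778288) (l 16778216))) (a (b (c (l 374903669591) (l 6327517740007097929304424543)) (c (l 3106939356553734878860050527) (l 2990882477870729378576466015))) (b (l 3) (b (c (l 372756187383) (l 375977412679)) (c (l 2749097313947805880097374303)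 (l 2700740281163216796098789471)))))))) (a (l 144035507829522511) (b (b (c (l 604334503179033969159775) (l 604345167703295178632799)) (l 16775392)) (l 16770504)))) (b (b (l 3) (a (a (a (b (l 3) (b (l 3) (c (l 373293058055) (l 375440540215)))) (l 3)) (l 3)) (l 3))) (a (a (b (b (c (b (a (l 2758768720504717965692420191) (l 373293056471)) (b (l 2990882477870726217479864415) (l 3435767179488908654260387935))) (a (l 3087596543439896276578599007) (b (l 6385546179348601366641246303) (l 2720083094277047083322327135)))) (c (l 604344014782546485866079) (l 604352949925993895407199))) (l 144073440987152463)) (b (b (a (b (l 3) (c (l 373293056183) (l 6395217585905516338454315103))) (l 3)) (b (c (a (a (l 3145624982781392567089643615) (b (l 202031236327) (l 154249725463))) (l 6424231805576266614013362271)) (a (c (l 2739425907390879500849922143) (l 2710411687720128469376385119)) (l 6414560399019348000067616863))) (b (a (l 144125461639479391) (a (c (l 2787782940175460544669909087) (l 2729754500833960749465600095)) (b (l 3) (l 6))))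 (a (l 16777264) (l 6))))) (l 6))) (b (b (l 3) (b (l 3) (b (l 3) (l 6)))) (l 6)))))), by decide +kernel⟩

theorem s20_pm_113 : ∃ t, chk3 f_pm_113 t 511 127 1 = true := ex3_a k18_pm_113 k19_pm_113

theorem s21_pm_113 : ∃ t, chk3 f_pm_113 t 511 63 1 = true := ex3_b k17_pm_113 s20_pm_113

theorem s22_pm_113 : ∃ t, chk3 f_pm_113 t 255 63 1 = true := ex3_a k16_pm_113 s21_pm_113

theorem s23_pm_113 : ∃ t, chk3 f_pm_113 t 127 63 1 = true := ex3_a k15_pm_113 s22_pm_113

theorem s24_pm_113 : ∃ t, chk3 f_pm_113 t 63 63 1 = true := ex3_a k14_pm_113 s23_pm_113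

theorem s25_pm_113 : ∃ t, chk3 f_pm_113 t 509 62 1 = true := ex3_a k11_pm_113 k12_pm_113

theorem s26_pm_113 : ∃ t, chk3 f_pm_113 t 254 62 1 = true := ex3_a k10_pm_113 s25_pm_113

theorem s27_pm_113 : ∃ t, chk3 f_pm_113 t 127 62 1 = true := ex3_a s26_pm_113 k13_pm_113

theorem s28_pm_113 : ∃ t, chk3 f_pm_113 t 63 62 1 = true := ex3_a k9_pm_113 s27_pm_113

theorem s29_pm_113 : ∃ t, chk3 f_pm_113 t 63 31 1 = true := ex3_b s28_pm_113 s24_pm_113

theorem s30_pm_113 : ∃ t, chk3 f_pm_113 t 31 31 1 = true := ex3_a k8_pm_113 s29_pm_113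

theorem s31_pm_113 : ∃ t, chk3 f_pm_113 t 15 31 1 = true := ex3_a k7_pm_113 s30_pm_113

theorem s32_pm_113 : ∃ t, chk3 f_pm_113 t 15 15 1 = true := ex3_b k6_pm_113 s31_pm_113

theorem s33_pm_113 : ∃ t, chk3 f_pm_113 t 7 15 1 = true := ex3_a k5_pm_113 s32_pm_113

theorem s34_pm_113 : ∃ t, chk3 f_pm_113 t 7 7 1 = true := ex3_b k4_pm_113 s33_pm_113

theorem s35_pm_113 : ∃ t, chk3 f_pm_113 t 3 7 1 = true := ex3_a k3_pm_113 s34_pm_113

theorem s36_pm_113 : ∃ t, chk3 f_pm_113 t 3 3 1 = true := ex3_b k2_pm_113 s35_pm_113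

theorem s37_pm_113 : ∃ t, chk3 f_pm_113 t 3 1 1 = true := ex3_b k1_pm_113 s36_pm_113

theorem s38_pm_113 : ∃ t, chk3 f_pm_113 t 1 1 1 = true := ex3_a k0_pm_113 s37_pm_113

theorem c_pm_113 : CertB 536870912 536870912 1610612736 536870912 1033476505 6710887 3 eng mog cd0q1 cd2q3 pd1 false true false .nn 1 1 3
    ndB0q1 ndB2q3 pcB1 cut_pm_113 xt_pm_113 :=
  certB1 (fam := false) (s1 := true) (s2 := false) (a := 1) (b := 1) (c := 3) (cn := .nn) (n1 := ndB0q1) (n2 := ndB2q3) (pc := pcB1) (cut := cut_pm_113) (xt := xt_pm_113) (P1 := 536870912) (W1 := 536870912) (P2 := 1610612736) (W2 := 536870912) (P3 := 1033476505) (W3 := 6710887) (N0 := 3) (En := eng) (mo := mog) (C1 := cd0q1) (C2 := cd2q3) (C3 := pd1)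
    rfl (fun _ => rfl) s38_pm_113

noncomputable def cut_pm_123 : Cut := Cut.of [[⟨0, 1, 0, 20971520⟩, ⟨1, 1, 0, 20971520⟩, ⟨2, 2, 0, 1572864⟩]]

noncomputable def xt_pm_123 : Ext := extD3 3 ⟨4, 1, 1, 5, 27, 5, 41, 50, 81, 200, 1, 64⟩ eng cd0q1 cd2q3 pd2 false true false .npn 1 2 3 rfl ndB0q1 ndB2q3 pcB2

noncomputable def f_pm_123 : ℕ → ℕ → ℕ → ℕ → Bool := onCell 536870912 536870912 1073741824 536870912 1033476505 6710887
    (rowB 3 eng mog cd0q1 cd2q3 pd2 1 false true false .npn 1 2 3 (qsf 536870912 536870912 1610612736 536870912 2) ndB0q1 ndB2q3 pcB2 cut_pm_123 xt_pm_123)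

def k0_pm_123 : ∃ t, chk3 f_pm_123 t 2 1 1 = true :=
  ⟨(b (a (b (a (b (b (a (l 16084352) (l 16058544)) (a (l 15890552) (l 15875112))) (b (l 15711288) (l 15557112))) (b (b (a (l 16033160) (l 16006648)) (a (l 15860704) (l 15846096))) (b (l 15704048) (l 15571920)))) (a (b (l 15337064) (l 15151408)) (b (l 15405800) (l 15242664)))) (b (a (b (a (b (l 15977544) (l 15830248)) (b (l 15944480) (l 15812400))) (a (l 15641664) (l 15646616))) (b (a (b (l 15912408) (l 15796608)) (b (l 15885696) (l 15785856))) (a (l 15655224) (l 15668424)))) (a (b (a (l 15449424) (l 15484688)) (l 15357824)) (b (a (l 15525840) (l 15571096)) (a (l 15463488) (l 15541728)))))) (a (a (b (b (l 15011640) (l 14938384)) (b (l 14931880) (l 15013512))) (b (b (l 15145968) (l 15116008)) (b (l 15173840) (l 15357072)))) (b (a (b (a (l 15264728) (l 15361552)) (l 15358440)) (b (a (l 15473392) (l 15596072)) (a (l 15584504) (l 2)))) (a (b (l 15524888) (l 2)) (l 2))))), by decide +kernel⟩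

def k1_pm_123 : ∃ t, chk3 f_pm_123 t 6 2 1 = true :=
  ⟨(b (a (b (a (b (l 15860080) (l 15776880)) (b (l 15831320) (l 15767480))) (a (l 15684456) (l 15704256))) (a (b (b (l 15691888) (l 15759064)) (l 15735448)) (b (a (b (l 15768088) (l 15759256)) (b (l 15744440) (l 15771088))) (b (l 15788480) (a (l 15793824) (l 15868952)))))) (a (b (a (l 15620808) (b (l 15678984) (l 15683664))) (a (l 15629040) (l 15733576))) (b (a (b (l 15749912) (l 15776120)) (b (l 15859200) (l 15909728))) (a (l 15866760) (l 2))))), by decide +kernel⟩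

def k2_pm_123 : ∃ t, chk3 f_pm_123 t 7 2 1 = true :=
  ⟨(b (b (a (a (b (a (l 15723344) (l 15723696)) (a (l 15810472) (l 15897256))) (b (a (l 15769432) (b (l 15794208) (l 15990720))) (a (l 16052720) (b (l 16193896) (l 16363536))))) (b (a (a (a (l 16061344) (l 16224344)) (b (a (l 16312048) (l 16545176)) (a (l 16534792) (b (l 16534112) (l 16534808))))) (a (b (a (l 142028417629929487) (b (l 16553920) (l 16623256))) (a (b (l 142170735688892431) (l 16595448)) (b (l 16658504) (l 16699648)))) (a (b (b (b (l 16649048) (l 16624944)) (a (l 16694432) (l 16721184))) (b (l 16679816) (l 2))) (b (a (b (a (l 16689504) (b (l 16719816) (l 16743448))) (l 785542623671)) (b (a (b (a (l 16734896) (l 16744904)) (l 16720264)) (b (a (b (l 16748424) (l 16748064)) (b (a (l 603449059269294623254095) (b (l 6) (l 2))) (l 2))) (l 2))) (l 2))) (l 2))))) (a (a (a (l 16438328) (l 16510712)) (b (a (l 16469440) (b (l 16507088) (l 16575536))) (a (l 840839787767) (l 2)))) (a (b (l 764067417527) (l 2)) (l 2))))) (a (a (b (a (l 15915824) (l 16085152))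 (a (l 15975360) (l 16110064))) (b (a (l 16227808) (l 16354000)) (a (l 16260672) (l 2)))) (a (a (b (b (a (l 16473232) (l 2)) (l 2)) (l 2)) (l 2)) (l 2)))) (a (b (a (b (l 16084928) (l 2)) (l 2)) (l 2)) (l 2))), by decide +kernel⟩

def k3_pm_123 : ∃ t, chk3 f_pm_123 t 3 3 1 = true :=
  ⟨(a (b (a (b (a (l 15734232) (l 2)) (l 2)) (l 2)) (l 2)) (l 2)), by decide +kernel⟩

theorem s4_pm_123 : ∃ t, chk3 f_pm_123 t 3 2 1 = true := ex3_a k1_pm_123 k2_pm_123

theorem s5_pm_123 : ∃ t, chk3 f_pm_123 t 3 1 1 = true := ex3_b s4_pm_123 k3_pm_123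

theorem s6_pm_123 : ∃ t, chk3 f_pm_123 t 1 1 1 = true := ex3_a k0_pm_123 s5_pm_123

theorem c_pm_123 : CertB 536870912 536870912 1610612736 536870912 1033476505 6710887 3 eng mog cd0q1 cd2q3 pd2 false true false .npn 1 2 3
    ndB0q1 ndB2q3 pcB2 cut_pm_123 xt_pm_123 :=
  certB1 (fam := false) (s1 := true) (s2 := false) (a := 1) (b := 2) (c := 3) (cn := .npn) (n1 := ndB0q1) (n2 := ndB2q3) (pc := pcB2) (cut := cut_pm_123) (xt := xt_pm_123) (P1 := 536870912) (W1 := 536870912) (P2 := 1610612736) (W2 := 536870912) (P3 := 1033476505) (W3 := 6710887) (N0 := 3) (En := eng) (mo := mog) (C1 := cd0q1) (C2 := cd2q3) (C3 := pd2)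
    rfl (fun _ => rfl) s6_pm_123

noncomputable def f_pm_133 : ℕ → ℕ → ℕ → ℕ → Bool := onCell 536870912 536870912 1610612736 536870912 1033476505 6710887
    (rowB 3 eng mog cd0q1 cd2q3 pd3 0 false true false .dn 1 3 3 (qsf 536870912 536870912 1610612736 536870912 3) ndB0q1 ndB2q3 pcB3 Cut.none Ext.none)

def k0_pm_133 : ∃ t, chk3 f_pm_133 t 1 1 1 = true :=
  ⟨(a (b (l 1) (a (b (l 1) (b (l 1) (a (l 14729808) (l 1)))) (l 1))) (l 1)), by decide +kernel⟩

theorem c_pm_133 : CertB 536870912 536870912 1610612736 536870912 1033476505 6710887 3 eng mog cd0q1 cd2q3 pd3 false true false .dn 1 3 3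
    ndB0q1 ndB2q3 pcB3 Cut.none Ext.none :=
  certB0 (fam := false) (s1 := true) (s2 := false) (a := 1) (b := 3) (c := 3) (cn := .dn) (n1 := ndB0q1) (n2 := ndB2q3) (pc := pcB3) (cut := Cut.none) (xt := Ext.none) (P1 := 536870912) (W1 := 536870912) (P2 := 1610612736) (W2 := 536870912) (P3 := 1033476505) (W3 := 6710887) (N0 := 3) (En := eng) (mo := mog) (C1 := cd0q1) (C2 := cd2q3) (C3 := pd3)
    rfl k0_pm_133

noncomputable def cut_pm_202_a : Cut := Cut.of [[⟨0, 1, 0, 33554432⟩, ⟨1, 0, 0, 33554432⟩, ⟨2, 1, 0, 33554432⟩], [⟨0, 0, 1, 46137344⟩, ⟨1, 1, 2, 46137344⟩, ⟨2, 1, 0, 1048576⟩, ⟨0, 0, 0, 1047972020⟩, ⟨0, 1, 0, 45097156⟩, ⟨1, 0, 0, 45097156⟩, ⟨1, 1, 0, 1047972020⟩]]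

noncomputable def f_pm_202_a : ℕ → ℕ → ℕ → ℕ → Bool := onCell 0 536870912 0 536870912 1033476505 6710887
    (rowB 3 eng mog cd0q2 cd2q2a pd0 0 false true false .pp 2 0 2 (qsf 0 536870912 0 536870912 0) ndB0q2 ndB2q2a pcB0 cut_pm_202_a Ext.none)

def k0_pm_202_a : ∃ t, chk3 f_pm_202_a t 1 1 1 = true :=
  ⟨(a (l 3) (b (l 3) (a (l 3) (b (l 3) (a (l 3) (b (l 3) (a (l 3) (b (l 3) (l 6))))))))), by decide +kernel⟩

theorem c_pm_202_a : CertB 0 536870912 0 536870912 1033476505 6710887 3 eng mog cd0q2 cd2q2a pd0 false true false .pp 2 0 2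
    ndB0q2 ndB2q2a pcB0 cut_pm_202_a Ext.none :=
  certB0 (fam := false) (s1 := true) (s2 := false) (a := 2) (b := 0) (c := 2) (cn := .pp) (n1 := ndB0q2) (n2 := ndB2q2a) (pc := pcB0) (cut := cut_pm_202_a) (xt := Ext.none) (P1 := 0) (W1 := 536870912) (P2 := 0) (W2 := 536870912) (P3 := 1033476505) (W3 := 6710887) (N0 := 3) (En := eng) (mo := mog) (C1 := cd0q2) (C2 := cd2q2a) (C3 := pd0)
    rfl k0_pm_202_a

noncomputable def cut_pm_202_b : Cut := Cut.of [[⟨0, 1, 0, 33554432⟩, ⟨1, 0, 0, 33554432⟩, ⟨2, 1, 0, 33554432⟩], [⟨0, 0, 1, 46137344⟩, ⟨1, 1, 2, 46137344⟩, ⟨2, 1, 0, 1048576⟩, ⟨0, 0, 0, 1047972020⟩, ⟨0, 1, 0, 45097156⟩, ⟨1, 0, 0, 45097156⟩, ⟨1, 1, 0, 1047972020⟩]]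

noncomputable def f_pm_202_b : ℕ → ℕ → ℕ → ℕ → Bool := onCell 0 536870912 1239849684 370763052 1033476505 6710887
    (rowB 3 eng mog cd0q2 cd2q2b pd0 0 false true false .pp 2 0 2 (qsf 0 536870912 1239849684 370763052 0) ndB0q2 ndB2q2b pcB0 cut_pm_202_b Ext.none)

def k0_pm_202_b : ∃ t, chk3 f_pm_202_b t 1 1 1 = true :=
  ⟨(l 3), by decide +kernel⟩

theorem c_pm_202_b : CertB 0 536870912 1239849684 370763052 1033476505 6710887 3 eng mog cd0q2 cd2q2b pd0 false true false .pp 2 0 2
    ndB0q2 ndB2q2b pcB0 cut_pm_202_b Ext.none :=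
  certB0 (fam := false) (s1 := true) (s2 := false) (a := 2) (b := 0) (c := 2) (cn := .pp) (n1 := ndB0q2) (n2 := ndB2q2b) (pc := pcB0) (cut := cut_pm_202_b) (xt := Ext.none) (P1 := 0) (W1 := 536870912) (P2 := 1239849684) (W2 := 370763052) (P3 := 1033476505) (W3 := 6710887) (N0 := 3) (En := eng) (mo := mog) (C1 := cd0q2) (C2 := cd2q2b) (C3 := pd0)
    rfl k0_pm_202_b

noncomputable def f_pm_203 : ℕ → ℕ → ℕ → ℕ → Bool := onCell 0 536870912 0 536870912 1033476505 6710887
    (rowB 3 eng mog cd0q2 cd2q3 pd0 1 false true false .up 2 0 3 (qsf 0 536870912 1610612736 536870912 0) ndB0q2 ndB2q3 pcB0 Cut.none Ext.none)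

def k0_pm_203 : ∃ t, chk3 f_pm_203 t 1 1 1 = true :=
  ⟨(l 3), by decide +kernel⟩

theorem c_pm_203 : CertB 0 536870912 1610612736 536870912 1033476505 6710887 3 eng mog cd0q2 cd2q3 pd0 false true false .up 2 0 3
    ndB0q2 ndB2q3 pcB0 Cut.none Ext.none :=
  certB1 (fam := false) (s1 := true) (s2 := false) (a := 2) (b := 0) (c := 3) (cn := .up) (n1 := ndB0q2) (n2 := ndB2q3) (pc := pcB0) (cut := Cut.none) (xt := Ext.none) (P1 := 0) (W1 := 536870912) (P2 := 1610612736) (W2 := 536870912) (P3 := 1033476505) (W3 := 6710887) (N0 := 3) (En := eng) (mo := mog) (C1 := cd0q2) (C2 := cd2q3) (C3 := pd0)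
    rfl (fun _ => rfl) k0_pm_203

noncomputable def cut_pm_213 : Cut := Cut.of [[⟨0, 1, 0, 20971520⟩, ⟨1, 1, 0, 20971520⟩, ⟨2, 2, 0, 1572864⟩]]

noncomputable def f_pm_213 : ℕ → ℕ → ℕ → ℕ → Bool := onCell 0 536870912 1610612736 536870912 1033476505 6710887
    (rowB 3 eng mog cd0q2 cd2q3 pd1 0 false true false .pnn 2 1 3 (qsf 0 536870912 1610612736 536870912 1) ndB0q2 ndB2q3 pcB1 cut_pm_213 Ext.none)

def k0_pm_213 : ∃ t, chk3 f_pm_213 t 1 1 1 = true :=
  ⟨(a (l 3) (b (l 3) (a (l 3) (b (l 3) (b (l 3) (a (l 3) (b (l 3) (a (l 3) (b (l 3) (a (l 3) (a (l 3) (b (l 3) (b (l 3) (b (l 3) (b (l 3) (l 6)))))))))))))))), by decide +kernel⟩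

theorem c_pm_213 : CertB 0 536870912 1610612736 536870912 1033476505 6710887 3 eng mog cd0q2 cd2q3 pd1 false true false .pnn 2 1 3
    ndB0q2 ndB2q3 pcB1 cut_pm_213 Ext.none :=
  certB0 (fam := false) (s1 := true) (s2 := false) (a := 2) (b := 1) (c := 3) (cn := .pnn) (n1 := ndB0q2) (n2 := ndB2q3) (pc := pcB1) (cut := cut_pm_213) (xt := Ext.none) (P1 := 0) (W1 := 536870912) (P2 := 1610612736) (W2 := 536870912) (P3 := 1033476505) (W3 := 6710887) (N0 := 3) (En := eng) (mo := mog) (C1 := cd0q2) (C2 := cd2q3) (C3 := pd1)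
    rfl k0_pm_213

noncomputable def f_mm_001 : ℕ → ℕ → ℕ → ℕ → Bool := onCell 0 536870912 536870912 536870912 1033476505 6710887
    (rowB 3 eng mog cd0q0 cd2q1 pd0 0 false false false .up 0 0 1 (qsf 0 536870912 536870912 536870912 0) ndB0q0 ndB2q1 pcB0 Cut.none Ext.none)

def k0_mm_001 : ∃ t, chk3 f_mm_001 t 1 1 1 = true :=
  ⟨(l 3), by decide +kernel⟩

theorem c_mm_001 : CertB 0 536870912 536870912 536870912 1033476505 6710887 3 eng mog cd0q0 cd2q1 pd0 false false false .up 0 0 1
    ndB0q0 ndB2q1 pcB0 Cut.none Ext.none :=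
  certB0 (fam := false) (s1 := false) (s2 := false) (a := 0) (b := 0) (c := 1) (cn := .up) (n1 := ndB0q0) (n2 := ndB2q1) (pc := pcB0) (cut := Cut.none) (xt := Ext.none) (P1 := 0) (W1 := 536870912) (P2 := 536870912) (W2 := 536870912) (P3 := 1033476505) (W3 := 6710887) (N0 := 3) (En := eng) (mo := mog) (C1 := cd0q0) (C2 := cd2q1) (C3 := pd0)
    rfl k0_mm_001

noncomputable def f_mm_011 : ℕ → ℕ → ℕ → ℕ → Bool := onCell 0 536870912 536870912 536870912 1033476505 6710887
    (rowB 3 eng mog cd0q0 cd2q1 pd1 0 false false false .pnn 0 1 1 (qsf 0 536870912 536870912 536870912 1) ndB0q0 ndB2q1 pcB1 Cut.none Ext.none)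

def k0_mm_011 : ∃ t, chk3 f_mm_011 t 1 1 1 = true :=
  ⟨(l 3), by decide +kernel⟩

theorem c_mm_011 : CertB 0 536870912 536870912 536870912 1033476505 6710887 3 eng mog cd0q0 cd2q1 pd1 false false false .pnn 0 1 1
    ndB0q0 ndB2q1 pcB1 Cut.none Ext.none :=
  certB0 (fam := false) (s1 := false) (s2 := false) (a := 0) (b := 1) (c := 1) (cn := .pnn) (n1 := ndB0q0) (n2 := ndB2q1) (pc := pcB1) (cut := Cut.none) (xt := Ext.none) (P1 := 0) (W1 := 536870912) (P2 := 536870912) (W2 := 536870912) (P3 := 1033476505) (W3 := 6710887) (N0 := 3) (En := eng) (mo := mog) (C1 := cd0q0) (C2 := cd2q1) (C3 := pd1)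
    rfl k0_mm_011

noncomputable def f_mm_012_a : ℕ → ℕ → ℕ → ℕ → Bool := onCell 0 536870912 0 536870912 1033476505 6710887
    (rowB 3 eng mog cd0q0 cd2q2a pd1 0 false false false .pnp 0 1 2 (qsf 0 536870912 0 536870912 1) ndB0q0 ndB2q2a pcB1 Cut.none Ext.none)

def k0_mm_012_a : ∃ t, chk3 f_mm_012_a t 1 1 1 = true :=
  ⟨(l 5), by decide +kernel⟩

theorem c_mm_012_a : CertB 0 536870912 0 536870912 1033476505 6710887 3 eng mog cd0q0 cd2q2a pd1 false false false .pnp 0 1 2
    ndB0q0 ndB2q2a pcB1 Cut.none Ext.none :=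
  certB0 (fam := false) (s1 := false) (s2 := false) (a := 0) (b := 1) (c := 2) (cn := .pnp) (n1 := ndB0q0) (n2 := ndB2q2a) (pc := pcB1) (cut := Cut.none) (xt := Ext.none) (P1 := 0) (W1 := 536870912) (P2 := 0) (W2 := 536870912) (P3 := 1033476505) (W3 := 6710887) (N0 := 3) (En := eng) (mo := mog) (C1 := cd0q0) (C2 := cd2q2a) (C3 := pd1)
    rfl k0_mm_012_a

noncomputable def f_mm_012_b : ℕ → ℕ → ℕ → ℕ → Bool := onCell 0 536870912 1239849684 370763052 1033476505 6710887
    (rowB 3 eng mog cd0q0 cd2q2b pd1 0 false false false .pnp 0 1 2 (qsf 0 536870912 1239849684 370763052 1) ndB0q0 ndB2q2b pcB1 Cut.none Ext.none)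

def k0_mm_012_b : ∃ t, chk3 f_mm_012_b t 1 1 1 = true :=
  ⟨(l 5), by decide +kernel⟩

theorem c_mm_012_b : CertB 0 536870912 1239849684 370763052 1033476505 6710887 3 eng mog cd0q0 cd2q2b pd1 false false false .pnp 0 1 2
    ndB0q0 ndB2q2b pcB1 Cut.none Ext.none :=
  certB0 (fam := false) (s1 := false) (s2 := false) (a := 0) (b := 1) (c := 2) (cn := .pnp) (n1 := ndB0q0) (n2 := ndB2q2b) (pc := pcB1) (cut := Cut.none) (xt := Ext.none) (P1 := 0) (W1 := 536870912) (P2 := 1239849684) (W2 := 370763052) (P3 := 1033476505) (W3 := 6710887) (N0 := 3) (En := eng) (mo := mog) (C1 := cd0q0) (C2 := cd2q2b) (C3 := pd1)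
    rfl k0_mm_012_b

noncomputable def f_mm_022_a : ℕ → ℕ → ℕ → ℕ → Bool := onCell 0 536870912 0 536870912 1033476505 6710887
    (rowB 3 eng mog cd0q0 cd2q2a pd2 0 false false false .pp 0 2 2 (qsf 0 536870912 0 536870912 2) ndB0q0 ndB2q2a pcB2 Cut.none Ext.none)

def k0_mm_022_a : ∃ t, chk3 f_mm_022_a t 1 1 1 = true :=
  ⟨(l 5), by decide +kernel⟩

theorem c_mm_022_a : CertB 0 536870912 0 536870912 1033476505 6710887 3 eng mog cd0q0 cd2q2a pd2 false false false .pp 0 2 2
    ndB0q0 ndB2q2a pcB2 Cut.none Ext.none :=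
  certB0 (fam := false) (s1 := false) (s2 := false) (a := 0) (b := 2) (c := 2) (cn := .pp) (n1 := ndB0q0) (n2 := ndB2q2a) (pc := pcB2) (cut := Cut.none) (xt := Ext.none) (P1 := 0) (W1 := 536870912) (P2 := 0) (W2 := 536870912) (P3 := 1033476505) (W3 := 6710887) (N0 := 3) (En := eng) (mo := mog) (C1 := cd0q0) (C2 := cd2q2a) (C3 := pd2)
    rfl k0_mm_022_a

noncomputable def f_mm_022_b : ℕ → ℕ → ℕ → ℕ → Bool := onCell 0 536870912 1239849684 370763052 1033476505 6710887
    (rowB 3 eng mog cd0q0 cd2q2b pd2 0 false false false .pp 0 2 2 (qsf 0 536870912 1239849684 370763052 2) ndB0q0 ndB2q2b pcB2 Cut.none Ext.none)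

def k0_mm_022_b : ∃ t, chk3 f_mm_022_b t 1 1 1 = true :=
  ⟨(l 5), by decide +kernel⟩

theorem c_mm_022_b : CertB 0 536870912 1239849684 370763052 1033476505 6710887 3 eng mog cd0q0 cd2q2b pd2 false false false .pp 0 2 2
    ndB0q0 ndB2q2b pcB2 Cut.none Ext.none :=
  certB0 (fam := false) (s1 := false) (s2 := false) (a := 0) (b := 2) (c := 2) (cn := .pp) (n1 := ndB0q0) (n2 := ndB2q2b) (pc := pcB2) (cut := Cut.none) (xt := Ext.none) (P1 := 0) (W1 := 536870912) (P2 := 1239849684) (W2 := 370763052) (P3 := 1033476505) (W3 := 6710887) (N0 := 3) (En := eng) (mo := mog) (C1 := cd0q0) (C2 := cd2q2b) (C3 := pd2)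
    rfl k0_mm_022_b

noncomputable def f_mm_023 : ℕ → ℕ → ℕ → ℕ → Bool := onCell 0 536870912 1610612736 536870912 1033476505 6710887
    (rowB 3 eng mog cd0q0 cd2q3 pd2 0 false false false .up 0 2 3 (qsf 0 536870912 1610612736 536870912 2) ndB0q0 ndB2q3 pcB2 Cut.none Ext.none)

def k0_mm_023 : ∃ t, chk3 f_mm_023 t 1 1 1 = true :=
  ⟨(l 5), by decide +kernel⟩

theorem c_mm_023 : CertB 0 536870912 1610612736 536870912 1033476505 6710887 3 eng mog cd0q0 cd2q3 pd2 false false false .up 0 2 3
    ndB0q0 ndB2q3 pcB2 Cut.none Ext.none :=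
  certB0 (fam := false) (s1 := false) (s2 := false) (a := 0) (b := 2) (c := 3) (cn := .up) (n1 := ndB0q0) (n2 := ndB2q3) (pc := pcB2) (cut := Cut.none) (xt := Ext.none) (P1 := 0) (W1 := 536870912) (P2 := 1610612736) (W2 := 536870912) (P3 := 1033476505) (W3 := 6710887) (N0 := 3) (En := eng) (mo := mog) (C1 := cd0q0) (C2 := cd2q3) (C3 := pd2)
    rfl k0_mm_023

noncomputable def f_mm_033 : ℕ → ℕ → ℕ → ℕ → Bool := onCell 0 536870912 1610612736 536870912 1033476505 6710887
    (rowB 3 eng mog cd0q0 cd2q3 pd3 0 false false false .pnn 0 3 3 (qsf 0 536870912 1610612736 536870912 3) ndB0q0 ndB2q3 pcB3 Cut.none Ext.none)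

def k0_mm_033 : ∃ t, chk3 f_mm_033 t 1 1 1 = true :=
  ⟨(l 5), by decide +kernel⟩

theorem c_mm_033 : CertB 0 536870912 1610612736 536870912 1033476505 6710887 3 eng mog cd0q0 cd2q3 pd3 false false false .pnn 0 3 3
    ndB0q0 ndB2q3 pcB3 Cut.none Ext.none :=
  certB0 (fam := false) (s1 := false) (s2 := false) (a := 0) (b := 3) (c := 3) (cn := .pnn) (n1 := ndB0q0) (n2 := ndB2q3) (pc := pcB3) (cut := Cut.none) (xt := Ext.none) (P1 := 0) (W1 := 536870912) (P2 := 1610612736) (W2 := 536870912) (P3 := 1033476505) (W3 := 6710887) (N0 := 3) (En := eng) (mo := mog) (C1 := cd0q0) (C2 := cd2q3) (C3 := pd3)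
    rfl k0_mm_033

noncomputable def f_mm_101 : ℕ → ℕ → ℕ → ℕ → Bool := onCell 536870912 536870912 536870912 536870912 1033476505 6710887
    (rowB 3 eng mog cd0q1 cd2q1 pd0 0 false false false .npn 1 0 1 (qsf 536870912 536870912 536870912 536870912 0) ndB0q1 ndB2q1 pcB0 Cut.none Ext.none)

def k0_mm_101 : ∃ t, chk3 f_mm_101 t 1 1 1 = true :=
  ⟨(l 3), by decide +kernel⟩

theorem c_mm_101 : CertB 536870912 536870912 536870912 536870912 1033476505 6710887 3 eng mog cd0q1 cd2q1 pd0 false false false .npn 1 0 1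
    ndB0q1 ndB2q1 pcB0 Cut.none Ext.none :=
  certB0 (fam := false) (s1 := false) (s2 := false) (a := 1) (b := 0) (c := 1) (cn := .npn) (n1 := ndB0q1) (n2 := ndB2q1) (pc := pcB0) (cut := Cut.none) (xt := Ext.none) (P1 := 536870912) (W1 := 536870912) (P2 := 536870912) (W2 := 536870912) (P3 := 1033476505) (W3 := 6710887) (N0 := 3) (En := eng) (mo := mog) (C1 := cd0q1) (C2 := cd2q1) (C3 := pd0)
    rfl k0_mm_101

noncomputable def f_mm_102_a : ℕ → ℕ → ℕ → ℕ → Bool := onCell 536870912 536870912 0 536870912 1033476505 6710887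
    (rowB 3 eng mog cd0q1 cd2q2a pd0 0 false false false .npp 1 0 2 (qsf 536870912 536870912 0 536870912 0) ndB0q1 ndB2q2a pcB0 Cut.none Ext.none)

def k0_mm_102_a : ∃ t, chk3 f_mm_102_a t 1 1 1 = true :=
  ⟨(l 3), by decide +kernel⟩

theorem c_mm_102_a : CertB 536870912 536870912 0 536870912 1033476505 6710887 3 eng mog cd0q1 cd2q2a pd0 false false false .npp 1 0 2
    ndB0q1 ndB2q2a pcB0 Cut.none Ext.none :=
  certB0 (fam := false) (s1 := false) (s2 := false) (a := 1) (b := 0) (c := 2) (cn := .npp) (n1 := ndB0q1) (n2 := ndB2q2a) (pc := pcB0) (cut := Cut.none) (xt := Ext.none) (P1 := 536870912) (W1 := 536870912) (P2 := 0) (W2 := 536870912) (P3 := 1033476505) (W3 := 6710887) (N0 := 3) (En := eng) (mo := mog) (C1 := cd0q1) (C2 := cd2q2a) (C3 := pd0)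
    rfl k0_mm_102_a

noncomputable def f_mm_102_b : ℕ → ℕ → ℕ → ℕ → Bool := onCell 536870912 536870912 1239849684 370763052 1033476505 6710887
    (rowB 3 eng mog cd0q1 cd2q2b pd0 0 false false false .npp 1 0 2 (qsf 536870912 536870912 1239849684 370763052 0) ndB0q1 ndB2q2b pcB0 Cut.none Ext.none)

def k0_mm_102_b : ∃ t, chk3 f_mm_102_b t 1 1 1 = true :=
  ⟨(l 5), by decide +kernel⟩

theorem c_mm_102_b : CertB 536870912 536870912 1239849684 370763052 1033476505 6710887 3 eng mog cd0q1 cd2q2b pd0 false false false .npp 1 0 2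
    ndB0q1 ndB2q2b pcB0 Cut.none Ext.none :=
  certB0 (fam := false) (s1 := false) (s2 := false) (a := 1) (b := 0) (c := 2) (cn := .npp) (n1 := ndB0q1) (n2 := ndB2q2b) (pc := pcB0) (cut := Cut.none) (xt := Ext.none) (P1 := 536870912) (W1 := 536870912) (P2 := 1239849684) (W2 := 370763052) (P3 := 1033476505) (W3 := 6710887) (N0 := 3) (En := eng) (mo := mog) (C1 := cd0q1) (C2 := cd2q2b) (C3 := pd0)
    rfl k0_mm_102_b

noncomputable def f_mm_112_a : ℕ → ℕ → ℕ → ℕ → Bool := onCell 536870912 536870912 0 536870912 1033476505 6710887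
    (rowB 3 eng mog cd0q1 cd2q2a pd1 0 false false false .dn 1 1 2 (qsf 536870912 536870912 0 536870912 1) ndB0q1 ndB2q2a pcB1 Cut.none Ext.none)

def k0_mm_112_a : ∃ t, chk3 f_mm_112_a t 1 1 1 = true :=
  ⟨(l 3), by decide +kernel⟩

theorem c_mm_112_a : CertB 536870912 536870912 0 536870912 1033476505 6710887 3 eng mog cd0q1 cd2q2a pd1 false false false .dn 1 1 2
    ndB0q1 ndB2q2a pcB1 Cut.none Ext.none :=
  certB0 (fam := false) (s1 := false) (s2 := false) (a := 1) (b := 1) (c := 2) (cn := .dn) (n1 := ndB0q1) (n2 := ndB2q2a) (pc := pcB1) (cut := Cut.none) (xt := Ext.none) (P1 := 536870912) (W1 := 536870912) (P2 := 0) (W2 := 536870912) (P3 := 1033476505) (W3 := 6710887) (N0 := 3) (En := eng) (mo := mog) (C1 := cd0q1) (C2 := cd2q2a) (C3 := pd1)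
    rfl k0_mm_112_a

noncomputable def f_mm_112_b : ℕ → ℕ → ℕ → ℕ → Bool := onCell 536870912 536870912 1239849684 370763052 1033476505 6710887
    (rowB 3 eng mog cd0q1 cd2q2b pd1 0 false false false .dn 1 1 2 (qsf 536870912 536870912 1239849684 370763052 1) ndB0q1 ndB2q2b pcB1 Cut.none Ext.none)

def k0_mm_112_b : ∃ t, chk3 f_mm_112_b t 1 1 1 = true :=
  ⟨(l 5), by decide +kernel⟩

theorem c_mm_112_b : CertB 536870912 536870912 1239849684 370763052 1033476505 6710887 3 eng mog cd0q1 cd2q2b pd1 false false false .dn 1 1 2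
    ndB0q1 ndB2q2b pcB1 Cut.none Ext.none :=
  certB0 (fam := false) (s1 := false) (s2 := false) (a := 1) (b := 1) (c := 2) (cn := .dn) (n1 := ndB0q1) (n2 := ndB2q2b) (pc := pcB1) (cut := Cut.none) (xt := Ext.none) (P1 := 536870912) (W1 := 536870912) (P2 := 1239849684) (W2 := 370763052) (P3 := 1033476505) (W3 := 6710887) (N0 := 3) (En := eng) (mo := mog) (C1 := cd0q1) (C2 := cd2q2b) (C3 := pd1)
    rfl k0_mm_112_b

noncomputable def f_mm_113 : ℕ → ℕ → ℕ → ℕ → Bool := onCell 536870912 536870912 1610612736 536870912 1033476505 6710887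
    (rowB 3 eng mog cd0q1 cd2q3 pd1 0 false false false .nn 1 1 3 (qsf 536870912 536870912 1610612736 536870912 1) ndB0q1 ndB2q3 pcB1 Cut.none Ext.none)

def k0_mm_113 : ∃ t, chk3 f_mm_113 t 1 1 1 = true :=
  ⟨(l 5), by decide +kernel⟩

theorem c_mm_113 : CertB 536870912 536870912 1610612736 536870912 1033476505 6710887 3 eng mog cd0q1 cd2q3 pd1 false false false .nn 1 1 3
    ndB0q1 ndB2q3 pcB1 Cut.none Ext.none :=
  certB0 (fam := false) (s1 := false) (s2 := false) (a := 1) (b := 1) (c := 3) (cn := .nn) (n1 := ndB0q1) (n2 := ndB2q3) (pc := pcB1) (cut := Cut.none) (xt := Ext.none) (P1 := 536870912) (W1 := 536870912) (P2 := 1610612736) (W2 := 536870912) (P3 := 1033476505) (W3 := 6710887) (N0 := 3) (En := eng) (mo := mog) (C1 := cd0q1) (C2 := cd2q3) (C3 := pd1)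
    rfl k0_mm_113

noncomputable def f_mm_123 : ℕ → ℕ → ℕ → ℕ → Bool := onCell 536870912 536870912 1610612736 536870912 1033476505 6710887
    (rowB 3 eng mog cd0q1 cd2q3 pd2 0 false false false .npn 1 2 3 (qsf 536870912 536870912 1610612736 536870912 2) ndB0q1 ndB2q3 pcB2 Cut.none Ext.none)

def k0_mm_123 : ∃ t, chk3 f_mm_123 t 1 1 1 = true :=
  ⟨(l 5), by decide +kernel⟩

theorem c_mm_123 : CertB 536870912 536870912 1610612736 536870912 1033476505 6710887 3 eng mog cd0q1 cd2q3 pd2 false false false .npn 1 2 3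
    ndB0q1 ndB2q3 pcB2 Cut.none Ext.none :=
  certB0 (fam := false) (s1 := false) (s2 := false) (a := 1) (b := 2) (c := 3) (cn := .npn) (n1 := ndB0q1) (n2 := ndB2q3) (pc := pcB2) (cut := Cut.none) (xt := Ext.none) (P1 := 536870912) (W1 := 536870912) (P2 := 1610612736) (W2 := 536870912) (P3 := 1033476505) (W3 := 6710887) (N0 := 3) (En := eng) (mo := mog) (C1 := cd0q1) (C2 := cd2q3) (C3 := pd2)
    rfl k0_mm_123

noncomputable def f_mm_133 : ℕ → ℕ → ℕ → ℕ → Bool := onCell 536870912 536870912 1610612736 536870912 1033476505 6710887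
    (rowB 3 eng mog cd0q1 cd2q3 pd3 0 false false false .dn 1 3 3 (qsf 536870912 536870912 1610612736 536870912 3) ndB0q1 ndB2q3 pcB3 Cut.none Ext.none)

def k0_mm_133 : ∃ t, chk3 f_mm_133 t 1 1 1 = true :=
  ⟨(l 5), by decide +kernel⟩

theorem c_mm_133 : CertB 536870912 536870912 1610612736 536870912 1033476505 6710887 3 eng mog cd0q1 cd2q3 pd3 false false false .dn 1 3 3
    ndB0q1 ndB2q3 pcB3 Cut.none Ext.none :=
  certB0 (fam := false) (s1 := false) (s2 := false) (a := 1) (b := 3) (c := 3) (cn := .dn) (n1 := ndB0q1) (n2 := ndB2q3) (pc := pcB3) (cut := Cut.none) (xt := Ext.none) (P1 := 536870912) (W1 := 536870912) (P2 := 1610612736) (W2 := 536870912) (P3 := 1033476505) (W3 := 6710887) (N0 := 3) (En := eng) (mo := mog) (C1 := cd0q1) (C2 := cd2q3) (C3 := pd3)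
    rfl k0_mm_133

noncomputable def f_mm_202_a : ℕ → ℕ → ℕ → ℕ → Bool := onCell 0 536870912 0 536870912 1033476505 6710887
    (rowB 3 eng mog cd0q2 cd2q2a pd0 0 false false false .pp 2 0 2 (qsf 0 536870912 0 536870912 0) ndB0q2 ndB2q2a pcB0 Cut.none Ext.none)

def k0_mm_202_a : ∃ t, chk3 f_mm_202_a t 1 1 1 = true :=
  ⟨(l 3), by decide +kernel⟩

theorem c_mm_202_a : CertB 0 536870912 0 536870912 1033476505 6710887 3 eng mog cd0q2 cd2q2a pd0 false false false .pp 2 0 2
    ndB0q2 ndB2q2a pcB0 Cut.none Ext.none :=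
  certB0 (fam := false) (s1 := false) (s2 := false) (a := 2) (b := 0) (c := 2) (cn := .pp) (n1 := ndB0q2) (n2 := ndB2q2a) (pc := pcB0) (cut := Cut.none) (xt := Ext.none) (P1 := 0) (W1 := 536870912) (P2 := 0) (W2 := 536870912) (P3 := 1033476505) (W3 := 6710887) (N0 := 3) (En := eng) (mo := mog) (C1 := cd0q2) (C2 := cd2q2a) (C3 := pd0)
    rfl k0_mm_202_a

noncomputable def f_mm_202_b : ℕ → ℕ → ℕ → ℕ → Bool := onCell 0 536870912 1239849684 370763052 1033476505 6710887
    (rowB 3 eng mog cd0q2 cd2q2b pd0 0 false false false .pp 2 0 2 (qsf 0 536870912 1239849684 370763052 0) ndB0q2 ndB2q2b pcB0 Cut.none Ext.none)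

def k0_mm_202_b : ∃ t, chk3 f_mm_202_b t 1 1 1 = true :=
  ⟨(l 3), by decide +kernel⟩

theorem c_mm_202_b : CertB 0 536870912 1239849684 370763052 1033476505 6710887 3 eng mog cd0q2 cd2q2b pd0 false false false .pp 2 0 2
    ndB0q2 ndB2q2b pcB0 Cut.none Ext.none :=
  certB0 (fam := false) (s1 := false) (s2 := false) (a := 2) (b := 0) (c := 2) (cn := .pp) (n1 := ndB0q2) (n2 := ndB2q2b) (pc := pcB0) (cut := Cut.none) (xt := Ext.none) (P1 := 0) (W1 := 536870912) (P2 := 1239849684) (W2 := 370763052) (P3 := 1033476505) (W3 := 6710887) (N0 := 3) (En := eng) (mo := mog) (C1 := cd0q2) (C2 := cd2q2b) (C3 := pd0)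
    rfl k0_mm_202_b

noncomputable def f_mm_203 : ℕ → ℕ → ℕ → ℕ → Bool := onCell 0 536870912 0 536870912 1033476505 6710887
    (rowB 3 eng mog cd0q2 cd2q3 pd0 1 false false false .up 2 0 3 (qsf 0 536870912 1610612736 536870912 0) ndB0q2 ndB2q3 pcB0 Cut.none Ext.none)

def k0_mm_203 : ∃ t, chk3 f_mm_203 t 1 1 1 = true :=
  ⟨(l 3), by decide +kernel⟩

theorem c_mm_203 : CertB 0 536870912 1610612736 536870912 1033476505 6710887 3 eng mog cd0q2 cd2q3 pd0 false false false .up 2 0 3
    ndB0q2 ndB2q3 pcB0 Cut.none Ext.none :=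
  certB1 (fam := false) (s1 := false) (s2 := false) (a := 2) (b := 0) (c := 3) (cn := .up) (n1 := ndB0q2) (n2 := ndB2q3) (pc := pcB0) (cut := Cut.none) (xt := Ext.none) (P1 := 0) (W1 := 536870912) (P2 := 1610612736) (W2 := 536870912) (P3 := 1033476505) (W3 := 6710887) (N0 := 3) (En := eng) (mo := mog) (C1 := cd0q2) (C2 := cd2q3) (C3 := pd0)
    rfl (fun _ => rfl) k0_mm_203

noncomputable def f_mm_213 : ℕ → ℕ → ℕ → ℕ → Bool := onCell 0 536870912 1610612736 536870912 1033476505 6710887
    (rowB 3 eng mog cd0q2 cd2q3 pd1 0 false false false .pnn 2 1 3 (qsf 0 536870912 1610612736 536870912 1) ndB0q2 ndB2q3 pcB1 Cut.none Ext.none)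

def k0_mm_213 : ∃ t, chk3 f_mm_213 t 1 1 1 = true :=
  ⟨(a (l 3) (l 5)), by decide +kernel⟩

theorem c_mm_213 : CertB 0 536870912 1610612736 536870912 1033476505 6710887 3 eng mog cd0q2 cd2q3 pd1 false false false .pnn 2 1 3
    ndB0q2 ndB2q3 pcB1 Cut.none Ext.none :=
  certB0 (fam := false) (s1 := false) (s2 := false) (a := 2) (b := 1) (c := 3) (cn := .pnn) (n1 := ndB0q2) (n2 := ndB2q3) (pc := pcB1) (cut := Cut.none) (xt := Ext.none) (P1 := 0) (W1 := 536870912) (P2 := 1610612736) (W2 := 536870912) (P3 := 1033476505) (W3 := 6710887) (N0 := 3) (En := eng) (mo := mog) (C1 := cd0q2) (C2 := cd2q3) (C3 := pd1)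
    rfl k0_mm_213

end Pool.Agent.Strip051.G.I9625_9688.Tab.C.BB02

namespace Pool.Agent.Strip051.G.I9625_9688.Tab.C.BB03

open Pool.Agent.Strip051.PB Pool.Agent.Strip051.PB.T
open Pool.Agent.Strip051.G.I9625_9688.Tab

noncomputable def f_pp_001 : ℕ → ℕ → ℕ → ℕ → Bool := onCell 0 536870912 0 536870912 1033476505 6710887
    (rowB 3 eng mog cd0q0 cd3q1 pd0 1 false true true .up 0 0 1 (qsf 0 536870912 536870912 536870912 0) ndB0q0 ndB3q1 pcB0 Cut.none Ext.none)

def k0_pp_001 : ∃ t, chk3 f_pp_001 t 1 1 1 = true :=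
  ⟨(l 3), by decide +kernel⟩

theorem c_pp_001 : CertB 0 536870912 536870912 536870912 1033476505 6710887 3 eng mog cd0q0 cd3q1 pd0 false true true .up 0 0 1
    ndB0q0 ndB3q1 pcB0 Cut.none Ext.none :=
  certB1 (fam := false) (s1 := true) (s2 := true) (a := 0) (b := 0) (c := 1) (cn := .up) (n1 := ndB0q0) (n2 := ndB3q1) (pc := pcB0) (cut := Cut.none) (xt := Ext.none) (P1 := 0) (W1 := 536870912) (P2 := 536870912) (W2 := 536870912) (P3 := 1033476505) (W3 := 6710887) (N0 := 3) (En := eng) (mo := mog) (C1 := cd0q0) (C2 := cd3q1) (C3 := pd0)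
    rfl (fun _ => rfl) k0_pp_001

noncomputable def cut_pp_011 : Cut := Cut.of [[⟨0, 0, 0, 33554432⟩, ⟨1, 1, 0, 33554432⟩, ⟨2, 1, 0, 33554432⟩]]

noncomputable def f_pp_011 : ℕ → ℕ → ℕ → ℕ → Bool := onCell 0 536870912 536870912 536870912 1033476505 6710887
    (rowB 3 eng mog cd0q0 cd3q1 pd1 1 false true true .pnn 0 1 1 (qsf 0 536870912 536870912 536870912 1) ndB0q0 ndB3q1 pcB1 cut_pp_011 Ext.none)

def k0_pp_011 : ∃ t, chk3 f_pp_011 t 1 1 1 = true :=
  ⟨(b (l 3) (b (l 3) (b (l 3) (a (a (a (b (l 3) (a (a (b (l 3) (l 6)) (l 3)) (l 3))) (l 3)) (l 2)) (l 2))))), by decide +kernel⟩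

theorem c_pp_011 : CertB 0 536870912 536870912 536870912 1033476505 6710887 3 eng mog cd0q0 cd3q1 pd1 false true true .pnn 0 1 1
    ndB0q0 ndB3q1 pcB1 cut_pp_011 Ext.none :=
  certB1 (fam := false) (s1 := true) (s2 := true) (a := 0) (b := 1) (c := 1) (cn := .pnn) (n1 := ndB0q0) (n2 := ndB3q1) (pc := pcB1) (cut := cut_pp_011) (xt := Ext.none) (P1 := 0) (W1 := 536870912) (P2 := 536870912) (W2 := 536870912) (P3 := 1033476505) (W3 := 6710887) (N0 := 3) (En := eng) (mo := mog) (C1 := cd0q0) (C2 := cd3q1) (C3 := pd1)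
    rfl (fun _ => rfl) k0_pp_011

noncomputable def f_pp_012 : ℕ → ℕ → ℕ → ℕ → Bool := onCell 536870912 536870912 1073741824 536870912 1033476505 6710887
    (rowB 3 eng mog cd0q0 cd3q2 pd1 2 false true true .pnp 0 1 2 (qsf 0 536870912 1073741824 536870912 1) ndB0q0 ndB3q2 pcB1 Cut.none Ext.none)

def k0_pp_012 : ∃ t, chk3 f_pp_012 t 1 1 1 = true :=
  ⟨(a (l 3) (b (l 3) (l 3))), by decide +kernel⟩

theorem c_pp_012 : CertB 0 536870912 1073741824 536870912 1033476505 6710887 3 eng mog cd0q0 cd3q2 pd1 false true true .pnp 0 1 2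
    ndB0q0 ndB3q2 pcB1 Cut.none Ext.none :=
  certB2 (fam := false) (s1 := true) (s2 := true) (a := 0) (b := 1) (c := 2) (cn := .pnp) (n1 := ndB0q0) (n2 := ndB3q2) (pc := pcB1) (cut := Cut.none) (xt := Ext.none) (P1 := 0) (W1 := 536870912) (P2 := 1073741824) (W2 := 536870912) (P3 := 1033476505) (W3 := 6710887) (N0 := 3) (En := eng) (mo := mog) (C1 := cd0q0) (C2 := cd3q2) (C3 := pd1)
    rfl (fun _ => rfl) k0_pp_012

end Pool.Agent.Strip051.G.I9625_9688.Tab.C.BB03

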