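import Pool.Agent.Strip051.G.I9625_9688.Tab
import Pool.Agent.Strip051.PB.ExtD3

/-! # Certificates B21 (generated) -/

set_option linter.all false
set_option maxRecDepth 100000

namespace Pool.Agent.Strip051.G.I9625_9688.Tab.C.BB03

open Pool.Agent.Strip051.PB Pool.Agent.Strip051.PB.T
open Pool.Agent.Strip051.G.I9625_9688.Tab

noncomputable def f_pm_112 : ℕ → ℕ → ℕ → ℕ → Bool := onCell 536870912 536870912 536870912 536870912 1033476505 6710887
    (rowB 3 eng mog cd0q1 cd3q2 pd1 1 false true false .dn 1 1 2 (qsf 536870912 536870912 1073741824 536870912 1) ndB0q1 ndB3q2 pcB1 Cut.none Ext.none)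

def k0_pm_112 : ∃ t, chk3 f_pm_112 t 2 1 1 = true :=
  ⟨(b (a (b (a (b (a (b (l 16129576) (l 16115544)) (b (l 16105688) (l 16101760))) (a (b (l 16070208) (l 16051360)) (l 16105280))) (b (a (b (l 16061608) (l 16067336)) (l 16012176)) (l 16069888))) (a (b (a (l 16020256) (l 16075320)) (a (l 15937152) (l 15997296))) (b (l 16031432) (a (l 16070544) (l 16149008))))) (b (a (b (a (l 15988320) (l 15996824)) (a (l 16050920) (l 16076432))) (b (a (l 16035176) (l 16100120)) (a (l 16130424) (l 16208984)))) (a (b (a (l 16113112) (l 16149080)) (a (l 16160320) (l 16201496))) (b (a (l 16212384) (l 16298728)) (a (l 16269160) (l 16358936)))))) (a (b (a (b (a (l 15805600) (l 15869352)) (a (l 15625384) (l 15691416))) (b (a (l 15946288) (l 16035304)) (a (l 15770600) (l 15840904)))) (a (b (a (l 15334760) (l 15443992)) (a (b (l 15196824) (l 15049792)) (l 15024936))) (b (a (l 15524328) (l 15616696)) (a (l 15210592) (l 2))))) (b (a (b (a (l 16135352) (l 16222576)) (a (l 15922376) (l 16077072))) (b (a (l 16290456) (b (l 16378584)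 (l 16378968))) (a (l 16206648) (l 2)))) (a (b (a (l 15720224) (l 2)) (l 2)) (l 2))))), by decide +kernel⟩

def k1_pm_112 : ∃ t, chk3 f_pm_112 t 3 1 1 = true :=
  ⟨(b (a (b (a (b (a (l 16198248) (a (l 16297704) (l 16232944))) (a (l 16318160) (a (l 16298112) (l 16452312)))) (a (b (b (l 16434232) (l 16539080)) (l 16613504)) (b (l 16497176) (l 16493232)))) (a (b (a (a (l 16381336) (l 16383448)) (b (l 16519504) (l 16547624))) (a (a (l 16443064) (l 16489624)) (l 16558040))) (a (b (l 16665832) (l 16661288)) (b (l 16564720) (l 2))))) (a (b (a (b (l 16334264) (l 16328152)) (b (l 16142944) (l 16124976))) (a (b (l 16399536) (l 2)) (l 2))) (b (a (a (b (l 15978752) (l 15955224)) (b (b (a (l 15910464) (l 15893088)) (l 15819464)) (l 2))) (b (b (a (l 16096296) (a (l 16221080) (l 16010760))) (l 1120548712759)) (l 2))) (l 2)))) (a (a (b (b (a (b (l 16465024) (l 2)) (l 2)) (l 2)) (l 2)) (l 2)) (l 2))), by decide +kernel⟩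

theorem s2_pm_112 : ∃ t, chk3 f_pm_112 t 1 1 1 = true := ex3_a k0_pm_112 k1_pm_112

theorem c_pm_112 : CertB 536870912 536870912 1073741824 536870912 1033476505 6710887 3 eng mog cd0q1 cd3q2 pd1 false true false .dn 1 1 2
    ndB0q1 ndB3q2 pcB1 Cut.none Ext.none :=
  certB1 (fam := false) (s1 := true) (s2 := false) (a := 1) (b := 1) (c := 2) (cn := .dn) (n1 := ndB0q1) (n2 := ndB3q2) (pc := pcB1) (cut := Cut.none) (xt := Ext.none) (P1 := 536870912) (W1 := 536870912) (P2 := 1073741824) (W2 := 536870912) (P3 := 1033476505) (W3 := 6710887) (N0 := 3) (En := eng) (mo := mog) (C1 := cd0q1) (C2 := cd3q2) (C3 := pd1)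
    rfl (fun _ => rfl) s2_pm_112

noncomputable def cut_pm_113 : Cut := Cut.of [[⟨0, 1, 0, 20971520⟩, ⟨1, 1, 0, 20971520⟩, ⟨2, 2, 0, 1572864⟩]]

noncomputable def xt_pm_113 : Ext := extD3 3 ⟨4, 1, 1, 5, 27, 5, 41, 50, 81, 200, 1, 64⟩ eng cd0q1 cd3q3 pd1 false true false .nn 1 1 3 rfl ndB0q1 ndB3q3 pcB1

noncomputable def f_pm_113 : ℕ → ℕ → ℕ → ℕ → Bool := onCell 536870912 536870912 0 1230186008 1033476505 6710887
    (rowB 3 eng mog cd0q1 cd3q3 pd1 0 false true false .nn 1 1 3 (qsf 536870912 536870912 0 1230186008 1) ndB0q1 ndB3q3 pcB1 cut_pm_113 xt_pm_113)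

def k0_pm_113 : ∃ t, chk3 f_pm_113 t 2 1 1 = true :=
  ⟨(b (l 2) (b (a (l 2) (b (l 2) (a (l 2) (b (l 2) (a (l 2) (b (l 2) (l 15509512))))))) (a (b (l 2) (b (a (l 2) (a (b (l 2) (l 15074352)) (b (l 15173528) (l 15337448)))) (a (a (b (l 2) (a (l 14869760) (l 14993728))) (b (l 14908840) (l 15145952))) (a (b (l 15244456) (l 15392288)) (b (l 15481008) (l 15617904)))))) (b (a (b (a (l 2) (b (l 2) (l 15261416))) (a (b (l 2) (l 15289784)) (b (l 15422480) (l 15569088)))) (b (a (b (l 15324304) (l 15516640)) (b (l 15656528) (l 15797680))) (a (b (l 15714216) (l 15840400)) (b (l 15934712) (l 15985752))))) (a (b (a (b (l 15445760) (l 15584168)) (b (l 15701584) (l 15828944))) (a (b (l 15716608) (l 15842280)) (b (l 15929072) (l 16021544)))) (b (a (b (l 15941088) (l 16015032)) (a (a (l 16186680) (l 16226408)) (l 16193832))) (a (b (l 16186624) (l 16286440)) (b (l 16286336) (l 16394808))))))))), by decide +kernel⟩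

def k1_pm_113 : ∃ t, chk3 f_pm_113 t 6 1 1 = true :=
  ⟨(b (l 2) (b (a (b (l 2) (b (a (l 15110272) (l 15443816)) (a (l 15434232) (l 15673200)))) (b (a (b (l 2) (l 15441464)) (b (a (l 15366240) (l 15432176)) (a (l 15556872) (l 15621000)))) (a (b (l 15642920) (l 15841408)) (b (a (l 15774560) (l 15834608)) (a (l 16011768) (l 16067632)))))) (b (a (b (a (l 15725888) (l 15890248)) (a (b (l 16074864) (l 16210592)) (l 16259400))) (a (b (l 16158280) (l 16373696)) (b (a (l 16261928) (l 16313040)) (l 16309112)))) (a (b (a (l 16280264) (l 16388472)) (a (b (l 16456040) (l 16486296)) (l 16433656))) (b (a (l 16464928) (a (l 16708912) (l 16727992))) (a (l 16527016) (b (l 16640696) (l 16553624)))))))), by decide +kernel⟩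

def k2_pm_113 : ∃ t, chk3 f_pm_113 t 14 1 1 = true :=
  ⟨(b (b (l 2) (b (b (l 2) (a (l 2) (a (l 2) (l 15581080)))) (a (b (l 2) (l 121967851511)) (a (l 15474016) (a (l 15506160) (b (l 15564912) (l 15549840))))))) (b (b (a (b (a (l 15486768) (l 15535088)) (l 15580480)) (b (a (l 15573048) (b (l 15569800) (l 15607496))) (a (l 15706016) (l 15685904)))) (a (b (l 15798000) (l 16033624)) (b (a (l 15866488) (l 15821144)) (a (l 16049248) (l 15986224))))) (b (a (b (a (l 16328760) (l 16303920)) (l 16426776)) (b (a (l 16247000) (l 16176072)) (a (l 16450168) (l 16290640)))) (a (b (a (l 16598416) (l 16458112)) (b (l 16410064) (l 16342152))) (b (a (l 16311976) (l 16164232)) (a (l 16192312) (l 16069096))))))), by decide +kernel⟩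

def k3_pm_113 : ∃ t, chk3 f_pm_113 t 30 1 1 = true :=
  ⟨(b (b (l 2) (a (b (b (l 2) (a (l 15776200) (l 15898408))) (b (a (l 15637240) (l 15696688)) (a (b (l 15586024) (l 15574072)) (b (l 15612200) (l 15585888))))) (a (b (b (b (l 2) (l 16289632)) (l 15994120)) (b (b (l 15796944) (l 15703464)) (b (l 15641936) (l 15609032)))) (b (b (b (l 16570256) (l 16413936)) (l 16068616)) (b (b (l 15841440) (l 15739592)) (l 133946524273131535)))))) (b (b (b (a (a (b (l 15579768) (l 15605224)) (l 15594704)) (b (l 15709992) (l 15643616))) (a (a (l 15666608) (l 15662552)) (a (l 15681792) (l 15711312)))) (b (a (a (l 15782856) (l 15768440)) (b (l 15759544) (l 15806944))) (a (a (l 15938192) (l 15906720)) (l 15810640)))) (b (b (a (b (l 16052720) (l 16152320)) (l 16040320)) (a (a (l 16170864) (l 16074744)) (l 15886104))) (b (a (b (l 16051072) (l 15997664)) (b (l 16054208) (l 15946120))) (a (l 15947624) (b (a (l 15897256) (l 15963496)) (a (l 15864888) (l 15895632)))))))), by decide +kernel⟩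

def k4_pm_113 : ∃ t, chk3 f_pm_113 t 31 2 1 = true :=
  ⟨(b (b (a (l 2) (a (l 2) (b (a (l 2) (b (l 6) (a (l 2) (b (l 6) (l 16770128))))) (a (l 143441565313663055) (a (l 143654801856561231) (a (l 143770250602053711) (b (b (l 16774688) (l 16775576)) (l 16756200)))))))) (b (a (l 2) (a (l 142711970492579919) (a (l 142983962245611599) (a (l 143260214595059791) (b (b (l 16774408) (l 16775640)) (l 16747320)))))) (a (b (l 16527936) (a (l 16609440) (l 16660752))) (b (a (l 16699072) (a (l 16754016) (b (l 16766640) (l 16754672)))) (a (l 142227635679117391) (a (l 142427678145151055) (b (l 16740032) (l 16750784)))))))) (b (b (a (b (a (l 16637712) (l 16691880)) (b (l 16639888) (l 16469208))) (b (a (l 16706224) (a (l 142771069419159631) (b (l 16744160) (l 16735464)))) (a (l 140753259048861775) (a (l 140658082502443087) (a (l 595712664479861672421407) (b (l 16592024) (l 592652233283135878995999))))))) (a (b (l 16252352) (a (l 16023320) (l 135974505536356431))) (a (b (l 137748293110022223) (a (l 135505769965912143)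 (l 135189454188380239))) (b (a (l 137231660026019919) (a (l 136996364500959311) (b (l 16255680) (l 16147056)))) (a (l 134876230778601551) (b (b (l 16047480) (l 15995704)) (l 15926424))))))) (b (a (b (a (l 15864920) (l 135278102024306767)) (a (l 15859000) (l 133470435960307791))) (b (a (l 133772733136355407) (b (a (l 15868152) (l 15850040)) (l 15797496))) (a (l 15749328) (b (l 15749976) (l 15715088))))) (a (b (l 133423844030119951) (l 133622718139777039)) (a (l 133002456160534607) (b (l 15682872) (l 15670016))))))), by decide +kernel⟩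

def k5_pm_113 : ∃ t, chk3 f_pm_113 t 31 3 1 = true :=
  ⟨(b (b (b (a (b (l 15667624) (l 15685912)) (b (a (l 15675488) (l 15679872)) (a (l 15695288) (l 15699376)))) (a (b (l 15714584) (l 15743408)) (b (a (l 15716760) (l 15714112)) (a (l 15734944) (l 15721000))))) (b (a (b (l 15774136) (l 15802024)) (b (l 15738648) (l 15750688))) (a (l 15858760) (b (l 15763864) (l 15779144))))) (b (b (a (l 15953560) (b (l 15798080) (l 15822656))) (a (b (l 16043440) (l 16115544)) (b (l 15855488) (l 15852808)))) (b (a (b (l 16189576) (l 16163400)) (b (l 15857184) (a (l 16068776) (l 15912984)))) (a (b (l 16131160) (l 16093032)) (b (a (l 16135864) (l 15961456)) (a (l 16211664) (l 16018992))))))), by decide +kernel⟩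

theorem s6_pm_113 : ∃ t, chk3 f_pm_113 t 31 1 1 = true := ex3_b k4_pm_113 k5_pm_113

theorem s7_pm_113 : ∃ t, chk3 f_pm_113 t 15 1 1 = true := ex3_a k3_pm_113 s6_pm_113

theorem s8_pm_113 : ∃ t, chk3 f_pm_113 t 7 1 1 = true := ex3_a k2_pm_113 s7_pm_113

theorem s9_pm_113 : ∃ t, chk3 f_pm_113 t 3 1 1 = true := ex3_a k1_pm_113 s8_pm_113

theorem s10_pm_113 : ∃ t, chk3 f_pm_113 t 1 1 1 = true := ex3_a k0_pm_113 s9_pm_113

theorem c_pm_113 : CertB 536870912 536870912 0 1230186008 1033476505 6710887 3 eng mog cd0q1 cd3q3 pd1 false true false .nn 1 1 3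
    ndB0q1 ndB3q3 pcB1 cut_pm_113 xt_pm_113 :=
  certB0 (fam := false) (s1 := true) (s2 := false) (a := 1) (b := 1) (c := 3) (cn := .nn) (n1 := ndB0q1) (n2 := ndB3q3) (pc := pcB1) (cut := cut_pm_113) (xt := xt_pm_113) (P1 := 536870912) (W1 := 536870912) (P2 := 0) (W2 := 1230186008) (P3 := 1033476505) (W3 := 6710887) (N0 := 3) (En := eng) (mo := mog) (C1 := cd0q1) (C2 := cd3q3) (C3 := pd1)
    rfl s10_pm_113

noncomputable def cut_pm_123 : Cut := Cut.of [[⟨0, 1, 0, 20971520⟩, ⟨1, 1, 0, 20971520⟩, ⟨2, 2, 0, 1572864⟩]]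

noncomputable def xt_pm_123 : Ext := extD3 3 ⟨4, 1, 1, 5, 27, 5, 41, 50, 81, 200, 1, 64⟩ eng cd0q1 cd3q3 pd2 false true false .npn 1 2 3 rfl ndB0q1 ndB3q3 pcB2

noncomputable def f_pm_123 : ℕ → ℕ → ℕ → ℕ → Bool := onCell 536870912 536870912 0 1230186008 1033476505 6710887
    (rowB 3 eng mog cd0q1 cd3q3 pd2 0 false true false .npn 1 2 3 (qsf 536870912 536870912 0 1230186008 2) ndB0q1 ndB3q3 pcB2 cut_pm_123 xt_pm_123)

def k0_pm_123 : ∃ t, chk3 f_pm_123 t 1 4 1 = true :=
  ⟨(a (b (a (l 15057496) (a (l 15330152) (l 15517120))) (a (b (a (l 14929904) (l 15097960)) (a (l 14907280) (l 15064592))) (b (a (l 15291096) (l 15482264)) (a (l 15266744) (l 15466744))))) (b (a (a (l 15666216) (a (l 15768336) (l 15854152))) (a (a (l 16038816) (a (l 16235824) (l 16373512))) (a (a (a (l 16466880) (l 16517248)) (a (l 16535680) (b (l 16543312) (l 16534640)))) (a (b (a (l 16584528) (l 16650000)) (a (l 142504987205124111) (l 142827625205186639))) (a (b (l 143220013627768911) (l 142839788679938127)) (a (b (l 143478192731439183)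 (l 143090271246729295)) (b (b (l 6) (a (l 16751120) (b (l 6) (l 848289531303)))) (b (a (l 16731264) (l 981970338999)) (l 986802099511))))))))) (a (b (a (l 15635640) (a (l 15741024) (l 15829128))) (a (b (l 15628584) (l 15629152)) (a (l 15740432) (b (l 15829384) (l 15836824))))) (a (b (a (l 16016632) (a (l 16216568) (l 16357328))) (a (b (l 16020760) (l 16029944)) (b (l 16177696) (a (l 16196192) (l 16289256))))) (b (a (a (l 16484680) (a (l 16526904) (l 16529872))) (a (a (l 16542392) (l 142353804378177615)) (a (a (l 142393043257540687) (l 142544638473322575)) (a (l 14565138274859277527135502415) (l 1))))) (a (a (b (l 16470544) (l 16376112)) (b (l 16552336) (a (l 16488008) (l 16579688)))) (a (b (l 16572656) (l 467647714439)) (b (a (l 14439409989619211300998856783) (l 1)) (l 1))))))))), by decide +kernel⟩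

def k1_pm_123 : ∃ t, chk3 f_pm_123 t 2 5 1 = true :=
  ⟨(b (a (b (a (b (l 14878456) (l 14859216)) (l 15017152)) (a (a (l 14836008) (l 14814928)) (l 14965720))) (b (a (b (l 15240768) (l 15218216)) (b (l 15447288) (l 15429008))) (a (l 15186024) (l 15402416)))) (a (a (a (b (l 14889944) (l 14982056)) (b (l 14788352) (l 14798456))) (b (l 14928160) (l 14910200))) (a (a (l 15091600) (l 15211696)) (a (l 15327576) (l 15307400))))), by decide +kernel⟩

def k2_pm_123 : ∃ t, chk3 f_pm_123 t 3 5 1 = true :=
  ⟨(b (a (b (a (b (l 15617032) (l 15603464)) (b (a (l 15733496) (l 15825488)) (a (l 15721136) (a (l 15780864) (l 15836448))))) (a (a (l 15539864) (l 15622696)) (a (l 15700600) (a (l 15756248) (l 15802368))))) (a (b (a (b (l 15992168) (a (l 15911176) (l 15988984))) (b (a (l 16128864) (l 16199024)) (a (l 16053504) (b (l 16125272) (l 16072416))))) (a (a (l 15857224) (l 15904536)) (a (l 15929768) (a (l 15933200) (l 15935720))))) (b (a (b (a (a (l 16248448) (l 16300144)) (a (l 16394864) (l 16600352))) (a (a (l 16135752)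 (b (l 16217872) (l 16162088))) (a (b (l 16324376) (l 16286760)) (l 142025668863967247)))) (b (a (l 466037159159) (l 1)) (l 1))) (a (a (a (l 265783539463) (l 591127510727)) (a (l 593274854119) (l 1))) (l 1))))) (a (a (a (b (l 15526256) (l 15537848)) (b (l 15611536) (l 15626080))) (a (b (l 15687840) (a (l 15683456) (l 15715776))) (b (a (l 15736624) (l 15767984)) (a (b (l 15736944) (l 15746848)) (b (l 15755480) (l 15755808)))))) (a (a (b (a (l 15792304) (b (l 15821432) (l 15766552))) (a (b (l 15753368) (a (l 15743344) (l 15722736))) (b (a (l 15728128) (l 15700600)) (a (l 234644015943) (l 259340062871))))) (a (b (b (l 15803392) (a (l 15732536) (l 15711256))) (b (a (l 287257321239) (l 318395825863)) (l 1))) (b (b (a (l 15776152) (l 384431362487)) (a (l 351145312631) (l 1))) (l 1)))) (a (a (a (b (l 392484393159) (l 1)) (l 1)) (l 1)) (l 1))))), by decide +kernel⟩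

def k3_pm_123 : ∃ t, chk3 f_pm_123 t 2 6 1 = true :=
  ⟨(a (b (a (b (a (l 15086072) (a (l 14909048) (l 14824584))) (a (l 15187440) (l 14967992))) (b (a (l 14864232) (l 14985048)) (a (a (l 14908792) (l 14941696)) (l 15042872)))) (a (b (a (b (l 15256728) (l 15290408)) (b (l 15081240) (l 15137632))) (a (b (l 15314120) (l 15327200)) (b (l 15188432) (l 15233488)))) (b (a (a (l 15050768) (b (l 15019720) (l 15097184))) (b (l 15120584) (l 15191272))) (a (b (a (l 15165024) (l 15186920)) (a (l 15237888) (l 15277664))) (b (a (l 15245312) (l 15324024)) (a (b (l 15324112) (l 15381152)) (l 15437608))))))) (b (a (b (a (l 15113848) (l 15242888)) (a (l 15181064) (l 15317672))) (b (a (l 15366704) (l 15481040)) (a (l 15448184) (b (l 15541696) (l 15599968))))) (a (b (a (l 15388872) (b (l 15410080) (l 15493488))) (a (b (l 15442936) (a (l 15520584) (l 15602216))) (b (a (l 15558696) (l 15633304)) (a (l 15681896) (l 15780016))))) (b (a (b (l 15546432) (a (l 15599640) (l 15668072))) (b (a (l 15643152) (l 15704688)) (a (l 15734400)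 (l 15798264)))) (a (b (a (l 15705952) (l 15776856)) (a (b (l 15799584) (l 15869592)) (b (l 15872472) (l 15943880)))) (b (a (b (l 15815552) (l 15876592)) (b (l 15881296) (l 15943664))) (a (b (l 15943384) (l 16016232)) (b (l 16011864) (l 74120185815))))))))), by decide +kernel⟩

def k4_pm_123 : ∃ t, chk3 f_pm_123 t 3 6 1 = true :=
  ⟨(a (a (b (a (b (l 15585328) (b (l 15650984) (a (l 15685840) (l 15739024)))) (b (b (l 15659776) (l 15675392)) (b (a (l 15723888) (l 15766424)) (a (l 15787880) (l 15830936))))) (b (a (b (a (l 15763312) (l 15818288)) (a (l 15922024) (b (l 15889448) (l 15943280)))) (b (a (l 15889440) (b (l 15889896) (l 15936624))) (a (b (l 15941056) (l 16019280)) (a (l 45129268999) (l 1))))) (a (b (a (b (l 15943928) (l 16007936)) (b (l 16003704) (l 26338902935))) (a (b (l 16132496) (l 1)) (l 1))) (b (a (b (l 177736510263) (l 1)) (l 1)) (l 1))))) (b (a (b (a (b (l 15716624) (l 15752816)) (b (l 15746360) (l 15780640))) (b (a (l 15802008) (a (l 15822448) (l 15832664))) (a (a (l 15858088) (l 15873920))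 (a (l 87004989863) (l 130491566007))))) (b (a (b (a (l 15762456) (l 15768712)) (a (l 15794088) (l 15797552))) (b (a (l 15768296) (l 15759008)) (a (l 151429268535) (l 177735940567)))) (a (b (a (l 118143393783) (l 160019337271)) (l 1)) (l 1)))) (a (b (b (a (a (l 48887291863) (l 95595103415)) (l 1)) (l 1)) (l 1)) (l 1)))) (a (b (a (b (a (b (a (l 190083842375) (l 207800561719)) (l 1)) (l 1)) (l 1)) (l 1)) (l 1)) (l 1))), by decide +kernel⟩

def k5_pm_123 : ∃ t, chk3 f_pm_123 t 4 14 1 = true :=
  ⟨(a (b (a (b (l 15246208) (a (l 15346128) (l 15309888))) (b (a (l 15276264) (l 15277848)) (a (b (l 15297008) (l 15308328)) (b (l 15314224) (l 15343632))))) (a (b (a (l 15325000) (b (l 15308488) (l 15316728))) (a (b (l 15311088) (l 15300776)) (b (l 15338160) (l 15362952)))) (b (a (b (l 15327216) (l 15355408)) (b (l 15380872) (l 15424704))) (a (b (l 15391504) (l 15433552)) (b (l 15472624) (l 15518384)))))) (b (a (b (a (b (l 15291568) (l 15327232)) (b (l 15348720) (l 15398128))) (a (b (l 15366992) (l 15412600)) (b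 (l 15451200) (l 15507816)))) (b (a (b (l 15439536) (l 15497200)) (b (l 15535480) (l 15607664))) (a (b (l 15559336) (l 15624152)) (a (b (l 15655448) (l 15724800)) (b (l 15713408) (l 15796248)))))) (a (b (a (b (l 15463232) (l 15516880)) (b (l 15567112) (l 15626288))) (a (b (l 15569328) (l 15622032)) (b (l 15728328) (a (l 15714104) (l 15782824))))) (b (a (b (l 15689952) (a (l 15722400) (l 15793696))) (b (a (l 15796960) (l 15876920)) (a (l 15871072) (l 15954696)))) (a (b (a (l 15789072) (l 15865088)) (a (l 15857640) (l 15938664))) (a (b (l 15947320) (l 16025984)) (b (l 16014888) (l 16098664)))))))), by decide +kernel⟩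

def k6_pm_123 : ∃ t, chk3 f_pm_123 t 4 15 1 = true :=
  ⟨(b (a (a (b (a (b (l 15338408) (l 15368160)) (b (l 15398952) (l 15430688))) (a (b (l 15392552) (l 15413264)) (b (l 15459728) (a (l 15467376) (l 15509824))))) (b (a (b (l 15472392) (l 15509504)) (b (l 15563344) (a (l 15581792) (l 15636784)))) (a (b (a (l 15522736) (l 15571320)) (a (l 15557920) (l 15611824))) (b (a (l 15625664) (l 15685904)) (a (l 15671704) (l 15737720)))))) (a (b (a (b (a (l 15645328) (l 15707016)) (a (l 15697656) (l 15764536))) (b (a (l 15774704) (l 15848512)) (a (l 15837552) (l 15916808)))) (a (b (a (l 15752208) (l 15824696)) (a (l 15809976) (l 15888552))) (b (a (l 15903456) (l 15988592)) (a (l 15973568) (l 1))))) (b (a (b (a (l 15928536) (l 16014848)) (b (l 15944056) (l 15983344))) (b (b (l 16050840) (l 16072928)) (a (l 16150952) (l 1)))) (a (b (b (l 16023800) (l 1)) (l 1)) (l 1))))) (a (a (b (a (b (a (l 15414968) (l 15451544)) (a (l 15432208) (l 15474288))) (b (a (l 15493680) (l 15541520)) (a (l 15522224) (l 15576216)))) (a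 (b (a (l 15451880) (l 15500328)) (a (l 15476152) (l 15531528))) (b (a (l 15554904) (l 15615616)) (a (l 15593232) (l 1))))) (b (a (b (a (l 15595280) (l 15655128)) (a (l 15636376) (l 15702744))) (b (a (l 15721184) (l 15793504)) (a (l 15775456) (l 1)))) (a (b (a (l 15682656) (l 1)) (l 1)) (l 1)))) (a (b (a (b (a (l 15872208) (l 1)) (l 1)) (l 1)) (l 1)) (l 1)))), by decide +kernel⟩

def k7_pm_123 : ∃ t, chk3 f_pm_123 t 5 7 1 = true :=
  ⟨(b (a (b (a (b (a (l 15661160) (b (l 15707480) (l 15785864))) (a (b (l 15783104) (l 15873416)) (b (l 15871000) (l 15942304)))) (b (a (b (l 15789472) (l 15869480)) (b (l 15868656) (l 15950096))) (a (b (l 15956312) (l 16050360)) (b (l 16038440) (l 16092120))))) (a (b (a (a (b (a (l 15932088) (l 15959488)) (a (l 16021120) (b (l 16035936) (l 16086552)))) (b (l 15994360) (l 16100496))) (b (l 16021120) (l 16107872))) (a (b (a (l 16027064) (b (l 16183320) (l 16176432))) (a (l 16156712) (a (b (l 16254696) (l 16322464)) (b (l 16316264) (l 16350216))))) (b (a (l 16221192) (l 16300520))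 (l 16327144)))) (b (a (b (l 16110064) (l 16199384)) (b (l 16154552) (b (l 16281048) (l 1)))) (a (b (l 16320488) (l 1)) (l 1))))) (b (a (b (a (b (l 15945864) (l 16028744)) (b (l 16021616) (l 16064400))) (a (b (l 16076728) (l 16133664)) (b (l 16095328) (l 1)))) (b (a (b (l 16054344) (l 80562805943)) (b (l 88615851831) (l 1))) (l 1))) (l 1))) (a (b (a (b (a (b (a (b (l 16288536) (l 1)) (l 1)) (l 1)) (l 1)) (l 1)) (l 1)) (l 1)) (l 1))), by decide +kernel⟩

def k8_pm_123 : ∃ t, chk3 f_pm_123 t 3 7 1 = true :=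
  ⟨(l 1), by decide +kernel⟩

theorem s9_pm_123 : ∃ t, chk3 f_pm_123 t 4 7 1 = true := ex3_b k5_pm_123 k6_pm_123

theorem s10_pm_123 : ∃ t, chk3 f_pm_123 t 2 7 1 = true := ex3_a s9_pm_123 k7_pm_123

theorem s11_pm_123 : ∃ t, chk3 f_pm_123 t 1 7 1 = true := ex3_a s10_pm_123 k8_pm_123

theorem s12_pm_123 : ∃ t, chk3 f_pm_123 t 1 6 1 = true := ex3_a k3_pm_123 k4_pm_123

theorem s13_pm_123 : ∃ t, chk3 f_pm_123 t 1 3 1 = true := ex3_b s12_pm_123 s11_pm_123

theorem s14_pm_123 : ∃ t, chk3 f_pm_123 t 1 5 1 = true := ex3_a k1_pm_123 k2_pm_123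

theorem s15_pm_123 : ∃ t, chk3 f_pm_123 t 1 2 1 = true := ex3_b k0_pm_123 s14_pm_123

theorem s16_pm_123 : ∃ t, chk3 f_pm_123 t 1 1 1 = true := ex3_b s15_pm_123 s13_pm_123

theorem c_pm_123 : CertB 536870912 536870912 0 1230186008 1033476505 6710887 3 eng mog cd0q1 cd3q3 pd2 false true false .npn 1 2 3
    ndB0q1 ndB3q3 pcB2 cut_pm_123 xt_pm_123 :=
  certB0 (fam := false) (s1 := true) (s2 := false) (a := 1) (b := 2) (c := 3) (cn := .npn) (n1 := ndB0q1) (n2 := ndB3q3) (pc := pcB2) (cut := cut_pm_123) (xt := xt_pm_123) (P1 := 536870912) (W1 := 536870912) (P2 := 0) (W2 := 1230186008) (P3 := 1033476505) (W3 := 6710887) (N0 := 3) (En := eng) (mo := mog) (C1 := cd0q1) (C2 := cd3q3) (C3 := pd2)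
    rfl s16_pm_123

noncomputable def f_pm_133 : ℕ → ℕ → ℕ → ℕ → Bool := onCell 536870912 536870912 0 1230186008 1033476505 6710887
    (rowB 3 eng mog cd0q1 cd3q3 pd3 0 false true false .dn 1 3 3 (qsf 536870912 536870912 0 1230186008 3) ndB0q1 ndB3q3 pcB3 Cut.none Ext.none)

def k0_pm_133 : ∃ t, chk3 f_pm_133 t 1 1 1 = true :=
  ⟨(b (b (a (b (a (l 14765800) (l 1)) (l 1)) (l 1)) (l 1)) (l 1)), by decide +kernel⟩

theorem c_pm_133 : CertB 536870912 536870912 0 1230186008 1033476505 6710887 3 eng mog cd0q1 cd3q3 pd3 false true false .dn 1 3 3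
    ndB0q1 ndB3q3 pcB3 Cut.none Ext.none :=
  certB0 (fam := false) (s1 := true) (s2 := false) (a := 1) (b := 3) (c := 3) (cn := .dn) (n1 := ndB0q1) (n2 := ndB3q3) (pc := pcB3) (cut := Cut.none) (xt := Ext.none) (P1 := 536870912) (W1 := 536870912) (P2 := 0) (W2 := 1230186008) (P3 := 1033476505) (W3 := 6710887) (N0 := 3) (En := eng) (mo := mog) (C1 := cd0q1) (C2 := cd3q3) (C3 := pd3)
    rfl k0_pm_133

noncomputable def f_pm_202 : ℕ → ℕ → ℕ → ℕ → Bool := onCell 0 536870912 0 536870912 1033476505 6710887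
    (rowB 3 eng mog cd0q2 cd3q2 pd0 1 false true false .pp 2 0 2 (qsf 0 536870912 1073741824 536870912 0) ndB0q2 ndB3q2 pcB0 Cut.none Ext.none)

def k0_pm_202 : ∃ t, chk3 f_pm_202 t 2 1 1 = true :=
  ⟨(l 3), by decide +kernel⟩

def k1_pm_202 : ∃ t, chk3 f_pm_202 t 6 1 1 = true :=
  ⟨(l 3), by decide +kernel⟩

def k2_pm_202 : ∃ t, chk3 f_pm_202 t 14 1 1 = true :=
  ⟨(b (l 3) (l 3)), by decide +kernel⟩

def k3_pm_202 : ∃ t, chk3 f_pm_202 t 15 8 1 = true :=
  ⟨(a (a (a (l 3) (a (l 3) (b (b (b (b (b (l 16682152) (l 16706920)) (l 16682384)) (l 16656368)) (b (l 16642656) (l 16609568))) (b (l 16557024) (l 16492264))))) (b (b (b (a (b (a (l 16690856) (l 16698672)) (a (b (l 16706344) (l 16699560)) (l 16693536))) (l 16630744)) (a (b (a (l 16666072) (l 16664800)) (a (l 16668376) (l 16669936))) (b (l 16642744) (a (b (l 16672312) (l 16664072)) (l 16651728))))) (b (a (b (a (l 16650104) (l 16648440)) (l 16631328)) (b (a (l 16647144) (l 16639920)) (l 16621320))) (a (a (l 16607464) (l 16603120)) (l 16591864)))) (b (a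 (b (l 16570016) (l 16537112)) (b (a (l 16563464) (l 16551888)) (a (l 16530744) (l 16521272)))) (a (l 16488376) (b (l 16493664) (l 16462384)))))) (b (b (a (b (b (l 16610024) (l 16616088)) (b (l 16605640) (l 16555264))) (b (a (b (l 16582136) (l 16561456)) (b (l 16549720) (a (l 16534368) (l 16519160)))) (a (l 16536888) (b (l 16502688) (l 16486392))))) (b (a (a (b (l 16608296) (a (l 16608000) (l 16584368))) (l 16552864)) (a (l 16502968) (l 16453696))) (a (a (b (a (l 16589536) (l 16574048)) (l 16561840)) (b (l 16535856) (l 16528360))) (b (l 16459088) (l 16458352))))) (b (b (a (a (l 16533104) (b (l 16514208) (l 16495776))) (b (l 16452912) (l 16443576))) (a (b (b (l 16496488) (l 16487784)) (l 16474976)) (b (a (l 16447688) (l 16414232)) (a (l 16426968) (l 16394520))))) (a (b (l 16450840) (a (l 16440080) (l 16402424))) (b (a (l 16397248) (l 16366544)) (a (l 16365328) (l 16326136))))))), by decide +kernel⟩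

def k4_pm_202 : ∃ t, chk3 f_pm_202 t 15 9 1 = true :=
  ⟨(b (a (a (l 3) (b (a (b (l 16447032) (l 16425736)) (l 16420064)) (b (a (l 16409144) (l 16385216)) (l 106467299799)))) (a (b (a (b (l 16412112) (l 16383768)) (l 16359416)) (a (b (l 16356448) (l 16330120)) (b (l 16319864) (l 16296280)))) (b (b (l 16314208) (l 16283560)) (l 16240736)))) (a (a (l 3) (b (b (a (l 16341024) (l 16321312)) (l 16279104)) (b (l 16222288) (l 16161784)))) (b (a (b (a (l 16299008) (l 16270312)) (l 16248824)) (l 16188184)) (a (b (l 16212176) (l 16171208)) (l 16140200))))), by decide +kernel⟩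

def k5_pm_202 : ∃ t, chk3 f_pm_202 t 15 5 1 = true :=
  ⟨(a (a (l 3) (a (b (b (b (l 16060096) (l 15928728)) (b (l 15802904) (l 15687584))) (a (l 3) (b (b (l 130625044439) (l 131698634487)) (b (l 127403565239) (l 586965017783))))) (b (b (b (l 16075264) (l 15953600)) (b (l 15833256) (l 15719432))) (b (b (l 15617120) (l 15531088)) (b (b (l 15479960) (l 15453256)) (b (l 15433072) (l 15419968))))))) (b (b (a (b (l 16101936) (l 16001088)) (b (a (l 16111416) (l 16068688)) (a (l 16046144) (l 16024912)))) (a (b (l 15896648) (l 15793720)) (a (l 15917600) (b (l 15975696) (l 15916040))))) (b (b (a (l 15697240) (l 15810864)) (a (l 15611928) (l 15726488))) (a (b (l 15542288) (l 15471568)) (b (l 15650888) (l 15588104)))))), by decide +kernel⟩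

def k6_pm_202 : ∃ t, chk3 f_pm_202 t 15 3 1 = true :=
  ⟨(b (a (a (l 3) (a (b (b (l 3) (l 3)) (l 3)) (b (b (b (b (l 15413656) (l 15410696)) (a (l 135456555879) (l 15414456))) (b (a (l 15409248) (l 15414376)) (a (l 15419616) (l 15419408)))) (b (b (a (l 15433728) (l 15428712)) (l 118813659447)) (b (l 119350562743) (l 125256176855)))))) (b (b (b (a (b (l 15470144) (l 15459672)) (l 15540528)) (a (a (l 15433944) (l 15460600)) (l 15503928))) (a (b (l 15435888) (l 15430528)) (b (l 15474408) (l 15451744)))) (b (a (b (l 15430128) (l 15433896)) (b (l 15435144) (l 15423856))) (a (b (l 15441064) (l 15450888)) (b (l 15417136) (l 15414248)))))) (a (a (l 3) (b (b (b (l 126330034023) (l 130088162039)) (b (l 133846291159) (l 136530677591))) (b (b (l 139215062887) (l 3)) (l 3)))) (b (b (a (b (l 15462672) (l 15475736)) (l 15436688)) (a (b (l 15489440) (l 15503192)) (l 15424696))) (b (a (b (l 15516408) (l 15528576)) (l 15437408)) (a (b (l 15539280) (l 15550088)) (l 15450448)))))), by decide +kernel⟩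

theorem s7_pm_202 : ∃ t, chk3 f_pm_202 t 15 4 1 = true := ex3_b k3_pm_202 k4_pm_202

theorem s8_pm_202 : ∃ t, chk3 f_pm_202 t 15 2 1 = true := ex3_b s7_pm_202 k5_pm_202

theorem s9_pm_202 : ∃ t, chk3 f_pm_202 t 15 1 1 = true := ex3_b s8_pm_202 k6_pm_202

theorem s10_pm_202 : ∃ t, chk3 f_pm_202 t 7 1 1 = true := ex3_a k2_pm_202 s9_pm_202

theorem s11_pm_202 : ∃ t, chk3 f_pm_202 t 3 1 1 = true := ex3_a k1_pm_202 s10_pm_202

theorem s12_pm_202 : ∃ t, chk3 f_pm_202 t 1 1 1 = true := ex3_a k0_pm_202 s11_pm_202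

theorem c_pm_202 : CertB 0 536870912 1073741824 536870912 1033476505 6710887 3 eng mog cd0q2 cd3q2 pd0 false true false .pp 2 0 2
    ndB0q2 ndB3q2 pcB0 Cut.none Ext.none :=
  certB1 (fam := false) (s1 := true) (s2 := false) (a := 2) (b := 0) (c := 2) (cn := .pp) (n1 := ndB0q2) (n2 := ndB3q2) (pc := pcB0) (cut := Cut.none) (xt := Ext.none) (P1 := 0) (W1 := 536870912) (P2 := 1073741824) (W2 := 536870912) (P3 := 1033476505) (W3 := 6710887) (N0 := 3) (En := eng) (mo := mog) (C1 := cd0q2) (C2 := cd3q2) (C3 := pd0)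
    rfl (fun _ => rfl) s12_pm_202

noncomputable def f_pm_203 : ℕ → ℕ → ℕ → ℕ → Bool := onCell 0 536870912 0 1230186008 1033476505 6710887
    (rowB 3 eng mog cd0q2 cd3q3 pd0 0 false true false .up 2 0 3 (qsf 0 536870912 0 1230186008 0) ndB0q2 ndB3q3 pcB0 Cut.none Ext.none)

def k0_pm_203 : ∃ t, chk3 f_pm_203 t 1 1 1 = true :=
  ⟨(b (l 2) (a (l 3) (b (l 2) (a (l 3) (b (l 2) (a (l 3) (b (l 2) (a (a (l 3) (l 3)) (b (l 2) (a (b (l 182164752039) (a (l 15593368) (l 15549344))) (l 15501752))))))))))), by decide +kernel⟩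

theorem c_pm_203 : CertB 0 536870912 0 1230186008 1033476505 6710887 3 eng mog cd0q2 cd3q3 pd0 false true false .up 2 0 3
    ndB0q2 ndB3q3 pcB0 Cut.none Ext.none :=
  certB0 (fam := false) (s1 := true) (s2 := false) (a := 2) (b := 0) (c := 3) (cn := .up) (n1 := ndB0q2) (n2 := ndB3q3) (pc := pcB0) (cut := Cut.none) (xt := Ext.none) (P1 := 0) (W1 := 536870912) (P2 := 0) (W2 := 1230186008) (P3 := 1033476505) (W3 := 6710887) (N0 := 3) (En := eng) (mo := mog) (C1 := cd0q2) (C2 := cd3q3) (C3 := pd0)
    rfl k0_pm_203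

noncomputable def cut_pm_213 : Cut := Cut.of [[⟨0, 1, 0, 20971520⟩, ⟨1, 1, 0, 20971520⟩, ⟨2, 2, 0, 1572864⟩]]

noncomputable def xt_pm_213 : Ext := extD3 3 ⟨4, 1, 1, 5, 27, 5, 41, 50, 81, 200, 1, 64⟩ eng cd0q2 cd3q3 pd1 false true false .pnn 2 1 3 rfl ndB0q2 ndB3q3 pcB1

noncomputable def f_pm_213 : ℕ → ℕ → ℕ → ℕ → Bool := onCell 0 536870912 0 1230186008 1033476505 6710887
    (rowB 3 eng mog cd0q2 cd3q3 pd1 0 false true false .pnn 2 1 3 (qsf 0 536870912 0 1230186008 1) ndB0q2 ndB3q3 pcB1 cut_pm_213 xt_pm_213)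

def k0_pm_213 : ∃ t, chk3 f_pm_213 t 2 4 1 = true :=
  ⟨(l 3), by decide +kernel⟩

def k1_pm_213 : ∃ t, chk3 f_pm_213 t 6 8 1 = true :=
  ⟨(l 3), by decide +kernel⟩

def k2_pm_213 : ∃ t, chk3 f_pm_213 t 14 8 1 = true :=
  ⟨(l 3), by decide +kernel⟩

def k3_pm_213 : ∃ t, chk3 f_pm_213 t 30 8 1 = true :=
  ⟨(l 3), by decide +kernel⟩

def k4_pm_213 : ∃ t, chk3 f_pm_213 t 62 8 1 = true :=
  ⟨(l 3), by decide +kernel⟩

def k5_pm_213 : ∃ t, chk3 f_pm_213 t 126 8 1 = true :=
  ⟨(l 3), by decide +kernel⟩

def k6_pm_213 : ∃ t, chk3 f_pm_213 t 127 16 1 = true :=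
  ⟨(a (l 3) (b (l 6) (a (l 3) (b (l 6) (b (l 6) (a (a (b (b (l 6) (b (l 6) (a (l 3) (a (c (l 2865154192630796468254572639) (l 2816797159846212469497462879)) (l 16778600))))) (a (a (l 3) (a (l 3) (b (l 3) (b (c (l 2420269491012617604887478367) (l 2371912458228032231740833887)) (c (l 3087596543439884456829796447) (l 3048910917212215979641864287)))))) (a (b (b (c (l 3261681861464396349386817631) (l 3222996235236727803479392351)) (c (l 3649142488364321372027479647) (l 3619523904070320743944487007))) (a (c (l 3146229263817816861907297887) (l 3909666100777821987708567647)) (l 16778728))) (l 16778072)))) (b (l 16778152) (l 16778848))) (l 16778248))))))), by decide +kernel⟩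

def k7_pm_213 : ∃ t, chk3 f_pm_213 t 254 17 1 = true :=
  ⟨(l 3), by decide +kernel⟩

def k8_pm_213 : ∃ t, chk3 f_pm_213 t 255 68 1 = true :=
  ⟨(a (a (l 3) (a (l 3) (a (b (l 3) (l 3)) (a (b (l 3) (b (l 3) (b (c (c (l 2565340589366383207616151647) (l 2545997776252549484418285663)) (c (l 2526654963138715692500942943) (l 2507312150024881419547263071))) (c (c (l 3213929237114083245469361759) (l 3204257824792559170073863775)) (c (l 3184915005914118061280732767) (l 3165572187035676883768108639)))))) (b (a (l 3) (b (l 3) (b (l 3) (b (l 3) (c (l 2275198392658860317216981087) (l 2226841359874274806631432287)))))) (b (b (c (c (l 2778111533618553887914967135) (l 2758768720504719546241810527)) (c (l 2739425907390885204568637535) (l 2720083094277051000334434399))) (c (c (l 3436371583311486590006027871) (l 3417028763856584728909456991)) (c (l 3407357350670369456339330655) (l 3388014531215456256529098335)))) (b (c (l 3030172470739262902936282719) (l 3368671687549223689409898079)) (l 16779464)))))))) (a (b (a (b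 (a (a (a (l 3) (b (l 3) (a (l 3) (c (l 2720083094277039867778875487) (l 2681397468049377025588035679))))) (b (c (c (l 3203653422122896622902394975) (l 3184310609009062349948698719)) (c (l 3164967795895228076994986079) (l 3145624982781393804041273439))) (c (c (l 3039843821667690950773532255) (l 3755527899673792430723688031)) (l 3745856482452352098188027487)))) (b (l 16778208) (l 16778976))) (a (a (b (c (c (l 2990882477870725117969809503) (l 2981211071313807809694285919)) (c (l 2952196851643056503342923871) (l 2932854038529222230389227615))) (a (c (l 3271353268021304243094913119) (l 3252010454907469626543882335)) (l 604328162084782670259807))) (l 604360732136323108742751)) (l 16779160))) (l 16773936)) (a (b (a (c (l 604266769010126869931615) (l 604234198979270994028127)) (l 16779424)) (l 16778304)) (l 16779648))) (l 16778912))), by decide +kernel⟩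

def k9_pm_213 : ∃ t, chk3 f_pm_213 t 255 69 1 = true :=
  ⟨(a (a (l 3) (b (a (l 3) (b (a (a (l 3) (b (c (c (l 2352569645114211977561538655) (l 2323555425443461289685516383)) (c (l 2304212612329627566487666783) (l 2284869799215793843289817183))) (c (c (l 2991486895528365919360280159) (l 2981815484071533041139410527)) (c (l 2962472665769552684649703007) (l 2942525445086144005432098911))))) (a (b (c (c (l 3668485310413318540004271711) (l 3716842337433296802433640031)) (l 3716842328786341399978321503)) (l 604404831368824755889759)) (l 16778376))) (a (c (c (b (a (l 2130127294305123026914558047) (l 3494400000459265082435053151)) (l 3310643301242106852648822367)) (b (l 2923786994866181951260304991) (l 3300971890073505931127645791))) (c (b (l 2904444177140662415793514079) (l 3281629078112592681744508511)) (b (l 2885101365179750334641464927) (l 3271957661179384237189097055)))) (l 16779304)))) (a (b (b (l 3) (a (l 3) (a (l 3) (c (c (l 2546602226191989253704902239) (l 2527259409907621736435639903)) (c (l 2507916593335023774295189087)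 (l 2487969336911048589704314975)))))) (a (l 3) (b (a (l 3) (c (c (l 3175243614633428212514023007) (l 3165572204905977797361903199)) (c (l 3146229388621610417531610719) (l 3136557978894160002379474527)))) (c (c (a (l 2314488492749115279210260063) (l 2875429858030439102403962463)) (l 3010829743806317558976915039)) (c (l 3001158334655327964847695455) (l 2981815518947421337320842847)))))) (a (a (b (b (c (c (l 3407357354129151012591412831) (l 3397685943536964457726862943)) (c (l 3378343126387905812002465375) (l 3368671715507533823523989087))) (c (c (l 604244863559607300089439) (l 604249187016142929733215)) (l 3175243458124332381586712159))) (l 604351796983598572103263)) (b (l 604337673692143479367263) (l 16780512))) (l 16779816))))) (b (a (a (l 16777448) (l 16780160)) (l 16779600)) (l 16775256))), by decide +kernel⟩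

def k10_pm_213 : ∃ t, chk3 f_pm_213 t 255 35 1 = true :=
  ⟨(a (b (a (b (l 3) (a (l 3) (b (l 3) (a (l 3) (a (l 3) (c (c (l 2711016217499414455968294495) (l 2691673402079738754349049439)) (c (l 2682001993505210462279165535) (l 2672330584642451794057569887)))))))) (b (a (b (b (a (l 3) (c (c (l 3397686000318372955029186143) (l 3388014596355530406508701279)) (c (l 3368671786124001132022802015) (l 3359000382161158514782824031)))) (a (a (l 3) (c (c (b (l 3) (l 2111388901731240532414244447)) (l 2063031950515852434835646047)) (c (l 2043689136249097688067368543) (l 2014674915713656284053136991)))) (c (c (l 3562099857310443008031893087) (l 3562099859616287254196299359)) (c (l 3562099862210361876512335455) (l 3552428457959289089279108703))))) (a (a (l 3) (b (c (c (l 2711016151206422787112855135) (l 2691673337516128998806431327)) (c (l 2672330523537604765628835423) (l 2662659116404227942000420447))) (c (c (l 3329986171425573333268915807) (l 3320314765733348596557669983)) (c (l 3310643360041123928565900895) (l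 3291300547503751782305293919))))) (c (b (l 604333206138080682972703) (l 16781088)) (l 604258410392028075927135)))) (b (l 16778320) (l 16776104))) (a (a (c (b (c (b (a (l 2469231021582914325565957727) (l 604405840192870915462687)) (l 3465385801541111510528697951)) (b (l 3088201023931758460571297375) (l 3455714394695965544088528479))) (b (c (l 2904444160567388642880460319) (l 3010829631540554505647953439)) (l 16780440))) (c (b (b (l 3078529617374842732843886175) (l 3446042987562589270216140383)) (l 3001158154943656067384464927)) (b (b (l 3059186804261009902999348831) (l 3436371580717443303775970911)) (l 3233271911156743364321400351)))) (b (l 16780176) (l 16776696))) (l 16776760)))) (a (b (a (l 3) (a (a (l 3) (b (l 3) (c (l 2372516984980853295409436191) (l 2333831346935739739599197727)))) (b (c (b (l 2798058817712650337036166751) (l 3155900787540385236955584031)) (b (l 2769044591412603746450237023) (l 3126886565852021503701145119))) (a (c (a (l 3155900829333789778954409503) (l 604332629677328382596639))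 (l 3097872323987531439826785823)) (c (l 16779824) (l 16780088)))))) (a (b (l 3) (a (l 3) (c (l 2701344766987319017387251231) (l 5554409679372335282164422175)))) (b (a (c (b (l 2527259416104549534934652447) (a (l 124184962887) (l 197736278151))) (c (l 2923786995010270544904623647) (l 2991486833126469622592263711))) (c (l 16781600) (l 16781904))) (a (c (b (a (l 150491638199) (l 16783168)) (l 197736279159)) (b (a (l 149417897031) (l 16780880)) (l 196662538039))) (l 16781008))))) (b (b (c (l 16781424) (l 16781656)) (l 16780416)) (a (l 16781032) (l 16783768))))) (b (b (l 16781040) (l 16781592)) (l 16771976))), by decide +kernel⟩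

def k11_pm_213 : ∃ t, chk3 f_pm_213 t 6 9 1 = true :=
  ⟨(l 3), by decide +kernel⟩

def k12_pm_213 : ∃ t, chk3 f_pm_213 t 14 9 1 = true :=
  ⟨(l 3), by decide +kernel⟩

def k13_pm_213 : ∃ t, chk3 f_pm_213 t 30 9 1 = true :=
  ⟨(l 3), by decide +kernel⟩

def k14_pm_213 : ∃ t, chk3 f_pm_213 t 62 9 1 = true :=
  ⟨(l 3), by decide +kernel⟩

def k15_pm_213 : ∃ t, chk3 f_pm_213 t 126 18 1 = true :=
  ⟨(l 3), by decide +kernel⟩

def k16_pm_213 : ∃ t, chk3 f_pm_213 t 254 18 1 = true :=
  ⟨(a (l 3) (b (b (l 3) (a (l 3) (a (l 3) (b (a (l 3) (b (c (l 1995332192815939436040365663) (l 1966317935242841370218272287)) (c (l 2575616548760980448182855263) (l 2556273768505407132379473503)))) (b (c (l 2623973574916333896452499039) (b (l 2488573944800796543827748447) (l 2672330654682467627391411807))) (a (c (l 3203653422122916963880566879) (l 2990882477870782017710751839)) (c (l 3707170791949244043361936991) (l 3707170756208685028413023839)))))))) (b (a (l 3) (b (a (b (l 3) (a (l 3) (c (l 3010225290984604402187173983)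 (l 2768440127061683034013302879)))) (c (b (l 3271957287632806642815903327) (l 3591113629071065873410483807)) (b (b (l 3213928900749243278685300319) (l 3397685585266547458811225695)) (b (l 3571770865244636780079588959) (l 3745856146952287853531539039))))) (a (b (a (l 3) (c (l 2633040435264871092159807583) (b (l 2420269491012704535032332383) (l 2749097313947875767810965599)))) (c (l 2633040435264831028700479583) (b (l 2516983556581842708289503327) (l 2691068874606338520487592031)))) (b (c (l 603875640489882001516127) (l 603904751764126798112351)) (l 603817994398708732405343))))) (a (b (l 3) (a (l 3) (a (l 3) (c (c (l 3493795618830372577880981599) (l 3368067333590451006273060959)) (c (b (l 2845811379516987552776650847) (l 2768440127061628608168509663)) (b (l 2720083094277066049888174303) (l 2642711841821706830397276383))))))) (c (a (b (b (l 2942525445086139538660032607) (l 3252010454907509002795139167)) (b (l 3561495464728831050491347039) (l 16773016))) (l 603607009525664982836831)) (b (c (b (l 3300970913837203351016138335)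 (l 3465384732494545140028761695)) (b (l 3300970925942884165910455903) (l 3465384742870840674355799647))) (b (c (l 3620127146612715638331680351) (l 3620127155547859085741696095)) (l 603157946760355487458399)))))))), by decide +kernel⟩

def k17_pm_213 : ∃ t, chk3 f_pm_213 t 255 18 1 = true :=
  ⟨(b (a (b (a (b (a (a (l 3) (b (c (b (l 123111222055) (l 142438575543)) (b (l 121500610055) (l 141364834503))) (c (b (l 162302799959) (l 181630153447)) (b (l 161229058951) (l 180556412503))))) (a (b (b (c (l 16782376) (l 16782744)) (l 16782872)) (l 16783344)) (l 16781920))) (c (a (b (a (b (l 108078838503) (l 127406192071)) (b (l 189683217799) (l 16782432))) (a (b (l 146733545655) (l 165524028327)) (l 16780320))) (l 16780296)) (a (b (a (b (l 105931355783) (l 125795580311)) (b (l 188609476887) (l 16782912))) (b (c (l 176798317751) (l 176261447223)) (c (l 186998865847) (l 186998865655)))) (l 16780232)))) (b (l 16774056) (l 16785088))) (a (b (a (a (a (c (l 2846415804236234774194886175) (a (l 2720687558483874872810952223)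 (l 604351364651778251593247))) (c (l 604261436774418908845599) (l 604224543286271489545759))) (b (l 16781168) (l 16776176))) (l 16775752)) (a (c (l 603862237703448789620255) (l 603826497136805978265119)) (b (l 16765728) (l 16787648)))) (b (l 16785592) (l 16765984)))) (b (l 16783528) (l 16774424))) (a (a (b (a (l 603804591628218440013343) (l 603304800155971340572191)) (l 603415768850789777167903)) (b (l 16763888) (l 16777592))) (b (l 16786368) (l 16779136)))), by decide +kernel⟩

def k18_pm_213 : ∃ t, chk3 f_pm_213 t 126 19 1 = true :=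
  ⟨(l 3), by decide +kernel⟩

def k19_pm_213 : ∃ t, chk3 f_pm_213 t 1016 19 1 = true :=
  ⟨(b (l 3) (l 3)), by decide +kernel⟩

def k20_pm_213 : ∃ t, chk3 f_pm_213 t 1017 38 1 = true :=
  ⟨(b (l 3) (l 3)), by decide +kernel⟩

def k21_pm_213 : ∃ t, chk3 f_pm_213 t 1017 78 1 = true :=
  ⟨(a (l 3) (c (b (a (l 3) (c (b (l 2255855579544716325515296991) (l 2701342160087317493765563615)) (b (b (l 1985056195951054852263657695) (l 2265526986101616385199014111)) (b (l 2536326369695260472419860703) (l 2798057035872059728318276831))))) (c (b (l 2633642989800786160133301471) (b (l 2817399717120876586961163295) (l 2952799891991825484792550431))) (b (b (l 2517586025225195980446508255) (l 2662657320440265545116787935)) (b (l 2798056826761301711507182623) (l 2933456994138260829394031647))))) (b (a (l 3) (b (c (b (l 1965713382837219411078987999) (l 2236512766430864666530988255)) (c (b (l 1946370569723384176052715743) (l 2217169953317030049979973855)) (b (b (l 3) (l 1927027756609541725479534815)) (b (l 2081770261520198935396942047)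 (l 2226841359873939043197108447))))) (b (a (l 3) (c (l 2981211071313443733834236127) (c (l 2971539664756526769156145375) (b (l 2865154192630447441960911071) (l 3145624982781025467572306143))))) (c (l 2778714170588528608855385311) (c (l 2769042724832281037300278495) (b (l 2691068874605909917034709215) (l 2836139972959649612517949663))))))) (c (b (b (a (l 3) (l 3049513758825739901230425311)) (l 2643314437574682992228066527)) (b (l 2778713935825266083749712927) (b (l 2894770947670704266608595999) (l 2972142203296574671456490527)))) (c (b (b (l 2488571697756287154450965727) (l 2623971194132899048913986783)) (b (l 2769042470181121939251139615) (a (l 2459557483994667714962527263) (l 603335064345467209323551)))) (b (b (b (l 2430543180016131230734197983) (l 2507914144817536567903528159)) (a (l 1908287748216016661555864671) (l 2933456997020564590920143903))) (b (l 2759371024424873749220774943) (b (l 2875428028199861399831629855) (l 2952799280943428043162423327))))))))), by decide +kernel⟩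

def k22_pm_213 : ∃ t, chk3 f_pm_213 t 1017 79 1 = true :=
  ⟨(b (a (b (l 3) (a (l 3) (c (c (l 2256457584425687183310972127) (l 2188757649752314018945524831)) (c (b (l 1937301498935897865426395231) (l 2188155733646114572770607199)) (c (b (l 1898615805262322880566386783) (l 2178484327089198157848264863)) (b (l 1888944353453237409825251487) (l 2168812920532281468048048287))))))) (b (c (c (l 3117213174252503913364083743) (b (l 3068856174614412003822883871) (l 3213927031719342665804125215))) (c (b (l 3059184681588382124911645727) (l 3204256295009819808984519711)) (c (b (l 3049513209891400081227142175) (l 3194584823744684701004374111)) (b (l 3039841759811696248921018399) (l 3184913373664982105648799839))))) (c (a (c (l 3310641458584795893948982495) (l 3291298559290081488095569119)) (l 16721280)) (c (b (l 3300970125526621274544595039) (l 602407682616106035044447)) (b (c (l 3262284434735350394799087711) (l 3242941578386960798600175775)) (l 602322078195832085586015)))))) (b (c (c (l 2807726934695734388871914719)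 (b (l 2769041508211724418840683615) (l 2836741092685196743628382303))) (c (a (b (l 2159141513975369588610023519) (l 2304212612329129762498461791)) (l 602066706085310446755935)) (c (b (l 2740027149613938885469184159) (l 2807125753288805259972984991)) (a (b (l 2130127294304618625854931103) (l 2275198392658377975109533855)) (l 601959772616376636858527))))) (c (c (l 2933454711785554069740479583) (b (l 2903839818857979373521010783) (l 2971539664756402318155399263))) (a (b (c (l 2439612304125972490672341087) (c (l 2429940897569054632639725727) (a (l 3) (l 2971539664756405066934681631)))) (c (l 2584683402479731839926993055) (c (l 2575011995922813569577582623) (b (l 2526654963138226822041370655) (l 2584683402479730465515700255))))) (l 143629925393809439))))), by decide +kernel⟩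

def k23_pm_213 : ∃ t, chk3 f_pm_213 t 509 38 1 = true :=
  ⟨(b (b (c (a (a (l 3) (c (b (l 2758768720504662852655644895) (l 3029568104098341437052305631)) (b (l 2739425907390827892507820255) (l 3019896697541423304143651039)))) (l 603008066919951490164447)) (a (a (l 3) (c (b (l 2623369028707823354292043999) (l 2923182631972251870650630367)) (b (l 2613697622150906252175081695) (b (l 2913511225415341022012031199) (l 3068253730325999331439952095))))) (l 603018154985865580061919))) (a (a (b (l 3) (a (l 3) (b (c (l 2014070415622016852563099871) (c (l 140291050167) (l 1946370569723591227869053151))) (c (l 2304212612329513285960696031) (c (l 2265526986101841029201903839) (l 2246184172988004282347389151)))))) (c (b (b (l 3252010454907411352400101599) (l 3406752959818068631035920607)) (b (l 2787782940175362619384512735) (l 144011249833509087))) (c (b (b (l 3232667641793575292740452575) (l 3387410146704232433937301727)) (l 2217169953317246997404696799)) (b (b (l 3222996235236656953673187551) (l 3377738740147313957431132383))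 (b (l 2749097313947690637504102623) (l 144007126665822431)))))) (l 602820717114979727631583))) (a (b (b (a (a (l 3) (c (b (l 2584683402480091930046415071) (l 2874825599187586782895898847)) (c (b (l 2555669182809336431807316191) (l 2845811379516831078498418911)) (b (b (l 2420269491012499201191166175) (l 2584683402480080728770937055)) (b (l 2739425907390744948075200735) (l 2903839818858326063338062047)))))) (c (l 143985548744736991) (l 143981906618499295))) (c (c (a (l 2710411687719943270342263007) (l 16755440)) (l 3068253730325836947288195295)) (a (b (c (l 2565340589366202131749159135) (c (l 2545997776252367583917588703) (l 2545997776252365110016671967))) (c (l 2720083094276878583118577887) (c (l 2710411687719958800942072031) (l 2700740281163039912118698207)))) (l 16755784)))) (b (a (c (c (l 2981211071313564886291742943) (b (l 2894168412301371028060569823) (l 3039239510655103439278014687))) (c (b (l 2874825599187533181694296287) (l 3019896697541265730350678239)) (c (b (l 2855482786073696228681269471)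 (l 3010225290984346016893616351)) (a (b (l 2236512766431009252327784671) (b (l 2410598084455500185441468639) (l 2565340589366157945114689759))) (l 143924800714752223))))) (l 143909682429968607)) (a (a (c (c (l 2971539664756641874293211359) (b (l 2836139972959818043974959327) (l 3116610763110378202520928479))) (c (b (l 2816797159845980953522979039) (l 3097267949996542005422031071)) (c (b (l 2807125753289061583663202527) (l 3087596543439623322757071071)) (b (b (l 2720083094276814742715302111) (l 2874825599187471471596323039)) (b (l 3029568104098128063038423263) (l 3184310609008784585761095903)))))) (c (l 16748792) (l 143869550248427743))) (l 143857799218217183)))) (b (l 602618091091619427116255) (l 16746088)))), by decide +kernel⟩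

def k24_pm_213 : ∃ t, chk3 f_pm_213 t 509 39 1 = true :=
  ⟨(b (b (a (a (c (b (c (l 2323555425443125732414308575) (l 2323555425443125182658625759)) (l 602162398682686621017311)) (c (b (a (b (l 2681397468049076240373547231) (l 16744456)) (l 16745472)) (l 602851845744228222018783)) (b (b (c (l 2826468566402826381219102943) (b (l 3435767179488607113133080799) (l 3203653422122581956352229599))) (l 143790179246489823)) (l 602807170036955498915039)))) (l 602329284086902421365983)) (l 16744376)) (c (b (l 602567506853775211467807) (l 603007922868535019410463)) (b (l 602462446410252302099679) (l 602871301670239107879967)))) (b (c (l 601865665887845781165087) (l 601721406031321341960287)) (a (l 601183279946808760623135) (l 16730672)))), by decide +kernel⟩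

def k25_pm_213 : ∃ t, chk3 f_pm_213 t 255 19 1 = true :=
  ⟨(b (a (b (l 602547907188196954641951) (l 16734872)) (l 599309350681756313900575)) (b (b (l 16746360) (l 16738720)) (b (l 16734216) (l 16731816)))), by decide +kernel⟩

def k26_pm_213 : ∃ t, chk3 f_pm_213 t 2 5 1 = true :=
  ⟨(l 3), by decide +kernel⟩

def k27_pm_213 : ∃ t, chk3 f_pm_213 t 6 5 1 = true :=
  ⟨(l 3), by decide +kernel⟩

def k28_pm_213 : ∃ t, chk3 f_pm_213 t 14 5 1 = true :=
  ⟨(l 3), by decide +kernel⟩

def k29_pm_213 : ∃ t, chk3 f_pm_213 t 30 5 1 = true :=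
  ⟨(l 3), by decide +kernel⟩

def k30_pm_213 : ∃ t, chk3 f_pm_213 t 62 5 1 = true :=
  ⟨(b (l 3) (b (l 3) (l 3))), by decide +kernel⟩

def k31_pm_213 : ∃ t, chk3 f_pm_213 t 63 40 1 = true :=
  ⟨(a (l 3) (a (a (b (b (a (l 3) (c (b (c (l 3058582323768661803486134367) (b (l 3039239510654824919192371295) (l 3106939356553247176632172639))) (c (l 3184310609008589972162773087) (b (l 3174639202451669159193985119) (l 3242339048350090866877923487)))) (a (c (b (a (b (l 2188155733646142197995978911) (l 2449283710682905948021063711)) (l 143654458245169311)) (c (b (l 3000553884427174446505803935) (l 3135953576224015456691372063)) (b (l 3000553884427172797236936735) (l 3126282169667096430415216671)))) (c (b (b (l 2710411687719655060800733215) (l 2845811379516496208421109791)) (b (l 2961868258199370729341141023) (l 3097267949995960363680677919))) (b (b (b (l 2652383248378135886662139935) (l 2720083094276428195570270239)) (l 2816797159845409963300782111)) (b (l 2952196851642000834586804255) (l 3068253730324761762208088095)))))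 (l 143634873193087007)))) (b (a (a (l 3) (a (l 3) (c (c (l 2168812920532342009899040927) (b (l 1946370569723243301084889119) (l 2197827140203090567469187103))) (b (c (l 2159141513975317224316878879) (l 2362241051669704593465720863)) (c (l 2159141513975075812792664095) (l 2101113074632713313209139231)))))) (c (c (l 3019896697541005901959250015) (b (l 3116610763110171563009294495) (l 143659406042988575))) (c (b (c (l 3058582323768666545124769823) (l 3271353268020733665125105695)) (l 143517569022935071)) (b (c (l 3261681861463370573594574879) (l 142654452286210079)) (l 142635966699487263))))) (a (a (l 3) (c (c (l 2275198392658441884213968927) (b (l 2159141513975429511965196319) (l 2275198392658411785037676575))) (c (b (l 2120455887747136305987600415) (l 2246184172986826018063941663)) (b (l 2033413228734036587491295263) (l 2149470107416818955590795295))))) (c (b (l 143663323052179487) (l 143664972318507039)) (c (l 143146689939226655) (l 142280755659358239)))))) (b (a (a (l 3) (c (c (b (a (l 1956041976280194213179736095)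 (l 2807125753288881882178453535)) (a (l 2352569645113703040963559455) (l 143696377116278815))) (c (b (l 2487969336910436161585594399) (l 2720083094275980969199616031)) (b (l 2468626523796192389250973727) (l 2681397468047912338436243487)))) (c (b (b (l 2352569645112685511610826783) (l 2468626523795465749408432159)) (l 2633040435262725463638294559)) (b (l 2342898238554832862393106463) (l 2545997776249668145039474719))))) (b (c (l 143667102620549151) (l 142244952802885663)) (c (l 143440122151469087) (l 141792228807098399)))) (c (a (c (b (a (l 3) (l 2961868258199044174371946527)) (l 2536326369694709891840540703)) (b (l 2371912458226801740531056671) (l 2458955117238103413716647967))) (l 142732105252323359)) (b (c (l 2671726061490473861479612447) (l 2604026215590791838453547039)) (l 2700740281160310167922245663))))) (b (b (l 600157756247638964559903) (l 600126627366945855315999)) (b (l 599578412834919868620831) (l 594726053454323939483679)))) (b (l 600864208743868474318879) (l 600470486011218717958175)))),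 by decide +kernel⟩

def k32_pm_213 : ∃ t, chk3 f_pm_213 t 63 41 1 = true :=
  ⟨(a (a (l 3) (a (l 3) (a (l 3) (b (b (l 3) (l 3)) (b (c (l 10563593811932797222637010975) (l 138686863800647711)) (c (l 2623369028702970246691061791) (b (l 16241096) (l 16213576)))))))) (b (a (a (c (b (c (b (l 2865154192629032164124557343) (l 2884497005742447110756646943)) (b (l 2797454346729859352429674527) (l 2826468566400208168733016095))) (b (l 2913511225412417969934860319) (l 140747623878672415))) (b (b (l 2729754500830306247149584415) (l 2758768720500680283504263199)) (l 139522905149063199))) (b (l 141287690323509279) (l 140427528475656223))) (l 594498638758315335082015)) (a (b (a (c (l 140120077467729951) (l 138759843906175007)) (l 582811183533420362359327)) (c (l 582307068391675968643615) (b (l 16276208) (l 16225400)))) (b (l 588113181563659030241823) (l 585028539168168662934047))))), by decide +kernel⟩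

def k33_pm_213 : ∃ t, chk3 f_pm_213 t 63 21 1 = true :=
  ⟨(a (a (l 3) (b (a (l 3) (c (b (a (l 3) (b (l 88750626103) (l 86603027431))) (b (l 16165288) (l 16117296))) (b (b (l 262696590791) (l 16122912)) (l 16054224)))) (b (a (l 3) (b (l 16033232) (l 15994536))) (b (l 15962728) (l 15931432))))) (b (b (b (a (a (a (l 16312872) (l 16234152)) (l 16243032)) (l 16265496)) (a (a (b (l 16189840) (l 16162888)) (l 16184368)) (l 16200960))) (b (a (a (b (l 16136776) (l 16111528)) (l 16128912)) (l 16139944)) (a (l 16076120) (l 16083304)))) (b (a (b (l 16030056) (l 15987864)) (b (l 16031024) (l 15982920))) (b (a (l 15949400) (l 15939536)) (l 15907080))))), by decide +kernel⟩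

def k34_pm_213 : ∃ t, chk3 f_pm_213 t 63 11 1 = true :=
  ⟨(b (b (a (a (l 3) (b (l 15890056) (l 15845048))) (b (b (l 15873984) (l 15844480)) (l 15806560))) (a (b (l 343226453911) (l 341078930343)) (b (l 15767000) (l 15738608)))) (b (a (b (l 341078904231) (l 342152632503)) (l 15713856)) (a (b (l 344300111319) (l 338931403975)) (l 15706488)))), by decide +kernel⟩

def k35_pm_213 : ∃ t, chk3 f_pm_213 t 1 3 1 = true :=
  ⟨(a (l 3) (b (a (l 3) (a (l 3) (b (a (l 3) (a (b (l 3) (a (l 3) (b (l 792050572775) (l 287391902295)))) (b (b (a (b (l 335173314231) (l 15781576)) (l 15716952)) (a (b (l 15785568) (l 15786648)) (l 15731576))) (b (b (a (l 15785640) (l 15736312)) (l 15759568)) (a (l 15777288) (l 15735976)))))) (a (l 3) (b (a (a (l 3) (b (l 286855015991) (l 289002482375))) (b (a (l 15768312) (l 15734088)) (a (l 15756816) (l 15730616)))) (a (a (l 3) (b (l 292760570839) (b (l 15746264) (l 15735136)))) (b (a (l 15743672) (l 15726304)) (a (l 15730456) (l 15722584))))))))) (a (l 3) (a (l 3) (b (a (l 3) (b (a (b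 (a (l 3) (b (l 15724496) (l 15714752))) (a (l 3) (b (l 15706360) (l 15699976)))) (b (a (l 15719416) (l 15721496)) (a (l 15713352) (l 15725600)))) (b (a (a (l 213840371639) (b (l 15695088) (l 15691256))) (l 15705056)) (a (a (b (l 15682792) (l 15672248)) (b (l 15687696) (l 15684720))) (l 15737472))))) (b (a (l 3) (a (b (a (b (l 225114553783) (l 229946382855)) (b (l 15682448) (l 15681136))) (a (a (l 183775409175) (b (l 15642520) (l 15637968))) (b (l 15681080) (l 15682600)))) (b (l 15751624) (b (l 15765056) (l 15776072))))) (a (b (l 3) (l 3)) (b (a (a (a (b (l 15623832) (l 15617176)) (b (l 15636056) (l 15637280))) (b (l 15686064) (l 15691872))) (a (l 15759880) (l 15833424))) (a (b (a (a (l 210618910199) (l 15641488)) (l 15700456)) (a (a (a (l 1) (l 15617928)) (l 15649088)) (l 15712280))) (b (l 15821880) (l 15842592))))))))))), by decide +kernel⟩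

theorem s36_pm_213 : ∃ t, chk3 f_pm_213 t 63 20 1 = true := ex3_b k31_pm_213 k32_pm_213

theorem s37_pm_213 : ∃ t, chk3 f_pm_213 t 63 10 1 = true := ex3_b s36_pm_213 k33_pm_213

theorem s38_pm_213 : ∃ t, chk3 f_pm_213 t 63 5 1 = true := ex3_b s37_pm_213 k34_pm_213

theorem s39_pm_213 : ∃ t, chk3 f_pm_213 t 31 5 1 = true := ex3_a k30_pm_213 s38_pm_213

theorem s40_pm_213 : ∃ t, chk3 f_pm_213 t 15 5 1 = true := ex3_a k29_pm_213 s39_pm_213

theorem s41_pm_213 : ∃ t, chk3 f_pm_213 t 7 5 1 = true := ex3_a k28_pm_213 s40_pm_213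

theorem s42_pm_213 : ∃ t, chk3 f_pm_213 t 3 5 1 = true := ex3_a k27_pm_213 s41_pm_213

theorem s43_pm_213 : ∃ t, chk3 f_pm_213 t 1 5 1 = true := ex3_a k26_pm_213 s42_pm_213

theorem s44_pm_213 : ∃ t, chk3 f_pm_213 t 509 19 1 = true := ex3_b k23_pm_213 k24_pm_213

theorem s45_pm_213 : ∃ t, chk3 f_pm_213 t 1017 39 1 = true := ex3_b k21_pm_213 k22_pm_213

theorem s46_pm_213 : ∃ t, chk3 f_pm_213 t 1017 19 1 = true := ex3_b k20_pm_213 s45_pm_213

theorem s47_pm_213 : ∃ t, chk3 f_pm_213 t 508 19 1 = true := ex3_a k19_pm_213 s46_pm_213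

theorem s48_pm_213 : ∃ t, chk3 f_pm_213 t 254 19 1 = true := ex3_a s47_pm_213 s44_pm_213

theorem s49_pm_213 : ∃ t, chk3 f_pm_213 t 127 19 1 = true := ex3_a s48_pm_213 k25_pm_213

theorem s50_pm_213 : ∃ t, chk3 f_pm_213 t 63 19 1 = true := ex3_a k18_pm_213 s49_pm_213

theorem s51_pm_213 : ∃ t, chk3 f_pm_213 t 127 18 1 = true := ex3_a k16_pm_213 k17_pm_213

theorem s52_pm_213 : ∃ t, chk3 f_pm_213 t 63 18 1 = true := ex3_a k15_pm_213 s51_pm_213

theorem s53_pm_213 : ∃ t, chk3 f_pm_213 t 63 9 1 = true := ex3_b s52_pm_213 s50_pm_213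

theorem s54_pm_213 : ∃ t, chk3 f_pm_213 t 31 9 1 = true := ex3_a k14_pm_213 s53_pm_213

theorem s55_pm_213 : ∃ t, chk3 f_pm_213 t 15 9 1 = true := ex3_a k13_pm_213 s54_pm_213

theorem s56_pm_213 : ∃ t, chk3 f_pm_213 t 7 9 1 = true := ex3_a k12_pm_213 s55_pm_213

theorem s57_pm_213 : ∃ t, chk3 f_pm_213 t 3 9 1 = true := ex3_a k11_pm_213 s56_pm_213

theorem s58_pm_213 : ∃ t, chk3 f_pm_213 t 255 34 1 = true := ex3_b k8_pm_213 k9_pm_213

theorem s59_pm_213 : ∃ t, chk3 f_pm_213 t 255 17 1 = true := ex3_b s58_pm_213 k10_pm_213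

theorem s60_pm_213 : ∃ t, chk3 f_pm_213 t 127 17 1 = true := ex3_a k7_pm_213 s59_pm_213

theorem s61_pm_213 : ∃ t, chk3 f_pm_213 t 127 8 1 = true := ex3_b k6_pm_213 s60_pm_213

theorem s62_pm_213 : ∃ t, chk3 f_pm_213 t 63 8 1 = true := ex3_a k5_pm_213 s61_pm_213

theorem s63_pm_213 : ∃ t, chk3 f_pm_213 t 31 8 1 = true := ex3_a k4_pm_213 s62_pm_213

theorem s64_pm_213 : ∃ t, chk3 f_pm_213 t 15 8 1 = true := ex3_a k3_pm_213 s63_pm_213

theorem s65_pm_213 : ∃ t, chk3 f_pm_213 t 7 8 1 = true := ex3_a k2_pm_213 s64_pm_213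

theorem s66_pm_213 : ∃ t, chk3 f_pm_213 t 3 8 1 = true := ex3_a k1_pm_213 s65_pm_213

theorem s67_pm_213 : ∃ t, chk3 f_pm_213 t 3 4 1 = true := ex3_b s66_pm_213 s57_pm_213

theorem s68_pm_213 : ∃ t, chk3 f_pm_213 t 1 4 1 = true := ex3_a k0_pm_213 s67_pm_213

theorem s69_pm_213 : ∃ t, chk3 f_pm_213 t 1 2 1 = true := ex3_b s68_pm_213 s43_pm_213

theorem s70_pm_213 : ∃ t, chk3 f_pm_213 t 1 1 1 = true := ex3_b s69_pm_213 k35_pm_213

theorem c_pm_213 : CertB 0 536870912 0 1230186008 1033476505 6710887 3 eng mog cd0q2 cd3q3 pd1 false true false .pnn 2 1 3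
    ndB0q2 ndB3q3 pcB1 cut_pm_213 xt_pm_213 :=
  certB0 (fam := false) (s1 := true) (s2 := false) (a := 2) (b := 1) (c := 3) (cn := .pnn) (n1 := ndB0q2) (n2 := ndB3q3) (pc := pcB1) (cut := cut_pm_213) (xt := xt_pm_213) (P1 := 0) (W1 := 536870912) (P2 := 0) (W2 := 1230186008) (P3 := 1033476505) (W3 := 6710887) (N0 := 3) (En := eng) (mo := mog) (C1 := cd0q2) (C2 := cd3q3) (C3 := pd1)
    rfl s70_pm_213

noncomputable def f_mm_001 : ℕ → ℕ → ℕ → ℕ → Bool := onCell 0 536870912 0 536870912 1033476505 6710887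
    (rowB 3 eng mog cd0q0 cd3q1 pd0 1 false false false .up 0 0 1 (qsf 0 536870912 536870912 536870912 0) ndB0q0 ndB3q1 pcB0 Cut.none Ext.none)

def k0_mm_001 : ∃ t, chk3 f_mm_001 t 1 1 1 = true :=
  ⟨(l 3), by decide +kernel⟩

theorem c_mm_001 : CertB 0 536870912 536870912 536870912 1033476505 6710887 3 eng mog cd0q0 cd3q1 pd0 false false false .up 0 0 1
    ndB0q0 ndB3q1 pcB0 Cut.none Ext.none :=
  certB1 (fam := false) (s1 := false) (s2 := false) (a := 0) (b := 0) (c := 1) (cn := .up) (n1 := ndB0q0) (n2 := ndB3q1) (pc := pcB0) (cut := Cut.none) (xt := Ext.none) (P1 := 0) (W1 := 536870912) (P2 := 536870912) (W2 := 536870912) (P3 := 1033476505) (W3 := 6710887) (N0 := 3) (En := eng) (mo := mog) (C1 := cd0q0) (C2 := cd3q1) (C3 := pd0)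
    rfl (fun _ => rfl) k0_mm_001

noncomputable def f_mm_011 : ℕ → ℕ → ℕ → ℕ → Bool := onCell 0 536870912 536870912 536870912 1033476505 6710887
    (rowB 3 eng mog cd0q0 cd3q1 pd1 1 false false false .pnn 0 1 1 (qsf 0 536870912 536870912 536870912 1) ndB0q0 ndB3q1 pcB1 Cut.none Ext.none)

def k0_mm_011 : ∃ t, chk3 f_mm_011 t 1 1 1 = true :=
  ⟨(l 5), by decide +kernel⟩

theorem c_mm_011 : CertB 0 536870912 536870912 536870912 1033476505 6710887 3 eng mog cd0q0 cd3q1 pd1 false false false .pnn 0 1 1
    ndB0q0 ndB3q1 pcB1 Cut.none Ext.none :=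
  certB1 (fam := false) (s1 := false) (s2 := false) (a := 0) (b := 1) (c := 1) (cn := .pnn) (n1 := ndB0q0) (n2 := ndB3q1) (pc := pcB1) (cut := Cut.none) (xt := Ext.none) (P1 := 0) (W1 := 536870912) (P2 := 536870912) (W2 := 536870912) (P3 := 1033476505) (W3 := 6710887) (N0 := 3) (En := eng) (mo := mog) (C1 := cd0q0) (C2 := cd3q1) (C3 := pd1)
    rfl (fun _ => rfl) k0_mm_011

noncomputable def f_mm_012 : ℕ → ℕ → ℕ → ℕ → Bool := onCell 0 536870912 1073741824 536870912 1033476505 6710887
    (rowB 3 eng mog cd0q0 cd3q2 pd1 0 false false false .pnp 0 1 2 (qsf 0 536870912 1073741824 536870912 1) ndB0q0 ndB3q2 pcB1 Cut.none Ext.none)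

def k0_mm_012 : ∃ t, chk3 f_mm_012 t 1 1 1 = true :=
  ⟨(l 5), by decide +kernel⟩

theorem c_mm_012 : CertB 0 536870912 1073741824 536870912 1033476505 6710887 3 eng mog cd0q0 cd3q2 pd1 false false false .pnp 0 1 2
    ndB0q0 ndB3q2 pcB1 Cut.none Ext.none :=
  certB0 (fam := false) (s1 := false) (s2 := false) (a := 0) (b := 1) (c := 2) (cn := .pnp) (n1 := ndB0q0) (n2 := ndB3q2) (pc := pcB1) (cut := Cut.none) (xt := Ext.none) (P1 := 0) (W1 := 536870912) (P2 := 1073741824) (W2 := 536870912) (P3 := 1033476505) (W3 := 6710887) (N0 := 3) (En := eng) (mo := mog) (C1 := cd0q0) (C2 := cd3q2) (C3 := pd1)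
    rfl k0_mm_012

noncomputable def f_mm_022 : ℕ → ℕ → ℕ → ℕ → Bool := onCell 0 536870912 1073741824 536870912 1033476505 6710887
    (rowB 3 eng mog cd0q0 cd3q2 pd2 0 false false false .pp 0 2 2 (qsf 0 536870912 1073741824 536870912 2) ndB0q0 ndB3q2 pcB2 Cut.none Ext.none)

def k0_mm_022 : ∃ t, chk3 f_mm_022 t 1 1 1 = true :=
  ⟨(l 5), by decide +kernel⟩

theorem c_mm_022 : CertB 0 536870912 1073741824 536870912 1033476505 6710887 3 eng mog cd0q0 cd3q2 pd2 false false false .pp 0 2 2
    ndB0q0 ndB3q2 pcB2 Cut.none Ext.none :=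
  certB0 (fam := false) (s1 := false) (s2 := false) (a := 0) (b := 2) (c := 2) (cn := .pp) (n1 := ndB0q0) (n2 := ndB3q2) (pc := pcB2) (cut := Cut.none) (xt := Ext.none) (P1 := 0) (W1 := 536870912) (P2 := 1073741824) (W2 := 536870912) (P3 := 1033476505) (W3 := 6710887) (N0 := 3) (En := eng) (mo := mog) (C1 := cd0q0) (C2 := cd3q2) (C3 := pd2)
    rfl k0_mm_022

noncomputable def f_mm_023 : ℕ → ℕ → ℕ → ℕ → Bool := onCell 0 536870912 0 1230186008 1033476505 6710887
    (rowB 3 eng mog cd0q0 cd3q3 pd2 0 false false false .up 0 2 3 (qsf 0 536870912 0 1230186008 2) ndB0q0 ndB3q3 pcB2 Cut.none Ext.none)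

def k0_mm_023 : ∃ t, chk3 f_mm_023 t 1 1 1 = true :=
  ⟨(l 5), by decide +kernel⟩

theorem c_mm_023 : CertB 0 536870912 0 1230186008 1033476505 6710887 3 eng mog cd0q0 cd3q3 pd2 false false false .up 0 2 3
    ndB0q0 ndB3q3 pcB2 Cut.none Ext.none :=
  certB0 (fam := false) (s1 := false) (s2 := false) (a := 0) (b := 2) (c := 3) (cn := .up) (n1 := ndB0q0) (n2 := ndB3q3) (pc := pcB2) (cut := Cut.none) (xt := Ext.none) (P1 := 0) (W1 := 536870912) (P2 := 0) (W2 := 1230186008) (P3 := 1033476505) (W3 := 6710887) (N0 := 3) (En := eng) (mo := mog) (C1 := cd0q0) (C2 := cd3q3) (C3 := pd2)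
    rfl k0_mm_023

noncomputable def f_mm_033 : ℕ → ℕ → ℕ → ℕ → Bool := onCell 0 536870912 0 1230186008 1033476505 6710887
    (rowB 3 eng mog cd0q0 cd3q3 pd3 0 false false false .pnn 0 3 3 (qsf 0 536870912 0 1230186008 3) ndB0q0 ndB3q3 pcB3 Cut.none Ext.none)

def k0_mm_033 : ∃ t, chk3 f_mm_033 t 1 1 1 = true :=
  ⟨(l 5), by decide +kernel⟩

theorem c_mm_033 : CertB 0 536870912 0 1230186008 1033476505 6710887 3 eng mog cd0q0 cd3q3 pd3 false false false .pnn 0 3 3
    ndB0q0 ndB3q3 pcB3 Cut.none Ext.none :=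
  certB0 (fam := false) (s1 := false) (s2 := false) (a := 0) (b := 3) (c := 3) (cn := .pnn) (n1 := ndB0q0) (n2 := ndB3q3) (pc := pcB3) (cut := Cut.none) (xt := Ext.none) (P1 := 0) (W1 := 536870912) (P2 := 0) (W2 := 1230186008) (P3 := 1033476505) (W3 := 6710887) (N0 := 3) (En := eng) (mo := mog) (C1 := cd0q0) (C2 := cd3q3) (C3 := pd3)
    rfl k0_mm_033

noncomputable def cut_mm_101 : Cut := Cut.of [[⟨0, 1, 0, 33554432⟩, ⟨1, 0, 0, 33554432⟩, ⟨2, 1, 0, 33554432⟩]]

noncomputable def f_mm_101 : ℕ → ℕ → ℕ → ℕ → Bool := onCell 536870912 536870912 0 536870912 1033476505 6710887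
    (rowB 3 eng mog cd0q1 cd3q1 pd0 1 false false false .npn 1 0 1 (qsf 536870912 536870912 536870912 536870912 0) ndB0q1 ndB3q1 pcB0 cut_mm_101 Ext.none)

def k0_mm_101 : ∃ t, chk3 f_mm_101 t 1 1 1 = true :=
  ⟨(a (l 3) (a (l 3) (a (l 3) (b (b (b (a (l 3) (b (b (a (l 3) (l 6)) (l 3)) (l 3))) (l 3)) (l 2)) (l 2))))), by decide +kernel⟩

theorem c_mm_101 : CertB 536870912 536870912 536870912 536870912 1033476505 6710887 3 eng mog cd0q1 cd3q1 pd0 false false false .npn 1 0 1
    ndB0q1 ndB3q1 pcB0 cut_mm_101 Ext.none :=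
  certB1 (fam := false) (s1 := false) (s2 := false) (a := 1) (b := 0) (c := 1) (cn := .npn) (n1 := ndB0q1) (n2 := ndB3q1) (pc := pcB0) (cut := cut_mm_101) (xt := Ext.none) (P1 := 536870912) (W1 := 536870912) (P2 := 536870912) (W2 := 536870912) (P3 := 1033476505) (W3 := 6710887) (N0 := 3) (En := eng) (mo := mog) (C1 := cd0q1) (C2 := cd3q1) (C3 := pd0)
    rfl (fun _ => rfl) k0_mm_101

noncomputable def f_mm_102 : ℕ → ℕ → ℕ → ℕ → Bool := onCell 536870912 536870912 0 536870912 1033476505 6710887
    (rowB 3 eng mog cd0q1 cd3q2 pd0 1 false false false .npp 1 0 2 (qsf 536870912 536870912 1073741824 536870912 0) ndB0q1 ndB3q2 pcB0 Cut.none Ext.none)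

def k0_mm_102 : ∃ t, chk3 f_mm_102 t 1 1 1 = true :=
  ⟨(l 3), by decide +kernel⟩

theorem c_mm_102 : CertB 536870912 536870912 1073741824 536870912 1033476505 6710887 3 eng mog cd0q1 cd3q2 pd0 false false false .npp 1 0 2
    ndB0q1 ndB3q2 pcB0 Cut.none Ext.none :=
  certB1 (fam := false) (s1 := false) (s2 := false) (a := 1) (b := 0) (c := 2) (cn := .npp) (n1 := ndB0q1) (n2 := ndB3q2) (pc := pcB0) (cut := Cut.none) (xt := Ext.none) (P1 := 536870912) (W1 := 536870912) (P2 := 1073741824) (W2 := 536870912) (P3 := 1033476505) (W3 := 6710887) (N0 := 3) (En := eng) (mo := mog) (C1 := cd0q1) (C2 := cd3q2) (C3 := pd0)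
    rfl (fun _ => rfl) k0_mm_102

noncomputable def f_mm_112 : ℕ → ℕ → ℕ → ℕ → Bool := onCell 536870912 536870912 536870912 536870912 1033476505 6710887
    (rowB 3 eng mog cd0q1 cd3q2 pd1 1 false false false .dn 1 1 2 (qsf 536870912 536870912 1073741824 536870912 1) ndB0q1 ndB3q2 pcB1 Cut.none Ext.none)

def k0_mm_112 : ∃ t, chk3 f_mm_112 t 1 1 1 = true :=
  ⟨(l 5), by decide +kernel⟩

theorem c_mm_112 : CertB 536870912 536870912 1073741824 536870912 1033476505 6710887 3 eng mog cd0q1 cd3q2 pd1 false false false .dn 1 1 2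
    ndB0q1 ndB3q2 pcB1 Cut.none Ext.none :=
  certB1 (fam := false) (s1 := false) (s2 := false) (a := 1) (b := 1) (c := 2) (cn := .dn) (n1 := ndB0q1) (n2 := ndB3q2) (pc := pcB1) (cut := Cut.none) (xt := Ext.none) (P1 := 536870912) (W1 := 536870912) (P2 := 1073741824) (W2 := 536870912) (P3 := 1033476505) (W3 := 6710887) (N0 := 3) (En := eng) (mo := mog) (C1 := cd0q1) (C2 := cd3q2) (C3 := pd1)
    rfl (fun _ => rfl) k0_mm_112

noncomputable def f_mm_113 : ℕ → ℕ → ℕ → ℕ → Bool := onCell 536870912 536870912 0 1230186008 1033476505 6710887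
    (rowB 3 eng mog cd0q1 cd3q3 pd1 0 false false false .nn 1 1 3 (qsf 536870912 536870912 0 1230186008 1) ndB0q1 ndB3q3 pcB1 Cut.none Ext.none)

def k0_mm_113 : ∃ t, chk3 f_mm_113 t 1 1 1 = true :=
  ⟨(b (l 5) (l 5)), by decide +kernel⟩

theorem c_mm_113 : CertB 536870912 536870912 0 1230186008 1033476505 6710887 3 eng mog cd0q1 cd3q3 pd1 false false false .nn 1 1 3
    ndB0q1 ndB3q3 pcB1 Cut.none Ext.none :=
  certB0 (fam := false) (s1 := false) (s2 := false) (a := 1) (b := 1) (c := 3) (cn := .nn) (n1 := ndB0q1) (n2 := ndB3q3) (pc := pcB1) (cut := Cut.none) (xt := Ext.none) (P1 := 536870912) (W1 := 536870912) (P2 := 0) (W2 := 1230186008) (P3 := 1033476505) (W3 := 6710887) (N0 := 3) (En := eng) (mo := mog) (C1 := cd0q1) (C2 := cd3q3) (C3 := pd1)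
    rfl k0_mm_113

noncomputable def f_mm_123 : ℕ → ℕ → ℕ → ℕ → Bool := onCell 536870912 536870912 0 1230186008 1033476505 6710887
    (rowB 3 eng mog cd0q1 cd3q3 pd2 0 false false false .npn 1 2 3 (qsf 536870912 536870912 0 1230186008 2) ndB0q1 ndB3q3 pcB2 Cut.none Ext.none)

def k0_mm_123 : ∃ t, chk3 f_mm_123 t 1 1 1 = true :=
  ⟨(b (l 5) (l 5)), by decide +kernel⟩

theorem c_mm_123 : CertB 536870912 536870912 0 1230186008 1033476505 6710887 3 eng mog cd0q1 cd3q3 pd2 false false false .npn 1 2 3
    ndB0q1 ndB3q3 pcB2 Cut.none Ext.none :=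
  certB0 (fam := false) (s1 := false) (s2 := false) (a := 1) (b := 2) (c := 3) (cn := .npn) (n1 := ndB0q1) (n2 := ndB3q3) (pc := pcB2) (cut := Cut.none) (xt := Ext.none) (P1 := 536870912) (W1 := 536870912) (P2 := 0) (W2 := 1230186008) (P3 := 1033476505) (W3 := 6710887) (N0 := 3) (En := eng) (mo := mog) (C1 := cd0q1) (C2 := cd3q3) (C3 := pd2)
    rfl k0_mm_123

noncomputable def f_mm_133 : ℕ → ℕ → ℕ → ℕ → Bool := onCell 1610612736 536870912 0 1230186008 1033476505 6710887
    (rowB 3 eng mog cd0q1 cd3q3 pd3 2 false false false .dn 1 3 3 (qsf 536870912 536870912 0 1230186008 3) ndB0q1 ndB3q3 pcB3 Cut.none Ext.none)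

def k0_mm_133 : ∃ t, chk3 f_mm_133 t 1 1 1 = true :=
  ⟨(l 5), by decide +kernel⟩

theorem c_mm_133 : CertB 536870912 536870912 0 1230186008 1033476505 6710887 3 eng mog cd0q1 cd3q3 pd3 false false false .dn 1 3 3
    ndB0q1 ndB3q3 pcB3 Cut.none Ext.none :=
  certB2 (fam := false) (s1 := false) (s2 := false) (a := 1) (b := 3) (c := 3) (cn := .dn) (n1 := ndB0q1) (n2 := ndB3q3) (pc := pcB3) (cut := Cut.none) (xt := Ext.none) (P1 := 536870912) (W1 := 536870912) (P2 := 0) (W2 := 1230186008) (P3 := 1033476505) (W3 := 6710887) (N0 := 3) (En := eng) (mo := mog) (C1 := cd0q1) (C2 := cd3q3) (C3 := pd3)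
    rfl (fun _ => rfl) k0_mm_133

noncomputable def f_mm_202 : ℕ → ℕ → ℕ → ℕ → Bool := onCell 0 536870912 1073741824 536870912 1033476505 6710887
    (rowB 3 eng mog cd0q2 cd3q2 pd0 0 false false false .pp 2 0 2 (qsf 0 536870912 1073741824 536870912 0) ndB0q2 ndB3q2 pcB0 Cut.none Ext.none)

def k0_mm_202 : ∃ t, chk3 f_mm_202 t 1 1 1 = true :=
  ⟨(l 3), by decide +kernel⟩

theorem c_mm_202 : CertB 0 536870912 1073741824 536870912 1033476505 6710887 3 eng mog cd0q2 cd3q2 pd0 false false false .pp 2 0 2
    ndB0q2 ndB3q2 pcB0 Cut.none Ext.none :=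
  certB0 (fam := false) (s1 := false) (s2 := false) (a := 2) (b := 0) (c := 2) (cn := .pp) (n1 := ndB0q2) (n2 := ndB3q2) (pc := pcB0) (cut := Cut.none) (xt := Ext.none) (P1 := 0) (W1 := 536870912) (P2 := 1073741824) (W2 := 536870912) (P3 := 1033476505) (W3 := 6710887) (N0 := 3) (En := eng) (mo := mog) (C1 := cd0q2) (C2 := cd3q2) (C3 := pd0)
    rfl k0_mm_202

noncomputable def f_mm_203 : ℕ → ℕ → ℕ → ℕ → Bool := onCell 0 536870912 0 1230186008 1033476505 6710887
    (rowB 3 eng mog cd0q2 cd3q3 pd0 0 false false false .up 2 0 3 (qsf 0 536870912 0 1230186008 0) ndB0q2 ndB3q3 pcB0 Cut.none Ext.none)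

def k0_mm_203 : ∃ t, chk3 f_mm_203 t 1 1 1 = true :=
  ⟨(b (l 2) (l 3)), by decide +kernel⟩

theorem c_mm_203 : CertB 0 536870912 0 1230186008 1033476505 6710887 3 eng mog cd0q2 cd3q3 pd0 false false false .up 2 0 3
    ndB0q2 ndB3q3 pcB0 Cut.none Ext.none :=
  certB0 (fam := false) (s1 := false) (s2 := false) (a := 2) (b := 0) (c := 3) (cn := .up) (n1 := ndB0q2) (n2 := ndB3q3) (pc := pcB0) (cut := Cut.none) (xt := Ext.none) (P1 := 0) (W1 := 536870912) (P2 := 0) (W2 := 1230186008) (P3 := 1033476505) (W3 := 6710887) (N0 := 3) (En := eng) (mo := mog) (C1 := cd0q2) (C2 := cd3q3) (C3 := pd0)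
    rfl k0_mm_203

noncomputable def f_mm_213 : ℕ → ℕ → ℕ → ℕ → Bool := onCell 0 536870912 0 1230186008 1033476505 6710887
    (rowB 3 eng mog cd0q2 cd3q3 pd1 0 false false false .pnn 2 1 3 (qsf 0 536870912 0 1230186008 1) ndB0q2 ndB3q3 pcB1 Cut.none Ext.none)

def k0_mm_213 : ∃ t, chk3 f_mm_213 t 1 1 1 = true :=
  ⟨(b (a (l 3) (l 5)) (l 3)), by decide +kernel⟩

theorem c_mm_213 : CertB 0 536870912 0 1230186008 1033476505 6710887 3 eng mog cd0q2 cd3q3 pd1 false false false .pnn 2 1 3
    ndB0q2 ndB3q3 pcB1 Cut.none Ext.none :=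
  certB0 (fam := false) (s1 := false) (s2 := false) (a := 2) (b := 1) (c := 3) (cn := .pnn) (n1 := ndB0q2) (n2 := ndB3q3) (pc := pcB1) (cut := Cut.none) (xt := Ext.none) (P1 := 0) (W1 := 536870912) (P2 := 0) (W2 := 1230186008) (P3 := 1033476505) (W3 := 6710887) (N0 := 3) (En := eng) (mo := mog) (C1 := cd0q2) (C2 := cd3q3) (C3 := pd1)
    rfl k0_mm_213

end Pool.Agent.Strip051.G.I9625_9688.Tab.C.BB03

namespace Pool.Agent.Strip051.G.I9625_9688.Tab.C.BB04

open Pool.Agent.Strip051.PB Pool.Agent.Strip051.PB.T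
open Pool.Agent.Strip051.G.I9625_9688.Tab

noncomputable def f_pp_001 : ℕ → ℕ → ℕ → ℕ → Bool := onCell 0 536870912 0 536870912 1033476505 6710887
    (rowB 3 eng mog cd0q0 cd4q1 pd0 1 false true true .up 0 0 1 (qsf 0 536870912 536870912 536870912 0) ndB0q0 ndB4q1 pcB0 Cut.none Ext.none)

def k0_pp_001 : ∃ t, chk3 f_pp_001 t 1 1 1 = true :=
  ⟨(l 3), by decide +kernel⟩

theorem c_pp_001 : CertB 0 536870912 536870912 536870912 1033476505 6710887 3 eng mog cd0q0 cd4q1 pd0 false true true .up 0 0 1
    ndB0q0 ndB4q1 pcB0 Cut.none Ext.none :=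
  certB1 (fam := false) (s1 := true) (s2 := true) (a := 0) (b := 0) (c := 1) (cn := .up) (n1 := ndB0q0) (n2 := ndB4q1) (pc := pcB0) (cut := Cut.none) (xt := Ext.none) (P1 := 0) (W1 := 536870912) (P2 := 536870912) (W2 := 536870912) (P3 := 1033476505) (W3 := 6710887) (N0 := 3) (En := eng) (mo := mog) (C1 := cd0q0) (C2 := cd4q1) (C3 := pd0)
    rfl (fun _ => rfl) k0_pp_001

noncomputable def cut_pp_011 : Cut := Cut.of [[⟨0, 0, 0, 33554432⟩, ⟨1, 1, 0, 33554432⟩, ⟨2, 1, 0, 33554432⟩]]

noncomputable def f_pp_011 : ℕ → ℕ → ℕ → ℕ → Bool := onCell 0 536870912 536870912 536870912 1033476505 6710887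
    (rowB 3 eng mog cd0q0 cd4q1 pd1 1 false true true .pnn 0 1 1 (qsf 0 536870912 536870912 536870912 1) ndB0q0 ndB4q1 pcB1 cut_pp_011 Ext.none)

def k0_pp_011 : ∃ t, chk3 f_pp_011 t 1 1 1 = true :=
  ⟨(a (b (l 3) (b (l 3) (a (b (l 3) (a (b (l 3) (a (a (b (l 3) (l 6)) (l 3)) (l 3))) (l 3))) (l 3)))) (l 3)), by decide +kernel⟩

theorem c_pp_011 : CertB 0 536870912 536870912 536870912 1033476505 6710887 3 eng mog cd0q0 cd4q1 pd1 false true true .pnn 0 1 1
    ndB0q0 ndB4q1 pcB1 cut_pp_011 Ext.none :=
  certB1 (fam := false) (s1 := true) (s2 := true) (a := 0) (b := 1) (c := 1) (cn := .pnn) (n1 := ndB0q0) (n2 := ndB4q1) (pc := pcB1) (cut := cut_pp_011) (xt := Ext.none) (P1 := 0) (W1 := 536870912) (P2 := 536870912) (W2 := 536870912) (P3 := 1033476505) (W3 := 6710887) (N0 := 3) (En := eng) (mo := mog) (C1 := cd0q0) (C2 := cd4q1) (C3 := pd1)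
    rfl (fun _ => rfl) k0_pp_011

noncomputable def f_pp_012 : ℕ → ℕ → ℕ → ℕ → Bool := onCell 0 536870912 536870912 536870912 1033476505 6710887
    (rowB 3 eng mog cd0q0 cd4q2 pd1 1 false true true .pnp 0 1 2 (qsf 0 536870912 1073741824 536870912 1) ndB0q0 ndB4q2 pcB1 Cut.none Ext.none)

def k0_pp_012 : ∃ t, chk3 f_pp_012 t 1 1 1 = true :=
  ⟨(l 3), by decide +kernel⟩

theorem c_pp_012 : CertB 0 536870912 1073741824 536870912 1033476505 6710887 3 eng mog cd0q0 cd4q2 pd1 false true true .pnp 0 1 2
    ndB0q0 ndB4q2 pcB1 Cut.none Ext.none :=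
  certB1 (fam := false) (s1 := true) (s2 := true) (a := 0) (b := 1) (c := 2) (cn := .pnp) (n1 := ndB0q0) (n2 := ndB4q2) (pc := pcB1) (cut := Cut.none) (xt := Ext.none) (P1 := 0) (W1 := 536870912) (P2 := 1073741824) (W2 := 536870912) (P3 := 1033476505) (W3 := 6710887) (N0 := 3) (En := eng) (mo := mog) (C1 := cd0q0) (C2 := cd4q2) (C3 := pd1)
    rfl (fun _ => rfl) k0_pp_012

noncomputable def f_pp_022 : ℕ → ℕ → ℕ → ℕ → Bool := onCell 0 536870912 1073741824 536870912 1033476505 6710887
    (rowB 3 eng mog cd0q0 cd4q2 pd2 1 false true true .pp 0 2 2 (qsf 0 536870912 1073741824 536870912 2) ndB0q0 ndB4q2 pcB2 Cut.none Ext.none)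

def k0_pp_022 : ∃ t, chk3 f_pp_022 t 2 2 1 = true :=
  ⟨(b (l 3) (a (b (b (b (l 3) (a (b (a (b (l 16329584) (l 16343040)) (b (l 3) (l 16244016))) (b (a (l 16320112) (l 16129632)) (a (l 16297304) (l 16119880)))) (b (a (a (l 16085616) (b (l 3) (l 15978216))) (l 3)) (b (a (a (l 16046136) (l 15952768)) (a (b (l 15838336) (l 15825728)) (l 185385814167))) (a (a (l 16017368) (l 15925568)) (a (l 15807064) (l 15663792))))))) (a (a (l 16060416) (l 15920320)) (a (a (l 15893000) (l 15809248)) (a (l 15701176) (l 15570096))))) (a (a (b (l 15971576) (l 15810264)) (b (l 15824416) (l 15634840))) (a (a (l 15609696) (b (l 15626976) (l 15475360))) (a (b (l 15537000) (l 15403160)) (l 15368056))))) (b (b (b (l 3) (b (l 3) (b (b (l 3) (a (a (a (l 15536784) (l 257862929111)) (a (l 15231408) (l 3))) (l 3))) (a (a (a (l 15522288) (l 15366720)) (a (l 15221160) (a (l 15177976) (l 15125872)))) (a (a (a (l 15077856) (l 328192417063)) (c (a (l 326581729719) (l 326044795159)) (a (l 14988648) (l 14954608)))) (a (a (a (l 326581633991)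 (l 327118456039)) (a (l 326581561975) (a (l 326581546471) (l 326581537047)))) (c (b (l 3) (a (l 14898776) (l 14887608))) (a (l 14885184) (l 14873704))))))))) (b (a (a (a (l 15475960) (l 15348416)) (a (b (l 15243352) (l 15218696)) (b (l 15135800) (l 15116592)))) (a (a (a (l 15057296) (l 15016840)) (a (l 14980976) (l 14970936))) (a (b (a (l 14927176) (l 14905600)) (l 14910976)) (b (a (l 14889648) (l 14879536)) (l 14882968))))) (a (a (l 15181224) (l 15136816)) (a (a (l 15012320) (l 14950328)) (a (l 14907352) (l 14885072)))))) (a (a (b (l 15270200) (l 15190928)) (b (l 15091224) (l 15055816))) (a (a (l 15005928) (l 14946864)) (b (l 14967856) (l 14944192))))))), by decide +kernel⟩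

def k1_pp_022 : ∃ t, chk3 f_pp_022 t 2 3 1 = true :=
  ⟨(a (a (b (b (a (l 15534160) (l 15408040)) (a (l 15266304) (l 15203400))) (b (a (l 15103976) (l 15101776)) (b (l 15060056) (l 15054672)))) (b (a (b (a (l 15337272) (l 15303648)) (l 15174544)) (a (b (l 15257728) (l 15158432)) (b (l 15201176) (l 15143080)))) (a (b (a (l 15117544) (l 15135584)) (l 15150296)) (b (a (l 15154560) (l 15176288)) (l 2))))) (b (a (a (b (l 15126584) (a (l 15133736) (l 15132176))) (b (b (l 15048640) (l 15068360)) (l 15144088))) (b (a (l 15009040) (l 15054000)) (a (l 15189888) (l 2)))) (b (a (a (l 15220976) (l 2)) (l 2)) (l 2)))), by decide +kernel⟩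

def k2_pp_022 : ∃ t, chk3 f_pp_022 t 3 1 1 = true :=
  ⟨(b (b (l 3) (b (b (b (l 3) (a (b (l 3) (b (l 3) (a (b (l 3) (a (a (a (c (l 321212815991) (l 14867776)) (l 14872376)) (c (l 319602195415) (l 14864776))) (a (l 318528458903) (l 14889560)))) (a (a (l 312622921815) (l 308864864311)) (a (l 305106817767) (l 2)))))) (l 2))) (a (a (a (a (b (a (b (l 14874936) (l 14876448)) (l 14874712)) (l 14882472)) (b (b (l 14874344) (l 14879624)) (l 14891000))) (b (a (b (l 14881688) (l 14889832)) (l 14900776)) (l 14915328))) (a (b (a (l 14921744) (l 14947952)) (l 14967544)) (b (a (l 14978864) (l 2)) (l 2)))) (l 2))) (a (a (a (b (a (l 14908568) (l 14925816)) (l 14979112)) (l 15003704)) (a (l 15080584) (l 2))) (l 2)))) (a (b (a (a (b (l 15123568) (l 2)) (l 2)) (l 2)) (l 2)) (l 2))), by decide +kernel⟩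

theorem s3_pp_022 : ∃ t, chk3 f_pp_022 t 2 1 1 = true := ex3_b k0_pp_022 k1_pp_022

theorem s4_pp_022 : ∃ t, chk3 f_pp_022 t 1 1 1 = true := ex3_a s3_pp_022 k2_pp_022

theorem c_pp_022 : CertB 0 536870912 1073741824 536870912 1033476505 6710887 3 eng mog cd0q0 cd4q2 pd2 false true true .pp 0 2 2
    ndB0q0 ndB4q2 pcB2 Cut.none Ext.none :=
  certB1 (fam := false) (s1 := true) (s2 := true) (a := 0) (b := 2) (c := 2) (cn := .pp) (n1 := ndB0q0) (n2 := ndB4q2) (pc := pcB2) (cut := Cut.none) (xt := Ext.none) (P1 := 0) (W1 := 536870912) (P2 := 1073741824) (W2 := 536870912) (P3 := 1033476505) (W3 := 6710887) (N0 := 3) (En := eng) (mo := mog) (C1 := cd0q0) (C2 := cd4q2) (C3 := pd2)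
    rfl (fun _ => rfl) s4_pp_022

noncomputable def f_pp_023 : ℕ → ℕ → ℕ → ℕ → Bool := onCell 1073741824 536870912 0 1230186008 1033476505 6710887
    (rowB 3 eng mog cd0q0 cd4q3 pd2 2 false true true .up 0 2 3 (qsf 0 536870912 0 1230186008 2) ndB0q0 ndB4q3 pcB2 Cut.none Ext.none)

def k0_pp_023 : ∃ t, chk3 f_pp_023 t 2 1 1 = true :=
  ⟨(b (l 2) (b (a (l 2) (a (l 2) (b (l 2) (b (l 2) (a (l 2) (l 15967624)))))) (a (l 3) (b (b (a (a (l 2) (b (l 2) (l 306114742599))) (a (b (l 15755968) (l 15614024)) (b (l 15799768) (l 15653600)))) (b (a (a (l 2) (a (l 295913835815) (l 15443496))) (a (l 15469576) (l 15504936))) (a (a (a (l 3) (a (a (l 3) (b (l 15311176) (l 15241736))) (a (a (l 15256512) (l 15279512)) (a (l 15281224) (b (l 15315904) (l 15247576)))))) (a (b (l 15322448) (l 15253880)) (l 15281768))) (a (l 15325424) (l 15354728))))) (a (a (a (l 3) (a (b (b (a (l 3) (b (l 15173904) (l 3))) (l 3)) (l 3)) (b (a (b (a (b (l 15174960) (l 15108136)) (l 15142768)) (a (l 1383680589655) (b (l 15043352) (l 14978424))))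 (b (a (l 15144400) (b (l 15179960) (l 15112672))) (b (l 15045216) (l 14979880)))) (a (b (b (a (l 3) (l 14915568)) (l 3)) (l 3)) (b (b (l 14916672) (l 14856400)) (b (b (l 14813704) (l 14786696)) (b (l 305106435511) (b (l 305106405527) (a (l 307253841319) (l 14731240)))))))))) (b (b (a (b (l 15186128) (l 15119200)) (l 15164512)) (a (b (l 15051504) (l 14984960)) (l 15027200))) (b (b (a (l 14920680) (l 14927752)) (a (l 14859512) (l 14865368))) (b (a (b (l 14816264) (l 14788960)) (l 14807416)) (a (a (b (l 14762160) (a (l 14737528) (l 14738280))) (l 14751624)) (l 14755136)))))) (b (b (a (l 15161016) (l 15206072)) (a (l 15020848) (l 15063032))) (b (a (b (l 14940416) (l 14876640)) (l 14927696)) (a (b (l 14817744) (l 14765040)) (b (l 14836344) (a (l 14778352) (l 14786256))))))))))), by decide +kernel⟩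

def k1_pp_023 : ∃ t, chk3 f_pp_023 t 3 2 1 = true :=
  ⟨(a (l 2) (b (a (l 2) (b (l 15143720) (l 15394104))) (b (a (l 15835416) (l 15734656)) (a (b (l 16073408) (l 125189917975)) (b (l 15978936) (l 16061064)))))), by decide +kernel⟩

def k2_pp_023 : ∃ t, chk3 f_pp_023 t 3 6 1 = true :=
  ⟨(a (b (a (l 2) (b (l 16295352) (l 16138408))) (a (b (a (l 329201387207) (l 16275328)) (a (l 15975072) (l 15845584))) (b (a (l 16247856) (l 16214344)) (b (l 16144328) (a (l 16075152) (l 16094616)))))) (b (a (b (a (l 16210608) (l 16147168)) (l 16148696)) (b (a (l 16103160) (l 16068848)) (a (l 16110792) (l 16053552)))) (a (b (l 16006352) (a (l 16101632) (l 16062832))) (b (a (l 16083768) (l 16032280)) (a (l 16018040) (b (l 15985840) (l 15945568))))))), by decide +kernel⟩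

def k3_pp_023 : ∃ t, chk3 f_pp_023 t 3 7 1 = true :=
  ⟨(b (a (b (a (b (l 15843880) (l 15712480)) (b (l 15947760) (l 15787416))) (a (b (l 15556496) (l 15399584)) (b (l 15623632) (l 15459312)))) (b (a (b (l 15774968) (a (l 15838168) (l 15865504))) (b (a (l 15952704) (l 15890480)) (a (l 15864296) (l 15822152)))) (a (b (a (l 15668128) (l 15690352)) (a (l 15497688) (l 15510688))) (b (a (l 15695688) (l 15665520)) (a (l 15502808) (l 15460976)))))) (a (b (a (b (a (l 15231744) (l 15258672)) (a (l 15085856) (l 15110336))) (b (a (l 15285656) (l 15310432)) (a (l 15134296) (l 15161744)))) (a (b (a (l 14950824) (a (l 14947000) (l 14982632))) (a (b (a (l 14853424) (l 14865664)) (l 14809448)) (b (l 14894320) (l 14852936)))) (b (a (b (l 15036320) (l 14980632)) (l 15017728)) (b (a (l 14936176) (l 14972904)) (a (l 14903400) (l 14939840)))))) (b (a (b (a (l 15331440) (l 15337376)) (a (l 15158864) (l 15157768))) (b (a (l 15316808) (b (l 15311600) (l 15198432))) (a (a (l 15138224) (l 15137520)) (b (a (l 15149592) (b (l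 15135872) (l 15095896))) (a (b (l 15089496) (l 15053216)) (b (l 15060064) (l 15025224))))))) (a (b (a (b (l 15083800) (l 15030544)) (b (l 15140272) (l 15020136))) (b (a (l 15050456) (a (b (l 14989576) (l 14969208)) (b (l 14975616) (l 14953144)))) (a (a (l 14951008) (b (l 14957968) (l 14941056))) (a (b (l 14949144) (l 14928376)) (l 14920520))))) (b (a (a (b (l 15053928) (b (l 15008168) (l 14980688))) (b (b (l 15046544) (l 15014424)) (b (l 14985328) (l 14957616)))) (a (a (b (l 15011312) (l 14952496)) (b (l 14997704) (l 14939800))) (b (b (l 14993272) (l 14962968)) (l 14918464)))) (a (a (b (b (l 14955384) (l 14931872)) (b (l 14910120) (l 14888016))) (b (b (l 14931976) (l 14908080)) (l 14874600))) (l 14834000))))))), by decide +kernel⟩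

theorem s4_pp_023 : ∃ t, chk3 f_pp_023 t 3 3 1 = true := ex3_b k2_pp_023 k3_pp_023

theorem s5_pp_023 : ∃ t, chk3 f_pp_023 t 3 1 1 = true := ex3_b k1_pp_023 s4_pp_023

theorem s6_pp_023 : ∃ t, chk3 f_pp_023 t 1 1 1 = true := ex3_a k0_pp_023 s5_pp_023

theorem c_pp_023 : CertB 0 536870912 0 1230186008 1033476505 6710887 3 eng mog cd0q0 cd4q3 pd2 false true true .up 0 2 3
    ndB0q0 ndB4q3 pcB2 Cut.none Ext.none :=
  certB2 (fam := false) (s1 := true) (s2 := true) (a := 0) (b := 2) (c := 3) (cn := .up) (n1 := ndB0q0) (n2 := ndB4q3) (pc := pcB2) (cut := Cut.none) (xt := Ext.none) (P1 := 0) (W1 := 536870912) (P2 := 0) (W2 := 1230186008) (P3 := 1033476505) (W3 := 6710887) (N0 := 3) (En := eng) (mo := mog) (C1 := cd0q0) (C2 := cd4q3) (C3 := pd2)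
    rfl (fun _ => rfl) s6_pp_023

noncomputable def f_pp_033 : ℕ → ℕ → ℕ → ℕ → Bool := onCell 0 536870912 0 1230186008 1033476505 6710887
    (rowB 3 eng mog cd0q0 cd4q3 pd3 0 false true true .pnn 0 3 3 (qsf 0 536870912 0 1230186008 3) ndB0q0 ndB4q3 pcB3 Cut.none Ext.none)

def k0_pp_033 : ∃ t, chk3 f_pp_033 t 1 4 1 = true :=
  ⟨(a (b (l 4) (a (l 4) (a (a (l 4) (a (l 4) (b (l 4) (l 16176752)))) (a (b (l 4) (a (l 16259224) (l 16299640))) (b (l 16428544) (l 16252072)))))) (a (a (b (a (b (l 4) (l 16555128)) (b (l 16634184) (l 16432888))) (b (a (l 16337720) (l 16060336)) (a (l 16011472) (l 15456464)))) (b (a (b (l 16497456) (l 16144544)) (l 15929696)) (b (a (l 15696904) (l 15325096)) (a (l 15393944) (l 15265024))))) (a (b (b (l 15439680) (a (l 15294664) (l 15014832))) (b (l 15110480) (l 15231800))) (b (a (b (l 14933560) (l 14922368)) (l 14913472)) (l 15194664))))), by decide +kernel⟩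

def k1_pp_033 : ∃ t, chk3 f_pp_033 t 1 5 1 = true :=
  ⟨(a (b (b (a (l 4) (a (a (a (l 15749264) (l 15881080)) (b (l 16068888) (l 15977360))) (a (l 16057416) (b (l 16002384) (l 15769712))))) (a (a (l 4) (a (a (l 4) (b (l 4) (l 15293128))) (a (b (l 4) (l 15388288)) (b (l 15561664) (l 15504464))))) (b (a (a (l 15690000) (l 15835392)) (a (l 15754544) (l 15671288))) (a (a (l 15621728) (l 15642640)) (a (a (l 15626216) (l 15630552)) (l 15659384)))))) (a (a (a (b (l 4) (a (b (l 4) (b (l 14875640) (l 14894776))) (b (b (l 4) (l 14964504)) (b (l 14977736) (l 15001200))))) (b (b (l 4) (a (l 15053200) (l 15141152))) (b (a (b (l 15056040) (l 15061376)) (l 15135072)) (a (l 15082128) (b (l 15141208) (l 15066424)))))) (a (b (b (a (l 15220472) (l 15264264)) (a (l 15198128) (l 15214448))) (b (a (l 15172416) (a (l 15165544) (l 15134424))) (a (b (l 15094432) (a (l 15027408) (l 15007000))) (b (a (l 15036152) (l 15019168)) (l 14998896))))) (b (a (b (l 15328928) (l 15253472)) (b (l 15409616) (l 15298096))) (a (b (b (l 15158696)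 (l 15084488)) (l 15050480)) (b (b (l 15175488) (l 15143312)) (l 15134840)))))) (a (a (b (b (a (l 15470440) (l 15491680)) (a (l 15274376) (l 15361240))) (b (l 15285936) (l 15283584))) (b (b (a (l 15495568) (l 15526616)) (l 15469992)) (l 15478056))) (a (b (l 15614704) (l 15643864)) (b (l 15707128) (l 15755080)))))) (a (a (b (b (a (b (l 15677840) (l 15580800)) (l 15497144)) (l 15651528)) (a (l 15726888) (l 15787968))) (b (l 15503840) (b (l 15771208) (l 15896640)))) (b (a (l 15532120) (l 15636864)) (a (b (l 15852192) (l 16009432)) (b (l 15993424) (l 1)))))), by decide +kernel⟩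

def k2_pp_033 : ∃ t, chk3 f_pp_033 t 4 6 1 = true :=
  ⟨(b (a (b (a (b (a (b (l 14928496) (l 14975088)) (b (l 15035576) (l 14970304))) (a (b (a (l 14923040) (l 14910120)) (a (l 14850456) (l 14850112))) (b (a (l 14900680) (l 14900240)) (l 14863432)))) (b (a (b (l 15024416) (a (l 14951408) (l 14948160))) (b (a (l 14996624) (l 14986928)) (l 14956024))) (l 14917336))) (a (b (l 14814272) (l 14772720)) (b (l 14884696) (l 14858904)))) (a (b (a (b (l 14976256) (l 14951392)) (a (l 14966464) (l 14978016))) (a (b (l 14931208) (l 14917592)) (b (l 14934088) (l 14928808)))) (b (a (l 14901792) (l 15123376)) (a (b (l 15018920) (l 15019408)) (l 15120904))))) (a (b (a (b (l 14740376) (b (l 14723880) (l 14716760))) (b (l 14841976) (b (l 14836408) (l 14836168)))) (a (b (b (l 14713168) (l 14713328)) (b (l 14717440) (l 14726704))) (b (b (l 14839048) (l 14845224)) (b (a (l 14820440) (l 14889240)) (b (l 14857672) (l 14829752)))))) (a (b (a (b (l 14912168) (l 14916344)) (b (l 14931176) (l 14942432))) (b (a (b (l 14926736)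 (l 14937168)) (a (l 15010512) (b (l 14992728) (l 15006776)))) (a (b (b (l 14946904) (l 14943264)) (l 14927320)) (a (b (l 14974616) (l 14953848)) (l 14986752))))) (b (a (b (l 15026840) (b (l 15016848) (l 15026744))) (b (l 15133872) (l 15150544))) (a (b (b (l 15038928) (a (l 15047000) (l 15092480))) (l 15039768)) (b (a (l 15118384) (l 15167416)) (l 15125264))))))), by decide +kernel⟩

def k3_pp_033 : ∃ t, chk3 f_pp_033 t 5 6 1 = true :=
  ⟨(b (a (b (a (l 15112576) (l 15487424)) (a (b (l 15284256) (l 15290800)) (l 15395840))) (b (a (l 15665568) (l 15791496)) (a (l 15685264) (l 15819984)))) (a (b (a (b (l 15301984) (a (l 15262752) (l 15375736))) (b (l 15517416) (a (l 15477280) (l 15566016)))) (a (b (a (l 15259080) (l 15351008)) (l 15254688)) (l 15253600))) (b (a (b (l 15704128) (l 15671832)) (b (l 15823800) (l 15769584))) (a (l 15571856) (l 15659552))))), by decide +kernel⟩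

def k4_pp_033 : ∃ t, chk3 f_pp_033 t 3 6 1 = true :=
  ⟨(a (b (a (b (a (l 15860616) (l 15909888)) (a (l 15865848) (l 15957536))) (b (l 15897944) (b (l 16031656) (l 16002928)))) (a (b (a (l 15844848) (l 15878768)) (a (l 15708648) (l 15743168))) (b (l 15924296) (l 1)))) (b (b (a (l 434360622791) (l 1)) (l 1)) (l 1))), by decide +kernel⟩

def k5_pp_033 : ∃ t, chk3 f_pp_033 t 1 7 1 = true :=
  ⟨(a (a (b (a (b (a (b (a (l 14663856) (l 14719792)) (l 14654080)) (b (l 14823496) (l 14765344))) (b (a (l 14648760) (l 14762160)) (a (l 14645888) (l 14760880)))) (b (a (a (b (l 14894960) (l 14860824)) (a (b (l 14923472) (l 14891520)) (b (l 14946944) (l 14915776)))) (a (b (l 14977912) (a (l 14948512) (l 14986288))) (l 15061488))) (a (b (a (l 14838464) (l 14883568)) (a (l 14839240) (a (l 14875016) (l 14902136)))) (a (b (l 14926848) (l 14952296)) (b (l 15021680) (l 15023040)))))) (a (b (a (b (l 14682248) (l 14749880)) (b (l 14801512) (l 14860104))) (b (l 14884800) (a (l 14937600) (l 15018656)))) (b (a (b (l 14904808)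 (l 14955720)) (a (l 15004960) (l 15059624))) (a (b (l 15019136) (l 1)) (l 1))))) (b (a (b (a (b (l 15204240) (l 15159608)) (l 15322248)) (a (b (l 15128024) (l 15121696)) (b (l 15250320) (l 15231376)))) (b (a (b (l 15468640) (l 15406056)) (l 15372816)) (l 1))) (a (b (a (b (l 15127384) (l 1)) (l 1)) (l 1)) (l 1)))) (l 1)), by decide +kernel⟩

theorem s6_pp_033 : ∃ t, chk3 f_pp_033 t 2 6 1 = true := ex3_a k2_pp_033 k3_pp_033

theorem s7_pp_033 : ∃ t, chk3 f_pp_033 t 1 6 1 = true := ex3_a s6_pp_033 k4_pp_033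

theorem s8_pp_033 : ∃ t, chk3 f_pp_033 t 1 3 1 = true := ex3_b s7_pp_033 k5_pp_033

theorem s9_pp_033 : ∃ t, chk3 f_pp_033 t 1 2 1 = true := ex3_b k0_pp_033 k1_pp_033

theorem s10_pp_033 : ∃ t, chk3 f_pp_033 t 1 1 1 = true := ex3_b s9_pp_033 s8_pp_033

theorem c_pp_033 : CertB 0 536870912 0 1230186008 1033476505 6710887 3 eng mog cd0q0 cd4q3 pd3 false true true .pnn 0 3 3
    ndB0q0 ndB4q3 pcB3 Cut.none Ext.none :=
  certB0 (fam := false) (s1 := true) (s2 := true) (a := 0) (b := 3) (c := 3) (cn := .pnn) (n1 := ndB0q0) (n2 := ndB4q3) (pc := pcB3) (cut := Cut.none) (xt := Ext.none) (P1 := 0) (W1 := 536870912) (P2 := 0) (W2 := 1230186008) (P3 := 1033476505) (W3 := 6710887) (N0 := 3) (En := eng) (mo := mog) (C1 := cd0q0) (C2 := cd4q3) (C3 := pd3)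
    rfl s10_pp_033

noncomputable def f_pp_101 : ℕ → ℕ → ℕ → ℕ → Bool := onCell 536870912 536870912 536870912 536870912 1033476505 6710887
    (rowB 3 eng mog cd0q1 cd4q1 pd0 0 false true true .npn 1 0 1 (qsf 536870912 536870912 536870912 536870912 0) ndB0q1 ndB4q1 pcB0 Cut.none Ext.none)

def k0_pp_101 : ∃ t, chk3 f_pp_101 t 1 1 1 = true :=
  ⟨(a (l 3) (l 5)), by decide +kernel⟩

theorem c_pp_101 : CertB 536870912 536870912 536870912 536870912 1033476505 6710887 3 eng mog cd0q1 cd4q1 pd0 false true true .npn 1 0 1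
    ndB0q1 ndB4q1 pcB0 Cut.none Ext.none :=
  certB0 (fam := false) (s1 := true) (s2 := true) (a := 1) (b := 0) (c := 1) (cn := .npn) (n1 := ndB0q1) (n2 := ndB4q1) (pc := pcB0) (cut := Cut.none) (xt := Ext.none) (P1 := 536870912) (W1 := 536870912) (P2 := 536870912) (W2 := 536870912) (P3 := 1033476505) (W3 := 6710887) (N0 := 3) (En := eng) (mo := mog) (C1 := cd0q1) (C2 := cd4q1) (C3 := pd0)
    rfl k0_pp_101

noncomputable def f_pp_102 : ℕ → ℕ → ℕ → ℕ → Bool := onCell 536870912 536870912 1073741824 536870912 1033476505 6710887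
    (rowB 3 eng mog cd0q1 cd4q2 pd0 0 false true true .npp 1 0 2 (qsf 536870912 536870912 1073741824 536870912 0) ndB0q1 ndB4q2 pcB0 Cut.none Ext.none)

def k0_pp_102 : ∃ t, chk3 f_pp_102 t 1 1 1 = true :=
  ⟨(l 3), by decide +kernel⟩

theorem c_pp_102 : CertB 536870912 536870912 1073741824 536870912 1033476505 6710887 3 eng mog cd0q1 cd4q2 pd0 false true true .npp 1 0 2
    ndB0q1 ndB4q2 pcB0 Cut.none Ext.none :=
  certB0 (fam := false) (s1 := true) (s2 := true) (a := 1) (b := 0) (c := 2) (cn := .npp) (n1 := ndB0q1) (n2 := ndB4q2) (pc := pcB0) (cut := Cut.none) (xt := Ext.none) (P1 := 536870912) (W1 := 536870912) (P2 := 1073741824) (W2 := 536870912) (P3 := 1033476505) (W3 := 6710887) (N0 := 3) (En := eng) (mo := mog) (C1 := cd0q1) (C2 := cd4q2) (C3 := pd0)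
    rfl k0_pp_102

noncomputable def f_pp_112 : ℕ → ℕ → ℕ → ℕ → Bool := onCell 536870912 536870912 1073741824 536870912 1033476505 6710887
    (rowB 3 eng mog cd0q1 cd4q2 pd1 0 false true true .dn 1 1 2 (qsf 536870912 536870912 1073741824 536870912 1) ndB0q1 ndB4q2 pcB1 Cut.none Ext.none)

def k0_pp_112 : ∃ t, chk3 f_pp_112 t 1 1 1 = true :=
  ⟨(l 3), by decide +kernel⟩

theorem c_pp_112 : CertB 536870912 536870912 1073741824 536870912 1033476505 6710887 3 eng mog cd0q1 cd4q2 pd1 false true true .dn 1 1 2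
    ndB0q1 ndB4q2 pcB1 Cut.none Ext.none :=
  certB0 (fam := false) (s1 := true) (s2 := true) (a := 1) (b := 1) (c := 2) (cn := .dn) (n1 := ndB0q1) (n2 := ndB4q2) (pc := pcB1) (cut := Cut.none) (xt := Ext.none) (P1 := 536870912) (W1 := 536870912) (P2 := 1073741824) (W2 := 536870912) (P3 := 1033476505) (W3 := 6710887) (N0 := 3) (En := eng) (mo := mog) (C1 := cd0q1) (C2 := cd4q2) (C3 := pd1)
    rfl k0_pp_112

noncomputable def cut_pp_113 : Cut := Cut.of [[⟨0, 1, 0, 20971520⟩, ⟨1, 1, 0, 20971520⟩, ⟨2, 2, 0, 1572864⟩]]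

noncomputable def f_pp_113 : ℕ → ℕ → ℕ → ℕ → Bool := onCell 536870912 536870912 0 1230186008 1033476505 6710887
    (rowB 3 eng mog cd0q1 cd4q3 pd1 2 false true true .nn 1 1 3 (qsf 536870912 536870912 0 1230186008 1) ndB0q1 ndB4q3 pcB1 cut_pp_113 Ext.none)

def k0_pp_113 : ∃ t, chk3 f_pp_113 t 1 1 1 = true :=
  ⟨(b (a (l 2) (a (l 2) (b (a (l 2) (a (l 2) (a (l 3) (b (b (b (l 6) (l 3)) (l 3)) (l 3))))) (l 3)))) (b (a (b (l 2) (a (l 2) (a (l 2) (l 3)))) (l 3)) (a (b (a (l 2) (l 3)) (l 3)) (l 3)))), by decide +kernel⟩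

theorem c_pp_113 : CertB 536870912 536870912 0 1230186008 1033476505 6710887 3 eng mog cd0q1 cd4q3 pd1 false true true .nn 1 1 3
    ndB0q1 ndB4q3 pcB1 cut_pp_113 Ext.none :=
  certB2 (fam := false) (s1 := true) (s2 := true) (a := 1) (b := 1) (c := 3) (cn := .nn) (n1 := ndB0q1) (n2 := ndB4q3) (pc := pcB1) (cut := cut_pp_113) (xt := Ext.none) (P1 := 536870912) (W1 := 536870912) (P2 := 0) (W2 := 1230186008) (P3 := 1033476505) (W3 := 6710887) (N0 := 3) (En := eng) (mo := mog) (C1 := cd0q1) (C2 := cd4q3) (C3 := pd1)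
    rfl (fun _ => rfl) k0_pp_113

end Pool.Agent.Strip051.G.I9625_9688.Tab.C.BB04

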