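import Pool.Agent.Strip051.G.I9625_9688.Tab
import Pool.Agent.Strip051.PB.ExtD3

/-! # Certificates B23 (generated) -/

set_option linter.all false
set_option maxRecDepth 100000

namespace Pool.Agent.Strip051.G.I9625_9688.Tab.C.BB04

open Pool.Agent.Strip051.PB Pool.Agent.Strip051.PB.T
open Pool.Agent.Strip051.G.I9625_9688.Tab

noncomputable def f_pp_133 : ℕ → ℕ → ℕ → ℕ → Bool := onCell 536870912 536870912 0 1230186008 1033476505 6710887
    (rowB 3 eng mog cd0q1 cd4q3 pd3 0 false true true .dn 1 3 3 (qsf 536870912 536870912 0 1230186008 3) ndB0q1 ndB4q3 pcB3 Cut.none Ext.none)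

def k0_pp_133 : ∃ t, chk3 f_pp_133 t 1 1 1 = true :=
  ⟨(b (b (a (a (b (l 532068716551) (l 1)) (l 1)) (l 1)) (l 1)) (l 1)), by decide +kernel⟩

theorem c_pp_133 : CertB 536870912 536870912 0 1230186008 1033476505 6710887 3 eng mog cd0q1 cd4q3 pd3 false true true .dn 1 3 3
    ndB0q1 ndB4q3 pcB3 Cut.none Ext.none :=
  certB0 (fam := false) (s1 := true) (s2 := true) (a := 1) (b := 3) (c := 3) (cn := .dn) (n1 := ndB0q1) (n2 := ndB4q3) (pc := pcB3) (cut := Cut.none) (xt := Ext.none) (P1 := 536870912) (W1 := 536870912) (P2 := 0) (W2 := 1230186008) (P3 := 1033476505) (W3 := 6710887) (N0 := 3) (En := eng) (mo := mog) (C1 := cd0q1) (C2 := cd4q3) (C3 := pd3)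
    rfl k0_pp_133

noncomputable def f_pp_202 : ℕ → ℕ → ℕ → ℕ → Bool := onCell 0 536870912 1073741824 536870912 1033476505 6710887
    (rowB 3 eng mog cd0q2 cd4q2 pd0 0 false true true .pp 2 0 2 (qsf 0 536870912 1073741824 536870912 0) ndB0q2 ndB4q2 pcB0 Cut.none Ext.none)

def k0_pp_202 : ∃ t, chk3 f_pp_202 t 1 1 1 = true :=
  ⟨(l 5), by decide +kernel⟩

theorem c_pp_202 : CertB 0 536870912 1073741824 536870912 1033476505 6710887 3 eng mog cd0q2 cd4q2 pd0 false true true .pp 2 0 2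
    ndB0q2 ndB4q2 pcB0 Cut.none Ext.none :=
  certB0 (fam := false) (s1 := true) (s2 := true) (a := 2) (b := 0) (c := 2) (cn := .pp) (n1 := ndB0q2) (n2 := ndB4q2) (pc := pcB0) (cut := Cut.none) (xt := Ext.none) (P1 := 0) (W1 := 536870912) (P2 := 1073741824) (W2 := 536870912) (P3 := 1033476505) (W3 := 6710887) (N0 := 3) (En := eng) (mo := mog) (C1 := cd0q2) (C2 := cd4q2) (C3 := pd0)
    rfl k0_pp_202

noncomputable def f_pp_203 : ℕ → ℕ → ℕ → ℕ → Bool := onCell 0 536870912 0 1230186008 1033476505 6710887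
    (rowB 3 eng mog cd0q2 cd4q3 pd0 0 false true true .up 2 0 3 (qsf 0 536870912 0 1230186008 0) ndB0q2 ndB4q3 pcB0 Cut.none Ext.none)

def k0_pp_203 : ∃ t, chk3 f_pp_203 t 1 1 1 = true :=
  ⟨(b (l 2) (a (b (l 2) (l 3)) (l 3))), by decide +kernel⟩

theorem c_pp_203 : CertB 0 536870912 0 1230186008 1033476505 6710887 3 eng mog cd0q2 cd4q3 pd0 false true true .up 2 0 3
    ndB0q2 ndB4q3 pcB0 Cut.none Ext.none :=
  certB0 (fam := false) (s1 := true) (s2 := true) (a := 2) (b := 0) (c := 3) (cn := .up) (n1 := ndB0q2) (n2 := ndB4q3) (pc := pcB0) (cut := Cut.none) (xt := Ext.none) (P1 := 0) (W1 := 536870912) (P2 := 0) (W2 := 1230186008) (P3 := 1033476505) (W3 := 6710887) (N0 := 3) (En := eng) (mo := mog) (C1 := cd0q2) (C2 := cd4q3) (C3 := pd0)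
    rfl k0_pp_203

noncomputable def cut_pp_213 : Cut := Cut.of [[⟨0, 1, 0, 20971520⟩, ⟨1, 1, 0, 20971520⟩, ⟨2, 2, 0, 1572864⟩]]

noncomputable def f_pp_213 : ℕ → ℕ → ℕ → ℕ → Bool := onCell 0 536870912 0 1230186008 1033476505 6710887
    (rowB 3 eng mog cd0q2 cd4q3 pd1 0 false true true .pnn 2 1 3 (qsf 0 536870912 0 1230186008 1) ndB0q2 ndB4q3 pcB1 cut_pp_213 Ext.none)

def k0_pp_213 : ∃ t, chk3 f_pp_213 t 1 1 1 = true :=
  ⟨(b (b (a (l 3) (a (l 3) (a (l 3) (b (a (l 3) (b (a (l 3) (b (l 6) (l 3))) (l 3))) (l 3))))) (l 3)) (a (b (l 3) (l 3)) (l 3))), by decide +kernel⟩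

theorem c_pp_213 : CertB 0 536870912 0 1230186008 1033476505 6710887 3 eng mog cd0q2 cd4q3 pd1 false true true .pnn 2 1 3
    ndB0q2 ndB4q3 pcB1 cut_pp_213 Ext.none :=
  certB0 (fam := false) (s1 := true) (s2 := true) (a := 2) (b := 1) (c := 3) (cn := .pnn) (n1 := ndB0q2) (n2 := ndB4q3) (pc := pcB1) (cut := cut_pp_213) (xt := Ext.none) (P1 := 0) (W1 := 536870912) (P2 := 0) (W2 := 1230186008) (P3 := 1033476505) (W3 := 6710887) (N0 := 3) (En := eng) (mo := mog) (C1 := cd0q2) (C2 := cd4q3) (C3 := pd1)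
    rfl k0_pp_213

noncomputable def f_pm_001 : ℕ → ℕ → ℕ → ℕ → Bool := onCell 0 536870912 536870912 536870912 1033476505 6710887
    (rowB 3 eng mog cd0q0 cd4q1 pd0 0 false true false .up 0 0 1 (qsf 0 536870912 536870912 536870912 0) ndB0q0 ndB4q1 pcB0 Cut.none Ext.none)

def k0_pm_001 : ∃ t, chk3 f_pm_001 t 1 1 1 = true :=
  ⟨(l 4), by decide +kernel⟩

theorem c_pm_001 : CertB 0 536870912 536870912 536870912 1033476505 6710887 3 eng mog cd0q0 cd4q1 pd0 false true false .up 0 0 1
    ndB0q0 ndB4q1 pcB0 Cut.none Ext.none :=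
  certB0 (fam := false) (s1 := true) (s2 := false) (a := 0) (b := 0) (c := 1) (cn := .up) (n1 := ndB0q0) (n2 := ndB4q1) (pc := pcB0) (cut := Cut.none) (xt := Ext.none) (P1 := 0) (W1 := 536870912) (P2 := 536870912) (W2 := 536870912) (P3 := 1033476505) (W3 := 6710887) (N0 := 3) (En := eng) (mo := mog) (C1 := cd0q0) (C2 := cd4q1) (C3 := pd0)
    rfl k0_pm_001

noncomputable def f_pm_011 : ℕ → ℕ → ℕ → ℕ → Bool := onCell 0 536870912 536870912 536870912 1033476505 6710887
    (rowB 3 eng mog cd0q0 cd4q1 pd1 0 false true false .pnn 0 1 1 (qsf 0 536870912 536870912 536870912 1) ndB0q0 ndB4q1 pcB1 Cut.none Ext.none)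

def k0_pm_011 : ∃ t, chk3 f_pm_011 t 1 1 1 = true :=
  ⟨(l 4), by decide +kernel⟩

theorem c_pm_011 : CertB 0 536870912 536870912 536870912 1033476505 6710887 3 eng mog cd0q0 cd4q1 pd1 false true false .pnn 0 1 1
    ndB0q0 ndB4q1 pcB1 Cut.none Ext.none :=
  certB0 (fam := false) (s1 := true) (s2 := false) (a := 0) (b := 1) (c := 1) (cn := .pnn) (n1 := ndB0q0) (n2 := ndB4q1) (pc := pcB1) (cut := Cut.none) (xt := Ext.none) (P1 := 0) (W1 := 536870912) (P2 := 536870912) (W2 := 536870912) (P3 := 1033476505) (W3 := 6710887) (N0 := 3) (En := eng) (mo := mog) (C1 := cd0q0) (C2 := cd4q1) (C3 := pd1)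
    rfl k0_pm_011

noncomputable def f_pm_012 : ℕ → ℕ → ℕ → ℕ → Bool := onCell 0 536870912 1073741824 536870912 1033476505 6710887
    (rowB 3 eng mog cd0q0 cd4q2 pd1 0 false true false .pnp 0 1 2 (qsf 0 536870912 1073741824 536870912 1) ndB0q0 ndB4q2 pcB1 Cut.none Ext.none)

def k0_pm_012 : ∃ t, chk3 f_pm_012 t 1 1 1 = true :=
  ⟨(l 4), by decide +kernel⟩

theorem c_pm_012 : CertB 0 536870912 1073741824 536870912 1033476505 6710887 3 eng mog cd0q0 cd4q2 pd1 false true false .pnp 0 1 2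
    ndB0q0 ndB4q2 pcB1 Cut.none Ext.none :=
  certB0 (fam := false) (s1 := true) (s2 := false) (a := 0) (b := 1) (c := 2) (cn := .pnp) (n1 := ndB0q0) (n2 := ndB4q2) (pc := pcB1) (cut := Cut.none) (xt := Ext.none) (P1 := 0) (W1 := 536870912) (P2 := 1073741824) (W2 := 536870912) (P3 := 1033476505) (W3 := 6710887) (N0 := 3) (En := eng) (mo := mog) (C1 := cd0q0) (C2 := cd4q2) (C3 := pd1)
    rfl k0_pm_012

noncomputable def f_pm_022 : ℕ → ℕ → ℕ → ℕ → Bool := onCell 0 536870912 1073741824 536870912 1033476505 6710887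
    (rowB 3 eng mog cd0q0 cd4q2 pd2 0 false true false .pp 0 2 2 (qsf 0 536870912 1073741824 536870912 2) ndB0q0 ndB4q2 pcB2 Cut.none Ext.none)

def k0_pm_022 : ∃ t, chk3 f_pm_022 t 1 1 1 = true :=
  ⟨(l 4), by decide +kernel⟩

theorem c_pm_022 : CertB 0 536870912 1073741824 536870912 1033476505 6710887 3 eng mog cd0q0 cd4q2 pd2 false true false .pp 0 2 2
    ndB0q0 ndB4q2 pcB2 Cut.none Ext.none :=
  certB0 (fam := false) (s1 := true) (s2 := false) (a := 0) (b := 2) (c := 2) (cn := .pp) (n1 := ndB0q0) (n2 := ndB4q2) (pc := pcB2) (cut := Cut.none) (xt := Ext.none) (P1 := 0) (W1 := 536870912) (P2 := 1073741824) (W2 := 536870912) (P3 := 1033476505) (W3 := 6710887) (N0 := 3) (En := eng) (mo := mog) (C1 := cd0q0) (C2 := cd4q2) (C3 := pd2)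
    rfl k0_pm_022

noncomputable def f_pm_023 : ℕ → ℕ → ℕ → ℕ → Bool := onCell 0 536870912 0 1230186008 1033476505 6710887
    (rowB 3 eng mog cd0q0 cd4q3 pd2 0 false true false .up 0 2 3 (qsf 0 536870912 0 1230186008 2) ndB0q0 ndB4q3 pcB2 Cut.none Ext.none)

def k0_pm_023 : ∃ t, chk3 f_pm_023 t 1 1 1 = true :=
  ⟨(a (b (l 2) (l 4)) (b (a (l 2) (b (a (l 2) (a (l 2) (b (l 15253448) (l 15873184)))) (a (l 4) (b (a (l 121566966727) (b (l 16341304) (l 16503224))) (l 4))))) (l 4))), by decide +kernel⟩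

theorem c_pm_023 : CertB 0 536870912 0 1230186008 1033476505 6710887 3 eng mog cd0q0 cd4q3 pd2 false true false .up 0 2 3
    ndB0q0 ndB4q3 pcB2 Cut.none Ext.none :=
  certB0 (fam := false) (s1 := true) (s2 := false) (a := 0) (b := 2) (c := 3) (cn := .up) (n1 := ndB0q0) (n2 := ndB4q3) (pc := pcB2) (cut := Cut.none) (xt := Ext.none) (P1 := 0) (W1 := 536870912) (P2 := 0) (W2 := 1230186008) (P3 := 1033476505) (W3 := 6710887) (N0 := 3) (En := eng) (mo := mog) (C1 := cd0q0) (C2 := cd4q3) (C3 := pd2)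
    rfl k0_pm_023

noncomputable def f_pm_033 : ℕ → ℕ → ℕ → ℕ → Bool := onCell 1610612736 536870912 0 1230186008 1033476505 6710887
    (rowB 3 eng mog cd0q0 cd4q3 pd3 2 false true false .pnn 0 3 3 (qsf 0 536870912 0 1230186008 3) ndB0q0 ndB4q3 pcB3 Cut.none Ext.none)

def k0_pm_033 : ∃ t, chk3 f_pm_033 t 1 1 1 = true :=
  ⟨(b (a (a (b (a (b (a (b (l 14904744) (l 15349568)) (l 15532864)) (a (l 15761880) (b (l 16116680) (l 16418960)))) (b (a (l 15933864) (l 16274176)) (a (l 16404560) (l 16480152)))) (a (b (a (l 16481624) (l 4)) (l 4)) (l 4))) (b (a (b (a (l 16495080) (l 16595024)) (l 4)) (l 4)) (l 4))) (l 4)) (l 4)), by decide +kernel⟩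

theorem c_pm_033 : CertB 0 536870912 0 1230186008 1033476505 6710887 3 eng mog cd0q0 cd4q3 pd3 false true false .pnn 0 3 3
    ndB0q0 ndB4q3 pcB3 Cut.none Ext.none :=
  certB2 (fam := false) (s1 := true) (s2 := false) (a := 0) (b := 3) (c := 3) (cn := .pnn) (n1 := ndB0q0) (n2 := ndB4q3) (pc := pcB3) (cut := Cut.none) (xt := Ext.none) (P1 := 0) (W1 := 536870912) (P2 := 0) (W2 := 1230186008) (P3 := 1033476505) (W3 := 6710887) (N0 := 3) (En := eng) (mo := mog) (C1 := cd0q0) (C2 := cd4q3) (C3 := pd3)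
    rfl (fun _ => rfl) k0_pm_033

noncomputable def f_pm_101 : ℕ → ℕ → ℕ → ℕ → Bool := onCell 536870912 536870912 536870912 536870912 1033476505 6710887
    (rowB 3 eng mog cd0q1 cd4q1 pd0 0 false true false .npn 1 0 1 (qsf 536870912 536870912 536870912 536870912 0) ndB0q1 ndB4q1 pcB0 Cut.none Ext.none)

def k0_pm_101 : ∃ t, chk3 f_pm_101 t 1 1 1 = true :=
  ⟨(l 4), by decide +kernel⟩

theorem c_pm_101 : CertB 536870912 536870912 536870912 536870912 1033476505 6710887 3 eng mog cd0q1 cd4q1 pd0 false true false .npn 1 0 1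
    ndB0q1 ndB4q1 pcB0 Cut.none Ext.none :=
  certB0 (fam := false) (s1 := true) (s2 := false) (a := 1) (b := 0) (c := 1) (cn := .npn) (n1 := ndB0q1) (n2 := ndB4q1) (pc := pcB0) (cut := Cut.none) (xt := Ext.none) (P1 := 536870912) (W1 := 536870912) (P2 := 536870912) (W2 := 536870912) (P3 := 1033476505) (W3 := 6710887) (N0 := 3) (En := eng) (mo := mog) (C1 := cd0q1) (C2 := cd4q1) (C3 := pd0)
    rfl k0_pm_101

noncomputable def f_pm_102 : ℕ → ℕ → ℕ → ℕ → Bool := onCell 536870912 536870912 0 536870912 1033476505 6710887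
    (rowB 3 eng mog cd0q1 cd4q2 pd0 1 false true false .npp 1 0 2 (qsf 536870912 536870912 1073741824 536870912 0) ndB0q1 ndB4q2 pcB0 Cut.none Ext.none)

def k0_pm_102 : ∃ t, chk3 f_pm_102 t 1 1 1 = true :=
  ⟨(a (l 4) (b (a (l 4) (b (a (l 4) (a (b (l 4) (a (l 4) (b (a (l 4) (l 15054944)) (a (l 14940592) (l 14894824))))) (b (a (b (a (l 15389376) (a (l 15325680) (l 15295920))) (a (l 15177656) (l 15126520))) (b (b (l 15275512) (l 15182472)) (a (l 15089256) (l 15034176)))) (b (a (l 14986488) (l 14912168)) (a (l 14843072) (l 14768776)))))) (a (b (l 4) (a (l 4) (a (l 4) (b (l 14866592) (l 14755200))))) (a (b (a (a (l 104383565911) (b (l 14858056) (l 14724408))) (b (a (l 14793776) (l 14766496)) (l 14770864))) (a (b (l 14659024) (l 14573768)) (b (l 14569880) (l 14489328)))) (b (b (a (l 14716216) (l 14641096)) (l 14567592)) (a (l 14464976) (l 14366864))))))) (a (b (l 4) (a (l 4) (b (l 4) (l 14845312)))) (a (b (b (a (l 4) (a (l 14841408) (l 14646112))) (a (l 14991080)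 (a (l 14738576) (l 14573040)))) (b (a (l 14920048) (l 14634104)) (a (l 14914336) (b (a (l 14730320) (l 14507336)) (a (l 14714296) (l 14344048)))))) (b (a (b (a (l 14483296) (l 14376936)) (a (l 14415568) (b (l 14339664) (l 14281960)))) (b (b (a (l 14360856) (l 14263672)) (a (l 14305752) (b (l 14179592) (l 14085304)))) (b (a (b (l 14252352) (l 14189632)) (l 13878832)) (a (l 14021672) (l 13564776))))) (a (b (a (b (l 14383352) (a (l 14401384) (l 14226544))) (b (a (l 14243704) (l 14050536)) (l 13851576))) (b (a (l 14063432) (l 13476392)) (a (l 13667112) (l 13040912)))) (b (b (l 13449616) (l 13060384)) (b (l 12615560) (l 12109496))))))))), by decide +kernel⟩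

theorem c_pm_102 : CertB 536870912 536870912 1073741824 536870912 1033476505 6710887 3 eng mog cd0q1 cd4q2 pd0 false true false .npp 1 0 2
    ndB0q1 ndB4q2 pcB0 Cut.none Ext.none :=
  certB1 (fam := false) (s1 := true) (s2 := false) (a := 1) (b := 0) (c := 2) (cn := .npp) (n1 := ndB0q1) (n2 := ndB4q2) (pc := pcB0) (cut := Cut.none) (xt := Ext.none) (P1 := 536870912) (W1 := 536870912) (P2 := 1073741824) (W2 := 536870912) (P3 := 1033476505) (W3 := 6710887) (N0 := 3) (En := eng) (mo := mog) (C1 := cd0q1) (C2 := cd4q2) (C3 := pd0)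
    rfl (fun _ => rfl) k0_pm_102

noncomputable def f_pm_112 : ℕ → ℕ → ℕ → ℕ → Bool := onCell 536870912 536870912 1073741824 536870912 1033476505 6710887
    (rowB 3 eng mog cd0q1 cd4q2 pd1 0 false true false .dn 1 1 2 (qsf 536870912 536870912 1073741824 536870912 1) ndB0q1 ndB4q2 pcB1 Cut.none Ext.none)

def k0_pm_112 : ∃ t, chk3 f_pm_112 t 1 1 1 = true :=
  ⟨(a (l 4) (a (b (l 4) (b (a (l 4) (b (l 4) (a (l 4) (l 14812080)))) (a (l 4) (b (a (b (l 4) (l 14760640)) (b (l 14771968) (l 14726160))) (a (b (l 14737224) (a (l 14705944) (l 14654288))) (b (l 14642240) (a (l 14545264) (l 14442352)))))))) (b (l 1) (a (b (a (b (l 1) (l 14788120)) (l 1)) (b (a (b (l 14728120) (l 14614848)) (b (l 14285152) (l 14211736))) (a (b (l 14480464) (a (l 14430624) (l 14317584))) (l 14133192)))) (b (l 1) (a (b (a (l 13975832) (l 1)) (l 13860080)) (l 583605554935))))))), by decide +kernel⟩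

theorem c_pm_112 : CertB 536870912 536870912 1073741824 536870912 1033476505 6710887 3 eng mog cd0q1 cd4q2 pd1 false true false .dn 1 1 2
    ndB0q1 ndB4q2 pcB1 Cut.none Ext.none :=
  certB0 (fam := false) (s1 := true) (s2 := false) (a := 1) (b := 1) (c := 2) (cn := .dn) (n1 := ndB0q1) (n2 := ndB4q2) (pc := pcB1) (cut := Cut.none) (xt := Ext.none) (P1 := 536870912) (W1 := 536870912) (P2 := 1073741824) (W2 := 536870912) (P3 := 1033476505) (W3 := 6710887) (N0 := 3) (En := eng) (mo := mog) (C1 := cd0q1) (C2 := cd4q2) (C3 := pd1)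
    rfl k0_pm_112

noncomputable def cut_pm_113 : Cut := Cut.of [[⟨0, 1, 0, 20971520⟩, ⟨1, 1, 0, 20971520⟩, ⟨2, 2, 0, 1572864⟩]]

noncomputable def f_pm_113 : ℕ → ℕ → ℕ → ℕ → Bool := onCell 536870912 536870912 0 1230186008 1033476505 6710887
    (rowB 3 eng mog cd0q1 cd4q3 pd1 0 false true false .nn 1 1 3 (qsf 536870912 536870912 0 1230186008 1) ndB0q1 ndB4q3 pcB1 cut_pm_113 Ext.none)

def k0_pm_113 : ∃ t, chk3 f_pm_113 t 2 1 1 = true :=
  ⟨(b (l 2) (a (b (l 2) (l 4)) (b (b (l 2) (b (l 2) (a (l 2) (a (l 2) (l 80089436599))))) (b (a (l 4) (a (b (b (a (l 2) (l 14396136)) (l 14353704)) (l 4)) (b (b (l 14419496) (a (l 14337720) (l 14333504))) (b (l 37810544631) (l 14254984))))) (l 4))))), by decide +kernel⟩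

def k1_pm_113 : ∃ t, chk3 f_pm_113 t 6 1 1 = true :=
  ⟨(b (l 2) (b (b (a (l 2) (a (b (l 2) (l 14991776)) (b (a (l 15197904) (l 15354880)) (a (l 15265736) (l 15370024))))) (a (b (a (l 120891814983) (l 14630520)) (a (l 95122085943) (l 14689752))) (a (b (l 14993592) (l 14812480)) (b (a (l 15155928) (l 15278792)) (b (l 15055160) (l 14932304)))))) (b (a (b (a (b (l 14459944) (l 14352184)) (l 14426264)) (a (b (a (l 14266736) (l 14263680)) (a (b (l 14231920) (l 14213552)) (b (l 14216968) (l 14196064)))) (b (l 14287784) (l 14203792)))) (b (a (l 14547768) (l 14727744)) (a (b (l 14366096) (l 14238680)) (l 14425896)))) (b (a (b (a (b (a (l 14192696) (l 14174936)) (a (l 14182088) (l 14180040))) (b (a (l 14174016) (l 14165104)) (a (l 14166448) (l 14044072)))) (a (b (a (l 4) (l 14188536)) (l 96866055847)) (a (b (l 14199656) (l 14252488)) (b (l 14145600) (l 14174000))))) (b (a (l 14162376) (l 14217032)) (a (b (l 14132160) (a (l 14129232) (l 14120752))) (l 14155992)))) (a (a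 (l 4) (b (b (a (l 14305208) (l 14256480)) (a (l 14346984) (l 14334216))) (a (l 4) (l 14409920)))) (a (b (b (a (l 14152064) (l 14118216)) (a (l 14237808) (l 14135912))) (a (l 14369504) (l 14258952))) (b (l 14130712) (a (l 14166696) (l 14157456))))))))), by decide +kernel⟩

def k2_pm_113 : ∃ t, chk3 f_pm_113 t 7 1 1 = true :=
  ⟨(b (b (a (l 2) (a (l 2) (b (a (l 2) (a (l 2) (b (b (l 6) (l 16736304)) (l 16712136)))) (b (a (l 2) (l 16696616)) (a (l 16606872) (l 16708336)))))) (a (b (a (l 2) (a (l 2) (l 254038984727))) (a (b (l 2) (a (l 15349448) (l 15413992))) (b (a (l 15402264) (l 15529056)) (a (l 15478696) (l 15534096))))) (b (a (a (b (l 2) (l 15830952)) (b (l 16515688) (l 15992800))) (b (b (l 16566656) (l 16567776)) (l 16107088))) (a (a (b (l 15640048) (l 15563680)) (b (l 15726872) (l 15598176))) (b (l 15777520) (l 15610776)))))) (b (a (b (a (b (a (l 15476448) (l 15543384)) (a (l 15458048) (l 15540824))) (b (a (l 15571496) (l 15566616)) (a (b (l 15614008) (l 15589928))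 (l 15583416)))) (a (b (l 15384184) (l 15200400)) (b (a (l 15463664) (l 15489920)) (l 15247792)))) (b (a (a (b (l 15538584) (l 15528328)) (b (l 15537176) (l 15499400))) (b (l 15519752) (l 15454488))) (a (b (a (b (l 15501456) (l 15437816)) (l 15439224)) (a (l 15240896) (l 15271440))) (b (l 15382360) (b (l 15296192) (l 15188120)))))) (b (a (b (a (l 14947192) (l 14953520)) (a (l 14627304) (l 14594080))) (a (b (a (l 14923352) (l 14944064)) (a (l 14540096) (l 14549632))) (b (b (l 15077376) (l 14882576)) (l 14572056)))) (a (b (a (b (l 14343560) (l 14231280)) (b (l 14286040) (l 14069040))) (a (l 14189416) (b (l 13970248) (l 13941864)))) (a (b (a (l 14096432) (l 14094240)) (b (a (l 13776352) (l 13724992)) (l 13677496))) (b (l 14104992) (b (l 13723992) (l 13503336)))))))), by decide +kernel⟩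

theorem s3_pm_113 : ∃ t, chk3 f_pm_113 t 3 1 1 = true := ex3_a k1_pm_113 k2_pm_113

theorem s4_pm_113 : ∃ t, chk3 f_pm_113 t 1 1 1 = true := ex3_a k0_pm_113 s3_pm_113

theorem c_pm_113 : CertB 536870912 536870912 0 1230186008 1033476505 6710887 3 eng mog cd0q1 cd4q3 pd1 false true false .nn 1 1 3
    ndB0q1 ndB4q3 pcB1 cut_pm_113 Ext.none :=
  certB0 (fam := false) (s1 := true) (s2 := false) (a := 1) (b := 1) (c := 3) (cn := .nn) (n1 := ndB0q1) (n2 := ndB4q3) (pc := pcB1) (cut := cut_pm_113) (xt := Ext.none) (P1 := 536870912) (W1 := 536870912) (P2 := 0) (W2 := 1230186008) (P3 := 1033476505) (W3 := 6710887) (N0 := 3) (En := eng) (mo := mog) (C1 := cd0q1) (C2 := cd4q3) (C3 := pd1)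
    rfl s4_pm_113

noncomputable def cut_pm_123 : Cut := Cut.of [[⟨0, 1, 0, 20971520⟩, ⟨1, 1, 0, 20971520⟩, ⟨2, 2, 0, 1572864⟩]]

noncomputable def xt_pm_123 : Ext := extD3 3 ⟨4, 1, 1, 5, 27, 5, 41, 50, 81, 200, 1, 64⟩ eng cd0q1 cd4q3 pd2 false true false .npn 1 2 3 rfl ndB0q1 ndB4q3 pcB2

noncomputable def f_pm_123 : ℕ → ℕ → ℕ → ℕ → Bool := onCell 536870912 536870912 0 1230186008 1033476505 6710887
    (rowB 3 eng mog cd0q1 cd4q3 pd2 0 false true false .npn 1 2 3 (qsf 536870912 536870912 0 1230186008 2) ndB0q1 ndB4q3 pcB2 cut_pm_123 xt_pm_123)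

def k0_pm_123 : ∃ t, chk3 f_pm_123 t 1 4 1 = true :=
  ⟨(a (a (a (b (a (b (l 14951184) (l 15100944)) (l 14980296)) (a (l 15554320) (l 15242088))) (b (l 15045648) (a (b (l 14871976) (l 15115208)) (b (l 14869632) (a (l 14901888) (l 14828712)))))) (a (b (l 15235904) (a (b (l 14971072) (l 14855136)) (l 15022096))) (b (l 15446736) (b (l 15301712) (l 15167480))))) (a (a (b (a (l 15581392) (l 15665448)) (b (l 15548872) (a (l 15366072) (l 15498072)))) (b (a (l 15750712) (a (l 15819840) (l 15889904))) (a (b (l 15741152) (l 15634728)) (b (l 15876728) (a (l 15743776) (l 15835280)))))) (a (b (a (b (l 16047120) (l 16071560)) (a (l 16269368) (l 16270728))) (a (b (l 16113512) (a (l 15949896) (l 16074704))) (b (a (l 16316256) (l 16433360)) (a (l 16195072) (l 16300352))))) (a (b (a (b (l 16520440) (l 16503816)) (b (a (l 16562832) (l 16570104)) (a (l 16639472) (l 16648520)))) (a (b (l 16535496) (a (l 16374592) (l 16439240))) (b (l 16701696) (a (l 16550072) (l 16772864))))) (b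 (b (a (b (a (l 142572882095489039) (l 142657407139954767)) (l 16539168)) (b (l 6) (a (l 142862397364813903) (b (l 6) (a (l 16647144) (l 16662976)))))) (a (l 16674992) (l 16628152))) (b (a (l 16725096) (l 401612727671)) (a (l 358126190327) (b (l 16660648) (l 1))))))))), by decide +kernel⟩

def k1_pm_123 : ∃ t, chk3 f_pm_123 t 2 5 1 = true :=
  ⟨(a (b (b (a (l 15731624) (a (l 15439344) (l 15161304))) (a (a (l 16359712) (l 16071112)) (a (l 15766752) (l 15470832)))) (a (a (b (l 16544536) (l 4)) (b (a (l 16455848) (l 16331464)) (b (l 16553488) (l 16548840)))) (a (b (l 16085320) (a (l 16406024) (l 16269760))) (b (l 15761952) (a (l 16079072) (l 15894120)))))) (a (b (a (b (a (l 14974488) (l 14872832)) (l 15206272)) (b (b (l 14871456) (a (l 14853232) (l 14864488))) (a (l 15046304) (l 14705920)))) (b (a (a (l 15530080) (l 15392928)) (a (l 15275976) (l 15183600))) (a (a (l 15721192) (l 15565816)) (a (l 15432856) (l 15326312))))) (b (b (l 14976352) (a (b (a (l 14909144) (l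 14964872)) (a (l 14965824) (l 14969896))) (l 15077472))) (a (b (a (l 15118008) (l 15081904)) (a (l 15080496) (b (l 15178968) (l 15216544)))) (b (a (b (l 15047352) (l 15112312)) (b (l 15109080) (l 15141088))) (a (b (l 15167248) (l 15202128)) (b (l 15191736) (l 15222528)))))))), by decide +kernel⟩

def k2_pm_123 : ∃ t, chk3 f_pm_123 t 3 5 1 = true :=
  ⟨(a (a (b (a (b (l 15274624) (l 15226256)) (b (l 15416400) (l 15379336))) (b (a (a (l 15179800) (l 15282240)) (b (l 15391776) (l 15423792))) (b (a (a (l 15208256) (l 15340776)) (l 15477104)) (a (a (l 15284656) (l 15317736)) (a (b (l 15482376) (l 15515008)) (l 15598832)))))) (b (a (b (l 15560688) (l 15532240)) (b (a (l 15672592) (l 15762080)) (a (l 15646752) (l 15731616)))) (a (b (b (l 15551336) (l 15587896)) (b (l 15645952) (l 15581232))) (b (a (l 15684016) (l 15803176)) (a (b (l 15762808) (l 15845152)) (b (l 15832264) (l 15908224))))))) (a (b (a (b (a (l 15868608) (l 15977904)) (a (l 15823488) (l 15906840))) (a (b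 (l 16075304) (l 15968816)) (b (l 16156216) (b (l 16051672) (l 15988184))))) (a (b (a (l 15852584) (l 15878600)) (a (b (l 15881728) (l 15941376)) (b (l 15896616) (l 15958424)))) (b (a (b (l 15909576) (l 15891248)) (a (l 15938112) (l 16023008))) (a (b (l 15926744) (l 1)) (l 1))))) (a (b (a (b (a (l 16227064) (l 16313576)) (a (l 16109312) (l 16303176))) (a (b (l 16487952) (l 270079254679)) (b (l 16689864) (l 1)))) (a (a (b (l 16195752) (l 1)) (l 1)) (l 1))) (b (b (a (l 391948928983) (l 1)) (l 1)) (l 1))))), by decide +kernel⟩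

def k3_pm_123 : ∃ t, chk3 f_pm_123 t 2 3 1 = true :=
  ⟨(a (b (a (l 4) (b (b (a (b (l 16289056) (l 16241296)) (b (l 16075952) (l 15849736))) (a (l 4) (b (a (l 15956056) (l 15835888)) (a (l 4) (l 15676144))))) (l 4))) (l 4)) (b (b (a (b (a (b (l 15705248) (l 15704560)) (b (a (l 15481768) (l 15367168)) (a (l 15474608) (l 15355872)))) (a (b (a (l 15696224) (l 15562128)) (a (l 15553280) (l 15427728))) (b (a (l 15432552) (l 15316488)) (a (l 15320760) (b (l 15260480) (l 15203744)))))) (b (a (b (a (l 15281776) (l 15231024)) (a (l 15271392) (b (l 15225768) (l 15213536)))) (b (a (l 15149624) (l 15240008)) (a (l 15212232) (l 15253144)))) (a (b (a (b (l 15245968) (l 15219976)) (b (l 15201152) (l 15191232))) (a (b (l 15195616) (l 15165736)) (b (l 15183688) (l 15162344)))) (b (a (l 15212232) (l 15263672)) (a (b (l 15213848) (l 15183056)) (l 15236088)))))) (a (b (a (b (a (l 15378336) (l 15137720)) (a (l 4) (b (l 15130328) (l 4)))) (b (a (b (l 15202992) (l 15124832)) (b (l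 15138464) (l 15078512))) (a (b (l 15050504) (l 14984664)) (b (l 15018232) (l 14956840))))) (a (l 4) (b (a (b (l 14928712) (l 4)) (l 14840024)) (a (l 4) (l 14700552))))) (b (a (b (a (l 15089872) (b (l 15116808) (l 15068304))) (a (l 14979696) (l 14973016))) (b (a (l 15106640) (l 15130552)) (a (l 14976488) (l 14994568)))) (a (b (a (l 14834296) (l 14820448)) (a (l 14584408) (l 14645520))) (b (a (l 14819336) (l 14835112)) (a (l 14643552) (l 14659776))))))) (b (a (l 4) (b (a (b (a (l 14470864) (l 14443352)) (a (l 4) (l 14292816))) (b (a (l 14458488) (l 14478480)) (l 1))) (l 1))) (l 4)))), by decide +kernel⟩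

def k4_pm_123 : ∃ t, chk3 f_pm_123 t 3 3 1 = true :=
  ⟨(b (a (b (a (b (a (b (a (l 15308600) (l 15409152)) (a (l 15328264) (l 15429680))) (b (a (l 15536384) (b (l 15662808) (l 15696208))) (a (l 15553336) (l 15705472)))) (a (b (a (l 15341168) (l 15435952)) (a (l 15283376) (l 15350480))) (b (a (l 15533800) (l 15657728)) (a (l 15441016) (l 15557992))))) (a (b (b (a (l 15788992) (l 15878384)) (a (b (a (l 15835568) (l 15906536)) (l 15874064)) (b (l 15979760) (l 15928640)))) (b (a (l 15810376) (b (a (l 15967592) (l 16054160)) (l 15967408))) (a (l 15703568) (l 15838000)))) (b (a (b (l 15954368) (l 16094168)) (b (l 16010320) (l 16152704))) (a (b (b (l 16138224) (a (l 16114288) (l 1))) (l 1)) (l 1))))) (a (b (a (b (a (l 15171360) (l 15233032)) (a (l 15031536) (l 15090360))) (b (a (l 15318880) (l 15431296)) (a (l 15173800) (l 15284136)))) (a (b (a (l 14870776) (l 14929248)) (a (l 14697136) (l 1))) (b (a (l 15012776) (l 1)) (l 1)))) (a (b (b (a (l 15572536) (l 1)) (l 1))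 (l 1)) (l 1)))) (a (b (a (b (a (b (l 16041600) (l 1)) (l 1)) (l 1)) (l 1)) (l 1)) (l 1))) (l 1)), by decide +kernel⟩

theorem s5_pm_123 : ∃ t, chk3 f_pm_123 t 1 3 1 = true := ex3_a k3_pm_123 k4_pm_123

theorem s6_pm_123 : ∃ t, chk3 f_pm_123 t 1 5 1 = true := ex3_a k1_pm_123 k2_pm_123

theorem s7_pm_123 : ∃ t, chk3 f_pm_123 t 1 2 1 = true := ex3_b k0_pm_123 s6_pm_123

theorem s8_pm_123 : ∃ t, chk3 f_pm_123 t 1 1 1 = true := ex3_b s7_pm_123 s5_pm_123

theorem c_pm_123 : CertB 536870912 536870912 0 1230186008 1033476505 6710887 3 eng mog cd0q1 cd4q3 pd2 false true false .npn 1 2 3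
    ndB0q1 ndB4q3 pcB2 cut_pm_123 xt_pm_123 :=
  certB0 (fam := false) (s1 := true) (s2 := false) (a := 1) (b := 2) (c := 3) (cn := .npn) (n1 := ndB0q1) (n2 := ndB4q3) (pc := pcB2) (cut := cut_pm_123) (xt := xt_pm_123) (P1 := 536870912) (W1 := 536870912) (P2 := 0) (W2 := 1230186008) (P3 := 1033476505) (W3 := 6710887) (N0 := 3) (En := eng) (mo := mog) (C1 := cd0q1) (C2 := cd4q3) (C3 := pd2)
    rfl s8_pm_123

noncomputable def f_pm_133 : ℕ → ℕ → ℕ → ℕ → Bool := onCell 536870912 536870912 0 1230186008 1033476505 6710887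
    (rowB 3 eng mog cd0q1 cd4q3 pd3 0 false true false .dn 1 3 3 (qsf 536870912 536870912 0 1230186008 3) ndB0q1 ndB4q3 pcB3 Cut.none Ext.none)

def k0_pm_133 : ∃ t, chk3 f_pm_133 t 1 1 1 = true :=
  ⟨(b (b (a (a (a (b (b (l 3147703215127) (l 1)) (l 1)) (l 1)) (l 1)) (l 1)) (l 1)) (l 1)), by decide +kernel⟩

theorem c_pm_133 : CertB 536870912 536870912 0 1230186008 1033476505 6710887 3 eng mog cd0q1 cd4q3 pd3 false true false .dn 1 3 3
    ndB0q1 ndB4q3 pcB3 Cut.none Ext.none :=
  certB0 (fam := false) (s1 := true) (s2 := false) (a := 1) (b := 3) (c := 3) (cn := .dn) (n1 := ndB0q1) (n2 := ndB4q3) (pc := pcB3) (cut := Cut.none) (xt := Ext.none) (P1 := 536870912) (W1 := 536870912) (P2 := 0) (W2 := 1230186008) (P3 := 1033476505) (W3 := 6710887) (N0 := 3) (En := eng) (mo := mog) (C1 := cd0q1) (C2 := cd4q3) (C3 := pd3)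
    rfl k0_pm_133

noncomputable def f_pm_202 : ℕ → ℕ → ℕ → ℕ → Bool := onCell 0 536870912 0 536870912 1033476505 6710887
    (rowB 3 eng mog cd0q2 cd4q2 pd0 1 false true false .pp 2 0 2 (qsf 0 536870912 1073741824 536870912 0) ndB0q2 ndB4q2 pcB0 Cut.none Ext.none)

def k0_pm_202 : ∃ t, chk3 f_pm_202 t 4 2 1 = true :=
  ⟨(b (b (b (b (l 16116616) (b (l 16139240) (l 16083840))) (b (b (l 16057552) (a (l 16060256) (l 15997592))) (a (a (b (l 16000384) (l 15921544)) (l 15927272)) (l 15889400)))) (b (a (b (a (b (l 15837608) (l 15763160)) (l 15767264)) (a (l 15686344) (b (l 15643224) (l 15567056)))) (l 15653320)) (a (a (b (l 15607096) (a (l 15537360) (l 15528096))) (b (l 15489672) (l 15423840))) (b (a (a (l 15423224) (l 15406032)) (l 15400664)) (a (b (l 15312688) (l 15275424)) (l 15198808)))))) (b (b (a (a (b (a (l 15517016) (a (l 15484160) (l 15465776))) (l 15438800)) (b (l 15384992) (a (l 15290696) (l 15322312)))) (b (a (l 15233176) (a (l 15121112) (l 14990568))) (l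 15114304))) (a (b (a (l 15387040) (a (l 15329952) (l 15281976))) (l 15304672)) (a (b (l 15185632) (a (l 15174000) (l 15116976))) (l 14995016)))) (a (b (a (b (b (l 15314360) (a (a (a (l 15313832) (l 15320672)) (l 15310384)) (l 15280152))) (a (a (l 15215744) (b (l 15289040) (a (l 15244440) (l 15263488)))) (b (l 15265928) (l 15251328)))) (l 15211712)) (b (a (a (l 15148504) (a (b (a (l 15234552) (l 15242408)) (l 15193496)) (b (l 15232496) (l 15215648)))) (l 15175352)) (a (a (l 15010544) (b (a (l 15142440) (l 15185464)) (l 15118352))) (a (a (b (l 15192800) (l 15172856)) (l 15170808)) (l 15138480))))) (b (a (b (l 15130312) (l 15112904)) (b (l 15004504) (a (l 15013752) (l 14948048)))) (b (a (l 15088712) (l 14982064)) (l 15025168)))))), by decide +kernel⟩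

def k1_pm_202 : ∃ t, chk3 f_pm_202 t 5 2 1 = true :=
  ⟨(b (b (a (b (b (l 16175432) (b (l 16081192) (l 16028176))) (b (b (l 15996808) (l 15962832)) (l 15862280))) (b (b (l 16176888) (b (l 16087376) (l 16034960))) (b (b (l 15998888) (l 15961336)) (l 15867760)))) (b (a (l 15644424) (l 15666880)) (a (l 15332016) (l 15379536)))) (b (b (a (a (b (l 15070904) (a (a (l 14909032) (l 14907232)) (l 14902392))) (l 15008536)) (l 15067096)) (a (a (b (b (l 14832992) (l 14816296)) (l 14801448)) (a (b (l 14746920) (l 14655536)) (b (l 14751064) (l 14596920)))) (b (l 14814136) (l 14724720)))) (a (b (b (l 14693496) (l 14700112)) (a (b (l 14840888) (b (l 14859032) (l 14860120))) (l 14622560))) (b (a (b (a (l 14453080) (l 14437240)) (a (l 14419016) (l 14294008))) (b (l 14483872) (l 14305208))) (a (l 14377696) (b (a (l 14160376) (l 14112464)) (l 14118728))))))), by decide +kernel⟩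

def k2_pm_202 : ∃ t, chk3 f_pm_202 t 4 6 1 = true :=
  ⟨(b (b (a (a (b (b (l 14994904) (l 14961896)) (a (b (l 14940832) (a (l 14904080) (l 14936080))) (l 14996728))) (a (b (a (l 15118992) (b (l 15156600) (l 15133368))) (l 15064008)) (b (l 15127696) (a (b (l 15123792) (l 15097640)) (l 15111304))))) (b (l 15014640) (l 15011008))) (a (a (b (a (a (b (a (b (l 14884944) (a (l 162299032807) (l 14882456))) (l 14896464)) (a (b (a (l 3) (l 161225295015)) (l 3)) (b (l 14887584) (c (l 159614691879) (l 14877232))))) (b (l 14918544) (l 14905336))) (b (l 14962840) (l 14945856))) (a (a (b (c (a (l 3) (l 158004093399)) (l 159077808999)) (l 3)) (b (a (b (l 14891904) (c (l 157467220295) (l 14882968))) (l 14902392)) (a (l 156930368343) (b (l 14897808) (l 157467237527))))) (b (l 14933136) (l 14924480)))) (b (a (l 15010576) (b (l 15080640) (l 15054672))) (a (l 14975248) (l 15022352)))) (a (b (a (a (l 15088168) (l 15074488)) (l 15039160)) (a (a (l 15059128) (l 15069312)) (l 15047944)))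 (l 14969512)))) (b (a (a (a (b (a (l 3) (b (l 156930386919) (l 3))) (l 3)) (b (a (b (a (b (l 14905224) (l 155319771895)) (l 14914688)) (a (l 154782920503) (b (l 14914072) (l 153709179255)))) (b (l 14929680) (l 14927480))) (a (c (l 155319784583) (l 155319827367)) (b (b (l 14928264) (l 151561726119)) (a (l 153172354119) (l 144045560599)))))) (b (b (l 14979736) (l 14971984)) (a (b (l 14952336) (l 14953952)) (l 14981960)))) (a (b (a (l 15032120) (a (l 15054896) (l 15049376))) (a (l 15011008) (l 15037984))) (b (l 14989568) (a (l 15031744) (l 14984984))))) (b (a (b (a (l 159077908679) (a (b (l 14978384) (l 2)) (l 14982104))) (l 2)) (a (l 15015240) (a (l 106397886871) (l 15011440)))) (l 2)))), by decide +kernel⟩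

def k3_pm_202 : ∃ t, chk3 f_pm_202 t 5 6 1 = true :=
  ⟨(b (b (a (a (b (l 14853192) (l 14864392)) (b (l 14689824) (b (l 14725536) (l 14737192)))) (a (l 14452304) (l 14168816))) (a (a (l 14868560) (b (l 14741376) (l 14765352))) (a (b (l 14538824) (l 14608968)) (l 14280976)))) (a (b (l 14843024) (l 14894584)) (b (a (b (l 14640032) (l 14671384)) (b (l 14392808) (l 14486016))) (a (l 14720368) (b (l 14541288) (l 14582968)))))), by decide +kernel⟩

def k4_pm_202 : ∃ t, chk3 f_pm_202 t 2 7 1 = true :=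
  ⟨(a (l 2) (b (a (l 2) (l 1399181744055)) (l 2))), by decide +kernel⟩

def k5_pm_202 : ∃ t, chk3 f_pm_202 t 6 2 1 = true :=
  ⟨(b (b (a (b (b (a (l 16187624) (l 16194064)) (a (l 16073784) (l 16061560))) (b (a (b (l 16008656) (l 15967744)) (b (l 16013584) (l 15970024))) (a (l 15879224) (l 15884840)))) (b (b (a (l 16164000) (a (a (l 16105744) (l 16072744)) (l 15995592))) (a (l 16033664) (a (l 15985600) (l 15917272)))) (b (a (b (l 15981368) (l 15934808)) (a (l 15888840) (l 15820320))) (a (l 15853000) (l 15756464))))) (a (b (a (l 15690976) (l 15705104)) (a (l 15422544) (l 15449512))) (b (a (l 15682064) (l 15594784)) (a (l 15439952) (l 15367064))))) (b (a (b (a (l 15130952) (l 15172232)) (a (l 14812600) (l 14869424))) (b (a (l 15177904) (l 15121512)) (a (l 14891944) (l 14854008)))) (a (b (a (l 14463248) (l 14536856)) (a (b (l 14177552) (a (l 13961248) (l 13998784))) (l 14169424))) (b (a (l 14577864) (l 14560424)) (a (l 14230912) (l 14236400)))))), by decide +kernel⟩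

def k6_pm_202 : ∃ t, chk3 f_pm_202 t 7 2 1 = true :=
  ⟨(b (a (b (a (a (b (l 15845888) (b (l 15730984) (l 15646368))) (b (b (l 15772536) (l 15690376)) (l 15573384))) (b (a (b (l 15657440) (l 15573920)) (b (a (l 15555784) (l 15515688)) (a (l 15492136) (l 15451272)))) (a (b (l 15493928) (l 15417472)) (a (l 15371856) (l 15329968))))) (a (b (a (l 15491872) (b (l 15465168) (l 15374664))) (a (l 15285432) (l 15225656))) (a (b (l 15309760) (a (l 15172224) (l 15136624))) (b (a (l 15224448) (l 15181440)) (a (l 15092368) (l 15047288)))))) (a (b (b (a (b (a (b (l 15533880) (l 15489816)) (l 15486944)) (a (l 15425472) (l 15399936))) (b (l 15419592) (l 15352272))) (a (a (l 15303104) (l 15276472)) (l 15253328))) (a (b (l 15137816) (l 14981208)) (b (l 15074248) (l 14936496)))) (b (b (a (b (c (l 15353024) (l 15344168)) (l 15279624)) (b (l 15277096) (l 15185152))) (a (b (l 15193728) (l 15111920)) (a (l 15073520) (l 15036760)))) (b (a (l 14996480) (l 14917552)) (b (l 14849656) (l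 14782832)))))) (a (b (a (b (l 15028160) (l 14780616)) (b (a (l 14954344) (a (l 14918472) (l 14905248))) (a (l 14722928) (l 14702808)))) (a (b (l 14509008) (l 14209160)) (b (a (l 14468920) (l 14461088)) (a (l 14188080) (l 14193376))))) (b (a (a (b (l 14879672) (a (l 14714952) (l 14725896))) (b (l 14813456) (l 14678072))) (b (l 14689640) (l 14578440))) (a (b (a (l 14499840) (l 14532424)) (a (l 14245776) (l 14305720))) (b (l 14475216) (a (l 14325352) (b (l 14374640) (l 14318136)))))))), by decide +kernel⟩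

def k7_pm_202 : ∃ t, chk3 f_pm_202 t 6 3 1 = true :=
  ⟨(b (b (a (b (a (b (a (l 13919880) (l 13830520)) (l 13871144)) (b (l 13866896) (a (l 13677344) (l 13678328)))) (a (l 13951608) (b (a (l 13651928) (l 13520584)) (l 13608496)))) (b (a (l 13845312) (l 13877056)) (a (b (l 13528416) (a (l 13351232) (l 13313968))) (l 13476520)))) (a (b (a (l 14099760) (l 13717600)) (a (l 14256840) (l 13900944))) (b (a (b (a (l 13346992) (l 13167440)) (l 13300096)) (b (l 13146792) (a (l 12972952) (l 12929720)))) (a (l 13437800) (b (a (l 12980672) (l 12770568)) (l 12932208)))))) (b (b (a (a (a (l 14518960) (l 14409944)) (l 14120136)) (a (l 13656520) (l 13096960))) (a (l 2) (l 13638200))) (l 2))), by decide +kernel⟩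

def k8_pm_202 : ∃ t, chk3 f_pm_202 t 7 3 1 = true :=
  ⟨(b (a (b (a (b (l 13876720) (l 13506904)) (b (a (l 13876168) (l 13895384)) (a (l 13528800) (l 13562808)))) (a (b (l 13094152) (b (l 12752296) (a (b (l 12569272) (l 12526000)) (l 12535224)))) (b (a (l 13141208) (l 13191136)) (a (l 12707904) (l 12775424))))) (b (a (b (a (l 13962112) (l 14037320)) (a (l 13644472) (l 13735568))) (b (a (l 14106232) (l 14149672)) (l 13866928))) (a (b (a (l 13288400) (l 13396008)) (a (l 12889200) (l 13014072))) (b (l 13554192) (l 13200064))))) (a (b (a (b (a (l 12634672) (b (b (l 12364760) (l 12313936)) (l 12352264))) (l 12711920)) (b (a (b (l 12348896) (a (l 12153920) (l 12116432))) (l 12309904)) (a (l 12207864) (b (a (l 11953520) (l 11951880)) (l 11930272))))) (b (a (l 13002352) (l 12301216)) (l 2))) (b (a (b (l 12507656) (a (b (l 12070784) (l 11829600)) (l 12103384))) (b (l 12800096) (l 12349832))) (a (b (b (a (l 11870040) (l 11712712)) (a (l 11874096) (a (l 11634992) (l 11545264))))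 (l 11952096)) (b (l 11845944) (a (b (a (l 11464216) (l 11409656)) (l 11515400)) (b (l 11538528) (a (l 11310392) (l 11309632))))))))), by decide +kernel⟩

theorem s9_pm_202 : ∃ t, chk3 f_pm_202 t 3 3 1 = true := ex3_a k7_pm_202 k8_pm_202

theorem s10_pm_202 : ∃ t, chk3 f_pm_202 t 3 2 1 = true := ex3_a k5_pm_202 k6_pm_202

theorem s11_pm_202 : ∃ t, chk3 f_pm_202 t 3 1 1 = true := ex3_b s10_pm_202 s9_pm_202

theorem s12_pm_202 : ∃ t, chk3 f_pm_202 t 2 6 1 = true := ex3_a k2_pm_202 k3_pm_202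

theorem s13_pm_202 : ∃ t, chk3 f_pm_202 t 2 3 1 = true := ex3_b s12_pm_202 k4_pm_202

theorem s14_pm_202 : ∃ t, chk3 f_pm_202 t 2 2 1 = true := ex3_a k0_pm_202 k1_pm_202

theorem s15_pm_202 : ∃ t, chk3 f_pm_202 t 2 1 1 = true := ex3_b s14_pm_202 s13_pm_202

theorem s16_pm_202 : ∃ t, chk3 f_pm_202 t 1 1 1 = true := ex3_a s15_pm_202 s11_pm_202

theorem c_pm_202 : CertB 0 536870912 1073741824 536870912 1033476505 6710887 3 eng mog cd0q2 cd4q2 pd0 false true false .pp 2 0 2
    ndB0q2 ndB4q2 pcB0 Cut.none Ext.none :=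
  certB1 (fam := false) (s1 := true) (s2 := false) (a := 2) (b := 0) (c := 2) (cn := .pp) (n1 := ndB0q2) (n2 := ndB4q2) (pc := pcB0) (cut := Cut.none) (xt := Ext.none) (P1 := 0) (W1 := 536870912) (P2 := 1073741824) (W2 := 536870912) (P3 := 1033476505) (W3 := 6710887) (N0 := 3) (En := eng) (mo := mog) (C1 := cd0q2) (C2 := cd4q2) (C3 := pd0)
    rfl (fun _ => rfl) s16_pm_202

noncomputable def f_pm_203 : ℕ → ℕ → ℕ → ℕ → Bool := onCell 0 536870912 0 1230186008 1033476505 6710887
    (rowB 3 eng mog cd0q2 cd4q3 pd0 0 false true false .up 2 0 3 (qsf 0 536870912 0 1230186008 0) ndB0q2 ndB4q3 pcB0 Cut.none Ext.none)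

def k0_pm_203 : ∃ t, chk3 f_pm_203 t 1 2 1 = true :=
  ⟨(l 2), by decide +kernel⟩

def k1_pm_203 : ∃ t, chk3 f_pm_203 t 1 6 1 = true :=
  ⟨(l 2), by decide +kernel⟩

def k2_pm_203 : ∃ t, chk3 f_pm_203 t 1 14 1 = true :=
  ⟨(a (b (l 2) (b (a (l 2) (l 2)) (a (a (l 3) (a (l 3) (b (b (l 2) (l 276116499111)) (a (l 370605636231) (l 239609264871))))) (a (a (l 353358683991) (l 15226616)) (a (l 15186584) (l 2)))))) (l 2)), by decide +kernel⟩

def k3_pm_203 : ∃ t, chk3 f_pm_203 t 2 15 1 = true :=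
  ⟨(b (a (a (l 3) (b (a (b (l 3) (l 291148477063)) (b (a (l 255178401335) (l 15162064)) (l 15201992))) (a (b (a (l 3) (l 15041392)) (a (l 164983688055) (l 14975848))) (b (l 15030072) (l 14968744))))) (a (b (a (l 15088904) (l 15059896)) (a (b (l 15013976) (l 14956328)) (l 14947736))) (b (a (l 15031168) (l 14932696)) (l 14811336)))) (a (a (b (a (l 3) (b (l 194511325591) (a (l 3) (b (l 160151581479) (l 161762143543))))) (a (l 3) (b (a (a (l 3) (b (l 153708997495) (a (l 153172074295) (l 58682800439)))) (b (a (l 60293471959) (l 14820856)) (l 14796968))) (a (a (c (b (b (l 152635106087) (l 151561382135)) (b (a (l 151024479831) (l 14752904)) (a (a (b (l 14741568) (l 148876959127)) (l 14740800)) (l 14745168)))) (b (l 153171999847) (b (l 14737000) (l 14727512)))) (b (b (l 53850903527) (l 14761376)) (c (l 14757400) (l 14742040)))) (b (l 14779584) (l 14766360)))))) (b (a (b (b (l 171962885095) (l 14902896)) (a (l 14862144) (l 14867496))) (b (l 14915512) (l 14873064))) (a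 (b (a (l 14819488) (l 14830576)) (a (l 14791752) (l 14809616))) (b (a (l 14840016) (l 14844152)) (a (l 14823336) (l 14834648)))))) (a (b (a (b (a (l 14913312) (l 14901624)) (a (l 14870504) (l 14843056))) (l 14806944)) (a (b (l 14803424) (l 14747920)) (l 14679016))) (b (l 14654328) (l 14518600))))), by decide +kernel⟩

def k4_pm_203 : ∃ t, chk3 f_pm_203 t 3 15 1 = true :=
  ⟨(a (b (a (b (l 14760464) (l 14575792)) (b (l 2) (a (l 14297056) (b (l 2) (l 13950848))))) (a (b (a (l 14471856) (l 14303456)) (a (b (l 14361288) (l 14273784)) (b (l 14171112) (l 14029792)))) (b (a (b (l 14143656) (l 14007608)) (l 13669112)) (a (l 13745184) (l 13307648))))) (b (a (a (b (l 2) (l 13585016)) (l 2)) (l 2)) (b (a (a (l 13194248) (l 12682912)) (a (l 12226008) (l 2))) (a (a (l 12810328) (l 12274880)) (a (l 11792016) (b (l 11419560) (a (l 11319968) (l 11099576)))))))), by decide +kernel⟩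

theorem s5_pm_203 : ∃ t, chk3 f_pm_203 t 1 15 1 = true := ex3_a k3_pm_203 k4_pm_203

theorem s6_pm_203 : ∃ t, chk3 f_pm_203 t 1 7 1 = true := ex3_b k2_pm_203 s5_pm_203

theorem s7_pm_203 : ∃ t, chk3 f_pm_203 t 1 3 1 = true := ex3_b k1_pm_203 s6_pm_203

theorem s8_pm_203 : ∃ t, chk3 f_pm_203 t 1 1 1 = true := ex3_b k0_pm_203 s7_pm_203

theorem c_pm_203 : CertB 0 536870912 0 1230186008 1033476505 6710887 3 eng mog cd0q2 cd4q3 pd0 false true false .up 2 0 3
    ndB0q2 ndB4q3 pcB0 Cut.none Ext.none :=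
  certB0 (fam := false) (s1 := true) (s2 := false) (a := 2) (b := 0) (c := 3) (cn := .up) (n1 := ndB0q2) (n2 := ndB4q3) (pc := pcB0) (cut := Cut.none) (xt := Ext.none) (P1 := 0) (W1 := 536870912) (P2 := 0) (W2 := 1230186008) (P3 := 1033476505) (W3 := 6710887) (N0 := 3) (En := eng) (mo := mog) (C1 := cd0q2) (C2 := cd4q3) (C3 := pd0)
    rfl s8_pm_203

end Pool.Agent.Strip051.G.I9625_9688.Tab.C.BB04

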