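import Pool.Agent.Strip051.G.I9625_9688.Tab
import Pool.Agent.Strip051.PB.ExtD3

/-! # Certificates B24 (generated) -/

set_option linter.all false
set_option maxRecDepth 100000

namespace Pool.Agent.Strip051.G.I9625_9688.Tab.C.BB04

open Pool.Agent.Strip051.PB Pool.Agent.Strip051.PB.T
open Pool.Agent.Strip051.G.I9625_9688.Tab

noncomputable def cut_pm_213 : Cut := Cut.of [[⟨0, 1, 0, 20971520⟩, ⟨1, 1, 0, 20971520⟩, ⟨2, 2, 0, 1572864⟩]]

noncomputable def xt_pm_213 : Ext := extD3 3 ⟨4, 1, 1, 5, 27, 5, 41, 50, 81, 200, 1, 64⟩ eng cd0q2 cd4q3 pd1 false true false .pnn 2 1 3 rfl ndB0q2 ndB4q3 pcB1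

noncomputable def f_pm_213 : ℕ → ℕ → ℕ → ℕ → Bool := onCell 0 536870912 0 1230186008 1033476505 6710887
    (rowB 3 eng mog cd0q2 cd4q3 pd1 0 false true false .pnn 2 1 3 (qsf 0 536870912 0 1230186008 1) ndB0q2 ndB4q3 pcB1 cut_pm_213 xt_pm_213)

def k0_pm_213 : ∃ t, chk3 f_pm_213 t 2 4 1 = true :=
  ⟨(l 3), by decide +kernel⟩

def k1_pm_213 : ∃ t, chk3 f_pm_213 t 6 4 1 = true :=
  ⟨(l 3), by decide +kernel⟩

def k2_pm_213 : ∃ t, chk3 f_pm_213 t 14 8 1 = true :=
  ⟨(l 3), by decide +kernel⟩

def k3_pm_213 : ∃ t, chk3 f_pm_213 t 28 9 1 = true :=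
  ⟨(b (l 3) (a (l 3) (b (l 3) (a (l 3) (b (a (l 3) (b (l 3) (a (l 3) (b (l 3) (a (l 3) (l 191830388215)))))) (a (b (l 3) (b (a (l 3) (c (l 193441004183) (a (l 189682889991) (l 182166693847)))) (c (a (l 191293513239) (l 186998537687)) (a (a (l 185924786023) (b (l 188609140823) (l 183777289751))) (a (l 186461644535) (l 16611400)))))) (b (a (b (a (l 3) (l 188072305607)) (a (l 192904111703) (l 188072277095))) (b (a (l 181092980119) (l 191293512903)) (l 16624136))) (a (b (a (l 16611008) (l 16619632)) (l 16613272)) (l 16612824))))))))), by decide +kernel⟩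

def k4_pm_213 : ∃ t, chk3 f_pm_213 t 58 9 1 = true :=
  ⟨(b (l 3) (b (a (b (l 3) (a (l 3) (b (l 3) (a (l 323900683079) (b (l 250349370663) (l 188072324727)))))) (b (a (l 3) (b (a (l 3) (b (l 3) (a (l 3) (l 182703664295)))) (a (b (l 277192938007) (l 189146103687)) (b (a (l 188609238775) (l 184851130519)) (l 16662856))))) (a (b (a (b (l 3) (l 193977930247)) (b (l 194514806855) (l 199346625463))) (a (b (l 192904168247) (l 16650048)) (l 16650672))) (b (a (b (l 199346631319) (l 16657048)) (l 16658640)) (l 16645968))))) (a (b (a (b (a (l 3) (b (l 3) (l 197199133335))) (a (b (l 193441030167) (a (l 186461684631) (l 16634232))) (b (l 191830399591) (l 16631256)))) (b (a (b (l 198809753063) (l 16642104)) (l 16642240)) (l 16628856))) (a (b (a (l 16623864) (l 16619552)) (l 16606016)) (l 16604296))) (b (a (b (l 16636840) (l 16620328)) (l 16620416)) (l 16589408))))), by decide +kernel⟩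

def k5_pm_213 : ∃ t, chk3 f_pm_213 t 118 9 1 = true :=
  ⟨(b (b (l 3) (b (l 3) (b (a (l 3) (a (l 3) (b (a (l 3) (a (l 3) (b (l 3) (c (l 168745058727) (l 173040014903))))) (c (a (b (l 161228860439) (a (l 176261243783) (l 179482474551))) (b (a (l 183240570119) (l 188609284487)) (l 16684840))) (a (l 182703684439) (b (l 169818791975) (l 16678960))))))) (a (a (l 3) (b (l 3) (a (b (l 3) (l 171429385703)) (b (l 175187495623) (l 173040011175))))) (a (c (b (a (l 173040017047) (b (l 182166822839) (l 186461790295))) (a (l 184314303447) (l 16678672))) (b (a (l 177334966903) (l 193977973783)) (l 181629922951))) (b (a (b (a (l 190756760455) (l 16679816)) (l 16678248)) (l 16679896)) (l 16676712))))))) (b (b (a (b (a (b (a (l 3) (l 184314283383)) (a (l 199346651927) (l 186998621287))) (b (a (b (l 168745040951) (l 16671136)) (l 16671912)) (l 16669040))) (a (b (l 16665968) (l 16663144)) (l 16664856))) (b (a (l 16671048) (l 16672768)) (l 16666584))) (a (b (l 16656096) (l 16639312)) (l 16642440))) (b (l 16608296) (l 16569656)))),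 by decide +kernel⟩

def k6_pm_213 : ∃ t, chk3 f_pm_213 t 238 18 1 = true :=
  ⟨(b (l 3) (b (a (a (l 3) (b (l 3) (b (l 3) (b (l 3) (c (a (l 159618264391) (b (a (l 3) (l 174113779495)) (l 185924941127))) (a (l 162839476759) (l 185388057111))))))) (a (b (l 3) (a (b (l 3) (c (b (b (l 3) (a (l 159081395767) (l 181093106551))) (b (l 193441136647) (l 16693224))) (b (l 169281933751) (l 191830514151)))) (b (a (l 3) (b (l 3) (c (l 150491466247) (l 152638940055)))) (b (c (b (a (l 167134462423) (l 184851205895)) (l 200957332327)) (b (l 166597581959) (l 16690168))) (l 16691752))))) (b (l 3) (b (a (b (l 3) (c (b (a (l 3) (l 159618274631)) (a (b (l 158544531111) (l 182166852807)) (l 194514885351))) (b (l 158544522391) (l 177335006775)))) (b (a (l 3) (b (l 3) (c (b (l 148880859767) (l 176798148679)) (l 169281944679)))) (b (c (a (b (l 170355696135) (l 196125499447)) (l 16700128)) (l 184851202823)) (l 16695832)))) (a (b (c (l 16696464) (l 16691400)) (l 16692648)) (l 16694232)))))) (a (b (a (b (b (a (l 3) (c (b (l 157470775095)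 (l 169281934391)) (l 179482471287))) (c (a (b (l 179482479143) (l 190219899479)) (l 16688840)) (l 176261248167))) (b (l 16684416) (l 16683096))) (b (b (a (b (c (l 178408745607) (l 173040026199)) (l 16687752)) (l 16688816)) (l 16687128)) (l 16685176))) (l 16680544)) (b (b (l 16679792) (l 16687760)) (l 16684040))))), by decide +kernel⟩

def k7_pm_213 : ∃ t, chk3 f_pm_213 t 239 36 1 = true :=
  ⟨(b (l 3) (b (l 3) (a (l 3) (b (l 3) (a (l 3) (b (l 3) (a (l 3) (a (l 3) (b (l 3) (c (l 161765784311) (l 160692034423))))))))))), by decide +kernel⟩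

def k8_pm_213 : ∃ t, chk3 f_pm_213 t 239 148 1 = true :=
  ⟨(a (b (l 3) (a (a (l 3) (b (l 3) (c (b (l 145122770727) (a (b (l 3) (l 167671348263)) (b (l 174650671671) (l 202567958663)))) (b (l 145659631223) (a (l 161765757367) (l 182703726439)))))) (b (a (a (l 3) (b (l 3) (c (l 154249578583) (l 154249569639)))) (b (a (l 3) (b (l 3) (c (l 173040064503) (l 171429443511)))) (c (a (b (l 166060741495) (l 193978028695)) (l 203104835175)) (a (b (l 164986991095) (l 193441149223)) (l 203104826983))))) (c (a (b (a (b (l 152102093399) (l 181093124023)) (b (l 188072447335) (l 16704152))) (l 16703536)) (l 16704720)) (a (b (a (b (l 152102084343) (l 178945631655)) (l 192904276871)) (l 16698912)) (l 16700144)))))) (b (a (b (l 3) (a (b (l 3) (c (a (l 147270261047) (b (l 156397067863) (l 185388097735))) (a (l 146196510567) (b (l 154786446519) (l 184851219063))))) (a (b (c (l 156933940087) (l 155323318855)) (c (l 197199258711) (l 196662380151))) (b (b (c (l 170892585527) (l 170355707159)) (c (l 198809872711) (l 198809865175)))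 (l 16706088))))) (a (b (a (b (l 3) (b (c (l 147807137127) (l 146196516071)) (c (l 178408779431) (l 177871901127)))) (c (b (l 151565234695) (l 190756811351)) (b (l 149954613751) (l 189683062215)))) (a (c (l 206862937031) (l 206326058631)) (l 16707128))) (b (c (b (a (b (l 162839525367) (l 190219941655)) (l 200420490023)) (l 16710384)) (b (a (b (l 162839518183) (l 189146192583)) (l 199346740951)) (l 16706216))) (l 16707752)))) (a (b (a (b (b (a (c (l 179482516551) (l 178408766807)) (l 16704904)) (c (l 16706656) (l 16702248))) (l 16704096)) (l 16705216)) (l 16703840)) (l 16706144)))), by decide +kernel⟩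

def k9_pm_213 : ∃ t, chk3 f_pm_213 t 239 149 1 = true :=
  ⟨(a (a (b (a (b (a (b (c (l 152102086999) (l 153175819415)) (b (c (l 182703730311) (l 178945624887)) (l 16700960))) (b (c (b (l 161228894023) (l 189146182871)) (l 176798143303)) (l 16700960))) (l 16697144)) (b (a (b (c (l 199883602711) (l 197199239079)) (l 16698840)) (l 16699640)) (l 16698160))) (l 16695792)) (b (b (l 16700872) (l 16699736)) (l 16697960))) (b (l 16703400) (l 16701328))), by decide +kernel⟩

def k10_pm_213 : ∃ t, chk3 f_pm_213 t 239 75 1 = true :=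
  ⟨(b (a (l 16693376) (l 16698168)) (l 16690968)), by decide +kernel⟩

def k11_pm_213 : ∃ t, chk3 f_pm_213 t 119 19 1 = true :=
  ⟨(b (b (a (l 16674560) (l 16675000)) (l 16638720)) (l 16577672)), by decide +kernel⟩

def k12_pm_213 : ∃ t, chk3 f_pm_213 t 60 8 1 = true :=
  ⟨(b (l 3) (a (l 3) (b (l 3) (b (l 3) (a (l 3) (b (a (l 3) (a (l 3) (b (l 3) (b (l 3) (c (l 6143761015425296749858340895) (l 6143761015425265345053261855)))))) (b (a (l 3) (a (b (l 3) (a (b (l 3) (l 2739425907390496733272588319)) (l 3184310609008671336034664479))) (c (l 3378338962899751558856695839) (l 3378338185254171206608069151)))) (a (a (b (l 3) (a (l 3) (b (l 3) (l 2923182631971914732828934175)))) (b (a (l 3) (l 2990882477870333623015653407)) (l 3465380973393642231563378719))) (c (l 3726509981430413647509741599) (l 3716837773593029196995322399)))))))))), by decide +kernel⟩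

def k13_pm_213 : ∃ t, chk3 f_pm_213 t 61 16 1 = true :=
  ⟨(l 3), by decide +kernel⟩

def k14_pm_213 : ∃ t, chk3 f_pm_213 t 122 34 1 = true :=
  ⟨(l 3), by decide +kernel⟩

def k15_pm_213 : ∃ t, chk3 f_pm_213 t 123 68 1 = true :=
  ⟨(a (l 3) (b (l 3) (a (l 3) (b (l 3) (a (l 3) (b (l 3) (a (l 3) (b (l 3) (a (l 3) (a (l 3) (a (l 3) (b (l 3) (b (l 3) (b (l 3) (l 2729754500833904605622780127))))))))))))))), by decide +kernel⟩

def k16_pm_213 : ∃ t, chk3 f_pm_213 t 246 69 1 = true :=
  ⟨(b (l 3) (a (b (l 3) (a (l 3) (b (l 3) (a (l 3) (b (a (l 3) (b (l 3) (c (a (l 3) (l 3890323287663868074092151007)) (l 3822623441765421902270218335)))) (a (b (l 3) (c (l 2961868258199816718838038751) (l 2923182631972121647211479135))) (c (l 3368067333590331846661751007) (l 3281024674578052089083641951)))))))) (b (a (l 3) (a (b (l 3) (b (l 3) (a (a (l 3) (b (l 3) (b (l 3) (l 2894168412301444695341531359)))) (b (c (a (l 6201789454767092726046261471) (l 2952196851642969023400067295)) (a (l 3754923595867057575355842783) (l 2913511225415274845126885599)))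 (c (l 3474452805716477625597509855) (l 3416424366374949243090239711)))))) (b (b (l 3) (a (l 3) (a (l 3) (a (l 3) (b (l 3) (b (l 3) (l 2623369028707800333242613983))))))) (b (a (b (l 3) (c (a (b (l 3) (l 153175936839)) (l 3213324828679736140682445023)) (l 2894168412301448681072050399))) (c (l 3358395927033492260122788063) (l 3271353268021213670776062175))) (c (l 3754923595867066165291188447) (l 3706566563082455640815141087)))))) (a (b (a (b (l 3) (a (l 3) (b (l 3) (c (a (l 209547377335) (l 2971539664756764263686815967)) (l 2729754500833811903026430175))))) (b (a (l 3) (b (c (a (l 3) (l 3880651881106989111288676575)) (l 4122437045029888832825557215)) (c (l 3126282169667450954263085279) (l 3087596543439756432392470751)))) (c (l 3397081553261110297209962719) (l 3329381707362665224902475999)))) (b (c (a (a (b (a (l 3) (l 152639060615)) (l 3319710300805760011253350623)) (l 3600181090956352948993474783)) (l 16752192)) (l 3426095772931814874314555615)) (l 143940949788541023))) (b (b (c (l 3677552343411708320192299231)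 (l 3629195310627098276752703711)) (l 16752552)) (l 16751344)))))), by decide +kernel⟩

def k17_pm_213 : ∃ t, chk3 f_pm_213 t 494 138 1 = true :=
  ⟨(b (l 3) (a (b (l 3) (a (l 3) (b (l 3) (a (l 3) (b (a (l 3) (b (l 3) (c (c (l 3958023133562411621420695775) (l 140827910695)) (l 138143555447)))) (c (a (b (l 3832294848322478436220403935) (l 3077925136882945364436779231)) (l 3445438586045792839706001631)) (l 3068253730326004622818935007))))))) (b (a (l 3) (b (a (l 3) (a (l 3) (b (l 3) (b (l 3) (c (c (l 3899994694220889767268237535) (l 3870980474550154747432108255)) (l 2458955117240282233745260767)))))) (a (b (l 3) (a (b (l 3) (c (l 2700740281163203052164612319) (l 2652383248378606477741834463))) (c (l 3193982015565970930810585311) (l 3126282169667541870141259999)))) (c (b (a (b (l 5660190687579802352584769759) (l 3068253730326042006218768607)) (l 3455109992602722998527492319)) (l 3851637661436334424530796767)) (l 3281024674578035802584203487))))) (a (b (a (a (l 3) (b (l 3) (b (l 3) (c (l 2884497005744621601476591839)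 (l 2845811379516929347348857055))))) (a (b (b (l 3) (c (l 3958023133562420761112625375) (l 3783937815537890726611845343))) (c (l 3329381707362805687524409567) (l 3252010454907445299806372063))) (c (c (l 3319710300805899099488862431) (l 3290696081135132606131847391)) (l 3164967795895195229043491039)))) (a (c (l 3474452805716544764533080287) (l 3406752959818101272773853407)) (l 16757352))) (a (b (c (l 3735580782753318959922397407) (l 3667880936854875605602042079)) (l 16757400)) (l 16757808)))))), by decide +kernel⟩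

def k18_pm_213 : ∃ t, chk3 f_pm_213 t 495 138 1 = true :=
  ⟨(b (a (b (l 3) (a (b (l 3) (a (l 3) (b (l 3) (c (a (l 6085732576084128182582624479) (b (c (l 3880651881107033435364245727) (l 3861309067993215929962234079)) (l 3252010454907439527375077599))) (a (b (l 3) (l 3764595002424063394329084127)) (l 2894168412301528945432101087)))))) (a (b (l 3) (a (b (a (l 3) (b (l 3) (c (l 2865154192630750494888493279) (l 2826468566403104007932526815)))) (c (l 3580838277842619143931642079) (l 3513138431944222381416759519))) (c (l 3464781399159434973009281247) (l 3397081553261037454579974367)))) (b (a (b (l 3) (b (c (l 6549960090816135477750563039) (l 4093422825359228304919412959)) (c (l 3058582323769090132050002143) (l 3029568104098359441541169375)))) (b (a (l 3) (b (l 3) (b (l 3) (l 2749097313947751316798292191)))) (c (l 3464781399159608833286324447) (l 3377738740147375667513917663)))) (c (l 3870980474549960821071151327) (l 3822623441765397369436864735)))))) (b (a (b (l 3) (a (a (l 3) (b (l 3) (b (l 3) (c (a (l 4277179549940630361561481439)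 (l 3126282169667505311385862367)) (l 2826468566403094318488502495))))) (b (a (b (l 3) (c (l 6559631497373047563347706079) (l 4354550802395980166478987487))) (b (a (l 3) (b (l 3) (l 2739425907390827823771599071))) (c (l 3242339048350508887524622559) (l 3213324828679774486164209887)))) (c (l 3484124212273441250815607007) (l 3416424366375039677937369311))))) (b (a (b (l 3) (a (a (l 3) (b (l 3) (c (l 159081532087) (l 2816797159846170894181056735)))) (c (a (b (l 4267508143383708517802180831) (l 193978141447)) (l 3435767179488848730844725471)) (l 3116610763110600716214829279)))) (b (c (a (b (l 6559631497373042752986104031) (l 3058582323769080442608058591)) (l 3464781399159599075124150495)) (a (b (l 6569302903929972980522221791) (l 3019896697541426533948063967)) (l 3387410146704276964155015391))) (c (l 3861309067993207065153896671) (l 3812952035208637428767031519)))) (c (l 3793609222094621117919215839) (l 3745252189310052993360298207)))) (a (b (a (b (c (a (a (b (l 3) (l 3261681861464346252853362911)) (l 3271353268021263836006990047))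 (l 3706566563082535217984012511)) (l 3232667641793616799295422687)) (l 16760952)) (l 16761168)) (l 16760496)) (l 16760944)))) (a (b (a (b (a (b (a (l 3) (b (l 3) (c (l 2874825599187683539922780383) (l 2836139972960037808880910559)))) (c (l 3300367487691861897921872095) (l 3232667641793465479003865311))) (c (l 3609852497513206760488616159) (l 3542152651614810479009759455))) (l 143933459382173919)) (l 16759376)) (l 16757944)) (l 16758872))), by decide +kernel⟩

def k19_pm_213 : ∃ t, chk3 f_pm_213 t 247 139 1 = true :=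
  ⟨(a (a (b (a (b (a (b (l 3) (b (a (l 3) (b (l 3) (b (l 2584683402480141408062816479) (l 3058582323769073501926686943)))) (c (l 3281024674578170080435568863) (l 3232667641793559487240126687)))) (b (b (l 3) (c (a (l 6230803674437883752259191007) (l 2942525445086092190900322527)) (a (l 4035394386017692844296290527) (l 2903839818858399180858278111)))) (c (l 3590509684399514736843866335) (l 3532481245057987453848535263)))) (l 144013929881223391)) (b (b (c (a (b (a (b (l 3) (l 2710411687720090192585539807)) (l 3203653422122859651780018399)) (l 3658209530297948264279671007)) (l 3851637661436288107599479007)) (l 3368067333590414791081296095)) (l 16755792)) (l 16754672))) (l 16752296)) (l 599473785759300955137247)) (l 16754368)), by decide +kernel⟩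

def k20_pm_213 : ∃ t, chk3 f_pm_213 t 244 35 1 = true :=
  ⟨(b (b (l 3) (a (l 3) (b (l 3) (a (l 3) (b (a (l 3) (b (l 3) (a (l 3) (b (l 3) (l 2584683402479876769323548703))))) (a (b (l 3) (l 3000553884427295873842561055)) (c (l 3406752959817815949469450335) (l 3329381707362455149432782879)))))))) (b (b (a (a (l 3) (b (l 3) (a (l 3) (b (a (l 3) (l 2545997776252183759278620703)) (l 3174639202451779866288930847))))) (a (a (b (b (l 3) (a (l 3) (l 2778111533618195996796551199))) (l 3464781399159281659808940063)) (c (l 3455710227460793586109161567) (l 3426095772931599301286101023))) (c (l 3765196007721902153804095583) (l 3755523931894031286443614239)))) (a (a (b (a (l 3) (b (l 3) (l 2855482786073514534349307935))) (a (l 3077925136882596956643622943) (l 3600781701090469081063907359))) (c (l 3552424712693358061869948959) (l 3542752582389943834093969439))) (l 16735072))) (a (b (l 600020846903972904034335) (l 16730840)) (l 16731584)))), by decide +kernel⟩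

def k21_pm_213 : ∃ t, chk3 f_pm_213 t 245 35 1 = true :=
  ⟨(a (b (b (l 3) (a (a (b (l 3) (b (a (b (l 3) (l 3106939356553394786090483743)) (c (l 3213324828679494179374235743) (l 3184310609008717859131195423))) (l 600844321194947386482719))) (b (b (l 3) (a (c (l 6153432421982293978896957535) (l 6182446641653018484649099295)) (b (l 3) (c (l 3000553884427334013156245599) (l 2971539664756557143157538847))))) (b (c (l 3571166871285411289667879007) (l 3551824058171553377211187231)) (l 16738736)))) (b (b (a (l 3) (b (a (l 3) (b (l 3) (c (l 138680398023) (l 2458955117239982891669094495)))) (c (l 3087596543439601882266452063) (l 3068253730325742183104479327)))) (c (c (l 3397081553260923929967411423) (l 3387410146703996038889521247)) (c (l 3368067333590149946184302687) (l 3358395927033219718645825567)))) (l 16739224)))) (b (l 16735952) (l 16731280))) (b (b (a (b (l 3) (b (l 3) (a (b (l 3) (a (l 3) (b (l 3) (c (l 2845811379516702092010405983) (l 2797454346732090949058429023))))) (c (b (a (l 342154476119) (l 2913511225415136718961737951))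 (l 3426095772931718392154112095)) (b (a (l 6192118048209986714065043551) (l 2865154192630525507287892063)) (l 3377738740147108142554349663)))))) (b (b (l 3) (a (l 3) (b (l 3) (a (l 3) (b (l 3) (c (l 3870980474549962057994797279) (l 3841966254879184225924169823))))))) (b (a (b (l 3) (a (b (l 3) (c (l 2652383248378388362096279775) (l 2613697622150693908944765023))) (c (l 3135953576224239963260076255) (l 3068253730325794822232080479)))) (c (b (a (b (l 3) (l 3000553884427413727760941279)) (l 3377738740147176930758492383)) (l 3774266408980751523121430751)) (l 3232667641793384321273921631))) (a (c (l 3638866717183888247821517023) (l 3600181090956196199850377311)) (l 16744136))))) (b (a (b (b (c (l 3464781399159366665812983903) (l 3445438586045508272321232991)) (l 143800281001197663)) (l 16740784)) (l 16741528)) (l 16739176))) (l 16733480))), by decide +kernel⟩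

def k22_pm_213 : ∃ t, chk3 f_pm_213 t 123 35 1 = true :=
  ⟨(a (b (b (a (b (a (b (a (l 3) (b (l 3) (a (l 3) (b (c (l 4180465484371342242376548575) (l 3832294848322302033304387679)) (l 3126282169667363405640597599))))) (b (a (a (l 3) (b (l 3) (l 2778111533618337558939680863))) (c (l 3416424366374870078242242783) (l 3348724520476424937214525535))) (c (l 3455109992602517595987640543) (l 3435767179488658584020992095)))) (b (a (a (b (a (l 3) (b (l 3) (l 2720083094276864220737699935))) (b (l 3300367487691876122832633951) (l 16748824))) (c (l 3377738740147222285620199647) (l 3329381707362611348826194015))) (c (l 3764595002423890977142685919) (l 3725909376196198241977335903))) (l 16747784))) (a (b (l 143853263726280799) (l 16744160)) (l 16745128))) (l 599489061815648961782879)) (l 16740456)) (l 16733496)) (b (b (l 16747528) (l 16741000)) (l 16733968))), by decide +kernel⟩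

def k23_pm_213 : ∃ t, chk3 f_pm_213 t 62 32 1 = true :=
  ⟨(l 3), by decide +kernel⟩

def k24_pm_213 : ∃ t, chk3 f_pm_213 t 124 66 1 = true :=
  ⟨(l 3), by decide +kernel⟩

def k25_pm_213 : ∃ t, chk3 f_pm_213 t 248 67 1 = true :=
  ⟨(l 3), by decide +kernel⟩

def k26_pm_213 : ∃ t, chk3 f_pm_213 t 249 134 1 = true :=
  ⟨(l 3), by decide +kernel⟩

def k27_pm_213 : ∃ t, chk3 f_pm_213 t 498 135 1 = true :=
  ⟨(l 3), by decide +kernel⟩

def k28_pm_213 : ∃ t, chk3 f_pm_213 t 499 270 1 = true :=
  ⟨(a (l 3) (b (l 3) (a (l 3) (b (l 3) (b (l 3) (a (l 3) (a (l 3) (b (l 3) (b (l 3) (a (l 3) (a (l 3) (b (l 420537690567) (l 4934835195810927953329012831))))))))))))), by decide +kernel⟩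

def k29_pm_213 : ∃ t, chk3 f_pm_213 t 998 271 1 = true :=
  ⟨(b (l 3) (a (b (l 3) (b (l 3) (a (l 3) (a (l 7642829031747698953934340191) (b (a (l 3) (a (l 3) (b (l 3) (c (l 4905820976140185649225613407) (l 4606007372875750398353326303))))) (a (b (c (l 6685359782612919175917568095) (l 6646674156385243964220784863)) (a (b (l 6666016969499082016745848927) (l 183777614343)) (l 201494354567))) (c (l 3619523904070223849470410847) (l 200420612759)))))))) (a (b (l 3) (b (b (a (l 3) (a (c (l 6888459320308175228001370207) (l 6646674156385242040076058847)) (b (a (l 3) (a (l 6675688376055997538315812959) (l 4818778317127927675722973279))) (c (l 3445438586045714568253735007) (l 190756937015))))) (b (a (l 7623486218633865780492861535) (b (a (a (l 6666016969499080917234810975) (l 195051904183)) (l 16772920)) (l 3725909376196306681359532127))) (a (a (l 3) (a (b (l 3) (l 4751078471229509060414308447)) (c (l 3387410146704212161709211743) (l 186461969463)))) (l 16772848)))) (b (b (a (a (a (l 6666016969499081123392929887)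 (c (l 5012206448266273360197304415) (l 3058582323769025260887998687))) (l 212231773191)) (l 16772808)) (l 3851637661436233406928371807)) (l 16772672)))) (b (b (a (l 3) (a (l 3) (a (l 3) (b (l 3) (a (l 6675688376055995820329467999) (b (l 3) (l 4818778317127926644931395679))))))) (b (a (l 7642829031747698129301864543) (a (b (c (l 6695031189169834353890558047) (l 6656345562942158592438009951)) (a (b (l 349133856567) (l 3281024674578119228058075231)) (l 203104968535))) (c (c (l 3629195310627141157747179615) (l 3609852497513302899063783519)) (l 3590509684399462922393469023)))) (a (a (a (l 6869116507194337038037778527) (b (l 3) (a (l 4915492382697097666102198367) (l 3300367487691953775889530975)))) (a (b (b (l 3) (l 4741407064672590927505653855)) (l 209010548327)) (c (l 3619523904070221650448121951) (l 199883742855)))) (l 16773136)))) (c (l 3948351727005418721751416927) (l 3890323287663908275028148319)))))), by decide +kernel⟩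

def k30_pm_213 : ∃ t, chk3 f_pm_213 t 999 542 1 = true :=
  ⟨(a (b (l 3) (b (a (l 3) (a (l 7662171844861506563733553247) (b (a (l 3) (a (l 3) (a (l 6869116507194334701577224287) (b (l 3) (l 4992863635152431459383853151))))) (b (a (c (l 6714374002283666840139038815) (l 6656345562942156530854903903)) (a (b (l 4915492382697095192202575967) (l 16773664)) (l 16773856))) (b (a (c (l 5118591920392357635196944479) (l 4818778317127921422252081247)) (l 16773816)) (l 3725909376196303795143278687)))))) (b (a (l 3) (a (a (a (l 7536443559621610418331402335) (b (l 3) (c (l 5012206448266270748858908767) (l 4886478163026341205791211615)))) (a (b (b (l 3) (l 4915492382697095604519125087)) (l 209010549607)) (c (l 3619523904070220069901320287) (l 199883744071)))) (l 16773736))) (a (a (l 3) (a (c (l 6888459320308173510015615071) (l 6656345562942156874451664991)) (a (b (l 3) (b (l 4925163789254013118952816735) (l 16773376))) (b (b (l 364703113911) (l 4944506602367847323187134559)) (l 16773560))))) (c (l 3899994694220821803733827679)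 (l 213842387799)))))) (b (a (b (l 3) (b (a (l 3) (a (c (l 7468743713723194070766731359) (l 6849773694080495686980010079)) (a (b (l 3) (a (l 4905820976140177677769146463) (l 3455109992602623355316535391))) (b (b (l 420000819095) (l 4944506602367845673920839775)) (l 16774144))))) (b (a (l 424832656407) (b (a (c (l 5118591920392356948002750559) (l 4818778317127920528899489887)) (l 16774104)) (l 3725909376196302970510147679))) (a (a (l 3) (a (b (l 3) (l 4915492382697094779885961311)) (b (l 4944506602367846086237454431) (l 16774008)))) (l 16774048))))) (b (b (a (l 425369528535) (b (a (c (l 6714374002283665534470127711) (l 6666016969499071846266830943)) (a (a (l 4896149569583259957177270367) (l 3455109992602622668122308703)) (l 16774424))) (b (a (c (l 5118591920392356398247510111) (l 4818778317127919704266358879)) (l 16774392)) (l 3735580782753219247994060895)))) (a (a (a (l 7546114966178525939901694047) (b (l 3) (c (l 5012206448266269374470537311) (l 4876806756469422316968902751)))) (a (b (b (l 3) (l 4905820976140176990574657631))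 (l 209010550839)) (c (l 3609852497513301662115266655) (l 199346874503)))) (l 16774312))) (c (l 3929008913891574965512257631) (l 215989872759)))) (a (b (a (b (a (b (a (l 363092501831) (c (l 5012206448266269992945254495) (l 4886478163026340243719143519))) (l 3629195310627131880619114591)) (l 215453001191)) (l 16773856)) (l 16773944)) (l 16773760)) (l 16773928)))), by decide +kernel⟩

def k31_pm_213 : ∃ t, chk3 f_pm_213 t 999 543 1 = true :=
  ⟨(a (b (a (b (b (b (a (l 424295784327) (b (a (c (l 4944506602367851858672418911) (l 4818778317127922384324182111)) (l 16773520)) (l 3725909376196304619776426079))) (a (a (l 3) (a (b (l 3) (l 4925163789254013531269398623)) (b (l 4944506602367847804223209567) (l 16773416)))) (l 16773456))) (b (a (a (a (l 6675688376055996026487980127) (c (l 5012206448266271504772579423) (l 4886478163026342236582789215))) (l 212231774407)) (l 16773416)) (l 3861309067993148378742915167))) (l 16773240)) (l 16773416)) (l 16773024)) (l 16773376)), by decide +kernel⟩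

def k32_pm_213 : ∃ t, chk3 f_pm_213 t 125 33 1 = true :=
  ⟨(b (l 6) (b (l 6) (a (a (b (b (l 6) (a (b (l 6) (a (b (b (b (l 6) (b (l 6) (b (l 6) (b (l 6) (a (l 3) (c (l 3841966254879313624755617887) (l 3803280628651636007877328991))))))) (a (a (l 3) (a (c (l 7478415120280110004653834335) (l 6849773694080494175152652383)) (a (b (l 3) (b (l 4896149569583259063824629855) (l 16774520))) (b (b (l 421074562039) (l 4934835195810927403573723231)) (l 16774704))))) (c (l 3919337507334653534069080159) (l 215989873703)))) (a (b (b (a (l 425369529095) (b (a (c (l 5118591920392355848492253279) (l 4809106910571001914955055199)) (l 16774672)) (l 3745252189310135662916976735))) (a (a (l 3) (a (b (l 3) (l 4896149569583259338702291039)) (b (l 4934835195810927678451384415) (l 16774576)))) (l 16774608))) (a (a (b (a (l 6685359782612909898791993439) (b (l 6695031189169827413226061919) (l 192904424007))) (l 3638866717184047470908883039)) (l 215453002327)) (l 16774552))) (l 16774664))) (l 16774872))) (l 16775304))) (a (b (a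 (l 143874910419320927) (l 16774416)) (l 16773656)) (l 16774376))) (b (l 16765688) (l 16774992))) (l 16776944)))), by decide +kernel⟩

def k33_pm_213 : ∃ t, chk3 f_pm_213 t 63 16 1 = true :=
  ⟨(b (l 6) (b (l 6) (a (a (l 16776712) (l 16774600)) (l 16770616)))), by decide +kernel⟩

def k34_pm_213 : ∃ t, chk3 f_pm_213 t 248 136 1 = true :=
  ⟨(a (l 3) (b (l 3) (a (l 3) (b (a (l 3) (b (l 3) (a (l 3) (a (l 3) (a (l 3) (b (l 3) (b (l 3) (b (l 3) (c (l 4731735658115691898603454687) (l 4441593461408178216613970143)))))))))) (a (b (l 3) (a (b (l 3) (b (l 3) (a (l 3) (a (a (l 3) (c (b (l 3) (l 224579794887)) (l 4441593461408185019839791327))) (c (b (l 4528636120420439351211442399) (l 191830669383)) (l 3039239510655216963887104223)))))) (a (b (c (l 418927065447) (l 6607988530157595690550182111)) (a (b (a (c (l 6607988530157600226036187359) (l 6607988530157599332682465503)) (b (l 3) (l 3135953576224386404510417119))) (l 3735580782753246460894068959)) (c (l 3600181090956409161559245023) (l 3551824058171823307375198431))))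 (b (a (b (l 3) (b (a (l 3) (b (l 3) (l 153712835223))) (l 3261681861464307563802312927))) (b (b (l 3) (c (l 4528636120420437633225195743) (l 4451264867965099922934497503))) (l 3600181090956405588145897695))) (l 144048289647018207))))) (b (b (a (l 3) (b (a (l 6869116507194353324545704159) (a (b (c (l 6627331343271430375823098079) (l 4470607681078929385526214879)) (l 3261681861464303509355315423)) (l 3590509684399484500300546271))) (a (a (a (c (l 350744460855) (l 6607988530157594522320634079)) (b (l 3) (l 3116610763110548214548201695))) (c (l 3358395927033476592110715103) (l 184851349063))) (l 16768456)))) (b (a (a (l 3) (a (a (l 3) (b (l 3) (b (l 3) (l 153175965047)))) (b (c (l 4731735658115693547870175455) (l 4441593461408180484355932383)) (l 3435767179488812309534933215)))) (l 3841966254879335408817504479)) (a (a (a (l 3) (b (l 6607988530157596858782728415) (c (l 3087596543439799863134191839) (l 167134608103)))) (l 3590509684399488073712648415)) (l 16768864)))) (c (c (c (a (l 3793609222094756289143570655)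 (l 16768784)) (l 3841966254879353482040115423)) (l 3832294848322438647665623263)) (l 3783937815537849907263029471)))))))), by decide +kernel⟩

def k35_pm_213 : ∃ t, chk3 f_pm_213 t 496 274 1 = true :=
  ⟨(a (l 3) (b (l 3) (a (l 3) (b (a (l 3) (a (l 3) (a (l 3) (b (l 3) (b (l 3) (c (b (l 3) (l 4547978933534283107449127135)) (l 4306193769611359883847352543))))))) (b (a (l 3) (a (b (c (l 350744455047) (l 6588645717043779628252872927)) (a (b (l 3) (l 2894168412301474313460334815)) (l 3339053113919659361580351711))) (c (c (c (l 3474452805716491163359281375) (l 3464781399159579902397497567)) (l 3445438586045752020354908383)) (l 3406752959818083405727301855)))) (a (a (a (l 3) (b (l 3) (c (b (l 348060099831) (l 171429569703)) (l 2787782940175391412851212511)))) (a (b (c (b (l 3) (l 220821693863)) (l 4170794077814524714814111967)) (l 3474452805716500577925857503)) (c (l 3426095772931913692951838943) (l 3368067333590416577806188767)))) (c (l 214916114199) (l 213305500871)))))))), by decide +kernel⟩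

def k36_pm_213 : ∃ t, chk3 f_pm_213 t 496 275 1 = true :=
  ⟨(a (b (a (l 3) (b (l 3) (a (l 3) (a (b (l 3) (b (c (l 6569302903929950509257343199) (l 6578974310486875582833197279)) (a (b (l 3) (l 2903839818858402204531704031)) (l 3348724520476587252652097759)))) (b (a (l 3) (b (l 3) (b (l 3) (l 2710411687720058856520040671)))) (c (l 3445438586045755868641902815) (l 3397081553261179429027004639))))))) (b (b (a (l 3) (a (b (a (l 3) (a (c (l 4499621900749708042219880671) (l 4190136890928372044465094879)) (l 3077925136882910317517619423))) (a (a (l 3) (c (a (l 4402907835180539082632626399) (l 167134599207)) (l 155860309191))) (l 3600181090956434793914695903))) (c (l 3870980474550114890145235167) (l 3832294848322456789597733087)))) (a (a (l 3) (a (c (l 6569302903929953670351634655) (l 6588645717043797838909030623)) (a (b (l 3) (l 2952196851642991907004170463)) (b (b (l 3) (l 2720083094276981593632358623)) (l 3609852497513352995542778079))))) (c (l 3774266408980950947079520479) (l 3735580782753294014762909919))))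 (a (a (b (a (l 3) (b (l 3) (a (c (l 4257836736826786811481866463) (l 4199808297485296293405999327)) (l 3087596543439833192069120223)))) (a (a (b (l 3) (l 3222996235236674614573007071)) (c (l 3271353268021254284003229919) (l 3184310609009013833966452959))) (c (l 3716237969639442699378016479) (l 3658209530297953624411979999)))) (c (l 3590509684399525800695431391) (l 3571166871285704447001968863))) (l 16763368)))) (b (a (b (b (a (l 3) (a (c (l 6588645717043778666179346655) (l 6588645717043784232456159455)) (b (a (l 3) (c (b (l 3) (l 2729754500833885020577530079)) (l 4315865176168283101996302559))) (c (l 3242339048350490608151298271) (l 3203653422122828521873834207))))) (a (a (l 3) (b (l 3) (a (c (b (l 3) (l 221358563175)) (l 4180465484371448207840936159)) (l 3077925136882904751241822431)))) (a (b (a (b (l 3) (l 2894168412301479604858077407)) (l 3339053113919664652978471135)) (l 3793609222094770170469941471)) (l 144067668532953311)))) (a (a (a (b (b (l 3) (l 3213324828679745967587147999)) (l 16764464)) (c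 (c (l 3571166871285674072997445855) (l 3532481245058017415558611167)) (l 3493795618830351824588062943))) (c (l 3793609222094776698820018399) (l 3754923595867117155163242719))) (l 16764704))) (b (c (l 3803280628651519940662542559) (l 3764595002424038930206408927)) (l 16764808))) (l 16763872))), by decide +kernel⟩

def k37_pm_213 : ∃ t, chk3 f_pm_213 t 497 137 1 = true :=
  ⟨(b (a (b (a (b (l 3) (a (l 3) (b (l 3) (a (c (l 6869116507194364250938228959) (l 6598317123600689171229278431)) (a (b (l 3) (c (b (l 4335207989282104386972549343) (l 181630119559)) (l 2913511225415303638613393631))) (b (c (b (l 3) (l 4538307526977362088323367135)) (l 4306193769611354042693451999)) (l 3600181090956414590394335455))))))) (a (b (l 3) (b (b (a (l 3) (a (b (l 3) (c (l 4547978933534277197576257759) (l 219211083719))) (c (b (l 4538307526977360095459311839) (l 192367538727)) (l 3048910917212139288682905823)))) (a (a (l 3) (b (a (l 3) (l 4151451264700679515467284703)) (l 3068253730325973492916912351))) (l 3590509684399496869802524895)))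 (c (l 3667880936854839253017673951) (l 3658209530297924281203212511)))) (b (a (b (l 3) (b (c (l 362555618839) (l 353965683031)) (b (a (l 3) (l 3087596543439805291970724063)) (c (l 3281024674578147403032543455) (l 178945765879))))) (a (b (l 3) (b (b (c (l 4547978933534275273431679199) (l 219211084503)) (l 3261681861464311961847267551)) (l 16767600))) (b (a (l 6888459320308194263286071519) (b (l 3) (b (l 3) (l 2874825599187628633077465311)))) (l 3725909376196334787614523615)))) (c (l 3899994694220856232179106015) (l 3861309067993189954013839583))))) (a (b (b (a (b (l 3) (a (l 3) (a (c (b (l 3) (l 232632855511)) (l 4412579241737444502443065567)) (c (b (l 4538307526977364012467929311) (l 192367537191)) (l 169818958503))))) (a (a (b (b (l 3) (c (l 2913511225415302470382518495) (l 159081540343))) (l 3735580782753255738020380895)) (l 3571166871285666513857921247)) (l 144057429334261983))) (b (a (a (a (l 3) (b (c (l 348060101399) (l 211694889239)) (l 3068253730325978371997925599))) (l 3600181090956418713562005727))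 (l 16766552)) (c (l 3745252189310183629094863071) (l 3716237969639436377192186079)))) (l 143900886364782815)) (l 16766464))) (b (a (b (a (b (b (a (a (l 3) (c (b (l 348596975351) (l 3087596543439803436545573087)) (b (l 351818200455) (l 167671477479)))) (l 3590509684399492334318551263)) (c (l 3619523904070247007924781279) (l 3571166871285661909655109855))) (l 16767728)) (l 16767928)) (l 16767392)) (l 16767792)) (l 16766696))) (l 16764896)), by decide +kernel⟩

def k38_pm_213 : ∃ t, chk3 f_pm_213 t 996 272 1 = true :=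
  ⟨(b (l 3) (a (l 3) (b (l 3) (a (l 3) (b (a (l 3) (a (l 3) (a (l 3) (b (l 3) (b (l 3) (b (l 350744464391) (l 173577063415))))))) (a (b (l 7594471998963123545107759327) (a (a (c (l 351818206119) (l 353965688807)) (b (l 3) (b (l 4557650340091178081902969055) (l 194515028455)))) (a (c (b (l 4770421284343355015674642655) (l 16770552)) (l 3155296389338207277170950367)) (l 3619523904070228453670682847)))) (a (b (c (b (l 6646674156385258326587703519) (l 3261681861464298836433617119)) (b (l 6627331343271419518148215007) (l 179482643063))) (l 16770528)) (l 3716237969639402086182863071)))))))), by decide +kernel⟩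

def k39_pm_213 : ∃ t, chk3 f_pm_213 t 997 544 1 = true :=
  ⟨(a (l 3) (a (b (l 3) (b (l 3) (b (a (l 3) (a (c (l 6656345562942170687062900959) (l 6637002749828330641672929503)) (b (a (l 3) (b (l 351281337303) (l 3106939356553617849577816287))) (c (l 3464781399159552964373627103) (l 188609450775))))) (b (a (l 7604143405520036730216759519) (a (a (a (l 4751078471229513527177953503) (l 3145624982781286601643475167)) (l 202031223543)) (l 16771632))) (a (a (l 3) (a (c (l 4770421284343350961227481311) (l 239612187095)) (l 3377738740147296296540127455))) (l 16771576)))))) (b (a (l 3) (a (l 3) (a (l 3) (b (l 3) (b (l 3) (b (l 3) (b (l 355039434839) (l 3106939356553616543908413663)))))))) (b (b (a (l 7613814812076951702030778591) (a (c (b (l 6675688376056004341541961951) (a (l 4857463943355603299734421727) (l 16771656))) (b (l 6637002749828329748320354527) (l 3213324828679702055856259295))) (c (l 3629195310627143013170610399) (l 198273127815)))) (a (a (a (l 6646674156385250080252739807) (b (l 3) (b (l 4547978933534254932474560735)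 (l 193441289303)))) (a (b (a (l 349670724711) (l 4644692999103425197731676383)) (l 209547416711)) (l 3609852497513305304242847967))) (l 16771224))) (l 3890323287663910336609861855))))), by decide +kernel⟩

def k40_pm_213 : ∃ t, chk3 f_pm_213 t 997 545 1 = true :=
  ⟨(a (b (b (a (l 3) (a (l 7613814812076953076418986207) (b (a (l 3) (a (l 3) (b (l 3) (b (l 351281336647) (l 3116610763110536326083805407))))) (a (c (b (l 6666016969499089713324720351) (a (l 4857463943355605773634306271) (l 16771016))) (b (l 6627331343271415944736800991) (l 179482644439))) (l 3609852497513308190459805919))))) (b (a (l 3) (a (a (a (c (l 362018754775) (l 353965690199)) (b (l 3) (b (l 4547978933534257887410782431) (l 193978158903)))) (a (b (c (l 4770421284343352266896883935) (l 227801026263)) (l 210084286311)) (l 3580838277842557090266579167))) (l 16770560))) (a (a (l 3) (a (c (l 6646674156385256196284612831) (l 6627331343271416975528296671)) (b (a (l 3) (c (l 4722064251558767855822618847) (l 233706605959))) (l 3445438586045718553979650271))))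 (l 3851637661436241790700847327)))) (a (b (a (b (b (l 6869116507194345215651021023) (a (l 3) (a (b (l 3) (l 2923182631972197857153040607)) (l 188609449271)))) (a (a (b (b (l 3) (l 4557650340091176432636149983)) (l 194515029031)) (c (l 3455109992602639641826001119) (l 190220061671))) (l 214916123799))) (c (l 3735580782753238901757739231) (l 3696895156525565614205894879))) (l 16770648)) (l 16770832))) (b (a (a (a (b (a (b (b (a (l 3) (l 6646674156385252347994849503)) (l 193978159463)) (l 16771344)) (c (l 3687223749968649130565681375) (l 203104964999))) (l 16771192)) (l 3919337507334664254300766431)) (l 16771352)) (l 16771408)) (l 16770960))), by decide +kernel⟩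

def k41_pm_213 : ∃ t, chk3 f_pm_213 t 498 273 1 = true :=
  ⟨(a (b (a (a (b (l 3) (a (b (l 3) (a (b (l 3) (c (b (c (l 4712392845001857419491442911) (l 4731735658115692791956635871)) (l 202568089959)) (l 3174639202452048284631023839))) (b (b (l 6617659936714509975171612895) (a (a (l 4441593461408178422773154015) (l 2845811379516868393197371615)) (l 187535704647))) (l 214916120983)))) (b (b (l 3) (a (c (l 6627331343271428039361577183) (b (l 3) (l 4460936274522010084386586847))) (a (b (l 3) (l 181093253975)) (c (l 3290696081135054197232402655) (l 180556382951))))) (c (l 3735580782753244811630067935) (l 3696895156525573723101167839))))) (b (a (c (l 7584800592406194898117361887) (l 7633157625190778690715730143)) (b (l 3) (b (a (l 3) (a (l 3) (b (l 3) (a (l 4393236428623590507006935263) (l 3010225290984455280898916575))))) (a (c (b (l 6637002749828344248126161119) (l 3271353268021218824767455455)) (b (l 4460936274522008022802940127) (l 177872028727))) (l 3590509684399480720730947807))))) (a (a (b (b (a (c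 (l 351281333175) (l 6617659936714507157673197791)) (b (l 3) (l 3126282169667461399657054431))) (l 3735580782753238420718387423)) (l 16769504)) (c (c (l 3774266408980915350402891999) (l 3754923595867083070313791711)) (l 3706566563082493367839523039))) (l 144047190138159327)))) (a (b (b (a (a (l 3) (b (l 3) (b (l 6627331343271423366438355167) (a (b (l 3) (l 2942525445086035291201372383)) (l 188609447895))))) (b (a (c (l 6637002749828341980384133343) (b (l 3) (l 6617659936714504408895193311))) (b (a (l 3) (a (l 4596335966318846421651849439) (l 3000553884427536460795543775))) (l 3455109992602638817191297247))) (c (l 3629195310627151053345980639) (l 198273124247)))) (a (a (a (b (b (a (l 3) (l 4518964713863511460140187871)) (l 195051898567)) (l 16769968)) (l 3629195310627150228711997663)) (l 3909666100777747014741835999)) (l 16770080))) (l 16769728)) (c (l 3890323287663759085038944479) (l 3851637661436267491783868639)))) (a (l 143896419603333343) (l 16769080))) (l 16769792)), by decide +kernel⟩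

def k42_pm_213 : ∃ t, chk3 f_pm_213 t 499 136 1 = true :=
  ⟨(b (a (b (a (b (a (b (b (l 3) (a (l 3) (a (c (l 6675688376056002486116712671) (l 6637002749828327618017263839)) (b (a (l 3) (c (l 4905820976140186680017158367) (l 244980897943))) (c (l 3455109992602633663234490591) (l 190756935751)))))) (b (a (a (l 3) (b (l 421611427383) (a (a (l 349670725351) (l 4838121130241764560015229151)) (l 3368067333590376514364702943)))) (a (a (c (b (l 4857463943355602200223432927) (l 16772240)) (l 3319710300805788598597337311)) (l 208473675735)) (l 16772256))) (b (a (a (a (l 6656345562942166495175704799) (b (l 4741407064672594294758064351) (l 192904418871))) (l 212231771927)) (l 16772176)) (l 3851637661436235880828174559)))) (b (b (a (a (a (l 6869116507194339305779298399) (b (l 3) (a (l 4731735658115676299288363103) (l 3310038894248873077028700255)))) (a (b (b (l 3) (l 4751078471229510159925330015)) (l 209547417991)) (l 3609852497513302761623437407))) (l 16772512)) (l 3870980474550070359941103711)) (l 16772264))) (l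 143869962612310111)) (l 16772296)) (l 16771424)) (l 16772184)) (l 16770328)), by decide +kernel⟩

def k43_pm_213 : ∃ t, chk3 f_pm_213 t 249 137 1 = true :=
  ⟨(a (l 16766648) (l 16767384)), by decide +kernel⟩

def k44_pm_213 : ∃ t, chk3 f_pm_213 t 124 69 1 = true :=
  ⟨(a (b (b (a (a (b (b (l 143937719996121311) (l 16762088)) (l 16761136)) (l 16762048)) (l 16762504)) (l 16759576)) (l 16755208)) (l 16759568)), by decide +kernel⟩

def k45_pm_213 : ∃ t, chk3 f_pm_213 t 125 34 1 = true :=
  ⟨(b (a (l 16760104) (l 16772536)) (l 16762440)), by decide +kernel⟩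

def k46_pm_213 : ∃ t, chk3 f_pm_213 t 62 35 1 = true :=
  ⟨(a (b (l 16746144) (l 16735816)) (l 16745224)), by decide +kernel⟩

def k47_pm_213 : ∃ t, chk3 f_pm_213 t 63 17 1 = true :=
  ⟨(b (a (l 16772232) (l 16778992)) (l 16755256)), by decide +kernel⟩

def k48_pm_213 : ∃ t, chk3 f_pm_213 t 60 72 1 = true :=
  ⟨(a (a (l 3) (a (l 3) (b (l 3) (a (b (l 3) (b (l 3) (c (l 3106939356553345445479612447) (l 3106939356553306481530044447)))) (b (b (l 3) (c (l 3899994694220583759373467679) (l 2681397468048997144211456031))) (c (b (l 3261681861464034403798892575) (l 3812952035208263182423523359)) (b (l 3271353268020912885564014623) (l 3812952035208227723168333855)))))))) (a (b (a (b (l 3) (a (l 3) (b (l 3) (a (l 3870980474549804140597575711) (l 3068253730325677518050689055))))) (b (a (l 3) (b (a (l 3) (l 3919337507334376938084646943)) (l 3193982015565583971377152031))) (c (a (l 3291295448996210838628311583) (l 3794209763053477416274895391)) (a (l 3290696081134730047373049887) (b (l 3774266408980556978246352927)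 (l 16726176)))))) (b (a (b (c (l 3193982015565612833555513375) (l 3203653422122493583063728159)) (a (c (l 3348724520476286398708940831) (l 3348724520476249358905081887)) (l 16726272))) (l 16726008)) (a (a (b (a (l 16725896) (l 16725560)) (l 16724528)) (l 16724472)) (l 16723568)))) (b (a (b (a (b (l 3329381707362413849012944927) (l 16729440)) (l 16729608)) (l 16727432)) (l 16727840)) (l 16723272)))), by decide +kernel⟩

def k49_pm_213 : ∃ t, chk3 f_pm_213 t 60 146 1 = true :=
  ⟨(a (a (a (l 3) (a (l 3) (b (l 3) (b (c (l 2749097313947332952541708319) (l 2758768720504209853758046239)) (a (c (b (l 151028384119) (a (l 169281993623) (l 190756831319))) (l 3116610763110112189360308255)) (b (a (l 3222996235236232198492586015) (b (l 3542152651614498217625976863) (l 16718936))) (l 16718168))))))) (a (a (b (a (l 3) (c (l 2816797159845798159661285407) (l 2816797159845758233638748191))) (c (b (b (l 3232667641793195617543569439) (a (a (l 3406752959817690261510537247) (l 16721992)) (l 16722144))) (l 16720784)) (b (l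 3377738740146901296880009247) (l 16717304)))) (b (c (b (l 2971539664756485193835577375) (a (l 3435767179488473384984117279) (l 16724280))) (b (l 2981211071313362919686078495) (l 3532481245057599394892808223))) (l 16720232))) (a (b (b (c (a (l 3600181090956083637309571103) (l 16725592)) (l 3696895156525208822584557599)) (l 16722616)) (l 16720336)) (l 16721688)))) (a (a (l 16721008) (l 16719872)) (l 16718064))), by decide +kernel⟩

def k50_pm_213 : ∃ t, chk3 f_pm_213 t 60 147 1 = true :=
  ⟨(b (a (b (a (a (l 3) (a (a (b (l 3) (c (l 169281987959) (l 170355722519))) (c (b (a (l 159618314279) (l 185388119671)) (l 201494245399)) (b (l 3155296389337754759303888927) (l 202031109879)))) (a (c (l 209547311063) (l 210621046679)) (l 16716768)))) (l 16717840)) (a (a (a (l 3) (a (b (l 3) (c (l 147807146055) (l 146733396695))) (b (b (l 3) (c (l 158007695351) (l 156933946103))) (c (a (l 171429468503) (l 197736143847)) (l 179482525863))))) (a (a (b (a (b (l 180019403687) (l 202567981415)) (b (l 16714256) (l 16713872)))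 (l 16713568)) (l 16714312)) (l 16715040))) (l 16716528))) (l 16715584)) (a (a (b (b (a (a (l 3) (a (a (c (l 166597628519) (l 166060750199)) (c (l 187535594919) (l 186461845767))) (l 16712712))) (l 16714256)) (a (a (a (l 3) (c (a (l 155860207463) (l 177871916599)) (a (l 154786457847) (l 176261296487)))) (a (c (l 16713712) (l 16709824)) (l 16712488))) (l 16714096))) (a (a (a (c (b (a (l 145659658007) (l 168208237991)) (a (l 184314364039) (l 16711944))) (b (a (l 144585908263) (l 172503197943)) (a (l 182703744231) (l 16707920)))) (b (c (l 197199268679) (l 196125519847)) (l 16710496))) (l 16711768)) (l 16713848))) (l 16716400)) (l 16715520))), by decide +kernel⟩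

def k51_pm_213 : ∃ t, chk3 f_pm_213 t 61 36 1 = true :=
  ⟨(a (b (a (l 16724360) (l 16723520)) (l 16713568)) (l 16717880)), by decide +kernel⟩

def k52_pm_213 : ∃ t, chk3 f_pm_213 t 31 36 1 = true :=
  ⟨(a (l 16721728) (l 16735824)), by decide +kernel⟩

def k53_pm_213 : ∃ t, chk3 f_pm_213 t 15 37 1 = true :=
  ⟨(a (a (a (b (a (b (a (b (a (b (a (l 16709264) (l 16710056)) (l 16709016)) (l 16711000)) (l 16708984)) (l 16712920)) (l 16709064)) (l 16715960)) (a (l 16704344) (l 16710824))) (b (l 16696192) (l 16713952))) (a (l 16695568) (l 16713144))) (a (l 16715928) (l 16730784))), by decide +kernel⟩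

def k54_pm_213 : ∃ t, chk3 f_pm_213 t 15 19 1 = true :=
  ⟨(a (a (b (a (b (l 16677176) (l 16639336)) (l 16659984)) (a (l 16574520) (l 16572144))) (b (a (l 16667800) (l 16693160)) (a (l 16572008) (l 16582912)))) (a (b (l 16725104) (l 16651168)) (l 16743848))), by decide +kernel⟩

def k55_pm_213 : ∃ t, chk3 f_pm_213 t 2 5 1 = true :=
  ⟨(l 3), by decide +kernel⟩

def k56_pm_213 : ∃ t, chk3 f_pm_213 t 12 10 1 = true :=
  ⟨(l 3), by decide +kernel⟩

def k57_pm_213 : ∃ t, chk3 f_pm_213 t 26 10 1 = true :=
  ⟨(l 3), by decide +kernel⟩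

def k58_pm_213 : ∃ t, chk3 f_pm_213 t 27 20 1 = true :=
  ⟨(a (l 3) (a (l 3) (a (l 3) (b (l 3) (a (l 3) (b (l 3) (a (b (l 3) (b (l 3) (b (l 3) (c (l 203104583527) (l 202567684359))))) (b (l 3) (b (b (l 3) (c (l 188072202199) (l 186998443143))) (c (b (a (l 210083903719) (l 176261034119)) (l 16580360)) (b (a (l 208473263287) (l 169818559735)) (l 16569528)))))))))))), by decide +kernel⟩

def k59_pm_213 : ∃ t, chk3 f_pm_213 t 27 42 1 = true :=
  ⟨(a (l 3) (a (b (a (l 3) (b (l 3) (a (l 3) (b (l 3) (l 210083896679))))) (a (b (l 3) (a (b (l 3) (a (l 214915740839) (l 195051520103))) (b (a (l 207399543927) (l 193977774375)) (l 16578408)))) (b (a (b (l 211157640103) (a (l 203104573543) (l 187535320391))) (b (a (l 199883352855) (l 16575992)) (l 16572976))) (b (l 181629726231) (l 16573016))))) (b (a (b (a (l 3) (b (l 3) (a (l 213305122791) (b (l 211157637511) (l 179482255447))))) (a (b (a (l 3) (l 207399544919)) (a (l 198809609207) (l 16572944))) (b (b (l 178945383751) (l 16572896)) (l 16571816)))) (b (a (b (b (c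 (l 211157646311) (l 209547004215)) (a (l 210083901271) (l 175187280327))) (c (l 178408512807) (l 171966038103))) (b (c (l 173039804455) (l 167134201799)) (l 16571800))) (l 16569736))) (a (b (l 16565576) (l 16568720)) (l 16563336))))), by decide +kernel⟩

def k60_pm_213 : ∃ t, chk3 f_pm_213 t 27 86 1 = true :=
  ⟨(a (a (l 3) (a (b (l 3) (b (c (l 230485033175) (l 229411262103)) (a (a (l 3) (l 233169375031)) (a (b (l 226726919543) (l 184314121639)) (b (l 182703505079) (l 16587376)))))) (b (a (b (l 3) (a (l 3) (l 216526361047))) (b (a (l 226190035255) (l 209010162279)) (a (l 187535333815) (l 16580024)))) (a (b (c (l 186998474551) (l 182166605735)) (l 16585192)) (l 16582152))))) (a (a (b (a (b (l 183240359719) (l 16578512)) (l 16576168)) (l 16578480)) (l 16572640)) (l 16558496))), by decide +kernel⟩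

def k61_pm_213 : ∃ t, chk3 f_pm_213 t 27 87 1 = true :=
  ⟨(a (a (a (a (l 3) (a (l 3) (b (l 3) (b (l 3) (c (b (l 257865487095) (a (l 244980588343) (l 214915810759))) (b (l 254107361031) (a (l 241222451895) (l 212231427719)))))))) (b (a (l 3) (b (l 3) (a (b (l 3) (c (a (l 241222470759) (b (l 235316887959) (l 184314148391))) (a (l 243369924871) (b (l 235316858487) (l 212768275175))))) (c (b (l 223505721207) (l 173576727783)) (b (a (l 233169371831) (l 183240369335)) (l 167671117175)))))) (a (c (b (a (b (l 3) (l 253033631639)) (b (a (l 3) (l 237464375367)) (a (l 235316895767) (l 205252121479)))) (a (b (a (l 240148737927) (l 210083966087)) (l 16614864)) (l 16612336))) (b (a (b (l 3) (l 249812381767)) (b (a (l 3) (b (l 3) (l 237464343543))) (a (b (l 241222448295) (l 207936448167)) (l 201493995735)))) (a (b (a (l 236390612007) (l 206862711847)) (l 16600240)) (l 16597800)))) (b (a (b (c (a (b (l 220821371719) (l 16607760)) (l 16606632)) (a (b (a (l 228337540727) (l 209010185911)) (l 16593072)) (l 16591992)))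 (l 16601304)) (b (l 16598368) (l 16599784))) (l 16602800))))) (b (a (b (b (a (a (l 3) (a (l 221895092503) (l 179482286343))) (l 16588920)) (a (a (c (l 218673875047) (l 217600103943)) (l 16591856)) (l 16589920))) (a (a (c (l 169281756583) (l 163376147159)) (l 16593592)) (l 16591496))) (l 16586296)) (a (b (l 16574304) (l 16597768)) (l 16589624)))) (a (l 16576184) (l 16549072))), by decide +kernel⟩

def k62_pm_213 : ∃ t, chk3 f_pm_213 t 12 11 1 = true :=
  ⟨(b (l 3) (a (l 3) (b (a (l 3) (a (l 3) (b (l 3) (a (b (l 3) (a (l 256791869959) (b (l 244443840727) (l 203641635671)))) (b (a (l 247665075287) (b (l 232632694791) (l 16679504))) (b (l 189683001479) (l 16667480))))))) (a (b (l 3) (a (l 3) (b (a (l 3) (a (l 3) (b (l 3) (l 239611917575)))) (a (a (l 3) (b (l 3) (l 250886177575))) (a (b (l 245517483287) (l 198809697079)) (b (l 193977872695) (l 16620232))))))) (a (b (a (b (l 3) (a (l 3) (b (l 270213602343) (l 228337655495)))) (b (a (l 266455525671) (b (l 257328723703) (l 214379033351))) (a (b (l 222968955943)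 (l 16648648)) (l 16650760)))) (a (b (a (b (l 234243222247) (l 16635416)) (l 16638280)) (l 16622920)) (b (l 16636224) (l 16620472)))) (b (b (a (b (a (l 209010335159) (l 16664792)) (l 16658768)) (l 16656792)) (l 16645008)) (l 16622120))))))), by decide +kernel⟩

def k63_pm_213 : ∃ t, chk3 f_pm_213 t 26 22 1 = true :=
  ⟨(b (a (l 3) (b (a (l 3) (a (l 3) (b (a (l 3) (a (l 3) (b (l 3) (c (l 253033680919) (l 250349296727))))) (c (a (b (l 260013022695) (a (l 253033709447) (l 218673940727))) (b (a (l 240685640567) (l 212768347575)) (l 16640056))) (a (b (l 257865509431) (a (l 244443745911) (l 212768346903))) (b (a (b (l 252496790487) (l 220821404231)) (l 210620850759)) (l 16626176))))))) (a (b (l 3) (a (l 3) (a (b (l 3) (l 257865578247)) (b (l 254644325639) (l 216526488263))))) (b (b (a (a (l 3) (c (l 246591251799) (a (l 251423085063) (l 229948243751)))) (a (b (l 200957179863) (l 16642928)) (l 16637568))) (a (a (b (l 262160510103) (l 223505797415)) (a (l 210084014327) (l 16649200))) (l 16643528))) (a (b (a (l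 211694636695) (l 16654008)) (l 16659248)) (l 16646984)))))) (a (b (a (l 3) (a (l 3) (b (l 3) (b (l 3) (l 237464513927))))) (b (a (l 3) (a (b (l 3) (l 239075168663)) (a (b (l 225653385511) (l 198809800567)) (l 183777436359)))) (a (a (l 3) (a (l 3) (l 244980731319))) (a (b (a (l 234243327943) (l 211694686279)) (l 186461827895)) (l 16679720))))) (a (b (a (b (a (l 265918670711) (b (l 260013077831) (l 224579578919))) (a (b (l 226190209879) (l 16683040)) (l 16677952))) (b (a (b (l 221358339543) (l 16674384)) (l 16668608)) (l 16668048))) (b (a (l 16675168) (l 16661656)) (l 16660304))) (b (a (l 16635624) (l 16641928)) (l 16635448))))), by decide +kernel⟩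

def k64_pm_213 : ∃ t, chk3 f_pm_213 t 27 22 1 = true :=
  ⟨(a (b (b (b (a (b (c (a (a (a (l 3) (b (l 3) (l 243369989447))) (a (b (l 239611885431) (l 16622024)) (l 16616608))) (l 16614456)) (a (a (a (l 3) (b (l 3) (l 240148734423))) (a (b (a (l 246591178807) (l 227263820407)) (l 203104632983)) (l 198272789671))) (l 16600424))) (a (a (c (a (b (l 247128093847) (l 215452707383)) (l 207936508519)) (a (b (l 243906838839) (l 211694582855)) (l 204178384215))) (l 16595944)) (l 16611072))) (l 16597232)) (a (a (a (b (a (l 16605104) (l 16624040)) (l 16629240)) (l 16622872)) (l 16616056)) (l 16599080))) (a (b (l 16605248) (l 16625344)) (l 16595016))) (b (l 16601208) (l 16584920))) (b (b (a (l 16570280) (l 16536944)) (l 16541696)) (b (l 16525648) (l 16506440)))), by decide +kernel⟩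

def k65_pm_213 : ∃ t, chk3 f_pm_213 t 13 23 1 = true :=
  ⟨(a (b (a (b (a (a (b (l 261086883127) (b (l 235853933367) (a (l 226727119879) (l 16684512)))) (b (b (a (l 251423198583) (l 204178564919)) (l 199346717095)) (l 16680680))) (b (a (l 16681568) (l 16670000)) (l 16664848))) (a (b (a (b (l 16680336) (l 16673840)) (l 16668344)) (l 16659632)) (l 16646416))) (b (a (l 16645232) (l 16615760)) (l 16607440))) (a (b (a (l 16638616) (l 16619488)) (l 16600488)) (b (l 16581304) (l 16553368)))) (b (a (l 16510744) (l 16471992)) (a (l 16501280) (l 16419976)))), by decide +kernel⟩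

def k66_pm_213 : ∃ t, chk3 f_pm_213 t 28 80 1 = true :=
  ⟨(b (a (l 3) (a (a (l 3) (a (b (l 3) (a (l 3) (b (l 3) (c (l 188609139079) (a (l 182166668839) (l 176797947799)))))) (c (b (l 189146022375) (a (l 180556075559) (l 16614040))) (b (a (l 3) (b (l 184314166007) (l 190756610135))) (a (b (a (l 184851027111) (l 178945445607)) (l 183777270567)) (b (l 16600792) (l 16602816))))))) (a (a (b (a (b (a (l 177871701479) (l 187535381191)) (l 16612632)) (l 16612672)) (l 16606696)) (l 16606384)) (l 16599960)))) (a (l 3) (b (a (a (a (l 3) (a (l 3) (b (l 3) (a (l 3) (b (l 3) (c (l 186461645943) (l 182703508359))))))) (a (c (a (b (l 186998522887) (l 182703542711)) (l 184314155463)) (a (b (a (l 3) (b (l 3) (l 185924758455))) (a (b (l 184314122919) (l 182703519223)) (l 183777261223))) (b (a (b (l 188072243927) (l 16601952)) (l 16602096)) (l 16599368)))) (l 16592976))) (a (l 16597832) (l 16588672))) (a (a (a (l 3) (c (a (b (l 184314161511) (l 188609122247)) (b (l 180019190999) (l 16605736))) (c (a (b (l 180556049607)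 (a (l 182166656663) (l 179482300823))) (b (l 186461626903) (l 16598368))) (a (b (a (l 3) (l 178408554727)) (a (b (l 3) (a (l 178408548535) (l 177871677079))) (b (l 182166641287) (l 182166639303)))) (b (a (b (l 180019167767) (l 177871681095)) (b (l 180556033271) (l 16595264))) (l 16593416)))))) (a (a (b (l 16592032) (l 16599456)) (l 16599472)) (l 16596896))) (l 16586152))))), by decide +kernel⟩

def k67_pm_213 : ∃ t, chk3 f_pm_213 t 112 81 1 = true :=
  ⟨(l 3), by decide +kernel⟩

def k68_pm_213 : ∃ t, chk3 f_pm_213 t 226 81 1 = true :=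
  ⟨(b (l 3) (a (l 3) (b (l 3) (a (l 3) (a (l 3) (b (l 3) (c (b (l 180019160471) (l 181092899559)) (c (b (l 183240369239) (l 177334790999)) (b (l 182703491783) (c (l 182166618487) (a (l 179482258791) (l 179482266759)))))))))))), by decide +kernel⟩

def k69_pm_213 : ∃ t, chk3 f_pm_213 t 227 81 1 = true :=
  ⟨(a (a (b (l 3) (b (l 3) (c (b (a (l 181092894727) (b (l 181629776103) (l 182703505063))) (c (l 180556029991) (l 181092888391))) (a (c (b (l 182166630375) (l 175724176039)) (b (b (l 3) (a (l 3) (b (l 3) (l 183240364855)))) (b (a (b (l 182703485127) (l 183240362759)) (l 181092880023)) (l 16581784)))) (b (b (a (l 203104590759) (b (l 183777238103) (a (l 182703496087) (l 179482270711)))) (a (b (a (l 183777236807) (l 183240365815)) (l 180556010087)) (l 16582816))) (l 16581336)))))) (b (l 3) (b (c (b (l 192904073511) (a (l 182703510439) (b (l 183777262743) (l 16595208)))) (c (b (l 194514669671) (a (l 180019150039) (b (l 177871666663) (l 16587312)))) (b (a (l 3) (l 182703500455)) (a (b (l 3) (a (l 181092884647)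 (b (l 182166625111) (l 177871659543)))) (b (a (l 183240367143) (l 175187308183)) (l 175724176871)))))) (b (a (b (c (l 182703506887) (a (c (l 176797924791) (l 177871658647)) (l 16583680))) (l 16588016)) (l 16588208)) (l 16586072))))) (b (b (l 3) (a (b (l 3) (a (l 3) (b (l 3) (c (l 183777268743) (c (l 177871672743) (l 181629758087)))))) (b (c (l 184850995111) (a (l 3) (b (l 3) (a (l 178408531447) (b (l 183240368807) (l 180556013159)))))) (c (a (l 178945420183) (l 183240387831)) (c (a (b (l 178945416263) (l 181629762823)) (l 181629762999)) (a (b (a (l 178945405543) (l 179482276023)) (l 176261047767)) (b (l 177871658071) (l 16585448)))))))) (b (c (a (b (a (l 184314115703) (l 182703512663)) (l 16595064)) (l 16595208)) (c (a (b (a (b (l 177334800151) (l 178945410167)) (l 181629758647)) (l 16587384)) (l 16587752)) (a (b (a (b (l 183240368999) (a (l 183777237495) (l 175187307543))) (b (a (l 177334791975) (l 176261047015)) (l 16583656))) (a (l 16582224) (l 16582008))) (l 16582696)))) (l 16585704)))), by decide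 +kernel⟩

def k70_pm_213 : ∃ t, chk3 f_pm_213 t 57 81 1 = true :=
  ⟨(b (a (b (a (a (a (b (l 3) (c (l 185924740151) (c (a (l 178408553271) (l 181092906567)) (a (l 177871671431) (b (a (l 3) (l 176797929719)) (a (b (l 176261057143) (l 180019146583)) (l 181629759287))))))) (c (b (l 186998485239) (l 183240396167)) (c (b (a (l 180019169495) (l 177871684583)) (l 181092900391)) (b (a (b (l 3) (a (l 3) (l 178408544295))) (b (a (l 176797933959) (l 176797933399)) (a (l 181092892807) (l 16591464)))) (a (b (a (l 177334793591) (l 182703503463)) (l 16589360)) (l 16589624)))))) (a (b (a (b (c (l 16605168) (c (l 16597616) (l 181629766055))) (l 16598728)) (l 16598848)) (l 16596272)) (l 16596368))) (l 16592240)) (a (a (a (b (c (a (l 180019175639) (l 16600560)) (c (a (l 178408547447) (l 16592984)) (a (b (a (l 176261049383) (l 180556015287)) (l 179482272487)) (l 16587832)))) (l 16582632)) (l 16582808)) (l 16591184)) (l 16585784))) (l 16575136)) (a (a (a (b (l 16588416) (l 16582880)) (l 16582272)) (l 16576056)) (l 16560464))),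 by decide +kernel⟩

def k71_pm_213 : ∃ t, chk3 f_pm_213 t 112 82 1 = true :=
  ⟨(a (l 3) (b (l 3) (a (a (b (l 3) (a (l 3) (b (l 3) (c (l 184850987079) (l 182703478887))))) (b (l 3) (b (a (l 3) (b (l 3) (c (l 185387858919) (a (l 182166614007) (l 182703479911))))) (c (a (b (l 184850984423) (l 172502954167)) (l 170355471607)) (a (b (l 181629736663) (l 175187284103)) (b (l 175187285463) (l 16576448))))))) (c (b (a (b (l 3) (a (l 3) (b (l 186461603591) (a (l 184850988791) (l 171966089191))))) (b (b (c (l 182166639815) (l 185924721831)) (a (l 184850992039) (l 173039832951))) (a (b (l 172502961303) (l 16583016)) (l 16583168)))) (a (b (a (b (a (l 186461600391) (l 171966088583)) (l 16588384)) (l 16587240)) (l 16580472)) (l 16580632))) (b (a (b (l 3) (a (l 3) (b (l 182166612471) (a (l 180555997655) (l 177334773607))))) (b (c (a (l 182166623831) (b (l 181092881031) (l 181629744247))) (a (b (l 3) (l 181092871879)) (b (l 180555991463) (l 177871634951)))) (a (b (a (b (l 183777226439) (l 177871645255)) (l 177334775079))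 (l 16573344)) (l 16578456)))) (a (b (a (b (a (l 181629738663) (l 181629739591)) (l 175187286807)) (b (l 16578184) (l 16577256))) (l 16576144)) (l 16575808))))))), by decide +kernel⟩

def k72_pm_213 : ∃ t, chk3 f_pm_213 t 113 82 1 = true :=
  ⟨(a (b (a (a (b (l 3) (b (l 3) (a (b (l 3) (c (a (l 182166629703) (l 174650446679)) (c (l 183240359671) (a (l 181092874167) (l 185924702103))))) (c (b (a (l 181092899607) (l 175187317415)) (l 174113574375)) (c (b (l 182166612695) (l 181629747175)) (b (a (l 180556004183) (l 185387832791)) (l 178408508951))))))) (b (b (l 3) (a (l 3) (b (l 3) (c (l 181092901895) (c (l 181629754631) (l 180556000263)))))) (a (c (b (b (l 181629774087) (a (l 181092900903) (l 175187317255))) (l 16591232)) (c (b (b (l 182703496855) (l 182166622023)) (l 16581016)) (b (b (l 181092878215) (a (l 180019123687) (l 180555996135))) (l 16574720)))) (b (c (c (l 176261064343) (l 175187311879)) (b (c (l 179482269271) (a (l 180019124551) (l 180555997799))) (l 16581064))) (l 16580304))))) (b (b (a (a (l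 3) (b (l 3) (c (a (l 178945413383) (l 177871672727)) (c (l 184850977735) (a (l 180019139175) (l 179482261943)))))) (c (a (c (l 178945418615) (l 178408537015)) (l 16590456)) (c (a (b (l 184314106999) (l 16582152)) (l 16582448)) (a (b (a (l 180019134503) (l 184314101959)) (a (l 182166616151) (l 16581408))) (b (l 16579184) (l 16580504)))))) (b (a (a (a (l 3) (c (l 178945411367) (c (l 177871660231) (l 180019129591)))) (c (l 177871671111) (a (c (l 175724176119) (l 182166614279)) (l 16581968)))) (l 16583744)) (a (a (c (a (l 176797930711) (l 16588792)) (c (l 177871658151) (a (l 185387838071) (l 16580880)))) (l 16583160)) (l 16582696)))) (a (b (c (l 16587088) (l 16579744)) (l 16579840)) (l 16580040)))) (a (b (a (b (c (c (l 173576706263) (l 171966080455)) (a (a (c (l 182166616647) (l 177871636503)) (l 16574384)) (l 16579016))) (l 16577360)) (l 16577648)) (l 16574328)) (l 16574152))) (b (a (b (c (l 16587952) (l 16578072)) (l 16578384)) (l 16577984)) (l 16569488))), by decide +kernel⟩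

def k73_pm_213 : ∃ t, chk3 f_pm_213 t 57 82 1 = true :=
  ⟨(a (a (l 16566584) (l 16556512)) (l 16538432)), by decide +kernel⟩

def k74_pm_213 : ∃ t, chk3 f_pm_213 t 28 83 1 = true :=
  ⟨(a (b (a (c (a (a (b (l 3) (a (l 3) (b (l 3) (a (l 3) (b (l 183240366967) (l 182166618279)))))) (b (a (l 3) (b (l 3) (a (b (l 3) (l 182703495671)) (b (l 181092883783) (l 16582520))))) (a (b (a (l 183777239111) (b (l 182703495895) (l 176797911671))) (a (l 176261039367) (l 16581368))) (b (a (l 173039816823) (l 16580792)) (l 16579256))))) (a (b (a (b (a (b (l 184850981095) (l 175724176279)) (b (l 174113565095) (l 16581640))) (l 16583248)) (l 16583928)) (l 16575968)) (l 16575648))) (a (a (b (l 3) (a (l 3) (b (l 3) (a (l 3) (b (l 182166605111) (l 171966054807)))))) (b (a (l 3) (b (l 3) (a (a (l 183777221575) (l 181629731959)) (a (l 181629731687) (l 179482247367))))) (a (b (a (l 182703477879) (b (l 181629735671) (l 170892312855))) (a (l 170892308087) (l 16572768))) (b (l 169818568359) (l 16572248))))) (a (b (a (b (a (b (l 183240353015)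 (l 175187281575)) (b (l 175187282919) (l 16575592))) (l 16571952)) (b (l 16575384) (l 16573672))) (l 16571680)) (l 16570664)))) (a (l 16567144) (l 16559344))) (a (a (a (c (b (a (b (a (l 3) (l 181092876871)) (a (b (l 180556004711) (l 176797905911)) (l 175724163879))) (b (c (l 175187300455) (l 176261028823)) (l 16580280))) (l 16578656)) (b (a (b (b (l 3) (l 178945369127)) (a (b (l 177871633767) (l 168744827143)) (l 167134213463))) (b (a (b (l 177334763863) (l 16571936)) (l 16571984)) (l 16570816))) (l 16566608))) (b (b (l 16573440) (l 16574424)) (l 16571904))) (l 16565544)) (l 16554200))) (a (l 16537200) (l 16509536))), by decide +kernel⟩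

def k75_pm_213 : ∃ t, chk3 f_pm_213 t 28 21 1 = true :=
  ⟨(a (b (a (b (a (b (l 16568848) (l 16561648)) (l 16555408)) (l 16546664)) (b (l 16539800) (l 16520440))) (a (l 16524648) (l 16490680))) (b (a (l 16500528) (l 16466936)) (l 16433200))), by decide +kernel⟩

def k76_pm_213 : ∃ t, chk3 f_pm_213 t 29 10 1 = true :=
  ⟨(b (a (b (a (b (l 16576488) (l 16543448)) (l 16534816)) (a (l 16493792) (l 16462368))) (b (a (l 16510192) (l 16493192)) (l 16503368))) (a (b (l 16411536) (l 16348160)) (b (l 16340208) (l 16265624)))), by decide +kernel⟩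

def k77_pm_213 : ∃ t, chk3 f_pm_213 t 15 10 1 = true :=
  ⟨(a (b (a (b (l 16479600) (l 16385224)) (b (l 16463408) (l 16349256))) (a (b (l 16294136) (l 16209064)) (l 16188944))) (b (a (b (l 16483680) (l 16325160)) (b (l 16677064) (l 16387632))) (a (l 16116336) (l 16068688)))), by decide +kernel⟩

def k78_pm_213 : ∃ t, chk3 f_pm_213 t 7 11 1 = true :=
  ⟨(a (a (b (a (b (l 16470616) (l 16428408)) (b (l 16383000) (l 16331736))) (b (a (l 16379608) (l 16278008)) (a (l 16326184) (l 16222352)))) (b (a (b (l 16287600) (l 16228384)) (b (l 16195600) (l 16128968))) (a (b (l 16169376) (l 16111296)) (b (l 16065192) (l 16005992))))) (a (b (a (l 16259720) (l 16012424)) (a (l 15960288) (l 15877376))) (b (l 15858576) (l 15710008)))), by decide +kernel⟩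

def k79_pm_213 : ∃ t, chk3 f_pm_213 t 4 12 1 = true :=
  ⟨(l 3), by decide +kernel⟩

def k80_pm_213 : ∃ t, chk3 f_pm_213 t 5 24 1 = true :=
  ⟨(l 3), by decide +kernel⟩

def k81_pm_213 : ∃ t, chk3 f_pm_213 t 10 25 1 = true :=
  ⟨(l 3), by decide +kernel⟩

def k82_pm_213 : ∃ t, chk3 f_pm_213 t 22 25 1 = true :=
  ⟨(l 3), by decide +kernel⟩

def k83_pm_213 : ∃ t, chk3 f_pm_213 t 23 50 1 = true :=
  ⟨(a (l 3) (b (l 3) (a (l 3) (b (l 3) (a (l 3) (b (l 3) (a (l 3) (a (l 292761626055) (b (l 286856052055) (b (a (l 281487346199) (l 220284063351)) (l 210083511095))))))))))), by decide +kernel⟩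

def k84_pm_213 : ∃ t, chk3 f_pm_213 t 46 51 1 = true :=
  ⟨(b (l 3) (a (l 3) (b (l 3) (a (l 3) (b (l 3) (b (l 3) (c (l 297593239271) (l 298130136935)))))))), by decide +kernel⟩

def k85_pm_213 : ∃ t, chk3 f_pm_213 t 47 102 1 = true :=
  ⟨(a (b (l 3) (a (l 3) (b (l 3) (a (l 3) (b (l 3) (a (l 3) (a (l 287929681319) (b (l 279876632503) (l 222431439943))))))))) (a (b (b (l 3) (a (l 3) (b (l 3) (a (l 3) (a (l 270213002583) (b (l 254106880407) (l 16351712))))))) (b (a (b (l 3) (a (l 3) (a (l 279339772311) (b (l 266991756663) (l 16338976))))) (b (a (a (l 275044817687) (b (l 261086189639) (l 16345360))) (l 16347664)) (l 191292965127))) (a (b (a (a (l 283634726839) (b (l 273434194695) (l 215989002231))) (l 198809140343)) (c (l 199345984263) (l 193977308455))) (l 16334640)))) (b (b (a (a (l 3) (b (l 294372220343) (a (b (l 294909081943) (l 244443223095)) (b (l 241222003863) (l 16364320))))) (a (b (a (b (l 287929784871) (l 230484591831)) (l 212767856375)) (l 16366552)) (l 16370320))) (a (a (b (b (l 264307440199)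 (a (l 250885661207) (l 16358032))) (l 16354000)) (l 16357840)) (l 16359880))) (b (l 16348744) (l 16339016))))), by decide +kernel⟩

def k86_pm_213 : ∃ t, chk3 f_pm_213 t 47 103 1 = true :=
  ⟨(a (a (b (b (l 3) (a (l 3) (b (l 3) (a (l 3) (a (l 3) (b (l 3) (l 252496157223))))))) (b (a (b (l 3) (c (l 289003331399) (l 289003358375))) (b (a (c (l 279339668263) (l 279339695335)) (b (a (l 255180504919) (l 16297216)) (l 16294312))) (a (b (a (l 260549200359) (l 16290552)) (l 16287640)) (l 16290592)))) (a (b (a (b (l 3) (l 279876533255)) (b (a (l 266454766567) (l 16283856)) (l 16280928))) (a (b (a (l 271823461975) (l 16277128)) (l 206862079367)) (l 16277192))) (l 16282320)))) (b (b (a (b (l 3) (a (l 3) (a (l 296519590055) (b (l 291687766407) (l 234779444151))))) (b (a (a (l 292224635719) (b (l 285782199495) (l 228337006663))) (b (l 212230887831) (l 16320672))) (a (c (l 212230855095) (l 205788443079)) (l 16316968)))) (a (b (a (a (l 3) (b (l 297593322135) (l 246590590855))) (b (a (l 238000662823) (l 16310448)) (l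 16307560))) (a (b (a (l 249274938503) (l 16303848)) (l 16300952)) (l 16303856))) (l 16308768))) (b (l 16297296) (l 16287512)))) (b (a (b (l 16323320) (l 16313560)) (l 16324496)) (l 16302216))), by decide +kernel⟩

def k87_pm_213 : ∃ t, chk3 f_pm_213 t 4 13 1 = true :=
  ⟨(l 3), by decide +kernel⟩

def k88_pm_213 : ∃ t, chk3 f_pm_213 t 10 26 1 = true :=
  ⟨(l 3), by decide +kernel⟩

def k89_pm_213 : ∃ t, chk3 f_pm_213 t 22 52 1 = true :=
  ⟨(l 3), by decide +kernel⟩

def k90_pm_213 : ∃ t, chk3 f_pm_213 t 44 53 1 = true :=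
  ⟨(l 3), by decide +kernel⟩

def k91_pm_213 : ∃ t, chk3 f_pm_213 t 45 106 1 = true :=
  ⟨(a (l 3) (b (a (l 3) (b (a (l 3) (b (a (l 3) (b (l 298129890791) (a (l 295982394935) (b (l 252495853879) (l 16154648))))) (a (b (l 300814230919) (a (l 300277346471) (b (l 256790805207) (l 16147384)))) (a (c (l 230484125911) (l 227262935207)) (l 16151568))))) (a (b (a (l 3) (b (l 302961700071) (a (l 301351080135) (b (l 261085756471) (l 16140072))))) (a (b (l 305646040055) (a (l 304572290999) (b (l 264843836407) (l 16132736)))) (b (c (l 234242193495) (l 232631616007)) (l 16135128)))) (a (a (b (c (l 233168466327) (l 230484144375)) (l 16138184)) (l 16141840)) (l 16143648))))) (a (b (a (l 3) (b (a (l 3) (b (l 307793509047) (a (l 307793501783) (b (l 274507496311) (l 234242175431))))) (a (b (l 309940977975) (a (l 311014712487) (b (l 278802446855) (l 238000255015)))) (b (a (b (l 270749391559) (l 236389650855)) (l 16123440)) (l 16120360))))) (a (b (a (l 3) (b (l 3) (a (l 3) (b (l 283097397335) (l 241758334375))))) (a (b (l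 3) (a (l 3) (b (l 287392347735) (l 244979542567)))) (b (a (b (l 285244872375) (l 243368938487)) (l 16108536)) (l 16105432)))) (b (a (b (a (b (l 280949922103) (l 239610859495)) (l 16116008)) (l 16112912)) (l 16116680)) (l 16110520)))) (b (a (b (a (b (a (b (l 266991311895) (l 232631571223)) (l 16130832)) (l 16127760)) (l 16131464)) (l 16125344)) (l 16132720)) (l 16120576))))), by decide +kernel⟩

def k92_pm_213 : ∃ t, chk3 f_pm_213 t 45 107 1 = true :=
  ⟨(a (b (a (l 3) (b (a (l 3) (b (a (l 3) (b (l 3) (c (l 283634236983) (l 283634259223)))) (a (b (l 3) (c (l 285244835047) (l 285781727687))) (b (a (b (l 292761032679) (l 249811356871)) (l 16093488)) (l 16090368))))) (a (b (a (l 3) (a (l 3) (c (l 285781698519) (l 286318591575)))) (a (a (l 3) (c (l 287929167303) (l 287929188999))) (b (a (b (l 299203453655) (l 255716907191)) (l 16078296)) (l 16075160)))) (b (a (b (a (b (l 295982243287) (l 252495696615)) (l 16085912)) (l 16082776)) (l 16086688)) (l 16080456))))) (a (b (a (l 3) (b (a (l 3) (a (l 3) (c (l 289539764039)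 (l 290076657255)))) (a (c (l 297592812295) (l 298129704471)) (b (a (b (l 304572132519) (l 261085586311)) (l 16062968)) (l 16059808))))) (b (a (a (l 3) (c (l 298666538791) (l 299740301671))) (a (b (a (b (l 307256471687) (l 263233054695)) (l 16055256)) (l 16052088)) (l 16056120))) (a (a (c (l 299740265223) (l 300814027895)) (b (a (b (l 309940811111) (l 265380522999)) (l 16047504)) (l 16044328))) (l 16049824)))) (b (a (b (a (b (a (b (l 301887793287) (l 258401246455)) (l 16070648)) (l 16067504)) (l 16071472)) (l 16065208)) (l 16073160)) (l 16060736)))) (b (a (b (a (b (a (b (a (b (l 289539822583) (l 246590147143)) (l 16101024)) (l 16097920)) (l 16101760)) (l 16095560)) (l 16103224)) (l 16090936)) (l 16106208)) (l 16082040))), by decide +kernel⟩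

def k93_pm_213 : ∃ t, chk3 f_pm_213 t 46 104 1 = true :=
  ⟨(a (l 3) (a (b (b (l 3) (a (l 3) (l 301888183031))) (a (b (l 304572499703) (b (a (l 3) (b (c (l 270212733079) (l 269675902407)) (a (b (l 272360228087) (l 238537358135)) (l 16226488)))) (a (a (c (l 273970811191) (l 273433976055)) (b (b (l 275581446279) (l 241221705239)) (l 16219496))) (l 16222272)))) (b (a (b (l 301351281271) (a (b (l 301351271047) (b (l 266454662743) (l 232631792679))) (b (b (l 263770315415) (l 16240624)) (l 16233456)))) (b (a (b (l 296519446583) (b (l 260549097175) (l 16238840))) (c (l 227263088231) (l 220820677415))) (l 16236192))) (l 16238272)))) (b (a (b (b (l 3) (l 297056354823)) (a (b (l 296519470407) (b (a (l 292224500183) (l 234242443399)) (c (l 225652486279) (l 218673203511)))) (b (a (b (l 286855805335) (l 232094966935)) (b (l 229947490455) (l 16254184))) (l 16249992)))) (b (a (b (l 291150788375) (a (b (l 282023981351) (l 226189401223)) (b (l 223505053799) (l 16261024)))) (b (b (a (l 276655286071) (l 218136358983))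 (l 210620161543)) (l 16263656))) (l 16255312))) (b (a (l 16241608) (l 16245488)) (l 16233776))))), by decide +kernel⟩

def k94_pm_213 : ∃ t, chk3 f_pm_213 t 46 105 1 = true :=
  ⟨(a (b (a (l 3) (b (a (l 3) (b (a (l 3) (a (c (l 277192022615) (l 276655177015)) (b (b (l 280950140647) (l 247127270295)) (l 16212472)))) (a (a (c (l 279876363239) (l 279876388375)) (b (b (l 286855705703) (l 252495964551)) (l 16205424))) (l 16208240)))) (a (b (a (l 3) (b (c (l 282023836407) (l 281486990519)) (a (l 271286425495) (l 16198344)))) (a (b (a (l 3) (l 273433901591)) (a (l 275581377655) (l 221894289431))) (b (l 212230623719) (l 16192848)))) (c (l 203103820471) (l 197198276631))))) (a (b (a (l 3) (b (a (l 3) (b (a (l 3) (l 277728853719)) (a (l 279876329687) (l 225652370407)))) (a (b (l 290076870039) (a (l 284171281591) (l 229947322103))) (c (l 215988671479) (l 209546260727))))) (a (b (a (l 3) (b (l 292761210343) (a (l 287929362535) (b (l 243369079959) (l 16169096))))) (a (b (l 295445550583) (a (l 292224314423) (b (l 248200902391)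 (l 16161880)))) (c (l 219746736727) (l 214914938839)))) (a (b (c (l 218136139655) (l 212230599895)) (l 16167752)) (l 16172472)))) (a (b (b (c (l 209009371287) (l 203103827591)) (l 16183168)) (l 16175864)) (l 16185152)))) (b (a (b (a (b (l 16216304) (l 16211384)) (l 16217984)) (l 16206168)) (l 16219264)) (l 16196024))), by decide +kernel⟩

def k95_pm_213 : ∃ t, chk3 f_pm_213 t 47 52 1 = true :=
  ⟨(b (a (b (a (b (a (l 16268880) (l 16272496)) (l 16260904)) (l 16272944)) (l 16250120)) (l 16273808)) (a (l 16221856) (l 16237304))), by decide +kernel⟩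

def k96_pm_213 : ∃ t, chk3 f_pm_213 t 23 53 1 = true :=
  ⟨(a (b (a (b (a (b (a (a (a (b (c (l 228336656327) (l 224041725463)) (l 16152752)) (l 16156368)) (l 16158128)) (l 16161616)) (l 16149632)) (l 16163744)) (l 16140136)) (l 16147120)) (a (l 16112336) (l 16132488))) (b (l 16194384) (l 16161192))), by decide +kernel⟩

def k97_pm_213 : ∃ t, chk3 f_pm_213 t 10 27 1 = true :=
  ⟨(a (l 3) (b (l 3) (a (l 3) (b (a (l 3) (b (a (l 3) (b (a (l 3) (b (l 317993612647) (a (l 313698629095) (b (a (l 301887464503) (l 15902728)) (l 15899440))))) (a (b (l 319067321127) (a (l 314772334535) (b (l 260011503239) (l 15882800)))) (a (b (c (l 251958457799) (l 248737248711)) (l 15887560)) (l 15893496))))) (a (b (a (l 3) (b (l 319604158471) (a (l 314772301799) (b (l 258937728871) (l 15866072))))) (a (b (l 320140995623) (a (l 314772269015) (b (l 257327082759) (l 15849256)))) (b (a (b (l 258400841127) (l 15857672)) (l 15862544)) (l 15856048)))) (b (a (b (a (b (l 259474616247) (l 15874448)) (l 15879240)) (l 15872752)) (l 15882392))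 (l 15869560))))) (a (b (a (l 3) (b (a (l 3) (b (l 320140961671) (a (l 314235364935) (l 246589633015)))) (a (b (l 320677798423) (a (l 313698460583) (l 245515857191))) (b (a (l 246052745463) (l 15828912)) (l 15822424))))) (a (b (a (l 3) (b (l 320677764103) (a (l 313161556439) (l 244442081399)))) (a (b (l 320140861975) (a (l 312624652135) (l 15782616))) (b (l 235852131111) (l 15788528)))) (b (a (b (l 236389036135) (l 15805504)) (l 15815696)) (l 15802896)))) (b (a (a (b (b (c (l 240147199591) (l 235852247303)) (l 15839272)) (l 15832480)) (l 15844672)) (l 15856152)) (l 15831168))))))), by decide +kernel⟩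

def k98_pm_213 : ∃ t, chk3 f_pm_213 t 44 54 1 = true :=
  ⟨(b (a (l 3) (b (a (l 3) (b (a (l 3) (b (c (l 306719571319) (l 307793333767)) (a (c (l 302424588791) (l 303498351031)) (b (a (l 289539687927) (l 16031912)) (l 222430816023))))) (a (b (c (l 308330152919) (l 309940785847)) (a (c (l 304572041191) (l 305645802967)) (b (a (l 292760882439) (l 16016184)) (l 225115139911)))) (b (a (b (a (l 291150285303) (l 16024064)) (l 224041413367)) (l 16025016)) (l 16018664))))) (a (b (a (l 3) (b (c (l 309940734247) (l 311551366743)) (a (b (l 3) (l 305108874343)) (b (a (l 295445205783) (l 15989840)) (l 226725721399))))) (a (b (c (l 311551315335) (l 313161947351)) (a (b (l 3) (l 307256326599)) (b (a (l 297592658103) (l 15984352)) (l 227799431895)))) (b (a (b (a (l 296518931655) (l 15992352)) (l 227262576663)) (l 15993408)) (l 15987008)))) (b (a (b (a (b (a (l 294371479511) (l 15997784)) (l 226188866055)) (l 16009272)) (l 16002896)) (l 16011416)) (l 15998784))))) (a (b (a (l 3) (b (a (l 3) (b (a (l 3) (l 309403809447))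 (a (l 309940664199) (b (a (l 299203238951) (l 15968248)) (l 228336270903))))) (a (b (l 315309356743) (a (l 311014373511) (b (a (l 300813819863) (l 15952032)) (l 15948768)))) (b (a (b (a (l 300276964887) (l 15960160)) (l 15956896)) (l 15961320)) (l 15954880))))) (a (b (a (l 3) (b (l 316383065911) (a (l 312088082567) (b (a (l 301350658391) (l 15935704)) (l 15932432))))) (a (b (l 317456774855) (a (l 313161791399) (b (a (l 301887497015) (l 15919272)) (l 15915984)))) (b (a (b (a (l 301887513191) (l 15927504)) (l 15924224)) (l 15928784)) (l 15922320)))) (b (a (b (a (b (a (l 301350674775) (l 15943888)) (l 15940608)) (l 15945104)) (l 15938648)) (l 15947736)) (l 15934960)))) (b (a (b (a (b (a (b (a (l 298666383847) (l 15976320)) (l 227799416135)) (l 15977416)) (l 15971000)) (l 15979808)) (l 15967088)) (l 15984648)) (l 15959760)))), by decide +kernel⟩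

def k99_pm_213 : ∃ t, chk3 f_pm_213 t 45 54 1 = true :=
  ⟨(b (a (b (a (b (a (b (a (b (a (l 287929090487) (l 16039728)) (l 16026048)) (l 16040632)) (l 16034312)) (l 16042552)) (l 16030008)) (l 16046432)) (l 16021832)) (l 16054440)) (a (l 15994664) (l 16019808))), by decide +kernel⟩

def k100_pm_213 : ∃ t, chk3 f_pm_213 t 23 54 1 = true :=
  ⟨(b (a (l 16088104) (l 16130352)) (l 16079688)), by decide +kernel⟩

def k101_pm_213 : ∃ t, chk3 f_pm_213 t 11 55 1 = true :=
  ⟨(a (a (b (a (b (a (b (a (b (a (b (a (l 301887480791) (l 15911016)) (l 15907728)) (l 15912368)) (l 15905888)) (l 15915256)) (l 15902440)) (l 15921128)) (l 15896096)) (l 15933264)) (a (l 15870552) (l 15900888))) (b (l 15974624) (l 15945368))) (b (l 16053088) (l 16030392))), by decide +kernel⟩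

def k102_pm_213 : ∃ t, chk3 f_pm_213 t 4 14 1 = true :=
  ⟨(b (l 3) (a (l 3) (a (l 3) (b (a (l 3) (b (l 3) (a (l 3) (b (l 3) (a (l 3) (l 345373031175)))))) (b (a (l 3) (a (b (l 3) (a (l 3) (l 352352225575))) (b (a (l 348594192711) (l 15345640)) (l 15325568)))) (l 1)))))), by decide +kernel⟩

def k103_pm_213 : ∃ t, chk3 f_pm_213 t 5 28 1 = true :=
  ⟨(a (b (a (a (l 3) (b (l 3) (b (l 3) (l 350742219431)))) (a (b (a (l 3) (b (a (l 3) (b (a (l 3) (b (l 320140828631) (a (l 311550876791) (l 15765424)))) (a (b (l 319603924071) (a (l 310477101143) (l 15748176))) (l 15756648)))) (a (b (a (l 3) (b (l 319067019719) (a (l 309940196135) (l 15730888)))) (a (b (l 318530114903) (l 260011172967)) (l 15722248))) (b (l 15743752) (l 15735328))))) (a (b (a (l 3) (b (a (l 3) (b (l 318530081239) (l 258400525239))) (a (b (l 317993176247) (l 257326748519)) (l 15687728)))) (a (b (a (l 344836664039) (b (l 317456271495) (l 255716100759))) (a (b (l 279875273607) (l 15642344)) (l 15653144))) (l 15671112))) (b (a (l 15705352) (l 15723240))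 (l 15698928)))) (b (b (a (a (b (a (l 232630874135) (l 15781952)) (l 15769200)) (l 15790072)) (l 15814744)) (l 15782400)) (b (l 15767536) (l 15753840))))) (a (a (b (l 3) (a (l 3) (b (l 3) (l 353426290487)))) (b (a (b (l 3) (l 350205208647)) (b (a (l 346984056631) (b (a (l 341078511351) (b (l 277727755207) (l 15624816))) (a (b (l 275580237127) (l 15607296)) (l 15618560)))) (a (b (a (l 339467832279) (l 264842792391)) (a (l 263769015031) (l 15584016))) (l 15602624)))) (a (b (a (l 348594525943) (b (a (l 337857153175) (l 262695237399)) (l 254105272215))) (a (b (a (l 336783345063) (l 15522712)) (l 15510416)) (l 15534496))) (b (l 15578784) (l 15566336))))) (b (a (b (a (l 15646488) (l 15684744)) (l 15652216)) (l 15735624)) (a (l 15634552) (l 15716272))))) (b (a (b (a (l 15856192) (l 15920176)) (l 15865656)) (l 15921072)) (a (b (l 15848064) (l 15836400)) (b (l 15991032) (a (l 15953104) (l 16018880)))))), by decide +kernel⟩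

def k104_pm_213 : ∃ t, chk3 f_pm_213 t 5 29 1 = true :=
  ⟨(a (b (a (a (b (a (b (l 3) (a (l 3) (l 341615062727))) (b (a (l 340541385863) (b (a (l 336246407463) (l 15487888)) (l 15476008))) (a (b (l 272895588055) (l 15441944)) (l 15467248)))) (a (b (a (l 343225611319) (b (l 272358646711) (l 15408328))) (a (l 270211107783) (l 15401472))) (l 15441336))) (b (b (l 15533608) (l 15523632)) (l 15511800))) (b (l 15660000) (l 15651144))) (a (b (b (l 15434432) (l 15451352)) (l 15449080)) (b (l 15649808) (l 15656696)))) (b (a (l 15831528) (a (b (l 15955680) (l 15940400)) (l 15964656))) (a (a (b (l 15795432) (l 15810184)) (b (l 15880880) (l 15854552))) (l 15869648)))), by decide +kernel⟩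

def k105_pm_213 : ∃ t, chk3 f_pm_213 t 2 15 1 = true :=
  ⟨(b (a (l 1) (b (a (l 1) (a (b (l 15796504) (l 1)) (l 15752280))) (l 1))) (l 1)), by decide +kernel⟩

def k106_pm_213 : ∃ t, chk3 f_pm_213 t 24 24 1 = true :=
  ⟨(b (a (l 3) (b (l 3) (a (l 3) (b (l 3) (a (l 3) (a (b (l 3) (a (l 265381555991) (b (l 251959792407) (l 16551304)))) (b (a (l 258402252519) (b (l 242296133607) (l 16560544))) (l 186461541319)))))))) (a (b (l 3) (a (l 3) (b (l 3) (a (l 3) (a (b (l 3) (l 285245618231)) (b (l 280413791047) (b (a (l 275045075927) (l 214915545575)) (c (l 207936196487) (l 201493785095))))))))) (b (a (b (l 3) (a (l 3) (a (b (l 3) (a (l 3) (b (l 3) (l 243369773959)))) (b (a (l 3) (b (l 284171984983) (l 234242988071))) (b (a (l 238537945527) (l 16517584)) (l 16512760)))))) (b (a (a (b (l 3) (a (l 279340161719) (b (l 271823973479) (l 219210621767)))) (b (a (l 272360859063) (b (l 262160316135) (l 210083835239))) (b (l 202030763847) (l 16532600)))) (b (c (l 188072121015) (l 181092838023)) (l 16535704))) (a (b (a (b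 (a (l 229411159607) (l 16527536)) (l 16522784)) (l 16525800)) (l 16516328)) (l 16522200)))) (a (b (a (a (b (l 3) (b (l 3) (l 270750140807))) (b (c (l 270213281367) (l 270213310983)) (b (a (l 257328378279) (l 16497064)) (l 193440743047)))) (b (a (a (b (l 248201602295) (l 16502272)) (l 16505104)) (l 16505856)) (l 16496112))) (a (b (a (a (b (l 266455162743) (l 210620589063)) (b (l 206325632119) (l 16481768))) (l 16485072)) (l 16475072)) (l 16482208))) (b (l 16503424) (l 16485248)))))), by decide +kernel⟩

def k107_pm_213 : ∃ t, chk3 f_pm_213 t 25 24 1 = true :=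
  ⟨(b (a (b (a (b (a (l 3) (b (l 3) (l 268602887623))) (a (a (l 3) (l 276119055735)) (a (b (l 268065999431) (a (l 234243114071) (l 199346507591))) (b (a (l 230485027447) (l 16597408)) (l 16588944))))) (b (a (a (b (l 256791742311) (b (l 221358249143) (l 16603472))) (b (l 206325868631) (l 16605088))) (l 16608296)) (a (l 16592696) (l 16591680)))) (a (b (a (a (b (l 279877125655) (a (l 251422948631) (l 217600072599))) (b (a (l 244443633815) (l 210620768231)) (l 16571832))) (b (l 16580448) (l 16571808))) (a (b (l 16573504) (l 16554208)) (l 16558768))) (b (l 16575320) (l 16558264)))) (b (a (l 16605336) (l 16590656)) (l 16572144))) (a (b (a (b (l 16541144) (l 16523480)) (l 16532440)) (l 16497552)) (b (l 16528640) (l 16495576)))), by decide +kernel⟩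

def k108_pm_213 : ∃ t, chk3 f_pm_213 t 12 25 1 = true :=
  ⟨(a (b (a (b (a (b (l 3) (a (l 3) (b (l 3) (a (l 3) (a (b (l 3) (a (l 284171780583) (l 240148378423))) (b (a (l 278803082999) (l 235316551783)) (l 197735579383))))))) (b (a (a (l 3) (b (l 294909272775) (a (b (l 3) (a (l 262697001239) (l 219210458343))) (b (b (l 255180822167) (l 222968563175)) (l 16448752))))) (b (a (a (b (l 284171859671) (b (l 249812123991) (l 210083672295))) (b (b (l 244443425895) (l 16463552)) (l 16459952))) (l 16463496)) (l 16453232))) (a (b (a (a (b (l 3) (a (l 273434385351) (l 229947854167))) (b (a (l 268065699063) (l 224579156135)) (l 16437368))) (l 16451624)) (a (b (l 188608788407) (l 16427272)) (l 16431584))) (l 16439008)))) (a (a (b (b (l 3) (a (l 3) (a (b (l 3) (l 275581799063)) (b (l 271286854135) (b (l 231558400791) (l 16400864)))))) (b (b (a (l 285245463575) (a (b (l 236390226999) (l 16394832)) (l 16397216))) (a (a (l 283634838711) (b (a (l 266991855879) (l 16391512)) (l 16388760))) (l 16391760))) (a (b (a (b (a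 (l 274508036535) (l 16385424)) (l 204714814935)) (l 16385080)) (l 16379576)) (l 16384472)))) (b (b (b (a (c (l 273971207383) (l 273971236375)) (a (l 201493664087) (l 16420960))) (a (a (a (l 3) (l 258401966023)) (b (l 213841684599) (l 16412808))) (l 16415616))) (a (b (c (l 202567366791) (l 196124953815)) (l 16403776)) (l 16408384))) (l 16392816))) (b (a (l 16416272) (l 16420112)) (l 16399304)))) (b (a (b (a (l 16461000) (l 16463696)) (l 16443784)) (l 16457968)) (a (l 16415984) (l 16421976)))) (a (b (a (b (a (b (l 16373528) (l 16363848)) (l 16373640)) (l 16352032)) (l 16371136)) (a (l 16323656) (l 16334448))) (b (l 16383248) (l 16348424)))) (b (a (b (l 16462728) (l 16428392)) (l 16446544)) (a (l 16378512) (l 16384936)))), by decide +kernel⟩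

def k109_pm_213 : ∃ t, chk3 f_pm_213 t 13 12 1 = true :=
  ⟨(b (a (b (a (b (l 16570120) (l 16539024)) (l 16509304)) (a (l 16491792) (l 16449792))) (b (a (l 16445120) (l 16364928)) (l 16351280))) (a (b (a (l 16430512) (l 16392560)) (l 16359976)) (b (a (l 16335416) (l 16260728)) (a (l 16287904) (l 16209440))))), by decide +kernel⟩

def k110_pm_213 : ∃ t, chk3 f_pm_213 t 6 13 1 = true :=
  ⟨(a (b (a (b (a (b (l 16293104) (l 16258672)) (l 16298888)) (b (l 16240896) (l 16212728))) (b (a (l 16317792) (l 16330448)) (l 16278624))) (a (b (l 16092232) (b (l 16147952) (l 16134376))) (b (a (l 16231400) (l 16204896)) (a (l 16126376) (l 16186640))))) (b (a (b (a (l 16325864) (l 16296512)) (a (l 16283872) (l 16242368))) (b (l 16195736) (l 16133368))) (b (a (l 16204152) (l 16063456)) (l 15980320)))), by decide +kernel⟩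

def k111_pm_213 : ∃ t, chk3 f_pm_213 t 7 6 1 = true :=
  ⟨(b (a (a (b (a (b (l 16271672) (l 16219376)) (b (l 16167712) (l 16115392))) (b (l 16116144) (l 16061032))) (b (a (l 16028248) (l 15923512)) (a (l 15922328) (l 15817992)))) (a (b (a (l 15850976) (l 15770384)) (a (l 15748328) (l 15672352))) (b (l 15607016) (l 15519112)))) (a (a (b (l 15970608) (l 15827424)) (b (a (l 15804760) (l 15702000)) (l 15583408))) (a (b (l 15596256) (l 15458264)) (b (l 15422000) (l 15295536))))), by decide +kernel⟩

def k112_pm_213 : ∃ t, chk3 f_pm_213 t 3 7 1 = true :=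
  ⟨(a (b (b (a (a (b (a (b (l 16098872) (l 16091384)) (l 16080344)) (b (l 16066624) (l 16028560))) (l 16070064)) (a (l 15995888) (l 15846656))) (a (a (l 15898440) (l 15860056)) (a (l 15775312) (l 15617728)))) (b (a (a (l 15644704) (l 15592304)) (b (l 15489608) (a (l 15402600) (l 15227672)))) (l 1))) (b (a (a (b (l 15644944) (l 15392680)) (b (l 15420536) (b (l 15241232) (l 15091016)))) (b (a (a (l 15313184) (l 15234008)) (b (l 15157904) (l 15028328))) (a (b (l 15075552) (l 14865528)) (l 14714088)))) (a (b (a (b (l 15173416) (l 14951152)) (l 14755720)) (a (l 14578864) (l 14254760))) (b (a (l 14511328) (l 14243192)) (a (l 13999920) (b (l 13860112) (l 13586832))))))), by decide +kernel⟩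

theorem s113_pm_213 : ∃ t, chk3 f_pm_213 t 12 24 1 = true := ex3_a k106_pm_213 k107_pm_213

theorem s114_pm_213 : ∃ t, chk3 f_pm_213 t 12 12 1 = true := ex3_b s113_pm_213 k108_pm_213

theorem s115_pm_213 : ∃ t, chk3 f_pm_213 t 6 12 1 = true := ex3_a s114_pm_213 k109_pm_213

theorem s116_pm_213 : ∃ t, chk3 f_pm_213 t 6 6 1 = true := ex3_b s115_pm_213 k110_pm_213

theorem s117_pm_213 : ∃ t, chk3 f_pm_213 t 3 6 1 = true := ex3_a s116_pm_213 k111_pm_213

theorem s118_pm_213 : ∃ t, chk3 f_pm_213 t 3 3 1 = true := ex3_b s117_pm_213 k112_pm_213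

theorem s119_pm_213 : ∃ t, chk3 f_pm_213 t 5 14 1 = true := ex3_b k103_pm_213 k104_pm_213

theorem s120_pm_213 : ∃ t, chk3 f_pm_213 t 2 14 1 = true := ex3_a k102_pm_213 s119_pm_213

theorem s121_pm_213 : ∃ t, chk3 f_pm_213 t 2 7 1 = true := ex3_b s120_pm_213 k105_pm_213

theorem s122_pm_213 : ∃ t, chk3 f_pm_213 t 22 54 1 = true := ex3_a k98_pm_213 k99_pm_213

theorem s123_pm_213 : ∃ t, chk3 f_pm_213 t 11 54 1 = true := ex3_a s122_pm_213 k100_pm_213

theorem s124_pm_213 : ∃ t, chk3 f_pm_213 t 11 27 1 = true := ex3_b s123_pm_213 k101_pm_213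

theorem s125_pm_213 : ∃ t, chk3 f_pm_213 t 5 27 1 = true := ex3_a k97_pm_213 s124_pm_213

theorem s126_pm_213 : ∃ t, chk3 f_pm_213 t 46 52 1 = true := ex3_b k93_pm_213 k94_pm_213

theorem s127_pm_213 : ∃ t, chk3 f_pm_213 t 23 52 1 = true := ex3_a s126_pm_213 k95_pm_213

theorem s128_pm_213 : ∃ t, chk3 f_pm_213 t 23 26 1 = true := ex3_b s127_pm_213 k96_pm_213

theorem s129_pm_213 : ∃ t, chk3 f_pm_213 t 45 53 1 = true := ex3_b k91_pm_213 k92_pm_213

theorem s130_pm_213 : ∃ t, chk3 f_pm_213 t 22 53 1 = true := ex3_a k90_pm_213 s129_pm_213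

theorem s131_pm_213 : ∃ t, chk3 f_pm_213 t 22 26 1 = true := ex3_b k89_pm_213 s130_pm_213

theorem s132_pm_213 : ∃ t, chk3 f_pm_213 t 11 26 1 = true := ex3_a s131_pm_213 s128_pm_213

theorem s133_pm_213 : ∃ t, chk3 f_pm_213 t 5 26 1 = true := ex3_a k88_pm_213 s132_pm_213

theorem s134_pm_213 : ∃ t, chk3 f_pm_213 t 5 13 1 = true := ex3_b s133_pm_213 s125_pm_213

theorem s135_pm_213 : ∃ t, chk3 f_pm_213 t 2 13 1 = true := ex3_a k87_pm_213 s134_pm_213

theorem s136_pm_213 : ∃ t, chk3 f_pm_213 t 47 51 1 = true := ex3_b k85_pm_213 k86_pm_213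

theorem s137_pm_213 : ∃ t, chk3 f_pm_213 t 23 51 1 = true := ex3_a k84_pm_213 s136_pm_213

theorem s138_pm_213 : ∃ t, chk3 f_pm_213 t 23 25 1 = true := ex3_b k83_pm_213 s137_pm_213

theorem s139_pm_213 : ∃ t, chk3 f_pm_213 t 11 25 1 = true := ex3_a k82_pm_213 s138_pm_213

theorem s140_pm_213 : ∃ t, chk3 f_pm_213 t 5 25 1 = true := ex3_a k81_pm_213 s139_pm_213

theorem s141_pm_213 : ∃ t, chk3 f_pm_213 t 5 12 1 = true := ex3_b k80_pm_213 s140_pm_213

theorem s142_pm_213 : ∃ t, chk3 f_pm_213 t 2 12 1 = true := ex3_a k79_pm_213 s141_pm_213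

theorem s143_pm_213 : ∃ t, chk3 f_pm_213 t 2 6 1 = true := ex3_b s142_pm_213 s135_pm_213

theorem s144_pm_213 : ∃ t, chk3 f_pm_213 t 2 3 1 = true := ex3_b s143_pm_213 s121_pm_213

theorem s145_pm_213 : ∃ t, chk3 f_pm_213 t 1 3 1 = true := ex3_a s144_pm_213 s118_pm_213

theorem s146_pm_213 : ∃ t, chk3 f_pm_213 t 56 82 1 = true := ex3_a k71_pm_213 k72_pm_213

theorem s147_pm_213 : ∃ t, chk3 f_pm_213 t 28 82 1 = true := ex3_a s146_pm_213 k73_pm_213

theorem s148_pm_213 : ∃ t, chk3 f_pm_213 t 28 41 1 = true := ex3_b s147_pm_213 k74_pm_213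

theorem s149_pm_213 : ∃ t, chk3 f_pm_213 t 113 81 1 = true := ex3_a k68_pm_213 k69_pm_213

theorem s150_pm_213 : ∃ t, chk3 f_pm_213 t 56 81 1 = true := ex3_a k67_pm_213 s149_pm_213

theorem s151_pm_213 : ∃ t, chk3 f_pm_213 t 28 81 1 = true := ex3_a s150_pm_213 k70_pm_213

theorem s152_pm_213 : ∃ t, chk3 f_pm_213 t 28 40 1 = true := ex3_b k66_pm_213 s151_pm_213

theorem s153_pm_213 : ∃ t, chk3 f_pm_213 t 28 20 1 = true := ex3_b s152_pm_213 s148_pm_213

theorem s154_pm_213 : ∃ t, chk3 f_pm_213 t 28 10 1 = true := ex3_b s153_pm_213 k75_pm_213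

theorem s155_pm_213 : ∃ t, chk3 f_pm_213 t 14 10 1 = true := ex3_a s154_pm_213 k76_pm_213

theorem s156_pm_213 : ∃ t, chk3 f_pm_213 t 7 10 1 = true := ex3_a s155_pm_213 k77_pm_213

theorem s157_pm_213 : ∃ t, chk3 f_pm_213 t 7 5 1 = true := ex3_b s156_pm_213 k78_pm_213

theorem s158_pm_213 : ∃ t, chk3 f_pm_213 t 13 22 1 = true := ex3_a k63_pm_213 k64_pm_213

theorem s159_pm_213 : ∃ t, chk3 f_pm_213 t 13 11 1 = true := ex3_b s158_pm_213 k65_pm_213

theorem s160_pm_213 : ∃ t, chk3 f_pm_213 t 6 11 1 = true := ex3_a k62_pm_213 s159_pm_213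

theorem s161_pm_213 : ∃ t, chk3 f_pm_213 t 27 43 1 = true := ex3_b k60_pm_213 k61_pm_213

theorem s162_pm_213 : ∃ t, chk3 f_pm_213 t 27 21 1 = true := ex3_b k59_pm_213 s161_pm_213

theorem s163_pm_213 : ∃ t, chk3 f_pm_213 t 27 10 1 = true := ex3_b k58_pm_213 s162_pm_213

theorem s164_pm_213 : ∃ t, chk3 f_pm_213 t 13 10 1 = true := ex3_a k57_pm_213 s163_pm_213

theorem s165_pm_213 : ∃ t, chk3 f_pm_213 t 6 10 1 = true := ex3_a k56_pm_213 s164_pm_213

theorem s166_pm_213 : ∃ t, chk3 f_pm_213 t 6 5 1 = true := ex3_b s165_pm_213 s160_pm_213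

theorem s167_pm_213 : ∃ t, chk3 f_pm_213 t 3 5 1 = true := ex3_a s166_pm_213 s157_pm_213

theorem s168_pm_213 : ∃ t, chk3 f_pm_213 t 1 5 1 = true := ex3_a k55_pm_213 s167_pm_213

theorem s169_pm_213 : ∃ t, chk3 f_pm_213 t 60 73 1 = true := ex3_b k49_pm_213 k50_pm_213

theorem s170_pm_213 : ∃ t, chk3 f_pm_213 t 60 36 1 = true := ex3_b k48_pm_213 s169_pm_213

theorem s171_pm_213 : ∃ t, chk3 f_pm_213 t 30 36 1 = true := ex3_a s170_pm_213 k51_pm_213

theorem s172_pm_213 : ∃ t, chk3 f_pm_213 t 15 36 1 = true := ex3_a s171_pm_213 k52_pm_213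

theorem s173_pm_213 : ∃ t, chk3 f_pm_213 t 15 18 1 = true := ex3_b s172_pm_213 k53_pm_213

theorem s174_pm_213 : ∃ t, chk3 f_pm_213 t 15 9 1 = true := ex3_b s173_pm_213 k54_pm_213

theorem s175_pm_213 : ∃ t, chk3 f_pm_213 t 997 272 1 = true := ex3_b k39_pm_213 k40_pm_213

theorem s176_pm_213 : ∃ t, chk3 f_pm_213 t 498 272 1 = true := ex3_a k38_pm_213 s175_pm_213

theorem s177_pm_213 : ∃ t, chk3 f_pm_213 t 498 136 1 = true := ex3_b s176_pm_213 k41_pm_213

theorem s178_pm_213 : ∃ t, chk3 f_pm_213 t 249 136 1 = true := ex3_a s177_pm_213 k42_pm_213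

theorem s179_pm_213 : ∃ t, chk3 f_pm_213 t 249 68 1 = true := ex3_b s178_pm_213 k43_pm_213

theorem s180_pm_213 : ∃ t, chk3 f_pm_213 t 496 137 1 = true := ex3_b k35_pm_213 k36_pm_213

theorem s181_pm_213 : ∃ t, chk3 f_pm_213 t 248 137 1 = true := ex3_a s180_pm_213 k37_pm_213

theorem s182_pm_213 : ∃ t, chk3 f_pm_213 t 248 68 1 = true := ex3_b k34_pm_213 s181_pm_213

theorem s183_pm_213 : ∃ t, chk3 f_pm_213 t 124 68 1 = true := ex3_a s182_pm_213 s179_pm_213

theorem s184_pm_213 : ∃ t, chk3 f_pm_213 t 124 34 1 = true := ex3_b s183_pm_213 k44_pm_213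

theorem s185_pm_213 : ∃ t, chk3 f_pm_213 t 62 34 1 = true := ex3_a s184_pm_213 k45_pm_213

theorem s186_pm_213 : ∃ t, chk3 f_pm_213 t 62 17 1 = true := ex3_b s185_pm_213 k46_pm_213

theorem s187_pm_213 : ∃ t, chk3 f_pm_213 t 31 17 1 = true := ex3_a s186_pm_213 k47_pm_213

theorem s188_pm_213 : ∃ t, chk3 f_pm_213 t 999 271 1 = true := ex3_b k30_pm_213 k31_pm_213

theorem s189_pm_213 : ∃ t, chk3 f_pm_213 t 499 271 1 = true := ex3_a k29_pm_213 s188_pm_213

theorem s190_pm_213 : ∃ t, chk3 f_pm_213 t 499 135 1 = true := ex3_b k28_pm_213 s189_pm_213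

theorem s191_pm_213 : ∃ t, chk3 f_pm_213 t 249 135 1 = true := ex3_a k27_pm_213 s190_pm_213

theorem s192_pm_213 : ∃ t, chk3 f_pm_213 t 249 67 1 = true := ex3_b k26_pm_213 s191_pm_213

theorem s193_pm_213 : ∃ t, chk3 f_pm_213 t 124 67 1 = true := ex3_a k25_pm_213 s192_pm_213

theorem s194_pm_213 : ∃ t, chk3 f_pm_213 t 124 33 1 = true := ex3_b k24_pm_213 s193_pm_213

theorem s195_pm_213 : ∃ t, chk3 f_pm_213 t 62 33 1 = true := ex3_a s194_pm_213 k32_pm_213

theorem s196_pm_213 : ∃ t, chk3 f_pm_213 t 62 16 1 = true := ex3_b k23_pm_213 s195_pm_213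

theorem s197_pm_213 : ∃ t, chk3 f_pm_213 t 31 16 1 = true := ex3_a s196_pm_213 k33_pm_213

theorem s198_pm_213 : ∃ t, chk3 f_pm_213 t 31 8 1 = true := ex3_b s197_pm_213 s187_pm_213

theorem s199_pm_213 : ∃ t, chk3 f_pm_213 t 122 35 1 = true := ex3_a k20_pm_213 k21_pm_213

theorem s200_pm_213 : ∃ t, chk3 f_pm_213 t 61 35 1 = true := ex3_a s199_pm_213 k22_pm_213

theorem s201_pm_213 : ∃ t, chk3 f_pm_213 t 247 138 1 = true := ex3_a k17_pm_213 k18_pm_213

theorem s202_pm_213 : ∃ t, chk3 f_pm_213 t 247 69 1 = true := ex3_b s201_pm_213 k19_pm_213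

theorem s203_pm_213 : ∃ t, chk3 f_pm_213 t 123 69 1 = true := ex3_a k16_pm_213 s202_pm_213

theorem s204_pm_213 : ∃ t, chk3 f_pm_213 t 123 34 1 = true := ex3_b k15_pm_213 s203_pm_213

theorem s205_pm_213 : ∃ t, chk3 f_pm_213 t 61 34 1 = true := ex3_a k14_pm_213 s204_pm_213

theorem s206_pm_213 : ∃ t, chk3 f_pm_213 t 61 17 1 = true := ex3_b s205_pm_213 s200_pm_213

theorem s207_pm_213 : ∃ t, chk3 f_pm_213 t 61 8 1 = true := ex3_b k13_pm_213 s206_pm_213

theorem s208_pm_213 : ∃ t, chk3 f_pm_213 t 30 8 1 = true := ex3_a k12_pm_213 s207_pm_213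

theorem s209_pm_213 : ∃ t, chk3 f_pm_213 t 15 8 1 = true := ex3_a s208_pm_213 s198_pm_213

theorem s210_pm_213 : ∃ t, chk3 f_pm_213 t 15 4 1 = true := ex3_b s209_pm_213 s174_pm_213

theorem s211_pm_213 : ∃ t, chk3 f_pm_213 t 239 74 1 = true := ex3_b k8_pm_213 k9_pm_213

theorem s212_pm_213 : ∃ t, chk3 f_pm_213 t 239 37 1 = true := ex3_b s211_pm_213 k10_pm_213

theorem s213_pm_213 : ∃ t, chk3 f_pm_213 t 239 18 1 = true := ex3_b k7_pm_213 s212_pm_213

theorem s214_pm_213 : ∃ t, chk3 f_pm_213 t 119 18 1 = true := ex3_a k6_pm_213 s213_pm_213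

theorem s215_pm_213 : ∃ t, chk3 f_pm_213 t 119 9 1 = true := ex3_b s214_pm_213 k11_pm_213

theorem s216_pm_213 : ∃ t, chk3 f_pm_213 t 59 9 1 = true := ex3_a k5_pm_213 s215_pm_213

theorem s217_pm_213 : ∃ t, chk3 f_pm_213 t 29 9 1 = true := ex3_a k4_pm_213 s216_pm_213

theorem s218_pm_213 : ∃ t, chk3 f_pm_213 t 14 9 1 = true := ex3_a k3_pm_213 s217_pm_213

theorem s219_pm_213 : ∃ t, chk3 f_pm_213 t 14 4 1 = true := ex3_b k2_pm_213 s218_pm_213

theorem s220_pm_213 : ∃ t, chk3 f_pm_213 t 7 4 1 = true := ex3_a s219_pm_213 s210_pm_213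

theorem s221_pm_213 : ∃ t, chk3 f_pm_213 t 3 4 1 = true := ex3_a k1_pm_213 s220_pm_213

theorem s222_pm_213 : ∃ t, chk3 f_pm_213 t 1 4 1 = true := ex3_a k0_pm_213 s221_pm_213

theorem s223_pm_213 : ∃ t, chk3 f_pm_213 t 1 2 1 = true := ex3_b s222_pm_213 s168_pm_213

theorem s224_pm_213 : ∃ t, chk3 f_pm_213 t 1 1 1 = true := ex3_b s223_pm_213 s145_pm_213

theorem c_pm_213 : CertB 0 536870912 0 1230186008 1033476505 6710887 3 eng mog cd0q2 cd4q3 pd1 false true false .pnn 2 1 3
    ndB0q2 ndB4q3 pcB1 cut_pm_213 xt_pm_213 :=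
  certB0 (fam := false) (s1 := true) (s2 := false) (a := 2) (b := 1) (c := 3) (cn := .pnn) (n1 := ndB0q2) (n2 := ndB4q3) (pc := pcB1) (cut := cut_pm_213) (xt := xt_pm_213) (P1 := 0) (W1 := 536870912) (P2 := 0) (W2 := 1230186008) (P3 := 1033476505) (W3 := 6710887) (N0 := 3) (En := eng) (mo := mog) (C1 := cd0q2) (C2 := cd4q3) (C3 := pd1)
    rfl s224_pm_213

noncomputable def f_mm_001 : ℕ → ℕ → ℕ → ℕ → Bool := onCell 0 536870912 0 536870912 1033476505 6710887
    (rowB 3 eng mog cd0q0 cd4q1 pd0 1 false false false .up 0 0 1 (qsf 0 536870912 536870912 536870912 0) ndB0q0 ndB4q1 pcB0 Cut.none Ext.none)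

def k0_mm_001 : ∃ t, chk3 f_mm_001 t 1 1 1 = true :=
  ⟨(l 3), by decide +kernel⟩

theorem c_mm_001 : CertB 0 536870912 536870912 536870912 1033476505 6710887 3 eng mog cd0q0 cd4q1 pd0 false false false .up 0 0 1
    ndB0q0 ndB4q1 pcB0 Cut.none Ext.none :=
  certB1 (fam := false) (s1 := false) (s2 := false) (a := 0) (b := 0) (c := 1) (cn := .up) (n1 := ndB0q0) (n2 := ndB4q1) (pc := pcB0) (cut := Cut.none) (xt := Ext.none) (P1 := 0) (W1 := 536870912) (P2 := 536870912) (W2 := 536870912) (P3 := 1033476505) (W3 := 6710887) (N0 := 3) (En := eng) (mo := mog) (C1 := cd0q0) (C2 := cd4q1) (C3 := pd0)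
    rfl (fun _ => rfl) k0_mm_001

noncomputable def f_mm_011 : ℕ → ℕ → ℕ → ℕ → Bool := onCell 0 536870912 536870912 536870912 1033476505 6710887
    (rowB 3 eng mog cd0q0 cd4q1 pd1 1 false false false .pnn 0 1 1 (qsf 0 536870912 536870912 536870912 1) ndB0q0 ndB4q1 pcB1 Cut.none Ext.none)

def k0_mm_011 : ∃ t, chk3 f_mm_011 t 1 1 1 = true :=
  ⟨(l 5), by decide +kernel⟩

theorem c_mm_011 : CertB 0 536870912 536870912 536870912 1033476505 6710887 3 eng mog cd0q0 cd4q1 pd1 false false false .pnn 0 1 1
    ndB0q0 ndB4q1 pcB1 Cut.none Ext.none :=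
  certB1 (fam := false) (s1 := false) (s2 := false) (a := 0) (b := 1) (c := 1) (cn := .pnn) (n1 := ndB0q0) (n2 := ndB4q1) (pc := pcB1) (cut := Cut.none) (xt := Ext.none) (P1 := 0) (W1 := 536870912) (P2 := 536870912) (W2 := 536870912) (P3 := 1033476505) (W3 := 6710887) (N0 := 3) (En := eng) (mo := mog) (C1 := cd0q0) (C2 := cd4q1) (C3 := pd1)
    rfl (fun _ => rfl) k0_mm_011

noncomputable def f_mm_012 : ℕ → ℕ → ℕ → ℕ → Bool := onCell 0 536870912 1073741824 536870912 1033476505 6710887
    (rowB 3 eng mog cd0q0 cd4q2 pd1 0 false false false .pnp 0 1 2 (qsf 0 536870912 1073741824 536870912 1) ndB0q0 ndB4q2 pcB1 Cut.none Ext.none)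

def k0_mm_012 : ∃ t, chk3 f_mm_012 t 1 1 1 = true :=
  ⟨(l 5), by decide +kernel⟩

theorem c_mm_012 : CertB 0 536870912 1073741824 536870912 1033476505 6710887 3 eng mog cd0q0 cd4q2 pd1 false false false .pnp 0 1 2
    ndB0q0 ndB4q2 pcB1 Cut.none Ext.none :=
  certB0 (fam := false) (s1 := false) (s2 := false) (a := 0) (b := 1) (c := 2) (cn := .pnp) (n1 := ndB0q0) (n2 := ndB4q2) (pc := pcB1) (cut := Cut.none) (xt := Ext.none) (P1 := 0) (W1 := 536870912) (P2 := 1073741824) (W2 := 536870912) (P3 := 1033476505) (W3 := 6710887) (N0 := 3) (En := eng) (mo := mog) (C1 := cd0q0) (C2 := cd4q2) (C3 := pd1)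
    rfl k0_mm_012

noncomputable def f_mm_022 : ℕ → ℕ → ℕ → ℕ → Bool := onCell 0 536870912 1073741824 536870912 1033476505 6710887
    (rowB 3 eng mog cd0q0 cd4q2 pd2 0 false false false .pp 0 2 2 (qsf 0 536870912 1073741824 536870912 2) ndB0q0 ndB4q2 pcB2 Cut.none Ext.none)

def k0_mm_022 : ∃ t, chk3 f_mm_022 t 1 1 1 = true :=
  ⟨(l 5), by decide +kernel⟩

theorem c_mm_022 : CertB 0 536870912 1073741824 536870912 1033476505 6710887 3 eng mog cd0q0 cd4q2 pd2 false false false .pp 0 2 2
    ndB0q0 ndB4q2 pcB2 Cut.none Ext.none :=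
  certB0 (fam := false) (s1 := false) (s2 := false) (a := 0) (b := 2) (c := 2) (cn := .pp) (n1 := ndB0q0) (n2 := ndB4q2) (pc := pcB2) (cut := Cut.none) (xt := Ext.none) (P1 := 0) (W1 := 536870912) (P2 := 1073741824) (W2 := 536870912) (P3 := 1033476505) (W3 := 6710887) (N0 := 3) (En := eng) (mo := mog) (C1 := cd0q0) (C2 := cd4q2) (C3 := pd2)
    rfl k0_mm_022

noncomputable def f_mm_023 : ℕ → ℕ → ℕ → ℕ → Bool := onCell 0 536870912 0 1230186008 1033476505 6710887
    (rowB 3 eng mog cd0q0 cd4q3 pd2 0 false false false .up 0 2 3 (qsf 0 536870912 0 1230186008 2) ndB0q0 ndB4q3 pcB2 Cut.none Ext.none)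

def k0_mm_023 : ∃ t, chk3 f_mm_023 t 1 1 1 = true :=
  ⟨(l 5), by decide +kernel⟩

theorem c_mm_023 : CertB 0 536870912 0 1230186008 1033476505 6710887 3 eng mog cd0q0 cd4q3 pd2 false false false .up 0 2 3
    ndB0q0 ndB4q3 pcB2 Cut.none Ext.none :=
  certB0 (fam := false) (s1 := false) (s2 := false) (a := 0) (b := 2) (c := 3) (cn := .up) (n1 := ndB0q0) (n2 := ndB4q3) (pc := pcB2) (cut := Cut.none) (xt := Ext.none) (P1 := 0) (W1 := 536870912) (P2 := 0) (W2 := 1230186008) (P3 := 1033476505) (W3 := 6710887) (N0 := 3) (En := eng) (mo := mog) (C1 := cd0q0) (C2 := cd4q3) (C3 := pd2)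
    rfl k0_mm_023

noncomputable def f_mm_033 : ℕ → ℕ → ℕ → ℕ → Bool := onCell 0 536870912 0 1230186008 1033476505 6710887
    (rowB 3 eng mog cd0q0 cd4q3 pd3 0 false false false .pnn 0 3 3 (qsf 0 536870912 0 1230186008 3) ndB0q0 ndB4q3 pcB3 Cut.none Ext.none)

def k0_mm_033 : ∃ t, chk3 f_mm_033 t 1 1 1 = true :=
  ⟨(l 5), by decide +kernel⟩

theorem c_mm_033 : CertB 0 536870912 0 1230186008 1033476505 6710887 3 eng mog cd0q0 cd4q3 pd3 false false false .pnn 0 3 3
    ndB0q0 ndB4q3 pcB3 Cut.none Ext.none :=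
  certB0 (fam := false) (s1 := false) (s2 := false) (a := 0) (b := 3) (c := 3) (cn := .pnn) (n1 := ndB0q0) (n2 := ndB4q3) (pc := pcB3) (cut := Cut.none) (xt := Ext.none) (P1 := 0) (W1 := 536870912) (P2 := 0) (W2 := 1230186008) (P3 := 1033476505) (W3 := 6710887) (N0 := 3) (En := eng) (mo := mog) (C1 := cd0q0) (C2 := cd4q3) (C3 := pd3)
    rfl k0_mm_033

noncomputable def cut_mm_101 : Cut := Cut.of [[⟨0, 1, 0, 33554432⟩, ⟨1, 0, 0, 33554432⟩, ⟨2, 1, 0, 33554432⟩]]

noncomputable def f_mm_101 : ℕ → ℕ → ℕ → ℕ → Bool := onCell 536870912 536870912 0 536870912 1033476505 6710887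
    (rowB 3 eng mog cd0q1 cd4q1 pd0 1 false false false .npn 1 0 1 (qsf 536870912 536870912 536870912 536870912 0) ndB0q1 ndB4q1 pcB0 cut_mm_101 Ext.none)

def k0_mm_101 : ∃ t, chk3 f_mm_101 t 1 1 1 = true :=
  ⟨(a (l 3) (b (a (l 3) (b (a (l 3) (b (a (l 3) (b (b (a (l 3) (l 6)) (l 3)) (l 3))) (l 3))) (l 3))) (l 3))), by decide +kernel⟩

theorem c_mm_101 : CertB 536870912 536870912 536870912 536870912 1033476505 6710887 3 eng mog cd0q1 cd4q1 pd0 false false false .npn 1 0 1
    ndB0q1 ndB4q1 pcB0 cut_mm_101 Ext.none :=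
  certB1 (fam := false) (s1 := false) (s2 := false) (a := 1) (b := 0) (c := 1) (cn := .npn) (n1 := ndB0q1) (n2 := ndB4q1) (pc := pcB0) (cut := cut_mm_101) (xt := Ext.none) (P1 := 536870912) (W1 := 536870912) (P2 := 536870912) (W2 := 536870912) (P3 := 1033476505) (W3 := 6710887) (N0 := 3) (En := eng) (mo := mog) (C1 := cd0q1) (C2 := cd4q1) (C3 := pd0)
    rfl (fun _ => rfl) k0_mm_101

noncomputable def f_mm_102 : ℕ → ℕ → ℕ → ℕ → Bool := onCell 536870912 536870912 1073741824 536870912 1033476505 6710887
    (rowB 3 eng mog cd0q1 cd4q2 pd0 0 false false false .npp 1 0 2 (qsf 536870912 536870912 1073741824 536870912 0) ndB0q1 ndB4q2 pcB0 Cut.none Ext.none)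

def k0_mm_102 : ∃ t, chk3 f_mm_102 t 1 1 1 = true :=
  ⟨(l 3), by decide +kernel⟩

theorem c_mm_102 : CertB 536870912 536870912 1073741824 536870912 1033476505 6710887 3 eng mog cd0q1 cd4q2 pd0 false false false .npp 1 0 2
    ndB0q1 ndB4q2 pcB0 Cut.none Ext.none :=
  certB0 (fam := false) (s1 := false) (s2 := false) (a := 1) (b := 0) (c := 2) (cn := .npp) (n1 := ndB0q1) (n2 := ndB4q2) (pc := pcB0) (cut := Cut.none) (xt := Ext.none) (P1 := 536870912) (W1 := 536870912) (P2 := 1073741824) (W2 := 536870912) (P3 := 1033476505) (W3 := 6710887) (N0 := 3) (En := eng) (mo := mog) (C1 := cd0q1) (C2 := cd4q2) (C3 := pd0)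
    rfl k0_mm_102

noncomputable def f_mm_112 : ℕ → ℕ → ℕ → ℕ → Bool := onCell 536870912 536870912 1073741824 536870912 1033476505 6710887
    (rowB 3 eng mog cd0q1 cd4q2 pd1 0 false false false .dn 1 1 2 (qsf 536870912 536870912 1073741824 536870912 1) ndB0q1 ndB4q2 pcB1 Cut.none Ext.none)

def k0_mm_112 : ∃ t, chk3 f_mm_112 t 1 1 1 = true :=
  ⟨(l 3), by decide +kernel⟩

theorem c_mm_112 : CertB 536870912 536870912 1073741824 536870912 1033476505 6710887 3 eng mog cd0q1 cd4q2 pd1 false false false .dn 1 1 2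
    ndB0q1 ndB4q2 pcB1 Cut.none Ext.none :=
  certB0 (fam := false) (s1 := false) (s2 := false) (a := 1) (b := 1) (c := 2) (cn := .dn) (n1 := ndB0q1) (n2 := ndB4q2) (pc := pcB1) (cut := Cut.none) (xt := Ext.none) (P1 := 536870912) (W1 := 536870912) (P2 := 1073741824) (W2 := 536870912) (P3 := 1033476505) (W3 := 6710887) (N0 := 3) (En := eng) (mo := mog) (C1 := cd0q1) (C2 := cd4q2) (C3 := pd1)
    rfl k0_mm_112

noncomputable def f_mm_113 : ℕ → ℕ → ℕ → ℕ → Bool := onCell 536870912 536870912 0 1230186008 1033476505 6710887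
    (rowB 3 eng mog cd0q1 cd4q3 pd1 0 false false false .nn 1 1 3 (qsf 536870912 536870912 0 1230186008 1) ndB0q1 ndB4q3 pcB1 Cut.none Ext.none)

def k0_mm_113 : ∃ t, chk3 f_mm_113 t 1 1 1 = true :=
  ⟨(b (l 5) (b (l 5) (a (l 5) (l 3)))), by decide +kernel⟩

theorem c_mm_113 : CertB 536870912 536870912 0 1230186008 1033476505 6710887 3 eng mog cd0q1 cd4q3 pd1 false false false .nn 1 1 3
    ndB0q1 ndB4q3 pcB1 Cut.none Ext.none :=
  certB0 (fam := false) (s1 := false) (s2 := false) (a := 1) (b := 1) (c := 3) (cn := .nn) (n1 := ndB0q1) (n2 := ndB4q3) (pc := pcB1) (cut := Cut.none) (xt := Ext.none) (P1 := 536870912) (W1 := 536870912) (P2 := 0) (W2 := 1230186008) (P3 := 1033476505) (W3 := 6710887) (N0 := 3) (En := eng) (mo := mog) (C1 := cd0q1) (C2 := cd4q3) (C3 := pd1)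
    rfl k0_mm_113

noncomputable def f_mm_123 : ℕ → ℕ → ℕ → ℕ → Bool := onCell 1073741824 536870912 0 1230186008 1033476505 6710887
    (rowB 3 eng mog cd0q1 cd4q3 pd2 2 false false false .npn 1 2 3 (qsf 536870912 536870912 0 1230186008 2) ndB0q1 ndB4q3 pcB2 Cut.none Ext.none)

def k0_mm_123 : ∃ t, chk3 f_mm_123 t 1 1 1 = true :=
  ⟨(b (l 5) (l 5)), by decide +kernel⟩

theorem c_mm_123 : CertB 536870912 536870912 0 1230186008 1033476505 6710887 3 eng mog cd0q1 cd4q3 pd2 false false false .npn 1 2 3
    ndB0q1 ndB4q3 pcB2 Cut.none Ext.none :=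
  certB2 (fam := false) (s1 := false) (s2 := false) (a := 1) (b := 2) (c := 3) (cn := .npn) (n1 := ndB0q1) (n2 := ndB4q3) (pc := pcB2) (cut := Cut.none) (xt := Ext.none) (P1 := 536870912) (W1 := 536870912) (P2 := 0) (W2 := 1230186008) (P3 := 1033476505) (W3 := 6710887) (N0 := 3) (En := eng) (mo := mog) (C1 := cd0q1) (C2 := cd4q3) (C3 := pd2)
    rfl (fun _ => rfl) k0_mm_123

noncomputable def f_mm_133 : ℕ → ℕ → ℕ → ℕ → Bool := onCell 1610612736 536870912 0 1230186008 1033476505 6710887
    (rowB 3 eng mog cd0q1 cd4q3 pd3 2 false false false .dn 1 3 3 (qsf 536870912 536870912 0 1230186008 3) ndB0q1 ndB4q3 pcB3 Cut.none Ext.none)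

def k0_mm_133 : ∃ t, chk3 f_mm_133 t 1 1 1 = true :=
  ⟨(l 5), by decide +kernel⟩

theorem c_mm_133 : CertB 536870912 536870912 0 1230186008 1033476505 6710887 3 eng mog cd0q1 cd4q3 pd3 false false false .dn 1 3 3
    ndB0q1 ndB4q3 pcB3 Cut.none Ext.none :=
  certB2 (fam := false) (s1 := false) (s2 := false) (a := 1) (b := 3) (c := 3) (cn := .dn) (n1 := ndB0q1) (n2 := ndB4q3) (pc := pcB3) (cut := Cut.none) (xt := Ext.none) (P1 := 536870912) (W1 := 536870912) (P2 := 0) (W2 := 1230186008) (P3 := 1033476505) (W3 := 6710887) (N0 := 3) (En := eng) (mo := mog) (C1 := cd0q1) (C2 := cd4q3) (C3 := pd3)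
    rfl (fun _ => rfl) k0_mm_133

noncomputable def f_mm_202 : ℕ → ℕ → ℕ → ℕ → Bool := onCell 0 536870912 0 536870912 1033476505 6710887
    (rowB 3 eng mog cd0q2 cd4q2 pd0 1 false false false .pp 2 0 2 (qsf 0 536870912 1073741824 536870912 0) ndB0q2 ndB4q2 pcB0 Cut.none Ext.none)

def k0_mm_202 : ∃ t, chk3 f_mm_202 t 2 4 1 = true :=
  ⟨(a (a (b (b (b (l 16369664) (a (b (l 16229904) (l 16171496)) (b (b (l 16301376) (l 16263016)) (b (a (l 16213264) (l 16244968)) (l 16218568))))) (b (b (l 16114272) (a (a (l 16108192) (l 16129248)) (l 16165808))) (a (b (l 16039584) (l 15964744)) (b (l 16096728) (a (l 16017512) (l 16056752)))))) (b (b (a (l 15876336) (a (b (l 15963224) (l 15919016)) (l 15973696))) (a (a (l 15760288) (l 15814792)) (b (l 15882952) (l 15845152)))) (a (b (a (l 15692736) (l 15726232)) (l 15633824)) (b (b (l 15803480) (l 15765736)) (a (l 15691728) (b (l 15740000) (l 15669400))))))) (b (a (b (b (b (b (l 16436576) (l 16472280)) (a (l 16411440) (l 16443272))) (b (l 16351424) (l 16308552))) (b (b (l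 16278728) (a (l 16216464) (b (l 16248088) (l 16215728)))) (a (b (l 16144576) (l 16084288)) (b (l 16173664) (l 16120744))))) (b (b (b (a (l 16401824) (l 16359488)) (a (l 16466200) (l 16414016))) (b (a (l 16437272) (l 16478592)) (a (l 16385080) (a (l 16403936) (l 16413616))))) (b (b (a (l 16296864) (l 16316048)) (a (l 16261744) (l 16274792))) (a (b (l 16201288) (l 16141016)) (l 16178752))))) (b (b (a (a (l 16010336) (b (l 16070112) (l 16018080))) (l 171964829623)) (a (b (a (l 15948648) (l 15967032)) (a (l 15897880) (l 15921040))) (b (l 174649083207) (l 175722719783)))) (b (a (b (a (l 15849584) (l 15864512)) (a (l 15796976) (l 15797560))) (a (l 264306145255) (l 3))) (a (a (l 15703136) (a (l 15689528) (l 15685752))) (l 3)))))) (a (a (b (b (b (b (a (l 16323264) (l 16324376)) (l 135458464983)) (l 169818062631)) (l 197734845127)) (l 3)) (l 3)) (l 3))), by decide +kernel⟩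

def k1_mm_202 : ∃ t, chk3 f_mm_202 t 16 10 1 = true :=
  ⟨(b (a (l 15522480) (a (l 15550344) (b (l 15598792) (a (l 15556856) (l 15517912))))) (b (a (b (l 15456232) (l 15432416)) (a (b (l 15481464) (a (l 15447856) (l 15435280))) (b (l 15491984) (l 15405032)))) (a (a (b (l 15402536) (l 15377480)) (a (b (l 15413984) (l 15370680)) (l 15357504))) (l 15325024)))), by decide +kernel⟩

def k2_mm_202 : ∃ t, chk3 f_mm_202 t 16 22 1 = true :=
  ⟨(b (b (a (a (a (l 15347664) (l 15330816)) (l 15295168)) (l 15224368)) (l 15102672)) (a (l 15163752) (b (l 15054592) (a (l 15061824) (b (l 15027808) (l 14999640)))))), by decide +kernel⟩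

def k3_mm_202 : ∃ t, chk3 f_mm_202 t 16 23 1 = true :=
  ⟨(b (a (b (l 15079296) (l 15028832)) (a (b (l 15007552) (b (l 14970472) (l 14947720))) (b (b (c (l 14979760) (l 14965856)) (a (l 14959264) (a (l 14941520) (c (b (a (l 14945744) (l 179478991783)) (c (a (l 177868366695) (l 184847688455)) (l 175184005927))) (l 178942094855))))) (a (b (c (l 14942376) (l 14928344)) (a (l 14918904) (c (b (a (l 14922664) (b (l 14919592) (l 176794591959))) (a (b (l 14914648) (l 176257711959)) (l 169278390935))) (l 178405182647)))) (c (c (b (a (b (a (l 14936992) (l 177868355671)) (a (l 177868345431) (l 176794602199))) (b (a (l 180552709527) (l 3)) (l 3))) (a (b (a (l 173036495943) (l 3)) (l 3)) (l 3))) (b (a (b (l 14927328) (l 174647112551)) (l 175183978199)) (l 167130894871))) (b (a (l 178405201863) (l 14907832)) (l 166594010455))))))) (a (a (b (l 15006656) (l 14967808)) (b (l 14961712) (b (l 14933544) (l 14917208)))) (a (b (b (c (l 14933816) (l 14919592)) (a (l 14918592) (a (l 14901984) (c (b (a (l 14905296) (a (l 14901136)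 (l 164983401079))) (a (c (l 161762170615) (l 14893336)) (l 166594006791))) (l 162835896919))))) (a (b (l 14901128) (a (l 14890968) (c (b (a (l 14893856) (l 149414126295)) (a (l 145119156359) (l 164983375991))) (l 14875200)))) (c (b (a (b (a (l 14898824) (c (l 157467198071) (l 14890376))) (a (c (l 153172226295) (l 14887792)) (l 165520254231))) (c (l 164446513991) (l 164983370887))) (l 163909616871)) (b (a (l 14879640) (l 14875704)) (l 14871264))))) (b (a (c (b (a (b (a (l 14913248) (a (l 14908992) (l 173036479271))) (a (a (l 14904880) (l 169278375415)) (l 167667761575))) (c (b (l 166594027543) (l 3)) (l 166057136407))) (a (b (l 166057142055) (l 3)) (l 3))) (b (a (l 170888973271) (l 14888768)) (l 165520237815))) (l 3)) (l 3))))), by decide +kernel⟩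

def k4_mm_202 : ∃ t, chk3 f_mm_202 t 17 10 1 = true :=
  ⟨(b (b (a (a (l 15595664) (b (l 15647872) (l 15599704))) (b (l 15631936) (l 15564360))) (a (b (a (b (l 15573648) (l 15548888)) (l 15536584)) (l 15484816)) (b (l 15471360) (l 15396424)))) (b (b (b (l 15375600) (b (l 15347920) (b (l 15334048) (l 132234986583)))) (a (l 15343864) (a (l 15283208) (a (b (l 15272680) (l 15234280)) (b (a (l 15258880) (l 15254320)) (l 205786238455)))))) (a (b (l 15230008) (l 15158592)) (a (b (b (l 15226336) (a (l 15199512) (a (l 15183272) (l 15173488)))) (a (b (l 15162520) (b (l 15135128) (l 169815682647))) (b (a (l 167131378407) (l 226724041431)) (l 234777055959)))) (b (a (b (a (l 15201008) (l 15196152)) (l 220281642807)) (l 3)) (l 3)))))), by decide +kernel⟩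

def k5_mm_202 : ∃ t, chk3 f_mm_202 t 17 11 1 = true :=
  ⟨(b (a (b (a (b (l 15153952) (b (l 15103656) (l 15071104))) (b (b (l 15124744) (a (l 15101792) (a (l 15084224) (b (l 15081256) (l 173036809319))))) (a (b (l 15068064) (a (l 15041208) (a (l 15032384) (b (l 15034584) (l 228334423127))))) (b (a (b (l 15058800) (c (l 173036765479) (l 15037096))) (l 233703177543)) (c (l 226186942743) (l 221891949399)))))) (a (b (b (l 15039496) (a (l 15020984) (a (l 15002912) (b (l 180552855031) (c (a (l 14993392) (l 213838833959)) (l 14978520)))))) (a (b (l 14991640) (a (l 14969600) (c (b (l 179479046951) (a (l 14960944) (l 199880126647))) (l 178942147719)))) (b (c (a (b (l 14987728) (a (l 14976512) (l 207396350375))) (b (l 209006979655) (l 3))) (a (l 14968240) (l 14963128))) (c (a (c (b (l 202027626135) (l 3)) (l 197195760695)) (l 3)) (l 195048264439))))) (b (a (b (a (b (l 15017416) (a (l 15004880) (l 221891933943))) (c (l 219744453079) (l 14998912))) (b (c (l 215449465591) (l 14984696)) (l 3))) (l 3)) (l 3)))) (b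 (b (a (a (b (a (b (l 15104840) (l 171426241703)) (l 241756329495)) (l 240145672039)) (l 3)) (l 3)) (l 3)) (l 3))) (b (a (a (b (a (c (b (a (b (a (l 14959360) (l 179479017527)) (a (l 179479004311) (l 192363906295))) (c (b (l 194511403847) (l 3)) (l 190216411143))) (a (c (b (a (l 188605796535) (l 3)) (l 3)) (l 182700193623)) (l 3))) (b (a (l 178942119751) (l 14932688)) (l 180552696455))) (l 3)) (l 3)) (l 3)) (l 3)) (l 3))), by decide +kernel⟩

def k6_mm_202 : ∃ t, chk3 f_mm_202 t 9 5 1 = true :=
  ⟨(a (b (b (b (a (b (l 15594136) (l 125256034583)) (l 442009854919)) (a (a (b (b (l 15468744) (l 15428952)) (a (b (l 15396040) (l 15356152)) (b (l 162836886663) (l 15347976)))) (b (b (l 154783963015) (l 477980162087)) (l 3))) (l 3))) (b (a (b (a (a (b (l 164447373575) (l 15284520)) (l 3)) (l 3)) (l 3)) (l 3)) (l 3))) (l 3)) (l 3)), by decide +kernel⟩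

def k7_mm_202 : ∃ t, chk3 f_mm_202 t 5 5 1 = true :=
  ⟨(l 3), by decide +kernel⟩

def k8_mm_202 : ∃ t, chk3 f_mm_202 t 2 3 1 = true :=
  ⟨(b (b (a (a (a (b (b (a (a (b (l 14936152) (l 14910240)) (b (b (c (l 14910088) (l 14895688)) (a (l 14899864) (a (l 14885160) (c (b (l 142971667943) (a (l 14882760) (l 14880888))) (l 14870112))))) (b (a (l 14887880) (a (c (b (l 141897923591) (l 166057115159)) (l 14868456)) (l 162299011655))) (a (a (l 14881632) (c (b (l 14882768) (l 164983371495)) (l 14867304))) (l 161225234215))))) (b (a (b (a (c (a (b (a (l 14890408) (l 140824186887)) (a (l 14884744) (l 14882704))) (l 163372760935)) (a (l 14872240) (l 14868736))) (l 3)) (l 163372721831)) (l 3)) (l 3))) (a (a (b (a (l 14897544) (a (l 14884600) (b (l 14880608) (a (l 141361053223) (l 136529214807))))) (a (b (l 14884056) (a (l 14880368) (c (l 162835895815) (l 14867440)))) (c (b (a (l 138139831767) (l 14878816)) (l 3)) (l 162835879143)))) (b (a (a (b (b (l 141897922103) (l 164983371511)) (l 160151523959)) (l 160688399735))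 (l 3)) (l 3))) (l 3))) (a (b (a (b (c (a (b (a (l 161762156983) (l 3)) (l 3)) (l 3)) (l 161225273479)) (l 3)) (l 3)) (l 3)) (l 3))) (l 3)) (l 3)) (l 3)) (l 3)) (l 3)), by decide +kernel⟩

def k9_mm_202 : ∃ t, chk3 f_mm_202 t 3 1 1 = true :=
  ⟨(l 3), by decide +kernel⟩

theorem s10_mm_202 : ∃ t, chk3 f_mm_202 t 17 5 1 = true := ex3_b k4_mm_202 k5_mm_202

theorem s11_mm_202 : ∃ t, chk3 f_mm_202 t 16 11 1 = true := ex3_b k2_mm_202 k3_mm_202

theorem s12_mm_202 : ∃ t, chk3 f_mm_202 t 16 5 1 = true := ex3_b k1_mm_202 s11_mm_202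

theorem s13_mm_202 : ∃ t, chk3 f_mm_202 t 8 5 1 = true := ex3_a s12_mm_202 s10_mm_202

theorem s14_mm_202 : ∃ t, chk3 f_mm_202 t 4 5 1 = true := ex3_a s13_mm_202 k6_mm_202

theorem s15_mm_202 : ∃ t, chk3 f_mm_202 t 2 5 1 = true := ex3_a s14_mm_202 k7_mm_202

theorem s16_mm_202 : ∃ t, chk3 f_mm_202 t 2 2 1 = true := ex3_b k0_mm_202 s15_mm_202

theorem s17_mm_202 : ∃ t, chk3 f_mm_202 t 2 1 1 = true := ex3_b s16_mm_202 k8_mm_202

theorem s18_mm_202 : ∃ t, chk3 f_mm_202 t 1 1 1 = true := ex3_a s17_mm_202 k9_mm_202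

theorem c_mm_202 : CertB 0 536870912 1073741824 536870912 1033476505 6710887 3 eng mog cd0q2 cd4q2 pd0 false false false .pp 2 0 2
    ndB0q2 ndB4q2 pcB0 Cut.none Ext.none :=
  certB1 (fam := false) (s1 := false) (s2 := false) (a := 2) (b := 0) (c := 2) (cn := .pp) (n1 := ndB0q2) (n2 := ndB4q2) (pc := pcB0) (cut := Cut.none) (xt := Ext.none) (P1 := 0) (W1 := 536870912) (P2 := 1073741824) (W2 := 536870912) (P3 := 1033476505) (W3 := 6710887) (N0 := 3) (En := eng) (mo := mog) (C1 := cd0q2) (C2 := cd4q2) (C3 := pd0)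
    rfl (fun _ => rfl) s18_mm_202

noncomputable def f_mm_203 : ℕ → ℕ → ℕ → ℕ → Bool := onCell 0 536870912 0 1230186008 1033476505 6710887
    (rowB 3 eng mog cd0q2 cd4q3 pd0 0 false false false .up 2 0 3 (qsf 0 536870912 0 1230186008 0) ndB0q2 ndB4q3 pcB0 Cut.none Ext.none)

def k0_mm_203 : ∃ t, chk3 f_mm_203 t 1 1 1 = true :=
  ⟨(b (l 2) (a (b (l 2) (l 3)) (l 3))), by decide +kernel⟩

theorem c_mm_203 : CertB 0 536870912 0 1230186008 1033476505 6710887 3 eng mog cd0q2 cd4q3 pd0 false false false .up 2 0 3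
    ndB0q2 ndB4q3 pcB0 Cut.none Ext.none :=
  certB0 (fam := false) (s1 := false) (s2 := false) (a := 2) (b := 0) (c := 3) (cn := .up) (n1 := ndB0q2) (n2 := ndB4q3) (pc := pcB0) (cut := Cut.none) (xt := Ext.none) (P1 := 0) (W1 := 536870912) (P2 := 0) (W2 := 1230186008) (P3 := 1033476505) (W3 := 6710887) (N0 := 3) (En := eng) (mo := mog) (C1 := cd0q2) (C2 := cd4q3) (C3 := pd0)
    rfl k0_mm_203

noncomputable def f_mm_213 : ℕ → ℕ → ℕ → ℕ → Bool := onCell 0 536870912 0 1230186008 1033476505 6710887
    (rowB 3 eng mog cd0q2 cd4q3 pd1 0 false false false .pnn 2 1 3 (qsf 0 536870912 0 1230186008 1) ndB0q2 ndB4q3 pcB1 Cut.none Ext.none)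

def k0_mm_213 : ∃ t, chk3 f_mm_213 t 1 1 1 = true :=
  ⟨(b (b (a (l 3) (l 5)) (l 3)) (a (b (l 3) (l 3)) (l 3))), by decide +kernel⟩

theorem c_mm_213 : CertB 0 536870912 0 1230186008 1033476505 6710887 3 eng mog cd0q2 cd4q3 pd1 false false false .pnn 2 1 3
    ndB0q2 ndB4q3 pcB1 Cut.none Ext.none :=
  certB0 (fam := false) (s1 := false) (s2 := false) (a := 2) (b := 1) (c := 3) (cn := .pnn) (n1 := ndB0q2) (n2 := ndB4q3) (pc := pcB1) (cut := Cut.none) (xt := Ext.none) (P1 := 0) (W1 := 536870912) (P2 := 0) (W2 := 1230186008) (P3 := 1033476505) (W3 := 6710887) (N0 := 3) (En := eng) (mo := mog) (C1 := cd0q2) (C2 := cd4q3) (C3 := pd1)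
    rfl k0_mm_213

end Pool.Agent.Strip051.G.I9625_9688.Tab.C.BB04

namespace Pool.Agent.Strip051.G.I9625_9688.Tab.C.BB05

open Pool.Agent.Strip051.PB Pool.Agent.Strip051.PB.T
open Pool.Agent.Strip051.G.I9625_9688.Tab

noncomputable def cut_pp_001 : Cut := Cut.of [[⟨3, 0, 0, 1449551462⟩]]

noncomputable def f_pp_001 : ℕ → ℕ → ℕ → ℕ → Bool := onCell 0 536870912 536870912 536870912 1033476505 6710887
    (rowB 3 eng mog cd0q0 cd5q1 pd0 0 false true true .up 0 0 1 (qsf 0 536870912 536870912 536870912 0) ndB0q0 ndB5q1 pcB0 cut_pp_001 Ext.none)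

def k0_pp_001 : ∃ t, chk3 f_pp_001 t 1 1 1 = true :=
  ⟨(l 6), by decide +kernel⟩

theorem c_pp_001 : CertB 0 536870912 536870912 536870912 1033476505 6710887 3 eng mog cd0q0 cd5q1 pd0 false true true .up 0 0 1
    ndB0q0 ndB5q1 pcB0 cut_pp_001 Ext.none :=
  certB0 (fam := false) (s1 := true) (s2 := true) (a := 0) (b := 0) (c := 1) (cn := .up) (n1 := ndB0q0) (n2 := ndB5q1) (pc := pcB0) (cut := cut_pp_001) (xt := Ext.none) (P1 := 0) (W1 := 536870912) (P2 := 536870912) (W2 := 536870912) (P3 := 1033476505) (W3 := 6710887) (N0 := 3) (En := eng) (mo := mog) (C1 := cd0q0) (C2 := cd5q1) (C3 := pd0)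
    rfl k0_pp_001

noncomputable def cut_pp_011 : Cut := Cut.of [[⟨3, 0, 0, 1449551462⟩], [⟨0, 0, 0, 33554432⟩, ⟨1, 1, 0, 33554432⟩, ⟨2, 1, 0, 33554432⟩]]

noncomputable def f_pp_011 : ℕ → ℕ → ℕ → ℕ → Bool := onCell 0 536870912 536870912 536870912 1033476505 6710887
    (rowB 3 eng mog cd0q0 cd5q1 pd1 0 false true true .pnn 0 1 1 (qsf 0 536870912 536870912 536870912 1) ndB0q0 ndB5q1 pcB1 cut_pp_011 Ext.none)

def k0_pp_011 : ∃ t, chk3 f_pp_011 t 1 1 1 = true :=
  ⟨(l 6), by decide +kernel⟩

theorem c_pp_011 : CertB 0 536870912 536870912 536870912 1033476505 6710887 3 eng mog cd0q0 cd5q1 pd1 false true true .pnn 0 1 1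
    ndB0q0 ndB5q1 pcB1 cut_pp_011 Ext.none :=
  certB0 (fam := false) (s1 := true) (s2 := true) (a := 0) (b := 1) (c := 1) (cn := .pnn) (n1 := ndB0q0) (n2 := ndB5q1) (pc := pcB1) (cut := cut_pp_011) (xt := Ext.none) (P1 := 0) (W1 := 536870912) (P2 := 536870912) (W2 := 536870912) (P3 := 1033476505) (W3 := 6710887) (N0 := 3) (En := eng) (mo := mog) (C1 := cd0q0) (C2 := cd5q1) (C3 := pd1)
    rfl k0_pp_011

noncomputable def cut_pp_012 : Cut := Cut.of [[⟨3, 0, 0, 1449551462⟩], [⟨0, 0, 0, 33554432⟩, ⟨1, 1, 0, 33554432⟩, ⟨2, 1, 0, 33554432⟩]]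

noncomputable def f_pp_012 : ℕ → ℕ → ℕ → ℕ → Bool := onCell 0 536870912 536870912 536870912 1033476505 6710887
    (rowB 3 eng mog cd0q0 cd5q2 pd1 1 false true true .pnp 0 1 2 (qsf 0 536870912 1073741824 536870912 1) ndB0q0 ndB5q2 pcB1 cut_pp_012 Ext.none)

def k0_pp_012 : ∃ t, chk3 f_pp_012 t 1 1 1 = true :=
  ⟨(l 6), by decide +kernel⟩

theorem c_pp_012 : CertB 0 536870912 1073741824 536870912 1033476505 6710887 3 eng mog cd0q0 cd5q2 pd1 false true true .pnp 0 1 2
    ndB0q0 ndB5q2 pcB1 cut_pp_012 Ext.none :=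
  certB1 (fam := false) (s1 := true) (s2 := true) (a := 0) (b := 1) (c := 2) (cn := .pnp) (n1 := ndB0q0) (n2 := ndB5q2) (pc := pcB1) (cut := cut_pp_012) (xt := Ext.none) (P1 := 0) (W1 := 536870912) (P2 := 1073741824) (W2 := 536870912) (P3 := 1033476505) (W3 := 6710887) (N0 := 3) (En := eng) (mo := mog) (C1 := cd0q0) (C2 := cd5q2) (C3 := pd1)
    rfl (fun _ => rfl) k0_pp_012

noncomputable def cut_pp_022 : Cut := Cut.of [[⟨3, 0, 0, 1449551462⟩], [⟨0, 0, 0, 22369621⟩, ⟨1, 1, 0, 22369621⟩, ⟨2, 1, 0, 22369621⟩]]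

noncomputable def f_pp_022 : ℕ → ℕ → ℕ → ℕ → Bool := onCell 0 536870912 1073741824 536870912 1033476505 6710887
    (rowB 3 eng mog cd0q0 cd5q2 pd2 0 false true true .pp 0 2 2 (qsf 0 536870912 1073741824 536870912 2) ndB0q0 ndB5q2 pcB2 cut_pp_022 Ext.none)

def k0_pp_022 : ∃ t, chk3 f_pp_022 t 1 1 1 = true :=
  ⟨(a (b (l 6) (a (b (b (a (b (l 6) (a (l 15358992) (l 6))) (l 6)) (a (b (a (l 15307976) (l 15459592)) (a (l 15315232) (l 15454776))) (a (b (l 6) (a (l 15537168) (l 6))) (l 6)))) (a (b (a (l 15286552) (l 15428504)) (a (l 15229992) (l 15383544))) (a (b (a (l 15514144) (l 15555176)) (l 15495776)) (b (a (l 15646976) (l 15788320)) (a (l 15620200) (l 15766248)))))) (b (l 6) (a (b (l 6) (a (l 15996472) (l 16225944))) (l 6))))) (l 6)), by decide +kernel⟩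

theorem c_pp_022 : CertB 0 536870912 1073741824 536870912 1033476505 6710887 3 eng mog cd0q0 cd5q2 pd2 false true true .pp 0 2 2
    ndB0q0 ndB5q2 pcB2 cut_pp_022 Ext.none :=
  certB0 (fam := false) (s1 := true) (s2 := true) (a := 0) (b := 2) (c := 2) (cn := .pp) (n1 := ndB0q0) (n2 := ndB5q2) (pc := pcB2) (cut := cut_pp_022) (xt := Ext.none) (P1 := 0) (W1 := 536870912) (P2 := 1073741824) (W2 := 536870912) (P3 := 1033476505) (W3 := 6710887) (N0 := 3) (En := eng) (mo := mog) (C1 := cd0q0) (C2 := cd5q2) (C3 := pd2)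
    rfl k0_pp_022

noncomputable def cut_pp_023 : Cut := Cut.of [[⟨3, 0, 0, 1449551462⟩]]

noncomputable def f_pp_023 : ℕ → ℕ → ℕ → ℕ → Bool := onCell 0 536870912 0 1230186008 1033476505 6710887
    (rowB 3 eng mog cd0q0 cd5q3 pd2 0 false true true .up 0 2 3 (qsf 0 536870912 0 1230186008 2) ndB0q0 ndB5q3 pcB2 cut_pp_023 Ext.none)

def k0_pp_023 : ∃ t, chk3 f_pp_023 t 1 1 1 = true :=
  ⟨(a (b (l 2) (b (a (l 2) (b (l 2) (a (l 2) (b (l 2) (l 16473584))))) (b (a (l 2) (a (b (l 15708328) (a (l 15815848) (l 16139016))) (b (l 16478616) (l 16508368)))) (a (a (b (l 2) (b (l 15211464) (l 15256264))) (a (b (l 15347808) (l 15442744)) (b (a (l 15490544) (l 15648176)) (a (l 15575528) (l 15726824))))) (a (b (a (l 15894760) (l 16206936)) (a (l 15964400) (l 16202664))) (b (a (l 16464504) (l 16632224)) (a (l 16513392) (l 16620520)))))))) (a (b (l 2) (b (b (a (l 2) (b (l 16608496) (l 16461664))) (a (b (a (l 16616624) (l 16592864)) (l 16652912)) (b (l 16594712) (l 16689144)))) (b (a (b (l 16679104) (a (l 16659592) (l 16685960)))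 (b (l 16695536) (l 16708000))) (a (b (a (l 16649176) (l 16659976)) (l 6)) (l 6))))) (b (b (a (l 2) (a (l 2) (b (l 15153304) (b (l 15423528) (l 15653512))))) (b (a (l 15693408) (b (l 15848320) (l 16085088))) (a (b (l 16236456) (l 16466784)) (b (l 16215344) (l 16581336))))) (b (b (b (a (l 16675008) (l 16598000)) (a (l 16605864) (l 16610968))) (a (b (l 16637696) (l 16715056)) (b (l 16683288) (l 16734232)))) (b (a (b (l 16707992) (l 6)) (l 6)) (l 6)))))), by decide +kernel⟩

theorem c_pp_023 : CertB 0 536870912 0 1230186008 1033476505 6710887 3 eng mog cd0q0 cd5q3 pd2 false true true .up 0 2 3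
    ndB0q0 ndB5q3 pcB2 cut_pp_023 Ext.none :=
  certB0 (fam := false) (s1 := true) (s2 := true) (a := 0) (b := 2) (c := 3) (cn := .up) (n1 := ndB0q0) (n2 := ndB5q3) (pc := pcB2) (cut := cut_pp_023) (xt := Ext.none) (P1 := 0) (W1 := 536870912) (P2 := 0) (W2 := 1230186008) (P3 := 1033476505) (W3 := 6710887) (N0 := 3) (En := eng) (mo := mog) (C1 := cd0q0) (C2 := cd5q3) (C3 := pd2)
    rfl k0_pp_023

noncomputable def cut_pp_033 : Cut := Cut.of [[⟨3, 0, 0, 1449551462⟩]]

noncomputable def f_pp_033 : ℕ → ℕ → ℕ → ℕ → Bool := onCell 0 536870912 0 1230186008 1033476505 6710887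
    (rowB 3 eng mog cd0q0 cd5q3 pd3 0 false true true .pnn 0 3 3 (qsf 0 536870912 0 1230186008 3) ndB0q0 ndB5q3 pcB3 cut_pp_033 Ext.none)

def k0_pp_033 : ∃ t, chk3 f_pp_033 t 1 4 1 = true :=
  ⟨(a (a (l 4) (a (b (l 4) (b (l 4) (a (b (l 4) (l 22781140343)) (a (l 16060920) (l 16132648))))) (b (a (l 4) (b (l 4) (l 16519456))) (b (a (b (l 16372520) (l 16329608)) (b (l 16427488) (l 16292096))) (a (l 15979136) (b (l 16103712) (l 15836008))))))) (a (a (b (a (b (l 4) (l 16487416)) (b (l 16599104) (l 16291104))) (a (b (l 16146280) (b (l 15773184) (l 15638656))) (b (b (l 15932856) (l 15651720)) (l 15555040)))) (b (b (a (l 16435808) (l 16080984)) (a (l 15955224) (l 15510104))) (b (a (b (l 15514616) (l 15396632)) (l 15306296)) (l 15448208)))) (b (a (b (a (l 15657216) (l 15211552)) (a (l 15192608) (l 15044344))) (b (a (l 14939576) (l 14851352)) (l 15037088))) (b (a (l 15226136) (l 15278792)) (a (l 15447824) (l 15537672)))))), by decide +kernel⟩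

def k1_pp_033 : ∃ t, chk3 f_pp_033 t 1 5 1 = true :=
  ⟨(a (b (a (b (a (l 4) (a (l 4) (a (b (l 4) (l 15435832)) (b (l 15620288) (l 15556872))))) (a (a (l 4) (a (l 4) (b (l 4) (l 15164224)))) (a (a (b (l 15254696) (l 15220392)) (b (l 15301192) (l 15231856))) (b (a (l 15366432) (l 15437664)) (a (l 15260000) (l 15300904)))))) (a (a (b (b (l 15650776) (l 15666104)) (b (a (l 15483800) (l 15503816)) (a (l 15362608) (l 15436680)))) (b (b (l 15895840) (l 15663848)) (b (l 15388408) (l 15571592)))) (b (a (b (l 15787568) (l 15691272)) (b (l 15715376) (l 15716328))) (l 15703960)))) (a (a (a (b (a (b (l 4) (l 14860624)) (b (l 14962704) (l 14954872))) (a (b (l 14857328) (l 14876440)) (b (l 14951824) (l 14965520)))) (b (a (b (l 15060312) (l 15038680)) (b (l 15132744) (l 15092120))) (b (a (l 15029792) (l 15089576)) (l 15077832)))) (b (a (b (a (l 15161344) (l 15145040)) (a (l 15116840) (l 15125760))) (a (b (l 15176104) (l 15179904)) (l 15282160))) (a (l 15151592) (a (l 15250008) (l 15368488))))) (a (a (b (l 15433952)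 (l 15556976)) (b (l 15653968) (l 15801560))) (b (l 15826944) (a (l 16009920) (l 16155832)))))) (a (b (a (a (l 15527488) (l 15750600)) (b (l 15654848) (l 15871464))) (a (b (l 15887920) (a (l 16233560) (l 16290600))) (b (l 16109912) (l 16303568)))) (b (a (b (l 15688552) (l 15948952)) (b (l 15796552) (l 16087360))) (a (b (l 16220912) (l 16405368)) (b (l 16327432) (l 1)))))), by decide +kernel⟩

def k2_pp_033 : ∃ t, chk3 f_pp_033 t 1 3 1 = true :=
  ⟨(b (a (a (b (a (b (a (l 14948512) (l 15106152)) (a (l 14962808) (l 15124280))) (a (b (l 15208976) (a (l 15222360) (l 15271696))) (b (a (l 15325272) (l 15466712)) (a (l 15372048) (l 15521960))))) (a (b (a (l 14953240) (l 15128328)) (b (l 14960120) (l 14884624))) (a (b (l 15258992) (b (l 15263120) (l 15245304))) (b (l 15225760) (a (l 15395368) (l 15551312)))))) (b (a (b (a (l 15692440) (l 15987544)) (a (l 15757800) (l 16058200))) (b (a (l 16216392) (l 16361424)) (l 16359472))) (a (b (a (l 15789608) (l 16097608)) (a (l 15797072) (l 16111960))) (b (a (l 16354912)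 (l 16526728)) (l 16478920))))) (a (b (a (b (a (l 16426048) (l 16456704)) (l 16573128)) (b (l 16495912) (l 16601256))) (a (b (a (l 16602240) (l 16633392)) (l 16485512)) (b (l 16670720) (l 1)))) (b (a (b (l 16538784) (l 1)) (l 1)) (l 1)))) (a (a (a (b (b (a (l 14858360) (l 15034680)) (a (l 14861472) (l 15059736))) (b (a (l 15086504) (l 15261400)) (b (l 15292888) (l 15256552)))) (b (b (a (l 15181936) (a (l 15333568) (l 15498136))) (a (l 15213296) (l 15313248))) (b (a (l 15395728) (a (l 15535536) (l 15691256))) (a (l 322153027719) (l 1))))) (b (b (a (a (l 15756744) (l 16085856)) (a (l 16360360) (l 16542752))) (a (a (l 15798128) (l 16126760)) (l 1))) (a (b (a (l 15851016) (l 1)) (l 1)) (l 1)))) (l 1))), by decide +kernel⟩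

theorem s3_pp_033 : ∃ t, chk3 f_pp_033 t 1 2 1 = true := ex3_b k0_pp_033 k1_pp_033

theorem s4_pp_033 : ∃ t, chk3 f_pp_033 t 1 1 1 = true := ex3_b s3_pp_033 k2_pp_033

theorem c_pp_033 : CertB 0 536870912 0 1230186008 1033476505 6710887 3 eng mog cd0q0 cd5q3 pd3 false true true .pnn 0 3 3
    ndB0q0 ndB5q3 pcB3 cut_pp_033 Ext.none :=
  certB0 (fam := false) (s1 := true) (s2 := true) (a := 0) (b := 3) (c := 3) (cn := .pnn) (n1 := ndB0q0) (n2 := ndB5q3) (pc := pcB3) (cut := cut_pp_033) (xt := Ext.none) (P1 := 0) (W1 := 536870912) (P2 := 0) (W2 := 1230186008) (P3 := 1033476505) (W3 := 6710887) (N0 := 3) (En := eng) (mo := mog) (C1 := cd0q0) (C2 := cd5q3) (C3 := pd3)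
    rfl s4_pp_033

noncomputable def cut_pp_101 : Cut := Cut.of [[⟨3, 0, 0, 1449551462⟩]]

noncomputable def f_pp_101 : ℕ → ℕ → ℕ → ℕ → Bool := onCell 536870912 536870912 0 536870912 1033476505 6710887
    (rowB 3 eng mog cd0q1 cd5q1 pd0 1 false true true .npn 1 0 1 (qsf 536870912 536870912 536870912 536870912 0) ndB0q1 ndB5q1 pcB0 cut_pp_101 Ext.none)

def k0_pp_101 : ∃ t, chk3 f_pp_101 t 1 1 1 = true :=
  ⟨(l 6), by decide +kernel⟩

theorem c_pp_101 : CertB 536870912 536870912 536870912 536870912 1033476505 6710887 3 eng mog cd0q1 cd5q1 pd0 false true true .npn 1 0 1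
    ndB0q1 ndB5q1 pcB0 cut_pp_101 Ext.none :=
  certB1 (fam := false) (s1 := true) (s2 := true) (a := 1) (b := 0) (c := 1) (cn := .npn) (n1 := ndB0q1) (n2 := ndB5q1) (pc := pcB0) (cut := cut_pp_101) (xt := Ext.none) (P1 := 536870912) (W1 := 536870912) (P2 := 536870912) (W2 := 536870912) (P3 := 1033476505) (W3 := 6710887) (N0 := 3) (En := eng) (mo := mog) (C1 := cd0q1) (C2 := cd5q1) (C3 := pd0)
    rfl (fun _ => rfl) k0_pp_101

noncomputable def cut_pp_102 : Cut := Cut.of [[⟨3, 0, 0, 1449551462⟩]]

noncomputable def f_pp_102 : ℕ → ℕ → ℕ → ℕ → Bool := onCell 536870912 536870912 1073741824 536870912 1033476505 6710887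
    (rowB 3 eng mog cd0q1 cd5q2 pd0 0 false true true .npp 1 0 2 (qsf 536870912 536870912 1073741824 536870912 0) ndB0q1 ndB5q2 pcB0 cut_pp_102 Ext.none)

def k0_pp_102 : ∃ t, chk3 f_pp_102 t 1 1 1 = true :=
  ⟨(l 6), by decide +kernel⟩

theorem c_pp_102 : CertB 536870912 536870912 1073741824 536870912 1033476505 6710887 3 eng mog cd0q1 cd5q2 pd0 false true true .npp 1 0 2
    ndB0q1 ndB5q2 pcB0 cut_pp_102 Ext.none :=
  certB0 (fam := false) (s1 := true) (s2 := true) (a := 1) (b := 0) (c := 2) (cn := .npp) (n1 := ndB0q1) (n2 := ndB5q2) (pc := pcB0) (cut := cut_pp_102) (xt := Ext.none) (P1 := 536870912) (W1 := 536870912) (P2 := 1073741824) (W2 := 536870912) (P3 := 1033476505) (W3 := 6710887) (N0 := 3) (En := eng) (mo := mog) (C1 := cd0q1) (C2 := cd5q2) (C3 := pd0)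
    rfl k0_pp_102

noncomputable def cut_pp_112 : Cut := Cut.of [[⟨3, 0, 0, 1449551462⟩]]

noncomputable def f_pp_112 : ℕ → ℕ → ℕ → ℕ → Bool := onCell 536870912 536870912 1073741824 536870912 1033476505 6710887
    (rowB 3 eng mog cd0q1 cd5q2 pd1 0 false true true .dn 1 1 2 (qsf 536870912 536870912 1073741824 536870912 1) ndB0q1 ndB5q2 pcB1 cut_pp_112 Ext.none)

def k0_pp_112 : ∃ t, chk3 f_pp_112 t 1 1 1 = true :=
  ⟨(l 6), by decide +kernel⟩

theorem c_pp_112 : CertB 536870912 536870912 1073741824 536870912 1033476505 6710887 3 eng mog cd0q1 cd5q2 pd1 false true true .dn 1 1 2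
    ndB0q1 ndB5q2 pcB1 cut_pp_112 Ext.none :=
  certB0 (fam := false) (s1 := true) (s2 := true) (a := 1) (b := 1) (c := 2) (cn := .dn) (n1 := ndB0q1) (n2 := ndB5q2) (pc := pcB1) (cut := cut_pp_112) (xt := Ext.none) (P1 := 536870912) (W1 := 536870912) (P2 := 1073741824) (W2 := 536870912) (P3 := 1033476505) (W3 := 6710887) (N0 := 3) (En := eng) (mo := mog) (C1 := cd0q1) (C2 := cd5q2) (C3 := pd1)
    rfl k0_pp_112

noncomputable def cut_pp_113 : Cut := Cut.of [[⟨3, 0, 0, 1449551462⟩], [⟨0, 1, 0, 20971520⟩, ⟨1, 1, 0, 20971520⟩, ⟨2, 2, 0, 1572864⟩]]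

noncomputable def f_pp_113 : ℕ → ℕ → ℕ → ℕ → Bool := onCell 536870912 536870912 0 1230186008 1033476505 6710887
    (rowB 3 eng mog cd0q1 cd5q3 pd1 0 false true true .nn 1 1 3 (qsf 536870912 536870912 0 1230186008 1) ndB0q1 ndB5q3 pcB1 cut_pp_113 Ext.none)

def k0_pp_113 : ∃ t, chk3 f_pp_113 t 1 1 1 = true :=
  ⟨(b (a (l 2) (a (l 2) (b (a (l 2) (l 6)) (l 6)))) (a (b (a (l 2) (l 6)) (l 6)) (l 6))), by decide +kernel⟩

theorem c_pp_113 : CertB 536870912 536870912 0 1230186008 1033476505 6710887 3 eng mog cd0q1 cd5q3 pd1 false true true .nn 1 1 3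
    ndB0q1 ndB5q3 pcB1 cut_pp_113 Ext.none :=
  certB0 (fam := false) (s1 := true) (s2 := true) (a := 1) (b := 1) (c := 3) (cn := .nn) (n1 := ndB0q1) (n2 := ndB5q3) (pc := pcB1) (cut := cut_pp_113) (xt := Ext.none) (P1 := 536870912) (W1 := 536870912) (P2 := 0) (W2 := 1230186008) (P3 := 1033476505) (W3 := 6710887) (N0 := 3) (En := eng) (mo := mog) (C1 := cd0q1) (C2 := cd5q3) (C3 := pd1)
    rfl k0_pp_113

noncomputable def cut_pp_123 : Cut := Cut.of [[⟨3, 0, 0, 1449551462⟩], [⟨0, 1, 0, 20971520⟩, ⟨1, 1, 0, 20971520⟩, ⟨2, 2, 0, 1572864⟩]]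

noncomputable def f_pp_123 : ℕ → ℕ → ℕ → ℕ → Bool := onCell 536870912 536870912 0 1230186008 1033476505 6710887
    (rowB 3 eng mog cd0q1 cd5q3 pd2 0 false true true .npn 1 2 3 (qsf 536870912 536870912 0 1230186008 2) ndB0q1 ndB5q3 pcB2 cut_pp_123 Ext.none)

def k0_pp_123 : ∃ t, chk3 f_pp_123 t 1 1 1 = true :=
  ⟨(b (b (a (a (b (b (l 15178016) (l 15360104)) (b (l 15497224) (l 15789352))) (b (a (b (l 15427928) (l 15580856)) (b (l 15594184) (l 15708472))) (b (a (l 15733808) (l 15831568)) (a (l 15935944) (a (l 16001128) (l 16029472)))))) (a (a (b (b (l 15718304) (l 15789824)) (b (b (l 15841392) (l 15922840)) (a (l 16062072) (l 16116664)))) (b (a (b (l 15799056) (l 15835208)) (b (l 15869512) (b (l 15877680) (l 6)))) (b (a (a (b (l 15875840) (l 6)) (l 6)) (l 6)) (l 6)))) (a (a (b (b (l 16037672) (l 6)) (l 6)) (l 6)) (l 6)))) (a (a (b (b (a (l 15964256) (l 16069592)) (a (l 16198864) (l 16158656))) (a (b (l 16438768) (l 16687584)) (b (l 16561488) (a (l 16751456) (l 16728712))))) (b (a (b (a (l 16130064) (l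 16176296)) (l 16333168)) (b (a (l 16237440) (l 16293840)) (a (l 16502080) (l 6)))) (a (b (l 16664536) (a (l 16607664) (l 6))) (l 6)))) (a (a (b (b (l 6) (l 6)) (l 6)) (l 6)) (l 6)))) (b (a (a (b (b (a (b (l 16659528) (l 16605736)) (a (l 16643456) (l 6))) (a (l 16648728) (l 6))) (b (l 6) (l 6))) (l 6)) (l 6)) (l 6))), by decide +kernel⟩

theorem c_pp_123 : CertB 536870912 536870912 0 1230186008 1033476505 6710887 3 eng mog cd0q1 cd5q3 pd2 false true true .npn 1 2 3
    ndB0q1 ndB5q3 pcB2 cut_pp_123 Ext.none :=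
  certB0 (fam := false) (s1 := true) (s2 := true) (a := 1) (b := 2) (c := 3) (cn := .npn) (n1 := ndB0q1) (n2 := ndB5q3) (pc := pcB2) (cut := cut_pp_123) (xt := Ext.none) (P1 := 536870912) (W1 := 536870912) (P2 := 0) (W2 := 1230186008) (P3 := 1033476505) (W3 := 6710887) (N0 := 3) (En := eng) (mo := mog) (C1 := cd0q1) (C2 := cd5q3) (C3 := pd2)
    rfl k0_pp_123

noncomputable def cut_pp_133 : Cut := Cut.of [[⟨3, 0, 0, 1449551462⟩]]

noncomputable def f_pp_133 : ℕ → ℕ → ℕ → ℕ → Bool := onCell 536870912 536870912 0 1230186008 1033476505 6710887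
    (rowB 3 eng mog cd0q1 cd5q3 pd3 0 false true true .dn 1 3 3 (qsf 536870912 536870912 0 1230186008 3) ndB0q1 ndB5q3 pcB3 cut_pp_133 Ext.none)

def k0_pp_133 : ∃ t, chk3 f_pp_133 t 1 1 1 = true :=
  ⟨(b (b (a (a (b (b (l 14913192) (l 1)) (l 1)) (l 1)) (l 1)) (l 1)) (l 1)), by decide +kernel⟩

theorem c_pp_133 : CertB 536870912 536870912 0 1230186008 1033476505 6710887 3 eng mog cd0q1 cd5q3 pd3 false true true .dn 1 3 3
    ndB0q1 ndB5q3 pcB3 cut_pp_133 Ext.none :=
  certB0 (fam := false) (s1 := true) (s2 := true) (a := 1) (b := 3) (c := 3) (cn := .dn) (n1 := ndB0q1) (n2 := ndB5q3) (pc := pcB3) (cut := cut_pp_133) (xt := Ext.none) (P1 := 536870912) (W1 := 536870912) (P2 := 0) (W2 := 1230186008) (P3 := 1033476505) (W3 := 6710887) (N0 := 3) (En := eng) (mo := mog) (C1 := cd0q1) (C2 := cd5q3) (C3 := pd3)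
    rfl k0_pp_133

noncomputable def cut_pp_202 : Cut := Cut.of [[⟨3, 0, 0, 1449551462⟩]]

noncomputable def f_pp_202 : ℕ → ℕ → ℕ → ℕ → Bool := onCell 0 536870912 1073741824 536870912 1033476505 6710887
    (rowB 3 eng mog cd0q2 cd5q2 pd0 0 false true true .pp 2 0 2 (qsf 0 536870912 1073741824 536870912 0) ndB0q2 ndB5q2 pcB0 cut_pp_202 Ext.none)

def k0_pp_202 : ∃ t, chk3 f_pp_202 t 1 1 1 = true :=
  ⟨(l 5), by decide +kernel⟩

theorem c_pp_202 : CertB 0 536870912 1073741824 536870912 1033476505 6710887 3 eng mog cd0q2 cd5q2 pd0 false true true .pp 2 0 2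
    ndB0q2 ndB5q2 pcB0 cut_pp_202 Ext.none :=
  certB0 (fam := false) (s1 := true) (s2 := true) (a := 2) (b := 0) (c := 2) (cn := .pp) (n1 := ndB0q2) (n2 := ndB5q2) (pc := pcB0) (cut := cut_pp_202) (xt := Ext.none) (P1 := 0) (W1 := 536870912) (P2 := 1073741824) (W2 := 536870912) (P3 := 1033476505) (W3 := 6710887) (N0 := 3) (En := eng) (mo := mog) (C1 := cd0q2) (C2 := cd5q2) (C3 := pd0)
    rfl k0_pp_202

noncomputable def cut_pp_203 : Cut := Cut.of [[⟨3, 0, 0, 1449551462⟩]]

noncomputable def f_pp_203 : ℕ → ℕ → ℕ → ℕ → Bool := onCell 0 536870912 0 1230186008 1033476505 6710887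
    (rowB 3 eng mog cd0q2 cd5q3 pd0 0 false true true .up 2 0 3 (qsf 0 536870912 0 1230186008 0) ndB0q2 ndB5q3 pcB0 cut_pp_203 Ext.none)

def k0_pp_203 : ∃ t, chk3 f_pp_203 t 1 1 1 = true :=
  ⟨(b (l 2) (a (l 5) (l 6))), by decide +kernel⟩

theorem c_pp_203 : CertB 0 536870912 0 1230186008 1033476505 6710887 3 eng mog cd0q2 cd5q3 pd0 false true true .up 2 0 3
    ndB0q2 ndB5q3 pcB0 cut_pp_203 Ext.none :=
  certB0 (fam := false) (s1 := true) (s2 := true) (a := 2) (b := 0) (c := 3) (cn := .up) (n1 := ndB0q2) (n2 := ndB5q3) (pc := pcB0) (cut := cut_pp_203) (xt := Ext.none) (P1 := 0) (W1 := 536870912) (P2 := 0) (W2 := 1230186008) (P3 := 1033476505) (W3 := 6710887) (N0 := 3) (En := eng) (mo := mog) (C1 := cd0q2) (C2 := cd5q3) (C3 := pd0)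
    rfl k0_pp_203

noncomputable def cut_pp_213 : Cut := Cut.of [[⟨3, 0, 0, 1449551462⟩], [⟨0, 1, 0, 20971520⟩, ⟨1, 1, 0, 20971520⟩, ⟨2, 2, 0, 1572864⟩]]

noncomputable def f_pp_213 : ℕ → ℕ → ℕ → ℕ → Bool := onCell 0 536870912 0 1230186008 1033476505 6710887
    (rowB 3 eng mog cd0q2 cd5q3 pd1 0 false true true .pnn 2 1 3 (qsf 0 536870912 0 1230186008 1) ndB0q2 ndB5q3 pcB1 cut_pp_213 Ext.none)

def k0_pp_213 : ∃ t, chk3 f_pp_213 t 1 1 1 = true :=
  ⟨(b (l 6) (a (l 5) (l 6))), by decide +kernel⟩

theorem c_pp_213 : CertB 0 536870912 0 1230186008 1033476505 6710887 3 eng mog cd0q2 cd5q3 pd1 false true true .pnn 2 1 3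
    ndB0q2 ndB5q3 pcB1 cut_pp_213 Ext.none :=
  certB0 (fam := false) (s1 := true) (s2 := true) (a := 2) (b := 1) (c := 3) (cn := .pnn) (n1 := ndB0q2) (n2 := ndB5q3) (pc := pcB1) (cut := cut_pp_213) (xt := Ext.none) (P1 := 0) (W1 := 536870912) (P2 := 0) (W2 := 1230186008) (P3 := 1033476505) (W3 := 6710887) (N0 := 3) (En := eng) (mo := mog) (C1 := cd0q2) (C2 := cd5q3) (C3 := pd1)
    rfl k0_pp_213

noncomputable def cut_pm_001 : Cut := Cut.of [[⟨3, 0, 0, 1449551462⟩]]

noncomputable def f_pm_001 : ℕ → ℕ → ℕ → ℕ → Bool := onCell 0 536870912 536870912 536870912 1033476505 6710887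
    (rowB 3 eng mog cd0q0 cd5q1 pd0 0 false true false .up 0 0 1 (qsf 0 536870912 536870912 536870912 0) ndB0q0 ndB5q1 pcB0 cut_pm_001 Ext.none)

def k0_pm_001 : ∃ t, chk3 f_pm_001 t 1 1 1 = true :=
  ⟨(l 4), by decide +kernel⟩

theorem c_pm_001 : CertB 0 536870912 536870912 536870912 1033476505 6710887 3 eng mog cd0q0 cd5q1 pd0 false true false .up 0 0 1
    ndB0q0 ndB5q1 pcB0 cut_pm_001 Ext.none :=
  certB0 (fam := false) (s1 := true) (s2 := false) (a := 0) (b := 0) (c := 1) (cn := .up) (n1 := ndB0q0) (n2 := ndB5q1) (pc := pcB0) (cut := cut_pm_001) (xt := Ext.none) (P1 := 0) (W1 := 536870912) (P2 := 536870912) (W2 := 536870912) (P3 := 1033476505) (W3 := 6710887) (N0 := 3) (En := eng) (mo := mog) (C1 := cd0q0) (C2 := cd5q1) (C3 := pd0)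
    rfl k0_pm_001

noncomputable def cut_pm_011 : Cut := Cut.of [[⟨3, 0, 0, 1449551462⟩]]

noncomputable def f_pm_011 : ℕ → ℕ → ℕ → ℕ → Bool := onCell 0 536870912 536870912 536870912 1033476505 6710887
    (rowB 3 eng mog cd0q0 cd5q1 pd1 0 false true false .pnn 0 1 1 (qsf 0 536870912 536870912 536870912 1) ndB0q0 ndB5q1 pcB1 cut_pm_011 Ext.none)

def k0_pm_011 : ∃ t, chk3 f_pm_011 t 1 1 1 = true :=
  ⟨(l 4), by decide +kernel⟩

theorem c_pm_011 : CertB 0 536870912 536870912 536870912 1033476505 6710887 3 eng mog cd0q0 cd5q1 pd1 false true false .pnn 0 1 1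
    ndB0q0 ndB5q1 pcB1 cut_pm_011 Ext.none :=
  certB0 (fam := false) (s1 := true) (s2 := false) (a := 0) (b := 1) (c := 1) (cn := .pnn) (n1 := ndB0q0) (n2 := ndB5q1) (pc := pcB1) (cut := cut_pm_011) (xt := Ext.none) (P1 := 0) (W1 := 536870912) (P2 := 536870912) (W2 := 536870912) (P3 := 1033476505) (W3 := 6710887) (N0 := 3) (En := eng) (mo := mog) (C1 := cd0q0) (C2 := cd5q1) (C3 := pd1)
    rfl k0_pm_011

noncomputable def cut_pm_012 : Cut := Cut.of [[⟨3, 0, 0, 1449551462⟩]]

noncomputable def f_pm_012 : ℕ → ℕ → ℕ → ℕ → Bool := onCell 0 536870912 1073741824 536870912 1033476505 6710887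
    (rowB 3 eng mog cd0q0 cd5q2 pd1 0 false true false .pnp 0 1 2 (qsf 0 536870912 1073741824 536870912 1) ndB0q0 ndB5q2 pcB1 cut_pm_012 Ext.none)

def k0_pm_012 : ∃ t, chk3 f_pm_012 t 1 1 1 = true :=
  ⟨(l 4), by decide +kernel⟩

theorem c_pm_012 : CertB 0 536870912 1073741824 536870912 1033476505 6710887 3 eng mog cd0q0 cd5q2 pd1 false true false .pnp 0 1 2
    ndB0q0 ndB5q2 pcB1 cut_pm_012 Ext.none :=
  certB0 (fam := false) (s1 := true) (s2 := false) (a := 0) (b := 1) (c := 2) (cn := .pnp) (n1 := ndB0q0) (n2 := ndB5q2) (pc := pcB1) (cut := cut_pm_012) (xt := Ext.none) (P1 := 0) (W1 := 536870912) (P2 := 1073741824) (W2 := 536870912) (P3 := 1033476505) (W3 := 6710887) (N0 := 3) (En := eng) (mo := mog) (C1 := cd0q0) (C2 := cd5q2) (C3 := pd1)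
    rfl k0_pm_012

noncomputable def cut_pm_022 : Cut := Cut.of [[⟨3, 0, 0, 1449551462⟩]]

noncomputable def f_pm_022 : ℕ → ℕ → ℕ → ℕ → Bool := onCell 0 536870912 1073741824 536870912 1033476505 6710887
    (rowB 3 eng mog cd0q0 cd5q2 pd2 0 false true false .pp 0 2 2 (qsf 0 536870912 1073741824 536870912 2) ndB0q0 ndB5q2 pcB2 cut_pm_022 Ext.none)

def k0_pm_022 : ∃ t, chk3 f_pm_022 t 1 1 1 = true :=
  ⟨(l 4), by decide +kernel⟩

theorem c_pm_022 : CertB 0 536870912 1073741824 536870912 1033476505 6710887 3 eng mog cd0q0 cd5q2 pd2 false true false .pp 0 2 2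
    ndB0q0 ndB5q2 pcB2 cut_pm_022 Ext.none :=
  certB0 (fam := false) (s1 := true) (s2 := false) (a := 0) (b := 2) (c := 2) (cn := .pp) (n1 := ndB0q0) (n2 := ndB5q2) (pc := pcB2) (cut := cut_pm_022) (xt := Ext.none) (P1 := 0) (W1 := 536870912) (P2 := 1073741824) (W2 := 536870912) (P3 := 1033476505) (W3 := 6710887) (N0 := 3) (En := eng) (mo := mog) (C1 := cd0q0) (C2 := cd5q2) (C3 := pd2)
    rfl k0_pm_022

noncomputable def cut_pm_023 : Cut := Cut.of [[⟨3, 0, 0, 1449551462⟩]]

noncomputable def f_pm_023 : ℕ → ℕ → ℕ → ℕ → Bool := onCell 0 536870912 0 1230186008 1033476505 6710887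
    (rowB 3 eng mog cd0q0 cd5q3 pd2 0 false true false .up 0 2 3 (qsf 0 536870912 0 1230186008 2) ndB0q0 ndB5q3 pcB2 cut_pm_023 Ext.none)

def k0_pm_023 : ∃ t, chk3 f_pm_023 t 1 1 1 = true :=
  ⟨(b (a (l 2) (b (a (l 2) (a (l 2) (a (l 2) (b (b (l 15155816) (l 15664952)) (b (l 16112336) (l 16465984)))))) (b (l 4) (l 4)))) (l 4)), by decide +kernel⟩

theorem c_pm_023 : CertB 0 536870912 0 1230186008 1033476505 6710887 3 eng mog cd0q0 cd5q3 pd2 false true false .up 0 2 3
    ndB0q0 ndB5q3 pcB2 cut_pm_023 Ext.none :=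
  certB0 (fam := false) (s1 := true) (s2 := false) (a := 0) (b := 2) (c := 3) (cn := .up) (n1 := ndB0q0) (n2 := ndB5q3) (pc := pcB2) (cut := cut_pm_023) (xt := Ext.none) (P1 := 0) (W1 := 536870912) (P2 := 0) (W2 := 1230186008) (P3 := 1033476505) (W3 := 6710887) (N0 := 3) (En := eng) (mo := mog) (C1 := cd0q0) (C2 := cd5q3) (C3 := pd2)
    rfl k0_pm_023

noncomputable def cut_pm_033 : Cut := Cut.of [[⟨3, 0, 0, 1449551462⟩]]

noncomputable def f_pm_033 : ℕ → ℕ → ℕ → ℕ → Bool := onCell 1610612736 536870912 0 1230186008 1033476505 6710887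
    (rowB 3 eng mog cd0q0 cd5q3 pd3 2 false true false .pnn 0 3 3 (qsf 0 536870912 0 1230186008 3) ndB0q0 ndB5q3 pcB3 cut_pm_033 Ext.none)

def k0_pm_033 : ∃ t, chk3 f_pm_033 t 1 1 1 = true :=
  ⟨(b (b (a (a (a (b (a (b (l 14987088) (l 15603944)) (b (l 15394976) (l 15976312))) (a (b (l 16172200) (l 16513192)) (b (l 16400352) (l 4)))) (b (a (b (l 15811208) (l 16306528)) (b (l 16216064) (l 16500312))) (b (a (l 16500704) (l 4)) (l 4)))) (a (b (b (a (l 16493200) (l 16615528)) (l 4)) (l 4)) (l 4))) (l 4)) (l 4)) (l 4)), by decide +kernel⟩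

theorem c_pm_033 : CertB 0 536870912 0 1230186008 1033476505 6710887 3 eng mog cd0q0 cd5q3 pd3 false true false .pnn 0 3 3
    ndB0q0 ndB5q3 pcB3 cut_pm_033 Ext.none :=
  certB2 (fam := false) (s1 := true) (s2 := false) (a := 0) (b := 3) (c := 3) (cn := .pnn) (n1 := ndB0q0) (n2 := ndB5q3) (pc := pcB3) (cut := cut_pm_033) (xt := Ext.none) (P1 := 0) (W1 := 536870912) (P2 := 0) (W2 := 1230186008) (P3 := 1033476505) (W3 := 6710887) (N0 := 3) (En := eng) (mo := mog) (C1 := cd0q0) (C2 := cd5q3) (C3 := pd3)
    rfl (fun _ => rfl) k0_pm_033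

noncomputable def cut_pm_101 : Cut := Cut.of [[⟨3, 0, 0, 1449551462⟩]]

noncomputable def f_pm_101 : ℕ → ℕ → ℕ → ℕ → Bool := onCell 536870912 536870912 536870912 536870912 1033476505 6710887
    (rowB 3 eng mog cd0q1 cd5q1 pd0 0 false true false .npn 1 0 1 (qsf 536870912 536870912 536870912 536870912 0) ndB0q1 ndB5q1 pcB0 cut_pm_101 Ext.none)

def k0_pm_101 : ∃ t, chk3 f_pm_101 t 1 1 1 = true :=
  ⟨(l 4), by decide +kernel⟩

theorem c_pm_101 : CertB 536870912 536870912 536870912 536870912 1033476505 6710887 3 eng mog cd0q1 cd5q1 pd0 false true false .npn 1 0 1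
    ndB0q1 ndB5q1 pcB0 cut_pm_101 Ext.none :=
  certB0 (fam := false) (s1 := true) (s2 := false) (a := 1) (b := 0) (c := 1) (cn := .npn) (n1 := ndB0q1) (n2 := ndB5q1) (pc := pcB0) (cut := cut_pm_101) (xt := Ext.none) (P1 := 536870912) (W1 := 536870912) (P2 := 536870912) (W2 := 536870912) (P3 := 1033476505) (W3 := 6710887) (N0 := 3) (En := eng) (mo := mog) (C1 := cd0q1) (C2 := cd5q1) (C3 := pd0)
    rfl k0_pm_101

noncomputable def cut_pm_102 : Cut := Cut.of [[⟨3, 0, 0, 1449551462⟩]]

noncomputable def f_pm_102 : ℕ → ℕ → ℕ → ℕ → Bool := onCell 536870912 536870912 1073741824 536870912 1033476505 6710887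
    (rowB 3 eng mog cd0q1 cd5q2 pd0 0 false true false .npp 1 0 2 (qsf 536870912 536870912 1073741824 536870912 0) ndB0q1 ndB5q2 pcB0 cut_pm_102 Ext.none)

def k0_pm_102 : ∃ t, chk3 f_pm_102 t 1 1 1 = true :=
  ⟨(a (l 4) (b (l 4) (a (l 4) (a (l 4) (b (l 4) (a (l 4) (b (l 4) (l 15684240)))))))), by decide +kernel⟩

theorem c_pm_102 : CertB 536870912 536870912 1073741824 536870912 1033476505 6710887 3 eng mog cd0q1 cd5q2 pd0 false true false .npp 1 0 2
    ndB0q1 ndB5q2 pcB0 cut_pm_102 Ext.none :=
  certB0 (fam := false) (s1 := true) (s2 := false) (a := 1) (b := 0) (c := 2) (cn := .npp) (n1 := ndB0q1) (n2 := ndB5q2) (pc := pcB0) (cut := cut_pm_102) (xt := Ext.none) (P1 := 536870912) (W1 := 536870912) (P2 := 1073741824) (W2 := 536870912) (P3 := 1033476505) (W3 := 6710887) (N0 := 3) (En := eng) (mo := mog) (C1 := cd0q1) (C2 := cd5q2) (C3 := pd0)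
    rfl k0_pm_102

noncomputable def cut_pm_112 : Cut := Cut.of [[⟨3, 0, 0, 1449551462⟩]]

noncomputable def f_pm_112 : ℕ → ℕ → ℕ → ℕ → Bool := onCell 536870912 536870912 1073741824 536870912 1033476505 6710887
    (rowB 3 eng mog cd0q1 cd5q2 pd1 0 false true false .dn 1 1 2 (qsf 536870912 536870912 1073741824 536870912 1) ndB0q1 ndB5q2 pcB1 cut_pm_112 Ext.none)

def k0_pm_112 : ∃ t, chk3 f_pm_112 t 1 1 1 = true :=
  ⟨(a (l 4) (b (l 4) (a (l 4) (a (l 4) (b (l 1) (a (l 4) (b (l 1) (b (l 15646808) (l 15613024))))))))), by decide +kernel⟩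

theorem c_pm_112 : CertB 536870912 536870912 1073741824 536870912 1033476505 6710887 3 eng mog cd0q1 cd5q2 pd1 false true false .dn 1 1 2
    ndB0q1 ndB5q2 pcB1 cut_pm_112 Ext.none :=
  certB0 (fam := false) (s1 := true) (s2 := false) (a := 1) (b := 1) (c := 2) (cn := .dn) (n1 := ndB0q1) (n2 := ndB5q2) (pc := pcB1) (cut := cut_pm_112) (xt := Ext.none) (P1 := 536870912) (W1 := 536870912) (P2 := 1073741824) (W2 := 536870912) (P3 := 1033476505) (W3 := 6710887) (N0 := 3) (En := eng) (mo := mog) (C1 := cd0q1) (C2 := cd5q2) (C3 := pd1)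
    rfl k0_pm_112

noncomputable def cut_pm_113 : Cut := Cut.of [[⟨3, 0, 0, 1449551462⟩], [⟨0, 1, 0, 20971520⟩, ⟨1, 1, 0, 20971520⟩, ⟨2, 2, 0, 1572864⟩]]

noncomputable def f_pm_113 : ℕ → ℕ → ℕ → ℕ → Bool := onCell 536870912 536870912 0 1230186008 1033476505 6710887
    (rowB 3 eng mog cd0q1 cd5q3 pd1 0 false true false .nn 1 1 3 (qsf 536870912 536870912 0 1230186008 1) ndB0q1 ndB5q3 pcB1 cut_pm_113 Ext.none)

def k0_pm_113 : ∃ t, chk3 f_pm_113 t 2 1 1 = true :=
  ⟨(b (l 2) (b (b (l 2) (l 4)) (l 4))), by decide +kernel⟩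

def k1_pm_113 : ∃ t, chk3 f_pm_113 t 6 1 1 = true :=
  ⟨(b (l 2) (b (b (a (l 2) (a (b (l 2) (l 14212096)) (b (l 14604800) (l 14543032)))) (a (b (a (b (l 2) (l 338322541847)) (b (l 13857840) (l 13864168))) (a (l 4) (b (l 13944144) (l 4)))) (b (a (l 14171152) (l 14482704)) (a (b (l 14172104) (l 14260904)) (b (l 14425816) (a (l 14390608) (l 14482040))))))) (b (a (l 4) (b (a (b (a (l 4) (l 14429800)) (l 4)) (b (a (l 14489128) (l 14568608)) (a (l 14642608) (b (l 14648384) (l 14774440))))) (a (l 4) (b (a (l 4) (l 4)) (l 4))))) (l 4)))), by decide +kernel⟩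

def k2_pm_113 : ∃ t, chk3 f_pm_113 t 7 1 1 = true :=
  ⟨(b (b (a (l 2) (a (l 2) (b (l 6) (b (a (l 2) (l 6)) (a (l 16576712) (l 16686416)))))) (a (b (a (l 2) (b (l 2) (l 555223094951))) (a (b (l 2) (l 15022912)) (b (a (l 15380536) (l 15527960)) (a (l 15292384) (l 15456784))))) (b (a (a (b (l 2) (l 15795504)) (b (l 16417560) (l 15971232))) (b (l 16667800) (l 16116952))) (a (a (b (l 15638464) (l 15541888)) (b (l 15724352) (l 15597016))) (b (l 15775440) (l 15618032)))))) (b (a (b (a (b (l 14924168) (l 14835592)) (b (l 15224984) (l 15080424))) (a (b (l 14741304) (l 14628600)) (b (l 14937544) (l 14784656)))) (b (a (a (b (l 15396528) (l 15220336)) (b (l 15499856) (l 15336912))) (b (l 15618552) (l 15487072))) (a (a (l 14946832) (l 15082104)) (b (l 15337312) (l 15164696))))) (b (a (b (a (b (a (l 14601616) (l 14634952)) (b (l 14542984) (a (l 14770456) (l 14794488)))) (l 14696896)) (a (b (b (a (l 14927600) (l 14863160)) (l 15037984)) (a (l 4) (l 15054472))) (b (b (a (l 14645808) (l 14733680)) (a (a (l 14914976)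 (l 14836960)) (l 14774968))) (a (b (l 15080424) (l 15341216)) (b (l 14866400) (l 15022408)))))) (a (b (b (l 14795304) (l 14723984)) (b (l 14737232) (a (b (l 14772200) (l 14844144)) (l 14807952)))) (b (l 14962536) (l 14858016)))) (a (b (a (l 4) (b (a (l 43181011031) (b (l 15287736) (l 15513128))) (a (l 4) (l 15709008)))) (l 4)) (b (a (b (a (b (l 14959224) (l 15189528)) (b (l 14880352) (l 14967472))) (a (l 15497648) (l 15232704))) (b (l 14910288) (a (l 15069608) (l 15006696)))) (a (b (a (l 15711704) (l 15571792)) (a (l 4) (l 15696968))) (b (a (l 15376504) (l 15163024)) (l 15214232)))))))), by decide +kernel⟩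

theorem s3_pm_113 : ∃ t, chk3 f_pm_113 t 3 1 1 = true := ex3_a k1_pm_113 k2_pm_113

theorem s4_pm_113 : ∃ t, chk3 f_pm_113 t 1 1 1 = true := ex3_a k0_pm_113 s3_pm_113

theorem c_pm_113 : CertB 536870912 536870912 0 1230186008 1033476505 6710887 3 eng mog cd0q1 cd5q3 pd1 false true false .nn 1 1 3
    ndB0q1 ndB5q3 pcB1 cut_pm_113 Ext.none :=
  certB0 (fam := false) (s1 := true) (s2 := false) (a := 1) (b := 1) (c := 3) (cn := .nn) (n1 := ndB0q1) (n2 := ndB5q3) (pc := pcB1) (cut := cut_pm_113) (xt := Ext.none) (P1 := 536870912) (W1 := 536870912) (P2 := 0) (W2 := 1230186008) (P3 := 1033476505) (W3 := 6710887) (N0 := 3) (En := eng) (mo := mog) (C1 := cd0q1) (C2 := cd5q3) (C3 := pd1)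
    rfl s4_pm_113

end Pool.Agent.Strip051.G.I9625_9688.Tab.C.BB05

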