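import Pool.Agent.Strip051.G.I9625_9688.Tab
import Pool.Agent.Strip051.PB.ExtD3

/-! # Certificates B25 (generated) -/

set_option linter.all false
set_option maxRecDepth 100000

namespace Pool.Agent.Strip051.G.I9625_9688.Tab.C.BB05

open Pool.Agent.Strip051.PB Pool.Agent.Strip051.PB.T
open Pool.Agent.Strip051.G.I9625_9688.Tab

noncomputable def cut_pm_123 : Cut := Cut.of [[⟨3, 0, 0, 1449551462⟩], [⟨0, 1, 0, 20971520⟩, ⟨1, 1, 0, 20971520⟩, ⟨2, 2, 0, 1572864⟩]]

noncomputable def f_pm_123 : ℕ → ℕ → ℕ → ℕ → Bool := onCell 1073741824 536870912 0 1230186008 1033476505 6710887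
    (rowB 3 eng mog cd0q1 cd5q3 pd2 2 false true false .npn 1 2 3 (qsf 536870912 536870912 0 1230186008 2) ndB0q1 ndB5q3 pcB2 cut_pm_123 Ext.none)

def k0_pm_123 : ∃ t, chk3 f_pm_123 t 1 4 1 = true :=
  ⟨(a (a (a (a (b (l 6) (b (a (l 6) (b (l 6) (a (l 16769592) (l 16671424)))) (a (a (l 16754208) (b (l 16786192) (l 16744304))) (b (l 16611168) (a (l 16531720) (l 16428608)))))) (b (a (l 6) (b (l 6) (a (b (l 6) (l 16601864)) (l 16522856)))) (b (a (b (a (l 16670544) (l 16606344)) (a (l 16576920) (l 16517944))) (b (l 16530616) (l 16439336))) (a (a (b (l 16475096) (l 16368176)) (l 16366328)) (l 16288168))))) (b (a (b (a (l 6) (l 16250000)) (b (l 16330704) (l 16198536))) (b (l 16043720) (b (l 16031720) (l 16014192)))) (b (a (b (a (l 16388416) (l 16217000)) (l 16228928)) (b (l 15984152) (l 15936472))) (a (a (l 16161888) (l 16022096)) (a (l 15883888) (l 15767184)))))) (a (b (b (a (l 15848704) (l 15752176)) (a (b (l 15823280) (l 15801768)) (l 15696560))) (b (a (b (l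 15771864) (l 15728352)) (b (l 15643520) (l 15593248))) (a (a (l 15669344) (l 15590184)) (l 15474320)))) (b (b (l 15634048) (a (l 15593208) (l 15491584))) (b (b (l 15465624) (l 15396344)) (a (l 15325632) (l 15179192)))))) (a (b (a (b (l 15466040) (l 15332168)) (b (l 15263688) (l 15094208))) (a (b (a (l 15239496) (l 15099016)) (a (l 15049808) (b (l 14953496) (a (l 14939472) (l 14982400))))) (b (a (l 14935688) (b (l 14906216) (l 14910848))) (a (b (l 14929408) (l 15148496)) (l 15270552))))) (b (a (b (l 15063000) (a (l 14941536) (l 14939272))) (b (a (l 14957760) (l 14989120)) (a (l 15072944) (l 15386568)))) (a (b (a (b (l 14912760) (l 15133464)) (l 15282576)) (l 15494272)) (b (l 15556880) (a (l 16174536) (l 16402800))))))), by decide +kernel⟩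

def k1_pm_123 : ∃ t, chk3 f_pm_123 t 2 5 1 = true :=
  ⟨(a (b (a (a (b (a (b (a (l 16758072) (l 16512808)) (a (l 16493032) (l 16321968))) (b (a (l 16377504) (l 16306792)) (a (l 16239448) (l 16191008)))) (a (b (a (l 16266872) (l 16170392)) (a (l 16108056) (l 16058680))) (b (l 16105928) (l 16022008)))) (b (a (b (l 16234984) (l 16132304)) (l 16082600)) (b (a (l 16040264) (l 15948960)) (l 15923472)))) (b (a (a (l 15961288) (l 15830800)) (a (l 15714272) (l 15610456))) (a (b (l 15777432) (l 15699440)) (b (l 15547728) (l 15515184))))) (a (b (a (a (b (l 15997616) (l 15961160)) (l 15945448)) (a (l 15887128) (l 15799696))) (a (b (a (l 15960624) (l 15917608)) (a (b (l 15964344) (l 15903816)) (b (l 15865944) (l 15713448)))) (b (a (b (l 15854824) (l 15807280)) (b (l 15736024) (l 15628640))) (a (l 15601200) (l 15428976))))) (a (b (b (l 15672232) (a (l 15668800) (l 15548440))) (b (a (l 15515936) (l 15368864)) (l 15227640))) (b (b (a (l 15518528) (l 15411816)) (a (l 15415400)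 (l 15289296))) (a (l 15167216) (l 15084472)))))) (a (b (a (b (l 15483744) (b (l 15393384) (l 15330992))) (b (l 15319272) (b (l 15222824) (l 15185408)))) (a (b (a (l 15252696) (l 15183632)) (a (l 15034088) (l 15040008))) (b (a (l 15160616) (l 15177048)) (l 14970096)))) (b (b (a (b (l 15198760) (l 15132368)) (b (l 15058800) (a (l 15055024) (l 15072480)))) (a (a (l 15124368) (l 15159456)) (l 15161328))) (a (b (l 15270136) (a (l 15319216) (l 15476768))) (b (l 15504000) (b (l 15700344) (l 15778384))))))), by decide +kernel⟩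

def k2_pm_123 : ∃ t, chk3 f_pm_123 t 3 5 1 = true :=
  ⟨(a (a (b (a (b (b (a (l 14992152) (l 15025744)) (l 15177016)) (l 15457728)) (b (l 15280664) (l 15756520))) (a (b (l 15816776) (l 15811064)) (b (a (l 16113040) (l 16274400)) (l 4)))) (b (b (a (l 15547472) (l 15845360)) (a (l 16055600) (l 16188024))) (a (b (l 16440624) (l 4)) (l 16547416)))) (b (a (b (a (l 16156072) (l 16409608)) (a (l 16541464) (l 4))) (a (l 16361376) (l 4))) (l 4))), by decide +kernel⟩

def k3_pm_123 : ∃ t, chk3 f_pm_123 t 1 3 1 = true :=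
  ⟨(b (a (b (a (a (b (a (b (a (l 15641496) (l 15461968)) (a (l 15278048) (l 15126560))) (b (a (l 15299776) (l 15164168)) (l 14945896))) (a (b (a (l 14909928) (l 14787128)) (l 14488784)) (b (l 14663888) (l 14383664)))) (a (b (b (l 15016352) (l 14805528)) (b (l 14595560) (l 14430784))) (b (a (l 14840232) (l 14811216)) (a (l 14570936) (l 14619960))))) (a (a (b (a (l 14817688) (l 14899712)) (a (l 14699304) (l 4))) (b (a (l 15034936) (l 15195536)) (l 4))) (a (b (a (l 15368968) (l 15541784)) (l 4)) (l 4)))) (b (a (a (a (b (l 14139752) (l 13932200)) (b (l 14190168) (l 4))) (a (l 4) (l 4))) (l 4)) (l 4))) (l 4)) (l 4)), by decide +kernel⟩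

theorem s4_pm_123 : ∃ t, chk3 f_pm_123 t 1 5 1 = true := ex3_a k1_pm_123 k2_pm_123

theorem s5_pm_123 : ∃ t, chk3 f_pm_123 t 1 2 1 = true := ex3_b k0_pm_123 s4_pm_123

theorem s6_pm_123 : ∃ t, chk3 f_pm_123 t 1 1 1 = true := ex3_b s5_pm_123 k3_pm_123

theorem c_pm_123 : CertB 536870912 536870912 0 1230186008 1033476505 6710887 3 eng mog cd0q1 cd5q3 pd2 false true false .npn 1 2 3
    ndB0q1 ndB5q3 pcB2 cut_pm_123 Ext.none :=
  certB2 (fam := false) (s1 := true) (s2 := false) (a := 1) (b := 2) (c := 3) (cn := .npn) (n1 := ndB0q1) (n2 := ndB5q3) (pc := pcB2) (cut := cut_pm_123) (xt := Ext.none) (P1 := 536870912) (W1 := 536870912) (P2 := 0) (W2 := 1230186008) (P3 := 1033476505) (W3 := 6710887) (N0 := 3) (En := eng) (mo := mog) (C1 := cd0q1) (C2 := cd5q3) (C3 := pd2)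
    rfl (fun _ => rfl) s6_pm_123

noncomputable def cut_pm_133 : Cut := Cut.of [[⟨3, 0, 0, 1449551462⟩]]

noncomputable def f_pm_133 : ℕ → ℕ → ℕ → ℕ → Bool := onCell 536870912 536870912 0 1230186008 1033476505 6710887
    (rowB 3 eng mog cd0q1 cd5q3 pd3 0 false true false .dn 1 3 3 (qsf 536870912 536870912 0 1230186008 3) ndB0q1 ndB5q3 pcB3 cut_pm_133 Ext.none)

def k0_pm_133 : ∃ t, chk3 f_pm_133 t 1 1 1 = true :=
  ⟨(b (b (a (a (a (b (b (a (l 14775992) (l 1)) (l 1)) (l 1)) (l 1)) (l 1)) (l 1)) (l 1)) (l 1)), by decide +kernel⟩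

theorem c_pm_133 : CertB 536870912 536870912 0 1230186008 1033476505 6710887 3 eng mog cd0q1 cd5q3 pd3 false true false .dn 1 3 3
    ndB0q1 ndB5q3 pcB3 cut_pm_133 Ext.none :=
  certB0 (fam := false) (s1 := true) (s2 := false) (a := 1) (b := 3) (c := 3) (cn := .dn) (n1 := ndB0q1) (n2 := ndB5q3) (pc := pcB3) (cut := cut_pm_133) (xt := Ext.none) (P1 := 536870912) (W1 := 536870912) (P2 := 0) (W2 := 1230186008) (P3 := 1033476505) (W3 := 6710887) (N0 := 3) (En := eng) (mo := mog) (C1 := cd0q1) (C2 := cd5q3) (C3 := pd3)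
    rfl k0_pm_133

noncomputable def cut_pm_202 : Cut := Cut.of [[⟨3, 0, 0, 1449551462⟩]]

noncomputable def f_pm_202 : ℕ → ℕ → ℕ → ℕ → Bool := onCell 0 536870912 1073741824 536870912 1033476505 6710887
    (rowB 3 eng mog cd0q2 cd5q2 pd0 0 false true false .pp 2 0 2 (qsf 0 536870912 1073741824 536870912 0) ndB0q2 ndB5q2 pcB0 cut_pm_202 Ext.none)

def k0_pm_202 : ∃ t, chk3 f_pm_202 t 2 1 1 = true :=
  ⟨(b (a (b (l 1) (b (b (a (l 15555112) (b (l 1) (l 15502896))) (a (b (l 15770120) (l 15916960)) (b (b (l 15623176) (l 15639200)) (l 15824616)))) (b (b (a (l 16077936) (b (l 15951808) (l 16026800))) (l 16165576)) (l 16335840)))) (b (b (l 1) (b (l 1) (a (l 1) (b (l 1) (l 14836912))))) (a (b (a (b (l 15281816) (b (l 15555224) (l 15747920))) (b (l 15183368) (l 15554792))) (b (b (a (l 15916496) (l 15841472)) (l 16042496)) (l 16249728))) (b (b (b (l 14952912) (l 15120632)) (l 15409992)) (b (l 15796656) (l 16160080)))))) (b (b (a (b (l 16495360) (l 16560272)) (a (b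 (l 16463576) (l 16573312)) (b (l 16432832) (l 16599728)))) (a (b (l 16510816) (a (b (l 16345904) (l 16167720)) (l 16364072))) (b (l 16593264) (l 16328184)))) (b (a (b (a (b (l 15964664) (a (l 15897640) (l 15733944))) (l 15974176)) (a (a (l 16010704) (l 15702728)) (a (b (l 15540720) (l 15426688)) (l 15491976)))) (b (a (l 16170336) (l 16319560)) (a (l 15679640) (l 15941720)))) (a (a (b (l 16040952) (a (b (l 16391192) (l 16441328)) (l 16106800))) (b (a (l 15539936) (l 15242560)) (l 15593104))) (b (a (b (l 15258648) (l 15027368)) (l 15414696)) (a (a (l 15068248) (b (l 14785592) (l 14771144))) (b (l 14947728) (l 14521320)))))))), by decide +kernel⟩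

def k1_pm_202 : ∃ t, chk3 f_pm_202 t 3 1 1 = true :=
  ⟨(b (a (a (b (b (l 1) (b (l 1) (a (b (l 14565016) (l 14670360)) (b (a (l 14486608) (l 4)) (l 14563864))))) (b (b (a (l 14869456) (b (l 14669952) (l 14835976))) (a (l 15253040) (l 15132960))) (b (l 15451920) (l 15968824)))) (b (l 4) (a (b (b (b (l 4) (l 14714960)) (l 14988256)) (b (l 15371968) (l 15747864))) (b (l 4) (b (l 15180272) (l 15529440)))))) (b (l 4) (b (l 4) (a (l 4) (l 4))))) (a (b (b (a (b (l 16250208) (l 16545800)) (b (l 15931088) (l 16200792))) (a (b (l 16671656) (l 16652608)) (b (l 16431800) (l 16515936)))) (b (a (b (l 16483864) (l 16201888)) (b (a (l 16566984) (l 16452168)) (a (l 16360328) (l 16379304)))) (a (b (l 15785648) (l 15219112)) (b (l 16092440) (l 15710080))))) (b (a (b (a (b (l 15607040) (l 15859984)) (b (l 4) (l 15616832))) (a (l 16068712) (b (l 15785376) (l 15884568)))) (b (l 4) (a (b (l 4) (l 15726872)) (l 4)))) (a (b (a (b (l 16218776) (l 16232216)) (l 15970208)) (a (b (l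 16090696) (l 15808560)) (b (l 15987480) (a (l 15851200) (l 15877336))))) (b (a (l 15798288) (l 15644608)) (a (b (l 15848832) (l 15827952)) (l 15707776))))))), by decide +kernel⟩

theorem s2_pm_202 : ∃ t, chk3 f_pm_202 t 1 1 1 = true := ex3_a k0_pm_202 k1_pm_202

theorem c_pm_202 : CertB 0 536870912 1073741824 536870912 1033476505 6710887 3 eng mog cd0q2 cd5q2 pd0 false true false .pp 2 0 2
    ndB0q2 ndB5q2 pcB0 cut_pm_202 Ext.none :=
  certB0 (fam := false) (s1 := true) (s2 := false) (a := 2) (b := 0) (c := 2) (cn := .pp) (n1 := ndB0q2) (n2 := ndB5q2) (pc := pcB0) (cut := cut_pm_202) (xt := Ext.none) (P1 := 0) (W1 := 536870912) (P2 := 1073741824) (W2 := 536870912) (P3 := 1033476505) (W3 := 6710887) (N0 := 3) (En := eng) (mo := mog) (C1 := cd0q2) (C2 := cd5q2) (C3 := pd0)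
    rfl s2_pm_202

noncomputable def cut_pm_203 : Cut := Cut.of [[⟨3, 0, 0, 1449551462⟩]]

noncomputable def f_pm_203 : ℕ → ℕ → ℕ → ℕ → Bool := onCell 0 536870912 0 1230186008 1033476505 6710887
    (rowB 3 eng mog cd0q2 cd5q3 pd0 0 false true false .up 2 0 3 (qsf 0 536870912 0 1230186008 0) ndB0q2 ndB5q3 pcB0 cut_pm_203 Ext.none)

def k0_pm_203 : ∃ t, chk3 f_pm_203 t 1 1 1 = true :=
  ⟨(b (l 2) (b (l 2) (b (a (b (l 2) (a (a (l 6) (l 163845514727)) (a (l 16172824) (b (l 2) (a (l 15882864) (l 2)))))) (l 2)) (a (b (a (a (b (a (l 6) (l 16512112)) (l 16512000)) (b (l 16314928) (l 16216544))) (a (b (a (l 16111248) (l 15921048)) (a (b (l 16020160) (l 15916784)) (l 15684592))) (b (a (l 15517392) (l 15321576)) (l 15134328)))) (a (a (b (l 16459848) (a (l 16480696) (b (l 16339352) (l 16294176)))) (b (a (l 16215744) (b (l 16081704) (l 15956048))) (b (l 15850704) (l 15797048)))) (a (b (l 15499440) (l 15084480)) (b (l 14779952) (b (l 14536048) (a (l 14555888) (l 14406432)))))))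 (a (b (a (b (l 14645456) (l 14353000)) (b (l 2) (a (l 14027336) (b (l 2) (l 13963024))))) (a (b (a (l 14275416) (b (l 14019736) (l 14072032))) (a (b (l 14225384) (l 14567712)) (l 14638240))) (b (a (b (l 13981040) (l 14348416)) (l 14550656)) (a (l 14969408) (l 15256088))))) (b (a (b (l 2) (a (b (l 2) (l 14246632)) (l 2))) (l 2)) (a (a (b (l 14766496) (l 15355424)) (b (l 14878800) (l 15438464))) (b (a (l 15108416) (l 2)) (a (b (l 15557008) (l 15750784)) (l 15480528)))))))))), by decide +kernel⟩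

theorem c_pm_203 : CertB 0 536870912 0 1230186008 1033476505 6710887 3 eng mog cd0q2 cd5q3 pd0 false true false .up 2 0 3
    ndB0q2 ndB5q3 pcB0 cut_pm_203 Ext.none :=
  certB0 (fam := false) (s1 := true) (s2 := false) (a := 2) (b := 0) (c := 3) (cn := .up) (n1 := ndB0q2) (n2 := ndB5q3) (pc := pcB0) (cut := cut_pm_203) (xt := Ext.none) (P1 := 0) (W1 := 536870912) (P2 := 0) (W2 := 1230186008) (P3 := 1033476505) (W3 := 6710887) (N0 := 3) (En := eng) (mo := mog) (C1 := cd0q2) (C2 := cd5q3) (C3 := pd0)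
    rfl k0_pm_203

noncomputable def cut_pm_213 : Cut := Cut.of [[⟨3, 0, 0, 1449551462⟩], [⟨0, 1, 0, 20971520⟩, ⟨1, 1, 0, 20971520⟩, ⟨2, 2, 0, 1572864⟩]]

noncomputable def f_pm_213 : ℕ → ℕ → ℕ → ℕ → Bool := onCell 0 536870912 0 1230186008 1033476505 6710887
    (rowB 3 eng mog cd0q2 cd5q3 pd1 0 false true false .pnn 2 1 3 (qsf 0 536870912 0 1230186008 1) ndB0q2 ndB5q3 pcB1 cut_pm_213 Ext.none)

def k0_pm_213 : ∃ t, chk3 f_pm_213 t 2 1 1 = true :=
  ⟨(b (l 6) (b (b (l 6) (a (l 6) (b (a (l 6) (a (l 6) (l 16065992))) (a (b (l 6) (a (l 6) (l 15806872))) (l 15959728))))) (b (b (a (l 6) (a (l 15758144) (l 15959416))) (a (a (l 6) (b (l 15599800) (l 15658608))) (a (l 15838296) (b (l 16039080) (l 16001976))))) (b (a (l 1) (a (l 1) (b (l 16176576) (l 1)))) (l 1))))), by decide +kernel⟩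

def k1_pm_213 : ∃ t, chk3 f_pm_213 t 3 1 1 = true :=
  ⟨(b (b (a (l 6) (l 6)) (a (b (l 6) (a (l 6) (b (l 6) (a (l 6) (l 16534256))))) (b (a (a (l 6) (b (l 6) (a (l 6) (l 16273848)))) (b (a (l 6) (l 16464288)) (a (a (l 16217376) (l 16161176)) (l 16087400)))) (a (a (b (b (l 6) (l 16386328)) (l 16344392)) (b (l 16045536) (l 16116992))) (a (b (l 16034488) (l 15945672)) (b (l 15849752) (l 15731504))))))) (b (a (b (a (b (a (l 6) (l 6)) (a (b (l 6) (l 16226984)) (l 16340416))) (b (l 16335184) (l 16410136))) (a (b (l 16041160) (l 16153040)) (b (l 16325936) (a (l 16279408) (l 16330496))))) (a (b (a (b (l 16322128) (l 16332544)) (b (l 16090064) (l 16100888))) (a (b (l 16320192) (l 16359712)) (b (l 16117536) (l 16065008)))) (b (a (b (l 15917272) (l 15926408)) (b (l 15701624) (l 15658800))) (a (b (l 15918864) (l 15797880)) (b (l 15620264) (l 15464696)))))) (a (b (b (a (a (l 16135120) (l 16158496)) (b (l 16210968) (l 16505064))) (a (a (b (l 16205480) (l 16387088)) (l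 16489520)) (l 16534168))) (b (a (l 16464808) (b (l 16357768) (l 16228328))) (l 1))) (b (a (a (b (l 16267048) (l 16077824)) (b (l 15921800) (l 15708056))) (b (a (l 15623248) (l 15270848)) (a (l 15286696) (l 15068376)))) (b (a (a (l 15718560) (l 15415528)) (a (l 15333944) (l 15086160))) (a (a (l 15886016) (l 15625176)) (a (b (l 15404520) (l 15490128)) (b (l 15216232) (l 15351088))))))))), by decide +kernel⟩

theorem s2_pm_213 : ∃ t, chk3 f_pm_213 t 1 1 1 = true := ex3_a k0_pm_213 k1_pm_213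

theorem c_pm_213 : CertB 0 536870912 0 1230186008 1033476505 6710887 3 eng mog cd0q2 cd5q3 pd1 false true false .pnn 2 1 3
    ndB0q2 ndB5q3 pcB1 cut_pm_213 Ext.none :=
  certB0 (fam := false) (s1 := true) (s2 := false) (a := 2) (b := 1) (c := 3) (cn := .pnn) (n1 := ndB0q2) (n2 := ndB5q3) (pc := pcB1) (cut := cut_pm_213) (xt := Ext.none) (P1 := 0) (W1 := 536870912) (P2 := 0) (W2 := 1230186008) (P3 := 1033476505) (W3 := 6710887) (N0 := 3) (En := eng) (mo := mog) (C1 := cd0q2) (C2 := cd5q3) (C3 := pd1)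
    rfl s2_pm_213

noncomputable def cut_mm_001 : Cut := Cut.of [[⟨3, 0, 0, 1449551462⟩]]

noncomputable def f_mm_001 : ℕ → ℕ → ℕ → ℕ → Bool := onCell 0 536870912 536870912 536870912 1033476505 6710887
    (rowB 3 eng mog cd0q0 cd5q1 pd0 0 false false false .up 0 0 1 (qsf 0 536870912 536870912 536870912 0) ndB0q0 ndB5q1 pcB0 cut_mm_001 Ext.none)

def k0_mm_001 : ∃ t, chk3 f_mm_001 t 1 1 1 = true :=
  ⟨(l 6), by decide +kernel⟩

theorem c_mm_001 : CertB 0 536870912 536870912 536870912 1033476505 6710887 3 eng mog cd0q0 cd5q1 pd0 false false false .up 0 0 1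
    ndB0q0 ndB5q1 pcB0 cut_mm_001 Ext.none :=
  certB0 (fam := false) (s1 := false) (s2 := false) (a := 0) (b := 0) (c := 1) (cn := .up) (n1 := ndB0q0) (n2 := ndB5q1) (pc := pcB0) (cut := cut_mm_001) (xt := Ext.none) (P1 := 0) (W1 := 536870912) (P2 := 536870912) (W2 := 536870912) (P3 := 1033476505) (W3 := 6710887) (N0 := 3) (En := eng) (mo := mog) (C1 := cd0q0) (C2 := cd5q1) (C3 := pd0)
    rfl k0_mm_001

noncomputable def cut_mm_011 : Cut := Cut.of [[⟨3, 0, 0, 1449551462⟩]]

noncomputable def f_mm_011 : ℕ → ℕ → ℕ → ℕ → Bool := onCell 0 536870912 536870912 536870912 1033476505 6710887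
    (rowB 3 eng mog cd0q0 cd5q1 pd1 0 false false false .pnn 0 1 1 (qsf 0 536870912 536870912 536870912 1) ndB0q0 ndB5q1 pcB1 cut_mm_011 Ext.none)

def k0_mm_011 : ∃ t, chk3 f_mm_011 t 1 1 1 = true :=
  ⟨(l 6), by decide +kernel⟩

theorem c_mm_011 : CertB 0 536870912 536870912 536870912 1033476505 6710887 3 eng mog cd0q0 cd5q1 pd1 false false false .pnn 0 1 1
    ndB0q0 ndB5q1 pcB1 cut_mm_011 Ext.none :=
  certB0 (fam := false) (s1 := false) (s2 := false) (a := 0) (b := 1) (c := 1) (cn := .pnn) (n1 := ndB0q0) (n2 := ndB5q1) (pc := pcB1) (cut := cut_mm_011) (xt := Ext.none) (P1 := 0) (W1 := 536870912) (P2 := 536870912) (W2 := 536870912) (P3 := 1033476505) (W3 := 6710887) (N0 := 3) (En := eng) (mo := mog) (C1 := cd0q0) (C2 := cd5q1) (C3 := pd1)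
    rfl k0_mm_011

noncomputable def cut_mm_012 : Cut := Cut.of [[⟨3, 0, 0, 1449551462⟩]]

noncomputable def f_mm_012 : ℕ → ℕ → ℕ → ℕ → Bool := onCell 0 536870912 1073741824 536870912 1033476505 6710887
    (rowB 3 eng mog cd0q0 cd5q2 pd1 0 false false false .pnp 0 1 2 (qsf 0 536870912 1073741824 536870912 1) ndB0q0 ndB5q2 pcB1 cut_mm_012 Ext.none)

def k0_mm_012 : ∃ t, chk3 f_mm_012 t 1 1 1 = true :=
  ⟨(l 5), by decide +kernel⟩

theorem c_mm_012 : CertB 0 536870912 1073741824 536870912 1033476505 6710887 3 eng mog cd0q0 cd5q2 pd1 false false false .pnp 0 1 2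
    ndB0q0 ndB5q2 pcB1 cut_mm_012 Ext.none :=
  certB0 (fam := false) (s1 := false) (s2 := false) (a := 0) (b := 1) (c := 2) (cn := .pnp) (n1 := ndB0q0) (n2 := ndB5q2) (pc := pcB1) (cut := cut_mm_012) (xt := Ext.none) (P1 := 0) (W1 := 536870912) (P2 := 1073741824) (W2 := 536870912) (P3 := 1033476505) (W3 := 6710887) (N0 := 3) (En := eng) (mo := mog) (C1 := cd0q0) (C2 := cd5q2) (C3 := pd1)
    rfl k0_mm_012

noncomputable def cut_mm_022 : Cut := Cut.of [[⟨3, 0, 0, 1449551462⟩]]

noncomputable def f_mm_022 : ℕ → ℕ → ℕ → ℕ → Bool := onCell 0 536870912 1073741824 536870912 1033476505 6710887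
    (rowB 3 eng mog cd0q0 cd5q2 pd2 0 false false false .pp 0 2 2 (qsf 0 536870912 1073741824 536870912 2) ndB0q0 ndB5q2 pcB2 cut_mm_022 Ext.none)

def k0_mm_022 : ∃ t, chk3 f_mm_022 t 1 1 1 = true :=
  ⟨(l 5), by decide +kernel⟩

theorem c_mm_022 : CertB 0 536870912 1073741824 536870912 1033476505 6710887 3 eng mog cd0q0 cd5q2 pd2 false false false .pp 0 2 2
    ndB0q0 ndB5q2 pcB2 cut_mm_022 Ext.none :=
  certB0 (fam := false) (s1 := false) (s2 := false) (a := 0) (b := 2) (c := 2) (cn := .pp) (n1 := ndB0q0) (n2 := ndB5q2) (pc := pcB2) (cut := cut_mm_022) (xt := Ext.none) (P1 := 0) (W1 := 536870912) (P2 := 1073741824) (W2 := 536870912) (P3 := 1033476505) (W3 := 6710887) (N0 := 3) (En := eng) (mo := mog) (C1 := cd0q0) (C2 := cd5q2) (C3 := pd2)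
    rfl k0_mm_022

noncomputable def cut_mm_023 : Cut := Cut.of [[⟨3, 0, 0, 1449551462⟩]]

noncomputable def f_mm_023 : ℕ → ℕ → ℕ → ℕ → Bool := onCell 0 536870912 0 1230186008 1033476505 6710887
    (rowB 3 eng mog cd0q0 cd5q3 pd2 0 false false false .up 0 2 3 (qsf 0 536870912 0 1230186008 2) ndB0q0 ndB5q3 pcB2 cut_mm_023 Ext.none)

def k0_mm_023 : ∃ t, chk3 f_mm_023 t 1 1 1 = true :=
  ⟨(l 5), by decide +kernel⟩

theorem c_mm_023 : CertB 0 536870912 0 1230186008 1033476505 6710887 3 eng mog cd0q0 cd5q3 pd2 false false false .up 0 2 3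
    ndB0q0 ndB5q3 pcB2 cut_mm_023 Ext.none :=
  certB0 (fam := false) (s1 := false) (s2 := false) (a := 0) (b := 2) (c := 3) (cn := .up) (n1 := ndB0q0) (n2 := ndB5q3) (pc := pcB2) (cut := cut_mm_023) (xt := Ext.none) (P1 := 0) (W1 := 536870912) (P2 := 0) (W2 := 1230186008) (P3 := 1033476505) (W3 := 6710887) (N0 := 3) (En := eng) (mo := mog) (C1 := cd0q0) (C2 := cd5q3) (C3 := pd2)
    rfl k0_mm_023

noncomputable def cut_mm_033 : Cut := Cut.of [[⟨3, 0, 0, 1449551462⟩]]

noncomputable def f_mm_033 : ℕ → ℕ → ℕ → ℕ → Bool := onCell 0 536870912 0 1230186008 1033476505 6710887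
    (rowB 3 eng mog cd0q0 cd5q3 pd3 0 false false false .pnn 0 3 3 (qsf 0 536870912 0 1230186008 3) ndB0q0 ndB5q3 pcB3 cut_mm_033 Ext.none)

def k0_mm_033 : ∃ t, chk3 f_mm_033 t 1 1 1 = true :=
  ⟨(l 5), by decide +kernel⟩

theorem c_mm_033 : CertB 0 536870912 0 1230186008 1033476505 6710887 3 eng mog cd0q0 cd5q3 pd3 false false false .pnn 0 3 3
    ndB0q0 ndB5q3 pcB3 cut_mm_033 Ext.none :=
  certB0 (fam := false) (s1 := false) (s2 := false) (a := 0) (b := 3) (c := 3) (cn := .pnn) (n1 := ndB0q0) (n2 := ndB5q3) (pc := pcB3) (cut := cut_mm_033) (xt := Ext.none) (P1 := 0) (W1 := 536870912) (P2 := 0) (W2 := 1230186008) (P3 := 1033476505) (W3 := 6710887) (N0 := 3) (En := eng) (mo := mog) (C1 := cd0q0) (C2 := cd5q3) (C3 := pd3)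
    rfl k0_mm_033

noncomputable def cut_mm_101 : Cut := Cut.of [[⟨3, 0, 0, 1449551462⟩], [⟨0, 1, 0, 33554432⟩, ⟨1, 0, 0, 33554432⟩, ⟨2, 1, 0, 33554432⟩]]

noncomputable def f_mm_101 : ℕ → ℕ → ℕ → ℕ → Bool := onCell 536870912 536870912 0 536870912 1033476505 6710887
    (rowB 3 eng mog cd0q1 cd5q1 pd0 1 false false false .npn 1 0 1 (qsf 536870912 536870912 536870912 536870912 0) ndB0q1 ndB5q1 pcB0 cut_mm_101 Ext.none)

def k0_mm_101 : ∃ t, chk3 f_mm_101 t 1 1 1 = true :=
  ⟨(l 6), by decide +kernel⟩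

theorem c_mm_101 : CertB 536870912 536870912 536870912 536870912 1033476505 6710887 3 eng mog cd0q1 cd5q1 pd0 false false false .npn 1 0 1
    ndB0q1 ndB5q1 pcB0 cut_mm_101 Ext.none :=
  certB1 (fam := false) (s1 := false) (s2 := false) (a := 1) (b := 0) (c := 1) (cn := .npn) (n1 := ndB0q1) (n2 := ndB5q1) (pc := pcB0) (cut := cut_mm_101) (xt := Ext.none) (P1 := 536870912) (W1 := 536870912) (P2 := 536870912) (W2 := 536870912) (P3 := 1033476505) (W3 := 6710887) (N0 := 3) (En := eng) (mo := mog) (C1 := cd0q1) (C2 := cd5q1) (C3 := pd0)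
    rfl (fun _ => rfl) k0_mm_101

noncomputable def cut_mm_102 : Cut := Cut.of [[⟨3, 0, 0, 1449551462⟩], [⟨0, 1, 0, 33554432⟩, ⟨1, 0, 0, 33554432⟩, ⟨2, 1, 0, 33554432⟩]]

noncomputable def f_mm_102 : ℕ → ℕ → ℕ → ℕ → Bool := onCell 536870912 536870912 1073741824 536870912 1033476505 6710887
    (rowB 3 eng mog cd0q1 cd5q2 pd0 0 false false false .npp 1 0 2 (qsf 536870912 536870912 1073741824 536870912 0) ndB0q1 ndB5q2 pcB0 cut_mm_102 Ext.none)

def k0_mm_102 : ∃ t, chk3 f_mm_102 t 1 1 1 = true :=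
  ⟨(l 6), by decide +kernel⟩

theorem c_mm_102 : CertB 536870912 536870912 1073741824 536870912 1033476505 6710887 3 eng mog cd0q1 cd5q2 pd0 false false false .npp 1 0 2
    ndB0q1 ndB5q2 pcB0 cut_mm_102 Ext.none :=
  certB0 (fam := false) (s1 := false) (s2 := false) (a := 1) (b := 0) (c := 2) (cn := .npp) (n1 := ndB0q1) (n2 := ndB5q2) (pc := pcB0) (cut := cut_mm_102) (xt := Ext.none) (P1 := 536870912) (W1 := 536870912) (P2 := 1073741824) (W2 := 536870912) (P3 := 1033476505) (W3 := 6710887) (N0 := 3) (En := eng) (mo := mog) (C1 := cd0q1) (C2 := cd5q2) (C3 := pd0)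
    rfl k0_mm_102

noncomputable def cut_mm_112 : Cut := Cut.of [[⟨3, 0, 0, 1449551462⟩]]

noncomputable def f_mm_112 : ℕ → ℕ → ℕ → ℕ → Bool := onCell 536870912 536870912 1073741824 536870912 1033476505 6710887
    (rowB 3 eng mog cd0q1 cd5q2 pd1 0 false false false .dn 1 1 2 (qsf 536870912 536870912 1073741824 536870912 1) ndB0q1 ndB5q2 pcB1 cut_mm_112 Ext.none)

def k0_mm_112 : ∃ t, chk3 f_mm_112 t 1 1 1 = true :=
  ⟨(l 6), by decide +kernel⟩

theorem c_mm_112 : CertB 536870912 536870912 1073741824 536870912 1033476505 6710887 3 eng mog cd0q1 cd5q2 pd1 false false false .dn 1 1 2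
    ndB0q1 ndB5q2 pcB1 cut_mm_112 Ext.none :=
  certB0 (fam := false) (s1 := false) (s2 := false) (a := 1) (b := 1) (c := 2) (cn := .dn) (n1 := ndB0q1) (n2 := ndB5q2) (pc := pcB1) (cut := cut_mm_112) (xt := Ext.none) (P1 := 536870912) (W1 := 536870912) (P2 := 1073741824) (W2 := 536870912) (P3 := 1033476505) (W3 := 6710887) (N0 := 3) (En := eng) (mo := mog) (C1 := cd0q1) (C2 := cd5q2) (C3 := pd1)
    rfl k0_mm_112

noncomputable def cut_mm_113 : Cut := Cut.of [[⟨3, 0, 0, 1449551462⟩]]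

noncomputable def f_mm_113 : ℕ → ℕ → ℕ → ℕ → Bool := onCell 536870912 536870912 0 1230186008 1033476505 6710887
    (rowB 3 eng mog cd0q1 cd5q3 pd1 0 false false false .nn 1 1 3 (qsf 536870912 536870912 0 1230186008 1) ndB0q1 ndB5q3 pcB1 cut_mm_113 Ext.none)

def k0_mm_113 : ∃ t, chk3 f_mm_113 t 1 1 1 = true :=
  ⟨(a (l 5) (b (l 5) (l 6))), by decide +kernel⟩

theorem c_mm_113 : CertB 536870912 536870912 0 1230186008 1033476505 6710887 3 eng mog cd0q1 cd5q3 pd1 false false false .nn 1 1 3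
    ndB0q1 ndB5q3 pcB1 cut_mm_113 Ext.none :=
  certB0 (fam := false) (s1 := false) (s2 := false) (a := 1) (b := 1) (c := 3) (cn := .nn) (n1 := ndB0q1) (n2 := ndB5q3) (pc := pcB1) (cut := cut_mm_113) (xt := Ext.none) (P1 := 536870912) (W1 := 536870912) (P2 := 0) (W2 := 1230186008) (P3 := 1033476505) (W3 := 6710887) (N0 := 3) (En := eng) (mo := mog) (C1 := cd0q1) (C2 := cd5q3) (C3 := pd1)
    rfl k0_mm_113

noncomputable def cut_mm_123 : Cut := Cut.of [[⟨3, 0, 0, 1449551462⟩]]

noncomputable def f_mm_123 : ℕ → ℕ → ℕ → ℕ → Bool := onCell 1073741824 536870912 0 1230186008 1033476505 6710887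
    (rowB 3 eng mog cd0q1 cd5q3 pd2 2 false false false .npn 1 2 3 (qsf 536870912 536870912 0 1230186008 2) ndB0q1 ndB5q3 pcB2 cut_mm_123 Ext.none)

def k0_mm_123 : ∃ t, chk3 f_mm_123 t 1 1 1 = true :=
  ⟨(b (l 5) (l 5)), by decide +kernel⟩

theorem c_mm_123 : CertB 536870912 536870912 0 1230186008 1033476505 6710887 3 eng mog cd0q1 cd5q3 pd2 false false false .npn 1 2 3
    ndB0q1 ndB5q3 pcB2 cut_mm_123 Ext.none :=
  certB2 (fam := false) (s1 := false) (s2 := false) (a := 1) (b := 2) (c := 3) (cn := .npn) (n1 := ndB0q1) (n2 := ndB5q3) (pc := pcB2) (cut := cut_mm_123) (xt := Ext.none) (P1 := 536870912) (W1 := 536870912) (P2 := 0) (W2 := 1230186008) (P3 := 1033476505) (W3 := 6710887) (N0 := 3) (En := eng) (mo := mog) (C1 := cd0q1) (C2 := cd5q3) (C3 := pd2)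
    rfl (fun _ => rfl) k0_mm_123

noncomputable def cut_mm_133 : Cut := Cut.of [[⟨3, 0, 0, 1449551462⟩]]

noncomputable def f_mm_133 : ℕ → ℕ → ℕ → ℕ → Bool := onCell 1610612736 536870912 0 1230186008 1033476505 6710887
    (rowB 3 eng mog cd0q1 cd5q3 pd3 2 false false false .dn 1 3 3 (qsf 536870912 536870912 0 1230186008 3) ndB0q1 ndB5q3 pcB3 cut_mm_133 Ext.none)

def k0_mm_133 : ∃ t, chk3 f_mm_133 t 1 1 1 = true :=
  ⟨(l 5), by decide +kernel⟩

theorem c_mm_133 : CertB 536870912 536870912 0 1230186008 1033476505 6710887 3 eng mog cd0q1 cd5q3 pd3 false false false .dn 1 3 3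
    ndB0q1 ndB5q3 pcB3 cut_mm_133 Ext.none :=
  certB2 (fam := false) (s1 := false) (s2 := false) (a := 1) (b := 3) (c := 3) (cn := .dn) (n1 := ndB0q1) (n2 := ndB5q3) (pc := pcB3) (cut := cut_mm_133) (xt := Ext.none) (P1 := 536870912) (W1 := 536870912) (P2 := 0) (W2 := 1230186008) (P3 := 1033476505) (W3 := 6710887) (N0 := 3) (En := eng) (mo := mog) (C1 := cd0q1) (C2 := cd5q3) (C3 := pd3)
    rfl (fun _ => rfl) k0_mm_133

noncomputable def cut_mm_202 : Cut := Cut.of [[⟨3, 0, 0, 1449551462⟩], [⟨0, 1, 0, 22369621⟩, ⟨1, 0, 0, 22369621⟩, ⟨2, 1, 0, 22369621⟩]]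

noncomputable def f_mm_202 : ℕ → ℕ → ℕ → ℕ → Bool := onCell 0 536870912 0 536870912 1033476505 6710887
    (rowB 3 eng mog cd0q2 cd5q2 pd0 1 false false false .pp 2 0 2 (qsf 0 536870912 1073741824 536870912 0) ndB0q2 ndB5q2 pcB0 cut_mm_202 Ext.none)

def k0_mm_202 : ∃ t, chk3 f_mm_202 t 1 1 1 = true :=
  ⟨(a (a (b (b (b (b (b (l 15829576) (b (l 15966088) (l 16036352))) (b (b (l 16123256) (l 16205968)) (l 16287184))) (b (l 16395344) (l 16518728))) (b (b (a (l 16543360) (b (l 16512880) (l 16503464))) (b (a (l 16481424) (a (l 16453248) (l 16509392))) (a (l 16410008) (l 16512944)))) (b (a (b (a (l 16291472) (l 16327152)) (l 16043120)) (l 16549688)) (a (l 16304784) (a (l 16665656) (b (l 16671264) (l 16647880))))))) (b (b (b (a (a (l 16315784) (l 16525568)) (a (b (l 16731296) (l 16745032)) (l 16624552))) (a (a (b (l 16473200) (l 16556248)) (l 16658384)) (l 16663632))) (a (b (l 16625496) (l 16664856)) (l 6))) (l 2))) (b (b (b (b (b (a (l 15914032) (a (l 15912672)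 (l 15913680))) (a (b (l 15995624) (l 16060144)) (b (l 15960864) (l 16011456)))) (b (b (a (l 16149208) (l 16108976)) (a (l 16234552) (l 16193504))) (a (l 16301144) (l 16247672)))) (b (a (l 16398544) (b (l 16303192) (a (l 16365480) (l 16247800)))) (a (b (l 16452224) (a (l 16480504) (l 16462472))) (a (b (l 16365248) (l 16482960)) (l 6))))) (b (b (a (b (a (l 16491488) (l 16528248)) (l 16545896)) (a (l 16416976) (l 6))) (a (b (l 16632136) (a (l 16714456) (l 6))) (l 6))) (a (b (a (b (l 16605784) (a (l 16568240) (l 6))) (l 6)) (l 6)) (l 6)))) (l 6))) (b (a (b (a (b (a (b (b (l 15939824) (b (l 15945696) (l 15985112))) (b (b (l 16067488) (l 16152224)) (l 6))) (l 6)) (l 6)) (l 6)) (l 6)) (l 6)) (l 6))), by decide +kernel⟩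

theorem c_mm_202 : CertB 0 536870912 1073741824 536870912 1033476505 6710887 3 eng mog cd0q2 cd5q2 pd0 false false false .pp 2 0 2
    ndB0q2 ndB5q2 pcB0 cut_mm_202 Ext.none :=
  certB1 (fam := false) (s1 := false) (s2 := false) (a := 2) (b := 0) (c := 2) (cn := .pp) (n1 := ndB0q2) (n2 := ndB5q2) (pc := pcB0) (cut := cut_mm_202) (xt := Ext.none) (P1 := 0) (W1 := 536870912) (P2 := 1073741824) (W2 := 536870912) (P3 := 1033476505) (W3 := 6710887) (N0 := 3) (En := eng) (mo := mog) (C1 := cd0q2) (C2 := cd5q2) (C3 := pd0)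
    rfl (fun _ => rfl) k0_mm_202

noncomputable def cut_mm_203 : Cut := Cut.of [[⟨3, 0, 0, 1449551462⟩]]

noncomputable def f_mm_203 : ℕ → ℕ → ℕ → ℕ → Bool := onCell 0 536870912 0 1230186008 1033476505 6710887
    (rowB 3 eng mog cd0q2 cd5q3 pd0 0 false false false .up 2 0 3 (qsf 0 536870912 0 1230186008 0) ndB0q2 ndB5q3 pcB0 cut_mm_203 Ext.none)

def k0_mm_203 : ∃ t, chk3 f_mm_203 t 1 1 1 = true :=
  ⟨(b (l 2) (a (b (l 2) (b (l 6) (a (b (l 6) (a (b (l 6) (l 16667944)) (l 6))) (l 6)))) (l 6))), by decide +kernel⟩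

theorem c_mm_203 : CertB 0 536870912 0 1230186008 1033476505 6710887 3 eng mog cd0q2 cd5q3 pd0 false false false .up 2 0 3
    ndB0q2 ndB5q3 pcB0 cut_mm_203 Ext.none :=
  certB0 (fam := false) (s1 := false) (s2 := false) (a := 2) (b := 0) (c := 3) (cn := .up) (n1 := ndB0q2) (n2 := ndB5q3) (pc := pcB0) (cut := cut_mm_203) (xt := Ext.none) (P1 := 0) (W1 := 536870912) (P2 := 0) (W2 := 1230186008) (P3 := 1033476505) (W3 := 6710887) (N0 := 3) (En := eng) (mo := mog) (C1 := cd0q2) (C2 := cd5q3) (C3 := pd0)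
    rfl k0_mm_203

noncomputable def cut_mm_213 : Cut := Cut.of [[⟨3, 0, 0, 1449551462⟩]]

noncomputable def f_mm_213 : ℕ → ℕ → ℕ → ℕ → Bool := onCell 0 536870912 0 1230186008 1033476505 6710887
    (rowB 3 eng mog cd0q2 cd5q3 pd1 0 false false false .pnn 2 1 3 (qsf 0 536870912 0 1230186008 1) ndB0q2 ndB5q3 pcB1 cut_mm_213 Ext.none)

def k0_mm_213 : ∃ t, chk3 f_mm_213 t 1 1 1 = true :=
  ⟨(b (l 6) (a (b (l 6) (b (l 6) (b (l 6) (l 1)))) (l 6))), by decide +kernel⟩

theorem c_mm_213 : CertB 0 536870912 0 1230186008 1033476505 6710887 3 eng mog cd0q2 cd5q3 pd1 false false false .pnn 2 1 3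
    ndB0q2 ndB5q3 pcB1 cut_mm_213 Ext.none :=
  certB0 (fam := false) (s1 := false) (s2 := false) (a := 2) (b := 1) (c := 3) (cn := .pnn) (n1 := ndB0q2) (n2 := ndB5q3) (pc := pcB1) (cut := cut_mm_213) (xt := Ext.none) (P1 := 0) (W1 := 536870912) (P2 := 0) (W2 := 1230186008) (P3 := 1033476505) (W3 := 6710887) (N0 := 3) (En := eng) (mo := mog) (C1 := cd0q2) (C2 := cd5q3) (C3 := pd1)
    rfl k0_mm_213

end Pool.Agent.Strip051.G.I9625_9688.Tab.C.BB05

namespace Pool.Agent.Strip051.G.I9625_9688.Tab.C.BB10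

open Pool.Agent.Strip051.PB Pool.Agent.Strip051.PB.T
open Pool.Agent.Strip051.G.I9625_9688.Tab

noncomputable def f_pp_001 : ℕ → ℕ → ℕ → ℕ → Bool := onCell 0 536870912 0 536870912 1033476505 6710887
    (rowB 3 eng mog cd1q0 cd0q1 pd0 1 false true true .up 0 0 1 (qsf 0 536870912 536870912 536870912 0) ndB1q0 ndB0q1 pcB0 Cut.none Ext.none)

def k0_pp_001 : ∃ t, chk3 f_pp_001 t 1 1 1 = true :=
  ⟨(l 3), by decide +kernel⟩

theorem c_pp_001 : CertB 0 536870912 536870912 536870912 1033476505 6710887 3 eng mog cd1q0 cd0q1 pd0 false true true .up 0 0 1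
    ndB1q0 ndB0q1 pcB0 Cut.none Ext.none :=
  certB1 (fam := false) (s1 := true) (s2 := true) (a := 0) (b := 0) (c := 1) (cn := .up) (n1 := ndB1q0) (n2 := ndB0q1) (pc := pcB0) (cut := Cut.none) (xt := Ext.none) (P1 := 0) (W1 := 536870912) (P2 := 536870912) (W2 := 536870912) (P3 := 1033476505) (W3 := 6710887) (N0 := 3) (En := eng) (mo := mog) (C1 := cd1q0) (C2 := cd0q1) (C3 := pd0)
    rfl (fun _ => rfl) k0_pp_001

noncomputable def cut_pp_011 : Cut := Cut.of [[⟨0, 0, 0, 33554432⟩, ⟨1, 1, 0, 33554432⟩, ⟨2, 1, 0, 33554432⟩]]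

noncomputable def f_pp_011 : ℕ → ℕ → ℕ → ℕ → Bool := onCell 0 536870912 536870912 536870912 1033476505 6710887
    (rowB 3 eng mog cd1q0 cd0q1 pd1 0 false true true .pnn 0 1 1 (qsf 0 536870912 536870912 536870912 1) ndB1q0 ndB0q1 pcB1 cut_pp_011 Ext.none)

def k0_pp_011 : ∃ t, chk3 f_pp_011 t 1 1 1 = true :=
  ⟨(a (b (l 3) (a (b (l 3) (b (l 3) (a (b (l 3) (a (b (l 3) (a (b (l 3) (l 6)) (l 3))) (l 3))) (l 3)))) (l 3))) (l 3)), by decide +kernel⟩

theorem c_pp_011 : CertB 0 536870912 536870912 536870912 1033476505 6710887 3 eng mog cd1q0 cd0q1 pd1 false true true .pnn 0 1 1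
    ndB1q0 ndB0q1 pcB1 cut_pp_011 Ext.none :=
  certB0 (fam := false) (s1 := true) (s2 := true) (a := 0) (b := 1) (c := 1) (cn := .pnn) (n1 := ndB1q0) (n2 := ndB0q1) (pc := pcB1) (cut := cut_pp_011) (xt := Ext.none) (P1 := 0) (W1 := 536870912) (P2 := 536870912) (W2 := 536870912) (P3 := 1033476505) (W3 := 6710887) (N0 := 3) (En := eng) (mo := mog) (C1 := cd1q0) (C2 := cd0q1) (C3 := pd1)
    rfl k0_pp_011

noncomputable def cut_pp_012 : Cut := Cut.of [[⟨0, 0, 0, 33554432⟩, ⟨1, 1, 0, 33554432⟩, ⟨2, 1, 0, 33554432⟩]]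

noncomputable def xt_pp_012 : Ext := extD3 3 ⟨4, 1, 1, 5, 27, 5, 41, 50, 81, 200, 1, 64⟩ eng cd1q0 cd0q2 pd1 false true true .pnp 0 1 2 rfl ndB1q0 ndB0q2 pcB1

noncomputable def f_pp_012 : ℕ → ℕ → ℕ → ℕ → Bool := onCell 536870912 536870912 0 536870912 1033476505 6710887
    (rowB 3 eng mog cd1q0 cd0q2 pd1 2 false true true .pnp 0 1 2 (qsf 0 536870912 0 536870912 1) ndB1q0 ndB0q2 pcB1 cut_pp_012 xt_pp_012)

def k0_pp_012 : ∃ t, chk3 f_pp_012 t 2 1 1 = true :=
  ⟨(b (a (b (l 2) (b (l 2) (l 3))) (a (b (a (a (l 2) (b (b (l 15990168) (b (l 15947624) (l 15975984))) (l 33385077495))) (b (a (b (l 16063552) (b (l 16017968) (l 16003128))) (l 16109128)) (b (a (l 16101632) (b (l 16066176) (l 16132752))) (l 16170160)))) (b (a (b (a (l 16573400) (l 16510200)) (a (b (l 125258256503) (l 3)) (b (l 16683672) (l 134922003191)))) (b (a (l 16483368) (l 16430824)) (a (l 16586616) (l 16559288)))) (a (l 3) (b (a (b (l 144585755591) (l 3)) (b (l 16710408) (l 148880803639))) (l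 3))))) (b (b (a (l 16224416) (l 16379680)) (a (b (a (b (l 16122040) (l 16135848)) (l 16195304)) (a (l 16243432) (l 16241960))) (b (l 16313064) (a (b (l 16250288) (l 16286448)) (b (l 16321152) (l 16320808)))))) (b (a (b (l 16255000) (a (l 16544224) (l 16501568))) (b (l 16371112) (a (l 16474664) (l 16464136)))) (a (b (a (b (l 16655888) (l 16681824)) (l 16607552)) (a (l 155860207895) (b (l 39895955127) (l 153175812007)))) (a (b (l 16578896) (b (l 16648656) (a (l 16696480) (l 16663072)))) (b (l 16542488) (b (l 16582896) (l 16609016))))))))) (b (a (l 3) (a (l 3) (b (b (a (l 3) (a (l 157470769239) (b (a (l 118815908727) (l 16593536)) (l 155860051399)))) (l 3)) (l 3)))) (l 3))), by decide +kernel⟩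

def k1_pp_012 : ∃ t, chk3 f_pp_012 t 6 2 1 = true :=
  ⟨(a (b (b (l 16454488) (a (b (l 16453104) (l 16409392)) (l 16481144))) (b (a (b (a (l 16408056) (l 16429848)) (a (l 16463584) (l 16448872))) (b (a (l 16443872) (l 16459344)) (a (l 16440896) (l 16441136)))) (a (a (b (l 16501152) (b (l 16527168) (l 16544496))) (b (l 16468472) (b (l 16481784) (l 16490832)))) (a (b (l 16445088) (l 16447456)) (b (l 16431128) (l 16419472)))))) (b (b (l 16522528) (l 16448072)) (a (b (b (l 16480720) (l 16455768)) (a (b (l 16426440) (l 16402072)) (b (l 16430680) (l 16394864)))) (b (l 16490968) (b (a (l 16442616) (l 16456816)) (a (l 16397296) (l 16410712))))))), by decide +kernel⟩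

def k2_pp_012 : ∃ t, chk3 f_pp_012 t 6 3 1 = true :=
  ⟨(b (a (b (a (b (a (b (l 16499736) (a (b (l 16592752) (l 3)) (b (l 16559088) (l 106467736391)))) (a (a (l 38285044743) (l 16513784)) (l 16491440))) (a (l 3) (b (a (l 149417349751) (l 63517938999)) (l 3)))) (b (a (a (l 16464208) (l 16439936)) (a (l 16418632) (l 16400296))) (a (b (a (l 16473968) (l 16443936)) (a (l 145122263047) (l 65665308775))) (b (l 16404552) (a (l 16419336) (l 16391920)))))) (a (l 3) (b (a (l 3) (b (a (l 139753444167) (l 16403032)) (l 3))) (l 3)))) (b (a (b (a (l 16378304) (l 16359056)) (a (b (l 16363184) (l 16356696)) (b (l 16334416) (l 16321360)))) (b (a (l 16350952) (l 16358192)) (a (b (l 16317976) (l 16299176)) (b (l 16320376) (l 16298280))))) (a (b (a (b (a (l 16376408) (l 16352192)) (l 85529387479)) (b (l 16322200) (a (l 16349616) (l 16329552)))) (b (a (l 3) (b (l 16329448) (l 3))) (l 3))) (b (a (b (l 16294352) (a (l 16312856) (l 16301392))) (b (l 16290256) (l 16278808))) (a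 (b (a (b (l 16328928) (l 16315168)) (l 16322696)) (b (a (l 3) (l 170891678519)) (l 3))) (b (a (l 16320112) (l 16325280)) (b (a (l 112909671527) (l 16344416)) (a (b (a (l 175186660375) (l 16318728)) (l 225115734327)) (a (b (l 16336144) (l 163912456151)) (l 16346992)))))))))) (a (l 3) (b (b (a (l 3) (b (a (l 3) (b (a (l 3) (b (a (l 233168783383) (b (l 16321184) (l 134384488903))) (a (l 3) (l 228336940855)))) (l 3))) (l 3))) (l 3)) (l 3)))), by decide +kernel⟩

def k3_pp_012 : ∃ t, chk3 f_pp_012 t 7 2 1 = true :=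
  ⟨(a (b (b (l 16525088) (l 16525576)) (b (l 16447008) (a (b (l 16474176) (l 16356064)) (b (l 16486664) (l 16466064))))) (b (b (l 16506856) (l 16471808)) (b (a (l 16510648) (l 16499448)) (a (l 16479792) (l 16471320))))), by decide +kernel⟩

def k4_pp_012 : ∃ t, chk3 f_pp_012 t 7 6 1 = true :=
  ⟨(a (a (b (b (a (l 16378416) (l 16403504)) (a (l 16327520) (l 16356576))) (b (a (b (l 16310080) (l 16320080)) (b (l 16342496) (l 16355104))) (a (b (l 16344200) (a (b (l 16359384) (l 16370536)) (l 16386680))) (b (l 16382544) (a (l 16409104) (l 16433112)))))) (b (b (a (l 16427232) (l 16443832)) (a (l 16386968) (l 16413072))) (b (a (b (l 16378272) (l 16394776)) (b (l 16410552) (l 16431432))) (a (b (l 16426480) (a (l 16457768) (l 16482080))) (b (l 16467760) (a (l 16505040) (l 16525840))))))) (a (b (b (a (l 16453744) (l 16456016)) (a (l 16430880) (b (l 16443168) (l 16433960)))) (a (b (a (l 16438288) (l 16446688)) (a (b (l 16491312) (l 16542952)) (b (l 16501424) (l 16554280))))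 (b (a (l 16447640) (l 16446504)) (a (l 16504392) (l 16519896))))) (b (b (l 16449440) (b (l 16442472) (a (l 16438464) (l 16440000)))) (b (a (l 16449520) (b (l 16446360) (l 16467072))) (a (b (l 16496704) (l 16544304)) (b (l 16501024) (l 16547248))))))), by decide +kernel⟩

def k5_pp_012 : ∃ t, chk3 f_pp_012 t 14 28 1 = true :=
  ⟨(a (a (b (a (b (b (a (l 16340296) (l 16366816)) (a (a (l 239074394279) (a (l 231021317047) (l 195050986455))) (l 16281848))) (b (a (b (l 225115726967) (l 3)) (b (a (l 229410707991) (l 16333408)) (a (l 3) (c (l 222968265671) (l 240685023831))))) (l 3))) (b (a (l 16384888) (l 16411072)) (b (a (a (b (l 16349104) (l 16335968)) (l 16358888)) (l 16383800)) (c (a (l 227800136631) (l 16359376)) (a (b (a (l 239074414951) (l 16337328)) (a (l 3) (b (l 228873879159) (l 232631961319)))) (a (b (l 16354872) (l 226726390487)) (l 16365776))))))) (b (a (l 3) (a (l 3) (b (c (l 238537567559) (a (b (b (l 237463819223) (l 228873870071)) (l 3)) (b (l 229947621303)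 (a (l 234779454407) (l 232095117895))))) (l 3)))) (l 3))) (b (a (b (l 16437688) (a (l 16406376) (l 16441432))) (l 16435752)) (a (b (a (c (b (l 16347576) (l 249811871959)) (b (a (b (l 16362616) (l 225115788743)) (l 16374528)) (a (b (l 246590630151) (l 3)) (b (l 220283957127) (l 248201250087))))) (b (l 16405584) (a (b (l 16373864) (l 213304642663)) (l 16386672)))) (a (l 3) (b (c (l 254106856775) (b (a (l 249811870583) (l 211157166103)) (l 251422471303))) (l 3)))) (b (b (l 16464920) (l 16334208)) (a (c (b (l 16390080) (l 259475585367)) (b (a (l 204177859335) (l 16395144)) (a (l 253569967271) (l 215452175831)))) (b (l 16431088) (a (l 200419780871) (l 16410048)))))))) (a (b (a (l 16507432) (l 16535120)) (a (b (l 16531864) (a (l 16376872) (l 16506888))) (b (l 16576440) (l 16574760)))) (b (a (l 16560888) (l 16584216)) (a (l 16557744) (l 16605216))))), by decide +kernel⟩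

def k6_pp_012 : ∃ t, chk3 f_pp_012 t 14 29 1 = true :=
  ⟨(a (b (a (l 3) (b (a (l 3) (a (l 3) (b (a (l 261086187495) (l 219210301319)) (l 3)))) (l 3))) (l 3)) (b (a (a (b (a (b (a (l 197198574087) (l 16422696)) (l 266454940615)) (b (l 16458992) (l 188071782967))) (a (l 3) (b (l 272360543703) (l 3)))) (b (a (l 16491104) (l 16541512)) (a (b (l 16436728) (l 252496344343)) (b (l 16488256) (l 16450416))))) (a (b (l 16575264) (a (l 16532648) (l 16575752))) (b (l 16672800) (a (l 16630016) (l 16684592))))) (a (b (a (l 3) (b (a (l 3) (l 239074596695)) (l 3))) (l 3)) (b (a (b (a (l 16464264) (l 16518128)) (a (l 181092565799) (l 58686067015))) (b (a (l 16572840) (l 16628328)) (a (l 16533736) (l 16589064)))) (a (b (a (l 3) (l 255180847911)) (l 3)) (b (a (l 39895602023) (l 16551752)) (a (l 271286971959) (l 65128601975)))))))), by decide +kernel⟩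

def k7_pp_012 : ∃ t, chk3 f_pp_012 t 14 15 1 = true :=
  ⟨(b (a (l 3) (b (a (l 3) (b (a (l 3) (b (a (l 3) (l 293298826999)) (l 3))) (l 3))) (l 3))) (l 3)), by decide +kernel⟩

def k8_pp_012 : ∃ t, chk3 f_pp_012 t 30 7 1 = true :=
  ⟨(b (b (a (a (b (l 16603424) (l 16647672)) (b (l 16616024) (b (l 16665728) (l 16699456)))) (a (b (l 16613000) (l 16657368)) (b (l 16604064) (l 16666976)))) (a (b (a (b (l 16717904) (l 16706528)) (b (l 16711960) (l 16722448))) (a (b (a (b (l 16684224) (l 16644672)) (l 16683184)) (b (a (l 16607088) (l 16661992)) (a (l 16571752) (l 16626512)))) (b (a (l 16743984) (l 16752608)) (a (b (l 16715568) (l 16680536)) (l 16722816))))) (b (a (b (l 16727712) (l 16758528)) (l 16708472)) (a (a (b (l 16748544) (l 16745840)) (l 142483753194356799)) (l 141871119061286975))))) (b (a (b (a (b (b (a (l 73181712455) (l 16592912)) (a (l 288466904935) (l 153712391303))) (a (l 3) (l 387251172615))) (b (a (b (l 16647160) (l 16613272)) (b (l 16698560) (l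 16665264))) (a (b (a (l 250349172215) (l 16590744)) (l 368997612135)) (b (l 16629600) (a (l 195051505319) (l 16604680)))))) (a (l 3) (a (l 3) (a (l 3) (b (l 331416660343) (l 3)))))) (b (a (b (a (a (l 16718008) (l 16740776)) (l 16739120)) (a (b (l 16678664) (l 16641560)) (b (l 16726344) (l 16689592)))) (b (l 16762592) (l 16755216))) (a (b (a (a (b (l 204715208535) (l 3)) (b (l 16615288) (l 295446370663))) (b (l 599561840491264983620159) (a (l 4035992299612832614560487999) (l 170355545975)))) (a (l 3) (a (l 3) (l 6995441064269222274024757823)))) (b (a (b (l 16701544) (l 16664176)) (l 16734192)) (a (b (b (l 2817395879333418126714345535) (a (l 381345774647) (l 3417022882659859010413385791))) (l 7072813017412602966064764991)) (b (l 600284000515088889849919) (b (a (l 4654964077749047653688170559) (l 16669608)) (a (l 391546364215) (b (l 204178497975) (l 5573748068149895419914704959)))))))))) (a (l 3) (b (a (l 3) (b (b (a (l 3) (l 7208213668151902890431584319))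 (l 3)) (l 3))) (l 3))))), by decide +kernel⟩

def k9_pp_012 : ∃ t, chk3 f_pp_012 t 31 14 1 = true :=
  ⟨(b (a (b (l 16600608) (l 16640552)) (b (l 16602144) (l 16640664))) (b (a (b (l 16707480) (l 16735968)) (b (l 16706496) (l 16699056))) (a (b (l 16705296) (a (l 16742416) (l 16729472))) (b (a (l 16714776) (l 16700520)) (a (l 16714704) (l 16700672)))))), by decide +kernel⟩

def k10_pp_012 : ∃ t, chk3 f_pp_012 t 31 30 1 = true :=
  ⟨(a (b (b (a (l 16756288) (l 16743928)) (a (l 16767488) (l 16759032))) (a (b (l 16768600) (a (b (l 16733072) (l 601190197081111669958719)) (l 16764704))) (b (l 16764080) (l 598311928515861148577407)))) (b (b (a (l 16708656) (l 16695120)) (a (l 16745192) (l 16711192))) (a (b (l 16755992) (l 16742648)) (b (l 16722392) (b (l 16728600) (l 6)))))), by decide +kernel⟩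

def k11_pp_012 : ∃ t, chk3 f_pp_012 t 62 124 1 = true :=
  ⟨(a (a (b (b (a (b (l 3861909098640438847894771775) (a (l 391009558295) (l 260013105303))) (l 16696192)) (a (l 399062639783) (b (c (l 3997309996104940758110051391) (l 176261225207)) (a (l 395304561079) (b (l 189683073687) (l 4780693837287343103959685183)))))) (c (l 7807843403614079316324849727) (l 7343614255768750437563275327))) (a (b (l 601087155641859975814207) (b (b (a (c (l 5041821701049565178124753983) (l 207936646039)) (l 16713664)) (a (l 398525828935) (b (l 3446039252817446578730785855) (a (l 367387335863) (l 3755524547122172909207133247))))) (c (l 403894582151) (l 6637603419482371361366563903)))) (b (l 16740704) (b (l 600972151721775472090175) (a (c (b (b (l 246054591959) (a (l 395841550487) (l 270750667623))) (l 403894622903)) (b (l 3658810525940480502543375423) (l 367924203815))) (b (l 16735584) (c (b (a (l 269676940663) (l 16753768)) (a (l 396378449703) (l 270750667831))) (a (l 4693650894656399670152551487)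 (l 183777543527))))))))) (a (a (b (l 16760552) (c (l 16771072) (l 600830918837461154192447))) (l 601598331767907021516031)) (l 16772672))), by decide +kernel⟩

def k12_pp_012 : ∃ t, chk3 f_pp_012 t 62 125 1 = true :=
  ⟨(b (a (a (l 3) (a (l 3) (a (l 3) (b (c (l 406042141975) (l 377051016311)) (l 3))))) (a (c (b (a (b (a (b (c (l 278266896775) (l 259476390727)) (a (l 397452222567) (b (l 16774968) (l 344302014487)))) (l 16776360)) (a (l 402820946007) (b (a (b (l 283098744167) (l 348060125623)) (l 16778136)) (a (l 395841637079) (b (l 283098744391) (l 350207609495)))))) (l 16756344)) (a (a (l 3) (l 404431569687)) (b (a (b (a (b (l 283098744631) (l 351818222487)) (l 16778400)) (a (l 396915379367) (b (l 283098745063) (l 353965706391)))) (l 16778232)) (a (l 402820959767) (b (a (b (l 283098745319) (l 356113190295)) (l 16778680)) (a (l 400136605335) (b (l 315847871239) (l 350207610535)))))))) (b (a (b (a (b (l 184314428903) (a (l 372756091143) (l 171966413111)))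 (l 16746264)) (a (l 381346034775) (b (l 3310640049571095688364809279) (a (l 380272314695) (b (l 16751704) (l 240685922951)))))) (l 16763896)) (a (c (l 406042142583) (l 8156014825667328284479413311)) (b (a (b (a (b (l 16759648) (l 242296532359)) (l 16766056)) (a (l 388325412407) (b (l 16767992) (l 239075312439)))) (l 16775376)) (a (b (l 394230983703) (l 3)) (b (a (b (l 16776760) (l 240685922471)) (l 16778864)) (a (l 392620412967) (c (l 253570846487) (l 3155898314235527479111719999))))))))) (a (b (l 16776536) (a (b (l 16777872) (l 16773368)) (l 16777808))) (l 16776472)))) (a (l 3) (a (b (a (l 3) (a (l 3) (c (b (l 408726540279) (l 3)) (c (l 410874024407) (l 395841618087))))) (l 3)) (a (a (b (a (b (c (b (b (l 317458484343) (a (l 394767896567) (l 329269644727))) (l 404431573159)) (b (c (l 262697652247) (l 4732337707816756796620053567)) (l 391009800679))) (l 3)) (b (b (l 16779048) (a (b (c (l 330343386695) (l 181630144375)) (c (l 395841638663) (l 383493607975)))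 (l 6))) (l 6))) (l 3)) (l 6)) (l 6))))), by decide +kernel⟩

def k13_pp_012 : ∃ t, chk3 f_pp_012 t 63 62 1 = true :=
  ⟨(a (b (a (l 16771120) (l 16766416)) (l 6)) (l 6)), by decide +kernel⟩

def k14_pp_012 : ∃ t, chk3 f_pp_012 t 31 63 1 = true :=
  ⟨(a (a (l 3) (a (l 3) (l 6))) (l 6)), by decide +kernel⟩

theorem s15_pp_012 : ∃ t, chk3 f_pp_012 t 62 62 1 = true := ex3_b k11_pp_012 k12_pp_012

theorem s16_pp_012 : ∃ t, chk3 f_pp_012 t 31 62 1 = true := ex3_a s15_pp_012 k13_pp_012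

theorem s17_pp_012 : ∃ t, chk3 f_pp_012 t 31 31 1 = true := ex3_b s16_pp_012 k14_pp_012

theorem s18_pp_012 : ∃ t, chk3 f_pp_012 t 31 15 1 = true := ex3_b k10_pp_012 s17_pp_012

theorem s19_pp_012 : ∃ t, chk3 f_pp_012 t 31 7 1 = true := ex3_b k9_pp_012 s18_pp_012

theorem s20_pp_012 : ∃ t, chk3 f_pp_012 t 15 7 1 = true := ex3_a k8_pp_012 s19_pp_012

theorem s21_pp_012 : ∃ t, chk3 f_pp_012 t 14 14 1 = true := ex3_b k5_pp_012 k6_pp_012

theorem s22_pp_012 : ∃ t, chk3 f_pp_012 t 14 7 1 = true := ex3_b s21_pp_012 k7_pp_012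

theorem s23_pp_012 : ∃ t, chk3 f_pp_012 t 7 7 1 = true := ex3_a s22_pp_012 s20_pp_012

theorem s24_pp_012 : ∃ t, chk3 f_pp_012 t 7 3 1 = true := ex3_b k4_pp_012 s23_pp_012

theorem s25_pp_012 : ∃ t, chk3 f_pp_012 t 7 1 1 = true := ex3_b k3_pp_012 s24_pp_012

theorem s26_pp_012 : ∃ t, chk3 f_pp_012 t 6 1 1 = true := ex3_b k1_pp_012 k2_pp_012

theorem s27_pp_012 : ∃ t, chk3 f_pp_012 t 3 1 1 = true := ex3_a s26_pp_012 s25_pp_012

theorem s28_pp_012 : ∃ t, chk3 f_pp_012 t 1 1 1 = true := ex3_a k0_pp_012 s27_pp_012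

theorem c_pp_012 : CertB 0 536870912 0 536870912 1033476505 6710887 3 eng mog cd1q0 cd0q2 pd1 false true true .pnp 0 1 2
    ndB1q0 ndB0q2 pcB1 cut_pp_012 xt_pp_012 :=
  certB2 (fam := false) (s1 := true) (s2 := true) (a := 0) (b := 1) (c := 2) (cn := .pnp) (n1 := ndB1q0) (n2 := ndB0q2) (pc := pcB1) (cut := cut_pp_012) (xt := xt_pp_012) (P1 := 0) (W1 := 536870912) (P2 := 0) (W2 := 536870912) (P3 := 1033476505) (W3 := 6710887) (N0 := 3) (En := eng) (mo := mog) (C1 := cd1q0) (C2 := cd0q2) (C3 := pd1)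
    rfl (fun _ => rfl) s28_pp_012

noncomputable def cut_pp_022 : Cut := Cut.of [[⟨0, 0, 0, 26843545⟩, ⟨1, 1, 0, 26843545⟩, ⟨2, 1, 0, 26843545⟩]]

noncomputable def f_pp_022 : ℕ → ℕ → ℕ → ℕ → Bool := onCell 1073741824 536870912 0 536870912 1033476505 6710887
    (rowB 3 eng mog cd1q0 cd0q2 pd2 2 false true true .pp 0 2 2 (qsf 0 536870912 0 536870912 2) ndB1q0 ndB0q2 pcB2 cut_pp_022 Ext.none)

def k0_pp_022 : ∃ t, chk3 f_pp_022 t 2 2 1 = true :=
  ⟨(a (b (a (b (a (l 16185000) (l 16177392)) (a (l 16214824) (l 16190288))) (b (l 16175016) (l 16159000))) (a (b (a (b (l 16227776) (l 16227312)) (l 16186288)) (a (b (l 16232856) (a (l 16210888) (l 16199952))) (b (l 16167160) (l 16151392)))) (b (a (l 16145384) (l 16105376)) (a (l 16098224) (l 16015912))))) (a (b (b (l 16193280) (a (l 16135192) (l 1))) (a (b (l 16069912) (l 253434800279)) (l 1))) (l 1))), by decide +kernel⟩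

def k1_pp_022 : ∃ t, chk3 f_pp_022 t 8 3 1 = true :=
  ⟨(b (b (b (a (a (b (l 16230088) (l 16209616)) (l 16193576)) (l 16137496)) (a (a (b (l 16228216) (b (l 16215856) (l 16237712))) (b (l 16192824) (l 16196888))) (b (l 16130800) (l 16130776)))) (b (a (a (b (b (l 16256952) (l 16277840)) (b (l 16302024) (l 16327200))) (b (l 16216400) (l 16255384))) (b (l 16146064) (l 16180672))) (a (b (a (b (l 16366784) (a (l 16391152) (l 16365592))) (l 16310640)) (a (a (b (l 16427256) (l 16466056)) (l 16398776)) (l 16358104))) (b (a (l 16258088) (l 16204120)) (a (l 16323448) (l 16266248)))))) (b (b (a (b (a (a (b (l 16507072) (l 16549824)) (l 16458232)) (l 16415264)) (a (b (a (l 16593776) (l 16564488)) (a (l 16596424) (l 16608304))) (b (l 16519752) (l 16562368)))) (b (a (l 16398392) (l 16338336)) (a (l 16457992) (l 16416384)))) (b (a (a (b (a (l 16641064) (l 16652152)) (b (l 16657904) (l 16665880))) (b (l 16604992) (l 16624920))) (a (b (l 16540504) (l 16580184)) (l 16454144)))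 (a (b (a (a (b (l 16661656) (l 16669408)) (l 16674800)) (l 16641472)) (a (a (b (l 16660832) (l 16656616)) (l 16679016)) (l 16687472))) (b (a (l 16595312) (l 16550592)) (a (l 16619496) (l 1)))))) (a (b (b (a (b (a (l 16635032) (l 16677544)) (l 16644504)) (b (l 16666888) (b (l 16688504) (a (l 16677328) (b (l 16691160) (l 16669136)))))) (a (b (b (a (l 16650944) (b (l 16674648) (l 16679368))) (a (l 16659208) (l 16692152))) (l 6)) (a (b (a (l 16666096) (l 16703000)) (l 6)) (b (a (l 16683928) (l 16660728)) (a (l 16657104) (l 1)))))) (a (l 6) (a (l 6) (l 1)))) (b (b (a (a (b (l 16666768) (b (l 16673184) (l 61236551783))) (l 1)) (l 1)) (l 1)) (l 1))))), by decide +kernel⟩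

def k2_pp_022 : ∃ t, chk3 f_pp_022 t 9 3 1 = true :=
  ⟨(b (b (b (a (l 16060208) (l 15982768)) (a (b (l 16044928) (l 16039152)) (b (l 15959336) (l 15948544)))) (b (a (b (l 16048752) (l 16077808)) (b (l 15953032) (l 1))) (a (b (l 16123344) (a (l 16208976) (l 1))) (l 1)))) (b (b (a (b (a (l 16279032) (l 1)) (l 154114372439)) (l 1)) (l 1)) (l 1))), by decide +kernel⟩

def k3_pp_022 : ∃ t, chk3 f_pp_022 t 5 3 1 = true :=
  ⟨(b (l 1) (l 1)), by decide +kernel⟩

def k4_pp_022 : ∃ t, chk3 f_pp_022 t 3 1 1 = true :=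
  ⟨(l 1), by decide +kernel⟩

theorem s5_pp_022 : ∃ t, chk3 f_pp_022 t 4 3 1 = true := ex3_a k1_pp_022 k2_pp_022

theorem s6_pp_022 : ∃ t, chk3 f_pp_022 t 2 3 1 = true := ex3_a s5_pp_022 k3_pp_022

theorem s7_pp_022 : ∃ t, chk3 f_pp_022 t 2 1 1 = true := ex3_b k0_pp_022 s6_pp_022

theorem s8_pp_022 : ∃ t, chk3 f_pp_022 t 1 1 1 = true := ex3_a s7_pp_022 k4_pp_022

theorem c_pp_022 : CertB 0 536870912 0 536870912 1033476505 6710887 3 eng mog cd1q0 cd0q2 pd2 false true true .pp 0 2 2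
    ndB1q0 ndB0q2 pcB2 cut_pp_022 Ext.none :=
  certB2 (fam := false) (s1 := true) (s2 := true) (a := 0) (b := 2) (c := 2) (cn := .pp) (n1 := ndB1q0) (n2 := ndB0q2) (pc := pcB2) (cut := cut_pp_022) (xt := Ext.none) (P1 := 0) (W1 := 536870912) (P2 := 0) (W2 := 536870912) (P3 := 1033476505) (W3 := 6710887) (N0 := 3) (En := eng) (mo := mog) (C1 := cd1q0) (C2 := cd0q2) (C3 := pd2)
    rfl (fun _ => rfl) s8_pp_022

noncomputable def f_pp_101 : ℕ → ℕ → ℕ → ℕ → Bool := onCell 536870912 536870912 536870912 536870912 1033476505 6710887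
    (rowB 3 eng mog cd1q1 cd0q1 pd0 0 false true true .npn 1 0 1 (qsf 536870912 536870912 536870912 536870912 0) ndB1q1 ndB0q1 pcB0 Cut.none Ext.none)

def k0_pp_101 : ∃ t, chk3 f_pp_101 t 1 1 1 = true :=
  ⟨(l 3), by decide +kernel⟩

theorem c_pp_101 : CertB 536870912 536870912 536870912 536870912 1033476505 6710887 3 eng mog cd1q1 cd0q1 pd0 false true true .npn 1 0 1
    ndB1q1 ndB0q1 pcB0 Cut.none Ext.none :=
  certB0 (fam := false) (s1 := true) (s2 := true) (a := 1) (b := 0) (c := 1) (cn := .npn) (n1 := ndB1q1) (n2 := ndB0q1) (pc := pcB0) (cut := Cut.none) (xt := Ext.none) (P1 := 536870912) (W1 := 536870912) (P2 := 536870912) (W2 := 536870912) (P3 := 1033476505) (W3 := 6710887) (N0 := 3) (En := eng) (mo := mog) (C1 := cd1q1) (C2 := cd0q1) (C3 := pd0)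
    rfl k0_pp_101

noncomputable def f_pp_102 : ℕ → ℕ → ℕ → ℕ → Bool := onCell 0 536870912 0 536870912 1033476505 6710887
    (rowB 3 eng mog cd1q1 cd0q2 pd0 2 false true true .npp 1 0 2 (qsf 536870912 536870912 0 536870912 0) ndB1q1 ndB0q2 pcB0 Cut.none Ext.none)

def k0_pp_102 : ∃ t, chk3 f_pp_102 t 1 1 1 = true :=
  ⟨(b (a (l 3) (a (l 3) (a (l 3) (b (b (a (b (a (a (l 49558716007) (l 56537946247)) (b (a (l 76938946503) (l 16074808)) (a (l 3) (b (l 66201531239) (l 3))))) (l 3)) (b (a (b (l 16001320) (a (b (l 16036400) (a (l 16044032) (l 67812022535))) (a (l 61369536775) (l 15992256)))) (b (l 15957624) (a (l 15967616) (l 15936000)))) (a (b (b (a (l 3) (a (l 46337142807) (l 62443238007))) (l 3)) (l 3)) (b (b (a (a (l 79086178775) (l 15954400)) (l 15930472)) (a (a (l 3) (b (l 65664386791) (l 3))) (a (b (l 15935376) (l 60832511751)) (b (l 15919568) (l 69422410247))))) (b (a (l 3) (b (a (l 3) (l 56537507975)) (l 3))) (l 3)))))) (l 3)) (l 3))))) (l 3)), by decide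 +kernel⟩

theorem c_pp_102 : CertB 536870912 536870912 0 536870912 1033476505 6710887 3 eng mog cd1q1 cd0q2 pd0 false true true .npp 1 0 2
    ndB1q1 ndB0q2 pcB0 Cut.none Ext.none :=
  certB2 (fam := false) (s1 := true) (s2 := true) (a := 1) (b := 0) (c := 2) (cn := .npp) (n1 := ndB1q1) (n2 := ndB0q2) (pc := pcB0) (cut := Cut.none) (xt := Ext.none) (P1 := 536870912) (W1 := 536870912) (P2 := 0) (W2 := 536870912) (P3 := 1033476505) (W3 := 6710887) (N0 := 3) (En := eng) (mo := mog) (C1 := cd1q1) (C2 := cd0q2) (C3 := pd0)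
    rfl (fun _ => rfl) k0_pp_102

noncomputable def f_pp_112 : ℕ → ℕ → ℕ → ℕ → Bool := onCell 536870912 536870912 0 536870912 1033476505 6710887
    (rowB 3 eng mog cd1q1 cd0q2 pd1 2 false true true .dn 1 1 2 (qsf 536870912 536870912 0 536870912 1) ndB1q1 ndB0q2 pcB1 Cut.none Ext.none)

def k0_pp_112 : ∃ t, chk3 f_pp_112 t 32 16 1 = true :=
  ⟨(b (a (l 15588152) (l 15511296)) (a (l 15700800) (l 15623904))), by decide +kernel⟩

def k1_pp_112 : ∃ t, chk3 f_pp_112 t 32 34 1 = true :=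
  ⟨(a (b (l 15780256) (a (l 15850088) (l 15811752))) (b (l 15703712) (l 15760008))), by decide +kernel⟩

def k2_pp_112 : ∃ t, chk3 f_pp_112 t 64 35 1 = true :=
  ⟨(b (b (a (b (l 15880808) (a (b (a (b (l 15902512) (a (l 15906224) (l 15902920))) (l 15894656)) (a (l 15905472) (b (a (l 15900984) (l 15896784)) (a (l 3) (l 15899024))))) (l 15883376))) (l 15848784)) (a (a (l 3) (b (b (a (b (a (l 15897040) (l 15893208)) (l 42041944071)) (l 15887584)) (a (l 3) (b (a (l 15892992) (l 15889528)) (l 15892144)))) (l 3))) (b (a (a (b (l 15878160) (b (l 15882672) (a (l 41505054871) (l 15883296)))) (l 15871688)) (l 15857496)) (a (b (a (b (a (l 15888832) (c (l 15888456) (l 15882992))) (l 3)) (b (l 15879192) (a (c (l 15886528) (l 15881048)) (l 15879808)))) (a (l 3) (b (a (l 3) (l 47947492727)) (l 3)))) (a (b (l 15871240) (b (l 15875688) (a (l 15879832) (l 15876216)))) (l 15864800)))))) (b (a (l 3) (a (l 3) (b (b (a (l 38820683127) (b (a (l 46873736823) (l 15869920)) (a (l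 15875768) (c (l 15875304) (l 15869712))))) (l 15877424)) (l 3)))) (l 3))), by decide +kernel⟩

def k3_pp_112 : ∃ t, chk3 f_pp_112 t 65 35 1 = true :=
  ⟨(b (a (b (l 15810904) (l 15835240)) (l 15785536)) (b (a (b (a (b (l 15859664) (a (b (a (c (l 15873432) (l 15867808)) (l 15866480)) (a (l 3) (c (l 15871520) (l 15865880)))) (l 15860920))) (l 15843888)) (a (b (a (l 3) (b (a (c (l 15869592) (l 15863920)) (l 15862984)) (c (l 15868888) (l 15868448)))) (l 3)) (b (c (l 15855624) (l 15849944)) (a (b (a (l 15862792) (b (l 15858880) (l 15860032))) (l 15861968)) (b (l 15852624) (a (c (l 15860408) (l 15854656)) (l 15853256))))))) (l 15842824)) (a (a (l 3) (b (a (l 3) (b (b (a (l 15858720) (c (l 15858552) (l 56000504039))) (l 3)) (l 3))) (l 3))) (b (a (b (a (b (l 15849232) (a (c (l 15856672) (l 53316144999)) (l 15849848))) (l 15841400)) (a (b (a (l 3) (c (l 15854760) (l 15848936))) (l 3)) (b (l 15845800) (a (b (l 42041845847) (l 15850200)) (l 55463614023))))) (l 15830432))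 (a (c (l 36673160951) (l 37210020487)) (b (a (b (a (b (l 15844048) (l 49021158983)) (l 15840152)) (a (l 15845928) (c (l 15845672) (l 51168639799)))) (l 15834680)) (a (l 15845216) (b (a (b (l 15840552) (l 49558021191)) (l 15836792)) (a (l 3) (b (l 52242371319) (l 15839472))))))))))), by decide +kernel⟩

def k4_pp_112 : ∃ t, chk3 f_pp_112 t 33 8 1 = true :=
  ⟨(b (a (b (l 15436880) (l 15549000)) (l 15434840)) (b (a (b (l 15628792) (l 15680000)) (l 15612928)) (a (b (a (l 15748280) (l 15711368)) (a (b (l 15784728) (a (l 54389847975) (l 15799400))) (l 15759904))) (b (l 15656784) (a (l 15723464) (l 15687408)))))), by decide +kernel⟩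

def k5_pp_112 : ∃ t, chk3 f_pp_112 t 32 18 1 = true :=
  ⟨(l 3), by decide +kernel⟩

def k6_pp_112 : ∃ t, chk3 f_pp_112 t 66 36 1 = true :=
  ⟨(b (b (a (b (b (a (a (b (a (c (l 15840096) (l 51168627191)) (l 15833384)) (a (l 3) (c (l 15838176) (l 15832176)))) (c (l 15830928) (l 15824928))) (l 15814200)) (a (a (l 3) (a (c (l 15836424) (l 15830384)) (b (c (l 15832880) (l 15826848)) (l 15831256)))) (a (b (l 15823208) (a (c (l 15831096) (b (l 15824632) (l 15825624))) (l 15823848))) (l 15815496)))) (a (l 3) (b (a (b (a (l 15829248) (c (l 15829288) (b (l 15822872) (l 15823736)))) (l 3)) (b (l 15819904) (a (c (l 15827448) (b (l 15821080) (l 15821800))) (l 15820520)))) (a (l 3) (b (a (l 3) (c (l 15825584) (b (l 15819256) (l 15819832)))) (l 3)))))) (a (b (l 15798808) (a (a (b (l 15814496) (b (l 15818832) (c (l 15823696) (l 48484238167)))) (c (l 15815856) (l 66200973783))) (l 15805992))) (l 15786432))) (a (l 3) (b (a (a (c (l 37209963719) (l 37746821927)) (b (b (a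 (c (l 15818448) (l 59758518647)) (l 15811032)) (a (l 41504906039) (b (l 15813176) (c (l 15817288) (l 15811064))))) (l 15816048))) (b (l 15801104) (a (b (a (c (l 15814904) (b (l 15808336) (l 15809192))) (l 15807760)) (a (l 3) (c (l 15813088) (b (l 15806568) (l 15807288))))) (l 15802392)))) (a (l 3) (b (a (l 3) (b (a (c (l 15811248) (b (l 15804760) (l 15805344))) (l 15804440)) (a (l 3) (c (l 15809384) (l 49021079815))))) (l 3)))))) (l 3)), by decide +kernel⟩

def k7_pp_112 : ∃ t, chk3 f_pp_112 t 67 36 1 = true :=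
  ⟨(b (b (a (l 15759184) (l 15723168)) (a (b (l 15776816) (a (b (a (c (l 15802240) (l 68885299111)) (l 15790096)) (a (a (c (l 15807672) (l 41504883095)) (b (c (l 15804184) (l 62979715047)) (l 41504877367))) (b (l 15794464) (a (b (l 15798864) (c (l 15803048) (l 15796672))) (l 15795112))))) (l 15779464))) (l 15746680))) (b (a (a (b (a (l 3) (b (b (a (l 15800456) (c (l 15800688) (b (l 15793968) (l 15794824)))) (l 15799600)) (l 3))) (l 3)) (b (b (a (b (l 15791248) (a (c (l 15798896) (b (l 15792224) (l 15792944))) (l 15791880))) (l 15783688)) (a (b (a (l 3) (b (c (l 15796880) (l 15790448)) (l 15794256))) (l 3)) (a (b (l 71032755991) (b (c (l 15795096) (l 15788632)) (l 15792320))) (c (l 15790376) (l 15783920))))) (c (l 36673045015) (a (l 3) (c (l 37746770999) (l 37746764167)))))) (b (a (l 15773112) (l 15755224)) (a (b (a (b (a (c (l 15790104) (l 66200911863)) (l 15782592)) (a (l 41504848391) (b (l 15784720) (c (l 15788984) (l 15782456))))) (l 15777320)) (a (l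 36136138903) (b (a (c (l 15786648) (b (l 15779776) (l 15780640))) (l 15779416)) (a (l 15784368) (c (l 54389753879) (b (l 15778064) (l 15778784))))))) (l 15777288)))) (b (a (l 3) (a (l 3) (a (b (b (a (b (c (l 15782896) (l 15776312)) (l 15780200)) (l 74790823783)) (a (l 3) (b (c (l 15781136) (l 15774520)) (l 15778288)))) (l 3)) (c (b (l 15774240) (b (a (l 15779448) (l 15776192)) (l 15778704))) (b (l 75864563383) (b (a (l 15772816) (l 68885237831)) (l 15772056))))))) (l 3)))), by decide +kernel⟩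

def k8_pp_112 : ∃ t, chk3 f_pp_112 t 33 37 1 = true :=
  ⟨(l 3), by decide +kernel⟩

def k9_pp_112 : ∃ t, chk3 f_pp_112 t 16 19 1 = true :=
  ⟨(l 3), by decide +kernel⟩

def k10_pp_112 : ∃ t, chk3 f_pp_112 t 17 8 1 = true :=
  ⟨(a (b (a (l 15351560) (l 15284960)) (b (a (l 15510640) (l 15442240)) (a (a (l 15627544) (l 15592440)) (l 15540808)))) (b (l 15190936) (a (l 15446336) (l 15361816)))), by decide +kernel⟩

def k11_pp_112 : ∃ t, chk3 f_pp_112 t 34 36 1 = true :=
  ⟨(a (b (a (l 15699312) (l 15664112)) (a (b (l 15734352) (b (a (a (b (l 15762104) (b (l 15766424) (a (b (l 15770760) (c (l 15775104) (l 15768424))) (l 15767080)))) (l 15756112)) (l 15742848)) (a (b (a (b (a (l 15772368) (c (l 58684696999) (b (l 15765768) (l 15766632)))) (l 15771544)) (b (l 15763296) (a (c (l 54926597143) (b (l 15764080) (l 15764808))) (l 15763944)))) (a (l 3) (b (a (l 3) (b (c (l 15769096) (l 15762352)) (l 15766320))) (l 3)))) (a (a (b (l 15758096) (b (l 15762344) (b (c (l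 15767360) (l 15760592)) (l 15764440)))) (c (l 15759864) (l 79622632071))) (l 15749928))))) (b (l 15699144) (l 15722224)))) (b (l 15612200) (a (l 15675888) (l 15641552)))), by decide +kernel⟩

def k12_pp_112 : ∃ t, chk3 f_pp_112 t 34 74 1 = true :=
  ⟨(a (b (b (a (a (l 3) (a (c (l 37209850551) (c (l 37746714807) (l 37746707687))) (b (c (b (l 15760336) (a (l 15763864) (l 15760808))) (b (a (l 71569564647) (l 15751480)) (a (l 15757064) (b (l 15753576) (l 15754584))))) (l 37209824743)))) (a (b (l 15745320) (a (b (a (c (l 59221540567) (b (l 15751952) (l 15752816))) (l 15751800)) (a (l 15756704) (c (l 56000311351) (b (l 15750288) (l 15751024))))) (l 15746640))) (l 15730672))) (b (a (l 3) (a (a (l 3) (b (a (b (c (l 15755480) (l 15748592)) (l 15752640)) (l 15748680)) (a (l 3) (c (l 15753928) (l 53315934439))))) (a (c (l 15746984) (l 15740072)) (l 15734864)))) (a (l 3) (a (l 3) (a (a (c (l 15752328) (l 44725996103)) (b (c (l 15748936) (l 15741992)) (l 45799732439)))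 (a (b (l 15741304) (b (l 15743408) (c (l 15747896) (l 15740928)))) (l 15738368))))))) (a (l 3) (a (l 3) (b (a (l 3) (b (b (a (l 15745024) (b (l 15741824) (c (l 15746184) (l 15739192)))) (l 15744232)) (l 3))) (l 3))))) (a (a (b (l 15718960) (b (b (a (b (l 15736104) (a (c (l 15743968) (b (l 15736688) (l 15737424))) (l 15736760))) (l 15728840)) (a (b (a (l 3) (b (c (l 15742056) (l 15735024)) (l 15739144))) (l 3)) (a (b (l 15735216) (c (l 15740536) (l 55463391079))) (c (l 15735792) (l 15728736))))) (c (l 37209805271) (a (l 3) (l 40967878807))))) (b (l 15701648) (b (l 15718696) (b (a (b (c (l 15733496) (l 78548832215)) (a (l 47947188615) (c (l 15733992) (l 69422023079)))) (l 15722872)) (a (l 40430995943) (b (a (c (l 15732368) (l 65663923063)) (l 15724952)) (a (l 15729816) (b (l 70495755703) (l 54926499111))))))))) (b (l 15675896) (a (l 15707136) (l 15690032))))), by decide +kernel⟩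

def k13_pp_112 : ∃ t, chk3 f_pp_112 t 34 75 1 = true :=
  ⟨(a (l 3) (a (l 3) (b (b (a (a (b (a (b (c (l 15729040) (l 61905819127)) (l 3)) (b (l 15721944) (c (l 15727336) (l 15720136)))) (l 3)) (b (c (l 15720504) (l 15713296)) (b (a (b (l 59221455447) (l 3)) (b (l 15718328) (l 74253837143))) (l 45799683319)))) (a (a (a (b (l 15711600) (c (l 15720608) (l 75864448135))) (l 15712256)) (l 15709072)) (l 15702672))) (a (l 3) (b (a (b (a (l 15718472) (b (l 15715304) (l 62979540583))) (l 15717712)) (b (l 15709688) (a (b (l 15713744) (l 15714496)) (l 15710360)))) (a (l 3) (a (l 3) (b (b (l 73180080327) (l 15712768)) (l 3))))))) (l 3)))), by decide +kernel⟩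

def k14_pp_112 : ∃ t, chk3 f_pp_112 t 35 18 1 = true :=
  ⟨(b (a (b (l 15544832) (l 15591000)) (l 15502696)) (a (b (a (l 15653280) (l 15619808)) (b (a (a (b (l 15689928) (a (b (l 15702584) (b (l 15706760) (a (b (l 67274496535) (l 15711000)) (l 15707368)))) (l 15696904))) (l 15678632)) (l 15653504)) (a (b (a (a (c (l 42578453079) (l 44725921831)) (b (a (b (b (l 15705312) (l 15706472)) (l 15707256)) (c (l 15706672) (l 79085647575))) (l 15706680))) (b (l 15692608) (a (b (a (b (l 15702352) (l 15703240)) (l 15698904)) (a (l 15703736) (b (l 15700824) (l 15701584)))) (l 15693976)))) (a (l 3) (a (l 3) (b (b (a (b (l 15699256) (l 15699888)) (l 15696016)) (c (l 15702672) (l 55463316647))) (l 3))))) (a (b (l 15678592) (b (a (l 15691088) (l 15682752)) (a (b (a (l 58147662327) (l 15693040)) (l 50094598487)) (c (l 15691928) (l 15684400))))) (l 15667456))))) (a (b (l 15586872) (l 15631536)) (l 15560992)))), by decide +kernel⟩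

def k15_pp_112 : ∃ t, chk3 f_pp_112 t 17 19 1 = true :=
  ⟨(a (l 3) (b (a (b (a (l 3) (b (b (a (a (l 3) (b (b (a (l 15692752) (b (l 15689608) (l 15690512))) (l 15692024)) (l 3))) (b (a (b (l 15684112) (a (b (l 15688112) (l 15688880)) (l 15684792))) (l 15677168)) (a (a (l 3) (c (l 15690880) (l 59758259447))) (b (l 15681296) (a (l 64590091991) (l 15681920)))))) (a (l 3) (c (l 44189023591) (l 46336491815)))) (l 3))) (l 3)) (b (b (a (a (b (l 15667488) (b (a (b (l 15678424) (a (l 15681896) (l 15678960))) (l 15671632)) (a (l 15681360) (b (a (l 15677448) (l 15673704)) (a (l 15678512) (l 65663816391)))))) (l 15656520)) (l 15632024)) (a (a (l 3) (b (b (a (b (a (l 15674352) (l 15670936)) (l 59758234055)) (l 15666128)) (a (l 3) (b (a (l 15671168) (l 15668088)) (l 15670560)))) (l 3))) (b (a (c (l 15660464) (l 15652656)) (l 15640360)) (a (c (b (a (l 60295109575) (l 15664424)) (l 51168304663)) (b (a (b (l 71032510263) (l 15663288)) (l 15656568)) (l 53852643511))) (a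 (b (l 15652616) (b (l 15656696) (a (l 15660568) (l 15657344)))) (l 15647232)))))) (a (l 3) (b (a (l 3) (b (b (a (l 15660192) (b (l 15653944) (a (l 15657392) (l 15654496)))) (l 15658840)) (l 3))) (l 3))))) (l 3))), by decide +kernel⟩

def k16_pp_112 : ∃ t, chk3 f_pp_112 t 8 5 1 = true :=
  ⟨(l 3), by decide +kernel⟩

def k17_pp_112 : ∃ t, chk3 f_pp_112 t 9 8 1 = true :=
  ⟨(b (b (a (a (l 15025576) (b (l 14930904) (l 14955344))) (a (l 14912640) (l 14906744))) (a (l 15143288) (a (b (l 14879704) (l 14960552)) (b (l 14893552) (b (l 14872232) (l 14901216)))))) (a (a (l 15366456) (l 15163576)) (a (l 15068752) (b (l 14947664) (l 15028616))))), by decide +kernel⟩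

def k18_pp_112 : ∃ t, chk3 f_pp_112 t 18 9 1 = true :=
  ⟨(b (a (b (a (l 15440000) (l 15380072)) (a (b (l 15507096) (l 15551160)) (l 15467840))) (a (l 15387072) (l 15311344))) (a (b (a (b (a (l 15631728) (l 15579072)) (b (a (b (a (a (b (l 15647304) (b (l 15651136) (l 69958740487))) (l 15641960)) (l 15629928)) (a (a (l 3) (b (b (l 87675473239) (l 15649592)) (l 3))) (b (l 15638008) (a (b (l 81769887159) (l 15646400)) (l 15639296))))) (l 15611480)) (a (a (l 3) (a (l 3) (b (c (l 58147580807) (l 60831919143)) (l 3)))) (b (a (b (a (l 15636544) (l 15628832)) (a (l 64053133975) (l 76401160311))) (l 15619640)) (a (l 53852587207) (b (a (b (l 15630168) (l 15632008)) (l 15623672)) (a (l 15633096) (b (l 15627440) (l 15629032))))))))) (a (b (l 15547992) (l 15590824)) (l 15517816))) (b (a (l 57073849047) (b (a (b (a (b (a (b (l 15624656) (l 15625992)) (l 15618528)) (a (l 3) (l 74253664327))) (l 15609440)) (a (l 3) (b (a (l 15619184) (l 15613248)) (l 15628552)))) (a (b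 (l 15594008) (l 81232985431)) (l 15583896))) (a (l 3) (b (a (b (a (l 15613080) (l 15607808)) (l 15611792)) (a (b (l 15600712) (l 15605032)) (l 15595648))) (a (l 3) (b (a (l 15606824) (l 15602216)) (l 3))))))) (l 3))) (b (a (b (l 15473080) (l 15515112)) (l 15436864)) (a (b (a (b (l 15561176) (a (b (l 15584224) (b (l 15591944) (a (l 15599360) (l 15593216)))) (l 15574264))) (l 15541672)) (b (a (b (a (l 59758126631) (b (l 15586936) (a (l 15593536) (l 15588048)))) (l 15596136)) (a (b (l 15574600) (b (l 15581840) (l 76401101639))) (l 15564792))) (a (l 3) (a (l 15586848) (b (b (l 15576656) (l 15579232)) (l 3)))))) (b (l 15498184) (a (b (l 15542784) (b (l 15557784) (a (b (l 15592360) (l 15573472)) (l 15560320)))) (l 15523928))))))), by decide +kernel⟩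

def k19_pp_112 : ∃ t, chk3 f_pp_112 t 19 9 1 = true :=
  ⟨(a (b (l 15298160) (b (l 15356600) (a (l 15441328) (l 15409272)))) (b (l 15145584) (a (l 15321192) (l 15275552)))), by decide +kernel⟩

def k20_pp_112 : ∃ t, chk3 f_pp_112 t 9 5 1 = true :=
  ⟨(b (a (b (b (a (l 3) (a (l 3) (b (b (a (a (l 3) (b (l 75864199255) (l 3))) (b (l 15569360) (a (l 15561000) (l 15550600)))) (a (l 3) (l 62442413271))) (l 3)))) (l 3)) (l 3)) (b (a (b (b (a (a (b (l 15525080) (b (a (l 15545680) (l 15532608)) (a (l 15549768) (l 15540728)))) (l 15506912)) (l 15466448)) (a (a (l 15548248) (b (b (a (l 15535728) (l 15523928)) (l 78011632759)) (l 3))) (a (b (l 15508104) (b (a (l 15525656) (l 15515200)) (l 15523800))) (l 15490520)))) (b (a (l 3) (a (l 3) (b (b (l 94654591143) (l 15513352)) (l 3)))) (l 3))) (b (a (l 15433464) (l 15384784)) (b (a (a (b (l 15491416) (l 83380284375)) (b (l 15466368) (l 73716586199))) (l 15438080)) (a (l 153173508663) (b (a (l 58684185063) (l 15452304))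 (a (l 15482472) (b (l 15464904) (l 15470400)))))))) (a (l 3) (a (l 3) (a (l 3) (l 194512440535)))))) (l 3)), by decide +kernel⟩

def k21_pp_112 : ∃ t, chk3 f_pp_112 t 5 2 1 = true :=
  ⟨(a (a (b (b (b (l 14907072) (a (b (b (a (b (l 14882896) (l 14891008)) (l 14883032)) (b (l 14875968) (l 14913928))) (l 14960552)) (b (a (b (l 14887880) (b (l 14881120) (l 14903408))) (l 14891304)) (b (a (l 14901560) (b (l 14883208) (l 14889560))) (l 14924920))))) (b (a (a (l 15087640) (l 15053616)) (a (l 15023320) (l 14996816))) (a (a (l 15233328) (l 15194632)) (b (l 102572532663) (a (l 15193312) (l 1)))))) (b (b (a (a (b (l 15339384) (a (l 15419792) (l 15396880))) (b (l 15297368) (a (l 15374808) (c (l 15358760) (l 15348392))))) (a (b (l 116531577735) (a (c (l 425232507335) (l 15327992)) (l 1))) (l 1))) (b (a (b (a (b (a (b (a (l 15463008) (l 15452616)) (a (l 15465784) (l 15459104))) (l 15439288)) (a (l 3) (c (b (a (l 15460392) (l 15451272)) (a (l 3) (l 144046571255))) (l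 128477327623)))) (c (a (b (l 15421792) (a (b (l 15439960) (l 15448024)) (l 15432872))) (l 98278221351)) (l 88614546183))) (a (l 3) (a (b (a (a (l 186996221271) (b (b (l 15445648) (l 3)) (l 3))) (c (a (b (b (l 15446080) (l 15449128)) (l 3)) (b (l 15442512) (b (c (l 139751572983) (l 15444680)) (l 3)))) (l 125792921031))) (l 3)) (a (b (c (b (l 15434176) (c (b (l 15442944) (a (b (l 8755064023) (l 15448560)) (b (l 15443328) (a (l 15446384) (l 15444000))))) (l 30632537463))) (l 15427104)) (a (l 3) (a (l 190754270455) (a (c (c (l 183774962871) (l 183774963367)) (l 15433288)) (l 1))))) (b (l 451002438231) (l 1)))))) (l 1)) (a (l 3) (l 1)))) (l 3))) (b (b (l 1) (l 1)) (l 1))) (l 1)), by decide +kernel⟩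

def k22_pp_112 : ∃ t, chk3 f_pp_112 t 2 3 1 = true :=
  ⟨(b (a (l 3) (l 1)) (l 3)), by decide +kernel⟩

def k23_pp_112 : ∃ t, chk3 f_pp_112 t 3 1 1 = true :=
  ⟨(l 1), by decide +kernel⟩

theorem s24_pp_112 : ∃ t, chk3 f_pp_112 t 9 9 1 = true := ex3_a k18_pp_112 k19_pp_112

theorem s25_pp_112 : ∃ t, chk3 f_pp_112 t 9 4 1 = true := ex3_b k17_pp_112 s24_pp_112

theorem s26_pp_112 : ∃ t, chk3 f_pp_112 t 9 2 1 = true := ex3_b s25_pp_112 k20_pp_112

theorem s27_pp_112 : ∃ t, chk3 f_pp_112 t 34 37 1 = true := ex3_b k12_pp_112 k13_pp_112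

theorem s28_pp_112 : ∃ t, chk3 f_pp_112 t 34 18 1 = true := ex3_b k11_pp_112 s27_pp_112

theorem s29_pp_112 : ∃ t, chk3 f_pp_112 t 17 18 1 = true := ex3_a s28_pp_112 k14_pp_112

theorem s30_pp_112 : ∃ t, chk3 f_pp_112 t 17 9 1 = true := ex3_b s29_pp_112 k15_pp_112

theorem s31_pp_112 : ∃ t, chk3 f_pp_112 t 17 4 1 = true := ex3_b k10_pp_112 s30_pp_112

theorem s32_pp_112 : ∃ t, chk3 f_pp_112 t 33 36 1 = true := ex3_a k6_pp_112 k7_pp_112

theorem s33_pp_112 : ∃ t, chk3 f_pp_112 t 33 18 1 = true := ex3_b s32_pp_112 k8_pp_112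

theorem s34_pp_112 : ∃ t, chk3 f_pp_112 t 16 18 1 = true := ex3_a k5_pp_112 s33_pp_112

theorem s35_pp_112 : ∃ t, chk3 f_pp_112 t 16 9 1 = true := ex3_b s34_pp_112 k9_pp_112

theorem s36_pp_112 : ∃ t, chk3 f_pp_112 t 32 35 1 = true := ex3_a k2_pp_112 k3_pp_112

theorem s37_pp_112 : ∃ t, chk3 f_pp_112 t 32 17 1 = true := ex3_b k1_pp_112 s36_pp_112

theorem s38_pp_112 : ∃ t, chk3 f_pp_112 t 32 8 1 = true := ex3_b k0_pp_112 s37_pp_112

theorem s39_pp_112 : ∃ t, chk3 f_pp_112 t 16 8 1 = true := ex3_a s38_pp_112 k4_pp_112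

theorem s40_pp_112 : ∃ t, chk3 f_pp_112 t 16 4 1 = true := ex3_b s39_pp_112 s35_pp_112

theorem s41_pp_112 : ∃ t, chk3 f_pp_112 t 8 4 1 = true := ex3_a s40_pp_112 s31_pp_112

theorem s42_pp_112 : ∃ t, chk3 f_pp_112 t 8 2 1 = true := ex3_b s41_pp_112 k16_pp_112

theorem s43_pp_112 : ∃ t, chk3 f_pp_112 t 4 2 1 = true := ex3_a s42_pp_112 s26_pp_112

theorem s44_pp_112 : ∃ t, chk3 f_pp_112 t 2 2 1 = true := ex3_a s43_pp_112 k21_pp_112

theorem s45_pp_112 : ∃ t, chk3 f_pp_112 t 2 1 1 = true := ex3_b s44_pp_112 k22_pp_112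

theorem s46_pp_112 : ∃ t, chk3 f_pp_112 t 1 1 1 = true := ex3_a s45_pp_112 k23_pp_112

theorem c_pp_112 : CertB 536870912 536870912 0 536870912 1033476505 6710887 3 eng mog cd1q1 cd0q2 pd1 false true true .dn 1 1 2
    ndB1q1 ndB0q2 pcB1 Cut.none Ext.none :=
  certB2 (fam := false) (s1 := true) (s2 := true) (a := 1) (b := 1) (c := 2) (cn := .dn) (n1 := ndB1q1) (n2 := ndB0q2) (pc := pcB1) (cut := Cut.none) (xt := Ext.none) (P1 := 536870912) (W1 := 536870912) (P2 := 0) (W2 := 536870912) (P3 := 1033476505) (W3 := 6710887) (N0 := 3) (En := eng) (mo := mog) (C1 := cd1q1) (C2 := cd0q2) (C3 := pd1)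
    rfl (fun _ => rfl) s46_pp_112

noncomputable def f_pp_202_a : ℕ → ℕ → ℕ → ℕ → Bool := onCell 0 536870912 0 536870912 1033476505 6710887
    (rowB 3 eng mog cd1q2a cd0q2 pd0 0 false true true .pp 2 0 2 (qsf 0 536870912 0 536870912 0) ndB1q2a ndB0q2 pcB0 Cut.none Ext.none)

def k0_pp_202_a : ∃ t, chk3 f_pp_202_a t 1 1 1 = true :=
  ⟨(l 3), by decide +kernel⟩

theorem c_pp_202_a : CertB 0 536870912 0 536870912 1033476505 6710887 3 eng mog cd1q2a cd0q2 pd0 false true true .pp 2 0 2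
    ndB1q2a ndB0q2 pcB0 Cut.none Ext.none :=
  certB0 (fam := false) (s1 := true) (s2 := true) (a := 2) (b := 0) (c := 2) (cn := .pp) (n1 := ndB1q2a) (n2 := ndB0q2) (pc := pcB0) (cut := Cut.none) (xt := Ext.none) (P1 := 0) (W1 := 536870912) (P2 := 0) (W2 := 536870912) (P3 := 1033476505) (W3 := 6710887) (N0 := 3) (En := eng) (mo := mog) (C1 := cd1q2a) (C2 := cd0q2) (C3 := pd0)
    rfl k0_pp_202_a

noncomputable def f_pp_202_b : ℕ → ℕ → ℕ → ℕ → Bool := onCell 1239849684 370763052 0 536870912 1033476505 6710887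
    (rowB 3 eng mog cd1q2b cd0q2 pd0 0 false true true .pp 2 0 2 (qsf 1239849684 370763052 0 536870912 0) ndB1q2b ndB0q2 pcB0 Cut.none Ext.none)

def k0_pp_202_b : ∃ t, chk3 f_pp_202_b t 1 1 1 = true :=
  ⟨(l 3), by decide +kernel⟩

theorem c_pp_202_b : CertB 1239849684 370763052 0 536870912 1033476505 6710887 3 eng mog cd1q2b cd0q2 pd0 false true true .pp 2 0 2
    ndB1q2b ndB0q2 pcB0 Cut.none Ext.none :=
  certB0 (fam := false) (s1 := true) (s2 := true) (a := 2) (b := 0) (c := 2) (cn := .pp) (n1 := ndB1q2b) (n2 := ndB0q2) (pc := pcB0) (cut := Cut.none) (xt := Ext.none) (P1 := 1239849684) (W1 := 370763052) (P2 := 0) (W2 := 536870912) (P3 := 1033476505) (W3 := 6710887) (N0 := 3) (En := eng) (mo := mog) (C1 := cd1q2b) (C2 := cd0q2) (C3 := pd0)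
    rfl k0_pp_202_b

noncomputable def f_pm_001 : ℕ → ℕ → ℕ → ℕ → Bool := onCell 0 536870912 536870912 536870912 1033476505 6710887
    (rowB 3 eng mog cd1q0 cd0q1 pd0 0 false true false .up 0 0 1 (qsf 0 536870912 536870912 536870912 0) ndB1q0 ndB0q1 pcB0 Cut.none Ext.none)

def k0_pm_001 : ∃ t, chk3 f_pm_001 t 1 1 1 = true :=
  ⟨(b (l 4) (b (a (l 4) (a (b (l 4) (a (l 4) (b (l 4) (a (l 4) (l 4))))) (b (a (l 4) (l 4)) (b (a (l 4) (a (l 16702048) (l 16644736))) (a (a (b (l 4) (l 16624976)) (l 16682432)) (a (l 16694832) (l 16667264))))))) (a (l 2) (b (a (a (l 2) (b (a (l 2) (b (l 16491856) (l 2))) (l 2))) (a (b (a (l 16385920) (l 16495960)) (b (l 16274208) (l 16099352))) (b (a (l 16509384) (l 16508272)) (b (l 16306896) (a (b (l 16192552) (l 16130168)) (b (l 16200784) (l 16145920))))))) (a (l 2) (b (a (b (a (l 2) (b (a (l 2) (l 16054000)) (l 2))) (l 2)) (b (a (b (a (l 16088896) (l 16139824)) (l 16212496)) (l 16261912)) (a (l 16094560) (l 16057504)))) (a (l 2)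 (b (a (l 15783800) (l 15722080)) (a (l 2) (l 15287560)))))))))), by decide +kernel⟩

theorem c_pm_001 : CertB 0 536870912 536870912 536870912 1033476505 6710887 3 eng mog cd1q0 cd0q1 pd0 false true false .up 0 0 1
    ndB1q0 ndB0q1 pcB0 Cut.none Ext.none :=
  certB0 (fam := false) (s1 := true) (s2 := false) (a := 0) (b := 0) (c := 1) (cn := .up) (n1 := ndB1q0) (n2 := ndB0q1) (pc := pcB0) (cut := Cut.none) (xt := Ext.none) (P1 := 0) (W1 := 536870912) (P2 := 536870912) (W2 := 536870912) (P3 := 1033476505) (W3 := 6710887) (N0 := 3) (En := eng) (mo := mog) (C1 := cd1q0) (C2 := cd0q1) (C3 := pd0)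
    rfl k0_pm_001

noncomputable def cut_pm_011 : Cut := Cut.of [[⟨0, 0, 0, 33554432⟩, ⟨1, 1, 0, 33554432⟩, ⟨2, 1, 0, 33554432⟩]]

noncomputable def f_pm_011 : ℕ → ℕ → ℕ → ℕ → Bool := onCell 536870912 536870912 536870912 536870912 1033476505 6710887
    (rowB 3 eng mog cd1q0 cd0q1 pd1 2 false true false .pnn 0 1 1 (qsf 0 536870912 536870912 536870912 1) ndB1q0 ndB0q1 pcB1 cut_pm_011 Ext.none)

def k0_pm_011 : ∃ t, chk3 f_pm_011 t 2 1 1 = true :=
  ⟨(b (a (l 4) (b (a (b (l 1) (l 4)) (l 1)) (l 4))) (b (a (b (l 4) (a (b (l 4) (a (l 4) (l 4))) (l 4))) (l 4)) (b (b (a (b (a (a (l 16536888) (l 153779221623)) (l 4)) (a (a (l 16531424) (l 16441776)) (a (a (l 16364032) (l 16319224)) (a (l 16282192) (l 4))))) (l 4)) (a (a (b (l 16474568) (l 16392888)) (a (b (l 16366176) (l 16416048)) (b (a (l 16275112) (l 16221008)) (l 16328440)))) (a (a (b (a (b (l 16181720) (l 16176952)) (b (l 4) (l 16149552))) (l 16148872)) (b (a (l 105460162983) (l 4)) (b (a (l 16145064) (l 16142136))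 (l 16186984)))) (a (b (l 4) (a (b (l 16172000) (l 16158344)) (b (l 4) (l 93649059655)))) (l 4))))) (a (b (a (b (a (l 16321520) (l 16210240)) (l 16273080)) (b (a (l 16315120) (l 16432064)) (b (a (l 16346464) (l 16402632)) (l 16329664)))) (a (l 16198704) (l 16265544))) (b (a (b (a (l 16218704) (b (l 16260720) (l 16347136))) (a (b (l 16492944) (l 16398888)) (b (l 16467312) (l 16463456)))) (b (a (b (a (l 16221464) (l 16206048)) (l 16298816)) (b (a (l 72711160311) (b (l 4) (l 16245216))) (a (l 16280920) (l 16282744)))) (a (b (l 16418376) (l 16561440)) (b (l 16306640) (l 16519480))))) (b (a (l 16376800) (a (b (l 16453272) (l 16410016)) (b (a (l 16495024) (l 16534896)) (l 16450952)))) (a (l 16313360) (l 16392336)))))))), by decide +kernel⟩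

def k1_pm_011 : ∃ t, chk3 f_pm_011 t 3 2 1 = true :=
  ⟨(a (b (l 1) (a (b (l 1) (l 4)) (l 1))) (l 1)), by decide +kernel⟩

def k2_pm_011 : ∃ t, chk3 f_pm_011 t 6 3 1 = true :=
  ⟨(b (l 4) (b (l 4) (a (b (a (b (b (l 4) (a (b (l 16296880) (l 16316784)) (b (l 4) (l 16338800)))) (b (a (l 16393352) (l 16411432)) (l 16405008))) (b (l 4) (b (a (b (l 16394200) (l 16465888)) (a (l 16477528) (l 16516072))) (a (l 16531000) (l 16563112))))) (a (b (b (a (l 16582464) (l 16609976)) (l 16507792)) (l 16455456)) (b (b (a (l 16611712) (l 16625096)) (a (l 16545032) (l 16574240))) (l 16499232)))) (b (b (l 4) (b (a (l 4) (l 4)) (a (a (b (l 129083392791) (l 16622216)) (a (l 16665168) (l 16700784))) (a (a (l 335242076503) (l 4)) (l 4))))) (b (b (a (a (l 16652104) (l 16680616)) (a (a (l 16667944) (l 16659512)) (a (l 16660824) (l 16652768)))) (a (a (l 16601344) (l 16620096)) (a (l 16605824) (l 16638736)))) (b (a (a (l 16548176) (l 16571288)) (a (l 16592664) (l 16614144))) (l 16533024))))))),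 by decide +kernel⟩

def k3_pm_011 : ∃ t, chk3 f_pm_011 t 7 3 1 = true :=
  ⟨(b (a (b (l 1) (l 4)) (l 1)) (b (l 4) (b (l 4) (b (a (a (a (a (b (l 219814821031) (l 16665688)) (b (l 4) (l 16668736))) (b (l 4) (a (l 16712224) (l 169349040823)))) (a (b (l 4) (a (l 174717792199) (l 317525479607))) (l 4))) (l 4)) (a (a (a (b (l 16578784) (l 16612432)) (b (l 16675632) (l 16637504))) (b (a (b (l 16725496) (l 16696648)) (b (a (l 16733784) (b (l 4) (l 16737056))) (l 16707536))) (a (b (l 16669592) (l 16653384)) (b (l 16697264) (l 16678112))))) (a (b (b (l 4) (a (a (l 16721600) (b (a (l 16746816) (l 4)) (l 16747136))) (a (b (l 4) (b (l 4) (l 16753296))) (l 4)))) (a (b (a (l 16719552) (l 16733680)) (b (l 16685344) (l 16698200))) (b (a (b (l 16752896) (l 16739776)) (b (a (l 16757344) (l 16766440)) (l 16752424))) (b (a (l 16725368) (l 16738672)) (l 16702088))))) (b (l 4) (a (a (a (b (b (l 4) (l 16760840)) (b (l 16748680) (l 16737936))) (l 6)) (l 6)) (l 6))))))))), by decide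 +kernel⟩

theorem s4_pm_011 : ∃ t, chk3 f_pm_011 t 3 3 1 = true := ex3_a k2_pm_011 k3_pm_011

theorem s5_pm_011 : ∃ t, chk3 f_pm_011 t 3 1 1 = true := ex3_b k1_pm_011 s4_pm_011

theorem s6_pm_011 : ∃ t, chk3 f_pm_011 t 1 1 1 = true := ex3_a k0_pm_011 s5_pm_011

theorem c_pm_011 : CertB 0 536870912 536870912 536870912 1033476505 6710887 3 eng mog cd1q0 cd0q1 pd1 false true false .pnn 0 1 1
    ndB1q0 ndB0q1 pcB1 cut_pm_011 Ext.none :=
  certB2 (fam := false) (s1 := true) (s2 := false) (a := 0) (b := 1) (c := 1) (cn := .pnn) (n1 := ndB1q0) (n2 := ndB0q1) (pc := pcB1) (cut := cut_pm_011) (xt := Ext.none) (P1 := 0) (W1 := 536870912) (P2 := 536870912) (W2 := 536870912) (P3 := 1033476505) (W3 := 6710887) (N0 := 3) (En := eng) (mo := mog) (C1 := cd1q0) (C2 := cd0q1) (C3 := pd1)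
    rfl (fun _ => rfl) s6_pm_011

noncomputable def cut_pm_012 : Cut := Cut.of [[⟨0, 0, 0, 33554432⟩, ⟨1, 1, 0, 33554432⟩, ⟨2, 1, 0, 33554432⟩]]

noncomputable def f_pm_012 : ℕ → ℕ → ℕ → ℕ → Bool := onCell 536870912 536870912 0 536870912 1033476505 6710887
    (rowB 3 eng mog cd1q0 cd0q2 pd1 2 false true false .pnp 0 1 2 (qsf 0 536870912 0 536870912 1) ndB1q0 ndB0q2 pcB1 cut_pm_012 Ext.none)

def k0_pm_012 : ∃ t, chk3 f_pm_012 t 2 1 1 = true :=
  ⟨(b (a (b (l 2) (a (l 2) (b (l 2) (b (l 2) (l 885399960247))))) (b (a (b (l 11373136039) (a (l 16191688) (l 16305304))) (b (l 16329584) (l 16457632))) (a (b (a (l 16324456) (l 16421120)) (b (a (l 16439576) (l 16533936)) (l 16636176))) (b (b (l 16502688) (a (l 16514528) (l 16525904))) (l 16508048))))) (b (a (a (l 2) (a (b (l 2) (l 16443112)) (b (l 16642584) (l 16451480)))) (b (a (b (l 16725144) (l 16610080)) (b (l 16641608) (l 16503072))) (a (l 16214664) (b (l 16385696) (l 16302072))))) (b (a (b (a (l 16250512) (l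 16243864)) (b (l 16107984) (a (l 16052184) (l 16082472)))) (b (a (l 16242512) (l 16246400)) (a (b (l 16176608) (l 16132848)) (b (l 16216592) (l 16196536))))) (a (b (a (l 16068440) (l 16102336)) (l 16146488)) (b (b (a (l 16123824) (l 16176088)) (l 16182320)) (a (l 16233528) (l 16300656))))))), by decide +kernel⟩

def k1_pm_012 : ∃ t, chk3 f_pm_012 t 3 2 1 = true :=
  ⟨(a (b (a (b (l 16515280) (l 16515000)) (b (l 16524928) (l 16512672))) (b (a (b (l 16515296) (a (l 16536024) (l 16555688))) (b (a (l 16512080) (l 16519512)) (l 16587776))) (a (l 16566544) (l 16507032)))) (b (a (b (l 16517040) (b (l 16501816) (l 16502936))) (b (l 16493432) (a (l 16501576) (l 16508400)))) (a (b (l 16443024) (a (l 16465192) (l 16397456))) (b (l 16241528) (a (l 16331568) (l 16267664)))))), by decide +kernel⟩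

def k2_pm_012 : ∃ t, chk3 f_pm_012 t 3 6 1 = true :=
  ⟨(a (b (a (b (l 16518160) (l 16399768)) (b (l 16399088) (l 16301040))) (a (b (l 16310032) (l 16265008)) (b (l 16238968) (l 16232528)))) (b (a (b (l 16285512) (l 16207464)) (b (a (l 16204536) (l 16152528)) (a (l 16140872) (l 16098184)))) (a (b (l 16172656) (a (l 16210768) (l 16197696))) (b (a (l 16125864) (a (l 16103384) (l 16088752))) (a (l 16185512) (b (l 16147248) (l 16202912))))))), by decide +kernel⟩

def k3_pm_012 : ∃ t, chk3 f_pm_012 t 3 7 1 = true :=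
  ⟨(a (b (b (a (l 16255288) (l 16268688)) (a (b (l 16261832) (l 16264376)) (b (l 16311488) (l 16336520)))) (b (a (b (l 16248288) (l 16272680)) (b (l 16338152) (a (l 16325712) (l 16370592)))) (a (l 16374584) (a (l 16434104) (l 16371984))))) (b (b (a (a (l 16280912) (l 16290312)) (a (b (l 16266976) (l 16333800)) (b (a (l 16270424) (l 16272888)) (a (l 16345824) (l 16353952))))) (a (b (a (l 16350688) (l 16377800)) (a (l 16392328) (l 16430368))) (b (a (l 16384336) (a (l 16425968) (b (l 16418264) (l 16460864)))) (a (b (l 16456416) (l 16479872)) (a (b (l 16483296) (l 16510176)) (b (l 16501216) (l 16530352))))))) (a (b (b (a (l 16406352) (l 16452496)) (a (l 16423592) (l 16477832))) (a (b (l 16455280) (l 16564232)) (a (b (l 16510656) (l 16598520)) (b (l 16495248) (l 16600608))))) (b (b (a (b (l 16490984) (l 16502976)) (a (b (l 16523944) (l 16538600)) (b (l 16545856) (l 16562248)))) (a (a (l 16518280) (l 16545216)) (a (b (l 16559448) (l 16584960)) (a (l 16591920)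 (b (l 16591352) (l 16619424)))))) (a (b (a (b (l 16553472) (l 16579992)) (l 16598008)) (b (a (l 16620232) (b (l 16634920) (l 16656088))) (a (l 16669824) (l 16651648)))) (a (a (b (l 16621320) (b (b (l 16659704) (l 16676072)) (l 16669680))) (b (l 16594872) (b (l 16684760) (l 6)))) (b (a (b (l 16636024) (l 6)) (l 6)) (l 6)))))))), by decide +kernel⟩

theorem s4_pm_012 : ∃ t, chk3 f_pm_012 t 3 3 1 = true := ex3_b k2_pm_012 k3_pm_012

theorem s5_pm_012 : ∃ t, chk3 f_pm_012 t 3 1 1 = true := ex3_b k1_pm_012 s4_pm_012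

theorem s6_pm_012 : ∃ t, chk3 f_pm_012 t 1 1 1 = true := ex3_a k0_pm_012 s5_pm_012

theorem c_pm_012 : CertB 0 536870912 0 536870912 1033476505 6710887 3 eng mog cd1q0 cd0q2 pd1 false true false .pnp 0 1 2
    ndB1q0 ndB0q2 pcB1 cut_pm_012 Ext.none :=
  certB2 (fam := false) (s1 := true) (s2 := false) (a := 0) (b := 1) (c := 2) (cn := .pnp) (n1 := ndB1q0) (n2 := ndB0q2) (pc := pcB1) (cut := cut_pm_012) (xt := Ext.none) (P1 := 0) (W1 := 536870912) (P2 := 0) (W2 := 536870912) (P3 := 1033476505) (W3 := 6710887) (N0 := 3) (En := eng) (mo := mog) (C1 := cd1q0) (C2 := cd0q2) (C3 := pd1)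
    rfl (fun _ => rfl) s6_pm_012

noncomputable def cut_pm_022 : Cut := Cut.of [[⟨0, 0, 0, 33554432⟩, ⟨1, 1, 0, 33554432⟩, ⟨2, 1, 0, 33554432⟩]]

noncomputable def f_pm_022 : ℕ → ℕ → ℕ → ℕ → Bool := onCell 0 536870912 0 536870912 1033476505 6710887
    (rowB 3 eng mog cd1q0 cd0q2 pd2 0 false true false .pp 0 2 2 (qsf 0 536870912 0 536870912 2) ndB1q0 ndB0q2 pcB2 cut_pm_022 Ext.none)

def k0_pm_022 : ∃ t, chk3 f_pm_022 t 2 2 1 = true :=
  ⟨(a (a (b (b (l 16206944) (l 16106680)) (b (a (b (l 16239104) (l 16266904)) (b (l 16169600) (l 16198624))) (a (b (l 16291832) (a (l 16369744) (l 16356680))) (b (l 16265872) (l 16340400))))) (b (b (l 16161624) (l 16040584)) (b (b (l 16041168) (a (l 16083848) (b (l 16039096) (l 16073488)))) (a (b (l 16215912) (l 16312856)) (b (l 16156192) (l 16271792)))))) (a (b (b (l 129954905079) (a (l 16081392) (l 1))) (a (b (b (l 16017984) (b (l 15984736) (l 15992360))) (b (l 16085304) (l 16215096))) (l 1))) (l 1))), by decide +kernel⟩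

def k1_pm_022 : ∃ t, chk3 f_pm_022 t 2 6 1 = true :=
  ⟨(a (a (b (a (b (a (l 16422368) (l 16420032)) (b (l 16467064) (l 16478480))) (b (l 16422472) (b (l 16488848) (l 16533328)))) (a (b (b (l 16478952) (l 16465616)) (b (a (l 16506096) (l 16544680)) (a (l 16493824) (l 16538552)))) (b (b (l 16567128) (l 16586208)) (a (l 16537104) (l 16608832))))) (b (b (a (l 16416248) (l 16391728)) (a (l 16504448) (l 16514448))) (b (a (l 16554448) (l 16606224)) (a (b (l 16583664) (l 16588152)) (l 1))))) (l 1)), by decide +kernel⟩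

def k2_pm_022 : ∃ t, chk3 f_pm_022 t 2 7 1 = true :=
  ⟨(a (b (b (a (a (b (a (a (l 16466088) (l 16491888)) (l 16529288)) (a (b (l 16469200) (a (l 16449320) (l 16478440))) (l 16479360))) (b (l 16507256) (a (l 16568056) (l 16604456)))) (a (b (l 16598848) (l 16612032)) (l 1))) (a (a (b (a (b (a (l 16445632) (l 16475936)) (a (b (l 16445248) (l 16426968)) (l 16477176))) (b (l 16518952) (l 16521440))) (a (b (a (b (a (b (l 16440568) (l 16442168)) (l 16457040)) (a (b (l 16444584) (l 16427408)) (l 16462408))) (b (l 16481320) (l 16487008))) (a (a (b (b (l 16448264) (l 16454632)) (a (b (l 16452736) (l 16461352)) (l 16454824))) (b (l 16472872) (l 16488168))) (b (l 16497776) (l 16513352)))) (b (a (l 16514688) (l 16542856)) (a (l 16536504) (l 16565088))))) (b (a (l 16548096) (l 16606472)) (a (b (l 16579536) (l 16581016)) (b (l 16616952) (l 1))))) (l 1))) (a (b (a (b (a (a (b (b (a (a (b (a (l 16468896) (l 16483656)) (l 16481368)) (l 16495128)) (l 16507648)) (a (a (b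 (l 16496840) (l 16508816)) (l 16515720)) (l 16528376))) (a (a (b (a (b (l 16519696) (l 16518800)) (l 16528896)) (a (b (l 16528216) (l 6)) (l 16547784))) (b (l 16535408) (l 16554344))) (b (l 16548184) (l 16567224)))) (b (b (l 16533080) (l 16554024)) (l 16541800))) (b (b (l 16558760) (l 16579960)) (a (l 16616000) (l 16644904)))) (a (l 6) (a (l 6) (a (l 6) (l 16655480))))) (b (a (b (l 16577992) (l 16639536)) (l 1)) (l 1))) (a (a (l 6) (a (l 6) (l 1))) (l 1))) (l 1))) (l 1)), by decide +kernel⟩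

def k3_pm_022 : ∃ t, chk3 f_pm_022 t 3 1 1 = true :=
  ⟨(l 1), by decide +kernel⟩

theorem s4_pm_022 : ∃ t, chk3 f_pm_022 t 2 3 1 = true := ex3_b k1_pm_022 k2_pm_022

theorem s5_pm_022 : ∃ t, chk3 f_pm_022 t 2 1 1 = true := ex3_b k0_pm_022 s4_pm_022

theorem s6_pm_022 : ∃ t, chk3 f_pm_022 t 1 1 1 = true := ex3_a s5_pm_022 k3_pm_022

theorem c_pm_022 : CertB 0 536870912 0 536870912 1033476505 6710887 3 eng mog cd1q0 cd0q2 pd2 false true false .pp 0 2 2
    ndB1q0 ndB0q2 pcB2 cut_pm_022 Ext.none :=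
  certB0 (fam := false) (s1 := true) (s2 := false) (a := 0) (b := 2) (c := 2) (cn := .pp) (n1 := ndB1q0) (n2 := ndB0q2) (pc := pcB2) (cut := cut_pm_022) (xt := Ext.none) (P1 := 0) (W1 := 536870912) (P2 := 0) (W2 := 536870912) (P3 := 1033476505) (W3 := 6710887) (N0 := 3) (En := eng) (mo := mog) (C1 := cd1q0) (C2 := cd0q2) (C3 := pd2)
    rfl s6_pm_022

noncomputable def f_pm_101 : ℕ → ℕ → ℕ → ℕ → Bool := onCell 0 536870912 536870912 536870912 1033476505 6710887
    (rowB 3 eng mog cd1q1 cd0q1 pd0 2 false true false .npn 1 0 1 (qsf 536870912 536870912 536870912 536870912 0) ndB1q1 ndB0q1 pcB0 Cut.none Ext.none)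

def k0_pm_101 : ∃ t, chk3 f_pm_101 t 2 2 1 = true :=
  ⟨(b (l 4) (a (b (l 4) (a (b (a (l 15941200) (l 54993714023)) (a (l 16236168) (l 16104520))) (b (l 4) (a (l 15955120) (l 53382872407))))) (b (l 4) (a (b (l 4) (a (l 15692392) (l 4))) (l 4))))), by decide +kernel⟩

def k1_pm_101 : ∃ t, chk3 f_pm_101 t 2 3 1 = true :=
  ⟨(a (b (b (a (b (a (l 16309688) (l 16182576)) (l 16209032)) (b (a (l 16059320) (l 15942632)) (l 15961616))) (b (a (l 16051744) (l 16117912)) (a (a (a (l 15599008) (l 15512896)) (a (l 15818416) (l 15895200))) (b (l 16085264) (l 15967048))))) (a (b (a (a (b (l 15395136) (l 15372488)) (b (l 15521208) (b (l 15426864) (l 15422120)))) (a (b (l 15611128) (a (l 15441064) (l 15461112))) (b (l 15695488) (l 15514976)))) (a (b (a (b (l 15683680) (l 16236376)) (b (a (l 15524936) (l 15477352)) (a (l 15795856) (l 15659880)))) (a (l 16211008) (a (l 16192832) (l 16132136)))) (b (a (b (a (l 15444528) (l 15429384)) (a (l 15576056) (l 15526824))) (b (l 15448400)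 (l 15508960))) (a (a (l 15931800) (l 15811944)) (b (l 15635152) (l 15791664)))))) (b (b (a (l 15795704) (l 15875952)) (b (l 15714040) (l 15625352))) (b (b (a (l 15510232) (l 15592056)) (a (l 15533336) (l 15598008))) (a (b (l 15605800) (l 15696504)) (l 15665256)))))) (b (b (a (b (a (l 15833168) (l 15686928)) (a (l 15901648) (l 15801248))) (b (a (l 15569808) (l 15547096)) (a (l 15710296) (l 15627360)))) (a (b (l 15914528) (a (l 16023640) (l 15937400))) (b (l 15627088) (l 15578776)))) (b (b (a (b (l 15928056) (l 15871976)) (b (l 15871416) (a (l 15821904) (l 15763216)))) (a (b (l 15815528) (l 15743984)) (b (l 15777744) (l 15744696)))) (b (a (b (a (l 15654352) (l 15693320)) (l 15454968)) (b (a (l 15709592) (l 15704712)) (a (l 15737696) (l 15751360)))) (a (a (l 15716376) (l 15770032)) (a (l 15817952) (l 15856824))))))), by decide +kernel⟩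

def k2_pm_101 : ∃ t, chk3 f_pm_101 t 3 1 1 = true :=
  ⟨(b (l 4) (b (b (a (a (b (l 4) (a (l 15551496) (l 15485544))) (l 4)) (l 1)) (a (a (b (a (l 15616456) (l 15551968)) (b (l 15633368) (l 15687344))) (b (a (l 15496160) (l 278666668151)) (b (l 15519384) (l 15570256)))) (a (b (l 1) (a (l 15484296) (l 1))) (l 1)))) (b (a (a (b (a (b (l 15788760) (l 15704552)) (l 15720544)) (b (a (l 15679016) (l 15587616)) (l 15651424))) (b (l 15507176) (b (a (l 15397592) (l 15288416)) (a (l 15530072) (l 15429792))))) (b (a (a (l 15598368) (l 15568760)) (l 1)) (a (b (a (l 15382784) (l 15344456)) (a (b (l 15275016) (l 15340528)) (b (l 15223248) (l 15217928)))) (b (l 1) (a (b (l 1) (a (l 15132824) (l 1))) (l 1)))))) (a (b (a (b (a (l 15680360) (l 15638136)) (a (l 15748680) (l 15730512))) (b (a (l 15579544) (l 15506032)) (a (l 15697776) (l 15651440)))) (a (b (l 15762768) (l 15923768)) (b (a (l 15840000) (l 15821096)) (a (l 15975384) (l 15984160))))) (b (a (b (a (l 15419008) (l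 15319856)) (a (l 15592496) (l 15521992))) (b (a (l 15209976) (l 1)) (a (l 15441000) (l 15350672)))) (a (b (a (l 15790872) (l 15749992)) (a (l 15983184) (l 15972736))) (b (a (l 15699224) (l 15639440)) (a (l 15953264) (l 15925328))))))))), by decide +kernel⟩

theorem s3_pm_101 : ∃ t, chk3 f_pm_101 t 2 1 1 = true := ex3_b k0_pm_101 k1_pm_101

theorem s4_pm_101 : ∃ t, chk3 f_pm_101 t 1 1 1 = true := ex3_a s3_pm_101 k2_pm_101

theorem c_pm_101 : CertB 536870912 536870912 536870912 536870912 1033476505 6710887 3 eng mog cd1q1 cd0q1 pd0 false true false .npn 1 0 1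
    ndB1q1 ndB0q1 pcB0 Cut.none Ext.none :=
  certB2 (fam := false) (s1 := true) (s2 := false) (a := 1) (b := 0) (c := 1) (cn := .npn) (n1 := ndB1q1) (n2 := ndB0q1) (pc := pcB0) (cut := Cut.none) (xt := Ext.none) (P1 := 536870912) (W1 := 536870912) (P2 := 536870912) (W2 := 536870912) (P3 := 1033476505) (W3 := 6710887) (N0 := 3) (En := eng) (mo := mog) (C1 := cd1q1) (C2 := cd0q1) (C3 := pd0)
    rfl (fun _ => rfl) s4_pm_101

noncomputable def f_pm_102 : ℕ → ℕ → ℕ → ℕ → Bool := onCell 0 536870912 0 536870912 1033476505 6710887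
    (rowB 3 eng mog cd1q1 cd0q2 pd0 2 false true false .npp 1 0 2 (qsf 536870912 536870912 0 536870912 0) ndB1q1 ndB0q2 pcB0 Cut.none Ext.none)

def k0_pm_102 : ∃ t, chk3 f_pm_102 t 2 2 1 = true :=
  ⟨(a (a (l 2) (l 3)) (b (l 3) (b (b (l 3) (a (l 3) (a (l 3) (a (b (l 3) (a (l 16302032) (l 143511197047))) (b (l 160154173735) (a (l 142974368919) (l 16468072))))))) (b (a (l 3) (a (a (b (l 3) (a (b (l 3) (l 192366613703)) (b (l 185924126071) (l 16371448)))) (b (a (l 181092216919) (b (l 16315080) (l 16347944))) (a (l 142437536599) (l 16462624)))) (b (a (a (l 142974352983) (l 16471824)) (l 16509728)) (a (l 16514208) (l 16443464))))) (a (a (a (l 3) (a (l 3) (b (l 3) (l 165523365495)))) (a (b (l 3) (b (a (l 16478328) (a (l 16429832) (l 16460952))) (a (a (l 16463480) (l 16505392)) (l 16522288)))) (b (a (b (l 3) (a (l 16431312) (l 16419920))) (b (l 188071698007) (l 16460104))) (a (l 16449640) (l 16542656))))) (a (a (b (a (l 16332776) (l 16474800)) (a (l 16613928)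 (l 16464344))) (b (l 16546192) (b (a (l 16525768) (l 16486208)) (l 16490720)))) (b (a (b (l 16557648) (l 16455992)) (l 16503136)) (l 16429944)))))))), by decide +kernel⟩

def k1_pm_102 : ∃ t, chk3 f_pm_102 t 4 6 1 = true :=
  ⟨(a (l 2) (a (b (l 2) (b (a (l 2) (b (a (l 2) (b (l 2) (b (l 16453656) (l 16468848)))) (a (b (l 2) (l 16532728)) (l 16512672)))) (a (a (l 2) (b (l 16568080) (l 16595136))) (b (b (l 16561680) (l 16564704)) (l 16565128))))) (b (a (b (l 3) (b (a (l 2) (b (l 3) (a (b (l 3) (a (a (l 2) (b (l 3) (a (l 111299397783) (l 148880365207)))) (a (b (l 138679848999) (l 182166369015)) (l 166060257079)))) (b (a (l 194514451495) (l 144048597911)) (a (b (l 177334560695) (l 16472216)) (l 16479216)))))) (a (b (a (l 2) (a (l 2) (a (l 1131287001383) (l 1300938215351)))) (a (l 1286442640887) (l 16422392))) (b (a (b (a (b (l 493484375911) (l 16454744)) (l 16440664)) (l 16432952)) (l 16463624)) (b (l 16430808) (l 16449600)))))) (b (b (l 3) (a (l 3) (b (l 3)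 (a (l 193977683447) (b (l 16557632) (l 16544232)))))) (b (a (a (b (b (l 3) (l 203641276935)) (a (b (l 168207802727) (l 16482920)) (l 16492032))) (b (a (l 142438013159) (l 155322919479)) (l 16494648))) (a (b (b (l 160691664311) (l 16522744)) (l 16493672)) (l 16447288))) (b (a (a (l 16465808) (l 16463184)) (a (l 16459376) (l 16457224))) (a (b (l 16452312) (l 16459992)) (l 16475920)))))) (b (a (b (a (b (a (l 16447544) (l 16432448)) (l 16483384)) (b (b (l 16456368) (l 16476392)) (l 16511800))) (a (l 16540816) (l 16590016))) (a (l 16396744) (l 16466104))) (b (a (b (l 16647752) (l 16640752)) (b (l 16654944) (l 16575360))) (a (l 16517736) (l 16448200))))))), by decide +kernel⟩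

def k2_pm_102 : ∃ t, chk3 f_pm_102 t 4 7 1 = true :=
  ⟨(a (b (a (l 2) (a (b (l 2) (b (l 2) (a (l 16335976) (l 16370816)))) (b (b (l 2) (l 16475304)) (b (l 16380704) (l 16311632))))) (a (a (b (l 2) (l 16198792)) (b (a (b (l 2) (l 16233328)) (b (l 16259592) (l 16233512))) (a (l 16175552) (b (l 16198520) (l 16138128))))) (a (b (a (b (l 16304824) (l 16279912)) (b (l 16341544) (l 16318184))) (a (l 16224816) (l 16233880))) (b (b (l 16292080) (l 16277688)) (l 16151192))))) (b (b (a (a (b (l 16471352) (l 16378656)) (b (l 16434376) (l 16282800))) (b (l 16146832) (l 16017520))) (a (b (a (l 16279048) (l 16180576)) (l 16182616)) (b (a (l 16084808) (l 15991552)) (l 16017896)))) (b (b (a (l 16182056) (l 16041032)) (a (l 16183608) (l 16063304))) (a (l 16010640) (l 15933288))))), by decide +kernel⟩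

def k3_pm_102 : ∃ t, chk3 f_pm_102 t 5 3 1 = true :=
  ⟨(b (a (b (a (b (a (b (a (l 3) (b (l 3) (l 181629727159))) (a (b (a (l 180019139959) (l 133311372695)) (a (l 155322992599) (l 16576056))) (b (a (l 16605512) (l 16622984)) (l 16562064)))) (a (b (b (l 173576572007) (a (l 16569256) (l 16579112))) (l 16545592)) (b (a (b (l 16510304) (l 16641072)) (l 16493584)) (b (l 16565664) (l 16467952))))) (a (a (b (b (l 16524096) (l 16432392)) (l 16484408)) (b (b (l 16496848) (l 16466384)) (l 16509120))) (b (a (b (l 16473448) (l 16480528)) (l 16490712)) (l 16547640)))) (b (a (b (a (l 16524520) (l 16598976)) (a (b (l 16514800) (l 16473776)) (b (l 16480944) (l 16486080)))) (b (b (a (l 16588992) (l 16523648)) (a (l 16496936) (l 16478416))) (l 16507696))) (a (b (l 16525568) (l 16598352)) (l 16567416)))) (b (a (b (a (l 16571568) (l 16634824)) (a (l 16620960) (l 16629816))) (b (a (l 16686184) (l 16676424)) (a (l 16592736) (l 16558512)))) (a (b (a (l 16556648) (l 16492632))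 (l 16280424)) (b (l 16377680) (l 16203704))))) (b (b (a (a (b (a (l 16451960) (l 16498616)) (l 16552504)) (l 16564600)) (l 16547416)) (a (l 16491232) (b (l 16732656) (l 16641216)))) (b (a (b (a (l 16648984) (l 16620728)) (l 16427176)) (b (l 16426952) (l 16356720))) (a (b (l 16274016) (l 16070152)) (l 15884400))))) (b (a (b (a (b (l 16155240) (l 15964720)) (b (l 16002712) (l 15799784))) (b (a (b (l 15857576) (l 15851808)) (l 15564032)) (a (l 15863024) (l 15720352)))) (b (a (b (l 15861240) (l 15651072)) (b (l 15733520) (l 15519736))) (b (b (a (l 15522104) (l 15379024)) (l 15464880)) (a (l 15590112) (l 15471800))))) (b (a (b (a (l 15911200) (l 15794816)) (l 15913896)) (b (a (l 15691064) (l 15599144)) (l 15718288))) (a (a (l 15932144) (l 15955160)) (a (l 15929616) (l 15908848)))))), by decide +kernel⟩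

def k4_pm_102 : ∃ t, chk3 f_pm_102 t 6 2 1 = true :=
  ⟨(a (b (a (l 3) (b (l 3) (a (l 3) (b (l 3) (b (l 3) (l 16568592)))))) (a (b (a (b (l 156933001175) (a (b (l 145121943095) (l 16567888)) (l 16410856))) (b (b (l 16398808) (l 141363962663)) (l 16520480))) (b (a (b (l 16610304) (b (l 16502608) (l 16488704))) (b (l 16430256) (l 16507952))) (a (l 16563016) (l 16605048)))) (b (b (a (a (l 75865834455) (l 16546664)) (l 16622864)) (b (l 16431944) (a (l 16531480) (l 16487904)))) (b (a (l 16460760) (l 16555728)) (l 16623608))))) (b (a (b (l 3) (b (a (l 3) (l 16694960)) (a (l 53854457255) (b (l 16651936) (l 16629672))))) (b (b (l 3) (a (l 3) (l 16614184))) (b (a (l 51706930871) (l 16554848)) (a (l 16573488) (l 16500824))))) (b (a (b (a (l 16542416) (l 16463984)) (b (a (l 16488272) (l 16476656)) (l 16516984))) (b (a (b (l 16491216) (l 16461400)) (b (l 16447216) (l 16464072))) (l 16473456))) (a (b (l 16568432) (l 16651000)) (b (l 16526888) (l 16527928)))))), by decide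 +kernel⟩

def k5_pm_102 : ∃ t, chk3 f_pm_102 t 7 2 1 = true :=
  ⟨(a (b (b (a (b (a (l 3) (l 3)) (a (l 56538609319) (l 66202026231))) (a (b (l 59759451591) (l 16325488)) (b (b (l 60833174135) (l 16250792)) (l 16240112)))) (a (b (a (l 16479472) (l 16385352)) (a (l 16429824) (b (l 16354240) (l 16338632)))) (b (a (l 16298696) (l 16220320)) (b (a (l 16276096) (l 16208920)) (l 16247040))))) (b (b (a (a (b (l 16403152) (l 16412776)) (l 16348808)) (l 16265664)) (a (l 16396768) (l 16289752))) (a (l 16417328) (l 16326352)))) (b (b (a (a (b (b (l 33452582343) (l 16169024)) (l 16162112)) (b (l 16094600) (l 16091040))) (b (a (l 16026200) (l 15963784)) (a (l 16027224) (l 15960944)))) (a (b (a (b (l 16151600) (l 16147072)) (b (l 16086656) (l 16091256))) (l 16138264)) (b (a (b (l 16008792) (l 16046392)) (l 15995040)) (l 16049712)))) (b (a (l 16181768) (l 16102144)) (a (l 16257720) (b (l 16166088) (l 16203656)))))), by decide +kernel⟩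

def k6_pm_102 : ∃ t, chk3 f_pm_102 t 3 3 1 = true :=
  ⟨(b (a (b (a (b (a (l 16695784) (l 16760064)) (a (b (l 16704832) (b (l 16648368) (l 16586568))) (b (l 16661824) (l 16538856)))) (b (a (l 16631336) (l 16488992)) (a (b (l 16593648) (l 16448008)) (l 16395736)))) (a (b (a (l 16181792) (l 16147432)) (a (l 15794744) (l 15759528))) (b (a (l 16101776) (l 16046176)) (a (l 15695856) (l 15625296))))) (b (a (b (a (b (l 16438672) (l 16456440)) (b (l 16369920) (l 16417760))) (a (l 16389480) (l 16330720))) (b (a (l 16354544) (l 16342336)) (l 16054192))) (a (b (a (l 16023416) (l 15971136)) (a (l 15632152) (l 15590896))) (b (l 15729136) (a (l 15564656) (l 15553616)))))) (a (b (b (a (a (b (l 15620896) (l 15406176)) (b (l 15524056) (l 15310480))) (a (b (l 15443352) (l 15232696)) (b (l 15379016) (l 15172816)))) (a (b (a (b (l 15255440) (l 15268024)) (b (l 15153792) (l 15152456))) (a (l 15364984) (l 15269352))) (b (a (b (l 15075728) (l 15050792)) (b (l 15019128) (l 14947776)))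 (a (l 15184664) (l 15110688))))) (b (a (b (a (l 15518584) (l 15449088)) (l 15546488)) (b (a (l 15390416) (l 15342344)) (a (l 15598520) (l 15576048)))) (a (a (l 15896584) (l 15893872)) (a (l 15838080) (l 15771112))))) (b (b (a (a (b (l 15331208) (l 15130800)) (l 15203672)) (a (l 15193184) (l 15199888))) (a (b (a (a (l 14955488) (l 14936992)) (l 14923088)) (a (l 15047184) (l 14995344))) (b (a (l 14919696) (l 14937064)) (a (l 14952760) (b (l 14842232) (l 14999632)))))) (b (a (b (a (l 15304592) (l 15276864)) (l 15308752)) (b (a (l 15258816) (l 15250024)) (l 15531880))) (a (a (l 15797624) (l 15833376)) (b (l 15787368) (l 16056424))))))), by decide +kernel⟩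

theorem s7_pm_102 : ∃ t, chk3 f_pm_102 t 3 2 1 = true := ex3_a k4_pm_102 k5_pm_102

theorem s8_pm_102 : ∃ t, chk3 f_pm_102 t 3 1 1 = true := ex3_b s7_pm_102 k6_pm_102

theorem s9_pm_102 : ∃ t, chk3 f_pm_102 t 4 3 1 = true := ex3_b k1_pm_102 k2_pm_102

theorem s10_pm_102 : ∃ t, chk3 f_pm_102 t 2 3 1 = true := ex3_a s9_pm_102 k3_pm_102

theorem s11_pm_102 : ∃ t, chk3 f_pm_102 t 2 1 1 = true := ex3_b k0_pm_102 s10_pm_102

theorem s12_pm_102 : ∃ t, chk3 f_pm_102 t 1 1 1 = true := ex3_a s11_pm_102 s8_pm_102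

theorem c_pm_102 : CertB 536870912 536870912 0 536870912 1033476505 6710887 3 eng mog cd1q1 cd0q2 pd0 false true false .npp 1 0 2
    ndB1q1 ndB0q2 pcB0 Cut.none Ext.none :=
  certB2 (fam := false) (s1 := true) (s2 := false) (a := 1) (b := 0) (c := 2) (cn := .npp) (n1 := ndB1q1) (n2 := ndB0q2) (pc := pcB0) (cut := Cut.none) (xt := Ext.none) (P1 := 536870912) (W1 := 536870912) (P2 := 0) (W2 := 536870912) (P3 := 1033476505) (W3 := 6710887) (N0 := 3) (En := eng) (mo := mog) (C1 := cd1q1) (C2 := cd0q2) (C3 := pd0)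
    rfl (fun _ => rfl) s12_pm_102

noncomputable def f_pm_112 : ℕ → ℕ → ℕ → ℕ → Bool := onCell 536870912 536870912 0 536870912 1033476505 6710887
    (rowB 3 eng mog cd1q1 cd0q2 pd1 2 false true false .dn 1 1 2 (qsf 536870912 536870912 0 536870912 1) ndB1q1 ndB0q2 pcB1 Cut.none Ext.none)

def k0_pm_112 : ∃ t, chk3 f_pm_112 t 1 1 1 = true :=
  ⟨(a (a (a (b (b (b (a (b (a (a (a (l 15331368) (l 15290680)) (l 15232000)) (b (l 15218456) (a (l 15061512) (l 14993920)))) (b (a (b (l 15017608) (a (l 14948992) (b (l 14887328) (a (b (l 14888096) (l 14882240)) (l 14885016))))) (b (a (b (l 14938552) (l 14877808)) (l 14875984)) (l 14901168))) (a (a (b (b (a (b (l 14902040) (l 14886568)) (l 14886056)) (l 14890752)) (l 14908952)) (l 14910320)) (l 14932360)))) (b (a (b (l 15086728) (b (a (l 14980592) (l 14927520)) (a (a (l 14908936) (l 14878384)) (l 14903568)))) (b (a (l 15000600) (b (l 14993040) (l 14926696))) (a (l 14919912) (l 14931352)))) (l 14961760))) (a (b (l 14985784)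 (l 15072432)) (l 15072616))) (b (a (l 15182328) (l 15112944)) (b (l 15172688) (a (l 15234648) (l 15145272))))) (b (b (b (l 15270128) (l 15344520)) (b (l 15388400) (l 15373224))) (b (b (l 15321264) (b (l 15281920) (l 15236016))) (b (l 15200808) (l 15101288))))) (b (b (b (a (a (b (b (b (l 14950160) (l 14939312)) (l 14965464)) (l 14995264)) (l 14961496)) (l 14949400)) (a (l 15024472) (l 14996992))) (b (a (l 15059704) (l 15028696)) (b (b (l 15062184) (a (l 15092560) (b (l 15059184) (l 15072344)))) (a (l 15134048) (l 15131920))))) (b (b (b (l 15220824) (l 15310008)) (b (l 15368552) (l 15369440))) (b (b (l 15336728) (l 1)) (l 1))))) (b (a (a (b (b (a (l 14949056) (l 14955888)) (b (l 14985536) (l 15000384))) (b (l 15021224) (b (b (l 83782210343) (l 15079048)) (l 15153568)))) (b (b (l 1) (l 1)) (l 1))) (l 1)) (b (l 1) (l 1)))) (l 1)), by decide +kernel⟩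

theorem c_pm_112 : CertB 536870912 536870912 0 536870912 1033476505 6710887 3 eng mog cd1q1 cd0q2 pd1 false true false .dn 1 1 2
    ndB1q1 ndB0q2 pcB1 Cut.none Ext.none :=
  certB2 (fam := false) (s1 := true) (s2 := false) (a := 1) (b := 1) (c := 2) (cn := .dn) (n1 := ndB1q1) (n2 := ndB0q2) (pc := pcB1) (cut := Cut.none) (xt := Ext.none) (P1 := 536870912) (W1 := 536870912) (P2 := 0) (W2 := 536870912) (P3 := 1033476505) (W3 := 6710887) (N0 := 3) (En := eng) (mo := mog) (C1 := cd1q1) (C2 := cd0q2) (C3 := pd1)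
    rfl (fun _ => rfl) k0_pm_112

noncomputable def cut_pm_202_a : Cut := Cut.of [[⟨0, 1, 0, 33554432⟩, ⟨1, 0, 0, 33554432⟩, ⟨2, 1, 0, 33554432⟩]]

noncomputable def f_pm_202_a : ℕ → ℕ → ℕ → ℕ → Bool := onCell 0 536870912 0 536870912 1033476505 6710887
    (rowB 3 eng mog cd1q2a cd0q2 pd0 0 false true false .pp 2 0 2 (qsf 0 536870912 0 536870912 0) ndB1q2a ndB0q2 pcB0 cut_pm_202_a Ext.none)

def k0_pm_202_a : ∃ t, chk3 f_pm_202_a t 1 1 1 = true :=
  ⟨(a (l 3) (b (l 3) (a (l 3) (b (l 3) (a (l 3) (b (l 3) (b (l 3) (a (l 3) (l 6))))))))), by decide +kernel⟩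

theorem c_pm_202_a : CertB 0 536870912 0 536870912 1033476505 6710887 3 eng mog cd1q2a cd0q2 pd0 false true false .pp 2 0 2
    ndB1q2a ndB0q2 pcB0 cut_pm_202_a Ext.none :=
  certB0 (fam := false) (s1 := true) (s2 := false) (a := 2) (b := 0) (c := 2) (cn := .pp) (n1 := ndB1q2a) (n2 := ndB0q2) (pc := pcB0) (cut := cut_pm_202_a) (xt := Ext.none) (P1 := 0) (W1 := 536870912) (P2 := 0) (W2 := 536870912) (P3 := 1033476505) (W3 := 6710887) (N0 := 3) (En := eng) (mo := mog) (C1 := cd1q2a) (C2 := cd0q2) (C3 := pd0)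
    rfl k0_pm_202_a

noncomputable def cut_pm_202_b : Cut := Cut.of [[⟨0, 1, 0, 33554432⟩, ⟨1, 0, 0, 33554432⟩, ⟨2, 1, 0, 33554432⟩]]

noncomputable def f_pm_202_b : ℕ → ℕ → ℕ → ℕ → Bool := onCell 1239849684 370763052 0 536870912 1033476505 6710887
    (rowB 3 eng mog cd1q2b cd0q2 pd0 0 false true false .pp 2 0 2 (qsf 1239849684 370763052 0 536870912 0) ndB1q2b ndB0q2 pcB0 cut_pm_202_b Ext.none)

def k0_pm_202_b : ∃ t, chk3 f_pm_202_b t 1 1 1 = true :=
  ⟨(l 3), by decide +kernel⟩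

theorem c_pm_202_b : CertB 1239849684 370763052 0 536870912 1033476505 6710887 3 eng mog cd1q2b cd0q2 pd0 false true false .pp 2 0 2
    ndB1q2b ndB0q2 pcB0 cut_pm_202_b Ext.none :=
  certB0 (fam := false) (s1 := true) (s2 := false) (a := 2) (b := 0) (c := 2) (cn := .pp) (n1 := ndB1q2b) (n2 := ndB0q2) (pc := pcB0) (cut := cut_pm_202_b) (xt := Ext.none) (P1 := 1239849684) (W1 := 370763052) (P2 := 0) (W2 := 536870912) (P3 := 1033476505) (W3 := 6710887) (N0 := 3) (En := eng) (mo := mog) (C1 := cd1q2b) (C2 := cd0q2) (C3 := pd0)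
    rfl k0_pm_202_b

noncomputable def f_mm_001 : ℕ → ℕ → ℕ → ℕ → Bool := onCell 0 536870912 0 536870912 1033476505 6710887
    (rowB 3 eng mog cd1q0 cd0q1 pd0 1 false false false .up 0 0 1 (qsf 0 536870912 536870912 536870912 0) ndB1q0 ndB0q1 pcB0 Cut.none Ext.none)

def k0_mm_001 : ∃ t, chk3 f_mm_001 t 1 1 1 = true :=
  ⟨(l 3), by decide +kernel⟩

theorem c_mm_001 : CertB 0 536870912 536870912 536870912 1033476505 6710887 3 eng mog cd1q0 cd0q1 pd0 false false false .up 0 0 1
    ndB1q0 ndB0q1 pcB0 Cut.none Ext.none :=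
  certB1 (fam := false) (s1 := false) (s2 := false) (a := 0) (b := 0) (c := 1) (cn := .up) (n1 := ndB1q0) (n2 := ndB0q1) (pc := pcB0) (cut := Cut.none) (xt := Ext.none) (P1 := 0) (W1 := 536870912) (P2 := 536870912) (W2 := 536870912) (P3 := 1033476505) (W3 := 6710887) (N0 := 3) (En := eng) (mo := mog) (C1 := cd1q0) (C2 := cd0q1) (C3 := pd0)
    rfl (fun _ => rfl) k0_mm_001

noncomputable def f_mm_011 : ℕ → ℕ → ℕ → ℕ → Bool := onCell 0 536870912 536870912 536870912 1033476505 6710887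
    (rowB 3 eng mog cd1q0 cd0q1 pd1 1 false false false .pnn 0 1 1 (qsf 0 536870912 536870912 536870912 1) ndB1q0 ndB0q1 pcB1 Cut.none Ext.none)

def k0_mm_011 : ∃ t, chk3 f_mm_011 t 1 1 1 = true :=
  ⟨(l 5), by decide +kernel⟩

theorem c_mm_011 : CertB 0 536870912 536870912 536870912 1033476505 6710887 3 eng mog cd1q0 cd0q1 pd1 false false false .pnn 0 1 1
    ndB1q0 ndB0q1 pcB1 Cut.none Ext.none :=
  certB1 (fam := false) (s1 := false) (s2 := false) (a := 0) (b := 1) (c := 1) (cn := .pnn) (n1 := ndB1q0) (n2 := ndB0q1) (pc := pcB1) (cut := Cut.none) (xt := Ext.none) (P1 := 0) (W1 := 536870912) (P2 := 536870912) (W2 := 536870912) (P3 := 1033476505) (W3 := 6710887) (N0 := 3) (En := eng) (mo := mog) (C1 := cd1q0) (C2 := cd0q1) (C3 := pd1)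
    rfl (fun _ => rfl) k0_mm_011

noncomputable def f_mm_012 : ℕ → ℕ → ℕ → ℕ → Bool := onCell 0 536870912 0 536870912 1033476505 6710887
    (rowB 3 eng mog cd1q0 cd0q2 pd1 0 false false false .pnp 0 1 2 (qsf 0 536870912 0 536870912 1) ndB1q0 ndB0q2 pcB1 Cut.none Ext.none)

def k0_mm_012 : ∃ t, chk3 f_mm_012 t 1 1 1 = true :=
  ⟨(l 5), by decide +kernel⟩

theorem c_mm_012 : CertB 0 536870912 0 536870912 1033476505 6710887 3 eng mog cd1q0 cd0q2 pd1 false false false .pnp 0 1 2
    ndB1q0 ndB0q2 pcB1 Cut.none Ext.none :=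
  certB0 (fam := false) (s1 := false) (s2 := false) (a := 0) (b := 1) (c := 2) (cn := .pnp) (n1 := ndB1q0) (n2 := ndB0q2) (pc := pcB1) (cut := Cut.none) (xt := Ext.none) (P1 := 0) (W1 := 536870912) (P2 := 0) (W2 := 536870912) (P3 := 1033476505) (W3 := 6710887) (N0 := 3) (En := eng) (mo := mog) (C1 := cd1q0) (C2 := cd0q2) (C3 := pd1)
    rfl k0_mm_012

noncomputable def f_mm_022 : ℕ → ℕ → ℕ → ℕ → Bool := onCell 0 536870912 0 536870912 1033476505 6710887
    (rowB 3 eng mog cd1q0 cd0q2 pd2 0 false false false .pp 0 2 2 (qsf 0 536870912 0 536870912 2) ndB1q0 ndB0q2 pcB2 Cut.none Ext.none)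

def k0_mm_022 : ∃ t, chk3 f_mm_022 t 1 1 1 = true :=
  ⟨(l 5), by decide +kernel⟩

theorem c_mm_022 : CertB 0 536870912 0 536870912 1033476505 6710887 3 eng mog cd1q0 cd0q2 pd2 false false false .pp 0 2 2
    ndB1q0 ndB0q2 pcB2 Cut.none Ext.none :=
  certB0 (fam := false) (s1 := false) (s2 := false) (a := 0) (b := 2) (c := 2) (cn := .pp) (n1 := ndB1q0) (n2 := ndB0q2) (pc := pcB2) (cut := Cut.none) (xt := Ext.none) (P1 := 0) (W1 := 536870912) (P2 := 0) (W2 := 536870912) (P3 := 1033476505) (W3 := 6710887) (N0 := 3) (En := eng) (mo := mog) (C1 := cd1q0) (C2 := cd0q2) (C3 := pd2)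
    rfl k0_mm_022

noncomputable def f_mm_101 : ℕ → ℕ → ℕ → ℕ → Bool := onCell 536870912 536870912 536870912 536870912 1033476505 6710887
    (rowB 3 eng mog cd1q1 cd0q1 pd0 0 false false false .npn 1 0 1 (qsf 536870912 536870912 536870912 536870912 0) ndB1q1 ndB0q1 pcB0 Cut.none Ext.none)

def k0_mm_101 : ∃ t, chk3 f_mm_101 t 1 1 1 = true :=
  ⟨(l 3), by decide +kernel⟩

theorem c_mm_101 : CertB 536870912 536870912 536870912 536870912 1033476505 6710887 3 eng mog cd1q1 cd0q1 pd0 false false false .npn 1 0 1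
    ndB1q1 ndB0q1 pcB0 Cut.none Ext.none :=
  certB0 (fam := false) (s1 := false) (s2 := false) (a := 1) (b := 0) (c := 1) (cn := .npn) (n1 := ndB1q1) (n2 := ndB0q1) (pc := pcB0) (cut := Cut.none) (xt := Ext.none) (P1 := 536870912) (W1 := 536870912) (P2 := 536870912) (W2 := 536870912) (P3 := 1033476505) (W3 := 6710887) (N0 := 3) (En := eng) (mo := mog) (C1 := cd1q1) (C2 := cd0q1) (C3 := pd0)
    rfl k0_mm_101

noncomputable def f_mm_102 : ℕ → ℕ → ℕ → ℕ → Bool := onCell 536870912 536870912 0 536870912 1033476505 6710887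
    (rowB 3 eng mog cd1q1 cd0q2 pd0 0 false false false .npp 1 0 2 (qsf 536870912 536870912 0 536870912 0) ndB1q1 ndB0q2 pcB0 Cut.none Ext.none)

def k0_mm_102 : ∃ t, chk3 f_mm_102 t 1 1 1 = true :=
  ⟨(l 5), by decide +kernel⟩

theorem c_mm_102 : CertB 536870912 536870912 0 536870912 1033476505 6710887 3 eng mog cd1q1 cd0q2 pd0 false false false .npp 1 0 2
    ndB1q1 ndB0q2 pcB0 Cut.none Ext.none :=
  certB0 (fam := false) (s1 := false) (s2 := false) (a := 1) (b := 0) (c := 2) (cn := .npp) (n1 := ndB1q1) (n2 := ndB0q2) (pc := pcB0) (cut := Cut.none) (xt := Ext.none) (P1 := 536870912) (W1 := 536870912) (P2 := 0) (W2 := 536870912) (P3 := 1033476505) (W3 := 6710887) (N0 := 3) (En := eng) (mo := mog) (C1 := cd1q1) (C2 := cd0q2) (C3 := pd0)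
    rfl k0_mm_102

noncomputable def f_mm_112 : ℕ → ℕ → ℕ → ℕ → Bool := onCell 536870912 536870912 0 536870912 1033476505 6710887
    (rowB 3 eng mog cd1q1 cd0q2 pd1 0 false false false .dn 1 1 2 (qsf 536870912 536870912 0 536870912 1) ndB1q1 ndB0q2 pcB1 Cut.none Ext.none)

def k0_mm_112 : ∃ t, chk3 f_mm_112 t 1 1 1 = true :=
  ⟨(l 5), by decide +kernel⟩

theorem c_mm_112 : CertB 536870912 536870912 0 536870912 1033476505 6710887 3 eng mog cd1q1 cd0q2 pd1 false false false .dn 1 1 2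
    ndB1q1 ndB0q2 pcB1 Cut.none Ext.none :=
  certB0 (fam := false) (s1 := false) (s2 := false) (a := 1) (b := 1) (c := 2) (cn := .dn) (n1 := ndB1q1) (n2 := ndB0q2) (pc := pcB1) (cut := Cut.none) (xt := Ext.none) (P1 := 536870912) (W1 := 536870912) (P2 := 0) (W2 := 536870912) (P3 := 1033476505) (W3 := 6710887) (N0 := 3) (En := eng) (mo := mog) (C1 := cd1q1) (C2 := cd0q2) (C3 := pd1)
    rfl k0_mm_112

noncomputable def f_mm_202_a : ℕ → ℕ → ℕ → ℕ → Bool := onCell 0 536870912 0 536870912 1033476505 6710887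
    (rowB 3 eng mog cd1q2a cd0q2 pd0 0 false false false .pp 2 0 2 (qsf 0 536870912 0 536870912 0) ndB1q2a ndB0q2 pcB0 Cut.none Ext.none)

def k0_mm_202_a : ∃ t, chk3 f_mm_202_a t 1 1 1 = true :=
  ⟨(l 3), by decide +kernel⟩

theorem c_mm_202_a : CertB 0 536870912 0 536870912 1033476505 6710887 3 eng mog cd1q2a cd0q2 pd0 false false false .pp 2 0 2
    ndB1q2a ndB0q2 pcB0 Cut.none Ext.none :=
  certB0 (fam := false) (s1 := false) (s2 := false) (a := 2) (b := 0) (c := 2) (cn := .pp) (n1 := ndB1q2a) (n2 := ndB0q2) (pc := pcB0) (cut := Cut.none) (xt := Ext.none) (P1 := 0) (W1 := 536870912) (P2 := 0) (W2 := 536870912) (P3 := 1033476505) (W3 := 6710887) (N0 := 3) (En := eng) (mo := mog) (C1 := cd1q2a) (C2 := cd0q2) (C3 := pd0)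
    rfl k0_mm_202_a

noncomputable def f_mm_202_b : ℕ → ℕ → ℕ → ℕ → Bool := onCell 1239849684 370763052 0 536870912 1033476505 6710887
    (rowB 3 eng mog cd1q2b cd0q2 pd0 0 false false false .pp 2 0 2 (qsf 1239849684 370763052 0 536870912 0) ndB1q2b ndB0q2 pcB0 Cut.none Ext.none)

def k0_mm_202_b : ∃ t, chk3 f_mm_202_b t 1 1 1 = true :=
  ⟨(l 3), by decide +kernel⟩

theorem c_mm_202_b : CertB 1239849684 370763052 0 536870912 1033476505 6710887 3 eng mog cd1q2b cd0q2 pd0 false false false .pp 2 0 2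
    ndB1q2b ndB0q2 pcB0 Cut.none Ext.none :=
  certB0 (fam := false) (s1 := false) (s2 := false) (a := 2) (b := 0) (c := 2) (cn := .pp) (n1 := ndB1q2b) (n2 := ndB0q2) (pc := pcB0) (cut := Cut.none) (xt := Ext.none) (P1 := 1239849684) (W1 := 370763052) (P2 := 0) (W2 := 536870912) (P3 := 1033476505) (W3 := 6710887) (N0 := 3) (En := eng) (mo := mog) (C1 := cd1q2b) (C2 := cd0q2) (C3 := pd0)
    rfl k0_mm_202_b

end Pool.Agent.Strip051.G.I9625_9688.Tab.C.BB10

namespace Pool.Agent.Strip051.G.I9625_9688.Tab.C.BB11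

open Pool.Agent.Strip051.PB Pool.Agent.Strip051.PB.T
open Pool.Agent.Strip051.G.I9625_9688.Tab

noncomputable def f_pp_001 : ℕ → ℕ → ℕ → ℕ → Bool := onCell 0 536870912 536870912 536870912 1033476505 6710887
    (rowB 3 eng mog cd1q0 cd1q1 pd0 0 false true true .up 0 0 1 (qsf 0 536870912 536870912 536870912 0) ndB1q0 ndB1q1 pcB0 Cut.none Ext.none)

def k0_pp_001 : ∃ t, chk3 f_pp_001 t 1 1 1 = true :=
  ⟨(l 3), by decide +kernel⟩

theorem c_pp_001 : CertB 0 536870912 536870912 536870912 1033476505 6710887 3 eng mog cd1q0 cd1q1 pd0 false true true .up 0 0 1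
    ndB1q0 ndB1q1 pcB0 Cut.none Ext.none :=
  certB0 (fam := false) (s1 := true) (s2 := true) (a := 0) (b := 0) (c := 1) (cn := .up) (n1 := ndB1q0) (n2 := ndB1q1) (pc := pcB0) (cut := Cut.none) (xt := Ext.none) (P1 := 0) (W1 := 536870912) (P2 := 536870912) (W2 := 536870912) (P3 := 1033476505) (W3 := 6710887) (N0 := 3) (En := eng) (mo := mog) (C1 := cd1q0) (C2 := cd1q1) (C3 := pd0)
    rfl k0_pp_001

noncomputable def f_pp_011 : ℕ → ℕ → ℕ → ℕ → Bool := onCell 0 536870912 536870912 536870912 1033476505 6710887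
    (rowB 3 eng mog cd1q0 cd1q1 pd1 0 false true true .pnn 0 1 1 (qsf 0 536870912 536870912 536870912 1) ndB1q0 ndB1q1 pcB1 Cut.none Ext.none)

def k0_pp_011 : ∃ t, chk3 f_pp_011 t 1 1 1 = true :=
  ⟨(l 3), by decide +kernel⟩

theorem c_pp_011 : CertB 0 536870912 536870912 536870912 1033476505 6710887 3 eng mog cd1q0 cd1q1 pd1 false true true .pnn 0 1 1
    ndB1q0 ndB1q1 pcB1 Cut.none Ext.none :=
  certB0 (fam := false) (s1 := true) (s2 := true) (a := 0) (b := 1) (c := 1) (cn := .pnn) (n1 := ndB1q0) (n2 := ndB1q1) (pc := pcB1) (cut := Cut.none) (xt := Ext.none) (P1 := 0) (W1 := 536870912) (P2 := 536870912) (W2 := 536870912) (P3 := 1033476505) (W3 := 6710887) (N0 := 3) (En := eng) (mo := mog) (C1 := cd1q0) (C2 := cd1q1) (C3 := pd1)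
    rfl k0_pp_011

noncomputable def cut_pp_012_a : Cut := Cut.of [[⟨0, 0, 0, 33554432⟩, ⟨1, 1, 0, 33554432⟩, ⟨2, 1, 0, 33554432⟩]]

noncomputable def xt_pp_012_a : Ext := extD3 3 ⟨4, 1, 1, 5, 27, 5, 41, 50, 81, 200, 1, 64⟩ eng cd1q0 cd1q2a pd1 false true true .pnp 0 1 2 rfl ndB1q0 ndB1q2a pcB1

noncomputable def f_pp_012_a : ℕ → ℕ → ℕ → ℕ → Bool := onCell 536870912 536870912 0 536870912 1033476505 6710887
    (rowB 3 eng mog cd1q0 cd1q2a pd1 2 false true true .pnp 0 1 2 (qsf 0 536870912 0 536870912 1) ndB1q0 ndB1q2a pcB1 cut_pp_012_a xt_pp_012_a)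

def k0_pp_012_a : ∃ t, chk3 f_pp_012_a t 1 2 1 = true :=
  ⟨(b (a (a (l 2) (a (a (a (l 2) (b (l 16377432) (b (l 16622024) (l 192367275815)))) (b (a (l 16401728) (l 16358984)) (b (a (l 16630872) (l 16565992)) (a (b (l 16684816) (l 16661288)) (l 16671240))))) (a (b (a (l 16332264) (l 16321936)) (a (l 16572896) (l 16529560))) (b (b (a (l 16286264) (l 16338472)) (l 16380104)) (a (l 16502352) (l 16492152)))))) (b (a (a (a (b (l 16447672) (a (l 16423568) (l 16456888))) (l 16485552)) (l 16518912)) (a (l 16536960) (l 16526632))) (a (a (a (a (l 16499080) (l 16497224)) (a (l 16488752) (l 16488552))) (a (a (l 16494784) (l 16504264)) (l 16519400))) (a (l 16539192) (l 16534312))))) (a (a (l 3) (a (a (l 3) (b (a (l 3) (l 143511938551)) (l 3))) (a (b (b (a (b (l 16707928) (l 16693896)) (l 16669864)) (a (l 3) (l 119889752759))) (l 3)) (b (a (b (l 16619136) (l 16679128)) (l 16610104)) (b (a (l 16661256) (l 110762831191)) (l 3)))))) (a (a (a (b (a (l 16583384) (l 16559968))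 (a (b (l 16626072) (l 140827507959)) (b (l 16596216) (b (l 16596944) (l 115057676375))))) (b (a (l 16529864) (l 16508048)) (a (b (l 16563352) (l 16568680)) (l 16512664)))) (a (b (a (l 16495200) (l 16491280)) (a (l 16502336) (l 16481184))) (b (a (l 16496088) (l 16509288)) (a (l 16470416) (l 16475056))))) (a (a (b (a (l 16524112) (l 16536880)) (a (l 16493256) (l 16516944))) (b (l 16548440) (a (l 16539752) (l 16555960)))) (a (b (l 16549600) (a (l 16544832) (l 16569352))) (b (l 16539624) (a (l 16567136) (l 16558816)))))))), by decide +kernel⟩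

def k1_pp_012_a : ∃ t, chk3 f_pp_012_a t 2 3 1 = true :=
  ⟨(l 3), by decide +kernel⟩

def k2_pp_012_a : ∃ t, chk3 f_pp_012_a t 3 6 1 = true :=
  ⟨(a (a (a (l 3) (b (b (a (l 143511677559) (l 58686047447)) (l 3)) (l 3))) (a (a (b (b (l 16507544) (l 112909831239)) (l 3)) (b (b (l 16477192) (l 16395232)) (b (l 192903552663) (l 3)))) (b (a (b (l 16455560) (l 16444960)) (l 16447656)) (b (a (a (l 192903528935) (l 177334173159)) (a (l 193440421655) (l 16409808))) (a (l 3) (b (a (l 3) (l 202030352375)) (l 3))))))) (a (a (b (a (l 16466664) (l 16497376)) (a (b (l 16395816) (b (a (l 167670666295) (l 16454496)) (a (l 227263317399) (l 205251625559)))) (b (l 16492720) (a (b (l 16480736) (l 16409808)) (l 16507368))))) (a (b (l 16531200) (b (l 16536664) (a (l 16534488) (l 16560752)))) (b (l 16561648) (b (l 16578000) (a (l 16585512) (l 16608000)))))) (a (a (b (a (l 16578376) (l 16585504)) (a (b (l 16601520) (l 16626504)) (b (l 16611392) (l 16638488)))) (b (l 16564936) (a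 (l 16579616) (l 16613952)))) (b (a (l 16585792) (b (l 16586104) (l 16595768))) (a (b (l 16602488) (l 16621272)) (b (l 16605072) (l 16621784))))))), by decide +kernel⟩

def k3_pp_012_a : ∃ t, chk3 f_pp_012_a t 3 7 1 = true :=
  ⟨(a (l 3) (b (a (a (b (a (l 3) (b (a (l 245517037383) (l 206325474807)) (l 3))) (l 3)) (a (b (b (a (l 16541584) (l 16574952)) (a (l 227800338823) (l 146196079687))) (l 3)) (b (a (l 16569152) (l 16638432)) (b (a (a (l 241759133063) (l 151028002583)) (a (l 16649416) (l 16673856))) (a (l 3) (b (l 211157635127) (l 3))))))) (a (a (a (b (l 16660784) (b (l 16693392) (b (l 80698253415) (a (l 3) (l 16670688))))) (b (b (l 16664872) (l 16685872)) (b (l 16667888) (a (b (l 16727264) (l 16723816)) (l 16738480))))) (a (b (l 16648720) (b (l 16702864) (a (l 16734104) (l 16723824)))) (b (l 16656368) (b (l 16686416) (l 16710336))))) (a (b (l 16628048) (b (l 16676584) (a (l 16701040) (l 16697288)))) (b (a (l 16647736) (l 16646600)) (b (l 16652288) (a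 (l 16695328) (l 16692688))))))) (a (l 3) (b (a (a (a (l 3) (b (b (a (l 169281584727) (l 198809946023)) (l 3)) (l 3))) (a (b (a (a (l 268603158103) (l 158544610743)) (b (l 16745144) (l 183240677079))) (l 3)) (b (b (l 16730432) (l 16723960)) (b (a (l 309942228855) (l 16733264)) (l 442549205623))))) (a (b (a (l 16726984) (l 16722456)) (a (b (l 16727760) (a (b (l 16731312) (l 338933167191)) (l 16736776))) (b (l 16743624) (l 600176202738275299634815)))) (a (b (l 16719936) (b (l 16740680) (l 16731384))) (b (b (l 16710304) (l 16723160)) (b (l 16715968) (a (l 16749512) (l 6))))))) (a (l 3) (a (b (a (b (a (l 3) (l 368997999655)) (l 3)) (b (a (b (l 16760432) (l 242296522679)) (l 16740328)) (a (l 3) (b (a (l 304573555815) (l 16765144)) (l 392083519015))))) (l 3)) (b (a (b (a (l 16759600) (l 16757856)) (l 6)) (l 6)) (l 6)))))))), by decide +kernel⟩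

theorem s4_pp_012_a : ∃ t, chk3 f_pp_012_a t 3 3 1 = true := ex3_b k2_pp_012_a k3_pp_012_a

theorem s5_pp_012_a : ∃ t, chk3 f_pp_012_a t 1 3 1 = true := ex3_a k1_pp_012_a s4_pp_012_a

theorem s6_pp_012_a : ∃ t, chk3 f_pp_012_a t 1 1 1 = true := ex3_b k0_pp_012_a s5_pp_012_a

theorem c_pp_012_a : CertB 0 536870912 0 536870912 1033476505 6710887 3 eng mog cd1q0 cd1q2a pd1 false true true .pnp 0 1 2
    ndB1q0 ndB1q2a pcB1 cut_pp_012_a xt_pp_012_a :=
  certB2 (fam := false) (s1 := true) (s2 := true) (a := 0) (b := 1) (c := 2) (cn := .pnp) (n1 := ndB1q0) (n2 := ndB1q2a) (pc := pcB1) (cut := cut_pp_012_a) (xt := xt_pp_012_a) (P1 := 0) (W1 := 536870912) (P2 := 0) (W2 := 536870912) (P3 := 1033476505) (W3 := 6710887) (N0 := 3) (En := eng) (mo := mog) (C1 := cd1q0) (C2 := cd1q2a) (C3 := pd1)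
    rfl (fun _ => rfl) s6_pp_012_a

noncomputable def cut_pp_012_b : Cut := Cut.of [[⟨0, 0, 0, 33554432⟩, ⟨1, 1, 0, 33554432⟩, ⟨2, 1, 0, 33554432⟩]]

noncomputable def f_pp_012_b : ℕ → ℕ → ℕ → ℕ → Bool := onCell 536870912 536870912 1239849684 370763052 1033476505 6710887
    (rowB 3 eng mog cd1q0 cd1q2b pd1 2 false true true .pnp 0 1 2 (qsf 0 536870912 1239849684 370763052 1) ndB1q0 ndB1q2b pcB1 cut_pp_012_b Ext.none)

def k0_pp_012_b : ∃ t, chk3 f_pp_012_b t 1 1 1 = true :=
  ⟨(a (a (l 2) (b (a (b (b (a (l 16258080) (l 16288976)) (l 2)) (l 2)) (b (a (b (l 16263232) (l 16356976)) (b (a (l 16299632) (l 16374760)) (a (l 16378000) (l 16430696)))) (a (l 2) (b (l 16461024) (l 2))))) (l 2))) (a (a (b (a (b (l 16397376) (l 16483792)) (b (l 16484104) (l 16743624))) (l 2)) (b (b (a (l 16495392) (l 16562816)) (a (l 16656032) (l 16534848))) (b (l 16356792) (l 2)))) (b (a (b (b (l 16570552) (l 16563232)) (a (l 16405824) (l 16332456))) (a (b (l 16534640) (l 16252384))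 (b (l 16487504) (l 16187144)))) (a (b (l 16157128) (l 16034080)) (b (l 15933984) (l 15786704)))))), by decide +kernel⟩

theorem c_pp_012_b : CertB 0 536870912 1239849684 370763052 1033476505 6710887 3 eng mog cd1q0 cd1q2b pd1 false true true .pnp 0 1 2
    ndB1q0 ndB1q2b pcB1 cut_pp_012_b Ext.none :=
  certB2 (fam := false) (s1 := true) (s2 := true) (a := 0) (b := 1) (c := 2) (cn := .pnp) (n1 := ndB1q0) (n2 := ndB1q2b) (pc := pcB1) (cut := cut_pp_012_b) (xt := Ext.none) (P1 := 0) (W1 := 536870912) (P2 := 1239849684) (W2 := 370763052) (P3 := 1033476505) (W3 := 6710887) (N0 := 3) (En := eng) (mo := mog) (C1 := cd1q0) (C2 := cd1q2b) (C3 := pd1)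
    rfl (fun _ => rfl) k0_pp_012_b

noncomputable def cut_pp_022_a : Cut := Cut.of [[⟨0, 0, 0, 33554432⟩, ⟨1, 1, 0, 33554432⟩, ⟨2, 1, 0, 33554432⟩]]

noncomputable def f_pp_022_a : ℕ → ℕ → ℕ → ℕ → Bool := onCell 1073741824 536870912 0 536870912 1033476505 6710887
    (rowB 3 eng mog cd1q0 cd1q2a pd2 2 false true true .pp 0 2 2 (qsf 0 536870912 0 536870912 2) ndB1q0 ndB1q2a pcB2 cut_pp_022_a Ext.none)

def k0_pp_022_a : ∃ t, chk3 f_pp_022_a t 1 1 1 = true :=
  ⟨(a (b (a (a (b (a (b (l 16242944) (l 16268832)) (l 16214944)) (b (a (a (l 16311832) (l 16281576)) (l 16235672)) (a (a (l 16353696) (l 16316184)) (l 16258656)))) (b (a (l 16176120) (l 16138504)) (b (l 16141952) (a (l 16179272) (l 16097864))))) (a (a (b (l 16103512) (b (l 16048496) (l 16018776))) (b (l 16076040) (l 1))) (l 1))) (a (a (a (a (b (b (b (l 16397520) (l 16435328)) (b (l 16481840) (l 16538920))) (b (b (a (l 16602912) (l 16593216)) (b (l 16628584) (l 16654328))) (b (b (b (a (l 16687568) (l 16710864))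 (a (l 16660064) (l 16690976))) (l 6)) (l 6)))) (b (b (l 16370128) (b (l 16429576) (l 16481792))) (b (b (l 16546360) (b (l 16604080) (l 16605984))) (a (b (b (b (a (l 16709512) (l 16669264)) (l 16679608)) (l 6)) (l 6)) (b (b (b (b (l 16658704) (l 16641256)) (l 16632504)) (a (l 6) (b (l 16629816) (l 1)))) (l 1)))))) (b (b (b (l 16287016) (l 16313768)) (b (l 16348528) (l 16330136))) (b (b (a (l 16482080) (b (l 16401536) (l 16432464))) (a (b (l 16536000) (a (l 16573968) (b (l 16549160) (l 16549864)))) (b (l 16468208) (b (l 16498096) (l 1))))) (b (a (b (a (b (b (a (l 16630648) (l 16611104)) (l 16617024)) (l 16606472)) (l 1)) (l 1)) (l 1)) (l 1))))) (b (b (a (l 16180896) (b (l 16099016) (l 16107320))) (a (b (l 16236232) (a (l 16301584) (l 16241080))) (b (l 16124040) (l 1)))) (b (b (a (b (l 16285544) (l 16313560)) (l 1)) (l 1)) (l 1)))) (b (l 1) (l 1)))) (l 1)), by decide +kernel⟩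

theorem c_pp_022_a : CertB 0 536870912 0 536870912 1033476505 6710887 3 eng mog cd1q0 cd1q2a pd2 false true true .pp 0 2 2
    ndB1q0 ndB1q2a pcB2 cut_pp_022_a Ext.none :=
  certB2 (fam := false) (s1 := true) (s2 := true) (a := 0) (b := 2) (c := 2) (cn := .pp) (n1 := ndB1q0) (n2 := ndB1q2a) (pc := pcB2) (cut := cut_pp_022_a) (xt := Ext.none) (P1 := 0) (W1 := 536870912) (P2 := 0) (W2 := 536870912) (P3 := 1033476505) (W3 := 6710887) (N0 := 3) (En := eng) (mo := mog) (C1 := cd1q0) (C2 := cd1q2a) (C3 := pd2)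
    rfl (fun _ => rfl) k0_pp_022_a

noncomputable def cut_pp_022_b : Cut := Cut.of [[⟨0, 0, 0, 33554432⟩, ⟨1, 1, 0, 33554432⟩, ⟨2, 1, 0, 33554432⟩]]

noncomputable def f_pp_022_b : ℕ → ℕ → ℕ → ℕ → Bool := onCell 1073741824 536870912 1239849684 370763052 1033476505 6710887
    (rowB 3 eng mog cd1q0 cd1q2b pd2 2 false true true .pp 0 2 2 (qsf 0 536870912 1239849684 370763052 2) ndB1q0 ndB1q2b pcB2 cut_pp_022_b Ext.none)

def k0_pp_022_b : ∃ t, chk3 f_pp_022_b t 1 1 1 = true :=
  ⟨(a (b (a (b (a (a (b (l 16274624) (l 16359424)) (l 16226416)) (b (l 16168544) (l 16287920))) (a (b (l 16418608) (l 16436456)) (l 16368400))) (b (a (b (a (l 16180328) (l 16167344)) (l 16244584)) (b (l 446171852567) (l 16157512))) (a (l 16292152) (b (l 16259560) (l 16108928))))) (a (b (a (b (l 16284024) (l 16185128)) (l 16096168)) (a (l 16028008) (l 15923424))) (b (a (l 16023328) (l 15904024)) (a (l 15803376) (l 15673696))))) (b (a (b (l 1) (a (b (l 16063960) (l 16001856)) (b (l 1)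 (l 499321413703)))) (l 1)) (a (b (a (l 15786248) (l 332890815671)) (a (l 15540760) (l 15411560))) (b (a (b (l 1) (l 15502528)) (l 1)) (a (l 15252144) (l 519720939047)))))), by decide +kernel⟩

theorem c_pp_022_b : CertB 0 536870912 1239849684 370763052 1033476505 6710887 3 eng mog cd1q0 cd1q2b pd2 false true true .pp 0 2 2
    ndB1q0 ndB1q2b pcB2 cut_pp_022_b Ext.none :=
  certB2 (fam := false) (s1 := true) (s2 := true) (a := 0) (b := 2) (c := 2) (cn := .pp) (n1 := ndB1q0) (n2 := ndB1q2b) (pc := pcB2) (cut := cut_pp_022_b) (xt := Ext.none) (P1 := 0) (W1 := 536870912) (P2 := 1239849684) (W2 := 370763052) (P3 := 1033476505) (W3 := 6710887) (N0 := 3) (En := eng) (mo := mog) (C1 := cd1q0) (C2 := cd1q2b) (C3 := pd2)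
    rfl (fun _ => rfl) k0_pp_022_b

noncomputable def f_pp_023 : ℕ → ℕ → ℕ → ℕ → Bool := onCell 1073741824 536870912 1610612736 536870912 1033476505 6710887
    (rowB 3 eng mog cd1q0 cd1q3 pd2 2 false true true .up 0 2 3 (qsf 0 536870912 1610612736 536870912 2) ndB1q0 ndB1q3 pcB2 Cut.none Ext.none)

def k0_pp_023 : ∃ t, chk3 f_pp_023 t 1 1 1 = true :=
  ⟨(a (b (a (b (a (l 15711432) (l 15842608)) (a (l 2) (l 15694048))) (b (a (l 15740672) (l 15601408)) (a (l 15570792) (l 15422448)))) (b (a (l 2) (l 259406198695)) (l 2))) (a (b (b (a (l 15453128) (l 15303544)) (a (l 15257784) (l 15085768))) (b (a (l 15212280) (l 15022112)) (b (l 15197648) (l 2)))) (b (b (a (l 15160880) (b (a (l 15147072) (l 15141832)) (a (l 15011424) (l 15096104)))) (a (l 14930408) (a (l 14932432) (l 15103496)))) (b (a (l 14857352) (l 15056344)) (a (b (l 14917280) (l 15026120)) (l 15206488)))))), by decide +kernel⟩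

theorem c_pp_023 : CertB 0 536870912 1610612736 536870912 1033476505 6710887 3 eng mog cd1q0 cd1q3 pd2 false true true .up 0 2 3
    ndB1q0 ndB1q3 pcB2 Cut.none Ext.none :=
  certB2 (fam := false) (s1 := true) (s2 := true) (a := 0) (b := 2) (c := 3) (cn := .up) (n1 := ndB1q0) (n2 := ndB1q3) (pc := pcB2) (cut := Cut.none) (xt := Ext.none) (P1 := 0) (W1 := 536870912) (P2 := 1610612736) (W2 := 536870912) (P3 := 1033476505) (W3 := 6710887) (N0 := 3) (En := eng) (mo := mog) (C1 := cd1q0) (C2 := cd1q3) (C3 := pd2)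
    rfl (fun _ => rfl) k0_pp_023

noncomputable def f_pp_033 : ℕ → ℕ → ℕ → ℕ → Bool := onCell 0 536870912 1610612736 536870912 1033476505 6710887
    (rowB 3 eng mog cd1q0 cd1q3 pd3 1 false true true .pnn 0 3 3 (qsf 0 536870912 1610612736 536870912 3) ndB1q0 ndB1q3 pcB3 Cut.none Ext.none)

def k0_pp_033 : ∃ t, chk3 f_pp_033 t 1 1 1 = true :=
  ⟨(a (b (b (b (a (b (a (l 15040152) (l 15097280)) (a (l 15268440) (l 15323504))) (b (l 15151144) (l 15403144))) (a (b (a (l 15484896) (l 15548016)) (a (l 15334616) (l 15413216))) (b (l 15654040) (l 15691872)))) (b (a (b (a (l 15082752) (l 15285328)) (a (l 14676632) (l 15243920))) (b (l 15730544) (l 4))) (l 4))) (a (l 4) (b (l 4) (a (b (l 4) (l 2)) (l 2))))) (b (a (b (b (l 15299696) (b (l 15886216) (a (l 16050592) (l 16276304)))) (b (b (l 16289472) (l 4)) (l 4))) (b (b (b (l 15506480) (l 15908496)) (b (l 16325104) (a (l 16511656) (l 2)))) (a (b (l 4) (l 2)) (l 2)))) (a (b (a (b (l 4) (l 2)) (l 2)) (l 2)) (l 2)))), by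 decide +kernel⟩

theorem c_pp_033 : CertB 0 536870912 1610612736 536870912 1033476505 6710887 3 eng mog cd1q0 cd1q3 pd3 false true true .pnn 0 3 3
    ndB1q0 ndB1q3 pcB3 Cut.none Ext.none :=
  certB1 (fam := false) (s1 := true) (s2 := true) (a := 0) (b := 3) (c := 3) (cn := .pnn) (n1 := ndB1q0) (n2 := ndB1q3) (pc := pcB3) (cut := Cut.none) (xt := Ext.none) (P1 := 0) (W1 := 536870912) (P2 := 1610612736) (W2 := 536870912) (P3 := 1033476505) (W3 := 6710887) (N0 := 3) (En := eng) (mo := mog) (C1 := cd1q0) (C2 := cd1q3) (C3 := pd3)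
    rfl (fun _ => rfl) k0_pp_033

noncomputable def f_pp_101 : ℕ → ℕ → ℕ → ℕ → Bool := onCell 536870912 536870912 536870912 536870912 1033476505 6710887
    (rowB 3 eng mog cd1q1 cd1q1 pd0 0 false true true .npn 1 0 1 (qsf 536870912 536870912 536870912 536870912 0) ndB1q1 ndB1q1 pcB0 Cut.none Ext.none)

def k0_pp_101 : ∃ t, chk3 f_pp_101 t 1 1 1 = true :=
  ⟨(l 3), by decide +kernel⟩

theorem c_pp_101 : CertB 536870912 536870912 536870912 536870912 1033476505 6710887 3 eng mog cd1q1 cd1q1 pd0 false true true .npn 1 0 1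
    ndB1q1 ndB1q1 pcB0 Cut.none Ext.none :=
  certB0 (fam := false) (s1 := true) (s2 := true) (a := 1) (b := 0) (c := 1) (cn := .npn) (n1 := ndB1q1) (n2 := ndB1q1) (pc := pcB0) (cut := Cut.none) (xt := Ext.none) (P1 := 536870912) (W1 := 536870912) (P2 := 536870912) (W2 := 536870912) (P3 := 1033476505) (W3 := 6710887) (N0 := 3) (En := eng) (mo := mog) (C1 := cd1q1) (C2 := cd1q1) (C3 := pd0)
    rfl k0_pp_101

noncomputable def f_pp_102_a : ℕ → ℕ → ℕ → ℕ → Bool := onCell 0 536870912 0 536870912 1033476505 6710887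
    (rowB 3 eng mog cd1q1 cd1q2a pd0 2 false true true .npp 1 0 2 (qsf 536870912 536870912 0 536870912 0) ndB1q1 ndB1q2a pcB0 Cut.none Ext.none)

def k0_pp_102_a : ∃ t, chk3 f_pp_102_a t 1 1 1 = true :=
  ⟨(a (a (l 3) (l 3)) (l 3)), by decide +kernel⟩

theorem c_pp_102_a : CertB 536870912 536870912 0 536870912 1033476505 6710887 3 eng mog cd1q1 cd1q2a pd0 false true true .npp 1 0 2
    ndB1q1 ndB1q2a pcB0 Cut.none Ext.none :=
  certB2 (fam := false) (s1 := true) (s2 := true) (a := 1) (b := 0) (c := 2) (cn := .npp) (n1 := ndB1q1) (n2 := ndB1q2a) (pc := pcB0) (cut := Cut.none) (xt := Ext.none) (P1 := 536870912) (W1 := 536870912) (P2 := 0) (W2 := 536870912) (P3 := 1033476505) (W3 := 6710887) (N0 := 3) (En := eng) (mo := mog) (C1 := cd1q1) (C2 := cd1q2a) (C3 := pd0)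
    rfl (fun _ => rfl) k0_pp_102_a

noncomputable def f_pp_102_b : ℕ → ℕ → ℕ → ℕ → Bool := onCell 0 536870912 1239849684 370763052 1033476505 6710887
    (rowB 3 eng mog cd1q1 cd1q2b pd0 2 false true true .npp 1 0 2 (qsf 536870912 536870912 1239849684 370763052 0) ndB1q1 ndB1q2b pcB0 Cut.none Ext.none)

def k0_pp_102_b : ∃ t, chk3 f_pp_102_b t 1 1 1 = true :=
  ⟨(a (l 3) (a (l 3) (b (l 3) (l 3)))), by decide +kernel⟩

theorem c_pp_102_b : CertB 536870912 536870912 1239849684 370763052 1033476505 6710887 3 eng mog cd1q1 cd1q2b pd0 false true true .npp 1 0 2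
    ndB1q1 ndB1q2b pcB0 Cut.none Ext.none :=
  certB2 (fam := false) (s1 := true) (s2 := true) (a := 1) (b := 0) (c := 2) (cn := .npp) (n1 := ndB1q1) (n2 := ndB1q2b) (pc := pcB0) (cut := Cut.none) (xt := Ext.none) (P1 := 536870912) (W1 := 536870912) (P2 := 1239849684) (W2 := 370763052) (P3 := 1033476505) (W3 := 6710887) (N0 := 3) (En := eng) (mo := mog) (C1 := cd1q1) (C2 := cd1q2b) (C3 := pd0)
    rfl (fun _ => rfl) k0_pp_102_b

noncomputable def f_pp_112_a : ℕ → ℕ → ℕ → ℕ → Bool := onCell 536870912 536870912 0 536870912 1033476505 6710887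
    (rowB 3 eng mog cd1q1 cd1q2a pd1 2 false true true .dn 1 1 2 (qsf 536870912 536870912 0 536870912 1) ndB1q1 ndB1q2a pcB1 Cut.none Ext.none)

def k0_pp_112_a : ∃ t, chk3 f_pp_112_a t 4 2 1 = true :=
  ⟨(b (a (a (l 3) (b (b (a (l 3) (b (a (l 3) (a (l 3) (b (b (a (l 52778948999) (b (l 15670144) (l 15675344))) (l 3)) (l 3)))) (l 3))) (l 3)) (l 3))) (b (a (b (a (b (a (b (a (b (a (l 15658872) (l 15643224)) (a (l 56000149431) (b (l 15656456) (l 15661896)))) (l 72106257511)) (a (l 3) (b (a (l 60295091927) (b (l 15642952) (l 15648632))) (l 3)))) (b (l 15582096) (a (b (l 15624152) (a (l 64053163879) (b (l 15629616) (l 15635552)))) (l 15602288)))) (a (l 3) (a (l 3) (b (b (a (l 67811236071) (b (l 15616472) (l 15622664))) (l 3)) (l 3))))) (b (a (l 15539728) (l 15482080)) (a (b (a (b (l 15598144) (a (l 72106179607) (l 64589989447))) (l 15576928)) (a (l 3) (b (a (l 15604896) (l 15593848)) (l 15604808)))) (a (b (l 15547720) (b (l 15573000) (a (l 15592632) (l 15581520))))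 (l 15535840))))) (a (l 3) (a (l 3) (b (b (a (l 15593912) (b (a (l 15580600) (l 15569424)) (l 15581064))) (l 3)) (l 3))))) (b (a (a (l 15460608) (l 15407912)) (l 15334560)) (a (b (b (a (a (b (l 15548856) (a (l 15568824) (l 15557576))) (l 15529152)) (l 15488672)) (a (a (l 15570688) (b (l 64053045591) (l 15558352))) (a (b (l 15525832) (l 15539824)) (l 15506936)))) (a (l 3) (b (a (l 15548560) (b (l 15528840) (l 15536720))) (l 3)))) (b (l 15406832) (a (b (a (l 15510856) (l 15485960)) (a (l 15527592) (b (l 15507752) (l 15516256)))) (l 15505304)))))) (a (l 3) (b (b (a (l 3) (a (l 3) (b (a (l 15507856) (l 15491632)) (l 3)))) (l 3)) (l 3))))) (l 3)), by decide +kernel⟩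

def k1_pp_112_a : ∃ t, chk3 f_pp_112_a t 5 2 1 = true :=
  ⟨(a (b (b (a (a (b (l 15248072) (a (l 15387040) (l 15343672))) (b (l 15175352) (a (l 15303632) (l 15267016)))) (l 1)) (a (b (a (b (a (b (l 15459504) (a (l 15489440) (l 15473464))) (l 15428248)) (a (l 3) (b (a (l 15472416) (b (l 15452144) (l 15462536))) (l 3)))) (a (b (l 15385680) (b (l 15426576) (a (b (l 15454816) (l 15459992)) (b (l 15436448) (l 15447464))))) (l 92909380071))) (b (a (l 3) (a (l 164447638743) (a (a (b (l 128477324599) (l 3)) (l 1)) (l 1)))) (l 3))) (l 1))) (a (l 3) (l 1))) (l 1)), by decide +kernel⟩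

def k2_pp_112_a : ∃ t, chk3 f_pp_112_a t 2 3 1 = true :=
  ⟨(l 3), by decide +kernel⟩

def k3_pp_112_a : ∃ t, chk3 f_pp_112_a t 3 1 1 = true :=
  ⟨(l 1), by decide +kernel⟩

theorem s4_pp_112_a : ∃ t, chk3 f_pp_112_a t 2 2 1 = true := ex3_a k0_pp_112_a k1_pp_112_a

theorem s5_pp_112_a : ∃ t, chk3 f_pp_112_a t 2 1 1 = true := ex3_b s4_pp_112_a k2_pp_112_a

theorem s6_pp_112_a : ∃ t, chk3 f_pp_112_a t 1 1 1 = true := ex3_a s5_pp_112_a k3_pp_112_a

theorem c_pp_112_a : CertB 536870912 536870912 0 536870912 1033476505 6710887 3 eng mog cd1q1 cd1q2a pd1 false true true .dn 1 1 2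
    ndB1q1 ndB1q2a pcB1 Cut.none Ext.none :=
  certB2 (fam := false) (s1 := true) (s2 := true) (a := 1) (b := 1) (c := 2) (cn := .dn) (n1 := ndB1q1) (n2 := ndB1q2a) (pc := pcB1) (cut := Cut.none) (xt := Ext.none) (P1 := 536870912) (W1 := 536870912) (P2 := 0) (W2 := 536870912) (P3 := 1033476505) (W3 := 6710887) (N0 := 3) (En := eng) (mo := mog) (C1 := cd1q1) (C2 := cd1q2a) (C3 := pd1)
    rfl (fun _ => rfl) s6_pp_112_a

noncomputable def f_pp_112_b : ℕ → ℕ → ℕ → ℕ → Bool := onCell 536870912 536870912 536870912 536870912 1033476505 6710887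
    (rowB 3 eng mog cd1q1 cd1q2b pd1 1 false true true .dn 1 1 2 (qsf 536870912 536870912 1239849684 370763052 1) ndB1q1 ndB1q2b pcB1 Cut.none Ext.none)

def k0_pp_112_b : ∃ t, chk3 f_pp_112_b t 2 1 1 = true :=
  ⟨(b (b (a (b (a (l 1) (b (l 3) (a (a (l 1) (b (l 1) (b (l 1) (b (l 1) (l 264708670183))))) (b (l 3) (b (l 3) (a (a (b (l 3) (a (b (l 95594377559) (l 15678240)) (l 15695336))) (l 3)) (l 3))))))) (a (b (a (l 1) (b (l 1) (l 338259161959))) (a (b (l 1) (l 271150154951)) (b (l 112236504183) (l 15314808)))) (b (b (a (a (l 286720097271) (b (b (l 79488078279) (l 15566712)) (l 15591152))) (a (b (b (a (l 15678024) (l 15710760)) (l 15642560)) (l 15667776)) (b (l 15750152) (a (l 15723400) (l 15756208))))) (a (a (l 80024705527) (l 15560216)) (b (l 15685176) (l 15666712)))) (a (b (l 15488904) (l 15464224)) (b (l 15642840) (l 15617944)))))) (b (l 3) (a (b (a (b (l 3) (a (l 15763944) (l 15851296))) (l 3)) (a (b (l 15795224) (l 15772952)) (b (l 15937768) (l 15924624))))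 (b (l 3) (l 202029546359))))) (a (b (a (b (a (b (l 251822589111) (l 191156184375)) (l 15211096)) (a (b (l 15139200) (l 15167992)) (l 15291080))) (b (a (l 15440744) (l 15593288)) (l 15504552))) (a (b (a (l 15165952) (l 15304624)) (a (l 15203256) (l 15328920))) (b (l 15507128) (l 15517664)))) (b (a (b (a (l 15749912) (l 15907408)) (l 15816352)) (b (a (l 16062568) (l 16219304)) (l 110224573143))) (a (b (l 15813864) (l 15814808)) (b (l 16145952) (l 16150048)))))) (b (b (a (a (b (l 15315664) (l 15351328)) (b (l 15530248) (l 15536168))) (a (b (l 15812000) (l 15796984)) (l 16134928))) (a (a (l 15371624) (l 15518488)) (b (l 15826544) (l 15850008)))) (a (b (a (l 15344184) (l 15447776)) (l 15234760)) (b (l 15614424) (l 2))))), by decide +kernel⟩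

def k1_pp_112_b : ∃ t, chk3 f_pp_112_b t 3 1 1 = true :=
  ⟨(b (b (l 3) (a (b (a (b (l 3) (l 243369177815)) (l 3)) (a (b (l 146732439095) (l 16503000)) (b (l 16175912) (l 2)))) (b (l 3) (l 2)))) (b (b (a (a (b (l 16508864) (l 2)) (l 2)) (l 2)) (l 2)) (l 2))), by decide +kernel⟩

theorem s2_pp_112_b : ∃ t, chk3 f_pp_112_b t 1 1 1 = true := ex3_a k0_pp_112_b k1_pp_112_b

theorem c_pp_112_b : CertB 536870912 536870912 1239849684 370763052 1033476505 6710887 3 eng mog cd1q1 cd1q2b pd1 false true true .dn 1 1 2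
    ndB1q1 ndB1q2b pcB1 Cut.none Ext.none :=
  certB1 (fam := false) (s1 := true) (s2 := true) (a := 1) (b := 1) (c := 2) (cn := .dn) (n1 := ndB1q1) (n2 := ndB1q2b) (pc := pcB1) (cut := Cut.none) (xt := Ext.none) (P1 := 536870912) (W1 := 536870912) (P2 := 1239849684) (W2 := 370763052) (P3 := 1033476505) (W3 := 6710887) (N0 := 3) (En := eng) (mo := mog) (C1 := cd1q1) (C2 := cd1q2b) (C3 := pd1)
    rfl (fun _ => rfl) s2_pp_112_b

noncomputable def f_pp_113 : ℕ → ℕ → ℕ → ℕ → Bool := onCell 536870912 536870912 536870912 536870912 1033476505 6710887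
    (rowB 3 eng mog cd1q1 cd1q3 pd1 1 false true true .nn 1 1 3 (qsf 536870912 536870912 1610612736 536870912 1) ndB1q1 ndB1q3 pcB1 Cut.none Ext.none)

def k0_pp_113 : ∃ t, chk3 f_pp_113 t 1 1 1 = true :=
  ⟨(a (b (b (l 1) (a (l 1) (b (l 1) (a (l 1) (l 398389643831))))) (b (b (a (l 1) (a (l 315710832087) (l 15970864))) (a (l 326984361511) (b (l 15583512) (l 15619440)))) (a (b (l 223368217719) (l 184176511271)) (b (a (l 15485448) (l 15755184)) (a (l 15369648) (l 15598776)))))) (b (b (l 3) (a (b (a (a (l 1) (l 3)) (l 3)) (a (b (a (l 16221504) (l 16397808)) (l 16344560)) (b (l 234779063911) (l 236389783255)))) (b (l 3) (l 3)))) (b (b (a (a (b (l 16363008) (l 16354336)) (b (l 16380424) (l 16492600))) (a (b (l 279338598311) (l 298666012743)) (b (l 3) (l 297591416999)))) (a (a (b (l 16311184) (l 16228576)) (b (l 16427152) (l 16285160))) (b (a (l 16023144) (l 321750640743)) (a (l 15945408) (b (l 15614344) (l 15584912)))))) (b (a (b (a (l 16123128) (l 16073616))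 (l 15788336)) (b (a (l 15791288) (l 15309344)) (a (l 15618064) (l 15477984)))) (b (a (l 15834608) (a (l 15484088) (b (l 15553496) (l 15699048)))) (a (l 15657112) (a (l 15393376) (l 16175376)))))))), by decide +kernel⟩

theorem c_pp_113 : CertB 536870912 536870912 1610612736 536870912 1033476505 6710887 3 eng mog cd1q1 cd1q3 pd1 false true true .nn 1 1 3
    ndB1q1 ndB1q3 pcB1 Cut.none Ext.none :=
  certB1 (fam := false) (s1 := true) (s2 := true) (a := 1) (b := 1) (c := 3) (cn := .nn) (n1 := ndB1q1) (n2 := ndB1q3) (pc := pcB1) (cut := Cut.none) (xt := Ext.none) (P1 := 536870912) (W1 := 536870912) (P2 := 1610612736) (W2 := 536870912) (P3 := 1033476505) (W3 := 6710887) (N0 := 3) (En := eng) (mo := mog) (C1 := cd1q1) (C2 := cd1q3) (C3 := pd1)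
    rfl (fun _ => rfl) k0_pp_113

noncomputable def f_pp_123 : ℕ → ℕ → ℕ → ℕ → Bool := onCell 1073741824 536870912 1610612736 536870912 1033476505 6710887
    (rowB 3 eng mog cd1q1 cd1q3 pd2 2 false true true .npn 1 2 3 (qsf 536870912 536870912 1610612736 536870912 2) ndB1q1 ndB1q3 pcB2 Cut.none Ext.none)

def k0_pp_123 : ∃ t, chk3 f_pp_123 t 1 1 1 = true :=
  ⟨(a (b (a (b (a (b (l 15047832) (l 15125080)) (b (l 15014272) (l 14982560))) (a (b (l 15277304) (l 15492352)) (b (l 15033896) (l 15159664)))) (b (a (l 265780617319) (l 1)) (a (b (l 14881176) (l 14900360)) (l 14564808)))) (a (b (a (b (l 15750360) (l 15806112)) (b (l 15347176) (l 15572504))) (b (a (a (l 15721816) (l 15776304)) (l 15671968)) (a (a (l 16505840) (l 16165256)) (b (l 15896864) (l 16220520))))) (b (a (b (l 14992024) (l 15141840)) (l 14727936)) (b (a (l 15316352) (l 14850872)) (a (l 15555096) (l 14991328)))))) (a (b (b (l 1) (a (l 14774736) (l 1))) (b (a (l 14473400) (l 14316936)) (b (l 14237120)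 (a (l 14456880) (l 13982072))))) (b (l 1) (b (a (l 161626070871) (l 1)) (a (b (l 13809400) (l 13623952)) (b (l 14038200) (l 13803544))))))), by decide +kernel⟩

theorem c_pp_123 : CertB 536870912 536870912 1610612736 536870912 1033476505 6710887 3 eng mog cd1q1 cd1q3 pd2 false true true .npn 1 2 3
    ndB1q1 ndB1q3 pcB2 Cut.none Ext.none :=
  certB2 (fam := false) (s1 := true) (s2 := true) (a := 1) (b := 2) (c := 3) (cn := .npn) (n1 := ndB1q1) (n2 := ndB1q3) (pc := pcB2) (cut := Cut.none) (xt := Ext.none) (P1 := 536870912) (W1 := 536870912) (P2 := 1610612736) (W2 := 536870912) (P3 := 1033476505) (W3 := 6710887) (N0 := 3) (En := eng) (mo := mog) (C1 := cd1q1) (C2 := cd1q3) (C3 := pd2)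
    rfl (fun _ => rfl) k0_pp_123

noncomputable def f_pp_133 : ℕ → ℕ → ℕ → ℕ → Bool := onCell 536870912 536870912 1610612736 536870912 1033476505 6710887
    (rowB 3 eng mog cd1q1 cd1q3 pd3 1 false true true .dn 1 3 3 (qsf 536870912 536870912 1610612736 536870912 3) ndB1q1 ndB1q3 pcB3 Cut.none Ext.none)

def k0_pp_133 : ∃ t, chk3 f_pp_133 t 1 1 1 = true :=
  ⟨(a (b (a (b (a (b (l 14651136) (l 2)) (l 2)) (l 2)) (l 2)) (l 2)) (l 2)), by decide +kernel⟩

theorem c_pp_133 : CertB 536870912 536870912 1610612736 536870912 1033476505 6710887 3 eng mog cd1q1 cd1q3 pd3 false true true .dn 1 3 3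
    ndB1q1 ndB1q3 pcB3 Cut.none Ext.none :=
  certB1 (fam := false) (s1 := true) (s2 := true) (a := 1) (b := 3) (c := 3) (cn := .dn) (n1 := ndB1q1) (n2 := ndB1q3) (pc := pcB3) (cut := Cut.none) (xt := Ext.none) (P1 := 536870912) (W1 := 536870912) (P2 := 1610612736) (W2 := 536870912) (P3 := 1033476505) (W3 := 6710887) (N0 := 3) (En := eng) (mo := mog) (C1 := cd1q1) (C2 := cd1q3) (C3 := pd3)
    rfl (fun _ => rfl) k0_pp_133

noncomputable def f_pp_202_aa : ℕ → ℕ → ℕ → ℕ → Bool := onCell 0 536870912 0 536870912 1033476505 6710887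
    (rowB 3 eng mog cd1q2a cd1q2a pd0 0 false true true .pp 2 0 2 (qsf 0 536870912 0 536870912 0) ndB1q2a ndB1q2a pcB0 Cut.none Ext.none)

def k0_pp_202_aa : ∃ t, chk3 f_pp_202_aa t 1 1 1 = true :=
  ⟨(l 3), by decide +kernel⟩

theorem c_pp_202_aa : CertB 0 536870912 0 536870912 1033476505 6710887 3 eng mog cd1q2a cd1q2a pd0 false true true .pp 2 0 2
    ndB1q2a ndB1q2a pcB0 Cut.none Ext.none :=
  certB0 (fam := false) (s1 := true) (s2 := true) (a := 2) (b := 0) (c := 2) (cn := .pp) (n1 := ndB1q2a) (n2 := ndB1q2a) (pc := pcB0) (cut := Cut.none) (xt := Ext.none) (P1 := 0) (W1 := 536870912) (P2 := 0) (W2 := 536870912) (P3 := 1033476505) (W3 := 6710887) (N0 := 3) (En := eng) (mo := mog) (C1 := cd1q2a) (C2 := cd1q2a) (C3 := pd0)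
    rfl k0_pp_202_aa

noncomputable def f_pp_202_ab : ℕ → ℕ → ℕ → ℕ → Bool := onCell 0 536870912 1239849684 370763052 1033476505 6710887
    (rowB 3 eng mog cd1q2a cd1q2b pd0 0 false true true .pp 2 0 2 (qsf 0 536870912 1239849684 370763052 0) ndB1q2a ndB1q2b pcB0 Cut.none Ext.none)

def k0_pp_202_ab : ∃ t, chk3 f_pp_202_ab t 1 1 1 = true :=
  ⟨(l 3), by decide +kernel⟩

theorem c_pp_202_ab : CertB 0 536870912 1239849684 370763052 1033476505 6710887 3 eng mog cd1q2a cd1q2b pd0 false true true .pp 2 0 2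
    ndB1q2a ndB1q2b pcB0 Cut.none Ext.none :=
  certB0 (fam := false) (s1 := true) (s2 := true) (a := 2) (b := 0) (c := 2) (cn := .pp) (n1 := ndB1q2a) (n2 := ndB1q2b) (pc := pcB0) (cut := Cut.none) (xt := Ext.none) (P1 := 0) (W1 := 536870912) (P2 := 1239849684) (W2 := 370763052) (P3 := 1033476505) (W3 := 6710887) (N0 := 3) (En := eng) (mo := mog) (C1 := cd1q2a) (C2 := cd1q2b) (C3 := pd0)
    rfl k0_pp_202_ab

noncomputable def f_pp_202_ba : ℕ → ℕ → ℕ → ℕ → Bool := onCell 1239849684 370763052 0 536870912 1033476505 6710887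
    (rowB 3 eng mog cd1q2b cd1q2a pd0 0 false true true .pp 2 0 2 (qsf 1239849684 370763052 0 536870912 0) ndB1q2b ndB1q2a pcB0 Cut.none Ext.none)

def k0_pp_202_ba : ∃ t, chk3 f_pp_202_ba t 1 1 1 = true :=
  ⟨(l 3), by decide +kernel⟩

theorem c_pp_202_ba : CertB 1239849684 370763052 0 536870912 1033476505 6710887 3 eng mog cd1q2b cd1q2a pd0 false true true .pp 2 0 2
    ndB1q2b ndB1q2a pcB0 Cut.none Ext.none :=
  certB0 (fam := false) (s1 := true) (s2 := true) (a := 2) (b := 0) (c := 2) (cn := .pp) (n1 := ndB1q2b) (n2 := ndB1q2a) (pc := pcB0) (cut := Cut.none) (xt := Ext.none) (P1 := 1239849684) (W1 := 370763052) (P2 := 0) (W2 := 536870912) (P3 := 1033476505) (W3 := 6710887) (N0 := 3) (En := eng) (mo := mog) (C1 := cd1q2b) (C2 := cd1q2a) (C3 := pd0)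
    rfl k0_pp_202_ba

noncomputable def f_pp_202_bb : ℕ → ℕ → ℕ → ℕ → Bool := onCell 1239849684 370763052 1239849684 370763052 1033476505 6710887
    (rowB 3 eng mog cd1q2b cd1q2b pd0 0 false true true .pp 2 0 2 (qsf 1239849684 370763052 1239849684 370763052 0) ndB1q2b ndB1q2b pcB0 Cut.none Ext.none)

def k0_pp_202_bb : ∃ t, chk3 f_pp_202_bb t 1 1 1 = true :=
  ⟨(l 3), by decide +kernel⟩

theorem c_pp_202_bb : CertB 1239849684 370763052 1239849684 370763052 1033476505 6710887 3 eng mog cd1q2b cd1q2b pd0 false true true .pp 2 0 2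
    ndB1q2b ndB1q2b pcB0 Cut.none Ext.none :=
  certB0 (fam := false) (s1 := true) (s2 := true) (a := 2) (b := 0) (c := 2) (cn := .pp) (n1 := ndB1q2b) (n2 := ndB1q2b) (pc := pcB0) (cut := Cut.none) (xt := Ext.none) (P1 := 1239849684) (W1 := 370763052) (P2 := 1239849684) (W2 := 370763052) (P3 := 1033476505) (W3 := 6710887) (N0 := 3) (En := eng) (mo := mog) (C1 := cd1q2b) (C2 := cd1q2b) (C3 := pd0)
    rfl k0_pp_202_bb

noncomputable def f_pp_203_a : ℕ → ℕ → ℕ → ℕ → Bool := onCell 0 536870912 0 536870912 1033476505 6710887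
    (rowB 3 eng mog cd1q2a cd1q3 pd0 1 false true true .up 2 0 3 (qsf 0 536870912 1610612736 536870912 0) ndB1q2a ndB1q3 pcB0 Cut.none Ext.none)

def k0_pp_203_a : ∃ t, chk3 f_pp_203_a t 1 1 1 = true :=
  ⟨(l 3), by decide +kernel⟩

theorem c_pp_203_a : CertB 0 536870912 1610612736 536870912 1033476505 6710887 3 eng mog cd1q2a cd1q3 pd0 false true true .up 2 0 3
    ndB1q2a ndB1q3 pcB0 Cut.none Ext.none :=
  certB1 (fam := false) (s1 := true) (s2 := true) (a := 2) (b := 0) (c := 3) (cn := .up) (n1 := ndB1q2a) (n2 := ndB1q3) (pc := pcB0) (cut := Cut.none) (xt := Ext.none) (P1 := 0) (W1 := 536870912) (P2 := 1610612736) (W2 := 536870912) (P3 := 1033476505) (W3 := 6710887) (N0 := 3) (En := eng) (mo := mog) (C1 := cd1q2a) (C2 := cd1q3) (C3 := pd0)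
    rfl (fun _ => rfl) k0_pp_203_a

noncomputable def f_pp_203_b : ℕ → ℕ → ℕ → ℕ → Bool := onCell 1239849684 370763052 1610612736 536870912 1033476505 6710887
    (rowB 3 eng mog cd1q2b cd1q3 pd0 0 false true true .up 2 0 3 (qsf 1239849684 370763052 1610612736 536870912 0) ndB1q2b ndB1q3 pcB0 Cut.none Ext.none)

def k0_pp_203_b : ∃ t, chk3 f_pp_203_b t 1 1 1 = true :=
  ⟨(l 3), by decide +kernel⟩

theorem c_pp_203_b : CertB 1239849684 370763052 1610612736 536870912 1033476505 6710887 3 eng mog cd1q2b cd1q3 pd0 false true true .up 2 0 3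
    ndB1q2b ndB1q3 pcB0 Cut.none Ext.none :=
  certB0 (fam := false) (s1 := true) (s2 := true) (a := 2) (b := 0) (c := 3) (cn := .up) (n1 := ndB1q2b) (n2 := ndB1q3) (pc := pcB0) (cut := Cut.none) (xt := Ext.none) (P1 := 1239849684) (W1 := 370763052) (P2 := 1610612736) (W2 := 536870912) (P3 := 1033476505) (W3 := 6710887) (N0 := 3) (En := eng) (mo := mog) (C1 := cd1q2b) (C2 := cd1q3) (C3 := pd0)
    rfl k0_pp_203_b

noncomputable def cut_pp_213_a : Cut := Cut.of [[⟨0, 1, 0, 20971520⟩, ⟨1, 1, 0, 20971520⟩, ⟨2, 2, 0, 1572864⟩]]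

noncomputable def f_pp_213_a : ℕ → ℕ → ℕ → ℕ → Bool := onCell 0 536870912 1610612736 536870912 1033476505 6710887
    (rowB 3 eng mog cd1q2a cd1q3 pd1 0 false true true .pnn 2 1 3 (qsf 0 536870912 1610612736 536870912 1) ndB1q2a ndB1q3 pcB1 cut_pp_213_a Ext.none)

def k0_pp_213_a : ∃ t, chk3 f_pp_213_a t 1 1 1 = true :=
  ⟨(a (l 3) (b (l 3) (a (l 3) (b (l 3) (b (l 3) (a (l 3) (b (l 3) (a (l 3) (b (l 3) (a (l 3) (b (l 3) (b (l 3) (b (l 3) (b (l 3) (l 6))))))))))))))), by decide +kernel⟩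

theorem c_pp_213_a : CertB 0 536870912 1610612736 536870912 1033476505 6710887 3 eng mog cd1q2a cd1q3 pd1 false true true .pnn 2 1 3
    ndB1q2a ndB1q3 pcB1 cut_pp_213_a Ext.none :=
  certB0 (fam := false) (s1 := true) (s2 := true) (a := 2) (b := 1) (c := 3) (cn := .pnn) (n1 := ndB1q2a) (n2 := ndB1q3) (pc := pcB1) (cut := cut_pp_213_a) (xt := Ext.none) (P1 := 0) (W1 := 536870912) (P2 := 1610612736) (W2 := 536870912) (P3 := 1033476505) (W3 := 6710887) (N0 := 3) (En := eng) (mo := mog) (C1 := cd1q2a) (C2 := cd1q3) (C3 := pd1)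
    rfl k0_pp_213_a

noncomputable def cut_pp_213_b : Cut := Cut.of [[⟨0, 1, 0, 20971520⟩, ⟨1, 1, 0, 20971520⟩, ⟨2, 2, 0, 1572864⟩]]

noncomputable def f_pp_213_b : ℕ → ℕ → ℕ → ℕ → Bool := onCell 1239849684 370763052 1610612736 536870912 1033476505 6710887
    (rowB 3 eng mog cd1q2b cd1q3 pd1 0 false true true .pnn 2 1 3 (qsf 1239849684 370763052 1610612736 536870912 1) ndB1q2b ndB1q3 pcB1 cut_pp_213_b Ext.none)

def k0_pp_213_b : ∃ t, chk3 f_pp_213_b t 1 1 1 = true :=
  ⟨(l 3), by decide +kernel⟩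

theorem c_pp_213_b : CertB 1239849684 370763052 1610612736 536870912 1033476505 6710887 3 eng mog cd1q2b cd1q3 pd1 false true true .pnn 2 1 3
    ndB1q2b ndB1q3 pcB1 cut_pp_213_b Ext.none :=
  certB0 (fam := false) (s1 := true) (s2 := true) (a := 2) (b := 1) (c := 3) (cn := .pnn) (n1 := ndB1q2b) (n2 := ndB1q3) (pc := pcB1) (cut := cut_pp_213_b) (xt := Ext.none) (P1 := 1239849684) (W1 := 370763052) (P2 := 1610612736) (W2 := 536870912) (P3 := 1033476505) (W3 := 6710887) (N0 := 3) (En := eng) (mo := mog) (C1 := cd1q2b) (C2 := cd1q3) (C3 := pd1)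
    rfl k0_pp_213_b

noncomputable def f_pp_303 : ℕ → ℕ → ℕ → ℕ → Bool := onCell 1610612736 536870912 1610612736 536870912 1033476505 6710887
    (rowB 3 eng mog cd1q3 cd1q3 pd0 0 false true true .npn 3 0 3 (qsf 1610612736 536870912 1610612736 536870912 0) ndB1q3 ndB1q3 pcB0 Cut.none Ext.none)

def k0_pp_303 : ∃ t, chk3 f_pp_303 t 1 1 1 = true :=
  ⟨(l 3), by decide +kernel⟩

theorem c_pp_303 : CertB 1610612736 536870912 1610612736 536870912 1033476505 6710887 3 eng mog cd1q3 cd1q3 pd0 false true true .npn 3 0 3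
    ndB1q3 ndB1q3 pcB0 Cut.none Ext.none :=
  certB0 (fam := false) (s1 := true) (s2 := true) (a := 3) (b := 0) (c := 3) (cn := .npn) (n1 := ndB1q3) (n2 := ndB1q3) (pc := pcB0) (cut := Cut.none) (xt := Ext.none) (P1 := 1610612736) (W1 := 536870912) (P2 := 1610612736) (W2 := 536870912) (P3 := 1033476505) (W3 := 6710887) (N0 := 3) (En := eng) (mo := mog) (C1 := cd1q3) (C2 := cd1q3) (C3 := pd0)
    rfl k0_pp_303

noncomputable def f_pp_313 : ℕ → ℕ → ℕ → ℕ → Bool := onCell 1610612736 536870912 1610612736 536870912 1033476505 6710887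
    (rowB 3 eng mog cd1q3 cd1q3 pd1 0 false true true .dn 3 1 3 (qsf 1610612736 536870912 1610612736 536870912 1) ndB1q3 ndB1q3 pcB1 Cut.none Ext.none)

def k0_pp_313 : ∃ t, chk3 f_pp_313 t 1 1 1 = true :=
  ⟨(l 3), by decide +kernel⟩

theorem c_pp_313 : CertB 1610612736 536870912 1610612736 536870912 1033476505 6710887 3 eng mog cd1q3 cd1q3 pd1 false true true .dn 3 1 3
    ndB1q3 ndB1q3 pcB1 Cut.none Ext.none :=
  certB0 (fam := false) (s1 := true) (s2 := true) (a := 3) (b := 1) (c := 3) (cn := .dn) (n1 := ndB1q3) (n2 := ndB1q3) (pc := pcB1) (cut := Cut.none) (xt := Ext.none) (P1 := 1610612736) (W1 := 536870912) (P2 := 1610612736) (W2 := 536870912) (P3 := 1033476505) (W3 := 6710887) (N0 := 3) (En := eng) (mo := mog) (C1 := cd1q3) (C2 := cd1q3) (C3 := pd1)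
    rfl k0_pp_313

noncomputable def f_pm_001 : ℕ → ℕ → ℕ → ℕ → Bool := onCell 0 536870912 536870912 536870912 1033476505 6710887
    (rowB 3 eng mog cd1q0 cd1q1 pd0 0 false true false .up 0 0 1 (qsf 0 536870912 536870912 536870912 0) ndB1q0 ndB1q1 pcB0 Cut.none Ext.none)

def k0_pm_001 : ∃ t, chk3 f_pm_001 t 1 1 1 = true :=
  ⟨(a (l 4) (b (l 4) (l 4))), by decide +kernel⟩

theorem c_pm_001 : CertB 0 536870912 536870912 536870912 1033476505 6710887 3 eng mog cd1q0 cd1q1 pd0 false true false .up 0 0 1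
    ndB1q0 ndB1q1 pcB0 Cut.none Ext.none :=
  certB0 (fam := false) (s1 := true) (s2 := false) (a := 0) (b := 0) (c := 1) (cn := .up) (n1 := ndB1q0) (n2 := ndB1q1) (pc := pcB0) (cut := Cut.none) (xt := Ext.none) (P1 := 0) (W1 := 536870912) (P2 := 536870912) (W2 := 536870912) (P3 := 1033476505) (W3 := 6710887) (N0 := 3) (En := eng) (mo := mog) (C1 := cd1q0) (C2 := cd1q1) (C3 := pd0)
    rfl k0_pm_001

noncomputable def f_pm_011 : ℕ → ℕ → ℕ → ℕ → Bool := onCell 0 536870912 536870912 536870912 1033476505 6710887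
    (rowB 3 eng mog cd1q0 cd1q1 pd1 0 false true false .pnn 0 1 1 (qsf 0 536870912 536870912 536870912 1) ndB1q0 ndB1q1 pcB1 Cut.none Ext.none)

def k0_pm_011 : ∃ t, chk3 f_pm_011 t 1 1 1 = true :=
  ⟨(b (l 4) (a (l 4) (l 4))), by decide +kernel⟩

theorem c_pm_011 : CertB 0 536870912 536870912 536870912 1033476505 6710887 3 eng mog cd1q0 cd1q1 pd1 false true false .pnn 0 1 1
    ndB1q0 ndB1q1 pcB1 Cut.none Ext.none :=
  certB0 (fam := false) (s1 := true) (s2 := false) (a := 0) (b := 1) (c := 1) (cn := .pnn) (n1 := ndB1q0) (n2 := ndB1q1) (pc := pcB1) (cut := Cut.none) (xt := Ext.none) (P1 := 0) (W1 := 536870912) (P2 := 536870912) (W2 := 536870912) (P3 := 1033476505) (W3 := 6710887) (N0 := 3) (En := eng) (mo := mog) (C1 := cd1q0) (C2 := cd1q1) (C3 := pd1)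
    rfl k0_pm_011

noncomputable def cut_pm_012_a : Cut := Cut.of [[⟨0, 0, 0, 33554432⟩, ⟨1, 1, 0, 33554432⟩, ⟨2, 1, 0, 33554432⟩]]

noncomputable def f_pm_012_a : ℕ → ℕ → ℕ → ℕ → Bool := onCell 536870912 536870912 0 536870912 1033476505 6710887
    (rowB 3 eng mog cd1q0 cd1q2a pd1 2 false true false .pnp 0 1 2 (qsf 0 536870912 0 536870912 1) ndB1q0 ndB1q2a pcB1 cut_pm_012_a Ext.none)

def k0_pm_012_a : ∃ t, chk3 f_pm_012_a t 2 1 1 = true :=
  ⟨(b (a (b (l 2) (b (l 2) (a (l 2) (l 16659984)))) (b (a (a (l 16313808) (l 16312224)) (b (l 16522824) (a (l 16551912) (l 16542312)))) (a (b (b (l 16372696) (l 16631104)) (l 16690256)) (b (l 16642816) (l 16595584))))) (b (a (a (l 2) (b (l 16568152) (l 16303656))) (a (b (l 16479792) (l 16265656)) (b (l 16395120) (l 16232928)))) (a (b (b (l 16018336) (a (l 16041152) (l 16049920))) (a (l 16093552) (l 16132680))) (b (a (b (l 16130328) (l 16071056)) (a (l 16113872) (l 16131616))) (a (l 16179096) (b (l 16173896) (l 16297072))))))),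 by decide +kernel⟩

def k1_pm_012_a : ∃ t, chk3 f_pm_012_a t 3 1 1 = true :=
  ⟨(a (b (b (a (b (l 16543976) (b (l 16515696) (l 16603544))) (b (a (l 16539768) (l 16537928)) (l 16613208))) (a (b (l 16645512) (l 16473472)) (b (l 16516288) (l 16356592)))) (b (a (b (l 16315248) (l 16205640)) (b (l 16240888) (l 16183696))) (b (a (l 16162496) (a (l 16192600) (l 16214480))) (a (b (a (l 16211608) (l 16241832)) (l 16369776)) (b (a (l 16275288) (l 16250064)) (a (l 16428320) (l 16469048))))))) (b (a (b (b (b (l 16524536) (l 16567088)) (l 16538936)) (b (l 16351352) (l 16246168))) (b (a (l 16427392) (l 16343512)) (a (l 16219552) (b (l 16204200) (l 16118504))))) (a (b (b (l 16172448) (a (l 16170040) (l 16162736))) (b (a (l 16237192) (b (l 16223048) (l 16298752))) (b (a (b (l 16329632) (l 16384144)) (b (l 16374920) (a (l 16421880) (l 16449184)))) (a (b (l 16463136) (l 16559592)) (b (a (l 16494776) (l 16517984)) (b (l 16578568) (l 16610432))))))) (b (b (a (l 16124864) (l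 16095144)) (a (l 16156472) (b (l 16125744) (l 16176808)))) (b (a (b (l 16238656) (a (l 16322584) (l 16338640))) (b (a (l 16250488) (l 16258552)) (a (l 16354672) (b (l 16338592) (l 16402952))))) (a (a (b (l 16400544) (b (l 16480512) (l 16597392))) (b (b (l 16431384) (l 16503640)) (b (b (l 16554720) (l 16589896)) (b (l 16614744) (l 16669400))))) (b (a (b (l 16453896) (l 16488720)) (b (a (l 16470640) (l 16481784)) (a (l 16550744) (b (l 16543560) (l 16584696))))) (a (a (b (l 16595568) (b (l 16633696) (l 16687144))) (b (l 16590144) (b (b (l 16659336) (l 6)) (l 6)))) (b (a (a (l 16622704) (l 16588488)) (l 6)) (l 6)))))))))), by decide +kernel⟩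

theorem s2_pm_012_a : ∃ t, chk3 f_pm_012_a t 1 1 1 = true := ex3_a k0_pm_012_a k1_pm_012_a

theorem c_pm_012_a : CertB 0 536870912 0 536870912 1033476505 6710887 3 eng mog cd1q0 cd1q2a pd1 false true false .pnp 0 1 2
    ndB1q0 ndB1q2a pcB1 cut_pm_012_a Ext.none :=
  certB2 (fam := false) (s1 := true) (s2 := false) (a := 0) (b := 1) (c := 2) (cn := .pnp) (n1 := ndB1q0) (n2 := ndB1q2a) (pc := pcB1) (cut := cut_pm_012_a) (xt := Ext.none) (P1 := 0) (W1 := 536870912) (P2 := 0) (W2 := 536870912) (P3 := 1033476505) (W3 := 6710887) (N0 := 3) (En := eng) (mo := mog) (C1 := cd1q0) (C2 := cd1q2a) (C3 := pd1)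
    rfl (fun _ => rfl) s2_pm_012_a

noncomputable def cut_pm_012_b : Cut := Cut.of [[⟨0, 0, 0, 33554432⟩, ⟨1, 1, 0, 33554432⟩, ⟨2, 1, 0, 33554432⟩]]

noncomputable def f_pm_012_b : ℕ → ℕ → ℕ → ℕ → Bool := onCell 536870912 536870912 1239849684 370763052 1033476505 6710887
    (rowB 3 eng mog cd1q0 cd1q2b pd1 2 false true false .pnp 0 1 2 (qsf 0 536870912 1239849684 370763052 1) ndB1q0 ndB1q2b pcB1 cut_pm_012_b Ext.none)

def k0_pm_012_b : ∃ t, chk3 f_pm_012_b t 1 1 1 = true :=
  ⟨(a (a (l 2) (b (a (b (b (l 16234696) (l 2)) (l 2)) (b (b (l 16490056) (l 16460392)) (l 16230872))) (l 2))) (a (b (a (b (b (l 16618680) (l 16764560)) (l 16604376)) (b (b (l 16607232) (l 16626424)) (l 16327064))) (a (l 2) (b (l 16252120) (l 2)))) (b (a (b (b (l 16584328) (l 16485368)) (l 16115048)) (b (a (l 16395688) (l 16244400)) (a (l 16104608) (l 15974968)))) (a (b (l 15995192) (l 15842128)) (b (a (l 15822688) (l 15691136)) (l 15552576)))))), by decide +kernel⟩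

theorem c_pm_012_b : CertB 0 536870912 1239849684 370763052 1033476505 6710887 3 eng mog cd1q0 cd1q2b pd1 false true false .pnp 0 1 2
    ndB1q0 ndB1q2b pcB1 cut_pm_012_b Ext.none :=
  certB2 (fam := false) (s1 := true) (s2 := false) (a := 0) (b := 1) (c := 2) (cn := .pnp) (n1 := ndB1q0) (n2 := ndB1q2b) (pc := pcB1) (cut := cut_pm_012_b) (xt := Ext.none) (P1 := 0) (W1 := 536870912) (P2 := 1239849684) (W2 := 370763052) (P3 := 1033476505) (W3 := 6710887) (N0 := 3) (En := eng) (mo := mog) (C1 := cd1q0) (C2 := cd1q2b) (C3 := pd1)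
    rfl (fun _ => rfl) k0_pm_012_b

noncomputable def cut_pm_022_a : Cut := Cut.of [[⟨0, 0, 0, 33554432⟩, ⟨1, 1, 0, 33554432⟩, ⟨2, 1, 0, 33554432⟩]]

noncomputable def f_pm_022_a : ℕ → ℕ → ℕ → ℕ → Bool := onCell 1073741824 536870912 0 536870912 1033476505 6710887
    (rowB 3 eng mog cd1q0 cd1q2a pd2 2 false true false .pp 0 2 2 (qsf 0 536870912 0 536870912 2) ndB1q0 ndB1q2a pcB2 cut_pm_022_a Ext.none)

def k0_pm_022_a : ∃ t, chk3 f_pm_022_a t 1 1 1 = true :=
  ⟨(a (b (a (a (b (b (l 16104344) (b (a (l 16060744) (l 16115936)) (a (l 16112936) (l 16182280)))) (a (b (l 16248080) (l 16408088)) (b (l 16292256) (l 16396384)))) (b (a (b (l 16167456) (b (l 16180536) (l 16242240))) (b (l 16224488) (l 16210384))) (a (b (l 16323720) (l 16409288)) (b (l 16309000) (a (l 16399296) (l 16396760)))))) (a (a (b (b (l 16288880) (l 16286792)) (a (b (l 16365136) (l 16385808)) (b (l 16356400) (l 1)))) (b (b (l 1) (l 1)) (l 1))) (l 1))) (a (a (b (a (b (l 16519544) (b (l 16544688)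 (l 16541560))) (b (l 16490624) (b (l 16559144) (a (l 16599264) (l 16548936))))) (b (a (b (a (l 16537120) (l 16599336)) (a (b (l 16570344) (l 16562488)) (b (l 16645224) (l 16603264)))) (b (a (l 16565248) (b (l 16547616) (l 324839879911))) (a (b (a (l 16620416) (l 16585944)) (a (l 267931747543) (b (l 16558760) (l 554083930215)))) (b (a (l 366715872503) (l 809634364071)) (a (l 771516578567) (l 1)))))) (a (b (a (b (a (l 16626728) (l 16670176)) (l 6)) (b (a (l 16656488) (b (l 16643752) (l 314639577143))) (a (l 6) (a (l 6) (b (l 635688406775) (l 1)))))) (a (l 6) (a (l 6) (l 1)))) (b (a (b (a (b (l 372621572583) (a (l 511671200071) (l 1))) (l 1)) (l 1)) (l 1)) (l 1))))) (b (a (b (b (l 16453176) (l 16448232)) (a (b (l 16495928) (l 16452320)) (b (l 16452200) (l 703870532135)))) (b (a (l 16400560) (l 649109632151)) (a (l 741988277047) (l 1)))) (a (b (b (a (b (l 365641960231) (l 804265572839)) (l 1)) (l 1)) (l 1)) (l 1)))) (b (l 1) (l 1)))) (l 1)), by decide +kernel⟩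

theorem c_pm_022_a : CertB 0 536870912 0 536870912 1033476505 6710887 3 eng mog cd1q0 cd1q2a pd2 false true false .pp 0 2 2
    ndB1q0 ndB1q2a pcB2 cut_pm_022_a Ext.none :=
  certB2 (fam := false) (s1 := true) (s2 := false) (a := 0) (b := 2) (c := 2) (cn := .pp) (n1 := ndB1q0) (n2 := ndB1q2a) (pc := pcB2) (cut := cut_pm_022_a) (xt := Ext.none) (P1 := 0) (W1 := 536870912) (P2 := 0) (W2 := 536870912) (P3 := 1033476505) (W3 := 6710887) (N0 := 3) (En := eng) (mo := mog) (C1 := cd1q0) (C2 := cd1q2a) (C3 := pd2)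
    rfl (fun _ => rfl) k0_pm_022_a

noncomputable def cut_pm_022_b : Cut := Cut.of [[⟨0, 0, 0, 33554432⟩, ⟨1, 1, 0, 33554432⟩, ⟨2, 1, 0, 33554432⟩]]

noncomputable def f_pm_022_b : ℕ → ℕ → ℕ → ℕ → Bool := onCell 1073741824 536870912 1239849684 370763052 1033476505 6710887
    (rowB 3 eng mog cd1q0 cd1q2b pd2 2 false true false .pp 0 2 2 (qsf 0 536870912 1239849684 370763052 2) ndB1q0 ndB1q2b pcB2 cut_pm_022_b Ext.none)

def k0_pm_022_b : ∃ t, chk3 f_pm_022_b t 1 1 1 = true :=
  ⟨(a (a (b (b (a (b (l 16145320) (l 16327552)) (a (l 16137400) (l 16150544))) (a (b (l 16511080) (l 16330304)) (b (l 16271968) (l 16081744)))) (b (a (a (l 16142856) (l 16020224)) (l 15774440)) (a (l 15827600) (l 15591328)))) (a (b (b (b (a (l 16339872) (l 16380216)) (l 16163320)) (b (l 16035296) (l 15844120))) (b (l 15596088) (l 15349016))) (b (b (b (a (l 16270752) (l 1)) (a (l 16084216) (l 15985080))) (a (l 15589696) (b (l 15791728) (l 15632088)))) (b (a (l 15446312) (l 15410064))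 (a (l 15195544) (l 15159536)))))) (b (a (b (l 1) (a (a (l 344702071159) (l 365103217095)) (a (l 519185234023) (l 1)))) (l 1)) (a (a (b (a (l 15423464) (l 15471976)) (l 15218160)) (b (a (l 15539640) (l 15566192)) (l 15345408))) (a (b (b (l 1) (l 429528465303)) (a (l 15571080) (l 15678232))) (b (l 1) (a (l 15779912) (l 618506391399))))))), by decide +kernel⟩

theorem c_pm_022_b : CertB 0 536870912 1239849684 370763052 1033476505 6710887 3 eng mog cd1q0 cd1q2b pd2 false true false .pp 0 2 2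
    ndB1q0 ndB1q2b pcB2 cut_pm_022_b Ext.none :=
  certB2 (fam := false) (s1 := true) (s2 := false) (a := 0) (b := 2) (c := 2) (cn := .pp) (n1 := ndB1q0) (n2 := ndB1q2b) (pc := pcB2) (cut := cut_pm_022_b) (xt := Ext.none) (P1 := 0) (W1 := 536870912) (P2 := 1239849684) (W2 := 370763052) (P3 := 1033476505) (W3 := 6710887) (N0 := 3) (En := eng) (mo := mog) (C1 := cd1q0) (C2 := cd1q2b) (C3 := pd2)
    rfl (fun _ => rfl) k0_pm_022_b

end Pool.Agent.Strip051.G.I9625_9688.Tab.C.BB11

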