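import Pool.Agent.Strip051.G.I9625_9688.Tab
import Pool.Agent.Strip051.PB.ExtD3

/-! # Certificates B27 (generated) -/

set_option linter.all false
set_option maxRecDepth 100000

namespace Pool.Agent.Strip051.G.I9625_9688.Tab.C.BB14

open Pool.Agent.Strip051.PB Pool.Agent.Strip051.PB.T
open Pool.Agent.Strip051.G.I9625_9688.Tab

noncomputable def f_pm_202_a : ℕ → ℕ → ℕ → ℕ → Bool := onCell 0 536870912 0 536870912 1033476505 6710887
    (rowB 3 eng mog cd1q2a cd4q2 pd0 1 false true false .pp 2 0 2 (qsf 0 536870912 1073741824 536870912 0) ndB1q2a ndB4q2 pcB0 Cut.none Ext.none)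

def k0_pm_202_a : ∃ t, chk3 f_pm_202_a t 2 2 1 = true :=
  ⟨(a (b (b (b (b (l 16116624) (b (l 16024504) (l 15973144))) (b (b (l 15943832) (l 15911816)) (l 15813368))) (b (l 15599848) (b (l 15372760) (a (b (l 15252968) (l 15159056)) (l 15213624))))) (b (b (b (a (a (b (l 15088472) (l 15066864)) (l 15052304)) (l 15054296)) (a (a (l 15035960) (b (l 14919152) (l 14896000))) (l 14897472))) (a (b (l 14941776) (l 14929904)) (b (a (a (b (l 14779600) (l 14759944)) (l 14732640)) (l 14729488)) (a (l 14707072) (a (l 14577416) (l 14548896)))))) (b (a (a (b (l 15015296) (l 15011376)) (l 14865744)) (b (l 14616032) (l 14625424))) (a (a (l 14964840) (b (l 14905888) (l 14881488))) (b (l 14647528) (l 14690928)))))) (b (b (b (b (l 16031416) (b (l 15947632) (l 15897824))) (b (b (l 15861728) (l 15824696)) (l 15738192))) (b (a (l 15562352) (l 15539096)) (l 15289928))) (b (b (a (l 14994160) (l 15011552)) (a (l 14672480) (l 14712920))) (b (a (b (a (l 14428824) (l 14427552)) (a (l 14349160) (l 14266872)))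 (l 14386416)) (a (b (a (l 14359888) (l 14164896)) (l 14277960)) (a (b (l 14107952) (l 13980472)) (l 14049912))))))), by decide +kernel⟩

def k1_pm_202_a : ∃ t, chk3 f_pm_202_a t 2 3 1 = true :=
  ⟨(b (b (b (a (a (l 14942024) (a (b (l 14808432) (l 14815408)) (b (l 14634696) (l 14696368)))) (a (l 14341280) (a (l 13979520) (b (l 13799552) (l 13726288))))) (a (a (l 14951152) (a (l 14835536) (l 14725408))) (a (a (b (l 14545384) (l 14617800)) (l 14346888)) (l 13941352)))) (a (a (b (a (b (l 15010592) (l 15030792)) (l 14949280)) (a (b (a (l 15051368) (l 15042528)) (l 2)) (l 15069632))) (b (l 14825192) (l 14882984))) (a (b (a (l 14658752) (b (l 14466784) (l 14544032))) (l 14634432)) (b (l 14096864) (a (b (l 14389824) (l 14473064)) (l 14137848)))))) (b (a (l 2) (a (l 2) (b (a (l 2) (l 840298294119)) (l 2)))) (l 2))), by decide +kernel⟩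

def k2_pm_202_a : ∃ t, chk3 f_pm_202_a t 3 2 1 = true :=
  ⟨(a (b (b (b (a (b (l 15968704) (l 15863672)) (a (b (l 15914024) (l 15816792)) (l 15777904))) (b (a (b (l 15795304) (l 15752040)) (a (l 15724112) (l 15669480))) (a (l 15673192) (a (l 15630192) (l 15582800))))) (b (a (l 15507984) (a (l 15474888) (l 15437752))) (a (l 15273936) (l 15248536)))) (b (b (a (l 15020896) (l 15018656)) (a (l 14745360) (l 14768440))) (b (a (l 14443688) (l 14493976)) (a (l 14111768) (l 14191232))))) (b (a (b (b (a (b (l 15709272) (l 15629232)) (b (l 15588008) (l 15504840))) (a (l 15515600) (b (l 15425392) (l 15349624)))) (b (a (a (l 15402120) (l 15344352)) (l 15242752)) (a (a (l 15214864) (l 15194600)) (l 15116032)))) (b (b (a (b (b (l 15474568) (l 15430160)) (l 15365416)) (b (a (l 15334376) (l 15274568)) (a (l 15265744) (l 15161760)))) (a (b (l 15282640) (l 15203784)) (b (a (l 15180224) (l 15116224)) (l 15066472)))) (a (b (l 15092624) (l 14957752)) (b (b (l 14967248) (l 14913960)) (l 14809808)))))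 (b (a (b (a (l 15006976) (a (l 14985824) (l 14952000))) (a (l 14778832) (l 14778936))) (b (a (l 14837552) (l 14684424)) (a (l 14718584) (l 14573920)))) (a (b (l 14538496) (l 14270184)) (b (a (a (l 14564400) (l 14532048)) (l 14455536)) (a (l 14333352) (a (b (l 14423392) (l 14324736)) (l 14345136)))))))), by decide +kernel⟩

def k3_pm_202_a : ∃ t, chk3 f_pm_202_a t 3 3 1 = true :=
  ⟨(b (a (b (a (b (b (l 13839880) (l 13657208)) (a (b (l 13508880) (l 13499416)) (b (l 13477416) (l 13306784)))) (b (l 13855800) (l 13482520))) (a (b (a (l 13612848) (b (l 13234392) (l 13281056))) (l 13616432)) (b (a (b (l 13135296) (l 12992648)) (l 13114728)) (a (b (l 12967544) (l 13053112)) (b (a (l 12770888) (l 12806560)) (l 12682664)))))) (b (a (b (l 13992392) (l 13637736)) (b (a (l 14067904) (b (l 14224576) (l 14100624))) (a (l 13769256) (l 13893456)))) (a (b (l 13264232) (l 12845168)) (b (a (l 13432912) (l 13584856)) (a (l 13054200) (l 13234984)))))) (a (b (a (b (l 13841072) (l 2)) (b (a (l 13224848)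 (l 12766544)) (l 13250120))) (l 2)) (b (a (b (a (b (l 12436840) (l 12371984)) (l 12457288)) (a (l 12497600) (a (b (l 12105664) (l 12124888)) (b (l 12126464) (l 11940464))))) (b (l 12603200) (l 12056360))) (a (b (a (l 12776424) (l 12211200)) (l 2)) (b (a (b (a (l 11986464) (l 11813104)) (a (l 11803272) (a (l 11612016) (l 11579352)))) (l 11893056)) (a (l 11901328) (b (a (b (l 11479432) (l 11422792)) (l 11566048)) (a (l 11484480) (a (l 11313856) (l 11319712)))))))))), by decide +kernel⟩

theorem s4_pm_202_a : ∃ t, chk3 f_pm_202_a t 3 1 1 = true := ex3_b k2_pm_202_a k3_pm_202_a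

theorem s5_pm_202_a : ∃ t, chk3 f_pm_202_a t 2 1 1 = true := ex3_b k0_pm_202_a k1_pm_202_a

theorem s6_pm_202_a : ∃ t, chk3 f_pm_202_a t 1 1 1 = true := ex3_a s5_pm_202_a s4_pm_202_a

theorem c_pm_202_a : CertB 0 536870912 1073741824 536870912 1033476505 6710887 3 eng mog cd1q2a cd4q2 pd0 false true false .pp 2 0 2
    ndB1q2a ndB4q2 pcB0 Cut.none Ext.none :=
  certB1 (fam := false) (s1 := true) (s2 := false) (a := 2) (b := 0) (c := 2) (cn := .pp) (n1 := ndB1q2a) (n2 := ndB4q2) (pc := pcB0) (cut := Cut.none) (xt := Ext.none) (P1 := 0) (W1 := 536870912) (P2 := 1073741824) (W2 := 536870912) (P3 := 1033476505) (W3 := 6710887) (N0 := 3) (En := eng) (mo := mog) (C1 := cd1q2a) (C2 := cd4q2) (C3 := pd0)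
    rfl (fun _ => rfl) s6_pm_202_a

noncomputable def f_pm_202_b : ℕ → ℕ → ℕ → ℕ → Bool := onCell 0 536870912 1073741824 536870912 1033476505 6710887
    (rowB 3 eng mog cd1q2b cd4q2 pd0 2 false true false .pp 2 0 2 (qsf 1239849684 370763052 1073741824 536870912 0) ndB1q2b ndB4q2 pcB0 Cut.none Ext.none)

def k0_pm_202_b : ∃ t, chk3 f_pm_202_b t 2 1 1 = true :=
  ⟨(b (a (b (l 1) (a (b (a (a (l 16188056) (a (l 16174216) (l 16160456))) (a (a (l 16171856) (l 1)) (l 1))) (a (a (l 15881168) (a (l 15854168) (l 15844752))) (a (a (l 15858184) (l 15866848)) (l 15818200)))) (b (l 1) (a (l 335575183447) (l 321079172951))))) (l 1)) (a (b (a (a (a (l 15496760) (a (l 15483424) (l 15480896))) (a (a (l 15496168) (b (l 15612776) (l 15411328))) (b (l 15575128) (b (l 15428440) (l 15349192))))) (a (b (a (l 15506424) (l 15422832)) (a (l 15344216) (l 15293192))) (b (a (b (l 15356776) (l 15289224)) (b (l 270076188199) (l 15186392))) (l 15238152)))) (a (b (a (a (l 15223200) (b (l 15257528) (a (l 15186832)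 (l 15194632)))) (a (a (l 15242680) (l 15253848)) (a (l 15251056) (l 15249376)))) (a (a (b (l 15109336) (l 15025520)) (b (l 15111240) (a (l 15069496) (l 15272656)))) (a (a (l 15124208) (a (l 15133896) (l 15139576))) (a (l 15147136) (l 15156672))))) (a (b (b (l 15258336) (l 15235576)) (b (l 15189760) (a (l 15150112) (b (l 15175984) (l 15161328))))) (b (b (l 15219864) (l 15203944)) (b (l 15209272) (a (b (l 15190248) (l 15178032)) (l 15195248))))))) (b (a (b (a (b (a (l 362417828983) (l 1)) (l 380671414519)) (b (l 1) (l 381744885383))) (a (b (l 15132776) (l 15187648)) (b (l 15011888) (b (l 15124824) (l 15134688))))) (b (l 1) (a (b (l 482676557159) (l 405367314167)) (b (l 1) (l 405367228535))))) (a (b (a (b (l 15212256) (l 15214824)) (l 15171824)) (b (l 15210024) (a (b (l 15212176) (l 15199576)) (b (l 15215200) (l 15199080))))) (b (a (l 15127984) (l 381208081415)) (b (l 15164680) (a (b (l 15205760) (l 15187552)) (b (l 15183440) (l 15169776))))))))), by decide +kernel⟩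

def k1_pm_202_b : ∃ t, chk3 f_pm_202_b t 3 1 1 = true :=
  ⟨(a (b (l 1) (b (l 1) (a (b (a (l 346311233671) (l 384965700295)) (b (l 288329403991) (a (b (l 15148104) (l 15147688)) (b (l 15098288) (l 15117024))))) (b (l 1) (b (a (l 414493906407) (l 1)) (b (l 382818566503) (a (l 318931664087) (l 363491807015)))))))) (l 1)), by decide +kernel⟩

theorem s2_pm_202_b : ∃ t, chk3 f_pm_202_b t 1 1 1 = true := ex3_a k0_pm_202_b k1_pm_202_b

theorem c_pm_202_b : CertB 1239849684 370763052 1073741824 536870912 1033476505 6710887 3 eng mog cd1q2b cd4q2 pd0 false true false .pp 2 0 2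
    ndB1q2b ndB4q2 pcB0 Cut.none Ext.none :=
  certB2 (fam := false) (s1 := true) (s2 := false) (a := 2) (b := 0) (c := 2) (cn := .pp) (n1 := ndB1q2b) (n2 := ndB4q2) (pc := pcB0) (cut := Cut.none) (xt := Ext.none) (P1 := 1239849684) (W1 := 370763052) (P2 := 1073741824) (W2 := 536870912) (P3 := 1033476505) (W3 := 6710887) (N0 := 3) (En := eng) (mo := mog) (C1 := cd1q2b) (C2 := cd4q2) (C3 := pd0)
    rfl (fun _ => rfl) s2_pm_202_b

noncomputable def f_pm_203_a : ℕ → ℕ → ℕ → ℕ → Bool := onCell 0 536870912 0 1230186008 1033476505 6710887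
    (rowB 3 eng mog cd1q2a cd4q3 pd0 0 false true false .up 2 0 3 (qsf 0 536870912 0 1230186008 0) ndB1q2a ndB4q3 pcB0 Cut.none Ext.none)

def k0_pm_203_a : ∃ t, chk3 f_pm_203_a t 1 1 1 = true :=
  ⟨(b (l 2) (b (l 2) (a (b (b (l 2) (b (a (l 2) (l 2)) (a (a (a (b (l 359331498519) (l 280411487911)) (b (l 15306368) (l 15231424))) (l 15232688)) (a (a (l 15176464) (l 15107256)) (l 14961808))))) (b (a (b (a (a (b (l 260010260951) (l 15104696)) (l 15124752)) (a (l 15106448) (l 15074120))) (a (b (l 15033240) (l 14974960)) (a (l 14958392) (l 14931904)))) (a (b (l 14974064) (l 14802960)) (b (l 14773360) (l 14592800)))) (a (b (a (a (l 14965328) (b (l 14924184) (l 14880768))) (l 14822944)) (a (a (b (l 14854048) (a (l 14837528) (l 14831864))) (b (l 14835896) (l 14783992))) (l 14695888))) (b (a (l 14647904) (l 14418560)) (a (l 14514160) (a (l 14327224) (b (l 14230000) (l 14119472)))))))) (b (l 2) (a (b (a (b (l 14517288) (a (l 14397944) (l 14225528))) (b (l 2) (a (b (l 14100056) (l 13947176))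 (l 13719224)))) (a (b (a (l 14047192) (l 13900784)) (l 13659216)) (b (l 13507512) (l 12999528)))) (b (a (b (l 2) (l 13191344)) (l 2)) (a (b (l 12779888) (l 12166952)) (b (l 11949840) (a (l 11723816) (b (l 11394976) (l 11198336))))))))))), by decide +kernel⟩

theorem c_pm_203_a : CertB 0 536870912 0 1230186008 1033476505 6710887 3 eng mog cd1q2a cd4q3 pd0 false true false .up 2 0 3
    ndB1q2a ndB4q3 pcB0 Cut.none Ext.none :=
  certB0 (fam := false) (s1 := true) (s2 := false) (a := 2) (b := 0) (c := 3) (cn := .up) (n1 := ndB1q2a) (n2 := ndB4q3) (pc := pcB0) (cut := Cut.none) (xt := Ext.none) (P1 := 0) (W1 := 536870912) (P2 := 0) (W2 := 1230186008) (P3 := 1033476505) (W3 := 6710887) (N0 := 3) (En := eng) (mo := mog) (C1 := cd1q2a) (C2 := cd4q3) (C3 := pd0)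
    rfl k0_pm_203_a

noncomputable def f_pm_203_b : ℕ → ℕ → ℕ → ℕ → Bool := onCell 0 536870912 0 1230186008 1033476505 6710887
    (rowB 3 eng mog cd1q2b cd4q3 pd0 2 false true false .up 2 0 3 (qsf 1239849684 370763052 0 1230186008 0) ndB1q2b ndB4q3 pcB0 Cut.none Ext.none)

def k0_pm_203_b : ∃ t, chk3 f_pm_203_b t 1 1 1 = true :=
  ⟨(b (l 3) (b (l 3) (a (b (l 3) (b (l 3) (a (a (a (a (a (l 239607940503) (l 240145475079)) (l 238534907255)) (l 235850247383)) (a (a (l 229945298615) (b (l 3) (l 232629652759))) (a (l 233165891591) (l 232629057655)))) (b (a (l 3) (a (l 195048893079) (l 14970448))) (a (a (b (l 235314085079) (l 14972096)) (a (l 14972600) (l 14964968))) (a (a (l 14955112) (l 14944720)) (l 14930936))))))) (b (a (l 3) (a (l 3) (b (l 3) (b (l 3) (a (l 3) (b (l 3) (a (l 3) (b (l 3) (l 1))))))))) (b (a (a (l 3) (b (l 3) (a (l 15052872) (l 15037304)))) (a (a (b (l 3) (l 15019896)) (b (l 188069396903) (a (l 15023816) (l 15009368)))) (a (b (a (l 174647571671) (b (l 15188248) (l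 15102216))) (l 266854469047)) (b (a (b (b (l 15194352) (l 15150504)) (l 1)) (l 1)) (l 1))))) (a (a (b (a (l 218670598743) (b (l 14986752) (l 14940488))) (a (l 14917320) (l 14901800))) (b (a (l 14949792) (l 14932712)) (a (b (l 14891368) (l 14865120)) (b (l 14861128) (l 389798017639))))) (a (b (a (a (l 14913720) (l 14897256)) (l 321078232935)) (a (b (l 346311436823) (l 1)) (l 1))) (l 1)))))))), by decide +kernel⟩

theorem c_pm_203_b : CertB 1239849684 370763052 0 1230186008 1033476505 6710887 3 eng mog cd1q2b cd4q3 pd0 false true false .up 2 0 3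
    ndB1q2b ndB4q3 pcB0 Cut.none Ext.none :=
  certB2 (fam := false) (s1 := true) (s2 := false) (a := 2) (b := 0) (c := 3) (cn := .up) (n1 := ndB1q2b) (n2 := ndB4q3) (pc := pcB0) (cut := Cut.none) (xt := Ext.none) (P1 := 1239849684) (W1 := 370763052) (P2 := 0) (W2 := 1230186008) (P3 := 1033476505) (W3 := 6710887) (N0 := 3) (En := eng) (mo := mog) (C1 := cd1q2b) (C2 := cd4q3) (C3 := pd0)
    rfl (fun _ => rfl) k0_pm_203_b

noncomputable def cut_pm_213_a : Cut := Cut.of [[⟨0, 1, 0, 20971520⟩, ⟨1, 1, 0, 20971520⟩, ⟨2, 2, 0, 1572864⟩]]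

noncomputable def xt_pm_213_a : Ext := extD3 3 ⟨4, 1, 1, 5, 27, 5, 41, 50, 81, 200, 1, 64⟩ eng cd1q2a cd4q3 pd1 false true false .pnn 2 1 3 rfl ndB1q2a ndB4q3 pcB1

noncomputable def f_pm_213_a : ℕ → ℕ → ℕ → ℕ → Bool := onCell 0 536870912 0 1230186008 1033476505 6710887
    (rowB 3 eng mog cd1q2a cd4q3 pd1 0 false true false .pnn 2 1 3 (qsf 0 536870912 0 1230186008 1) ndB1q2a ndB4q3 pcB1 cut_pm_213_a xt_pm_213_a)

def k0_pm_213_a : ∃ t, chk3 f_pm_213_a t 1 4 1 = true :=
  ⟨(a (l 3) (a (b (l 3) (l 3)) (a (b (l 3) (b (a (l 3) (a (b (l 3) (a (l 3) (b (l 372756111319) (l 264844990487)))) (b (a (b (l 3) (l 403894632663)) (b (l 458655511991) (b (l 287393686055) (l 195588739095)))) (a (b (l 262697526807) (l 16740616)) (b (l 16753608) (l 16730504)))))) (a (b (a (l 3) (b (l 3) (l 279877211335))) (a (b (l 3) (l 266992277543)) (b (a (l 262160464071) (l 16663944)) (l 16636320)))) (b (a (b (a (l 261086837991) (l 16719920)) (l 182166784423)) (b (l 16707784) (l 16675288))) (a (b (l 16663168)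 (l 16630368)) (l 16620384)))))) (b (a (b (l 3) (a (b (l 3) (a (b (l 3) (l 429127595991)) (b (b (l 3) (l 313163484311)) (a (l 220821704727) (l 16764872))))) (b (a (b (l 3) (b (l 3) (a (l 3) (l 294373017543)))) (b (a (l 3) (b (l 437180693863) (l 313700383495))) (b (l 3310634370711478508320367711) (l 16766528)))) (a (b (b (l 3242935363275227141978824735) (l 16760800)) (l 16753976)) (b (l 16756600) (l 16746176)))))) (b (a (b (l 3) (b (a (l 3) (l 6)) (a (a (l 416779592119) (b (l 6) (l 297594233847))) (b (l 6) (l 16769352))))) (b (l 6) (a (b (l 6) (l 16767376)) (l 16746688)))) (a (b (a (b (b (a (l 299204865111) (l 16773720)) (l 16778216)) (l 16770584)) (l 16757016)) (l 16754160)) (b (l 16756576) (l 16761464))))) (a (b (a (b (a (b (a (l 263234481767) (l 16768976)) (l 16761992)) (b (l 16760864) (l 16750288))) (a (l 16733352) (l 16731592))) (b (a (l 16738648) (l 16730168)) (a (l 16735800) (l 16725048)))) (a (b (a (l 16673984) (l 16667216)) (b (l 16610808) (l 16568448))) (b (l 16679744)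 (l 16579032)))) (b (b (a (l 16732816) (l 16741992)) (l 16689536)) (a (b (l 16735744) (l 16654616)) (l 16749880)))))))), by decide +kernel⟩

def k1_pm_213_a : ∃ t, chk3 f_pm_213_a t 1 5 1 = true :=
  ⟨(a (b (l 3) (a (l 3) (b (l 3) (l 3)))) (a (b (a (l 3) (b (a (l 3) (b (a (l 3) (b (l 3) (l 207936348935))) (a (b (l 3) (l 197198771159)) (b (l 175187109975) (l 16518760))))) (a (b (a (l 3) (b (l 3) (l 209009968983))) (a (b (l 3) (a (l 3) (l 210620556439))) (b (a (l 205788707287) (l 16487264)) (l 159617821623)))) (b (a (b (l 190219459607) (l 16490008)) (l 16505288)) (a (b (l 16492544) (l 16493920)) (l 16483880)))))) (a (b (a (l 3) (b (a (l 3) (b (l 3) (l 234779918695))) (a (b (l 256254819431) (l 217063198759)) (b (l 192903929831) (l 16547800))))) (a (b (a (l 3) (b (l 249275505367) (l 210083916119))) (a (b (l 249275460679) (l 210083836663)) (b (l 176797854535) (l 16514152)))) (b (a (b (l 168207983591) (l 16540520)) (l 16519584)) (a (l 16500216) (l 16468944))))) (b (a (b (a (b (l 196661955767)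 (l 16534072)) (b (l 16509280) (l 16508176))) (a (l 16522664) (l 16490272))) (b (a (l 16484632) (l 16455824)) (a (l 16455712) (l 16417168)))) (a (b (l 16468128) (l 16417624)) (b (l 16391232) (l 16338664)))))) (b (a (b (a (b (a (b (l 188608989079) (l 16565504)) (l 16573816)) (a (l 16540600) (l 16538712))) (b (a (l 16580112) (l 16545624)) (a (l 16512264) (l 16468104)))) (a (b (a (l 16503176) (l 16483400)) (l 16447776)) (b (l 16420024) (l 16350944)))) (a (b (a (l 16455616) (b (l 16468864) (l 16355896))) (a (l 16279240) (l 16196016))) (b (a (b (l 16488048) (l 16329992)) (b (l 16681304) (l 16391864))) (a (l 16121448) (l 16072584))))) (a (b (a (b (l 16399000) (l 16348024)) (b (l 16284592) (l 16220144))) (a (b (l 16293648) (l 16237648)) (b (l 16157920) (l 16099496)))) (b (a (b (l 16112104) (l 16037344)) (l 15863984)) (a (l 15939640) (l 15715432))))))), by decide +kernel⟩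

def k2_pm_213_a : ∃ t, chk3 f_pm_213_a t 2 12 1 = true :=
  ⟨(a (l 3) (b (a (l 3) (a (b (l 3) (b (l 3) (l 290614269511))) (b (a (l 3) (b (l 246591019959) (a (l 229411080167) (l 16485648)))) (a (b (a (l 3) (l 224579178119)) (a (l 218673528167) (l 16423096))) (b (l 16452272) (l 16414024)))))) (a (a (l 3) (b (l 3) (a (l 3) (b (l 3) (a (l 3) (b (l 271823413239) (l 225115698503))))))) (b (a (a (b (l 3) (l 270749870167)) (b (a (l 266454981383) (l 210620387591)) (a (l 204714724071) (l 16349064)))) (b (a (l 16385496) (l 16375632)) (l 16320912))) (a (a (b (a (l 251422418967) (l 197198441319)) (l 182702832711)) (b (l 16308560) (l 16268216))) (b (l 16303448) (l 16266064))))))), by decide +kernel⟩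

def k3_pm_213_a : ∃ t, chk3 f_pm_213_a t 2 13 1 = true :=
  ⟨(b (a (l 3) (a (b (a (l 3) (a (b (l 292224428823) (a (l 276655054343) (b (l 241221666503) (l 16153320)))) (b (a (b (l 260549021271) (l 16202560)) (l 16217784)) (l 16173848)))) (a (a (l 3) (b (a (l 3) (b (l 295445466647) (l 254106407559))) (a (b (l 279876143863) (l 240147654359)) (l 204714117975)))) (b (a (a (b (l 215988631335) (l 16102856)) (l 16122120)) (l 16133872)) (l 16065872)))) (b (a (b (a (l 16223976) (l 16229064)) (l 16188360)) (l 16191792)) (a (b (l 16151640) (l 16117216)) (l 16149824))))) (a (a (l 3) (a (l 3) (b (a (l 3) (b (l 3) (a (l 3) (b (l 3) (l 273433416055))))) (a (b (l 3) (a (l 316919665543) (b (l 279875680775) (l 246052748423)))) (b (a (b (l 294908167879) (a (l 278801985719) (l 15859744))) (b (l 236926129895) (l 15872928))) (b (l 15844864) (l 15826712))))))) (a (b (a (a (b (a (l 298129563847) (b (l 265380529255) (l 225652016695))) (a (b (a (l 269675364503) (l 15953520)) (l 15929088)) (l 15954504)))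 (b (l 16035856) (l 15976384))) (b (l 16049616) (l 16015080))) (a (b (l 15904048) (l 15891392)) (l 15969448))) (b (a (l 16070576) (l 16099048)) (a (l 16021288) (b (l 16070688) (l 16048504))))))), by decide +kernel⟩

def k4_pm_213_a : ∃ t, chk3 f_pm_213_a t 3 6 1 = true :=
  ⟨(b (a (b (a (b (a (a (b (l 173039667127) (l 16471088)) (l 16465320)) (a (l 16439000) (l 16409944))) (a (a (l 16416632) (l 16396736)) (l 16360872))) (a (b (l 16360992) (l 16302928)) (b (l 16283696) (l 16229832)))) (a (b (a (l 16335872) (l 16297728)) (a (l 16267728) (l 16239232))) (a (b (l 16247376) (a (l 16210296) (l 16181392))) (b (l 16177272) (l 16122152))))) (a (b (a (b (l 16182840) (l 16129528)) (l 16016328)) (l 15833272)) (b (a (l 15830984) (l 15612240)) (a (l 15729376) (l 15523944))))) (a (b (a (b (a (l 16206304) (a (l 16194656) (l 16181152))) (a (l 16071144) (a (l 16145912) (l 16124344)))) (b (a (l 16140688) (l 16061912)) (l 16038440))) (a (a (b (a (l 16112520) (l 16103832)) (l 16043504)) (l 16032416))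 (l 15925680))) (a (b (l 15858560) (l 15710096)) (b (l 15441248) (l 15390336))))), by decide +kernel⟩

def k5_pm_213_a : ∃ t, chk3 f_pm_213_a t 2 7 1 = true :=
  ⟨(b (b (a (a (b (l 3) (a (l 3) (a (l 3) (b (l 3) (a (l 3) (b (l 3) (l 311013604647))))))) (b (a (a (l 3) (b (a (l 3) (b (l 3) (l 290076034887))) (a (b (l 311550780119) (a (l 298128951063) (l 15661624))) (b (l 253568745847) (l 15679992))))) (b (a (a (b (a (l 289002341463) (l 15762072)) (l 15737816)) (l 15768928)) (l 15801336)) (l 15727424))) (a (b (a (a (l 310476932519) (b (l 299739515175) (l 261084735159))) (b (l 15651544) (l 15636960))) (a (b (a (a (l 307792427751) (l 15559760)) (l 15581088)) (l 15553160)) (l 15617648))) (b (l 15721648) (l 15700392))))) (a (b (a (b (l 15861720) (l 15836664)) (l 15923832)) (a (l 15809104) (b (l 15903696) (l 15898040)))) (b (a (b (l 15996472) (l 15982904)) (b (l 16019296) (l 15983488))) (a (b (l 15959280) (l 15925472)) (l 15914488))))) (a (b (a (a (l 3) (b (a (l 355573673831) (a (b (l 326045902343)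 (l 283633052807)) (b (l 15495152) (l 15482608)))) (a (a (b (l 3) (l 336246255143)) (b (l 295444147543) (l 15395000))) (l 15451184)))) (a (b (l 15545848) (l 15551128)) (l 15680272))) (b (a (b (a (l 370068936903) (a (l 284706604679) (l 15440080))) (a (l 1) (l 15398536))) (l 15610952)) (l 1))) (a (b (a (l 15793880) (b (l 15884136) (l 15855032))) (a (b (l 15795728) (l 15774200)) (l 15784984))) (l 15777856)))) (a (l 1) (b (a (l 1) (l 15518224)) (l 1)))), by decide +kernel⟩

def k6_pm_213_a : ∃ t, chk3 f_pm_213_a t 3 7 1 = true :=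
  ⟨(b (a (b (a (l 15886648) (l 15740360)) (a (l 15664600) (l 15502984))) (b (a (l 15520072) (b (l 15247432) (a (l 15223408) (l 15024976)))) (a (b (l 15328000) (l 15008816)) (b (l 14957968) (l 14725136))))) (a (b (a (b (l 15460024) (l 15289768)) (b (l 15268048) (l 15089960))) (l 1)) (b (a (b (l 14971208) (l 14720152)) (l 14365168)) (a (l 14337856) (b (l 13982656) (l 13706528)))))), by decide +kernel⟩

theorem s7_pm_213_a : ∃ t, chk3 f_pm_213_a t 1 7 1 = true := ex3_a k5_pm_213_a k6_pm_213_a

theorem s8_pm_213_a : ∃ t, chk3 f_pm_213_a t 2 6 1 = true := ex3_b k2_pm_213_a k3_pm_213_a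

theorem s9_pm_213_a : ∃ t, chk3 f_pm_213_a t 1 6 1 = true := ex3_a s8_pm_213_a k4_pm_213_a

theorem s10_pm_213_a : ∃ t, chk3 f_pm_213_a t 1 3 1 = true := ex3_b s9_pm_213_a s7_pm_213_a

theorem s11_pm_213_a : ∃ t, chk3 f_pm_213_a t 1 2 1 = true := ex3_b k0_pm_213_a k1_pm_213_a

theorem s12_pm_213_a : ∃ t, chk3 f_pm_213_a t 1 1 1 = true := ex3_b s11_pm_213_a s10_pm_213_a

theorem c_pm_213_a : CertB 0 536870912 0 1230186008 1033476505 6710887 3 eng mog cd1q2a cd4q3 pd1 false true false .pnn 2 1 3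
    ndB1q2a ndB4q3 pcB1 cut_pm_213_a xt_pm_213_a :=
  certB0 (fam := false) (s1 := true) (s2 := false) (a := 2) (b := 1) (c := 3) (cn := .pnn) (n1 := ndB1q2a) (n2 := ndB4q3) (pc := pcB1) (cut := cut_pm_213_a) (xt := xt_pm_213_a) (P1 := 0) (W1 := 536870912) (P2 := 0) (W2 := 1230186008) (P3 := 1033476505) (W3 := 6710887) (N0 := 3) (En := eng) (mo := mog) (C1 := cd1q2a) (C2 := cd4q3) (C3 := pd1)
    rfl s12_pm_213_a

noncomputable def cut_pm_213_b : Cut := Cut.of [[⟨0, 1, 0, 20971520⟩, ⟨1, 1, 0, 20971520⟩, ⟨2, 2, 0, 1572864⟩]]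

noncomputable def f_pm_213_b : ℕ → ℕ → ℕ → ℕ → Bool := onCell 1239849684 370763052 0 1230186008 1033476505 6710887
    (rowB 3 eng mog cd1q2b cd4q3 pd1 0 false true false .pnn 2 1 3 (qsf 1239849684 370763052 0 1230186008 1) ndB1q2b ndB4q3 pcB1 cut_pm_213_b Ext.none)

def k0_pm_213_b : ∃ t, chk3 f_pm_213_b t 1 1 1 = true :=
  ⟨(b (l 3) (b (l 3) (a (b (a (l 3) (l 1)) (l 1)) (l 1)))), by decide +kernel⟩

theorem c_pm_213_b : CertB 1239849684 370763052 0 1230186008 1033476505 6710887 3 eng mog cd1q2b cd4q3 pd1 false true false .pnn 2 1 3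
    ndB1q2b ndB4q3 pcB1 cut_pm_213_b Ext.none :=
  certB0 (fam := false) (s1 := true) (s2 := false) (a := 2) (b := 1) (c := 3) (cn := .pnn) (n1 := ndB1q2b) (n2 := ndB4q3) (pc := pcB1) (cut := cut_pm_213_b) (xt := Ext.none) (P1 := 1239849684) (W1 := 370763052) (P2 := 0) (W2 := 1230186008) (P3 := 1033476505) (W3 := 6710887) (N0 := 3) (En := eng) (mo := mog) (C1 := cd1q2b) (C2 := cd4q3) (C3 := pd1)
    rfl k0_pm_213_b

noncomputable def f_pm_303 : ℕ → ℕ → ℕ → ℕ → Bool := onCell 0 536870912 0 1230186008 1033476505 6710887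
    (rowB 3 eng mog cd1q3 cd4q3 pd0 2 false true false .npn 3 0 3 (qsf 1610612736 536870912 0 1230186008 0) ndB1q3 ndB4q3 pcB0 Cut.none Ext.none)

def k0_pm_303 : ∃ t, chk3 f_pm_303 t 1 1 1 = true :=
  ⟨(b (l 3) (b (l 3) (a (b (l 3) (b (l 3) (a (b (l 3) (a (a (a (l 239608338519) (l 14988120)) (l 15044648)) (l 1))) (l 1)))) (l 1)))), by decide +kernel⟩

theorem c_pm_303 : CertB 1610612736 536870912 0 1230186008 1033476505 6710887 3 eng mog cd1q3 cd4q3 pd0 false true false .npn 3 0 3
    ndB1q3 ndB4q3 pcB0 Cut.none Ext.none :=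
  certB2 (fam := false) (s1 := true) (s2 := false) (a := 3) (b := 0) (c := 3) (cn := .npn) (n1 := ndB1q3) (n2 := ndB4q3) (pc := pcB0) (cut := Cut.none) (xt := Ext.none) (P1 := 1610612736) (W1 := 536870912) (P2 := 0) (W2 := 1230186008) (P3 := 1033476505) (W3 := 6710887) (N0 := 3) (En := eng) (mo := mog) (C1 := cd1q3) (C2 := cd4q3) (C3 := pd0)
    rfl (fun _ => rfl) k0_pm_303

noncomputable def f_pm_313 : ℕ → ℕ → ℕ → ℕ → Bool := onCell 1610612736 536870912 0 1230186008 1033476505 6710887
    (rowB 3 eng mog cd1q3 cd4q3 pd1 0 false true false .dn 3 1 3 (qsf 1610612736 536870912 0 1230186008 1) ndB1q3 ndB4q3 pcB1 Cut.none Ext.none)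

def k0_pm_313 : ∃ t, chk3 f_pm_313 t 1 1 1 = true :=
  ⟨(b (l 3) (l 1)), by decide +kernel⟩

theorem c_pm_313 : CertB 1610612736 536870912 0 1230186008 1033476505 6710887 3 eng mog cd1q3 cd4q3 pd1 false true false .dn 3 1 3
    ndB1q3 ndB4q3 pcB1 Cut.none Ext.none :=
  certB0 (fam := false) (s1 := true) (s2 := false) (a := 3) (b := 1) (c := 3) (cn := .dn) (n1 := ndB1q3) (n2 := ndB4q3) (pc := pcB1) (cut := Cut.none) (xt := Ext.none) (P1 := 1610612736) (W1 := 536870912) (P2 := 0) (W2 := 1230186008) (P3 := 1033476505) (W3 := 6710887) (N0 := 3) (En := eng) (mo := mog) (C1 := cd1q3) (C2 := cd4q3) (C3 := pd1)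
    rfl k0_pm_313

noncomputable def f_mm_001 : ℕ → ℕ → ℕ → ℕ → Bool := onCell 0 536870912 0 536870912 1033476505 6710887
    (rowB 3 eng mog cd1q0 cd4q1 pd0 1 false false false .up 0 0 1 (qsf 0 536870912 536870912 536870912 0) ndB1q0 ndB4q1 pcB0 Cut.none Ext.none)

def k0_mm_001 : ∃ t, chk3 f_mm_001 t 1 1 1 = true :=
  ⟨(l 3), by decide +kernel⟩

theorem c_mm_001 : CertB 0 536870912 536870912 536870912 1033476505 6710887 3 eng mog cd1q0 cd4q1 pd0 false false false .up 0 0 1
    ndB1q0 ndB4q1 pcB0 Cut.none Ext.none :=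
  certB1 (fam := false) (s1 := false) (s2 := false) (a := 0) (b := 0) (c := 1) (cn := .up) (n1 := ndB1q0) (n2 := ndB4q1) (pc := pcB0) (cut := Cut.none) (xt := Ext.none) (P1 := 0) (W1 := 536870912) (P2 := 536870912) (W2 := 536870912) (P3 := 1033476505) (W3 := 6710887) (N0 := 3) (En := eng) (mo := mog) (C1 := cd1q0) (C2 := cd4q1) (C3 := pd0)
    rfl (fun _ => rfl) k0_mm_001

noncomputable def f_mm_011 : ℕ → ℕ → ℕ → ℕ → Bool := onCell 0 536870912 536870912 536870912 1033476505 6710887
    (rowB 3 eng mog cd1q0 cd4q1 pd1 1 false false false .pnn 0 1 1 (qsf 0 536870912 536870912 536870912 1) ndB1q0 ndB4q1 pcB1 Cut.none Ext.none)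

def k0_mm_011 : ∃ t, chk3 f_mm_011 t 1 1 1 = true :=
  ⟨(l 5), by decide +kernel⟩

theorem c_mm_011 : CertB 0 536870912 536870912 536870912 1033476505 6710887 3 eng mog cd1q0 cd4q1 pd1 false false false .pnn 0 1 1
    ndB1q0 ndB4q1 pcB1 Cut.none Ext.none :=
  certB1 (fam := false) (s1 := false) (s2 := false) (a := 0) (b := 1) (c := 1) (cn := .pnn) (n1 := ndB1q0) (n2 := ndB4q1) (pc := pcB1) (cut := Cut.none) (xt := Ext.none) (P1 := 0) (W1 := 536870912) (P2 := 536870912) (W2 := 536870912) (P3 := 1033476505) (W3 := 6710887) (N0 := 3) (En := eng) (mo := mog) (C1 := cd1q0) (C2 := cd4q1) (C3 := pd1)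
    rfl (fun _ => rfl) k0_mm_011

noncomputable def f_mm_012 : ℕ → ℕ → ℕ → ℕ → Bool := onCell 0 536870912 1073741824 536870912 1033476505 6710887
    (rowB 3 eng mog cd1q0 cd4q2 pd1 0 false false false .pnp 0 1 2 (qsf 0 536870912 1073741824 536870912 1) ndB1q0 ndB4q2 pcB1 Cut.none Ext.none)

def k0_mm_012 : ∃ t, chk3 f_mm_012 t 1 1 1 = true :=
  ⟨(l 5), by decide +kernel⟩

theorem c_mm_012 : CertB 0 536870912 1073741824 536870912 1033476505 6710887 3 eng mog cd1q0 cd4q2 pd1 false false false .pnp 0 1 2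
    ndB1q0 ndB4q2 pcB1 Cut.none Ext.none :=
  certB0 (fam := false) (s1 := false) (s2 := false) (a := 0) (b := 1) (c := 2) (cn := .pnp) (n1 := ndB1q0) (n2 := ndB4q2) (pc := pcB1) (cut := Cut.none) (xt := Ext.none) (P1 := 0) (W1 := 536870912) (P2 := 1073741824) (W2 := 536870912) (P3 := 1033476505) (W3 := 6710887) (N0 := 3) (En := eng) (mo := mog) (C1 := cd1q0) (C2 := cd4q2) (C3 := pd1)
    rfl k0_mm_012

noncomputable def f_mm_022 : ℕ → ℕ → ℕ → ℕ → Bool := onCell 0 536870912 1073741824 536870912 1033476505 6710887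
    (rowB 3 eng mog cd1q0 cd4q2 pd2 0 false false false .pp 0 2 2 (qsf 0 536870912 1073741824 536870912 2) ndB1q0 ndB4q2 pcB2 Cut.none Ext.none)

def k0_mm_022 : ∃ t, chk3 f_mm_022 t 1 1 1 = true :=
  ⟨(l 5), by decide +kernel⟩

theorem c_mm_022 : CertB 0 536870912 1073741824 536870912 1033476505 6710887 3 eng mog cd1q0 cd4q2 pd2 false false false .pp 0 2 2
    ndB1q0 ndB4q2 pcB2 Cut.none Ext.none :=
  certB0 (fam := false) (s1 := false) (s2 := false) (a := 0) (b := 2) (c := 2) (cn := .pp) (n1 := ndB1q0) (n2 := ndB4q2) (pc := pcB2) (cut := Cut.none) (xt := Ext.none) (P1 := 0) (W1 := 536870912) (P2 := 1073741824) (W2 := 536870912) (P3 := 1033476505) (W3 := 6710887) (N0 := 3) (En := eng) (mo := mog) (C1 := cd1q0) (C2 := cd4q2) (C3 := pd2)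
    rfl k0_mm_022

noncomputable def f_mm_023 : ℕ → ℕ → ℕ → ℕ → Bool := onCell 0 536870912 0 1230186008 1033476505 6710887
    (rowB 3 eng mog cd1q0 cd4q3 pd2 0 false false false .up 0 2 3 (qsf 0 536870912 0 1230186008 2) ndB1q0 ndB4q3 pcB2 Cut.none Ext.none)

def k0_mm_023 : ∃ t, chk3 f_mm_023 t 1 1 1 = true :=
  ⟨(l 5), by decide +kernel⟩

theorem c_mm_023 : CertB 0 536870912 0 1230186008 1033476505 6710887 3 eng mog cd1q0 cd4q3 pd2 false false false .up 0 2 3
    ndB1q0 ndB4q3 pcB2 Cut.none Ext.none :=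
  certB0 (fam := false) (s1 := false) (s2 := false) (a := 0) (b := 2) (c := 3) (cn := .up) (n1 := ndB1q0) (n2 := ndB4q3) (pc := pcB2) (cut := Cut.none) (xt := Ext.none) (P1 := 0) (W1 := 536870912) (P2 := 0) (W2 := 1230186008) (P3 := 1033476505) (W3 := 6710887) (N0 := 3) (En := eng) (mo := mog) (C1 := cd1q0) (C2 := cd4q3) (C3 := pd2)
    rfl k0_mm_023

noncomputable def f_mm_033 : ℕ → ℕ → ℕ → ℕ → Bool := onCell 0 536870912 0 1230186008 1033476505 6710887
    (rowB 3 eng mog cd1q0 cd4q3 pd3 0 false false false .pnn 0 3 3 (qsf 0 536870912 0 1230186008 3) ndB1q0 ndB4q3 pcB3 Cut.none Ext.none)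

def k0_mm_033 : ∃ t, chk3 f_mm_033 t 1 1 1 = true :=
  ⟨(l 5), by decide +kernel⟩

theorem c_mm_033 : CertB 0 536870912 0 1230186008 1033476505 6710887 3 eng mog cd1q0 cd4q3 pd3 false false false .pnn 0 3 3
    ndB1q0 ndB4q3 pcB3 Cut.none Ext.none :=
  certB0 (fam := false) (s1 := false) (s2 := false) (a := 0) (b := 3) (c := 3) (cn := .pnn) (n1 := ndB1q0) (n2 := ndB4q3) (pc := pcB3) (cut := Cut.none) (xt := Ext.none) (P1 := 0) (W1 := 536870912) (P2 := 0) (W2 := 1230186008) (P3 := 1033476505) (W3 := 6710887) (N0 := 3) (En := eng) (mo := mog) (C1 := cd1q0) (C2 := cd4q3) (C3 := pd3)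
    rfl k0_mm_033

noncomputable def f_mm_101 : ℕ → ℕ → ℕ → ℕ → Bool := onCell 536870912 536870912 0 536870912 1033476505 6710887
    (rowB 3 eng mog cd1q1 cd4q1 pd0 1 false false false .npn 1 0 1 (qsf 536870912 536870912 536870912 536870912 0) ndB1q1 ndB4q1 pcB0 Cut.none Ext.none)

def k0_mm_101 : ∃ t, chk3 f_mm_101 t 1 1 1 = true :=
  ⟨(l 3), by decide +kernel⟩

theorem c_mm_101 : CertB 536870912 536870912 536870912 536870912 1033476505 6710887 3 eng mog cd1q1 cd4q1 pd0 false false false .npn 1 0 1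
    ndB1q1 ndB4q1 pcB0 Cut.none Ext.none :=
  certB1 (fam := false) (s1 := false) (s2 := false) (a := 1) (b := 0) (c := 1) (cn := .npn) (n1 := ndB1q1) (n2 := ndB4q1) (pc := pcB0) (cut := Cut.none) (xt := Ext.none) (P1 := 536870912) (W1 := 536870912) (P2 := 536870912) (W2 := 536870912) (P3 := 1033476505) (W3 := 6710887) (N0 := 3) (En := eng) (mo := mog) (C1 := cd1q1) (C2 := cd4q1) (C3 := pd0)
    rfl (fun _ => rfl) k0_mm_101

noncomputable def f_mm_102 : ℕ → ℕ → ℕ → ℕ → Bool := onCell 536870912 536870912 1073741824 536870912 1033476505 6710887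
    (rowB 3 eng mog cd1q1 cd4q2 pd0 0 false false false .npp 1 0 2 (qsf 536870912 536870912 1073741824 536870912 0) ndB1q1 ndB4q2 pcB0 Cut.none Ext.none)

def k0_mm_102 : ∃ t, chk3 f_mm_102 t 1 1 1 = true :=
  ⟨(l 3), by decide +kernel⟩

theorem c_mm_102 : CertB 536870912 536870912 1073741824 536870912 1033476505 6710887 3 eng mog cd1q1 cd4q2 pd0 false false false .npp 1 0 2
    ndB1q1 ndB4q2 pcB0 Cut.none Ext.none :=
  certB0 (fam := false) (s1 := false) (s2 := false) (a := 1) (b := 0) (c := 2) (cn := .npp) (n1 := ndB1q1) (n2 := ndB4q2) (pc := pcB0) (cut := Cut.none) (xt := Ext.none) (P1 := 536870912) (W1 := 536870912) (P2 := 1073741824) (W2 := 536870912) (P3 := 1033476505) (W3 := 6710887) (N0 := 3) (En := eng) (mo := mog) (C1 := cd1q1) (C2 := cd4q2) (C3 := pd0)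
    rfl k0_mm_102

noncomputable def f_mm_112 : ℕ → ℕ → ℕ → ℕ → Bool := onCell 536870912 536870912 1073741824 536870912 1033476505 6710887
    (rowB 3 eng mog cd1q1 cd4q2 pd1 0 false false false .dn 1 1 2 (qsf 536870912 536870912 1073741824 536870912 1) ndB1q1 ndB4q2 pcB1 Cut.none Ext.none)

def k0_mm_112 : ∃ t, chk3 f_mm_112 t 1 1 1 = true :=
  ⟨(l 3), by decide +kernel⟩

theorem c_mm_112 : CertB 536870912 536870912 1073741824 536870912 1033476505 6710887 3 eng mog cd1q1 cd4q2 pd1 false false false .dn 1 1 2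
    ndB1q1 ndB4q2 pcB1 Cut.none Ext.none :=
  certB0 (fam := false) (s1 := false) (s2 := false) (a := 1) (b := 1) (c := 2) (cn := .dn) (n1 := ndB1q1) (n2 := ndB4q2) (pc := pcB1) (cut := Cut.none) (xt := Ext.none) (P1 := 536870912) (W1 := 536870912) (P2 := 1073741824) (W2 := 536870912) (P3 := 1033476505) (W3 := 6710887) (N0 := 3) (En := eng) (mo := mog) (C1 := cd1q1) (C2 := cd4q2) (C3 := pd1)
    rfl k0_mm_112

noncomputable def f_mm_113 : ℕ → ℕ → ℕ → ℕ → Bool := onCell 536870912 536870912 0 1230186008 1033476505 6710887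
    (rowB 3 eng mog cd1q1 cd4q3 pd1 0 false false false .nn 1 1 3 (qsf 536870912 536870912 0 1230186008 1) ndB1q1 ndB4q3 pcB1 Cut.none Ext.none)

def k0_mm_113 : ∃ t, chk3 f_mm_113 t 1 1 1 = true :=
  ⟨(b (l 5) (l 5)), by decide +kernel⟩

theorem c_mm_113 : CertB 536870912 536870912 0 1230186008 1033476505 6710887 3 eng mog cd1q1 cd4q3 pd1 false false false .nn 1 1 3
    ndB1q1 ndB4q3 pcB1 Cut.none Ext.none :=
  certB0 (fam := false) (s1 := false) (s2 := false) (a := 1) (b := 1) (c := 3) (cn := .nn) (n1 := ndB1q1) (n2 := ndB4q3) (pc := pcB1) (cut := Cut.none) (xt := Ext.none) (P1 := 536870912) (W1 := 536870912) (P2 := 0) (W2 := 1230186008) (P3 := 1033476505) (W3 := 6710887) (N0 := 3) (En := eng) (mo := mog) (C1 := cd1q1) (C2 := cd4q3) (C3 := pd1)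
    rfl k0_mm_113

noncomputable def f_mm_123 : ℕ → ℕ → ℕ → ℕ → Bool := onCell 536870912 536870912 0 1230186008 1033476505 6710887
    (rowB 3 eng mog cd1q1 cd4q3 pd2 0 false false false .npn 1 2 3 (qsf 536870912 536870912 0 1230186008 2) ndB1q1 ndB4q3 pcB2 Cut.none Ext.none)

def k0_mm_123 : ∃ t, chk3 f_mm_123 t 1 1 1 = true :=
  ⟨(b (l 5) (l 5)), by decide +kernel⟩

theorem c_mm_123 : CertB 536870912 536870912 0 1230186008 1033476505 6710887 3 eng mog cd1q1 cd4q3 pd2 false false false .npn 1 2 3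
    ndB1q1 ndB4q3 pcB2 Cut.none Ext.none :=
  certB0 (fam := false) (s1 := false) (s2 := false) (a := 1) (b := 2) (c := 3) (cn := .npn) (n1 := ndB1q1) (n2 := ndB4q3) (pc := pcB2) (cut := Cut.none) (xt := Ext.none) (P1 := 536870912) (W1 := 536870912) (P2 := 0) (W2 := 1230186008) (P3 := 1033476505) (W3 := 6710887) (N0 := 3) (En := eng) (mo := mog) (C1 := cd1q1) (C2 := cd4q3) (C3 := pd2)
    rfl k0_mm_123

noncomputable def f_mm_133 : ℕ → ℕ → ℕ → ℕ → Bool := onCell 536870912 536870912 0 1230186008 1033476505 6710887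
    (rowB 3 eng mog cd1q1 cd4q3 pd3 0 false false false .dn 1 3 3 (qsf 536870912 536870912 0 1230186008 3) ndB1q1 ndB4q3 pcB3 Cut.none Ext.none)

def k0_mm_133 : ∃ t, chk3 f_mm_133 t 1 1 1 = true :=
  ⟨(b (l 5) (l 1)), by decide +kernel⟩

theorem c_mm_133 : CertB 536870912 536870912 0 1230186008 1033476505 6710887 3 eng mog cd1q1 cd4q3 pd3 false false false .dn 1 3 3
    ndB1q1 ndB4q3 pcB3 Cut.none Ext.none :=
  certB0 (fam := false) (s1 := false) (s2 := false) (a := 1) (b := 3) (c := 3) (cn := .dn) (n1 := ndB1q1) (n2 := ndB4q3) (pc := pcB3) (cut := Cut.none) (xt := Ext.none) (P1 := 536870912) (W1 := 536870912) (P2 := 0) (W2 := 1230186008) (P3 := 1033476505) (W3 := 6710887) (N0 := 3) (En := eng) (mo := mog) (C1 := cd1q1) (C2 := cd4q3) (C3 := pd3)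
    rfl k0_mm_133

noncomputable def f_mm_202_a : ℕ → ℕ → ℕ → ℕ → Bool := onCell 0 536870912 0 536870912 1033476505 6710887
    (rowB 3 eng mog cd1q2a cd4q2 pd0 1 false false false .pp 2 0 2 (qsf 0 536870912 1073741824 536870912 0) ndB1q2a ndB4q2 pcB0 Cut.none Ext.none)

def k0_mm_202_a : ∃ t, chk3 f_mm_202_a t 1 1 1 = true :=
  ⟨(a (b (a (b (a (b (b (b (b (a (b (l 16389864) (l 16420696)) (l 119889126999)) (a (l 16460912) (l 16451608))) (a (b (a (l 16399264) (l 16411568)) (a (l 16338584) (l 16341440))) (l 16243296))) (a (b (b (l 16274408) (a (l 16214712) (l 16211056))) (a (l 16120888) (l 16116144))) (l 3))) (b (b (l 163374759815) (b (l 216524886023) (l 3))) (l 3))) (l 3)) (l 3)) (l 3)) (l 3)) (l 3)), by decide +kernel⟩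

theorem c_mm_202_a : CertB 0 536870912 1073741824 536870912 1033476505 6710887 3 eng mog cd1q2a cd4q2 pd0 false false false .pp 2 0 2
    ndB1q2a ndB4q2 pcB0 Cut.none Ext.none :=
  certB1 (fam := false) (s1 := false) (s2 := false) (a := 2) (b := 0) (c := 2) (cn := .pp) (n1 := ndB1q2a) (n2 := ndB4q2) (pc := pcB0) (cut := Cut.none) (xt := Ext.none) (P1 := 0) (W1 := 536870912) (P2 := 1073741824) (W2 := 536870912) (P3 := 1033476505) (W3 := 6710887) (N0 := 3) (En := eng) (mo := mog) (C1 := cd1q2a) (C2 := cd4q2) (C3 := pd0)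
    rfl (fun _ => rfl) k0_mm_202_a

noncomputable def f_mm_202_b : ℕ → ℕ → ℕ → ℕ → Bool := onCell 1239849684 370763052 0 536870912 1033476505 6710887
    (rowB 3 eng mog cd1q2b cd4q2 pd0 1 false false false .pp 2 0 2 (qsf 1239849684 370763052 1073741824 536870912 0) ndB1q2b ndB4q2 pcB0 Cut.none Ext.none)

def k0_mm_202_b : ∃ t, chk3 f_mm_202_b t 1 1 1 = true :=
  ⟨(b (a (b (a (a (b (b (b (b (l 16232824) (a (l 16351832) (l 16190464))) (b (a (l 16286584) (l 16137048)) (a (l 16206400) (l 16077472)))) (b (b (a (l 16187768) (l 16018504)) (a (l 16128984) (l 15962080))) (a (l 16040224) (l 15878584)))) (b (a (b (l 15931488) (l 15739456)) (l 3)) (l 3))) (b (b (b (b (l 15904688) (l 15916704)) (l 15770584)) (l 186996196503)) (l 3))) (b (a (b (l 3) (l 3)) (l 3)) (l 3))) (l 3)) (l 3)) (b (l 3) (l 2))), by decide +kernel⟩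

theorem c_mm_202_b : CertB 1239849684 370763052 1073741824 536870912 1033476505 6710887 3 eng mog cd1q2b cd4q2 pd0 false false false .pp 2 0 2
    ndB1q2b ndB4q2 pcB0 Cut.none Ext.none :=
  certB1 (fam := false) (s1 := false) (s2 := false) (a := 2) (b := 0) (c := 2) (cn := .pp) (n1 := ndB1q2b) (n2 := ndB4q2) (pc := pcB0) (cut := Cut.none) (xt := Ext.none) (P1 := 1239849684) (W1 := 370763052) (P2 := 1073741824) (W2 := 536870912) (P3 := 1033476505) (W3 := 6710887) (N0 := 3) (En := eng) (mo := mog) (C1 := cd1q2b) (C2 := cd4q2) (C3 := pd0)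
    rfl (fun _ => rfl) k0_mm_202_b

noncomputable def f_mm_203_a : ℕ → ℕ → ℕ → ℕ → Bool := onCell 0 536870912 0 1230186008 1033476505 6710887
    (rowB 3 eng mog cd1q2a cd4q3 pd0 0 false false false .up 2 0 3 (qsf 0 536870912 0 1230186008 0) ndB1q2a ndB4q3 pcB0 Cut.none Ext.none)

def k0_mm_203_a : ∃ t, chk3 f_mm_203_a t 1 1 1 = true :=
  ⟨(b (l 2) (l 3)), by decide +kernel⟩

theorem c_mm_203_a : CertB 0 536870912 0 1230186008 1033476505 6710887 3 eng mog cd1q2a cd4q3 pd0 false false false .up 2 0 3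
    ndB1q2a ndB4q3 pcB0 Cut.none Ext.none :=
  certB0 (fam := false) (s1 := false) (s2 := false) (a := 2) (b := 0) (c := 3) (cn := .up) (n1 := ndB1q2a) (n2 := ndB4q3) (pc := pcB0) (cut := Cut.none) (xt := Ext.none) (P1 := 0) (W1 := 536870912) (P2 := 0) (W2 := 1230186008) (P3 := 1033476505) (W3 := 6710887) (N0 := 3) (En := eng) (mo := mog) (C1 := cd1q2a) (C2 := cd4q3) (C3 := pd0)
    rfl k0_mm_203_a

noncomputable def f_mm_203_b : ℕ → ℕ → ℕ → ℕ → Bool := onCell 0 536870912 0 1230186008 1033476505 6710887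
    (rowB 3 eng mog cd1q2b cd4q3 pd0 2 false false false .up 2 0 3 (qsf 1239849684 370763052 0 1230186008 0) ndB1q2b ndB4q3 pcB0 Cut.none Ext.none)

def k0_mm_203_b : ∃ t, chk3 f_mm_203_b t 1 1 1 = true :=
  ⟨(b (l 3) (l 3)), by decide +kernel⟩

theorem c_mm_203_b : CertB 1239849684 370763052 0 1230186008 1033476505 6710887 3 eng mog cd1q2b cd4q3 pd0 false false false .up 2 0 3
    ndB1q2b ndB4q3 pcB0 Cut.none Ext.none :=
  certB2 (fam := false) (s1 := false) (s2 := false) (a := 2) (b := 0) (c := 3) (cn := .up) (n1 := ndB1q2b) (n2 := ndB4q3) (pc := pcB0) (cut := Cut.none) (xt := Ext.none) (P1 := 1239849684) (W1 := 370763052) (P2 := 0) (W2 := 1230186008) (P3 := 1033476505) (W3 := 6710887) (N0 := 3) (En := eng) (mo := mog) (C1 := cd1q2b) (C2 := cd4q3) (C3 := pd0)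
    rfl (fun _ => rfl) k0_mm_203_b

noncomputable def f_mm_213_a : ℕ → ℕ → ℕ → ℕ → Bool := onCell 0 536870912 0 1230186008 1033476505 6710887
    (rowB 3 eng mog cd1q2a cd4q3 pd1 0 false false false .pnn 2 1 3 (qsf 0 536870912 0 1230186008 1) ndB1q2a ndB4q3 pcB1 Cut.none Ext.none)

def k0_mm_213_a : ∃ t, chk3 f_mm_213_a t 1 1 1 = true :=
  ⟨(b (a (l 3) (l 5)) (l 3)), by decide +kernel⟩

theorem c_mm_213_a : CertB 0 536870912 0 1230186008 1033476505 6710887 3 eng mog cd1q2a cd4q3 pd1 false false false .pnn 2 1 3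
    ndB1q2a ndB4q3 pcB1 Cut.none Ext.none :=
  certB0 (fam := false) (s1 := false) (s2 := false) (a := 2) (b := 1) (c := 3) (cn := .pnn) (n1 := ndB1q2a) (n2 := ndB4q3) (pc := pcB1) (cut := Cut.none) (xt := Ext.none) (P1 := 0) (W1 := 536870912) (P2 := 0) (W2 := 1230186008) (P3 := 1033476505) (W3 := 6710887) (N0 := 3) (En := eng) (mo := mog) (C1 := cd1q2a) (C2 := cd4q3) (C3 := pd1)
    rfl k0_mm_213_a

noncomputable def f_mm_213_b : ℕ → ℕ → ℕ → ℕ → Bool := onCell 1239849684 370763052 0 1230186008 1033476505 6710887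
    (rowB 3 eng mog cd1q2b cd4q3 pd1 0 false false false .pnn 2 1 3 (qsf 1239849684 370763052 0 1230186008 1) ndB1q2b ndB4q3 pcB1 Cut.none Ext.none)

def k0_mm_213_b : ∃ t, chk3 f_mm_213_b t 1 1 1 = true :=
  ⟨(b (l 3) (b (l 3) (l 3))), by decide +kernel⟩

theorem c_mm_213_b : CertB 1239849684 370763052 0 1230186008 1033476505 6710887 3 eng mog cd1q2b cd4q3 pd1 false false false .pnn 2 1 3
    ndB1q2b ndB4q3 pcB1 Cut.none Ext.none :=
  certB0 (fam := false) (s1 := false) (s2 := false) (a := 2) (b := 1) (c := 3) (cn := .pnn) (n1 := ndB1q2b) (n2 := ndB4q3) (pc := pcB1) (cut := Cut.none) (xt := Ext.none) (P1 := 1239849684) (W1 := 370763052) (P2 := 0) (W2 := 1230186008) (P3 := 1033476505) (W3 := 6710887) (N0 := 3) (En := eng) (mo := mog) (C1 := cd1q2b) (C2 := cd4q3) (C3 := pd1)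
    rfl k0_mm_213_b

noncomputable def f_mm_303 : ℕ → ℕ → ℕ → ℕ → Bool := onCell 0 536870912 0 1230186008 1033476505 6710887
    (rowB 3 eng mog cd1q3 cd4q3 pd0 2 false false false .npn 3 0 3 (qsf 1610612736 536870912 0 1230186008 0) ndB1q3 ndB4q3 pcB0 Cut.none Ext.none)

def k0_mm_303 : ∃ t, chk3 f_mm_303 t 1 1 1 = true :=
  ⟨(b (l 3) (l 3)), by decide +kernel⟩

theorem c_mm_303 : CertB 1610612736 536870912 0 1230186008 1033476505 6710887 3 eng mog cd1q3 cd4q3 pd0 false false false .npn 3 0 3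
    ndB1q3 ndB4q3 pcB0 Cut.none Ext.none :=
  certB2 (fam := false) (s1 := false) (s2 := false) (a := 3) (b := 0) (c := 3) (cn := .npn) (n1 := ndB1q3) (n2 := ndB4q3) (pc := pcB0) (cut := Cut.none) (xt := Ext.none) (P1 := 1610612736) (W1 := 536870912) (P2 := 0) (W2 := 1230186008) (P3 := 1033476505) (W3 := 6710887) (N0 := 3) (En := eng) (mo := mog) (C1 := cd1q3) (C2 := cd4q3) (C3 := pd0)
    rfl (fun _ => rfl) k0_mm_303

noncomputable def f_mm_313 : ℕ → ℕ → ℕ → ℕ → Bool := onCell 1610612736 536870912 0 1230186008 1033476505 6710887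
    (rowB 3 eng mog cd1q3 cd4q3 pd1 0 false false false .dn 3 1 3 (qsf 1610612736 536870912 0 1230186008 1) ndB1q3 ndB4q3 pcB1 Cut.none Ext.none)

def k0_mm_313 : ∃ t, chk3 f_mm_313 t 1 1 1 = true :=
  ⟨(b (l 3) (l 1)), by decide +kernel⟩

theorem c_mm_313 : CertB 1610612736 536870912 0 1230186008 1033476505 6710887 3 eng mog cd1q3 cd4q3 pd1 false false false .dn 3 1 3
    ndB1q3 ndB4q3 pcB1 Cut.none Ext.none :=
  certB0 (fam := false) (s1 := false) (s2 := false) (a := 3) (b := 1) (c := 3) (cn := .dn) (n1 := ndB1q3) (n2 := ndB4q3) (pc := pcB1) (cut := Cut.none) (xt := Ext.none) (P1 := 1610612736) (W1 := 536870912) (P2 := 0) (W2 := 1230186008) (P3 := 1033476505) (W3 := 6710887) (N0 := 3) (En := eng) (mo := mog) (C1 := cd1q3) (C2 := cd4q3) (C3 := pd1)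
    rfl k0_mm_313

end Pool.Agent.Strip051.G.I9625_9688.Tab.C.BB14

namespace Pool.Agent.Strip051.G.I9625_9688.Tab.C.BB15

open Pool.Agent.Strip051.PB Pool.Agent.Strip051.PB.T
open Pool.Agent.Strip051.G.I9625_9688.Tab

noncomputable def f_pp_001 : ℕ → ℕ → ℕ → ℕ → Bool := onCell 0 536870912 0 536870912 1033476505 6710887
    (rowB 3 eng mog cd1q0 cd5q1 pd0 1 false true true .up 0 0 1 (qsf 0 536870912 536870912 536870912 0) ndB1q0 ndB5q1 pcB0 Cut.none Ext.none)

def k0_pp_001 : ∃ t, chk3 f_pp_001 t 1 1 1 = true :=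
  ⟨(l 3), by decide +kernel⟩

theorem c_pp_001 : CertB 0 536870912 536870912 536870912 1033476505 6710887 3 eng mog cd1q0 cd5q1 pd0 false true true .up 0 0 1
    ndB1q0 ndB5q1 pcB0 Cut.none Ext.none :=
  certB1 (fam := false) (s1 := true) (s2 := true) (a := 0) (b := 0) (c := 1) (cn := .up) (n1 := ndB1q0) (n2 := ndB5q1) (pc := pcB0) (cut := Cut.none) (xt := Ext.none) (P1 := 0) (W1 := 536870912) (P2 := 536870912) (W2 := 536870912) (P3 := 1033476505) (W3 := 6710887) (N0 := 3) (En := eng) (mo := mog) (C1 := cd1q0) (C2 := cd5q1) (C3 := pd0)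
    rfl (fun _ => rfl) k0_pp_001

noncomputable def cut_pp_011 : Cut := Cut.of [[⟨0, 0, 0, 33554432⟩, ⟨1, 1, 0, 33554432⟩, ⟨2, 1, 0, 33554432⟩]]

noncomputable def f_pp_011 : ℕ → ℕ → ℕ → ℕ → Bool := onCell 0 536870912 536870912 536870912 1033476505 6710887
    (rowB 3 eng mog cd1q0 cd5q1 pd1 1 false true true .pnn 0 1 1 (qsf 0 536870912 536870912 536870912 1) ndB1q0 ndB5q1 pcB1 cut_pp_011 Ext.none)

def k0_pp_011 : ∃ t, chk3 f_pp_011 t 1 1 1 = true :=
  ⟨(a (b (l 3) (b (l 3) (b (l 3) (b (l 3) (a (a (a (b (l 3) (a (l 6) (l 3))) (l 3)) (l 2)) (l 2)))))) (l 3)), by decide +kernel⟩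

theorem c_pp_011 : CertB 0 536870912 536870912 536870912 1033476505 6710887 3 eng mog cd1q0 cd5q1 pd1 false true true .pnn 0 1 1
    ndB1q0 ndB5q1 pcB1 cut_pp_011 Ext.none :=
  certB1 (fam := false) (s1 := true) (s2 := true) (a := 0) (b := 1) (c := 1) (cn := .pnn) (n1 := ndB1q0) (n2 := ndB5q1) (pc := pcB1) (cut := cut_pp_011) (xt := Ext.none) (P1 := 0) (W1 := 536870912) (P2 := 536870912) (W2 := 536870912) (P3 := 1033476505) (W3 := 6710887) (N0 := 3) (En := eng) (mo := mog) (C1 := cd1q0) (C2 := cd5q1) (C3 := pd1)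
    rfl (fun _ => rfl) k0_pp_011

noncomputable def cut_pp_012 : Cut := Cut.of [[⟨0, 0, 0, 33554432⟩, ⟨1, 1, 0, 33554432⟩, ⟨2, 1, 0, 33554432⟩]]

noncomputable def f_pp_012 : ℕ → ℕ → ℕ → ℕ → Bool := onCell 0 536870912 536870912 536870912 1033476505 6710887
    (rowB 3 eng mog cd1q0 cd5q2 pd1 1 false true true .pnp 0 1 2 (qsf 0 536870912 1073741824 536870912 1) ndB1q0 ndB5q2 pcB1 cut_pp_012 Ext.none)

def k0_pp_012 : ∃ t, chk3 f_pp_012 t 1 1 1 = true :=
  ⟨(a (b (l 3) (b (l 3) (b (l 3) (a (b (l 3) (a (a (a (b (l 3) (l 6)) (l 3)) (l 3)) (l 3))) (l 3))))) (l 3)), by decide +kernel⟩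

theorem c_pp_012 : CertB 0 536870912 1073741824 536870912 1033476505 6710887 3 eng mog cd1q0 cd5q2 pd1 false true true .pnp 0 1 2
    ndB1q0 ndB5q2 pcB1 cut_pp_012 Ext.none :=
  certB1 (fam := false) (s1 := true) (s2 := true) (a := 0) (b := 1) (c := 2) (cn := .pnp) (n1 := ndB1q0) (n2 := ndB5q2) (pc := pcB1) (cut := cut_pp_012) (xt := Ext.none) (P1 := 0) (W1 := 536870912) (P2 := 1073741824) (W2 := 536870912) (P3 := 1033476505) (W3 := 6710887) (N0 := 3) (En := eng) (mo := mog) (C1 := cd1q0) (C2 := cd5q2) (C3 := pd1)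
    rfl (fun _ => rfl) k0_pp_012

noncomputable def cut_pp_022 : Cut := Cut.of [[⟨0, 0, 0, 33554432⟩, ⟨1, 1, 0, 33554432⟩, ⟨2, 1, 0, 33554432⟩]]

noncomputable def f_pp_022 : ℕ → ℕ → ℕ → ℕ → Bool := onCell 0 536870912 1073741824 536870912 1033476505 6710887
    (rowB 3 eng mog cd1q0 cd5q2 pd2 1 false true true .pp 0 2 2 (qsf 0 536870912 1073741824 536870912 2) ndB1q0 ndB5q2 pcB2 cut_pp_022 Ext.none)

def k0_pp_022 : ∃ t, chk3 f_pp_022 t 4 16 1 = true :=
  ⟨(a (a (b (a (b (l 6) (a (l 6) (b (l 6) (a (l 6) (b (l 6) (a (l 6) (l 16730664))))))) (b (l 3) (b (l 3) (a (b (a (b (a (l 6) (l 3)) (a (l 16764216) (l 16767160))) (l 3)) (a (a (l 16737016) (l 16763072)) (a (l 16766184) (l 3)))) (l 3))))) (a (a (b (a (l 6) (b (l 6) (l 16710448))) (a (l 16671200) (l 16671560))) (b (b (b (a (l 6) (l 16722144)) (l 16711192)) (l 16701976)) (b (l 16709896) (l 16696264)))) (b (a (b (a (b (a (l 16749304) (l 16755408)) (l 16723984)) (b (a (l 16760840) (l 16764552)) (l 16755808))) (a (l 16720488) (b (l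 16726816) (l 16741208)))) (b (b (l 3) (a (l 16763832) (l 3))) (b (a (l 16758552) (l 16762032)) (a (l 16751560) (l 16757904))))) (b (a (a (l 16721768) (l 16709656)) (a (b (l 16743432) (l 16712864)) (l 16750000))) (a (l 16709848) (a (l 16700008) (b (l 16713216) (l 16723816)))))))) (a (b (l 3) (b (b (l 3) (b (l 3) (a (a (l 16760480) (l 3)) (l 3)))) (b (a (b (a (l 16755408) (l 3)) (b (l 16753824) (l 16752264))) (l 3)) (a (b (l 16751376) (l 16743832)) (b (l 16732552) (l 16747992)))))) (l 3))) (l 3)), by decide +kernel⟩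

def k1_pp_022 : ∃ t, chk3 f_pp_022 t 4 17 1 = true :=
  ⟨(a (b (a (b (a (a (a (l 16675992) (l 16672032)) (l 16678040)) (b (a (l 16695784) (l 16687360)) (l 16667096))) (a (a (l 16637936) (l 16657328)) (a (l 16665440) (l 16673240)))) (a (b (b (a (b (l 16710656) (l 16688456)) (b (l 16744528) (l 16743912))) (a (b (l 16678168) (l 16679296)) (l 16690496))) (a (b (l 16687320) (l 16672368)) (b (a (l 16674224) (l 16709600)) (a (l 16674944) (l 16658192))))) (a (b (b (a (l 16723736) (l 3)) (b (l 16738920) (l 16737024))) (b (l 16714008) (l 16653056))) (b (l 3) (b (b (l 16739472) (l 16741464)) (l 16679016)))))) (a (a (a (l 16642424) (b (l 16639192) (l 16622928))) (b (l 16646368) (l 16623944))) (a (b (l 16651872) (l 16622536)) (b (a (b (a (l 16660064) (l 16664616)) (l 16639944)) (b (l 16675840) (b (l 16646616) (l 16628512)))) (a (l 16587592) (b (l 16589296) (l 16589992))))))) (b (a (b (l 3) (a (b (l 3) (a (b (l 16739488) (l 16720392)) (l 3))) (l 3))) (l 3)) (a (b (a (b (a (l 16638848) (l 251423102855))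 (a (l 16641216) (l 90898607415))) (a (b (l 3) (l 285782789447)) (l 3))) (a (b (a (l 16605696) (l 16615096)) (a (l 16584256) (l 16593768))) (b (a (b (l 16644864) (l 16633424)) (l 384030169223)) (a (l 16619480) (l 16655496))))) (b (l 3) (b (l 3) (a (l 16646448) (l 3))))))), by decide +kernel⟩

def k2_pp_022 : ∃ t, chk3 f_pp_022 t 5 8 1 = true :=
  ⟨(l 3), by decide +kernel⟩

def k3_pp_022 : ∃ t, chk3 f_pp_022 t 4 9 1 = true :=
  ⟨(a (b (a (a (b (b (l 16576488) (l 16609784)) (a (l 16593760) (l 16581736))) (b (b (l 16601832) (l 16536888)) (a (b (l 16559952) (l 16539816)) (b (l 16541120) (l 16514680))))) (b (a (b (a (l 16595704) (l 16584160)) (a (l 16561808) (l 16552496))) (b (a (l 16574688) (l 16565712)) (a (l 16543688) (l 16548072)))) (a (b (a (l 16531616) (l 16523128)) (l 16483088)) (b (a (l 16527824) (l 16548688)) (a (l 16529768) (l 16560536)))))) (a (b (a (b (a (l 16559728) (l 16558176)) (l 16477968)) (b (a (l 16525368) (l 16493736)) (l 16461384))) (a (b (l 16456912) (l 16489264))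 (b (l 16456760) (l 16478784)))) (b (a (b (a (l 16490768) (l 16511336)) (a (l 16498656) (l 16524864))) (b (a (l 16542624) (l 16582704)) (l 16586472))) (a (b (a (l 16525896) (l 16552328)) (l 16533056)) (b (l 16556224) (l 16491512)))))) (b (a (b (b (a (a (b (l 16572872) (l 16567656)) (b (l 16587776) (l 16589672))) (b (a (l 16611912) (l 16644560)) (l 16609432))) (a (a (l 16568632) (b (l 16596064) (l 16604840))) (b (a (l 16628952) (l 16654600)) (a (l 16640512) (l 16673736))))) (a (b (a (l 16579040) (l 16618216)) (l 16599536)) (b (b (l 16606680) (l 16654288)) (l 16609920)))) (b (b (a (b (l 16638040) (l 16630128)) (l 3)) (a (b (l 16674576) (l 16676496)) (b (l 16610176) (l 16611256)))) (b (a (b (l 16638032) (a (l 16609384) (l 16589192))) (b (l 16602768) (l 16564600))) (a (b (l 16521616) (l 16529368)) (b (l 16521960) (l 16476296)))))) (b (a (a (l 16520496) (b (l 16548184) (l 16485656))) (b (a (l 16481672) (b (l 16437656) (l 16403096))) (l 16344912))) (a (a (l 16416072) (l 16390440)) (a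 (l 16325088) (l 16264240)))))), by decide +kernel⟩

def k4_pp_022 : ∃ t, chk3 f_pp_022 t 5 9 1 = true :=
  ⟨(b (a (b (a (b (l 3) (l 3)) (l 3)) (a (b (a (b (l 16552952) (l 16527176)) (l 16458568)) (a (l 16469208) (b (l 16449584) (l 16417448)))) (b (l 3) (a (l 16383792) (l 3))))) (l 3)) (b (a (a (b (a (b (l 16401288) (l 16354280)) (l 16351056)) (a (b (l 16315912) (l 16283312)) (b (l 16283368) (l 16240896)))) (b (a (l 16240336) (l 16292280)) (b (l 16253296) (l 16213264)))) (a (b (l 3) (b (l 16222464) (l 16199272))) (l 3))) (a (a (b (a (l 16238552) (l 16194336)) (l 16159832)) (b (a (l 16165120) (l 16153976)) (a (l 16110616) (l 16096672)))) (a (b (a (l 16156352) (l 16168936)) (l 16112080)) (b (a (l 16193320) (l 3)) (l 202566681623)))))), by decide +kernel⟩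

def k5_pp_022 : ∃ t, chk3 f_pp_022 t 2 5 1 = true :=
  ⟨(a (b (a (b (a (b (a (b (a (l 16449312) (l 16463576)) (l 16325184)) (b (a (l 16468096) (l 16462632)) (l 16380168))) (b (a (a (l 16303072) (l 16297112)) (l 16285832)) (b (a (l 16223352) (l 16204488)) (b (l 16122624) (a (l 16138536) (l 16114880)))))) (b (b (a (l 16450472) (l 16399104)) (a (l 16361264) (l 16334176))) (b (a (l 16261808) (l 16233560)) (b (l 16163848) (b (l 16109920) (l 16071456)))))) (a (a (b (l 16065400) (l 15947664)) (b (l 16039824) (l 15924184))) (b (a (l 16012200) (l 15984288)) (l 15889736)))) (b (b (a (a (b (l 16362192) (l 16291240)) (l 16263344)) (a (l 16201416) (l 16146608))) (b (a (a (l 16205128) (l 16161776)) (l 16086416)) (b (a (l 16106504) (l 16037920)) (a (b (l 16051888) (l 16013376)) (b (l 16004984) (l 15973192)))))) (a (b (l 15947296) (l 15855744)) (b (l 15918608) (l 15849400))))) (a (b (a (a (b (l 15832904) (l 15723256)) (l 15761256)) (b (l 15789696) (l 15700312))) (a (b (l 15618808) (l 15531400))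 (b (l 15623640) (l 15561616)))) (b (a (b (l 15776920) (l 15713376)) (a (l 15757400) (l 15766240))) (a (a (l 15627504) (l 15645176)) (l 15627944))))) (b (b (b (a (a (l 16061640) (b (l 16060728) (l 16024368))) (a (b (l 16056320) (l 16061976)) (b (l 16167024) (a (l 16127544) (l 16185192))))) (b (a (a (l 16011184) (l 15992312)) (a (l 16046248) (l 16153120))) (a (a (b (l 15977688) (b (l 15960328) (l 15946896))) (l 15966184)) (a (l 16034656) (l 16143416))))) (a (a (b (l 15908592) (l 15855944)) (b (l 15940600) (l 15917368))) (a (b (l 16023496) (l 16025784)) (l 16141224)))) (a (a (b (b (l 15823144) (l 15798448)) (b (l 15784944) (l 15784064))) (b (b (l 15905408) (l 15906160)) (l 15901048))) (b (l 15978952) (l 16081424))))), by decide +kernel⟩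

def k6_pp_022 : ∃ t, chk3 f_pp_022 t 2 3 1 = true :=
  ⟨(a (b (a (b (a (b (l 15404352) (l 15339952)) (b (a (l 15476672) (l 15517432)) (a (l 15428136) (l 15468624)))) (a (b (a (l 15285792) (l 15344792)) (a (l 15271224) (l 15327592))) (b (l 15410896) (l 15399696)))) (b (a (b (b (l 15583904) (l 15558944)) (l 15489192)) (b (b (l 15663328) (l 15660688)) (l 15650360))) (a (l 15517072) (l 15630928)))) (a (b (a (l 15267584) (l 15366872)) (a (l 15207272) (l 15309776))) (b (a (l 15477008) (l 15592336)) (a (l 15414944) (l 2))))) (b (a (b (b (l 15837120) (l 15828424)) (a (l 15750912) (l 15869632))) (b (a (l 16014072) (l 16131416)) (a (l 15985568) (l 2)))) (a (b (a (l 15706440) (l 2)) (l 2)) (l 2)))), by decide +kernel⟩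

def k7_pp_022 : ∃ t, chk3 f_pp_022 t 3 1 1 = true :=
  ⟨(b (a (b (b (l 3) (b (l 3) (b (l 3) (a (b (l 3) (a (l 3) (l 3))) (l 3))))) (b (b (b (a (b (a (l 16280264) (l 3)) (a (l 16267808) (l 16375064))) (a (b (l 3) (l 16481648)) (l 3))) (b (a (a (l 16262728) (l 16372552)) (a (l 16479856) (l 16581568))) (b (a (a (l 16259688) (l 16371632)) (a (l 16479552) (l 16580936))) (a (a (l 16256176) (l 16369688)) (a (l 16478856) (l 16580600)))))) (a (a (l 16256736) (l 16370768)) (a (l 16479712) (l 16579664)))) (a (b (l 16233264) (l 16271416)) (a (l 16474056) (l 2))))) (b (l 3) (b (b (b (l 3) (l 2)) (l 2)) (l 2)))) (a (b (a (b (a (l 16243368) (l 2)) (l 2)) (l 2)) (l 2)) (l 2))), by decide +kernel⟩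

theorem s8_pp_022 : ∃ t, chk3 f_pp_022 t 2 9 1 = true := ex3_a k3_pp_022 k4_pp_022

theorem s9_pp_022 : ∃ t, chk3 f_pp_022 t 4 8 1 = true := ex3_b k0_pp_022 k1_pp_022

theorem s10_pp_022 : ∃ t, chk3 f_pp_022 t 2 8 1 = true := ex3_a s9_pp_022 k2_pp_022

theorem s11_pp_022 : ∃ t, chk3 f_pp_022 t 2 4 1 = true := ex3_b s10_pp_022 s8_pp_022

theorem s12_pp_022 : ∃ t, chk3 f_pp_022 t 2 2 1 = true := ex3_b s11_pp_022 k5_pp_022

theorem s13_pp_022 : ∃ t, chk3 f_pp_022 t 2 1 1 = true := ex3_b s12_pp_022 k6_pp_022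

theorem s14_pp_022 : ∃ t, chk3 f_pp_022 t 1 1 1 = true := ex3_a s13_pp_022 k7_pp_022

theorem c_pp_022 : CertB 0 536870912 1073741824 536870912 1033476505 6710887 3 eng mog cd1q0 cd5q2 pd2 false true true .pp 0 2 2
    ndB1q0 ndB5q2 pcB2 cut_pp_022 Ext.none :=
  certB1 (fam := false) (s1 := true) (s2 := true) (a := 0) (b := 2) (c := 2) (cn := .pp) (n1 := ndB1q0) (n2 := ndB5q2) (pc := pcB2) (cut := cut_pp_022) (xt := Ext.none) (P1 := 0) (W1 := 536870912) (P2 := 1073741824) (W2 := 536870912) (P3 := 1033476505) (W3 := 6710887) (N0 := 3) (En := eng) (mo := mog) (C1 := cd1q0) (C2 := cd5q2) (C3 := pd2)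
    rfl (fun _ => rfl) s14_pp_022

noncomputable def f_pp_023 : ℕ → ℕ → ℕ → ℕ → Bool := onCell 1073741824 536870912 0 1230186008 1033476505 6710887
    (rowB 3 eng mog cd1q0 cd5q3 pd2 2 false true true .up 0 2 3 (qsf 0 536870912 0 1230186008 2) ndB1q0 ndB5q3 pcB2 Cut.none Ext.none)

def k0_pp_023 : ∃ t, chk3 f_pp_023 t 1 1 1 = true :=
  ⟨(b (a (l 2) (a (l 2) (b (b (a (l 2) (b (l 15187360) (l 15167320))) (b (l 15412424) (l 15616800))) (b (l 51101133111) (a (l 16121424) (l 16135008)))))) (b (a (a (l 2) (a (l 2) (b (l 2) (l 16547640)))) (a (b (a (l 2) (l 16751792)) (a (l 16583160) (b (l 16583976) (l 16695800)))) (b (a (l 16651616) (l 16411384)) (b (a (l 16655104) (l 16443520)) (l 16272824))))) (a (a (l 3) (a (a (a (l 3) (b (b (l 2) (a (l 3) (a (l 3) (l 16677008)))) (a (b (l 3) (b (l 3) (l 16603008))) (b (a (l 3) (l 16737864)) (a (b (l 16703408) (l 16605600)) (b (l 16692136) (l 16593304))))))) (b (b (l 16630288) (l 16708504)) (b (l 16747456) (b (l 16639888) (l 16536976))))) (b (b (l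 16676240) (l 16756016)) (b (l 16622984) (b (l 16488600) (l 16375944)))))) (b (a (b (l 16640528) (l 16480176)) (b (l 16193144) (l 15909456))) (b (a (b (l 16347984) (l 16248736)) (b (l 15809664) (l 15699240))) (a (b (l 16136304) (l 15927160)) (a (l 15642888) (l 15272184)))))))), by decide +kernel⟩

theorem c_pp_023 : CertB 0 536870912 0 1230186008 1033476505 6710887 3 eng mog cd1q0 cd5q3 pd2 false true true .up 0 2 3
    ndB1q0 ndB5q3 pcB2 Cut.none Ext.none :=
  certB2 (fam := false) (s1 := true) (s2 := true) (a := 0) (b := 2) (c := 3) (cn := .up) (n1 := ndB1q0) (n2 := ndB5q3) (pc := pcB2) (cut := Cut.none) (xt := Ext.none) (P1 := 0) (W1 := 536870912) (P2 := 0) (W2 := 1230186008) (P3 := 1033476505) (W3 := 6710887) (N0 := 3) (En := eng) (mo := mog) (C1 := cd1q0) (C2 := cd5q3) (C3 := pd2)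
    rfl (fun _ => rfl) k0_pp_023

noncomputable def f_pp_033 : ℕ → ℕ → ℕ → ℕ → Bool := onCell 1610612736 536870912 0 1230186008 1033476505 6710887
    (rowB 3 eng mog cd1q0 cd5q3 pd3 2 false true true .pnn 0 3 3 (qsf 0 536870912 0 1230186008 3) ndB1q0 ndB5q3 pcB3 Cut.none Ext.none)

def k0_pp_033 : ∃ t, chk3 f_pp_033 t 1 2 1 = true :=
  ⟨(b (a (a (b (a (b (l 15466880) (a (l 14920160) (l 15042376))) (b (l 16065904) (l 15497264))) (a (b (l 15017648) (l 15214320)) (b (a (l 14993160) (l 15116352)) (l 15074480)))) (b (a (b (a (l 16353000) (l 16364544)) (a (l 15928152) (l 16129432))) (a (b (l 4) (l 16197128)) (l 4))) (a (b (l 15497016) (a (l 15062896) (l 15182320))) (b (a (l 15885824) (l 15995272)) (l 15391400))))) (b (l 4) (a (a (b (a (l 15985432) (l 4)) (a (l 15795880) (l 15799208))) (l 4)) (l 4)))) (a (a (b (b (l 15342912) (l 15541240)) (a (l 15931736) (l 15717104))) (b (a (b (l 15161912) (l 15286352)) (b (a (l 15132560) (l 15226640)) (l 15209760))) (a (l 15519592) (l 15286600))))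 (b (a (a (a (b (l 15422752) (l 15038160)) (b (l 15560328) (b (l 15320584) (l 15193152)))) (a (b (l 15561408) (l 15337640)) (b (a (l 15492400) (l 4)) (a (l 15327208) (l 15277712))))) (a (a (b (l 4) (a (l 15205224) (l 4))) (l 4)) (l 4))) (a (a (a (l 15243648) (b (l 15173664) (l 15212120))) (a (b (b (l 15174008) (l 15141616)) (l 15133896)) (b (a (l 15142224) (l 15111872)) (a (l 15058216) (l 14998288))))) (a (a (b (a (l 15054976) (l 14977152)) (a (l 14924400) (l 14832920))) (a (b (l 14889784) (l 14717672)) (l 648033126807))) (b (l 4) (l 1))))))), by decide +kernel⟩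

def k1_pp_033 : ∃ t, chk3 f_pp_033 t 1 3 1 = true :=
  ⟨(b (a (b (a (b (a (l 16179248) (l 15960168)) (l 15957960)) (a (b (l 15721624) (l 15699760)) (b (l 15489104) (l 15435760)))) (a (b (l 15924656) (a (l 15978640) (l 15695664))) (b (a (l 15582824) (l 15290096)) (a (l 15394880) (l 14891488))))) (b (a (a (b (l 15259896) (l 15160776)) (b (a (l 15076080) (l 14928944)) (a (l 14934728) (l 14752384)))) (a (a (b (a (l 14790064) (l 1)) (l 1)) (l 1)) (l 1))) (a (a (b (a (l 15054208) (l 14887256)) (b (l 14812256) (l 14692320))) (b (a (l 14715840) (l 1)) (l 1))) (l 1)))) (a (b (a (b (a (l 15754096) (l 15430144)) (b (a (l 15519280) (l 15167240)) (l 15248392))) (b (a (l 15088088) (b (l 14846512) (l 14646264))) (a (b (l 14819232) (l 14772808)) (l 1)))) (a (b (a (l 15316392) (b (l 15040376) (l 15005784))) (a (b (l 15071224) (l 14984720)) (b (l 14841264) (l 1)))) (b (a (b (l 14752152) (l 1)) (l 1)) (l 1)))) (l 1))), by decide +kernel⟩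

theorem s2_pp_033 : ∃ t, chk3 f_pp_033 t 1 1 1 = true := ex3_b k0_pp_033 k1_pp_033

theorem c_pp_033 : CertB 0 536870912 0 1230186008 1033476505 6710887 3 eng mog cd1q0 cd5q3 pd3 false true true .pnn 0 3 3
    ndB1q0 ndB5q3 pcB3 Cut.none Ext.none :=
  certB2 (fam := false) (s1 := true) (s2 := true) (a := 0) (b := 3) (c := 3) (cn := .pnn) (n1 := ndB1q0) (n2 := ndB5q3) (pc := pcB3) (cut := Cut.none) (xt := Ext.none) (P1 := 0) (W1 := 536870912) (P2 := 0) (W2 := 1230186008) (P3 := 1033476505) (W3 := 6710887) (N0 := 3) (En := eng) (mo := mog) (C1 := cd1q0) (C2 := cd5q3) (C3 := pd3)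
    rfl (fun _ => rfl) s2_pp_033

noncomputable def f_pp_101 : ℕ → ℕ → ℕ → ℕ → Bool := onCell 536870912 536870912 0 536870912 1033476505 6710887
    (rowB 3 eng mog cd1q1 cd5q1 pd0 1 false true true .npn 1 0 1 (qsf 536870912 536870912 536870912 536870912 0) ndB1q1 ndB5q1 pcB0 Cut.none Ext.none)

def k0_pp_101 : ∃ t, chk3 f_pp_101 t 1 1 1 = true :=
  ⟨(l 3), by decide +kernel⟩

theorem c_pp_101 : CertB 536870912 536870912 536870912 536870912 1033476505 6710887 3 eng mog cd1q1 cd5q1 pd0 false true true .npn 1 0 1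
    ndB1q1 ndB5q1 pcB0 Cut.none Ext.none :=
  certB1 (fam := false) (s1 := true) (s2 := true) (a := 1) (b := 0) (c := 1) (cn := .npn) (n1 := ndB1q1) (n2 := ndB5q1) (pc := pcB0) (cut := Cut.none) (xt := Ext.none) (P1 := 536870912) (W1 := 536870912) (P2 := 536870912) (W2 := 536870912) (P3 := 1033476505) (W3 := 6710887) (N0 := 3) (En := eng) (mo := mog) (C1 := cd1q1) (C2 := cd5q1) (C3 := pd0)
    rfl (fun _ => rfl) k0_pp_101

noncomputable def f_pp_102 : ℕ → ℕ → ℕ → ℕ → Bool := onCell 536870912 536870912 1073741824 536870912 1033476505 6710887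
    (rowB 3 eng mog cd1q1 cd5q2 pd0 0 false true true .npp 1 0 2 (qsf 536870912 536870912 1073741824 536870912 0) ndB1q1 ndB5q2 pcB0 Cut.none Ext.none)

def k0_pp_102 : ∃ t, chk3 f_pp_102 t 1 1 1 = true :=
  ⟨(l 3), by decide +kernel⟩

theorem c_pp_102 : CertB 536870912 536870912 1073741824 536870912 1033476505 6710887 3 eng mog cd1q1 cd5q2 pd0 false true true .npp 1 0 2
    ndB1q1 ndB5q2 pcB0 Cut.none Ext.none :=
  certB0 (fam := false) (s1 := true) (s2 := true) (a := 1) (b := 0) (c := 2) (cn := .npp) (n1 := ndB1q1) (n2 := ndB5q2) (pc := pcB0) (cut := Cut.none) (xt := Ext.none) (P1 := 536870912) (W1 := 536870912) (P2 := 1073741824) (W2 := 536870912) (P3 := 1033476505) (W3 := 6710887) (N0 := 3) (En := eng) (mo := mog) (C1 := cd1q1) (C2 := cd5q2) (C3 := pd0)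
    rfl k0_pp_102

noncomputable def f_pp_112 : ℕ → ℕ → ℕ → ℕ → Bool := onCell 536870912 536870912 1073741824 536870912 1033476505 6710887
    (rowB 3 eng mog cd1q1 cd5q2 pd1 0 false true true .dn 1 1 2 (qsf 536870912 536870912 1073741824 536870912 1) ndB1q1 ndB5q2 pcB1 Cut.none Ext.none)

def k0_pp_112 : ∃ t, chk3 f_pp_112 t 1 1 1 = true :=
  ⟨(l 3), by decide +kernel⟩

theorem c_pp_112 : CertB 536870912 536870912 1073741824 536870912 1033476505 6710887 3 eng mog cd1q1 cd5q2 pd1 false true true .dn 1 1 2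
    ndB1q1 ndB5q2 pcB1 Cut.none Ext.none :=
  certB0 (fam := false) (s1 := true) (s2 := true) (a := 1) (b := 1) (c := 2) (cn := .dn) (n1 := ndB1q1) (n2 := ndB5q2) (pc := pcB1) (cut := Cut.none) (xt := Ext.none) (P1 := 536870912) (W1 := 536870912) (P2 := 1073741824) (W2 := 536870912) (P3 := 1033476505) (W3 := 6710887) (N0 := 3) (En := eng) (mo := mog) (C1 := cd1q1) (C2 := cd5q2) (C3 := pd1)
    rfl k0_pp_112

noncomputable def f_pp_113 : ℕ → ℕ → ℕ → ℕ → Bool := onCell 536870912 536870912 0 1230186008 1033476505 6710887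
    (rowB 3 eng mog cd1q1 cd5q3 pd1 2 false true true .nn 1 1 3 (qsf 536870912 536870912 0 1230186008 1) ndB1q1 ndB5q3 pcB1 Cut.none Ext.none)

def k0_pp_113 : ∃ t, chk3 f_pp_113 t 1 1 1 = true :=
  ⟨(a (b (l 2) (b (l 3) (a (b (l 2) (l 3)) (l 3)))) (b (a (l 2) (b (a (l 2) (a (l 2) (b (b (l 16558144) (l 1303085683847)) (b (a (l 2) (l 324974090263)) (l 751786539015))))) (l 3))) (b (l 3) (l 3)))), by decide +kernel⟩

theorem c_pp_113 : CertB 536870912 536870912 0 1230186008 1033476505 6710887 3 eng mog cd1q1 cd5q3 pd1 false true true .nn 1 1 3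
    ndB1q1 ndB5q3 pcB1 Cut.none Ext.none :=
  certB2 (fam := false) (s1 := true) (s2 := true) (a := 1) (b := 1) (c := 3) (cn := .nn) (n1 := ndB1q1) (n2 := ndB5q3) (pc := pcB1) (cut := Cut.none) (xt := Ext.none) (P1 := 536870912) (W1 := 536870912) (P2 := 0) (W2 := 1230186008) (P3 := 1033476505) (W3 := 6710887) (N0 := 3) (En := eng) (mo := mog) (C1 := cd1q1) (C2 := cd5q3) (C3 := pd1)
    rfl (fun _ => rfl) k0_pp_113

noncomputable def f_pp_123 : ℕ → ℕ → ℕ → ℕ → Bool := onCell 1073741824 536870912 0 1230186008 1033476505 6710887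
    (rowB 3 eng mog cd1q1 cd5q3 pd2 2 false true true .npn 1 2 3 (qsf 536870912 536870912 0 1230186008 2) ndB1q1 ndB5q3 pcB2 Cut.none Ext.none)

def k0_pp_123 : ∃ t, chk3 f_pp_123 t 4 2 1 = true :=
  ⟨(a (b (b (b (l 16747232) (l 16604040)) (a (b (a (b (l 16701384) (a (l 16782648) (l 16721400))) (b (l 16618912) (l 16630944))) (a (a (b (l 16728736) (l 3)) (b (l 16768056) (l 16710848))) (b (l 16659368) (l 16561056)))) (b (b (l 16502856) (l 16417088)) (a (b (l 16553232) (l 16523392)) (l 16306080))))) (a (b (b (a (l 3) (l 461876347511)) (l 3)) (l 3)) (b (a (b (a (b (l 16460968) (l 445233446855)) (b (l 16484824) (l 16419296))) (a (l 3) (l 429127245319))) (b (b (l 16490728) (a (l 16452808) (l 16482600))) (a (b (l 16409464) (l 16367856)) (l 16286504)))) (b (l 3) (l 3))))) (b (b (b (l 16305024) (l 16260336)) (b (l 16218280) (a (b (l 16299240) (l 16214528)) (l 16015400)))) (a (b (b (a (l 16462576) (l 16377376)) (a (b (l 16483800) (a (l 16465352) (l 16502760))) (b (l 16476376) (l 16500656))))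 (a (b (a (l 16450968) (b (l 16489840) (l 16500592))) (l 3)) (b (b (a (l 16501664) (l 16508472)) (a (a (l 16535144) (l 16524024)) (a (l 16536568) (l 16545320)))) (a (l 327121426023) (a (l 16484008) (b (l 16479160) (l 16553256))))))) (b (b (a (l 16261240) (l 16134256)) (a (l 16412248) (l 16307160))) (a (b (l 16472640) (a (b (a (l 16484472) (l 16483256)) (l 16512728)) (a (b (l 16501104) (l 16436336)) (l 16340696)))) (b (b (l 16440488) (l 16469640)) (a (l 16332000) (l 16399320)))))))), by decide +kernel⟩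

def k1_pp_123 : ∃ t, chk3 f_pp_123 t 5 2 1 = true :=
  ⟨(b (b (b (l 15469416) (l 15311144)) (b (a (l 15792264) (l 15336456)) (a (l 15829384) (l 15416400)))) (b (a (a (a (b (l 16010624) (l 16172888)) (a (b (l 15929024) (l 16066536)) (b (b (l 15867304) (l 15749720)) (l 15847048)))) (b (l 15771320) (l 15853376))) (b (l 15489344) (l 15565608))) (a (a (a (b (l 16327208) (b (l 16353936) (l 16316080))) (a (b (l 16196648) (l 16250200)) (b (l 16095592) (a (l 16182064) (l 16117400))))) (l 15976912)) (b (l 15667032) (l 15742656))))), by decide +kernel⟩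

def k2_pp_123 : ∃ t, chk3 f_pp_123 t 3 2 1 = true :=
  ⟨(b (a (b (b (l 14451992) (l 14581128)) (b (l 14682000) (l 14814704))) (b (b (a (l 13831096) (l 13733008)) (l 13703184)) (b (l 14000688) (l 14176592)))) (a (b (a (b (l 15121424) (l 15224696)) (l 14851720)) (a (b (l 15315576) (l 15432824)) (b (l 15046040) (l 15171752)))) (b (b (l 14370776) (l 14570856)) (a (b (l 14831048) (l 14982632)) (l 14806720))))), by decide +kernel⟩

def k3_pp_123 : ∃ t, chk3 f_pp_123 t 1 3 1 = true :=
  ⟨(b (a (a (a (l 3) (a (l 3) (b (a (b (a (b (l 16381760) (l 3)) (b (l 16408592) (l 315309826263))) (l 3)) (b (a (b (l 16366176) (l 16312592)) (b (l 16327280) (l 16255728))) (a (l 302424507575) (l 16068048)))) (l 3)))) (a (a (a (b (b (a (l 16250280) (l 16202752)) (a (l 15975560) (l 16063888))) (b (a (l 15949840) (l 15911808)) (a (l 3) (l 15749304)))) (b (a (b (l 16164080) (l 16023856)) (b (a (l 16131168) (b (l 16123112) (l 16081576))) (l 15986560))) (a (b (l 15873424) (l 15716496)) (b (a (l 15847528) (l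 15827656)) (a (l 15694472) (l 15678744)))))) (b (b (l 15999608) (l 15906592)) (b (l 15762696) (l 15619496)))) (b (b (l 15774248) (b (l 15763768) (l 15718832))) (b (l 15617944) (l 15491296))))) (a (b (a (b (l 15506416) (l 15540424)) (l 15338448)) (b (a (l 15473440) (l 15379288)) (l 15342736))) (b (a (l 15209312) (l 1)) (l 1)))) (a (a (l 3) (a (a (a (l 3) (b (a (b (l 15566328) (l 3)) (b (a (l 15547864) (l 15536152)) (a (l 3) (l 15422264)))) (l 1))) (b (b (l 15488408) (l 15387920)) (l 1))) (b (b (l 15387120) (l 1)) (l 1)))) (l 1))), by decide +kernel⟩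

theorem s4_pp_123 : ∃ t, chk3 f_pp_123 t 2 2 1 = true := ex3_a k0_pp_123 k1_pp_123

theorem s5_pp_123 : ∃ t, chk3 f_pp_123 t 1 2 1 = true := ex3_a s4_pp_123 k2_pp_123

theorem s6_pp_123 : ∃ t, chk3 f_pp_123 t 1 1 1 = true := ex3_b s5_pp_123 k3_pp_123

theorem c_pp_123 : CertB 536870912 536870912 0 1230186008 1033476505 6710887 3 eng mog cd1q1 cd5q3 pd2 false true true .npn 1 2 3
    ndB1q1 ndB5q3 pcB2 Cut.none Ext.none :=
  certB2 (fam := false) (s1 := true) (s2 := true) (a := 1) (b := 2) (c := 3) (cn := .npn) (n1 := ndB1q1) (n2 := ndB5q3) (pc := pcB2) (cut := Cut.none) (xt := Ext.none) (P1 := 536870912) (W1 := 536870912) (P2 := 0) (W2 := 1230186008) (P3 := 1033476505) (W3 := 6710887) (N0 := 3) (En := eng) (mo := mog) (C1 := cd1q1) (C2 := cd5q3) (C3 := pd2)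
    rfl (fun _ => rfl) s6_pp_123

noncomputable def f_pp_133 : ℕ → ℕ → ℕ → ℕ → Bool := onCell 1610612736 536870912 0 1230186008 1033476505 6710887
    (rowB 3 eng mog cd1q1 cd5q3 pd3 2 false true true .dn 1 3 3 (qsf 536870912 536870912 0 1230186008 3) ndB1q1 ndB5q3 pcB3 Cut.none Ext.none)

def k0_pp_133 : ∃ t, chk3 f_pp_133 t 1 1 1 = true :=
  ⟨(b (b (a (a (b (a (b (l 14002664) (l 1)) (l 1)) (l 1)) (l 1)) (l 1)) (l 1)) (l 1)), by decide +kernel⟩

theorem c_pp_133 : CertB 536870912 536870912 0 1230186008 1033476505 6710887 3 eng mog cd1q1 cd5q3 pd3 false true true .dn 1 3 3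
    ndB1q1 ndB5q3 pcB3 Cut.none Ext.none :=
  certB2 (fam := false) (s1 := true) (s2 := true) (a := 1) (b := 3) (c := 3) (cn := .dn) (n1 := ndB1q1) (n2 := ndB5q3) (pc := pcB3) (cut := Cut.none) (xt := Ext.none) (P1 := 536870912) (W1 := 536870912) (P2 := 0) (W2 := 1230186008) (P3 := 1033476505) (W3 := 6710887) (N0 := 3) (En := eng) (mo := mog) (C1 := cd1q1) (C2 := cd5q3) (C3 := pd3)
    rfl (fun _ => rfl) k0_pp_133

noncomputable def f_pp_202_a : ℕ → ℕ → ℕ → ℕ → Bool := onCell 0 536870912 1073741824 536870912 1033476505 6710887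
    (rowB 3 eng mog cd1q2a cd5q2 pd0 0 false true true .pp 2 0 2 (qsf 0 536870912 1073741824 536870912 0) ndB1q2a ndB5q2 pcB0 Cut.none Ext.none)

def k0_pp_202_a : ∃ t, chk3 f_pp_202_a t 1 1 1 = true :=
  ⟨(l 5), by decide +kernel⟩

theorem c_pp_202_a : CertB 0 536870912 1073741824 536870912 1033476505 6710887 3 eng mog cd1q2a cd5q2 pd0 false true true .pp 2 0 2
    ndB1q2a ndB5q2 pcB0 Cut.none Ext.none :=
  certB0 (fam := false) (s1 := true) (s2 := true) (a := 2) (b := 0) (c := 2) (cn := .pp) (n1 := ndB1q2a) (n2 := ndB5q2) (pc := pcB0) (cut := Cut.none) (xt := Ext.none) (P1 := 0) (W1 := 536870912) (P2 := 1073741824) (W2 := 536870912) (P3 := 1033476505) (W3 := 6710887) (N0 := 3) (En := eng) (mo := mog) (C1 := cd1q2a) (C2 := cd5q2) (C3 := pd0)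
    rfl k0_pp_202_a

noncomputable def f_pp_202_b : ℕ → ℕ → ℕ → ℕ → Bool := onCell 1239849684 370763052 1073741824 536870912 1033476505 6710887
    (rowB 3 eng mog cd1q2b cd5q2 pd0 0 false true true .pp 2 0 2 (qsf 1239849684 370763052 1073741824 536870912 0) ndB1q2b ndB5q2 pcB0 Cut.none Ext.none)

def k0_pp_202_b : ∃ t, chk3 f_pp_202_b t 1 1 1 = true :=
  ⟨(l 5), by decide +kernel⟩

theorem c_pp_202_b : CertB 1239849684 370763052 1073741824 536870912 1033476505 6710887 3 eng mog cd1q2b cd5q2 pd0 false true true .pp 2 0 2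
    ndB1q2b ndB5q2 pcB0 Cut.none Ext.none :=
  certB0 (fam := false) (s1 := true) (s2 := true) (a := 2) (b := 0) (c := 2) (cn := .pp) (n1 := ndB1q2b) (n2 := ndB5q2) (pc := pcB0) (cut := Cut.none) (xt := Ext.none) (P1 := 1239849684) (W1 := 370763052) (P2 := 1073741824) (W2 := 536870912) (P3 := 1033476505) (W3 := 6710887) (N0 := 3) (En := eng) (mo := mog) (C1 := cd1q2b) (C2 := cd5q2) (C3 := pd0)
    rfl k0_pp_202_b

noncomputable def f_pp_203_a : ℕ → ℕ → ℕ → ℕ → Bool := onCell 0 536870912 0 1230186008 1033476505 6710887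
    (rowB 3 eng mog cd1q2a cd5q3 pd0 0 false true true .up 2 0 3 (qsf 0 536870912 0 1230186008 0) ndB1q2a ndB5q3 pcB0 Cut.none Ext.none)

def k0_pp_203_a : ∃ t, chk3 f_pp_203_a t 1 1 1 = true :=
  ⟨(b (l 2) (a (l 5) (l 3))), by decide +kernel⟩

theorem c_pp_203_a : CertB 0 536870912 0 1230186008 1033476505 6710887 3 eng mog cd1q2a cd5q3 pd0 false true true .up 2 0 3
    ndB1q2a ndB5q3 pcB0 Cut.none Ext.none :=
  certB0 (fam := false) (s1 := true) (s2 := true) (a := 2) (b := 0) (c := 3) (cn := .up) (n1 := ndB1q2a) (n2 := ndB5q3) (pc := pcB0) (cut := Cut.none) (xt := Ext.none) (P1 := 0) (W1 := 536870912) (P2 := 0) (W2 := 1230186008) (P3 := 1033476505) (W3 := 6710887) (N0 := 3) (En := eng) (mo := mog) (C1 := cd1q2a) (C2 := cd5q3) (C3 := pd0)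
    rfl k0_pp_203_a

noncomputable def f_pp_203_b : ℕ → ℕ → ℕ → ℕ → Bool := onCell 1239849684 370763052 0 1230186008 1033476505 6710887
    (rowB 3 eng mog cd1q2b cd5q3 pd0 0 false true true .up 2 0 3 (qsf 1239849684 370763052 0 1230186008 0) ndB1q2b ndB5q3 pcB0 Cut.none Ext.none)

def k0_pp_203_b : ∃ t, chk3 f_pp_203_b t 1 1 1 = true :=
  ⟨(b (l 3) (l 5)), by decide +kernel⟩

theorem c_pp_203_b : CertB 1239849684 370763052 0 1230186008 1033476505 6710887 3 eng mog cd1q2b cd5q3 pd0 false true true .up 2 0 3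
    ndB1q2b ndB5q3 pcB0 Cut.none Ext.none :=
  certB0 (fam := false) (s1 := true) (s2 := true) (a := 2) (b := 0) (c := 3) (cn := .up) (n1 := ndB1q2b) (n2 := ndB5q3) (pc := pcB0) (cut := Cut.none) (xt := Ext.none) (P1 := 1239849684) (W1 := 370763052) (P2 := 0) (W2 := 1230186008) (P3 := 1033476505) (W3 := 6710887) (N0 := 3) (En := eng) (mo := mog) (C1 := cd1q2b) (C2 := cd5q3) (C3 := pd0)
    rfl k0_pp_203_b

noncomputable def cut_pp_213_a : Cut := Cut.of [[⟨0, 1, 0, 20971520⟩, ⟨1, 1, 0, 20971520⟩, ⟨2, 2, 0, 1572864⟩]]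

noncomputable def f_pp_213_a : ℕ → ℕ → ℕ → ℕ → Bool := onCell 0 536870912 0 1230186008 1033476505 6710887
    (rowB 3 eng mog cd1q2a cd5q3 pd1 0 false true true .pnn 2 1 3 (qsf 0 536870912 0 1230186008 1) ndB1q2a ndB5q3 pcB1 cut_pp_213_a Ext.none)

def k0_pp_213_a : ∃ t, chk3 f_pp_213_a t 1 1 1 = true :=
  ⟨(a (b (l 3) (l 5)) (b (b (a (l 3) (a (l 3) (b (a (l 3) (b (b (a (l 3) (l 6)) (l 3)) (l 3))) (l 3)))) (l 3)) (l 3))), by decide +kernel⟩

theorem c_pp_213_a : CertB 0 536870912 0 1230186008 1033476505 6710887 3 eng mog cd1q2a cd5q3 pd1 false true true .pnn 2 1 3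
    ndB1q2a ndB5q3 pcB1 cut_pp_213_a Ext.none :=
  certB0 (fam := false) (s1 := true) (s2 := true) (a := 2) (b := 1) (c := 3) (cn := .pnn) (n1 := ndB1q2a) (n2 := ndB5q3) (pc := pcB1) (cut := cut_pp_213_a) (xt := Ext.none) (P1 := 0) (W1 := 536870912) (P2 := 0) (W2 := 1230186008) (P3 := 1033476505) (W3 := 6710887) (N0 := 3) (En := eng) (mo := mog) (C1 := cd1q2a) (C2 := cd5q3) (C3 := pd1)
    rfl k0_pp_213_a

noncomputable def cut_pp_213_b : Cut := Cut.of [[⟨0, 1, 0, 20971520⟩, ⟨1, 1, 0, 20971520⟩, ⟨2, 2, 0, 1572864⟩]]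

noncomputable def f_pp_213_b : ℕ → ℕ → ℕ → ℕ → Bool := onCell 1239849684 370763052 0 1230186008 1033476505 6710887
    (rowB 3 eng mog cd1q2b cd5q3 pd1 0 false true true .pnn 2 1 3 (qsf 1239849684 370763052 0 1230186008 1) ndB1q2b ndB5q3 pcB1 cut_pp_213_b Ext.none)

def k0_pp_213_b : ∃ t, chk3 f_pp_213_b t 1 1 1 = true :=
  ⟨(b (l 3) (l 5)), by decide +kernel⟩

theorem c_pp_213_b : CertB 1239849684 370763052 0 1230186008 1033476505 6710887 3 eng mog cd1q2b cd5q3 pd1 false true true .pnn 2 1 3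
    ndB1q2b ndB5q3 pcB1 cut_pp_213_b Ext.none :=
  certB0 (fam := false) (s1 := true) (s2 := true) (a := 2) (b := 1) (c := 3) (cn := .pnn) (n1 := ndB1q2b) (n2 := ndB5q3) (pc := pcB1) (cut := cut_pp_213_b) (xt := Ext.none) (P1 := 1239849684) (W1 := 370763052) (P2 := 0) (W2 := 1230186008) (P3 := 1033476505) (W3 := 6710887) (N0 := 3) (En := eng) (mo := mog) (C1 := cd1q2b) (C2 := cd5q3) (C3 := pd1)
    rfl k0_pp_213_b

noncomputable def f_pp_303 : ℕ → ℕ → ℕ → ℕ → Bool := onCell 1610612736 536870912 0 1230186008 1033476505 6710887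
    (rowB 3 eng mog cd1q3 cd5q3 pd0 0 false true true .npn 3 0 3 (qsf 1610612736 536870912 0 1230186008 0) ndB1q3 ndB5q3 pcB0 Cut.none Ext.none)

def k0_pp_303 : ∃ t, chk3 f_pp_303 t 1 1 1 = true :=
  ⟨(b (l 3) (l 5)), by decide +kernel⟩

theorem c_pp_303 : CertB 1610612736 536870912 0 1230186008 1033476505 6710887 3 eng mog cd1q3 cd5q3 pd0 false true true .npn 3 0 3
    ndB1q3 ndB5q3 pcB0 Cut.none Ext.none :=
  certB0 (fam := false) (s1 := true) (s2 := true) (a := 3) (b := 0) (c := 3) (cn := .npn) (n1 := ndB1q3) (n2 := ndB5q3) (pc := pcB0) (cut := Cut.none) (xt := Ext.none) (P1 := 1610612736) (W1 := 536870912) (P2 := 0) (W2 := 1230186008) (P3 := 1033476505) (W3 := 6710887) (N0 := 3) (En := eng) (mo := mog) (C1 := cd1q3) (C2 := cd5q3) (C3 := pd0)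
    rfl k0_pp_303

noncomputable def f_pp_313 : ℕ → ℕ → ℕ → ℕ → Bool := onCell 1610612736 536870912 0 1230186008 1033476505 6710887
    (rowB 3 eng mog cd1q3 cd5q3 pd1 0 false true true .dn 3 1 3 (qsf 1610612736 536870912 0 1230186008 1) ndB1q3 ndB5q3 pcB1 Cut.none Ext.none)

def k0_pp_313 : ∃ t, chk3 f_pp_313 t 1 1 1 = true :=
  ⟨(b (l 3) (l 1)), by decide +kernel⟩

theorem c_pp_313 : CertB 1610612736 536870912 0 1230186008 1033476505 6710887 3 eng mog cd1q3 cd5q3 pd1 false true true .dn 3 1 3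
    ndB1q3 ndB5q3 pcB1 Cut.none Ext.none :=
  certB0 (fam := false) (s1 := true) (s2 := true) (a := 3) (b := 1) (c := 3) (cn := .dn) (n1 := ndB1q3) (n2 := ndB5q3) (pc := pcB1) (cut := Cut.none) (xt := Ext.none) (P1 := 1610612736) (W1 := 536870912) (P2 := 0) (W2 := 1230186008) (P3 := 1033476505) (W3 := 6710887) (N0 := 3) (En := eng) (mo := mog) (C1 := cd1q3) (C2 := cd5q3) (C3 := pd1)
    rfl k0_pp_313

noncomputable def f_pm_001 : ℕ → ℕ → ℕ → ℕ → Bool := onCell 0 536870912 536870912 536870912 1033476505 6710887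
    (rowB 3 eng mog cd1q0 cd5q1 pd0 0 false true false .up 0 0 1 (qsf 0 536870912 536870912 536870912 0) ndB1q0 ndB5q1 pcB0 Cut.none Ext.none)

def k0_pm_001 : ∃ t, chk3 f_pm_001 t 1 1 1 = true :=
  ⟨(l 4), by decide +kernel⟩

theorem c_pm_001 : CertB 0 536870912 536870912 536870912 1033476505 6710887 3 eng mog cd1q0 cd5q1 pd0 false true false .up 0 0 1
    ndB1q0 ndB5q1 pcB0 Cut.none Ext.none :=
  certB0 (fam := false) (s1 := true) (s2 := false) (a := 0) (b := 0) (c := 1) (cn := .up) (n1 := ndB1q0) (n2 := ndB5q1) (pc := pcB0) (cut := Cut.none) (xt := Ext.none) (P1 := 0) (W1 := 536870912) (P2 := 536870912) (W2 := 536870912) (P3 := 1033476505) (W3 := 6710887) (N0 := 3) (En := eng) (mo := mog) (C1 := cd1q0) (C2 := cd5q1) (C3 := pd0)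
    rfl k0_pm_001

noncomputable def f_pm_011 : ℕ → ℕ → ℕ → ℕ → Bool := onCell 0 536870912 536870912 536870912 1033476505 6710887
    (rowB 3 eng mog cd1q0 cd5q1 pd1 0 false true false .pnn 0 1 1 (qsf 0 536870912 536870912 536870912 1) ndB1q0 ndB5q1 pcB1 Cut.none Ext.none)

def k0_pm_011 : ∃ t, chk3 f_pm_011 t 1 1 1 = true :=
  ⟨(l 4), by decide +kernel⟩

theorem c_pm_011 : CertB 0 536870912 536870912 536870912 1033476505 6710887 3 eng mog cd1q0 cd5q1 pd1 false true false .pnn 0 1 1
    ndB1q0 ndB5q1 pcB1 Cut.none Ext.none :=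
  certB0 (fam := false) (s1 := true) (s2 := false) (a := 0) (b := 1) (c := 1) (cn := .pnn) (n1 := ndB1q0) (n2 := ndB5q1) (pc := pcB1) (cut := Cut.none) (xt := Ext.none) (P1 := 0) (W1 := 536870912) (P2 := 536870912) (W2 := 536870912) (P3 := 1033476505) (W3 := 6710887) (N0 := 3) (En := eng) (mo := mog) (C1 := cd1q0) (C2 := cd5q1) (C3 := pd1)
    rfl k0_pm_011

noncomputable def f_pm_012 : ℕ → ℕ → ℕ → ℕ → Bool := onCell 0 536870912 1073741824 536870912 1033476505 6710887
    (rowB 3 eng mog cd1q0 cd5q2 pd1 0 false true false .pnp 0 1 2 (qsf 0 536870912 1073741824 536870912 1) ndB1q0 ndB5q2 pcB1 Cut.none Ext.none)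

def k0_pm_012 : ∃ t, chk3 f_pm_012 t 1 1 1 = true :=
  ⟨(l 4), by decide +kernel⟩

theorem c_pm_012 : CertB 0 536870912 1073741824 536870912 1033476505 6710887 3 eng mog cd1q0 cd5q2 pd1 false true false .pnp 0 1 2
    ndB1q0 ndB5q2 pcB1 Cut.none Ext.none :=
  certB0 (fam := false) (s1 := true) (s2 := false) (a := 0) (b := 1) (c := 2) (cn := .pnp) (n1 := ndB1q0) (n2 := ndB5q2) (pc := pcB1) (cut := Cut.none) (xt := Ext.none) (P1 := 0) (W1 := 536870912) (P2 := 1073741824) (W2 := 536870912) (P3 := 1033476505) (W3 := 6710887) (N0 := 3) (En := eng) (mo := mog) (C1 := cd1q0) (C2 := cd5q2) (C3 := pd1)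
    rfl k0_pm_012

noncomputable def f_pm_022 : ℕ → ℕ → ℕ → ℕ → Bool := onCell 0 536870912 1073741824 536870912 1033476505 6710887
    (rowB 3 eng mog cd1q0 cd5q2 pd2 0 false true false .pp 0 2 2 (qsf 0 536870912 1073741824 536870912 2) ndB1q0 ndB5q2 pcB2 Cut.none Ext.none)

def k0_pm_022 : ∃ t, chk3 f_pm_022 t 1 1 1 = true :=
  ⟨(l 4), by decide +kernel⟩

theorem c_pm_022 : CertB 0 536870912 1073741824 536870912 1033476505 6710887 3 eng mog cd1q0 cd5q2 pd2 false true false .pp 0 2 2
    ndB1q0 ndB5q2 pcB2 Cut.none Ext.none :=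
  certB0 (fam := false) (s1 := true) (s2 := false) (a := 0) (b := 2) (c := 2) (cn := .pp) (n1 := ndB1q0) (n2 := ndB5q2) (pc := pcB2) (cut := Cut.none) (xt := Ext.none) (P1 := 0) (W1 := 536870912) (P2 := 1073741824) (W2 := 536870912) (P3 := 1033476505) (W3 := 6710887) (N0 := 3) (En := eng) (mo := mog) (C1 := cd1q0) (C2 := cd5q2) (C3 := pd2)
    rfl k0_pm_022

noncomputable def f_pm_023 : ℕ → ℕ → ℕ → ℕ → Bool := onCell 0 536870912 0 1230186008 1033476505 6710887
    (rowB 3 eng mog cd1q0 cd5q3 pd2 0 false true false .up 0 2 3 (qsf 0 536870912 0 1230186008 2) ndB1q0 ndB5q3 pcB2 Cut.none Ext.none)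

def k0_pm_023 : ∃ t, chk3 f_pm_023 t 1 1 1 = true :=
  ⟨(b (b (a (l 2) (a (l 2) (a (l 2) (a (l 2) (b (l 16062072) (a (l 4) (l 16583600))))))) (l 4)) (l 4)), by decide +kernel⟩

theorem c_pm_023 : CertB 0 536870912 0 1230186008 1033476505 6710887 3 eng mog cd1q0 cd5q3 pd2 false true false .up 0 2 3
    ndB1q0 ndB5q3 pcB2 Cut.none Ext.none :=
  certB0 (fam := false) (s1 := true) (s2 := false) (a := 0) (b := 2) (c := 3) (cn := .up) (n1 := ndB1q0) (n2 := ndB5q3) (pc := pcB2) (cut := Cut.none) (xt := Ext.none) (P1 := 0) (W1 := 536870912) (P2 := 0) (W2 := 1230186008) (P3 := 1033476505) (W3 := 6710887) (N0 := 3) (En := eng) (mo := mog) (C1 := cd1q0) (C2 := cd5q3) (C3 := pd2)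
    rfl k0_pm_023

noncomputable def f_pm_033 : ℕ → ℕ → ℕ → ℕ → Bool := onCell 0 536870912 0 1230186008 1033476505 6710887
    (rowB 3 eng mog cd1q0 cd5q3 pd3 0 false true false .pnn 0 3 3 (qsf 0 536870912 0 1230186008 3) ndB1q0 ndB5q3 pcB3 Cut.none Ext.none)

def k0_pm_033 : ∃ t, chk3 f_pm_033 t 1 1 1 = true :=
  ⟨(b (b (a (l 4) (a (b (l 4) (l 4)) (b (a (b (a (l 16482176) (l 16418936)) (l 4)) (b (l 16084360) (a (l 16534144) (l 16424312)))) (a (l 4) (b (l 16635088) (l 4)))))) (l 4)) (l 4)), by decide +kernel⟩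

theorem c_pm_033 : CertB 0 536870912 0 1230186008 1033476505 6710887 3 eng mog cd1q0 cd5q3 pd3 false true false .pnn 0 3 3
    ndB1q0 ndB5q3 pcB3 Cut.none Ext.none :=
  certB0 (fam := false) (s1 := true) (s2 := false) (a := 0) (b := 3) (c := 3) (cn := .pnn) (n1 := ndB1q0) (n2 := ndB5q3) (pc := pcB3) (cut := Cut.none) (xt := Ext.none) (P1 := 0) (W1 := 536870912) (P2 := 0) (W2 := 1230186008) (P3 := 1033476505) (W3 := 6710887) (N0 := 3) (En := eng) (mo := mog) (C1 := cd1q0) (C2 := cd5q3) (C3 := pd3)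
    rfl k0_pm_033

noncomputable def f_pm_101 : ℕ → ℕ → ℕ → ℕ → Bool := onCell 536870912 536870912 536870912 536870912 1033476505 6710887
    (rowB 3 eng mog cd1q1 cd5q1 pd0 0 false true false .npn 1 0 1 (qsf 536870912 536870912 536870912 536870912 0) ndB1q1 ndB5q1 pcB0 Cut.none Ext.none)

def k0_pm_101 : ∃ t, chk3 f_pm_101 t 1 1 1 = true :=
  ⟨(l 4), by decide +kernel⟩

theorem c_pm_101 : CertB 536870912 536870912 536870912 536870912 1033476505 6710887 3 eng mog cd1q1 cd5q1 pd0 false true false .npn 1 0 1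
    ndB1q1 ndB5q1 pcB0 Cut.none Ext.none :=
  certB0 (fam := false) (s1 := true) (s2 := false) (a := 1) (b := 0) (c := 1) (cn := .npn) (n1 := ndB1q1) (n2 := ndB5q1) (pc := pcB0) (cut := Cut.none) (xt := Ext.none) (P1 := 536870912) (W1 := 536870912) (P2 := 536870912) (W2 := 536870912) (P3 := 1033476505) (W3 := 6710887) (N0 := 3) (En := eng) (mo := mog) (C1 := cd1q1) (C2 := cd5q1) (C3 := pd0)
    rfl k0_pm_101

noncomputable def f_pm_102 : ℕ → ℕ → ℕ → ℕ → Bool := onCell 536870912 536870912 1073741824 536870912 1033476505 6710887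
    (rowB 3 eng mog cd1q1 cd5q2 pd0 0 false true false .npp 1 0 2 (qsf 536870912 536870912 1073741824 536870912 0) ndB1q1 ndB5q2 pcB0 Cut.none Ext.none)

def k0_pm_102 : ∃ t, chk3 f_pm_102 t 1 1 1 = true :=
  ⟨(l 4), by decide +kernel⟩

theorem c_pm_102 : CertB 536870912 536870912 1073741824 536870912 1033476505 6710887 3 eng mog cd1q1 cd5q2 pd0 false true false .npp 1 0 2
    ndB1q1 ndB5q2 pcB0 Cut.none Ext.none :=
  certB0 (fam := false) (s1 := true) (s2 := false) (a := 1) (b := 0) (c := 2) (cn := .npp) (n1 := ndB1q1) (n2 := ndB5q2) (pc := pcB0) (cut := Cut.none) (xt := Ext.none) (P1 := 536870912) (W1 := 536870912) (P2 := 1073741824) (W2 := 536870912) (P3 := 1033476505) (W3 := 6710887) (N0 := 3) (En := eng) (mo := mog) (C1 := cd1q1) (C2 := cd5q2) (C3 := pd0)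
    rfl k0_pm_102

noncomputable def f_pm_112 : ℕ → ℕ → ℕ → ℕ → Bool := onCell 536870912 536870912 1073741824 536870912 1033476505 6710887
    (rowB 3 eng mog cd1q1 cd5q2 pd1 0 false true false .dn 1 1 2 (qsf 536870912 536870912 1073741824 536870912 1) ndB1q1 ndB5q2 pcB1 Cut.none Ext.none)

def k0_pm_112 : ∃ t, chk3 f_pm_112 t 1 1 1 = true :=
  ⟨(l 4), by decide +kernel⟩

theorem c_pm_112 : CertB 536870912 536870912 1073741824 536870912 1033476505 6710887 3 eng mog cd1q1 cd5q2 pd1 false true false .dn 1 1 2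
    ndB1q1 ndB5q2 pcB1 Cut.none Ext.none :=
  certB0 (fam := false) (s1 := true) (s2 := false) (a := 1) (b := 1) (c := 2) (cn := .dn) (n1 := ndB1q1) (n2 := ndB5q2) (pc := pcB1) (cut := Cut.none) (xt := Ext.none) (P1 := 536870912) (W1 := 536870912) (P2 := 1073741824) (W2 := 536870912) (P3 := 1033476505) (W3 := 6710887) (N0 := 3) (En := eng) (mo := mog) (C1 := cd1q1) (C2 := cd5q2) (C3 := pd1)
    rfl k0_pm_112

noncomputable def f_pm_113 : ℕ → ℕ → ℕ → ℕ → Bool := onCell 536870912 536870912 0 1230186008 1033476505 6710887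
    (rowB 3 eng mog cd1q1 cd5q3 pd1 0 false true false .nn 1 1 3 (qsf 536870912 536870912 0 1230186008 1) ndB1q1 ndB5q3 pcB1 Cut.none Ext.none)

def k0_pm_113 : ∃ t, chk3 f_pm_113 t 1 1 1 = true :=
  ⟨(a (b (l 2) (b (l 4) (l 4))) (a (b (l 2) (b (b (a (l 2) (b (a (l 2) (l 13807352)) (l 13633936))) (l 4)) (l 4))) (b (b (a (l 2) (b (a (l 2) (b (l 16689440) (l 16755928))) (b (l 16692240) (l 16721248)))) (b (a (b (l 2) (l 14818992)) (b (l 16695072) (l 15948600))) (a (l 203570691447) (b (l 15477680) (l 15099976))))) (b (b (a (b (l 14222312) (a (l 13968536) (l 14186368))) (b (l 14808016) (l 14551176))) (a (b (a (b (l 14005616) (l 14096664)) (b (l 14145376) (l 14149656))) (a (l 4) (b (l 14251904) (l 4)))) (b (a (b (l 14278792) (a (l 14247896) (l 14268408))) (l 14397376)) (a (b (a (l 14314472) (l 14348840)) (l 14462640)) (b (a (l 14600208) (l 14327712)) (b (l 14219648) (a (l 14434816) (l 14448600)))))))) (b (a (l 4) (b (a (b (l 14586088) (l 4)) (b (a (l 14611976) (b (l 14473248) (l 14676336)))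 (l 14575120))) (l 4))) (l 4)))))), by decide +kernel⟩

theorem c_pm_113 : CertB 536870912 536870912 0 1230186008 1033476505 6710887 3 eng mog cd1q1 cd5q3 pd1 false true false .nn 1 1 3
    ndB1q1 ndB5q3 pcB1 Cut.none Ext.none :=
  certB0 (fam := false) (s1 := true) (s2 := false) (a := 1) (b := 1) (c := 3) (cn := .nn) (n1 := ndB1q1) (n2 := ndB5q3) (pc := pcB1) (cut := Cut.none) (xt := Ext.none) (P1 := 536870912) (W1 := 536870912) (P2 := 0) (W2 := 1230186008) (P3 := 1033476505) (W3 := 6710887) (N0 := 3) (En := eng) (mo := mog) (C1 := cd1q1) (C2 := cd5q3) (C3 := pd1)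
    rfl k0_pm_113

noncomputable def f_pm_123 : ℕ → ℕ → ℕ → ℕ → Bool := onCell 1073741824 536870912 0 1230186008 1033476505 6710887
    (rowB 3 eng mog cd1q1 cd5q3 pd2 2 false true false .npn 1 2 3 (qsf 536870912 536870912 0 1230186008 2) ndB1q1 ndB5q3 pcB2 Cut.none Ext.none)

def k0_pm_123 : ∃ t, chk3 f_pm_123 t 1 1 1 = true :=
  ⟨(b (a (b (b (a (a (b (l 16711960) (l 16455552)) (b (l 16331976) (l 16330976))) (b (l 15347800) (a (l 15689824) (l 15039888)))) (a (b (a (l 16242432) (l 16247536)) (a (l 16388832) (l 16060872))) (a (b (l 15590880) (a (l 15574352) (l 15235040))) (b (a (l 15066512) (l 14762456)) (a (l 14952560) (l 14808008)))))) (a (a (b (b (l 16300576) (a (l 16135208) (l 15937712))) (a (b (l 15611384) (l 14848136)) (l 15050224))) (b (a (b (l 15988176) (l 15648552)) (b (l 15673728) (l 15319912))) (a (l 14905848) (b (l 14950368) (l 14635384))))) (a (b (a (b (l 15333800) (l 15068208)) (l 15017904)) (a (b (l 14831256) (l 14667408)) (b (l 14903816) (l 14868336)))) (b (a (l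 14979816) (l 15057976)) (a (b (l 15080696) (l 4)) (l 15242568)))))) (b (a (a (b (b (l 14573288) (l 14462624)) (b (a (l 14542464) (l 14481880)) (l 14824496))) (b (b (l 14089432) (a (l 14154024) (l 14137656))) (b (l 14610920) (l 15094840)))) (b (a (b (a (l 13850416) (l 13872656)) (l 14353504)) (b (l 14180120) (l 14756456))) (a (b (l 14913616) (l 15305088)) (b (l 15164632) (l 15303128))))) (b (b (a (a (l 15118424) (a (l 15424320) (l 15497128))) (a (l 15422840) (l 4))) (a (a (a (l 15356168) (l 15499808)) (l 4)) (l 4))) (a (l 4) (l 4))))) (b (b (a (a (b (a (a (l 14174672) (l 14275744)) (a (l 14410632) (l 14520432))) (a (a (l 13894984) (l 4)) (l 4))) (l 4)) (l 4)) (l 4)) (l 4))), by decide +kernel⟩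

theorem c_pm_123 : CertB 536870912 536870912 0 1230186008 1033476505 6710887 3 eng mog cd1q1 cd5q3 pd2 false true false .npn 1 2 3
    ndB1q1 ndB5q3 pcB2 Cut.none Ext.none :=
  certB2 (fam := false) (s1 := true) (s2 := false) (a := 1) (b := 2) (c := 3) (cn := .npn) (n1 := ndB1q1) (n2 := ndB5q3) (pc := pcB2) (cut := Cut.none) (xt := Ext.none) (P1 := 536870912) (W1 := 536870912) (P2 := 0) (W2 := 1230186008) (P3 := 1033476505) (W3 := 6710887) (N0 := 3) (En := eng) (mo := mog) (C1 := cd1q1) (C2 := cd5q3) (C3 := pd2)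
    rfl (fun _ => rfl) k0_pm_123

noncomputable def f_pm_133 : ℕ → ℕ → ℕ → ℕ → Bool := onCell 536870912 536870912 0 1230186008 1033476505 6710887
    (rowB 3 eng mog cd1q1 cd5q3 pd3 0 false true false .dn 1 3 3 (qsf 536870912 536870912 0 1230186008 3) ndB1q1 ndB5q3 pcB3 Cut.none Ext.none)

def k0_pm_133 : ∃ t, chk3 f_pm_133 t 1 1 1 = true :=
  ⟨(b (b (a (a (a (b (b (l 14022536) (l 1)) (l 1)) (l 1)) (l 1)) (l 1)) (l 1)) (l 1)), by decide +kernel⟩

theorem c_pm_133 : CertB 536870912 536870912 0 1230186008 1033476505 6710887 3 eng mog cd1q1 cd5q3 pd3 false true false .dn 1 3 3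
    ndB1q1 ndB5q3 pcB3 Cut.none Ext.none :=
  certB0 (fam := false) (s1 := true) (s2 := false) (a := 1) (b := 3) (c := 3) (cn := .dn) (n1 := ndB1q1) (n2 := ndB5q3) (pc := pcB3) (cut := Cut.none) (xt := Ext.none) (P1 := 536870912) (W1 := 536870912) (P2 := 0) (W2 := 1230186008) (P3 := 1033476505) (W3 := 6710887) (N0 := 3) (En := eng) (mo := mog) (C1 := cd1q1) (C2 := cd5q3) (C3 := pd3)
    rfl k0_pm_133

noncomputable def f_pm_202_a : ℕ → ℕ → ℕ → ℕ → Bool := onCell 0 536870912 1073741824 536870912 1033476505 6710887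
    (rowB 3 eng mog cd1q2a cd5q2 pd0 0 false true false .pp 2 0 2 (qsf 0 536870912 1073741824 536870912 0) ndB1q2a ndB5q2 pcB0 Cut.none Ext.none)

def k0_pm_202_a : ∃ t, chk3 f_pm_202_a t 1 1 1 = true :=
  ⟨(a (b (a (b (l 1) (b (b (b (l 1) (l 15342920)) (a (b (l 15611904) (l 15781112)) (l 15538152))) (b (b (a (l 15944416) (l 15827896)) (l 16048672)) (l 16067728)))) (b (b (l 1) (b (l 1) (a (l 1) (b (l 1) (l 14562504))))) (b (b (a (l 14977256) (l 14551328)) (a (l 15356576) (l 15146424))) (b (l 15624112) (l 16010272))))) (b (b (a (b (l 16483704) (l 16601272)) (b (a (l 16405048) (l 16234968)) (a (l 16587088) (l 16490232)))) (a (b (l 16609544) (l 16490640)) (b (l 16622752) (l 16587208)))) (b (a (b (l 16253208) (a (l 15666056) (l 15900488))) (b (l 16416720) (l 16159048))) (a (b (a (b (l 15288264) (l 15182800)) (l 15310768)) (a (l 15287512) (b (l 14954200) (l 14857128)))) (b (l 15651152) (a (l 14998456) (l 15392584))))))) (a (a (b (b (b (l 1) (b (l 1) (b (l 4) (l 14375792)))) (b (b (b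 (l 14489528) (l 14640368)) (l 14919720)) (b (l 15304192) (l 15677848)))) (b (b (b (l 16010128) (l 16277096)) (b (l 16462672) (l 16532184))) (b (b (l 16490480) (l 16316760)) (b (l 16055368) (l 15702760))))) (b (b (l 4) (b (l 4) (b (l 15093104) (l 15433808)))) (b (b (b (l 15745800) (l 16008856)) (l 16259960)) (b (b (l 16354440) (l 16326664)) (b (l 16187208) (l 15857976)))))) (b (l 4) (b (b (a (b (l 4) (l 15730720)) (l 4)) (a (b (l 15901152) (l 15997648)) (b (l 4) (l 15676928)))) (b (a (b (l 16056808) (l 16102648)) (b (l 15715648) (l 15748824))) (a (b (l 16085656) (a (l 15978744) (l 15987424))) (l 15685808))))))), by decide +kernel⟩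

theorem c_pm_202_a : CertB 0 536870912 1073741824 536870912 1033476505 6710887 3 eng mog cd1q2a cd5q2 pd0 false true false .pp 2 0 2
    ndB1q2a ndB5q2 pcB0 Cut.none Ext.none :=
  certB0 (fam := false) (s1 := true) (s2 := false) (a := 2) (b := 0) (c := 2) (cn := .pp) (n1 := ndB1q2a) (n2 := ndB5q2) (pc := pcB0) (cut := Cut.none) (xt := Ext.none) (P1 := 0) (W1 := 536870912) (P2 := 1073741824) (W2 := 536870912) (P3 := 1033476505) (W3 := 6710887) (N0 := 3) (En := eng) (mo := mog) (C1 := cd1q2a) (C2 := cd5q2) (C3 := pd0)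
    rfl k0_pm_202_a

noncomputable def f_pm_202_b : ℕ → ℕ → ℕ → ℕ → Bool := onCell 0 536870912 1073741824 536870912 1033476505 6710887
    (rowB 3 eng mog cd1q2b cd5q2 pd0 2 false true false .pp 2 0 2 (qsf 1239849684 370763052 1073741824 536870912 0) ndB1q2b ndB5q2 pcB0 Cut.none Ext.none)

def k0_pm_202_b : ∃ t, chk3 f_pm_202_b t 1 1 1 = true :=
  ⟨(a (b (a (b (l 1) (a (b (a (a (b (l 15232896) (l 15757760)) (b (l 1) (l 15744360))) (b (l 1) (a (l 15731880) (l 1)))) (a (a (l 16084968) (b (l 16081624) (l 16391328))) (a (b (l 16073928) (l 16388000)) (l 513280523623)))) (b (l 1) (b (l 15715344) (l 16221544))))) (l 1)) (a (b (a (b (a (a (l 16122480) (l 16191600)) (a (l 16233456) (l 16304928))) (a (a (l 15682360) (l 15761968)) (a (l 15799960) (l 15881680)))) (b (l 170220619031) (l 16166648))) (a (a (a (l 15391848) (l 15489920)) (a (l 15291128) (l 15621456))) (b (l 16027376) (l 15948416)))) (b (b (a (l 768294617959) (l 1)) (a (l 16457016) (a (l 16360296) (l 15983920)))) (b (a (l 16672328)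 (a (l 16416552) (l 16025240))) (a (l 16704408) (a (l 16265112) (b (l 15858848) (l 15925584)))))))) (b (l 1) (b (l 1) (a (a (b (a (l 15367688) (b (l 1) (l 15172672))) (a (b (l 15527584) (l 15776040)) (l 15505672))) (b (l 1) (b (l 15193736) (l 15520424)))) (l 1))))), by decide +kernel⟩

theorem c_pm_202_b : CertB 1239849684 370763052 1073741824 536870912 1033476505 6710887 3 eng mog cd1q2b cd5q2 pd0 false true false .pp 2 0 2
    ndB1q2b ndB5q2 pcB0 Cut.none Ext.none :=
  certB2 (fam := false) (s1 := true) (s2 := false) (a := 2) (b := 0) (c := 2) (cn := .pp) (n1 := ndB1q2b) (n2 := ndB5q2) (pc := pcB0) (cut := Cut.none) (xt := Ext.none) (P1 := 1239849684) (W1 := 370763052) (P2 := 1073741824) (W2 := 536870912) (P3 := 1033476505) (W3 := 6710887) (N0 := 3) (En := eng) (mo := mog) (C1 := cd1q2b) (C2 := cd5q2) (C3 := pd0)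
    rfl (fun _ => rfl) k0_pm_202_b

noncomputable def f_pm_203_a : ℕ → ℕ → ℕ → ℕ → Bool := onCell 0 536870912 0 1230186008 1033476505 6710887
    (rowB 3 eng mog cd1q2a cd5q3 pd0 0 false true false .up 2 0 3 (qsf 0 536870912 0 1230186008 0) ndB1q2a ndB5q3 pcB0 Cut.none Ext.none)

def k0_pm_203_a : ∃ t, chk3 f_pm_203_a t 1 1 1 = true :=
  ⟨(b (l 2) (b (l 2) (b (a (b (l 2) (b (a (l 2) (l 2)) (a (l 16170128) (a (b (l 15863688) (l 15763088)) (l 15348344))))) (l 2)) (a (b (a (b (a (l 16206208) (a (l 16017944) (l 15876224))) (a (a (l 16165584) (l 16029040)) (b (l 15739424) (l 15592456)))) (b (a (l 15493392) (l 14979848)) (a (l 15135208) (l 14608216)))) (a (b (a (b (l 15978768) (l 15805904)) (l 15335416)) (a (l 15562600) (l 15009112))) (b (a (l 14784512) (b (l 14343624) (l 14313320))) (a (b (l 14567608) (l 14584600)) (b (l 14506816) (l 14883680)))))) (a (b (b (a (l 14499696) (l 2)) (a (a (l 14231176) (l 14084624)) (b (a (l 13942176) (l 2)) (l 14289168)))) (b (a (b (l 14205312) (l 14542240))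 (l 14837968)) (a (l 15140000) (l 15423992)))) (b (a (b (l 2) (l 14456432)) (l 2)) (a (b (l 15083136) (b (l 15491704) (l 15767040))) (b (a (l 15276856) (l 2)) (a (b (l 15701984) (l 15830544)) (l 15673672)))))))))), by decide +kernel⟩

theorem c_pm_203_a : CertB 0 536870912 0 1230186008 1033476505 6710887 3 eng mog cd1q2a cd5q3 pd0 false true false .up 2 0 3
    ndB1q2a ndB5q3 pcB0 Cut.none Ext.none :=
  certB0 (fam := false) (s1 := true) (s2 := false) (a := 2) (b := 0) (c := 3) (cn := .up) (n1 := ndB1q2a) (n2 := ndB5q3) (pc := pcB0) (cut := Cut.none) (xt := Ext.none) (P1 := 0) (W1 := 536870912) (P2 := 0) (W2 := 1230186008) (P3 := 1033476505) (W3 := 6710887) (N0 := 3) (En := eng) (mo := mog) (C1 := cd1q2a) (C2 := cd5q3) (C3 := pd0)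
    rfl k0_pm_203_a

noncomputable def f_pm_203_b : ℕ → ℕ → ℕ → ℕ → Bool := onCell 0 536870912 0 1230186008 1033476505 6710887
    (rowB 3 eng mog cd1q2b cd5q3 pd0 2 false true false .up 2 0 3 (qsf 1239849684 370763052 0 1230186008 0) ndB1q2b ndB5q3 pcB0 Cut.none Ext.none)

def k0_pm_203_b : ∃ t, chk3 f_pm_203_b t 1 1 1 = true :=
  ⟨(b (l 3) (b (b (l 3) (b (l 3) (a (l 3) (a (a (l 3) (b (l 3) (l 16700800))) (a (b (l 3) (l 16709504)) (a (l 16732680) (l 16736480))))))) (a (b (a (l 2) (b (a (a (l 2) (a (l 2) (l 507441618967))) (a (b (l 3) (l 16257488)) (b (l 16568520) (l 16384744)))) (b (a (b (a (l 2) (l 15818240)) (l 15567224)) (a (l 15948528) (l 16091832))) (a (l 15772584) (l 16108376))))) (a (b (a (l 2) (a (b (l 2) (a (l 15513288) (l 15704472))) (b (l 15599000) (l 15925184)))) (a (a (a (l 15163624) (l 15283688)) (a (l 15308704) (l 15429656))) (a (l 15697536) (b (l 16055160) (l 16101168))))) (b (a (b (a (l 15852224) (l 16038112)) (l 16138800)) (b (l 16296800) (l 16436880))) (a (a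 (b (l 16408736) (l 16503192)) (b (l 16620704) (l 16630904))) (a (l 16553760) (l 16414128)))))) (a (b (b (a (a (b (l 16630680) (l 16435880)) (l 149954634967)) (b (l 16651488) (l 16542752))) (b (a (a (l 16220816) (l 16344200)) (l 16530152)) (l 16477656))) (b (a (b (l 16591280) (l 16719784)) (l 16459552)) (a (b (l 16430392) (l 16035432)) (b (a (l 16321560) (l 16242280)) (l 15880512))))) (a (b (b (b (l 16691176) (l 16680400)) (b (l 16747480) (l 16601048))) (b (l 246993241687) (b (b (l 16178416) (l 16057536)) (l 15751568)))) (b (b (b (l 16728456) (l 16691952)) (l 16442864)) (b (l 15969904) (l 1)))))))), by decide +kernel⟩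

theorem c_pm_203_b : CertB 1239849684 370763052 0 1230186008 1033476505 6710887 3 eng mog cd1q2b cd5q3 pd0 false true false .up 2 0 3
    ndB1q2b ndB5q3 pcB0 Cut.none Ext.none :=
  certB2 (fam := false) (s1 := true) (s2 := false) (a := 2) (b := 0) (c := 3) (cn := .up) (n1 := ndB1q2b) (n2 := ndB5q3) (pc := pcB0) (cut := Cut.none) (xt := Ext.none) (P1 := 1239849684) (W1 := 370763052) (P2 := 0) (W2 := 1230186008) (P3 := 1033476505) (W3 := 6710887) (N0 := 3) (En := eng) (mo := mog) (C1 := cd1q2b) (C2 := cd5q3) (C3 := pd0)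
    rfl (fun _ => rfl) k0_pm_203_b

noncomputable def cut_pm_213_a : Cut := Cut.of [[⟨0, 1, 0, 20971520⟩, ⟨1, 1, 0, 20971520⟩, ⟨2, 2, 0, 1572864⟩]]

noncomputable def xt_pm_213_a : Ext := extD3 3 ⟨4, 1, 1, 5, 27, 5, 41, 50, 81, 200, 1, 64⟩ eng cd1q2a cd5q3 pd1 false true false .pnn 2 1 3 rfl ndB1q2a ndB5q3 pcB1

noncomputable def f_pm_213_a : ℕ → ℕ → ℕ → ℕ → Bool := onCell 0 536870912 0 1230186008 1033476505 6710887
    (rowB 3 eng mog cd1q2a cd5q3 pd1 0 false true false .pnn 2 1 3 (qsf 0 536870912 0 1230186008 1) ndB1q2a ndB5q3 pcB1 cut_pm_213_a xt_pm_213_a)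

def k0_pm_213_a : ∃ t, chk3 f_pm_213_a t 2 4 1 = true :=
  ⟨(l 3), by decide +kernel⟩

def k1_pm_213_a : ∃ t, chk3 f_pm_213_a t 6 4 1 = true :=
  ⟨(a (l 3) (b (l 3) (b (a (l 3) (b (l 3) (a (l 3) (b (l 3) (l 351281184215))))) (a (b (l 3) (a (b (l 3) (l 337322392743)) (b (l 333564334807) (a (l 271824130727) (l 16649792))))) (b (a (b (l 3) (a (l 360407920375) (l 269676729831))) (b (a (l 334101313495) (l 267529318727)) (l 205252245015))) (a (b (a (l 264844857559) (l 16679056)) (l 16672512)) (l 16674728))))))), by decide +kernel⟩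

def k2_pm_213_a : ∃ t, chk3 f_pm_213_a t 14 4 1 = true :=
  ⟨(b (a (l 3) (b (l 3) (b (l 3) (a (b (l 3) (a (l 3) (b (l 3) (l 277729915975)))) (b (a (b (l 3) (l 371145428695)) (a (a (l 362018625943) (l 6308174926891846523161329695)) (l 5292677238415221565838409759))) (a (b (a (l 301889086183) (l 16706840)) (l 16710992)) (l 16693264))))))) (b (a (b (a (l 3) (b (a (l 3) (l 366313662135)) (a (l 366850576855) (b (l 317458436647) (l 16737072))))) (a (b (a (l 3) (l 335175155239)) (a (l 289541105895) (l 16752888))) (b (a (l 264845087111) (l 16763080)) (l 16762768)))) (a (b (b (a (b (l 337859489303) (l 270213729239)) (b (l 16700552) (l 16725560))) (a (l 16742272) (l 16731448))) (b (l 16743120) (l 16731560))) (b (b (a (l 16716944) (l 16718080)) (l 16700776)) (a (l 16716648) (l 16703064))))) (a (b (a (b (l 16720720) (l 16728296)) (l 16723696)) (a (l 16687312) (l 16662248))) (b (a (l 16692872) (l 16659848)) (l 16608680))))), by decide +kernel⟩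

def k3_pm_213_a : ∃ t, chk3 f_pm_213_a t 15 4 1 = true :=
  ⟨(b (a (b (b (l 3) (a (l 3) (b (l 3) (a (b (l 3) (l 392620377415)) (b (a (l 418927066247) (l 307794773303)) (a (l 262697624279) (l 16764936))))))) (a (b (a (b (l 3) (b (l 378661672423) (a (l 346986274023) (l 16732064)))) (a (b (l 414632052599) (l 238001496087)) (b (a (l 380272321447) (l 352355017879)) (l 16747560)))) (a (b (b (l 223505935543) (l 16728384)) (l 16729784)) (b (l 16745096) (l 16744600)))) (b (b (a (b (a (l 353428789751) (l 234243445975)) (l 16757032)) (l 16763744)) (a (l 16756808) (l 16762768))) (b (l 16760632) (l 16762320))))) (b (b (a (a (l 3) (l 6)) (l 6)) (b (a (a (a (b (l 3) (b (l 418390195959) (l 309405396903))) (l 6)) (l 6)) (l 6)) (a (a (b (l 213305492919) (l 16763624)) (l 16762616)) (l 16760400)))) (b (a (l 16761040) (l 16756368)) (a (l 16761992) (l 16755520))))) (b (a (b (a (b (l 16712680) (l 16723712)) (l 16760512)) (a (l 16697408) (l 16734680))) (b (l 16756536) (l 16745640))) (a (b (a (l 16638288)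 (l 16661128)) (a (l 16560200) (l 16562680))) (b (l 16740328) (l 16741640))))), by decide +kernel⟩

def k4_pm_213_a : ∃ t, chk3 f_pm_213_a t 2 5 1 = true :=
  ⟨(b (a (l 3) (b (l 3) (a (l 3) (b (l 3) (a (l 3) (a (l 277729858375) (b (l 258939343223) (l 16670176)))))))) (a (b (l 3) (a (l 3) (a (l 3) (b (l 3) (b (l 3) (l 305110376727)))))) (b (a (a (l 3) (b (l 3) (a (l 3) (b (l 3) (l 270213688327))))) (b (a (a (l 300278496023) (b (l 284172338023) (l 243906972951))) (b (a (l 16663696) (l 16663976)) (l 16665312))) (a (b (a (l 257865636679) (l 16689040)) (l 16664368)) (l 16643648)))) (a (b (a (a (l 3) (b (l 3) (l 226190376759))) (b (a (l 284172349623) (l 16711408)) (a (l 16679648) (l 16682936)))) (a (b (a (l 227264148551) (l 95730759575)) (a (a (l 147807253239) (l 16729904)) (l 16693304))) (b (l 16645880) (l 16623488)))) (b (a (b (l 16660872) (l 16628768)) (l 16588080)) (a (l 16565744) (l 16500392))))))), by decide +kernel⟩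

def k5_pm_213_a : ∃ t, chk3 f_pm_213_a t 3 5 1 = true :=
  ⟨(a (b (a (b (a (b (l 3) (a (l 3) (b (l 3) (l 271824174423)))) (b (a (l 3) (b (l 3) (l 280950938423))) (a (b (l 287930269223) (l 224579481127)) (b (l 214915782535) (l 16625528))))) (a (b (a (b (l 273971696343) (l 242296292871)) (b (l 233169452599) (l 16643168))) (a (l 202567839639) (l 16637984))) (b (a (b (l 16631544) (l 16630848)) (l 16620824)) (l 16590928)))) (b (a (b (a (b (a (l 313700068823) (l 211157699399)) (l 16627088)) (b (l 16645088) (l 16644776))) (a (l 16627920) (l 16625256))) (b (a (l 16655904) (l 16647744)) (l 16605656))) (a (b (l 16603024) (l 16575952)) (b (l 16561504) (l 16523496))))) (b (a (a (b (l 16629728) (l 16603888)) (b (l 16591496) (l 16563488))) (a (b (l 16547280) (l 16517600)) (l 16466280))) (a (a (b (l 16547672) (l 16458352)) (b (l 16528376) (l 16458360))) (b (l 16457592) (l 16438272))))) (b (a (b (a (b (l 16611520) (l 16547080)) (b (l 16532208) (l 16454168))) (a (b (l 16489544) (l 16438848)) (l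 16347400))) (b (a (a (l 16419736) (l 16387000)) (l 16468008)) (l 16377840))) (a (b (l 16306216) (l 16239296)) (b (a (l 16057104) (l 15855112)) (l 15861272))))), by decide +kernel⟩

def k6_pm_213_a : ∃ t, chk3 f_pm_213_a t 2 12 1 = true :=
  ⟨(a (b (a (b (l 3) (a (l 3) (a (l 3) (l 371682409239)))) (b (b (a (l 3) (a (l 300278605031) (b (l 171429565287) (l 16739016)))) (a (l 355039425175) (a (b (l 284172380823) (l 16745160)) (l 16680616)))) (a (b (a (l 362555620471) (b (l 270750625367) (l 144049131335))) (a (b (l 265918797335) (a (l 261086965255) (l 16741344))) (l 16728072))) (b (l 16694648) (l 16608328))))) (a (b (a (l 3) (b (a (l 3) (b (l 275045612599) (a (l 271287519687) (l 16744744)))) (a (a (b (l 3) (l 267529427927)) (b (l 269676909335) (l 16768032))) (b (l 16706648) (l 16690544))))) (a (b (a (l 3) (a (b (l 3) (l 270750651975)) (b (l 270213780983) (l 305647176199)))) (a (b (a (l 3) (a (l 319605953799) (l 249275820583))) (a (a (l 336248952247) (l 247665209191)) (b (l 90362054215)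 (l 16718928)))) (b (a (l 303499691543) (l 16708824)) (l 16666496)))) (b (a (b (b (l 16696088) (l 16698200)) (l 16689264)) (l 16630504)) (l 16500024)))) (b (a (b (a (b (l 16725728) (l 16691032)) (l 16638296)) (l 16555392)) (l 16388400)) (a (l 16256520) (l 16307232))))) (b (a (b (a (b (l 16629408) (l 16616888)) (l 16521760)) (a (l 16455808) (l 16404040))) (b (a (l 16452200) (l 16381248)) (a (l 16305016) (l 16262776)))) (a (b (a (l 16355728) (l 16230240)) (a (l 16156992) (l 15962744))) (b (a (l 16163464) (l 16185680)) (l 16111856))))), by decide +kernel⟩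

def k7_pm_213_a : ∃ t, chk3 f_pm_213_a t 2 13 1 = true :=
  ⟨(b (a (a (b (a (b (a (b (a (b (a (l 256792017815) (l 16750736)) (l 16719344)) (l 16708160)) (l 16643792)) (l 16599848)) (a (l 16573608) (l 16523448))) (b (l 16489072) (l 16384416))) (a (b (l 16443448) (l 16348776)) (l 16144552))) (b (a (l 16258248) (l 16069688)) (a (l 15805800) (b (l 15908208) (l 15841008))))) (a (b (a (b (l 15997688) (l 15933328)) (l 15983016)) (l 15921440)) (l 16059144))) (a (a (b (a (l 15986296) (b (l 16005416) (l 15854416))) (a (b (l 15932816) (l 15769256)) (b (a (l 15751672) (l 15699824)) (l 15672904)))) (b (a (b (l 15820144) (l 15753512)) (l 15801224)) (l 15756600))) (a (l 15894632) (l 16027752)))), by decide +kernel⟩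

def k8_pm_213_a : ∃ t, chk3 f_pm_213_a t 3 6 1 = true :=
  ⟨(a (b (b (a (b (l 16382616) (l 16317624)) (l 16415768)) (a (l 16242688) (l 16328256))) (b (a (l 16174472) (l 16267568)) (a (l 16180152) (b (l 16274896) (l 16315360))))) (b (a (b (l 16213968) (l 16222592)) (b (l 15831104) (a (l 15948080) (l 15705152)))) (a (b (b (l 16237544) (l 16240696)) (l 16189048)) (b (a (l 15926024) (l 15615768)) (l 15632688))))), by decide +kernel⟩

def k9_pm_213_a : ∃ t, chk3 f_pm_213_a t 1 7 1 = true :=
  ⟨(a (b (b (a (b (a (a (b (a (l 15664768) (l 15621664)) (l 15601712)) (l 15654408)) (l 15760424)) (l 15712552)) (a (l 15917728) (l 15981600))) (a (b (l 15757800) (l 15841928)) (a (b (l 16016144) (l 16116656)) (b (l 16197416) (l 16403720))))) (b (a (l 1) (b (l 16411000) (l 1))) (l 1))) (b (a (b (a (b (l 16209664) (l 16309344)) (l 16441184)) (a (l 16578728) (l 16278040))) (b (a (l 16045032) (l 15444112)) (a (l 15614632) (b (l 15259192) (l 15187648))))) (b (a (b (l 16267544) (a (l 16293368) (l 16023136)))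 (a (b (l 15686544) (l 15689536)) (l 15222464))) (a (l 1) (a (b (l 15736544) (l 1)) (b (a (l 15429256) (l 15221136)) (a (l 15520808) (l 15366120)))))))), by decide +kernel⟩

theorem s10_pm_213_a : ∃ t, chk3 f_pm_213_a t 2 6 1 = true := ex3_b k6_pm_213_a k7_pm_213_a

theorem s11_pm_213_a : ∃ t, chk3 f_pm_213_a t 1 6 1 = true := ex3_a s10_pm_213_a k8_pm_213_a

theorem s12_pm_213_a : ∃ t, chk3 f_pm_213_a t 1 3 1 = true := ex3_b s11_pm_213_a k9_pm_213_a

theorem s13_pm_213_a : ∃ t, chk3 f_pm_213_a t 1 5 1 = true := ex3_a k4_pm_213_a k5_pm_213_a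

theorem s14_pm_213_a : ∃ t, chk3 f_pm_213_a t 7 4 1 = true := ex3_a k2_pm_213_a k3_pm_213_a

theorem s15_pm_213_a : ∃ t, chk3 f_pm_213_a t 3 4 1 = true := ex3_a k1_pm_213_a s14_pm_213_a

theorem s16_pm_213_a : ∃ t, chk3 f_pm_213_a t 1 4 1 = true := ex3_a k0_pm_213_a s15_pm_213_a

theorem s17_pm_213_a : ∃ t, chk3 f_pm_213_a t 1 2 1 = true := ex3_b s16_pm_213_a s13_pm_213_a

theorem s18_pm_213_a : ∃ t, chk3 f_pm_213_a t 1 1 1 = true := ex3_b s17_pm_213_a s12_pm_213_a

theorem c_pm_213_a : CertB 0 536870912 0 1230186008 1033476505 6710887 3 eng mog cd1q2a cd5q3 pd1 false true false .pnn 2 1 3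
    ndB1q2a ndB5q3 pcB1 cut_pm_213_a xt_pm_213_a :=
  certB0 (fam := false) (s1 := true) (s2 := false) (a := 2) (b := 1) (c := 3) (cn := .pnn) (n1 := ndB1q2a) (n2 := ndB5q3) (pc := pcB1) (cut := cut_pm_213_a) (xt := xt_pm_213_a) (P1 := 0) (W1 := 536870912) (P2 := 0) (W2 := 1230186008) (P3 := 1033476505) (W3 := 6710887) (N0 := 3) (En := eng) (mo := mog) (C1 := cd1q2a) (C2 := cd5q3) (C3 := pd1)
    rfl s18_pm_213_a

noncomputable def cut_pm_213_b : Cut := Cut.of [[⟨0, 1, 0, 20971520⟩, ⟨1, 1, 0, 20971520⟩, ⟨2, 2, 0, 1572864⟩]]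

noncomputable def f_pm_213_b : ℕ → ℕ → ℕ → ℕ → Bool := onCell 1239849684 370763052 0 1230186008 1033476505 6710887
    (rowB 3 eng mog cd1q2b cd5q3 pd1 0 false true false .pnn 2 1 3 (qsf 1239849684 370763052 0 1230186008 1) ndB1q2b ndB5q3 pcB1 cut_pm_213_b Ext.none)

def k0_pm_213_b : ∃ t, chk3 f_pm_213_b t 1 1 1 = true :=
  ⟨(b (l 3) (b (a (b (a (b (l 3) (a (l 3) (l 3))) (l 3)) (a (b (a (b (a (b (a (b (b (l 16748944) (a (l 16748352) (l 16770512))) (b (l 16738768) (l 16740488))) (l 264845023719)) (a (l 16640080) (l 16641264))) (b (l 3) (a (l 216526699335) (l 16756752)))) (a (b (l 16537336) (l 16486056)) (b (l 16627856) (l 16570360)))) (b (l 3) (a (b (l 16759824) (l 16670312)) (l 283635499559)))) (a (b (a (b (l 16360760) (l 16223872)) (l 16259840)) (b (l 16100808) (l 15935024))) (b (a (l 16347200) (l 16469392)) (b (l 16246416) (l 16061776))))) (b (a (b (l 3) (l 16687280)) (l 3)) (a (a (b (l 16614440) (l 16289520)) (b (l 16670120) (l 1))) (l 1))))) (b (l 3) (l 1))) (a (b (a (b (b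 (a (b (l 15756448) (a (l 15572064) (l 15579608))) (b (l 15864680) (l 15654608))) (a (b (l 15379264) (l 15506416)) (b (a (l 15445456) (l 1)) (l 15404632)))) (b (l 15501856) (l 15599328))) (l 1)) (l 1)) (l 1)))), by decide +kernel⟩

theorem c_pm_213_b : CertB 1239849684 370763052 0 1230186008 1033476505 6710887 3 eng mog cd1q2b cd5q3 pd1 false true false .pnn 2 1 3
    ndB1q2b ndB5q3 pcB1 cut_pm_213_b Ext.none :=
  certB0 (fam := false) (s1 := true) (s2 := false) (a := 2) (b := 1) (c := 3) (cn := .pnn) (n1 := ndB1q2b) (n2 := ndB5q3) (pc := pcB1) (cut := cut_pm_213_b) (xt := Ext.none) (P1 := 1239849684) (W1 := 370763052) (P2 := 0) (W2 := 1230186008) (P3 := 1033476505) (W3 := 6710887) (N0 := 3) (En := eng) (mo := mog) (C1 := cd1q2b) (C2 := cd5q3) (C3 := pd1)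
    rfl k0_pm_213_b

noncomputable def f_pm_303 : ℕ → ℕ → ℕ → ℕ → Bool := onCell 0 536870912 0 1230186008 1033476505 6710887
    (rowB 3 eng mog cd1q3 cd5q3 pd0 2 false true false .npn 3 0 3 (qsf 1610612736 536870912 0 1230186008 0) ndB1q3 ndB5q3 pcB0 Cut.none Ext.none)

def k0_pm_303 : ∃ t, chk3 f_pm_303 t 1 1 1 = true :=
  ⟨(b (l 3) (b (b (l 3) (a (l 3) (a (a (l 3) (a (l 3) (l 1))) (l 1)))) (a (a (b (b (b (l 3) (a (l 170888515975) (a (l 168741552311) (a (l 15328936) (l 15454968))))) (a (a (a (b (l 14718064) (l 14772240)) (b (b (l 14820088) (l 14817664)) (a (l 14895480) (l 14926520)))) (a (a (l 14908536) (b (l 14945792) (l 14956488))) (b (l 15017192) (l 15048920)))) (a (b (b (l 15149840) (l 15165520)) (l 15233032)) (b (a (l 15294192) (l 15404248)) (l 15465512))))) (b (a (a (a (l 14894320) (b (b (l 14974280) (l 15020592)) (l 15064608))) (a (a (l 15045976) (b (l 15032944) (l 15093216))) (l 15077976))) (a (b (l 15382528) (a (l 15411040) (l 15606128))) (b (l 15539824) (l 15832984))))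 (a (a (a (l 15026144) (l 15149816)) (a (l 15178792) (l 15303920))) (a (l 15578416) (l 1))))) (b (b (b (a (l 3) (a (l 3) (l 16547728))) (a (a (l 165521251127) (b (l 16072152) (l 15959888))) (a (l 16230608) (l 1)))) (a (b (b (a (l 15573832) (l 15778464)) (l 15497600)) (l 15716048)) (l 1))) (b (a (b (a (l 15780384) (l 1)) (l 1)) (l 1)) (l 1)))) (l 1)))), by decide +kernel⟩

theorem c_pm_303 : CertB 1610612736 536870912 0 1230186008 1033476505 6710887 3 eng mog cd1q3 cd5q3 pd0 false true false .npn 3 0 3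
    ndB1q3 ndB5q3 pcB0 Cut.none Ext.none :=
  certB2 (fam := false) (s1 := true) (s2 := false) (a := 3) (b := 0) (c := 3) (cn := .npn) (n1 := ndB1q3) (n2 := ndB5q3) (pc := pcB0) (cut := Cut.none) (xt := Ext.none) (P1 := 1610612736) (W1 := 536870912) (P2 := 0) (W2 := 1230186008) (P3 := 1033476505) (W3 := 6710887) (N0 := 3) (En := eng) (mo := mog) (C1 := cd1q3) (C2 := cd5q3) (C3 := pd0)
    rfl (fun _ => rfl) k0_pm_303

noncomputable def f_pm_313 : ℕ → ℕ → ℕ → ℕ → Bool := onCell 1610612736 536870912 0 1230186008 1033476505 6710887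
    (rowB 3 eng mog cd1q3 cd5q3 pd1 0 false true false .dn 3 1 3 (qsf 1610612736 536870912 0 1230186008 1) ndB1q3 ndB5q3 pcB1 Cut.none Ext.none)

def k0_pm_313 : ∃ t, chk3 f_pm_313 t 1 1 1 = true :=
  ⟨(b (l 3) (l 1)), by decide +kernel⟩

theorem c_pm_313 : CertB 1610612736 536870912 0 1230186008 1033476505 6710887 3 eng mog cd1q3 cd5q3 pd1 false true false .dn 3 1 3
    ndB1q3 ndB5q3 pcB1 Cut.none Ext.none :=
  certB0 (fam := false) (s1 := true) (s2 := false) (a := 3) (b := 1) (c := 3) (cn := .dn) (n1 := ndB1q3) (n2 := ndB5q3) (pc := pcB1) (cut := Cut.none) (xt := Ext.none) (P1 := 1610612736) (W1 := 536870912) (P2 := 0) (W2 := 1230186008) (P3 := 1033476505) (W3 := 6710887) (N0 := 3) (En := eng) (mo := mog) (C1 := cd1q3) (C2 := cd5q3) (C3 := pd1)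
    rfl k0_pm_313

noncomputable def f_mm_001 : ℕ → ℕ → ℕ → ℕ → Bool := onCell 0 536870912 0 536870912 1033476505 6710887
    (rowB 3 eng mog cd1q0 cd5q1 pd0 1 false false false .up 0 0 1 (qsf 0 536870912 536870912 536870912 0) ndB1q0 ndB5q1 pcB0 Cut.none Ext.none)

def k0_mm_001 : ∃ t, chk3 f_mm_001 t 1 1 1 = true :=
  ⟨(l 3), by decide +kernel⟩

theorem c_mm_001 : CertB 0 536870912 536870912 536870912 1033476505 6710887 3 eng mog cd1q0 cd5q1 pd0 false false false .up 0 0 1
    ndB1q0 ndB5q1 pcB0 Cut.none Ext.none :=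
  certB1 (fam := false) (s1 := false) (s2 := false) (a := 0) (b := 0) (c := 1) (cn := .up) (n1 := ndB1q0) (n2 := ndB5q1) (pc := pcB0) (cut := Cut.none) (xt := Ext.none) (P1 := 0) (W1 := 536870912) (P2 := 536870912) (W2 := 536870912) (P3 := 1033476505) (W3 := 6710887) (N0 := 3) (En := eng) (mo := mog) (C1 := cd1q0) (C2 := cd5q1) (C3 := pd0)
    rfl (fun _ => rfl) k0_mm_001

noncomputable def f_mm_011 : ℕ → ℕ → ℕ → ℕ → Bool := onCell 0 536870912 536870912 536870912 1033476505 6710887
    (rowB 3 eng mog cd1q0 cd5q1 pd1 1 false false false .pnn 0 1 1 (qsf 0 536870912 536870912 536870912 1) ndB1q0 ndB5q1 pcB1 Cut.none Ext.none)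

def k0_mm_011 : ∃ t, chk3 f_mm_011 t 1 1 1 = true :=
  ⟨(l 5), by decide +kernel⟩

theorem c_mm_011 : CertB 0 536870912 536870912 536870912 1033476505 6710887 3 eng mog cd1q0 cd5q1 pd1 false false false .pnn 0 1 1
    ndB1q0 ndB5q1 pcB1 Cut.none Ext.none :=
  certB1 (fam := false) (s1 := false) (s2 := false) (a := 0) (b := 1) (c := 1) (cn := .pnn) (n1 := ndB1q0) (n2 := ndB5q1) (pc := pcB1) (cut := Cut.none) (xt := Ext.none) (P1 := 0) (W1 := 536870912) (P2 := 536870912) (W2 := 536870912) (P3 := 1033476505) (W3 := 6710887) (N0 := 3) (En := eng) (mo := mog) (C1 := cd1q0) (C2 := cd5q1) (C3 := pd1)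
    rfl (fun _ => rfl) k0_mm_011

noncomputable def f_mm_012 : ℕ → ℕ → ℕ → ℕ → Bool := onCell 0 536870912 1073741824 536870912 1033476505 6710887
    (rowB 3 eng mog cd1q0 cd5q2 pd1 0 false false false .pnp 0 1 2 (qsf 0 536870912 1073741824 536870912 1) ndB1q0 ndB5q2 pcB1 Cut.none Ext.none)

def k0_mm_012 : ∃ t, chk3 f_mm_012 t 1 1 1 = true :=
  ⟨(l 5), by decide +kernel⟩

theorem c_mm_012 : CertB 0 536870912 1073741824 536870912 1033476505 6710887 3 eng mog cd1q0 cd5q2 pd1 false false false .pnp 0 1 2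
    ndB1q0 ndB5q2 pcB1 Cut.none Ext.none :=
  certB0 (fam := false) (s1 := false) (s2 := false) (a := 0) (b := 1) (c := 2) (cn := .pnp) (n1 := ndB1q0) (n2 := ndB5q2) (pc := pcB1) (cut := Cut.none) (xt := Ext.none) (P1 := 0) (W1 := 536870912) (P2 := 1073741824) (W2 := 536870912) (P3 := 1033476505) (W3 := 6710887) (N0 := 3) (En := eng) (mo := mog) (C1 := cd1q0) (C2 := cd5q2) (C3 := pd1)
    rfl k0_mm_012

noncomputable def f_mm_022 : ℕ → ℕ → ℕ → ℕ → Bool := onCell 0 536870912 1073741824 536870912 1033476505 6710887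
    (rowB 3 eng mog cd1q0 cd5q2 pd2 0 false false false .pp 0 2 2 (qsf 0 536870912 1073741824 536870912 2) ndB1q0 ndB5q2 pcB2 Cut.none Ext.none)

def k0_mm_022 : ∃ t, chk3 f_mm_022 t 1 1 1 = true :=
  ⟨(l 5), by decide +kernel⟩

theorem c_mm_022 : CertB 0 536870912 1073741824 536870912 1033476505 6710887 3 eng mog cd1q0 cd5q2 pd2 false false false .pp 0 2 2
    ndB1q0 ndB5q2 pcB2 Cut.none Ext.none :=
  certB0 (fam := false) (s1 := false) (s2 := false) (a := 0) (b := 2) (c := 2) (cn := .pp) (n1 := ndB1q0) (n2 := ndB5q2) (pc := pcB2) (cut := Cut.none) (xt := Ext.none) (P1 := 0) (W1 := 536870912) (P2 := 1073741824) (W2 := 536870912) (P3 := 1033476505) (W3 := 6710887) (N0 := 3) (En := eng) (mo := mog) (C1 := cd1q0) (C2 := cd5q2) (C3 := pd2)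
    rfl k0_mm_022

noncomputable def f_mm_023 : ℕ → ℕ → ℕ → ℕ → Bool := onCell 0 536870912 0 1230186008 1033476505 6710887
    (rowB 3 eng mog cd1q0 cd5q3 pd2 0 false false false .up 0 2 3 (qsf 0 536870912 0 1230186008 2) ndB1q0 ndB5q3 pcB2 Cut.none Ext.none)

def k0_mm_023 : ∃ t, chk3 f_mm_023 t 1 1 1 = true :=
  ⟨(l 5), by decide +kernel⟩

theorem c_mm_023 : CertB 0 536870912 0 1230186008 1033476505 6710887 3 eng mog cd1q0 cd5q3 pd2 false false false .up 0 2 3
    ndB1q0 ndB5q3 pcB2 Cut.none Ext.none :=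
  certB0 (fam := false) (s1 := false) (s2 := false) (a := 0) (b := 2) (c := 3) (cn := .up) (n1 := ndB1q0) (n2 := ndB5q3) (pc := pcB2) (cut := Cut.none) (xt := Ext.none) (P1 := 0) (W1 := 536870912) (P2 := 0) (W2 := 1230186008) (P3 := 1033476505) (W3 := 6710887) (N0 := 3) (En := eng) (mo := mog) (C1 := cd1q0) (C2 := cd5q3) (C3 := pd2)
    rfl k0_mm_023

noncomputable def f_mm_033 : ℕ → ℕ → ℕ → ℕ → Bool := onCell 0 536870912 0 1230186008 1033476505 6710887
    (rowB 3 eng mog cd1q0 cd5q3 pd3 0 false false false .pnn 0 3 3 (qsf 0 536870912 0 1230186008 3) ndB1q0 ndB5q3 pcB3 Cut.none Ext.none)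

def k0_mm_033 : ∃ t, chk3 f_mm_033 t 1 1 1 = true :=
  ⟨(l 5), by decide +kernel⟩

theorem c_mm_033 : CertB 0 536870912 0 1230186008 1033476505 6710887 3 eng mog cd1q0 cd5q3 pd3 false false false .pnn 0 3 3
    ndB1q0 ndB5q3 pcB3 Cut.none Ext.none :=
  certB0 (fam := false) (s1 := false) (s2 := false) (a := 0) (b := 3) (c := 3) (cn := .pnn) (n1 := ndB1q0) (n2 := ndB5q3) (pc := pcB3) (cut := Cut.none) (xt := Ext.none) (P1 := 0) (W1 := 536870912) (P2 := 0) (W2 := 1230186008) (P3 := 1033476505) (W3 := 6710887) (N0 := 3) (En := eng) (mo := mog) (C1 := cd1q0) (C2 := cd5q3) (C3 := pd3)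
    rfl k0_mm_033

noncomputable def f_mm_101 : ℕ → ℕ → ℕ → ℕ → Bool := onCell 536870912 536870912 0 536870912 1033476505 6710887
    (rowB 3 eng mog cd1q1 cd5q1 pd0 1 false false false .npn 1 0 1 (qsf 536870912 536870912 536870912 536870912 0) ndB1q1 ndB5q1 pcB0 Cut.none Ext.none)

def k0_mm_101 : ∃ t, chk3 f_mm_101 t 1 1 1 = true :=
  ⟨(l 3), by decide +kernel⟩

theorem c_mm_101 : CertB 536870912 536870912 536870912 536870912 1033476505 6710887 3 eng mog cd1q1 cd5q1 pd0 false false false .npn 1 0 1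
    ndB1q1 ndB5q1 pcB0 Cut.none Ext.none :=
  certB1 (fam := false) (s1 := false) (s2 := false) (a := 1) (b := 0) (c := 1) (cn := .npn) (n1 := ndB1q1) (n2 := ndB5q1) (pc := pcB0) (cut := Cut.none) (xt := Ext.none) (P1 := 536870912) (W1 := 536870912) (P2 := 536870912) (W2 := 536870912) (P3 := 1033476505) (W3 := 6710887) (N0 := 3) (En := eng) (mo := mog) (C1 := cd1q1) (C2 := cd5q1) (C3 := pd0)
    rfl (fun _ => rfl) k0_mm_101

noncomputable def f_mm_102 : ℕ → ℕ → ℕ → ℕ → Bool := onCell 536870912 536870912 1073741824 536870912 1033476505 6710887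
    (rowB 3 eng mog cd1q1 cd5q2 pd0 0 false false false .npp 1 0 2 (qsf 536870912 536870912 1073741824 536870912 0) ndB1q1 ndB5q2 pcB0 Cut.none Ext.none)

def k0_mm_102 : ∃ t, chk3 f_mm_102 t 1 1 1 = true :=
  ⟨(l 3), by decide +kernel⟩

theorem c_mm_102 : CertB 536870912 536870912 1073741824 536870912 1033476505 6710887 3 eng mog cd1q1 cd5q2 pd0 false false false .npp 1 0 2
    ndB1q1 ndB5q2 pcB0 Cut.none Ext.none :=
  certB0 (fam := false) (s1 := false) (s2 := false) (a := 1) (b := 0) (c := 2) (cn := .npp) (n1 := ndB1q1) (n2 := ndB5q2) (pc := pcB0) (cut := Cut.none) (xt := Ext.none) (P1 := 536870912) (W1 := 536870912) (P2 := 1073741824) (W2 := 536870912) (P3 := 1033476505) (W3 := 6710887) (N0 := 3) (En := eng) (mo := mog) (C1 := cd1q1) (C2 := cd5q2) (C3 := pd0)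
    rfl k0_mm_102

noncomputable def f_mm_112 : ℕ → ℕ → ℕ → ℕ → Bool := onCell 536870912 536870912 1073741824 536870912 1033476505 6710887
    (rowB 3 eng mog cd1q1 cd5q2 pd1 0 false false false .dn 1 1 2 (qsf 536870912 536870912 1073741824 536870912 1) ndB1q1 ndB5q2 pcB1 Cut.none Ext.none)

def k0_mm_112 : ∃ t, chk3 f_mm_112 t 1 1 1 = true :=
  ⟨(l 3), by decide +kernel⟩

theorem c_mm_112 : CertB 536870912 536870912 1073741824 536870912 1033476505 6710887 3 eng mog cd1q1 cd5q2 pd1 false false false .dn 1 1 2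
    ndB1q1 ndB5q2 pcB1 Cut.none Ext.none :=
  certB0 (fam := false) (s1 := false) (s2 := false) (a := 1) (b := 1) (c := 2) (cn := .dn) (n1 := ndB1q1) (n2 := ndB5q2) (pc := pcB1) (cut := Cut.none) (xt := Ext.none) (P1 := 536870912) (W1 := 536870912) (P2 := 1073741824) (W2 := 536870912) (P3 := 1033476505) (W3 := 6710887) (N0 := 3) (En := eng) (mo := mog) (C1 := cd1q1) (C2 := cd5q2) (C3 := pd1)
    rfl k0_mm_112

noncomputable def f_mm_113 : ℕ → ℕ → ℕ → ℕ → Bool := onCell 536870912 536870912 0 1230186008 1033476505 6710887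
    (rowB 3 eng mog cd1q1 cd5q3 pd1 0 false false false .nn 1 1 3 (qsf 536870912 536870912 0 1230186008 1) ndB1q1 ndB5q3 pcB1 Cut.none Ext.none)

def k0_mm_113 : ∃ t, chk3 f_mm_113 t 1 1 1 = true :=
  ⟨(b (l 5) (b (l 5) (a (l 5) (l 3)))), by decide +kernel⟩

theorem c_mm_113 : CertB 536870912 536870912 0 1230186008 1033476505 6710887 3 eng mog cd1q1 cd5q3 pd1 false false false .nn 1 1 3
    ndB1q1 ndB5q3 pcB1 Cut.none Ext.none :=
  certB0 (fam := false) (s1 := false) (s2 := false) (a := 1) (b := 1) (c := 3) (cn := .nn) (n1 := ndB1q1) (n2 := ndB5q3) (pc := pcB1) (cut := Cut.none) (xt := Ext.none) (P1 := 536870912) (W1 := 536870912) (P2 := 0) (W2 := 1230186008) (P3 := 1033476505) (W3 := 6710887) (N0 := 3) (En := eng) (mo := mog) (C1 := cd1q1) (C2 := cd5q3) (C3 := pd1)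
    rfl k0_mm_113

noncomputable def f_mm_123 : ℕ → ℕ → ℕ → ℕ → Bool := onCell 1073741824 536870912 0 1230186008 1033476505 6710887
    (rowB 3 eng mog cd1q1 cd5q3 pd2 2 false false false .npn 1 2 3 (qsf 536870912 536870912 0 1230186008 2) ndB1q1 ndB5q3 pcB2 Cut.none Ext.none)

def k0_mm_123 : ∃ t, chk3 f_mm_123 t 1 1 1 = true :=
  ⟨(b (l 5) (l 5)), by decide +kernel⟩

theorem c_mm_123 : CertB 536870912 536870912 0 1230186008 1033476505 6710887 3 eng mog cd1q1 cd5q3 pd2 false false false .npn 1 2 3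
    ndB1q1 ndB5q3 pcB2 Cut.none Ext.none :=
  certB2 (fam := false) (s1 := false) (s2 := false) (a := 1) (b := 2) (c := 3) (cn := .npn) (n1 := ndB1q1) (n2 := ndB5q3) (pc := pcB2) (cut := Cut.none) (xt := Ext.none) (P1 := 536870912) (W1 := 536870912) (P2 := 0) (W2 := 1230186008) (P3 := 1033476505) (W3 := 6710887) (N0 := 3) (En := eng) (mo := mog) (C1 := cd1q1) (C2 := cd5q3) (C3 := pd2)
    rfl (fun _ => rfl) k0_mm_123

noncomputable def f_mm_133 : ℕ → ℕ → ℕ → ℕ → Bool := onCell 536870912 536870912 0 1230186008 1033476505 6710887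
    (rowB 3 eng mog cd1q1 cd5q3 pd3 0 false false false .dn 1 3 3 (qsf 536870912 536870912 0 1230186008 3) ndB1q1 ndB5q3 pcB3 Cut.none Ext.none)

def k0_mm_133 : ∃ t, chk3 f_mm_133 t 1 1 1 = true :=
  ⟨(b (l 5) (l 1)), by decide +kernel⟩

theorem c_mm_133 : CertB 536870912 536870912 0 1230186008 1033476505 6710887 3 eng mog cd1q1 cd5q3 pd3 false false false .dn 1 3 3
    ndB1q1 ndB5q3 pcB3 Cut.none Ext.none :=
  certB0 (fam := false) (s1 := false) (s2 := false) (a := 1) (b := 3) (c := 3) (cn := .dn) (n1 := ndB1q1) (n2 := ndB5q3) (pc := pcB3) (cut := Cut.none) (xt := Ext.none) (P1 := 536870912) (W1 := 536870912) (P2 := 0) (W2 := 1230186008) (P3 := 1033476505) (W3 := 6710887) (N0 := 3) (En := eng) (mo := mog) (C1 := cd1q1) (C2 := cd5q3) (C3 := pd3)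
    rfl k0_mm_133

noncomputable def cut_mm_202_a : Cut := Cut.of [[⟨0, 1, 0, 33554432⟩, ⟨1, 0, 0, 33554432⟩, ⟨2, 1, 0, 33554432⟩]]

noncomputable def f_mm_202_a : ℕ → ℕ → ℕ → ℕ → Bool := onCell 0 536870912 0 536870912 1033476505 6710887
    (rowB 3 eng mog cd1q2a cd5q2 pd0 1 false false false .pp 2 0 2 (qsf 0 536870912 1073741824 536870912 0) ndB1q2a ndB5q2 pcB0 cut_mm_202_a Ext.none)

def k0_mm_202_a : ∃ t, chk3 f_mm_202_a t 4 1 1 = true :=
  ⟨(b (b (b (b (b (l 15997888) (b (l 16081040) (l 16147056))) (b (b (l 16236728) (l 16320696)) (l 16387320))) (b (l 16483072) (a (l 16545752) (b (l 16547512) (a (l 16556960) (l 16598152)))))) (b (b (a (b (l 16555384) (l 16565880)) (b (l 16654296) (l 16591608))) (a (l 16585392) (b (a (l 16565072) (l 16344504)) (a (l 16406568) (l 16332896))))) (b (a (a (l 16735016) (b (l 16554608) (l 16462656))) (b (a (l 16404544) (l 16296232)) (l 16336800))) (a (a (b (l 16617920) (l 16604872)) (l 16495000)) (l 16341016))))) (b (b (b (a (l 16518504) (a (l 16387624)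 (b (l 16299064) (a (l 16325824) (l 16336952))))) (a (a (l 16588824) (l 16482528)) (a (b (l 16398240) (l 16406456)) (b (l 16387952) (l 16541176))))) (b (b (a (l 16375384) (a (l 16534200) (l 16610144))) (a (a (l 16574216) (l 16548952)) (a (l 16620416) (l 16699424)))) (b (a (a (l 16592528) (l 16620608)) (a (l 16665208) (a (l 16733176) (b (l 16732024) (l 291151741271))))) (l 2)))) (l 2))), by decide +kernel⟩

def k1_mm_202_a : ∃ t, chk3 f_mm_202_a t 5 2 1 = true :=
  ⟨(b (a (b (b (b (l 16043088) (b (l 16115496) (l 16176616))) (b (b (l 16267944) (l 16354320)) (l 16409144))) (b (b (a (l 16465688) (l 16461552)) (a (l 16509592) (l 16513888))) (b (a (l 16562464) (l 16616672)) (l 16569016)))) (b (b (b (a (l 16067944) (l 16094024)) (b (l 16120528) (l 16168272))) (b (b (l 16267752) (l 16353184)) (a (l 16403600) (l 16338728)))) (b (b (a (l 16395656) (l 16452736)) (l 16563240)) (b (a (l 16572584) (b (l 16551056) (l 16466664))) (a (b (l 16467952) (l 16405856)) (l 16355608)))))) (b (b (a (b (a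 (l 16499672) (l 16256608)) (a (l 16281408) (l 16303208))) (b (a (l 16344376) (l 16312416)) (l 16174456))) (a (b (a (l 16299160) (l 16225224)) (l 16208360)) (b (a (l 16179096) (b (l 16162240) (l 16094200))) (a (l 16119944) (a (b (l 16104544) (l 16105208)) (b (l 16141128) (l 16193752))))))) (b (a (b (l 16178128) (a (l 16205944) (b (l 16125936) (l 16135600)))) (a (b (a (l 16096424) (b (l 16087592) (l 16117912))) (a (b (l 16107384) (l 16171672)) (l 16233024))) (b (b (l 16204032) (l 16274312)) (b (l 16328144) (l 16321680))))) (a (a (b (l 16204800) (a (l 16227488) (l 16221520))) (b (a (l 16167128) (l 16206584)) (l 16199896))) (b (a (b (l 16309672) (l 16394792)) (a (l 16371408) (b (l 16552888) (a (l 16604584) (l 101636103287))))) (a (a (l 16465704) (l 16492576)) (a (b (l 16609312) (l 266992237831)) (b (a (l 16670904) (l 271287349559)) (l 283635394007))))))))), by decide +kernel⟩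

def k2_mm_202_a : ∃ t, chk3 f_mm_202_a t 5 3 1 = true :=
  ⟨(b (a (b (b (b (a (a (l 16278568) (l 16345464)) (l 16368120)) (a (l 16443808) (a (l 16555400) (l 16605992)))) (a (b (l 16539400) (a (l 16625744) (l 16679936))) (b (a (l 16634368) (b (l 16695672) (l 261623706903))) (a (b (l 16714832) (l 280951108391)) (l 308331568375))))) (b (a (b (b (l 16644336) (a (l 16716368) (l 284709239463))) (a (b (l 16743184) (l 289541106103)) (l 327122115495))) (b (a (l 319069018791) (l 3)) (l 3))) (a (b (l 342154499575) (l 3)) (l 3)))) (b (b (b (a (a (l 16511856) (b (l 16646736) (l 258402374391))) (a (b (l 265918627543) (l 275582363399)) (l 3))) (a (a (b (l 16672896) (l 251959981127)) (b (l 269676777559) (l 309405315319))) (l 3))) (a (b (b (l 306184038375) (l 321216465143)) (l 3)) (l 3))) (l 3))) (l 3)), by decide +kernel⟩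

def k3_mm_202_a : ∃ t, chk3 f_mm_202_a t 12 2 1 = true :=
  ⟨(b (b (a (b (b (l 16148320) (b (l 16147632) (l 16184632))) (b (b (l 16268752) (b (l 16342992) (l 16367368))) (b (l 16379760) (l 16415496)))) (b (b (l 16216088) (b (l 16201560) (l 16213576))) (b (b (b (l 16268936) (l 16307120)) (b (l 16347072) (l 16366960))) (l 16406816)))) (b (b (a (l 16488888) (b (l 16479264) (l 16497472))) (a (b (l 16583832) (l 16593440)) (b (l 16601224) (l 16610264)))) (b (b (a (l 16545424) (l 16557952)) (l 16432968)) (a (l 16408560) (b (l 16449512) (l 16375184)))))) (b (b (b (a (l 16306656) (b (a (l 16336576) (l 16371160)) (a (l 16301008) (l 16370168)))) (a (a (l 16213696) (b (l 16240240) (l 16228952))) (b (a (l 16296480) (l 16389232)) (a (l 16321408) (l 16419896))))) (a (b (b (a (l 16172928) (l 16255944)) (l 16099640)) (b (l 16191944) (a (l 16301152) (l 16408584)))) (b (b (a (l 16357840) (l 16460464)) (a (l 16403616) (a (l 16482712) (l 16535664)))) (a (b (l 16457000) (a (l 16489264) (l 16543128)))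 (b (a (l 16537440) (b (l 16575264) (l 241222379831))) (a (b (l 16558280) (l 243369875591)) (l 239074952871))))))) (b (a (b (b (a (l 16365120) (l 16472256)) (a (l 16433632) (a (l 16512912) (l 16523368)))) (a (b (l 16504848) (a (l 16552040) (l 16558536))) (b (a (l 16539440) (b (l 16588744) (l 16629096))) (a (l 256791677447) (l 3))))) (b (a (b (a (l 16552488) (b (l 16544480) (l 245517378071))) (a (b (l 16554696) (l 248201758247)) (l 3))) (b (l 308868243143) (l 3))) (l 3))) (a (b (a (b (a (l 16580384) (l 260549816071)) (l 271287291495)) (l 3)) (l 3)) (l 3))))), by decide +kernel⟩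

def k4_mm_202_a : ∃ t, chk3 f_mm_202_a t 13 4 1 = true :=
  ⟨(a (b (b (b (l 16298208) (b (l 16259272) (b (a (l 16250112) (l 16297768)) (l 16299424)))) (b (b (b (l 16328512) (l 16352560)) (b (l 16377384) (l 16389968))) (b (l 16404312) (a (l 16440936) (l 16434680))))) (b (b (b (a (l 16497920) (l 16501632)) (l 16510336)) (b (l 16614416) (l 16643248))) (a (b (l 16465192) (b (l 16474336) (l 16447024))) (b (b (l 16574544) (l 16530408)) (b (l 16523552) (l 16517632)))))) (b (b (b (b (l 16375040) (a (l 16359656) (l 16405304))) (b (a (l 16349592) (l 16397056)) (b (l 16384680) (l 16412096)))) (b (b (a (l 16411104) (l 16467200)) (b (l 16432136) (a (l 16430144) (l 16477384)))) (b (a (l 16441808) (b (l 16474792) (l 16476800))) (a (b (l 16458672) (l 16478008)) (l 16491936))))) (b (b (b (a (l 16511728) (l 16527488)) (a (l 16566360) (b (l 16563408) (l 16592104)))) (b (a (l 16624696) (a (l 16632816) (l 16613048))) (a (l 16608104) (l 16643320)))) (b (b (a (b (l 16637528) (l 16618512)) (l 16606800))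 (a (l 16598920) (a (l 16639720) (l 16646200)))) (a (b (a (l 16571392) (l 16603648)) (a (l 16572744) (l 16609848))) (a (b (l 16615128) (b (l 16643096) (l 16651536))) (b (b (l 16666800) (l 16650200)) (b (l 257328683527) (l 234243255207))))))))), by decide +kernel⟩

def k5_mm_202_a : ∃ t, chk3 f_mm_202_a t 13 5 1 = true :=
  ⟨(b (b (b (a (b (a (l 16444584) (l 16525952)) (a (l 16457960) (a (l 16524424) (l 16569104)))) (a (b (a (l 16587552) (b (l 16623072) (l 16634672))) (a (b (l 16606384) (l 16620680)) (b (l 261086712151) (l 246054364311)))) (b (a (b (l 257865515991) (l 239611933479)) (l 3)) (l 3)))) (a (a (b (l 16483416) (a (l 16494296) (l 16544224))) (b (a (l 16554632) (b (l 16593184) (l 16609664))) (a (b (l 16583496) (l 283098317335)) (l 326584909223)))) (a (b (a (l 275582190759) (l 3)) (l 3)) (l 3)))) (a (b (a (b (a (l 16537904) (b (l 16577304) (l 280950824183))) (a (b (l 16574584) (l 246054212487)) (l 296520124295))) (b (a (l 329806124407) (l 3)) (l 3))) (a (b (l 276119091255)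 (l 3)) (l 3))) (l 3))) (l 3)), by decide +kernel⟩

def k6_mm_202_a : ∃ t, chk3 f_mm_202_a t 28 4 1 = true :=
  ⟨(b (b (b (b (a (l 16436352) (l 16482992)) (b (l 16382248) (l 16408352))) (b (l 16464568) (b (l 16507264) (l 16530120)))) (b (b (a (l 16523160) (b (l 16574808) (l 16579960))) (b (a (l 16531728) (b (l 16581160) (l 16581784))) (a (l 16526248) (l 16582560)))) (b (a (l 16526720) (a (l 16568592) (l 16599232))) (a (l 16531848) (a (l 16573856) (b (l 16602384) (l 16601520))))))) (b (b (b (a (a (l 16545472) (b (l 16557048) (l 16570528))) (a (b (l 16579208) (l 16584256)) (l 16599344))) (a (a (b (l 16577208) (l 16599280)) (b (l 16583936) (l 16602560))) (a (l 16578672) (b (l 16606040) (l 16617544))))) (a (b (b (l 16623296) (l 16649448)) (b (l 16674280) (l 16697272))) (b (b (a (l 16628464) (l 16635376)) (a (l 16652760) (a (l 16656216) (l 16659720)))) (b (a (l 16677264) (a (l 16679728) (l 206325973863))) (a (l 16698360) (l 337859386039)))))) (b (b (b (a (l 16716480) (a (l 188072432519)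 (l 392620275959))) (a (a (l 16699344) (l 16722528)) (l 426443122359))) (a (a (b (l 16695424) (l 16673960)) (b (l 16721648) (l 236927698775))) (l 3))) (a (b (a (b (l 257865602871) (l 229948325223)) (l 3)) (l 3)) (l 3))))), by decide +kernel⟩

def k7_mm_202_a : ∃ t, chk3 f_mm_202_a t 29 4 1 = true :=
  ⟨(b (b (b (b (a (b (l 16522768) (l 16526424)) (b (l 16566736) (l 16577832))) (a (l 16547240) (l 16539792))) (b (a (l 16575512) (b (l 16629832) (a (l 16631272) (l 16664616)))) (a (b (l 16601744) (l 16618288)) (b (a (l 16648440) (l 16650504)) (l 16664216))))) (b (b (a (b (l 16624056) (l 16627512)) (b (l 16668248) (a (l 16662328) (l 16686112)))) (a (l 16591248) (a (b (l 16668824) (l 16673472)) (b (l 16690672) (l 16693008))))) (b (a (a (l 16608072) (b (l 16653544) (l 16653560))) (a (l 16673792) (l 16672160))) (a (a (b (l 16629296) (l 16625408)) (l 16650096)) (a (l 16650680) (b (l 16693000) (l 305110250215))))))) (b (b (b (a (a (b (l 16621584) (l 16619864)) (b (l 16645184) (l 16622864)))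 (a (b (l 16670160) (a (l 257865555383) (l 327658817927))) (b (l 314773959047) (l 3)))) (a (a (b (l 16623280) (a (l 16628192) (l 16636776))) (b (a (l 16639160) (l 217600213927)) (a (l 238001293623) (l 294909642007)))) (a (b (a (l 323900684247) (l 3)) (l 3)) (l 3)))) (a (b (a (b (a (l 16644056) (b (l 16647248) (l 16660328))) (a (b (l 16658624) (l 16668168)) (l 322826942135))) (b (a (l 301352088439) (l 3)) (l 3))) (a (b (a (l 345375546951) (l 3)) (l 3)) (l 3))) (l 3))) (l 3))), by decide +kernel⟩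

def k8_mm_202_a : ∃ t, chk3 f_mm_202_a t 15 4 1 = true :=
  ⟨(b (b (b (a (b (a (b (l 16617704) (l 16631400)) (b (a (l 16658088) (l 6)) (a (l 16674760) (l 16702088)))) (a (b (l 16651136) (l 16674272)) (b (a (l 16697296) (a (l 16720400) (b (l 16725856) (l 16738448)))) (a (b (l 16704920) (l 16725120)) (b (l 16739800) (l 16740016)))))) (b (l 6) (a (a (b (b (l 6) (a (l 16744680) (l 6))) (b (l 16746088) (a (l 16743528) (l 16746640)))) (l 6)) (l 6)))) (a (b (a (b (a (l 16658880) (b (l 16684088) (l 16708104))) (a (l 16688216) (l 16707872))) (b (a (l 16725992) (b (l 16738336) (l 16748576))) (a (l 16708192) (b (l 16739696) (l 16720680))))) (a (b (l 16679256) (a (l 16694680) (l 16694392))) (a (b (a (l 16725016) (l 16734168)) (l 16712888)) (b (a (l 16742744) (l 16747872)) (a (l 16746792) (l 247665200263)))))) (a (b (a (b (b (a (l 16743384) (l 16748208)) (a (l 16744960) (l 16750728))) (a (l 16748656) (b (l 16753080) (l 248738951095)))) (b (a (b (l 16754376) (a (l 16755208) (l 243370250935)))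 (b (l 6) (a (l 320679673767) (l 3)))) (a (b (l 289004276183) (l 325511510359)) (l 3)))) (a (b (a (b (l 16751928) (l 16748544)) (b (l 287393661143) (l 328732732407))) (a (l 317458417751) (l 3))) (l 3))) (l 3)))) (a (b (a (b (b (a (l 16701288) (l 16719904)) (a (l 16705880) (l 16723600))) (a (l 16688760) (b (l 16726040) (l 303499713063)))) (b (a (b (l 16716856) (a (l 16736472) (l 271824374519))) (b (a (l 291688610071) (l 320679661287)) (a (l 322290270567) (l 3)))) (a (b (a (l 273971845815) (l 361481836887)) (l 362018682583)) (l 3)))) (a (b (a (b (l 16711408) (l 301352196439)) (b (l 312626547751) (l 365239900423))) (a (b (l 314237127767) (l 3)) (l 3))) (l 3))) (l 3))) (l 3)), by decide +kernel⟩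

def k9_mm_202_a : ∃ t, chk3 f_mm_202_a t 7 5 1 = true :=
  ⟨(l 3), by decide +kernel⟩

def k10_mm_202_a : ∃ t, chk3 f_mm_202_a t 3 3 1 = true :=
  ⟨(l 3), by decide +kernel⟩

theorem s11_mm_202_a : ∃ t, chk3 f_mm_202_a t 14 4 1 = true := ex3_a k6_mm_202_a k7_mm_202_a

theorem s12_mm_202_a : ∃ t, chk3 f_mm_202_a t 7 4 1 = true := ex3_a s11_mm_202_a k8_mm_202_a

theorem s13_mm_202_a : ∃ t, chk3 f_mm_202_a t 7 2 1 = true := ex3_b s12_mm_202_a k9_mm_202_a

theorem s14_mm_202_a : ∃ t, chk3 f_mm_202_a t 13 2 1 = true := ex3_b k4_mm_202_a k5_mm_202_a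

theorem s15_mm_202_a : ∃ t, chk3 f_mm_202_a t 6 2 1 = true := ex3_a k3_mm_202_a s14_mm_202_a

theorem s16_mm_202_a : ∃ t, chk3 f_mm_202_a t 3 2 1 = true := ex3_a s15_mm_202_a s13_mm_202_a

theorem s17_mm_202_a : ∃ t, chk3 f_mm_202_a t 3 1 1 = true := ex3_b s16_mm_202_a k10_mm_202_a

theorem s18_mm_202_a : ∃ t, chk3 f_mm_202_a t 5 1 1 = true := ex3_b k1_mm_202_a k2_mm_202_a

theorem s19_mm_202_a : ∃ t, chk3 f_mm_202_a t 2 1 1 = true := ex3_a k0_mm_202_a s18_mm_202_a

theorem s20_mm_202_a : ∃ t, chk3 f_mm_202_a t 1 1 1 = true := ex3_a s19_mm_202_a s17_mm_202_a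

theorem c_mm_202_a : CertB 0 536870912 1073741824 536870912 1033476505 6710887 3 eng mog cd1q2a cd5q2 pd0 false false false .pp 2 0 2
    ndB1q2a ndB5q2 pcB0 cut_mm_202_a Ext.none :=
  certB1 (fam := false) (s1 := false) (s2 := false) (a := 2) (b := 0) (c := 2) (cn := .pp) (n1 := ndB1q2a) (n2 := ndB5q2) (pc := pcB0) (cut := cut_mm_202_a) (xt := Ext.none) (P1 := 0) (W1 := 536870912) (P2 := 1073741824) (W2 := 536870912) (P3 := 1033476505) (W3 := 6710887) (N0 := 3) (En := eng) (mo := mog) (C1 := cd1q2a) (C2 := cd5q2) (C3 := pd0)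
    rfl (fun _ => rfl) s20_mm_202_a

noncomputable def cut_mm_202_b : Cut := Cut.of [[⟨0, 1, 0, 33554432⟩, ⟨1, 0, 0, 33554432⟩, ⟨2, 1, 0, 33554432⟩]]

noncomputable def f_mm_202_b : ℕ → ℕ → ℕ → ℕ → Bool := onCell 0 536870912 1073741824 536870912 1033476505 6710887
    (rowB 3 eng mog cd1q2b cd5q2 pd0 2 false false false .pp 2 0 2 (qsf 1239849684 370763052 1073741824 536870912 0) ndB1q2b ndB5q2 pcB0 cut_mm_202_b Ext.none)

def k0_mm_202_b : ∃ t, chk3 f_mm_202_b t 1 1 1 = true :=
  ⟨(a (b (a (b (l 1) (a (b (a (a (b (l 15785336) (l 16023600)) (b (l 1) (l 15936280))) (a (b (l 1) (l 553008651383)) (l 1))) (a (a (l 16250048) (b (l 16274832) (l 16427360))) (a (b (l 231423672615) (l 16434896)) (l 550861902919)))) (b (l 1) (b (l 493416217207) (l 453151384231))))) (l 1)) (a (b (a (b (a (a (l 15905208) (l 15782248)) (a (a (l 15996336) (l 15997704)) (l 16087776))) (a (a (l 15537176) (l 15634288)) (a (a (l 15636808) (l 15636672)) (l 15737608)))) (b (a (l 16302208) (b (l 16554400) (l 16531736)))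 (a (l 15977960) (b (l 16385400) (l 16289408))))) (a (a (a (l 15276184) (b (l 15487504) (b (l 15401720) (a (l 15312224) (l 15348384))))) (a (b (l 15488504) (a (l 15369744) (l 15225376))) (b (l 15310096) (b (l 15516896) (l 15444000))))) (b (a (b (l 15875040) (l 15809608)) (b (l 16150584) (l 16035664))) (a (b (l 15708392) (l 15468824)) (b (a (l 15836696) (l 15890480)) (l 15746936)))))) (b (a (b (a (b (l 16360840) (l 16527976)) (b (l 1) (a (l 16360320) (l 1)))) (a (b (l 16451600) (l 16567240)) (b (l 16552448) (l 16704888)))) (b (l 1) (b (l 953515399623) (l 466573633399)))) (a (b (a (l 16168064) (b (l 16496248) (l 16242392))) (b (a (l 15994848) (l 16133568)) (l 15943944))) (b (b (a (l 16581256) (l 16625120)) (a (l 16373256) (l 16507432))) (b (l 16323752) (l 16205536))))))) (b (l 1) (b (l 1) (a (b (a (b (a (l 16608416) (l 1)) (l 16660256)) (l 1)) (a (b (l 16577112) (l 16429944)) (b (l 526166627063) (l 340409242247)))) (l 1))))), by decide +kernel⟩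

theorem c_mm_202_b : CertB 1239849684 370763052 1073741824 536870912 1033476505 6710887 3 eng mog cd1q2b cd5q2 pd0 false false false .pp 2 0 2
    ndB1q2b ndB5q2 pcB0 cut_mm_202_b Ext.none :=
  certB2 (fam := false) (s1 := false) (s2 := false) (a := 2) (b := 0) (c := 2) (cn := .pp) (n1 := ndB1q2b) (n2 := ndB5q2) (pc := pcB0) (cut := cut_mm_202_b) (xt := Ext.none) (P1 := 1239849684) (W1 := 370763052) (P2 := 1073741824) (W2 := 536870912) (P3 := 1033476505) (W3 := 6710887) (N0 := 3) (En := eng) (mo := mog) (C1 := cd1q2b) (C2 := cd5q2) (C3 := pd0)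
    rfl (fun _ => rfl) k0_mm_202_b

noncomputable def f_mm_203_a : ℕ → ℕ → ℕ → ℕ → Bool := onCell 0 536870912 0 1230186008 1033476505 6710887
    (rowB 3 eng mog cd1q2a cd5q3 pd0 0 false false false .up 2 0 3 (qsf 0 536870912 0 1230186008 0) ndB1q2a ndB5q3 pcB0 Cut.none Ext.none)

def k0_mm_203_a : ∃ t, chk3 f_mm_203_a t 1 1 1 = true :=
  ⟨(b (l 2) (a (b (l 2) (b (l 3) (a (a (b (b (a (b (a (b (l 3) (l 310479148583)) (l 3)) (a (b (l 269676953463) (l 16766224)) (b (l 3) (l 309942274727)))) (l 3)) (a (b (a (l 16763488) (b (l 274508782695) (l 16766560))) (l 16765040)) (b (a (l 313700351271) (l 3)) (b (l 283098729607) (l 270213826087))))) (b (a (b (l 16747456) (l 16710768)) (b (b (l 262697618407) (l 16761720)) (l 16743720))) (a (b (l 16655568) (l 16580744)) (b (l 16702968) (l 16638728))))) (b (l 3) (b (a (b (a (l 312626636503) (l 3)) (a (b (l 262160760247) (l 16761880)) (l 313163466551))) (l 3)) (b (a (a (l 16739368) (b (l 254107689031) (l 16754568))) (b (l 335175203991) (l 316384718727)))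 (a (l 16707136) (a (b (l 248738963335) (l 16744192)) (b (l 326048397783) (l 294909838263)))))))) (l 3)))) (l 3))), by decide +kernel⟩

theorem c_mm_203_a : CertB 0 536870912 0 1230186008 1033476505 6710887 3 eng mog cd1q2a cd5q3 pd0 false false false .up 2 0 3
    ndB1q2a ndB5q3 pcB0 Cut.none Ext.none :=
  certB0 (fam := false) (s1 := false) (s2 := false) (a := 2) (b := 0) (c := 3) (cn := .up) (n1 := ndB1q2a) (n2 := ndB5q3) (pc := pcB0) (cut := Cut.none) (xt := Ext.none) (P1 := 0) (W1 := 536870912) (P2 := 0) (W2 := 1230186008) (P3 := 1033476505) (W3 := 6710887) (N0 := 3) (En := eng) (mo := mog) (C1 := cd1q2a) (C2 := cd5q3) (C3 := pd0)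
    rfl k0_mm_203_a

noncomputable def f_mm_203_b : ℕ → ℕ → ℕ → ℕ → Bool := onCell 0 536870912 0 1230186008 1033476505 6710887
    (rowB 3 eng mog cd1q2b cd5q3 pd0 2 false false false .up 2 0 3 (qsf 1239849684 370763052 0 1230186008 0) ndB1q2b ndB5q3 pcB0 Cut.none Ext.none)

def k0_mm_203_b : ∃ t, chk3 f_mm_203_b t 1 1 1 = true :=
  ⟨(b (l 3) (b (l 3) (b (a (l 3) (a (l 3) (a (l 3) (b (l 3) (a (l 3) (b (l 3) (b (l 3) (a (l 3) (b (l 3) (l 1)))))))))) (b (b (a (l 3) (a (l 3) (a (a (l 16703608) (b (l 3) (l 16737048))) (a (b (a (l 16750488) (b (l 3) (a (l 16763144) (l 16748848)))) (a (l 16758336) (l 236793526039))) (a (a (b (b (b (l 3) (a (l 135996093863) (l 1))) (l 339872786727)) (l 1)) (l 1)) (l 1)))))) (a (a (a (l 2) (l 3)) (a (l 3) (a (l 16499296) (l 16604496)))) (a (a (a (l 16623944) (l 16646176)) (a (l 16671168) (l 16699176))) (a (a (l 16728376) (l 16734696)) (a (a (l 16688840) (l 1)) (l 1)))))) (a (a (a (a (b (l 2) (a (l 15140240) (a (l 15235088) (l 15254104)))) (a (a (l 15234280)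 (b (l 15257296) (l 15279840))) (b (l 15329352) (l 15361392)))) (a (b (a (l 15419744) (l 15469688)) (l 15444760)) (a (b (l 15553104) (l 15595152)) (b (l 15646872) (l 15675400))))) (b (a (a (b (l 15909480) (l 15809416)) (l 16027456)) (a (l 16318896) (l 16456104))) (a (b (a (l 15749696) (l 15904720)) (l 15859536)) (a (l 15980056) (l 16193208))))) (a (a (b (a (l 16524848) (l 16566720)) (a (l 16266032) (l 16414696))) (b (a (l 16609472) (l 16654800)) (a (l 16496592) (l 142840566151)))) (a (b (a (l 16706168) (l 403760264103)) (a (b (l 16646024) (l 1)) (l 1))) (l 1)))))))), by decide +kernel⟩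

theorem c_mm_203_b : CertB 1239849684 370763052 0 1230186008 1033476505 6710887 3 eng mog cd1q2b cd5q3 pd0 false false false .up 2 0 3
    ndB1q2b ndB5q3 pcB0 Cut.none Ext.none :=
  certB2 (fam := false) (s1 := false) (s2 := false) (a := 2) (b := 0) (c := 3) (cn := .up) (n1 := ndB1q2b) (n2 := ndB5q3) (pc := pcB0) (cut := Cut.none) (xt := Ext.none) (P1 := 1239849684) (W1 := 370763052) (P2 := 0) (W2 := 1230186008) (P3 := 1033476505) (W3 := 6710887) (N0 := 3) (En := eng) (mo := mog) (C1 := cd1q2b) (C2 := cd5q3) (C3 := pd0)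
    rfl (fun _ => rfl) k0_mm_203_b

noncomputable def f_mm_213_a : ℕ → ℕ → ℕ → ℕ → Bool := onCell 0 536870912 0 1230186008 1033476505 6710887
    (rowB 3 eng mog cd1q2a cd5q3 pd1 0 false false false .pnn 2 1 3 (qsf 0 536870912 0 1230186008 1) ndB1q2a ndB5q3 pcB1 Cut.none Ext.none)

def k0_mm_213_a : ∃ t, chk3 f_mm_213_a t 1 1 1 = true :=
  ⟨(a (b (l 3) (b (l 3) (b (l 3) (a (l 1) (l 3))))) (b (b (l 5) (l 3)) (l 3))), by decide +kernel⟩

theorem c_mm_213_a : CertB 0 536870912 0 1230186008 1033476505 6710887 3 eng mog cd1q2a cd5q3 pd1 false false false .pnn 2 1 3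
    ndB1q2a ndB5q3 pcB1 Cut.none Ext.none :=
  certB0 (fam := false) (s1 := false) (s2 := false) (a := 2) (b := 1) (c := 3) (cn := .pnn) (n1 := ndB1q2a) (n2 := ndB5q3) (pc := pcB1) (cut := Cut.none) (xt := Ext.none) (P1 := 0) (W1 := 536870912) (P2 := 0) (W2 := 1230186008) (P3 := 1033476505) (W3 := 6710887) (N0 := 3) (En := eng) (mo := mog) (C1 := cd1q2a) (C2 := cd5q3) (C3 := pd1)
    rfl k0_mm_213_a

noncomputable def f_mm_213_b : ℕ → ℕ → ℕ → ℕ → Bool := onCell 1239849684 370763052 0 1230186008 1033476505 6710887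
    (rowB 3 eng mog cd1q2b cd5q3 pd1 0 false false false .pnn 2 1 3 (qsf 1239849684 370763052 0 1230186008 1) ndB1q2b ndB5q3 pcB1 Cut.none Ext.none)

def k0_mm_213_b : ∃ t, chk3 f_mm_213_b t 1 1 1 = true :=
  ⟨(b (l 3) (b (l 3) (a (b (b (l 3) (l 3)) (l 1)) (l 1)))), by decide +kernel⟩

theorem c_mm_213_b : CertB 1239849684 370763052 0 1230186008 1033476505 6710887 3 eng mog cd1q2b cd5q3 pd1 false false false .pnn 2 1 3
    ndB1q2b ndB5q3 pcB1 Cut.none Ext.none :=
  certB0 (fam := false) (s1 := false) (s2 := false) (a := 2) (b := 1) (c := 3) (cn := .pnn) (n1 := ndB1q2b) (n2 := ndB5q3) (pc := pcB1) (cut := Cut.none) (xt := Ext.none) (P1 := 1239849684) (W1 := 370763052) (P2 := 0) (W2 := 1230186008) (P3 := 1033476505) (W3 := 6710887) (N0 := 3) (En := eng) (mo := mog) (C1 := cd1q2b) (C2 := cd5q3) (C3 := pd1)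
    rfl k0_mm_213_b

noncomputable def f_mm_303 : ℕ → ℕ → ℕ → ℕ → Bool := onCell 0 536870912 0 1230186008 1033476505 6710887
    (rowB 3 eng mog cd1q3 cd5q3 pd0 2 false false false .npn 3 0 3 (qsf 1610612736 536870912 0 1230186008 0) ndB1q3 ndB5q3 pcB0 Cut.none Ext.none)

def k0_mm_303 : ∃ t, chk3 f_mm_303 t 1 1 1 = true :=
  ⟨(b (l 3) (b (l 3) (a (b (l 3) (b (b (l 3) (a (a (a (a (l 15028584) (l 3)) (l 3)) (l 3)) (l 1))) (a (a (a (a (b (l 15146648) (l 15284832)) (b (a (l 15252592) (l 15295200)) (a (l 15376480) (l 15393256)))) (a (a (l 15364320) (b (l 15378264) (l 1))) (b (l 15446952) (l 1)))) (a (b (a (l 15532648) (l 1)) (l 1)) (l 1))) (l 1)))) (l 1)))), by decide +kernel⟩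

theorem c_mm_303 : CertB 1610612736 536870912 0 1230186008 1033476505 6710887 3 eng mog cd1q3 cd5q3 pd0 false false false .npn 3 0 3
    ndB1q3 ndB5q3 pcB0 Cut.none Ext.none :=
  certB2 (fam := false) (s1 := false) (s2 := false) (a := 3) (b := 0) (c := 3) (cn := .npn) (n1 := ndB1q3) (n2 := ndB5q3) (pc := pcB0) (cut := Cut.none) (xt := Ext.none) (P1 := 1610612736) (W1 := 536870912) (P2 := 0) (W2 := 1230186008) (P3 := 1033476505) (W3 := 6710887) (N0 := 3) (En := eng) (mo := mog) (C1 := cd1q3) (C2 := cd5q3) (C3 := pd0)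
    rfl (fun _ => rfl) k0_mm_303

noncomputable def f_mm_313 : ℕ → ℕ → ℕ → ℕ → Bool := onCell 1610612736 536870912 0 1230186008 1033476505 6710887
    (rowB 3 eng mog cd1q3 cd5q3 pd1 0 false false false .dn 3 1 3 (qsf 1610612736 536870912 0 1230186008 1) ndB1q3 ndB5q3 pcB1 Cut.none Ext.none)

def k0_mm_313 : ∃ t, chk3 f_mm_313 t 1 1 1 = true :=
  ⟨(b (l 3) (l 1)), by decide +kernel⟩

theorem c_mm_313 : CertB 1610612736 536870912 0 1230186008 1033476505 6710887 3 eng mog cd1q3 cd5q3 pd1 false false false .dn 3 1 3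
    ndB1q3 ndB5q3 pcB1 Cut.none Ext.none :=
  certB0 (fam := false) (s1 := false) (s2 := false) (a := 3) (b := 1) (c := 3) (cn := .dn) (n1 := ndB1q3) (n2 := ndB5q3) (pc := pcB1) (cut := Cut.none) (xt := Ext.none) (P1 := 1610612736) (W1 := 536870912) (P2 := 0) (W2 := 1230186008) (P3 := 1033476505) (W3 := 6710887) (N0 := 3) (En := eng) (mo := mog) (C1 := cd1q3) (C2 := cd5q3) (C3 := pd1)
    rfl k0_mm_313

end Pool.Agent.Strip051.G.I9625_9688.Tab.C.BB15

namespace Pool.Agent.Strip051.G.I9625_9688.Tab.C.BB20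

open Pool.Agent.Strip051.PB Pool.Agent.Strip051.PB.T
open Pool.Agent.Strip051.G.I9625_9688.Tab

noncomputable def f_pp_001 : ℕ → ℕ → ℕ → ℕ → Bool := onCell 0 536870912 0 536870912 1033476505 6710887
    (rowB 3 eng mog cd2q0 cd0q1 pd0 1 false true true .up 0 0 1 (qsf 0 536870912 536870912 536870912 0) ndB2q0 ndB0q1 pcB0 Cut.none Ext.none)

def k0_pp_001 : ∃ t, chk3 f_pp_001 t 1 1 1 = true :=
  ⟨(l 3), by decide +kernel⟩

theorem c_pp_001 : CertB 0 536870912 536870912 536870912 1033476505 6710887 3 eng mog cd2q0 cd0q1 pd0 false true true .up 0 0 1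
    ndB2q0 ndB0q1 pcB0 Cut.none Ext.none :=
  certB1 (fam := false) (s1 := true) (s2 := true) (a := 0) (b := 0) (c := 1) (cn := .up) (n1 := ndB2q0) (n2 := ndB0q1) (pc := pcB0) (cut := Cut.none) (xt := Ext.none) (P1 := 0) (W1 := 536870912) (P2 := 536870912) (W2 := 536870912) (P3 := 1033476505) (W3 := 6710887) (N0 := 3) (En := eng) (mo := mog) (C1 := cd2q0) (C2 := cd0q1) (C3 := pd0)
    rfl (fun _ => rfl) k0_pp_001

noncomputable def cut_pp_011 : Cut := Cut.of [[⟨0, 0, 0, 33554432⟩, ⟨1, 1, 0, 33554432⟩, ⟨2, 1, 0, 33554432⟩]]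

noncomputable def f_pp_011 : ℕ → ℕ → ℕ → ℕ → Bool := onCell 0 536870912 536870912 536870912 1033476505 6710887
    (rowB 3 eng mog cd2q0 cd0q1 pd1 0 false true true .pnn 0 1 1 (qsf 0 536870912 536870912 536870912 1) ndB2q0 ndB0q1 pcB1 cut_pp_011 Ext.none)

def k0_pp_011 : ∃ t, chk3 f_pp_011 t 1 1 1 = true :=
  ⟨(a (b (l 3) (a (b (l 3) (b (l 3) (a (b (l 3) (a (b (l 3) (a (b (l 3) (l 6)) (l 3))) (l 3))) (l 3)))) (l 3))) (l 3)), by decide +kernel⟩

theorem c_pp_011 : CertB 0 536870912 536870912 536870912 1033476505 6710887 3 eng mog cd2q0 cd0q1 pd1 false true true .pnn 0 1 1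
    ndB2q0 ndB0q1 pcB1 cut_pp_011 Ext.none :=
  certB0 (fam := false) (s1 := true) (s2 := true) (a := 0) (b := 1) (c := 1) (cn := .pnn) (n1 := ndB2q0) (n2 := ndB0q1) (pc := pcB1) (cut := cut_pp_011) (xt := Ext.none) (P1 := 0) (W1 := 536870912) (P2 := 536870912) (W2 := 536870912) (P3 := 1033476505) (W3 := 6710887) (N0 := 3) (En := eng) (mo := mog) (C1 := cd2q0) (C2 := cd0q1) (C3 := pd1)
    rfl k0_pp_011

noncomputable def cut_pp_012 : Cut := Cut.of [[⟨0, 0, 0, 22369621⟩, ⟨1, 1, 0, 22369621⟩, ⟨2, 1, 0, 22369621⟩]]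

noncomputable def xt_pp_012 : Ext := extD3 3 ⟨4, 1, 1, 5, 27, 5, 41, 50, 81, 200, 1, 64⟩ eng cd2q0 cd0q2 pd1 false true true .pnp 0 1 2 rfl ndB2q0 ndB0q2 pcB1

noncomputable def f_pp_012 : ℕ → ℕ → ℕ → ℕ → Bool := onCell 536870912 536870912 0 536870912 1033476505 6710887
    (rowB 3 eng mog cd2q0 cd0q2 pd1 2 false true true .pnp 0 1 2 (qsf 0 536870912 0 536870912 1) ndB2q0 ndB0q2 pcB1 cut_pp_012 xt_pp_012)

def k0_pp_012 : ∃ t, chk3 f_pp_012 t 2 1 1 = true :=
  ⟨(b (a (b (l 2) (b (l 2) (a (l 2) (b (l 2) (a (l 2) (b (l 16192656) (l 16239560))))))) (b (a (l 16246792) (l 16237032)) (b (a (l 16409512) (l 16477072)) (a (a (b (l 16303224) (l 16271016)) (l 16362416)) (l 16490568))))) (b (a (a (l 2) (a (b (l 2) (b (a (l 2) (b (l 16022344) (b (l 15929576) (a (l 115056069063) (l 143510259927))))) (l 3))) (b (b (l 16440592) (l 163307950791)) (b (b (l 15948464) (a (b (l 16014952) (l 15880592)) (l 16041072))) (b (a (b (a (l 15835280) (l 132772902519)) (l 3)) (b (l 167132681991) (a (l 15907064)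 (l 15869880)))) (l 3)))))) (a (b (b (a (l 16397704) (l 16387752)) (a (l 16290064) (l 16493176))) (a (b (b (l 16251232) (l 15987880)) (b (a (b (l 16046112) (l 167132740039)) (l 16075504)) (a (b (l 139752325719) (l 3)) (b (l 167669682487) (l 15967504))))) (b (b (l 16405968) (l 16268080)) (b (a (l 16172960) (l 16243992)) (a (b (l 16090928) (l 167669761015)) (l 16080584)))))) (b (b (a (l 16425032) (l 16496416)) (a (l 16535840) (l 16544704))) (a (b (l 16358248) (a (l 16077640) (l 16251512))) (b (l 16549376) (b (l 16462400) (l 16354304))))))) (a (l 3) (b (a (b (a (l 3) (b (a (l 3) (b (l 197734617175) (l 3))) (l 3))) (l 3)) (b (a (b (a (b (l 16150824) (l 16078424)) (l 16106224)) (a (l 3) (l 144047702567))) (b (a (l 16267496) (l 16361040)) (a (b (l 16213784) (l 16215152)) (l 169817734999)))) (l 3))) (l 3))))), by decide +kernel⟩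

def k1_pp_012 : ∃ t, chk3 f_pp_012 t 6 1 1 = true :=
  ⟨(b (b (a (b (l 16268528) (l 16331024)) (l 16057576)) (a (b (l 16417552) (l 16512168)) (b (l 16383376) (l 16465304)))) (b (a (b (b (a (l 16591552) (l 16616112)) (a (l 16589360) (l 16666856))) (a (b (l 16580528) (l 16428600)) (b (l 16622832) (l 16490672)))) (b (b (l 16577912) (a (l 16655080) (l 16635336))) (a (b (l 16694808) (l 16540440)) (b (l 16695456) (l 16651632))))) (a (b (b (a (b (l 16384440) (a (l 16321488) (l 16279904))) (b (l 16349200) (l 16156144))) (a (b (a (l 155859045735) (l 145658287095)) (l 3)) (b (a (l 16097448) (l 16111320)) (a (l 174112116583) (b (l 16019592) (l 3)))))) (l 3)) (b (b (a (b (l 16367544) (l 16236448)) (b (l 16454032) (l 16074632))) (a (b (a (l 16097928) (l 16101472)) (a (b (l 15998184) (l 15941968)) (b (l 15993456) (l 15931712)))) (b (a (l 16123896) (l 16177512)) (a (b (l 16008384) (l 15941224)) (b (l 16056496) (l 15985312)))))) (b (a (b (b (a (l 3) (l 282560146327)) (l 3)) (l 3)) (b (a (b (a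 (l 15882888) (l 15891304)) (a (l 3) (l 311014150839))) (b (a (l 15911264) (l 15942248)) (a (l 328730922375) (b (l 15895504) (l 334636525895))))) (l 3))) (l 3)))))), by decide +kernel⟩

def k2_pp_012 : ∃ t, chk3 f_pp_012 t 7 2 1 = true :=
  ⟨(b (a (b (l 16299928) (l 16326616)) (b (l 16331760) (l 16351008))) (a (b (l 16382168) (a (l 16474328) (l 16480312))) (b (a (l 16407344) (l 16439096)) (a (l 16499040) (l 16532088))))), by decide +kernel⟩

def k3_pp_012 : ∃ t, chk3 f_pp_012 t 7 6 1 = true :=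
  ⟨(a (b (b (l 16561408) (l 16601016)) (a (b (l 16674920) (l 16690688)) (b (l 16662248) (a (l 16682728) (l 16667008))))) (a (b (b (l 16582904) (l 16641648)) (b (a (l 16665104) (l 16675736)) (a (l 16658816) (l 16665744)))) (b (b (l 16616824) (l 16626088)) (b (l 16632400) (a (l 16675424) (l 16613128)))))), by decide +kernel⟩

def k4_pp_012 : ∃ t, chk3 f_pp_012 t 14 7 1 = true :=
  ⟨(b (b (a (b (l 16640552) (a (l 16430840) (l 16548816))) (a (l 16594648) (l 16565176))) (a (b (a (l 16267064) (l 16385368)) (a (b (l 16143128) (l 16069584)) (l 16055448))) (b (a (l 16524280) (l 16629088)) (a (b (l 16401920) (l 16327952)) (b (l 16554528) (l 16486528)))))) (b (a (b (a (b (l 16006960) (a (l 15918048) (l 15966560))) (b (l 16122040) (a (l 16023256) (l 16087240)))) (a (b (a (b (l 335710268727) (l 3)) (a (l 340542136615) (a (l 342152786615) (l 342152800231)))) (l 3)) (b (a (b (l 15967216) (a (l 344837171655) (l 313698714023))) (b (l 16030568) (l 15990384))) (a (a (l 3) (l 350742686583)) (b (a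 (l 349132175863) (l 348595372135)) (l 3)))))) (b (a (b (l 16263648) (l 16195184)) (b (l 16425288) (l 16357952))) (a (b (a (l 16080432) (l 16156232)) (a (a (b (l 15999776) (l 356111545335)) (b (l 16035960) (l 352890391207))) (b (l 16093072) (a (l 341616180151) (l 16068576))))) (a (b (l 16237504) (a (l 16131320) (l 16173256))) (b (l 16323792) (l 16238808)))))) (b (a (l 3) (a (b (a (l 3) (b (a (l 365238406711) (l 360406645863)) (l 3))) (l 3)) (b (a (b (a (l 351816792023) (l 341079466551)) (a (l 3) (l 394766455495))) (b (a (l 16148928) (l 16193984)) (a (l 362554288215) (l 349132622759)))) (l 3)))) (l 3)))), by decide +kernel⟩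

def k5_pp_012 : ∃ t, chk3 f_pp_012 t 15 14 1 = true :=
  ⟨(a (b (a (b (l 16636896) (l 16617824)) (b (l 16643664) (l 16625360))) (a (b (a (l 16607072) (l 16597464)) (a (l 16602136) (l 16592816))) (b (l 16545560) (a (l 16599776) (l 16614568))))) (b (a (l 16605648) (b (l 16663104) (l 16646880))) (b (a (l 16624664) (l 16632160)) (a (l 140411517206724671) (b (l 16628048) (l 16639376)))))), by decide +kernel⟩

def k6_pp_012 : ∃ t, chk3 f_pp_012 t 30 15 1 = true :=
  ⟨(b (a (b (a (b (l 16549672) (l 16488600)) (b (l 16613656) (l 16573728))) (a (l 16414664) (b (l 16505936) (l 16426320)))) (b (a (b (l 16626520) (l 16644280)) (l 16633928)) (a (b (l 16597112) (l 16525208)) (l 16660568)))) (a (b (a (b (a (l 16217792) (l 16266144)) (b (a (l 461875500311) (l 363091383207)) (l 3))) (b (a (l 16316288) (l 16367912)) (b (a (a (l 16238392) (l 16265288)) (l 16306800)) (a (l 400135467015) (b (l 260549221783) (l 3)))))) (l 3)) (b (a (b (a (l 16421424) (l 16477896)) (a (a (b (l 16350264) (l 267528644631))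 (l 3551824058168429870162018367)) (a (l 140273802907615295) (l 140685570083291199)))) (b (l 16568208) (l 141918603843452991))) (b (a (a (l 3) (a (l 8000671074349104904602763327) (b (l 7197944330125618885118033983) (l 3)))) (b (c (c (b (a (l 3919337507332066107828273215) (l 16624304)) (a (l 7226958549797890472724004927) (b (a (b (l 16608064) (l 5021877854821668463014428799)) (l 16663320)) (a (l 7197944330128061107041697919) (b (a (b (l 276656071159) (a (l 383493374503) (l 5437748336769692161639907455))) (l 16686280)) (a (l 7217287143242393252696850559) (a (b (b (l 5457091149883709022276010111) (a (l 396378313383) (l 6414560399018552159669616767))) (l 3)) (b (l 143445001218277503) (c (b (a (l 6607988530157131627823939839) (l 311015928775)) (l 6956159166206206815099306239)) (l 6627331343270738370530492543)))))))))) (b (l 3600181090953622586194182207) (a (l 7275315582581972132018356287) (b (l 4412579241735437549720256575) (a (l 7265644176025947146311434303) (b (l 4944506602366457334025486463)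 (a (l 404968118759) (b (l 5292677238415661439110643839) (l 6898130726864053497530466431))))))))) (b (l 3348724520473370149697634367) (a (l 7333344021922721785283723327) (b (l 4132108451584321862833307711) (a (l 408189141399) (a (l 6830430880964778980930633791) (l 6327517740005409835016421439))))))) (l 3))) (l 3))))), by decide +kernel⟩

def k7_pp_012 : ∃ t, chk3 f_pp_012 t 31 30 1 = true :=
  ⟨(b (a (b (l 16656968) (l 16683432)) (b (l 16645040) (l 16656768))) (a (a (l 16711312) (l 16718384)) (a (l 16702712) (b (l 16719696) (l 16739640))))), by decide +kernel⟩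

def k8_pp_012 : ∃ t, chk3 f_pp_012 t 62 62 1 = true :=
  ⟨(a (b (l 16688040) (l 143350511898705983)) (b (l 16745416) (l 16740888))), by decide +kernel⟩

def k9_pp_012 : ∃ t, chk3 f_pp_012 t 62 252 1 = true :=
  ⟨(a (b (l 143642363588624447) (a (a (c (b (l 16696032) (c (b (l 16729792) (c (a (b (l 16733016) (a (b (l 16728624) (a (l 5911647258059292552521744639) (l 16734544))) (l 16744920))) (l 16765616)) (l 5341034271201173769396338943))) (l 5137934733505465268228243583))) (l 4780092690898680437005828159)) (l 16714080)) (l 16750984))) (l 143534336653738111)), by decide +kernel⟩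

def k10_pp_012 : ∃ t, chk3 f_pp_012 t 124 506 1 = true :=
  ⟨(b (c (a (b (a (a (c (c (b (a (b (a (l 391009699815) (b (l 5863290225274808265743286527) (l 6617659936714348140755730687))) (l 3)) (b (l 309942242391) (a (b (l 6269489300665432245237907711) (l 384567306359)) (l 5814933192490424584300314879)))) (a (l 3) (a (l 3) (l 6936816353092970813997318399)))) (b (a (l 6830430880966280501834039551) (b (l 16723536) (l 6076061169526853876566212863))) (l 7101230264560007670930079999))) (b (a (l 6898130726864421627819376767) (l 5718219126920484248468340863)) (l 7178601517014908531429359743))) (a (b (l 16759088) (c (c (b (a (l 6027704136742711675403141375) (l 16770856)) (a (l 393694131079) (l 6250146487551918479954428159))) (b (l 5901975851502543675709964543) (l 6569302903929842963250643199))) (b (l 5737561940034517876660158591) (l 6627331343270905221494374527)))) (c (l 144234381973750015) (l 16720256)))) (l 16761648)) (a (a (l 3) (b (a (l 3) (c (b (a (b (l 6404888992462553218604695807)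 (l 393157265783)) (l 5776247566262863240789049599)) (a (l 3) (l 6917473539979081015732715775))) (b (l 6230803674437504764320596223) (l 6946487759649388669053927679)))) (l 3))) (a (c (b (a (l 5756904753149042780451094783) (l 16773480)) (a (b (l 6743388221954576338721800447) (l 415168979767)) (l 5989018510515050001449648383))) (b (l 5718219126921184637491822847) (a (l 6791745254739182396381970687) (l 6008361323628839263142428927)))) (l 144161676795592959)))) (l 144084848426451199)) (a (c (a (a (l 7052873231774422635378311295) (b (l 5418405523655753984819495039) (l 7033530418660965494983114879))) (b (l 16708872) (a (b (l 307257802215) (a (l 381882846999) (l 334101389335))) (l 16733712)))) (a (b (l 5244320205630499234557165631) (l 7246301362912369128345239615)) (l 5350705677757301147185774719))) (l 144132264860008575))) (a (a (l 3) (b (c (c (a (b (l 7314001208812842799958966527) (l 3)) (a (b (l 6211460861324137234112987391) (l 417853339735)) (l 6105075389198040658330796287))) (a (l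 7275315582584963834992509183) (b (l 6027704136742692640113803519) (l 7081887451446805892150542591)))) (c (a (l 7226958549799751533948010623) (b (l 6076061169526973517221593343) (l 6849773694080547570127585535))) (a (l 406578808791) (l 6540288684258569594904363135)))) (l 3))) (a (a (c (b (l 5611833654795265014381822207) (b (c (l 6753059628511626481759813887) (l 6772402441625462197819654399)) (l 7352686835040482071377805567))) (b (l 5660190687579634470926516351) (b (a (l 6956159166206839171793682559) (l 6018032730185747844049551615)) (l 7255972769471090117059182719)))) (c (c (l 5553805215453738487306928383) (l 5573148028567593925856477439)) (c (l 5582819435124491855236563199) (l 5592490841681341680983294207)))) (l 144129103753199871)))), by decide +kernel⟩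

def k11_pp_012 : ∃ t, chk3 f_pp_012 t 124 507 1 = true :=
  ⟨(a (l 3) (b (a (b (a (l 3) (b (c (c (l 6782073848182382942077255935) (l 6811088067853124558979809535)) (c (l 6849773694080776406051799295) (l 6888459320308394511860695295))) (l 3))) (l 3)) (a (b (b (c (l 5350705677758495766807609599) (l 5379719897429214637560856831)) (a (c (c (l 6782073848182384866225668351) (l 6820759474410040080552231167)) (c (l 6859445100637692065063387391) (l 6888459320308370322608554239))) (c (c (l 5669862094136757456618242303) (l 5689204907250577367198892287)) (c (l 5698876313807659945813688575) (l 5718219126921478963041091839))))) (b (c (c (l 7101230264560640852316717311) (l 7362358241597406045450649855)) (c (l 7178601517015967636205486335) (l 7217287143243620582789382399))) (l 3))) (b (c (l 16777888) (l 16770544)) (a (c (c (b (b (l 306721074839) (l 6221132267881017159012647167)) (l 402284098359)) (b (b (l 307257943655) (l 6240475080995019657243295999)) (l 404968453463))) (c (b (b (l 308331683367)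 (l 6259817894108841560689049855)) (l 407115935031)) (b (l 5998689917072069839199486207) (l 409263416599)))) (c (b (l 144131234088272127) (b (c (l 5892304444945834243923181823) (l 5901975851502741175555571967)) (a (l 3) (c (l 6753059628511450628632101119) (l 6782073848182372221844865279))))) (b (l 144108900243505407) (c (b (l 5921318664616744773297946879) (a (l 3) (l 6811088067853113220272587007))) (b (l 5940661477730567776255459583) (l 6985173385877517085811949823))))))))) (l 3))), by decide +kernel⟩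

def k12_pp_012 : ∃ t, chk3 f_pp_012 t 125 506 1 = true :=
  ⟨(l 143667996051259519), by decide +kernel⟩

def k13_pp_012 : ∃ t, chk3 f_pp_012 t 250 1014 1 = true :=
  ⟨(a (b (l 16773328) (a (b (l 144118520963334399) (c (c (l 5476433962998384353078149375) (l 5476433962998394454839230719)) (c (l 5486105369555321108961607935) (l 5495776776112227422118691071)))) (l 16775160))) (l 16765576)), by decide +kernel⟩

def k14_pp_012 : ∃ t, chk3 f_pp_012 t 500 2030 1 = true :=
  ⟨(a (b (b (a (a (c (c (l 6994844792434382236010578175) (l 7023859012105124059072266495)) (c (l 7052873231776045583565439231) (l 7081887451446786513273913599))) (c (c (l 5950332884287335207361380607) (l 5960004290844257188559519999)) (c (l 5969675697401164532509098239) (l 5989018510515168680007270655)))) (c (l 144113504462291199) (l 144133226951262463))) (c (c (a (l 7207615736686718736409608447) (c (l 5979347103958068028175597823) (l 5979347103958072494940635391))) (a (l 7246301362914385495608803583) (a (a (l 6743388221954535450661372159)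 (l 5989018510515180431043199231)) (l 304573596391)))) (c (a (l 7284986989142041397130674431) (a (b (l 5872961631832000452006248703) (l 6869116507194454479647654143)) (l 305110465607))) (a (l 7323672615369702521332777215) (a (b (l 5892304444946004874382573823) (l 6898130726865376072860598527)) (l 305647334823)))))) (b (a (l 3) (a (l 3) (c (c (b (l 6221132267881173495829397759) (l 393157299575)) (b (l 6230803674437919142850281727) (l 7188272923572706823607566591))) (c (b (l 6250146487551762486773137663) (l 7217287143243466994769658111)) (c (l 6801416661296034970986184959) (l 6820759474409864296136720639)))))) (l 3))) (b (c (l 16784768) (l 16783208)) (a (c (c (b (l 5669862094136882732234965247) (a (l 6975501979320693373473603839) (b (l 308331696807) (l 6259817894108821632054182143)))) (b (l 5669862094136891390887411967) (a (b (l 6830430880966945843966574847) (l 3)) (c (l 6037375543299734605550960895) (l 6037375543299738866157732095))))) (b (a (c (l 5776247566262814999746740479) (b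 (l 16785384) (l 5921318664616581220948508927))) (l 16786176)) (a (c (c (l 7023859012105293383866368255) (l 7033530418662034770280661247)) (c (l 7052873231775873441279901951) (l 7072216044889712249718276351))) (c (b (l 308868564615) (a (l 6840102287523863770716537087) (l 5863290225275236800484606207))) (a (c (l 6433903212133354140450242815) (l 6443574618690275915490820351)) (l 5727890533478406166935847167)))))) (c (l 144250118788366591) (c (l 16787152) (l 16781168)))))), by decide +kernel⟩

def k15_pp_012 : ∃ t, chk3 f_pp_012 t 500 2031 1 = true :=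
  ⟨(a (l 3) (b (b (a (a (l 3) (a (l 3) (c (c (l 392620430823) (l 7197944330129780812292358399)) (c (l 7226958549800540296259911935) (l 7255972769471300192544211199))))) (a (c (c (b (l 5921318664616714330582008063) (l 6782073848182332295837991167)) (b (l 5930990071173639266717958399) (a (l 405505331751) (l 6530617277702494237861069055)))) (c (a (b (l 6124418202311991891858391295) (l 403357846439)) (c (l 6230803674438071081615819007) (l 6240475080994992375620255999))) (b (c (l 5940661477730571280959029503) (l 5950332884287492849841373439)) (c (l 6859445100637690965564588287) (l 6869116507194612397007978751))))) (c (c (l 308868569335) (l 308868567831)) (c (l 5563476622010787324681896191) (l 5573148028567713085451616511))))) (a (l 3) (a (l 3) (c (c (b (l 6298503520336469768278950143) (l 7130244484231336152305664255)) (b (a (l 6782073848182332295837335807) (l 326585308855)) (l 7159258703902094605481181439))) (c (b (c (l 6308174926893400201972187391) (l 6317846333450321358537703679))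 (l 7188272923572853470973542655)) (c (b (a (l 6830430880966931756474417407) (l 327122177623)) (l 7207615736686693722520830207)) (b (a (l 6849773694080770152596013311) (l 327122176839)) (l 7226958549800532049922949375)))))))) (l 3))), by decide +kernel⟩

def k16_pp_012 : ∃ t, chk3 f_pp_012 t 501 1015 1 = true :=
  ⟨(a (b (l 144029804126585087) (a (b (c (c (l 5689204907250673849360580863) (c (l 5689204907250679553076297983) (l 5689204907250683470085783807))) (b (l 16787856) (b (l 144250187508187391) (a (c (c (l 5969675697401292556902875391) (l 5969675697401296611351134463)) (c (l 5969675697401300665799557375) (l 5979347103958221959804059903))) (l 16788408))))) (b (a (b (c (c (l 6762731035068478231676846335) (a (l 404431592055) (l 6511274464588639555224912127))) (c (c (l 6811088067853076180485669119) (l 6830430880966914164290273535)) (a (l 7343015428483526142774395135) (c (l 6549960090816321226550362367) (l 6559631497373242383115911423))))) (l 3)) (c (c (l 6114746795755024830687363327)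 (c (l 6114746795755030053366939903) (l 6114746795755033626779058431))) (c (b (l 144244002757591295) (c (l 6346860553121047376124641535) (l 6346860553121051155695190271))) (b (l 5621505061352277636599431423) (a (c (l 6801416661296159009648607487) (l 6820759474409997130892361983)) (c (l 328195921623) (l 5921318664616706427841478911))))))) (b (a (l 3) (a (l 3) (c (c (l 387788596407) (l 7014187605548315739896611071)) (c (l 7043201825219073986913829119) (c (l 7062544638332913757425041663) (l 7072216044889834707832209663)))))) (l 3)))) (b (l 144031590851592447) (c (b (l 144212597955559679) (c (c (l 6153432421982675509532819711) (l 6153432421982678670627963135)) (a (b (l 5998689917072017406258577663) (l 6772402441625381864777302271)) (l 16789784)))) (b (l 144227510082191615) (a (c (b (c (l 5998689917072022697657499903) (l 5998689917072026408508604671)) (c (l 6791745254739221154252046591) (l 6811088067853058794459496703))) (b (a (c (l 6182446641653457396047347967) (l 6182446641653461244337389823))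 (l 16788952)) (a (c (l 403894721879) (l 404431592167)) (c (l 6520945871145548548443914495) (l 6540288684259386394809811199))))) (c (l 144221600210108671) (l 5640847874466088819810877695)))))))) (c (l 143974897269162239) (l 143991939697131775))), by decide +kernel⟩

def k17_pp_012 : ∃ t, chk3 f_pp_012 t 251 507 1 = true :=
  ⟨(b (l 16767536) (l 143849003160535167)), by decide +kernel⟩

def k18_pp_012 : ∃ t, chk3 f_pp_012 t 124 254 1 = true :=
  ⟨(l 3), by decide +kernel⟩

def k19_pp_012 : ∃ t, chk3 f_pp_012 t 250 508 1 = true :=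
  ⟨(b (b (a (l 3) (a (a (l 3) (a (l 3) (b (b (c (c (l 6675688376056194831969976575) (b (l 6375874772791772500358185215) (l 7130244484231302479764766975))) (c (b (c (l 6375874772791777516879249663) (l 6385546179348697986250146047)) (l 7159258703902060108306809087)) (c (b (a (l 6782073848182303364939825407) (l 329269665591)) (l 7178601517015899466501079295)) (b (a (l 6791745254739224109188595967) (l 329806535911)) (l 7197944330129737106708562175))))) (l 3)) (l 3)))) (b (a (c (c (b (l 5805261785933641485216841983) (a (l 6946487759649862489975734527) (l 6143761015425736142306951423))) (b (l 5834276005604398838880715007) (a (l 6956159166206785433247252735) (l 6172775235096493083654340863)))) (a (b (b (l 144214590819926271) (c (l 6027704136742754556398567679) (c (l 6037375543299676743756284159) (l 6037375543299680385887977727)))) (b (c (a (l 403894723879) (l 6482260244917853820418523391)) (c (l 6801416661296123893999452415) (a (l 406579075383) (l 6511274464588613441825505535)))) (l 3)))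 (b (l 16785184) (c (c (l 6192118048210331754654105855) (l 6192118048210334984468971775)) (b (l 144208543510692095) (a (c (l 6753059628511530755552821503) (l 6772402441625368189601939711)) (l 5960004290844329137862377727))))))) (c (l 144169442122236159) (l 144182361387221247))) (b (a (a (l 3) (c (c (l 7226958549800436529860428031) (l 7236629956357359060815151359)) (a (l 3) (c (l 7188272923572787569002152191) (c (l 7197944330129709344042893567) (l 7207615736686629675974902015)))))) (c (c (l 6163103828539554403622011135) (a (l 6424231805576326674865012991) (l 16789712))) (a (c (b (l 6027704136742733459521274111) (l 6801416661296097849320521983)) (b (c (l 6047046949856572267960041727) (l 6056718356413492599892066559)) (c (l 6811088067853019486922686719) (l 6811088067853022648018108671)))) (c (l 16790552) (l 144185728645071103))))) (a (l 3) (a (l 3) (c (c (l 6743388221954574345896640767) (l 6753059628511496395816354047)) (b (c (l 6443574618690156343613800703) (c (l 6453246025247077843777405183)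 (l 6453246025247080936153366783))) (c (l 7188272923572769152183779583) (l 7197944330129692026736017663)))))))))) (l 3)) (l 3)), by decide +kernel⟩

def k20_pp_012 : ∃ t, chk3 f_pp_012 t 502 1016 1 = true :=
  ⟨(b (a (a (c (c (l 5679533500693671672532992255) (l 5698876313807511374326268159)) (a (c (l 5727890533478275599940419839) (c (l 5747233346592114545818550527) (l 5756904753149034877750624511))) (l 16786408))) (l 144035301699846399)) (l 16777440)) (a (b (b (a (a (c (c (l 7014187605548231489819771135) (l 7023859012105152852545323263)) (c (b (l 6830430880966827921353507071) (l 451139362023)) (c (l 7052873231775914947856089343) (l 7052873231775917078160212223)))) (c (c (l 6114746795754945803289035007) (l 6134089608868784474290094335)) (a (c (l 6298503520336382288388882687) (b (l 16790392) (l 6820759474409908551493173503))) (c (l 320679732967) (l 5795590379376695795796590847))))) (c (l 144134876225503487) (l 144144840551121151))) (a (a (l 3) (c (c (l 7352686835040321267824394495)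 (l 7362358241597241874635636991)) (c (l 7372029648154163649678000383) (b (l 7275315582585007334475694335) (l 3))))) (a (c (c (b (l 5940661477730431436828999935) (l 6898130726865220010938843391)) (b (l 5960004290844269764232446207) (l 6898130726865224134108020991))) (c (b (l 5979347103958108503952916735) (a (l 409800303159) (l 6395217585905540321576337663))) (a (b (l 6153432421982623351449321727) (l 7391372461268005000737767679)) (c (l 6134089608868782825022308607) (l 6134089608868785436362621183))))) (c (c (l 16788720) (l 16787752)) (c (l 16788096) (l 16789096)))))) (b (a (l 3) (a (c (c (l 434496361319) (l 437180716599)) (c (l 421611460887) (b (l 7691186064532424102531956991) (l 3)))) (c (c (b (l 6472588838360861745347690751) (l 7275315582584970981866930431)) (b (l 6327517740007110023954858239) (l 7284986989141890970202767615))) (c (b (a (l 6656345562942296375021240575) (l 324974696887)) (l 7284986989141890764045025535)) (a (c (l 7159258703901985891270639871) (l 6994844792434398728692646143))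 (b (l 5863290225275098399463342335) (l 7130244484231231492542136575))))))) (l 3))) (c (b (l 16784568) (a (b (a (c (l 5824604599047409856184713471) (l 5843947412161247565112836351)) (l 16787328)) (a (c (b (l 6917473539979038478409629951) (l 415169008007)) (c (l 7139915890788138492893118719) (l 7139915890788127910094012671))) (c (a (l 6230803674437921822911201535) (l 317458499639)) (c (l 6105075389197999701546811647) (l 6114746795754918384212115711))))) (l 144099898005307519))) (b (l 16785144) (a (b (a (c (l 5863290225275085617638424831) (c (l 5872961631832005949571612927) (l 5882633038388925319431799039))) (l 16787904)) (a (c (c (l 7149587297345046798917861631) (l 7149587297345048723063521535)) (b (c (l 6927144946535965682291736831) (l 6927144946535967881315303679)) (l 7681514657975489202066866431))) (c (b (l 16787640) (a (l 6637002749828445197072859391) (l 323364080695))) (a (c (l 6279160707222516748066767103) (l 6288832113779435843049013503)) (l 5766576159705908961468924159)))))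 (l 144107319709810943)))))), by decide +kernel⟩

def k21_pp_012 : ∃ t, chk3 f_pp_012 t 502 1017 1 = true :=
  ⟨(b (a (l 3) (b (b (a (a (l 3) (a (l 3) (c (c (l 7333344021926463836400599295) (l 7343015428483384305772626175)) (c (l 7352686835040297903196831999) (c (l 7352686835040307249046241535) (l 7362358241597226137870041343)))))) (a (c (c (b (l 5911647258059649069267632255) (a (l 400673490967) (l 6143761015425657664653623423))) (b (l 5930990071173485953561919743) (a (l 410337166951) (l 6327517740007083910548603135)))) (c (b (l 5950332884287323181453656319) (a (l 7401043867824882932745552127) (l 6356531959677837965679509759))) (a (b (l 6105075389198002450326012159) (l 7410715274381803402117480703)) (c (l 6105075389197996403011158271) (l 6105075389197998258437275903))))) (c (c (l 16785512) (l 16785736)) (c (l 16785968) (l 16785536))))) (a (l 3) (a (c (c (l 424832679799) (l 425906422103)) (c (l 426443293511) (b (l 7700857471089306501306204415) (l 3)))) (c (c (b (a (l 6666016969499174032151986303)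 (l 306184208359)) (l 7314001208812617674974380159)) (b (a (l 6598317123600757203549716607) (l 303499854279)) (l 7314001208812620217595461759))) (b (a (c (l 6617659936714594019124429055) (c (l 6637002749828430422382444799) (l 6646674156385349105047781631))) (c (l 322290335607) (l 5814933192490477567059640575))) (a (l 3) (c (l 7130244484231192872188821759) (c (l 396378521671) (l 7139915890788113616438853887))))))))) (l 3))) (l 3)), by decide +kernel⟩

def k22_pp_012 : ∃ t, chk3 f_pp_012 t 503 508 1 = true :=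
  ⟨(a (b (l 143958610742001791) (a (b (a (b (a (c (c (l 5747233346592042252916490367) (l 5766576159705878724893720703)) (c (l 5776247566262798575790342271) (c (l 5795590379376635047767818495) (l 5805261785933553730433122559)))) (c (l 16784016) (l 144095637398110335))) (b (c (c (b (a (l 400136616855) (l 6134089608868724963212017791)) (l 414632130695)) (b (a (l 7265644176028025017563807871) (l 6076061169527224618252451967)) (l 415705872887))) (c (b (c (l 6946487759649761815928438911) (l 6956159166206680086276685951)) (l 7710528877646212677022679167)) (b (a (l 7420386680938702568447672575) (c (l 5940661477730390342574260351) (l 5930990071173474752285819135))) (l 7720200284203132596638646399)))) (l 3))) (b (c (l 16784144) (l 16784496)) (a (b (c (b (l 144091376791683199) (c (l 6656345562942241330710380671) (l 6695031189169911113568927871))) (c (c (l 6240475080994810887476134015) (l 6250146487551729020385591423)) (b (l 16784576) (c (l 6724045408840666062053097599) (l 6753059628511418467916365951)))))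 (l 3)) (c (b (c (l 307794817911) (l 304036721927)) (c (l 7178601517015760240829350015) (l 7217287143243429748809875583))) (b (c (l 300278625943) (l 5737561940035122195860373631)) (c (c (l 7217287143243431398077481087) (l 7372029648154104550914392191)) (c (l 7381701054711022615104258175) (l 7381701054711023783335526527)))))))) (l 3)) (b (b (l 16781928) (c (b (l 144070898384699519) (a (c (b (l 5602162248238272595737051263) (a (l 398526000823) (l 6114746795754875159653367935))) (b (l 5544133808896771769741049983) (a (l 7226958549800342246721208447) (l 6114746795754876327884734591)))) (c (l 16782328) (l 16782440)))) (b (l 144075021553827967) (a (b (a (c (l 5766576159705868416970326143) (c (l 327122170615) (l 328195912583))) (l 16783208)) (a (c (l 7255972769471093140756004991) (c (l 402820968999) (l 403357840055))) (c (l 6124418202311794873111117951) (c (l 6124418202311796316220326015) (l 6134089608868714380410257535))))) (c (l 16782552) (l 16782664)))))) (b (b (a (c (c (l 7507429339950936765007560831)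 (l 7526772153064771518997889151)) (c (l 7536443559621689926785335423) (b (l 7729871690760031419371421823) (l 3)))) (b (c (a (c (l 6646674156385308560549380223) (l 6666016969499143589417582719)) (c (l 319605974503) (l 317995362023))) (a (c (c (l 6666016969499144551490355327) (l 6675688376056062340802363519)) (c (l 6695031189169897232231579775) (l 6704702595726815227702018175))) (c (l 315847878647) (l 313163524375)))) (a (l 3) (c (c (l 6907802133422064957591699583) (l 6936816353092816813699137663)) (c (l 6956159166206651980006260863) (c (l 6956159166206653079517954175) (l 6965830572763570937549422719))))))) (l 3)) (l 3))))) (b (l 16781832) (b (c (l 16778248) (l 16779024)) (l 6)))), by decide +kernel⟩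

def k23_pp_012 : ∃ t, chk3 f_pp_012 t 125 509 1 = true :=
  ⟨(a (l 3) (l 3)), by decide +kernel⟩

def k24_pp_012 : ∃ t, chk3 f_pp_012 t 62 255 1 = true :=
  ⟨(l 3), by decide +kernel⟩

def k25_pp_012 : ∃ t, chk3 f_pp_012 t 63 31 1 = true :=
  ⟨(b (a (b (l 16751280) (a (l 16767416) (l 16770712))) (b (a (l 16756120) (l 16759592)) (a (l 16765568) (l 6)))) (a (b (a (b (l 16781496) (l 143585670106087551)) (b (l 16771096) (l 6))) (l 6)) (l 6))), by decide +kernel⟩

theorem s26_pp_012 : ∃ t, chk3 f_pp_012 t 502 508 1 = true := ex3_b k20_pp_012 k21_pp_012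

theorem s27_pp_012 : ∃ t, chk3 f_pp_012 t 251 508 1 = true := ex3_a s26_pp_012 k22_pp_012

theorem s28_pp_012 : ∃ t, chk3 f_pp_012 t 125 508 1 = true := ex3_a k19_pp_012 s27_pp_012

theorem s29_pp_012 : ∃ t, chk3 f_pp_012 t 125 254 1 = true := ex3_b s28_pp_012 k23_pp_012

theorem s30_pp_012 : ∃ t, chk3 f_pp_012 t 62 254 1 = true := ex3_a k18_pp_012 s29_pp_012

theorem s31_pp_012 : ∃ t, chk3 f_pp_012 t 62 127 1 = true := ex3_b s30_pp_012 k24_pp_012

theorem s32_pp_012 : ∃ t, chk3 f_pp_012 t 500 1015 1 = true := ex3_b k14_pp_012 k15_pp_012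

theorem s33_pp_012 : ∃ t, chk3 f_pp_012 t 250 1015 1 = true := ex3_a s32_pp_012 k16_pp_012

theorem s34_pp_012 : ∃ t, chk3 f_pp_012 t 250 507 1 = true := ex3_b k13_pp_012 s33_pp_012

theorem s35_pp_012 : ∃ t, chk3 f_pp_012 t 125 507 1 = true := ex3_a s34_pp_012 k17_pp_012

theorem s36_pp_012 : ∃ t, chk3 f_pp_012 t 125 253 1 = true := ex3_b k12_pp_012 s35_pp_012

theorem s37_pp_012 : ∃ t, chk3 f_pp_012 t 124 253 1 = true := ex3_b k10_pp_012 k11_pp_012

theorem s38_pp_012 : ∃ t, chk3 f_pp_012 t 62 253 1 = true := ex3_a s37_pp_012 s36_pp_012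

theorem s39_pp_012 : ∃ t, chk3 f_pp_012 t 62 126 1 = true := ex3_b k9_pp_012 s38_pp_012

theorem s40_pp_012 : ∃ t, chk3 f_pp_012 t 62 63 1 = true := ex3_b s39_pp_012 s31_pp_012

theorem s41_pp_012 : ∃ t, chk3 f_pp_012 t 62 31 1 = true := ex3_b k8_pp_012 s40_pp_012

theorem s42_pp_012 : ∃ t, chk3 f_pp_012 t 31 31 1 = true := ex3_a s41_pp_012 k25_pp_012

theorem s43_pp_012 : ∃ t, chk3 f_pp_012 t 31 15 1 = true := ex3_b k7_pp_012 s42_pp_012

theorem s44_pp_012 : ∃ t, chk3 f_pp_012 t 15 15 1 = true := ex3_a k6_pp_012 s43_pp_012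

theorem s45_pp_012 : ∃ t, chk3 f_pp_012 t 15 7 1 = true := ex3_b k5_pp_012 s44_pp_012

theorem s46_pp_012 : ∃ t, chk3 f_pp_012 t 7 7 1 = true := ex3_a k4_pp_012 s45_pp_012

theorem s47_pp_012 : ∃ t, chk3 f_pp_012 t 7 3 1 = true := ex3_b k3_pp_012 s46_pp_012

theorem s48_pp_012 : ∃ t, chk3 f_pp_012 t 7 1 1 = true := ex3_b k2_pp_012 s47_pp_012

theorem s49_pp_012 : ∃ t, chk3 f_pp_012 t 3 1 1 = true := ex3_a k1_pp_012 s48_pp_012

theorem s50_pp_012 : ∃ t, chk3 f_pp_012 t 1 1 1 = true := ex3_a k0_pp_012 s49_pp_012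

theorem c_pp_012 : CertB 0 536870912 0 536870912 1033476505 6710887 3 eng mog cd2q0 cd0q2 pd1 false true true .pnp 0 1 2
    ndB2q0 ndB0q2 pcB1 cut_pp_012 xt_pp_012 :=
  certB2 (fam := false) (s1 := true) (s2 := true) (a := 0) (b := 1) (c := 2) (cn := .pnp) (n1 := ndB2q0) (n2 := ndB0q2) (pc := pcB1) (cut := cut_pp_012) (xt := xt_pp_012) (P1 := 0) (W1 := 536870912) (P2 := 0) (W2 := 536870912) (P3 := 1033476505) (W3 := 6710887) (N0 := 3) (En := eng) (mo := mog) (C1 := cd2q0) (C2 := cd0q2) (C3 := pd1)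
    rfl (fun _ => rfl) s50_pp_012

end Pool.Agent.Strip051.G.I9625_9688.Tab.C.BB20

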