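import Pool.Agent.Strip051.G.I9625_9688.Tab
import Pool.Agent.Strip051.PB.ExtD3

/-! # Certificates B29 (generated) -/

set_option linter.all false
set_option maxRecDepth 100000

namespace Pool.Agent.Strip051.G.I9625_9688.Tab.C.BB23

open Pool.Agent.Strip051.PB Pool.Agent.Strip051.PB.T
open Pool.Agent.Strip051.G.I9625_9688.Tab

noncomputable def cut_pm_213_b : Cut := Cut.of [[⟨0, 1, 0, 20971520⟩, ⟨1, 1, 0, 20971520⟩, ⟨2, 2, 0, 1572864⟩]]

noncomputable def f_pm_213_b : ℕ → ℕ → ℕ → ℕ → Bool := onCell 1239849684 370763052 0 1230186008 1033476505 6710887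
    (rowB 3 eng mog cd2q2b cd3q3 pd1 0 false true false .pnn 2 1 3 (qsf 1239849684 370763052 0 1230186008 1) ndB2q2b ndB3q3 pcB1 cut_pm_213_b Ext.none)

def k0_pm_213_b : ∃ t, chk3 f_pm_213_b t 1 1 1 = true :=
  ⟨(b (l 3) (l 3)), by decide +kernel⟩

theorem c_pm_213_b : CertB 1239849684 370763052 0 1230186008 1033476505 6710887 3 eng mog cd2q2b cd3q3 pd1 false true false .pnn 2 1 3
    ndB2q2b ndB3q3 pcB1 cut_pm_213_b Ext.none :=
  certB0 (fam := false) (s1 := true) (s2 := false) (a := 2) (b := 1) (c := 3) (cn := .pnn) (n1 := ndB2q2b) (n2 := ndB3q3) (pc := pcB1) (cut := cut_pm_213_b) (xt := Ext.none) (P1 := 1239849684) (W1 := 370763052) (P2 := 0) (W2 := 1230186008) (P3 := 1033476505) (W3 := 6710887) (N0 := 3) (En := eng) (mo := mog) (C1 := cd2q2b) (C2 := cd3q3) (C3 := pd1)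
    rfl k0_pm_213_b

noncomputable def f_pm_303 : ℕ → ℕ → ℕ → ℕ → Bool := onCell 1610612736 536870912 0 1230186008 1033476505 6710887
    (rowB 3 eng mog cd2q3 cd3q3 pd0 0 false true false .npn 3 0 3 (qsf 1610612736 536870912 0 1230186008 0) ndB2q3 ndB3q3 pcB0 Cut.none Ext.none)

def k0_pm_303 : ∃ t, chk3 f_pm_303 t 1 1 1 = true :=
  ⟨(b (l 3) (l 3)), by decide +kernel⟩

theorem c_pm_303 : CertB 1610612736 536870912 0 1230186008 1033476505 6710887 3 eng mog cd2q3 cd3q3 pd0 false true false .npn 3 0 3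
    ndB2q3 ndB3q3 pcB0 Cut.none Ext.none :=
  certB0 (fam := false) (s1 := true) (s2 := false) (a := 3) (b := 0) (c := 3) (cn := .npn) (n1 := ndB2q3) (n2 := ndB3q3) (pc := pcB0) (cut := Cut.none) (xt := Ext.none) (P1 := 1610612736) (W1 := 536870912) (P2 := 0) (W2 := 1230186008) (P3 := 1033476505) (W3 := 6710887) (N0 := 3) (En := eng) (mo := mog) (C1 := cd2q3) (C2 := cd3q3) (C3 := pd0)
    rfl k0_pm_303

noncomputable def f_pm_313 : ℕ → ℕ → ℕ → ℕ → Bool := onCell 1610612736 536870912 0 1230186008 1033476505 6710887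
    (rowB 3 eng mog cd2q3 cd3q3 pd1 0 false true false .dn 3 1 3 (qsf 1610612736 536870912 0 1230186008 1) ndB2q3 ndB3q3 pcB1 Cut.none Ext.none)

def k0_pm_313 : ∃ t, chk3 f_pm_313 t 1 1 1 = true :=
  ⟨(b (l 3) (l 1)), by decide +kernel⟩

theorem c_pm_313 : CertB 1610612736 536870912 0 1230186008 1033476505 6710887 3 eng mog cd2q3 cd3q3 pd1 false true false .dn 3 1 3
    ndB2q3 ndB3q3 pcB1 Cut.none Ext.none :=
  certB0 (fam := false) (s1 := true) (s2 := false) (a := 3) (b := 1) (c := 3) (cn := .dn) (n1 := ndB2q3) (n2 := ndB3q3) (pc := pcB1) (cut := Cut.none) (xt := Ext.none) (P1 := 1610612736) (W1 := 536870912) (P2 := 0) (W2 := 1230186008) (P3 := 1033476505) (W3 := 6710887) (N0 := 3) (En := eng) (mo := mog) (C1 := cd2q3) (C2 := cd3q3) (C3 := pd1)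
    rfl k0_pm_313

noncomputable def f_mm_001 : ℕ → ℕ → ℕ → ℕ → Bool := onCell 0 536870912 0 536870912 1033476505 6710887
    (rowB 3 eng mog cd2q0 cd3q1 pd0 1 false false false .up 0 0 1 (qsf 0 536870912 536870912 536870912 0) ndB2q0 ndB3q1 pcB0 Cut.none Ext.none)

def k0_mm_001 : ∃ t, chk3 f_mm_001 t 1 1 1 = true :=
  ⟨(l 3), by decide +kernel⟩

theorem c_mm_001 : CertB 0 536870912 536870912 536870912 1033476505 6710887 3 eng mog cd2q0 cd3q1 pd0 false false false .up 0 0 1
    ndB2q0 ndB3q1 pcB0 Cut.none Ext.none :=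
  certB1 (fam := false) (s1 := false) (s2 := false) (a := 0) (b := 0) (c := 1) (cn := .up) (n1 := ndB2q0) (n2 := ndB3q1) (pc := pcB0) (cut := Cut.none) (xt := Ext.none) (P1 := 0) (W1 := 536870912) (P2 := 536870912) (W2 := 536870912) (P3 := 1033476505) (W3 := 6710887) (N0 := 3) (En := eng) (mo := mog) (C1 := cd2q0) (C2 := cd3q1) (C3 := pd0)
    rfl (fun _ => rfl) k0_mm_001

noncomputable def f_mm_011 : ℕ → ℕ → ℕ → ℕ → Bool := onCell 0 536870912 536870912 536870912 1033476505 6710887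
    (rowB 3 eng mog cd2q0 cd3q1 pd1 1 false false false .pnn 0 1 1 (qsf 0 536870912 536870912 536870912 1) ndB2q0 ndB3q1 pcB1 Cut.none Ext.none)

def k0_mm_011 : ∃ t, chk3 f_mm_011 t 1 1 1 = true :=
  ⟨(l 5), by decide +kernel⟩

theorem c_mm_011 : CertB 0 536870912 536870912 536870912 1033476505 6710887 3 eng mog cd2q0 cd3q1 pd1 false false false .pnn 0 1 1
    ndB2q0 ndB3q1 pcB1 Cut.none Ext.none :=
  certB1 (fam := false) (s1 := false) (s2 := false) (a := 0) (b := 1) (c := 1) (cn := .pnn) (n1 := ndB2q0) (n2 := ndB3q1) (pc := pcB1) (cut := Cut.none) (xt := Ext.none) (P1 := 0) (W1 := 536870912) (P2 := 536870912) (W2 := 536870912) (P3 := 1033476505) (W3 := 6710887) (N0 := 3) (En := eng) (mo := mog) (C1 := cd2q0) (C2 := cd3q1) (C3 := pd1)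
    rfl (fun _ => rfl) k0_mm_011

noncomputable def f_mm_012 : ℕ → ℕ → ℕ → ℕ → Bool := onCell 0 536870912 1073741824 536870912 1033476505 6710887
    (rowB 3 eng mog cd2q0 cd3q2 pd1 0 false false false .pnp 0 1 2 (qsf 0 536870912 1073741824 536870912 1) ndB2q0 ndB3q2 pcB1 Cut.none Ext.none)

def k0_mm_012 : ∃ t, chk3 f_mm_012 t 1 1 1 = true :=
  ⟨(l 5), by decide +kernel⟩

theorem c_mm_012 : CertB 0 536870912 1073741824 536870912 1033476505 6710887 3 eng mog cd2q0 cd3q2 pd1 false false false .pnp 0 1 2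
    ndB2q0 ndB3q2 pcB1 Cut.none Ext.none :=
  certB0 (fam := false) (s1 := false) (s2 := false) (a := 0) (b := 1) (c := 2) (cn := .pnp) (n1 := ndB2q0) (n2 := ndB3q2) (pc := pcB1) (cut := Cut.none) (xt := Ext.none) (P1 := 0) (W1 := 536870912) (P2 := 1073741824) (W2 := 536870912) (P3 := 1033476505) (W3 := 6710887) (N0 := 3) (En := eng) (mo := mog) (C1 := cd2q0) (C2 := cd3q2) (C3 := pd1)
    rfl k0_mm_012

noncomputable def f_mm_022 : ℕ → ℕ → ℕ → ℕ → Bool := onCell 0 536870912 1073741824 536870912 1033476505 6710887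
    (rowB 3 eng mog cd2q0 cd3q2 pd2 0 false false false .pp 0 2 2 (qsf 0 536870912 1073741824 536870912 2) ndB2q0 ndB3q2 pcB2 Cut.none Ext.none)

def k0_mm_022 : ∃ t, chk3 f_mm_022 t 1 1 1 = true :=
  ⟨(l 5), by decide +kernel⟩

theorem c_mm_022 : CertB 0 536870912 1073741824 536870912 1033476505 6710887 3 eng mog cd2q0 cd3q2 pd2 false false false .pp 0 2 2
    ndB2q0 ndB3q2 pcB2 Cut.none Ext.none :=
  certB0 (fam := false) (s1 := false) (s2 := false) (a := 0) (b := 2) (c := 2) (cn := .pp) (n1 := ndB2q0) (n2 := ndB3q2) (pc := pcB2) (cut := Cut.none) (xt := Ext.none) (P1 := 0) (W1 := 536870912) (P2 := 1073741824) (W2 := 536870912) (P3 := 1033476505) (W3 := 6710887) (N0 := 3) (En := eng) (mo := mog) (C1 := cd2q0) (C2 := cd3q2) (C3 := pd2)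
    rfl k0_mm_022

noncomputable def f_mm_023 : ℕ → ℕ → ℕ → ℕ → Bool := onCell 0 536870912 0 1230186008 1033476505 6710887
    (rowB 3 eng mog cd2q0 cd3q3 pd2 0 false false false .up 0 2 3 (qsf 0 536870912 0 1230186008 2) ndB2q0 ndB3q3 pcB2 Cut.none Ext.none)

def k0_mm_023 : ∃ t, chk3 f_mm_023 t 1 1 1 = true :=
  ⟨(l 5), by decide +kernel⟩

theorem c_mm_023 : CertB 0 536870912 0 1230186008 1033476505 6710887 3 eng mog cd2q0 cd3q3 pd2 false false false .up 0 2 3
    ndB2q0 ndB3q3 pcB2 Cut.none Ext.none :=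
  certB0 (fam := false) (s1 := false) (s2 := false) (a := 0) (b := 2) (c := 3) (cn := .up) (n1 := ndB2q0) (n2 := ndB3q3) (pc := pcB2) (cut := Cut.none) (xt := Ext.none) (P1 := 0) (W1 := 536870912) (P2 := 0) (W2 := 1230186008) (P3 := 1033476505) (W3 := 6710887) (N0 := 3) (En := eng) (mo := mog) (C1 := cd2q0) (C2 := cd3q3) (C3 := pd2)
    rfl k0_mm_023

noncomputable def f_mm_033 : ℕ → ℕ → ℕ → ℕ → Bool := onCell 0 536870912 0 1230186008 1033476505 6710887
    (rowB 3 eng mog cd2q0 cd3q3 pd3 0 false false false .pnn 0 3 3 (qsf 0 536870912 0 1230186008 3) ndB2q0 ndB3q3 pcB3 Cut.none Ext.none)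

def k0_mm_033 : ∃ t, chk3 f_mm_033 t 1 1 1 = true :=
  ⟨(l 5), by decide +kernel⟩

theorem c_mm_033 : CertB 0 536870912 0 1230186008 1033476505 6710887 3 eng mog cd2q0 cd3q3 pd3 false false false .pnn 0 3 3
    ndB2q0 ndB3q3 pcB3 Cut.none Ext.none :=
  certB0 (fam := false) (s1 := false) (s2 := false) (a := 0) (b := 3) (c := 3) (cn := .pnn) (n1 := ndB2q0) (n2 := ndB3q3) (pc := pcB3) (cut := Cut.none) (xt := Ext.none) (P1 := 0) (W1 := 536870912) (P2 := 0) (W2 := 1230186008) (P3 := 1033476505) (W3 := 6710887) (N0 := 3) (En := eng) (mo := mog) (C1 := cd2q0) (C2 := cd3q3) (C3 := pd3)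
    rfl k0_mm_033

noncomputable def f_mm_101 : ℕ → ℕ → ℕ → ℕ → Bool := onCell 536870912 536870912 536870912 536870912 1033476505 6710887
    (rowB 3 eng mog cd2q1 cd3q1 pd0 0 false false false .npn 1 0 1 (qsf 536870912 536870912 536870912 536870912 0) ndB2q1 ndB3q1 pcB0 Cut.none Ext.none)

def k0_mm_101 : ∃ t, chk3 f_mm_101 t 1 1 1 = true :=
  ⟨(l 3), by decide +kernel⟩

theorem c_mm_101 : CertB 536870912 536870912 536870912 536870912 1033476505 6710887 3 eng mog cd2q1 cd3q1 pd0 false false false .npn 1 0 1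
    ndB2q1 ndB3q1 pcB0 Cut.none Ext.none :=
  certB0 (fam := false) (s1 := false) (s2 := false) (a := 1) (b := 0) (c := 1) (cn := .npn) (n1 := ndB2q1) (n2 := ndB3q1) (pc := pcB0) (cut := Cut.none) (xt := Ext.none) (P1 := 536870912) (W1 := 536870912) (P2 := 536870912) (W2 := 536870912) (P3 := 1033476505) (W3 := 6710887) (N0 := 3) (En := eng) (mo := mog) (C1 := cd2q1) (C2 := cd3q1) (C3 := pd0)
    rfl k0_mm_101

noncomputable def f_mm_102 : ℕ → ℕ → ℕ → ℕ → Bool := onCell 536870912 536870912 1073741824 536870912 1033476505 6710887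
    (rowB 3 eng mog cd2q1 cd3q2 pd0 0 false false false .npp 1 0 2 (qsf 536870912 536870912 1073741824 536870912 0) ndB2q1 ndB3q2 pcB0 Cut.none Ext.none)

def k0_mm_102 : ∃ t, chk3 f_mm_102 t 1 1 1 = true :=
  ⟨(l 5), by decide +kernel⟩

theorem c_mm_102 : CertB 536870912 536870912 1073741824 536870912 1033476505 6710887 3 eng mog cd2q1 cd3q2 pd0 false false false .npp 1 0 2
    ndB2q1 ndB3q2 pcB0 Cut.none Ext.none :=
  certB0 (fam := false) (s1 := false) (s2 := false) (a := 1) (b := 0) (c := 2) (cn := .npp) (n1 := ndB2q1) (n2 := ndB3q2) (pc := pcB0) (cut := Cut.none) (xt := Ext.none) (P1 := 536870912) (W1 := 536870912) (P2 := 1073741824) (W2 := 536870912) (P3 := 1033476505) (W3 := 6710887) (N0 := 3) (En := eng) (mo := mog) (C1 := cd2q1) (C2 := cd3q2) (C3 := pd0)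
    rfl k0_mm_102

noncomputable def f_mm_112 : ℕ → ℕ → ℕ → ℕ → Bool := onCell 536870912 536870912 1073741824 536870912 1033476505 6710887
    (rowB 3 eng mog cd2q1 cd3q2 pd1 0 false false false .dn 1 1 2 (qsf 536870912 536870912 1073741824 536870912 1) ndB2q1 ndB3q2 pcB1 Cut.none Ext.none)

def k0_mm_112 : ∃ t, chk3 f_mm_112 t 1 1 1 = true :=
  ⟨(l 5), by decide +kernel⟩

theorem c_mm_112 : CertB 536870912 536870912 1073741824 536870912 1033476505 6710887 3 eng mog cd2q1 cd3q2 pd1 false false false .dn 1 1 2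
    ndB2q1 ndB3q2 pcB1 Cut.none Ext.none :=
  certB0 (fam := false) (s1 := false) (s2 := false) (a := 1) (b := 1) (c := 2) (cn := .dn) (n1 := ndB2q1) (n2 := ndB3q2) (pc := pcB1) (cut := Cut.none) (xt := Ext.none) (P1 := 536870912) (W1 := 536870912) (P2 := 1073741824) (W2 := 536870912) (P3 := 1033476505) (W3 := 6710887) (N0 := 3) (En := eng) (mo := mog) (C1 := cd2q1) (C2 := cd3q2) (C3 := pd1)
    rfl k0_mm_112

noncomputable def f_mm_113 : ℕ → ℕ → ℕ → ℕ → Bool := onCell 536870912 536870912 0 1230186008 1033476505 6710887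
    (rowB 3 eng mog cd2q1 cd3q3 pd1 0 false false false .nn 1 1 3 (qsf 536870912 536870912 0 1230186008 1) ndB2q1 ndB3q3 pcB1 Cut.none Ext.none)

def k0_mm_113 : ∃ t, chk3 f_mm_113 t 1 1 1 = true :=
  ⟨(l 5), by decide +kernel⟩

theorem c_mm_113 : CertB 536870912 536870912 0 1230186008 1033476505 6710887 3 eng mog cd2q1 cd3q3 pd1 false false false .nn 1 1 3
    ndB2q1 ndB3q3 pcB1 Cut.none Ext.none :=
  certB0 (fam := false) (s1 := false) (s2 := false) (a := 1) (b := 1) (c := 3) (cn := .nn) (n1 := ndB2q1) (n2 := ndB3q3) (pc := pcB1) (cut := Cut.none) (xt := Ext.none) (P1 := 536870912) (W1 := 536870912) (P2 := 0) (W2 := 1230186008) (P3 := 1033476505) (W3 := 6710887) (N0 := 3) (En := eng) (mo := mog) (C1 := cd2q1) (C2 := cd3q3) (C3 := pd1)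
    rfl k0_mm_113

noncomputable def f_mm_123 : ℕ → ℕ → ℕ → ℕ → Bool := onCell 536870912 536870912 0 1230186008 1033476505 6710887
    (rowB 3 eng mog cd2q1 cd3q3 pd2 0 false false false .npn 1 2 3 (qsf 536870912 536870912 0 1230186008 2) ndB2q1 ndB3q3 pcB2 Cut.none Ext.none)

def k0_mm_123 : ∃ t, chk3 f_mm_123 t 1 1 1 = true :=
  ⟨(l 5), by decide +kernel⟩

theorem c_mm_123 : CertB 536870912 536870912 0 1230186008 1033476505 6710887 3 eng mog cd2q1 cd3q3 pd2 false false false .npn 1 2 3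
    ndB2q1 ndB3q3 pcB2 Cut.none Ext.none :=
  certB0 (fam := false) (s1 := false) (s2 := false) (a := 1) (b := 2) (c := 3) (cn := .npn) (n1 := ndB2q1) (n2 := ndB3q3) (pc := pcB2) (cut := Cut.none) (xt := Ext.none) (P1 := 536870912) (W1 := 536870912) (P2 := 0) (W2 := 1230186008) (P3 := 1033476505) (W3 := 6710887) (N0 := 3) (En := eng) (mo := mog) (C1 := cd2q1) (C2 := cd3q3) (C3 := pd2)
    rfl k0_mm_123

noncomputable def f_mm_133 : ℕ → ℕ → ℕ → ℕ → Bool := onCell 536870912 536870912 0 1230186008 1033476505 6710887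
    (rowB 3 eng mog cd2q1 cd3q3 pd3 0 false false false .dn 1 3 3 (qsf 536870912 536870912 0 1230186008 3) ndB2q1 ndB3q3 pcB3 Cut.none Ext.none)

def k0_mm_133 : ∃ t, chk3 f_mm_133 t 1 1 1 = true :=
  ⟨(l 5), by decide +kernel⟩

theorem c_mm_133 : CertB 536870912 536870912 0 1230186008 1033476505 6710887 3 eng mog cd2q1 cd3q3 pd3 false false false .dn 1 3 3
    ndB2q1 ndB3q3 pcB3 Cut.none Ext.none :=
  certB0 (fam := false) (s1 := false) (s2 := false) (a := 1) (b := 3) (c := 3) (cn := .dn) (n1 := ndB2q1) (n2 := ndB3q3) (pc := pcB3) (cut := Cut.none) (xt := Ext.none) (P1 := 536870912) (W1 := 536870912) (P2 := 0) (W2 := 1230186008) (P3 := 1033476505) (W3 := 6710887) (N0 := 3) (En := eng) (mo := mog) (C1 := cd2q1) (C2 := cd3q3) (C3 := pd3)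
    rfl k0_mm_133

noncomputable def f_mm_202_a : ℕ → ℕ → ℕ → ℕ → Bool := onCell 0 536870912 1073741824 536870912 1033476505 6710887
    (rowB 3 eng mog cd2q2a cd3q2 pd0 0 false false false .pp 2 0 2 (qsf 0 536870912 1073741824 536870912 0) ndB2q2a ndB3q2 pcB0 Cut.none Ext.none)

def k0_mm_202_a : ∃ t, chk3 f_mm_202_a t 1 1 1 = true :=
  ⟨(l 3), by decide +kernel⟩

theorem c_mm_202_a : CertB 0 536870912 1073741824 536870912 1033476505 6710887 3 eng mog cd2q2a cd3q2 pd0 false false false .pp 2 0 2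
    ndB2q2a ndB3q2 pcB0 Cut.none Ext.none :=
  certB0 (fam := false) (s1 := false) (s2 := false) (a := 2) (b := 0) (c := 2) (cn := .pp) (n1 := ndB2q2a) (n2 := ndB3q2) (pc := pcB0) (cut := Cut.none) (xt := Ext.none) (P1 := 0) (W1 := 536870912) (P2 := 1073741824) (W2 := 536870912) (P3 := 1033476505) (W3 := 6710887) (N0 := 3) (En := eng) (mo := mog) (C1 := cd2q2a) (C2 := cd3q2) (C3 := pd0)
    rfl k0_mm_202_a

noncomputable def f_mm_202_b : ℕ → ℕ → ℕ → ℕ → Bool := onCell 1239849684 370763052 1073741824 536870912 1033476505 6710887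
    (rowB 3 eng mog cd2q2b cd3q2 pd0 0 false false false .pp 2 0 2 (qsf 1239849684 370763052 1073741824 536870912 0) ndB2q2b ndB3q2 pcB0 Cut.none Ext.none)

def k0_mm_202_b : ∃ t, chk3 f_mm_202_b t 1 1 1 = true :=
  ⟨(l 3), by decide +kernel⟩

theorem c_mm_202_b : CertB 1239849684 370763052 1073741824 536870912 1033476505 6710887 3 eng mog cd2q2b cd3q2 pd0 false false false .pp 2 0 2
    ndB2q2b ndB3q2 pcB0 Cut.none Ext.none :=
  certB0 (fam := false) (s1 := false) (s2 := false) (a := 2) (b := 0) (c := 2) (cn := .pp) (n1 := ndB2q2b) (n2 := ndB3q2) (pc := pcB0) (cut := Cut.none) (xt := Ext.none) (P1 := 1239849684) (W1 := 370763052) (P2 := 1073741824) (W2 := 536870912) (P3 := 1033476505) (W3 := 6710887) (N0 := 3) (En := eng) (mo := mog) (C1 := cd2q2b) (C2 := cd3q2) (C3 := pd0)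
    rfl k0_mm_202_b

noncomputable def f_mm_203_a : ℕ → ℕ → ℕ → ℕ → Bool := onCell 0 536870912 0 1230186008 1033476505 6710887
    (rowB 3 eng mog cd2q2a cd3q3 pd0 0 false false false .up 2 0 3 (qsf 0 536870912 0 1230186008 0) ndB2q2a ndB3q3 pcB0 Cut.none Ext.none)

def k0_mm_203_a : ∃ t, chk3 f_mm_203_a t 1 1 1 = true :=
  ⟨(b (l 2) (l 3)), by decide +kernel⟩

theorem c_mm_203_a : CertB 0 536870912 0 1230186008 1033476505 6710887 3 eng mog cd2q2a cd3q3 pd0 false false false .up 2 0 3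
    ndB2q2a ndB3q3 pcB0 Cut.none Ext.none :=
  certB0 (fam := false) (s1 := false) (s2 := false) (a := 2) (b := 0) (c := 3) (cn := .up) (n1 := ndB2q2a) (n2 := ndB3q3) (pc := pcB0) (cut := Cut.none) (xt := Ext.none) (P1 := 0) (W1 := 536870912) (P2 := 0) (W2 := 1230186008) (P3 := 1033476505) (W3 := 6710887) (N0 := 3) (En := eng) (mo := mog) (C1 := cd2q2a) (C2 := cd3q3) (C3 := pd0)
    rfl k0_mm_203_a

noncomputable def f_mm_203_b : ℕ → ℕ → ℕ → ℕ → Bool := onCell 1239849684 370763052 0 1230186008 1033476505 6710887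
    (rowB 3 eng mog cd2q2b cd3q3 pd0 0 false false false .up 2 0 3 (qsf 1239849684 370763052 0 1230186008 0) ndB2q2b ndB3q3 pcB0 Cut.none Ext.none)

def k0_mm_203_b : ∃ t, chk3 f_mm_203_b t 1 1 1 = true :=
  ⟨(b (l 3) (l 3)), by decide +kernel⟩

theorem c_mm_203_b : CertB 1239849684 370763052 0 1230186008 1033476505 6710887 3 eng mog cd2q2b cd3q3 pd0 false false false .up 2 0 3
    ndB2q2b ndB3q3 pcB0 Cut.none Ext.none :=
  certB0 (fam := false) (s1 := false) (s2 := false) (a := 2) (b := 0) (c := 3) (cn := .up) (n1 := ndB2q2b) (n2 := ndB3q3) (pc := pcB0) (cut := Cut.none) (xt := Ext.none) (P1 := 1239849684) (W1 := 370763052) (P2 := 0) (W2 := 1230186008) (P3 := 1033476505) (W3 := 6710887) (N0 := 3) (En := eng) (mo := mog) (C1 := cd2q2b) (C2 := cd3q3) (C3 := pd0)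
    rfl k0_mm_203_b

noncomputable def f_mm_213_a : ℕ → ℕ → ℕ → ℕ → Bool := onCell 0 536870912 0 1230186008 1033476505 6710887
    (rowB 3 eng mog cd2q2a cd3q3 pd1 0 false false false .pnn 2 1 3 (qsf 0 536870912 0 1230186008 1) ndB2q2a ndB3q3 pcB1 Cut.none Ext.none)

def k0_mm_213_a : ∃ t, chk3 f_mm_213_a t 1 1 1 = true :=
  ⟨(b (l 5) (l 3)), by decide +kernel⟩

theorem c_mm_213_a : CertB 0 536870912 0 1230186008 1033476505 6710887 3 eng mog cd2q2a cd3q3 pd1 false false false .pnn 2 1 3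
    ndB2q2a ndB3q3 pcB1 Cut.none Ext.none :=
  certB0 (fam := false) (s1 := false) (s2 := false) (a := 2) (b := 1) (c := 3) (cn := .pnn) (n1 := ndB2q2a) (n2 := ndB3q3) (pc := pcB1) (cut := Cut.none) (xt := Ext.none) (P1 := 0) (W1 := 536870912) (P2 := 0) (W2 := 1230186008) (P3 := 1033476505) (W3 := 6710887) (N0 := 3) (En := eng) (mo := mog) (C1 := cd2q2a) (C2 := cd3q3) (C3 := pd1)
    rfl k0_mm_213_a

noncomputable def f_mm_213_b : ℕ → ℕ → ℕ → ℕ → Bool := onCell 1239849684 370763052 0 1230186008 1033476505 6710887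
    (rowB 3 eng mog cd2q2b cd3q3 pd1 0 false false false .pnn 2 1 3 (qsf 1239849684 370763052 0 1230186008 1) ndB2q2b ndB3q3 pcB1 Cut.none Ext.none)

def k0_mm_213_b : ∃ t, chk3 f_mm_213_b t 1 1 1 = true :=
  ⟨(b (l 3) (l 3)), by decide +kernel⟩

theorem c_mm_213_b : CertB 1239849684 370763052 0 1230186008 1033476505 6710887 3 eng mog cd2q2b cd3q3 pd1 false false false .pnn 2 1 3
    ndB2q2b ndB3q3 pcB1 Cut.none Ext.none :=
  certB0 (fam := false) (s1 := false) (s2 := false) (a := 2) (b := 1) (c := 3) (cn := .pnn) (n1 := ndB2q2b) (n2 := ndB3q3) (pc := pcB1) (cut := Cut.none) (xt := Ext.none) (P1 := 1239849684) (W1 := 370763052) (P2 := 0) (W2 := 1230186008) (P3 := 1033476505) (W3 := 6710887) (N0 := 3) (En := eng) (mo := mog) (C1 := cd2q2b) (C2 := cd3q3) (C3 := pd1)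
    rfl k0_mm_213_b

noncomputable def f_mm_303 : ℕ → ℕ → ℕ → ℕ → Bool := onCell 1610612736 536870912 0 1230186008 1033476505 6710887
    (rowB 3 eng mog cd2q3 cd3q3 pd0 0 false false false .npn 3 0 3 (qsf 1610612736 536870912 0 1230186008 0) ndB2q3 ndB3q3 pcB0 Cut.none Ext.none)

def k0_mm_303 : ∃ t, chk3 f_mm_303 t 1 1 1 = true :=
  ⟨(b (l 3) (l 3)), by decide +kernel⟩

theorem c_mm_303 : CertB 1610612736 536870912 0 1230186008 1033476505 6710887 3 eng mog cd2q3 cd3q3 pd0 false false false .npn 3 0 3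
    ndB2q3 ndB3q3 pcB0 Cut.none Ext.none :=
  certB0 (fam := false) (s1 := false) (s2 := false) (a := 3) (b := 0) (c := 3) (cn := .npn) (n1 := ndB2q3) (n2 := ndB3q3) (pc := pcB0) (cut := Cut.none) (xt := Ext.none) (P1 := 1610612736) (W1 := 536870912) (P2 := 0) (W2 := 1230186008) (P3 := 1033476505) (W3 := 6710887) (N0 := 3) (En := eng) (mo := mog) (C1 := cd2q3) (C2 := cd3q3) (C3 := pd0)
    rfl k0_mm_303

noncomputable def f_mm_313 : ℕ → ℕ → ℕ → ℕ → Bool := onCell 1610612736 536870912 0 1230186008 1033476505 6710887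
    (rowB 3 eng mog cd2q3 cd3q3 pd1 0 false false false .dn 3 1 3 (qsf 1610612736 536870912 0 1230186008 1) ndB2q3 ndB3q3 pcB1 Cut.none Ext.none)

def k0_mm_313 : ∃ t, chk3 f_mm_313 t 1 1 1 = true :=
  ⟨(b (l 3) (l 1)), by decide +kernel⟩

theorem c_mm_313 : CertB 1610612736 536870912 0 1230186008 1033476505 6710887 3 eng mog cd2q3 cd3q3 pd1 false false false .dn 3 1 3
    ndB2q3 ndB3q3 pcB1 Cut.none Ext.none :=
  certB0 (fam := false) (s1 := false) (s2 := false) (a := 3) (b := 1) (c := 3) (cn := .dn) (n1 := ndB2q3) (n2 := ndB3q3) (pc := pcB1) (cut := Cut.none) (xt := Ext.none) (P1 := 1610612736) (W1 := 536870912) (P2 := 0) (W2 := 1230186008) (P3 := 1033476505) (W3 := 6710887) (N0 := 3) (En := eng) (mo := mog) (C1 := cd2q3) (C2 := cd3q3) (C3 := pd1)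
    rfl k0_mm_313

end Pool.Agent.Strip051.G.I9625_9688.Tab.C.BB23

namespace Pool.Agent.Strip051.G.I9625_9688.Tab.C.BB24

open Pool.Agent.Strip051.PB Pool.Agent.Strip051.PB.T
open Pool.Agent.Strip051.G.I9625_9688.Tab

noncomputable def f_pp_001 : ℕ → ℕ → ℕ → ℕ → Bool := onCell 0 536870912 0 536870912 1033476505 6710887
    (rowB 3 eng mog cd2q0 cd4q1 pd0 1 false true true .up 0 0 1 (qsf 0 536870912 536870912 536870912 0) ndB2q0 ndB4q1 pcB0 Cut.none Ext.none)

def k0_pp_001 : ∃ t, chk3 f_pp_001 t 1 1 1 = true :=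
  ⟨(l 3), by decide +kernel⟩

theorem c_pp_001 : CertB 0 536870912 536870912 536870912 1033476505 6710887 3 eng mog cd2q0 cd4q1 pd0 false true true .up 0 0 1
    ndB2q0 ndB4q1 pcB0 Cut.none Ext.none :=
  certB1 (fam := false) (s1 := true) (s2 := true) (a := 0) (b := 0) (c := 1) (cn := .up) (n1 := ndB2q0) (n2 := ndB4q1) (pc := pcB0) (cut := Cut.none) (xt := Ext.none) (P1 := 0) (W1 := 536870912) (P2 := 536870912) (W2 := 536870912) (P3 := 1033476505) (W3 := 6710887) (N0 := 3) (En := eng) (mo := mog) (C1 := cd2q0) (C2 := cd4q1) (C3 := pd0)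
    rfl (fun _ => rfl) k0_pp_001

noncomputable def cut_pp_011 : Cut := Cut.of [[⟨0, 0, 0, 33554432⟩, ⟨1, 1, 0, 33554432⟩, ⟨2, 1, 0, 33554432⟩]]

noncomputable def f_pp_011 : ℕ → ℕ → ℕ → ℕ → Bool := onCell 0 536870912 536870912 536870912 1033476505 6710887
    (rowB 3 eng mog cd2q0 cd4q1 pd1 1 false true true .pnn 0 1 1 (qsf 0 536870912 536870912 536870912 1) ndB2q0 ndB4q1 pcB1 cut_pp_011 Ext.none)

def k0_pp_011 : ∃ t, chk3 f_pp_011 t 1 1 1 = true :=
  ⟨(a (b (l 3) (b (l 3) (b (l 3) (b (l 3) (a (a (a (a (b (l 3) (l 6)) (l 3)) (l 3)) (l 2)) (l 2)))))) (l 3)), by decide +kernel⟩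

theorem c_pp_011 : CertB 0 536870912 536870912 536870912 1033476505 6710887 3 eng mog cd2q0 cd4q1 pd1 false true true .pnn 0 1 1
    ndB2q0 ndB4q1 pcB1 cut_pp_011 Ext.none :=
  certB1 (fam := false) (s1 := true) (s2 := true) (a := 0) (b := 1) (c := 1) (cn := .pnn) (n1 := ndB2q0) (n2 := ndB4q1) (pc := pcB1) (cut := cut_pp_011) (xt := Ext.none) (P1 := 0) (W1 := 536870912) (P2 := 536870912) (W2 := 536870912) (P3 := 1033476505) (W3 := 6710887) (N0 := 3) (En := eng) (mo := mog) (C1 := cd2q0) (C2 := cd4q1) (C3 := pd1)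
    rfl (fun _ => rfl) k0_pp_011

noncomputable def f_pp_012 : ℕ → ℕ → ℕ → ℕ → Bool := onCell 0 536870912 536870912 536870912 1033476505 6710887
    (rowB 3 eng mog cd2q0 cd4q2 pd1 1 false true true .pnp 0 1 2 (qsf 0 536870912 1073741824 536870912 1) ndB2q0 ndB4q2 pcB1 Cut.none Ext.none)

def k0_pp_012 : ∃ t, chk3 f_pp_012 t 1 1 1 = true :=
  ⟨(l 3), by decide +kernel⟩

theorem c_pp_012 : CertB 0 536870912 1073741824 536870912 1033476505 6710887 3 eng mog cd2q0 cd4q2 pd1 false true true .pnp 0 1 2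
    ndB2q0 ndB4q2 pcB1 Cut.none Ext.none :=
  certB1 (fam := false) (s1 := true) (s2 := true) (a := 0) (b := 1) (c := 2) (cn := .pnp) (n1 := ndB2q0) (n2 := ndB4q2) (pc := pcB1) (cut := Cut.none) (xt := Ext.none) (P1 := 0) (W1 := 536870912) (P2 := 1073741824) (W2 := 536870912) (P3 := 1033476505) (W3 := 6710887) (N0 := 3) (En := eng) (mo := mog) (C1 := cd2q0) (C2 := cd4q2) (C3 := pd1)
    rfl (fun _ => rfl) k0_pp_012

noncomputable def f_pp_022 : ℕ → ℕ → ℕ → ℕ → Bool := onCell 0 536870912 1073741824 536870912 1033476505 6710887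
    (rowB 3 eng mog cd2q0 cd4q2 pd2 1 false true true .pp 0 2 2 (qsf 0 536870912 1073741824 536870912 2) ndB2q0 ndB4q2 pcB2 Cut.none Ext.none)

def k0_pp_022 : ∃ t, chk3 f_pp_022 t 1 1 1 = true :=
  ⟨(a (b (b (l 3) (b (b (a (b (l 3) (b (a (a (b (l 16236224) (l 16228280)) (l 3)) (l 3)) (b (a (a (a (l 16374376) (l 16417064)) (l 16152928)) (l 3)) (a (a (a (l 16392384) (l 16383272)) (l 16164184)) (l 15766896))))) (b (l 3) (b (a (l 3) (l 1346635956791)) (b (a (a (l 3) (l 15240312)) (l 14993216)) (a (l 15325824) (l 14989368)))))) (a (a (a (a (l 16362032) (l 16234368)) (l 16033664)) (a (l 15787304) (l 15565272))) (a (a (l 15368944) (l 15198928)) (l 14987568)))) (a (a (a (b (l 15876216) (l 15823360)) (l 15502360)) (a (l 15550912) (l 15393064))) (a (a (l 15260240) (l 15148184)) (l 15023952))))) (a (b (a (b (a (l 15319928) (l 15434704)) (a (l 15286000) (l 15246456))) (b (a (l 15335160) (l 15258264)) (l 15215456))) (a (b (a (l 15125744) (l 15153464)) (a (l 15051848)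 (l 15132256))) (b (l 15218992) (a (l 15231048) (l 2))))) (b (a (b (l 15178360) (l 15240352)) (b (l 15149160) (a (l 15296816) (l 2)))) (b (a (a (l 15323400) (l 2)) (l 2)) (l 2))))) (b (b (b (l 3) (b (a (l 3) (b (l 3) (a (l 3) (l 2)))) (a (b (l 3) (a (l 3) (l 770035677479))) (a (b (l 641186335271) (l 14360864)) (l 2))))) (b (b (b (a (a (b (l 14741528) (l 14744304)) (b (l 14555280) (l 14581432))) (a (l 14520296) (l 2))) (a (a (b (l 14747656) (b (l 14756344) (l 14753360))) (b (l 14605016) (l 14629488))) (l 2))) (a (a (l 14796384) (l 14706272)) (l 2))) (a (a (l 14941528) (l 14785136)) (l 2)))) (b (a (b (a (l 14946328) (l 2)) (l 2)) (l 2)) (l 2)))), by decide +kernel⟩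

theorem c_pp_022 : CertB 0 536870912 1073741824 536870912 1033476505 6710887 3 eng mog cd2q0 cd4q2 pd2 false true true .pp 0 2 2
    ndB2q0 ndB4q2 pcB2 Cut.none Ext.none :=
  certB1 (fam := false) (s1 := true) (s2 := true) (a := 0) (b := 2) (c := 2) (cn := .pp) (n1 := ndB2q0) (n2 := ndB4q2) (pc := pcB2) (cut := Cut.none) (xt := Ext.none) (P1 := 0) (W1 := 536870912) (P2 := 1073741824) (W2 := 536870912) (P3 := 1033476505) (W3 := 6710887) (N0 := 3) (En := eng) (mo := mog) (C1 := cd2q0) (C2 := cd4q2) (C3 := pd2)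
    rfl (fun _ => rfl) k0_pp_022

noncomputable def f_pp_023 : ℕ → ℕ → ℕ → ℕ → Bool := onCell 1073741824 536870912 0 1230186008 1033476505 6710887
    (rowB 3 eng mog cd2q0 cd4q3 pd2 2 false true true .up 0 2 3 (qsf 0 536870912 0 1230186008 2) ndB2q0 ndB4q3 pcB2 Cut.none Ext.none)

def k0_pp_023 : ∃ t, chk3 f_pp_023 t 1 1 1 = true :=
  ⟨(b (a (l 2) (a (l 2) (b (a (l 2) (b (l 16198616) (l 16482288))) (b (a (l 15931752) (b (l 15908592) (l 15796304))) (l 15856928))))) (b (a (a (l 2) (b (l 2) (a (l 2) (b (l 2) (l 15069400))))) (b (a (l 31773517127) (a (l 15739536) (l 15663616))) (a (b (l 15493760) (a (l 15230712) (l 15330560))) (b (l 15517808) (l 15369408))))) (b (a (a (l 2) (b (a (a (l 2) (l 14698416)) (l 14873168)) (a (a (a (l 14477736) (l 14335976)) (l 14555272)) (l 14759984)))) (a (b (a (l 15057008) (l 15180032)) (a (l 14980008) (l 15131912))) (b (a (l 15238696) (l 15232136)) (a (l 15211472) (l 15218976))))) (b (a (a (a (l 2) (a (a (l 141358659687)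 (b (l 2) (l 14094936))) (a (b (l 14265328) (l 14173848)) (l 14308312)))) (a (a (a (l 14393632) (a (l 14437224) (l 14343144))) (l 14485016)) (l 14721624))) (a (a (l 14976696) (l 15158728)) (b (a (l 15232744) (l 15250288)) (a (l 15257640) (l 15213648))))) (a (a (a (l 3) (a (a (l 3) (b (l 14063872) (l 3))) (a (b (l 14125864) (l 14158992)) (b (l 14254000) (l 14231824))))) (a (a (a (b (l 14320952) (l 14316688)) (b (a (l 14387664) (l 14411944)) (l 14383816))) (l 14499968)) (l 14547000))) (a (a (l 14902648) (l 14856248)) (a (l 15099168) (b (l 15071440) (l 14930976))))))))), by decide +kernel⟩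

theorem c_pp_023 : CertB 0 536870912 0 1230186008 1033476505 6710887 3 eng mog cd2q0 cd4q3 pd2 false true true .up 0 2 3
    ndB2q0 ndB4q3 pcB2 Cut.none Ext.none :=
  certB2 (fam := false) (s1 := true) (s2 := true) (a := 0) (b := 2) (c := 3) (cn := .up) (n1 := ndB2q0) (n2 := ndB4q3) (pc := pcB2) (cut := Cut.none) (xt := Ext.none) (P1 := 0) (W1 := 536870912) (P2 := 0) (W2 := 1230186008) (P3 := 1033476505) (W3 := 6710887) (N0 := 3) (En := eng) (mo := mog) (C1 := cd2q0) (C2 := cd4q3) (C3 := pd2)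
    rfl (fun _ => rfl) k0_pp_023

noncomputable def f_pp_033 : ℕ → ℕ → ℕ → ℕ → Bool := onCell 0 536870912 0 1230186008 1033476505 6710887
    (rowB 3 eng mog cd2q0 cd4q3 pd3 0 false true true .pnn 0 3 3 (qsf 0 536870912 0 1230186008 3) ndB2q0 ndB4q3 pcB3 Cut.none Ext.none)

def k0_pp_033 : ∃ t, chk3 f_pp_033 t 1 2 1 = true :=
  ⟨(b (a (l 4) (b (a (l 4) (a (l 4) (a (l 16121720) (l 16112752)))) (a (a (b (l 4) (a (l 4) (l 16656192))) (b (l 16462360) (a (l 16597280) (l 16604728)))) (a (b (l 16365144) (l 16656376)) (b (l 16552256) (l 16378088)))))) (a (b (a (l 4) (b (a (l 4) (a (l 4) (l 16349200))) (a (a (b (l 4) (l 15791344)) (l 15720392)) (a (l 16104024) (l 16167456))))) (b (a (a (l 4) (a (b (l 4) (a (l 15290008) (l 15400168))) (b (l 15570904) (l 15537672)))) (a (a (b (l 15751840) (l 15658248)) (l 15783552)) (a (l 15759432) (l 15632384)))) (a (a (a (a (b (l 4) (b (l 14859816) (l 14877456))) (b (l 14941016) (l 14965392))) (b (a (l 15060656) (l 15176720))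 (a (l 15082904) (l 15188304)))) (a (b (l 15329600) (l 15267048)) (b (l 15473360) (l 15232856)))) (a (a (b (l 15465328) (l 15182344)) (b (l 15370776) (l 15165624))) (b (a (l 15288160) (l 15262808)) (l 15207576)))))) (a (b (a (b (a (l 16456952) (l 16500192)) (l 16110384)) (b (l 16423704) (a (l 15914296) (l 15729440)))) (b (a (b (l 15579448) (l 15378328)) (l 15335712)) (l 15379656))) (b (a (b (l 16153440) (b (l 15644712) (l 15504728))) (b (b (l 15943080) (l 15649448)) (l 15596056))) (a (l 15547488) (l 15692072)))))), by decide +kernel⟩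

def k1_pp_033 : ∃ t, chk3 f_pp_033 t 1 3 1 = true :=
  ⟨(b (a (b (a (a (b (a (b (a (l 14931992) (l 15020288)) (a (b (l 14916760) (b (l 14853592) (l 14821168))) (b (l 14903720) (l 14836344)))) (b (a (l 15052696) (l 15049248)) (b (a (l 14905504) (l 14914152)) (l 14870280)))) (a (a (b (l 14782792) (l 14736344)) (l 14771088)) (l 14799416))) (b (b (a (b (l 15077992) (l 14991144)) (l 15047512)) (l 14962328)) (a (l 14887920) (l 14957592)))) (a (b (l 15085768) (l 15065496)) (b (l 15209600) (l 15212040)))) (a (a (b (a (a (b (l 14698984) (l 14673368)) (l 14707776)) (b (l 14779640) (l 14764640))) (a (b (a (l 14724624) (l 14692576)) (b (l 14660960) (l 14668064))) (b (l 14761816) (l 14772616)))) (b (a (l 14853112) (l 14936408)) (a (l 14857392) (l 14947208)))) (a (b (l 15059640) (l 15074312)) (b (l 15216056) (l 15224480))))) (b (a (a (l 15241992) (l 15486008)) (b (l 15684936) (l 1))) (a (a (a (l 15318240) (l 15379024)) (l 377450659927)) (l 1)))) (a (b (a (a (b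 (a (b (b (a (l 14679984) (l 14717352)) (l 14667904)) (l 14637336)) (b (l 14786392) (l 14753392))) (a (b (l 14609760) (l 14603912)) (l 14713552))) (b (b (a (l 14882944) (l 14973168)) (l 14893640)) (l 14841720))) (b (a (b (l 15094504) (l 15049632)) (l 15189688)) (a (l 14976344) (l 1)))) (a (b (a (b (a (l 14645624) (l 14718448)) (l 14703104)) (b (l 14828136) (l 14839992))) (a (a (b (l 14800424) (l 14910744)) (l 14885200)) (l 14923184))) (b (a (l 14925480) (l 1)) (l 1)))) (l 1))), by decide +kernel⟩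

theorem s2_pp_033 : ∃ t, chk3 f_pp_033 t 1 1 1 = true := ex3_b k0_pp_033 k1_pp_033

theorem c_pp_033 : CertB 0 536870912 0 1230186008 1033476505 6710887 3 eng mog cd2q0 cd4q3 pd3 false true true .pnn 0 3 3
    ndB2q0 ndB4q3 pcB3 Cut.none Ext.none :=
  certB0 (fam := false) (s1 := true) (s2 := true) (a := 0) (b := 3) (c := 3) (cn := .pnn) (n1 := ndB2q0) (n2 := ndB4q3) (pc := pcB3) (cut := Cut.none) (xt := Ext.none) (P1 := 0) (W1 := 536870912) (P2 := 0) (W2 := 1230186008) (P3 := 1033476505) (W3 := 6710887) (N0 := 3) (En := eng) (mo := mog) (C1 := cd2q0) (C2 := cd4q3) (C3 := pd3)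
    rfl s2_pp_033

noncomputable def f_pp_101 : ℕ → ℕ → ℕ → ℕ → Bool := onCell 536870912 536870912 536870912 536870912 1033476505 6710887
    (rowB 3 eng mog cd2q1 cd4q1 pd0 0 false true true .npn 1 0 1 (qsf 536870912 536870912 536870912 536870912 0) ndB2q1 ndB4q1 pcB0 Cut.none Ext.none)

def k0_pp_101 : ∃ t, chk3 f_pp_101 t 1 1 1 = true :=
  ⟨(l 3), by decide +kernel⟩

theorem c_pp_101 : CertB 536870912 536870912 536870912 536870912 1033476505 6710887 3 eng mog cd2q1 cd4q1 pd0 false true true .npn 1 0 1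
    ndB2q1 ndB4q1 pcB0 Cut.none Ext.none :=
  certB0 (fam := false) (s1 := true) (s2 := true) (a := 1) (b := 0) (c := 1) (cn := .npn) (n1 := ndB2q1) (n2 := ndB4q1) (pc := pcB0) (cut := Cut.none) (xt := Ext.none) (P1 := 536870912) (W1 := 536870912) (P2 := 536870912) (W2 := 536870912) (P3 := 1033476505) (W3 := 6710887) (N0 := 3) (En := eng) (mo := mog) (C1 := cd2q1) (C2 := cd4q1) (C3 := pd0)
    rfl k0_pp_101

noncomputable def f_pp_102 : ℕ → ℕ → ℕ → ℕ → Bool := onCell 536870912 536870912 1073741824 536870912 1033476505 6710887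
    (rowB 3 eng mog cd2q1 cd4q2 pd0 0 false true true .npp 1 0 2 (qsf 536870912 536870912 1073741824 536870912 0) ndB2q1 ndB4q2 pcB0 Cut.none Ext.none)

def k0_pp_102 : ∃ t, chk3 f_pp_102 t 1 1 1 = true :=
  ⟨(l 3), by decide +kernel⟩

theorem c_pp_102 : CertB 536870912 536870912 1073741824 536870912 1033476505 6710887 3 eng mog cd2q1 cd4q2 pd0 false true true .npp 1 0 2
    ndB2q1 ndB4q2 pcB0 Cut.none Ext.none :=
  certB0 (fam := false) (s1 := true) (s2 := true) (a := 1) (b := 0) (c := 2) (cn := .npp) (n1 := ndB2q1) (n2 := ndB4q2) (pc := pcB0) (cut := Cut.none) (xt := Ext.none) (P1 := 536870912) (W1 := 536870912) (P2 := 1073741824) (W2 := 536870912) (P3 := 1033476505) (W3 := 6710887) (N0 := 3) (En := eng) (mo := mog) (C1 := cd2q1) (C2 := cd4q2) (C3 := pd0)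
    rfl k0_pp_102

noncomputable def f_pp_112 : ℕ → ℕ → ℕ → ℕ → Bool := onCell 536870912 536870912 1073741824 536870912 1033476505 6710887
    (rowB 3 eng mog cd2q1 cd4q2 pd1 0 false true true .dn 1 1 2 (qsf 536870912 536870912 1073741824 536870912 1) ndB2q1 ndB4q2 pcB1 Cut.none Ext.none)

def k0_pp_112 : ∃ t, chk3 f_pp_112 t 1 1 1 = true :=
  ⟨(l 3), by decide +kernel⟩

theorem c_pp_112 : CertB 536870912 536870912 1073741824 536870912 1033476505 6710887 3 eng mog cd2q1 cd4q2 pd1 false true true .dn 1 1 2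
    ndB2q1 ndB4q2 pcB1 Cut.none Ext.none :=
  certB0 (fam := false) (s1 := true) (s2 := true) (a := 1) (b := 1) (c := 2) (cn := .dn) (n1 := ndB2q1) (n2 := ndB4q2) (pc := pcB1) (cut := Cut.none) (xt := Ext.none) (P1 := 536870912) (W1 := 536870912) (P2 := 1073741824) (W2 := 536870912) (P3 := 1033476505) (W3 := 6710887) (N0 := 3) (En := eng) (mo := mog) (C1 := cd2q1) (C2 := cd4q2) (C3 := pd1)
    rfl k0_pp_112

noncomputable def f_pp_113 : ℕ → ℕ → ℕ → ℕ → Bool := onCell 536870912 536870912 0 1230186008 1033476505 6710887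
    (rowB 3 eng mog cd2q1 cd4q3 pd1 2 false true true .nn 1 1 3 (qsf 536870912 536870912 0 1230186008 1) ndB2q1 ndB4q3 pcB1 Cut.none Ext.none)

def k0_pp_113 : ∃ t, chk3 f_pp_113 t 1 1 1 = true :=
  ⟨(a (b (l 2) (b (l 3) (l 3))) (a (b (l 2) (b (a (l 3) (b (l 3) (l 3))) (l 3))) (b (a (b (l 2) (a (b (l 2) (b (l 2) (l 766212095031))) (b (l 15697072) (b (l 15459256) (l 15471432))))) (b (b (l 16574704) (l 16752128)) (b (l 16312880) (a (a (l 15544488) (l 15550592)) (l 15469136))))) (a (b (a (b (b (a (l 15543512) (l 15551392)) (l 362016450999)) (l 3)) (b (b (a (l 15548296) (l 15529152)) (a (l 15648976) (l 15583288))) (b (l 312624796663) (l 3)))) (l 3)) (b (a (b (a (b (l 15488256) (l 15497376)) (l 15437008)) (a (b (l 15512608) (l 3)) (b (l 15429984) (l 15425592)))) (b (b (l 15332208) (l 15306904)) (b (l 15289656) (l 15265336)))) (a (l 3) (b (b (l 15234296) (l 3)) (l 3)))))))), by decide +kernel⟩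

theorem c_pp_113 : CertB 536870912 536870912 0 1230186008 1033476505 6710887 3 eng mog cd2q1 cd4q3 pd1 false true true .nn 1 1 3
    ndB2q1 ndB4q3 pcB1 Cut.none Ext.none :=
  certB2 (fam := false) (s1 := true) (s2 := true) (a := 1) (b := 1) (c := 3) (cn := .nn) (n1 := ndB2q1) (n2 := ndB4q3) (pc := pcB1) (cut := Cut.none) (xt := Ext.none) (P1 := 536870912) (W1 := 536870912) (P2 := 0) (W2 := 1230186008) (P3 := 1033476505) (W3 := 6710887) (N0 := 3) (En := eng) (mo := mog) (C1 := cd2q1) (C2 := cd4q3) (C3 := pd1)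
    rfl (fun _ => rfl) k0_pp_113

noncomputable def f_pp_123 : ℕ → ℕ → ℕ → ℕ → Bool := onCell 1073741824 536870912 0 1230186008 1033476505 6710887
    (rowB 3 eng mog cd2q1 cd4q3 pd2 2 false true true .npn 1 2 3 (qsf 536870912 536870912 0 1230186008 2) ndB2q1 ndB4q3 pcB2 Cut.none Ext.none)

def k0_pp_123 : ∃ t, chk3 f_pp_123 t 1 1 1 = true :=
  ⟨(b (a (a (b (a (b (l 16688264) (l 16567944)) (b (l 16187576) (l 16085320))) (b (a (l 16247144) (l 15974840)) (a (l 15787288) (l 15767128)))) (b (a (b (l 15560608) (l 15537784)) (b (l 15117232) (l 15036352))) (b (l 15373600) (l 15447240)))) (a (b (b (a (l 15009312) (l 15182488)) (a (l 14666088) (l 14331048))) (b (l 14666216) (l 14965216))) (b (b (a (l 15441984) (l 15696752)) (a (l 14540736) (l 14866688))) (b (a (l 14360272) (l 14348848)) (l 14675096))))) (a (a (a (b (b (l 15469416) (b (l 15250480) (a (b (l 15107912) (l 15127064)) (l 15180488)))) (a (b (b (b (l 15159136) (a (l 15113656) (l 15178352))) (l 333560741879))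 (l 3)) (b (a (b (b (l 15223424) (l 15230776)) (a (l 15165232) (l 15191880))) (b (l 15268872) (l 15242680))) (a (l 3) (b (l 15125144) (l 3)))))) (b (b (l 15533384) (b (l 15333792) (a (l 15207152) (l 15213232)))) (a (b (b (l 15267216) (a (l 15308184) (l 15317120))) (b (a (l 15194072) (l 15249520)) (a (l 3) (l 1)))) (b (b (l 15239512) (l 15313680)) (b (a (l 15243024) (l 15247288)) (l 1)))))) (b (b (b (l 15419848) (l 15363632)) (a (a (a (l 15085904) (a (l 15265896) (b (l 15313392) (l 15039352)))) (l 15245176)) (l 15207368))) (b (a (a (a (l 15227328) (b (a (l 15180176) (l 15160872)) (l 15167752))) (l 15131752)) (b (l 15120872) (l 1))) (a (a (a (b (l 15246120) (l 1)) (l 1)) (l 1)) (l 1))))) (b (b (a (l 15115712) (l 14947928)) (a (b (l 15128280) (l 15105992)) (l 1))) (l 1)))), by decide +kernel⟩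

theorem c_pp_123 : CertB 536870912 536870912 0 1230186008 1033476505 6710887 3 eng mog cd2q1 cd4q3 pd2 false true true .npn 1 2 3
    ndB2q1 ndB4q3 pcB2 Cut.none Ext.none :=
  certB2 (fam := false) (s1 := true) (s2 := true) (a := 1) (b := 2) (c := 3) (cn := .npn) (n1 := ndB2q1) (n2 := ndB4q3) (pc := pcB2) (cut := Cut.none) (xt := Ext.none) (P1 := 536870912) (W1 := 536870912) (P2 := 0) (W2 := 1230186008) (P3 := 1033476505) (W3 := 6710887) (N0 := 3) (En := eng) (mo := mog) (C1 := cd2q1) (C2 := cd4q3) (C3 := pd2)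
    rfl (fun _ => rfl) k0_pp_123

noncomputable def f_pp_133 : ℕ → ℕ → ℕ → ℕ → Bool := onCell 1610612736 536870912 0 1230186008 1033476505 6710887
    (rowB 3 eng mog cd2q1 cd4q3 pd3 2 false true true .dn 1 3 3 (qsf 536870912 536870912 0 1230186008 3) ndB2q1 ndB4q3 pcB3 Cut.none Ext.none)

def k0_pp_133 : ∃ t, chk3 f_pp_133 t 1 1 1 = true :=
  ⟨(b (b (a (a (b (b (l 4) (l 1)) (l 1)) (l 1)) (l 1)) (l 1)) (l 1)), by decide +kernel⟩

theorem c_pp_133 : CertB 536870912 536870912 0 1230186008 1033476505 6710887 3 eng mog cd2q1 cd4q3 pd3 false true true .dn 1 3 3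
    ndB2q1 ndB4q3 pcB3 Cut.none Ext.none :=
  certB2 (fam := false) (s1 := true) (s2 := true) (a := 1) (b := 3) (c := 3) (cn := .dn) (n1 := ndB2q1) (n2 := ndB4q3) (pc := pcB3) (cut := Cut.none) (xt := Ext.none) (P1 := 536870912) (W1 := 536870912) (P2 := 0) (W2 := 1230186008) (P3 := 1033476505) (W3 := 6710887) (N0 := 3) (En := eng) (mo := mog) (C1 := cd2q1) (C2 := cd4q3) (C3 := pd3)
    rfl (fun _ => rfl) k0_pp_133

noncomputable def f_pp_202_a : ℕ → ℕ → ℕ → ℕ → Bool := onCell 0 536870912 1073741824 536870912 1033476505 6710887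
    (rowB 3 eng mog cd2q2a cd4q2 pd0 0 false true true .pp 2 0 2 (qsf 0 536870912 1073741824 536870912 0) ndB2q2a ndB4q2 pcB0 Cut.none Ext.none)

def k0_pp_202_a : ∃ t, chk3 f_pp_202_a t 1 1 1 = true :=
  ⟨(l 3), by decide +kernel⟩

theorem c_pp_202_a : CertB 0 536870912 1073741824 536870912 1033476505 6710887 3 eng mog cd2q2a cd4q2 pd0 false true true .pp 2 0 2
    ndB2q2a ndB4q2 pcB0 Cut.none Ext.none :=
  certB0 (fam := false) (s1 := true) (s2 := true) (a := 2) (b := 0) (c := 2) (cn := .pp) (n1 := ndB2q2a) (n2 := ndB4q2) (pc := pcB0) (cut := Cut.none) (xt := Ext.none) (P1 := 0) (W1 := 536870912) (P2 := 1073741824) (W2 := 536870912) (P3 := 1033476505) (W3 := 6710887) (N0 := 3) (En := eng) (mo := mog) (C1 := cd2q2a) (C2 := cd4q2) (C3 := pd0)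
    rfl k0_pp_202_a

noncomputable def f_pp_202_b : ℕ → ℕ → ℕ → ℕ → Bool := onCell 1239849684 370763052 1073741824 536870912 1033476505 6710887
    (rowB 3 eng mog cd2q2b cd4q2 pd0 0 false true true .pp 2 0 2 (qsf 1239849684 370763052 1073741824 536870912 0) ndB2q2b ndB4q2 pcB0 Cut.none Ext.none)

def k0_pp_202_b : ∃ t, chk3 f_pp_202_b t 1 1 1 = true :=
  ⟨(l 5), by decide +kernel⟩

theorem c_pp_202_b : CertB 1239849684 370763052 1073741824 536870912 1033476505 6710887 3 eng mog cd2q2b cd4q2 pd0 false true true .pp 2 0 2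
    ndB2q2b ndB4q2 pcB0 Cut.none Ext.none :=
  certB0 (fam := false) (s1 := true) (s2 := true) (a := 2) (b := 0) (c := 2) (cn := .pp) (n1 := ndB2q2b) (n2 := ndB4q2) (pc := pcB0) (cut := Cut.none) (xt := Ext.none) (P1 := 1239849684) (W1 := 370763052) (P2 := 1073741824) (W2 := 536870912) (P3 := 1033476505) (W3 := 6710887) (N0 := 3) (En := eng) (mo := mog) (C1 := cd2q2b) (C2 := cd4q2) (C3 := pd0)
    rfl k0_pp_202_b

noncomputable def f_pp_203_a : ℕ → ℕ → ℕ → ℕ → Bool := onCell 0 536870912 0 1230186008 1033476505 6710887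
    (rowB 3 eng mog cd2q2a cd4q3 pd0 0 false true true .up 2 0 3 (qsf 0 536870912 0 1230186008 0) ndB2q2a ndB4q3 pcB0 Cut.none Ext.none)

def k0_pp_203_a : ∃ t, chk3 f_pp_203_a t 1 1 1 = true :=
  ⟨(b (l 2) (l 3)), by decide +kernel⟩

theorem c_pp_203_a : CertB 0 536870912 0 1230186008 1033476505 6710887 3 eng mog cd2q2a cd4q3 pd0 false true true .up 2 0 3
    ndB2q2a ndB4q3 pcB0 Cut.none Ext.none :=
  certB0 (fam := false) (s1 := true) (s2 := true) (a := 2) (b := 0) (c := 3) (cn := .up) (n1 := ndB2q2a) (n2 := ndB4q3) (pc := pcB0) (cut := Cut.none) (xt := Ext.none) (P1 := 0) (W1 := 536870912) (P2 := 0) (W2 := 1230186008) (P3 := 1033476505) (W3 := 6710887) (N0 := 3) (En := eng) (mo := mog) (C1 := cd2q2a) (C2 := cd4q3) (C3 := pd0)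
    rfl k0_pp_203_a

noncomputable def f_pp_203_b : ℕ → ℕ → ℕ → ℕ → Bool := onCell 1239849684 370763052 0 1230186008 1033476505 6710887
    (rowB 3 eng mog cd2q2b cd4q3 pd0 0 false true true .up 2 0 3 (qsf 1239849684 370763052 0 1230186008 0) ndB2q2b ndB4q3 pcB0 Cut.none Ext.none)

def k0_pp_203_b : ∃ t, chk3 f_pp_203_b t 1 1 1 = true :=
  ⟨(b (l 3) (l 3)), by decide +kernel⟩

theorem c_pp_203_b : CertB 1239849684 370763052 0 1230186008 1033476505 6710887 3 eng mog cd2q2b cd4q3 pd0 false true true .up 2 0 3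
    ndB2q2b ndB4q3 pcB0 Cut.none Ext.none :=
  certB0 (fam := false) (s1 := true) (s2 := true) (a := 2) (b := 0) (c := 3) (cn := .up) (n1 := ndB2q2b) (n2 := ndB4q3) (pc := pcB0) (cut := Cut.none) (xt := Ext.none) (P1 := 1239849684) (W1 := 370763052) (P2 := 0) (W2 := 1230186008) (P3 := 1033476505) (W3 := 6710887) (N0 := 3) (En := eng) (mo := mog) (C1 := cd2q2b) (C2 := cd4q3) (C3 := pd0)
    rfl k0_pp_203_b

noncomputable def cut_pp_213_a : Cut := Cut.of [[⟨0, 1, 0, 20971520⟩, ⟨1, 1, 0, 20971520⟩, ⟨2, 2, 0, 1572864⟩]]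

noncomputable def f_pp_213_a : ℕ → ℕ → ℕ → ℕ → Bool := onCell 0 536870912 0 1230186008 1033476505 6710887
    (rowB 3 eng mog cd2q2a cd4q3 pd1 0 false true true .pnn 2 1 3 (qsf 0 536870912 0 1230186008 1) ndB2q2a ndB4q3 pcB1 cut_pp_213_a Ext.none)

def k0_pp_213_a : ∃ t, chk3 f_pp_213_a t 1 1 1 = true :=
  ⟨(b (b (a (l 3) (a (l 3) (a (l 3) (b (b (a (l 3) (b (a (l 3) (l 6)) (l 3))) (l 3)) (l 3))))) (l 3)) (l 3)), by decide +kernel⟩

theorem c_pp_213_a : CertB 0 536870912 0 1230186008 1033476505 6710887 3 eng mog cd2q2a cd4q3 pd1 false true true .pnn 2 1 3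
    ndB2q2a ndB4q3 pcB1 cut_pp_213_a Ext.none :=
  certB0 (fam := false) (s1 := true) (s2 := true) (a := 2) (b := 1) (c := 3) (cn := .pnn) (n1 := ndB2q2a) (n2 := ndB4q3) (pc := pcB1) (cut := cut_pp_213_a) (xt := Ext.none) (P1 := 0) (W1 := 536870912) (P2 := 0) (W2 := 1230186008) (P3 := 1033476505) (W3 := 6710887) (N0 := 3) (En := eng) (mo := mog) (C1 := cd2q2a) (C2 := cd4q3) (C3 := pd1)
    rfl k0_pp_213_a

noncomputable def cut_pp_213_b : Cut := Cut.of [[⟨0, 1, 0, 20971520⟩, ⟨1, 1, 0, 20971520⟩, ⟨2, 2, 0, 1572864⟩]]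

noncomputable def f_pp_213_b : ℕ → ℕ → ℕ → ℕ → Bool := onCell 1239849684 370763052 0 1230186008 1033476505 6710887
    (rowB 3 eng mog cd2q2b cd4q3 pd1 0 false true true .pnn 2 1 3 (qsf 1239849684 370763052 0 1230186008 1) ndB2q2b ndB4q3 pcB1 cut_pp_213_b Ext.none)

def k0_pp_213_b : ∃ t, chk3 f_pp_213_b t 1 1 1 = true :=
  ⟨(b (l 3) (l 3)), by decide +kernel⟩

theorem c_pp_213_b : CertB 1239849684 370763052 0 1230186008 1033476505 6710887 3 eng mog cd2q2b cd4q3 pd1 false true true .pnn 2 1 3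
    ndB2q2b ndB4q3 pcB1 cut_pp_213_b Ext.none :=
  certB0 (fam := false) (s1 := true) (s2 := true) (a := 2) (b := 1) (c := 3) (cn := .pnn) (n1 := ndB2q2b) (n2 := ndB4q3) (pc := pcB1) (cut := cut_pp_213_b) (xt := Ext.none) (P1 := 1239849684) (W1 := 370763052) (P2 := 0) (W2 := 1230186008) (P3 := 1033476505) (W3 := 6710887) (N0 := 3) (En := eng) (mo := mog) (C1 := cd2q2b) (C2 := cd4q3) (C3 := pd1)
    rfl k0_pp_213_b

noncomputable def f_pp_303 : ℕ → ℕ → ℕ → ℕ → Bool := onCell 0 536870912 0 1230186008 1033476505 6710887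
    (rowB 3 eng mog cd2q3 cd4q3 pd0 2 false true true .npn 3 0 3 (qsf 1610612736 536870912 0 1230186008 0) ndB2q3 ndB4q3 pcB0 Cut.none Ext.none)

def k0_pp_303 : ∃ t, chk3 f_pp_303 t 1 1 1 = true :=
  ⟨(b (l 3) (l 3)), by decide +kernel⟩

theorem c_pp_303 : CertB 1610612736 536870912 0 1230186008 1033476505 6710887 3 eng mog cd2q3 cd4q3 pd0 false true true .npn 3 0 3
    ndB2q3 ndB4q3 pcB0 Cut.none Ext.none :=
  certB2 (fam := false) (s1 := true) (s2 := true) (a := 3) (b := 0) (c := 3) (cn := .npn) (n1 := ndB2q3) (n2 := ndB4q3) (pc := pcB0) (cut := Cut.none) (xt := Ext.none) (P1 := 1610612736) (W1 := 536870912) (P2 := 0) (W2 := 1230186008) (P3 := 1033476505) (W3 := 6710887) (N0 := 3) (En := eng) (mo := mog) (C1 := cd2q3) (C2 := cd4q3) (C3 := pd0)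
    rfl (fun _ => rfl) k0_pp_303

noncomputable def f_pp_313 : ℕ → ℕ → ℕ → ℕ → Bool := onCell 1610612736 536870912 0 1230186008 1033476505 6710887
    (rowB 3 eng mog cd2q3 cd4q3 pd1 0 false true true .dn 3 1 3 (qsf 1610612736 536870912 0 1230186008 1) ndB2q3 ndB4q3 pcB1 Cut.none Ext.none)

def k0_pp_313 : ∃ t, chk3 f_pp_313 t 1 1 1 = true :=
  ⟨(b (l 3) (l 1)), by decide +kernel⟩

theorem c_pp_313 : CertB 1610612736 536870912 0 1230186008 1033476505 6710887 3 eng mog cd2q3 cd4q3 pd1 false true true .dn 3 1 3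
    ndB2q3 ndB4q3 pcB1 Cut.none Ext.none :=
  certB0 (fam := false) (s1 := true) (s2 := true) (a := 3) (b := 1) (c := 3) (cn := .dn) (n1 := ndB2q3) (n2 := ndB4q3) (pc := pcB1) (cut := Cut.none) (xt := Ext.none) (P1 := 1610612736) (W1 := 536870912) (P2 := 0) (W2 := 1230186008) (P3 := 1033476505) (W3 := 6710887) (N0 := 3) (En := eng) (mo := mog) (C1 := cd2q3) (C2 := cd4q3) (C3 := pd1)
    rfl k0_pp_313

noncomputable def f_pm_001 : ℕ → ℕ → ℕ → ℕ → Bool := onCell 0 536870912 536870912 536870912 1033476505 6710887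
    (rowB 3 eng mog cd2q0 cd4q1 pd0 0 false true false .up 0 0 1 (qsf 0 536870912 536870912 536870912 0) ndB2q0 ndB4q1 pcB0 Cut.none Ext.none)

def k0_pm_001 : ∃ t, chk3 f_pm_001 t 1 1 1 = true :=
  ⟨(l 4), by decide +kernel⟩

theorem c_pm_001 : CertB 0 536870912 536870912 536870912 1033476505 6710887 3 eng mog cd2q0 cd4q1 pd0 false true false .up 0 0 1
    ndB2q0 ndB4q1 pcB0 Cut.none Ext.none :=
  certB0 (fam := false) (s1 := true) (s2 := false) (a := 0) (b := 0) (c := 1) (cn := .up) (n1 := ndB2q0) (n2 := ndB4q1) (pc := pcB0) (cut := Cut.none) (xt := Ext.none) (P1 := 0) (W1 := 536870912) (P2 := 536870912) (W2 := 536870912) (P3 := 1033476505) (W3 := 6710887) (N0 := 3) (En := eng) (mo := mog) (C1 := cd2q0) (C2 := cd4q1) (C3 := pd0)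
    rfl k0_pm_001

noncomputable def f_pm_011 : ℕ → ℕ → ℕ → ℕ → Bool := onCell 0 536870912 536870912 536870912 1033476505 6710887
    (rowB 3 eng mog cd2q0 cd4q1 pd1 0 false true false .pnn 0 1 1 (qsf 0 536870912 536870912 536870912 1) ndB2q0 ndB4q1 pcB1 Cut.none Ext.none)

def k0_pm_011 : ∃ t, chk3 f_pm_011 t 1 1 1 = true :=
  ⟨(l 4), by decide +kernel⟩

theorem c_pm_011 : CertB 0 536870912 536870912 536870912 1033476505 6710887 3 eng mog cd2q0 cd4q1 pd1 false true false .pnn 0 1 1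
    ndB2q0 ndB4q1 pcB1 Cut.none Ext.none :=
  certB0 (fam := false) (s1 := true) (s2 := false) (a := 0) (b := 1) (c := 1) (cn := .pnn) (n1 := ndB2q0) (n2 := ndB4q1) (pc := pcB1) (cut := Cut.none) (xt := Ext.none) (P1 := 0) (W1 := 536870912) (P2 := 536870912) (W2 := 536870912) (P3 := 1033476505) (W3 := 6710887) (N0 := 3) (En := eng) (mo := mog) (C1 := cd2q0) (C2 := cd4q1) (C3 := pd1)
    rfl k0_pm_011

noncomputable def f_pm_012 : ℕ → ℕ → ℕ → ℕ → Bool := onCell 0 536870912 1073741824 536870912 1033476505 6710887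
    (rowB 3 eng mog cd2q0 cd4q2 pd1 0 false true false .pnp 0 1 2 (qsf 0 536870912 1073741824 536870912 1) ndB2q0 ndB4q2 pcB1 Cut.none Ext.none)

def k0_pm_012 : ∃ t, chk3 f_pm_012 t 1 1 1 = true :=
  ⟨(l 4), by decide +kernel⟩

theorem c_pm_012 : CertB 0 536870912 1073741824 536870912 1033476505 6710887 3 eng mog cd2q0 cd4q2 pd1 false true false .pnp 0 1 2
    ndB2q0 ndB4q2 pcB1 Cut.none Ext.none :=
  certB0 (fam := false) (s1 := true) (s2 := false) (a := 0) (b := 1) (c := 2) (cn := .pnp) (n1 := ndB2q0) (n2 := ndB4q2) (pc := pcB1) (cut := Cut.none) (xt := Ext.none) (P1 := 0) (W1 := 536870912) (P2 := 1073741824) (W2 := 536870912) (P3 := 1033476505) (W3 := 6710887) (N0 := 3) (En := eng) (mo := mog) (C1 := cd2q0) (C2 := cd4q2) (C3 := pd1)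
    rfl k0_pm_012

noncomputable def f_pm_022 : ℕ → ℕ → ℕ → ℕ → Bool := onCell 0 536870912 1073741824 536870912 1033476505 6710887
    (rowB 3 eng mog cd2q0 cd4q2 pd2 0 false true false .pp 0 2 2 (qsf 0 536870912 1073741824 536870912 2) ndB2q0 ndB4q2 pcB2 Cut.none Ext.none)

def k0_pm_022 : ∃ t, chk3 f_pm_022 t 1 1 1 = true :=
  ⟨(l 4), by decide +kernel⟩

theorem c_pm_022 : CertB 0 536870912 1073741824 536870912 1033476505 6710887 3 eng mog cd2q0 cd4q2 pd2 false true false .pp 0 2 2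
    ndB2q0 ndB4q2 pcB2 Cut.none Ext.none :=
  certB0 (fam := false) (s1 := true) (s2 := false) (a := 0) (b := 2) (c := 2) (cn := .pp) (n1 := ndB2q0) (n2 := ndB4q2) (pc := pcB2) (cut := Cut.none) (xt := Ext.none) (P1 := 0) (W1 := 536870912) (P2 := 1073741824) (W2 := 536870912) (P3 := 1033476505) (W3 := 6710887) (N0 := 3) (En := eng) (mo := mog) (C1 := cd2q0) (C2 := cd4q2) (C3 := pd2)
    rfl k0_pm_022

noncomputable def f_pm_023 : ℕ → ℕ → ℕ → ℕ → Bool := onCell 0 536870912 0 1230186008 1033476505 6710887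
    (rowB 3 eng mog cd2q0 cd4q3 pd2 0 false true false .up 0 2 3 (qsf 0 536870912 0 1230186008 2) ndB2q0 ndB4q3 pcB2 Cut.none Ext.none)

def k0_pm_023 : ∃ t, chk3 f_pm_023 t 1 1 1 = true :=
  ⟨(b (b (a (l 2) (l 4)) (l 4)) (l 4)), by decide +kernel⟩

theorem c_pm_023 : CertB 0 536870912 0 1230186008 1033476505 6710887 3 eng mog cd2q0 cd4q3 pd2 false true false .up 0 2 3
    ndB2q0 ndB4q3 pcB2 Cut.none Ext.none :=
  certB0 (fam := false) (s1 := true) (s2 := false) (a := 0) (b := 2) (c := 3) (cn := .up) (n1 := ndB2q0) (n2 := ndB4q3) (pc := pcB2) (cut := Cut.none) (xt := Ext.none) (P1 := 0) (W1 := 536870912) (P2 := 0) (W2 := 1230186008) (P3 := 1033476505) (W3 := 6710887) (N0 := 3) (En := eng) (mo := mog) (C1 := cd2q0) (C2 := cd4q3) (C3 := pd2)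
    rfl k0_pm_023

noncomputable def f_pm_033 : ℕ → ℕ → ℕ → ℕ → Bool := onCell 0 536870912 0 1230186008 1033476505 6710887
    (rowB 3 eng mog cd2q0 cd4q3 pd3 0 false true false .pnn 0 3 3 (qsf 0 536870912 0 1230186008 3) ndB2q0 ndB4q3 pcB3 Cut.none Ext.none)

def k0_pm_033 : ∃ t, chk3 f_pm_033 t 1 1 1 = true :=
  ⟨(b (b (a (l 4) (l 4)) (l 4)) (l 4)), by decide +kernel⟩

theorem c_pm_033 : CertB 0 536870912 0 1230186008 1033476505 6710887 3 eng mog cd2q0 cd4q3 pd3 false true false .pnn 0 3 3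
    ndB2q0 ndB4q3 pcB3 Cut.none Ext.none :=
  certB0 (fam := false) (s1 := true) (s2 := false) (a := 0) (b := 3) (c := 3) (cn := .pnn) (n1 := ndB2q0) (n2 := ndB4q3) (pc := pcB3) (cut := Cut.none) (xt := Ext.none) (P1 := 0) (W1 := 536870912) (P2 := 0) (W2 := 1230186008) (P3 := 1033476505) (W3 := 6710887) (N0 := 3) (En := eng) (mo := mog) (C1 := cd2q0) (C2 := cd4q3) (C3 := pd3)
    rfl k0_pm_033

noncomputable def f_pm_101 : ℕ → ℕ → ℕ → ℕ → Bool := onCell 536870912 536870912 536870912 536870912 1033476505 6710887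
    (rowB 3 eng mog cd2q1 cd4q1 pd0 0 false true false .npn 1 0 1 (qsf 536870912 536870912 536870912 536870912 0) ndB2q1 ndB4q1 pcB0 Cut.none Ext.none)

def k0_pm_101 : ∃ t, chk3 f_pm_101 t 1 1 1 = true :=
  ⟨(l 4), by decide +kernel⟩

theorem c_pm_101 : CertB 536870912 536870912 536870912 536870912 1033476505 6710887 3 eng mog cd2q1 cd4q1 pd0 false true false .npn 1 0 1
    ndB2q1 ndB4q1 pcB0 Cut.none Ext.none :=
  certB0 (fam := false) (s1 := true) (s2 := false) (a := 1) (b := 0) (c := 1) (cn := .npn) (n1 := ndB2q1) (n2 := ndB4q1) (pc := pcB0) (cut := Cut.none) (xt := Ext.none) (P1 := 536870912) (W1 := 536870912) (P2 := 536870912) (W2 := 536870912) (P3 := 1033476505) (W3 := 6710887) (N0 := 3) (En := eng) (mo := mog) (C1 := cd2q1) (C2 := cd4q1) (C3 := pd0)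
    rfl k0_pm_101

noncomputable def f_pm_102 : ℕ → ℕ → ℕ → ℕ → Bool := onCell 536870912 536870912 1073741824 536870912 1033476505 6710887
    (rowB 3 eng mog cd2q1 cd4q2 pd0 0 false true false .npp 1 0 2 (qsf 536870912 536870912 1073741824 536870912 0) ndB2q1 ndB4q2 pcB0 Cut.none Ext.none)

def k0_pm_102 : ∃ t, chk3 f_pm_102 t 1 1 1 = true :=
  ⟨(l 4), by decide +kernel⟩

theorem c_pm_102 : CertB 536870912 536870912 1073741824 536870912 1033476505 6710887 3 eng mog cd2q1 cd4q2 pd0 false true false .npp 1 0 2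
    ndB2q1 ndB4q2 pcB0 Cut.none Ext.none :=
  certB0 (fam := false) (s1 := true) (s2 := false) (a := 1) (b := 0) (c := 2) (cn := .npp) (n1 := ndB2q1) (n2 := ndB4q2) (pc := pcB0) (cut := Cut.none) (xt := Ext.none) (P1 := 536870912) (W1 := 536870912) (P2 := 1073741824) (W2 := 536870912) (P3 := 1033476505) (W3 := 6710887) (N0 := 3) (En := eng) (mo := mog) (C1 := cd2q1) (C2 := cd4q2) (C3 := pd0)
    rfl k0_pm_102

noncomputable def f_pm_112 : ℕ → ℕ → ℕ → ℕ → Bool := onCell 536870912 536870912 1073741824 536870912 1033476505 6710887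
    (rowB 3 eng mog cd2q1 cd4q2 pd1 0 false true false .dn 1 1 2 (qsf 536870912 536870912 1073741824 536870912 1) ndB2q1 ndB4q2 pcB1 Cut.none Ext.none)

def k0_pm_112 : ∃ t, chk3 f_pm_112 t 1 1 1 = true :=
  ⟨(l 4), by decide +kernel⟩

theorem c_pm_112 : CertB 536870912 536870912 1073741824 536870912 1033476505 6710887 3 eng mog cd2q1 cd4q2 pd1 false true false .dn 1 1 2
    ndB2q1 ndB4q2 pcB1 Cut.none Ext.none :=
  certB0 (fam := false) (s1 := true) (s2 := false) (a := 1) (b := 1) (c := 2) (cn := .dn) (n1 := ndB2q1) (n2 := ndB4q2) (pc := pcB1) (cut := Cut.none) (xt := Ext.none) (P1 := 536870912) (W1 := 536870912) (P2 := 1073741824) (W2 := 536870912) (P3 := 1033476505) (W3 := 6710887) (N0 := 3) (En := eng) (mo := mog) (C1 := cd2q1) (C2 := cd4q2) (C3 := pd1)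
    rfl k0_pm_112

noncomputable def f_pm_113 : ℕ → ℕ → ℕ → ℕ → Bool := onCell 536870912 536870912 0 1230186008 1033476505 6710887
    (rowB 3 eng mog cd2q1 cd4q3 pd1 0 false true false .nn 1 1 3 (qsf 536870912 536870912 0 1230186008 1) ndB2q1 ndB4q3 pcB1 Cut.none Ext.none)

def k0_pm_113 : ∃ t, chk3 f_pm_113 t 1 1 1 = true :=
  ⟨(b (a (l 2) (a (l 2) (b (a (l 2) (b (l 16216024) (l 15995336))) (b (a (l 13893040) (l 15441608)) (a (l 13654280) (b (l 14625792) (l 14314872))))))) (b (a (l 4) (a (l 4) (b (a (l 4) (b (a (l 4) (l 14257352)) (l 4))) (l 4)))) (l 4))), by decide +kernel⟩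

theorem c_pm_113 : CertB 536870912 536870912 0 1230186008 1033476505 6710887 3 eng mog cd2q1 cd4q3 pd1 false true false .nn 1 1 3
    ndB2q1 ndB4q3 pcB1 Cut.none Ext.none :=
  certB0 (fam := false) (s1 := true) (s2 := false) (a := 1) (b := 1) (c := 3) (cn := .nn) (n1 := ndB2q1) (n2 := ndB4q3) (pc := pcB1) (cut := Cut.none) (xt := Ext.none) (P1 := 536870912) (W1 := 536870912) (P2 := 0) (W2 := 1230186008) (P3 := 1033476505) (W3 := 6710887) (N0 := 3) (En := eng) (mo := mog) (C1 := cd2q1) (C2 := cd4q3) (C3 := pd1)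
    rfl k0_pm_113

noncomputable def f_pm_123 : ℕ → ℕ → ℕ → ℕ → Bool := onCell 1073741824 536870912 0 1230186008 1033476505 6710887
    (rowB 3 eng mog cd2q1 cd4q3 pd2 2 false true false .npn 1 2 3 (qsf 536870912 536870912 0 1230186008 2) ndB2q1 ndB4q3 pcB2 Cut.none Ext.none)

def k0_pm_123 : ∃ t, chk3 f_pm_123 t 1 1 1 = true :=
  ⟨(b (b (a (a (a (b (l 16640592) (l 16354568)) (a (b (l 16325000) (l 15868192)) (l 15798144))) (a (a (l 15547024) (l 15461368)) (b (l 15404344) (a (l 15510040) (l 15666632))))) (b (a (a (l 15613736) (l 15890760)) (a (l 15992096) (l 15976080))) (a (a (a (l 15837304) (l 15978320)) (l 15962840)) (l 4)))) (a (b (a (a (l 15112232) (a (l 14957480) (l 14936712))) (a (a (l 14973072) (l 15169464)) (a (l 15401992) (l 4)))) (a (a (a (l 13959056) (l 14258160)) (l 4)) (l 4))) (l 4))) (b (l 4) (l 4))), by decide +kernel⟩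

theorem c_pm_123 : CertB 536870912 536870912 0 1230186008 1033476505 6710887 3 eng mog cd2q1 cd4q3 pd2 false true false .npn 1 2 3
    ndB2q1 ndB4q3 pcB2 Cut.none Ext.none :=
  certB2 (fam := false) (s1 := true) (s2 := false) (a := 1) (b := 2) (c := 3) (cn := .npn) (n1 := ndB2q1) (n2 := ndB4q3) (pc := pcB2) (cut := Cut.none) (xt := Ext.none) (P1 := 536870912) (W1 := 536870912) (P2 := 0) (W2 := 1230186008) (P3 := 1033476505) (W3 := 6710887) (N0 := 3) (En := eng) (mo := mog) (C1 := cd2q1) (C2 := cd4q3) (C3 := pd2)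
    rfl (fun _ => rfl) k0_pm_123

noncomputable def f_pm_133 : ℕ → ℕ → ℕ → ℕ → Bool := onCell 1610612736 536870912 0 1230186008 1033476505 6710887
    (rowB 3 eng mog cd2q1 cd4q3 pd3 2 false true false .dn 1 3 3 (qsf 536870912 536870912 0 1230186008 3) ndB2q1 ndB4q3 pcB3 Cut.none Ext.none)

def k0_pm_133 : ∃ t, chk3 f_pm_133 t 1 1 1 = true :=
  ⟨(b (b (a (l 4) (l 1)) (l 1)) (l 1)), by decide +kernel⟩

theorem c_pm_133 : CertB 536870912 536870912 0 1230186008 1033476505 6710887 3 eng mog cd2q1 cd4q3 pd3 false true false .dn 1 3 3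
    ndB2q1 ndB4q3 pcB3 Cut.none Ext.none :=
  certB2 (fam := false) (s1 := true) (s2 := false) (a := 1) (b := 3) (c := 3) (cn := .dn) (n1 := ndB2q1) (n2 := ndB4q3) (pc := pcB3) (cut := Cut.none) (xt := Ext.none) (P1 := 536870912) (W1 := 536870912) (P2 := 0) (W2 := 1230186008) (P3 := 1033476505) (W3 := 6710887) (N0 := 3) (En := eng) (mo := mog) (C1 := cd2q1) (C2 := cd4q3) (C3 := pd3)
    rfl (fun _ => rfl) k0_pm_133

noncomputable def f_pm_202_a : ℕ → ℕ → ℕ → ℕ → Bool := onCell 0 536870912 0 536870912 1033476505 6710887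
    (rowB 3 eng mog cd2q2a cd4q2 pd0 1 false true false .pp 2 0 2 (qsf 0 536870912 1073741824 536870912 0) ndB2q2a ndB4q2 pcB0 Cut.none Ext.none)

def k0_pm_202_a : ∃ t, chk3 f_pm_202_a t 2 1 1 = true :=
  ⟨(b (a (b (b (b (b (l 15802120) (l 15709768)) (b (l 15635680) (l 15548640))) (l 15299912)) (b (b (l 14970032) (l 14727072)) (b (l 14462200) (l 14171736)))) (b (b (b (b (a (l 15760976) (l 15729664)) (a (l 15677104) (l 15651736))) (b (l 15579296) (l 15505264))) (b (l 15370984) (l 15181840))) (b (b (l 14978176) (l 14756792)) (b (l 14514504) (l 14247824))))) (b (b (b (a (a (l 13677304) (l 13892696)) (l 13952520)) (a (a (l 13978840) (l 13771496)) (a (l 13561840) (l 13651432)))) (a (b (l 14025088) (l 14227528)) (b (a (l 13603648) (b (l 13398072) (l 13308088))) (a (l 13791056) (l 13384616))))) (b (a (l 2) (b (l 13818792) (l 2))) (l 2)))), by decide +kernel⟩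

def k1_pm_202_a : ∃ t, chk3 f_pm_202_a t 3 1 1 = true :=
  ⟨(b (a (b (b (b (a (l 15612904) (l 15521120)) (a (b (l 15519016) (l 15455736)) (l 15384184))) (a (b (l 15334208) (l 15170304)) (b (l 15265112) (l 15132688)))) (b (b (a (l 14979472) (l 14970872)) (l 14775832)) (b (l 14551528) (l 14302936)))) (b (b (a (b (a (l 15441760) (a (l 15398432) (l 15368208))) (a (l 15295296) (l 15229648))) (b (a (b (l 15343360) (l 15257928)) (b (a (b (l 15338672) (l 15293032)) (a (b (l 15313784) (l 15267256)) (l 15252240))) (a (l 15226552) (l 15190272)))) (a (l 15158256) (a (l 15079704) (b (l 15103048) (l 15020088)))))) (a (b (l 15128456) (l 15007880)) (b (a (l 15011712) (a (l 14947688) (l 14903152))) (a (l 14880552) (l 14765480))))) (b (a (b (a (l 14937040) (l 14857864)) (a (l 14778576) (l 14750080))) (b (a (l 14764288) (l 14662416)) (l 14609072))) (a (b (l 14583960) (l 14357424)) (b (a (l 14537600) (l 14458968)) (a (l 14373168) (l 14338736))))))) (b (b (a (b (l 14026056)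 (l 13716384)) (a (b (l 14099904) (l 13809984)) (b (a (l 14153400) (l 14173928)) (l 13903944)))) (a (b (l 13368336) (a (b (l 13074376) (l 12990056)) (l 13019640))) (a (b (l 13483072) (l 13114016)) (b (l 13596936) (l 13248752))))) (a (b (b (a (l 13078232) (a (l 12622856) (l 12608784))) (a (l 2) (a (l 12837352) (l 12499888)))) (l 2)) (b (a (b (l 12696672) (a (b (l 12316600) (l 12199760)) (l 12267136))) (b (l 12854720) (l 12409920))) (a (b (a (l 12347320) (b (a (l 11974720) (l 11907400)) (l 11970160))) (l 2)) (b (a (b (l 11983896) (a (l 11727120) (l 11745760))) (l 11978600)) (a (b (a (l 11746384) (l 11569800)) (l 2)) (b (l 11571232) (a (l 11431096) (l 11338680)))))))))), by decide +kernel⟩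

theorem s2_pm_202_a : ∃ t, chk3 f_pm_202_a t 1 1 1 = true := ex3_a k0_pm_202_a k1_pm_202_a

theorem c_pm_202_a : CertB 0 536870912 1073741824 536870912 1033476505 6710887 3 eng mog cd2q2a cd4q2 pd0 false true false .pp 2 0 2
    ndB2q2a ndB4q2 pcB0 Cut.none Ext.none :=
  certB1 (fam := false) (s1 := true) (s2 := false) (a := 2) (b := 0) (c := 2) (cn := .pp) (n1 := ndB2q2a) (n2 := ndB4q2) (pc := pcB0) (cut := Cut.none) (xt := Ext.none) (P1 := 0) (W1 := 536870912) (P2 := 1073741824) (W2 := 536870912) (P3 := 1033476505) (W3 := 6710887) (N0 := 3) (En := eng) (mo := mog) (C1 := cd2q2a) (C2 := cd4q2) (C3 := pd0)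
    rfl (fun _ => rfl) s2_pm_202_a

noncomputable def f_pm_202_b : ℕ → ℕ → ℕ → ℕ → Bool := onCell 0 536870912 1073741824 536870912 1033476505 6710887
    (rowB 3 eng mog cd2q2b cd4q2 pd0 2 false true false .pp 2 0 2 (qsf 1239849684 370763052 1073741824 536870912 0) ndB2q2b ndB4q2 pcB0 Cut.none Ext.none)

def k0_pm_202_b : ∃ t, chk3 f_pm_202_b t 1 1 1 = true :=
  ⟨(a (b (a (b (l 1) (a (a (a (l 460666259303) (b (l 15805048) (l 15630888))) (a (b (l 414495465191) (l 15606904)) (l 433285583287))) (b (l 1) (l 421473820839)))) (l 1)) (a (a (a (a (b (l 15472832) (l 15297184)) (b (l 15406016) (l 15303184))) (a (b (b (l 15485704) (l 15398776)) (l 15315968)) (b (l 15406608) (l 15313144)))) (b (b (l 324300076839) (l 15234992)) (a (l 15283240) (l 15205144)))) (b (a (b (a (l 14969336) (l 430062488071)) (l 342015974871)) (b (l 1) (a (l 14405536) (l 594343630695)))) (a (b (l 14928040) (a (l 15141864) (l 14999048))) (b (a (l 14536464) (b (l 14124752) (l 14265880)))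 (a (l 14702312) (l 14657912))))))) (b (l 1) (a (b (l 1) (b (a (a (b (l 511664891623) (l 13969352)) (b (l 1) (l 13711672))) (l 1)) (a (a (l 14478336) (l 14282136)) (b (l 528844839511) (l 14162624))))) (l 1)))), by decide +kernel⟩

theorem c_pm_202_b : CertB 1239849684 370763052 1073741824 536870912 1033476505 6710887 3 eng mog cd2q2b cd4q2 pd0 false true false .pp 2 0 2
    ndB2q2b ndB4q2 pcB0 Cut.none Ext.none :=
  certB2 (fam := false) (s1 := true) (s2 := false) (a := 2) (b := 0) (c := 2) (cn := .pp) (n1 := ndB2q2b) (n2 := ndB4q2) (pc := pcB0) (cut := Cut.none) (xt := Ext.none) (P1 := 1239849684) (W1 := 370763052) (P2 := 1073741824) (W2 := 536870912) (P3 := 1033476505) (W3 := 6710887) (N0 := 3) (En := eng) (mo := mog) (C1 := cd2q2b) (C2 := cd4q2) (C3 := pd0)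
    rfl (fun _ => rfl) k0_pm_202_b

noncomputable def f_pm_203_a : ℕ → ℕ → ℕ → ℕ → Bool := onCell 0 536870912 0 1230186008 1033476505 6710887
    (rowB 3 eng mog cd2q2a cd4q3 pd0 0 false true false .up 2 0 3 (qsf 0 536870912 0 1230186008 0) ndB2q2a ndB4q3 pcB0 Cut.none Ext.none)

def k0_pm_203_a : ∃ t, chk3 f_pm_203_a t 1 1 1 = true :=
  ⟨(b (l 2) (b (l 2) (a (b (b (l 2) (a (l 14984768) (l 14805568))) (b (a (b (l 14742192) (a (l 14608648) (l 14497368))) (b (a (l 14568760) (l 14201480)) (a (l 14156608) (l 14074544)))) (a (b (a (l 14419296) (l 14274648)) (l 14069672)) (b (l 13881024) (l 13562456))))) (b (l 2) (b (a (b (a (l 14110976) (l 2)) (a (l 13737104) (l 13325384))) (a (b (l 2) (l 12838472)) (l 2))) (a (b (a (l 13371952) (l 12930872)) (a (l 13020016) (l 12549200))) (b (a (l 12410504) (l 11829768)) (a (l 11993456) (b (l 11487728) (l 11299296)))))))))), by decide +kernel⟩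

theorem c_pm_203_a : CertB 0 536870912 0 1230186008 1033476505 6710887 3 eng mog cd2q2a cd4q3 pd0 false true false .up 2 0 3
    ndB2q2a ndB4q3 pcB0 Cut.none Ext.none :=
  certB0 (fam := false) (s1 := true) (s2 := false) (a := 2) (b := 0) (c := 3) (cn := .up) (n1 := ndB2q2a) (n2 := ndB4q3) (pc := pcB0) (cut := Cut.none) (xt := Ext.none) (P1 := 0) (W1 := 536870912) (P2 := 0) (W2 := 1230186008) (P3 := 1033476505) (W3 := 6710887) (N0 := 3) (En := eng) (mo := mog) (C1 := cd2q2a) (C2 := cd4q3) (C3 := pd0)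
    rfl k0_pm_203_a

noncomputable def f_pm_203_b : ℕ → ℕ → ℕ → ℕ → Bool := onCell 0 536870912 0 1230186008 1033476505 6710887
    (rowB 3 eng mog cd2q2b cd4q3 pd0 2 false true false .up 2 0 3 (qsf 1239849684 370763052 0 1230186008 0) ndB2q2b ndB4q3 pcB0 Cut.none Ext.none)

def k0_pm_203_b : ∃ t, chk3 f_pm_203_b t 1 1 1 = true :=
  ⟨(b (l 3) (b (b (l 3) (a (l 3) (a (a (l 3) (a (l 3) (b (l 3) (b (l 3) (l 16147192))))) (a (b (l 3) (b (l 16174328) (l 15955824))) (b (a (l 3) (l 16391288)) (a (l 16085248) (l 16060928))))))) (a (b (a (l 2) (b (b (l 3) (a (l 3) (a (b (l 3) (l 15808456)) (l 15705216)))) (a (a (b (l 2) (b (l 15447256) (l 15403040))) (b (b (l 15669752) (l 15586096)) (b (l 15507208) (l 15460720)))) (a (b (a (l 15663808) (l 15677776)) (l 15526560)) (b (l 15688992) (l 15550752)))))) (a (b (a (l 2) (a (b (l 2) (l 15191472)) (b (l 15299088) (b (l 15261616) (l 15236744))))) (a (a (a (l 15000880) (l 15039016)) (a (a (l 15058440) (a (l 15066928) (l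 15071968))) (l 15091272))) (a (b (l 15152608) (a (l 15099456) (l 15107176))) (b (l 15186320) (l 15101600))))) (a (b (b (l 15382224) (a (l 15287520) (l 15284792))) (a (l 15133464) (l 15101544))) (b (b (l 15428448) (l 15292968)) (b (l 15127352) (l 14892416)))))) (a (b (b (a (a (b (l 3) (l 15870840)) (b (l 16028744) (l 15857144))) (b (a (l 16009336) (l 15984272)) (l 15829392))) (a (b (a (l 15695256) (l 15693504)) (l 15553232)) (b (l 15666712) (l 15485608)))) (b (a (l 15300976) (l 15151808)) (a (b (l 14769208) (l 14665480)) (b (l 14615832) (l 14367440))))) (b (a (b (b (l 15936784) (l 15762584)) (b (l 15568656) (l 15334208))) (b (b (l 15839512) (l 15635344)) (b (l 15388208) (l 15103648)))) (b (a (b (l 15066288) (l 14766264)) (b (l 14785432) (l 14436856))) (a (b (l 14428224) (a (l 14107328) (l 1))) (l 1)))))))), by decide +kernel⟩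

theorem c_pm_203_b : CertB 1239849684 370763052 0 1230186008 1033476505 6710887 3 eng mog cd2q2b cd4q3 pd0 false true false .up 2 0 3
    ndB2q2b ndB4q3 pcB0 Cut.none Ext.none :=
  certB2 (fam := false) (s1 := true) (s2 := false) (a := 2) (b := 0) (c := 3) (cn := .up) (n1 := ndB2q2b) (n2 := ndB4q3) (pc := pcB0) (cut := Cut.none) (xt := Ext.none) (P1 := 1239849684) (W1 := 370763052) (P2 := 0) (W2 := 1230186008) (P3 := 1033476505) (W3 := 6710887) (N0 := 3) (En := eng) (mo := mog) (C1 := cd2q2b) (C2 := cd4q3) (C3 := pd0)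
    rfl (fun _ => rfl) k0_pm_203_b

noncomputable def cut_pm_213_a : Cut := Cut.of [[⟨0, 1, 0, 20971520⟩, ⟨1, 1, 0, 20971520⟩, ⟨2, 2, 0, 1572864⟩]]

noncomputable def f_pm_213_a : ℕ → ℕ → ℕ → ℕ → Bool := onCell 0 536870912 0 1230186008 1033476505 6710887
    (rowB 3 eng mog cd2q2a cd4q3 pd1 0 false true false .pnn 2 1 3 (qsf 0 536870912 0 1230186008 1) ndB2q2a ndB4q3 pcB1 cut_pm_213_a Ext.none)

def k0_pm_213_a : ∃ t, chk3 f_pm_213_a t 1 4 1 = true :=
  ⟨(a (l 3) (a (b (l 3) (a (l 3) (b (l 3) (a (b (l 3) (l 396914657543)) (b (l 282561261895) (l 189145672711)))))) (a (b (a (l 3) (b (l 3) (a (l 3) (b (l 3) (b (l 412484520311) (l 242296447287)))))) (b (a (b (a (l 3) (l 367387328183)) (a (l 389398790407) (l 16653936))) (a (b (l 255181306759) (l 16712616)) (b (b (l 16775312) (l 16759232)) (l 16740176)))) (a (b (a (l 16617088) (l 16653888)) (l 16616400)) (b (a (l 16690936) (l 16681056)) (l 16618712))))) (b (a (b (b (l 3) (a (l 3) (b (l 3) (l 411410849527))))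 (a (a (b (l 435033150727) (l 199346781575)) (b (l 377587961719) (l 16774576))) (b (b (l 249275809687) (l 16769136)) (l 16768648)))) (b (b (a (a (l 3) (l 6)) (l 6)) (a (b (a (l 406042147399) (l 6)) (a (l 16756920) (l 16759112))) (b (l 6) (l 16763200)))) (a (b (l 16748792) (l 16764936)) (b (l 16773760) (l 16765200))))) (a (b (b (a (l 16742264) (l 16746632)) (a (l 16728960) (l 16743312))) (a (b (l 16665288) (l 16583264)) (b (l 16679608) (l 16579024)))) (b (b (l 16744288) (l 16738408)) (b (l 16746840) (a (l 16656680) (l 16759520))))))))), by decide +kernel⟩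

def k1_pm_213_a : ∃ t, chk3 f_pm_213_a t 1 5 1 = true :=
  ⟨(a (b (a (l 3) (b (l 3) (a (l 3) (b (l 3) (l 198272455111))))) (a (b (l 3) (a (l 3) (b (l 301351982151) (a (l 295446278695) (l 16591360))))) (b (a (b (l 3) (l 230484906023)) (b (l 167670823239) (l 16547256))) (a (b (l 160154799063) (l 16548768)) (b (l 16530872) (l 16475488)))))) (a (b (a (b (a (l 395840829767) (b (l 384566609095) (l 16449824))) (a (l 125794773591) (b (l 16462928) (l 16479880)))) (b (a (b (l 16473144) (l 16467336)) (b (l 16528480) (l 16509720))) (a (b (l 16474744) (l 16478168)) (l 16472360)))) (b (a (b (l 16502424) (l 16488280)) (a (b (l 16460888) (l 16425160)) (l 16394776))) (a (b (l 16446280) (l 16393112)) (a (l 16347720) (l 16288256))))) (b (a (b (a (b (l 16573352) (l 16520512)) (b (l 16545240) (l 16470064))) (a (l 16437368) (l 16358256))) (b (a (a (l 16446544) (b (l 16468760) (l 16355656))) (b (l 16552184) (l 16344736))) (a (b (l 16279312) (l 16187032)) (a (l 16121840)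 (l 16071928))))) (a (b (a (l 16323848) (l 16216072)) (a (l 16204896) (l 16088256))) (b (a (l 16062200) (l 15863848)) (a (l 15928568) (l 15715000))))))), by decide +kernel⟩

def k2_pm_213_a : ∃ t, chk3 f_pm_213_a t 1 3 1 = true :=
  ⟨(b (a (b (b (a (a (b (l 327121519111) (a (l 212231003671) (l 16467392))) (b (a (l 16536424) (l 16517992)) (l 16447752))) (a (b (l 16478472) (l 16404136)) (b (l 16411968) (l 16345328)))) (a (a (b (l 16385712) (l 16301096)) (b (l 16366368) (l 16286648))) (a (b (l 16329344) (l 16257744)) (b (l 16280312) (a (l 16230464) (l 16210912)))))) (b (a (b (a (l 16220072) (l 16212192)) (a (l 16146256) (a (l 16147648) (l 16145272)))) (a (b (a (l 16198928) (l 16187488)) (l 16132416)) (b (l 16163440) (l 16098600)))) (a (b (a (l 16083872) (a (l 16088256) (l 16082744))) (a (b (l 16042784) (l 16011040)) (l 16014112))) (l 16005584)))) (a (b (b (a (b (l 16335912) (l 16278424)) (b (l 16238416) (l 16183696))) (a (b (l 16223920) (l 16167520))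 (l 16096664))) (b (a (l 16070672) (l 15964896)) (a (l 15912528) (l 15802256)))) (b (a (b (l 16035112) (l 15920464)) (b (l 15573304) (l 15621960))) (b (a (l 15791448) (l 15513216)) (a (l 15632944) (l 15375080)))))) (a (b (b (a (b (a (l 15952584) (l 15927600)) (l 15843848)) (l 15815736)) (a (l 15670696) (l 15570048))) (b (a (l 1) (b (l 15331768) (l 1))) (l 1))) (b (a (b (a (l 15709568) (l 15595360)) (a (l 15327768) (b (l 15392504) (l 15223688)))) (b (a (l 15265696) (b (l 15230248) (l 15094856))) (a (b (l 15206600) (l 14987112)) (l 14773256)))) (a (b (b (l 14849720) (l 14853264)) (l 1)) (b (a (l 14630088) (l 14298528)) (a (l 14116040) (b (l 13913072) (l 13641416)))))))), by decide +kernel⟩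

theorem s3_pm_213_a : ∃ t, chk3 f_pm_213_a t 1 2 1 = true := ex3_b k0_pm_213_a k1_pm_213_a

theorem s4_pm_213_a : ∃ t, chk3 f_pm_213_a t 1 1 1 = true := ex3_b s3_pm_213_a k2_pm_213_a

theorem c_pm_213_a : CertB 0 536870912 0 1230186008 1033476505 6710887 3 eng mog cd2q2a cd4q3 pd1 false true false .pnn 2 1 3
    ndB2q2a ndB4q3 pcB1 cut_pm_213_a Ext.none :=
  certB0 (fam := false) (s1 := true) (s2 := false) (a := 2) (b := 1) (c := 3) (cn := .pnn) (n1 := ndB2q2a) (n2 := ndB4q3) (pc := pcB1) (cut := cut_pm_213_a) (xt := Ext.none) (P1 := 0) (W1 := 536870912) (P2 := 0) (W2 := 1230186008) (P3 := 1033476505) (W3 := 6710887) (N0 := 3) (En := eng) (mo := mog) (C1 := cd2q2a) (C2 := cd4q3) (C3 := pd1)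
    rfl s4_pm_213_a

noncomputable def cut_pm_213_b : Cut := Cut.of [[⟨0, 1, 0, 20971520⟩, ⟨1, 1, 0, 20971520⟩, ⟨2, 2, 0, 1572864⟩]]

noncomputable def f_pm_213_b : ℕ → ℕ → ℕ → ℕ → Bool := onCell 1239849684 370763052 0 1230186008 1033476505 6710887
    (rowB 3 eng mog cd2q2b cd4q3 pd1 0 false true false .pnn 2 1 3 (qsf 1239849684 370763052 0 1230186008 1) ndB2q2b ndB4q3 pcB1 cut_pm_213_b Ext.none)

def k0_pm_213_b : ∃ t, chk3 f_pm_213_b t 1 1 1 = true :=
  ⟨(b (a (b (l 3) (l 3)) (l 3)) (b (a (b (a (b (a (b (l 3) (a (l 255180657047) (l 3))) (l 3)) (a (b (a (b (l 16389832) (l 16386584)) (l 204714825111)) (a (l 16319336) (b (l 16378296) (l 16330200)))) (b (l 3) (a (l 16391464) (l 3))))) (l 3)) (a (b (a (b (a (l 16231624) (l 16258296)) (a (l 16149208) (l 16165480))) (b (a (l 16287904) (l 16321312)) (a (l 16185560) (l 16210184)))) (a (b (a (l 16076328) (l 16080176)) (a (l 16018632) (l 16007240))) (b (l 16094064) (l 16000112)))) (b (a (b (l 200419621191)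 (a (l 16239656) (l 16272664))) (b (l 3) (l 171965461207))) (a (b (l 16089592) (l 16010320)) (l 1))))) (b (l 3) (l 1))) (a (b (a (b (a (b (a (l 15958880) (l 15862592)) (l 15870176)) (b (b (l 15939240) (l 15903648)) (b (l 15867064) (l 15824504)))) (a (l 15707904) (l 1))) (l 1)) (l 1)) (l 1)))), by decide +kernel⟩

theorem c_pm_213_b : CertB 1239849684 370763052 0 1230186008 1033476505 6710887 3 eng mog cd2q2b cd4q3 pd1 false true false .pnn 2 1 3
    ndB2q2b ndB4q3 pcB1 cut_pm_213_b Ext.none :=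
  certB0 (fam := false) (s1 := true) (s2 := false) (a := 2) (b := 1) (c := 3) (cn := .pnn) (n1 := ndB2q2b) (n2 := ndB4q3) (pc := pcB1) (cut := cut_pm_213_b) (xt := Ext.none) (P1 := 1239849684) (W1 := 370763052) (P2 := 0) (W2 := 1230186008) (P3 := 1033476505) (W3 := 6710887) (N0 := 3) (En := eng) (mo := mog) (C1 := cd2q2b) (C2 := cd4q3) (C3 := pd1)
    rfl k0_pm_213_b

noncomputable def f_pm_303 : ℕ → ℕ → ℕ → ℕ → Bool := onCell 0 536870912 0 1230186008 1033476505 6710887
    (rowB 3 eng mog cd2q3 cd4q3 pd0 2 false true false .npn 3 0 3 (qsf 1610612736 536870912 0 1230186008 0) ndB2q3 ndB4q3 pcB0 Cut.none Ext.none)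

def k0_pm_303 : ∃ t, chk3 f_pm_303 t 1 1 1 = true :=
  ⟨(b (l 3) (b (b (l 3) (a (l 3) (a (a (l 3) (b (l 3) (l 1))) (l 1)))) (a (a (b (b (l 3) (b (a (l 3) (a (l 3) (a (l 253030145463) (l 190753463511)))) (a (a (a (b (l 3) (l 189142346535)) (l 185921245383)) (b (l 14767720) (b (l 14742640) (l 14728336)))) (a (a (b (l 14832336) (l 14801416)) (b (a (l 14861216) (l 14879224)) (l 14844344))) (a (b (a (l 14903616) (l 14928736)) (l 14886128)) (b (l 14963880) (l 14926224))))))) (a (a (a (b (b (a (l 14570488) (b (l 14608240) (l 14605808))) (l 14557392)) (l 14583400)) (b (a (b (b (l 14631344) (l 14631248)) (b (l 14629768) (l 14622584))) (a (b (l 14669296) (l 14642608)) (l 14630848))) (a (l 14611896) (l 14628224)))) (a (a (b (b (l 14673760) (l 14658184)) (l 14641000)) (b (b (b (l 14705168) (l 14690304)) (l 14673920)) (b (l 14678536) (l 1)))) (b (b (l 14712072) (l 14708944)) (l 14656664)))) (b (a (b (a (l 14758608) (l 14802016)) (l 14770824)) (b (l 14877776)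 (b (l 14844552) (l 1)))) (b (b (l 14754272) (l 1)) (l 1))))) (b (b (b (l 3) (a (l 3) (a (a (l 15409568) (l 15440320)) (l 1)))) (a (a (b (a (b (l 3) (l 15067504)) (b (l 15179520) (l 15113192))) (b (l 15003608) (l 14982424))) (b (b (l 217060303239) (l 15144520)) (b (l 15069376) (l 1)))) (l 1))) (a (b (b (l 14973944) (l 1)) (l 1)) (l 1)))) (l 1)))), by decide +kernel⟩

theorem c_pm_303 : CertB 1610612736 536870912 0 1230186008 1033476505 6710887 3 eng mog cd2q3 cd4q3 pd0 false true false .npn 3 0 3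
    ndB2q3 ndB4q3 pcB0 Cut.none Ext.none :=
  certB2 (fam := false) (s1 := true) (s2 := false) (a := 3) (b := 0) (c := 3) (cn := .npn) (n1 := ndB2q3) (n2 := ndB4q3) (pc := pcB0) (cut := Cut.none) (xt := Ext.none) (P1 := 1610612736) (W1 := 536870912) (P2 := 0) (W2 := 1230186008) (P3 := 1033476505) (W3 := 6710887) (N0 := 3) (En := eng) (mo := mog) (C1 := cd2q3) (C2 := cd4q3) (C3 := pd0)
    rfl (fun _ => rfl) k0_pm_303

noncomputable def f_pm_313 : ℕ → ℕ → ℕ → ℕ → Bool := onCell 1610612736 536870912 0 1230186008 1033476505 6710887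
    (rowB 3 eng mog cd2q3 cd4q3 pd1 0 false true false .dn 3 1 3 (qsf 1610612736 536870912 0 1230186008 1) ndB2q3 ndB4q3 pcB1 Cut.none Ext.none)

def k0_pm_313 : ∃ t, chk3 f_pm_313 t 1 1 1 = true :=
  ⟨(b (l 3) (l 1)), by decide +kernel⟩

theorem c_pm_313 : CertB 1610612736 536870912 0 1230186008 1033476505 6710887 3 eng mog cd2q3 cd4q3 pd1 false true false .dn 3 1 3
    ndB2q3 ndB4q3 pcB1 Cut.none Ext.none :=
  certB0 (fam := false) (s1 := true) (s2 := false) (a := 3) (b := 1) (c := 3) (cn := .dn) (n1 := ndB2q3) (n2 := ndB4q3) (pc := pcB1) (cut := Cut.none) (xt := Ext.none) (P1 := 1610612736) (W1 := 536870912) (P2 := 0) (W2 := 1230186008) (P3 := 1033476505) (W3 := 6710887) (N0 := 3) (En := eng) (mo := mog) (C1 := cd2q3) (C2 := cd4q3) (C3 := pd1)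
    rfl k0_pm_313

noncomputable def f_mm_001 : ℕ → ℕ → ℕ → ℕ → Bool := onCell 0 536870912 0 536870912 1033476505 6710887
    (rowB 3 eng mog cd2q0 cd4q1 pd0 1 false false false .up 0 0 1 (qsf 0 536870912 536870912 536870912 0) ndB2q0 ndB4q1 pcB0 Cut.none Ext.none)

def k0_mm_001 : ∃ t, chk3 f_mm_001 t 1 1 1 = true :=
  ⟨(l 3), by decide +kernel⟩

theorem c_mm_001 : CertB 0 536870912 536870912 536870912 1033476505 6710887 3 eng mog cd2q0 cd4q1 pd0 false false false .up 0 0 1
    ndB2q0 ndB4q1 pcB0 Cut.none Ext.none :=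
  certB1 (fam := false) (s1 := false) (s2 := false) (a := 0) (b := 0) (c := 1) (cn := .up) (n1 := ndB2q0) (n2 := ndB4q1) (pc := pcB0) (cut := Cut.none) (xt := Ext.none) (P1 := 0) (W1 := 536870912) (P2 := 536870912) (W2 := 536870912) (P3 := 1033476505) (W3 := 6710887) (N0 := 3) (En := eng) (mo := mog) (C1 := cd2q0) (C2 := cd4q1) (C3 := pd0)
    rfl (fun _ => rfl) k0_mm_001

noncomputable def f_mm_011 : ℕ → ℕ → ℕ → ℕ → Bool := onCell 0 536870912 536870912 536870912 1033476505 6710887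
    (rowB 3 eng mog cd2q0 cd4q1 pd1 1 false false false .pnn 0 1 1 (qsf 0 536870912 536870912 536870912 1) ndB2q0 ndB4q1 pcB1 Cut.none Ext.none)

def k0_mm_011 : ∃ t, chk3 f_mm_011 t 1 1 1 = true :=
  ⟨(l 5), by decide +kernel⟩

theorem c_mm_011 : CertB 0 536870912 536870912 536870912 1033476505 6710887 3 eng mog cd2q0 cd4q1 pd1 false false false .pnn 0 1 1
    ndB2q0 ndB4q1 pcB1 Cut.none Ext.none :=
  certB1 (fam := false) (s1 := false) (s2 := false) (a := 0) (b := 1) (c := 1) (cn := .pnn) (n1 := ndB2q0) (n2 := ndB4q1) (pc := pcB1) (cut := Cut.none) (xt := Ext.none) (P1 := 0) (W1 := 536870912) (P2 := 536870912) (W2 := 536870912) (P3 := 1033476505) (W3 := 6710887) (N0 := 3) (En := eng) (mo := mog) (C1 := cd2q0) (C2 := cd4q1) (C3 := pd1)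
    rfl (fun _ => rfl) k0_mm_011

noncomputable def f_mm_012 : ℕ → ℕ → ℕ → ℕ → Bool := onCell 0 536870912 1073741824 536870912 1033476505 6710887
    (rowB 3 eng mog cd2q0 cd4q2 pd1 0 false false false .pnp 0 1 2 (qsf 0 536870912 1073741824 536870912 1) ndB2q0 ndB4q2 pcB1 Cut.none Ext.none)

def k0_mm_012 : ∃ t, chk3 f_mm_012 t 1 1 1 = true :=
  ⟨(l 5), by decide +kernel⟩

theorem c_mm_012 : CertB 0 536870912 1073741824 536870912 1033476505 6710887 3 eng mog cd2q0 cd4q2 pd1 false false false .pnp 0 1 2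
    ndB2q0 ndB4q2 pcB1 Cut.none Ext.none :=
  certB0 (fam := false) (s1 := false) (s2 := false) (a := 0) (b := 1) (c := 2) (cn := .pnp) (n1 := ndB2q0) (n2 := ndB4q2) (pc := pcB1) (cut := Cut.none) (xt := Ext.none) (P1 := 0) (W1 := 536870912) (P2 := 1073741824) (W2 := 536870912) (P3 := 1033476505) (W3 := 6710887) (N0 := 3) (En := eng) (mo := mog) (C1 := cd2q0) (C2 := cd4q2) (C3 := pd1)
    rfl k0_mm_012

noncomputable def f_mm_022 : ℕ → ℕ → ℕ → ℕ → Bool := onCell 0 536870912 1073741824 536870912 1033476505 6710887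
    (rowB 3 eng mog cd2q0 cd4q2 pd2 0 false false false .pp 0 2 2 (qsf 0 536870912 1073741824 536870912 2) ndB2q0 ndB4q2 pcB2 Cut.none Ext.none)

def k0_mm_022 : ∃ t, chk3 f_mm_022 t 1 1 1 = true :=
  ⟨(l 5), by decide +kernel⟩

theorem c_mm_022 : CertB 0 536870912 1073741824 536870912 1033476505 6710887 3 eng mog cd2q0 cd4q2 pd2 false false false .pp 0 2 2
    ndB2q0 ndB4q2 pcB2 Cut.none Ext.none :=
  certB0 (fam := false) (s1 := false) (s2 := false) (a := 0) (b := 2) (c := 2) (cn := .pp) (n1 := ndB2q0) (n2 := ndB4q2) (pc := pcB2) (cut := Cut.none) (xt := Ext.none) (P1 := 0) (W1 := 536870912) (P2 := 1073741824) (W2 := 536870912) (P3 := 1033476505) (W3 := 6710887) (N0 := 3) (En := eng) (mo := mog) (C1 := cd2q0) (C2 := cd4q2) (C3 := pd2)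
    rfl k0_mm_022

noncomputable def f_mm_023 : ℕ → ℕ → ℕ → ℕ → Bool := onCell 0 536870912 0 1230186008 1033476505 6710887
    (rowB 3 eng mog cd2q0 cd4q3 pd2 0 false false false .up 0 2 3 (qsf 0 536870912 0 1230186008 2) ndB2q0 ndB4q3 pcB2 Cut.none Ext.none)

def k0_mm_023 : ∃ t, chk3 f_mm_023 t 1 1 1 = true :=
  ⟨(l 5), by decide +kernel⟩

theorem c_mm_023 : CertB 0 536870912 0 1230186008 1033476505 6710887 3 eng mog cd2q0 cd4q3 pd2 false false false .up 0 2 3
    ndB2q0 ndB4q3 pcB2 Cut.none Ext.none :=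
  certB0 (fam := false) (s1 := false) (s2 := false) (a := 0) (b := 2) (c := 3) (cn := .up) (n1 := ndB2q0) (n2 := ndB4q3) (pc := pcB2) (cut := Cut.none) (xt := Ext.none) (P1 := 0) (W1 := 536870912) (P2 := 0) (W2 := 1230186008) (P3 := 1033476505) (W3 := 6710887) (N0 := 3) (En := eng) (mo := mog) (C1 := cd2q0) (C2 := cd4q3) (C3 := pd2)
    rfl k0_mm_023

noncomputable def f_mm_033 : ℕ → ℕ → ℕ → ℕ → Bool := onCell 0 536870912 0 1230186008 1033476505 6710887
    (rowB 3 eng mog cd2q0 cd4q3 pd3 0 false false false .pnn 0 3 3 (qsf 0 536870912 0 1230186008 3) ndB2q0 ndB4q3 pcB3 Cut.none Ext.none)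

def k0_mm_033 : ∃ t, chk3 f_mm_033 t 1 1 1 = true :=
  ⟨(l 5), by decide +kernel⟩

theorem c_mm_033 : CertB 0 536870912 0 1230186008 1033476505 6710887 3 eng mog cd2q0 cd4q3 pd3 false false false .pnn 0 3 3
    ndB2q0 ndB4q3 pcB3 Cut.none Ext.none :=
  certB0 (fam := false) (s1 := false) (s2 := false) (a := 0) (b := 3) (c := 3) (cn := .pnn) (n1 := ndB2q0) (n2 := ndB4q3) (pc := pcB3) (cut := Cut.none) (xt := Ext.none) (P1 := 0) (W1 := 536870912) (P2 := 0) (W2 := 1230186008) (P3 := 1033476505) (W3 := 6710887) (N0 := 3) (En := eng) (mo := mog) (C1 := cd2q0) (C2 := cd4q3) (C3 := pd3)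
    rfl k0_mm_033

noncomputable def f_mm_101 : ℕ → ℕ → ℕ → ℕ → Bool := onCell 536870912 536870912 536870912 536870912 1033476505 6710887
    (rowB 3 eng mog cd2q1 cd4q1 pd0 0 false false false .npn 1 0 1 (qsf 536870912 536870912 536870912 536870912 0) ndB2q1 ndB4q1 pcB0 Cut.none Ext.none)

def k0_mm_101 : ∃ t, chk3 f_mm_101 t 1 1 1 = true :=
  ⟨(l 3), by decide +kernel⟩

theorem c_mm_101 : CertB 536870912 536870912 536870912 536870912 1033476505 6710887 3 eng mog cd2q1 cd4q1 pd0 false false false .npn 1 0 1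
    ndB2q1 ndB4q1 pcB0 Cut.none Ext.none :=
  certB0 (fam := false) (s1 := false) (s2 := false) (a := 1) (b := 0) (c := 1) (cn := .npn) (n1 := ndB2q1) (n2 := ndB4q1) (pc := pcB0) (cut := Cut.none) (xt := Ext.none) (P1 := 536870912) (W1 := 536870912) (P2 := 536870912) (W2 := 536870912) (P3 := 1033476505) (W3 := 6710887) (N0 := 3) (En := eng) (mo := mog) (C1 := cd2q1) (C2 := cd4q1) (C3 := pd0)
    rfl k0_mm_101

noncomputable def f_mm_102 : ℕ → ℕ → ℕ → ℕ → Bool := onCell 536870912 536870912 1073741824 536870912 1033476505 6710887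
    (rowB 3 eng mog cd2q1 cd4q2 pd0 0 false false false .npp 1 0 2 (qsf 536870912 536870912 1073741824 536870912 0) ndB2q1 ndB4q2 pcB0 Cut.none Ext.none)

def k0_mm_102 : ∃ t, chk3 f_mm_102 t 1 1 1 = true :=
  ⟨(l 3), by decide +kernel⟩

theorem c_mm_102 : CertB 536870912 536870912 1073741824 536870912 1033476505 6710887 3 eng mog cd2q1 cd4q2 pd0 false false false .npp 1 0 2
    ndB2q1 ndB4q2 pcB0 Cut.none Ext.none :=
  certB0 (fam := false) (s1 := false) (s2 := false) (a := 1) (b := 0) (c := 2) (cn := .npp) (n1 := ndB2q1) (n2 := ndB4q2) (pc := pcB0) (cut := Cut.none) (xt := Ext.none) (P1 := 536870912) (W1 := 536870912) (P2 := 1073741824) (W2 := 536870912) (P3 := 1033476505) (W3 := 6710887) (N0 := 3) (En := eng) (mo := mog) (C1 := cd2q1) (C2 := cd4q2) (C3 := pd0)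
    rfl k0_mm_102

noncomputable def f_mm_112 : ℕ → ℕ → ℕ → ℕ → Bool := onCell 536870912 536870912 1073741824 536870912 1033476505 6710887
    (rowB 3 eng mog cd2q1 cd4q2 pd1 0 false false false .dn 1 1 2 (qsf 536870912 536870912 1073741824 536870912 1) ndB2q1 ndB4q2 pcB1 Cut.none Ext.none)

def k0_mm_112 : ∃ t, chk3 f_mm_112 t 1 1 1 = true :=
  ⟨(l 3), by decide +kernel⟩

theorem c_mm_112 : CertB 536870912 536870912 1073741824 536870912 1033476505 6710887 3 eng mog cd2q1 cd4q2 pd1 false false false .dn 1 1 2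
    ndB2q1 ndB4q2 pcB1 Cut.none Ext.none :=
  certB0 (fam := false) (s1 := false) (s2 := false) (a := 1) (b := 1) (c := 2) (cn := .dn) (n1 := ndB2q1) (n2 := ndB4q2) (pc := pcB1) (cut := Cut.none) (xt := Ext.none) (P1 := 536870912) (W1 := 536870912) (P2 := 1073741824) (W2 := 536870912) (P3 := 1033476505) (W3 := 6710887) (N0 := 3) (En := eng) (mo := mog) (C1 := cd2q1) (C2 := cd4q2) (C3 := pd1)
    rfl k0_mm_112

noncomputable def f_mm_113 : ℕ → ℕ → ℕ → ℕ → Bool := onCell 536870912 536870912 0 1230186008 1033476505 6710887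
    (rowB 3 eng mog cd2q1 cd4q3 pd1 0 false false false .nn 1 1 3 (qsf 536870912 536870912 0 1230186008 1) ndB2q1 ndB4q3 pcB1 Cut.none Ext.none)

def k0_mm_113 : ∃ t, chk3 f_mm_113 t 1 1 1 = true :=
  ⟨(l 5), by decide +kernel⟩

theorem c_mm_113 : CertB 536870912 536870912 0 1230186008 1033476505 6710887 3 eng mog cd2q1 cd4q3 pd1 false false false .nn 1 1 3
    ndB2q1 ndB4q3 pcB1 Cut.none Ext.none :=
  certB0 (fam := false) (s1 := false) (s2 := false) (a := 1) (b := 1) (c := 3) (cn := .nn) (n1 := ndB2q1) (n2 := ndB4q3) (pc := pcB1) (cut := Cut.none) (xt := Ext.none) (P1 := 536870912) (W1 := 536870912) (P2 := 0) (W2 := 1230186008) (P3 := 1033476505) (W3 := 6710887) (N0 := 3) (En := eng) (mo := mog) (C1 := cd2q1) (C2 := cd4q3) (C3 := pd1)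
    rfl k0_mm_113

noncomputable def f_mm_123 : ℕ → ℕ → ℕ → ℕ → Bool := onCell 536870912 536870912 0 1230186008 1033476505 6710887
    (rowB 3 eng mog cd2q1 cd4q3 pd2 0 false false false .npn 1 2 3 (qsf 536870912 536870912 0 1230186008 2) ndB2q1 ndB4q3 pcB2 Cut.none Ext.none)

def k0_mm_123 : ∃ t, chk3 f_mm_123 t 1 1 1 = true :=
  ⟨(l 5), by decide +kernel⟩

theorem c_mm_123 : CertB 536870912 536870912 0 1230186008 1033476505 6710887 3 eng mog cd2q1 cd4q3 pd2 false false false .npn 1 2 3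
    ndB2q1 ndB4q3 pcB2 Cut.none Ext.none :=
  certB0 (fam := false) (s1 := false) (s2 := false) (a := 1) (b := 2) (c := 3) (cn := .npn) (n1 := ndB2q1) (n2 := ndB4q3) (pc := pcB2) (cut := Cut.none) (xt := Ext.none) (P1 := 536870912) (W1 := 536870912) (P2 := 0) (W2 := 1230186008) (P3 := 1033476505) (W3 := 6710887) (N0 := 3) (En := eng) (mo := mog) (C1 := cd2q1) (C2 := cd4q3) (C3 := pd2)
    rfl k0_mm_123

noncomputable def f_mm_133 : ℕ → ℕ → ℕ → ℕ → Bool := onCell 536870912 536870912 0 1230186008 1033476505 6710887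
    (rowB 3 eng mog cd2q1 cd4q3 pd3 0 false false false .dn 1 3 3 (qsf 536870912 536870912 0 1230186008 3) ndB2q1 ndB4q3 pcB3 Cut.none Ext.none)

def k0_mm_133 : ∃ t, chk3 f_mm_133 t 1 1 1 = true :=
  ⟨(l 5), by decide +kernel⟩

theorem c_mm_133 : CertB 536870912 536870912 0 1230186008 1033476505 6710887 3 eng mog cd2q1 cd4q3 pd3 false false false .dn 1 3 3
    ndB2q1 ndB4q3 pcB3 Cut.none Ext.none :=
  certB0 (fam := false) (s1 := false) (s2 := false) (a := 1) (b := 3) (c := 3) (cn := .dn) (n1 := ndB2q1) (n2 := ndB4q3) (pc := pcB3) (cut := Cut.none) (xt := Ext.none) (P1 := 536870912) (W1 := 536870912) (P2 := 0) (W2 := 1230186008) (P3 := 1033476505) (W3 := 6710887) (N0 := 3) (En := eng) (mo := mog) (C1 := cd2q1) (C2 := cd4q3) (C3 := pd3)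
    rfl k0_mm_133

noncomputable def f_mm_202_a : ℕ → ℕ → ℕ → ℕ → Bool := onCell 0 536870912 1073741824 536870912 1033476505 6710887
    (rowB 3 eng mog cd2q2a cd4q2 pd0 0 false false false .pp 2 0 2 (qsf 0 536870912 1073741824 536870912 0) ndB2q2a ndB4q2 pcB0 Cut.none Ext.none)

def k0_mm_202_a : ∃ t, chk3 f_mm_202_a t 1 1 1 = true :=
  ⟨(l 3), by decide +kernel⟩

theorem c_mm_202_a : CertB 0 536870912 1073741824 536870912 1033476505 6710887 3 eng mog cd2q2a cd4q2 pd0 false false false .pp 2 0 2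
    ndB2q2a ndB4q2 pcB0 Cut.none Ext.none :=
  certB0 (fam := false) (s1 := false) (s2 := false) (a := 2) (b := 0) (c := 2) (cn := .pp) (n1 := ndB2q2a) (n2 := ndB4q2) (pc := pcB0) (cut := Cut.none) (xt := Ext.none) (P1 := 0) (W1 := 536870912) (P2 := 1073741824) (W2 := 536870912) (P3 := 1033476505) (W3 := 6710887) (N0 := 3) (En := eng) (mo := mog) (C1 := cd2q2a) (C2 := cd4q2) (C3 := pd0)
    rfl k0_mm_202_a

noncomputable def f_mm_202_b : ℕ → ℕ → ℕ → ℕ → Bool := onCell 1239849684 370763052 1073741824 536870912 1033476505 6710887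
    (rowB 3 eng mog cd2q2b cd4q2 pd0 0 false false false .pp 2 0 2 (qsf 1239849684 370763052 1073741824 536870912 0) ndB2q2b ndB4q2 pcB0 Cut.none Ext.none)

def k0_mm_202_b : ∃ t, chk3 f_mm_202_b t 1 1 1 = true :=
  ⟨(b (a (l 3) (l 1)) (l 3)), by decide +kernel⟩

theorem c_mm_202_b : CertB 1239849684 370763052 1073741824 536870912 1033476505 6710887 3 eng mog cd2q2b cd4q2 pd0 false false false .pp 2 0 2
    ndB2q2b ndB4q2 pcB0 Cut.none Ext.none :=
  certB0 (fam := false) (s1 := false) (s2 := false) (a := 2) (b := 0) (c := 2) (cn := .pp) (n1 := ndB2q2b) (n2 := ndB4q2) (pc := pcB0) (cut := Cut.none) (xt := Ext.none) (P1 := 1239849684) (W1 := 370763052) (P2 := 1073741824) (W2 := 536870912) (P3 := 1033476505) (W3 := 6710887) (N0 := 3) (En := eng) (mo := mog) (C1 := cd2q2b) (C2 := cd4q2) (C3 := pd0)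
    rfl k0_mm_202_b

noncomputable def f_mm_203_a : ℕ → ℕ → ℕ → ℕ → Bool := onCell 0 536870912 0 1230186008 1033476505 6710887
    (rowB 3 eng mog cd2q2a cd4q3 pd0 0 false false false .up 2 0 3 (qsf 0 536870912 0 1230186008 0) ndB2q2a ndB4q3 pcB0 Cut.none Ext.none)

def k0_mm_203_a : ∃ t, chk3 f_mm_203_a t 1 1 1 = true :=
  ⟨(b (l 2) (l 3)), by decide +kernel⟩

theorem c_mm_203_a : CertB 0 536870912 0 1230186008 1033476505 6710887 3 eng mog cd2q2a cd4q3 pd0 false false false .up 2 0 3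
    ndB2q2a ndB4q3 pcB0 Cut.none Ext.none :=
  certB0 (fam := false) (s1 := false) (s2 := false) (a := 2) (b := 0) (c := 3) (cn := .up) (n1 := ndB2q2a) (n2 := ndB4q3) (pc := pcB0) (cut := Cut.none) (xt := Ext.none) (P1 := 0) (W1 := 536870912) (P2 := 0) (W2 := 1230186008) (P3 := 1033476505) (W3 := 6710887) (N0 := 3) (En := eng) (mo := mog) (C1 := cd2q2a) (C2 := cd4q3) (C3 := pd0)
    rfl k0_mm_203_a

noncomputable def f_mm_203_b : ℕ → ℕ → ℕ → ℕ → Bool := onCell 1239849684 370763052 0 1230186008 1033476505 6710887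
    (rowB 3 eng mog cd2q2b cd4q3 pd0 0 false false false .up 2 0 3 (qsf 1239849684 370763052 0 1230186008 0) ndB2q2b ndB4q3 pcB0 Cut.none Ext.none)

def k0_mm_203_b : ∃ t, chk3 f_mm_203_b t 1 1 1 = true :=
  ⟨(b (l 3) (l 3)), by decide +kernel⟩

theorem c_mm_203_b : CertB 1239849684 370763052 0 1230186008 1033476505 6710887 3 eng mog cd2q2b cd4q3 pd0 false false false .up 2 0 3
    ndB2q2b ndB4q3 pcB0 Cut.none Ext.none :=
  certB0 (fam := false) (s1 := false) (s2 := false) (a := 2) (b := 0) (c := 3) (cn := .up) (n1 := ndB2q2b) (n2 := ndB4q3) (pc := pcB0) (cut := Cut.none) (xt := Ext.none) (P1 := 1239849684) (W1 := 370763052) (P2 := 0) (W2 := 1230186008) (P3 := 1033476505) (W3 := 6710887) (N0 := 3) (En := eng) (mo := mog) (C1 := cd2q2b) (C2 := cd4q3) (C3 := pd0)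
    rfl k0_mm_203_b

noncomputable def f_mm_213_a : ℕ → ℕ → ℕ → ℕ → Bool := onCell 0 536870912 0 1230186008 1033476505 6710887
    (rowB 3 eng mog cd2q2a cd4q3 pd1 0 false false false .pnn 2 1 3 (qsf 0 536870912 0 1230186008 1) ndB2q2a ndB4q3 pcB1 Cut.none Ext.none)

def k0_mm_213_a : ∃ t, chk3 f_mm_213_a t 1 1 1 = true :=
  ⟨(b (b (l 5) (l 3)) (l 3)), by decide +kernel⟩

theorem c_mm_213_a : CertB 0 536870912 0 1230186008 1033476505 6710887 3 eng mog cd2q2a cd4q3 pd1 false false false .pnn 2 1 3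
    ndB2q2a ndB4q3 pcB1 Cut.none Ext.none :=
  certB0 (fam := false) (s1 := false) (s2 := false) (a := 2) (b := 1) (c := 3) (cn := .pnn) (n1 := ndB2q2a) (n2 := ndB4q3) (pc := pcB1) (cut := Cut.none) (xt := Ext.none) (P1 := 0) (W1 := 536870912) (P2 := 0) (W2 := 1230186008) (P3 := 1033476505) (W3 := 6710887) (N0 := 3) (En := eng) (mo := mog) (C1 := cd2q2a) (C2 := cd4q3) (C3 := pd1)
    rfl k0_mm_213_a

noncomputable def f_mm_213_b : ℕ → ℕ → ℕ → ℕ → Bool := onCell 1239849684 370763052 0 1230186008 1033476505 6710887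
    (rowB 3 eng mog cd2q2b cd4q3 pd1 0 false false false .pnn 2 1 3 (qsf 1239849684 370763052 0 1230186008 1) ndB2q2b ndB4q3 pcB1 Cut.none Ext.none)

def k0_mm_213_b : ∃ t, chk3 f_mm_213_b t 1 1 1 = true :=
  ⟨(b (l 3) (l 3)), by decide +kernel⟩

theorem c_mm_213_b : CertB 1239849684 370763052 0 1230186008 1033476505 6710887 3 eng mog cd2q2b cd4q3 pd1 false false false .pnn 2 1 3
    ndB2q2b ndB4q3 pcB1 Cut.none Ext.none :=
  certB0 (fam := false) (s1 := false) (s2 := false) (a := 2) (b := 1) (c := 3) (cn := .pnn) (n1 := ndB2q2b) (n2 := ndB4q3) (pc := pcB1) (cut := Cut.none) (xt := Ext.none) (P1 := 1239849684) (W1 := 370763052) (P2 := 0) (W2 := 1230186008) (P3 := 1033476505) (W3 := 6710887) (N0 := 3) (En := eng) (mo := mog) (C1 := cd2q2b) (C2 := cd4q3) (C3 := pd1)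
    rfl k0_mm_213_b

noncomputable def f_mm_303 : ℕ → ℕ → ℕ → ℕ → Bool := onCell 0 536870912 0 1230186008 1033476505 6710887
    (rowB 3 eng mog cd2q3 cd4q3 pd0 2 false false false .npn 3 0 3 (qsf 1610612736 536870912 0 1230186008 0) ndB2q3 ndB4q3 pcB0 Cut.none Ext.none)

def k0_mm_303 : ∃ t, chk3 f_mm_303 t 1 1 1 = true :=
  ⟨(b (l 3) (l 3)), by decide +kernel⟩

theorem c_mm_303 : CertB 1610612736 536870912 0 1230186008 1033476505 6710887 3 eng mog cd2q3 cd4q3 pd0 false false false .npn 3 0 3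
    ndB2q3 ndB4q3 pcB0 Cut.none Ext.none :=
  certB2 (fam := false) (s1 := false) (s2 := false) (a := 3) (b := 0) (c := 3) (cn := .npn) (n1 := ndB2q3) (n2 := ndB4q3) (pc := pcB0) (cut := Cut.none) (xt := Ext.none) (P1 := 1610612736) (W1 := 536870912) (P2 := 0) (W2 := 1230186008) (P3 := 1033476505) (W3 := 6710887) (N0 := 3) (En := eng) (mo := mog) (C1 := cd2q3) (C2 := cd4q3) (C3 := pd0)
    rfl (fun _ => rfl) k0_mm_303

noncomputable def f_mm_313 : ℕ → ℕ → ℕ → ℕ → Bool := onCell 1610612736 536870912 0 1230186008 1033476505 6710887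
    (rowB 3 eng mog cd2q3 cd4q3 pd1 0 false false false .dn 3 1 3 (qsf 1610612736 536870912 0 1230186008 1) ndB2q3 ndB4q3 pcB1 Cut.none Ext.none)

def k0_mm_313 : ∃ t, chk3 f_mm_313 t 1 1 1 = true :=
  ⟨(b (l 3) (l 1)), by decide +kernel⟩

theorem c_mm_313 : CertB 1610612736 536870912 0 1230186008 1033476505 6710887 3 eng mog cd2q3 cd4q3 pd1 false false false .dn 3 1 3
    ndB2q3 ndB4q3 pcB1 Cut.none Ext.none :=
  certB0 (fam := false) (s1 := false) (s2 := false) (a := 3) (b := 1) (c := 3) (cn := .dn) (n1 := ndB2q3) (n2 := ndB4q3) (pc := pcB1) (cut := Cut.none) (xt := Ext.none) (P1 := 1610612736) (W1 := 536870912) (P2 := 0) (W2 := 1230186008) (P3 := 1033476505) (W3 := 6710887) (N0 := 3) (En := eng) (mo := mog) (C1 := cd2q3) (C2 := cd4q3) (C3 := pd1)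
    rfl k0_mm_313

end Pool.Agent.Strip051.G.I9625_9688.Tab.C.BB24

namespace Pool.Agent.Strip051.G.I9625_9688.Tab.C.BB25

open Pool.Agent.Strip051.PB Pool.Agent.Strip051.PB.T
open Pool.Agent.Strip051.G.I9625_9688.Tab

noncomputable def f_pp_001 : ℕ → ℕ → ℕ → ℕ → Bool := onCell 0 536870912 0 536870912 1033476505 6710887
    (rowB 3 eng mog cd2q0 cd5q1 pd0 1 false true true .up 0 0 1 (qsf 0 536870912 536870912 536870912 0) ndB2q0 ndB5q1 pcB0 Cut.none Ext.none)

def k0_pp_001 : ∃ t, chk3 f_pp_001 t 1 1 1 = true :=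
  ⟨(l 3), by decide +kernel⟩

theorem c_pp_001 : CertB 0 536870912 536870912 536870912 1033476505 6710887 3 eng mog cd2q0 cd5q1 pd0 false true true .up 0 0 1
    ndB2q0 ndB5q1 pcB0 Cut.none Ext.none :=
  certB1 (fam := false) (s1 := true) (s2 := true) (a := 0) (b := 0) (c := 1) (cn := .up) (n1 := ndB2q0) (n2 := ndB5q1) (pc := pcB0) (cut := Cut.none) (xt := Ext.none) (P1 := 0) (W1 := 536870912) (P2 := 536870912) (W2 := 536870912) (P3 := 1033476505) (W3 := 6710887) (N0 := 3) (En := eng) (mo := mog) (C1 := cd2q0) (C2 := cd5q1) (C3 := pd0)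
    rfl (fun _ => rfl) k0_pp_001

noncomputable def cut_pp_011 : Cut := Cut.of [[⟨0, 0, 0, 33554432⟩, ⟨1, 1, 0, 33554432⟩, ⟨2, 1, 0, 33554432⟩]]

noncomputable def f_pp_011 : ℕ → ℕ → ℕ → ℕ → Bool := onCell 0 536870912 536870912 536870912 1033476505 6710887
    (rowB 3 eng mog cd2q0 cd5q1 pd1 1 false true true .pnn 0 1 1 (qsf 0 536870912 536870912 536870912 1) ndB2q0 ndB5q1 pcB1 cut_pp_011 Ext.none)

def k0_pp_011 : ∃ t, chk3 f_pp_011 t 1 1 1 = true :=
  ⟨(a (b (l 3) (b (l 3) (b (l 3) (b (l 3) (a (a (a (a (b (l 3) (l 6)) (l 3)) (l 3)) (l 2)) (l 2)))))) (l 3)), by decide +kernel⟩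

theorem c_pp_011 : CertB 0 536870912 536870912 536870912 1033476505 6710887 3 eng mog cd2q0 cd5q1 pd1 false true true .pnn 0 1 1
    ndB2q0 ndB5q1 pcB1 cut_pp_011 Ext.none :=
  certB1 (fam := false) (s1 := true) (s2 := true) (a := 0) (b := 1) (c := 1) (cn := .pnn) (n1 := ndB2q0) (n2 := ndB5q1) (pc := pcB1) (cut := cut_pp_011) (xt := Ext.none) (P1 := 0) (W1 := 536870912) (P2 := 536870912) (W2 := 536870912) (P3 := 1033476505) (W3 := 6710887) (N0 := 3) (En := eng) (mo := mog) (C1 := cd2q0) (C2 := cd5q1) (C3 := pd1)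
    rfl (fun _ => rfl) k0_pp_011

noncomputable def cut_pp_012 : Cut := Cut.of [[⟨0, 0, 0, 33554432⟩, ⟨1, 1, 0, 33554432⟩, ⟨2, 1, 0, 33554432⟩]]

noncomputable def f_pp_012 : ℕ → ℕ → ℕ → ℕ → Bool := onCell 0 536870912 536870912 536870912 1033476505 6710887
    (rowB 3 eng mog cd2q0 cd5q2 pd1 1 false true true .pnp 0 1 2 (qsf 0 536870912 1073741824 536870912 1) ndB2q0 ndB5q2 pcB1 cut_pp_012 Ext.none)

def k0_pp_012 : ∃ t, chk3 f_pp_012 t 1 1 1 = true :=
  ⟨(a (b (l 3) (b (l 3) (b (l 3) (a (b (l 3) (a (a (a (b (l 3) (l 6)) (l 3)) (l 3)) (l 3))) (l 3))))) (l 3)), by decide +kernel⟩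

theorem c_pp_012 : CertB 0 536870912 1073741824 536870912 1033476505 6710887 3 eng mog cd2q0 cd5q2 pd1 false true true .pnp 0 1 2
    ndB2q0 ndB5q2 pcB1 cut_pp_012 Ext.none :=
  certB1 (fam := false) (s1 := true) (s2 := true) (a := 0) (b := 1) (c := 2) (cn := .pnp) (n1 := ndB2q0) (n2 := ndB5q2) (pc := pcB1) (cut := cut_pp_012) (xt := Ext.none) (P1 := 0) (W1 := 536870912) (P2 := 1073741824) (W2 := 536870912) (P3 := 1033476505) (W3 := 6710887) (N0 := 3) (En := eng) (mo := mog) (C1 := cd2q0) (C2 := cd5q2) (C3 := pd1)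
    rfl (fun _ => rfl) k0_pp_012

noncomputable def cut_pp_022 : Cut := Cut.of [[⟨0, 0, 0, 33554432⟩, ⟨1, 1, 0, 33554432⟩, ⟨2, 1, 0, 33554432⟩]]

noncomputable def f_pp_022 : ℕ → ℕ → ℕ → ℕ → Bool := onCell 0 536870912 1073741824 536870912 1033476505 6710887
    (rowB 3 eng mog cd2q0 cd5q2 pd2 1 false true true .pp 0 2 2 (qsf 0 536870912 1073741824 536870912 2) ndB2q0 ndB5q2 pcB2 cut_pp_022 Ext.none)

def k0_pp_022 : ∃ t, chk3 f_pp_022 t 8 16 1 = true :=
  ⟨(a (b (a (a (l 6) (a (l 6) (a (l 6) (l 3)))) (l 3)) (a (a (b (a (l 6) (b (l 6) (l 16721032))) (a (a (l 16692592) (l 16691536)) (l 16679888))) (b (b (a (b (l 6) (a (l 6) (l 16746608))) (b (b (l 16730456) (l 16727840)) (l 16723904))) (a (a (l 16732864) (l 16741272)) (b (l 16718576) (a (l 16738640) (l 16736184))))) (a (l 16714728) (b (a (l 16734560) (l 16737016)) (l 16719216))))) (b (a (b (l 3) (b (l 416242626423) (l 18958145271))) (l 3)) (b (a (b (b (l 16722472) (l 16699520)) (a (l 16735000) (l 16739280)))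 (l 3)) (a (a (a (l 16723064) (l 16729872)) (b (l 16735544) (l 16733816))) (b (l 3) (a (l 16737688) (l 3)))))))) (l 3)), by decide +kernel⟩

def k1_pp_022 : ∃ t, chk3 f_pp_022 t 8 17 1 = true :=
  ⟨(b (a (a (a (a (b (l 16673872) (l 16659888)) (b (l 16676520) (l 16656536))) (b (l 16670728) (l 16667736))) (b (b (a (a (l 16707768) (l 16716560)) (a (l 16730224) (b (l 3) (l 16732160)))) (a (a (l 16690400) (a (l 16691192) (l 16673632))) (a (l 16711344) (l 16726824)))) (b (a (a (l 16677128) (l 16675736)) (a (l 16660664) (l 16704600))) (a (l 16662816) (a (l 16658968) (l 16668256)))))) (a (a (b (b (l 3) (a (l 16728192) (l 3))) (b (a (l 16720392) (l 16720832)) (a (l 16687888) (l 16699464)))) (b (l 3) (b (l 3) (b (l 3) (l 16686520))))) (l 3))) (a (a (a (a (l 16643144) (l 16591008)) (l 16595592)) (a (l 16612728) (b (b (l 16622168) (l 16626664)) (l 16606928)))) (a (b (b (a (l 16654664) (b (l 16671560) (l 16654240))) (a (l 16620216) (l 16624536))) (b (a (l 16597464)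 (l 16587512)) (a (l 16580392) (l 16558016)))) (b (b (l 3) (a (l 16609552) (l 3))) (b (a (l 16571032) (l 3)) (a (l 16530520) (l 16502392))))))), by decide +kernel⟩

def k2_pp_022 : ∃ t, chk3 f_pp_022 t 8 9 1 = true :=
  ⟨(b (a (a (b (a (l 16618576) (a (l 16579520) (l 16598464))) (a (l 16598152) (a (l 16574568) (l 16537120)))) (b (a (l 16588632) (l 16568312)) (a (b (l 16551168) (l 16521168)) (l 16445440)))) (b (b (a (a (l 16558488) (b (l 16537392) (l 16518696))) (a (l 16444664) (b (l 16464168) (l 16435992)))) (a (a (l 16524968) (l 16495512)) (a (b (l 16465336) (l 16458712)) (l 16421512)))) (a (b (l 16441280) (l 16460488)) (b (a (l 16452208) (b (l 16437864) (l 16452240))) (a (l 16459424) (l 16447984)))))) (a (a (a (b (b (l 16563864) (l 16545752)) (l 16424136)) (b (l 16471960) (l 16502616))) (a (b (b (l 16496232) (l 16476256)) (b (l 16479024) (l 16506112))) (b (l 16459640) (b (l 16464440) (l 16488280))))) (b (a (b (l 16438392) (l 16447128)) (b (l 16417800)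 (l 16513408))) (a (a (b (l 16477400) (l 16503880)) (l 16516960)) (l 16558304))))), by decide +kernel⟩

def k3_pp_022 : ∃ t, chk3 f_pp_022 t 8 5 1 = true :=
  ⟨(b (b (a (b (a (b (a (l 16452136) (l 16471792)) (a (l 16387232) (l 16395616))) (b (a (l 16497184) (l 16522560)) (l 16401008))) (b (a (a (l 16304792) (l 16302096)) (l 16324208)) (b (a (l 16226104) (l 16239512)) (a (b (l 16175408) (l 16139640)) (b (l 16184888) (l 16145240)))))) (b (a (b (l 16529104) (l 16454608)) (l 16470216)) (b (a (l 16359040) (l 16361008)) (b (a (l 16268832) (l 16292800)) (b (l 16222984) (l 16180936)))))) (a (a (b (l 16066400) (l 15948984)) (b (l 16069888) (l 15955120))) (a (b (l 16095208) (l 15985016)) (l 16066312)))) (a (b (a (b (l 15834512) (l 15725128)) (l 15793336)) (a (l 15575896) (l 15608160))) (b (a (l 15834304) (l 15877664)) (a (l 15671640) (l 15709192))))), by decide +kernel⟩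

def k4_pp_022 : ∃ t, chk3 f_pp_022 t 9 2 1 = true :=
  ⟨(b (b (l 3) (b (a (a (a (b (b (b (l 3) (l 16418600)) (b (l 16401696) (l 16398480))) (b (l 16421304) (l 16436480))) (b (b (l 3) (l 16401720)) (b (l 16407704) (l 16463448)))) (b (l 3) (b (a (l 16410840) (l 3)) (a (l 16447232) (l 16445944))))) (b (l 3) (b (l 3) (a (a (l 16461952) (l 3)) (l 3))))) (b (a (b (a (a (l 16518248) (l 16490824)) (l 16523304)) (a (l 16563832) (l 16456368))) (b (a (b (l 16498976) (l 16533648)) (l 3)) (a (l 16603952) (l 16618496)))) (a (a (l 16572416) (b (l 16580488) (l 16509720))) (b (a (l 16564496) (l 16568648)) (a (l 16486608) (l 16473392))))))) (b (b (b (a (a (l 16437888) (l 16408616)) (b (a (l 16417360) (l 16400848)) (l 16343512))) (a (b (l 16322224) (b (l 16268696) (b (l 16236560) (l 16107032)))) (b (l 16280928) (l 16222176)))) (a (a (l 16050016) (l 16094336)) (l 16049744))) (a (b (a (l 15895016) (l 15902312)) (l 15744592)) (b (l 15936480) (l 15852648))))), by decide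 +kernel⟩

def k5_pp_022 : ∃ t, chk3 f_pp_022 t 5 2 1 = true :=
  ⟨(a (b (b (l 3) (b (l 3) (b (l 3) (a (b (a (l 16563136) (l 3)) (l 16311632)) (l 3))))) (a (b (b (b (b (a (l 16396192) (l 16400544)) (l 16333872)) (b (l 16280352) (l 16227200))) (l 16134080)) (b (l 16050976) (l 16007312))) (b (b (b (b (l 16411728) (l 16368792)) (b (l 16329648) (b (l 16305824) (l 16288032)))) (l 16250952)) (b (l 16208416) (l 16202504))))) (b (l 3) (b (b (b (a (b (l 3) (l 16467600)) (l 3)) (b (a (l 16447824) (l 16613648)) (b (a (l 16438384) (l 16608864)) (a (l 16431448) (l 16605936))))) (a (l 16323800) (l 16597488))) (a (l 16354168) (l 16577712))))), by decide +kernel⟩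

def k6_pp_022 : ∃ t, chk3 f_pp_022 t 2 3 1 = true :=
  ⟨(a (b (a (b (a (b (a (l 15415088) (l 15474096)) (a (l 15312616) (l 15384280))) (b (a (l 15538544) (l 15577488)) (l 15477648))) (a (b (a (l 15277568) (l 15333248)) (a (l 15254552) (l 15305808))) (b (l 15429456) (l 15415328)))) (b (a (b (l 15659912) (l 15613392)) (b (l 15807640) (l 15798192))) (a (l 15592544) (l 15770096)))) (a (b (a (l 15248696) (l 15379040)) (a (l 15187048) (l 15315016))) (b (a (l 15543928) (l 15715336)) (a (l 15470400) (l 2))))) (b (a (b (a (l 15993152) (l 16177976)) (a (l 15951464) (l 16136848))) (b (a (l 16363984) (l 16548528)) (a (l 16324056) (l 2)))) (a (b (a (l 15895624) (l 2)) (l 2)) (l 2)))), by decide +kernel⟩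

def k7_pp_022 : ∃ t, chk3 f_pp_022 t 3 1 1 = true :=
  ⟨(b (a (b (l 3) (b (b (b (l 3) (b (l 3) (b (a (l 16683576) (l 16423520)) (a (l 16682728) (l 16425256))))) (a (l 16679680) (l 16429256))) (a (a (l 16718528) (l 16665512)) (a (l 16501672) (l 2))))) (b (l 3) (b (b (b (a (l 3) (l 2)) (l 2)) (l 2)) (l 2)))) (a (b (a (b (a (l 16728752) (l 2)) (l 2)) (l 2)) (l 2)) (l 2))), by decide +kernel⟩

theorem s8_pp_022 : ∃ t, chk3 f_pp_022 t 8 8 1 = true := ex3_b k0_pp_022 k1_pp_022

theorem s9_pp_022 : ∃ t, chk3 f_pp_022 t 8 4 1 = true := ex3_b s8_pp_022 k2_pp_022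

theorem s10_pp_022 : ∃ t, chk3 f_pp_022 t 8 2 1 = true := ex3_b s9_pp_022 k3_pp_022

theorem s11_pp_022 : ∃ t, chk3 f_pp_022 t 4 2 1 = true := ex3_a s10_pp_022 k4_pp_022

theorem s12_pp_022 : ∃ t, chk3 f_pp_022 t 2 2 1 = true := ex3_a s11_pp_022 k5_pp_022

theorem s13_pp_022 : ∃ t, chk3 f_pp_022 t 2 1 1 = true := ex3_b s12_pp_022 k6_pp_022

theorem s14_pp_022 : ∃ t, chk3 f_pp_022 t 1 1 1 = true := ex3_a s13_pp_022 k7_pp_022

theorem c_pp_022 : CertB 0 536870912 1073741824 536870912 1033476505 6710887 3 eng mog cd2q0 cd5q2 pd2 false true true .pp 0 2 2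
    ndB2q0 ndB5q2 pcB2 cut_pp_022 Ext.none :=
  certB1 (fam := false) (s1 := true) (s2 := true) (a := 0) (b := 2) (c := 2) (cn := .pp) (n1 := ndB2q0) (n2 := ndB5q2) (pc := pcB2) (cut := cut_pp_022) (xt := Ext.none) (P1 := 0) (W1 := 536870912) (P2 := 1073741824) (W2 := 536870912) (P3 := 1033476505) (W3 := 6710887) (N0 := 3) (En := eng) (mo := mog) (C1 := cd2q0) (C2 := cd5q2) (C3 := pd2)
    rfl (fun _ => rfl) s14_pp_022

noncomputable def f_pp_023 : ℕ → ℕ → ℕ → ℕ → Bool := onCell 1073741824 536870912 0 1230186008 1033476505 6710887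
    (rowB 3 eng mog cd2q0 cd5q3 pd2 2 false true true .up 0 2 3 (qsf 0 536870912 0 1230186008 2) ndB2q0 ndB5q3 pcB2 Cut.none Ext.none)

def k0_pp_023 : ∃ t, chk3 f_pp_023 t 1 1 1 = true :=
  ⟨(b (a (l 2) (a (l 2) (b (a (l 2) (b (l 16302008) (b (l 16348584) (l 15929648)))) (b (l 16009040) (l 16206160))))) (b (a (a (l 2) (b (l 2) (a (l 2) (l 16166320)))) (a (b (b (l 16348080) (l 16359400)) (b (l 16354048) (l 16190592))) (b (a (l 16424616) (l 16367328)) (a (l 16539472) (l 16562288))))) (a (a (b (l 2) (l 3)) (a (b (b (a (l 2) (l 15911872)) (a (a (l 15894280) (a (l 15905240) (l 15921672))) (l 15943160))) (a (a (b (l 15972960) (l 3)) (a (b (l 16012504) (l 16220568)) (b (a (l 16027920) (l 16043224)) (a (l 16246272) (l 16266608))))) (b (l 16090272) (l 16339016)))) (b (b (l 15921856) (l 16011592)) (b (l 16236944) (l 16507608))))) (b (a (b (a (l 16008384) (l 16180240)) (a (l 16177272) (l 16428936))) (b (a (l 16434224) (l 16502072)) (a (l 16530976) (l 16141024))))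 (a (b (a (l 16501816) (l 16636656)) (a (l 16533464) (b (l 16354816) (l 16148392)))) (b (a (l 16069272) (l 15665600)) (a (b (l 15927040) (l 15728200)) (b (l 15500976) (l 15274712))))))))), by decide +kernel⟩

theorem c_pp_023 : CertB 0 536870912 0 1230186008 1033476505 6710887 3 eng mog cd2q0 cd5q3 pd2 false true true .up 0 2 3
    ndB2q0 ndB5q3 pcB2 Cut.none Ext.none :=
  certB2 (fam := false) (s1 := true) (s2 := true) (a := 0) (b := 2) (c := 3) (cn := .up) (n1 := ndB2q0) (n2 := ndB5q3) (pc := pcB2) (cut := Cut.none) (xt := Ext.none) (P1 := 0) (W1 := 536870912) (P2 := 0) (W2 := 1230186008) (P3 := 1033476505) (W3 := 6710887) (N0 := 3) (En := eng) (mo := mog) (C1 := cd2q0) (C2 := cd5q3) (C3 := pd2)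
    rfl (fun _ => rfl) k0_pp_023

noncomputable def f_pp_033 : ℕ → ℕ → ℕ → ℕ → Bool := onCell 0 536870912 0 1230186008 1033476505 6710887
    (rowB 3 eng mog cd2q0 cd5q3 pd3 0 false true true .pnn 0 3 3 (qsf 0 536870912 0 1230186008 3) ndB2q0 ndB5q3 pcB3 Cut.none Ext.none)

def k0_pp_033 : ∃ t, chk3 f_pp_033 t 1 2 1 = true :=
  ⟨(b (a (b (l 4) (a (l 4) (a (l 4) (b (l 4) (a (l 4) (l 16402000)))))) (a (b (l 4) (a (b (l 4) (a (l 16511752) (l 16559992))) (b (a (l 16564120) (l 16529096)) (l 16486680)))) (b (a (b (l 4) (l 16287192)) (b (l 16068632) (l 16347696))) (b (a (l 16651128) (l 16497544)) (a (l 16208096) (b (l 16016800) (l 15683384))))))) (a (b (b (a (l 4) (a (b (l 4) (a (l 15841496) (l 16009960))) (a (l 16149760) (l 16199312)))) (a (a (l 4) (a (b (l 4) (l 191357597847)) (b (l 15606640) (l 15551624)))) (a (a (b (l 15782632) (l 15650424)) (l 15766400)) (a (l 15714608) (l 15569296))))) (a (a (a (b (b (l 4) (a (l 14845528) (l 14936256))) (b (a (l 14841520)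 (l 14931576)) (a (l 14861536) (l 14946784)))) (b (b (a (l 15064744) (l 15178040)) (l 15098288)) (b (a (l 15032752) (l 15118112)) (l 15089280)))) (a (b (b (l 15322984) (l 15258888)) (b (l 15216232) (l 15225744))) (b (b (l 15448440) (l 15323528)) (l 15314072)))) (b (a (a (b (l 15483288) (l 15340728)) (l 15256616)) (a (l 15445192) (l 15480360))) (a (l 15422080) (l 15590496))))) (b (a (a (b (l 16084176) (b (l 15592024) (l 15500240))) (b (b (l 16003856) (l 15633840)) (l 15581464))) (b (a (b (l 15666672) (l 15577984)) (l 15669616)) (l 15743584))) (a (a (l 15658352) (l 15816272)) (a (l 15971528) (l 16117400)))))), by decide +kernel⟩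

def k1_pp_033 : ∃ t, chk3 f_pp_033 t 1 3 1 = true :=
  ⟨(b (a (a (b (a (b (a (l 14938144) (l 15123080)) (a (l 14956584) (l 15153568))) (b (l 15363664) (l 15453160))) (a (b (a (l 14817520) (l 15152480)) (b (l 15056144) (l 14987432))) (b (l 15483432) (l 15497832)))) (b (a (b (l 15584248) (l 15791416)) (b (l 15789792) (l 16026632))) (b (a (l 15899120) (l 16250760)) (l 16056864)))) (b (a (a (l 16018120) (l 16265520)) (b (l 16360784) (l 1))) (a (b (l 16355440) (l 16610576)) (l 1)))) (a (b (a (b (a (a (l 14865648) (l 15106160)) (l 15413416)) (a (a (b (l 14787712) (l 14852120)) (l 15027536)) (b (l 15417240) (l 15384600)))) (b (a (l 15939576) (l 16366000)) (a (l 15902408) (l 1)))) (a (b (a (a (l 15032488) (l 15172240)) (b (l 15422992) (l 15504024))) (a (a (b (l 15181792) (l 15178664)) (b (l 15342992) (l 15408672))) (b (l 15595016) (l 1)))) (b (a (l 254508113863) (l 1)) (l 1)))) (l 1))), by decide +kernel⟩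

theorem s2_pp_033 : ∃ t, chk3 f_pp_033 t 1 1 1 = true := ex3_b k0_pp_033 k1_pp_033

theorem c_pp_033 : CertB 0 536870912 0 1230186008 1033476505 6710887 3 eng mog cd2q0 cd5q3 pd3 false true true .pnn 0 3 3
    ndB2q0 ndB5q3 pcB3 Cut.none Ext.none :=
  certB0 (fam := false) (s1 := true) (s2 := true) (a := 0) (b := 3) (c := 3) (cn := .pnn) (n1 := ndB2q0) (n2 := ndB5q3) (pc := pcB3) (cut := Cut.none) (xt := Ext.none) (P1 := 0) (W1 := 536870912) (P2 := 0) (W2 := 1230186008) (P3 := 1033476505) (W3 := 6710887) (N0 := 3) (En := eng) (mo := mog) (C1 := cd2q0) (C2 := cd5q3) (C3 := pd3)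
    rfl s2_pp_033

noncomputable def f_pp_101 : ℕ → ℕ → ℕ → ℕ → Bool := onCell 536870912 536870912 536870912 536870912 1033476505 6710887
    (rowB 3 eng mog cd2q1 cd5q1 pd0 0 false true true .npn 1 0 1 (qsf 536870912 536870912 536870912 536870912 0) ndB2q1 ndB5q1 pcB0 Cut.none Ext.none)

def k0_pp_101 : ∃ t, chk3 f_pp_101 t 1 1 1 = true :=
  ⟨(l 3), by decide +kernel⟩

theorem c_pp_101 : CertB 536870912 536870912 536870912 536870912 1033476505 6710887 3 eng mog cd2q1 cd5q1 pd0 false true true .npn 1 0 1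
    ndB2q1 ndB5q1 pcB0 Cut.none Ext.none :=
  certB0 (fam := false) (s1 := true) (s2 := true) (a := 1) (b := 0) (c := 1) (cn := .npn) (n1 := ndB2q1) (n2 := ndB5q1) (pc := pcB0) (cut := Cut.none) (xt := Ext.none) (P1 := 536870912) (W1 := 536870912) (P2 := 536870912) (W2 := 536870912) (P3 := 1033476505) (W3 := 6710887) (N0 := 3) (En := eng) (mo := mog) (C1 := cd2q1) (C2 := cd5q1) (C3 := pd0)
    rfl k0_pp_101

noncomputable def f_pp_102 : ℕ → ℕ → ℕ → ℕ → Bool := onCell 536870912 536870912 1073741824 536870912 1033476505 6710887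
    (rowB 3 eng mog cd2q1 cd5q2 pd0 0 false true true .npp 1 0 2 (qsf 536870912 536870912 1073741824 536870912 0) ndB2q1 ndB5q2 pcB0 Cut.none Ext.none)

def k0_pp_102 : ∃ t, chk3 f_pp_102 t 1 1 1 = true :=
  ⟨(l 3), by decide +kernel⟩

theorem c_pp_102 : CertB 536870912 536870912 1073741824 536870912 1033476505 6710887 3 eng mog cd2q1 cd5q2 pd0 false true true .npp 1 0 2
    ndB2q1 ndB5q2 pcB0 Cut.none Ext.none :=
  certB0 (fam := false) (s1 := true) (s2 := true) (a := 1) (b := 0) (c := 2) (cn := .npp) (n1 := ndB2q1) (n2 := ndB5q2) (pc := pcB0) (cut := Cut.none) (xt := Ext.none) (P1 := 536870912) (W1 := 536870912) (P2 := 1073741824) (W2 := 536870912) (P3 := 1033476505) (W3 := 6710887) (N0 := 3) (En := eng) (mo := mog) (C1 := cd2q1) (C2 := cd5q2) (C3 := pd0)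
    rfl k0_pp_102

noncomputable def f_pp_112 : ℕ → ℕ → ℕ → ℕ → Bool := onCell 536870912 536870912 1073741824 536870912 1033476505 6710887
    (rowB 3 eng mog cd2q1 cd5q2 pd1 0 false true true .dn 1 1 2 (qsf 536870912 536870912 1073741824 536870912 1) ndB2q1 ndB5q2 pcB1 Cut.none Ext.none)

def k0_pp_112 : ∃ t, chk3 f_pp_112 t 1 1 1 = true :=
  ⟨(l 3), by decide +kernel⟩

theorem c_pp_112 : CertB 536870912 536870912 1073741824 536870912 1033476505 6710887 3 eng mog cd2q1 cd5q2 pd1 false true true .dn 1 1 2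
    ndB2q1 ndB5q2 pcB1 Cut.none Ext.none :=
  certB0 (fam := false) (s1 := true) (s2 := true) (a := 1) (b := 1) (c := 2) (cn := .dn) (n1 := ndB2q1) (n2 := ndB5q2) (pc := pcB1) (cut := Cut.none) (xt := Ext.none) (P1 := 536870912) (W1 := 536870912) (P2 := 1073741824) (W2 := 536870912) (P3 := 1033476505) (W3 := 6710887) (N0 := 3) (En := eng) (mo := mog) (C1 := cd2q1) (C2 := cd5q2) (C3 := pd1)
    rfl k0_pp_112

noncomputable def f_pp_113 : ℕ → ℕ → ℕ → ℕ → Bool := onCell 536870912 536870912 0 1230186008 1033476505 6710887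
    (rowB 3 eng mog cd2q1 cd5q3 pd1 2 false true true .nn 1 1 3 (qsf 536870912 536870912 0 1230186008 1) ndB2q1 ndB5q3 pcB1 Cut.none Ext.none)

def k0_pp_113 : ∃ t, chk3 f_pp_113 t 1 1 1 = true :=
  ⟨(b (a (l 2) (a (l 2) (b (a (l 2) (b (l 16585736) (b (l 16688176) (l 16720352)))) (a (b (a (l 2) (b (l 2) (l 15505352))) (a (b (l 2) (l 3)) (a (l 198270997271) (l 15565776)))) (a (b (b (l 16435432) (l 15921952)) (a (l 15704480) (l 15607888))) (b (l 16266808) (l 15558464))))))) (b (a (l 3) (b (a (l 3) (a (l 3) (a (a (l 3) (l 322287541959)) (b (l 15552144) (l 15672160))))) (l 3))) (a (l 3) (l 3)))), by decide +kernel⟩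

theorem c_pp_113 : CertB 536870912 536870912 0 1230186008 1033476505 6710887 3 eng mog cd2q1 cd5q3 pd1 false true true .nn 1 1 3
    ndB2q1 ndB5q3 pcB1 Cut.none Ext.none :=
  certB2 (fam := false) (s1 := true) (s2 := true) (a := 1) (b := 1) (c := 3) (cn := .nn) (n1 := ndB2q1) (n2 := ndB5q3) (pc := pcB1) (cut := Cut.none) (xt := Ext.none) (P1 := 536870912) (W1 := 536870912) (P2 := 0) (W2 := 1230186008) (P3 := 1033476505) (W3 := 6710887) (N0 := 3) (En := eng) (mo := mog) (C1 := cd2q1) (C2 := cd5q3) (C3 := pd1)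
    rfl (fun _ => rfl) k0_pp_113

noncomputable def f_pp_123 : ℕ → ℕ → ℕ → ℕ → Bool := onCell 1073741824 536870912 0 1230186008 1033476505 6710887
    (rowB 3 eng mog cd2q1 cd5q3 pd2 2 false true true .npn 1 2 3 (qsf 536870912 536870912 0 1230186008 2) ndB2q1 ndB5q3 pcB2 Cut.none Ext.none)

def k0_pp_123 : ∃ t, chk3 f_pp_123 t 1 2 1 = true :=
  ⟨(a (b (a (b (a (l 16706992) (l 16185728)) (b (l 16323400) (l 16200352))) (b (a (b (l 15569880) (l 15585160)) (b (l 15147656) (l 15067768))) (b (l 15353248) (l 15432232)))) (b (a (a (l 16197896) (l 16002320)) (l 15495456)) (a (a (l 15669048) (l 15821480)) (l 15615320)))) (b (a (b (a (b (l 15113416) (l 14743440)) (l 15033984)) (b (a (l 14687384) (l 14429464)) (l 14650168))) (b (a (l 15281464) (b (l 15807328) (l 15324848))) (b (a (l 14418920) (l 14729624)) (a (l 14287656) (l 14279472))))) (b (a (l 14880784) (l 14496400)) (a (l 15237424) (l 15013624))))), by decide +kernel⟩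

def k1_pp_123 : ∃ t, chk3 f_pp_123 t 1 3 1 = true :=
  ⟨(b (a (a (a (a (b (b (b (l 15531104) (l 15568608)) (a (l 15689152) (l 15816440))) (a (l 3) (l 16108744))) (b (b (b (l 15694120) (l 15709912)) (b (l 15844176) (l 16014168))) (a (b (l 16084456) (l 3)) (b (a (l 16183936) (l 16234408)) (l 16265256))))) (a (b (b (l 15779224) (l 15974152)) (b (a (l 16290200) (l 16254776)) (a (l 16268928) (l 16264336)))) (b (b (l 15799720) (l 15955552)) (b (l 16182904) (a (l 16245288) (l 16194032)))))) (b (a (b (l 15772912) (a (a (l 15930552) (a (l 15895552) (l 15874736))) (l 15824672))) (l 15704528)) (a (a (b (a (l 16082528) (l 16006712)) (a (l 16159824) (a (l 16119272) (l 16069056)))) (l 15986176)) (l 15925136)))) (a (b (b (l 15473888) (l 15624288)) (b (l 15786144) (l 15924472))) (b (b (l 15395768) (l 1)) (l 1)))) (a (b (a (a (l 3) (a (a (l 3) (b (l 16213528) (l 3))) (a (b (l 16137880) (l 3)) (b (l 16156544) (l 16107696))))) (a (a (a (b (l 16133136) (l 16080032))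 (a (b (l 16107496) (l 16066848)) (b (l 16087960) (l 16056856)))) (l 15942368)) (b (l 16026776) (l 1)))) (a (l 3) (a (a (a (b (l 16058792) (l 1)) (l 1)) (l 1)) (l 1)))) (l 1))), by decide +kernel⟩

theorem s2_pp_123 : ∃ t, chk3 f_pp_123 t 1 1 1 = true := ex3_b k0_pp_123 k1_pp_123

theorem c_pp_123 : CertB 536870912 536870912 0 1230186008 1033476505 6710887 3 eng mog cd2q1 cd5q3 pd2 false true true .npn 1 2 3
    ndB2q1 ndB5q3 pcB2 Cut.none Ext.none :=
  certB2 (fam := false) (s1 := true) (s2 := true) (a := 1) (b := 2) (c := 3) (cn := .npn) (n1 := ndB2q1) (n2 := ndB5q3) (pc := pcB2) (cut := Cut.none) (xt := Ext.none) (P1 := 536870912) (W1 := 536870912) (P2 := 0) (W2 := 1230186008) (P3 := 1033476505) (W3 := 6710887) (N0 := 3) (En := eng) (mo := mog) (C1 := cd2q1) (C2 := cd5q3) (C3 := pd2)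
    rfl (fun _ => rfl) s2_pp_123

noncomputable def f_pp_133 : ℕ → ℕ → ℕ → ℕ → Bool := onCell 1610612736 536870912 0 1230186008 1033476505 6710887
    (rowB 3 eng mog cd2q1 cd5q3 pd3 2 false true true .dn 1 3 3 (qsf 536870912 536870912 0 1230186008 3) ndB2q1 ndB5q3 pcB3 Cut.none Ext.none)

def k0_pp_133 : ∃ t, chk3 f_pp_133 t 1 1 1 = true :=
  ⟨(b (b (a (b (b (b (l 4) (l 1)) (l 1)) (l 1)) (l 1)) (l 1)) (l 1)), by decide +kernel⟩

theorem c_pp_133 : CertB 536870912 536870912 0 1230186008 1033476505 6710887 3 eng mog cd2q1 cd5q3 pd3 false true true .dn 1 3 3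
    ndB2q1 ndB5q3 pcB3 Cut.none Ext.none :=
  certB2 (fam := false) (s1 := true) (s2 := true) (a := 1) (b := 3) (c := 3) (cn := .dn) (n1 := ndB2q1) (n2 := ndB5q3) (pc := pcB3) (cut := Cut.none) (xt := Ext.none) (P1 := 536870912) (W1 := 536870912) (P2 := 0) (W2 := 1230186008) (P3 := 1033476505) (W3 := 6710887) (N0 := 3) (En := eng) (mo := mog) (C1 := cd2q1) (C2 := cd5q3) (C3 := pd3)
    rfl (fun _ => rfl) k0_pp_133

noncomputable def f_pp_202_a : ℕ → ℕ → ℕ → ℕ → Bool := onCell 0 536870912 1073741824 536870912 1033476505 6710887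
    (rowB 3 eng mog cd2q2a cd5q2 pd0 0 false true true .pp 2 0 2 (qsf 0 536870912 1073741824 536870912 0) ndB2q2a ndB5q2 pcB0 Cut.none Ext.none)

def k0_pp_202_a : ∃ t, chk3 f_pp_202_a t 1 1 1 = true :=
  ⟨(l 5), by decide +kernel⟩

theorem c_pp_202_a : CertB 0 536870912 1073741824 536870912 1033476505 6710887 3 eng mog cd2q2a cd5q2 pd0 false true true .pp 2 0 2
    ndB2q2a ndB5q2 pcB0 Cut.none Ext.none :=
  certB0 (fam := false) (s1 := true) (s2 := true) (a := 2) (b := 0) (c := 2) (cn := .pp) (n1 := ndB2q2a) (n2 := ndB5q2) (pc := pcB0) (cut := Cut.none) (xt := Ext.none) (P1 := 0) (W1 := 536870912) (P2 := 1073741824) (W2 := 536870912) (P3 := 1033476505) (W3 := 6710887) (N0 := 3) (En := eng) (mo := mog) (C1 := cd2q2a) (C2 := cd5q2) (C3 := pd0)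
    rfl k0_pp_202_a

noncomputable def f_pp_202_b : ℕ → ℕ → ℕ → ℕ → Bool := onCell 1239849684 370763052 1073741824 536870912 1033476505 6710887
    (rowB 3 eng mog cd2q2b cd5q2 pd0 0 false true true .pp 2 0 2 (qsf 1239849684 370763052 1073741824 536870912 0) ndB2q2b ndB5q2 pcB0 Cut.none Ext.none)

def k0_pp_202_b : ∃ t, chk3 f_pp_202_b t 1 1 1 = true :=
  ⟨(l 5), by decide +kernel⟩

theorem c_pp_202_b : CertB 1239849684 370763052 1073741824 536870912 1033476505 6710887 3 eng mog cd2q2b cd5q2 pd0 false true true .pp 2 0 2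
    ndB2q2b ndB5q2 pcB0 Cut.none Ext.none :=
  certB0 (fam := false) (s1 := true) (s2 := true) (a := 2) (b := 0) (c := 2) (cn := .pp) (n1 := ndB2q2b) (n2 := ndB5q2) (pc := pcB0) (cut := Cut.none) (xt := Ext.none) (P1 := 1239849684) (W1 := 370763052) (P2 := 1073741824) (W2 := 536870912) (P3 := 1033476505) (W3 := 6710887) (N0 := 3) (En := eng) (mo := mog) (C1 := cd2q2b) (C2 := cd5q2) (C3 := pd0)
    rfl k0_pp_202_b

noncomputable def f_pp_203_a : ℕ → ℕ → ℕ → ℕ → Bool := onCell 0 536870912 0 1230186008 1033476505 6710887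
    (rowB 3 eng mog cd2q2a cd5q3 pd0 0 false true true .up 2 0 3 (qsf 0 536870912 0 1230186008 0) ndB2q2a ndB5q3 pcB0 Cut.none Ext.none)

def k0_pp_203_a : ∃ t, chk3 f_pp_203_a t 1 1 1 = true :=
  ⟨(b (l 2) (l 3)), by decide +kernel⟩

theorem c_pp_203_a : CertB 0 536870912 0 1230186008 1033476505 6710887 3 eng mog cd2q2a cd5q3 pd0 false true true .up 2 0 3
    ndB2q2a ndB5q3 pcB0 Cut.none Ext.none :=
  certB0 (fam := false) (s1 := true) (s2 := true) (a := 2) (b := 0) (c := 3) (cn := .up) (n1 := ndB2q2a) (n2 := ndB5q3) (pc := pcB0) (cut := Cut.none) (xt := Ext.none) (P1 := 0) (W1 := 536870912) (P2 := 0) (W2 := 1230186008) (P3 := 1033476505) (W3 := 6710887) (N0 := 3) (En := eng) (mo := mog) (C1 := cd2q2a) (C2 := cd5q3) (C3 := pd0)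
    rfl k0_pp_203_a

noncomputable def f_pp_203_b : ℕ → ℕ → ℕ → ℕ → Bool := onCell 0 536870912 0 1230186008 1033476505 6710887
    (rowB 3 eng mog cd2q2b cd5q3 pd0 2 false true true .up 2 0 3 (qsf 1239849684 370763052 0 1230186008 0) ndB2q2b ndB5q3 pcB0 Cut.none Ext.none)

def k0_pp_203_b : ∃ t, chk3 f_pp_203_b t 1 1 1 = true :=
  ⟨(b (l 3) (l 5)), by decide +kernel⟩

theorem c_pp_203_b : CertB 1239849684 370763052 0 1230186008 1033476505 6710887 3 eng mog cd2q2b cd5q3 pd0 false true true .up 2 0 3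
    ndB2q2b ndB5q3 pcB0 Cut.none Ext.none :=
  certB2 (fam := false) (s1 := true) (s2 := true) (a := 2) (b := 0) (c := 3) (cn := .up) (n1 := ndB2q2b) (n2 := ndB5q3) (pc := pcB0) (cut := Cut.none) (xt := Ext.none) (P1 := 1239849684) (W1 := 370763052) (P2 := 0) (W2 := 1230186008) (P3 := 1033476505) (W3 := 6710887) (N0 := 3) (En := eng) (mo := mog) (C1 := cd2q2b) (C2 := cd5q3) (C3 := pd0)
    rfl (fun _ => rfl) k0_pp_203_b

noncomputable def cut_pp_213_a : Cut := Cut.of [[⟨0, 1, 0, 20971520⟩, ⟨1, 1, 0, 20971520⟩, ⟨2, 2, 0, 1572864⟩]]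

noncomputable def f_pp_213_a : ℕ → ℕ → ℕ → ℕ → Bool := onCell 0 536870912 0 1230186008 1033476505 6710887
    (rowB 3 eng mog cd2q2a cd5q3 pd1 0 false true true .pnn 2 1 3 (qsf 0 536870912 0 1230186008 1) ndB2q2a ndB5q3 pcB1 cut_pp_213_a Ext.none)

def k0_pp_213_a : ∃ t, chk3 f_pp_213_a t 1 1 1 = true :=
  ⟨(b (b (a (l 3) (a (l 3) (b (a (l 3) (a (l 3) (b (b (a (l 3) (l 6)) (l 3)) (l 3)))) (l 3)))) (l 3)) (l 3)), by decide +kernel⟩

theorem c_pp_213_a : CertB 0 536870912 0 1230186008 1033476505 6710887 3 eng mog cd2q2a cd5q3 pd1 false true true .pnn 2 1 3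
    ndB2q2a ndB5q3 pcB1 cut_pp_213_a Ext.none :=
  certB0 (fam := false) (s1 := true) (s2 := true) (a := 2) (b := 1) (c := 3) (cn := .pnn) (n1 := ndB2q2a) (n2 := ndB5q3) (pc := pcB1) (cut := cut_pp_213_a) (xt := Ext.none) (P1 := 0) (W1 := 536870912) (P2 := 0) (W2 := 1230186008) (P3 := 1033476505) (W3 := 6710887) (N0 := 3) (En := eng) (mo := mog) (C1 := cd2q2a) (C2 := cd5q3) (C3 := pd1)
    rfl k0_pp_213_a

noncomputable def cut_pp_213_b : Cut := Cut.of [[⟨0, 1, 0, 20971520⟩, ⟨1, 1, 0, 20971520⟩, ⟨2, 2, 0, 1572864⟩]]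

noncomputable def f_pp_213_b : ℕ → ℕ → ℕ → ℕ → Bool := onCell 1239849684 370763052 0 1230186008 1033476505 6710887
    (rowB 3 eng mog cd2q2b cd5q3 pd1 0 false true true .pnn 2 1 3 (qsf 1239849684 370763052 0 1230186008 1) ndB2q2b ndB5q3 pcB1 cut_pp_213_b Ext.none)

def k0_pp_213_b : ∃ t, chk3 f_pp_213_b t 1 1 1 = true :=
  ⟨(b (l 3) (b (l 3) (l 3))), by decide +kernel⟩

theorem c_pp_213_b : CertB 1239849684 370763052 0 1230186008 1033476505 6710887 3 eng mog cd2q2b cd5q3 pd1 false true true .pnn 2 1 3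
    ndB2q2b ndB5q3 pcB1 cut_pp_213_b Ext.none :=
  certB0 (fam := false) (s1 := true) (s2 := true) (a := 2) (b := 1) (c := 3) (cn := .pnn) (n1 := ndB2q2b) (n2 := ndB5q3) (pc := pcB1) (cut := cut_pp_213_b) (xt := Ext.none) (P1 := 1239849684) (W1 := 370763052) (P2 := 0) (W2 := 1230186008) (P3 := 1033476505) (W3 := 6710887) (N0 := 3) (En := eng) (mo := mog) (C1 := cd2q2b) (C2 := cd5q3) (C3 := pd1)
    rfl k0_pp_213_b

noncomputable def f_pp_303 : ℕ → ℕ → ℕ → ℕ → Bool := onCell 1610612736 536870912 0 1230186008 1033476505 6710887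
    (rowB 3 eng mog cd2q3 cd5q3 pd0 0 false true true .npn 3 0 3 (qsf 1610612736 536870912 0 1230186008 0) ndB2q3 ndB5q3 pcB0 Cut.none Ext.none)

def k0_pp_303 : ∃ t, chk3 f_pp_303 t 1 1 1 = true :=
  ⟨(b (l 3) (l 5)), by decide +kernel⟩

theorem c_pp_303 : CertB 1610612736 536870912 0 1230186008 1033476505 6710887 3 eng mog cd2q3 cd5q3 pd0 false true true .npn 3 0 3
    ndB2q3 ndB5q3 pcB0 Cut.none Ext.none :=
  certB0 (fam := false) (s1 := true) (s2 := true) (a := 3) (b := 0) (c := 3) (cn := .npn) (n1 := ndB2q3) (n2 := ndB5q3) (pc := pcB0) (cut := Cut.none) (xt := Ext.none) (P1 := 1610612736) (W1 := 536870912) (P2 := 0) (W2 := 1230186008) (P3 := 1033476505) (W3 := 6710887) (N0 := 3) (En := eng) (mo := mog) (C1 := cd2q3) (C2 := cd5q3) (C3 := pd0)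
    rfl k0_pp_303

noncomputable def f_pp_313 : ℕ → ℕ → ℕ → ℕ → Bool := onCell 1610612736 536870912 0 1230186008 1033476505 6710887
    (rowB 3 eng mog cd2q3 cd5q3 pd1 0 false true true .dn 3 1 3 (qsf 1610612736 536870912 0 1230186008 1) ndB2q3 ndB5q3 pcB1 Cut.none Ext.none)

def k0_pp_313 : ∃ t, chk3 f_pp_313 t 1 1 1 = true :=
  ⟨(b (l 3) (l 1)), by decide +kernel⟩

theorem c_pp_313 : CertB 1610612736 536870912 0 1230186008 1033476505 6710887 3 eng mog cd2q3 cd5q3 pd1 false true true .dn 3 1 3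
    ndB2q3 ndB5q3 pcB1 Cut.none Ext.none :=
  certB0 (fam := false) (s1 := true) (s2 := true) (a := 3) (b := 1) (c := 3) (cn := .dn) (n1 := ndB2q3) (n2 := ndB5q3) (pc := pcB1) (cut := Cut.none) (xt := Ext.none) (P1 := 1610612736) (W1 := 536870912) (P2 := 0) (W2 := 1230186008) (P3 := 1033476505) (W3 := 6710887) (N0 := 3) (En := eng) (mo := mog) (C1 := cd2q3) (C2 := cd5q3) (C3 := pd1)
    rfl k0_pp_313

noncomputable def f_pm_001 : ℕ → ℕ → ℕ → ℕ → Bool := onCell 0 536870912 536870912 536870912 1033476505 6710887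
    (rowB 3 eng mog cd2q0 cd5q1 pd0 0 false true false .up 0 0 1 (qsf 0 536870912 536870912 536870912 0) ndB2q0 ndB5q1 pcB0 Cut.none Ext.none)

def k0_pm_001 : ∃ t, chk3 f_pm_001 t 1 1 1 = true :=
  ⟨(l 4), by decide +kernel⟩

theorem c_pm_001 : CertB 0 536870912 536870912 536870912 1033476505 6710887 3 eng mog cd2q0 cd5q1 pd0 false true false .up 0 0 1
    ndB2q0 ndB5q1 pcB0 Cut.none Ext.none :=
  certB0 (fam := false) (s1 := true) (s2 := false) (a := 0) (b := 0) (c := 1) (cn := .up) (n1 := ndB2q0) (n2 := ndB5q1) (pc := pcB0) (cut := Cut.none) (xt := Ext.none) (P1 := 0) (W1 := 536870912) (P2 := 536870912) (W2 := 536870912) (P3 := 1033476505) (W3 := 6710887) (N0 := 3) (En := eng) (mo := mog) (C1 := cd2q0) (C2 := cd5q1) (C3 := pd0)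
    rfl k0_pm_001

noncomputable def f_pm_011 : ℕ → ℕ → ℕ → ℕ → Bool := onCell 0 536870912 536870912 536870912 1033476505 6710887
    (rowB 3 eng mog cd2q0 cd5q1 pd1 0 false true false .pnn 0 1 1 (qsf 0 536870912 536870912 536870912 1) ndB2q0 ndB5q1 pcB1 Cut.none Ext.none)

def k0_pm_011 : ∃ t, chk3 f_pm_011 t 1 1 1 = true :=
  ⟨(l 4), by decide +kernel⟩

theorem c_pm_011 : CertB 0 536870912 536870912 536870912 1033476505 6710887 3 eng mog cd2q0 cd5q1 pd1 false true false .pnn 0 1 1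
    ndB2q0 ndB5q1 pcB1 Cut.none Ext.none :=
  certB0 (fam := false) (s1 := true) (s2 := false) (a := 0) (b := 1) (c := 1) (cn := .pnn) (n1 := ndB2q0) (n2 := ndB5q1) (pc := pcB1) (cut := Cut.none) (xt := Ext.none) (P1 := 0) (W1 := 536870912) (P2 := 536870912) (W2 := 536870912) (P3 := 1033476505) (W3 := 6710887) (N0 := 3) (En := eng) (mo := mog) (C1 := cd2q0) (C2 := cd5q1) (C3 := pd1)
    rfl k0_pm_011

noncomputable def f_pm_012 : ℕ → ℕ → ℕ → ℕ → Bool := onCell 0 536870912 1073741824 536870912 1033476505 6710887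
    (rowB 3 eng mog cd2q0 cd5q2 pd1 0 false true false .pnp 0 1 2 (qsf 0 536870912 1073741824 536870912 1) ndB2q0 ndB5q2 pcB1 Cut.none Ext.none)

def k0_pm_012 : ∃ t, chk3 f_pm_012 t 1 1 1 = true :=
  ⟨(l 4), by decide +kernel⟩

theorem c_pm_012 : CertB 0 536870912 1073741824 536870912 1033476505 6710887 3 eng mog cd2q0 cd5q2 pd1 false true false .pnp 0 1 2
    ndB2q0 ndB5q2 pcB1 Cut.none Ext.none :=
  certB0 (fam := false) (s1 := true) (s2 := false) (a := 0) (b := 1) (c := 2) (cn := .pnp) (n1 := ndB2q0) (n2 := ndB5q2) (pc := pcB1) (cut := Cut.none) (xt := Ext.none) (P1 := 0) (W1 := 536870912) (P2 := 1073741824) (W2 := 536870912) (P3 := 1033476505) (W3 := 6710887) (N0 := 3) (En := eng) (mo := mog) (C1 := cd2q0) (C2 := cd5q2) (C3 := pd1)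
    rfl k0_pm_012

noncomputable def f_pm_022 : ℕ → ℕ → ℕ → ℕ → Bool := onCell 0 536870912 1073741824 536870912 1033476505 6710887
    (rowB 3 eng mog cd2q0 cd5q2 pd2 0 false true false .pp 0 2 2 (qsf 0 536870912 1073741824 536870912 2) ndB2q0 ndB5q2 pcB2 Cut.none Ext.none)

def k0_pm_022 : ∃ t, chk3 f_pm_022 t 1 1 1 = true :=
  ⟨(l 4), by decide +kernel⟩

theorem c_pm_022 : CertB 0 536870912 1073741824 536870912 1033476505 6710887 3 eng mog cd2q0 cd5q2 pd2 false true false .pp 0 2 2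
    ndB2q0 ndB5q2 pcB2 Cut.none Ext.none :=
  certB0 (fam := false) (s1 := true) (s2 := false) (a := 0) (b := 2) (c := 2) (cn := .pp) (n1 := ndB2q0) (n2 := ndB5q2) (pc := pcB2) (cut := Cut.none) (xt := Ext.none) (P1 := 0) (W1 := 536870912) (P2 := 1073741824) (W2 := 536870912) (P3 := 1033476505) (W3 := 6710887) (N0 := 3) (En := eng) (mo := mog) (C1 := cd2q0) (C2 := cd5q2) (C3 := pd2)
    rfl k0_pm_022

noncomputable def f_pm_023 : ℕ → ℕ → ℕ → ℕ → Bool := onCell 0 536870912 0 1230186008 1033476505 6710887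
    (rowB 3 eng mog cd2q0 cd5q3 pd2 0 false true false .up 0 2 3 (qsf 0 536870912 0 1230186008 2) ndB2q0 ndB5q3 pcB2 Cut.none Ext.none)

def k0_pm_023 : ∃ t, chk3 f_pm_023 t 1 1 1 = true :=
  ⟨(b (a (l 2) (l 4)) (l 4)), by decide +kernel⟩

theorem c_pm_023 : CertB 0 536870912 0 1230186008 1033476505 6710887 3 eng mog cd2q0 cd5q3 pd2 false true false .up 0 2 3
    ndB2q0 ndB5q3 pcB2 Cut.none Ext.none :=
  certB0 (fam := false) (s1 := true) (s2 := false) (a := 0) (b := 2) (c := 3) (cn := .up) (n1 := ndB2q0) (n2 := ndB5q3) (pc := pcB2) (cut := Cut.none) (xt := Ext.none) (P1 := 0) (W1 := 536870912) (P2 := 0) (W2 := 1230186008) (P3 := 1033476505) (W3 := 6710887) (N0 := 3) (En := eng) (mo := mog) (C1 := cd2q0) (C2 := cd5q3) (C3 := pd2)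
    rfl k0_pm_023

noncomputable def f_pm_033 : ℕ → ℕ → ℕ → ℕ → Bool := onCell 0 536870912 0 1230186008 1033476505 6710887
    (rowB 3 eng mog cd2q0 cd5q3 pd3 0 false true false .pnn 0 3 3 (qsf 0 536870912 0 1230186008 3) ndB2q0 ndB5q3 pcB3 Cut.none Ext.none)

def k0_pm_033 : ∃ t, chk3 f_pm_033 t 1 1 1 = true :=
  ⟨(b (a (l 4) (l 4)) (l 4)), by decide +kernel⟩

theorem c_pm_033 : CertB 0 536870912 0 1230186008 1033476505 6710887 3 eng mog cd2q0 cd5q3 pd3 false true false .pnn 0 3 3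
    ndB2q0 ndB5q3 pcB3 Cut.none Ext.none :=
  certB0 (fam := false) (s1 := true) (s2 := false) (a := 0) (b := 3) (c := 3) (cn := .pnn) (n1 := ndB2q0) (n2 := ndB5q3) (pc := pcB3) (cut := Cut.none) (xt := Ext.none) (P1 := 0) (W1 := 536870912) (P2 := 0) (W2 := 1230186008) (P3 := 1033476505) (W3 := 6710887) (N0 := 3) (En := eng) (mo := mog) (C1 := cd2q0) (C2 := cd5q3) (C3 := pd3)
    rfl k0_pm_033

noncomputable def f_pm_101 : ℕ → ℕ → ℕ → ℕ → Bool := onCell 536870912 536870912 536870912 536870912 1033476505 6710887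
    (rowB 3 eng mog cd2q1 cd5q1 pd0 0 false true false .npn 1 0 1 (qsf 536870912 536870912 536870912 536870912 0) ndB2q1 ndB5q1 pcB0 Cut.none Ext.none)

def k0_pm_101 : ∃ t, chk3 f_pm_101 t 1 1 1 = true :=
  ⟨(l 4), by decide +kernel⟩

theorem c_pm_101 : CertB 536870912 536870912 536870912 536870912 1033476505 6710887 3 eng mog cd2q1 cd5q1 pd0 false true false .npn 1 0 1
    ndB2q1 ndB5q1 pcB0 Cut.none Ext.none :=
  certB0 (fam := false) (s1 := true) (s2 := false) (a := 1) (b := 0) (c := 1) (cn := .npn) (n1 := ndB2q1) (n2 := ndB5q1) (pc := pcB0) (cut := Cut.none) (xt := Ext.none) (P1 := 536870912) (W1 := 536870912) (P2 := 536870912) (W2 := 536870912) (P3 := 1033476505) (W3 := 6710887) (N0 := 3) (En := eng) (mo := mog) (C1 := cd2q1) (C2 := cd5q1) (C3 := pd0)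
    rfl k0_pm_101

noncomputable def f_pm_102 : ℕ → ℕ → ℕ → ℕ → Bool := onCell 536870912 536870912 1073741824 536870912 1033476505 6710887
    (rowB 3 eng mog cd2q1 cd5q2 pd0 0 false true false .npp 1 0 2 (qsf 536870912 536870912 1073741824 536870912 0) ndB2q1 ndB5q2 pcB0 Cut.none Ext.none)

def k0_pm_102 : ∃ t, chk3 f_pm_102 t 1 1 1 = true :=
  ⟨(l 4), by decide +kernel⟩

theorem c_pm_102 : CertB 536870912 536870912 1073741824 536870912 1033476505 6710887 3 eng mog cd2q1 cd5q2 pd0 false true false .npp 1 0 2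
    ndB2q1 ndB5q2 pcB0 Cut.none Ext.none :=
  certB0 (fam := false) (s1 := true) (s2 := false) (a := 1) (b := 0) (c := 2) (cn := .npp) (n1 := ndB2q1) (n2 := ndB5q2) (pc := pcB0) (cut := Cut.none) (xt := Ext.none) (P1 := 536870912) (W1 := 536870912) (P2 := 1073741824) (W2 := 536870912) (P3 := 1033476505) (W3 := 6710887) (N0 := 3) (En := eng) (mo := mog) (C1 := cd2q1) (C2 := cd5q2) (C3 := pd0)
    rfl k0_pm_102

noncomputable def f_pm_112 : ℕ → ℕ → ℕ → ℕ → Bool := onCell 536870912 536870912 1073741824 536870912 1033476505 6710887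
    (rowB 3 eng mog cd2q1 cd5q2 pd1 0 false true false .dn 1 1 2 (qsf 536870912 536870912 1073741824 536870912 1) ndB2q1 ndB5q2 pcB1 Cut.none Ext.none)

def k0_pm_112 : ∃ t, chk3 f_pm_112 t 1 1 1 = true :=
  ⟨(l 4), by decide +kernel⟩

theorem c_pm_112 : CertB 536870912 536870912 1073741824 536870912 1033476505 6710887 3 eng mog cd2q1 cd5q2 pd1 false true false .dn 1 1 2
    ndB2q1 ndB5q2 pcB1 Cut.none Ext.none :=
  certB0 (fam := false) (s1 := true) (s2 := false) (a := 1) (b := 1) (c := 2) (cn := .dn) (n1 := ndB2q1) (n2 := ndB5q2) (pc := pcB1) (cut := Cut.none) (xt := Ext.none) (P1 := 536870912) (W1 := 536870912) (P2 := 1073741824) (W2 := 536870912) (P3 := 1033476505) (W3 := 6710887) (N0 := 3) (En := eng) (mo := mog) (C1 := cd2q1) (C2 := cd5q2) (C3 := pd1)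
    rfl k0_pm_112

noncomputable def f_pm_113 : ℕ → ℕ → ℕ → ℕ → Bool := onCell 536870912 536870912 0 1230186008 1033476505 6710887
    (rowB 3 eng mog cd2q1 cd5q3 pd1 0 false true false .nn 1 1 3 (qsf 536870912 536870912 0 1230186008 1) ndB2q1 ndB5q3 pcB1 Cut.none Ext.none)

def k0_pm_113 : ∃ t, chk3 f_pm_113 t 1 1 1 = true :=
  ⟨(b (a (l 2) (a (l 2) (b (b (a (l 2) (l 16145104)) (b (l 15177984) (l 14677816))) (b (a (a (l 2) (l 13802368)) (l 15086352)) (a (l 4) (l 14402328)))))) (l 4)), by decide +kernel⟩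

theorem c_pm_113 : CertB 536870912 536870912 0 1230186008 1033476505 6710887 3 eng mog cd2q1 cd5q3 pd1 false true false .nn 1 1 3
    ndB2q1 ndB5q3 pcB1 Cut.none Ext.none :=
  certB0 (fam := false) (s1 := true) (s2 := false) (a := 1) (b := 1) (c := 3) (cn := .nn) (n1 := ndB2q1) (n2 := ndB5q3) (pc := pcB1) (cut := Cut.none) (xt := Ext.none) (P1 := 536870912) (W1 := 536870912) (P2 := 0) (W2 := 1230186008) (P3 := 1033476505) (W3 := 6710887) (N0 := 3) (En := eng) (mo := mog) (C1 := cd2q1) (C2 := cd5q3) (C3 := pd1)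
    rfl k0_pm_113

noncomputable def f_pm_123 : ℕ → ℕ → ℕ → ℕ → Bool := onCell 1073741824 536870912 0 1230186008 1033476505 6710887
    (rowB 3 eng mog cd2q1 cd5q3 pd2 2 false true false .npn 1 2 3 (qsf 536870912 536870912 0 1230186008 2) ndB2q1 ndB5q3 pcB2 Cut.none Ext.none)

def k0_pm_123 : ∃ t, chk3 f_pm_123 t 1 1 1 = true :=
  ⟨(b (a (b (a (a (b (b (l 16598304) (l 16732448)) (b (l 16340144) (l 15794576))) (b (a (l 16262888) (l 15901688)) (a (l 15483072) (l 15273976)))) (a (b (a (l 15611664) (l 15468280)) (a (b (l 15425584) (l 15220584)) (l 15410960))) (b (l 15460568) (b (l 15682352) (l 15649640))))) (b (a (a (a (l 14823520) (l 14729360)) (a (l 14827040) (l 14891256))) (l 4)) (l 4))) (b (a (a (b (b (l 15526968) (l 15878720)) (b (l 15928168) (l 4))) (b (b (l 15827272) (l 16056856)) (l 4))) (b (a (l 16010544) (l 15973296)) (l 4))) (l 4))) (l 4)), by decide +kernel⟩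

theorem c_pm_123 : CertB 536870912 536870912 0 1230186008 1033476505 6710887 3 eng mog cd2q1 cd5q3 pd2 false true false .npn 1 2 3
    ndB2q1 ndB5q3 pcB2 Cut.none Ext.none :=
  certB2 (fam := false) (s1 := true) (s2 := false) (a := 1) (b := 2) (c := 3) (cn := .npn) (n1 := ndB2q1) (n2 := ndB5q3) (pc := pcB2) (cut := Cut.none) (xt := Ext.none) (P1 := 536870912) (W1 := 536870912) (P2 := 0) (W2 := 1230186008) (P3 := 1033476505) (W3 := 6710887) (N0 := 3) (En := eng) (mo := mog) (C1 := cd2q1) (C2 := cd5q3) (C3 := pd2)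
    rfl (fun _ => rfl) k0_pm_123

noncomputable def f_pm_133 : ℕ → ℕ → ℕ → ℕ → Bool := onCell 1610612736 536870912 0 1230186008 1033476505 6710887
    (rowB 3 eng mog cd2q1 cd5q3 pd3 2 false true false .dn 1 3 3 (qsf 536870912 536870912 0 1230186008 3) ndB2q1 ndB5q3 pcB3 Cut.none Ext.none)

def k0_pm_133 : ∃ t, chk3 f_pm_133 t 1 1 1 = true :=
  ⟨(b (b (a (l 4) (l 1)) (l 1)) (l 1)), by decide +kernel⟩

theorem c_pm_133 : CertB 536870912 536870912 0 1230186008 1033476505 6710887 3 eng mog cd2q1 cd5q3 pd3 false true false .dn 1 3 3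
    ndB2q1 ndB5q3 pcB3 Cut.none Ext.none :=
  certB2 (fam := false) (s1 := true) (s2 := false) (a := 1) (b := 3) (c := 3) (cn := .dn) (n1 := ndB2q1) (n2 := ndB5q3) (pc := pcB3) (cut := Cut.none) (xt := Ext.none) (P1 := 536870912) (W1 := 536870912) (P2 := 0) (W2 := 1230186008) (P3 := 1033476505) (W3 := 6710887) (N0 := 3) (En := eng) (mo := mog) (C1 := cd2q1) (C2 := cd5q3) (C3 := pd3)
    rfl (fun _ => rfl) k0_pm_133

noncomputable def f_pm_202_a : ℕ → ℕ → ℕ → ℕ → Bool := onCell 0 536870912 1073741824 536870912 1033476505 6710887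
    (rowB 3 eng mog cd2q2a cd5q2 pd0 0 false true false .pp 2 0 2 (qsf 0 536870912 1073741824 536870912 0) ndB2q2a ndB5q2 pcB0 Cut.none Ext.none)

def k0_pm_202_a : ∃ t, chk3 f_pm_202_a t 1 1 1 = true :=
  ⟨(a (b (a (b (l 1) (b (b (b (l 1) (l 14744600)) (l 15028328)) (b (l 15416904) (l 15793600)))) (b (l 4) (b (l 4) (b (l 15255816) (l 15602848))))) (b (b (a (l 16268856) (b (l 15921536) (l 16190816))) (a (l 16620192) (l 16445016))) (b (a (b (l 16642544) (l 16531960)) (b (l 16544760) (l 16537112))) (a (b (l 16341008) (l 16046296)) (b (l 16445880) (l 16208344)))))) (b (l 4) (b (b (a (a (l 15752920) (l 4)) (l 4)) (a (b (l 16057224) (l 16198368)) (a (l 81836944551) (l 4)))) (b (a (a (l 16374888) (l 16195184)) (a (l 15976776) (l 109217051287))) (a (b (a (l 16391848) (l 16252112)) (a (l 16253104) (l 16207080))) (a (b (l 16031848) (l 16042248)) (l 15784592))))))), by decide +kernel⟩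

theorem c_pm_202_a : CertB 0 536870912 1073741824 536870912 1033476505 6710887 3 eng mog cd2q2a cd5q2 pd0 false true false .pp 2 0 2
    ndB2q2a ndB5q2 pcB0 Cut.none Ext.none :=
  certB0 (fam := false) (s1 := true) (s2 := false) (a := 2) (b := 0) (c := 2) (cn := .pp) (n1 := ndB2q2a) (n2 := ndB5q2) (pc := pcB0) (cut := Cut.none) (xt := Ext.none) (P1 := 0) (W1 := 536870912) (P2 := 1073741824) (W2 := 536870912) (P3 := 1033476505) (W3 := 6710887) (N0 := 3) (En := eng) (mo := mog) (C1 := cd2q2a) (C2 := cd5q2) (C3 := pd0)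
    rfl k0_pm_202_a

noncomputable def f_pm_202_b : ℕ → ℕ → ℕ → ℕ → Bool := onCell 0 536870912 1073741824 536870912 1033476505 6710887
    (rowB 3 eng mog cd2q2b cd5q2 pd0 2 false true false .pp 2 0 2 (qsf 1239849684 370763052 1073741824 536870912 0) ndB2q2b ndB5q2 pcB0 Cut.none Ext.none)

def k0_pm_202_b : ∃ t, chk3 f_pm_202_b t 1 1 1 = true :=
  ⟨(a (a (b (b (l 1) (b (a (b (l 526699035335) (l 15066912)) (l 1)) (b (a (l 15549776) (l 15375344)) (l 400537038183)))) (a (b (b (l 16555512) (a (l 16032000) (l 16135304))) (a (a (l 15564576) (l 15636480)) (a (l 15691976) (l 15764808)))) (b (b (l 16264864) (l 16296672)) (b (l 16039544) (l 15928904))))) (b (l 1) (b (b (b (l 633539109303) (l 409664713895)) (a (l 16524512) (l 550862703207))) (a (l 16376280) (b (l 16706192) (l 16664400)))))) (b (l 1) (b (l 1) (a (a (b (l 16385520) (l 16296632)) (b (l 1) (l 15698416))) (l 1))))), by decide +kernel⟩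

theorem c_pm_202_b : CertB 1239849684 370763052 1073741824 536870912 1033476505 6710887 3 eng mog cd2q2b cd5q2 pd0 false true false .pp 2 0 2
    ndB2q2b ndB5q2 pcB0 Cut.none Ext.none :=
  certB2 (fam := false) (s1 := true) (s2 := false) (a := 2) (b := 0) (c := 2) (cn := .pp) (n1 := ndB2q2b) (n2 := ndB5q2) (pc := pcB0) (cut := Cut.none) (xt := Ext.none) (P1 := 1239849684) (W1 := 370763052) (P2 := 1073741824) (W2 := 536870912) (P3 := 1033476505) (W3 := 6710887) (N0 := 3) (En := eng) (mo := mog) (C1 := cd2q2b) (C2 := cd5q2) (C3 := pd0)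
    rfl (fun _ => rfl) k0_pm_202_b

noncomputable def f_pm_203_a : ℕ → ℕ → ℕ → ℕ → Bool := onCell 0 536870912 0 1230186008 1033476505 6710887
    (rowB 3 eng mog cd2q2a cd5q3 pd0 0 false true false .up 2 0 3 (qsf 0 536870912 0 1230186008 0) ndB2q2a ndB5q3 pcB0 Cut.none Ext.none)

def k0_pm_203_a : ∃ t, chk3 f_pm_203_a t 1 1 1 = true :=
  ⟨(b (l 2) (b (l 2) (a (b (b (l 2) (a (b (l 2) (l 14879744)) (b (l 2) (l 14394184)))) (b (a (b (l 14504144) (b (l 14264432) (l 14285216))) (b (a (l 14154720) (l 14048248)) (b (l 14255664) (l 14634568)))) (b (a (b (l 14518280) (l 14901448)) (l 15222088)) (a (l 15458176) (l 15866512))))) (b (l 2) (b (a (b (a (b (l 13934680) (l 14234352)) (l 2)) (a (l 14863016) (l 14990744))) (b (l 2) (a (l 14979088) (l 2)))) (a (b (l 15340848) (a (l 15940488) (l 15941928))) (b (a (l 15526552) (b (l 2) (l 15558624))) (a (b (l 15897200) (l 16007368)) (a (l 15829064) (l 15707024)))))))))), by decide +kernel⟩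

theorem c_pm_203_a : CertB 0 536870912 0 1230186008 1033476505 6710887 3 eng mog cd2q2a cd5q3 pd0 false true false .up 2 0 3
    ndB2q2a ndB5q3 pcB0 Cut.none Ext.none :=
  certB0 (fam := false) (s1 := true) (s2 := false) (a := 2) (b := 0) (c := 3) (cn := .up) (n1 := ndB2q2a) (n2 := ndB5q3) (pc := pcB0) (cut := Cut.none) (xt := Ext.none) (P1 := 0) (W1 := 536870912) (P2 := 0) (W2 := 1230186008) (P3 := 1033476505) (W3 := 6710887) (N0 := 3) (En := eng) (mo := mog) (C1 := cd2q2a) (C2 := cd5q3) (C3 := pd0)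
    rfl k0_pm_203_a

noncomputable def f_pm_203_b : ℕ → ℕ → ℕ → ℕ → Bool := onCell 0 536870912 0 1230186008 1033476505 6710887
    (rowB 3 eng mog cd2q2b cd5q3 pd0 2 false true false .up 2 0 3 (qsf 1239849684 370763052 0 1230186008 0) ndB2q2b ndB5q3 pcB0 Cut.none Ext.none)

def k0_pm_203_b : ∃ t, chk3 f_pm_203_b t 1 1 1 = true :=
  ⟨(b (a (l 2) (l 3)) (b (a (b (l 2) (a (l 2) (a (l 2) (b (l 2) (b (l 2) (l 16104200)))))) (a (a (b (l 2) (b (a (l 731854865719) (b (l 16589288) (l 16438728))) (b (a (l 16250784) (l 16402664)) (l 16473976)))) (b (b (l 3) (a (l 205788989367) (l 16406384))) (b (b (a (l 16605640) (l 16615504)) (l 16560824)) (l 16556664)))) (b (a (b (l 3) (l 200956549143)) (b (a (l 3) (l 16408296)) (l 83381984823))) (b (a (b (l 16585264) (l 16558152)) (b (l 16497184) (l 16391904))) (a (l 16342848) (l 16194736)))))) (a (b (a (l 2) (b (a (b (l 2) (l 16131792)) (b (l 16287080) (l 16412720))) (a (a (b (l 2) (l 16377000)) (l 16457528)) (a (l 16032864)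 (l 15976856))))) (a (a (a (a (l 15181448) (l 15144384)) (a (l 603003315719) (l 15447344))) (b (l 15796912) (l 15855680))) (b (a (l 16530256) (a (l 16097872) (l 15751352))) (a (l 16444576) (l 16292288))))) (b (a (b (a (b (l 16583072) (l 16293312)) (b (l 16325384) (l 16118688))) (a (l 15719840) (l 15512944))) (b (b (l 16057376) (a (l 15947200) (l 15849960))) (a (l 15374304) (l 15151496)))) (a (b (a (b (l 15189816) (l 15300344)) (b (l 14915360) (l 14528360))) (a (l 15736064) (l 14938816))) (b (a (b (l 14794288) (l 14438376)) (l 14466336)) (a (b (a (l 14505104) (l 14272352)) (l 14847328)) (l 1)))))))), by decide +kernel⟩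

theorem c_pm_203_b : CertB 1239849684 370763052 0 1230186008 1033476505 6710887 3 eng mog cd2q2b cd5q3 pd0 false true false .up 2 0 3
    ndB2q2b ndB5q3 pcB0 Cut.none Ext.none :=
  certB2 (fam := false) (s1 := true) (s2 := false) (a := 2) (b := 0) (c := 3) (cn := .up) (n1 := ndB2q2b) (n2 := ndB5q3) (pc := pcB0) (cut := Cut.none) (xt := Ext.none) (P1 := 1239849684) (W1 := 370763052) (P2 := 0) (W2 := 1230186008) (P3 := 1033476505) (W3 := 6710887) (N0 := 3) (En := eng) (mo := mog) (C1 := cd2q2b) (C2 := cd5q3) (C3 := pd0)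
    rfl (fun _ => rfl) k0_pm_203_b

noncomputable def cut_pm_213_a : Cut := Cut.of [[⟨0, 1, 0, 20971520⟩, ⟨1, 1, 0, 20971520⟩, ⟨2, 2, 0, 1572864⟩]]

noncomputable def f_pm_213_a : ℕ → ℕ → ℕ → ℕ → Bool := onCell 0 536870912 0 1230186008 1033476505 6710887
    (rowB 3 eng mog cd2q2a cd5q3 pd1 0 false true false .pnn 2 1 3 (qsf 0 536870912 0 1230186008 1) ndB2q2a ndB5q3 pcB1 cut_pm_213_a Ext.none)

def k0_pm_213_a : ∃ t, chk3 f_pm_213_a t 1 4 1 = true :=
  ⟨(a (b (l 3) (a (l 3) (b (l 3) (a (l 3) (b (l 3) (l 360944398951)))))) (a (b (l 3) (b (a (l 3) (b (a (l 3) (b (l 353428622743) (l 277729673031))) (a (b (l 342690942935) (l 16577888)) (b (l 16647480) (l 16671184))))) (a (b (a (l 366850045287) (l 334637783975)) (a (l 16552512) (l 16581184))) (a (b (l 16609488) (l 16630384)) (b (l 16678288) (l 16672664)))))) (a (b (b (l 3) (a (b (l 3) (a (l 446307427735) (b (l 338933215895) (l 16771032)))) (b (a (b (l 3) (l 348059926471)) (a (l 347523119687) (l 255718154407)))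 (a (a (l 215452869991) (l 124184770823)) (b (l 16716912) (l 16726264)))))) (b (a (b (a (l 256254996391) (l 16746112)) (l 16744968)) (b (a (l 16754816) (l 16734952)) (a (l 16737720) (l 16709176)))) (a (b (l 16714160) (l 16652136)) (b (l 16667152) (l 16594992))))) (b (a (b (b (l 3) (a (l 407115814935) (b (l 352355022967) (l 204715507063)))) (b (a (a (l 228337761943) (l 16739168)) (l 16747160)) (a (a (l 16732352) (l 16741736)) (l 16747768)))) (b (b (a (b (l 3) (a (l 413021472535) (l 6))) (l 6)) (a (b (a (l 241222754183) (l 6)) (l 16752912)) (l 16737560))) (b (a (l 16750064) (l 16752584)) (l 16751464)))) (b (a (b (a (l 16730392) (l 16747632)) (a (l 16695848) (l 16729864))) (b (l 16749392) (l 16738712))) (a (a (l 16594736) (l 16610624)) (b (l 16733840) (l 16741192)))))))), by decide +kernel⟩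

def k1_pm_213_a : ∃ t, chk3 f_pm_213_a t 1 5 1 = true :=
  ⟨(a (b (a (b (l 3) (a (b (l 3) (l 352354847655)) (b (l 287930286951) (l 16668160)))) (b (a (b (l 3) (l 233169342311)) (b (a (l 16595664) (l 16583448)) (l 16614024))) (a (b (l 16644536) (l 16620136)) (b (l 16609768) (l 16585144))))) (a (b (a (b (l 16639840) (l 16620704)) (b (l 16624856) (l 16553552))) (b (a (l 16528120) (l 16451456)) (a (l 16402440) (l 16318848)))) (b (a (l 16454464) (b (l 16542680) (l 16477712))) (a (b (l 16396240) (l 16303432)) (l 16387024))))) (a (b (a (b (b (a (l 16587840) (l 16606744)) (l 16605968)) (b (l 16585544) (l 16558272))) (b (a (l 16613928) (l 16594496)) (b (l 16538400) (l 16491880)))) (b (a (l 16479272) (l 16427864)) (l 16415720))) (b (a (b (a (l 16545912) (l 16470824)) (l 16411592)) (b (a (b (l 16450448) (l 16344792)) (l 16468008)) (l 16142456))) (a (b (l 16260552) (l 16188912)) (b (l 15957264) (l 15833744)))))), by decide +kernel⟩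

def k2_pm_213_a : ∃ t, chk3 f_pm_213_a t 1 3 1 = true :=
  ⟨(b (a (b (a (b (a (b (l 16237336) (l 16119024)) (b (l 16206336) (l 16142184))) (l 16065624)) (b (l 16254040) (l 16181408))) (b (a (l 16028184) (l 16149608)) (a (l 16067656) (b (l 16180816) (l 16231040))))) (b (a (b (l 16373080) (l 16304032)) (b (a (l 16159960) (l 15823416)) (a (l 16160184) (l 15816640)))) (a (b (a (l 16264688) (l 16329792)) (a (l 16366760) (l 16327888))) (b (a (l 16149000) (l 15736000)) (a (l 16040016) (l 15582392)))))) (b (a (b (a (b (l 16130024) (l 16235720)) (l 16303528)) (a (l 16553640) (l 16496592))) (b (a (l 16315992) (a (l 15871920) (l 15387736))) (a (a (l 16244816) (l 15983632)) (a (l 15647824) (b (l 15201880) (l 15151544)))))) (b (a (a (l 1) (b (l 16330192) (l 1))) (a (b (l 16006544) (l 16010744)) (l 15423480))) (a (l 1) (a (l 1) (a (b (l 15684368) (l 1)) (b (l 15333544) (l 15462088)))))))), by decide +kernel⟩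

theorem s3_pm_213_a : ∃ t, chk3 f_pm_213_a t 1 2 1 = true := ex3_b k0_pm_213_a k1_pm_213_a

theorem s4_pm_213_a : ∃ t, chk3 f_pm_213_a t 1 1 1 = true := ex3_b s3_pm_213_a k2_pm_213_a

theorem c_pm_213_a : CertB 0 536870912 0 1230186008 1033476505 6710887 3 eng mog cd2q2a cd5q3 pd1 false true false .pnn 2 1 3
    ndB2q2a ndB5q3 pcB1 cut_pm_213_a Ext.none :=
  certB0 (fam := false) (s1 := true) (s2 := false) (a := 2) (b := 1) (c := 3) (cn := .pnn) (n1 := ndB2q2a) (n2 := ndB5q3) (pc := pcB1) (cut := cut_pm_213_a) (xt := Ext.none) (P1 := 0) (W1 := 536870912) (P2 := 0) (W2 := 1230186008) (P3 := 1033476505) (W3 := 6710887) (N0 := 3) (En := eng) (mo := mog) (C1 := cd2q2a) (C2 := cd5q3) (C3 := pd1)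
    rfl s4_pm_213_a

noncomputable def cut_pm_213_b : Cut := Cut.of [[⟨0, 1, 0, 20971520⟩, ⟨1, 1, 0, 20971520⟩, ⟨2, 2, 0, 1572864⟩]]

noncomputable def f_pm_213_b : ℕ → ℕ → ℕ → ℕ → Bool := onCell 1239849684 370763052 0 1230186008 1033476505 6710887
    (rowB 3 eng mog cd2q2b cd5q3 pd1 0 false true false .pnn 2 1 3 (qsf 1239849684 370763052 0 1230186008 1) ndB2q2b ndB5q3 pcB1 cut_pm_213_b Ext.none)

def k0_pm_213_b : ∃ t, chk3 f_pm_213_b t 1 1 1 = true :=
  ⟨(b (b (l 3) (a (b (l 3) (a (b (a (b (a (l 242296275143) (l 3)) (a (l 16686096) (l 16715768))) (a (l 257328476519) (l 3))) (a (b (a (l 16590080) (l 16655176)) (a (l 16461304) (l 16506040))) (b (a (l 16739328) (l 16706216)) (a (l 16572640) (l 16660376))))) (b (l 3) (a (b (l 16616640) (a (l 16745280) (l 16649952))) (l 289003657639))))) (l 3))) (b (a (b (a (b (a (b (l 16283680) (a (l 16100920) (l 16100536))) (b (l 16315256) (l 16150224))) (a (b (l 15801600) (l 15924288)) (b (a (l 15881440) (l 15878040))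 (l 15775384)))) (b (a (b (l 16495128) (l 16291040)) (b (a (l 16712168) (l 16608456)) (l 16472064))) (a (b (l 15965088) (b (l 15717528) (l 15634096))) (b (l 16147048) (a (l 15697768) (l 15788584)))))) (a (b (l 15800824) (l 15889000)) (b (a (l 15650232) (b (l 15522704) (l 15569248))) (l 15731456)))) (b (a (a (b (b (l 16522600) (a (l 16707408) (l 16598984))) (b (l 16311024) (l 15949864))) (b (b (l 3) (l 16517688)) (l 1))) (l 1)) (l 1))) (b (a (a (b (b (l 15972072) (l 16072704)) (l 16352080)) (l 1)) (l 1)) (l 1)))), by decide +kernel⟩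

theorem c_pm_213_b : CertB 1239849684 370763052 0 1230186008 1033476505 6710887 3 eng mog cd2q2b cd5q3 pd1 false true false .pnn 2 1 3
    ndB2q2b ndB5q3 pcB1 cut_pm_213_b Ext.none :=
  certB0 (fam := false) (s1 := true) (s2 := false) (a := 2) (b := 1) (c := 3) (cn := .pnn) (n1 := ndB2q2b) (n2 := ndB5q3) (pc := pcB1) (cut := cut_pm_213_b) (xt := Ext.none) (P1 := 1239849684) (W1 := 370763052) (P2 := 0) (W2 := 1230186008) (P3 := 1033476505) (W3 := 6710887) (N0 := 3) (En := eng) (mo := mog) (C1 := cd2q2b) (C2 := cd5q3) (C3 := pd1)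
    rfl k0_pm_213_b

noncomputable def f_pm_303 : ℕ → ℕ → ℕ → ℕ → Bool := onCell 0 536870912 0 1230186008 1033476505 6710887
    (rowB 3 eng mog cd2q3 cd5q3 pd0 2 false true false .npn 3 0 3 (qsf 1610612736 536870912 0 1230186008 0) ndB2q3 ndB5q3 pcB0 Cut.none Ext.none)

def k0_pm_303 : ∃ t, chk3 f_pm_303 t 1 1 1 = true :=
  ⟨(b (a (l 3) (l 3)) (b (a (b (l 3) (b (a (l 3) (b (a (l 3) (a (l 3) (a (l 3) (l 16559072)))) (b (a (l 3) (a (l 16352184) (l 16449672))) (a (a (l 229409037015) (l 16076408)) (a (l 16230136) (l 16265608)))))) (a (a (b (l 184847508951) (a (b (l 14973792) (a (l 14920288) (l 15002440))) (a (a (l 15071296) (l 15114248)) (l 15183744)))) (a (a (l 15113408) (l 175721219127)) (a (b (l 15413744) (l 15432880)) (b (l 15522448) (l 15541984))))) (a (a (a (b (l 15603520) (l 15655440)) (b (l 15550080) (l 15710704))) (b (b (l 15931448) (l 15776936)) (l 15845248))) (b (b (a (l 16013968) (l 16074584)) (l 15997064)) (l 16109160)))))) (a (a (b (l 3)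 (b (a (a (l 190755617607) (l 189682008359)) (b (l 16556576) (l 16355128))) (b (a (l 16201656) (l 16338504)) (l 16443392)))) (b (a (b (l 3) (l 210620192199)) (l 218136801463)) (b (b (a (l 16543240) (l 1)) (l 1)) (l 1)))) (b (a (a (l 214915733879) (l 1)) (l 1)) (l 1)))) (a (b (a (b (a (a (a (b (l 14990288) (l 15099104)) (b (b (l 15071232) (l 15153496)) (l 15234824))) (a (a (l 15194272) (l 15115592)) (b (l 15240536) (l 15373840)))) (a (b (l 15406632) (l 15635976)) (b (l 15399656) (l 15904896)))) (a (a (a (l 15247128) (l 15366344)) (a (l 15383560) (l 15501208))) (b (a (l 15641360) (l 16097640)) (l 15969496)))) (b (a (b (l 15949912) (l 16236648)) (b (l 16316216) (l 16577800))) (a (b (l 16346864) (l 16475176)) (l 1)))) (a (a (a (a (l 15546048) (l 15422800)) (a (l 15656144) (l 15742616))) (b (l 16028288) (l 16097704))) (a (b (l 16631280) (l 1)) (l 1)))) (l 1)))), by decide +kernel⟩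

theorem c_pm_303 : CertB 1610612736 536870912 0 1230186008 1033476505 6710887 3 eng mog cd2q3 cd5q3 pd0 false true false .npn 3 0 3
    ndB2q3 ndB5q3 pcB0 Cut.none Ext.none :=
  certB2 (fam := false) (s1 := true) (s2 := false) (a := 3) (b := 0) (c := 3) (cn := .npn) (n1 := ndB2q3) (n2 := ndB5q3) (pc := pcB0) (cut := Cut.none) (xt := Ext.none) (P1 := 1610612736) (W1 := 536870912) (P2 := 0) (W2 := 1230186008) (P3 := 1033476505) (W3 := 6710887) (N0 := 3) (En := eng) (mo := mog) (C1 := cd2q3) (C2 := cd5q3) (C3 := pd0)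
    rfl (fun _ => rfl) k0_pm_303

noncomputable def f_pm_313 : ℕ → ℕ → ℕ → ℕ → Bool := onCell 1610612736 536870912 0 1230186008 1033476505 6710887
    (rowB 3 eng mog cd2q3 cd5q3 pd1 0 false true false .dn 3 1 3 (qsf 1610612736 536870912 0 1230186008 1) ndB2q3 ndB5q3 pcB1 Cut.none Ext.none)

def k0_pm_313 : ∃ t, chk3 f_pm_313 t 1 1 1 = true :=
  ⟨(b (l 3) (l 1)), by decide +kernel⟩

theorem c_pm_313 : CertB 1610612736 536870912 0 1230186008 1033476505 6710887 3 eng mog cd2q3 cd5q3 pd1 false true false .dn 3 1 3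
    ndB2q3 ndB5q3 pcB1 Cut.none Ext.none :=
  certB0 (fam := false) (s1 := true) (s2 := false) (a := 3) (b := 1) (c := 3) (cn := .dn) (n1 := ndB2q3) (n2 := ndB5q3) (pc := pcB1) (cut := Cut.none) (xt := Ext.none) (P1 := 1610612736) (W1 := 536870912) (P2 := 0) (W2 := 1230186008) (P3 := 1033476505) (W3 := 6710887) (N0 := 3) (En := eng) (mo := mog) (C1 := cd2q3) (C2 := cd5q3) (C3 := pd1)
    rfl k0_pm_313

noncomputable def f_mm_001 : ℕ → ℕ → ℕ → ℕ → Bool := onCell 0 536870912 0 536870912 1033476505 6710887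
    (rowB 3 eng mog cd2q0 cd5q1 pd0 1 false false false .up 0 0 1 (qsf 0 536870912 536870912 536870912 0) ndB2q0 ndB5q1 pcB0 Cut.none Ext.none)

def k0_mm_001 : ∃ t, chk3 f_mm_001 t 1 1 1 = true :=
  ⟨(l 3), by decide +kernel⟩

theorem c_mm_001 : CertB 0 536870912 536870912 536870912 1033476505 6710887 3 eng mog cd2q0 cd5q1 pd0 false false false .up 0 0 1
    ndB2q0 ndB5q1 pcB0 Cut.none Ext.none :=
  certB1 (fam := false) (s1 := false) (s2 := false) (a := 0) (b := 0) (c := 1) (cn := .up) (n1 := ndB2q0) (n2 := ndB5q1) (pc := pcB0) (cut := Cut.none) (xt := Ext.none) (P1 := 0) (W1 := 536870912) (P2 := 536870912) (W2 := 536870912) (P3 := 1033476505) (W3 := 6710887) (N0 := 3) (En := eng) (mo := mog) (C1 := cd2q0) (C2 := cd5q1) (C3 := pd0)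
    rfl (fun _ => rfl) k0_mm_001

noncomputable def f_mm_011 : ℕ → ℕ → ℕ → ℕ → Bool := onCell 0 536870912 536870912 536870912 1033476505 6710887
    (rowB 3 eng mog cd2q0 cd5q1 pd1 1 false false false .pnn 0 1 1 (qsf 0 536870912 536870912 536870912 1) ndB2q0 ndB5q1 pcB1 Cut.none Ext.none)

def k0_mm_011 : ∃ t, chk3 f_mm_011 t 1 1 1 = true :=
  ⟨(l 5), by decide +kernel⟩

theorem c_mm_011 : CertB 0 536870912 536870912 536870912 1033476505 6710887 3 eng mog cd2q0 cd5q1 pd1 false false false .pnn 0 1 1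
    ndB2q0 ndB5q1 pcB1 Cut.none Ext.none :=
  certB1 (fam := false) (s1 := false) (s2 := false) (a := 0) (b := 1) (c := 1) (cn := .pnn) (n1 := ndB2q0) (n2 := ndB5q1) (pc := pcB1) (cut := Cut.none) (xt := Ext.none) (P1 := 0) (W1 := 536870912) (P2 := 536870912) (W2 := 536870912) (P3 := 1033476505) (W3 := 6710887) (N0 := 3) (En := eng) (mo := mog) (C1 := cd2q0) (C2 := cd5q1) (C3 := pd1)
    rfl (fun _ => rfl) k0_mm_011

noncomputable def f_mm_012 : ℕ → ℕ → ℕ → ℕ → Bool := onCell 0 536870912 1073741824 536870912 1033476505 6710887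
    (rowB 3 eng mog cd2q0 cd5q2 pd1 0 false false false .pnp 0 1 2 (qsf 0 536870912 1073741824 536870912 1) ndB2q0 ndB5q2 pcB1 Cut.none Ext.none)

def k0_mm_012 : ∃ t, chk3 f_mm_012 t 1 1 1 = true :=
  ⟨(l 5), by decide +kernel⟩

theorem c_mm_012 : CertB 0 536870912 1073741824 536870912 1033476505 6710887 3 eng mog cd2q0 cd5q2 pd1 false false false .pnp 0 1 2
    ndB2q0 ndB5q2 pcB1 Cut.none Ext.none :=
  certB0 (fam := false) (s1 := false) (s2 := false) (a := 0) (b := 1) (c := 2) (cn := .pnp) (n1 := ndB2q0) (n2 := ndB5q2) (pc := pcB1) (cut := Cut.none) (xt := Ext.none) (P1 := 0) (W1 := 536870912) (P2 := 1073741824) (W2 := 536870912) (P3 := 1033476505) (W3 := 6710887) (N0 := 3) (En := eng) (mo := mog) (C1 := cd2q0) (C2 := cd5q2) (C3 := pd1)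
    rfl k0_mm_012

noncomputable def f_mm_022 : ℕ → ℕ → ℕ → ℕ → Bool := onCell 0 536870912 1073741824 536870912 1033476505 6710887
    (rowB 3 eng mog cd2q0 cd5q2 pd2 0 false false false .pp 0 2 2 (qsf 0 536870912 1073741824 536870912 2) ndB2q0 ndB5q2 pcB2 Cut.none Ext.none)

def k0_mm_022 : ∃ t, chk3 f_mm_022 t 1 1 1 = true :=
  ⟨(l 5), by decide +kernel⟩

theorem c_mm_022 : CertB 0 536870912 1073741824 536870912 1033476505 6710887 3 eng mog cd2q0 cd5q2 pd2 false false false .pp 0 2 2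
    ndB2q0 ndB5q2 pcB2 Cut.none Ext.none :=
  certB0 (fam := false) (s1 := false) (s2 := false) (a := 0) (b := 2) (c := 2) (cn := .pp) (n1 := ndB2q0) (n2 := ndB5q2) (pc := pcB2) (cut := Cut.none) (xt := Ext.none) (P1 := 0) (W1 := 536870912) (P2 := 1073741824) (W2 := 536870912) (P3 := 1033476505) (W3 := 6710887) (N0 := 3) (En := eng) (mo := mog) (C1 := cd2q0) (C2 := cd5q2) (C3 := pd2)
    rfl k0_mm_022

noncomputable def f_mm_023 : ℕ → ℕ → ℕ → ℕ → Bool := onCell 0 536870912 0 1230186008 1033476505 6710887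
    (rowB 3 eng mog cd2q0 cd5q3 pd2 0 false false false .up 0 2 3 (qsf 0 536870912 0 1230186008 2) ndB2q0 ndB5q3 pcB2 Cut.none Ext.none)

def k0_mm_023 : ∃ t, chk3 f_mm_023 t 1 1 1 = true :=
  ⟨(l 5), by decide +kernel⟩

theorem c_mm_023 : CertB 0 536870912 0 1230186008 1033476505 6710887 3 eng mog cd2q0 cd5q3 pd2 false false false .up 0 2 3
    ndB2q0 ndB5q3 pcB2 Cut.none Ext.none :=
  certB0 (fam := false) (s1 := false) (s2 := false) (a := 0) (b := 2) (c := 3) (cn := .up) (n1 := ndB2q0) (n2 := ndB5q3) (pc := pcB2) (cut := Cut.none) (xt := Ext.none) (P1 := 0) (W1 := 536870912) (P2 := 0) (W2 := 1230186008) (P3 := 1033476505) (W3 := 6710887) (N0 := 3) (En := eng) (mo := mog) (C1 := cd2q0) (C2 := cd5q3) (C3 := pd2)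
    rfl k0_mm_023

noncomputable def f_mm_033 : ℕ → ℕ → ℕ → ℕ → Bool := onCell 0 536870912 0 1230186008 1033476505 6710887
    (rowB 3 eng mog cd2q0 cd5q3 pd3 0 false false false .pnn 0 3 3 (qsf 0 536870912 0 1230186008 3) ndB2q0 ndB5q3 pcB3 Cut.none Ext.none)

def k0_mm_033 : ∃ t, chk3 f_mm_033 t 1 1 1 = true :=
  ⟨(l 5), by decide +kernel⟩

theorem c_mm_033 : CertB 0 536870912 0 1230186008 1033476505 6710887 3 eng mog cd2q0 cd5q3 pd3 false false false .pnn 0 3 3
    ndB2q0 ndB5q3 pcB3 Cut.none Ext.none :=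
  certB0 (fam := false) (s1 := false) (s2 := false) (a := 0) (b := 3) (c := 3) (cn := .pnn) (n1 := ndB2q0) (n2 := ndB5q3) (pc := pcB3) (cut := Cut.none) (xt := Ext.none) (P1 := 0) (W1 := 536870912) (P2 := 0) (W2 := 1230186008) (P3 := 1033476505) (W3 := 6710887) (N0 := 3) (En := eng) (mo := mog) (C1 := cd2q0) (C2 := cd5q3) (C3 := pd3)
    rfl k0_mm_033

noncomputable def f_mm_101 : ℕ → ℕ → ℕ → ℕ → Bool := onCell 536870912 536870912 536870912 536870912 1033476505 6710887
    (rowB 3 eng mog cd2q1 cd5q1 pd0 0 false false false .npn 1 0 1 (qsf 536870912 536870912 536870912 536870912 0) ndB2q1 ndB5q1 pcB0 Cut.none Ext.none)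

def k0_mm_101 : ∃ t, chk3 f_mm_101 t 1 1 1 = true :=
  ⟨(l 3), by decide +kernel⟩

theorem c_mm_101 : CertB 536870912 536870912 536870912 536870912 1033476505 6710887 3 eng mog cd2q1 cd5q1 pd0 false false false .npn 1 0 1
    ndB2q1 ndB5q1 pcB0 Cut.none Ext.none :=
  certB0 (fam := false) (s1 := false) (s2 := false) (a := 1) (b := 0) (c := 1) (cn := .npn) (n1 := ndB2q1) (n2 := ndB5q1) (pc := pcB0) (cut := Cut.none) (xt := Ext.none) (P1 := 536870912) (W1 := 536870912) (P2 := 536870912) (W2 := 536870912) (P3 := 1033476505) (W3 := 6710887) (N0 := 3) (En := eng) (mo := mog) (C1 := cd2q1) (C2 := cd5q1) (C3 := pd0)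
    rfl k0_mm_101

noncomputable def f_mm_102 : ℕ → ℕ → ℕ → ℕ → Bool := onCell 536870912 536870912 1073741824 536870912 1033476505 6710887
    (rowB 3 eng mog cd2q1 cd5q2 pd0 0 false false false .npp 1 0 2 (qsf 536870912 536870912 1073741824 536870912 0) ndB2q1 ndB5q2 pcB0 Cut.none Ext.none)

def k0_mm_102 : ∃ t, chk3 f_mm_102 t 1 1 1 = true :=
  ⟨(l 3), by decide +kernel⟩

theorem c_mm_102 : CertB 536870912 536870912 1073741824 536870912 1033476505 6710887 3 eng mog cd2q1 cd5q2 pd0 false false false .npp 1 0 2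
    ndB2q1 ndB5q2 pcB0 Cut.none Ext.none :=
  certB0 (fam := false) (s1 := false) (s2 := false) (a := 1) (b := 0) (c := 2) (cn := .npp) (n1 := ndB2q1) (n2 := ndB5q2) (pc := pcB0) (cut := Cut.none) (xt := Ext.none) (P1 := 536870912) (W1 := 536870912) (P2 := 1073741824) (W2 := 536870912) (P3 := 1033476505) (W3 := 6710887) (N0 := 3) (En := eng) (mo := mog) (C1 := cd2q1) (C2 := cd5q2) (C3 := pd0)
    rfl k0_mm_102

noncomputable def f_mm_112 : ℕ → ℕ → ℕ → ℕ → Bool := onCell 536870912 536870912 1073741824 536870912 1033476505 6710887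
    (rowB 3 eng mog cd2q1 cd5q2 pd1 0 false false false .dn 1 1 2 (qsf 536870912 536870912 1073741824 536870912 1) ndB2q1 ndB5q2 pcB1 Cut.none Ext.none)

def k0_mm_112 : ∃ t, chk3 f_mm_112 t 1 1 1 = true :=
  ⟨(l 3), by decide +kernel⟩

theorem c_mm_112 : CertB 536870912 536870912 1073741824 536870912 1033476505 6710887 3 eng mog cd2q1 cd5q2 pd1 false false false .dn 1 1 2
    ndB2q1 ndB5q2 pcB1 Cut.none Ext.none :=
  certB0 (fam := false) (s1 := false) (s2 := false) (a := 1) (b := 1) (c := 2) (cn := .dn) (n1 := ndB2q1) (n2 := ndB5q2) (pc := pcB1) (cut := Cut.none) (xt := Ext.none) (P1 := 536870912) (W1 := 536870912) (P2 := 1073741824) (W2 := 536870912) (P3 := 1033476505) (W3 := 6710887) (N0 := 3) (En := eng) (mo := mog) (C1 := cd2q1) (C2 := cd5q2) (C3 := pd1)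
    rfl k0_mm_112

noncomputable def f_mm_113 : ℕ → ℕ → ℕ → ℕ → Bool := onCell 536870912 536870912 0 1230186008 1033476505 6710887
    (rowB 3 eng mog cd2q1 cd5q3 pd1 0 false false false .nn 1 1 3 (qsf 536870912 536870912 0 1230186008 1) ndB2q1 ndB5q3 pcB1 Cut.none Ext.none)

def k0_mm_113 : ∃ t, chk3 f_mm_113 t 1 1 1 = true :=
  ⟨(l 5), by decide +kernel⟩

theorem c_mm_113 : CertB 536870912 536870912 0 1230186008 1033476505 6710887 3 eng mog cd2q1 cd5q3 pd1 false false false .nn 1 1 3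
    ndB2q1 ndB5q3 pcB1 Cut.none Ext.none :=
  certB0 (fam := false) (s1 := false) (s2 := false) (a := 1) (b := 1) (c := 3) (cn := .nn) (n1 := ndB2q1) (n2 := ndB5q3) (pc := pcB1) (cut := Cut.none) (xt := Ext.none) (P1 := 536870912) (W1 := 536870912) (P2 := 0) (W2 := 1230186008) (P3 := 1033476505) (W3 := 6710887) (N0 := 3) (En := eng) (mo := mog) (C1 := cd2q1) (C2 := cd5q3) (C3 := pd1)
    rfl k0_mm_113

noncomputable def f_mm_123 : ℕ → ℕ → ℕ → ℕ → Bool := onCell 536870912 536870912 0 1230186008 1033476505 6710887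
    (rowB 3 eng mog cd2q1 cd5q3 pd2 0 false false false .npn 1 2 3 (qsf 536870912 536870912 0 1230186008 2) ndB2q1 ndB5q3 pcB2 Cut.none Ext.none)

def k0_mm_123 : ∃ t, chk3 f_mm_123 t 1 1 1 = true :=
  ⟨(l 5), by decide +kernel⟩

theorem c_mm_123 : CertB 536870912 536870912 0 1230186008 1033476505 6710887 3 eng mog cd2q1 cd5q3 pd2 false false false .npn 1 2 3
    ndB2q1 ndB5q3 pcB2 Cut.none Ext.none :=
  certB0 (fam := false) (s1 := false) (s2 := false) (a := 1) (b := 2) (c := 3) (cn := .npn) (n1 := ndB2q1) (n2 := ndB5q3) (pc := pcB2) (cut := Cut.none) (xt := Ext.none) (P1 := 536870912) (W1 := 536870912) (P2 := 0) (W2 := 1230186008) (P3 := 1033476505) (W3 := 6710887) (N0 := 3) (En := eng) (mo := mog) (C1 := cd2q1) (C2 := cd5q3) (C3 := pd2)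
    rfl k0_mm_123

noncomputable def f_mm_133 : ℕ → ℕ → ℕ → ℕ → Bool := onCell 536870912 536870912 0 1230186008 1033476505 6710887
    (rowB 3 eng mog cd2q1 cd5q3 pd3 0 false false false .dn 1 3 3 (qsf 536870912 536870912 0 1230186008 3) ndB2q1 ndB5q3 pcB3 Cut.none Ext.none)

def k0_mm_133 : ∃ t, chk3 f_mm_133 t 1 1 1 = true :=
  ⟨(l 5), by decide +kernel⟩

theorem c_mm_133 : CertB 536870912 536870912 0 1230186008 1033476505 6710887 3 eng mog cd2q1 cd5q3 pd3 false false false .dn 1 3 3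
    ndB2q1 ndB5q3 pcB3 Cut.none Ext.none :=
  certB0 (fam := false) (s1 := false) (s2 := false) (a := 1) (b := 3) (c := 3) (cn := .dn) (n1 := ndB2q1) (n2 := ndB5q3) (pc := pcB3) (cut := Cut.none) (xt := Ext.none) (P1 := 536870912) (W1 := 536870912) (P2 := 0) (W2 := 1230186008) (P3 := 1033476505) (W3 := 6710887) (N0 := 3) (En := eng) (mo := mog) (C1 := cd2q1) (C2 := cd5q3) (C3 := pd3)
    rfl k0_mm_133

noncomputable def cut_mm_202_a : Cut := Cut.of [[⟨0, 1, 0, 33554432⟩, ⟨1, 0, 0, 33554432⟩, ⟨2, 1, 0, 33554432⟩]]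

noncomputable def f_mm_202_a : ℕ → ℕ → ℕ → ℕ → Bool := onCell 0 536870912 0 536870912 1033476505 6710887
    (rowB 3 eng mog cd2q2a cd5q2 pd0 1 false false false .pp 2 0 2 (qsf 0 536870912 1073741824 536870912 0) ndB2q2a ndB5q2 pcB0 cut_mm_202_a Ext.none)

def k0_mm_202_a : ∃ t, chk3 f_mm_202_a t 1 16 1 = true :=
  ⟨(a (a (b (l 16268960) (b (a (l 16366304) (l 16386712)) (b (a (l 16402512) (l 16421760)) (l 16459080)))) (b (a (b (l 16303784) (a (l 16350720) (l 16345560))) (b (a (l 16317544) (l 16337832)) (a (l 16348384) (l 16360848)))) (a (b (l 16323360) (l 16461072)) (b (a (l 16396416) (l 16405864)) (a (l 16466520) (b (l 16453784) (l 16482872))))))) (a (b (a (b (a (l 16381840) (l 16435600)) (a (l 16398512) (l 16408744))) (b (a (l 16487816) (l 16516464)) (a (b (l 16508264) (l 16501256)) (b (l 16543248) (l 16552016))))) (a (b (a (a (l 16417832) (l 16437760)) (a (l 16435000) (b (l 16482240) (l 16479712)))) (a (b (l 16413592) (l 16470808)) (a (l 16464088)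 (l 16476912)))) (b (a (b (l 16501248) (l 16494176)) (b (l 16569344) (l 16566368))) (a (a (l 16475520) (l 16499216)) (l 331416593367))))) (b (a (b (a (b (l 16575824) (l 16574832)) (a (b (l 16611240) (l 16630256)) (b (l 16636528) (l 16630112)))) (a (b (a (l 16599432) (l 16617688)) (a (l 16601328) (l 16619264))) (b (a (l 16636488) (b (l 16654472) (l 16656648))) (a (l 16638984) (l 16659232))))) (a (b (b (a (b (l 16658400) (l 16668416)) (a (a (l 16681128) (l 6)) (l 6))) (a (a (l 16668504) (l 16679920)) (b (a (l 16691192) (l 6)) (l 873119681399)))) (a (b (l 16656584) (l 3)) (l 3))) (b (l 6) (l 3)))) (a (a (b (b (l 16589712) (l 16575664)) (a (l 16578944) (l 3))) (b (a (l 561734432407) (l 3)) (l 3))) (l 3))))), by decide +kernel⟩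

def k1_mm_202_a : ∃ t, chk3 f_mm_202_a t 1 17 1 = true :=
  ⟨(a (b (b (a (a (l 16488040) (l 16470488)) (a (a (l 16480288) (l 16490568)) (a (b (l 16519544) (l 16524040)) (l 16520520)))) (a (a (l 16409712) (l 16400992)) (a (a (l 16398976) (l 16453760)) (a (l 16495104) (l 16543280))))) (a (a (l 16370560) (b (a (l 16365672) (l 16362640)) (a (l 16320680) (l 16327680)))) (a (b (a (l 16385840) (l 16412408)) (l 16353624)) (a (b (l 16449576) (l 16406536)) (b (l 16505512) (l 16469544)))))) (a (a (b (b (a (a (l 16505168) (l 16497848)) (a (l 16491056) (l 16487704))) (a (l 16524216) (a (l 16524960) (l 16514664)))) (a (b (l 16577160) (l 16546384)) (b (l 16537224) (l 16559752)))) (b (a (b (a (l 16495288) (l 16514152)) (a (l 16510456) (l 16512480))) (b (a (l 16537848) (l 3)) (l 3))) (l 3))) (l 3))), by decide +kernel⟩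

def k2_mm_202_a : ∃ t, chk3 f_mm_202_a t 1 9 1 = true :=
  ⟨(a (b (a (b (a (b (a (l 16327256) (l 16289472)) (l 16260920)) (b (l 16286512) (l 16233048))) (a (b (l 16221984) (l 16168416)) (a (l 16162736) (b (l 16181600) (l 16135864))))) (b (a (a (b (l 16292224) (l 16240920)) (b (l 16317152) (l 16276656))) (a (b (l 16368320) (l 16325664)) (b (l 16432880) (l 16388960)))) (a (b (a (l 16198152) (l 16230224)) (a (l 16155456) (l 16189016))) (b (a (l 16276808) (l 16340328)) (l 309941037015))))) (a (b (a (a (l 16116520) (l 16087784)) (a (b (l 16090840) (l 16059728)) (b (l 16103104) (l 16086808)))) (a (a (l 16031840) (l 15983200)) (b (l 16071328) (l 16088760)))) (a (b (b (a (l 16130600) (l 16171160)) (l 296519118359)) (a (l 267528061831) (l 3))) (l 3)))) (a (b (a (b (a (b (l 16487888) (l 3)) (l 3)) (l 3)) (l 3)) (l 3)) (l 3))), by decide +kernel⟩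

def k3_mm_202_a : ∃ t, chk3 f_mm_202_a t 1 5 1 = true :=
  ⟨(a (a (a (b (b (b (a (b (l 15990072) (l 15993552)) (l 16042952)) (b (l 16072352) (l 16131896))) (b (a (l 16192016) (l 228873471159)) (a (l 220820512647) (l 16392408)))) (b (b (l 338932483591) (l 3)) (l 3))) (b (b (b (a (l 227799467431) (l 246053216727)) (a (l 235852715719) (l 3))) (l 3)) (l 3))) (b (l 3) (l 3))) (l 3)), by decide +kernel⟩

def k4_mm_202_a : ∃ t, chk3 f_mm_202_a t 1 3 1 = true :=
  ⟨(l 3), by decide +kernel⟩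

theorem s5_mm_202_a : ∃ t, chk3 f_mm_202_a t 1 8 1 = true := ex3_b k0_mm_202_a k1_mm_202_a

theorem s6_mm_202_a : ∃ t, chk3 f_mm_202_a t 1 4 1 = true := ex3_b s5_mm_202_a k2_mm_202_a

theorem s7_mm_202_a : ∃ t, chk3 f_mm_202_a t 1 2 1 = true := ex3_b s6_mm_202_a k3_mm_202_a

theorem s8_mm_202_a : ∃ t, chk3 f_mm_202_a t 1 1 1 = true := ex3_b s7_mm_202_a k4_mm_202_a

theorem c_mm_202_a : CertB 0 536870912 1073741824 536870912 1033476505 6710887 3 eng mog cd2q2a cd5q2 pd0 false false false .pp 2 0 2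
    ndB2q2a ndB5q2 pcB0 cut_mm_202_a Ext.none :=
  certB1 (fam := false) (s1 := false) (s2 := false) (a := 2) (b := 0) (c := 2) (cn := .pp) (n1 := ndB2q2a) (n2 := ndB5q2) (pc := pcB0) (cut := cut_mm_202_a) (xt := Ext.none) (P1 := 0) (W1 := 536870912) (P2 := 1073741824) (W2 := 536870912) (P3 := 1033476505) (W3 := 6710887) (N0 := 3) (En := eng) (mo := mog) (C1 := cd2q2a) (C2 := cd5q2) (C3 := pd0)
    rfl (fun _ => rfl) s8_mm_202_a

noncomputable def cut_mm_202_b : Cut := Cut.of [[⟨0, 1, 0, 33554432⟩, ⟨1, 0, 0, 33554432⟩, ⟨2, 1, 0, 33554432⟩]]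

noncomputable def f_mm_202_b : ℕ → ℕ → ℕ → ℕ → Bool := onCell 0 536870912 1073741824 536870912 1033476505 6710887
    (rowB 3 eng mog cd2q2b cd5q2 pd0 2 false false false .pp 2 0 2 (qsf 1239849684 370763052 1073741824 536870912 0) ndB2q2b ndB5q2 pcB0 cut_mm_202_b Ext.none)

def k0_mm_202_b : ∃ t, chk3 f_mm_202_b t 2 2 1 = true :=
  ⟨(a (b (l 1) (a (b (a (a (b (l 389263443431) (l 16338976)) (b (l 1) (a (l 16338448) (l 16352224)))) (a (b (l 1) (a (l 16380264) (l 1))) (l 1))) (a (a (b (l 16297656) (l 16000344)) (b (a (l 16375056) (l 16403400)) (a (l 16074056) (l 16037080)))) (a (a (b (l 16376472) (l 16078712)) (b (b (l 16443136) (l 16293704)) (l 16076280))) (b (l 16300688) (l 16152568))))) (b (l 1) (a (b (a (l 16474536) (l 1)) (a (l 16076448) (b (l 16358488) (l 16208408)))) (b (l 1) (a (l 436508245431) (l 1))))))) (l 1)), by decide +kernel⟩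

def k1_mm_202_b : ∃ t, chk3 f_mm_202_b t 2 3 1 = true :=
  ⟨(a (b (a (b (a (a (b (a (l 15710288) (l 15750608)) (a (l 15498232) (l 15523624))) (b (a (l 15805672) (l 15814008)) (a (l 15550688) (l 15560600)))) (a (a (b (l 15803624) (l 15572664)) (b (l 15817888) (l 15606616))) (b (b (l 15942000) (l 15811240)) (b (l 15709432) (l 15615056))))) (a (a (b (a (l 15343632) (l 15354608)) (b (l 15300432) (l 15306472))) (b (a (l 15378088) (l 15409496)) (l 15373032))) (b (a (l 15461832) (b (l 15541240) (l 15508392))) (l 15473360)))) (a (b (b (a (l 15904504) (l 15997888)) (a (l 15715968) (b (l 15819320) (l 15717536)))) (b (a (l 15583864) (b (l 15650688) (l 15604800))) (a (l 15564144) (b (l 15590360) (l 3))))) (b (b (b (l 16148176) (l 16014768)) (a (b (l 15869656) (l 15773368)) (l 15732528))) (a (b (a (l 15675800) (l 15725728)) (l 15681016)) (b (l 15809128) (l 15817856)))))) (l 3)) (b (b (a (a (b (l 449392816199) (b (a (l 15970824) (l 16029904)) (l 171830319655)))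 (b (l 1) (b (l 1) (l 579315688247)))) (l 1)) (b (a (a (a (l 15929840) (l 16052184)) (a (l 16086024) (l 241087238087))) (a (a (l 610454612199) (l 1)) (l 1))) (b (a (a (l 16031648) (l 16179096)) (a (a (l 16478016) (l 595959651991)) (l 1))) (l 3)))) (l 3))), by decide +kernel⟩

def k2_mm_202_b : ∃ t, chk3 f_mm_202_b t 3 1 1 = true :=
  ⟨(b (l 1) (a (b (l 1) (a (l 3) (b (l 1) (l 3)))) (l 1))), by decide +kernel⟩

theorem s3_mm_202_b : ∃ t, chk3 f_mm_202_b t 2 1 1 = true := ex3_b k0_mm_202_b k1_mm_202_b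

theorem s4_mm_202_b : ∃ t, chk3 f_mm_202_b t 1 1 1 = true := ex3_a s3_mm_202_b k2_mm_202_b

theorem c_mm_202_b : CertB 1239849684 370763052 1073741824 536870912 1033476505 6710887 3 eng mog cd2q2b cd5q2 pd0 false false false .pp 2 0 2
    ndB2q2b ndB5q2 pcB0 cut_mm_202_b Ext.none :=
  certB2 (fam := false) (s1 := false) (s2 := false) (a := 2) (b := 0) (c := 2) (cn := .pp) (n1 := ndB2q2b) (n2 := ndB5q2) (pc := pcB0) (cut := cut_mm_202_b) (xt := Ext.none) (P1 := 1239849684) (W1 := 370763052) (P2 := 1073741824) (W2 := 536870912) (P3 := 1033476505) (W3 := 6710887) (N0 := 3) (En := eng) (mo := mog) (C1 := cd2q2b) (C2 := cd5q2) (C3 := pd0)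
    rfl (fun _ => rfl) s4_mm_202_b

noncomputable def f_mm_203_a : ℕ → ℕ → ℕ → ℕ → Bool := onCell 0 536870912 0 1230186008 1033476505 6710887
    (rowB 3 eng mog cd2q2a cd5q3 pd0 0 false false false .up 2 0 3 (qsf 0 536870912 0 1230186008 0) ndB2q2a ndB5q3 pcB0 Cut.none Ext.none)

def k0_mm_203_a : ∃ t, chk3 f_mm_203_a t 1 1 1 = true :=
  ⟨(b (l 2) (l 3)), by decide +kernel⟩

theorem c_mm_203_a : CertB 0 536870912 0 1230186008 1033476505 6710887 3 eng mog cd2q2a cd5q3 pd0 false false false .up 2 0 3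
    ndB2q2a ndB5q3 pcB0 Cut.none Ext.none :=
  certB0 (fam := false) (s1 := false) (s2 := false) (a := 2) (b := 0) (c := 3) (cn := .up) (n1 := ndB2q2a) (n2 := ndB5q3) (pc := pcB0) (cut := Cut.none) (xt := Ext.none) (P1 := 0) (W1 := 536870912) (P2 := 0) (W2 := 1230186008) (P3 := 1033476505) (W3 := 6710887) (N0 := 3) (En := eng) (mo := mog) (C1 := cd2q2a) (C2 := cd5q3) (C3 := pd0)
    rfl k0_mm_203_a

noncomputable def f_mm_203_b : ℕ → ℕ → ℕ → ℕ → Bool := onCell 1239849684 370763052 0 1230186008 1033476505 6710887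
    (rowB 3 eng mog cd2q2b cd5q3 pd0 0 false false false .up 2 0 3 (qsf 1239849684 370763052 0 1230186008 0) ndB2q2b ndB5q3 pcB0 Cut.none Ext.none)

def k0_mm_203_b : ∃ t, chk3 f_mm_203_b t 1 1 1 = true :=
  ⟨(b (l 3) (b (l 3) (l 3))), by decide +kernel⟩

theorem c_mm_203_b : CertB 1239849684 370763052 0 1230186008 1033476505 6710887 3 eng mog cd2q2b cd5q3 pd0 false false false .up 2 0 3
    ndB2q2b ndB5q3 pcB0 Cut.none Ext.none :=
  certB0 (fam := false) (s1 := false) (s2 := false) (a := 2) (b := 0) (c := 3) (cn := .up) (n1 := ndB2q2b) (n2 := ndB5q3) (pc := pcB0) (cut := Cut.none) (xt := Ext.none) (P1 := 1239849684) (W1 := 370763052) (P2 := 0) (W2 := 1230186008) (P3 := 1033476505) (W3 := 6710887) (N0 := 3) (En := eng) (mo := mog) (C1 := cd2q2b) (C2 := cd5q3) (C3 := pd0)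
    rfl k0_mm_203_b

noncomputable def f_mm_213_a : ℕ → ℕ → ℕ → ℕ → Bool := onCell 0 536870912 0 1230186008 1033476505 6710887
    (rowB 3 eng mog cd2q2a cd5q3 pd1 0 false false false .pnn 2 1 3 (qsf 0 536870912 0 1230186008 1) ndB2q2a ndB5q3 pcB1 Cut.none Ext.none)

def k0_mm_213_a : ∃ t, chk3 f_mm_213_a t 1 1 1 = true :=
  ⟨(b (b (l 5) (l 3)) (l 3)), by decide +kernel⟩

theorem c_mm_213_a : CertB 0 536870912 0 1230186008 1033476505 6710887 3 eng mog cd2q2a cd5q3 pd1 false false false .pnn 2 1 3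
    ndB2q2a ndB5q3 pcB1 Cut.none Ext.none :=
  certB0 (fam := false) (s1 := false) (s2 := false) (a := 2) (b := 1) (c := 3) (cn := .pnn) (n1 := ndB2q2a) (n2 := ndB5q3) (pc := pcB1) (cut := Cut.none) (xt := Ext.none) (P1 := 0) (W1 := 536870912) (P2 := 0) (W2 := 1230186008) (P3 := 1033476505) (W3 := 6710887) (N0 := 3) (En := eng) (mo := mog) (C1 := cd2q2a) (C2 := cd5q3) (C3 := pd1)
    rfl k0_mm_213_a

noncomputable def f_mm_213_b : ℕ → ℕ → ℕ → ℕ → Bool := onCell 1239849684 370763052 0 1230186008 1033476505 6710887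
    (rowB 3 eng mog cd2q2b cd5q3 pd1 0 false false false .pnn 2 1 3 (qsf 1239849684 370763052 0 1230186008 1) ndB2q2b ndB5q3 pcB1 Cut.none Ext.none)

def k0_mm_213_b : ∃ t, chk3 f_mm_213_b t 1 1 1 = true :=
  ⟨(b (l 3) (b (l 3) (l 3))), by decide +kernel⟩

theorem c_mm_213_b : CertB 1239849684 370763052 0 1230186008 1033476505 6710887 3 eng mog cd2q2b cd5q3 pd1 false false false .pnn 2 1 3
    ndB2q2b ndB5q3 pcB1 Cut.none Ext.none :=
  certB0 (fam := false) (s1 := false) (s2 := false) (a := 2) (b := 1) (c := 3) (cn := .pnn) (n1 := ndB2q2b) (n2 := ndB5q3) (pc := pcB1) (cut := Cut.none) (xt := Ext.none) (P1 := 1239849684) (W1 := 370763052) (P2 := 0) (W2 := 1230186008) (P3 := 1033476505) (W3 := 6710887) (N0 := 3) (En := eng) (mo := mog) (C1 := cd2q2b) (C2 := cd5q3) (C3 := pd1)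
    rfl k0_mm_213_b

noncomputable def f_mm_303 : ℕ → ℕ → ℕ → ℕ → Bool := onCell 0 536870912 0 1230186008 1033476505 6710887
    (rowB 3 eng mog cd2q3 cd5q3 pd0 2 false false false .npn 3 0 3 (qsf 1610612736 536870912 0 1230186008 0) ndB2q3 ndB5q3 pcB0 Cut.none Ext.none)

def k0_mm_303 : ∃ t, chk3 f_mm_303 t 1 1 1 = true :=
  ⟨(b (l 3) (b (l 3) (l 3))), by decide +kernel⟩

theorem c_mm_303 : CertB 1610612736 536870912 0 1230186008 1033476505 6710887 3 eng mog cd2q3 cd5q3 pd0 false false false .npn 3 0 3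
    ndB2q3 ndB5q3 pcB0 Cut.none Ext.none :=
  certB2 (fam := false) (s1 := false) (s2 := false) (a := 3) (b := 0) (c := 3) (cn := .npn) (n1 := ndB2q3) (n2 := ndB5q3) (pc := pcB0) (cut := Cut.none) (xt := Ext.none) (P1 := 1610612736) (W1 := 536870912) (P2 := 0) (W2 := 1230186008) (P3 := 1033476505) (W3 := 6710887) (N0 := 3) (En := eng) (mo := mog) (C1 := cd2q3) (C2 := cd5q3) (C3 := pd0)
    rfl (fun _ => rfl) k0_mm_303

noncomputable def f_mm_313 : ℕ → ℕ → ℕ → ℕ → Bool := onCell 1610612736 536870912 0 1230186008 1033476505 6710887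
    (rowB 3 eng mog cd2q3 cd5q3 pd1 0 false false false .dn 3 1 3 (qsf 1610612736 536870912 0 1230186008 1) ndB2q3 ndB5q3 pcB1 Cut.none Ext.none)

def k0_mm_313 : ∃ t, chk3 f_mm_313 t 1 1 1 = true :=
  ⟨(b (l 3) (l 1)), by decide +kernel⟩

theorem c_mm_313 : CertB 1610612736 536870912 0 1230186008 1033476505 6710887 3 eng mog cd2q3 cd5q3 pd1 false false false .dn 3 1 3
    ndB2q3 ndB5q3 pcB1 Cut.none Ext.none :=
  certB0 (fam := false) (s1 := false) (s2 := false) (a := 3) (b := 1) (c := 3) (cn := .dn) (n1 := ndB2q3) (n2 := ndB5q3) (pc := pcB1) (cut := Cut.none) (xt := Ext.none) (P1 := 1610612736) (W1 := 536870912) (P2 := 0) (W2 := 1230186008) (P3 := 1033476505) (W3 := 6710887) (N0 := 3) (En := eng) (mo := mog) (C1 := cd2q3) (C2 := cd5q3) (C3 := pd1)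
    rfl k0_mm_313

end Pool.Agent.Strip051.G.I9625_9688.Tab.C.BB25

namespace Pool.Agent.Strip051.G.I9625_9688.Tab.C.BB30

open Pool.Agent.Strip051.PB Pool.Agent.Strip051.PB.T
open Pool.Agent.Strip051.G.I9625_9688.Tab

noncomputable def f_pp_001 : ℕ → ℕ → ℕ → ℕ → Bool := onCell 0 536870912 536870912 536870912 1033476505 6710887
    (rowB 3 eng mog cd3q0 cd0q1 pd0 0 false true true .up 0 0 1 (qsf 0 536870912 536870912 536870912 0) ndB3q0 ndB0q1 pcB0 Cut.none Ext.none)

def k0_pp_001 : ∃ t, chk3 f_pp_001 t 1 1 1 = true :=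
  ⟨(b (l 3) (b (l 3) (a (l 2) (b (l 3) (a (l 2) (b (l 3) (a (l 2) (b (l 3) (a (l 2) (b (a (b (l 3) (l 2)) (l 3)) (a (l 2) (b (c (a (l 256248996951) (b (b (l 243900935015) (l 13646024)) (l 13640456))) (a (l 13631856) (l 261080764295))) (l 13621896))))))))))))), by decide +kernel⟩

theorem c_pp_001 : CertB 0 536870912 536870912 536870912 1033476505 6710887 3 eng mog cd3q0 cd0q1 pd0 false true true .up 0 0 1
    ndB3q0 ndB0q1 pcB0 Cut.none Ext.none :=
  certB0 (fam := false) (s1 := true) (s2 := true) (a := 0) (b := 0) (c := 1) (cn := .up) (n1 := ndB3q0) (n2 := ndB0q1) (pc := pcB0) (cut := Cut.none) (xt := Ext.none) (P1 := 0) (W1 := 536870912) (P2 := 536870912) (W2 := 536870912) (P3 := 1033476505) (W3 := 6710887) (N0 := 3) (En := eng) (mo := mog) (C1 := cd3q0) (C2 := cd0q1) (C3 := pd0)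
    rfl k0_pp_001

noncomputable def xt_pp_011 : Ext := extD3 3 ⟨4, 1, 1, 5, 27, 5, 41, 50, 81, 200, 1, 64⟩ eng cd3q0 cd0q1 pd1 false true true .pnn 0 1 1 rfl ndB3q0 ndB0q1 pcB1

noncomputable def f_pp_011 : ℕ → ℕ → ℕ → ℕ → Bool := onCell 0 536870912 536870912 536870912 1033476505 6710887
    (rowB 3 eng mog cd3q0 cd0q1 pd1 0 false true true .pnn 0 1 1 (qsf 0 536870912 536870912 536870912 1) ndB3q0 ndB0q1 pcB1 Cut.none xt_pp_011)

def k0_pp_011 : ∃ t, chk3 f_pp_011 t 2 2 1 = true :=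
  ⟨(l 3), by decide +kernel⟩

def k1_pp_011 : ∃ t, chk3 f_pp_011 t 4 6 1 = true :=
  ⟨(l 3), by decide +kernel⟩

def k2_pp_011 : ∃ t, chk3 f_pp_011 t 8 14 1 = true :=
  ⟨(l 3), by decide +kernel⟩

def k3_pp_011 : ∃ t, chk3 f_pp_011 t 8 30 1 = true :=
  ⟨(l 3), by decide +kernel⟩

def k4_pp_011 : ∃ t, chk3 f_pp_011 t 8 62 1 = true :=
  ⟨(l 3), by decide +kernel⟩

def k5_pp_011 : ∃ t, chk3 f_pp_011 t 8 504 1 = true :=
  ⟨(a (l 3) (l 3)), by decide +kernel⟩

def k6_pp_011 : ∃ t, chk3 f_pp_011 t 8 1010 1 = true :=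
  ⟨(a (a (a (l 3) (l 3)) (l 3)) (a (l 3) (l 3))), by decide +kernel⟩

def k7_pp_011 : ∃ t, chk3 f_pp_011 t 64 2022 1 = true :=
  ⟨(a (a (b (b (b (l 3) (c (a (c (l 16780624) (l 16778096)) (l 16785328)) (a (c (l 402284083239) (c (l 16776256) (l 401747207399))) (c (l 16781576) (l 16779048))))) (c (a (l 16774792) (l 16780760)) (a (l 16774960) (l 16775760)))) (c (b (l 16768184) (l 16769080)) (l 16763616))) (c (a (a (b (l 445770654743) (l 16776104)) (b (l 450602488455) (l 16779104))) (a (b (b (l 477446039127) (a (l 16780008) (l 16781512))) (l 16782112)) (l 385641121959))) (a (b (b (c (l 461339895383) (l 458655546343)) (l 16781824)) (l 16772704)) (c (b (l 451676242535) (l 16780008)) (b (b (l 464561128103) (l 16776208)) (l 16777584)))))) (c (a (a (l 362555675127) (c (l 347523278615) (l 336248994167))) (b (a (c (l 374366823559) (l 370608731799)) (b (c (l 402284103591) (l 401210366311)) (l 16780864))) (l 16770520))) (b (a (c (b (l 309942332855) (l 16784912))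 (c (l 397452284727) (a (l 455971216055) (l 377588074487)))) (a (c (l 364166275031) (l 353428871975)) (c (l 376514307511) (l 372756215719)))) (a (l 16784016) (l 16775112))))), by decide +kernel⟩

def k8_pp_011 : ∃ t, chk3 f_pp_011 t 65 2022 1 = true :=
  ⟨(b (b (b (l 3) (a (a (c (a (c (l 406042193271) (l 406579068455)) (c (c (l 405505313879) (l 406042186631)) (l 406579059143))) (a (c (l 373829946951) (l 374366822199)) (c (l 407115934407) (l 375977425575)))) (c (a (a (c (l 399062861415) (l 406579055143)) (c (l 399062856791) (l 406042179719))) (a (c (c (l 392620401463) (l 394767886999)) (l 405505304167)) (c (l 395304751031) (l 392620401687)))) (a (c (c (l 407115925255) (l 407652798295)) (c (l 377588029367) (l 378124902423))) (a (c (l 406579049655) (c (l 379198637511) (l 379198639447))) (c (l 403357819447) (c (l 373829927287) (l 380809247287))))))) (a (a (c (c (l 8020618924532434470893348095) (c (l 382956718983) (l 403357807943))) (c (c (l 403894680695)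 (l 404431553463)) (c (l 382419848087) (b (l 425369523751) (l 16774616))))) (b (l 3) (c (c (l 604011973528582782985471) (l 604361596971556278412543)) (c (l 604714390950179271156991) (l 605070211209900575855679))))) (c (a (c (l 6936816353092969508311793919) (l 400673422951)) (l 6975501979320585002766008575)) (a (c (l 6956762904793660639604221183) (l 6966434704785035966131168511)) (c (l 388325379303) (l 7004516198991308409021071487))))))) (a (a (c (a (l 16781632) (c (l 16781256) (l 16783416))) (c (l 16782664) (l 16779632))) (c (a (c (l 16776672) (l 16778776)) (c (l 16772016) (l 16774064))) (a (c (l 16780896) (l 16783024)) (c (l 16776120) (l 16778200))))) (a (a (c (c (l 16767264) (l 16769248)) (c (l 16771248) (l 16773264))) (c (l 603654567853014948832511) (c (l 604558458309122050974975) (l 604912981671238904603903)))) (c (c (l 144195967766954239) (l 144184972611453183)) (c (l 602306802539019117651199) (l 602717242587031318503551)))))) (a (a (c (l 16761584)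 (l 16765968)) (c (l 16762880) (l 16767040))) (a (a (c (l 16766248) (l 16770240)) (c (l 602907762930744975598847) (l 603604992205914330326271))) (c (l 16739424) (l 16743072))))), by decide +kernel⟩

def k9_pp_011 : ∃ t, chk3 f_pp_011 t 32 2023 1 = true :=
  ⟨(a (a (c (l 603114423928888928462463) (l 602918715455584430859903)) (a (l 16777440) (l 16768648))) (a (a (l 16759648) (l 16750392)) (a (a (l 16764208) (l 16748624)) (l 16732088)))), by decide +kernel⟩

def k10_pp_011 : ∃ t, chk3 f_pp_011 t 33 1011 1 = true :=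
  ⟨(a (a (b (c (a (c (l 6240475080994626306834530559) (l 6240475080994605416117010559)) (l 6192118048209905418844012671)) (b (a (c (l 6598317123600528230134956159) (a (l 6617659936714560002886041727) (l 6598317123600656598120579199))) (b (l 7255972769470740884570128447) (l 143903566290370623))) (l 143781589233238079))) (l 143773342885101631)) (c (l 5901975851502040099207282751) (l 5901975851501996393625223231))) (a (a (a (b (l 6221132267880066149922275391) (l 143013511541997631)) (l 5844540966991433815390707775)) (a (l 5892900605377645707591082047) (a (l 5815531592182882061031809599) (l 5776846315001879764100227647)))) (a (c (a (l 5660787592368577694200943167) (l 5593086091163108221035074111)) (l 5409324788042159416215999039)) (a (b (c (l 6618255340111334626082312767) (l 16234960)) (l 586952914456131569521215)) (c (l 6357125537711602555487130175) (l 301888255847)))))), by decide +kernel⟩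

def k11_pp_011 : ∃ t, chk3 f_pp_011 t 17 1011 1 = true :=
  ⟨(a (a (a (a (c (l 6299095177602873680012055103) (l 578311191318350556598847)) (c (l 582520219501294186385983) (b (l 324973485431) (l 16095664)))) (a (c (l 577524747993715848421951) (l 314772813511)) (c (a (l 323899728775) (l 327657770407)) (l 321215048471)))) (a (a (a (c (l 331415815191) (l 15941296)) (c (b (l 350743117287) (l 16061880)) (l 15918824))) (a (c (l 338931908135) (l 15897240)) (c (b (l 358259213015) (l 16014640)) (l 15876712)))) (a (c (l 346447963319) (l 15848328)) (c (l 349132236167) (l 355574455079))))) (a (a (a (c (l 352353388791) (l 359869360359)) (b (c (l 371143805623) (l 379196657271)) (l 15816016))) (b (b (l 3) (a (c (l 351279531351) (l 358795521671)) (c (a (l 15813152) (l 15779640)) (a (l 15711992) (l 352889894935))))) (a (c (l 15840688) (l 15736320)) (c (l 15813832) (l 15713896))))) (b (b (l 3) (a (a (c (b (a (l 353963615735) (l 354500466647)) (l 15784040)) (a (b (l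 359332324183) (l 15692848)) (a (l 349131756487) (l 348057992295)))) (a (c (a (l 344836781367) (l 344836771495)) (c (l 345373602119) (l 345373548311))) (c (c (l 346984326391) (l 344836752567)) (c (l 343762964919) (l 342152307607))))) (a (a (c (c (l 346447436039) (l 344299864503)) (c (l 343226084471) (l 342152291767))) (c (c (l 345910547335) (l 344299847463)) (c (l 343762935735) (l 343226019559)))) (a (c (c (l 345373659223) (l 344299832279)) (c (l 344836676359) (l 344299747287))) (c (c (l 344836771671) (l 344299817847)) (c (l 345373537351) (l 345373477079))))))) (a (a (c (l 15789552) (l 15693736)) (c (l 15767584) (l 15675624))) (a (c (l 15747704) (l 15659344)) (c (l 15729704) (l 15644744))))))), by decide +kernel⟩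

def k12_pp_011 : ∃ t, chk3 f_pp_011 t 8 253 1 = true :=
  ⟨(a (a (a (b (b (l 601687395261039047583359) (l 16741240)) (l 16724624)) (b (a (l 16736112) (a (l 16727280) (l 16713696))) (l 143674524335472767))) (a (b (l 143177407479480383) (l 16631656)) (a (a (a (l 143111642926874687) (l 143199260262694975)) (b (l 591502772909192215142463) (l 16642720))) (b (a (l 590388184746364974702655) (b (l 586767870554642190881343) (l 16394984))) (l 590135695454176376152127))))) (a (a (a (b (a (l 591055147747570143273535) (c (l 16295424) (l 16140160))) (l 582540534749174845727295)) (a (b (a (l 16168592) (l 16138008)) (l 16221288)) (b (b (l 16100384) (l 16111168)) (l 16159408)))) (a (a (b (c (l 16111688) (l 15974808)) (l 16104112)) (a (b (l 16007624) (l 16066288)) (b (b (l 15970456) (l 15998712)) (l 16041456)))) (b (l 15930784) (l 15982296)))) (a (b (a (l 15858712) (a (l 15813952) (l 15787792))) (l 15870144)) (b (a (a (l 15764200) (l 15742896)) (a (l 15723656) (l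 15706280))) (l 15766152))))), by decide +kernel⟩

def k13_pp_011 : ∃ t, chk3 f_pp_011 t 8 127 1 = true :=
  ⟨(a (a (a (b (l 16691872) (l 16691624)) (l 143057835554865279)) (a (l 142341847259414591) (a (l 142077071097004095) (l 142754370291613759)))) (b (a (a (a (b (l 583010639471243791671359) (l 16480216)) (b (l 16298896) (l 16324352))) (a (a (l 16197088) (l 16141840)) (l 16060352))) (a (a (l 15970736) (l 15899376)) (l 15816288))) (a (a (a (l 16585312) (l 140766659046129727)) (a (a (l 16321968) (l 16261056)) (l 16164320))) (a (a (l 16059936) (l 15977704)) (l 15883432))))), by decide +kernel⟩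

def k14_pp_011 : ∃ t, chk3 f_pp_011 t 9 14 1 = true :=
  ⟨(l 3), by decide +kernel⟩

def k15_pp_011 : ∃ t, chk3 f_pp_011 t 9 30 1 = true :=
  ⟨(l 3), by decide +kernel⟩

def k16_pp_011 : ∃ t, chk3 f_pp_011 t 9 62 1 = true :=
  ⟨(l 3), by decide +kernel⟩

def k17_pp_011 : ∃ t, chk3 f_pp_011 t 9 126 1 = true :=
  ⟨(b (b (l 3) (b (a (l 3) (l 3)) (c (a (a (a (b (b (l 3) (c (a (a (a (l 344299901367) (l 343763015159)) (l 342689260023)) (a (l 342689232583) (l 343226078727))) (a (a (a (l 344299818407) (l 344299804071)) (a (l 344299791047) (l 343762907479))) (a (l 344299767719) (l 344299744967))))) (a (a (l 15713432) (l 15698720)) (a (l 15685440) (l 15673480)))) (a (a (a (l 340004808951) (l 339467948983)) (a (l 339467939511) (l 339467930567))) (a (l 339467918103) (l 338931032263)))) (a (a (a (l 337320345127) (l 337320335367)) (l 336783460215)) (a (l 335709706823) (l 334635958647)))) (a (a (a (l 333562214327) (l 15604104)) (l 319066722839)) (a (l 15626008)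 (l 15650936)))) (a (a (b (b (l 3) (a (c (a (a (a (l 345373519991) (l 345373495175)) (a (l 345373462679) (l 345373440503))) (a (a (l 345373430759) (l 345373420487)) (l 345373412695))) (a (a (a (l 345910334519) (l 346984065191)) (a (l 347520925431) (l 348594655879))) (a (a (l 347520873063) (l 346983962535)) (l 345910207063)))) (b (l 3) (a (a (c (l 15606144) (l 15570480)) (l 338930862951)) (a (l 339467722663) (l 15570008)))))) (a (a (a (l 15631648) (l 15619944)) (a (l 15609504) (l 15600232))) (a (a (l 15592040) (l 15584848)) (a (l 15578584) (l 15573200))))) (a (a (a (l 338394024743) (l 338394017399)) (a (l 336783337527) (l 336783334695))) (a (l 336246467431) (l 335709596311)))) (a (a (a (l 335172730631) (l 330340902247)) (l 320677250055)) (a (l 307255518663) (l 15622352))))))) (a (a (a (b (b (a (l 15676344) (l 15588648)) (l 15676616)) (l 15696792)) (b (b (a (l 15631688) (l 15616024)) (l 15634280)) (l 15650896))) (a (b (a (b (l 15604024) (l 15613456))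 (l 15599544)) (l 15622016)) (b (a (l 15593344) (l 15589880)) (l 15606360)))) (a (a (b (a (l 15588968) (l 15590480)) (l 15601688)) (a (l 15599368) (l 15604856))) (a (b (l 15613816) (l 15621056)) (l 15641768))))), by decide +kernel⟩

def k18_pp_011 : ∃ t, chk3 f_pp_011 t 9 127 1 = true :=
  ⟨(a (b (a (a (l 15737840) (l 15685064)) (a (l 15650704) (l 15630432))) (a (l 15760336) (l 15677000))) (a (a (l 15636264) (l 15635272)) (b (l 15642640) (l 15661512)))), by decide +kernel⟩

def k19_pp_011 : ∃ t, chk3 f_pp_011 t 5 3 1 = true :=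
  ⟨(b (l 3) (b (l 3) (b (l 3) (b (l 3) (a (a (a (b (b (a (l 272359070855) (l 260011151895)) (a (l 15675296) (l 15718384))) (b (l 15700488) (l 15710456))) (b (b (l 260011043735) (a (l 15769328) (l 15826792))) (a (l 15769400) (l 15821576)))) (b (a (l 288465459063) (l 287391506359)) (a (l 15908248) (l 15781640)))) (a (b (a (l 280949018183) (l 281485575831)) (a (l 15633784) (l 15482232))) (b (a (l 280948388471) (l 279874301911)) (a (l 15331272) (l 15183104))))))))), by decide +kernel⟩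

def k20_pp_011 : ∃ t, chk3 f_pp_011 t 3 1 1 = true :=
  ⟨(b (l 3) (b (l 3) (b (l 3) (b (l 3) (b (a (l 3) (l 3)) (b (b (a (a (l 3) (l 3)) (l 3)) (a (a (a (l 315844334583) (l 14683632)) (a (l 14419976) (a (l 14256200) (l 14155048)))) (a (a (a (l 14061032) (l 13974632)) (a (l 254638858087) (l 247122530439))) (a (a (b (l 3) (l 250880500743)) (a (l 232626817431) (l 2612575521847))) (a (l 3) (l 3)))))) (a (a (a (l 15032488) (l 14707064)) (a (l 14476288) (l 14273000))) (a (a (l 13947648) (a (b (l 13943408) (l 14013448)) (b (l 13873784) (l 13948600)))) (a (a (b (a (l 13826912) (l 13798384)) (l 13891848)) (b (a (l 13772056) (l 13747976)) (l 13843568))) (b (a (b (a (l 13704328) (b (b (l 13668560) (l 13678640)) (l 13695440))) (l 13738200)) (b (a (b (b (c (l 273965732279) (l 13639800)) (l 13660992)) (l 13678144)) (b (b (c (l 565352394519) (l 13625856)) (l 101495926103)) (l 13663288))) (a (l 13712360) (l 13698192)))) (a (l 13804120) (a (l 13780448) (l 13767680))))))))))))),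 by decide +kernel⟩

theorem s21_pp_011 : ∃ t, chk3 f_pp_011 t 9 63 1 = true := ex3_b k17_pp_011 k18_pp_011

theorem s22_pp_011 : ∃ t, chk3 f_pp_011 t 9 31 1 = true := ex3_b k16_pp_011 s21_pp_011

theorem s23_pp_011 : ∃ t, chk3 f_pp_011 t 9 15 1 = true := ex3_b k15_pp_011 s22_pp_011

theorem s24_pp_011 : ∃ t, chk3 f_pp_011 t 9 7 1 = true := ex3_b k14_pp_011 s23_pp_011

theorem s25_pp_011 : ∃ t, chk3 f_pp_011 t 32 2022 1 = true := ex3_a k7_pp_011 k8_pp_011

theorem s26_pp_011 : ∃ t, chk3 f_pp_011 t 32 1011 1 = true := ex3_b s25_pp_011 k9_pp_011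

theorem s27_pp_011 : ∃ t, chk3 f_pp_011 t 16 1011 1 = true := ex3_a s26_pp_011 k10_pp_011

theorem s28_pp_011 : ∃ t, chk3 f_pp_011 t 8 1011 1 = true := ex3_a s27_pp_011 k11_pp_011

theorem s29_pp_011 : ∃ t, chk3 f_pp_011 t 8 505 1 = true := ex3_b k6_pp_011 s28_pp_011

theorem s30_pp_011 : ∃ t, chk3 f_pp_011 t 8 252 1 = true := ex3_b k5_pp_011 s29_pp_011

theorem s31_pp_011 : ∃ t, chk3 f_pp_011 t 8 126 1 = true := ex3_b s30_pp_011 k12_pp_011

theorem s32_pp_011 : ∃ t, chk3 f_pp_011 t 8 63 1 = true := ex3_b s31_pp_011 k13_pp_011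

theorem s33_pp_011 : ∃ t, chk3 f_pp_011 t 8 31 1 = true := ex3_b k4_pp_011 s32_pp_011

theorem s34_pp_011 : ∃ t, chk3 f_pp_011 t 8 15 1 = true := ex3_b k3_pp_011 s33_pp_011

theorem s35_pp_011 : ∃ t, chk3 f_pp_011 t 8 7 1 = true := ex3_b k2_pp_011 s34_pp_011

theorem s36_pp_011 : ∃ t, chk3 f_pp_011 t 4 7 1 = true := ex3_a s35_pp_011 s24_pp_011

theorem s37_pp_011 : ∃ t, chk3 f_pp_011 t 4 3 1 = true := ex3_b k1_pp_011 s36_pp_011

theorem s38_pp_011 : ∃ t, chk3 f_pp_011 t 2 3 1 = true := ex3_a s37_pp_011 k19_pp_011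

theorem s39_pp_011 : ∃ t, chk3 f_pp_011 t 2 1 1 = true := ex3_b k0_pp_011 s38_pp_011

theorem s40_pp_011 : ∃ t, chk3 f_pp_011 t 1 1 1 = true := ex3_a s39_pp_011 k20_pp_011

theorem c_pp_011 : CertB 0 536870912 536870912 536870912 1033476505 6710887 3 eng mog cd3q0 cd0q1 pd1 false true true .pnn 0 1 1
    ndB3q0 ndB0q1 pcB1 Cut.none xt_pp_011 :=
  certB0 (fam := false) (s1 := true) (s2 := true) (a := 0) (b := 1) (c := 1) (cn := .pnn) (n1 := ndB3q0) (n2 := ndB0q1) (pc := pcB1) (cut := Cut.none) (xt := xt_pp_011) (P1 := 0) (W1 := 536870912) (P2 := 536870912) (W2 := 536870912) (P3 := 1033476505) (W3 := 6710887) (N0 := 3) (En := eng) (mo := mog) (C1 := cd3q0) (C2 := cd0q1) (C3 := pd1)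
    rfl s40_pp_011

noncomputable def xt_pp_012 : Ext := extD3 3 ⟨4, 1, 1, 5, 27, 5, 41, 50, 81, 200, 1, 64⟩ eng cd3q0 cd0q2 pd1 false true true .pnp 0 1 2 rfl ndB3q0 ndB0q2 pcB1

noncomputable def f_pp_012 : ℕ → ℕ → ℕ → ℕ → Bool := onCell 0 536870912 0 536870912 1033476505 6710887
    (rowB 3 eng mog cd3q0 cd0q2 pd1 0 false true true .pnp 0 1 2 (qsf 0 536870912 0 536870912 1) ndB3q0 ndB0q2 pcB1 Cut.none xt_pp_012)

def k0_pp_012 : ∃ t, chk3 f_pp_012 t 2 2 1 = true :=
  ⟨(a (b (l 2) (a (l 2) (a (l 2) (b (l 2) (l 16083960))))) (a (b (b (l 15014368) (a (l 15664688) (l 15401872))) (b (a (l 15761424) (l 15525264)) (a (l 15835808) (l 15601160)))) (b (b (l 14708128) (a (l 15140656) (l 14880312))) (b (a (l 15300112) (l 15079584)) (a (l 15379216) (l 15170784)))))), by decide +kernel⟩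

def k1_pp_012 : ∃ t, chk3 f_pp_012 t 4 6 1 = true :=
  ⟨(a (l 2) (b (a (l 2) (b (l 16147424) (l 16189336))) (a (b (l 16299536) (l 16197704)) (b (l 16198104) (l 16153024))))), by decide +kernel⟩

def k2_pp_012 : ∃ t, chk3 f_pp_012 t 4 7 1 = true :=
  ⟨(a (b (a (l 2) (a (b (l 2) (b (l 2) (a (l 16448056) (a (l 16486136) (l 16474784))))) (b (l 16383856) (b (l 16407344) (l 16407296))))) (a (a (b (l 2) (a (b (l 2) (b (b (l 16644968) (l 16651640)) (b (l 16659152) (l 16667616)))) (b (b (l 16583576) (l 16596664)) (b (a (l 16620968) (l 16602152)) (l 16625144))))) (b (a (b (l 2) (b (l 2) (l 16516312))) (b (a (l 2) (l 16458608)) (a (l 16483280) (l 16502888)))) (a (b (b (l 16531112) (l 16546248)) (b (l 16556440) (l 16572160))) (b (a (l 16515456) (l 16535856)) (a (l 141627645604446335) (l 16555216)))))) (a (b (a (b (b (l 16478968) (l 16505040)) (l 16535816)) (b (a (l 16529192) (l 16518240)) (a (l 16575360) (l 16564352)))) (a (b (l 141649704621244543) (l 141553840984293439))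 (b (a (l 16595944) (l 16567680)) (b (l 141356134785597503) (a (l 141138706253955135) (l 16281512)))))) (b (b (l 16450776) (a (l 16522600) (l 16459752))) (b (a (b (l 16512264) (l 16407192)) (b (l 16399688) (l 16278448))) (a (b (l 16272904) (b (l 16166376) (l 16093760))) (b (l 16137928) (a (l 16020512) (l 15964112))))))))) (b (b (a (a (l 16353600) (l 16243024)) (l 16083240)) (a (b (a (l 16300112) (l 16193976)) (a (l 16300696) (l 16193568))) (b (a (l 16091896) (l 15994328)) (a (l 16089904) (l 16002808))))) (a (b (b (a (b (l 16327064) (l 16349560)) (b (l 16218664) (l 16239448))) (a (a (l 16398752) (l 16339560)) (a (l 16283464) (l 16238272)))) (a (b (b (l 16260552) (a (l 16179136) (l 16102368))) (a (b (l 16040864) (l 15896168)) (l 15898832))) (b (l 16075952) (b (l 15892560) (l 15763432))))) (b (b (a (l 16138696) (l 16057496)) (a (l 16175624) (l 16104248))) (b (a (l 15998816) (l 15959856)) (a (l 15779424) (l 15770224))))))), by decide +kernel⟩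

def k3_pp_012 : ∃ t, chk3 f_pp_012 t 5 3 1 = true :=
  ⟨(b (b (a (b (l 15597128) (a (l 15948200) (l 15721000))) (b (l 15350528) (l 15406952))) (a (a (b (l 15964912) (l 15933176)) (b (l 15745328) (l 15726376))) (b (l 15422032) (a (l 15533704) (l 15356296))))) (b (a (b (a (l 15879832) (l 15689144)) (a (b (l 15854624) (l 15875064)) (b (l 15676304) (l 15700544)))) (b (a (l 15512864) (l 15351952)) (a (b (l 15507216) (l 15523424)) (b (l 15352200) (l 15349216))))) (a (b (a (b (l 15894088) (l 15994888)) (b (l 15757328) (l 15806408))) (a (b (l 15961816) (a (l 15795856) (l 15856712))) (a (b (l 15887536) (l 15895928)) (l 15771120)))) (b (a (b (l 15562016) (l 15580456)) (b (l 15360264) (l 15358744))) (a (b (l 15581224) (l 15565784)) (b (l 15333712) (l 15291224))))))), by decide +kernel⟩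

def k4_pp_012 : ∃ t, chk3 f_pp_012 t 3 2 1 = true :=
  ⟨(a (b (a (b (l 14190944) (l 14506664)) (b (l 13735304) (l 14066296))) (a (b (b (l 14738624) (l 14811896)) (l 14760672)) (b (b (l 14337656) (a (l 14547624) (l 14386720))) (a (l 14637864) (l 14493840))))) (b (a (b (l 13356544) (l 13701808)) (b (l 13066696) (l 13424496))) (a (a (b (l 14156000) (l 14367680)) (b (l 14004816) (l 14252672))) (b (l 13801760) (a (l 14152592) (l 14075560)))))), by decide +kernel⟩

def k5_pp_012 : ∃ t, chk3 f_pp_012 t 3 3 1 = true :=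
  ⟨(b (a (b (a (b (l 14975104) (l 15041520)) (b (l 14666392) (l 14827296))) (a (b (l 15073000) (a (l 15194904) (l 15050056))) (b (a (l 14876024) (l 14752776)) (b (l 14852368) (l 14877088))))) (b (a (b (l 14428968) (l 14516680)) (b (l 14266456) (l 14364584))) (a (b (l 14601800) (b (l 14659952) (l 14698808))) (b (l 14465184) (l 14566616))))) (a (b (b (a (a (l 15206952) (l 15078248)) (a (l 14945240) (l 14850200))) (a (b (a (l 15215088) (l 15096496)) (a (l 15193208) (l 15057512))) (b (a (b (l 15000616) (l 15059816)) (b (l 14915664) (a (l 14938752) (l 14905472)))) (a (l 14944776) (l 14857016))))) (a (b (b (a (l 15178752) (l 15016960)) (a (l 15150560) (l 14962216))) (a (b (l 15099000) (l 15029616)) (b (l 14885008) (l 14790456)))) (b (b (a (l 14878712) (l 14766976)) (a (l 14798688) (l 14663248))) (a (b (l 14698384) (l 14580984)) (b (l 14539184) (l 14400112)))))) (b (b (a (b (l 14739568) (l 14783840)) (a (l 14691392) (l 14667576))) (a (b (a (l 14830928) (b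 (l 14797136) (l 14820144))) (a (l 14773792) (l 14735832))) (b (a (l 14778544) (l 14766480)) (a (l 14747016) (l 14757672))))) (b (a (b (a (l 14681360) (l 14600096)) (a (l 14553928) (l 14470032))) (b (a (l 14566656) (l 14582360)) (a (l 14413840) (l 14387104)))) (a (a (b (l 14407256) (l 14243832)) (b (l 14300736) (l 14115016))) (a (b (l 14223072) (a (l 14037816) (l 13954672))) (b (l 14155504) (a (l 13921896) (l 13897848))))))))), by decide +kernel⟩

theorem s6_pp_012 : ∃ t, chk3 f_pp_012 t 3 1 1 = true := ex3_b k4_pp_012 k5_pp_012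

theorem s7_pp_012 : ∃ t, chk3 f_pp_012 t 4 3 1 = true := ex3_b k1_pp_012 k2_pp_012

theorem s8_pp_012 : ∃ t, chk3 f_pp_012 t 2 3 1 = true := ex3_a s7_pp_012 k3_pp_012

theorem s9_pp_012 : ∃ t, chk3 f_pp_012 t 2 1 1 = true := ex3_b k0_pp_012 s8_pp_012

theorem s10_pp_012 : ∃ t, chk3 f_pp_012 t 1 1 1 = true := ex3_a s9_pp_012 s6_pp_012

theorem c_pp_012 : CertB 0 536870912 0 536870912 1033476505 6710887 3 eng mog cd3q0 cd0q2 pd1 false true true .pnp 0 1 2
    ndB3q0 ndB0q2 pcB1 Cut.none xt_pp_012 :=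
  certB0 (fam := false) (s1 := true) (s2 := true) (a := 0) (b := 1) (c := 2) (cn := .pnp) (n1 := ndB3q0) (n2 := ndB0q2) (pc := pcB1) (cut := Cut.none) (xt := xt_pp_012) (P1 := 0) (W1 := 536870912) (P2 := 0) (W2 := 536870912) (P3 := 1033476505) (W3 := 6710887) (N0 := 3) (En := eng) (mo := mog) (C1 := cd3q0) (C2 := cd0q2) (C3 := pd1)
    rfl s10_pp_012

noncomputable def f_pp_022 : ℕ → ℕ → ℕ → ℕ → Bool := onCell 0 536870912 0 536870912 1033476505 6710887
    (rowB 3 eng mog cd3q0 cd0q2 pd2 0 false true true .pp 0 2 2 (qsf 0 536870912 0 536870912 2) ndB3q0 ndB0q2 pcB2 Cut.none Ext.none)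

def k0_pp_022 : ∃ t, chk3 f_pp_022 t 2 2 1 = true :=
  ⟨(a (a (a (a (b (l 16176944) (b (l 16191616) (l 16125800))) (b (a (l 16358600) (l 16379432)) (a (b (l 16280584) (l 16221928)) (b (l 16309336) (l 16255336))))) (a (b (a (l 16301280) (b (l 16329912) (l 16300968))) (a (b (l 16280864) (l 16231416)) (b (l 16262800) (a (l 16206904) (l 16227824))))) (b (l 16402536) (b (l 16358832) (l 16320360))))) (b (b (l 16367112) (a (l 16582384) (l 16422240))) (b (a (l 16523136) (l 16425424)) (a (l 16350264) (a (l 16547240) (l 16432576)))))) (a (a (b (b (l 16252192) (l 16241304)) (b (l 16237160) (l 590053235623))) (b (b (l 1) (l 1)) (l 1))) (l 1))), by decide +kernel⟩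

def k1_pp_022 : ∃ t, chk3 f_pp_022 t 4 6 1 = true :=
  ⟨(a (b (a (a (b (l 16092600) (l 16087952)) (a (b (l 16193536) (l 16191728)) (b (l 16230072) (l 16230120)))) (a (a (b (l 16209208) (l 16211080)) (b (l 16198592) (a (l 16190152) (l 16213432)))) (b (l 16305544) (l 16311776)))) (a (a (b (l 16134736) (b (l 16223712) (l 16304504))) (a (b (l 16241056) (l 16371048)) (b (l 16218200) (b (l 16372896) (l 16455344))))) (a (a (b (l 16242728) (b (l 16356576) (l 16439672))) (b (a (l 16243976) (l 16268040)) (a (b (l 16337648) (l 16421224)) (l 16381632)))) (b (l 16326344) (b (l 16463760) (l 16485456)))))) (b (a (b (l 16406688) (b (l 16434832) (l 16425736))) (b (l 16432184) (b (l 16436512) (l 16391104)))) (a (b (b (l 16413328) (l 16443736)) (b (a (l 16560824) (l 16528560)) (a (l 16580376) (l 1)))) (b (b (l 428992452871) (l 1)) (l 1))))), by decide +kernel⟩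

def k2_pp_022 : ∃ t, chk3 f_pp_022 t 4 7 1 = true :=
  ⟨(a (b (a (a (b (b (l 16398616) (l 16439408)) (b (a (l 16557456) (l 16580072)) (b (l 16626576) (l 16613360)))) (b (a (b (l 16508528) (l 16571056)) (b (l 16488008) (a (l 16637192) (l 16631584)))) (a (b (l 16585392) (b (l 16613504) (l 16588872))) (b (a (l 16572192) (l 16603872)) (b (a (l 16578440) (l 16589040)) (a (l 16553216) (l 16563752))))))) (a (b (a (b (l 16493880) (c (l 16560304) (l 16554472))) (b (a (l 16517800) (l 16542968)) (a (a (l 16604824) (l 16579584)) (l 16607088)))) (a (b (a (l 16595304) (l 16610456)) (b (a (l 16601352) (l 16616440)) (a (l 16576016) (l 16591072)))) (b (a (a (l 16624392) (l 16631576)) (l 16609032)) (a (b (a (l 16630368) (l 16637504)) (a (l 16604992) (l 16591136))) (b (l 16614408) (l 1)))))) (b (b (l 16540992) (b (l 16603952) (l 16541176))) (b (b (l 192232762871) (a (l 16556416) (l 1))) (b (a (l 398928062231) (l 1)) (l 1)))))) (a (a (b (b (b (l 16604232) (l 16594488))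 (a (l 16635808) (l 16606320))) (b (a (l 16568640) (b (l 16571344) (a (l 16559432) (l 16531488)))) (a (b (a (l 16568912) (l 16558944)) (a (l 16587392) (b (l 16543200) (l 1)))) (b (a (l 16532920) (l 1)) (l 1))))) (b (a (b (b (l 16578408) (l 16567336)) (l 16476608)) (b (a (b (l 16542168) (l 16530504)) (b (l 16552648) (l 16540928))) (a (b (l 16512616) (l 324302954759)) (b (l 16523008) (l 1))))) (a (b (b (l 16461176) (l 1)) (l 1)) (l 1)))) (a (b (a (b (b (a (l 16564856) (l 16558920)) (a (l 16553104) (l 1))) (l 1)) (l 1)) (l 1)) (l 1)))) (b (b (a (a (b (l 168610399911) (b (l 457446873639) (l 1))) (l 1)) (l 1)) (l 1)) (l 1))), by decide +kernel⟩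

def k3_pp_022 : ∃ t, chk3 f_pp_022 t 5 3 1 = true :=
  ⟨(b (l 1) (l 1)), by decide +kernel⟩

def k4_pp_022 : ∃ t, chk3 f_pp_022 t 3 1 1 = true :=
  ⟨(l 1), by decide +kernel⟩

theorem s5_pp_022 : ∃ t, chk3 f_pp_022 t 4 3 1 = true := ex3_b k1_pp_022 k2_pp_022

theorem s6_pp_022 : ∃ t, chk3 f_pp_022 t 2 3 1 = true := ex3_a s5_pp_022 k3_pp_022

theorem s7_pp_022 : ∃ t, chk3 f_pp_022 t 2 1 1 = true := ex3_b k0_pp_022 s6_pp_022

theorem s8_pp_022 : ∃ t, chk3 f_pp_022 t 1 1 1 = true := ex3_a s7_pp_022 k4_pp_022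

theorem c_pp_022 : CertB 0 536870912 0 536870912 1033476505 6710887 3 eng mog cd3q0 cd0q2 pd2 false true true .pp 0 2 2
    ndB3q0 ndB0q2 pcB2 Cut.none Ext.none :=
  certB0 (fam := false) (s1 := true) (s2 := true) (a := 0) (b := 2) (c := 2) (cn := .pp) (n1 := ndB3q0) (n2 := ndB0q2) (pc := pcB2) (cut := Cut.none) (xt := Ext.none) (P1 := 0) (W1 := 536870912) (P2 := 0) (W2 := 536870912) (P3 := 1033476505) (W3 := 6710887) (N0 := 3) (En := eng) (mo := mog) (C1 := cd3q0) (C2 := cd0q2) (C3 := pd2)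
    rfl s8_pp_022

noncomputable def cut_pp_101 : Cut := Cut.of [[⟨0, 1, 0, 33554432⟩, ⟨1, 0, 0, 33554432⟩, ⟨2, 1, 0, 33554432⟩]]

noncomputable def xt_pp_101 : Ext := extD3 3 ⟨4, 1, 1, 5, 27, 5, 41, 50, 81, 200, 1, 64⟩ eng cd3q1 cd0q1 pd0 false true true .npn 1 0 1 rfl ndB3q1 ndB0q1 pcB0

noncomputable def f_pp_101 : ℕ → ℕ → ℕ → ℕ → Bool := onCell 0 536870912 536870912 536870912 1033476505 6710887
    (rowB 3 eng mog cd3q1 cd0q1 pd0 2 false true true .npn 1 0 1 (qsf 536870912 536870912 536870912 536870912 0) ndB3q1 ndB0q1 pcB0 cut_pp_101 xt_pp_101)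

def k0_pp_101 : ∃ t, chk3 f_pp_101 t 1 1 1 = true :=
  ⟨(b (l 3) (b (l 3) (b (l 3) (b (l 3) (a (b (l 3) (b (a (l 3) (l 3)) (b (a (l 3) (a (l 3) (a (l 3) (l 635284298791)))) (a (a (b (l 3) (a (a (l 6) (a (l 6) (a (l 6) (l 3629195310626757084496625711)))) (a (a (b (l 3) (l 4354550802395329599090622511)) (a (l 205252317735) (l 207399788039))) (a (a (l 209010388567) (l 211157861511)) (a (l 212768465031) (l 214915941415)))))) (a (b (l 3) (a (a (b (l 175187488103) (l 16679952)) (b (l 184314291271) (l 16679184))) (a (a (l 226190223319) (l 227800840439)) (a (l 16670712) (l 16651464))))) (a (a (a (l 199883478919) (l 200420311319)) (l 202567702167)) (a (l 198272633703) (l 16506384))))) (a (a (a (a (l 16453376) (l 16400152)) (l 16321528)) (a (l 16221272) (l 16130792))) (a (a (l 16054368) (l 15995976)) (l 15929520))))))) (b (l 3) (a (b (l 3) (a (a (a (l 15887288) (l 15972568)) (l 15967336)) (a (l 16061624) (l 16114056)))) (a (a (l 226189058199) (l 16207136))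 (a (l 16233616) (l 16244904)))))))))), by decide +kernel⟩

theorem c_pp_101 : CertB 536870912 536870912 536870912 536870912 1033476505 6710887 3 eng mog cd3q1 cd0q1 pd0 false true true .npn 1 0 1
    ndB3q1 ndB0q1 pcB0 cut_pp_101 xt_pp_101 :=
  certB2 (fam := false) (s1 := true) (s2 := true) (a := 1) (b := 0) (c := 1) (cn := .npn) (n1 := ndB3q1) (n2 := ndB0q1) (pc := pcB0) (cut := cut_pp_101) (xt := xt_pp_101) (P1 := 536870912) (W1 := 536870912) (P2 := 536870912) (W2 := 536870912) (P3 := 1033476505) (W3 := 6710887) (N0 := 3) (En := eng) (mo := mog) (C1 := cd3q1) (C2 := cd0q1) (C3 := pd0)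
    rfl (fun _ => rfl) k0_pp_101

noncomputable def cut_pp_102 : Cut := Cut.of [[⟨0, 1, 0, 33554432⟩, ⟨1, 0, 0, 33554432⟩, ⟨2, 1, 0, 33554432⟩]]

noncomputable def xt_pp_102 : Ext := extD3 3 ⟨4, 1, 1, 5, 27, 5, 41, 50, 81, 200, 1, 64⟩ eng cd3q1 cd0q2 pd0 false true true .npp 1 0 2 rfl ndB3q1 ndB0q2 pcB0

noncomputable def f_pp_102 : ℕ → ℕ → ℕ → ℕ → Bool := onCell 0 536870912 0 536870912 1033476505 6710887
    (rowB 3 eng mog cd3q1 cd0q2 pd0 2 false true true .npp 1 0 2 (qsf 536870912 536870912 0 536870912 0) ndB3q1 ndB0q2 pcB0 cut_pp_102 xt_pp_102)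

def k0_pp_102 : ∃ t, chk3 f_pp_102 t 2 2 1 = true :=
  ⟨(a (a (l 2) (b (l 2) (a (l 2) (b (l 2) (l 14464120))))) (a (b (a (b (l 14272888) (l 14264008)) (l 14256256)) (b (a (l 14280872) (l 14160304)) (a (l 14317752) (l 14127456)))) (b (a (l 14210376) (l 14136224)) (b (a (l 14002688) (l 13808016)) (a (a (l 13955920) (l 13852504)) (b (l 13672368) (a (l 13741800) (l 13707784)))))))), by decide +kernel⟩

def k1_pp_102 : ∃ t, chk3 f_pp_102 t 4 6 1 = true :=
  ⟨(a (l 2) (b (a (l 2) (b (l 14564824) (l 14653400))) (a (b (l 14999936) (a (b (l 15229624) (l 15380984)) (b (l 15136848) (l 15296536)))) (b (a (l 14737856) (l 125845114647937071)) (a (l 129865410975957039) (l 15139704)))))), by decide +kernel⟩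

def k2_pp_102 : ∃ t, chk3 f_pp_102 t 8 7 1 = true :=
  ⟨(b (a (l 2) (a (b (l 2) (b (l 2) (a (l 16177144) (a (l 16203952) (l 16194960))))) (b (b (l 2) (a (l 2) (l 15785464))) (b (l 15989016) (l 16157048))))) (a (a (b (l 2) (l 6)) (b (a (b (l 2) (l 6)) (b (b (l 2) (l 16307392)) (a (l 6) (l 16427576)))) (a (l 6) (a (l 6) (b (b (l 16544400) (l 16608336)) (b (l 142771412836679791) (b (l 16700624) (l 16706664)))))))) (a (b (a (b (b (l 16273992) (l 16334088)) (b (l 16399760) (l 16470136))) (b (a (l 16318400) (l 16310312)) (a (l 16413720) (l 16426672)))) (b (a (b (l 141528620836421743) (l 16596120)) (l 141740345579503663)) (b (b (l 141759999477039151) (l 142358202575405103)) (b (l 142904934822215727) (a (l 143340066561507375) (b (l 16693352) (l 16703128))))))) (b (b (a (l 16293336) (l 16281424)) (l 139064065251655727)) (b (b (l 16504416) (l 16506864)) (b (b (a (l 16621912) (l 16612024)) (l 16640016)) (b (l 16639288) (a (l 16664592) (l 16654256))))))))),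 by decide +kernel⟩

def k3_pp_102 : ∃ t, chk3 f_pp_102 t 9 7 1 = true :=
  ⟨(b (b (a (a (b (b (l 15499176) (l 15598024)) (l 15742424)) (l 15603064)) (b (l 15468688) (l 15691104))) (a (b (l 136744026016251951) (a (l 16122136) (b (l 16065856) (l 16153712)))) (b (a (l 15916512) (l 15914520)) (a (l 16052664) (l 16089640))))) (a (b (b (a (b (l 16235240) (l 16289000)) (b (l 16211600) (l 16274632))) (a (l 16387456) (l 16372160))) (a (b (b (l 16487928) (b (l 16539112) (l 16571864))) (b (a (l 16613384) (l 16606696)) (b (l 16623352) (a (l 16647432) (l 16645176))))) (b (b (l 16475192) (a (l 16545712) (l 16537672))) (a (b (l 16602024) (a (l 16613288) (l 16612784))) (b (l 16594240) (a (l 16629888) (l 16622144))))))) (b (b (a (l 16231920) (l 16219736)) (a (l 16359896) (l 16349584))) (a (b (b (l 16465648) (a (l 16527456) (l 16513744))) (a (b (l 16576720) (b (l 16611576) (l 16592400))) (b (l 16551128) (l 16565912)))) (b (b (l 16450472) (l 16484888)) (b (l 16505600)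 (a (l 16546640) (l 16503120)))))))), by decide +kernel⟩

def k4_pp_102 : ∃ t, chk3 f_pp_102 t 5 3 1 = true :=
  ⟨(b (a (b (a (b (l 14369920) (a (l 14501632) (b (l 14358408) (l 14443272)))) (a (b (l 14201080) (l 14351992)) (b (l 14100264) (l 14355664)))) (a (b (a (l 14718848) (l 14718024)) (l 14929480)) (b (l 14733352) (l 15177944)))) (b (a (b (a (l 14032368) (l 14025912)) (l 14381792)) (b (l 14061016) (l 14444448))) (b (a (l 14786152) (l 14866000)) (a (b (l 15127640) (l 15356416)) (b (l 15206416) (l 15378992)))))) (b (a (b (a (b (l 15482816) (a (l 15714608) (l 15716448))) (b (a (l 15525392) (l 15532536)) (l 15711280))) (a (b (l 15897368) (l 16073000)) (b (l 15893856) (l 16056640)))) (b (a (l 15620216) (l 15633264)) (b (l 15882000) (l 16040040)))) (a (b (b (a (l 16204864) (l 16189456)) (a (a (l 16340616) (l 16330776)) (a (l 16317632) (l 16301240)))) (a (b (a (b (l 16427416) (l 16435152)) (l 16385464)) (a (a (l 16456240) (l 16415256)) (l 16269200)))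 (a (b (l 16332544) (l 16271784)) (b (l 16277832) (l 16195992))))) (b (b (l 16024800) (a (b (l 16266896) (l 16274864)) (l 16175552))) (a (a (b (l 16225568) (l 16129592)) (l 16023368)) (b (l 16127648) (l 16007056))))))), by decide +kernel⟩

def k5_pp_102 : ∃ t, chk3 f_pp_102 t 3 1 1 = true :=
  ⟨(b (a (a (b (b (l 14147048) (l 13787680)) (b (a (l 13576208) (b (l 13401912) (l 13274304))) (a (b (b (l 13430384) (l 13469504)) (l 13747016)) (l 13639176)))) (b (b (l 13916848) (a (l 13484520) (l 13241592))) (b (a (b (l 13138112) (l 13181416)) (b (l 12983016) (l 13258336))) (a (l 13734376) (l 13851344))))) (a (b (b (l 13568864) (a (b (l 13137936) (l 12867376)) (b (l 12862992) (l 12815824)))) (b (a (l 13203536) (l 13340544)) (l 13803272))) (b (b (a (l 13224248) (b (l 13211576) (l 12747664))) (a (b (l 12721368) (l 12933424)) (l 12959528))) (b (l 13587888) (a (l 14282680) (l 14444600)))))) (b (a (b (a (b (l 14175944) (a (l 14531344) (l 14636616))) (b (l 14397704)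 (a (l 14768560) (l 14871488)))) (a (b (a (b (l 14851048) (l 15076752)) (b (l 14966088) (l 15121800))) (a (l 15312864) (l 15349128))) (b (a (l 15084720) (l 15148760)) (l 15391440)))) (b (a (b (a (l 14597264) (l 14750376)) (b (l 14924608) (l 15054960))) (b (a (l 14863552) (l 14956696)) (l 15132520))) (a (b (l 15220920) (l 15462104)) (l 15419608)))) (a (b (b (a (l 15582528) (l 15674520)) (a (b (l 15879688) (l 16028424)) (b (l 15888328) (l 16025064)))) (a (b (a (b (l 16154416) (l 16172168)) (b (l 16140456) (l 16141544))) (a (a (l 16064864) (l 16067744)) (b (l 16098328) (l 16054136)))) (b (b (a (l 16124904) (l 16109688)) (l 16119752)) (a (l 16096128) (l 16120056))))) (b (b (a (l 15715600) (l 15766552)) (a (b (l 15905440) (l 16028200)) (b (l 15929224) (l 16029376)))) (b (a (b (l 16090888) (l 16118192)) (b (l 16083600) (l 16122800))) (a (a (l 16144112) (l 16164480)) (a (l 16177848) (l 16182368)))))))), by decide +kernel⟩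

theorem s6_pp_102 : ∃ t, chk3 f_pp_102 t 4 7 1 = true := ex3_a k2_pp_102 k3_pp_102

theorem s7_pp_102 : ∃ t, chk3 f_pp_102 t 4 3 1 = true := ex3_b k1_pp_102 s6_pp_102

theorem s8_pp_102 : ∃ t, chk3 f_pp_102 t 2 3 1 = true := ex3_a s7_pp_102 k4_pp_102

theorem s9_pp_102 : ∃ t, chk3 f_pp_102 t 2 1 1 = true := ex3_b k0_pp_102 s8_pp_102

theorem s10_pp_102 : ∃ t, chk3 f_pp_102 t 1 1 1 = true := ex3_a s9_pp_102 k5_pp_102

theorem c_pp_102 : CertB 536870912 536870912 0 536870912 1033476505 6710887 3 eng mog cd3q1 cd0q2 pd0 false true true .npp 1 0 2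
    ndB3q1 ndB0q2 pcB0 cut_pp_102 xt_pp_102 :=
  certB2 (fam := false) (s1 := true) (s2 := true) (a := 1) (b := 0) (c := 2) (cn := .npp) (n1 := ndB3q1) (n2 := ndB0q2) (pc := pcB0) (cut := cut_pp_102) (xt := xt_pp_102) (P1 := 536870912) (W1 := 536870912) (P2 := 0) (W2 := 536870912) (P3 := 1033476505) (W3 := 6710887) (N0 := 3) (En := eng) (mo := mog) (C1 := cd3q1) (C2 := cd0q2) (C3 := pd0)
    rfl (fun _ => rfl) s10_pp_102

noncomputable def f_pp_112 : ℕ → ℕ → ℕ → ℕ → Bool := onCell 536870912 536870912 0 536870912 1033476505 6710887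
    (rowB 3 eng mog cd3q1 cd0q2 pd1 0 false true true .dn 1 1 2 (qsf 536870912 536870912 0 536870912 1) ndB3q1 ndB0q2 pcB1 Cut.none Ext.none)

def k0_pp_112 : ∃ t, chk3 f_pp_112 t 1 1 1 = true :=
  ⟨(a (b (a (b (a (l 15709632) (b (l 15334896) (l 15695088))) (b (l 16039232) (a (l 16374032) (l 16270416)))) (a (b (b (l 15195344) (l 15414992)) (l 876741571447)) (l 1))) (b (a (b (a (l 16347752) (l 16184840)) (a (l 15950584) (l 15942176))) (l 1)) (a (a (b (b (l 15633128) (b (l 15406272) (a (l 15299728) (l 15320552)))) (b (b (l 15215648) (l 155723384487)) (a (b (l 15834400) (l 16025568)) (l 1)))) (b (b (l 15714056) (l 1)) (l 1))) (l 1)))) (l 1)), by decide +kernel⟩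

theorem c_pp_112 : CertB 536870912 536870912 0 536870912 1033476505 6710887 3 eng mog cd3q1 cd0q2 pd1 false true true .dn 1 1 2
    ndB3q1 ndB0q2 pcB1 Cut.none Ext.none :=
  certB0 (fam := false) (s1 := true) (s2 := true) (a := 1) (b := 1) (c := 2) (cn := .dn) (n1 := ndB3q1) (n2 := ndB0q2) (pc := pcB1) (cut := Cut.none) (xt := Ext.none) (P1 := 536870912) (W1 := 536870912) (P2 := 0) (W2 := 536870912) (P3 := 1033476505) (W3 := 6710887) (N0 := 3) (En := eng) (mo := mog) (C1 := cd3q1) (C2 := cd0q2) (C3 := pd1)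
    rfl k0_pp_112

noncomputable def f_pp_202 : ℕ → ℕ → ℕ → ℕ → Bool := onCell 1073741824 536870912 0 536870912 1033476505 6710887
    (rowB 3 eng mog cd3q2 cd0q2 pd0 0 false true true .pp 2 0 2 (qsf 1073741824 536870912 0 536870912 0) ndB3q2 ndB0q2 pcB0 Cut.none Ext.none)

def k0_pp_202 : ∃ t, chk3 f_pp_202 t 1 1 1 = true :=
  ⟨(l 3), by decide +kernel⟩

theorem c_pp_202 : CertB 1073741824 536870912 0 536870912 1033476505 6710887 3 eng mog cd3q2 cd0q2 pd0 false true true .pp 2 0 2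
    ndB3q2 ndB0q2 pcB0 Cut.none Ext.none :=
  certB0 (fam := false) (s1 := true) (s2 := true) (a := 2) (b := 0) (c := 2) (cn := .pp) (n1 := ndB3q2) (n2 := ndB0q2) (pc := pcB0) (cut := Cut.none) (xt := Ext.none) (P1 := 1073741824) (W1 := 536870912) (P2 := 0) (W2 := 536870912) (P3 := 1033476505) (W3 := 6710887) (N0 := 3) (En := eng) (mo := mog) (C1 := cd3q2) (C2 := cd0q2) (C3 := pd0)
    rfl k0_pp_202

noncomputable def f_pm_001 : ℕ → ℕ → ℕ → ℕ → Bool := onCell 0 536870912 0 536870912 1033476505 6710887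
    (rowB 3 eng mog cd3q0 cd0q1 pd0 1 false true false .up 0 0 1 (qsf 0 536870912 536870912 536870912 0) ndB3q0 ndB0q1 pcB0 Cut.none Ext.none)

def k0_pm_001 : ∃ t, chk3 f_pm_001 t 1 1 1 = true :=
  ⟨(a (l 4) (l 4)), by decide +kernel⟩

theorem c_pm_001 : CertB 0 536870912 536870912 536870912 1033476505 6710887 3 eng mog cd3q0 cd0q1 pd0 false true false .up 0 0 1
    ndB3q0 ndB0q1 pcB0 Cut.none Ext.none :=
  certB1 (fam := false) (s1 := true) (s2 := false) (a := 0) (b := 0) (c := 1) (cn := .up) (n1 := ndB3q0) (n2 := ndB0q1) (pc := pcB0) (cut := Cut.none) (xt := Ext.none) (P1 := 0) (W1 := 536870912) (P2 := 536870912) (W2 := 536870912) (P3 := 1033476505) (W3 := 6710887) (N0 := 3) (En := eng) (mo := mog) (C1 := cd3q0) (C2 := cd0q1) (C3 := pd0)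
    rfl (fun _ => rfl) k0_pm_001

noncomputable def f_pm_011 : ℕ → ℕ → ℕ → ℕ → Bool := onCell 0 536870912 536870912 536870912 1033476505 6710887
    (rowB 3 eng mog cd3q0 cd0q1 pd1 0 false true false .pnn 0 1 1 (qsf 0 536870912 536870912 536870912 1) ndB3q0 ndB0q1 pcB1 Cut.none Ext.none)

def k0_pm_011 : ∃ t, chk3 f_pm_011 t 1 1 1 = true :=
  ⟨(a (b (l 4) (a (l 4) (l 4))) (l 4)), by decide +kernel⟩

theorem c_pm_011 : CertB 0 536870912 536870912 536870912 1033476505 6710887 3 eng mog cd3q0 cd0q1 pd1 false true false .pnn 0 1 1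
    ndB3q0 ndB0q1 pcB1 Cut.none Ext.none :=
  certB0 (fam := false) (s1 := true) (s2 := false) (a := 0) (b := 1) (c := 1) (cn := .pnn) (n1 := ndB3q0) (n2 := ndB0q1) (pc := pcB1) (cut := Cut.none) (xt := Ext.none) (P1 := 0) (W1 := 536870912) (P2 := 536870912) (W2 := 536870912) (P3 := 1033476505) (W3 := 6710887) (N0 := 3) (En := eng) (mo := mog) (C1 := cd3q0) (C2 := cd0q1) (C3 := pd1)
    rfl k0_pm_011

noncomputable def f_pm_012 : ℕ → ℕ → ℕ → ℕ → Bool := onCell 536870912 536870912 0 536870912 1033476505 6710887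
    (rowB 3 eng mog cd3q0 cd0q2 pd1 2 false true false .pnp 0 1 2 (qsf 0 536870912 0 536870912 1) ndB3q0 ndB0q2 pcB1 Cut.none Ext.none)

def k0_pm_012 : ∃ t, chk3 f_pm_012 t 1 1 1 = true :=
  ⟨(a (b (a (a (l 2) (b (l 2) (b (l 2) (b (l 2) (l 13268328))))) (b (a (b (l 12636312) (l 12535112)) (b (l 12876720) (b (l 12662336) (l 12747744)))) (a (b (b (l 12537544) (a (l 12624544) (l 12608800))) (b (l 12939400) (a (l 13303968) (l 13287048)))) (a (b (b (l 12588256) (l 12631560)) (b (l 12825160) (l 13244080))) (b (l 12675896) (b (l 12813504) (l 13186224))))))) (b (a (l 4) (a (l 4) (b (b (a (l 4) (l 13419112)) (l 4)) (l 4)))) (l 4))) (b (a (a (b (b (l 13233168) (a (l 12868592) (l 13077008))) (b (a (l 12784560) (l 13132912)) (b (b (l 12892648) (a (l 12889480) (l 12998776))) (a (a (l 13147336) (l 13125792)) (b (l 13061104) (l 13197792)))))) (b (b (l 13673504) (l 13437496)) (b (a (l 13124336) (l 13402704)) (b (l 13251592) (a (a (l 13206032) (l 13277416)) (l 13406784))))))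 (a (b (b (l 14183520) (l 13975672)) (b (l 13836320) (a (l 13630424) (l 13927600)))) (b (a (l 14514272) (l 14810864)) (b (a (l 14297352) (l 14615520)) (a (l 14256472) (l 14592128)))))) (a (b (b (b (a (a (l 13402024) (a (l 13391960) (l 13297968))) (a (l 13370816) (l 13506784))) (a (l 4) (a (l 4) (l 49620235687)))) (l 4)) (l 4)) (b (a (a (b (a (l 13728136) (l 13848768)) (l 4)) (b (b (l 13974208) (l 14104376)) (b (l 14321800) (l 4)))) (b (a (b (l 14285320) (l 14376712)) (b (l 14636784) (l 14711168))) (a (b (l 14562680) (l 4)) (b (a (l 14773528) (l 14947968)) (a (l 15060808) (l 15211144)))))) (a (l 4) (b (a (l 4) (b (a (l 4) (l 15580360)) (l 4))) (l 4))))))), by decide +kernel⟩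

theorem c_pm_012 : CertB 0 536870912 0 536870912 1033476505 6710887 3 eng mog cd3q0 cd0q2 pd1 false true false .pnp 0 1 2
    ndB3q0 ndB0q2 pcB1 Cut.none Ext.none :=
  certB2 (fam := false) (s1 := true) (s2 := false) (a := 0) (b := 1) (c := 2) (cn := .pnp) (n1 := ndB3q0) (n2 := ndB0q2) (pc := pcB1) (cut := Cut.none) (xt := Ext.none) (P1 := 0) (W1 := 536870912) (P2 := 0) (W2 := 536870912) (P3 := 1033476505) (W3 := 6710887) (N0 := 3) (En := eng) (mo := mog) (C1 := cd3q0) (C2 := cd0q2) (C3 := pd1)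
    rfl (fun _ => rfl) k0_pm_012

noncomputable def f_pm_022 : ℕ → ℕ → ℕ → ℕ → Bool := onCell 0 536870912 0 536870912 1033476505 6710887
    (rowB 3 eng mog cd3q0 cd0q2 pd2 0 false true false .pp 0 2 2 (qsf 0 536870912 0 536870912 2) ndB3q0 ndB0q2 pcB2 Cut.none Ext.none)

def k0_pm_022 : ∃ t, chk3 f_pm_022 t 2 2 1 = true :=
  ⟨(a (b (a (b (a (a (l 16352008) (a (l 16415544) (l 16427776))) (a (a (l 16383152) (l 16350152)) (l 16429472))) (a (a (b (l 16373144) (l 16385088)) (a (l 16443264) (l 16460312))) (a (a (l 16424840) (l 16405416)) (l 16505848)))) (b (a (b (l 16552408) (l 16522496)) (b (l 16403296) (l 16288288))) (a (l 16273096) (l 15940368)))) (a (b (a (a (l 16330808) (a (l 16503040) (l 16482160))) (a (a (l 16501632) (l 16508824)) (l 16413200))) (a (a (b (l 16512312) (l 16495384)) (a (l 16425776) (l 16367056))) (a (a (l 16386816) (l 16309616)) (l 16176360)))) (a (b (b (l 16220720) (l 16106312)) (a (l 16029072) (l 15794512))) (b (l 15547880) (b (l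 15496344) (l 15307456)))))) (a (a (b (b (a (l 16157240) (l 15989368)) (l 15679168)) (b (l 15149672) (b (l 14943432) (l 14708784)))) (b (b (l 1) (l 1)) (l 1))) (l 1))), by decide +kernel⟩

def k1_pm_022 : ∃ t, chk3 f_pm_022 t 2 3 1 = true :=
  ⟨(a (b (a (b (a (a (b (l 16463592) (l 16433720)) (a (b (l 16356472) (l 16300160)) (b (l 16296968) (l 16226160)))) (a (a (b (l 16277832) (l 16194056)) (b (l 16245024) (l 16148368))) (b (l 16080576) (l 15961880)))) (a (a (b (l 16360656) (a (l 16470160) (l 16404752))) (a (b (l 16265688) (l 16276656)) (b (l 16176688) (l 16172312)))) (a (a (b (l 16131304) (l 16113952)) (b (l 16072520) (l 16000352))) (b (l 15863984) (l 15811840))))) (b (a (b (l 15694384) (a (l 15681664) (l 15379976))) (b (l 15106936) (l 14665760))) (a (b (a (l 15555432) (l 15227656)) (a (l 15479360) (b (l 15147224) (l 1)))) (b (a (l 14885200) (l 1)) (l 1))))) (a (b (a (a (b (a (l 16512072) (l 16408736)) (b (a (l 16612648) (l 16476104)) (a (l 16551568)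 (l 16375144)))) (b (a (l 16305824) (b (l 16182864) (l 16189200))) (a (b (l 16320376) (l 16341256)) (b (l 16203592) (l 4))))) (a (b (a (b (l 16115008) (l 16117208)) (a (l 16050480) (l 16007728))) (a (b (l 16152016) (l 4)) (l 4))) (b (b (l 15797160) (l 15834408)) (l 4)))) (a (a (b (b (a (b (l 16568968) (l 16585608)) (l 4)) (l 4)) (l 4)) (l 4)) (l 4))) (b (b (a (a (b (l 15486328) (l 4)) (l 1)) (l 1)) (l 1)) (l 1)))) (b (l 1) (l 1))), by decide +kernel⟩

def k2_pm_022 : ∃ t, chk3 f_pm_022 t 3 1 1 = true :=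
  ⟨(l 1), by decide +kernel⟩

theorem s3_pm_022 : ∃ t, chk3 f_pm_022 t 2 1 1 = true := ex3_b k0_pm_022 k1_pm_022

theorem s4_pm_022 : ∃ t, chk3 f_pm_022 t 1 1 1 = true := ex3_a s3_pm_022 k2_pm_022

theorem c_pm_022 : CertB 0 536870912 0 536870912 1033476505 6710887 3 eng mog cd3q0 cd0q2 pd2 false true false .pp 0 2 2
    ndB3q0 ndB0q2 pcB2 Cut.none Ext.none :=
  certB0 (fam := false) (s1 := true) (s2 := false) (a := 0) (b := 2) (c := 2) (cn := .pp) (n1 := ndB3q0) (n2 := ndB0q2) (pc := pcB2) (cut := Cut.none) (xt := Ext.none) (P1 := 0) (W1 := 536870912) (P2 := 0) (W2 := 536870912) (P3 := 1033476505) (W3 := 6710887) (N0 := 3) (En := eng) (mo := mog) (C1 := cd3q0) (C2 := cd0q2) (C3 := pd2)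
    rfl s4_pm_022

noncomputable def f_pm_101 : ℕ → ℕ → ℕ → ℕ → Bool := onCell 536870912 536870912 536870912 536870912 1033476505 6710887
    (rowB 3 eng mog cd3q1 cd0q1 pd0 0 false true false .npn 1 0 1 (qsf 536870912 536870912 536870912 536870912 0) ndB3q1 ndB0q1 pcB0 Cut.none Ext.none)

def k0_pm_101 : ∃ t, chk3 f_pm_101 t 1 1 1 = true :=
  ⟨(l 4), by decide +kernel⟩

theorem c_pm_101 : CertB 536870912 536870912 536870912 536870912 1033476505 6710887 3 eng mog cd3q1 cd0q1 pd0 false true false .npn 1 0 1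
    ndB3q1 ndB0q1 pcB0 Cut.none Ext.none :=
  certB0 (fam := false) (s1 := true) (s2 := false) (a := 1) (b := 0) (c := 1) (cn := .npn) (n1 := ndB3q1) (n2 := ndB0q1) (pc := pcB0) (cut := Cut.none) (xt := Ext.none) (P1 := 536870912) (W1 := 536870912) (P2 := 536870912) (W2 := 536870912) (P3 := 1033476505) (W3 := 6710887) (N0 := 3) (En := eng) (mo := mog) (C1 := cd3q1) (C2 := cd0q1) (C3 := pd0)
    rfl k0_pm_101

noncomputable def f_pm_102 : ℕ → ℕ → ℕ → ℕ → Bool := onCell 0 536870912 0 536870912 1033476505 6710887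
    (rowB 3 eng mog cd3q1 cd0q2 pd0 2 false true false .npp 1 0 2 (qsf 536870912 536870912 0 536870912 0) ndB3q1 ndB0q2 pcB0 Cut.none Ext.none)

def k0_pm_102 : ∃ t, chk3 f_pm_102 t 1 1 1 = true :=
  ⟨(a (b (a (b (l 2) (a (l 2) (b (l 2) (b (l 2) (l 13614376))))) (b (a (b (l 14353392) (l 14312288)) (b (l 14487168) (l 14590656))) (a (b (l 14136192) (l 13787800)) (b (l 14462904) (l 14371416))))) (b (l 4) (l 4))) (b (a (b (a (b (l 14531824) (b (l 14820816) (l 14852176))) (b (l 14484904) (b (l 14919664) (l 15086992)))) (b (a (l 14769296) (l 15056472)) (a (l 14702952) (l 15015344)))) (b (a (b (l 14335824) (b (l 14916936) (l 15256144))) (b (l 14072624) (a (l 15093128) (l 15020496)))) (a (l 15339440) (b (l 15482112) (l 15560800))))) (l 4))), by decide +kernel⟩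

theorem c_pm_102 : CertB 536870912 536870912 0 536870912 1033476505 6710887 3 eng mog cd3q1 cd0q2 pd0 false true false .npp 1 0 2
    ndB3q1 ndB0q2 pcB0 Cut.none Ext.none :=
  certB2 (fam := false) (s1 := true) (s2 := false) (a := 1) (b := 0) (c := 2) (cn := .npp) (n1 := ndB3q1) (n2 := ndB0q2) (pc := pcB0) (cut := Cut.none) (xt := Ext.none) (P1 := 536870912) (W1 := 536870912) (P2 := 0) (W2 := 536870912) (P3 := 1033476505) (W3 := 6710887) (N0 := 3) (En := eng) (mo := mog) (C1 := cd3q1) (C2 := cd0q2) (C3 := pd0)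
    rfl (fun _ => rfl) k0_pm_102

noncomputable def f_pm_112 : ℕ → ℕ → ℕ → ℕ → Bool := onCell 536870912 536870912 0 536870912 1033476505 6710887
    (rowB 3 eng mog cd3q1 cd0q2 pd1 0 false true false .dn 1 1 2 (qsf 536870912 536870912 0 536870912 1) ndB3q1 ndB0q2 pcB1 Cut.none Ext.none)

def k0_pm_112 : ∃ t, chk3 f_pm_112 t 1 1 1 = true :=
  ⟨(a (b (a (b (a (b (l 15249928) (l 15187000)) (l 15208776)) (a (b (b (l 15224032) (l 15348128)) (b (l 15685856) (l 15894488))) (b (b (l 15247752) (l 15421416)) (l 15637720)))) (b (b (l 15100776) (b (l 15104488) (l 15127560))) (a (b (l 15280400) (l 15522768)) (l 1)))) (b (l 4) (l 4))) (l 1)), by decide +kernel⟩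

theorem c_pm_112 : CertB 536870912 536870912 0 536870912 1033476505 6710887 3 eng mog cd3q1 cd0q2 pd1 false true false .dn 1 1 2
    ndB3q1 ndB0q2 pcB1 Cut.none Ext.none :=
  certB0 (fam := false) (s1 := true) (s2 := false) (a := 1) (b := 1) (c := 2) (cn := .dn) (n1 := ndB3q1) (n2 := ndB0q2) (pc := pcB1) (cut := Cut.none) (xt := Ext.none) (P1 := 536870912) (W1 := 536870912) (P2 := 0) (W2 := 536870912) (P3 := 1033476505) (W3 := 6710887) (N0 := 3) (En := eng) (mo := mog) (C1 := cd3q1) (C2 := cd0q2) (C3 := pd1)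
    rfl k0_pm_112

noncomputable def f_pm_202 : ℕ → ℕ → ℕ → ℕ → Bool := onCell 0 536870912 0 536870912 1033476505 6710887
    (rowB 3 eng mog cd3q2 cd0q2 pd0 2 false true false .pp 2 0 2 (qsf 1073741824 536870912 0 536870912 0) ndB3q2 ndB0q2 pcB0 Cut.none Ext.none)

def k0_pm_202 : ∃ t, chk3 f_pm_202 t 1 1 1 = true :=
  ⟨(a (b (l 3) (b (l 3) (a (b (l 3) (a (b (b (b (l 3) (a (b (a (l 3) (a (l 3) (l 16639056))) (a (a (a (b (l 16685800) (l 16691024)) (l 16690000)) (a (b (l 16699272) (l 16697912)) (l 16685496))) (a (l 16666592) (l 16638928)))) (a (a (a (b (l 361884211079) (l 16617312)) (l 1)) (l 1)) (l 1)))) (a (a (a (b (a (l 16686624) (b (l 16689008) (l 16699000))) (l 16634632)) (b (a (b (b (l 16699128) (l 16700840)) (a (l 16699128) (l 16697528))) (b (b (l 16684472) (l 16685872)) (l 16666800))) (a (l 16674024) (b (a (l 16685432) (l 16681248)) (l 16663592))))) (a (b (b (a (l 16671376) (l 16656776)) (a (l 16670280) (l 16653480))) (a (b (l 16667872) (l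 16657528)) (a (l 16628704) (l 16640944)))) (b (b (a (l 16643112) (l 16629664)) (a (l 16638608) (l 1))) (a (l 16628064) (l 1))))) (l 1))) (a (a (b (a (a (l 16612008) (l 16579680)) (a (b (l 16634544) (l 16593880)) (b (l 16630872) (l 16586224)))) (a (b (a (a (l 16590224) (l 16578808)) (l 16566592)) (a (l 16551216) (a (l 16538144) (l 1)))) (b (a (l 534219590727) (l 1)) (l 1)))) (a (b (b (a (l 16622240) (a (l 16615320) (l 1))) (l 1)) (l 1)) (l 1))) (l 1))) (l 1))) (l 1)))) (l 1)), by decide +kernel⟩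

theorem c_pm_202 : CertB 1073741824 536870912 0 536870912 1033476505 6710887 3 eng mog cd3q2 cd0q2 pd0 false true false .pp 2 0 2
    ndB3q2 ndB0q2 pcB0 Cut.none Ext.none :=
  certB2 (fam := false) (s1 := true) (s2 := false) (a := 2) (b := 0) (c := 2) (cn := .pp) (n1 := ndB3q2) (n2 := ndB0q2) (pc := pcB0) (cut := Cut.none) (xt := Ext.none) (P1 := 1073741824) (W1 := 536870912) (P2 := 0) (W2 := 536870912) (P3 := 1033476505) (W3 := 6710887) (N0 := 3) (En := eng) (mo := mog) (C1 := cd3q2) (C2 := cd0q2) (C3 := pd0)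
    rfl (fun _ => rfl) k0_pm_202

noncomputable def f_mm_001 : ℕ → ℕ → ℕ → ℕ → Bool := onCell 0 536870912 536870912 536870912 1033476505 6710887
    (rowB 3 eng mog cd3q0 cd0q1 pd0 0 false false false .up 0 0 1 (qsf 0 536870912 536870912 536870912 0) ndB3q0 ndB0q1 pcB0 Cut.none Ext.none)

def k0_mm_001 : ∃ t, chk3 f_mm_001 t 1 1 1 = true :=
  ⟨(l 5), by decide +kernel⟩

theorem c_mm_001 : CertB 0 536870912 536870912 536870912 1033476505 6710887 3 eng mog cd3q0 cd0q1 pd0 false false false .up 0 0 1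
    ndB3q0 ndB0q1 pcB0 Cut.none Ext.none :=
  certB0 (fam := false) (s1 := false) (s2 := false) (a := 0) (b := 0) (c := 1) (cn := .up) (n1 := ndB3q0) (n2 := ndB0q1) (pc := pcB0) (cut := Cut.none) (xt := Ext.none) (P1 := 0) (W1 := 536870912) (P2 := 536870912) (W2 := 536870912) (P3 := 1033476505) (W3 := 6710887) (N0 := 3) (En := eng) (mo := mog) (C1 := cd3q0) (C2 := cd0q1) (C3 := pd0)
    rfl k0_mm_001

noncomputable def f_mm_011 : ℕ → ℕ → ℕ → ℕ → Bool := onCell 0 536870912 536870912 536870912 1033476505 6710887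
    (rowB 3 eng mog cd3q0 cd0q1 pd1 0 false false false .pnn 0 1 1 (qsf 0 536870912 536870912 536870912 1) ndB3q0 ndB0q1 pcB1 Cut.none Ext.none)

def k0_mm_011 : ∃ t, chk3 f_mm_011 t 1 1 1 = true :=
  ⟨(l 5), by decide +kernel⟩

theorem c_mm_011 : CertB 0 536870912 536870912 536870912 1033476505 6710887 3 eng mog cd3q0 cd0q1 pd1 false false false .pnn 0 1 1
    ndB3q0 ndB0q1 pcB1 Cut.none Ext.none :=
  certB0 (fam := false) (s1 := false) (s2 := false) (a := 0) (b := 1) (c := 1) (cn := .pnn) (n1 := ndB3q0) (n2 := ndB0q1) (pc := pcB1) (cut := Cut.none) (xt := Ext.none) (P1 := 0) (W1 := 536870912) (P2 := 536870912) (W2 := 536870912) (P3 := 1033476505) (W3 := 6710887) (N0 := 3) (En := eng) (mo := mog) (C1 := cd3q0) (C2 := cd0q1) (C3 := pd1)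
    rfl k0_mm_011

noncomputable def f_mm_012 : ℕ → ℕ → ℕ → ℕ → Bool := onCell 0 536870912 0 536870912 1033476505 6710887
    (rowB 3 eng mog cd3q0 cd0q2 pd1 0 false false false .pnp 0 1 2 (qsf 0 536870912 0 536870912 1) ndB3q0 ndB0q2 pcB1 Cut.none Ext.none)

def k0_mm_012 : ∃ t, chk3 f_mm_012 t 1 1 1 = true :=
  ⟨(l 5), by decide +kernel⟩

theorem c_mm_012 : CertB 0 536870912 0 536870912 1033476505 6710887 3 eng mog cd3q0 cd0q2 pd1 false false false .pnp 0 1 2
    ndB3q0 ndB0q2 pcB1 Cut.none Ext.none :=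
  certB0 (fam := false) (s1 := false) (s2 := false) (a := 0) (b := 1) (c := 2) (cn := .pnp) (n1 := ndB3q0) (n2 := ndB0q2) (pc := pcB1) (cut := Cut.none) (xt := Ext.none) (P1 := 0) (W1 := 536870912) (P2 := 0) (W2 := 536870912) (P3 := 1033476505) (W3 := 6710887) (N0 := 3) (En := eng) (mo := mog) (C1 := cd3q0) (C2 := cd0q2) (C3 := pd1)
    rfl k0_mm_012

noncomputable def f_mm_022 : ℕ → ℕ → ℕ → ℕ → Bool := onCell 0 536870912 0 536870912 1033476505 6710887
    (rowB 3 eng mog cd3q0 cd0q2 pd2 0 false false false .pp 0 2 2 (qsf 0 536870912 0 536870912 2) ndB3q0 ndB0q2 pcB2 Cut.none Ext.none)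

def k0_mm_022 : ∃ t, chk3 f_mm_022 t 1 1 1 = true :=
  ⟨(l 5), by decide +kernel⟩

theorem c_mm_022 : CertB 0 536870912 0 536870912 1033476505 6710887 3 eng mog cd3q0 cd0q2 pd2 false false false .pp 0 2 2
    ndB3q0 ndB0q2 pcB2 Cut.none Ext.none :=
  certB0 (fam := false) (s1 := false) (s2 := false) (a := 0) (b := 2) (c := 2) (cn := .pp) (n1 := ndB3q0) (n2 := ndB0q2) (pc := pcB2) (cut := Cut.none) (xt := Ext.none) (P1 := 0) (W1 := 536870912) (P2 := 0) (W2 := 536870912) (P3 := 1033476505) (W3 := 6710887) (N0 := 3) (En := eng) (mo := mog) (C1 := cd3q0) (C2 := cd0q2) (C3 := pd2)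
    rfl k0_mm_022

noncomputable def f_mm_101 : ℕ → ℕ → ℕ → ℕ → Bool := onCell 536870912 536870912 0 536870912 1033476505 6710887
    (rowB 3 eng mog cd3q1 cd0q1 pd0 1 false false false .npn 1 0 1 (qsf 536870912 536870912 536870912 536870912 0) ndB3q1 ndB0q1 pcB0 Cut.none Ext.none)

def k0_mm_101 : ∃ t, chk3 f_mm_101 t 1 1 1 = true :=
  ⟨(a (l 5) (l 5)), by decide +kernel⟩

theorem c_mm_101 : CertB 536870912 536870912 536870912 536870912 1033476505 6710887 3 eng mog cd3q1 cd0q1 pd0 false false false .npn 1 0 1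
    ndB3q1 ndB0q1 pcB0 Cut.none Ext.none :=
  certB1 (fam := false) (s1 := false) (s2 := false) (a := 1) (b := 0) (c := 1) (cn := .npn) (n1 := ndB3q1) (n2 := ndB0q1) (pc := pcB0) (cut := Cut.none) (xt := Ext.none) (P1 := 536870912) (W1 := 536870912) (P2 := 536870912) (W2 := 536870912) (P3 := 1033476505) (W3 := 6710887) (N0 := 3) (En := eng) (mo := mog) (C1 := cd3q1) (C2 := cd0q1) (C3 := pd0)
    rfl (fun _ => rfl) k0_mm_101

noncomputable def f_mm_102 : ℕ → ℕ → ℕ → ℕ → Bool := onCell 536870912 536870912 0 536870912 1033476505 6710887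
    (rowB 3 eng mog cd3q1 cd0q2 pd0 0 false false false .npp 1 0 2 (qsf 536870912 536870912 0 536870912 0) ndB3q1 ndB0q2 pcB0 Cut.none Ext.none)

def k0_mm_102 : ∃ t, chk3 f_mm_102 t 1 1 1 = true :=
  ⟨(l 5), by decide +kernel⟩

theorem c_mm_102 : CertB 536870912 536870912 0 536870912 1033476505 6710887 3 eng mog cd3q1 cd0q2 pd0 false false false .npp 1 0 2
    ndB3q1 ndB0q2 pcB0 Cut.none Ext.none :=
  certB0 (fam := false) (s1 := false) (s2 := false) (a := 1) (b := 0) (c := 2) (cn := .npp) (n1 := ndB3q1) (n2 := ndB0q2) (pc := pcB0) (cut := Cut.none) (xt := Ext.none) (P1 := 536870912) (W1 := 536870912) (P2 := 0) (W2 := 536870912) (P3 := 1033476505) (W3 := 6710887) (N0 := 3) (En := eng) (mo := mog) (C1 := cd3q1) (C2 := cd0q2) (C3 := pd0)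
    rfl k0_mm_102

noncomputable def f_mm_112 : ℕ → ℕ → ℕ → ℕ → Bool := onCell 536870912 536870912 0 536870912 1033476505 6710887
    (rowB 3 eng mog cd3q1 cd0q2 pd1 0 false false false .dn 1 1 2 (qsf 536870912 536870912 0 536870912 1) ndB3q1 ndB0q2 pcB1 Cut.none Ext.none)

def k0_mm_112 : ∃ t, chk3 f_mm_112 t 1 1 1 = true :=
  ⟨(l 5), by decide +kernel⟩

theorem c_mm_112 : CertB 536870912 536870912 0 536870912 1033476505 6710887 3 eng mog cd3q1 cd0q2 pd1 false false false .dn 1 1 2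
    ndB3q1 ndB0q2 pcB1 Cut.none Ext.none :=
  certB0 (fam := false) (s1 := false) (s2 := false) (a := 1) (b := 1) (c := 2) (cn := .dn) (n1 := ndB3q1) (n2 := ndB0q2) (pc := pcB1) (cut := Cut.none) (xt := Ext.none) (P1 := 536870912) (W1 := 536870912) (P2 := 0) (W2 := 536870912) (P3 := 1033476505) (W3 := 6710887) (N0 := 3) (En := eng) (mo := mog) (C1 := cd3q1) (C2 := cd0q2) (C3 := pd1)
    rfl k0_mm_112

noncomputable def f_mm_202 : ℕ → ℕ → ℕ → ℕ → Bool := onCell 1073741824 536870912 0 536870912 1033476505 6710887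
    (rowB 3 eng mog cd3q2 cd0q2 pd0 0 false false false .pp 2 0 2 (qsf 1073741824 536870912 0 536870912 0) ndB3q2 ndB0q2 pcB0 Cut.none Ext.none)

def k0_mm_202 : ∃ t, chk3 f_mm_202 t 1 1 1 = true :=
  ⟨(l 3), by decide +kernel⟩

theorem c_mm_202 : CertB 1073741824 536870912 0 536870912 1033476505 6710887 3 eng mog cd3q2 cd0q2 pd0 false false false .pp 2 0 2
    ndB3q2 ndB0q2 pcB0 Cut.none Ext.none :=
  certB0 (fam := false) (s1 := false) (s2 := false) (a := 2) (b := 0) (c := 2) (cn := .pp) (n1 := ndB3q2) (n2 := ndB0q2) (pc := pcB0) (cut := Cut.none) (xt := Ext.none) (P1 := 1073741824) (W1 := 536870912) (P2 := 0) (W2 := 536870912) (P3 := 1033476505) (W3 := 6710887) (N0 := 3) (En := eng) (mo := mog) (C1 := cd3q2) (C2 := cd0q2) (C3 := pd0)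
    rfl k0_mm_202

end Pool.Agent.Strip051.G.I9625_9688.Tab.C.BB30

namespace Pool.Agent.Strip051.G.I9625_9688.Tab.C.BB31

open Pool.Agent.Strip051.PB Pool.Agent.Strip051.PB.T
open Pool.Agent.Strip051.G.I9625_9688.Tab

noncomputable def f_pp_001 : ℕ → ℕ → ℕ → ℕ → Bool := onCell 0 536870912 0 536870912 1033476505 6710887
    (rowB 3 eng mog cd3q0 cd1q1 pd0 1 false true true .up 0 0 1 (qsf 0 536870912 536870912 536870912 0) ndB3q0 ndB1q1 pcB0 Cut.none Ext.none)

def k0_pp_001 : ∃ t, chk3 f_pp_001 t 1 1 1 = true :=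
  ⟨(l 3), by decide +kernel⟩

theorem c_pp_001 : CertB 0 536870912 536870912 536870912 1033476505 6710887 3 eng mog cd3q0 cd1q1 pd0 false true true .up 0 0 1
    ndB3q0 ndB1q1 pcB0 Cut.none Ext.none :=
  certB1 (fam := false) (s1 := true) (s2 := true) (a := 0) (b := 0) (c := 1) (cn := .up) (n1 := ndB3q0) (n2 := ndB1q1) (pc := pcB0) (cut := Cut.none) (xt := Ext.none) (P1 := 0) (W1 := 536870912) (P2 := 536870912) (W2 := 536870912) (P3 := 1033476505) (W3 := 6710887) (N0 := 3) (En := eng) (mo := mog) (C1 := cd3q0) (C2 := cd1q1) (C3 := pd0)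
    rfl (fun _ => rfl) k0_pp_001

noncomputable def f_pp_011 : ℕ → ℕ → ℕ → ℕ → Bool := onCell 0 536870912 536870912 536870912 1033476505 6710887
    (rowB 3 eng mog cd3q0 cd1q1 pd1 0 false true true .pnn 0 1 1 (qsf 0 536870912 536870912 536870912 1) ndB3q0 ndB1q1 pcB1 Cut.none Ext.none)

def k0_pp_011 : ∃ t, chk3 f_pp_011 t 1 1 1 = true :=
  ⟨(a (b (l 3) (l 3)) (l 3)), by decide +kernel⟩

theorem c_pp_011 : CertB 0 536870912 536870912 536870912 1033476505 6710887 3 eng mog cd3q0 cd1q1 pd1 false true true .pnn 0 1 1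
    ndB3q0 ndB1q1 pcB1 Cut.none Ext.none :=
  certB0 (fam := false) (s1 := true) (s2 := true) (a := 0) (b := 1) (c := 1) (cn := .pnn) (n1 := ndB3q0) (n2 := ndB1q1) (pc := pcB1) (cut := Cut.none) (xt := Ext.none) (P1 := 0) (W1 := 536870912) (P2 := 536870912) (W2 := 536870912) (P3 := 1033476505) (W3 := 6710887) (N0 := 3) (En := eng) (mo := mog) (C1 := cd3q0) (C2 := cd1q1) (C3 := pd1)
    rfl k0_pp_011

noncomputable def xt_pp_012_a : Ext := extD3 3 ⟨4, 1, 1, 5, 27, 5, 41, 50, 81, 200, 1, 64⟩ eng cd3q0 cd1q2a pd1 false true true .pnp 0 1 2 rfl ndB3q0 ndB1q2a pcB1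

noncomputable def f_pp_012_a : ℕ → ℕ → ℕ → ℕ → Bool := onCell 0 536870912 0 536870912 1033476505 6710887
    (rowB 3 eng mog cd3q0 cd1q2a pd1 0 false true true .pnp 0 1 2 (qsf 0 536870912 0 536870912 1) ndB3q0 ndB1q2a pcB1 Cut.none xt_pp_012_a)

def k0_pp_012_a : ∃ t, chk3 f_pp_012_a t 2 2 1 = true :=
  ⟨(a (b (l 2) (a (l 2) (a (l 2) (b (l 2) (l 15990288))))) (a (b (a (l 15694224) (l 15450416)) (a (b (l 15721664) (l 15747584)) (l 15507264))) (b (b (a (l 15199840) (l 14963536)) (l 15137376)) (a (l 15291336) (l 15090400))))), by decide +kernel⟩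

def k1_pp_012_a : ∃ t, chk3 f_pp_012_a t 4 3 1 = true :=
  ⟨(b (a (l 2) (a (b (l 2) (a (l 16320920) (l 16201576))) (b (l 16010128) (l 15968136)))) (a (b (a (l 2) (b (a (l 2) (l 16390792)) (a (b (l 2) (a (l 16522960) (l 16510568))) (b (l 16456424) (l 16476960))))) (a (a (b (l 2) (b (a (l 2) (b (l 16596472) (l 16607664))) (b (a (b (l 16654360) (l 16659128)) (a (l 16629240) (l 16610296))) (a (b (l 16664184) (l 16669496)) (l 16628664))))) (b (a (b (l 2) (b (l 2) (l 16530512))) (b (l 16476912) (a (l 16501216) (l 16520456)))) (a (b (b (l 16543400) (l 16556840)) (b (l 16564584) (l 16575648))) (b (a (l 16526624) (l 16546848)) (a (l 141848991051497599) (l 16561272)))))) (a (b (a (b (l 16537720) (l 16552888)) (a (l 16542256) (l 16573000))) (a (b (l 141728732041330815) (l 141593904451452991)) (b (a (l 16606864) (l 16575592)) (b (l 141558788533960767) (a (l 141154443019927615) (l 16284256)))))) (b (b (l 16495032) (a (l 16538392) (l 16474240))) (b (a (b (l 16520952)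 (l 16413664)) (b (l 16406664) (l 16284624))) (a (b (l 16278344) (b (l 16170008) (l 16095224))) (b (l 16143264) (a (l 16023120) (l 15966704))))))))) (b (a (b (a (l 16319632) (l 16210224)) (a (l 16357176) (b (l 16235456) (l 16255000)))) (b (b (l 16045416) (a (l 16110208) (l 16007744))) (a (b (l 16129560) (l 16147640)) (l 16047344)))) (a (b (a (b (b (l 16374712) (l 16379920)) (a (l 16412120) (l 16351928))) (b (a (l 16292384) (l 16239736)) (a (l 16295056) (l 16249296)))) (a (b (a (l 16248864) (b (l 16229088) (l 16108080))) (a (b (l 16046104) (l 15898712)) (l 15902920))) (b (l 16081064) (b (l 15897360) (l 15765792))))) (b (a (b (l 16177424) (l 16186376)) (l 16009168)) (b (a (l 16003024) (l 15963144)) (a (l 15782992) (l 15773512)))))))), by decide +kernel⟩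

def k2_pp_012_a : ∃ t, chk3 f_pp_012_a t 5 3 1 = true :=
  ⟨(b (a (b (a (l 15778352) (l 15561904)) (a (l 15815712) (l 15614584))) (b (a (l 15360632) (l 15175488)) (a (l 15428640) (l 15258992)))) (b (a (a (b (b (l 15843080) (l 15863096)) (a (l 15960920) (l 15875160))) (b (l 15668440) (l 15593192))) (b (a (l 15496064) (l 15338240)) (a (a (l 15605928) (l 15513224)) (l 15375464)))) (a (a (b (a (l 16037224) (l 15955376)) (b (l 15964240) (a (l 15798992) (l 15859944)))) (b (a (l 15859888) (l 15757272)) (a (b (l 15896280) (l 15900176)) (l 15776344)))) (b (a (a (l 15648704) (l 15530792)) (l 15365672)) (a (b (l 15583696) (l 15567496)) (b (l 15329920) (l 15290600))))))), by decide +kernel⟩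

def k3_pp_012_a : ∃ t, chk3 f_pp_012_a t 3 1 1 = true :=
  ⟨(b (a (b (a (b (l 14617344) (l 14736920)) (b (l 14188768) (a (l 14475904) (l 14318008)))) (a (b (l 14788144) (l 14849056)) (b (l 14478440) (l 14560096)))) (b (a (b (l 13836456) (b (l 14043712) (l 14156608))) (b (l 13570832) (l 13871128))) (a (b (l 14242288) (l 14346184)) (b (l 14063752) (l 14210304))))) (b (a (a (b (a (l 15007424) (l 14857096)) (a (l 15106368) (l 14971208))) (b (a (l 14724968) (l 14611408)) (a (l 14853856) (l 14754584)))) (a (b (a (l 14516736) (l 14441256)) (a (l 14673688) (l 14611416))) (b (l 14364608) (a (l 14568024) (l 14543736))))) (a (b (a (b (a (l 15196248) (l 15072408)) (a (l 15208248) (l 15060344))) (b (b (l 14904800) (a (l 14964864) (l 14880936))) (a (l 14913784) (a (l 14856360) (l 14812408))))) (a (b (a (l 15157272) (b (l 14995752) (l 14936000))) (a (b (l 15088464) (l 15026544)) (b (l 14867576) (l 14784920)))) (b (a (b (l 14840192) (l 14761184)) (b (l 14711624)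 (l 14614840))) (a (b (l 14674192) (l 14573056)) (b (l 14508336) (l 14389840)))))) (b (a (b (a (l 14811376) (l 14761720)) (a (l 14758488) (a (l 14718432) (l 14696816)))) (b (a (l 14730824) (l 14716808)) (a (a (l 14686080) (l 14681392)) (b (l 14729680) (l 14614160))))) (a (b (a (a (l 14579248) (l 14529720)) (l 14363208)) (a (b (l 14369816) (l 14231176)) (b (l 14256608) (l 14099984)))) (b (a (l 14409336) (l 14358704)) (a (b (l 14151360) (a (l 14021024) (l 13978664))) (a (b (l 14129144) (b (l 13991896) (l 13896520))) (b (l 14110800) (b (l 13968368) (l 13869768))))))))))), by decide +kernel⟩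

theorem s4_pp_012_a : ∃ t, chk3 f_pp_012_a t 2 3 1 = true := ex3_a k1_pp_012_a k2_pp_012_a

theorem s5_pp_012_a : ∃ t, chk3 f_pp_012_a t 2 1 1 = true := ex3_b k0_pp_012_a s4_pp_012_a

theorem s6_pp_012_a : ∃ t, chk3 f_pp_012_a t 1 1 1 = true := ex3_a s5_pp_012_a k3_pp_012_a

theorem c_pp_012_a : CertB 0 536870912 0 536870912 1033476505 6710887 3 eng mog cd3q0 cd1q2a pd1 false true true .pnp 0 1 2
    ndB3q0 ndB1q2a pcB1 Cut.none xt_pp_012_a :=
  certB0 (fam := false) (s1 := true) (s2 := true) (a := 0) (b := 1) (c := 2) (cn := .pnp) (n1 := ndB3q0) (n2 := ndB1q2a) (pc := pcB1) (cut := Cut.none) (xt := xt_pp_012_a) (P1 := 0) (W1 := 536870912) (P2 := 0) (W2 := 536870912) (P3 := 1033476505) (W3 := 6710887) (N0 := 3) (En := eng) (mo := mog) (C1 := cd3q0) (C2 := cd1q2a) (C3 := pd1)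
    rfl s6_pp_012_a

noncomputable def f_pp_012_b : ℕ → ℕ → ℕ → ℕ → Bool := onCell 0 536870912 536870912 536870912 1033476505 6710887
    (rowB 3 eng mog cd3q0 cd1q2b pd1 1 false true true .pnp 0 1 2 (qsf 0 536870912 1239849684 370763052 1) ndB3q0 ndB1q2b pcB1 Cut.none Ext.none)

def k0_pp_012_b : ∃ t, chk3 f_pp_012_b t 1 1 1 = true :=
  ⟨(a (b (l 1) (a (l 1) (b (l 1) (a (b (l 1) (a (l 434359882727) (l 293161967767))) (b (a (l 430063914423) (l 14952464)) (a (l 15001832) (l 14536560))))))) (b (a (l 1) (b (l 1) (a (b (l 1) (l 451536594935)) (b (l 13529920) (l 13306408))))) (a (b (a (b (l 1) (a (l 14883472) (l 14459488))) (b (l 413955391431) (l 236251471031))) (a (b (a (l 14505552) (l 14087872)) (l 13891544)) (b (l 13521824) (l 13138416)))) (b (a (b (l 13550296) (l 13232856)) (b (l 13036832) (l 12730176))) (a (b (l 12885840) (l 12522960)) (l 12222248)))))), by decide +kernel⟩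

theorem c_pp_012_b : CertB 0 536870912 1239849684 370763052 1033476505 6710887 3 eng mog cd3q0 cd1q2b pd1 false true true .pnp 0 1 2
    ndB3q0 ndB1q2b pcB1 Cut.none Ext.none :=
  certB1 (fam := false) (s1 := true) (s2 := true) (a := 0) (b := 1) (c := 2) (cn := .pnp) (n1 := ndB3q0) (n2 := ndB1q2b) (pc := pcB1) (cut := Cut.none) (xt := Ext.none) (P1 := 0) (W1 := 536870912) (P2 := 1239849684) (W2 := 370763052) (P3 := 1033476505) (W3 := 6710887) (N0 := 3) (En := eng) (mo := mog) (C1 := cd3q0) (C2 := cd1q2b) (C3 := pd1)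
    rfl (fun _ => rfl) k0_pp_012_b

end Pool.Agent.Strip051.G.I9625_9688.Tab.C.BB31

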