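import Pool.Agent.Strip051.PB.DgE
import Pool.Agent.Strip051.PB.DgW
import Pool.Agent.Strip051.G.I9625_9688.Fact

/-! # The corner (1, 1, 2): parameters of the degenerate charts (generated) -/

set_option linter.all false

namespace Pool.Agent.Strip051.G.I9625_9688.Tab.DG

open Pool.Agent.Strip051.PB Pool.Agent.Strip051.PB.Dg Pool.Agent.StripNear Pool.Agent.Strip051.LC

noncomputable def pFma : Fn1 := ⟨_, _, fun h1 => (enc_norm (enc_add (enc_scaleT 122637 125000 (enc_subr 309 320 h1)) (enc_rat _ 672449 5000000)))⟩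
noncomputable def pFmb : Fn1 := ⟨_, _, fun h1 => (enc_norm (enc_subr 3412599 4000000 (enc_neg (enc_scaleT 2062679 400000 (enc_subr 309 320 h1)))))⟩
noncomputable def pFmu : Fn1 := ⟨_, _, fun h1 => (mug3.enc h1)⟩
noncomputable def pFnx : Fn1 := ⟨_, _, fun h1 => (enc_norm (enc_add h1 (enc_pnc _ 3)))⟩
noncomputable def pFc0 : Fn1 := ⟨_, _, fun h1 => (enc_pnc _ 1)⟩
noncomputable def pFkc : Fn1 := ⟨_, _, fun h1 => (enc_norm (enc_add (enc_scaleT 1029498871 100000000 (enc_subr 309 320 h1)) (enc_rat _ 980746903 1000000000)))⟩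
noncomputable def pFjc : Fn1 := ⟨_, _, fun h1 => (enc_norm (enc_sub (enc_rat _ 28072405088027 1388200000000) (enc_scaleT 9337451553 55000000 (enc_subr 309 320 h1))))⟩
noncomputable def pFca : Fn1 := ⟨_, _, fun h1 => (enc_norm (enc_sub (enc_rat _ 16187 2500) (enc_scaleT 31558 125 (enc_subr 309 320 h1))))⟩
noncomputable def pFcb : Fn1 := ⟨_, _, fun h1 => (enc_norm (enc_subr 6097 2000 (enc_scaleT 146619 1000 (enc_subr 309 320 h1))))⟩
noncomputable def pFcc : Fn1 := ⟨_, _, fun h1 => (enc_neg (enc_rat _ 2799323 10000))⟩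
noncomputable def pFsv : Fn1 := ⟨_, _, fun h1 => (enc_norm (enc_subr 5 256 h1))⟩
noncomputable def pFx11 : Fn1 := ⟨_, _, fun h1 => (cv1m.enc h1)⟩
noncomputable def pFx01 : Fn1 := ⟨_, _, fun h1 => (c1g.enc h1)⟩
noncomputable def pFK11 : Fn2 := ⟨_, _, fun h1 h2 => (kf1q1.enc h1 h2)⟩
noncomputable def pFK01 : Fn2 := ⟨_, _, fun h1 h2 => (kf0q1.enc h1 h2)⟩
noncomputable def pFL11 : Fn2 := ⟨_, _, fun h1 h2 => (l1q1.enc h1 h2)⟩
noncomputable def pFL01 : Fn2 := ⟨_, _, fun h1 h2 => (l0q1.enc h1 h2)⟩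
noncomputable def kFa0 : Fn1 := ⟨_, _, fun h1 => (enc_norm (enc_subr 1 115000000 (enc_scaleT 139 11500000 (enc_subr 309 320 h1))))⟩
noncomputable def kFa0g : Fn1 := ⟨_, _, fun h1 => (enc_norm (enc_subr 21931 2500 (enc_scaleT 29249 250 (enc_subr 309 320 h1))))⟩
noncomputable def kFa1 : Fn1 := ⟨_, _, fun h1 => (enc_norm (enc_sub (enc_rat _ 158268443 49979000000000) (enc_scaleT 1249240499 9995800000000 (enc_subr 309 320 h1))))⟩
noncomputable def kFa1g : Fn1 := ⟨_, _, fun h1 => (enc_norm (enc_subr 5141 5000 (enc_scaleT 60613 200 (enc_subr 309 320 h1))))⟩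
noncomputable def kFb0 : Fn1 := ⟨_, _, fun h1 => (enc_norm (enc_subr 17 115000000 (enc_neg (enc_scaleT 57 23000000 (enc_subr 309 320 h1)))))⟩
noncomputable def kFb0g : Fn1 := ⟨_, _, fun h1 => (enc_norm (enc_sub (enc_rat _ 11173 2500) (enc_scaleT 37519 500 (enc_subr 309 320 h1))))⟩
noncomputable def kFb1_2 : Fn1 := ⟨_, _, fun h1 => (enc_subr 309 320 h1)⟩
noncomputable def kFb1 : Fn1 := ⟨_, _, fun h1 => (enc_norm (enc_add (enc_mul (enc_norm (enc_subr 892355833 159201804800000 (enc_scaleT 232717 21630680000 (kFb1_2.enc h1)))) (enc_norm (kFb1_2.enc h1))) (enc_rat _ 8253217041 7960090240000000)))⟩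
noncomputable def kFb1g_2 : Fn1 := ⟨_, _, fun h1 => (enc_subr 309 320 h1)⟩
noncomputable def kFb1g : Fn1 := ⟨_, _, fun h1 => (enc_norm (enc_add (enc_mul (enc_norm (enc_subr 7857 50 (enc_neg (enc_scaleT 82239 50 (kFb1g_2.enc h1))))) (enc_norm (kFb1g_2.enc h1))) (enc_rat _ 2067 2500)))⟩
noncomputable def kFd0 : Fn1 := ⟨_, _, fun h1 => (enc_norm (enc_subr 7 23000000 (enc_scaleT 41 5750000 (enc_subr 309 320 h1))))⟩
noncomputable def kFd0g : Fn1 := ⟨_, _, fun h1 => (enc_norm (enc_sub (enc_rat _ 83 500) (enc_scaleT 827 25 (enc_subr 309 320 h1))))⟩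
noncomputable def kFd1_2 : Fn1 := ⟨_, _, fun h1 => (enc_subr 309 320 h1)⟩
noncomputable def kFd1 : Fn1 := ⟨_, _, fun h1 => (enc_norm (enc_add (enc_mul (enc_norm (enc_subr 2944578300829557 21621595114400000000 (enc_scaleT 232717 10815340000 (kFd1_2.enc h1)))) (enc_norm (kFd1_2.enc h1))) (enc_rat _ 1133046824678573 216215951144000000000)))⟩
noncomputable def kFd1g_2 : Fn1 := ⟨_, _, fun h1 => (enc_subr 309 320 h1)⟩
noncomputable def kFd1g : Fn1 := ⟨_, _, fun h1 => (enc_norm (enc_add (enc_mul (enc_norm (enc_subr 2243 200 (enc_neg (enc_scaleT 82239 25 (kFd1g_2.enc h1))))) (enc_norm (kFd1g_2.enc h1))) (enc_rat _ 3127 5000)))⟩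
noncomputable def kFe0 : Fn1 := ⟨_, _, fun h1 => (enc_norm (enc_subr 9 57500000 (enc_scaleT 221 23000000 (enc_subr 309 320 h1))))⟩
noncomputable def kFe0g : Fn1 := ⟨_, _, fun h1 => (enc_norm (enc_subr 5379 1250 (enc_scaleT 20979 500 (enc_subr 309 320 h1))))⟩
noncomputable def kFe1_2 : Fn1 := ⟨_, _, fun h1 => (enc_subr 309 320 h1)⟩
noncomputable def kFe1 : Fn1 := ⟨_, _, fun h1 => (enc_norm (enc_add (enc_mul (enc_norm (enc_subr 5646770448520489 43243190228800000000 (enc_scaleT 232717 21630680000 (kFe1_2.enc h1)))) (enc_norm (kFe1_2.enc h1))) (enc_rat _ 1817737633604821 432431902288000000000)))⟩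
noncomputable def kFe1g_2 : Fn1 := ⟨_, _, fun h1 => (enc_subr 309 320 h1)⟩
noncomputable def kFe1g : Fn1 := ⟨_, _, fun h1 => (enc_norm (enc_subr 1007 5000 (enc_mul (enc_norm (enc_sub (enc_rat _ 5837 40) (enc_scaleT 82239 50 (kFe1g_2.enc h1)))) (enc_norm (kFe1g_2.enc h1)))))⟩
noncomputable def cFxs1 : Fn1 := ⟨_, _, fun h1 => (enc_norm (enc_add (enc_scaleT 4 5 (dgxi.enc h1)) (enc_scaleT 1 5 (dgws.enc h1))))⟩
noncomputable def cFsB1 : Fn2 := ⟨_, _, fun h1 h2 => (enc_norm (enc_subr 9019 2400 (enc_neg (enc_scaleT 3041 240 (enc_subr 309 320 h2)))))⟩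
noncomputable def cFBs1 : Fn2 := ⟨_, _, fun h1 h2 => (cFsB1.enc h1 h2)⟩
noncomputable def cFsX1 : Fn2 := ⟨_, _, fun h1 h2 => (enc_norm (enc_subr 4147 2400 (enc_neg (enc_scaleT 2089 120 (enc_subr 309 320 h2)))))⟩
noncomputable def cFsD1 : Fn2 := ⟨_, _, fun h1 h2 => (enc_pnc _ 0)⟩
noncomputable def cFsDD1 : Fn2 := ⟨_, _, fun h1 h2 => (cFsD1.enc h1 h2)⟩
noncomputable def cFxs2 : Fn1 := ⟨_, _, fun h1 => (enc_norm (enc_add (enc_scaleT 2 5 (dgxi.enc h1)) (enc_scaleT 3 5 (dgws.enc h1))))⟩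
noncomputable def cFsB2 : Fn2 := ⟨_, _, fun h1 h2 => (enc_norm (enc_subr 11887 2400 (enc_neg (enc_scaleT 999 80 (enc_subr 309 320 h2)))))⟩
noncomputable def cFBs2 : Fn2 := ⟨_, _, fun h1 h2 => (cFsB2.enc h1 h2)⟩
noncomputable def cFsX2 : Fn2 := ⟨_, _, fun h1 h2 => (enc_norm (enc_subr 2059 2400 (enc_neg (enc_scaleT 103 240 (enc_subr 309 320 h2)))))⟩
noncomputable def cFsD2 : Fn2 := ⟨_, _, fun h1 h2 => (enc_rat _ 4996 155)⟩
noncomputable def cFsDD2 : Fn2 := ⟨_, _, fun h1 h2 => (cFsD2.enc h1 h2)⟩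
noncomputable def nFsc2 : Fn1 := ⟨_, _, fun h1 => (enc_scaleT 3 5 h1)⟩
noncomputable def nFB2_5 : Fn2 := ⟨_, _, fun h1 h2 => (enc_subr 309 320 h2)⟩
noncomputable def nFB2 : Fn2 := ⟨_, _, fun h1 h2 => (enc_norm (enc_case (enc_sub (enc_rat _ 59990999 1000000000) h1) (enc_add (enc_subr 153937708073 308856000000 (enc_neg (enc_scaleT 2752454327 15442800000 (nFB2_5.enc h1 h2)))) (enc_mul h1 (enc_norm (enc_sub (enc_rat _ 511625 733533) (enc_scaleT 10632500 733533 (nFB2_5.enc h1 h2)))))) (enc_add (enc_subr 24921 50000 (enc_neg (enc_scaleT 1781 10000 (nFB2_5.enc h1 h2)))) (enc_mul h1 (enc_norm (enc_sub (enc_rat _ 41850000 59990999) (enc_scaleT 869700000 59990999 (nFB2_5.enc h1 h2))))))))⟩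
noncomputable def nFX2_5 : Fn2 := ⟨_, _, fun h1 h2 => (enc_subr 309 320 h2)⟩
noncomputable def nFX2 : Fn2 := ⟨_, _, fun h1 h2 => (enc_norm (enc_case (enc_sub (enc_rat _ 59990999 1000000000) h1) (enc_add (enc_add (enc_scaleT 169898021741 30885600000 (nFX2_5.enc h1 h2)) (enc_rat _ 92426413 102952000)) (enc_mul h1 (enc_norm (enc_sub (enc_rat _ 65000 244511) (enc_scaleT 13501250 733533 (nFX2_5.enc h1 h2)))))) (enc_add (enc_add (enc_scaleT 55009 10000 (nFX2_5.enc h1 h2)) (enc_rat _ 5611 6250)) (enc_mul h1 (enc_norm (enc_sub (enc_rat _ 15950000 59990999) (enc_scaleT 1104200000 59990999 (nFX2_5.enc h1 h2))))))))⟩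
noncomputable def nFD2_3 : Fn2 := ⟨_, _, fun h1 h2 => (enc_subr 309 320 h2)⟩
noncomputable def nFD2 : Fn2 := ⟨_, _, fun h1 h2 => (enc_norm (enc_add (enc_sub (enc_rat _ 1757 5000) (enc_scaleT 182971 1000 (nFD2_3.enc h1 h2))) (enc_mul h1 (enc_norm (enc_add (enc_scaleT 5381500000 7868293 (nFD2_3.enc h1 h2)) (enc_rat _ 15553650000 133760981))))))⟩
noncomputable def nFsc3 : Fn1 := ⟨_, _, fun h1 => (enc_norm (enc_add (enc_scaleT 1899 2000 h1) (enc_rat _ 101 2000)))⟩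
noncomputable def nFB3_5 : Fn2 := ⟨_, _, fun h1 h2 => (enc_subr 309 320 h2)⟩
noncomputable def nFB3 : Fn2 := ⟨_, _, fun h1 h2 => (enc_norm (enc_case (enc_sub (enc_rat _ 59990999 1000000000) h1) (enc_add (enc_subr 1033000 244511 (enc_neg (enc_scaleT 11122500 244511 (nFB3_5.enc h1 h2)))) (enc_mul (enc_norm (enc_subr 2509744537 12869000000 (enc_scaleT 595149 5147600000 (nFB3_5.enc h1 h2)))) (enc_inv h1))) (enc_subr 448470000 59990999 (enc_neg (enc_scaleT 2728800000 59990999 (nFB3_5.enc h1 h2))))))⟩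
noncomputable def nFX3_5 : Fn2 := ⟨_, _, fun h1 h2 => (enc_subr 309 320 h2)⟩
noncomputable def nFX3 : Fn2 := ⟨_, _, fun h1 h2 => (enc_norm (enc_case (enc_sub (enc_rat _ 59990999 1000000000) h1) (enc_add (enc_sub (enc_rat _ 464375 733533) (enc_scaleT 4300000 244511 (nFX3_5.enc h1 h2))) (enc_mul (enc_norm (enc_add (enc_scaleT 11158953369 25738000000 (nFX3_5.enc h1 h2)) (enc_rat _ 19499425967 1544280000000))) (enc_inv h1))) (enc_sub (enc_rat _ 50605150 59990999) (enc_scaleT 621449500 59990999 (nFX3_5.enc h1 h2)))))⟩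
noncomputable def nFD3 : Fn2 := ⟨_, _, fun h1 h2 => (enc_norm (enc_add (enc_scaleT 7041523307405 22338083827 (enc_subr 309 320 h2)) (enc_rat _ 24295599658607 446761676540)))⟩
noncomputable def nFsc4 : Fn1 := ⟨_, _, fun h1 => (enc_norm (enc_add (enc_scaleT 3 10 h1) (enc_rat _ 7 10)))⟩
noncomputable def nFB4_5 : Fn2 := ⟨_, _, fun h1 h2 => (enc_subr 309 320 h2)⟩
noncomputable def nFB4 : Fn2 := ⟨_, _, fun h1 h2 => (enc_norm (enc_case (enc_sub (enc_rat _ 59990999 1000000000) h1) (enc_add (enc_add (enc_scaleT 13896250 244511 (nFB4_5.enc h1 h2)) (enc_rat _ 680250 244511)) (enc_mul (enc_norm (enc_subr 11231031821 51476000000 (enc_neg (enc_scaleT 42618604297 10295200000 (nFB4_5.enc h1 h2))))) (enc_inv h1))) (enc_subr 51280000 59990999 (enc_neg (enc_scaleT 730200000 59990999 (nFB4_5.enc h1 h2))))))⟩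
noncomputable def nFX4_5 : Fn2 := ⟨_, _, fun h1 h2 => (enc_subr 309 320 h2)⟩
noncomputable def nFX4 : Fn2 := ⟨_, _, fun h1 h2 => (enc_norm (enc_case (enc_sub (enc_rat _ 59990999 1000000000) h1) (enc_add (enc_add (enc_scaleT 1026250 244511 (nFX4_5.enc h1 h2)) (enc_rat _ 750 12869)) (enc_mul (enc_norm (enc_sub (enc_rat _ 95088961 128690000000) (enc_scaleT 35947795267 51476000000 (nFX4_5.enc h1 h2)))) (enc_inv h1))) (enc_sub (enc_rat _ 4235150 59990999) (enc_scaleT 446549500 59990999 (nFX4_5.enc h1 h2)))))⟩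
noncomputable def nFD4 : Fn2 := ⟨_, _, fun h1 h2 => (enc_norm (enc_add (enc_scaleT 28787000000000 22338083827 (enc_subr 309 320 h2)) (enc_rat _ 764762450000 22338083827)))⟩
noncomputable def l12F : List Knk := []
noncomputable def laF : List Knk := [⟨1, 80, kFa0, kFa0g⟩, ⟨3, 125, kFa1, kFa1g⟩]
noncomputable def lbF : List Knk := [⟨1, 80, kFb0, kFb0g⟩, ⟨3, 125, kFb1, kFb1g⟩]
noncomputable def l1F : List Knk := [⟨1, 80, kFe0, kFe0g⟩, ⟨3, 125, kFe1, kFe1g⟩]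
noncomputable def l2F : List Knk := [⟨1, 80, kFd0, kFd0g⟩, ⟨3, 125, kFd1, kFd1g⟩]
noncomputable def cvF1 : CvP := ⟨cFxs1, cFBs1, cFsX1⟩
noncomputable def cvF2 : CvP := ⟨cFxs2, cFBs2, cFsX2⟩
noncomputable def ndF2 : NdU := ⟨nFsc2, nFB2, nFX2, nFD2⟩
noncomputable def ndF3 : NdU := ⟨nFsc3, nFB3, nFX3, nFD3⟩
noncomputable def ndF4 : NdU := ⟨nFsc4, nFB4, nFX4, nFD4⟩
noncomputable def pF : Pm := ⟨pFma, pFmb, pFmu, pFnx, pFc0, pFkc, pFjc, pFkc, pFjc, pFkc, pFjc, pFca, pFcb, pFcc, pFcc, pFcc, pFsv, l12F, l12F, l12F, laF, lbF, l1F, l2F, cvF1, pFx11, pFx01, pFK11, pFK01, pFL11, pFL01⟩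
noncomputable def pNc0 : Fn1 := ⟨_, _, fun h1 => (eng.enc h1)⟩
noncomputable def pNkc : Fn1 := ⟨_, _, fun h1 => (enc_norm (enc_mul (pNc0.enc h1) (enc_norm (enc_add (enc_scaleT 1029498871 100000000 (enc_subr 309 320 h1)) (enc_rat _ 980746903 1000000000)))))⟩
noncomputable def pNjc : Fn1 := ⟨_, _, fun h1 => (enc_norm (enc_mul (pNc0.enc h1) (enc_norm (enc_sub (enc_rat _ 28072405088027 1388200000000) (enc_scaleT 9337451553 55000000 (enc_subr 309 320 h1))))))⟩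
noncomputable def pNcc : Fn1 := ⟨_, _, fun h1 => (enc_neg (enc_scaleT 2799323 10000 (pNc0.enc h1)))⟩
noncomputable def pNK11 : Fn2 := ⟨_, _, fun h1 h2 => (enc_norm (enc_mul (pNc0.enc h2) (kf1q1.enc h1 h2)))⟩
noncomputable def pNK01 : Fn2 := ⟨_, _, fun h1 h2 => (enc_norm (enc_mul (pNc0.enc h2) (kf0q1.enc h1 h2)))⟩
noncomputable def cNBs1 : Fn2 := ⟨_, _, fun h1 h2 => (enc_norm (enc_mul (pNc0.enc h2) (cFsB1.enc h1 h2)))⟩
noncomputable def cNBs2 : Fn2 := ⟨_, _, fun h1 h2 => (enc_norm (enc_mul (pNc0.enc h2) (cFsB2.enc h1 h2)))⟩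
noncomputable def nNB2_6 : Fn2 := ⟨_, _, fun h1 h2 => (enc_subr 309 320 h2)⟩
noncomputable def nNB2 : Fn2 := ⟨_, _, fun h1 h2 => (enc_norm (enc_mul (pNc0.enc h2) (enc_norm (enc_case (enc_sub (enc_rat _ 59990999 1000000000) h1) (enc_add (enc_subr 153937708073 308856000000 (enc_neg (enc_scaleT 2752454327 15442800000 (nNB2_6.enc h1 h2)))) (enc_mul h1 (enc_norm (enc_sub (enc_rat _ 511625 733533) (enc_scaleT 10632500 733533 (nNB2_6.enc h1 h2)))))) (enc_add (enc_subr 24921 50000 (enc_neg (enc_scaleT 1781 10000 (nNB2_6.enc h1 h2)))) (enc_mul h1 (enc_norm (enc_sub (enc_rat _ 41850000 59990999) (enc_scaleT 869700000 59990999 (nNB2_6.enc h1 h2))))))))))⟩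
noncomputable def nNB3_6 : Fn2 := ⟨_, _, fun h1 h2 => (enc_subr 309 320 h2)⟩
noncomputable def nNB3 : Fn2 := ⟨_, _, fun h1 h2 => (enc_norm (enc_mul (pNc0.enc h2) (enc_norm (enc_case (enc_sub (enc_rat _ 59990999 1000000000) h1) (enc_add (enc_subr 1033000 244511 (enc_neg (enc_scaleT 11122500 244511 (nNB3_6.enc h1 h2)))) (enc_mul (enc_norm (enc_subr 2509744537 12869000000 (enc_scaleT 595149 5147600000 (nNB3_6.enc h1 h2)))) (enc_inv h1))) (enc_subr 448470000 59990999 (enc_neg (enc_scaleT 2728800000 59990999 (nNB3_6.enc h1 h2))))))))⟩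
noncomputable def nNB4_6 : Fn2 := ⟨_, _, fun h1 h2 => (enc_subr 309 320 h2)⟩
noncomputable def nNB4 : Fn2 := ⟨_, _, fun h1 h2 => (enc_norm (enc_mul (pNc0.enc h2) (enc_norm (enc_case (enc_sub (enc_rat _ 59990999 1000000000) h1) (enc_add (enc_add (enc_scaleT 13896250 244511 (nNB4_6.enc h1 h2)) (enc_rat _ 680250 244511)) (enc_mul (enc_norm (enc_subr 11231031821 51476000000 (enc_neg (enc_scaleT 42618604297 10295200000 (nNB4_6.enc h1 h2))))) (enc_inv h1))) (enc_subr 51280000 59990999 (enc_neg (enc_scaleT 730200000 59990999 (nNB4_6.enc h1 h2))))))))⟩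
noncomputable def umo : Fn1 := ⟨_, _, fun h1 => (mog.enc h1)⟩
noncomputable def us1 : Fn1 := ⟨_, _, fun h1 => (enc_norm (enc_sub (enc_rat _ 33050 2603) (enc_scaleT 989000 2603 (enc_subr 309 320 h1))))⟩
noncomputable def us2 : Fn1 := ⟨_, _, fun h1 => (enc_rat _ 5567 400)⟩
noncomputable def us3 : Fn1 := ⟨_, _, fun h1 => (enc_norm (enc_sub (enc_rat _ 12411 1670) (enc_scaleT 115148 167 (enc_subr 309 320 h1))))⟩
noncomputable def uC11 : Fn2 := ⟨_, _, fun h1 h2 => (kc1q1.enc h1 h2)⟩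
noncomputable def uC01 : Fn2 := ⟨_, _, fun h1 h2 => (kc0q1.enc h1 h2)⟩
noncomputable def kNu1_0 : Fn1 := ⟨_, _, fun h1 => (enc_norm (enc_add (enc_scaleT 2919587942059969 24318111020000 (enc_subr 309 320 h1)) (enc_rat _ 6090510407507637 316135443260000)))⟩
noncomputable def kNu1_0g : Fn1 := ⟨_, _, fun h1 => (enc_pnc _ 0)⟩
noncomputable def l12N : List Knk := []
noncomputable def cvN1 : CvP := ⟨cFxs1, cNBs1, cFsX1⟩
noncomputable def cvN2 : CvP := ⟨cFxs2, cNBs2, cFsX2⟩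
noncomputable def ndN2 : NdU := ⟨nFsc2, nNB2, nFX2, nFD2⟩
noncomputable def ndN3 : NdU := ⟨nFsc3, nNB3, nFX3, nFD3⟩
noncomputable def ndN4 : NdU := ⟨nFsc4, nNB4, nFX4, nFD4⟩
noncomputable def pN : Pm := ⟨pFma, pFmb, pFmu, pFnx, pNc0, pNkc, pNjc, pNkc, pNjc, pNkc, pNjc, pFca, pFcb, pNcc, pNcc, pNcc, pFsv, l12N, l12N, l12N, laF, lbF, l1F, l2F, cvN1, pFx11, pFx01, pNK11, pNK01, pFL11, pFL01⟩
noncomputable def ul1 : List Knk := [⟨7809, 500000, kNu1_0, kNu1_0g⟩]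
noncomputable def ul2 : List Knk := []
noncomputable def ul3 : List Knk := []
noncomputable def qN : Pu := ⟨umo, us1, us2, us3, ul1, ul2, ul3, cFsDD1, uC11, uC01⟩

end Pool.Agent.Strip051.G.I9625_9688.Tab.DG
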