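import Pool.Agent.Strip051.G.I9625_9688.DgP

/-! # The corner (1, 1, 2): facts for the degenerate charts (generated) -/

set_option linter.all false

namespace Pool.Agent.Strip051.G.I9625_9688.Tab.DG

open Pool.Agent.Strip051.PB Pool.Agent.Strip051.PB.Dg Pool.Agent.StripNear Pool.Agent.Strip051.LC

theorem kcN {h x : ℝ} (r0 : 0 ≤ h) (r1 : h ≤ (87 / 2500)) :
    kcg.v (h - 1 / 2) x = -(((980746903 / 1000000000) + (1029498871 / 100000000) * (x - (309 / 320))) + ((28072405088027 / 1388200000000) + (-(9337451553 / 55000000)) * (x - (309 / 320))) * h + (((-(2799323 / 10000))) * h ^ 2 + (0))) := by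
  simp only [kcg_3, kcg_9, kcg_10, kcg_15, kcg_24, kcg_25, kcg_34, kcg_35, kcg_38, kcg_45, kcg_52, kcg_57, kcg_65, kcg_66, kcg_75, kcg_78, kcg_79, kcg_84, kcg_91, kcg_96, kcg_105, kcg_109, kcg_110, kcg_119, kcg_122, kcg_129, kcg_130, kcg_135, kcg_138, kcg_145, kcg_151, kcg_152, kcg_159, kcg_166, kcg_178, kcg_185, kcg_186, kcg_195, kcg_208, kcg]
  ((try push_cast); (repeat first | rw [if_pos (by linarith)] | rw [if_neg (by linarith)] | erw [if_pos (by linarith)] | erw [if_neg (by linarith)]))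
  ring1
theorem kcP {h x : ℝ} (r0 : 0 ≤ h) (r1 : h ≤ (87 / 2500)) :
    kcg.v (1 / 2 - h) x = ((980746903 / 1000000000) + (1029498871 / 100000000) * (x - (309 / 320))) + ((28072405088027 / 1388200000000) + (-(9337451553 / 55000000)) * (x - (309 / 320))) * h + (((-(2799323 / 10000))) * h ^ 2 + (0)) := by
  simp only [kcg_3, kcg_9, kcg_10, kcg_15, kcg_24, kcg_25, kcg_34, kcg_35, kcg_38, kcg_45, kcg_52, kcg_57, kcg_65, kcg_66, kcg_75, kcg_78, kcg_79, kcg_84, kcg_91, kcg_96, kcg_105, kcg_109, kcg_110, kcg_119, kcg_122, kcg_129, kcg_130, kcg_135, kcg_138, kcg_145, kcg_151, kcg_152, kcg_159, kcg_166, kcg_178, kcg_185, kcg_186, kcg_195, kcg_208, kcg]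
  ((try push_cast); (repeat first | rw [if_pos (by linarith)] | rw [if_neg (by linarith)] | erw [if_pos (by linarith)] | erw [if_neg (by linarith)]))
  ring1
theorem taG {p c h x : ℝ} (hp : p = h - 1 / 2) (r0 : 0 ≤ h) (r1 : h ≤ (87 / 2500)) :
    txg.v p c x = ((0)) + ((672449 / 5000000) + (122637 / 125000) * (x - (309 / 320))) * h + (((16187 / 2500) + (-(31558 / 125)) * (x - (309 / 320))) * h ^ 2 + (mx 1 80 h * (((-(1 / 115000000)) + (139 / 11500000) * (x - (309 / 320))) + mx 1 80 h * ((-(21931 / 2500)) + (29249 / 250) * (x - (309 / 320)))) + mx 3 125 h * (((158268443 / 49979000000000) + (-(1249240499 / 9995800000000)) * (x - (309 / 320))) + mx 3 125 h * ((-(5141 / 5000)) + (60613 / 200) * (x - (309 / 320)))))) := by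
  rw [hp]
  simp only [txg_4, txg_6, txg_26, txg_29, txg_32, txg_35, txg_50, txg_53, txg_54, txg_61, txg_75, txg_76, txg_96, txg_97, txg_106, txg_123, txg_124, txg_131, txg_146, txg_147, txg_166, txg_167, txg_177, txg_180, txg_193, txg_194, txg_201, txg_213, txg_214, txg_230, txg_239, txg_254, txg_255, txg_262, txg_274, txg_275, txg_289, txg_291, txg_292, txg_301, txg_302, txg_305, txg_315, txg_316, txg_321, txg_331, txg_349, txg_350, txg_357, txg_371, txg_372, txg_377, txg_391, txg_392, txg_412, txg_413, txg_421, txg_423, txg_437, txg_438, txg_443, txg_459, txg_460, txg_478, txg_479, txg_486, txg_503, txg_504, txg_509, txg_526, txg_527, txg_546, txg_557, txg_558, txg_569, txg_570, txg_596, txg_597, txg_602, txg_616, txg_617, txg_636, txg_637, txg]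
  rcases le_or_gt h ((1 / 80)) with c0 | c0
  · rw [mx_lo (a := 1) (b := 80) (h := h) (by push_cast; linarith), mx_lo (a := 3) (b := 125) (h := h) (by push_cast; linarith)]
    ((try push_cast); (repeat first | rw [if_pos (by linarith)] | rw [if_neg (by linarith)] | erw [if_pos (by linarith)] | erw [if_neg (by linarith)]))
    ring1
  · skip
    rcases le_or_gt h ((3 / 125)) with c1 | c1
    · rw [mx_hi (a := 1) (b := 80) (h := h) (by push_cast; linarith), mx_lo (a := 3) (b := 125) (h := h) (by push_cast; linarith)]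
      ((try push_cast); (repeat first | rw [if_pos (by linarith)] | rw [if_neg (by linarith)] | erw [if_pos (by linarith)] | erw [if_neg (by linarith)]))
      ring1
    · rw [mx_hi (a := 1) (b := 80) (h := h) (by push_cast; linarith), mx_hi (a := 3) (b := 125) (h := h) (by push_cast; linarith)]
      ((try push_cast); (repeat first | rw [if_pos (by linarith)] | rw [if_neg (by linarith)] | erw [if_pos (by linarith)] | erw [if_neg (by linarith)]))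
      ring1
theorem tbG {p c h x : ℝ} (hp : p = 1 / 2 - h) (r0 : 0 ≤ h) (r1 : h ≤ (87 / 2500)) :
    txg.v p c x = -(((0)) + ((-(3412599 / 4000000)) + (-(2062679 / 400000)) * (x - (309 / 320))) * h + (((-(6097 / 2000)) + (146619 / 1000) * (x - (309 / 320))) * h ^ 2 + (mx 1 80 h * (((-(17 / 115000000)) + (-(57 / 23000000)) * (x - (309 / 320))) + mx 1 80 h * ((11173 / 2500) + (-(37519 / 500)) * (x - (309 / 320)))) + mx 3 125 h * (((8253217041 / 7960090240000000) + (-(892355833 / 159201804800000)) * (x - (309 / 320)) + (232717 / 21630680000) * (x - (309 / 320)) ^ 2) + mx 3 125 h * ((2067 / 2500) + (-(7857 / 50)) * (x - (309 / 320)) + (-(82239 / 50)) * (x - (309 / 320)) ^ 2))))) := by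
  rw [hp]
  simp only [txg_4, txg_6, txg_26, txg_29, txg_32, txg_35, txg_50, txg_53, txg_54, txg_61, txg_75, txg_76, txg_96, txg_97, txg_106, txg_123, txg_124, txg_131, txg_146, txg_147, txg_166, txg_167, txg_177, txg_180, txg_193, txg_194, txg_201, txg_213, txg_214, txg_230, txg_239, txg_254, txg_255, txg_262, txg_274, txg_275, txg_289, txg_291, txg_292, txg_301, txg_302, txg_305, txg_315, txg_316, txg_321, txg_331, txg_349, txg_350, txg_357, txg_371, txg_372, txg_377, txg_391, txg_392, txg_412, txg_413, txg_421, txg_423, txg_437, txg_438, txg_443, txg_459, txg_460, txg_478, txg_479, txg_486, txg_503, txg_504, txg_509, txg_526, txg_527, txg_546, txg_557, txg_558, txg_569, txg_570, txg_596, txg_597, txg_602, txg_616, txg_617, txg_636, txg_637, txg]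
  rcases lt_or_ge h ((1 / 80)) with c0 | c0
  · rw [mx_lo (a := 1) (b := 80) (h := h) (by push_cast; linarith), mx_lo (a := 3) (b := 125) (h := h) (by push_cast; linarith)]
    ((try push_cast); (repeat first | rw [if_pos (by linarith)] | rw [if_neg (by linarith)] | erw [if_pos (by linarith)] | erw [if_neg (by linarith)]))
    ring1
  · skip
    rcases lt_or_ge h ((3 / 125)) with c1 | c1
    · rw [mx_hi (a := 1) (b := 80) (h := h) (by push_cast; linarith), mx_lo (a := 3) (b := 125) (h := h) (by push_cast; linarith)]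
      ((try push_cast); (repeat first | rw [if_pos (by linarith)] | rw [if_neg (by linarith)] | erw [if_pos (by linarith)] | erw [if_neg (by linarith)]))
      ring1
    · rw [mx_hi (a := 1) (b := 80) (h := h) (by push_cast; linarith), mx_hi (a := 3) (b := 125) (h := h) (by push_cast; linarith)]
      ((try push_cast); (repeat first | rw [if_pos (by linarith)] | rw [if_neg (by linarith)] | erw [if_pos (by linarith)] | erw [if_neg (by linarith)]))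
      ring1
theorem kc0q1_g {y h x : ℝ} (hh : c1n y = 2 * h - 1 + 3 / 2 * y) (r0 : 0 ≤ h) (r1 : h ≤ (87 / 2500)) :
    kc0q1.v y x = ((0)) + ((33050 / 2603) + (-(989000 / 2603)) * (x - (309 / 320))) * h + (((0)) * h ^ 2 + (mx 7809 500000 h * (((6090510407507637 / 316135443260000) + (2919587942059969 / 24318111020000) * (x - (309 / 320))) + mx 7809 500000 h * ((0))))) := by
  simp only [kc0q1_3, kc0q1_9, kc0q1_94, kc0q1_114, kc0q1_119, kc0q1_134, kc0q1, c1g_v, hh]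
  rcases lt_or_ge h ((7809 / 500000)) with c0 | c0
  · rw [mx_lo (a := 7809) (b := 500000) (h := h) (by push_cast; linarith)]
    ((try push_cast); (repeat first | rw [if_pos (by linarith)] | rw [if_neg (by linarith)] | erw [if_pos (by linarith)] | erw [if_neg (by linarith)]))
    ring1
  · rw [mx_hi (a := 7809) (b := 500000) (h := h) (by push_cast; linarith)]
    ((try push_cast); (repeat first | rw [if_pos (by linarith)] | rw [if_neg (by linarith)] | erw [if_pos (by linarith)] | erw [if_neg (by linarith)]))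
    ring1
theorem kcc02_g {h x : ℝ} (r0 : 0 ≤ h) (r1 : h ≤ (87 / 2500)) :
    kcc02.v (1 / 2 - h) x = -(((0)) + ((5567 / 400)) * h + (((0)) * h ^ 2 + (0))) := by
  simp only [kcc02_15, kcc02]
  ((try push_cast); (repeat first | rw [if_pos (by linarith)] | rw [if_neg (by linarith)] | erw [if_pos (by linarith)] | erw [if_neg (by linarith)]))
  ring1
theorem kcc53_g {Y t h x : ℝ} (hY : ycg.v t = Y) (hh : h = t / 2 + (2 - Y) / 4) (r0 : 0 ≤ h) (r1 : h ≤ (87 / 2500)) :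
    kcc53.v t x = ((0)) + ((12411 / 1670) + (-(115148 / 167)) * (x - (309 / 320))) * h + (((0)) * h ^ 2 + (0)) := by
  simp only [kcc53_4, kcc53_9, kcc53_28, kcc53_33, kcc53, hY]
  rw [show t = 2 * h - (2 - Y) / 2 by linarith]
  ((try push_cast); (repeat first | rw [if_pos (by linarith)] | rw [if_neg (by linarith)] | erw [if_pos (by linarith)] | erw [if_neg (by linarith)]))
  ring1
theorem kf0q1_g {y h x : ℝ} (hh : h = 1 / 2 - (3 / 4 * y - c1n y / 2)) :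
    kf0q1.v y x = (1 / 2 + c1n y) * (1 / 2 - h) / (1 - h) + (y - 1) * kcg.v (1 / 2 - h) x := by
  have ea : 3 / 4 * y - c1n y / 2 = 1 / 2 - h := by linarith
  have eb : c1n y = 2 * h - 1 + 3 / 2 * y := by linarith
  simp only [kf0q1_10, kf0q1, c1g_v]
  push_cast
  rw [ea, eb]
  have e2 : (2 * (1 + 3 / 2 * y - (2 * h - 1 + 3 / 2 * y)))⁻¹ = (1 - h)⁻¹ / 4 := by
    rw [show 2 * (1 + 3 / 2 * y - (2 * h - 1 + 3 / 2 * y)) = (1 - h) * 4 by ring, mul_inv]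
    ring
  rw [e2]
  ring
theorem l0q1_g {y h x : ℝ} (hh : h = 1 / 2 - (3 / 4 * y - c1n y / 2)) (r0 : 0 ≤ h) (r1 : h ≤ (87 / 2500)) :
    l0q1.v y x = -(((0)) + ((-(3412599 / 4000000)) + (-(2062679 / 400000)) * (x - (309 / 320))) * h + (((-(6097 / 2000)) + (146619 / 1000) * (x - (309 / 320))) * h ^ 2 + (mx 1 80 h * (((-(17 / 115000000)) + (-(57 / 23000000)) * (x - (309 / 320))) + mx 1 80 h * ((11173 / 2500) + (-(37519 / 500)) * (x - (309 / 320)))) + mx 3 125 h * (((8253217041 / 7960090240000000) + (-(892355833 / 159201804800000)) * (x - (309 / 320)) + (232717 / 21630680000) * (x - (309 / 320)) ^ 2) + mx 3 125 h * ((2067 / 2500) + (-(7857 / 50)) * (x - (309 / 320)) + (-(82239 / 50)) * (x - (309 / 320)) ^ 2))))) := by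
  have e1 : ∀ c, txg.v (3 / 4 * y - c1n y / 2) c x = -(((0)) + ((-(3412599 / 4000000)) + (-(2062679 / 400000)) * (x - (309 / 320))) * h + (((-(6097 / 2000)) + (146619 / 1000) * (x - (309 / 320))) * h ^ 2 + (mx 1 80 h * (((-(17 / 115000000)) + (-(57 / 23000000)) * (x - (309 / 320))) + mx 1 80 h * ((11173 / 2500) + (-(37519 / 500)) * (x - (309 / 320)))) + mx 3 125 h * (((8253217041 / 7960090240000000) + (-(892355833 / 159201804800000)) * (x - (309 / 320)) + (232717 / 21630680000) * (x - (309 / 320)) ^ 2) + mx 3 125 h * ((2067 / 2500) + (-(7857 / 50)) * (x - (309 / 320)) + (-(82239 / 50)) * (x - (309 / 320)) ^ 2))))) := fun c => tbG (by linarith) r0 r1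
  simp only [l0q1, c1g_v]
  push_cast
  rw [e1]
theorem kfc02_g {h x : ℝ} : kfc02.v (1 / 2 - h) x = 1 / 2 - h + (yag.v (1 / 2 - h) - 1) * kcg.v (h - 1 / 2) x := by
  have ea : -(1 / 2 - h) = h - 1 / 2 := by ring
  simp only [kfc02]
  push_cast
  rw [ea]
theorem lc02_g {h x : ℝ} (r0 : 0 ≤ h) (r1 : h ≤ (87 / 2500)) : lc02.v (1 / 2 - h) x = (((0)) + ((672449 / 5000000) + (122637 / 125000) * (x - (309 / 320))) * h + (((16187 / 2500) + (-(31558 / 125)) * (x - (309 / 320))) * h ^ 2 + (mx 1 80 h * (((-(1 / 115000000)) + (139 / 11500000) * (x - (309 / 320))) + mx 1 80 h * ((-(21931 / 2500)) + (29249 / 250) * (x - (309 / 320)))) + mx 3 125 h * (((158268443 / 49979000000000) + (-(1249240499 / 9995800000000)) * (x - (309 / 320))) + mx 3 125 h * ((-(5141 / 5000)) + (60613 / 200) * (x - (309 / 320))))))) + (((0)) + ((-(3412599 / 4000000)) + (-(2062679 / 400000)) * (x - (309 / 320))) * h + (((-(6097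 / 2000)) + (146619 / 1000) * (x - (309 / 320))) * h ^ 2 + (mx 1 80 h * (((-(17 / 115000000)) + (-(57 / 23000000)) * (x - (309 / 320))) + mx 1 80 h * ((11173 / 2500) + (-(37519 / 500)) * (x - (309 / 320)))) + mx 3 125 h * (((8253217041 / 7960090240000000) + (-(892355833 / 159201804800000)) * (x - (309 / 320)) + (232717 / 21630680000) * (x - (309 / 320)) ^ 2) + mx 3 125 h * ((2067 / 2500) + (-(7857 / 50)) * (x - (309 / 320)) + (-(82239 / 50)) * (x - (309 / 320)) ^ 2))))) := by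
  have e1 : ∀ c, txg.v (-(1 / 2 - h)) c x = ((0)) + ((672449 / 5000000) + (122637 / 125000) * (x - (309 / 320))) * h + (((16187 / 2500) + (-(31558 / 125)) * (x - (309 / 320))) * h ^ 2 + (mx 1 80 h * (((-(1 / 115000000)) + (139 / 11500000) * (x - (309 / 320))) + mx 1 80 h * ((-(21931 / 2500)) + (29249 / 250) * (x - (309 / 320)))) + mx 3 125 h * (((158268443 / 49979000000000) + (-(1249240499 / 9995800000000)) * (x - (309 / 320))) + mx 3 125 h * ((-(5141 / 5000)) + (60613 / 200) * (x - (309 / 320)))))) := fun c => taG (by ring) r0 r1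
  have e2 : ∀ c, txg.v (1 / 2 - h) c x = -(((0)) + ((-(3412599 / 4000000)) + (-(2062679 / 400000)) * (x - (309 / 320))) * h + (((-(6097 / 2000)) + (146619 / 1000) * (x - (309 / 320))) * h ^ 2 + (mx 1 80 h * (((-(17 / 115000000)) + (-(57 / 23000000)) * (x - (309 / 320))) + mx 1 80 h * ((11173 / 2500) + (-(37519 / 500)) * (x - (309 / 320)))) + mx 3 125 h * (((8253217041 / 7960090240000000) + (-(892355833 / 159201804800000)) * (x - (309 / 320)) + (232717 / 21630680000) * (x - (309 / 320)) ^ 2) + mx 3 125 h * ((2067 / 2500) + (-(7857 / 50)) * (x - (309 / 320)) + (-(82239 / 50)) * (x - (309 / 320)) ^ 2))))) := fun c => tbG rfl r0 r1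
  simp only [lc02_7, lc02_8, lc02]
  push_cast
  rw [e1, e2]
  ring
theorem kfc53_g {Y t h x : ℝ} (hY : ycg.v t = Y) (hh : h = t / 2 + (2 - Y) / 4) :
    kfc53.v t x = (Y - 2 * t) * (t + 3 - 3 / 2 * Y) / (4 * (Y - 1)) + (Y - 2) * kcg.v (1 / 2 - h) x := by
  have ea : 1 / 4 * Y - t / 2 = 1 / 2 - h := by linarith
  simp only [kfc53, hY]
  push_cast
  rw [ea]
  ring
theorem lc53_g {Y t h x : ℝ} (hY : ycg.v t = Y) (hh : h = t / 2 + (2 - Y) / 4) (r0 : 0 ≤ h) (r1 : h ≤ (87 / 2500)) :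
    lc53.v t x = -(2 * (((0)) + ((-(3412599 / 4000000)) + (-(2062679 / 400000)) * (x - (309 / 320))) * h + (((-(6097 / 2000)) + (146619 / 1000) * (x - (309 / 320))) * h ^ 2 + (mx 1 80 h * (((-(17 / 115000000)) + (-(57 / 23000000)) * (x - (309 / 320))) + mx 1 80 h * ((11173 / 2500) + (-(37519 / 500)) * (x - (309 / 320)))) + mx 3 125 h * (((8253217041 / 7960090240000000) + (-(892355833 / 159201804800000)) * (x - (309 / 320)) + (232717 / 21630680000) * (x - (309 / 320)) ^ 2) + mx 3 125 h * ((2067 / 2500) + (-(7857 / 50)) * (x - (309 / 320)) + (-(82239 / 50)) * (x - (309 / 320)) ^ 2))))) + (((0)) + ((672449 / 5000000) + (122637 / 125000) * (x - (309 / 320))) * h + (((16187 / 2500) + (-(31558 / 125)) * (x - (309 / 320))) * h ^ 2 + (mx 1 80 h * (((-(1 / 115000000)) + (139 / 11500000) * (x - (309 / 320))) + mx 1 80 h * ((-(21931 / 2500)) + (29249 / 250) * (x - (309 / 320)))) + mx 3 125 h * (((158268443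 / 49979000000000) + (-(1249240499 / 9995800000000)) * (x - (309 / 320))) + mx 3 125 h * ((-(5141 / 5000)) + (60613 / 200) * (x - (309 / 320)))))))) := by
  have e1 : ∀ c, txg.v (1 / 4 * Y - t / 2) c x = -(((0)) + ((-(3412599 / 4000000)) + (-(2062679 / 400000)) * (x - (309 / 320))) * h + (((-(6097 / 2000)) + (146619 / 1000) * (x - (309 / 320))) * h ^ 2 + (mx 1 80 h * (((-(17 / 115000000)) + (-(57 / 23000000)) * (x - (309 / 320))) + mx 1 80 h * ((11173 / 2500) + (-(37519 / 500)) * (x - (309 / 320)))) + mx 3 125 h * (((8253217041 / 7960090240000000) + (-(892355833 / 159201804800000)) * (x - (309 / 320)) + (232717 / 21630680000) * (x - (309 / 320)) ^ 2) + mx 3 125 h * ((2067 / 2500) + (-(7857 / 50)) * (x - (309 / 320)) + (-(82239 / 50)) * (x - (309 / 320)) ^ 2))))) := fun c => tbG (by linarith) r0 r1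
  have e2 : ∀ c, txg.v (t / 2 - 1 / 4 * Y) c x = ((0)) + ((672449 / 5000000) + (122637 / 125000) * (x - (309 / 320))) * h + (((16187 / 2500) + (-(31558 / 125)) * (x - (309 / 320))) * h ^ 2 + (mx 1 80 h * (((-(1 / 115000000)) + (139 / 11500000) * (x - (309 / 320))) + mx 1 80 h * ((-(21931 / 2500)) + (29249 / 250) * (x - (309 / 320)))) + mx 3 125 h * (((158268443 / 49979000000000) + (-(1249240499 / 9995800000000)) * (x - (309 / 320))) + mx 3 125 h * ((-(5141 / 5000)) + (60613 / 200) * (x - (309 / 320)))))) := fun c => taG (by linarith) r0 r1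
  simp only [lc53_7, lc53_8, lc53_9, lc53_12, lc53_14, lc53, hY]
  push_cast
  rw [e1, e2]
  ring
theorem hD : ((20971520 : ℕ) : ℝ) / S ≤ 1 / 16 := by
  rw [S_one]
  norm_num
theorem hD3 : ((1572864 : ℕ) : ℝ) / S ≤ 1 / 64 := by
  rw [S_one]
  norm_num
theorem hDH : 7 / 4 * (((20971520 : ℕ) : ℝ) / S) ≤ (87 / 2500) := by
  rw [S_one]
  norm_num
theorem hD3H : ((1572864 : ℕ) : ℝ) / S * (3 / 4 + (87 / 2500) / 2) ≤ (87 / 2500) ^ 2 := by
  rw [S_one]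
  norm_num
theorem r16 {y : ℝ} (h : |y - 1| < ((20971520 : ℕ) : ℝ) / S) : y ≤ 17 / 16 := by
  have := (abs_lt.1 h).2
  linarith [hD]
theorem xr {x : ℝ} (hx : ((1033476505 : ℕ) : ℝ) / S ≤ x) (hx' : x ≤ (((1033476505 : ℕ) : ℝ) + (6710887 : ℕ)) / S) : 0 < x ∧ x < 1 := by
  rw [S_one] at hx hx'
  norm_num at hx hx'
  constructor <;> linarith
theorem kf2q3_g {Y x : ℝ} (h2 : (4093 / 2048) < Y) (h3 : Y ≤ 2) (h5 : c3g.v Y < (59990999 / 1000000000)) : kf2q3.v Y x = cv2r.v Y * (((-(24921 / 50000)) + (-(1781 / 10000)) * (x - (309 / 320))) + c3g.v Y * ((41850000 / 59990999) + (-(869700000 / 59990999)) * (x - (309 / 320)))) := by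
  have h4 : c3g.v Y ≤ 1 / 14 := by
    rw [c3g_v, c3n]
    exact Real.sqrt_le_iff.2 ⟨by norm_num, by nlinarith⟩
  simp only [kf2q3_4, kf2q3_43, kf2q3, bf2q3_3, bf2q3_42, bf2q3]
  ((try push_cast); (repeat first | rw [if_pos (by linarith)] | rw [if_neg (by linarith)] | erw [if_pos (by linarith)] | erw [if_neg (by linarith)]))
  ring1
theorem kf2q3_h {Y x : ℝ} (h2 : (4093 / 2048) < Y) (h3 : Y ≤ 2) (h5 : (59990999 / 1000000000) ≤ c3g.v Y) : kf2q3.v Y x = cv2r.v Y * (((-(153937708073 / 308856000000)) + (-(2752454327 / 15442800000)) * (x - (309 / 320))) + c3g.v Y * ((511625 / 733533) + (-(10632500 / 733533)) * (x - (309 / 320)))) := by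
  have h4 : c3g.v Y ≤ 1 / 14 := by
    rw [c3g_v, c3n]
    exact Real.sqrt_le_iff.2 ⟨by norm_num, by nlinarith⟩
  simp only [kf2q3_4, kf2q3_43, kf2q3, bf2q3_3, bf2q3_42, bf2q3]
  ((try push_cast); (repeat first | rw [if_pos (by linarith)] | rw [if_neg (by linarith)] | erw [if_pos (by linarith)] | erw [if_neg (by linarith)]))
  ring1
theorem l2q3_g {Y x : ℝ} (h2 : (4093 / 2048) < Y) (h3 : Y ≤ 2) (h5 : c3g.v Y < (59990999 / 1000000000)) : l2q3.v Y x = cv2r.v Y * (((5611 / 6250) + (55009 / 10000) * (x - (309 / 320))) + c3g.v Y * ((15950000 / 59990999) + (-(1104200000 / 59990999)) * (x - (309 / 320)))) := by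
  have h4 : c3g.v Y ≤ 1 / 14 := by
    rw [c3g_v, c3n]
    exact Real.sqrt_le_iff.2 ⟨by norm_num, by nlinarith⟩
  simp only [l2q3_4, l2q3, bx2q3_3, bx2q3]
  ((try push_cast); (repeat first | rw [if_pos (by linarith)] | rw [if_neg (by linarith)] | erw [if_pos (by linarith)] | erw [if_neg (by linarith)]))
  ring1
theorem l2q3_h {Y x : ℝ} (h2 : (4093 / 2048) < Y) (h3 : Y ≤ 2) (h5 : (59990999 / 1000000000) ≤ c3g.v Y) : l2q3.v Y x = cv2r.v Y * (((92426413 / 102952000) + (169898021741 / 30885600000) * (x - (309 / 320))) + c3g.v Y * ((65000 / 244511) + (-(13501250 / 733533)) * (x - (309 / 320)))) := by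
  have h4 : c3g.v Y ≤ 1 / 14 := by
    rw [c3g_v, c3n]
    exact Real.sqrt_le_iff.2 ⟨by norm_num, by nlinarith⟩
  simp only [l2q3_4, l2q3, bx2q3_3, bx2q3]
  ((try push_cast); (repeat first | rw [if_pos (by linarith)] | rw [if_neg (by linarith)] | erw [if_pos (by linarith)] | erw [if_neg (by linarith)]))
  ring1
theorem kc2q3_g {Y x : ℝ} (h2 : (4093 / 2048) < Y) (h3 : Y ≤ 2) : kc2q3.v Y x = cv2r.v Y * (((1757 / 5000) + (-(182971 / 1000)) * (x - (309 / 320))) + c3g.v Y * ((15553650000 / 133760981) + (5381500000 / 7868293) * (x - (309 / 320)))) := by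
  have h4 : c3g.v Y ≤ 1 / 14 := by
    rw [c3g_v, c3n]
    exact Real.sqrt_le_iff.2 ⟨by norm_num, by nlinarith⟩
  simp only [kc2q3, bd2q3]
  ((try push_cast); (repeat first | rw [if_pos (by linarith)] | rw [if_neg (by linarith)] | erw [if_pos (by linarith)] | erw [if_neg (by linarith)]))
  ring1
theorem kfc33_g {Y t x : ℝ} (hY : ycg.v t = Y) (h2 : (4093 / 2048) < Y) (h3 : Y ≤ 2) (h4 : t ≤ 1 / 14) (h5 : t < (59990999 / 1000000000)) : kfc33.v t x = ((1899 / 2000) * (swg.v Y - 1 / 2) + (101 / 2000) * t) * (((1 / 2)) + t * ((-(448470000 / 59990999)) + (-(2728800000 / 59990999)) * (x - (309 / 320)))) := by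
  simp only [kfc33_6, kfc33_9, kfc33_11, kfc33_13, kfc33_25, kfc33_50, kfc33_52, kfc33_76, kfc33_100, kfc33_101, kfc33_102, kfc33_103, kfc33_105, kfc33_106, kfc33_108, kfc33_115, kfc33_121, kfc33_146, kfc33_155, kfc33_165, kfc33_220, kfc33, hY]
  ((try push_cast); (repeat first | rw [if_pos (by linarith)] | rw [if_neg (by linarith)] | erw [if_pos (by linarith)] | erw [if_neg (by linarith)]))
  ring1
theorem kfc33_h {Y t x : ℝ} (hY : ycg.v t = Y) (h2 : (4093 / 2048) < Y) (h3 : Y ≤ 2) (h4 : t ≤ 1 / 14) (h5 : (59990999 / 1000000000) ≤ t) : kfc33.v t x = ((1899 / 2000) * (swg.v Y - 1 / 2) + (101 / 2000) * t) * (((3924755463 / 12869000000) + (595149 / 5147600000) * (x - (309 / 320))) + t * ((-(1033000 / 244511)) + (-(11122500 / 244511)) * (x - (309 / 320)))) := by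
  simp only [kfc33_6, kfc33_9, kfc33_11, kfc33_13, kfc33_25, kfc33_50, kfc33_52, kfc33_76, kfc33_100, kfc33_101, kfc33_102, kfc33_103, kfc33_105, kfc33_106, kfc33_108, kfc33_115, kfc33_121, kfc33_146, kfc33_155, kfc33_165, kfc33_220, kfc33, hY]
  ((try push_cast); (repeat first | rw [if_pos (by linarith)] | rw [if_neg (by linarith)] | erw [if_pos (by linarith)] | erw [if_neg (by linarith)]))
  ring1
theorem lc33_g {Y t x : ℝ} (hY : ycg.v t = Y) (h2 : (4093 / 2048) < Y) (h3 : Y ≤ 2) (h4 : t ≤ 1 / 14) (h5 : t < (59990999 / 1000000000)) : lc33.v t x = ((1899 / 2000) * (swg.v Y - 1 / 2) + (101 / 2000) * t) * (((15718097 / 20000000) + (9332299 / 2000000) * (x - (309 / 320))) + t * ((50605150 / 59990999) + (-(621449500 / 59990999)) * (x - (309 / 320)))) := by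
  simp only [lc33_6, lc33_9, lc33_11, lc33_13, lc33_25, lc33_50, lc33_57, lc33_59, lc33_86, lc33_109, lc33_122, lc33_147, lc33_171, lc33_223, lc33, hY]
  ((try push_cast); (repeat first | rw [if_pos (by linarith)] | rw [if_neg (by linarith)] | erw [if_pos (by linarith)] | erw [if_neg (by linarith)]))
  ring1
theorem lc33_h {Y t x : ℝ} (hY : ycg.v t = Y) (h2 : (4093 / 2048) < Y) (h3 : Y ≤ 2) (h4 : t ≤ 1 / 14) (h5 : (59990999 / 1000000000) ≤ t) : lc33.v t x = ((1899 / 2000) * (swg.v Y - 1 / 2) + (101 / 2000) * t) * (((49326262709 / 61771200000) + (328140773 / 64345000) * (x - (309 / 320))) + t * ((464375 / 733533) + (-(4300000 / 244511)) * (x - (309 / 320)))) := by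
  simp only [lc33_6, lc33_9, lc33_11, lc33_13, lc33_25, lc33_50, lc33_57, lc33_59, lc33_86, lc33_109, lc33_122, lc33_147, lc33_171, lc33_223, lc33, hY]
  ((try push_cast); (repeat first | rw [if_pos (by linarith)] | rw [if_neg (by linarith)] | erw [if_pos (by linarith)] | erw [if_neg (by linarith)]))
  ring1
theorem kcc33_g {Y t x : ℝ} (hY : ycg.v t = Y) (h2 : (4093 / 2048) < Y) (h3 : Y ≤ 2) (h4 : t ≤ 1 / 14) : kcc33.v t x = ((1899 / 2000) * (swg.v Y - 1 / 2) + (101 / 2000) * t) * (((12411 / 3340) + (-(57574 / 167)) * (x - (309 / 320))) + t * ((24295599658607 / 446761676540) + (7041523307405 / 22338083827) * (x - (309 / 320)))) := by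
  simp only [kcc33_6, kcc33_9, kcc33_11, kcc33_34, kcc33_35, kcc33_39, kcc33_44, kcc33_46, kcc33_47, kcc33_73, kcc33_75, kcc33_81, kcc33_97, kcc33, hY]
  ((try push_cast); (repeat first | rw [if_pos (by linarith)] | rw [if_neg (by linarith)] | erw [if_pos (by linarith)] | erw [if_neg (by linarith)]))
  ring1
theorem kfc43_g {Y t x : ℝ} (hY : ycg.v t = Y) (h2 : (4093 / 2048) < Y) (h3 : Y ≤ 2) (h4 : t ≤ 1 / 14) (h5 : t < (59990999 / 1000000000)) : kfc43.v t x = ((3 / 10) * (swg.v Y - 1 / 2) + (7 / 10) * t) * (((1 / 2)) + t * ((-(51280000 / 59990999)) + (-(730200000 / 59990999)) * (x - (309 / 320)))) := by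
  simp only [kfc43_11, kfc43_41, kfc43_59, kfc43, hY]
  ((try push_cast); (repeat first | rw [if_pos (by linarith)] | rw [if_neg (by linarith)] | erw [if_pos (by linarith)] | erw [if_neg (by linarith)]))
  ring1
theorem kfc43_h {Y t x : ℝ} (hY : ycg.v t = Y) (h2 : (4093 / 2048) < Y) (h3 : Y ≤ 2) (h4 : t ≤ 1 / 14) (h5 : (59990999 / 1000000000) ≤ t) : kfc43.v t x = ((3 / 10) * (swg.v Y - 1 / 2) + (7 / 10) * t) * (((14506968179 / 51476000000) + (-(42618604297 / 10295200000)) * (x - (309 / 320))) + t * ((680250 / 244511) + (13896250 / 244511) * (x - (309 / 320)))) := by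
  simp only [kfc43_11, kfc43_41, kfc43_59, kfc43, hY]
  ((try push_cast); (repeat first | rw [if_pos (by linarith)] | rw [if_neg (by linarith)] | erw [if_pos (by linarith)] | erw [if_neg (by linarith)]))
  ring1
theorem lc43_g {Y t x : ℝ} (hY : ycg.v t = Y) (h2 : (4093 / 2048) < Y) (h3 : Y ≤ 2) (h4 : t ≤ 1 / 14) (h5 : t < (59990999 / 1000000000)) : lc43.v t x = ((3 / 10) * (swg.v Y - 1 / 2) + (7 / 10) * t) * (((15718097 / 20000000) + (9332299 / 2000000) * (x - (309 / 320))) + t * ((4235150 / 59990999) + (-(446549500 / 59990999)) * (x - (309 / 320)))) := by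
  simp only [lc43_11, lc43, hY]
  ((try push_cast); (repeat first | rw [if_pos (by linarith)] | rw [if_neg (by linarith)] | erw [if_pos (by linarith)] | erw [if_neg (by linarith)]))
  ring1
theorem lc43_h {Y t x : ℝ} (hY : ycg.v t = Y) (h2 : (4093 / 2048) < Y) (h3 : Y ≤ 2) (h4 : t ≤ 1 / 14) (h5 : (59990999 / 1000000000) ≤ t) : lc43.v t x = ((3 / 10) * (swg.v Y - 1 / 2) + (7 / 10) * t) * (((40493273643 / 51476000000) + (40849383279 / 10295200000) * (x - (309 / 320))) + t * ((750 / 12869) + (1026250 / 244511) * (x - (309 / 320)))) := by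
  simp only [lc43_11, lc43, hY]
  ((try push_cast); (repeat first | rw [if_pos (by linarith)] | rw [if_neg (by linarith)] | erw [if_pos (by linarith)] | erw [if_neg (by linarith)]))
  ring1
theorem kcc43_g {Y t x : ℝ} (hY : ycg.v t = Y) (h2 : (4093 / 2048) < Y) (h3 : Y ≤ 2) (h4 : t ≤ 1 / 14) : kcc43.v t x = ((3 / 10) * (swg.v Y - 1 / 2) + (7 / 10) * t) * (((12411 / 3340) + (-(57574 / 167)) * (x - (309 / 320))) + t * ((764762450000 / 22338083827) + (28787000000000 / 22338083827) * (x - (309 / 320)))) := by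
  simp only [kcc43, hY]
  ((try push_cast); (repeat first | rw [if_pos (by linarith)] | rw [if_neg (by linarith)] | erw [if_pos (by linarith)] | erw [if_neg (by linarith)]))
  ring1
theorem tabF {x : ℝ} : TabOk tK tL pF 20971520 x := by
  refine ⟨?_, ?_, ?_, ?_⟩
  · intro y h hq hd hh
    obtain ⟨r0, r1⟩ := h1_rng hq hd hD hDH hh
    have o : OnC (0 : Fin 6) 1 y := ⟨hq, fun _ => on_h (by linarith [hq.2]) (by linarith [hq.1])⟩
    rw [← (atB01 o).K]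
    show kf0q1.v y x = _
    rw [kf0q1_g hh, kcP r0 r1]
    simp only [pFma, pFmb, pFmu, pFnx, pFc0, pFkc, pFjc, pFca, pFcb, pFcc, pFsv, pFx11, pFx01, pFK11, pFK01, pFL11, pFL01, kFa0, kFa0g, kFa1, kFa1g, kFb0, kFb0g, kFb1_2, kFb1, kFb1g_2, kFb1g, kFd0, kFd0g, kFd1_2, kFd1, kFd1g_2, kFd1g, kFe0, kFe0g, kFe1_2, kFe1, kFe1g_2, kFe1g, cFxs1, cFsB1, cFBs1, cFsX1, cFsD1, cFsDD1, cFxs2, cFsB2, cFBs2, cFsX2, cFsD2, cFsDD2, nFsc2, nFB2_5, nFB2, nFX2_5, nFX2, nFD2_3, nFD2, nFsc3, nFB3_5, nFB3, nFX3_5, nFX3, nFD3, nFsc4, nFB4_5, nFB4, nFX4_5, nFX4, nFD4, l12F, laF, lbF, l1F, l2F, cvF1, cvF2, ndF2, ndF3, ndF4, pF, pNc0, pNkc, pNjc, pNcc, pNK11, pNK01, cNBs1, cNBs2, nNB2_6, nNB2, nNB3_6, nNB3, nNB4_6, nNB4, umo, us1, us2, us3, uC11, uC01, kNu1_0, kNu1_0g, l12N, cvN1, cvN2, ndN2, ndN3, ndN4, pN, ul1, ul2, ul3, qN, pf_cons, pf_nil]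
    push_cast
    ring
  · intro y h hq hd hh
    obtain ⟨r0, r1⟩ := h1_rng hq hd hD hDH hh
    have o : OnC (0 : Fin 6) 1 y := ⟨hq, fun _ => on_h (by linarith [hq.2]) (by linarith [hq.1])⟩
    rw [← (atB01 o).L]
    show l0q1.v y x = _
    rw [l0q1_g hh r0 r1]
    simp only [pFma, pFmb, pFmu, pFnx, pFc0, pFkc, pFjc, pFca, pFcb, pFcc, pFsv, pFx11, pFx01, pFK11, pFK01, pFL11, pFL01, kFa0, kFa0g, kFa1, kFa1g, kFb0, kFb0g, kFb1_2, kFb1, kFb1g_2, kFb1g, kFd0, kFd0g, kFd1_2, kFd1, kFd1g_2, kFd1g, kFe0, kFe0g, kFe1_2, kFe1, kFe1g_2, kFe1g, cFxs1, cFsB1, cFBs1, cFsX1, cFsD1, cFsDD1, cFxs2, cFsB2, cFBs2, cFsX2, cFsD2, cFsDD2, nFsc2, nFB2_5, nFB2, nFX2_5, nFX2, nFD2_3, nFD2, nFsc3, nFB3_5, nFB3, nFX3_5, nFX3, nFD3, nFsc4, nFB4_5, nFB4, nFX4_5, nFX4, nFD4, l12F, laF, lbF, l1F, l2F, cvF1, cvF2, ndF2, ndF3, ndF4, pF, pNc0, pNkc, pNjc, pNcc, pNK11, pNK01, cNBs1, cNBs2, nNB2_6, nNB2, nNB3_6, nNB3,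 nNB4_6, nNB4, umo, us1, us2, us3, uC11, uC01, kNu1_0, kNu1_0g, l12N, cvN1, cvN2, ndN2, ndN3, ndN4, pN, ul1, ul2, ul3, qN, pf_cons, pf_nil]
    push_cast
    ring
  · intro y h hq hd hh
    obtain ⟨r0, r1⟩ := h2_rng hq hd hD hDH hh
    have hy := on_h (r16 hd) (by linarith [hq.1])
    have o : OnC (0 : Fin 6) 2 y := ⟨hq, fun _ => hy⟩
    have hc : c1n y = 1 / 2 - h := by linarith
    have ya := yag_v (y := y) (by linarith [hq.1]) hy
    rw [hc] at ya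
    rw [← (atB02 o).K, hc]
    show kfc02.v (1 / 2 - h) x = _
    rw [kfc02_g, kcN r0 r1, ya]
    simp only [pFma, pFmb, pFmu, pFnx, pFc0, pFkc, pFjc, pFca, pFcb, pFcc, pFsv, pFx11, pFx01, pFK11, pFK01, pFL11, pFL01, kFa0, kFa0g, kFa1, kFa1g, kFb0, kFb0g, kFb1_2, kFb1, kFb1g_2, kFb1g, kFd0, kFd0g, kFd1_2, kFd1, kFd1g_2, kFd1g, kFe0, kFe0g, kFe1_2, kFe1, kFe1g_2, kFe1g, cFxs1, cFsB1, cFBs1, cFsX1, cFsD1, cFsDD1, cFxs2, cFsB2, cFBs2, cFsX2, cFsD2, cFsDD2, nFsc2, nFB2_5, nFB2, nFX2_5, nFX2, nFD2_3, nFD2, nFsc3, nFB3_5, nFB3, nFX3_5, nFX3, nFD3, nFsc4, nFB4_5, nFB4, nFX4_5, nFX4, nFD4, l12F, laF, lbF, l1F, l2F, cvF1, cvF2, ndF2, ndF3, ndF4, pF, pNc0, pNkc, pNjc, pNcc, pNK11, pNK01, cNBs1, cNBs2, nNB2_6, nNB2, nNB3_6, nNB3, nNB4_6, nNB4, umo, us1, us2, us3, uC11, uC01, kNu1_0, kNu1_0g, l12N, cvN1, cvN2, ndN2, ndN3, ndN4, pN, ul1, ul2, ul3, qN, pf_cons, pf_nil]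
    push_cast
    ring
  · intro y h hq hd hh
    obtain ⟨r0, r1⟩ := h2_rng hq hd hD hDH hh
    have hy := on_h (r16 hd) (by linarith [hq.1])
    have o : OnC (0 : Fin 6) 2 y := ⟨hq, fun _ => hy⟩
    have hc : c1n y = 1 / 2 - h := by linarith
    rw [← (atB02 o).L, hc]
    show lc02.v (1 / 2 - h) x = _
    rw [lc02_g r0 r1]
    simp only [pFma, pFmb, pFmu, pFnx, pFc0, pFkc, pFjc, pFca, pFcb, pFcc, pFsv, pFx11, pFx01, pFK11, pFK01, pFL11, pFL01, kFa0, kFa0g, kFa1, kFa1g, kFb0, kFb0g, kFb1_2, kFb1, kFb1g_2, kFb1g, kFd0, kFd0g, kFd1_2, kFd1, kFd1g_2, kFd1g, kFe0, kFe0g, kFe1_2, kFe1, kFe1g_2, kFe1g, cFxs1, cFsB1, cFBs1, cFsX1, cFsD1, cFsDD1, cFxs2, cFsB2, cFBs2, cFsX2, cFsD2, cFsDD2, nFsc2, nFB2_5, nFB2, nFX2_5, nFX2, nFD2_3, nFD2, nFsc3, nFB3_5, nFB3, nFX3_5, nFX3, nFD3, nFsc4, nFB4_5, nFB4, nFX4_5, nFX4, nFD4, l12F, laF, lbF, l1F, l2F, cvF1, cvF2, ndF2, ndF3, ndF4, pF, pNc0, pNkc, pNjc,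 pNcc, pNK11, pNK01, cNBs1, cNBs2, nNB2_6, nNB2, nNB3_6, nNB3, nNB4_6, nNB4, umo, us1, us2, us3, uC11, uC01, kNu1_0, kNu1_0g, l12N, cvN1, cvN2, ndN2, ndN3, ndN4, pN, ul1, ul2, ul3, qN, pf_cons, pf_nil]
    push_cast
    ring
theorem fitF {x : ℝ} : pF.Fit true 3 x := by
  refine ⟨fun h => absurd h (by decide), ?_, fun h => rfl⟩
  simp only [pFma, pFmb, pFmu, pFnx, pFc0, pFkc, pFjc, pFca, pFcb, pFcc, pFsv, pFx11, pFx01, pFK11, pFK01, pFL11, pFL01, kFa0, kFa0g, kFa1, kFa1g, kFb0, kFb0g, kFb1_2, kFb1, kFb1g_2, kFb1g, kFd0, kFd0g, kFd1_2, kFd1, kFd1g_2, kFd1g, kFe0, kFe0g, kFe1_2, kFe1, kFe1g_2, kFe1g, cFxs1, cFsB1, cFBs1, cFsX1, cFsD1, cFsDD1, cFxs2, cFsB2, cFBs2, cFsX2, cFsD2, cFsDD2, nFsc2, nFB2_5, nFB2, nFX2_5, nFX2, nFD2_3, nFD2, nFsc3, nFB3_5, nFB3, nFX3_5, nFX3, nFD3, nFsc4, nFB4_5, nFB4, nFX4_5, nFX4, nFD4, l12F, laF, lbF, l1F, l2F, cvF1, cvF2, ndF2, ndF3, ndF4, pF, pNc0, pNkc, pNjc,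 pNcc, pNK11, pNK01, cNBs1, cNBs2, nNB2_6, nNB2, nNB3_6, nNB3, nNB4_6, nNB4, umo, us1, us2, us3, uC11, uC01, kNu1_0, kNu1_0g, l12N, cvN1, cvN2, ndN2, ndN3, ndN4, pN, ul1, ul2, ul3, qN]
  push_cast
  ring
theorem sdFC {x : ℝ} : SdOk PP tK tL pF (dgSC pF) 5 1572864 x := by
  refine sdC rfl ?_ ?_
  · intro Y t h q3 i3 ht hh
    obtain ⟨r0, r1⟩ := h3_rng q3 i3 ht (by norm_num) (by norm_num) hD3H hh
    have hy := ycg_v (y := Y) (by linarith [q3.1]) q3.2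
    rw [← ht] at hy
    rw [← (atB53 (onc q3 (by decide))).K, ← ht]
    show kfc53.v t x = _
    rw [kfc53_g hy hh, kcP r0 r1]
    simp only [pFma, pFmb, pFmu, pFnx, pFc0, pFkc, pFjc, pFca, pFcb, pFcc, pFsv, pFx11, pFx01, pFK11, pFK01, pFL11, pFL01, kFa0, kFa0g, kFa1, kFa1g, kFb0, kFb0g, kFb1_2, kFb1, kFb1g_2, kFb1g, kFd0, kFd0g, kFd1_2, kFd1, kFd1g_2, kFd1g, kFe0, kFe0g, kFe1_2, kFe1, kFe1g_2, kFe1g, cFxs1, cFsB1, cFBs1, cFsX1, cFsD1, cFsDD1, cFxs2, cFsB2, cFBs2, cFsX2, cFsD2, cFsDD2, nFsc2, nFB2_5, nFB2, nFX2_5, nFX2, nFD2_3, nFD2, nFsc3, nFB3_5, nFB3, nFX3_5, nFX3, nFD3, nFsc4, nFB4_5, nFB4, nFX4_5, nFX4, nFD4, l12F, laF, lbF, l1F, l2F, cvF1, cvF2, ndF2, ndF3, ndF4, pF, pNc0, pNkc, pNjc, pNcc, pNK11, pNK01, cNBs1, cNBs2, nNB2_6, nNB2, nNB3_6, nNB3, nNB4_6, nNB4, umo, us1, us2, us3, uC11, uC01, kNu1_0, kNu1_0g, l12N, cvN1, cvN2, ndN2, ndN3, ndN4, pN, ul1, ul2, ul3, qN, pf_cons, pf_nil]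
    push_cast
    ring
  · intro Y t h q3 i3 ht hh
    obtain ⟨r0, r1⟩ := h3_rng q3 i3 ht (by norm_num) (by norm_num) hD3H hh
    have hy := ycg_v (y := Y) (by linarith [q3.1]) q3.2
    rw [← ht] at hy
    rw [← (atB53 (onc q3 (by decide))).L, ← ht]
    show lc53.v t x = _
    rw [lc53_g hy hh r0 r1]
    simp only [pFma, pFmb, pFmu, pFnx, pFc0, pFkc, pFjc, pFca, pFcb, pFcc, pFsv, pFx11, pFx01, pFK11, pFK01, pFL11, pFL01, kFa0, kFa0g, kFa1, kFa1g, kFb0, kFb0g, kFb1_2, kFb1, kFb1g_2, kFb1g, kFd0, kFd0g, kFd1_2, kFd1, kFd1g_2, kFd1g, kFe0, kFe0g, kFe1_2, kFe1, kFe1g_2, kFe1g, cFxs1, cFsB1, cFBs1, cFsX1, cFsD1, cFsDD1, cFxs2, cFsB2, cFBs2, cFsX2, cFsD2, cFsDD2, nFsc2, nFB2_5, nFB2, nFX2_5, nFX2, nFD2_3, nFD2, nFsc3, nFB3_5, nFB3, nFX3_5, nFX3, nFD3, nFsc4, nFB4_5, nFB4, nFX4_5, nFX4, nFD4, l12F, laF, lbF, l1F, l2F, cvF1, cvF2, ndF2, ndF3, ndF4, pF, pNc0, pNkc, pNjc, pNcc, pNK11, pNK01, cNBs1,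 cNBs2, nNB2_6, nNB2, nNB3_6, nNB3, nNB4_6, nNB4, umo, us1, us2, us3, uC11, uC01, kNu1_0, kNu1_0g, l12N, cvN1, cvN2, ndN2, ndN3, ndN4, pN, ul1, ul2, ul3, qN, pf_cons, pf_nil]
    push_cast
    ring
theorem nlF2 {x : ℝ} : NuL PP tK tL ndF2 2 1572864 x := by
  have hr : PP.ρ 2 = 3 / 5 := rfl
  refine ⟨by rw [hr]; norm_num, fun u => ?_, fun {Y t} q3 i3 ht hw => ?_, fun {Y t} q3 i3 ht hw => ?_⟩
  · rw [hr]
    simp only [pFma, pFmb, pFc0, nFsc2, nFB2_5, nFB2, nFX2_5, nFX2, nFD2_3, nFD2, ndF2, pF, pNc0, nNB2_6, nNB2, us3, qN]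
    push_cast
    ring
  · have h2 : (4093 / 2048) < Y := by
      have := (abs_lt.1 i3).1
      rw [S_one] at this
      norm_num at this
      linarith
    rcases lt_or_ge t (59990999 / 1000000000) with c5 | c5
    · have h5 : c3g.v Y < (59990999 / 1000000000) := by
          rw [c3g_v, ← ht]
          exact c5
      rw [← (atB23 (onc q3 (by decide))).K]
      show kf2q3.v Y x = _
      rw [kf2q3_g h2 q3.2 h5, ← ecv2q3 q3.1]
      simp only [c3g_v, ← ht, hw, pFma, pFmb, pFc0, nFsc2, nFB2_5, nFB2, nFX2_5, nFX2, nFD2_3, nFD2, ndF2, pF, pNc0, nNB2_6, nNB2, us3, qN]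
      ((try push_cast); (repeat first | rw [if_pos (by linarith)] | rw [if_neg (by linarith)] | erw [if_pos (by linarith)] | erw [if_neg (by linarith)]))
      ring
    · have h5 : (59990999 / 1000000000) ≤ c3g.v Y := by
          rw [c3g_v, ← ht]
          exact c5
      rw [← (atB23 (onc q3 (by decide))).K]
      show kf2q3.v Y x = _
      rw [kf2q3_h h2 q3.2 h5, ← ecv2q3 q3.1]
      simp only [c3g_v, ← ht, hw, pFma, pFmb, pFc0, nFsc2, nFB2_5, nFB2, nFX2_5, nFX2, nFD2_3, nFD2, ndF2, pF, pNc0, nNB2_6, nNB2, us3, qN]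
      ((try push_cast); (repeat first | rw [if_pos (by linarith)] | rw [if_neg (by linarith)] | erw [if_pos (by linarith)] | erw [if_neg (by linarith)]))
      ring
  · have h2 : (4093 / 2048) < Y := by
      have := (abs_lt.1 i3).1
      rw [S_one] at this
      norm_num at this
      linarith
    rcases lt_or_ge t (59990999 / 1000000000) with c5 | c5
    · have h5 : c3g.v Y < (59990999 / 1000000000) := by
          rw [c3g_v, ← ht]
          exact c5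
      rw [← (atB23 (onc q3 (by decide))).L]
      show l2q3.v Y x = _
      rw [l2q3_g h2 q3.2 h5, ← ecv2q3 q3.1]
      simp only [c3g_v, ← ht, hw, pFma, pFmb, pFc0, nFsc2, nFB2_5, nFB2, nFX2_5, nFX2, nFD2_3, nFD2, ndF2, pF, pNc0, nNB2_6, nNB2, us3, qN]
      ((try push_cast); (repeat first | rw [if_pos (by linarith)] | rw [if_neg (by linarith)] | erw [if_pos (by linarith)] | erw [if_neg (by linarith)]))
      ring
    · have h5 : (59990999 / 1000000000) ≤ c3g.v Y := by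
          rw [c3g_v, ← ht]
          exact c5
      rw [← (atB23 (onc q3 (by decide))).L]
      show l2q3.v Y x = _
      rw [l2q3_h h2 q3.2 h5, ← ecv2q3 q3.1]
      simp only [c3g_v, ← ht, hw, pFma, pFmb, pFc0, nFsc2, nFB2_5, nFB2, nFX2_5, nFX2, nFD2_3, nFD2, ndF2, pF, pNc0, nNB2_6, nNB2, us3, qN]
      ((try push_cast); (repeat first | rw [if_pos (by linarith)] | rw [if_neg (by linarith)] | erw [if_pos (by linarith)] | erw [if_neg (by linarith)]))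
      ring
theorem sdF2 {x : ℝ} : SdOk PP tK tL pF (ndUL pF ndF2) 2 1572864 x := nlF2.sd
theorem nrF3 {x : ℝ} : NuR PP tK tL pF ndF3 3 1572864 x := by
  have hr : PP.ρ 3 = 2101 / 2000 := rfl
  refine ⟨by rw [hr]; norm_num, fun u => ?_, fun {Y t} q3 i3 ht hw => ?_, fun {Y t} q3 i3 ht hw => ?_⟩
  · rw [hr]
    simp only [pFma, pFmb, pFc0, nFsc3, nFB3_5, nFB3, nFX3_5, nFX3, nFD3, ndF3, pF, pNc0, nNB3_6, nNB3, us3, qN]
    push_cast
    ring
  · have h2 : (4093 / 2048) < Y := by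
      have := (abs_lt.1 i3).1
      rw [S_one] at this
      norm_num at this
      linarith
    have hy := ycg_v (y := Y) (by linarith [q3.1]) q3.2
    rw [← ht] at hy
    have h4 : t ≤ 1 / 14 := by
      rw [ht, c3n]
      exact Real.sqrt_le_iff.2 ⟨by norm_num, by nlinarith [q3.2]⟩
    rcases lt_or_ge t (59990999 / 1000000000) with c5 | c5
    · rw [← (atB33 (onc q3 (by decide))).K, ← ht]
      show kfc33.v t x = _
      rw [kfc33_g hy h2 q3.2 h4 c5]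
      rw [ecv3q3 q3.1, cv3r_v, ← ht]
      simp only [swg_v, dga3c, dgsl3, pFma, pFmb, pFc0, nFsc3, nFB3_5, nFB3, nFX3_5, nFX3, nFD3, ndF3, pF, pNc0, nNB3_6, nNB3, us3, qN]
      ((try push_cast); (repeat first | rw [if_pos (by linarith)] | rw [if_neg (by linarith)] | erw [if_pos (by linarith)] | erw [if_neg (by linarith)]))
      ring
    · rw [← (atB33 (onc q3 (by decide))).K, ← ht]
      show kfc33.v t x = _
      rw [kfc33_h hy h2 q3.2 h4 c5]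
      rw [ecv3q3 q3.1, cv3r_v, ← ht]
      simp only [swg_v, dga3c, dgsl3, pFma, pFmb, pFc0, nFsc3, nFB3_5, nFB3, nFX3_5, nFX3, nFD3, ndF3, pF, pNc0, nNB3_6, nNB3, us3, qN]
      ((try push_cast); (repeat first | rw [if_pos (by linarith)] | rw [if_neg (by linarith)] | erw [if_pos (by linarith)] | erw [if_neg (by linarith)]))
      have hv : t * t⁻¹ = 1 := mul_inv_cancel₀ (ne_of_gt (by linarith))
      linear_combination (-(((1899 / 2000) * (swn Y - 1 / 2) + (101 / 2000) * t) * ((-(2509744537 / 12869000000)) + (595149 / 5147600000) * (x - (309 / 320))))) * hv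
  · have h2 : (4093 / 2048) < Y := by
      have := (abs_lt.1 i3).1
      rw [S_one] at this
      norm_num at this
      linarith
    have hy := ycg_v (y := Y) (by linarith [q3.1]) q3.2
    rw [← ht] at hy
    have h4 : t ≤ 1 / 14 := by
      rw [ht, c3n]
      exact Real.sqrt_le_iff.2 ⟨by norm_num, by nlinarith [q3.2]⟩
    rcases lt_or_ge t (59990999 / 1000000000) with c5 | c5
    · rw [← (atB33 (onc q3 (by decide))).L, ← ht]
      show lc33.v t x = _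
      rw [lc33_g hy h2 q3.2 h4 c5]
      rw [ecv3q3 q3.1, cv3r_v, ← ht]
      simp only [swg_v, dga3c, dgsl3, pFma, pFmb, pFc0, nFsc3, nFB3_5, nFB3, nFX3_5, nFX3, nFD3, ndF3, pF, pNc0, nNB3_6, nNB3, us3, qN]
      ((try push_cast); (repeat first | rw [if_pos (by linarith)] | rw [if_neg (by linarith)] | erw [if_pos (by linarith)] | erw [if_neg (by linarith)]))
      ring
    · rw [← (atB33 (onc q3 (by decide))).L, ← ht]
      show lc33.v t x = _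
      rw [lc33_h hy h2 q3.2 h4 c5]
      rw [ecv3q3 q3.1, cv3r_v, ← ht]
      simp only [swg_v, dga3c, dgsl3, pFma, pFmb, pFc0, nFsc3, nFB3_5, nFB3, nFX3_5, nFX3, nFD3, ndF3, pF, pNc0, nNB3_6, nNB3, us3, qN]
      ((try push_cast); (repeat first | rw [if_pos (by linarith)] | rw [if_neg (by linarith)] | erw [if_pos (by linarith)] | erw [if_neg (by linarith)]))
      have hv : t * t⁻¹ = 1 := mul_inv_cancel₀ (ne_of_gt (by linarith))
      linear_combination (-(((1899 / 2000) * (swn Y - 1 / 2) + (101 / 2000) * t) * ((19499425967 / 1544280000000) + (11158953369 / 25738000000) * (x - (309 / 320))))) * hv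
theorem sdF3 {x : ℝ} : SdOk PP tK tL pF (ndUR ndF3) 3 1572864 x := nrF3.sd
theorem nrF4 {x : ℝ} : NuR PP tK tL pF ndF4 4 1572864 x := by
  have hr : PP.ρ 4 = 17 / 10 := rfl
  refine ⟨by rw [hr]; norm_num, fun u => ?_, fun {Y t} q3 i3 ht hw => ?_, fun {Y t} q3 i3 ht hw => ?_⟩
  · rw [hr]
    simp only [pFma, pFmb, pFc0, nFsc4, nFB4_5, nFB4, nFX4_5, nFX4, nFD4, ndF4, pF, pNc0, nNB4_6, nNB4, us3, qN]
    push_cast
    ring
  · have h2 : (4093 / 2048) < Y := by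
      have := (abs_lt.1 i3).1
      rw [S_one] at this
      norm_num at this
      linarith
    have hy := ycg_v (y := Y) (by linarith [q3.1]) q3.2
    rw [← ht] at hy
    have h4 : t ≤ 1 / 14 := by
      rw [ht, c3n]
      exact Real.sqrt_le_iff.2 ⟨by norm_num, by nlinarith [q3.2]⟩
    rcases lt_or_ge t (59990999 / 1000000000) with c5 | c5
    · rw [← (atB43 (onc q3 (by decide))).K, ← ht]
      show kfc43.v t x = _
      rw [kfc43_g hy h2 q3.2 h4 c5]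
      rw [ecv4q3 q3.1, cv4r_v, ← ht]
      simp only [swg_v, dga3c, dgsl3, pFma, pFmb, pFc0, nFsc4, nFB4_5, nFB4, nFX4_5, nFX4, nFD4, ndF4, pF, pNc0, nNB4_6, nNB4, us3, qN]
      ((try push_cast); (repeat first | rw [if_pos (by linarith)] | rw [if_neg (by linarith)] | erw [if_pos (by linarith)] | erw [if_neg (by linarith)]))
      ring
    · rw [← (atB43 (onc q3 (by decide))).K, ← ht]
      show kfc43.v t x = _
      rw [kfc43_h hy h2 q3.2 h4 c5]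
      rw [ecv4q3 q3.1, cv4r_v, ← ht]
      simp only [swg_v, dga3c, dgsl3, pFma, pFmb, pFc0, nFsc4, nFB4_5, nFB4, nFX4_5, nFX4, nFD4, ndF4, pF, pNc0, nNB4_6, nNB4, us3, qN]
      ((try push_cast); (repeat first | rw [if_pos (by linarith)] | rw [if_neg (by linarith)] | erw [if_pos (by linarith)] | erw [if_neg (by linarith)]))
      have hv : t * t⁻¹ = 1 := mul_inv_cancel₀ (ne_of_gt (by linarith))
      linear_combination (-(((3 / 10) * (swn Y - 1 / 2) + (7 / 10) * t) * ((-(11231031821 / 51476000000)) + (-(42618604297 / 10295200000)) * (x - (309 / 320))))) * hv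
  · have h2 : (4093 / 2048) < Y := by
      have := (abs_lt.1 i3).1
      rw [S_one] at this
      norm_num at this
      linarith
    have hy := ycg_v (y := Y) (by linarith [q3.1]) q3.2
    rw [← ht] at hy
    have h4 : t ≤ 1 / 14 := by
      rw [ht, c3n]
      exact Real.sqrt_le_iff.2 ⟨by norm_num, by nlinarith [q3.2]⟩
    rcases lt_or_ge t (59990999 / 1000000000) with c5 | c5
    · rw [← (atB43 (onc q3 (by decide))).L, ← ht]
      show lc43.v t x = _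
      rw [lc43_g hy h2 q3.2 h4 c5]
      rw [ecv4q3 q3.1, cv4r_v, ← ht]
      simp only [swg_v, dga3c, dgsl3, pFma, pFmb, pFc0, nFsc4, nFB4_5, nFB4, nFX4_5, nFX4, nFD4, ndF4, pF, pNc0, nNB4_6, nNB4, us3, qN]
      ((try push_cast); (repeat first | rw [if_pos (by linarith)] | rw [if_neg (by linarith)] | erw [if_pos (by linarith)] | erw [if_neg (by linarith)]))
      ring
    · rw [← (atB43 (onc q3 (by decide))).L, ← ht]
      show lc43.v t x = _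
      rw [lc43_h hy h2 q3.2 h4 c5]
      rw [ecv4q3 q3.1, cv4r_v, ← ht]
      simp only [swg_v, dga3c, dgsl3, pFma, pFmb, pFc0, nFsc4, nFB4_5, nFB4, nFX4_5, nFX4, nFD4, ndF4, pF, pNc0, nNB4_6, nNB4, us3, qN]
      ((try push_cast); (repeat first | rw [if_pos (by linarith)] | rw [if_neg (by linarith)] | erw [if_pos (by linarith)] | erw [if_neg (by linarith)]))
      have hv : t * t⁻¹ = 1 := mul_inv_cancel₀ (ne_of_gt (by linarith))
      linear_combination (-(((3 / 10) * (swn Y - 1 / 2) + (7 / 10) * t) * ((95088961 / 128690000000) + (-(35947795267 / 51476000000)) * (x - (309 / 320))))) * hv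
theorem sdF4 {x : ℝ} : SdOk PP tK tL pF (ndUR ndF4) 4 1572864 x := nrF4.sd
theorem bf1q2_g {v x : ℝ} (v0 : 0 ≤ v) (v1 : v < (5 / 256)) : bf1q2.v (1 + v) x = 1 + v * cFsB1.v v x := by
  simp only [bf1q2_3, bf1q2, cFsB1]
  ((try push_cast); (repeat first | rw [if_pos (by linarith)] | rw [if_neg (by linarith)] | erw [if_pos (by linarith)] | erw [if_neg (by linarith)]))
  ring1
theorem bx1q2_g {v x : ℝ} (v0 : 0 ≤ v) (v1 : v < (5 / 256)) : bx1q2.v (1 + v) x = 0 + v * cFsX1.v v x := by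
  simp only [bx1q2_3, bx1q2, cFsX1]
  ((try push_cast); (repeat first | rw [if_pos (by linarith)] | rw [if_neg (by linarith)] | erw [if_pos (by linarith)] | erw [if_neg (by linarith)]))
  ring1
theorem bd1q2_g {v x : ℝ} (v0 : 0 ≤ v) (v1 : v < (5 / 256)) : bd1q2.v (1 + v) x = 0 + v * cFsD1.v v x := by
  simp only [bd1q2, cFsD1]
  ((try push_cast); (repeat first | rw [if_pos (by linarith)] | rw [if_neg (by linarith)] | erw [if_pos (by linarith)] | erw [if_neg (by linarith)]))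
  ring1
theorem cvokF1 {x : ℝ} : CvOk PP tK tL pF cvF1 1 20971520 x := by
  intro v v0 v1
  have v2 : v < (5 / 256) := by
    rw [S_one] at v1
    norm_num at v1
    linarith
  have hxi := dgxi_v v0 (by linarith)
  have hws := dgws_v v0 (by linarith)
  have q2 : InQ 2 (1 + v) := ⟨by linarith, by linarith⟩
  have o : OnC (1 : Fin 6) 2 (1 + v) := onc q2 (by decide)
  have ex : crv PP 1 2 (1 + v) = 1 / 2 - v * cvF1.xs.v v := by
    rw [ecv1q2, cv1p_v, hxi, hws]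
    simp only [pFma, pFmb, pFmu, pFnx, pFc0, pFkc, pFjc, pFca, pFcb, pFcc, pFsv, pFx11, pFx01, pFK11, pFK01, pFL11, pFL01, kFa0, kFa0g, kFa1, kFa1g, kFb0, kFb0g, kFb1_2, kFb1, kFb1g_2, kFb1g, kFd0, kFd0g, kFd1_2, kFd1, kFd1g_2, kFd1g, kFe0, kFe0g, kFe1_2, kFe1, kFe1g_2, kFe1g, cFxs1, cFsB1, cFBs1, cFsX1, cFsD1, cFsDD1, cFxs2, cFsB2, cFBs2, cFsX2, cFsD2, cFsDD2, nFsc2, nFB2_5, nFB2, nFX2_5, nFX2, nFD2_3, nFD2, nFsc3, nFB3_5, nFB3, nFX3_5, nFX3, nFD3, nFsc4, nFB4_5, nFB4, nFX4_5, nFX4, nFD4, l12F, laF, lbF, l1F, l2F, cvF1, cvF2, ndF2, ndF3, ndF4, pF, pNc0, pNkc, pNjc, pNcc, pNK11, pNK01, cNBs1, cNBs2, nNB2_6, nNB2, nNB3_6, nNB3, nNB4_6, nNB4, umo, us1, us2, us3, uC11, uC01, kNu1_0, kNu1_0g, l12N, cvN1, cvN2, ndN2, ndN3, ndN4, pN, ul1, ul2, ul3, qN]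
    push_cast
    ring
  refine ⟨ex, ?_, ?_⟩
  · rw [← (atB12 o).K]
    show kf1q2.v (1 + v) x = _
    have ef : kf1q2.v (1 + v) x = cv1p.v (1 + v) * bf1q2.v (1 + v) x := by
      simp only [kf1q2, bf1q2_3, bf1q2]
    rw [ef, bf1q2_g v0 v2, ← ecv1q2, ex]
    simp only [pFmu, pFc0, cFBs1, cvF1, pF, pNc0, cNBs1]
    push_cast
    ring
  · rw [← (atB12 o).L]
    show l1q2.v (1 + v) x = _
    have ef : l1q2.v (1 + v) x = cv1p.v (1 + v) * bx1q2.v (1 + v) x := by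
      simp only [l1q2, bx1q2_3, bx1q2]
    rw [ef, bx1q2_g v0 v2, ← ecv1q2, ex, zero_add]
    rfl
theorem bf2q2_g {v x : ℝ} (v0 : 0 ≤ v) (v1 : v < (5 / 256)) : bf2q2.v (1 + v) x = 1 + v * cFsB2.v v x := by
  simp only [bf2q2_3, bf2q2_28, bf2q2_51, bf2q2, cFsB2]
  ((try push_cast); (repeat first | rw [if_pos (by linarith)] | rw [if_neg (by linarith)] | erw [if_pos (by linarith)] | erw [if_neg (by linarith)]))
  ring1
theorem bx2q2_g {v x : ℝ} (v0 : 0 ≤ v) (v1 : v < (5 / 256)) : bx2q2.v (1 + v) x = 0 + v * cFsX2.v v x := by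
  simp only [bx2q2_3, bx2q2_28, bx2q2_45, bx2q2, cFsX2]
  ((try push_cast); (repeat first | rw [if_pos (by linarith)] | rw [if_neg (by linarith)] | erw [if_pos (by linarith)] | erw [if_neg (by linarith)]))
  ring1
theorem bd2q2_g {v x : ℝ} (v0 : 0 ≤ v) (v1 : v < (5 / 256)) : bd2q2.v (1 + v) x = 0 + v * cFsD2.v v x := by
  simp only [bd2q2, cFsD2]
  ((try push_cast); (repeat first | rw [if_pos (by linarith)] | rw [if_neg (by linarith)] | erw [if_pos (by linarith)] | erw [if_neg (by linarith)]))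
  ring1
theorem cvokF2 {x : ℝ} : CvOk PP tK tL pF cvF2 2 20971520 x := by
  intro v v0 v1
  have v2 : v < (5 / 256) := by
    rw [S_one] at v1
    norm_num at v1
    linarith
  have hxi := dgxi_v v0 (by linarith)
  have hws := dgws_v v0 (by linarith)
  have q2 : InQ 2 (1 + v) := ⟨by linarith, by linarith⟩
  have o : OnC (2 : Fin 6) 2 (1 + v) := onc q2 (by decide)
  have ex : crv PP 2 2 (1 + v) = 1 / 2 - v * cvF2.xs.v v := by
    rw [ecv2q2, cv2p_v, hxi, hws]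
    simp only [pFma, pFmb, pFmu, pFnx, pFc0, pFkc, pFjc, pFca, pFcb, pFcc, pFsv, pFx11, pFx01, pFK11, pFK01, pFL11, pFL01, kFa0, kFa0g, kFa1, kFa1g, kFb0, kFb0g, kFb1_2, kFb1, kFb1g_2, kFb1g, kFd0, kFd0g, kFd1_2, kFd1, kFd1g_2, kFd1g, kFe0, kFe0g, kFe1_2, kFe1, kFe1g_2, kFe1g, cFxs1, cFsB1, cFBs1, cFsX1, cFsD1, cFsDD1, cFxs2, cFsB2, cFBs2, cFsX2, cFsD2, cFsDD2, nFsc2, nFB2_5, nFB2, nFX2_5, nFX2, nFD2_3, nFD2, nFsc3, nFB3_5, nFB3, nFX3_5, nFX3, nFD3, nFsc4, nFB4_5, nFB4, nFX4_5, nFX4, nFD4, l12F, laF, lbF, l1F, l2F, cvF1, cvF2, ndF2, ndF3, ndF4, pF, pNc0, pNkc, pNjc, pNcc, pNK11, pNK01, cNBs1, cNBs2, nNB2_6, nNB2, nNB3_6, nNB3, nNB4_6, nNB4, umo, us1, us2, us3, uC11, uC01, kNu1_0, kNu1_0g, l12N, cvN1, cvN2, ndN2, ndN3, ndN4, pN, ul1, ul2, ul3, qN]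
    push_cast
    ring
  refine ⟨ex, ?_, ?_⟩
  · rw [← (atB22 o).K]
    show kf2q2.v (1 + v) x = _
    have ef : kf2q2.v (1 + v) x = cv2p.v (1 + v) * bf2q2.v (1 + v) x := by
      simp only [kf2q2, bf2q2_3, bf2q2_28, bf2q2_51, bf2q2]
    rw [ef, bf2q2_g v0 v2, ← ecv2q2, ex]
    simp only [pFmu, pFc0, cFBs2, cvF2, pF, pNc0, cNBs2]
    push_cast
    ring
  · rw [← (atB22 o).L]
    show l2q2.v (1 + v) x = _
    have ef : l2q2.v (1 + v) x = cv2p.v (1 + v) * bx2q2.v (1 + v) x := by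
      simp only [l2q2, bx2q2_3, bx2q2_28, bx2q2_45, bx2q2]
    rw [ef, bx2q2_g v0 v2, ← ecv2q2, ex, zero_add]
    rfl
theorem p1okF {x : ℝ} : P1Ok PP tK tL pF 1 20971520 x := by
  refine ⟨fun hq _ => ecv1q1, fun hq _ => (congrFun c1g_v _).symm, fun hq _ => ((atB11 (onc hq (by decide))).K).symm,
    fun hq _ => ((atB01 ⟨hq, fun _ => on_h (by linarith [hq.2]) (by linarith [hq.1])⟩).K).symm,
    fun hq _ => ((atB11 (onc hq (by decide))).L).symm,
    fun hq _ => ((atB01 ⟨hq, fun _ => on_h (by linarith [hq.2]) (by linarith [hq.1])⟩).L).symm⟩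
theorem svF (u : ℝ) : pF.sv.v u = u - ((20971520 : ℕ) : ℝ) / S := by
  rw [S_one]
  simp only [pFma, pFmb, pFmu, pFnx, pFc0, pFkc, pFjc, pFca, pFcb, pFcc, pFsv, pFx11, pFx01, pFK11, pFK01, pFL11, pFL01, kFa0, kFa0g, kFa1, kFa1g, kFb0, kFb0g, kFb1_2, kFb1, kFb1g_2, kFb1g, kFd0, kFd0g, kFd1_2, kFd1, kFd1g_2, kFd1g, kFe0, kFe0g, kFe1_2, kFe1, kFe1g_2, kFe1g, cFxs1, cFsB1, cFBs1, cFsX1, cFsD1, cFsDD1, cFxs2, cFsB2, cFBs2, cFsX2, cFsD2, cFsDD2, nFsc2, nFB2_5, nFB2, nFX2_5, nFX2, nFD2_3, nFD2, nFsc3, nFB3_5, nFB3, nFX3_5, nFX3, nFD3, nFsc4, nFB4_5, nFB4, nFX4_5, nFX4, nFD4, l12F, laF, lbF, l1F, l2F, cvF1, cvF2, ndF2, ndF3, ndF4, pF, pNc0, pNkc, pNjc, pNcc, pNK11, pNK01, cNBs1, cNBs2, nNB2_6, nNB2, nNB3_6, nNB3, nNB4_6, nNB4, umo, us1, us2, us3, uC11, uC01, kNu1_0, kNu1_0g, l12N, cvN1, cvN2, ndN2, ndN3, ndN4, pN, ul1, ul2, ul3, qN]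
  push_cast
  ring
theorem tabN {x : ℝ} : TabOk (scK (eng.v x) tK) tL pN 20971520 x := by
  refine ⟨?_, ?_, ?_, ?_⟩
  · intro y h hq hd hh
    obtain ⟨r0, r1⟩ := h1_rng hq hd hD hDH hh
    have o : OnC (0 : Fin 6) 1 y := ⟨hq, fun _ => on_h (by linarith [hq.2]) (by linarith [hq.1])⟩
    show eng.v x * tK 0 1 y x = _
    rw [← (atB01 o).K]
    show eng.v x * kf0q1.v y x = _
    rw [kf0q1_g hh, kcP r0 r1]
    simp only [pFma, pFmb, pFmu, pFnx, pFc0, pFkc, pFjc, pFca, pFcb, pFcc, pFsv, pFx11, pFx01, pFK11, pFK01, pFL11, pFL01, kFa0, kFa0g, kFa1, kFa1g, kFb0, kFb0g, kFb1_2, kFb1, kFb1g_2, kFb1g, kFd0, kFd0g, kFd1_2, kFd1, kFd1g_2, kFd1g, kFe0, kFe0g, kFe1_2, kFe1, kFe1g_2, kFe1g, cFxs1, cFsB1, cFBs1, cFsX1, cFsD1, cFsDD1, cFxs2, cFsB2, cFBs2, cFsX2, cFsD2, cFsDD2, nFsc2, nFB2_5, nFB2, nFX2_5, nFX2, nFD2_3, nFD2, nFsc3, nFB3_5, nFB3, nFX3_5, nFX3, nFD3, nFsc4, nFB4_5, nFB4, nFX4_5, nFX4, nFD4,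 l12F, laF, lbF, l1F, l2F, cvF1, cvF2, ndF2, ndF3, ndF4, pF, pNc0, pNkc, pNjc, pNcc, pNK11, pNK01, cNBs1, cNBs2, nNB2_6, nNB2, nNB3_6, nNB3, nNB4_6, nNB4, umo, us1, us2, us3, uC11, uC01, kNu1_0, kNu1_0g, l12N, cvN1, cvN2, ndN2, ndN3, ndN4, pN, ul1, ul2, ul3, qN, pf_cons, pf_nil]
    push_cast
    ring
  · intro y h hq hd hh
    obtain ⟨r0, r1⟩ := h1_rng hq hd hD hDH hh
    have o : OnC (0 : Fin 6) 1 y := ⟨hq, fun _ => on_h (by linarith [hq.2]) (by linarith [hq.1])⟩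
    rw [← (atB01 o).L]
    show l0q1.v y x = _
    rw [l0q1_g hh r0 r1]
    simp only [pFma, pFmb, pFmu, pFnx, pFc0, pFkc, pFjc, pFca, pFcb, pFcc, pFsv, pFx11, pFx01, pFK11, pFK01, pFL11, pFL01, kFa0, kFa0g, kFa1, kFa1g, kFb0, kFb0g, kFb1_2, kFb1, kFb1g_2, kFb1g, kFd0, kFd0g, kFd1_2, kFd1, kFd1g_2, kFd1g, kFe0, kFe0g, kFe1_2, kFe1, kFe1g_2, kFe1g, cFxs1, cFsB1, cFBs1, cFsX1, cFsD1, cFsDD1, cFxs2, cFsB2, cFBs2, cFsX2, cFsD2, cFsDD2, nFsc2, nFB2_5, nFB2, nFX2_5, nFX2, nFD2_3, nFD2, nFsc3, nFB3_5, nFB3, nFX3_5, nFX3, nFD3, nFsc4, nFB4_5, nFB4, nFX4_5, nFX4, nFD4, l12F, laF, lbF, l1F, l2F, cvF1, cvF2, ndF2, ndF3, ndF4, pF, pNc0, pNkc, pNjc, pNcc, pNK11, pNK01, cNBs1, cNBs2, nNB2_6, nNB2, nNB3_6, nNB3, nNB4_6, nNB4, umo, us1, us2, us3, uC11, uC01, kNu1_0, kNu1_0g, l12N, cvN1, cvN2, ndN2, ndN3, ndN4, pN, ul1, ul2, ul3, qN, pf_cons, pf_nil]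
    push_cast
    ring
  · intro y h hq hd hh
    obtain ⟨r0, r1⟩ := h2_rng hq hd hD hDH hh
    have hy := on_h (r16 hd) (by linarith [hq.1])
    have o : OnC (0 : Fin 6) 2 y := ⟨hq, fun _ => hy⟩
    have hc : c1n y = 1 / 2 - h := by linarith
    have ya := yag_v (y := y) (by linarith [hq.1]) hy
    rw [hc] at ya
    show eng.v x * tK 0 2 y x = _
    rw [← (atB02 o).K, hc]
    show eng.v x * kfc02.v (1 / 2 - h) x = _
    rw [kfc02_g, kcN r0 r1, ya]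
    simp only [pFma, pFmb, pFmu, pFnx, pFc0, pFkc, pFjc, pFca, pFcb, pFcc, pFsv, pFx11, pFx01, pFK11, pFK01, pFL11, pFL01, kFa0, kFa0g, kFa1, kFa1g, kFb0, kFb0g, kFb1_2, kFb1, kFb1g_2, kFb1g, kFd0, kFd0g, kFd1_2, kFd1, kFd1g_2, kFd1g, kFe0, kFe0g, kFe1_2, kFe1, kFe1g_2, kFe1g, cFxs1, cFsB1, cFBs1, cFsX1, cFsD1, cFsDD1, cFxs2, cFsB2, cFBs2, cFsX2, cFsD2, cFsDD2, nFsc2, nFB2_5, nFB2, nFX2_5, nFX2, nFD2_3, nFD2, nFsc3, nFB3_5, nFB3, nFX3_5, nFX3, nFD3, nFsc4, nFB4_5, nFB4, nFX4_5, nFX4, nFD4, l12F, laF, lbF, l1F, l2F, cvF1, cvF2, ndF2, ndF3, ndF4, pF, pNc0, pNkc, pNjc, pNcc, pNK11, pNK01, cNBs1, cNBs2, nNB2_6, nNB2, nNB3_6, nNB3, nNB4_6, nNB4, umo, us1, us2, us3, uC11, uC01, kNu1_0, kNu1_0g, l12N, cvN1, cvN2, ndN2, ndN3, ndN4, pN, ul1, ul2, ul3, qN, pf_cons, pf_nil]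
    push_cast
    ring
  · intro y h hq hd hh
    obtain ⟨r0, r1⟩ := h2_rng hq hd hD hDH hh
    have hy := on_h (r16 hd) (by linarith [hq.1])
    have o : OnC (0 : Fin 6) 2 y := ⟨hq, fun _ => hy⟩
    have hc : c1n y = 1 / 2 - h := by linarith
    rw [← (atB02 o).L, hc]
    show lc02.v (1 / 2 - h) x = _
    rw [lc02_g r0 r1]
    simp only [pFma, pFmb, pFmu, pFnx, pFc0, pFkc, pFjc, pFca, pFcb, pFcc, pFsv, pFx11, pFx01, pFK11, pFK01, pFL11, pFL01, kFa0, kFa0g, kFa1, kFa1g, kFb0, kFb0g, kFb1_2, kFb1, kFb1g_2, kFb1g, kFd0, kFd0g, kFd1_2, kFd1, kFd1g_2, kFd1g, kFe0, kFe0g, kFe1_2, kFe1, kFe1g_2, kFe1g, cFxs1, cFsB1, cFBs1, cFsX1, cFsD1, cFsDD1, cFxs2, cFsB2, cFBs2, cFsX2, cFsD2, cFsDD2, nFsc2, nFB2_5, nFB2, nFX2_5, nFX2, nFD2_3, nFD2, nFsc3, nFB3_5, nFB3, nFX3_5, nFX3, nFD3, nFsc4, nFB4_5, nFB4, nFX4_5, nFX4, nFD4, l12F, laF, lbF, l1F, l2F, cvF1, cvF2, ndF2, ndF3, ndF4, pF, pNc0, pNkc, pNjc,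 pNcc, pNK11, pNK01, cNBs1, cNBs2, nNB2_6, nNB2, nNB3_6, nNB3, nNB4_6, nNB4, umo, us1, us2, us3, uC11, uC01, kNu1_0, kNu1_0g, l12N, cvN1, cvN2, ndN2, ndN3, ndN4, pN, ul1, ul2, ul3, qN, pf_cons, pf_nil]
    push_cast
    ring
theorem tabU {x : ℝ} : TabU tU qN 20971520 x := by
  refine ⟨?_, ?_⟩
  · intro y h hq hd hh
    obtain ⟨r0, r1⟩ := h1_rng hq hd hD hDH hh
    have hc : c1n y = 2 * h - 1 + 3 / 2 * y := by linarith
    have o : OnC (0 : Fin 6) 1 y := ⟨hq, fun _ => on_h (by linarith [hq.2]) (by linarith [hq.1])⟩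
    rw [show tU 0 1 y x = kc0q1.v y x from tbF_on (fn := nc) (crd := crd) (x := x) o, kc0q1_g hc r0 r1]
    simp only [pFma, pFmb, pFmu, pFnx, pFc0, pFkc, pFjc, pFca, pFcb, pFcc, pFsv, pFx11, pFx01, pFK11, pFK01, pFL11, pFL01, kFa0, kFa0g, kFa1, kFa1g, kFb0, kFb0g, kFb1_2, kFb1, kFb1g_2, kFb1g, kFd0, kFd0g, kFd1_2, kFd1, kFd1g_2, kFd1g, kFe0, kFe0g, kFe1_2, kFe1, kFe1g_2, kFe1g, cFxs1, cFsB1, cFBs1, cFsX1, cFsD1, cFsDD1, cFxs2, cFsB2, cFBs2, cFsX2, cFsD2, cFsDD2, nFsc2, nFB2_5, nFB2, nFX2_5, nFX2, nFD2_3, nFD2, nFsc3, nFB3_5, nFB3, nFX3_5, nFX3, nFD3, nFsc4, nFB4_5, nFB4, nFX4_5, nFX4, nFD4, l12F, laF, lbF, l1F, l2F, cvF1, cvF2, ndF2, ndF3, ndF4, pF, pNc0, pNkc, pNjc, pNcc, pNK11, pNK01, cNBs1, cNBs2, nNB2_6, nNB2, nNB3_6, nNB3, nNB4_6, nNB4, umo, us1, us2, us3, uC11, uC01, kNu1_0, kNu1_0g, l12N, cvN1, cvN2, ndN2, ndN3, ndN4, pN, ul1, ul2, ul3, qN, pf_cons, pf_nil]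
    push_cast
    ring
  · intro y h hq hd hh
    obtain ⟨r0, r1⟩ := h2_rng hq hd hD hDH hh
    have hy := on_h (r16 hd) (by linarith [hq.1])
    have hc : c1n y = 1 / 2 - h := by linarith
    have o : OnC (0 : Fin 6) 2 y := ⟨hq, fun _ => hy⟩
    rw [show tU 0 2 y x = kcc02.v (c1n y) x from tbF_on (fn := nc) (crd := crd) (x := x) o, hc, kcc02_g r0 r1]
    simp only [pFma, pFmb, pFmu, pFnx, pFc0, pFkc, pFjc, pFca, pFcb, pFcc, pFsv, pFx11, pFx01, pFK11, pFK01, pFL11, pFL01, kFa0, kFa0g, kFa1, kFa1g, kFb0, kFb0g, kFb1_2, kFb1, kFb1g_2, kFb1g, kFd0, kFd0g, kFd1_2, kFd1, kFd1g_2, kFd1g, kFe0, kFe0g, kFe1_2, kFe1, kFe1g_2, kFe1g, cFxs1, cFsB1, cFBs1, cFsX1, cFsD1, cFsDD1, cFxs2, cFsB2, cFBs2, cFsX2, cFsD2, cFsDD2, nFsc2, nFB2_5, nFB2, nFX2_5, nFX2, nFD2_3, nFD2, nFsc3, nFB3_5, nFB3, nFX3_5, nFX3, nFD3, nFsc4, nFB4_5, nFB4, nFX4_5, nFX4, nFD4, l12F, laF, lbF, l1F, l2F, cvF1, cvF2, ndF2, ndF3,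 ndF4, pF, pNc0, pNkc, pNjc, pNcc, pNK11, pNK01, cNBs1, cNBs2, nNB2_6, nNB2, nNB3_6, nNB3, nNB4_6, nNB4, umo, us1, us2, us3, uC11, uC01, kNu1_0, kNu1_0g, l12N, cvN1, cvN2, ndN2, ndN3, ndN4, pN, ul1, ul2, ul3, qN, pf_cons, pf_nil]
    push_cast
    ring
theorem fitN {x : ℝ} : pN.Fit false 3 x := by
  refine ⟨fun h => mu_v x, ?_, fun h => absurd h (by decide)⟩
  simp only [pFma, pFmb, pFmu, pFnx, pFc0, pFkc, pFjc, pFca, pFcb, pFcc, pFsv, pFx11, pFx01, pFK11, pFK01, pFL11, pFL01, kFa0, kFa0g, kFa1, kFa1g, kFb0, kFb0g, kFb1_2, kFb1, kFb1g_2, kFb1g, kFd0, kFd0g, kFd1_2, kFd1, kFd1g_2, kFd1g, kFe0, kFe0g, kFe1_2, kFe1, kFe1g_2, kFe1g, cFxs1, cFsB1, cFBs1, cFsX1, cFsD1, cFsDD1, cFxs2, cFsB2, cFBs2, cFsX2, cFsD2, cFsDD2, nFsc2, nFB2_5, nFB2, nFX2_5, nFX2, nFD2_3, nFD2, nFsc3, nFB3_5, nFB3, nFX3_5, nFX3, nFD3, nFsc4, nFB4_5, nFB4, nFX4_5, nFX4, nFD4, l12F, laF, lbF, l1F, l2F, cvF1, cvF2, ndF2,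 ndF3, ndF4, pF, pNc0, pNkc, pNjc, pNcc, pNK11, pNK01, cNBs1, cNBs2, nNB2_6, nNB2, nNB3_6, nNB3, nNB4_6, nNB4, umo, us1, us2, us3, uC11, uC01, kNu1_0, kNu1_0g, l12N, cvN1, cvN2, ndN2, ndN3, ndN4, pN, ul1, ul2, ul3, qN]
  push_cast
  ring
theorem sdNC {x : ℝ} : SdOk PP (scK (eng.v x) tK) tL pN (dgSC pN) 5 1572864 x := by
  refine sdC rfl ?_ ?_
  · intro Y t h q3 i3 ht hh
    obtain ⟨r0, r1⟩ := h3_rng q3 i3 ht (by norm_num) (by norm_num) hD3H hh
    have hy := ycg_v (y := Y) (by linarith [q3.1]) q3.2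
    rw [← ht] at hy
    show eng.v x * tK 5 3 Y x = _
    rw [← (atB53 (onc q3 (by decide))).K, ← ht]
    show eng.v x * kfc53.v t x = _
    rw [kfc53_g hy hh, kcP r0 r1]
    simp only [pFma, pFmb, pFmu, pFnx, pFc0, pFkc, pFjc, pFca, pFcb, pFcc, pFsv, pFx11, pFx01, pFK11, pFK01, pFL11, pFL01, kFa0, kFa0g, kFa1, kFa1g, kFb0, kFb0g, kFb1_2, kFb1, kFb1g_2, kFb1g, kFd0, kFd0g, kFd1_2, kFd1, kFd1g_2, kFd1g, kFe0, kFe0g, kFe1_2, kFe1, kFe1g_2, kFe1g, cFxs1, cFsB1, cFBs1, cFsX1, cFsD1, cFsDD1, cFxs2, cFsB2, cFBs2, cFsX2, cFsD2, cFsDD2, nFsc2, nFB2_5, nFB2, nFX2_5, nFX2, nFD2_3, nFD2, nFsc3, nFB3_5, nFB3, nFX3_5, nFX3, nFD3, nFsc4, nFB4_5, nFB4, nFX4_5, nFX4, nFD4, l12F, laF, lbF, l1F, l2F, cvF1, cvF2, ndF2, ndF3, ndF4, pF, pNc0, pNkc, pNjc, pNcc, pNK11, pNK01, cNBs1, cNBs2, nNB2_6, nNB2, nNB3_6, nNB3, nNB4_6, nNB4, umo, us1, us2, us3, uC11, uC01, kNu1_0, kNu1_0g, l12N, cvN1, cvN2, ndN2, ndN3,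 ndN4, pN, ul1, ul2, ul3, qN, pf_cons, pf_nil]
    push_cast
    ring
  · intro Y t h q3 i3 ht hh
    obtain ⟨r0, r1⟩ := h3_rng q3 i3 ht (by norm_num) (by norm_num) hD3H hh
    have hy := ycg_v (y := Y) (by linarith [q3.1]) q3.2
    rw [← ht] at hy
    rw [← (atB53 (onc q3 (by decide))).L, ← ht]
    show lc53.v t x = _
    rw [lc53_g hy hh r0 r1]
    simp only [pFma, pFmb, pFmu, pFnx, pFc0, pFkc, pFjc, pFca, pFcb, pFcc, pFsv, pFx11, pFx01, pFK11, pFK01, pFL11, pFL01, kFa0, kFa0g, kFa1, kFa1g, kFb0, kFb0g, kFb1_2, kFb1, kFb1g_2, kFb1g, kFd0, kFd0g, kFd1_2, kFd1, kFd1g_2, kFd1g, kFe0, kFe0g, kFe1_2, kFe1, kFe1g_2, kFe1g, cFxs1, cFsB1, cFBs1, cFsX1, cFsD1, cFsDD1, cFxs2, cFsB2, cFBs2, cFsX2, cFsD2, cFsDD2, nFsc2, nFB2_5, nFB2, nFX2_5, nFX2, nFD2_3, nFD2, nFsc3, nFB3_5, nFB3, nFX3_5, nFX3, nFD3, nFsc4, nFB4_5, nFB4, nFX4_5, nFX4, nFD4, l12F, laF, lbF, l1F, l2F, cvF1, cvF2, ndF2, ndF3, ndF4,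 pF, pNc0, pNkc, pNjc, pNcc, pNK11, pNK01, cNBs1, cNBs2, nNB2_6, nNB2, nNB3_6, nNB3, nNB4_6, nNB4, umo, us1, us2, us3, uC11, uC01, kNu1_0, kNu1_0g, l12N, cvN1, cvN2, ndN2, ndN3, ndN4, pN, ul1, ul2, ul3, qN, pf_cons, pf_nil]
    push_cast
    ring
theorem suNC {x : ℝ} : SuOk tU qN (dgSC pN) (suC qN) 5 1572864 x := by
  refine suC_ok (p := pN) ?_
  intro Y t h q3 i3 ht hh
  obtain ⟨r0, r1⟩ := h3_rng q3 i3 ht (by norm_num) (by norm_num) hD3H hh
  have hy := ycg_v (y := Y) (by linarith [q3.1]) q3.2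
  rw [← ht] at hy
  rw [show tU 5 3 Y x = kcc53.v (c3n Y) x from tbF_on (fn := nc) (crd := crd) (x := x) (onc q3 (by decide)), ← ht, kcc53_g hy hh r0 r1]
  simp only [pFma, pFmb, pFmu, pFnx, pFc0, pFkc, pFjc, pFca, pFcb, pFcc, pFsv, pFx11, pFx01, pFK11, pFK01, pFL11, pFL01, kFa0, kFa0g, kFa1, kFa1g, kFb0, kFb0g, kFb1_2, kFb1, kFb1g_2, kFb1g, kFd0, kFd0g, kFd1_2, kFd1, kFd1g_2, kFd1g, kFe0, kFe0g, kFe1_2, kFe1, kFe1g_2, kFe1g, cFxs1, cFsB1, cFBs1, cFsX1, cFsD1, cFsDD1, cFxs2, cFsB2, cFBs2, cFsX2, cFsD2, cFsDD2, nFsc2, nFB2_5, nFB2, nFX2_5, nFX2, nFD2_3, nFD2, nFsc3, nFB3_5, nFB3, nFX3_5, nFX3, nFD3, nFsc4, nFB4_5, nFB4, nFX4_5, nFX4, nFD4, l12F, laF, lbF, l1F, l2F, cvF1, cvF2, ndF2, ndF3, ndF4, pF, pNc0, pNkc, pNjc, pNcc, pNK11, pNK01, cNBs1, cNBs2, nNB2_6, nNB2, nNB3_6, nNB3, nNB4_6, nNB4, umo, us1, us2, us3, uC11, uC01, kNu1_0, kNu1_0g, l12N, cvN1, cvN2, ndN2, ndN3, ndN4, pN, ul1, ul2,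 ul3, qN, pf_cons, pf_nil]
  push_cast
  ring
theorem nlN2 {x : ℝ} : NuL PP (scK (eng.v x) tK) tL ndN2 2 1572864 x := by
  have hr : PP.ρ 2 = 3 / 5 := rfl
  refine ⟨by rw [hr]; norm_num, fun u => ?_, fun {Y t} q3 i3 ht hw => ?_, fun {Y t} q3 i3 ht hw => ?_⟩
  · rw [hr]
    simp only [pFma, pFmb, pFc0, nFsc2, nFB2_5, nFB2, nFX2_5, nFX2, nFD2_3, nFD2, pNc0, nNB2_6, nNB2, us3, ndN2, pN, qN]
    push_cast
    ring
  · have h2 : (4093 / 2048) < Y := by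
      have := (abs_lt.1 i3).1
      rw [S_one] at this
      norm_num at this
      linarith
    rcases lt_or_ge t (59990999 / 1000000000) with c5 | c5
    · have h5 : c3g.v Y < (59990999 / 1000000000) := by
          rw [c3g_v, ← ht]
          exact c5
      show eng.v x * tK 2 3 Y x = _
      rw [← (atB23 (onc q3 (by decide))).K]
      show eng.v x * kf2q3.v Y x = _
      rw [kf2q3_g h2 q3.2 h5, ← ecv2q3 q3.1]
      simp only [c3g_v, ← ht, hw, pFma, pFmb, pFc0, nFsc2, nFB2_5, nFB2, nFX2_5, nFX2, nFD2_3, nFD2, pNc0, nNB2_6, nNB2, us3, ndN2, pN, qN]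
      ((try push_cast); (repeat first | rw [if_pos (by linarith)] | rw [if_neg (by linarith)] | erw [if_pos (by linarith)] | erw [if_neg (by linarith)]))
      ring
    · have h5 : (59990999 / 1000000000) ≤ c3g.v Y := by
          rw [c3g_v, ← ht]
          exact c5
      show eng.v x * tK 2 3 Y x = _
      rw [← (atB23 (onc q3 (by decide))).K]
      show eng.v x * kf2q3.v Y x = _
      rw [kf2q3_h h2 q3.2 h5, ← ecv2q3 q3.1]
      simp only [c3g_v, ← ht, hw, pFma, pFmb, pFc0, nFsc2, nFB2_5, nFB2, nFX2_5, nFX2, nFD2_3, nFD2, pNc0, nNB2_6, nNB2, us3, ndN2, pN, qN]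
      ((try push_cast); (repeat first | rw [if_pos (by linarith)] | rw [if_neg (by linarith)] | erw [if_pos (by linarith)] | erw [if_neg (by linarith)]))
      ring
  · have h2 : (4093 / 2048) < Y := by
      have := (abs_lt.1 i3).1
      rw [S_one] at this
      norm_num at this
      linarith
    rcases lt_or_ge t (59990999 / 1000000000) with c5 | c5
    · have h5 : c3g.v Y < (59990999 / 1000000000) := by
          rw [c3g_v, ← ht]
          exact c5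
      rw [← (atB23 (onc q3 (by decide))).L]
      show l2q3.v Y x = _
      rw [l2q3_g h2 q3.2 h5, ← ecv2q3 q3.1]
      simp only [c3g_v, ← ht, hw, pFma, pFmb, pFc0, nFsc2, nFB2_5, nFB2, nFX2_5, nFX2, nFD2_3, nFD2, pNc0, nNB2_6, nNB2, us3, ndN2, pN, qN]
      ((try push_cast); (repeat first | rw [if_pos (by linarith)] | rw [if_neg (by linarith)] | erw [if_pos (by linarith)] | erw [if_neg (by linarith)]))
      ring
    · have h5 : (59990999 / 1000000000) ≤ c3g.v Y := by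
          rw [c3g_v, ← ht]
          exact c5
      rw [← (atB23 (onc q3 (by decide))).L]
      show l2q3.v Y x = _
      rw [l2q3_h h2 q3.2 h5, ← ecv2q3 q3.1]
      simp only [c3g_v, ← ht, hw, pFma, pFmb, pFc0, nFsc2, nFB2_5, nFB2, nFX2_5, nFX2, nFD2_3, nFD2, pNc0, nNB2_6, nNB2, us3, ndN2, pN, qN]
      ((try push_cast); (repeat first | rw [if_pos (by linarith)] | rw [if_neg (by linarith)] | erw [if_pos (by linarith)] | erw [if_neg (by linarith)]))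
      ring
theorem sdN2 {x : ℝ} : SdOk PP (scK (eng.v x) tK) tL pN (ndUL pN ndN2) 2 1572864 x := nlN2.sd
theorem nc2 {x : ℝ} : NuLC PP tU ndN2 2 1572864 x := by
  intro Y t q3 i3 ht hw
  have h2 : (4093 / 2048) < Y := by
    have := (abs_lt.1 i3).1
    rw [S_one] at this
    norm_num at this
    linarith
  rw [show tU 2 3 Y x = kc2q3.v Y x from tbF_on (fn := nc) (crd := crd) (x := x) (onc q3 (by decide)), kc2q3_g h2 q3.2, ← ecv2q3 q3.1]
  simp only [c3g_v, ← ht, hw, pFma, pFmb, pFc0, nFsc2, nFB2_5, nFB2, nFX2_5, nFX2, nFD2_3, nFD2, pNc0, nNB2_6, nNB2, us3, ndN2, pN, qN]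
  push_cast
  ring
theorem suN2 {x : ℝ} : SuOk tU qN (ndUL pN ndN2) (suL qN ndN2) 2 1572864 x := nc2.su (nlN2 (x := x)).hj (nlN2 (x := x)).sc
theorem nrN3 {x : ℝ} : NuR PP (scK (eng.v x) tK) tL pN ndN3 3 1572864 x := by
  have hr : PP.ρ 3 = 2101 / 2000 := rfl
  refine ⟨by rw [hr]; norm_num, fun u => ?_, fun {Y t} q3 i3 ht hw => ?_, fun {Y t} q3 i3 ht hw => ?_⟩
  · rw [hr]
    simp only [pFma, pFmb, pFc0, nFsc3, nFB3_5, nFB3, nFX3_5, nFX3, nFD3, pNc0, nNB3_6, nNB3, us3, ndN3, pN, qN]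
    push_cast
    ring
  · have h2 : (4093 / 2048) < Y := by
      have := (abs_lt.1 i3).1
      rw [S_one] at this
      norm_num at this
      linarith
    have hy := ycg_v (y := Y) (by linarith [q3.1]) q3.2
    rw [← ht] at hy
    have h4 : t ≤ 1 / 14 := by
      rw [ht, c3n]
      exact Real.sqrt_le_iff.2 ⟨by norm_num, by nlinarith [q3.2]⟩
    rcases lt_or_ge t (59990999 / 1000000000) with c5 | c5
    · show eng.v x * tK 3 3 Y x = _
      rw [← (atB33 (onc q3 (by decide))).K, ← ht]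
      show eng.v x * kfc33.v t x = _
      rw [kfc33_g hy h2 q3.2 h4 c5]
      rw [ecv3q3 q3.1, cv3r_v, ← ht]
      simp only [swg_v, dga3c, dgsl3, pFma, pFmb, pFc0, nFsc3, nFB3_5, nFB3, nFX3_5, nFX3, nFD3, pNc0, nNB3_6, nNB3, us3, ndN3, pN, qN]
      ((try push_cast); (repeat first | rw [if_pos (by linarith)] | rw [if_neg (by linarith)] | erw [if_pos (by linarith)] | erw [if_neg (by linarith)]))
      ring
    · show eng.v x * tK 3 3 Y x = _
      rw [← (atB33 (onc q3 (by decide))).K, ← ht]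
      show eng.v x * kfc33.v t x = _
      rw [kfc33_h hy h2 q3.2 h4 c5]
      rw [ecv3q3 q3.1, cv3r_v, ← ht]
      simp only [swg_v, dga3c, dgsl3, pFma, pFmb, pFc0, nFsc3, nFB3_5, nFB3, nFX3_5, nFX3, nFD3, pNc0, nNB3_6, nNB3, us3, ndN3, pN, qN]
      ((try push_cast); (repeat first | rw [if_pos (by linarith)] | rw [if_neg (by linarith)] | erw [if_pos (by linarith)] | erw [if_neg (by linarith)]))
      have hv : t * t⁻¹ = 1 := mul_inv_cancel₀ (ne_of_gt (by linarith))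
      linear_combination (-(eng.v x * ((1899 / 2000) * (swn Y - 1 / 2) + (101 / 2000) * t) * ((-(2509744537 / 12869000000)) + (595149 / 5147600000) * (x - (309 / 320))))) * hv
  · have h2 : (4093 / 2048) < Y := by
      have := (abs_lt.1 i3).1
      rw [S_one] at this
      norm_num at this
      linarith
    have hy := ycg_v (y := Y) (by linarith [q3.1]) q3.2
    rw [← ht] at hy
    have h4 : t ≤ 1 / 14 := by
      rw [ht, c3n]
      exact Real.sqrt_le_iff.2 ⟨by norm_num, by nlinarith [q3.2]⟩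
    rcases lt_or_ge t (59990999 / 1000000000) with c5 | c5
    · rw [← (atB33 (onc q3 (by decide))).L, ← ht]
      show lc33.v t x = _
      rw [lc33_g hy h2 q3.2 h4 c5]
      rw [ecv3q3 q3.1, cv3r_v, ← ht]
      simp only [swg_v, dga3c, dgsl3, pFma, pFmb, pFc0, nFsc3, nFB3_5, nFB3, nFX3_5, nFX3, nFD3, pNc0, nNB3_6, nNB3, us3, ndN3, pN, qN]
      ((try push_cast); (repeat first | rw [if_pos (by linarith)] | rw [if_neg (by linarith)] | erw [if_pos (by linarith)] | erw [if_neg (by linarith)]))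
      ring
    · rw [← (atB33 (onc q3 (by decide))).L, ← ht]
      show lc33.v t x = _
      rw [lc33_h hy h2 q3.2 h4 c5]
      rw [ecv3q3 q3.1, cv3r_v, ← ht]
      simp only [swg_v, dga3c, dgsl3, pFma, pFmb, pFc0, nFsc3, nFB3_5, nFB3, nFX3_5, nFX3, nFD3, pNc0, nNB3_6, nNB3, us3, ndN3, pN, qN]
      ((try push_cast); (repeat first | rw [if_pos (by linarith)] | rw [if_neg (by linarith)] | erw [if_pos (by linarith)] | erw [if_neg (by linarith)]))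
      have hv : t * t⁻¹ = 1 := mul_inv_cancel₀ (ne_of_gt (by linarith))
      linear_combination (-(((1899 / 2000) * (swn Y - 1 / 2) + (101 / 2000) * t) * ((19499425967 / 1544280000000) + (11158953369 / 25738000000) * (x - (309 / 320))))) * hv
theorem sdN3 {x : ℝ} : SdOk PP (scK (eng.v x) tK) tL pN (ndUR ndN3) 3 1572864 x := nrN3.sd
theorem nc3 {x : ℝ} : NuRC PP tU qN ndN3 3 1572864 x := by
  intro Y t q3 i3 ht hw
  have h2 : (4093 / 2048) < Y := by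
    have := (abs_lt.1 i3).1
    rw [S_one] at this
    norm_num at this
    linarith
  have hy := ycg_v (y := Y) (by linarith [q3.1]) q3.2
  rw [← ht] at hy
  have h4 : t ≤ 1 / 14 := by
    rw [ht, c3n]
    exact Real.sqrt_le_iff.2 ⟨by norm_num, by nlinarith [q3.2]⟩
  rw [show tU 3 3 Y x = kcc33.v (c3n Y) x from tbF_on (fn := nc) (crd := crd) (x := x) (onc q3 (by decide)), ← ht, kcc33_g hy h2 q3.2 h4]
  rw [ecv3q3 q3.1, cv3r_v, ← ht]
  simp only [swg_v, dga3c, dgsl3, pFma, pFmb, pFc0, nFsc3, nFB3_5, nFB3, nFX3_5, nFX3, nFD3, pNc0, nNB3_6, nNB3, us3, ndN3, pN, qN]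
  push_cast
  ring
theorem suN3 {x : ℝ} : SuOk tU qN (ndUR ndN3) (suR ndN3) 3 1572864 x := nc3.su (nrN3 (x := x)).hj (nrN3 (x := x)).sc
theorem nrN4 {x : ℝ} : NuR PP (scK (eng.v x) tK) tL pN ndN4 4 1572864 x := by
  have hr : PP.ρ 4 = 17 / 10 := rfl
  refine ⟨by rw [hr]; norm_num, fun u => ?_, fun {Y t} q3 i3 ht hw => ?_, fun {Y t} q3 i3 ht hw => ?_⟩
  · rw [hr]
    simp only [pFma, pFmb, pFc0, nFsc4, nFB4_5, nFB4, nFX4_5, nFX4, nFD4, pNc0, nNB4_6, nNB4, us3, ndN4, pN, qN]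
    push_cast
    ring
  · have h2 : (4093 / 2048) < Y := by
      have := (abs_lt.1 i3).1
      rw [S_one] at this
      norm_num at this
      linarith
    have hy := ycg_v (y := Y) (by linarith [q3.1]) q3.2
    rw [← ht] at hy
    have h4 : t ≤ 1 / 14 := by
      rw [ht, c3n]
      exact Real.sqrt_le_iff.2 ⟨by norm_num, by nlinarith [q3.2]⟩
    rcases lt_or_ge t (59990999 / 1000000000) with c5 | c5
    · show eng.v x * tK 4 3 Y x = _
      rw [← (atB43 (onc q3 (by decide))).K, ← ht]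
      show eng.v x * kfc43.v t x = _
      rw [kfc43_g hy h2 q3.2 h4 c5]
      rw [ecv4q3 q3.1, cv4r_v, ← ht]
      simp only [swg_v, dga3c, dgsl3, pFma, pFmb, pFc0, nFsc4, nFB4_5, nFB4, nFX4_5, nFX4, nFD4, pNc0, nNB4_6, nNB4, us3, ndN4, pN, qN]
      ((try push_cast); (repeat first | rw [if_pos (by linarith)] | rw [if_neg (by linarith)] | erw [if_pos (by linarith)] | erw [if_neg (by linarith)]))
      ring
    · show eng.v x * tK 4 3 Y x = _
      rw [← (atB43 (onc q3 (by decide))).K, ← ht]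
      show eng.v x * kfc43.v t x = _
      rw [kfc43_h hy h2 q3.2 h4 c5]
      rw [ecv4q3 q3.1, cv4r_v, ← ht]
      simp only [swg_v, dga3c, dgsl3, pFma, pFmb, pFc0, nFsc4, nFB4_5, nFB4, nFX4_5, nFX4, nFD4, pNc0, nNB4_6, nNB4, us3, ndN4, pN, qN]
      ((try push_cast); (repeat first | rw [if_pos (by linarith)] | rw [if_neg (by linarith)] | erw [if_pos (by linarith)] | erw [if_neg (by linarith)]))
      have hv : t * t⁻¹ = 1 := mul_inv_cancel₀ (ne_of_gt (by linarith))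
      linear_combination (-(eng.v x * ((3 / 10) * (swn Y - 1 / 2) + (7 / 10) * t) * ((-(11231031821 / 51476000000)) + (-(42618604297 / 10295200000)) * (x - (309 / 320))))) * hv
  · have h2 : (4093 / 2048) < Y := by
      have := (abs_lt.1 i3).1
      rw [S_one] at this
      norm_num at this
      linarith
    have hy := ycg_v (y := Y) (by linarith [q3.1]) q3.2
    rw [← ht] at hy
    have h4 : t ≤ 1 / 14 := by
      rw [ht, c3n]
      exact Real.sqrt_le_iff.2 ⟨by norm_num, by nlinarith [q3.2]⟩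
    rcases lt_or_ge t (59990999 / 1000000000) with c5 | c5
    · rw [← (atB43 (onc q3 (by decide))).L, ← ht]
      show lc43.v t x = _
      rw [lc43_g hy h2 q3.2 h4 c5]
      rw [ecv4q3 q3.1, cv4r_v, ← ht]
      simp only [swg_v, dga3c, dgsl3, pFma, pFmb, pFc0, nFsc4, nFB4_5, nFB4, nFX4_5, nFX4, nFD4, pNc0, nNB4_6, nNB4, us3, ndN4, pN, qN]
      ((try push_cast); (repeat first | rw [if_pos (by linarith)] | rw [if_neg (by linarith)] | erw [if_pos (by linarith)] | erw [if_neg (by linarith)]))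
      ring
    · rw [← (atB43 (onc q3 (by decide))).L, ← ht]
      show lc43.v t x = _
      rw [lc43_h hy h2 q3.2 h4 c5]
      rw [ecv4q3 q3.1, cv4r_v, ← ht]
      simp only [swg_v, dga3c, dgsl3, pFma, pFmb, pFc0, nFsc4, nFB4_5, nFB4, nFX4_5, nFX4, nFD4, pNc0, nNB4_6, nNB4, us3, ndN4, pN, qN]
      ((try push_cast); (repeat first | rw [if_pos (by linarith)] | rw [if_neg (by linarith)] | erw [if_pos (by linarith)] | erw [if_neg (by linarith)]))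
      have hv : t * t⁻¹ = 1 := mul_inv_cancel₀ (ne_of_gt (by linarith))
      linear_combination (-(((3 / 10) * (swn Y - 1 / 2) + (7 / 10) * t) * ((95088961 / 128690000000) + (-(35947795267 / 51476000000)) * (x - (309 / 320))))) * hv
theorem sdN4 {x : ℝ} : SdOk PP (scK (eng.v x) tK) tL pN (ndUR ndN4) 4 1572864 x := nrN4.sd
theorem nc4 {x : ℝ} : NuRC PP tU qN ndN4 4 1572864 x := by
  intro Y t q3 i3 ht hw
  have h2 : (4093 / 2048) < Y := by
    have := (abs_lt.1 i3).1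
    rw [S_one] at this
    norm_num at this
    linarith
  have hy := ycg_v (y := Y) (by linarith [q3.1]) q3.2
  rw [← ht] at hy
  have h4 : t ≤ 1 / 14 := by
    rw [ht, c3n]
    exact Real.sqrt_le_iff.2 ⟨by norm_num, by nlinarith [q3.2]⟩
  rw [show tU 4 3 Y x = kcc43.v (c3n Y) x from tbF_on (fn := nc) (crd := crd) (x := x) (onc q3 (by decide)), ← ht, kcc43_g hy h2 q3.2 h4]
  rw [ecv4q3 q3.1, cv4r_v, ← ht]
  simp only [swg_v, dga3c, dgsl3, pFma, pFmb, pFc0, nFsc4, nFB4_5, nFB4, nFX4_5, nFX4, nFD4, pNc0, nNB4_6, nNB4, us3, ndN4, pN, qN]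
  push_cast
  ring
theorem suN4 {x : ℝ} : SuOk tU qN (ndUR ndN4) (suR ndN4) 4 1572864 x := nc4.su (nrN4 (x := x)).hj (nrN4 (x := x)).sc
theorem cvokN1 {x : ℝ} : CvOk PP (scK (eng.v x) tK) tL pN cvN1 1 20971520 x := by
  intro v v0 v1
  have v2 : v < (5 / 256) := by
    rw [S_one] at v1
    norm_num at v1
    linarith
  have hxi := dgxi_v v0 (by linarith)
  have hws := dgws_v v0 (by linarith)
  have q2 : InQ 2 (1 + v) := ⟨by linarith, by linarith⟩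
  have o : OnC (1 : Fin 6) 2 (1 + v) := onc q2 (by decide)
  have ex : crv PP 1 2 (1 + v) = 1 / 2 - v * cvN1.xs.v v := by
    rw [ecv1q2, cv1p_v, hxi, hws]
    simp only [pFma, pFmb, pFmu, pFnx, pFc0, pFkc, pFjc, pFca, pFcb, pFcc, pFsv, pFx11, pFx01, pFK11, pFK01, pFL11, pFL01, kFa0, kFa0g, kFa1, kFa1g, kFb0, kFb0g, kFb1_2, kFb1, kFb1g_2, kFb1g, kFd0, kFd0g, kFd1_2, kFd1, kFd1g_2, kFd1g, kFe0, kFe0g, kFe1_2, kFe1, kFe1g_2, kFe1g, cFxs1, cFsB1, cFBs1, cFsX1, cFsD1, cFsDD1, cFxs2, cFsB2, cFBs2, cFsX2, cFsD2, cFsDD2, nFsc2, nFB2_5, nFB2, nFX2_5, nFX2, nFD2_3, nFD2, nFsc3, nFB3_5, nFB3, nFX3_5, nFX3, nFD3, nFsc4, nFB4_5, nFB4, nFX4_5, nFX4, nFD4, l12F, laF, lbF, l1F, l2F, cvF1, cvF2, ndF2, ndF3, ndF4, pF, pNc0, pNkc, pNjc, pNcc, pNK11, pNK01, cNBs1, cNBs2, nNB2_6, nNB2, nNB3_6, nNB3, nNB4_6, nNB4, umo, us1, us2, us3, uC11, uC01, kNu1_0, kNu1_0g, l12N, cvN1, cvN2, ndN2, ndN3, ndN4, pN, ul1,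 ul2, ul3, qN]
    push_cast
    ring
  refine ⟨ex, ?_, ?_⟩
  · show eng.v x * tK 1 2 (1 + v) x = _
    rw [← (atB12 o).K]
    show eng.v x * kf1q2.v (1 + v) x = _
    have ef : kf1q2.v (1 + v) x = cv1p.v (1 + v) * bf1q2.v (1 + v) x := by
      simp only [kf1q2, bf1q2_3, bf1q2]
    rw [ef, bf1q2_g v0 v2, ← ecv1q2, ex]
    simp only [pFmu, pFc0, cFBs1, pNc0, cNBs1, cvN1, pN]
    push_cast
    ring
  · rw [← (atB12 o).L]
    show l1q2.v (1 + v) x = _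
    have ef : l1q2.v (1 + v) x = cv1p.v (1 + v) * bx1q2.v (1 + v) x := by
      simp only [l1q2, bx1q2_3, bx1q2]
    rw [ef, bx1q2_g v0 v2, ← ecv1q2, ex, zero_add]
    rfl
theorem cvu1 {x : ℝ} : CvU tU cvN1 cFsDD1 1 20971520 x := by
  intro v v0 v1
  have v2 : v < (5 / 256) := by
    rw [S_one] at v1
    norm_num at v1
    linarith
  have q2 : InQ 2 (1 + v) := ⟨by linarith, by linarith⟩
  have o : OnC (1 : Fin 6) 2 (1 + v) := onc q2 (by decide)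
  have ex := (cvokN1 (x := x) v0 v1).1
  rw [show tU 1 2 (1 + v) x = kc1q2.v (1 + v) x from tbF_on (fn := nc) (crd := crd) (x := x) o]
  have ef : kc1q2.v (1 + v) x = cv1p.v (1 + v) * bd1q2.v (1 + v) x := by
    simp only [kc1q2, bd1q2]
  rw [ef, bd1q2_g v0 v2, ← ecv1q2, ex, zero_add]
  rfl
theorem cvokN2 {x : ℝ} : CvOk PP (scK (eng.v x) tK) tL pN cvN2 2 20971520 x := by
  intro v v0 v1
  have v2 : v < (5 / 256) := by
    rw [S_one] at v1
    norm_num at v1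
    linarith
  have hxi := dgxi_v v0 (by linarith)
  have hws := dgws_v v0 (by linarith)
  have q2 : InQ 2 (1 + v) := ⟨by linarith, by linarith⟩
  have o : OnC (2 : Fin 6) 2 (1 + v) := onc q2 (by decide)
  have ex : crv PP 2 2 (1 + v) = 1 / 2 - v * cvN2.xs.v v := by
    rw [ecv2q2, cv2p_v, hxi, hws]
    simp only [pFma, pFmb, pFmu, pFnx, pFc0, pFkc, pFjc, pFca, pFcb, pFcc, pFsv, pFx11, pFx01, pFK11, pFK01, pFL11, pFL01, kFa0, kFa0g, kFa1, kFa1g, kFb0, kFb0g, kFb1_2, kFb1, kFb1g_2, kFb1g, kFd0, kFd0g, kFd1_2, kFd1, kFd1g_2, kFd1g, kFe0, kFe0g, kFe1_2, kFe1, kFe1g_2, kFe1g, cFxs1, cFsB1, cFBs1, cFsX1, cFsD1, cFsDD1, cFxs2, cFsB2, cFBs2, cFsX2, cFsD2, cFsDD2, nFsc2, nFB2_5, nFB2, nFX2_5, nFX2, nFD2_3, nFD2, nFsc3, nFB3_5, nFB3, nFX3_5, nFX3, nFD3, nFsc4, nFB4_5, nFB4, nFX4_5, nFX4, nFD4, l12F, laF, lbF, l1F, l2F, cvF1, cvF2, ndF2, ndF3, ndF4, pF, pNc0, pNkc, pNjc, pNcc, pNK11, pNK01, cNBs1,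 cNBs2, nNB2_6, nNB2, nNB3_6, nNB3, nNB4_6, nNB4, umo, us1, us2, us3, uC11, uC01, kNu1_0, kNu1_0g, l12N, cvN1, cvN2, ndN2, ndN3, ndN4, pN, ul1, ul2, ul3, qN]
    push_cast
    ring
  refine ⟨ex, ?_, ?_⟩
  · show eng.v x * tK 2 2 (1 + v) x = _
    rw [← (atB22 o).K]
    show eng.v x * kf2q2.v (1 + v) x = _
    have ef : kf2q2.v (1 + v) x = cv2p.v (1 + v) * bf2q2.v (1 + v) x := by
      simp only [kf2q2, bf2q2_3, bf2q2_28, bf2q2_51, bf2q2]
    rw [ef, bf2q2_g v0 v2, ← ecv2q2, ex]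
    simp only [pFmu, pFc0, cFBs2, pNc0, cNBs2, cvN2, pN]
    push_cast
    ring
  · rw [← (atB22 o).L]
    show l2q2.v (1 + v) x = _
    have ef : l2q2.v (1 + v) x = cv2p.v (1 + v) * bx2q2.v (1 + v) x := by
      simp only [l2q2, bx2q2_3, bx2q2_28, bx2q2_45, bx2q2]
    rw [ef, bx2q2_g v0 v2, ← ecv2q2, ex, zero_add]
    rfl
theorem cvu2 {x : ℝ} : CvU tU cvN2 cFsDD2 2 20971520 x := by
  intro v v0 v1
  have v2 : v < (5 / 256) := by
    rw [S_one] at v1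
    norm_num at v1
    linarith
  have q2 : InQ 2 (1 + v) := ⟨by linarith, by linarith⟩
  have o : OnC (2 : Fin 6) 2 (1 + v) := onc q2 (by decide)
  have ex := (cvokN2 (x := x) v0 v1).1
  rw [show tU 2 2 (1 + v) x = kc2q2.v (1 + v) x from tbF_on (fn := nc) (crd := crd) (x := x) o]
  have ef : kc2q2.v (1 + v) x = cv2p.v (1 + v) * bd2q2.v (1 + v) x := by
    simp only [kc2q2, bd2q2]
  rw [ef, bd2q2_g v0 v2, ← ecv2q2, ex, zero_add]
  rfl
theorem p1okN {x : ℝ} : P1Ok PP (scK (eng.v x) tK) tL pN 1 20971520 x := by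
  refine ⟨fun hq _ => ecv1q1, fun hq _ => (congrFun c1g_v _).symm, fun hq _ => congrArg (fun z => eng.v x * z) ((atB11 (onc hq (by decide))).K).symm,
    fun hq _ => congrArg (fun z => eng.v x * z) ((atB01 ⟨hq, fun _ => on_h (by linarith [hq.2]) (by linarith [hq.1])⟩).K).symm,
    fun hq _ => ((atB11 (onc hq (by decide))).L).symm,
    fun hq _ => ((atB01 ⟨hq, fun _ => on_h (by linarith [hq.2]) (by linarith [hq.1])⟩).L).symm⟩
theorem p1u {x : ℝ} : P1U tU qN 1 20971520 x :=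
  ⟨fun hq _ => tbF_on (fn := nc) (crd := crd) (x := x) (onc hq (by decide)),
    fun {y} hq _ => tbF_on (fn := nc) (crd := crd) (x := x)
      (⟨hq, fun _ => on_h (by linarith [hq.2]) (by linarith [hq.1])⟩ : OnC (0 : Fin 6) 1 y)⟩
theorem svN (u : ℝ) : pN.sv.v u = u - ((20971520 : ℕ) : ℝ) / S := by
  rw [S_one]
  simp only [pFma, pFmb, pFmu, pFnx, pFc0, pFkc, pFjc, pFca, pFcb, pFcc, pFsv, pFx11, pFx01, pFK11, pFK01, pFL11, pFL01, kFa0, kFa0g, kFa1, kFa1g, kFb0, kFb0g, kFb1_2, kFb1, kFb1g_2, kFb1g, kFd0, kFd0g, kFd1_2, kFd1, kFd1g_2, kFd1g, kFe0, kFe0g, kFe1_2, kFe1, kFe1g_2, kFe1g, cFxs1, cFsB1, cFBs1, cFsX1, cFsD1, cFsDD1, cFxs2, cFsB2, cFBs2, cFsX2, cFsD2, cFsDD2, nFsc2, nFB2_5, nFB2, nFX2_5, nFX2, nFD2_3, nFD2, nFsc3, nFB3_5, nFB3, nFX3_5, nFX3, nFD3, nFsc4, nFB4_5, nFB4, nFX4_5, nFX4, nFD4, l12F, laF, lbF, l1F, l2F, cvF1, cvF2, ndF2, ndF3, ndF4, pF, pNc0, pNkc, pNjc, pNcc, pNK11, pNK01,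 cNBs1, cNBs2, nNB2_6, nNB2, nNB3_6, nNB3, nNB4_6, nNB4, umo, us1, us2, us3, uC11, uC01, kNu1_0, kNu1_0g, l12N, cvN1, cvN2, ndN2, ndN3, ndN4, pN, ul1, ul2, ul3, qN]
  push_cast
  ring
theorem tgpF {x : ℝ} : TgP pF x :=
  ⟨by simp only [pF, pFc0]; norm_num, rfl, rfl, rfl, rfl, rfl, rfl, fun _ => rfl, fun _ => rfl⟩
theorem klF {x : ℝ} : Kl pF x := by
  constructor
  · intro h
    simp only [pFma, pFmb, pFmu, pFnx, pFc0, pFkc, pFjc, pFca, pFcb, pFcc, pFsv, pFx11, pFx01, pFK11, pFK01, pFL11, pFL01, kFa0, kFa0g, kFa1, kFa1g, kFb0, kFb0g, kFb1_2, kFb1, kFb1g_2, kFb1g, kFd0, kFd0g, kFd1_2, kFd1, kFd1g_2, kFd1g, kFe0, kFe0g, kFe1_2, kFe1, kFe1g_2, kFe1g, cFxs1, cFsB1, cFBs1, cFsX1, cFsD1, cFsDD1, cFxs2, cFsB2, cFBs2, cFsX2, cFsD2, cFsDD2, nFsc2, nFB2_5, nFB2, nFX2_5, nFX2, nFD2_3, nFD2, nFsc3, nFB3_5, nFB3, nFX3_5, nFX3, nFD3, nFsc4, nFB4_5, nFB4, nFX4_5, nFX4, nFD4, l12F, laF, lbF, l1F, l2F,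 cvF1, cvF2, ndF2, ndF3, ndF4, pF, pNc0, pNkc, pNjc, pNcc, pNK11, pNK01, cNBs1, cNBs2, nNB2_6, nNB2, nNB3_6, nNB3, nNB4_6, nNB4, umo, us1, us2, us3, uC11, uC01, kNu1_0, kNu1_0g, l12N, cvN1, cvN2, ndN2, ndN3, ndN4, pN, ul1, ul2, ul3, qN, pf_cons, pf_nil]
    push_cast
    ring
  · intro h
    simp only [pFma, pFmb, pFmu, pFnx, pFc0, pFkc, pFjc, pFca, pFcb, pFcc, pFsv, pFx11, pFx01, pFK11, pFK01, pFL11, pFL01, kFa0, kFa0g, kFa1, kFa1g, kFb0, kFb0g, kFb1_2, kFb1, kFb1g_2, kFb1g, kFd0, kFd0g, kFd1_2, kFd1, kFd1g_2, kFd1g, kFe0, kFe0g, kFe1_2, kFe1, kFe1g_2, kFe1g, cFxs1, cFsB1, cFBs1, cFsX1, cFsD1, cFsDD1, cFxs2, cFsB2, cFBs2, cFsX2, cFsD2, cFsDD2, nFsc2, nFB2_5, nFB2, nFX2_5, nFX2, nFD2_3, nFD2, nFsc3, nFB3_5, nFB3, nFX3_5, nFX3, nFD3, nFsc4, nFB4_5, nFB4, nFX4_5, nFX4, nFD4, l12F, laF, lbF, l1F, l2F, cvF1, cvF2, ndF2, ndF3, ndF4, pF, pNc0, pNkc, pNjc, pNcc, pNK11, pNK01, cNBs1, cNBs2, nNB2_6,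 nNB2, nNB3_6, nNB3, nNB4_6, nNB4, umo, us1, us2, us3, uC11, uC01, kNu1_0, kNu1_0g, l12N, cvN1, cvN2, ndN2, ndN3, ndN4, pN, ul1, ul2, ul3, qN, pf_cons, pf_nil]
    push_cast
    ring
theorem bsF {x : ℝ} (hx : ((1033476505 : ℕ) : ℝ) / S ≤ x) (hx' : x ≤ (((1033476505 : ℕ) : ℝ) + (6710887 : ℕ)) / S) : Bs PP tK tL pcB true 3 pF 20971520 1572864 x :=
  ⟨sideB hx hx', fitF, tabF, (xr hx hx').1, (xr hx hx').2, hD, hD3⟩
theorem mo0 {x : ℝ} (h0x : 0 ≤ x) (h1x : x ≤ 1) : 0 ≤ mog.v x := by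
  rw [mo_v]
  have h1 := mun_nn 3 x
  have h2 := (esg_rng h0x h1x).1
  positivity
theorem bsN {x : ℝ} (hx : ((1033476505 : ℕ) : ℝ) / S ≤ x) (hx' : x ≤ (((1033476505 : ℕ) : ℝ) + (6710887 : ℕ)) / S) : BsW PP tK tL tU pcB 3 pN qN (eng.v x) (mog.v x) 20971520 1572864 x :=
  ⟨sideB hx hx', pinU hx hx', fitN, tabN, tabU, en_pos (xr hx hx').1.le, rfl, mo0 (xr hx hx').1.le (xr hx hx').2.le, (xr hx hx').1, (xr hx hx').2, hD, hD3⟩

end Pool.Agent.Strip051.G.I9625_9688.Tab.DG
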