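import Pool.Agent.Strip051.G.I9625_9688.Fs

/-! # Certificates at the floor (generated) -/

set_option linter.all false
set_option maxRecDepth 100000

namespace Pool.Agent.Strip051.G.I9625_9688.Tab

open Pool.Agent.Strip051.PB

theorem cA_m00 : CertNd 0 536870912 1033476505 6710887 (ftMono true 0 mZ) [] ndB0q0 cZ :=
  certNd (T := (ftMono true 0 mZ)) (L := []) (P1 := 0) (W1 := 536870912) (P3 := 1033476505) (W3 := 6710887) (n := ndB0q0) (c := cZ)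
    ⟨T.a (T.a (T.a (T.l 0) (T.l 0)) (T.l 0)) (T.a (T.l 0) (T.l 0)),
      by decide +kernel⟩
theorem cA_m01 : CertNd 536870912 536870912 1033476505 6710887 (ftMono true 1 mZ) [] ndB0q1 cZ :=
  certNd (T := (ftMono true 1 mZ)) (L := []) (P1 := 536870912) (W1 := 536870912) (P3 := 1033476505) (W3 := 6710887) (n := ndB0q1) (c := cZ)
    ⟨T.a (T.l 0) (T.a (T.l 0) (T.a (T.l 0) (T.a (T.l 0) (T.l 0)))),
      by decide +kernel⟩
theorem cA_g00 : CertGe 0 13958643 1033476505 6710887 true [] (((2 : ℕ) : ℝ) / ((1 : ℕ) : ℝ)) 0 ((0 : ℕ) : ℝ)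
    (((2 : ℕ) : ℝ) / 2) mZ ndB0q0 cZ :=
  certGe (z := true) (L := []) (P1 := 0) (W1 := 13958643) (P3 := 1033476505) (W3 := 6710887) (oa := 2) (ob := 1)
    (q := 0) (bb := 0) (hB := 2) (M := mZ) (n := ndB0q0) (c := cZ) (sX := c1g_sf) (sK := kf0q0_sf)
    (sL := l0q0_sf) ⟨T.l 0,
      by decide +kernel⟩
theorem cA_w00a : CertNd 13958643 522912269 1033476505 6710887 (ftWall true 0 mZ 1 1) [] ndB0q0 cZ :=
  certNd (T := (ftWall true 0 mZ 1 1)) (L := []) (P1 := 13958643) (W1 := 522912269) (P3 := 1033476505) (W3 := 6710887) (n := ndB0q0) (c := cZ)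
    ⟨T.a (T.a (T.a (T.a (T.l 0) (T.l 0)) (T.a (T.l 0) (T.l 0))) (T.a (T.l 0) (T.a (T.l 0) (T.l 0)))) (T.a (T.a (T.l 0) (T.l 0)) (T.a (T.l 0) (T.l 0))),
      by decide +kernel⟩
theorem cA_w01a : CertNd 536870912 492847497 1033476505 6710887 (ftWall true 1 mZ 1 1) [] ndB0q1 cZ :=
  certNd (T := (ftWall true 1 mZ 1 1)) (L := []) (P1 := 536870912) (W1 := 492847497) (P3 := 1033476505) (W3 := 6710887) (n := ndB0q1) (c := cZ)
    ⟨T.a (T.a (T.a (T.l 0) (T.l 0)) (T.a (T.l 0) (T.l 0))) (T.a (T.a (T.l 0) (T.a (T.l 0) (T.l 0))) (T.a (T.a (T.a (T.l 0) (T.a (T.l 0) (T.l 0))) (T.a (T.a (T.c (T.l 0) (T.l 0)) (T.c (T.l 0) (T.l 0))) (T.a (T.a (T.l 0) (T.l 0)) (T.l 0)))) (T.a (T.a (T.a (T.l 0) (T.c (T.l 0) (T.l 0))) (T.a (T.c (T.a (T.l 0) (T.c (T.a (T.l 0) (T.l 0)) (T.l 0))) (T.l 0)) (T.a (T.c (T.c (T.a (T.l 0) (T.l 0)) (T.l 0)) (T.l 0)) (T.c (T.a (T.c (T.l 0) (T.l 0)) (T.l 0)) (T.l 0)))))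 (T.a (T.a (T.a (T.c (T.l 0) (T.l 0)) (T.c (T.l 0) (T.l 0))) (T.a (T.l 0) (T.l 0))) (T.a (T.a (T.l 0) (T.l 0)) (T.a (T.c (T.l 0) (T.l 0)) (T.c (T.a (T.l 0) (T.c (T.l 0) (T.l 0))) (T.l 0)))))))),
      by decide +kernel⟩
theorem cA_w01b : CertNd 1046898278 18253612 1033476505 6710887 (ftWall true 1 mZ 1 1) [] ndB0q1 cZ :=
  certNd (T := (ftWall true 1 mZ 1 1)) (L := []) (P1 := 1046898278) (W1 := 18253612) (P3 := 1033476505) (W3 := 6710887) (n := ndB0q1) (c := cZ)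
    ⟨T.a (T.c (T.a (T.c (T.a (T.c (T.a (T.l 0) (T.l 0)) (T.a (T.l 0) (T.l 0))) (T.c (T.a (T.l 0) (T.l 0)) (T.a (T.l 0) (T.l 0)))) (T.a (T.c (T.a (T.c (T.l 0) (T.l 0)) (T.c (T.l 0) (T.l 0))) (T.a (T.c (T.l 0) (T.l 0)) (T.c (T.l 0) (T.l 0)))) (T.c (T.a (T.l 0) (T.l 0)) (T.a (T.l 0) (T.l 0))))) (T.c (T.a (T.c (T.l 0) (T.l 0)) (T.l 0)) (T.a (T.c (T.l 0) (T.a (T.l 0) (T.l 0))) (T.c (T.l 0) (T.l 0))))) (T.a (T.c (T.a (T.c (T.a (T.c (T.l 0) (T.l 0)) (T.c (T.l 0) (T.l 0))) (T.a (T.c (T.l 0) (T.a (T.l 0) (T.l 0))) (T.c (T.l 0) (T.l 0)))) (T.c (T.a (T.c (T.l 0) (T.l 0)) (T.l 0)) (T.a (T.c (T.l 0) (T.l 0)) (T.l 0)))) (T.a (T.c (T.a (T.c (T.a (T.l 0) (T.l 0)) (T.a (T.l 0) (T.l 0))) (T.c (T.a (T.l 0) (T.l 0)) (T.a (T.l 0) (T.l 0)))) (T.a (T.c (T.a (T.l 0) (T.l 0)) (T.a (T.l 0) (T.l 0))) (T.c (T.a (T.l 0) (T.l 0)) (T.a (T.l 0) (T.l 0))))) (T.c (T.a (T.c (T.l 0) (T.l 0)) (T.c (T.l 0) (T.l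 0))) (T.a (T.c (T.l 0) (T.a (T.l 0) (T.l 0))) (T.c (T.l 0) (T.l 0)))))) (T.c (T.a (T.c (T.a (T.l 0) (T.l 0)) (T.a (T.l 0) (T.l 0))) (T.c (T.l 0) (T.l 0))) (T.a (T.c (T.a (T.l 0) (T.l 0)) (T.a (T.l 0) (T.l 0))) (T.c (T.l 0) (T.l 0)))))) (T.a (T.c (T.a (T.c (T.l 0) (T.l 0)) (T.l 0)) (T.c (T.a (T.l 0) (T.l 0)) (T.a (T.l 0) (T.l 0)))) (T.c (T.c (T.l 0) (T.l 0)) (T.c (T.l 0) (T.l 0)))),
      by decide +kernel⟩
theorem cA_g01 : CertGe 1065151890 8589934 1033476505 6710887 true [] (((2 : ℕ) : ℝ) / ((1 : ℕ) : ℝ)) 1 ((1 : ℕ) : ℝ)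
    (((1 : ℕ) : ℝ) / 2) mZ ndB0q1 cZ :=
  certGe (z := true) (L := []) (P1 := 1065151890) (W1 := 8589934) (P3 := 1033476505) (W3 := 6710887) (oa := 2) (ob := 1)
    (q := 1) (bb := 1) (hB := 1) (M := mZ) (n := ndB0q1) (c := cZ) (sX := c1g_sf) (sK := kf0q1_sf)
    (sL := l0q1_sf) ⟨T.l 0,
      by decide +kernel⟩
theorem cA_tl : CertTg 1029718409 17179869 1033476505 6710887 (ftTf true dlg) [⟨6, 0⟩] :=
  certTg (T := (ftTf true dlg)) (L := [⟨6, 0⟩]) (P1 := 1029718409) (W1 := 17179869) (P3 := 1033476505) (W3 := 6710887)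
    ⟨T.l 0,
      by decide +kernel⟩
theorem cA_th : CertTg 1029718409 17179869 1033476505 6710887 (ftTf false dlg) [⟨5, 0⟩] :=
  certTg (T := (ftTf false dlg)) (L := [⟨5, 0⟩]) (P1 := 1029718409) (W1 := 17179869) (P3 := 1033476505) (W3 := 6710887)
    ⟨T.l 0,
      by decide +kernel⟩
theorem cA_m10 : CertNd 0 11158653 1033476505 6710887 (ftMono true 0 mZ) [] ndB1q0 cZ :=
  certNd (T := (ftMono true 0 mZ)) (L := []) (P1 := 0) (W1 := 11158653) (P3 := 1033476505) (W3 := 6710887) (n := ndB1q0) (c := cZ)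
    ⟨T.l 0,
      by decide +kernel⟩
theorem cA_g10 : CertGe 0 6442450 1033476505 6710887 true [] (((2 : ℕ) : ℝ) / ((1 : ℕ) : ℝ)) 0 ((0 : ℕ) : ℝ)
    (((2 : ℕ) : ℝ) / 2) mZ ndB1q0 cZ :=
  certGe (z := true) (L := []) (P1 := 0) (W1 := 6442450) (P3 := 1033476505) (W3 := 6710887) (oa := 2) (ob := 1)
    (q := 0) (bb := 0) (hB := 2) (M := mZ) (n := ndB1q0) (c := cZ) (sX := cv1m_sf) (sK := kf1q0_sf)
    (sL := l1q0_sf) ⟨T.l 0,
      by decide +kernel⟩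
theorem cA_w10 : CertNd 6442450 530428462 1033476505 6710887 (ftWall true 0 mZ 1 1) [] ndB1q0 cZ :=
  certNd (T := (ftWall true 0 mZ 1 1)) (L := []) (P1 := 6442450) (W1 := 530428462) (P3 := 1033476505) (W3 := 6710887) (n := ndB1q0) (c := cZ)
    ⟨T.a (T.a (T.a (T.l 0) (T.l 0)) (T.l 0)) (T.l 0),
      by decide +kernel⟩
theorem cA_w11 : CertNd 536870912 536870912 1033476505 6710887 (ftWall true 1 mZ 1 1) [] ndB1q1 cZ :=
  certNd (T := (ftWall true 1 mZ 1 1)) (L := []) (P1 := 536870912) (W1 := 536870912) (P3 := 1033476505) (W3 := 6710887) (n := ndB1q1) (c := cZ)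
    ⟨T.a (T.l 0) (T.a (T.l 0) (T.a (T.l 0) (T.a (T.l 0) (T.a (T.l 0) (T.l 0))))),
      by decide +kernel⟩
theorem cA_m20 : CertNd 0 11158653 1033476505 6710887 (ftMono true 0 mZ) [] ndB2q0 cZ :=
  certNd (T := (ftMono true 0 mZ)) (L := []) (P1 := 0) (W1 := 11158653) (P3 := 1033476505) (W3 := 6710887) (n := ndB2q0) (c := cZ)
    ⟨T.l 0,
      by decide +kernel⟩
theorem cA_g20 : CertGe 0 6442450 1033476505 6710887 true [] (((2 : ℕ) : ℝ) / ((1 : ℕ) : ℝ)) 0 ((0 : ℕ) : ℝ)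
    (((2 : ℕ) : ℝ) / 2) mZ ndB2q0 cZ :=
  certGe (z := true) (L := []) (P1 := 0) (W1 := 6442450) (P3 := 1033476505) (W3 := 6710887) (oa := 2) (ob := 1)
    (q := 0) (bb := 0) (hB := 2) (M := mZ) (n := ndB2q0) (c := cZ) (sX := cv2m_sf) (sK := kf2q0_sf)
    (sL := l2q0_sf) ⟨T.l 0,
      by decide +kernel⟩
theorem cA_w20 : CertNd 6442450 530428462 1033476505 6710887 (ftWall true 0 mZ 1 1) [] ndB2q0 cZ :=
  certNd (T := (ftWall true 0 mZ 1 1)) (L := []) (P1 := 6442450) (W1 := 530428462) (P3 := 1033476505) (W3 := 6710887) (n := ndB2q0) (c := cZ)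
    ⟨T.a (T.a (T.a (T.a (T.l 0) (T.l 0)) (T.l 0)) (T.l 0)) (T.l 0),
      by decide +kernel⟩
theorem cA_w21 : CertNd 536870912 536870912 1033476505 6710887 (ftWall true 1 mZ 1 1) [] ndB2q1 cZ :=
  certNd (T := (ftWall true 1 mZ 1 1)) (L := []) (P1 := 536870912) (W1 := 536870912) (P3 := 1033476505) (W3 := 6710887) (n := ndB2q1) (c := cZ)
    ⟨T.a (T.l 0) (T.a (T.l 0) (T.a (T.l 0) (T.a (T.l 0) (T.a (T.l 0) (T.l 0))))),
      by decide +kernel⟩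
theorem cA_f30 : CertNd 0 11158653 1033476505 6710887 (ftFlatG true 0 mZ 1 1 11) [] ndB3q0 cZ :=
  certNd (T := (ftFlatG true 0 mZ 1 1 11)) (L := []) (P1 := 0) (W1 := 11158653) (P3 := 1033476505) (W3 := 6710887) (n := ndB3q0) (c := cZ)
    ⟨T.l 0,
      by decide +kernel⟩
theorem cA_l30 : CertNd 0 11158653 1033476505 6710887 (ftWall true 0 mZ 1 1) [⟨3, 1113470272⟩] ndB3q0 cZ :=
  certNd (T := (ftWall true 0 mZ 1 1)) (L := [⟨3, 1113470272⟩]) (P1 := 0) (W1 := 11158653) (P3 := 1033476505) (W3 := 6710887) (n := ndB3q0) (c := cZ)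
    ⟨T.a (T.l 0) (T.l 0),
      by decide +kernel⟩
theorem cA_w30 : CertNd 11158652 525712260 1033476505 6710887 (ftWall true 0 mZ 1 1) [] ndB3q0 cZ :=
  certNd (T := (ftWall true 0 mZ 1 1)) (L := []) (P1 := 11158652) (W1 := 525712260) (P3 := 1033476505) (W3 := 6710887) (n := ndB3q0) (c := cZ)
    ⟨T.a (T.a (T.a (T.a (T.a (T.a (T.l 0) (T.l 0)) (T.l 0)) (T.a (T.l 0) (T.l 0))) (T.l 0)) (T.l 0)) (T.l 0),
      by decide +kernel⟩
theorem cA_w31 : CertNd 536870912 536870912 1033476505 6710887 (ftWall true 1 mZ 1 1) [] ndB3q1 cZ :=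
  certNd (T := (ftWall true 1 mZ 1 1)) (L := []) (P1 := 536870912) (W1 := 536870912) (P3 := 1033476505) (W3 := 6710887) (n := ndB3q1) (c := cZ)
    ⟨T.a (T.l 0) (T.a (T.l 0) (T.a (T.l 0) (T.a (T.l 0) (T.a (T.l 0) (T.l 0))))),
      by decide +kernel⟩
theorem cA_w32 : CertNd 1073741824 166215235 1033476505 6710887 (ftWall true 2 mZ 1 1) [⟨4, 0⟩] ndB3q2 cZ :=
  certNd (T := (ftWall true 2 mZ 1 1)) (L := [⟨4, 0⟩]) (P1 := 1073741824) (W1 := 166215235) (P3 := 1033476505) (W3 := 6710887) (n := ndB3q2) (c := cZ)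
    ⟨T.a (T.l 0) (T.l 0),
      by decide +kernel⟩
theorem cA_f40 : CertNd 0 11158653 1033476505 6710887 (ftFlatG true 0 mZ 1 1 11) [] ndB4q0 cZ :=
  certNd (T := (ftFlatG true 0 mZ 1 1 11)) (L := []) (P1 := 0) (W1 := 11158653) (P3 := 1033476505) (W3 := 6710887) (n := ndB4q0) (c := cZ)
    ⟨T.l 0,
      by decide +kernel⟩
theorem cA_l40 : CertNd 0 11158653 1033476505 6710887 (ftWall true 0 mZ 1 1) [⟨3, 1113470272⟩] ndB4q0 cZ :=
  certNd (T := (ftWall true 0 mZ 1 1)) (L := [⟨3, 1113470272⟩]) (P1 := 0) (W1 := 11158653) (P3 := 1033476505) (W3 := 6710887) (n := ndB4q0) (c := cZ)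
    ⟨T.l 1,
      by decide +kernel⟩
theorem cA_w40 : CertNd 11158652 525712260 1033476505 6710887 (ftWall true 0 mZ 1 1) [] ndB4q0 cZ :=
  certNd (T := (ftWall true 0 mZ 1 1)) (L := []) (P1 := 11158652) (W1 := 525712260) (P3 := 1033476505) (W3 := 6710887) (n := ndB4q0) (c := cZ)
    ⟨T.a (T.a (T.a (T.l 0) (T.l 0)) (T.l 0)) (T.l 0),
      by decide +kernel⟩
theorem cA_w41 : CertNd 536870912 536870912 1033476505 6710887 (ftWall true 1 mZ 1 1) [] ndB4q1 cZ :=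
  certNd (T := (ftWall true 1 mZ 1 1)) (L := []) (P1 := 536870912) (W1 := 536870912) (P3 := 1033476505) (W3 := 6710887) (n := ndB4q1) (c := cZ)
    ⟨T.a (T.l 0) (T.a (T.l 0) (T.a (T.l 0) (T.a (T.l 0) (T.a (T.l 0) (T.l 0))))),
      by decide +kernel⟩
theorem cA_w42 : CertNd 1073741824 166215235 1033476505 6710887 (ftWall true 2 mZ 1 1) [⟨4, 0⟩] ndB4q2 cZ :=
  certNd (T := (ftWall true 2 mZ 1 1)) (L := [⟨4, 0⟩]) (P1 := 1073741824) (W1 := 166215235) (P3 := 1033476505) (W3 := 6710887) (n := ndB4q2) (c := cZ)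
    ⟨T.a (T.l 0) (T.l 0),
      by decide +kernel⟩
theorem cA_f50 : CertNd 0 11158653 1033476505 6710887 (ftFlatG true 0 mZ 1 1 11) [] ndB5q0 cZ :=
  certNd (T := (ftFlatG true 0 mZ 1 1 11)) (L := []) (P1 := 0) (W1 := 11158653) (P3 := 1033476505) (W3 := 6710887) (n := ndB5q0) (c := cZ)
    ⟨T.l 0,
      by decide +kernel⟩
theorem cA_l50 : CertNd 0 11158653 1033476505 6710887 (ftWall true 0 mZ 1 1) [⟨3, 1113470272⟩] ndB5q0 cZ :=
  certNd (T := (ftWall true 0 mZ 1 1)) (L := [⟨3, 1113470272⟩]) (P1 := 0) (W1 := 11158653) (P3 := 1033476505) (W3 := 6710887) (n := ndB5q0) (c := cZ)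
    ⟨T.l 0,
      by decide +kernel⟩
theorem cA_w50 : CertNd 11158652 525712260 1033476505 6710887 (ftWall true 0 mZ 1 1) [] ndB5q0 cZ :=
  certNd (T := (ftWall true 0 mZ 1 1)) (L := []) (P1 := 11158652) (W1 := 525712260) (P3 := 1033476505) (W3 := 6710887) (n := ndB5q0) (c := cZ)
    ⟨T.a (T.a (T.l 0) (T.l 0)) (T.l 0),
      by decide +kernel⟩
theorem cA_w51 : CertNd 536870912 536870912 1033476505 6710887 (ftWall true 1 mZ 1 1) [] ndB5q1 cZ :=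
  certNd (T := (ftWall true 1 mZ 1 1)) (L := []) (P1 := 536870912) (W1 := 536870912) (P3 := 1033476505) (W3 := 6710887) (n := ndB5q1) (c := cZ)
    ⟨T.a (T.l 0) (T.a (T.l 0) (T.a (T.l 0) (T.a (T.l 0) (T.a (T.l 0) (T.l 0))))),
      by decide +kernel⟩
theorem cA_w52 : CertNd 1073741824 166215235 1033476505 6710887 (ftWall true 2 mZ 1 1) [⟨4, 0⟩] ndB5q2 cZ :=
  certNd (T := (ftWall true 2 mZ 1 1)) (L := [⟨4, 0⟩]) (P1 := 1073741824) (W1 := 166215235) (P3 := 1033476505) (W3 := 6710887) (n := ndB5q2) (c := cZ)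
    ⟨T.a (T.l 0) (T.l 0),
      by decide +kernel⟩
theorem cA_ll : CertSd 0 11158653 1033476505 6710887 (ftWall true 0 mZ 1 1) [] idF (cnF 1037 1000) pcB0 dZ :=
  certSd (T := (ftWall true 0 mZ 1 1)) (L := []) (P1 := 0) (W1 := 11158653) (P3 := 1033476505) (W3 := 6710887) (Y := idF) (X := (cnF 1037 1000))
    (pc := pcB0) (c := dZ) ⟨T.a (T.a (T.c (T.l 0) (T.c (T.l 0) (T.l 0))) (T.l 0)) (T.l 0),
      by decide +kernel⟩
theorem cA_st : CertSt 1073741824 24696061 1033476505 6710887 true [] (((2 : ℕ) : ℝ) / ((1 : ℕ) : ℝ)) mZ ndB2q2 cZ ndB3q2 cZ :=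
  certSt (z := true) (L := []) (P1 := 1073741824) (W1 := 24696061) (P3 := 1033476505) (W3 := 6710887) (oa := 2) (ob := 1)
    (M := mZ) (n := ndB2q2) (c := cZ) (n' := ndB3q2) (c' := cZ) (sX := cv2p_sf) (sK := kf2q2_sf) (sL := l2q2_sf)
    ⟨T.l 0,
      by decide +kernel⟩
theorem cA_sm : CertSd 497993134 38877778 1033476505 6710887 (ftMono true 2 mZ) [] ygF xsF pcB2 dZ :=
  certSd (T := (ftMono true 2 mZ)) (L := []) (P1 := 497993134) (W1 := 38877778) (P3 := 1033476505) (W3 := 6710887) (Y := ygF) (X := xsF)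
    (pc := pcB2) (c := dZ) ⟨T.l 0,
      by decide +kernel⟩
theorem cA_sw : CertSd 0 497993138 1033476505 6710887 (ftWall true 2 mZ 1 1) [] ygF xsF pcB2 dZ :=
  certSd (T := (ftWall true 2 mZ 1 1)) (L := []) (P1 := 0) (W1 := 497993138) (P3 := 1033476505) (W3 := 6710887) (Y := ygF) (X := xsF)
    (pc := pcB2) (c := dZ) ⟨T.a (T.l 0) (T.a (T.l 0) (T.a (T.l 0) (T.l 0))),
      by decide +kernel⟩
theorem cA_h0_11 : CertNd 991880209 80590268 1033476505 6710887 (ftHighG true 1 mZ 1 1 22 0 1037) [] ndB1q1 cZ :=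
  certNd (T := (ftHighG true 1 mZ 1 1 22 0 1037)) (L := []) (P1 := 991880209) (W1 := 80590268) (P3 := 1033476505) (W3 := 6710887) (n := ndB1q1) (c := cZ)
    ⟨T.a (T.l 0) (T.a (T.l 0) (T.l 0)),
      by decide +kernel⟩
theorem cA_h0_21 : CertNd 991880209 80590268 1033476505 6710887 (ftHighG true 1 mZ 1 1 22 0 1037) [] ndB2q1 cZ :=
  certNd (T := (ftHighG true 1 mZ 1 1 22 0 1037)) (L := []) (P1 := 991880209) (W1 := 80590268) (P3 := 1033476505) (W3 := 6710887) (n := ndB2q1) (c := cZ)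
    ⟨T.a (T.l 0) (T.a (T.l 0) (T.l 0)),
      by decide +kernel⟩
theorem cA_h0_31 : CertNd 991880209 80590268 1033476505 6710887 (ftHighG true 1 mZ 1 1 22 0 1037) [] ndB3q1 cZ :=
  certNd (T := (ftHighG true 1 mZ 1 1 22 0 1037)) (L := []) (P1 := 991880209) (W1 := 80590268) (P3 := 1033476505) (W3 := 6710887) (n := ndB3q1) (c := cZ)
    ⟨T.a (T.l 0) (T.a (T.l 0) (T.l 0)),
      by decide +kernel⟩
theorem cA_h0_41 : CertNd 991880209 80590268 1033476505 6710887 (ftHighG true 1 mZ 1 1 22 0 1037) [] ndB4q1 cZ :=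
  certNd (T := (ftHighG true 1 mZ 1 1 22 0 1037)) (L := []) (P1 := 991880209) (W1 := 80590268) (P3 := 1033476505) (W3 := 6710887) (n := ndB4q1) (c := cZ)
    ⟨T.a (T.l 0) (T.a (T.l 0) (T.l 0)),
      by decide +kernel⟩
theorem cA_h0_51 : CertNd 991880209 80590268 1033476505 6710887 (ftHighG true 1 mZ 1 1 22 0 1037) [] ndB5q1 cZ :=
  certNd (T := (ftHighG true 1 mZ 1 1 22 0 1037)) (L := []) (P1 := 991880209) (W1 := 80590268) (P3 := 1033476505) (W3 := 6710887) (n := ndB5q1) (c := cZ)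
    ⟨T.a (T.l 0) (T.a (T.l 0) (T.l 0)),
      by decide +kernel⟩
theorem cA_h1_01 : CertNd 1061311824 12430000 1033476505 6710887 (ftHighG true 1 mZ 1 1 22 660 1037) [] ndB0q1 cZ :=
  certNd (T := (ftHighG true 1 mZ 1 1 22 660 1037)) (L := []) (P1 := 1061311824) (W1 := 12430000) (P3 := 1033476505) (W3 := 6710887) (n := ndB0q1) (c := cZ)
    ⟨T.c (T.l 0) (T.l 0),
      by decide +kernel⟩
theorem cA_h1_11 : CertNd 1061311824 12430000 1033476505 6710887 (ftHighG true 1 mZ 1 1 22 660 1037) [] ndB1q1 cZ :=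
  certNd (T := (ftHighG true 1 mZ 1 1 22 660 1037)) (L := []) (P1 := 1061311824) (W1 := 12430000) (P3 := 1033476505) (W3 := 6710887) (n := ndB1q1) (c := cZ)
    ⟨T.l 0,
      by decide +kernel⟩
theorem cA_h1_21 : CertNd 1061311824 12430000 1033476505 6710887 (ftHighG true 1 mZ 1 1 22 660 1037) [] ndB2q1 cZ :=
  certNd (T := (ftHighG true 1 mZ 1 1 22 660 1037)) (L := []) (P1 := 1061311824) (W1 := 12430000) (P3 := 1033476505) (W3 := 6710887) (n := ndB2q1) (c := cZ)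
    ⟨T.l 0,
      by decide +kernel⟩
theorem cA_h1_31 : CertNd 1061311824 12430000 1033476505 6710887 (ftHighG true 1 mZ 1 1 22 660 1037) [] ndB3q1 cZ :=
  certNd (T := (ftHighG true 1 mZ 1 1 22 660 1037)) (L := []) (P1 := 1061311824) (W1 := 12430000) (P3 := 1033476505) (W3 := 6710887) (n := ndB3q1) (c := cZ)
    ⟨T.l 0,
      by decide +kernel⟩
theorem cA_h1_41 : CertNd 1061311824 12430000 1033476505 6710887 (ftHighG true 1 mZ 1 1 22 660 1037) [] ndB4q1 cZ :=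
  certNd (T := (ftHighG true 1 mZ 1 1 22 660 1037)) (L := []) (P1 := 1061311824) (W1 := 12430000) (P3 := 1033476505) (W3 := 6710887) (n := ndB4q1) (c := cZ)
    ⟨T.l 0,
      by decide +kernel⟩
theorem cA_h1_51 : CertNd 1061311824 12430000 1033476505 6710887 (ftHighG true 1 mZ 1 1 22 660 1037) [] ndB5q1 cZ :=
  certNd (T := (ftHighG true 1 mZ 1 1 22 660 1037)) (L := []) (P1 := 1061311824) (W1 := 12430000) (P3 := 1033476505) (W3 := 6710887) (n := ndB5q1) (c := cZ)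
    ⟨T.l 0,
      by decide +kernel⟩
theorem cA_h1_02 : CertNd 0 536870912 1033476505 6710887 (ftHighG true 2 mZ 1 1 22 660 1037) [⟨0, 1061311824⟩, ⟨1, 1145621643⟩] ndB0q2 cZ :=
  certNd (T := (ftHighG true 2 mZ 1 1 22 660 1037)) (L := [⟨0, 1061311824⟩, ⟨1, 1145621643⟩]) (P1 := 0) (W1 := 536870912) (P3 := 1033476505) (W3 := 6710887) (n := ndB0q2) (c := cZ)
    ⟨T.a (T.l 3) (T.a (T.l 3) (T.a (T.a (T.a (T.a (T.l 0) (T.l 0)) (T.l 0)) (T.a (T.l 0) (T.l 0))) (T.a (T.l 0) (T.l 0)))),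
      by decide +kernel⟩
theorem cA_h1_12 : CertNd 1073741824 71879819 1033476505 6710887 (ftHighG true 2 mZ 1 1 22 660 1037) [] ndB1q2 cZ :=
  certNd (T := (ftHighG true 2 mZ 1 1 22 660 1037)) (L := []) (P1 := 1073741824) (W1 := 71879819) (P3 := 1033476505) (W3 := 6710887) (n := ndB1q2) (c := cZ)
    ⟨T.a (T.l 0) (T.l 0),
      by decide +kernel⟩
theorem cA_h1_22 : CertNd 1073741824 71879819 1033476505 6710887 (ftHighG true 2 mZ 1 1 22 660 1037) [] ndB2q2 cZ :=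
  certNd (T := (ftHighG true 2 mZ 1 1 22 660 1037)) (L := []) (P1 := 1073741824) (W1 := 71879819) (P3 := 1033476505) (W3 := 6710887) (n := ndB2q2) (c := cZ)
    ⟨T.l 0,
      by decide +kernel⟩
theorem cA_h1_32 : CertNd 1073741824 71879819 1033476505 6710887 (ftHighG true 2 mZ 1 1 22 660 1037) [] ndB3q2 cZ :=
  certNd (T := (ftHighG true 2 mZ 1 1 22 660 1037)) (L := []) (P1 := 1073741824) (W1 := 71879819) (P3 := 1033476505) (W3 := 6710887) (n := ndB3q2) (c := cZ)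
    ⟨T.l 0,
      by decide +kernel⟩
theorem cA_h1_42 : CertNd 1073741824 71879819 1033476505 6710887 (ftHighG true 2 mZ 1 1 22 660 1037) [] ndB4q2 cZ :=
  certNd (T := (ftHighG true 2 mZ 1 1 22 660 1037)) (L := []) (P1 := 1073741824) (W1 := 71879819) (P3 := 1033476505) (W3 := 6710887) (n := ndB4q2) (c := cZ)
    ⟨T.l 0,
      by decide +kernel⟩
theorem cA_h1_52 : CertNd 1073741824 71879819 1033476505 6710887 (ftHighG true 2 mZ 1 1 22 660 1037) [] ndB5q2 cZ :=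
  certNd (T := (ftHighG true 2 mZ 1 1 22 660 1037)) (L := []) (P1 := 1073741824) (W1 := 71879819) (P3 := 1033476505) (W3 := 6710887) (n := ndB5q2) (c := cZ)
    ⟨T.l 0,
      by decide +kernel⟩
theorem cA_h2_02 : CertNd 0 536870912 1033476505 6710887 (ftHighG true 2 mZ 1 1 22 1060 1037) [⟨0, 1134462989⟩, ⟨1, 2118904099⟩] ndB0q2 cZ :=
  certNd (T := (ftHighG true 2 mZ 1 1 22 1060 1037)) (L := [⟨0, 1134462989⟩, ⟨1, 2118904099⟩]) (P1 := 0) (W1 := 536870912) (P3 := 1033476505) (W3 := 6710887) (n := ndB0q2) (c := cZ)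
    ⟨T.a (T.l 0) (T.a (T.a (T.l 0) (T.l 0)) (T.a (T.a (T.l 0) (T.l 0)) (T.l 1))),
      by decide +kernel⟩
theorem cA_h2_12 : CertNd 1134462989 476149747 1033476505 6710887 (ftHighG true 2 mZ 1 1 22 1060 1037) [] ndB1q2 cZ :=
  certNd (T := (ftHighG true 2 mZ 1 1 22 1060 1037)) (L := []) (P1 := 1134462989) (W1 := 476149747) (P3 := 1033476505) (W3 := 6710887) (n := ndB1q2) (c := cZ)
    ⟨T.a (T.a (T.a (T.l 0) (T.a (T.l 0) (T.a (T.l 0) (T.l 0)))) (T.l 0)) (T.l 0),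
      by decide +kernel⟩
theorem cA_h2_22 : CertNd 1134462989 476149747 1033476505 6710887 (ftHighG true 2 mZ 1 1 22 1060 1037) [] ndB2q2 cZ :=
  certNd (T := (ftHighG true 2 mZ 1 1 22 1060 1037)) (L := []) (P1 := 1134462989) (W1 := 476149747) (P3 := 1033476505) (W3 := 6710887) (n := ndB2q2) (c := cZ)
    ⟨T.a (T.a (T.a (T.l 0) (T.a (T.l 0) (T.a (T.l 0) (T.l 0)))) (T.l 0)) (T.l 0),
      by decide +kernel⟩
theorem cA_h2_32 : CertNd 1134462989 476149747 1033476505 6710887 (ftHighG true 2 mZ 1 1 22 1060 1037) [] ndB3q2 cZ :=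
  certNd (T := (ftHighG true 2 mZ 1 1 22 1060 1037)) (L := []) (P1 := 1134462989) (W1 := 476149747) (P3 := 1033476505) (W3 := 6710887) (n := ndB3q2) (c := cZ)
    ⟨T.a (T.a (T.l 0) (T.l 0)) (T.l 0),
      by decide +kernel⟩
theorem cA_h2_42 : CertNd 1134462989 476149747 1033476505 6710887 (ftHighG true 2 mZ 1 1 22 1060 1037) [] ndB4q2 cZ :=
  certNd (T := (ftHighG true 2 mZ 1 1 22 1060 1037)) (L := []) (P1 := 1134462989) (W1 := 476149747) (P3 := 1033476505) (W3 := 6710887) (n := ndB4q2) (c := cZ)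
    ⟨T.a (T.l 0) (T.l 0),
      by decide +kernel⟩
theorem cA_h2_52 : CertNd 1134462989 476149747 1033476505 6710887 (ftHighG true 2 mZ 1 1 22 1060 1037) [] ndB5q2 cZ :=
  certNd (T := (ftHighG true 2 mZ 1 1 22 1060 1037)) (L := []) (P1 := 1134462989) (W1 := 476149747) (P3 := 1033476505) (W3 := 6710887) (n := ndB5q2) (c := cZ)
    ⟨T.a (T.a (T.a (T.a (T.l 0) (T.l 0)) (T.l 0)) (T.a (T.l 0) (T.l 0))) (T.a (T.l 0) (T.l 0)),
      by decide +kernel⟩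
theorem cA_h2_13 : CertNd 1610612736 508291363 1033476505 6710887 (ftHighG true 3 mZ 1 1 22 1060 1037) [] ndB1q3 cZ :=
  certNd (T := (ftHighG true 3 mZ 1 1 22 1060 1037)) (L := []) (P1 := 1610612736) (W1 := 508291363) (P3 := 1033476505) (W3 := 6710887) (n := ndB1q3) (c := cZ)
    ⟨T.a (T.l 0) (T.a (T.l 0) (T.l 0)),
      by decide +kernel⟩
theorem cA_h2_23 : CertNd 1610612736 508291363 1033476505 6710887 (ftHighG true 3 mZ 1 1 22 1060 1037) [] ndB2q3 cZ :=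
  certNd (T := (ftHighG true 3 mZ 1 1 22 1060 1037)) (L := []) (P1 := 1610612736) (W1 := 508291363) (P3 := 1033476505) (W3 := 6710887) (n := ndB2q3) (c := cZ)
    ⟨T.a (T.l 0) (T.a (T.l 0) (T.l 0)),
      by decide +kernel⟩
theorem cA_h2_33 : CertNd 0 1230186008 1033476505 6710887 (ftHighG true 3 mZ 1 1 22 1060 1037) [⟨0, 1134462989⟩, ⟨1, 2118904099⟩] ndB3q3 cZ :=
  certNd (T := (ftHighG true 3 mZ 1 1 22 1060 1037)) (L := [⟨0, 1134462989⟩, ⟨1, 2118904099⟩]) (P1 := 0) (W1 := 1230186008) (P3 := 1033476505) (W3 := 6710887) (n := ndB3q3) (c := cZ)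
    ⟨T.a (T.a (T.a (T.l 0) (T.a (T.l 0) (T.l 0))) (T.a (T.a (T.l 0) (T.l 0)) (T.l 0))) (T.a (T.a (T.l 0) (T.l 0)) (T.a (T.l 0) (T.l 0))),
      by decide +kernel⟩
theorem cA_h2_43 : CertNd 0 1230186008 1033476505 6710887 (ftHighG true 3 mZ 1 1 22 1060 1037) [⟨0, 1134462989⟩, ⟨1, 2118904099⟩] ndB4q3 cZ :=
  certNd (T := (ftHighG true 3 mZ 1 1 22 1060 1037)) (L := [⟨0, 1134462989⟩, ⟨1, 2118904099⟩]) (P1 := 0) (W1 := 1230186008) (P3 := 1033476505) (W3 := 6710887) (n := ndB4q3) (c := cZ)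
    ⟨T.a (T.a (T.l 0) (T.a (T.l 0) (T.l 0))) (T.a (T.a (T.l 0) (T.l 0)) (T.a (T.l 0) (T.l 0))),
      by decide +kernel⟩
theorem cA_h2_53 : CertNd 0 1230186008 1033476505 6710887 (ftHighG true 3 mZ 1 1 22 1060 1037) [⟨0, 1134462989⟩, ⟨1, 2118904099⟩] ndB5q3 cZ :=
  certNd (T := (ftHighG true 3 mZ 1 1 22 1060 1037)) (L := [⟨0, 1134462989⟩, ⟨1, 2118904099⟩]) (P1 := 0) (W1 := 1230186008) (P3 := 1033476505) (W3 := 6710887) (n := ndB5q3) (c := cZ)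
    ⟨T.a (T.a (T.a (T.l 3) (T.a (T.l 0) (T.l 0))) (T.a (T.l 0) (T.l 0))) (T.a (T.l 0) (T.l 0)),
      by decide +kernel⟩
theorem cA_r0_02 : CertNd 0 536870912 1033476505 6710887 (ftFarG true 2 mZ 1 1 22 1103 1037) [⟨0, 1089828380⟩, ⟨1, 1140662242⟩, ⟨2, 1113470271⟩] ndB0q2 cZ :=
  certNd (T := (ftFarG true 2 mZ 1 1 22 1103 1037)) (L := [⟨0, 1089828380⟩, ⟨1, 1140662242⟩, ⟨2, 1113470271⟩]) (P1 := 0) (W1 := 536870912) (P3 := 1033476505) (W3 := 6710887) (n := ndB0q2) (c := cZ)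
    ⟨T.l 5,
      by decide +kernel⟩
theorem cA_r0_12 : CertNd 1089828380 50833862 1033476505 6710887 (ftFarG true 2 mZ 1 1 22 1103 1037) [⟨2, 1113470271⟩] ndB1q2 cZ :=
  certNd (T := (ftFarG true 2 mZ 1 1 22 1103 1037)) (L := [⟨2, 1113470271⟩]) (P1 := 1089828380) (W1 := 50833862) (P3 := 1033476505) (W3 := 6710887) (n := ndB1q2) (c := cZ)
    ⟨T.l 0,
      by decide +kernel⟩
theorem cA_r0_22 : CertNd 1089828380 50833862 1033476505 6710887 (ftFarG true 2 mZ 1 1 22 1103 1037) [⟨2, 1113470271⟩] ndB2q2 cZ :=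
  certNd (T := (ftFarG true 2 mZ 1 1 22 1103 1037)) (L := [⟨2, 1113470271⟩]) (P1 := 1089828380) (W1 := 50833862) (P3 := 1033476505) (W3 := 6710887) (n := ndB2q2) (c := cZ)
    ⟨T.l 0,
      by decide +kernel⟩
theorem cA_r0_32 : CertNd 1089828380 50833862 1033476505 6710887 (ftFarG true 2 mZ 1 1 22 1103 1037) [⟨2, 1113470271⟩] ndB3q2 cZ :=
  certNd (T := (ftFarG true 2 mZ 1 1 22 1103 1037)) (L := [⟨2, 1113470271⟩]) (P1 := 1089828380) (W1 := 50833862) (P3 := 1033476505) (W3 := 6710887) (n := ndB3q2) (c := cZ)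
    ⟨T.l 0,
      by decide +kernel⟩
theorem cA_r0_42 : CertNd 1089828380 50833862 1033476505 6710887 (ftFarG true 2 mZ 1 1 22 1103 1037) [⟨2, 1113470271⟩] ndB4q2 cZ :=
  certNd (T := (ftFarG true 2 mZ 1 1 22 1103 1037)) (L := [⟨2, 1113470271⟩]) (P1 := 1089828380) (W1 := 50833862) (P3 := 1033476505) (W3 := 6710887) (n := ndB4q2) (c := cZ)
    ⟨T.l 0,
      by decide +kernel⟩
theorem cA_r0_52 : CertNd 1089828380 50833862 1033476505 6710887 (ftFarG true 2 mZ 1 1 22 1103 1037) [⟨2, 1113470271⟩] ndB5q2 cZ :=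
  certNd (T := (ftFarG true 2 mZ 1 1 22 1103 1037)) (L := [⟨2, 1113470271⟩]) (P1 := 1089828380) (W1 := 50833862) (P3 := 1033476505) (W3 := 6710887) (n := ndB5q2) (c := cZ)
    ⟨T.a (T.l 0) (T.l 0),
      by decide +kernel⟩
theorem cA_n0_02z : CertNd 0 107374182 1033476505 6710887 (ftNearE true 2 mZ 1 1 22 1103) [⟨0, 1089828380⟩, ⟨1, 1140662242⟩] ⟨ndB0q2.Y, onF, kq02, lq02⟩ cZ :=
  certNd (T := (ftNearE true 2 mZ 1 1 22 1103)) (L := [⟨0, 1089828380⟩, ⟨1, 1140662242⟩]) (P1 := 0) (W1 := 107374182) (P3 := 1033476505) (W3 := 6710887) (n := ⟨ndB0q2.Y, onF, kq02, lq02⟩) (c := cZ)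
    ⟨T.l 3,
      by decide +kernel⟩
theorem cA_n0_02 : CertNd 0 536870912 1033476505 6710887 (ftNearE true 2 mZ 1 1 22 1103) [⟨0, 1089828380⟩, ⟨1, 1140662242⟩, ⟨2, 107374182⟩, ⟨3, 492847498⟩] ndB0q2 cZ :=
  certNd (T := (ftNearE true 2 mZ 1 1 22 1103)) (L := [⟨0, 1089828380⟩, ⟨1, 1140662242⟩, ⟨2, 107374182⟩, ⟨3, 492847498⟩]) (P1 := 0) (W1 := 536870912) (P3 := 1033476505) (W3 := 6710887) (n := ndB0q2) (c := cZ)
    ⟨T.a (T.l 3) (T.a (T.l 3) (T.a (T.a (T.a (T.l 3) (T.a (T.l 0) (T.l 0))) (T.a (T.a (T.l 0) (T.l 0)) (T.a (T.l 0) (T.l 0)))) (T.a (T.a (T.l 0) (T.l 0)) (T.l 0)))),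
      by decide +kernel⟩
theorem cA_n0_12 : CertNd 1089828380 50833862 1033476505 6710887 (ftNearE true 2 mZ 1 1 22 1103) [⟨3, 492847498⟩] ndB1q2 cZ :=
  certNd (T := (ftNearE true 2 mZ 1 1 22 1103)) (L := [⟨3, 492847498⟩]) (P1 := 1089828380) (W1 := 50833862) (P3 := 1033476505) (W3 := 6710887) (n := ndB1q2) (c := cZ)
    ⟨T.a (T.l 0) (T.l 0),
      by decide +kernel⟩
theorem cA_n0_22 : CertNd 1089828380 50833862 1033476505 6710887 (ftNearE true 2 mZ 1 1 22 1103) [⟨3, 492847498⟩] ndB2q2 cZ :=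
  certNd (T := (ftNearE true 2 mZ 1 1 22 1103)) (L := [⟨3, 492847498⟩]) (P1 := 1089828380) (W1 := 50833862) (P3 := 1033476505) (W3 := 6710887) (n := ndB2q2) (c := cZ)
    ⟨T.l 0,
      by decide +kernel⟩
theorem cA_n0_32 : CertNd 1089828380 50833862 1033476505 6710887 (ftNearE true 2 mZ 1 1 22 1103) [⟨3, 492847498⟩] ndB3q2 cZ :=
  certNd (T := (ftNearE true 2 mZ 1 1 22 1103)) (L := [⟨3, 492847498⟩]) (P1 := 1089828380) (W1 := 50833862) (P3 := 1033476505) (W3 := 6710887) (n := ndB3q2) (c := cZ)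
    ⟨T.l 0,
      by decide +kernel⟩
theorem cA_n0_42 : CertNd 1089828380 50833862 1033476505 6710887 (ftNearE true 2 mZ 1 1 22 1103) [⟨3, 492847498⟩] ndB4q2 cZ :=
  certNd (T := (ftNearE true 2 mZ 1 1 22 1103)) (L := [⟨3, 492847498⟩]) (P1 := 1089828380) (W1 := 50833862) (P3 := 1033476505) (W3 := 6710887) (n := ndB4q2) (c := cZ)
    ⟨T.l 0,
      by decide +kernel⟩
theorem cA_n0_52 : CertNd 1089828380 50833862 1033476505 6710887 (ftNearE true 2 mZ 1 1 22 1103) [⟨3, 492847498⟩] ndB5q2 cZ :=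
  certNd (T := (ftNearE true 2 mZ 1 1 22 1103)) (L := [⟨3, 492847498⟩]) (P1 := 1089828380) (W1 := 50833862) (P3 := 1033476505) (W3 := 6710887) (n := ndB5q2) (c := cZ)
    ⟨T.l 0,
      by decide +kernel⟩
theorem cA_R0_2 : CertSd 1089828380 50833862 1033476505 6710887 (ftFarG true 2 mZ 1 1 22 1103 1037) [] idF (cnF 1037 1000) pcB2 dZ :=
  certSd (T := (ftFarG true 2 mZ 1 1 22 1103 1037)) (L := []) (P1 := 1089828380) (W1 := 50833862) (P3 := 1033476505) (W3 := 6710887) (Y := idF) (X := (cnF 1037 1000))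
    (pc := pcB2) (c := dZ) ⟨T.l 0,
      by decide +kernel⟩
theorem cA_N0_2 : CertSd 1101527938 39134304 1033476505 6710887 (ftNearE true 2 mZ 1 1 22 1103) [] idF (cnF 459 1000) pcB2 dZ :=
  certSd (T := (ftNearE true 2 mZ 1 1 22 1103)) (L := []) (P1 := 1101527938) (W1 := 39134304) (P3 := 1033476505) (W3 := 6710887) (Y := idF) (X := (cnF 459 1000))
    (pc := pcB2) (c := dZ) ⟨T.a (T.a (T.l 0) (T.l 0)) (T.l 0),
      by decide +kernel⟩
theorem cA_r1_02 : CertNd 0 536870912 1033476505 6710887 (ftFarG true 2 mZ 1 1 22 1164 1037) [⟨0, 1129503588⟩, ⟨1, 1231171311⟩, ⟨2, 1113470271⟩] ndB0q2 cZ :=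
  certNd (T := (ftFarG true 2 mZ 1 1 22 1164 1037)) (L := [⟨0, 1129503588⟩, ⟨1, 1231171311⟩, ⟨2, 1113470271⟩]) (P1 := 0) (W1 := 536870912) (P3 := 1033476505) (W3 := 6710887) (n := ndB0q2) (c := cZ)
    ⟨T.l 5,
      by decide +kernel⟩
theorem cA_r1_12 : CertNd 1129503588 101667723 1033476505 6710887 (ftFarG true 2 mZ 1 1 22 1164 1037) [⟨2, 1113470271⟩] ndB1q2 cZ :=
  certNd (T := (ftFarG true 2 mZ 1 1 22 1164 1037)) (L := [⟨2, 1113470271⟩]) (P1 := 1129503588) (W1 := 101667723) (P3 := 1033476505) (W3 := 6710887) (n := ndB1q2) (c := cZ)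
    ⟨T.l 0,
      by decide +kernel⟩
theorem cA_r1_22 : CertNd 1129503588 101667723 1033476505 6710887 (ftFarG true 2 mZ 1 1 22 1164 1037) [⟨2, 1113470271⟩] ndB2q2 cZ :=
  certNd (T := (ftFarG true 2 mZ 1 1 22 1164 1037)) (L := [⟨2, 1113470271⟩]) (P1 := 1129503588) (W1 := 101667723) (P3 := 1033476505) (W3 := 6710887) (n := ndB2q2) (c := cZ)
    ⟨T.l 0,
      by decide +kernel⟩
theorem cA_r1_32 : CertNd 1129503588 101667723 1033476505 6710887 (ftFarG true 2 mZ 1 1 22 1164 1037) [⟨2, 1113470271⟩] ndB3q2 cZ :=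
  certNd (T := (ftFarG true 2 mZ 1 1 22 1164 1037)) (L := [⟨2, 1113470271⟩]) (P1 := 1129503588) (W1 := 101667723) (P3 := 1033476505) (W3 := 6710887) (n := ndB3q2) (c := cZ)
    ⟨T.l 0,
      by decide +kernel⟩
theorem cA_r1_42 : CertNd 1129503588 101667723 1033476505 6710887 (ftFarG true 2 mZ 1 1 22 1164 1037) [⟨2, 1113470271⟩] ndB4q2 cZ :=
  certNd (T := (ftFarG true 2 mZ 1 1 22 1164 1037)) (L := [⟨2, 1113470271⟩]) (P1 := 1129503588) (W1 := 101667723) (P3 := 1033476505) (W3 := 6710887) (n := ndB4q2) (c := cZ)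
    ⟨T.l 0,
      by decide +kernel⟩
theorem cA_r1_52 : CertNd 1129503588 101667723 1033476505 6710887 (ftFarG true 2 mZ 1 1 22 1164 1037) [⟨2, 1113470271⟩] ndB5q2 cZ :=
  certNd (T := (ftFarG true 2 mZ 1 1 22 1164 1037)) (L := [⟨2, 1113470271⟩]) (P1 := 1129503588) (W1 := 101667723) (P3 := 1033476505) (W3 := 6710887) (n := ndB5q2) (c := cZ)
    ⟨T.a (T.a (T.l 0) (T.l 0)) (T.l 0),
      by decide +kernel⟩
theorem cA_n1_02z : CertNd 0 107374182 1033476505 6710887 (ftNearE true 2 mZ 1 1 22 1164) [⟨0, 1129503588⟩, ⟨1, 1231171311⟩] ⟨ndB0q2.Y, onF, kq02, lq02⟩ cZ :=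
  certNd (T := (ftNearE true 2 mZ 1 1 22 1164)) (L := [⟨0, 1129503588⟩, ⟨1, 1231171311⟩]) (P1 := 0) (W1 := 107374182) (P3 := 1033476505) (W3 := 6710887) (n := ⟨ndB0q2.Y, onF, kq02, lq02⟩) (c := cZ)
    ⟨T.l 0,
      by decide +kernel⟩
theorem cA_n1_02 : CertNd 0 536870912 1033476505 6710887 (ftNearE true 2 mZ 1 1 22 1164) [⟨0, 1129503588⟩, ⟨1, 1231171311⟩, ⟨2, 107374182⟩, ⟨3, 492847498⟩] ndB0q2 cZ :=
  certNd (T := (ftNearE true 2 mZ 1 1 22 1164)) (L := [⟨0, 1129503588⟩, ⟨1, 1231171311⟩, ⟨2, 107374182⟩, ⟨3, 492847498⟩]) (P1 := 0) (W1 := 536870912) (P3 := 1033476505) (W3 := 6710887) (n := ndB0q2) (c := cZ)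
    ⟨T.a (T.a (T.a (T.l 3) (T.a (T.l 0) (T.l 0))) (T.a (T.l 0) (T.l 0))) (T.a (T.a (T.a (T.l 0) (T.l 0)) (T.l 0)) (T.a (T.a (T.l 0) (T.l 0)) (T.l 1))),
      by decide +kernel⟩
theorem cA_n1_12 : CertNd 1129503588 101667723 1033476505 6710887 (ftNearE true 2 mZ 1 1 22 1164) [⟨3, 492847498⟩] ndB1q2 cZ :=
  certNd (T := (ftNearE true 2 mZ 1 1 22 1164)) (L := [⟨3, 492847498⟩]) (P1 := 1129503588) (W1 := 101667723) (P3 := 1033476505) (W3 := 6710887) (n := ndB1q2) (c := cZ)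
    ⟨T.a (T.l 0) (T.a (T.l 0) (T.a (T.l 0) (T.a (T.l 0) (T.l 0)))),
      by decide +kernel⟩
theorem cA_n1_22 : CertNd 1129503588 101667723 1033476505 6710887 (ftNearE true 2 mZ 1 1 22 1164) [⟨3, 492847498⟩] ndB2q2 cZ :=
  certNd (T := (ftNearE true 2 mZ 1 1 22 1164)) (L := [⟨3, 492847498⟩]) (P1 := 1129503588) (W1 := 101667723) (P3 := 1033476505) (W3 := 6710887) (n := ndB2q2) (c := cZ)
    ⟨T.a (T.l 0) (T.l 0),
      by decide +kernel⟩
theorem cA_n1_32 : CertNd 1129503588 101667723 1033476505 6710887 (ftNearE true 2 mZ 1 1 22 1164) [⟨3, 492847498⟩] ndB3q2 cZ :=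
  certNd (T := (ftNearE true 2 mZ 1 1 22 1164)) (L := [⟨3, 492847498⟩]) (P1 := 1129503588) (W1 := 101667723) (P3 := 1033476505) (W3 := 6710887) (n := ndB3q2) (c := cZ)
    ⟨T.l 0,
      by decide +kernel⟩
theorem cA_n1_42 : CertNd 1129503588 101667723 1033476505 6710887 (ftNearE true 2 mZ 1 1 22 1164) [⟨3, 492847498⟩] ndB4q2 cZ :=
  certNd (T := (ftNearE true 2 mZ 1 1 22 1164)) (L := [⟨3, 492847498⟩]) (P1 := 1129503588) (W1 := 101667723) (P3 := 1033476505) (W3 := 6710887) (n := ndB4q2) (c := cZ)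
    ⟨T.l 0,
      by decide +kernel⟩
theorem cA_n1_52 : CertNd 1129503588 101667723 1033476505 6710887 (ftNearE true 2 mZ 1 1 22 1164) [⟨3, 492847498⟩] ndB5q2 cZ :=
  certNd (T := (ftNearE true 2 mZ 1 1 22 1164)) (L := [⟨3, 492847498⟩]) (P1 := 1129503588) (W1 := 101667723) (P3 := 1033476505) (W3 := 6710887) (n := ndB5q2) (c := cZ)
    ⟨T.l 0,
      by decide +kernel⟩
theorem cA_R1_2 : CertSd 1129503588 101667723 1033476505 6710887 (ftFarG true 2 mZ 1 1 22 1164 1037) [] idF (cnF 1037 1000) pcB2 dZ :=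
  certSd (T := (ftFarG true 2 mZ 1 1 22 1164 1037)) (L := []) (P1 := 1129503588) (W1 := 101667723) (P3 := 1033476505) (W3 := 6710887) (Y := idF) (X := (cnF 1037 1000))
    (pc := pcB2) (c := dZ) ⟨T.l 0,
      by decide +kernel⟩
theorem cA_N1_2 : CertSd 1129503588 101667723 1033476505 6710887 (ftNearE true 2 mZ 1 1 22 1164) [] idF (cnF 459 1000) pcB2 dZ :=
  certSd (T := (ftNearE true 2 mZ 1 1 22 1164)) (L := []) (P1 := 1129503588) (W1 := 101667723) (P3 := 1033476505) (W3 := 6710887) (Y := idF) (X := (cnF 459 1000))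
    (pc := pcB2) (c := dZ) ⟨T.a (T.l 0) (T.l 0),
      by decide +kernel⟩
theorem cA_r2_02 : CertNd 0 536870912 1033476505 6710887 (ftFarG true 2 mZ 1 1 22 1330 1037) [⟨0, 1220012658⟩, ⟨1, 1732070817⟩, ⟨2, 1113470271⟩] ndB0q2 cZ :=
  certNd (T := (ftFarG true 2 mZ 1 1 22 1330 1037)) (L := [⟨0, 1220012658⟩, ⟨1, 1732070817⟩, ⟨2, 1113470271⟩]) (P1 := 0) (W1 := 536870912) (P3 := 1033476505) (W3 := 6710887) (n := ndB0q2) (c := cZ)
    ⟨T.l 5,
      by decide +kernel⟩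
theorem cA_r2_12 : CertNd 1220012658 390600078 1033476505 6710887 (ftFarG true 2 mZ 1 1 22 1330 1037) [⟨2, 1113470271⟩] ndB1q2 cZ :=
  certNd (T := (ftFarG true 2 mZ 1 1 22 1330 1037)) (L := [⟨2, 1113470271⟩]) (P1 := 1220012658) (W1 := 390600078) (P3 := 1033476505) (W3 := 6710887) (n := ndB1q2) (c := cZ)
    ⟨T.l 0,
      by decide +kernel⟩
theorem cA_r2_22 : CertNd 1220012658 390600078 1033476505 6710887 (ftFarG true 2 mZ 1 1 22 1330 1037) [⟨2, 1113470271⟩] ndB2q2 cZ :=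
  certNd (T := (ftFarG true 2 mZ 1 1 22 1330 1037)) (L := [⟨2, 1113470271⟩]) (P1 := 1220012658) (W1 := 390600078) (P3 := 1033476505) (W3 := 6710887) (n := ndB2q2) (c := cZ)
    ⟨T.l 0,
      by decide +kernel⟩
theorem cA_r2_32 : CertNd 1220012658 390600078 1033476505 6710887 (ftFarG true 2 mZ 1 1 22 1330 1037) [⟨2, 1113470271⟩] ndB3q2 cZ :=
  certNd (T := (ftFarG true 2 mZ 1 1 22 1330 1037)) (L := [⟨2, 1113470271⟩]) (P1 := 1220012658) (W1 := 390600078) (P3 := 1033476505) (W3 := 6710887) (n := ndB3q2) (c := cZ)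
    ⟨T.l 0,
      by decide +kernel⟩
theorem cA_r2_42 : CertNd 1220012658 390600078 1033476505 6710887 (ftFarG true 2 mZ 1 1 22 1330 1037) [⟨2, 1113470271⟩] ndB4q2 cZ :=
  certNd (T := (ftFarG true 2 mZ 1 1 22 1330 1037)) (L := [⟨2, 1113470271⟩]) (P1 := 1220012658) (W1 := 390600078) (P3 := 1033476505) (W3 := 6710887) (n := ndB4q2) (c := cZ)
    ⟨T.l 0,
      by decide +kernel⟩
theorem cA_r2_52 : CertNd 1220012658 390600078 1033476505 6710887 (ftFarG true 2 mZ 1 1 22 1330 1037) [⟨2, 1113470271⟩] ndB5q2 cZ :=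
  certNd (T := (ftFarG true 2 mZ 1 1 22 1330 1037)) (L := [⟨2, 1113470271⟩]) (P1 := 1220012658) (W1 := 390600078) (P3 := 1033476505) (W3 := 6710887) (n := ndB5q2) (c := cZ)
    ⟨T.a (T.a (T.a (T.a (T.l 0) (T.l 0)) (T.l 0)) (T.l 0)) (T.a (T.l 0) (T.l 0)),
      by decide +kernel⟩
theorem cA_r2_13 : CertNd 1610612736 121458081 1033476505 6710887 (ftFarG true 3 mZ 1 1 22 1330 1037) [⟨2, 1113470271⟩] ndB1q3 cZ :=
  certNd (T := (ftFarG true 3 mZ 1 1 22 1330 1037)) (L := [⟨2, 1113470271⟩]) (P1 := 1610612736) (W1 := 121458081) (P3 := 1033476505) (W3 := 6710887) (n := ndB1q3) (c := cZ)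
    ⟨T.l 0,
      by decide +kernel⟩
theorem cA_r2_23 : CertNd 1610612736 121458081 1033476505 6710887 (ftFarG true 3 mZ 1 1 22 1330 1037) [⟨2, 1113470271⟩] ndB2q3 cZ :=
  certNd (T := (ftFarG true 3 mZ 1 1 22 1330 1037)) (L := [⟨2, 1113470271⟩]) (P1 := 1610612736) (W1 := 121458081) (P3 := 1033476505) (W3 := 6710887) (n := ndB2q3) (c := cZ)
    ⟨T.l 0,
      by decide +kernel⟩
theorem cA_r2_33 : CertNd 0 1230186008 1033476505 6710887 (ftFarG true 3 mZ 1 1 22 1330 1037) [⟨0, 1220012658⟩, ⟨1, 1732070817⟩, ⟨2, 1113470271⟩] ndB3q3 cZ :=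
  certNd (T := (ftFarG true 3 mZ 1 1 22 1330 1037)) (L := [⟨0, 1220012658⟩, ⟨1, 1732070817⟩, ⟨2, 1113470271⟩]) (P1 := 0) (W1 := 1230186008) (P3 := 1033476505) (W3 := 6710887) (n := ndB3q3) (c := cZ)
    ⟨T.l 5,
      by decide +kernel⟩
theorem cA_r2_43 : CertNd 0 1230186008 1033476505 6710887 (ftFarG true 3 mZ 1 1 22 1330 1037) [⟨0, 1220012658⟩, ⟨1, 1732070817⟩, ⟨2, 1113470271⟩] ndB4q3 cZ :=
  certNd (T := (ftFarG true 3 mZ 1 1 22 1330 1037)) (L := [⟨0, 1220012658⟩, ⟨1, 1732070817⟩, ⟨2, 1113470271⟩]) (P1 := 0) (W1 := 1230186008) (P3 := 1033476505) (W3 := 6710887) (n := ndB4q3) (c := cZ)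
    ⟨T.l 5,
      by decide +kernel⟩
theorem cA_r2_53 : CertNd 0 1230186008 1033476505 6710887 (ftFarG true 3 mZ 1 1 22 1330 1037) [⟨0, 1220012658⟩, ⟨1, 1732070817⟩, ⟨2, 1113470271⟩] ndB5q3 cZ :=
  certNd (T := (ftFarG true 3 mZ 1 1 22 1330 1037)) (L := [⟨0, 1220012658⟩, ⟨1, 1732070817⟩, ⟨2, 1113470271⟩]) (P1 := 0) (W1 := 1230186008) (P3 := 1033476505) (W3 := 6710887) (n := ndB5q3) (c := cZ)
    ⟨T.a (T.l 3) (T.a (T.l 0) (T.l 0)),
      by decide +kernel⟩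
theorem cA_n2_02z : CertNd 0 107374182 1033476505 6710887 (ftNearE true 2 mZ 1 1 22 1330) [⟨0, 1220012658⟩, ⟨1, 1732070817⟩] ⟨ndB0q2.Y, onF, kq02, lq02⟩ cZ :=
  certNd (T := (ftNearE true 2 mZ 1 1 22 1330)) (L := [⟨0, 1220012658⟩, ⟨1, 1732070817⟩]) (P1 := 0) (W1 := 107374182) (P3 := 1033476505) (W3 := 6710887) (n := ⟨ndB0q2.Y, onF, kq02, lq02⟩) (c := cZ)
    ⟨T.l 0,
      by decide +kernel⟩
theorem cA_n2_02 : CertNd 0 536870912 1033476505 6710887 (ftNearE true 2 mZ 1 1 22 1330) [⟨0, 1220012658⟩, ⟨1, 1732070817⟩, ⟨2, 107374182⟩, ⟨3, 492847498⟩] ndB0q2 cZ :=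
  certNd (T := (ftNearE true 2 mZ 1 1 22 1330)) (L := [⟨0, 1220012658⟩, ⟨1, 1732070817⟩, ⟨2, 107374182⟩, ⟨3, 492847498⟩]) (P1 := 0) (W1 := 536870912) (P3 := 1033476505) (W3 := 6710887) (n := ndB0q2) (c := cZ)
    ⟨T.a (T.a (T.a (T.l 5) (T.l 0)) (T.l 0)) (T.l 1),
      by decide +kernel⟩
theorem cA_n2_12 : CertNd 1220012658 390600078 1033476505 6710887 (ftNearE true 2 mZ 1 1 22 1330) [⟨3, 492847498⟩] ndB1q2 cZ :=
  certNd (T := (ftNearE true 2 mZ 1 1 22 1330)) (L := [⟨3, 492847498⟩]) (P1 := 1220012658) (W1 := 390600078) (P3 := 1033476505) (W3 := 6710887) (n := ndB1q2) (c := cZ)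
    ⟨T.a (T.a (T.a (T.a (T.a (T.l 0) (T.a (T.l 0) (T.a (T.a (T.l 0) (T.l 0)) (T.l 0)))) (T.l 0)) (T.l 0)) (T.l 0)) (T.l 0),
      by decide +kernel⟩
theorem cA_n2_22 : CertNd 1220012658 390600078 1033476505 6710887 (ftNearE true 2 mZ 1 1 22 1330) [⟨3, 492847498⟩] ndB2q2 cZ :=
  certNd (T := (ftNearE true 2 mZ 1 1 22 1330)) (L := [⟨3, 492847498⟩]) (P1 := 1220012658) (W1 := 390600078) (P3 := 1033476505) (W3 := 6710887) (n := ndB2q2) (c := cZ)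
    ⟨T.a (T.a (T.a (T.a (T.a (T.l 0) (T.l 0)) (T.l 0)) (T.l 0)) (T.l 0)) (T.l 0),
      by decide +kernel⟩
theorem cA_n2_32 : CertNd 1220012658 390600078 1033476505 6710887 (ftNearE true 2 mZ 1 1 22 1330) [⟨3, 492847498⟩] ndB3q2 cZ :=
  certNd (T := (ftNearE true 2 mZ 1 1 22 1330)) (L := [⟨3, 492847498⟩]) (P1 := 1220012658) (W1 := 390600078) (P3 := 1033476505) (W3 := 6710887) (n := ndB3q2) (c := cZ)
    ⟨T.l 0,
      by decide +kernel⟩
theorem cA_n2_42 : CertNd 1220012658 390600078 1033476505 6710887 (ftNearE true 2 mZ 1 1 22 1330) [⟨3, 492847498⟩] ndB4q2 cZ :=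
  certNd (T := (ftNearE true 2 mZ 1 1 22 1330)) (L := [⟨3, 492847498⟩]) (P1 := 1220012658) (W1 := 390600078) (P3 := 1033476505) (W3 := 6710887) (n := ndB4q2) (c := cZ)
    ⟨T.l 0,
      by decide +kernel⟩
theorem cA_n2_52 : CertNd 1220012658 390600078 1033476505 6710887 (ftNearE true 2 mZ 1 1 22 1330) [⟨3, 492847498⟩] ndB5q2 cZ :=
  certNd (T := (ftNearE true 2 mZ 1 1 22 1330)) (L := [⟨3, 492847498⟩]) (P1 := 1220012658) (W1 := 390600078) (P3 := 1033476505) (W3 := 6710887) (n := ndB5q2) (c := cZ)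
    ⟨T.l 1,
      by decide +kernel⟩
theorem cA_n2_13 : CertNd 1610612736 121458081 1033476505 6710887 (ftNearG true 3 mZ 1 1 22 1330) [⟨3, 492847498⟩] ndB1q3 cZ :=
  certNd (T := (ftNearG true 3 mZ 1 1 22 1330)) (L := [⟨3, 492847498⟩]) (P1 := 1610612736) (W1 := 121458081) (P3 := 1033476505) (W3 := 6710887) (n := ndB1q3) (c := cZ)
    ⟨T.l 0,
      by decide +kernel⟩
theorem cA_n2_23 : CertNd 1610612736 121458081 1033476505 6710887 (ftNearG true 3 mZ 1 1 22 1330) [⟨3, 492847498⟩] ndB2q3 cZ :=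
  certNd (T := (ftNearG true 3 mZ 1 1 22 1330)) (L := [⟨3, 492847498⟩]) (P1 := 1610612736) (W1 := 121458081) (P3 := 1033476505) (W3 := 6710887) (n := ndB2q3) (c := cZ)
    ⟨T.l 0,
      by decide +kernel⟩
theorem cA_n2_33 : CertNd 0 1230186008 1033476505 6710887 (ftNearG true 3 mZ 1 1 22 1330) [⟨0, 1220012658⟩, ⟨1, 1732070817⟩, ⟨3, 492847498⟩] ndB3q3 cZ :=
  certNd (T := (ftNearG true 3 mZ 1 1 22 1330)) (L := [⟨0, 1220012658⟩, ⟨1, 1732070817⟩, ⟨3, 492847498⟩]) (P1 := 0) (W1 := 1230186008) (P3 := 1033476505) (W3 := 6710887) (n := ndB3q3) (c := cZ)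
    ⟨T.a (T.l 3) (T.a (T.l 0) (T.l 0)),
      by decide +kernel⟩
theorem cA_n2_43 : CertNd 0 1230186008 1033476505 6710887 (ftNearG true 3 mZ 1 1 22 1330) [⟨0, 1220012658⟩, ⟨1, 1732070817⟩, ⟨3, 492847498⟩] ndB4q3 cZ :=
  certNd (T := (ftNearG true 3 mZ 1 1 22 1330)) (L := [⟨0, 1220012658⟩, ⟨1, 1732070817⟩, ⟨3, 492847498⟩]) (P1 := 0) (W1 := 1230186008) (P3 := 1033476505) (W3 := 6710887) (n := ndB4q3) (c := cZ)
    ⟨T.a (T.l 3) (T.a (T.l 0) (T.l 0)),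
      by decide +kernel⟩
theorem cA_n2_53 : CertNd 0 1230186008 1033476505 6710887 (ftNearG true 3 mZ 1 1 22 1330) [⟨0, 1220012658⟩, ⟨1, 1732070817⟩, ⟨3, 492847498⟩] ndB5q3 cZ :=
  certNd (T := (ftNearG true 3 mZ 1 1 22 1330)) (L := [⟨0, 1220012658⟩, ⟨1, 1732070817⟩, ⟨3, 492847498⟩]) (P1 := 0) (W1 := 1230186008) (P3 := 1033476505) (W3 := 6710887) (n := ndB5q3) (c := cZ)
    ⟨T.a (T.l 3) (T.l 5),
      by decide +kernel⟩
theorem cA_R2_2 : CertSd 1220012658 390600078 1033476505 6710887 (ftFarG true 2 mZ 1 1 22 1330 1037) [] idF (cnF 1037 1000) pcB2 dZ :=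
  certSd (T := (ftFarG true 2 mZ 1 1 22 1330 1037)) (L := []) (P1 := 1220012658) (W1 := 390600078) (P3 := 1033476505) (W3 := 6710887) (Y := idF) (X := (cnF 1037 1000))
    (pc := pcB2) (c := dZ) ⟨T.a (T.l 0) (T.l 0),
      by decide +kernel⟩
theorem cA_N2_2 : CertSd 1220012658 390600078 1033476505 6710887 (ftNearE true 2 mZ 1 1 22 1330) [] idF (cnF 459 1000) pcB2 dZ :=
  certSd (T := (ftNearE true 2 mZ 1 1 22 1330)) (L := []) (P1 := 1220012658) (W1 := 390600078) (P3 := 1033476505) (W3 := 6710887) (Y := idF) (X := (cnF 459 1000))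
    (pc := pcB2) (c := dZ) ⟨T.l 0,
      by decide +kernel⟩
theorem cA_R2_3 : CertSd 1610612736 109444809 1033476505 6710887 (ftFarG true 3 mZ 1 1 22 1330 1037) [] idF (cnF 1037 1000) pcB3 dZ :=
  certSd (T := (ftFarG true 3 mZ 1 1 22 1330 1037)) (L := []) (P1 := 1610612736) (W1 := 109444809) (P3 := 1033476505) (W3 := 6710887) (Y := idF) (X := (cnF 1037 1000))
    (pc := pcB3) (c := dZ) ⟨T.l 0,
      by decide +kernel⟩
theorem cA_N2_3 : CertSd 1610612736 121458081 1033476505 6710887 (ftNearG true 3 mZ 1 1 22 1330) [] idF (cnF 459 1000) pcB3 dZ :=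
  certSd (T := (ftNearG true 3 mZ 1 1 22 1330)) (L := []) (P1 := 1610612736) (W1 := 121458081) (P3 := 1033476505) (W3 := 6710887) (Y := idF) (X := (cnF 459 1000))
    (pc := pcB3) (c := dZ) ⟨T.l 0,
      by decide +kernel⟩

end Pool.Agent.Strip051.G.I9625_9688.Tab
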