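import Pool.Agent.Strip051.PB.FlAsmH
import Pool.Agent.Strip051.PB.PairU
import Pool.Agent.Strip051.G.I9625_9688.Tab

/-! # Slopes (generated) -/

set_option linter.all false
set_option maxRecDepth 100000

namespace Pool.Agent.Strip051.G.I9625_9688.Tab

open Pool.Agent.Strip051.PB

attribute [local irreducible] padd psub pneg pmul psq pinv psqrt psqrtg pabs pps pmax pmin pphi
  plam pcase phf pnat prat pscale pnorm pdc pnc pone ppos pnn pscaleT pwT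
  pwB0 pwB3 pmA pwL

noncomputable def c1g_sf : Sl1 c1g := ⟨_, fun h1 => (pr_sqrtg (pr_csub (enc_pnc _ 1) (pr_scaleT 3 4 (pr_sq h1))))⟩
noncomputable def kcg_9_sf : Sl2 kcg_9 := ⟨_, fun h1 h2 => (pr_addc h1 (enc_rat _ 587 1262))⟩
noncomputable def kcg_10_sf : Sl2 kcg_10 := ⟨_, fun h1 h2 => (pr_scaleT 23016928317 2200000000 h1)⟩
noncomputable def kcg_15_sf : Sl2 kcg_15 := ⟨_, fun h1 h2 => (pr_scaleT 9337451553 55000000 h1)⟩
noncomputable def kcg_24_sf : Sl2 kcg_24 := ⟨_, fun h1 h2 => (pr_addc h1 (enc_rat _ 1 2))⟩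
noncomputable def kcg_25_sf : Sl2 kcg_25 := ⟨_, fun h1 h2 => (pr_csub (enc_neg (enc_rat _ 587 1262)) h1)⟩
noncomputable def kcg_34_sf : Sl2 kcg_34 := ⟨_, fun h1 h2 => (pr_addc h1 (enc_rat _ 2507 5707))⟩
noncomputable def kcg_35_sf : Sl2 kcg_35 := ⟨_, fun h1 h2 => (pr_scaleT 922210041726649 93087500000000 h1)⟩
noncomputable def kcg_38_sf : Sl2 kcg_38 := ⟨_, fun h1 h2 => (pr_scaleT 1580363674430931 9308750000000 h1)⟩
noncomputable def kcg_45_sf : Sl2 kcg_45 := ⟨_, fun h1 h2 => (pr_csub (enc_neg (enc_rat _ 2507 5707)) h1)⟩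
noncomputable def kcg_52_sf : Sl2 kcg_52 := ⟨_, fun h1 h2 => (pr_scaleT 7778372771 1698437500 h1)⟩
noncomputable def kcg_57_sf : Sl2 kcg_57 := ⟨_, fun h1 h2 => (pr_scaleT 49124195263 679375000 h1)⟩
noncomputable def kcg_66_sf : Sl2 kcg_66 := ⟨_, fun h1 h2 => (pr_csub (enc_neg (enc_rat _ 17 40)) h1)⟩
noncomputable def kcg_75_sf : Sl2 kcg_75 := ⟨_, fun h1 h2 => (pr_addc h1 (enc_rat _ 3 10))⟩
noncomputable def kcg_78_sf : Sl2 kcg_78 := ⟨_, fun h1 h2 => (pr_addc h1 (enc_rat _ 41 100))⟩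
noncomputable def kcg_79_sf : Sl2 kcg_79 := ⟨_, fun h1 h2 => (pr_scaleT 14837797 500000 h1)⟩
noncomputable def kcg_84_sf : Sl2 kcg_84 := ⟨_, fun h1 h2 => (pr_scaleT 6289 250 h1)⟩
noncomputable def kcg_91_sf : Sl2 kcg_91 := ⟨_, fun h1 h2 => (pr_scaleT 8037967 1000000 h1)⟩
noncomputable def kcg_96_sf : Sl2 kcg_96 := ⟨_, fun h1 h2 => (pr_scaleT 184449 10000 h1)⟩
noncomputable def kcg_110_sf : Sl2 kcg_110 := ⟨_, fun h1 h2 => (pr_csub (enc_neg (enc_rat _ 3 10)) h1)⟩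
noncomputable def kcg_119_sf : Sl2 kcg_119 := ⟨_, fun h1 h2 => (pr_scaleT 961031 100000 h1)⟩
noncomputable def kcg_122_sf : Sl2 kcg_122 := ⟨_, fun h1 h2 => (pr_scaleT 2341 5000 h1)⟩
noncomputable def kcg_130_sf : Sl2 kcg_130 := ⟨_, fun h1 h2 => (pr_csub (enc_neg (enc_rat _ 1 10)) h1)⟩
noncomputable def kcg_135_sf : Sl2 kcg_135 := ⟨_, fun h1 h2 => (pr_scaleT 35131 6250 h1)⟩
noncomputable def kcg_138_sf : Sl2 kcg_138 := ⟨_, fun h1 h2 => (pr_cmul (enc_norm (kcg_3.enc h1.l h2)) (pr_nd (pr_scaleT 63351 5000 h1)))⟩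
noncomputable def kcg_145_sf : Sl2 kcg_145 := ⟨_, fun h1 h2 => (pr_csub (enc_rat _ 587 1262) h1)⟩
noncomputable def kcg_151_sf : Sl2 kcg_151 := ⟨_, fun h1 h2 => (pr_csub (enc_rat _ 1 2) h1)⟩
noncomputable def kcg_152_sf : Sl2 kcg_152 := ⟨_, fun h1 h2 => (pr_subr 587 1262 h1)⟩
noncomputable def kcg_159_sf : Sl2 kcg_159 := ⟨_, fun h1 h2 => (pr_csub (enc_rat _ 2507 5707) h1)⟩
noncomputable def kcg_166_sf : Sl2 kcg_166 := ⟨_, fun h1 h2 => (pr_subr 2507 5707 h1)⟩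
noncomputable def kcg_178_sf : Sl2 kcg_178 := ⟨_, fun h1 h2 => (pr_subr 17 40 h1)⟩
noncomputable def kcg_185_sf : Sl2 kcg_185 := ⟨_, fun h1 h2 => (pr_csub (enc_rat _ 3 10) h1)⟩
noncomputable def kcg_186_sf : Sl2 kcg_186 := ⟨_, fun h1 h2 => (pr_csub (enc_rat _ 41 100) h1)⟩
noncomputable def kcg_195_sf : Sl2 kcg_195 := ⟨_, fun h1 h2 => (pr_subr 3 10 h1)⟩
noncomputable def kcg_208_sf : Sl2 kcg_208 := ⟨_, fun h1 h2 => (pr_subr 1 10 h1)⟩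
noncomputable def kcg_sf : Sl2 kcg := ⟨_, fun h1 h2 => (pr_norm (pr_case h1 (pr_case (pr_addc h1 (enc_rat _ 17 40)) (pr_case (kcg_9_sf.snd h1 h2) (pr_sub (pr_add (pr_subr 136661073451 22000000000 (pr_neg (kcg_10_sf.snd h1 h2))) (pr_cmul (enc_norm (kcg_3.enc h1.l h2)) (pr_norm (pr_addc (kcg_15_sf.snd h1 h2) (enc_rat _ 82050027949 1100000000))))) (pr_mA (pr_scaleT 2799323 10000 (pr_mul (pr_norm (kcg_24_sf.snd h1 h2)) (pr_norm (kcg_25_sf.snd h1 h2)))) (pr_const (enc_rat _ 2799323 10000)) (kcg_24_sf.snd h1 h2) (kcg_25_sf.snd h1 h2) rfl rfl)) (pr_case (kcg_34_sf.snd h1 h2) (pr_sub (pr_add (pr_addc (kcg_35_sf.snd h1 h2) (enc_rat _ 303701179243349 93087500000000)) (pr_cmul (enc_norm (kcg_3.enc h1.l h2)) (pr_norm (pr_addc (kcg_38_sf.snd h1 h2) (enc_rat _ 694348361093131 9308750000000))))) (pr_mA (pr_scaleT 1026053 2500 (pr_mul (pr_norm (kcg_9_sf.snd h1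 h2)) (pr_norm (kcg_45_sf.snd h1 h2)))) (pr_const (enc_rat _ 1026053 2500)) (kcg_9_sf.snd h1 h2) (kcg_45_sf.snd h1 h2) rfl rfl)) (pr_add (pr_add (pr_subr 421379608169 135875000000 (pr_neg (kcg_52_sf.snd h1 h2))) (pr_cmul (enc_norm (kcg_3.enc h1.l h2)) (pr_norm (pr_addc (kcg_57_sf.snd h1 h2) (enc_rat _ 215881503949 6793750000))))) (pr_mA (pr_cmul (enc_norm (kcg_65.enc h1.l h2)) (pr_norm (pr_mul (pr_norm (kcg_34_sf.snd h1 h2)) (pr_norm (kcg_66_sf.snd h1 h2))))) (pr_const (kcg_65.enc h1.l h2)) (kcg_34_sf.snd h1 h2) (kcg_66_sf.snd h1 h2) rfl rfl)))) (pr_case (kcg_75_sf.snd h1 h2) (pr_case (kcg_78_sf.snd h1 h2) (pr_add (pr_subr 1376697517 100000000 (pr_neg (kcg_79_sf.snd h1 h2))) (pr_cmul (enc_norm (kcg_3.enc h1.l h2)) (pr_norm (pr_subr 9645681 1000000 (pr_neg (kcg_84_sf.snd h1 h2)))))) (pr_add (pr_add (pr_subr 48955481 10000000 (pr_neg (kcg_91_sf.snd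 h1 h2))) (pr_cmul (enc_norm (kcg_3.enc h1.l h2)) (pr_norm (pr_subr 689413 100000 (pr_neg (kcg_96_sf.snd h1 h2)))))) (pr_mA (pr_cmul (enc_norm (kcg_109.enc h1.l h2)) (pr_norm (pr_mul (pr_norm (kcg_78_sf.snd h1 h2)) (pr_norm (kcg_110_sf.snd h1 h2))))) (pr_const (kcg_109.enc h1.l h2)) (kcg_78_sf.snd h1 h2) (kcg_110_sf.snd h1 h2) rfl rfl))) (pr_case (pr_addc h1 (enc_rat _ 1 10)) (pr_add (pr_add (pr_addc (kcg_119_sf.snd h1 h2) (enc_rat _ 79787 200000)) (pr_cmul (enc_norm (kcg_3.enc h1.l h2)) (pr_norm (pr_subr 6101 5000 (kcg_122_sf.snd h1 h2))))) (pr_mA (pr_cmul (enc_norm (kcg_129.enc h1.l h2)) (pr_norm (pr_mul (pr_norm (kcg_75_sf.snd h1 h2)) (pr_norm (kcg_130_sf.snd h1 h2))))) (pr_const (kcg_129.enc h1.l h2)) (kcg_75_sf.snd h1 h2) (kcg_130_sf.snd h1 h2) rfl rfl)) (pr_add (kcg_135_sf.snd h1 h2) (kcg_138_sf.snd h1 h2))))) (pr_neg (pr_case (pr_csub (enc_rat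 _ 17 40) h1) (pr_case (kcg_145_sf.snd h1 h2) (pr_sub (pr_add (pr_subr 136661073451 22000000000 (kcg_10_sf.snd h1 h2)) (pr_cmul (enc_norm (kcg_3.enc h1.l h2)) (pr_norm (pr_csub (enc_rat _ 82050027949 1100000000) (kcg_15_sf.snd h1 h2))))) (pr_mA (pr_scaleT 2799323 10000 (pr_mul (pr_norm (kcg_151_sf.snd h1 h2)) (pr_norm (kcg_152_sf.snd h1 h2)))) (pr_const (enc_rat _ 2799323 10000)) (kcg_151_sf.snd h1 h2) (kcg_152_sf.snd h1 h2) rfl rfl)) (pr_case (kcg_159_sf.snd h1 h2) (pr_sub (pr_add (pr_csub (enc_rat _ 303701179243349 93087500000000) (kcg_35_sf.snd h1 h2)) (pr_cmul (enc_norm (kcg_3.enc h1.l h2)) (pr_norm (pr_csub (enc_rat _ 694348361093131 9308750000000) (kcg_38_sf.snd h1 h2))))) (pr_mA (pr_scaleT 1026053 2500 (pr_mul (pr_norm (kcg_145_sf.snd h1 h2)) (pr_norm (kcg_166_sf.snd h1 h2)))) (pr_const (enc_rat _ 1026053 2500)) (kcg_145_sf.snd h1 h2) (kcg_166_sf.snd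 h1 h2) rfl rfl)) (pr_add (pr_add (pr_subr 421379608169 135875000000 (kcg_52_sf.snd h1 h2)) (pr_cmul (enc_norm (kcg_3.enc h1.l h2)) (pr_norm (pr_csub (enc_rat _ 215881503949 6793750000) (kcg_57_sf.snd h1 h2))))) (pr_mA (pr_cmul (enc_norm (kcg_65.enc h1.l h2)) (pr_norm (pr_mul (pr_norm (kcg_159_sf.snd h1 h2)) (pr_norm (kcg_178_sf.snd h1 h2))))) (pr_const (kcg_65.enc h1.l h2)) (kcg_159_sf.snd h1 h2) (kcg_178_sf.snd h1 h2) rfl rfl)))) (pr_case (kcg_185_sf.snd h1 h2) (pr_case (kcg_186_sf.snd h1 h2) (pr_add (pr_subr 1376697517 100000000 (kcg_79_sf.snd h1 h2)) (pr_cmul (enc_norm (kcg_3.enc h1.l h2)) (pr_norm (pr_subr 9645681 1000000 (kcg_84_sf.snd h1 h2))))) (pr_add (pr_add (pr_subr 48955481 10000000 (kcg_91_sf.snd h1 h2)) (pr_cmul (enc_norm (kcg_3.enc h1.l h2)) (pr_norm (pr_subr 689413 100000 (kcg_96_sf.snd h1 h2))))) (pr_mA (pr_cmul (enc_norm (kcg_109.enc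 h1.l h2)) (pr_norm (pr_mul (pr_norm (kcg_186_sf.snd h1 h2)) (pr_norm (kcg_195_sf.snd h1 h2))))) (pr_const (kcg_109.enc h1.l h2)) (kcg_186_sf.snd h1 h2) (kcg_195_sf.snd h1 h2) rfl rfl))) (pr_case (pr_csub (enc_rat _ 1 10) h1) (pr_add (pr_add (pr_csub (enc_rat _ 79787 200000) (kcg_119_sf.snd h1 h2)) (pr_cmul (enc_norm (kcg_3.enc h1.l h2)) (pr_norm (pr_subr 6101 5000 (pr_neg (kcg_122_sf.snd h1 h2)))))) (pr_mA (pr_cmul (enc_norm (kcg_129.enc h1.l h2)) (pr_norm (pr_mul (pr_norm (kcg_185_sf.snd h1 h2)) (pr_norm (kcg_208_sf.snd h1 h2))))) (pr_const (kcg_129.enc h1.l h2)) (kcg_185_sf.snd h1 h2) (kcg_208_sf.snd h1 h2) rfl rfl)) (pr_sub (pr_neg (kcg_135_sf.snd h1 h2)) (kcg_138_sf.snd h1 h2))))))))⟩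
noncomputable def kf0q0_9_sf : Sl2 kf0q0_9 := ⟨_, fun h1 h2 => (pr_scaleT 3 2 h1)⟩
noncomputable def kf0q0_12_sf : Sl2 kf0q0_12 := ⟨_, fun h1 h2 => (pr_cadd (enc_pnc _ 1) (c1g_sf.snd h1))⟩
noncomputable def kf0q0_sf : Sl2 kf0q0 := ⟨_, fun h1 h2 => (pr_norm (pr_add (pr_mul (pr_norm (pr_mul (pr_norm (pr_sub (c1g_sf.snd h1) (kf0q0_9_sf.snd h1 h2))) (pr_norm (kf0q0_12_sf.snd h1 h2)))) (pr_nd (pr_inv (pr_sub (kf0q0_12_sf.snd h1 h2) (kf0q0_9_sf.snd h1 h2))))) (pr_mul h1 (kcg_sf.snd (pr_norm (pr_sub (pr_scaleT 3 4 h1) (pr_half (c1g_sf.snd h1)))) h2))))⟩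
noncomputable def txg_6_sf : Sl3 txg_6 := ⟨_, fun h1 h2 h3 => (pr_add h1 (pr_half h2))⟩
noncomputable def txg_26_sf : Sl3 txg_26 := ⟨_, fun h1 h2 h3 => (pr_addc h1 (enc_rat _ 1 5))⟩
noncomputable def txg_29_sf : Sl3 txg_29 := ⟨_, fun h1 h2 h3 => (pr_addc h1 (enc_rat _ 21 50))⟩
noncomputable def txg_32_sf : Sl3 txg_32 := ⟨_, fun h1 h2 h3 => (pr_addc h1 (enc_rat _ 93027 200000))⟩
noncomputable def txg_35_sf : Sl3 txg_35 := ⟨_, fun h1 h2 h3 => (pr_addc h1 (enc_rat _ 39 80))⟩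
noncomputable def txg_53_sf : Sl3 txg_53 := ⟨_, fun h1 h2 h3 => (pr_addc h1 (enc_rat _ 1 2))⟩
noncomputable def txg_54_sf : Sl3 txg_54 := ⟨_, fun h1 h2 h3 => (pr_csub (enc_neg (enc_rat _ 39 80)) h1)⟩
noncomputable def txg_61_sf : Sl3 txg_61 := ⟨_, fun h1 h2 h3 => (pr_addc h1 (enc_rat _ 119 250))⟩
noncomputable def txg_76_sf : Sl3 txg_76 := ⟨_, fun h1 h2 h3 => (pr_csub (enc_neg (enc_rat _ 119 250)) h1)⟩
noncomputable def txg_97_sf : Sl3 txg_97 := ⟨_, fun h1 h2 h3 => (pr_csub (enc_neg (enc_rat _ 93027 200000)) h1)⟩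
noncomputable def txg_106_sf : Sl3 txg_106 := ⟨_, fun h1 h2 h3 => (pr_addc h1 (enc_rat _ 87857 200000))⟩
noncomputable def txg_124_sf : Sl3 txg_124 := ⟨_, fun h1 h2 h3 => (pr_csub (enc_neg (enc_rat _ 87857 200000)) h1)⟩
noncomputable def txg_131_sf : Sl3 txg_131 := ⟨_, fun h1 h2 h3 => (pr_addc h1 (enc_rat _ 43 100))⟩
noncomputable def txg_147_sf : Sl3 txg_147 := ⟨_, fun h1 h2 h3 => (pr_csub (enc_neg (enc_rat _ 43 100)) h1)⟩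
noncomputable def txg_167_sf : Sl3 txg_167 := ⟨_, fun h1 h2 h3 => (pr_csub (enc_neg (enc_rat _ 21 50)) h1)⟩
noncomputable def txg_177_sf : Sl3 txg_177 := ⟨_, fun h1 h2 h3 => (pr_addc h1 (enc_rat _ 3 8))⟩
noncomputable def txg_180_sf : Sl3 txg_180 := ⟨_, fun h1 h2 h3 => (pr_addc h1 (enc_rat _ 41 100))⟩
noncomputable def txg_194_sf : Sl3 txg_194 := ⟨_, fun h1 h2 h3 => (pr_csub (enc_neg (enc_rat _ 41 100)) h1)⟩
noncomputable def txg_201_sf : Sl3 txg_201 := ⟨_, fun h1 h2 h3 => (pr_addc h1 (enc_rat _ 2 5))⟩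
noncomputable def txg_214_sf : Sl3 txg_214 := ⟨_, fun h1 h2 h3 => (pr_csub (enc_neg (enc_rat _ 2 5)) h1)⟩
noncomputable def txg_230_sf : Sl3 txg_230 := ⟨_, fun h1 h2 h3 => (pr_csub (enc_neg (enc_rat _ 3 8)) h1)⟩
noncomputable def txg_239_sf : Sl3 txg_239 := ⟨_, fun h1 h2 h3 => (pr_addc h1 (enc_rat _ 7 20))⟩
noncomputable def txg_255_sf : Sl3 txg_255 := ⟨_, fun h1 h2 h3 => (pr_csub (enc_neg (enc_rat _ 7 20)) h1)⟩
noncomputable def txg_262_sf : Sl3 txg_262 := ⟨_, fun h1 h2 h3 => (pr_addc h1 (enc_rat _ 3 10))⟩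
noncomputable def txg_275_sf : Sl3 txg_275 := ⟨_, fun h1 h2 h3 => (pr_csub (enc_neg (enc_rat _ 3 10)) h1)⟩
noncomputable def txg_292_sf : Sl3 txg_292 := ⟨_, fun h1 h2 h3 => (pr_csub (enc_neg (enc_rat _ 1 5)) h1)⟩
noncomputable def txg_301_sf : Sl3 txg_301 := ⟨_, fun h1 h2 h3 => (pr_subr 3 8 h1)⟩
noncomputable def txg_302_sf : Sl3 txg_302 := ⟨_, fun h1 h2 h3 => (pr_subr 1 5 h1)⟩
noncomputable def txg_305_sf : Sl3 txg_305 := ⟨_, fun h1 h2 h3 => (pr_addc h1 (enc_rat _ 1 10))⟩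
noncomputable def txg_316_sf : Sl3 txg_316 := ⟨_, fun h1 h2 h3 => (pr_csub (enc_neg (enc_rat _ 1 10)) h1)⟩
noncomputable def txg_321_sf : Sl3 txg_321 := ⟨_, fun h1 h2 h3 => (pr_subr 1 10 h1)⟩
noncomputable def txg_331_sf : Sl3 txg_331 := ⟨_, fun h1 h2 h3 => (pr_csub (enc_rat _ 1 10) h1)⟩
noncomputable def txg_350_sf : Sl3 txg_350 := ⟨_, fun h1 h2 h3 => (pr_csub (enc_rat _ 1 5) h1)⟩
noncomputable def txg_357_sf : Sl3 txg_357 := ⟨_, fun h1 h2 h3 => (pr_subr 3 10 h1)⟩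
noncomputable def txg_372_sf : Sl3 txg_372 := ⟨_, fun h1 h2 h3 => (pr_csub (enc_rat _ 3 10) h1)⟩
noncomputable def txg_377_sf : Sl3 txg_377 := ⟨_, fun h1 h2 h3 => (pr_subr 7 20 h1)⟩
noncomputable def txg_392_sf : Sl3 txg_392 := ⟨_, fun h1 h2 h3 => (pr_csub (enc_rat _ 7 20) h1)⟩
noncomputable def txg_413_sf : Sl3 txg_413 := ⟨_, fun h1 h2 h3 => (pr_csub (enc_rat _ 3 8) h1)⟩
noncomputable def txg_421_sf : Sl3 txg_421 := ⟨_, fun h1 h2 h3 => (pr_subr 41 100 h1)⟩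
noncomputable def txg_423_sf : Sl3 txg_423 := ⟨_, fun h1 h2 h3 => (pr_subr 39 100 h1)⟩
noncomputable def txg_438_sf : Sl3 txg_438 := ⟨_, fun h1 h2 h3 => (pr_csub (enc_rat _ 39 100) h1)⟩
noncomputable def txg_443_sf : Sl3 txg_443 := ⟨_, fun h1 h2 h3 => (pr_subr 2 5 h1)⟩
noncomputable def txg_460_sf : Sl3 txg_460 := ⟨_, fun h1 h2 h3 => (pr_csub (enc_rat _ 2 5) h1)⟩
noncomputable def txg_479_sf : Sl3 txg_479 := ⟨_, fun h1 h2 h3 => (pr_csub (enc_rat _ 41 100) h1)⟩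
noncomputable def txg_486_sf : Sl3 txg_486 := ⟨_, fun h1 h2 h3 => (pr_subr 21 50 h1)⟩
noncomputable def txg_504_sf : Sl3 txg_504 := ⟨_, fun h1 h2 h3 => (pr_csub (enc_rat _ 21 50) h1)⟩
noncomputable def txg_509_sf : Sl3 txg_509 := ⟨_, fun h1 h2 h3 => (pr_subr 43 100 h1)⟩
noncomputable def txg_527_sf : Sl3 txg_527 := ⟨_, fun h1 h2 h3 => (pr_csub (enc_rat _ 43 100) h1)⟩
noncomputable def txg_558_sf : Sl3 txg_558 := ⟨_, fun h1 h2 h3 => (pr_csub (enc_rat _ 2507 5707) h1)⟩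
noncomputable def txg_569_sf : Sl3 txg_569 := ⟨_, fun h1 h2 h3 => (pr_subr 587 1262 h1)⟩
noncomputable def txg_570_sf : Sl3 txg_570 := ⟨_, fun h1 h2 h3 => (pr_subr 119 250 h1)⟩
noncomputable def txg_597_sf : Sl3 txg_597 := ⟨_, fun h1 h2 h3 => (pr_csub (enc_rat _ 119 250) h1)⟩
noncomputable def txg_602_sf : Sl3 txg_602 := ⟨_, fun h1 h2 h3 => (pr_subr 39 80 h1)⟩
noncomputable def txg_617_sf : Sl3 txg_617 := ⟨_, fun h1 h2 h3 => (pr_csub (enc_rat _ 39 80) h1)⟩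
noncomputable def txg_637_sf : Sl3 txg_637 := ⟨_, fun h1 h2 h3 => (pr_csub (enc_rat _ 1 2) h1)⟩
noncomputable def txg_sf : Sl3 txg := ⟨_, fun h1 h2 h3 => (pr_case (pr_subr 2507 5707 h1) (pr_case (txg_26_sf.snd h1 h2 h3) (pr_case (txg_29_sf.snd h1 h2 h3) (pr_case (txg_32_sf.snd h1 h2 h3) (pr_case (txg_35_sf.snd h1 h2 h3) (pr_add (pr_add (pr_addc (pr_scaleT 269281 1250000 h1) (enc_rat _ 269281 2500000)) (pr_cmul (enc_norm (txg_4.enc h1.l h2.l h3)) (pr_norm (pr_subr 135919 125000 (pr_neg (pr_scaleT 135919 62500 h1)))))) (pr_mA (pr_cmul (enc_norm (txg_50.enc h1.l h2.l h3)) (pr_norm (pr_mul (pr_norm (txg_53_sf.snd h1 h2 h3)) (pr_norm (txg_54_sf.snd h1 h2 h3))))) (pr_const (txg_50.enc h1.l h2.l h3)) (txg_53_sf.snd h1 h2 h3) (txg_54_sf.snd h1 h2 h3) rfl rfl)) (pr_case (txg_61_sf.snd h1 h2 h3) (pr_add (pr_add (pr_addc (pr_scaleT 77607 287500 h1) (enc_rat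 _ 308860763 2300000000)) (pr_cmul (enc_norm (txg_4.enc h1.l h2.l h3)) (pr_norm (pr_subr 778611199 230000000 (pr_neg (pr_scaleT 792163 115000 h1)))))) (pr_mA (pr_cmul (enc_norm (txg_75.enc h1.l h2.l h3)) (pr_norm (pr_mul (pr_norm (txg_35_sf.snd h1 h2 h3)) (pr_norm (txg_76_sf.snd h1 h2 h3))))) (pr_const (txg_75.enc h1.l h2.l h3)) (txg_35_sf.snd h1 h2 h3) (txg_76_sf.snd h1 h2 h3) rfl rfl)) (pr_add (pr_add (pr_addc (pr_scaleT 112661 543250 h1) (enc_rat _ 22710362057 217300000000)) (pr_cmul (enc_norm (txg_4.enc h1.l h2.l h3)) (pr_norm (pr_subr 70842174973 21730000000 (pr_neg (pr_scaleT 359927 54325 h1)))))) (pr_mA (pr_cmul (enc_norm (txg_96.enc h1.l h2.l h3)) (pr_norm (pr_mul (pr_norm (txg_61_sf.snd h1 h2 h3)) (pr_norm (txg_97_sf.snd h1 h2 h3))))) (pr_const (txg_96.enc h1.l h2.l h3)) (txg_61_sf.snd h1 h2 h3) (txg_97_sf.snd h1 h2 h3) rfl rfl)))) (pr_case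 (txg_106_sf.snd h1 h2 h3) (pr_add (pr_add (pr_addc (pr_scaleT 97769 517000 h1) (enc_rat _ 902505347 9400000000)) (pr_cmul (enc_norm (txg_4.enc h1.l h2.l h3)) (pr_norm (pr_subr 7185246581 4700000000 (pr_neg (pr_scaleT 750483 258500 h1)))))) (pr_mA (pr_cmul (enc_norm (txg_123.enc h1.l h2.l h3)) (pr_norm (pr_mul (pr_norm (txg_32_sf.snd h1 h2 h3)) (pr_norm (txg_124_sf.snd h1 h2 h3))))) (pr_const (txg_123.enc h1.l h2.l h3)) (txg_32_sf.snd h1 h2 h3) (txg_124_sf.snd h1 h2 h3) rfl rfl)) (pr_case (txg_131_sf.snd h1 h2 h3) (pr_add (pr_add (pr_addc (pr_scaleT 370037 928500 h1) (enc_rat _ 34913068441 185700000000)) (pr_cmul (enc_norm (txg_4.enc h1.l h2.l h3)) (pr_norm (pr_addc (pr_scaleT 52276 9285 h1) (enc_rat _ 20610929827 9285000000))))) (pr_mA (pr_cmul (enc_norm (txg_146.enc h1.l h2.l h3)) (pr_norm (pr_mul (pr_norm (txg_106_sf.snd h1 h2 h3)) (pr_norm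 (txg_147_sf.snd h1 h2 h3))))) (pr_const (txg_146.enc h1.l h2.l h3)) (txg_106_sf.snd h1 h2 h3) (txg_147_sf.snd h1 h2 h3) rfl rfl)) (pr_add (pr_add (pr_addc (pr_scaleT 859107 1000000 h1) (enc_rat _ 19302757 50000000)) (pr_cmul (enc_norm (txg_4.enc h1.l h2.l h3)) (pr_norm (pr_addc (pr_scaleT 3582419 100000 h1) (enc_rat _ 152032439 10000000))))) (pr_mA (pr_cmul (enc_norm (txg_166.enc h1.l h2.l h3)) (pr_norm (pr_mul (pr_norm (txg_131_sf.snd h1 h2 h3)) (pr_norm (txg_167_sf.snd h1 h2 h3))))) (pr_const (txg_166.enc h1.l h2.l h3)) (txg_131_sf.snd h1 h2 h3) (txg_167_sf.snd h1 h2 h3) rfl rfl))))) (pr_case (txg_177_sf.snd h1 h2 h3) (pr_case (txg_180_sf.snd h1 h2 h3) (pr_add (pr_add (pr_addc (pr_scaleT 39257 31250 h1) (enc_rat _ 13821107 25000000)) (pr_cmul (enc_norm (txg_4.enc h1.l h2.l h3)) (pr_norm (pr_addc (pr_scaleT 2895023 50000 h1) (enc_rat _ 244752773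 10000000))))) (pr_mA (pr_cmul (enc_norm (txg_193.enc h1.l h2.l h3)) (pr_norm (pr_mul (pr_norm (txg_29_sf.snd h1 h2 h3)) (pr_norm (txg_194_sf.snd h1 h2 h3))))) (pr_const (txg_193.enc h1.l h2.l h3)) (txg_29_sf.snd h1 h2 h3) (txg_194_sf.snd h1 h2 h3) rfl rfl)) (pr_case (txg_201_sf.snd h1 h2 h3) (pr_add (pr_add (pr_addc (pr_scaleT 1298713 1000000 h1) (enc_rat _ 57026477 100000000)) (pr_cmul (enc_norm (txg_4.enc h1.l h2.l h3)) (pr_norm (pr_addc (pr_scaleT 2537697 100000 h1) (enc_rat _ 870363 78125))))) (pr_mA (pr_cmul (enc_norm (txg_213.enc h1.l h2.l h3)) (pr_norm (pr_mul (pr_norm (txg_180_sf.snd h1 h2 h3)) (pr_norm (txg_214_sf.snd h1 h2 h3))))) (pr_const (txg_213.enc h1.l h2.l h3)) (txg_180_sf.snd h1 h2 h3) (txg_214_sf.snd h1 h2 h3) rfl rfl)) (pr_add (pr_add (pr_addc (pr_scaleT 2713411 2500000 h1) (enc_rat _ 48492533 100000000)) (pr_cmul (enc_norm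 (txg_4.enc h1.l h2.l h3)) (pr_norm (pr_subr 1593203 1250000 (pr_neg (pr_scaleT 1415263 250000 h1)))))) (pr_mA (pr_scaleT 25549 5000 (pr_mul (pr_norm (txg_201_sf.snd h1 h2 h3)) (pr_norm (txg_230_sf.snd h1 h2 h3)))) (pr_const (enc_rat _ 25549 5000)) (txg_201_sf.snd h1 h2 h3) (txg_230_sf.snd h1 h2 h3) rfl rfl)))) (pr_case (txg_239_sf.snd h1 h2 h3) (pr_add (pr_add (pr_addc (pr_scaleT 1342667 1250000 h1) (enc_rat _ 24035689 50000000)) (pr_cmul (enc_norm (txg_4.enc h1.l h2.l h3)) (pr_norm (pr_addc (pr_scaleT 3523 125000 h1) (enc_rat _ 8589011 10000000))))) (pr_mA (pr_cmul (enc_norm (txg_254.enc h1.l h2.l h3)) (pr_norm (pr_mul (pr_norm (txg_177_sf.snd h1 h2 h3)) (pr_norm (txg_255_sf.snd h1 h2 h3))))) (pr_const (txg_254.enc h1.l h2.l h3)) (txg_177_sf.snd h1 h2 h3) (txg_255_sf.snd h1 h2 h3) rfl rfl)) (pr_case (txg_262_sf.snd h1 h2 h3) (pr_add (pr_add (pr_addc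 (pr_scaleT 4957461 5000000 h1) (enc_rat _ 45178929 100000000)) (pr_cmul (enc_norm (txg_4.enc h1.l h2.l h3)) (pr_norm (pr_addc (pr_scaleT 2416861 500000 h1) (enc_rat _ 12704197 5000000))))) (pr_mA (pr_cmul (enc_norm (txg_274.enc h1.l h2.l h3)) (pr_norm (pr_mul (pr_norm (txg_239_sf.snd h1 h2 h3)) (pr_norm (txg_275_sf.snd h1 h2 h3))))) (pr_const (txg_274.enc h1.l h2.l h3)) (txg_239_sf.snd h1 h2 h3) (txg_275_sf.snd h1 h2 h3) rfl rfl)) (pr_add (pr_add (pr_addc (pr_scaleT 7512621 10000000 h1) (enc_rat _ 18986013 50000000)) (pr_cmul (enc_norm (txg_4.enc h1.l h2.l h3)) (pr_norm (pr_addc (pr_scaleT 1495411 500000 h1) (enc_rat _ 9939847 5000000))))) (pr_mA (pr_cmul (enc_norm (txg_291.enc h1.l h2.l h3)) (pr_norm (pr_mul (pr_norm (txg_262_sf.snd h1 h2 h3)) (pr_norm (txg_292_sf.snd h1 h2 h3))))) (pr_const (txg_291.enc h1.l h2.l h3)) (txg_262_sf.snd h1 h2 h3)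 (txg_292_sf.snd h1 h2 h3) rfl rfl)))))) (pr_case (txg_301_sf.snd h1 h2 h3) (pr_case (txg_302_sf.snd h1 h2 h3) (pr_case (txg_305_sf.snd h1 h2 h3) (pr_add (pr_add (pr_addc (pr_scaleT 2582061 5000000 h1) (enc_rat _ 8318757 25000000)) (pr_cmul (enc_norm (txg_4.enc h1.l h2.l h3)) (pr_norm (pr_addc (pr_scaleT 1072421 1000000 h1) (enc_rat _ 4010723 2500000))))) (pr_mA (pr_cmul (enc_norm (txg_315.enc h1.l h2.l h3)) (pr_norm (pr_mul (pr_norm (txg_26_sf.snd h1 h2 h3)) (pr_norm (txg_316_sf.snd h1 h2 h3))))) (pr_const (txg_315.enc h1.l h2.l h3)) (txg_26_sf.snd h1 h2 h3) (txg_316_sf.snd h1 h2 h3) rfl rfl)) (pr_case (txg_321_sf.snd h1 h2 h3) (pr_add (pr_add (pr_addc (pr_scaleT 1474343 20000000 h1) (enc_rat _ 11539231 40000000)) (pr_cmul (enc_norm (txg_4.enc h1.l h2.l h3)) (pr_norm (pr_addc (pr_scaleT 56611 500000 h1) (enc_rat _ 15083693 10000000))))) (pr_mA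 (pr_scaleT 6223 5000 (pr_mul (pr_norm (txg_305_sf.snd h1 h2 h3)) (pr_norm (txg_331_sf.snd h1 h2 h3)))) (pr_const (enc_rat _ 6223 5000)) (txg_305_sf.snd h1 h2 h3) (txg_331_sf.snd h1 h2 h3) rfl rfl)) (pr_add (pr_add (pr_csub (enc_rat _ 32822927 100000000) (pr_scaleT 1618839 5000000 h1)) (pr_cmul (enc_norm (txg_4.enc h1.l h2.l h3)) (pr_norm (pr_csub (enc_rat _ 15607143 10000000) (pr_scaleT 102557 250000 h1))))) (pr_mA (pr_cmul (enc_norm (txg_349.enc h1.l h2.l h3)) (pr_norm (pr_mul (pr_norm (txg_321_sf.snd h1 h2 h3)) (pr_norm (txg_350_sf.snd h1 h2 h3))))) (pr_const (txg_349.enc h1.l h2.l h3)) (txg_321_sf.snd h1 h2 h3) (txg_350_sf.snd h1 h2 h3) rfl rfl)))) (pr_case (txg_357_sf.snd h1 h2 h3) (pr_add (pr_add (pr_csub (enc_rat _ 38399627 100000000) (pr_scaleT 1506507 2500000 h1)) (pr_cmul (enc_norm (txg_4.enc h1.l h2.l h3)) (pr_norm (pr_csub (enc_rat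 _ 3679829 2000000) (pr_scaleT 1806229 1000000 h1))))) (pr_mA (pr_cmul (enc_norm (txg_371.enc h1.l h2.l h3)) (pr_norm (pr_mul (pr_norm (txg_302_sf.snd h1 h2 h3)) (pr_norm (txg_372_sf.snd h1 h2 h3))))) (pr_const (txg_371.enc h1.l h2.l h3)) (txg_302_sf.snd h1 h2 h3) (txg_372_sf.snd h1 h2 h3) rfl rfl)) (pr_case (txg_377_sf.snd h1 h2 h3) (pr_add (pr_add (pr_csub (enc_rat _ 9758491 20000000) (pr_scaleT 74143 78125 h1)) (pr_cmul (enc_norm (txg_4.enc h1.l h2.l h3)) (pr_norm (pr_csub (enc_rat _ 422551 156250) (pr_scaleT 2343801 500000 h1))))) (pr_mA (pr_cmul (enc_norm (txg_391.enc h1.l h2.l h3)) (pr_norm (pr_mul (pr_norm (txg_357_sf.snd h1 h2 h3)) (pr_norm (txg_392_sf.snd h1 h2 h3))))) (pr_const (txg_391.enc h1.l h2.l h3)) (txg_357_sf.snd h1 h2 h3) (txg_392_sf.snd h1 h2 h3) rfl rfl)) (pr_add (pr_add (pr_csub (enc_rat _ 56446997 100000000) (pr_scaleT 2919329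 2500000 h1)) (pr_cmul (enc_norm (txg_4.enc h1.l h2.l h3)) (pr_norm (pr_csub (enc_rat _ 26251529 10000000) (pr_scaleT 278837 62500 h1))))) (pr_mA (pr_cmul (enc_norm (txg_412.enc h1.l h2.l h3)) (pr_norm (pr_mul (pr_norm (txg_377_sf.snd h1 h2 h3)) (pr_norm (txg_413_sf.snd h1 h2 h3))))) (pr_const (txg_412.enc h1.l h2.l h3)) (txg_377_sf.snd h1 h2 h3) (txg_413_sf.snd h1 h2 h3) rfl rfl))))) (pr_case (txg_421_sf.snd h1 h2 h3) (pr_case (txg_423_sf.snd h1 h2 h3) (pr_add (pr_add (pr_csub (enc_rat _ 57060537 100000000) (pr_scaleT 1776139 1500000 h1)) (pr_cmul (enc_norm (txg_4.enc h1.l h2.l h3)) (pr_norm (pr_csub (enc_rat _ 43229359 10000000) (pr_scaleT 674161 75000 h1))))) (pr_mA (pr_cmul (enc_norm (txg_437.enc h1.l h2.l h3)) (pr_norm (pr_mul (pr_norm (txg_301_sf.snd h1 h2 h3)) (pr_norm (txg_438_sf.snd h1 h2 h3))))) (pr_const (txg_437.enc h1.l h2.l h3)) (txg_301_sf.snd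 h1 h2 h3) (txg_438_sf.snd h1 h2 h3) rfl rfl)) (pr_case (txg_443_sf.snd h1 h2 h3) (pr_add (pr_add (pr_csub (enc_rat _ 58168423 100000000) (pr_scaleT 97 80 h1)) (pr_cmul (enc_norm (txg_4.enc h1.l h2.l h3)) (pr_norm (pr_csub (enc_rat _ 14534067 5000000) (pr_scaleT 535773 100000 h1))))) (pr_mA (pr_cmul (enc_norm (txg_459.enc h1.l h2.l h3)) (pr_norm (pr_mul (pr_norm (txg_423_sf.snd h1 h2 h3)) (pr_norm (txg_460_sf.snd h1 h2 h3))))) (pr_const (txg_459.enc h1.l h2.l h3)) (txg_423_sf.snd h1 h2 h3) (txg_460_sf.snd h1 h2 h3) rfl rfl)) (pr_add (pr_add (pr_csub (enc_rat _ 61356063 100000000) (pr_scaleT 1292191 1000000 h1)) (pr_cmul (enc_norm (txg_4.enc h1.l h2.l h3)) (pr_norm (pr_csub (enc_rat _ 31524287 5000000) (pr_scaleT 346321 25000 h1))))) (pr_mA (pr_cmul (enc_norm (txg_478.enc h1.l h2.l h3)) (pr_norm (pr_mul (pr_norm (txg_443_sf.snd h1 h2 h3)) (pr_norm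 (txg_479_sf.snd h1 h2 h3))))) (pr_const (txg_478.enc h1.l h2.l h3)) (txg_443_sf.snd h1 h2 h3) (txg_479_sf.snd h1 h2 h3) rfl rfl)))) (pr_case (txg_486_sf.snd h1 h2 h3) (pr_add (pr_add (pr_csub (enc_rat _ 30627171 50000000) (pr_scaleT 128971 100000 h1)) (pr_cmul (enc_norm (txg_4.enc h1.l h2.l h3)) (pr_norm (pr_csub (enc_rat _ 28075497 2000000) (pr_scaleT 654271 20000 h1))))) (pr_mA (pr_cmul (enc_norm (txg_503.enc h1.l h2.l h3)) (pr_norm (pr_mul (pr_norm (txg_421_sf.snd h1 h2 h3)) (pr_norm (txg_504_sf.snd h1 h2 h3))))) (pr_const (txg_503.enc h1.l h2.l h3)) (txg_421_sf.snd h1 h2 h3) (txg_504_sf.snd h1 h2 h3) rfl rfl)) (pr_case (txg_509_sf.snd h1 h2 h3) (pr_add (pr_add (pr_csub (enc_rat _ 5246853 10000000) (pr_scaleT 270131 250000 h1)) (pr_cmul (enc_norm (txg_4.enc h1.l h2.l h3)) (pr_norm (pr_csub (enc_rat _ 3347973 400000) (pr_scaleT 615 32 h1)))))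 (pr_mA (pr_cmul (enc_norm (txg_526.enc h1.l h2.l h3)) (pr_norm (pr_mul (pr_norm (txg_486_sf.snd h1 h2 h3)) (pr_norm (txg_527_sf.snd h1 h2 h3))))) (pr_const (txg_526.enc h1.l h2.l h3)) (txg_486_sf.snd h1 h2 h3) (txg_527_sf.snd h1 h2 h3) rfl rfl)) (pr_add (pr_add (pr_add (pr_csub (enc_rat _ 257478342781239721 604827860000000000) (pr_scaleT 5143078921074347 6048278600000000 h1)) (pr_cmul (enc_norm (txg_4.enc h1.l h2.l h3)) (pr_norm (pr_csub (enc_rat _ 37593660945160233 30241393000000000) (pr_scaleT 799814062052331 302413930000000 h1))))) (pr_cmul (txg_546.enc h1.l h2.l h3) (pr_norm (pr_csub (enc_rat _ 726647583 16559375000) (pr_scaleT 16898781 165593750 h1))))) (pr_mA (pr_cmul (enc_norm (txg_557.enc h1.l h2.l h3)) (pr_norm (pr_mul (pr_norm (txg_509_sf.snd h1 h2 h3)) (pr_norm (txg_558_sf.snd h1 h2 h3))))) (pr_const (txg_557.enc h1.l h2.l h3)) (txg_509_sf.snd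 h1 h2 h3) (txg_558_sf.snd h1 h2 h3) rfl rfl))))))) (pr_case (txg_569_sf.snd h1 h2 h3) (pr_sub (pr_mul (pr_norm (pr_csub (enc_pnc _ 1) h2)) (pr_norm (pr_subn 1 (pr_nat 2 h2)))) (pr_mul (pr_norm (pr_nat 2 (pr_subc (pr_scaleT 4 3 (txg_6_sf.snd h1 h2 h3)) h3))) (pr_norm (pr_mul (pr_norm (pr_subn 1 (pr_add (pr_scaleT 2 3 (txg_6_sf.snd h1 h2 h3)) h2))) (kcg_sf.snd h1 h3))))) (pr_case (txg_570_sf.snd h1 h2 h3) (pr_add (pr_add (pr_add (pr_csub (enc_rat _ 37796486795805231 86522720000000000) (pr_scaleT 301883139530249 346090880000000 h1)) (pr_cmul (enc_norm (txg_4.enc h1.l h2.l h3)) (pr_norm (pr_csub (enc_rat _ 144627853011749 346090880000000) (pr_scaleT 1072177368131 1384363520000 h1))))) (pr_cmul (txg_546.enc h1.l h2.l h3) (pr_norm (pr_csub (enc_rat _ 364507764383 42850000000) (pr_scaleT 3063090457 171400000 h1))))) (pr_mA (pr_cmul (enc_norm (txg_596.enc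 h1.l h2.l h3)) (pr_norm (pr_mul (pr_norm (txg_569_sf.snd h1 h2 h3)) (pr_norm (txg_597_sf.snd h1 h2 h3))))) (pr_const (txg_596.enc h1.l h2.l h3)) (txg_569_sf.snd h1 h2 h3) (txg_597_sf.snd h1 h2 h3) rfl rfl)) (pr_case (txg_602_sf.snd h1 h2 h3) (pr_add (pr_add (pr_csub (enc_rat _ 6558451 14375000) (pr_scaleT 524989 575000 h1)) (pr_cmul (enc_norm (txg_4.enc h1.l h2.l h3)) (pr_norm (pr_csub (enc_rat _ 2111519 5750000) (pr_scaleT 3073 4600 h1))))) (pr_mA (pr_cmul (enc_norm (txg_616.enc h1.l h2.l h3)) (pr_norm (pr_mul (pr_norm (txg_570_sf.snd h1 h2 h3)) (pr_norm (txg_617_sf.snd h1 h2 h3))))) (pr_const (txg_616.enc h1.l h2.l h3)) (txg_570_sf.snd h1 h2 h3) (txg_617_sf.snd h1 h2 h3) rfl rfl)) (pr_add (pr_add (pr_csub (enc_rat _ 111407 250000) (pr_scaleT 111407 125000 h1)) (pr_cmul (enc_norm (txg_4.enc h1.l h2.l h3)) (pr_norm (pr_csub (enc_rat _ 83099 50000)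 (pr_scaleT 83099 25000 h1))))) (pr_mA (pr_cmul (enc_norm (txg_636.enc h1.l h2.l h3)) (pr_norm (pr_mul (pr_norm (txg_602_sf.snd h1 h2 h3)) (pr_norm (txg_637_sf.snd h1 h2 h3))))) (pr_const (txg_636.enc h1.l h2.l h3)) (txg_602_sf.snd h1 h2 h3) (txg_637_sf.snd h1 h2 h3) rfl rfl))))))⟩
noncomputable def l0q0_sf : Sl2 l0q0 := ⟨_, fun h1 h2 => (pr_norm (txg_sf.snd (pr_norm (pr_sub (pr_scaleT 3 4 h1) (pr_half (c1g_sf.snd h1)))) (pr_nd (c1g_sf.snd h1)) h2))⟩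
noncomputable def swg_sf : Sl1 swg := ⟨_, fun h1 => (pr_sqrt (pr_csub (enc_pnc _ 1) (pr_scaleT 3 4 (pr_sq (pr_norm (pr_subn 1 h1))))))⟩
noncomputable def cv1m_sf : Sl1 cv1m := ⟨_, fun h1 => (pr_norm (pr_add (pr_scaleT 4 5 (c1g_sf.snd h1)) (pr_scaleT 1 5 (pr_addc (swg_sf.snd h1) (enc_rat _ 1 2)))))⟩
noncomputable def bf1q0_22_sf : Sl2 bf1q0_22 := ⟨_, fun h1 h2 => (pr_scaleT 13 6 h1)⟩
noncomputable def bf1q0_53_sf : Sl2 bf1q0_53 := ⟨_, fun h1 h2 => (pr_neg (pr_scaleT 64 11 h1))⟩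
noncomputable def bf1q0_70_sf : Sl2 bf1q0_70 := ⟨_, fun h1 h2 => (pr_cmul (enc_norm (bf1q0_3.enc h1.l h2)) (pr_norm (pr_subr 1121 30000 (pr_neg (pr_scaleT 262 45 h1)))))⟩
noncomputable def bf1q0_73_sf : Sl2 bf1q0_73 := ⟨_, fun h1 h2 => (pr_csub (enc_rat _ 20023 20000) (bf1q0_22_sf.snd h1 h2))⟩
noncomputable def bf1q0_91_sf : Sl2 bf1q0_91 := ⟨_, fun h1 h2 => (pr_scaleT 1354 625 h1)⟩
noncomputable def bf1q0_96_sf : Sl2 bf1q0_96 := ⟨_, fun h1 h2 => (pr_neg (pr_scaleT 291 50 h1))⟩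
noncomputable def bf1q0_100_sf : Sl2 bf1q0_100 := ⟨_, fun h1 h2 => (pr_cmul (enc_norm (bf1q0_3.enc h1.l h2)) (pr_norm (pr_subr 187 5000 (bf1q0_96_sf.snd h1 h2))))⟩
noncomputable def bf1q0_sf : Sl2 bf1q0 := ⟨_, fun h1 h2 => (pr_norm (pr_case (pr_subr 21 500 h1) (pr_case (pr_subr 37 2000 h1) (pr_case (pr_subr 67 10000 h1) (pr_sub (pr_csub (enc_pnc _ 1) (pr_scaleT 669 335 h1)) (pr_cmul (enc_norm (bf1q0_3.enc h1.l h2)) (pr_nd (pr_scaleT 637 67 h1)))) (pr_case (pr_subr 133 10000 h1) (pr_add (pr_csub (enc_rat _ 300341 300000) (bf1q0_22_sf.snd h1 h2)) (pr_cmul (enc_norm (bf1q0_3.enc h1.l h2)) (pr_norm (pr_subr 3869 330000 (pr_neg (pr_scaleT 256 33 h1)))))) (pr_add (pr_csub (enc_rat _ 2602911 2600000) (pr_scaleT 563 260 h1)) (pr_cmul (enc_norm (bf1q0_3.enc h1.l h2)) (pr_norm (pr_subr 9791 260000 (pr_neg (pr_scaleT 151 26 h1)))))))) (pr_case (pr_subr 3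 125 h1) (pr_add (pr_csub (enc_rat _ 110127 110000) (pr_scaleT 596 275 h1)) (pr_cmul (enc_norm (bf1q0_3.enc h1.l h2)) (pr_norm (pr_subr 4121 110000 (bf1q0_53_sf.snd h1 h2))))) (pr_case (pr_subr 33 1000 h1) (pr_add (pr_csub (enc_rat _ 150167 150000) (pr_scaleT 1949 900 h1)) (bf1q0_70_sf.snd h1 h2)) (pr_add (bf1q0_73_sf.snd h1 h2) (bf1q0_70_sf.snd h1 h2))))) (pr_case (pr_subr 1 8 h1) (pr_case (pr_subr 3 50 h1) (pr_add (bf1q0_73_sf.snd h1 h2) (pr_cmul (enc_norm (bf1q0_3.enc h1.l h2)) (pr_norm (pr_subr 47 1250 (pr_neg (pr_scaleT 349 60 h1)))))) (pr_case (pr_subr 17 200 h1) (pr_add (pr_csub (enc_rat _ 500567 500000) (bf1q0_91_sf.snd h1 h2)) (bf1q0_100_sf.snd h1 h2)) (pr_add (pr_csub (enc_rat _ 400457 400000) (pr_scaleT 4333 2000 h1)) (bf1q0_100_sf.snd h1 h2)))) (pr_case (pr_subr 1 4 h1) (pr_case (pr_subr 9 50 h1) (pr_add (pr_csub (enc_rat _ 550619 550000)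 (pr_scaleT 2383 1100 h1)) (pr_cmul (enc_norm (bf1q0_3.enc h1.l h2)) (pr_norm (pr_subr 4139 110000 (bf1q0_53_sf.snd h1 h2))))) (pr_add (pr_csub (enc_rat _ 175199 175000) (pr_scaleT 3033 1400 h1)) (pr_cmul (enc_norm (bf1q0_3.enc h1.l h2)) (pr_norm (pr_subr 373 10000 (bf1q0_96_sf.snd h1 h2)))))) (pr_case (pr_subr 7 20 h1) (pr_add (pr_csub (enc_rat _ 100113 100000) (bf1q0_91_sf.snd h1 h2)) (pr_cmul (enc_norm (bf1q0_3.enc h1.l h2)) (pr_norm (pr_subr 751 20000 (pr_neg (pr_scaleT 5819 1000 h1)))))) (pr_add (pr_csub (enc_rat _ 150173 150000) (pr_scaleT 32497 15000 h1)) (pr_cmul (enc_norm (bf1q0_3.enc h1.l h2)) (pr_norm (pr_subr 93 2500 (bf1q0_96_sf.snd h1 h2))))))))))⟩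
noncomputable def kf1q0_sf : Sl2 kf1q0 := ⟨_, fun h1 h2 => (pr_norm (pr_mul (cv1m_sf.snd h1) (bf1q0_sf.snd h1 h2)))⟩
noncomputable def bx1q0_61_sf : Sl2 bx1q0_61 := ⟨_, fun h1 h2 => (pr_cmul (enc_norm (bx1q0_3.enc h1.l h2)) (pr_norm (pr_csub (enc_rat _ 203 15000) (pr_scaleT 22 45 h1))))⟩
noncomputable def bx1q0_139_sf : Sl2 bx1q0_139 := ⟨_, fun h1 h2 => (pr_cmul (enc_norm (bx1q0_3.enc h1.l h2)) (pr_norm (pr_addc (pr_scaleT 297 500 h1) (enc_rat _ 189 1000))))⟩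
noncomputable def bx1q0_sf : Sl2 bx1q0 := ⟨_, fun h1 h2 => (pr_norm (pr_case (pr_subr 21 500 h1) (pr_case (pr_subr 37 2000 h1) (pr_case (pr_subr 67 10000 h1) (pr_add (pr_scaleT 231 670 h1) (pr_cmul (enc_norm (bx1q0_3.enc h1.l h2)) (pr_nd (pr_scaleT 102 67 h1)))) (pr_case (pr_subr 133 10000 h1) (pr_add (pr_subr 2911 6600000 (pr_scaleT 271 660 h1)) (pr_cmul (enc_norm (bx1q0_3.enc h1.l h2)) (pr_norm (pr_csub (enc_rat _ 2219 165000) (pr_scaleT 16 33 h1))))) (pr_add (pr_subr 2491 5200000 (pr_scaleT 43 104 h1)) (pr_cmul (enc_norm (bx1q0_3.enc h1.l h2)) (pr_norm (pr_csub (enc_rat _ 1393 104000) (pr_scaleT 25 52 h1))))))) (pr_case (pr_subr 3 125 h1) (pr_add (pr_subr 19 44000 (pr_scaleT 113 275 h1)) (pr_cmul (enc_norm (bx1q0_3.enc h1.l h2)) (pr_norm (pr_csub (enc_rat _ 747 55000) (pr_scaleT 27 55 h1))))) (pr_case (pr_subr 33 1000 h1) (pr_add (pr_subr 139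 300000 (pr_scaleT 371 900 h1)) (bx1q0_61_sf.snd h1 h2)) (pr_add (pr_addc (pr_scaleT 113 300 h1) (enc_rat _ 71 100000)) (bx1q0_61_sf.snd h1 h2))))) (pr_case (pr_subr 1 8 h1) (pr_case (pr_subr 3 50 h1) (pr_add (pr_addc (pr_scaleT 589 1800 h1) (enc_rat _ 209 75000)) (pr_cmul (enc_norm (bx1q0_3.enc h1.l h2)) (pr_norm (pr_subr 119 1200 (pr_scaleT 79 36 h1))))) (pr_case (pr_subr 17 200 h1) (pr_add (pr_addc (pr_scaleT 819 2500 h1) (enc_rat _ 691 250000)) (pr_cmul (enc_norm (bx1q0_3.enc h1.l h2)) (pr_norm (pr_subr 4963 50000 (pr_scaleT 549 250 h1))))) (pr_add (pr_subr 14531 400000 (pr_scaleT 63 80 h1)) (pr_cmul (enc_norm (bx1q0_3.enc h1.l h2)) (pr_norm (pr_subr 3967 40000 (pr_scaleT 439 200 h1))))))) (pr_case (pr_subr 1 4 h1) (pr_case (pr_subr 9 50 h1) (pr_add (pr_subr 19977 550000 (pr_scaleT 4331 5500 h1)) (pr_cmul (enc_norm (bx1q0_3.enc h1.l h2)) (pr_norm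 (pr_subr 10903 110000 (pr_scaleT 1207 550 h1))))) (pr_add (pr_subr 291 8750 (pr_scaleT 5393 7000 h1)) (pr_cmul (enc_norm (bx1q0_3.enc h1.l h2)) (pr_norm (pr_addc (pr_scaleT 104 175 h1) (enc_rat _ 529 2800)))))) (pr_case (pr_subr 7 20 h1) (pr_add (pr_subr 1261 40000 (pr_scaleT 1527 2000 h1)) (bx1q0_139_sf.snd h1 h2)) (pr_add (pr_addc (pr_scaleT 431 1500 h1) (enc_rat _ 2027 15000)) (bx1q0_139_sf.snd h1 h2)))))))⟩
noncomputable def l1q0_sf : Sl2 l1q0 := ⟨_, fun h1 h2 => (pr_norm (pr_mul (cv1m_sf.snd h1) (bx1q0_sf.snd h1 h2)))⟩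
noncomputable def cv2m_sf : Sl1 cv2m := ⟨_, fun h1 => (pr_norm (pr_add (pr_scaleT 2 5 (c1g_sf.snd h1)) (pr_scaleT 3 5 (pr_addc (swg_sf.snd h1) (enc_rat _ 1 2)))))⟩
noncomputable def bf2q0_43_sf : Sl2 bf2q0_43 := ⟨_, fun h1 h2 => (pr_scaleT 987 275 h1)⟩
noncomputable def bf2q0_55_sf : Sl2 bf2q0_55 := ⟨_, fun h1 h2 => (pr_scaleT 323 90 h1)⟩
noncomputable def bf2q0_63_sf : Sl2 bf2q0_63 := ⟨_, fun h1 h2 => (pr_cmul (enc_norm (bf2q0_3.enc h1.l h2)) (pr_norm (pr_csub (enc_rat _ 13831 30000) (pr_scaleT 2759 90 h1))))⟩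
noncomputable def bf2q0_82_sf : Sl2 bf2q0_82 := ⟨_, fun h1 h2 => (pr_scaleT 8973 2500 h1)⟩
noncomputable def bf2q0_86_sf : Sl2 bf2q0_86 := ⟨_, fun h1 h2 => (pr_scaleT 3832 125 h1)⟩
noncomputable def bf2q0_133_sf : Sl2 bf2q0_133 := ⟨_, fun h1 h2 => (pr_cmul (enc_norm (bf2q0_3.enc h1.l h2)) (pr_norm (pr_csub (enc_rat _ 461 1000) (bf2q0_86_sf.snd h1 h2))))⟩
noncomputable def bf2q0_sf : Sl2 bf2q0 := ⟨_, fun h1 h2 => (pr_norm (pr_case (pr_subr 21 500 h1) (pr_case (pr_subr 37 2000 h1) (pr_case (pr_subr 67 10000 h1) (pr_add (pr_csub (enc_pnc _ 1) (pr_scaleT 542 335 h1)) (pr_cmul (enc_norm (bf2q0_3.enc h1.l h2)) (pr_nd (pr_scaleT 269 67 h1)))) (pr_case (pr_subr 133 10000 h1) (pr_add (pr_csub (enc_rat _ 3301949 3300000) (pr_scaleT 563 330 h1)) (pr_cmul (enc_norm (bf2q0_3.enc h1.l h2)) (pr_norm (pr_addc (pr_nat 4 h1) (enc_rat _ 1 10000))))) (pr_add (pr_csub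 (enc_rat _ 5299609 5200000) (pr_scaleT 1613 520 h1)) (pr_cmul (enc_norm (bf2q0_3.enc h1.l h2)) (pr_norm (pr_csub (enc_rat _ 119859 260000) (pr_scaleT 797 26 h1))))))) (pr_case (pr_subr 3 125 h1) (pr_add (pr_csub (enc_rat _ 226197 220000) (bf2q0_43_sf.snd h1 h2)) (pr_cmul (enc_norm (bf2q0_3.enc h1.l h2)) (pr_norm (pr_csub (enc_rat _ 50711 110000) (pr_scaleT 1686 55 h1))))) (pr_case (pr_subr 33 1000 h1) (pr_add (pr_csub (enc_rat _ 308449 300000) (bf2q0_55_sf.snd h1 h2)) (bf2q0_63_sf.snd h1 h2)) (pr_add (pr_csub (enc_rat _ 5141 5000) (pr_scaleT 359 100 h1)) (bf2q0_63_sf.snd h1 h2))))) (pr_case (pr_subr 1 8 h1) (pr_case (pr_subr 3 50 h1) (pr_add (pr_csub (enc_rat _ 154223 150000) (bf2q0_55_sf.snd h1 h2)) (bf2q0_63_sf.snd h1 h2)) (pr_case (pr_subr 17 200 h1) (pr_add (pr_csub (enc_rat _ 257043 250000) (bf2q0_82_sf.snd h1 h2)) (pr_cmul (enc_norm (bf2q0_3.enc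 h1.l h2)) (pr_norm (pr_csub (enc_rat _ 23053 50000) (bf2q0_86_sf.snd h1 h2))))) (pr_add (pr_csub (enc_rat _ 822541 800000) (pr_scaleT 14357 4000 h1)) (pr_cmul (enc_norm (bf2q0_3.enc h1.l h2)) (pr_norm (pr_csub (enc_rat _ 7379 16000) (pr_scaleT 12263 400 h1))))))) (pr_case (pr_subr 1 4 h1) (pr_case (pr_subr 9 50 h1) (pr_add (pr_csub (enc_rat _ 282743 275000) (bf2q0_43_sf.snd h1 h2)) (pr_cmul (enc_norm (bf2q0_3.enc h1.l h2)) (pr_norm (pr_csub (enc_rat _ 10143 22000) (pr_scaleT 16861 550 h1))))) (pr_add (pr_csub (enc_rat _ 179929 175000) (pr_scaleT 6281 1750 h1)) (pr_cmul (enc_norm (bf2q0_3.enc h1.l h2)) (pr_norm (pr_csub (enc_rat _ 6453 14000) (pr_scaleT 21459 700 h1)))))) (pr_case (pr_subr 7 20 h1) (pr_add (pr_csub (enc_rat _ 51409 50000) (bf2q0_82_sf.snd h1 h2)) (bf2q0_133_sf.snd h1 h2)) (pr_add (pr_csub (enc_rat _ 308447 300000) (pr_scaleT 53837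 15000 h1)) (bf2q0_133_sf.snd h1 h2)))))))⟩
noncomputable def kf2q0_sf : Sl2 kf2q0 := ⟨_, fun h1 h2 => (pr_norm (pr_mul (cv2m_sf.snd h1) (bf2q0_sf.snd h1 h2)))⟩
noncomputable def bx2q0_sf : Sl2 bx2q0 := ⟨_, fun h1 h2 => (pr_norm (pr_case (pr_subr 21 500 h1) (pr_case (pr_subr 37 2000 h1) (pr_case (pr_subr 67 10000 h1) (pr_add (pr_scaleT 55 67 h1) (pr_cmul (enc_norm (bx2q0_3.enc h1.l h2)) (pr_nd (pr_scaleT 291 67 h1)))) (pr_case (pr_subr 133 10000 h1) (pr_add (pr_subr 2359 6600000 (pr_scaleT 577 660 h1)) (pr_cmul (enc_norm (bx2q0_3.enc h1.l h2)) (pr_norm (pr_addc (pr_scaleT 5 11 h1) (enc_rat _ 1433 55000))))) (pr_add (pr_addc (pr_scaleT 391 520 h1) (enc_rat _ 6601 5200000)) (pr_cmul (enc_norm (bx2q0_3.enc h1.l h2)) (pr_norm (pr_addc (pr_scaleT 45 52 h1) (enc_rat _ 10707 520000))))))) (pr_case (pr_subr 3 125 h1) (pr_add (pr_addc (pr_scaleT 421 550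 h1) (enc_rat _ 1121 1100000)) (pr_cmul (enc_norm (bx2q0_3.enc h1.l h2)) (pr_norm (pr_addc (pr_scaleT 49 55 h1) (enc_rat _ 2213 110000))))) (pr_case (pr_subr 33 1000 h1) (pr_add (pr_addc (pr_scaleT 58 75 h1) (enc_rat _ 83 100000)) (pr_cmul (enc_norm (bx2q0_3.enc h1.l h2)) (pr_norm (pr_addc (pr_scaleT 79 90 h1) (enc_rat _ 613 30000))))) (pr_add (pr_addc (pr_scaleT 203 300 h1) (enc_rat _ 201 50000)) (pr_cmul (enc_norm (bx2q0_3.enc h1.l h2)) (pr_norm (pr_csub (enc_rat _ 199 3750) (pr_scaleT 1 9 h1)))))))) (pr_case (pr_subr 1 8 h1) (pr_case (pr_subr 3 50 h1) (pr_add (pr_addc (pr_scaleT 1219 1800 h1) (enc_rat _ 1199 300000)) (pr_cmul (enc_norm (bx2q0_3.enc h1.l h2)) (pr_norm (pr_csub (enc_rat _ 317 6000) (pr_scaleT 19 180 h1))))) (pr_case (pr_subr 17 200 h1) (pr_add (pr_addc (pr_scaleT 1691 2500 h1) (enc_rat _ 2023 500000)) (pr_cmul (enc_norm (bx2q0_3.enc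 h1.l h2)) (pr_norm (pr_csub (enc_rat _ 2637 50000) (pr_scaleT 13 125 h1))))) (pr_add (pr_addc (pr_scaleT 1351 2000 h1) (enc_rat _ 1649 400000)) (pr_cmul (enc_norm (bx2q0_3.enc h1.l h2)) (pr_norm (pr_csub (enc_rat _ 4243 80000) (pr_scaleT 43 400 h1))))))) (pr_case (pr_subr 1 4 h1) (pr_case (pr_subr 9 50 h1) (pr_add (pr_addc (pr_scaleT 184 275 h1) (enc_rat _ 677 137500)) (pr_cmul (enc_norm (bx2q0_3.enc h1.l h2)) (pr_norm (pr_csub (enc_rat _ 2903 55000) (pr_scaleT 29 275 h1))))) (pr_add (pr_addc (pr_scaleT 2871 7000 h1) (enc_rat _ 18037 350000)) (pr_cmul (enc_norm (bx2q0_3.enc h1.l h2)) (pr_norm (pr_csub (enc_rat _ 1849 35000) (pr_scaleT 37 350 h1)))))) (pr_case (pr_subr 7 20 h1) (pr_add (pr_addc (pr_scaleT 627 10000 h1) (enc_rat _ 27679 200000)) (pr_cmul (enc_norm (bx2q0_3.enc h1.l h2)) (pr_norm (pr_csub (enc_rat _ 1053 20000) (pr_scaleT 21 200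 h1))))) (pr_add (pr_csub (enc_rat _ 62221 300000) (pr_scaleT 2017 15000 h1)) (pr_cmul (enc_norm (bx2q0_3.enc h1.l h2)) (pr_norm (pr_csub (enc_rat _ 53 1000) (pr_scaleT 53 500 h1))))))))))⟩
noncomputable def l2q0_sf : Sl2 l2q0 := ⟨_, fun h1 h2 => (pr_norm (pr_mul (cv2m_sf.snd h1) (bx2q0_sf.snd h1 h2)))⟩
noncomputable def kf0q1_10_sf : Sl2 kf0q1_10 := ⟨_, fun h1 h2 => (pr_scaleT 3 2 h1)⟩
noncomputable def kf0q1_sf : Sl2 kf0q1 := ⟨_, fun h1 h2 => (pr_norm (pr_add (pr_mul (pr_norm (pr_mul (pr_norm (pr_cadd (enc_pnc _ 1) (pr_nat 2 (c1g_sf.snd h1)))) (pr_norm (pr_sub (kf0q1_10_sf.snd h1 h2) (c1g_sf.snd h1))))) (pr_nd (pr_inv (pr_nat 2 (pr_sub (pr_cadd (enc_pnc _ 1) (kf0q1_10_sf.snd h1 h2)) (c1g_sf.snd h1)))))) (pr_mul (pr_norm (pr_subn 1 h1)) (kcg_sf.snd (pr_norm (pr_sub (pr_scaleT 3 4 h1) (pr_half (c1g_sf.snd h1)))) h2))))⟩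
noncomputable def l0q1_sf : Sl2 l0q1 := ⟨_, fun h1 h2 => (pr_norm (txg_sf.snd (pr_norm (pr_sub (pr_scaleT 3 4 h1) (pr_half (c1g_sf.snd h1)))) (pr_nd (c1g_sf.snd h1)) h2))⟩
noncomputable def cv2p_sf : Sl1 cv2p := ⟨_, fun h1 => (pr_norm (pr_add (pr_scaleT 2 5 (c1g_sf.snd h1)) (pr_scaleT 3 5 (pr_subr 1 2 (swg_sf.snd h1)))))⟩
noncomputable def bf2q2_28_sf : Sl2 bf2q2_28 := ⟨_, fun h1 h2 => (pr_cmul (enc_norm (bf2q2_3.enc h1.l h2)) (pr_norm (pr_csub (enc_rat _ 1124003 90000) (pr_scaleT 562 45 h1))))⟩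
noncomputable def bf2q2_51_sf : Sl2 bf2q2_51 := ⟨_, fun h1 h2 => (pr_scaleT 4953 1000 h1)⟩
noncomputable def bf2q2_sf : Sl2 bf2q2 := ⟨_, fun h1 h2 => (pr_norm (pr_case (pr_subr 53 50 h1) (pr_case (pr_subr 128 125 h1) (pr_add (pr_csub (enc_rat _ 14287 2400) (pr_scaleT 11887 2400 h1)) (pr_cmul (enc_norm (bf2q2_3.enc h1.l h2)) (pr_norm (pr_csub (enc_rat _ 999 80) (pr_scaleT 999 80 h1))))) (pr_case (pr_subr 521 500 h1) (pr_add (pr_csub (enc_rat _ 1786003 300000) (pr_scaleT 743 150 h1)) (bf2q2_28_sf.snd h1 h2)) (pr_add (pr_csub (enc_rat _ 334843 56250) (pr_scaleT 1783 360 h1)) (bf2q2_28_sf.snd h1 h2)))) (pr_case (pr_subr 231 200 h1) (pr_case (pr_subr 217 200 h1) (pr_add (pr_csub (enc_rat _ 1488303 250000) (pr_scaleT 12383 2500 h1)) (pr_cmul (enc_norm (bf2q2_3.enc h1.l h2)) (pr_norm (pr_csub (enc_rat _ 624611 50000) (pr_scaleT 3123 250 h1))))) (pr_add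 (pr_csub (enc_rat _ 1190599 200000) (bf2q2_51_sf.snd h1 h2)) (pr_cmul (enc_norm (bf2q2_3.enc h1.l h2)) (pr_norm (pr_csub (enc_rat _ 24977 2000) (pr_scaleT 4371 350 h1)))))) (pr_case (pr_subr 13 10 h1) (pr_add (pr_csub (enc_rat _ 1726357 290000) (pr_scaleT 35909 7250 h1)) (pr_cmul (enc_norm (bf2q2_3.enc h1.l h2)) (pr_norm (pr_csub (enc_rat _ 3621797 290000) (pr_scaleT 18109 1450 h1))))) (pr_add (pr_csub (enc_rat _ 5953 1000) (bf2q2_51_sf.snd h1 h2)) (pr_cmul (enc_norm (bf2q2_3.enc h1.l h2)) (pr_norm (pr_csub (enc_rat _ 249793 20000) (pr_scaleT 24979 2000 h1)))))))))⟩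
noncomputable def kf2q2_sf : Sl2 kf2q2 := ⟨_, fun h1 h2 => (pr_norm (pr_mul (cv2p_sf.snd h1) (bf2q2_sf.snd h1 h2)))⟩
noncomputable def bx2q2_28_sf : Sl2 bx2q2_28 := ⟨_, fun h1 h2 => (pr_cmul (enc_norm (bx2q2_3.enc h1.l h2)) (pr_norm (pr_csub (enc_rat _ 38497 90000) (pr_scaleT 77 180 h1))))⟩
noncomputable def bx2q2_45_sf : Sl2 bx2q2_45 := ⟨_, fun h1 h2 => (pr_scaleT 107 250 h1)⟩
noncomputable def bx2q2_sf : Sl2 bx2q2 := ⟨_, fun h1 h2 => (pr_norm (pr_case (pr_subr 53 50 h1) (pr_case (pr_subr 128 125 h1) (pr_add (pr_csub (enc_rat _ 2059 2400) (pr_scaleT 2059 2400 h1)) (pr_cmul (enc_norm (bx2q2_3.enc h1.l h2)) (pr_norm (pr_csub (enc_rat _ 103 240) (pr_scaleT 103 240 h1))))) (pr_case (pr_subr 521 500 h1) (pr_add (pr_csub (enc_rat _ 257503 300000) (pr_scaleT 103 120 h1)) (bx2q2_28_sf.snd h1 h2)) (pr_add (pr_subr 32449 112500 (pr_scaleT 109 450 h1))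 (bx2q2_28_sf.snd h1 h2)))) (pr_case (pr_subr 231 200 h1) (pr_case (pr_subr 217 200 h1) (pr_add (pr_subr 18039 62500 (pr_scaleT 303 1250 h1)) (pr_cmul (enc_norm (bx2q2_3.enc h1.l h2)) (pr_norm (pr_csub (enc_rat _ 21399 50000) (bx2q2_45_sf.snd h1 h2))))) (pr_add (pr_subr 57731 200000 (pr_scaleT 1697 7000 h1)) (pr_cmul (enc_norm (bx2q2_3.enc h1.l h2)) (pr_norm (pr_csub (enc_rat _ 8541 20000) (pr_scaleT 299 700 h1)))))) (pr_case (pr_subr 13 10 h1) (pr_add (pr_subr 1960681 1450000 (pr_scaleT 16867 14500 h1)) (pr_cmul (enc_norm (bx2q2_3.enc h1.l h2)) (pr_norm (pr_csub (enc_rat _ 123993 290000) (pr_scaleT 62 145 h1))))) (pr_add (pr_subr 135227 100000 (pr_scaleT 11633 10000 h1)) (pr_cmul (enc_norm (bx2q2_3.enc h1.l h2)) (pr_norm (pr_csub (enc_rat _ 4281 10000) (bx2q2_45_sf.snd h1 h2)))))))))⟩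
noncomputable def l2q2_sf : Sl2 l2q2 := ⟨_, fun h1 h2 => (pr_norm (pr_mul (cv2p_sf.snd h1) (bx2q2_sf.snd h1 h2)))⟩
noncomputable def dlg : Fn2 := ⟨_, _, fun h1 h2 => (kcg.enc (enc_norm (enc_sub (enc_scaleT 3 4 h1) (enc_half (c1g.enc h1)))) h2)⟩
noncomputable def kq02_6 : Fn2 := ⟨_, _, fun h1 h2 => (enc_scaleT 63351 5000 h2)⟩
noncomputable def kq02 : Fn2 := ⟨_, _, fun h1 h2 => (enc_norm (enc_add (enc_subr 8981923 1600000 (kq02_6.enc h1 h2)) (enc_mul (enc_norm (enc_sub (enc_rat _ 10581923 1600000) (kq02_6.enc h1 h2))) (yag.enc h1))))⟩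
noncomputable def lq02 : Fn2 := ⟨_, _, fun h1 h2 => (enc_norm (enc_sub (enc_rat _ 1139611 16000000) (enc_scaleT 56611 250000 h2)))⟩
noncomputable def cq02 : Fn2 := ⟨_, _, fun h1 h2 => (enc_pnc _ 0)⟩
noncomputable def pcE0 : Piece := ⟨Fn3.sc eng rsbq0, rlq0⟩
noncomputable def pcE1 : Piece := ⟨Fn3.sc eng rsbq1, rlq1⟩
noncomputable def pcE2 : Piece := ⟨Fn3.sc eng rsbq2, rlq2⟩
noncomputable def pcE3 : Piece := ⟨Fn3.sc eng rsbq3, rlq3⟩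

end Pool.Agent.Strip051.G.I9625_9688.Tab
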