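import Pool.Agent.Strip051.G.I9625_9688.Tab
import Pool.Agent.Strip051.PB.C12G
import Pool.Agent.Strip051.PB.PairU
import Pool.Agent.Strip051.PB.PairB

/-! # Slopes of the tables near the lattice heights (generated) -/

set_option linter.all false

namespace Pool.Agent.Strip051.G.I9625_9688.Tab

open Pool.Agent.Strip051.PB

attribute [local irreducible] padd psub pneg pmul psq pinv psqrt psqrtg pabs pps pmax pmin pphi plam
  pcase phf pnat prat pscale pnorm pdc pnc pone ppos pnn Enc pbad pzero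

noncomputable def idf_s : Sl1 idf := ⟨fun _ _ D => D, fun h => h⟩

theorem cv1r_two {b : ℝ} (h : b = 2) : cv1r.v b = 0 := by
  have e : swg.v = swn := by funext y; simp [swg, swn]
  subst h
  simp only [cv1r, e, swn_two]
  push_cast
  ring
theorem cv2r_two {b : ℝ} (h : b = 2) : cv2r.v b = 0 := by
  have e : swg.v = swn := by funext y; simp [swg, swn]
  subst h
  simp only [cv2r, e, swn_two]
  push_cast
  ring
noncomputable def c1g_s : Sl1 c1g := ⟨_, fun h1 => (pr_sqrtgz (pr_csub (enc_pnc _ 1) (pr_scaleT 3 4 (pr_sq h1))))⟩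
noncomputable def kcg_9_s : Sl2 kcg_9 := ⟨_, fun h1 h2 => (pr_addc h1 (enc_rat _ 587 1262))⟩
noncomputable def kcg_10_s : Sl2 kcg_10 := ⟨_, fun h1 h2 => (pr_scaleT 23016928317 2200000000 h1)⟩
noncomputable def kcg_15_s : Sl2 kcg_15 := ⟨_, fun h1 h2 => (pr_scaleT 9337451553 55000000 h1)⟩
noncomputable def kcg_24_s : Sl2 kcg_24 := ⟨_, fun h1 h2 => (pr_addc h1 (enc_rat _ 1 2))⟩
noncomputable def kcg_25_s : Sl2 kcg_25 := ⟨_, fun h1 h2 => (pr_csub (enc_neg (enc_rat _ 587 1262)) h1)⟩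
noncomputable def kcg_34_s : Sl2 kcg_34 := ⟨_, fun h1 h2 => (pr_addc h1 (enc_rat _ 2507 5707))⟩
noncomputable def kcg_35_s : Sl2 kcg_35 := ⟨_, fun h1 h2 => (pr_scaleT 922210041726649 93087500000000 h1)⟩
noncomputable def kcg_38_s : Sl2 kcg_38 := ⟨_, fun h1 h2 => (pr_scaleT 1580363674430931 9308750000000 h1)⟩
noncomputable def kcg_45_s : Sl2 kcg_45 := ⟨_, fun h1 h2 => (pr_csub (enc_neg (enc_rat _ 2507 5707)) h1)⟩
noncomputable def kcg_52_s : Sl2 kcg_52 := ⟨_, fun h1 h2 => (pr_scaleT 7778372771 1698437500 h1)⟩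
noncomputable def kcg_57_s : Sl2 kcg_57 := ⟨_, fun h1 h2 => (pr_scaleT 49124195263 679375000 h1)⟩
noncomputable def kcg_66_s : Sl2 kcg_66 := ⟨_, fun h1 h2 => (pr_csub (enc_neg (enc_rat _ 17 40)) h1)⟩
noncomputable def kcg_75_s : Sl2 kcg_75 := ⟨_, fun h1 h2 => (pr_addc h1 (enc_rat _ 3 10))⟩
noncomputable def kcg_78_s : Sl2 kcg_78 := ⟨_, fun h1 h2 => (pr_addc h1 (enc_rat _ 41 100))⟩
noncomputable def kcg_79_s : Sl2 kcg_79 := ⟨_, fun h1 h2 => (pr_scaleT 14837797 500000 h1)⟩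
noncomputable def kcg_84_s : Sl2 kcg_84 := ⟨_, fun h1 h2 => (pr_scaleT 6289 250 h1)⟩
noncomputable def kcg_91_s : Sl2 kcg_91 := ⟨_, fun h1 h2 => (pr_scaleT 8037967 1000000 h1)⟩
noncomputable def kcg_96_s : Sl2 kcg_96 := ⟨_, fun h1 h2 => (pr_scaleT 184449 10000 h1)⟩
noncomputable def kcg_110_s : Sl2 kcg_110 := ⟨_, fun h1 h2 => (pr_csub (enc_neg (enc_rat _ 3 10)) h1)⟩
noncomputable def kcg_119_s : Sl2 kcg_119 := ⟨_, fun h1 h2 => (pr_scaleT 961031 100000 h1)⟩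
noncomputable def kcg_122_s : Sl2 kcg_122 := ⟨_, fun h1 h2 => (pr_scaleT 2341 5000 h1)⟩
noncomputable def kcg_130_s : Sl2 kcg_130 := ⟨_, fun h1 h2 => (pr_csub (enc_neg (enc_rat _ 1 10)) h1)⟩
noncomputable def kcg_135_s : Sl2 kcg_135 := ⟨_, fun h1 h2 => (pr_scaleT 35131 6250 h1)⟩
noncomputable def kcg_138_s : Sl2 kcg_138 := ⟨_, fun h1 h2 => (pr_cmul (enc_norm (kcg_3.enc h1.l h2)) (pr_nd (pr_scaleT 63351 5000 h1)))⟩
noncomputable def kcg_145_s : Sl2 kcg_145 := ⟨_, fun h1 h2 => (pr_csub (enc_rat _ 587 1262) h1)⟩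
noncomputable def kcg_151_s : Sl2 kcg_151 := ⟨_, fun h1 h2 => (pr_csub (enc_rat _ 1 2) h1)⟩
noncomputable def kcg_152_s : Sl2 kcg_152 := ⟨_, fun h1 h2 => (pr_subr 587 1262 h1)⟩
noncomputable def kcg_159_s : Sl2 kcg_159 := ⟨_, fun h1 h2 => (pr_csub (enc_rat _ 2507 5707) h1)⟩
noncomputable def kcg_166_s : Sl2 kcg_166 := ⟨_, fun h1 h2 => (pr_subr 2507 5707 h1)⟩
noncomputable def kcg_178_s : Sl2 kcg_178 := ⟨_, fun h1 h2 => (pr_subr 17 40 h1)⟩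
noncomputable def kcg_185_s : Sl2 kcg_185 := ⟨_, fun h1 h2 => (pr_csub (enc_rat _ 3 10) h1)⟩
noncomputable def kcg_186_s : Sl2 kcg_186 := ⟨_, fun h1 h2 => (pr_csub (enc_rat _ 41 100) h1)⟩
noncomputable def kcg_195_s : Sl2 kcg_195 := ⟨_, fun h1 h2 => (pr_subr 3 10 h1)⟩
noncomputable def kcg_208_s : Sl2 kcg_208 := ⟨_, fun h1 h2 => (pr_subr 1 10 h1)⟩
noncomputable def kcg_s : Sl2 kcg := ⟨_, fun h1 h2 => (pr_norm (pr_case h1 (pr_case (pr_addc h1 (enc_rat _ 17 40)) (pr_case (kcg_9_s.snd h1 h2) (pr_sub (pr_add (pr_subr 136661073451 22000000000 (pr_neg (kcg_10_s.snd h1 h2))) (pr_cmul (enc_norm (kcg_3.enc h1.l h2)) (pr_norm (pr_addc (kcg_15_s.snd h1 h2) (enc_rat _ 82050027949 1100000000))))) (pr_mA (pr_scaleT 2799323 10000 (pr_mul (pr_norm (kcg_24_s.snd h1 h2)) (pr_norm (kcg_25_s.snd h1 h2)))) (pr_const (enc_rat _ 2799323 10000)) (kcg_24_s.snd h1 h2)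 (kcg_25_s.snd h1 h2) rfl rfl)) (pr_case (kcg_34_s.snd h1 h2) (pr_sub (pr_add (pr_addc (kcg_35_s.snd h1 h2) (enc_rat _ 303701179243349 93087500000000)) (pr_cmul (enc_norm (kcg_3.enc h1.l h2)) (pr_norm (pr_addc (kcg_38_s.snd h1 h2) (enc_rat _ 694348361093131 9308750000000))))) (pr_mA (pr_scaleT 1026053 2500 (pr_mul (pr_norm (kcg_9_s.snd h1 h2)) (pr_norm (kcg_45_s.snd h1 h2)))) (pr_const (enc_rat _ 1026053 2500)) (kcg_9_s.snd h1 h2) (kcg_45_s.snd h1 h2) rfl rfl)) (pr_add (pr_add (pr_subr 421379608169 135875000000 (pr_neg (kcg_52_s.snd h1 h2))) (pr_cmul (enc_norm (kcg_3.enc h1.l h2)) (pr_norm (pr_addc (kcg_57_s.snd h1 h2) (enc_rat _ 215881503949 6793750000))))) (pr_mA (pr_cmul (enc_norm (kcg_65.enc h1.l h2)) (pr_norm (pr_mul (pr_norm (kcg_34_s.snd h1 h2)) (pr_norm (kcg_66_s.snd h1 h2))))) (pr_const (kcg_65.enc h1.l h2)) (kcg_34_s.snd h1 h2) (kcg_66_s.snd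 h1 h2) rfl rfl)))) (pr_case (kcg_75_s.snd h1 h2) (pr_case (kcg_78_s.snd h1 h2) (pr_add (pr_subr 1376697517 100000000 (pr_neg (kcg_79_s.snd h1 h2))) (pr_cmul (enc_norm (kcg_3.enc h1.l h2)) (pr_norm (pr_subr 9645681 1000000 (pr_neg (kcg_84_s.snd h1 h2)))))) (pr_add (pr_add (pr_subr 48955481 10000000 (pr_neg (kcg_91_s.snd h1 h2))) (pr_cmul (enc_norm (kcg_3.enc h1.l h2)) (pr_norm (pr_subr 689413 100000 (pr_neg (kcg_96_s.snd h1 h2)))))) (pr_mA (pr_cmul (enc_norm (kcg_109.enc h1.l h2)) (pr_norm (pr_mul (pr_norm (kcg_78_s.snd h1 h2)) (pr_norm (kcg_110_s.snd h1 h2))))) (pr_const (kcg_109.enc h1.l h2)) (kcg_78_s.snd h1 h2) (kcg_110_s.snd h1 h2) rfl rfl))) (pr_case (pr_addc h1 (enc_rat _ 1 10)) (pr_add (pr_add (pr_addc (kcg_119_s.snd h1 h2) (enc_rat _ 79787 200000)) (pr_cmul (enc_norm (kcg_3.enc h1.l h2)) (pr_norm (pr_subr 6101 5000 (kcg_122_s.snd h1 h2)))))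 (pr_mA (pr_cmul (enc_norm (kcg_129.enc h1.l h2)) (pr_norm (pr_mul (pr_norm (kcg_75_s.snd h1 h2)) (pr_norm (kcg_130_s.snd h1 h2))))) (pr_const (kcg_129.enc h1.l h2)) (kcg_75_s.snd h1 h2) (kcg_130_s.snd h1 h2) rfl rfl)) (pr_add (kcg_135_s.snd h1 h2) (kcg_138_s.snd h1 h2))))) (pr_neg (pr_case (pr_csub (enc_rat _ 17 40) h1) (pr_case (kcg_145_s.snd h1 h2) (pr_sub (pr_add (pr_subr 136661073451 22000000000 (kcg_10_s.snd h1 h2)) (pr_cmul (enc_norm (kcg_3.enc h1.l h2)) (pr_norm (pr_csub (enc_rat _ 82050027949 1100000000) (kcg_15_s.snd h1 h2))))) (pr_mA (pr_scaleT 2799323 10000 (pr_mul (pr_norm (kcg_151_s.snd h1 h2)) (pr_norm (kcg_152_s.snd h1 h2)))) (pr_const (enc_rat _ 2799323 10000)) (kcg_151_s.snd h1 h2) (kcg_152_s.snd h1 h2) rfl rfl)) (pr_case (kcg_159_s.snd h1 h2) (pr_sub (pr_add (pr_csub (enc_rat _ 303701179243349 93087500000000) (kcg_35_s.snd h1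 h2)) (pr_cmul (enc_norm (kcg_3.enc h1.l h2)) (pr_norm (pr_csub (enc_rat _ 694348361093131 9308750000000) (kcg_38_s.snd h1 h2))))) (pr_mA (pr_scaleT 1026053 2500 (pr_mul (pr_norm (kcg_145_s.snd h1 h2)) (pr_norm (kcg_166_s.snd h1 h2)))) (pr_const (enc_rat _ 1026053 2500)) (kcg_145_s.snd h1 h2) (kcg_166_s.snd h1 h2) rfl rfl)) (pr_add (pr_add (pr_subr 421379608169 135875000000 (kcg_52_s.snd h1 h2)) (pr_cmul (enc_norm (kcg_3.enc h1.l h2)) (pr_norm (pr_csub (enc_rat _ 215881503949 6793750000) (kcg_57_s.snd h1 h2))))) (pr_mA (pr_cmul (enc_norm (kcg_65.enc h1.l h2)) (pr_norm (pr_mul (pr_norm (kcg_159_s.snd h1 h2)) (pr_norm (kcg_178_s.snd h1 h2))))) (pr_const (kcg_65.enc h1.l h2)) (kcg_159_s.snd h1 h2) (kcg_178_s.snd h1 h2) rfl rfl)))) (pr_case (kcg_185_s.snd h1 h2) (pr_case (kcg_186_s.snd h1 h2) (pr_add (pr_subr 1376697517 100000000 (kcg_79_s.snd h1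 h2)) (pr_cmul (enc_norm (kcg_3.enc h1.l h2)) (pr_norm (pr_subr 9645681 1000000 (kcg_84_s.snd h1 h2))))) (pr_add (pr_add (pr_subr 48955481 10000000 (kcg_91_s.snd h1 h2)) (pr_cmul (enc_norm (kcg_3.enc h1.l h2)) (pr_norm (pr_subr 689413 100000 (kcg_96_s.snd h1 h2))))) (pr_mA (pr_cmul (enc_norm (kcg_109.enc h1.l h2)) (pr_norm (pr_mul (pr_norm (kcg_186_s.snd h1 h2)) (pr_norm (kcg_195_s.snd h1 h2))))) (pr_const (kcg_109.enc h1.l h2)) (kcg_186_s.snd h1 h2) (kcg_195_s.snd h1 h2) rfl rfl))) (pr_case (pr_csub (enc_rat _ 1 10) h1) (pr_add (pr_add (pr_csub (enc_rat _ 79787 200000) (kcg_119_s.snd h1 h2)) (pr_cmul (enc_norm (kcg_3.enc h1.l h2)) (pr_norm (pr_subr 6101 5000 (pr_neg (kcg_122_s.snd h1 h2)))))) (pr_mA (pr_cmul (enc_norm (kcg_129.enc h1.l h2)) (pr_norm (pr_mul (pr_norm (kcg_185_s.snd h1 h2)) (pr_norm (kcg_208_s.snd h1 h2))))) (pr_const (kcg_129.enc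 h1.l h2)) (kcg_185_s.snd h1 h2) (kcg_208_s.snd h1 h2) rfl rfl)) (pr_sub (pr_neg (kcg_135_s.snd h1 h2)) (kcg_138_s.snd h1 h2))))))))⟩
noncomputable def kf0q0_9_s : Sl2 kf0q0_9 := ⟨_, fun h1 h2 => (pr_scaleT 3 2 h1)⟩
noncomputable def kf0q0_12_s : Sl2 kf0q0_12 := ⟨_, fun h1 h2 => (pr_cadd (enc_pnc _ 1) (c1g_s.snd h1))⟩
noncomputable def kf0q0_s : Sl2 kf0q0 := ⟨_, fun h1 h2 => (pr_norm (pr_add (pr_mul (pr_norm (pr_mul (pr_norm (pr_sub (c1g_s.snd h1) (kf0q0_9_s.snd h1 h2))) (pr_norm (kf0q0_12_s.snd h1 h2)))) (pr_nd (pr_inv (pr_sub (kf0q0_12_s.snd h1 h2) (kf0q0_9_s.snd h1 h2))))) (pr_mul h1 (kcg_s.snd (pr_norm (pr_sub (pr_scaleT 3 4 h1) (pr_half (c1g_s.snd h1)))) h2))))⟩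
noncomputable def txg_6_s : Sl3 txg_6 := ⟨_, fun h1 h2 h3 => (pr_add h1 (pr_half h2))⟩
noncomputable def txg_26_s : Sl3 txg_26 := ⟨_, fun h1 h2 h3 => (pr_addc h1 (enc_rat _ 1 5))⟩
noncomputable def txg_29_s : Sl3 txg_29 := ⟨_, fun h1 h2 h3 => (pr_addc h1 (enc_rat _ 21 50))⟩
noncomputable def txg_32_s : Sl3 txg_32 := ⟨_, fun h1 h2 h3 => (pr_addc h1 (enc_rat _ 93027 200000))⟩
noncomputable def txg_35_s : Sl3 txg_35 := ⟨_, fun h1 h2 h3 => (pr_addc h1 (enc_rat _ 39 80))⟩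
noncomputable def txg_53_s : Sl3 txg_53 := ⟨_, fun h1 h2 h3 => (pr_addc h1 (enc_rat _ 1 2))⟩
noncomputable def txg_54_s : Sl3 txg_54 := ⟨_, fun h1 h2 h3 => (pr_csub (enc_neg (enc_rat _ 39 80)) h1)⟩
noncomputable def txg_61_s : Sl3 txg_61 := ⟨_, fun h1 h2 h3 => (pr_addc h1 (enc_rat _ 119 250))⟩
noncomputable def txg_76_s : Sl3 txg_76 := ⟨_, fun h1 h2 h3 => (pr_csub (enc_neg (enc_rat _ 119 250)) h1)⟩
noncomputable def txg_97_s : Sl3 txg_97 := ⟨_, fun h1 h2 h3 => (pr_csub (enc_neg (enc_rat _ 93027 200000)) h1)⟩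
noncomputable def txg_106_s : Sl3 txg_106 := ⟨_, fun h1 h2 h3 => (pr_addc h1 (enc_rat _ 87857 200000))⟩
noncomputable def txg_124_s : Sl3 txg_124 := ⟨_, fun h1 h2 h3 => (pr_csub (enc_neg (enc_rat _ 87857 200000)) h1)⟩
noncomputable def txg_131_s : Sl3 txg_131 := ⟨_, fun h1 h2 h3 => (pr_addc h1 (enc_rat _ 43 100))⟩
noncomputable def txg_147_s : Sl3 txg_147 := ⟨_, fun h1 h2 h3 => (pr_csub (enc_neg (enc_rat _ 43 100)) h1)⟩
noncomputable def txg_167_s : Sl3 txg_167 := ⟨_, fun h1 h2 h3 => (pr_csub (enc_neg (enc_rat _ 21 50)) h1)⟩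
noncomputable def txg_177_s : Sl3 txg_177 := ⟨_, fun h1 h2 h3 => (pr_addc h1 (enc_rat _ 3 8))⟩
noncomputable def txg_180_s : Sl3 txg_180 := ⟨_, fun h1 h2 h3 => (pr_addc h1 (enc_rat _ 41 100))⟩
noncomputable def txg_194_s : Sl3 txg_194 := ⟨_, fun h1 h2 h3 => (pr_csub (enc_neg (enc_rat _ 41 100)) h1)⟩
noncomputable def txg_201_s : Sl3 txg_201 := ⟨_, fun h1 h2 h3 => (pr_addc h1 (enc_rat _ 2 5))⟩
noncomputable def txg_214_s : Sl3 txg_214 := ⟨_, fun h1 h2 h3 => (pr_csub (enc_neg (enc_rat _ 2 5)) h1)⟩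
noncomputable def txg_230_s : Sl3 txg_230 := ⟨_, fun h1 h2 h3 => (pr_csub (enc_neg (enc_rat _ 3 8)) h1)⟩
noncomputable def txg_239_s : Sl3 txg_239 := ⟨_, fun h1 h2 h3 => (pr_addc h1 (enc_rat _ 7 20))⟩
noncomputable def txg_255_s : Sl3 txg_255 := ⟨_, fun h1 h2 h3 => (pr_csub (enc_neg (enc_rat _ 7 20)) h1)⟩
noncomputable def txg_262_s : Sl3 txg_262 := ⟨_, fun h1 h2 h3 => (pr_addc h1 (enc_rat _ 3 10))⟩
noncomputable def txg_275_s : Sl3 txg_275 := ⟨_, fun h1 h2 h3 => (pr_csub (enc_neg (enc_rat _ 3 10)) h1)⟩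
noncomputable def txg_292_s : Sl3 txg_292 := ⟨_, fun h1 h2 h3 => (pr_csub (enc_neg (enc_rat _ 1 5)) h1)⟩
noncomputable def txg_301_s : Sl3 txg_301 := ⟨_, fun h1 h2 h3 => (pr_subr 3 8 h1)⟩
noncomputable def txg_302_s : Sl3 txg_302 := ⟨_, fun h1 h2 h3 => (pr_subr 1 5 h1)⟩
noncomputable def txg_305_s : Sl3 txg_305 := ⟨_, fun h1 h2 h3 => (pr_addc h1 (enc_rat _ 1 10))⟩
noncomputable def txg_316_s : Sl3 txg_316 := ⟨_, fun h1 h2 h3 => (pr_csub (enc_neg (enc_rat _ 1 10)) h1)⟩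
noncomputable def txg_321_s : Sl3 txg_321 := ⟨_, fun h1 h2 h3 => (pr_subr 1 10 h1)⟩
noncomputable def txg_331_s : Sl3 txg_331 := ⟨_, fun h1 h2 h3 => (pr_csub (enc_rat _ 1 10) h1)⟩
noncomputable def txg_350_s : Sl3 txg_350 := ⟨_, fun h1 h2 h3 => (pr_csub (enc_rat _ 1 5) h1)⟩
noncomputable def txg_357_s : Sl3 txg_357 := ⟨_, fun h1 h2 h3 => (pr_subr 3 10 h1)⟩
noncomputable def txg_372_s : Sl3 txg_372 := ⟨_, fun h1 h2 h3 => (pr_csub (enc_rat _ 3 10) h1)⟩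
noncomputable def txg_377_s : Sl3 txg_377 := ⟨_, fun h1 h2 h3 => (pr_subr 7 20 h1)⟩
noncomputable def txg_392_s : Sl3 txg_392 := ⟨_, fun h1 h2 h3 => (pr_csub (enc_rat _ 7 20) h1)⟩
noncomputable def txg_413_s : Sl3 txg_413 := ⟨_, fun h1 h2 h3 => (pr_csub (enc_rat _ 3 8) h1)⟩
noncomputable def txg_421_s : Sl3 txg_421 := ⟨_, fun h1 h2 h3 => (pr_subr 41 100 h1)⟩
noncomputable def txg_423_s : Sl3 txg_423 := ⟨_, fun h1 h2 h3 => (pr_subr 39 100 h1)⟩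
noncomputable def txg_438_s : Sl3 txg_438 := ⟨_, fun h1 h2 h3 => (pr_csub (enc_rat _ 39 100) h1)⟩
noncomputable def txg_443_s : Sl3 txg_443 := ⟨_, fun h1 h2 h3 => (pr_subr 2 5 h1)⟩
noncomputable def txg_460_s : Sl3 txg_460 := ⟨_, fun h1 h2 h3 => (pr_csub (enc_rat _ 2 5) h1)⟩
noncomputable def txg_479_s : Sl3 txg_479 := ⟨_, fun h1 h2 h3 => (pr_csub (enc_rat _ 41 100) h1)⟩
noncomputable def txg_486_s : Sl3 txg_486 := ⟨_, fun h1 h2 h3 => (pr_subr 21 50 h1)⟩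
noncomputable def txg_504_s : Sl3 txg_504 := ⟨_, fun h1 h2 h3 => (pr_csub (enc_rat _ 21 50) h1)⟩
noncomputable def txg_509_s : Sl3 txg_509 := ⟨_, fun h1 h2 h3 => (pr_subr 43 100 h1)⟩
noncomputable def txg_527_s : Sl3 txg_527 := ⟨_, fun h1 h2 h3 => (pr_csub (enc_rat _ 43 100) h1)⟩
noncomputable def txg_558_s : Sl3 txg_558 := ⟨_, fun h1 h2 h3 => (pr_csub (enc_rat _ 2507 5707) h1)⟩
noncomputable def txg_569_s : Sl3 txg_569 := ⟨_, fun h1 h2 h3 => (pr_subr 587 1262 h1)⟩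
noncomputable def txg_570_s : Sl3 txg_570 := ⟨_, fun h1 h2 h3 => (pr_subr 119 250 h1)⟩
noncomputable def txg_597_s : Sl3 txg_597 := ⟨_, fun h1 h2 h3 => (pr_csub (enc_rat _ 119 250) h1)⟩
noncomputable def txg_602_s : Sl3 txg_602 := ⟨_, fun h1 h2 h3 => (pr_subr 39 80 h1)⟩
noncomputable def txg_617_s : Sl3 txg_617 := ⟨_, fun h1 h2 h3 => (pr_csub (enc_rat _ 39 80) h1)⟩
noncomputable def txg_637_s : Sl3 txg_637 := ⟨_, fun h1 h2 h3 => (pr_csub (enc_rat _ 1 2) h1)⟩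
noncomputable def txg_s : Sl3 txg := ⟨_, fun h1 h2 h3 => (pr_case (pr_subr 2507 5707 h1) (pr_case (txg_26_s.snd h1 h2 h3) (pr_case (txg_29_s.snd h1 h2 h3) (pr_case (txg_32_s.snd h1 h2 h3) (pr_case (txg_35_s.snd h1 h2 h3) (pr_add (pr_add (pr_addc (pr_scaleT 269281 1250000 h1) (enc_rat _ 269281 2500000)) (pr_cmul (enc_norm (txg_4.enc h1.l h2.l h3)) (pr_norm (pr_subr 135919 125000 (pr_neg (pr_scaleT 135919 62500 h1)))))) (pr_mA (pr_cmul (enc_norm (txg_50.enc h1.l h2.l h3)) (pr_norm (pr_mul (pr_norm (txg_53_s.snd h1 h2 h3)) (pr_norm (txg_54_s.snd h1 h2 h3))))) (pr_const (txg_50.enc h1.l h2.l h3)) (txg_53_s.snd h1 h2 h3) (txg_54_s.snd h1 h2 h3) rfl rfl)) (pr_case (txg_61_s.snd h1 h2 h3) (pr_add (pr_add (pr_addc (pr_scaleT 77607 287500 h1) (enc_rat _ 308860763 2300000000)) (pr_cmul (enc_norm (txg_4.enc h1.l h2.l h3)) (pr_norm (pr_subr 778611199 230000000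 (pr_neg (pr_scaleT 792163 115000 h1)))))) (pr_mA (pr_cmul (enc_norm (txg_75.enc h1.l h2.l h3)) (pr_norm (pr_mul (pr_norm (txg_35_s.snd h1 h2 h3)) (pr_norm (txg_76_s.snd h1 h2 h3))))) (pr_const (txg_75.enc h1.l h2.l h3)) (txg_35_s.snd h1 h2 h3) (txg_76_s.snd h1 h2 h3) rfl rfl)) (pr_add (pr_add (pr_addc (pr_scaleT 112661 543250 h1) (enc_rat _ 22710362057 217300000000)) (pr_cmul (enc_norm (txg_4.enc h1.l h2.l h3)) (pr_norm (pr_subr 70842174973 21730000000 (pr_neg (pr_scaleT 359927 54325 h1)))))) (pr_mA (pr_cmul (enc_norm (txg_96.enc h1.l h2.l h3)) (pr_norm (pr_mul (pr_norm (txg_61_s.snd h1 h2 h3)) (pr_norm (txg_97_s.snd h1 h2 h3))))) (pr_const (txg_96.enc h1.l h2.l h3)) (txg_61_s.snd h1 h2 h3) (txg_97_s.snd h1 h2 h3) rfl rfl)))) (pr_case (txg_106_s.snd h1 h2 h3) (pr_add (pr_add (pr_addc (pr_scaleT 97769 517000 h1) (enc_rat _ 902505347 9400000000))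 (pr_cmul (enc_norm (txg_4.enc h1.l h2.l h3)) (pr_norm (pr_subr 7185246581 4700000000 (pr_neg (pr_scaleT 750483 258500 h1)))))) (pr_mA (pr_cmul (enc_norm (txg_123.enc h1.l h2.l h3)) (pr_norm (pr_mul (pr_norm (txg_32_s.snd h1 h2 h3)) (pr_norm (txg_124_s.snd h1 h2 h3))))) (pr_const (txg_123.enc h1.l h2.l h3)) (txg_32_s.snd h1 h2 h3) (txg_124_s.snd h1 h2 h3) rfl rfl)) (pr_case (txg_131_s.snd h1 h2 h3) (pr_add (pr_add (pr_addc (pr_scaleT 370037 928500 h1) (enc_rat _ 34913068441 185700000000)) (pr_cmul (enc_norm (txg_4.enc h1.l h2.l h3)) (pr_norm (pr_addc (pr_scaleT 52276 9285 h1) (enc_rat _ 20610929827 9285000000))))) (pr_mA (pr_cmul (enc_norm (txg_146.enc h1.l h2.l h3)) (pr_norm (pr_mul (pr_norm (txg_106_s.snd h1 h2 h3)) (pr_norm (txg_147_s.snd h1 h2 h3))))) (pr_const (txg_146.enc h1.l h2.l h3)) (txg_106_s.snd h1 h2 h3) (txg_147_s.snd h1 h2 h3) rfl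 rfl)) (pr_add (pr_add (pr_addc (pr_scaleT 859107 1000000 h1) (enc_rat _ 19302757 50000000)) (pr_cmul (enc_norm (txg_4.enc h1.l h2.l h3)) (pr_norm (pr_addc (pr_scaleT 3582419 100000 h1) (enc_rat _ 152032439 10000000))))) (pr_mA (pr_cmul (enc_norm (txg_166.enc h1.l h2.l h3)) (pr_norm (pr_mul (pr_norm (txg_131_s.snd h1 h2 h3)) (pr_norm (txg_167_s.snd h1 h2 h3))))) (pr_const (txg_166.enc h1.l h2.l h3)) (txg_131_s.snd h1 h2 h3) (txg_167_s.snd h1 h2 h3) rfl rfl))))) (pr_case (txg_177_s.snd h1 h2 h3) (pr_case (txg_180_s.snd h1 h2 h3) (pr_add (pr_add (pr_addc (pr_scaleT 39257 31250 h1) (enc_rat _ 13821107 25000000)) (pr_cmul (enc_norm (txg_4.enc h1.l h2.l h3)) (pr_norm (pr_addc (pr_scaleT 2895023 50000 h1) (enc_rat _ 244752773 10000000))))) (pr_mA (pr_cmul (enc_norm (txg_193.enc h1.l h2.l h3)) (pr_norm (pr_mul (pr_norm (txg_29_s.snd h1 h2 h3)) (pr_norm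 (txg_194_s.snd h1 h2 h3))))) (pr_const (txg_193.enc h1.l h2.l h3)) (txg_29_s.snd h1 h2 h3) (txg_194_s.snd h1 h2 h3) rfl rfl)) (pr_case (txg_201_s.snd h1 h2 h3) (pr_add (pr_add (pr_addc (pr_scaleT 1298713 1000000 h1) (enc_rat _ 57026477 100000000)) (pr_cmul (enc_norm (txg_4.enc h1.l h2.l h3)) (pr_norm (pr_addc (pr_scaleT 2537697 100000 h1) (enc_rat _ 870363 78125))))) (pr_mA (pr_cmul (enc_norm (txg_213.enc h1.l h2.l h3)) (pr_norm (pr_mul (pr_norm (txg_180_s.snd h1 h2 h3)) (pr_norm (txg_214_s.snd h1 h2 h3))))) (pr_const (txg_213.enc h1.l h2.l h3)) (txg_180_s.snd h1 h2 h3) (txg_214_s.snd h1 h2 h3) rfl rfl)) (pr_add (pr_add (pr_addc (pr_scaleT 2713411 2500000 h1) (enc_rat _ 48492533 100000000)) (pr_cmul (enc_norm (txg_4.enc h1.l h2.l h3)) (pr_norm (pr_subr 1593203 1250000 (pr_neg (pr_scaleT 1415263 250000 h1)))))) (pr_mA (pr_scaleT 25549 5000 (pr_mul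 (pr_norm (txg_201_s.snd h1 h2 h3)) (pr_norm (txg_230_s.snd h1 h2 h3)))) (pr_const (enc_rat _ 25549 5000)) (txg_201_s.snd h1 h2 h3) (txg_230_s.snd h1 h2 h3) rfl rfl)))) (pr_case (txg_239_s.snd h1 h2 h3) (pr_add (pr_add (pr_addc (pr_scaleT 1342667 1250000 h1) (enc_rat _ 24035689 50000000)) (pr_cmul (enc_norm (txg_4.enc h1.l h2.l h3)) (pr_norm (pr_addc (pr_scaleT 3523 125000 h1) (enc_rat _ 8589011 10000000))))) (pr_mA (pr_cmul (enc_norm (txg_254.enc h1.l h2.l h3)) (pr_norm (pr_mul (pr_norm (txg_177_s.snd h1 h2 h3)) (pr_norm (txg_255_s.snd h1 h2 h3))))) (pr_const (txg_254.enc h1.l h2.l h3)) (txg_177_s.snd h1 h2 h3) (txg_255_s.snd h1 h2 h3) rfl rfl)) (pr_case (txg_262_s.snd h1 h2 h3) (pr_add (pr_add (pr_addc (pr_scaleT 4957461 5000000 h1) (enc_rat _ 45178929 100000000)) (pr_cmul (enc_norm (txg_4.enc h1.l h2.l h3)) (pr_norm (pr_addc (pr_scaleT 2416861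 500000 h1) (enc_rat _ 12704197 5000000))))) (pr_mA (pr_cmul (enc_norm (txg_274.enc h1.l h2.l h3)) (pr_norm (pr_mul (pr_norm (txg_239_s.snd h1 h2 h3)) (pr_norm (txg_275_s.snd h1 h2 h3))))) (pr_const (txg_274.enc h1.l h2.l h3)) (txg_239_s.snd h1 h2 h3) (txg_275_s.snd h1 h2 h3) rfl rfl)) (pr_add (pr_add (pr_addc (pr_scaleT 7512621 10000000 h1) (enc_rat _ 18986013 50000000)) (pr_cmul (enc_norm (txg_4.enc h1.l h2.l h3)) (pr_norm (pr_addc (pr_scaleT 1495411 500000 h1) (enc_rat _ 9939847 5000000))))) (pr_mA (pr_cmul (enc_norm (txg_291.enc h1.l h2.l h3)) (pr_norm (pr_mul (pr_norm (txg_262_s.snd h1 h2 h3)) (pr_norm (txg_292_s.snd h1 h2 h3))))) (pr_const (txg_291.enc h1.l h2.l h3)) (txg_262_s.snd h1 h2 h3) (txg_292_s.snd h1 h2 h3) rfl rfl)))))) (pr_case (txg_301_s.snd h1 h2 h3) (pr_case (txg_302_s.snd h1 h2 h3) (pr_case (txg_305_s.snd h1 h2 h3) (pr_add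 (pr_add (pr_addc (pr_scaleT 2582061 5000000 h1) (enc_rat _ 8318757 25000000)) (pr_cmul (enc_norm (txg_4.enc h1.l h2.l h3)) (pr_norm (pr_addc (pr_scaleT 1072421 1000000 h1) (enc_rat _ 4010723 2500000))))) (pr_mA (pr_cmul (enc_norm (txg_315.enc h1.l h2.l h3)) (pr_norm (pr_mul (pr_norm (txg_26_s.snd h1 h2 h3)) (pr_norm (txg_316_s.snd h1 h2 h3))))) (pr_const (txg_315.enc h1.l h2.l h3)) (txg_26_s.snd h1 h2 h3) (txg_316_s.snd h1 h2 h3) rfl rfl)) (pr_case (txg_321_s.snd h1 h2 h3) (pr_add (pr_add (pr_addc (pr_scaleT 1474343 20000000 h1) (enc_rat _ 11539231 40000000)) (pr_cmul (enc_norm (txg_4.enc h1.l h2.l h3)) (pr_norm (pr_addc (pr_scaleT 56611 500000 h1) (enc_rat _ 15083693 10000000))))) (pr_mA (pr_scaleT 6223 5000 (pr_mul (pr_norm (txg_305_s.snd h1 h2 h3)) (pr_norm (txg_331_s.snd h1 h2 h3)))) (pr_const (enc_rat _ 6223 5000)) (txg_305_s.snd h1 h2 h3)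 (txg_331_s.snd h1 h2 h3) rfl rfl)) (pr_add (pr_add (pr_csub (enc_rat _ 32822927 100000000) (pr_scaleT 1618839 5000000 h1)) (pr_cmul (enc_norm (txg_4.enc h1.l h2.l h3)) (pr_norm (pr_csub (enc_rat _ 15607143 10000000) (pr_scaleT 102557 250000 h1))))) (pr_mA (pr_cmul (enc_norm (txg_349.enc h1.l h2.l h3)) (pr_norm (pr_mul (pr_norm (txg_321_s.snd h1 h2 h3)) (pr_norm (txg_350_s.snd h1 h2 h3))))) (pr_const (txg_349.enc h1.l h2.l h3)) (txg_321_s.snd h1 h2 h3) (txg_350_s.snd h1 h2 h3) rfl rfl)))) (pr_case (txg_357_s.snd h1 h2 h3) (pr_add (pr_add (pr_csub (enc_rat _ 38399627 100000000) (pr_scaleT 1506507 2500000 h1)) (pr_cmul (enc_norm (txg_4.enc h1.l h2.l h3)) (pr_norm (pr_csub (enc_rat _ 3679829 2000000) (pr_scaleT 1806229 1000000 h1))))) (pr_mA (pr_cmul (enc_norm (txg_371.enc h1.l h2.l h3)) (pr_norm (pr_mul (pr_norm (txg_302_s.snd h1 h2 h3)) (pr_norm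 (txg_372_s.snd h1 h2 h3))))) (pr_const (txg_371.enc h1.l h2.l h3)) (txg_302_s.snd h1 h2 h3) (txg_372_s.snd h1 h2 h3) rfl rfl)) (pr_case (txg_377_s.snd h1 h2 h3) (pr_add (pr_add (pr_csub (enc_rat _ 9758491 20000000) (pr_scaleT 74143 78125 h1)) (pr_cmul (enc_norm (txg_4.enc h1.l h2.l h3)) (pr_norm (pr_csub (enc_rat _ 422551 156250) (pr_scaleT 2343801 500000 h1))))) (pr_mA (pr_cmul (enc_norm (txg_391.enc h1.l h2.l h3)) (pr_norm (pr_mul (pr_norm (txg_357_s.snd h1 h2 h3)) (pr_norm (txg_392_s.snd h1 h2 h3))))) (pr_const (txg_391.enc h1.l h2.l h3)) (txg_357_s.snd h1 h2 h3) (txg_392_s.snd h1 h2 h3) rfl rfl)) (pr_add (pr_add (pr_csub (enc_rat _ 56446997 100000000) (pr_scaleT 2919329 2500000 h1)) (pr_cmul (enc_norm (txg_4.enc h1.l h2.l h3)) (pr_norm (pr_csub (enc_rat _ 26251529 10000000) (pr_scaleT 278837 62500 h1))))) (pr_mA (pr_cmul (enc_norm (txg_412.enc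 h1.l h2.l h3)) (pr_norm (pr_mul (pr_norm (txg_377_s.snd h1 h2 h3)) (pr_norm (txg_413_s.snd h1 h2 h3))))) (pr_const (txg_412.enc h1.l h2.l h3)) (txg_377_s.snd h1 h2 h3) (txg_413_s.snd h1 h2 h3) rfl rfl))))) (pr_case (txg_421_s.snd h1 h2 h3) (pr_case (txg_423_s.snd h1 h2 h3) (pr_add (pr_add (pr_csub (enc_rat _ 57060537 100000000) (pr_scaleT 1776139 1500000 h1)) (pr_cmul (enc_norm (txg_4.enc h1.l h2.l h3)) (pr_norm (pr_csub (enc_rat _ 43229359 10000000) (pr_scaleT 674161 75000 h1))))) (pr_mA (pr_cmul (enc_norm (txg_437.enc h1.l h2.l h3)) (pr_norm (pr_mul (pr_norm (txg_301_s.snd h1 h2 h3)) (pr_norm (txg_438_s.snd h1 h2 h3))))) (pr_const (txg_437.enc h1.l h2.l h3)) (txg_301_s.snd h1 h2 h3) (txg_438_s.snd h1 h2 h3) rfl rfl)) (pr_case (txg_443_s.snd h1 h2 h3) (pr_add (pr_add (pr_csub (enc_rat _ 58168423 100000000) (pr_scaleT 97 80 h1)) (pr_cmul (enc_norm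 (txg_4.enc h1.l h2.l h3)) (pr_norm (pr_csub (enc_rat _ 14534067 5000000) (pr_scaleT 535773 100000 h1))))) (pr_mA (pr_cmul (enc_norm (txg_459.enc h1.l h2.l h3)) (pr_norm (pr_mul (pr_norm (txg_423_s.snd h1 h2 h3)) (pr_norm (txg_460_s.snd h1 h2 h3))))) (pr_const (txg_459.enc h1.l h2.l h3)) (txg_423_s.snd h1 h2 h3) (txg_460_s.snd h1 h2 h3) rfl rfl)) (pr_add (pr_add (pr_csub (enc_rat _ 61356063 100000000) (pr_scaleT 1292191 1000000 h1)) (pr_cmul (enc_norm (txg_4.enc h1.l h2.l h3)) (pr_norm (pr_csub (enc_rat _ 31524287 5000000) (pr_scaleT 346321 25000 h1))))) (pr_mA (pr_cmul (enc_norm (txg_478.enc h1.l h2.l h3)) (pr_norm (pr_mul (pr_norm (txg_443_s.snd h1 h2 h3)) (pr_norm (txg_479_s.snd h1 h2 h3))))) (pr_const (txg_478.enc h1.l h2.l h3)) (txg_443_s.snd h1 h2 h3) (txg_479_s.snd h1 h2 h3) rfl rfl)))) (pr_case (txg_486_s.snd h1 h2 h3) (pr_add (pr_add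 (pr_csub (enc_rat _ 30627171 50000000) (pr_scaleT 128971 100000 h1)) (pr_cmul (enc_norm (txg_4.enc h1.l h2.l h3)) (pr_norm (pr_csub (enc_rat _ 28075497 2000000) (pr_scaleT 654271 20000 h1))))) (pr_mA (pr_cmul (enc_norm (txg_503.enc h1.l h2.l h3)) (pr_norm (pr_mul (pr_norm (txg_421_s.snd h1 h2 h3)) (pr_norm (txg_504_s.snd h1 h2 h3))))) (pr_const (txg_503.enc h1.l h2.l h3)) (txg_421_s.snd h1 h2 h3) (txg_504_s.snd h1 h2 h3) rfl rfl)) (pr_case (txg_509_s.snd h1 h2 h3) (pr_add (pr_add (pr_csub (enc_rat _ 5246853 10000000) (pr_scaleT 270131 250000 h1)) (pr_cmul (enc_norm (txg_4.enc h1.l h2.l h3)) (pr_norm (pr_csub (enc_rat _ 3347973 400000) (pr_scaleT 615 32 h1))))) (pr_mA (pr_cmul (enc_norm (txg_526.enc h1.l h2.l h3)) (pr_norm (pr_mul (pr_norm (txg_486_s.snd h1 h2 h3)) (pr_norm (txg_527_s.snd h1 h2 h3))))) (pr_const (txg_526.enc h1.l h2.l h3)) (txg_486_s.snd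 h1 h2 h3) (txg_527_s.snd h1 h2 h3) rfl rfl)) (pr_add (pr_add (pr_add (pr_csub (enc_rat _ 257478342781239721 604827860000000000) (pr_scaleT 5143078921074347 6048278600000000 h1)) (pr_cmul (enc_norm (txg_4.enc h1.l h2.l h3)) (pr_norm (pr_csub (enc_rat _ 37593660945160233 30241393000000000) (pr_scaleT 799814062052331 302413930000000 h1))))) (pr_cmul (txg_546.enc h1.l h2.l h3) (pr_norm (pr_csub (enc_rat _ 726647583 16559375000) (pr_scaleT 16898781 165593750 h1))))) (pr_mA (pr_cmul (enc_norm (txg_557.enc h1.l h2.l h3)) (pr_norm (pr_mul (pr_norm (txg_509_s.snd h1 h2 h3)) (pr_norm (txg_558_s.snd h1 h2 h3))))) (pr_const (txg_557.enc h1.l h2.l h3)) (txg_509_s.snd h1 h2 h3) (txg_558_s.snd h1 h2 h3) rfl rfl))))))) (pr_case (txg_569_s.snd h1 h2 h3) (pr_sub (pr_mul (pr_norm (pr_csub (enc_pnc _ 1) h2)) (pr_norm (pr_subn 1 (pr_nat 2 h2)))) (pr_mul (pr_norm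 (pr_nat 2 (pr_subc (pr_scaleT 4 3 (txg_6_s.snd h1 h2 h3)) h3))) (pr_norm (pr_mul (pr_norm (pr_subn 1 (pr_add (pr_scaleT 2 3 (txg_6_s.snd h1 h2 h3)) h2))) (kcg_s.snd h1 h3))))) (pr_case (txg_570_s.snd h1 h2 h3) (pr_add (pr_add (pr_add (pr_csub (enc_rat _ 37796486795805231 86522720000000000) (pr_scaleT 301883139530249 346090880000000 h1)) (pr_cmul (enc_norm (txg_4.enc h1.l h2.l h3)) (pr_norm (pr_csub (enc_rat _ 144627853011749 346090880000000) (pr_scaleT 1072177368131 1384363520000 h1))))) (pr_cmul (txg_546.enc h1.l h2.l h3) (pr_norm (pr_csub (enc_rat _ 364507764383 42850000000) (pr_scaleT 3063090457 171400000 h1))))) (pr_mA (pr_cmul (enc_norm (txg_596.enc h1.l h2.l h3)) (pr_norm (pr_mul (pr_norm (txg_569_s.snd h1 h2 h3)) (pr_norm (txg_597_s.snd h1 h2 h3))))) (pr_const (txg_596.enc h1.l h2.l h3)) (txg_569_s.snd h1 h2 h3) (txg_597_s.snd h1 h2 h3)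 rfl rfl)) (pr_case (txg_602_s.snd h1 h2 h3) (pr_add (pr_add (pr_csub (enc_rat _ 6558451 14375000) (pr_scaleT 524989 575000 h1)) (pr_cmul (enc_norm (txg_4.enc h1.l h2.l h3)) (pr_norm (pr_csub (enc_rat _ 2111519 5750000) (pr_scaleT 3073 4600 h1))))) (pr_mA (pr_cmul (enc_norm (txg_616.enc h1.l h2.l h3)) (pr_norm (pr_mul (pr_norm (txg_570_s.snd h1 h2 h3)) (pr_norm (txg_617_s.snd h1 h2 h3))))) (pr_const (txg_616.enc h1.l h2.l h3)) (txg_570_s.snd h1 h2 h3) (txg_617_s.snd h1 h2 h3) rfl rfl)) (pr_add (pr_add (pr_csub (enc_rat _ 111407 250000) (pr_scaleT 111407 125000 h1)) (pr_cmul (enc_norm (txg_4.enc h1.l h2.l h3)) (pr_norm (pr_csub (enc_rat _ 83099 50000) (pr_scaleT 83099 25000 h1))))) (pr_mA (pr_cmul (enc_norm (txg_636.enc h1.l h2.l h3)) (pr_norm (pr_mul (pr_norm (txg_602_s.snd h1 h2 h3)) (pr_norm (txg_637_s.snd h1 h2 h3))))) (pr_const (txg_636.enc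 h1.l h2.l h3)) (txg_602_s.snd h1 h2 h3) (txg_637_s.snd h1 h2 h3) rfl rfl))))))⟩
noncomputable def l0q0_s : Sl2 l0q0 := ⟨_, fun h1 h2 => (pr_norm (txg_s.snd (pr_norm (pr_sub (pr_scaleT 3 4 h1) (pr_half (c1g_s.snd h1)))) (pr_nd (c1g_s.snd h1)) h2))⟩
noncomputable def kc0q0_8_s : Sl2 kc0q0_8 := ⟨_, fun h1 h2 => (pr_sub (pr_scaleT 3 4 h1) (pr_half (c1g_s.snd h1)))⟩
noncomputable def kc0q0_50_s : Sl2 kc0q0_50 := ⟨_, fun h1 h2 => (pr_scaleT 3 2 (kc0q0_8_s.snd h1 h2))⟩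
noncomputable def kc0q0_70_s : Sl2 kc0q0_70 := ⟨_, fun h1 h2 => (pr_scaleT 1 30 (kc0q0_8_s.snd h1 h2))⟩
noncomputable def kc0q0_75_s : Sl2 kc0q0_75 := ⟨_, fun h1 h2 => (pr_scaleT 1007 670 (kc0q0_8_s.snd h1 h2))⟩
noncomputable def kc0q0_90_s : Sl2 kc0q0_90 := ⟨_, fun h1 h2 => (pr_scaleT 1247 830 (kc0q0_8_s.snd h1 h2))⟩
noncomputable def kc0q0_s : Sl2 kc0q0 := ⟨_, fun h1 h2 => (pr_norm (pr_case (pr_addc (kc0q0_8_s.snd h1 h2) (enc_rat _ 333 1000)) (pr_case (pr_addc (kc0q0_8_s.snd h1 h2) (enc_rat _ 93 200)) (pr_case (pr_addc (kc0q0_8_s.snd h1 h2) (enc_rat _ 49 100)) (pr_subr 47 8 (pr_neg (pr_scaleT 47 4 (kc0q0_8_s.snd h1 h2)))) (pr_case (pr_addc (kc0q0_8_s.snd h1 h2) (enc_rat _ 12 25)) (pr_add (pr_subr 2293 2000 (pr_neg (pr_scaleT 21 10 (kc0q0_8_s.snd h1 h2)))) (pr_cmul (enc_norm (kc0q0_3.enc h1.l h2)) (pr_norm (pr_addc (pr_scaleT 1 10 (kc0q0_8_s.snd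 h1 h2)) (enc_rat _ 49 1000))))) (pr_addc (pr_addc (pr_scaleT 113 75 (kc0q0_8_s.snd h1 h2)) (enc_rat _ 5847 10000)) (enc_scaleT 1 1000 (kc0q0_3.enc h1.l h2))))) (pr_case (pr_addc (kc0q0_8_s.snd h1 h2) (enc_rat _ 43 100)) (pr_case (pr_addc (kc0q0_8_s.snd h1 h2) (enc_rat _ 9 20)) (pr_add (pr_addc (kc0q0_50_s.snd h1 h2) (enc_rat _ 727 1250)) (pr_cmul (enc_norm (kc0q0_3.enc h1.l h2)) (pr_norm (pr_addc (pr_scaleT 1 15 (kc0q0_8_s.snd h1 h2)) (enc_rat _ 4 125))))) (pr_addc (pr_addc (pr_scaleT 301 200 (kc0q0_8_s.snd h1 h2)) (enc_rat _ 11677 20000)) (enc_scaleT 1 500 (kc0q0_3.enc h1.l h2)))) (pr_case (pr_addc (kc0q0_8_s.snd h1 h2) (enc_rat _ 2 5)) (pr_add (pr_addc (kc0q0_50_s.snd h1 h2) (enc_rat _ 5817 10000)) (pr_cmul (enc_norm (kc0q0_3.enc h1.l h2)) (pr_norm (pr_addc (kc0q0_70_s.snd h1 h2) (enc_rat _ 49 3000))))) (pr_add (pr_addc (kc0q0_75_s.snd h1 h2)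 (enc_rat _ 390539 670000)) (pr_cmul (enc_norm (kc0q0_3.enc h1.l h2)) (pr_norm (pr_addc (pr_scaleT 3 67 (kc0q0_8_s.snd h1 h2)) (enc_rat _ 1401 67000)))))))) (pr_case (pr_subr 167 1000 (kc0q0_8_s.snd h1 h2)) (pr_case (pr_addc (kc0q0_8_s.snd h1 h2) (enc_rat _ 167 1000)) (pr_add (pr_addc (kc0q0_90_s.snd h1 h2) (enc_rat _ 483643 830000)) (pr_cmul (enc_norm (kc0q0_3.enc h1.l h2)) (pr_norm (pr_addc (pr_scaleT 5 166 (kc0q0_8_s.snd h1 h2)) (enc_rat _ 2661 166000))))) (pr_case (kc0q0_8_s.snd h1 h2) (pr_add (pr_addc (pr_scaleT 251 167 (kc0q0_8_s.snd h1 h2)) (enc_rat _ 1457 2500)) (pr_cmul (enc_norm (kc0q0_3.enc h1.l h2)) (pr_norm (pr_addc (pr_scaleT 6 167 (kc0q0_8_s.snd h1 h2)) (enc_rat _ 17 1000))))) (pr_add (pr_addc (pr_scaleT 2509 1670 (kc0q0_8_s.snd h1 h2)) (enc_rat _ 1457 2500)) (pr_cmul (enc_norm (kc0q0_3.enc h1.l h2)) (pr_norm (pr_addc (pr_scaleT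 5 167 (kc0q0_8_s.snd h1 h2)) (enc_rat _ 17 1000))))))) (pr_case (pr_subr 2 5 (kc0q0_8_s.snd h1 h2)) (pr_case (pr_subr 333 1000 (kc0q0_8_s.snd h1 h2)) (pr_add (pr_addc (kc0q0_90_s.snd h1 h2) (enc_rat _ 241861 415000)) (pr_cmul (enc_norm (kc0q0_3.enc h1.l h2)) (pr_norm (pr_addc (pr_scaleT 3 83 (kc0q0_8_s.snd h1 h2)) (enc_rat _ 53 3320))))) (pr_add (pr_addc (kc0q0_75_s.snd h1 h2) (enc_rat _ 195173 335000)) (pr_cmul (enc_norm (kc0q0_3.enc h1.l h2)) (pr_norm (pr_addc (pr_scaleT 2 67 (kc0q0_8_s.snd h1 h2)) (enc_rat _ 121 6700)))))) (pr_case (pr_subr 43 100 (kc0q0_8_s.snd h1 h2)) (pr_add (pr_addc (pr_scaleT 451 300 (kc0q0_8_s.snd h1 h2)) (enc_rat _ 8737 15000)) (pr_cmul (enc_norm (kc0q0_3.enc h1.l h2)) (pr_norm (pr_addc (kc0q0_70_s.snd h1 h2) (enc_rat _ 1 60))))) (pr_add (pr_addc (pr_scaleT 15933767083 10598000000 (kc0q0_8_s.snd h1 h2)) (enc_rat _ 617236235431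 1059800000000)) (pr_cmul (enc_norm (kc0q0_3.enc h1.l h2)) (pr_norm (pr_subr 86828271923 52990000000000 (pr_scaleT 40221355161 529900000000 (kc0q0_8_s.snd h1 h2)))))))))))⟩
noncomputable def kf0q1_10_s : Sl2 kf0q1_10 := ⟨_, fun h1 h2 => (pr_scaleT 3 2 h1)⟩
noncomputable def kf0q1_s : Sl2 kf0q1 := ⟨_, fun h1 h2 => (pr_norm (pr_add (pr_mul (pr_norm (pr_mul (pr_norm (pr_cadd (enc_pnc _ 1) (pr_nat 2 (c1g_s.snd h1)))) (pr_norm (pr_sub (kf0q1_10_s.snd h1 h2) (c1g_s.snd h1))))) (pr_nd (pr_inv (pr_nat 2 (pr_sub (pr_cadd (enc_pnc _ 1) (kf0q1_10_s.snd h1 h2)) (c1g_s.snd h1)))))) (pr_mul (pr_norm (pr_subn 1 h1)) (kcg_s.snd (pr_norm (pr_sub (pr_scaleT 3 4 h1) (pr_half (c1g_s.snd h1)))) h2))))⟩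
noncomputable def l0q1_s : Sl2 l0q1 := ⟨_, fun h1 h2 => (pr_norm (txg_s.snd (pr_norm (pr_sub (pr_scaleT 3 4 h1) (pr_half (c1g_s.snd h1)))) (pr_nd (c1g_s.snd h1)) h2))⟩
noncomputable def gsg_s : Sl1 gsg := ⟨_, fun h1 => (pr_sqrt (pr_csub (enc_pnc _ 1) (pr_scaleT 3 4 (pr_sq h1))))⟩
noncomputable def gug_s : Sl1 gug := ⟨_, fun h1 => (pr_norm (pr_add (pr_scaleT 3 4 h1) (pr_scaleT 3 2 (pr_csub (enc_pnc _ 1) (gsg_s.snd h1)))))⟩
noncomputable def kc0q1_9_s : Sl2 kc0q1_9 := ⟨_, fun h1 h2 => (pr_sub (pr_scaleT 3 4 h1) (pr_half (c1g_s.snd h1)))⟩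
noncomputable def kc0q1_94_s : Sl2 kc0q1_94 := ⟨_, fun h1 h2 => (pr_scaleT 3 2 (kc0q1_9_s.snd h1 h2))⟩
noncomputable def kc0q1_114_s : Sl2 kc0q1_114 := ⟨_, fun h1 h2 => (pr_scaleT 1 30 (kc0q1_9_s.snd h1 h2))⟩
noncomputable def kc0q1_119_s : Sl2 kc0q1_119 := ⟨_, fun h1 h2 => (pr_scaleT 1007 670 (kc0q1_9_s.snd h1 h2))⟩
noncomputable def kc0q1_134_s : Sl2 kc0q1_134 := ⟨_, fun h1 h2 => (pr_scaleT 1247 830 (kc0q1_9_s.snd h1 h2))⟩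
noncomputable def kc0q1_s : Sl2 kc0q1 := ⟨_, fun h1 h2 => (pr_norm (pr_case (pr_subr 2507 5707 (kc0q1_9_s.snd h1 h2)) (pr_case (pr_addc (kc0q1_9_s.snd h1 h2) (enc_rat _ 333 1000)) (pr_case (pr_addc (kc0q1_9_s.snd h1 h2) (enc_rat _ 93 200)) (pr_case (pr_addc (kc0q1_9_s.snd h1 h2) (enc_rat _ 49 100)) (pr_subr 47 8 (pr_neg (pr_scaleT 47 4 (kc0q1_9_s.snd h1 h2)))) (pr_case (pr_addc (kc0q1_9_s.snd h1 h2) (enc_rat _ 12 25)) (pr_add (pr_subr 2293 2000 (pr_neg (pr_scaleT 21 10 (kc0q1_9_s.snd h1 h2)))) (pr_cmul (enc_norm (kc0q1_3.enc h1.l h2)) (pr_norm (pr_addc (pr_scaleT 1 10 (kc0q1_9_s.snd h1 h2)) (enc_rat _ 49 1000))))) (pr_addc (pr_addc (pr_scaleT 113 75 (kc0q1_9_s.snd h1 h2)) (enc_rat _ 5847 10000)) (enc_scaleT 1 1000 (kc0q1_3.enc h1.l h2))))) (pr_case (pr_addc (kc0q1_9_s.snd h1 h2) (enc_rat _ 43 100)) (pr_case (pr_addc (kc0q1_9_s.snd h1 h2) (enc_rat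 _ 9 20)) (pr_add (pr_addc (kc0q1_94_s.snd h1 h2) (enc_rat _ 727 1250)) (pr_cmul (enc_norm (kc0q1_3.enc h1.l h2)) (pr_norm (pr_addc (pr_scaleT 1 15 (kc0q1_9_s.snd h1 h2)) (enc_rat _ 4 125))))) (pr_addc (pr_addc (pr_scaleT 301 200 (kc0q1_9_s.snd h1 h2)) (enc_rat _ 11677 20000)) (enc_scaleT 1 500 (kc0q1_3.enc h1.l h2)))) (pr_case (pr_addc (kc0q1_9_s.snd h1 h2) (enc_rat _ 2 5)) (pr_add (pr_addc (kc0q1_94_s.snd h1 h2) (enc_rat _ 5817 10000)) (pr_cmul (enc_norm (kc0q1_3.enc h1.l h2)) (pr_norm (pr_addc (kc0q1_114_s.snd h1 h2) (enc_rat _ 49 3000))))) (pr_add (pr_addc (kc0q1_119_s.snd h1 h2) (enc_rat _ 390539 670000)) (pr_cmul (enc_norm (kc0q1_3.enc h1.l h2)) (pr_norm (pr_addc (pr_scaleT 3 67 (kc0q1_9_s.snd h1 h2)) (enc_rat _ 1401 67000)))))))) (pr_case (pr_subr 167 1000 (kc0q1_9_s.snd h1 h2)) (pr_case (pr_addc (kc0q1_9_s.snd h1 h2) (enc_rat _ 167 1000))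 (pr_add (pr_addc (kc0q1_134_s.snd h1 h2) (enc_rat _ 483643 830000)) (pr_cmul (enc_norm (kc0q1_3.enc h1.l h2)) (pr_norm (pr_addc (pr_scaleT 5 166 (kc0q1_9_s.snd h1 h2)) (enc_rat _ 2661 166000))))) (pr_case (kc0q1_9_s.snd h1 h2) (pr_add (pr_addc (pr_scaleT 251 167 (kc0q1_9_s.snd h1 h2)) (enc_rat _ 1457 2500)) (pr_cmul (enc_norm (kc0q1_3.enc h1.l h2)) (pr_norm (pr_addc (pr_scaleT 6 167 (kc0q1_9_s.snd h1 h2)) (enc_rat _ 17 1000))))) (pr_add (pr_addc (pr_scaleT 2509 1670 (kc0q1_9_s.snd h1 h2)) (enc_rat _ 1457 2500)) (pr_cmul (enc_norm (kc0q1_3.enc h1.l h2)) (pr_norm (pr_addc (pr_scaleT 5 167 (kc0q1_9_s.snd h1 h2)) (enc_rat _ 17 1000))))))) (pr_case (pr_subr 2 5 (kc0q1_9_s.snd h1 h2)) (pr_case (pr_subr 333 1000 (kc0q1_9_s.snd h1 h2)) (pr_add (pr_addc (kc0q1_134_s.snd h1 h2) (enc_rat _ 241861 415000)) (pr_cmul (enc_norm (kc0q1_3.enc h1.l h2)) (pr_norm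 (pr_addc (pr_scaleT 3 83 (kc0q1_9_s.snd h1 h2)) (enc_rat _ 53 3320))))) (pr_add (pr_addc (kc0q1_119_s.snd h1 h2) (enc_rat _ 195173 335000)) (pr_cmul (enc_norm (kc0q1_3.enc h1.l h2)) (pr_norm (pr_addc (pr_scaleT 2 67 (kc0q1_9_s.snd h1 h2)) (enc_rat _ 121 6700)))))) (pr_case (pr_subr 43 100 (kc0q1_9_s.snd h1 h2)) (pr_add (pr_addc (pr_scaleT 451 300 (kc0q1_9_s.snd h1 h2)) (enc_rat _ 8737 15000)) (pr_cmul (enc_norm (kc0q1_3.enc h1.l h2)) (pr_norm (pr_addc (kc0q1_114_s.snd h1 h2) (enc_rat _ 1 60))))) (pr_add (pr_addc (pr_scaleT 15933767083 10598000000 (kc0q1_9_s.snd h1 h2)) (enc_rat _ 617236235431 1059800000000)) (pr_cmul (enc_norm (kc0q1_3.enc h1.l h2)) (pr_norm (pr_subr 86828271923 52990000000000 (pr_scaleT 40221355161 529900000000 (kc0q1_9_s.snd h1 h2)))))))))) (pr_case (pr_subr 587 1262 (kc0q1_9_s.snd h1 h2)) (pr_sub (pr_add (pr_cadd (enc_rat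 _ 3 4) (pr_scaleT 3 2 h1)) (pr_scaleT 3 4 (pr_mul (pr_norm (pr_mul h1 (pr_nd (pr_inv (c1g_s.snd h1))))) (gug_s.snd h1)))) (pr_mul (kcg_s.snd (pr_norm (kc0q1_9_s.snd h1 h2)) h2) (pr_norm (pr_add (gug_s.snd h1) (pr_nat 2 (c1g_s.snd h1)))))) (pr_case (pr_subr 242191 500000 (kc0q1_9_s.snd h1 h2)) (pr_add (pr_csub (enc_rat _ 952190127297227089 60725210000000000) (pr_scaleT 3881846634079 121450420000 (kc0q1_9_s.snd h1 h2))) (pr_cmul (enc_norm (kc0q1_3.enc h1.l h2)) (pr_norm (pr_subr 615749382145429907 4671170000000000 (pr_scaleT 2427962473277 9342340000 (kc0q1_9_s.snd h1 h2)))))) (pr_add (pr_csub (enc_rat _ 16525 2603) (pr_scaleT 33050 2603 (kc0q1_9_s.snd h1 h2))) (pr_cmul (enc_norm (kc0q1_3.enc h1.l h2)) (pr_norm (pr_subr 494500 2603 (pr_scaleT 989000 2603 (kc0q1_9_s.snd h1 h2))))))))))⟩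
noncomputable def yag_s : Sl1 yag := ⟨_, fun h1 => (pr_sqrt (pr_scaleT 4 3 (pr_csub (enc_pnc _ 1) (pr_sq h1))))⟩
noncomputable def kfc02_s : Sl2 kfc02 := ⟨_, fun h1 h2 => (pr_norm (pr_add h1 (pr_mul (pr_norm (pr_subn 1 (yag_s.snd h1))) (kcg_s.snd (pr_nd (pr_neg h1)) h2))))⟩
noncomputable def lc02_7_s : Sl2 lc02_7 := ⟨_, fun h1 h2 => (pr_scaleT 3 4 (yag_s.snd h1))⟩
noncomputable def lc02_8_s : Sl2 lc02_8 := ⟨_, fun h1 h2 => (pr_half h1)⟩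
noncomputable def lc02_s : Sl2 lc02 := ⟨_, fun h1 h2 => (pr_norm (pr_sub (txg_s.snd (pr_nd (pr_neg h1)) (pr_norm (pr_add (lc02_7_s.snd h1 h2) (lc02_8_s.snd h1 h2))) h2) (txg_s.snd h1 (pr_norm (pr_sub (lc02_7_s.snd h1 h2) (lc02_8_s.snd h1 h2))) h2)))⟩
noncomputable def kcc02_15_s : Sl2 kcc02_15 := ⟨_, fun h1 h2 => (pr_scaleT 5567 400 h1)⟩
noncomputable def kcc02_s : Sl2 kcc02 := ⟨_, fun h1 h2 => (pr_norm (pr_casec1 (pr_subr 1 10 h1) (enc_pnc _ 0) (pr_case (pr_subr 3 10 h1) (pr_csub (enc_rat _ 5567 4000) (kcc02_15_s.snd h1 h2)) (pr_subr 5567 800 (kcc02_15_s.snd h1 h2)))))⟩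
noncomputable def swg_s : Sl1 swg := ⟨_, fun h1 => (pr_sqrt (pr_csub (enc_pnc _ 1) (pr_scaleT 3 4 (pr_sq (pr_norm (pr_subn 1 h1))))))⟩
noncomputable def cv1m_s : Sl1 cv1m := ⟨_, fun h1 => (pr_norm (pr_add (pr_scaleT 4 5 (c1g_s.snd h1)) (pr_scaleT 1 5 (pr_addc (swg_s.snd h1) (enc_rat _ 1 2)))))⟩
noncomputable def bf1q0_22_s : Sl2 bf1q0_22 := ⟨_, fun h1 h2 => (pr_scaleT 13 6 h1)⟩
noncomputable def bf1q0_53_s : Sl2 bf1q0_53 := ⟨_, fun h1 h2 => (pr_neg (pr_scaleT 64 11 h1))⟩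
noncomputable def bf1q0_70_s : Sl2 bf1q0_70 := ⟨_, fun h1 h2 => (pr_cmul (enc_norm (bf1q0_3.enc h1.l h2)) (pr_norm (pr_subr 1121 30000 (pr_neg (pr_scaleT 262 45 h1)))))⟩
noncomputable def bf1q0_73_s : Sl2 bf1q0_73 := ⟨_, fun h1 h2 => (pr_csub (enc_rat _ 20023 20000) (bf1q0_22_s.snd h1 h2))⟩
noncomputable def bf1q0_91_s : Sl2 bf1q0_91 := ⟨_, fun h1 h2 => (pr_scaleT 1354 625 h1)⟩
noncomputable def bf1q0_96_s : Sl2 bf1q0_96 := ⟨_, fun h1 h2 => (pr_neg (pr_scaleT 291 50 h1))⟩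
noncomputable def bf1q0_100_s : Sl2 bf1q0_100 := ⟨_, fun h1 h2 => (pr_cmul (enc_norm (bf1q0_3.enc h1.l h2)) (pr_norm (pr_subr 187 5000 (bf1q0_96_s.snd h1 h2))))⟩
noncomputable def bf1q0_s : Sl2 bf1q0 := ⟨_, fun h1 h2 => (pr_norm (pr_case (pr_subr 21 500 h1) (pr_case (pr_subr 37 2000 h1) (pr_case (pr_subr 67 10000 h1) (pr_sub (pr_csub (enc_pnc _ 1) (pr_scaleT 669 335 h1)) (pr_cmul (enc_norm (bf1q0_3.enc h1.l h2)) (pr_nd (pr_scaleT 637 67 h1)))) (pr_case (pr_subr 133 10000 h1) (pr_add (pr_csub (enc_rat _ 300341 300000) (bf1q0_22_s.snd h1 h2)) (pr_cmul (enc_norm (bf1q0_3.enc h1.l h2)) (pr_norm (pr_subr 3869 330000 (pr_neg (pr_scaleT 256 33 h1)))))) (pr_add (pr_csub (enc_rat _ 2602911 2600000) (pr_scaleT 563 260 h1)) (pr_cmul (enc_norm (bf1q0_3.enc h1.l h2)) (pr_norm (pr_subr 9791 260000 (pr_neg (pr_scaleT 151 26 h1)))))))) (pr_case (pr_subr 3 125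 h1) (pr_add (pr_csub (enc_rat _ 110127 110000) (pr_scaleT 596 275 h1)) (pr_cmul (enc_norm (bf1q0_3.enc h1.l h2)) (pr_norm (pr_subr 4121 110000 (bf1q0_53_s.snd h1 h2))))) (pr_case (pr_subr 33 1000 h1) (pr_add (pr_csub (enc_rat _ 150167 150000) (pr_scaleT 1949 900 h1)) (bf1q0_70_s.snd h1 h2)) (pr_add (bf1q0_73_s.snd h1 h2) (bf1q0_70_s.snd h1 h2))))) (pr_case (pr_subr 1 8 h1) (pr_case (pr_subr 3 50 h1) (pr_add (bf1q0_73_s.snd h1 h2) (pr_cmul (enc_norm (bf1q0_3.enc h1.l h2)) (pr_norm (pr_subr 47 1250 (pr_neg (pr_scaleT 349 60 h1)))))) (pr_case (pr_subr 17 200 h1) (pr_add (pr_csub (enc_rat _ 500567 500000) (bf1q0_91_s.snd h1 h2)) (bf1q0_100_s.snd h1 h2)) (pr_add (pr_csub (enc_rat _ 400457 400000) (pr_scaleT 4333 2000 h1)) (bf1q0_100_s.snd h1 h2)))) (pr_case (pr_subr 1 4 h1) (pr_case (pr_subr 9 50 h1) (pr_add (pr_csub (enc_rat _ 550619 550000) (pr_scaleT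 2383 1100 h1)) (pr_cmul (enc_norm (bf1q0_3.enc h1.l h2)) (pr_norm (pr_subr 4139 110000 (bf1q0_53_s.snd h1 h2))))) (pr_add (pr_csub (enc_rat _ 175199 175000) (pr_scaleT 3033 1400 h1)) (pr_cmul (enc_norm (bf1q0_3.enc h1.l h2)) (pr_norm (pr_subr 373 10000 (bf1q0_96_s.snd h1 h2)))))) (pr_case (pr_subr 7 20 h1) (pr_add (pr_csub (enc_rat _ 100113 100000) (bf1q0_91_s.snd h1 h2)) (pr_cmul (enc_norm (bf1q0_3.enc h1.l h2)) (pr_norm (pr_subr 751 20000 (pr_neg (pr_scaleT 5819 1000 h1)))))) (pr_add (pr_csub (enc_rat _ 150173 150000) (pr_scaleT 32497 15000 h1)) (pr_cmul (enc_norm (bf1q0_3.enc h1.l h2)) (pr_norm (pr_subr 93 2500 (bf1q0_96_s.snd h1 h2))))))))))⟩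
noncomputable def kf1q0_s : Sl2 kf1q0 := ⟨_, fun h1 h2 => (pr_norm (pr_mul (cv1m_s.snd h1) (bf1q0_s.snd h1 h2)))⟩
noncomputable def bx1q0_61_s : Sl2 bx1q0_61 := ⟨_, fun h1 h2 => (pr_cmul (enc_norm (bx1q0_3.enc h1.l h2)) (pr_norm (pr_csub (enc_rat _ 203 15000) (pr_scaleT 22 45 h1))))⟩
noncomputable def bx1q0_139_s : Sl2 bx1q0_139 := ⟨_, fun h1 h2 => (pr_cmul (enc_norm (bx1q0_3.enc h1.l h2)) (pr_norm (pr_addc (pr_scaleT 297 500 h1) (enc_rat _ 189 1000))))⟩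
noncomputable def bx1q0_s : Sl2 bx1q0 := ⟨_, fun h1 h2 => (pr_norm (pr_case (pr_subr 21 500 h1) (pr_case (pr_subr 37 2000 h1) (pr_case (pr_subr 67 10000 h1) (pr_add (pr_scaleT 231 670 h1) (pr_cmul (enc_norm (bx1q0_3.enc h1.l h2)) (pr_nd (pr_scaleT 102 67 h1)))) (pr_case (pr_subr 133 10000 h1) (pr_add (pr_subr 2911 6600000 (pr_scaleT 271 660 h1)) (pr_cmul (enc_norm (bx1q0_3.enc h1.l h2)) (pr_norm (pr_csub (enc_rat _ 2219 165000) (pr_scaleT 16 33 h1))))) (pr_add (pr_subr 2491 5200000 (pr_scaleT 43 104 h1)) (pr_cmul (enc_norm (bx1q0_3.enc h1.l h2)) (pr_norm (pr_csub (enc_rat _ 1393 104000) (pr_scaleT 25 52 h1))))))) (pr_case (pr_subr 3 125 h1) (pr_add (pr_subr 19 44000 (pr_scaleT 113 275 h1)) (pr_cmul (enc_norm (bx1q0_3.enc h1.l h2)) (pr_norm (pr_csub (enc_rat _ 747 55000) (pr_scaleT 27 55 h1))))) (pr_case (pr_subr 33 1000 h1) (pr_add (pr_subr 139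 300000 (pr_scaleT 371 900 h1)) (bx1q0_61_s.snd h1 h2)) (pr_add (pr_addc (pr_scaleT 113 300 h1) (enc_rat _ 71 100000)) (bx1q0_61_s.snd h1 h2))))) (pr_case (pr_subr 1 8 h1) (pr_case (pr_subr 3 50 h1) (pr_add (pr_addc (pr_scaleT 589 1800 h1) (enc_rat _ 209 75000)) (pr_cmul (enc_norm (bx1q0_3.enc h1.l h2)) (pr_norm (pr_subr 119 1200 (pr_scaleT 79 36 h1))))) (pr_case (pr_subr 17 200 h1) (pr_add (pr_addc (pr_scaleT 819 2500 h1) (enc_rat _ 691 250000)) (pr_cmul (enc_norm (bx1q0_3.enc h1.l h2)) (pr_norm (pr_subr 4963 50000 (pr_scaleT 549 250 h1))))) (pr_add (pr_subr 14531 400000 (pr_scaleT 63 80 h1)) (pr_cmul (enc_norm (bx1q0_3.enc h1.l h2)) (pr_norm (pr_subr 3967 40000 (pr_scaleT 439 200 h1))))))) (pr_case (pr_subr 1 4 h1) (pr_case (pr_subr 9 50 h1) (pr_add (pr_subr 19977 550000 (pr_scaleT 4331 5500 h1)) (pr_cmul (enc_norm (bx1q0_3.enc h1.l h2)) (pr_norm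 (pr_subr 10903 110000 (pr_scaleT 1207 550 h1))))) (pr_add (pr_subr 291 8750 (pr_scaleT 5393 7000 h1)) (pr_cmul (enc_norm (bx1q0_3.enc h1.l h2)) (pr_norm (pr_addc (pr_scaleT 104 175 h1) (enc_rat _ 529 2800)))))) (pr_case (pr_subr 7 20 h1) (pr_add (pr_subr 1261 40000 (pr_scaleT 1527 2000 h1)) (bx1q0_139_s.snd h1 h2)) (pr_add (pr_addc (pr_scaleT 431 1500 h1) (enc_rat _ 2027 15000)) (bx1q0_139_s.snd h1 h2)))))))⟩
noncomputable def l1q0_s : Sl2 l1q0 := ⟨_, fun h1 h2 => (pr_norm (pr_mul (cv1m_s.snd h1) (bx1q0_s.snd h1 h2)))⟩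
noncomputable def bd1q0_s : Sl2 bd1q0 := ⟨_, fun h1 h2 => (pr_norm (pr_case (pr_subr 3 125 h1) (pr_case (pr_subr 1 100 h1) (pr_neg (pr_scaleT 971 100 h1)) (pr_subr 827 70000 (pr_neg (pr_scaleT 597 70 h1)))) (pr_case (pr_subr 21 500 h1) (pr_subr 117 10000 (pr_neg (pr_scaleT 128 15 h1))) (pr_subr 27101 2290000 (pr_neg (pr_scaleT 9767 1145 h1))))))⟩
noncomputable def kc1q0_s : Sl2 kc1q0 := ⟨_, fun h1 h2 => (pr_norm (pr_mul (cv1m_s.snd h1) (bd1q0_s.snd h1 h2)))⟩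
noncomputable def bf1q1_s : Sl2 bf1q1 := ⟨_, fun h1 h2 => (pr_norm (pr_case (pr_subr 7 8 h1) (pr_add (pr_subr 1125127 300000 (pr_scaleT 87221 18750 h1)) (pr_cmul (enc_norm (bf1q1_3.enc h1.l h2)) (pr_norm (pr_csub (enc_rat _ 209 1875) (pr_scaleT 418 1875 h1))))) (pr_add (pr_subr 2344 625 (pr_scaleT 58147 12500 h1)) (pr_cmul (enc_norm (bf1q1_3.enc h1.l h2)) (pr_norm (pr_csub (enc_rat _ 111 1000) (pr_scaleT 139 625 h1)))))))⟩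
noncomputable def kf1q1_s : Sl2 kf1q1 := ⟨_, fun h1 h2 => (pr_norm (pr_mul (cv1m_s.snd h1) (bf1q1_s.snd h1 h2)))⟩
noncomputable def bx1q1_s : Sl2 bx1q1 := ⟨_, fun h1 h2 => (pr_norm (pr_case (pr_subr 7 8 h1) (pr_add (pr_csub (enc_rat _ 1013 3000) (pr_scaleT 883 7500 h1)) (pr_cmul (enc_norm (bx1q1_3.enc h1.l h2)) (pr_norm (pr_addc (pr_scaleT 2227 3750 h1) (enc_rat _ 709 3750))))) (pr_add (pr_csub (enc_rat _ 57821 100000) (pr_scaleT 1227 3125 h1)) (pr_cmul (enc_norm (bx1q1_3.enc h1.l h2)) (pr_norm (pr_addc (pr_scaleT 371 625 h1) (enc_rat _ 1893 10000)))))))⟩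
noncomputable def l1q1_s : Sl2 l1q1 := ⟨_, fun h1 h2 => (pr_norm (pr_mul (cv1m_s.snd h1) (bx1q1_s.snd h1 h2)))⟩
noncomputable def bd1q1_s : Sl2 bd1q1 := ⟨_, fun h1 h2 => (pr_norm (pr_subr 117 10000 (pr_neg (pr_scaleT 10663 1250 h1))))⟩
noncomputable def kc1q1_s : Sl2 kc1q1 := ⟨_, fun h1 h2 => (pr_norm (pr_mul (cv1m_s.snd h1) (bd1q1_s.snd h1 h2)))⟩
noncomputable def cv1p_s : Sl1 cv1p := ⟨_, fun h1 => (pr_norm (pr_add (pr_scaleT 4 5 (c1g_s.snd h1)) (pr_scaleT 1 5 (pr_subr 1 2 (swg_s.snd h1)))))⟩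
noncomputable def bf1q2_s : Sl2 bf1q2 := ⟨_, fun h1 h2 => (pr_norm (pr_case (pr_subr 217 200 h1) (pr_case (pr_subr 521 500 h1) (pr_case (pr_subr 128 125 h1) (pr_add (pr_csub (enc_rat _ 11419 2400) (pr_scaleT 9019 2400 h1)) (pr_cmul (enc_norm (bf1q2_3.enc h1.l h2)) (pr_norm (pr_csub (enc_rat _ 3041 240) (pr_scaleT 3041 240 h1))))) (pr_add (pr_csub (enc_rat _ 701797 100000) (pr_scaleT 1193 200 h1)) (pr_cmul (enc_norm (bf1q2_3.enc h1.l h2)) (pr_norm (pr_csub (enc_rat _ 379997 30000) (pr_scaleT 38 3 h1)))))) (pr_case (pr_subr 53 50 h1) (pr_add (pr_csub (enc_rat _ 1578913 225000) (pr_scaleT 1342 225 h1)) (pr_cmul (enc_norm (bf1q2_3.enc h1.l h2)) (pr_norm (pr_csub (enc_rat _ 71282 5625) (pr_scaleT 2281 180 h1))))) (pr_add (pr_csub (enc_rat _ 438637 62500) (pr_scaleT 14913 2500 h1)) (pr_cmul (enc_norm (bf1q2_3.enc h1.l h2)) (pr_norm (pr_csub (enc_rat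 _ 316803 25000) (pr_scaleT 1584 125 h1))))))) (pr_case (pr_subr 231 200 h1) (pr_case (pr_subr 577 500 h1) (pr_add (pr_csub (enc_rat _ 605290633 86250000) (pr_scaleT 5144723 862500 h1)) (pr_cmul (enc_norm (bf1q2_3.enc h1.l h2)) (pr_norm (pr_csub (enc_rat _ 145700953 11500000) (pr_scaleT 728509 57500 h1))))) (pr_add (pr_csub (enc_rat _ 41381 6250) (pr_scaleT 35131 6250 h1)) (pr_cmul (enc_norm (bf1q2_3.enc h1.l h2)) (pr_norm (pr_csub (enc_rat _ 63351 5000) (pr_scaleT 63351 5000 h1)))))) (pr_case (pr_subr 13 10 h1) (pr_add (pr_csub (enc_rat _ 96004151 14500000) (pr_scaleT 2037603 362500 h1)) (pr_cmul (enc_norm (bf1q2_3.enc h1.l h2)) (pr_norm (pr_csub (enc_rat _ 4593063 362500) (pr_scaleT 1837219 145000 h1))))) (pr_add (pr_csub (enc_rat _ 1324189 200000) (pr_scaleT 112419 20000 h1)) (pr_cmul (enc_norm (bf1q2_3.enc h1.l h2)) (pr_norm (pr_csub (enc_rat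 _ 126699 10000) (pr_scaleT 1267 100 h1)))))))))⟩
noncomputable def kf1q2_s : Sl2 kf1q2 := ⟨_, fun h1 h2 => (pr_norm (pr_mul (cv1p_s.snd h1) (bf1q2_s.snd h1 h2)))⟩
noncomputable def bx1q2_s : Sl2 bx1q2 := ⟨_, fun h1 h2 => (pr_norm (pr_case (pr_subr 217 200 h1) (pr_case (pr_subr 521 500 h1) (pr_case (pr_subr 128 125 h1) (pr_add (pr_csub (enc_rat _ 4147 2400) (pr_scaleT 4147 2400 h1)) (pr_cmul (enc_norm (bx1q2_3.enc h1.l h2)) (pr_norm (pr_csub (enc_rat _ 2089 120) (pr_scaleT 2089 120 h1))))) (pr_add (pr_csub (enc_rat _ 127867 60000) (pr_scaleT 1273 600 h1)) (pr_cmul (enc_norm (bx1q2_3.enc h1.l h2)) (pr_norm (pr_csub (enc_rat _ 545167 45000) (pr_scaleT 2203 180 h1)))))) (pr_case (pr_subr 53 50 h1) (pr_add (pr_csub (enc_rat _ 324787 900000) (pr_scaleT 761 1800 h1)) (pr_cmul (enc_norm (bx1q2_3.enc h1.l h2)) (pr_norm (pr_subr 2121631 90000 (pr_scaleT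 1981 90 h1))))) (pr_add (pr_csub (enc_rat _ 227937 500000) (pr_scaleT 1281 2500 h1)) (pr_cmul (enc_norm (bx1q2_3.enc h1.l h2)) (pr_norm (pr_subr 44319 50000 (pr_scaleT 76 125 h1))))))) (pr_case (pr_subr 231 200 h1) (pr_casec (pr_subr 577 500 h1) (pr_add (pr_csub (enc_rat _ 88947791 138000000) (pr_scaleT 473543 690000 h1)) (pr_cmul (enc_norm (bx1q2_3.enc h1.l h2)) (pr_norm (pr_subr 796003 3450000 (pr_scaleT 32 8625 h1))))) (enc_sub (enc_neg (enc_rat _ 1474343 10000000)) (enc_scaleT 56611 250000 (bx1q2_3.enc h1.l h2)))) (pr_case (pr_subr 13 10 h1) (pr_add (pr_subr 10249087 7250000 (pr_scaleT 1589643 1450000 h1)) (pr_cmul (enc_norm (bx1q2_3.enc h1.l h2)) (pr_norm (pr_subr 396581 725000 (pr_scaleT 10061 36250 h1))))) (pr_add (pr_subr 70683 50000 (pr_scaleT 10963 10000 h1)) (pr_cmul (enc_norm (bx1q2_3.enc h1.l h2)) (pr_norm (pr_subr 5489 10000 (pr_scaleT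 279 1000 h1)))))))))⟩
noncomputable def l1q2_s : Sl2 l1q2 := ⟨_, fun h1 h2 => (pr_norm (pr_mul (cv1p_s.snd h1) (bx1q2_s.snd h1 h2)))⟩
noncomputable def bd1q2_s : Sl2 bd1q2 := ⟨_, fun h1 h2 => (pr_const (enc_pnc _ 0))⟩
noncomputable def kc1q2_s : Sl2 kc1q2 := ⟨_, fun h1 h2 => (pr_norm (pr_mul (cv1p_s.snd h1) (pr_nd (bd1q2_s.snd h1 h2))))⟩
noncomputable def cv1r_s : Sl1 cv1r := ⟨_, fun h1 => (pr_norm (pr_scaleT 1 5 (pr_subr 1 2 (swg_s.snd h1))))⟩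
noncomputable def c3g_s : Sl1 c3g := ⟨_, fun h1 => (pr_sqrtg (pr_csub (enc_pnc _ 3) (pr_scaleT 3 4 (pr_sq h1))))⟩
noncomputable def kf1q3_s : Sl2 kf1q3 := ⟨_, fun h1 h2 => (pr_norm (pr_mulz (fun ht => cv1r_two (enc_two h1.r ht)) (cv1r_s.snd h1) (pr_norm (pr_case (pr_subr 247 125 h1) (pr_case (pr_subr 97 50 h1) (pr_case (pr_subr 383 200 h1) (pr_csub (enc_rat _ 139472961 8300000) (pr_scaleT 178053 20750 h1)) (pr_csub (enc_rat _ 8401921 500000) (pr_scaleT 5363 625 h1))) (pr_case (pr_subr 979 500 h1) (pr_csub (enc_rat _ 15123031 900000) (pr_scaleT 3089 360 h1)) (pr_csub (enc_rat _ 1512401 90000) (pr_scaleT 7723 900 h1)))) (pr_case (pr_csub (enc_rat _ 118673639 1000000000) (c3g_s.snd h1)) (pr_case (pr_csub (enc_rat _ 172988439 1000000000) (c3g_s.snd h1)) (pr_csub (enc_rat _ 80484574517 118166903750) (pr_scaleT 294330000 94533523 (c3g_s.snd h1))) (pr_csub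 (enc_rat _ 369927471829 543148000000) (pr_scaleT 422750 135787 (c3g_s.snd h1)))) (pr_case (pr_csub (enc_rat _ 59990999 1000000000) (c3g_s.snd h1)) (pr_csub (enc_rat _ 210362937011 308856000000) (pr_scaleT 2283875 733533 (c3g_s.snd h1))) (pr_csub (enc_rat _ 6811 10000) (pr_scaleT 186780000 59990999 (c3g_s.snd h1)))))))))⟩
noncomputable def l1q3_43_s : Sl2 l1q3_43 := ⟨_, fun h1 h2 => (pr_cmul (enc_norm (l1q3_4.enc h1.l h2)) (pr_norm (pr_subr 1967 3600 (pr_scaleT 5 18 h1))))⟩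
noncomputable def l1q3_s : Sl2 l1q3 := ⟨_, fun h1 h2 => (pr_norm (pr_mulz (fun ht => cv1r_two (enc_two h1.r ht)) (cv1r_s.snd h1) (pr_norm (pr_case (pr_subr 247 125 h1) (pr_case (pr_subr 97 50 h1) (pr_case (pr_subr 383 200 h1) (pr_add (pr_subr 11734143 8300000 (pr_scaleT 45499 41500 h1)) (pr_cmul (enc_norm (l1q3_4.enc h1.l h2)) (pr_norm (pr_subr 113983 207500 (pr_scaleT 1159 4150 h1))))) (pr_add (pr_subr 70653 50000 (pr_scaleT 137 125 h1)) (pr_cmul (enc_norm (l1q3_4.enc h1.l h2)) (pr_norm (pr_subr 5507 10000 (pr_scaleT 7 25 h1)))))) (pr_case (pr_subr 1967 1000 h1) (pr_add (pr_subr 212153 150000 (pr_scaleT 329 300 h1)) (l1q3_43_s.snd h1 h2)) (pr_add (pr_subr 1270951 900000 (pr_scaleT 493 450 h1)) (l1q3_43_s.snd h1 h2)))) (pr_case (pr_csub (enc_rat _ 118673639 1000000000) (c3g_s.snd h1)) (pr_case (pr_csub (enc_rat _ 172988439 1000000000) (c3g_s.snd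 h1)) (pr_add (pr_csub (enc_rat _ 1236608518811 1350478900000) (pr_scaleT 8230000 13504789 (c3g_s.snd h1))) (pr_cmul (enc_norm (l1q3_4.enc h1.l h2)) (pr_norm (pr_subr 579403507 945335230000 (pr_scaleT 1100000 94533523 (c3g_s.snd h1)))))) (pr_add (pr_csub (enc_rat _ 4973675706329 5431480000000) (pr_scaleT 82775 135787 (c3g_s.snd h1))) (pr_cmul (enc_norm (l1q3_4.enc h1.l h2)) (pr_norm (pr_subr 450511873 543148000000 (pr_scaleT 1750 135787 (c3g_s.snd h1))))))) (pr_case (pr_csub (enc_rat _ 59990999 1000000000) (c3g_s.snd h1)) (pr_add (pr_csub (enc_rat _ 11783979699 12869000000) (pr_scaleT 149000 244511 (c3g_s.snd h1))) (pr_cmul (enc_norm (l1q3_4.enc h1.l h2)) (pr_norm (pr_subr 22101947 30885600000 (pr_scaleT 8750 733533 (c3g_s.snd h1)))))) (pr_add (pr_csub (enc_rat _ 91569 100000) (pr_scaleT 36560000 59990999 (c3g_s.snd h1))) (pr_cmul (enc_norm (l1q3_4.enc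 h1.l h2)) (pr_norm (pr_subr 7 10000 (pr_scaleT 700000 59990999 (c3g_s.snd h1))))))))))))⟩
noncomputable def kc1q3_s : Sl2 kc1q3 := ⟨_, fun h1 h2 => (pr_norm (pr_mulz (fun ht => cv1r_two (enc_two h1.r ht)) (cv1r_s.snd h1) (pr_norm (pr_casec1 (pr_subr 247 125 h1) (enc_pnc _ 0) (pr_subr 43493 2500 (pr_scaleT 8698600000 133760981 (c3g_s.snd h1)))))))⟩
noncomputable def cv2m_s : Sl1 cv2m := ⟨_, fun h1 => (pr_norm (pr_add (pr_scaleT 2 5 (c1g_s.snd h1)) (pr_scaleT 3 5 (pr_addc (swg_s.snd h1) (enc_rat _ 1 2)))))⟩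
noncomputable def bf2q0_43_s : Sl2 bf2q0_43 := ⟨_, fun h1 h2 => (pr_scaleT 987 275 h1)⟩
noncomputable def bf2q0_55_s : Sl2 bf2q0_55 := ⟨_, fun h1 h2 => (pr_scaleT 323 90 h1)⟩
noncomputable def bf2q0_63_s : Sl2 bf2q0_63 := ⟨_, fun h1 h2 => (pr_cmul (enc_norm (bf2q0_3.enc h1.l h2)) (pr_norm (pr_csub (enc_rat _ 13831 30000) (pr_scaleT 2759 90 h1))))⟩
noncomputable def bf2q0_82_s : Sl2 bf2q0_82 := ⟨_, fun h1 h2 => (pr_scaleT 8973 2500 h1)⟩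
noncomputable def bf2q0_86_s : Sl2 bf2q0_86 := ⟨_, fun h1 h2 => (pr_scaleT 3832 125 h1)⟩
noncomputable def bf2q0_133_s : Sl2 bf2q0_133 := ⟨_, fun h1 h2 => (pr_cmul (enc_norm (bf2q0_3.enc h1.l h2)) (pr_norm (pr_csub (enc_rat _ 461 1000) (bf2q0_86_s.snd h1 h2))))⟩
noncomputable def bf2q0_s : Sl2 bf2q0 := ⟨_, fun h1 h2 => (pr_norm (pr_case (pr_subr 21 500 h1) (pr_case (pr_subr 37 2000 h1) (pr_case (pr_subr 67 10000 h1) (pr_add (pr_csub (enc_pnc _ 1) (pr_scaleT 542 335 h1)) (pr_cmul (enc_norm (bf2q0_3.enc h1.l h2)) (pr_nd (pr_scaleT 269 67 h1)))) (pr_case (pr_subr 133 10000 h1) (pr_add (pr_csub (enc_rat _ 3301949 3300000) (pr_scaleT 563 330 h1)) (pr_cmul (enc_norm (bf2q0_3.enc h1.l h2)) (pr_norm (pr_addc (pr_nat 4 h1) (enc_rat _ 1 10000))))) (pr_add (pr_csub (enc_rat _ 5299609 5200000) (pr_scaleT 1613 520 h1)) (pr_cmul (enc_norm (bf2q0_3.enc h1.l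 h2)) (pr_norm (pr_csub (enc_rat _ 119859 260000) (pr_scaleT 797 26 h1))))))) (pr_case (pr_subr 3 125 h1) (pr_add (pr_csub (enc_rat _ 226197 220000) (bf2q0_43_s.snd h1 h2)) (pr_cmul (enc_norm (bf2q0_3.enc h1.l h2)) (pr_norm (pr_csub (enc_rat _ 50711 110000) (pr_scaleT 1686 55 h1))))) (pr_case (pr_subr 33 1000 h1) (pr_add (pr_csub (enc_rat _ 308449 300000) (bf2q0_55_s.snd h1 h2)) (bf2q0_63_s.snd h1 h2)) (pr_add (pr_csub (enc_rat _ 5141 5000) (pr_scaleT 359 100 h1)) (bf2q0_63_s.snd h1 h2))))) (pr_case (pr_subr 1 8 h1) (pr_case (pr_subr 3 50 h1) (pr_add (pr_csub (enc_rat _ 154223 150000) (bf2q0_55_s.snd h1 h2)) (bf2q0_63_s.snd h1 h2)) (pr_case (pr_subr 17 200 h1) (pr_add (pr_csub (enc_rat _ 257043 250000) (bf2q0_82_s.snd h1 h2)) (pr_cmul (enc_norm (bf2q0_3.enc h1.l h2)) (pr_norm (pr_csub (enc_rat _ 23053 50000) (bf2q0_86_s.snd h1 h2))))) (pr_add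 (pr_csub (enc_rat _ 822541 800000) (pr_scaleT 14357 4000 h1)) (pr_cmul (enc_norm (bf2q0_3.enc h1.l h2)) (pr_norm (pr_csub (enc_rat _ 7379 16000) (pr_scaleT 12263 400 h1))))))) (pr_case (pr_subr 1 4 h1) (pr_case (pr_subr 9 50 h1) (pr_add (pr_csub (enc_rat _ 282743 275000) (bf2q0_43_s.snd h1 h2)) (pr_cmul (enc_norm (bf2q0_3.enc h1.l h2)) (pr_norm (pr_csub (enc_rat _ 10143 22000) (pr_scaleT 16861 550 h1))))) (pr_add (pr_csub (enc_rat _ 179929 175000) (pr_scaleT 6281 1750 h1)) (pr_cmul (enc_norm (bf2q0_3.enc h1.l h2)) (pr_norm (pr_csub (enc_rat _ 6453 14000) (pr_scaleT 21459 700 h1)))))) (pr_case (pr_subr 7 20 h1) (pr_add (pr_csub (enc_rat _ 51409 50000) (bf2q0_82_s.snd h1 h2)) (bf2q0_133_s.snd h1 h2)) (pr_add (pr_csub (enc_rat _ 308447 300000) (pr_scaleT 53837 15000 h1)) (bf2q0_133_s.snd h1 h2)))))))⟩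
noncomputable def kf2q0_s : Sl2 kf2q0 := ⟨_, fun h1 h2 => (pr_norm (pr_mul (cv2m_s.snd h1) (bf2q0_s.snd h1 h2)))⟩
noncomputable def bx2q0_s : Sl2 bx2q0 := ⟨_, fun h1 h2 => (pr_norm (pr_case (pr_subr 21 500 h1) (pr_case (pr_subr 37 2000 h1) (pr_case (pr_subr 67 10000 h1) (pr_add (pr_scaleT 55 67 h1) (pr_cmul (enc_norm (bx2q0_3.enc h1.l h2)) (pr_nd (pr_scaleT 291 67 h1)))) (pr_case (pr_subr 133 10000 h1) (pr_add (pr_subr 2359 6600000 (pr_scaleT 577 660 h1)) (pr_cmul (enc_norm (bx2q0_3.enc h1.l h2)) (pr_norm (pr_addc (pr_scaleT 5 11 h1) (enc_rat _ 1433 55000))))) (pr_add (pr_addc (pr_scaleT 391 520 h1) (enc_rat _ 6601 5200000)) (pr_cmul (enc_norm (bx2q0_3.enc h1.l h2)) (pr_norm (pr_addc (pr_scaleT 45 52 h1) (enc_rat _ 10707 520000))))))) (pr_case (pr_subr 3 125 h1) (pr_add (pr_addc (pr_scaleT 421 550 h1) (enc_rat _ 1121 1100000)) (pr_cmul (enc_norm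 (bx2q0_3.enc h1.l h2)) (pr_norm (pr_addc (pr_scaleT 49 55 h1) (enc_rat _ 2213 110000))))) (pr_case (pr_subr 33 1000 h1) (pr_add (pr_addc (pr_scaleT 58 75 h1) (enc_rat _ 83 100000)) (pr_cmul (enc_norm (bx2q0_3.enc h1.l h2)) (pr_norm (pr_addc (pr_scaleT 79 90 h1) (enc_rat _ 613 30000))))) (pr_add (pr_addc (pr_scaleT 203 300 h1) (enc_rat _ 201 50000)) (pr_cmul (enc_norm (bx2q0_3.enc h1.l h2)) (pr_norm (pr_csub (enc_rat _ 199 3750) (pr_scaleT 1 9 h1)))))))) (pr_case (pr_subr 1 8 h1) (pr_case (pr_subr 3 50 h1) (pr_add (pr_addc (pr_scaleT 1219 1800 h1) (enc_rat _ 1199 300000)) (pr_cmul (enc_norm (bx2q0_3.enc h1.l h2)) (pr_norm (pr_csub (enc_rat _ 317 6000) (pr_scaleT 19 180 h1))))) (pr_case (pr_subr 17 200 h1) (pr_add (pr_addc (pr_scaleT 1691 2500 h1) (enc_rat _ 2023 500000)) (pr_cmul (enc_norm (bx2q0_3.enc h1.l h2)) (pr_norm (pr_csub (enc_rat _ 2637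 50000) (pr_scaleT 13 125 h1))))) (pr_add (pr_addc (pr_scaleT 1351 2000 h1) (enc_rat _ 1649 400000)) (pr_cmul (enc_norm (bx2q0_3.enc h1.l h2)) (pr_norm (pr_csub (enc_rat _ 4243 80000) (pr_scaleT 43 400 h1))))))) (pr_case (pr_subr 1 4 h1) (pr_case (pr_subr 9 50 h1) (pr_add (pr_addc (pr_scaleT 184 275 h1) (enc_rat _ 677 137500)) (pr_cmul (enc_norm (bx2q0_3.enc h1.l h2)) (pr_norm (pr_csub (enc_rat _ 2903 55000) (pr_scaleT 29 275 h1))))) (pr_add (pr_addc (pr_scaleT 2871 7000 h1) (enc_rat _ 18037 350000)) (pr_cmul (enc_norm (bx2q0_3.enc h1.l h2)) (pr_norm (pr_csub (enc_rat _ 1849 35000) (pr_scaleT 37 350 h1)))))) (pr_case (pr_subr 7 20 h1) (pr_add (pr_addc (pr_scaleT 627 10000 h1) (enc_rat _ 27679 200000)) (pr_cmul (enc_norm (bx2q0_3.enc h1.l h2)) (pr_norm (pr_csub (enc_rat _ 1053 20000) (pr_scaleT 21 200 h1))))) (pr_add (pr_csub (enc_rat _ 62221 300000)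 (pr_scaleT 2017 15000 h1)) (pr_cmul (enc_norm (bx2q0_3.enc h1.l h2)) (pr_norm (pr_csub (enc_rat _ 53 1000) (pr_scaleT 53 500 h1))))))))))⟩
noncomputable def l2q0_s : Sl2 l2q0 := ⟨_, fun h1 h2 => (pr_norm (pr_mul (cv2m_s.snd h1) (bx2q0_s.snd h1 h2)))⟩
noncomputable def bd2q0_29_s : Sl2 bd2q0_29 := ⟨_, fun h1 h2 => (pr_csub (enc_rat _ 131 10000) (pr_scaleT 883 30 h1))⟩
noncomputable def bd2q0_s : Sl2 bd2q0 := ⟨_, fun h1 h2 => (pr_norm (pr_case (pr_subr 3 125 h1) (pr_case (pr_subr 1 100 h1) (pr_sub (pr_cmul (enc_norm (bd2q0_3.enc h1.l h2)) (pr_nd (pr_scaleT 1203 5 h1))) (pr_scaleT 827 50 h1)) (pr_add (pr_csub (enc_rat _ 14817 70000) (pr_scaleT 5279 140 h1)) (pr_cmul (enc_norm (bd2q0_3.enc h1.l h2)) (pr_norm (pr_addc (pr_scaleT 1684 7 h1) (enc_rat _ 1 3500)))))) (pr_case (pr_subr 3 100 h1) (pr_add (bd2q0_29_s.snd h1 h2) (pr_cmul (enc_norm (bd2q0_3.enc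 h1.l h2)) (pr_norm (pr_addc (pr_scaleT 481 2 h1) (enc_rat _ 1 500))))) (pr_case (pr_subr 21 500 h1) (pr_add (bd2q0_29_s.snd h1 h2) (pr_cmul (enc_norm (bd2q0_3.enc h1.l h2)) (pr_norm (pr_subr 1 2000 (pr_scaleT 2887 12 h1))))) (pr_add (pr_csub (enc_rat _ 29523 2290000) (pr_scaleT 67391 2290 h1)) (pr_cmul (enc_norm (bd2q0_3.enc h1.l h2)) (pr_norm (pr_csub (enc_rat _ 1207623 114500) (pr_scaleT 2415 229 h1)))))))))⟩
noncomputable def kc2q0_s : Sl2 kc2q0 := ⟨_, fun h1 h2 => (pr_norm (pr_mul (cv2m_s.snd h1) (bd2q0_s.snd h1 h2)))⟩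
noncomputable def bf2q1_9_s : Sl2 bf2q1_9 := ⟨_, fun h1 h2 => (pr_subr 183649 100000 (pr_scaleT 7533 3125 h1))⟩
noncomputable def bf2q1_s : Sl2 bf2q1 := ⟨_, fun h1 h2 => (pr_norm (pr_case (pr_subr 7 8 h1) (pr_add (bf2q1_9_s.snd h1 h2) (pr_cmul (enc_norm (bf2q1_3.enc h1.l h2)) (pr_norm (pr_csub (enc_rat _ 107 1500) (pr_scaleT 107 750 h1))))) (pr_add (bf2q1_9_s.snd h1 h2) (pr_cmul (enc_norm (bf2q1_3.enc h1.l h2)) (pr_norm (pr_csub (enc_rat _ 711 10000) (pr_scaleT 89 625 h1)))))))⟩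
noncomputable def kf2q1_s : Sl2 kf2q1 := ⟨_, fun h1 h2 => (pr_norm (pr_mul (cv2m_s.snd h1) (bf2q1_s.snd h1 h2)))⟩
noncomputable def bx2q1_14_s : Sl2 bx2q1_14 := ⟨_, fun h1 h2 => (pr_cmul (enc_norm (enc_subr 309 320 h2)) (pr_norm (pr_csub (enc_rat _ 33 625) (pr_scaleT 66 625 h1))))⟩
noncomputable def bx2q1_s : Sl2 bx2q1 := ⟨_, fun h1 h2 => (pr_norm (pr_case (pr_subr 7 8 h1) (pr_add (pr_csub (enc_rat _ 62239 300000) (pr_scaleT 5047 37500 h1)) (bx2q1_14_s.snd h1 h2)) (pr_add (pr_csub (enc_rat _ 2593 12500) (pr_scaleT 841 6250 h1)) (bx2q1_14_s.snd h1 h2))))⟩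
noncomputable def l2q1_s : Sl2 l2q1 := ⟨_, fun h1 h2 => (pr_norm (pr_mul (cv2m_s.snd h1) (bx2q1_s.snd h1 h2)))⟩
noncomputable def bd2q1_s : Sl2 bd2q1 := ⟨_, fun h1 h2 => (pr_norm (pr_add (pr_csub (enc_rat _ 129 10000) (pr_scaleT 73571 2500 h1)) (pr_cmul (enc_norm (enc_subr 309 320 h2)) (pr_norm (pr_csub (enc_rat _ 2637 250) (pr_scaleT 2637 250 h1))))))⟩
noncomputable def kc2q1_s : Sl2 kc2q1 := ⟨_, fun h1 h2 => (pr_norm (pr_mul (cv2m_s.snd h1) (bd2q1_s.snd h1 h2)))⟩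
noncomputable def cv2p_s : Sl1 cv2p := ⟨_, fun h1 => (pr_norm (pr_add (pr_scaleT 2 5 (c1g_s.snd h1)) (pr_scaleT 3 5 (pr_subr 1 2 (swg_s.snd h1)))))⟩
noncomputable def bf2q2_28_s : Sl2 bf2q2_28 := ⟨_, fun h1 h2 => (pr_cmul (enc_norm (bf2q2_3.enc h1.l h2)) (pr_norm (pr_csub (enc_rat _ 1124003 90000) (pr_scaleT 562 45 h1))))⟩
noncomputable def bf2q2_51_s : Sl2 bf2q2_51 := ⟨_, fun h1 h2 => (pr_scaleT 4953 1000 h1)⟩
noncomputable def bf2q2_s : Sl2 bf2q2 := ⟨_, fun h1 h2 => (pr_norm (pr_case (pr_subr 53 50 h1) (pr_case (pr_subr 128 125 h1) (pr_add (pr_csub (enc_rat _ 14287 2400) (pr_scaleT 11887 2400 h1)) (pr_cmul (enc_norm (bf2q2_3.enc h1.l h2)) (pr_norm (pr_csub (enc_rat _ 999 80) (pr_scaleT 999 80 h1))))) (pr_case (pr_subr 521 500 h1) (pr_add (pr_csub (enc_rat _ 1786003 300000) (pr_scaleT 743 150 h1)) (bf2q2_28_s.snd h1 h2)) (pr_add (pr_csub (enc_rat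 _ 334843 56250) (pr_scaleT 1783 360 h1)) (bf2q2_28_s.snd h1 h2)))) (pr_case (pr_subr 231 200 h1) (pr_case (pr_subr 217 200 h1) (pr_add (pr_csub (enc_rat _ 1488303 250000) (pr_scaleT 12383 2500 h1)) (pr_cmul (enc_norm (bf2q2_3.enc h1.l h2)) (pr_norm (pr_csub (enc_rat _ 624611 50000) (pr_scaleT 3123 250 h1))))) (pr_add (pr_csub (enc_rat _ 1190599 200000) (bf2q2_51_s.snd h1 h2)) (pr_cmul (enc_norm (bf2q2_3.enc h1.l h2)) (pr_norm (pr_csub (enc_rat _ 24977 2000) (pr_scaleT 4371 350 h1)))))) (pr_case (pr_subr 13 10 h1) (pr_add (pr_csub (enc_rat _ 1726357 290000) (pr_scaleT 35909 7250 h1)) (pr_cmul (enc_norm (bf2q2_3.enc h1.l h2)) (pr_norm (pr_csub (enc_rat _ 3621797 290000) (pr_scaleT 18109 1450 h1))))) (pr_add (pr_csub (enc_rat _ 5953 1000) (bf2q2_51_s.snd h1 h2)) (pr_cmul (enc_norm (bf2q2_3.enc h1.l h2)) (pr_norm (pr_csub (enc_rat _ 249793 20000)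 (pr_scaleT 24979 2000 h1)))))))))⟩
noncomputable def kf2q2_s : Sl2 kf2q2 := ⟨_, fun h1 h2 => (pr_norm (pr_mul (cv2p_s.snd h1) (bf2q2_s.snd h1 h2)))⟩
noncomputable def bx2q2_28_s : Sl2 bx2q2_28 := ⟨_, fun h1 h2 => (pr_cmul (enc_norm (bx2q2_3.enc h1.l h2)) (pr_norm (pr_csub (enc_rat _ 38497 90000) (pr_scaleT 77 180 h1))))⟩
noncomputable def bx2q2_45_s : Sl2 bx2q2_45 := ⟨_, fun h1 h2 => (pr_scaleT 107 250 h1)⟩
noncomputable def bx2q2_s : Sl2 bx2q2 := ⟨_, fun h1 h2 => (pr_norm (pr_case (pr_subr 53 50 h1) (pr_case (pr_subr 128 125 h1) (pr_add (pr_csub (enc_rat _ 2059 2400) (pr_scaleT 2059 2400 h1)) (pr_cmul (enc_norm (bx2q2_3.enc h1.l h2)) (pr_norm (pr_csub (enc_rat _ 103 240) (pr_scaleT 103 240 h1))))) (pr_case (pr_subr 521 500 h1) (pr_add (pr_csub (enc_rat _ 257503 300000) (pr_scaleT 103 120 h1)) (bx2q2_28_s.snd h1 h2)) (pr_add (pr_subr 32449 112500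 (pr_scaleT 109 450 h1)) (bx2q2_28_s.snd h1 h2)))) (pr_case (pr_subr 231 200 h1) (pr_case (pr_subr 217 200 h1) (pr_add (pr_subr 18039 62500 (pr_scaleT 303 1250 h1)) (pr_cmul (enc_norm (bx2q2_3.enc h1.l h2)) (pr_norm (pr_csub (enc_rat _ 21399 50000) (bx2q2_45_s.snd h1 h2))))) (pr_add (pr_subr 57731 200000 (pr_scaleT 1697 7000 h1)) (pr_cmul (enc_norm (bx2q2_3.enc h1.l h2)) (pr_norm (pr_csub (enc_rat _ 8541 20000) (pr_scaleT 299 700 h1)))))) (pr_case (pr_subr 13 10 h1) (pr_add (pr_subr 1960681 1450000 (pr_scaleT 16867 14500 h1)) (pr_cmul (enc_norm (bx2q2_3.enc h1.l h2)) (pr_norm (pr_csub (enc_rat _ 123993 290000) (pr_scaleT 62 145 h1))))) (pr_add (pr_subr 135227 100000 (pr_scaleT 11633 10000 h1)) (pr_cmul (enc_norm (bx2q2_3.enc h1.l h2)) (pr_norm (pr_csub (enc_rat _ 4281 10000) (bx2q2_45_s.snd h1 h2)))))))))⟩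
noncomputable def l2q2_s : Sl2 l2q2 := ⟨_, fun h1 h2 => (pr_norm (pr_mul (cv2p_s.snd h1) (bx2q2_s.snd h1 h2)))⟩
noncomputable def bd2q2_s : Sl2 bd2q2 := ⟨_, fun h1 h2 => (pr_norm (pr_case (pr_subr 231 200 h1) (pr_subr 4996 155 (pr_scaleT 4996 155 h1)) (pr_subr 7413397 230000 (pr_scaleT 37067 1150 h1))))⟩
noncomputable def kc2q2_s : Sl2 kc2q2 := ⟨_, fun h1 h2 => (pr_norm (pr_mul (cv2p_s.snd h1) (bd2q2_s.snd h1 h2)))⟩
noncomputable def cv2r_s : Sl1 cv2r := ⟨_, fun h1 => (pr_norm (pr_scaleT 3 5 (pr_subr 1 2 (swg_s.snd h1))))⟩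
noncomputable def kf2q3_43_s : Sl2 kf2q3_43 := ⟨_, fun h1 h2 => (pr_cmul (enc_norm (kf2q3_4.enc h1.l h2)) (pr_norm (pr_csub (enc_rat _ 575267 45000) (pr_scaleT 767 90 h1))))⟩
noncomputable def kf2q3_s : Sl2 kf2q3 := ⟨_, fun h1 h2 => (pr_norm (pr_mulz (fun ht => cv2r_two (enc_two h1.r ht)) (cv2r_s.snd h1) (pr_norm (pr_case (pr_subr 1967 1000 h1) (pr_case (pr_subr 97 50 h1) (pr_case (pr_subr 383 200 h1) (pr_add (pr_subr 2763841 8300000 (pr_scaleT 87 8300 h1)) (pr_cmul (enc_norm (kf2q3_4.enc h1.l h2)) (pr_norm (pr_csub (enc_rat _ 26523 2075) (pr_scaleT 17682 2075 h1))))) (pr_add (pr_subr 83209 250000 (pr_scaleT 13 1250 h1)) (pr_cmul (enc_norm (kf2q3_4.enc h1.l h2)) (pr_norm (pr_csub (enc_rat _ 63897 5000) (pr_scaleT 213 25 h1)))))) (pr_case (pr_subr 979 500 h1) (pr_add (pr_subr 18739 56250 (pr_scaleT 19 1800 h1)) (kf2q3_43_s.snd h1 h2)) (pr_add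 (pr_subr 300803 900000 (pr_scaleT 1 90 h1)) (kf2q3_43_s.snd h1 h2)))) (pr_case (pr_csub (enc_rat _ 172988439 1000000000) (c3g_s.snd h1)) (pr_case (pr_subr 247 125 h1) (pr_add (pr_subr 8301 25000 (pr_scaleT 1 100 h1)) (kf2q3_43_s.snd h1 h2)) (pr_add (pr_subr 1189600285917 2363338075000 (pr_scaleT 67520000 94533523 (c3g_s.snd h1))) (pr_cmul (enc_norm (kf2q3_4.enc h1.l h2)) (pr_norm (pr_subr 84173896339 472667615000 (pr_neg (pr_scaleT 1370400000 94533523 (c3g_s.snd h1)))))))) (pr_case (pr_csub (enc_rat _ 118673639 1000000000) (c3g_s.snd h1)) (pr_add (pr_subr 41919791709 84866875000 (pr_scaleT 89600 135787 (c3g_s.snd h1))) (pr_cmul (enc_norm (kf2q3_4.enc h1.l h2)) (pr_norm (pr_subr 48337964857 271574000000 (pr_neg (pr_scaleT 1968500 135787 (c3g_s.snd h1))))))) (pr_case (pr_csub (enc_rat _ 59990999 1000000000) (c3g_s.snd h1)) (pr_add (pr_subr 153937708073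 308856000000 (pr_scaleT 511625 733533 (c3g_s.snd h1))) (pr_cmul (enc_norm (kf2q3_4.enc h1.l h2)) (pr_norm (pr_subr 2752454327 15442800000 (pr_neg (pr_scaleT 10632500 733533 (c3g_s.snd h1))))))) (pr_add (pr_subr 24921 50000 (pr_scaleT 41850000 59990999 (c3g_s.snd h1))) (pr_cmul (enc_norm (kf2q3_4.enc h1.l h2)) (pr_norm (pr_subr 1781 10000 (pr_neg (pr_scaleT 869700000 59990999 (c3g_s.snd h1))))))))))))))⟩
noncomputable def l2q3_s : Sl2 l2q3 := ⟨_, fun h1 h2 => (pr_norm (pr_mulz (fun ht => cv2r_two (enc_two h1.r ht)) (cv2r_s.snd h1) (pr_norm (pr_case (pr_subr 1967 1000 h1) (pr_case (pr_subr 97 50 h1) (pr_case (pr_subr 383 200 h1) (pr_add (pr_subr 701491 518750 (pr_scaleT 48277 41500 h1)) (pr_cmul (enc_norm (l2q3_4.enc h1.l h2)) (pr_norm (pr_csub (enc_rat _ 355263 830000) (pr_scaleT 888 2075 h1))))) (pr_add (pr_subr 676039 500000 (pr_scaleT 727 625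 h1)) (pr_cmul (enc_norm (l2q3_4.enc h1.l h2)) (pr_norm (pr_csub (enc_rat _ 10703 25000) (pr_scaleT 107 250 h1)))))) (pr_case (pr_subr 979 500 h1) (pr_add (pr_subr 298517 100000 (pr_scaleT 401 200 h1)) (pr_cmul (enc_norm (l2q3_4.enc h1.l h2)) (pr_norm (pr_csub (enc_rat _ 9623 22500) (pr_scaleT 77 180 h1))))) (pr_add (pr_subr 1342837 450000 (pr_scaleT 451 225 h1)) (pr_cmul (enc_norm (l2q3_4.enc h1.l h2)) (pr_norm (pr_csub (enc_rat _ 37513 90000) (pr_scaleT 19 45 h1))))))) (pr_case (pr_csub (enc_rat _ 172988439 1000000000) (c3g_s.snd h1)) (pr_case (pr_subr 247 125 h1) (pr_add (pr_subr 2687641 900000 (pr_scaleT 361 180 h1)) (pr_cmul (enc_norm (l2q3_4.enc h1.l h2)) (pr_norm (pr_csub (enc_rat _ 329 750) (pr_scaleT 13 30 h1))))) (pr_add (pr_addc (pr_scaleT 12370000 94533523 (c3g_s.snd h1)) (enc_rat _ 8902259057939 9453352300000)) (pr_cmul (enc_norm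 (l2q3_4.enc h1.l h2)) (pr_norm (pr_csub (enc_rat _ 3460308029421 472667615000) (pr_scaleT 2734500000 94533523 (c3g_s.snd h1))))))) (pr_case (pr_csub (enc_rat _ 118673639 1000000000) (c3g_s.snd h1)) (pr_add (pr_addc (pr_scaleT 87575 135787 (c3g_s.snd h1)) (enc_rat _ 4631814921383 5431480000000)) (pr_cmul (enc_norm (l2q3_4.enc h1.l h2)) (pr_norm (pr_csub (enc_rat _ 2987785025883 543148000000) (pr_scaleT 2499250 135787 (c3g_s.snd h1)))))) (pr_case (pr_csub (enc_rat _ 59990999 1000000000) (c3g_s.snd h1)) (pr_add (pr_addc (pr_scaleT 65000 244511 (c3g_s.snd h1)) (enc_rat _ 92426413 102952000)) (pr_cmul (enc_norm (l2q3_4.enc h1.l h2)) (pr_norm (pr_csub (enc_rat _ 169898021741 30885600000) (pr_scaleT 13501250 733533 (c3g_s.snd h1)))))) (pr_add (pr_addc (pr_scaleT 15950000 59990999 (c3g_s.snd h1)) (enc_rat _ 5611 6250)) (pr_cmul (enc_norm (l2q3_4.enc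 h1.l h2)) (pr_norm (pr_csub (enc_rat _ 55009 10000) (pr_scaleT 1104200000 59990999 (c3g_s.snd h1)))))))))))))⟩
noncomputable def kc2q3_s : Sl2 kc2q3 := ⟨_, fun h1 h2 => (pr_norm (pr_mulz (fun ht => cv2r_two (enc_two h1.r ht)) (cv2r_s.snd h1) (pr_norm (pr_case (pr_subr 979 500 h1) (pr_subr 73812131 2290000 (pr_scaleT 36906 1145 h1)) (pr_case (pr_subr 247 125 h1) (pr_subr 967031 30000 (pr_scaleT 967 30 h1)) (pr_add (pr_addc (pr_scaleT 15553650000 133760981 (c3g_s.snd h1)) (enc_rat _ 1757 5000)) (pr_cmul (enc_norm (enc_subr 309 320 h2)) (pr_norm (pr_subr 182971 1000 (pr_scaleT 5381500000 7868293 (c3g_s.snd h1)))))))))))⟩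
noncomputable def cv3m_s : Sl1 cv3m := ⟨_, fun h1 => (pr_norm (pr_add (pr_scaleT 1899 2000 (pr_addc (swg_s.snd h1) (enc_rat _ 1 2))) (pr_scaleT 101 2000 (c3g_s.snd h1))))⟩
noncomputable def esg_s : Sl1 esg := ⟨_, fun h1 => (pr_norm (pr_subn 1 (pr_add (pr_half h1) (gsg_s.snd h1))))⟩
noncomputable def kf3q0_123_s : Sl2 kf3q0_123 := ⟨_, fun h1 h2 => (pr_csub (enc_rat _ 108133 100000) (pr_scaleT 33881 5000 h1))⟩
noncomputable def kf3q0_142_s : Sl2 kf3q0_142 := ⟨_, fun h1 h2 => (pr_csub (enc_pnc _ 1) h1)⟩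
noncomputable def kf3q0_143_s : Sl2 kf3q0_143 := ⟨_, fun h1 h2 => (gsg_s.snd (pr_norm (kf3q0_142_s.snd h1 h2)))⟩
noncomputable def kf3q0_146_s : Sl2 kf3q0_146 := ⟨_, fun h1 h2 => (pr_sub (pr_scaleT 3 4 (kf3q0_142_s.snd h1 h2)) (pr_half (kf3q0_143_s.snd h1 h2)))⟩
noncomputable def kf3q0_147_s : Sl2 kf3q0_147 := ⟨_, fun h1 h2 => (esg_s.snd (pr_norm (kf3q0_142_s.snd h1 h2)))⟩
noncomputable def kf3q0_148_s : Sl2 kf3q0_148 := ⟨_, fun h1 h2 => (kcg_s.snd (pr_norm (kf3q0_146_s.snd h1 h2)) h2)⟩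
noncomputable def kf3q0_155_s : Sl2 kf3q0_155 := ⟨_, fun h1 h2 => (pr_sub (kf3q0_146_s.snd h1 h2) (pr_csub (enc_rat _ 1 4) (pr_scaleT 3 8 (pr_mul (pr_norm (kf3q0_142_s.snd h1 h2)) (pr_nd (pr_inv (kf3q0_143_s.snd h1 h2)))))))⟩
noncomputable def kf3q0_164_s : Sl2 kf3q0_164 := ⟨_, fun h1 h2 => (pr_mul (cv2m_s.snd h1) (bf2q0_s.snd h1 h2))⟩
noncomputable def kf3q0_s : Sl2 kf3q0 := ⟨_, fun h1 h2 => (pr_norm (pr_case (pr_subr 3 125 h1) (pr_mul (cv3m_s.snd h1) (pr_norm (pr_case (pr_subr 133 10000 h1) (pr_case (pr_subr 67 10000 h1) (pr_add (pr_csub (enc_rat _ 18891 20000) (pr_scaleT 3563 670 h1)) (pr_cmul (enc_norm (kf3q0_4.enc h1.l h2)) (pr_norm (pr_csub (enc_rat _ 6087 10000) (pr_scaleT 797 67 h1))))) (pr_add (pr_csub (enc_rat _ 1039007 1100000) (pr_scaleT 117 22 h1)) (pr_cmul (enc_norm (kf3q0_4.enc h1.l h2)) (pr_norm (pr_csub (enc_rat _ 100417 165000)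 (pr_scaleT 392 33 h1)))))) (pr_case (pr_subr 37 2000 h1) (pr_add (pr_csub (enc_rat _ 385039 400000) (pr_scaleT 267 40 h1)) (pr_cmul (enc_norm (kf3q0_4.enc h1.l h2)) (pr_norm (pr_csub (enc_rat _ 158253 260000) (pr_scaleT 309 26 h1))))) (pr_add (pr_csub (enc_rat _ 105886198711 110000000000) (pr_scaleT 367137803 55000000 h1)) (pr_cmul (enc_norm (kf3q0_4.enc h1.l h2)) (pr_norm (pr_csub (enc_rat _ 669614527 1100000000) (pr_scaleT 6538771 550000 h1))))))))) (pr_case (pr_subr 21 500 h1) (pr_add (kf3q0_164_s.snd h1 h2) (pr_mul (pr_norm (pr_mul (pr_norm (pr_sub (pr_wB0 (pr_mul h1 (pr_norm (pr_sub (pr_mul (pr_norm (kf3q0_155_s.snd h1 h2)) (pr_nd (pr_inv (kf3q0_147_s.snd h1 h2)))) (kf3q0_148_s.snd h1 h2)))) (kf3q0_142_s.snd h1 h2) (kf3q0_143_s.snd h1 h2) (kf3q0_147_s.snd h1 h2) h1 (kf3q0_155_s.snd h1 h2) (kf3q0_148_s.snd h1 h2) rfl rfl rfl rfl rfl rfl rfl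 rfl) (kf3q0_164_s.snd h1 h2))) (pr_norm (pr_sub (cv3m_s.snd h1) (cv2m_s.snd h1))))) (pr_nd (pr_inv (pr_sub (pr_addc (swg_s.snd h1) (enc_rat _ 1 2)) (cv2m_s.snd h1)))))) (pr_mul (cv3m_s.snd h1) (pr_norm (pr_case (pr_subr 1 8 h1) (pr_case (pr_subr 3 50 h1) (pr_add (pr_csub (enc_rat _ 3244073279 3000000000) (pr_scaleT 1219823279 180000000 h1)) (pr_cmul (enc_norm (kf3q0_4.enc h1.l h2)) (pr_norm (pr_csub (enc_rat _ 384949919 300000000) (pr_scaleT 65959919 18000000 h1))))) (pr_case (pr_subr 17 200 h1) (pr_add (pr_csub (enc_rat _ 108131 100000) (pr_scaleT 847 125 h1)) (pr_cmul (enc_norm (kf3q0_4.enc h1.l h2)) (pr_norm (pr_csub (enc_rat _ 64169 50000) (pr_scaleT 917 250 h1))))) (pr_add (pr_csub (enc_rat _ 173013 160000) (pr_scaleT 5421 800 h1)) (pr_cmul (enc_norm (kf3q0_4.enc h1.l h2)) (pr_norm (pr_csub (enc_rat _ 2053 1600) (pr_scaleT 733 200 h1)))))))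 (pr_case (pr_subr 1 4 h1) (pr_case (pr_subr 9 50 h1) (pr_add (pr_csub (enc_rat _ 237891 220000) (pr_scaleT 37269 5500 h1)) (pr_cmul (enc_norm (kf3q0_4.enc h1.l h2)) (pr_norm (pr_csub (enc_rat _ 5647 4400) (pr_scaleT 2017 550 h1))))) (pr_add (pr_csub (enc_rat _ 756921 700000) (pr_scaleT 47433 7000 h1)) (pr_cmul (enc_norm (kf3q0_4.enc h1.l h2)) (pr_norm (pr_csub (enc_rat _ 89819 70000) (pr_scaleT 1283 350 h1)))))) (pr_case (pr_subr 7 20 h1) (pr_add (kf3q0_123_s.snd h1 h2) (pr_cmul (enc_norm (kf3q0_4.enc h1.l h2)) (pr_norm (pr_csub (enc_rat _ 25669 20000) (pr_scaleT 3667 1000 h1))))) (pr_add (kf3q0_123_s.snd h1 h2) (pr_cmul (enc_norm (kf3q0_4.enc h1.l h2)) (pr_norm (pr_csub (enc_rat _ 77 60) (pr_scaleT 11 3 h1)))))))))))))⟩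
noncomputable def qsg_s : Sl1 qsg := ⟨_, fun h1 => (pr_norm (pr_mul (pr_norm (pr_csub (enc_pnc _ 1) (gsg_s.snd h1))) (pr_norm (pr_subn 1 (pr_nat 2 (gsg_s.snd h1))))))⟩
noncomputable def l3q0_149_s : Sl2 l3q0_149 := ⟨_, fun h1 h2 => (pr_csub (enc_pnc _ 1) h1)⟩
noncomputable def l3q0_164_s : Sl2 l3q0_164 := ⟨_, fun h1 h2 => (pr_mul (cv2m_s.snd h1) (bx2q0_s.snd h1 h2))⟩
noncomputable def l3q0_s : Sl2 l3q0 := ⟨_, fun h1 h2 => (pr_norm (pr_case (pr_subr 3 125 h1) (pr_mul (cv3m_s.snd h1) (pr_norm (pr_case (pr_subr 133 10000 h1) (pr_case (pr_subr 67 10000 h1) (pr_add (pr_addc (pr_scaleT 356 335 h1) (enc_rat _ 639 20000)) (pr_cmul (enc_norm (l3q0_4.enc h1.l h2)) (pr_norm (pr_csub (enc_rat _ 1519 10000) (pr_scaleT 139 67 h1))))) (pr_add (pr_addc (pr_scaleT 701 660 h1) (enc_rat _ 42179 1320000)) (pr_cmul (enc_norm (l3q0_4.enc h1.l h2)) (pr_norm (pr_csub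 (enc_rat _ 100259 660000) (pr_scaleT 137 66 h1)))))) (pr_case (pr_subr 37 2000 h1) (pr_add (pr_addc (pr_scaleT 553 520 h1) (enc_rat _ 166067 5200000)) (pr_cmul (enc_norm (l3q0_4.enc h1.l h2)) (pr_norm (pr_csub (enc_rat _ 10191 32500) (pr_scaleT 185 13 h1))))) (pr_add (pr_add (pr_addc (pr_scaleT 10723873 11000000 h1) (enc_rat _ 738636699 22000000000)) (pr_cmul (enc_norm (l3q0_4.enc h1.l h2)) (pr_norm (pr_subr 499604339 5500000000 (pr_scaleT 20979847 2750000 h1))))) (pr_cmul (l3q0_52.enc h1.l h2) (pr_norm (pr_subr 948791 440000 (pr_scaleT 25643 220 h1))))))))) (pr_case (pr_subr 21 500 h1) (pr_add (l3q0_164_s.snd h1 h2) (pr_mul (pr_norm (pr_mul (pr_norm (pr_sub (pr_sub (qsg_s.snd (pr_norm (l3q0_149_s.snd h1 h2))) (pr_mul (pr_norm (pr_nat 2 (pr_subc (l3q0_149_s.snd h1 h2) h2))) (pr_norm (pr_mul (esg_s.snd (pr_norm (l3q0_149_s.snd h1 h2))) (kcg_s.snd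 (pr_norm (pr_sub (pr_scaleT 3 4 (l3q0_149_s.snd h1 h2)) (pr_half (gsg_s.snd (pr_norm (l3q0_149_s.snd h1 h2)))))) h2))))) (l3q0_164_s.snd h1 h2))) (pr_norm (pr_sub (cv3m_s.snd h1) (cv2m_s.snd h1))))) (pr_nd (pr_inv (pr_sub (pr_addc (swg_s.snd h1) (enc_rat _ 1 2)) (cv2m_s.snd h1)))))) (pr_mul (cv3m_s.snd h1) (pr_norm (pr_case (pr_subr 1 8 h1) (pr_case (pr_subr 3 50 h1) (pr_add (pr_add (pr_addc (pr_scaleT 22235107 30000000 h1) (enc_rat _ 20529893 500000000)) (pr_cmul (enc_norm (l3q0_4.enc h1.l h2)) (pr_norm (pr_csub (enc_rat _ 32236469 60000000) (pr_scaleT 36130469 3600000 h1))))) (pr_cmul (l3q0_52.enc h1.l h2) (pr_norm (pr_subr 1 150000 (pr_scaleT 1 9000 h1))))) (pr_case (pr_subr 17 200 h1) (pr_add (pr_addc (pr_scaleT 927 1250 h1) (enc_rat _ 20517 500000)) (pr_cmul (enc_norm (l3q0_4.enc h1.l h2)) (pr_norm (pr_subr 3449 50000 (pr_scaleT 17 250 h1)))))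 (pr_add (pr_addc (pr_scaleT 183 250 h1) (enc_rat _ 837 20000)) (pr_cmul (enc_norm (l3q0_4.enc h1.l h2)) (pr_norm (pr_subr 1383 20000 (pr_scaleT 7 100 h1))))))) (pr_case (pr_subr 1 4 h1) (pr_case (pr_subr 9 50 h1) (pr_add (pr_addc (pr_scaleT 23 44 h1) (enc_rat _ 7481 110000)) (pr_cmul (enc_norm (l3q0_4.enc h1.l h2)) (pr_norm (pr_subr 3797 55000 (pr_scaleT 19 275 h1))))) (pr_add (pr_addc (pr_scaleT 113 250 h1) (enc_rat _ 4037 50000)) (pr_cmul (enc_norm (l3q0_4.enc h1.l h2)) (pr_norm (pr_subr 2413 35000 (pr_scaleT 12 175 h1)))))) (pr_case (pr_subr 7 20 h1) (pr_add (pr_addc (pr_scaleT 979 2500 h1) (enc_rat _ 599 6250)) (pr_cmul (enc_norm (l3q0_4.enc h1.l h2)) (pr_norm (pr_subr 1381 20000 (pr_scaleT 69 1000 h1))))) (pr_add (pr_csub (enc_rat _ 21499 60000) (pr_scaleT 43 120 h1)) (pr_cmul (enc_norm (l3q0_4.enc h1.l h2)) (pr_norm (pr_subr 83 1200 (pr_scaleT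 26 375 h1)))))))))))))⟩
noncomputable def kc3q0_42_s : Sl2 kc3q0_42 := ⟨_, fun h1 h2 => (pr_csub (enc_pnc _ 1) h1)⟩
noncomputable def kc3q0_43_s : Sl2 kc3q0_43 := ⟨_, fun h1 h2 => (gsg_s.snd (pr_norm (kc3q0_42_s.snd h1 h2)))⟩
noncomputable def kc3q0_47_s : Sl2 kc3q0_47 := ⟨_, fun h1 h2 => (esg_s.snd (pr_norm (kc3q0_42_s.snd h1 h2)))⟩
noncomputable def kc3q0_51_s : Sl2 kc3q0_51 := ⟨_, fun h1 h2 => (gug_s.snd (pr_norm (kc3q0_42_s.snd h1 h2)))⟩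
noncomputable def kc3q0_53_s : Sl2 kc3q0_53 := ⟨_, fun h1 h2 => (pr_mul (pr_norm (kc3q0_42_s.snd h1 h2)) (pr_nd (pr_inv (kc3q0_43_s.snd h1 h2))))⟩
noncomputable def kc3q0_54_s : Sl2 kc3q0_54 := ⟨_, fun h1 h2 => (pr_scaleT 3 4 (kc3q0_53_s.snd h1 h2))⟩
noncomputable def kc3q0_84_s : Sl2 kc3q0_84 := ⟨_, fun h1 h2 => (pr_mul (cv2m_s.snd h1) (bd2q0_s.snd h1 h2))⟩
noncomputable def kc3q0_s : Sl2 kc3q0 := ⟨_, fun h1 h2 => (pr_norm (pr_case (pr_subr 3 125 h1) (pr_mul (cv3m_s.snd h1) (pr_norm (pr_case (pr_subr 1 100 h1) (pr_add (pr_subr 1847 10000 (pr_neg (pr_scaleT 2093 50 h1))) (pr_cmul (enc_norm (kc3q0_4.enc h1.l h2)) (pr_norm (pr_addc (pr_scaleT 6632 5 h1) (enc_rat _ 17 4))))) (pr_add (pr_subr 1291868757 7000000000 (pr_neg (pr_scaleT 2931231243 70000000 h1))) (pr_cmul (enc_norm (kc3q0_4.enc h1.l h2)) (pr_norm (pr_addc (pr_scaleT 18569338317 14000000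 h1) (enc_rat _ 5950261683 1400000000)))))))) (pr_case (pr_subr 21 500 h1) (pr_add (kc3q0_84_s.snd h1 h2) (pr_mul (pr_norm (pr_mul (pr_norm (pr_sub (pr_add (pr_sub (pr_neg (pr_add (pr_cadd (enc_rat _ 3 4) (pr_scaleT 3 2 (kc3q0_42_s.snd h1 h2))) (pr_scaleT 3 4 (pr_mul (pr_norm (kc3q0_53_s.snd h1 h2)) (kc3q0_51_s.snd h1 h2))))) (pr_wT (pr_mul (pr_norm (pr_sub (pr_mul (pr_norm (pr_mul (pr_norm (kc3q0_54_s.snd h1 h2)) (pr_norm (pr_subn 3 (pr_nat 4 (kc3q0_43_s.snd h1 h2)))))) (kc3q0_47_s.snd h1 h2)) (pr_mul (qsg_s.snd (pr_norm (kc3q0_42_s.snd h1 h2))) (pr_norm (pr_csub (enc_rat _ 1 2) (kc3q0_54_s.snd h1 h2)))))) (pr_nd (pr_inv (pr_mul (pr_nd (pr_nat 2 (kc3q0_47_s.snd h1 h2))) (kc3q0_47_s.snd h1 h2))))) (kc3q0_42_s.snd h1 h2) (kc3q0_43_s.snd h1 h2) (kc3q0_47_s.snd h1 h2) rfl rfl rfl rfl rfl rfl rfl rfl)) (pr_mul (kcg_s.snd (pr_norm (pr_sub (pr_scaleT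 3 4 (kc3q0_42_s.snd h1 h2)) (pr_half (kc3q0_43_s.snd h1 h2)))) h2) (pr_norm (pr_cadd (enc_pnc _ 1) (pr_add (kc3q0_51_s.snd h1 h2) (pr_nat 2 (kc3q0_43_s.snd h1 h2))))))) (kc3q0_84_s.snd h1 h2))) (pr_norm (pr_sub (cv3m_s.snd h1) (cv2m_s.snd h1))))) (pr_nd (pr_inv (pr_sub (pr_addc (swg_s.snd h1) (enc_rat _ 1 2)) (cv2m_s.snd h1)))))) (pr_mul (cv3m_s.snd h1) (pr_norm (pr_add (pr_subr 634138389 366400000 (pr_scaleT 317055829 183200000 h1)) (pr_cmul (enc_norm (kc3q0_4.enc h1.l h2)) (pr_norm (pr_subr 13200097983 916000000 (pr_scaleT 6600317983 458000000 h1))))))))))⟩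
noncomputable def bf3q1_s : Sl2 bf3q1 := ⟨_, fun h1 h2 => (pr_norm (pr_subr 2661 12500 (pr_scaleT 15161 12500 h1)))⟩
noncomputable def kf3q1_s : Sl2 kf3q1 := ⟨_, fun h1 h2 => (pr_norm (pr_mul (cv3m_s.snd h1) (bf3q1_s.snd h1 h2)))⟩
noncomputable def bx3q1_s : Sl2 bx3q1 := ⟨_, fun h1 h2 => (pr_norm (pr_case (pr_subr 7 8 h1) (pr_add (pr_csub (enc_rat _ 107489 300000) (pr_scaleT 3359 9375 h1)) (pr_cmul (enc_norm (bx3q1_3.enc h1.l h2)) (pr_norm (pr_subr 2071 30000 (pr_scaleT 259 3750 h1))))) (pr_add (pr_csub (enc_rat _ 4479 12500) (pr_scaleT 4479 12500 h1)) (pr_cmul (enc_norm (bx3q1_3.enc h1.l h2)) (pr_norm (pr_subr 43 625 (pr_scaleT 43 625 h1)))))))⟩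
noncomputable def l3q1_s : Sl2 l3q1 := ⟨_, fun h1 h2 => (pr_norm (pr_mul (cv3m_s.snd h1) (bx3q1_s.snd h1 h2)))⟩
noncomputable def bd3q1_s : Sl2 bd3q1 := ⟨_, fun h1 h2 => (pr_norm (pr_add (pr_subr 4327 2500 (pr_scaleT 4327 2500 h1)) (pr_cmul (enc_norm (enc_subr 309 320 h2)) (pr_norm (pr_subr 1441 100 (pr_scaleT 1441 100 h1))))))⟩
noncomputable def kc3q1_s : Sl2 kc3q1 := ⟨_, fun h1 h2 => (pr_norm (pr_mul (cv3m_s.snd h1) (bd3q1_s.snd h1 h2)))⟩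
noncomputable def cv3p_s : Sl1 cv3p := ⟨_, fun h1 => (pr_norm (pr_add (pr_scaleT 1899 2000 (pr_subr 1 2 (swg_s.snd h1))) (pr_scaleT 101 2000 (c3g_s.snd h1))))⟩
noncomputable def bf3q2_s : Sl2 bf3q2 := ⟨_, fun h1 h2 => (pr_norm (pr_case (pr_subr 217 200 h1) (pr_case (pr_subr 128 125 h1) (pr_csub (enc_rat _ 376231 300000) (pr_scaleT 229 1200 h1)) (pr_case (pr_subr 53 50 h1) (pr_csub (enc_rat _ 1128437 900000) (pr_scaleT 343 1800 h1)) (pr_csub (enc_rat _ 627039 500000) (pr_scaleT 477 2500 h1)))) (pr_case (pr_subr 231 200 h1) (pr_csub (enc_rat _ 62707 50000) (pr_scaleT 167 875 h1)) (pr_case (pr_subr 13 10 h1) (pr_csub (enc_rat _ 909169 725000) (pr_scaleT 1383 7250 h1)) (pr_csub (enc_rat _ 250803 200000) (pr_scaleT 763 4000 h1))))))⟩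
noncomputable def kf3q2_s : Sl2 kf3q2 := ⟨_, fun h1 h2 => (pr_norm (pr_mul (cv3p_s.snd h1) (bf3q2_s.snd h1 h2)))⟩
noncomputable def bx3q2_s : Sl2 bx3q2 := ⟨_, fun h1 h2 => (pr_norm (pr_case (pr_subr 53 50 h1) (pr_case (pr_subr 128 125 h1) (pr_add (pr_subr 146351 300000 (pr_scaleT 1339 2400 h1)) (pr_cmul (enc_norm (bx3q2_3.enc h1.l h2)) (pr_norm (pr_subr 4959 5000 (pr_scaleT 19 16 h1))))) (pr_case (pr_subr 521 500 h1) (pr_add (pr_subr 146479 300000 (pr_scaleT 67 120 h1)) (pr_cmul (enc_norm (bx3q2_3.enc h1.l h2)) (pr_norm (pr_subr 8939 9000 (pr_scaleT 107 90 h1))))) (pr_add (pr_subr 109729 225000 (pr_scaleT 251 450 h1)) (pr_cmul (enc_norm (bx3q2_3.enc h1.l h2)) (pr_norm (pr_subr 29623 30000 (pr_scaleT 71 60 h1))))))) (pr_case (pr_subr 231 200 h1) (pr_case (pr_subr 217 200 h1) (pr_add (pr_subr 61043 125000 (pr_scaleT 349 625 h1)) (pr_cmul (enc_norm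 (bx3q2_3.enc h1.l h2)) (pr_norm (pr_subr 49619 50000 (pr_scaleT 297 250 h1))))) (pr_add (pr_subr 48791 100000 (pr_scaleT 279 500 h1)) (pr_cmul (enc_norm (bx3q2_3.enc h1.l h2)) (pr_norm (pr_subr 19829 20000 (pr_scaleT 831 700 h1)))))) (pr_case (pr_subr 13 10 h1) (pr_add (pr_subr 2131039 2900000 (pr_scaleT 11191 14500 h1)) (pr_cmul (enc_norm (bx3q2_3.enc h1.l h2)) (pr_norm (pr_subr 143719 145000 (pr_scaleT 1721 1450 h1))))) (pr_add (pr_subr 4463 4000 (pr_scaleT 1331 1250 h1)) (pr_cmul (enc_norm (bx3q2_3.enc h1.l h2)) (pr_norm (pr_subr 9913 10000 (pr_scaleT 1187 1000 h1)))))))))⟩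
noncomputable def l3q2_s : Sl2 l3q2 := ⟨_, fun h1 h2 => (pr_norm (pr_mul (cv3p_s.snd h1) (bx3q2_s.snd h1 h2)))⟩
noncomputable def bd3q2_s : Sl2 bd3q2 := ⟨_, fun h1 h2 => (pr_norm (pr_case (pr_subr 231 200 h1) (pr_subr 2539927 155000 (pr_scaleT 23069 1550 h1)) (pr_subr 94219 5750 (pr_scaleT 3423 230 h1))))⟩
noncomputable def kc3q2_s : Sl2 kc3q2 := ⟨_, fun h1 h2 => (pr_norm (pr_mul (cv3p_s.snd h1) (bd3q2_s.snd h1 h2)))⟩
noncomputable def ycg_s : Sl1 ycg := ⟨_, fun h1 => (pr_sqrtg (pr_scaleT 4 3 (pr_csub (enc_pnc _ 3) (pr_sq h1))))⟩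
noncomputable def xc33_s : Sl1 xc33 := ⟨_, fun h1 => (pr_norm (pr_add (pr_scaleT 1899 2000 (pr_subr 1 2 (swg_s.snd (pr_nd (ycg_s.snd h1))))) (pr_scaleT 101 2000 h1)))⟩
noncomputable def kfc33_6_s : Sl2 kfc33_6 := ⟨_, fun h1 h2 => (pr_subr 1 2 (swg_s.snd (pr_nd (ycg_s.snd h1))))⟩
noncomputable def kfc33_9_s : Sl2 kfc33_9 := ⟨_, fun h1 h2 => (pr_add (pr_scaleT 1899 2000 (kfc33_6_s.snd h1 h2)) (pr_scaleT 101 2000 h1))⟩
noncomputable def kfc33_13_s : Sl2 kfc33_13 := ⟨_, fun h1 h2 => (pr_subr 383 200 (ycg_s.snd h1))⟩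
noncomputable def kfc33_25_s : Sl2 kfc33_25 := ⟨_, fun h1 h2 => (pr_subr 97 50 (ycg_s.snd h1))⟩
noncomputable def kfc33_50_s : Sl2 kfc33_50 := ⟨_, fun h1 h2 => (pr_csub (enc_rat _ 118673639 1000000000) h1)⟩
noncomputable def kfc33_52_s : Sl2 kfc33_52 := ⟨_, fun h1 h2 => (pr_csub (enc_rat _ 172988439 1000000000) h1)⟩
noncomputable def kfc33_76_s : Sl2 kfc33_76 := ⟨_, fun h1 h2 => (pr_csub (enc_rat _ 59990999 1000000000) h1)⟩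
noncomputable def kfc33_100_s : Sl2 kfc33_100 := ⟨_, fun h1 h2 => (pr_subn 1 (ycg_s.snd h1))⟩
noncomputable def kfc33_101_s : Sl2 kfc33_101 := ⟨_, fun h1 h2 => (gsg_s.snd (pr_norm (kfc33_100_s.snd h1 h2)))⟩
noncomputable def kfc33_102_s : Sl2 kfc33_102 := ⟨_, fun h1 h2 => (pr_scaleT 3 4 (kfc33_100_s.snd h1 h2))⟩
noncomputable def kfc33_103_s : Sl2 kfc33_103 := ⟨_, fun h1 h2 => (pr_half (kfc33_101_s.snd h1 h2))⟩
noncomputable def kfc33_105_s : Sl2 kfc33_105 := ⟨_, fun h1 h2 => (esg_s.snd (pr_norm (kfc33_100_s.snd h1 h2)))⟩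
noncomputable def kfc33_106_s : Sl2 kfc33_106 := ⟨_, fun h1 h2 => (kcg_s.snd (pr_norm (pr_sub (kfc33_102_s.snd h1 h2) (kfc33_103_s.snd h1 h2))) h2)⟩
noncomputable def kfc33_108_s : Sl2 kfc33_108 := ⟨_, fun h1 h2 => (pr_subn 2 (ycg_s.snd h1))⟩
noncomputable def kfc33_115_s : Sl2 kfc33_115 := ⟨_, fun h1 h2 => (pr_sub (pr_sub (kfc33_103_s.snd h1 h2) (kfc33_102_s.snd h1 h2)) (pr_csub (enc_rat _ 1 4) (pr_scaleT 3 8 (pr_mul (pr_norm (kfc33_100_s.snd h1 h2)) (pr_nd (pr_inv (kfc33_101_s.snd h1 h2)))))))⟩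
noncomputable def kfc33_121_s : Sl2 kfc33_121 := ⟨_, fun h1 h2 => (cv2r_s.snd (pr_nd (ycg_s.snd h1)))⟩
noncomputable def kfc33_146_s : Sl2 kfc33_146 := ⟨_, fun h1 h2 => (pr_subr 979 500 (ycg_s.snd h1))⟩
noncomputable def kfc33_155_s : Sl2 kfc33_155 := ⟨_, fun h1 h2 => (pr_cmul (enc_norm (kfc33_11.enc h1.l h2)) (pr_norm (pr_csub (enc_rat _ 575267 45000) (pr_scaleT 767 90 (ycg_s.snd h1)))))⟩
noncomputable def kfc33_165_s : Sl2 kfc33_165 := ⟨_, fun h1 h2 => (pr_subr 247 125 (ycg_s.snd h1))⟩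
noncomputable def kfc33_220_s : Sl2 kfc33_220 := ⟨_, fun h1 h2 => (pr_mul (kfc33_121_s.snd h1 h2) (pr_norm (pr_case (pr_subr 1967 1000 (ycg_s.snd h1)) (pr_case (kfc33_25_s.snd h1 h2) (pr_case (kfc33_13_s.snd h1 h2) (pr_add (pr_subr 2763841 8300000 (pr_scaleT 87 8300 (ycg_s.snd h1))) (pr_cmul (enc_norm (kfc33_11.enc h1.l h2)) (pr_norm (pr_csub (enc_rat _ 26523 2075) (pr_scaleT 17682 2075 (ycg_s.snd h1)))))) (pr_add (pr_subr 83209 250000 (pr_scaleT 13 1250 (ycg_s.snd h1))) (pr_cmul (enc_norm (kfc33_11.enc h1.l h2)) (pr_norm (pr_csub (enc_rat _ 63897 5000) (pr_scaleT 213 25 (ycg_s.snd h1))))))) (pr_case (kfc33_146_s.snd h1 h2) (pr_add (pr_subr 18739 56250 (pr_scaleT 19 1800 (ycg_s.snd h1))) (kfc33_155_s.snd h1 h2)) (pr_add (pr_subr 300803 900000 (pr_scaleT 1 90 (ycg_s.snd h1))) (kfc33_155_s.snd h1 h2)))) (pr_case (kfc33_52_s.snd h1 h2) (pr_case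 (kfc33_165_s.snd h1 h2) (pr_add (pr_subr 8301 25000 (pr_scaleT 1 100 (ycg_s.snd h1))) (kfc33_155_s.snd h1 h2)) (pr_add (pr_subr 1189600285917 2363338075000 (pr_scaleT 67520000 94533523 h1)) (pr_cmul (enc_norm (kfc33_11.enc h1.l h2)) (pr_norm (pr_subr 84173896339 472667615000 (pr_neg (pr_scaleT 1370400000 94533523 h1))))))) (pr_case (kfc33_50_s.snd h1 h2) (pr_add (pr_subr 41919791709 84866875000 (pr_scaleT 89600 135787 h1)) (pr_cmul (enc_norm (kfc33_11.enc h1.l h2)) (pr_norm (pr_subr 48337964857 271574000000 (pr_neg (pr_scaleT 1968500 135787 h1)))))) (pr_case (kfc33_76_s.snd h1 h2) (pr_add (pr_subr 153937708073 308856000000 (pr_scaleT 511625 733533 h1)) (pr_cmul (enc_norm (kfc33_11.enc h1.l h2)) (pr_norm (pr_subr 2752454327 15442800000 (pr_neg (pr_scaleT 10632500 733533 h1)))))) (pr_add (pr_subr 24921 50000 (pr_scaleT 41850000 59990999 h1)) (pr_cmul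 (enc_norm (kfc33_11.enc h1.l h2)) (pr_norm (pr_subr 1781 10000 (pr_neg (pr_scaleT 869700000 59990999 h1))))))))))))⟩
noncomputable def kfc33_s : Sl2 kfc33 := ⟨_, fun h1 h2 => (pr_norm (pr_case (kfc33_146_s.snd h1 h2) (pr_mul (pr_norm (kfc33_9_s.snd h1 h2)) (pr_norm (pr_case (kfc33_13_s.snd h1 h2) (pr_add (pr_subr 38235347 8300000 (pr_scaleT 51219 20750 (ycg_s.snd h1))) (pr_cmul (enc_norm (kfc33_11.enc h1.l h2)) (pr_norm (pr_subr 16191 4150 (pr_scaleT 5397 2075 (ycg_s.snd h1)))))) (pr_case (kfc33_25_s.snd h1 h2) (pr_add (pr_subr 575837 125000 (pr_scaleT 6171 2500 (ycg_s.snd h1))) (pr_cmul (enc_norm (kfc33_11.enc h1.l h2)) (pr_norm (pr_subr 9749 2500 (pr_scaleT 13 5 (ycg_s.snd h1)))))) (pr_add (pr_subr 1295781563 281250000 (pr_scaleT 13886279 5625000 (ycg_s.snd h1))) (pr_cmul (enc_norm (kfc33_11.enc h1.l h2)) (pr_norm (pr_subr 175531567 45000000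 (pr_scaleT 2340511 900000 (ycg_s.snd h1)))))))))) (pr_case (kfc33_165_s.snd h1 h2) (pr_add (kfc33_220_s.snd h1 h2) (pr_mul (pr_norm (pr_mul (pr_norm (pr_sub (pr_wB3 (pr_mul (pr_norm (kfc33_108_s.snd h1 h2)) (pr_norm (pr_add (pr_mul (pr_norm (kfc33_115_s.snd h1 h2)) (pr_nd (pr_inv (kfc33_105_s.snd h1 h2)))) (kfc33_106_s.snd h1 h2)))) (kfc33_100_s.snd h1 h2) (kfc33_101_s.snd h1 h2) (kfc33_105_s.snd h1 h2) (kfc33_108_s.snd h1 h2) (kfc33_115_s.snd h1 h2) (kfc33_106_s.snd h1 h2) (ycg_s.snd h1) rfl rfl rfl rfl rfl rfl rfl rfl rfl rfl) (kfc33_220_s.snd h1 h2))) (pr_norm (pr_sub (kfc33_9_s.snd h1 h2) (kfc33_121_s.snd h1 h2))))) (pr_nd (pr_inv (pr_sub (kfc33_6_s.snd h1 h2) (kfc33_121_s.snd h1 h2)))))) (pr_mul (pr_norm (kfc33_9_s.snd h1 h2)) (pr_norm (pr_case (kfc33_50_s.snd h1 h2) (pr_case (kfc33_52_s.snd h1 h2) (pr_add (pr_subr 265964967965601771 189067046000000000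 (pr_scaleT 1072041389 189067046 h1)) (pr_cmul (enc_norm (kfc33_11.enc h1.l h2)) (pr_norm (pr_subr 1652336485758727537 94533523000000000 (pr_scaleT 5251628983 94533523 h1))))) (pr_add (pr_csub (enc_rat _ 828198481647 2715740000000) (pr_scaleT 573650 135787 h1)) (pr_cmul (enc_norm (kfc33_11.enc h1.l h2)) (pr_norm (pr_subr 35304233 271574000000 (pr_neg (pr_scaleT 6176500 135787 h1))))))) (pr_case (kfc33_76_s.snd h1 h2) (pr_add (pr_csub (enc_rat _ 3924755463 12869000000) (pr_scaleT 1033000 244511 h1)) (pr_cmul (enc_norm (kfc33_11.enc h1.l h2)) (pr_norm (pr_csub (enc_rat _ 595149 5147600000) (pr_scaleT 11122500 244511 h1))))) (pr_sub (pr_csub (enc_rat _ 1 2) (pr_scaleT 448470000 59990999 h1)) (pr_cmul (enc_norm (kfc33_11.enc h1.l h2)) (pr_nd (pr_scaleT 2728800000 59990999 h1)))))))))))⟩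
noncomputable def lc33_6_s : Sl2 lc33_6 := ⟨_, fun h1 h2 => (pr_subr 1 2 (swg_s.snd (pr_nd (ycg_s.snd h1))))⟩
noncomputable def lc33_9_s : Sl2 lc33_9 := ⟨_, fun h1 h2 => (pr_add (pr_scaleT 1899 2000 (lc33_6_s.snd h1 h2)) (pr_scaleT 101 2000 h1))⟩
noncomputable def lc33_13_s : Sl2 lc33_13 := ⟨_, fun h1 h2 => (pr_subr 383 200 (ycg_s.snd h1))⟩
noncomputable def lc33_25_s : Sl2 lc33_25 := ⟨_, fun h1 h2 => (pr_subr 97 50 (ycg_s.snd h1))⟩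
noncomputable def lc33_57_s : Sl2 lc33_57 := ⟨_, fun h1 h2 => (pr_csub (enc_rat _ 118673639 1000000000) h1)⟩
noncomputable def lc33_59_s : Sl2 lc33_59 := ⟨_, fun h1 h2 => (pr_csub (enc_rat _ 172988439 1000000000) h1)⟩
noncomputable def lc33_86_s : Sl2 lc33_86 := ⟨_, fun h1 h2 => (pr_csub (enc_rat _ 59990999 1000000000) h1)⟩
noncomputable def lc33_109_s : Sl2 lc33_109 := ⟨_, fun h1 h2 => (pr_subn 1 (ycg_s.snd h1))⟩
noncomputable def lc33_122_s : Sl2 lc33_122 := ⟨_, fun h1 h2 => (cv2r_s.snd (pr_nd (ycg_s.snd h1)))⟩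
noncomputable def lc33_147_s : Sl2 lc33_147 := ⟨_, fun h1 h2 => (pr_subr 979 500 (ycg_s.snd h1))⟩
noncomputable def lc33_171_s : Sl2 lc33_171 := ⟨_, fun h1 h2 => (pr_subr 247 125 (ycg_s.snd h1))⟩
noncomputable def lc33_223_s : Sl2 lc33_223 := ⟨_, fun h1 h2 => (pr_mul (lc33_122_s.snd h1 h2) (pr_norm (pr_case (pr_subr 1967 1000 (ycg_s.snd h1)) (pr_case (lc33_25_s.snd h1 h2) (pr_case (lc33_13_s.snd h1 h2) (pr_add (pr_subr 701491 518750 (pr_scaleT 48277 41500 (ycg_s.snd h1))) (pr_cmul (enc_norm (lc33_11.enc h1.l h2)) (pr_norm (pr_csub (enc_rat _ 355263 830000) (pr_scaleT 888 2075 (ycg_s.snd h1)))))) (pr_add (pr_subr 676039 500000 (pr_scaleT 727 625 (ycg_s.snd h1))) (pr_cmul (enc_norm (lc33_11.enc h1.l h2)) (pr_norm (pr_csub (enc_rat _ 10703 25000) (pr_scaleT 107 250 (ycg_s.snd h1))))))) (pr_case (lc33_147_s.snd h1 h2) (pr_add (pr_subr 298517 100000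 (pr_scaleT 401 200 (ycg_s.snd h1))) (pr_cmul (enc_norm (lc33_11.enc h1.l h2)) (pr_norm (pr_csub (enc_rat _ 9623 22500) (pr_scaleT 77 180 (ycg_s.snd h1)))))) (pr_add (pr_subr 1342837 450000 (pr_scaleT 451 225 (ycg_s.snd h1))) (pr_cmul (enc_norm (lc33_11.enc h1.l h2)) (pr_norm (pr_csub (enc_rat _ 37513 90000) (pr_scaleT 19 45 (ycg_s.snd h1)))))))) (pr_case (lc33_59_s.snd h1 h2) (pr_case (lc33_171_s.snd h1 h2) (pr_add (pr_subr 2687641 900000 (pr_scaleT 361 180 (ycg_s.snd h1))) (pr_cmul (enc_norm (lc33_11.enc h1.l h2)) (pr_norm (pr_csub (enc_rat _ 329 750) (pr_scaleT 13 30 (ycg_s.snd h1)))))) (pr_add (pr_addc (pr_scaleT 12370000 94533523 h1) (enc_rat _ 8902259057939 9453352300000)) (pr_cmul (enc_norm (lc33_11.enc h1.l h2)) (pr_norm (pr_csub (enc_rat _ 3460308029421 472667615000) (pr_scaleT 2734500000 94533523 h1)))))) (pr_case (lc33_57_s.snd h1 h2)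 (pr_add (pr_addc (pr_scaleT 87575 135787 h1) (enc_rat _ 4631814921383 5431480000000)) (pr_cmul (enc_norm (lc33_11.enc h1.l h2)) (pr_norm (pr_csub (enc_rat _ 2987785025883 543148000000) (pr_scaleT 2499250 135787 h1))))) (pr_case (lc33_86_s.snd h1 h2) (pr_add (pr_addc (pr_scaleT 65000 244511 h1) (enc_rat _ 92426413 102952000)) (pr_cmul (enc_norm (lc33_11.enc h1.l h2)) (pr_norm (pr_csub (enc_rat _ 169898021741 30885600000) (pr_scaleT 13501250 733533 h1))))) (pr_add (pr_addc (pr_scaleT 15950000 59990999 h1) (enc_rat _ 5611 6250)) (pr_cmul (enc_norm (lc33_11.enc h1.l h2)) (pr_norm (pr_csub (enc_rat _ 55009 10000) (pr_scaleT 1104200000 59990999 h1)))))))))))⟩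
noncomputable def lc33_s : Sl2 lc33 := ⟨_, fun h1 h2 => (pr_norm (pr_case (lc33_147_s.snd h1 h2) (pr_mul (pr_norm (lc33_9_s.snd h1 h2)) (pr_norm (pr_case (lc33_13_s.snd h1 h2) (pr_add (pr_subr 2110673 1660000 (pr_scaleT 24249 20750 (ycg_s.snd h1))) (pr_cmul (enc_norm (lc33_11.enc h1.l h2)) (pr_norm (pr_subr 51404 51875 (pr_scaleT 197 166 (ycg_s.snd h1)))))) (pr_case (lc33_25_s.snd h1 h2) (pr_add (pr_subr 79441 62500 (pr_scaleT 2921 2500 (ycg_s.snd h1))) (pr_cmul (enc_norm (lc33_11.enc h1.l h2)) (pr_norm (pr_subr 24833 25000 (pr_scaleT 297 250 (ycg_s.snd h1)))))) (pr_add (pr_add (pr_csub (enc_rat _ 40416904513 3000000000) (pr_scaleT 385876129 60000000 (ycg_s.snd h1))) (pr_cmul (enc_norm (lc33_11.enc h1.l h2)) (pr_norm (pr_subr 15113724403 225000000 (pr_scaleT 158853499 4500000 (ycg_s.snd h1)))))) (pr_cmul (lc33_50.enc h1.l h2) (pr_norm (pr_csub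 (enc_rat _ 97 56250) (pr_scaleT 1 1125 (ycg_s.snd h1)))))))))) (pr_case (lc33_171_s.snd h1 h2) (pr_add (lc33_223_s.snd h1 h2) (pr_mul (pr_norm (pr_mul (pr_norm (pr_sub (pr_sub (qsg_s.snd (pr_norm (lc33_109_s.snd h1 h2))) (pr_mul (pr_norm (pr_nat 2 (pr_subc (lc33_109_s.snd h1 h2) h2))) (pr_norm (pr_mul (esg_s.snd (pr_norm (lc33_109_s.snd h1 h2))) (kcg_s.snd (pr_norm (pr_sub (pr_scaleT 3 4 (lc33_109_s.snd h1 h2)) (pr_half (gsg_s.snd (pr_norm (lc33_109_s.snd h1 h2)))))) h2))))) (lc33_223_s.snd h1 h2))) (pr_norm (pr_sub (lc33_9_s.snd h1 h2) (lc33_122_s.snd h1 h2))))) (pr_nd (pr_inv (pr_sub (lc33_6_s.snd h1 h2) (lc33_122_s.snd h1 h2)))))) (pr_mul (pr_norm (lc33_9_s.snd h1 h2)) (pr_norm (pr_case (lc33_57_s.snd h1 h2) (pr_case (lc33_59_s.snd h1 h2) (pr_add (pr_add (pr_csub (enc_rat _ 432691551156770103 472667615000000000) (pr_scaleT 47227777 472667615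 h1)) (pr_cmul (enc_norm (lc33_11.enc h1.l h2)) (pr_norm (pr_addc (pr_scaleT 443990325 94533523 h1) (enc_rat _ 4708279346877893 3781340920000000))))) (pr_cmul (lc33_50.enc h1.l h2) (pr_norm (pr_subr 672684400791351 47266761500000 (pr_scaleT 7777218000 94533523 h1))))) (pr_add (pr_addc (pr_scaleT 61200 135787 h1) (enc_rat _ 278422109283 339467500000)) (pr_cmul (enc_norm (lc33_11.enc h1.l h2)) (pr_norm (pr_csub (enc_rat _ 2769793905689 543148000000) (pr_scaleT 2387750 135787 h1)))))) (pr_case (lc33_86_s.snd h1 h2) (pr_add (pr_addc (pr_scaleT 464375 733533 h1) (enc_rat _ 49326262709 61771200000)) (pr_cmul (enc_norm (lc33_11.enc h1.l h2)) (pr_norm (pr_csub (enc_rat _ 328140773 64345000) (pr_scaleT 4300000 244511 h1))))) (pr_add (pr_addc (pr_scaleT 50605150 59990999 h1) (enc_rat _ 15718097 20000000)) (pr_cmul (enc_norm (lc33_11.enc h1.l h2)) (pr_norm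 (pr_csub (enc_rat _ 9332299 2000000) (pr_scaleT 621449500 59990999 h1))))))))))))⟩
noncomputable def kcc33_6_s : Sl2 kcc33_6 := ⟨_, fun h1 h2 => (pr_subr 1 2 (swg_s.snd (pr_nd (ycg_s.snd h1))))⟩
noncomputable def kcc33_9_s : Sl2 kcc33_9 := ⟨_, fun h1 h2 => (pr_add (pr_scaleT 1899 2000 (kcc33_6_s.snd h1 h2)) (pr_scaleT 101 2000 h1))⟩
noncomputable def kcc33_34_s : Sl2 kcc33_34 := ⟨_, fun h1 h2 => (pr_subn 1 (ycg_s.snd h1))⟩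
noncomputable def kcc33_35_s : Sl2 kcc33_35 := ⟨_, fun h1 h2 => (gsg_s.snd (pr_norm (kcc33_34_s.snd h1 h2)))⟩
noncomputable def kcc33_39_s : Sl2 kcc33_39 := ⟨_, fun h1 h2 => (esg_s.snd (pr_norm (kcc33_34_s.snd h1 h2)))⟩
noncomputable def kcc33_44_s : Sl2 kcc33_44 := ⟨_, fun h1 h2 => (gug_s.snd (pr_norm (kcc33_34_s.snd h1 h2)))⟩
noncomputable def kcc33_46_s : Sl2 kcc33_46 := ⟨_, fun h1 h2 => (pr_mul (pr_norm (kcc33_34_s.snd h1 h2)) (pr_nd (pr_inv (kcc33_35_s.snd h1 h2))))⟩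
noncomputable def kcc33_47_s : Sl2 kcc33_47 := ⟨_, fun h1 h2 => (pr_scaleT 3 4 (kcc33_46_s.snd h1 h2))⟩
noncomputable def kcc33_73_s : Sl2 kcc33_73 := ⟨_, fun h1 h2 => (cv2r_s.snd (pr_nd (ycg_s.snd h1)))⟩
noncomputable def kcc33_75_s : Sl2 kcc33_75 := ⟨_, fun h1 h2 => (pr_subr 979 500 (ycg_s.snd h1))⟩
noncomputable def kcc33_81_s : Sl2 kcc33_81 := ⟨_, fun h1 h2 => (pr_subr 247 125 (ycg_s.snd h1))⟩
noncomputable def kcc33_97_s : Sl2 kcc33_97 := ⟨_, fun h1 h2 => (pr_mul (kcc33_73_s.snd h1 h2) (pr_norm (pr_case (kcc33_75_s.snd h1 h2) (pr_subr 73812131 2290000 (pr_scaleT 36906 1145 (ycg_s.snd h1))) (pr_case (kcc33_81_s.snd h1 h2) (pr_subr 967031 30000 (pr_scaleT 967 30 (ycg_s.snd h1))) (pr_add (pr_addc (pr_scaleT 15553650000 133760981 h1) (enc_rat _ 1757 5000)) (pr_cmul (enc_norm (kcc33_11.enc h1.l h2)) (pr_norm (pr_subr 182971 1000 (pr_scaleT 5381500000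 7868293 h1)))))))))⟩
noncomputable def kcc33_s : Sl2 kcc33 := ⟨_, fun h1 h2 => (pr_norm (pr_case (kcc33_75_s.snd h1 h2) (pr_mul (pr_norm (kcc33_9_s.snd h1 h2)) (pr_norm (pr_add (pr_subr 30019316131 1832000000 (pr_scaleT 13632577377 916000000 (ycg_s.snd h1))) (pr_cmul (enc_norm (kcc33_11.enc h1.l h2)) (pr_norm (pr_subr 484323 458000000 (pr_scaleT 161441 229000000 (ycg_s.snd h1)))))))) (pr_case (kcc33_81_s.snd h1 h2) (pr_add (kcc33_97_s.snd h1 h2) (pr_mul (pr_norm (pr_mul (pr_norm (pr_sub (pr_add (pr_sub (pr_add (pr_cadd (enc_rat _ 3 4) (pr_scaleT 3 2 (kcc33_34_s.snd h1 h2))) (pr_scaleT 3 4 (pr_mul (pr_norm (kcc33_46_s.snd h1 h2)) (kcc33_44_s.snd h1 h2)))) (pr_wT (pr_mul (pr_norm (pr_sub (pr_mul (pr_norm (pr_mul (pr_norm (kcc33_47_s.snd h1 h2)) (pr_norm (pr_subn 3 (pr_nat 4 (kcc33_35_s.snd h1 h2)))))) (kcc33_39_s.snd h1 h2)) (pr_mul (qsg_s.snd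 (pr_norm (kcc33_34_s.snd h1 h2))) (pr_norm (pr_csub (enc_rat _ 1 2) (kcc33_47_s.snd h1 h2)))))) (pr_nd (pr_inv (pr_mul (pr_nd (pr_nat 2 (kcc33_39_s.snd h1 h2))) (kcc33_39_s.snd h1 h2))))) (kcc33_34_s.snd h1 h2) (kcc33_35_s.snd h1 h2) (kcc33_39_s.snd h1 h2) rfl rfl rfl rfl rfl rfl rfl rfl)) (pr_mul (kcg_s.snd (pr_norm (pr_sub (pr_scaleT 3 4 (kcc33_34_s.snd h1 h2)) (pr_half (kcc33_35_s.snd h1 h2)))) h2) (pr_norm (pr_csub (enc_pnc _ 1) (pr_add (kcc33_44_s.snd h1 h2) (pr_nat 2 (kcc33_35_s.snd h1 h2))))))) (kcc33_97_s.snd h1 h2))) (pr_norm (pr_sub (kcc33_9_s.snd h1 h2) (kcc33_73_s.snd h1 h2))))) (pr_nd (pr_inv (pr_sub (kcc33_6_s.snd h1 h2) (kcc33_73_s.snd h1 h2)))))) (pr_mul (pr_norm (kcc33_9_s.snd h1 h2)) (pr_norm (pr_add (pr_addc (pr_scaleT 24295599658607 446761676540 h1) (enc_rat _ 12411 3340)) (pr_cmul (enc_norm (kcc33_11.enc h1.l h2)) (pr_norm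 (pr_subr 57574 167 (pr_scaleT 7041523307405 22338083827 h1))))))))))⟩
noncomputable def cv4m_s : Sl1 cv4m := ⟨_, fun h1 => (pr_norm (pr_add (pr_scaleT 3 10 (pr_addc (swg_s.snd h1) (enc_rat _ 1 2))) (pr_scaleT 7 10 (c3g_s.snd h1))))⟩
noncomputable def bf4q0_45_s : Sl2 bf4q0_45 := ⟨_, fun h1 h2 => (pr_scaleT 367 500 h1)⟩
noncomputable def bf4q0_s : Sl2 bf4q0 := ⟨_, fun h1 h2 => (pr_norm (pr_case (pr_subr 21 500 h1) (pr_case (pr_subr 133 10000 h1) (pr_case (pr_subr 67 10000 h1) (pr_csub (enc_rat _ 1323 4000) (pr_scaleT 246 335 h1)) (pr_csub (enc_rat _ 99223 300000) (pr_scaleT 11 15 h1))) (pr_case (pr_subr 37 2000 h1) (pr_csub (enc_rat _ 859977 2600000) (pr_scaleT 191 260 h1)) (pr_case (pr_subr 3 125 h1) (pr_csub (enc_rat _ 181899 550000) (pr_scaleT 403 550 h1)) (pr_csub (enc_rat _ 9923 30000) (pr_scaleT 661 900 h1))))) (pr_case (pr_subr 17 200 h1)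 (pr_case (pr_subr 3 50 h1) (pr_csub (enc_rat _ 99223 300000) (pr_scaleT 1321 1800 h1)) (pr_csub (enc_rat _ 1323 4000) (bf4q0_45_s.snd h1 h2))) (pr_case (pr_subr 1 8 h1) (pr_csub (enc_rat _ 264583 800000) (pr_scaleT 587 800 h1)) (pr_case (pr_subr 7 20 h1) (pr_csub (enc_rat _ 8269 25000) (bf4q0_45_s.snd h1 h2)) (pr_csub (enc_rat _ 99221 300000) (pr_scaleT 11009 15000 h1)))))))⟩
noncomputable def kf4q0_s : Sl2 kf4q0 := ⟨_, fun h1 h2 => (pr_norm (pr_mul (cv4m_s.snd h1) (bf4q0_s.snd h1 h2)))⟩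
noncomputable def bx4q0_66_s : Sl2 bx4q0_66 := ⟨_, fun h1 h2 => (pr_cmul (enc_norm (bx4q0_3.enc h1.l h2)) (pr_norm (pr_csub (enc_rat _ 19139 15000) (pr_scaleT 16 45 h1))))⟩
noncomputable def bx4q0_97_s : Sl2 bx4q0_97 := ⟨_, fun h1 h2 => (pr_scaleT 107 1000 h1)⟩
noncomputable def bx4q0_140_s : Sl2 bx4q0_140 := ⟨_, fun h1 h2 => (pr_cmul (enc_norm (bx4q0_3.enc h1.l h2)) (pr_norm (pr_csub (enc_rat _ 12759 10000) (pr_scaleT 177 500 h1))))⟩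
noncomputable def bx4q0_s : Sl2 bx4q0 := ⟨_, fun h1 h2 => (pr_norm (pr_case (pr_subr 21 500 h1) (pr_case (pr_subr 37 2000 h1) (pr_case (pr_subr 67 10000 h1) (pr_add (pr_csub (enc_rat _ 30659 100000) (pr_scaleT 36 335 h1)) (pr_cmul (enc_norm (bx4q0_3.enc h1.l h2)) (pr_norm (pr_csub (enc_rat _ 12759 10000) (pr_scaleT 24 67 h1))))) (pr_case (pr_subr 133 10000 h1) (pr_add (pr_csub (enc_rat _ 2023499 6600000) (pr_scaleT 71 660 h1)) (pr_cmul (enc_norm (bx4q0_3.enc h1.l h2)) (pr_norm (pr_csub (enc_rat _ 842051 660000) (pr_scaleT 23 66 h1))))) (pr_add (pr_csub (enc_rat _ 1594147 5200000) (pr_scaleT 11 104 h1)) (pr_cmul (enc_norm (bx4q0_3.enc h1.l h2)) (pr_norm (pr_csub (enc_rat _ 663551 520000) (pr_scaleT 19 52 h1))))))) (pr_case (pr_subr 3 125 h1) (pr_add (pr_csub (enc_rat _ 168627 550000) (pr_scaleT 59 550 h1)) (pr_cmul (enc_norm (bx4q0_3.enc h1.l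 h2)) (pr_norm (pr_csub (enc_rat _ 70163 55000) (pr_scaleT 19 55 h1))))) (pr_case (pr_subr 33 1000 h1) (pr_add (pr_csub (enc_rat _ 45991 150000) (pr_scaleT 97 900 h1)) (bx4q0_66_s.snd h1 h2)) (pr_add (pr_csub (enc_rat _ 30657 100000) (pr_scaleT 8 75 h1)) (bx4q0_66_s.snd h1 h2))))) (pr_case (pr_subr 1 8 h1) (pr_case (pr_subr 3 50 h1) (pr_add (pr_csub (enc_rat _ 45989 150000) (pr_scaleT 193 1800 h1)) (bx4q0_66_s.snd h1 h2)) (pr_case (pr_subr 17 200 h1) (pr_add (pr_csub (enc_rat _ 38321 125000) (pr_scaleT 267 2500 h1)) (pr_cmul (enc_norm (bx4q0_3.enc h1.l h2)) (pr_norm (pr_csub (enc_rat _ 31893 25000) (pr_scaleT 44 125 h1))))) (pr_add (pr_csub (enc_rat _ 61317 200000) (bx4q0_97_s.snd h1 h2)) (pr_cmul (enc_norm (bx4q0_3.enc h1.l h2)) (pr_norm (pr_csub (enc_rat _ 51039 40000) (pr_scaleT 71 200 h1))))))) (pr_case (pr_subr 1 4 h1) (pr_case (pr_subr 9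 50 h1) (pr_add (pr_csub (enc_rat _ 42157 137500) (pr_scaleT 589 5500 h1)) (pr_cmul (enc_norm (bx4q0_3.enc h1.l h2)) (pr_norm (pr_csub (enc_rat _ 70163 55000) (pr_scaleT 97 275 h1))))) (pr_add (pr_csub (enc_rat _ 15329 50000) (bx4q0_97_s.snd h1 h2)) (pr_cmul (enc_norm (bx4q0_3.enc h1.l h2)) (pr_norm (pr_csub (enc_rat _ 44659 35000) (pr_scaleT 62 175 h1)))))) (pr_case (pr_subr 7 20 h1) (pr_add (pr_csub (enc_rat _ 61321 200000) (pr_scaleT 1071 10000 h1)) (bx4q0_140_s.snd h1 h2)) (pr_add (pr_csub (enc_rat _ 30657 100000) (bx4q0_97_s.snd h1 h2)) (bx4q0_140_s.snd h1 h2)))))))⟩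
noncomputable def l4q0_s : Sl2 l4q0 := ⟨_, fun h1 h2 => (pr_norm (pr_mul (cv4m_s.snd h1) (bx4q0_s.snd h1 h2)))⟩
noncomputable def bd4q0_s : Sl2 bd4q0 := ⟨_, fun h1 h2 => (pr_norm (pr_case (pr_subr 3 125 h1) (pr_case (pr_subr 1 100 h1) (pr_csub (enc_rat _ 26733 2500) (pr_scaleT 107 10 h1)) (pr_csub (enc_rat _ 748519 70000) (pr_scaleT 1497 140 h1))) (pr_case (pr_subr 3 100 h1) (pr_csub (enc_rat _ 106929 10000) (pr_scaleT 641 60 h1)) (pr_case (pr_subr 21 500 h1) (pr_csub (enc_rat _ 213863 20000) (pr_scaleT 1283 120 h1)) (pr_csub (enc_rat _ 3060933 286250) (pr_scaleT 9795 916 h1))))))⟩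
noncomputable def kc4q0_s : Sl2 kc4q0 := ⟨_, fun h1 h2 => (pr_norm (pr_mul (cv4m_s.snd h1) (bd4q0_s.snd h1 h2)))⟩
noncomputable def bf4q1_s : Sl2 bf4q1 := ⟨_, fun h1 h2 => (pr_norm (pr_case (pr_subr 7 8 h1) (pr_subr 8699 30000 (pr_scaleT 24187 18750 h1)) (pr_subr 906 3125 (pr_scaleT 4031 3125 h1))))⟩
noncomputable def kf4q1_s : Sl2 kf4q1 := ⟨_, fun h1 h2 => (pr_norm (pr_mul (cv4m_s.snd h1) (bf4q1_s.snd h1 h2)))⟩
noncomputable def bx4q1_s : Sl2 bx4q1 := ⟨_, fun h1 h2 => (pr_norm (pr_case (pr_subr 7 8 h1) (pr_add (pr_csub (enc_rat _ 53371 100000) (pr_scaleT 1754 3125 h1)) (pr_cmul (enc_norm (bx4q1_3.enc h1.l h2)) (pr_norm (pr_csub (enc_rat _ 13187 6000) (pr_scaleT 4121 1875 h1))))) (pr_add (pr_csub (enc_rat _ 4259 12500) (pr_scaleT 4259 12500 h1)) (pr_cmul (enc_norm (bx4q1_3.enc h1.l h2)) (pr_norm (pr_csub (enc_rat _ 2747 1250) (pr_scaleT 2747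 1250 h1)))))))⟩
noncomputable def l4q1_s : Sl2 l4q1 := ⟨_, fun h1 h2 => (pr_norm (pr_mul (cv4m_s.snd h1) (bx4q1_s.snd h1 h2)))⟩
noncomputable def bd4q1_s : Sl2 bd4q1 := ⟨_, fun h1 h2 => (pr_norm (pr_csub (enc_rat _ 26733 2500) (pr_scaleT 26733 2500 h1)))⟩
noncomputable def kc4q1_s : Sl2 kc4q1 := ⟨_, fun h1 h2 => (pr_norm (pr_mul (cv4m_s.snd h1) (bd4q1_s.snd h1 h2)))⟩
noncomputable def cv4p_s : Sl1 cv4p := ⟨_, fun h1 => (pr_norm (pr_add (pr_scaleT 3 10 (pr_subr 1 2 (swg_s.snd h1))) (pr_scaleT 7 10 (c3g_s.snd h1))))⟩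
noncomputable def bf4q2_s : Sl2 bf4q2 := ⟨_, fun h1 h2 => (pr_norm (pr_case (pr_subr 53 50 h1) (pr_case (pr_subr 128 125 h1) (pr_subr 1008907 300000 (pr_scaleT 8717 2400 h1)) (pr_case (pr_subr 521 500 h1) (pr_subr 3027361 900000 (pr_scaleT 6539 1800 h1)) (pr_subr 75671 22500 (pr_scaleT 3269 900 h1)))) (pr_case (pr_subr 231 200 h1) (pr_case (pr_subr 217 200 h1) (pr_subr 210209 62500 (pr_scaleT 9081 2500 h1)) (pr_subr 26907 8000 (pr_scaleT 25427 7000 h1))) (pr_case (pr_subr 13 10 h1) (pr_subr 9753507 2900000 (pr_scaleT 52669 14500 h1)) (pr_subr 672657 200000 (pr_scaleT 72647 20000 h1))))))⟩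
noncomputable def kf4q2_s : Sl2 kf4q2 := ⟨_, fun h1 h2 => (pr_norm (pr_mul (cv4p_s.snd h1) (bf4q2_s.snd h1 h2)))⟩
noncomputable def bx4q2_28_s : Sl2 bx4q2_28 := ⟨_, fun h1 h2 => (pr_cmul (enc_norm (bx4q2_3.enc h1.l h2)) (pr_norm (pr_subr 179557 90000 (pr_scaleT 104 45 h1))))⟩
noncomputable def bx4q2_s : Sl2 bx4q2 := ⟨_, fun h1 h2 => (pr_norm (pr_case (pr_subr 53 50 h1) (pr_case (pr_subr 128 125 h1) (pr_add (pr_csub (enc_rat _ 37559 150000) (pr_scaleT 41 150 h1)) (pr_cmul (enc_norm (bx4q2_3.enc h1.l h2)) (pr_norm (pr_subr 3993 2000 (pr_scaleT 37 16 h1))))) (pr_case (pr_subr 521 500 h1) (pr_add (pr_csub (enc_rat _ 112421 450000) (pr_scaleT 491 1800 h1)) (bx4q2_28_s.snd h1 h2)) (pr_add (pr_subr 691 28125 (pr_neg (pr_scaleT 17 1800 h1))) (bx4q2_28_s.snd h1 h2)))) (pr_case (pr_subr 231 200 h1) (pr_case (pr_subr 217 200 h1) (pr_add (pr_subr 16383 250000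 (pr_scaleT 73 2500 h1)) (pr_cmul (enc_norm (bx4q2_3.enc h1.l h2)) (pr_norm (pr_subr 99801 50000 (pr_scaleT 289 125 h1))))) (pr_add (pr_subr 9337 100000 (pr_scaleT 48 875 h1)) (pr_cmul (enc_norm (bx4q2_3.enc h1.l h2)) (pr_norm (pr_subr 9977 5000 (pr_scaleT 809 350 h1)))))) (pr_case (pr_subr 13 10 h1) (pr_add (pr_subr 1117 5800 (pr_scaleT 2041 14500 h1)) (pr_cmul (enc_norm (bx4q2_3.enc h1.l h2)) (pr_norm (pr_subr 289267 145000 (pr_scaleT 3351 1450 h1))))) (pr_add (pr_subr 275063 200000 (pr_scaleT 21011 20000 h1)) (pr_cmul (enc_norm (bx4q2_3.enc h1.l h2)) (pr_norm (pr_subr 26099 4000 (pr_scaleT 11591 2000 h1)))))))))⟩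
noncomputable def l4q2_s : Sl2 l4q2 := ⟨_, fun h1 h2 => (pr_norm (pr_mul (cv4p_s.snd h1) (bx4q2_s.snd h1 h2)))⟩
noncomputable def bd4q2_s : Sl2 bd4q2 := ⟨_, fun h1 h2 => (pr_norm (pr_case (pr_subr 231 200 h1) (pr_subr 10288949 310000 (pr_scaleT 18067 775 h1)) (pr_subr 3816857 115000 (pr_scaleT 26809 1150 h1))))⟩
noncomputable def kc4q2_s : Sl2 kc4q2 := ⟨_, fun h1 h2 => (pr_norm (pr_mul (cv4p_s.snd h1) (bd4q2_s.snd h1 h2)))⟩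
noncomputable def xc43_s : Sl1 xc43 := ⟨_, fun h1 => (pr_norm (pr_add (pr_scaleT 3 10 (pr_subr 1 2 (swg_s.snd (pr_nd (ycg_s.snd h1))))) (pr_scaleT 7 10 h1)))⟩
noncomputable def kfc43_41_s : Sl2 kfc43_41 := ⟨_, fun h1 h2 => (pr_scaleT 1282 225 (ycg_s.snd h1))⟩
noncomputable def kfc43_59_s : Sl2 kfc43_59 := ⟨_, fun h1 h2 => (pr_cmul (enc_norm (kfc43_11.enc h1.l h2)) (pr_norm (pr_subr 2350337 90000 (pr_scaleT 1567 90 (ycg_s.snd h1)))))⟩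
noncomputable def kfc43_s : Sl2 kfc43 := ⟨_, fun h1 h2 => (pr_norm (pr_mul (pr_norm (pr_add (pr_scaleT 3 10 (pr_subr 1 2 (swg_s.snd (pr_nd (ycg_s.snd h1))))) (pr_scaleT 7 10 h1))) (pr_norm (pr_case (pr_subr 1967 1000 (ycg_s.snd h1)) (pr_case (pr_subr 97 50 (ycg_s.snd h1)) (pr_case (pr_subr 383 200 (ycg_s.snd h1)) (pr_add (pr_subr 90272149 8300000 (pr_scaleT 236443 41500 (ycg_s.snd h1))) (pr_cmul (enc_norm (kfc43_11.enc h1.l h2)) (pr_norm (pr_subr 54204 2075 (pr_scaleT 36136 2075 (ycg_s.snd h1)))))) (pr_add (pr_subr 5437869 500000 (pr_scaleT 14243 2500 (ycg_s.snd h1))) (pr_cmul (enc_norm (kfc43_11.enc h1.l h2)) (pr_norm (pr_subr 653111 25000 (pr_scaleT 2177 125 (ycg_s.snd h1))))))) (pr_case (pr_subr 979 500 (ycg_s.snd h1)) (pr_add (pr_subr 9789173 900000 (kfc43_41_s.snd h1 h2)) (pr_cmul (enc_norm (kfc43_11.enc h1.l h2)) (pr_norm (pr_subr 195943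 7500 (pr_scaleT 209 12 (ycg_s.snd h1)))))) (pr_add (pr_subr 652481 60000 (pr_scaleT 1709 300 (ycg_s.snd h1))) (kfc43_59_s.snd h1 h2)))) (pr_case (pr_csub (enc_rat _ 172988439 1000000000) h1) (pr_case (pr_subr 247 125 (ycg_s.snd h1)) (pr_add (pr_subr 4894591 450000 (kfc43_41_s.snd h1 h2)) (kfc43_59_s.snd h1 h2)) (pr_add (pr_csub (enc_rat _ 5224504885053 4726676150000) (pr_scaleT 255620000 94533523 h1)) (pr_cmul (enc_norm (kfc43_11.enc h1.l h2)) (pr_norm (pr_subr 1821989005001 945335230000 (pr_scaleT 3610300000 94533523 h1)))))) (pr_case (pr_csub (enc_rat _ 118673639 1000000000) h1) (pr_add (pr_addc (pr_scaleT 63950 135787 h1) (enc_rat _ 1510194980919 2715740000000)) (pr_cmul (enc_norm (kfc43_11.enc h1.l h2)) (pr_norm (pr_subr 1046801068577 543148000000 (pr_scaleT 5185750 135787 h1))))) (pr_case (pr_csub (enc_rat _ 59990999 1000000000) h1) (pr_add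 (pr_addc (pr_scaleT 680250 244511 h1) (enc_rat _ 14506968179 51476000000)) (pr_cmul (enc_norm (kfc43_11.enc h1.l h2)) (pr_norm (pr_subr 42618604297 10295200000 (pr_scaleT 13896250 244511 h1))))) (pr_sub (pr_csub (enc_rat _ 1 2) (pr_scaleT 51280000 59990999 h1)) (pr_cmul (enc_norm (kfc43_11.enc h1.l h2)) (pr_nd (pr_scaleT 730200000 59990999 h1)))))))))))⟩
noncomputable def lc43_s : Sl2 lc43 := ⟨_, fun h1 h2 => (pr_norm (pr_mul (pr_norm (pr_add (pr_scaleT 3 10 (pr_subr 1 2 (swg_s.snd (pr_nd (ycg_s.snd h1))))) (pr_scaleT 7 10 h1))) (pr_norm (pr_case (pr_subr 1967 1000 (ycg_s.snd h1)) (pr_case (pr_subr 97 50 (ycg_s.snd h1)) (pr_case (pr_subr 383 200 (ycg_s.snd h1)) (pr_add (pr_subr 16159967 8300000 (pr_scaleT 29707 20750 (ycg_s.snd h1))) (pr_cmul (enc_norm (lc43_11.enc h1.l h2)) (pr_norm (pr_subr 1083149 166000 (pr_scaleT 12026 2075 (ycg_s.snd h1))))))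 (pr_add (pr_subr 194763 100000 (pr_scaleT 179 125 (ycg_s.snd h1))) (pr_cmul (enc_norm (lc43_11.enc h1.l h2)) (pr_norm (pr_subr 163141 25000 (pr_scaleT 1449 250 (ycg_s.snd h1))))))) (pr_case (pr_subr 979 500 (ycg_s.snd h1)) (pr_add (pr_addc (pr_scaleT 53 1800 (ycg_s.snd h1)) (enc_rat _ 139199 180000)) (pr_cmul (enc_norm (lc43_11.enc h1.l h2)) (pr_norm (pr_csub (enc_rat _ 271507 45000) (pr_scaleT 61 90 (ycg_s.snd h1)))))) (pr_add (pr_csub (enc_rat _ 150077 45000) (pr_scaleT 1151 900 (ycg_s.snd h1))) (pr_cmul (enc_norm (lc43_11.enc h1.l h2)) (pr_norm (pr_csub (enc_rat _ 228269 22500) (pr_scaleT 25 9 (ycg_s.snd h1)))))))) (pr_case (pr_csub (enc_rat _ 172988439 1000000000) h1) (pr_case (pr_subr 247 125 (ycg_s.snd h1)) (pr_add (pr_csub (enc_rat _ 2995639 900000) (pr_scaleT 287 225 (ycg_s.snd h1))) (pr_cmul (enc_norm (lc43_11.enc h1.l h2)) (pr_norm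 (pr_csub (enc_rat _ 303703 30000) (pr_scaleT 83 30 (ycg_s.snd h1)))))) (pr_add (pr_addc (pr_scaleT 18300000 94533523 h1) (enc_rat _ 7148648934417 9453352300000)) (pr_cmul (enc_norm (lc43_11.enc h1.l h2)) (pr_norm (pr_addc (pr_scaleT 863000000 94533523 h1) (enc_rat _ 418647793287 189067046000)))))) (pr_case (pr_csub (enc_rat _ 118673639 1000000000) h1) (pr_add (pr_csub (enc_rat _ 4356131967093 5431480000000) (pr_scaleT 9675 135787 h1)) (pr_cmul (enc_norm (lc43_11.enc h1.l h2)) (pr_norm (pr_csub (enc_rat _ 805901550459 135787000000) (pr_scaleT 1681000 135787 h1))))) (pr_case (pr_csub (enc_rat _ 59990999 1000000000) h1) (pr_add (pr_addc (pr_scaleT 750 12869 h1) (enc_rat _ 40493273643 51476000000)) (pr_cmul (enc_norm (lc43_11.enc h1.l h2)) (pr_norm (pr_addc (pr_scaleT 1026250 244511 h1) (enc_rat _ 40849383279 10295200000))))) (pr_add (pr_addc (pr_scaleT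 4235150 59990999 h1) (enc_rat _ 15718097 20000000)) (pr_cmul (enc_norm (lc43_11.enc h1.l h2)) (pr_norm (pr_csub (enc_rat _ 9332299 2000000) (pr_scaleT 446549500 59990999 h1))))))))))))⟩
noncomputable def kcc43_s : Sl2 kcc43 := ⟨_, fun h1 h2 => (pr_norm (pr_mul (pr_norm (pr_add (pr_scaleT 3 10 (pr_subr 1 2 (swg_s.snd (pr_nd (ycg_s.snd h1))))) (pr_scaleT 7 10 h1))) (pr_norm (pr_case (pr_subr 197 100 (ycg_s.snd h1)) (pr_case (pr_subr 979 500 (ycg_s.snd h1)) (pr_subr 4750292 143125 (pr_scaleT 106769 4580 (ycg_s.snd h1))) (pr_subr 1990957 60000 (pr_scaleT 2797 120 (ycg_s.snd h1)))) (pr_case (pr_subr 247 125 (ycg_s.snd h1)) (pr_subr 995971 30000 (pr_scaleT 1399 60 (ycg_s.snd h1))) (pr_add (pr_addc (pr_scaleT 764762450000 22338083827 h1) (enc_rat _ 12411 3340)) (pr_cmul (enc_norm (enc_subr 309 320 h2)) (pr_norm (pr_subr 57574 167 (pr_scaleT 28787000000000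 22338083827 h1))))))))))⟩
noncomputable def kf5q0_s : Sl2 kf5q0 := ⟨_, fun h1 h2 => (pr_norm (pr_sub (pr_mul h1 (kcg_s.snd (pr_nd (pr_half h1)) h2)) (pr_mul (pr_norm (pr_mul (pr_nd (pr_sq h1)) (pr_norm (pr_addc (c3g_s.snd h1) (enc_rat _ 3 2))))) (pr_nd (pr_inv (pr_mul (pr_norm (pr_csub (enc_pnc _ 1) h1)) (pr_norm (pr_cadd (enc_pnc _ 1) h1))))))))⟩
noncomputable def l5q0_6_s : Sl2 l5q0_6 := ⟨_, fun h1 h2 => (pr_half h1)⟩
noncomputable def l5q0_7_s : Sl2 l5q0_7 := ⟨_, fun h1 h2 => (pr_half (c3g_s.snd h1))⟩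
noncomputable def l5q0_8_s : Sl2 l5q0_8 := ⟨_, fun h1 h2 => (pr_scaleT 1 4 h1)⟩
noncomputable def l5q0_s : Sl2 l5q0 := ⟨_, fun h1 h2 => (pr_norm (pr_add (txg_s.snd (pr_nd (l5q0_6_s.snd h1 h2)) (pr_norm (pr_sub (l5q0_7_s.snd h1 h2) (l5q0_8_s.snd h1 h2))) h2) (txg_s.snd (pr_nd (pr_neg (l5q0_6_s.snd h1 h2))) (pr_norm (pr_add (l5q0_7_s.snd h1 h2) (l5q0_8_s.snd h1 h2))) h2)))⟩
noncomputable def kc5q0_6_s : Sl2 kc5q0_6 := ⟨_, fun h1 h2 => (pr_half h1)⟩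
noncomputable def kc5q0_s : Sl2 kc5q0 := ⟨_, fun h1 h2 => (pr_norm (pr_case (pr_subr 167 1000 (kc5q0_6_s.snd h1 h2)) (pr_add (pr_addc (pr_scaleT 3273 1670 h1) (enc_rat _ 1691 2500)) (pr_cmul (enc_norm (kc5q0_3.enc h1.l h2)) (pr_norm (pr_subr 316711 1000 (pr_neg (pr_scaleT 155409 167 h1)))))) (pr_case (pr_subr 333 1000 (kc5q0_6_s.snd h1 h2)) (pr_add (pr_addc (pr_scaleT 6507 3320 h1) (enc_rat _ 1122791 1660000)) (pr_cmul (enc_norm (kc5q0_3.enc h1.l h2)) (pr_norm (pr_subr 10514799 33200 (pr_neg (pr_scaleT 308957 332 h1)))))) (pr_add (pr_csub (enc_rat _ 19817 3340) (pr_scaleT 19817 3340 h1)) (pr_cmul (enc_norm (kc5q0_3.enc h1.l h2)) (pr_norm (pr_subr 468243 167 (pr_scaleT 468243 167 h1))))))))⟩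
noncomputable def kf5q1_s : Sl2 kf5q1 := ⟨_, fun h1 h2 => (pr_norm (pr_add (pr_mul (pr_norm (pr_mul h1 (pr_norm (pr_addc (c3g_s.snd h1) (enc_rat _ 3 2))))) (pr_nd (pr_inv (pr_cadd (enc_pnc _ 1) h1)))) (pr_mul (pr_norm (pr_subn 1 h1)) (kcg_s.snd (pr_nd (pr_half h1)) h2))))⟩
noncomputable def l5q1_7_s : Sl2 l5q1_7 := ⟨_, fun h1 h2 => (pr_half h1)⟩
noncomputable def l5q1_8_s : Sl2 l5q1_8 := ⟨_, fun h1 h2 => (pr_half (c3g_s.snd h1))⟩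
noncomputable def l5q1_9_s : Sl2 l5q1_9 := ⟨_, fun h1 h2 => (pr_scaleT 1 4 h1)⟩
noncomputable def l5q1_s : Sl2 l5q1 := ⟨_, fun h1 h2 => (pr_norm (pr_add (txg_s.snd (pr_nd (l5q1_7_s.snd h1 h2)) (pr_norm (pr_sub (l5q1_8_s.snd h1 h2) (l5q1_9_s.snd h1 h2))) h2) (txg_s.snd (pr_nd (pr_neg (l5q1_7_s.snd h1 h2))) (pr_norm (pr_add (l5q1_8_s.snd h1 h2) (l5q1_9_s.snd h1 h2))) h2)))⟩
noncomputable def kc5q1_7_s : Sl2 kc5q1_7 := ⟨_, fun h1 h2 => (pr_half h1)⟩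
noncomputable def kc5q1_s : Sl2 kc5q1 := ⟨_, fun h1 h2 => (pr_norm (pr_case (pr_subr 167 1000 (kc5q1_7_s.snd h1 h2)) (pr_add (pr_addc (pr_scaleT 3273 1670 h1) (enc_rat _ 1691 2500)) (pr_cmul (enc_norm (kc5q1_3.enc h1.l h2)) (pr_norm (pr_subr 316711 1000 (pr_neg (pr_scaleT 155409 167 h1)))))) (pr_case (pr_subr 333 1000 (kc5q1_7_s.snd h1 h2)) (pr_add (pr_addc (pr_scaleT 6507 3320 h1) (enc_rat _ 1122791 1660000)) (pr_cmul (enc_norm (kc5q1_3.enc h1.l h2)) (pr_norm (pr_subr 10514799 33200 (pr_neg (pr_scaleT 308957 332 h1)))))) (pr_add (pr_csub (enc_rat _ 19817 3340) (pr_scaleT 19817 3340 h1)) (pr_cmul (enc_norm (kc5q1_3.enc h1.l h2)) (pr_norm (pr_subr 468243 167 (pr_scaleT 468243 167 h1))))))))⟩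
noncomputable def kf5q2_s : Sl2 kf5q2 := ⟨_, fun h1 h2 => (pr_norm (pr_add (pr_mul (pr_norm (pr_mul (pr_norm (pr_sub (pr_nat 2 (c3g_s.snd h1)) h1)) (pr_norm (pr_sub (pr_addc (c3g_s.snd h1) (enc_pnc _ 3)) (pr_scaleT 3 2 h1))))) (pr_nd (pr_inv (pr_nat 4 (pr_csub (enc_pnc _ 2) h1))))) (pr_mul (pr_norm (pr_subn 1 h1)) (kcg_s.snd (pr_norm (pr_sub (pr_scaleT 1 4 h1) (pr_half (c3g_s.snd h1)))) h2))))⟩
noncomputable def l5q2_7_s : Sl2 l5q2_7 := ⟨_, fun h1 h2 => (pr_half (c3g_s.snd h1))⟩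
noncomputable def l5q2_8_s : Sl2 l5q2_8 := ⟨_, fun h1 h2 => (pr_scaleT 1 4 h1)⟩
noncomputable def l5q2_9_s : Sl2 l5q2_9 := ⟨_, fun h1 h2 => (pr_sub (l5q2_7_s.snd h1 h2) (l5q2_8_s.snd h1 h2))⟩
noncomputable def l5q2_12_s : Sl2 l5q2_12 := ⟨_, fun h1 h2 => (pr_add (pr_scaleT 1 4 (c3g_s.snd h1)) (pr_scaleT 3 8 h1))⟩
noncomputable def l5q2_14_s : Sl2 l5q2_14 := ⟨_, fun h1 h2 => (pr_half (l5q2_9_s.snd h1 h2))⟩
noncomputable def l5q2_s : Sl2 l5q2 := ⟨_, fun h1 h2 => (pr_norm (pr_sub (pr_nat 2 (txg_s.snd (pr_norm (pr_sub (l5q2_8_s.snd h1 h2) (l5q2_7_s.snd h1 h2))) (pr_norm (pr_add (l5q2_12_s.snd h1 h2) (l5q2_14_s.snd h1 h2))) h2)) (txg_s.snd (pr_norm (l5q2_9_s.snd h1 h2)) (pr_norm (pr_sub (l5q2_12_s.snd h1 h2) (l5q2_14_s.snd h1 h2))) h2)))⟩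
noncomputable def kc5q2_9_s : Sl2 kc5q2_9 := ⟨_, fun h1 h2 => (pr_sub (pr_half (c3g_s.snd h1)) (pr_scaleT 1 4 h1))⟩
noncomputable def kc5q2_28_s : Sl2 kc5q2_28 := ⟨_, fun h1 h2 => (pr_neg (pr_scaleT 1919 332 (kc5q2_9_s.snd h1 h2)))⟩
noncomputable def kc5q2_33_s : Sl2 kc5q2_33 := ⟨_, fun h1 h2 => (pr_neg (pr_nat 1036 (kc5q2_9_s.snd h1 h2)))⟩
noncomputable def kc5q2_s : Sl2 kc5q2 := ⟨_, fun h1 h2 => (pr_norm (pr_case (kc5q2_9_s.snd h1 h2) (pr_case (pr_addc (kc5q2_9_s.snd h1 h2) (enc_rat _ 333 1000)) (pr_add (pr_addc (pr_scaleT 12411 1670 (kc5q2_9_s.snd h1 h2)) (enc_rat _ 12411 3340)) (pr_cmul (enc_norm (kc5q2_3.enc h1.l h2)) (pr_norm (pr_subr 57574 167 (pr_neg (pr_scaleT 115148 167 (kc5q2_9_s.snd h1 h2))))))) (pr_case (pr_addc (kc5q2_9_s.snd h1 h2) (enc_rat _ 167 1000)) (pr_add (pr_subr 1134909 1660000 (kc5q2_28_s.snd h1 h2)) (pr_cmul (enc_norm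 (kc5q2_3.enc h1.l h2)) (pr_norm (pr_subr 57517 125 (kc5q2_33_s.snd h1 h2))))) (pr_add (pr_subr 1709 2500 (pr_neg (pr_scaleT 4826 835 (kc5q2_9_s.snd h1 h2)))) (pr_cmul (enc_norm (kc5q2_3.enc h1.l h2)) (pr_norm (pr_subr 92027 200 (pr_neg (pr_scaleT 173011 167 (kc5q2_9_s.snd h1 h2))))))))) (pr_case (pr_subr 167 1000 (kc5q2_9_s.snd h1 h2)) (pr_add (pr_subr 1709 2500 (pr_neg (pr_scaleT 9653 1670 (kc5q2_9_s.snd h1 h2)))) (pr_cmul (enc_norm (kc5q2_3.enc h1.l h2)) (pr_norm (pr_subr 92027 200 (kc5q2_33_s.snd h1 h2))))) (pr_case (pr_subr 333 1000 (kc5q2_9_s.snd h1 h2)) (pr_add (pr_subr 1134809 1660000 (kc5q2_28_s.snd h1 h2)) (pr_cmul (enc_norm (kc5q2_3.enc h1.l h2)) (pr_norm (pr_subr 76382577 166000 (pr_neg (pr_scaleT 171975 166 (kc5q2_9_s.snd h1 h2))))))) (pr_add (pr_subr 6521 835 (pr_scaleT 13042 835 (kc5q2_9_s.snd h1 h2))) (pr_cmul (enc_norm (kc5q2_3.enc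 h1.l h2)) (pr_norm (pr_subr 402561 167 (pr_scaleT 805122 167 (kc5q2_9_s.snd h1 h2))))))))))⟩
noncomputable def kfc53_s : Sl2 kfc53 := ⟨_, fun h1 h2 => (pr_norm (pr_sub (pr_mul (pr_norm (pr_subn 2 (ycg_s.snd h1))) (kcg_s.snd (pr_norm (pr_sub (pr_scaleT 1 4 (ycg_s.snd h1)) (pr_half h1))) h2)) (pr_mul (pr_norm (pr_mul (pr_norm (pr_sub (pr_nat 2 h1) (ycg_s.snd h1))) (pr_norm (pr_sub (pr_addc h1 (enc_pnc _ 3)) (pr_scaleT 3 2 (ycg_s.snd h1)))))) (pr_nd (pr_inv (pr_nat 4 (pr_subn 1 (ycg_s.snd h1))))))))⟩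
noncomputable def lc53_7_s : Sl2 lc53_7 := ⟨_, fun h1 h2 => (pr_half h1)⟩
noncomputable def lc53_8_s : Sl2 lc53_8 := ⟨_, fun h1 h2 => (pr_scaleT 1 4 (ycg_s.snd h1))⟩
noncomputable def lc53_9_s : Sl2 lc53_9 := ⟨_, fun h1 h2 => (pr_sub (lc53_7_s.snd h1 h2) (lc53_8_s.snd h1 h2))⟩
noncomputable def lc53_12_s : Sl2 lc53_12 := ⟨_, fun h1 h2 => (pr_add (pr_scaleT 1 4 h1) (pr_scaleT 3 8 (ycg_s.snd h1)))⟩
noncomputable def lc53_14_s : Sl2 lc53_14 := ⟨_, fun h1 h2 => (pr_half (lc53_9_s.snd h1 h2))⟩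
noncomputable def lc53_s : Sl2 lc53 := ⟨_, fun h1 h2 => (pr_norm (pr_sub (pr_nat 2 (txg_s.snd (pr_norm (pr_sub (lc53_8_s.snd h1 h2) (lc53_7_s.snd h1 h2))) (pr_norm (pr_add (lc53_12_s.snd h1 h2) (lc53_14_s.snd h1 h2))) h2)) (txg_s.snd (pr_norm (lc53_9_s.snd h1 h2)) (pr_norm (pr_sub (lc53_12_s.snd h1 h2) (lc53_14_s.snd h1 h2))) h2)))⟩
noncomputable def kcc53_9_s : Sl2 kcc53_9 := ⟨_, fun h1 h2 => (pr_sub (pr_half h1) (pr_scaleT 1 4 (ycg_s.snd h1)))⟩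
noncomputable def kcc53_28_s : Sl2 kcc53_28 := ⟨_, fun h1 h2 => (pr_neg (pr_scaleT 1919 332 (kcc53_9_s.snd h1 h2)))⟩
noncomputable def kcc53_33_s : Sl2 kcc53_33 := ⟨_, fun h1 h2 => (pr_neg (pr_nat 1036 (kcc53_9_s.snd h1 h2)))⟩
noncomputable def kcc53_s : Sl2 kcc53 := ⟨_, fun h1 h2 => (pr_norm (pr_case (kcc53_9_s.snd h1 h2) (pr_case (pr_addc (kcc53_9_s.snd h1 h2) (enc_rat _ 333 1000)) (pr_add (pr_addc (pr_scaleT 12411 1670 (kcc53_9_s.snd h1 h2)) (enc_rat _ 12411 3340)) (pr_cmul (enc_norm (kcc53_4.enc h1.l h2)) (pr_norm (pr_subr 57574 167 (pr_neg (pr_scaleT 115148 167 (kcc53_9_s.snd h1 h2))))))) (pr_case (pr_addc (kcc53_9_s.snd h1 h2) (enc_rat _ 167 1000)) (pr_add (pr_subr 1134909 1660000 (kcc53_28_s.snd h1 h2)) (pr_cmul (enc_norm (kcc53_4.enc h1.l h2)) (pr_norm (pr_subr 57517 125 (kcc53_33_s.snd h1 h2))))) (pr_add (pr_subr 1709 2500 (pr_neg (pr_scaleT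 4826 835 (kcc53_9_s.snd h1 h2)))) (pr_cmul (enc_norm (kcc53_4.enc h1.l h2)) (pr_norm (pr_subr 92027 200 (pr_neg (pr_scaleT 173011 167 (kcc53_9_s.snd h1 h2))))))))) (pr_case (pr_subr 167 1000 (kcc53_9_s.snd h1 h2)) (pr_add (pr_subr 1709 2500 (pr_neg (pr_scaleT 9653 1670 (kcc53_9_s.snd h1 h2)))) (pr_cmul (enc_norm (kcc53_4.enc h1.l h2)) (pr_norm (pr_subr 92027 200 (kcc53_33_s.snd h1 h2))))) (pr_case (pr_subr 333 1000 (kcc53_9_s.snd h1 h2)) (pr_add (pr_subr 1134809 1660000 (kcc53_28_s.snd h1 h2)) (pr_cmul (enc_norm (kcc53_4.enc h1.l h2)) (pr_norm (pr_subr 76382577 166000 (pr_neg (pr_scaleT 171975 166 (kcc53_9_s.snd h1 h2))))))) (pr_add (pr_subr 6521 835 (pr_scaleT 13042 835 (kcc53_9_s.snd h1 h2))) (pr_cmul (enc_norm (kcc53_4.enc h1.l h2)) (pr_norm (pr_subr 402561 167 (pr_scaleT 805122 167 (kcc53_9_s.snd h1 h2))))))))))⟩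
noncomputable def gB0q0 : Gn := ⟨ndB0q0, c1g_s, kf0q0_s, l0q0_s, false⟩
noncomputable def dB0q0 : CnW := ⟨cd0q0, kc0q0_s⟩
noncomputable def gB0q1 : Gn := ⟨ndB0q1, c1g_s, kf0q1_s, l0q1_s, false⟩
noncomputable def dB0q1 : CnW := ⟨cd0q1, kc0q1_s⟩
noncomputable def gB0q2 : Gn := ⟨ndB0q2, idf_s, kfc02_s, lc02_s, true⟩
noncomputable def dB0q2 : CnW := ⟨cd0q2, kcc02_s⟩
noncomputable def gB1q0 : Gn := ⟨ndB1q0, cv1m_s, kf1q0_s, l1q0_s, false⟩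
noncomputable def dB1q0 : CnW := ⟨cd1q0, kc1q0_s⟩
noncomputable def gB1q1 : Gn := ⟨ndB1q1, cv1m_s, kf1q1_s, l1q1_s, false⟩
noncomputable def dB1q1 : CnW := ⟨cd1q1, kc1q1_s⟩
noncomputable def gB1q2 : Gn := ⟨ndB1q2, cv1p_s, kf1q2_s, l1q2_s, false⟩
noncomputable def dB1q2 : CnW := ⟨cd1q2, kc1q2_s⟩
noncomputable def gB1q3 : Gn := ⟨ndB1q3, cv1r_s, kf1q3_s, l1q3_s, false⟩
noncomputable def dB1q3 : CnW := ⟨cd1q3, kc1q3_s⟩
noncomputable def gB2q0 : Gn := ⟨ndB2q0, cv2m_s, kf2q0_s, l2q0_s, false⟩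
noncomputable def dB2q0 : CnW := ⟨cd2q0, kc2q0_s⟩
noncomputable def gB2q1 : Gn := ⟨ndB2q1, cv2m_s, kf2q1_s, l2q1_s, false⟩
noncomputable def dB2q1 : CnW := ⟨cd2q1, kc2q1_s⟩
noncomputable def gB2q2 : Gn := ⟨ndB2q2, cv2p_s, kf2q2_s, l2q2_s, false⟩
noncomputable def dB2q2 : CnW := ⟨cd2q2, kc2q2_s⟩
noncomputable def gB2q3 : Gn := ⟨ndB2q3, cv2r_s, kf2q3_s, l2q3_s, false⟩
noncomputable def dB2q3 : CnW := ⟨cd2q3, kc2q3_s⟩
noncomputable def gB3q0 : Gn := ⟨ndB3q0, cv3m_s, kf3q0_s, l3q0_s, false⟩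
noncomputable def dB3q0 : CnW := ⟨cd3q0, kc3q0_s⟩
noncomputable def gB3q1 : Gn := ⟨ndB3q1, cv3m_s, kf3q1_s, l3q1_s, false⟩
noncomputable def dB3q1 : CnW := ⟨cd3q1, kc3q1_s⟩
noncomputable def gB3q2 : Gn := ⟨ndB3q2, cv3p_s, kf3q2_s, l3q2_s, false⟩
noncomputable def dB3q2 : CnW := ⟨cd3q2, kc3q2_s⟩
noncomputable def gB3q3 : Gn := ⟨ndB3q3, xc33_s, kfc33_s, lc33_s, false⟩
noncomputable def dB3q3 : CnW := ⟨cd3q3, kcc33_s⟩
noncomputable def gB4q0 : Gn := ⟨ndB4q0, cv4m_s, kf4q0_s, l4q0_s, false⟩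
noncomputable def dB4q0 : CnW := ⟨cd4q0, kc4q0_s⟩
noncomputable def gB4q1 : Gn := ⟨ndB4q1, cv4m_s, kf4q1_s, l4q1_s, false⟩
noncomputable def dB4q1 : CnW := ⟨cd4q1, kc4q1_s⟩
noncomputable def gB4q2 : Gn := ⟨ndB4q2, cv4p_s, kf4q2_s, l4q2_s, false⟩
noncomputable def dB4q2 : CnW := ⟨cd4q2, kc4q2_s⟩
noncomputable def gB4q3 : Gn := ⟨ndB4q3, xc43_s, kfc43_s, lc43_s, false⟩
noncomputable def dB4q3 : CnW := ⟨cd4q3, kcc43_s⟩
noncomputable def gB5q0 : Gn := ⟨ndB5q0, c3g_s, kf5q0_s, l5q0_s, false⟩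
noncomputable def dB5q0 : CnW := ⟨cd5q0, kc5q0_s⟩
noncomputable def gB5q1 : Gn := ⟨ndB5q1, c3g_s, kf5q1_s, l5q1_s, false⟩
noncomputable def dB5q1 : CnW := ⟨cd5q1, kc5q1_s⟩
noncomputable def gB5q2 : Gn := ⟨ndB5q2, c3g_s, kf5q2_s, l5q2_s, false⟩
noncomputable def dB5q2 : CnW := ⟨cd5q2, kc5q2_s⟩
noncomputable def gB5q3 : Gn := ⟨ndB5q3, idf_s, kfc53_s, lc53_s, false⟩
noncomputable def dB5q3 : CnW := ⟨cd5q3, kcc53_s⟩
noncomputable def gB0q3 : Gn := gz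
noncomputable def dB0q3 : CnW := ⟨fz2, fz2_s⟩
noncomputable def gB (j : Fin 6) (q : ℕ) : Gn :=
  match j, q with
  | 0, 0 => gB0q0
  | 0, 1 => gB0q1
  | 0, 2 => gB0q2
  | 0, 3 => gB0q3
  | 1, 0 => gB1q0
  | 1, 1 => gB1q1
  | 1, 2 => gB1q2
  | 1, 3 => gB1q3
  | 2, 0 => gB2q0
  | 2, 1 => gB2q1
  | 2, 2 => gB2q2
  | 2, 3 => gB2q3
  | 3, 0 => gB3q0
  | 3, 1 => gB3q1
  | 3, 2 => gB3q2
  | 3, 3 => gB3q3
  | 4, 0 => gB4q0
  | 4, 1 => gB4q1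
  | 4, 2 => gB4q2
  | 4, 3 => gB4q3
  | 5, 0 => gB5q0
  | 5, 1 => gB5q1
  | 5, 2 => gB5q2
  | 5, 3 => gB5q3
  | _, _ => gB0q0

noncomputable def dB (j : Fin 6) (q : ℕ) : CnW :=
  match j, q with
  | 0, 0 => dB0q0
  | 0, 1 => dB0q1
  | 0, 2 => dB0q2
  | 0, 3 => dB0q3
  | 1, 0 => dB1q0
  | 1, 1 => dB1q1
  | 1, 2 => dB1q2
  | 1, 3 => dB1q3
  | 2, 0 => dB2q0
  | 2, 1 => dB2q1
  | 2, 2 => dB2q2
  | 2, 3 => dB2q3
  | 3, 0 => dB3q0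
  | 3, 1 => dB3q1
  | 3, 2 => dB3q2
  | 3, 3 => dB3q3
  | 4, 0 => dB4q0
  | 4, 1 => dB4q1
  | 4, 2 => dB4q2
  | 4, 3 => dB4q3
  | 5, 0 => dB5q0
  | 5, 1 => dB5q1
  | 5, 2 => dB5q2
  | 5, 3 => dB5q3
  | _, _ => dB0q0

noncomputable def c0B : Fn1 := ⟨fun _ => pone, fun _ => 1, fun _ => enc_one _⟩

end Pool.Agent.Strip051.G.I9625_9688.Tab
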