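import Pool.Agent.Strip051.G.I9625_9688.StH
import Pool.Agent.Strip051.G.I9625_9688.Sp0_0
import Pool.Agent.Strip051.G.I9625_9688.Sp0_1
import Pool.Agent.Strip051.G.I9625_9688.Sp0_2
import Pool.Agent.Strip051.G.I9625_9688.Sp0_3
import Pool.Agent.Strip051.G.I9625_9688.StF

/-! # Unit strips 0 (generated) -/

set_option linter.all false
set_option maxRecDepth 100000

namespace Pool.Agent.Strip051.G.I9625_9688.Tab.St.C

open Pool.Agent.Strip051.PB Pool.Agent.Strip051.PB.T Pool.Agent.StripNear Pool.Agent.Strip051.LC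
open Pool.Agent.Strip051.G.I9625_9688.Tab Pool.Agent.Strip051.G.I9625_9688.Tab.St

theorem t378_A00pm_012_s1 : ∃ t, chk3 f_A00pm_012_s1 t 22 61 1 = true := ex3_b k373_A00pm_012_s1 k374_A00pm_012_s1

theorem t379_A00pm_012_s1 : ∃ t, chk3 f_A00pm_012_s1 t 11 61 1 = true := ex3_a t378_A00pm_012_s1 k375_A00pm_012_s1

theorem t380_A00pm_012_s1 : ∃ t, chk3 f_A00pm_012_s1 t 22 121 1 = true := ex3_a k370_A00pm_012_s1 k371_A00pm_012_s1

theorem t381_A00pm_012_s1 : ∃ t, chk3 f_A00pm_012_s1 t 22 60 1 = true := ex3_b k369_A00pm_012_s1 t380_A00pm_012_s1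

theorem t382_A00pm_012_s1 : ∃ t, chk3 f_A00pm_012_s1 t 11 60 1 = true := ex3_a t381_A00pm_012_s1 k372_A00pm_012_s1

theorem t383_A00pm_012_s1 : ∃ t, chk3 f_A00pm_012_s1 t 11 30 1 = true := ex3_b t382_A00pm_012_s1 t379_A00pm_012_s1

theorem t384_A00pm_012_s1 : ∃ t, chk3 f_A00pm_012_s1 t 11 15 1 = true := ex3_b t383_A00pm_012_s1 k376_A00pm_012_s1

theorem t385_A00pm_012_s1 : ∃ t, chk3 f_A00pm_012_s1 t 21 30 1 = true := ex3_b k366_A00pm_012_s1 k367_A00pm_012_s1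

theorem t386_A00pm_012_s1 : ∃ t, chk3 f_A00pm_012_s1 t 41 60 1 = true := ex3_b k363_A00pm_012_s1 k364_A00pm_012_s1

theorem t387_A00pm_012_s1 : ∃ t, chk3 f_A00pm_012_s1 t 41 30 1 = true := ex3_b t386_A00pm_012_s1 k365_A00pm_012_s1

theorem t388_A00pm_012_s1 : ∃ t, chk3 f_A00pm_012_s1 t 40 30 1 = true := ex3_b k361_A00pm_012_s1 k362_A00pm_012_s1

theorem t389_A00pm_012_s1 : ∃ t, chk3 f_A00pm_012_s1 t 20 30 1 = true := ex3_a t388_A00pm_012_s1 t387_A00pm_012_s1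

theorem t390_A00pm_012_s1 : ∃ t, chk3 f_A00pm_012_s1 t 10 30 1 = true := ex3_a t389_A00pm_012_s1 t385_A00pm_012_s1

theorem t391_A00pm_012_s1 : ∃ t, chk3 f_A00pm_012_s1 t 10 15 1 = true := ex3_b t390_A00pm_012_s1 k368_A00pm_012_s1

theorem t392_A00pm_012_s1 : ∃ t, chk3 f_A00pm_012_s1 t 5 15 1 = true := ex3_a t391_A00pm_012_s1 t384_A00pm_012_s1

theorem t393_A00pm_012_s1 : ∃ t, chk3 f_A00pm_012_s1 t 80 59 1 = true := ex3_a k355_A00pm_012_s1 k356_A00pm_012_s1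

theorem t394_A00pm_012_s1 : ∃ t, chk3 f_A00pm_012_s1 t 40 59 1 = true := ex3_a t393_A00pm_012_s1 k357_A00pm_012_s1

theorem t395_A00pm_012_s1 : ∃ t, chk3 f_A00pm_012_s1 t 40 58 1 = true := ex3_b k353_A00pm_012_s1 k354_A00pm_012_s1

theorem t396_A00pm_012_s1 : ∃ t, chk3 f_A00pm_012_s1 t 40 29 1 = true := ex3_b t395_A00pm_012_s1 t394_A00pm_012_s1

theorem t397_A00pm_012_s1 : ∃ t, chk3 f_A00pm_012_s1 t 20 29 1 = true := ex3_a t396_A00pm_012_s1 k358_A00pm_012_s1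

theorem t398_A00pm_012_s1 : ∃ t, chk3 f_A00pm_012_s1 t 10 29 1 = true := ex3_a t397_A00pm_012_s1 k359_A00pm_012_s1

theorem t399_A00pm_012_s1 : ∃ t, chk3 f_A00pm_012_s1 t 10 14 1 = true := ex3_b k352_A00pm_012_s1 t398_A00pm_012_s1

theorem t400_A00pm_012_s1 : ∃ t, chk3 f_A00pm_012_s1 t 5 14 1 = true := ex3_a t399_A00pm_012_s1 k360_A00pm_012_s1

theorem t401_A00pm_012_s1 : ∃ t, chk3 f_A00pm_012_s1 t 5 7 1 = true := ex3_b t400_A00pm_012_s1 t392_A00pm_012_s1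

theorem t402_A00pm_012_s1 : ∃ t, chk3 f_A00pm_012_s1 t 167 24 1 = true := ex3_b k346_A00pm_012_s1 k347_A00pm_012_s1

theorem t403_A00pm_012_s1 : ∃ t, chk3 f_A00pm_012_s1 t 167 12 1 = true := ex3_b t402_A00pm_012_s1 k348_A00pm_012_s1

theorem t404_A00pm_012_s1 : ∃ t, chk3 f_A00pm_012_s1 t 83 12 1 = true := ex3_a k345_A00pm_012_s1 t403_A00pm_012_s1

theorem t405_A00pm_012_s1 : ∃ t, chk3 f_A00pm_012_s1 t 41 12 1 = true := ex3_a k344_A00pm_012_s1 t404_A00pm_012_s1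

theorem t406_A00pm_012_s1 : ∃ t, chk3 f_A00pm_012_s1 t 41 6 1 = true := ex3_b t405_A00pm_012_s1 k349_A00pm_012_s1

theorem t407_A00pm_012_s1 : ∃ t, chk3 f_A00pm_012_s1 t 40 12 1 = true := ex3_a k341_A00pm_012_s1 k342_A00pm_012_s1

theorem t408_A00pm_012_s1 : ∃ t, chk3 f_A00pm_012_s1 t 40 6 1 = true := ex3_b t407_A00pm_012_s1 k343_A00pm_012_s1

theorem t409_A00pm_012_s1 : ∃ t, chk3 f_A00pm_012_s1 t 20 6 1 = true := ex3_a t408_A00pm_012_s1 t406_A00pm_012_s1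

theorem t410_A00pm_012_s1 : ∃ t, chk3 f_A00pm_012_s1 t 10 6 1 = true := ex3_a t409_A00pm_012_s1 k350_A00pm_012_s1

theorem t411_A00pm_012_s1 : ∃ t, chk3 f_A00pm_012_s1 t 5 6 1 = true := ex3_a t410_A00pm_012_s1 k351_A00pm_012_s1

theorem t412_A00pm_012_s1 : ∃ t, chk3 f_A00pm_012_s1 t 5 3 1 = true := ex3_b t411_A00pm_012_s1 t401_A00pm_012_s1

theorem t413_A00pm_012_s1 : ∃ t, chk3 f_A00pm_012_s1 t 39 60 1 = true := ex3_b k337_A00pm_012_s1 k338_A00pm_012_s1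

theorem t414_A00pm_012_s1 : ∃ t, chk3 f_A00pm_012_s1 t 77 242 1 = true := ex3_c k334_A00pm_012_s1 k335_A00pm_012_s1

theorem t415_A00pm_012_s1 : ∃ t, chk3 f_A00pm_012_s1 t 77 121 1 = true := ex3_b t414_A00pm_012_s1 k336_A00pm_012_s1

theorem t416_A00pm_012_s1 : ∃ t, chk3 f_A00pm_012_s1 t 153 242 3 = true := ex3_b k331_A00pm_012_s1 k332_A00pm_012_s1

theorem t417_A00pm_012_s1 : ∃ t, chk3 f_A00pm_012_s1 t 153 242 1 = true := ex3_c k330_A00pm_012_s1 t416_A00pm_012_s1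

theorem t418_A00pm_012_s1 : ∃ t, chk3 f_A00pm_012_s1 t 76 242 1 = true := ex3_a k329_A00pm_012_s1 t417_A00pm_012_s1

theorem t419_A00pm_012_s1 : ∃ t, chk3 f_A00pm_012_s1 t 76 121 1 = true := ex3_b t418_A00pm_012_s1 k333_A00pm_012_s1

theorem t420_A00pm_012_s1 : ∃ t, chk3 f_A00pm_012_s1 t 38 121 1 = true := ex3_a t419_A00pm_012_s1 t415_A00pm_012_s1

theorem t421_A00pm_012_s1 : ∃ t, chk3 f_A00pm_012_s1 t 154 241 3 = true := ex3_b k326_A00pm_012_s1 k327_A00pm_012_s1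

theorem t422_A00pm_012_s1 : ∃ t, chk3 f_A00pm_012_s1 t 154 241 1 = true := ex3_c k325_A00pm_012_s1 t421_A00pm_012_s1

theorem t423_A00pm_012_s1 : ∃ t, chk3 f_A00pm_012_s1 t 77 241 1 = true := ex3_a t422_A00pm_012_s1 k328_A00pm_012_s1

theorem t424_A00pm_012_s1 : ∃ t, chk3 f_A00pm_012_s1 t 77 120 1 = true := ex3_b k324_A00pm_012_s1 t423_A00pm_012_s1

theorem t425_A00pm_012_s1 : ∃ t, chk3 f_A00pm_012_s1 t 38 120 1 = true := ex3_a k323_A00pm_012_s1 t424_A00pm_012_s1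

theorem t426_A00pm_012_s1 : ∃ t, chk3 f_A00pm_012_s1 t 38 60 1 = true := ex3_b t425_A00pm_012_s1 t420_A00pm_012_s1

theorem t427_A00pm_012_s1 : ∃ t, chk3 f_A00pm_012_s1 t 19 60 1 = true := ex3_a t426_A00pm_012_s1 t413_A00pm_012_s1

theorem t428_A00pm_012_s1 : ∃ t, chk3 f_A00pm_012_s1 t 19 30 1 = true := ex3_b t427_A00pm_012_s1 k339_A00pm_012_s1

theorem t429_A00pm_012_s1 : ∃ t, chk3 f_A00pm_012_s1 t 19 15 1 = true := ex3_b t428_A00pm_012_s1 k340_A00pm_012_s1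

theorem t430_A00pm_012_s1 : ∃ t, chk3 f_A00pm_012_s1 t 37 60 1 = true := ex3_b k319_A00pm_012_s1 k320_A00pm_012_s1

theorem t431_A00pm_012_s1 : ∃ t, chk3 f_A00pm_012_s1 t 37 30 1 = true := ex3_b t430_A00pm_012_s1 k321_A00pm_012_s1

theorem t432_A00pm_012_s1 : ∃ t, chk3 f_A00pm_012_s1 t 36 60 1 = true := ex3_a k316_A00pm_012_s1 k317_A00pm_012_s1

theorem t433_A00pm_012_s1 : ∃ t, chk3 f_A00pm_012_s1 t 36 30 1 = true := ex3_b t432_A00pm_012_s1 k318_A00pm_012_s1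

theorem t434_A00pm_012_s1 : ∃ t, chk3 f_A00pm_012_s1 t 18 30 1 = true := ex3_a t433_A00pm_012_s1 t431_A00pm_012_s1

theorem t435_A00pm_012_s1 : ∃ t, chk3 f_A00pm_012_s1 t 18 15 1 = true := ex3_b t434_A00pm_012_s1 k322_A00pm_012_s1

theorem t436_A00pm_012_s1 : ∃ t, chk3 f_A00pm_012_s1 t 9 15 1 = true := ex3_a t435_A00pm_012_s1 t429_A00pm_012_s1

theorem t437_A00pm_012_s1 : ∃ t, chk3 f_A00pm_012_s1 t 79 59 1 = true := ex3_b k314_A00pm_012_s1 k315_A00pm_012_s1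

theorem t438_A00pm_012_s1 : ∃ t, chk3 f_A00pm_012_s1 t 39 59 1 = true := ex3_a k313_A00pm_012_s1 t437_A00pm_012_s1

theorem t439_A00pm_012_s1 : ∃ t, chk3 f_A00pm_012_s1 t 39 29 1 = true := ex3_b k312_A00pm_012_s1 t438_A00pm_012_s1

theorem t440_A00pm_012_s1 : ∃ t, chk3 f_A00pm_012_s1 t 19 29 1 = true := ex3_a k311_A00pm_012_s1 t439_A00pm_012_s1

theorem t441_A00pm_012_s1 : ∃ t, chk3 f_A00pm_012_s1 t 77 28 1 = true := ex3_b k308_A00pm_012_s1 k309_A00pm_012_s1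

theorem t442_A00pm_012_s1 : ∃ t, chk3 f_A00pm_012_s1 t 304 458 1 = true := ex3_a k302_A00pm_012_s1 k303_A00pm_012_s1

theorem t443_A00pm_012_s1 : ∃ t, chk3 f_A00pm_012_s1 t 304 229 1 = true := ex3_b t442_A00pm_012_s1 k304_A00pm_012_s1

theorem t444_A00pm_012_s1 : ∃ t, chk3 f_A00pm_012_s1 t 152 229 1 = true := ex3_a t443_A00pm_012_s1 k305_A00pm_012_s1

theorem t445_A00pm_012_s1 : ∃ t, chk3 f_A00pm_012_s1 t 305 228 1 = true := ex3_b k300_A00pm_012_s1 k301_A00pm_012_s1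

theorem t446_A00pm_012_s1 : ∃ t, chk3 f_A00pm_012_s1 t 152 228 1 = true := ex3_a k299_A00pm_012_s1 t445_A00pm_012_s1

theorem t447_A00pm_012_s1 : ∃ t, chk3 f_A00pm_012_s1 t 152 114 1 = true := ex3_b t446_A00pm_012_s1 t444_A00pm_012_s1

theorem t448_A00pm_012_s1 : ∃ t, chk3 f_A00pm_012_s1 t 76 114 1 = true := ex3_a t447_A00pm_012_s1 k306_A00pm_012_s1

theorem t449_A00pm_012_s1 : ∃ t, chk3 f_A00pm_012_s1 t 76 57 1 = true := ex3_b t448_A00pm_012_s1 k307_A00pm_012_s1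

theorem t450_A00pm_012_s1 : ∃ t, chk3 f_A00pm_012_s1 t 306 227 1 = true := ex3_b k296_A00pm_012_s1 k297_A00pm_012_s1

theorem t451_A00pm_012_s1 : ∃ t, chk3 f_A00pm_012_s1 t 153 227 1 = true := ex3_a t450_A00pm_012_s1 k298_A00pm_012_s1

theorem t452_A00pm_012_s1 : ∃ t, chk3 f_A00pm_012_s1 t 153 113 1 = true := ex3_b k295_A00pm_012_s1 t451_A00pm_012_s1

theorem t453_A00pm_012_s1 : ∃ t, chk3 f_A00pm_012_s1 t 153 56 1 = true := ex3_b k294_A00pm_012_s1 t452_A00pm_012_s1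

theorem t454_A00pm_012_s1 : ∃ t, chk3 f_A00pm_012_s1 t 76 56 1 = true := ex3_a k293_A00pm_012_s1 t453_A00pm_012_s1

theorem t455_A00pm_012_s1 : ∃ t, chk3 f_A00pm_012_s1 t 76 28 1 = true := ex3_b t454_A00pm_012_s1 t449_A00pm_012_s1

theorem t456_A00pm_012_s1 : ∃ t, chk3 f_A00pm_012_s1 t 38 28 1 = true := ex3_a t455_A00pm_012_s1 t441_A00pm_012_s1

theorem t457_A00pm_012_s1 : ∃ t, chk3 f_A00pm_012_s1 t 19 28 1 = true := ex3_a t456_A00pm_012_s1 k310_A00pm_012_s1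

theorem t458_A00pm_012_s1 : ∃ t, chk3 f_A00pm_012_s1 t 19 14 1 = true := ex3_b t457_A00pm_012_s1 t440_A00pm_012_s1

theorem t459_A00pm_012_s1 : ∃ t, chk3 f_A00pm_012_s1 t 74 58 1 = true := ex3_a k289_A00pm_012_s1 k290_A00pm_012_s1

theorem t460_A00pm_012_s1 : ∃ t, chk3 f_A00pm_012_s1 t 37 58 1 = true := ex3_a t459_A00pm_012_s1 k291_A00pm_012_s1

theorem t461_A00pm_012_s1 : ∃ t, chk3 f_A00pm_012_s1 t 37 29 1 = true := ex3_b t460_A00pm_012_s1 k292_A00pm_012_s1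

theorem t462_A00pm_012_s1 : ∃ t, chk3 f_A00pm_012_s1 t 146 118 1 = true := ex3_a k285_A00pm_012_s1 k286_A00pm_012_s1

theorem t463_A00pm_012_s1 : ∃ t, chk3 f_A00pm_012_s1 t 73 118 1 = true := ex3_a t462_A00pm_012_s1 k287_A00pm_012_s1

theorem t464_A00pm_012_s1 : ∃ t, chk3 f_A00pm_012_s1 t 73 59 1 = true := ex3_b t463_A00pm_012_s1 k288_A00pm_012_s1

theorem t465_A00pm_012_s1 : ∃ t, chk3 f_A00pm_012_s1 t 145 59 1 = true := ex3_a k283_A00pm_012_s1 k284_A00pm_012_s1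

theorem t466_A00pm_012_s1 : ∃ t, chk3 f_A00pm_012_s1 t 72 59 1 = true := ex3_a k282_A00pm_012_s1 t465_A00pm_012_s1

theorem t467_A00pm_012_s1 : ∃ t, chk3 f_A00pm_012_s1 t 36 59 1 = true := ex3_a t466_A00pm_012_s1 t464_A00pm_012_s1

theorem t468_A00pm_012_s1 : ∃ t, chk3 f_A00pm_012_s1 t 36 58 1 = true := ex3_b k280_A00pm_012_s1 k281_A00pm_012_s1

theorem t469_A00pm_012_s1 : ∃ t, chk3 f_A00pm_012_s1 t 36 29 1 = true := ex3_b t468_A00pm_012_s1 t467_A00pm_012_s1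

theorem t470_A00pm_012_s1 : ∃ t, chk3 f_A00pm_012_s1 t 18 29 1 = true := ex3_a t469_A00pm_012_s1 t461_A00pm_012_s1

theorem t471_A00pm_012_s1 : ∃ t, chk3 f_A00pm_012_s1 t 151 57 1 = true := ex3_b k278_A00pm_012_s1 k279_A00pm_012_s1

theorem t472_A00pm_012_s1 : ∃ t, chk3 f_A00pm_012_s1 t 75 57 1 = true := ex3_a k277_A00pm_012_s1 t471_A00pm_012_s1

theorem t473_A00pm_012_s1 : ∃ t, chk3 f_A00pm_012_s1 t 75 28 1 = true := ex3_b k276_A00pm_012_s1 t472_A00pm_012_s1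

theorem t474_A00pm_012_s1 : ∃ t, chk3 f_A00pm_012_s1 t 37 28 1 = true := ex3_a k275_A00pm_012_s1 t473_A00pm_012_s1

theorem t475_A00pm_012_s1 : ∃ t, chk3 f_A00pm_012_s1 t 18 28 1 = true := ex3_a k274_A00pm_012_s1 t474_A00pm_012_s1

theorem t476_A00pm_012_s1 : ∃ t, chk3 f_A00pm_012_s1 t 18 14 1 = true := ex3_b t475_A00pm_012_s1 t470_A00pm_012_s1

theorem t477_A00pm_012_s1 : ∃ t, chk3 f_A00pm_012_s1 t 9 14 1 = true := ex3_a t476_A00pm_012_s1 t458_A00pm_012_s1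

theorem t478_A00pm_012_s1 : ∃ t, chk3 f_A00pm_012_s1 t 9 7 1 = true := ex3_b t477_A00pm_012_s1 t436_A00pm_012_s1

theorem t479_A00pm_012_s1 : ∃ t, chk3 f_A00pm_012_s1 t 68 124 1 = true := ex3_a k268_A00pm_012_s1 k269_A00pm_012_s1

theorem t480_A00pm_012_s1 : ∃ t, chk3 f_A00pm_012_s1 t 68 62 1 = true := ex3_b t479_A00pm_012_s1 k270_A00pm_012_s1

theorem t481_A00pm_012_s1 : ∃ t, chk3 f_A00pm_012_s1 t 34 62 1 = true := ex3_a t480_A00pm_012_s1 k271_A00pm_012_s1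

theorem t482_A00pm_012_s1 : ∃ t, chk3 f_A00pm_012_s1 t 34 31 1 = true := ex3_b t481_A00pm_012_s1 k272_A00pm_012_s1

theorem t483_A00pm_012_s1 : ∃ t, chk3 f_A00pm_012_s1 t 17 31 1 = true := ex3_a t482_A00pm_012_s1 k273_A00pm_012_s1

theorem t484_A00pm_012_s1 : ∃ t, chk3 f_A00pm_012_s1 t 280 490 1 = true := ex3_b k261_A00pm_012_s1 k262_A00pm_012_s1

theorem t485_A00pm_012_s1 : ∃ t, chk3 f_A00pm_012_s1 t 140 490 1 = true := ex3_a t484_A00pm_012_s1 k263_A00pm_012_s1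

theorem t486_A00pm_012_s1 : ∃ t, chk3 f_A00pm_012_s1 t 140 245 1 = true := ex3_b t485_A00pm_012_s1 k264_A00pm_012_s1

theorem t487_A00pm_012_s1 : ∃ t, chk3 f_A00pm_012_s1 t 1124 1955 1 = true := ex3_a k256_A00pm_012_s1 k257_A00pm_012_s1

theorem t488_A00pm_012_s1 : ∃ t, chk3 f_A00pm_012_s1 t 1124 977 1 = true := ex3_b k255_A00pm_012_s1 t487_A00pm_012_s1

theorem t489_A00pm_012_s1 : ∃ t, chk3 f_A00pm_012_s1 t 562 977 1 = true := ex3_a t488_A00pm_012_s1 k258_A00pm_012_s1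

theorem t490_A00pm_012_s1 : ∃ t, chk3 f_A00pm_012_s1 t 562 488 1 = true := ex3_b k254_A00pm_012_s1 t489_A00pm_012_s1

theorem t491_A00pm_012_s1 : ∃ t, chk3 f_A00pm_012_s1 t 281 488 1 = true := ex3_a t490_A00pm_012_s1 k259_A00pm_012_s1

theorem t492_A00pm_012_s1 : ∃ t, chk3 f_A00pm_012_s1 t 281 244 1 = true := ex3_b t491_A00pm_012_s1 k260_A00pm_012_s1

theorem t493_A00pm_012_s1 : ∃ t, chk3 f_A00pm_012_s1 t 2246 3912 1 = true := ex3_b k248_A00pm_012_s1 k249_A00pm_012_s1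

theorem t494_A00pm_012_s1 : ∃ t, chk3 f_A00pm_012_s1 t 2246 1956 1 = true := ex3_b t493_A00pm_012_s1 k250_A00pm_012_s1

theorem t495_A00pm_012_s1 : ∃ t, chk3 f_A00pm_012_s1 t 1123 1956 1 = true := ex3_a t494_A00pm_012_s1 k251_A00pm_012_s1

theorem t496_A00pm_012_s1 : ∃ t, chk3 f_A00pm_012_s1 t 1123 978 1 = true := ex3_b t495_A00pm_012_s1 k252_A00pm_012_s1

theorem t497_A00pm_012_s1 : ∃ t, chk3 f_A00pm_012_s1 t 4490 7828 1 = true := ex3_b k243_A00pm_012_s1 k244_A00pm_012_s1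

theorem t498_A00pm_012_s1 : ∃ t, chk3 f_A00pm_012_s1 t 4490 3914 1 = true := ex3_b t497_A00pm_012_s1 k245_A00pm_012_s1

theorem t499_A00pm_012_s1 : ∃ t, chk3 f_A00pm_012_s1 t 2245 3914 1 = true := ex3_a t498_A00pm_012_s1 k246_A00pm_012_s1

theorem t500_A00pm_012_s1 : ∃ t, chk3 f_A00pm_012_s1 t 2245 1957 1 = true := ex3_b t499_A00pm_012_s1 k247_A00pm_012_s1

theorem t501_A00pm_012_s1 : ∃ t, chk3 f_A00pm_012_s1 t 8977 7830 1 = true := ex3_a k239_A00pm_012_s1 k240_A00pm_012_s1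

theorem t502_A00pm_012_s1 : ∃ t, chk3 f_A00pm_012_s1 t 4488 7830 1 = true := ex3_a k238_A00pm_012_s1 t501_A00pm_012_s1

theorem t503_A00pm_012_s1 : ∃ t, chk3 f_A00pm_012_s1 t 4488 3915 1 = true := ex3_b t502_A00pm_012_s1 k241_A00pm_012_s1

theorem t504_A00pm_012_s1 : ∃ t, chk3 f_A00pm_012_s1 t 2244 3915 1 = true := ex3_a t503_A00pm_012_s1 k242_A00pm_012_s1

theorem t505_A00pm_012_s1 : ∃ t, chk3 f_A00pm_012_s1 t 2244 3914 1 = true := ex3_c k236_A00pm_012_s1 k237_A00pm_012_s1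

theorem t506_A00pm_012_s1 : ∃ t, chk3 f_A00pm_012_s1 t 2244 1957 1 = true := ex3_b t505_A00pm_012_s1 t504_A00pm_012_s1

theorem t507_A00pm_012_s1 : ∃ t, chk3 f_A00pm_012_s1 t 1122 1957 1 = true := ex3_a t506_A00pm_012_s1 t500_A00pm_012_s1

theorem t508_A00pm_012_s1 : ∃ t, chk3 f_A00pm_012_s1 t 2245 1956 1 = true := ex3_c k234_A00pm_012_s1 k235_A00pm_012_s1

theorem t509_A00pm_012_s1 : ∃ t, chk3 f_A00pm_012_s1 t 1122 1956 1 = true := ex3_a k233_A00pm_012_s1 t508_A00pm_012_s1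

theorem t510_A00pm_012_s1 : ∃ t, chk3 f_A00pm_012_s1 t 1122 978 1 = true := ex3_b t509_A00pm_012_s1 t507_A00pm_012_s1

theorem t511_A00pm_012_s1 : ∃ t, chk3 f_A00pm_012_s1 t 561 978 1 = true := ex3_a t510_A00pm_012_s1 t496_A00pm_012_s1

theorem t512_A00pm_012_s1 : ∃ t, chk3 f_A00pm_012_s1 t 561 489 1 = true := ex3_b t511_A00pm_012_s1 k253_A00pm_012_s1

theorem t513_A00pm_012_s1 : ∃ t, chk3 f_A00pm_012_s1 t 4486 7833 1 = true := ex3_a k228_A00pm_012_s1 k229_A00pm_012_s1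

theorem t514_A00pm_012_s1 : ∃ t, chk3 f_A00pm_012_s1 t 4486 7832 3 = true := ex3_a k226_A00pm_012_s1 k227_A00pm_012_s1

theorem t515_A00pm_012_s1 : ∃ t, chk3 f_A00pm_012_s1 t 4486 7832 2 = true := ex3_a k224_A00pm_012_s1 k225_A00pm_012_s1

theorem t516_A00pm_012_s1 : ∃ t, chk3 f_A00pm_012_s1 t 4486 7832 1 = true := ex3_c t515_A00pm_012_s1 t514_A00pm_012_s1

theorem t517_A00pm_012_s1 : ∃ t, chk3 f_A00pm_012_s1 t 4486 3916 1 = true := ex3_b t516_A00pm_012_s1 t513_A00pm_012_s1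

theorem t518_A00pm_012_s1 : ∃ t, chk3 f_A00pm_012_s1 t 2243 3916 1 = true := ex3_a t517_A00pm_012_s1 k230_A00pm_012_s1

theorem t519_A00pm_012_s1 : ∃ t, chk3 f_A00pm_012_s1 t 2243 1958 1 = true := ex3_b t518_A00pm_012_s1 k231_A00pm_012_s1

theorem t520_A00pm_012_s1 : ∃ t, chk3 f_A00pm_012_s1 t 8968 15670 1 = true := ex3_a k219_A00pm_012_s1 k220_A00pm_012_s1

theorem t521_A00pm_012_s1 : ∃ t, chk3 f_A00pm_012_s1 t 8968 7835 1 = true := ex3_b t520_A00pm_012_s1 k221_A00pm_012_s1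

theorem t522_A00pm_012_s1 : ∃ t, chk3 f_A00pm_012_s1 t 4484 7835 1 = true := ex3_a t521_A00pm_012_s1 k222_A00pm_012_s1

theorem t523_A00pm_012_s1 : ∃ t, chk3 f_A00pm_012_s1 t 2242 7835 1 = true := ex3_a t522_A00pm_012_s1 k223_A00pm_012_s1

theorem t524_A00pm_012_s1 : ∃ t, chk3 f_A00pm_012_s1 t 8970 7834 1 = true := ex3_b k216_A00pm_012_s1 k217_A00pm_012_s1

theorem t525_A00pm_012_s1 : ∃ t, chk3 f_A00pm_012_s1 t 4485 7834 1 = true := ex3_a t524_A00pm_012_s1 k218_A00pm_012_s1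

theorem t526_A00pm_012_s1 : ∃ t, chk3 f_A00pm_012_s1 t 4484 15669 1 = true := ex3_b k214_A00pm_012_s1 k215_A00pm_012_s1

theorem t527_A00pm_012_s1 : ∃ t, chk3 f_A00pm_012_s1 t 4484 7834 1 = true := ex3_b k213_A00pm_012_s1 t526_A00pm_012_s1

theorem t528_A00pm_012_s1 : ∃ t, chk3 f_A00pm_012_s1 t 2242 7834 1 = true := ex3_a t527_A00pm_012_s1 t525_A00pm_012_s1

theorem t529_A00pm_012_s1 : ∃ t, chk3 f_A00pm_012_s1 t 2242 3917 1 = true := ex3_b t528_A00pm_012_s1 t523_A00pm_012_s1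

theorem t530_A00pm_012_s1 : ∃ t, chk3 f_A00pm_012_s1 t 4485 7833 3 = true := ex3_a k211_A00pm_012_s1 k212_A00pm_012_s1

theorem t531_A00pm_012_s1 : ∃ t, chk3 f_A00pm_012_s1 t 4485 3916 3 = true := ex3_b k210_A00pm_012_s1 t530_A00pm_012_s1

theorem t532_A00pm_012_s1 : ∃ t, chk3 f_A00pm_012_s1 t 2242 3916 3 = true := ex3_a k209_A00pm_012_s1 t531_A00pm_012_s1

theorem t533_A00pm_012_s1 : ∃ t, chk3 f_A00pm_012_s1 t 2242 3916 2 = true := ex3_a k207_A00pm_012_s1 k208_A00pm_012_s1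

theorem t534_A00pm_012_s1 : ∃ t, chk3 f_A00pm_012_s1 t 2242 3916 1 = true := ex3_c t533_A00pm_012_s1 t532_A00pm_012_s1

theorem t535_A00pm_012_s1 : ∃ t, chk3 f_A00pm_012_s1 t 2242 1958 1 = true := ex3_b t534_A00pm_012_s1 t529_A00pm_012_s1

theorem t536_A00pm_012_s1 : ∃ t, chk3 f_A00pm_012_s1 t 1121 1958 1 = true := ex3_a t535_A00pm_012_s1 t519_A00pm_012_s1

theorem t537_A00pm_012_s1 : ∃ t, chk3 f_A00pm_012_s1 t 1121 979 1 = true := ex3_b t536_A00pm_012_s1 k232_A00pm_012_s1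

theorem t538_A00pm_012_s1 : ∃ t, chk3 f_A00pm_012_s1 t 4482 7837 1 = true := ex3_c k203_A00pm_012_s1 k204_A00pm_012_s1

theorem t539_A00pm_012_s1 : ∃ t, chk3 f_A00pm_012_s1 t 2241 7837 1 = true := ex3_a t538_A00pm_012_s1 k205_A00pm_012_s1

theorem t540_A00pm_012_s1 : ∃ t, chk3 f_A00pm_012_s1 t 4483 7836 1 = true := ex3_c k201_A00pm_012_s1 k202_A00pm_012_s1

theorem t541_A00pm_012_s1 : ∃ t, chk3 f_A00pm_012_s1 t 8965 15673 1 = true := ex3_b k199_A00pm_012_s1 k200_A00pm_012_s1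

theorem t542_A00pm_012_s1 : ∃ t, chk3 f_A00pm_012_s1 t 8965 7836 1 = true := ex3_b k198_A00pm_012_s1 t541_A00pm_012_s1

theorem t543_A00pm_012_s1 : ∃ t, chk3 f_A00pm_012_s1 t 4482 7836 1 = true := ex3_a k197_A00pm_012_s1 t542_A00pm_012_s1

theorem t544_A00pm_012_s1 : ∃ t, chk3 f_A00pm_012_s1 t 2241 7836 1 = true := ex3_a t543_A00pm_012_s1 t540_A00pm_012_s1

theorem t545_A00pm_012_s1 : ∃ t, chk3 f_A00pm_012_s1 t 2241 3918 1 = true := ex3_b t544_A00pm_012_s1 t539_A00pm_012_s1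

theorem t546_A00pm_012_s1 : ∃ t, chk3 f_A00pm_012_s1 t 2241 1959 1 = true := ex3_b t545_A00pm_012_s1 k206_A00pm_012_s1

theorem t547_A00pm_012_s1 : ∃ t, chk3 f_A00pm_012_s1 t 2240 7839 1 = true := ex3_b k195_A00pm_012_s1 k196_A00pm_012_s1

theorem t548_A00pm_012_s1 : ∃ t, chk3 f_A00pm_012_s1 t 4481 7838 1 = true := ex3_c k193_A00pm_012_s1 k194_A00pm_012_s1

theorem t549_A00pm_012_s1 : ∃ t, chk3 f_A00pm_012_s1 t 2240 7838 1 = true := ex3_a k192_A00pm_012_s1 t548_A00pm_012_s1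

theorem t550_A00pm_012_s1 : ∃ t, chk3 f_A00pm_012_s1 t 2240 3919 1 = true := ex3_b t549_A00pm_012_s1 t547_A00pm_012_s1

theorem t551_A00pm_012_s1 : ∃ t, chk3 f_A00pm_012_s1 t 2240 3918 1 = true := ex3_c k190_A00pm_012_s1 k191_A00pm_012_s1

theorem t552_A00pm_012_s1 : ∃ t, chk3 f_A00pm_012_s1 t 2240 1959 1 = true := ex3_b t551_A00pm_012_s1 t550_A00pm_012_s1

theorem t553_A00pm_012_s1 : ∃ t, chk3 f_A00pm_012_s1 t 1120 1959 1 = true := ex3_a t552_A00pm_012_s1 t546_A00pm_012_s1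

theorem t554_A00pm_012_s1 : ∃ t, chk3 f_A00pm_012_s1 t 1120 1958 3 = true := ex3_a k188_A00pm_012_s1 k189_A00pm_012_s1

theorem t555_A00pm_012_s1 : ∃ t, chk3 f_A00pm_012_s1 t 1120 1958 1 = true := ex3_c k187_A00pm_012_s1 t554_A00pm_012_s1

theorem t556_A00pm_012_s1 : ∃ t, chk3 f_A00pm_012_s1 t 1120 979 1 = true := ex3_b t555_A00pm_012_s1 t553_A00pm_012_s1

theorem t557_A00pm_012_s1 : ∃ t, chk3 f_A00pm_012_s1 t 560 979 1 = true := ex3_a t556_A00pm_012_s1 t537_A00pm_012_s1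

theorem t558_A00pm_012_s1 : ∃ t, chk3 f_A00pm_012_s1 t 4487 7831 3 = true := ex3_a k185_A00pm_012_s1 k186_A00pm_012_s1

theorem t559_A00pm_012_s1 : ∃ t, chk3 f_A00pm_012_s1 t 2243 7831 3 = true := ex3_a k184_A00pm_012_s1 t558_A00pm_012_s1

theorem t560_A00pm_012_s1 : ∃ t, chk3 f_A00pm_012_s1 t 2243 3915 3 = true := ex3_b k183_A00pm_012_s1 t559_A00pm_012_s1

theorem t561_A00pm_012_s1 : ∃ t, chk3 f_A00pm_012_s1 t 1121 3915 3 = true := ex3_a k182_A00pm_012_s1 t560_A00pm_012_s1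

theorem t562_A00pm_012_s1 : ∃ t, chk3 f_A00pm_012_s1 t 1121 1957 3 = true := ex3_b k181_A00pm_012_s1 t561_A00pm_012_s1

theorem t563_A00pm_012_s1 : ∃ t, chk3 f_A00pm_012_s1 t 1121 978 3 = true := ex3_b k180_A00pm_012_s1 t562_A00pm_012_s1

theorem t564_A00pm_012_s1 : ∃ t, chk3 f_A00pm_012_s1 t 560 978 3 = true := ex3_a k179_A00pm_012_s1 t563_A00pm_012_s1

theorem t565_A00pm_012_s1 : ∃ t, chk3 f_A00pm_012_s1 t 4487 7831 2 = true := ex3_a k177_A00pm_012_s1 k178_A00pm_012_s1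

theorem t566_A00pm_012_s1 : ∃ t, chk3 f_A00pm_012_s1 t 2243 7831 2 = true := ex3_a k176_A00pm_012_s1 t565_A00pm_012_s1

theorem t567_A00pm_012_s1 : ∃ t, chk3 f_A00pm_012_s1 t 2243 3915 2 = true := ex3_b k175_A00pm_012_s1 t566_A00pm_012_s1

theorem t568_A00pm_012_s1 : ∃ t, chk3 f_A00pm_012_s1 t 2243 1957 2 = true := ex3_b k174_A00pm_012_s1 t567_A00pm_012_s1

theorem t569_A00pm_012_s1 : ∃ t, chk3 f_A00pm_012_s1 t 1121 1957 2 = true := ex3_a k173_A00pm_012_s1 t568_A00pm_012_s1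

theorem t570_A00pm_012_s1 : ∃ t, chk3 f_A00pm_012_s1 t 560 1957 2 = true := ex3_a k172_A00pm_012_s1 t569_A00pm_012_s1

theorem t571_A00pm_012_s1 : ∃ t, chk3 f_A00pm_012_s1 t 560 978 2 = true := ex3_b k171_A00pm_012_s1 t570_A00pm_012_s1

theorem t572_A00pm_012_s1 : ∃ t, chk3 f_A00pm_012_s1 t 560 978 1 = true := ex3_c t571_A00pm_012_s1 t564_A00pm_012_s1

theorem t573_A00pm_012_s1 : ∃ t, chk3 f_A00pm_012_s1 t 560 489 1 = true := ex3_b t572_A00pm_012_s1 t557_A00pm_012_s1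

theorem t574_A00pm_012_s1 : ∃ t, chk3 f_A00pm_012_s1 t 280 489 1 = true := ex3_a t573_A00pm_012_s1 t512_A00pm_012_s1

theorem t575_A00pm_012_s1 : ∃ t, chk3 f_A00pm_012_s1 t 280 488 2 = true := ex3_a k168_A00pm_012_s1 k169_A00pm_012_s1

theorem t576_A00pm_012_s1 : ∃ t, chk3 f_A00pm_012_s1 t 280 488 1 = true := ex3_c t575_A00pm_012_s1 k170_A00pm_012_s1

theorem t577_A00pm_012_s1 : ∃ t, chk3 f_A00pm_012_s1 t 280 244 1 = true := ex3_b t576_A00pm_012_s1 t574_A00pm_012_s1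

theorem t578_A00pm_012_s1 : ∃ t, chk3 f_A00pm_012_s1 t 140 244 1 = true := ex3_a t577_A00pm_012_s1 t492_A00pm_012_s1

theorem t579_A00pm_012_s1 : ∃ t, chk3 f_A00pm_012_s1 t 140 122 1 = true := ex3_b t578_A00pm_012_s1 t486_A00pm_012_s1

theorem t580_A00pm_012_s1 : ∃ t, chk3 f_A00pm_012_s1 t 70 122 1 = true := ex3_a t579_A00pm_012_s1 k265_A00pm_012_s1

theorem t581_A00pm_012_s1 : ∃ t, chk3 f_A00pm_012_s1 t 35 122 1 = true := ex3_a t580_A00pm_012_s1 k266_A00pm_012_s1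

theorem t582_A00pm_012_s1 : ∃ t, chk3 f_A00pm_012_s1 t 35 61 1 = true := ex3_b t581_A00pm_012_s1 k267_A00pm_012_s1

theorem t583_A00pm_012_s1 : ∃ t, chk3 f_A00pm_012_s1 t 71 60 1 = true := ex3_a k166_A00pm_012_s1 k167_A00pm_012_s1

theorem t584_A00pm_012_s1 : ∃ t, chk3 f_A00pm_012_s1 t 141 60 1 = true := ex3_b k164_A00pm_012_s1 k165_A00pm_012_s1

theorem t585_A00pm_012_s1 : ∃ t, chk3 f_A00pm_012_s1 t 140 121 1 = true := ex3_a k162_A00pm_012_s1 k163_A00pm_012_s1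

theorem t586_A00pm_012_s1 : ∃ t, chk3 f_A00pm_012_s1 t 140 60 1 = true := ex3_b k161_A00pm_012_s1 t585_A00pm_012_s1

theorem t587_A00pm_012_s1 : ∃ t, chk3 f_A00pm_012_s1 t 70 60 1 = true := ex3_a t586_A00pm_012_s1 t584_A00pm_012_s1

theorem t588_A00pm_012_s1 : ∃ t, chk3 f_A00pm_012_s1 t 35 60 1 = true := ex3_a t587_A00pm_012_s1 t583_A00pm_012_s1

theorem t589_A00pm_012_s1 : ∃ t, chk3 f_A00pm_012_s1 t 35 30 1 = true := ex3_b t588_A00pm_012_s1 t582_A00pm_012_s1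

theorem t590_A00pm_012_s1 : ∃ t, chk3 f_A00pm_012_s1 t 554 985 1 = true := ex3_a k155_A00pm_012_s1 k156_A00pm_012_s1

theorem t591_A00pm_012_s1 : ∃ t, chk3 f_A00pm_012_s1 t 554 492 1 = true := ex3_b k154_A00pm_012_s1 t590_A00pm_012_s1

theorem t592_A00pm_012_s1 : ∃ t, chk3 f_A00pm_012_s1 t 277 492 1 = true := ex3_a t591_A00pm_012_s1 k157_A00pm_012_s1

theorem t593_A00pm_012_s1 : ∃ t, chk3 f_A00pm_012_s1 t 277 246 1 = true := ex3_b t592_A00pm_012_s1 k158_A00pm_012_s1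

theorem t594_A00pm_012_s1 : ∃ t, chk3 f_A00pm_012_s1 t 553 246 1 = true := ex3_a k152_A00pm_012_s1 k153_A00pm_012_s1

theorem t595_A00pm_012_s1 : ∃ t, chk3 f_A00pm_012_s1 t 276 246 1 = true := ex3_a k151_A00pm_012_s1 t594_A00pm_012_s1

theorem t596_A00pm_012_s1 : ∃ t, chk3 f_A00pm_012_s1 t 138 246 1 = true := ex3_a t595_A00pm_012_s1 t593_A00pm_012_s1

theorem t597_A00pm_012_s1 : ∃ t, chk3 f_A00pm_012_s1 t 138 123 1 = true := ex3_b t596_A00pm_012_s1 k159_A00pm_012_s1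

theorem t598_A00pm_012_s1 : ∃ t, chk3 f_A00pm_012_s1 t 69 123 1 = true := ex3_a t597_A00pm_012_s1 k160_A00pm_012_s1

theorem t599_A00pm_012_s1 : ∃ t, chk3 f_A00pm_012_s1 t 558 981 3 = true := ex3_b k147_A00pm_012_s1 k148_A00pm_012_s1

theorem t600_A00pm_012_s1 : ∃ t, chk3 f_A00pm_012_s1 t 279 981 3 = true := ex3_a t599_A00pm_012_s1 k149_A00pm_012_s1

theorem t601_A00pm_012_s1 : ∃ t, chk3 f_A00pm_012_s1 t 139 981 3 = true := ex3_a k146_A00pm_012_s1 t600_A00pm_012_s1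

theorem t602_A00pm_012_s1 : ∃ t, chk3 f_A00pm_012_s1 t 1118 1961 3 = true := ex3_b k143_A00pm_012_s1 k144_A00pm_012_s1

theorem t603_A00pm_012_s1 : ∃ t, chk3 f_A00pm_012_s1 t 559 1961 3 = true := ex3_a t602_A00pm_012_s1 k145_A00pm_012_s1

theorem t604_A00pm_012_s1 : ∃ t, chk3 f_A00pm_012_s1 t 279 1961 3 = true := ex3_a k142_A00pm_012_s1 t603_A00pm_012_s1

theorem t605_A00pm_012_s1 : ∃ t, chk3 f_A00pm_012_s1 t 139 1961 3 = true := ex3_a k141_A00pm_012_s1 t604_A00pm_012_s1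

theorem t606_A00pm_012_s1 : ∃ t, chk3 f_A00pm_012_s1 t 139 7842 3 = true := ex3_c k138_A00pm_012_s1 k139_A00pm_012_s1

theorem t607_A00pm_012_s1 : ∃ t, chk3 f_A00pm_012_s1 t 139 3921 3 = true := ex3_b t606_A00pm_012_s1 k140_A00pm_012_s1

theorem t608_A00pm_012_s1 : ∃ t, chk3 f_A00pm_012_s1 t 2239 3920 3 = true := ex3_b k136_A00pm_012_s1 k137_A00pm_012_s1

theorem t609_A00pm_012_s1 : ∃ t, chk3 f_A00pm_012_s1 t 1119 3920 3 = true := ex3_a k135_A00pm_012_s1 t608_A00pm_012_s1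

theorem t610_A00pm_012_s1 : ∃ t, chk3 f_A00pm_012_s1 t 559 3920 3 = true := ex3_a k134_A00pm_012_s1 t609_A00pm_012_s1

theorem t611_A00pm_012_s1 : ∃ t, chk3 f_A00pm_012_s1 t 279 3920 3 = true := ex3_a k133_A00pm_012_s1 t610_A00pm_012_s1

theorem t612_A00pm_012_s1 : ∃ t, chk3 f_A00pm_012_s1 t 139 3920 3 = true := ex3_a k132_A00pm_012_s1 t611_A00pm_012_s1

theorem t613_A00pm_012_s1 : ∃ t, chk3 f_A00pm_012_s1 t 139 1960 3 = true := ex3_b t612_A00pm_012_s1 t607_A00pm_012_s1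

theorem t614_A00pm_012_s1 : ∃ t, chk3 f_A00pm_012_s1 t 139 980 3 = true := ex3_b t613_A00pm_012_s1 t605_A00pm_012_s1

theorem t615_A00pm_012_s1 : ∃ t, chk3 f_A00pm_012_s1 t 139 490 3 = true := ex3_b t614_A00pm_012_s1 t601_A00pm_012_s1

theorem t616_A00pm_012_s1 : ∃ t, chk3 f_A00pm_012_s1 t 69 490 3 = true := ex3_a k131_A00pm_012_s1 t615_A00pm_012_s1

theorem t617_A00pm_012_s1 : ∃ t, chk3 f_A00pm_012_s1 t 69 245 3 = true := ex3_b t616_A00pm_012_s1 k150_A00pm_012_s1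

theorem t618_A00pm_012_s1 : ∃ t, chk3 f_A00pm_012_s1 t 69 491 2 = true := ex3_a k129_A00pm_012_s1 k130_A00pm_012_s1

theorem t619_A00pm_012_s1 : ∃ t, chk3 f_A00pm_012_s1 t 279 981 2 = true := ex3_a k127_A00pm_012_s1 k128_A00pm_012_s1

theorem t620_A00pm_012_s1 : ∃ t, chk3 f_A00pm_012_s1 t 139 981 2 = true := ex3_a k126_A00pm_012_s1 t619_A00pm_012_s1

theorem t621_A00pm_012_s1 : ∃ t, chk3 f_A00pm_012_s1 t 139 3921 2 = true := ex3_b k123_A00pm_012_s1 k124_A00pm_012_s1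

theorem t622_A00pm_012_s1 : ∃ t, chk3 f_A00pm_012_s1 t 559 3920 2 = true := ex3_a k121_A00pm_012_s1 k122_A00pm_012_s1

theorem t623_A00pm_012_s1 : ∃ t, chk3 f_A00pm_012_s1 t 279 3920 2 = true := ex3_a k120_A00pm_012_s1 t622_A00pm_012_s1

theorem t624_A00pm_012_s1 : ∃ t, chk3 f_A00pm_012_s1 t 139 3920 2 = true := ex3_a k119_A00pm_012_s1 t623_A00pm_012_s1

theorem t625_A00pm_012_s1 : ∃ t, chk3 f_A00pm_012_s1 t 139 1960 2 = true := ex3_b t624_A00pm_012_s1 t621_A00pm_012_s1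

theorem t626_A00pm_012_s1 : ∃ t, chk3 f_A00pm_012_s1 t 139 980 2 = true := ex3_b t625_A00pm_012_s1 k125_A00pm_012_s1

theorem t627_A00pm_012_s1 : ∃ t, chk3 f_A00pm_012_s1 t 139 490 2 = true := ex3_b t626_A00pm_012_s1 t620_A00pm_012_s1

theorem t628_A00pm_012_s1 : ∃ t, chk3 f_A00pm_012_s1 t 69 490 2 = true := ex3_a k118_A00pm_012_s1 t627_A00pm_012_s1

theorem t629_A00pm_012_s1 : ∃ t, chk3 f_A00pm_012_s1 t 69 245 2 = true := ex3_b t628_A00pm_012_s1 t618_A00pm_012_s1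

theorem t630_A00pm_012_s1 : ∃ t, chk3 f_A00pm_012_s1 t 69 245 1 = true := ex3_c t629_A00pm_012_s1 t617_A00pm_012_s1

theorem t631_A00pm_012_s1 : ∃ t, chk3 f_A00pm_012_s1 t 279 244 1 = true := ex3_c k116_A00pm_012_s1 k117_A00pm_012_s1

theorem t632_A00pm_012_s1 : ∃ t, chk3 f_A00pm_012_s1 t 139 244 1 = true := ex3_a k115_A00pm_012_s1 t631_A00pm_012_s1

theorem t633_A00pm_012_s1 : ∃ t, chk3 f_A00pm_012_s1 t 69 244 1 = true := ex3_a k114_A00pm_012_s1 t632_A00pm_012_s1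

theorem t634_A00pm_012_s1 : ∃ t, chk3 f_A00pm_012_s1 t 69 122 1 = true := ex3_b t633_A00pm_012_s1 t630_A00pm_012_s1

theorem t635_A00pm_012_s1 : ∃ t, chk3 f_A00pm_012_s1 t 69 61 1 = true := ex3_b t634_A00pm_012_s1 t598_A00pm_012_s1

theorem t636_A00pm_012_s1 : ∃ t, chk3 f_A00pm_012_s1 t 69 121 1 = true := ex3_a k112_A00pm_012_s1 k113_A00pm_012_s1

theorem t637_A00pm_012_s1 : ∃ t, chk3 f_A00pm_012_s1 t 69 60 1 = true := ex3_b k111_A00pm_012_s1 t636_A00pm_012_s1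

theorem t638_A00pm_012_s1 : ∃ t, chk3 f_A00pm_012_s1 t 69 30 1 = true := ex3_b t637_A00pm_012_s1 t635_A00pm_012_s1

theorem t639_A00pm_012_s1 : ∃ t, chk3 f_A00pm_012_s1 t 137 247 1 = true := ex3_a k109_A00pm_012_s1 k110_A00pm_012_s1

theorem t640_A00pm_012_s1 : ∃ t, chk3 f_A00pm_012_s1 t 137 123 1 = true := ex3_b k108_A00pm_012_s1 t639_A00pm_012_s1

theorem t641_A00pm_012_s1 : ∃ t, chk3 f_A00pm_012_s1 t 68 123 1 = true := ex3_a k107_A00pm_012_s1 t640_A00pm_012_s1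

theorem t642_A00pm_012_s1 : ∃ t, chk3 f_A00pm_012_s1 t 68 61 1 = true := ex3_b k106_A00pm_012_s1 t641_A00pm_012_s1

theorem t643_A00pm_012_s1 : ∃ t, chk3 f_A00pm_012_s1 t 68 30 1 = true := ex3_b k105_A00pm_012_s1 t642_A00pm_012_s1

theorem t644_A00pm_012_s1 : ∃ t, chk3 f_A00pm_012_s1 t 34 30 1 = true := ex3_a t643_A00pm_012_s1 t638_A00pm_012_s1

theorem t645_A00pm_012_s1 : ∃ t, chk3 f_A00pm_012_s1 t 17 30 1 = true := ex3_a t644_A00pm_012_s1 t589_A00pm_012_s1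

theorem t646_A00pm_012_s1 : ∃ t, chk3 f_A00pm_012_s1 t 17 15 1 = true := ex3_b t645_A00pm_012_s1 t483_A00pm_012_s1

theorem t647_A00pm_012_s1 : ∃ t, chk3 f_A00pm_012_s1 t 132 252 1 = true := ex3_b k99_A00pm_012_s1 k100_A00pm_012_s1

theorem t648_A00pm_012_s1 : ∃ t, chk3 f_A00pm_012_s1 t 66 252 1 = true := ex3_a t647_A00pm_012_s1 k101_A00pm_012_s1

theorem t649_A00pm_012_s1 : ∃ t, chk3 f_A00pm_012_s1 t 66 126 1 = true := ex3_b t648_A00pm_012_s1 k102_A00pm_012_s1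

theorem t650_A00pm_012_s1 : ∃ t, chk3 f_A00pm_012_s1 t 33 126 1 = true := ex3_a t649_A00pm_012_s1 k103_A00pm_012_s1

theorem t651_A00pm_012_s1 : ∃ t, chk3 f_A00pm_012_s1 t 33 63 1 = true := ex3_b t650_A00pm_012_s1 k104_A00pm_012_s1

theorem t652_A00pm_012_s1 : ∃ t, chk3 f_A00pm_012_s1 t 2086 4064 1 = true := ex3_b k89_A00pm_012_s1 k90_A00pm_012_s1

theorem t653_A00pm_012_s1 : ∃ t, chk3 f_A00pm_012_s1 t 2086 2032 1 = true := ex3_b t652_A00pm_012_s1 k91_A00pm_012_s1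

theorem t654_A00pm_012_s1 : ∃ t, chk3 f_A00pm_012_s1 t 1043 2032 1 = true := ex3_a t653_A00pm_012_s1 k92_A00pm_012_s1

theorem t655_A00pm_012_s1 : ∃ t, chk3 f_A00pm_012_s1 t 1043 1016 1 = true := ex3_b t654_A00pm_012_s1 k93_A00pm_012_s1

theorem t656_A00pm_012_s1 : ∃ t, chk3 f_A00pm_012_s1 t 2085 4065 1 = true := ex3_b k86_A00pm_012_s1 k87_A00pm_012_s1

theorem t657_A00pm_012_s1 : ∃ t, chk3 f_A00pm_012_s1 t 1042 4065 1 = true := ex3_a k85_A00pm_012_s1 t656_A00pm_012_s1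

theorem t658_A00pm_012_s1 : ∃ t, chk3 f_A00pm_012_s1 t 1042 2032 1 = true := ex3_b k84_A00pm_012_s1 t657_A00pm_012_s1

theorem t659_A00pm_012_s1 : ∃ t, chk3 f_A00pm_012_s1 t 1042 1016 1 = true := ex3_b t658_A00pm_012_s1 k88_A00pm_012_s1

theorem t660_A00pm_012_s1 : ∃ t, chk3 f_A00pm_012_s1 t 521 1016 1 = true := ex3_a t659_A00pm_012_s1 t655_A00pm_012_s1

theorem t661_A00pm_012_s1 : ∃ t, chk3 f_A00pm_012_s1 t 520 2033 1 = true := ex3_b k82_A00pm_012_s1 k83_A00pm_012_s1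

theorem t662_A00pm_012_s1 : ∃ t, chk3 f_A00pm_012_s1 t 520 1016 1 = true := ex3_b k81_A00pm_012_s1 t661_A00pm_012_s1

theorem t663_A00pm_012_s1 : ∃ t, chk3 f_A00pm_012_s1 t 260 1016 1 = true := ex3_a t662_A00pm_012_s1 t660_A00pm_012_s1

theorem t664_A00pm_012_s1 : ∃ t, chk3 f_A00pm_012_s1 t 260 508 1 = true := ex3_b t663_A00pm_012_s1 k94_A00pm_012_s1

theorem t665_A00pm_012_s1 : ∃ t, chk3 f_A00pm_012_s1 t 130 508 1 = true := ex3_a t664_A00pm_012_s1 k95_A00pm_012_s1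

theorem t666_A00pm_012_s1 : ∃ t, chk3 f_A00pm_012_s1 t 130 254 1 = true := ex3_b t665_A00pm_012_s1 k96_A00pm_012_s1

theorem t667_A00pm_012_s1 : ∃ t, chk3 f_A00pm_012_s1 t 65 254 1 = true := ex3_a t666_A00pm_012_s1 k97_A00pm_012_s1

theorem t668_A00pm_012_s1 : ∃ t, chk3 f_A00pm_012_s1 t 65 127 1 = true := ex3_b t667_A00pm_012_s1 k98_A00pm_012_s1

theorem t669_A00pm_012_s1 : ∃ t, chk3 f_A00pm_012_s1 t 32 127 1 = true := ex3_a k80_A00pm_012_s1 t668_A00pm_012_s1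

theorem t670_A00pm_012_s1 : ∃ t, chk3 f_A00pm_012_s1 t 1048 2027 1 = true := ex3_a k74_A00pm_012_s1 k75_A00pm_012_s1

theorem t671_A00pm_012_s1 : ∃ t, chk3 f_A00pm_012_s1 t 524 2027 1 = true := ex3_a t670_A00pm_012_s1 k76_A00pm_012_s1

theorem t672_A00pm_012_s1 : ∃ t, chk3 f_A00pm_012_s1 t 524 1013 1 = true := ex3_b k73_A00pm_012_s1 t671_A00pm_012_s1

theorem t673_A00pm_012_s1 : ∃ t, chk3 f_A00pm_012_s1 t 262 1013 1 = true := ex3_a t672_A00pm_012_s1 k77_A00pm_012_s1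

theorem t674_A00pm_012_s1 : ∃ t, chk3 f_A00pm_012_s1 t 525 2025 1 = true := ex3_b k71_A00pm_012_s1 k72_A00pm_012_s1

theorem t675_A00pm_012_s1 : ∃ t, chk3 f_A00pm_012_s1 t 525 1012 1 = true := ex3_b k70_A00pm_012_s1 t674_A00pm_012_s1

theorem t676_A00pm_012_s1 : ∃ t, chk3 f_A00pm_012_s1 t 262 1012 1 = true := ex3_a k69_A00pm_012_s1 t675_A00pm_012_s1

theorem t677_A00pm_012_s1 : ∃ t, chk3 f_A00pm_012_s1 t 262 506 1 = true := ex3_b t676_A00pm_012_s1 t673_A00pm_012_s1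

theorem t678_A00pm_012_s1 : ∃ t, chk3 f_A00pm_012_s1 t 262 253 1 = true := ex3_b t677_A00pm_012_s1 k78_A00pm_012_s1

theorem t679_A00pm_012_s1 : ∃ t, chk3 f_A00pm_012_s1 t 131 253 1 = true := ex3_a t678_A00pm_012_s1 k79_A00pm_012_s1

theorem t680_A00pm_012_s1 : ∃ t, chk3 f_A00pm_012_s1 t 2092 4059 1 = true := ex3_b k64_A00pm_012_s1 k65_A00pm_012_s1

theorem t681_A00pm_012_s1 : ∃ t, chk3 f_A00pm_012_s1 t 1046 4059 1 = true := ex3_a t680_A00pm_012_s1 k66_A00pm_012_s1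

theorem t682_A00pm_012_s1 : ∃ t, chk3 f_A00pm_012_s1 t 1046 4058 1 = true := ex3_b k62_A00pm_012_s1 k63_A00pm_012_s1

theorem t683_A00pm_012_s1 : ∃ t, chk3 f_A00pm_012_s1 t 1046 2029 1 = true := ex3_b t682_A00pm_012_s1 t681_A00pm_012_s1

theorem t684_A00pm_012_s1 : ∃ t, chk3 f_A00pm_012_s1 t 523 2029 1 = true := ex3_a t683_A00pm_012_s1 k67_A00pm_012_s1

theorem t685_A00pm_012_s1 : ∃ t, chk3 f_A00pm_012_s1 t 523 4057 1 = true := ex3_b k60_A00pm_012_s1 k61_A00pm_012_s1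

theorem t686_A00pm_012_s1 : ∃ t, chk3 f_A00pm_012_s1 t 523 2028 1 = true := ex3_b k59_A00pm_012_s1 t685_A00pm_012_s1

theorem t687_A00pm_012_s1 : ∃ t, chk3 f_A00pm_012_s1 t 523 1014 1 = true := ex3_b t686_A00pm_012_s1 t684_A00pm_012_s1

theorem t688_A00pm_012_s1 : ∃ t, chk3 f_A00pm_012_s1 t 523 507 1 = true := ex3_b t687_A00pm_012_s1 k68_A00pm_012_s1

theorem t689_A00pm_012_s1 : ∃ t, chk3 f_A00pm_012_s1 t 2088 4062 1 = true := ex3_a k54_A00pm_012_s1 k55_A00pm_012_s1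

theorem t690_A00pm_012_s1 : ∃ t, chk3 f_A00pm_012_s1 t 1044 4062 1 = true := ex3_a t689_A00pm_012_s1 k56_A00pm_012_s1

theorem t691_A00pm_012_s1 : ∃ t, chk3 f_A00pm_012_s1 t 1044 2031 1 = true := ex3_b t690_A00pm_012_s1 k57_A00pm_012_s1

theorem t692_A00pm_012_s1 : ∃ t, chk3 f_A00pm_012_s1 t 522 2031 1 = true := ex3_a t691_A00pm_012_s1 k58_A00pm_012_s1

theorem t693_A00pm_012_s1 : ∃ t, chk3 f_A00pm_012_s1 t 1045 4060 1 = true := ex3_a k51_A00pm_012_s1 k52_A00pm_012_s1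

theorem t694_A00pm_012_s1 : ∃ t, chk3 f_A00pm_012_s1 t 1045 2030 1 = true := ex3_b t693_A00pm_012_s1 k53_A00pm_012_s1

theorem t695_A00pm_012_s1 : ∃ t, chk3 f_A00pm_012_s1 t 1044 2030 1 = true := ex3_c k49_A00pm_012_s1 k50_A00pm_012_s1

theorem t696_A00pm_012_s1 : ∃ t, chk3 f_A00pm_012_s1 t 522 2030 1 = true := ex3_a t695_A00pm_012_s1 t694_A00pm_012_s1

theorem t697_A00pm_012_s1 : ∃ t, chk3 f_A00pm_012_s1 t 522 1015 1 = true := ex3_b t696_A00pm_012_s1 t692_A00pm_012_s1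

theorem t698_A00pm_012_s1 : ∃ t, chk3 f_A00pm_012_s1 t 522 1014 1 = true := ex3_b k47_A00pm_012_s1 k48_A00pm_012_s1

theorem t699_A00pm_012_s1 : ∃ t, chk3 f_A00pm_012_s1 t 522 507 1 = true := ex3_b t698_A00pm_012_s1 t697_A00pm_012_s1

theorem t700_A00pm_012_s1 : ∃ t, chk3 f_A00pm_012_s1 t 261 507 1 = true := ex3_a t699_A00pm_012_s1 t688_A00pm_012_s1

theorem t701_A00pm_012_s1 : ∃ t, chk3 f_A00pm_012_s1 t 2087 4063 1 = true := ex3_b k45_A00pm_012_s1 k46_A00pm_012_s1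

theorem t702_A00pm_012_s1 : ∃ t, chk3 f_A00pm_012_s1 t 2087 2031 1 = true := ex3_b k44_A00pm_012_s1 t701_A00pm_012_s1

theorem t703_A00pm_012_s1 : ∃ t, chk3 f_A00pm_012_s1 t 1043 2031 1 = true := ex3_a k43_A00pm_012_s1 t702_A00pm_012_s1

theorem t704_A00pm_012_s1 : ∃ t, chk3 f_A00pm_012_s1 t 521 2031 1 = true := ex3_a k42_A00pm_012_s1 t703_A00pm_012_s1

theorem t705_A00pm_012_s1 : ∃ t, chk3 f_A00pm_012_s1 t 521 1015 1 = true := ex3_b k41_A00pm_012_s1 t704_A00pm_012_s1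

theorem t706_A00pm_012_s1 : ∃ t, chk3 f_A00pm_012_s1 t 260 1015 1 = true := ex3_a k40_A00pm_012_s1 t705_A00pm_012_s1

theorem t707_A00pm_012_s1 : ∃ t, chk3 f_A00pm_012_s1 t 260 507 1 = true := ex3_b k39_A00pm_012_s1 t706_A00pm_012_s1

theorem t708_A00pm_012_s1 : ∃ t, chk3 f_A00pm_012_s1 t 130 507 1 = true := ex3_a t707_A00pm_012_s1 t700_A00pm_012_s1

theorem t709_A00pm_012_s1 : ∃ t, chk3 f_A00pm_012_s1 t 261 506 1 = true := ex3_a k37_A00pm_012_s1 k38_A00pm_012_s1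

theorem t710_A00pm_012_s1 : ∃ t, chk3 f_A00pm_012_s1 t 130 506 1 = true := ex3_a k36_A00pm_012_s1 t709_A00pm_012_s1

theorem t711_A00pm_012_s1 : ∃ t, chk3 f_A00pm_012_s1 t 130 253 1 = true := ex3_b t710_A00pm_012_s1 t708_A00pm_012_s1

theorem t712_A00pm_012_s1 : ∃ t, chk3 f_A00pm_012_s1 t 65 253 1 = true := ex3_a t711_A00pm_012_s1 t679_A00pm_012_s1

theorem t713_A00pm_012_s1 : ∃ t, chk3 f_A00pm_012_s1 t 263 505 1 = true := ex3_a k34_A00pm_012_s1 k35_A00pm_012_s1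

theorem t714_A00pm_012_s1 : ∃ t, chk3 f_A00pm_012_s1 t 131 505 1 = true := ex3_a k33_A00pm_012_s1 t713_A00pm_012_s1

theorem t715_A00pm_012_s1 : ∃ t, chk3 f_A00pm_012_s1 t 131 252 1 = true := ex3_b k32_A00pm_012_s1 t714_A00pm_012_s1

theorem t716_A00pm_012_s1 : ∃ t, chk3 f_A00pm_012_s1 t 65 252 1 = true := ex3_a k31_A00pm_012_s1 t715_A00pm_012_s1

theorem t717_A00pm_012_s1 : ∃ t, chk3 f_A00pm_012_s1 t 65 126 1 = true := ex3_b t716_A00pm_012_s1 t712_A00pm_012_s1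

theorem t718_A00pm_012_s1 : ∃ t, chk3 f_A00pm_012_s1 t 32 126 1 = true := ex3_a k30_A00pm_012_s1 t717_A00pm_012_s1

theorem t719_A00pm_012_s1 : ∃ t, chk3 f_A00pm_012_s1 t 32 63 1 = true := ex3_b t718_A00pm_012_s1 t669_A00pm_012_s1

theorem t720_A00pm_012_s1 : ∃ t, chk3 f_A00pm_012_s1 t 16 63 1 = true := ex3_a t719_A00pm_012_s1 t651_A00pm_012_s1

theorem t721_A00pm_012_s1 : ∃ t, chk3 f_A00pm_012_s1 t 67 62 1 = true := ex3_b k28_A00pm_012_s1 k29_A00pm_012_s1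

theorem t722_A00pm_012_s1 : ∃ t, chk3 f_A00pm_012_s1 t 66 62 1 = true := ex3_a k26_A00pm_012_s1 k27_A00pm_012_s1

theorem t723_A00pm_012_s1 : ∃ t, chk3 f_A00pm_012_s1 t 33 62 1 = true := ex3_a t722_A00pm_012_s1 t721_A00pm_012_s1

theorem t724_A00pm_012_s1 : ∃ t, chk3 f_A00pm_012_s1 t 16 62 1 = true := ex3_a k25_A00pm_012_s1 t723_A00pm_012_s1

theorem t725_A00pm_012_s1 : ∃ t, chk3 f_A00pm_012_s1 t 16 31 1 = true := ex3_b t724_A00pm_012_s1 t720_A00pm_012_s1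

theorem t726_A00pm_012_s1 : ∃ t, chk3 f_A00pm_012_s1 t 16 15 1 = true := ex3_b k24_A00pm_012_s1 t725_A00pm_012_s1

theorem t727_A00pm_012_s1 : ∃ t, chk3 f_A00pm_012_s1 t 8 15 1 = true := ex3_a t726_A00pm_012_s1 t646_A00pm_012_s1

theorem t728_A00pm_012_s1 : ∃ t, chk3 f_A00pm_012_s1 t 8 7 1 = true := ex3_b k23_A00pm_012_s1 t727_A00pm_012_s1

theorem t729_A00pm_012_s1 : ∃ t, chk3 f_A00pm_012_s1 t 4 7 1 = true := ex3_a t728_A00pm_012_s1 t478_A00pm_012_s1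

theorem t730_A00pm_012_s1 : ∃ t, chk3 f_A00pm_012_s1 t 38 27 3 = true := ex3_a k20_A00pm_012_s1 k21_A00pm_012_s1

theorem t731_A00pm_012_s1 : ∃ t, chk3 f_A00pm_012_s1 t 19 27 3 = true := ex3_a t730_A00pm_012_s1 k22_A00pm_012_s1

theorem t732_A00pm_012_s1 : ∃ t, chk3 f_A00pm_012_s1 t 9 27 3 = true := ex3_a k19_A00pm_012_s1 t731_A00pm_012_s1

theorem t733_A00pm_012_s1 : ∃ t, chk3 f_A00pm_012_s1 t 9 13 3 = true := ex3_b k18_A00pm_012_s1 t732_A00pm_012_s1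

theorem t734_A00pm_012_s1 : ∃ t, chk3 f_A00pm_012_s1 t 77 27 2 = true := ex3_b k15_A00pm_012_s1 k16_A00pm_012_s1

theorem t735_A00pm_012_s1 : ∃ t, chk3 f_A00pm_012_s1 t 38 27 2 = true := ex3_a k14_A00pm_012_s1 t734_A00pm_012_s1

theorem t736_A00pm_012_s1 : ∃ t, chk3 f_A00pm_012_s1 t 19 27 2 = true := ex3_a t735_A00pm_012_s1 k17_A00pm_012_s1

theorem t737_A00pm_012_s1 : ∃ t, chk3 f_A00pm_012_s1 t 9 27 2 = true := ex3_a k13_A00pm_012_s1 t736_A00pm_012_s1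

theorem t738_A00pm_012_s1 : ∃ t, chk3 f_A00pm_012_s1 t 9 13 2 = true := ex3_b k12_A00pm_012_s1 t737_A00pm_012_s1

theorem t739_A00pm_012_s1 : ∃ t, chk3 f_A00pm_012_s1 t 9 13 1 = true := ex3_c t738_A00pm_012_s1 t733_A00pm_012_s1

theorem t740_A00pm_012_s1 : ∃ t, chk3 f_A00pm_012_s1 t 9 6 1 = true := ex3_b k11_A00pm_012_s1 t739_A00pm_012_s1

theorem t741_A00pm_012_s1 : ∃ t, chk3 f_A00pm_012_s1 t 4 6 1 = true := ex3_a k10_A00pm_012_s1 t740_A00pm_012_s1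

theorem t742_A00pm_012_s1 : ∃ t, chk3 f_A00pm_012_s1 t 4 3 1 = true := ex3_b t741_A00pm_012_s1 t729_A00pm_012_s1

theorem t743_A00pm_012_s1 : ∃ t, chk3 f_A00pm_012_s1 t 2 3 1 = true := ex3_a t742_A00pm_012_s1 t412_A00pm_012_s1

theorem t744_A00pm_012_s1 : ∃ t, chk3 f_A00pm_012_s1 t 167 11 1 = true := ex3_b k6_A00pm_012_s1 k7_A00pm_012_s1

theorem t745_A00pm_012_s1 : ∃ t, chk3 f_A00pm_012_s1 t 83 11 1 = true := ex3_a k5_A00pm_012_s1 t744_A00pm_012_s1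

theorem t746_A00pm_012_s1 : ∃ t, chk3 f_A00pm_012_s1 t 41 11 1 = true := ex3_a k4_A00pm_012_s1 t745_A00pm_012_s1

theorem t747_A00pm_012_s1 : ∃ t, chk3 f_A00pm_012_s1 t 20 11 1 = true := ex3_a k3_A00pm_012_s1 t746_A00pm_012_s1

theorem t748_A00pm_012_s1 : ∃ t, chk3 f_A00pm_012_s1 t 20 5 1 = true := ex3_b k2_A00pm_012_s1 t747_A00pm_012_s1

theorem t749_A00pm_012_s1 : ∃ t, chk3 f_A00pm_012_s1 t 10 5 1 = true := ex3_a t748_A00pm_012_s1 k8_A00pm_012_s1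

theorem t750_A00pm_012_s1 : ∃ t, chk3 f_A00pm_012_s1 t 5 5 1 = true := ex3_a t749_A00pm_012_s1 k9_A00pm_012_s1

theorem t751_A00pm_012_s1 : ∃ t, chk3 f_A00pm_012_s1 t 5 2 1 = true := ex3_b k1_A00pm_012_s1 t750_A00pm_012_s1

theorem t752_A00pm_012_s1 : ∃ t, chk3 f_A00pm_012_s1 t 2 2 1 = true := ex3_a k0_A00pm_012_s1 t751_A00pm_012_s1

theorem t753_A00pm_012_s1 : ∃ t, chk3 f_A00pm_012_s1 t 2 1 1 = true := ex3_b t752_A00pm_012_s1 t743_A00pm_012_s1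

theorem t754_A00pm_012_s1 : ∃ t, chk3 f_A00pm_012_s1 t 1 1 1 = true := ex3_a t753_A00pm_012_s1 k377_A00pm_012_s1

theorem c_A00pm_012_s1 : CertF 0 536870912 536870912 536870912 1033476505 6710887 true true false .pnp 0 1 2
    ndB0q0 ndB0q1 pcB2 cut_A00pm_012_s1 xt_A00pm_012_s1 :=
  certF2 (fam := true) (s1 := true) (s2 := false) (a := 0) (b := 1) (c := 2) (cn := .pnp) (n1 := ndB0q0) (n2 := ndB0q1) (pc := pcB2) (cut := cut_A00pm_012_s1) (xt := xt_A00pm_012_s1) (P1 := 0) (W1 := 536870912) (P2 := 536870912) (W2 := 536870912) (P3 := 1033476505) (W3 := 6710887)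
    rfl (fun _ => rfl) t754_A00pm_012_s1

theorem s_A00pm_012_s1 {κ x : ℝ} (hκ : κ * h0 = ken x) (hx : ((1033476505 : ℕ) : ℝ) / S ≤ x)
    (hx' : x ≤ (((1033476505 : ℕ) : ℝ) + (6710887 : ℕ)) / S)
    (H : CutA (VFD κ) PP tK tL pcB (Cut.of [[⟨0, 0, 0, 16777216⟩, ⟨1, 1, 0, 16777216⟩, ⟨2, 1, 0, 16777216⟩]]) 0 1 2 0 0 (sgb true) (sgb false) x) :
    AltA (VFD κ) PP tK tL pcB [⟨3, 0, 0, 1449551462⟩] 0 1 2 0 0 (sgb true) (sgb false) x :=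
  strip_altAD (m := 1449551462) true rfl hκ (SH.κ0 hκ (SH.hx1 hx).le (SH.hx2 hx').le) (SH.hx1 hx).le (SH.hx2 hx') (covB00).cov (covB01).cov hx hx' c_A00pm_012_s1 H ((okx hx hx').extA (T := tt) (sideB hx hx') hκ rfl rfl (.O 0 true) (.O 1 false) rfl)

end Pool.Agent.Strip051.G.I9625_9688.Tab.St.C
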