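import Pool.Agent.Strip051.G.I9625_9688.StH
import Pool.Agent.Strip051.G.I9625_9688.StF

/-! # Unit strips 1 (generated) -/

set_option linter.all false
set_option maxRecDepth 100000

namespace Pool.Agent.Strip051.G.I9625_9688.Tab.St.C

open Pool.Agent.Strip051.PB Pool.Agent.Strip051.PB.T Pool.Agent.StripNear Pool.Agent.Strip051.LC
open Pool.Agent.Strip051.G.I9625_9688.Tab Pool.Agent.Strip051.G.I9625_9688.Tab.St

noncomputable def cut_B00pm_102_s1 : Cut := Cut.of [[⟨4, 0, 0, 1100585369⟩], [⟨0, 1, 0, 11184810⟩, ⟨1, 0, 0, 11184810⟩, ⟨2, 1, 0, 11184810⟩], [⟨0, 0, 1, 46137344⟩, ⟨1, 1, 2, 46137344⟩, ⟨2, 1, 0, 1048576⟩, ⟨0, 0, 0, 1047972020⟩, ⟨0, 1, 0, 45097156⟩, ⟨1, 0, 0, 45097156⟩, ⟨1, 1, 0, 1047972020⟩]]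

noncomputable def xt_B00pm_102_s1 : Ext := strExt dd false true false .u0 .u2 .u0m .npp 1 0 2 rfl rfl gf0 vv ndB0q1 ndB0q2

noncomputable def f_B00pm_102_s1 : ℕ → ℕ → ℕ → ℕ → Bool := onCell 536870912 536870912 0 536870912 1033476505 6710887
    (rowF 0 false true false .npp 1 0 2 (qsf 536870912 536870912 0 536870912 0) ndB0q1 ndB0q2 pcB0 cut_B00pm_102_s1 xt_B00pm_102_s1)

def k0_B00pm_102_s1 : ∃ t, chk3 f_B00pm_102_s1 t 2 1 1 = true :=
  ⟨(b (a (b (l 2) (l 6)) (b (a (a (b (l 532344335) (b (l 532581903) (l 532487183))) (b (l 3) (a (b (l 533454607) (l 533659663)) (b (l 3) (l 534368783))))) (a (b (l 3) (b (l 3) (l 535691535))) (l 3))) (a (b (a (l 6) (a (l 6) (l 534957839))) (l 6)) (b (a (a (l 535864847) (l 536125711)) (a (l 534813967) (b (l 3) (l 533663247)))) (a (l 6) (b (a (l 6) (l 532122639)) (l 6))))))) (l 6)), by decide +kernel⟩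

def k1_B00pm_102_s1 : ∃ t, chk3 f_B00pm_102_s1 t 3 2 1 = true :=
  ⟨(b (l 3) (a (a (a (b (a (b (l 3) (l 531756815)) (l 3)) (a (b (b (l 531183887) (l 530778639)) (l 6)) (b (b (a (l 529574159) (l 3)) (l 527773455)) (a (l 528473615) (l 527292431))))) (b (l 3) (b (a (b (l 3) (a (l 526768911) (l 3))) (l 3)) (a (a (l 526049807) (l 524745231)) (a (l 523378191) (l 521947407)))))) (l 3)) (l 3))), by decide +kernel⟩

def k2_B00pm_102_s1 : ∃ t, chk3 f_B00pm_102_s1 t 6 3 1 = true :=
  ⟨(b (a (b (a (l 6) (b (a (a (l 6) (l 6)) (a (l 522274063) (l 520812559))) (l 6))) (l 6)) (a (b (b (a (a (l 519287311) (l 517698063)) (a (l 516043535) (l 3))) (b (a (l 517528591) (l 514168591)) (a (l 6) (b (b (l 513718799) (l 513583119)) (a (l 6) (l 512753935)))))) (l 6)) (b (b (l 3) (a (a (b (a (l 511946255) (a (l 511257871) (l 3))) (a (b (b (l 511485199) (b (l 511384335) (l 511407375))) (l 511573519)) (b (b (a (l 510792719) (a (l 510318607) (l 510147855))) (a (l 510763791) (l 510400783))) (a (l 511109135) (l 510644751)))))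 (b (l 3) (b (b (l 3) (l 509218831)) (l 509522703)))) (b (l 3) (a (b (l 3) (l 507992079)) (l 3))))) (b (b (a (a (a (l 6) (l 511296015)) (l 510068239)) (a (l 508678415) (l 507641615))) (a (l 6) (a (l 509450767) (a (l 508785935) (l 508450319))))) (b (a (l 6) (l 6)) (l 6)))))) (l 6)), by decide +kernel⟩

def k3_B00pm_102_s1 : ∃ t, chk3 f_B00pm_102_s1 t 7 6 1 = true :=
  ⟨(b (l 3) (a (a (b (a (b (l 3) (a (a (l 508203791) (l 508046351)) (b (l 3) (l 508246543)))) (l 3)) (a (b (a (b (l 508705807) (b (l 508776207) (l 6))) (b (a (l 508620303) (b (l 508591375) (l 508678415))) (a (l 508465679) (b (l 508515087) (l 508196879))))) (a (l 6) (a (l 6) (b (b (l 507874319) (l 6)) (l 6))))) (b (a (b (a (b (l 3) (l 508739599)) (l 3)) (a (l 508297231) (l 508289039))) (l 3)) (a (b (a (l 507665167) (l 507667215)) (a (b (l 507191055) (l 6)) (b (l 507203087) (l 506895631)))) (b (a (l 507712783) (l 507796751)) (a (b (l 507256335) (l 506955023)) (b (l 507346703) (l 507049999)))))))) (a (b (l 3) (b (l 3) (b (l 3) (a (b (a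 (l 507468047) (l 3)) (b (a (l 507248143) (l 3)) (a (l 507102991) (a (a (l 507196687) (l 3)) (l 3))))) (l 3))))) (l 3))) (l 3))), by decide +kernel⟩

def k4_B00pm_102_s1 : ∃ t, chk3 f_B00pm_102_s1 t 28 14 1 = true :=
  ⟨(b (b (a (l 6) (a (l 6) (b (a (b (a (l 506640655) (l 506682895)) (l 6)) (b (c (l 506903823) (b (l 506687759) (l 506531087))) (c (l 506644751) (a (l 506277391) (l 506326799))))) (a (l 6) (a (l 6) (a (l 6) (b (l 506249743) (l 6)))))))) (l 6)) (l 6)), by decide +kernel⟩

def k5_B00pm_102_s1 : ∃ t, chk3 f_B00pm_102_s1 t 29 56 1 = true :=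
  ⟨(b (a (b (a (b (a (c (l 507119375) (a (l 506766863) (c (l 506912015) (l 506737679)))) (a (c (l 507249935) (a (b (l 506912271) (l 506834703)) (l 506906127))) (l 3))) (a (a (l 506784783) (a (l 506837775) (l 506874639))) (a (l 506931215) (l 507011343)))) (l 3)) (a (a (a (b (l 506643983) (l 506505487)) (a (l 506628367) (l 506665743))) (a (l 506723087) (l 506803727))) (a (a (l 506887183) (l 506972431)) (l 3)))) (l 3)) (a (a (a (c (a (l 506392079) (l 506478607)) (a (b (l 506084367) (l 6)) (b (l 506146575) (l 505860111)))) (a (b (l 506453263) (l 506193423)) (b (l 506534671) (l 506275855)))) (b (a (a (l 506618639) (l 506703887)) (a (l 506789391) (l 3))) (a (a (l 506360079) (l 506445327)) (c (l 506891535) (c (l 506406415) (a (l 506049295) (l 506111247))))))) (b (l 3) (a (a (a (b (l 3) (l 506631695)) (l 3)) (l 3)) (l 3))))), by decide +kernel⟩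

def k6_B00pm_102_s1 : ∃ t, chk3 f_B00pm_102_s1 t 29 57 1 = true :=
  ⟨(a (a (a (l 6) (b (b (a (l 505944335) (l 506027791)) (l 6)) (l 6))) (b (b (a (a (l 506112783) (l 506197775)) (c (l 506669071) (c (l 506144783) (a (l 505762831) (l 505823247))))) (a (c (l 506262799) (c (l 505743119) (l 505660175))) (a (l 506046479) (l 506127631)))) (a (l 6) (b (c (l 506261519) (b (l 505518607) (l 505397775))) (a (l 6) (l 505694735)))))) (a (a (b (a (l 506322703) (l 506396687)) (b (b (l 506067471) (l 505957391)) (a (l 505768207) (c (l 506301455) (l 505366543))))) (b (a (l 506465039) (a (l 506512911) (l 3))) (a (c (b (l 506569743) (l 506378255)) (b (b (l 505716239) (l 505590799)) (l 505409295))) (c (b (c (l 506878223) (l 506405647)) (l 506446607)) (b (b (l 505755151) (l 505627407)) (l 505442319)))))) (b (l 3) (a (b (b (l 3) (l 506169103)) (c (l 506526223) (l 505465871))) (b (l 3) (a (l 506030863) (l 3))))))), by decide +kernel⟩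

def k7_B00pm_102_s1 : ∃ t, chk3 f_B00pm_102_s1 t 29 29 1 = true :=
  ⟨(a (l 6) (a (b (b (b (a (a (l 6) (a (l 505622287) (l 505652239))) (c (a (l 506201615) (l 506265615)) (a (l 505180687) (l 505209103)))) (a (l 6) (a (c (l 506051855) (l 504980239)) (c (l 506113551) (l 505006095))))) (l 6)) (l 6)) (b (b (a (b (b (l 505834255) (c (l 506292239) (l 505165839))) (b (c (a (l 506195215) (l 506234895)) (l 505060367)) (a (l 505563663) (a (l 505584399) (l 505595407))))) (b (b (a (l 505860111) (l 3)) (b (a (l 505777679) (a (l 505774863) (l 3))) (a (l 505723919) (a (c (c (l 506615055) (l 506003983)) (l 505083663)) (c (c (l 506664463) (l 506043663)) (l 505109007)))))) (a (b (b (c (l 506278927) (l 505073167)) (c (l 506252047) (l 505034255))) (c (a (l 506217231) (l 506238223)) (l 504990991))) (a (b (a (b (l 505677071) (l 505654031)) (b (c (l 506300431) (l 505058319)) (l 505663503))) (c (l 506268431) (l 505003535))) (c (l 506328847) (l 505055503)))))) (a (b (a (c (l 506091023) (l 504899599)) (c (c (l 506450447)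 (l 505836815)) (l 504914191))) (a (l 6) (b (l 505490703) (l 6)))) (a (b (a (c (l 506183695) (l 504924943)) (c (l 506213391) (l 504935183))) (c (a (l 506165263) (l 506199311)) (l 504867343))) (b (a (c (l 506252303) (l 504954127)) (l 505645839)) (c (a (l 506238479) (l 506284815)) (a (l 504896015) (l 504922127))))))) (a (l 6) (a (l 6) (b (b (a (l 505538319) (l 505567503)) (l 6)) (l 6))))))), by decide +kernel⟩

def k8_B00pm_102_s1 : ∃ t, chk3 f_B00pm_102_s1 t 14 15 1 = true :=
  ⟨(l 6), by decide +kernel⟩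

def k9_B00pm_102_s1 : ∃ t, chk3 f_B00pm_102_s1 t 30 28 1 = true :=
  ⟨(l 3), by decide +kernel⟩

def k10_B00pm_102_s1 : ∃ t, chk3 f_B00pm_102_s1 t 60 58 1 = true :=
  ⟨(a (b (a (b (l 3) (c (a (l 506411535) (l 506500367)) (l 505128719))) (l 3)) (a (a (b (l 505701647) (b (l 505660943) (l 505635343))) (b (c (l 506449167) (l 505058831)) (b (l 505701903) (c (l 506392079) (l 504944399))))) (a (b (c (l 506496527) (l 505061903)) (b (c (l 506450191) (l 504980239)) (b (a (l 505686543) (a (l 505685519) (b (l 505687823) (l 505676815)))) (a (l 505667087) (c (c (l 506795791) (l 506040079)) (l 504906767)))))) (b (l 3) (a (a (b (l 505712399) (c (b (c (l 506815503) (l 506056719)) (l 506419215)) (b (c (l 505298191) (l 504539407)) (l 504889871)))) (b (a (a (c (l 506462991) (l 504955919)) (l 3)) (l 3)) (a (b (c (c (l 506817807) (l 506054415)) (b (l 504917007) (l 504902159))) (l 505649167)) (c (l 506426639) (l 504887567))))) (b (l 3) (c (c (b (l 506818831) (l 506802703)) (l 506033423)) (c (l 505255951) (l 504478735)))))))))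 (a (b (l 3) (a (b (l 3) (b (l 3) (a (b (l 3) (c (l 506400527) (l 504813839))) (l 3)))) (l 3))) (l 3))), by decide +kernel⟩

def k11_B00pm_102_s1 : ∃ t, chk3 f_B00pm_102_s1 t 120 59 1 = true :=
  ⟨(b (a (b (a (c (b (l 506324751) (l 506314255)) (l 504880655)) (b (c (a (l 506363919) (l 506380815)) (l 504900623)) (c (c (l 506727439) (l 505979919)) (l 504859663)))) (a (b (c (l 506372879) (l 504904463)) (l 6)) (b (c (a (l 506412047) (l 506431247)) (l 504908559)) (c (a (l 16661048) (l 506660879)) (l 505120015))))) (b (a (b (a (c (l 506391311) (l 504886031)) (c (a (l 506395407) (l 506395919)) (a (l 504872207) (l 504860687)))) (a (b (l 505610511) (l 505596687)) (c (b (l 506373391) (l 506364431)) (l 504815887)))) (b (a (a (c (l 506394639) (l 504847119)) (c (l 506391823) (l 504832015))) (c (l 506384399) (l 504805135))) (a (c (b (l 506368271) (l 506358799)) (b (l 504796431) (l 504775183))) (b (l 506094607) (c (l 506348047) (l 504738575)))))) (a (b (c (a (l 506446863) (b (l 506413327) (l 506518799))) (a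 (l 504900879) (l 504891151))) (c (a (l 506699535) (l 506742543)) (a (l 505147407) (l 505168399)))) (b (a (b (c (l 506418447) (l 504827407)) (c (l 506541839) (l 504947471))) (b (c (l 506425103) (l 504809231)) (c (l 506573839) (l 504956175)))) (a (c (l 507062543) (l 505198351)) (b (c (l 506760463) (l 505143055)) (l 507770639))))))) (a (l 6) (a (b (b (a (c (l 16669488) (l 16641816)) (c (l 507110159) (l 16676352))) (a (l 6) (c (l 16644584) (l 16637480)))) (l 6)) (b (b (a (b (l 506292751) (l 506504207)) (b (c (l 507189007) (l 16697640)) (c (l 16683200) (l 16678056)))) (a (c (l 16678536) (l 16651064)) (b (l 16692888) (l 16663352)))) (a (l 6) (b (c (l 16654192) (l 16647312)) (l 6))))))), by decide +kernel⟩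

def k12_B00pm_102_s1 : ∃ t, chk3 f_B00pm_102_s1 t 242 236 1 = true :=
  ⟨(a (b (a (c (c (l 506771215) (l 505968143)) (l 504764175)) (a (c (l 506355215) (l 504729359)) (l 3))) (b (a (c (l 506339343) (l 504715023)) (c (l 506315791) (l 504664079))) (a (b (c (l 506326031) (l 504692495)) (c (l 506346255) (l 504708367))) (b (b (c (l 506302479) (l 504642575)) (a (l 505481999) (l 505465871))) (a (l 505514511) (a (l 505515023) (b (l 505498127) (l 505549071)))))))) (b (l 3) (a (b (a (a (l 505463823) (l 3)) (l 3)) (a (a (b (b (l 505446415) (a (l 505458959) (b (l 505449487) (l 505473807)))) (a (b (l 505506831) (l 505567503)) (b (a (l 505516047) (l 505525007)) (l 505587983)))) (b (a (b (a (l 505439247) (b (l 3) (a (l 504622351) (b (l 505428495) (l 505440527))))) (a (b (l 505452559) (l 505484815)) (a (l 505480719) (l 505487375)))) (b (b (l 3) (b (l 3) (l 505470735))) (l 505517839))) (a (a (l 505574159) (l 505593871)) (l 505630223)))) (b (b (l 3) (l 505639439)) (l 505751311)))) (l 3)))), by decide +kernel⟩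

def k13_B00pm_102_s1 : ∃ t, chk3 f_B00pm_102_s1 t 242 237 1 = true :=
  ⟨(a (a (b (b (b (c (l 506403599) (l 504763663)) (l 505930511)) (a (l 505793551) (l 506629647))) (b (a (l 506004495) (b (l 505995279) (l 506114831))) (a (l 506233871) (l 506298639)))) (b (a (b (b (l 505862927) (l 505697039)) (b (l 505811727) (l 505933327))) (b (a (b (l 505614095) (l 505732623)) (b (b (l 505607695) (l 505670415)) (l 505768975))) (a (l 505925135) (l 505973263)))) (a (b (b (l 506059279) (l 506187535)) (l 506382095)) (b (a (l 506192143) (l 506249487)) (l 506491663))))) (a (a (b (a (b (b (a (l 505667343) (l 505694479)) (l 505821711)) (l 506035983)) (b (a (l 505805327) (l 505852687)) (l 506120207))) (a (l 506459151) (l 506545167))) (b (c (l 506953743) (l 505282063)) (l 506682383))) (b (c (b (l 507087887) (l 507368719)) (b (a (l 505321487) (l 505502479)) (l 505699599))) (c (l 507778575) (l 506118671))))), by decide +kernel⟩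

def k14_B00pm_102_s1 : ∃ t, chk3 f_B00pm_102_s1 t 243 118 1 = true :=
  ⟨(b (l 3) (a (a (b (b (l 3) (c (l 507715855) (l 506044431))) (c (l 508117263) (b (l 506319375) (l 506587663)))) (b (l 3) (c (l 508438543) (b (l 506638863) (l 506901775))))) (l 3))), by decide +kernel⟩

def k15_B00pm_102_s1 : ∃ t, chk3 f_B00pm_102_s1 t 121 119 1 = true :=
  ⟨(a (a (b (a (a (b (b (l 506471951) (l 16690624)) (l 507078415)) (b (b (l 506548495) (l 16718280)) (l 507173135))) (b (a (b (l 506642703) (l 16714480)) (b (l 506760719) (l 507025423))) (a (l 507282959) (l 507411727)))) (a (b (b (l 16668248) (l 16659936)) (l 16647680)) (b (b (l 16681608) (l 16673280)) (l 16661008)))) (b (b (a (b (a (l 506912015) (l 507089167)) (a (l 507177999) (l 507352335))) (b (l 507347471) (l 507605775))) (a (a (l 507564559) (l 507734031)) (b (l 507857423) (l 508102159)))) (b (a (b (l 508017935) (l 16686648)) (l 508456463)) (a (l 508598031) (l 508904463))))) (b (a (c (b (a (b (l 508504847) (l 508755471)) (b (c (l 509235471) (l 508402447))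 (l 509064207))) (a (l 509119247) (l 509420303))) (b (a (b (l 506849295) (l 507103759)) (a (b (l 507082767) (l 507333135)) (b (b (l 507169807) (l 507295503)) (l 507480591)))) (a (l 507472399) (l 507767055)))) (b (a (b (a (c (l 509045007) (b (c (l 507732495) (l 506901775)) (l 507441167))) (c (l 509191439) (l 507521551))) (l 508525071)) (b (l 3) (l 508803087))) (a (l 508875791) (l 509147407)))) (a (a (b (l 508758799) (l 509195023)) (b (l 509045775) (l 509471503))) (b (l 509449231) (l 509860367))))), by decide +kernel⟩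

def k16_B00pm_102_s1 : ∃ t, chk3 f_B00pm_102_s1 t 61 29 1 = true :=
  ⟨(b (l 3) (a (a (b (l 3) (b (a (b (l 3) (l 509532431)) (l 3)) (a (b (l 509955087) (l 510349071)) (l 510624527)))) (l 3)) (l 3))), by decide +kernel⟩

def k17_B00pm_102_s1 : ∃ t, chk3 f_B00pm_102_s1 t 31 14 1 = true :=
  ⟨(l 3), by decide +kernel⟩

def k18_B00pm_102_s1 : ∃ t, chk3 f_B00pm_102_s1 t 60 30 1 = true :=
  ⟨(b (a (l 6) (a (b (b (a (l 6) (b (l 509176079) (l 16670064))) (l 6)) (l 6)) (a (b (b (b (l 509734159) (l 510069775)) (b (l 16679464) (l 6))) (l 6)) (b (b (b (l 510242319) (l 510546959)) (b (l 510639631) (l 510603023))) (a (l 6) (b (l 510475535) (l 6))))))) (l 6)), by decide +kernel⟩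

def k19_B00pm_102_s1 : ∃ t, chk3 f_B00pm_102_s1 t 61 30 1 = true :=
  ⟨(a (b (a (b (b (b (a (l 510713615) (l 511157263)) (a (l 510979343) (a (l 511278095) (b (l 511452943) (l 511421711))))) (a (a (l 510876943) (a (l 510980623) (l 511039759))) (a (b (l 511198223) (l 511008783)) (b (a (l 511267087) (l 511292175)) (l 511042063))))) (a (b (a (c (l 16662528) (l 16654048)) (b (l 16678792) (l 16661224))) (l 6)) (a (b (b (l 16690376) (l 16672864)) (l 510179599)) (b (l 510657551) (l 510154255))))) (b (b (a (a (b (a (l 511430927) (b (l 3) (b (l 511576591) (a (l 511624463) (a (l 511702799) (l 511697935)))))) (a (b (b (l 511587343) (l 511561487)) (b (l 511513615) (l 16754232))) (b (a (b (l 511640335) (l 511585807)) (l 511601679)) (l 511477263)))) (b (b (l 3) (b (l 3) (a (l 511645199) (l 3)))) (l 511432719))) (b (l 3) (l 511180815))) (a (a (a (b (l 511295247) (l 511023887)) (l 511117839)) (l 511004175)) (l 510774799))) (a (a (b (l 510595087) (l 510089743)) (l 510219535)) (l 510046735)))) (b (a (l 6) (b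 (a (b (l 16647504) (l 6)) (l 509470223)) (l 6))) (l 6))) (b (b (a (b (l 3) (a (l 510504463) (l 3))) (l 3)) (a (a (l 509862159) (b (l 509890063) (l 509591567))) (a (b (l 509774607) (l 509563407)) (b (l 3) (l 509610511))))) (b (a (a (b (l 509399055) (l 509223439)) (b (l 509396751) (l 509331471))) (a (b (l 509473807) (l 509535759)) (b (l 509642511) (l 509851919)))) (b (a (a (l 6) (b (l 16648904) (l 6))) (a (l 509786895) (l 510283279))) (a (l 6) (a (l 6) (b (l 510785807) (a (l 6) (b (l 16664536) (l 6)))))))))), by decide +kernel⟩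

def k20_B00pm_102_s1 : ∃ t, chk3 f_B00pm_102_s1 t 30 31 1 = true :=
  ⟨(l 6), by decide +kernel⟩

def k21_B00pm_102_s1 : ∃ t, chk3 f_B00pm_102_s1 t 31 30 1 = true :=
  ⟨(a (b (l 3) (a (a (b (a (b (l 509917455) (l 510298383)) (b (l 3) (c (l 513094927) (l 508703247)))) (b (a (c (l 513192975) (l 508691727)) (c (l 514482959) (l 509363471))) (a (c (b (l 514061583) (l 16733144)) (b (l 509209103) (l 16671312))) (a (b (l 512423183) (l 513135375)) (b (l 513022735) (l 513829647)))))) (b (a (b (l 3) (c (l 514043407) (l 509315343))) (l 3)) (a (a (b (l 512579343) (c (b (l 516473103) (l 517538063)) (b (l 510915599) (l 16719152)))) (b (l 513180175) (c (b (l 517334031) (l 518521103)) (b (l 511548431) (l 512408847))))) (b (a (c (l 516630287) (l 511076367)) (a (l 514409743) (l 3))) (c (a (b (b (l 517984271) (l 518598927)) (a (l 519328271) (l 519899407))) (b (a (c (l 520624399) (l 517513743)) (c (b (l 520843791) (l 521592079)) (l 518035727))) (a (l 520499983) (l 521131791)))) (a (b (b (l 512040463) (l 512488207))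 (l 513235215)) (b (a (l 512852751) (l 513276431)) (a (l 513922319) (l 514412047))))))))) (a (b (l 3) (b (l 3) (b (a (a (c (c (l 522148111) (l 518869263)) (l 513956367)) (l 3)) (l 3)) (a (c (a (l 522138639) (l 523606543)) (a (l 515195919) (l 516350991))) (a (c (l 525229071) (l 517638671)) (l 3)))))) (l 3)))) (l 3)), by decide +kernel⟩

def k22_B00pm_102_s1 : ∃ t, chk3 f_B00pm_102_s1 t 248 124 1 = true :=
  ⟨(b (a (b (a (l 6) (b (l 16678400) (a (l 6) (a (l 6) (l 16677688))))) (l 6)) (a (b (l 513976079) (b (a (l 6) (a (b (l 16683960) (l 6)) (l 16707104))) (l 6))) (b (c (l 16712192) (l 16691952)) (b (l 16694560) (a (b (a (b (l 16686664) (l 6)) (l 16689536)) (l 6)) (b (l 16694616) (a (b (l 16691400) (l 6)) (l 16694320)))))))) (a (l 6) (b (a (l 6) (a (l 6) (a (l 6) (a (l 6) (a (l 6) (b (b (b (l 16694216) (l 6)) (l 6)) (l 6))))))) (l 6)))), by decide +kernel⟩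

def k23_B00pm_102_s1 : ∃ t, chk3 f_B00pm_102_s1 t 498 124 1 = true :=
  ⟨(b (c (a (b (l 16723896) (l 16717336)) (b (l 519889679) (l 16749936))) (a (b (l 16705632) (l 16693784)) (b (l 16718856) (l 16707512)))) (b (b (a (a (b (a (b (l 16696344) (a (l 16694608) (b (l 16696560) (l 16696128)))) (c (l 16713008) (l 16685616))) (b (a (l 6) (a (l 16697224) (b (l 16699152) (l 16698760)))) (l 16695520))) (b (l 16704320) (a (b (l 16701496) (a (l 16699896) (b (l 16701808) (l 16701440)))) (c (l 16718480) (l 16690536))))) (c (l 16726336) (l 16700448))) (a (a (l 6) (b (a (l 16699656) (b (a (l 16702632) (b (l 16704512) (l 16704184))) (l 16702816))) (l 16700088))) (a (b (a (a (b (l 16706040) (l 16705424)) (b (l 16707712) (c (l 16721784) (l 16692496)))) (c (l 16724176) (l 16695672))) (a (l 16705384) (b (a (l 16708272) (b (l 16710104) (l 16709856))) (l 16708600)))) (b (l 16714832) (a (b (c (l 16727088) (l 16697888)) (a (l 16711192) (b (l 16702512) (l 16712784)))) (b (l 16715768) (c (l 16730136) (l 16679664))))))))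 (a (l 6) (b (b (a (l 16716608) (a (l 16711384) (b (a (l 16714168) (b (a (l 16715536) (l 16716360)) (l 16715776))) (l 16714648)))) (c (l 16725496) (l 16692304))) (l 6))))), by decide +kernel⟩

def k24_B00pm_102_s1 : ∃ t, chk3 f_B00pm_102_s1 t 499 124 1 = true :=
  ⟨(b (a (a (c (l 521630735) (l 514757903)) (c (l 522325007) (l 515300367))) (c (a (l 523054351) (l 523821327)) (a (l 515873551) (l 516478991)))) (b (a (c (l 525678351) (b (l 16714056) (l 16710520))) (c (c (l 16753688) (l 16742304)) (c (l 16730928) (l 16719560)))) (a (b (a (b (a (b (c (l 16733248) (a (l 16702552) (l 16704328))) (a (l 16717216) (b (a (l 16718552) (l 16719376)) (l 16718832)))) (c (l 16736304) (b (l 16706968) (a (l 16705424) (l 16707192))))) (a (l 16717656) (b (a (l 16720328) (b (a (l 16721640) (l 16722456)) (l 16721960))) (l 16720976)))) (b (l 16726248) (a (a (b (c (l 16738936) (l 16687392)) (l 16723512)) (b (l 16725256) (b (c (l 16740688) (l 16709728)) (l 16725160)))) (a (b (l 16726856) (a (c (l 16741896) (l 16710920))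 (l 16727208))) (l 16728416))))) (a (c (l 16736160) (l 16701808)) (b (a (l 16734704) (b (a (l 16726768) (b (c (l 16744072) (l 16712784)) (l 16728424))) (l 16727600))) (c (l 16743112) (l 16708888))))) (b (c (l 16749320) (l 16721432)) (b (a (b (a (a (b (l 16730024) (c (l 16745800) (l 16714336))) (l 16731632)) (l 16733976)) (b (a (a (l 16730088) (c (l 16747536) (l 16715912))) (l 16734088)) (a (l 16730944) (a (c (l 16749304) (l 16717496)) (l 16734976))))) (l 16738656)) (b (a (a (l 16731024) (a (l 16744000) (b (c (l 16751080) (l 16719104)) (l 16735192)))) (b (l 16738976) (a (a (c (l 16752880) (l 16720736)) (l 16738368)) (l 16740672)))) (a (c (l 16749672) (l 16716080)) (b (a (a (l 16736936) (c (l 16754704) (l 16722376))) (l 16740864)) (a (l 16748368) (a (c (l 16756544) (l 16724040)) (l 16741840))))))))))), by decide +kernel⟩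

def k25_B00pm_102_s1 : ∃ t, chk3 f_B00pm_102_s1 t 124 125 1 = true :=
  ⟨(b (a (l 6) (b (a (l 6) (a (a (l 6) (b (c (l 16766096) (l 16708032)) (l 6))) (b (a (c (l 16772608) (l 16715616)) (a (c (l 16756320) (l 16721152)) (b (b (a (l 16751056) (b (c (l 16758408) (l 16725728)) (l 16742280))) (l 16752288)) (c (l 16760384) (l 16724800))))) (c (c (a (l 16765824) (l 16772176)) (l 16749248)) (a (l 16715704) (l 16723424)))))) (l 6))) (l 6)), by decide +kernel⟩

def k26_B00pm_102_s1 : ∃ t, chk3 f_B00pm_102_s1 t 125 248 1 = true :=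
  ⟨(a (a (b (c (a (l 524007183) (l 525677583)) (a (l 516639247) (l 517967887))) (a (c (l 527223055) (l 518316559)) (c (c (l 530105615) (l 525998863)) (l 519845135)))) (a (c (c (a (l 530349071) (l 531435535)) (a (l 526227983) (l 527215375))) (b (l 519449103) (l 521549327))) (c (a (c (l 532578319) (l 528255247)) (c (l 533780751) (l 529350927))) (a (l 521775887) (l 522711567))))) (b (l 3) (a (a (c (a (l 534406671) (l 535769615)) (a (l 525022223) (l 526143503))) (l 3)) (l 3)))), by decide +kernel⟩

def k27_B00pm_102_s1 : ∃ t, chk3 f_B00pm_102_s1 t 125 249 1 = true :=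
  ⟨(a (a (b (a (c (c (l 530694671) (l 16752392)) (l 520264463)) (c (c (l 534308623) (l 528586767)) (a (l 521568271) (l 522496783)))) (a (c (b (l 16769880) (l 16762240)) (c (l 16740344) (l 16726816))) (a (c (l 533263375) (l 524027151)) (c (l 534567695) (l 525096975))))) (a (c (a (b (l 532556303) (l 535941647)) (b (l 533821455) (l 537221135))) (b (a (l 523477263) (l 524513295)) (a (l 526227471) (l 527422223)))) (c (b (a (l 535154191) (l 536558607)) (a (c (l 537227279) (l 536357391)) (c (l 537255695) (l 537291535)))) (b (a (l 525607951) (l 526764815)) (a (l 528685583) (l 530021391)))))) (a (a (c (b (a (l 537214991) (l 537243663)) (a (c (l 537286159) (l 537320207)) (c (l 537318671) (l 537350671)))) (b (a (l 527988239) (l 529281807)) (a (l 531435023) (l 532930831)))) (c (b (a (l 537274127) (l 537306895)) (a (c (l 537353231) (l 537383439)) (b (l 537379343) (l 537159951)))) (b (a (l 530650639) (l 532099087)) (a (l 533172751) (c (l 537446927) (l 533263631)))))) (a (a (c (b (l 537073423) (c (b (l 537402895)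 (l 537454095)) (l 537455119))) (b (l 533632783) (c (l 537481999) (l 534957071)))) (b (l 3) (c (c (b (l 537443087) (l 537495567)) (l 537494287)) (c (l 537519375) (l 536753935))))) (b (l 3) (a (a (c (c (l 537501199) (l 537524495)) (l 537560079)) (c (c (l 537388815) (l 537545743)) (l 537579791))) (b (l 3) (c (c (l 537450767) (l 537605647)) (l 537636879)))))))), by decide +kernel⟩

def k28_B00pm_102_s1 : ∃ t, chk3 f_B00pm_102_s1 t 1000 500 1 = true :=
  ⟨(b (a (a (b (a (b (b (l 16743600) (c (l 16770776) (l 16706456))) (l 16754704)) (b (l 16745248) (b (c (l 16772688) (l 16708176)) (l 16745944)))) (c (l 16763368) (l 16728392))) (b (a (b (l 16746752) (a (b (l 16746816) (c (l 16763784) (l 16730472))) (c (l 16764176) (l 16731280)))) (l 16748528)) (b (a (l 16758448) (b (a (c (l 16765744) (l 16732240)) (c (l 16766424) (l 16733080))) (l 16749696))) (l 16759912)))) (b (l 16762656) (b (a (a (a (b (l 16750496) (c (l 16767720) (l 16734024))) (c (l 16768064) (l 16734800))) (l 16752536)) (l 16754712)) (b (a (a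 (l 16751608) (a (c (l 16769720) (l 16735832)) (c (l 16770384) (l 16736664)))) (l 16755352)) (a (l 16752760) (a (a (c (l 16771736) (l 16737656)) (c (l 16772400) (l 16738488))) (l 16756536))))))) (a (c (c (l 16778176) (l 16759248)) (l 16730888)) (a (c (l 16773192) (l 16736296)) (a (c (l 16775352) (l 16738936)) (b (b (b (a (c (l 16773784) (l 16739512)) (c (l 16774440) (l 16740336))) (l 16757472)) (l 16758200)) (c (l 16778392) (l 16741208))))))), by decide +kernel⟩

def k29_B00pm_102_s1 : ∃ t, chk3 f_B00pm_102_s1 t 1001 500 1 = true :=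
  ⟨(b (c (c (l 16778224) (l 16768712)) (l 16746088)) (b (b (a (a (a (a (b (l 16758112) (c (l 16775856) (l 16741384))) (c (l 16776104) (l 16721104))) (l 16760168)) (l 16762272)) (l 16776816)) (a (b (a (a (l 16759480) (a (c (l 16777952) (l 16743280)) (c (l 16778528) (l 16744096)))) (c (l 16778488) (l 16746096))) (a (l 16765992) (a (a (c (l 16778616) (l 16745192)) (c (l 16778552) (l 16746008))) (l 16764416)))) (l 16767536))) (b (b (a (a (l 16771776) (a (l 16763560) (a (c (l 16778648) (l 16747136)) (c (l 16778584) (l 16747944))))) (c (l 16778544) (l 16751472))) (a (c (l 16779360) (l 16745360)) (a (a (a (c (l 16778680) (l 16749104)) (c (l 16778616) (l 16749904))) (l 16768504)) (l 16770536)))) (a (c (l 16779864) (l 16745848)) (a (b (a (l 16767744) (a (c (l 16778712) (l 16751096)) (c (l 16778640) (l 16751888)))) (l 16769136)) (a (b (l 16767960) (a (c (l 16778736) (l 16753104)) (c (l 16778672) (l 16753896)))) (c (l 16778624) (l 16754832)))))))), by decide +kernel⟩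

def k30_B00pm_102_s1 : ∃ t, chk3 f_B00pm_102_s1 t 500 501 1 = true :=
  ⟨(a (b (c (c (a (l 16762968) (l 16761664)) (l 16778520)) (a (l 16732944) (l 16740544))) (a (l 6) (c (c (l 16764160) (l 16778864)) (l 16744456)))) (b (a (c (c (l 16770896) (l 16777680)) (c (l 16757776) (l 16737888))) (a (c (c (l 16759504) (l 16780664)) (l 16753064)) (b (a (c (l 16779480) (l 16754616)) (b (b (a (c (l 16778768) (l 16755144)) (c (l 16778704) (l 16755936))) (l 16774208)) (l 16775392))) (c (l 16780600) (l 16757536))))) (a (c (c (c (l 16762816) (l 16741992)) (l 16742208)) (l 16752232)) (c (c (l 16772152) (l 16761912)) (c (l 16770504) (l 16748832)))))), by decide +kernel⟩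

def k31_B00pm_102_s1 : ∃ t, chk3 f_B00pm_102_s1 t 1002 250 1 = true :=
  ⟨(a (b (c (c (l 537255695) (l 16778264)) (l 529423375)) (b (a (b (a (b (c (b (l 16778664) (a (l 16778800) (l 16778736))) (b (l 16757088) (a (l 16757208) (l 16757992)))) (l 16776824)) (b (c (l 16778680) (l 16758872)) (b (a (c (l 16778832) (l 16759304)) (c (l 16778768) (l 16760080))) (l 16778656)))) (c (l 16780016) (l 16760872))) (a (b (b (l 16777848) (c (b (l 16778728) (a (l 16778864) (l 16778792))) (b (l 16761216) (a (l 16761416) (l 16741216))))) (c (l 16779584) (l 16763296))) (b (c (l 16778712) (l 16762408)) (b (b (a (c (l 16778896) (l 16763560)) (c (l 16778824) (l 16743352))) (l 16779272)) (l 16774512))))) (c (c (c (l 16770936) (l 16760544)) (l 16760696)) (c (l 16777192) (l 16756216))))) (b (c (c (l 537282831) (l 16778400)) (l 529193487)) (b (a (b (l 16778800) (a (b (c (b (l 16778792) (a (l 16778928) (l 16778856))) (b (l 16765440) (a (l 16765736) (l 16745520)))) (l 16774216)) (b (c (l 16778808) (l 16767248)) (b (a (c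 (l 16778960) (l 16767928)) (c (l 16778888) (l 16747712))) (l 16779328))))) (b (l 16778784) (a (b (l 16778896) (b (c (l 16778856) (l 16769776)) (a (c (l 16778992) (l 16770160)) (b (l 16773752) (c (l 16778944) (l 16771096)))))) (c (l 16778840) (l 16770824))))) (b (c (a (l 16780104) (b (a (l 16779392) (b (c (b (l 16778896) (l 16778984)) (l 16779056)) (l 16779272))) (l 16779856))) (a (l 16770096) (b (a (l 16771664) (b (c (l 16779168) (a (l 16762992) (l 16763776))) (l 16773576))) (l 16774040)))) (c (c (l 16780936) (l 16781104)) (l 16775080)))))), by decide +kernel⟩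

def k32_B00pm_102_s1 : ∃ t, chk3 f_B00pm_102_s1 t 1003 250 1 = true :=
  ⟨(b (c (a (c (l 537312271) (l 16773120)) (c (l 537343503) (l 537376783))) (a (b (l 16764696) (l 16767880)) (c (l 16776696) (l 530989327)))) (b (c (c (l 16778672) (l 16778760)) (c (l 16778848) (l 16767104))) (a (b (a (a (b (b (c (l 16778920) (l 16774224)) (a (c (l 16779064) (l 16774696)) (b (l 16776432) (c (l 16779016) (l 16775640))))) (c (l 16779448) (l 16776328))) (b (c (l 16778936) (l 16776048)) (b (c (c (b (l 16778960) (l 16779048)) (l 16779120)) (c (l 16779224) (a (l 16767472) (l 16768240)))) (l 16779448)))) (b (l 16779008) (c (a (b (l 16778992) (c (b (l 16779000) (l 16779088)) (l 16779152))) (l 16779000)) (a (b (l 16778784) (c (l 16779256) (a (l 16769752) (l 16770520)))) (l 16779200))))) (c (b (a (l 16779912) (a (l 16779512) (b (c (b (l 16779032) (l 16779120)) (l 16779184)) (l 16779400)))) (l 16774984)) (a (l 16779824) (b (a (l 16779744) (b (c (l 16779280) (a (l 16772064) (l 16772824))) (l 16779616))) (l 16780216)))))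 (b (c (l 16778928) (l 16779104)) (a (a (b (c (b (l 16779056) (c (b (l 16779064) (l 16779160)) (l 16779216))) (b (l 16779248) (c (l 16779312) (b (l 16774576) (l 16775000))))) (c (l 16779576) (l 16779792))) (b (c (l 16779072) (l 16779256)) (b (c (c (b (l 16779104) (l 16779192)) (l 16779248)) (c (l 16779344) (b (l 16776936) (l 16777384)))) (l 16779568)))) (b (l 16779128) (c (b (l 16779120) (a (c (b (l 16779136) (l 16779232)) (l 16779280)) (l 16779160))) (a (b (l 16779304) (a (l 16779456) (l 16768888))) (l 16779312))))))))), by decide +kernel⟩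

def k33_B00pm_102_s1 : ∃ t, chk3 f_B00pm_102_s1 t 250 251 1 = true :=
  ⟨(a (a (l 6) (b (b (a (l 6) (c (c (b (l 16763424) (l 16764544)) (l 16764296)) (l 16766312))) (l 6)) (l 6))) (b (a (b (a (c (c (c (l 16762736) (l 16762864)) (l 16763064)) (l 16763440)) (c (c (b (l 16761104) (l 16772696)) (l 16772368)) (c (l 16741128) (l 16769648)))) (a (c (c (b (l 16764432) (l 6)) (l 16765280)) (l 16783208)) (c (c (b (l 16773768) (l 16774792)) (b (l 16763544) (l 16764600))) (c (l 16764352) (l 16778136))))) (b (a (c (c (b (l 16770520) (l 16771608)) (l 16771240)) (c (l 16760928) (l 16776736))) (b (c (b (a (l 16780016) (b (a (l 16779496) (c (b (l 16779176) (l 16779264)) (l 16779312))) (l 16779656))) (l 16775080)) (a (l 16780552) (a (l 16780144) (a (l 16769432) (b (b (l 16779408) (l 16779656)) (l 16780096)))))) (c (c (l 16775824) (l 16781216)) (l 16760464)))) (a (c (c (b (l 16772664) (l 16773688)) (b (l 16762400) (l 16763448))) (b (l 16762728) (l 16763816))) (c (c (b (l 16776872) (c (l 16772584) (l 16762200)))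 (b (l 16761320) (l 16762352))) (c (l 16762032) (l 16741248)))))) (a (a (l 6) (a (l 6) (b (b (c (l 16775648) (l 16785904)) (l 6)) (l 6)))) (a (b (c (a (b (l 16775080) (l 6)) (b (l 16774520) (l 16775464))) (c (l 16765096) (l 16743832))) (l 6)) (b (b (c (c (c (l 16773536) (l 16763168)) (l 16763344)) (l 16763688)) (c (c (c (l 16774456) (l 16774584)) (l 16764288)) (l 16764672))) (b (c (c (c (l 16775328) (l 16775464)) (l 16775664)) (l 16775232)) (l 6))))))), by decide +kernel⟩

def k34_B00pm_102_s1 : ∃ t, chk3 f_B00pm_102_s1 t 251 250 1 = true :=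
  ⟨(a (a (c (c (a (b (l 537377039) (l 537469199)) (b (l 537412367) (b (l 16778568) (l 16778880)))) (a (b (l 537408271) (l 537497871)) (b (l 537441807) (l 537534479)))) (a (c (l 537215503) (b (l 532546831) (l 537000719))) (b (c (l 537471503) (l 534198031)) (l 537306895)))) (b (c (a (c (l 537449999) (l 537477647)) (c (b (l 537464335) (l 537514767)) (l 537515535))) (a (c (l 537505551) (l 535949071)) (l 537554703))) (c (a (c (b (l 16778504) (l 16778824)) (l 537573391)) (c (a (l 537579791) (l 537601551)) (l 537614351))) (a (l 537611535) (l 537649679))))) (c (a (b (a (c (b (l 537505551) (l 537557263)) (l 537555727)) (c (b (l 537548559) (l 537601807)) (l 537597711))) (a (c (a (l 537623823) (l 537646351)) (l 537657103)) (c (a (l 537669647) (l 537693199)) (l 537701903)))) (a (b (c (a (l 537608975) (l 537632271)) (a (l 537629967) (l 537652495))) (c (a (l 537717519) (l 537742095)) (l 537614351))) (b (a (l 537665807) (l 537689615)) (c (a (l 537767183) (l 537792783)) (l 537662991))))) (a (a (b (l 537592079)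 (l 537689871)) (b (c (l 537620239) (l 537642767)) (l 537732111))) (a (b (c (l 537662479) (l 537683471)) (l 537507855)) (b (l 537716495) (l 537554191)))))), by decide +kernel⟩

def k35_B00pm_102_s1 : ∃ t, chk3 f_B00pm_102_s1 t 502 1004 1 = true :=
  ⟨(a (a (a (b (c (b (b (l 16779192) (a (a (l 16779336) (b (l 16779224) (l 16779288))) (l 16779232))) (a (l 16779704) (b (a (l 16779376) (b (l 16779256) (l 16779328))) (l 16779592)))) (b (a (b (l 16779368) (a (l 16779520) (l 16779432))) (l 16779376)) (a (l 16779896) (a (l 16779688) (b (l 16779464) (l 16779720)))))) (c (c (l 16780336) (l 16780448)) (l 16780624))) (b (b (l 16779248) (c (b (c (l 16779216) (l 16779296)) (a (a (l 16779408) (b (l 16779288) (l 16779360))) (l 16779296))) (b (l 16779416) (a (c (l 16779496) (l 16769096)) (l 16779456))))) (c (b (b (a (l 16779632) (a (l 16779448) (b (l 16779328) (l 16779400)))) (l 16779776)) (l 16780176)) (b (a (l 16779952) (b (c (l 16779528) (l 16779608)) (l 16779840))) (l 16780384))))) (c (b (l 16779176) (b (a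 (b (c (l 16779288) (l 16779368)) (b (a (a (l 16779416) (l 16779360)) (l 16779336)) (a (l 16779488) (l 16779376)))) (l 16779304)) (a (b (a (l 16779696) (a (l 16779512) (b (l 16779392) (l 16779472)))) (l 16779840)) (b (c (a (l 16779368) (l 16779336)) (l 16779432)) (a (a (l 16779552) (b (l 16779432) (l 16779504))) (c (l 16779400) (l 16779472))))))) (b (l 16779320) (a (b (a (b (l 16779488) (c (l 16779560) (l 16779640))) (l 16779496)) (b (a (l 16779864) (c (l 16779592) (l 16779672))) (l 16780016))) (b (l 16779440) (a (b (l 16779544) (c (l 16779624) (l 16779696))) (l 16779552))))))) (c (a (c (l 16779184) (l 16779240)) (c (l 537566223) (l 16779160))) (c (l 16779264) (l 16779320)))), by decide +kernel⟩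

def k36_B00pm_102_s1 : ∃ t, chk3 f_B00pm_102_s1 t 1004 1005 1 = true :=
  ⟨(c (b (a (c (l 16775888) (l 16781264)) (b (a (l 16780232) (b (a (l 16779760) (a (l 16779584) (b (l 16779464) (l 16779544)))) (l 16779904))) (c (l 16780456) (l 16780560)))) (c (a (l 16776880) (c (l 16775912) (l 16770736))) (a (l 16771800) (l 16770824)))) (a (c (l 16771448) (l 16761112)) (b (b (a (l 16780432) (b (a (l 16779920) (l 16779688)) (l 16780072))) (l 16780720)) (l 16771016)))), by decide +kernel⟩

def k37_B00pm_102_s1 : ∃ t, chk3 f_B00pm_102_s1 t 1005 2010 1 = true :=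
  ⟨(c (a (b (a (b (c (a (l 16779440) (l 16779400)) (l 16779496)) (b (a (a (l 16779560) (l 16779504)) (l 16779472)) (a (l 16779632) (c (l 16779480) (l 16779552))))) (l 16779432)) (a (b (a (l 16779824) (a (l 16779656) (b (a (l 16779536) (l 16779520)) (l 16779608)))) (l 16779968)) (b (c (a (b (l 16779472) (a (l 16779520) (l 16779496))) (l 16779472)) (l 16779568)) (b (a (c (a (l 16779600) (l 16779536)) (l 16779632)) (l 16779544)) (a (l 16779696) (c (a (l 16779560) (l 16779528)) (l 16779616))))))) (l 16779432)) (a (a (b (a (b (l 16779608) (c (l 16779688) (l 16779760))) (l 16779616)) (b (a (l 16779976) (c (l 16779720) (l 16779784))) (l 16780128))) (b (l 16779560) (a (b (l 16779672) (b (l 16779736) (l 16779832))) (l 16779680)))) (l 16779544))), by decide +kernel⟩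

def k38_B00pm_102_s1 : ∃ t, chk3 f_B00pm_102_s1 t 1005 2011 1 = true :=
  ⟨(a (a (c (c (l 16780528) (l 16780624)) (l 16780768)) (c (b (b (a (l 16779888) (a (l 16779728) (b (a (l 16779608) (l 16779592)) (l 16779680)))) (l 16780024)) (l 16777760)) (b (b (a (l 16780032) (b (l 16779760) (l 16779864))) (l 16780176)) (l 16780552)))) (c (b (a (b (a (c (b (l 16779544) (a (l 16779592) (l 16779568))) (l 16779640)) (l 16779568)) (a (b (c (a (l 16779672) (l 16779608)) (l 16779704)) (l 16779768)) (c (b (l 16779576) (a (l 16779632) (l 16779600))) (l 16779672)))) (l 16779568)) (a (b (a (l 16779952) (b (a (l 16779736) (c (l 16779648) (l 16779704))) (l 16779800))) (l 16780088)) (b (a (c (b (l 16779616) (a (c (l 16779648) (l 16779680)) (l 16779640))) (l 16779704)) (l 16779640)) (a (b (a (l 16779768) (c (c (l 16779664) (l 16779696)) (l 16779736))) (l 16779840)) (c (b (l 16779648) (a (c (l 16779688) (l 16779712)) (l 16779672))) (l 16779736)))))) (b (a (b (l 16779720) (a (b (l 16779792) (l 16779896)) (l 16779760)))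 (l 16779672)) (a (b (a (l 16780088) (b (l 16779824) (l 16779928))) (l 16780224)) (b (l 16779784) (a (b (l 16779856) (l 16779960)) (l 16779824))))))), by decide +kernel⟩

def k39_B00pm_102_s1 : ∃ t, chk3 f_B00pm_102_s1 t 502 503 1 = true :=
  ⟨(a (b (a (c (c (b (c (l 16772544) (l 16772640)) (c (l 16773448) (l 16773552))) (b (l 16772776) (l 16773712))) (b (l 16773064) (c (l 16763440) (l 16742688)))) (b (c (c (c (l 16776848) (l 16771680)) (l 16771792)) (l 16772016)) (c (c (c (l 16777736) (l 16772584)) (l 16772712)) (l 16772976)))) (a (c (c (b (c (l 16774304) (l 16774424)) (c (l 16775112) (l 16775248))) (b (l 16774600) (l 16775440))) (c (b (l 16764352) (l 16764840)) (l 16764664))) (c (b (c (a (l 16773624) (l 16778392)) (l 16773584)) (c (c (a (l 16774376) (l 16773896)) (l 16774248)) (l 16774408))) (c (b (l 16763296) (l 16764144)) (b (l 16763496) (l 16764368)))))) (a (b (c (c (a (b (l 16776216) (l 16777096)) (b (l 16775784) (l 16776664))) (b (l 16776112) (l 16777016))) (c (b (l 16781464) (l 16761424))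 (l 16771576))) (a (b (c (c (l 16777936) (l 16783352)) (l 16773120)) (c (c (l 16778728) (l 16773680)) (l 16773968))) (c (c (b (l 16777496) (l 16778280)) (b (l 16782888) (l 16773208))) (c (l 16772976) (l 16762656))))) (b (b (b (c (a (c (l 16780392) (l 16780472)) (b (a (l 16780016) (b (a (l 16779808) (c (c (l 16779704) (l 16779728)) (l 16779768))) (l 16779872))) (l 16780144))) (a (l 16780592) (b (a (l 16780144) (b (l 16779888) (l 16779984))) (l 16780280)))) (c (c (c (l 16780616) (l 16780664)) (l 16780720)) (l 16780848))) (c (c (c (a (l 16781464) (l 16781064)) (l 16776072)) (l 16776144)) (c (l 16771008) (l 16781592)))) (c (c (a (b (l 16777072) (l 16777848)) (b (c (l 16781880) (l 16781936)) (c (l 16782640) (l 16782712)))) (b (l 16776992) (c (l 16772504) (l 16772576)))) (c (b (l 16771872) (l 16772688)) (b (l 16761512) (l 16762352))))))), by decide +kernel⟩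

def k40_B00pm_102_s1 : ∃ t, chk3 f_B00pm_102_s1 t 503 502 1 = true :=
  ⟨(a (c (a (a (b (l 537711375) (l 537762575)) (b (l 537734415) (l 537786383))) (a (b (l 537758223) (l 537810959)) (b (l 537782543) (l 537835535)))) (a (b (l 16779136) (l 16779544)) (b (l 537807631) (l 16779424)))) (a (c (a (b (l 537807119) (l 537860879)) (b (l 537832207) (l 537886479))) (c (l 537872143) (l 537888527))) (c (a (b (l 537857807) (l 537912847)) (b (l 537883919) (l 537939215))) (c (l 537921551) (l 537936399))))), by decide +kernel⟩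

def k41_B00pm_102_s1 : ∃ t, chk3 f_B00pm_102_s1 t 2012 503 1 = true :=
  ⟨(a (b (b (c (b (b (a (a (a (b (l 16779720) (a (l 16779768) (l 16779760))) (l 16779736)) (l 16779720)) (l 16779704)) (a (a (l 16779896) (b (a (a (l 16779784) (l 16779776)) (l 16779768)) (l 16779856))) (a (b (l 16779752) (a (a (l 16779800) (l 16779792)) (l 16779784))) (l 16779752)))) (a (l 16780184) (b (a (l 16779928) (b (a (a (l 16779816) (l 16779808)) (l 16779800)) (l 16779888))) (l 16780104)))) (b (b (l 16779840) (a (b (l 16779912) (l 16780016)) (l 16779880))) (b (a (l 16780200) (b (l 16779944) (l 16780048))) (l 16780328)))) (c (c (c (l 16780680) (l 16780720)) (l 16780776)) (l 16780896))) (b (c (c (a (l 16781608) (l 16781416)) (l 16781616)) (l 16771280)) (c (c (c (l 16782248) (l 16782304)) (l 16782392)) (l 16772096)))) (b (b (c (b (l 16779696) (a (b (a (b (l 16779784) (a (a (l 16779840) (l 16779824)) (l 16779816))) (l 16779784)) (a (l 16779960) (b (a (a (l 16779856) (l 16779840)) (l 16779832)) (l 16779928)))) (b (l 16779768)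 (a (b (l 16779816) (a (b (l 16779848) (l 16779888)) (l 16779848))) (l 16779816))))) (b (l 16779792) (b (a (l 16779912) (l 16779864)) (a (b (l 16779976) (l 16780080)) (l 16779944))))) (a (c (c (l 16780424) (l 16780488)) (l 16780584)) (c (b (b (a (l 16779992) (b (a (b (l 16779864) (l 16779904)) (l 16779872)) (l 16779960))) (l 16780168)) (l 16780480)) (b (b (b (l 16780008) (l 16780104)) (l 16780280)) (l 16780608))))) (b (c (c (a (l 16781232) (l 16781048)) (l 16781224)) (l 16776104)) (c (c (c (l 16781864) (l 16781920)) (l 16782000)) (l 16776912))))), by decide +kernel⟩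

def k42_B00pm_102_s1 : ∃ t, chk3 f_B00pm_102_s1 t 2013 503 1 = true :=
  ⟨(b (c (b (c (l 16779656) (l 16779696)) (b (a (a (a (b (b (l 16779848) (a (b (l 16779880) (l 16779920)) (l 16779888))) (l 16780032)) (b (l 16779848) (b (a (b (l 16779896) (l 16779936)) (l 16779904)) (l 16779992)))) (b (l 16779832) (a (b (l 16779880) (c (a (l 16779912) (l 16779896)) (l 16779952))) (l 16779888)))) (l 16779824)) (a (a (l 16780296) (b (a (l 16780064) (b (c (a (l 16779928) (l 16779912)) (l 16779968)) (l 16780024))) (l 16780224))) (a (b (b (l 16779912) (a (c (c (b (l 16777296) (l 16779936)) (l 16779952)) (l 16779984)) (l 16779928))) (b (a (l 16780040) (a (b (l 16779968) (l 16780008)) (a (l 16779968) (l 16779960)))) (l 16780104))) (b (l 16779896) (b (l 16779944) (a (a (b (l 16779984) (l 16780024)) (a (l 16779984) (l 16779976))) (l 16779968)))))))) (b (l 16779760) (b (a (b (a (l 16779976) (l 16779920)) (a (b (l 16780032) (l 16780136)) (l 16780000))) (l 16779904)) (a (b (a (l 16780304) (b (a (l 16780104) (l 16780032))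 (l 16780168))) (l 16780424)) (b (a (l 16780032) (l 16779976)) (a (b (a (l 16780136) (l 16780064)) (l 16780192)) (l 16780064))))))) (a (b (c (c (c (l 16778136) (l 16780792)) (l 16780848)) (l 16780952)) (c (c (c (l 16781504) (l 16781544)) (l 16781616)) (l 16776504))) (c (b (b (a (l 16780352) (b (b (a (l 16780072) (a (b (l 16780000) (l 16780040)) (b (l 16779984) (l 16780008)))) (l 16780136)) (l 16780280))) (c (l 16780624) (l 16780688))) (c (c (l 16778536) (l 16781192)) (l 16781248))) (b (b (b (a (l 16780352) (b (a (l 16780160) (l 16780096)) (l 16780224))) (l 16780472)) (l 16780776)) (l 16776120))))), by decide +kernel⟩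

def k43_B00pm_102_s1 : ∃ t, chk3 f_B00pm_102_s1 t 1007 1006 1 = true :=
  ⟨(a (c (c (b (l 16779544) (l 16779776)) (l 16779696)) (l 537957903)) (c (c (b (l 16779408) (l 16779648)) (l 537719823)) (l 538008335))), by decide +kernel⟩

def k44_B00pm_102_s1 : ∃ t, chk3 f_B00pm_102_s1 t 1007 2014 1 = true :=
  ⟨(c (a (a (b (a (b (b (l 16779976) (a (a (b (l 16780016) (l 16780056)) (b (l 16780000) (l 16780024))) (l 16780000))) (b (a (l 16780104) (a (b (l 16780032) (l 16780072)) (b (l 16780016) (l 16780040)))) (l 16780168))) (b (l 16779960) (a (b (l 16780016) (a (b (l 16780048) (l 16780088)) (b (l 16780032) (l 16780056)))) (l 16780016)))) (a (l 16780408) (b (a (l 16780184) (b (a (b (l 16780064) (l 16780104)) (b (l 16780048) (l 16780072))) (l 16780152))) (l 16780336)))) (b (l 16779944) (b (a (a (b (l 16780048) (a (b (l 16780080) (l 16780120)) (b (l 16780064) (l 16780088)))) (l 16780048)) (l 16780024)) (a (a (l 16780216) (b (c (b (l 16780072) (a (l 16780120) (l 16780088))) (l 16780128)) (l 16780184)))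 (a (b (l 16780080) (c (b (l 16780088) (a (l 16780136) (l 16780104))) (l 16780144))) (l 16780080)))))) (c (l 16779888) (l 16779920))) (a (b (a (a (b (l 16780088) (b (a (l 16780192) (l 16780120)) (l 16780248))) (c (l 16780072) (l 16780112))) (l 16780016)) (a (b (a (l 16780400) (a (l 16780272) (b (l 16780152) (l 16780232)))) (l 16780512)) (b (a (b (l 16780112) (l 16780160)) (l 16780088)) (a (a (l 16780296) (b (l 16780176) (l 16780264))) (b (l 16780136) (l 16780184)))))) (l 16779968))), by decide +kernel⟩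

def k45_B00pm_102_s1 : ∃ t, chk3 f_B00pm_102_s1 t 1007 2015 1 = true :=
  ⟨(a (a (c (c (c (l 16778208) (l 16780864)) (l 16780904)) (l 16775752)) (b (c (a (c (l 16780432) (l 16780480)) (b (a (l 16780248) (b (c (b (l 16780104) (a (l 16780152) (l 16780120))) (l 16780152)) (l 16780216))) (l 16780392))) (a (l 16780544) (b (a (l 16780328) (b (l 16780208) (l 16780288))) (l 16780472)))) (c (c (l 16780704) (l 16780760)) (l 16780832)))) (c (b (a (b (a (a (b (l 16780112) (c (b (l 16780120) (a (l 16780168) (l 16780136))) (l 16780168))) (l 16780112)) (l 16780080)) (a (a (l 16780280) (b (c (b (l 16780136) (a (l 16780184) (l 16780152))) (l 16780184)) (l 16780248))) (a (b (l 16780144) (c (b (l 16780152) (a (l 16780200) (l 16780168))) (l 16780200))) (l 16780136)))) (l 16780064)) (a (a (c (l 16780480) (l 16780520)) (b (a (l 16780304) (b (c (b (l 16780168) (a (l 16780216) (l 16780184))) (l 16780216)) (l 16780280))) (l 16780440))) (b (a (a (b (l 16780168) (c (b (l 16780184) (a (l 16780232) (l 16780200))) (l 16780232)))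 (l 16780168)) (l 16780144)) (a (a (l 16780336) (b (c (b (l 16780200) (a (l 16780240) (l 16780216))) (l 16780248)) (l 16780304))) (a (b (l 16780200) (c (b (l 16780216) (a (l 16780256) (l 16780232))) (l 16780256))) (l 16780200)))))) (b (a (a (b (b (l 16780168) (l 16780216)) (a (l 16780352) (b (l 16780232) (l 16780320)))) (b (l 16780144) (b (l 16780192) (l 16780240)))) (l 16780120)) (a (a (l 16780584) (b (a (l 16780376) (b (l 16780264) (l 16780344))) (l 16780520))) (c (b (a (l 16780240) (l 16780184)) (a (b (l 16780304) (l 16780392)) (l 16780272))) (b (l 16780256) (a (l 16780368) (l 16780296)))))))), by decide +kernel⟩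

def k46_B00pm_102_s1 : ∃ t, chk3 f_B00pm_102_s1 t 126 124 1 = true :=
  ⟨(l 3), by decide +kernel⟩

def k47_B00pm_102_s1 : ∃ t, chk3 f_B00pm_102_s1 t 504 125 1 = true :=
  ⟨(a (b (a (c (a (b (l 537714191) (c (l 537818639) (l 537834255))) (b (l 537739023) (c (l 537845263) (l 537859855)))) (b (l 537761807) (c (l 537862927) (l 537878287)))) (c (a (b (l 537495823) (c (l 537872143) (l 537885967))) (b (l 537655823) (c (l 537899535) (l 537912591)))) (b (l 537809167) (a (l 537907215) (l 537932559))))) (a (a (c (b (b (l 537910287) (l 537966351)) (c (b (l 538016271) (l 538072335)) (l 538056463))) (b (l 537966095) (l 538074383))) (c (b (b (l 537937167) (l 537993743)) (c (b (l 538044431) (l 538101007)) (l 538084367))) (b (l 537991951) (l 538101263)))) (c (b (a (b (l 537964559) (l 538021647)) (b (l 537992463) (l 538050063))) (a (c (b (l 538073359) (l 538130191)) (l 538112783)) (c (b (l 538102287) (l 538159887)) (l 538141455)))) (b (a (l 538018063) (l 538044687)) (a (l 538128399) (l 538156303)))))) (b (b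 (a (c (a (l 537682191) (l 3)) (l 537590287)) (l 3)) (a (c (a (c (l 537927183) (l 537939727)) (c (l 537955343) (l 537967119))) (a (l 537958671) (l 537985039))) (c (a (c (l 537984015) (l 537995023)) (c (l 538013199) (l 538023439))) (a (l 538011663) (l 538039055))))) (a (c (b (a (b (l 538020623) (l 538078735)) (b (l 538049295) (l 538107919))) (a (c (b (l 538131983) (l 538189839)) (l 538170639)) (c (b (l 538161935) (l 538220303)) (l 538200079)))) (b (a (l 538071567) (l 538099215)) (a (l 538184463) (l 538212879)))) (c (b (a (b (l 538078223) (l 538137359)) (b (l 538107919) (l 538167311))) (a (c (b (l 538192143) (l 538251023)) (l 538230031)) (c (b (l 538222863) (l 538281999)) (l 538260495)))) (b (a (l 538127119) (l 538155535)) (a (l 538241807) (l 538271247))))))), by decide +kernel⟩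

def k48_B00pm_102_s1 : ∃ t, chk3 f_B00pm_102_s1 t 505 125 1 = true :=
  ⟨(a (b (b (l 3) (b (l 3) (a (c (a (l 538077199) (l 538107151)) (a (l 538095631) (l 538124047))) (l 3)))) (a (b (c (a (b (l 538137615) (l 538197775)) (b (l 538168079) (l 538228495))) (a (l 538184207) (l 538213391))) (c (a (c (b (l 538254095) (l 538313487)) (l 538290959)) (c (b (l 538285583) (l 538345231)) (l 538321935))) (a (l 538300943) (l 538062607)))) (b (c (a (b (l 538198799) (l 538259727)) (b (l 538229775) (l 538291215))) (a (l 538243087) (l 538273295))) (c (a (c (b (l 538317327) (l 538376975)) (l 538353167)) (b (l 538217743) (l 538277135))) (a (l 538092815) (l 538123535)))))) (b (l 3) (a (b (c (a (b (l 538261263) (l 538323215)) (b (l 3) (l 538355215))) (a (l 538303759) (l 538334479))) (c (a (b (l 538115343) (l 538309391)) (b (l 538416143) (l 538207759))) (a (l 538154511) (l 538185743)))) (b (b (l 3) (c (a (l 538387727) (l 538420495)) (a (l 538395407) (l 538426895)))) (c (a (b (l 538448655) (l 538508815)) (b (l 538481679)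 (l 538542095))) (a (l 538217487) (l 538249487))))))), by decide +kernel⟩

def k49_B00pm_102_s1 : ∃ t, chk3 f_B00pm_102_s1 t 253 125 1 = true :=
  ⟨(a (b (l 3) (b (l 3) (a (c (b (a (a (l 538514959) (l 538548495)) (a (l 538582287) (l 3))) (a (a (l 538575631) (l 538609167)) (a (l 538643215) (l 538409231)))) (a (a (l 538281743) (l 538314511)) (a (l 538347535) (l 538380815)))) (a (a (b (l 3) (c (l 538443791) (l 538712079))) (l 3)) (l 3))))) (l 3)), by decide +kernel⟩

def k50_B00pm_102_s1 : ∃ t, chk3 f_B00pm_102_s1 t 127 62 1 = true :=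
  ⟨(l 3), by decide +kernel⟩

def k51_B00pm_102_s1 : ∃ t, chk3 f_B00pm_102_s1 t 124 126 1 = true :=
  ⟨(l 6), by decide +kernel⟩

def k52_B00pm_102_s1 : ∃ t, chk3 f_B00pm_102_s1 t 250 252 1 = true :=
  ⟨(l 6), by decide +kernel⟩

def k53_B00pm_102_s1 : ∃ t, chk3 f_B00pm_102_s1 t 502 504 1 = true :=
  ⟨(a (b (b (a (c (c (c (l 16775856) (l 16775712)) (l 16775496)) (l 16780312)) (c (c (a (l 16775192) (c (l 16774640) (l 16774760))) (l 16775184)) (c (l 16764816) (l 16764568)))) (a (l 6) (c (c (c (a (l 16775832) (l 16775336)) (l 16775712)) (c (l 16775584) (l 16775448))) (c (l 16785736) (l 16785464))))) (l 6)) (b (a (c (c (a (b (c (l 16774176) (l 16774280)) (c (l 16774864) (l 16774976))) (b (l 16779016) (c (l 16779648) (l 16774512)))) (b (c (l 16774152) (l 16774256)) (c (l 16774856) (l 16774968)))) (c (b (l 16774408) (l 16775136)) (b (l 16764128) (l 16764576)))) (a (b (c (c (l 16778576) (l 16773504)) (l 16773776)) (c (c (l 16779248) (l 16774200)) (l 16774496))) (c (c (b (c (l 16783352) (l 16783432))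 (l 16778816)) (b (l 16773064) (l 16773752))) (b (l 16773304) (c (l 16773928) (l 16763624)))))) (b (a (c (c (a (c (l 16775496) (l 16775624)) (b (l 16774936) (l 16775232))) (c (l 16775504) (l 16775496))) (c (l 16775312) (l 16785552))) (c (a (c (c (l 16779816) (l 16774680)) (l 16774840)) (c (l 16779432) (l 16774384))) (c (l 16774816) (l 16764528)))) (a (a (l 6) (b (c (c (l 16775520) (l 16775624)) (l 16785736)) (l 6))) (c (a (c (c (c (l 16775112) (l 16775168)) (l 16775248)) (l 16775424)) (c (c (l 16779936) (l 16774792)) (l 16774952))) (c (l 16775400) (l 16775176))))))), by decide +kernel⟩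

def k54_B00pm_102_s1 : ∃ t, chk3 f_B00pm_102_s1 t 1006 504 1 = true :=
  ⟨(b (a (c (c (b (c (b (l 16777344) (l 16777680)) (c (l 16777560) (l 16777592))) (c (b (l 16778008) (l 16778312)) (l 16778240))) (b (c (l 16777648) (l 16772472)) (c (l 16778312) (l 16773144)))) (c (b (l 16772568) (l 16773256)) (b (l 16762216) (l 16773408)))) (c (a (b (c (c (l 16782192) (l 16782248)) (l 16782328)) (c (c (l 16782832) (l 16782896)) (l 16782992))) (c (b (c (l 16781840) (l 16781888)) (c (l 16782472) (l 16782528))) (b (l 16781960) (l 16782608)))) (c (b (l 16777000) (l 16777672)) (b (l 16771864) (l 16772552))))) (a (a (c (c (b (l 16779008) (l 16779552)) (b (l 16773936) (l 16774504))) (c (b (l 16774112) (l 16774696)) (l 16774600))) (c (c (b (c (l 16778560) (l 16783880)) (c (l 16779088) (l 16784424))) (b (l 16778752) (l 16779312))) (c (b (l 16773672) (l 16774240)) (b (l 16763352) (l 16763928))))) (c (c (b (c (b (l 16777840) (l 16778120)) (c (l 16778032) (l 16778064))) (c (b (l 16778376) (l 16778624)) (b (l 16778448)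 (l 16778696)))) (b (c (l 16778120) (l 16778184)) (c (l 16778656) (l 16778728)))) (c (b (c (l 16773008) (l 16773080)) (c (l 16773560) (l 16773632))) (b (l 16773184) (l 16773752)))))), by decide +kernel⟩

def k55_B00pm_102_s1 : ∃ t, chk3 f_B00pm_102_s1 t 1007 504 1 = true :=
  ⟨(c (a (b (a (c (b (c (l 16778888) (l 16781544)) (a (l 16782232) (l 16782064))) (b (l 16781608) (l 16782248))) (c (b (c (l 16778568) (l 16781224)) (a (l 16781904) (l 16781744))) (b (l 16781272) (l 16781904)))) (a (c (b (c (l 16782688) (l 16782744)) (c (l 16783200) (l 16783264))) (b (l 16782832) (l 16783352))) (c (b (c (l 16782360) (l 16782408)) (l 16780264)) (b (l 16782480) (l 16782992))))) (b (a (c (b (c (l 16778264) (l 16780912)) (a (l 16781584) (l 16781440))) (b (l 16780952) (l 16781584))) (b (b (a (c (l 16780528) (l 16780568)) (b (a (l 16780360) (b (c (a (l 16780248) (l 16780240)) (l 16780272)) (l 16780336))) (l 16780488))) (c (l 16780776) (l 16780816))) (c (c (l 16778584) (l 16781232)) (l 16781280)))) (a (c (b (c (l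 16782040) (l 16782080)) (l 16779928)) (b (l 16782144) (l 16782648))) (c (b (c (l 16781744) (l 16781784)) (c (l 16782224) (l 16782264))) (b (l 16781832) (l 16782328)))))) (b (a (c (b (l 16776264) (l 16776920)) (b (l 16771096) (l 16771768))) (b (b (a (l 16780864) (a (l 16780624) (b (a (l 16780424) (b (l 16780320) (l 16780392))) (l 16780560)))) (c (l 16781016) (l 16781072))) (c (a (l 16781648) (l 16781336)) (l 16771072)))) (a (c (b (l 16777520) (l 16778048)) (b (l 16772384) (l 16772928))) (c (b (c (l 16776808) (l 16782088)) (l 16777336)) (b (l 16771664) (l 16777432)))))), by decide +kernel⟩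

def k56_B00pm_102_s1 : ∃ t, chk3 f_B00pm_102_s1 t 502 505 1 = true :=
  ⟨(a (l 6) (b (a (l 6) (b (c (a (a (l 6) (c (l 16780832) (l 16775808))) (c (c (l 16780432) (l 16775296)) (l 16775464))) (c (l 16775568) (l 16775328))) (l 6))) (l 6))), by decide +kernel⟩

def k57_B00pm_102_s1 : ∃ t, chk3 f_B00pm_102_s1 t 1006 505 1 = true :=
  ⟨(b (b (c (a (a (c (l 16780040) (c (l 16774952) (l 16775056))) (c (l 16779616) (l 16779800))) (c (c (b (l 16778856) (l 16779072)) (b (l 16778936) (l 16779152))) (c (l 16779128) (l 16779208)))) (a (c (a (l 16775208) (l 16774744)) (l 16775176)) (c (c (l 16774048) (l 16774128)) (l 16774248)))) (c (c (a (a (l 16780472) (l 16780032)) (c (b (l 16779264) (l 16779448)) (l 16779448))) (a (c (a (l 16775392) (l 16774936)) (l 16775264)) (a (l 16779792) (l 16779368)))) (a (c (c (l 16775368) (l 16775472)) (l 16775560)) (a (c (l 16774728) (l 16774920)) (c (l 16774296) (l 16774464)))))) (b (a (a (l 6) (a (l 6) (b (c (l 16780296) (l 16775456)) (l 6)))) (c (a (c (l 16779952) (l 16780144))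 (c (l 16779536) (l 16784952))) (c (c (l 16774816) (l 16774912)) (l 16775048)))) (a (l 6) (a (l 6) (c (c (l 16785040) (l 16785224)) (c (l 16785408) (l 16775104))))))), by decide +kernel⟩

def k58_B00pm_102_s1 : ∃ t, chk3 f_B00pm_102_s1 t 1007 505 1 = true :=
  ⟨(c (b (a (a (c (b (c (l 16783640) (l 16783712)) (c (l 16784024) (l 16784096))) (b (l 16783816) (l 16784208))) (c (b (l 16780696) (l 16783696)) (b (l 16783448) (l 16783832)))) (a (c (b (l 16780360) (l 16783344)) (b (l 16783088) (l 16783464))) (c (b (l 16780040) (l 16783016)) (b (l 16782760) (l 16783120))))) (a (a (b (c (l 16784384) (l 16784536)) (c (l 16784632) (l 16784800))) (b (c (l 16784000) (l 16784144)) (c (l 16784240) (l 16784392)))) (a (b (c (l 16783640) (l 16783768)) (c (l 16783864) (l 16784000))) (b (c (l 16783296) (l 16783416)) (c (l 16783512) (l 16783632)))))) (a (b (b (c (l 16778520) (l 16773408)) (c (l 16778920) (l 16773816))) (b (c (l 16779248) (c (l 16774120) (l 16774200))) (c (l 16779504) (c (l 16774384) (l 16774464)))))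 (b (b (c (l 16777784) (l 16777888)) (c (l 16778160) (l 16778280))) (b (c (l 16778472) (l 16778592)) (c (l 16778696) (l 16778832)))))), by decide +kernel⟩

def k59_B00pm_102_s1 : ∃ t, chk3 f_B00pm_102_s1 t 125 253 1 = true :=
  ⟨(a (l 6) (a (l 6) (a (l 6) (b (a (b (b (c (a (c (l 16784808) (l 16784984)) (c (l 16784408) (l 16784560))) (c (l 16779688) (l 16779856))) (a (l 6) (c (c (l 16784496) (l 16784656)) (l 16782272)))) (l 6)) (b (c (b (c (a (l 16784016) (l 16783648)) (a (l 16784160) (l 16783776))) (c (a (l 16784096) (l 16783712)) (l 16781416))) (b (c (l 16778856) (l 16778984)) (c (l 16781552) (l 16779064)))) (a (l 6) (b (b (c (l 16783776) (l 16784024)) (l 6)) (l 6))))) (l 6))))), by decide +kernel⟩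

def k60_B00pm_102_s1 : ∃ t, chk3 f_B00pm_102_s1 t 62 127 1 = true :=
  ⟨(l 6), by decide +kernel⟩

def k61_B00pm_102_s1 : ∃ t, chk3 f_B00pm_102_s1 t 1008 2016 1 = true :=
  ⟨(a (a (b (c (b (a (a (b (l 16780232) (c (a (l 16780264) (l 16780248)) (l 16780288))) (l 16780232)) (l 16780200)) (a (a (l 16780392) (b (c (a (l 16780280) (l 16780264)) (l 16780304)) (l 16780360))) (a (b (l 16780264) (c (a (l 16780296) (l 16780280)) (l 16780320))) (l 16780256)))) (c (b (a (l 16780296) (l 16780240)) (a (b (l 16780352) (l 16780440)) (l 16780320))) (b (l 16780312) (a (l 16780424) (l 16780352))))) (c (a (c (l 16780576) (l 16780608)) (b (a (l 16780416) (b (c (a (l 16780312) (l 16780296)) (l 16780328)) (l 16780392))) (l 16780536))) (a (l 16780664) (b (a (l 16780472) (b (l 16780368) (l 16780448))) (l 16780600))))) (c (b (l 16780168) (b (a (a (b (l 16780288) (c (a (l 16780328) (l 16780312)) (l 16780344))) (l 16780288)) (l 16780256)) (a (a (l 16780440) (b (c (a (l 16780344) (l 16780328)) (l 16780360)) (l 16780416)))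 (a (b (l 16780320) (c (a (l 16780352) (l 16780336)) (l 16780376))) (l 16780320))))) (b (l 16780216) (a (b (b (l 16780328) (a (l 16780384) (l 16780352))) (a (l 16780496) (b (l 16780400) (l 16780472)))) (b (l 16780304) (a (b (l 16780368) (l 16780408)) (l 16780360))))))) (c (c (l 16780104) (l 16780120)) (l 16780152))), by decide +kernel⟩

def k62_B00pm_102_s1 : ∃ t, chk3 f_B00pm_102_s1 t 1008 2017 1 = true :=
  ⟨(b (a (a (c (c (l 16780808) (l 16780848)) (l 16780912)) (c (a (c (l 16780616) (l 16780648)) (b (a (l 16780464) (b (c (a (l 16780368) (l 16780352)) (l 16780384)) (l 16780440))) (l 16780584))) (a (l 16780696) (b (a (l 16780520) (b (l 16780424) (l 16780496))) (l 16780640))))) (c (a (b (a (a (b (l 16780344) (c (a (l 16780384) (l 16780368)) (l 16780400))) (l 16780344)) (l 16780304)) (a (a (l 16780488) (b (c (a (l 16780400) (l 16780384)) (l 16780416)) (l 16780472))) (a (b (l 16780376) (c (a (l 16780408) (l 16780392)) (l 16780424))) (l 16780368)))) (l 16780272)) (a (a (b (a (b (l 16780392) (l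 16780432)) (l 16780392)) (a (l 16780544) (b (l 16780448) (l 16780520)))) (b (l 16780352) (a (b (l 16780416) (l 16780456)) (l 16780416)))) (l 16780312)))) (a (c (c (a (l 16781088) (l 16780832)) (l 16778376)) (c (l 16781048) (l 16781088))) (a (c (a (l 16780672) (b (a (l 16780512) (b (c (a (l 16780424) (l 16780408)) (l 16780440)) (l 16780496))) (l 16780624))) (a (l 16780728) (b (a (l 16780568) (b (l 16780472) (l 16780544))) (l 16780680)))) (c (b (a (a (b (l 16780400) (c (a (l 16780440) (l 16780424)) (l 16780448))) (l 16780400)) (l 16780360)) (a (a (l 16780536) (b (c (a (l 16780448) (l 16780440)) (l 16780464)) (l 16780520))) (a (b (l 16780432) (c (a (l 16780464) (l 16780448)) (l 16780480))) (c (l 16780416) (l 16780432))))) (a (b (a (b (l 16780440) (l 16780480)) (l 16780440)) (a (l 16780584) (b (l 16780496) (l 16780560)))) (b (l 16780400) (a (b (l 16780472) (l 16780504)) (l 16780464)))))))), by decide +kernel⟩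

def k63_B00pm_102_s1 : ∃ t, chk3 f_B00pm_102_s1 t 1008 1009 1 = true :=
  ⟨(a (c (a (c (b (c (l 16781464) (l 16781496)) (c (l 16781936) (l 16781976))) (b (l 16781544) (l 16782024))) (c (b (c (l 16781208) (l 16781232)) (c (l 16781672) (l 16781696))) (b (l 16781272) (l 16781744)))) (c (b (a (l 16781600) (l 16781320)) (a (l 16782104) (l 16781808))) (b (l 16776272) (l 16776776)))) (c (a (c (a (b (l 16781040) (l 16781496)) (b (l 16780920) (l 16781376))) (b (l 16781016) (l 16781488))) (b (b (a (l 16780704) (b (a (l 16780560) (b (c (a (l 16780480) (l 16780464)) (l 16780488)) (l 16780544))) (l 16780664))) (c (l 16780880) (l 16780912))) (c (b (l 16781104) (l 16781304)) (l 16781248)))) (b (a (c (l 16781056) (l 16781096)) (b (a (l 16780760) (b (a (l 16780608) (b (l 16780520) (l 16780584))) (l 16780712))) (l 16780960))) (c (a (l 16781536) (l 16781288)) (l 16776208))))), by decide +kernel⟩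

def k64_B00pm_102_s1 : ∃ t, chk3 f_B00pm_102_s1 t 1009 1008 1 = true :=
  ⟨(a (c (a (c (l 538247439) (l 16780120)) (c (l 538278159) (l 538285583))) (c (l 16777464) (l 16780096))) (a (c (c (l 538309135) (l 538315791)) (l 538326031)) (c (c (l 538340367) (l 538346511)) (l 538355983)))), by decide +kernel⟩

def k65_B00pm_102_s1 : ∃ t, chk3 f_B00pm_102_s1 t 2018 1009 1 = true :=
  ⟨(b (a (b (c (a (b (a (b (l 16780456) (c (a (l 16780488) (l 16780480)) (l 16780504))) (c (l 16780440) (l 16780456))) (a (l 16780584) (b (c (a (l 16780504) (l 16780488)) (l 16780512)) (l 16780568)))) (b (l 16780408) (a (b (l 16780480) (c (a (l 16780520) (l 16780504)) (l 16780528))) (c (l 16780464) (l 16780480))))) (a (b (a (b (l 16780496) (l 16780528)) (l 16780488)) (a (l 16780624) (b (l 16780544) (l 16780608)))) (b (l 16780440) (a (b (l 16780512) (l 16780552)) (l 16780512))))) (c (a (l 16780736) (b (a (l 16780608) (b (c (a (l 16780528) (l 16780512)) (l 16780536)) (l 16780584))) (l 16780696))) (a (l 16780784) (b (a (l 16780648)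 (b (l 16780568) (l 16780624))) (l 16780744))))) (c (b (l 16780368) (a (b (a (b (l 16780504) (c (a (l 16780544) (l 16780528)) (l 16780552))) (c (l 16780488) (l 16780504))) (a (l 16780624) (b (c (a (l 16780552) (l 16780536)) (l 16780560)) (l 16780608)))) (b (l 16780456) (a (b (l 16780528) (c (a (l 16780568) (l 16780552)) (l 16780568))) (c (l 16780512) (l 16780528)))))) (b (l 16780400) (a (b (a (b (l 16780536) (l 16780576)) (l 16780528)) (a (l 16780664) (b (l 16780584) (l 16780648)))) (b (l 16780488) (a (b (l 16780560) (l 16780592)) (l 16780552))))))) (a (c (c (b (l 16780896) (l 16781096)) (l 16781032)) (c (l 16781056) (l 16781088))) (c (b (a (l 16780768) (b (a (l 16780648) (b (c (a (l 16780576) (l 16780560)) (l 16780584)) (l 16780632))) (l 16780728))) (c (l 16780904) (l 16780936))) (b (a (l 16780808) (b (a (l 16780680) (b (l 16780608) (l 16780664))) (l 16780768))) (l 16780968))))), by decide +kernel⟩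

def k66_B00pm_102_s1 : ∃ t, chk3 f_B00pm_102_s1 t 2019 1009 1 = true :=
  ⟨(b (c (a (l 538354703) (l 538385679)) (l 16780304)) (a (b (c (a (b (a (b (l 16780552) (c (a (l 16780584) (l 16780576)) (l 16780592))) (c (l 16780536) (l 16780552))) (a (l 16780664) (b (c (a (l 16780600) (l 16780584)) (l 16780608)) (l 16780648)))) (b (l 16780496) (a (b (l 16780576) (c (a (l 16780608) (l 16780592)) (l 16780616))) (c (l 16780560) (l 16780576))))) (a (b (a (b (l 16780584) (l 16780616)) (l 16780576)) (a (l 16780696) (b (l 16780624) (l 16780680)))) (b (l 16780528) (a (b (l 16780600) (l 16780632)) (l 16780592))))) (c (a (l 16780792) (b (a (l 16780680) (b (c (a (l 16780616) (l 16780608)) (l 16780624)) (l 16780672))) (l 16780752))) (a (l 16780832) (b (c (l 16780672) (l 16780688)) (l 16780792))))) (c (b (l 16780448) (a (b (a (b (l 16780592) (c (a (l 16780632) (l 16780616)) (l 16780632))) (c (l 16780584) (l 16780592))) (a (l 16780696) (b (c (a (l 16780640) (l 16780624)) (l 16780648)) (l 16780688)))) (b (l 16780536)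 (a (b (l 16780616) (c (a (l 16780648) (l 16780640)) (l 16780656))) (c (l 16780600) (l 16780616)))))) (b (l 16780472) (a (b (a (b (l 16780624) (l 16780656)) (l 16780616)) (c (l 16780696) (l 16780704))) (b (l 16780560) (a (b (l 16780640) (l 16780672)) (l 16780632)))))))), by decide +kernel⟩

def k67_B00pm_102_s1 : ∃ t, chk3 f_B00pm_102_s1 t 504 1010 1 = true :=
  ⟨(c (a (a (a (c (b (l 16779744) (l 16782704)) (b (l 16782448) (l 16782800))) (b (c (c (l 16782064) (l 16782104)) (l 16782152)) (c (l 16782416) (l 16782496)))) (a (b (c (b (l 16781728) (l 16781912)) (l 16781880)) (c (l 16782144) (l 16782216))) (b (c (b (l 16781496) (l 16781664)) (l 16781632)) (c (l 16781896) (l 16781952))))) (a (a (c (b (b (l 16781280) (l 16781448)) (l 16781664)) (b (l 16781408) (l 16781712))) (c (b (b (l 16781088) (l 16781248)) (l 16781456)) (b (l 16781200) (l 16781496)))) (a (c (b (b (l 16780912) (l 16781072)) (l 16781272)) (b (l 16781024) (l 16781304))) (b (b (a (l 16780808) (b (a (l 16780720) (b (c (a (l 16780664)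 (l 16780648)) (l 16780664)) (l 16780704))) (l 16780784))) (c (l 16780920) (l 16780936))) (c (l 16781112) (l 16781136)))))) (a (a (b (c (a (l 16782528) (l 16782224)) (l 16777216)) (c (a (l 16782888) (l 16782576)) (l 16777576))) (a (b (l 16779352) (l 16779696)) (b (a (l 16781776) (l 16781648)) (l 16779416)))) (a (b (c (a (l 16781448) (l 16781232)) (l 16776136)) (c (l 16779024) (l 16781696))) (b (a (c (l 16781048) (l 16781072)) (b (a (l 16780848) (b (a (l 16780744) (l 16780704)) (l 16780808))) (l 16780968))) (c (a (l 16781336) (l 16781160)) (l 16781280)))))), by decide +kernel⟩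

def k68_B00pm_102_s1 : ∃ t, chk3 f_B00pm_102_s1 t 504 1011 1 = true :=
  ⟨(b (a (c (b (a (c (l 16782760) (l 16782856)) (c (l 16782208) (l 16782272))) (a (c (l 16782880) (l 16782976)) (c (l 16782312) (l 16782384)))) (a (c (a (l 16783176) (l 16782848)) (l 16777864)) (a (l 16779960) (l 16782296)))) (c (a (c (a (l 16781888) (l 16781672)) (a (l 16781944) (l 16781720))) (c (a (l 16781480) (l 16781304)) (a (l 16781512) (l 16781336)))) (a (c (l 16779256) (l 16781928)) (c (l 16778832) (l 16781488))))) (a (c (a (c (a (l 16783176) (l 16782864)) (l 16780496)) (c (a (l 16782568) (l 16782296)) (a (l 16782648) (l 16782360)))) (a (a (l 16780824) (l 16783096)) (c (l 16782576) (l 16782656)))) (c (a (c (a (l 16782040) (l 16781816)) (a (l 16782104) (l 16781864))) (c (a (l 16781608) (l 16781424)) (a (l 16781648) (l 16781456)))) (a (c (l 16782032) (l 16782088)) (c (l 16781584) (l 16781616)))))), by decide +kernel⟩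

def k69_B00pm_102_s1 : ∃ t, chk3 f_B00pm_102_s1 t 505 504 1 = true :=
  ⟨(a (a (c (a (c (b (l 538371599) (l 538428943)) (l 538138127)) (c (b (l 538403343) (l 538460943)) (l 538169615))) (a (c (l 538412047) (l 538417423)) (c (l 538442767) (l 538447631)))) (c (a (c (b (l 538435599) (l 538493199)) (l 538201103)) (c (b (l 538467855) (l 538525711)) (l 538233359))) (a (c (l 538473999) (l 538478351)) (c (l 538505487) (l 538509327))))) (b (a (c (a (l 538368271) (l 538266639)) (a (l 538509327) (l 538541071))) (a (c (l 538299663) (l 538573071)) (c (l 538333199) (l 538605583)))) (a (c (a (l 538426127) (l 538324751)) (a (l 538566415) (l 538598415))) (a (c (l 538358031) (l 538630671)) (c (l 538391311) (l 538663439)))))), by decide +kernel⟩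

def k70_B00pm_102_s1 : ∃ t, chk3 f_B00pm_102_s1 t 2020 1010 1 = true :=
  ⟨(b (a (a (b (c (b (a (b (l 16780640) (a (l 16780680) (l 16780664))) (c (l 16780624) (l 16780632))) (a (l 16780728) (a (l 16780704) (b (l 16780672) (l 16780712))))) (b (a (b (l 16780656) (l 16780688)) (l 16780648)) (a (l 16780760) (l 16780720)))) (c (l 16780824) (l 16780856))) (a (b (b (l 16780600) (b (c (l 16780656) (l 16780680)) (c (a (l 16780696) (l 16780680)) (l 16780712)))) (c (l 16780784) (l 16780808))) (b (c (c (l 16780608) (l 16780616)) (l 16780632)) (c (b (b (c (l 16780688) (l 16780704)) (l 16780736)) (l 16780784)) (b (l 16780736) (l 16780816)))))) (c (b (l 16780520) (a (b (a (b (l 16780680) (c (l 16780704) (l 16780712))) (c (l 16780664) (l 16780672))) (a (l 16780760) (b (c (l 16780712) (l 16780720)) (l 16780752)))) (b (l 16780616) (a (b (l 16780696) (c (l 16780720) (l 16780728))) (l 16780688))))) (b (l 16780544) (a (b (a (b (l 16780696) (l 16780728)) (l 16780688)) (a (l 16780784) (l 16780744))) (b (l 16780632)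 (a (b (l 16780712) (l 16780744)) (l 16780704))))))) (c (a (c (l 16780976) (l 16780992)) (b (a (l 16780840) (b (a (l 16780776) (b (c (l 16780728) (l 16780736)) (l 16780768))) (l 16780816))) (l 16780920))) (b (a (l 16780960) (a (l 16780864) (b (a (l 16780792) (l 16780760)) (l 16780840)))) (c (l 16781000) (l 16781024))))), by decide +kernel⟩

def k71_B00pm_102_s1 : ∃ t, chk3 f_B00pm_102_s1 t 2021 1010 1 = true :=
  ⟨(b (c (a (l 16780472) (l 538569999)) (l 16777800)) (a (a (b (c (b (a (b (l 16780712) (c (l 16780736) (l 16780744))) (l 16780704)) (a (l 16780784) (b (c (l 16780744) (l 16780752)) (l 16780776)))) (b (a (b (l 16780728) (l 16780760)) (l 16780720)) (a (l 16780808) (l 16780776)))) (c (l 16780848) (l 16780872))) (b (b (l 16780656) (c (a (b (l 16780728) (c (l 16780752) (l 16780760))) (l 16780720)) (a (b (l 16780744) (l 16780768)) (l 16780736)))) (c (b (a (l 16780800) (b (c (l 16780760) (l 16780768)) (l 16780792))) (l 16780832)) (c (l 16780808) (l 16780824))))) (a (b (l 538518799) (b (c (a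 (b (l 16780744) (l 16780768)) (l 16780736)) (a (b (l 16780760) (l 16780784)) (l 16780744))) (c (a (l 16780808) (b (l 16780776) (l 16780800))) (l 16780808)))) (b (l 538601999) (b (l 16780680) (c (a (b (l 16780760) (l 16780784)) (l 16780752)) (a (b (l 16780776) (l 16780800)) (l 16780760)))))))), by decide +kernel⟩

def k72_B00pm_102_s1 : ∃ t, chk3 f_B00pm_102_s1 t 1010 1011 1 = true :=
  ⟨(a (a (c (b (c (l 16781160) (l 16781184)) (c (l 16781264) (l 16781288))) (b (l 16781216) (l 16781328))) (c (b (c (l 16781032) (l 16781056)) (c (l 16781128) (l 16781144))) (b (l 16781080) (l 16781176)))) (b (c (a (c (l 16780936) (l 16780952)) (b (a (l 16780856) (b (a (l 16780816) (b (l 16780792) (l 16780816))) (l 16780840))) (l 16780896))) (a (l 16780968) (b (a (l 16780872) (b (l 16780816) (l 16780856))) (l 16780912)))) (c (c (a (l 16781016) (l 16780936)) (a (l 16781032) (l 16780944))) (c (l 16780992) (l 16781008))))), by decide +kernel⟩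

def k73_B00pm_102_s1 : ∃ t, chk3 f_B00pm_102_s1 t 1011 505 1 = true :=
  ⟨(b (a (c (a (l 538348559) (l 538381583)) (a (l 538622735) (l 538654991))) (a (c (l 538414863) (l 538687503)) (c (l 538448399) (l 538720015)))) (a (b (a (a (b (b (c (a (b (l 16780776) (l 16780800)) (l 16780760)) (a (l 16780800) (l 16780776))) (c (a (l 16780824) (b (l 16780800) (l 16780824))) (l 16780824))) (c (l 16780856) (l 16780872))) (b (b (l 16780704) (c (a (b (l 16780792) (l 16780808)) (l 16780776)) (a (l 16780808) (l 16780784)))) (b (c (c (l 16780816) (l 16780824)) (l 16780832)) (a (l 16780856) (l 16780848))))) (b (c (l 16780632) (l 16780640)) (a (b (c (a (b (l 16780800) (l 16780824)) (l 16780784)) (a (l 16780816) (l 16780800))) (c (a (l 16780840) (l 16780824)) (l 16780840))) (b (l 16780728) (c (a (b (l 16780816) (l 16780832)) (l 16780800)) (a (l 16780832) (l 16780808))))))) (c (a (c (l 16780880) (l 16780888)) (b (a (l 16780856) (b (a (l 16780848) (l 16780832)) (l 16780848))) (l 16780848))) (a (l 16780896) (b (c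 (l 16780840) (l 16780848)) (l 16780856))))) (b (a (c (l 16777944) (l 16780576)) (c (l 16777784) (l 16775168))) (b (a (a (b (c (a (b (l 16780824) (l 16780840)) (l 16780808)) (a (l 16780840) (l 16780816))) (c (a (l 16780848) (l 16780840)) (l 16780848))) (b (l 16780752) (c (a (b (l 16780832) (l 16780848)) (l 16780816)) (a (l 16780848) (l 16780824))))) (c (l 16780672) (l 16780672))) (a (a (c (l 16780848) (l 16780848)) (c (c (l 16780840) (l 16780840)) (l 16780848))) (a (b (c (a (b (l 16780840) (l 16780856)) (l 16780824)) (a (l 16780856) (l 16780832))) (c (l 16780848) (l 16780856))) (b (l 16780768) (c (a (b (l 16780848) (l 16780864)) (l 16780832)) (a (l 16780856) (l 16780840)))))))))), by decide +kernel⟩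

def k74_B00pm_102_s1 : ∃ t, chk3 f_B00pm_102_s1 t 504 506 1 = true :=
  ⟨(c (a (b (a (b (c (a (l 16783304) (l 16782976)) (l 16780616)) (c (a (l 16783352) (l 16783008)) (l 16783280))) (b (c (a (l 16782664) (l 16782384)) (l 16782600)) (a (l 16782728) (l 16782424)))) (a (b (c (a (l 16783320) (l 16782960)) (l 16783240)) (c (a (l 16783208) (l 16782832)) (l 16783112))) (b (c (l 16782464) (l 16782536)) (c (l 16782304) (l 16782376))))) (b (a (b (c (a (l 16782112) (l 16781872)) (l 16782048)) (c (l 16781976) (l 16782032))) (b (c (a (l 16781648) (l 16781456)) (l 16781584)) (c (l 16781504) (l 16781536)))) (a (b (c (l 16781872) (l 16781920)) (c (l 16781680) (l 16781728))) (b (c (l 16781368) (l 16781400)) (c (l 16781144) (l 16781168)))))) (a (b (a (b (c (l 16783344) (l 16783448)) (c (l 16783384) (l 16783488))) (b (c (l 16782680) (l 16782752)) (c (l 16782688) (l 16782768)))) (a (b (c (l 16783344) (l 16783448)) (c (l 16783216) (l 16783312))) (b (c (l 16782616) (l 16782688)) (c (l 16782448) (l 16782520)))))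 (b (a (b (c (l 16782104) (l 16782160)) (c (l 16782080) (l 16782136))) (b (c (l 16781624) (l 16781664)) (c (l 16781576) (l 16781608)))) (a (b (c (l 16781976) (l 16782024)) (c (l 16781768) (l 16781816))) (b (c (l 16781432) (l 16781464)) (c (l 16781192) (l 16781216))))))), by decide +kernel⟩

def k75_B00pm_102_s1 : ∃ t, chk3 f_B00pm_102_s1 t 504 507 1 = true :=
  ⟨(b (a (a (l 6) (a (b (c (c (l 16782240) (l 16782304)) (l 16782408)) (l 6)) (b (c (l 16781912) (l 16782024)) (b (c (l 16781656) (l 16781752)) (l 6))))) (c (a (b (c (l 16781400) (l 16781432)) (c (a (l 16781184) (l 16780856)) (l 16781040))) (b (c (l 16780824) (l 16780840)) (c (l 16780400) (l 16780400)))) (a (b (c (l 16781472) (l 16781504)) (c (l 16781064) (l 16781088))) (b (c (l 16780848) (l 16780864)) (c (l 16780400) (l 16780400)))))) (a (l 6) (a (b (a (a (l 6) (c (l 16780624) (l 16780656))) (a (c (l 16780448) (l 16780464)) (c (l 16780272) (l 16780272)))) (l 6)) (c (b (c (a (l 16780032) (l 16779728)) (a (l 16780024) (l 16779704))) (a (c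 (l 16779400) (l 16779376)) (c (l 16779072) (l 16779032)))) (b (c (a (l 16780008) (l 16779680)) (b (l 16779984) (l 16779664))) (c (b (l 16779344) (l 16778976)) (b (l 16779320) (l 16778936)))))))), by decide +kernel⟩

def k76_B00pm_102_s1 : ∃ t, chk3 f_B00pm_102_s1 t 505 506 1 = true :=
  ⟨(a (c (b (a (b (c (a (l 16781280) (l 16781136)) (l 16781224)) (c (l 16781128) (l 16781152))) (b (c (a (l 16781008) (l 16780912)) (l 16780968)) (c (l 16780856) (l 16780864)))) (a (b (c (l 16780968) (l 16780976)) (c (l 16780704) (l 16780712))) (b (c (l 16780664) (l 16780664)) (c (l 16780368) (l 16780360))))) (b (a (b (c (l 16781248) (l 16781272)) (c (l 16781168) (l 16781184))) (b (c (l 16780976) (l 16780992)) (c (l 16780872) (l 16780880)))) (a (b (c (l 16780992) (l 16781008)) (c (l 16780712) (l 16780720))) (b (c (l 16780664) (l 16780664)) (c (l 16780352) (l 16780336)))))) (b (c (a (b (c (a (l 16780848) (l 16780808)) (l 16780824)) (a (l 16780720) (l 16780664))) (b (a (c (l 16780792) (l 16780792)) (b (a (l 16780832)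 (b (l 16780856) (l 16780840))) (l 16780776))) (c (a (l 16780640) (l 16780648)) (l 16780632)))) (a (b (c (l 16780832) (l 16780832)) (c (l 16780688) (l 16780688))) (b (a (l 16780792) (b (a (l 16780832) (l 16780840)) (l 16780776))) (c (l 16780632) (l 16780624))))) (c (a (b (c (l 16780464) (l 16780456)) (c (l 16780136) (l 16780120))) (b (a (l 16780384) (b (l 16780448) (l 16780288))) (a (b (l 16780128) (a (l 16779936) (l 16779912))) (b (a (l 16780104) (l 16780112)) (l 16779920))))) (a (b (c (l 16780448) (l 16780440)) (c (l 16780096) (l 16780080))) (b (a (l 16780360) (b (l 16780432) (l 16780256))) (a (b (l 16780080) (l 16779864)) (b (a (l 16780064) (l 16780064)) (l 16779864)))))))), by decide +kernel⟩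

def k77_B00pm_102_s1 : ∃ t, chk3 f_B00pm_102_s1 t 505 507 1 = true :=
  ⟨(c (a (b (a (b (c (l 16780344) (l 16780344)) (c (l 16779888) (l 16779864))) (b (c (l 16779968) (l 16779952)) (a (l 16779544) (c (l 16779376) (l 16779336))))) (a (a (b (l 16779424) (c (l 16778768) (l 16778720))) (b (l 16779168) (b (l 16778648) (a (l 16778336) (l 16778216))))) (b (a (b (l 16779096) (l 16778760)) (b (a (l 16778944) (l 16778864)) (l 16778608))) (a (b (a (l 16778464) (l 16778384)) (l 16778104)) (l 16778152))))) (b (a (b (a (l 16779744) (b (l 16779760) (a (l 16779536) (l 16779496)))) (a (b (l 16779352) (a (l 16779096) (l 16779056))) (b (l 16779272) (l 16779024)))) (b (a (b (a (l 16779712) (l 16779704)) (l 16779488)) (l 16779608)) (c (l 16779152) (l 16779096)))) (a (b (c (l 16778672) (l 16778600)) (c (l 16778064) (l 16777976))) (b (c (l 16778600) (l 16778520)) (c (l 16777960) (l 16777856)))))) (a (b (a (b (c (l 16780336) (l 16780328)) (c (l 16779840) (l 16779824))) (b (c (l 16779928) (l 16779904)) (a (l 16779480)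 (l 16779272)))) (a (b (c (a (l 16779376) (l 16779104)) (b (l 16779368) (l 16779024))) (a (c (l 16778664) (l 16778608)) (b (l 16778528) (a (l 16778200) (l 16778072))))) (b (a (b (l 16779000) (l 16778648)) (b (a (l 16778832) (l 16778752)) (l 16778472))) (a (b (a (l 16778336) (l 16778248)) (l 16777944)) (l 16777984))))) (b (a (b (a (l 16779680) (b (l 16779696) (a (l 16779456) (l 16779416)))) (a (b (l 16779264) (a (l 16778992) (l 16778944))) (b (l 16779176) (l 16778904)))) (b (a (b (l 16779640) (l 16779400)) (l 16779528)) (c (l 16779032) (l 16778976)))) (a (b (c (l 16778528) (l 16778464)) (c (l 16777880) (l 16777784))) (b (c (l 16778440) (l 16778360)) (c (l 16777752) (l 16777648))))))), by decide +kernel⟩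

def k78_B00pm_102_s1 : ∃ t, chk3 f_B00pm_102_s1 t 253 504 1 = true :=
  ⟨(a (a (a (a (c (a (l 538522383) (l 538405135)) (l 538534159)) (c (a (l 538422031) (l 538439183)) (l 538567439))) (a (c (b (l 538434831) (l 538493199)) (l 538600719)) (c (b (l 538469135) (l 538527759)) (l 538634255)))) (a (a (c (b (l 538503695) (l 538562319)) (l 538668303)) (c (b (l 538538511) (l 538596879)) (l 538635279))) (a (c (b (l 538573583) (l 538631951)) (l 538703119)) (c (b (l 538608911) (l 538667023)) (c (l 538637839) (l 538636559)))))) (b (l 3) (a (a (a (c (l 538702351) (l 538967823)) (a (l 538685967) (l 538667791))) (a (c (l 538906639) (l 538909967)) (l 3))) (l 3)))), by decide +kernel⟩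

def k79_B00pm_102_s1 : ∃ t, chk3 f_B00pm_102_s1 t 253 505 1 = true :=
  ⟨(a (a (a (a (c (b (l 538482191) (l 538537743)) (b (l 538753039) (l 538808591))) (c (b (l 538516239) (l 538571535)) (b (l 538786319) (l 538841871)))) (a (c (b (l 538550287) (l 538605583)) (b (l 538819599) (l 538606607))) (c (b (l 538584591) (l 538639631)) (c (l 538614287) (l 538614543))))) (a (a (c (b (l 538619151) (l 538673935)) (b (l 538887183) (l 538942735))) (b (c (l 538653711) (l 538921231)) (c (l 538708751) (l 538976783)))) (a (b (c (l 538688527) (l 538955535)) (c (l 538945551) (l 538945807))) (b (c (l 538962447) (l 538963727)) (c (l 538909455) (l 538909967)))))) (a (a (a (b (c (l 538926095) (l 538927631)) (c (l 538604559) (l 538873871))) (b (c (l 538889231) (l 538891279)) (c (l 538568207) (l 538569231)))) (a (b (a (l 538594575) (l 538576143)) (c (a (l 538809871) (l 538791439)) (l 538667279))) (b (c (l 538546959) (l 538549775)) (c (a (l 538773263) (l 538755087)) (a (l 538774799) (l 538756623)))))) (b (a (a (c (l 538510095)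 (l 538512911)) (a (l 538752527) (l 3))) (l 3)) (a (a (c (a (l 538736911) (l 538718735)) (a (l 538738447) (l 538720271))) (a (b (l 538714383) (l 538689807)) (b (l 538696207) (l 538671631)))) (a (a (b (l 538678031) (l 538653711)) (l 538647055)) (a (l 538628879) (l 538610959))))))), by decide +kernel⟩

def k80_B00pm_102_s1 : ∃ t, chk3 f_B00pm_102_s1 t 1012 1012 1 = true :=
  ⟨(a (b (a (b (a (b (c (a (b (l 16780856) (l 16780872)) (l 16780840)) (a (l 16780864) (l 16780848))) (c (l 16780856) (l 16780856))) (b (l 16780776) (c (a (b (l 16780864) (l 16780872)) (l 16780848)) (a (l 16780872) (l 16780848))))) (c (a (l 16780808) (b (l 16780856) (l 16780824))) (a (l 16780808) (l 16780832)))) (b (c (l 538873103) (l 16780696)) (a (b (c (a (b (l 16780872) (l 16780880)) (l 16780856)) (a (l 16780872) (l 16780856))) (c (l 16780856) (l 16780856))) (b (l 16780784) (c (a (b (l 16780872) (l 16780880)) (l 16780856)) (a (l 16780872) (l 16780856))))))) (a (c (c (l 16780680) (l 16780680)) (l 16780672)) (b (b (a (l 16780816)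 (c (l 16780856) (l 16780856))) (c (l 16780784) (l 16780776))) (c (a (l 16780664) (l 16780712)) (a (l 16780656) (l 16780704)))))) (b (a (c (l 538913551) (l 16775360)) (c (l 538947855) (l 16775168))) (a (b (a (b (c (a (b (l 16780880) (l 16780880)) (l 16780856)) (a (b (l 16780880) (l 16780880)) (l 16780864))) (c (a (l 16780840) (l 16780864)) (l 16780848))) (a (b (l 16780816) (c (b (l 16780880) (l 16780880)) (l 16780880))) (c (l 16780816) (l 16780816)))) (a (c (l 16780768) (l 16780760)) (b (c (l 16780848) (l 16780848)) (l 16780784)))) (b (l 538699791) (a (b (c (b (l 16780864) (a (l 16780880) (l 16780880))) (b (l 16780864) (l 16780880))) (c (l 16780848) (l 16780848))) (b (l 16778152) (c (b (l 16780832) (a (l 16780880) (l 16780840))) (b (l 16780832) (l 16780880))))))))), by decide +kernel⟩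

def k81_B00pm_102_s1 : ∃ t, chk3 f_B00pm_102_s1 t 1012 1013 1 = true :=
  ⟨(a (b (c (a (b (a (l 16780464) (l 16780488)) (a (l 16780304) (l 16780336))) (b (l 16780552) (l 16780392))) (a (b (a (l 16780448) (l 16780472)) (a (l 16780272) (l 16780304))) (b (l 16780528) (l 16780360)))) (c (c (l 16780104) (l 16780072)) (c (l 16780048) (l 16780024)))) (b (a (c (c (l 16780576) (l 16780568)) (c (l 16780560) (l 16780544))) (b (b (a (l 16780776) (c (l 16780840) (l 16780840))) (c (l 16780736) (l 16780728))) (c (l 16780608) (l 16780592)))) (c (a (l 16780208) (c (l 16780336) (l 16780312))) (c (l 16780232) (l 16780208))))), by decide +kernel⟩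

def k82_B00pm_102_s1 : ∃ t, chk3 f_B00pm_102_s1 t 1013 1012 1 = true :=
  ⟨(a (a (c (l 538965775) (l 538964495)) (c (l 538930191) (l 538929167))) (a (c (l 538894351) (l 538893583)) (c (l 538590223) (l 538589455)))), by decide +kernel⟩

def k83_B00pm_102_s1 : ∃ t, chk3 f_B00pm_102_s1 t 1013 1013 1 = true :=
  ⟨(a (a (b (a (b (b (c (a (b (l 16780800) (l 16780880)) (l 16780736)) (a (l 16780848) (l 16780736))) (c (l 16780840) (l 16780840))) (c (l 16780712) (l 16780704))) (b (b (l 16780616) (a (c (b (l 16778096) (l 16780808)) (l 16780768)) (a (c (l 16778056) (l 16780672)) (l 16780632)))) (c (c (l 16778168) (l 16778160)) (b (l 16778208) (l 16780736))))) (b (c (l 16780560) (l 16780536)) (c (l 16780352) (l 16780312)))) (b (b (l 538630671) (a (a (b (c (b (l 16780640) (l 16780736)) (l 16780696)) (l 16778184)) (b (b (l 16780560) (c (l 16780600) (l 16780600))) (c (l 16778144) (l 16780760)))) (b (l 16780464) (a (c (b (l 16780568) (l 16780656)) (l 16780616)) (c (l 16780504) (l 16780504)))))) (b (a (c (l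 16780680) (l 16780672)) (b (a (l 16778176) (c (l 16778072) (l 16780688))) (c (l 16780720) (l 16780704)))) (c (l 16777888) (l 16775240))))) (b (a (c (l 538858255) (l 16774968)) (c (l 538822927) (l 538821391))) (a (b (a (a (b (c (b (l 16780488) (l 16780584)) (b (l 16780488) (l 16780584))) (c (l 16780784) (l 16780784))) (b (c (l 16780432) (l 16780424)) (c (l 16778000) (l 16780616)))) (b (l 16780312) (c (a (b (l 16780416) (l 16780512)) (l 16780352)) (a (b (l 16780408) (l 16780512)) (l 16780352))))) (b (b (a (l 16780728) (c (l 16777944) (l 16777944))) (c (l 16775480) (l 16775464))) (c (l 16780632) (l 16780616)))) (b (l 538536207) (b (a (c (a (b (l 16780344) (l 16780440)) (l 16780280)) (a (b (l 16780336) (l 16780440)) (l 16780280))) (l 16780168)) (b (a (c (l 16777872) (l 16777872)) (c (l 16780224) (l 16780224))) (a (c (l 16780640) (l 16780640)) (c (a (l 16780368) (l 16780232)) (a (l 16780368) (l 16780232)))))))))), by decide +kernel⟩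

def k84_B00pm_102_s1 : ∃ t, chk3 f_B00pm_102_s1 t 506 507 1 = true :=
  ⟨(b (a (c (a (b (c (l 16779688) (l 16779640)) (c (l 16779192) (l 16779128))) (b (c (l 16779840) (l 16779800)) (c (l 16779312) (l 16779256)))) (a (b (c (l 16779600) (l 16779560)) (c (l 16779064) (l 16779008))) (b (c (l 16779760) (l 16779720)) (c (l 16779192) (l 16779136))))) (a (c (b (c (a (l 16780008) (l 16780152)) (a (l 16779976) (l 16780128))) (c (l 16779528) (l 16779480))) (b (c (a (l 16779944) (l 16780096)) (l 16777368)) (c (l 16779424) (l 16779368)))) (c (b (b (b (a (l 16780512) (a (l 16780664) (b (l 16777808) (l 16780576)))) (a (l 16780384) (l 16780584))) (a (l 16780176) (c (l 16780392) (l 16780368)))) (c (c (l 16777232) (l 16777216)) (c (l 16777192) (l 16777176)))) (a (b (c (l 16775040) (l 16775024)) (b (l 16779816) (l 16779472))) (a (b (c (l 16775200) (l 16775184)) (l 16779800)) (b (b (a (l 16775424) (b (l 16777792) (l 16780656))) (l 16780400)) (l 16777288))))))) (a (c (a (b (c (l 16778608) (l 16778528)) (c (l 16777936)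 (l 16777824))) (b (c (l 16778704) (l 16778616)) (c (l 16778000) (l 16777888)))) (a (b (c (l 16778440) (l 16778352)) (c (l 16777712) (l 16777600))) (b (c (l 16778536) (l 16778448)) (c (l 16777776) (l 16777656))))) (c (a (b (c (l 16778888) (l 16778808)) (a (l 16778048) (l 16778152))) (b (a (l 16779056) (b (l 16779416) (l 16779040))) (a (l 16778280) (l 16778440)))) (a (b (c (l 16778728) (l 16778648)) (a (l 16777824) (l 16777936))) (a (b (l 16778912) (l 16778072)) (b (a (l 16779056) (l 16779160)) (l 16778240))))))), by decide +kernel⟩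

def k85_B00pm_102_s1 : ∃ t, chk3 f_B00pm_102_s1 t 507 506 1 = true :=
  ⟨(a (a (a (b (c (l 538554383) (l 538553871)) (c (l 538507023) (l 538773519))) (b (c (l 538518543) (l 538518287)) (c (l 538471951) (l 538738447)))) (a (b (c (l 538482959) (l 538482703)) (c (l 538705679) (l 538703375))) (b (c (l 538447119) (l 538446863)) (a (l 538678799) (l 538661391))))) (a (a (b (a (l 538689039) (l 538671375)) (a (l 538643983) (l 538626575))) (c (a (l 538629391) (l 538611983)) (a (l 538627855) (l 538610191)))) (a (c (a (l 538594575) (l 538577167)) (a (l 538592527) (l 538575119))) (b (a (l 538582799) (l 538565135)) (a (l 538540815) (l 538523919)))))), by decide +kernel⟩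

def k86_B00pm_102_s1 : ∃ t, chk3 f_B00pm_102_s1 t 2028 1014 1 = true :=
  ⟨(b (a (b (a (c (a (b (b (l 16780200) (l 16780304)) (l 16780528)) (b (l 16780136) (c (l 16777720) (l 16777720)))) (b (a (b (l 16780192) (l 16780304)) (l 16780136)) (c (l 16775200) (l 16775200)))) (b (l 16780024) (c (b (l 16780088) (a (l 16780232) (l 16780088))) (a (b (l 16780120) (l 16780232)) (l 16780064))))) (c (a (l 16780544) (b (a (l 16780464) (l 16777656)) (l 16780592))) (a (l 16780528) (b (c (l 16775136) (l 16775136)) (l 16780576))))) (b (l 538444047) (a (c (a (b (b (l 16780056) (l 16780168)) (l 16780400)) (b (l 16780000) (l 16777592))) (b (a (b (l 16780056) (l 16780168)) (l 16779992)) (c (l 16775072) (l 16775072)))) (b (l 16779888) (c (a (b (l 16779992) (l 16780104)) (l 16779936)) (a (b (l 16779984) (l 16780096)) (l 16779928))))))) (c (a (b (c (l 16775072) (l 16775048)) (l 16779976)) (b (a (l 16775248) (b (b (l 16777544) (l 16775088)) (l 16775296))) (c (l 16774992) (l 16774968)))) (a (c (b (l 16775032) (l 16779928))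 (l 16774832)) (b (a (l 16775224) (a (l 16775280) (b (l 16777528) (l 16780496)))) (c (l 16774944) (l 16774920)))))), by decide +kernel⟩

def k87_B00pm_102_s1 : ∃ t, chk3 f_B00pm_102_s1 t 2029 1014 1 = true :=
  ⟨(b (a (c (l 16777040) (l 16779656)) (c (l 16776784) (l 16776776))) (a (b (a (b (c (a (b (l 16779920) (l 16780040)) (l 16779864)) (b (l 16779880) (a (l 16780032) (l 16779888)))) (a (c (l 16780288) (l 16780296)) (c (l 16777472) (l 16777472)))) (b (l 16779752) (c (a (b (l 16779856) (l 16779976)) (l 16779800)) (b (l 16779816) (a (l 16779976) (l 16779816)))))) (c (a (l 16775184) (b (b (l 16777424) (l 16774976)) (l 16775232))) (a (l 16775152) (a (l 16775176) (b (l 16777408) (l 16780392)))))) (b (l 16779592) (a (b (c (a (b (l 16779792) (l 16779912)) (l 16779736)) (b (l 16779752) (a (l 16779912) (l 16779752)))) (c (b (l 16777360) (l 16774920)) (a (l 16774936) (l 16777352)))) (b (l 16779632) (c (a (b (l 16779728) (l 16779856)) (l 16779680)) (b (l 16779688) (a (l 16779848) (l 16779696))))))))),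 by decide +kernel⟩

def k88_B00pm_102_s1 : ∃ t, chk3 f_B00pm_102_s1 t 1014 1015 1 = true :=
  ⟨(a (a (b (c (b (l 16779624) (l 16779240)) (b (l 16779528) (l 16779120))) (c (b (l 16778832) (l 16778400)) (b (l 16778680) (l 16778208)))) (c (b (b (l 16779856) (l 16779472)) (b (l 16779056) (l 16778616))) (b (c (l 16779600) (l 16774312)) (b (l 16778920) (l 16778440))))) (c (b (a (b (c (l 16774896) (l 16774872)) (l 16779736)) (b (a (l 16775112) (b (b (l 16777304) (l 16774864)) (l 16775144))) (c (l 16774800) (l 16774776)))) (a (b (l 16779312) (l 16778856)) (c (l 16776776) (l 16776720)))) (b (a (b (c (l 16774848) (l 16774824)) (l 16779656)) (b (a (l 16775080) (b (a (l 16774888) (l 16777296)) (l 16775152))) (c (l 16774744) (l 16774720)))) (a (b (l 16779192) (l 16778704)) (b (l 16779512) (l 16779008)))))), by decide +kernel⟩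

def k89_B00pm_102_s1 : ∃ t, chk3 f_B00pm_102_s1 t 1015 1014 1 = true :=
  ⟨(a (a (a (l 538602767) (l 538586127)) (a (l 538569487) (l 538552847))) (a (a (l 538536463) (l 538520079)) (a (l 538503695) (l 538487311)))), by decide +kernel⟩

def k90_B00pm_102_s1 : ∃ t, chk3 f_B00pm_102_s1 t 2030 1015 1 = true :=
  ⟨(b (a (b (a (b (c (a (b (l 16779672) (l 16779792)) (l 16779616)) (a (b (l 16779664) (l 16779792)) (l 16779608))) (c (b (l 16777248) (l 16774816)) (a (l 16774832) (l 16777240)))) (b (l 16779504) (a (b (c (l 16779608) (l 16779600)) (l 16779736)) (c (l 16779560) (l 16779544))))) (c (a (l 16775032) (b (b (l 16777192) (l 16774760)) (l 16775056))) (a (l 16775000) (b (a (l 16774784) (l 16777184)) (l 16775072))))) (b (l 16779352) (a (b (a (b (c (l 16779552) (l 16779544)) (l 16779680)) (c (l 16779496) (l 16779488))) (c (b (l 16777144) (l 16774712)) (a (l 16774736) (l 16777128)))) (b (l 16779384) (a (b (c (l 16779496) (l 16779480)) (l 16779624)) (b (l 16779400) (c (l 16779464) (l 16779456))))))))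 (a (b (c (c (l 16774688) (l 16774664)) (c (l 16774632) (l 16774608))) (c (l 16779448) (l 16779352))) (c (b (a (l 16774944) (b (a (l 16774680) (l 16777080)) (l 16774968))) (c (l 16774576) (l 16774544))) (b (a (l 16774912) (b (a (l 16774688) (l 16777080)) (l 16774992))) (c (l 16774512) (l 16774480)))))), by decide +kernel⟩

def k91_B00pm_102_s1 : ∃ t, chk3 f_B00pm_102_s1 t 2031 1015 1 = true :=
  ⟨(b (a (c (l 16779184) (l 16779176)) (c (l 16778952) (l 16778944))) (a (b (a (b (a (b (c (l 16779440) (l 16779424)) (l 16779568)) (b (l 16779344) (c (l 16779408) (l 16779400)))) (c (a (l 16774632) (l 16777032)) (a (l 16774640) (l 16777024)))) (b (l 16779272) (a (b (c (l 16779384) (l 16779368)) (l 16779520)) (b (l 16779288) (c (l 16779352) (l 16779344)))))) (a (c (c (l 16774856) (l 16774840)) (l 16774816)) (b (b (a (l 16779728) (l 16779496)) (a (l 16777320) (l 16777088))) (a (a (l 16780072) (b (l 16780104) (l 16780064))) (b (c (l 16777296) (c (l 16774688) (l 16774696))) (c (l 16780128) (l 16780136)))))))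 (b (l 16779128) (a (a (b (b (b (l 16779288) (a (l 16779368) (l 16779296))) (a (l 16779528) (l 16779408))) (c (l 16774544) (l 16774552))) (b (b (l 16779240) (a (l 16779320) (l 16779256))) (b (l 16779440) (l 16779656)))) (b (l 16779168) (a (b (a (l 16779288) (l 16779232)) (l 16779416)) (b (l 16779184) (a (l 16779264) (l 16779208))))))))), by decide +kernel⟩

def k92_B00pm_102_s1 : ∃ t, chk3 f_B00pm_102_s1 t 127 126 1 = true :=
  ⟨(b (l 3) (a (a (a (a (a (b (a (b (l 538547727) (l 538507023)) (b (l 538530319) (l 538490127))) (b (a (l 538471183) (l 538455311)) (a (l 538441999) (l 538427151)))) (b (a (b (l 538512911) (l 538473487)) (b (l 538495503) (l 538456847))) (b (a (l 538439439) (l 538423567)) (a (l 538412303) (l 538397967))))) (a (b (a (b (l 538478095) (l 538440207)) (b (l 3) (l 538423823))) (b (a (l 538408207) (l 538392847)) (a (l 538383631) (l 538369551)))) (b (b (l 3) (a (l 538407439) (l 538391311))) (b (a (l 538377487) (l 538362639)) (a (l 538355727) (l 538342159)))))) (b (b (l 3) (a (a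 (a (l 538375183) (l 538359311)) (a (l 538343695) (l 3))) (l 3))) (b (a (a (a (l 538347791) (l 538333199)) (a (l 538318863) (l 538304527))) (a (a (l 538290447) (l 538276623)) (a (l 538263055) (l 538249743)))) (a (a (a (l 538328591) (l 538315279)) (a (l 538302479) (l 538289679))) (a (a (l 538277135) (l 538264847)) (a (l 537984527) (l 538107151))))))) (b (l 3) (b (l 3) (a (b (a (a (a (l 538232079) (l 538220559)) (a (l 538209551) (l 3))) (l 3)) (a (a (a (l 538231823) (l 538221327)) (a (l 538211343) (l 538201615))) (a (a (l 538192399) (l 538183695)) (l 3)))) (l 3))))) (l 3))), by decide +kernel⟩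

def k93_B00pm_102_s1 : ∃ t, chk3 f_B00pm_102_s1 t 252 508 1 = true :=
  ⟨(a (b (a (l 6) (a (l 6) (a (l 6) (b (b (c (l 16778480) (l 16778368)) (l 6)) (l 6))))) (l 6)) (b (a (a (a (b (c (b (a (l 16778232) (l 16778080)) (a (l 16777816) (l 16777696))) (b (a (l 16778096) (l 16777928)) (a (l 16777656) (l 16777528)))) (b (c (l 16777384) (l 16777192)) (l 6))) (c (b (b (l 16777920) (l 16777576)) (c (l 16777072) (l 16776960))) (b (b (a (l 16777800) (l 16777712)) (l 16777384)) (c (l 16776840) (l 16776728))))) (c (b (c (l 16777592) (l 16777488)) (c (l 16776840) (l 16776712))) (b (c (l 16777384) (l 16777272)) (c (a (l 16776664) (l 16776496)) (a (l 16776536) (l 16776360)))))) (c (a (b (c (l 16777376) (l 16777256)) (c (l 16776592) (l 16776440))) (b (c (l 16777232) (l 16777104)) (c (l 16776408) (l 16776240)))) (a (b (c (l 16777136) (l 16777008)) (c (l 16776288) (l 16776136))) (b (c (l 16776968) (l 16776832)) (c (l 16776080) (l 16775912)))))) (a (a (l 6) (a (b (b (c (l 16776232) (l 16775920)) (l 6)) (l 6))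 (b (c (c (l 16775920) (l 16775752)) (c (l 16775576) (l 16775408))) (b (c (l 16775120) (l 16774720)) (l 6))))) (c (a (b (c (l 16775712) (l 16775520)) (c (a (l 16774800) (l 16774648)) (a (l 16774584) (l 16774416)))) (b (c (l 16775488) (l 16775280)) (c (l 16774448) (l 16774208)))) (a (b (c (a (l 16775408) (l 16775264)) (a (l 16775224) (l 16775072))) (c (a (l 16774360) (l 16774184)) (a (l 16774136) (l 16773952)))) (b (c (l 16775072) (a (l 16774928) (l 16774816))) (c (a (l 16774032) (l 16773896)) (a (l 16773784) (l 16773640))))))))), by decide +kernel⟩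

def k94_B00pm_102_s1 : ∃ t, chk3 f_B00pm_102_s1 t 252 509 1 = true :=
  ⟨(a (l 6) (a (l 6) (b (b (a (a (l 6) (b (c (l 16773696) (l 16773168)) (c (l 16773104) (l 16772528)))) (c (c (l 16773304) (a (l 16773096) (l 16772936))) (c (a (l 16772800) (l 16772640)) (a (l 16772512) (l 16772336))))) (a (l 6) (a (b (c (l 16772288) (l 16771640)) (l 6)) (c (c (l 16771952) (l 16771608)) (c (l 16771248) (l 16770896)))))) (b (a (l 6) (a (l 6) (b (c (l 16770712) (l 16769920)) (l 6)))) (l 6))))), by decide +kernel⟩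

def k95_B00pm_102_s1 : ∃ t, chk3 f_B00pm_102_s1 t 506 508 1 = true :=
  ⟨(b (a (c (a (b (c (l 16777176) (l 16777032)) (c (l 16776304) (l 16776128))) (b (c (l 16777192) (l 16777048)) (c (l 16776288) (l 16776104)))) (a (b (c (l 16776888) (l 16776744)) (c (l 16775952) (l 16775776))) (b (c (l 16776904) (l 16776760)) (c (l 16775920) (l 16775736))))) (c (b (a (a (l 16777200) (l 16777280)) (a (l 16777392) (l 16777528))) (a (c (l 16776360) (l 16776176)) (b (l 16776712) (l 16776176)))) (a (b (a (l 16776912) (l 16777000)) (c (l 16775992) (l 16775808))) (b (a (l 16777112) (l 16777264)) (a (l 16776032) (l 16776160)))))) (a (c (a (b (c (l 16775336) (l 16775120)) (c (l 16774256) (l 16773992))) (b (c (l 16775272) (l 16775048)) (c (l 16774136) (l 16773864)))) (a (b (c (l 16774904) (l 16774680)) (c (l 16773728) (a (l 16773520) (l 16773424)))) (b (c (l 16774824) (l 16774592)) (c (l 16773592) (l 16773320))))) (c (b (a (c (l 16775296) (l 16775072)) (b (l 16775608) (l 16775008))) (a (b (l 16774288) (l 16773648))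 (b (l 16774376) (l 16773712)))) (b (a (c (l 16774840) (l 16774616)) (b (l 16775184) (l 16774536))) (a (c (l 16773560) (l 16773280)) (b (l 16773848) (l 16773128))))))), by decide +kernel⟩

def k96_B00pm_102_s1 : ∃ t, chk3 f_B00pm_102_s1 t 507 1016 1 = true :=
  ⟨(a (c (a (b (b (l 16778040) (l 16777536)) (b (l 16777016) (l 16776456))) (b (c (b (l 16778552) (l 16778048)) (b (l 16778464) (l 16777936))) (b (a (l 16777320) (l 16777568)) (l 16776856)))) (b (a (c (a (l 16777512) (l 16777720)) (b (l 16777760) (l 16777208))) (a (b (l 16778184) (l 16777632)) (b (l 16778480) (l 16777912)))) (a (b (l 16776704) (l 16776096)) (c (b (l 16777240) (l 16776616)) (b (l 16777104) (l 16776456)))))) (a (b (a (c (b (l 16778952) (l 16778416)) (b (l 16778808) (l 16778232))) (b (c (a (l 16779200) (l 16779384)) (a (l 16779088) (l 16779288))) (a (b (l 16778728) (c (l 16778520) (l 16778352))) (b (a (l 16778864) (c (l 16779032) (l 16778904))) (c (l 16778720) (l 16778568)))))) (a (b (a (c (l 16777776) (l 16777536)) (b (l 16777968)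 (c (l 16777792) (l 16777552)))) (a (b (c (l 16777336) (l 16777056)) (c (l 16777048) (l 16776752))) (c (l 16777392) (b (l 16777264) (l 16776984))))) (b (a (b (c (l 16778256) (a (l 16778000) (l 16778112))) (l 16777888)) (l 16778256)) (c (l 16777728) (l 16777488))))) (b (a (b (b (a (a (l 16779624) (b (l 16779792) (l 16779656))) (c (l 16777296) (b (l 16777320) (l 16779800)))) (a (a (b (l 16779416) (l 16779280)) (l 16779456)) (l 16779632))) (c (l 16779184) (l 16779072))) (a (b (c (l 16774768) (l 16774736)) (l 16776856)) (b (c (a (l 16774704) (b (l 16779496) (l 16774680))) (c (l 16774592) (l 16774600))) (c (l 16774496) (l 16774432))))) (c (a (l 16775808) (b (l 16779128) (l 16778624))) (a (l 16775632) (c (l 16773528) (l 16773464))))))), by decide +kernel⟩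

def k97_B00pm_102_s1 : ∃ t, chk3 f_B00pm_102_s1 t 507 1017 1 = true :=
  ⟨(a (b (a (c (b (l 16775864) (l 16775232)) (b (l 16775456) (l 16774776))) (a (b (c (l 16776136) (l 16775752)) (c (b (l 16775648) (l 16775328)) (a (l 16775000) (b (l 16775288) (l 16774936))))) (b (a (c (l 16776296) (l 16775936)) (c (b (l 16776592) (l 16776304)) (b (l 16776248) (l 16775944)))) (a (c (b (l 16775840) (l 16775568)) (b (l 16775440) (l 16775144))) (l 16775728))))) (a (b (c (l 16774576) (a (l 16774000) (l 16774136))) (a (c (l 16773824) (l 16773248)) (a (c (l 16773912) (l 16773344)) (c (b (l 16774168) (l 16773864)) (b (l 16773624) (l 16773296)))))) (a (b (a (c (b (l 16774936) (l 16774624)) (b (l 16774456) (l 16774112))) (c (l 16774960) (b (l 16774624) (l 16774336)))) (c (l 16774328) (l 16773800))) (c (l 16775048) (l 16774576))))) (c (a (b (b (a (l 16776776) (l 16777224)) (l 16776496)) (a (l 16775504) (l 16775960))) (a (b (l 16777424) (l 16776408)) (b (l 16777864) (l 16776856)))) (a (a (b (b (l 16776448) (l 16775904))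 (l 16775080)) (b (l 16776672) (l 16775568))) (b (a (l 16774536) (l 16775024)) (a (l 16773440) (l 16773928)))))), by decide +kernel⟩

def k98_B00pm_102_s1 : ∃ t, chk3 f_B00pm_102_s1 t 506 1018 1 = true :=
  ⟨(c (a (a (b (c (l 16773056) (l 16772744)) (b (l 16771896) (l 16771184))) (b (c (l 16772880) (l 16772560)) (b (l 16771672) (l 16770928)))) (b (a (b (l 16772976) (l 16772272)) (b (l 16773008) (l 16772264))) (a (b (l 16771528) (l 16770752)) (a (b (l 16771488) (b (l 16770888) (l 16770488))) (b (a (l 16771496) (b (l 16771720) (l 16771392))) (a (b (l 16770928) (l 16770616)) (l 16770984))))))) (a (b (a (c (a (l 16772496) (l 16772376)) (a (l 16772184) (l 16772056))) (c (l 16772232) (b (l 16772272) (l 16771528)))) (a (c (b (l 16771368) (l 16770616)) (b (l 16771008) (l 16770224))) (b (c (l 16771120) (l 16770744)) (c (l 16770328) (l 16769920))))) (a (b (b (l 16772344) (l 16771576)) (b (l 16770776) (a (l 16769968) (l 16769896)))) (b (a (b (l 16772352) (l 16771560)) (b (l 16772392) (l 16771576))) (a (b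 (l 16770720) (a (l 16769856) (c (l 16770064) (l 16769648)))) (b (a (l 16770728) (b (l 16770968) (a (l 16770552) (l 16770656)))) (a (b (a (l 16770072) (l 16770136)) (l 16769776)) (l 16770176)))))))), by decide +kernel⟩

def k99_B00pm_102_s1 : ∃ t, chk3 f_B00pm_102_s1 t 507 1018 1 = true :=
  ⟨(a (a (b (a (b (c (a (l 16773080) (l 16773128)) (a (l 16772440) (b (l 16772688) (l 16772296)))) (c (a (b (l 16772512) (l 16772168)) (l 16772496)) (a (b (l 16771832) (c (l 16771632) (l 16771272))) (b (l 16771952) (l 16771664))))) (b (b (a (c (l 16773400) (a (l 16772744) (l 16772824))) (l 16773304)) (c (l 16773224) (l 16772600))) (c (l 16772840) (l 16772184)))) (c (a (b (l 16771856) (l 16771344)) (l 16772072)) (a (b (c (l 16771304) (l 16770936)) (l 16770560)) (c (l 16771536) (l 16771168))))) (b (c (a (l 16773568) (l 16774032)) (a (l 16772968) (l 16770856))) (c (a (l 16772544) (l 16773008)) (a (c (l 16772032) (l 16771688)) (c (l 16772528) (l 16772200)))))) (a (b (c (a (l 16774488) (l 16774944)) (a (b (l 16774248)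 (l 16773696)) (b (l 16774744) (l 16774192)))) (c (a (l 16773464) (l 16773928)) (a (c (l 16773016) (l 16772712)) (c (l 16773504) (l 16773224))))) (b (c (a (l 16775392) (l 16775840)) (a (b (l 16775240) (l 16774688)) (b (l 16775720) (l 16775168)))) (c (a (l 16774376) (l 16774824)) (a (b (l 16774128) (l 16773576)) (b (l 16774616) (l 16774064))))))), by decide +kernel⟩

def k100_B00pm_102_s1 : ∃ t, chk3 f_B00pm_102_s1 t 2024 1019 1 = true :=
  ⟨(a (b (b (c (l 16770528) (l 16769712)) (a (l 6) (c (l 16769704) (l 16768824)))) (l 6)) (b (c (b (l 16770360) (l 16769568)) (c (l 16769320) (l 16768880))) (b (b (a (a (l 6) (a (b (b (l 16768680) (l 16768568)) (l 6)) (c (l 16768976) (l 16768024)))) (c (l 16768904) (l 16767944))) (b (a (l 6) (c (b (a (b (l 16766088) (l 16766104)) (l 16768624)) (a (l 16768848) (b (l 16765960) (l 16768624)))) (b (a (b (l 16765112) (a (l 6) (l 16765064))) (l 16767640)) (a (l 16767864) (a (l 16765040) (c (l 16765184) (l 16764688))))))) (c (l 16769264) (l 16768280)))) (c (l 16770192)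 (l 16769184))))), by decide +kernel⟩

def k101_B00pm_102_s1 : ∃ t, chk3 f_B00pm_102_s1 t 2025 1019 1 = true :=
  ⟨(c (b (b (l 16770144) (l 16769328)) (b (a (b (l 16768768) (b (c (l 16766096) (l 16765592)) (a (b (a (b (l 16765840) (l 16768544)) (b (l 16768336) (l 16765704))) (l 16768544)) (b (l 16768240) (a (a (l 16765616) (l 16765544)) (l 16768104)))))) (l 16768384)) (b (a (a (l 16769008) (b (a (l 16768424) (b (b (l 16765440) (l 16768104)) (l 16768240))) (l 16768656))) (b (a (b (l 16765320) (a (l 16765360) (l 16765200))) (l 16767784)) (a (l 16768112) (b (a (a (l 16765096) (l 16765024)) (l 16767592)) (a (l 16767808) (b (l 16764920) (l 16767584))))))) (l 16766312)))) (b (b (c (l 16769496) (l 16769064)) (c (l 16768624) (l 16768160))) (b (a (b (l 16767792) (b (a (c (l 16765136) (l 16764640)) (l 16767392)) (a (a (l 16767576) (b (b (l 16767328) (c (l 16764936) (l 16764432))) (l 16767392))) (b (l 16767216) (a (b (l 16764552) (l 16764552)) (l 16767072)))))) (l 16767376)) (b (a (a (l 16767984) (b (a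 (l 16767384) (b (a (l 16764464) (c (l 16764632) (l 16764104))) (l 16767192))) (l 16767608))) (b (a (b (a (l 16764296) (l 16766848)) (a (b (l 16764264) (l 16766960)) (b (l 16766760) (b (l 16764112) (l 16764112))))) (l 16766720)) (a (l 16767040) (b (a (b (a (l 16764000) (l 16766568)) (a (l 16766656) (l 16763928))) (l 16766512)) (a (l 16766720) (b (a (l 16763856) (l 16766408)) (l 16763864))))))) (a (l 16768424) (l 16767304)))))), by decide +kernel⟩

def k102_B00pm_102_s1 : ∃ t, chk3 f_B00pm_102_s1 t 1013 1019 2 = true :=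
  ⟨(a (b (b (l 16769936) (a (l 16769128) (a (l 16769048) (b (l 16769240) (l 16768888))))) (a (b (b (l 16768464) (l 16768024)) (b (a (a (b (l 16767720) (l 16764880)) (l 16767568)) (a (l 16764952) (l 16767648))) (a (b (b (a (b (l 16764800) (l 16767496)) (b (l 16764688) (a (l 16767304) (l 16764648)))) (a (l 16767632) (a (l 16767440) (l 16767360)))) (a (l 16767920) (l 16767744))) (b (b (l 16767424) (a (b (l 16764712) (l 16764736)) (l 16767424))) (b (a (l 16767520) (a (l 16764824) (c (l 16765088) (l 16764544)))) (l 16767704)))))) (a (b (b (l 16768424) (l 16765480)) (b (l 16767832) (b (l 16767640) (b (a (l 16764872) (l 16767600)) (a (b (l 16764888) (l 16767608)) (b (l 16767552) (c (l 16767832) (l 16764664)))))))) (l 16768208)))) (b (a (b (a (b (l 16770064) (l 16769680)) (b (l 16770144) (l 16769856))) (l 16769352)) (l 16770088)) (b (l 16769072) (l 16768552)))), by decide +kernel⟩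

def k103_B00pm_102_s1 : ∃ t, chk3 f_B00pm_102_s1 t 1013 1019 3 = true :=
  ⟨(b (a (a (b (l 16769088) (l 16768176)) (b (l 16769000) (a (c (l 16768328) (l 16767840)) (a (b (l 16768288) (l 16767848)) (b (l 16768288) (l 16767936)))))) (a (b (a (b (l 16769176) (a (l 16768728) (l 16768776))) (a (b (l 16769208) (l 16768888)) (l 16769160))) (c (l 16768648) (l 16768168))) (c (l 16769424) (l 16768984)))) (a (b (a (a (l 16767248) (a (l 16767192) (c (l 16767432) (l 16766912)))) (a (b (a (l 16767376) (l 16767416)) (l 16767048)) (l 16767448))) (a (b (a (a (a (c (l 16764200) (c (l 16763792) (l 16763520))) (l 16766512)) (l 16766480)) (a (b (l 16763952) (l 16763752)) (l 16763944))) (a (a (a (l 16766680) (b (b (b (a (l 16763656) (l 16763616)) (l 16766320)) (l 16766456)) (a (l 16766760) (l 16766704)))) (b (b (a (b (l 16766208) (c (l 16766472) (l 16763296))) (b (l 16766192) (b (l 16766152) (c (l 16766424) (l 16763240))))) (c (a (l 16766608) (l 16766528)) (a (l 16763424) (l 16763344)))) (l 16766624))) (b (b (l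 16766320) (a (b (a (c (l 16766472) (l 16763288)) (l 16766240)) (a (l 16766256) (b (l 16763600) (l 16763616)))) (l 16766320))) (b (a (l 16766408) (a (b (c (l 16766568) (l 16763384)) (l 16766392)) (b (l 16763688) (l 16763720)))) (l 16766592))))) (b (l 16766896) (b (l 16766680) (a (b (a (b (l 16766400) (a (b (l 16766344) (l 16763728)) (l 16766392))) (l 16766512)) (a (a (l 16766464) (b (b (l 16766384) (l 16763776)) (l 16766480))) (b (l 16766464) (a (b (l 16763800) (l 16766456)) (l 16763848))))) (l 16766672)))))) (b (c (l 16768344) (l 16767856)) (c (l 16767792) (l 16767288))))), by decide +kernel⟩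

def k104_B00pm_102_s1 : ∃ t, chk3 f_B00pm_102_s1 t 507 1019 1 = true :=
  ⟨(a (b (a (c (b (l 16771064) (l 16770552)) (b (c (l 16770464) (l 16770056)) (c (l 16769912) (l 16769488)))) (c (b (l 16772008) (l 16771488)) (b (c (l 16771464) (l 16771096)) (c (l 16770912) (l 16770528))))) (a (c (c (l 16770000) (l 16769544)) (b (c (l 16769360) (l 16768912)) (c (l 16768816) (l 16768344)))) (c (c (l 16770920) (l 16770504)) (b (c (l 16770368) (l 16769952)) (c (l 16769816) (l 16769384)))))) (b (a (c (a (l 16772440) (l 16772896)) (a (c (l 16771928) (l 16771576)) (c (l 16772416) (l 16772088)))) (c (a (l 16773352) (l 16773800)) (a (b (l 16773024) (l 16772464)) (b (l 16773512) (l 16772952))))) (a (c (b (l 16771896) (l 16771384)) (b (c (l 16771352) (l 16770984)) (c (l 16770800) (l 16770416)))) (c (b (l 16772808) (l 16772296)) (b (c (l 16772320) (l 16771992)) (c (l 16771776) (l 16771424))))))), by decide +kernel⟩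

def k105_B00pm_102_s1 : ∃ t, chk3 f_B00pm_102_s1 t 252 255 1 = true :=
  ⟨(l 6), by decide +kernel⟩

def k106_B00pm_102_s1 : ∃ t, chk3 f_B00pm_102_s1 t 1012 1020 1 = true :=
  ⟨(a (l 6) (b (a (b (c (l 16770576) (l 16769496)) (l 6)) (b (a (c (l 16769760) (c (l 16768928) (l 16768368))) (c (b (a (l 16768992) (b (l 16768536) (l 16768928))) (a (b (l 16769544) (l 16769952)) (l 16769600))) (b (b (l 16767560) (a (l 16768056) (a (l 16767848) (l 16767752)))) (a (a (b (l 16768480) (l 16768856)) (b (l 16768352) (l 16768784))) (l 16768472))))) (a (b (a (l 6) (c (b (l 16770552) (l 16770984)) (c (l 16769928) (a (l 16769392) (l 16769312))))) (l 6)) (c (l 16771048) (l 16769920))))) (a (l 6) (c (l 16768696) (c (l 16773088) (l 16767272)))))), by decide +kernel⟩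

def k107_B00pm_102_s1 : ∃ t, chk3 f_B00pm_102_s1 t 1013 1020 2 = true :=
  ⟨(b (b (a (b (b (a (a (a (l 16768328) (l 16768208)) (l 16768056)) (a (l 16767840) (b (a (b (l 16765000) (l 16765032)) (l 16767720)) (a (l 16767808) (a (l 16765112) (c (l 16765376) (l 16764840))))))) (l 16768416)) (l 16769120)) (b (a (b (l 16768000) (a (b (a (b (l 16765176) (l 16767888)) (b (l 16767848) (l 16765224))) (l 16765392)) (a (b (l 16767944) (b (l 16767912) (l 16765320))) (l 16768040)))) (l 16768400)) (a (a (l 16768592) (a (l 16768440) (b (b (b (l 16765368) (l 16768048)) (l 16768216)) (l 16768568)))) (b (a (b (l 16765512) (a (b (l 16765464) (l 16768176)) (b (l 16768136) (l 16765512)))) (l 16768328)) (a (l 16768408) (b (a (b (l 16768200) (l 16765600)) (l 16768296)) (a (l 16768376) (b (l 16765656) (l 16768328))))))))) (a (l 16770512) (l 16767040))) (a (c (l 16768296) (l 16767752)) (c (l 16767416) (l 16766888)))), by decide +kernel⟩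

def k108_B00pm_102_s1 : ∃ t, chk3 f_B00pm_102_s1 t 1013 1020 3 = true :=
  ⟨(b (b (b (a (b (a (a (a (a (a (l 16767264) (l 16767216)) (l 16767168)) (l 16767096)) (l 16766944)) (a (c (l 16764400) (l 16763848)) (b (a (b (a (b (l 16766496) (l 16763880)) (l 16766552)) (a (l 16766568) (a (l 16763920) (l 16763928)))) (l 16766640)) (a (l 16766720) (b (a (b (l 16763960) (l 16766616)) (l 16764000)) (a (l 16766704) (l 16764032))))))) (l 16767312)) (a (a (b (a (b (l 16766768) (b (l 16766712) (c (l 16766960) (l 16763800)))) (l 16766864)) (b (a (b (a (l 16766720) (a (l 16764072) (l 16764080))) (l 16766816)) (a (b (l 16766744) (b (l 16764112) (l 16766768))) (l 16764176))) (c (l 16767208) (l 16764040)))) (b (l 16767056) (b (l 16766952) (a (b (c (l 16767120) (l 16763960)) (a (l 16766872) (a (l 16764232) (l 16764240)))) (l 16766952))))) (l 16767376))) (a (c (l 16768288) (l 16767736)) (a (a (l 16767520) (b (a (l 16767136) (b (a (b (b (l 16764272) (l 16766920)) (l 16767008)) (b (l 16766936) (l 16764344))) (l 16767160)))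 (l 16767552))) (b (a (b (a (a (c (l 16767256) (l 16764104)) (l 16767040)) (l 16767136)) (a (b (a (l 16767024) (c (l 16767280) (l 16764128))) (l 16767120)) (a (b (l 16767056) (a (l 16767064) (l 16764440))) (l 16767104)))) (l 16767296)) (a (c (l 16765000) (l 16764464)) (b (a (b (c (l 16767416) (l 16764272)) (a (l 16767176) (c (l 16767432) (l 16764288)))) (l 16767256)) (a (l 16767328) (b (c (l 16764880) (a (l 16764336) (l 16766984))) (a (l 16767312) (l 16764648)))))))))) (a (c (l 16769688) (l 16769128)) (a (l 16766184) (l 16765784)))) (a (c (l 16767200) (a (l 16766856) (l 16766440))) (b (l 16767808) (a (l 16772448) (l 16772032))))), by decide +kernel⟩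

def k109_B00pm_102_s1 : ∃ t, chk3 f_B00pm_102_s1 t 507 2040 2 = true :=
  ⟨(a (b (a (a (c (l 16766392) (l 16768520)) (l 16769232)) (l 16769936)) (a (b (a (b (a (b (a (b (l 16765744) (l 16768456)) (b (l 16768416) (l 16765800))) (l 16765952)) (a (b (l 16768520) (b (l 16768488) (l 16765888))) (l 16768608))) (a (l 16768920) (a (l 16768768) (b (b (l 16765936) (l 16768608)) (l 16768776))))) (b (l 16768904) (a (b (l 16766080) (a (b (l 16766024) (l 16768736)) (b (l 16768696) (l 16766080)))) (l 16768896)))) (a (l 16769496) (b (a (l 16768960) (b (a (b (l 16768768) (l 16766160)) (l 16768856)) (a (l 16768928) (b (l 16766216) (l 16768888))))) (l 16769320)))) (a (b (l 16769312) (b (l 16769128) (a (b (a (b (c (l 16769168) (l 16766056)) (l 16769008)) (b (l 16768976) (l 16766352))) (l 16766504)) (b (l 16769136) (a (a (b (l 16769016) (l 16769056)) (l 16766440)) (l 16769136)))))) (l 16769656)))) (a (b (l 16770864) (l 16770352)) (b (l 16771784) (a (l 16771040) (l 16771488))))), by decide +kernel⟩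

def k110_B00pm_102_s1 : ∃ t, chk3 f_B00pm_102_s1 t 507 2040 3 = true :=
  ⟨(a (b (a (a (c (l 16768016) (c (l 16767640) (l 16767392))) (l 16768272)) (c (l 16769264) (l 16768816))) (a (b (a (b (a (b (a (b (a (l 16767328) (c (l 16767584) (l 16764440))) (l 16767424)) (b (l 16767392) (c (l 16765032) (a (l 16764488) (l 16767136))))) (c (l 16765184) (l 16764664))) (b (l 16767568) (a (b (c (l 16767720) (l 16767208)) (a (l 16767480) (c (l 16767728) (l 16764600)))) (l 16767560)))) (a (l 16767888) (a (l 16767744) (b (b (c (l 16765176) (a (l 16764648) (l 16767296))) (a (l 16767616) (l 16764952))) (l 16767760))))) (a (b (l 16767792) (b (a (c (l 16767888) (l 16764760)) (l 16767752)) (a (b (a (l 16767632) (c (l 16767880) (l 16764752))) (l 16767720)) (b (l 16767696) (c (l 16765328) (a (l 16764800) (l 16767448))))))) (l 16767976))) (a (l 16768472) (a (c (l 16768432) (l 16767928)) (b (b (a (b (c (l 16768016) (l 16767520)) (a (l 16767784) (c (l 16768032) (l 16767528)))) (l 16767864)) (a (l 16767928) (b (c (l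 16765472) (a (l 16764952) (l 16767600))) (c (l 16768144) (l 16765024))))) (l 16768224))))) (b (l 16768616) (b (c (l 16768656) (c (l 16768296) (l 16768056))) (a (a (b (a (b (a (l 16767936) (c (l 16768176) (l 16767680))) (l 16768024)) (b (l 16768000) (a (c (l 16768224) (l 16765104)) (l 16768000)))) (a (l 16768192) (c (l 16768344) (l 16765224)))) (b (l 16768176) (a (b (a (l 16765416) (l 16768088)) (a (l 16768080) (c (l 16768320) (l 16767832)))) (l 16768168)))) (l 16768520)))))) (a (b (c (l 16770256) (l 16769840)) (c (l 16769704) (l 16769272))) (b (c (l 16771224) (l 16770856)) (c (l 16770680) (l 16770288))))), by decide +kernel⟩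

def k111_B00pm_102_s1 : ∃ t, chk3 f_B00pm_102_s1 t 1014 2041 1 = true :=
  ⟨(b (a (c (l 16768032) (c (l 16769888) (l 16769384))) (b (a (c (b (a (l 16769464) (a (l 16769312) (b (b (l 16766496) (l 16769160)) (l 16769328)))) (l 16769808)) (a (l 16768704) (b (b (a (l 16768224) (b (a (c (l 16768368) (l 16765256)) (l 16768152)) (c (l 16768432) (l 16765328)))) (l 16768400)) (l 16768736)))) (b (a (c (b (l 16769256) (a (b (c (l 16769440) (l 16766336)) (l 16769280)) (c (l 16766880) (l 16766400)))) (b (c (l 16768536) (l 16765432)) (a (a (l 16768280) (b (c (l 16768472) (l 16767984)) (l 16768296))) (b (l 16768296) (a (c (l 16768512) (l 16765408)) (l 16768296)))))) (c (l 16769448) (l 16768504))) (a (c (l 16769504) (a (l 16768592) (c (l 16766120) (c (l 16765752) (l 16765512))))) (c (b (a (a (b (l 16769288) (l 16769328)) (l 16766712)) (l 16769408)) (a (l 16769472) (b (c (l 16769624) (l 16769152)) (l 16766808)))) (b (a (a (b (l 16765712) (l 16768376)) (b (l 16768384) (c (l 16768616) (l 16768136)))) (l 16768464))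 (a (l 16768520) (b (a (c (l 16768656) (l 16765560)) (l 16768448)) (c (l 16768720) (l 16765624))))))))) (c (l 16770280) (c (l 16769552) (l 16769064))))) (c (a (l 16772440) (l 16768984)) (a (l 16768800) (c (l 16770880) (l 16770392))))), by decide +kernel⟩

def k112_B00pm_102_s1 : ∃ t, chk3 f_B00pm_102_s1 t 1015 4082 1 = true :=
  ⟨(a (b (c (a (l 16769736) (l 16770192)) (b (l 16769136) (c (l 16769232) (c (l 16768888) (l 16768664))))) (a (b (a (b (c (a (b (c (l 16767080) (l 16766616)) (l 16769552)) (c (l 16767144) (l 16766680))) (a (a (l 16765952) (b (a (l 16765888) (l 16768520)) (l 16768584))) (b (l 16768592) (a (c (l 16768800) (l 16765704)) (l 16768592))))) (c (c (l 16769896) (l 16766808)) (a (l 16768776) (a (l 16768704) (c (l 16768896) (l 16765800)))))) (c (b (l 16769688) (a (a (b (l 16769560) (l 16769600)) (l 16766984)) (l 16769680))) (b (l 16768768) (a (a (b (l 16766008) (l 16768664)) (b (l 16768680) (c (l 16768904) (l 16768432)))) (l 16768760))))) (a (c (l 16770000) (l 16769056)) (c (b (a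 (l 16769736) (b (c (l 16769888) (l 16766808)) (l 16767080))) (l 16769912)) (b (a (l 16768808) (b (a (c (l 16768944) (l 16765856)) (l 16768744)) (a (l 16768792) (a (l 16768760) (l 16766128))))) (l 16768984))))) (a (b (c (l 16769880) (l 16768984)) (c (b (l 16769792) (a (b (c (l 16767344) (l 16766888)) (l 16769816)) (b (l 16769792) (a (l 16769768) (l 16769792))))) (b (c (l 16769112) (l 16768656)) (a (a (l 16766240) (b (c (l 16769040) (l 16768584)) (l 16768872))) (b (l 16768888) (a (c (l 16769088) (l 16766000)) (l 16768888))))))) (c (l 16770048) (l 16769160))))) (a (c (l 16770520) (l 16769672)) (l 14))), by decide +kernel⟩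

def k113_B00pm_102_s1 : ∃ t, chk3 f_B00pm_102_s1 t 1015 4083 1 = true :=
  ⟨(a (a (c (l 16770992) (l 16767440)) (b (a (a (c (l 16770304) (l 16769392)) (c (l 16770200) (c (l 16769520) (a (l 16769088) (l 16769040))))) (b (c (b (a (a (b (l 16769824) (l 16769864)) (l 16767256)) (l 16769944)) (a (l 16770000) (b (a (l 16769904) (l 16769928)) (b (l 16767320) (l 16769984))))) (b (a (a (b (l 16766296) (l 16768952)) (b (l 16768976) (b (l 16768952) (l 16766336)))) (l 16769048)) (a (l 16769096) (b (a (a (l 16766368) (l 16766376)) (l 16769032)) (a (l 16769080) (l 14)))))) (c (l 16770280) (l 16769376)))) (c (l 16771032) (l 16770120)))) (l 14)), by decide +kernel⟩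

def k114_B00pm_102_s1 : ∃ t, chk3 f_B00pm_102_s1 t 253 1021 1 = true :=
  ⟨(a (a (l 6) (a (b (c (l 16771640) (c (l 16770816) (l 16770256))) (l 6)) (b (c (l 16770736) (c (l 16769936) (l 16769408))) (c (l 16774240) (c (l 16773440) (l 16772904)))))) (a (b (c (a (c (l 16770104) (l 16769600)) (c (l 16769232) (l 16768744))) (a (c (l 16769088) (a (l 16768784) (l 16768376))) (b (l 16769768) (c (l 16774368) (l 16773880))))) (c (a (l 16773320) (l 16772424)) (a (c (l 16772560) (l 16772040)) (c (l 16771696) (l 16771200))))) (a (b (b (c (l 16769912) (c (l 16771840) (l 16771376))) (c (l 16774256) (l 16770704))) (l 14)) (l 14)))), by decide +kernel⟩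

def k115_B00pm_102_s1 : ∃ t, chk3 f_B00pm_102_s1 t 253 511 1 = true :=
  ⟨(a (l 6) (b (a (b (b (c (l 16775416) (a (l 16774848) (l 16773976))) (a (c (l 16772312) (l 16776528)) (l 14))) (a (b (c (l 16773976) (l 16778184)) (l 6)) (l 14))) (l 14)) (l 14))), by decide +kernel⟩

def k116_B00pm_102_s1 : ∃ t, chk3 f_B00pm_102_s1 t 2032 1016 1 = true :=
  ⟨(b (a (a (b (a (b (b (a (l 16779240) (l 16779176)) (l 16779368)) (c (l 16774440) (l 16774448))) (b (b (l 16779136) (a (l 16779216) (l 16779152))) (b (l 16779344) (l 16779552)))) (c (l 16774712) (l 16774672))) (b (b (l 16779064) (a (b (a (l 16779192) (l 16779128)) (l 16779320)) (b (l 16779080) (a (l 16779168) (l 16779104))))) (c (a (l 16774600) (b (l 16779400) (l 16774576))) (c (l 16774496) (l 16774504))))) (b (l 16778936) (b (a (a (b (a (l 16779144) (l 16779080)) (l 16779272)) (b (l 16779032) (a (l 16779120) (l 16779056)))) (l 16778968)) (b (a (a (l 16779480) (l 16779248)) (a (a (l 16779096) (l 16779032)) (l 16778984))) (a (c (l 16774328) (l 16774344))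 (a (l 16779224) (a (l 16779072) (l 16779008)))))))) (b (a (c (c (l 16774336) (l 16774304)) (l 16774248)) (a (c (l 16774648) (l 16774608)) (c (a (l 16774504) (b (l 16779304) (l 16774480))) (b (c (l 16774184) (l 16774192)) (l 16774632))))) (c (a (l 16779064) (c (l 16774272) (l 16774232))) (a (l 16778944) (c (l 16774200) (l 16774160)))))), by decide +kernel⟩

def k117_B00pm_102_s1 : ∃ t, chk3 f_B00pm_102_s1 t 2033 1016 1 = true :=
  ⟨(b (a (b (l 16778720) (l 16778840)) (a (l 538346255) (l 538333711))) (a (b (b (a (a (b (a (l 16779048) (l 16778984)) (l 16779176)) (b (l 16778944) (a (l 16779024) (l 16778968)))) (l 16778880)) (b (a (a (l 16779392) (l 16779152)) (a (a (l 16779000) (l 16778944)) (l 16778896))) (a (c (l 16774240) (l 16774256)) (a (l 16779136) (a (l 16778984) (l 16778920)))))) (c (a (l 16774576) (a (l 16774416) (b (l 16779216) (l 16774392)))) (a (l 16774528) (b (c (l 16774096) (l 16774104)) (l 16774544))))) (b (l 16778752) (b (a (a (b (a (l 16778960) (l 16778896)) (l 16779088)) (b (l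 16778856) (a (l 16778936) (l 16778880)))) (l 16778792)) (b (a (a (l 16779304) (l 16779072)) (a (a (l 16778920) (l 16778856)) (l 16778816))) (a (c (l 16774152) (l 16774168)) (a (l 16779048) (a (l 16778896) (l 16778840))))))))), by decide +kernel⟩

def k118_B00pm_102_s1 : ∃ t, chk3 f_B00pm_102_s1 t 1016 1017 1 = true :=
  ⟨(a (c (a (b (l 16775688) (l 16777296)) (b (a (l 16778632) (l 16776224)) (l 16775112))) (b (a (l 16775504) (b (l 16778872) (l 16778328))) (a (l 16774408) (b (l 16777776) (l 16777232))))) (c (b (b (a (c (l 16774200) (l 16774160)) (a (l 16774496) (a (l 16774336) (b (l 16779136) (l 16774312))))) (a (l 16778920) (c (l 16774120) (l 16774080)))) (a (b (l 16778416) (l 16777912)) (a (l 16775856) (l 16776072)))) (b (b (a (c (l 16774120) (l 16774080)) (a (l 16774448) (a (l 16774360) (b (l 16779144) (l 16774344))))) (a (l 16778800) (c (l 16774040) (l 16774000)))) (a (b (l 16778248) (l 16777704)) (b (l 16778712) (l 16778168)))))), by decide +kernel⟩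

def k119_B00pm_102_s1 : ∃ t, chk3 f_B00pm_102_s1 t 2034 508 1 = true :=
  ⟨(b (a (a (l 538217999) (c (l 538309903) (l 538304271))) (a (c (l 538298639) (l 538293263)) (c (l 538287375) (l 538282511)))) (b (a (b (b (a (a (b (a (l 16778880) (l 16778816)) (l 16779008)) (b (l 16778776) (a (l 16778856) (l 16778800)))) (l 16778712)) (b (a (c (l 16779104) (l 16776488)) (a (a (l 16778840) (l 16778776)) (l 16778736))) (a (c (l 16774072) (l 16774088)) (a (l 16778976) (a (l 16778824) (l 16778760)))))) (c (a (c (l 16774424) (l 16774400)) (b (a (l 16774040) (l 16779056)) (l 16774352))) (a (l 16774368) (b (b (l 16776456) (l 16774056)) (l 16774384))))) (b (c (l 16778600) (l 16778600)) (b (a (a (b (c (l 16778784) (l 16778776)) (l 16778936)) (b (l 16778696) (c (l 16778760) (l 16778760)))) (l 16778640)) (b (a (c (l 16779032) (l 16776416)) (a (c (l 16778744) (l 16778744)) (l 16778664))) (a (c (l 16774000) (l 16774016)) (a (l 16778904) (a (b (l 16778712) (l 16778784)) (l 16778688)))))))) (a (b (c (c (c (l 16774040)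 (l 16774024)) (l 16773992)) (c (l 16773952) (l 16773912))) (c (l 16778752) (l 16778624))) (b (c (a (c (l 16774336) (l 16774312)) (b (a (l 16773976) (l 16778984)) (l 16774280))) (a (c (l 16774288) (l 16774264)) (b (a (l 16773992) (l 16776376)) (l 16774320)))) (a (c (l 16779064) (l 16778968)) (b (b (l 16776808) (l 16776672)) (l 16779096))))))), by decide +kernel⟩

def k120_B00pm_102_s1 : ∃ t, chk3 f_B00pm_102_s1 t 2035 508 1 = true :=
  ⟨(b (a (a (c (l 538276623) (l 538272015)) (c (l 538266127) (l 538262031))) (a (c (l 538256143) (l 538252303)) (c (l 538246415) (l 538243087)))) (b (a (a (l 538281999) (l 538273551)) (a (l 538265615) (l 538257935))) (a (b (b (a (a (b (a (b (l 16778696) (l 16778760)) (l 16778672)) (l 16778864)) (b (l 16778632) (a (b (l 16778672) (l 16778744)) (l 14)))) (l 16778576)) (a (a (b (l 16779080) (l 16776680)) (l 14)) (l 14))) (l 14)) (l 14)))), by decide +kernel⟩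

def k121_B00pm_102_s1 : ∃ t, chk3 f_B00pm_102_s1 t 508 509 1 = true :=
  ⟨(a (b (a (b (c (a (l 16776280) (l 16776720)) (a (b (l 16776208) (l 16775656)) (b (l 16776680) (l 16776128)))) (c (a (l 16775264) (l 16775704)) (a (b (l 16775104) (l 16774552)) (b (l 16775576) (l 16775024))))) (b (c (a (b (l 16777400) (l 16776896)) (b (l 16777824) (l 16777320))) (a (b (l 16777152) (l 16776600)) (b (l 16777616) (l 16777072)))) (c (a (l 16776136) (b (l 16776816) (l 16776304))) (a (b (l 16776048) (l 16775496)) (b (l 16776520) (l 16775968)))))) (a (b (c (a (l 16774248) (l 16774680)) (a (b (l 16773992) (l 16773440)) (b (l 16774472) (l 16773920)))) (b (c (l 16773696) (c (l 16773272) (l 16772984))) (a (c (l 16772968) (l 16772328)) (l 14)))) (a (b (b (c (l 16775368) (l 16774944)) (l 14)) (l 14)) (l 14)))) (b (b (a (b (c (a (l 16778248) (l 16778656)) (a (l 16778080) (l 16775912))) (a (c (l 16777736) (l 16777528)) (l 14))) (l 14)) (l 14)) (l 14))), by decide +kernel⟩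

def k122_B00pm_102_s1 : ∃ t, chk3 f_B00pm_102_s1 t 509 254 1 = true :=
  ⟨(b (b (a (a (a (a (c (l 538237199) (l 538234127)) (c (l 538228495) (l 538225679))) (a (c (l 538220047) (l 538217487)) (c (l 538212111) (l 538209807)))) (a (a (c (l 538204687) (l 538202639)) (l 14)) (l 14))) (l 14)) (l 14)) (l 14)), by decide +kernel⟩

def k123_B00pm_102_s1 : ∃ t, chk3 f_B00pm_102_s1 t 255 254 1 = true :=
  ⟨(l 14), by decide +kernel⟩

def k124_B00pm_102_s1 : ∃ t, chk3 f_B00pm_102_s1 t 127 255 1 = true :=
  ⟨(l 14), by decide +kernel⟩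

theorem t125_B00pm_102_s1 : ∃ t, chk3 f_B00pm_102_s1 t 1017 508 1 = true := ex3_a k119_B00pm_102_s1 k120_B00pm_102_s1

theorem t126_B00pm_102_s1 : ∃ t, chk3 f_B00pm_102_s1 t 1016 1016 1 = true := ex3_a k116_B00pm_102_s1 k117_B00pm_102_s1

theorem t127_B00pm_102_s1 : ∃ t, chk3 f_B00pm_102_s1 t 1016 508 1 = true := ex3_b t126_B00pm_102_s1 k118_B00pm_102_s1

theorem t128_B00pm_102_s1 : ∃ t, chk3 f_B00pm_102_s1 t 508 508 1 = true := ex3_a t127_B00pm_102_s1 t125_B00pm_102_s1

theorem t129_B00pm_102_s1 : ∃ t, chk3 f_B00pm_102_s1 t 508 254 1 = true := ex3_b t128_B00pm_102_s1 k121_B00pm_102_s1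

theorem t130_B00pm_102_s1 : ∃ t, chk3 f_B00pm_102_s1 t 254 254 1 = true := ex3_a t129_B00pm_102_s1 k122_B00pm_102_s1

theorem t131_B00pm_102_s1 : ∃ t, chk3 f_B00pm_102_s1 t 127 254 1 = true := ex3_a t130_B00pm_102_s1 k123_B00pm_102_s1

theorem t132_B00pm_102_s1 : ∃ t, chk3 f_B00pm_102_s1 t 127 127 1 = true := ex3_b t131_B00pm_102_s1 k124_B00pm_102_s1

theorem t133_B00pm_102_s1 : ∃ t, chk3 f_B00pm_102_s1 t 1015 2041 1 = true := ex3_b k112_B00pm_102_s1 k113_B00pm_102_s1

theorem t134_B00pm_102_s1 : ∃ t, chk3 f_B00pm_102_s1 t 507 2041 1 = true := ex3_a k111_B00pm_102_s1 t133_B00pm_102_s1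

theorem t135_B00pm_102_s1 : ∃ t, chk3 f_B00pm_102_s1 t 507 2040 1 = true := ex3_c k109_B00pm_102_s1 k110_B00pm_102_s1

theorem t136_B00pm_102_s1 : ∃ t, chk3 f_B00pm_102_s1 t 507 1020 1 = true := ex3_b t135_B00pm_102_s1 t134_B00pm_102_s1

theorem t137_B00pm_102_s1 : ∃ t, chk3 f_B00pm_102_s1 t 1013 1020 1 = true := ex3_c k107_B00pm_102_s1 k108_B00pm_102_s1

theorem t138_B00pm_102_s1 : ∃ t, chk3 f_B00pm_102_s1 t 506 1020 1 = true := ex3_a k106_B00pm_102_s1 t137_B00pm_102_s1

theorem t139_B00pm_102_s1 : ∃ t, chk3 f_B00pm_102_s1 t 253 1020 1 = true := ex3_a t138_B00pm_102_s1 t136_B00pm_102_s1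

theorem t140_B00pm_102_s1 : ∃ t, chk3 f_B00pm_102_s1 t 253 510 1 = true := ex3_b t139_B00pm_102_s1 k114_B00pm_102_s1

theorem t141_B00pm_102_s1 : ∃ t, chk3 f_B00pm_102_s1 t 253 255 1 = true := ex3_b t140_B00pm_102_s1 k115_B00pm_102_s1

theorem t142_B00pm_102_s1 : ∃ t, chk3 f_B00pm_102_s1 t 126 255 1 = true := ex3_a k105_B00pm_102_s1 t141_B00pm_102_s1

theorem t143_B00pm_102_s1 : ∃ t, chk3 f_B00pm_102_s1 t 1013 1019 1 = true := ex3_c k102_B00pm_102_s1 k103_B00pm_102_s1

theorem t144_B00pm_102_s1 : ∃ t, chk3 f_B00pm_102_s1 t 1012 1019 1 = true := ex3_a k100_B00pm_102_s1 k101_B00pm_102_s1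

theorem t145_B00pm_102_s1 : ∃ t, chk3 f_B00pm_102_s1 t 506 1019 1 = true := ex3_a t144_B00pm_102_s1 t143_B00pm_102_s1

theorem t146_B00pm_102_s1 : ∃ t, chk3 f_B00pm_102_s1 t 253 1019 1 = true := ex3_a t145_B00pm_102_s1 k104_B00pm_102_s1

theorem t147_B00pm_102_s1 : ∃ t, chk3 f_B00pm_102_s1 t 253 1018 1 = true := ex3_a k98_B00pm_102_s1 k99_B00pm_102_s1

theorem t148_B00pm_102_s1 : ∃ t, chk3 f_B00pm_102_s1 t 253 509 1 = true := ex3_b t147_B00pm_102_s1 t146_B00pm_102_s1

theorem t149_B00pm_102_s1 : ∃ t, chk3 f_B00pm_102_s1 t 507 508 1 = true := ex3_b k96_B00pm_102_s1 k97_B00pm_102_s1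

theorem t150_B00pm_102_s1 : ∃ t, chk3 f_B00pm_102_s1 t 253 508 1 = true := ex3_a k95_B00pm_102_s1 t149_B00pm_102_s1

theorem t151_B00pm_102_s1 : ∃ t, chk3 f_B00pm_102_s1 t 253 254 1 = true := ex3_b t150_B00pm_102_s1 t148_B00pm_102_s1

theorem t152_B00pm_102_s1 : ∃ t, chk3 f_B00pm_102_s1 t 252 254 1 = true := ex3_b k93_B00pm_102_s1 k94_B00pm_102_s1

theorem t153_B00pm_102_s1 : ∃ t, chk3 f_B00pm_102_s1 t 126 254 1 = true := ex3_a t152_B00pm_102_s1 t151_B00pm_102_s1

theorem t154_B00pm_102_s1 : ∃ t, chk3 f_B00pm_102_s1 t 126 127 1 = true := ex3_b t153_B00pm_102_s1 t142_B00pm_102_s1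

theorem t155_B00pm_102_s1 : ∃ t, chk3 f_B00pm_102_s1 t 63 127 1 = true := ex3_a t154_B00pm_102_s1 t132_B00pm_102_s1

theorem t156_B00pm_102_s1 : ∃ t, chk3 f_B00pm_102_s1 t 1015 1015 1 = true := ex3_a k90_B00pm_102_s1 k91_B00pm_102_s1

theorem t157_B00pm_102_s1 : ∃ t, chk3 f_B00pm_102_s1 t 1015 507 1 = true := ex3_b k89_B00pm_102_s1 t156_B00pm_102_s1

theorem t158_B00pm_102_s1 : ∃ t, chk3 f_B00pm_102_s1 t 1014 1014 1 = true := ex3_a k86_B00pm_102_s1 k87_B00pm_102_s1

theorem t159_B00pm_102_s1 : ∃ t, chk3 f_B00pm_102_s1 t 1014 507 1 = true := ex3_b t158_B00pm_102_s1 k88_B00pm_102_s1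

theorem t160_B00pm_102_s1 : ∃ t, chk3 f_B00pm_102_s1 t 507 507 1 = true := ex3_a t159_B00pm_102_s1 t157_B00pm_102_s1

theorem t161_B00pm_102_s1 : ∃ t, chk3 f_B00pm_102_s1 t 507 253 1 = true := ex3_b k85_B00pm_102_s1 t160_B00pm_102_s1

theorem t162_B00pm_102_s1 : ∃ t, chk3 f_B00pm_102_s1 t 1013 506 1 = true := ex3_b k82_B00pm_102_s1 k83_B00pm_102_s1

theorem t163_B00pm_102_s1 : ∃ t, chk3 f_B00pm_102_s1 t 1012 506 1 = true := ex3_b k80_B00pm_102_s1 k81_B00pm_102_s1

theorem t164_B00pm_102_s1 : ∃ t, chk3 f_B00pm_102_s1 t 506 506 1 = true := ex3_a t163_B00pm_102_s1 t162_B00pm_102_s1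

theorem t165_B00pm_102_s1 : ∃ t, chk3 f_B00pm_102_s1 t 506 253 1 = true := ex3_b t164_B00pm_102_s1 k84_B00pm_102_s1

theorem t166_B00pm_102_s1 : ∃ t, chk3 f_B00pm_102_s1 t 253 253 1 = true := ex3_a t165_B00pm_102_s1 t161_B00pm_102_s1

theorem t167_B00pm_102_s1 : ∃ t, chk3 f_B00pm_102_s1 t 253 252 1 = true := ex3_b k78_B00pm_102_s1 k79_B00pm_102_s1

theorem t168_B00pm_102_s1 : ∃ t, chk3 f_B00pm_102_s1 t 253 126 1 = true := ex3_b t167_B00pm_102_s1 t166_B00pm_102_s1

theorem t169_B00pm_102_s1 : ∃ t, chk3 f_B00pm_102_s1 t 505 253 1 = true := ex3_b k76_B00pm_102_s1 k77_B00pm_102_s1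

theorem t170_B00pm_102_s1 : ∃ t, chk3 f_B00pm_102_s1 t 504 253 1 = true := ex3_b k74_B00pm_102_s1 k75_B00pm_102_s1

theorem t171_B00pm_102_s1 : ∃ t, chk3 f_B00pm_102_s1 t 252 253 1 = true := ex3_a t170_B00pm_102_s1 t169_B00pm_102_s1

theorem t172_B00pm_102_s1 : ∃ t, chk3 f_B00pm_102_s1 t 1010 1010 1 = true := ex3_a k70_B00pm_102_s1 k71_B00pm_102_s1

theorem t173_B00pm_102_s1 : ∃ t, chk3 f_B00pm_102_s1 t 1010 505 1 = true := ex3_b t172_B00pm_102_s1 k72_B00pm_102_s1

theorem t174_B00pm_102_s1 : ∃ t, chk3 f_B00pm_102_s1 t 505 505 1 = true := ex3_a t173_B00pm_102_s1 k73_B00pm_102_s1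

theorem t175_B00pm_102_s1 : ∃ t, chk3 f_B00pm_102_s1 t 505 252 1 = true := ex3_b k69_B00pm_102_s1 t174_B00pm_102_s1

theorem t176_B00pm_102_s1 : ∃ t, chk3 f_B00pm_102_s1 t 504 505 1 = true := ex3_b k67_B00pm_102_s1 k68_B00pm_102_s1

theorem t177_B00pm_102_s1 : ∃ t, chk3 f_B00pm_102_s1 t 1009 1009 1 = true := ex3_a k65_B00pm_102_s1 k66_B00pm_102_s1

theorem t178_B00pm_102_s1 : ∃ t, chk3 f_B00pm_102_s1 t 1009 504 1 = true := ex3_b k64_B00pm_102_s1 t177_B00pm_102_s1

theorem t179_B00pm_102_s1 : ∃ t, chk3 f_B00pm_102_s1 t 1008 1008 1 = true := ex3_b k61_B00pm_102_s1 k62_B00pm_102_s1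

theorem t180_B00pm_102_s1 : ∃ t, chk3 f_B00pm_102_s1 t 1008 504 1 = true := ex3_b t179_B00pm_102_s1 k63_B00pm_102_s1

theorem t181_B00pm_102_s1 : ∃ t, chk3 f_B00pm_102_s1 t 504 504 1 = true := ex3_a t180_B00pm_102_s1 t178_B00pm_102_s1

theorem t182_B00pm_102_s1 : ∃ t, chk3 f_B00pm_102_s1 t 504 252 1 = true := ex3_b t181_B00pm_102_s1 t176_B00pm_102_s1

theorem t183_B00pm_102_s1 : ∃ t, chk3 f_B00pm_102_s1 t 252 252 1 = true := ex3_a t182_B00pm_102_s1 t175_B00pm_102_s1

theorem t184_B00pm_102_s1 : ∃ t, chk3 f_B00pm_102_s1 t 252 126 1 = true := ex3_b t183_B00pm_102_s1 t171_B00pm_102_s1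

theorem t185_B00pm_102_s1 : ∃ t, chk3 f_B00pm_102_s1 t 126 126 1 = true := ex3_a t184_B00pm_102_s1 t168_B00pm_102_s1

theorem t186_B00pm_102_s1 : ∃ t, chk3 f_B00pm_102_s1 t 63 126 1 = true := ex3_a t185_B00pm_102_s1 k92_B00pm_102_s1

theorem t187_B00pm_102_s1 : ∃ t, chk3 f_B00pm_102_s1 t 63 63 1 = true := ex3_b t186_B00pm_102_s1 t155_B00pm_102_s1

theorem t188_B00pm_102_s1 : ∃ t, chk3 f_B00pm_102_s1 t 503 505 1 = true := ex3_a k57_B00pm_102_s1 k58_B00pm_102_s1

theorem t189_B00pm_102_s1 : ∃ t, chk3 f_B00pm_102_s1 t 251 505 1 = true := ex3_a k56_B00pm_102_s1 t188_B00pm_102_s1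

theorem t190_B00pm_102_s1 : ∃ t, chk3 f_B00pm_102_s1 t 503 504 1 = true := ex3_a k54_B00pm_102_s1 k55_B00pm_102_s1

theorem t191_B00pm_102_s1 : ∃ t, chk3 f_B00pm_102_s1 t 251 504 1 = true := ex3_a k53_B00pm_102_s1 t190_B00pm_102_s1

theorem t192_B00pm_102_s1 : ∃ t, chk3 f_B00pm_102_s1 t 251 252 1 = true := ex3_b t191_B00pm_102_s1 t189_B00pm_102_s1

theorem t193_B00pm_102_s1 : ∃ t, chk3 f_B00pm_102_s1 t 125 252 1 = true := ex3_a k52_B00pm_102_s1 t192_B00pm_102_s1

theorem t194_B00pm_102_s1 : ∃ t, chk3 f_B00pm_102_s1 t 125 126 1 = true := ex3_b t193_B00pm_102_s1 k59_B00pm_102_s1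

theorem t195_B00pm_102_s1 : ∃ t, chk3 f_B00pm_102_s1 t 62 126 1 = true := ex3_a k51_B00pm_102_s1 t194_B00pm_102_s1

theorem t196_B00pm_102_s1 : ∃ t, chk3 f_B00pm_102_s1 t 62 63 1 = true := ex3_b t195_B00pm_102_s1 k60_B00pm_102_s1

theorem t197_B00pm_102_s1 : ∃ t, chk3 f_B00pm_102_s1 t 31 63 1 = true := ex3_a t196_B00pm_102_s1 t187_B00pm_102_s1

theorem t198_B00pm_102_s1 : ∃ t, chk3 f_B00pm_102_s1 t 252 125 1 = true := ex3_a k47_B00pm_102_s1 k48_B00pm_102_s1

theorem t199_B00pm_102_s1 : ∃ t, chk3 f_B00pm_102_s1 t 126 125 1 = true := ex3_a t198_B00pm_102_s1 k49_B00pm_102_s1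

theorem t200_B00pm_102_s1 : ∃ t, chk3 f_B00pm_102_s1 t 126 62 1 = true := ex3_b k46_B00pm_102_s1 t199_B00pm_102_s1

theorem t201_B00pm_102_s1 : ∃ t, chk3 f_B00pm_102_s1 t 63 62 1 = true := ex3_a t200_B00pm_102_s1 k50_B00pm_102_s1

theorem t202_B00pm_102_s1 : ∃ t, chk3 f_B00pm_102_s1 t 1007 1007 1 = true := ex3_b k44_B00pm_102_s1 k45_B00pm_102_s1

theorem t203_B00pm_102_s1 : ∃ t, chk3 f_B00pm_102_s1 t 1007 503 1 = true := ex3_b k43_B00pm_102_s1 t202_B00pm_102_s1

theorem t204_B00pm_102_s1 : ∃ t, chk3 f_B00pm_102_s1 t 1006 503 1 = true := ex3_a k41_B00pm_102_s1 k42_B00pm_102_s1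

theorem t205_B00pm_102_s1 : ∃ t, chk3 f_B00pm_102_s1 t 503 503 1 = true := ex3_a t204_B00pm_102_s1 t203_B00pm_102_s1

theorem t206_B00pm_102_s1 : ∃ t, chk3 f_B00pm_102_s1 t 503 251 1 = true := ex3_b k40_B00pm_102_s1 t205_B00pm_102_s1

theorem t207_B00pm_102_s1 : ∃ t, chk3 f_B00pm_102_s1 t 1005 1005 1 = true := ex3_b k37_B00pm_102_s1 k38_B00pm_102_s1

theorem t208_B00pm_102_s1 : ∃ t, chk3 f_B00pm_102_s1 t 502 1005 1 = true := ex3_a k36_B00pm_102_s1 t207_B00pm_102_s1

theorem t209_B00pm_102_s1 : ∃ t, chk3 f_B00pm_102_s1 t 502 502 1 = true := ex3_b k35_B00pm_102_s1 t208_B00pm_102_s1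

theorem t210_B00pm_102_s1 : ∃ t, chk3 f_B00pm_102_s1 t 502 251 1 = true := ex3_b t209_B00pm_102_s1 k39_B00pm_102_s1

theorem t211_B00pm_102_s1 : ∃ t, chk3 f_B00pm_102_s1 t 251 251 1 = true := ex3_a t210_B00pm_102_s1 t206_B00pm_102_s1

theorem t212_B00pm_102_s1 : ∃ t, chk3 f_B00pm_102_s1 t 251 125 1 = true := ex3_b k34_B00pm_102_s1 t211_B00pm_102_s1

theorem t213_B00pm_102_s1 : ∃ t, chk3 f_B00pm_102_s1 t 501 250 1 = true := ex3_a k31_B00pm_102_s1 k32_B00pm_102_s1

theorem t214_B00pm_102_s1 : ∃ t, chk3 f_B00pm_102_s1 t 500 500 1 = true := ex3_a k28_B00pm_102_s1 k29_B00pm_102_s1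

theorem t215_B00pm_102_s1 : ∃ t, chk3 f_B00pm_102_s1 t 500 250 1 = true := ex3_b t214_B00pm_102_s1 k30_B00pm_102_s1

theorem t216_B00pm_102_s1 : ∃ t, chk3 f_B00pm_102_s1 t 250 250 1 = true := ex3_a t215_B00pm_102_s1 t213_B00pm_102_s1

theorem t217_B00pm_102_s1 : ∃ t, chk3 f_B00pm_102_s1 t 250 125 1 = true := ex3_b t216_B00pm_102_s1 k33_B00pm_102_s1

theorem t218_B00pm_102_s1 : ∃ t, chk3 f_B00pm_102_s1 t 125 125 1 = true := ex3_a t217_B00pm_102_s1 t212_B00pm_102_s1

theorem t219_B00pm_102_s1 : ∃ t, chk3 f_B00pm_102_s1 t 125 124 1 = true := ex3_b k26_B00pm_102_s1 k27_B00pm_102_s1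

theorem t220_B00pm_102_s1 : ∃ t, chk3 f_B00pm_102_s1 t 125 62 1 = true := ex3_b t219_B00pm_102_s1 t218_B00pm_102_s1

theorem t221_B00pm_102_s1 : ∃ t, chk3 f_B00pm_102_s1 t 249 124 1 = true := ex3_a k23_B00pm_102_s1 k24_B00pm_102_s1

theorem t222_B00pm_102_s1 : ∃ t, chk3 f_B00pm_102_s1 t 124 124 1 = true := ex3_a k22_B00pm_102_s1 t221_B00pm_102_s1

theorem t223_B00pm_102_s1 : ∃ t, chk3 f_B00pm_102_s1 t 124 62 1 = true := ex3_b t222_B00pm_102_s1 k25_B00pm_102_s1

theorem t224_B00pm_102_s1 : ∃ t, chk3 f_B00pm_102_s1 t 62 62 1 = true := ex3_a t223_B00pm_102_s1 t220_B00pm_102_s1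

theorem t225_B00pm_102_s1 : ∃ t, chk3 f_B00pm_102_s1 t 31 62 1 = true := ex3_a t224_B00pm_102_s1 t201_B00pm_102_s1

theorem t226_B00pm_102_s1 : ∃ t, chk3 f_B00pm_102_s1 t 31 31 1 = true := ex3_b t225_B00pm_102_s1 t197_B00pm_102_s1

theorem t227_B00pm_102_s1 : ∃ t, chk3 f_B00pm_102_s1 t 31 15 1 = true := ex3_b k21_B00pm_102_s1 t226_B00pm_102_s1

theorem t228_B00pm_102_s1 : ∃ t, chk3 f_B00pm_102_s1 t 30 30 1 = true := ex3_a k18_B00pm_102_s1 k19_B00pm_102_s1

theorem t229_B00pm_102_s1 : ∃ t, chk3 f_B00pm_102_s1 t 30 15 1 = true := ex3_b t228_B00pm_102_s1 k20_B00pm_102_s1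

theorem t230_B00pm_102_s1 : ∃ t, chk3 f_B00pm_102_s1 t 15 15 1 = true := ex3_a t229_B00pm_102_s1 t227_B00pm_102_s1

theorem t231_B00pm_102_s1 : ∃ t, chk3 f_B00pm_102_s1 t 242 118 1 = true := ex3_b k12_B00pm_102_s1 k13_B00pm_102_s1

theorem t232_B00pm_102_s1 : ∃ t, chk3 f_B00pm_102_s1 t 121 118 1 = true := ex3_a t231_B00pm_102_s1 k14_B00pm_102_s1

theorem t233_B00pm_102_s1 : ∃ t, chk3 f_B00pm_102_s1 t 121 59 1 = true := ex3_b t232_B00pm_102_s1 k15_B00pm_102_s1

theorem t234_B00pm_102_s1 : ∃ t, chk3 f_B00pm_102_s1 t 60 59 1 = true := ex3_a k11_B00pm_102_s1 t233_B00pm_102_s1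

theorem t235_B00pm_102_s1 : ∃ t, chk3 f_B00pm_102_s1 t 60 29 1 = true := ex3_b k10_B00pm_102_s1 t234_B00pm_102_s1

theorem t236_B00pm_102_s1 : ∃ t, chk3 f_B00pm_102_s1 t 30 29 1 = true := ex3_a t235_B00pm_102_s1 k16_B00pm_102_s1

theorem t237_B00pm_102_s1 : ∃ t, chk3 f_B00pm_102_s1 t 30 14 1 = true := ex3_b k9_B00pm_102_s1 t236_B00pm_102_s1

theorem t238_B00pm_102_s1 : ∃ t, chk3 f_B00pm_102_s1 t 15 14 1 = true := ex3_a t237_B00pm_102_s1 k17_B00pm_102_s1

theorem t239_B00pm_102_s1 : ∃ t, chk3 f_B00pm_102_s1 t 15 7 1 = true := ex3_b t238_B00pm_102_s1 t230_B00pm_102_s1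

theorem t240_B00pm_102_s1 : ∃ t, chk3 f_B00pm_102_s1 t 29 28 1 = true := ex3_b k5_B00pm_102_s1 k6_B00pm_102_s1

theorem t241_B00pm_102_s1 : ∃ t, chk3 f_B00pm_102_s1 t 29 14 1 = true := ex3_b t240_B00pm_102_s1 k7_B00pm_102_s1

theorem t242_B00pm_102_s1 : ∃ t, chk3 f_B00pm_102_s1 t 14 14 1 = true := ex3_a k4_B00pm_102_s1 t241_B00pm_102_s1

theorem t243_B00pm_102_s1 : ∃ t, chk3 f_B00pm_102_s1 t 14 7 1 = true := ex3_b t242_B00pm_102_s1 k8_B00pm_102_s1

theorem t244_B00pm_102_s1 : ∃ t, chk3 f_B00pm_102_s1 t 7 7 1 = true := ex3_a t243_B00pm_102_s1 t239_B00pm_102_s1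

theorem t245_B00pm_102_s1 : ∃ t, chk3 f_B00pm_102_s1 t 7 3 1 = true := ex3_b k3_B00pm_102_s1 t244_B00pm_102_s1

theorem t246_B00pm_102_s1 : ∃ t, chk3 f_B00pm_102_s1 t 3 3 1 = true := ex3_a k2_B00pm_102_s1 t245_B00pm_102_s1

theorem t247_B00pm_102_s1 : ∃ t, chk3 f_B00pm_102_s1 t 3 1 1 = true := ex3_b k1_B00pm_102_s1 t246_B00pm_102_s1

theorem t248_B00pm_102_s1 : ∃ t, chk3 f_B00pm_102_s1 t 1 1 1 = true := ex3_a k0_B00pm_102_s1 t247_B00pm_102_s1

theorem c_B00pm_102_s1 : CertF 536870912 536870912 0 536870912 1033476505 6710887 false true false .npp 1 0 2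
    ndB0q1 ndB0q2 pcB0 cut_B00pm_102_s1 xt_B00pm_102_s1 :=
  certF0 (fam := false) (s1 := true) (s2 := false) (a := 1) (b := 0) (c := 2) (cn := .npp) (n1 := ndB0q1) (n2 := ndB0q2) (pc := pcB0) (cut := cut_B00pm_102_s1) (xt := xt_B00pm_102_s1) (P1 := 536870912) (W1 := 536870912) (P2 := 0) (W2 := 536870912) (P3 := 1033476505) (W3 := 6710887)
    rfl t248_B00pm_102_s1

theorem s_B00pm_102_s1 {κ x : ℝ} (hκ : κ * h0 = ken x) (hx : ((1033476505 : ℕ) : ℝ) / S ≤ x)
    (hx' : x ≤ (((1033476505 : ℕ) : ℝ) + (6710887 : ℕ)) / S)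
    (H : CutB (VFD κ) PP tK tL pcB (Cut.of [[⟨0, 1, 0, 11184810⟩, ⟨1, 0, 0, 11184810⟩, ⟨2, 1, 0, 11184810⟩], [⟨0, 0, 1, 46137344⟩, ⟨1, 1, 2, 46137344⟩, ⟨2, 1, 0, 1048576⟩, ⟨0, 0, 0, 1047972020⟩, ⟨0, 1, 0, 45097156⟩, ⟨1, 0, 0, 45097156⟩, ⟨1, 1, 0, 1047972020⟩]]) 1 0 2 0 0 (sgb true) (sgb false) x) :
    AltB (VFD κ) PP tK tL pcB [⟨3, 0, 0, 1100585369⟩] 1 0 2 0 0 (sgb true) (sgb false) x :=
  strip_altBD (m := 1100585369) true rfl hκ (SH.κ0 hκ (SH.hx1 hx).le (SH.hx2 hx').le) (SH.hx1 hx).le (SH.hx2 hx') (covB01).cov (covB02).cov hx hx' c_B00pm_102_s1 H ((okx hx hx').extB (T := tt) (sideB hx hx') hκ rfl rfl (.O 1 true) (.O 2 false) (Or.inl rfl))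

end Pool.Agent.Strip051.G.I9625_9688.Tab.St.C
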